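import Pool.Agent.W986.Dat.Tab
import Pool.Agent.W986.SubAltB

/-!
# Entries 3361 to 3479 of the table
-/

set_option autoImplicit false

namespace Pool.Agent.W986.ST.Dat

/-- 48458446:2558/3 -/
noncomputable def e3361 : SCfg where
  D := {
    a := 8
    L := 10
    kp := 7
    inn := [(0, 1), (0, 3), (0, 7), (1, 0), (1, 2), (1, 3), (1, 4), (1, 6), (1, 7), (2, 1), (2, 4), (3,
      0), (3, 1), (3, 4), (4, 1), (4, 2), (4, 3), (4, 5), (5, 4), (6, 1), (7, 0), (7, 1)]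
    mix := [(0, 0), (1, 1), (1, 2), (2, 1), (2, 3), (3, 0), (3, 4), (4, 3), (4, 4), (4, 5), (4, 6), (5,
      3), (5, 6), (5, 7), (6, 1), (6, 2), (6, 8), (7, 0), (7, 2), (7, 7), (7, 9)]
    cl := [0, 3, 0, 1, 1, 5, 4, 2, 6, 7]
    chq := [(0, 3), (2, 5), (3, 0), (5, 2)]
    rng := [(0, 4), (0, 7), (1, 3), (1, 8), (2, 8), (2, 9), (3, 1), (3, 7), (4, 0), (4, 5), (5, 4), (5,
      6), (6, 5), (6, 7), (7, 0), (7, 3), (7, 6), (7, 9), (8, 1), (8, 2), (9, 2), (9, 7)]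
    lev := [] }
  links := [[1, 7, 8, 3], [7, 0, 3, 4, 2, 9, 6, 10], [9, 1, 4, 11], [4, 1, 0, 8, 12], [11, 2, 1, 3, 12,
    13, 14, 5], [11, 4, 14, 15], [10, 1, 9, 16], [8, 0, 1, 10, 17, 15]]
  P := {
    a := 8
    N := 18
    nb := [394, 1757, 2578, 4371, 30766, 51216, 67074, 165123, 37001, 67654, 196802, 33332, 8472,
      20496, 41008, 149920, 1600, 33920]
    tri := [(0, 1, 3), (0, 1, 7), (0, 3, 8), (0, 7, 8), (1, 2, 4), (1, 2, 9), (1, 3, 4), (1, 6, 9), (1,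
      6, 10), (1, 7, 10), (2, 4, 11), (2, 9, 11), (3, 4, 12), (3, 8, 12), (4, 5, 11), (4, 5, 14),
      (4, 12, 13), (4, 13, 14), (5, 11, 15), (5, 14, 15), (6, 9, 16), (6, 10, 16), (7, 8, 15), (7,
      10, 17), (7, 15, 17)]
    fin := [0, 1, 1, 1, 4, 4, 0, 0, 0, 9, 0, 1, 1, 4, 14, 15, 16, 17]
    chd := [(0, 9), (4, 15)]
    steps := [(0, 7), (0, 8), (0, 10), (0, 6), (1, 2), (1, 3), (1, 12), (1, 11), (4, 5), (4, 13)] }
  rep := [0, 1, 15, 9, 14, 4, 16, 17]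

noncomputable def v3361 : Cov.CovD where
  P := 3
  N := 5
  pl := [6, 8, 9]
  lev := [⟨[], [], [], [], [(0, 0, [3])]⟩,
    ⟨[], [(0, 0), (0, 3)], [(0, 3)], [], [(1, 3, [0]), (2, 0, [3])]⟩,
    ⟨[(0, 1)], [(1, 0), (1, 1), (1, 3)], [(1, 3)], [], [(1, 3, [0]), (3, 1, [])]⟩,
    ⟨[(0, 1), (1, 2)], [(0, 0), (0, 1), (1, 0), (1, 1), (1, 3)], [(0, 1)], [], [(0, 0,
      [3]), (4, 1, [])]⟩,
    ⟨[(0, 1), (0, 3), (1, 2), (1, 3), (2, 3)], [(1, 0), (1, 1), (1, 3), (1, 5), (2, 1), (2,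
      3), (2, 5), (3, 0), (3, 1), (3, 5)], [(1, 1), (1, 5)], [4], [(3, 1, []), (4, 1, []),
      (5, 5, [2])]⟩,
    ⟨[(1, 4), (2, 4), (3, 4)], [(2, 1), (4, 1), (4, 2), (4, 5)], [(1, 2)], [4], [(3, 1,
      []), (7, 2, [5])]⟩,
    ⟨[(0, 1), (1, 2), (1, 3), (1, 4)], [(1, 0), (1, 3), (2, 3)], [(0, 3)], [6], [(1, 3,
      [0]), (2, 0, [3])]⟩,
    ⟨[(0, 1), (0, 3), (1, 2), (1, 3), (1, 4), (1, 6)], [(0, 0), (0, 2), (1, 0), (1, 2), (1,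
      3), (3, 0), (5, 2), (6, 0)], [(0, 0), (0, 2)], [7], [(0, 0, [3]), (2, 0, [3]), (7, 2,
      [5])]⟩]
  Ta := [((0, 4), 0, 1), ((0, 7), 0, 2), ((2, 8), 0, 6), ((2, 9), 0, 7), ((3, 1), 1, 3), ((3, 7),
    1, 2), ((4, 0), 1, 0), ((4, 5), 1, 5)]
  Tb := [((0, 4, 7), 0, 1, 2), ((1, 3, 8), 3, 1, 6), ((2, 8, 9), 0, 6, 7), ((3, 1, 7), 1, 3, 2),
    ((4, 0, 5), 1, 0, 5), ((5, 4, 6), 5, 1, 4), ((6, 5, 7), 4, 5, 2), ((7, 0, 3), 2, 0, 1),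
    ((7, 0, 6), 2, 0, 4), ((7, 0, 9), 2, 0, 7), ((7, 3, 6), 2, 1, 4), ((7, 3, 9), 2, 1, 7),
    ((7, 6, 9), 2, 4, 7), ((8, 1, 2), 6, 3, 0), ((9, 2, 7), 7, 0, 2)]
  Tc := []
  Td := [((0, 3), (0, 4), 1), ((0, 3), (0, 7), 2), ((0, 3), (2, 8), 6), ((0, 3), (2, 9), 7), ((2,
    5), (7, 0), 0), ((2, 5), (7, 3), 1), ((2, 5), (7, 6), 4), ((2, 5), (7, 9), 7), ((3, 0),
    (1, 3), 1), ((3, 0), (1, 8), 6), ((5, 2), (5, 4), 1), ((5, 2), (5, 6), 4)]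
  G := [[0, 0, 0xa1a1c184c1c1c14162, 0xcca114cccb88492c1114cccd44852a,
    0xa18aa3192a1a194254aa91aa9158aaada494a282f88c92c], [0,
    0xc18c1c1c641c14818c1c1ce81c18418c41e2, 0x6161618128, 0, 0xaac814aaad2a185aaad88c524],
    [0, 0, 0, 0xcca118cc6118ccce8ccce4c1d24,
    0x2261142212a2e2a2e9c2988a114aa2e882a82a92a2e8d29a8a18a8e8ace9a8a8d81e1], [0, 0, 0, 0,
    0x221222228d41221a2198222485a82a8a258a4114aa8e1a8aac6ac8de1]]

noncomputable def n3361 : Ent := ⟨e3361, noF, [], [], []⟩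

def c3361 : PLift (Cov.check n3361.C.D v3361 = true) := ⟨by decide +kernel⟩

def b3361 : PLift (entF (fidx ts) 400 3361 n3361 = true) := ⟨by decide +kernel⟩

theorem g3361 : GoodF (fidx ts) 400 3361 := GoodF.ofV v3361 n3361 c3361.down b3361.down

/-- 48458446:2558 -/
noncomputable def e3362 : SCfg where
  D := {
    a := 8
    L := 11
    kp := 8
    inn := [(0, 1), (0, 3), (0, 7), (1, 0), (1, 2), (1, 3), (1, 4), (1, 6), (1, 7), (2, 1), (2, 4), (3,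
      0), (3, 1), (3, 4), (4, 1), (4, 2), (4, 3), (4, 5), (5, 4), (6, 1), (7, 0), (7, 1)]
    mix := [(0, 0), (1, 1), (1, 2), (2, 1), (2, 3), (3, 0), (3, 4), (4, 3), (4, 4), (4, 5), (4, 6), (5,
      3), (5, 6), (5, 7), (6, 1), (6, 2), (6, 8), (7, 0), (7, 2), (7, 9), (7, 10)]
    cl := [0, 2, 0, 1, 1, 4, 3, 5, 6, 7, 8]
    chq := [(0, 2), (2, 0), (4, 5), (5, 4)]
    rng := [(0, 4), (0, 10), (1, 3), (1, 8), (2, 8), (2, 9), (3, 1), (3, 7), (4, 0), (4, 5), (5, 4),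
      (5, 6), (6, 5), (6, 7), (7, 3), (7, 6), (8, 1), (8, 2), (9, 2), (9, 10), (10, 0), (10, 9)]
    lev := [] }
  links := [[1, 7, 8, 3], [7, 0, 3, 4, 2, 9, 6, 10], [9, 1, 4, 11], [4, 1, 0, 8, 12], [11, 2, 1, 3, 12,
    13, 14, 5], [11, 4, 14, 15], [10, 1, 9, 16], [8, 0, 1, 10, 17, 18]]
  P := {
    a := 8
    N := 19
    nb := [394, 1757, 2578, 4371, 30766, 51216, 67074, 394499, 266377, 67654, 196802, 33332, 8472,
      20496, 41008, 18464, 1600, 263296, 131456]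
    tri := [(0, 1, 3), (0, 1, 7), (0, 3, 8), (0, 7, 8), (1, 2, 4), (1, 2, 9), (1, 3, 4), (1, 6, 9), (1,
      6, 10), (1, 7, 10), (2, 4, 11), (2, 9, 11), (3, 4, 12), (3, 8, 12), (4, 5, 11), (4, 5, 14),
      (4, 12, 13), (4, 13, 14), (5, 11, 15), (5, 14, 15), (6, 9, 16), (6, 10, 16), (7, 8, 18), (7,
      10, 17), (7, 17, 18)]
    fin := [0, 1, 1, 1, 4, 4, 0, 0, 0, 9, 0, 1, 1, 4, 14, 15, 16, 17, 18]
    chd := [(0, 9), (4, 15)]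
    steps := [(0, 7), (0, 8), (0, 10), (0, 6), (1, 2), (1, 3), (1, 12), (1, 11), (4, 5), (4, 13)] }
  rep := [0, 1, 9, 14, 4, 15, 16, 17, 18]

noncomputable def v3362 : Cov.CovD where
  P := 3
  N := 6
  pl := [6, 8, 9, 10]
  lev := [⟨[], [], [], [], [(0, 0, [2])]⟩,
    ⟨[], [(0, 0), (0, 2)], [(0, 2)], [], [(1, 2, [0]), (2, 0, [2])]⟩,
    ⟨[(0, 1)], [(1, 0), (1, 1), (1, 2)], [(1, 2)], [], [(1, 2, [0]), (3, 1, [])]⟩,
    ⟨[(0, 1), (1, 2)], [(0, 0), (0, 1), (1, 0), (1, 1), (1, 2)], [(0, 1)], [], [(0, 0,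
      [2]), (4, 1, [])]⟩,
    ⟨[(0, 1), (0, 3), (1, 2), (1, 3), (2, 3)], [(1, 0), (1, 1), (1, 2), (1, 4), (2, 1), (2,
      2), (2, 4), (3, 0), (3, 1), (3, 4)], [(1, 1), (1, 4)], [3], [(3, 1, []), (4, 1, []),
      (5, 4, [5])]⟩,
    ⟨[(1, 4), (2, 4), (3, 4)], [(2, 1), (4, 1), (4, 4), (4, 5)], [(1, 5)], [3], [(3, 1,
      []), (7, 5, [4])]⟩,
    ⟨[(0, 1), (1, 2), (1, 3), (1, 4)], [(1, 0), (1, 2), (2, 2)], [(0, 2)], [6], [(1, 2,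
      [0]), (2, 0, [2])]⟩,
    ⟨[(0, 1), (0, 3), (1, 2), (1, 3), (1, 4), (1, 6)], [(0, 0), (1, 0), (1, 2), (3, 0), (6,
      0)], [(0, 0)], [7, 8], [(0, 0, [2]), (2, 0, [2])]⟩]
  Ta := [((0, 4), 0, 1), ((0, 10), 0, 8), ((2, 8), 0, 6), ((2, 9), 0, 7), ((3, 1), 1, 2), ((3,
    7), 1, 5), ((4, 0), 1, 0), ((4, 5), 1, 4)]
  Tb := [((0, 4, 10), 0, 1, 8), ((1, 3, 8), 2, 1, 6), ((2, 8, 9), 0, 6, 7), ((3, 1, 7), 1, 2, 5),
    ((4, 0, 5), 1, 0, 4), ((5, 4, 6), 4, 1, 3), ((6, 5, 7), 3, 4, 5), ((7, 3, 6), 5, 1, 3),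
    ((8, 1, 2), 6, 2, 0), ((9, 2, 10), 7, 0, 8), ((10, 0, 9), 8, 0, 7)]
  Tc := []
  Td := [((0, 2), (0, 4), 1), ((0, 2), (0, 10), 8), ((0, 2), (2, 8), 6), ((0, 2), (2, 9), 7),
    ((2, 0), (1, 3), 1), ((2, 0), (1, 8), 6), ((4, 5), (5, 4), 1), ((4, 5), (5, 6), 3), ((5,
    4), (7, 3), 1), ((5, 4), (7, 6), 3)]
  G := [[0, 0, 0x4464469428e86e4aee5aaaaaa96aceeeacd28c1, 0x61615e1e19e1e1cd2181815821c4,
    0x61861452861e1581e19e181cd8148c1a4], [0, 0x6114141c6261182a1c1a42da1128a1816829c4,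
    0xa86acea184822cee4e8fe46eecac1924, 0, 0x6124e1e13812e1e1adc828], [0, 0,
    0xeecea4e9eeceecc58eece2ce584921, 0x4486444c524eaceac588a89e8ceaccd28c444456ac4ec9c118a,
    0x2222c1626256ea4ea9c91ecaecac18e8ae8a588a89c19a4], [0, 0,
    0x686e4e8e122cec4e2c7a4a62ce84bc5828, 0, 0x222e22236ea6ea6d41eca2e8eca38888cd41a1]]

noncomputable def n3362 : Ent := ⟨e3362, noF, [], [], [(15, 16, [31810581851548793677511941751458610980409781099126250235727204310991368193, 0]), (15, 17, [31810150492402119267275227079217218666319002904815489586567506653227384833, 0]), (15, 18, [30043303427623734937691929578474300150491519007939870628445900451934769153, 0])]⟩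

def c3362 : PLift (Cov.check n3362.C.D v3362 = true) := ⟨by decide +kernel⟩

def b3362 : PLift (entF (fidx ts) 400 3362 n3362 = true) := ⟨by decide +kernel⟩

theorem g3362 : GoodF (fidx ts) 400 3362 := GoodF.ofV v3362 n3362 c3362.down b3362.down

/-- 48457444:2560/3 -/
noncomputable def e3363 : SCfg where
  D := {
    a := 8
    L := 8
    kp := 5
    inn := [(0, 1), (0, 3), (1, 0), (1, 2), (1, 3), (1, 7), (2, 1), (2, 4), (3, 0), (3, 1), (4, 2), (4,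
      5), (4, 6), (5, 4), (6, 4), (7, 1)]
    mix := [(0, 0), (0, 1), (1, 0), (1, 2), (1, 3), (1, 4), (2, 2), (2, 3), (3, 1), (3, 2), (3, 5), (4,
      2), (4, 3), (4, 6), (4, 7), (5, 2), (5, 5), (5, 6), (6, 1), (6, 6), (6, 7), (7, 3), (7, 4),
      (7, 7)]
    cl := [0, 2, 0, 0, 5, 4, 3, 1]
    chq := [(1, 3), (1, 4), (3, 1), (4, 1)]
    rng := [(0, 1), (0, 4), (1, 0), (1, 5), (1, 6), (1, 7), (2, 5), (3, 7), (4, 0), (4, 7), (5, 1), (5,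
      2), (5, 6), (6, 1), (6, 5), (7, 1), (7, 3), (7, 4)]
    lev := [] }
  links := [[1, 8, 9, 3], [8, 0, 3, 10, 2, 11, 7, 12], [11, 1, 10, 4], [10, 1, 0, 9, 13], [11, 2, 10, 5,
    14, 6, 15], [14, 4, 10, 13], [15, 4, 14, 9], [12, 1, 11, 15]]
  P := {
    a := 8
    N := 16
    nb := [778, 7565, 3090, 9731, 52324, 25616, 49680, 38914, 4611, 57673, 8254, 32918, 33154, 17960,
      8816, 6864]
    tri := [(0, 1, 3), (0, 1, 8), (0, 3, 9), (0, 8, 9), (1, 2, 10), (1, 2, 11), (1, 3, 10), (1, 7, 11),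
      (1, 7, 12), (1, 8, 12), (2, 4, 10), (2, 4, 11), (3, 9, 13), (3, 10, 13), (4, 5, 10), (4, 5,
      14), (4, 6, 14), (4, 6, 15), (4, 11, 15), (5, 10, 13), (5, 13, 14), (6, 9, 14), (6, 9, 15),
      (7, 11, 15), (7, 12, 15)]
    fin := [0, 0, 0, 0, 4, 4, 6, 0, 0, 9, 0, 0, 12, 4, 6, 15]
    chd := [(4, 15), (6, 15)]
    steps := [(0, 1), (0, 2), (0, 3), (0, 7), (0, 8), (0, 10), (0, 11), (4, 5), (4, 13), (6, 14)] }
  rep := [0, 15, 9, 6, 4, 12]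

noncomputable def v3363 : Cov.CovD where
  P := 3
  N := 3
  pl := [1, 4]
  lev := [⟨[], [], [], [2], [(0, 0, [])]⟩,
    ⟨[], [(0, 0)], [(0, 0)], [5], [(0, 0, []), (2, 0, []), (3, 0, [])]⟩,
    ⟨[(0, 1)], [(1, 0)], [(0, 0)], [], [(2, 0, []), (3, 0, [])]⟩,
    ⟨[(0, 1), (1, 2)], [(0, 0), (0, 4), (1, 0), (1, 4), (2, 0)], [(0, 4)], [2], [(2, 0,
      []), (5, 4, [1])]⟩,
    ⟨[(1, 2)], [(1, 0), (2, 0), (2, 1), (2, 3), (3, 0)], [(0, 0), (0, 1), (0, 3), (1, 3)],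
      [], [(2, 0, []), (3, 0, []), (6, 3, [1]), (7, 1, [3, 4])]⟩,
    ⟨[(2, 4)], [(1, 0), (2, 0), (3, 0), (3, 4), (4, 0), (4, 1), (4, 3), (4, 4)], [(0, 3),
      (0, 4), (3, 4)], [], [(2, 0, []), (5, 4, [1]), (6, 3, [1])]⟩,
    ⟨[(2, 4), (4, 5)], [(4, 0), (4, 1), (4, 3), (5, 3)], [(1, 3)], [2], [(6, 3, [1]), (7,
      1, [3, 4])]⟩,
    ⟨[(0, 1), (1, 2), (1, 3)], [(1, 0), (1, 1), (2, 0), (4, 0), (4, 1), (6, 1)], [(0, 1)],
      [5], [(3, 0, []), (7, 1, [3, 4])]⟩]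
  Ta := [((0, 1), 0, 2), ((0, 4), 0, 5), ((2, 5), 0, 4), ((3, 7), 0, 1)]
  Tb := [((0, 1, 4), 0, 2, 5), ((1, 0, 5), 2, 0, 4), ((1, 0, 6), 2, 0, 3), ((1, 0, 7), 2, 0, 1),
    ((1, 5, 6), 2, 4, 3), ((1, 5, 7), 2, 4, 1), ((1, 6, 7), 2, 3, 1), ((4, 0, 7), 5, 0, 1),
    ((5, 1, 2), 4, 2, 0), ((5, 1, 6), 4, 2, 3), ((5, 2, 6), 4, 0, 3), ((6, 1, 5), 3, 2, 4),
    ((7, 1, 3), 1, 2, 0), ((7, 1, 4), 1, 2, 5), ((7, 3, 4), 1, 0, 5)]
  Tc := [(1, 3, 4)]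
  Td := [((1, 3), (7, 1), 2), ((1, 3), (7, 3), 0), ((1, 3), (7, 4), 5), ((1, 4), (7, 1), 2), ((1,
    4), (7, 3), 0), ((1, 4), (7, 4), 5), ((3, 1), (6, 1), 2), ((3, 1), (6, 5), 4), ((4, 1),
    (5, 1), 2), ((4, 1), (5, 2), 0), ((4, 1), (5, 6), 3)]
  G := [[0, 0, 0x881841c22181141c22c4, 0x982c42c1228, 0x882812c14182412c12c2], [0, 0, 0,
    0x118142c112142cc228, 0x482112c221811c2182112ca461], [0,
    0x4418816881841cc2281241a281244ac461, 0, 0xc82c42c1224, 0x882812c12482412c12c2]]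

noncomputable def n3363 : Ent := ⟨e3363, noF, [], [], []⟩

def c3363 : PLift (Cov.check n3363.C.D v3363 = true) := ⟨by decide +kernel⟩

def b3363 : PLift (entF (fidx ts) 400 3363 n3363 = true) := ⟨by decide +kernel⟩

theorem g3363 : GoodF (fidx ts) 400 3363 := GoodF.ofV v3363 n3363 c3363.down b3363.down

/-- 48457444:2560/2 -/
noncomputable def e3364 : SCfg where
  D := {
    a := 8
    L := 9
    kp := 6
    inn := [(0, 1), (0, 3), (1, 0), (1, 2), (1, 3), (1, 7), (2, 1), (2, 4), (3, 0), (3, 1), (4, 2), (4,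
      5), (4, 6), (5, 4), (6, 4), (7, 1)]
    mix := [(0, 0), (0, 1), (1, 0), (1, 2), (1, 3), (1, 4), (2, 2), (2, 3), (3, 1), (3, 2), (3, 5), (4,
      2), (4, 3), (4, 6), (4, 7), (5, 2), (5, 5), (5, 6), (6, 1), (6, 6), (6, 7), (7, 3), (7, 4),
      (7, 8)]
    cl := [0, 1, 0, 0, 5, 4, 3, 2, 6]
    chq := [(2, 3), (2, 4), (3, 2), (4, 2)]
    rng := [(0, 1), (0, 4), (1, 0), (1, 5), (1, 6), (1, 7), (2, 5), (3, 7), (3, 8), (4, 0), (4, 8), (5,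
      1), (5, 2), (5, 6), (6, 1), (6, 5), (7, 1), (7, 3), (8, 3), (8, 4)]
    lev := [] }
  links := [[1, 8, 9, 3], [8, 0, 3, 10, 2, 11, 7, 12], [11, 1, 10, 4], [10, 1, 0, 9, 13], [11, 2, 10, 5,
    14, 6, 15], [14, 4, 10, 13], [15, 4, 14, 9], [12, 1, 11, 16]]
  P := {
    a := 8
    N := 17
    nb := [778, 7565, 3090, 9731, 52324, 25616, 49680, 71682, 4611, 57673, 8254, 98454, 65922, 17960,
      8816, 2640, 6272]
    tri := [(0, 1, 3), (0, 1, 8), (0, 3, 9), (0, 8, 9), (1, 2, 10), (1, 2, 11), (1, 3, 10), (1, 7, 11),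
      (1, 7, 12), (1, 8, 12), (2, 4, 10), (2, 4, 11), (3, 9, 13), (3, 10, 13), (4, 5, 10), (4, 5,
      14), (4, 6, 14), (4, 6, 15), (4, 11, 15), (5, 10, 13), (5, 13, 14), (6, 9, 14), (6, 9, 15),
      (7, 11, 16), (7, 12, 16)]
    fin := [0, 0, 0, 0, 4, 4, 6, 0, 0, 9, 0, 0, 12, 4, 6, 15, 16]
    chd := [(4, 15), (6, 15)]
    steps := [(0, 1), (0, 2), (0, 3), (0, 7), (0, 8), (0, 10), (0, 11), (4, 5), (4, 13), (6, 14)] }
  rep := [0, 9, 15, 6, 4, 12, 16]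

noncomputable def v3364 : Cov.CovD where
  P := 3
  N := 4
  pl := [1, 4, 8]
  lev := [⟨[], [], [], [1], [(0, 0, [])]⟩,
    ⟨[], [(0, 0)], [(0, 0)], [5], [(0, 0, []), (2, 0, []), (3, 0, [])]⟩,
    ⟨[(0, 1)], [(1, 0)], [(0, 0)], [], [(2, 0, []), (3, 0, [])]⟩,
    ⟨[(0, 1), (1, 2)], [(0, 0), (0, 4), (1, 0), (1, 4), (2, 0)], [(0, 4)], [1], [(2, 0,
      []), (5, 4, [2])]⟩,
    ⟨[(1, 2)], [(1, 0), (2, 0), (2, 2), (2, 3), (3, 0)], [(0, 0), (0, 2), (0, 3), (2, 3)],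
      [], [(2, 0, []), (3, 0, []), (6, 3, [2]), (7, 2, [3, 4])]⟩,
    ⟨[(2, 4)], [(1, 0), (2, 0), (3, 0), (3, 4), (4, 0), (4, 2), (4, 3), (4, 4)], [(0, 3),
      (0, 4), (3, 4)], [], [(2, 0, []), (5, 4, [2]), (6, 3, [2])]⟩,
    ⟨[(2, 4), (4, 5)], [(4, 0), (4, 2), (4, 3), (5, 3)], [(2, 3)], [1], [(6, 3, [2]), (7,
      2, [3, 4])]⟩,
    ⟨[(0, 1), (1, 2), (1, 3)], [(1, 0), (2, 0), (4, 0)], [], [5, 6], [(3, 0, [])]⟩]
  Ta := [((0, 1), 0, 1), ((0, 4), 0, 5), ((2, 5), 0, 4), ((3, 7), 0, 2), ((3, 8), 0, 6)]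
  Tb := [((0, 1, 4), 0, 1, 5), ((1, 0, 5), 1, 0, 4), ((1, 0, 6), 1, 0, 3), ((1, 0, 7), 1, 0, 2),
    ((1, 5, 6), 1, 4, 3), ((1, 5, 7), 1, 4, 2), ((1, 6, 7), 1, 3, 2), ((3, 7, 8), 0, 2, 6),
    ((4, 0, 8), 5, 0, 6), ((5, 1, 2), 4, 1, 0), ((5, 1, 6), 4, 1, 3), ((5, 2, 6), 4, 0, 3),
    ((6, 1, 5), 3, 1, 4), ((7, 1, 3), 2, 1, 0), ((8, 3, 4), 6, 0, 5)]
  Tc := [(2, 3, 4)]
  Td := [((2, 3), (7, 1), 1), ((2, 3), (7, 3), 0), ((2, 4), (7, 1), 1), ((2, 4), (7, 3), 0), ((3,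
    2), (6, 1), 1), ((3, 2), (6, 5), 4), ((4, 2), (5, 1), 1), ((4, 2), (5, 2), 0), ((4, 2),
    (5, 6), 3)]
  G := [[0, 0x181141c22181141c22c4, 0, 0x182112c12d82d42c1264, 0xc84114a12184714a1468], [0, 0,
    0, 0x182114c42112142c88182112c182112cc4e4, 0x1418c114a4218811461848c2112248e1], [0, 0,
    0xc41c81642c41c88682a81a41a681641ac4e1, 0xc82c42c12682612c14a4, 0xc84c14a12684614a14a4]]

noncomputable def n3364 : Ent := ⟨e3364, noF, [], [], [(15, 16, [1580044410770988437309982408355971841652082177953823432505702887425, 0])]⟩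

def c3364 : PLift (Cov.check n3364.C.D v3364 = true) := ⟨by decide +kernel⟩

def b3364 : PLift (entF (fidx ts) 400 3364 n3364 = true) := ⟨by decide +kernel⟩

theorem g3364 : GoodF (fidx ts) 400 3364 := GoodF.ofV v3364 n3364 c3364.down b3364.down

/-- 48457444:2560/4 -/
noncomputable def e3365 : SCfg where
  D := {
    a := 8
    L := 9
    kp := 6
    inn := [(0, 1), (0, 3), (1, 0), (1, 2), (1, 3), (1, 7), (2, 1), (2, 4), (3, 0), (3, 1), (4, 2), (4,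
      5), (4, 6), (5, 4), (6, 4), (7, 1)]
    mix := [(0, 0), (0, 1), (1, 0), (1, 2), (1, 3), (1, 4), (2, 2), (2, 3), (3, 1), (3, 2), (3, 5), (4,
      2), (4, 3), (4, 6), (4, 7), (5, 2), (5, 6), (5, 8), (6, 1), (6, 6), (6, 7), (7, 3), (7, 4),
      (7, 7)]
    cl := [0, 2, 0, 0, 4, 6, 3, 1, 5]
    chq := [(1, 3), (1, 5), (3, 1), (5, 1)]
    rng := [(0, 1), (0, 4), (1, 0), (1, 5), (1, 6), (1, 7), (2, 5), (2, 8), (3, 7), (4, 0), (4, 7), (5,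
      1), (5, 2), (6, 1), (6, 8), (7, 1), (7, 3), (7, 4), (8, 2), (8, 6)]
    lev := [] }
  links := [[1, 8, 9, 3], [8, 0, 3, 10, 2, 11, 7, 12], [11, 1, 10, 4], [10, 1, 0, 9, 13], [11, 2, 10, 5,
    14, 6, 15], [14, 4, 10, 16], [15, 4, 14, 9], [12, 1, 11, 15]]
  P := {
    a := 8
    N := 17
    nb := [778, 7565, 3090, 9731, 52324, 82960, 49680, 38914, 4611, 57673, 73790, 32918, 33154, 1544,
      66160, 6864, 17440]
    tri := [(0, 1, 3), (0, 1, 8), (0, 3, 9), (0, 8, 9), (1, 2, 10), (1, 2, 11), (1, 3, 10), (1, 7, 11),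
      (1, 7, 12), (1, 8, 12), (2, 4, 10), (2, 4, 11), (3, 9, 13), (3, 10, 13), (4, 5, 10), (4, 5,
      14), (4, 6, 14), (4, 6, 15), (4, 11, 15), (5, 10, 16), (5, 14, 16), (6, 9, 14), (6, 9, 15),
      (7, 11, 15), (7, 12, 15)]
    fin := [0, 0, 0, 0, 4, 4, 6, 0, 0, 9, 0, 0, 12, 13, 6, 15, 4]
    chd := [(6, 15), (15, 4)]
    steps := [(0, 1), (0, 2), (0, 3), (0, 7), (0, 8), (0, 10), (0, 11), (4, 5), (4, 16), (6, 14)] }
  rep := [0, 15, 9, 6, 12, 4, 13]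

noncomputable def v3365 : Cov.CovD where
  P := 3
  N := 4
  pl := [1, 4, 5]
  lev := [⟨[], [], [], [2], [(0, 0, [])]⟩,
    ⟨[], [(0, 0)], [(0, 0)], [4], [(0, 0, []), (2, 0, []), (3, 0, [])]⟩,
    ⟨[(0, 1)], [(1, 0)], [(0, 0)], [], [(2, 0, []), (3, 0, [])]⟩,
    ⟨[(0, 1), (1, 2)], [(0, 0), (1, 0), (2, 0)], [], [2, 6], [(2, 0, [])]⟩,
    ⟨[(1, 2)], [(1, 0), (2, 0), (2, 1), (2, 3), (3, 0)], [(0, 0), (0, 1), (0, 3), (1, 3)],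
      [], [(2, 0, []), (3, 0, []), (6, 3, [1]), (7, 1, [3, 5])]⟩,
    ⟨[(2, 4)], [(1, 0), (2, 0), (3, 0), (4, 0), (4, 1), (4, 3), (4, 5)], [(0, 3), (0, 5),
      (3, 5)], [], [(2, 0, []), (6, 3, [1]), (8, 5, [1])]⟩,
    ⟨[(2, 4), (4, 5)], [(4, 0), (4, 1), (4, 3), (5, 3)], [(1, 3)], [2], [(6, 3, [1]), (7,
      1, [3, 5])]⟩,
    ⟨[(0, 1), (1, 2), (1, 3)], [(1, 0), (1, 1), (2, 0), (4, 0), (4, 1), (6, 1)], [(0, 1)],
      [4], [(3, 0, []), (7, 1, [3, 5])]⟩]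
  Ta := [((0, 1), 0, 2), ((0, 4), 0, 4), ((2, 5), 0, 6), ((2, 8), 0, 5), ((3, 7), 0, 1)]
  Tb := [((0, 1, 4), 0, 2, 4), ((1, 0, 5), 2, 0, 6), ((1, 0, 6), 2, 0, 3), ((1, 0, 7), 2, 0, 1),
    ((1, 5, 6), 2, 6, 3), ((1, 5, 7), 2, 6, 1), ((1, 6, 7), 2, 3, 1), ((2, 5, 8), 0, 6, 5),
    ((4, 0, 7), 4, 0, 1), ((5, 1, 2), 6, 2, 0), ((6, 1, 8), 3, 2, 5), ((7, 1, 3), 1, 2, 0),
    ((7, 1, 4), 1, 2, 4), ((7, 3, 4), 1, 0, 4), ((8, 2, 6), 5, 0, 3)]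
  Tc := [(1, 3, 5)]
  Td := [((1, 3), (7, 1), 2), ((1, 3), (7, 3), 0), ((1, 3), (7, 4), 4), ((1, 5), (7, 1), 2), ((1,
    5), (7, 3), 0), ((1, 5), (7, 4), 4), ((3, 1), (6, 1), 2), ((3, 1), (6, 8), 5), ((5, 1),
    (8, 2), 0), ((5, 1), (8, 6), 3)]
  G := [[0, 0, 0x882841c22181142c82181142c42e4, 0x582c12c1428, 0x182812c14482412c12c2], [0, 0,
    0, 0x112142c112142cc821, 0x882412c182112ca2182812c882112ca468], [0,
    0x481888184424446d2881841a281241ac468, 0, 0xc82c42c1228, 0x482412c12882812c1468]]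

noncomputable def n3365 : Ent := ⟨e3365, noF, [], [], [(13, 16, [1580044410770988437309982408355971841652082177953823432505702887425, 0])]⟩

def c3365 : PLift (Cov.check n3365.C.D v3365 = true) := ⟨by decide +kernel⟩

def b3365 : PLift (entF (fidx ts) 400 3365 n3365 = true) := ⟨by decide +kernel⟩

theorem g3365 : GoodF (fidx ts) 400 3365 := GoodF.ofV v3365 n3365 c3365.down b3365.down

/-- 48457444:2560/1 -/
noncomputable def e3366 : SCfg where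
  D := {
    a := 8
    L := 10
    kp := 7
    inn := [(0, 1), (0, 3), (1, 0), (1, 2), (1, 3), (1, 7), (2, 1), (2, 4), (3, 0), (3, 1), (4, 2), (4,
      5), (4, 6), (5, 4), (6, 4), (7, 1)]
    mix := [(0, 0), (0, 1), (1, 0), (1, 2), (1, 3), (1, 4), (2, 2), (2, 3), (3, 1), (3, 2), (3, 5), (4,
      2), (4, 3), (4, 6), (4, 7), (5, 2), (5, 6), (5, 8), (6, 1), (6, 6), (6, 7), (7, 3), (7, 4),
      (7, 9)]
    cl := [0, 1, 0, 0, 2, 6, 3, 4, 5, 7]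
    chq := [(3, 4), (4, 3), (4, 5), (5, 4)]
    rng := [(0, 1), (0, 4), (1, 0), (1, 5), (1, 6), (1, 7), (2, 5), (2, 8), (3, 7), (3, 9), (4, 0), (4,
      9), (5, 1), (5, 2), (6, 1), (6, 8), (7, 1), (7, 3), (8, 2), (8, 6), (9, 3), (9, 4)]
    lev := [] }
  links := [[1, 8, 9, 3], [8, 0, 3, 10, 2, 11, 7, 12], [11, 1, 10, 4], [10, 1, 0, 9, 13], [11, 2, 10, 5,
    14, 6, 15], [14, 4, 10, 16], [15, 4, 14, 9], [12, 1, 11, 17]]
  P := {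
    a := 8
    N := 18
    nb := [778, 7565, 3090, 9731, 52324, 82960, 49680, 137218, 4611, 57673, 73790, 163990, 131458,
      1544, 66160, 2640, 17440, 6272]
    tri := [(0, 1, 3), (0, 1, 8), (0, 3, 9), (0, 8, 9), (1, 2, 10), (1, 2, 11), (1, 3, 10), (1, 7, 11),
      (1, 7, 12), (1, 8, 12), (2, 4, 10), (2, 4, 11), (3, 9, 13), (3, 10, 13), (4, 5, 10), (4, 5,
      14), (4, 6, 14), (4, 6, 15), (4, 11, 15), (5, 10, 16), (5, 14, 16), (6, 9, 14), (6, 9, 15),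
      (7, 11, 17), (7, 12, 17)]
    fin := [0, 0, 0, 0, 4, 4, 6, 0, 0, 9, 0, 0, 12, 13, 6, 15, 4, 17]
    chd := [(6, 15), (15, 4)]
    steps := [(0, 1), (0, 2), (0, 3), (0, 7), (0, 8), (0, 10), (0, 11), (4, 5), (4, 16), (6, 14)] }
  rep := [0, 9, 12, 6, 15, 4, 13, 17]

noncomputable def v3366 : Cov.CovD where
  P := 3
  N := 5
  pl := [1, 4, 5, 9]
  lev := [⟨[], [], [], [1], [(0, 0, [])]⟩,
    ⟨[], [(0, 0)], [(0, 0)], [2], [(0, 0, []), (2, 0, []), (3, 0, [])]⟩,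
    ⟨[(0, 1)], [(1, 0)], [(0, 0)], [], [(2, 0, []), (3, 0, [])]⟩,
    ⟨[(0, 1), (1, 2)], [(0, 0), (1, 0), (2, 0)], [], [1, 6], [(2, 0, [])]⟩,
    ⟨[(1, 2)], [(1, 0), (2, 0), (2, 3), (2, 4), (3, 0)], [(0, 0), (0, 3), (0, 4), (3, 4)],
      [], [(2, 0, []), (3, 0, []), (6, 3, [4]), (7, 4, [3, 5])]⟩,
    ⟨[(2, 4)], [(1, 0), (2, 0), (3, 0), (4, 0), (4, 3), (4, 4), (4, 5)], [(0, 3), (0, 5),
      (3, 5)], [], [(2, 0, []), (6, 3, [4]), (8, 5, [4])]⟩,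
    ⟨[(2, 4), (4, 5)], [(4, 0), (4, 3), (4, 4), (5, 3)], [(3, 4)], [1], [(6, 3, [4]), (7,
      4, [3, 5])]⟩,
    ⟨[(0, 1), (1, 2), (1, 3)], [(1, 0), (2, 0), (4, 0)], [], [2, 7], [(3, 0, [])]⟩]
  Ta := [((0, 1), 0, 1), ((0, 4), 0, 2), ((2, 5), 0, 6), ((2, 8), 0, 5), ((3, 7), 0, 4), ((3, 9),
    0, 7)]
  Tb := [((0, 1, 4), 0, 1, 2), ((1, 0, 5), 1, 0, 6), ((1, 0, 6), 1, 0, 3), ((1, 0, 7), 1, 0, 4),
    ((1, 5, 6), 1, 6, 3), ((1, 5, 7), 1, 6, 4), ((1, 6, 7), 1, 3, 4), ((2, 5, 8), 0, 6, 5),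
    ((3, 7, 9), 0, 4, 7), ((4, 0, 9), 2, 0, 7), ((5, 1, 2), 6, 1, 0), ((6, 1, 8), 3, 1, 5),
    ((7, 1, 3), 4, 1, 0), ((8, 2, 6), 5, 0, 3), ((9, 3, 4), 7, 0, 2)]
  Tc := [(4, 3, 5)]
  Td := [((3, 4), (6, 1), 1), ((3, 4), (6, 8), 5), ((4, 3), (7, 1), 1), ((4, 3), (7, 3), 0), ((4,
    5), (7, 1), 1), ((4, 5), (7, 3), 0), ((5, 4), (8, 2), 0), ((5, 4), (8, 6), 3)]
  G := [[0, 0x14112161411216a18181818aa44, 0xa8a86a4a4aa1a1ce1244, 0x181161411a1111ce1244,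
    0x181161414a1111ce1288], [0, 0, 0, 0x181861414a1111ce181861411a1111cec248,
    0x181861414a1111ce181161414a1111cec281], [0, 0, 0, 0xc4c4acc9cc5c61c8c8681a48,
    0xa4a4aaa9aa5c61a8a8681c24]]

noncomputable def n3366 : Ent := ⟨e3366, noF, [], [], [(13, 16, [7334685537875745012586738086077695515070955365108989538292687707455489, 0]), (15, 17, [6903326391201334775872065844685381424292761054348340378595029943472129, 0])]⟩

def c3366 : PLift (Cov.check n3366.C.D v3366 = true) := ⟨by decide +kernel⟩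

def b3366 : PLift (entF (fidx ts) 400 3366 n3366 = true) := ⟨by decide +kernel⟩

theorem g3366 : GoodF (fidx ts) 400 3366 := GoodF.ofV v3366 n3366 c3366.down b3366.down

/-- 48457444:2560/7 -/
noncomputable def e3367 : SCfg where
  D := {
    a := 8
    L := 8
    kp := 5
    inn := [(0, 1), (0, 3), (1, 0), (1, 2), (1, 3), (1, 7), (2, 1), (2, 4), (3, 0), (3, 1), (4, 2), (4,
      5), (4, 6), (5, 4), (6, 4), (7, 1)]
    mix := [(0, 0), (0, 1), (1, 0), (1, 2), (1, 3), (1, 4), (2, 2), (2, 3), (3, 1), (3, 2), (3, 5), (4,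
      2), (4, 3), (4, 6), (4, 7), (5, 2), (5, 5), (5, 6), (6, 4), (6, 6), (6, 7), (7, 3), (7, 4),
      (7, 7)]
    cl := [0, 5, 0, 0, 1, 4, 3, 2]
    chq := [(1, 4), (2, 4), (4, 1), (4, 2)]
    rng := [(0, 1), (0, 4), (1, 0), (1, 5), (2, 5), (3, 7), (4, 0), (4, 6), (4, 7), (5, 1), (5, 2), (5,
      6), (6, 4), (6, 5), (7, 3), (7, 4)]
    lev := [] }
  links := [[1, 8, 9, 3], [8, 0, 3, 10, 2, 11, 7, 12], [11, 1, 10, 4], [10, 1, 0, 9, 13], [11, 2, 10, 5,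
    14, 6, 15], [14, 4, 10, 13], [15, 4, 14, 12], [12, 1, 11, 15]]
  P := {
    a := 8
    N := 16
    nb := [778, 7565, 3090, 9731, 52324, 25616, 53264, 38914, 4611, 8457, 8254, 32918, 49602, 17960,
      12400, 6352]
    tri := [(0, 1, 3), (0, 1, 8), (0, 3, 9), (0, 8, 9), (1, 2, 10), (1, 2, 11), (1, 3, 10), (1, 7, 11),
      (1, 7, 12), (1, 8, 12), (2, 4, 10), (2, 4, 11), (3, 9, 13), (3, 10, 13), (4, 5, 10), (4, 5,
      14), (4, 6, 14), (4, 6, 15), (4, 11, 15), (5, 10, 13), (5, 13, 14), (6, 12, 14), (6, 12,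
      15), (7, 11, 15), (7, 12, 15)]
    fin := [0, 0, 0, 0, 4, 4, 4, 0, 0, 9, 0, 0, 12, 4, 14, 15]
    chd := [(4, 15), (12, 4)]
    steps := [(0, 1), (0, 2), (0, 3), (0, 7), (0, 8), (0, 10), (0, 11), (4, 5), (4, 6), (4, 13)] }
  rep := [0, 12, 15, 14, 4, 9]

noncomputable def v3367 : Cov.CovD where
  P := 3
  N := 3
  pl := [1, 6]
  lev := [⟨[], [], [], [5], [(0, 0, [])]⟩,
    ⟨[], [(0, 0), (0, 1)], [(0, 0), (0, 1)], [], [(0, 0, []), (2, 0, []), (3, 0, []), (4,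
      1, [4])]⟩,
    ⟨[(0, 1)], [(1, 0), (1, 1)], [(0, 0)], [], [(2, 0, []), (3, 0, [])]⟩,
    ⟨[(0, 1), (1, 2)], [(0, 0), (0, 4), (1, 0), (1, 1), (1, 4), (2, 0)], [(0, 4)], [5],
      [(2, 0, []), (5, 4, [1, 2])]⟩,
    ⟨[(1, 2)], [(1, 0), (2, 0), (2, 2), (3, 0)], [(0, 0), (0, 2)], [3], [(2, 0, []), (3, 0,
      []), (7, 2, [4])]⟩,
    ⟨[(2, 4)], [(1, 0), (2, 0), (3, 0), (3, 4), (4, 0), (4, 2), (4, 4)], [(0, 4)], [3],
      [(2, 0, []), (5, 4, [1, 2])]⟩,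
    ⟨[(2, 4), (4, 5)], [(1, 1), (4, 0), (4, 1), (4, 2)], [(1, 2)], [3], [(4, 1, [4]), (7,
      2, [4])]⟩,
    ⟨[(0, 1), (1, 2), (1, 3)], [(1, 0), (1, 1), (1, 2), (2, 0), (4, 0), (4, 2), (6, 1), (6,
      2)], [(0, 1), (0, 2), (1, 2)], [], [(3, 0, []), (4, 1, [4]), (7, 2, [4])]⟩]
  Ta := [((0, 1), 0, 5), ((0, 4), 0, 1), ((2, 5), 0, 4), ((3, 7), 0, 2)]
  Tb := [((0, 1, 4), 0, 5, 1), ((1, 0, 5), 5, 0, 4), ((4, 0, 6), 1, 0, 3), ((4, 0, 7), 1, 0, 2),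
    ((4, 6, 7), 1, 3, 2), ((5, 1, 2), 4, 5, 0), ((5, 1, 6), 4, 5, 3), ((5, 2, 6), 4, 0, 3),
    ((6, 4, 5), 3, 1, 4), ((7, 3, 4), 2, 0, 1)]
  Tc := [(4, 1, 2)]
  Td := [((1, 4), (4, 0), 0), ((1, 4), (4, 6), 3), ((1, 4), (4, 7), 2), ((2, 4), (7, 3), 0), ((2,
    4), (7, 4), 1), ((4, 1), (5, 1), 5), ((4, 1), (5, 2), 0), ((4, 1), (5, 6), 3), ((4, 2),
    (5, 1), 5), ((4, 2), (5, 2), 0), ((4, 2), (5, 6), 3)]
  G := [[0, 0x881824484144488a842c5228424184e, 0, 0x482112c128482811c2286,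
    0x184111a2248112884112c528c], [0, 0, 0, 0x482442c182414c482412ce281,
    0x1488c112a884111111ea6481], [0, 0, 0x848888e842a14448144446a2489,
    0x412442c128882412c128c, 0x81188813a884811a6481]]

noncomputable def n3367 : Ent := ⟨e3367, noF, [], [], []⟩

def c3367 : PLift (Cov.check n3367.C.D v3367 = true) := ⟨by decide +kernel⟩

def b3367 : PLift (entF (fidx ts) 400 3367 n3367 = true) := ⟨by decide +kernel⟩

theorem g3367 : GoodF (fidx ts) 400 3367 := GoodF.ofV v3367 n3367 c3367.down b3367.down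

/-- 48457444:2560/6 -/
noncomputable def e3368 : SCfg where
  D := {
    a := 8
    L := 9
    kp := 6
    inn := [(0, 1), (0, 3), (1, 0), (1, 2), (1, 3), (1, 7), (2, 1), (2, 4), (3, 0), (3, 1), (4, 2), (4,
      5), (4, 6), (5, 4), (6, 4), (7, 1)]
    mix := [(0, 0), (0, 1), (1, 0), (1, 2), (1, 3), (1, 4), (2, 2), (2, 3), (3, 1), (3, 2), (3, 5), (4,
      2), (4, 3), (4, 6), (4, 7), (5, 2), (5, 5), (5, 6), (6, 4), (6, 6), (6, 7), (7, 3), (7, 4),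
      (7, 8)]
    cl := [0, 5, 0, 0, 1, 2, 3, 4, 6]
    chq := [(1, 2), (2, 1), (2, 4), (4, 2)]
    rng := [(0, 1), (0, 4), (1, 0), (1, 5), (2, 5), (3, 7), (3, 8), (4, 0), (4, 6), (4, 7), (4, 8), (5,
      1), (5, 2), (5, 6), (6, 4), (6, 5), (7, 3), (7, 4), (8, 3), (8, 4)]
    lev := [] }
  links := [[1, 8, 9, 3], [8, 0, 3, 10, 2, 11, 7, 12], [11, 1, 10, 4], [10, 1, 0, 9, 13], [11, 2, 10, 5,
    14, 6, 15], [14, 4, 10, 13], [15, 4, 14, 12], [12, 1, 11, 16]]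
  P := {
    a := 8
    N := 17
    nb := [778, 7565, 3090, 9731, 52324, 25616, 53264, 71682, 4611, 8457, 8254, 98454, 115138, 17960,
      12400, 6224, 6272]
    tri := [(0, 1, 3), (0, 1, 8), (0, 3, 9), (0, 8, 9), (1, 2, 10), (1, 2, 11), (1, 3, 10), (1, 7, 11),
      (1, 7, 12), (1, 8, 12), (2, 4, 10), (2, 4, 11), (3, 9, 13), (3, 10, 13), (4, 5, 10), (4, 5,
      14), (4, 6, 14), (4, 6, 15), (4, 11, 15), (5, 10, 13), (5, 13, 14), (6, 12, 14), (6, 12,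
      15), (7, 11, 16), (7, 12, 16)]
    fin := [0, 0, 0, 0, 4, 4, 4, 0, 0, 9, 0, 0, 12, 4, 14, 15, 16]
    chd := [(4, 15), (12, 4)]
    steps := [(0, 1), (0, 2), (0, 3), (0, 7), (0, 8), (0, 10), (0, 11), (4, 5), (4, 6), (4, 13)] }
  rep := [0, 12, 4, 14, 15, 9, 16]

noncomputable def v3368 : Cov.CovD where
  P := 3
  N := 4
  pl := [1, 6, 8]
  lev := [⟨[], [], [], [5], [(0, 0, [])]⟩,
    ⟨[], [(0, 0), (0, 1)], [(0, 0), (0, 1)], [], [(0, 0, []), (2, 0, []), (3, 0, []), (4,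
      1, [2])]⟩,
    ⟨[(0, 1)], [(1, 0), (1, 1)], [(0, 0)], [], [(2, 0, []), (3, 0, [])]⟩,
    ⟨[(0, 1), (1, 2)], [(0, 0), (0, 2), (1, 0), (1, 1), (1, 2), (2, 0)], [(0, 2)], [5],
      [(2, 0, []), (5, 2, [1, 4])]⟩,
    ⟨[(1, 2)], [(1, 0), (2, 0), (2, 4), (3, 0)], [(0, 0), (0, 4)], [3], [(2, 0, []), (3, 0,
      []), (7, 4, [2])]⟩,
    ⟨[(2, 4)], [(1, 0), (2, 0), (3, 0), (3, 2), (4, 0), (4, 2), (4, 4)], [(0, 2)], [3],
      [(2, 0, []), (5, 2, [1, 4])]⟩,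
    ⟨[(2, 4), (4, 5)], [(1, 1), (4, 0), (4, 1), (4, 4)], [(1, 4)], [3], [(4, 1, [2]), (7,
      4, [2])]⟩,
    ⟨[(0, 1), (1, 2), (1, 3)], [(1, 0), (1, 1), (2, 0), (4, 0), (6, 1)], [(0, 1)], [6],
      [(3, 0, []), (4, 1, [2])]⟩]
  Ta := [((0, 1), 0, 5), ((0, 4), 0, 1), ((2, 5), 0, 2), ((3, 7), 0, 4), ((3, 8), 0, 6)]
  Tb := [((0, 1, 4), 0, 5, 1), ((1, 0, 5), 5, 0, 2), ((3, 7, 8), 0, 4, 6), ((4, 0, 6), 1, 0, 3),
    ((4, 0, 7), 1, 0, 4), ((4, 0, 8), 1, 0, 6), ((4, 6, 7), 1, 3, 4), ((4, 6, 8), 1, 3, 6),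
    ((4, 7, 8), 1, 4, 6), ((5, 1, 2), 2, 5, 0), ((5, 1, 6), 2, 5, 3), ((5, 2, 6), 2, 0, 3),
    ((6, 4, 5), 3, 1, 2), ((7, 3, 4), 4, 0, 1), ((8, 3, 4), 6, 0, 1)]
  Tc := [(2, 1, 4)]
  Td := [((1, 2), (4, 0), 0), ((1, 2), (4, 6), 3), ((1, 2), (4, 7), 4), ((1, 2), (4, 8), 6), ((2,
    1), (5, 1), 5), ((2, 1), (5, 2), 0), ((2, 1), (5, 6), 3), ((2, 4), (5, 1), 5), ((2, 4),
    (5, 2), 0), ((2, 4), (5, 6), 3), ((4, 2), (7, 3), 0), ((4, 2), (7, 4), 1)]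
  G := [[0, 0x64162168c8188a464144a81a21a4c8c, 0, 0x12c21524412c115288c2,
    0x11581111158e82411811c113111e2246], [0, 0, 0x118112a1122c118114c11446681,
    0x229215c22241, 0x1122211581411a118e1821114acaa81], [0, 0, 0, 0x282421d22281,
    0xc114c4c8acc52a348c4c4948845]]

noncomputable def n3368 : Ent := ⟨e3368, noF, [], [], [(15, 16, [1580044410770988437309982408355971841652082177953823432505702903809, 0])]⟩

def c3368 : PLift (Cov.check n3368.C.D v3368 = true) := ⟨by decide +kernel⟩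

def b3368 : PLift (entF (fidx ts) 400 3368 n3368 = true) := ⟨by decide +kernel⟩

theorem g3368 : GoodF (fidx ts) 400 3368 := GoodF.ofV v3368 n3368 c3368.down b3368.down

/-- 48457444:2560/8 -/
noncomputable def e3369 : SCfg where
  D := {
    a := 8
    L := 9
    kp := 6
    inn := [(0, 1), (0, 3), (1, 0), (1, 2), (1, 3), (1, 7), (2, 1), (2, 4), (3, 0), (3, 1), (4, 2), (4,
      5), (4, 6), (5, 4), (6, 4), (7, 1)]
    mix := [(0, 0), (0, 1), (1, 0), (1, 2), (1, 3), (1, 4), (2, 2), (2, 3), (3, 1), (3, 2), (3, 5), (4,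
      2), (4, 3), (4, 6), (4, 7), (5, 2), (5, 5), (5, 6), (6, 6), (6, 7), (6, 8), (7, 3), (7, 4),
      (7, 7)]
    cl := [0, 2, 0, 0, 5, 4, 3, 1, 6]
    chq := [(1, 3), (1, 4), (3, 1), (4, 1)]
    rng := [(0, 1), (0, 4), (1, 0), (1, 5), (2, 5), (3, 7), (4, 0), (4, 7), (5, 1), (5, 2), (5, 6), (6,
      5), (6, 8), (7, 3), (7, 4), (7, 8), (8, 6), (8, 7)]
    lev := [] }
  links := [[1, 8, 9, 3], [8, 0, 3, 10, 2, 11, 7, 12], [11, 1, 10, 4], [10, 1, 0, 9, 13], [11, 2, 10, 5,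
    14, 6, 15], [14, 4, 10, 13], [15, 4, 14, 16], [12, 1, 11, 15]]
  P := {
    a := 8
    N := 17
    nb := [778, 7565, 3090, 9731, 52324, 25616, 114704, 38914, 4611, 8457, 8254, 32918, 33154, 17960,
      73840, 71888, 49216]
    tri := [(0, 1, 3), (0, 1, 8), (0, 3, 9), (0, 8, 9), (1, 2, 10), (1, 2, 11), (1, 3, 10), (1, 7, 11),
      (1, 7, 12), (1, 8, 12), (2, 4, 10), (2, 4, 11), (3, 9, 13), (3, 10, 13), (4, 5, 10), (4, 5,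
      14), (4, 6, 14), (4, 6, 15), (4, 11, 15), (5, 10, 13), (5, 13, 14), (6, 14, 16), (6, 15,
      16), (7, 11, 15), (7, 12, 15)]
    fin := [0, 0, 0, 0, 4, 4, 6, 0, 0, 9, 0, 0, 12, 4, 6, 15, 16]
    chd := [(4, 15), (6, 15)]
    steps := [(0, 1), (0, 2), (0, 3), (0, 7), (0, 8), (0, 10), (0, 11), (4, 5), (4, 13), (6, 14)] }
  rep := [0, 15, 9, 6, 4, 12, 16]

noncomputable def v3369 : Cov.CovD where
  P := 3
  N := 4
  pl := [1, 4, 8]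
  lev := [⟨[], [], [], [2], [(0, 0, [])]⟩,
    ⟨[], [(0, 0)], [(0, 0)], [5], [(0, 0, []), (2, 0, []), (3, 0, [])]⟩,
    ⟨[(0, 1)], [(1, 0)], [(0, 0)], [], [(2, 0, []), (3, 0, [])]⟩,
    ⟨[(0, 1), (1, 2)], [(0, 0), (0, 4), (1, 0), (1, 4), (2, 0)], [(0, 4)], [2], [(2, 0,
      []), (5, 4, [1])]⟩,
    ⟨[(1, 2)], [(1, 0), (2, 0), (2, 1), (2, 3), (3, 0)], [(0, 0), (0, 1), (0, 3), (1, 3)],
      [], [(2, 0, []), (3, 0, []), (6, 3, [1]), (7, 1, [3, 4])]⟩,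
    ⟨[(2, 4)], [(1, 0), (2, 0), (3, 0), (3, 4), (4, 0), (4, 1), (4, 3), (4, 4)], [(0, 3),
      (0, 4), (3, 4)], [], [(2, 0, []), (5, 4, [1]), (6, 3, [1])]⟩,
    ⟨[(2, 4), (4, 5)], [(4, 0), (4, 1), (4, 3), (5, 3)], [(1, 3)], [6], [(6, 3, [1]), (7,
      1, [3, 4])]⟩,
    ⟨[(0, 1), (1, 2), (1, 3)], [(1, 0), (1, 1), (2, 0), (4, 0), (4, 1), (6, 1)], [(0, 1)],
      [5], [(3, 0, []), (7, 1, [3, 4])]⟩]
  Ta := [((0, 1), 0, 2), ((0, 4), 0, 5), ((2, 5), 0, 4), ((3, 7), 0, 1)]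
  Tb := [((0, 1, 4), 0, 2, 5), ((1, 0, 5), 2, 0, 4), ((4, 0, 7), 5, 0, 1), ((5, 1, 2), 4, 2, 0),
    ((5, 1, 6), 4, 2, 3), ((5, 2, 6), 4, 0, 3), ((6, 5, 8), 3, 4, 6), ((7, 3, 4), 1, 0, 5),
    ((7, 3, 8), 1, 0, 6), ((7, 4, 8), 1, 5, 6), ((8, 6, 7), 6, 3, 1)]
  Tc := [(1, 3, 4)]
  Td := [((1, 3), (7, 3), 0), ((1, 3), (7, 4), 5), ((1, 3), (7, 8), 6), ((1, 4), (7, 3), 0), ((1,
    4), (7, 4), 5), ((1, 4), (7, 8), 6), ((3, 1), (6, 5), 4), ((3, 1), (6, 8), 6), ((4, 1),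
    (5, 1), 2), ((4, 1), (5, 2), 0), ((4, 1), (5, 6), 3)]
  G := [[0, 0, 0x14924852c221188a1152c11921152cc268, 0x11921152c1244924452c12c8,
    0x88928852c1214924152c12c2], [0, 0, 0, 0x4148a4452c81921152cc218928152c11921152cc268,
    0x11924452c221221152c1121152ca18282ca8], [0,
    0x44c144a16888a18861c4a22c18861a22c12261ac468, 0, 0x44924452c1288928852c1268,
    0x889281885241644924452c12c2]]

noncomputable def n3369 : Ent := ⟨e3369, noF, [], [], [(9, 16, [1580044410770988437309982408355971841652082177953823432505702887425, 0]), (16, 12, [1580044410777118419473445963789405229760683414688298388994437312513, 0])]⟩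

def c3369 : PLift (Cov.check n3369.C.D v3369 = true) := ⟨by decide +kernel⟩

def b3369 : PLift (entF (fidx ts) 400 3369 n3369 = true) := ⟨by decide +kernel⟩

theorem g3369 : GoodF (fidx ts) 400 3369 := GoodF.ofV v3369 n3369 c3369.down b3369.down

/-- 48457444:2560/5 -/
noncomputable def e3370 : SCfg where
  D := {
    a := 8
    L := 10
    kp := 7
    inn := [(0, 1), (0, 3), (1, 0), (1, 2), (1, 3), (1, 7), (2, 1), (2, 4), (3, 0), (3, 1), (4, 2), (4,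
      5), (4, 6), (5, 4), (6, 4), (7, 1)]
    mix := [(0, 0), (0, 1), (1, 0), (1, 2), (1, 3), (1, 4), (2, 2), (2, 3), (3, 1), (3, 2), (3, 5), (4,
      2), (4, 3), (4, 6), (4, 7), (5, 2), (5, 5), (5, 6), (6, 6), (6, 7), (6, 8), (7, 3), (7, 4),
      (7, 9)]
    cl := [0, 2, 0, 0, 5, 4, 3, 1, 6, 7]
    chq := [(1, 3), (1, 4), (3, 1), (4, 1)]
    rng := [(0, 1), (0, 4), (1, 0), (1, 5), (2, 5), (3, 7), (3, 9), (4, 0), (4, 9), (5, 1), (5, 2), (5,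
      6), (6, 5), (6, 8), (7, 3), (7, 8), (8, 6), (8, 7), (9, 3), (9, 4)]
    lev := [] }
  links := [[1, 8, 9, 3], [8, 0, 3, 10, 2, 11, 7, 12], [11, 1, 10, 4], [10, 1, 0, 9, 13], [11, 2, 10, 5,
    14, 6, 15], [14, 4, 10, 13], [15, 4, 14, 16], [12, 1, 11, 17]]
  P := {
    a := 8
    N := 18
    nb := [778, 7565, 3090, 9731, 52324, 25616, 114704, 137218, 4611, 8457, 8254, 163990, 131458,
      17960, 73840, 67664, 49216, 6272]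
    tri := [(0, 1, 3), (0, 1, 8), (0, 3, 9), (0, 8, 9), (1, 2, 10), (1, 2, 11), (1, 3, 10), (1, 7, 11),
      (1, 7, 12), (1, 8, 12), (2, 4, 10), (2, 4, 11), (3, 9, 13), (3, 10, 13), (4, 5, 10), (4, 5,
      14), (4, 6, 14), (4, 6, 15), (4, 11, 15), (5, 10, 13), (5, 13, 14), (6, 14, 16), (6, 15,
      16), (7, 11, 17), (7, 12, 17)]
    fin := [0, 0, 0, 0, 4, 4, 6, 0, 0, 9, 0, 0, 12, 4, 6, 15, 16, 17]
    chd := [(4, 15), (6, 15)]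
    steps := [(0, 1), (0, 2), (0, 3), (0, 7), (0, 8), (0, 10), (0, 11), (4, 5), (4, 13), (6, 14)] }
  rep := [0, 15, 9, 6, 4, 12, 16, 17]

noncomputable def v3370 : Cov.CovD where
  P := 3
  N := 5
  pl := [1, 4, 8, 9]
  lev := [⟨[], [], [], [2], [(0, 0, [])]⟩,
    ⟨[], [(0, 0)], [(0, 0)], [5], [(0, 0, []), (2, 0, []), (3, 0, [])]⟩,
    ⟨[(0, 1)], [(1, 0)], [(0, 0)], [], [(2, 0, []), (3, 0, [])]⟩,
    ⟨[(0, 1), (1, 2)], [(0, 0), (0, 4), (1, 0), (1, 4), (2, 0)], [(0, 4)], [2], [(2, 0,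
      []), (5, 4, [1])]⟩,
    ⟨[(1, 2)], [(1, 0), (2, 0), (2, 1), (2, 3), (3, 0)], [(0, 0), (0, 1), (0, 3), (1, 3)],
      [], [(2, 0, []), (3, 0, []), (6, 3, [1]), (7, 1, [3, 4])]⟩,
    ⟨[(2, 4)], [(1, 0), (2, 0), (3, 0), (3, 4), (4, 0), (4, 1), (4, 3), (4, 4)], [(0, 3),
      (0, 4), (3, 4)], [], [(2, 0, []), (5, 4, [1]), (6, 3, [1])]⟩,
    ⟨[(2, 4), (4, 5)], [(4, 0), (4, 1), (4, 3), (5, 3)], [(1, 3)], [6], [(6, 3, [1]), (7,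
      1, [3, 4])]⟩,
    ⟨[(0, 1), (1, 2), (1, 3)], [(1, 0), (2, 0), (4, 0)], [], [5, 7], [(3, 0, [])]⟩]
  Ta := [((0, 1), 0, 2), ((0, 4), 0, 5), ((2, 5), 0, 4), ((3, 7), 0, 1), ((3, 9), 0, 7)]
  Tb := [((0, 1, 4), 0, 2, 5), ((1, 0, 5), 2, 0, 4), ((3, 7, 9), 0, 1, 7), ((4, 0, 9), 5, 0, 7),
    ((5, 1, 2), 4, 2, 0), ((5, 1, 6), 4, 2, 3), ((5, 2, 6), 4, 0, 3), ((6, 5, 8), 3, 4, 6),
    ((7, 3, 8), 1, 0, 6), ((8, 6, 7), 6, 3, 1), ((9, 3, 4), 7, 0, 5)]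
  Tc := [(1, 3, 4)]
  Td := [((1, 3), (7, 3), 0), ((1, 3), (7, 8), 6), ((1, 4), (7, 3), 0), ((1, 4), (7, 8), 6), ((3,
    1), (6, 5), 4), ((3, 1), (6, 8), 6), ((4, 1), (5, 1), 2), ((4, 1), (5, 2), 0), ((4, 1),
    (5, 6), 3)]
  G := [[0, 0, 0x1192821221152c8611921152c221221152c48e2, 0xcc92c352c1211921552c12a4,
    0x1a929a52c12d6925152c12c2], [0, 0, 0, 0x11921152c11921152cc211921152c11921152cc261,
    0x12119a121156c2212119a82121156426c8], [0,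
    0xccc1cca1688aac1aa61a66c16661ac46cca1cc61c428c, 0, 0x66926652c124aa92aa52c128c,
    0xaa92aa52c1266926652c12c2]]

noncomputable def n3370 : Ent := ⟨e3370, noF, [], [], [(9, 16, [7334685537875745012586738086077695515070955365108989538292687707455489, 0]), (16, 12, [7334685537875751142568901549633128948459063966345724013249176441880577, 0]), (15, 17, [6903326391201334775872065844685381424292761054348340378595029943488513, 0])]⟩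

def c3370 : PLift (Cov.check n3370.C.D v3370 = true) := ⟨by decide +kernel⟩

def b3370 : PLift (entF (fidx ts) 400 3370 n3370 = true) := ⟨by decide +kernel⟩

theorem g3370 : GoodF (fidx ts) 400 3370 := GoodF.ofV v3370 n3370 c3370.down b3370.down

/-- 48457444:2560/10 -/
noncomputable def e3371 : SCfg where
  D := {
    a := 8
    L := 9
    kp := 6
    inn := [(0, 1), (0, 3), (1, 0), (1, 2), (1, 3), (1, 7), (2, 1), (2, 4), (3, 0), (3, 1), (4, 2), (4,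
      5), (4, 6), (5, 4), (6, 4), (7, 1)]
    mix := [(0, 0), (0, 1), (1, 0), (1, 2), (1, 3), (1, 4), (2, 2), (2, 3), (3, 1), (3, 2), (3, 5), (4,
      2), (4, 3), (4, 6), (4, 7), (5, 2), (5, 6), (5, 8), (6, 4), (6, 6), (6, 7), (7, 3), (7, 4),
      (7, 7)]
    cl := [0, 4, 0, 0, 2, 6, 3, 1, 5]
    chq := [(1, 3), (1, 5), (3, 1), (5, 1)]
    rng := [(0, 1), (0, 4), (1, 0), (1, 5), (2, 5), (2, 8), (3, 7), (4, 0), (4, 6), (4, 7), (5, 1), (5,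
      2), (6, 4), (6, 8), (7, 3), (7, 4), (8, 2), (8, 6)]
    lev := [] }
  links := [[1, 8, 9, 3], [8, 0, 3, 10, 2, 11, 7, 12], [11, 1, 10, 4], [10, 1, 0, 9, 13], [11, 2, 10, 5,
    14, 6, 15], [14, 4, 10, 16], [15, 4, 14, 12], [12, 1, 11, 15]]
  P := {
    a := 8
    N := 17
    nb := [778, 7565, 3090, 9731, 52324, 82960, 53264, 38914, 4611, 8457, 73790, 32918, 49602, 1544,
      69744, 6352, 17440]
    tri := [(0, 1, 3), (0, 1, 8), (0, 3, 9), (0, 8, 9), (1, 2, 10), (1, 2, 11), (1, 3, 10), (1, 7, 11),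
      (1, 7, 12), (1, 8, 12), (2, 4, 10), (2, 4, 11), (3, 9, 13), (3, 10, 13), (4, 5, 10), (4, 5,
      14), (4, 6, 14), (4, 6, 15), (4, 11, 15), (5, 10, 16), (5, 14, 16), (6, 12, 14), (6, 12,
      15), (7, 11, 15), (7, 12, 15)]
    fin := [0, 0, 0, 0, 4, 4, 6, 0, 0, 9, 0, 0, 12, 13, 6, 15, 4]
    chd := [(6, 15), (15, 4)]
    steps := [(0, 1), (0, 2), (0, 3), (0, 7), (0, 8), (0, 10), (0, 11), (4, 5), (4, 16), (6, 14)] }
  rep := [0, 15, 12, 6, 9, 4, 13]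

noncomputable def v3371 : Cov.CovD where
  P := 3
  N := 4
  pl := [1, 4, 5]
  lev := [⟨[], [], [], [4], [(0, 0, [])]⟩,
    ⟨[], [(0, 0)], [(0, 0)], [2], [(0, 0, []), (2, 0, []), (3, 0, [])]⟩,
    ⟨[(0, 1)], [(1, 0)], [(0, 0)], [], [(2, 0, []), (3, 0, [])]⟩,
    ⟨[(0, 1), (1, 2)], [(0, 0), (1, 0), (2, 0)], [], [4, 6], [(2, 0, [])]⟩,
    ⟨[(1, 2)], [(1, 0), (2, 0), (2, 1), (2, 3), (3, 0)], [(0, 0), (0, 1), (0, 3), (1, 3)],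
      [], [(2, 0, []), (3, 0, []), (6, 3, [1]), (7, 1, [3, 5])]⟩,
    ⟨[(2, 4)], [(1, 0), (2, 0), (3, 0), (4, 0), (4, 1), (4, 3), (4, 5)], [(0, 3), (0, 5),
      (3, 5)], [], [(2, 0, []), (6, 3, [1]), (8, 5, [1])]⟩,
    ⟨[(2, 4), (4, 5)], [(4, 0), (4, 1), (4, 3), (5, 3)], [(1, 3)], [2], [(6, 3, [1]), (7,
      1, [3, 5])]⟩,
    ⟨[(0, 1), (1, 2), (1, 3)], [(1, 0), (1, 1), (2, 0), (4, 0), (4, 1), (6, 1)], [(0, 1)],
      [2], [(3, 0, []), (7, 1, [3, 5])]⟩]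
  Ta := [((0, 1), 0, 4), ((0, 4), 0, 2), ((2, 5), 0, 6), ((2, 8), 0, 5), ((3, 7), 0, 1)]
  Tb := [((0, 1, 4), 0, 4, 2), ((1, 0, 5), 4, 0, 6), ((2, 5, 8), 0, 6, 5), ((4, 0, 6), 2, 0, 3),
    ((4, 0, 7), 2, 0, 1), ((4, 6, 7), 2, 3, 1), ((5, 1, 2), 6, 4, 0), ((6, 4, 8), 3, 2, 5),
    ((7, 3, 4), 1, 0, 2), ((8, 2, 6), 5, 0, 3)]
  Tc := [(1, 3, 5)]
  Td := [((1, 3), (7, 3), 0), ((1, 3), (7, 4), 2), ((1, 5), (7, 3), 0), ((1, 5), (7, 4), 2), ((3,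
    1), (6, 4), 2), ((3, 1), (6, 8), 5), ((5, 1), (8, 2), 0), ((5, 1), (8, 6), 3)]
  G := [[0, 0, 0x882842c1228828184241646, 0x182111c182111cc28112842c1846,
    0x182112c148182111c882811c648c], [0, 0, 0, 0x182142c882112c482442ce281,
    0x882812c842882812c428182812c248e], [0, 0x8414816884881841a44148166249, 0,
    0x882442c124482842c124a, 0x882812c122882812c128c]]

noncomputable def n3371 : Ent := ⟨e3371, noF, [], [], [(13, 16, [1580044410770988437309982408355971841652082177953823432505702903809, 0])]⟩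

def c3371 : PLift (Cov.check n3371.C.D v3371 = true) := ⟨by decide +kernel⟩

def b3371 : PLift (entF (fidx ts) 400 3371 n3371 = true) := ⟨by decide +kernel⟩

theorem g3371 : GoodF (fidx ts) 400 3371 := GoodF.ofV v3371 n3371 c3371.down b3371.down

/-- 48457444:2560/9 -/
noncomputable def e3372 : SCfg where
  D := {
    a := 8
    L := 10
    kp := 7
    inn := [(0, 1), (0, 3), (1, 0), (1, 2), (1, 3), (1, 7), (2, 1), (2, 4), (3, 0), (3, 1), (4, 2), (4,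
      5), (4, 6), (5, 4), (6, 4), (7, 1)]
    mix := [(0, 0), (0, 1), (1, 0), (1, 2), (1, 3), (1, 4), (2, 2), (2, 3), (3, 1), (3, 2), (3, 5), (4,
      2), (4, 3), (4, 6), (4, 7), (5, 2), (5, 6), (5, 8), (6, 4), (6, 6), (6, 7), (7, 3), (7, 4),
      (7, 9)]
    cl := [0, 4, 0, 0, 1, 6, 3, 2, 5, 7]
    chq := [(2, 3), (2, 5), (3, 2), (5, 2)]
    rng := [(0, 1), (0, 4), (1, 0), (1, 5), (2, 5), (2, 8), (3, 7), (3, 9), (4, 0), (4, 6), (4, 7), (4,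
      9), (5, 1), (5, 2), (6, 4), (6, 8), (7, 3), (7, 4), (8, 2), (8, 6), (9, 3), (9, 4)]
    lev := [] }
  links := [[1, 8, 9, 3], [8, 0, 3, 10, 2, 11, 7, 12], [11, 1, 10, 4], [10, 1, 0, 9, 13], [11, 2, 10, 5,
    14, 6, 15], [14, 4, 10, 16], [15, 4, 14, 12], [12, 1, 11, 17]]
  P := {
    a := 8
    N := 18
    nb := [778, 7565, 3090, 9731, 52324, 82960, 53264, 137218, 4611, 8457, 73790, 163990, 180674,
      1544, 69744, 6224, 17440, 6272]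
    tri := [(0, 1, 3), (0, 1, 8), (0, 3, 9), (0, 8, 9), (1, 2, 10), (1, 2, 11), (1, 3, 10), (1, 7, 11),
      (1, 7, 12), (1, 8, 12), (2, 4, 10), (2, 4, 11), (3, 9, 13), (3, 10, 13), (4, 5, 10), (4, 5,
      14), (4, 6, 14), (4, 6, 15), (4, 11, 15), (5, 10, 16), (5, 14, 16), (6, 12, 14), (6, 12,
      15), (7, 11, 17), (7, 12, 17)]
    fin := [0, 0, 0, 0, 4, 4, 6, 0, 0, 9, 0, 0, 12, 13, 6, 15, 4, 17]
    chd := [(6, 15), (15, 4)]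
    steps := [(0, 1), (0, 2), (0, 3), (0, 7), (0, 8), (0, 10), (0, 11), (4, 5), (4, 16), (6, 14)] }
  rep := [0, 12, 15, 6, 9, 4, 13, 17]

noncomputable def v3372 : Cov.CovD where
  P := 3
  N := 5
  pl := [1, 4, 5, 9]
  lev := [⟨[], [], [], [4], [(0, 0, [])]⟩,
    ⟨[], [(0, 0)], [(0, 0)], [1], [(0, 0, []), (2, 0, []), (3, 0, [])]⟩,
    ⟨[(0, 1)], [(1, 0)], [(0, 0)], [], [(2, 0, []), (3, 0, [])]⟩,
    ⟨[(0, 1), (1, 2)], [(0, 0), (1, 0), (2, 0)], [], [4, 6], [(2, 0, [])]⟩,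
    ⟨[(1, 2)], [(1, 0), (2, 0), (2, 2), (2, 3), (3, 0)], [(0, 0), (0, 2), (0, 3), (2, 3)],
      [], [(2, 0, []), (3, 0, []), (6, 3, [2]), (7, 2, [3, 5])]⟩,
    ⟨[(2, 4)], [(1, 0), (2, 0), (3, 0), (4, 0), (4, 2), (4, 3), (4, 5)], [(0, 3), (0, 5),
      (3, 5)], [], [(2, 0, []), (6, 3, [2]), (8, 5, [2])]⟩,
    ⟨[(2, 4), (4, 5)], [(4, 0), (4, 2), (4, 3), (5, 3)], [(2, 3)], [1], [(6, 3, [2]), (7,
      2, [3, 5])]⟩,
    ⟨[(0, 1), (1, 2), (1, 3)], [(1, 0), (2, 0), (4, 0)], [], [1, 7], [(3, 0, [])]⟩]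
  Ta := [((0, 1), 0, 4), ((0, 4), 0, 1), ((2, 5), 0, 6), ((2, 8), 0, 5), ((3, 7), 0, 2), ((3, 9),
    0, 7)]
  Tb := [((0, 1, 4), 0, 4, 1), ((1, 0, 5), 4, 0, 6), ((2, 5, 8), 0, 6, 5), ((3, 7, 9), 0, 2, 7),
    ((4, 0, 6), 1, 0, 3), ((4, 0, 7), 1, 0, 2), ((4, 0, 9), 1, 0, 7), ((4, 6, 7), 1, 3, 2),
    ((4, 6, 9), 1, 3, 7), ((4, 7, 9), 1, 2, 7), ((5, 1, 2), 6, 4, 0), ((6, 4, 8), 3, 1, 5),
    ((7, 3, 4), 2, 0, 1), ((8, 2, 6), 5, 0, 3), ((9, 3, 4), 7, 0, 1)]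
  Tc := [(2, 3, 5)]
  Td := [((2, 3), (7, 3), 0), ((2, 3), (7, 4), 1), ((2, 5), (7, 3), 0), ((2, 5), (7, 4), 1), ((3,
    2), (6, 4), 1), ((3, 2), (6, 8), 5), ((5, 2), (8, 2), 0), ((5, 2), (8, 6), 3)]
  G := [[0, 0xc4241a8281c4c82c42c128a, 0, 0x182112c1281424112142ca18288c46,
    0x184114a8184111a264184114a124c], [0, 0, 0, 0x182142c182142c182112ce281,
    0x184114a824184114a184114a6249], [0, 0, 0xc81c41a42c81c41cc81c41ca2c1,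
    0xc82c42c124c82c12c148a, 0x484414a12884814a12cc84c14a148c]]

noncomputable def n3372 : Ent := ⟨e3372, noF, [], [], [(13, 16, [7334685537875745012586738086077695515070955365108989538292687707471873, 0]), (15, 17, [6903326391201334775872065844685381424292761054348340378595029943496705, 0])]⟩

def c3372 : PLift (Cov.check n3372.C.D v3372 = true) := ⟨by decide +kernel⟩

def b3372 : PLift (entF (fidx ts) 400 3372 n3372 = true) := ⟨by decide +kernel⟩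

theorem g3372 : GoodF (fidx ts) 400 3372 := GoodF.ofV v3372 n3372 c3372.down b3372.down

/-- 48457444:2560/11 -/
noncomputable def e3373 : SCfg where
  D := {
    a := 8
    L := 10
    kp := 7
    inn := [(0, 1), (0, 3), (1, 0), (1, 2), (1, 3), (1, 7), (2, 1), (2, 4), (3, 0), (3, 1), (4, 2), (4,
      5), (4, 6), (5, 4), (6, 4), (7, 1)]
    mix := [(0, 0), (0, 1), (1, 0), (1, 2), (1, 3), (1, 4), (2, 2), (2, 3), (3, 1), (3, 2), (3, 5), (4,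
      2), (4, 3), (4, 6), (4, 7), (5, 2), (5, 6), (5, 8), (6, 6), (6, 7), (6, 9), (7, 3), (7, 4),
      (7, 7)]
    cl := [0, 4, 0, 0, 2, 6, 3, 1, 5, 7]
    chq := [(1, 3), (1, 5), (3, 1), (5, 1)]
    rng := [(0, 1), (0, 4), (1, 0), (1, 5), (2, 5), (2, 8), (3, 7), (4, 0), (4, 7), (5, 1), (5, 2), (6,
      8), (6, 9), (7, 3), (7, 4), (7, 9), (8, 2), (8, 6), (9, 6), (9, 7)]
    lev := [] }
  links := [[1, 8, 9, 3], [8, 0, 3, 10, 2, 11, 7, 12], [11, 1, 10, 4], [10, 1, 0, 9, 13], [11, 2, 10, 5,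
    14, 6, 15], [14, 4, 10, 16], [15, 4, 14, 17], [12, 1, 11, 15]]
  P := {
    a := 8
    N := 18
    nb := [778, 7565, 3090, 9731, 52324, 82960, 180240, 38914, 4611, 8457, 73790, 32918, 33154, 1544,
      196720, 137424, 17440, 49216]
    tri := [(0, 1, 3), (0, 1, 8), (0, 3, 9), (0, 8, 9), (1, 2, 10), (1, 2, 11), (1, 3, 10), (1, 7, 11),
      (1, 7, 12), (1, 8, 12), (2, 4, 10), (2, 4, 11), (3, 9, 13), (3, 10, 13), (4, 5, 10), (4, 5,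
      14), (4, 6, 14), (4, 6, 15), (4, 11, 15), (5, 10, 16), (5, 14, 16), (6, 14, 17), (6, 15,
      17), (7, 11, 15), (7, 12, 15)]
    fin := [0, 0, 0, 0, 4, 4, 6, 0, 0, 9, 0, 0, 12, 13, 6, 15, 4, 17]
    chd := [(6, 15), (15, 4)]
    steps := [(0, 1), (0, 2), (0, 3), (0, 7), (0, 8), (0, 10), (0, 11), (4, 5), (4, 16), (6, 14)] }
  rep := [0, 15, 12, 6, 9, 4, 13, 17]

noncomputable def v3373 : Cov.CovD where
  P := 3
  N := 5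
  pl := [1, 4, 5, 9]
  lev := [⟨[], [], [], [4], [(0, 0, [])]⟩,
    ⟨[], [(0, 0)], [(0, 0)], [2], [(0, 0, []), (2, 0, []), (3, 0, [])]⟩,
    ⟨[(0, 1)], [(1, 0)], [(0, 0)], [], [(2, 0, []), (3, 0, [])]⟩,
    ⟨[(0, 1), (1, 2)], [(0, 0), (1, 0), (2, 0)], [], [4, 6], [(2, 0, [])]⟩,
    ⟨[(1, 2)], [(1, 0), (2, 0), (2, 1), (2, 3), (3, 0)], [(0, 0), (0, 1), (0, 3), (1, 3)],
      [], [(2, 0, []), (3, 0, []), (6, 3, [1]), (7, 1, [3, 5])]⟩,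
    ⟨[(2, 4)], [(1, 0), (2, 0), (3, 0), (4, 0), (4, 1), (4, 3), (4, 5)], [(0, 3), (0, 5),
      (3, 5)], [], [(2, 0, []), (6, 3, [1]), (8, 5, [1])]⟩,
    ⟨[(2, 4), (4, 5)], [(4, 0), (4, 1), (4, 3), (5, 3)], [(1, 3)], [7], [(6, 3, [1]), (7,
      1, [3, 5])]⟩,
    ⟨[(0, 1), (1, 2), (1, 3)], [(1, 0), (1, 1), (2, 0), (4, 0), (4, 1), (6, 1)], [(0, 1)],
      [2], [(3, 0, []), (7, 1, [3, 5])]⟩]
  Ta := [((0, 1), 0, 4), ((0, 4), 0, 2), ((2, 5), 0, 6), ((2, 8), 0, 5), ((3, 7), 0, 1)]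
  Tb := [((0, 1, 4), 0, 4, 2), ((1, 0, 5), 4, 0, 6), ((2, 5, 8), 0, 6, 5), ((4, 0, 7), 2, 0, 1),
    ((5, 1, 2), 6, 4, 0), ((6, 8, 9), 3, 5, 7), ((7, 3, 4), 1, 0, 2), ((7, 3, 9), 1, 0, 7),
    ((7, 4, 9), 1, 2, 7), ((8, 2, 6), 5, 0, 3), ((9, 6, 7), 7, 3, 1)]
  Tc := [(1, 3, 5)]
  Td := [((1, 3), (7, 3), 0), ((1, 3), (7, 4), 2), ((1, 3), (7, 9), 7), ((1, 5), (7, 3), 0), ((1,
    5), (7, 4), 2), ((1, 5), (7, 9), 7), ((3, 1), (6, 8), 5), ((3, 1), (6, 9), 7), ((5, 1),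
    (8, 2), 0), ((5, 1), (8, 6), 3)]
  G := [[0, 0, 0x44928452c124885241889281c2a, 0x11921152c42185248119288cc41928152c124a,
    0x11921152c128888d2812c211928852c1414668a], [0, 0, 0,
    0x18921852c82411924852c42811921452c224e, 0x1192112c8142488928852c11921852ce681], [0,
    0x88c18861a84488c188a1688c188a166849, 0, 0x44924452c12848924452c128c,
    0x88928852c1228892812c18424168a]]

noncomputable def n3373 : Ent := ⟨e3373, noF, [], [], [(9, 17, [6903326391201334775872065844685381424292761054348340378595029943472129, 0]), (13, 16, [7334685537875745012586738086077695515070955365108989538292687707475969, 0]), (17, 12, [6903326391201342438349770174129673216027896805894258472290640861507585, 0])]⟩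

def c3373 : PLift (Cov.check n3373.C.D v3373 = true) := ⟨by decide +kernel⟩

def b3373 : PLift (entF (fidx ts) 400 3373 n3373 = true) := ⟨by decide +kernel⟩

theorem g3373 : GoodF (fidx ts) 400 3373 := GoodF.ofV v3373 n3373 c3373.down b3373.down

/-- 48457444:2560 -/
noncomputable def e3374 : SCfg where
  D := {
    a := 8
    L := 11
    kp := 8
    inn := [(0, 1), (0, 3), (1, 0), (1, 2), (1, 3), (1, 7), (2, 1), (2, 4), (3, 0), (3, 1), (4, 2), (4,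
      5), (4, 6), (5, 4), (6, 4), (7, 1)]
    mix := [(0, 0), (0, 1), (1, 0), (1, 2), (1, 3), (1, 4), (2, 2), (2, 3), (3, 1), (3, 2), (3, 5), (4,
      2), (4, 3), (4, 6), (4, 7), (5, 2), (5, 6), (5, 8), (6, 6), (6, 7), (6, 9), (7, 3), (7, 4),
      (7, 10)]
    cl := [0, 4, 0, 0, 2, 6, 3, 1, 5, 7, 8]
    chq := [(1, 3), (1, 5), (3, 1), (5, 1)]
    rng := [(0, 1), (0, 4), (1, 0), (1, 5), (2, 5), (2, 8), (3, 7), (3, 10), (4, 0), (4, 10), (5, 1),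
      (5, 2), (6, 8), (6, 9), (7, 3), (7, 9), (8, 2), (8, 6), (9, 6), (9, 7), (10, 3), (10, 4)]
    lev := [] }
  links := [[1, 8, 9, 3], [8, 0, 3, 10, 2, 11, 7, 12], [11, 1, 10, 4], [10, 1, 0, 9, 13], [11, 2, 10, 5,
    14, 6, 15], [14, 4, 10, 16], [15, 4, 14, 17], [12, 1, 11, 18]]
  P := {
    a := 8
    N := 19
    nb := [778, 7565, 3090, 9731, 52324, 82960, 180240, 268290, 4611, 8457, 73790, 295062, 262530,
      1544, 196720, 133200, 17440, 49216, 6272]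
    tri := [(0, 1, 3), (0, 1, 8), (0, 3, 9), (0, 8, 9), (1, 2, 10), (1, 2, 11), (1, 3, 10), (1, 7, 11),
      (1, 7, 12), (1, 8, 12), (2, 4, 10), (2, 4, 11), (3, 9, 13), (3, 10, 13), (4, 5, 10), (4, 5,
      14), (4, 6, 14), (4, 6, 15), (4, 11, 15), (5, 10, 16), (5, 14, 16), (6, 14, 17), (6, 15,
      17), (7, 11, 18), (7, 12, 18)]
    fin := [0, 0, 0, 0, 4, 4, 6, 0, 0, 9, 0, 0, 12, 13, 6, 15, 4, 17, 18]
    chd := [(6, 15), (15, 4)]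
    steps := [(0, 1), (0, 2), (0, 3), (0, 7), (0, 8), (0, 10), (0, 11), (4, 5), (4, 16), (6, 14)] }
  rep := [0, 15, 12, 6, 9, 4, 13, 17, 18]

noncomputable def v3374 : Cov.CovD where
  P := 3
  N := 6
  pl := [1, 4, 5, 9, 10]
  lev := [⟨[], [], [], [4], [(0, 0, [])]⟩,
    ⟨[], [(0, 0)], [(0, 0)], [2], [(0, 0, []), (2, 0, []), (3, 0, [])]⟩,
    ⟨[(0, 1)], [(1, 0)], [(0, 0)], [], [(2, 0, []), (3, 0, [])]⟩,
    ⟨[(0, 1), (1, 2)], [(0, 0), (1, 0), (2, 0)], [], [4, 6], [(2, 0, [])]⟩,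
    ⟨[(1, 2)], [(1, 0), (2, 0), (2, 1), (2, 3), (3, 0)], [(0, 0), (0, 1), (0, 3), (1, 3)],
      [], [(2, 0, []), (3, 0, []), (6, 3, [1]), (7, 1, [3, 5])]⟩,
    ⟨[(2, 4)], [(1, 0), (2, 0), (3, 0), (4, 0), (4, 1), (4, 3), (4, 5)], [(0, 3), (0, 5),
      (3, 5)], [], [(2, 0, []), (6, 3, [1]), (8, 5, [1])]⟩,
    ⟨[(2, 4), (4, 5)], [(4, 0), (4, 1), (4, 3), (5, 3)], [(1, 3)], [7], [(6, 3, [1]), (7,
      1, [3, 5])]⟩,
    ⟨[(0, 1), (1, 2), (1, 3)], [(1, 0), (2, 0), (4, 0)], [], [2, 8], [(3, 0, [])]⟩]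
  Ta := [((0, 1), 0, 4), ((0, 4), 0, 2), ((2, 5), 0, 6), ((2, 8), 0, 5), ((3, 7), 0, 1), ((3,
    10), 0, 8)]
  Tb := [((0, 1, 4), 0, 4, 2), ((1, 0, 5), 4, 0, 6), ((2, 5, 8), 0, 6, 5), ((3, 7, 10), 0, 1, 8),
    ((4, 0, 10), 2, 0, 8), ((5, 1, 2), 6, 4, 0), ((6, 8, 9), 3, 5, 7), ((7, 3, 9), 1, 0, 7),
    ((8, 2, 6), 5, 0, 3), ((9, 6, 7), 7, 3, 1), ((10, 3, 4), 8, 0, 2)]
  Tc := [(1, 3, 5)]
  Td := [((1, 3), (7, 3), 0), ((1, 3), (7, 9), 7), ((1, 5), (7, 3), 0), ((1, 5), (7, 9), 7), ((3,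
    1), (6, 8), 5), ((3, 1), (6, 9), 7), ((5, 1), (8, 2), 0), ((5, 1), (8, 6), 3)]
  G := [[0, 0, 0x66926652c128cc92cc52c122c, 0x11921152c1281192841152411921152c668c,
    0x11921152c128115241411346119281811386c8a], [0, 0, 0, 0x11921152c11921152c11921152ce241,
    0x11921152c11921152c11921152ce281], [0, 0xccc1cca16884cca1cc61ccca1cc61c6289, 0,
    0xcc9281cc524168cc92cc52c1246, 0xaa5241aa9281c2a1241aa92a42c168a]]

noncomputable def n3374 : Ent := ⟨e3374, noF, [], [], [(9, 17, [31810150492402119267275227079217218666319002904815489586567506653227409409, 0]), (13, 16, [31810581851548793677511941751458610980409781099126250235727204310991413249, 0]), (17, 12, [31810150492402119274937704783546662958110738040567035504661202264145444865, 0]), (15, 18, [30043303427623734937691929578474300150491519007939870628445900451934818305, 0])]⟩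

def c3374 : PLift (Cov.check n3374.C.D v3374 = true) := ⟨by decide +kernel⟩

def b3374 : PLift (entF (fidx ts) 400 3374 n3374 = true) := ⟨by decide +kernel⟩

theorem g3374 : GoodF (fidx ts) 400 3374 := GoodF.ofV v3374 n3374 c3374.down b3374.down

/-- 48456844:2564/1 -/
noncomputable def e3375 : SCfg where
  D := {
    a := 8
    L := 10
    kp := 7
    inn := [(0, 1), (0, 3), (0, 4), (0, 5), (1, 0), (1, 2), (1, 3), (1, 4), (1, 6), (2, 1), (3, 0), (3,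
      1), (3, 5), (4, 0), (4, 1), (4, 5), (5, 0), (5, 3), (5, 4), (5, 7), (6, 1), (7, 5)]
    mix := [(1, 0), (1, 1), (1, 2), (2, 0), (2, 1), (2, 3), (3, 0), (3, 4), (4, 2), (4, 5), (4, 6), (5,
      4), (5, 6), (5, 7), (5, 8), (6, 1), (6, 2), (6, 9), (7, 3), (7, 6), (7, 7)]
    cl := [0, 1, 0, 4, 2, 6, 3, 5, 3, 7]
    chq := [(0, 1), (1, 0), (2, 6), (6, 2)]
    rng := [(0, 3), (0, 4), (1, 3), (1, 9), (2, 5), (2, 9), (3, 0), (3, 1), (3, 6), (3, 7), (4, 0), (4,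
      8), (5, 2), (5, 6), (6, 3), (6, 5), (7, 3), (7, 8), (8, 4), (8, 7), (9, 1), (9, 2)]
    lev := [] }
  links := [[1, 4, 5, 3], [4, 0, 3, 8, 2, 9, 6, 10], [9, 1, 8, 11], [8, 1, 0, 5, 12], [5, 0, 1, 10, 13,
    14], [12, 3, 0, 4, 14, 7, 15, 16], [10, 1, 9, 17], [15, 5, 14, 11]]
  P := {
    a := 8
    N := 18
    nb := [58, 1885, 2818, 4387, 25635, 118937, 132610, 51232, 6158, 133190, 139346, 50052, 65832,
      17424, 10416, 67744, 36896, 1600]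
    tri := [(0, 1, 3), (0, 1, 4), (0, 3, 5), (0, 4, 5), (1, 2, 8), (1, 2, 9), (1, 3, 8), (1, 4, 10),
      (1, 6, 9), (1, 6, 10), (2, 8, 11), (2, 9, 11), (3, 5, 12), (3, 8, 12), (4, 5, 14), (4, 10,
      13), (4, 13, 14), (5, 7, 14), (5, 7, 15), (5, 12, 16), (5, 15, 16), (6, 9, 17), (6, 10, 17),
      (7, 11, 14), (7, 11, 15)]
    fin := [0, 1, 1, 0, 0, 5, 1, 7, 1, 9, 1, 7, 12, 0, 5, 15, 5, 17]
    chd := [(1, 9), (12, 0)]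
    steps := [(0, 3), (0, 4), (0, 13), (1, 2), (1, 6), (1, 8), (1, 10), (5, 14), (5, 16), (7, 11)] }
  rep := [1, 9, 12, 5, 7, 15, 0, 17]

noncomputable def v3375 : Cov.CovD where
  P := 3
  N := 5
  pl := [3, 7, 9]
  lev := [⟨[], [], [], [], []⟩,
    ⟨[], [(0, 0), (0, 1)], [(0, 0), (0, 1)], [], [(0, 0, [1]), (1, 1, [0]), (2, 0, [1])]⟩,
    ⟨[(0, 1)], [(1, 0), (1, 1)], [(0, 1)], [4], [(0, 0, [1]), (1, 1, [0])]⟩,
    ⟨[(0, 1), (1, 2)], [(0, 0), (0, 2), (1, 0), (1, 1), (1, 2), (2, 0)], [(0, 2)], [], [(0,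
      0, [1]), (4, 2, [6])]⟩,
    ⟨[(0, 1), (0, 3), (1, 2), (1, 3)], [(0, 0), (0, 3), (0, 6), (1, 0), (1, 1), (1, 3), (1,
      6)], [(0, 3), (0, 6), (3, 6)], [], [(2, 0, [1]), (5, 6, [2]), (6, 3, [])]⟩,
    ⟨[(0, 1), (0, 3), (0, 4), (1, 3), (1, 4), (3, 4)], [(0, 2), (0, 3), (3, 0), (3, 2), (3,
      3), (4, 0), (4, 2), (4, 3), (4, 6)], [(2, 3), (3, 3)], [5], [(4, 2, [6]), (6, 3, []),
      (8, 3, [])]⟩,
    ⟨[(0, 1), (1, 2), (1, 3), (1, 4)], [(1, 0), (1, 1), (2, 1), (4, 0)], [(0, 1)], [7],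
      [(1, 1, [0]), (2, 0, [1])]⟩,
    ⟨[(0, 5), (3, 5), (4, 5)], [(4, 3), (5, 2), (5, 3)], [], [4, 5], [(6, 3, [])]⟩]
  Ta := [((0, 3), 0, 4), ((0, 4), 0, 2), ((2, 5), 0, 6), ((2, 9), 0, 7), ((6, 3), 3, 4), ((6, 5),
    3, 6), ((8, 4), 3, 2), ((8, 7), 3, 5)]
  Tb := [((0, 3, 4), 0, 4, 2), ((1, 3, 9), 1, 4, 7), ((2, 5, 9), 0, 6, 7), ((3, 0, 1), 4, 0, 1),
    ((3, 0, 6), 4, 0, 3), ((3, 0, 7), 4, 0, 5), ((3, 1, 6), 4, 1, 3), ((3, 1, 7), 4, 1, 5),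
    ((3, 6, 7), 4, 3, 5), ((4, 0, 8), 2, 0, 3), ((5, 2, 6), 6, 0, 3), ((6, 3, 5), 3, 4, 6),
    ((7, 3, 8), 5, 4, 3), ((8, 4, 7), 3, 2, 5), ((9, 1, 2), 7, 1, 0)]
  Tc := []
  Td := [((0, 1), (0, 3), 4), ((0, 1), (0, 4), 2), ((0, 1), (2, 5), 6), ((0, 1), (2, 9), 7), ((1,
    0), (1, 3), 4), ((1, 0), (1, 9), 7), ((2, 6), (4, 0), 0), ((2, 6), (4, 8), 3), ((6, 2),
    (5, 2), 0), ((6, 2), (5, 6), 3)]
  G := [[0, 0x11612822a11a92468886226c24446428c85, 0x8434c1211c2133c44cc16c3811c618881a8c2,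
    0x811192488214244121523182cc85, 0x811194288214226141345184ac212488c3], [0,
    0x81c824299688652855a41a44ad28cc1, 0x112453c41cc164112828c9acc168c2,
    0x9181528182c314141d28c41, 0x8191a1b42311121b42c81], [0,
    0x446421488861169241161222c22cc25a8c, 0, 0x241452aac1892c1864c428145,
    0xccc11c9421864246824c1682481c3], [0, 0x88612692a9642511a1265c11ac25c84, 0,
    0x11c124185469cc2d882c145, 0x33c99caacb42181]]

noncomputable def n3375 : Ent := ⟨e3375, noF, [], [], []⟩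

def c3375 : PLift (Cov.check n3375.C.D v3375 = true) := ⟨by decide +kernel⟩

def b3375 : PLift (entF (fidx ts) 400 3375 n3375 = true) := ⟨by decide +kernel⟩

theorem g3375 : GoodF (fidx ts) 400 3375 := GoodF.ofV v3375 n3375 c3375.down b3375.down

/-- 48456844:2564 -/
noncomputable def e3376 : SCfg where
  D := {
    a := 8
    L := 11
    kp := 8
    inn := [(0, 1), (0, 3), (0, 4), (0, 5), (1, 0), (1, 2), (1, 3), (1, 4), (1, 6), (2, 1), (3, 0), (3,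
      1), (3, 5), (4, 0), (4, 1), (4, 5), (5, 0), (5, 3), (5, 4), (5, 7), (6, 1), (7, 5)]
    mix := [(1, 0), (1, 1), (1, 2), (2, 0), (2, 1), (2, 3), (3, 0), (3, 4), (4, 2), (4, 5), (4, 6), (5,
      4), (5, 6), (5, 7), (5, 8), (6, 1), (6, 2), (6, 9), (7, 6), (7, 7), (7, 10)]
    cl := [0, 1, 0, 6, 2, 5, 3, 4, 3, 7, 8]
    chq := [(0, 1), (1, 0), (2, 5), (5, 2)]
    rng := [(0, 3), (0, 4), (1, 3), (1, 9), (2, 5), (2, 9), (3, 0), (3, 1), (4, 0), (4, 8), (5, 2), (5,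
      6), (6, 5), (6, 10), (7, 8), (7, 10), (8, 4), (8, 7), (9, 1), (9, 2), (10, 6), (10, 7)]
    lev := [] }
  links := [[1, 4, 5, 3], [4, 0, 3, 8, 2, 9, 6, 10], [9, 1, 8, 11], [8, 1, 0, 5, 12], [5, 0, 1, 10, 13,
    14], [12, 3, 0, 4, 14, 7, 15, 16], [10, 1, 9, 17], [15, 5, 14, 18]]
  P := {
    a := 8
    N := 19
    nb := [58, 1885, 2818, 4387, 25635, 118937, 132610, 311328, 6158, 133190, 139346, 772, 65832,
      17424, 270512, 327840, 36896, 1600, 49280]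
    tri := [(0, 1, 3), (0, 1, 4), (0, 3, 5), (0, 4, 5), (1, 2, 8), (1, 2, 9), (1, 3, 8), (1, 4, 10),
      (1, 6, 9), (1, 6, 10), (2, 8, 11), (2, 9, 11), (3, 5, 12), (3, 8, 12), (4, 5, 14), (4, 10,
      13), (4, 13, 14), (5, 7, 14), (5, 7, 15), (5, 12, 16), (5, 15, 16), (6, 9, 17), (6, 10, 17),
      (7, 14, 18), (7, 15, 18)]
    fin := [0, 1, 1, 0, 0, 5, 1, 5, 1, 9, 1, 11, 12, 0, 5, 15, 5, 17, 18]
    chd := [(1, 9), (12, 0)]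
    steps := [(0, 3), (0, 4), (0, 13), (1, 2), (1, 6), (1, 8), (1, 10), (5, 7), (5, 14), (5, 16)] }
  rep := [1, 9, 12, 5, 15, 0, 11, 17, 18]

noncomputable def v3376 : Cov.CovD where
  P := 3
  N := 6
  pl := [3, 7, 9, 10]
  lev := [⟨[], [], [], [], []⟩,
    ⟨[], [(0, 0), (0, 1)], [(0, 0), (0, 1)], [], [(0, 0, [1]), (1, 1, [0]), (2, 0, [1])]⟩,
    ⟨[(0, 1)], [(1, 0), (1, 1)], [(0, 1)], [6], [(0, 0, [1]), (1, 1, [0])]⟩,
    ⟨[(0, 1), (1, 2)], [(0, 0), (0, 2), (1, 0), (1, 1), (1, 2), (2, 0)], [(0, 2)], [], [(0,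
      0, [1]), (4, 2, [5])]⟩,
    ⟨[(0, 1), (0, 3), (1, 2), (1, 3)], [(0, 0), (0, 3), (0, 5), (1, 0), (1, 1), (1, 3), (1,
      5)], [(0, 3), (0, 5), (3, 5)], [], [(2, 0, [1]), (5, 5, [2]), (6, 3, [])]⟩,
    ⟨[(0, 1), (0, 3), (0, 4), (1, 3), (1, 4), (3, 4)], [(0, 2), (0, 3), (3, 0), (3, 2), (3,
      3), (4, 0), (4, 2), (4, 3), (4, 5)], [(2, 3), (3, 3)], [4], [(4, 2, [5]), (6, 3, []),
      (8, 3, [])]⟩,
    ⟨[(0, 1), (1, 2), (1, 3), (1, 4)], [(1, 0), (1, 1), (2, 1), (4, 0)], [(0, 1)], [7],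
      [(1, 1, [0]), (2, 0, [1])]⟩,
    ⟨[(0, 5), (3, 5), (4, 5)], [(4, 3), (5, 2), (5, 3)], [], [4, 8], [(6, 3, [])]⟩]
  Ta := [((0, 3), 0, 6), ((0, 4), 0, 2), ((2, 5), 0, 5), ((2, 9), 0, 7), ((6, 5), 3, 5), ((6,
    10), 3, 8), ((8, 4), 3, 2), ((8, 7), 3, 4)]
  Tb := [((0, 3, 4), 0, 6, 2), ((1, 3, 9), 1, 6, 7), ((2, 5, 9), 0, 5, 7), ((3, 0, 1), 6, 0, 1),
    ((4, 0, 8), 2, 0, 3), ((5, 2, 6), 5, 0, 3), ((6, 5, 10), 3, 5, 8), ((7, 8, 10), 4, 3, 8),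
    ((8, 4, 7), 3, 2, 4), ((9, 1, 2), 7, 1, 0), ((10, 6, 7), 8, 3, 4)]
  Tc := []
  Td := [((0, 1), (0, 3), 6), ((0, 1), (0, 4), 2), ((0, 1), (2, 5), 5), ((0, 1), (2, 9), 7), ((1,
    0), (1, 3), 6), ((1, 0), (1, 9), 7), ((2, 5), (4, 0), 0), ((2, 5), (4, 8), 3), ((5, 2),
    (5, 2), 0), ((5, 2), (5, 6), 3)]
  G := [[0, 0xaa63369224425aac3369246866642864a428c45,
    0x54412455c33c61858412cc9481499c33ca14c988128cc, 0x61315286131528c4a1824a1824c89,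
    0x51142c151942c82124c141a4661248c212488c3], [0, 0x3361282855a99accad28d6642ada82c645,
    0x91822cbbcccce54451467c32cccce988c2, 0x5191c1d2445191c1d288c1,
    0x3191a1b4271a134d184ac81], [0, 0x66c3452866a38528c4aa6821aac32924a8c, 0,
    0xaac33c9241866c428145, 0xccc55c9421864246824c1682481c3], [0,
    0x55697ac216eadba528c4daacc6924289, 0, 0x55c99ccccd28141, 0x33c99caacb42181]]

noncomputable def n3376 : Ent := ⟨e3376, noF, [], [], [(11, 18, [30043303427623734937691929578474300150491519007939870628445900451934826497, 0])]⟩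

def c3376 : PLift (Cov.check n3376.C.D v3376 = true) := ⟨by decide +kernel⟩

def b3376 : PLift (entF (fidx ts) 400 3376 n3376 = true) := ⟨by decide +kernel⟩

theorem g3376 : GoodF (fidx ts) 400 3376 := GoodF.ofV v3376 n3376 c3376.down b3376.down

/-- 48456844:2565/1 -/
noncomputable def e3377 : SCfg where
  D := {
    a := 8
    L := 10
    kp := 7
    inn := [(0, 1), (0, 3), (0, 4), (0, 5), (1, 0), (1, 2), (1, 3), (1, 4), (1, 6), (2, 1), (3, 0), (3,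
      1), (3, 5), (4, 0), (4, 1), (4, 5), (5, 0), (5, 3), (5, 4), (5, 7), (6, 1), (7, 5)]
    mix := [(1, 0), (1, 1), (1, 2), (2, 0), (2, 1), (2, 3), (3, 0), (3, 4), (4, 2), (4, 5), (4, 6), (5,
      4), (5, 6), (5, 7), (5, 8), (6, 1), (6, 2), (6, 9), (7, 3), (7, 4), (7, 8)]
    cl := [0, 2, 0, 3, 1, 6, 1, 5, 4, 7]
    chq := [(0, 2), (2, 0), (3, 5), (5, 3)]
    rng := [(0, 3), (0, 4), (1, 3), (1, 9), (2, 5), (2, 9), (3, 0), (3, 1), (3, 4), (3, 8), (4, 0), (4,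
      3), (5, 2), (5, 6), (6, 5), (6, 7), (7, 6), (7, 8), (8, 3), (8, 7), (9, 1), (9, 2)]
    lev := [] }
  links := [[1, 4, 5, 3], [4, 0, 3, 8, 2, 9, 6, 10], [9, 1, 8, 11], [8, 1, 0, 5, 12], [5, 0, 1, 10, 13,
    14], [12, 3, 0, 4, 14, 15, 16, 7], [10, 1, 9, 17], [12, 5, 16, 11]]
  P := {
    a := 8
    N := 18
    nb := [58, 1885, 2818, 4387, 25635, 118937, 132610, 71712, 6158, 133190, 139346, 70532, 2472,
      17424, 41008, 81952, 34976, 1600]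
    tri := [(0, 1, 3), (0, 1, 4), (0, 3, 5), (0, 4, 5), (1, 2, 8), (1, 2, 9), (1, 3, 8), (1, 4, 10),
      (1, 6, 9), (1, 6, 10), (2, 8, 11), (2, 9, 11), (3, 5, 12), (3, 8, 12), (4, 5, 14), (4, 10,
      13), (4, 13, 14), (5, 7, 12), (5, 7, 16), (5, 14, 15), (5, 15, 16), (6, 9, 17), (6, 10, 17),
      (7, 11, 12), (7, 11, 16)]
    fin := [0, 1, 1, 0, 0, 5, 1, 5, 1, 9, 1, 5, 0, 13, 0, 15, 16, 17]
    chd := [(1, 9), (5, 15)]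
    steps := [(0, 3), (0, 4), (0, 14), (0, 12), (1, 2), (1, 6), (1, 8), (1, 10), (5, 7), (5, 11)] }
  rep := [1, 0, 9, 5, 16, 15, 13, 17]

noncomputable def v3377 : Cov.CovD where
  P := 3
  N := 5
  pl := [5, 8, 9]
  lev := [⟨[], [], [], [], []⟩,
    ⟨[], [(0, 0), (0, 2)], [(0, 0), (0, 2)], [], [(0, 0, [2]), (1, 2, [0]), (2, 0, [2])]⟩,
    ⟨[(0, 1)], [(1, 0), (1, 2), (1, 3)], [(0, 2), (0, 3), (2, 3)], [], [(0, 0, [2]), (1, 2,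
      [0]), (3, 3, [5])]⟩,
    ⟨[(0, 1), (1, 2)], [(0, 0), (0, 1), (1, 0), (1, 1), (1, 2), (2, 0)], [(0, 1)], [], [(0,
      0, [2]), (4, 1, [])]⟩,
    ⟨[(0, 1), (0, 3), (1, 2), (1, 3)], [(0, 0), (0, 1), (1, 0), (1, 1), (1, 2)], [(0, 1)],
      [6], [(2, 0, [2]), (6, 1, [])]⟩,
    ⟨[(0, 1), (0, 3), (0, 4), (1, 3), (1, 4), (3, 4)], [(0, 1), (0, 5), (3, 0), (3, 1), (3,
      5), (4, 0), (4, 1), (4, 5)], [(1, 1), (1, 5)], [4], [(4, 1, []), (6, 1, []), (7, 5,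
      [3])]⟩,
    ⟨[(0, 1), (1, 2), (1, 3), (1, 4)], [(1, 0), (1, 2), (2, 2), (4, 0)], [(0, 2)], [7],
      [(1, 2, [0]), (2, 0, [2])]⟩,
    ⟨[(0, 5), (3, 5), (4, 5)], [(2, 3), (3, 1), (5, 1), (5, 3), (5, 5)], [(1, 3)], [4],
      [(3, 3, [5]), (4, 1, [])]⟩]
  Ta := [((0, 3), 0, 3), ((0, 4), 0, 1), ((2, 5), 0, 6), ((2, 9), 0, 7), ((4, 0), 1, 0), ((4, 3),
    1, 3), ((6, 5), 1, 6), ((6, 7), 1, 5)]
  Tb := [((0, 3, 4), 0, 3, 1), ((1, 3, 9), 2, 3, 7), ((2, 5, 9), 0, 6, 7), ((3, 0, 1), 3, 0, 2),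
    ((3, 0, 4), 3, 0, 1), ((3, 0, 8), 3, 0, 4), ((3, 1, 4), 3, 2, 1), ((3, 1, 8), 3, 2, 4),
    ((3, 4, 8), 3, 1, 4), ((4, 0, 3), 1, 0, 3), ((5, 2, 6), 6, 0, 1), ((6, 5, 7), 1, 6, 5),
    ((7, 6, 8), 5, 1, 4), ((8, 3, 7), 4, 3, 5), ((9, 1, 2), 7, 2, 0)]
  Tc := []
  Td := [((0, 2), (0, 3), 3), ((0, 2), (0, 4), 1), ((0, 2), (2, 5), 6), ((0, 2), (2, 9), 7), ((2,
    0), (1, 3), 3), ((2, 0), (1, 9), 7), ((3, 5), (3, 0), 0), ((3, 5), (3, 1), 2), ((3, 5),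
    (3, 4), 1), ((3, 5), (3, 8), 4), ((5, 3), (7, 6), 1), ((5, 3), (7, 8), 4)]
  G := [[0, 0x2146141a612141ee44a18168181a81a1ce28c1, 0x85a11c924415c8142a99a88c52844a428c45,
    0x9181521182c514141d28c41, 0x8191c1d24511141d24a81], [0, 0, 0x11c123c4512c133c89c224,
    0x21141155c22ccd4481121121c39ccd88c2, 0x1161511c1922a22acd4282], [0, 0,
    0x1861282996c15581169245411cc11e84, 0x55c99ccccd28141, 0x55a99accad24181], [0, 0,
    0x1161116125a92acd4282, 0x92c11c5281c81455c99cc4d42155c8821c3,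
    0x33a4436a33a22ad23a42a9cc121]]

noncomputable def n3377 : Ent := ⟨e3377, noF, [], [], []⟩

def c3377 : PLift (Cov.check n3377.C.D v3377 = true) := ⟨by decide +kernel⟩

def b3377 : PLift (entF (fidx ts) 400 3377 n3377 = true) := ⟨by decide +kernel⟩

theorem g3377 : GoodF (fidx ts) 400 3377 := GoodF.ofV v3377 n3377 c3377.down b3377.down

/-- 48456844:2565/2 -/
noncomputable def e3378 : SCfg where
  D := {
    a := 8
    L := 10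
    kp := 7
    inn := [(0, 1), (0, 3), (0, 4), (0, 5), (1, 0), (1, 2), (1, 3), (1, 4), (1, 6), (2, 1), (3, 0), (3,
      1), (3, 5), (4, 0), (4, 1), (4, 5), (5, 0), (5, 3), (5, 4), (5, 7), (6, 1), (7, 5)]
    mix := [(1, 0), (1, 1), (1, 2), (2, 0), (2, 1), (2, 3), (3, 0), (3, 4), (4, 2), (4, 5), (4, 6), (5,
      4), (5, 6), (5, 7), (5, 8), (6, 1), (6, 2), (6, 9), (7, 4), (7, 8), (7, 9)]
    cl := [0, 2, 0, 5, 1, 6, 1, 7, 3, 4]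
    chq := [(0, 2), (1, 3), (2, 0), (3, 1)]
    rng := [(0, 3), (0, 4), (1, 3), (1, 9), (2, 5), (2, 9), (3, 0), (3, 1), (4, 0), (4, 9), (5, 2), (5,
      6), (6, 5), (6, 7), (7, 6), (7, 8), (8, 7), (8, 9), (9, 1), (9, 2), (9, 4), (9, 8)]
    lev := [] }
  links := [[1, 4, 5, 3], [4, 0, 3, 8, 2, 9, 6, 10], [9, 1, 8, 11], [8, 1, 0, 5, 12], [5, 0, 1, 10, 13,
    14], [12, 3, 0, 4, 14, 15, 16, 7], [10, 1, 9, 17], [12, 5, 16, 17]]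
  P := {
    a := 8
    N := 18
    nb := [58, 1885, 2818, 4387, 25635, 118937, 132610, 200736, 6158, 133190, 139346, 772, 131496,
      17424, 41008, 81952, 164000, 71360]
    tri := [(0, 1, 3), (0, 1, 4), (0, 3, 5), (0, 4, 5), (1, 2, 8), (1, 2, 9), (1, 3, 8), (1, 4, 10),
      (1, 6, 9), (1, 6, 10), (2, 8, 11), (2, 9, 11), (3, 5, 12), (3, 8, 12), (4, 5, 14), (4, 10,
      13), (4, 13, 14), (5, 7, 12), (5, 7, 16), (5, 14, 15), (5, 15, 16), (6, 9, 17), (6, 10, 17),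
      (7, 12, 17), (7, 16, 17)]
    fin := [0, 0, 0, 0, 0, 5, 0, 7, 0, 9, 0, 11, 5, 13, 5, 15, 16, 7]
    chd := [(0, 9), (5, 16)]
    steps := [(0, 1), (0, 2), (0, 3), (0, 4), (0, 6), (0, 8), (0, 10), (5, 14), (5, 12), (7, 17)] }
  rep := [0, 5, 9, 16, 7, 11, 13, 15]

noncomputable def v3378 : Cov.CovD where
  P := 3
  N := 5
  pl := [3, 5, 7, 9]
  lev := [⟨[], [], [], [], []⟩,
    ⟨[], [(0, 0), (0, 2)], [(0, 0), (0, 2)], [], [(0, 0, [2]), (1, 2, [0]), (2, 0, [2])]⟩,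
    ⟨[(0, 1)], [(1, 0), (1, 2)], [(0, 2)], [5], [(0, 0, [2]), (1, 2, [0])]⟩,
    ⟨[(0, 1), (1, 2)], [(0, 0), (0, 1), (1, 0), (1, 1), (1, 2), (2, 0)], [(0, 1)], [], [(0,
      0, [2]), (4, 1, [3])]⟩,
    ⟨[(0, 1), (0, 3), (1, 2), (1, 3)], [(0, 0), (0, 1), (1, 0), (1, 1), (1, 2)], [(0, 1)],
      [6], [(2, 0, [2]), (6, 1, [3])]⟩,
    ⟨[(0, 1), (0, 3), (0, 4), (1, 3), (1, 4), (3, 4)], [(0, 1), (0, 3), (3, 0), (3, 1), (3,
      3), (4, 0), (4, 1), (4, 3)], [(1, 1), (1, 3)], [7], [(4, 1, [3]), (6, 1, [3]), (8, 3,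
      [1])]⟩,
    ⟨[(0, 1), (1, 2), (1, 3), (1, 4)], [(1, 0), (1, 2), (2, 2), (4, 0)], [(0, 2)], [4],
      [(1, 2, [0]), (2, 0, [2])]⟩,
    ⟨[(0, 5), (3, 5), (4, 5)], [(3, 1), (5, 1), (5, 3)], [(1, 3)], [4], [(4, 1, [3]), (8,
      3, [1])]⟩]
  Ta := [((0, 3), 0, 5), ((0, 4), 0, 1), ((2, 5), 0, 6), ((2, 9), 0, 4), ((4, 0), 1, 0), ((4, 9),
    1, 4), ((6, 5), 1, 6), ((6, 7), 1, 7)]
  Tb := [((0, 3, 4), 0, 5, 1), ((1, 3, 9), 2, 5, 4), ((2, 5, 9), 0, 6, 4), ((3, 0, 1), 5, 0, 2),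
    ((4, 0, 9), 1, 0, 4), ((5, 2, 6), 6, 0, 1), ((6, 5, 7), 1, 6, 7), ((7, 6, 8), 7, 1, 3),
    ((8, 7, 9), 3, 7, 4), ((9, 1, 2), 4, 2, 0), ((9, 1, 4), 4, 2, 1), ((9, 1, 8), 4, 2, 3),
    ((9, 2, 4), 4, 0, 1), ((9, 2, 8), 4, 0, 3), ((9, 4, 8), 4, 1, 3)]
  Tc := []
  Td := [((0, 2), (0, 3), 5), ((0, 2), (0, 4), 1), ((0, 2), (2, 5), 6), ((0, 2), (2, 9), 4), ((1,
    3), (4, 0), 0), ((1, 3), (4, 9), 4), ((1, 3), (6, 5), 6), ((1, 3), (6, 7), 7), ((2, 0),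
    (1, 3), 5), ((2, 0), (1, 9), 4), ((3, 1), (8, 7), 7), ((3, 1), (8, 9), 4)]
  G := [[0, 0x4a5e1ac426a14e161c66e12e1e1ac4a544a5e1ca6cc1216888c1,
    0x11a12811c128a485c94cc1194c4185c81cc2a, 0xd11152841428c4d18249142d11192cc8c,
    0x424188211124d111924a8d191c24d1428a8d], [0, 0, 0x1211212232cd4121224512183281d682,
    0x11128891115494cc568411111182c23ccd448a, 0x1113232c541111213222cd4a211848a2], [0, 0,
    0x1161248d6116924a849641885a94ac11c46, 0x94c4281485c95c92418c,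
    0x85ac1a9241842429842c185], [0, 0, 0x121121c3222c1912182232c1912148e42,
    0x24645485c98c4a134ca2c5281c28885488e1c1, 0xa232562a29c41232446288c129]]

noncomputable def n3378 : Ent := ⟨e3378, noF, [], [], []⟩

def c3378 : PLift (Cov.check n3378.C.D v3378 = true) := ⟨by decide +kernel⟩

def b3378 : PLift (entF (fidx ts) 400 3378 n3378 = true) := ⟨by decide +kernel⟩

theorem g3378 : GoodF (fidx ts) 400 3378 := GoodF.ofV v3378 n3378 c3378.down b3378.down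

/-- 48456844:2565 -/
noncomputable def e3379 : SCfg where
  D := {
    a := 8
    L := 11
    kp := 8
    inn := [(0, 1), (0, 3), (0, 4), (0, 5), (1, 0), (1, 2), (1, 3), (1, 4), (1, 6), (2, 1), (3, 0), (3,
      1), (3, 5), (4, 0), (4, 1), (4, 5), (5, 0), (5, 3), (5, 4), (5, 7), (6, 1), (7, 5)]
    mix := [(1, 0), (1, 1), (1, 2), (2, 0), (2, 1), (2, 3), (3, 0), (3, 4), (4, 2), (4, 5), (4, 6), (5,
      4), (5, 6), (5, 7), (5, 8), (6, 1), (6, 2), (6, 9), (7, 4), (7, 8), (7, 10)]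
    cl := [0, 2, 0, 6, 1, 7, 1, 4, 3, 8, 5]
    chq := [(0, 2), (2, 0), (4, 5), (5, 4)]
    rng := [(0, 3), (0, 4), (1, 3), (1, 9), (2, 5), (2, 9), (3, 0), (3, 1), (4, 0), (4, 10), (5, 2),
      (5, 6), (6, 5), (6, 7), (7, 6), (7, 8), (8, 7), (8, 10), (9, 1), (9, 2), (10, 4), (10, 8)]
    lev := [] }
  links := [[1, 4, 5, 3], [4, 0, 3, 8, 2, 9, 6, 10], [9, 1, 8, 11], [8, 1, 0, 5, 12], [5, 0, 1, 10, 13,
    14], [12, 3, 0, 4, 14, 15, 16, 7], [10, 1, 9, 17], [12, 5, 16, 18]]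
  P := {
    a := 8
    N := 19
    nb := [58, 1885, 2818, 4387, 25635, 118937, 132610, 331808, 6158, 133190, 139346, 772, 262568,
      17424, 41008, 81952, 295072, 1600, 69760]
    tri := [(0, 1, 3), (0, 1, 4), (0, 3, 5), (0, 4, 5), (1, 2, 8), (1, 2, 9), (1, 3, 8), (1, 4, 10),
      (1, 6, 9), (1, 6, 10), (2, 8, 11), (2, 9, 11), (3, 5, 12), (3, 8, 12), (4, 5, 14), (4, 10,
      13), (4, 13, 14), (5, 7, 12), (5, 7, 16), (5, 14, 15), (5, 15, 16), (6, 9, 17), (6, 10, 17),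
      (7, 12, 18), (7, 16, 18)]
    fin := [0, 1, 1, 0, 0, 5, 1, 5, 1, 9, 1, 11, 0, 13, 0, 5, 16, 17, 18]
    chd := [(1, 9), (5, 18)]
    steps := [(0, 3), (0, 4), (0, 14), (0, 12), (1, 2), (1, 6), (1, 8), (1, 10), (5, 7), (5, 15)] }
  rep := [1, 0, 9, 16, 5, 18, 11, 13, 17]

noncomputable def v3379 : Cov.CovD where
  P := 3
  N := 6
  pl := [3, 5, 8, 9]
  lev := [⟨[], [], [], [], []⟩,
    ⟨[], [(0, 0), (0, 2)], [(0, 0), (0, 2)], [], [(0, 0, [2]), (1, 2, [0]), (2, 0, [2])]⟩,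
    ⟨[(0, 1)], [(1, 0), (1, 2)], [(0, 2)], [6], [(0, 0, [2]), (1, 2, [0])]⟩,
    ⟨[(0, 1), (1, 2)], [(0, 0), (0, 1), (1, 0), (1, 1), (1, 2), (2, 0)], [(0, 1)], [], [(0,
      0, [2]), (4, 1, [])]⟩,
    ⟨[(0, 1), (0, 3), (1, 2), (1, 3)], [(0, 0), (0, 1), (1, 0), (1, 1), (1, 2)], [(0, 1)],
      [7], [(2, 0, [2]), (6, 1, [])]⟩,
    ⟨[(0, 1), (0, 3), (0, 4), (1, 3), (1, 4), (3, 4)], [(0, 1), (0, 4), (3, 0), (3, 1), (3,
      4), (4, 0), (4, 1), (4, 4)], [(1, 1), (1, 4)], [3], [(4, 1, []), (6, 1, []), (7, 4,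
      [5])]⟩,
    ⟨[(0, 1), (1, 2), (1, 3), (1, 4)], [(1, 0), (1, 2), (2, 2), (4, 0)], [(0, 2)], [8],
      [(1, 2, [0]), (2, 0, [2])]⟩,
    ⟨[(0, 5), (3, 5), (4, 5)], [(3, 1), (5, 1), (5, 4), (5, 5)], [(1, 5)], [3], [(4, 1,
      []), (10, 5, [4])]⟩]
  Ta := [((0, 3), 0, 6), ((0, 4), 0, 1), ((2, 5), 0, 7), ((2, 9), 0, 8), ((4, 0), 1, 0), ((4,
    10), 1, 5), ((6, 5), 1, 7), ((6, 7), 1, 4)]
  Tb := [((0, 3, 4), 0, 6, 1), ((1, 3, 9), 2, 6, 8), ((2, 5, 9), 0, 7, 8), ((3, 0, 1), 6, 0, 2),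
    ((4, 0, 10), 1, 0, 5), ((5, 2, 6), 7, 0, 1), ((6, 5, 7), 1, 7, 4), ((7, 6, 8), 4, 1, 3),
    ((8, 7, 10), 3, 4, 5), ((9, 1, 2), 8, 2, 0), ((10, 4, 8), 5, 1, 3)]
  Tc := []
  Td := [((0, 2), (0, 3), 6), ((0, 2), (0, 4), 1), ((0, 2), (2, 5), 7), ((0, 2), (2, 9), 8), ((2,
    0), (1, 3), 6), ((2, 0), (1, 9), 8), ((4, 5), (7, 6), 1), ((4, 5), (7, 8), 3), ((5, 4),
    (10, 4), 1), ((5, 4), (10, 8), 3)]
  G := [[0, 0x61a1c1e261a1c1e46a1c1661c1a61a1ce2c81, 0x996ccc5255a82c55699cccad28a41,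
    0x5191c1d2445191c1d288c1, 0x5191c1d24914251c192ca81], [0, 0,
    0x66c126a1c8236ca3cc1122c122c162ca9ccd8c62,
    0x91442211211c9145191cc6ca161561219c3188c51882cc1,
    0xa115222c54a11a1133a92acd4aa113828c948a2], [0, 0, 0x99ccc65255a82c556996cccd28a41,
    0x99cccc5281455c824189, 0x92c25255a98c8d2c181], [0, 0,
    0x22a186a89426a168aaac58a26c122c134a9ccd8462, 0x34462c26c9c99c4461a826c5855c88a1c1,
    0x39a4481232acca526ac2a9c25a88c12c]]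

noncomputable def n3379 : Ent := ⟨e3379, noF, [], [], [(11, 18, [30043303427623734937691929578474300150491519007939870628445900451934834689, 0]), (17, 18, [30043303427623734937691929578474300150491519007939870628445900451934838785, 0])]⟩

def c3379 : PLift (Cov.check n3379.C.D v3379 = true) := ⟨by decide +kernel⟩

def b3379 : PLift (entF (fidx ts) 400 3379 n3379 = true) := ⟨by decide +kernel⟩

theorem g3379 : GoodF (fidx ts) 400 3379 := GoodF.ofV v3379 n3379 c3379.down b3379.down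

/-- 48464468:2580/1 -/
noncomputable def e3380 : SCfg where
  D := {
    a := 8
    L := 10
    kp := 7
    inn := [(0, 1), (0, 3), (1, 0), (1, 2), (1, 3), (1, 5), (1, 7), (2, 1), (2, 7), (3, 0), (3, 1), (3,
      4), (3, 6), (3, 7), (4, 3), (4, 6), (5, 1), (6, 3), (6, 4), (6, 7), (7, 1), (7, 2), (7, 3),
      (7, 6)]
    mix := [(0, 0), (0, 1), (1, 0), (1, 2), (1, 3), (2, 2), (2, 4), (3, 1), (4, 1), (4, 5), (5, 2), (5,
      3), (5, 5), (6, 5), (6, 6), (6, 7), (7, 4), (7, 7), (7, 8), (7, 9)]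
    cl := [0, 1, 0, 2, 3, 4, 5, 3, 6, 7]
    chq := [(1, 3), (1, 5), (3, 1), (5, 1)]
    rng := [(0, 1), (0, 3), (1, 0), (1, 5), (2, 4), (2, 5), (3, 0), (3, 5), (4, 2), (4, 9), (5, 1), (5,
      2), (5, 3), (5, 6), (6, 5), (6, 7), (7, 6), (7, 8), (8, 7), (8, 9), (9, 4), (9, 8)]
    lev := [] }
  links := [[1, 8, 9, 3], [8, 0, 3, 7, 2, 10, 5, 11], [10, 1, 7, 12], [7, 1, 0, 9, 4, 6], [6, 3, 9, 13],
    [11, 1, 10, 13], [7, 3, 4, 13, 14, 15], [12, 2, 1, 3, 6, 15, 16, 17]]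
  P := {
    a := 8
    N := 18
    nb := [778, 3501, 5250, 723, 8776, 11266, 57496, 233550, 2563, 8473, 12326, 8482, 132228, 20080,
      41024, 82112, 163968, 69760]
    tri := [(0, 1, 3), (0, 1, 8), (0, 3, 9), (0, 8, 9), (1, 2, 7), (1, 2, 10), (1, 3, 7), (1, 5, 10),
      (1, 5, 11), (1, 8, 11), (2, 7, 12), (2, 10, 12), (3, 4, 6), (3, 4, 9), (3, 6, 7), (4, 6,
      13), (4, 9, 13), (5, 10, 13), (5, 11, 13), (6, 7, 15), (6, 13, 14), (6, 14, 15), (7, 12,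
      17), (7, 15, 16), (7, 16, 17)]
    fin := [0, 0, 0, 0, 4, 0, 4, 7, 0, 4, 0, 11, 7, 13, 14, 7, 16, 17]
    chd := [(4, 7), (4, 14)]
    steps := [(0, 1), (0, 2), (0, 3), (0, 5), (0, 8), (0, 10), (4, 6), (4, 9), (7, 15), (7, 12)] }
  rep := [0, 4, 11, 7, 13, 14, 16, 17]

noncomputable def v3380 : Cov.CovD where
  P := 3
  N := 5
  pl := [3, 5, 8, 9]
  lev := [⟨[], [], [(0, 1)], [], [(0, 0, []), (1, 1, [3, 5])]⟩,
    ⟨[], [(0, 0), (0, 1)], [(0, 0)], [2], [(0, 0, []), (2, 0, [])]⟩,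
    ⟨[(0, 1)], [(1, 0), (1, 3)], [(0, 3)], [], [(2, 0, []), (4, 3, [1])]⟩,
    ⟨[(0, 1), (1, 2)], [(0, 0), (0, 1), (1, 0), (1, 1)], [], [], [(1, 1, [3, 5])]⟩,
    ⟨[(0, 3), (1, 3)], [(0, 1), (3, 1)], [], [4], [(1, 1, [3, 5])]⟩,
    ⟨[(0, 1), (1, 2), (1, 3)], [(1, 0), (2, 0)], [], [2, 4], [(2, 0, [])]⟩,
    ⟨[(0, 3), (1, 3), (3, 4)], [(3, 1), (3, 3), (3, 5), (4, 1), (4, 3), (4, 5)], [(3, 5)],
      [4], [(6, 5, [1]), (7, 3, [1])]⟩,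
    ⟨[(0, 1), (0, 3), (1, 2), (1, 3), (1, 5), (1, 6), (2, 3), (2, 6), (3, 4), (3, 6), (4,
      6)], [(1, 0), (1, 3), (2, 0), (2, 3), (3, 1), (3, 3), (6, 3), (6, 5)], [(3, 3)], [6,
      7], [(4, 3, [1]), (7, 3, [1])]⟩]
  Ta := [((0, 1), 0, 1), ((0, 3), 0, 2), ((2, 4), 0, 3), ((2, 5), 0, 4), ((4, 2), 3, 0), ((4, 9),
    3, 7), ((7, 6), 3, 5), ((7, 8), 3, 6)]
  Tb := [((0, 1, 3), 0, 1, 2), ((1, 0, 5), 1, 0, 4), ((2, 4, 5), 0, 3, 4), ((3, 0, 5), 2, 0, 4),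
    ((4, 2, 9), 3, 0, 7), ((5, 1, 2), 4, 1, 0), ((5, 1, 3), 4, 1, 2), ((5, 1, 6), 4, 1, 5),
    ((5, 2, 3), 4, 0, 2), ((5, 2, 6), 4, 0, 5), ((5, 3, 6), 4, 2, 5), ((6, 5, 7), 5, 4, 3),
    ((7, 6, 8), 3, 5, 6), ((8, 7, 9), 6, 3, 7), ((9, 4, 8), 7, 3, 6)]
  Tc := [(1, 3, 5)]
  Td := [((1, 3), (1, 0), 0), ((1, 3), (1, 5), 4), ((1, 5), (1, 0), 0), ((1, 5), (1, 5), 4), ((3,
    1), (4, 2), 0), ((3, 1), (4, 9), 7), ((3, 1), (7, 6), 5), ((3, 1), (7, 8), 6), ((5, 1),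
    (6, 5), 4), ((5, 1), (6, 7), 3)]
  G := [[0, 0x3112711411664b18b11c28c8, 0x11838123a948a4c2e15248, 0x92311224e115284,
    0x118112b19a4115268c2a111a4], [0, 0xb11b11a418411c6484,
    0xb1438923a95458244269528822a111c4, 0xa2111523118a48, 0x2211843951d236935884c8116a4], [0,
    0, 0, 0x6244142281822d2f8924244d16c8, 0xf4882291e8841c21232256252183889c285], [0, 0, 0,
    0x25644282b452385c22244a281c8c1, 0x223222254433dff8d2294488588814aa8]]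

noncomputable def n3380 : Ent := ⟨e3380, noF, [], [], []⟩

def c3380 : PLift (Cov.check n3380.C.D v3380 = true) := ⟨by decide +kernel⟩

def b3380 : PLift (entF (fidx ts) 400 3380 n3380 = true) := ⟨by decide +kernel⟩

theorem g3380 : GoodF (fidx ts) 400 3380 := GoodF.ofV v3380 n3380 c3380.down b3380.down

/-- 48464468:2580/2 -/
noncomputable def e3381 : SCfg where
  D := {
    a := 8
    L := 10
    kp := 7
    inn := [(0, 1), (0, 3), (1, 0), (1, 2), (1, 3), (1, 5), (1, 7), (2, 1), (2, 7), (3, 0), (3, 1), (3,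
      4), (3, 6), (3, 7), (4, 3), (4, 6), (5, 1), (6, 3), (6, 4), (6, 7), (7, 1), (7, 2), (7, 3),
      (7, 6)]
    mix := [(0, 0), (0, 1), (1, 0), (1, 2), (1, 3), (2, 2), (2, 4), (3, 1), (4, 1), (4, 5), (5, 2), (5,
      3), (5, 6), (6, 5), (6, 6), (6, 7), (7, 4), (7, 7), (7, 8), (7, 9)]
    cl := [0, 1, 0, 2, 3, 5, 4, 3, 6, 7]
    chq := [(1, 3), (1, 4), (3, 1), (4, 1)]
    rng := [(0, 1), (0, 3), (1, 0), (1, 5), (2, 4), (2, 6), (3, 0), (3, 6), (4, 2), (4, 9), (5, 1), (5,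
      6), (6, 2), (6, 3), (6, 5), (6, 7), (7, 6), (7, 8), (8, 7), (8, 9), (9, 4), (9, 8)]
    lev := [] }
  links := [[1, 8, 9, 3], [8, 0, 3, 7, 2, 10, 5, 11], [10, 1, 7, 12], [7, 1, 0, 9, 4, 6], [6, 3, 9, 13],
    [11, 1, 10, 14], [7, 3, 4, 13, 14, 15], [12, 2, 1, 3, 6, 15, 16, 17]]
  P := {
    a := 8
    N := 18
    nb := [778, 3501, 5250, 723, 8776, 19458, 57496, 233550, 2563, 8473, 20518, 16674, 132228, 16976,
      44128, 82112, 163968, 69760]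
    tri := [(0, 1, 3), (0, 1, 8), (0, 3, 9), (0, 8, 9), (1, 2, 7), (1, 2, 10), (1, 3, 7), (1, 5, 10),
      (1, 5, 11), (1, 8, 11), (2, 7, 12), (2, 10, 12), (3, 4, 6), (3, 4, 9), (3, 6, 7), (4, 6,
      13), (4, 9, 13), (5, 10, 14), (5, 11, 14), (6, 7, 15), (6, 13, 14), (6, 14, 15), (7, 12,
      17), (7, 15, 16), (7, 16, 17)]
    fin := [0, 0, 0, 0, 4, 0, 4, 7, 0, 4, 0, 11, 7, 13, 14, 7, 16, 17]
    chd := [(4, 7), (4, 14)]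
    steps := [(0, 1), (0, 2), (0, 3), (0, 5), (0, 8), (0, 10), (4, 6), (4, 9), (7, 15), (7, 12)] }
  rep := [0, 4, 11, 7, 14, 13, 16, 17]

noncomputable def v3381 : Cov.CovD where
  P := 3
  N := 5
  pl := [3, 5, 8, 9]
  lev := [⟨[], [], [(0, 1)], [], [(0, 0, []), (1, 1, [3, 4])]⟩,
    ⟨[], [(0, 0), (0, 1)], [(0, 0)], [2], [(0, 0, []), (2, 0, [])]⟩,
    ⟨[(0, 1)], [(1, 0), (1, 3)], [(0, 3)], [], [(2, 0, []), (4, 3, [1])]⟩,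
    ⟨[(0, 1), (1, 2)], [(0, 0), (0, 1), (1, 0), (1, 1)], [], [], [(1, 1, [3, 4])]⟩,
    ⟨[(0, 3), (1, 3)], [(0, 1), (3, 1)], [], [5], [(1, 1, [3, 4])]⟩,
    ⟨[(0, 1), (1, 2), (1, 3)], [(1, 0), (1, 4), (2, 0)], [(0, 4)], [2], [(2, 0, []), (6, 4,
      [1])]⟩,
    ⟨[(0, 3), (1, 3), (3, 4)], [(3, 1), (3, 3), (3, 4), (4, 1), (4, 3), (4, 4), (5, 4)],
      [(3, 4)], [5], [(6, 4, [1]), (7, 3, [1])]⟩,
    ⟨[(0, 1), (0, 3), (1, 2), (1, 3), (1, 5), (1, 6), (2, 3), (2, 6), (3, 4), (3, 6), (4,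
      6)], [(1, 0), (1, 3), (2, 0), (2, 3), (3, 1), (3, 3), (6, 3), (6, 4)], [(3, 3)], [6,
      7], [(4, 3, [1]), (7, 3, [1])]⟩]
  Ta := [((0, 1), 0, 1), ((0, 3), 0, 2), ((2, 4), 0, 3), ((2, 6), 0, 4), ((4, 2), 3, 0), ((4, 9),
    3, 7), ((7, 6), 3, 4), ((7, 8), 3, 6)]
  Tb := [((0, 1, 3), 0, 1, 2), ((1, 0, 5), 1, 0, 5), ((2, 4, 6), 0, 3, 4), ((3, 0, 6), 2, 0, 4),
    ((4, 2, 9), 3, 0, 7), ((5, 1, 6), 5, 1, 4), ((6, 2, 3), 4, 0, 2), ((6, 2, 5), 4, 0, 5),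
    ((6, 2, 7), 4, 0, 3), ((6, 3, 5), 4, 2, 5), ((6, 3, 7), 4, 2, 3), ((6, 5, 7), 4, 5, 3),
    ((7, 6, 8), 3, 4, 6), ((8, 7, 9), 6, 3, 7), ((9, 4, 8), 7, 3, 6)]
  Tc := [(1, 3, 4)]
  Td := [((1, 3), (1, 0), 0), ((1, 3), (1, 5), 5), ((1, 4), (1, 0), 0), ((1, 4), (1, 5), 5), ((3,
    1), (4, 2), 0), ((3, 1), (4, 9), 7), ((3, 1), (7, 6), 4), ((3, 1), (7, 8), 6), ((4, 1),
    (6, 2), 0), ((4, 1), (6, 3), 2), ((4, 1), (6, 5), 5), ((4, 1), (6, 7), 3)]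
  G := [[0, 0xf11d11c271871168a48, 0x1124929268129c6226125246889384,
    0x6111993192192416842ccd284, 0x11182e512d2b1c5284], [0, 0x611f11911e2848,
    0x62241122d2fd1a9221e34d48a8, 0x3114f21c11c9848, 0x2b92826619631c5484], [0, 0, 0,
    0x324442284442cf3c74ac2c94e92848881c2c1, 0xf428128a832845632342578daf21c685], [0, 0, 0,
    0x31441457448521188b834b438c5342b884a82c91ac8, 0x271725632538a2a8329c451688888844ca1]]

noncomputable def n3381 : Ent := ⟨e3381, noF, [], [], []⟩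

def c3381 : PLift (Cov.check n3381.C.D v3381 = true) := ⟨by decide +kernel⟩

def b3381 : PLift (entF (fidx ts) 400 3381 n3381 = true) := ⟨by decide +kernel⟩

theorem g3381 : GoodF (fidx ts) 400 3381 := GoodF.ofV v3381 n3381 c3381.down b3381.down

/-- 48464468:2580 -/
noncomputable def e3382 : SCfg where
  D := {
    a := 8
    L := 11
    kp := 8
    inn := [(0, 1), (0, 3), (1, 0), (1, 2), (1, 3), (1, 5), (1, 7), (2, 1), (2, 7), (3, 0), (3, 1), (3,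
      4), (3, 6), (3, 7), (4, 3), (4, 6), (5, 1), (6, 3), (6, 4), (6, 7), (7, 1), (7, 2), (7, 3),
      (7, 6)]
    mix := [(0, 0), (0, 1), (1, 0), (1, 2), (1, 3), (2, 2), (2, 4), (3, 1), (4, 1), (4, 5), (5, 2), (5,
      3), (5, 6), (6, 5), (6, 7), (6, 8), (7, 4), (7, 8), (7, 9), (7, 10)]
    cl := [0, 1, 0, 2, 3, 4, 6, 5, 3, 7, 8]
    chq := [(1, 3), (1, 5), (3, 1), (5, 1)]
    rng := [(0, 1), (0, 3), (1, 0), (1, 5), (2, 4), (2, 6), (3, 0), (3, 6), (4, 2), (4, 10), (5, 1),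
      (5, 7), (6, 2), (6, 3), (7, 5), (7, 8), (8, 7), (8, 9), (9, 8), (9, 10), (10, 4), (10, 9)]
    lev := [] }
  links := [[1, 8, 9, 3], [8, 0, 3, 7, 2, 10, 5, 11], [10, 1, 7, 12], [7, 1, 0, 9, 4, 6], [6, 3, 9, 13],
    [11, 1, 10, 14], [7, 3, 4, 13, 15, 16], [12, 2, 1, 3, 6, 16, 17, 18]]
  P := {
    a := 8
    N := 19
    nb := [778, 3501, 5250, 723, 8776, 19458, 106648, 462926, 2563, 8473, 20518, 16674, 263300, 33360,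
      3104, 73792, 164032, 327808, 135296]
    tri := [(0, 1, 3), (0, 1, 8), (0, 3, 9), (0, 8, 9), (1, 2, 7), (1, 2, 10), (1, 3, 7), (1, 5, 10),
      (1, 5, 11), (1, 8, 11), (2, 7, 12), (2, 10, 12), (3, 4, 6), (3, 4, 9), (3, 6, 7), (4, 6,
      13), (4, 9, 13), (5, 10, 14), (5, 11, 14), (6, 7, 16), (6, 13, 15), (6, 15, 16), (7, 12,
      18), (7, 16, 17), (7, 17, 18)]
    fin := [0, 0, 0, 0, 4, 0, 4, 7, 0, 4, 0, 11, 7, 13, 14, 15, 7, 17, 18]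
    chd := [(4, 7), (4, 15)]
    steps := [(0, 1), (0, 2), (0, 3), (0, 5), (0, 8), (0, 10), (4, 6), (4, 9), (7, 16), (7, 12)] }
  rep := [0, 4, 11, 7, 13, 15, 14, 17, 18]

noncomputable def v3382 : Cov.CovD where
  P := 3
  N := 6
  pl := [3, 5, 6, 9, 10]
  lev := [⟨[], [], [(0, 1)], [], [(0, 0, []), (1, 1, [3, 5])]⟩,
    ⟨[], [(0, 0), (0, 1)], [(0, 0)], [2], [(0, 0, []), (2, 0, [])]⟩,
    ⟨[(0, 1)], [(1, 0), (1, 3)], [(0, 3)], [], [(2, 0, []), (4, 3, [1])]⟩,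
    ⟨[(0, 1), (1, 2)], [(0, 0), (0, 1), (1, 0), (1, 1)], [], [], [(1, 1, [3, 5])]⟩,
    ⟨[(0, 3), (1, 3)], [(0, 1), (3, 1)], [], [4], [(1, 1, [3, 5])]⟩,
    ⟨[(0, 1), (1, 2), (1, 3)], [(1, 0), (2, 0)], [], [2, 6], [(2, 0, [])]⟩,
    ⟨[(0, 3), (1, 3), (3, 4)], [(3, 1), (3, 3), (3, 5), (4, 1), (4, 3), (4, 5)], [(3, 5)],
      [4], [(7, 5, [1]), (8, 3, [1])]⟩,
    ⟨[(0, 1), (0, 3), (1, 2), (1, 3), (1, 5), (1, 6), (2, 3), (2, 6), (3, 4), (3, 6), (4,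
      6)], [(1, 0), (1, 3), (2, 0), (2, 3), (3, 1), (3, 3), (6, 3), (6, 5)], [(3, 3)], [7,
      8], [(4, 3, [1]), (8, 3, [1])]⟩]
  Ta := [((0, 1), 0, 1), ((0, 3), 0, 2), ((2, 4), 0, 3), ((2, 6), 0, 6), ((4, 2), 3, 0), ((4,
    10), 3, 8), ((8, 7), 3, 5), ((8, 9), 3, 7)]
  Tb := [((0, 1, 3), 0, 1, 2), ((1, 0, 5), 1, 0, 4), ((2, 4, 6), 0, 3, 6), ((3, 0, 6), 2, 0, 6),
    ((4, 2, 10), 3, 0, 8), ((5, 1, 7), 4, 1, 5), ((6, 2, 3), 6, 0, 2), ((7, 5, 8), 5, 4, 3),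
    ((8, 7, 9), 3, 5, 7), ((9, 8, 10), 7, 3, 8), ((10, 4, 9), 8, 3, 7)]
  Tc := [(1, 3, 5)]
  Td := [((1, 3), (1, 0), 0), ((1, 3), (1, 5), 4), ((1, 5), (1, 0), 0), ((1, 5), (1, 5), 4), ((3,
    1), (4, 2), 0), ((3, 1), (4, 10), 8), ((3, 1), (8, 7), 5), ((3, 1), (8, 9), 7), ((5, 1),
    (7, 5), 4), ((5, 1), (7, 8), 3)]
  G := [[0, 0x2117116511862d11d11628c8, 0x923923a1145bc6a34a1844ae42c8d58a6422291348,
    0x252711bc6138168a1d9248, 0xb52717d2b122c1d12821118a4], [0, 0xf11f11c2484,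
    0x11133b632345333e37668542ceb8c3c4c684c8cae911a8, 0x2b3b112a19435e714c61516881112c4,
    0x37a132671c144851d21c131188194ca8], [0, 0, 0,
    0x2144319b3c2892c9646a46c74a34ac66c4dd29a38a968582c4,
    0x74664a24a4a9128df3238229a652b3daad4282388a38c488814aa5], [0, 0, 0,
    0x884412411486433febc623327cc24d57444c81691389a385b88492cc,
    0x1111a8276b3beba723f27ac54486446a11938af88a41ca4]]

noncomputable def n3382 : Ent := ⟨e3382, noF, [], [], [(13, 14, [31810581956886796354777272293785310057557672019661700884176840250667253761, 0]), (15, 14, [31810581956886796354777272293785310057557672019661700884176840250667257857, 0])]⟩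

def c3382 : PLift (Cov.check n3382.C.D v3382 = true) := ⟨by decide +kernel⟩

def b3382 : PLift (entF (fidx ts) 400 3382 n3382 = true) := ⟨by decide +kernel⟩

theorem g3382 : GoodF (fidx ts) 400 3382 := GoodF.ofV v3382 n3382 c3382.down b3382.down

/-- 46864484:2586/2 -/
noncomputable def e3383 : SCfg where
  D := {
    a := 8
    L := 9
    kp := 6
    inn := [(0, 1), (0, 2), (0, 3), (0, 6), (1, 0), (1, 3), (1, 6), (2, 0), (2, 3), (2, 4), (2, 5), (2,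
      6), (3, 0), (3, 1), (3, 2), (4, 2), (4, 6), (5, 2), (6, 0), (6, 1), (6, 2), (6, 4), (6, 7),
      (7, 6)]
    mix := [(1, 0), (1, 1), (1, 2), (2, 3), (2, 4), (2, 5), (3, 0), (3, 5), (3, 6), (4, 3), (4, 7), (5,
      1), (5, 3), (5, 4), (6, 2), (6, 7), (6, 8), (7, 6), (7, 7), (7, 8)]
    cl := [3, 2, 0, 1, 4, 1, 5, 0, 6]
    chq := [(0, 3), (1, 3), (3, 0), (3, 1)]
    rng := [(0, 1), (0, 6), (1, 0), (1, 2), (1, 3), (1, 4), (2, 1), (2, 8), (3, 1), (3, 7), (4, 1), (4,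
      5), (5, 4), (5, 6), (6, 0), (6, 5), (6, 7), (6, 8), (7, 3), (7, 6), (8, 2), (8, 6)]
    lev := [] }
  links := [[1, 6, 2, 3], [6, 0, 3, 8, 9, 10], [3, 0, 6, 4, 11, 5, 12, 13], [8, 1, 0, 2, 13, 14], [11, 2,
    6, 15], [12, 2, 11, 9], [15, 4, 2, 0, 1, 10, 16, 7], [15, 6, 16, 14]]
  P := {
    a := 8
    N := 17
    nb := [78, 1865, 14457, 24839, 34884, 6660, 99479, 114752, 16906, 7458, 66114, 33332, 8740, 20492,
      106888, 18640, 17600]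
    tri := [(0, 1, 3), (0, 1, 6), (0, 2, 3), (0, 2, 6), (1, 3, 8), (1, 6, 10), (1, 8, 9), (1, 9, 10),
      (2, 3, 13), (2, 4, 6), (2, 4, 11), (2, 5, 11), (2, 5, 12), (2, 12, 13), (3, 8, 14), (3, 13,
      14), (4, 6, 15), (4, 11, 15), (5, 9, 11), (5, 9, 12), (6, 7, 15), (6, 7, 16), (6, 10, 16),
      (7, 14, 15), (7, 14, 16)]
    fin := [0, 0, 2, 0, 4, 5, 4, 4, 0, 5, 4, 2, 12, 2, 14, 4, 16]
    chd := [(0, 2), (0, 4)]
    steps := [(0, 1), (0, 3), (0, 8), (2, 11), (2, 13), (4, 6), (4, 7), (4, 10), (4, 15), (5, 9)] }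
  rep := [4, 2, 5, 0, 12, 14, 16]

noncomputable def v3383 : Cov.CovD where
  P := 3
  N := 4
  pl := [1, 4, 6, 8]
  lev := [⟨[], [], [], [], []⟩,
    ⟨[], [(0, 0), (0, 3)], [(0, 3)], [2], [(0, 3, [0, 1]), (2, 0, [3])]⟩,
    ⟨[(0, 1)], [(0, 1)], [(1, 1)], [4], [(3, 1, [3]), (5, 1, [3])]⟩,
    ⟨[(0, 1), (0, 2), (1, 2)], [(0, 1), (0, 3), (1, 0), (1, 1), (1, 3), (2, 1), (2, 3)],
      [(1, 3)], [5], [(0, 3, [0, 1]), (5, 1, [3])]⟩,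
    ⟨[(0, 2), (2, 3)], [(2, 0), (2, 1)], [(0, 1)], [], [(3, 1, [3]), (7, 0, [3])]⟩,
    ⟨[(0, 2), (2, 3), (2, 4)], [(2, 1), (4, 1)], [], [2, 4], [(3, 1, [3])]⟩,
    ⟨[(0, 1), (0, 2), (0, 3), (0, 4), (1, 2), (1, 3), (1, 4), (2, 3), (2, 4), (2, 5)], [(0,
      0), (1, 0), (1, 3), (2, 0), (2, 1), (4, 0), (4, 1)], [(0, 0)], [6], [(2, 0, [3]), (7,
      0, [3])]⟩,
    ⟨[(0, 6), (1, 6), (2, 6), (4, 6)], [(4, 0), (6, 0)], [], [5, 6], [(7, 0, [3])]⟩]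
  Ta := [((2, 1), 0, 2), ((2, 8), 0, 6), ((3, 1), 1, 2), ((3, 7), 1, 0), ((5, 4), 1, 4), ((5, 6),
    1, 5), ((7, 3), 0, 1), ((7, 6), 0, 5)]
  Tb := [((0, 1, 6), 3, 2, 5), ((1, 0, 2), 2, 3, 0), ((1, 0, 3), 2, 3, 1), ((1, 0, 4), 2, 3, 4),
    ((1, 2, 3), 2, 0, 1), ((1, 2, 4), 2, 0, 4), ((1, 3, 4), 2, 1, 4), ((2, 1, 8), 0, 2, 6),
    ((3, 1, 7), 1, 2, 0), ((4, 1, 5), 4, 2, 1), ((5, 4, 6), 1, 4, 5), ((6, 0, 5), 5, 3, 1),
    ((6, 0, 7), 5, 3, 0), ((6, 0, 8), 5, 3, 6), ((6, 5, 7), 5, 1, 0), ((6, 5, 8), 5, 1, 6),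
    ((6, 7, 8), 5, 0, 6), ((7, 3, 6), 0, 1, 5), ((8, 2, 6), 6, 0, 5)]
  Tc := [(3, 0, 1)]
  Td := [((0, 3), (2, 1), 2), ((0, 3), (2, 8), 6), ((0, 3), (7, 3), 1), ((0, 3), (7, 6), 5), ((1,
    3), (3, 1), 2), ((1, 3), (3, 7), 0), ((1, 3), (5, 4), 4), ((1, 3), (5, 6), 5), ((3, 0),
    (0, 1), 2), ((3, 0), (0, 6), 5), ((3, 1), (0, 1), 2), ((3, 1), (0, 6), 5)]
  G := [[0, 0, 0x21c21cc81124, 0x14422892126182931a44112a1429c4, 0x241181c1421168418831684182b],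
    [0, 0, 0x21c11ca41128, 0, 0x943892135a28124281d24], [0,
    0x88664c81222482496284188424e84a1a8841644826482688428c5e, 0,
    0x12614218422c488c2c4182592218c4284c,
    0x8428588494418452288a86886c26182532284122181c881481ac], [0, 0, 0, 0,
    0x8224424c12a862859222884161884428484a85aa4e2c68929c2d]]

noncomputable def n3383 : Ent := ⟨e3383, noF, [], [], []⟩

def c3383 : PLift (Cov.check n3383.C.D v3383 = true) := ⟨by decide +kernel⟩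

def b3383 : PLift (entF (fidx ts) 400 3383 n3383 = true) := ⟨by decide +kernel⟩

theorem g3383 : GoodF (fidx ts) 400 3383 := GoodF.ofV v3383 n3383 c3383.down b3383.down

/-- 46864484:2586/1 -/
noncomputable def e3384 : SCfg where
  D := {
    a := 8
    L := 10
    kp := 7
    inn := [(0, 1), (0, 2), (0, 3), (0, 6), (1, 0), (1, 3), (1, 6), (2, 0), (2, 3), (2, 4), (2, 5), (2,
      6), (3, 0), (3, 1), (3, 2), (4, 2), (4, 6), (5, 2), (6, 0), (6, 1), (6, 2), (6, 4), (6, 7),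
      (7, 6)]
    mix := [(1, 0), (1, 1), (1, 2), (2, 3), (2, 4), (2, 5), (3, 0), (3, 5), (3, 6), (4, 3), (4, 7), (5,
      1), (5, 3), (5, 4), (6, 2), (6, 7), (6, 8), (7, 7), (7, 8), (7, 9)]
    cl := [3, 2, 0, 1, 4, 1, 6, 0, 5, 7]
    chq := [(0, 3), (1, 3), (3, 0), (3, 1)]
    rng := [(0, 1), (0, 6), (1, 0), (1, 2), (1, 3), (1, 4), (2, 1), (2, 8), (3, 1), (3, 7), (4, 1), (4,
      5), (5, 4), (5, 6), (6, 0), (6, 5), (7, 3), (7, 9), (8, 2), (8, 9), (9, 7), (9, 8)]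
    lev := [] }
  links := [[1, 6, 2, 3], [6, 0, 3, 8, 9, 10], [3, 0, 6, 4, 11, 5, 12, 13], [8, 1, 0, 2, 13, 14], [11, 2,
    6, 15], [12, 2, 11, 9], [15, 4, 2, 0, 1, 10, 16, 7], [15, 6, 16, 17]]
  P := {
    a := 8
    N := 18
    nb := [78, 1865, 14457, 24839, 34884, 6660, 99479, 229440, 16906, 7458, 66114, 33332, 8740, 20492,
      8456, 133328, 132288, 98432]
    tri := [(0, 1, 3), (0, 1, 6), (0, 2, 3), (0, 2, 6), (1, 3, 8), (1, 6, 10), (1, 8, 9), (1, 9, 10),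
      (2, 3, 13), (2, 4, 6), (2, 4, 11), (2, 5, 11), (2, 5, 12), (2, 12, 13), (3, 8, 14), (3, 13,
      14), (4, 6, 15), (4, 11, 15), (5, 9, 11), (5, 9, 12), (6, 7, 15), (6, 7, 16), (6, 10, 16),
      (7, 15, 17), (7, 16, 17)]
    fin := [0, 0, 2, 0, 4, 5, 4, 4, 0, 5, 4, 2, 12, 2, 14, 4, 16, 17]
    chd := [(0, 2), (0, 4)]
    steps := [(0, 1), (0, 3), (0, 8), (2, 11), (2, 13), (4, 6), (4, 7), (4, 10), (4, 15), (5, 9)] }
  rep := [4, 2, 5, 0, 12, 16, 14, 17]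

noncomputable def v3384 : Cov.CovD where
  P := 3
  N := 5
  pl := [1, 4, 6, 8, 9]
  lev := [⟨[], [], [], [], []⟩,
    ⟨[], [(0, 0), (0, 3)], [(0, 3)], [2], [(0, 3, [0, 1]), (2, 0, [3])]⟩,
    ⟨[(0, 1)], [(0, 1)], [(1, 1)], [4], [(3, 1, [3]), (5, 1, [3])]⟩,
    ⟨[(0, 1), (0, 2), (1, 2)], [(0, 1), (0, 3), (1, 0), (1, 1), (1, 3), (2, 1), (2, 3)],
      [(1, 3)], [6], [(0, 3, [0, 1]), (5, 1, [3])]⟩,
    ⟨[(0, 2), (2, 3)], [(2, 0), (2, 1)], [(0, 1)], [], [(3, 1, [3]), (7, 0, [3])]⟩,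
    ⟨[(0, 2), (2, 3), (2, 4)], [(2, 1), (4, 1)], [], [2, 4], [(3, 1, [3])]⟩,
    ⟨[(0, 1), (0, 2), (0, 3), (0, 4), (1, 2), (1, 3), (1, 4), (2, 3), (2, 4), (2, 5)], [(0,
      0), (1, 0), (1, 3), (2, 0), (2, 1), (4, 0), (4, 1)], [(0, 0)], [5], [(2, 0, [3]), (7,
      0, [3])]⟩,
    ⟨[(0, 6), (1, 6), (2, 6), (4, 6)], [(4, 0), (6, 0)], [], [5, 7], [(7, 0, [3])]⟩]
  Ta := [((2, 1), 0, 2), ((2, 8), 0, 5), ((3, 1), 1, 2), ((3, 7), 1, 0), ((5, 4), 1, 4), ((5, 6),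
    1, 6), ((7, 3), 0, 1), ((7, 9), 0, 7)]
  Tb := [((0, 1, 6), 3, 2, 6), ((1, 0, 2), 2, 3, 0), ((1, 0, 3), 2, 3, 1), ((1, 0, 4), 2, 3, 4),
    ((1, 2, 3), 2, 0, 1), ((1, 2, 4), 2, 0, 4), ((1, 3, 4), 2, 1, 4), ((2, 1, 8), 0, 2, 5),
    ((3, 1, 7), 1, 2, 0), ((4, 1, 5), 4, 2, 1), ((5, 4, 6), 1, 4, 6), ((6, 0, 5), 6, 3, 1),
    ((7, 3, 9), 0, 1, 7), ((8, 2, 9), 5, 0, 7), ((9, 7, 8), 7, 0, 5)]
  Tc := [(3, 0, 1)]
  Td := [((0, 3), (2, 1), 2), ((0, 3), (2, 8), 5), ((0, 3), (7, 3), 1), ((0, 3), (7, 9), 7), ((1,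
    3), (3, 1), 2), ((1, 3), (3, 7), 0), ((1, 3), (5, 4), 4), ((1, 3), (5, 6), 6), ((3, 0),
    (0, 1), 2), ((3, 0), (0, 6), 6), ((3, 1), (0, 1), 2), ((3, 1), (0, 6), 6)]
  G := [[0, 0, 0x11611ac4116411c8c512116116c4818a, 0x1a64821a618299258c4216a1829c4,
    0xb1688d2881487835a9cdb16141bc1435a84d5218884429], [0, 0, 0x116116a811c11cc211a11ca4d128,
    0, 0x71a241b161471c14c523562453c241816485d829], [0,
    0xc464c212624814ce28418628418cc8421c8841644822e842a842ac5e, 0,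
    0x1412c81116142584e2c488c2ca6182598,
    0xc418e418c12e2841a2181ce284e2846a824c6a14a998484448c884888c884dc2d], [0, 0, 0, 0,
    0x6228846482821e4289a5c824a882242e4a2cda6c82642a82ccda1]]

noncomputable def n3384 : Ent := ⟨e3384, noF, [], [], [(17, 14, [6903326468334360900303599070699561856668565975414084080169086038011905, 0])]⟩

def c3384 : PLift (Cov.check n3384.C.D v3384 = true) := ⟨by decide +kernel⟩

def b3384 : PLift (entF (fidx ts) 400 3384 n3384 = true) := ⟨by decide +kernel⟩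

theorem g3384 : GoodF (fidx ts) 400 3384 := GoodF.ofV v3384 n3384 c3384.down b3384.down

/-- 46864484:2586/3 -/
noncomputable def e3385 : SCfg where
  D := {
    a := 8
    L := 10
    kp := 7
    inn := [(0, 1), (0, 2), (0, 3), (0, 6), (1, 0), (1, 3), (1, 6), (2, 0), (2, 3), (2, 4), (2, 5), (2,
      6), (3, 0), (3, 1), (3, 2), (4, 2), (4, 6), (5, 2), (6, 0), (6, 1), (6, 2), (6, 4), (6, 7),
      (7, 6)]
    mix := [(1, 0), (1, 1), (1, 2), (2, 3), (2, 4), (2, 5), (3, 0), (3, 5), (3, 6), (4, 3), (4, 7), (5,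
      3), (5, 4), (5, 8), (6, 2), (6, 7), (6, 9), (7, 7), (7, 8), (7, 9)]
    cl := [3, 6, 0, 1, 4, 1, 7, 0, 2, 5]
    chq := [(0, 3), (1, 3), (3, 0), (3, 1)]
    rng := [(0, 1), (0, 6), (1, 0), (1, 2), (2, 1), (2, 9), (3, 7), (3, 8), (4, 5), (4, 8), (5, 4), (5,
      6), (6, 0), (6, 5), (7, 3), (7, 8), (8, 3), (8, 4), (8, 7), (8, 9), (9, 2), (9, 8)]
    lev := [] }
  links := [[1, 6, 2, 3], [6, 0, 3, 8, 9, 10], [3, 0, 6, 4, 11, 5, 12, 13], [8, 1, 0, 2, 13, 14], [11, 2,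
    6, 15], [12, 2, 11, 16], [15, 4, 2, 0, 1, 10, 17, 7], [15, 6, 17, 16]]
  P := {
    a := 8
    N := 18
    nb := [78, 1865, 14457, 24839, 34884, 71684, 165015, 229440, 16906, 1282, 131650, 98356, 73764,
      20492, 8456, 67792, 170144, 66752]
    tri := [(0, 1, 3), (0, 1, 6), (0, 2, 3), (0, 2, 6), (1, 3, 8), (1, 6, 10), (1, 8, 9), (1, 9, 10),
      (2, 3, 13), (2, 4, 6), (2, 4, 11), (2, 5, 11), (2, 5, 12), (2, 12, 13), (3, 8, 14), (3, 13,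
      14), (4, 6, 15), (4, 11, 15), (5, 11, 16), (5, 12, 16), (6, 7, 15), (6, 7, 17), (6, 10, 17),
      (7, 15, 16), (7, 16, 17)]
    fin := [0, 0, 2, 0, 4, 5, 4, 4, 0, 9, 4, 2, 12, 2, 14, 4, 5, 17]
    chd := [(0, 2), (0, 4)]
    steps := [(0, 1), (0, 3), (0, 8), (2, 11), (2, 13), (4, 6), (4, 7), (4, 10), (4, 15), (5, 16)] }
  rep := [4, 2, 5, 0, 12, 17, 9, 14]

noncomputable def v3385 : Cov.CovD where
  P := 3
  N := 5
  pl := [1, 4, 6, 8, 9]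
  lev := [⟨[], [], [], [], []⟩,
    ⟨[], [(0, 0), (0, 3)], [(0, 3)], [6], [(0, 3, [0, 1]), (2, 0, [3])]⟩,
    ⟨[(0, 1)], [(0, 1)], [(1, 1)], [4], [(3, 1, [3]), (5, 1, [3])]⟩,
    ⟨[(0, 1), (0, 2), (1, 2)], [(0, 1), (0, 3), (1, 0), (1, 1), (1, 3), (2, 1), (2, 3)],
      [(1, 3)], [7], [(0, 3, [0, 1]), (5, 1, [3])]⟩,
    ⟨[(0, 2), (2, 3)], [(2, 0), (2, 1)], [(0, 1)], [], [(3, 1, [3]), (7, 0, [3])]⟩,
    ⟨[(0, 2), (2, 3), (2, 4)], [(2, 1), (4, 1)], [], [2, 4], [(3, 1, [3])]⟩,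
    ⟨[(0, 1), (0, 2), (0, 3), (0, 4), (1, 2), (1, 3), (1, 4), (2, 3), (2, 4), (2, 5)], [(0,
      0), (1, 0), (1, 3), (2, 0), (2, 1), (4, 0), (4, 1)], [(0, 0)], [5], [(2, 0, [3]), (7,
      0, [3])]⟩,
    ⟨[(0, 6), (1, 6), (2, 6), (4, 6)], [(4, 0), (6, 0)], [], [2, 5], [(7, 0, [3])]⟩]
  Ta := [((2, 1), 0, 6), ((2, 9), 0, 5), ((3, 7), 1, 0), ((3, 8), 1, 2), ((5, 4), 1, 4), ((5, 6),
    1, 7), ((7, 3), 0, 1), ((7, 8), 0, 2)]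
  Tb := [((0, 1, 6), 3, 6, 7), ((1, 0, 2), 6, 3, 0), ((2, 1, 9), 0, 6, 5), ((3, 7, 8), 1, 0, 2),
    ((4, 5, 8), 4, 1, 2), ((5, 4, 6), 1, 4, 7), ((6, 0, 5), 7, 3, 1), ((7, 3, 8), 0, 1, 2),
    ((8, 3, 4), 2, 1, 4), ((8, 3, 7), 2, 1, 0), ((8, 3, 9), 2, 1, 5), ((8, 4, 7), 2, 4, 0),
    ((8, 4, 9), 2, 4, 5), ((8, 7, 9), 2, 0, 5), ((9, 2, 8), 5, 0, 2)]
  Tc := [(3, 0, 1)]
  Td := [((0, 3), (2, 1), 6), ((0, 3), (2, 9), 5), ((0, 3), (7, 3), 1), ((0, 3), (7, 8), 2), ((1,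
    3), (3, 7), 0), ((1, 3), (3, 8), 2), ((1, 3), (5, 4), 4), ((1, 3), (5, 6), 7), ((3, 0),
    (0, 1), 6), ((3, 0), (0, 6), 7), ((3, 1), (0, 1), 6), ((3, 1), (0, 6), 7)]
  G := [[0, 0, 0, 0xc2812921429c2412921829c241c2815284dc21452189248d9e4,
    0x826812126182931a8882188899241881c81a14c5a82681281a142c916849484514181c65], [0, 0, 0, 0,
    0x816149222c134821534141862851a12628812688852218a43482522883118882aa44d21c28128882981c82d81c8285e9],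
    [0, 0x4242241c242c2824282e84a84ac44884ac48884ea18842241e, 0x22482426284862882644c8e518,
    0x124814121821c2882c21425d1284182c,
    0x84248414584a86981c222884886432288485112618292284182284282a1482a14a9dc], [0, 0,
    0x826826a41124c24cc211a42a42aa81142a282c8a42a42aa8c15c, 0,
    0xa412122281c222848261882614c5522884861a862819888883414a41812428888ac1c8482482c828c7e]]

noncomputable def n3385 : Ent := ⟨e3385, noF, [], [], []⟩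

def c3385 : PLift (Cov.check n3385.C.D v3385 = true) := ⟨by decide +kernel⟩

def b3385 : PLift (entF (fidx ts) 400 3385 n3385 = true) := ⟨by decide +kernel⟩

theorem g3385 : GoodF (fidx ts) 400 3385 := GoodF.ofV v3385 n3385 c3385.down b3385.down

/-- 46864484:2586/4 -/
noncomputable def e3386 : SCfg where
  D := {
    a := 8
    L := 10
    kp := 7
    inn := [(0, 1), (0, 2), (0, 3), (0, 6), (1, 0), (1, 3), (1, 6), (2, 0), (2, 3), (2, 4), (2, 5), (2,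
      6), (3, 0), (3, 1), (3, 2), (4, 2), (4, 6), (5, 2), (6, 0), (6, 1), (6, 2), (6, 4), (6, 7),
      (7, 6)]
    mix := [(1, 0), (1, 1), (1, 2), (2, 3), (2, 4), (2, 5), (3, 0), (3, 5), (3, 6), (4, 3), (4, 7), (5,
      3), (5, 4), (5, 8), (6, 2), (6, 7), (6, 9), (7, 6), (7, 7), (7, 9)]
    cl := [3, 6, 0, 1, 4, 1, 2, 0, 7, 5]
    chq := [(0, 3), (1, 3), (3, 0), (3, 1)]
    rng := [(0, 1), (0, 6), (1, 0), (1, 2), (2, 1), (2, 9), (3, 7), (3, 8), (4, 5), (4, 8), (5, 4), (5,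
      6), (6, 0), (6, 5), (6, 7), (6, 9), (7, 3), (7, 6), (8, 3), (8, 4), (9, 2), (9, 6)]
    lev := [] }
  links := [[1, 6, 2, 3], [6, 0, 3, 8, 9, 10], [3, 0, 6, 4, 11, 5, 12, 13], [8, 1, 0, 2, 13, 14], [11, 2,
    6, 15], [12, 2, 11, 16], [15, 4, 2, 0, 1, 10, 17, 7], [15, 6, 17, 14]]
  P := {
    a := 8
    N := 18
    nb := [78, 1865, 14457, 24839, 34884, 71684, 165015, 180288, 16906, 1282, 131650, 98356, 73764,
      20492, 172424, 18640, 6176, 17600]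
    tri := [(0, 1, 3), (0, 1, 6), (0, 2, 3), (0, 2, 6), (1, 3, 8), (1, 6, 10), (1, 8, 9), (1, 9, 10),
      (2, 3, 13), (2, 4, 6), (2, 4, 11), (2, 5, 11), (2, 5, 12), (2, 12, 13), (3, 8, 14), (3, 13,
      14), (4, 6, 15), (4, 11, 15), (5, 11, 16), (5, 12, 16), (6, 7, 15), (6, 7, 17), (6, 10, 17),
      (7, 14, 15), (7, 14, 17)]
    fin := [0, 0, 2, 0, 4, 2, 4, 4, 0, 9, 4, 2, 12, 2, 14, 4, 16, 17]
    chd := [(0, 2), (0, 4)]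
    steps := [(0, 1), (0, 3), (0, 8), (2, 5), (2, 11), (2, 13), (4, 6), (4, 7), (4, 10), (4, 15)] }
  rep := [4, 2, 14, 0, 12, 17, 9, 16]

noncomputable def v3386 : Cov.CovD where
  P := 3
  N := 5
  pl := [1, 4, 6, 8, 9]
  lev := [⟨[], [], [], [], []⟩,
    ⟨[], [(0, 0), (0, 3)], [(0, 3)], [6], [(0, 3, [0, 1]), (2, 0, [3])]⟩,
    ⟨[(0, 1)], [(0, 1)], [(1, 1)], [4], [(3, 1, [3]), (5, 1, [3])]⟩,
    ⟨[(0, 1), (0, 2), (1, 2)], [(0, 1), (0, 3), (1, 0), (1, 1), (1, 3), (2, 1), (2, 3)],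
      [(1, 3)], [2], [(0, 3, [0, 1]), (5, 1, [3])]⟩,
    ⟨[(0, 2), (2, 3)], [(2, 0), (2, 1)], [(0, 1)], [], [(3, 1, [3]), (7, 0, [3])]⟩,
    ⟨[(0, 2), (2, 3), (2, 4)], [(2, 1), (4, 1)], [], [4, 7], [(3, 1, [3])]⟩,
    ⟨[(0, 1), (0, 2), (0, 3), (0, 4), (1, 2), (1, 3), (1, 4), (2, 3), (2, 4), (2, 5)], [(0,
      0), (1, 0), (1, 3), (2, 0), (2, 1), (4, 0), (4, 1)], [(0, 0)], [5], [(2, 0, [3]), (7,
      0, [3])]⟩,
    ⟨[(0, 6), (1, 6), (2, 6), (4, 6)], [(4, 0), (6, 0)], [], [2, 5], [(7, 0, [3])]⟩]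
  Ta := [((2, 1), 0, 6), ((2, 9), 0, 5), ((3, 7), 1, 0), ((3, 8), 1, 7), ((5, 4), 1, 4), ((5, 6),
    1, 2), ((7, 3), 0, 1), ((7, 6), 0, 2)]
  Tb := [((0, 1, 6), 3, 6, 2), ((1, 0, 2), 6, 3, 0), ((2, 1, 9), 0, 6, 5), ((3, 7, 8), 1, 0, 7),
    ((4, 5, 8), 4, 1, 7), ((5, 4, 6), 1, 4, 2), ((6, 0, 5), 2, 3, 1), ((6, 0, 7), 2, 3, 0),
    ((6, 0, 9), 2, 3, 5), ((6, 5, 7), 2, 1, 0), ((6, 5, 9), 2, 1, 5), ((6, 7, 9), 2, 0, 5),
    ((7, 3, 6), 0, 1, 2), ((8, 3, 4), 7, 1, 4), ((9, 2, 6), 5, 0, 2)]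
  Tc := [(3, 0, 1)]
  Td := [((0, 3), (2, 1), 6), ((0, 3), (2, 9), 5), ((0, 3), (7, 3), 1), ((0, 3), (7, 6), 2), ((1,
    3), (3, 7), 0), ((1, 3), (3, 8), 7), ((1, 3), (5, 4), 4), ((1, 3), (5, 6), 2), ((3, 0),
    (0, 1), 6), ((3, 0), (0, 6), 2), ((3, 1), (0, 1), 6), ((3, 1), (0, 6), 2)]
  G := [[0, 0, 0, 0,
    0x2241144826826c11816826588982a14211861a86891881489e2288485188412c12488188245d146d], [0,
    0, 0, 0xc2211522885c2281522419c221192281ce4,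
    0x9434c21826288981618618678112288291ca121268888c911281aa41546], [0,
    0x44284428c2184a88a484a8864c218248284444ce44ca42c884a8c1e,
    0x844428262882622c8a48644826d82d148628811a, 0,
    0x22481484882452222c848511412658892218c4182424388889c81a864228c28882a82ad429f8888c18824942d],
    [0, 0, 0x48628484a24882c824c164862458888accd12, 0xc2241c224494c2288c22885c2281c2281cac,
    0x2222c814a86a86a8674186a4a482e41a42889888888b41242882c15242882c14882481fa]]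

noncomputable def n3386 : Ent := ⟨e3386, noF, [], [], [(9, 16, [7334685537875745012586738086077695515070955365108989538292687707533313, 0])]⟩

def c3386 : PLift (Cov.check n3386.C.D v3386 = true) := ⟨by decide +kernel⟩

def b3386 : PLift (entF (fidx ts) 400 3386 n3386 = true) := ⟨by decide +kernel⟩

theorem g3386 : GoodF (fidx ts) 400 3386 := GoodF.ofV v3386 n3386 c3386.down b3386.down

/-- 46864484:2586 -/
noncomputable def e3387 : SCfg where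
  D := {
    a := 8
    L := 11
    kp := 8
    inn := [(0, 1), (0, 2), (0, 3), (0, 6), (1, 0), (1, 3), (1, 6), (2, 0), (2, 3), (2, 4), (2, 5), (2,
      6), (3, 0), (3, 1), (3, 2), (4, 2), (4, 6), (5, 2), (6, 0), (6, 1), (6, 2), (6, 4), (6, 7),
      (7, 6)]
    mix := [(1, 0), (1, 1), (1, 2), (2, 3), (2, 4), (2, 5), (3, 0), (3, 5), (3, 6), (4, 3), (4, 7), (5,
      3), (5, 4), (5, 8), (6, 2), (6, 7), (6, 9), (7, 7), (7, 9), (7, 10)]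
    cl := [2, 5, 0, 1, 3, 1, 6, 0, 7, 4, 8]
    chq := [(0, 2), (1, 2), (2, 0), (2, 1)]
    rng := [(0, 1), (0, 6), (1, 0), (1, 2), (2, 1), (2, 9), (3, 7), (3, 8), (4, 5), (4, 8), (5, 4), (5,
      6), (6, 0), (6, 5), (7, 3), (7, 10), (8, 3), (8, 4), (9, 2), (9, 10), (10, 7), (10, 9)]
    lev := [] }
  links := [[1, 6, 2, 3], [6, 0, 3, 8, 9, 10], [3, 0, 6, 4, 11, 5, 12, 13], [8, 1, 0, 2, 13, 14], [11, 2,
    6, 15], [12, 2, 11, 16], [15, 4, 2, 0, 1, 10, 17, 7], [15, 6, 17, 18]]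
  P := {
    a := 8
    N := 19
    nb := [78, 1865, 14457, 24839, 34884, 71684, 165015, 426048, 16906, 1282, 131650, 98356, 73764,
      20492, 8456, 264400, 6176, 263360, 163968]
    tri := [(0, 1, 3), (0, 1, 6), (0, 2, 3), (0, 2, 6), (1, 3, 8), (1, 6, 10), (1, 8, 9), (1, 9, 10),
      (2, 3, 13), (2, 4, 6), (2, 4, 11), (2, 5, 11), (2, 5, 12), (2, 12, 13), (3, 8, 14), (3, 13,
      14), (4, 6, 15), (4, 11, 15), (5, 11, 16), (5, 12, 16), (6, 7, 15), (6, 7, 17), (6, 10, 17),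
      (7, 15, 18), (7, 17, 18)]
    fin := [0, 0, 2, 0, 4, 2, 4, 4, 0, 9, 4, 2, 12, 2, 14, 4, 16, 17, 18]
    chd := [(0, 2), (0, 4)]
    steps := [(0, 1), (0, 3), (0, 8), (2, 5), (2, 11), (2, 13), (4, 6), (4, 7), (4, 10), (4, 15)] }
  rep := [4, 2, 0, 12, 17, 9, 14, 16, 18]

noncomputable def v3387 : Cov.CovD where
  P := 3
  N := 6
  pl := [1, 4, 6, 8, 9, 10]
  lev := [⟨[], [], [], [], []⟩,
    ⟨[], [(0, 0), (0, 2)], [(0, 2)], [5], [(0, 2, [0, 1]), (2, 0, [2])]⟩,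
    ⟨[(0, 1)], [(0, 1)], [(1, 1)], [3], [(3, 1, [2]), (5, 1, [2])]⟩,
    ⟨[(0, 1), (0, 2), (1, 2)], [(0, 1), (0, 2), (1, 0), (1, 1), (1, 2), (2, 1), (2, 2)],
      [(1, 2)], [6], [(0, 2, [0, 1]), (5, 1, [2])]⟩,
    ⟨[(0, 2), (2, 3)], [(2, 0), (2, 1)], [(0, 1)], [], [(3, 1, [2]), (7, 0, [2])]⟩,
    ⟨[(0, 2), (2, 3), (2, 4)], [(2, 1), (4, 1)], [], [3, 7], [(3, 1, [2])]⟩,
    ⟨[(0, 1), (0, 2), (0, 3), (0, 4), (1, 2), (1, 3), (1, 4), (2, 3), (2, 4), (2, 5)], [(0,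
      0), (1, 0), (1, 2), (2, 0), (2, 1), (4, 0), (4, 1)], [(0, 0)], [4], [(2, 0, [2]), (7,
      0, [2])]⟩,
    ⟨[(0, 6), (1, 6), (2, 6), (4, 6)], [(4, 0), (6, 0)], [], [4, 8], [(7, 0, [2])]⟩]
  Ta := [((2, 1), 0, 5), ((2, 9), 0, 4), ((3, 7), 1, 0), ((3, 8), 1, 7), ((5, 4), 1, 3), ((5, 6),
    1, 6), ((7, 3), 0, 1), ((7, 10), 0, 8)]
  Tb := [((0, 1, 6), 2, 5, 6), ((1, 0, 2), 5, 2, 0), ((2, 1, 9), 0, 5, 4), ((3, 7, 8), 1, 0, 7),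
    ((4, 5, 8), 3, 1, 7), ((5, 4, 6), 1, 3, 6), ((6, 0, 5), 6, 2, 1), ((7, 3, 10), 0, 1, 8),
    ((8, 3, 4), 7, 1, 3), ((9, 2, 10), 4, 0, 8), ((10, 7, 9), 8, 0, 4)]
  Tc := [(2, 0, 1)]
  Td := [((0, 2), (2, 1), 5), ((0, 2), (2, 9), 4), ((0, 2), (7, 3), 1), ((0, 2), (7, 10), 8),
    ((1, 2), (3, 7), 0), ((1, 2), (3, 8), 7), ((1, 2), (5, 4), 3), ((1, 2), (5, 6), 6), ((2,
    0), (0, 1), 5), ((2, 0), (0, 6), 6), ((2, 1), (0, 1), 5), ((2, 1), (0, 6), 6)]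
  G := [[0, 0, 0x116142111614116d821c11684112481c14481811c18c814ea, 0x39c244142d82c11bc248d21,
    0x1d6c169881253a16a542181a61a6c428356218e94171c71ac812218e5c8499cad], [0, 0,
    0x116116a41116281c11628111a481c11c1814e2, 0x142782c11bc288a1c244d21,
    0x12c16127c489112b46928c8956254c456c4956689d71c28142a1ca8ca9a1c16c921416c6895a2], [0,
    0xe24814e2e2c814c44246428c46468cade284182824288ae2c8ea8a8a4c29e4824c8c8c28c1e,
    0x1161169821411a11a54218116116c42811a11ac824cd, 0xe2244e228ca628c91e4281e8248c29,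
    0x8e6e2c488c2ca6c4ca6d8251844484c281c], [0, 0,
    0x121468141162411411812ac1ca12214189a118281c4a, 0x2462e82c8a824642a82cc5164281a8241c23,
    0x626234862ca6a8851c8c8c28418a62c444961e2848e67482c1ce86182282828fe48e1242e4a2c1cab]]

noncomputable def n3387 : Ent := ⟨e3387, noF, [], [], [(9, 16, [31810581851548793677511941751458610980409781099126250235727204310991470593, 0]), (18, 16, [30044166145917083758165358922957084778673075396561391926765295767462842369, 0]), (18, 14, [30043303427726578972524504956108985724401353414501291620047999193394159617, 0])]⟩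

def c3387 : PLift (Cov.check n3387.C.D v3387 = true) := ⟨by decide +kernel⟩

def b3387 : PLift (entF (fidx ts) 400 3387 n3387 = true) := ⟨by decide +kernel⟩

theorem g3387 : GoodF (fidx ts) 400 3387 := GoodF.ofV v3387 n3387 c3387.down b3387.down

/-- 47474844:2593/1 -/
noncomputable def e3388 : SCfg where
  D := {
    a := 8
    L := 10
    kp := 7
    inn := [(0, 1), (0, 5), (1, 0), (1, 2), (1, 3), (1, 4), (1, 5), (2, 1), (2, 3), (2, 5), (3, 1), (3,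
      2), (3, 6), (4, 1), (5, 0), (5, 1), (5, 2), (5, 7), (6, 3), (7, 5)]
    mix := [(0, 0), (0, 1), (1, 0), (1, 2), (2, 3), (3, 2), (3, 3), (3, 4), (3, 5), (4, 0), (4, 2), (4,
      6), (5, 1), (5, 3), (5, 7), (5, 8), (6, 3), (6, 4), (6, 9), (7, 1), (7, 4), (7, 7)]
    cl := [3, 1, 0, 0, 2, 5, 6, 4, 1, 7]
    chq := [(0, 2), (0, 3), (2, 0), (3, 0)]
    rng := [(0, 1), (0, 6), (1, 0), (1, 4), (2, 5), (2, 6), (3, 8), (3, 9), (4, 1), (4, 5), (4, 7), (4,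
      9), (5, 2), (5, 4), (6, 0), (6, 2), (7, 4), (7, 8), (8, 3), (8, 7), (9, 3), (9, 4)]
    lev := [] }
  links := [[1, 8, 9, 5], [8, 0, 5, 2, 3, 10, 4], [3, 1, 5, 11], [10, 1, 2, 11, 6, 12, 13], [8, 1, 10,
    14], [11, 2, 1, 0, 9, 7, 15, 16], [12, 3, 11, 17], [15, 5, 9, 12]]
  P := {
    a := 8
    N := 18
    nb := [802, 1341, 2090, 15430, 17666, 100999, 137224, 37408, 16915, 4513, 24602, 196716, 172744,
      5128, 1296, 69792, 34848, 6208]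
    tri := [(0, 1, 5), (0, 1, 8), (0, 5, 9), (0, 8, 9), (1, 2, 3), (1, 2, 5), (1, 3, 10), (1, 4, 8),
      (1, 4, 10), (2, 3, 11), (2, 5, 11), (3, 6, 11), (3, 6, 12), (3, 10, 13), (3, 12, 13), (4, 8,
      14), (4, 10, 14), (5, 7, 9), (5, 7, 15), (5, 11, 16), (5, 15, 16), (6, 11, 17), (6, 12, 17),
      (7, 9, 12), (7, 12, 15)]
    fin := [0, 1, 1, 3, 0, 5, 3, 5, 0, 5, 1, 1, 3, 13, 14, 15, 5, 17]
    chd := [(0, 1), (1, 3)]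
    steps := [(0, 8), (0, 4), (1, 2), (1, 11), (1, 10), (3, 6), (3, 12), (5, 7), (5, 9), (5, 16)] }
  rep := [1, 5, 3, 0, 15, 13, 14, 17]

noncomputable def v3388 : Cov.CovD where
  P := 3
  N := 5
  pl := [5, 6, 7, 9]
  lev := [⟨[], [], [(1, 3)], [], [(0, 3, [0]), (1, 1, [])]⟩,
    ⟨[], [(0, 0), (0, 1), (0, 3)], [(0, 3)], [], [(0, 3, [0]), (2, 0, [2, 3])]⟩,
    ⟨[(0, 1)], [(1, 0), (1, 3)], [], [], [(3, 0, [2, 3])]⟩,
    ⟨[(0, 1), (1, 2)], [(1, 0), (1, 2), (1, 3), (2, 0), (2, 2)], [(0, 0), (0, 2)], [5],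
      [(2, 0, [2, 3]), (3, 0, [2, 3]), (4, 2, [0])]⟩,
    ⟨[(0, 1), (1, 2), (1, 3)], [(0, 3), (1, 0), (1, 3), (3, 0)], [(0, 3)], [6], [(0, 3,
      [0]), (2, 0, [2, 3])]⟩,
    ⟨[(0, 1), (0, 2), (1, 2), (1, 3), (1, 4), (2, 3)], [(0, 0), (0, 1), (0, 3), (1, 0), (1,
      1), (1, 3), (2, 0), (2, 1), (3, 0)], [(0, 1), (1, 1)], [4], [(1, 1, []), (3, 0, [2,
      3]), (8, 1, [])]⟩,
    ⟨[(1, 3), (2, 3)], [(2, 0), (3, 0), (3, 2), (5, 0)], [(0, 2)], [7], [(3, 0, [2, 3]),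
      (4, 2, [0])]⟩,
    ⟨[(0, 5), (1, 5), (2, 5)], [(0, 1), (3, 2), (5, 0), (5, 1), (5, 2), (6, 2)], [(1, 2)],
      [4], [(1, 1, []), (4, 2, [0])]⟩]
  Ta := [((1, 0), 1, 3), ((1, 4), 1, 2), ((2, 5), 0, 5), ((2, 6), 0, 6), ((3, 8), 0, 1), ((3, 9),
    0, 7), ((8, 3), 1, 0), ((8, 7), 1, 4)]
  Tb := [((0, 1, 6), 3, 1, 6), ((1, 0, 4), 1, 3, 2), ((2, 5, 6), 0, 5, 6), ((3, 8, 9), 0, 1, 7),
    ((4, 1, 5), 2, 1, 5), ((4, 1, 7), 2, 1, 4), ((4, 1, 9), 2, 1, 7), ((4, 5, 7), 2, 5, 4),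
    ((4, 5, 9), 2, 5, 7), ((4, 7, 9), 2, 4, 7), ((5, 2, 4), 5, 0, 2), ((6, 0, 2), 6, 3, 0),
    ((7, 4, 8), 4, 2, 1), ((8, 3, 7), 1, 0, 4), ((9, 3, 4), 7, 0, 2)]
  Tc := [(0, 2, 3)]
  Td := [((0, 2), (2, 5), 5), ((0, 2), (2, 6), 6), ((0, 2), (3, 8), 1), ((0, 2), (3, 9), 7), ((0,
    3), (2, 5), 5), ((0, 3), (2, 6), 6), ((0, 3), (3, 8), 1), ((0, 3), (3, 9), 7), ((2, 0),
    (4, 1), 1), ((2, 0), (4, 5), 5), ((2, 0), (4, 7), 4), ((2, 0), (4, 9), 7), ((3, 0), (0,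
    1), 1), ((3, 0), (0, 6), 6)]
  G := [[0, 0, 0xcc611ccc1162844611ccc11a88a81834c, 0x414414c1141c1141c1141cec1188188111ce8c21,
    0x11449141141191cea28111c818c1188188111cea28111c1148111ce818114ca4e1], [0, 0,
    0x116216c188c22cc1a421, 0, 0x1191c22288111c2228111c2111c1121ce8111c8121cca463], [0, 0,
    0x11641ac111611cc161116116c181c11cc1a4a1, 0x1141c8141c88c44ccd8141c1141c88c44ccdc221,
    0x11a92c12491411a4928281218a888a891a4d8111c8883ae1189849291a411a488a8b8ce1], [0,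
    0x88c11c6142888c11ca182488c44cc188c44cc1c22d, 0x11a11ac111c14cc16821, 0,
    0x1288212c8212ce2412241281121c8112ac88a22ac78111c8121c8828cda4a3]]

noncomputable def n3388 : Ent := ⟨e3388, noF, [], [], []⟩

def c3388 : PLift (Cov.check n3388.C.D v3388 = true) := ⟨by decide +kernel⟩

def b3388 : PLift (entF (fidx ts) 400 3388 n3388 = true) := ⟨by decide +kernel⟩

theorem g3388 : GoodF (fidx ts) 400 3388 := GoodF.ofV v3388 n3388 c3388.down b3388.down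

/-- 47474844:2593/3 -/
noncomputable def e3389 : SCfg where
  D := {
    a := 8
    L := 9
    kp := 6
    inn := [(0, 1), (0, 5), (1, 0), (1, 2), (1, 3), (1, 4), (1, 5), (2, 1), (2, 3), (2, 5), (3, 1), (3,
      2), (3, 6), (4, 1), (5, 0), (5, 1), (5, 2), (5, 7), (6, 3), (7, 5)]
    mix := [(0, 0), (0, 1), (1, 0), (1, 2), (2, 3), (3, 2), (3, 3), (3, 4), (3, 5), (4, 0), (4, 2), (4,
      6), (5, 1), (5, 3), (5, 7), (5, 8), (6, 3), (6, 4), (6, 8), (7, 1), (7, 5), (7, 7)]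
    cl := [3, 1, 0, 0, 2, 4, 6, 5, 1]
    chq := [(0, 2), (0, 3), (2, 0), (3, 0)]
    rng := [(0, 1), (0, 6), (1, 0), (1, 5), (2, 5), (2, 6), (3, 8), (4, 5), (4, 8), (5, 1), (5, 2), (5,
      4), (5, 7), (6, 0), (6, 2), (7, 5), (7, 8), (8, 3), (8, 4), (8, 7)]
    lev := [] }
  links := [[1, 8, 9, 5], [8, 0, 5, 2, 3, 10, 4], [3, 1, 5, 11], [10, 1, 2, 11, 6, 12, 13], [8, 1, 10,
    14], [11, 2, 1, 0, 9, 7, 15, 16], [12, 3, 11, 16], [15, 5, 9, 13]]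
  P := {
    a := 8
    N := 17
    nb := [802, 1341, 2090, 15430, 17666, 100999, 71688, 41504, 16915, 8609, 24602, 65644, 73800,
      38536, 1296, 73888, 39008]
    tri := [(0, 1, 5), (0, 1, 8), (0, 5, 9), (0, 8, 9), (1, 2, 3), (1, 2, 5), (1, 3, 10), (1, 4, 8),
      (1, 4, 10), (2, 3, 11), (2, 5, 11), (3, 6, 11), (3, 6, 12), (3, 10, 13), (3, 12, 13), (4, 8,
      14), (4, 10, 14), (5, 7, 9), (5, 7, 15), (5, 11, 16), (5, 15, 16), (6, 11, 16), (6, 12, 16),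
      (7, 9, 13), (7, 13, 15)]
    fin := [0, 1, 1, 3, 0, 5, 1, 5, 0, 5, 1, 1, 12, 3, 14, 15, 5]
    chd := [(0, 1), (1, 12)]
    steps := [(0, 8), (0, 4), (1, 2), (1, 11), (1, 6), (1, 10), (3, 13), (5, 7), (5, 9), (5, 16)] }
  rep := [1, 5, 12, 0, 3, 15, 14]

noncomputable def v3389 : Cov.CovD where
  P := 3
  N := 4
  pl := [5, 6, 7]
  lev := [⟨[], [], [(1, 3)], [], [(0, 3, [0]), (1, 1, [])]⟩,
    ⟨[], [(0, 0), (0, 1), (0, 3)], [(0, 3)], [], [(0, 3, [0]), (2, 0, [2, 3])]⟩,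
    ⟨[(0, 1)], [(1, 0), (1, 3)], [], [], [(3, 0, [2, 3])]⟩,
    ⟨[(0, 1), (1, 2)], [(1, 0), (1, 2), (1, 3), (2, 0), (2, 2)], [(0, 0), (0, 2)], [4],
      [(2, 0, [2, 3]), (3, 0, [2, 3]), (4, 2, [0])]⟩,
    ⟨[(0, 1), (1, 2), (1, 3)], [(0, 3), (1, 0), (1, 3), (3, 0)], [(0, 3)], [6], [(0, 3,
      [0]), (2, 0, [2, 3])]⟩,
    ⟨[(0, 1), (0, 2), (1, 2), (1, 3), (1, 4), (2, 3)], [(0, 0), (0, 1), (0, 3), (1, 0), (1,
      1), (1, 3), (2, 0), (2, 1), (3, 0)], [(0, 1), (1, 1)], [5], [(1, 1, []), (3, 0, [2,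
      3]), (8, 1, [])]⟩,
    ⟨[(1, 3), (2, 3)], [(2, 0), (3, 0), (3, 1), (3, 2), (5, 0), (5, 1)], [(0, 1), (0, 2),
      (1, 2)], [], [(3, 0, [2, 3]), (4, 2, [0]), (8, 1, [])]⟩,
    ⟨[(0, 5), (1, 5), (2, 5)], [(0, 1), (5, 0), (5, 1)], [], [4, 5], [(1, 1, [])]⟩]
  Ta := [((1, 0), 1, 3), ((1, 5), 1, 4), ((2, 5), 0, 4), ((2, 6), 0, 6), ((3, 8), 0, 1), ((8, 3),
    1, 0), ((8, 4), 1, 2), ((8, 7), 1, 5)]
  Tb := [((0, 1, 6), 3, 1, 6), ((1, 0, 5), 1, 3, 4), ((2, 5, 6), 0, 4, 6), ((4, 5, 8), 2, 4, 1),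
    ((5, 1, 2), 4, 1, 0), ((5, 1, 4), 4, 1, 2), ((5, 1, 7), 4, 1, 5), ((5, 2, 4), 4, 0, 2),
    ((5, 2, 7), 4, 0, 5), ((5, 4, 7), 4, 2, 5), ((6, 0, 2), 6, 3, 0), ((7, 5, 8), 5, 4, 1),
    ((8, 3, 4), 1, 0, 2), ((8, 3, 7), 1, 0, 5), ((8, 4, 7), 1, 2, 5)]
  Tc := [(0, 2, 3)]
  Td := [((0, 2), (2, 5), 4), ((0, 2), (2, 6), 6), ((0, 2), (3, 8), 1), ((0, 3), (2, 5), 4), ((0,
    3), (2, 6), 6), ((0, 3), (3, 8), 1), ((2, 0), (4, 5), 4), ((2, 0), (4, 8), 1), ((3, 0),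
    (0, 1), 1), ((3, 0), (0, 6), 6)]
  G := [[0, 0, 0x5894c1288818c11842c1c161, 0,
    0x5841858c1848ce219888885818ce218248c8818c8858ce1881848cca1e1], [0, 0, 0x2418c12821,
    0x2124588828818c8824c62424c1424c2428cec129, 0x3868922838a8942865846831ca22218824a5], [0,
    0, 0x5494c1211248c11894c16861, 0, 0x5898c1245818c5818c528211c8812c8848cd81848c827a1], [0,
    0x441861421818a184c2814c148818c18c2a, 0x1428c12821,
    0x1424c8811c2424cd2828c2821c1848cdc221, 0x2818c2118c1828cd2821]]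

noncomputable def n3389 : Ent := ⟨e3389, noF, [], [], []⟩

def c3389 : PLift (Cov.check n3389.C.D v3389 = true) := ⟨by decide +kernel⟩

def b3389 : PLift (entF (fidx ts) 400 3389 n3389 = true) := ⟨by decide +kernel⟩

theorem g3389 : GoodF (fidx ts) 400 3389 := GoodF.ofV v3389 n3389 c3389.down b3389.down

/-- 47474844:2593/2 -/
noncomputable def e3390 : SCfg where
  D := {
    a := 8
    L := 10
    kp := 7
    inn := [(0, 1), (0, 5), (1, 0), (1, 2), (1, 3), (1, 4), (1, 5), (2, 1), (2, 3), (2, 5), (3, 1), (3,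
      2), (3, 6), (4, 1), (5, 0), (5, 1), (5, 2), (5, 7), (6, 3), (7, 5)]
    mix := [(0, 0), (0, 1), (1, 0), (1, 2), (2, 3), (3, 2), (3, 3), (3, 4), (3, 5), (4, 0), (4, 2), (4,
      6), (5, 1), (5, 3), (5, 7), (5, 8), (6, 3), (6, 4), (6, 9), (7, 1), (7, 5), (7, 7)]
    cl := [3, 1, 0, 0, 4, 2, 7, 5, 1, 6]
    chq := [(0, 3), (2, 6), (3, 0), (6, 2)]
    rng := [(0, 1), (0, 6), (1, 0), (1, 5), (2, 5), (2, 6), (3, 8), (3, 9), (4, 5), (4, 9), (5, 1), (5,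
      2), (5, 4), (5, 7), (6, 0), (6, 2), (7, 5), (7, 8), (8, 3), (8, 7), (9, 3), (9, 4)]
    lev := [] }
  links := [[1, 8, 9, 5], [8, 0, 5, 2, 3, 10, 4], [3, 1, 5, 11], [10, 1, 2, 11, 6, 12, 13], [8, 1, 10,
    14], [11, 2, 1, 0, 9, 7, 15, 16], [12, 3, 11, 17], [15, 5, 9, 13]]
  P := {
    a := 8
    N := 18
    nb := [802, 1341, 2090, 15430, 17666, 100999, 137224, 41504, 16915, 8609, 24602, 196716, 139336,
      38536, 1296, 73888, 34848, 6208]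
    tri := [(0, 1, 5), (0, 1, 8), (0, 5, 9), (0, 8, 9), (1, 2, 3), (1, 2, 5), (1, 3, 10), (1, 4, 8),
      (1, 4, 10), (2, 3, 11), (2, 5, 11), (3, 6, 11), (3, 6, 12), (3, 10, 13), (3, 12, 13), (4, 8,
      14), (4, 10, 14), (5, 7, 9), (5, 7, 15), (5, 11, 16), (5, 15, 16), (6, 11, 17), (6, 12, 17),
      (7, 9, 13), (7, 13, 15)]
    fin := [0, 1, 1, 3, 0, 5, 3, 5, 0, 5, 1, 1, 12, 3, 14, 15, 5, 17]
    chd := [(0, 1), (3, 17)]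
    steps := [(0, 8), (0, 4), (1, 2), (1, 11), (1, 10), (3, 6), (3, 13), (5, 7), (5, 9), (5, 16)] }
  rep := [1, 5, 3, 0, 12, 15, 17, 14]

noncomputable def v3390 : Cov.CovD where
  P := 3
  N := 5
  pl := [4, 6, 7]
  lev := [⟨[], [], [(1, 3)], [], [(0, 3, [0]), (1, 1, [])]⟩,
    ⟨[], [(0, 0), (0, 1), (0, 3)], [(0, 3)], [], [(0, 3, [0]), (2, 0, [3])]⟩,
    ⟨[(0, 1)], [(1, 0), (1, 3)], [], [], [(3, 0, [3])]⟩,
    ⟨[(0, 1), (1, 2)], [(1, 0), (1, 2), (1, 3), (2, 0), (2, 2)], [(0, 0), (0, 2)], [4],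
      [(2, 0, [3]), (3, 0, [3]), (5, 2, [6])]⟩,
    ⟨[(0, 1), (1, 2), (1, 3)], [(0, 3), (1, 0), (1, 3), (3, 0)], [(0, 3)], [7], [(0, 3,
      [0]), (2, 0, [3])]⟩,
    ⟨[(0, 1), (0, 2), (1, 2), (1, 3), (1, 4), (2, 3)], [(0, 0), (0, 1), (0, 3), (1, 0), (1,
      1), (1, 3), (2, 0), (2, 1), (3, 0)], [(0, 1), (1, 1)], [5], [(1, 1, []), (3, 0, [3]),
      (8, 1, [])]⟩,
    ⟨[(1, 3), (2, 3)], [(2, 0), (3, 0), (3, 2), (3, 6), (5, 0)], [(0, 6)], [4], [(3, 0,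
      [3]), (9, 6, [2])]⟩,
    ⟨[(0, 5), (1, 5), (2, 5)], [(0, 1), (3, 2), (5, 0), (5, 1), (5, 2)], [(1, 2)], [5],
      [(1, 1, []), (5, 2, [6])]⟩]
  Ta := [((1, 0), 1, 3), ((1, 5), 1, 2), ((2, 5), 0, 2), ((2, 6), 0, 7), ((3, 8), 0, 1), ((3, 9),
    0, 6), ((8, 3), 1, 0), ((8, 7), 1, 5)]
  Tb := [((0, 1, 6), 3, 1, 7), ((1, 0, 5), 1, 3, 2), ((2, 5, 6), 0, 2, 7), ((3, 8, 9), 0, 1, 6),
    ((4, 5, 9), 4, 2, 6), ((5, 1, 2), 2, 1, 0), ((5, 1, 4), 2, 1, 4), ((5, 1, 7), 2, 1, 5),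
    ((5, 2, 4), 2, 0, 4), ((5, 2, 7), 2, 0, 5), ((5, 4, 7), 2, 4, 5), ((6, 0, 2), 7, 3, 0),
    ((7, 5, 8), 5, 2, 1), ((8, 3, 7), 1, 0, 5), ((9, 3, 4), 6, 0, 4)]
  Tc := []
  Td := [((0, 3), (2, 5), 2), ((0, 3), (2, 6), 7), ((0, 3), (3, 8), 1), ((0, 3), (3, 9), 6), ((2,
    6), (5, 1), 1), ((2, 6), (5, 2), 0), ((2, 6), (5, 4), 4), ((2, 6), (5, 7), 5), ((3, 0),
    (0, 1), 1), ((3, 0), (0, 6), 7), ((6, 2), (9, 3), 0), ((6, 2), (9, 4), 4)]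
  G := [[0, 0, 0x414414c414414c62818818c818818ca2414241441464144e818818a818818acce1,
    0x8212c8212c8242ce1242c8212c8212cec121,
    0x114419541441491cea48411c818c1488488111cea28414c111e48414ce848144ca1e1], [0, 0,
    0x2141c2141c214e48121c8121c8121ce8182cc21, 0,
    0x9441494ca218488414c621c8421c8124c8121ce118114ca423], [0, 0, 0,
    0x8242c1242c8242cd8242c8241c8242cdc221,
    0x84919ec188514c848144da2196419174a9141499cc5a848848a8c61], [0,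
    0x42111e614284282618242c8661488a44ac18aa9, 0, 0,
    0x1424c2414c2414cd28121c8431c84923ecd8a21]]

noncomputable def n3390 : Ent := ⟨e3390, noF, [], [], [(16, 17, [6903326391201334775872065844685381424292761054348340378595029943570433, 0])]⟩

def c3390 : PLift (Cov.check n3390.C.D v3390 = true) := ⟨by decide +kernel⟩

def b3390 : PLift (entF (fidx ts) 400 3390 n3390 = true) := ⟨by decide +kernel⟩

theorem g3390 : GoodF (fidx ts) 400 3390 := GoodF.ofV v3390 n3390 c3390.down b3390.down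

/-- 47474844:2593/5 -/
noncomputable def e3391 : SCfg where
  D := {
    a := 8
    L := 9
    kp := 6
    inn := [(0, 1), (0, 5), (1, 0), (1, 2), (1, 3), (1, 4), (1, 5), (2, 1), (2, 3), (2, 5), (3, 1), (3,
      2), (3, 6), (4, 1), (5, 0), (5, 1), (5, 2), (5, 7), (6, 3), (7, 5)]
    mix := [(0, 0), (0, 1), (1, 0), (1, 2), (2, 3), (3, 2), (3, 3), (3, 4), (3, 5), (4, 0), (4, 2), (4,
      6), (5, 1), (5, 3), (5, 7), (5, 8), (6, 3), (6, 4), (6, 8), (7, 1), (7, 6), (7, 7)]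
    cl := [3, 1, 0, 0, 2, 6, 4, 5, 1]
    chq := [(0, 2), (0, 3), (2, 0), (3, 0)]
    rng := [(0, 1), (0, 6), (1, 0), (1, 6), (2, 5), (2, 6), (3, 8), (4, 5), (4, 8), (5, 2), (5, 4), (6,
      0), (6, 1), (6, 2), (6, 7), (7, 6), (7, 8), (8, 3), (8, 4), (8, 7)]
    lev := [] }
  links := [[1, 8, 9, 5], [8, 0, 5, 2, 3, 10, 4], [3, 1, 5, 11], [10, 1, 2, 11, 6, 12, 13], [8, 1, 10,
    14], [11, 2, 1, 0, 9, 7, 15, 16], [12, 3, 11, 16], [15, 5, 9, 14]]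
  P := {
    a := 8
    N := 17
    nb := [802, 1341, 2090, 15430, 17666, 100999, 71688, 49696, 16915, 16801, 24602, 65644, 73800,
      5128, 34704, 82080, 39008]
    tri := [(0, 1, 5), (0, 1, 8), (0, 5, 9), (0, 8, 9), (1, 2, 3), (1, 2, 5), (1, 3, 10), (1, 4, 8),
      (1, 4, 10), (2, 3, 11), (2, 5, 11), (3, 6, 11), (3, 6, 12), (3, 10, 13), (3, 12, 13), (4, 8,
      14), (4, 10, 14), (5, 7, 9), (5, 7, 15), (5, 11, 16), (5, 15, 16), (6, 11, 16), (6, 12, 16),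
      (7, 9, 14), (7, 14, 15)]
    fin := [0, 0, 0, 3, 0, 5, 5, 5, 0, 5, 3, 3, 12, 13, 14, 15, 5]
    chd := [(0, 3), (3, 12)]
    steps := [(0, 1), (0, 2), (0, 4), (0, 8), (3, 11), (3, 10), (5, 7), (5, 9), (5, 16), (5, 6)] }
  rep := [3, 5, 12, 0, 14, 15, 13]

noncomputable def v3391 : Cov.CovD where
  P := 3
  N := 4
  pl := [5, 6, 7]
  lev := [⟨[], [], [(1, 3)], [], [(0, 3, [0]), (1, 1, [])]⟩,
    ⟨[], [(0, 0), (0, 1), (0, 3)], [(0, 3)], [], [(0, 3, [0]), (2, 0, [2, 3])]⟩,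
    ⟨[(0, 1)], [(1, 0), (1, 3)], [], [], [(3, 0, [2, 3])]⟩,
    ⟨[(0, 1), (1, 2)], [(1, 0), (1, 2), (1, 3), (2, 0), (2, 2)], [(0, 0), (0, 2)], [6],
      [(2, 0, [2, 3]), (3, 0, [2, 3]), (4, 2, [0])]⟩,
    ⟨[(0, 1), (1, 2), (1, 3)], [(0, 3), (1, 0), (1, 3), (3, 0)], [(0, 3)], [4], [(0, 3,
      [0]), (2, 0, [2, 3])]⟩,
    ⟨[(0, 1), (0, 2), (1, 2), (1, 3), (1, 4), (2, 3)], [(0, 0), (0, 1), (0, 3), (1, 0), (1,
      1), (1, 3), (2, 0), (2, 1), (3, 0)], [(0, 1), (1, 1)], [5], [(1, 1, []), (3, 0, [2,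
      3]), (8, 1, [])]⟩,
    ⟨[(1, 3), (2, 3)], [(2, 0), (3, 0), (3, 1), (3, 2), (5, 0), (5, 1)], [(0, 1), (0, 2),
      (1, 2)], [], [(3, 0, [2, 3]), (4, 2, [0]), (8, 1, [])]⟩,
    ⟨[(0, 5), (1, 5), (2, 5)], [(0, 1), (5, 0), (5, 1)], [], [4, 5], [(1, 1, [])]⟩]
  Ta := [((1, 0), 1, 3), ((1, 6), 1, 4), ((2, 5), 0, 6), ((2, 6), 0, 4), ((3, 8), 0, 1), ((8, 3),
    1, 0), ((8, 4), 1, 2), ((8, 7), 1, 5)]
  Tb := [((0, 1, 6), 3, 1, 4), ((1, 0, 6), 1, 3, 4), ((2, 5, 6), 0, 6, 4), ((4, 5, 8), 2, 6, 1),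
    ((5, 2, 4), 6, 0, 2), ((6, 0, 1), 4, 3, 1), ((6, 0, 2), 4, 3, 0), ((6, 0, 7), 4, 3, 5),
    ((6, 1, 2), 4, 1, 0), ((6, 1, 7), 4, 1, 5), ((6, 2, 7), 4, 0, 5), ((7, 6, 8), 5, 4, 1),
    ((8, 3, 4), 1, 0, 2), ((8, 3, 7), 1, 0, 5), ((8, 4, 7), 1, 2, 5)]
  Tc := [(0, 2, 3)]
  Td := [((0, 2), (2, 5), 6), ((0, 2), (2, 6), 4), ((0, 2), (3, 8), 1), ((0, 3), (2, 5), 6), ((0,
    3), (2, 6), 4), ((0, 3), (3, 8), 1), ((2, 0), (4, 5), 6), ((2, 0), (4, 8), 1), ((3, 0),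
    (0, 1), 1), ((3, 0), (0, 6), 4)]
  G := [[0, 0, 0x14d4c1415892c181d418c124e1, 0,
    0x41449144141148cea28218c188c1889888818cea18818c4849852ce888484ca1e1], [0, 0,
    0x2418c22818c16821, 0x2824c22424c2c121, 0x21b1c22428b8c22821b1c284e1], [0, 0,
    0x5498c142d414c122d218c184e1, 0,
    0x4842228218c1284812cd888588184da21849889248418d8c586e1], [0,
    0x181461421818a184a1414a1821814c1426c, 0x2414c11428c1c221, 0x244242818c22882cc21,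
    0x1828c2222818c22818c1a4a1]]

noncomputable def n3391 : Ent := ⟨e3391, noF, [], [], []⟩

def c3391 : PLift (Cov.check n3391.C.D v3391 = true) := ⟨by decide +kernel⟩

def b3391 : PLift (entF (fidx ts) 400 3391 n3391 = true) := ⟨by decide +kernel⟩

theorem g3391 : GoodF (fidx ts) 400 3391 := GoodF.ofV v3391 n3391 c3391.down b3391.down

/-- 47474844:2593/4 -/
noncomputable def e3392 : SCfg where
  D := {
    a := 8
    L := 10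
    kp := 7
    inn := [(0, 1), (0, 5), (1, 0), (1, 2), (1, 3), (1, 4), (1, 5), (2, 1), (2, 3), (2, 5), (3, 1), (3,
      2), (3, 6), (4, 1), (5, 0), (5, 1), (5, 2), (5, 7), (6, 3), (7, 5)]
    mix := [(0, 0), (0, 1), (1, 0), (1, 2), (2, 3), (3, 2), (3, 3), (3, 4), (3, 5), (4, 0), (4, 2), (4,
      6), (5, 1), (5, 3), (5, 7), (5, 8), (6, 3), (6, 4), (6, 9), (7, 1), (7, 6), (7, 7)]
    cl := [2, 1, 0, 0, 3, 6, 4, 5, 1, 7]
    chq := [(0, 2), (0, 3), (2, 0), (3, 0)]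
    rng := [(0, 1), (0, 6), (1, 0), (1, 6), (2, 5), (2, 6), (3, 8), (3, 9), (4, 5), (4, 9), (5, 2), (5,
      4), (6, 0), (6, 1), (6, 2), (6, 7), (7, 6), (7, 8), (8, 3), (8, 7), (9, 3), (9, 4)]
    lev := [] }
  links := [[1, 8, 9, 5], [8, 0, 5, 2, 3, 10, 4], [3, 1, 5, 11], [10, 1, 2, 11, 6, 12, 13], [8, 1, 10,
    14], [11, 2, 1, 0, 9, 7, 15, 16], [12, 3, 11, 17], [15, 5, 9, 14]]
  P := {
    a := 8
    N := 18
    nb := [802, 1341, 2090, 15430, 17666, 100999, 137224, 49696, 16915, 16801, 24602, 196716, 139336,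
      5128, 34704, 82080, 34848, 6208]
    tri := [(0, 1, 5), (0, 1, 8), (0, 5, 9), (0, 8, 9), (1, 2, 3), (1, 2, 5), (1, 3, 10), (1, 4, 8),
      (1, 4, 10), (2, 3, 11), (2, 5, 11), (3, 6, 11), (3, 6, 12), (3, 10, 13), (3, 12, 13), (4, 8,
      14), (4, 10, 14), (5, 7, 9), (5, 7, 15), (5, 11, 16), (5, 15, 16), (6, 11, 17), (6, 12, 17),
      (7, 9, 14), (7, 14, 15)]
    fin := [0, 0, 0, 3, 0, 5, 3, 5, 0, 5, 3, 3, 12, 13, 14, 15, 5, 17]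
    chd := [(0, 3), (3, 12)]
    steps := [(0, 1), (0, 2), (0, 4), (0, 8), (3, 6), (3, 11), (3, 10), (5, 7), (5, 9), (5, 16)] }
  rep := [3, 5, 0, 12, 14, 15, 13, 17]

noncomputable def v3392 : Cov.CovD where
  P := 3
  N := 5
  pl := [5, 6, 7, 9]
  lev := [⟨[], [], [(1, 2)], [], [(0, 2, [0]), (1, 1, [])]⟩,
    ⟨[], [(0, 0), (0, 1), (0, 2)], [(0, 2)], [], [(0, 2, [0]), (2, 0, [2, 3])]⟩,
    ⟨[(0, 1)], [(1, 0), (1, 2)], [], [], [(3, 0, [2, 3])]⟩,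
    ⟨[(0, 1), (1, 2)], [(1, 0), (1, 2), (1, 3), (2, 0), (2, 3)], [(0, 0), (0, 3)], [6],
      [(2, 0, [2, 3]), (3, 0, [2, 3]), (4, 3, [0])]⟩,
    ⟨[(0, 1), (1, 2), (1, 3)], [(0, 2), (1, 0), (1, 2), (3, 0)], [(0, 2)], [4], [(0, 2,
      [0]), (2, 0, [2, 3])]⟩,
    ⟨[(0, 1), (0, 2), (1, 2), (1, 3), (1, 4), (2, 3)], [(0, 0), (0, 1), (0, 2), (1, 0), (1,
      1), (1, 2), (2, 0), (2, 1), (3, 0)], [(0, 1), (1, 1)], [5], [(1, 1, []), (3, 0, [2,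
      3]), (8, 1, [])]⟩,
    ⟨[(1, 3), (2, 3)], [(2, 0), (3, 0), (3, 3), (5, 0)], [(0, 3)], [7], [(3, 0, [2, 3]),
      (4, 3, [0])]⟩,
    ⟨[(0, 5), (1, 5), (2, 5)], [(0, 1), (5, 0), (5, 1)], [], [4, 5], [(1, 1, [])]⟩]
  Ta := [((1, 0), 1, 2), ((1, 6), 1, 4), ((2, 5), 0, 6), ((2, 6), 0, 4), ((3, 8), 0, 1), ((3, 9),
    0, 7), ((8, 3), 1, 0), ((8, 7), 1, 5)]
  Tb := [((0, 1, 6), 2, 1, 4), ((1, 0, 6), 1, 2, 4), ((2, 5, 6), 0, 6, 4), ((3, 8, 9), 0, 1, 7),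
    ((4, 5, 9), 3, 6, 7), ((5, 2, 4), 6, 0, 3), ((6, 0, 1), 4, 2, 1), ((6, 0, 2), 4, 2, 0),
    ((6, 0, 7), 4, 2, 5), ((6, 1, 2), 4, 1, 0), ((6, 1, 7), 4, 1, 5), ((6, 2, 7), 4, 0, 5),
    ((7, 6, 8), 5, 4, 1), ((8, 3, 7), 1, 0, 5), ((9, 3, 4), 7, 0, 3)]
  Tc := [(0, 2, 3)]
  Td := [((0, 2), (2, 5), 6), ((0, 2), (2, 6), 4), ((0, 2), (3, 8), 1), ((0, 2), (3, 9), 7), ((0,
    3), (2, 5), 6), ((0, 3), (2, 6), 4), ((0, 3), (3, 8), 1), ((0, 3), (3, 9), 7), ((2, 0),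
    (0, 1), 1), ((2, 0), (0, 6), 4), ((3, 0), (4, 5), 6), ((3, 0), (4, 9), 7)]
  G := [[0, 0, 0x1141c428111c828111c1141cc8111c1141ccce21,
    0x4434411174111d445cc111d4111d449cce2888e11c118c8898888588e2c1,
    0x41422513822c1194147c24889111dc82883419c8885115c8c111e444ec28fa1], [0, 0,
    0x2111c2242111c241121c28ca1, 0, 0x2b3226e522c65a2ae5246622e355ec281a8], [0, 0,
    0x1191c1141cc28111c1141cc8111c1141ccca21,
    0x9dde41428555e999ec12511e8146888885dde111ec186c9,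
    0x555e999ec12511e9ddec146151ed9dec182a1], [0, 0x111e111e61111e111e6168111e111ea182c4,
    0x2142421121c211822111c2e2c8, 0, 0x111e422511e9ddec2151ed9dec2c61222e812483]]

noncomputable def n3392 : Ent := ⟨e3392, noF, [], [], [(16, 17, [6903326391201334775872065844685381424292761054348340378595029943578625, 0])]⟩

def c3392 : PLift (Cov.check n3392.C.D v3392 = true) := ⟨by decide +kernel⟩

def b3392 : PLift (entF (fidx ts) 400 3392 n3392 = true) := ⟨by decide +kernel⟩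

theorem g3392 : GoodF (fidx ts) 400 3392 := GoodF.ofV v3392 n3392 c3392.down b3392.down

/-- 47474844:2593/6 -/
noncomputable def e3393 : SCfg where
  D := {
    a := 8
    L := 10
    kp := 7
    inn := [(0, 1), (0, 5), (1, 0), (1, 2), (1, 3), (1, 4), (1, 5), (2, 1), (2, 3), (2, 5), (3, 1), (3,
      2), (3, 6), (4, 1), (5, 0), (5, 1), (5, 2), (5, 7), (6, 3), (7, 5)]
    mix := [(0, 0), (0, 1), (1, 0), (1, 2), (2, 3), (3, 2), (3, 3), (3, 4), (3, 5), (4, 0), (4, 2), (4,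
      6), (5, 1), (5, 3), (5, 7), (5, 8), (6, 3), (6, 4), (6, 8), (7, 1), (7, 7), (7, 9)]
    cl := [3, 1, 0, 0, 2, 5, 6, 4, 1, 7]
    chq := [(0, 2), (0, 3), (2, 0), (3, 0)]
    rng := [(0, 1), (0, 6), (1, 0), (1, 9), (2, 5), (2, 6), (3, 8), (4, 5), (4, 8), (5, 2), (5, 4), (6,
      0), (6, 2), (7, 8), (7, 9), (8, 3), (8, 4), (8, 7), (9, 1), (9, 7)]
    lev := [] }
  links := [[1, 8, 9, 5], [8, 0, 5, 2, 3, 10, 4], [3, 1, 5, 11], [10, 1, 2, 11, 6, 12, 13], [8, 1, 10,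
    14], [11, 2, 1, 0, 9, 7, 15, 16], [12, 3, 11, 16], [15, 5, 9, 17]]
  P := {
    a := 8
    N := 18
    nb := [802, 1341, 2090, 15430, 17666, 100999, 71688, 164384, 16915, 131489, 24602, 65644, 73800,
      5128, 1296, 196768, 39008, 33408]
    tri := [(0, 1, 5), (0, 1, 8), (0, 5, 9), (0, 8, 9), (1, 2, 3), (1, 2, 5), (1, 3, 10), (1, 4, 8),
      (1, 4, 10), (2, 3, 11), (2, 5, 11), (3, 6, 11), (3, 6, 12), (3, 10, 13), (3, 12, 13), (4, 8,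
      14), (4, 10, 14), (5, 7, 9), (5, 7, 15), (5, 11, 16), (5, 15, 16), (6, 11, 16), (6, 12, 16),
      (7, 9, 17), (7, 15, 17)]
    fin := [0, 0, 0, 3, 0, 5, 5, 5, 0, 5, 3, 3, 12, 13, 14, 15, 5, 17]
    chd := [(0, 3), (3, 12)]
    steps := [(0, 1), (0, 2), (0, 4), (0, 8), (3, 11), (3, 10), (5, 7), (5, 9), (5, 16), (5, 6)] }
  rep := [3, 5, 12, 0, 15, 13, 14, 17]

noncomputable def v3393 : Cov.CovD where
  P := 3
  N := 5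
  pl := [5, 6, 7, 9]
  lev := [⟨[], [], [(1, 3)], [], [(0, 3, [0]), (1, 1, [])]⟩,
    ⟨[], [(0, 0), (0, 1), (0, 3)], [(0, 3)], [], [(0, 3, [0]), (2, 0, [2, 3])]⟩,
    ⟨[(0, 1)], [(1, 0), (1, 3)], [], [], [(3, 0, [2, 3])]⟩,
    ⟨[(0, 1), (1, 2)], [(1, 0), (1, 2), (1, 3), (2, 0), (2, 2)], [(0, 0), (0, 2)], [5],
      [(2, 0, [2, 3]), (3, 0, [2, 3]), (4, 2, [0])]⟩,
    ⟨[(0, 1), (1, 2), (1, 3)], [(0, 3), (1, 0), (1, 3), (3, 0)], [(0, 3)], [6], [(0, 3,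
      [0]), (2, 0, [2, 3])]⟩,
    ⟨[(0, 1), (0, 2), (1, 2), (1, 3), (1, 4), (2, 3)], [(0, 0), (0, 1), (0, 3), (1, 0), (1,
      1), (1, 3), (2, 0), (2, 1), (3, 0)], [(0, 1), (1, 1)], [4], [(1, 1, []), (3, 0, [2,
      3]), (8, 1, [])]⟩,
    ⟨[(1, 3), (2, 3)], [(2, 0), (3, 0), (3, 1), (3, 2), (5, 0), (5, 1)], [(0, 1), (0, 2),
      (1, 2)], [], [(3, 0, [2, 3]), (4, 2, [0]), (8, 1, [])]⟩,
    ⟨[(0, 5), (1, 5), (2, 5)], [(0, 1), (5, 0), (5, 1)], [], [4, 7], [(1, 1, [])]⟩]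
  Ta := [((1, 0), 1, 3), ((1, 9), 1, 7), ((2, 5), 0, 5), ((2, 6), 0, 6), ((3, 8), 0, 1), ((8, 3),
    1, 0), ((8, 4), 1, 2), ((8, 7), 1, 4)]
  Tb := [((0, 1, 6), 3, 1, 6), ((1, 0, 9), 1, 3, 7), ((2, 5, 6), 0, 5, 6), ((4, 5, 8), 2, 5, 1),
    ((5, 2, 4), 5, 0, 2), ((6, 0, 2), 6, 3, 0), ((7, 8, 9), 4, 1, 7), ((8, 3, 4), 1, 0, 2),
    ((8, 3, 7), 1, 0, 4), ((8, 4, 7), 1, 2, 4), ((9, 1, 7), 7, 1, 4)]
  Tc := [(0, 2, 3)]
  Td := [((0, 2), (2, 5), 5), ((0, 2), (2, 6), 6), ((0, 2), (3, 8), 1), ((0, 3), (2, 5), 5), ((0,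
    3), (2, 6), 6), ((0, 3), (3, 8), 1), ((2, 0), (4, 5), 5), ((2, 0), (4, 8), 1), ((3, 0),
    (0, 1), 1), ((3, 0), (0, 6), 6)]
  G := [[0, 0, 0x52415441c192819881a49858c19858c1c2e1, 0,
    0x881222848184812a24514451458411d1cea2d812c928c988988d818cea19258c5249252ce988584ca1ed],
    [0, 0, 0x9824c12458c1c221, 0x24422824c2821c2821cec2121c2821c288e8c21,
    0x2858c221a831c2229828c3868c9828cea838c9828cca1e1], [0, 0,
    0x544144416892819814c1a29458c19244c1c2e1, 0,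
    0x5145843252418a928189818c988c2652442464145849a9889818ca9881ace1], [0,
    0x1818614214146188c1414c141418c18c2a, 0x9428c12458c1a121,
    0x24422821c2828c2428cdc2824c2882824c78c21, 0x9821c9828c9828c728b8ca131c9828cda421]]

noncomputable def n3393 : Ent := ⟨e3393, noF, [], [], [(17, 13, [6903326391226443182813612567740724581985591720012749800372886081622017, 0]), (17, 14, [6903326468334360900303599070699561856668565975414084080169086038044673, 0])]⟩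

def c3393 : PLift (Cov.check n3393.C.D v3393 = true) := ⟨by decide +kernel⟩

def b3393 : PLift (entF (fidx ts) 400 3393 n3393 = true) := ⟨by decide +kernel⟩

theorem g3393 : GoodF (fidx ts) 400 3393 := GoodF.ofV v3393 n3393 c3393.down b3393.down

/-- 47474844:2593 -/
noncomputable def e3394 : SCfg where
  D := {
    a := 8
    L := 11
    kp := 8
    inn := [(0, 1), (0, 5), (1, 0), (1, 2), (1, 3), (1, 4), (1, 5), (2, 1), (2, 3), (2, 5), (3, 1), (3,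
      2), (3, 6), (4, 1), (5, 0), (5, 1), (5, 2), (5, 7), (6, 3), (7, 5)]
    mix := [(0, 0), (0, 1), (1, 0), (1, 2), (2, 3), (3, 2), (3, 3), (3, 4), (3, 5), (4, 0), (4, 2), (4,
      6), (5, 1), (5, 3), (5, 7), (5, 8), (6, 3), (6, 4), (6, 9), (7, 1), (7, 7), (7, 10)]
    cl := [2, 1, 0, 0, 3, 5, 7, 4, 1, 6, 8]
    chq := [(0, 2), (2, 0), (5, 6), (6, 5)]
    rng := [(0, 1), (0, 6), (1, 0), (1, 10), (2, 5), (2, 6), (3, 8), (3, 9), (4, 5), (4, 9), (5, 2),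
      (5, 4), (6, 0), (6, 2), (7, 8), (7, 10), (8, 3), (8, 7), (9, 3), (9, 4), (10, 1), (10, 7)]
    lev := [] }
  links := [[1, 8, 9, 5], [8, 0, 5, 2, 3, 10, 4], [3, 1, 5, 11], [10, 1, 2, 11, 6, 12, 13], [8, 1, 10,
    14], [11, 2, 1, 0, 9, 7, 15, 16], [12, 3, 11, 17], [15, 5, 9, 18]]
  P := {
    a := 8
    N := 19
    nb := [802, 1341, 2090, 15430, 17666, 100999, 137224, 295456, 16915, 262561, 24602, 196716,
      139336, 5128, 1296, 327840, 34848, 6208, 33408]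
    tri := [(0, 1, 5), (0, 1, 8), (0, 5, 9), (0, 8, 9), (1, 2, 3), (1, 2, 5), (1, 3, 10), (1, 4, 8),
      (1, 4, 10), (2, 3, 11), (2, 5, 11), (3, 6, 11), (3, 6, 12), (3, 10, 13), (3, 12, 13), (4, 8,
      14), (4, 10, 14), (5, 7, 9), (5, 7, 15), (5, 11, 16), (5, 15, 16), (6, 11, 17), (6, 12, 17),
      (7, 9, 18), (7, 15, 18)]
    fin := [0, 1, 1, 3, 0, 5, 3, 5, 0, 5, 1, 1, 12, 13, 14, 15, 5, 3, 18]
    chd := [(0, 1), (13, 3)]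
    steps := [(0, 8), (0, 4), (1, 2), (1, 11), (1, 10), (3, 6), (3, 17), (5, 7), (5, 9), (5, 16)] }
  rep := [1, 5, 0, 12, 15, 13, 3, 14, 18]

noncomputable def v3394 : Cov.CovD where
  P := 3
  N := 6
  pl := [4, 6, 7, 10]
  lev := [⟨[], [], [(1, 2)], [], [(0, 2, [0]), (1, 1, [])]⟩,
    ⟨[], [(0, 0), (0, 1), (0, 2)], [(0, 2)], [], [(0, 2, [0]), (2, 0, [2])]⟩,
    ⟨[(0, 1)], [(1, 0), (1, 2)], [], [], [(3, 0, [2])]⟩,
    ⟨[(0, 1), (1, 2)], [(1, 0), (1, 2), (1, 5), (2, 0), (2, 5)], [(0, 0), (0, 5)], [3],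
      [(2, 0, [2]), (3, 0, [2]), (5, 5, [6])]⟩,
    ⟨[(0, 1), (1, 2), (1, 3)], [(0, 2), (1, 0), (1, 2), (3, 0)], [(0, 2)], [7], [(0, 2,
      [0]), (2, 0, [2])]⟩,
    ⟨[(0, 1), (0, 2), (1, 2), (1, 3), (1, 4), (2, 3)], [(0, 0), (0, 1), (0, 2), (1, 0), (1,
      1), (1, 2), (2, 0), (2, 1), (3, 0)], [(0, 1), (1, 1)], [4], [(1, 1, []), (3, 0, [2]),
      (8, 1, [])]⟩,
    ⟨[(1, 3), (2, 3)], [(2, 0), (3, 0), (3, 5), (3, 6), (5, 0)], [(0, 6)], [3], [(3, 0,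
      [2]), (9, 6, [5])]⟩,
    ⟨[(0, 5), (1, 5), (2, 5)], [(0, 1), (5, 0), (5, 1)], [], [4, 8], [(1, 1, [])]⟩]
  Ta := [((1, 0), 1, 2), ((1, 10), 1, 8), ((2, 5), 0, 5), ((2, 6), 0, 7), ((3, 8), 0, 1), ((3,
    9), 0, 6), ((8, 3), 1, 0), ((8, 7), 1, 4)]
  Tb := [((0, 1, 6), 2, 1, 7), ((1, 0, 10), 1, 2, 8), ((2, 5, 6), 0, 5, 7), ((3, 8, 9), 0, 1, 6),
    ((4, 5, 9), 3, 5, 6), ((5, 2, 4), 5, 0, 3), ((6, 0, 2), 7, 2, 0), ((7, 8, 10), 4, 1, 8),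
    ((8, 3, 7), 1, 0, 4), ((9, 3, 4), 6, 0, 3), ((10, 1, 7), 8, 1, 4)]
  Tc := []
  Td := [((0, 2), (2, 5), 5), ((0, 2), (2, 6), 7), ((0, 2), (3, 8), 1), ((0, 2), (3, 9), 6), ((2,
    0), (0, 1), 1), ((2, 0), (0, 6), 7), ((5, 6), (5, 2), 0), ((5, 6), (5, 4), 3), ((6, 5),
    (9, 3), 0), ((6, 5), (9, 4), 3)]
  G := [[0, 0, 0x556451465141155aca5144e541e482399689186999889a8a91899c11cae2c1,
    0x88a14444461888c5144153411ddacc415d41855ccce24d311c1938c99388c99c889c8c23c9,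
    0x88c122285d54221182241424148ae99511c29111c8a996556c899a55ac99a55acac5a9], [0, 0,
    0xd2682e61a823122c2b94624aac946b144e2a18ca6b144398a282484585, 0,
    0x31ba9c2245234222a559c269a1ca2151c8e975225c9268a8ca1], [0, 0,
    0x51455946211822c818918c2996556c995553cc999559c99951ccc6a1,
    0x5564155a4155c41e29968199c81a99a8146c1, 0x55c412899c812996556c199a55ac1c6a1], [0,
    0x1161166111a11aa111c11cc1e284, 0x2253462d543124da6131c218b5cca429184929259c9a926accc229,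
    0, 0x22cbbcc124296b26c1822a55ac146a1]]

noncomputable def n3394 : Ent := ⟨e3394, noF, [], [], [(18, 12, [30043303427623734946886902823669633300641601170841725730158335185036492801, 0]), (18, 13, [30043303427623766323200606511878119329438635046271951140223122772107452417, 0]), (18, 14, [30043303427726578972524504956108985724401353414501291620047999193394184193, 0]), (16, 17, [31810150492402119267275227079217218666319002904815489586567506653227520001, 0])]⟩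

def c3394 : PLift (Cov.check n3394.C.D v3394 = true) := ⟨by decide +kernel⟩

def b3394 : PLift (entF (fidx ts) 400 3394 n3394 = true) := ⟨by decide +kernel⟩

theorem g3394 : GoodF (fidx ts) 400 3394 := GoodF.ofV v3394 n3394 c3394.down b3394.down

/-- 47474844:2594/2 -/
noncomputable def e3395 : SCfg where
  D := {
    a := 8
    L := 9
    kp := 6
    inn := [(0, 1), (0, 5), (1, 0), (1, 2), (1, 3), (1, 4), (1, 5), (2, 1), (2, 3), (2, 5), (3, 1), (3,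
      2), (3, 6), (4, 1), (5, 0), (5, 1), (5, 2), (5, 7), (6, 3), (7, 5)]
    mix := [(0, 0), (0, 1), (1, 0), (1, 2), (2, 3), (3, 2), (3, 3), (3, 4), (3, 5), (4, 0), (4, 2), (4,
      6), (5, 1), (5, 3), (5, 7), (5, 8), (6, 2), (6, 5), (6, 6), (7, 1), (7, 5), (7, 7)]
    cl := [3, 1, 0, 0, 6, 2, 4, 5, 1]
    chq := [(0, 2), (0, 3), (2, 0), (3, 0)]
    rng := [(0, 1), (0, 6), (1, 0), (1, 5), (2, 6), (3, 4), (3, 8), (4, 3), (4, 5), (5, 1), (5, 4), (5,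
      6), (5, 7), (6, 0), (6, 2), (6, 5), (7, 5), (7, 8), (8, 3), (8, 7)]
    lev := [] }
  links := [[1, 8, 9, 5], [8, 0, 5, 2, 3, 10, 4], [3, 1, 5, 11], [10, 1, 2, 11, 12, 13, 6], [8, 1, 10,
    14], [11, 2, 1, 0, 9, 7, 15, 16], [10, 3, 13, 14], [15, 5, 9, 13]]
  P := {
    a := 8
    N := 17
    nb := [802, 1341, 2090, 15430, 17666, 100999, 25608, 41504, 16915, 8609, 16474, 69676, 10248,
      53960, 9552, 73888, 34848]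
    tri := [(0, 1, 5), (0, 1, 8), (0, 5, 9), (0, 8, 9), (1, 2, 3), (1, 2, 5), (1, 3, 10), (1, 4, 8),
      (1, 4, 10), (2, 3, 11), (2, 5, 11), (3, 6, 10), (3, 6, 13), (3, 11, 12), (3, 12, 13), (4, 8,
      14), (4, 10, 14), (5, 7, 9), (5, 7, 15), (5, 11, 16), (5, 15, 16), (6, 10, 14), (6, 13, 14),
      (7, 9, 13), (7, 13, 15)]
    fin := [0, 1, 1, 3, 0, 5, 3, 5, 0, 5, 1, 1, 12, 3, 14, 15, 5]
    chd := [(0, 1), (1, 3)]
    steps := [(0, 8), (0, 4), (1, 2), (1, 11), (1, 10), (3, 6), (3, 13), (5, 7), (5, 9), (5, 16)] }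
  rep := [1, 5, 3, 0, 14, 15, 12]

noncomputable def v3395 : Cov.CovD where
  P := 3
  N := 4
  pl := [4, 6, 7]
  lev := [⟨[], [], [(1, 3)], [], [(0, 3, [0]), (1, 1, [])]⟩,
    ⟨[], [(0, 0), (0, 1), (0, 3)], [(0, 3)], [], [(0, 3, [0]), (2, 0, [2, 3])]⟩,
    ⟨[(0, 1)], [(1, 0), (1, 3)], [], [], [(3, 0, [2, 3])]⟩,
    ⟨[(0, 1), (1, 2)], [(1, 0), (1, 2), (1, 3), (2, 0), (2, 2)], [(0, 0), (0, 2)], [6],
      [(2, 0, [2, 3]), (3, 0, [2, 3]), (5, 2, [0])]⟩,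
    ⟨[(0, 1), (1, 2), (1, 3)], [(0, 3), (1, 0), (1, 3), (3, 0)], [(0, 3)], [4], [(0, 3,
      [0]), (2, 0, [2, 3])]⟩,
    ⟨[(0, 1), (0, 2), (1, 2), (1, 3), (1, 4), (2, 3)], [(0, 0), (0, 1), (0, 3), (1, 0), (1,
      1), (1, 3), (2, 0), (2, 1), (3, 0)], [(0, 1), (1, 1)], [5], [(1, 1, []), (3, 0, [2,
      3]), (8, 1, [])]⟩,
    ⟨[(1, 3), (2, 3)], [(1, 0), (3, 0), (3, 2), (4, 0)], [(0, 2)], [4], [(2, 0, [2, 3]),
      (5, 2, [0])]⟩,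
    ⟨[(0, 5), (1, 5), (2, 5)], [(0, 1), (3, 2), (5, 0), (5, 1), (5, 2), (6, 2)], [(1, 2)],
      [5], [(1, 1, []), (5, 2, [0])]⟩]
  Ta := [((1, 0), 1, 3), ((1, 5), 1, 2), ((2, 6), 0, 4), ((3, 4), 0, 6), ((3, 8), 0, 1), ((8, 3),
    1, 0), ((8, 7), 1, 5)]
  Tb := [((0, 1, 6), 3, 1, 4), ((1, 0, 5), 1, 3, 2), ((3, 4, 8), 0, 6, 1), ((4, 3, 5), 6, 0, 2),
    ((5, 1, 4), 2, 1, 6), ((5, 1, 6), 2, 1, 4), ((5, 1, 7), 2, 1, 5), ((5, 4, 6), 2, 6, 4),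
    ((5, 4, 7), 2, 6, 5), ((5, 6, 7), 2, 4, 5), ((6, 0, 2), 4, 3, 0), ((6, 0, 5), 4, 3, 2),
    ((6, 2, 5), 4, 0, 2), ((7, 5, 8), 5, 2, 1), ((8, 3, 7), 1, 0, 5)]
  Tc := [(0, 2, 3)]
  Td := [((0, 2), (2, 6), 4), ((0, 2), (3, 4), 6), ((0, 2), (3, 8), 1), ((0, 3), (2, 6), 4), ((0,
    3), (3, 4), 6), ((0, 3), (3, 8), 1), ((2, 0), (5, 1), 1), ((2, 0), (5, 4), 6), ((2, 0),
    (5, 6), 4), ((2, 0), (5, 7), 5), ((3, 0), (0, 1), 1), ((3, 0), (0, 6), 4)]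
  G := [[0, 0, 0xc211c211a84116446c111c44cc16825, 0x88c44cc288c11cc2c121,
    0x12449841241292cea198488a8c88a89246a11898c1848212ce888184ca1e1], [0, 0,
    0x12a146c118614ac1c221, 0, 0x1222c2241242282822c8818c8818c2212ce8828c8828cca4e1], [0, 0,
    0x82c4a9182411a416c12181644ac142a5, 0x41421141c2c11828c21,
    0x11a92c124114818924d8189845a28212c8818c3914114ca4e1], [0,
    0x11c11c61421818a84146c8291821484414842348184cc238c2b, 0x88c41cc1116146c1c221, 0,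
    0x2111c2241828c8122c8818cb8121c8828c5a4a1]]

noncomputable def n3395 : Ent := ⟨e3395, noF, [], [], []⟩

def c3395 : PLift (Cov.check n3395.C.D v3395 = true) := ⟨by decide +kernel⟩

def b3395 : PLift (entF (fidx ts) 400 3395 n3395 = true) := ⟨by decide +kernel⟩

theorem g3395 : GoodF (fidx ts) 400 3395 := GoodF.ofV v3395 n3395 c3395.down b3395.down

/-- 47474844:2594/1 -/
noncomputable def e3396 : SCfg where
  D := {
    a := 8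
    L := 10
    kp := 7
    inn := [(0, 1), (0, 5), (1, 0), (1, 2), (1, 3), (1, 4), (1, 5), (2, 1), (2, 3), (2, 5), (3, 1), (3,
      2), (3, 6), (4, 1), (5, 0), (5, 1), (5, 2), (5, 7), (6, 3), (7, 5)]
    mix := [(0, 0), (0, 1), (1, 0), (1, 2), (2, 3), (3, 2), (3, 3), (3, 4), (3, 5), (4, 0), (4, 2), (4,
      6), (5, 1), (5, 3), (5, 7), (5, 8), (6, 2), (6, 5), (6, 9), (7, 1), (7, 5), (7, 7)]
    cl := [2, 1, 0, 0, 5, 3, 7, 4, 1, 6]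
    chq := [(0, 2), (2, 0), (5, 6), (6, 5)]
    rng := [(0, 1), (0, 6), (1, 0), (1, 5), (2, 6), (2, 9), (3, 4), (3, 8), (4, 3), (4, 5), (5, 1), (5,
      4), (5, 7), (5, 9), (6, 0), (6, 2), (7, 5), (7, 8), (8, 3), (8, 7), (9, 2), (9, 5)]
    lev := [] }
  links := [[1, 8, 9, 5], [8, 0, 5, 2, 3, 10, 4], [3, 1, 5, 11], [10, 1, 2, 11, 12, 13, 6], [8, 1, 10,
    14], [11, 2, 1, 0, 9, 7, 15, 16], [10, 3, 13, 17], [15, 5, 9, 13]]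
  P := {
    a := 8
    N := 18
    nb := [802, 1341, 2090, 15430, 17666, 100999, 140296, 41504, 16915, 8609, 147546, 69676, 10248,
      168648, 1296, 73888, 34848, 9280]
    tri := [(0, 1, 5), (0, 1, 8), (0, 5, 9), (0, 8, 9), (1, 2, 3), (1, 2, 5), (1, 3, 10), (1, 4, 8),
      (1, 4, 10), (2, 3, 11), (2, 5, 11), (3, 6, 10), (3, 6, 13), (3, 11, 12), (3, 12, 13), (4, 8,
      14), (4, 10, 14), (5, 7, 9), (5, 7, 15), (5, 11, 16), (5, 15, 16), (6, 10, 17), (6, 13, 17),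
      (7, 9, 13), (7, 13, 15)]
    fin := [0, 1, 1, 3, 0, 5, 3, 5, 0, 5, 1, 1, 3, 13, 14, 15, 5, 17]
    chd := [(0, 1), (3, 17)]
    steps := [(0, 8), (0, 4), (1, 2), (1, 11), (1, 10), (3, 6), (3, 12), (5, 7), (5, 9), (5, 16)] }
  rep := [1, 5, 0, 13, 15, 3, 17, 14]

noncomputable def v3396 : Cov.CovD where
  P := 3
  N := 5
  pl := [5, 6, 7]
  lev := [⟨[], [], [(1, 2)], [], [(0, 2, [0]), (1, 1, [])]⟩,
    ⟨[], [(0, 0), (0, 1), (0, 2)], [(0, 2)], [], [(0, 2, [0]), (2, 0, [2])]⟩,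
    ⟨[(0, 1)], [(1, 0), (1, 2)], [], [], [(3, 0, [2])]⟩,
    ⟨[(0, 1), (1, 2)], [(1, 0), (1, 2), (1, 5), (2, 0), (2, 5)], [(0, 0), (0, 5)], [3],
      [(2, 0, [2]), (3, 0, [2]), (4, 5, [6])]⟩,
    ⟨[(0, 1), (1, 2), (1, 3)], [(0, 2), (1, 0), (1, 2), (3, 0)], [(0, 2)], [7], [(0, 2,
      [0]), (2, 0, [2])]⟩,
    ⟨[(0, 1), (0, 2), (1, 2), (1, 3), (1, 4), (2, 3)], [(0, 0), (0, 1), (0, 2), (1, 0), (1,
      1), (1, 2), (2, 0), (2, 1), (3, 0)], [(0, 1), (1, 1)], [4], [(1, 1, []), (3, 0, [2]),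
      (8, 1, [])]⟩,
    ⟨[(1, 3), (2, 3)], [(1, 0), (3, 0), (3, 5), (3, 6), (4, 0)], [(0, 6)], [3], [(2, 0,
      [2]), (9, 6, [5])]⟩,
    ⟨[(0, 5), (1, 5), (2, 5)], [(0, 1), (5, 0), (5, 1)], [], [3, 4], [(1, 1, [])]⟩]
  Ta := [((1, 0), 1, 2), ((1, 5), 1, 3), ((2, 6), 0, 7), ((2, 9), 0, 6), ((3, 4), 0, 5), ((3, 8),
    0, 1), ((8, 3), 1, 0), ((8, 7), 1, 4)]
  Tb := [((0, 1, 6), 2, 1, 7), ((1, 0, 5), 1, 2, 3), ((2, 6, 9), 0, 7, 6), ((3, 4, 8), 0, 5, 1),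
    ((4, 3, 5), 5, 0, 3), ((5, 1, 4), 3, 1, 5), ((5, 1, 7), 3, 1, 4), ((5, 1, 9), 3, 1, 6),
    ((5, 4, 7), 3, 5, 4), ((5, 4, 9), 3, 5, 6), ((5, 7, 9), 3, 4, 6), ((6, 0, 2), 7, 2, 0),
    ((7, 5, 8), 4, 3, 1), ((8, 3, 7), 1, 0, 4), ((9, 2, 5), 6, 0, 3)]
  Tc := []
  Td := [((0, 2), (2, 6), 7), ((0, 2), (2, 9), 6), ((0, 2), (3, 4), 5), ((0, 2), (3, 8), 1), ((2,
    0), (0, 1), 1), ((2, 0), (0, 6), 7), ((5, 6), (4, 3), 0), ((5, 6), (4, 5), 3), ((6, 5),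
    (9, 2), 0), ((6, 5), (9, 5), 3)]
  G := [[0, 0, 0x88311c88611ca81c88198ca121144ac11443c641544154c6185,
    0x12444241242ccc44414c4c238212c828c128881c18c81c8ce2c1,
    0x15c91cc221886116c886416ca81a44ac81a44aca81c14cc8e1a1], [0, 0,
    0x8221982229a81c8312259aa22212461884964244425446885, 0,
    0x4246222ca14c412c24cca618222c2212ca228821c88e1a1], [0, 0,
    0x44a41144acc4415411495c62388611c88611ca8198281c84e1a1, 0x12411242c114c41e2828181c81a4c1,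
    0x85c11cc12886416c181a44ac1c621], [0, 0x11116442118161111ac1111a811821811c4de2c8,
    0x8882212242c2242ca24425c11425cc68211c8222cc8a61, 0, 0x2242c148222c182c21cc1ac21]]

noncomputable def n3396 : Ent := ⟨e3396, noF, [], [], [(17, 14, [6903326468334360900303599070699561856668565975414084080169086038061057, 0])]⟩

def c3396 : PLift (Cov.check n3396.C.D v3396 = true) := ⟨by decide +kernel⟩

def b3396 : PLift (entF (fidx ts) 400 3396 n3396 = true) := ⟨by decide +kernel⟩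

theorem g3396 : GoodF (fidx ts) 400 3396 := GoodF.ofV v3396 n3396 c3396.down b3396.down

/-- 47474844:2594/4 -/
noncomputable def e3397 : SCfg where
  D := {
    a := 8
    L := 9
    kp := 6
    inn := [(0, 1), (0, 5), (1, 0), (1, 2), (1, 3), (1, 4), (1, 5), (2, 1), (2, 3), (2, 5), (3, 1), (3,
      2), (3, 6), (4, 1), (5, 0), (5, 1), (5, 2), (5, 7), (6, 3), (7, 5)]
    mix := [(0, 0), (0, 1), (1, 0), (1, 2), (2, 3), (3, 2), (3, 3), (3, 4), (3, 5), (4, 0), (4, 2), (4,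
      6), (5, 1), (5, 3), (5, 7), (5, 8), (6, 2), (6, 5), (6, 6), (7, 1), (7, 6), (7, 7)]
    cl := [1, 0, 3, 3, 6, 4, 2, 5, 0]
    chq := [(1, 3), (2, 6), (3, 1), (6, 2)]
    rng := [(0, 1), (0, 6), (1, 0), (1, 6), (2, 6), (3, 4), (3, 8), (4, 3), (4, 5), (5, 4), (5, 6), (6,
      0), (6, 1), (6, 2), (6, 5), (6, 7), (7, 6), (7, 8), (8, 3), (8, 7)]
    lev := [] }
  links := [[1, 8, 9, 5], [8, 0, 5, 2, 3, 10, 4], [3, 1, 5, 11], [10, 1, 2, 11, 12, 13, 6], [8, 1, 10,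
    14], [11, 2, 1, 0, 9, 7, 15, 16], [10, 3, 13, 14], [15, 5, 9, 14]]
  P := {
    a := 8
    N := 17
    nb := [802, 1341, 2090, 15430, 17666, 100999, 25608, 49696, 16915, 16801, 16474, 69676, 10248,
      20552, 42960, 82080, 34848]
    tri := [(0, 1, 5), (0, 1, 8), (0, 5, 9), (0, 8, 9), (1, 2, 3), (1, 2, 5), (1, 3, 10), (1, 4, 8),
      (1, 4, 10), (2, 3, 11), (2, 5, 11), (3, 6, 10), (3, 6, 13), (3, 11, 12), (3, 12, 13), (4, 8,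
      14), (4, 10, 14), (5, 7, 9), (5, 7, 15), (5, 11, 16), (5, 15, 16), (6, 10, 14), (6, 13, 14),
      (7, 9, 14), (7, 14, 15)]
    fin := [0, 1, 1, 3, 0, 5, 3, 5, 0, 5, 1, 1, 12, 13, 3, 15, 5]
    chd := [(0, 1), (12, 3)]
    steps := [(0, 8), (0, 4), (1, 2), (1, 11), (1, 10), (3, 6), (3, 14), (5, 7), (5, 9), (5, 16)] }
  rep := [5, 0, 3, 1, 13, 15, 12]

noncomputable def v3397 : Cov.CovD where
  P := 3
  N := 4
  pl := [5, 7]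
  lev := [⟨[], [], [(0, 1)], [], [(0, 1, [3]), (1, 0, [])]⟩,
    ⟨[], [(0, 0), (0, 1), (0, 3)], [(1, 3)], [], [(0, 1, [3]), (2, 3, [1])]⟩,
    ⟨[(0, 1)], [(1, 1), (1, 3)], [], [], [(3, 3, [1])]⟩,
    ⟨[(0, 1), (1, 2)], [(1, 1), (1, 3), (1, 6), (2, 3), (2, 6)], [(3, 3), (3, 6)], [4],
      [(2, 3, [1]), (3, 3, [1]), (4, 6, [2])]⟩,
    ⟨[(0, 1), (1, 2), (1, 3)], [(0, 1), (1, 1), (1, 2), (1, 3), (3, 3)], [(1, 2), (1, 3),
      (2, 3)], [], [(0, 1, [3]), (2, 3, [1]), (6, 2, [6])]⟩,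
    ⟨[(0, 1), (0, 2), (1, 2), (1, 3), (1, 4), (2, 3)], [(0, 0), (0, 1), (0, 3), (1, 0), (1,
      1), (1, 3), (2, 0), (2, 3), (3, 3)], [(0, 0), (0, 3)], [5], [(1, 0, []), (3, 3, [1]),
      (8, 0, [])]⟩,
    ⟨[(1, 3), (2, 3)], [(1, 3), (3, 2), (3, 3), (3, 6), (4, 2), (4, 3)], [(2, 3)], [4],
      [(2, 3, [1]), (6, 2, [6])]⟩,
    ⟨[(0, 5), (1, 5), (2, 5)], [(0, 0), (4, 2), (5, 0), (5, 2), (5, 3), (6, 2)], [(0, 2)],
      [5], [(1, 0, []), (6, 2, [6])]⟩]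
  Ta := [((1, 0), 0, 1), ((1, 6), 0, 2), ((2, 6), 3, 2), ((3, 4), 3, 6), ((3, 8), 3, 0), ((8, 3),
    0, 3), ((8, 7), 0, 5)]
  Tb := [((0, 1, 6), 1, 0, 2), ((1, 0, 6), 0, 1, 2), ((3, 4, 8), 3, 6, 0), ((4, 3, 5), 6, 3, 4),
    ((5, 4, 6), 4, 6, 2), ((6, 0, 1), 2, 1, 0), ((6, 0, 2), 2, 1, 3), ((6, 0, 5), 2, 1, 4),
    ((6, 0, 7), 2, 1, 5), ((6, 1, 2), 2, 0, 3), ((6, 1, 5), 2, 0, 4), ((6, 1, 7), 2, 0, 5),
    ((6, 2, 5), 2, 3, 4), ((6, 2, 7), 2, 3, 5), ((6, 5, 7), 2, 4, 5), ((7, 6, 8), 5, 2, 0),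
    ((8, 3, 7), 0, 3, 5)]
  Tc := []
  Td := [((1, 3), (0, 1), 0), ((1, 3), (0, 6), 2), ((2, 6), (6, 0), 1), ((2, 6), (6, 1), 0), ((2,
    6), (6, 2), 3), ((2, 6), (6, 5), 4), ((2, 6), (6, 7), 5), ((3, 1), (2, 6), 2), ((3, 1),
    (3, 4), 6), ((3, 1), (3, 8), 0), ((6, 2), (4, 3), 3), ((6, 2), (4, 5), 4)]
  G := [[0, 0xc42441c8288c524a1c42444544c42471e44928c12834c82888988a4ac, 0x88a44aa4462c6ac1414,
    0xcccd212414, 0xa14112a141128a321a2416a848a8341cad8], [0,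
    0xc828c128924c1288898854ccde8614a, 0x88aaa6cc6e81214, 0xcc5282114,
    0xa841a2483a148aa388368c518], [0, 0, 0, 0xc95d212818,
    0xa1411291411211388361122261638488ad8], [0, 0, 0, 0x19c282148d242918,
    0x211b2892483248738481882c9849c618]]

noncomputable def n3397 : Ent := ⟨e3397, noF, [], [], []⟩

def c3397 : PLift (Cov.check n3397.C.D v3397 = true) := ⟨by decide +kernel⟩

def b3397 : PLift (entF (fidx ts) 400 3397 n3397 = true) := ⟨by decide +kernel⟩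

theorem g3397 : GoodF (fidx ts) 400 3397 := GoodF.ofV v3397 n3397 c3397.down b3397.down

/-- 47474844:2594/3 -/
noncomputable def e3398 : SCfg where
  D := {
    a := 8
    L := 10
    kp := 7
    inn := [(0, 1), (0, 5), (1, 0), (1, 2), (1, 3), (1, 4), (1, 5), (2, 1), (2, 3), (2, 5), (3, 1), (3,
      2), (3, 6), (4, 1), (5, 0), (5, 1), (5, 2), (5, 7), (6, 3), (7, 5)]
    mix := [(0, 0), (0, 1), (1, 0), (1, 2), (2, 3), (3, 2), (3, 3), (3, 4), (3, 5), (4, 0), (4, 2), (4,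
      6), (5, 1), (5, 3), (5, 7), (5, 8), (6, 2), (6, 5), (6, 9), (7, 1), (7, 7), (7, 9)]
    cl := [2, 1, 0, 0, 6, 4, 7, 5, 1, 3]
    chq := [(0, 2), (2, 0), (3, 6), (6, 3)]
    rng := [(0, 1), (0, 6), (1, 0), (1, 9), (2, 6), (2, 9), (3, 4), (3, 8), (4, 3), (4, 5), (5, 4), (5,
      9), (6, 0), (6, 2), (7, 8), (7, 9), (8, 3), (8, 7), (9, 1), (9, 2), (9, 5), (9, 7)]
    lev := [] }
  links := [[1, 8, 9, 5], [8, 0, 5, 2, 3, 10, 4], [3, 1, 5, 11], [10, 1, 2, 11, 12, 13, 6], [8, 1, 10,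
    14], [11, 2, 1, 0, 9, 7, 15, 16], [10, 3, 13, 17], [15, 5, 9, 17]]
  P := {
    a := 8
    N := 18
    nb := [802, 1341, 2090, 15430, 17666, 100999, 140296, 164384, 16915, 131489, 147546, 69676, 10248,
      135240, 1296, 196768, 34848, 42688]
    tri := [(0, 1, 5), (0, 1, 8), (0, 5, 9), (0, 8, 9), (1, 2, 3), (1, 2, 5), (1, 3, 10), (1, 4, 8),
      (1, 4, 10), (2, 3, 11), (2, 5, 11), (3, 6, 10), (3, 6, 13), (3, 11, 12), (3, 12, 13), (4, 8,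
      14), (4, 10, 14), (5, 7, 9), (5, 7, 15), (5, 11, 16), (5, 15, 16), (6, 10, 17), (6, 13, 17),
      (7, 9, 17), (7, 15, 17)]
    fin := [0, 1, 1, 3, 0, 5, 3, 5, 0, 5, 1, 1, 12, 13, 14, 15, 5, 3]
    chd := [(0, 1), (12, 3)]
    steps := [(0, 8), (0, 4), (1, 2), (1, 11), (1, 10), (3, 6), (3, 17), (5, 7), (5, 9), (5, 16)] }
  rep := [1, 5, 0, 3, 13, 15, 12, 14]

noncomputable def v3398 : Cov.CovD where
  P := 3
  N := 5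
  pl := [5, 6, 7]
  lev := [⟨[], [], [(1, 2)], [], [(0, 2, [0]), (1, 1, [])]⟩,
    ⟨[], [(0, 0), (0, 1), (0, 2)], [(0, 2)], [], [(0, 2, [0]), (2, 0, [2])]⟩,
    ⟨[(0, 1)], [(1, 0), (1, 2)], [], [], [(3, 0, [2])]⟩,
    ⟨[(0, 1), (1, 2)], [(1, 0), (1, 2), (1, 6), (2, 0), (2, 6)], [(0, 0), (0, 6)], [4],
      [(2, 0, [2]), (3, 0, [2]), (4, 6, [3])]⟩,
    ⟨[(0, 1), (1, 2), (1, 3)], [(0, 2), (1, 0), (1, 2), (3, 0)], [(0, 2)], [7], [(0, 2,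
      [0]), (2, 0, [2])]⟩,
    ⟨[(0, 1), (0, 2), (1, 2), (1, 3), (1, 4), (2, 3)], [(0, 0), (0, 1), (0, 2), (1, 0), (1,
      1), (1, 2), (2, 0), (2, 1), (3, 0)], [(0, 1), (1, 1)], [5], [(1, 1, []), (3, 0, [2]),
      (8, 1, [])]⟩,
    ⟨[(1, 3), (2, 3)], [(1, 0), (3, 0), (3, 3), (3, 6), (4, 0)], [(0, 3)], [4], [(2, 0,
      [2]), (9, 3, [6])]⟩,
    ⟨[(0, 5), (1, 5), (2, 5)], [(0, 1), (5, 0), (5, 1), (5, 3), (6, 3)], [(1, 3)], [5],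
      [(1, 1, []), (9, 3, [6])]⟩]
  Ta := [((1, 0), 1, 2), ((1, 9), 1, 3), ((2, 6), 0, 7), ((2, 9), 0, 3), ((3, 4), 0, 6), ((3, 8),
    0, 1), ((8, 3), 1, 0), ((8, 7), 1, 5)]
  Tb := [((0, 1, 6), 2, 1, 7), ((1, 0, 9), 1, 2, 3), ((2, 6, 9), 0, 7, 3), ((3, 4, 8), 0, 6, 1),
    ((4, 3, 5), 6, 0, 4), ((5, 4, 9), 4, 6, 3), ((6, 0, 2), 7, 2, 0), ((7, 8, 9), 5, 1, 3),
    ((8, 3, 7), 1, 0, 5), ((9, 1, 2), 3, 1, 0), ((9, 1, 5), 3, 1, 4), ((9, 1, 7), 3, 1, 5),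
    ((9, 2, 5), 3, 0, 4), ((9, 2, 7), 3, 0, 5), ((9, 5, 7), 3, 4, 5)]
  Tc := []
  Td := [((0, 2), (2, 6), 7), ((0, 2), (2, 9), 3), ((0, 2), (3, 4), 6), ((0, 2), (3, 8), 1), ((2,
    0), (0, 1), 1), ((2, 0), (0, 6), 7), ((3, 6), (9, 1), 1), ((3, 6), (9, 2), 0), ((3, 6),
    (9, 5), 4), ((3, 6), (9, 7), 5), ((6, 3), (4, 3), 0), ((6, 3), (4, 5), 4)]
  G := [[0, 0, 0x11495c11994ccc215591cd13143cc818e513c9151ccca21,
    0x8414484461888c45644141e411a949ecc524524ce1dd618c811e8c89a88928928ce1c5,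
    0x8212248449e42211c822a811e456c811e456ca818e141ec89a141eca89c54cc8e1a9], [0, 0,
    0x32229648a222311c211382122a9ac6436215431449844e868, 0,
    0x32a241ec25247222ca61812e236c222c88a226456c882a241ec8c6a1], [0, 0,
    0x11d1c811b455ca858d11acd119ac6118d415c11d1cce121, 0x528121964115a99ac19841e65568182c4,
    0x11c94cc12196456c18da11ac1ca21], [0, 0x11811c292126116c111a11aa11184e648,
    0x11621c21321ca1122ac8c123282216211123c443248278c, 0, 0x32412414812226416c112a21ac1c6a8]]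

noncomputable def n3398 : Ent := ⟨e3398, noF, [], [], [(17, 14, [6903326468334360900303599070699561856668565975414084080169086038069249, 0])]⟩

def c3398 : PLift (Cov.check n3398.C.D v3398 = true) := ⟨by decide +kernel⟩

def b3398 : PLift (entF (fidx ts) 400 3398 n3398 = true) := ⟨by decide +kernel⟩

theorem g3398 : GoodF (fidx ts) 400 3398 := GoodF.ofV v3398 n3398 c3398.down b3398.down

/-- 47474844:2594/5 -/
noncomputable def e3399 : SCfg where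
  D := {
    a := 8
    L := 10
    kp := 7
    inn := [(0, 1), (0, 5), (1, 0), (1, 2), (1, 3), (1, 4), (1, 5), (2, 1), (2, 3), (2, 5), (3, 1), (3,
      2), (3, 6), (4, 1), (5, 0), (5, 1), (5, 2), (5, 7), (6, 3), (7, 5)]
    mix := [(0, 0), (0, 1), (1, 0), (1, 2), (2, 3), (3, 2), (3, 3), (3, 4), (3, 5), (4, 0), (4, 2), (4,
      6), (5, 1), (5, 3), (5, 7), (5, 8), (6, 2), (6, 5), (6, 9), (7, 1), (7, 6), (7, 7)]
    cl := [3, 1, 0, 0, 6, 4, 2, 5, 1, 7]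
    chq := [(0, 3), (3, 0), (6, 7), (7, 6)]
    rng := [(0, 1), (0, 6), (1, 0), (1, 6), (2, 6), (2, 9), (3, 4), (3, 8), (4, 3), (4, 5), (5, 4), (5,
      9), (6, 0), (6, 1), (6, 2), (6, 7), (7, 6), (7, 8), (8, 3), (8, 7), (9, 2), (9, 5)]
    lev := [] }
  links := [[1, 8, 9, 5], [8, 0, 5, 2, 3, 10, 4], [3, 1, 5, 11], [10, 1, 2, 11, 12, 13, 6], [8, 1, 10,
    14], [11, 2, 1, 0, 9, 7, 15, 16], [10, 3, 13, 17], [15, 5, 9, 14]]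
  P := {
    a := 8
    N := 18
    nb := [802, 1341, 2090, 15430, 17666, 100999, 140296, 49696, 16915, 16801, 147546, 69676, 10248,
      135240, 34704, 82080, 34848, 9280]
    tri := [(0, 1, 5), (0, 1, 8), (0, 5, 9), (0, 8, 9), (1, 2, 3), (1, 2, 5), (1, 3, 10), (1, 4, 8),
      (1, 4, 10), (2, 3, 11), (2, 5, 11), (3, 6, 10), (3, 6, 13), (3, 11, 12), (3, 12, 13), (4, 8,
      14), (4, 10, 14), (5, 7, 9), (5, 7, 15), (5, 11, 16), (5, 15, 16), (6, 10, 17), (6, 13, 17),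
      (7, 9, 14), (7, 14, 15)]
    fin := [0, 1, 1, 3, 0, 5, 3, 5, 0, 5, 1, 1, 3, 13, 14, 15, 5, 17]
    chd := [(0, 1), (3, 17)]
    steps := [(0, 8), (0, 4), (1, 2), (1, 11), (1, 10), (3, 6), (3, 12), (5, 7), (5, 9), (5, 16)] }
  rep := [1, 5, 14, 0, 13, 15, 3, 17]

noncomputable def v3399 : Cov.CovD where
  P := 3
  N := 5
  pl := [5, 6, 7]
  lev := [⟨[], [], [(1, 3)], [], [(0, 3, [0]), (1, 1, [])]⟩,
    ⟨[], [(0, 0), (0, 1), (0, 3)], [(0, 3)], [], [(0, 3, [0]), (2, 0, [3])]⟩,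
    ⟨[(0, 1)], [(1, 0), (1, 3)], [], [], [(3, 0, [3])]⟩,
    ⟨[(0, 1), (1, 2)], [(1, 0), (1, 3), (1, 6), (2, 0), (2, 6)], [(0, 0), (0, 6)], [4],
      [(2, 0, [3]), (3, 0, [3]), (4, 6, [7])]⟩,
    ⟨[(0, 1), (1, 2), (1, 3)], [(0, 3), (1, 0), (1, 3), (3, 0)], [(0, 3)], [2], [(0, 3,
      [0]), (2, 0, [3])]⟩,
    ⟨[(0, 1), (0, 2), (1, 2), (1, 3), (1, 4), (2, 3)], [(0, 0), (0, 1), (0, 3), (1, 0), (1,
      1), (1, 3), (2, 0), (2, 1), (3, 0)], [(0, 1), (1, 1)], [5], [(1, 1, []), (3, 0, [3]),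
      (8, 1, [])]⟩,
    ⟨[(1, 3), (2, 3)], [(1, 0), (3, 0), (3, 6), (3, 7), (4, 0)], [(0, 7)], [4], [(2, 0,
      [3]), (9, 7, [6])]⟩,
    ⟨[(0, 5), (1, 5), (2, 5)], [(0, 1), (5, 0), (5, 1)], [], [2, 5], [(1, 1, [])]⟩]
  Ta := [((1, 0), 1, 3), ((1, 6), 1, 2), ((2, 6), 0, 2), ((2, 9), 0, 7), ((3, 4), 0, 6), ((3, 8),
    0, 1), ((8, 3), 1, 0), ((8, 7), 1, 5)]
  Tb := [((0, 1, 6), 3, 1, 2), ((1, 0, 6), 1, 3, 2), ((2, 6, 9), 0, 2, 7), ((3, 4, 8), 0, 6, 1),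
    ((4, 3, 5), 6, 0, 4), ((5, 4, 9), 4, 6, 7), ((6, 0, 1), 2, 3, 1), ((6, 0, 2), 2, 3, 0),
    ((6, 0, 7), 2, 3, 5), ((6, 1, 2), 2, 1, 0), ((6, 1, 7), 2, 1, 5), ((6, 2, 7), 2, 0, 5),
    ((7, 6, 8), 5, 2, 1), ((8, 3, 7), 1, 0, 5), ((9, 2, 5), 7, 0, 4)]
  Tc := []
  Td := [((0, 3), (2, 6), 2), ((0, 3), (2, 9), 7), ((0, 3), (3, 4), 6), ((0, 3), (3, 8), 1), ((3,
    0), (0, 1), 1), ((3, 0), (0, 6), 2), ((6, 7), (4, 3), 0), ((6, 7), (4, 5), 4), ((7, 6),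
    (9, 2), 0), ((7, 6), (9, 5), 4)]
  G := [[0, 0, 0x4464444a4844c48e18868888a8888c84e1886446c288a44ac288c844c4ce1e1,
    0x116446c186446cc18a41ac88a44acc88c44cc88c44ccce121,
    0x11a4899c4861886116c828a88a8888c888c11ccae184196c288a11ac2c1e1], [0, 0,
    0x226446c288a22ac288c24cc88c24ccce121, 0, 0x21c42288c822c886226c288a22ac293c48e161], [0,
    0, 0, 0x115445c828111c428141c885445cc889443c88a41ac5ce21,
    0x19548291a4846818818c8818aa1164188a811142e611a42488611c28182cce1], [0,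
    0x1162411a2411c24e414148288c8128184464988a44ac1ce25, 0, 0,
    0x81822421424185213c288982219412c49ec61]]

noncomputable def n3399 : Ent := ⟨e3399, noF, [], [], [(14, 17, [6903326391201334775872065844685381424292761054348340378595029943603201, 0])]⟩

def c3399 : PLift (Cov.check n3399.C.D v3399 = true) := ⟨by decide +kernel⟩

def b3399 : PLift (entF (fidx ts) 400 3399 n3399 = true) := ⟨by decide +kernel⟩

theorem g3399 : GoodF (fidx ts) 400 3399 := GoodF.ofV v3399 n3399 c3399.down b3399.down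

/-- 47474844:2594/6 -/
noncomputable def e3400 : SCfg where
  D := {
    a := 8
    L := 10
    kp := 7
    inn := [(0, 1), (0, 5), (1, 0), (1, 2), (1, 3), (1, 4), (1, 5), (2, 1), (2, 3), (2, 5), (3, 1), (3,
      2), (3, 6), (4, 1), (5, 0), (5, 1), (5, 2), (5, 7), (6, 3), (7, 5)]
    mix := [(0, 0), (0, 1), (1, 0), (1, 2), (2, 3), (3, 2), (3, 3), (3, 4), (3, 5), (4, 0), (4, 2), (4,
      6), (5, 1), (5, 3), (5, 7), (5, 8), (6, 2), (6, 5), (6, 6), (7, 1), (7, 7), (7, 9)]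
    cl := [1, 3, 0, 0, 6, 4, 2, 5, 3, 7]
    chq := [(0, 1), (1, 0), (2, 6), (6, 2)]
    rng := [(0, 1), (0, 6), (1, 0), (1, 9), (2, 6), (3, 4), (3, 8), (4, 3), (4, 5), (5, 4), (5, 6), (6,
      0), (6, 2), (6, 5), (7, 8), (7, 9), (8, 3), (8, 7), (9, 1), (9, 7)]
    lev := [] }
  links := [[1, 8, 9, 5], [8, 0, 5, 2, 3, 10, 4], [3, 1, 5, 11], [10, 1, 2, 11, 12, 13, 6], [8, 1, 10,
    14], [11, 2, 1, 0, 9, 7, 15, 16], [10, 3, 13, 14], [15, 5, 9, 17]]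
  P := {
    a := 8
    N := 18
    nb := [802, 1341, 2090, 15430, 17666, 100999, 25608, 164384, 16915, 131489, 16474, 69676, 10248,
      20552, 9552, 196768, 34848, 33408]
    tri := [(0, 1, 5), (0, 1, 8), (0, 5, 9), (0, 8, 9), (1, 2, 3), (1, 2, 5), (1, 3, 10), (1, 4, 8),
      (1, 4, 10), (2, 3, 11), (2, 5, 11), (3, 6, 10), (3, 6, 13), (3, 11, 12), (3, 12, 13), (4, 8,
      14), (4, 10, 14), (5, 7, 9), (5, 7, 15), (5, 11, 16), (5, 15, 16), (6, 10, 14), (6, 13, 14),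
      (7, 9, 17), (7, 15, 17)]
    fin := [0, 1, 1, 3, 0, 5, 3, 5, 0, 5, 1, 1, 3, 13, 14, 15, 5, 17]
    chd := [(0, 1), (3, 14)]
    steps := [(0, 8), (0, 4), (1, 2), (1, 11), (1, 10), (3, 6), (3, 12), (5, 7), (5, 9), (5, 16)] }
  rep := [1, 0, 14, 5, 13, 15, 3, 17]

noncomputable def v3400 : Cov.CovD where
  P := 3
  N := 5
  pl := [5, 7, 9]
  lev := [⟨[], [], [(1, 3)], [], [(0, 1, [0]), (1, 3, [])]⟩,
    ⟨[], [(0, 0), (0, 1), (0, 3)], [(0, 1)], [], [(0, 1, [0]), (2, 0, [1])]⟩,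
    ⟨[(0, 1)], [(1, 0), (1, 1)], [], [], [(3, 0, [1])]⟩,
    ⟨[(0, 1), (1, 2)], [(1, 0), (1, 1), (1, 6), (2, 0), (2, 6)], [(0, 0), (0, 6)], [4],
      [(2, 0, [1]), (3, 0, [1]), (4, 6, [2])]⟩,
    ⟨[(0, 1), (1, 2), (1, 3)], [(0, 1), (1, 0), (1, 1), (1, 2), (3, 0)], [(0, 1), (0, 2),
      (1, 2)], [], [(0, 1, [0]), (2, 0, [1]), (6, 2, [6])]⟩,
    ⟨[(0, 1), (0, 2), (1, 2), (1, 3), (1, 4), (2, 3)], [(0, 0), (0, 1), (0, 3), (1, 0), (1,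
      1), (1, 3), (2, 0), (2, 3), (3, 0)], [(0, 3), (3, 3)], [5], [(1, 3, []), (3, 0, [1]),
      (8, 3, [])]⟩,
    ⟨[(1, 3), (2, 3)], [(1, 0), (3, 0), (3, 2), (3, 6), (4, 0), (4, 2)], [(0, 2)], [4],
      [(2, 0, [1]), (6, 2, [6])]⟩,
    ⟨[(0, 5), (1, 5), (2, 5)], [(0, 3), (5, 0), (5, 3)], [], [5, 7], [(1, 3, [])]⟩]
  Ta := [((1, 0), 3, 1), ((1, 9), 3, 7), ((2, 6), 0, 2), ((3, 4), 0, 6), ((3, 8), 0, 3), ((8, 3),
    3, 0), ((8, 7), 3, 5)]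
  Tb := [((0, 1, 6), 1, 3, 2), ((1, 0, 9), 3, 1, 7), ((3, 4, 8), 0, 6, 3), ((4, 3, 5), 6, 0, 4),
    ((5, 4, 6), 4, 6, 2), ((6, 0, 2), 2, 1, 0), ((6, 0, 5), 2, 1, 4), ((6, 2, 5), 2, 0, 4),
    ((7, 8, 9), 5, 3, 7), ((8, 3, 7), 3, 0, 5), ((9, 1, 7), 7, 3, 5)]
  Tc := []
  Td := [((0, 1), (2, 6), 2), ((0, 1), (3, 4), 6), ((0, 1), (3, 8), 3), ((1, 0), (0, 1), 3), ((1,
    0), (0, 6), 2), ((2, 6), (6, 0), 1), ((2, 6), (6, 2), 0), ((2, 6), (6, 5), 4), ((6, 2),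
    (4, 3), 0), ((6, 2), (4, 5), 4)]
  G := [[0, 0x44445144a1911838e8312899c339a8e19454c442e1,
    0x54346452446446448a981838e899a889232a8e1c1, 0x45c442199c1833ce821c1,
    0x481882455a33a68524861d81878e899a889238a8e1c5], [0,
    0xa1a434235a194a2144858ccc242441494c85548cca86, 0x821823494a4b44681262a428844838ac8945,
    0x44c88c3ece82841, 0x421823858687844a88ca499aaaa38488a268238c], [0,
    0x38289131a8a2828459858c8945414e45148e161, 0, 0x55c339642899c8824c1,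
    0x2128452415111685841e69838a89212aa8a918846c1], [0,
    0x382866c18a46454c841698a8c88c828a1c1686349, 0, 0x44988cee9e42481,
    0x88a33a618241688c871a842e2a8a88484188c645]]

noncomputable def n3400 : Ent := ⟨e3400, noF, [], [], [(17, 13, [6903326391226443182813612567740724581985591720012749800372886081646593, 0]), (17, 14, [6903326468334360900303599070699561856668565975414084080169086038069249, 0])]⟩

def c3400 : PLift (Cov.check n3400.C.D v3400 = true) := ⟨by decide +kernel⟩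

def b3400 : PLift (entF (fidx ts) 400 3400 n3400 = true) := ⟨by decide +kernel⟩

theorem g3400 : GoodF (fidx ts) 400 3400 := GoodF.ofV v3400 n3400 c3400.down b3400.down

/-- 47474844:2594 -/
noncomputable def e3401 : SCfg where
  D := {
    a := 8
    L := 11
    kp := 8
    inn := [(0, 1), (0, 5), (1, 0), (1, 2), (1, 3), (1, 4), (1, 5), (2, 1), (2, 3), (2, 5), (3, 1), (3,
      2), (3, 6), (4, 1), (5, 0), (5, 1), (5, 2), (5, 7), (6, 3), (7, 5)]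
    mix := [(0, 0), (0, 1), (1, 0), (1, 2), (2, 3), (3, 2), (3, 3), (3, 4), (3, 5), (4, 0), (4, 2), (4,
      6), (5, 1), (5, 3), (5, 7), (5, 8), (6, 2), (6, 5), (6, 9), (7, 1), (7, 7), (7, 10)]
    cl := [2, 1, 0, 0, 5, 3, 7, 4, 1, 6, 8]
    chq := [(0, 2), (2, 0), (5, 6), (6, 5)]
    rng := [(0, 1), (0, 6), (1, 0), (1, 10), (2, 6), (2, 9), (3, 4), (3, 8), (4, 3), (4, 5), (5, 4),
      (5, 9), (6, 0), (6, 2), (7, 8), (7, 10), (8, 3), (8, 7), (9, 2), (9, 5), (10, 1), (10, 7)]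
    lev := [] }
  links := [[1, 8, 9, 5], [8, 0, 5, 2, 3, 10, 4], [3, 1, 5, 11], [10, 1, 2, 11, 12, 13, 6], [8, 1, 10,
    14], [11, 2, 1, 0, 9, 7, 15, 16], [10, 3, 13, 17], [15, 5, 9, 18]]
  P := {
    a := 8
    N := 19
    nb := [802, 1341, 2090, 15430, 17666, 100999, 140296, 295456, 16915, 262561, 147546, 69676, 10248,
      135240, 1296, 327840, 34848, 9280, 33408]
    tri := [(0, 1, 5), (0, 1, 8), (0, 5, 9), (0, 8, 9), (1, 2, 3), (1, 2, 5), (1, 3, 10), (1, 4, 8),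
      (1, 4, 10), (2, 3, 11), (2, 5, 11), (3, 6, 10), (3, 6, 13), (3, 11, 12), (3, 12, 13), (4, 8,
      14), (4, 10, 14), (5, 7, 9), (5, 7, 15), (5, 11, 16), (5, 15, 16), (6, 10, 17), (6, 13, 17),
      (7, 9, 18), (7, 15, 18)]
    fin := [0, 1, 1, 3, 0, 5, 3, 5, 0, 5, 1, 1, 3, 13, 14, 15, 5, 17, 18]
    chd := [(0, 1), (3, 17)]
    steps := [(0, 8), (0, 4), (1, 2), (1, 11), (1, 10), (3, 6), (3, 12), (5, 7), (5, 9), (5, 16)] }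
  rep := [1, 5, 0, 13, 15, 3, 17, 14, 18]

noncomputable def v3401 : Cov.CovD where
  P := 3
  N := 6
  pl := [5, 6, 7, 10]
  lev := [⟨[], [], [(1, 2)], [], [(0, 2, [0]), (1, 1, [])]⟩,
    ⟨[], [(0, 0), (0, 1), (0, 2)], [(0, 2)], [], [(0, 2, [0]), (2, 0, [2])]⟩,
    ⟨[(0, 1)], [(1, 0), (1, 2)], [], [], [(3, 0, [2])]⟩,
    ⟨[(0, 1), (1, 2)], [(1, 0), (1, 2), (1, 5), (2, 0), (2, 5)], [(0, 0), (0, 5)], [3],
      [(2, 0, [2]), (3, 0, [2]), (4, 5, [6])]⟩,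
    ⟨[(0, 1), (1, 2), (1, 3)], [(0, 2), (1, 0), (1, 2), (3, 0)], [(0, 2)], [7], [(0, 2,
      [0]), (2, 0, [2])]⟩,
    ⟨[(0, 1), (0, 2), (1, 2), (1, 3), (1, 4), (2, 3)], [(0, 0), (0, 1), (0, 2), (1, 0), (1,
      1), (1, 2), (2, 0), (2, 1), (3, 0)], [(0, 1), (1, 1)], [4], [(1, 1, []), (3, 0, [2]),
      (8, 1, [])]⟩,
    ⟨[(1, 3), (2, 3)], [(1, 0), (3, 0), (3, 5), (3, 6), (4, 0)], [(0, 6)], [3], [(2, 0,
      [2]), (9, 6, [5])]⟩,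
    ⟨[(0, 5), (1, 5), (2, 5)], [(0, 1), (5, 0), (5, 1)], [], [4, 8], [(1, 1, [])]⟩]
  Ta := [((1, 0), 1, 2), ((1, 10), 1, 8), ((2, 6), 0, 7), ((2, 9), 0, 6), ((3, 4), 0, 5), ((3,
    8), 0, 1), ((8, 3), 1, 0), ((8, 7), 1, 4)]
  Tb := [((0, 1, 6), 2, 1, 7), ((1, 0, 10), 1, 2, 8), ((2, 6, 9), 0, 7, 6), ((3, 4, 8), 0, 5, 1),
    ((4, 3, 5), 5, 0, 3), ((5, 4, 9), 3, 5, 6), ((6, 0, 2), 7, 2, 0), ((7, 8, 10), 4, 1, 8),
    ((8, 3, 7), 1, 0, 4), ((9, 2, 5), 6, 0, 3), ((10, 1, 7), 8, 1, 4)]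
  Tc := []
  Td := [((0, 2), (2, 6), 7), ((0, 2), (2, 9), 6), ((0, 2), (3, 4), 5), ((0, 2), (3, 8), 1), ((2,
    0), (0, 1), 1), ((2, 0), (0, 6), 7), ((5, 6), (4, 3), 0), ((5, 6), (4, 5), 3), ((6, 5),
    (9, 2), 0), ((6, 5), (9, 5), 3)]
  G := [[0, 0, 0x9998889989118c661198751c996553c6514199553cc45945454ce161,
    0x88a14455c44254461882c5564455a411addaccc55c4823dd6116c9968c99a8899c899c8ce1c9,
    0x8cc1222815cd9cc221996556c996556ca99a55ac99a55aca99c55cc8e1a9], [0, 0,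
    0x4392a953ca26356611cd5245662665336c214a81c9182812d88a449, 0,
    0x22c463ca6cca21926256c996226ca93a2aac92a25aca99c88e1a1], [0, 0,
    0x91553c996555ca9151c99a559cc99c55cc9151cce121, 0x55a4155c416556418a99c8129968199a81c6c1,
    0x5142225148299c812996556c199a55ac1cea1], [0, 0x116418241162111a11aa111c11ca1e48c,
    0x226e192261c6182a91a28822516e245c3429d3445dc44e1cd98821ca, 0,
    0xbac412423c812226556c127a52ac1c6a8]]

noncomputable def n3401 : Ent := ⟨e3401, noF, [], [], [(18, 13, [30043303427623766323200606511878119329438635046271951140223122772107476993, 0]), (18, 17, [31810150492402119267275227079217218666319002904815489586567506653227540481, 0]), (18, 14, [30043303427726578972524504956108985724401353414501291620047999193394212865, 0]), (17, 14, [31810150492479252293399658612443232846751378709736555330269080709322014721, 0])]⟩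

def c3401 : PLift (Cov.check n3401.C.D v3401 = true) := ⟨by decide +kernel⟩

def b3401 : PLift (entF (fidx ts) 400 3401 n3401 = true) := ⟨by decide +kernel⟩

theorem g3401 : GoodF (fidx ts) 400 3401 := GoodF.ofV v3401 n3401 c3401.down b3401.down

/-- 47494454:2606/1 -/
noncomputable def e3402 : SCfg where
  D := {
    a := 8
    L := 10
    kp := 7
    inn := [(0, 1), (1, 0), (1, 2), (1, 3), (1, 4), (2, 1), (2, 3), (3, 1), (3, 2), (3, 5), (3, 6), (3,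
      7), (4, 1), (5, 3), (5, 6), (6, 3), (6, 5), (7, 3)]
    mix := [(0, 0), (0, 1), (0, 2), (1, 0), (1, 2), (1, 3), (2, 2), (2, 4), (3, 3), (3, 4), (3, 5), (3,
      6), (4, 0), (4, 3), (4, 7), (5, 1), (5, 4), (6, 1), (6, 5), (6, 8), (7, 5), (7, 6), (7, 9)]
    cl := [3, 4, 1, 0, 0, 0, 2, 5, 6, 7]
    chq := [(0, 3), (1, 3), (3, 0), (3, 1)]
    rng := [(0, 1), (0, 7), (1, 0), (1, 2), (1, 4), (1, 8), (2, 1), (2, 4), (3, 6), (3, 7), (4, 1), (4,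
      2), (5, 8), (5, 9), (6, 3), (6, 9), (7, 0), (7, 3), (8, 1), (8, 5), (9, 5), (9, 6)]
    lev := [] }
  links := [[1, 8, 9, 10], [8, 0, 10, 2, 3, 11, 4], [3, 1, 10, 12], [11, 1, 2, 12, 5, 6, 13, 7, 14], [8,
    1, 11, 15], [6, 3, 12, 9], [13, 3, 5, 9, 16], [14, 3, 13, 17]]
  P := {
    a := 8
    N := 18
    nb := [1794, 3357, 5130, 30950, 35074, 4680, 74280, 155656, 33299, 71009, 4615, 49178, 1580,
      196808, 133256, 2320, 8768, 24704]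
    tri := [(0, 1, 8), (0, 1, 10), (0, 8, 9), (0, 9, 10), (1, 2, 3), (1, 2, 10), (1, 3, 11), (1, 4, 8),
      (1, 4, 11), (2, 3, 12), (2, 10, 12), (3, 5, 6), (3, 5, 12), (3, 6, 13), (3, 7, 13), (3, 7,
      14), (3, 11, 14), (4, 8, 15), (4, 11, 15), (5, 6, 9), (5, 9, 12), (6, 9, 16), (6, 13, 16),
      (7, 13, 17), (7, 14, 17)]
    fin := [0, 0, 0, 3, 0, 5, 5, 3, 0, 5, 10, 3, 3, 3, 14, 15, 16, 17]
    chd := [(0, 3), (0, 10)]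
    steps := [(0, 1), (0, 2), (0, 4), (0, 8), (3, 7), (3, 12), (3, 13), (3, 11), (5, 6), (5, 9)] }
  rep := [3, 10, 14, 0, 5, 15, 16, 17]

noncomputable def v3402 : Cov.CovD where
  P := 3
  N := 5
  pl := [1, 6, 7, 8, 9]
  lev := [⟨[], [], [(1, 3)], [4], [(0, 3, [0, 1]), (2, 1, [3])]⟩,
    ⟨[], [(0, 0), (0, 1), (0, 3)], [(0, 1), (0, 3), (1, 3)], [], [(0, 3, [0, 1]), (2, 1,
      [3]), (3, 0, [3])]⟩,
    ⟨[(0, 1)], [(0, 1), (1, 0), (1, 1), (1, 3)], [(0, 1)], [], [(2, 1, [3]), (4, 0, [3])]⟩,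
    ⟨[(0, 1), (1, 2)], [(1, 0), (1, 1), (1, 3), (2, 0), (2, 1)], [(0, 0)], [2], [(3, 0,
      [3]), (4, 0, [3]), (5, 0, [3])]⟩,
    ⟨[(0, 1), (1, 2), (1, 3)], [(0, 3), (1, 0), (1, 1), (1, 3), (3, 0)], [(0, 3)], [5],
      [(0, 3, [0, 1]), (3, 0, [3])]⟩,
    ⟨[(1, 3), (2, 3)], [(2, 0), (3, 0)], [], [4], [(4, 0, [3])]⟩,
    ⟨[(1, 3), (2, 3), (3, 5)], [(3, 0), (5, 0)], [], [4, 6], [(5, 0, [3])]⟩,
    ⟨[(1, 3), (2, 3), (3, 5), (3, 6)], [(3, 0), (6, 0)], [], [2, 7], [(5, 0, [3])]⟩]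
  Ta := [((3, 6), 0, 2), ((3, 7), 0, 5), ((4, 1), 0, 4), ((4, 2), 0, 1), ((5, 8), 0, 6), ((5, 9),
    0, 7)]
  Tb := [((0, 1, 7), 3, 4, 5), ((1, 0, 2), 4, 3, 1), ((1, 0, 4), 4, 3, 0), ((1, 0, 8), 4, 3, 6),
    ((1, 2, 4), 4, 1, 0), ((1, 2, 8), 4, 1, 6), ((1, 4, 8), 4, 0, 6), ((2, 1, 4), 1, 4, 0),
    ((3, 6, 7), 0, 2, 5), ((4, 1, 2), 0, 4, 1), ((5, 8, 9), 0, 6, 7), ((6, 3, 9), 2, 0, 7),
    ((7, 0, 3), 5, 3, 0), ((8, 1, 5), 6, 4, 0), ((9, 5, 6), 7, 0, 2)]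
  Tc := [(3, 0, 1)]
  Td := [((0, 3), (3, 6), 2), ((0, 3), (3, 7), 5), ((0, 3), (4, 1), 4), ((0, 3), (4, 2), 1), ((0,
    3), (5, 8), 6), ((0, 3), (5, 9), 7), ((1, 3), (2, 1), 4), ((1, 3), (2, 4), 0), ((3, 0),
    (0, 1), 4), ((3, 0), (0, 7), 5), ((3, 1), (0, 1), 4), ((3, 1), (0, 7), 5)]
  G := [[0, 0, 0xc1c1661c1aa246161a61a1c681c1, 0xc18141e4181c1ea41c1c16c1c16681c1,
    0xa1a1ca1a1ca21a1a1ca12181e628c1], [0, 0xc181428c141824c121482e, 0,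
    0x11a814481164188441c1a8143441418c12143418181811a8bc8cd,
    0x11a8124811641284a141164a24a18a18628cd], [0, 0, 0,
    0xc1c1a189c16c8ce17444144138c888144cce118cc1, 0xa4a8a51222218caa9e122a4a262225a884a5c1]]

noncomputable def n3402 : Ent := ⟨e3402, noF, [], [], []⟩

def c3402 : PLift (Cov.check n3402.C.D v3402 = true) := ⟨by decide +kernel⟩

def b3402 : PLift (entF (fidx ts) 400 3402 n3402 = true) := ⟨by decide +kernel⟩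

theorem g3402 : GoodF (fidx ts) 400 3402 := GoodF.ofV v3402 n3402 c3402.down b3402.down

/-- 47494454:2606/2 -/
noncomputable def e3403 : SCfg where
  D := {
    a := 8
    L := 10
    kp := 7
    inn := [(0, 1), (1, 0), (1, 2), (1, 3), (1, 4), (2, 1), (2, 3), (3, 1), (3, 2), (3, 5), (3, 6), (3,
      7), (4, 1), (5, 3), (5, 6), (6, 3), (6, 5), (7, 3)]
    mix := [(0, 0), (0, 1), (0, 2), (1, 0), (1, 2), (1, 3), (2, 2), (2, 4), (3, 3), (3, 4), (3, 5), (3,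
      6), (4, 0), (4, 3), (4, 7), (5, 4), (5, 8), (6, 1), (6, 5), (6, 8), (7, 5), (7, 6), (7, 9)]
    cl := [3, 4, 1, 0, 0, 0, 2, 6, 5, 7]
    chq := [(0, 3), (1, 3), (3, 0), (3, 1)]
    rng := [(0, 1), (0, 7), (1, 0), (1, 2), (1, 5), (1, 8), (2, 1), (2, 4), (3, 6), (3, 7), (4, 2), (4,
      8), (5, 1), (5, 9), (6, 3), (6, 9), (7, 0), (7, 3), (8, 1), (8, 4), (9, 5), (9, 6)]
    lev := [] }
  links := [[1, 8, 9, 10], [8, 0, 10, 2, 3, 11, 4], [3, 1, 10, 12], [11, 1, 2, 12, 5, 6, 13, 7, 14], [8,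
    1, 11, 15], [6, 3, 12, 16], [13, 3, 5, 16, 9], [14, 3, 13, 17]]
  P := {
    a := 8
    N := 18
    nb := [1794, 3357, 5130, 30950, 35074, 69704, 74280, 155656, 33299, 75073, 4615, 49178, 66604,
      131784, 133256, 2320, 4704, 24704]
    tri := [(0, 1, 8), (0, 1, 10), (0, 8, 9), (0, 9, 10), (1, 2, 3), (1, 2, 10), (1, 3, 11), (1, 4, 8),
      (1, 4, 11), (2, 3, 12), (2, 10, 12), (3, 5, 6), (3, 5, 12), (3, 6, 13), (3, 7, 13), (3, 7,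
      14), (3, 11, 14), (4, 8, 15), (4, 11, 15), (5, 6, 16), (5, 12, 16), (6, 9, 13), (6, 9, 16),
      (7, 13, 17), (7, 14, 17)]
    fin := [0, 0, 0, 3, 0, 5, 5, 3, 0, 5, 10, 3, 3, 3, 14, 15, 16, 17]
    chd := [(0, 3), (0, 10)]
    steps := [(0, 1), (0, 2), (0, 4), (0, 8), (3, 7), (3, 12), (3, 13), (3, 11), (5, 6), (5, 9)] }
  rep := [3, 10, 14, 0, 5, 16, 15, 17]

noncomputable def v3403 : Cov.CovD where
  P := 3
  N := 5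
  pl := [1, 6, 7, 8, 9]
  lev := [⟨[], [], [(1, 3)], [4], [(0, 3, [0, 1]), (2, 1, [3])]⟩,
    ⟨[], [(0, 0), (0, 1), (0, 3)], [(0, 1), (0, 3), (1, 3)], [], [(0, 3, [0, 1]), (2, 1,
      [3]), (3, 0, [3])]⟩,
    ⟨[(0, 1)], [(0, 1), (1, 0), (1, 1), (1, 3)], [(0, 1)], [], [(2, 1, [3]), (4, 0, [3])]⟩,
    ⟨[(0, 1), (1, 2)], [(1, 0), (1, 1), (1, 3), (2, 0), (2, 1)], [(0, 0)], [2], [(3, 0,
      [3]), (4, 0, [3]), (5, 0, [3])]⟩,
    ⟨[(0, 1), (1, 2), (1, 3)], [(0, 3), (1, 0), (1, 1), (1, 3), (3, 0)], [(0, 3)], [6],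
      [(0, 3, [0, 1]), (3, 0, [3])]⟩,
    ⟨[(1, 3), (2, 3)], [(2, 0), (3, 0)], [], [5], [(4, 0, [3])]⟩,
    ⟨[(1, 3), (2, 3), (3, 5)], [(3, 0), (5, 0)], [], [4, 5], [(5, 0, [3])]⟩,
    ⟨[(1, 3), (2, 3), (3, 5), (3, 6)], [(3, 0), (6, 0)], [], [2, 7], [(5, 0, [3])]⟩]
  Ta := [((3, 6), 0, 2), ((3, 7), 0, 6), ((4, 2), 0, 1), ((4, 8), 0, 5), ((5, 1), 0, 4), ((5, 9),
    0, 7)]
  Tb := [((0, 1, 7), 3, 4, 6), ((1, 0, 2), 4, 3, 1), ((1, 0, 5), 4, 3, 0), ((1, 0, 8), 4, 3, 5),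
    ((1, 2, 5), 4, 1, 0), ((1, 2, 8), 4, 1, 5), ((1, 5, 8), 4, 0, 5), ((2, 1, 4), 1, 4, 0),
    ((3, 6, 7), 0, 2, 6), ((4, 2, 8), 0, 1, 5), ((5, 1, 9), 0, 4, 7), ((6, 3, 9), 2, 0, 7),
    ((7, 0, 3), 6, 3, 0), ((8, 1, 4), 5, 4, 0), ((9, 5, 6), 7, 0, 2)]
  Tc := [(3, 0, 1)]
  Td := [((0, 3), (3, 6), 2), ((0, 3), (3, 7), 6), ((0, 3), (4, 2), 1), ((0, 3), (4, 8), 5), ((0,
    3), (5, 1), 4), ((0, 3), (5, 9), 7), ((1, 3), (2, 1), 4), ((1, 3), (2, 4), 0), ((3, 0),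
    (0, 1), 4), ((3, 0), (0, 7), 6), ((3, 1), (0, 1), 4), ((3, 1), (0, 7), 6)]
  G := [[0, 0, 0xa12a1a1aa614864a1c1aa1c1a628c1, 0x111e124c1c1a849c1c1641c181e681c1,
    0xa11169a1a1ca24a1a1c22a1a16485c1], [0, 0x18c1a142814c161824418112e1482e, 0,
    0x141261188188ac4141261412661881c8c1, 0x1412611881a4211a581ea1116c188728c1], [0, 0, 0,
    0x82214c88c842a3458c4c261814c1c1a8c6154116144138c4ca118888145cd,
    0xaac11248a8a4c121422211a8e11a8e1aa42212216a88291a8cd]]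

noncomputable def n3403 : Ent := ⟨e3403, noF, [], [], []⟩

def c3403 : PLift (Cov.check n3403.C.D v3403 = true) := ⟨by decide +kernel⟩

def b3403 : PLift (entF (fidx ts) 400 3403 n3403 = true) := ⟨by decide +kernel⟩

theorem g3403 : GoodF (fidx ts) 400 3403 := GoodF.ofV v3403 n3403 c3403.down b3403.down

/-- 47494454:2606/3 -/
noncomputable def e3404 : SCfg where
  D := {
    a := 8
    L := 10
    kp := 7
    inn := [(0, 1), (1, 0), (1, 2), (1, 3), (1, 4), (2, 1), (2, 3), (3, 1), (3, 2), (3, 5), (3, 6), (3,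
      7), (4, 1), (5, 3), (5, 6), (6, 3), (6, 5), (7, 3)]
    mix := [(0, 0), (0, 1), (0, 2), (1, 0), (1, 2), (1, 3), (2, 2), (2, 4), (3, 3), (3, 4), (3, 5), (3,
      6), (4, 0), (4, 3), (4, 7), (5, 4), (5, 8), (6, 5), (6, 8), (6, 9), (7, 1), (7, 5), (7, 6)]
    cl := [3, 4, 0, 0, 1, 1, 2, 6, 5, 7]
    chq := [(0, 3), (1, 2), (2, 1), (3, 0)]
    rng := [(0, 1), (0, 7), (1, 0), (1, 2), (1, 5), (1, 6), (2, 1), (2, 4), (3, 6), (3, 7), (4, 2), (4,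
      8), (5, 1), (5, 9), (6, 1), (6, 3), (7, 0), (7, 3), (8, 4), (8, 9), (9, 5), (9, 8)]
    lev := [] }
  links := [[1, 8, 9, 10], [8, 0, 10, 2, 3, 11, 4], [3, 1, 10, 12], [11, 1, 2, 12, 5, 6, 13, 7, 14], [8,
    1, 11, 15], [6, 3, 12, 16], [13, 3, 5, 16, 17], [14, 3, 13, 9]]
  P := {
    a := 8
    N := 18
    nb := [1794, 3357, 5130, 30950, 35074, 69704, 204840, 25096, 33299, 25985, 4615, 49178, 66604,
      131784, 2696, 2320, 135264, 73792]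
    tri := [(0, 1, 8), (0, 1, 10), (0, 8, 9), (0, 9, 10), (1, 2, 3), (1, 2, 10), (1, 3, 11), (1, 4, 8),
      (1, 4, 11), (2, 3, 12), (2, 10, 12), (3, 5, 6), (3, 5, 12), (3, 6, 13), (3, 7, 13), (3, 7,
      14), (3, 11, 14), (4, 8, 15), (4, 11, 15), (5, 6, 16), (5, 12, 16), (6, 13, 17), (6, 16,
      17), (7, 9, 13), (7, 9, 14)]
    fin := [0, 0, 2, 2, 0, 5, 5, 5, 0, 9, 2, 2, 5, 5, 14, 15, 16, 17]
    chd := [(0, 2), (5, 14)]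
    steps := [(0, 1), (0, 4), (0, 8), (2, 3), (2, 10), (2, 11), (5, 6), (5, 12), (5, 13), (5, 7)] }
  rep := [2, 5, 14, 0, 9, 16, 15, 17]

noncomputable def v3404 : Cov.CovD where
  P := 3
  N := 5
  pl := [1, 7, 8, 9]
  lev := [⟨[], [], [(0, 3)], [4], [(0, 3, [0]), (2, 0, [3])]⟩,
    ⟨[], [(0, 0), (0, 3)], [(0, 0), (0, 3)], [], [(0, 3, [0]), (2, 0, [3]), (3, 0, [3])]⟩,
    ⟨[(0, 1)], [(0, 0), (1, 0), (1, 1), (1, 3)], [(0, 1)], [], [(2, 0, [3]), (4, 1, [2])]⟩,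
    ⟨[(0, 1), (1, 2)], [(1, 0), (1, 1), (1, 2), (1, 3), (2, 0), (2, 1), (2, 2)], [(0, 1),
      (0, 2), (1, 1), (1, 2)], [], [(3, 0, [3]), (4, 1, [2]), (5, 1, [2]), (6, 2, [1])]⟩,
    ⟨[(0, 1), (1, 2), (1, 3)], [(0, 3), (1, 0), (1, 3), (3, 0)], [(0, 3)], [6], [(0, 3,
      [0]), (3, 0, [3])]⟩,
    ⟨[(1, 3), (2, 3)], [(2, 1), (3, 0), (3, 1), (3, 2)], [], [5], [(4, 1, [2])]⟩,
    ⟨[(1, 3), (2, 3), (3, 5)], [(3, 0), (3, 1), (3, 2), (5, 1)], [], [5, 7], [(5, 1, [2])]⟩,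
    ⟨[(1, 3), (2, 3), (3, 5), (3, 6)], [(3, 0), (3, 1), (3, 2), (6, 1)], [(1, 2)], [4],
      [(5, 1, [2]), (6, 2, [1])]⟩]
  Ta := [((2, 1), 0, 4), ((2, 4), 0, 1), ((3, 6), 0, 2), ((3, 7), 0, 6), ((4, 2), 1, 0), ((4, 8),
    1, 5), ((5, 1), 1, 4), ((5, 9), 1, 7)]
  Tb := [((0, 1, 7), 3, 4, 6), ((1, 0, 2), 4, 3, 0), ((1, 0, 5), 4, 3, 1), ((1, 0, 6), 4, 3, 2),
    ((1, 2, 5), 4, 0, 1), ((1, 2, 6), 4, 0, 2), ((1, 5, 6), 4, 1, 2), ((2, 1, 4), 0, 4, 1),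
    ((3, 6, 7), 0, 2, 6), ((4, 2, 8), 1, 0, 5), ((5, 1, 9), 1, 4, 7), ((6, 1, 3), 2, 4, 0),
    ((7, 0, 3), 6, 3, 0), ((8, 4, 9), 5, 1, 7), ((9, 5, 8), 7, 1, 5)]
  Tc := []
  Td := [((0, 3), (2, 1), 4), ((0, 3), (2, 4), 1), ((0, 3), (3, 6), 2), ((0, 3), (3, 7), 6), ((1,
    2), (4, 2), 0), ((1, 2), (4, 8), 5), ((1, 2), (5, 1), 4), ((1, 2), (5, 9), 7), ((2, 1),
    (6, 1), 4), ((2, 1), (6, 3), 0), ((3, 0), (0, 1), 4), ((3, 0), (0, 7), 6)]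
  G := [[0, 0x8181a144841416188411c116a1482e, 0, 0x828291448424251884128121a4412412125588ae,
    0x242151288288c9842161135188412215c211218d922295d842e], [0, 0, 0,
    0x8212914484242518841212481241281282cd84ae,
    0x88c288861481118884c892188d214815a84e11c199518882924111d2111d2191d2d888888c942e], [0, 0,
    0x28219288c4424424215c88244828822c22596c8e1, 0x1212512125c8821212512125c881212c24863,
    0x12225c11c125c81211271251221175c8812119528463], [0, 0,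
    0xc8c8c59c88c42444c4c15c82444444ac88c88c5a6c8e1, 0x1212912129a4481212c1212512129e8243,
    0x111d2111d2c81411c113111d2c81211c119511c1195c821418117111d2a846b]]

noncomputable def n3404 : Ent := ⟨e3404, noF, [], [], []⟩

def c3404 : PLift (Cov.check n3404.C.D v3404 = true) := ⟨by decide +kernel⟩

def b3404 : PLift (entF (fidx ts) 400 3404 n3404 = true) := ⟨by decide +kernel⟩

theorem g3404 : GoodF (fidx ts) 400 3404 := GoodF.ofV v3404 n3404 c3404.down b3404.down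

/-- 47494454:2606 -/
noncomputable def e3405 : SCfg where
  D := {
    a := 8
    L := 11
    kp := 8
    inn := [(0, 1), (1, 0), (1, 2), (1, 3), (1, 4), (2, 1), (2, 3), (3, 1), (3, 2), (3, 5), (3, 6), (3,
      7), (4, 1), (5, 3), (5, 6), (6, 3), (6, 5), (7, 3)]
    mix := [(0, 0), (0, 1), (0, 2), (1, 0), (1, 2), (1, 3), (2, 2), (2, 4), (3, 3), (3, 4), (3, 5), (3,
      6), (4, 0), (4, 3), (4, 7), (5, 4), (5, 8), (6, 5), (6, 8), (6, 9), (7, 5), (7, 6), (7, 10)]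
    cl := [2, 6, 1, 0, 0, 0, 3, 5, 4, 7, 8]
    chq := [(1, 2), (1, 5), (2, 1), (5, 1)]
    rng := [(0, 1), (0, 7), (1, 0), (1, 2), (2, 1), (2, 4), (3, 6), (3, 7), (4, 2), (4, 8), (5, 9), (5,
      10), (6, 3), (6, 10), (7, 0), (7, 3), (8, 4), (8, 9), (9, 5), (9, 8), (10, 5), (10, 6)]
    lev := [] }
  links := [[1, 8, 9, 10], [8, 0, 10, 2, 3, 11, 4], [3, 1, 10, 12], [11, 1, 2, 12, 5, 6, 13, 7, 14], [8,
    1, 11, 15], [6, 3, 12, 16], [13, 3, 5, 16, 17], [14, 3, 13, 18]]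
  P := {
    a := 8
    N := 19
    nb := [1794, 3357, 5130, 30950, 35074, 69704, 204840, 286728, 33299, 1281, 4615, 49178, 66604,
      393416, 264328, 2320, 135264, 73792, 24704]
    tri := [(0, 1, 8), (0, 1, 10), (0, 8, 9), (0, 9, 10), (1, 2, 3), (1, 2, 10), (1, 3, 11), (1, 4, 8),
      (1, 4, 11), (2, 3, 12), (2, 10, 12), (3, 5, 6), (3, 5, 12), (3, 6, 13), (3, 7, 13), (3, 7,
      14), (3, 11, 14), (4, 8, 15), (4, 11, 15), (5, 6, 16), (5, 12, 16), (6, 13, 17), (6, 16,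
      17), (7, 13, 18), (7, 14, 18)]
    fin := [0, 1, 1, 3, 1, 3, 3, 3, 0, 9, 1, 3, 3, 3, 14, 15, 16, 17, 18]
    chd := [(0, 1), (1, 15)]
    steps := [(0, 8), (1, 2), (1, 4), (1, 10), (3, 5), (3, 6), (3, 7), (3, 12), (3, 13), (3, 11)] }
  rep := [3, 1, 0, 14, 16, 15, 9, 17, 18]

noncomputable def v3405 : Cov.CovD where
  P := 3
  N := 6
  pl := [1, 6, 8, 9, 10]
  lev := [⟨[], [], [(1, 2)], [6], [(0, 2, [1]), (2, 1, [2, 5])]⟩,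
    ⟨[], [(0, 0), (0, 1), (0, 2)], [(0, 1), (0, 2), (1, 2)], [], [(0, 2, [1]), (2, 1, [2,
      5]), (3, 0, [])]⟩,
    ⟨[(0, 1)], [(0, 1), (1, 0), (1, 1), (1, 2)], [(0, 1)], [], [(2, 1, [2, 5]), (4, 0,
      [])]⟩,
    ⟨[(0, 1), (1, 2)], [(1, 0), (1, 1), (1, 2), (2, 0), (2, 1)], [(0, 0)], [3], [(3, 0,
      []), (4, 0, []), (5, 0, [])]⟩,
    ⟨[(0, 1), (1, 2), (1, 3)], [(0, 2), (1, 0), (1, 1), (1, 2), (1, 5), (3, 0)], [(0, 2),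
      (0, 5), (2, 5)], [], [(0, 2, [1]), (3, 0, []), (7, 5, [1])]⟩,
    ⟨[(1, 3), (2, 3)], [(2, 0), (3, 0)], [], [4], [(4, 0, [])]⟩,
    ⟨[(1, 3), (2, 3), (3, 5)], [(3, 0), (5, 0)], [], [4, 7], [(5, 0, [])]⟩,
    ⟨[(1, 3), (2, 3), (3, 5), (3, 6)], [(3, 0), (6, 0)], [], [3, 8], [(5, 0, [])]⟩]
  Ta := [((3, 6), 0, 3), ((3, 7), 0, 5), ((4, 2), 0, 1), ((4, 8), 0, 4), ((5, 9), 0, 7), ((5,
    10), 0, 8)]
  Tb := [((0, 1, 7), 2, 6, 5), ((1, 0, 2), 6, 2, 1), ((2, 1, 4), 1, 6, 0), ((3, 6, 7), 0, 3, 5),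
    ((4, 2, 8), 0, 1, 4), ((5, 9, 10), 0, 7, 8), ((6, 3, 10), 3, 0, 8), ((7, 0, 3), 5, 2, 0),
    ((8, 4, 9), 4, 0, 7), ((9, 5, 8), 7, 0, 4), ((10, 5, 6), 8, 0, 3)]
  Tc := [(1, 2, 5)]
  Td := [((1, 2), (2, 1), 6), ((1, 2), (2, 4), 0), ((1, 5), (2, 1), 6), ((1, 5), (2, 4), 0), ((2,
    1), (0, 1), 6), ((2, 1), (0, 7), 5), ((5, 1), (7, 0), 2), ((5, 1), (7, 3), 0)]
  G := [[0, 0, 0xc1c162111e12a44c1c1a211aa1c2688c, 0x6161a241a1a16282cc1c1a2a111a526885,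
    0xc1116a2a12181e261811cc1a2a1a1c26189], [0, 0x11ce16112211814c1e24c1116a1a1a1c1688c,
    0x11c11a6261116c2a4414421812a2c411a116c228cc,
    0x11a116c2211c116a14681412621882e1116c2e41c, 0x11c11a6211a61c2a4111c116a111aa1c26889],
    [0, 0, 0xc862a2a864c261c4a26284c62c83248c4a262a864c2a1cc,
    0x64a8522ca612c862a2c6182a12e64e1264e24cc3182c5,
    0xe862a242cae128864c2ac1426118c8c8e6a2a8ae86c26589]]

noncomputable def n3405 : Ent := ⟨e3405, noF, [], [], [(9, 16, [31810581851548793677511941751458610980409781099126250235727204310991544321, 0]), (9, 17, [31810150492402119267275227079217218666319002904815489586567506653227560961, 0]), (9, 18, [30043303427623734937691929578474300150491519007939870628445900451934945281, 0])]⟩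

def c3405 : PLift (Cov.check n3405.C.D v3405 = true) := ⟨by decide +kernel⟩

def b3405 : PLift (entF (fidx ts) 400 3405 n3405 = true) := ⟨by decide +kernel⟩

theorem g3405 : GoodF (fidx ts) 400 3405 := GoodF.ofV v3405 n3405 c3405.down b3405.down

/-- 47494445:2609/2 -/
noncomputable def e3406 : SCfg where
  D := {
    a := 8
    L := 9
    kp := 6
    inn := [(0, 1), (1, 0), (1, 2), (1, 3), (1, 4), (2, 1), (2, 3), (3, 1), (3, 2), (3, 5), (3, 6), (3,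
      7), (4, 1), (5, 3), (6, 3), (6, 7), (7, 3), (7, 6)]
    mix := [(0, 0), (0, 1), (0, 2), (1, 0), (1, 2), (1, 3), (2, 2), (2, 4), (3, 3), (3, 4), (3, 5), (3,
      6), (4, 0), (4, 3), (4, 7), (5, 1), (5, 4), (5, 5), (6, 3), (6, 7), (7, 6), (7, 7), (7, 8)]
    cl := [3, 2, 0, 0, 1, 5, 1, 4, 6]
    chq := [(0, 3), (1, 4), (3, 0), (4, 1)]
    rng := [(0, 1), (0, 7), (1, 0), (1, 2), (1, 4), (1, 5), (2, 1), (2, 4), (3, 7), (4, 1), (4, 2), (5,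
      1), (5, 6), (6, 5), (6, 8), (7, 0), (7, 3), (7, 8), (8, 6), (8, 7)]
    lev := [] }
  links := [[1, 8, 9, 10], [8, 0, 10, 2, 3, 11, 4], [3, 1, 10, 12], [11, 1, 2, 12, 5, 13, 14, 7, 6], [8,
    1, 11, 15], [13, 3, 12, 9], [11, 3, 7, 15], [15, 6, 3, 14, 16]]
  P := {
    a := 8
    N := 17
    nb := [1794, 3357, 5130, 30950, 35074, 12808, 34952, 114760, 33299, 13601, 4615, 32858, 1580,
      16936, 73864, 68048, 49280]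
    tri := [(0, 1, 8), (0, 1, 10), (0, 8, 9), (0, 9, 10), (1, 2, 3), (1, 2, 10), (1, 3, 11), (1, 4, 8),
      (1, 4, 11), (2, 3, 12), (2, 10, 12), (3, 5, 12), (3, 5, 13), (3, 6, 7), (3, 6, 11), (3, 7,
      14), (3, 13, 14), (4, 8, 15), (4, 11, 15), (5, 9, 12), (5, 9, 13), (6, 7, 15), (6, 11, 15),
      (7, 14, 16), (7, 15, 16)]
    fin := [0, 1, 1, 3, 0, 5, 1, 3, 0, 5, 1, 1, 3, 13, 3, 15, 16]
    chd := [(0, 1), (3, 15)]
    steps := [(0, 8), (0, 4), (1, 2), (1, 10), (1, 11), (1, 6), (3, 7), (3, 12), (3, 14), (5, 9)] }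
  rep := [1, 3, 5, 0, 15, 13, 16]

noncomputable def v3406 : Cov.CovD where
  P := 3
  N := 4
  pl := [1, 5, 8]
  lev := [⟨[], [], [(0, 3)], [2], [(0, 3, [0]), (2, 0, [3])]⟩,
    ⟨[], [(0, 0), (0, 3)], [(0, 0), (0, 3)], [], [(0, 3, [0]), (2, 0, [3]), (3, 0, [3])]⟩,
    ⟨[(0, 1)], [(0, 0), (1, 0), (1, 1), (1, 3)], [(0, 1)], [], [(2, 0, [3]), (4, 1, [4])]⟩,
    ⟨[(0, 1), (1, 2)], [(1, 0), (1, 1), (1, 3), (2, 0), (2, 1)], [(0, 1), (1, 1)], [5],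
      [(3, 0, [3]), (4, 1, [4]), (6, 1, [4])]⟩,
    ⟨[(0, 1), (1, 2), (1, 3)], [(0, 3), (1, 0), (1, 3), (1, 4), (3, 0)], [(0, 3), (0, 4),
      (3, 4)], [], [(0, 3, [0]), (3, 0, [3]), (7, 4, [1])]⟩,
    ⟨[(1, 3), (2, 3)], [(2, 1), (3, 0), (3, 1)], [], [2, 5], [(4, 1, [4])]⟩,
    ⟨[(1, 3), (2, 3), (3, 5)], [(1, 0), (3, 0), (3, 1), (3, 4), (4, 0), (4, 4)], [(0, 4)],
      [], [(3, 0, [3]), (7, 4, [1])]⟩,
    ⟨[(1, 3), (2, 3), (3, 5), (3, 6)], [(3, 0), (3, 1), (3, 4), (4, 4), (6, 0), (6, 1), (6,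
      4)], [(1, 4)], [6], [(6, 1, [4]), (7, 4, [1])]⟩]
  Ta := [((2, 1), 0, 2), ((2, 4), 0, 1), ((3, 7), 0, 4), ((4, 1), 1, 2), ((4, 2), 1, 0), ((6, 5),
    1, 5), ((6, 8), 1, 6)]
  Tb := [((0, 1, 7), 3, 2, 4), ((1, 0, 2), 2, 3, 0), ((1, 0, 4), 2, 3, 1), ((1, 0, 5), 2, 3, 5),
    ((1, 2, 4), 2, 0, 1), ((1, 2, 5), 2, 0, 5), ((1, 4, 5), 2, 1, 5), ((2, 1, 4), 0, 2, 1),
    ((4, 1, 2), 1, 2, 0), ((5, 1, 6), 5, 2, 1), ((6, 5, 8), 1, 5, 6), ((7, 0, 3), 4, 3, 0),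
    ((7, 0, 8), 4, 3, 6), ((7, 3, 8), 4, 0, 6), ((8, 6, 7), 6, 1, 4)]
  Tc := []
  Td := [((0, 3), (2, 1), 2), ((0, 3), (2, 4), 1), ((0, 3), (3, 7), 4), ((1, 4), (4, 1), 2), ((1,
    4), (4, 2), 0), ((1, 4), (6, 5), 5), ((1, 4), (6, 8), 6), ((3, 0), (0, 1), 2), ((3, 0),
    (0, 7), 4), ((4, 1), (7, 0), 3), ((4, 1), (7, 3), 0), ((4, 1), (7, 8), 6)]
  G := [[0, 0x11a4111c816281168111c41a24c, 0x8228c244c152818c42844c2148844c2149241452818cea,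
    0x21822112c4221122142c82c, 0x2114442818421852898cc1658284521b4d295486a], [0, 0,
    0x9241425281888424c92c82526145282a18c2a, 0, 0x52d29142822522984c4152328112a284c22d84a],
    [0, 0, 0, 0x21822142c1228245242428928c25,
    0x24124b49641281248c282898c1c2898924281289528548c2414c16a], [0, 0, 0, 0,
    0x52144212829548c81c5482929822c14982844d2124416828cab]]

noncomputable def n3406 : Ent := ⟨e3406, noF, [], [], []⟩

def c3406 : PLift (Cov.check n3406.C.D v3406 = true) := ⟨by decide +kernel⟩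

def b3406 : PLift (entF (fidx ts) 400 3406 n3406 = true) := ⟨by decide +kernel⟩

theorem g3406 : GoodF (fidx ts) 400 3406 := GoodF.ofV v3406 n3406 c3406.down b3406.down

/-- 47494445:2609/1 -/
noncomputable def e3407 : SCfg where
  D := {
    a := 8
    L := 10
    kp := 7
    inn := [(0, 1), (1, 0), (1, 2), (1, 3), (1, 4), (2, 1), (2, 3), (3, 1), (3, 2), (3, 5), (3, 6), (3,
      7), (4, 1), (5, 3), (6, 3), (6, 7), (7, 3), (7, 6)]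
    mix := [(0, 0), (0, 1), (0, 2), (1, 0), (1, 2), (1, 3), (2, 2), (2, 4), (3, 3), (3, 4), (3, 5), (3,
      6), (4, 0), (4, 3), (4, 7), (5, 1), (5, 4), (5, 5), (6, 3), (6, 8), (7, 6), (7, 8), (7, 9)]
    cl := [3, 4, 1, 0, 0, 2, 0, 6, 5, 7]
    chq := [(0, 3), (1, 3), (3, 0), (3, 1)]
    rng := [(0, 1), (0, 7), (1, 0), (1, 2), (1, 4), (1, 5), (2, 1), (2, 4), (3, 7), (3, 8), (4, 1), (4,
      2), (5, 1), (5, 6), (6, 5), (6, 9), (7, 0), (7, 3), (8, 3), (8, 9), (9, 6), (9, 8)]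
    lev := [] }
  links := [[1, 8, 9, 10], [8, 0, 10, 2, 3, 11, 4], [3, 1, 10, 12], [11, 1, 2, 12, 5, 13, 14, 7, 6], [8,
    1, 11, 15], [13, 3, 12, 9], [11, 3, 7, 16], [16, 6, 3, 14, 17]]
  P := {
    a := 8
    N := 18
    nb := [1794, 3357, 5130, 30950, 35074, 12808, 67720, 213064, 33299, 13601, 4615, 98394, 1580,
      16936, 139400, 2320, 133312, 82048]
    tri := [(0, 1, 8), (0, 1, 10), (0, 8, 9), (0, 9, 10), (1, 2, 3), (1, 2, 10), (1, 3, 11), (1, 4, 8),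
      (1, 4, 11), (2, 3, 12), (2, 10, 12), (3, 5, 12), (3, 5, 13), (3, 6, 7), (3, 6, 11), (3, 7,
      14), (3, 13, 14), (4, 8, 15), (4, 11, 15), (5, 9, 12), (5, 9, 13), (6, 7, 16), (6, 11, 16),
      (7, 14, 17), (7, 16, 17)]
    fin := [0, 1, 1, 3, 0, 3, 1, 1, 0, 3, 10, 1, 1, 13, 1, 15, 16, 17]
    chd := [(0, 1), (0, 10)]
    steps := [(0, 8), (0, 4), (1, 2), (1, 12), (1, 11), (1, 6), (1, 7), (1, 14), (3, 5), (3, 9)] }
  rep := [1, 10, 13, 0, 3, 16, 15, 17]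

noncomputable def v3407 : Cov.CovD where
  P := 3
  N := 5
  pl := [1, 5, 7, 8, 9]
  lev := [⟨[], [], [(1, 3)], [4], [(0, 3, [0, 1]), (2, 1, [3])]⟩,
    ⟨[], [(0, 0), (0, 1), (0, 3)], [(0, 1), (0, 3), (1, 3)], [], [(0, 3, [0, 1]), (2, 1,
      [3]), (3, 0, [3])]⟩,
    ⟨[(0, 1)], [(0, 1), (1, 0), (1, 1), (1, 3)], [(0, 1)], [], [(2, 1, [3]), (4, 0, [3])]⟩,
    ⟨[(0, 1), (1, 2)], [(1, 0), (1, 1), (1, 3), (2, 0), (2, 1)], [(0, 0)], [2], [(3, 0,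
      [3]), (4, 0, [3]), (6, 0, [3])]⟩,
    ⟨[(0, 1), (1, 2), (1, 3)], [(0, 3), (1, 0), (1, 1), (1, 3), (3, 0)], [(0, 3)], [6],
      [(0, 3, [0, 1]), (3, 0, [3])]⟩,
    ⟨[(1, 3), (2, 3)], [(2, 0), (3, 0)], [], [2, 4], [(4, 0, [3])]⟩,
    ⟨[(1, 3), (2, 3), (3, 5)], [(1, 0), (3, 0), (4, 0)], [], [5], [(3, 0, [3])]⟩,
    ⟨[(1, 3), (2, 3), (3, 5), (3, 6)], [(3, 0), (6, 0)], [], [5, 7], [(6, 0, [3])]⟩]
  Ta := [((3, 7), 0, 6), ((3, 8), 0, 5), ((4, 1), 0, 4), ((4, 2), 0, 1), ((6, 5), 0, 2), ((6, 9),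
    0, 7)]
  Tb := [((0, 1, 7), 3, 4, 6), ((1, 0, 2), 4, 3, 1), ((1, 0, 4), 4, 3, 0), ((1, 0, 5), 4, 3, 2),
    ((1, 2, 4), 4, 1, 0), ((1, 2, 5), 4, 1, 2), ((1, 4, 5), 4, 0, 2), ((2, 1, 4), 1, 4, 0),
    ((3, 7, 8), 0, 6, 5), ((4, 1, 2), 0, 4, 1), ((5, 1, 6), 2, 4, 0), ((6, 5, 9), 0, 2, 7),
    ((7, 0, 3), 6, 3, 0), ((8, 3, 9), 5, 0, 7), ((9, 6, 8), 7, 0, 5)]
  Tc := [(3, 0, 1)]
  Td := [((0, 3), (3, 7), 6), ((0, 3), (3, 8), 5), ((0, 3), (4, 1), 4), ((0, 3), (4, 2), 1), ((0,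
    3), (6, 5), 2), ((0, 3), (6, 9), 7), ((1, 3), (2, 1), 4), ((1, 3), (2, 4), 0), ((3, 0),
    (0, 1), 4), ((3, 0), (0, 7), 6), ((3, 1), (0, 1), 4), ((3, 1), (0, 7), 6)]
  G := [[0, 0, 0, 0x93a1b1a1a4453611761688c1, 0x16c1841e1a24c161c161628c1], [0,
    0x11c814281164182411611ac1842e, 0, 0x11a811a8344811641164388411a111a45481168184cd,
    0x1168124811c2128411c211c2a2411a81168628cd], [0, 0, 0x22c6aa184c4168a6ca6cc128c1,
    0xe1188134426118c1161ca61984c1, 0xa6c1128e11e11628c1]]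

noncomputable def n3407 : Ent := ⟨e3407, noF, [], [], [(16, 15, [7334790850167413569773436004105379185503274260204390087403942018605057, 0])]⟩

def c3407 : PLift (Cov.check n3407.C.D v3407 = true) := ⟨by decide +kernel⟩

def b3407 : PLift (entF (fidx ts) 400 3407 n3407 = true) := ⟨by decide +kernel⟩

theorem g3407 : GoodF (fidx ts) 400 3407 := GoodF.ofV v3407 n3407 c3407.down b3407.down

/-- 47494445:2609/4 -/
noncomputable def e3408 : SCfg where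
  D := {
    a := 8
    L := 9
    kp := 6
    inn := [(0, 1), (1, 0), (1, 2), (1, 3), (1, 4), (2, 1), (2, 3), (3, 1), (3, 2), (3, 5), (3, 6), (3,
      7), (4, 1), (5, 3), (6, 3), (6, 7), (7, 3), (7, 6)]
    mix := [(0, 0), (0, 1), (0, 2), (1, 0), (1, 2), (1, 3), (2, 2), (2, 4), (3, 3), (3, 4), (3, 5), (3,
      6), (4, 0), (4, 3), (4, 7), (5, 4), (5, 5), (5, 8), (6, 3), (6, 7), (7, 1), (7, 6), (7, 7)]
    cl := [1, 4, 2, 0, 0, 5, 0, 3, 6]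
    chq := [(0, 1), (1, 0), (1, 2), (2, 1)]
    rng := [(0, 1), (0, 7), (1, 0), (1, 2), (1, 6), (1, 7), (2, 1), (2, 4), (3, 7), (4, 2), (4, 8), (5,
      6), (5, 8), (6, 1), (6, 5), (7, 0), (7, 1), (7, 3), (8, 4), (8, 5)]
    lev := [] }
  links := [[1, 8, 9, 10], [8, 0, 10, 2, 3, 11, 4], [3, 1, 10, 12], [11, 1, 2, 12, 5, 13, 14, 7, 6], [8,
    1, 11, 15], [13, 3, 12, 16], [11, 3, 7, 15], [15, 6, 3, 14, 9]]
  P := {
    a := 8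
    N := 17
    nb := [1794, 3357, 5130, 30950, 35074, 77832, 34952, 49736, 33299, 50561, 4615, 32858, 66604,
      81960, 8840, 3024, 12320]
    tri := [(0, 1, 8), (0, 1, 10), (0, 8, 9), (0, 9, 10), (1, 2, 3), (1, 2, 10), (1, 3, 11), (1, 4, 8),
      (1, 4, 11), (2, 3, 12), (2, 10, 12), (3, 5, 12), (3, 5, 13), (3, 6, 7), (3, 6, 11), (3, 7,
      14), (3, 13, 14), (4, 8, 15), (4, 11, 15), (5, 12, 16), (5, 13, 16), (6, 7, 15), (6, 11,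
      15), (7, 9, 14), (7, 9, 15)]
    fin := [0, 0, 0, 3, 0, 3, 6, 6, 0, 6, 10, 3, 3, 13, 3, 15, 16]
    chd := [(0, 3), (0, 10)]
    steps := [(0, 1), (0, 2), (0, 4), (0, 8), (3, 5), (3, 12), (3, 14), (3, 11), (6, 7), (6, 9)] }
  rep := [3, 0, 10, 15, 6, 13, 16]

noncomputable def v3408 : Cov.CovD where
  P := 3
  N := 4
  pl := [1, 5, 7, 8]
  lev := [⟨[], [], [(1, 2)], [4], [(0, 1, [0, 2]), (2, 2, [1])]⟩,
    ⟨[], [(0, 0), (0, 1), (0, 2)], [(0, 1), (0, 2), (1, 2)], [], [(0, 1, [0, 2]), (2, 2,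
      [1]), (3, 0, [1])]⟩,
    ⟨[(0, 1)], [(0, 2), (1, 0), (1, 1), (1, 2)], [(0, 2)], [], [(2, 2, [1]), (4, 0, [1])]⟩,
    ⟨[(0, 1), (1, 2)], [(1, 0), (1, 1), (1, 2), (2, 0), (2, 2)], [(0, 0)], [5], [(3, 0,
      [1]), (4, 0, [1]), (6, 0, [1])]⟩,
    ⟨[(0, 1), (1, 2), (1, 3)], [(0, 1), (1, 0), (1, 1), (1, 2), (3, 0)], [(0, 1)], [3],
      [(0, 1, [0, 2]), (3, 0, [1])]⟩,
    ⟨[(1, 3), (2, 3)], [(2, 0), (3, 0)], [], [5, 6], [(4, 0, [1])]⟩,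
    ⟨[(1, 3), (2, 3), (3, 5)], [(1, 0), (3, 0), (4, 0)], [], [3], [(3, 0, [1])]⟩,
    ⟨[(1, 3), (2, 3), (3, 5), (3, 6)], [(3, 0), (6, 0)], [], [3, 4], [(6, 0, [1])]⟩]
  Ta := [((3, 7), 0, 3), ((4, 2), 0, 2), ((4, 8), 0, 6), ((6, 1), 0, 4), ((6, 5), 0, 5)]
  Tb := [((0, 1, 7), 1, 4, 3), ((1, 0, 2), 4, 1, 2), ((1, 0, 6), 4, 1, 0), ((1, 0, 7), 4, 1, 3),
    ((1, 2, 6), 4, 2, 0), ((1, 2, 7), 4, 2, 3), ((1, 6, 7), 4, 0, 3), ((2, 1, 4), 2, 4, 0),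
    ((4, 2, 8), 0, 2, 6), ((5, 6, 8), 5, 0, 6), ((6, 1, 5), 0, 4, 5), ((7, 0, 1), 3, 1, 4),
    ((7, 0, 3), 3, 1, 0), ((7, 1, 3), 3, 4, 0), ((8, 4, 5), 6, 0, 5)]
  Tc := [(1, 0, 2)]
  Td := [((0, 1), (3, 7), 3), ((0, 1), (4, 2), 2), ((0, 1), (4, 8), 6), ((0, 1), (6, 1), 4), ((0,
    1), (6, 5), 5), ((1, 0), (0, 1), 4), ((1, 0), (0, 7), 3), ((1, 2), (0, 1), 4), ((1, 2),
    (0, 7), 3), ((2, 1), (2, 1), 4), ((2, 1), (2, 4), 0)]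
  G := [[0, 0x141412121818e481, 0, 0x22122212c841, 0x6414121b41c1818e281], [0,
    0x141418181212e481, 0x11a41421168111c21a4c11614ca1211c11ac14a8c, 0x1212c21211ca16881,
    0x11c11ac111611ca16881], [0, 0x121218181414e481, 0, 0x22112112c242222c221126889,
    0x82a1184c1162844426512282a6184c4491e289]]

noncomputable def n3408 : Ent := ⟨e3408, noF, [], [], []⟩

def c3408 : PLift (Cov.check n3408.C.D v3408 = true) := ⟨by decide +kernel⟩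

def b3408 : PLift (entF (fidx ts) 400 3408 n3408 = true) := ⟨by decide +kernel⟩

theorem g3408 : GoodF (fidx ts) 400 3408 := GoodF.ofV v3408 n3408 c3408.down b3408.down

/-- 47494445:2609/3 -/
noncomputable def e3409 : SCfg where
  D := {
    a := 8
    L := 10
    kp := 7
    inn := [(0, 1), (1, 0), (1, 2), (1, 3), (1, 4), (2, 1), (2, 3), (3, 1), (3, 2), (3, 5), (3, 6), (3,
      7), (4, 1), (5, 3), (6, 3), (6, 7), (7, 3), (7, 6)]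
    mix := [(0, 0), (0, 1), (0, 2), (1, 0), (1, 2), (1, 3), (2, 2), (2, 4), (3, 3), (3, 4), (3, 5), (3,
      6), (4, 0), (4, 3), (4, 7), (5, 4), (5, 5), (5, 8), (6, 3), (6, 9), (7, 1), (7, 6), (7, 9)]
    cl := [1, 3, 2, 0, 0, 4, 0, 6, 7, 5]
    chq := [(0, 1), (1, 0), (1, 2), (2, 1)]
    rng := [(0, 1), (0, 7), (1, 0), (1, 2), (1, 6), (1, 9), (2, 1), (2, 4), (3, 7), (3, 9), (4, 2), (4,
      8), (5, 6), (5, 8), (6, 1), (6, 5), (7, 0), (7, 3), (8, 4), (8, 5), (9, 1), (9, 3)]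
    lev := [] }
  links := [[1, 8, 9, 10], [8, 0, 10, 2, 3, 11, 4], [3, 1, 10, 12], [11, 1, 2, 12, 5, 13, 14, 7, 6], [8,
    1, 11, 15], [13, 3, 12, 16], [11, 3, 7, 17], [17, 6, 3, 14, 9]]
  P := {
    a := 8
    N := 18
    nb := [1794, 3357, 5130, 30950, 35074, 77832, 133256, 148040, 33299, 148865, 4615, 163930, 66604,
      81960, 8840, 2320, 12320, 2752]
    tri := [(0, 1, 8), (0, 1, 10), (0, 8, 9), (0, 9, 10), (1, 2, 3), (1, 2, 10), (1, 3, 11), (1, 4, 8),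
      (1, 4, 11), (2, 3, 12), (2, 10, 12), (3, 5, 12), (3, 5, 13), (3, 6, 7), (3, 6, 11), (3, 7,
      14), (3, 13, 14), (4, 8, 15), (4, 11, 15), (5, 12, 16), (5, 13, 16), (6, 7, 17), (6, 11,
      17), (7, 9, 14), (7, 9, 17)]
    fin := [0, 0, 0, 3, 0, 3, 6, 6, 0, 6, 10, 3, 3, 13, 3, 15, 16, 17]
    chd := [(0, 3), (0, 10)]
    steps := [(0, 1), (0, 2), (0, 4), (0, 8), (3, 5), (3, 12), (3, 14), (3, 11), (6, 7), (6, 9)] }
  rep := [3, 0, 10, 6, 13, 17, 15, 16]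

noncomputable def v3409 : Cov.CovD where
  P := 3
  N := 5
  pl := [1, 5, 7, 8, 9]
  lev := [⟨[], [], [(1, 2)], [3], [(0, 1, [0, 2]), (2, 2, [1])]⟩,
    ⟨[], [(0, 0), (0, 1), (0, 2)], [(0, 1), (0, 2), (1, 2)], [], [(0, 1, [0, 2]), (2, 2,
      [1]), (3, 0, [1])]⟩,
    ⟨[(0, 1)], [(0, 2), (1, 0), (1, 1), (1, 2)], [(0, 2)], [], [(2, 2, [1]), (4, 0, [1])]⟩,
    ⟨[(0, 1), (1, 2)], [(1, 0), (1, 1), (1, 2), (2, 0), (2, 2)], [(0, 0)], [4], [(3, 0,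
      [1]), (4, 0, [1]), (6, 0, [1])]⟩,
    ⟨[(0, 1), (1, 2), (1, 3)], [(0, 1), (1, 0), (1, 1), (1, 2), (3, 0)], [(0, 1)], [6],
      [(0, 1, [0, 2]), (3, 0, [1])]⟩,
    ⟨[(1, 3), (2, 3)], [(2, 0), (3, 0)], [], [4, 7], [(4, 0, [1])]⟩,
    ⟨[(1, 3), (2, 3), (3, 5)], [(1, 0), (3, 0), (4, 0)], [], [5], [(3, 0, [1])]⟩,
    ⟨[(1, 3), (2, 3), (3, 5), (3, 6)], [(3, 0), (6, 0)], [], [3, 5], [(6, 0, [1])]⟩]
  Ta := [((3, 7), 0, 6), ((3, 9), 0, 5), ((4, 2), 0, 2), ((4, 8), 0, 7), ((6, 1), 0, 3), ((6, 5),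
    0, 4)]
  Tb := [((0, 1, 7), 1, 3, 6), ((1, 0, 2), 3, 1, 2), ((1, 0, 6), 3, 1, 0), ((1, 0, 9), 3, 1, 5),
    ((1, 2, 6), 3, 2, 0), ((1, 2, 9), 3, 2, 5), ((1, 6, 9), 3, 0, 5), ((2, 1, 4), 2, 3, 0),
    ((3, 7, 9), 0, 6, 5), ((4, 2, 8), 0, 2, 7), ((5, 6, 8), 4, 0, 7), ((6, 1, 5), 0, 3, 4),
    ((7, 0, 3), 6, 1, 0), ((8, 4, 5), 7, 0, 4), ((9, 1, 3), 5, 3, 0)]
  Tc := [(1, 0, 2)]
  Td := [((0, 1), (3, 7), 6), ((0, 1), (3, 9), 5), ((0, 1), (4, 2), 2), ((0, 1), (4, 8), 7), ((0,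
    1), (6, 1), 3), ((0, 1), (6, 5), 4), ((1, 0), (0, 1), 3), ((1, 0), (0, 7), 6), ((1, 2),
    (0, 1), 3), ((1, 2), (0, 7), 6), ((2, 1), (2, 1), 3), ((2, 1), (2, 4), 0)]
  G := [[0, 0x1161211a1811614e481, 0, 0x1261212a12c841, 0x1761453a116a1c95c18e281], [0,
    0x1161211a1811614e841, 0x11611c61211611ac18a411c14c61211611cc18a4c,
    0x116126c111c11c62a441, 0x11c11ac111c11ca16881], [0, 0x1161211a1811c14e841, 0,
    0x82c1228124c124424c32a41e1283c2418d, 0x84a1184c1162842611a2c6a61c441e289]]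

noncomputable def n3409 : Ent := ⟨e3409, noF, [], [], [(17, 15, [6903537015784671890245461680740748765157398844539141476817538565603329, 0])]⟩

def c3409 : PLift (Cov.check n3409.C.D v3409 = true) := ⟨by decide +kernel⟩

def b3409 : PLift (entF (fidx ts) 400 3409 n3409 = true) := ⟨by decide +kernel⟩

theorem g3409 : GoodF (fidx ts) 400 3409 := GoodF.ofV v3409 n3409 c3409.down b3409.down

/-- 47494445:2609/5 -/
noncomputable def e3410 : SCfg where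
  D := {
    a := 8
    L := 10
    kp := 7
    inn := [(0, 1), (1, 0), (1, 2), (1, 3), (1, 4), (2, 1), (2, 3), (3, 1), (3, 2), (3, 5), (3, 6), (3,
      7), (4, 1), (5, 3), (6, 3), (6, 7), (7, 3), (7, 6)]
    mix := [(0, 0), (0, 1), (0, 2), (1, 0), (1, 2), (1, 3), (2, 2), (2, 4), (3, 3), (3, 4), (3, 5), (3,
      6), (4, 0), (4, 3), (4, 7), (5, 4), (5, 5), (5, 8), (6, 3), (6, 7), (7, 6), (7, 7), (7, 9)]
    cl := [3, 5, 1, 0, 0, 2, 0, 4, 6, 7]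
    chq := [(1, 3), (1, 4), (3, 1), (4, 1)]
    rng := [(0, 1), (0, 7), (1, 0), (1, 2), (2, 1), (2, 4), (3, 7), (4, 2), (4, 8), (5, 6), (5, 8), (6,
      5), (6, 9), (7, 0), (7, 3), (7, 9), (8, 4), (8, 5), (9, 6), (9, 7)]
    lev := [] }
  links := [[1, 8, 9, 10], [8, 0, 10, 2, 3, 11, 4], [3, 1, 10, 12], [11, 1, 2, 12, 5, 13, 14, 7, 6], [8,
    1, 11, 15], [13, 3, 12, 16], [11, 3, 7, 15], [15, 6, 3, 14, 17]]
  P := {
    a := 8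
    N := 18
    nb := [1794, 3357, 5130, 30950, 35074, 77832, 34952, 180296, 33299, 1281, 4615, 32858, 66604,
      81960, 139400, 133584, 12320, 49280]
    tri := [(0, 1, 8), (0, 1, 10), (0, 8, 9), (0, 9, 10), (1, 2, 3), (1, 2, 10), (1, 3, 11), (1, 4, 8),
      (1, 4, 11), (2, 3, 12), (2, 10, 12), (3, 5, 12), (3, 5, 13), (3, 6, 7), (3, 6, 11), (3, 7,
      14), (3, 13, 14), (4, 8, 15), (4, 11, 15), (5, 12, 16), (5, 13, 16), (6, 7, 15), (6, 11,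
      15), (7, 14, 17), (7, 15, 17)]
    fin := [0, 1, 1, 3, 1, 3, 3, 3, 0, 9, 1, 3, 3, 13, 3, 15, 16, 17]
    chd := [(0, 1), (1, 15)]
    steps := [(0, 8), (1, 2), (1, 4), (1, 10), (3, 5), (3, 6), (3, 7), (3, 12), (3, 14), (3, 11)] }
  rep := [3, 1, 13, 0, 15, 9, 16, 17]

noncomputable def v3410 : Cov.CovD where
  P := 3
  N := 5
  pl := [1, 5, 8, 9]
  lev := [⟨[], [], [(1, 3)], [5], [(0, 3, [1]), (2, 1, [3, 4])]⟩,
    ⟨[], [(0, 0), (0, 1), (0, 3)], [(0, 1), (0, 3), (1, 3)], [], [(0, 3, [1]), (2, 1, [3,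
      4]), (3, 0, [])]⟩,
    ⟨[(0, 1)], [(0, 1), (1, 0), (1, 1), (1, 3)], [(0, 1)], [], [(2, 1, [3, 4]), (4, 0,
      [])]⟩,
    ⟨[(0, 1), (1, 2)], [(1, 0), (1, 1), (1, 3), (2, 0), (2, 1)], [(0, 0)], [2], [(3, 0,
      []), (4, 0, []), (6, 0, [])]⟩,
    ⟨[(0, 1), (1, 2), (1, 3)], [(0, 3), (1, 0), (1, 1), (1, 3), (1, 4), (3, 0)], [(0, 3),
      (0, 4), (3, 4)], [], [(0, 3, [1]), (3, 0, []), (7, 4, [1])]⟩,
    ⟨[(1, 3), (2, 3)], [(2, 0), (3, 0)], [], [2, 6], [(4, 0, [])]⟩,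
    ⟨[(1, 3), (2, 3), (3, 5)], [(1, 0), (3, 0), (3, 4), (4, 0), (4, 4)], [(0, 4)], [], [(3,
      0, []), (7, 4, [1])]⟩,
    ⟨[(1, 3), (2, 3), (3, 5), (3, 6)], [(3, 0), (3, 4), (4, 4), (6, 0), (6, 4)], [(0, 4)],
      [7], [(6, 0, []), (7, 4, [1])]⟩]
  Ta := [((3, 7), 0, 4), ((4, 2), 0, 1), ((4, 8), 0, 6), ((6, 5), 0, 2), ((6, 9), 0, 7)]
  Tb := [((0, 1, 7), 3, 5, 4), ((1, 0, 2), 5, 3, 1), ((2, 1, 4), 1, 5, 0), ((4, 2, 8), 0, 1, 6),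
    ((5, 6, 8), 2, 0, 6), ((6, 5, 9), 0, 2, 7), ((7, 0, 3), 4, 3, 0), ((7, 0, 9), 4, 3, 7),
    ((7, 3, 9), 4, 0, 7), ((8, 4, 5), 6, 0, 2), ((9, 6, 7), 7, 0, 4)]
  Tc := [(1, 3, 4)]
  Td := [((1, 3), (2, 1), 5), ((1, 3), (2, 4), 0), ((1, 4), (2, 1), 5), ((1, 4), (2, 4), 0), ((3,
    1), (0, 1), 5), ((3, 1), (0, 7), 4), ((4, 1), (7, 0), 3), ((4, 1), (7, 3), 0), ((4, 1),
    (7, 9), 7)]
  G := [[0, 0, 0, 0x93a12448176128841761284b1a1248cd, 0xc1612248716128843561228c1a1224cd], [0,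
    0x11611ac1428116116c182411a11ac1482e, 0,
    0x11a824411a42841164288d1168248116428811a8244d1212c14812411281c8cd,
    0x11a11ca22481162211682a84122111681a41212a184cd], [0, 0,
    0xa16184ce2248e1e1c2284e2e2a148e1e1c224cd,
    0xa1124428245444281441884441284f8112442431288881248de112484a51284cd,
    0xe112248842d122844a51224e21184cd]]

noncomputable def n3410 : Ent := ⟨e3410, noF, [], [], [(9, 16, [7334685537875745012586738086077695515070955365108989538292687707627521, 0]), (9, 17, [6903326391201334775872065844685381424292761054348340378595029943648257, 0])]⟩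

def c3410 : PLift (Cov.check n3410.C.D v3410 = true) := ⟨by decide +kernel⟩

def b3410 : PLift (entF (fidx ts) 400 3410 n3410 = true) := ⟨by decide +kernel⟩

theorem g3410 : GoodF (fidx ts) 400 3410 := GoodF.ofV v3410 n3410 c3410.down b3410.down

/-- 47494445:2609 -/
noncomputable def e3411 : SCfg where
  D := {
    a := 8
    L := 11
    kp := 8
    inn := [(0, 1), (1, 0), (1, 2), (1, 3), (1, 4), (2, 1), (2, 3), (3, 1), (3, 2), (3, 5), (3, 6), (3,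
      7), (4, 1), (5, 3), (6, 3), (6, 7), (7, 3), (7, 6)]
    mix := [(0, 0), (0, 1), (0, 2), (1, 0), (1, 2), (1, 3), (2, 2), (2, 4), (3, 3), (3, 4), (3, 5), (3,
      6), (4, 0), (4, 3), (4, 7), (5, 4), (5, 5), (5, 8), (6, 3), (6, 9), (7, 6), (7, 9), (7, 10)]
    cl := [3, 6, 1, 0, 0, 2, 0, 5, 7, 4, 8]
    chq := [(1, 3), (1, 5), (3, 1), (5, 1)]
    rng := [(0, 1), (0, 7), (1, 0), (1, 2), (2, 1), (2, 4), (3, 7), (3, 9), (4, 2), (4, 8), (5, 6), (5,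
      8), (6, 5), (6, 10), (7, 0), (7, 3), (8, 4), (8, 5), (9, 3), (9, 10), (10, 6), (10, 9)]
    lev := [] }
  links := [[1, 8, 9, 10], [8, 0, 10, 2, 3, 11, 4], [3, 1, 10, 12], [11, 1, 2, 12, 5, 13, 14, 7, 6], [8,
    1, 11, 15], [13, 3, 12, 16], [11, 3, 7, 17], [17, 6, 3, 14, 18]]
  P := {
    a := 8
    N := 19
    nb := [1794, 3357, 5130, 30950, 35074, 77832, 133256, 409672, 33299, 1281, 4615, 163930, 66604,
      81960, 270472, 2320, 12320, 264384, 147584]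
    tri := [(0, 1, 8), (0, 1, 10), (0, 8, 9), (0, 9, 10), (1, 2, 3), (1, 2, 10), (1, 3, 11), (1, 4, 8),
      (1, 4, 11), (2, 3, 12), (2, 10, 12), (3, 5, 12), (3, 5, 13), (3, 6, 7), (3, 6, 11), (3, 7,
      14), (3, 13, 14), (4, 8, 15), (4, 11, 15), (5, 12, 16), (5, 13, 16), (6, 7, 17), (6, 11,
      17), (7, 14, 18), (7, 17, 18)]
    fin := [0, 1, 1, 3, 1, 3, 3, 3, 0, 9, 1, 3, 3, 13, 3, 15, 16, 17, 18]
    chd := [(0, 1), (1, 15)]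
    steps := [(0, 8), (1, 2), (1, 4), (1, 10), (3, 5), (3, 6), (3, 7), (3, 12), (3, 14), (3, 11)] }
  rep := [3, 1, 13, 0, 17, 15, 9, 16, 18]

noncomputable def v3411 : Cov.CovD where
  P := 3
  N := 6
  pl := [1, 5, 8, 9, 10]
  lev := [⟨[], [], [(1, 3)], [6], [(0, 3, [1]), (2, 1, [3, 5])]⟩,
    ⟨[], [(0, 0), (0, 1), (0, 3)], [(0, 1), (0, 3), (1, 3)], [], [(0, 3, [1]), (2, 1, [3,
      5]), (3, 0, [])]⟩,
    ⟨[(0, 1)], [(0, 1), (1, 0), (1, 1), (1, 3)], [(0, 1)], [], [(2, 1, [3, 5]), (4, 0,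
      [])]⟩,
    ⟨[(0, 1), (1, 2)], [(1, 0), (1, 1), (1, 3), (2, 0), (2, 1)], [(0, 0)], [2], [(3, 0,
      []), (4, 0, []), (6, 0, [])]⟩,
    ⟨[(0, 1), (1, 2), (1, 3)], [(0, 3), (1, 0), (1, 1), (1, 3), (1, 5), (3, 0)], [(0, 3),
      (0, 5), (3, 5)], [], [(0, 3, [1]), (3, 0, []), (7, 5, [1])]⟩,
    ⟨[(1, 3), (2, 3)], [(2, 0), (3, 0)], [], [2, 7], [(4, 0, [])]⟩,
    ⟨[(1, 3), (2, 3), (3, 5)], [(1, 0), (3, 0), (4, 0)], [], [4], [(3, 0, [])]⟩,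
    ⟨[(1, 3), (2, 3), (3, 5), (3, 6)], [(3, 0), (6, 0)], [], [4, 8], [(6, 0, [])]⟩]
  Ta := [((3, 7), 0, 5), ((3, 9), 0, 4), ((4, 2), 0, 1), ((4, 8), 0, 7), ((6, 5), 0, 2), ((6,
    10), 0, 8)]
  Tb := [((0, 1, 7), 3, 6, 5), ((1, 0, 2), 6, 3, 1), ((2, 1, 4), 1, 6, 0), ((3, 7, 9), 0, 5, 4),
    ((4, 2, 8), 0, 1, 7), ((5, 6, 8), 2, 0, 7), ((6, 5, 10), 0, 2, 8), ((7, 0, 3), 5, 3, 0),
    ((8, 4, 5), 7, 0, 2), ((9, 3, 10), 4, 0, 8), ((10, 6, 9), 8, 0, 4)]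
  Tc := [(1, 3, 5)]
  Td := [((1, 3), (2, 1), 6), ((1, 3), (2, 4), 0), ((1, 5), (2, 1), 6), ((1, 5), (2, 4), 0), ((3,
    1), (0, 1), 6), ((3, 1), (0, 7), 5), ((5, 1), (7, 0), 3), ((5, 1), (7, 3), 0)]
  G := [[0, 0, 0, 0x1ba124485361288453612841a61284cd, 0xc16122483561288416c122816c1224cd], [0,
    0x11611ac142811611ac182411a11ac1482e, 0,
    0x11a8244116428811a4248d11a8244116428811a8244d1164111a81c411611cc184cd,
    0x11611ca224811a11ca22841162211c81a4116116a284cd], [0, 0,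
    0xe1a141e2418426814a5e2814214a584ce228e1e16281cd,
    0x82a124418245411288444284d811248611288881244de112482c31284cd,
    0xe112248e112284a6c1124e11228cd]]

noncomputable def n3411 : Ent := ⟨e3411, noF, [], [], [(9, 16, [31810581851548793677511941751458610980409781099126250235727204310991564801, 0]), (9, 18, [30043303427623734937691929578474300150491519007939870628445900451934965761, 0]), (17, 15, [31810150703026702604389600475053274033659867542605680387665729161849544705, 0])]⟩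

def c3411 : PLift (Cov.check n3411.C.D v3411 = true) := ⟨by decide +kernel⟩

def b3411 : PLift (entF (fidx ts) 400 3411 n3411 = true) := ⟨by decide +kernel⟩

theorem g3411 : GoodF (fidx ts) 400 3411 := GoodF.ofV v3411 n3411 c3411.down b3411.down

/-- 47494446:2610/2 -/
noncomputable def e3412 : SCfg where
  D := {
    a := 8
    L := 9
    kp := 6
    inn := [(0, 1), (1, 0), (1, 2), (1, 3), (1, 6), (1, 7), (2, 1), (2, 3), (3, 1), (3, 2), (3, 4), (3,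
      5), (3, 6), (4, 3), (5, 3), (6, 1), (6, 3), (6, 7), (7, 1), (7, 6)]
    mix := [(0, 0), (0, 1), (0, 2), (1, 0), (1, 2), (2, 2), (2, 3), (3, 3), (3, 4), (3, 5), (3, 6), (4,
      1), (4, 3), (4, 4), (5, 5), (5, 6), (5, 7), (6, 6), (7, 0), (7, 6), (7, 7), (7, 8)]
    cl := [3, 4, 1, 0, 2, 0, 3, 5, 6]
    chq := [(0, 3), (1, 3), (3, 0), (3, 1)]
    rng := [(0, 1), (0, 8), (1, 0), (1, 2), (1, 3), (1, 4), (2, 1), (2, 3), (3, 1), (3, 2), (4, 1), (4,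
      5), (5, 4), (5, 7), (6, 7), (7, 5), (7, 6), (7, 8), (8, 0), (8, 7)]
    lev := [] }
  links := [[1, 8, 9, 10], [8, 0, 10, 2, 3, 6, 7], [3, 1, 10, 11], [6, 1, 2, 11, 4, 12, 13, 5, 14], [12,
    3, 11, 9], [14, 3, 13, 15], [7, 1, 3, 14], [8, 1, 6, 14, 15, 16]]
  P := {
    a := 8
    N := 17
    nb := [1794, 1485, 3082, 30838, 6664, 57352, 16522, 115010, 66179, 7441, 2567, 1564, 8728, 36904,
      33000, 90272, 33152]
    tri := [(0, 1, 8), (0, 1, 10), (0, 8, 9), (0, 9, 10), (1, 2, 3), (1, 2, 10), (1, 3, 6), (1, 6, 7),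
      (1, 7, 8), (2, 3, 11), (2, 10, 11), (3, 4, 11), (3, 4, 12), (3, 5, 13), (3, 5, 14), (3, 6,
      14), (3, 12, 13), (4, 9, 11), (4, 9, 12), (5, 13, 15), (5, 14, 15), (6, 7, 14), (7, 8, 16),
      (7, 14, 15), (7, 15, 16)]
    fin := [0, 0, 0, 3, 4, 0, 0, 0, 0, 4, 10, 3, 12, 3, 0, 15, 16]
    chd := [(0, 3), (0, 10)]
    steps := [(0, 1), (0, 2), (0, 6), (0, 7), (0, 8), (0, 14), (0, 5), (3, 11), (3, 13), (4, 9)] }
  rep := [3, 10, 12, 0, 4, 15, 16]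

noncomputable def v3412 : Cov.CovD where
  P := 3
  N := 4
  pl := [1, 4, 7, 8]
  lev := [⟨[], [], [(1, 3)], [4], [(0, 3, [0, 1]), (2, 1, [3])]⟩,
    ⟨[], [(0, 1), (0, 3)], [(1, 3)], [], [(0, 3, [0, 1]), (2, 1, [3])]⟩,
    ⟨[(0, 1)], [(0, 1), (1, 0), (1, 1), (1, 3)], [(0, 1)], [], [(2, 1, [3]), (3, 0, [3])]⟩,
    ⟨[(0, 1), (1, 2)], [(1, 0), (1, 1), (1, 3), (2, 0), (2, 1), (2, 3)], [(0, 0), (0, 3)],
      [2], [(3, 0, [3]), (5, 0, [3]), (6, 3, [0, 1])]⟩,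
    ⟨[(1, 3), (2, 3)], [(2, 0), (3, 0), (3, 3)], [], [2, 4], [(3, 0, [3])]⟩,
    ⟨[(1, 3), (2, 3), (3, 4)], [(3, 0), (3, 3)], [(0, 3)], [5], [(5, 0, [3]), (6, 3, [0,
      1])]⟩,
    ⟨[(0, 1), (1, 2), (1, 3), (2, 3), (3, 4), (3, 5)], [(1, 1), (1, 3), (3, 0), (3, 3), (5,
      3)], [], [], [(6, 3, [0, 1])]⟩,
    ⟨[(0, 1), (1, 2), (1, 3), (1, 6), (3, 6)], [(0, 3), (1, 1), (1, 3), (3, 3), (5, 3), (6,
      3)], [(3, 3)], [5, 6], [(0, 3, [0, 1]), (6, 3, [0, 1])]⟩]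
  Ta := [((0, 1), 3, 4), ((0, 8), 3, 6), ((3, 1), 0, 4), ((3, 2), 0, 1), ((5, 4), 0, 2), ((5, 7),
    0, 5), ((6, 7), 3, 5)]
  Tb := [((0, 1, 8), 3, 4, 6), ((1, 0, 2), 4, 3, 1), ((1, 0, 3), 4, 3, 0), ((1, 0, 4), 4, 3, 2),
    ((1, 2, 3), 4, 1, 0), ((1, 2, 4), 4, 1, 2), ((1, 3, 4), 4, 0, 2), ((2, 1, 3), 1, 4, 0),
    ((3, 1, 2), 0, 4, 1), ((4, 1, 5), 2, 4, 0), ((5, 4, 7), 0, 2, 5), ((7, 5, 6), 5, 0, 3),
    ((7, 5, 8), 5, 0, 6), ((7, 6, 8), 5, 3, 6), ((8, 0, 7), 6, 3, 5)]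
  Tc := [(3, 0, 1)]
  Td := [((0, 3), (3, 1), 4), ((0, 3), (3, 2), 1), ((0, 3), (5, 4), 2), ((0, 3), (5, 7), 5), ((1,
    3), (2, 1), 4), ((1, 3), (2, 3), 0), ((3, 0), (0, 1), 4), ((3, 0), (0, 8), 6), ((3, 0),
    (6, 7), 5), ((3, 1), (0, 1), 4), ((3, 1), (0, 8), 6), ((3, 1), (6, 7), 5)]
  G := [[0, 0x721842842882888848ed1144221583448a22248221184291145118c8ee, 0,
    0xd22468841c86852b4481341484b2884882844288c4dd,
    0xb878c82415232628413142281822c7118291128ccd], [0, 0x9118486118486f114882c, 0,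
    0x8452126e8481a26432d4841c, 0x915131e8284c2a29272881c], [0, 0,
    0xb14b14c214244146318b18ac1c1, 0x435418181c4328148c28148d1, 0x9431c12451316128c1], [0, 0,
    0xb1281454985831ec6141, 0x32218171a1c514845d18481c1, 0x915131e12841]]

noncomputable def n3412 : Ent := ⟨e3412, noF, [], [], []⟩

def c3412 : PLift (Cov.check n3412.C.D v3412 = true) := ⟨by decide +kernel⟩

def b3412 : PLift (entF (fidx ts) 400 3412 n3412 = true) := ⟨by decide +kernel⟩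

theorem g3412 : GoodF (fidx ts) 400 3412 := GoodF.ofV v3412 n3412 c3412.down b3412.down

/-- 47494446:2610/1 -/
noncomputable def e3413 : SCfg where
  D := {
    a := 8
    L := 10
    kp := 7
    inn := [(0, 1), (1, 0), (1, 2), (1, 3), (1, 6), (1, 7), (2, 1), (2, 3), (3, 1), (3, 2), (3, 4), (3,
      5), (3, 6), (4, 3), (5, 3), (6, 1), (6, 3), (6, 7), (7, 1), (7, 6)]
    mix := [(0, 0), (0, 1), (0, 2), (1, 0), (1, 2), (2, 2), (2, 3), (3, 3), (3, 4), (3, 5), (3, 6), (4,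
      1), (4, 3), (4, 4), (5, 5), (5, 6), (5, 7), (6, 6), (7, 0), (7, 6), (7, 8), (7, 9)]
    cl := [0, 2, 1, 3, 4, 3, 0, 5, 6, 7]
    chq := [(0, 1), (0, 3), (1, 0), (3, 0)]
    rng := [(0, 1), (0, 9), (1, 0), (1, 2), (1, 3), (1, 4), (2, 1), (2, 3), (3, 1), (3, 2), (4, 1), (4,
      5), (5, 4), (5, 7), (6, 7), (6, 8), (7, 5), (7, 6), (8, 6), (8, 9), (9, 0), (9, 8)]
    lev := [] }
  links := [[1, 8, 9, 10], [8, 0, 10, 2, 3, 6, 7], [3, 1, 10, 11], [6, 1, 2, 11, 4, 12, 13, 5, 14], [12,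
    3, 11, 9], [14, 3, 13, 15], [7, 1, 3, 14], [8, 1, 6, 14, 16, 17]]
  P := {
    a := 8
    N := 18
    nb := [1794, 1485, 3082, 30838, 6664, 57352, 16522, 213314, 131715, 7441, 2567, 1564, 8728, 36904,
      98536, 24608, 147584, 65920]
    tri := [(0, 1, 8), (0, 1, 10), (0, 8, 9), (0, 9, 10), (1, 2, 3), (1, 2, 10), (1, 3, 6), (1, 6, 7),
      (1, 7, 8), (2, 3, 11), (2, 10, 11), (3, 4, 11), (3, 4, 12), (3, 5, 13), (3, 5, 14), (3, 6,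
      14), (3, 12, 13), (4, 9, 11), (4, 9, 12), (5, 13, 15), (5, 14, 15), (6, 7, 14), (7, 8, 17),
      (7, 14, 16), (7, 16, 17)]
    fin := [0, 0, 0, 3, 4, 0, 0, 0, 0, 4, 10, 3, 12, 3, 0, 15, 16, 17]
    chd := [(0, 3), (0, 10)]
    steps := [(0, 1), (0, 2), (0, 6), (0, 7), (0, 8), (0, 14), (0, 5), (3, 11), (3, 13), (4, 9)] }
  rep := [0, 10, 4, 3, 12, 15, 16, 17]

noncomputable def v3413 : Cov.CovD where
  P := 3
  N := 5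
  pl := [1, 4, 7, 8, 9]
  lev := [⟨[], [], [(0, 1)], [2], [(0, 0, [1, 3]), (2, 1, [0])]⟩,
    ⟨[], [(0, 0), (0, 1)], [(0, 1)], [], [(0, 0, [1, 3]), (2, 1, [0])]⟩,
    ⟨[(0, 1)], [(0, 1), (1, 0), (1, 1), (1, 3)], [(1, 3)], [], [(2, 1, [0]), (3, 3, [0])]⟩,
    ⟨[(0, 1), (1, 2)], [(1, 0), (1, 1), (1, 3), (2, 0), (2, 1), (2, 3)], [(0, 3), (3, 3)],
      [4], [(3, 3, [0]), (5, 3, [0]), (6, 0, [1, 3])]⟩,
    ⟨[(1, 3), (2, 3)], [(2, 3), (3, 0), (3, 3)], [], [2, 4], [(3, 3, [0])]⟩,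
    ⟨[(1, 3), (2, 3), (3, 4)], [(3, 0), (3, 3)], [(0, 3)], [5], [(5, 3, [0]), (6, 0, [1,
      3])]⟩,
    ⟨[(0, 1), (1, 2), (1, 3), (2, 3), (3, 4), (3, 5)], [(1, 0), (1, 1), (3, 0), (3, 3), (5,
      0)], [], [], [(6, 0, [1, 3])]⟩,
    ⟨[(0, 1), (1, 2), (1, 3), (1, 6), (3, 6)], [(0, 0), (1, 0), (1, 1), (3, 0), (5, 0), (6,
      0)], [(0, 0)], [6, 7], [(0, 0, [1, 3]), (6, 0, [1, 3])]⟩]
  Ta := [((0, 1), 0, 2), ((0, 9), 0, 7), ((3, 1), 3, 2), ((3, 2), 3, 1), ((5, 4), 3, 4), ((5, 7),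
    3, 5), ((6, 7), 0, 5), ((6, 8), 0, 6)]
  Tb := [((0, 1, 9), 0, 2, 7), ((1, 0, 2), 2, 0, 1), ((1, 0, 3), 2, 0, 3), ((1, 0, 4), 2, 0, 4),
    ((1, 2, 3), 2, 1, 3), ((1, 2, 4), 2, 1, 4), ((1, 3, 4), 2, 3, 4), ((2, 1, 3), 1, 2, 3),
    ((3, 1, 2), 3, 2, 1), ((4, 1, 5), 4, 2, 3), ((5, 4, 7), 3, 4, 5), ((6, 7, 8), 0, 5, 6),
    ((7, 5, 6), 5, 3, 0), ((8, 6, 9), 6, 0, 7), ((9, 0, 8), 7, 0, 6)]
  Tc := [(0, 1, 3)]
  Td := [((0, 1), (0, 1), 2), ((0, 1), (0, 9), 7), ((0, 1), (6, 7), 5), ((0, 1), (6, 8), 6), ((0,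
    3), (0, 1), 2), ((0, 3), (0, 9), 7), ((0, 3), (6, 7), 5), ((0, 3), (6, 8), 6), ((1, 0),
    (2, 1), 2), ((1, 0), (2, 3), 3), ((3, 0), (3, 1), 2), ((3, 0), (3, 2), 1), ((3, 0), (5,
    4), 4), ((3, 0), (5, 7), 5)]
  G := [[0, 0x4aa142ca11616861881a4, 0xe218e812a14e214418c, 0xe84a448692a1812e8842152d48,
    0x421141e1e168a811e14acc2e1c8], [0, 0x281122e418e814c811e1a4, 0xe2e2e4e81e4122584,
    0x68c1e1e168ab92484, 0x42284414845e8212a8a8a2b8a454269c8], [0, 0x2cc1121e418e814c1a4, 0,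
    0xe844ac4928a468e4852458, 0x2c6e268e84acc2a1e8e8a14458], [0, 0x621441a461888184ac11e1c8,
    0, 0xe82c6e8ee8a464ace52841, 0x68a282cc44ac236e2484581]]

noncomputable def n3413 : Ent := ⟨e3413, noF, [], [], [(15, 16, [7334685537875745012586738086077695515070955365108989538292687707652097, 0])]⟩

def c3413 : PLift (Cov.check n3413.C.D v3413 = true) := ⟨by decide +kernel⟩

def b3413 : PLift (entF (fidx ts) 400 3413 n3413 = true) := ⟨by decide +kernel⟩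

theorem g3413 : GoodF (fidx ts) 400 3413 := GoodF.ofV v3413 n3413 c3413.down b3413.down

/-- 47494446:2610/4 -/
noncomputable def e3414 : SCfg where
  D := {
    a := 8
    L := 9
    kp := 6
    inn := [(0, 1), (1, 0), (1, 2), (1, 3), (1, 6), (1, 7), (2, 1), (2, 3), (3, 1), (3, 2), (3, 4), (3,
      5), (3, 6), (4, 3), (5, 3), (6, 1), (6, 3), (6, 7), (7, 1), (7, 6)]
    mix := [(0, 0), (0, 1), (0, 2), (1, 0), (1, 2), (2, 2), (2, 3), (3, 3), (3, 4), (3, 5), (3, 6), (4,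
      3), (4, 4), (4, 7), (5, 5), (5, 6), (5, 8), (6, 6), (7, 0), (7, 6), (7, 7), (7, 8)]
    cl := [3, 6, 1, 0, 2, 0, 3, 4, 5]
    chq := [(0, 3), (1, 3), (3, 0), (3, 1)]
    rng := [(0, 1), (0, 7), (1, 0), (1, 2), (2, 1), (2, 3), (3, 2), (3, 7), (4, 5), (4, 7), (5, 4), (5,
      8), (6, 8), (7, 0), (7, 3), (7, 4), (7, 8), (8, 5), (8, 6), (8, 7)]
    lev := [] }
  links := [[1, 8, 9, 10], [8, 0, 10, 2, 3, 6, 7], [3, 1, 10, 11], [6, 1, 2, 11, 4, 12, 13, 5, 14], [12,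
    3, 11, 15], [14, 3, 13, 16], [7, 1, 3, 14], [8, 1, 6, 14, 16, 15]]
  P := {
    a := 8
    N := 17
    nb := [1794, 1485, 3082, 30838, 38920, 90120, 16522, 115010, 33411, 1281, 2567, 33820, 40984,
      69672, 65768, 72080, 57504]
    tri := [(0, 1, 8), (0, 1, 10), (0, 8, 9), (0, 9, 10), (1, 2, 3), (1, 2, 10), (1, 3, 6), (1, 6, 7),
      (1, 7, 8), (2, 3, 11), (2, 10, 11), (3, 4, 11), (3, 4, 12), (3, 5, 13), (3, 5, 14), (3, 6,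
      14), (3, 12, 13), (4, 11, 15), (4, 12, 15), (5, 13, 16), (5, 14, 16), (6, 7, 14), (7, 8,
      15), (7, 14, 16), (7, 15, 16)]
    fin := [0, 0, 0, 3, 3, 0, 0, 0, 0, 9, 10, 3, 12, 3, 0, 15, 16]
    chd := [(0, 3), (0, 10)]
    steps := [(0, 1), (0, 2), (0, 6), (0, 7), (0, 8), (0, 14), (0, 5), (3, 4), (3, 11), (3, 13)] }
  rep := [3, 10, 12, 0, 15, 16, 9]

noncomputable def v3414 : Cov.CovD where
  P := 3
  N := 4
  pl := [1, 4, 7, 8]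
  lev := [⟨[], [], [(1, 3)], [6], [(0, 3, [0, 1]), (2, 1, [3])]⟩,
    ⟨[], [(0, 1), (0, 3)], [(1, 3)], [], [(0, 3, [0, 1]), (2, 1, [3])]⟩,
    ⟨[(0, 1)], [(0, 1), (1, 0), (1, 1), (1, 3)], [(0, 1)], [], [(2, 1, [3]), (3, 0, [3])]⟩,
    ⟨[(0, 1), (1, 2)], [(1, 0), (1, 1), (1, 3), (2, 0), (2, 1), (2, 3)], [(0, 0), (0, 3)],
      [2], [(3, 0, [3]), (5, 0, [3]), (6, 3, [0, 1])]⟩,
    ⟨[(1, 3), (2, 3)], [(2, 0), (3, 0), (3, 3)], [], [2, 4], [(3, 0, [3])]⟩,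
    ⟨[(1, 3), (2, 3), (3, 4)], [(3, 0), (3, 3)], [(0, 3)], [5], [(5, 0, [3]), (6, 3, [0,
      1])]⟩,
    ⟨[(0, 1), (1, 2), (1, 3), (2, 3), (3, 4), (3, 5)], [(1, 1), (1, 3), (3, 0), (3, 3), (5,
      3)], [], [], [(6, 3, [0, 1])]⟩,
    ⟨[(0, 1), (1, 2), (1, 3), (1, 6), (3, 6)], [(0, 3), (1, 1), (1, 3), (3, 3), (5, 3), (6,
      3)], [(3, 3)], [4, 5], [(0, 3, [0, 1]), (6, 3, [0, 1])]⟩]
  Ta := [((0, 1), 3, 6), ((0, 7), 3, 4), ((3, 2), 0, 1), ((3, 7), 0, 4), ((5, 4), 0, 2), ((5, 8),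
    0, 5), ((6, 8), 3, 5)]
  Tb := [((0, 1, 7), 3, 6, 4), ((1, 0, 2), 6, 3, 1), ((2, 1, 3), 1, 6, 0), ((3, 2, 7), 0, 1, 4),
    ((4, 5, 7), 2, 0, 4), ((5, 4, 8), 0, 2, 5), ((7, 0, 3), 4, 3, 0), ((7, 0, 4), 4, 3, 2),
    ((7, 0, 8), 4, 3, 5), ((7, 3, 4), 4, 0, 2), ((7, 3, 8), 4, 0, 5), ((7, 4, 8), 4, 2, 5),
    ((8, 5, 6), 5, 0, 3), ((8, 5, 7), 5, 0, 4), ((8, 6, 7), 5, 3, 4)]
  Tc := [(3, 0, 1)]
  Td := [((0, 3), (3, 2), 1), ((0, 3), (3, 7), 4), ((0, 3), (5, 4), 2), ((0, 3), (5, 8), 5), ((1,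
    3), (2, 1), 6), ((1, 3), (2, 3), 0), ((3, 0), (0, 1), 6), ((3, 0), (0, 7), 4), ((3, 0),
    (6, 8), 5), ((3, 1), (0, 1), 6), ((3, 1), (0, 7), 4), ((3, 1), (6, 8), 5)]
  G := [[0, 0x121112c42114488a112111c8214884261118414148c2e, 0,
    0x41622648222a8c81423464822212b8c41141484181848a81621c48dd,
    0xb24141a84194127418a412214328414a8a448185618a28cd], [0, 0x111181c48211141418c28c, 0,
    0x823894215238c415218444231648222a8c8c5, 0x91127118a8442221172884111e8a849], [0, 0,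
    0x1848212428c1118118c284114114684118128a48cd, 0xb24188172814815141849228a1482ca4184dd,
    0xb84128174812818118c314a21114821e128cd], [0, 0, 0x12146142a4811421218ac841c,
    0xd292661481d2176a1841c, 0x985131e1284985131e12849]]

noncomputable def n3414 : Ent := ⟨e3414, noF, [], [], []⟩

def c3414 : PLift (Cov.check n3414.C.D v3414 = true) := ⟨by decide +kernel⟩

def b3414 : PLift (entF (fidx ts) 400 3414 n3414 = true) := ⟨by decide +kernel⟩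

theorem g3414 : GoodF (fidx ts) 400 3414 := GoodF.ofV v3414 n3414 c3414.down b3414.down

/-- 47494446:2610/3 -/
noncomputable def e3415 : SCfg where
  D := {
    a := 8
    L := 10
    kp := 7
    inn := [(0, 1), (1, 0), (1, 2), (1, 3), (1, 6), (1, 7), (2, 1), (2, 3), (3, 1), (3, 2), (3, 4), (3,
      5), (3, 6), (4, 3), (5, 3), (6, 1), (6, 3), (6, 7), (7, 1), (7, 6)]
    mix := [(0, 0), (0, 1), (0, 2), (1, 0), (1, 2), (2, 2), (2, 3), (3, 3), (3, 4), (3, 5), (3, 6), (4,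
      3), (4, 4), (4, 7), (5, 5), (5, 6), (5, 8), (6, 6), (7, 0), (7, 6), (7, 7), (7, 9)]
    cl := [0, 5, 2, 1, 3, 1, 0, 4, 6, 7]
    chq := [(0, 1), (0, 2), (1, 0), (2, 0)]
    rng := [(0, 1), (0, 7), (1, 0), (1, 2), (2, 1), (2, 3), (3, 2), (3, 7), (4, 5), (4, 7), (5, 4), (5,
      8), (6, 8), (6, 9), (7, 0), (7, 3), (7, 4), (7, 9), (8, 5), (8, 6), (9, 6), (9, 7)]
    lev := [] }
  links := [[1, 8, 9, 10], [8, 0, 10, 2, 3, 6, 7], [3, 1, 10, 11], [6, 1, 2, 11, 4, 12, 13, 5, 14], [12,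
    3, 11, 15], [14, 3, 13, 16], [7, 1, 3, 14], [8, 1, 6, 14, 17, 15]]
  P := {
    a := 8
    N := 18
    nb := [1794, 1485, 3082, 30838, 38920, 90120, 16522, 180546, 33411, 1281, 2567, 33820, 40984,
      69672, 196840, 137616, 24608, 49280]
    tri := [(0, 1, 8), (0, 1, 10), (0, 8, 9), (0, 9, 10), (1, 2, 3), (1, 2, 10), (1, 3, 6), (1, 6, 7),
      (1, 7, 8), (2, 3, 11), (2, 10, 11), (3, 4, 11), (3, 4, 12), (3, 5, 13), (3, 5, 14), (3, 6,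
      14), (3, 12, 13), (4, 11, 15), (4, 12, 15), (5, 13, 16), (5, 14, 16), (6, 7, 14), (7, 8,
      15), (7, 14, 17), (7, 15, 17)]
    fin := [0, 0, 0, 3, 3, 0, 0, 0, 0, 9, 10, 3, 12, 3, 0, 15, 16, 17]
    chd := [(0, 3), (0, 10)]
    steps := [(0, 1), (0, 2), (0, 6), (0, 7), (0, 8), (0, 14), (0, 5), (3, 4), (3, 11), (3, 13)] }
  rep := [0, 3, 10, 12, 15, 9, 16, 17]

noncomputable def v3415 : Cov.CovD where
  P := 3
  N := 5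
  pl := [1, 4, 7, 8, 9]
  lev := [⟨[], [], [(0, 2)], [5], [(0, 0, [1, 2]), (2, 2, [0])]⟩,
    ⟨[], [(0, 0), (0, 2)], [(0, 2)], [], [(0, 0, [1, 2]), (2, 2, [0])]⟩,
    ⟨[(0, 1)], [(0, 2), (1, 0), (1, 1), (1, 2)], [(1, 2)], [], [(2, 2, [0]), (3, 1, [0])]⟩,
    ⟨[(0, 1), (1, 2)], [(1, 0), (1, 1), (1, 2), (2, 0), (2, 1), (2, 2)], [(0, 1), (1, 1)],
      [3], [(3, 1, [0]), (5, 1, [0]), (6, 0, [1, 2])]⟩,
    ⟨[(1, 3), (2, 3)], [(2, 1), (3, 0), (3, 1)], [], [3, 4], [(3, 1, [0])]⟩,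
    ⟨[(1, 3), (2, 3), (3, 4)], [(3, 0), (3, 1)], [(0, 1)], [6], [(5, 1, [0]), (6, 0, [1,
      2])]⟩,
    ⟨[(0, 1), (1, 2), (1, 3), (2, 3), (3, 4), (3, 5)], [(1, 0), (1, 2), (3, 0), (3, 1), (5,
      0)], [], [], [(6, 0, [1, 2])]⟩,
    ⟨[(0, 1), (1, 2), (1, 3), (1, 6), (3, 6)], [(0, 0), (1, 0), (1, 2), (3, 0), (5, 0), (6,
      0)], [(0, 0)], [4, 7], [(0, 0, [1, 2]), (6, 0, [1, 2])]⟩]
  Ta := [((0, 1), 0, 5), ((0, 7), 0, 4), ((3, 2), 1, 2), ((3, 7), 1, 4), ((5, 4), 1, 3), ((5, 8),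
    1, 6), ((6, 8), 0, 6), ((6, 9), 0, 7)]
  Tb := [((0, 1, 7), 0, 5, 4), ((1, 0, 2), 5, 0, 2), ((2, 1, 3), 2, 5, 1), ((3, 2, 7), 1, 2, 4),
    ((4, 5, 7), 3, 1, 4), ((5, 4, 8), 1, 3, 6), ((6, 8, 9), 0, 6, 7), ((7, 0, 3), 4, 0, 1),
    ((7, 0, 4), 4, 0, 3), ((7, 0, 9), 4, 0, 7), ((7, 3, 4), 4, 1, 3), ((7, 3, 9), 4, 1, 7),
    ((7, 4, 9), 4, 3, 7), ((8, 5, 6), 6, 1, 0), ((9, 6, 7), 7, 0, 4)]
  Tc := [(0, 1, 2)]
  Td := [((0, 1), (0, 1), 5), ((0, 1), (0, 7), 4), ((0, 1), (6, 8), 6), ((0, 1), (6, 9), 7), ((0,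
    2), (0, 1), 5), ((0, 2), (0, 7), 4), ((0, 2), (6, 8), 6), ((0, 2), (6, 9), 7), ((1, 0),
    (3, 2), 2), ((1, 0), (3, 7), 4), ((1, 0), (5, 4), 3), ((1, 0), (5, 8), 6), ((2, 0), (2,
    1), 5), ((2, 0), (2, 3), 1)]
  G := [[0, 0xa45e261e1e8a1a841, 0x28616129682a815c122861642924a1a825c12c,
    0x621441a226229a211c1c612161228c15c1a22881cc,
    0xa1261294232a415c12222146211282621821dc9c42881aa], [0, 0xe1e261e82c6c1a841,
    0x841641ae811c126211e212c4821181ac, 0, 0xc216819e812c12641262128a15c1841288aa], [0,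
    0xe2e2a12ca68ac16481, 0xa126419612a815c12612161228c25c1a21881cc,
    0x622448a2224629a221c1c1, 0x28626429682a425c121], [0, 0xe168aa1e4e1c16481,
    0xe412e811c82641268c11c1821281ca, 0, 0xe441e8e8c2ce4818921]]

noncomputable def n3415 : Ent := ⟨e3415, noF, [], [], [(16, 17, [6903326391201334775872065844685381424292761054348340378595029943672833, 0])]⟩

def c3415 : PLift (Cov.check n3415.C.D v3415 = true) := ⟨by decide +kernel⟩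

def b3415 : PLift (entF (fidx ts) 400 3415 n3415 = true) := ⟨by decide +kernel⟩

theorem g3415 : GoodF (fidx ts) 400 3415 := GoodF.ofV v3415 n3415 c3415.down b3415.down

/-- 47494446:2610/5 -/
noncomputable def e3416 : SCfg where
  D := {
    a := 8
    L := 10
    kp := 7
    inn := [(0, 1), (1, 0), (1, 2), (1, 3), (1, 6), (1, 7), (2, 1), (2, 3), (3, 1), (3, 2), (3, 4), (3,
      5), (3, 6), (4, 3), (5, 3), (6, 1), (6, 3), (6, 7), (7, 1), (7, 6)]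
    mix := [(0, 0), (0, 1), (0, 2), (1, 0), (1, 2), (2, 2), (2, 3), (3, 3), (3, 4), (3, 5), (3, 6), (4,
      3), (4, 4), (4, 7), (5, 5), (5, 6), (5, 8), (6, 6), (7, 0), (7, 6), (7, 8), (7, 9)]
    cl := [3, 5, 1, 0, 2, 0, 3, 6, 4, 7]
    chq := [(0, 3), (1, 3), (3, 0), (3, 1)]
    rng := [(0, 1), (0, 9), (1, 0), (1, 2), (2, 1), (2, 3), (3, 2), (3, 7), (4, 5), (4, 7), (5, 4), (5,
      8), (6, 8), (7, 3), (7, 4), (8, 5), (8, 6), (8, 9), (9, 0), (9, 8)]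
    lev := [] }
  links := [[1, 8, 9, 10], [8, 0, 10, 2, 3, 6, 7], [3, 1, 10, 11], [6, 1, 2, 11, 4, 12, 13, 5, 14], [12,
    3, 11, 15], [14, 3, 13, 16], [7, 1, 3, 14], [8, 1, 6, 14, 16, 17]]
  P := {
    a := 8
    N := 18
    nb := [1794, 1485, 3082, 30838, 38920, 90120, 16522, 213314, 131715, 1281, 2567, 33820, 40984,
      69672, 65768, 6160, 155808, 65920]
    tri := [(0, 1, 8), (0, 1, 10), (0, 8, 9), (0, 9, 10), (1, 2, 3), (1, 2, 10), (1, 3, 6), (1, 6, 7),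
      (1, 7, 8), (2, 3, 11), (2, 10, 11), (3, 4, 11), (3, 4, 12), (3, 5, 13), (3, 5, 14), (3, 6,
      14), (3, 12, 13), (4, 11, 15), (4, 12, 15), (5, 13, 16), (5, 14, 16), (6, 7, 14), (7, 8,
      17), (7, 14, 16), (7, 16, 17)]
    fin := [0, 0, 0, 3, 3, 0, 0, 0, 0, 9, 10, 3, 12, 3, 0, 15, 16, 17]
    chd := [(0, 3), (0, 10)]
    steps := [(0, 1), (0, 2), (0, 6), (0, 7), (0, 8), (0, 14), (0, 5), (3, 4), (3, 11), (3, 13)] }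
  rep := [3, 10, 12, 0, 16, 9, 15, 17]

noncomputable def v3416 : Cov.CovD where
  P := 3
  N := 5
  pl := [1, 4, 7, 8, 9]
  lev := [⟨[], [], [(1, 3)], [5], [(0, 3, [0, 1]), (2, 1, [3])]⟩,
    ⟨[], [(0, 1), (0, 3)], [(1, 3)], [], [(0, 3, [0, 1]), (2, 1, [3])]⟩,
    ⟨[(0, 1)], [(0, 1), (1, 0), (1, 1), (1, 3)], [(0, 1)], [], [(2, 1, [3]), (3, 0, [3])]⟩,
    ⟨[(0, 1), (1, 2)], [(1, 0), (1, 1), (1, 3), (2, 0), (2, 1), (2, 3)], [(0, 0), (0, 3)],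
      [2], [(3, 0, [3]), (5, 0, [3]), (6, 3, [0, 1])]⟩,
    ⟨[(1, 3), (2, 3)], [(2, 0), (3, 0), (3, 3)], [], [2, 6], [(3, 0, [3])]⟩,
    ⟨[(1, 3), (2, 3), (3, 4)], [(3, 0), (3, 3)], [(0, 3)], [4], [(5, 0, [3]), (6, 3, [0,
      1])]⟩,
    ⟨[(0, 1), (1, 2), (1, 3), (2, 3), (3, 4), (3, 5)], [(1, 1), (1, 3), (3, 0), (3, 3), (5,
      3)], [], [], [(6, 3, [0, 1])]⟩,
    ⟨[(0, 1), (1, 2), (1, 3), (1, 6), (3, 6)], [(0, 3), (1, 1), (1, 3), (3, 3), (5, 3), (6,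
      3)], [(3, 3)], [4, 7], [(0, 3, [0, 1]), (6, 3, [0, 1])]⟩]
  Ta := [((0, 1), 3, 5), ((0, 9), 3, 7), ((3, 2), 0, 1), ((3, 7), 0, 6), ((5, 4), 0, 2), ((5, 8),
    0, 4), ((6, 8), 3, 4)]
  Tb := [((0, 1, 9), 3, 5, 7), ((1, 0, 2), 5, 3, 1), ((2, 1, 3), 1, 5, 0), ((3, 2, 7), 0, 1, 6),
    ((4, 5, 7), 2, 0, 6), ((5, 4, 8), 0, 2, 4), ((7, 3, 4), 6, 0, 2), ((8, 5, 6), 4, 0, 3),
    ((8, 5, 9), 4, 0, 7), ((8, 6, 9), 4, 3, 7), ((9, 0, 8), 7, 3, 4)]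
  Tc := [(3, 0, 1)]
  Td := [((0, 3), (3, 2), 1), ((0, 3), (3, 7), 6), ((0, 3), (5, 4), 2), ((0, 3), (5, 8), 4), ((1,
    3), (2, 1), 5), ((1, 3), (2, 3), 0), ((3, 0), (0, 1), 5), ((3, 0), (0, 9), 7), ((3, 0),
    (6, 8), 4), ((3, 1), (0, 1), 5), ((3, 1), (0, 9), 7), ((3, 1), (6, 8), 4)]
  G := [[0,
    0x711511c4284248128c88148431cc84e42144818c4912b21c8241147818c4e2414822184624242188c2d1184d1148cee,
    0, 0x229234883898c8174147218c4141221278472448c381a889432148c8214c81481cc8dd,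
    0x9834ab84a28142a412727818a4174128131c818aa4811258386214118daa8cd], [0,
    0xf11f11c482f11f11c842c, 0, 0xd2b46c26252bc481c2a2927d278ac841c,
    0xd212f11711aa84c1a1927281412811f8a849], [0, 0,
    0x314514c24a1484868493448cf48c2813247146818828ac13458718c21cd,
    0xf241841f281441714184b18148c24184dd, 0xf24184154b461841a118c12414812848246124dd], [0, 0,
    0xb122514915131ec6149278a9278a6841c, 0xd2b461481d278a1841c, 0x985131e1284985438e1241c]]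

noncomputable def n3416 : Ent := ⟨e3416, noF, [], [], [(9, 15, [7334790850167413569773436004105379185503274260204390087403942018629633, 0]), (15, 17, [6903326391201334775872065844685381424292761054348340378595029943672833, 0])]⟩

def c3416 : PLift (Cov.check n3416.C.D v3416 = true) := ⟨by decide +kernel⟩

def b3416 : PLift (entF (fidx ts) 400 3416 n3416 = true) := ⟨by decide +kernel⟩

theorem g3416 : GoodF (fidx ts) 400 3416 := GoodF.ofV v3416 n3416 c3416.down b3416.down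

/-- 47494446:2610 -/
noncomputable def e3417 : SCfg where
  D := {
    a := 8
    L := 11
    kp := 8
    inn := [(0, 1), (1, 0), (1, 2), (1, 3), (1, 6), (1, 7), (2, 1), (2, 3), (3, 1), (3, 2), (3, 4), (3,
      5), (3, 6), (4, 3), (5, 3), (6, 1), (6, 3), (6, 7), (7, 1), (7, 6)]
    mix := [(0, 0), (0, 1), (0, 2), (1, 0), (1, 2), (2, 2), (2, 3), (3, 3), (3, 4), (3, 5), (3, 6), (4,
      3), (4, 4), (4, 7), (5, 5), (5, 6), (5, 8), (6, 6), (7, 0), (7, 6), (7, 9), (7, 10)]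
    cl := [0, 4, 2, 1, 3, 1, 0, 5, 6, 7, 8]
    chq := [(0, 1), (0, 2), (1, 0), (2, 0)]
    rng := [(0, 1), (0, 10), (1, 0), (1, 2), (2, 1), (2, 3), (3, 2), (3, 7), (4, 5), (4, 7), (5, 4),
      (5, 8), (6, 8), (6, 9), (7, 3), (7, 4), (8, 5), (8, 6), (9, 6), (9, 10), (10, 0), (10, 9)]
    lev := [] }
  links := [[1, 8, 9, 10], [8, 0, 10, 2, 3, 6, 7], [3, 1, 10, 11], [6, 1, 2, 11, 4, 12, 13, 5, 14], [12,
    3, 11, 15], [14, 3, 13, 16], [7, 1, 3, 14], [8, 1, 6, 14, 17, 18]]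
  P := {
    a := 8
    N := 19
    nb := [1794, 1485, 3082, 30838, 38920, 90120, 16522, 409922, 262787, 1281, 2567, 33820, 40984,
      69672, 196840, 6160, 24608, 278656, 131456]
    tri := [(0, 1, 8), (0, 1, 10), (0, 8, 9), (0, 9, 10), (1, 2, 3), (1, 2, 10), (1, 3, 6), (1, 6, 7),
      (1, 7, 8), (2, 3, 11), (2, 10, 11), (3, 4, 11), (3, 4, 12), (3, 5, 13), (3, 5, 14), (3, 6,
      14), (3, 12, 13), (4, 11, 15), (4, 12, 15), (5, 13, 16), (5, 14, 16), (6, 7, 14), (7, 8,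
      18), (7, 14, 17), (7, 17, 18)]
    fin := [0, 0, 0, 3, 3, 0, 0, 0, 0, 9, 10, 3, 12, 3, 0, 15, 16, 17, 18]
    chd := [(0, 3), (0, 10)]
    steps := [(0, 1), (0, 2), (0, 6), (0, 7), (0, 8), (0, 14), (0, 5), (3, 4), (3, 11), (3, 13)] }
  rep := [0, 3, 10, 12, 9, 15, 16, 17, 18]

noncomputable def v3417 : Cov.CovD where
  P := 3
  N := 6
  pl := [1, 4, 7, 8, 9, 10]
  lev := [⟨[], [], [(0, 2)], [4], [(0, 0, [1, 2]), (2, 2, [0])]⟩,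
    ⟨[], [(0, 0), (0, 2)], [(0, 2)], [], [(0, 0, [1, 2]), (2, 2, [0])]⟩,
    ⟨[(0, 1)], [(0, 2), (1, 0), (1, 1), (1, 2)], [(1, 2)], [], [(2, 2, [0]), (3, 1, [0])]⟩,
    ⟨[(0, 1), (1, 2)], [(1, 0), (1, 1), (1, 2), (2, 0), (2, 1), (2, 2)], [(0, 1), (1, 1)],
      [3], [(3, 1, [0]), (5, 1, [0]), (6, 0, [1, 2])]⟩,
    ⟨[(1, 3), (2, 3)], [(2, 1), (3, 0), (3, 1)], [], [3, 5], [(3, 1, [0])]⟩,
    ⟨[(1, 3), (2, 3), (3, 4)], [(3, 0), (3, 1)], [(0, 1)], [6], [(5, 1, [0]), (6, 0, [1,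
      2])]⟩,
    ⟨[(0, 1), (1, 2), (1, 3), (2, 3), (3, 4), (3, 5)], [(1, 0), (1, 2), (3, 0), (3, 1), (5,
      0)], [], [], [(6, 0, [1, 2])]⟩,
    ⟨[(0, 1), (1, 2), (1, 3), (1, 6), (3, 6)], [(0, 0), (1, 0), (1, 2), (3, 0), (5, 0), (6,
      0)], [(0, 0)], [7, 8], [(0, 0, [1, 2]), (6, 0, [1, 2])]⟩]
  Ta := [((0, 1), 0, 4), ((0, 10), 0, 8), ((3, 2), 1, 2), ((3, 7), 1, 5), ((5, 4), 1, 3), ((5,
    8), 1, 6), ((6, 8), 0, 6), ((6, 9), 0, 7)]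
  Tb := [((0, 1, 10), 0, 4, 8), ((1, 0, 2), 4, 0, 2), ((2, 1, 3), 2, 4, 1), ((3, 2, 7), 1, 2, 5),
    ((4, 5, 7), 3, 1, 5), ((5, 4, 8), 1, 3, 6), ((6, 8, 9), 0, 6, 7), ((7, 3, 4), 5, 1, 3),
    ((8, 5, 6), 6, 1, 0), ((9, 6, 10), 7, 0, 8), ((10, 0, 9), 8, 0, 7)]
  Tc := [(0, 1, 2)]
  Td := [((0, 1), (0, 1), 4), ((0, 1), (0, 10), 8), ((0, 1), (6, 8), 6), ((0, 1), (6, 9), 7),
    ((0, 2), (0, 1), 4), ((0, 2), (0, 10), 8), ((0, 2), (6, 8), 6), ((0, 2), (6, 9), 7), ((1,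
    0), (3, 2), 2), ((1, 0), (3, 7), 5), ((1, 0), (5, 4), 3), ((1, 0), (5, 8), 6), ((2, 0),
    (2, 1), 4), ((2, 0), (2, 3), 1)]
  G := [[0, 0xe24161a18148e1a1e841, 0xe22e22981e1214e814456e42c2329e12e825c12c,
    0x612421541a4611a2118824d82188621841c8dce4281621168c1e12e21dc5821188cc,
    0xe12e429e81e825c1222281621122168a1e21dc9c12841981aa], [0, 0xe14261a221e848a1e841,
    0x2c612ca1968c12c124212e21e215c1a21288cc, 0, 0xe412ca192c612c12241268a1a4615c1c41288aa],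
    [0, 0xe1e2a168ae1c16481, 0xc232e1292ca1e825c12e412c6198e824ac25452c,
    0xe22e22541e2268a2981c1, 0xe42e429e82a4625c121], [0, 0xe1689a1e1e1616481,
    0x2c612e812c615c82e2168c198281243c8124866, 0, 0xe442c68e44be88e84e887c121]]

noncomputable def n3417 : Ent := ⟨e3417, noF, [], [], [(9, 15, [31810581956861085346069128449376638664080213418021345636276315565302566913, 0]), (15, 18, [30043303427623734937691929578474300150491519007939870628445900451934990337, 0]), (16, 17, [31810150492402119267275227079217218666319002904815489586567506653227614209, 0])]⟩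

def c3417 : PLift (Cov.check n3417.C.D v3417 = true) := ⟨by decide +kernel⟩

def b3417 : PLift (entF (fidx ts) 400 3417 n3417 = true) := ⟨by decide +kernel⟩

theorem g3417 : GoodF (fidx ts) 400 3417 := GoodF.ofV v3417 n3417 c3417.down b3417.down

/-- 47494445:2613/1 -/
noncomputable def e3418 : SCfg where
  D := {
    a := 8
    L := 10
    kp := 7
    inn := [(0, 1), (1, 0), (1, 2), (1, 3), (1, 4), (2, 1), (2, 3), (3, 1), (3, 2), (3, 5), (3, 6), (3,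
      7), (4, 1), (5, 3), (5, 7), (6, 3), (7, 3), (7, 5)]
    mix := [(0, 0), (0, 1), (0, 2), (1, 0), (1, 2), (1, 3), (2, 2), (2, 4), (3, 3), (3, 4), (3, 5), (3,
      6), (4, 0), (4, 3), (4, 7), (5, 5), (5, 8), (6, 5), (6, 6), (6, 9), (7, 1), (7, 4), (7, 8)]
    cl := [3, 2, 0, 0, 1, 1, 4, 6, 5, 7]
    chq := [(0, 3), (1, 4), (3, 0), (4, 1)]
    rng := [(0, 1), (0, 7), (1, 0), (1, 2), (1, 4), (1, 8), (2, 1), (2, 4), (3, 6), (3, 7), (4, 1), (4,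
      2), (5, 8), (5, 9), (6, 3), (6, 9), (7, 0), (7, 3), (8, 1), (8, 5), (9, 5), (9, 6)]
    lev := [] }
  links := [[1, 8, 9, 10], [8, 0, 10, 2, 3, 11, 4], [3, 1, 10, 12], [11, 1, 2, 12, 7, 5, 13, 6, 14], [8,
    1, 11, 15], [13, 3, 7, 16], [14, 3, 13, 17], [16, 5, 3, 12, 9]]
  P := {
    a := 8
    N := 18
    nb := [1794, 3357, 5130, 30950, 35074, 73864, 155656, 70184, 33299, 71041, 4615, 49178, 1676,
      196712, 133192, 2320, 8864, 24640]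
    tri := [(0, 1, 8), (0, 1, 10), (0, 8, 9), (0, 9, 10), (1, 2, 3), (1, 2, 10), (1, 3, 11), (1, 4, 8),
      (1, 4, 11), (2, 3, 12), (2, 10, 12), (3, 5, 7), (3, 5, 13), (3, 6, 13), (3, 6, 14), (3, 7,
      12), (3, 11, 14), (4, 8, 15), (4, 11, 15), (5, 7, 16), (5, 13, 16), (6, 13, 17), (6, 14,
      17), (7, 9, 12), (7, 9, 16)]
    fin := [0, 1, 1, 3, 0, 5, 3, 5, 0, 5, 1, 1, 3, 3, 14, 15, 16, 17]
    chd := [(0, 1), (3, 14)]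
    steps := [(0, 8), (0, 4), (1, 2), (1, 10), (1, 11), (3, 6), (3, 12), (3, 13), (5, 7), (5, 9)] }
  rep := [1, 3, 5, 0, 14, 16, 15, 17]

noncomputable def v3418 : Cov.CovD where
  P := 3
  N := 5
  pl := [1, 7, 8, 9]
  lev := [⟨[], [], [(0, 3)], [2], [(0, 3, [0]), (2, 0, [3])]⟩,
    ⟨[], [(0, 0), (0, 3)], [(0, 0), (0, 3)], [], [(0, 3, [0]), (2, 0, [3]), (3, 0, [3])]⟩,
    ⟨[(0, 1)], [(0, 0), (1, 0), (1, 1), (1, 3)], [(0, 1)], [], [(2, 0, [3]), (4, 1, [4])]⟩,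
    ⟨[(0, 1), (1, 2)], [(1, 0), (1, 1), (1, 3), (1, 4), (2, 0), (2, 1), (2, 4)], [(0, 1),
      (0, 4), (1, 1), (1, 4)], [], [(3, 0, [3]), (4, 1, [4]), (5, 1, [4]), (6, 4, [1])]⟩,
    ⟨[(0, 1), (1, 2), (1, 3)], [(0, 3), (1, 0), (1, 3), (3, 0)], [(0, 3)], [6], [(0, 3,
      [0]), (3, 0, [3])]⟩,
    ⟨[(1, 3), (2, 3)], [(3, 0), (3, 1), (3, 4)], [], [5], [(5, 1, [4])]⟩,
    ⟨[(1, 3), (2, 3), (3, 5)], [(3, 0), (3, 1), (3, 4), (5, 1)], [(1, 4)], [7], [(5, 1,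
      [4]), (6, 4, [1])]⟩,
    ⟨[(1, 3), (2, 3), (3, 5), (3, 6)], [(2, 1), (3, 0), (3, 1), (3, 4), (5, 1)], [], [2,
      5], [(4, 1, [4])]⟩]
  Ta := [((2, 1), 0, 2), ((2, 4), 0, 1), ((3, 6), 0, 4), ((3, 7), 0, 6), ((4, 1), 1, 2), ((4, 2),
    1, 0), ((5, 8), 1, 5), ((5, 9), 1, 7)]
  Tb := [((0, 1, 7), 3, 2, 6), ((1, 0, 2), 2, 3, 0), ((1, 0, 4), 2, 3, 1), ((1, 0, 8), 2, 3, 5),
    ((1, 2, 4), 2, 0, 1), ((1, 2, 8), 2, 0, 5), ((1, 4, 8), 2, 1, 5), ((2, 1, 4), 0, 2, 1),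
    ((3, 6, 7), 0, 4, 6), ((4, 1, 2), 1, 2, 0), ((5, 8, 9), 1, 5, 7), ((6, 3, 9), 4, 0, 7),
    ((7, 0, 3), 6, 3, 0), ((8, 1, 5), 5, 2, 1), ((9, 5, 6), 7, 1, 4)]
  Tc := []
  Td := [((0, 3), (2, 1), 2), ((0, 3), (2, 4), 1), ((0, 3), (3, 6), 4), ((0, 3), (3, 7), 6), ((1,
    4), (4, 1), 2), ((1, 4), (4, 2), 0), ((1, 4), (5, 8), 5), ((1, 4), (5, 9), 7), ((3, 0),
    (0, 1), 2), ((3, 0), (0, 7), 6), ((4, 1), (6, 3), 0), ((4, 1), (6, 9), 7)]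
  G := [[0, 0x8141a18141c16288141a18141c1682c, 0x229118242c8242cc5848854231444982318c2a,
    0x8242c8242ca1828242c2188242c4146c,
    0x1131488a8454216441218c11918228e889cc9952148212518c2a], [0, 0,
    0xa111446891184ca41148414188ca65114669118c2e, 0,
    0x8111594428422cc81811195811195c81119888c84d6c21115182521591c2818518c2a], [0, 0, 0,
    0x4212588212984248286d824212542125682125824296c829,
    0x8861159248641821996821996c821298c1c88a12984429618582189d688691187e82129821296c4a9], [0,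
    0, 0, 0,
    0x8111951191c82842894c834314888512598851159cc8288511598851159c42214488885149243842811952291895e1112cceb]]

noncomputable def n3418 : Ent := ⟨e3418, noF, [], [], []⟩

def c3418 : PLift (Cov.check n3418.C.D v3418 = true) := ⟨by decide +kernel⟩

def b3418 : PLift (entF (fidx ts) 400 3418 n3418 = true) := ⟨by decide +kernel⟩

theorem g3418 : GoodF (fidx ts) 400 3418 := GoodF.ofV v3418 n3418 c3418.down b3418.down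

/-- 47494445:2613/2 -/
noncomputable def e3419 : SCfg where
  D := {
    a := 8
    L := 10
    kp := 7
    inn := [(0, 1), (1, 0), (1, 2), (1, 3), (1, 4), (2, 1), (2, 3), (3, 1), (3, 2), (3, 5), (3, 6), (3,
      7), (4, 1), (5, 3), (5, 7), (6, 3), (7, 3), (7, 5)]
    mix := [(0, 0), (0, 1), (0, 2), (1, 0), (1, 2), (1, 3), (2, 2), (2, 4), (3, 3), (3, 4), (3, 5), (3,
      6), (4, 0), (4, 3), (4, 7), (5, 1), (5, 5), (6, 5), (6, 6), (6, 8), (7, 1), (7, 4), (7, 9)]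
    cl := [3, 2, 0, 0, 1, 1, 4, 5, 6, 7]
    chq := [(0, 3), (1, 4), (3, 0), (4, 1)]
    rng := [(0, 1), (0, 7), (1, 0), (1, 2), (1, 5), (1, 9), (2, 1), (2, 4), (3, 6), (3, 7), (4, 2), (4,
      9), (5, 1), (5, 8), (6, 3), (6, 8), (7, 0), (7, 3), (8, 5), (8, 6), (9, 1), (9, 4)]
    lev := [] }
  links := [[1, 8, 9, 10], [8, 0, 10, 2, 3, 11, 4], [3, 1, 10, 12], [11, 1, 2, 12, 7, 5, 13, 6, 14], [8,
    1, 11, 15], [13, 3, 7, 9], [14, 3, 13, 16], [9, 5, 3, 12, 17]]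
  P := {
    a := 8
    N := 18
    nb := [1794, 3357, 5130, 30950, 35074, 8840, 90120, 135720, 33299, 140705, 4615, 49178, 132236,
      66152, 67656, 2320, 24640, 4736]
    tri := [(0, 1, 8), (0, 1, 10), (0, 8, 9), (0, 9, 10), (1, 2, 3), (1, 2, 10), (1, 3, 11), (1, 4, 8),
      (1, 4, 11), (2, 3, 12), (2, 10, 12), (3, 5, 7), (3, 5, 13), (3, 6, 13), (3, 6, 14), (3, 7,
      12), (3, 11, 14), (4, 8, 15), (4, 11, 15), (5, 7, 9), (5, 9, 13), (6, 13, 16), (6, 14, 16),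
      (7, 9, 17), (7, 12, 17)]
    fin := [0, 1, 1, 3, 0, 5, 3, 5, 0, 5, 1, 1, 3, 3, 14, 15, 16, 17]
    chd := [(0, 1), (3, 14)]
    steps := [(0, 8), (0, 4), (1, 2), (1, 10), (1, 11), (3, 6), (3, 12), (3, 13), (5, 7), (5, 9)] }
  rep := [1, 3, 5, 0, 14, 15, 16, 17]

noncomputable def v3419 : Cov.CovD where
  P := 3
  N := 5
  pl := [1, 7, 8, 9]
  lev := [⟨[], [], [(0, 3)], [2], [(0, 3, [0]), (2, 0, [3])]⟩,
    ⟨[], [(0, 0), (0, 3)], [(0, 0), (0, 3)], [], [(0, 3, [0]), (2, 0, [3]), (3, 0, [3])]⟩,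
    ⟨[(0, 1)], [(0, 0), (1, 0), (1, 1), (1, 3)], [(0, 1)], [], [(2, 0, [3]), (4, 1, [4])]⟩,
    ⟨[(0, 1), (1, 2)], [(1, 0), (1, 1), (1, 3), (1, 4), (2, 0), (2, 1), (2, 4)], [(0, 1),
      (0, 4), (1, 1), (1, 4)], [], [(3, 0, [3]), (4, 1, [4]), (5, 1, [4]), (6, 4, [1])]⟩,
    ⟨[(0, 1), (1, 2), (1, 3)], [(0, 3), (1, 0), (1, 3), (3, 0)], [(0, 3)], [5], [(0, 3,
      [0]), (3, 0, [3])]⟩,
    ⟨[(1, 3), (2, 3)], [(3, 0), (3, 1), (3, 4)], [], [2], [(5, 1, [4])]⟩,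
    ⟨[(1, 3), (2, 3), (3, 5)], [(3, 0), (3, 1), (3, 4), (5, 1)], [(1, 4)], [6], [(5, 1,
      [4]), (6, 4, [1])]⟩,
    ⟨[(1, 3), (2, 3), (3, 5), (3, 6)], [(2, 1), (3, 0), (3, 1), (3, 4), (5, 1)], [], [2,
      7], [(4, 1, [4])]⟩]
  Ta := [((2, 1), 0, 2), ((2, 4), 0, 1), ((3, 6), 0, 4), ((3, 7), 0, 5), ((4, 2), 1, 0), ((4, 9),
    1, 7), ((5, 1), 1, 2), ((5, 8), 1, 6)]
  Tb := [((0, 1, 7), 3, 2, 5), ((1, 0, 2), 2, 3, 0), ((1, 0, 5), 2, 3, 1), ((1, 0, 9), 2, 3, 7),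
    ((1, 2, 5), 2, 0, 1), ((1, 2, 9), 2, 0, 7), ((1, 5, 9), 2, 1, 7), ((2, 1, 4), 0, 2, 1),
    ((3, 6, 7), 0, 4, 5), ((4, 2, 9), 1, 0, 7), ((5, 1, 8), 1, 2, 6), ((6, 3, 8), 4, 0, 6),
    ((7, 0, 3), 5, 3, 0), ((8, 5, 6), 6, 1, 4), ((9, 1, 4), 7, 2, 1)]
  Tc := []
  Td := [((0, 3), (2, 1), 2), ((0, 3), (2, 4), 1), ((0, 3), (3, 6), 4), ((0, 3), (3, 7), 5), ((1,
    4), (4, 2), 0), ((1, 4), (4, 9), 7), ((1, 4), (5, 1), 2), ((1, 4), (5, 8), 6), ((3, 0),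
    (0, 1), 2), ((3, 0), (0, 7), 5), ((4, 1), (6, 3), 0), ((4, 1), (6, 8), 6)]
  G := [[0, 0x4181c1c181628c141c181a24c, 0xc2841822541c28898c2c6814c23418c26, 0,
    0x19381441231121c286849286881cc12824892311123828a85c46a], [0, 0,
    0x225812884582141284898c2421c14229418c26, 0x5994511a911918ac44ccc4ad4251419c511c58118c2c,
    0x218444211211c218822c822c8cd8c225814229118c2a], [0, 0, 0, 0,
    0x99384441998232961c29a18c1c21271488123829821921e29a8921292b1ec469], [0, 0, 0,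
    0x514899588c58488c295514459914892955824599428c2d,
    0x2251248641229121289c2188c1c948842211221822582251ec22912291281e8ca9]]

noncomputable def n3419 : Ent := ⟨e3419, noF, [], [], []⟩

def c3419 : PLift (Cov.check n3419.C.D v3419 = true) := ⟨by decide +kernel⟩

def b3419 : PLift (entF (fidx ts) 400 3419 n3419 = true) := ⟨by decide +kernel⟩

theorem g3419 : GoodF (fidx ts) 400 3419 := GoodF.ofV v3419 n3419 c3419.down b3419.down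

/-- 47494445:2613/3 -/
noncomputable def e3420 : SCfg where
  D := {
    a := 8
    L := 10
    kp := 7
    inn := [(0, 1), (1, 0), (1, 2), (1, 3), (1, 4), (2, 1), (2, 3), (3, 1), (3, 2), (3, 5), (3, 6), (3,
      7), (4, 1), (5, 3), (5, 7), (6, 3), (7, 3), (7, 5)]
    mix := [(0, 0), (0, 1), (0, 2), (1, 0), (1, 2), (1, 3), (2, 2), (2, 4), (3, 3), (3, 4), (3, 5), (3,
      6), (4, 0), (4, 3), (4, 7), (5, 5), (5, 8), (6, 1), (6, 5), (6, 6), (7, 4), (7, 8), (7, 9)]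
    cl := [3, 4, 1, 0, 0, 0, 2, 6, 5, 7]
    chq := [(0, 3), (1, 3), (3, 0), (3, 1)]
    rng := [(0, 1), (0, 7), (1, 0), (1, 2), (1, 5), (1, 6), (2, 1), (2, 4), (3, 6), (3, 7), (4, 2), (4,
      9), (5, 1), (5, 8), (6, 1), (6, 3), (7, 0), (7, 3), (8, 5), (8, 9), (9, 4), (9, 8)]
    lev := [] }
  links := [[1, 8, 9, 10], [8, 0, 10, 2, 3, 11, 4], [3, 1, 10, 12], [11, 1, 2, 12, 7, 5, 13, 6, 14], [8,
    1, 11, 15], [13, 3, 7, 16], [14, 3, 13, 9], [16, 5, 3, 12, 17]]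
  P := {
    a := 8
    N := 18
    nb := [1794, 3357, 5130, 30950, 35074, 73864, 25096, 200744, 33299, 25921, 4615, 49178, 132236,
      66152, 2632, 2320, 139424, 69760]
    tri := [(0, 1, 8), (0, 1, 10), (0, 8, 9), (0, 9, 10), (1, 2, 3), (1, 2, 10), (1, 3, 11), (1, 4, 8),
      (1, 4, 11), (2, 3, 12), (2, 10, 12), (3, 5, 7), (3, 5, 13), (3, 6, 13), (3, 6, 14), (3, 7,
      12), (3, 11, 14), (4, 8, 15), (4, 11, 15), (5, 7, 16), (5, 13, 16), (6, 9, 13), (6, 9, 14),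
      (7, 12, 17), (7, 16, 17)]
    fin := [0, 1, 1, 3, 0, 1, 3, 1, 0, 3, 10, 1, 1, 1, 14, 15, 16, 17]
    chd := [(0, 1), (0, 10)]
    steps := [(0, 8), (0, 4), (1, 2), (1, 12), (1, 7), (1, 5), (1, 13), (1, 11), (3, 6), (3, 9)] }
  rep := [1, 10, 14, 0, 3, 16, 15, 17]

noncomputable def v3420 : Cov.CovD where
  P := 3
  N := 5
  pl := [1, 6, 7, 8, 9]
  lev := [⟨[], [], [(1, 3)], [4], [(0, 3, [0, 1]), (2, 1, [3])]⟩,
    ⟨[], [(0, 0), (0, 1), (0, 3)], [(0, 1), (0, 3), (1, 3)], [], [(0, 3, [0, 1]), (2, 1,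
      [3]), (3, 0, [3])]⟩,
    ⟨[(0, 1)], [(0, 1), (1, 0), (1, 1), (1, 3)], [(0, 1)], [], [(2, 1, [3]), (4, 0, [3])]⟩,
    ⟨[(0, 1), (1, 2)], [(1, 0), (1, 1), (1, 3), (2, 0), (2, 1)], [(0, 0)], [2], [(3, 0,
      [3]), (4, 0, [3]), (5, 0, [3])]⟩,
    ⟨[(0, 1), (1, 2), (1, 3)], [(0, 3), (1, 0), (1, 1), (1, 3), (3, 0)], [(0, 3)], [6],
      [(0, 3, [0, 1]), (3, 0, [3])]⟩,
    ⟨[(1, 3), (2, 3)], [(3, 0)], [], [5], [(5, 0, [3])]⟩,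
    ⟨[(1, 3), (2, 3), (3, 5)], [(3, 0), (5, 0)], [], [2, 4], [(5, 0, [3])]⟩,
    ⟨[(1, 3), (2, 3), (3, 5), (3, 6)], [(2, 0), (3, 0), (5, 0)], [], [5, 7], [(4, 0, [3])]⟩]
  Ta := [((3, 6), 0, 2), ((3, 7), 0, 6), ((4, 2), 0, 1), ((4, 9), 0, 7), ((5, 1), 0, 4), ((5, 8),
    0, 5)]
  Tb := [((0, 1, 7), 3, 4, 6), ((1, 0, 2), 4, 3, 1), ((1, 0, 5), 4, 3, 0), ((1, 0, 6), 4, 3, 2),
    ((1, 2, 5), 4, 1, 0), ((1, 2, 6), 4, 1, 2), ((1, 5, 6), 4, 0, 2), ((2, 1, 4), 1, 4, 0),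
    ((3, 6, 7), 0, 2, 6), ((4, 2, 9), 0, 1, 7), ((5, 1, 8), 0, 4, 5), ((6, 1, 3), 2, 4, 0),
    ((7, 0, 3), 6, 3, 0), ((8, 5, 9), 5, 0, 7), ((9, 4, 8), 7, 0, 5)]
  Tc := [(3, 0, 1)]
  Td := [((0, 3), (3, 6), 2), ((0, 3), (3, 7), 6), ((0, 3), (4, 2), 1), ((0, 3), (4, 9), 7), ((0,
    3), (5, 1), 4), ((0, 3), (5, 8), 5), ((1, 3), (2, 1), 4), ((1, 3), (2, 4), 0), ((3, 0),
    (0, 1), 4), ((3, 0), (0, 7), 6), ((3, 1), (0, 1), 4), ((3, 1), (0, 7), 6)]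
  G := [[0, 0, 0x11a11aa11a11aaa4411a116c11611cc628c1, 0x1111a1111aa441111641111a2c8c1,
    0x1111c1111ca24111161111c628c1], [0, 0xe811428e411824c161a1482e, 0,
    0xc161a148513165131668181c8c1, 0xa161c124a161ca161c628c1], [0, 0, 0,
    0xb818a144814746188414418a481451111c1111ca78186b84cd,
    0x184c818a32481858c12846221c281a11111a1211ac221a6b84cd]]

noncomputable def n3420 : Ent := ⟨e3420, noF, [], [], []⟩

def c3420 : PLift (Cov.check n3420.C.D v3420 = true) := ⟨by decide +kernel⟩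

def b3420 : PLift (entF (fidx ts) 400 3420 n3420 = true) := ⟨by decide +kernel⟩

theorem g3420 : GoodF (fidx ts) 400 3420 := GoodF.ofV v3420 n3420 c3420.down b3420.down

/-- 47494445:2613 -/
noncomputable def e3421 : SCfg where
  D := {
    a := 8
    L := 11
    kp := 8
    inn := [(0, 1), (1, 0), (1, 2), (1, 3), (1, 4), (2, 1), (2, 3), (3, 1), (3, 2), (3, 5), (3, 6), (3,
      7), (4, 1), (5, 3), (5, 7), (6, 3), (7, 3), (7, 5)]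
    mix := [(0, 0), (0, 1), (0, 2), (1, 0), (1, 2), (1, 3), (2, 2), (2, 4), (3, 3), (3, 4), (3, 5), (3,
      6), (4, 0), (4, 3), (4, 7), (5, 5), (5, 8), (6, 5), (6, 6), (6, 9), (7, 4), (7, 8), (7, 10)]
    cl := [3, 6, 1, 0, 0, 0, 2, 5, 4, 7, 8]
    chq := [(1, 3), (1, 5), (3, 1), (5, 1)]
    rng := [(0, 1), (0, 7), (1, 0), (1, 2), (2, 1), (2, 4), (3, 6), (3, 7), (4, 2), (4, 10), (5, 8),
      (5, 9), (6, 3), (6, 9), (7, 0), (7, 3), (8, 5), (8, 10), (9, 5), (9, 6), (10, 4), (10, 8)]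
    lev := [] }
  links := [[1, 8, 9, 10], [8, 0, 10, 2, 3, 11, 4], [3, 1, 10, 12], [11, 1, 2, 12, 7, 5, 13, 6, 14], [8,
    1, 11, 15], [13, 3, 7, 16], [14, 3, 13, 17], [16, 5, 3, 12, 18]]
  P := {
    a := 8
    N := 19
    nb := [1794, 3357, 5130, 30950, 35074, 73864, 155656, 331816, 33299, 1281, 4615, 49178, 263308,
      196712, 133192, 2320, 270496, 24640, 69760]
    tri := [(0, 1, 8), (0, 1, 10), (0, 8, 9), (0, 9, 10), (1, 2, 3), (1, 2, 10), (1, 3, 11), (1, 4, 8),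
      (1, 4, 11), (2, 3, 12), (2, 10, 12), (3, 5, 7), (3, 5, 13), (3, 6, 13), (3, 6, 14), (3, 7,
      12), (3, 11, 14), (4, 8, 15), (4, 11, 15), (5, 7, 16), (5, 13, 16), (6, 13, 17), (6, 14,
      17), (7, 12, 18), (7, 16, 18)]
    fin := [0, 1, 1, 3, 1, 3, 3, 3, 0, 9, 1, 3, 3, 3, 14, 15, 16, 17, 18]
    chd := [(0, 1), (1, 15)]
    steps := [(0, 8), (1, 2), (1, 4), (1, 10), (3, 5), (3, 6), (3, 7), (3, 12), (3, 13), (3, 11)] }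
  rep := [3, 1, 14, 0, 16, 15, 9, 17, 18]

noncomputable def v3421 : Cov.CovD where
  P := 3
  N := 6
  pl := [1, 6, 8, 9, 10]
  lev := [⟨[], [], [(1, 3)], [6], [(0, 3, [1]), (2, 1, [3, 5])]⟩,
    ⟨[], [(0, 0), (0, 1), (0, 3)], [(0, 1), (0, 3), (1, 3)], [], [(0, 3, [1]), (2, 1, [3,
      5]), (3, 0, [])]⟩,
    ⟨[(0, 1)], [(0, 1), (1, 0), (1, 1), (1, 3)], [(0, 1)], [], [(2, 1, [3, 5]), (4, 0,
      [])]⟩,
    ⟨[(0, 1), (1, 2)], [(1, 0), (1, 1), (1, 3), (2, 0), (2, 1)], [(0, 0)], [2], [(3, 0,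
      []), (4, 0, []), (5, 0, [])]⟩,
    ⟨[(0, 1), (1, 2), (1, 3)], [(0, 3), (1, 0), (1, 1), (1, 3), (1, 5), (3, 0)], [(0, 3),
      (0, 5), (3, 5)], [], [(0, 3, [1]), (3, 0, []), (7, 5, [1])]⟩,
    ⟨[(1, 3), (2, 3)], [(3, 0)], [], [4], [(5, 0, [])]⟩,
    ⟨[(1, 3), (2, 3), (3, 5)], [(3, 0), (5, 0)], [], [2, 7], [(5, 0, [])]⟩,
    ⟨[(1, 3), (2, 3), (3, 5), (3, 6)], [(2, 0), (3, 0), (5, 0)], [], [4, 8], [(4, 0, [])]⟩]
  Ta := [((3, 6), 0, 2), ((3, 7), 0, 5), ((4, 2), 0, 1), ((4, 10), 0, 8), ((5, 8), 0, 4), ((5,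
    9), 0, 7)]
  Tb := [((0, 1, 7), 3, 6, 5), ((1, 0, 2), 6, 3, 1), ((2, 1, 4), 1, 6, 0), ((3, 6, 7), 0, 2, 5),
    ((4, 2, 10), 0, 1, 8), ((5, 8, 9), 0, 4, 7), ((6, 3, 9), 2, 0, 7), ((7, 0, 3), 5, 3, 0),
    ((8, 5, 10), 4, 0, 8), ((9, 5, 6), 7, 0, 2), ((10, 4, 8), 8, 0, 4)]
  Tc := [(1, 3, 5)]
  Td := [((1, 3), (2, 1), 6), ((1, 3), (2, 4), 0), ((1, 5), (2, 1), 6), ((1, 5), (2, 4), 0), ((3,
    1), (0, 1), 6), ((3, 1), (0, 7), 5), ((5, 1), (7, 0), 3), ((5, 1), (7, 3), 0)]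
  G := [[0, 0, 0x141218e2248181214e228411c11aa248141218e228cd,
    0x1111a24481111628841111628411116288cd, 0x1111c22481111628841111c2281111c284cd], [0,
    0xc161a1428818166c71824c141a121c42e, 0,
    0x8121a244414288414284d81824441216288818244dc161a1486141a182c8cd,
    0xa161c2248a161c2284a161c228c1a16184cd], [0, 0, 0,
    0xc8c62ca241444281144284d188244142284cc286289888244d1bc61ca24871c1ac6184cd,
    0x95a59ac224835a99ac228412cda18e12411a77a6284cd]]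

noncomputable def n3421 : Ent := ⟨e3421, noF, [], [], [(9, 18, [30043303427623734937691929578474300150491519007939870628445900451935002625, 0]), (9, 16, [31810581851548793677511941751458610980409781099126250235727204310991613953, 0]), (9, 17, [31810150492402119267275227079217218666319002904815489586567506653227630593, 0])]⟩

def c3421 : PLift (Cov.check n3421.C.D v3421 = true) := ⟨by decide +kernel⟩

def b3421 : PLift (entF (fidx ts) 400 3421 n3421 = true) := ⟨by decide +kernel⟩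

theorem g3421 : GoodF (fidx ts) 400 3421 := GoodF.ofV v3421 n3421 c3421.down b3421.down

/-- 47494446:2617/1 -/
noncomputable def e3422 : SCfg where
  D := {
    a := 8
    L := 10
    kp := 7
    inn := [(0, 1), (1, 0), (1, 2), (1, 3), (2, 1), (2, 3), (3, 1), (3, 2), (3, 4), (3, 5), (3, 6), (3,
      7), (4, 3), (5, 3), (5, 7), (6, 3), (6, 7), (7, 3), (7, 5), (7, 6)]
    mix := [(0, 0), (0, 1), (0, 2), (1, 0), (1, 2), (1, 3), (1, 4), (2, 2), (2, 5), (3, 3), (3, 5), (3,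
      6), (4, 1), (4, 5), (4, 6), (5, 6), (5, 7), (6, 3), (6, 8), (7, 7), (7, 8), (7, 9)]
    cl := [2, 4, 1, 0, 1, 3, 0, 5, 6, 7]
    chq := [(0, 3), (0, 7), (3, 0), (7, 0)]
    rng := [(0, 1), (0, 4), (1, 0), (1, 2), (1, 5), (1, 6), (2, 1), (2, 5), (3, 4), (3, 8), (4, 0), (4,
      3), (5, 1), (5, 2), (6, 1), (6, 7), (7, 6), (7, 9), (8, 3), (8, 9), (9, 7), (9, 8)]
    lev := [] }
  links := [[1, 8, 9, 10], [8, 0, 10, 2, 3, 11, 12], [3, 1, 10, 13], [11, 1, 2, 13, 4, 14, 5, 7, 6], [14,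
    3, 13, 9], [7, 3, 14, 15], [11, 3, 7, 16], [16, 6, 3, 5, 15, 17]]
  P := {
    a := 8
    N := 18
    nb := [1794, 7437, 9226, 26870, 25096, 49288, 67720, 229480, 4611, 25873, 8711, 69706, 2306, 1564,
      33336, 147616, 133312, 98432]
    tri := [(0, 1, 8), (0, 1, 10), (0, 8, 9), (0, 9, 10), (1, 2, 3), (1, 2, 10), (1, 3, 11), (1, 8,
      12), (1, 11, 12), (2, 3, 13), (2, 10, 13), (3, 4, 13), (3, 4, 14), (3, 5, 7), (3, 5, 14),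
      (3, 6, 7), (3, 6, 11), (4, 9, 13), (4, 9, 14), (5, 7, 15), (5, 14, 15), (6, 7, 16), (6, 11,
      16), (7, 15, 17), (7, 16, 17)]
    fin := [0, 1, 1, 1, 4, 5, 5, 5, 0, 9, 1, 5, 1, 4, 5, 15, 16, 17]
    chd := [(5, 4), (5, 17)]
    steps := [(0, 8), (1, 2), (1, 3), (1, 10), (1, 12), (4, 13), (5, 7), (5, 6), (5, 14), (5, 11)] }
  rep := [5, 1, 0, 4, 9, 15, 16, 17]

noncomputable def v3422 : Cov.CovD where
  P := 3
  N := 5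
  pl := [0, 1, 7, 8]
  lev := [⟨[], [], [], [2, 4], [(2, 1, [])]⟩,
    ⟨[], [(0, 0), (0, 1)], [(0, 1), (1, 1)], [2], [(2, 1, []), (3, 0, [3, 7]), (4, 1, [])]⟩,
    ⟨[(0, 1)], [(0, 1), (1, 0), (1, 1), (1, 3)], [(1, 3)], [], [(2, 1, []), (5, 3, [0])]⟩,
    ⟨[(0, 1), (1, 2)], [(1, 0), (1, 1), (1, 3), (2, 0), (2, 1), (2, 3)], [(0, 0), (0, 3)],
      [], [(3, 0, [3, 7]), (5, 3, [0]), (6, 0, [3, 7])]⟩,
    ⟨[(1, 3), (2, 3)], [(2, 3), (3, 0), (3, 3)], [(0, 3)], [4], [(5, 3, [0]), (6, 0, [3,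
      7])]⟩,
    ⟨[(1, 3), (2, 3), (3, 4)], [(3, 0), (3, 3), (4, 0)], [], [5], [(6, 0, [3, 7])]⟩,
    ⟨[(1, 3), (2, 3), (3, 4), (3, 5)], [(1, 0), (3, 0), (3, 3)], [], [6], [(3, 0, [3, 7])]⟩,
    ⟨[(1, 3), (2, 3), (3, 4), (3, 5), (3, 6), (5, 6)], [(3, 0), (3, 3), (3, 7), (5, 0), (5,
      7), (6, 0), (6, 7)], [], [5, 6], [(9, 7, [0])]⟩]
  Ta := [((2, 1), 1, 4), ((2, 5), 1, 3), ((3, 4), 0, 1), ((3, 8), 0, 6), ((4, 0), 1, 2), ((4, 3),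
    1, 0), ((6, 1), 0, 4), ((6, 7), 0, 5)]
  Tb := [((0, 1, 4), 2, 4, 1), ((1, 0, 2), 4, 2, 1), ((1, 0, 5), 4, 2, 3), ((1, 0, 6), 4, 2, 0),
    ((1, 2, 5), 4, 1, 3), ((1, 2, 6), 4, 1, 0), ((1, 5, 6), 4, 3, 0), ((2, 1, 5), 1, 4, 3),
    ((3, 4, 8), 0, 1, 6), ((4, 0, 3), 1, 2, 0), ((5, 1, 2), 3, 4, 1), ((6, 1, 7), 0, 4, 5),
    ((7, 6, 9), 5, 0, 7), ((8, 3, 9), 6, 0, 7), ((9, 7, 8), 7, 5, 6)]
  Tc := [(0, 3, 7)]
  Td := [((0, 3), (3, 4), 1), ((0, 3), (3, 8), 6), ((0, 3), (6, 1), 4), ((0, 3), (6, 7), 5), ((0,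
    7), (3, 4), 1), ((0, 7), (3, 8), 6), ((0, 7), (6, 1), 4), ((0, 7), (6, 7), 5), ((3, 0),
    (5, 1), 4), ((3, 0), (5, 2), 1), ((7, 0), (9, 7), 5), ((7, 0), (9, 8), 6)]
  G := [[0, 0, 0x52346822119a83c8114c23e141564419a229439a71cc1e18c, 0,
    0x1218612259c61cad1841482967814e76181], [0, 0x11a11aa1411c11cc12681, 0x19c51cc2428c32182,
    0x19c51cc2824c32141, 0x19c51cc2424c32181], [0, 0,
    0x116116768882a12a141c9c2e14165461261298a4818e1418518cee18c, 0,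
    0x11a11aa212612e118e8618442212611a969a11a1a9ac41258511cc6e189], [0, 0,
    0x2122224211c1c9c2e182, 0x11c11cc22142282228215c91cc2e149, 0x2122212215c91cc2e182]]

noncomputable def n3422 : Ent := ⟨e3422, noF, [], [], []⟩

def c3422 : PLift (Cov.check n3422.C.D v3422 = true) := ⟨by decide +kernel⟩

def b3422 : PLift (entF (fidx ts) 400 3422 n3422 = true) := ⟨by decide +kernel⟩

theorem g3422 : GoodF (fidx ts) 400 3422 := GoodF.ofV v3422 n3422 c3422.down b3422.down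

/-- 47494446:2617/2 -/
noncomputable def e3423 : SCfg where
  D := {
    a := 8
    L := 10
    kp := 7
    inn := [(0, 1), (1, 0), (1, 2), (1, 3), (2, 1), (2, 3), (3, 1), (3, 2), (3, 4), (3, 5), (3, 6), (3,
      7), (4, 3), (5, 3), (5, 7), (6, 3), (6, 7), (7, 3), (7, 5), (7, 6)]
    mix := [(0, 0), (0, 1), (0, 2), (1, 0), (1, 2), (1, 3), (1, 4), (2, 2), (2, 5), (3, 3), (3, 5), (3,
      6), (4, 5), (4, 6), (4, 7), (5, 1), (5, 6), (6, 3), (6, 8), (7, 1), (7, 8), (7, 9)]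
    cl := [4, 2, 1, 0, 1, 3, 0, 7, 5, 6]
    chq := [(0, 3), (0, 6), (3, 0), (6, 0)]
    rng := [(0, 1), (0, 4), (1, 0), (1, 2), (1, 6), (1, 9), (2, 1), (2, 5), (3, 4), (3, 8), (4, 0), (4,
      3), (5, 2), (5, 7), (6, 1), (6, 7), (7, 5), (7, 6), (8, 3), (8, 9), (9, 1), (9, 8)]
    lev := [] }
  links := [[1, 8, 9, 10], [8, 0, 10, 2, 3, 11, 12], [3, 1, 10, 13], [11, 1, 2, 13, 4, 14, 5, 7, 6], [14,
    3, 13, 15], [7, 3, 14, 9], [11, 3, 7, 16], [16, 6, 3, 5, 9, 17]]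
  P := {
    a := 8
    N := 18
    nb := [1794, 7437, 9226, 26870, 57352, 17032, 67720, 197224, 4611, 148897, 8711, 69706, 2306,
      33820, 33336, 24592, 133312, 66176]
    tri := [(0, 1, 8), (0, 1, 10), (0, 8, 9), (0, 9, 10), (1, 2, 3), (1, 2, 10), (1, 3, 11), (1, 8,
      12), (1, 11, 12), (2, 3, 13), (2, 10, 13), (3, 4, 13), (3, 4, 14), (3, 5, 7), (3, 5, 14),
      (3, 6, 7), (3, 6, 11), (4, 13, 15), (4, 14, 15), (5, 7, 9), (5, 9, 14), (6, 7, 16), (6, 11,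
      16), (7, 9, 17), (7, 16, 17)]
    fin := [0, 1, 1, 1, 4, 5, 5, 5, 0, 9, 1, 5, 1, 4, 5, 15, 16, 17]
    chd := [(5, 4), (5, 17)]
    steps := [(0, 8), (1, 2), (1, 3), (1, 10), (1, 12), (4, 13), (5, 7), (5, 6), (5, 14), (5, 11)] }
  rep := [5, 1, 9, 4, 0, 16, 17, 15]

noncomputable def v3423 : Cov.CovD where
  P := 3
  N := 5
  pl := [0, 1, 7, 8]
  lev := [⟨[], [], [], [2, 4], [(2, 1, [])]⟩,
    ⟨[], [(0, 0), (0, 1)], [(0, 1), (1, 1)], [4], [(2, 1, []), (3, 0, [3, 6]), (4, 1, [])]⟩,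
    ⟨[(0, 1)], [(0, 1), (1, 0), (1, 1), (1, 3)], [(1, 3)], [], [(2, 1, []), (5, 3, [0])]⟩,
    ⟨[(0, 1), (1, 2)], [(1, 0), (1, 1), (1, 3), (2, 0), (2, 1), (2, 3)], [(0, 0), (0, 3)],
      [], [(3, 0, [3, 6]), (5, 3, [0]), (6, 0, [3, 6])]⟩,
    ⟨[(1, 3), (2, 3)], [(2, 3), (3, 0), (3, 3)], [(0, 3)], [7], [(5, 3, [0]), (6, 0, [3,
      6])]⟩,
    ⟨[(1, 3), (2, 3), (3, 4)], [(3, 0), (3, 3), (4, 0)], [], [2], [(6, 0, [3, 6])]⟩,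
    ⟨[(1, 3), (2, 3), (3, 4), (3, 5)], [(1, 0), (3, 0), (3, 3)], [], [5], [(3, 0, [3, 6])]⟩,
    ⟨[(1, 3), (2, 3), (3, 4), (3, 5), (3, 6), (5, 6)], [(3, 0), (3, 3), (3, 6), (5, 0), (5,
      6), (6, 0), (6, 6)], [], [2, 5], [(9, 6, [0])]⟩]
  Ta := [((2, 1), 1, 2), ((2, 5), 1, 3), ((3, 4), 0, 1), ((3, 8), 0, 5), ((4, 0), 1, 4), ((4, 3),
    1, 0), ((6, 1), 0, 2), ((6, 7), 0, 7)]
  Tb := [((0, 1, 4), 4, 2, 1), ((1, 0, 2), 2, 4, 1), ((1, 0, 6), 2, 4, 0), ((1, 0, 9), 2, 4, 6),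
    ((1, 2, 6), 2, 1, 0), ((1, 2, 9), 2, 1, 6), ((1, 6, 9), 2, 0, 6), ((2, 1, 5), 1, 2, 3),
    ((3, 4, 8), 0, 1, 5), ((4, 0, 3), 1, 4, 0), ((5, 2, 7), 3, 1, 7), ((6, 1, 7), 0, 2, 7),
    ((7, 5, 6), 7, 3, 0), ((8, 3, 9), 5, 0, 6), ((9, 1, 8), 6, 2, 5)]
  Tc := [(0, 3, 6)]
  Td := [((0, 3), (3, 4), 1), ((0, 3), (3, 8), 5), ((0, 3), (6, 1), 2), ((0, 3), (6, 7), 7), ((0,
    6), (3, 4), 1), ((0, 6), (3, 8), 5), ((0, 6), (6, 1), 2), ((0, 6), (6, 7), 7), ((3, 0),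
    (5, 2), 1), ((3, 0), (5, 7), 7), ((6, 0), (9, 1), 2), ((6, 0), (9, 8), 5)]
  G := [[0, 0, 0, 0x11a411c85968b218116411c81da8b214c,
    0x1bc8b1a2c2491ca161831623162842d1bc81a149], [0, 0x11c8122116418811a8144e1, 0, 0,
    0x11c21bc852111c2824911c211c839a8b214a], [0, 0,
    0xe12a18212ee18442c18e614422246889612e12212e884618868494ea18848422824c5c,
    0x116411c411c4e21811c4116411c8e214c, 0x116211a2c116811c8a618116211a2c11a811c86a149], [0,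
    0, 0xe14e14c14e2122422282c292122e18e14c14ea12242425c, 0,
    0x11c211c211c8e218116811a811c8e214a]]

noncomputable def n3423 : Ent := ⟨e3423, noF, [], [], []⟩

def c3423 : PLift (Cov.check n3423.C.D v3423 = true) := ⟨by decide +kernel⟩

def b3423 : PLift (entF (fidx ts) 400 3423 n3423 = true) := ⟨by decide +kernel⟩

theorem g3423 : GoodF (fidx ts) 400 3423 := GoodF.ofV v3423 n3423 c3423.down b3423.down

/-- 47494446:2617/3 -/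
noncomputable def e3424 : SCfg where
  D := {
    a := 8
    L := 10
    kp := 7
    inn := [(0, 1), (1, 0), (1, 2), (1, 3), (2, 1), (2, 3), (3, 1), (3, 2), (3, 4), (3, 5), (3, 6), (3,
      7), (4, 3), (5, 3), (5, 7), (6, 3), (6, 7), (7, 3), (7, 5), (7, 6)]
    mix := [(0, 0), (0, 1), (0, 2), (1, 0), (1, 2), (1, 3), (1, 4), (2, 2), (2, 5), (3, 3), (3, 5), (3,
      6), (4, 5), (4, 6), (4, 7), (5, 6), (5, 8), (6, 3), (6, 9), (7, 1), (7, 8), (7, 9)]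
    cl := [2, 4, 1, 0, 1, 3, 0, 7, 5, 6]
    chq := [(0, 3), (0, 4), (3, 0), (4, 0)]
    rng := [(0, 1), (0, 4), (1, 0), (1, 2), (1, 8), (1, 9), (2, 1), (2, 5), (3, 4), (3, 9), (4, 0), (4,
      3), (5, 2), (5, 7), (6, 7), (6, 8), (7, 5), (7, 6), (8, 1), (8, 6), (9, 1), (9, 3)]
    lev := [] }
  links := [[1, 8, 9, 10], [8, 0, 10, 2, 3, 11, 12], [3, 1, 10, 13], [11, 1, 2, 13, 4, 14, 5, 7, 6], [14,
    3, 13, 15], [7, 3, 14, 16], [11, 3, 7, 17], [17, 6, 3, 5, 16, 9]]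
  P := {
    a := 8
    N := 18
    nb := [1794, 7437, 9226, 26870, 57352, 82056, 133256, 197224, 4611, 198017, 8711, 135242, 2306,
      33820, 98360, 24592, 17056, 2752]
    tri := [(0, 1, 8), (0, 1, 10), (0, 8, 9), (0, 9, 10), (1, 2, 3), (1, 2, 10), (1, 3, 11), (1, 8,
      12), (1, 11, 12), (2, 3, 13), (2, 10, 13), (3, 4, 13), (3, 4, 14), (3, 5, 7), (3, 5, 14),
      (3, 6, 7), (3, 6, 11), (4, 13, 15), (4, 14, 15), (5, 7, 16), (5, 14, 16), (6, 7, 17), (6,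
      11, 17), (7, 9, 16), (7, 9, 17)]
    fin := [0, 1, 1, 1, 4, 5, 5, 5, 0, 9, 1, 5, 1, 4, 5, 15, 16, 17]
    chd := [(5, 4), (9, 5)]
    steps := [(0, 8), (1, 2), (1, 3), (1, 10), (1, 12), (4, 13), (5, 7), (5, 6), (5, 14), (5, 11)] }
  rep := [5, 1, 0, 4, 9, 16, 17, 15]

noncomputable def v3424 : Cov.CovD where
  P := 3
  N := 5
  pl := [0, 7, 8, 9]
  lev := [⟨[], [], [(1, 4)], [2], [(1, 4, [0]), (2, 1, [])]⟩,
    ⟨[], [(0, 0), (0, 1), (0, 4)], [(0, 1), (1, 1)], [2], [(2, 1, []), (3, 0, [3, 4]), (4,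
      1, [])]⟩,
    ⟨[(0, 1)], [(0, 1), (1, 0), (1, 1), (1, 3)], [(1, 3)], [], [(2, 1, []), (5, 3, [0])]⟩,
    ⟨[(0, 1), (1, 2)], [(1, 0), (1, 1), (1, 3), (2, 0), (2, 1), (2, 3)], [(0, 0), (0, 3)],
      [], [(3, 0, [3, 4]), (5, 3, [0]), (6, 0, [3, 4])]⟩,
    ⟨[(1, 3), (2, 3)], [(2, 3), (3, 0), (3, 3)], [(0, 3)], [7], [(5, 3, [0]), (6, 0, [3,
      4])]⟩,
    ⟨[(1, 3), (2, 3), (3, 4)], [(3, 0), (3, 3), (4, 0)], [], [5], [(6, 0, [3, 4])]⟩,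
    ⟨[(1, 3), (2, 3), (3, 4), (3, 5)], [(1, 0), (3, 0), (3, 3)], [], [6], [(3, 0, [3, 4])]⟩,
    ⟨[(1, 3), (2, 3), (3, 4), (3, 5), (3, 6), (5, 6)], [(0, 4), (3, 0), (3, 3), (3, 4), (5,
      0), (5, 4), (6, 0), (6, 4)], [], [5, 6], [(1, 4, [0])]⟩]
  Ta := [((2, 1), 1, 4), ((2, 5), 1, 3), ((3, 4), 0, 1), ((3, 9), 0, 6), ((4, 0), 1, 2), ((4, 3),
    1, 0), ((6, 7), 0, 7), ((6, 8), 0, 5)]
  Tb := [((0, 1, 4), 2, 4, 1), ((1, 0, 2), 4, 2, 1), ((1, 0, 8), 4, 2, 5), ((1, 0, 9), 4, 2, 6),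
    ((1, 2, 8), 4, 1, 5), ((1, 2, 9), 4, 1, 6), ((1, 8, 9), 4, 5, 6), ((2, 1, 5), 1, 4, 3),
    ((3, 4, 9), 0, 1, 6), ((4, 0, 3), 1, 2, 0), ((5, 2, 7), 3, 1, 7), ((6, 7, 8), 0, 7, 5),
    ((7, 5, 6), 7, 3, 0), ((8, 1, 6), 5, 4, 0), ((9, 1, 3), 6, 4, 0)]
  Tc := [(0, 3, 4)]
  Td := [((0, 3), (3, 4), 1), ((0, 3), (3, 9), 6), ((0, 3), (6, 7), 7), ((0, 3), (6, 8), 5), ((0,
    4), (3, 4), 1), ((0, 4), (3, 9), 6), ((0, 4), (6, 7), 7), ((0, 4), (6, 8), 5), ((3, 0),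
    (5, 2), 1), ((3, 0), (5, 7), 7), ((4, 0), (1, 0), 2), ((4, 0), (1, 2), 1), ((4, 0), (1,
    8), 5), ((4, 0), (1, 9), 6)]
  G := [[0, 0, 0x9413ac121882abc144923814e36181563166111a18a282511c18c4843e18c, 0,
    0x825814e12181767166111a38a22184878711a411c449ae189], [0, 0x11611661811c11cc12a41,
    0x18223411c411c8316e1ccb6182, 0x121468141821b188e9672cc7a141,
    0x1814a12411c18c64b418ef2182], [0, 0,
    0x81811a1a9a212e41126126224a81818514caa1c3218a224641411c149c6611431256484282e81cc, 0,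
    0x4142126147b21849ce183129a212e1e511cc414185149cee181], [0, 0,
    0x21222122d25129c1a951ac5498cee182, 0x212221221a9165c1a9165c58558cee181,
    0x212251a1a9c46212219c165c5894caa582]]

noncomputable def n3424 : Ent := ⟨e3424, noF, [], [], []⟩

def c3424 : PLift (Cov.check n3424.C.D v3424 = true) := ⟨by decide +kernel⟩

def b3424 : PLift (entF (fidx ts) 400 3424 n3424 = true) := ⟨by decide +kernel⟩

theorem g3424 : GoodF (fidx ts) 400 3424 := GoodF.ofV v3424 n3424 c3424.down b3424.down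

/-- 47494446:2617 -/
noncomputable def e3425 : SCfg where
  D := {
    a := 8
    L := 11
    kp := 8
    inn := [(0, 1), (1, 0), (1, 2), (1, 3), (2, 1), (2, 3), (3, 1), (3, 2), (3, 4), (3, 5), (3, 6), (3,
      7), (4, 3), (5, 3), (5, 7), (6, 3), (6, 7), (7, 3), (7, 5), (7, 6)]
    mix := [(0, 0), (0, 1), (0, 2), (1, 0), (1, 2), (1, 3), (1, 4), (2, 2), (2, 5), (3, 3), (3, 5), (3,
      6), (4, 5), (4, 6), (4, 7), (5, 6), (5, 8), (6, 3), (6, 9), (7, 8), (7, 9), (7, 10)]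
    cl := [2, 7, 1, 0, 1, 3, 0, 8, 4, 5, 6]
    chq := [(0, 3), (0, 6), (3, 0), (6, 0)]
    rng := [(0, 1), (0, 4), (1, 0), (1, 2), (2, 1), (2, 5), (3, 4), (3, 9), (4, 0), (4, 3), (5, 2), (5,
      7), (6, 7), (6, 8), (7, 5), (7, 6), (8, 6), (8, 10), (9, 3), (9, 10), (10, 8), (10, 9)]
    lev := [] }
  links := [[1, 8, 9, 10], [8, 0, 10, 2, 3, 11, 12], [3, 1, 10, 13], [11, 1, 2, 13, 4, 14, 5, 7, 6], [14,
    3, 13, 15], [7, 3, 14, 16], [11, 3, 7, 17], [17, 6, 3, 5, 16, 18]]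
  P := {
    a := 8
    N := 19
    nb := [1794, 7437, 9226, 26870, 57352, 82056, 133256, 458856, 4611, 1281, 8711, 135242, 2306,
      33820, 98360, 24592, 278688, 264384, 196736]
    tri := [(0, 1, 8), (0, 1, 10), (0, 8, 9), (0, 9, 10), (1, 2, 3), (1, 2, 10), (1, 3, 11), (1, 8,
      12), (1, 11, 12), (2, 3, 13), (2, 10, 13), (3, 4, 13), (3, 4, 14), (3, 5, 7), (3, 5, 14),
      (3, 6, 7), (3, 6, 11), (4, 13, 15), (4, 14, 15), (5, 7, 16), (5, 14, 16), (6, 7, 17), (6,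
      11, 17), (7, 16, 18), (7, 17, 18)]
    fin := [0, 1, 1, 1, 4, 5, 5, 5, 0, 9, 1, 5, 1, 4, 5, 15, 16, 17, 18]
    chd := [(5, 4), (5, 18)]
    steps := [(0, 8), (1, 2), (1, 3), (1, 10), (1, 12), (4, 13), (5, 7), (5, 6), (5, 14), (5, 11)] }
  rep := [5, 1, 0, 4, 16, 17, 18, 9, 15]

noncomputable def v3425 : Cov.CovD where
  P := 3
  N := 6
  pl := [0, 1, 7, 8, 9]
  lev := [⟨[], [], [], [2, 7], [(2, 1, [])]⟩,
    ⟨[], [(0, 0), (0, 1)], [(0, 1), (1, 1)], [2], [(2, 1, []), (3, 0, [3, 6]), (4, 1, [])]⟩,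
    ⟨[(0, 1)], [(0, 1), (1, 0), (1, 1), (1, 3)], [(1, 3)], [], [(2, 1, []), (5, 3, [0])]⟩,
    ⟨[(0, 1), (1, 2)], [(1, 0), (1, 1), (1, 3), (2, 0), (2, 1), (2, 3)], [(0, 0), (0, 3)],
      [], [(3, 0, [3, 6]), (5, 3, [0]), (6, 0, [3, 6])]⟩,
    ⟨[(1, 3), (2, 3)], [(2, 3), (3, 0), (3, 3)], [(0, 3)], [8], [(5, 3, [0]), (6, 0, [3,
      6])]⟩,
    ⟨[(1, 3), (2, 3), (3, 4)], [(3, 0), (3, 3), (4, 0)], [], [4], [(6, 0, [3, 6])]⟩,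
    ⟨[(1, 3), (2, 3), (3, 4), (3, 5)], [(1, 0), (3, 0), (3, 3)], [], [5], [(3, 0, [3, 6])]⟩,
    ⟨[(1, 3), (2, 3), (3, 4), (3, 5), (3, 6), (5, 6)], [(3, 0), (3, 3), (3, 6), (5, 0), (5,
      6), (6, 0), (6, 6)], [], [4, 5], [(10, 6, [0])]⟩]
  Ta := [((2, 1), 1, 7), ((2, 5), 1, 3), ((3, 4), 0, 1), ((3, 9), 0, 5), ((4, 0), 1, 2), ((4, 3),
    1, 0), ((6, 7), 0, 8), ((6, 8), 0, 4)]
  Tb := [((0, 1, 4), 2, 7, 1), ((1, 0, 2), 7, 2, 1), ((2, 1, 5), 1, 7, 3), ((3, 4, 9), 0, 1, 5),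
    ((4, 0, 3), 1, 2, 0), ((5, 2, 7), 3, 1, 8), ((6, 7, 8), 0, 8, 4), ((7, 5, 6), 8, 3, 0),
    ((8, 6, 10), 4, 0, 6), ((9, 3, 10), 5, 0, 6), ((10, 8, 9), 6, 4, 5)]
  Tc := [(0, 3, 6)]
  Td := [((0, 3), (3, 4), 1), ((0, 3), (3, 9), 5), ((0, 3), (6, 7), 8), ((0, 3), (6, 8), 4), ((0,
    6), (3, 4), 1), ((0, 6), (3, 9), 5), ((0, 6), (6, 7), 8), ((0, 6), (6, 8), 4), ((3, 0),
    (5, 2), 1), ((3, 0), (5, 7), 8), ((6, 0), (10, 8), 4), ((6, 0), (10, 9), 5)]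
  G := [[0, 0, 0x1492c19a11aa48e1cad18239c35ac9618221269c3258e11218e4b141884cdae18c, 0,
    0x11a21285298e1ce71852c144451bc38cb6181412c1218a48c35aad1814c243da91ce36189], [0,
    0x11611661811c11cc12a41, 0x11c2116411c838c61a14ef2182,
    0x14811a2c41812811c4b16431ecb21411a414818821af894ef218d, 0x1218612116c14828a7814ef2182],
    [0, 0,
    0x81838311aa212e88241411c949ce611165256414212e81c8841a311aa212e88241458511cce611365166414212e81cc,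
    0,
    0x13ad5a611a1a9a218e1e311ca41215c91cce612242844248c9414212611a1e56183129a218e11c1e9c41458511ccee189],
    [0, 0, 0x2282212211c1e9c1e311ca15c91ccee142,
    0x2122414212212e118e5412398e58511ccea14a122a12212e118e1187169c14149cee14d,
    0x21222242e11214e1e311ca11c949cee182]]

noncomputable def n3425 : Ent := ⟨e3425, noF, [], [], [(9, 15, [31810581956861085346069128449376638664080213418021345636276315565302603777, 0]), (9, 16, [31810581851548793677511941751458610980409781099126250235727204310991630337, 0]), (9, 18, [30043303427623734937691929578474300150491519007939870628445900451935027201, 0])]⟩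

def c3425 : PLift (Cov.check n3425.C.D v3425 = true) := ⟨by decide +kernel⟩

def b3425 : PLift (entF (fidx ts) 400 3425 n3425 = true) := ⟨by decide +kernel⟩

theorem g3425 : GoodF (fidx ts) 400 3425 := GoodF.ofV v3425 n3425 c3425.down b3425.down

/-- 47485464:2618/2 -/
noncomputable def e3426 : SCfg where
  D := {
    a := 8
    L := 9
    kp := 7
    inn := [(0, 1), (1, 0), (1, 2), (1, 3), (1, 7), (2, 1), (2, 3), (3, 1), (3, 2), (3, 4), (3, 5), (3,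
      6), (4, 3), (4, 5), (5, 3), (5, 4), (5, 6), (6, 3), (6, 5), (7, 1)]
    mix := [(0, 0), (0, 1), (0, 2), (1, 0), (1, 2), (1, 3), (2, 2), (2, 4), (3, 3), (3, 4), (3, 5), (4,
      1), (4, 5), (4, 6), (5, 6), (6, 3), (6, 6), (6, 7), (6, 8), (7, 0), (7, 3), (7, 8)]
    cl := [1, 5, 0, 0, 6, 2, 3, 7, 4]
    chq := [(0, 1), (0, 2), (1, 0), (2, 0), (2, 3), (2, 4), (2, 7), (3, 2), (4, 2), (7, 2)]
    rng := [(0, 1), (0, 8), (1, 0), (1, 2), (1, 5), (1, 6), (2, 1), (2, 4), (3, 8), (4, 2), (4, 5), (5,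
      1), (5, 4), (6, 1), (6, 7), (7, 6), (7, 8), (8, 0), (8, 3), (8, 7)]
    lev := [] }
  links := [[1, 8, 9, 10], [8, 0, 10, 2, 3, 11, 7], [3, 1, 10, 12], [11, 1, 2, 12, 13, 4, 5, 6], [5, 3,
    13, 9, 14], [6, 3, 4, 14], [11, 3, 5, 14, 15, 16], [8, 1, 11, 16]]
  P := {
    a := 8
    N := 17
    nb := [1794, 3469, 5130, 14454, 25128, 16472, 116776, 67842, 66179, 25873, 4615, 65738, 9228,
      4632, 33392, 81984, 35264]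
    tri := [(0, 1, 8), (0, 1, 10), (0, 8, 9), (0, 9, 10), (1, 2, 3), (1, 2, 10), (1, 3, 11), (1, 7, 8),
      (1, 7, 11), (2, 3, 12), (2, 10, 12), (3, 4, 5), (3, 4, 13), (3, 5, 6), (3, 6, 11), (3, 12,
      13), (4, 5, 14), (4, 9, 13), (4, 9, 14), (5, 6, 14), (6, 11, 16), (6, 14, 15), (6, 15, 16),
      (7, 8, 16), (7, 11, 16)]
    fin := [0, 1, 1, 3, 4, 4, 3, 0, 0, 4, 1, 1, 12, 3, 14, 15, 16]
    chd := [(0, 1), (1, 3), (3, 14), (3, 15), (3, 16)]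
    steps := [(0, 8), (0, 7), (1, 2), (1, 10), (1, 11), (3, 6), (3, 13), (4, 5), (4, 9)] }
  rep := [1, 0, 3, 14, 16, 4, 12, 15]

noncomputable def v3426 : Cov.CovD where
  P := 3
  N := 5
  pl := [1, 4]
  lev := [⟨[], [], [(0, 1)], [5], [(0, 1, [0]), (2, 0, [1, 2])]⟩,
    ⟨[], [(0, 0), (0, 1)], [(0, 0), (0, 1)], [], [(0, 1, [0]), (2, 0, [1, 2]), (3, 0, [1,
      2])]⟩,
    ⟨[(0, 1)], [(0, 0), (1, 0), (1, 1)], [], [6], [(2, 0, [1, 2])]⟩,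
    ⟨[(0, 1), (1, 2)], [(1, 0), (1, 1), (1, 2), (2, 0), (2, 2)], [(0, 2)], [6], [(3, 0, [1,
      2]), (5, 2, [0, 3, 4, 7])]⟩,
    ⟨[(1, 3), (2, 3)], [(3, 0), (3, 2), (3, 3)], [(2, 3)], [5], [(5, 2, [0, 3, 4, 7]), (6,
      3, [2])]⟩,
    ⟨[(1, 3), (2, 3), (3, 4)], [(3, 0), (3, 2), (3, 3), (4, 2), (4, 3)], [], [], [(6, 3,
      [2])]⟩,
    ⟨[(1, 3), (2, 3), (3, 4), (3, 5), (4, 5)], [(1, 0), (3, 0), (3, 2), (3, 3), (3, 4), (3,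
      7), (4, 3), (5, 0), (5, 3), (5, 4), (5, 7)], [(0, 3), (0, 4), (0, 7), (3, 4), (3, 7),
      (4, 7)], [], [(3, 0, [1, 2]), (6, 3, [2]), (7, 7, [2]), (8, 4, [2])]⟩,
    ⟨[(0, 1), (1, 2), (1, 3)], [(0, 1), (1, 0), (1, 1), (1, 4), (3, 0), (6, 0), (6, 4)],
      [(0, 1), (0, 4), (1, 4)], [], [(0, 1, [0]), (3, 0, [1, 2]), (8, 4, [2])]⟩]
  Ta := [((2, 1), 0, 5), ((2, 4), 0, 6), ((3, 8), 0, 4)]
  Tb := [((0, 1, 8), 1, 5, 4), ((1, 0, 2), 5, 1, 0), ((1, 0, 5), 5, 1, 2), ((1, 0, 6), 5, 1, 3),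
    ((1, 2, 5), 5, 0, 2), ((1, 2, 6), 5, 0, 3), ((1, 5, 6), 5, 2, 3), ((2, 1, 4), 0, 5, 6),
    ((4, 2, 5), 6, 0, 2), ((5, 1, 4), 2, 5, 6), ((6, 1, 7), 3, 5, 7), ((7, 6, 8), 7, 3, 4),
    ((8, 0, 3), 4, 1, 0), ((8, 0, 7), 4, 1, 7), ((8, 3, 7), 4, 0, 7)]
  Tc := [(0, 1, 2), (2, 0, 3), (2, 0, 4), (2, 0, 7), (2, 3, 4), (2, 3, 7), (2, 4, 7)]
  Td := [((0, 1), (2, 1), 5), ((0, 1), (2, 4), 6), ((0, 1), (3, 8), 4), ((0, 2), (2, 1), 5), ((0,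
    2), (2, 4), 6), ((0, 2), (3, 8), 4), ((1, 0), (0, 1), 5), ((1, 0), (0, 8), 4), ((2, 0),
    (5, 1), 5), ((2, 0), (5, 4), 6), ((2, 3), (5, 1), 5), ((2, 3), (5, 4), 6), ((2, 4), (5,
    1), 5), ((2, 4), (5, 4), 6), ((2, 7), (5, 1), 5), ((2, 7), (5, 4), 6), ((3, 2), (6, 1),
    5), ((3, 2), (6, 7), 7), ((4, 2), (8, 0), 1), ((4, 2), (8, 3), 0), ((4, 2), (8, 7), 7),
    ((7, 2), (7, 6), 3), ((7, 2), (7, 8), 4)]
  G := [[0, 0x6288128a24412422262152246219c18e, 0xc1c1618c1c1c12a41,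
    0x1281219441211c28898c12441211c1211c244968c,
    0xc48442a114814492a4c422121421441417814112acc], [0, 0x62881286244128222224a21da211c14e,
    0xc1c1a14c1c1c12681, 0xc28c2194c28446c24c2158c2488ac1,
    0xc428814448224c42c4138448848c41d2ac9]]

noncomputable def n3426 : Ent := ⟨e3426, noF, [], [], []⟩

def c3426 : PLift (Cov.check n3426.C.D v3426 = true) := ⟨by decide +kernel⟩

def b3426 : PLift (entF (fidx ts) 400 3426 n3426 = true) := ⟨by decide +kernel⟩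

theorem g3426 : GoodF (fidx ts) 400 3426 := GoodF.ofV v3426 n3426 c3426.down b3426.down

/-- 47485464:2618/1 -/
noncomputable def e3427 : SCfg where
  D := {
    a := 8
    L := 10
    kp := 8
    inn := [(0, 1), (1, 0), (1, 2), (1, 3), (1, 7), (2, 1), (2, 3), (3, 1), (3, 2), (3, 4), (3, 5), (3,
      6), (4, 3), (4, 5), (5, 3), (5, 4), (5, 6), (6, 3), (6, 5), (7, 1)]
    mix := [(0, 0), (0, 1), (0, 2), (1, 0), (1, 2), (1, 3), (2, 2), (2, 4), (3, 3), (3, 4), (3, 5), (4,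
      1), (4, 5), (4, 6), (5, 6), (6, 3), (6, 6), (6, 7), (6, 8), (7, 0), (7, 3), (7, 9)]
    cl := [1, 4, 0, 0, 5, 2, 3, 6, 7, 8]
    chq := [(0, 1), (0, 2), (1, 0), (2, 0), (2, 3), (2, 6), (2, 7), (3, 2), (6, 2), (7, 2)]
    rng := [(0, 1), (0, 9), (1, 0), (1, 2), (1, 5), (1, 6), (2, 1), (2, 4), (3, 8), (3, 9), (4, 2), (4,
      5), (5, 1), (5, 4), (6, 1), (6, 7), (7, 6), (7, 8), (8, 3), (8, 7), (9, 0), (9, 3)]
    lev := [] }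
  links := [[1, 8, 9, 10], [8, 0, 10, 2, 3, 11, 7], [3, 1, 10, 12], [11, 1, 2, 12, 13, 4, 5, 6], [5, 3,
    13, 9, 14], [6, 3, 4, 14], [11, 3, 5, 14, 15, 16], [8, 1, 11, 17]]
  P := {
    a := 8
    N := 18
    nb := [1794, 3469, 5130, 14454, 25128, 16472, 116776, 133378, 131715, 25873, 4615, 196810, 9228,
      4632, 33392, 81984, 34880, 2432]
    tri := [(0, 1, 8), (0, 1, 10), (0, 8, 9), (0, 9, 10), (1, 2, 3), (1, 2, 10), (1, 3, 11), (1, 7, 8),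
      (1, 7, 11), (2, 3, 12), (2, 10, 12), (3, 4, 5), (3, 4, 13), (3, 5, 6), (3, 6, 11), (3, 12,
      13), (4, 5, 14), (4, 9, 13), (4, 9, 14), (5, 6, 14), (6, 11, 16), (6, 14, 15), (6, 15, 16),
      (7, 8, 17), (7, 11, 17)]
    fin := [0, 1, 1, 3, 4, 4, 3, 0, 0, 4, 1, 1, 12, 3, 14, 15, 16, 17]
    chd := [(0, 1), (1, 3), (3, 14), (3, 15), (3, 16)]
    steps := [(0, 8), (0, 7), (1, 2), (1, 10), (1, 11), (3, 6), (3, 13), (4, 5), (4, 9)] }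
  rep := [1, 0, 3, 14, 4, 12, 15, 16, 17]

noncomputable def v3427 : Cov.CovD where
  P := 3
  N := 6
  pl := [1, 4, 9]
  lev := [⟨[], [], [(0, 1)], [4], [(0, 1, [0]), (2, 0, [1, 2])]⟩,
    ⟨[], [(0, 0), (0, 1)], [(0, 0), (0, 1)], [], [(0, 1, [0]), (2, 0, [1, 2]), (3, 0, [1,
      2])]⟩,
    ⟨[(0, 1)], [(0, 0), (1, 0), (1, 1)], [], [5], [(2, 0, [1, 2])]⟩,
    ⟨[(0, 1), (1, 2)], [(1, 0), (1, 1), (1, 2), (2, 0), (2, 2)], [(0, 2)], [5], [(3, 0, [1,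
      2]), (5, 2, [0, 3, 6, 7])]⟩,
    ⟨[(1, 3), (2, 3)], [(3, 0), (3, 2), (3, 3)], [(2, 3)], [4], [(5, 2, [0, 3, 6, 7]), (6,
      3, [2])]⟩,
    ⟨[(1, 3), (2, 3), (3, 4)], [(3, 0), (3, 2), (3, 3), (4, 2), (4, 3)], [], [], [(6, 3,
      [2])]⟩,
    ⟨[(1, 3), (2, 3), (3, 4), (3, 5), (4, 5)], [(1, 0), (3, 0), (3, 2), (3, 3), (3, 6), (3,
      7), (4, 3), (5, 0), (5, 3), (5, 6), (5, 7)], [(0, 3), (0, 6), (0, 7), (3, 6), (3, 7),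
      (6, 7)], [], [(3, 0, [1, 2]), (6, 3, [2]), (7, 6, [2]), (8, 7, [2])]⟩,
    ⟨[(0, 1), (1, 2), (1, 3)], [(0, 1), (1, 0), (1, 1), (3, 0), (6, 0)], [(0, 1)], [8],
      [(0, 1, [0]), (3, 0, [1, 2])]⟩]
  Ta := [((2, 1), 0, 4), ((2, 4), 0, 5), ((3, 8), 0, 7), ((3, 9), 0, 8)]
  Tb := [((0, 1, 9), 1, 4, 8), ((1, 0, 2), 4, 1, 0), ((1, 0, 5), 4, 1, 2), ((1, 0, 6), 4, 1, 3),
    ((1, 2, 5), 4, 0, 2), ((1, 2, 6), 4, 0, 3), ((1, 5, 6), 4, 2, 3), ((2, 1, 4), 0, 4, 5),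
    ((3, 8, 9), 0, 7, 8), ((4, 2, 5), 5, 0, 2), ((5, 1, 4), 2, 4, 5), ((6, 1, 7), 3, 4, 6),
    ((7, 6, 8), 6, 3, 7), ((8, 3, 7), 7, 0, 6), ((9, 0, 3), 8, 1, 0)]
  Tc := [(0, 1, 2), (2, 0, 3), (2, 0, 6), (2, 0, 7), (2, 3, 6), (2, 3, 7), (2, 6, 7)]
  Td := [((0, 1), (2, 1), 4), ((0, 1), (2, 4), 5), ((0, 1), (3, 8), 7), ((0, 1), (3, 9), 8), ((0,
    2), (2, 1), 4), ((0, 2), (2, 4), 5), ((0, 2), (3, 8), 7), ((0, 2), (3, 9), 8), ((1, 0),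
    (0, 1), 4), ((1, 0), (0, 9), 8), ((2, 0), (5, 1), 4), ((2, 0), (5, 4), 5), ((2, 3), (5,
    1), 4), ((2, 3), (5, 4), 5), ((2, 6), (5, 1), 4), ((2, 6), (5, 4), 5), ((2, 7), (5, 1),
    4), ((2, 7), (5, 4), 5), ((3, 2), (6, 1), 4), ((3, 2), (6, 7), 6), ((6, 2), (7, 6), 3),
    ((6, 2), (7, 8), 7), ((7, 2), (8, 3), 0), ((7, 2), (8, 7), 6)]
  G := [[0, 0x6288124c244122a24c215a22a219c14e, 0xc1c1a14c1c1c12681,
    0x1281219441211c28898c1211c24454124121588cc,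
    0x1441413814814492a41411c48c42a914221411a68c], [0, 0xc2881226244128c24622c21da211c14e,
    0xc1c1a14c1c1c12681, 0xc28c2194c28446c24c2158c2488ac1,
    0x4428814c482218c42c413884288c48c4192e4d]]

noncomputable def n3427 : Ent := ⟨e3427, noF, [], [], [(16, 17, [6903326391201334775872065844685381424292761054348340378595029943721985, 0])]⟩

def c3427 : PLift (Cov.check n3427.C.D v3427 = true) := ⟨by decide +kernel⟩

def b3427 : PLift (entF (fidx ts) 400 3427 n3427 = true) := ⟨by decide +kernel⟩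

theorem g3427 : GoodF (fidx ts) 400 3427 := GoodF.ofV v3427 n3427 c3427.down b3427.down

/-- 47485464:2618/4 -/
noncomputable def e3428 : SCfg where
  D := {
    a := 8
    L := 9
    kp := 7
    inn := [(0, 1), (1, 0), (1, 2), (1, 3), (1, 7), (2, 1), (2, 3), (3, 1), (3, 2), (3, 4), (3, 5), (3,
      6), (4, 3), (4, 5), (5, 3), (5, 4), (5, 6), (6, 3), (6, 5), (7, 1)]
    mix := [(0, 0), (0, 1), (0, 2), (1, 0), (1, 2), (1, 3), (2, 2), (2, 4), (3, 3), (3, 4), (3, 5), (4,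
      1), (4, 5), (4, 6), (5, 1), (6, 1), (6, 3), (6, 7), (6, 8), (7, 0), (7, 3), (7, 8)]
    cl := [2, 1, 0, 0, 3, 4, 7, 6, 5]
    chq := [(0, 2), (1, 3), (1, 4), (2, 0), (3, 1), (3, 5), (3, 6), (4, 1), (5, 3), (6, 3)]
    rng := [(0, 1), (0, 8), (1, 0), (1, 2), (1, 6), (1, 7), (2, 1), (2, 4), (3, 8), (4, 2), (4, 5), (5,
      4), (5, 6), (6, 1), (6, 5), (7, 1), (7, 8), (8, 0), (8, 3), (8, 7)]
    lev := [] }
  links := [[1, 8, 9, 10], [8, 0, 10, 2, 3, 11, 7], [3, 1, 10, 12], [11, 1, 2, 12, 13, 4, 5, 6], [5, 3,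
    13, 14, 9], [6, 3, 4, 9], [11, 3, 5, 9, 15, 16], [8, 1, 11, 16]]
  P := {
    a := 8
    N := 17
    nb := [1794, 3469, 5130, 14454, 25128, 600, 100904, 67842, 66179, 50545, 4615, 65738, 9228, 20504,
      8720, 66112, 35264]
    tri := [(0, 1, 8), (0, 1, 10), (0, 8, 9), (0, 9, 10), (1, 2, 3), (1, 2, 10), (1, 3, 11), (1, 7, 8),
      (1, 7, 11), (2, 3, 12), (2, 10, 12), (3, 4, 5), (3, 4, 13), (3, 5, 6), (3, 6, 11), (3, 12,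
      13), (4, 5, 9), (4, 9, 14), (4, 13, 14), (5, 6, 9), (6, 9, 15), (6, 11, 16), (6, 15, 16),
      (7, 8, 16), (7, 11, 16)]
    fin := [0, 1, 1, 3, 4, 4, 3, 0, 0, 4, 1, 1, 3, 13, 14, 15, 16]
    chd := [(0, 1), (3, 15), (3, 16), (4, 3), (4, 13)]
    steps := [(0, 8), (0, 7), (1, 2), (1, 10), (1, 11), (3, 6), (3, 12), (4, 5), (4, 9)] }
  rep := [1, 4, 0, 3, 13, 16, 15, 14]

noncomputable def v3428 : Cov.CovD where
  P := 3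
  N := 5
  pl := [6]
  lev := [⟨[], [], [(0, 1), (0, 2), (1, 2)], [], [(0, 2, [0]), (1, 1, [3, 4]), (2, 0, [2])]⟩,
    ⟨[], [(0, 0), (0, 1), (0, 2)], [(0, 0), (0, 2)], [], [(0, 2, [0]), (2, 0, [2]), (3, 0,
      [2])]⟩,
    ⟨[(0, 1)], [(0, 0), (1, 0), (1, 2), (1, 3)], [(0, 3)], [], [(2, 0, [2]), (4, 3, [1, 5,
      6])]⟩,
    ⟨[(0, 1), (1, 2)], [(1, 0), (1, 2), (1, 3), (1, 4), (2, 0), (2, 3), (2, 4)], [(0, 3),
      (0, 4), (3, 4)], [], [(3, 0, [2]), (4, 3, [1, 5, 6]), (5, 4, [1])]⟩,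
    ⟨[(1, 3), (2, 3)], [(0, 1), (3, 0), (3, 1), (3, 3), (3, 4)], [(1, 4)], [7], [(1, 1, [3,
      4]), (5, 4, [1])]⟩,
    ⟨[(1, 3), (2, 3), (3, 4)], [(0, 1), (3, 0), (3, 1), (3, 3), (3, 4), (4, 1), (4, 4)],
      [], [], [(1, 1, [3, 4])]⟩,
    ⟨[(1, 3), (2, 3), (3, 4), (3, 5), (4, 5)], [(0, 1), (1, 0), (3, 0), (3, 1), (3, 3), (3,
      4), (3, 5), (3, 6), (4, 1), (5, 0), (5, 1), (5, 5), (5, 6)], [(0, 1), (0, 5), (0, 6),
      (1, 5), (1, 6), (5, 6)], [], [(1, 1, [3, 4]), (3, 0, [2]), (7, 6, [3]), (8, 5, [3])]⟩,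
    ⟨[(0, 1), (1, 2), (1, 3)], [(0, 2), (1, 0), (1, 2), (1, 5), (3, 0), (6, 0), (6, 5)],
      [(0, 2), (0, 5), (2, 5)], [], [(0, 2, [0]), (3, 0, [2]), (8, 5, [3])]⟩]
  Ta := [((2, 1), 0, 1), ((2, 4), 0, 3), ((3, 8), 0, 5)]
  Tb := [((0, 1, 8), 2, 1, 5), ((1, 0, 2), 1, 2, 0), ((1, 0, 6), 1, 2, 7), ((1, 0, 7), 1, 2, 6),
    ((1, 2, 6), 1, 0, 7), ((1, 2, 7), 1, 0, 6), ((1, 6, 7), 1, 7, 6), ((2, 1, 4), 0, 1, 3),
    ((4, 2, 5), 3, 0, 4), ((5, 4, 6), 4, 3, 7), ((6, 1, 5), 7, 1, 4), ((7, 1, 8), 6, 1, 5),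
    ((8, 0, 3), 5, 2, 0), ((8, 0, 7), 5, 2, 6), ((8, 3, 7), 5, 0, 6)]
  Tc := [(1, 3, 4), (3, 1, 5), (3, 1, 6), (3, 5, 6)]
  Td := [((0, 2), (2, 1), 1), ((0, 2), (2, 4), 3), ((0, 2), (3, 8), 5), ((1, 3), (1, 0), 2), ((1,
    3), (1, 2), 0), ((1, 3), (1, 6), 7), ((1, 3), (1, 7), 6), ((1, 4), (1, 0), 2), ((1, 4),
    (1, 2), 0), ((1, 4), (1, 6), 7), ((1, 4), (1, 7), 6), ((2, 0), (0, 1), 1), ((2, 0), (0,
    8), 5), ((3, 1), (4, 2), 0), ((3, 1), (4, 5), 4), ((3, 5), (4, 2), 0), ((3, 5), (4, 5),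
    4), ((3, 6), (4, 2), 0), ((3, 6), (4, 5), 4), ((4, 1), (5, 4), 3), ((4, 1), (5, 6), 7),
    ((5, 3), (8, 0), 2), ((5, 3), (8, 3), 0), ((5, 3), (8, 7), 6), ((6, 3), (7, 1), 1), ((6,
    3), (7, 8), 5)]
  G := [[0, 0x8ca48ca28ca4e1448442448e1684, 0x2184c5842d8842d8d2148,
    0x18112c111c511cd84c54d2684, 0x112d4129245122d4d2141141526144144982a8], [0, 0,
    0x842d42184c5842d4d2184, 0xccc1ccc1ccc1d2184,
    0x2812412428cd21a26182689881a2a1221d88184888c1de1a8]]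

noncomputable def n3428 : Ent := ⟨e3428, noF, [], [], []⟩

def c3428 : PLift (Cov.check n3428.C.D v3428 = true) := ⟨by decide +kernel⟩

def b3428 : PLift (entF (fidx ts) 400 3428 n3428 = true) := ⟨by decide +kernel⟩

theorem g3428 : GoodF (fidx ts) 400 3428 := GoodF.ofV v3428 n3428 c3428.down b3428.down

/-- 47485464:2618/3 -/
noncomputable def e3429 : SCfg where
  D := {
    a := 8
    L := 10
    kp := 8
    inn := [(0, 1), (1, 0), (1, 2), (1, 3), (1, 7), (2, 1), (2, 3), (3, 1), (3, 2), (3, 4), (3, 5), (3,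
      6), (4, 3), (4, 5), (5, 3), (5, 4), (5, 6), (6, 3), (6, 5), (7, 1)]
    mix := [(0, 0), (0, 1), (0, 2), (1, 0), (1, 2), (1, 3), (2, 2), (2, 4), (3, 3), (3, 4), (3, 5), (4,
      1), (4, 5), (4, 6), (5, 1), (6, 1), (6, 3), (6, 7), (6, 8), (7, 0), (7, 3), (7, 9)]
    cl := [2, 1, 0, 0, 3, 4, 7, 5, 6, 8]
    chq := [(0, 2), (1, 3), (1, 4), (2, 0), (3, 1), (3, 5), (3, 6), (4, 1), (5, 3), (6, 3)]
    rng := [(0, 1), (0, 9), (1, 0), (1, 2), (1, 6), (1, 7), (2, 1), (2, 4), (3, 8), (3, 9), (4, 2), (4,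
      5), (5, 4), (5, 6), (6, 1), (6, 5), (7, 1), (7, 8), (8, 3), (8, 7), (9, 0), (9, 3)]
    lev := [] }
  links := [[1, 8, 9, 10], [8, 0, 10, 2, 3, 11, 7], [3, 1, 10, 12], [11, 1, 2, 12, 13, 4, 5, 6], [5, 3,
    13, 14, 9], [6, 3, 4, 9], [11, 3, 5, 9, 15, 16], [8, 1, 11, 17]]
  P := {
    a := 8
    N := 18
    nb := [1794, 3469, 5130, 14454, 25128, 600, 100904, 133378, 131715, 50545, 4615, 196810, 9228,
      20504, 8720, 66112, 34880, 2432]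
    tri := [(0, 1, 8), (0, 1, 10), (0, 8, 9), (0, 9, 10), (1, 2, 3), (1, 2, 10), (1, 3, 11), (1, 7, 8),
      (1, 7, 11), (2, 3, 12), (2, 10, 12), (3, 4, 5), (3, 4, 13), (3, 5, 6), (3, 6, 11), (3, 12,
      13), (4, 5, 9), (4, 9, 14), (4, 13, 14), (5, 6, 9), (6, 9, 15), (6, 11, 16), (6, 15, 16),
      (7, 8, 17), (7, 11, 17)]
    fin := [0, 1, 1, 3, 4, 4, 3, 0, 0, 4, 1, 1, 3, 13, 14, 15, 16, 17]
    chd := [(0, 1), (3, 15), (3, 16), (4, 3), (4, 13)]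
    steps := [(0, 8), (0, 7), (1, 2), (1, 10), (1, 11), (3, 6), (3, 12), (4, 5), (4, 9)] }
  rep := [1, 4, 0, 3, 13, 15, 16, 14, 17]

noncomputable def v3429 : Cov.CovD where
  P := 3
  N := 6
  pl := [6, 9]
  lev := [⟨[], [], [(0, 1), (0, 2), (1, 2)], [], [(0, 2, [0]), (1, 1, [3, 4]), (2, 0, [2])]⟩,
    ⟨[], [(0, 0), (0, 1), (0, 2)], [(0, 0), (0, 2)], [], [(0, 2, [0]), (2, 0, [2]), (3, 0,
      [2])]⟩,
    ⟨[(0, 1)], [(0, 0), (1, 0), (1, 2), (1, 3)], [(0, 3)], [], [(2, 0, [2]), (4, 3, [1, 5,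
      6])]⟩,
    ⟨[(0, 1), (1, 2)], [(1, 0), (1, 2), (1, 3), (1, 4), (2, 0), (2, 3), (2, 4)], [(0, 3),
      (0, 4), (3, 4)], [], [(3, 0, [2]), (4, 3, [1, 5, 6]), (5, 4, [1])]⟩,
    ⟨[(1, 3), (2, 3)], [(0, 1), (3, 0), (3, 1), (3, 3), (3, 4)], [(1, 4)], [7], [(1, 1, [3,
      4]), (5, 4, [1])]⟩,
    ⟨[(1, 3), (2, 3), (3, 4)], [(0, 1), (3, 0), (3, 1), (3, 3), (3, 4), (4, 1), (4, 4)],
      [], [], [(1, 1, [3, 4])]⟩,
    ⟨[(1, 3), (2, 3), (3, 4), (3, 5), (4, 5)], [(0, 1), (1, 0), (3, 0), (3, 1), (3, 3), (3,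
      4), (3, 5), (3, 6), (4, 1), (5, 0), (5, 1), (5, 5), (5, 6)], [(0, 1), (0, 5), (0, 6),
      (1, 5), (1, 6), (5, 6)], [], [(1, 1, [3, 4]), (3, 0, [2]), (7, 5, [3]), (8, 6, [3])]⟩,
    ⟨[(0, 1), (1, 2), (1, 3)], [(0, 2), (1, 0), (1, 2), (3, 0), (6, 0)], [(0, 2)], [8],
      [(0, 2, [0]), (3, 0, [2])]⟩]
  Ta := [((2, 1), 0, 1), ((2, 4), 0, 3), ((3, 8), 0, 6), ((3, 9), 0, 8)]
  Tb := [((0, 1, 9), 2, 1, 8), ((1, 0, 2), 1, 2, 0), ((1, 0, 6), 1, 2, 7), ((1, 0, 7), 1, 2, 5),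
    ((1, 2, 6), 1, 0, 7), ((1, 2, 7), 1, 0, 5), ((1, 6, 7), 1, 7, 5), ((2, 1, 4), 0, 1, 3),
    ((3, 8, 9), 0, 6, 8), ((4, 2, 5), 3, 0, 4), ((5, 4, 6), 4, 3, 7), ((6, 1, 5), 7, 1, 4),
    ((7, 1, 8), 5, 1, 6), ((8, 3, 7), 6, 0, 5), ((9, 0, 3), 8, 2, 0)]
  Tc := [(1, 3, 4), (3, 1, 5), (3, 1, 6), (3, 5, 6)]
  Td := [((0, 2), (2, 1), 1), ((0, 2), (2, 4), 3), ((0, 2), (3, 8), 6), ((0, 2), (3, 9), 8), ((1,
    3), (1, 0), 2), ((1, 3), (1, 2), 0), ((1, 3), (1, 6), 7), ((1, 3), (1, 7), 5), ((1, 4),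
    (1, 0), 2), ((1, 4), (1, 2), 0), ((1, 4), (1, 6), 7), ((1, 4), (1, 7), 5), ((2, 0), (0,
    1), 1), ((2, 0), (0, 9), 8), ((3, 1), (4, 2), 0), ((3, 1), (4, 5), 4), ((3, 5), (4, 2),
    0), ((3, 5), (4, 5), 4), ((3, 6), (4, 2), 0), ((3, 6), (4, 5), 4), ((4, 1), (5, 4), 3),
    ((4, 1), (5, 6), 7), ((5, 3), (7, 1), 1), ((5, 3), (7, 8), 6), ((6, 3), (8, 3), 0), ((6,
    3), (8, 7), 5)]
  G := [[0, 0xc28cc646112488c4c8cc4c8ac82e1e48, 0x666d46166c5666d8d2188, 0x11cd411cd811cd4d2248,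
    0x112d41294112d8d2481421838814614818545e8114514498aa8], [0, 0, 0x6c568caacd86acd4d2184,
    0xccc1ccc1ccc1d2284, 0x221124122c1561aa618a689a21828584888c15e1aa84a81c2489]]

noncomputable def n3429 : Ent := ⟨e3429, noF, [], [], [(16, 17, [6903326391201334775872065844685381424292761054348340378595029943730177, 0])]⟩

def c3429 : PLift (Cov.check n3429.C.D v3429 = true) := ⟨by decide +kernel⟩

def b3429 : PLift (entF (fidx ts) 400 3429 n3429 = true) := ⟨by decide +kernel⟩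

theorem g3429 : GoodF (fidx ts) 400 3429 := GoodF.ofV v3429 n3429 c3429.down b3429.down

/-- 47485464:2618/6 -/
noncomputable def e3430 : SCfg where
  D := {
    a := 8
    L := 9
    kp := 7
    inn := [(0, 1), (1, 0), (1, 2), (1, 3), (1, 7), (2, 1), (2, 3), (3, 1), (3, 2), (3, 4), (3, 5), (3,
      6), (4, 3), (4, 5), (5, 3), (5, 4), (5, 6), (6, 3), (6, 5), (7, 1)]
    mix := [(0, 0), (0, 1), (0, 2), (1, 0), (1, 2), (1, 3), (2, 2), (2, 4), (3, 3), (3, 4), (3, 5), (4,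
      5), (4, 6), (4, 7), (5, 7), (6, 1), (6, 3), (6, 7), (6, 8), (7, 0), (7, 3), (7, 8)]
    cl := [3, 6, 1, 0, 0, 2, 7, 4, 5]
    chq := [(1, 3), (1, 5), (2, 4), (2, 5), (2, 6), (3, 1), (4, 2), (5, 1), (5, 2), (6, 2)]
    rng := [(0, 1), (0, 8), (1, 0), (1, 2), (1, 7), (1, 8), (2, 1), (2, 4), (3, 8), (4, 2), (4, 5), (5,
      4), (5, 6), (6, 5), (6, 7), (7, 1), (7, 6), (8, 0), (8, 1), (8, 3)]
    lev := [] }
  links := [[1, 8, 9, 10], [8, 0, 10, 2, 3, 11, 7], [3, 1, 10, 12], [11, 1, 2, 12, 13, 4, 5, 6], [5, 3,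
    13, 14, 15], [6, 3, 4, 15], [11, 3, 5, 15, 9, 16], [8, 1, 11, 16]]
  P := {
    a := 8
    N := 17
    nb := [1794, 3469, 5130, 14454, 57384, 32856, 100904, 67842, 66179, 99649, 4615, 65738, 9228,
      20504, 40976, 17008, 3008]
    tri := [(0, 1, 8), (0, 1, 10), (0, 8, 9), (0, 9, 10), (1, 2, 3), (1, 2, 10), (1, 3, 11), (1, 7, 8),
      (1, 7, 11), (2, 3, 12), (2, 10, 12), (3, 4, 5), (3, 4, 13), (3, 5, 6), (3, 6, 11), (3, 12,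
      13), (4, 5, 15), (4, 13, 14), (4, 14, 15), (5, 6, 15), (6, 9, 15), (6, 9, 16), (6, 11, 16),
      (7, 8, 16), (7, 11, 16)]
    fin := [0, 1, 1, 3, 4, 4, 4, 1, 0, 9, 1, 3, 3, 4, 14, 15, 16]
    chd := [(0, 1), (1, 16), (4, 15), (4, 16), (9, 4)]
    steps := [(0, 8), (1, 2), (1, 7), (1, 10), (3, 12), (3, 11), (4, 5), (4, 6), (4, 13)] }
  rep := [3, 1, 4, 0, 15, 16, 9, 14]

noncomputable def v3430 : Cov.CovD where
  P := 3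
  N := 5
  pl := [6]
  lev := [⟨[], [], [(1, 3), (1, 6), (3, 6)], [], [(0, 3, [1]), (1, 6, [2]), (2, 1, [3, 5])]⟩,
    ⟨[], [(0, 0), (0, 1), (0, 3), (0, 6)], [(0, 1), (0, 3), (1, 3)], [], [(0, 3, [1]), (2,
      1, [3, 5]), (3, 0, [])]⟩,
    ⟨[(0, 1)], [(0, 1), (1, 0), (1, 1), (1, 3)], [(0, 1)], [], [(2, 1, [3, 5]), (4, 0,
      [])]⟩,
    ⟨[(0, 1), (1, 2)], [(1, 0), (1, 1), (1, 2), (1, 3), (2, 0), (2, 1), (2, 2)], [(0, 0),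
      (0, 2)], [], [(3, 0, []), (4, 0, []), (5, 2, [4, 5, 6])]⟩,
    ⟨[(1, 3), (2, 3)], [(3, 0), (3, 2), (3, 4)], [(2, 4)], [7], [(5, 2, [4, 5, 6]), (7, 4,
      [2])]⟩,
    ⟨[(1, 3), (2, 3), (3, 4)], [(3, 0), (3, 2), (3, 4), (4, 2), (4, 4)], [], [], [(7, 4,
      [2])]⟩,
    ⟨[(1, 3), (2, 3), (3, 4), (3, 5), (4, 5)], [(0, 6), (1, 0), (3, 0), (3, 2), (3, 4), (3,
      5), (3, 6), (4, 4), (5, 0), (5, 4), (5, 5), (5, 6)], [(0, 4), (0, 5), (0, 6), (4, 5),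
      (4, 6), (5, 6)], [], [(1, 6, [2]), (3, 0, []), (7, 4, [2]), (8, 5, [1, 2])]⟩,
    ⟨[(0, 1), (1, 2), (1, 3)], [(0, 3), (1, 0), (1, 1), (1, 3), (1, 5), (3, 0), (6, 0), (6,
      5)], [(0, 3), (0, 5), (3, 5)], [], [(0, 3, [1]), (3, 0, []), (8, 5, [1, 2])]⟩]
  Ta := [((3, 8), 0, 5), ((4, 2), 0, 1), ((4, 5), 0, 2)]
  Tb := [((0, 1, 8), 3, 6, 5), ((1, 0, 2), 6, 3, 1), ((1, 0, 7), 6, 3, 4), ((1, 0, 8), 6, 3, 5),
    ((1, 2, 7), 6, 1, 4), ((1, 2, 8), 6, 1, 5), ((1, 7, 8), 6, 4, 5), ((2, 1, 4), 1, 6, 0),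
    ((4, 2, 5), 0, 1, 2), ((5, 4, 6), 2, 0, 7), ((6, 5, 7), 7, 2, 4), ((7, 1, 6), 4, 6, 7),
    ((8, 0, 1), 5, 3, 6), ((8, 0, 3), 5, 3, 0), ((8, 1, 3), 5, 6, 0)]
  Tc := [(1, 3, 5), (2, 4, 5), (2, 4, 6), (2, 5, 6), (5, 1, 2)]
  Td := [((1, 3), (2, 1), 6), ((1, 3), (2, 4), 0), ((1, 5), (2, 1), 6), ((1, 5), (2, 4), 0), ((2,
    4), (5, 4), 0), ((2, 4), (5, 6), 7), ((2, 5), (5, 4), 0), ((2, 5), (5, 6), 7), ((2, 6),
    (5, 4), 0), ((2, 6), (5, 6), 7), ((3, 1), (0, 1), 6), ((3, 1), (0, 8), 5), ((4, 2), (7,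
    1), 6), ((4, 2), (7, 6), 7), ((5, 1), (8, 0), 3), ((5, 1), (8, 1), 6), ((5, 1), (8, 3),
    0), ((5, 2), (8, 0), 3), ((5, 2), (8, 1), 6), ((5, 2), (8, 3), 0), ((6, 2), (1, 0), 3),
    ((6, 2), (1, 2), 1), ((6, 2), (1, 7), 4), ((6, 2), (1, 8), 5)]
  G := [[0, 0, 0, 0x228222221d418222224221d814228222221d4822422152288c1cd,
    0x24824249241b21824222482419a8424224132448a124249424cd], [0,
    0x12812129121d42812125124121d82412412151288c82e,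
    0x2122218214c64821421262188a84218212a2144641212218214ca4cd,
    0x228221944222484224488d228848224221588222844d12221251288c412442282219c8cd,
    0x24824249241b24824222482419a8424221432488a414249424cd]]

noncomputable def n3430 : Ent := ⟨e3430, noF, [], [], []⟩

def c3430 : PLift (Cov.check n3430.C.D v3430 = true) := ⟨by decide +kernel⟩

def b3430 : PLift (entF (fidx ts) 400 3430 n3430 = true) := ⟨by decide +kernel⟩

theorem g3430 : GoodF (fidx ts) 400 3430 := GoodF.ofV v3430 n3430 c3430.down b3430.down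

/-- 47485464:2618/5 -/
noncomputable def e3431 : SCfg where
  D := {
    a := 8
    L := 10
    kp := 8
    inn := [(0, 1), (1, 0), (1, 2), (1, 3), (1, 7), (2, 1), (2, 3), (3, 1), (3, 2), (3, 4), (3, 5), (3,
      6), (4, 3), (4, 5), (5, 3), (5, 4), (5, 6), (6, 3), (6, 5), (7, 1)]
    mix := [(0, 0), (0, 1), (0, 2), (1, 0), (1, 2), (1, 3), (2, 2), (2, 4), (3, 3), (3, 4), (3, 5), (4,
      5), (4, 6), (4, 7), (5, 7), (6, 1), (6, 3), (6, 7), (6, 8), (7, 0), (7, 3), (7, 9)]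
    cl := [1, 4, 2, 0, 0, 5, 7, 3, 6, 8]
    chq := [(0, 1), (0, 4), (1, 0), (3, 5), (4, 0), (4, 5), (5, 3), (5, 4), (5, 6), (6, 5)]
    rng := [(0, 1), (0, 9), (1, 0), (1, 2), (1, 7), (1, 8), (2, 1), (2, 4), (3, 8), (3, 9), (4, 2), (4,
      5), (5, 4), (5, 6), (6, 5), (6, 7), (7, 1), (7, 6), (8, 1), (8, 3), (9, 0), (9, 3)]
    lev := [] }
  links := [[1, 8, 9, 10], [8, 0, 10, 2, 3, 11, 7], [3, 1, 10, 12], [11, 1, 2, 12, 13, 4, 5, 6], [5, 3,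
    13, 14, 15], [6, 3, 4, 15], [11, 3, 5, 15, 9, 16], [8, 1, 11, 17]]
  P := {
    a := 8
    N := 18
    nb := [1794, 3469, 5130, 14454, 57384, 32856, 100904, 133378, 131715, 99649, 4615, 196810, 9228,
      20504, 40976, 17008, 2624, 2432]
    tri := [(0, 1, 8), (0, 1, 10), (0, 8, 9), (0, 9, 10), (1, 2, 3), (1, 2, 10), (1, 3, 11), (1, 7, 8),
      (1, 7, 11), (2, 3, 12), (2, 10, 12), (3, 4, 5), (3, 4, 13), (3, 5, 6), (3, 6, 11), (3, 12,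
      13), (4, 5, 15), (4, 13, 14), (4, 14, 15), (5, 6, 15), (6, 9, 15), (6, 9, 16), (6, 11, 16),
      (7, 8, 17), (7, 11, 17)]
    fin := [0, 0, 0, 3, 4, 4, 4, 7, 7, 0, 10, 3, 3, 4, 14, 15, 16, 17]
    chd := [(0, 3), (0, 4), (4, 15), (4, 16), (7, 3)]
    steps := [(0, 1), (0, 2), (0, 9), (3, 12), (3, 11), (4, 5), (4, 6), (4, 13), (7, 8)] }
  rep := [3, 7, 10, 15, 0, 4, 16, 14, 17]

noncomputable def v3431 : Cov.CovD where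
  P := 3
  N := 6
  pl := [2, 6, 9]
  lev := [⟨[], [], [(1, 4)], [2], [(0, 1, [0]), (1, 4, [0, 5])]⟩,
    ⟨[], [(0, 0), (0, 1), (0, 4)], [(0, 1)], [2], [(0, 1, [0]), (3, 0, [1, 4])]⟩,
    ⟨[(0, 1)], [(1, 0), (1, 1)], [], [2], [(4, 0, [1, 4])]⟩,
    ⟨[(0, 1), (1, 2)], [(1, 0), (1, 1), (1, 5), (2, 0), (2, 5)], [(0, 0), (0, 5)], [], [(3,
      0, [1, 4]), (4, 0, [1, 4]), (5, 5, [3, 4, 6])]⟩,
    ⟨[(1, 3), (2, 3)], [(3, 0), (3, 3), (3, 5)], [(3, 5)], [7], [(5, 5, [3, 4, 6]), (7, 3,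
      [5])]⟩,
    ⟨[(1, 3), (2, 3), (3, 4)], [(3, 0), (3, 3), (3, 5), (4, 3), (4, 5)], [], [], [(7, 3,
      [5])]⟩,
    ⟨[(1, 3), (2, 3), (3, 4), (3, 5), (4, 5)], [(0, 4), (1, 0), (3, 0), (3, 3), (3, 4), (3,
      5), (3, 6), (4, 3), (5, 0), (5, 3), (5, 4), (5, 6)], [(0, 3), (0, 4), (0, 6), (3, 4),
      (3, 6), (4, 6)], [], [(1, 4, [0, 5]), (3, 0, [1, 4]), (7, 3, [5]), (8, 6, [5])]⟩,
    ⟨[(0, 1), (1, 2), (1, 3)], [(0, 1), (1, 0), (1, 1), (3, 0), (6, 0)], [(0, 1)], [8],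
      [(0, 1, [0]), (3, 0, [1, 4])]⟩]
  Ta := [((3, 8), 0, 6), ((3, 9), 0, 8), ((4, 2), 0, 2), ((4, 5), 0, 5)]
  Tb := [((0, 1, 9), 1, 4, 8), ((1, 0, 2), 4, 1, 2), ((1, 0, 7), 4, 1, 3), ((1, 0, 8), 4, 1, 6),
    ((1, 2, 7), 4, 2, 3), ((1, 2, 8), 4, 2, 6), ((1, 7, 8), 4, 3, 6), ((2, 1, 4), 2, 4, 0),
    ((3, 8, 9), 0, 6, 8), ((4, 2, 5), 0, 2, 5), ((5, 4, 6), 5, 0, 7), ((6, 5, 7), 7, 5, 3),
    ((7, 1, 6), 3, 4, 7), ((8, 1, 3), 6, 4, 0), ((9, 0, 3), 8, 1, 0)]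
  Tc := [(0, 1, 4), (4, 0, 5), (5, 3, 4), (5, 3, 6), (5, 4, 6)]
  Td := [((0, 1), (3, 8), 6), ((0, 1), (3, 9), 8), ((0, 1), (4, 2), 2), ((0, 1), (4, 5), 5), ((0,
    4), (3, 8), 6), ((0, 4), (3, 9), 8), ((0, 4), (4, 2), 2), ((0, 4), (4, 5), 5), ((1, 0),
    (0, 1), 4), ((1, 0), (0, 9), 8), ((3, 5), (7, 1), 4), ((3, 5), (7, 6), 7), ((4, 0), (1,
    0), 1), ((4, 0), (1, 2), 2), ((4, 0), (1, 7), 3), ((4, 0), (1, 8), 6), ((4, 5), (1, 0),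
    1), ((4, 5), (1, 2), 2), ((4, 5), (1, 7), 3), ((4, 5), (1, 8), 6), ((5, 3), (5, 4), 0),
    ((5, 3), (5, 6), 7), ((5, 4), (5, 4), 0), ((5, 4), (5, 6), 7), ((5, 6), (5, 4), 0), ((5,
    6), (5, 6), 7), ((6, 5), (8, 1), 4), ((6, 5), (8, 3), 0)]
  G := [[0, 0x628682612b46246426a48c84c14da981, 0, 0xc2c23c22c2c46cc61fc48c84c8c89c81fa141,
    0x4244c28c882a82c86cca1fc4c8cc4c49c41be181], [0, 0xa24c426147a28a82a18bc48c84ce141,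
    0x1c32411a218211a1b1c984e8412884412414211617141818e8a8cc,
    0x4122128182121b1c581c9411c1de12212185668c41, 0x124116461c381c92121b1481c9411c1de281]]

noncomputable def n3431 : Ent := ⟨e3431, noF, [], [], [(16, 17, [6903326391201334775872065844685381424292761054348340378595029943738369, 0])]⟩

def c3431 : PLift (Cov.check n3431.C.D v3431 = true) := ⟨by decide +kernel⟩

def b3431 : PLift (entF (fidx ts) 400 3431 n3431 = true) := ⟨by decide +kernel⟩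

theorem g3431 : GoodF (fidx ts) 400 3431 := GoodF.ofV v3431 n3431 c3431.down b3431.down

/-- 47485464:2618/7 -/
noncomputable def e3432 : SCfg where
  D := {
    a := 8
    L := 10
    kp := 8
    inn := [(0, 1), (1, 0), (1, 2), (1, 3), (1, 7), (2, 1), (2, 3), (3, 1), (3, 2), (3, 4), (3, 5), (3,
      6), (4, 3), (4, 5), (5, 3), (5, 4), (5, 6), (6, 3), (6, 5), (7, 1)]
    mix := [(0, 0), (0, 1), (0, 2), (1, 0), (1, 2), (1, 3), (2, 2), (2, 4), (3, 3), (3, 4), (3, 5), (4,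
      5), (4, 6), (4, 7), (5, 7), (6, 3), (6, 7), (6, 8), (6, 9), (7, 0), (7, 3), (7, 9)]
    cl := [3, 7, 1, 0, 0, 2, 8, 4, 6, 5]
    chq := [(1, 3), (1, 5), (2, 4), (2, 5), (2, 6), (3, 1), (4, 2), (5, 1), (5, 2), (6, 2)]
    rng := [(0, 1), (0, 9), (1, 0), (1, 2), (2, 1), (2, 4), (3, 9), (4, 2), (4, 5), (5, 4), (5, 6), (6,
      5), (6, 7), (7, 6), (7, 8), (8, 7), (8, 9), (9, 0), (9, 3), (9, 8)]
    lev := [] }
  links := [[1, 8, 9, 10], [8, 0, 10, 2, 3, 11, 7], [3, 1, 10, 12], [11, 1, 2, 12, 13, 4, 5, 6], [5, 3,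
    13, 14, 15], [6, 3, 4, 15], [11, 3, 5, 15, 16, 17], [8, 1, 11, 17]]
  P := {
    a := 8
    N := 18
    nb := [1794, 3469, 5130, 14454, 57384, 32856, 231464, 133378, 131715, 1281, 4615, 131274, 9228,
      20504, 40976, 82032, 163904, 68032]
    tri := [(0, 1, 8), (0, 1, 10), (0, 8, 9), (0, 9, 10), (1, 2, 3), (1, 2, 10), (1, 3, 11), (1, 7, 8),
      (1, 7, 11), (2, 3, 12), (2, 10, 12), (3, 4, 5), (3, 4, 13), (3, 5, 6), (3, 6, 11), (3, 12,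
      13), (4, 5, 15), (4, 13, 14), (4, 14, 15), (5, 6, 15), (6, 11, 17), (6, 15, 16), (6, 16,
      17), (7, 8, 17), (7, 11, 17)]
    fin := [0, 1, 1, 3, 4, 4, 4, 1, 0, 9, 1, 3, 3, 4, 14, 15, 16, 17]
    chd := [(0, 1), (1, 17), (4, 15), (4, 16), (4, 17)]
    steps := [(0, 8), (1, 2), (1, 7), (1, 10), (3, 12), (3, 11), (4, 5), (4, 6), (4, 13)] }
  rep := [3, 1, 4, 0, 15, 17, 16, 9, 14]

noncomputable def v3432 : Cov.CovD where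
  P := 3
  N := 6
  pl := [1, 6]
  lev := [⟨[], [], [(1, 3)], [7], [(0, 3, [1]), (2, 1, [3, 5])]⟩,
    ⟨[], [(0, 0), (0, 1), (0, 3)], [(0, 1), (0, 3), (1, 3)], [], [(0, 3, [1]), (2, 1, [3,
      5]), (3, 0, [])]⟩,
    ⟨[(0, 1)], [(0, 1), (1, 0), (1, 1), (1, 3)], [(0, 1)], [], [(2, 1, [3, 5]), (4, 0,
      [])]⟩,
    ⟨[(0, 1), (1, 2)], [(1, 0), (1, 1), (1, 2), (1, 3), (2, 0), (2, 1), (2, 2)], [(0, 0),
      (0, 2)], [], [(3, 0, []), (4, 0, []), (5, 2, [4, 5, 6])]⟩,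
    ⟨[(1, 3), (2, 3)], [(3, 0), (3, 2), (3, 4)], [(2, 4)], [8], [(5, 2, [4, 5, 6]), (7, 4,
      [2])]⟩,
    ⟨[(1, 3), (2, 3), (3, 4)], [(3, 0), (3, 2), (3, 4), (4, 2), (4, 4)], [], [], [(7, 4,
      [2])]⟩,
    ⟨[(1, 3), (2, 3), (3, 4), (3, 5), (4, 5)], [(1, 0), (3, 0), (3, 2), (3, 4), (3, 5), (3,
      6), (4, 4), (5, 0), (5, 4), (5, 5), (5, 6)], [(0, 4), (0, 5), (0, 6), (4, 5), (4, 6),
      (5, 6)], [], [(3, 0, []), (7, 4, [2]), (8, 6, [2]), (9, 5, [1, 2])]⟩,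
    ⟨[(0, 1), (1, 2), (1, 3)], [(0, 3), (1, 0), (1, 1), (1, 3), (1, 5), (3, 0), (6, 0), (6,
      5)], [(0, 3), (0, 5), (3, 5)], [], [(0, 3, [1]), (3, 0, []), (9, 5, [1, 2])]⟩]
  Ta := [((3, 9), 0, 5), ((4, 2), 0, 1), ((4, 5), 0, 2)]
  Tb := [((0, 1, 9), 3, 7, 5), ((1, 0, 2), 7, 3, 1), ((2, 1, 4), 1, 7, 0), ((4, 2, 5), 0, 1, 2),
    ((5, 4, 6), 2, 0, 8), ((6, 5, 7), 8, 2, 4), ((7, 6, 8), 4, 8, 6), ((8, 7, 9), 6, 4, 5),
    ((9, 0, 3), 5, 3, 0), ((9, 0, 8), 5, 3, 6), ((9, 3, 8), 5, 0, 6)]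
  Tc := [(1, 3, 5), (2, 4, 5), (2, 4, 6), (2, 5, 6), (5, 1, 2)]
  Td := [((1, 3), (2, 1), 7), ((1, 3), (2, 4), 0), ((1, 5), (2, 1), 7), ((1, 5), (2, 4), 0), ((2,
    4), (5, 4), 0), ((2, 4), (5, 6), 8), ((2, 5), (5, 4), 0), ((2, 5), (5, 6), 8), ((2, 6),
    (5, 4), 0), ((2, 6), (5, 6), 8), ((3, 1), (0, 1), 7), ((3, 1), (0, 9), 5), ((4, 2), (7,
    6), 8), ((4, 2), (7, 8), 6), ((5, 1), (9, 0), 3), ((5, 1), (9, 3), 0), ((5, 1), (9, 8),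
    6), ((5, 2), (9, 0), 3), ((5, 2), (9, 3), 0), ((5, 2), (9, 8), 6), ((6, 2), (8, 7), 4),
    ((6, 2), (8, 9), 5)]
  G := [[0, 0, 0, 0x22822229221d41822225224221d81422822229221d4822422152288c8cd,
    0x24824249241b21824222482419a8424224132488a124224132488a8cd], [0,
    0x128122124121f42812125124121d82412441281219c42e,
    0x218212a21446482122218214ca84218212a214464218212a214468cd,
    0x228221944224488224488d228844224221588228848d22422152288c412422152288c8cd,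
    0x24824249241b24824224132488a8424221482419a424221482419a8cd]]

noncomputable def n3432 : Ent := ⟨e3432, noF, [], [], [(9, 14, [7334790875878422277917280412776772662961875900559637987928627383508993, 0]), (9, 15, [7334790850167413569773436004105379185503274260204390087403942018695169, 0]), (9, 16, [7334685537875745012586738086077695515070955365108989538292687707725825, 0])]⟩

def c3432 : PLift (Cov.check n3432.C.D v3432 = true) := ⟨by decide +kernel⟩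

def b3432 : PLift (entF (fidx ts) 400 3432 n3432 = true) := ⟨by decide +kernel⟩

theorem g3432 : GoodF (fidx ts) 400 3432 := GoodF.ofV v3432 n3432 c3432.down b3432.down

/-- 47485464:2618 -/
noncomputable def e3433 : SCfg where
  D := {
    a := 8
    L := 11
    kp := 9
    inn := [(0, 1), (1, 0), (1, 2), (1, 3), (1, 7), (2, 1), (2, 3), (3, 1), (3, 2), (3, 4), (3, 5), (3,
      6), (4, 3), (4, 5), (5, 3), (5, 4), (5, 6), (6, 3), (6, 5), (7, 1)]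
    mix := [(0, 0), (0, 1), (0, 2), (1, 0), (1, 2), (1, 3), (2, 2), (2, 4), (3, 3), (3, 4), (3, 5), (4,
      5), (4, 6), (4, 7), (5, 7), (6, 3), (6, 7), (6, 8), (6, 9), (7, 0), (7, 3), (7, 10)]
    cl := [3, 8, 1, 0, 0, 2, 9, 4, 5, 6, 7]
    chq := [(1, 3), (1, 7), (2, 4), (2, 5), (2, 6), (3, 1), (4, 2), (5, 2), (6, 2), (7, 1)]
    rng := [(0, 1), (0, 10), (1, 0), (1, 2), (2, 1), (2, 4), (3, 9), (3, 10), (4, 2), (4, 5), (5, 4),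
      (5, 6), (6, 5), (6, 7), (7, 6), (7, 8), (8, 7), (8, 9), (9, 3), (9, 8), (10, 0), (10, 3)]
    lev := [] }
  links := [[1, 8, 9, 10], [8, 0, 10, 2, 3, 11, 7], [3, 1, 10, 12], [11, 1, 2, 12, 13, 4, 5, 6], [5, 3,
    13, 14, 15], [6, 3, 4, 15], [11, 3, 5, 15, 16, 17], [8, 1, 11, 18]]
  P := {
    a := 8
    N := 19
    nb := [1794, 3469, 5130, 14454, 57384, 32856, 231464, 264450, 262787, 1281, 4615, 393418, 9228,
      20504, 40976, 82032, 163904, 67648, 2432]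
    tri := [(0, 1, 8), (0, 1, 10), (0, 8, 9), (0, 9, 10), (1, 2, 3), (1, 2, 10), (1, 3, 11), (1, 7, 8),
      (1, 7, 11), (2, 3, 12), (2, 10, 12), (3, 4, 5), (3, 4, 13), (3, 5, 6), (3, 6, 11), (3, 12,
      13), (4, 5, 15), (4, 13, 14), (4, 14, 15), (5, 6, 15), (6, 11, 17), (6, 15, 16), (6, 16,
      17), (7, 8, 18), (7, 11, 18)]
    fin := [0, 1, 1, 3, 4, 4, 4, 1, 0, 9, 1, 3, 3, 4, 14, 15, 16, 17, 18]
    chd := [(0, 1), (1, 18), (4, 15), (4, 16), (4, 17)]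
    steps := [(0, 8), (1, 2), (1, 7), (1, 10), (3, 12), (3, 11), (4, 5), (4, 6), (4, 13)] }
  rep := [3, 1, 4, 0, 15, 16, 17, 18, 9, 14]

noncomputable def v3433 : Cov.CovD where
  P := 3
  N := 7
  pl := [1, 6]
  lev := [⟨[], [], [(1, 3)], [8], [(0, 3, [1]), (2, 1, [3, 7])]⟩,
    ⟨[], [(0, 0), (0, 1), (0, 3)], [(0, 1), (0, 3), (1, 3)], [], [(0, 3, [1]), (2, 1, [3,
      7]), (3, 0, [])]⟩,
    ⟨[(0, 1)], [(0, 1), (1, 0), (1, 1), (1, 3)], [(0, 1)], [], [(2, 1, [3, 7]), (4, 0,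
      [])]⟩,
    ⟨[(0, 1), (1, 2)], [(1, 0), (1, 1), (1, 2), (1, 3), (2, 0), (2, 1), (2, 2)], [(0, 0),
      (0, 2)], [], [(3, 0, []), (4, 0, []), (5, 2, [4, 5, 6])]⟩,
    ⟨[(1, 3), (2, 3)], [(3, 0), (3, 2), (3, 4)], [(2, 4)], [9], [(5, 2, [4, 5, 6]), (7, 4,
      [2])]⟩,
    ⟨[(1, 3), (2, 3), (3, 4)], [(3, 0), (3, 2), (3, 4), (4, 2), (4, 4)], [], [], [(7, 4,
      [2])]⟩,
    ⟨[(1, 3), (2, 3), (3, 4), (3, 5), (4, 5)], [(1, 0), (3, 0), (3, 2), (3, 4), (3, 5), (3,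
      6), (4, 4), (5, 0), (5, 4), (5, 5), (5, 6)], [(0, 4), (0, 5), (0, 6), (4, 5), (4, 6),
      (5, 6)], [], [(3, 0, []), (7, 4, [2]), (8, 5, [2]), (9, 6, [2])]⟩,
    ⟨[(0, 1), (1, 2), (1, 3)], [(0, 3), (1, 0), (1, 1), (1, 3), (1, 7), (3, 0), (6, 0)],
      [(0, 3), (0, 7), (3, 7)], [], [(0, 3, [1]), (3, 0, []), (10, 7, [1])]⟩]
  Ta := [((3, 9), 0, 6), ((3, 10), 0, 7), ((4, 2), 0, 1), ((4, 5), 0, 2)]
  Tb := [((0, 1, 10), 3, 8, 7), ((1, 0, 2), 8, 3, 1), ((2, 1, 4), 1, 8, 0), ((3, 9, 10), 0, 6,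
    7), ((4, 2, 5), 0, 1, 2), ((5, 4, 6), 2, 0, 9), ((6, 5, 7), 9, 2, 4), ((7, 6, 8), 4, 9,
    5), ((8, 7, 9), 5, 4, 6), ((9, 3, 8), 6, 0, 5), ((10, 0, 3), 7, 3, 0)]
  Tc := [(1, 3, 7), (2, 4, 5), (2, 4, 6), (2, 5, 6)]
  Td := [((1, 3), (2, 1), 8), ((1, 3), (2, 4), 0), ((1, 7), (2, 1), 8), ((1, 7), (2, 4), 0), ((2,
    4), (5, 4), 0), ((2, 4), (5, 6), 9), ((2, 5), (5, 4), 0), ((2, 5), (5, 6), 9), ((2, 6),
    (5, 4), 0), ((2, 6), (5, 6), 9), ((3, 1), (0, 1), 8), ((3, 1), (0, 10), 7), ((4, 2), (7,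
    6), 9), ((4, 2), (7, 8), 5), ((5, 2), (8, 7), 4), ((5, 2), (8, 9), 6), ((6, 2), (9, 3),
    0), ((6, 2), (9, 8), 5), ((7, 1), (10, 0), 3), ((7, 1), (10, 3), 0)]
  G := [[0, 0, 0, 0x22822229221d41822225224221d81422822229221d4822422152288c8cd,
    0x24824249241b24824224132488a1424224132488a124224132488a1cd], [0,
    0x12812129121d428122124128121f82412441281219c42e,
    0x2122218214c64821421262188a84218212a2144682122218214ca4cd,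
    0x228221944224488224488d228848224221588228844d12412151288c422441282219c8cd,
    0x24824249241b24824224132488a8424222482419a424221481419a4cd]]

noncomputable def n3433 : Ent := ⟨e3433, noF, [], [], [(9, 14, [31810581956886796354777272293785310057557672019661700884176840250667446273, 0]), (9, 15, [31810581956861085346069128449376638664080213418021345636276315565302632449, 0]), (9, 16, [31810581851548793677511941751458610980409781099126250235727204310991663105, 0]), (17, 18, [30043303427623734937691929578474300150491519007939870628445900451935059969, 0])]⟩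

def c3433 : PLift (Cov.check n3433.C.D v3433 = true) := ⟨by decide +kernel⟩

def b3433 : PLift (entF (fidx ts) 400 3433 n3433 = true) := ⟨by decide +kernel⟩

theorem g3433 : GoodF (fidx ts) 400 3433 := GoodF.ofV v3433 n3433 c3433.down b3433.down

/-- 47494446:2619/2 -/
noncomputable def e3434 : SCfg where
  D := {
    a := 8
    L := 9
    kp := 6
    inn := [(0, 1), (1, 0), (1, 2), (1, 3), (1, 6), (1, 7), (2, 1), (2, 3), (3, 1), (3, 2), (3, 4), (3,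
      5), (3, 6), (4, 3), (5, 3), (6, 1), (6, 3), (6, 7), (7, 1), (7, 6)]
    mix := [(0, 0), (0, 1), (0, 2), (1, 0), (1, 2), (2, 2), (2, 3), (3, 3), (3, 4), (3, 5), (3, 6), (4,
      1), (4, 3), (4, 4), (5, 4), (5, 5), (5, 7), (6, 6), (7, 0), (7, 6), (7, 7), (7, 8)]
    cl := [0, 4, 2, 1, 3, 1, 0, 5, 6]
    chq := [(0, 2), (1, 3), (2, 0), (3, 1)]
    rng := [(0, 1), (0, 7), (1, 0), (1, 2), (1, 3), (1, 4), (2, 1), (2, 3), (3, 1), (3, 2), (4, 1), (4,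
      7), (5, 6), (5, 7), (6, 5), (6, 8), (7, 0), (7, 4), (7, 5), (7, 8), (8, 6), (8, 7)]
    lev := [] }
  links := [[1, 8, 9, 10], [8, 0, 10, 2, 3, 6, 7], [3, 1, 10, 11], [6, 1, 2, 11, 4, 12, 5, 13, 14], [12,
    3, 11, 9], [13, 3, 12, 15], [7, 1, 3, 14], [8, 1, 6, 14, 16, 15]]
  P := {
    a := 8
    N := 17
    nb := [1794, 1485, 3082, 30838, 6664, 45064, 16522, 115010, 33411, 7441, 2567, 1564, 33336, 49192,
      73928, 78240, 49280]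
    tri := [(0, 1, 8), (0, 1, 10), (0, 8, 9), (0, 9, 10), (1, 2, 3), (1, 2, 10), (1, 3, 6), (1, 6, 7),
      (1, 7, 8), (2, 3, 11), (2, 10, 11), (3, 4, 11), (3, 4, 12), (3, 5, 12), (3, 5, 13), (3, 6,
      14), (3, 13, 14), (4, 9, 11), (4, 9, 12), (5, 12, 15), (5, 13, 15), (6, 7, 14), (7, 8, 15),
      (7, 14, 16), (7, 15, 16)]
    fin := [0, 0, 0, 3, 4, 3, 0, 0, 0, 4, 10, 3, 12, 3, 0, 15, 16]
    chd := [(0, 10), (3, 12)]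
    steps := [(0, 1), (0, 2), (0, 6), (0, 7), (0, 8), (0, 14), (3, 5), (3, 11), (3, 13), (4, 9)] }
  rep := [0, 3, 10, 12, 4, 15, 16]

noncomputable def v3434 : Cov.CovD where
  P := 3
  N := 4
  pl := [1, 7, 8]
  lev := [⟨[], [], [(0, 2)], [4], [(0, 0, [2]), (2, 2, [0])]⟩,
    ⟨[], [(0, 0), (0, 2)], [(0, 2)], [], [(0, 0, [2]), (2, 2, [0])]⟩,
    ⟨[(0, 1)], [(0, 2), (1, 0), (1, 1), (1, 2)], [(1, 2)], [], [(2, 2, [0]), (3, 1, [3])]⟩,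
    ⟨[(0, 1), (1, 2)], [(1, 0), (1, 1), (1, 2), (1, 3), (2, 0), (2, 1), (2, 2), (2, 3)],
      [(0, 1), (0, 3), (1, 1), (1, 3)], [], [(3, 1, [3]), (4, 3, [1]), (5, 1, [3]), (6, 0,
      [2])]⟩,
    ⟨[(1, 3), (2, 3)], [(2, 1), (3, 0), (3, 1), (3, 3)], [(1, 3)], [4], [(3, 1, [3]), (4,
      3, [1])]⟩,
    ⟨[(1, 3), (2, 3), (3, 4)], [(3, 0), (3, 1), (3, 3), (4, 3)], [(1, 3)], [5], [(4, 3,
      [1]), (5, 1, [3])]⟩,
    ⟨[(0, 1), (1, 2), (1, 3), (2, 3), (3, 4), (3, 5)], [(1, 0), (1, 2), (3, 0), (3, 1), (3,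
      3)], [], [], [(6, 0, [2])]⟩,
    ⟨[(0, 1), (1, 2), (1, 3), (1, 6), (3, 6)], [(0, 0), (1, 0), (1, 2), (3, 0), (6, 0)],
      [(0, 0)], [5, 6], [(0, 0, [2]), (6, 0, [2])]⟩]
  Ta := [((0, 1), 0, 4), ((0, 7), 0, 5), ((3, 1), 1, 4), ((3, 2), 1, 2), ((5, 6), 1, 0), ((5, 7),
    1, 5), ((6, 5), 0, 1), ((6, 8), 0, 6)]
  Tb := [((0, 1, 7), 0, 4, 5), ((1, 0, 2), 4, 0, 2), ((1, 0, 3), 4, 0, 1), ((1, 0, 4), 4, 0, 3),
    ((1, 2, 3), 4, 2, 1), ((1, 2, 4), 4, 2, 3), ((1, 3, 4), 4, 1, 3), ((2, 1, 3), 2, 4, 1),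
    ((3, 1, 2), 1, 4, 2), ((4, 1, 7), 3, 4, 5), ((5, 6, 7), 1, 0, 5), ((6, 5, 8), 0, 1, 6),
    ((7, 0, 4), 5, 0, 3), ((7, 0, 5), 5, 0, 1), ((7, 0, 8), 5, 0, 6), ((7, 4, 5), 5, 3, 1),
    ((7, 4, 8), 5, 3, 6), ((7, 5, 8), 5, 1, 6), ((8, 6, 7), 6, 0, 5)]
  Tc := []
  Td := [((0, 2), (0, 1), 4), ((0, 2), (0, 7), 5), ((0, 2), (6, 5), 1), ((0, 2), (6, 8), 6), ((1,
    3), (3, 1), 4), ((1, 3), (3, 2), 2), ((1, 3), (5, 6), 0), ((1, 3), (5, 7), 5), ((2, 0),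
    (2, 1), 4), ((2, 0), (2, 3), 1), ((3, 1), (4, 1), 4), ((3, 1), (4, 7), 5)]
  G := [[0, 0, 0xe428e111c12e411e824c82c, 0x412141e128a221c1c6121e224c1811181cc,
    0xe128a842334c1264218268ac1a455c1811188aa], [0, 0, 0x848216211a262ca113c582, 0,
    0x6212e112468c68a157c1c18281a2], [0, 0, 0xe128e111c42a22a115884414411528a11c18e,
    0x482141e222ca268c2da211c1c1, 0xe411c2c2e822c61dc121], [0, 0x6241a881c8c24ace1e841,
    0xa461c6213a111c148114862, 0, 0xe411a424aa4d2c821]]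

noncomputable def n3434 : Ent := ⟨e3434, noF, [], [], []⟩

def c3434 : PLift (Cov.check n3434.C.D v3434 = true) := ⟨by decide +kernel⟩

def b3434 : PLift (entF (fidx ts) 400 3434 n3434 = true) := ⟨by decide +kernel⟩

theorem g3434 : GoodF (fidx ts) 400 3434 := GoodF.ofV v3434 n3434 c3434.down b3434.down

/-- 47494446:2619/1 -/
noncomputable def e3435 : SCfg where
  D := {
    a := 8
    L := 10
    kp := 7
    inn := [(0, 1), (1, 0), (1, 2), (1, 3), (1, 6), (1, 7), (2, 1), (2, 3), (3, 1), (3, 2), (3, 4), (3,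
      5), (3, 6), (4, 3), (5, 3), (6, 1), (6, 3), (6, 7), (7, 1), (7, 6)]
    mix := [(0, 0), (0, 1), (0, 2), (1, 0), (1, 2), (2, 2), (2, 3), (3, 3), (3, 4), (3, 5), (3, 6), (4,
      1), (4, 3), (4, 4), (5, 4), (5, 5), (5, 7), (6, 6), (7, 0), (7, 6), (7, 8), (7, 9)]
    cl := [3, 2, 1, 0, 4, 0, 3, 5, 6, 7]
    chq := [(0, 4), (1, 3), (3, 1), (4, 0)]
    rng := [(0, 1), (0, 9), (1, 0), (1, 2), (1, 3), (1, 4), (2, 1), (2, 3), (3, 1), (3, 2), (4, 1), (4,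
      7), (5, 6), (5, 7), (6, 5), (6, 8), (7, 4), (7, 5), (8, 6), (8, 9), (9, 0), (9, 8)]
    lev := [] }
  links := [[1, 8, 9, 10], [8, 0, 10, 2, 3, 6, 7], [3, 1, 10, 11], [6, 1, 2, 11, 4, 12, 5, 13, 14], [12,
    3, 11, 9], [13, 3, 12, 15], [7, 1, 3, 14], [8, 1, 6, 14, 16, 17]]
  P := {
    a := 8
    N := 18
    nb := [1794, 1485, 3082, 30838, 6664, 45064, 16522, 213314, 131715, 7441, 2567, 1564, 33336,
      49192, 73928, 12320, 147584, 65920]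
    tri := [(0, 1, 8), (0, 1, 10), (0, 8, 9), (0, 9, 10), (1, 2, 3), (1, 2, 10), (1, 3, 6), (1, 6, 7),
      (1, 7, 8), (2, 3, 11), (2, 10, 11), (3, 4, 11), (3, 4, 12), (3, 5, 12), (3, 5, 13), (3, 6,
      14), (3, 13, 14), (4, 9, 11), (4, 9, 12), (5, 12, 15), (5, 13, 15), (6, 7, 14), (7, 8, 17),
      (7, 14, 16), (7, 16, 17)]
    fin := [0, 0, 0, 3, 4, 3, 0, 0, 0, 4, 10, 3, 12, 3, 0, 15, 16, 17]
    chd := [(0, 10), (3, 12)]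
    steps := [(0, 1), (0, 2), (0, 6), (0, 7), (0, 8), (0, 14), (3, 5), (3, 11), (3, 13), (4, 9)] }
  rep := [3, 10, 4, 0, 12, 15, 16, 17]

noncomputable def v3435 : Cov.CovD where
  P := 3
  N := 5
  pl := [1, 7, 8, 9]
  lev := [⟨[], [], [(1, 3)], [2], [(0, 3, [1]), (2, 1, [3])]⟩,
    ⟨[], [(0, 1), (0, 3)], [(1, 3)], [], [(0, 3, [1]), (2, 1, [3])]⟩,
    ⟨[(0, 1)], [(0, 1), (1, 0), (1, 1), (1, 3)], [(0, 1)], [], [(2, 1, [3]), (3, 0, [4])]⟩,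
    ⟨[(0, 1), (1, 2)], [(1, 0), (1, 1), (1, 3), (1, 4), (2, 0), (2, 1), (2, 3), (2, 4)],
      [(0, 0), (0, 3), (0, 4), (3, 4)], [], [(3, 0, [4]), (4, 4, [0]), (5, 0, [4]), (6, 3,
      [1])]⟩,
    ⟨[(1, 3), (2, 3)], [(2, 0), (3, 0), (3, 3), (3, 4)], [(0, 4)], [2], [(3, 0, [4]), (4,
      4, [0])]⟩,
    ⟨[(1, 3), (2, 3), (3, 4)], [(3, 0), (3, 3), (3, 4), (4, 4)], [(0, 4)], [5], [(4, 4,
      [0]), (5, 0, [4])]⟩,
    ⟨[(0, 1), (1, 2), (1, 3), (2, 3), (3, 4), (3, 5)], [(1, 1), (1, 3), (3, 0), (3, 3), (3,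
      4)], [], [], [(6, 3, [1])]⟩,
    ⟨[(0, 1), (1, 2), (1, 3), (1, 6), (3, 6)], [(0, 3), (1, 1), (1, 3), (3, 3), (6, 3)],
      [(3, 3)], [6, 7], [(0, 3, [1]), (6, 3, [1])]⟩]
  Ta := [((0, 1), 3, 2), ((0, 9), 3, 7), ((3, 1), 0, 2), ((3, 2), 0, 1), ((5, 6), 0, 3), ((5, 7),
    0, 5), ((6, 5), 3, 0), ((6, 8), 3, 6)]
  Tb := [((0, 1, 9), 3, 2, 7), ((1, 0, 2), 2, 3, 1), ((1, 0, 3), 2, 3, 0), ((1, 0, 4), 2, 3, 4),
    ((1, 2, 3), 2, 1, 0), ((1, 2, 4), 2, 1, 4), ((1, 3, 4), 2, 0, 4), ((2, 1, 3), 1, 2, 0),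
    ((3, 1, 2), 0, 2, 1), ((4, 1, 7), 4, 2, 5), ((5, 6, 7), 0, 3, 5), ((6, 5, 8), 3, 0, 6),
    ((7, 4, 5), 5, 4, 0), ((8, 6, 9), 6, 3, 7), ((9, 0, 8), 7, 3, 6)]
  Tc := []
  Td := [((0, 4), (3, 1), 2), ((0, 4), (3, 2), 1), ((0, 4), (5, 6), 3), ((0, 4), (5, 7), 5), ((1,
    3), (2, 1), 2), ((1, 3), (2, 3), 0), ((3, 1), (0, 1), 2), ((3, 1), (0, 9), 7), ((3, 1),
    (6, 5), 0), ((3, 1), (6, 8), 6), ((4, 0), (4, 1), 2), ((4, 0), (4, 7), 5)]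
  G := [[0, 0x441741c2431188414a841886ab81811c2878144118686c, 0x1a518b412a41f8147818681c,
    0x11112146c281111a181c24e8e4ae81c28d1,
    0x111112b121a481811911183af81868e81a248e2a2fa48d1], [0, 0x22147114711b11ce2911882a4,
    0xf11228f2144f2188c58, 0xf11f1f16c2848, 0xf2f29f2f23af4186818], [0, 0, 0,
    0x118184182d24128114112d24e48e84e82d24d1,
    0x32224b441289b841ac1128312a41111618e1224bc8184aade2862c2694859], [0, 0, 0,
    0x2c3b82d274e792d2848, 0xd221f22f2f2c3f474a8e818]]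

noncomputable def n3435 : Ent := ⟨e3435, noF, [], [], [(15, 17, [6903326391201334775872065844685381424292761054348340378595029943754753, 0])]⟩

def c3435 : PLift (Cov.check n3435.C.D v3435 = true) := ⟨by decide +kernel⟩

def b3435 : PLift (entF (fidx ts) 400 3435 n3435 = true) := ⟨by decide +kernel⟩

theorem g3435 : GoodF (fidx ts) 400 3435 := GoodF.ofV v3435 n3435 c3435.down b3435.down

/-- 47494446:2619/4 -/
noncomputable def e3436 : SCfg where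
  D := {
    a := 8
    L := 9
    kp := 6
    inn := [(0, 1), (1, 0), (1, 2), (1, 3), (1, 6), (1, 7), (2, 1), (2, 3), (3, 1), (3, 2), (3, 4), (3,
      5), (3, 6), (4, 3), (5, 3), (6, 1), (6, 3), (6, 7), (7, 1), (7, 6)]
    mix := [(0, 0), (0, 1), (0, 2), (1, 0), (1, 2), (2, 2), (2, 3), (3, 3), (3, 4), (3, 5), (3, 6), (4,
      3), (4, 4), (4, 7), (5, 1), (5, 4), (5, 5), (6, 6), (7, 0), (7, 6), (7, 7), (7, 8)]
    cl := [0, 2, 3, 1, 4, 1, 0, 5, 6]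
    chq := [(0, 3), (1, 4), (3, 0), (4, 1)]
    rng := [(0, 1), (0, 7), (1, 0), (1, 2), (1, 4), (1, 5), (2, 1), (2, 3), (3, 2), (3, 7), (4, 1), (4,
      7), (5, 1), (5, 6), (6, 5), (6, 8), (7, 0), (7, 3), (7, 4), (7, 8), (8, 6), (8, 7)]
    lev := [] }
  links := [[1, 8, 9, 10], [8, 0, 10, 2, 3, 6, 7], [3, 1, 10, 11], [6, 1, 2, 11, 4, 12, 5, 13, 14], [12,
    3, 11, 15], [13, 3, 12, 9], [7, 1, 3, 14], [8, 1, 6, 14, 16, 15]]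
  P := {
    a := 8
    N := 17
    nb := [1794, 1485, 3082, 30838, 38920, 12808, 16522, 115010, 33411, 13601, 2567, 33820, 33336,
      16936, 73928, 72080, 49280]
    tri := [(0, 1, 8), (0, 1, 10), (0, 8, 9), (0, 9, 10), (1, 2, 3), (1, 2, 10), (1, 3, 6), (1, 6, 7),
      (1, 7, 8), (2, 3, 11), (2, 10, 11), (3, 4, 11), (3, 4, 12), (3, 5, 12), (3, 5, 13), (3, 6,
      14), (3, 13, 14), (4, 11, 15), (4, 12, 15), (5, 9, 12), (5, 9, 13), (6, 7, 14), (7, 8, 15),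
      (7, 14, 16), (7, 15, 16)]
    fin := [0, 0, 0, 3, 3, 5, 0, 0, 0, 5, 10, 3, 12, 3, 0, 15, 16]
    chd := [(0, 10), (3, 12)]
    steps := [(0, 1), (0, 2), (0, 6), (0, 7), (0, 8), (0, 14), (3, 4), (3, 11), (3, 13), (5, 9)] }
  rep := [0, 3, 5, 10, 12, 15, 16]

noncomputable def v3436 : Cov.CovD where
  P := 3
  N := 4
  pl := [1, 7, 8]
  lev := [⟨[], [], [(0, 3)], [2], [(0, 0, [3]), (2, 3, [0])]⟩,
    ⟨[], [(0, 0), (0, 3)], [(0, 3)], [], [(0, 0, [3]), (2, 3, [0])]⟩,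
    ⟨[(0, 1)], [(0, 3), (1, 0), (1, 1), (1, 3)], [(1, 3)], [], [(2, 3, [0]), (3, 1, [4])]⟩,
    ⟨[(0, 1), (1, 2)], [(1, 0), (1, 1), (1, 3), (1, 4), (2, 0), (2, 1), (2, 3), (2, 4)],
      [(0, 1), (0, 4), (1, 1), (1, 4)], [], [(3, 1, [4]), (4, 4, [1]), (5, 1, [4]), (6, 0,
      [3])]⟩,
    ⟨[(1, 3), (2, 3)], [(2, 1), (3, 0), (3, 1), (3, 4)], [(1, 4)], [5], [(3, 1, [4]), (4,
      4, [1])]⟩,
    ⟨[(1, 3), (2, 3), (3, 4)], [(3, 0), (3, 1), (3, 4), (4, 4)], [(1, 4)], [2], [(4, 4,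
      [1]), (5, 1, [4])]⟩,
    ⟨[(0, 1), (1, 2), (1, 3), (2, 3), (3, 4), (3, 5)], [(1, 0), (1, 3), (3, 0), (3, 1), (3,
      4)], [], [], [(6, 0, [3])]⟩,
    ⟨[(0, 1), (1, 2), (1, 3), (1, 6), (3, 6)], [(0, 0), (1, 0), (1, 3), (3, 0), (6, 0)],
      [(0, 0)], [5, 6], [(0, 0, [3]), (6, 0, [3])]⟩]
  Ta := [((0, 1), 0, 2), ((0, 7), 0, 5), ((3, 2), 1, 3), ((3, 7), 1, 5), ((5, 1), 1, 2), ((5, 6),
    1, 0), ((6, 5), 0, 1), ((6, 8), 0, 6)]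
  Tb := [((0, 1, 7), 0, 2, 5), ((1, 0, 2), 2, 0, 3), ((1, 0, 4), 2, 0, 4), ((1, 0, 5), 2, 0, 1),
    ((1, 2, 4), 2, 3, 4), ((1, 2, 5), 2, 3, 1), ((1, 4, 5), 2, 4, 1), ((2, 1, 3), 3, 2, 1),
    ((3, 2, 7), 1, 3, 5), ((4, 1, 7), 4, 2, 5), ((5, 1, 6), 1, 2, 0), ((6, 5, 8), 0, 1, 6),
    ((7, 0, 3), 5, 0, 1), ((7, 0, 4), 5, 0, 4), ((7, 0, 8), 5, 0, 6), ((7, 3, 4), 5, 1, 4),
    ((7, 3, 8), 5, 1, 6), ((7, 4, 8), 5, 4, 6), ((8, 6, 7), 6, 0, 5)]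
  Tc := []
  Td := [((0, 3), (0, 1), 2), ((0, 3), (0, 7), 5), ((0, 3), (6, 5), 1), ((0, 3), (6, 8), 6), ((1,
    4), (3, 2), 3), ((1, 4), (3, 7), 5), ((1, 4), (5, 1), 2), ((1, 4), (5, 6), 0), ((3, 0),
    (2, 1), 2), ((3, 0), (2, 3), 1), ((4, 1), (4, 1), 2), ((4, 1), (4, 7), 5)]
  G := [[0, 0, 0x61414148218821c1ca181816841416242181c1818141c1ae, 0,
    0x218612241d41a2262198821c1c242248221d2221c1842412948c198415c16a], [0, 0,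
    0x228212141492181224294c181c841c1e2, 0xe182e142c12e482e842c12c,
    0x218688a21d426182a111c1888c11c41e2], [0, 0, 0, 0,
    0x6224414211a211ca2228198cce411a82682a81dc129], [0, 0x6241648168a281a841a4c481c841c2e1,
    0, 0xe111e842c82e482e841c125, 0x228221348228282211454482888c819c1e2]]

noncomputable def n3436 : Ent := ⟨e3436, noF, [], [], []⟩

def c3436 : PLift (Cov.check n3436.C.D v3436 = true) := ⟨by decide +kernel⟩

def b3436 : PLift (entF (fidx ts) 400 3436 n3436 = true) := ⟨by decide +kernel⟩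

theorem g3436 : GoodF (fidx ts) 400 3436 := GoodF.ofV v3436 n3436 c3436.down b3436.down

/-- 47494446:2619/3 -/
noncomputable def e3437 : SCfg where
  D := {
    a := 8
    L := 10
    kp := 7
    inn := [(0, 1), (1, 0), (1, 2), (1, 3), (1, 6), (1, 7), (2, 1), (2, 3), (3, 1), (3, 2), (3, 4), (3,
      5), (3, 6), (4, 3), (5, 3), (6, 1), (6, 3), (6, 7), (7, 1), (7, 6)]
    mix := [(0, 0), (0, 1), (0, 2), (1, 0), (1, 2), (2, 2), (2, 3), (3, 3), (3, 4), (3, 5), (3, 6), (4,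
      3), (4, 4), (4, 7), (5, 1), (5, 4), (5, 5), (6, 6), (7, 0), (7, 6), (7, 8), (7, 9)]
    cl := [0, 4, 2, 1, 3, 1, 0, 5, 6, 7]
    chq := [(0, 2), (1, 3), (2, 0), (3, 1)]
    rng := [(0, 1), (0, 9), (1, 0), (1, 2), (1, 4), (1, 5), (2, 1), (2, 3), (3, 2), (3, 7), (4, 1), (4,
      7), (5, 1), (5, 6), (6, 5), (6, 8), (7, 3), (7, 4), (8, 6), (8, 9), (9, 0), (9, 8)]
    lev := [] }
  links := [[1, 8, 9, 10], [8, 0, 10, 2, 3, 6, 7], [3, 1, 10, 11], [6, 1, 2, 11, 4, 12, 5, 13, 14], [12,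
    3, 11, 15], [13, 3, 12, 9], [7, 1, 3, 14], [8, 1, 6, 14, 16, 17]]
  P := {
    a := 8
    N := 18
    nb := [1794, 1485, 3082, 30838, 38920, 12808, 16522, 213314, 131715, 13601, 2567, 33820, 33336,
      16936, 73928, 6160, 147584, 65920]
    tri := [(0, 1, 8), (0, 1, 10), (0, 8, 9), (0, 9, 10), (1, 2, 3), (1, 2, 10), (1, 3, 6), (1, 6, 7),
      (1, 7, 8), (2, 3, 11), (2, 10, 11), (3, 4, 11), (3, 4, 12), (3, 5, 12), (3, 5, 13), (3, 6,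
      14), (3, 13, 14), (4, 11, 15), (4, 12, 15), (5, 9, 12), (5, 9, 13), (6, 7, 14), (7, 8, 17),
      (7, 14, 16), (7, 16, 17)]
    fin := [0, 0, 0, 3, 3, 5, 0, 0, 0, 5, 10, 3, 12, 3, 0, 15, 16, 17]
    chd := [(0, 10), (3, 12)]
    steps := [(0, 1), (0, 2), (0, 6), (0, 7), (0, 8), (0, 14), (3, 4), (3, 11), (3, 13), (5, 9)] }
  rep := [0, 3, 10, 12, 5, 15, 16, 17]

noncomputable def v3437 : Cov.CovD where
  P := 3
  N := 5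
  pl := [1, 7, 8, 9]
  lev := [⟨[], [], [(0, 2)], [4], [(0, 0, [2]), (2, 2, [0])]⟩,
    ⟨[], [(0, 0), (0, 2)], [(0, 2)], [], [(0, 0, [2]), (2, 2, [0])]⟩,
    ⟨[(0, 1)], [(0, 2), (1, 0), (1, 1), (1, 2)], [(1, 2)], [], [(2, 2, [0]), (3, 1, [3])]⟩,
    ⟨[(0, 1), (1, 2)], [(1, 0), (1, 1), (1, 2), (1, 3), (2, 0), (2, 1), (2, 2), (2, 3)],
      [(0, 1), (0, 3), (1, 1), (1, 3)], [], [(3, 1, [3]), (4, 3, [1]), (5, 1, [3]), (6, 0,
      [2])]⟩,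
    ⟨[(1, 3), (2, 3)], [(2, 1), (3, 0), (3, 1), (3, 3)], [(1, 3)], [5], [(3, 1, [3]), (4,
      3, [1])]⟩,
    ⟨[(1, 3), (2, 3), (3, 4)], [(3, 0), (3, 1), (3, 3), (4, 3)], [(1, 3)], [4], [(4, 3,
      [1]), (5, 1, [3])]⟩,
    ⟨[(0, 1), (1, 2), (1, 3), (2, 3), (3, 4), (3, 5)], [(1, 0), (1, 2), (3, 0), (3, 1), (3,
      3)], [], [], [(6, 0, [2])]⟩,
    ⟨[(0, 1), (1, 2), (1, 3), (1, 6), (3, 6)], [(0, 0), (1, 0), (1, 2), (3, 0), (6, 0)],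
      [(0, 0)], [6, 7], [(0, 0, [2]), (6, 0, [2])]⟩]
  Ta := [((0, 1), 0, 4), ((0, 9), 0, 7), ((3, 2), 1, 2), ((3, 7), 1, 5), ((5, 1), 1, 4), ((5, 6),
    1, 0), ((6, 5), 0, 1), ((6, 8), 0, 6)]
  Tb := [((0, 1, 9), 0, 4, 7), ((1, 0, 2), 4, 0, 2), ((1, 0, 4), 4, 0, 3), ((1, 0, 5), 4, 0, 1),
    ((1, 2, 4), 4, 2, 3), ((1, 2, 5), 4, 2, 1), ((1, 4, 5), 4, 3, 1), ((2, 1, 3), 2, 4, 1),
    ((3, 2, 7), 1, 2, 5), ((4, 1, 7), 3, 4, 5), ((5, 1, 6), 1, 4, 0), ((6, 5, 8), 0, 1, 6),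
    ((7, 3, 4), 5, 1, 3), ((8, 6, 9), 6, 0, 7), ((9, 0, 8), 7, 0, 6)]
  Tc := []
  Td := [((0, 2), (0, 1), 4), ((0, 2), (0, 9), 7), ((0, 2), (6, 5), 1), ((0, 2), (6, 8), 6), ((1,
    3), (3, 2), 2), ((1, 3), (3, 7), 5), ((1, 3), (5, 1), 4), ((1, 3), (5, 6), 0), ((2, 0),
    (2, 1), 4), ((2, 0), (2, 3), 1), ((3, 1), (4, 1), 4), ((3, 1), (4, 7), 5)]
  G := [[0, 0, 0xe22e22541e1e1368a1981c2,
    0x62262254184241e12812a468d8211c9c442816121414e12e14dc9a22822981cc,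
    0x2228164214ac28ce2c23e2e15dc9c12812981a2], [0, 0, 0xe282814e4122ca42c1268a168915428e, 0,
    0xe1822ca82ca1e84dc122212221e1468917c1c41c41981aa], [0, 0,
    0xe22e11541a22a219842e23482985c2, 0xe22481541a462e229a821c1c1,
    0xe22a461541e42c632ca2981a1], [0, 0xe281841e841481e421248d,
    0xe4828e814ac15452211e113281e146c82c118812e, 0, 0xe21e2e2c68c1741e41281a1]]

noncomputable def n3437 : Ent := ⟨e3437, noF, [], [], [(15, 17, [6903326391201334775872065844685381424292761054348340378595029943762945, 0])]⟩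

def c3437 : PLift (Cov.check n3437.C.D v3437 = true) := ⟨by decide +kernel⟩

def b3437 : PLift (entF (fidx ts) 400 3437 n3437 = true) := ⟨by decide +kernel⟩

theorem g3437 : GoodF (fidx ts) 400 3437 := GoodF.ofV v3437 n3437 c3437.down b3437.down

/-- 47494446:2619/5 -/
noncomputable def e3438 : SCfg where
  D := {
    a := 8
    L := 10
    kp := 7
    inn := [(0, 1), (1, 0), (1, 2), (1, 3), (1, 6), (1, 7), (2, 1), (2, 3), (3, 1), (3, 2), (3, 4), (3,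
      5), (3, 6), (4, 3), (5, 3), (6, 1), (6, 3), (6, 7), (7, 1), (7, 6)]
    mix := [(0, 0), (0, 1), (0, 2), (1, 0), (1, 2), (2, 2), (2, 3), (3, 3), (3, 4), (3, 5), (3, 6), (4,
      3), (4, 4), (4, 7), (5, 4), (5, 5), (5, 8), (6, 6), (7, 0), (7, 6), (7, 7), (7, 9)]
    cl := [0, 5, 2, 1, 3, 1, 0, 4, 6, 7]
    chq := [(0, 2), (1, 3), (2, 0), (3, 1)]
    rng := [(0, 1), (0, 7), (1, 0), (1, 2), (2, 1), (2, 3), (3, 2), (3, 7), (4, 7), (4, 8), (5, 6), (5,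
      8), (6, 5), (6, 9), (7, 0), (7, 3), (7, 4), (7, 9), (8, 4), (8, 5), (9, 6), (9, 7)]
    lev := [] }
  links := [[1, 8, 9, 10], [8, 0, 10, 2, 3, 6, 7], [3, 1, 10, 11], [6, 1, 2, 11, 4, 12, 5, 13, 14], [12,
    3, 11, 15], [13, 3, 12, 16], [7, 1, 3, 14], [8, 1, 6, 14, 17, 15]]
  P := {
    a := 8
    N := 18
    nb := [1794, 1485, 3082, 30838, 38920, 77832, 16522, 180546, 33411, 1281, 2567, 33820, 98360,
      81960, 139464, 137616, 12320, 49280]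
    tri := [(0, 1, 8), (0, 1, 10), (0, 8, 9), (0, 9, 10), (1, 2, 3), (1, 2, 10), (1, 3, 6), (1, 6, 7),
      (1, 7, 8), (2, 3, 11), (2, 10, 11), (3, 4, 11), (3, 4, 12), (3, 5, 12), (3, 5, 13), (3, 6,
      14), (3, 13, 14), (4, 11, 15), (4, 12, 15), (5, 12, 16), (5, 13, 16), (6, 7, 14), (7, 8,
      15), (7, 14, 17), (7, 15, 17)]
    fin := [0, 0, 0, 3, 3, 3, 0, 0, 0, 9, 10, 3, 12, 3, 0, 15, 16, 17]
    chd := [(0, 10), (3, 12)]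
    steps := [(0, 1), (0, 2), (0, 6), (0, 7), (0, 8), (0, 14), (3, 4), (3, 5), (3, 11), (3, 13)] }
  rep := [0, 3, 10, 12, 15, 9, 16, 17]

noncomputable def v3438 : Cov.CovD where
  P := 3
  N := 5
  pl := [1, 7, 8, 9]
  lev := [⟨[], [], [(0, 2)], [5], [(0, 0, [2]), (2, 2, [0])]⟩,
    ⟨[], [(0, 0), (0, 2)], [(0, 2)], [], [(0, 0, [2]), (2, 2, [0])]⟩,
    ⟨[(0, 1)], [(0, 2), (1, 0), (1, 1), (1, 2)], [(1, 2)], [], [(2, 2, [0]), (3, 1, [3])]⟩,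
    ⟨[(0, 1), (1, 2)], [(1, 0), (1, 1), (1, 2), (1, 3), (2, 0), (2, 1), (2, 2), (2, 3)],
      [(0, 1), (0, 3), (1, 1), (1, 3)], [], [(3, 1, [3]), (4, 3, [1]), (5, 1, [3]), (6, 0,
      [2])]⟩,
    ⟨[(1, 3), (2, 3)], [(2, 1), (3, 0), (3, 1), (3, 3)], [(1, 3)], [4], [(3, 1, [3]), (4,
      3, [1])]⟩,
    ⟨[(1, 3), (2, 3), (3, 4)], [(3, 0), (3, 1), (3, 3), (4, 3)], [(1, 3)], [6], [(4, 3,
      [1]), (5, 1, [3])]⟩,
    ⟨[(0, 1), (1, 2), (1, 3), (2, 3), (3, 4), (3, 5)], [(1, 0), (1, 2), (3, 0), (3, 1), (3,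
      3)], [], [], [(6, 0, [2])]⟩,
    ⟨[(0, 1), (1, 2), (1, 3), (1, 6), (3, 6)], [(0, 0), (1, 0), (1, 2), (3, 0), (6, 0)],
      [(0, 0)], [4, 7], [(0, 0, [2]), (6, 0, [2])]⟩]
  Ta := [((0, 1), 0, 5), ((0, 7), 0, 4), ((3, 2), 1, 2), ((3, 7), 1, 4), ((5, 6), 1, 0), ((5, 8),
    1, 6), ((6, 5), 0, 1), ((6, 9), 0, 7)]
  Tb := [((0, 1, 7), 0, 5, 4), ((1, 0, 2), 5, 0, 2), ((2, 1, 3), 2, 5, 1), ((3, 2, 7), 1, 2, 4),
    ((4, 7, 8), 3, 4, 6), ((5, 6, 8), 1, 0, 6), ((6, 5, 9), 0, 1, 7), ((7, 0, 3), 4, 0, 1),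
    ((7, 0, 4), 4, 0, 3), ((7, 0, 9), 4, 0, 7), ((7, 3, 4), 4, 1, 3), ((7, 3, 9), 4, 1, 7),
    ((7, 4, 9), 4, 3, 7), ((8, 4, 5), 6, 3, 1), ((9, 6, 7), 7, 0, 4)]
  Tc := []
  Td := [((0, 2), (0, 1), 5), ((0, 2), (0, 7), 4), ((0, 2), (6, 5), 1), ((0, 2), (6, 9), 7), ((1,
    3), (3, 2), 2), ((1, 3), (3, 7), 4), ((1, 3), (5, 6), 0), ((1, 3), (5, 8), 6), ((2, 0),
    (2, 1), 5), ((2, 0), (2, 3), 1), ((3, 1), (4, 7), 4), ((3, 1), (4, 8), 6)]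
  G := [[0, 0, 0x642a4615e821ca12e1898c26221612e1e155c1a12881cc,
    0x622441a226129a821c1c6121682a225c1a22881cc,
    0x68c23a184354c22866616499892642231a221c62483e2a46dc1c42881aa], [0, 0,
    0xe1a4691814e111e8e1521438288de4828c24182222c24517482c284d2498e, 0,
    0xe44ac9261619e84a8a457c12228216412a246861928e2c2891fc9c1819281aa], [0, 0,
    0x286242324a99682a1a855c126242318682e2a25545a42881c6, 0x642168228a25c1a22884c1,
    0xa422462924a2e8e855c121], [0, 0x6262c148281e484e4e1682484d81,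
    0xe84e8134e48e1e1938c2641181e18e484938e84a461345ac, 0, 0xe2e25141e42cae4d281a1]]

noncomputable def n3438 : Ent := ⟨e3438, noF, [], [], [(9, 16, [7334685537875745012586738086077695515070955365108989538292687707750401, 0])]⟩

def c3438 : PLift (Cov.check n3438.C.D v3438 = true) := ⟨by decide +kernel⟩

def b3438 : PLift (entF (fidx ts) 400 3438 n3438 = true) := ⟨by decide +kernel⟩

theorem g3438 : GoodF (fidx ts) 400 3438 := GoodF.ofV v3438 n3438 c3438.down b3438.down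

/-- 47494446:2619/6 -/
noncomputable def e3439 : SCfg where
  D := {
    a := 8
    L := 10
    kp := 7
    inn := [(0, 1), (1, 0), (1, 2), (1, 3), (1, 6), (1, 7), (2, 1), (2, 3), (3, 1), (3, 2), (3, 4), (3,
      5), (3, 6), (4, 3), (5, 3), (6, 1), (6, 3), (6, 7), (7, 1), (7, 6)]
    mix := [(0, 0), (0, 1), (0, 2), (1, 0), (1, 2), (2, 2), (2, 3), (3, 3), (3, 4), (3, 5), (3, 6), (4,
      3), (4, 4), (4, 7), (5, 4), (5, 5), (5, 8), (6, 6), (7, 0), (7, 6), (7, 8), (7, 9)]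
    cl := [0, 5, 2, 1, 3, 1, 0, 6, 4, 7]
    chq := [(0, 2), (1, 3), (2, 0), (3, 1)]
    rng := [(0, 1), (0, 8), (1, 0), (1, 2), (2, 1), (2, 3), (3, 2), (3, 7), (4, 7), (4, 8), (5, 6), (5,
      8), (6, 5), (6, 9), (7, 3), (7, 4), (8, 0), (8, 4), (8, 5), (8, 9), (9, 6), (9, 8)]
    lev := [] }
  links := [[1, 8, 9, 10], [8, 0, 10, 2, 3, 6, 7], [3, 1, 10, 11], [6, 1, 2, 11, 4, 12, 5, 13, 14], [12,
    3, 11, 15], [13, 3, 12, 16], [7, 1, 3, 14], [8, 1, 6, 14, 17, 16]]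
  P := {
    a := 8
    N := 18
    nb := [1794, 1485, 3082, 30838, 38920, 77832, 16522, 213314, 66179, 1281, 2567, 33820, 98360,
      81960, 139464, 6160, 143776, 82048]
    tri := [(0, 1, 8), (0, 1, 10), (0, 8, 9), (0, 9, 10), (1, 2, 3), (1, 2, 10), (1, 3, 6), (1, 6, 7),
      (1, 7, 8), (2, 3, 11), (2, 10, 11), (3, 4, 11), (3, 4, 12), (3, 5, 12), (3, 5, 13), (3, 6,
      14), (3, 13, 14), (4, 11, 15), (4, 12, 15), (5, 12, 16), (5, 13, 16), (6, 7, 14), (7, 8,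
      16), (7, 14, 17), (7, 16, 17)]
    fin := [0, 0, 0, 3, 3, 3, 0, 0, 0, 9, 10, 3, 12, 3, 0, 15, 16, 17]
    chd := [(0, 10), (3, 12)]
    steps := [(0, 1), (0, 2), (0, 6), (0, 7), (0, 8), (0, 14), (3, 4), (3, 5), (3, 11), (3, 13)] }
  rep := [0, 3, 10, 12, 16, 9, 15, 17]

noncomputable def v3439 : Cov.CovD where
  P := 3
  N := 5
  pl := [1, 7, 8, 9]
  lev := [⟨[], [], [(0, 2)], [5], [(0, 0, [2]), (2, 2, [0])]⟩,
    ⟨[], [(0, 0), (0, 2)], [(0, 2)], [], [(0, 0, [2]), (2, 2, [0])]⟩,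
    ⟨[(0, 1)], [(0, 2), (1, 0), (1, 1), (1, 2)], [(1, 2)], [], [(2, 2, [0]), (3, 1, [3])]⟩,
    ⟨[(0, 1), (1, 2)], [(1, 0), (1, 1), (1, 2), (1, 3), (2, 0), (2, 1), (2, 2), (2, 3)],
      [(0, 1), (0, 3), (1, 1), (1, 3)], [], [(3, 1, [3]), (4, 3, [1]), (5, 1, [3]), (6, 0,
      [2])]⟩,
    ⟨[(1, 3), (2, 3)], [(2, 1), (3, 0), (3, 1), (3, 3)], [(1, 3)], [6], [(3, 1, [3]), (4,
      3, [1])]⟩,
    ⟨[(1, 3), (2, 3), (3, 4)], [(3, 0), (3, 1), (3, 3), (4, 3)], [(1, 3)], [4], [(4, 3,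
      [1]), (5, 1, [3])]⟩,
    ⟨[(0, 1), (1, 2), (1, 3), (2, 3), (3, 4), (3, 5)], [(1, 0), (1, 2), (3, 0), (3, 1), (3,
      3)], [], [], [(6, 0, [2])]⟩,
    ⟨[(0, 1), (1, 2), (1, 3), (1, 6), (3, 6)], [(0, 0), (1, 0), (1, 2), (3, 0), (6, 0)],
      [(0, 0)], [4, 7], [(0, 0, [2]), (6, 0, [2])]⟩]
  Ta := [((0, 1), 0, 5), ((0, 8), 0, 4), ((3, 2), 1, 2), ((3, 7), 1, 6), ((5, 6), 1, 0), ((5, 8),
    1, 4), ((6, 5), 0, 1), ((6, 9), 0, 7)]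
  Tb := [((0, 1, 8), 0, 5, 4), ((1, 0, 2), 5, 0, 2), ((2, 1, 3), 2, 5, 1), ((3, 2, 7), 1, 2, 6),
    ((4, 7, 8), 3, 6, 4), ((5, 6, 8), 1, 0, 4), ((6, 5, 9), 0, 1, 7), ((7, 3, 4), 6, 1, 3),
    ((8, 0, 4), 4, 0, 3), ((8, 0, 5), 4, 0, 1), ((8, 0, 9), 4, 0, 7), ((8, 4, 5), 4, 3, 1),
    ((8, 4, 9), 4, 3, 7), ((8, 5, 9), 4, 1, 7), ((9, 6, 8), 7, 0, 4)]
  Tc := []
  Td := [((0, 2), (0, 1), 5), ((0, 2), (0, 8), 4), ((0, 2), (6, 5), 1), ((0, 2), (6, 9), 7), ((1,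
    3), (3, 2), 2), ((1, 3), (3, 7), 6), ((1, 3), (5, 6), 0), ((1, 3), (5, 8), 4), ((2, 0),
    (2, 1), 5), ((2, 0), (2, 3), 1), ((3, 1), (4, 7), 6), ((3, 1), (4, 8), 4)]
  G := [[0, 0, 0xc232e119e82ca3c2315c1284881e2268c1545e1643e12981ac,
    0x412141e2241e22e22a452da221c9c4421e2214228d484e12c45a2218a12889cc,
    0xc2e4668929e1a13c1a155c1262242262a624c5641168281819e22dc9812c48981aa], [0, 0,
    0xa46492e81684e117c12624241e11a284ac1ba812c1ca, 0,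
    0xa1e45286882689b423a852143c12a2848488561162132861c61a25ac3c18281aa], [0, 0,
    0xe1e23e129a111c14e8a13424546891189221244841a4668a111c1c82414548ee,
    0xe224ac2541e22e21981c1, 0xe422ca19e8e83a4615c121], [0, 0x6241a281c2c2e8e1e841,
    0xe1161464a18289262128462c68a13c18e114ac19822a292434e, 0, 0xa46492e81684e817c121]]

noncomputable def n3439 : Ent := ⟨e3439, noF, [], [], [(9, 15, [7334790850167413569773436004105379185503274260204390087403942018719745, 0])]⟩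

def c3439 : PLift (Cov.check n3439.C.D v3439 = true) := ⟨by decide +kernel⟩

def b3439 : PLift (entF (fidx ts) 400 3439 n3439 = true) := ⟨by decide +kernel⟩

theorem g3439 : GoodF (fidx ts) 400 3439 := GoodF.ofV v3439 n3439 c3439.down b3439.down

/-- 47494446:2619 -/
noncomputable def e3440 : SCfg where
  D := {
    a := 8
    L := 11
    kp := 8
    inn := [(0, 1), (1, 0), (1, 2), (1, 3), (1, 6), (1, 7), (2, 1), (2, 3), (3, 1), (3, 2), (3, 4), (3,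
      5), (3, 6), (4, 3), (5, 3), (6, 1), (6, 3), (6, 7), (7, 1), (7, 6)]
    mix := [(0, 0), (0, 1), (0, 2), (1, 0), (1, 2), (2, 2), (2, 3), (3, 3), (3, 4), (3, 5), (3, 6), (4,
      3), (4, 4), (4, 7), (5, 4), (5, 5), (5, 8), (6, 6), (7, 0), (7, 6), (7, 9), (7, 10)]
    cl := [0, 4, 2, 1, 3, 1, 0, 5, 6, 7, 8]
    chq := [(0, 2), (1, 3), (2, 0), (3, 1)]
    rng := [(0, 1), (0, 10), (1, 0), (1, 2), (2, 1), (2, 3), (3, 2), (3, 7), (4, 7), (4, 8), (5, 6),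
      (5, 8), (6, 5), (6, 9), (7, 3), (7, 4), (8, 4), (8, 5), (9, 6), (9, 10), (10, 0), (10, 9)]
    lev := [] }
  links := [[1, 8, 9, 10], [8, 0, 10, 2, 3, 6, 7], [3, 1, 10, 11], [6, 1, 2, 11, 4, 12, 5, 13, 14], [12,
    3, 11, 15], [13, 3, 12, 16], [7, 1, 3, 14], [8, 1, 6, 14, 17, 18]]
  P := {
    a := 8
    N := 19
    nb := [1794, 1485, 3082, 30838, 38920, 77832, 16522, 409922, 262787, 1281, 2567, 33820, 98360,
      81960, 139464, 6160, 12320, 278656, 131456]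
    tri := [(0, 1, 8), (0, 1, 10), (0, 8, 9), (0, 9, 10), (1, 2, 3), (1, 2, 10), (1, 3, 6), (1, 6, 7),
      (1, 7, 8), (2, 3, 11), (2, 10, 11), (3, 4, 11), (3, 4, 12), (3, 5, 12), (3, 5, 13), (3, 6,
      14), (3, 13, 14), (4, 11, 15), (4, 12, 15), (5, 12, 16), (5, 13, 16), (6, 7, 14), (7, 8,
      18), (7, 14, 17), (7, 17, 18)]
    fin := [0, 0, 0, 3, 3, 3, 0, 0, 0, 9, 10, 3, 12, 3, 0, 15, 16, 17, 18]
    chd := [(0, 10), (3, 12)]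
    steps := [(0, 1), (0, 2), (0, 6), (0, 7), (0, 8), (0, 14), (3, 4), (3, 5), (3, 11), (3, 13)] }
  rep := [0, 3, 10, 12, 9, 15, 16, 17, 18]

noncomputable def v3440 : Cov.CovD where
  P := 3
  N := 6
  pl := [1, 7, 8, 9, 10]
  lev := [⟨[], [], [(0, 2)], [4], [(0, 0, [2]), (2, 2, [0])]⟩,
    ⟨[], [(0, 0), (0, 2)], [(0, 2)], [], [(0, 0, [2]), (2, 2, [0])]⟩,
    ⟨[(0, 1)], [(0, 2), (1, 0), (1, 1), (1, 2)], [(1, 2)], [], [(2, 2, [0]), (3, 1, [3])]⟩,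
    ⟨[(0, 1), (1, 2)], [(1, 0), (1, 1), (1, 2), (1, 3), (2, 0), (2, 1), (2, 2), (2, 3)],
      [(0, 1), (0, 3), (1, 1), (1, 3)], [], [(3, 1, [3]), (4, 3, [1]), (5, 1, [3]), (6, 0,
      [2])]⟩,
    ⟨[(1, 3), (2, 3)], [(2, 1), (3, 0), (3, 1), (3, 3)], [(1, 3)], [5], [(3, 1, [3]), (4,
      3, [1])]⟩,
    ⟨[(1, 3), (2, 3), (3, 4)], [(3, 0), (3, 1), (3, 3), (4, 3)], [(1, 3)], [6], [(4, 3,
      [1]), (5, 1, [3])]⟩,
    ⟨[(0, 1), (1, 2), (1, 3), (2, 3), (3, 4), (3, 5)], [(1, 0), (1, 2), (3, 0), (3, 1), (3,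
      3)], [], [], [(6, 0, [2])]⟩,
    ⟨[(0, 1), (1, 2), (1, 3), (1, 6), (3, 6)], [(0, 0), (1, 0), (1, 2), (3, 0), (6, 0)],
      [(0, 0)], [7, 8], [(0, 0, [2]), (6, 0, [2])]⟩]
  Ta := [((0, 1), 0, 4), ((0, 10), 0, 8), ((3, 2), 1, 2), ((3, 7), 1, 5), ((5, 6), 1, 0), ((5,
    8), 1, 6), ((6, 5), 0, 1), ((6, 9), 0, 7)]
  Tb := [((0, 1, 10), 0, 4, 8), ((1, 0, 2), 4, 0, 2), ((2, 1, 3), 2, 4, 1), ((3, 2, 7), 1, 2, 5),
    ((4, 7, 8), 3, 5, 6), ((5, 6, 8), 1, 0, 6), ((6, 5, 9), 0, 1, 7), ((7, 3, 4), 5, 1, 3),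
    ((8, 4, 5), 6, 3, 1), ((9, 6, 10), 7, 0, 8), ((10, 0, 9), 8, 0, 7)]
  Tc := []
  Td := [((0, 2), (0, 1), 4), ((0, 2), (0, 10), 8), ((0, 2), (6, 5), 1), ((0, 2), (6, 9), 7),
    ((1, 3), (3, 2), 2), ((1, 3), (3, 7), 5), ((1, 3), (5, 6), 0), ((1, 3), (5, 8), 6), ((2,
    0), (2, 1), 4), ((2, 0), (2, 3), 1), ((3, 1), (4, 7), 5), ((3, 1), (4, 8), 6)]
  G := [[0, 0, 0xe8e8ae8e8554e4e43689298c222241865e262122ae12d21a231c5c8c1ac14155416a,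
    0x61262254188241e12822e22d8221c9c422612c4228541218124ac25c9a12a12981cc,
    0xe12e4e499e1e1e8be125c124422a81242128a2ca2221e25dc9c42c42941c13c145c1aa], [0, 0,
    0xe141e11e1a4556e888de1c23928c2e1e29e1462e25741a46e29818381c6, 0,
    0x2c6e492e1e89e84e12ca57c12248214822c812116113a1828e1e2d6cbc41c48c4819b81aa], [0, 0,
    0xe8e1aa46254e1e46c2368a998924aae1ae1c25541e2e26e1292211c1ca, 0xe22e22541e224ac2981c1,
    0xe42e4e4992ca8e82ca3e82dc121], [0, 0x4262c14428468ce12ca282c184c1,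
    0xe88639e84c2174e4689928c26214261554a18e2845a498e112a2a291c21828cc44c18a846e, 0,
    0xe8e89e84e8174e44e42c69a8921]]

noncomputable def n3440 : Ent := ⟨e3440, noF, [], [], [(9, 15, [31810581956861085346069128449376638664080213418021345636276315565302657025, 0]), (9, 16, [31810581851548793677511941751458610980409781099126250235727204310991687681, 0]), (15, 18, [30043303427623734937691929578474300150491519007939870628445900451935084545, 0]), (16, 18, [30043303427623734937691929578474300150491519007939870628445900451935088641, 0])]⟩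

def c3440 : PLift (Cov.check n3440.C.D v3440 = true) := ⟨by decide +kernel⟩

def b3440 : PLift (entF (fidx ts) 400 3440 n3440 = true) := ⟨by decide +kernel⟩

theorem g3440 : GoodF (fidx ts) 400 3440 := GoodF.ofV v3440 n3440 c3440.down b3440.down

/-- 47494447:2620/1 -/
noncomputable def e3441 : SCfg where
  D := {
    a := 8
    L := 10
    kp := 7
    inn := [(0, 1), (1, 0), (1, 2), (1, 3), (1, 6), (2, 1), (2, 3), (3, 1), (3, 2), (3, 4), (3, 5), (3,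
      6), (3, 7), (4, 3), (4, 7), (5, 3), (5, 7), (6, 1), (6, 3), (7, 3), (7, 4), (7, 5)]
    mix := [(0, 0), (0, 1), (0, 2), (1, 0), (1, 2), (1, 3), (2, 2), (2, 4), (3, 4), (3, 5), (3, 6), (4,
      1), (4, 4), (5, 5), (5, 7), (6, 3), (6, 6), (7, 1), (7, 7), (7, 8), (7, 9)]
    cl := [3, 1, 2, 4, 0, 5, 0, 1, 6, 7]
    chq := [(0, 3), (2, 3), (3, 0), (3, 2)]
    rng := [(0, 1), (0, 3), (1, 0), (1, 2), (1, 4), (1, 8), (2, 1), (2, 4), (3, 0), (3, 6), (4, 1), (4,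
      2), (5, 6), (5, 7), (6, 3), (6, 5), (7, 5), (7, 9), (8, 1), (8, 9), (9, 7), (9, 8)]
    lev := [] }
  links := [[1, 8, 9, 10], [8, 0, 10, 2, 3, 6, 11], [3, 1, 10, 12], [6, 1, 2, 12, 4, 7, 5, 13, 14], [7,
    3, 12, 9], [13, 3, 7, 15], [11, 1, 3, 14], [15, 5, 3, 4, 9, 16, 17]]
  P := {
    a := 8
    N := 18
    nb := [1794, 3405, 5130, 28918, 4744, 41096, 18442, 229944, 2563, 71057, 4615, 16706, 1564, 49192,
      10312, 139424, 131712, 98432]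
    tri := [(0, 1, 8), (0, 1, 10), (0, 8, 9), (0, 9, 10), (1, 2, 3), (1, 2, 10), (1, 3, 6), (1, 6, 11),
      (1, 8, 11), (2, 3, 12), (2, 10, 12), (3, 4, 7), (3, 4, 12), (3, 5, 7), (3, 5, 13), (3, 6,
      14), (3, 13, 14), (4, 7, 9), (4, 9, 12), (5, 7, 15), (5, 13, 15), (6, 11, 14), (7, 9, 16),
      (7, 15, 17), (7, 16, 17)]
    fin := [0, 0, 0, 3, 4, 4, 0, 4, 0, 4, 10, 11, 3, 13, 3, 4, 16, 17]
    chd := [(0, 3), (0, 10)]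
    steps := [(0, 1), (0, 2), (0, 6), (0, 8), (3, 12), (3, 14), (4, 7), (4, 5), (4, 9), (4, 15)] }
  rep := [3, 4, 10, 0, 11, 13, 16, 17]

noncomputable def v3441 : Cov.CovD where
  P := 3
  N := 5
  pl := [3, 5, 8, 9]
  lev := [⟨[], [], [(1, 2), (1, 3), (2, 3)], [], [(0, 3, [0, 2]), (1, 1, []), (2, 2, [3])]⟩,
    ⟨[], [(0, 1), (0, 2), (0, 3)], [(2, 3)], [4], [(0, 3, [0, 2]), (2, 2, [3])]⟩,
    ⟨[(0, 1)], [(0, 2), (1, 0), (1, 2), (1, 3)], [(0, 2)], [], [(2, 2, [3]), (4, 0, [3])]⟩,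
    ⟨[(0, 1), (1, 2)], [(1, 0), (1, 2), (1, 3), (2, 0), (2, 2)], [(0, 0)], [5], [(4, 0,
      [3]), (6, 0, [3])]⟩,
    ⟨[(1, 3), (2, 3)], [(0, 1), (2, 0), (3, 0), (3, 1)], [(0, 1)], [], [(1, 1, []), (4, 0,
      [3])]⟩,
    ⟨[(1, 3), (2, 3), (3, 4)], [(3, 0), (3, 1)], [], [5], [(7, 1, [])]⟩,
    ⟨[(0, 1), (1, 2), (1, 3), (2, 3), (3, 4), (3, 5)], [(1, 0), (1, 2), (1, 3), (3, 0)],
      [], [4], [(6, 0, [3])]⟩,
    ⟨[(1, 3), (2, 3), (3, 4), (3, 5), (3, 6), (4, 5)], [(0, 1), (3, 0), (3, 1), (4, 0), (4,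
      1), (5, 1)], [(1, 1)], [6, 7], [(1, 1, []), (7, 1, [])]⟩]
  Ta := [((1, 0), 1, 3), ((1, 2), 1, 2), ((1, 4), 1, 0), ((1, 8), 1, 6), ((4, 1), 0, 1), ((4, 2),
    0, 2), ((6, 3), 0, 4), ((6, 5), 0, 5), ((7, 5), 1, 5), ((7, 9), 1, 7)]
  Tb := [((0, 1, 3), 3, 1, 4), ((1, 0, 2), 1, 3, 2), ((1, 0, 4), 1, 3, 0), ((1, 0, 8), 1, 3, 6),
    ((1, 2, 4), 1, 2, 0), ((1, 2, 8), 1, 2, 6), ((1, 4, 8), 1, 0, 6), ((2, 1, 4), 2, 1, 0),
    ((3, 0, 6), 4, 3, 0), ((4, 1, 2), 0, 1, 2), ((5, 6, 7), 5, 0, 1), ((6, 3, 5), 0, 4, 5),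
    ((7, 5, 9), 1, 5, 7), ((8, 1, 9), 6, 1, 7), ((9, 7, 8), 7, 1, 6)]
  Tc := [(3, 0, 2)]
  Td := [((0, 3), (4, 1), 1), ((0, 3), (4, 2), 2), ((0, 3), (6, 3), 4), ((0, 3), (6, 5), 5), ((2,
    3), (2, 1), 1), ((2, 3), (2, 4), 0), ((3, 0), (0, 1), 1), ((3, 0), (0, 3), 4), ((3, 2),
    (0, 1), 1), ((3, 2), (0, 3), 4)]
  G := [[0, 0x4aee182ece146816ec12a2a124c618e41c, 0xd11824d41428ad11422d118286c,
    0xdd614281dda14241c, 0xddc18221ddc182819], [0, 0,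
    0xd114d118a42d11211c152c22d118d11862d114d114a4ce, 0, 0xd1ce18ddc146212], [0, 0, 0,
    0xd81821d4142852d8a8dcd824d1, 0xd81821ddc142149de28141c48562b1], [0, 0, 0, 0,
    0x4898c8d418681528292924258c123]]

noncomputable def n3441 : Ent := ⟨e3441, noF, [], [], []⟩

def c3441 : PLift (Cov.check n3441.C.D v3441 = true) := ⟨by decide +kernel⟩

def b3441 : PLift (entF (fidx ts) 400 3441 n3441 = true) := ⟨by decide +kernel⟩

theorem g3441 : GoodF (fidx ts) 400 3441 := GoodF.ofV v3441 n3441 c3441.down b3441.down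

/-- 47494447:2620/2 -/
noncomputable def e3442 : SCfg where
  D := {
    a := 8
    L := 10
    kp := 7
    inn := [(0, 1), (1, 0), (1, 2), (1, 3), (1, 6), (2, 1), (2, 3), (3, 1), (3, 2), (3, 4), (3, 5), (3,
      6), (3, 7), (4, 3), (4, 7), (5, 3), (5, 7), (6, 1), (6, 3), (7, 3), (7, 4), (7, 5)]
    mix := [(0, 0), (0, 1), (0, 2), (1, 0), (1, 2), (1, 3), (2, 2), (2, 4), (3, 4), (3, 5), (3, 6), (4,
      4), (4, 7), (5, 5), (5, 8), (6, 3), (6, 6), (7, 1), (7, 7), (7, 8), (7, 9)]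
    cl := [4, 2, 3, 5, 0, 6, 0, 1, 1, 7]
    chq := [(0, 4), (3, 4), (4, 0), (4, 3)]
    rng := [(0, 1), (0, 3), (1, 0), (1, 2), (1, 7), (1, 9), (2, 1), (2, 4), (3, 0), (3, 6), (4, 2), (4,
      7), (5, 6), (5, 8), (6, 3), (6, 5), (7, 1), (7, 4), (8, 5), (8, 9), (9, 1), (9, 8)]
    lev := [] }
  links := [[1, 8, 9, 10], [8, 0, 10, 2, 3, 6, 11], [3, 1, 10, 12], [6, 1, 2, 12, 4, 7, 5, 13, 14], [7,
    3, 12, 15], [13, 3, 7, 16], [11, 1, 3, 14], [16, 5, 3, 4, 15, 9, 17]]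
  P := {
    a := 8
    N := 18
    nb := [1794, 3405, 5130, 28918, 37000, 73864, 18442, 229944, 2563, 165249, 4615, 16706, 33820,
      81960, 10312, 4752, 139424, 66176]
    tri := [(0, 1, 8), (0, 1, 10), (0, 8, 9), (0, 9, 10), (1, 2, 3), (1, 2, 10), (1, 3, 6), (1, 6, 11),
      (1, 8, 11), (2, 3, 12), (2, 10, 12), (3, 4, 7), (3, 4, 12), (3, 5, 7), (3, 5, 13), (3, 6,
      14), (3, 13, 14), (4, 7, 15), (4, 12, 15), (5, 7, 16), (5, 13, 16), (6, 11, 14), (7, 9, 15),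
      (7, 9, 17), (7, 16, 17)]
    fin := [0, 0, 0, 3, 3, 3, 0, 7, 0, 9, 10, 11, 3, 13, 3, 7, 7, 17]
    chd := [(0, 3), (0, 10)]
    steps := [(0, 1), (0, 2), (0, 6), (0, 8), (3, 4), (3, 5), (3, 12), (3, 14), (7, 15), (7, 16)] }
  rep := [3, 7, 9, 10, 0, 11, 13, 17]

noncomputable def v3442 : Cov.CovD where
  P := 3
  N := 5
  pl := [1, 3, 5, 9]
  lev := [⟨[], [], [(3, 4)], [2], [(0, 4, [0, 3]), (2, 3, [4])]⟩,
    ⟨[], [(0, 3), (0, 4)], [(3, 4)], [5], [(0, 4, [0, 3]), (2, 3, [4])]⟩,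
    ⟨[(0, 1)], [(0, 3), (1, 0), (1, 3), (1, 4)], [(0, 3)], [], [(2, 3, [4]), (4, 0, [4])]⟩,
    ⟨[(0, 1), (1, 2)], [(1, 0), (1, 3), (1, 4), (2, 0), (2, 3)], [(0, 0)], [6], [(4, 0,
      [4]), (6, 0, [4])]⟩,
    ⟨[(1, 3), (2, 3)], [(2, 0), (3, 0), (3, 1)], [(0, 1)], [], [(4, 0, [4]), (7, 1, [])]⟩,
    ⟨[(1, 3), (2, 3), (3, 4)], [(3, 0), (3, 1)], [], [6], [(8, 1, [])]⟩,
    ⟨[(0, 1), (1, 2), (1, 3), (2, 3), (3, 4), (3, 5)], [(1, 0), (1, 3), (1, 4), (3, 0)],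
      [], [5], [(6, 0, [4])]⟩,
    ⟨[(1, 3), (2, 3), (3, 4), (3, 5), (3, 6), (4, 5)], [(3, 0), (3, 1), (4, 0), (4, 1), (5,
      1)], [(1, 1)], [2, 7], [(7, 1, []), (8, 1, [])]⟩]
  Ta := [((4, 2), 0, 3), ((4, 7), 0, 1), ((6, 3), 0, 5), ((6, 5), 0, 6), ((7, 1), 1, 2), ((7, 4),
    1, 0), ((8, 5), 1, 6), ((8, 9), 1, 7)]
  Tb := [((0, 1, 3), 4, 2, 5), ((1, 0, 2), 2, 4, 3), ((1, 0, 7), 2, 4, 1), ((1, 0, 9), 2, 4, 7),
    ((1, 2, 7), 2, 3, 1), ((1, 2, 9), 2, 3, 7), ((1, 7, 9), 2, 1, 7), ((2, 1, 4), 3, 2, 0),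
    ((3, 0, 6), 5, 4, 0), ((4, 2, 7), 0, 3, 1), ((5, 6, 8), 6, 0, 1), ((6, 3, 5), 0, 5, 6),
    ((7, 1, 4), 1, 2, 0), ((8, 5, 9), 1, 6, 7), ((9, 1, 8), 7, 2, 1)]
  Tc := [(4, 0, 3)]
  Td := [((0, 4), (4, 2), 3), ((0, 4), (4, 7), 1), ((0, 4), (6, 3), 5), ((0, 4), (6, 5), 6), ((3,
    4), (2, 1), 2), ((3, 4), (2, 4), 0), ((4, 0), (0, 1), 2), ((4, 0), (0, 3), 5), ((4, 3),
    (0, 1), 2), ((4, 3), (0, 3), 5)]
  G := [[0, 0xcca124ccc122cc6148e11, 0xcc618281cc614241ccc18221e,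
    0x511822541828ac11422511824695c14221d,
    0x9114249114229961828d94142291149118c499c1822799a14241b], [0, 0,
    0xcca12ccc1868144618864cccc14a414c8e14cca12c21e, 0,
    0x91129118649112911468921828d91189118629118491148c9818227911448141841a98129218e9412869b],
    [0, 0, 0xc21421cc68444d4289cca1821c8c2c1245c414c818c1c84e21c818623e,
    0x98142194142159c1421c8c4c122f1, 0x98182194142199c142199a92c42189e249848caf1], [0, 0,
    0xc218c2846144a88ac2c41168948a14488858a18c641c218a45448494884852c1488e144cc41a23e, 0,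
    0x984898146194449418a11282929212c19242492148941298a48cef1]]

noncomputable def n3442 : Ent := ⟨e3442, noF, [], [], []⟩

def c3442 : PLift (Cov.check n3442.C.D v3442 = true) := ⟨by decide +kernel⟩

def b3442 : PLift (entF (fidx ts) 400 3442 n3442 = true) := ⟨by decide +kernel⟩

theorem g3442 : GoodF (fidx ts) 400 3442 := GoodF.ofV v3442 n3442 c3442.down b3442.down

/-- 47494447:2620/3 -/
noncomputable def e3443 : SCfg where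
  D := {
    a := 8
    L := 10
    kp := 7
    inn := [(0, 1), (1, 0), (1, 2), (1, 3), (1, 6), (2, 1), (2, 3), (3, 1), (3, 2), (3, 4), (3, 5), (3,
      6), (3, 7), (4, 3), (4, 7), (5, 3), (5, 7), (6, 1), (6, 3), (7, 3), (7, 4), (7, 5)]
    mix := [(0, 0), (0, 1), (0, 2), (1, 0), (1, 2), (1, 3), (2, 2), (2, 4), (3, 4), (3, 5), (3, 6), (4,
      4), (4, 7), (5, 5), (5, 8), (6, 3), (6, 6), (7, 1), (7, 7), (7, 8), (7, 9)]
    cl := [4, 2, 3, 5, 0, 6, 0, 1, 1, 7]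
    chq := [(0, 4), (3, 4), (4, 0), (4, 3)]
    rng := [(0, 1), (0, 3), (1, 0), (1, 2), (1, 8), (1, 9), (2, 1), (2, 4), (3, 0), (3, 6), (4, 2), (4,
      7), (5, 6), (5, 8), (6, 3), (6, 5), (7, 4), (7, 9), (8, 1), (8, 5), (9, 1), (9, 7)]
    lev := [] }
  links := [[1, 8, 9, 10], [8, 0, 10, 2, 3, 6, 11], [3, 1, 10, 12], [6, 1, 2, 12, 4, 7, 5, 13, 14], [7,
    3, 12, 15], [13, 3, 7, 16], [11, 1, 3, 14], [16, 5, 3, 4, 15, 17, 9]]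
  P := {
    a := 8
    N := 18
    nb := [1794, 3405, 5130, 28918, 37000, 73864, 18442, 229944, 2563, 198017, 4615, 16706, 33820,
      81960, 10312, 135312, 8864, 33408]
    tri := [(0, 1, 8), (0, 1, 10), (0, 8, 9), (0, 9, 10), (1, 2, 3), (1, 2, 10), (1, 3, 6), (1, 6, 11),
      (1, 8, 11), (2, 3, 12), (2, 10, 12), (3, 4, 7), (3, 4, 12), (3, 5, 7), (3, 5, 13), (3, 6,
      14), (3, 13, 14), (4, 7, 15), (4, 12, 15), (5, 7, 16), (5, 13, 16), (6, 11, 14), (7, 9, 16),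
      (7, 9, 17), (7, 15, 17)]
    fin := [0, 0, 0, 3, 3, 3, 0, 7, 0, 9, 10, 11, 3, 13, 3, 7, 7, 17]
    chd := [(0, 3), (0, 10)]
    steps := [(0, 1), (0, 2), (0, 6), (0, 8), (3, 4), (3, 5), (3, 12), (3, 14), (7, 15), (7, 16)] }
  rep := [3, 7, 9, 10, 0, 11, 13, 17]

noncomputable def v3443 : Cov.CovD where
  P := 3
  N := 5
  pl := [1, 3, 5, 9]
  lev := [⟨[], [], [(3, 4)], [2], [(0, 4, [0, 3]), (2, 3, [4])]⟩,
    ⟨[], [(0, 3), (0, 4)], [(3, 4)], [5], [(0, 4, [0, 3]), (2, 3, [4])]⟩,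
    ⟨[(0, 1)], [(0, 3), (1, 0), (1, 3), (1, 4)], [(0, 3)], [], [(2, 3, [4]), (4, 0, [4])]⟩,
    ⟨[(0, 1), (1, 2)], [(1, 0), (1, 3), (1, 4), (2, 0), (2, 3)], [(0, 0)], [6], [(4, 0,
      [4]), (6, 0, [4])]⟩,
    ⟨[(1, 3), (2, 3)], [(2, 0), (3, 0), (3, 1)], [(0, 1)], [], [(4, 0, [4]), (7, 1, [])]⟩,
    ⟨[(1, 3), (2, 3), (3, 4)], [(3, 0), (3, 1)], [], [6], [(8, 1, [])]⟩,
    ⟨[(0, 1), (1, 2), (1, 3), (2, 3), (3, 4), (3, 5)], [(1, 0), (1, 3), (1, 4), (3, 0)],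
      [], [5], [(6, 0, [4])]⟩,
    ⟨[(1, 3), (2, 3), (3, 4), (3, 5), (3, 6), (4, 5)], [(3, 0), (3, 1), (4, 0), (4, 1), (5,
      1)], [(1, 1)], [2, 7], [(7, 1, []), (8, 1, [])]⟩]
  Ta := [((4, 2), 0, 3), ((4, 7), 0, 1), ((6, 3), 0, 5), ((6, 5), 0, 6), ((7, 4), 1, 0), ((7, 9),
    1, 7), ((8, 1), 1, 2), ((8, 5), 1, 6)]
  Tb := [((0, 1, 3), 4, 2, 5), ((1, 0, 2), 2, 4, 3), ((1, 0, 8), 2, 4, 1), ((1, 0, 9), 2, 4, 7),
    ((1, 2, 8), 2, 3, 1), ((1, 2, 9), 2, 3, 7), ((1, 8, 9), 2, 1, 7), ((2, 1, 4), 3, 2, 0),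
    ((3, 0, 6), 5, 4, 0), ((4, 2, 7), 0, 3, 1), ((5, 6, 8), 6, 0, 1), ((6, 3, 5), 0, 5, 6),
    ((7, 4, 9), 1, 0, 7), ((8, 1, 5), 1, 2, 6), ((9, 1, 7), 7, 2, 1)]
  Tc := [(4, 0, 3)]
  Td := [((0, 4), (4, 2), 3), ((0, 4), (4, 7), 1), ((0, 4), (6, 3), 5), ((0, 4), (6, 5), 6), ((3,
    4), (2, 1), 2), ((3, 4), (2, 4), 0), ((4, 0), (0, 1), 2), ((4, 0), (0, 3), 5), ((4, 3),
    (0, 1), 2), ((4, 3), (0, 3), 5)]
  G := [[0, 0xcca124ccc122cc6148e11, 0xccc18281cca18241ccc18221e, 0,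
    0x911424911424c91182291149128c499c1422799a182996182c1b], [0, 0,
    0xc84e12cca1468148ce14cca14a414418c61ccca18c21e, 0x911422c11828a911422c11824655c14221d,
    0x9112491182694149218c299618921868d141811c9112c21181929118c4611819284924898186198e1299a14ca5b],
    [0, 0, 0xc41821cc6c294289c2c85821c8c258245c424c818c14462888c491a23e, 0,
    0x981421941821999142192996c42142842999a24c6f1], [0, 0,
    0xc212c418614ca88c2c218689c212c818a142c482d2c248a4548c128814816c1448282c4a58c884e23e,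
    0xc81122c4182252129242c154589822f1,
    0x981498146194129444a1121821a9212c199a48492128941299a42cef1]]

noncomputable def n3443 : Ent := ⟨e3443, noF, [], [], []⟩

def c3443 : PLift (Cov.check n3443.C.D v3443 = true) := ⟨by decide +kernel⟩

def b3443 : PLift (entF (fidx ts) 400 3443 n3443 = true) := ⟨by decide +kernel⟩

theorem g3443 : GoodF (fidx ts) 400 3443 := GoodF.ofV v3443 n3443 c3443.down b3443.down

/-- 47494447:2620/4 -/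
noncomputable def e3444 : SCfg where
  D := {
    a := 8
    L := 10
    kp := 7
    inn := [(0, 1), (1, 0), (1, 2), (1, 3), (1, 6), (2, 1), (2, 3), (3, 1), (3, 2), (3, 4), (3, 5), (3,
      6), (3, 7), (4, 3), (4, 7), (5, 3), (5, 7), (6, 1), (6, 3), (7, 3), (7, 4), (7, 5)]
    mix := [(0, 0), (0, 1), (0, 2), (1, 0), (1, 2), (1, 3), (2, 2), (2, 4), (3, 4), (3, 5), (3, 6), (4,
      4), (4, 7), (5, 1), (5, 5), (6, 3), (6, 6), (7, 1), (7, 7), (7, 8), (7, 9)]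
    cl := [3, 1, 2, 4, 0, 5, 0, 1, 6, 7]
    chq := [(0, 3), (2, 3), (3, 0), (3, 2)]
    rng := [(0, 1), (0, 3), (1, 0), (1, 2), (1, 5), (1, 9), (2, 1), (2, 4), (3, 0), (3, 6), (4, 2), (4,
      7), (5, 1), (5, 6), (6, 3), (6, 5), (7, 4), (7, 8), (8, 7), (8, 9), (9, 1), (9, 8)]
    lev := [] }
  links := [[1, 8, 9, 10], [8, 0, 10, 2, 3, 6, 11], [3, 1, 10, 12], [6, 1, 2, 12, 4, 7, 5, 13, 14], [7,
    3, 12, 15], [13, 3, 7, 9], [11, 1, 3, 14], [9, 5, 3, 4, 15, 16, 17]]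
  P := {
    a := 8
    N := 18
    nb := [1794, 3405, 5130, 28918, 37000, 8840, 18442, 229944, 2563, 140705, 4615, 16706, 33820,
      16936, 10312, 69776, 163968, 66176]
    tri := [(0, 1, 8), (0, 1, 10), (0, 8, 9), (0, 9, 10), (1, 2, 3), (1, 2, 10), (1, 3, 6), (1, 6, 11),
      (1, 8, 11), (2, 3, 12), (2, 10, 12), (3, 4, 7), (3, 4, 12), (3, 5, 7), (3, 5, 13), (3, 6,
      14), (3, 13, 14), (4, 7, 15), (4, 12, 15), (5, 7, 9), (5, 9, 13), (6, 11, 14), (7, 9, 17),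
      (7, 15, 16), (7, 16, 17)]
    fin := [0, 0, 0, 3, 4, 4, 0, 4, 0, 4, 10, 11, 3, 13, 3, 4, 16, 17]
    chd := [(0, 3), (0, 10)]
    steps := [(0, 1), (0, 2), (0, 6), (0, 8), (3, 12), (3, 14), (4, 7), (4, 5), (4, 9), (4, 15)] }
  rep := [3, 4, 10, 0, 11, 13, 16, 17]

noncomputable def v3444 : Cov.CovD where
  P := 3
  N := 5
  pl := [3, 5, 8, 9]
  lev := [⟨[], [], [(1, 2), (1, 3), (2, 3)], [], [(0, 3, [0, 2]), (1, 1, []), (2, 2, [3])]⟩,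
    ⟨[], [(0, 1), (0, 2), (0, 3)], [(2, 3)], [4], [(0, 3, [0, 2]), (2, 2, [3])]⟩,
    ⟨[(0, 1)], [(0, 2), (1, 0), (1, 2), (1, 3)], [(0, 2)], [], [(2, 2, [3]), (4, 0, [3])]⟩,
    ⟨[(0, 1), (1, 2)], [(1, 0), (1, 2), (1, 3), (2, 0), (2, 2)], [(0, 0)], [5], [(4, 0,
      [3]), (6, 0, [3])]⟩,
    ⟨[(1, 3), (2, 3)], [(2, 0), (3, 0), (3, 1)], [(0, 1)], [], [(4, 0, [3]), (7, 1, [])]⟩,
    ⟨[(1, 3), (2, 3), (3, 4)], [(0, 1), (3, 0), (3, 1)], [], [5], [(1, 1, [])]⟩,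
    ⟨[(0, 1), (1, 2), (1, 3), (2, 3), (3, 4), (3, 5)], [(1, 0), (1, 2), (1, 3), (3, 0)],
      [], [4], [(6, 0, [3])]⟩,
    ⟨[(1, 3), (2, 3), (3, 4), (3, 5), (3, 6), (4, 5)], [(0, 1), (3, 0), (3, 1), (4, 0), (4,
      1), (5, 1)], [(1, 1)], [6, 7], [(1, 1, []), (7, 1, [])]⟩]
  Ta := [((1, 0), 1, 3), ((1, 2), 1, 2), ((1, 5), 1, 5), ((1, 9), 1, 7), ((4, 2), 0, 2), ((4, 7),
    0, 1), ((6, 3), 0, 4), ((6, 5), 0, 5), ((7, 4), 1, 0), ((7, 8), 1, 6)]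
  Tb := [((0, 1, 3), 3, 1, 4), ((1, 0, 2), 1, 3, 2), ((1, 0, 5), 1, 3, 5), ((1, 0, 9), 1, 3, 7),
    ((1, 2, 5), 1, 2, 5), ((1, 2, 9), 1, 2, 7), ((1, 5, 9), 1, 5, 7), ((2, 1, 4), 2, 1, 0),
    ((3, 0, 6), 4, 3, 0), ((4, 2, 7), 0, 2, 1), ((5, 1, 6), 5, 1, 0), ((6, 3, 5), 0, 4, 5),
    ((7, 4, 8), 1, 0, 6), ((8, 7, 9), 6, 1, 7), ((9, 1, 8), 7, 1, 6)]
  Tc := [(3, 0, 2)]
  Td := [((0, 3), (4, 2), 2), ((0, 3), (4, 7), 1), ((0, 3), (6, 3), 4), ((0, 3), (6, 5), 5), ((2,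
    3), (2, 1), 1), ((2, 3), (2, 4), 0), ((3, 0), (0, 1), 1), ((3, 0), (0, 3), 4), ((3, 2),
    (0, 1), 1), ((3, 2), (0, 3), 4)]
  G := [[0, 0, 0x911244118d11466d1182d11486a914154d118a2d212d118a46c, 0xdda18241ddc18281c,
    0x49de18ddc1468159ce18ddc146219], [0, 0xee614eec18a41e11828c2a1242ca128c5c,
    0xd11822d11828ad81828d118246c, 0, 0xddc142812], [0, 0, 0, 0xd81821d4142152d9cc2d828d1,
    0xd812d81461528292924258c1546849298a45a58c2b1], [0, 0, 0, 0, 0x4da98d4d4281d8142123]]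

noncomputable def n3444 : Ent := ⟨e3444, noF, [], [], []⟩

def c3444 : PLift (Cov.check n3444.C.D v3444 = true) := ⟨by decide +kernel⟩

def b3444 : PLift (entF (fidx ts) 400 3444 n3444 = true) := ⟨by decide +kernel⟩

theorem g3444 : GoodF (fidx ts) 400 3444 := GoodF.ofV v3444 n3444 c3444.down b3444.down

/-- 47494447:2620 -/
noncomputable def e3445 : SCfg where
  D := {
    a := 8
    L := 11
    kp := 8
    inn := [(0, 1), (1, 0), (1, 2), (1, 3), (1, 6), (2, 1), (2, 3), (3, 1), (3, 2), (3, 4), (3, 5), (3,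
      6), (3, 7), (4, 3), (4, 7), (5, 3), (5, 7), (6, 1), (6, 3), (7, 3), (7, 4), (7, 5)]
    mix := [(0, 0), (0, 1), (0, 2), (1, 0), (1, 2), (1, 3), (2, 2), (2, 4), (3, 4), (3, 5), (3, 6), (4,
      4), (4, 7), (5, 5), (5, 8), (6, 3), (6, 6), (7, 7), (7, 8), (7, 9), (7, 10)]
    cl := [4, 6, 1, 2, 0, 5, 0, 3, 3, 7, 8]
    chq := [(0, 4), (1, 4), (4, 0), (4, 1)]
    rng := [(0, 1), (0, 3), (1, 0), (1, 2), (2, 1), (2, 4), (3, 0), (3, 6), (4, 2), (4, 7), (5, 6), (5,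
      8), (6, 3), (6, 5), (7, 4), (7, 9), (8, 5), (8, 10), (9, 7), (9, 10), (10, 8), (10, 9)]
    lev := [] }
  links := [[1, 8, 9, 10], [8, 0, 10, 2, 3, 6, 11], [3, 1, 10, 12], [6, 1, 2, 12, 4, 7, 5, 13, 14], [7,
    3, 12, 15], [13, 3, 7, 16], [11, 1, 3, 14], [16, 5, 3, 4, 15, 17, 18]]
  P := {
    a := 8
    N := 19
    nb := [1794, 3405, 5130, 28918, 37000, 73864, 18442, 491576, 2563, 1281, 4615, 16706, 33820,
      81960, 10312, 135312, 270496, 295040, 196736]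
    tri := [(0, 1, 8), (0, 1, 10), (0, 8, 9), (0, 9, 10), (1, 2, 3), (1, 2, 10), (1, 3, 6), (1, 6, 11),
      (1, 8, 11), (2, 3, 12), (2, 10, 12), (3, 4, 7), (3, 4, 12), (3, 5, 7), (3, 5, 13), (3, 6,
      14), (3, 13, 14), (4, 7, 15), (4, 12, 15), (5, 7, 16), (5, 13, 16), (6, 11, 14), (7, 15,
      17), (7, 16, 18), (7, 17, 18)]
    fin := [0, 0, 0, 3, 3, 3, 0, 7, 0, 9, 10, 11, 3, 13, 3, 7, 7, 17, 18]
    chd := [(0, 3), (0, 10)]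
    steps := [(0, 1), (0, 2), (0, 6), (0, 8), (3, 4), (3, 5), (3, 12), (3, 14), (7, 15), (7, 16)] }
  rep := [3, 10, 11, 7, 0, 13, 9, 17, 18]

noncomputable def v3445 : Cov.CovD where
  P := 3
  N := 6
  pl := [1, 3, 5, 9, 10]
  lev := [⟨[], [], [(1, 4)], [6], [(0, 4, [0, 1]), (2, 1, [4])]⟩,
    ⟨[], [(0, 1), (0, 4)], [(1, 4)], [2], [(0, 4, [0, 1]), (2, 1, [4])]⟩,
    ⟨[(0, 1)], [(0, 1), (1, 0), (1, 1), (1, 4)], [(0, 1)], [], [(2, 1, [4]), (4, 0, [4])]⟩,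
    ⟨[(0, 1), (1, 2)], [(1, 0), (1, 1), (1, 4), (2, 0), (2, 1)], [(0, 0)], [5], [(4, 0,
      [4]), (6, 0, [4])]⟩,
    ⟨[(1, 3), (2, 3)], [(2, 0), (3, 0), (3, 3)], [(0, 3)], [], [(4, 0, [4]), (7, 3, [])]⟩,
    ⟨[(1, 3), (2, 3), (3, 4)], [(3, 0), (3, 3)], [], [5], [(8, 3, [])]⟩,
    ⟨[(0, 1), (1, 2), (1, 3), (2, 3), (3, 4), (3, 5)], [(1, 0), (1, 1), (1, 4), (3, 0)],
      [], [2], [(6, 0, [4])]⟩,
    ⟨[(1, 3), (2, 3), (3, 4), (3, 5), (3, 6), (4, 5)], [(3, 0), (3, 3), (4, 0), (4, 3), (5,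
      3)], [(3, 3)], [7, 8], [(7, 3, []), (8, 3, [])]⟩]
  Ta := [((4, 2), 0, 1), ((4, 7), 0, 3), ((6, 3), 0, 2), ((6, 5), 0, 5), ((7, 4), 3, 0), ((7, 9),
    3, 7), ((8, 5), 3, 5), ((8, 10), 3, 8)]
  Tb := [((0, 1, 3), 4, 6, 2), ((1, 0, 2), 6, 4, 1), ((2, 1, 4), 1, 6, 0), ((3, 0, 6), 2, 4, 0),
    ((4, 2, 7), 0, 1, 3), ((5, 6, 8), 5, 0, 3), ((6, 3, 5), 0, 2, 5), ((7, 4, 9), 3, 0, 7),
    ((8, 5, 10), 3, 5, 8), ((9, 7, 10), 7, 3, 8), ((10, 8, 9), 8, 3, 7)]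
  Tc := [(4, 0, 1)]
  Td := [((0, 4), (4, 2), 1), ((0, 4), (4, 7), 3), ((0, 4), (6, 3), 2), ((0, 4), (6, 5), 5), ((1,
    4), (2, 1), 6), ((1, 4), (2, 4), 0), ((4, 0), (0, 1), 6), ((4, 0), (0, 3), 2), ((4, 1),
    (0, 1), 6), ((4, 1), (0, 3), 2)]
  G := [[0, 0x3112f4146c11246821482f112d818aa4f112f1146848138916f818a4ce, 0,
    0x811311af114644412889f81428f8124857414b812d818e41d,
    0xf2122da146817212a212d218e81f214b2184848e41d], [0,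
    0x9118f118661184687114f114a81148a4f112f414684414b112f818e8ce, 0,
    0xf8184f4148c1f412f818a41f412f414a41d, 0xf212b2124248e415242922292f814e41f812f814681d],
    [0, 0, 0xb4612f4146185213216788258a8242894f8122d61461f2121212ca19a4cd,
    0x58c2f416184e849a417817846f88858a184184854812182188a88b88118144645de41d,
    0xf27252d2f858a41621252f84788ca82118c1122128e81b4128e8852c1d], [0, 0,
    0xf218f414618f2123ca14a143c618141e41568f212f814a4cd,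
    0x6441b418c2f814e81784f81c2114789a48a48524f434d4942878a41d,
    0xf2324842f2f81868122f234881218a8f4245a417224f818188c285e81d]]

noncomputable def n3445 : Ent := ⟨e3445, noF, [], [], [(9, 15, [31810581956861085346069128449376638664080213418021345636276315565302681601, 0]), (9, 17, [31810150492402119267275227079217218666319002904815489586567506653227720705, 0]), (9, 18, [30043303427623734937691929578474300150491519007939870628445900451935105025, 0]), (9, 16, [31810581851548793677511941751458610980409781099126250235727204310991716353, 0])]⟩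

def c3445 : PLift (Cov.check n3445.C.D v3445 = true) := ⟨by decide +kernel⟩

def b3445 : PLift (entF (fidx ts) 400 3445 n3445 = true) := ⟨by decide +kernel⟩

theorem g3445 : GoodF (fidx ts) 400 3445 := GoodF.ofV v3445 n3445 c3445.down b3445.down

/-- 47494465:2622/1 -/
noncomputable def e3446 : SCfg where
  D := {
    a := 8
    L := 10
    kp := 8
    inn := [(0, 1), (1, 0), (1, 2), (1, 3), (1, 4), (1, 6), (2, 1), (2, 3), (3, 1), (3, 2), (3, 5), (3,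
      6), (3, 7), (4, 1), (4, 6), (5, 3), (5, 7), (6, 1), (6, 3), (6, 4), (7, 3), (7, 5)]
    mix := [(0, 0), (0, 1), (0, 2), (1, 0), (1, 2), (2, 2), (2, 3), (3, 3), (3, 4), (3, 5), (3, 6), (4,
      0), (4, 7), (5, 6), (5, 8), (6, 6), (6, 7), (6, 9), (7, 1), (7, 5), (7, 8)]
    cl := [0, 2, 1, 4, 8, 3, 3, 5, 6, 7]
    chq := [(0, 1), (0, 3), (0, 4), (0, 7), (1, 0), (3, 0), (3, 4), (4, 0), (4, 3), (7, 0)]
    rng := [(0, 1), (0, 7), (1, 0), (1, 2), (1, 5), (1, 8), (2, 1), (2, 3), (3, 2), (3, 4), (4, 3), (4,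
      5), (5, 1), (5, 4), (6, 8), (6, 9), (7, 0), (7, 9), (8, 1), (8, 6), (9, 6), (9, 7)]
    lev := [] }
  links := [[1, 8, 9, 10], [8, 0, 10, 2, 3, 6, 4], [3, 1, 10, 11], [6, 1, 2, 11, 12, 13, 7, 5, 14], [8,
    1, 6, 15], [14, 3, 7, 16], [15, 4, 1, 3, 14, 17], [16, 5, 3, 13, 9]]
  P := {
    a := 8
    N := 18
    nb := [1794, 1373, 3082, 30950, 33090, 82056, 180250, 74280, 33299, 75137, 2567, 5132, 10248,
      4744, 196712, 131408, 17056, 49216]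
    tri := [(0, 1, 8), (0, 1, 10), (0, 8, 9), (0, 9, 10), (1, 2, 3), (1, 2, 10), (1, 3, 6), (1, 4, 6),
      (1, 4, 8), (2, 3, 11), (2, 10, 11), (3, 5, 7), (3, 5, 14), (3, 6, 14), (3, 7, 13), (3, 11,
      12), (3, 12, 13), (4, 6, 15), (4, 8, 15), (5, 7, 16), (5, 14, 16), (6, 14, 17), (6, 15, 17),
      (7, 9, 13), (7, 9, 16)]
    fin := [0, 0, 0, 3, 0, 5, 0, 5, 0, 5, 10, 11, 12, 3, 3, 15, 16, 17]
    chd := [(0, 3), (0, 10), (0, 11), (0, 17), (11, 3)]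
    steps := [(0, 1), (0, 2), (0, 4), (0, 6), (0, 8), (3, 13), (3, 14), (5, 7), (5, 9)] }
  rep := [0, 10, 5, 3, 11, 15, 16, 17, 12]

noncomputable def v3446 : Cov.CovD where
  P := 3
  N := 6
  pl := [1, 4, 7, 8]
  lev := [⟨[], [], [(0, 1)], [2], [(0, 0, [1, 3, 4, 7]), (2, 1, [0])]⟩,
    ⟨[], [(0, 0), (0, 1)], [(0, 1)], [], [(0, 0, [1, 3, 4, 7]), (2, 1, [0])]⟩,
    ⟨[(0, 1)], [(0, 1), (1, 0), (1, 1), (1, 4)], [(1, 4)], [], [(2, 1, [0]), (3, 4, [0,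
      3])]⟩,
    ⟨[(0, 1), (1, 2)], [(1, 0), (1, 1), (1, 3), (1, 4), (2, 1), (2, 3), (2, 4)], [(3, 3),
      (3, 4)], [8], [(3, 4, [0, 3]), (5, 3, [0, 4]), (6, 3, [0, 4])]⟩,
    ⟨[(0, 1), (1, 2), (1, 3)], [(0, 0), (1, 0), (1, 1)], [], [5], [(0, 0, [1, 3, 4, 7])]⟩,
    ⟨[(1, 3), (2, 3)], [(3, 3), (3, 4)], [], [6], [(6, 3, [0, 4])]⟩,
    ⟨[(0, 1), (1, 2), (1, 3), (1, 4), (2, 3), (3, 4), (3, 5)], [(1, 0), (1, 1), (1, 3), (1,
      7), (3, 3), (3, 4), (3, 7), (4, 0), (4, 3), (4, 7), (5, 3)], [(3, 7)], [5], [(6, 3, [0,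
      4]), (9, 7, [0])]⟩,
    ⟨[(1, 3), (2, 3), (3, 5), (3, 6)], [(3, 3), (3, 4), (5, 3)], [], [2, 6], [(5, 3, [0,
      4])]⟩]
  Ta := [((5, 1), 3, 2), ((5, 4), 3, 8), ((6, 8), 3, 6), ((6, 9), 3, 7)]
  Tb := [((0, 1, 7), 0, 2, 5), ((1, 0, 2), 2, 0, 1), ((1, 0, 5), 2, 0, 3), ((1, 0, 8), 2, 0, 6),
    ((1, 2, 5), 2, 1, 3), ((1, 2, 8), 2, 1, 6), ((1, 5, 8), 2, 3, 6), ((2, 1, 3), 1, 2, 4),
    ((3, 2, 4), 4, 1, 8), ((4, 3, 5), 8, 4, 3), ((5, 1, 4), 3, 2, 8), ((6, 8, 9), 3, 6, 7),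
    ((7, 0, 9), 5, 0, 7), ((8, 1, 6), 6, 2, 3), ((9, 6, 7), 7, 3, 5)]
  Tc := [(0, 1, 3), (0, 1, 4), (0, 1, 7), (0, 3, 4), (0, 3, 7), (0, 4, 7), (3, 0, 4), (4, 0, 3)]
  Td := [((0, 1), (0, 1), 2), ((0, 1), (0, 7), 5), ((0, 3), (0, 1), 2), ((0, 3), (0, 7), 5), ((0,
    4), (0, 1), 2), ((0, 4), (0, 7), 5), ((0, 7), (0, 1), 2), ((0, 7), (0, 7), 5), ((1, 0),
    (2, 1), 2), ((1, 0), (2, 3), 4), ((3, 0), (5, 1), 2), ((3, 0), (5, 4), 8), ((3, 0), (6,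
    8), 6), ((3, 0), (6, 9), 7), ((3, 4), (5, 1), 2), ((3, 4), (5, 4), 8), ((3, 4), (6, 8),
    6), ((3, 4), (6, 9), 7), ((4, 0), (3, 2), 1), ((4, 0), (3, 4), 8), ((4, 3), (3, 2), 1),
    ((4, 3), (3, 4), 8), ((7, 0), (9, 6), 3), ((7, 0), (9, 7), 5)]
  G := [[0, 0x881e9211ce11185241518412111e47414124818e319181381113ac1113c1113aa9c4,
    0x8161a8161a61611c11645e18414e12e161815e11ca118e11e11ce9c8,
    0x582418454241112112c9428942999e2a7c55a221112112a5125d92aa9cc,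
    0x811127c414116411a42211c21ee111a48112191b289e1181668933112b9123918ba82811123c229985e888e88228acfdc8],
    [0, 0x81c16414a14111341113a2981484111518412e912111681881c1aadc1241e64,
    0x6116116814121e814121ea9814141e814121ea1a11a11ac11a11c6d48,
    0xc12415125126512512a82429c512fc592cccc2cca26f5c12818c4,
    0x21a1c2121893c248184126f6881781216781116624a4c47581222768121286da11121c11222d11cda88219988828c8d9c8]]

noncomputable def n3446 : Ent := ⟨e3446, noF, [], [], []⟩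

def c3446 : PLift (Cov.check n3446.C.D v3446 = true) := ⟨by decide +kernel⟩

def b3446 : PLift (entF (fidx ts) 400 3446 n3446 = true) := ⟨by decide +kernel⟩

theorem g3446 : GoodF (fidx ts) 400 3446 := GoodF.ofV v3446 n3446 c3446.down b3446.down

/-- 47494465:2622/2 -/
noncomputable def e3447 : SCfg where
  D := {
    a := 8
    L := 10
    kp := 8
    inn := [(0, 1), (1, 0), (1, 2), (1, 3), (1, 4), (1, 6), (2, 1), (2, 3), (3, 1), (3, 2), (3, 5), (3,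
      6), (3, 7), (4, 1), (4, 6), (5, 3), (5, 7), (6, 1), (6, 3), (6, 4), (7, 3), (7, 5)]
    mix := [(0, 0), (0, 1), (0, 2), (1, 0), (1, 2), (2, 2), (2, 3), (3, 3), (3, 4), (3, 5), (3, 6), (4,
      0), (4, 7), (5, 1), (5, 6), (6, 6), (6, 7), (6, 8), (7, 1), (7, 5), (7, 9)]
    cl := [1, 3, 2, 4, 7, 0, 0, 5, 6, 8]
    chq := [(0, 1), (0, 4), (1, 0), (1, 2), (1, 4), (1, 6), (2, 1), (4, 0), (4, 1), (6, 1)]
    rng := [(0, 1), (0, 7), (1, 0), (1, 2), (1, 6), (1, 9), (2, 1), (2, 3), (3, 2), (3, 4), (4, 3), (4,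
      5), (5, 4), (5, 9), (6, 1), (6, 8), (7, 0), (7, 8), (8, 6), (8, 7), (9, 1), (9, 5)]
    lev := [] }
  links := [[1, 8, 9, 10], [8, 0, 10, 2, 3, 6, 4], [3, 1, 10, 11], [6, 1, 2, 11, 12, 13, 7, 5, 14], [8,
    1, 6, 15], [14, 3, 7, 9], [15, 4, 1, 3, 14, 16], [9, 5, 3, 13, 17]]
  P := {
    a := 8
    N := 18
    nb := [1794, 1373, 3082, 30950, 33090, 17032, 114714, 139816, 33299, 148897, 2567, 5132, 10248,
      135304, 66152, 65872, 49216, 8832]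
    tri := [(0, 1, 8), (0, 1, 10), (0, 8, 9), (0, 9, 10), (1, 2, 3), (1, 2, 10), (1, 3, 6), (1, 4, 6),
      (1, 4, 8), (2, 3, 11), (2, 10, 11), (3, 5, 7), (3, 5, 14), (3, 6, 14), (3, 7, 13), (3, 11,
      12), (3, 12, 13), (4, 6, 15), (4, 8, 15), (5, 7, 9), (5, 9, 14), (6, 14, 16), (6, 15, 16),
      (7, 9, 17), (7, 13, 17)]
    fin := [0, 0, 0, 3, 0, 5, 0, 5, 0, 5, 10, 11, 12, 3, 3, 15, 16, 17]
    chd := [(0, 3), (0, 10), (0, 11), (0, 16), (11, 3)]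
    steps := [(0, 1), (0, 2), (0, 4), (0, 6), (0, 8), (3, 13), (3, 14), (5, 7), (5, 9)] }
  rep := [3, 0, 10, 5, 11, 15, 16, 12, 17]

noncomputable def v3447 : Cov.CovD where
  P := 3
  N := 6
  pl := [1, 4, 7, 9]
  lev := [⟨[], [], [(1, 2)], [3], [(0, 1, [0, 2, 4, 6]), (2, 2, [1])]⟩,
    ⟨[], [(0, 1), (0, 2)], [(1, 2)], [], [(0, 1, [0, 2, 4, 6]), (2, 2, [1])]⟩,
    ⟨[(0, 1)], [(0, 2), (1, 1), (1, 2), (1, 4)], [(2, 4)], [], [(2, 2, [1]), (3, 4, [0,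
      1])]⟩,
    ⟨[(0, 1), (1, 2)], [(1, 0), (1, 1), (1, 2), (1, 4), (2, 0), (2, 2), (2, 4)], [(0, 0),
      (0, 4)], [7], [(3, 4, [0, 1]), (5, 0, [1, 4]), (6, 0, [1, 4])]⟩,
    ⟨[(0, 1), (1, 2), (1, 3)], [(0, 1), (1, 1), (1, 2)], [], [5], [(0, 1, [0, 2, 4, 6])]⟩,
    ⟨[(1, 3), (2, 3)], [(3, 0), (3, 4)], [], [3], [(6, 0, [1, 4])]⟩,
    ⟨[(0, 1), (1, 2), (1, 3), (1, 4), (2, 3), (3, 4), (3, 5)], [(1, 0), (1, 1), (1, 2), (1,
      6), (3, 0), (3, 4), (3, 6), (4, 0), (4, 1), (4, 6), (5, 0)], [(0, 6)], [5], [(6, 0, [1,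
      4]), (8, 6, [1])]⟩,
    ⟨[(1, 3), (2, 3), (3, 5), (3, 6)], [(3, 0), (3, 4), (5, 0)], [], [3, 8], [(5, 0, [1,
      4])]⟩]
  Ta := [((5, 4), 0, 7), ((5, 9), 0, 8), ((6, 1), 0, 3), ((6, 8), 0, 6)]
  Tb := [((0, 1, 7), 1, 3, 5), ((1, 0, 2), 3, 1, 2), ((1, 0, 6), 3, 1, 0), ((1, 0, 9), 3, 1, 8),
    ((1, 2, 6), 3, 2, 0), ((1, 2, 9), 3, 2, 8), ((1, 6, 9), 3, 0, 8), ((2, 1, 3), 2, 3, 4),
    ((3, 2, 4), 4, 2, 7), ((4, 3, 5), 7, 4, 0), ((5, 4, 9), 0, 7, 8), ((6, 1, 8), 0, 3, 6),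
    ((7, 0, 8), 5, 1, 6), ((8, 6, 7), 6, 0, 5), ((9, 1, 5), 8, 3, 0)]
  Tc := [(0, 1, 4), (1, 0, 2), (1, 0, 4), (1, 0, 6), (1, 2, 4), (1, 2, 6), (1, 4, 6), (4, 0, 1)]
  Td := [((0, 1), (5, 4), 7), ((0, 1), (5, 9), 8), ((0, 1), (6, 1), 3), ((0, 1), (6, 8), 6), ((0,
    4), (5, 4), 7), ((0, 4), (5, 9), 8), ((0, 4), (6, 1), 3), ((0, 4), (6, 8), 6), ((1, 0),
    (0, 1), 3), ((1, 0), (0, 7), 5), ((1, 2), (0, 1), 3), ((1, 2), (0, 7), 5), ((1, 4), (0,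
    1), 3), ((1, 4), (0, 7), 5), ((1, 6), (0, 1), 3), ((1, 6), (0, 7), 5), ((2, 1), (2, 1),
    3), ((2, 1), (2, 3), 4), ((4, 0), (3, 2), 2), ((4, 0), (3, 4), 7), ((4, 1), (3, 2), 2),
    ((4, 1), (3, 4), 7), ((6, 1), (8, 6), 0), ((6, 1), (8, 7), 5)]
  G := [[0, 0x1111a1111aa411116111166118114112ea581,
    0xa1842258464222d8218c2229882a1823a21ca288888d8818ceec64274422142642f4c261623624562161423c4148ee2294828cc,
    0xc21412641e22e225a22212a2ca1a16124d6e1c1,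
    0x61625422265e1c23e21ca161caa56427a8dce1821821c8291], [0,
    0x11116111166114112118e112118114ee181,
    0x148142128121281211621218ac11a8128911c81489eec12412124121444124111e291444ee12411a491848a2cc,
    0x6226225c22a24cc24d249e18122122c1221229c11c212832345,
    0x724186ac24aa4e8c289cada8cd68c2b112146122511a211625c11c211a452318248299]]

noncomputable def n3447 : Ent := ⟨e3447, noF, [], [], []⟩

def c3447 : PLift (Cov.check n3447.C.D v3447 = true) := ⟨by decide +kernel⟩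

def b3447 : PLift (entF (fidx ts) 400 3447 n3447 = true) := ⟨by decide +kernel⟩

theorem g3447 : GoodF (fidx ts) 400 3447 := GoodF.ofV v3447 n3447 c3447.down b3447.down

/-- 47494465:2622 -/
noncomputable def e3448 : SCfg where
  D := {
    a := 8
    L := 11
    kp := 9
    inn := [(0, 1), (1, 0), (1, 2), (1, 3), (1, 4), (1, 6), (2, 1), (2, 3), (3, 1), (3, 2), (3, 5), (3,
      6), (3, 7), (4, 1), (4, 6), (5, 3), (5, 7), (6, 1), (6, 3), (6, 4), (7, 3), (7, 5)]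
    mix := [(0, 0), (0, 1), (0, 2), (1, 0), (1, 2), (2, 2), (2, 3), (3, 3), (3, 4), (3, 5), (3, 6), (4,
      0), (4, 7), (5, 6), (5, 8), (6, 6), (6, 7), (6, 9), (7, 5), (7, 8), (7, 10)]
    cl := [0, 8, 1, 4, 7, 3, 3, 2, 5, 6, 9]
    chq := [(0, 1), (0, 4), (0, 6), (1, 0), (4, 0), (4, 6), (6, 0), (6, 4), (6, 7), (7, 6)]
    rng := [(0, 1), (0, 7), (1, 0), (1, 2), (2, 1), (2, 3), (3, 2), (3, 4), (4, 3), (4, 5), (5, 4), (5,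
      10), (6, 8), (6, 9), (7, 0), (7, 9), (8, 6), (8, 10), (9, 6), (9, 7), (10, 5), (10, 8)]
    lev := [] }
  links := [[1, 8, 9, 10], [8, 0, 10, 2, 3, 6, 4], [3, 1, 10, 11], [6, 1, 2, 11, 12, 13, 7, 5, 14], [8,
    1, 6, 15], [14, 3, 7, 16], [15, 4, 1, 3, 14, 17], [16, 5, 3, 13, 18]]
  P := {
    a := 8
    N := 19
    nb := [1794, 1373, 3082, 30950, 33090, 82056, 180250, 335912, 33299, 1281, 2567, 5132, 10248,
      266376, 196712, 131408, 278688, 49216, 73856]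
    tri := [(0, 1, 8), (0, 1, 10), (0, 8, 9), (0, 9, 10), (1, 2, 3), (1, 2, 10), (1, 3, 6), (1, 4, 6),
      (1, 4, 8), (2, 3, 11), (2, 10, 11), (3, 5, 7), (3, 5, 14), (3, 6, 14), (3, 7, 13), (3, 11,
      12), (3, 12, 13), (4, 6, 15), (4, 8, 15), (5, 7, 16), (5, 14, 16), (6, 14, 17), (6, 15, 17),
      (7, 13, 18), (7, 16, 18)]
    fin := [0, 0, 0, 3, 0, 5, 3, 5, 0, 9, 10, 11, 12, 5, 5, 15, 16, 3, 18]
    chd := [(0, 3), (0, 10), (0, 11), (11, 3), (12, 3)]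
    steps := [(0, 1), (0, 2), (0, 4), (0, 8), (3, 6), (3, 17), (5, 7), (5, 13), (5, 14)] }
  rep := [0, 10, 15, 5, 11, 16, 3, 12, 9, 18]

noncomputable def v3448 : Cov.CovD where
  P := 3
  N := 7
  pl := [1, 7, 8, 10]
  lev := [⟨[], [], [(0, 1)], [8], [(0, 0, [1, 4, 6]), (2, 1, [0])]⟩,
    ⟨[], [(0, 0), (0, 1)], [(0, 1)], [], [(0, 0, [1, 4, 6]), (2, 1, [0])]⟩,
    ⟨[(0, 1)], [(0, 1), (1, 0), (1, 1), (1, 4)], [(1, 4)], [], [(2, 1, [0]), (3, 4, [0,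
      6])]⟩,
    ⟨[(0, 1), (1, 2)], [(1, 0), (1, 1), (1, 3), (1, 4), (1, 7), (2, 1), (2, 3), (2, 4), (2,
      7)], [(3, 3), (3, 4), (3, 7), (4, 7)], [], [(3, 4, [0, 6]), (4, 7, [6]), (5, 3, []),
      (6, 3, [])]⟩,
    ⟨[(0, 1), (1, 2), (1, 3)], [(0, 0), (1, 0), (1, 1)], [], [2], [(0, 0, [1, 4, 6])]⟩,
    ⟨[(1, 3), (2, 3)], [(3, 3), (3, 4), (3, 7)], [], [5], [(6, 3, [])]⟩,
    ⟨[(0, 1), (1, 2), (1, 3), (1, 4), (2, 3), (3, 4), (3, 5)], [(1, 0), (1, 1), (1, 3), (1,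
      6), (3, 3), (3, 4), (3, 6), (3, 7), (4, 0), (4, 3), (4, 6), (5, 3)], [(3, 6)], [2],
      [(6, 3, []), (9, 6, [0, 4, 7])]⟩,
    ⟨[(1, 3), (2, 3), (3, 5), (3, 6)], [(3, 3), (3, 4), (3, 7), (5, 3)], [], [5, 9], [(5,
      3, [])]⟩]
  Ta := [((5, 4), 3, 7), ((5, 10), 3, 9), ((6, 8), 3, 5), ((6, 9), 3, 6)]
  Tb := [((0, 1, 7), 0, 8, 2), ((1, 0, 2), 8, 0, 1), ((2, 1, 3), 1, 8, 4), ((3, 2, 4), 4, 1, 7),
    ((4, 3, 5), 7, 4, 3), ((5, 4, 10), 3, 7, 9), ((6, 8, 9), 3, 5, 6), ((7, 0, 9), 2, 0, 6),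
    ((8, 6, 10), 5, 3, 9), ((9, 6, 7), 6, 3, 2), ((10, 5, 8), 9, 3, 5)]
  Tc := [(0, 1, 4), (0, 1, 6), (0, 4, 6), (4, 0, 6), (6, 0, 4), (6, 0, 7), (6, 4, 7)]
  Td := [((0, 1), (0, 1), 8), ((0, 1), (0, 7), 2), ((0, 4), (0, 1), 8), ((0, 4), (0, 7), 2), ((0,
    6), (0, 1), 8), ((0, 6), (0, 7), 2), ((1, 0), (2, 1), 8), ((1, 0), (2, 3), 4), ((4, 0),
    (3, 2), 1), ((4, 0), (3, 4), 7), ((4, 6), (3, 2), 1), ((4, 6), (3, 4), 7), ((6, 0), (9,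
    6), 3), ((6, 0), (9, 7), 2), ((6, 4), (9, 6), 3), ((6, 4), (9, 7), 2), ((6, 7), (9, 6),
    3), ((6, 7), (9, 7), 2), ((7, 6), (4, 3), 4), ((7, 6), (4, 5), 3)]
  G := [[0, 0x8188141441c2d171a8e1b45861c1a1117881ce16199441c188141241f1b458f15828b8abce,
    0xe27294e47492a4e2c471e2b25481ce2729441e2b258e8883872c242aa8b1cc,
    0xd171a441c1a11174f1b4588848c4b1c4144c16111b4f14138b4c444a8f181a1117881c3414a411434a81c8d,
    0xd171a2b171c261e822192f8a21d1b1688dc1212c81e1d23845e12a9b52e17892c8a862b1c5218c8184d],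
    [0,
    0x812844914148341145713e445a81a991d45894c1d8ed28181641d8189d1d42a48489111453196449a818931d4c56a,
    0x7cc72224e72b8b228ab2985c658c92f8e828ae2e4f14747224672b424928baa92ec52c4c2d9849caa646e2aa44af18c,
    0x81b134417414678149917cb818a89858951b4e448c6e88cf1c1474649434a129b8951bc41c41431f8e48468f1214171b8e848a891cc,
    0x56332a1b892a13388ac8589517228ae26e88af14123b2b1b8441636231b858689d1d268aaac2e2b1cc]]

noncomputable def n3448 : Ent := ⟨e3448, noF, [], [], [(9, 18, [30043303427623734937691929578474300150491519007939870628445900451935117313, 0]), (9, 16, [31810581851548793677511941751458610980409781099126250235727204310991728641, 0])]⟩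

def c3448 : PLift (Cov.check n3448.C.D v3448 = true) := ⟨by decide +kernel⟩

def b3448 : PLift (entF (fidx ts) 400 3448 n3448 = true) := ⟨by decide +kernel⟩

theorem g3448 : GoodF (fidx ts) 400 3448 := GoodF.ofV v3448 n3448 c3448.down b3448.down

/-- 47494464:2623/1 -/
noncomputable def e3449 : SCfg where
  D := {
    a := 8
    L := 10
    kp := 8
    inn := [(0, 1), (1, 0), (1, 2), (1, 3), (1, 5), (2, 1), (2, 3), (2, 6), (3, 1), (3, 2), (3, 4), (3,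
      5), (3, 6), (3, 7), (4, 3), (5, 1), (5, 3), (6, 2), (6, 3), (7, 3)]
    mix := [(0, 0), (0, 1), (0, 2), (1, 0), (1, 2), (1, 3), (2, 2), (3, 4), (3, 5), (3, 6), (4, 4), (4,
      5), (4, 7), (5, 3), (5, 6), (6, 1), (6, 2), (6, 4), (6, 8), (7, 5), (7, 6), (7, 9)]
    cl := [5, 2, 0, 0, 3, 4, 1, 6, 7, 8]
    chq := [(1, 2), (1, 3), (1, 4), (1, 6), (1, 7), (2, 1), (3, 1), (4, 1), (6, 1), (7, 1)]
    rng := [(0, 1), (0, 3), (1, 0), (1, 2), (1, 8), (2, 1), (3, 0), (3, 6), (4, 7), (4, 8), (5, 7), (5,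
      9), (6, 3), (6, 9), (7, 4), (7, 5), (8, 1), (8, 4), (9, 5), (9, 6)]
    lev := [] }
  links := [[1, 8, 9, 10], [8, 0, 10, 2, 3, 5, 11], [3, 1, 10, 6], [5, 1, 2, 6, 12, 4, 13, 7, 14], [13,
    3, 12, 15], [11, 1, 3, 14], [12, 3, 2, 10, 9, 16], [14, 3, 13, 17]]
  P := {
    a := 8
    N := 18
    nb := [1794, 3373, 1098, 28918, 45064, 18442, 71180, 155656, 2563, 66881, 583, 16674, 98392,
      163992, 133288, 12304, 4672, 24704]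
    tri := [(0, 1, 8), (0, 1, 10), (0, 8, 9), (0, 9, 10), (1, 2, 3), (1, 2, 10), (1, 3, 5), (1, 5, 11),
      (1, 8, 11), (2, 3, 6), (2, 6, 10), (3, 4, 12), (3, 4, 13), (3, 5, 14), (3, 6, 12), (3, 7,
      13), (3, 7, 14), (4, 12, 15), (4, 13, 15), (5, 11, 14), (6, 9, 10), (6, 9, 16), (6, 12, 16),
      (7, 13, 17), (7, 14, 17)]
    fin := [0, 1, 1, 3, 4, 1, 3, 7, 0, 9, 1, 1, 12, 7, 3, 4, 16, 17]
    chd := [(3, 4), (3, 16), (7, 3), (9, 3), (12, 3)]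
    steps := [(0, 8), (1, 2), (1, 5), (1, 10), (1, 11), (3, 6), (3, 14), (4, 15), (7, 13)] }
  rep := [1, 3, 9, 12, 7, 0, 4, 16, 17]

noncomputable def v3449 : Cov.CovD where
  P := 3
  N := 6
  pl := [0, 9]
  lev := [⟨[], [], [(0, 2)], [5], [(1, 2, [1]), (2, 0, [])]⟩,
    ⟨[], [(0, 0), (0, 2)], [(0, 0)], [5], [(2, 0, []), (3, 0, [])]⟩,
    ⟨[(0, 1)], [(0, 0), (1, 0)], [], [], [(2, 0, [])]⟩,
    ⟨[(0, 1), (1, 2)], [(1, 0), (1, 1), (1, 3), (1, 4), (2, 0), (2, 1), (2, 3), (2, 4)],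
      [(1, 3), (1, 4), (3, 4)], [], [(4, 3, [1]), (5, 4, [1]), (6, 1, [2, 3, 4, 6, 7])]⟩,
    ⟨[(1, 3), (2, 3)], [(3, 1), (3, 3), (3, 4), (3, 6)], [(3, 4), (3, 6), (4, 6)], [], [(4,
      3, [1]), (5, 4, [1]), (7, 6, [1])]⟩,
    ⟨[(0, 1), (1, 2), (1, 3), (2, 3), (3, 4)], [(1, 0), (1, 1), (3, 0), (3, 1), (3, 3), (3,
      4)], [(0, 1)], [], [(3, 0, []), (6, 1, [2, 3, 4, 6, 7])]⟩,
    ⟨[(1, 2), (1, 3), (2, 3), (3, 4), (3, 5)], [(0, 0), (0, 2), (1, 0), (2, 0), (2, 2), (2,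
      3), (2, 7), (3, 0), (3, 1), (3, 2), (3, 3), (3, 4), (3, 7), (4, 3)], [(0, 2), (0, 3),
      (0, 7), (2, 3), (2, 7), (3, 7)], [], [(1, 2, [1]), (2, 0, []), (4, 3, [1]), (8, 7,
      [1])]⟩,
    ⟨[(1, 3), (2, 3), (3, 4), (3, 5), (3, 6)], [(3, 1), (3, 3), (3, 4), (4, 4), (5, 1)],
      [(1, 4)], [8], [(5, 4, [1]), (6, 1, [2, 3, 4, 6, 7])]⟩]
  Ta := [((2, 1), 0, 2), ((3, 0), 0, 5), ((3, 6), 0, 1)]
  Tb := [((0, 1, 3), 5, 2, 0), ((1, 0, 2), 2, 5, 0), ((1, 0, 8), 2, 5, 7), ((1, 2, 8), 2, 0, 7),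
    ((3, 0, 6), 0, 5, 1), ((4, 7, 8), 3, 6, 7), ((5, 7, 9), 4, 6, 8), ((6, 3, 9), 1, 0, 8),
    ((7, 4, 5), 6, 3, 4), ((8, 1, 4), 7, 2, 3), ((9, 5, 6), 8, 4, 1)]
  Tc := [(1, 2, 3), (1, 2, 4), (1, 2, 6), (1, 2, 7), (1, 3, 4), (1, 3, 6), (1, 3, 7), (1, 4, 6),
    (1, 4, 7), (1, 6, 7)]
  Td := [((1, 2), (6, 3), 0), ((1, 2), (6, 9), 8), ((1, 3), (6, 3), 0), ((1, 3), (6, 9), 8), ((1,
    4), (6, 3), 0), ((1, 4), (6, 9), 8), ((1, 6), (6, 3), 0), ((1, 6), (6, 9), 8), ((1, 7),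
    (6, 3), 0), ((1, 7), (6, 9), 8), ((2, 1), (1, 0), 5), ((2, 1), (1, 2), 0), ((2, 1), (1,
    8), 7), ((3, 1), (4, 7), 6), ((3, 1), (4, 8), 7), ((4, 1), (5, 7), 6), ((4, 1), (5, 9),
    8), ((6, 1), (7, 4), 3), ((6, 1), (7, 5), 4), ((7, 1), (8, 1), 2), ((7, 1), (8, 4), 3)]
  G := [[0, 0, 0x22de4212d612462da1284c22de12422de42d2429c2a, 0x224222122282d82224222422282d82c,
    0x22124d21246221228d21e228d28228794c221d2164224d24ad2822439c2a], [0,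
    0xe1412e12146e14182ae1812e1218ae181426c, 0, 0x224222822242d82224222822242d829,
    0x2da421472422182c893428acd23822da8252d2b428c22da82428b]]

noncomputable def n3449 : Ent := ⟨e3449, noF, [], [], []⟩

def c3449 : PLift (Cov.check n3449.C.D v3449 = true) := ⟨by decide +kernel⟩

def b3449 : PLift (entF (fidx ts) 400 3449 n3449 = true) := ⟨by decide +kernel⟩

theorem g3449 : GoodF (fidx ts) 400 3449 := GoodF.ofV v3449 n3449 c3449.down b3449.down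

/-- 47494464:2623/2 -/
noncomputable def e3450 : SCfg where
  D := {
    a := 8
    L := 10
    kp := 8
    inn := [(0, 1), (1, 0), (1, 2), (1, 3), (1, 5), (2, 1), (2, 3), (2, 6), (3, 1), (3, 2), (3, 4), (3,
      5), (3, 6), (3, 7), (4, 3), (5, 1), (5, 3), (6, 2), (6, 3), (7, 3)]
    mix := [(0, 0), (0, 1), (0, 2), (1, 0), (1, 2), (1, 3), (2, 2), (3, 4), (3, 5), (3, 6), (4, 4), (4,
      5), (4, 7), (5, 3), (5, 6), (6, 2), (6, 4), (6, 8), (6, 9), (7, 1), (7, 5), (7, 6)]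
    cl := [2, 5, 0, 0, 3, 4, 1, 6, 7, 8]
    chq := [(1, 3), (1, 4), (1, 6), (1, 7), (1, 8), (3, 1), (4, 1), (6, 1), (7, 1), (8, 1)]
    rng := [(0, 1), (0, 3), (1, 0), (1, 2), (1, 5), (1, 6), (2, 1), (2, 8), (3, 0), (3, 6), (4, 7), (4,
      9), (5, 1), (5, 7), (6, 1), (6, 3), (7, 4), (7, 5), (8, 2), (8, 9), (9, 4), (9, 8)]
    lev := [] }
  links := [[1, 8, 9, 10], [8, 0, 10, 2, 3, 5, 11], [3, 1, 10, 6], [5, 1, 2, 6, 12, 4, 13, 7, 14], [13,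
    3, 12, 15], [11, 1, 3, 14], [12, 3, 2, 10, 16, 17], [14, 3, 13, 9]]
  P := {
    a := 8
    N := 18
    nb := [1794, 3373, 1098, 28918, 45064, 18442, 201740, 25096, 2563, 25985, 66119, 16674, 163928,
      33432, 2728, 12304, 132160, 69696]
    tri := [(0, 1, 8), (0, 1, 10), (0, 8, 9), (0, 9, 10), (1, 2, 3), (1, 2, 10), (1, 3, 5), (1, 5, 11),
      (1, 8, 11), (2, 3, 6), (2, 6, 10), (3, 4, 12), (3, 4, 13), (3, 5, 14), (3, 6, 12), (3, 7,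
      13), (3, 7, 14), (4, 12, 15), (4, 13, 15), (5, 11, 14), (6, 10, 16), (6, 12, 17), (6, 16,
      17), (7, 9, 13), (7, 9, 14)]
    fin := [0, 1, 1, 3, 4, 1, 3, 7, 0, 7, 1, 1, 12, 13, 3, 4, 16, 17]
    chd := [(3, 4), (3, 16), (3, 17), (12, 3), (13, 3)]
    steps := [(0, 8), (1, 2), (1, 5), (1, 10), (1, 11), (3, 6), (3, 14), (4, 15), (7, 9)] }
  rep := [1, 3, 0, 12, 13, 7, 4, 16, 17]

noncomputable def v3450 : Cov.CovD where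
  P := 3
  N := 6
  pl := [0, 1]
  lev := [⟨[], [], [], [2, 5], [(2, 0, [])]⟩,
    ⟨[], [(0, 0)], [(0, 0)], [2], [(2, 0, []), (3, 0, [])]⟩,
    ⟨[(0, 1)], [(0, 0), (1, 0)], [], [], [(2, 0, [])]⟩,
    ⟨[(0, 1), (1, 2)], [(1, 0), (1, 1), (1, 3), (1, 4), (2, 0), (2, 1), (2, 3), (2, 4)],
      [(1, 3), (1, 4), (3, 4)], [], [(4, 3, [1]), (5, 4, [1]), (6, 1, [3, 4, 6, 7, 8])]⟩,
    ⟨[(1, 3), (2, 3)], [(3, 1), (3, 3), (3, 4), (3, 6)], [(3, 4), (3, 6), (4, 6)], [], [(4,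
      3, [1]), (5, 4, [1]), (7, 6, [1])]⟩,
    ⟨[(0, 1), (1, 2), (1, 3), (2, 3), (3, 4)], [(1, 0), (1, 1), (3, 0), (3, 1), (3, 3), (3,
      4)], [(0, 1)], [], [(3, 0, []), (6, 1, [3, 4, 6, 7, 8])]⟩,
    ⟨[(1, 2), (1, 3), (2, 3), (3, 4), (3, 5)], [(0, 0), (1, 0), (2, 0), (2, 3), (2, 7), (2,
      8), (3, 0), (3, 1), (3, 3), (3, 4), (3, 7), (3, 8), (4, 3)], [(0, 3), (0, 7), (0, 8),
      (3, 7), (3, 8), (7, 8)], [], [(2, 0, []), (4, 3, [1]), (8, 7, [1]), (9, 8, [1])]⟩,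
    ⟨[(1, 3), (2, 3), (3, 4), (3, 5), (3, 6)], [(3, 1), (3, 3), (3, 4), (4, 4), (5, 1)],
      [(1, 4)], [5], [(5, 4, [1]), (6, 1, [3, 4, 6, 7, 8])]⟩]
  Ta := [((2, 1), 0, 5), ((2, 8), 0, 7), ((3, 0), 0, 2), ((3, 6), 0, 1)]
  Tb := [((0, 1, 3), 2, 5, 0), ((1, 0, 2), 5, 2, 0), ((1, 0, 5), 5, 2, 4), ((1, 0, 6), 5, 2, 1),
    ((1, 2, 5), 5, 0, 4), ((1, 2, 6), 5, 0, 1), ((1, 5, 6), 5, 4, 1), ((2, 1, 8), 0, 5, 7),
    ((3, 0, 6), 0, 2, 1), ((4, 7, 9), 3, 6, 8), ((5, 1, 7), 4, 5, 6), ((6, 1, 3), 1, 5, 0),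
    ((7, 4, 5), 6, 3, 4), ((8, 2, 9), 7, 0, 8), ((9, 4, 8), 8, 3, 7)]
  Tc := [(1, 3, 4), (1, 3, 6), (1, 3, 7), (1, 3, 8), (1, 4, 6), (1, 4, 7), (1, 4, 8), (1, 6, 7),
    (1, 6, 8), (1, 7, 8)]
  Td := [((1, 3), (6, 1), 5), ((1, 3), (6, 3), 0), ((1, 4), (6, 1), 5), ((1, 4), (6, 3), 0), ((1,
    6), (6, 1), 5), ((1, 6), (6, 3), 0), ((1, 7), (6, 1), 5), ((1, 7), (6, 3), 0), ((1, 8),
    (6, 1), 5), ((1, 8), (6, 3), 0), ((3, 1), (4, 7), 6), ((3, 1), (4, 9), 8), ((4, 1), (5,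
    1), 5), ((4, 1), (5, 7), 6), ((6, 1), (7, 4), 3), ((6, 1), (7, 5), 4), ((7, 1), (8, 2),
    0), ((7, 1), (8, 9), 8), ((8, 1), (9, 4), 3), ((8, 1), (9, 8), 7)]
  G := [[0, 0, 0, 0x92124221228821e122d2822879c4422221421e124124224b552128c8c,
    0x821292821242d4252122284216d242243d22488c2a], [0, 0xa121a181681218a46141261214121ca8c,
    0x8242824428241128212c17274224291bc221a42d82e,
    0x2243246228b28a224128128224fd428246c24282c1, 0x228d2864224d24a12822439c21]]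

noncomputable def n3450 : Ent := ⟨e3450, noF, [], [], []⟩

def c3450 : PLift (Cov.check n3450.C.D v3450 = true) := ⟨by decide +kernel⟩

def b3450 : PLift (entF (fidx ts) 400 3450 n3450 = true) := ⟨by decide +kernel⟩

theorem g3450 : GoodF (fidx ts) 400 3450 := GoodF.ofV v3450 n3450 c3450.down b3450.down

/-- 47494464:2623 -/
noncomputable def e3451 : SCfg where
  D := {
    a := 8
    L := 11
    kp := 9
    inn := [(0, 1), (1, 0), (1, 2), (1, 3), (1, 5), (2, 1), (2, 3), (2, 6), (3, 1), (3, 2), (3, 4), (3,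
      5), (3, 6), (3, 7), (4, 3), (5, 1), (5, 3), (6, 2), (6, 3), (7, 3)]
    mix := [(0, 0), (0, 1), (0, 2), (1, 0), (1, 2), (1, 3), (2, 2), (3, 4), (3, 5), (3, 6), (4, 4), (4,
      5), (4, 7), (5, 3), (5, 6), (6, 2), (6, 4), (6, 8), (6, 9), (7, 5), (7, 6), (7, 10)]
    cl := [2, 8, 0, 0, 3, 4, 1, 5, 6, 7, 9]
    chq := [(1, 3), (1, 4), (1, 5), (1, 6), (1, 7), (3, 1), (4, 1), (5, 1), (6, 1), (7, 1)]
    rng := [(0, 1), (0, 3), (1, 0), (1, 2), (2, 1), (2, 8), (3, 0), (3, 6), (4, 7), (4, 9), (5, 7), (5,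
      10), (6, 3), (6, 10), (7, 4), (7, 5), (8, 2), (8, 9), (9, 4), (9, 8), (10, 5), (10, 6)]
    lev := [] }
  links := [[1, 8, 9, 10], [8, 0, 10, 2, 3, 5, 11], [3, 1, 10, 6], [5, 1, 2, 6, 12, 4, 13, 7, 14], [13,
    3, 12, 15], [11, 1, 3, 14], [12, 3, 2, 10, 16, 17], [14, 3, 13, 18]]
  P := {
    a := 8
    N := 19
    nb := [1794, 3373, 1098, 28918, 45064, 18442, 201740, 286728, 2563, 1281, 66119, 16674, 163928,
      295064, 264360, 12304, 132160, 69696, 24704]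
    tri := [(0, 1, 8), (0, 1, 10), (0, 8, 9), (0, 9, 10), (1, 2, 3), (1, 2, 10), (1, 3, 5), (1, 5, 11),
      (1, 8, 11), (2, 3, 6), (2, 6, 10), (3, 4, 12), (3, 4, 13), (3, 5, 14), (3, 6, 12), (3, 7,
      13), (3, 7, 14), (4, 12, 15), (4, 13, 15), (5, 11, 14), (6, 10, 16), (6, 12, 17), (6, 16,
      17), (7, 13, 18), (7, 14, 18)]
    fin := [0, 1, 1, 3, 4, 1, 3, 7, 0, 9, 1, 1, 12, 7, 3, 4, 16, 17, 18]
    chd := [(3, 4), (3, 16), (3, 17), (7, 3), (12, 3)]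
    steps := [(0, 8), (1, 2), (1, 5), (1, 10), (1, 11), (3, 6), (3, 14), (4, 15), (7, 13)] }
  rep := [1, 3, 0, 12, 7, 4, 16, 17, 9, 18]

noncomputable def v3451 : Cov.CovD where
  P := 3
  N := 7
  pl := [0, 1, 10]
  lev := [⟨[], [], [], [2, 8], [(2, 0, [])]⟩,
    ⟨[], [(0, 0)], [(0, 0)], [2], [(2, 0, []), (3, 0, [])]⟩,
    ⟨[(0, 1)], [(0, 0), (1, 0)], [], [], [(2, 0, [])]⟩,
    ⟨[(0, 1), (1, 2)], [(1, 0), (1, 1), (1, 3), (1, 4), (2, 0), (2, 1), (2, 3), (2, 4)],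
      [(1, 3), (1, 4), (3, 4)], [], [(4, 3, [1]), (5, 4, [1]), (6, 1, [3, 4, 5, 6, 7])]⟩,
    ⟨[(1, 3), (2, 3)], [(3, 1), (3, 3), (3, 4), (3, 5)], [(3, 4), (3, 5), (4, 5)], [], [(4,
      3, [1]), (5, 4, [1]), (7, 5, [1])]⟩,
    ⟨[(0, 1), (1, 2), (1, 3), (2, 3), (3, 4)], [(1, 0), (1, 1), (3, 0), (3, 1), (3, 3), (3,
      4)], [(0, 1)], [], [(3, 0, []), (6, 1, [3, 4, 5, 6, 7])]⟩,
    ⟨[(1, 2), (1, 3), (2, 3), (3, 4), (3, 5)], [(0, 0), (1, 0), (2, 0), (2, 3), (2, 6), (2,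
      7), (3, 0), (3, 1), (3, 3), (3, 4), (3, 6), (3, 7), (4, 3)], [(0, 3), (0, 6), (0, 7),
      (3, 6), (3, 7), (6, 7)], [], [(2, 0, []), (4, 3, [1]), (8, 6, [1]), (9, 7, [1])]⟩,
    ⟨[(1, 3), (2, 3), (3, 4), (3, 5), (3, 6)], [(3, 1), (3, 3), (3, 4), (4, 4), (5, 1)],
      [(1, 4)], [9], [(5, 4, [1]), (6, 1, [3, 4, 5, 6, 7])]⟩]
  Ta := [((2, 1), 0, 8), ((2, 8), 0, 6), ((3, 0), 0, 2), ((3, 6), 0, 1)]
  Tb := [((0, 1, 3), 2, 8, 0), ((1, 0, 2), 8, 2, 0), ((2, 1, 8), 0, 8, 6), ((3, 0, 6), 0, 2, 1),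
    ((4, 7, 9), 3, 5, 7), ((5, 7, 10), 4, 5, 9), ((6, 3, 10), 1, 0, 9), ((7, 4, 5), 5, 3, 4),
    ((8, 2, 9), 6, 0, 7), ((9, 4, 8), 7, 3, 6), ((10, 5, 6), 9, 4, 1)]
  Tc := [(1, 3, 4), (1, 3, 5), (1, 3, 6), (1, 3, 7), (1, 4, 5), (1, 4, 6), (1, 4, 7), (1, 5, 6),
    (1, 5, 7), (1, 6, 7)]
  Td := [((1, 3), (6, 3), 0), ((1, 3), (6, 10), 9), ((1, 4), (6, 3), 0), ((1, 4), (6, 10), 9),
    ((1, 5), (6, 3), 0), ((1, 5), (6, 10), 9), ((1, 6), (6, 3), 0), ((1, 6), (6, 10), 9),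
    ((1, 7), (6, 3), 0), ((1, 7), (6, 10), 9), ((3, 1), (4, 7), 5), ((3, 1), (4, 9), 7), ((4,
    1), (5, 7), 5), ((4, 1), (5, 10), 9), ((5, 1), (7, 4), 3), ((5, 1), (7, 5), 4), ((6, 1),
    (8, 2), 0), ((6, 1), (8, 9), 7), ((7, 1), (9, 4), 3), ((7, 1), (9, 8), 6)]
  G := [[0, 0, 0, 0x521242a282224d2822875221221d21e8cc221221d21e224d24224b572428c821282cc,
    0x228d2164224d21ad2822839c2221d216d24224358224d21a84aa], [0,
    0xe121814162e1216181a4ce18142e1812e1218acc,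
    0x228d286d2422435224d24a892224d24ad2422439228d286452c,
    0x4282422247246228b28a228224d24228fd82428ac1, 0x228d2864224d24ad2822439c21]]

noncomputable def n3451 : Ent := ⟨e3451, noF, [], [], [(9, 16, [31810581851548793677511941751458610980409781099126250235727204310991736833, 0]), (9, 18, [30043303427623734937691929578474300150491519007939870628445900451935133697, 0])]⟩

def c3451 : PLift (Cov.check n3451.C.D v3451 = true) := ⟨by decide +kernel⟩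

def b3451 : PLift (entF (fidx ts) 400 3451 n3451 = true) := ⟨by decide +kernel⟩

theorem g3451 : GoodF (fidx ts) 400 3451 := GoodF.ofV v3451 n3451 c3451.down b3451.down

/-- 47494464:2624/2 -/
noncomputable def e3452 : SCfg where
  D := {
    a := 8
    L := 9
    kp := 6
    inn := [(0, 1), (1, 0), (1, 2), (1, 3), (1, 5), (1, 6), (2, 1), (2, 3), (3, 1), (3, 2), (3, 4), (3,
      5), (3, 7), (4, 3), (5, 1), (5, 3), (5, 6), (6, 1), (6, 5), (7, 3)]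
    mix := [(0, 0), (0, 1), (0, 2), (1, 0), (1, 2), (2, 2), (2, 3), (3, 3), (3, 4), (3, 5), (3, 6), (4,
      1), (4, 4), (4, 5), (5, 6), (6, 0), (6, 6), (6, 7), (6, 8), (7, 5), (7, 6), (7, 7)]
    cl := [0, 2, 1, 3, 4, 3, 0, 5, 6]
    chq := [(0, 1), (0, 3), (1, 0), (3, 0)]
    rng := [(0, 1), (0, 8), (1, 0), (1, 2), (1, 4), (1, 5), (2, 1), (2, 3), (3, 2), (3, 4), (4, 1), (4,
      3), (5, 1), (5, 7), (6, 7), (7, 5), (7, 6), (7, 8), (8, 0), (8, 7)]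
    lev := [] }
  links := [[1, 8, 9, 10], [8, 0, 10, 2, 3, 5, 6], [3, 1, 10, 11], [5, 1, 2, 11, 12, 4, 13, 7, 14], [13,
    3, 12, 9], [6, 1, 3, 14], [8, 1, 5, 14, 15, 16], [14, 3, 13, 15]]
  P := {
    a := 8
    N := 17
    nb := [1794, 1389, 3082, 30902, 12808, 16458, 114978, 57352, 66115, 13585, 2567, 5132, 2584,
      33432, 33000, 90304, 33088]
    tri := [(0, 1, 8), (0, 1, 10), (0, 8, 9), (0, 9, 10), (1, 2, 3), (1, 2, 10), (1, 3, 5), (1, 5, 6),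
      (1, 6, 8), (2, 3, 11), (2, 10, 11), (3, 4, 12), (3, 4, 13), (3, 5, 14), (3, 7, 13), (3, 7,
      14), (3, 11, 12), (4, 9, 12), (4, 9, 13), (5, 6, 14), (6, 8, 16), (6, 14, 15), (6, 15, 16),
      (7, 13, 15), (7, 14, 15)]
    fin := [0, 0, 0, 3, 4, 0, 0, 0, 0, 4, 10, 3, 12, 3, 0, 15, 16]
    chd := [(0, 3), (0, 10)]
    steps := [(0, 1), (0, 2), (0, 5), (0, 6), (0, 8), (0, 14), (0, 7), (3, 11), (3, 13), (4, 9)] }
  rep := [0, 10, 4, 3, 12, 15, 16]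

noncomputable def v3452 : Cov.CovD where
  P := 3
  N := 4
  pl := [1, 4, 7, 8]
  lev := [⟨[], [], [(0, 1)], [2], [(0, 0, [1, 3]), (2, 1, [0])]⟩,
    ⟨[], [(0, 0), (0, 1)], [(0, 1)], [], [(0, 0, [1, 3]), (2, 1, [0])]⟩,
    ⟨[(0, 1)], [(0, 1), (1, 0), (1, 1), (1, 3)], [(1, 3)], [], [(2, 1, [0]), (3, 3, [0])]⟩,
    ⟨[(0, 1), (1, 2)], [(1, 0), (1, 1), (1, 3), (2, 0), (2, 1), (2, 3)], [(0, 3), (3, 3)],
      [4], [(3, 3, [0]), (5, 3, [0]), (6, 0, [1, 3])]⟩,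
    ⟨[(1, 3), (2, 3)], [(3, 0), (3, 3)], [], [2, 4], [(5, 3, [0])]⟩,
    ⟨[(0, 1), (1, 2), (1, 3), (2, 3), (3, 4)], [(1, 0), (1, 1), (3, 0), (3, 3)], [], [],
      [(6, 0, [1, 3])]⟩,
    ⟨[(0, 1), (1, 2), (1, 3), (1, 5), (3, 5)], [(0, 0), (1, 0), (1, 1), (3, 0), (5, 0)],
      [(0, 0)], [5, 6], [(0, 0, [1, 3]), (6, 0, [1, 3])]⟩,
    ⟨[(1, 3), (2, 3), (3, 4), (3, 5)], [(3, 0), (3, 3), (4, 3), (5, 0), (6, 0)], [(0, 3)],
      [5], [(5, 3, [0]), (6, 0, [1, 3])]⟩]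
  Ta := [((0, 1), 0, 2), ((0, 8), 0, 6), ((3, 2), 3, 1), ((3, 4), 3, 4), ((5, 1), 3, 2), ((5, 7),
    3, 5), ((6, 7), 0, 5)]
  Tb := [((0, 1, 8), 0, 2, 6), ((1, 0, 2), 2, 0, 1), ((1, 0, 4), 2, 0, 4), ((1, 0, 5), 2, 0, 3),
    ((1, 2, 4), 2, 1, 4), ((1, 2, 5), 2, 1, 3), ((1, 4, 5), 2, 4, 3), ((2, 1, 3), 1, 2, 3),
    ((3, 2, 4), 3, 1, 4), ((4, 1, 3), 4, 2, 3), ((5, 1, 7), 3, 2, 5), ((7, 5, 6), 5, 3, 0),
    ((7, 5, 8), 5, 3, 6), ((7, 6, 8), 5, 0, 6), ((8, 0, 7), 6, 0, 5)]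
  Tc := [(0, 1, 3)]
  Td := [((0, 1), (0, 1), 2), ((0, 1), (0, 8), 6), ((0, 1), (6, 7), 5), ((0, 3), (0, 1), 2), ((0,
    3), (0, 8), 6), ((0, 3), (6, 7), 5), ((1, 0), (2, 1), 2), ((1, 0), (2, 3), 3), ((3, 0),
    (3, 2), 1), ((3, 0), (3, 4), 4), ((3, 0), (5, 1), 2), ((3, 0), (5, 7), 5)]
  G := [[0, 0xa2688c412211ca82384, 0x44281842e288a261444e122d44a2881c4, 0x812e8842e152148,
    0x44114112a445882a11848e82e1c8], [0, 0x112e4124111e844111e488ca4,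
    0x112e28814112e2411618c2618c, 0x812e42211c6ee2e1d2184, 0x4411411491ac228a2e1112a81c9c8],
    [0, 0x111e888a2e243248, 0, 0x426882a484c2d2184, 0x842e2148688c261222e2881c1], [0,
    0x141822d12411618688111e8445a4, 0, 0xa2688a642e4e26e8cd2481,
    0x22a42264c63c4c8c222e4361226288c2981c1]]

noncomputable def n3452 : Ent := ⟨e3452, noF, [], [], []⟩

def c3452 : PLift (Cov.check n3452.C.D v3452 = true) := ⟨by decide +kernel⟩

def b3452 : PLift (entF (fidx ts) 400 3452 n3452 = true) := ⟨by decide +kernel⟩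

theorem g3452 : GoodF (fidx ts) 400 3452 := GoodF.ofV v3452 n3452 c3452.down b3452.down

/-- 47494464:2624/1 -/
noncomputable def e3453 : SCfg where
  D := {
    a := 8
    L := 10
    kp := 7
    inn := [(0, 1), (1, 0), (1, 2), (1, 3), (1, 5), (1, 6), (2, 1), (2, 3), (3, 1), (3, 2), (3, 4), (3,
      5), (3, 7), (4, 3), (5, 1), (5, 3), (5, 6), (6, 1), (6, 5), (7, 3)]
    mix := [(0, 0), (0, 1), (0, 2), (1, 0), (1, 2), (2, 2), (2, 3), (3, 3), (3, 4), (3, 5), (3, 6), (4,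
      1), (4, 4), (4, 5), (5, 6), (6, 0), (6, 6), (6, 7), (6, 8), (7, 5), (7, 6), (7, 9)]
    cl := [0, 2, 1, 3, 4, 3, 0, 5, 6, 7]
    chq := [(0, 1), (0, 3), (1, 0), (3, 0)]
    rng := [(0, 1), (0, 8), (1, 0), (1, 2), (1, 4), (1, 5), (2, 1), (2, 3), (3, 2), (3, 4), (4, 1), (4,
      3), (5, 1), (5, 9), (6, 7), (6, 9), (7, 6), (7, 8), (8, 0), (8, 7), (9, 5), (9, 6)]
    lev := [] }
  links := [[1, 8, 9, 10], [8, 0, 10, 2, 3, 5, 6], [3, 1, 10, 11], [5, 1, 2, 11, 12, 4, 13, 7, 14], [13,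
    3, 12, 9], [6, 1, 3, 14], [8, 1, 5, 14, 15, 16], [14, 3, 13, 17]]
  P := {
    a := 8
    N := 18
    nb := [1794, 1389, 3082, 30902, 12808, 16458, 114978, 155656, 66115, 13585, 2567, 5132, 2584,
      131736, 164072, 81984, 33088, 24704]
    tri := [(0, 1, 8), (0, 1, 10), (0, 8, 9), (0, 9, 10), (1, 2, 3), (1, 2, 10), (1, 3, 5), (1, 5, 6),
      (1, 6, 8), (2, 3, 11), (2, 10, 11), (3, 4, 12), (3, 4, 13), (3, 5, 14), (3, 7, 13), (3, 7,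
      14), (3, 11, 12), (4, 9, 12), (4, 9, 13), (5, 6, 14), (6, 8, 16), (6, 14, 15), (6, 15, 16),
      (7, 13, 17), (7, 14, 17)]
    fin := [0, 0, 0, 3, 4, 0, 0, 0, 0, 4, 10, 3, 12, 3, 0, 15, 16, 17]
    chd := [(0, 3), (0, 10)]
    steps := [(0, 1), (0, 2), (0, 5), (0, 6), (0, 8), (0, 14), (0, 7), (3, 11), (3, 13), (4, 9)] }
  rep := [0, 10, 4, 3, 12, 15, 16, 17]

noncomputable def v3453 : Cov.CovD where
  P := 3
  N := 5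
  pl := [1, 4, 7, 8, 9]
  lev := [⟨[], [], [(0, 1)], [2], [(0, 0, [1, 3]), (2, 1, [0])]⟩,
    ⟨[], [(0, 0), (0, 1)], [(0, 1)], [], [(0, 0, [1, 3]), (2, 1, [0])]⟩,
    ⟨[(0, 1)], [(0, 1), (1, 0), (1, 1), (1, 3)], [(1, 3)], [], [(2, 1, [0]), (3, 3, [0])]⟩,
    ⟨[(0, 1), (1, 2)], [(1, 0), (1, 1), (1, 3), (2, 0), (2, 1), (2, 3)], [(0, 3), (3, 3)],
      [4], [(3, 3, [0]), (5, 3, [0]), (6, 0, [1, 3])]⟩,
    ⟨[(1, 3), (2, 3)], [(3, 0), (3, 3)], [], [2, 4], [(5, 3, [0])]⟩,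
    ⟨[(0, 1), (1, 2), (1, 3), (2, 3), (3, 4)], [(1, 0), (1, 1), (3, 0), (3, 3)], [], [],
      [(6, 0, [1, 3])]⟩,
    ⟨[(0, 1), (1, 2), (1, 3), (1, 5), (3, 5)], [(0, 0), (1, 0), (1, 1), (3, 0), (5, 0)],
      [(0, 0)], [5, 6], [(0, 0, [1, 3]), (6, 0, [1, 3])]⟩,
    ⟨[(1, 3), (2, 3), (3, 4), (3, 5)], [(3, 0), (3, 3), (4, 3), (5, 0), (6, 0)], [(0, 3)],
      [7], [(5, 3, [0]), (6, 0, [1, 3])]⟩]
  Ta := [((0, 1), 0, 2), ((0, 8), 0, 6), ((3, 2), 3, 1), ((3, 4), 3, 4), ((5, 1), 3, 2), ((5, 9),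
    3, 7), ((6, 7), 0, 5), ((6, 9), 0, 7)]
  Tb := [((0, 1, 8), 0, 2, 6), ((1, 0, 2), 2, 0, 1), ((1, 0, 4), 2, 0, 4), ((1, 0, 5), 2, 0, 3),
    ((1, 2, 4), 2, 1, 4), ((1, 2, 5), 2, 1, 3), ((1, 4, 5), 2, 4, 3), ((2, 1, 3), 1, 2, 3),
    ((3, 2, 4), 3, 1, 4), ((4, 1, 3), 4, 2, 3), ((5, 1, 9), 3, 2, 7), ((6, 7, 9), 0, 5, 7),
    ((7, 6, 8), 5, 0, 6), ((8, 0, 7), 6, 0, 5), ((9, 5, 6), 7, 3, 0)]
  Tc := [(0, 1, 3)]
  Td := [((0, 1), (0, 1), 2), ((0, 1), (0, 8), 6), ((0, 1), (6, 7), 5), ((0, 1), (6, 9), 7), ((0,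
    3), (0, 1), 2), ((0, 3), (0, 8), 6), ((0, 3), (6, 7), 5), ((0, 3), (6, 9), 7), ((1, 0),
    (2, 1), 2), ((1, 0), (2, 3), 3), ((3, 0), (3, 2), 1), ((3, 0), (3, 4), 4), ((3, 0), (5,
    1), 2), ((3, 0), (5, 9), 7)]
  G := [[0, 0x11618c4666e283284, 0x4c64c42a1111e24181e4269182881c4, 0x1211c66aac4692148,
    0x1a621c86126422a6458a8118812e1c8], [0, 0x111e24111e416111a2882144884e4,
    0x1162441111e28111e82a1c1824418c, 0x111e81211c6eeee1d2848,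
    0x9962144533e28182831955e82e1c8], [0, 0x111e84666e883248, 0, 0x666e8ccae892148,
    0x222e28aaae81888e42e418], [0, 0x1211c612111e2889111e844868, 0, 0xa4aaac666e8eeee8d2848,
    0x222e2666e23ccce8222e436222e4888e298c18]]

noncomputable def n3453 : Ent := ⟨e3453, noF, [], [], [(17, 15, [6903537015784671890245461680740748765157398844539141476817538565783553, 0])]⟩

def c3453 : PLift (Cov.check n3453.C.D v3453 = true) := ⟨by decide +kernel⟩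

def b3453 : PLift (entF (fidx ts) 400 3453 n3453 = true) := ⟨by decide +kernel⟩

theorem g3453 : GoodF (fidx ts) 400 3453 := GoodF.ofV v3453 n3453 c3453.down b3453.down

/-- 47494464:2624/4 -/
noncomputable def e3454 : SCfg where
  D := {
    a := 8
    L := 9
    kp := 6
    inn := [(0, 1), (1, 0), (1, 2), (1, 3), (1, 5), (1, 6), (2, 1), (2, 3), (3, 1), (3, 2), (3, 4), (3,
      5), (3, 7), (4, 3), (5, 1), (5, 3), (5, 6), (6, 1), (6, 5), (7, 3)]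
    mix := [(0, 0), (0, 1), (0, 2), (1, 0), (1, 2), (2, 2), (2, 3), (3, 3), (3, 4), (3, 5), (3, 6), (4,
      4), (4, 5), (4, 7), (5, 6), (6, 0), (6, 6), (6, 7), (6, 8), (7, 5), (7, 6), (7, 8)]
    cl := [0, 6, 2, 1, 3, 1, 0, 4, 5]
    chq := [(0, 1), (0, 2), (1, 0), (2, 0)]
    rng := [(0, 1), (0, 7), (1, 0), (1, 2), (2, 1), (2, 3), (3, 2), (3, 4), (4, 3), (4, 7), (5, 7), (5,
      8), (6, 8), (7, 0), (7, 4), (7, 5), (7, 8), (8, 5), (8, 6), (8, 7)]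
    lev := [] }
  links := [[1, 8, 9, 10], [8, 0, 10, 2, 3, 5, 6], [3, 1, 10, 11], [5, 1, 2, 11, 12, 4, 13, 7, 14], [13,
    3, 12, 15], [6, 1, 3, 14], [8, 1, 5, 14, 16, 15], [14, 3, 13, 16]]
  P := {
    a := 8
    N := 17
    nb := [1794, 1389, 3082, 30902, 45064, 16458, 114978, 90120, 33347, 1281, 2567, 5132, 34840,
      98456, 65768, 78160, 57536]
    tri := [(0, 1, 8), (0, 1, 10), (0, 8, 9), (0, 9, 10), (1, 2, 3), (1, 2, 10), (1, 3, 5), (1, 5, 6),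
      (1, 6, 8), (2, 3, 11), (2, 10, 11), (3, 4, 12), (3, 4, 13), (3, 5, 14), (3, 7, 13), (3, 7,
      14), (3, 11, 12), (4, 12, 15), (4, 13, 15), (5, 6, 14), (6, 8, 15), (6, 14, 16), (6, 15,
      16), (7, 13, 16), (7, 14, 16)]
    fin := [0, 0, 0, 3, 3, 0, 0, 0, 0, 9, 10, 3, 12, 3, 0, 15, 16]
    chd := [(0, 3), (0, 10)]
    steps := [(0, 1), (0, 2), (0, 5), (0, 6), (0, 8), (0, 14), (0, 7), (3, 4), (3, 11), (3, 13)] }
  rep := [0, 3, 10, 12, 15, 16, 9]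

noncomputable def v3454 : Cov.CovD where
  P := 3
  N := 4
  pl := [1, 4, 7, 8]
  lev := [⟨[], [], [(0, 2)], [6], [(0, 0, [1, 2]), (2, 2, [0])]⟩,
    ⟨[], [(0, 0), (0, 2)], [(0, 2)], [], [(0, 0, [1, 2]), (2, 2, [0])]⟩,
    ⟨[(0, 1)], [(0, 2), (1, 0), (1, 1), (1, 2)], [(1, 2)], [], [(2, 2, [0]), (3, 1, [0])]⟩,
    ⟨[(0, 1), (1, 2)], [(1, 0), (1, 1), (1, 2), (2, 0), (2, 1), (2, 2)], [(0, 1), (1, 1)],
      [3], [(3, 1, [0]), (5, 1, [0]), (6, 0, [1, 2])]⟩,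
    ⟨[(1, 3), (2, 3)], [(3, 0), (3, 1)], [], [3, 4], [(5, 1, [0])]⟩,
    ⟨[(0, 1), (1, 2), (1, 3), (2, 3), (3, 4)], [(1, 0), (1, 2), (3, 0), (3, 1)], [], [],
      [(6, 0, [1, 2])]⟩,
    ⟨[(0, 1), (1, 2), (1, 3), (1, 5), (3, 5)], [(0, 0), (1, 0), (1, 2), (3, 0), (5, 0)],
      [(0, 0)], [4, 5], [(0, 0, [1, 2]), (6, 0, [1, 2])]⟩,
    ⟨[(1, 3), (2, 3), (3, 4), (3, 5)], [(3, 0), (3, 1), (4, 1), (5, 0), (6, 0)], [(0, 1)],
      [5], [(5, 1, [0]), (6, 0, [1, 2])]⟩]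
  Ta := [((0, 1), 0, 6), ((0, 7), 0, 4), ((3, 2), 1, 2), ((3, 4), 1, 3), ((5, 7), 1, 4), ((5, 8),
    1, 5), ((6, 8), 0, 5)]
  Tb := [((0, 1, 7), 0, 6, 4), ((1, 0, 2), 6, 0, 2), ((2, 1, 3), 2, 6, 1), ((3, 2, 4), 1, 2, 3),
    ((4, 3, 7), 3, 1, 4), ((5, 7, 8), 1, 4, 5), ((7, 0, 4), 4, 0, 3), ((7, 0, 5), 4, 0, 1),
    ((7, 0, 8), 4, 0, 5), ((7, 4, 5), 4, 3, 1), ((7, 4, 8), 4, 3, 5), ((7, 5, 8), 4, 1, 5),
    ((8, 5, 6), 5, 1, 0), ((8, 5, 7), 5, 1, 4), ((8, 6, 7), 5, 0, 4)]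
  Tc := [(0, 1, 2)]
  Td := [((0, 1), (0, 1), 6), ((0, 1), (0, 7), 4), ((0, 1), (6, 8), 5), ((0, 2), (0, 1), 6), ((0,
    2), (0, 7), 4), ((0, 2), (6, 8), 5), ((1, 0), (3, 2), 2), ((1, 0), (3, 4), 3), ((1, 0),
    (5, 7), 4), ((1, 0), (5, 8), 5), ((2, 0), (2, 1), 6), ((2, 0), (2, 3), 1)]
  G := [[0, 0x441182a8184c2231e141, 0x12222281c8422111222c18a, 0x12821282c1412421222c48c,
    0x22122491282c12224122cc222588a], [0, 0x8a2e21842e416481,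
    0x14a411689116884a15c1244241114e211688162d81a81c34a, 0,
    0x11a4486198214a11a85c1211641421116884a1dc211c4881aa], [0, 0x842e212284ca16181,
    0x22411282c8212421281c48a, 0x2241c282c181, 0x2241c282c121], [0, 0x4261182a2184c11e481,
    0x14a28814111e41116884a15c82124431884a2186812883d458e, 0,
    0x442444584a88284284cadc8ca418921]]

noncomputable def n3454 : Ent := ⟨e3454, noF, [], [], []⟩

def c3454 : PLift (Cov.check n3454.C.D v3454 = true) := ⟨by decide +kernel⟩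

def b3454 : PLift (entF (fidx ts) 400 3454 n3454 = true) := ⟨by decide +kernel⟩

theorem g3454 : GoodF (fidx ts) 400 3454 := GoodF.ofV v3454 n3454 c3454.down b3454.down

/-- 47494464:2624/3 -/
noncomputable def e3455 : SCfg where
  D := {
    a := 8
    L := 10
    kp := 7
    inn := [(0, 1), (1, 0), (1, 2), (1, 3), (1, 5), (1, 6), (2, 1), (2, 3), (3, 1), (3, 2), (3, 4), (3,
      5), (3, 7), (4, 3), (5, 1), (5, 3), (5, 6), (6, 1), (6, 5), (7, 3)]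
    mix := [(0, 0), (0, 1), (0, 2), (1, 0), (1, 2), (2, 2), (2, 3), (3, 3), (3, 4), (3, 5), (3, 6), (4,
      4), (4, 5), (4, 7), (5, 6), (6, 0), (6, 6), (6, 7), (6, 8), (7, 5), (7, 6), (7, 9)]
    cl := [0, 5, 2, 1, 3, 1, 0, 4, 6, 7]
    chq := [(0, 1), (0, 2), (1, 0), (2, 0)]
    rng := [(0, 1), (0, 7), (1, 0), (1, 2), (2, 1), (2, 3), (3, 2), (3, 4), (4, 3), (4, 7), (5, 7), (5,
      9), (6, 8), (6, 9), (7, 0), (7, 4), (7, 5), (7, 8), (8, 6), (8, 7), (9, 5), (9, 6)]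
    lev := [] }
  links := [[1, 8, 9, 10], [8, 0, 10, 2, 3, 5, 6], [3, 1, 10, 11], [5, 1, 2, 11, 12, 4, 13, 7, 14], [13,
    3, 12, 15], [6, 1, 3, 14], [8, 1, 5, 14, 16, 15], [14, 3, 13, 17]]
  P := {
    a := 8
    N := 18
    nb := [1794, 1389, 3082, 30902, 45064, 16458, 114978, 155656, 33347, 1281, 2567, 5132, 34840,
      163992, 196840, 78160, 49216, 24704]
    tri := [(0, 1, 8), (0, 1, 10), (0, 8, 9), (0, 9, 10), (1, 2, 3), (1, 2, 10), (1, 3, 5), (1, 5, 6),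
      (1, 6, 8), (2, 3, 11), (2, 10, 11), (3, 4, 12), (3, 4, 13), (3, 5, 14), (3, 7, 13), (3, 7,
      14), (3, 11, 12), (4, 12, 15), (4, 13, 15), (5, 6, 14), (6, 8, 15), (6, 14, 16), (6, 15,
      16), (7, 13, 17), (7, 14, 17)]
    fin := [0, 0, 0, 3, 3, 0, 0, 0, 0, 9, 10, 3, 12, 3, 0, 15, 16, 17]
    chd := [(0, 3), (0, 10)]
    steps := [(0, 1), (0, 2), (0, 5), (0, 6), (0, 8), (0, 14), (0, 7), (3, 4), (3, 11), (3, 13)] }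
  rep := [0, 3, 10, 12, 15, 9, 16, 17]

noncomputable def v3455 : Cov.CovD where
  P := 3
  N := 5
  pl := [1, 4, 7, 8, 9]
  lev := [⟨[], [], [(0, 2)], [5], [(0, 0, [1, 2]), (2, 2, [0])]⟩,
    ⟨[], [(0, 0), (0, 2)], [(0, 2)], [], [(0, 0, [1, 2]), (2, 2, [0])]⟩,
    ⟨[(0, 1)], [(0, 2), (1, 0), (1, 1), (1, 2)], [(1, 2)], [], [(2, 2, [0]), (3, 1, [0])]⟩,
    ⟨[(0, 1), (1, 2)], [(1, 0), (1, 1), (1, 2), (2, 0), (2, 1), (2, 2)], [(0, 1), (1, 1)],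
      [3], [(3, 1, [0]), (5, 1, [0]), (6, 0, [1, 2])]⟩,
    ⟨[(1, 3), (2, 3)], [(3, 0), (3, 1)], [], [3, 4], [(5, 1, [0])]⟩,
    ⟨[(0, 1), (1, 2), (1, 3), (2, 3), (3, 4)], [(1, 0), (1, 2), (3, 0), (3, 1)], [], [],
      [(6, 0, [1, 2])]⟩,
    ⟨[(0, 1), (1, 2), (1, 3), (1, 5), (3, 5)], [(0, 0), (1, 0), (1, 2), (3, 0), (5, 0)],
      [(0, 0)], [4, 6], [(0, 0, [1, 2]), (6, 0, [1, 2])]⟩,
    ⟨[(1, 3), (2, 3), (3, 4), (3, 5)], [(3, 0), (3, 1), (4, 1), (5, 0), (6, 0)], [(0, 1)],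
      [7], [(5, 1, [0]), (6, 0, [1, 2])]⟩]
  Ta := [((0, 1), 0, 5), ((0, 7), 0, 4), ((3, 2), 1, 2), ((3, 4), 1, 3), ((5, 7), 1, 4), ((5, 9),
    1, 7), ((6, 8), 0, 6), ((6, 9), 0, 7)]
  Tb := [((0, 1, 7), 0, 5, 4), ((1, 0, 2), 5, 0, 2), ((2, 1, 3), 2, 5, 1), ((3, 2, 4), 1, 2, 3),
    ((4, 3, 7), 3, 1, 4), ((5, 7, 9), 1, 4, 7), ((6, 8, 9), 0, 6, 7), ((7, 0, 4), 4, 0, 3),
    ((7, 0, 5), 4, 0, 1), ((7, 0, 8), 4, 0, 6), ((7, 4, 5), 4, 3, 1), ((7, 4, 8), 4, 3, 6),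
    ((7, 5, 8), 4, 1, 6), ((8, 6, 7), 6, 0, 4), ((9, 5, 6), 7, 1, 0)]
  Tc := [(0, 1, 2)]
  Td := [((0, 1), (0, 1), 5), ((0, 1), (0, 7), 4), ((0, 1), (6, 8), 6), ((0, 1), (6, 9), 7), ((0,
    2), (0, 1), 5), ((0, 2), (0, 7), 4), ((0, 2), (6, 8), 6), ((0, 2), (6, 9), 7), ((1, 0),
    (3, 2), 2), ((1, 0), (3, 4), 3), ((1, 0), (5, 7), 4), ((1, 0), (5, 9), 7), ((2, 0), (2,
    1), 5), ((2, 0), (2, 3), 1)]
  G := [[0, 0xc6aa451a2ccca1a141, 0x122e4114811a46c12116422222c91c4281881a6,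
    0x111e2211a822484d84121462414211822c911a2288cc,
    0x11c22268924211a46c12116421421842217c1281881aa], [0, 0xaaae116aae416481,
    0x11a4116891214a11a45c1211a4116891214a11a45c12c, 0,
    0x11a41164911681218a5c121164112411621218adc111c4881aa], [0, 0x666a8c1c66a8c16181,
    0x11618a2222e81c421164111618a22848d486, 0x242441ccce2222a81c1c1,
    0x28242c86ca24822a85c121], [0, 0x66641aaae21c821e481,
    0x12186116891214a11a85c12116244811a21168911a21c1c6, 0,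
    0x44a444648cce4d88a48284a44ce88cdc121]]

noncomputable def n3455 : Ent := ⟨e3455, noF, [], [], [(17, 16, [7334685537875745012586738086077695515070955365108989538292687707824129, 0])]⟩

def c3455 : PLift (Cov.check n3455.C.D v3455 = true) := ⟨by decide +kernel⟩

def b3455 : PLift (entF (fidx ts) 400 3455 n3455 = true) := ⟨by decide +kernel⟩

theorem g3455 : GoodF (fidx ts) 400 3455 := GoodF.ofV v3455 n3455 c3455.down b3455.down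

/-- 47494464:2624/5 -/
noncomputable def e3456 : SCfg where
  D := {
    a := 8
    L := 10
    kp := 8
    inn := [(0, 1), (1, 0), (1, 2), (1, 3), (1, 5), (1, 6), (2, 1), (2, 3), (3, 1), (3, 2), (3, 4), (3,
      5), (3, 7), (4, 3), (5, 1), (5, 3), (5, 6), (6, 1), (6, 5), (7, 3)]
    mix := [(0, 0), (0, 1), (0, 2), (1, 0), (1, 2), (2, 2), (2, 3), (3, 3), (3, 4), (3, 5), (3, 6), (4,
      4), (4, 5), (4, 7), (5, 6), (6, 0), (6, 6), (6, 8), (6, 9), (7, 5), (7, 6), (7, 8)]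
    cl := [2, 8, 1, 0, 5, 3, 0, 6, 4, 7]
    chq := [(0, 3), (0, 6), (1, 2), (1, 4), (1, 7), (2, 1), (3, 0), (4, 1), (6, 0), (7, 1)]
    rng := [(0, 1), (0, 9), (1, 0), (1, 2), (2, 1), (2, 3), (3, 2), (3, 4), (4, 3), (4, 7), (5, 7), (5,
      8), (6, 8), (7, 4), (7, 5), (8, 5), (8, 6), (8, 9), (9, 0), (9, 8)]
    lev := [] }
  links := [[1, 8, 9, 10], [8, 0, 10, 2, 3, 5, 6], [3, 1, 10, 11], [5, 1, 2, 11, 12, 4, 13, 7, 14], [13,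
    3, 12, 15], [6, 1, 3, 14], [8, 1, 5, 14, 16, 17], [14, 3, 13, 16]]
  P := {
    a := 8
    N := 18
    nb := [1794, 1389, 3082, 30902, 45064, 16458, 213282, 90120, 131651, 1281, 2567, 5132, 34840,
      98456, 65768, 12304, 155840, 65856]
    tri := [(0, 1, 8), (0, 1, 10), (0, 8, 9), (0, 9, 10), (1, 2, 3), (1, 2, 10), (1, 3, 5), (1, 5, 6),
      (1, 6, 8), (2, 3, 11), (2, 10, 11), (3, 4, 12), (3, 4, 13), (3, 5, 14), (3, 7, 13), (3, 7,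
      14), (3, 11, 12), (4, 12, 15), (4, 13, 15), (5, 6, 14), (6, 8, 17), (6, 14, 16), (6, 16,
      17), (7, 13, 16), (7, 14, 16)]
    fin := [0, 1, 1, 3, 3, 1, 1, 3, 0, 9, 1, 3, 12, 13, 3, 15, 16, 17]
    chd := [(0, 1), (1, 16), (1, 17), (3, 13), (3, 15)]
    steps := [(0, 8), (1, 2), (1, 5), (1, 6), (1, 10), (3, 4), (3, 7), (3, 11), (3, 14)] }
  rep := [3, 1, 0, 13, 16, 12, 15, 17, 9]

noncomputable def v3456 : Cov.CovD where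
  P := 3
  N := 6
  pl := [1, 4]
  lev := [⟨[], [], [(1, 2)], [8], [(0, 2, [1]), (2, 1, [2, 4, 7])]⟩,
    ⟨[], [(0, 1), (0, 2)], [(1, 2)], [], [(0, 2, [1]), (2, 1, [2, 4, 7])]⟩,
    ⟨[(0, 1)], [(0, 1), (1, 0), (1, 1), (1, 2)], [(0, 1)], [], [(2, 1, [2, 4, 7]), (3, 0,
      [3, 6])]⟩,
    ⟨[(0, 1), (1, 2)], [(1, 0), (1, 1), (1, 2), (1, 3), (2, 0), (2, 1), (2, 3)], [(0, 0),
      (0, 3)], [5], [(3, 0, [3, 6]), (5, 3, [0]), (6, 0, [3, 6])]⟩,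
    ⟨[(1, 3), (2, 3)], [(3, 0), (3, 3), (3, 6)], [(3, 6)], [5], [(5, 3, [0]), (7, 6, [0])]⟩,
    ⟨[(0, 1), (1, 2), (1, 3), (2, 3), (3, 4)], [(1, 0), (1, 1), (1, 2), (3, 0), (3, 3)],
      [], [], [(6, 0, [3, 6])]⟩,
    ⟨[(0, 1), (1, 2), (1, 3), (1, 5), (3, 5)], [(0, 2), (1, 0), (1, 1), (1, 2), (1, 4), (1,
      7), (3, 0), (5, 0), (5, 2), (5, 4), (5, 7)], [(0, 2), (0, 4), (0, 7), (2, 4), (2, 7),
      (4, 7)], [], [(0, 2, [1]), (6, 0, [3, 6]), (8, 4, [1]), (9, 7, [1])]⟩,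
    ⟨[(1, 3), (2, 3), (3, 4), (3, 5)], [(3, 0), (3, 3), (3, 4), (4, 3), (5, 0), (6, 0), (6,
      4)], [(0, 3), (0, 4), (3, 4)], [], [(5, 3, [0]), (6, 0, [3, 6]), (8, 4, [1])]⟩]
  Ta := [((3, 2), 0, 1), ((3, 4), 0, 5), ((6, 8), 0, 4)]
  Tb := [((0, 1, 9), 2, 8, 7), ((1, 0, 2), 8, 2, 1), ((2, 1, 3), 1, 8, 0), ((3, 2, 4), 0, 1, 5),
    ((4, 3, 7), 5, 0, 6), ((5, 7, 8), 3, 6, 4), ((7, 4, 5), 6, 5, 3), ((8, 5, 6), 4, 3, 0),
    ((8, 5, 9), 4, 3, 7), ((8, 6, 9), 4, 0, 7), ((9, 0, 8), 7, 2, 4)]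
  Tc := [(0, 3, 6), (1, 2, 4), (1, 2, 7), (1, 4, 7)]
  Td := [((0, 3), (3, 2), 1), ((0, 3), (3, 4), 5), ((0, 3), (6, 8), 4), ((0, 6), (3, 2), 1), ((0,
    6), (3, 4), 5), ((0, 6), (6, 8), 4), ((1, 2), (2, 1), 8), ((1, 2), (2, 3), 0), ((1, 4),
    (2, 1), 8), ((1, 4), (2, 3), 0), ((1, 7), (2, 1), 8), ((1, 7), (2, 3), 0), ((2, 1), (0,
    1), 8), ((2, 1), (0, 9), 7), ((3, 0), (5, 7), 6), ((3, 0), (5, 8), 4), ((4, 1), (8, 5),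
    3), ((4, 1), (8, 6), 0), ((4, 1), (8, 9), 7), ((6, 0), (7, 4), 5), ((6, 0), (7, 5), 3),
    ((7, 1), (9, 0), 2), ((7, 1), (9, 8), 4)]
  G := [[0, 0xe12142e121e181a4ce121e141621418cc12182cc,
    0x128928941285285128128128e21fac412412451289289128124124328fe4421188cc,
    0x1282283212432891281c6128448512832851242243612412898a1c,
    0x1289245124e243612452898c112832454124b2491249283ac19], [0, 0,
    0x4462141e2412aa81e241e1c26641e281e281e188a2181cc,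
    0xe24122812281ec2814614281416282c18a281228163c5, 0xe2814e241e241ac1e2814e241e281ac19]]

noncomputable def n3456 : Ent := ⟨e3456, noF, [], [], [(9, 15, [7334790850167413569773436004105379185503274260204390087403942018793473, 0]), (15, 17, [6903326391201334775872065844685381424292761054348340378595029943836673, 0])]⟩

def c3456 : PLift (Cov.check n3456.C.D v3456 = true) := ⟨by decide +kernel⟩

def b3456 : PLift (entF (fidx ts) 400 3456 n3456 = true) := ⟨by decide +kernel⟩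

theorem g3456 : GoodF (fidx ts) 400 3456 := GoodF.ofV v3456 n3456 c3456.down b3456.down

/-- 47494464:2624 -/
noncomputable def e3457 : SCfg where
  D := {
    a := 8
    L := 11
    kp := 9
    inn := [(0, 1), (1, 0), (1, 2), (1, 3), (1, 5), (1, 6), (2, 1), (2, 3), (3, 1), (3, 2), (3, 4), (3,
      5), (3, 7), (4, 3), (5, 1), (5, 3), (5, 6), (6, 1), (6, 5), (7, 3)]
    mix := [(0, 0), (0, 1), (0, 2), (1, 0), (1, 2), (2, 2), (2, 3), (3, 3), (3, 4), (3, 5), (3, 6), (4,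
      4), (4, 5), (4, 7), (5, 6), (6, 0), (6, 6), (6, 8), (6, 9), (7, 5), (7, 6), (7, 10)]
    cl := [2, 8, 1, 0, 4, 3, 0, 5, 6, 7, 9]
    chq := [(0, 3), (0, 5), (1, 2), (1, 6), (1, 7), (2, 1), (3, 0), (5, 0), (6, 1), (7, 1)]
    rng := [(0, 1), (0, 9), (1, 0), (1, 2), (2, 1), (2, 3), (3, 2), (3, 4), (4, 3), (4, 7), (5, 7), (5,
      10), (6, 8), (6, 10), (7, 4), (7, 5), (8, 6), (8, 9), (9, 0), (9, 8), (10, 5), (10, 6)]
    lev := [] }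
  links := [[1, 8, 9, 10], [8, 0, 10, 2, 3, 5, 6], [3, 1, 10, 11], [5, 1, 2, 11, 12, 4, 13, 7, 14], [13,
    3, 12, 15], [6, 1, 3, 14], [8, 1, 5, 14, 16, 17], [14, 3, 13, 18]]
  P := {
    a := 8
    N := 19
    nb := [1794, 1389, 3082, 30902, 45064, 16458, 213282, 286728, 131651, 1281, 2567, 5132, 34840,
      295064, 327912, 12304, 147520, 65856, 24704]
    tri := [(0, 1, 8), (0, 1, 10), (0, 8, 9), (0, 9, 10), (1, 2, 3), (1, 2, 10), (1, 3, 5), (1, 5, 6),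
      (1, 6, 8), (2, 3, 11), (2, 10, 11), (3, 4, 12), (3, 4, 13), (3, 5, 14), (3, 7, 13), (3, 7,
      14), (3, 11, 12), (4, 12, 15), (4, 13, 15), (5, 6, 14), (6, 8, 17), (6, 14, 16), (6, 16,
      17), (7, 13, 18), (7, 14, 18)]
    fin := [0, 1, 1, 3, 3, 1, 1, 3, 0, 9, 1, 3, 12, 13, 3, 15, 16, 17, 18]
    chd := [(0, 1), (1, 16), (1, 17), (3, 13), (3, 15)]
    steps := [(0, 8), (1, 2), (1, 5), (1, 6), (1, 10), (3, 4), (3, 7), (3, 11), (3, 14)] }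
  rep := [3, 1, 0, 13, 12, 15, 16, 17, 9, 18]

noncomputable def v3457 : Cov.CovD where
  P := 3
  N := 7
  pl := [1, 4, 10]
  lev := [⟨[], [], [(1, 2)], [8], [(0, 2, [1]), (2, 1, [2, 6, 7])]⟩,
    ⟨[], [(0, 1), (0, 2)], [(1, 2)], [], [(0, 2, [1]), (2, 1, [2, 6, 7])]⟩,
    ⟨[(0, 1)], [(0, 1), (1, 0), (1, 1), (1, 2)], [(0, 1)], [], [(2, 1, [2, 6, 7]), (3, 0,
      [3, 5])]⟩,
    ⟨[(0, 1), (1, 2)], [(1, 0), (1, 1), (1, 2), (1, 3), (2, 0), (2, 1), (2, 3)], [(0, 0),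
      (0, 3)], [4], [(3, 0, [3, 5]), (5, 3, [0]), (6, 0, [3, 5])]⟩,
    ⟨[(1, 3), (2, 3)], [(3, 0), (3, 3), (3, 5)], [(3, 5)], [4], [(5, 3, [0]), (7, 5, [0])]⟩,
    ⟨[(0, 1), (1, 2), (1, 3), (2, 3), (3, 4)], [(1, 0), (1, 1), (1, 2), (3, 0), (3, 3)],
      [], [], [(6, 0, [3, 5])]⟩,
    ⟨[(0, 1), (1, 2), (1, 3), (1, 5), (3, 5)], [(0, 2), (1, 0), (1, 1), (1, 2), (1, 6), (1,
      7), (3, 0), (5, 0), (5, 2), (5, 6), (5, 7)], [(0, 2), (0, 6), (0, 7), (2, 6), (2, 7),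
      (6, 7)], [], [(0, 2, [1]), (6, 0, [3, 5]), (8, 6, [1]), (9, 7, [1])]⟩,
    ⟨[(1, 3), (2, 3), (3, 4), (3, 5)], [(3, 0), (3, 3), (4, 3), (5, 0), (6, 0)], [(0, 3)],
      [9], [(5, 3, [0]), (6, 0, [3, 5])]⟩]
  Ta := [((3, 2), 0, 1), ((3, 4), 0, 4), ((6, 8), 0, 6), ((6, 10), 0, 9)]
  Tb := [((0, 1, 9), 2, 8, 7), ((1, 0, 2), 8, 2, 1), ((2, 1, 3), 1, 8, 0), ((3, 2, 4), 0, 1, 4),
    ((4, 3, 7), 4, 0, 5), ((5, 7, 10), 3, 5, 9), ((6, 8, 10), 0, 6, 9), ((7, 4, 5), 5, 4, 3),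
    ((8, 6, 9), 6, 0, 7), ((9, 0, 8), 7, 2, 6), ((10, 5, 6), 9, 3, 0)]
  Tc := [(0, 3, 5), (1, 2, 6), (1, 2, 7), (1, 6, 7)]
  Td := [((0, 3), (3, 2), 1), ((0, 3), (3, 4), 4), ((0, 3), (6, 8), 6), ((0, 3), (6, 10), 9),
    ((0, 5), (3, 2), 1), ((0, 5), (3, 4), 4), ((0, 5), (6, 8), 6), ((0, 5), (6, 10), 9), ((1,
    2), (2, 1), 8), ((1, 2), (2, 3), 0), ((1, 6), (2, 1), 8), ((1, 6), (2, 3), 0), ((1, 7),
    (2, 1), 8), ((1, 7), (2, 3), 0), ((2, 1), (0, 1), 8), ((2, 1), (0, 9), 7), ((3, 0), (5,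
    7), 5), ((3, 0), (5, 10), 9), ((5, 0), (7, 4), 4), ((5, 0), (7, 5), 3), ((6, 1), (8, 6),
    0), ((6, 1), (8, 9), 7), ((7, 1), (9, 0), 2), ((7, 1), (9, 8), 6)]
  G := [[0, 0xe12142e121e181a4ce12148e1812e1218acc,
    0x9281411a2128328d128128e217a14288e4124122e21d124124924b63241812844e8c,
    0x324112852851289243e12488c19281245425243283252432498ac5,
    0x12841289243612452893281cc15241124128328d124128924be819], [0, 0,
    0xa24466141e241e281a1488148ee281416282a1e281a1c8241814e,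
    0xe281244e2412e241e281c61e241e281c21d, 0xe281e2816e2418c1e281e2416e2418c19]]

noncomputable def n3457 : Ent := ⟨e3457, noF, [], [], [(9, 15, [31810581956861085346069128449376638664080213418021345636276315565302730753, 0]), (15, 17, [31810150492402119267275227079217218666319002904815489586567506653227773953, 0]), (18, 16, [30044166145917083758165358922957084778673075396561391926765295767463133185, 0])]⟩

def c3457 : PLift (Cov.check n3457.C.D v3457 = true) := ⟨by decide +kernel⟩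

def b3457 : PLift (entF (fidx ts) 400 3457 n3457 = true) := ⟨by decide +kernel⟩

theorem g3457 : GoodF (fidx ts) 400 3457 := GoodF.ofV v3457 n3457 c3457.down b3457.down

/-- 47467444:2628/2 -/
noncomputable def e3458 : SCfg where
  D := {
    a := 8
    L := 9
    kp := 6
    inn := [(0, 1), (1, 0), (1, 2), (1, 3), (1, 7), (2, 1), (2, 3), (3, 1), (3, 2), (3, 4), (4, 3), (4,
      5), (4, 6), (5, 4), (6, 4), (7, 1)]
    mix := [(0, 0), (0, 1), (0, 2), (1, 0), (1, 2), (1, 3), (2, 2), (2, 4), (3, 3), (3, 4), (3, 5), (4,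
      4), (4, 5), (4, 6), (4, 7), (5, 1), (5, 4), (5, 6), (6, 5), (6, 7), (6, 8), (7, 0), (7, 3),
      (7, 8)]
    cl := [3, 2, 4, 0, 0, 1, 1, 5, 6]
    chq := [(0, 3), (3, 0), (3, 4), (4, 3)]
    rng := [(0, 1), (0, 8), (1, 0), (1, 2), (1, 4), (1, 6), (2, 1), (2, 4), (3, 5), (3, 8), (4, 1), (4,
      2), (5, 3), (5, 8), (6, 1), (6, 7), (7, 6), (7, 8), (8, 0), (8, 3), (8, 5), (8, 7)]
    lev := [] }
  links := [[1, 8, 9, 10], [8, 0, 10, 2, 3, 11, 7], [3, 1, 10, 12], [11, 1, 2, 12, 4, 13], [13, 3, 12, 5,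
    14, 15, 6], [14, 4, 12, 9], [13, 4, 15, 16], [8, 1, 11, 16]]
  P := {
    a := 8
    N := 17
    nb := [1794, 3469, 5130, 14358, 61544, 21008, 106512, 67842, 66179, 21793, 4615, 73866, 1596,
      67672, 33328, 82000, 43456]
    tri := [(0, 1, 8), (0, 1, 10), (0, 8, 9), (0, 9, 10), (1, 2, 3), (1, 2, 10), (1, 3, 11), (1, 7, 8),
      (1, 7, 11), (2, 3, 12), (2, 10, 12), (3, 4, 12), (3, 4, 13), (3, 11, 13), (4, 5, 12), (4, 5,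
      14), (4, 6, 13), (4, 6, 15), (4, 14, 15), (5, 9, 12), (5, 9, 14), (6, 13, 16), (6, 15, 16),
      (7, 8, 16), (7, 11, 16)]
    fin := [0, 0, 0, 3, 4, 5, 4, 0, 0, 5, 10, 3, 3, 4, 4, 15, 16]
    chd := [(0, 3), (0, 10)]
    steps := [(0, 1), (0, 2), (0, 7), (0, 8), (3, 12), (3, 11), (4, 6), (4, 14), (4, 13), (5, 9)] }
  rep := [3, 4, 5, 0, 10, 15, 16]

noncomputable def v3458 : Cov.CovD where
  P := 3
  N := 4
  pl := [1, 7, 8]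
  lev := [⟨[], [], [(3, 4)], [2], [(0, 3, [0, 4]), (2, 4, [3])]⟩,
    ⟨[], [(0, 0), (0, 3), (0, 4)], [(0, 3), (0, 4), (3, 4)], [], [(0, 3, [0, 4]), (2, 4,
      [3]), (3, 0, [3])]⟩,
    ⟨[(0, 1)], [(0, 4), (1, 0), (1, 3), (1, 4)], [(0, 4)], [], [(2, 4, [3]), (4, 0, [3])]⟩,
    ⟨[(0, 1), (1, 2)], [(1, 0), (1, 1), (1, 3), (1, 4), (2, 0), (2, 1), (2, 4)], [(0, 0),
      (0, 1)], [], [(3, 0, [3]), (4, 0, [3]), (5, 1, [])]⟩,
    ⟨[(1, 3), (2, 3)], [(2, 0), (3, 0), (3, 1)], [(0, 1), (1, 1)], [5], [(4, 0, [3]), (5,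
      1, []), (6, 1, [])]⟩,
    ⟨[(3, 4)], [(2, 0), (3, 0), (4, 0), (4, 1)], [(0, 1)], [2], [(4, 0, [3]), (6, 1, [])]⟩,
    ⟨[(3, 4), (4, 5)], [(3, 1), (4, 0), (4, 1)], [], [5, 6], [(5, 1, [])]⟩,
    ⟨[(0, 1), (1, 2), (1, 3)], [(0, 3), (1, 0), (1, 3), (1, 4), (3, 0)], [(0, 3)], [6],
      [(0, 3, [0, 4]), (3, 0, [3])]⟩]
  Ta := [((3, 5), 0, 1), ((3, 8), 0, 6), ((4, 1), 0, 2), ((4, 2), 0, 4), ((5, 3), 1, 0), ((5, 8),
    1, 6), ((6, 1), 1, 2), ((6, 7), 1, 5)]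
  Tb := [((0, 1, 8), 3, 2, 6), ((1, 0, 2), 2, 3, 4), ((1, 0, 4), 2, 3, 0), ((1, 0, 6), 2, 3, 1),
    ((1, 2, 4), 2, 4, 0), ((1, 2, 6), 2, 4, 1), ((1, 4, 6), 2, 0, 1), ((2, 1, 4), 4, 2, 0),
    ((3, 5, 8), 0, 1, 6), ((4, 1, 2), 0, 2, 4), ((5, 3, 8), 1, 0, 6), ((6, 1, 7), 1, 2, 5),
    ((7, 6, 8), 5, 1, 6), ((8, 0, 3), 6, 3, 0), ((8, 0, 5), 6, 3, 1), ((8, 0, 7), 6, 3, 5),
    ((8, 3, 5), 6, 0, 1), ((8, 3, 7), 6, 0, 5), ((8, 5, 7), 6, 1, 5)]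
  Tc := [(3, 0, 4)]
  Td := [((0, 3), (3, 5), 1), ((0, 3), (3, 8), 6), ((0, 3), (4, 1), 2), ((0, 3), (4, 2), 4), ((3,
    0), (0, 1), 2), ((3, 0), (0, 8), 6), ((3, 4), (0, 1), 2), ((3, 4), (0, 8), 6), ((4, 3),
    (2, 1), 2), ((4, 3), (2, 4), 0)]
  G := [[0, 0x648428848e68a49a4c84ea8681e2c4c264a41e1, 0, 0,
    0x64848692818cc14124a52ca828c1612e258ca828c1e1], [0, 0, 0, 0x228228c4121,
    0x868788638c4182a8184a6846188a5223822a8c41e1], [0, 0,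
    0x11284112846868d84889e12a4ad8c841e22d4e12c421e, 0,
    0x1188445581798c468941d2118c4112148c8c2148484b123bad2c84cb], [0, 0,
    0xe14e28c4811284822244e188c45218228c421e, 0x224228c428124224c82421488124118c462d,
    0x118128c428118128c414841188cc2228218c4832843188a4cb]]

noncomputable def n3458 : Ent := ⟨e3458, noF, [], [], []⟩

def c3458 : PLift (Cov.check n3458.C.D v3458 = true) := ⟨by decide +kernel⟩

def b3458 : PLift (entF (fidx ts) 400 3458 n3458 = true) := ⟨by decide +kernel⟩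

theorem g3458 : GoodF (fidx ts) 400 3458 := GoodF.ofV v3458 n3458 c3458.down b3458.down

/-- 47467444:2628/1 -/
noncomputable def e3459 : SCfg where
  D := {
    a := 8
    L := 10
    kp := 7
    inn := [(0, 1), (1, 0), (1, 2), (1, 3), (1, 7), (2, 1), (2, 3), (3, 1), (3, 2), (3, 4), (4, 3), (4,
      5), (4, 6), (5, 4), (6, 4), (7, 1)]
    mix := [(0, 0), (0, 1), (0, 2), (1, 0), (1, 2), (1, 3), (2, 2), (2, 4), (3, 3), (3, 4), (3, 5), (4,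
      4), (4, 5), (4, 6), (4, 7), (5, 1), (5, 4), (5, 6), (6, 5), (6, 7), (6, 8), (7, 0), (7, 3),
      (7, 9)]
    cl := [3, 4, 2, 0, 0, 1, 1, 5, 6, 7]
    chq := [(0, 3), (2, 3), (3, 0), (3, 2)]
    rng := [(0, 1), (0, 9), (1, 0), (1, 2), (1, 4), (1, 6), (2, 1), (2, 4), (3, 5), (3, 9), (4, 1), (4,
      2), (5, 3), (5, 8), (6, 1), (6, 7), (7, 6), (7, 8), (8, 5), (8, 7), (9, 0), (9, 3)]
    lev := [] }
  links := [[1, 8, 9, 10], [8, 0, 10, 2, 3, 11, 7], [3, 1, 10, 12], [11, 1, 2, 12, 4, 13], [13, 3, 12, 5,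
    14, 15, 6], [14, 4, 12, 9], [13, 4, 15, 16], [8, 1, 11, 17]]
  P := {
    a := 8
    N := 18
    nb := [1794, 3469, 5130, 14358, 61544, 21008, 106512, 133378, 131715, 21793, 4615, 139402, 1596,
      67672, 33328, 82000, 41024, 2432]
    tri := [(0, 1, 8), (0, 1, 10), (0, 8, 9), (0, 9, 10), (1, 2, 3), (1, 2, 10), (1, 3, 11), (1, 7, 8),
      (1, 7, 11), (2, 3, 12), (2, 10, 12), (3, 4, 12), (3, 4, 13), (3, 11, 13), (4, 5, 12), (4, 5,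
      14), (4, 6, 13), (4, 6, 15), (4, 14, 15), (5, 9, 12), (5, 9, 14), (6, 13, 16), (6, 15, 16),
      (7, 8, 17), (7, 11, 17)]
    fin := [0, 0, 0, 3, 4, 5, 4, 0, 0, 5, 10, 3, 3, 4, 4, 15, 16, 17]
    chd := [(0, 3), (0, 10)]
    steps := [(0, 1), (0, 2), (0, 7), (0, 8), (3, 12), (3, 11), (4, 6), (4, 14), (4, 13), (5, 9)] }
  rep := [3, 4, 10, 0, 5, 15, 16, 17]

noncomputable def v3459 : Cov.CovD where
  P := 3
  N := 5
  pl := [1, 7, 8, 9]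
  lev := [⟨[], [], [(2, 3)], [4], [(0, 3, [0, 2]), (2, 2, [3])]⟩,
    ⟨[], [(0, 0), (0, 2), (0, 3)], [(0, 2), (0, 3), (2, 3)], [], [(0, 3, [0, 2]), (2, 2,
      [3]), (3, 0, [3])]⟩,
    ⟨[(0, 1)], [(0, 2), (1, 0), (1, 2), (1, 3)], [(0, 2)], [], [(2, 2, [3]), (4, 0, [3])]⟩,
    ⟨[(0, 1), (1, 2)], [(1, 0), (1, 1), (1, 2), (1, 3), (2, 0), (2, 1), (2, 2)], [(0, 0),
      (0, 1)], [], [(3, 0, [3]), (4, 0, [3]), (5, 1, [])]⟩,
    ⟨[(1, 3), (2, 3)], [(2, 0), (3, 0), (3, 1)], [(0, 1), (1, 1)], [5], [(4, 0, [3]), (5,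
      1, []), (6, 1, [])]⟩,
    ⟨[(3, 4)], [(2, 0), (3, 0), (4, 0), (4, 1)], [(0, 1)], [4], [(4, 0, [3]), (6, 1, [])]⟩,
    ⟨[(3, 4), (4, 5)], [(3, 1), (4, 0), (4, 1)], [], [5, 6], [(5, 1, [])]⟩,
    ⟨[(0, 1), (1, 2), (1, 3)], [(0, 3), (1, 0), (1, 2), (1, 3), (3, 0)], [(0, 3)], [7],
      [(0, 3, [0, 2]), (3, 0, [3])]⟩]
  Ta := [((3, 5), 0, 1), ((3, 9), 0, 7), ((4, 1), 0, 4), ((4, 2), 0, 2), ((5, 3), 1, 0), ((5, 8),
    1, 6), ((6, 1), 1, 4), ((6, 7), 1, 5)]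
  Tb := [((0, 1, 9), 3, 4, 7), ((1, 0, 2), 4, 3, 2), ((1, 0, 4), 4, 3, 0), ((1, 0, 6), 4, 3, 1),
    ((1, 2, 4), 4, 2, 0), ((1, 2, 6), 4, 2, 1), ((1, 4, 6), 4, 0, 1), ((2, 1, 4), 2, 4, 0),
    ((3, 5, 9), 0, 1, 7), ((4, 1, 2), 0, 4, 2), ((5, 3, 8), 1, 0, 6), ((6, 1, 7), 1, 4, 5),
    ((7, 6, 8), 5, 1, 6), ((8, 5, 7), 6, 1, 5), ((9, 0, 3), 7, 3, 0)]
  Tc := [(3, 0, 2)]
  Td := [((0, 3), (3, 5), 1), ((0, 3), (3, 9), 7), ((0, 3), (4, 1), 4), ((0, 3), (4, 2), 2), ((2,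
    3), (2, 1), 4), ((2, 3), (2, 4), 0), ((3, 0), (0, 1), 4), ((3, 0), (0, 9), 7), ((3, 2),
    (0, 1), 4), ((3, 2), (0, 9), 7)]
  G := [[0, 0xa2a2c2a8a86a4a4ac616466ca66a62c66848a8c1, 0,
    0x842142424a8ad2a12cc5466d1482522928c412889c1, 0xc4214cccd2c12c436652466928c8a1], [0, 0,
    0, 0xaa91aa51c24621466918a8c1, 0xcc91c21c4266a16631c48a1], [0, 0,
    0x1121158c818284641152411928c281152411928c82e,
    0x1192844aa58488911524886694848571524aa928c41652411928c8cd,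
    0xcc524cc928c215d52455928c823152499928c28b], [0, 0,
    0x113811a8c42811641134c8241212c41117119c8c42e,
    0x328811584648b244bb948a84111b441248c492886d58468cd,
    0x31681538c42812445d9788c82171b441248c26694628c48ab]]

noncomputable def n3459 : Ent := ⟨e3459, noF, [], [], [(16, 17, [6903326391201334775872065844685381424292761054348340378595029943853057, 0])]⟩

def c3459 : PLift (Cov.check n3459.C.D v3459 = true) := ⟨by decide +kernel⟩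

def b3459 : PLift (entF (fidx ts) 400 3459 n3459 = true) := ⟨by decide +kernel⟩

theorem g3459 : GoodF (fidx ts) 400 3459 := GoodF.ofV v3459 n3459 c3459.down b3459.down

/-- 47467444:2628/5 -/
noncomputable def e3460 : SCfg where
  D := {
    a := 8
    L := 8
    kp := 5
    inn := [(0, 1), (1, 0), (1, 2), (1, 3), (1, 7), (2, 1), (2, 3), (3, 1), (3, 2), (3, 4), (4, 3), (4,
      5), (4, 6), (5, 4), (6, 4), (7, 1)]
    mix := [(0, 0), (0, 1), (0, 2), (1, 0), (1, 2), (1, 3), (2, 2), (2, 4), (3, 3), (3, 4), (3, 5), (4,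
      1), (4, 4), (4, 5), (4, 6), (5, 1), (5, 2), (5, 4), (6, 5), (6, 6), (6, 7), (7, 0), (7, 3),
      (7, 7)]
    cl := [3, 1, 2, 0, 0, 1, 4, 5]
    chq := [(0, 3), (2, 3), (3, 0), (3, 2)]
    rng := [(0, 1), (0, 7), (1, 0), (1, 2), (1, 6), (2, 1), (2, 4), (3, 5), (3, 7), (4, 2), (5, 3), (5,
      7), (6, 1), (6, 7), (7, 0), (7, 3), (7, 5), (7, 6)]
    lev := [] }
  links := [[1, 8, 9, 10], [8, 0, 10, 2, 3, 11, 7], [3, 1, 10, 12], [11, 1, 2, 12, 4, 13], [13, 3, 12, 5,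
    9, 14, 6], [9, 4, 12, 10], [13, 4, 14, 15], [8, 1, 11, 15]]
  P := {
    a := 8
    N := 16
    nb := [1794, 3469, 5130, 14358, 29288, 5648, 57360, 35074, 33411, 17713, 4647, 41098, 1084, 34904,
      33360, 27072]
    tri := [(0, 1, 8), (0, 1, 10), (0, 8, 9), (0, 9, 10), (1, 2, 3), (1, 2, 10), (1, 3, 11), (1, 7, 8),
      (1, 7, 11), (2, 3, 12), (2, 10, 12), (3, 4, 12), (3, 4, 13), (3, 11, 13), (4, 5, 9), (4, 5,
      12), (4, 6, 13), (4, 6, 14), (4, 9, 14), (5, 9, 10), (5, 10, 12), (6, 13, 15), (6, 14, 15),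
      (7, 8, 15), (7, 11, 15)]
    fin := [0, 0, 0, 3, 4, 4, 4, 0, 0, 4, 10, 3, 3, 4, 14, 15]
    chd := [(0, 3), (0, 10)]
    steps := [(0, 1), (0, 2), (0, 7), (0, 8), (3, 12), (3, 11), (4, 5), (4, 6), (4, 9), (4, 13)] }
  rep := [3, 4, 10, 0, 14, 15]

noncomputable def v3460 : Cov.CovD where
  P := 3
  N := 3
  pl := [6, 7]
  lev := [⟨[], [], [(1, 2), (1, 3), (2, 3)], [], [(0, 3, [0, 2]), (1, 1, []), (2, 2, [3])]⟩,
    ⟨[], [(0, 0), (0, 1), (0, 2), (0, 3)], [(0, 2), (0, 3), (2, 3)], [], [(0, 3, [0, 2]),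
      (2, 2, [3]), (3, 0, [3])]⟩,
    ⟨[(0, 1)], [(0, 2), (1, 0), (1, 2), (1, 3)], [(0, 2)], [], [(2, 2, [3]), (4, 0, [3])]⟩,
    ⟨[(0, 1), (1, 2)], [(1, 0), (1, 1), (1, 2), (1, 3), (2, 0), (2, 1), (2, 2)], [(0, 0),
      (0, 1)], [], [(3, 0, [3]), (4, 0, [3]), (5, 1, [])]⟩,
    ⟨[(1, 3), (2, 3)], [(0, 1), (2, 0), (3, 0), (3, 1)], [(0, 1), (1, 1)], [4], [(1, 1,
      []), (4, 0, [3]), (5, 1, [])]⟩,
    ⟨[(3, 4)], [(0, 1), (0, 2), (1, 2), (2, 0), (2, 2), (3, 0), (4, 0), (4, 1), (4, 2)],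
      [(0, 1), (0, 2), (1, 2)], [], [(1, 1, []), (2, 2, [3]), (4, 0, [3])]⟩,
    ⟨[(3, 4), (4, 5)], [(3, 1), (4, 0), (4, 1)], [], [4, 5], [(5, 1, [])]⟩,
    ⟨[(0, 1), (1, 2), (1, 3)], [(0, 3), (1, 0), (1, 2), (1, 3), (3, 0)], [(0, 3)], [5],
      [(0, 3, [0, 2]), (3, 0, [3])]⟩]
  Ta := [((1, 0), 1, 3), ((1, 2), 1, 2), ((1, 6), 1, 4), ((3, 5), 0, 1), ((3, 7), 0, 5), ((4, 2),
    0, 2), ((5, 3), 1, 0), ((5, 7), 1, 5)]
  Tb := [((0, 1, 7), 3, 1, 5), ((1, 0, 2), 1, 3, 2), ((1, 0, 6), 1, 3, 4), ((1, 2, 6), 1, 2, 4),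
    ((2, 1, 4), 2, 1, 0), ((3, 5, 7), 0, 1, 5), ((5, 3, 7), 1, 0, 5), ((6, 1, 7), 4, 1, 5),
    ((7, 0, 3), 5, 3, 0), ((7, 0, 5), 5, 3, 1), ((7, 0, 6), 5, 3, 4), ((7, 3, 5), 5, 0, 1),
    ((7, 3, 6), 5, 0, 4), ((7, 5, 6), 5, 1, 4)]
  Tc := [(3, 0, 2)]
  Td := [((0, 3), (3, 5), 1), ((0, 3), (3, 7), 5), ((0, 3), (4, 2), 2), ((2, 3), (2, 1), 1), ((2,
    3), (2, 4), 0), ((3, 0), (0, 1), 1), ((3, 0), (0, 7), 5), ((3, 2), (0, 1), 1), ((3, 2),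
    (0, 7), 5)]
  G := [[0, 0, 0, 0x221224944224224c81c1, 0x84c1c2894222c1228948a1], [0,
    0x82a4a868c2124c842a8681c1, 0, 0, 0x4124252c2828c121], [0, 0, 0x214128c428124118c824c,
    0x218228c48224214c84c1, 0x118328c48218128c48a1], [0, 0, 0x114811d8c84211521198c824c, 0,
    0x46582692c4821]]

noncomputable def n3460 : Ent := ⟨e3460, noF, [], [], []⟩

def c3460 : PLift (Cov.check n3460.C.D v3460 = true) := ⟨by decide +kernel⟩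

def b3460 : PLift (entF (fidx ts) 400 3460 n3460 = true) := ⟨by decide +kernel⟩

theorem g3460 : GoodF (fidx ts) 400 3460 := GoodF.ofV v3460 n3460 c3460.down b3460.down

/-- 47467444:2628/4 -/
noncomputable def e3461 : SCfg where
  D := {
    a := 8
    L := 9
    kp := 6
    inn := [(0, 1), (1, 0), (1, 2), (1, 3), (1, 7), (2, 1), (2, 3), (3, 1), (3, 2), (3, 4), (4, 3), (4,
      5), (4, 6), (5, 4), (6, 4), (7, 1)]
    mix := [(0, 0), (0, 1), (0, 2), (1, 0), (1, 2), (1, 3), (2, 2), (2, 4), (3, 3), (3, 4), (3, 5), (4,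
      1), (4, 4), (4, 5), (4, 6), (5, 1), (5, 2), (5, 4), (6, 5), (6, 6), (6, 7), (7, 0), (7, 3),
      (7, 8)]
    cl := [3, 1, 2, 0, 0, 1, 4, 5, 6]
    chq := [(0, 3), (2, 3), (3, 0), (3, 2)]
    rng := [(0, 1), (0, 8), (1, 0), (1, 2), (1, 6), (2, 1), (2, 4), (3, 5), (3, 8), (4, 2), (5, 3), (5,
      7), (6, 1), (6, 7), (7, 5), (7, 6), (8, 0), (8, 3)]
    lev := [] }
  links := [[1, 8, 9, 10], [8, 0, 10, 2, 3, 11, 7], [3, 1, 10, 12], [11, 1, 2, 12, 4, 13], [13, 3, 12, 5,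
    9, 14, 6], [9, 4, 12, 10], [13, 4, 14, 15], [8, 1, 11, 16]]
  P := {
    a := 8
    N := 17
    nb := [1794, 3469, 5130, 14358, 29288, 5648, 57360, 67842, 66179, 17713, 4647, 73866, 1084, 34904,
      33360, 24640, 2432]
    tri := [(0, 1, 8), (0, 1, 10), (0, 8, 9), (0, 9, 10), (1, 2, 3), (1, 2, 10), (1, 3, 11), (1, 7, 8),
      (1, 7, 11), (2, 3, 12), (2, 10, 12), (3, 4, 12), (3, 4, 13), (3, 11, 13), (4, 5, 9), (4, 5,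
      12), (4, 6, 13), (4, 6, 14), (4, 9, 14), (5, 9, 10), (5, 10, 12), (6, 13, 15), (6, 14, 15),
      (7, 8, 16), (7, 11, 16)]
    fin := [0, 0, 0, 3, 4, 4, 4, 0, 0, 4, 10, 3, 3, 4, 14, 15, 16]
    chd := [(0, 3), (0, 10)]
    steps := [(0, 1), (0, 2), (0, 7), (0, 8), (3, 12), (3, 11), (4, 5), (4, 6), (4, 9), (4, 13)] }
  rep := [3, 4, 10, 0, 14, 15, 16]

noncomputable def v3461 : Cov.CovD where
  P := 3
  N := 4
  pl := [6, 7, 8]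
  lev := [⟨[], [], [(1, 2), (1, 3), (2, 3)], [], [(0, 3, [0, 2]), (1, 1, []), (2, 2, [3])]⟩,
    ⟨[], [(0, 0), (0, 1), (0, 2), (0, 3)], [(0, 2), (0, 3), (2, 3)], [], [(0, 3, [0, 2]),
      (2, 2, [3]), (3, 0, [3])]⟩,
    ⟨[(0, 1)], [(0, 2), (1, 0), (1, 2), (1, 3)], [(0, 2)], [], [(2, 2, [3]), (4, 0, [3])]⟩,
    ⟨[(0, 1), (1, 2)], [(1, 0), (1, 1), (1, 2), (1, 3), (2, 0), (2, 1), (2, 2)], [(0, 0),
      (0, 1)], [], [(3, 0, [3]), (4, 0, [3]), (5, 1, [])]⟩,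
    ⟨[(1, 3), (2, 3)], [(0, 1), (2, 0), (3, 0), (3, 1)], [(0, 1), (1, 1)], [4], [(1, 1,
      []), (4, 0, [3]), (5, 1, [])]⟩,
    ⟨[(3, 4)], [(0, 1), (0, 2), (1, 2), (2, 0), (2, 2), (3, 0), (4, 0), (4, 1), (4, 2)],
      [(0, 1), (0, 2), (1, 2)], [], [(1, 1, []), (2, 2, [3]), (4, 0, [3])]⟩,
    ⟨[(3, 4), (4, 5)], [(3, 1), (4, 0), (4, 1)], [], [4, 5], [(5, 1, [])]⟩,
    ⟨[(0, 1), (1, 2), (1, 3)], [(0, 3), (1, 0), (1, 2), (1, 3), (3, 0)], [(0, 3)], [6],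
      [(0, 3, [0, 2]), (3, 0, [3])]⟩]
  Ta := [((1, 0), 1, 3), ((1, 2), 1, 2), ((1, 6), 1, 4), ((3, 5), 0, 1), ((3, 8), 0, 6), ((4, 2),
    0, 2), ((5, 3), 1, 0), ((5, 7), 1, 5)]
  Tb := [((0, 1, 8), 3, 1, 6), ((1, 0, 2), 1, 3, 2), ((1, 0, 6), 1, 3, 4), ((1, 2, 6), 1, 2, 4),
    ((2, 1, 4), 2, 1, 0), ((3, 5, 8), 0, 1, 6), ((5, 3, 7), 1, 0, 5), ((6, 1, 7), 4, 1, 5),
    ((7, 5, 6), 5, 1, 4), ((8, 0, 3), 6, 3, 0)]
  Tc := [(3, 0, 2)]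
  Td := [((0, 3), (3, 5), 1), ((0, 3), (3, 8), 6), ((0, 3), (4, 2), 2), ((2, 3), (2, 1), 1), ((2,
    3), (2, 4), 0), ((3, 0), (0, 1), 1), ((3, 0), (0, 8), 6), ((3, 2), (0, 1), 1), ((3, 2),
    (0, 8), 6)]
  G := [[0, 0, 0, 0xa24a28c414286245822848cc1, 0xc28c28c4166c1628948a1], [0,
    0xaaa4aa68c2166c866a8688c1, 0, 0, 0x6652466918c821], [0, 0, 0x1194128c428124411948a84c,
    0x3244a248c452441288c8c1, 0x128128c48665846288c8a1], [0, 0,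
    0x119484115848a1158411948c8c2, 0, 0xdd584dd928c221]]

noncomputable def n3461 : Ent := ⟨e3461, noF, [], [], [(15, 16, [1580044410770988437309982408355971841652082177953823432505703284737, 0])]⟩

def c3461 : PLift (Cov.check n3461.C.D v3461 = true) := ⟨by decide +kernel⟩

def b3461 : PLift (entF (fidx ts) 400 3461 n3461 = true) := ⟨by decide +kernel⟩

theorem g3461 : GoodF (fidx ts) 400 3461 := GoodF.ofV v3461 n3461 c3461.down b3461.down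

/-- 47467444:2628/6 -/
noncomputable def e3462 : SCfg where
  D := {
    a := 8
    L := 9
    kp := 6
    inn := [(0, 1), (1, 0), (1, 2), (1, 3), (1, 7), (2, 1), (2, 3), (3, 1), (3, 2), (3, 4), (4, 3), (4,
      5), (4, 6), (5, 4), (6, 4), (7, 1)]
    mix := [(0, 0), (0, 1), (0, 2), (1, 0), (1, 2), (1, 3), (2, 2), (2, 4), (3, 3), (3, 4), (3, 5), (4,
      1), (4, 4), (4, 5), (4, 6), (5, 1), (5, 4), (5, 7), (6, 5), (6, 6), (6, 8), (7, 0), (7, 3),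
      (7, 8)]
    cl := [3, 1, 2, 0, 0, 1, 4, 6, 5]
    chq := [(0, 3), (2, 3), (3, 0), (3, 2)]
    rng := [(0, 1), (0, 8), (1, 0), (1, 2), (1, 6), (1, 7), (2, 1), (2, 4), (3, 5), (3, 8), (4, 2), (4,
      7), (5, 3), (5, 8), (6, 1), (6, 8), (7, 1), (7, 4), (8, 0), (8, 3), (8, 5), (8, 6)]
    lev := [] }
  links := [[1, 8, 9, 10], [8, 0, 10, 2, 3, 11, 7], [3, 1, 10, 12], [11, 1, 2, 12, 4, 13], [13, 3, 12, 5,
    9, 14, 6], [9, 4, 12, 15], [13, 4, 14, 16], [8, 1, 11, 16]]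
  P := {
    a := 8
    N := 17
    nb := [1794, 3469, 5130, 14358, 29288, 37392, 90128, 67842, 66179, 50481, 4615, 73866, 33852,
      67672, 66128, 4640, 27072]
    tri := [(0, 1, 8), (0, 1, 10), (0, 8, 9), (0, 9, 10), (1, 2, 3), (1, 2, 10), (1, 3, 11), (1, 7, 8),
      (1, 7, 11), (2, 3, 12), (2, 10, 12), (3, 4, 12), (3, 4, 13), (3, 11, 13), (4, 5, 9), (4, 5,
      12), (4, 6, 13), (4, 6, 14), (4, 9, 14), (5, 9, 15), (5, 12, 15), (6, 13, 16), (6, 14, 16),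
      (7, 8, 16), (7, 11, 16)]
    fin := [0, 0, 0, 3, 4, 4, 4, 0, 0, 4, 10, 3, 3, 4, 14, 15, 16]
    chd := [(0, 3), (0, 10)]
    steps := [(0, 1), (0, 2), (0, 7), (0, 8), (3, 12), (3, 11), (4, 5), (4, 6), (4, 9), (4, 13)] }
  rep := [3, 4, 10, 0, 14, 16, 15]

noncomputable def v3462 : Cov.CovD where
  P := 3
  N := 4
  pl := [6, 7, 8]
  lev := [⟨[], [], [(1, 2), (1, 3), (2, 3)], [], [(0, 3, [0, 2]), (1, 1, []), (2, 2, [3])]⟩,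
    ⟨[], [(0, 0), (0, 1), (0, 2), (0, 3)], [(0, 2), (0, 3), (2, 3)], [], [(0, 3, [0, 2]),
      (2, 2, [3]), (3, 0, [3])]⟩,
    ⟨[(0, 1)], [(0, 2), (1, 0), (1, 2), (1, 3)], [(0, 2)], [], [(2, 2, [3]), (4, 0, [3])]⟩,
    ⟨[(0, 1), (1, 2)], [(1, 0), (1, 1), (1, 2), (1, 3), (2, 0), (2, 1), (2, 2)], [(0, 0),
      (0, 1)], [], [(3, 0, [3]), (4, 0, [3]), (5, 1, [])]⟩,
    ⟨[(1, 3), (2, 3)], [(0, 1), (2, 0), (3, 0), (3, 1)], [(0, 1), (1, 1)], [4], [(1, 1,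
      []), (4, 0, [3]), (5, 1, [])]⟩,
    ⟨[(3, 4)], [(0, 1), (2, 0), (3, 0), (4, 0), (4, 1)], [(0, 1)], [6], [(1, 1, []), (4, 0,
      [3])]⟩,
    ⟨[(3, 4), (4, 5)], [(3, 1), (4, 0), (4, 1)], [], [4, 5], [(5, 1, [])]⟩,
    ⟨[(0, 1), (1, 2), (1, 3)], [(0, 3), (1, 0), (1, 2), (1, 3), (3, 0)], [(0, 3)], [5],
      [(0, 3, [0, 2]), (3, 0, [3])]⟩]
  Ta := [((1, 0), 1, 3), ((1, 2), 1, 2), ((1, 6), 1, 4), ((1, 7), 1, 6), ((3, 5), 0, 1), ((3, 8),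
    0, 5), ((4, 2), 0, 2), ((4, 7), 0, 6), ((5, 3), 1, 0), ((5, 8), 1, 5)]
  Tb := [((0, 1, 8), 3, 1, 5), ((1, 0, 2), 1, 3, 2), ((1, 0, 6), 1, 3, 4), ((1, 0, 7), 1, 3, 6),
    ((1, 2, 6), 1, 2, 4), ((1, 2, 7), 1, 2, 6), ((1, 6, 7), 1, 4, 6), ((2, 1, 4), 2, 1, 0),
    ((3, 5, 8), 0, 1, 5), ((4, 2, 7), 0, 2, 6), ((5, 3, 8), 1, 0, 5), ((6, 1, 8), 4, 1, 5),
    ((7, 1, 4), 6, 1, 0), ((8, 0, 3), 5, 3, 0), ((8, 0, 5), 5, 3, 1), ((8, 0, 6), 5, 3, 4),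
    ((8, 3, 5), 5, 0, 1), ((8, 3, 6), 5, 0, 4), ((8, 5, 6), 5, 1, 4)]
  Tc := [(3, 0, 2)]
  Td := [((0, 3), (3, 5), 1), ((0, 3), (3, 8), 5), ((0, 3), (4, 2), 2), ((0, 3), (4, 7), 6), ((2,
    3), (2, 1), 1), ((2, 3), (2, 4), 0), ((3, 0), (0, 1), 1), ((3, 0), (0, 8), 5), ((3, 2),
    (0, 1), 1), ((3, 2), (0, 8), 5)]
  G := [[0, 0, 0, 0x22142218c4221221c84c1, 0xc21c21c422491221c48a1], [0,
    0x82a82a6a26a26ac2142a42ac224c24ca4a8c1, 0, 0, 0x4252424928c121], [0, 0,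
    0x214421112c128c4681212c42111c8a84c, 0x2221c42222c8c41211c42222c8c8c1,
    0x1212c411c2c8c22222c42121c8c8a1], [0, 0, 0x112118d2c842141d2112c422c, 0,
    0xd12949d2c8221]]

noncomputable def n3462 : Ent := ⟨e3462, noF, [], [], [(10, 15, [1685356702439545624007900436039642273970977273354372543760014262273, 0])]⟩

def c3462 : PLift (Cov.check n3462.C.D v3462 = true) := ⟨by decide +kernel⟩

def b3462 : PLift (entF (fidx ts) 400 3462 n3462 = true) := ⟨by decide +kernel⟩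

theorem g3462 : GoodF (fidx ts) 400 3462 := GoodF.ofV v3462 n3462 c3462.down b3462.down

/-- 47467444:2628/3 -/
noncomputable def e3463 : SCfg where
  D := {
    a := 8
    L := 10
    kp := 7
    inn := [(0, 1), (1, 0), (1, 2), (1, 3), (1, 7), (2, 1), (2, 3), (3, 1), (3, 2), (3, 4), (4, 3), (4,
      5), (4, 6), (5, 4), (6, 4), (7, 1)]
    mix := [(0, 0), (0, 1), (0, 2), (1, 0), (1, 2), (1, 3), (2, 2), (2, 4), (3, 3), (3, 4), (3, 5), (4,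
      1), (4, 4), (4, 5), (4, 6), (5, 1), (5, 4), (5, 7), (6, 5), (6, 6), (6, 8), (7, 0), (7, 3),
      (7, 9)]
    cl := [3, 1, 2, 0, 0, 1, 4, 5, 6, 7]
    chq := [(0, 3), (2, 3), (3, 0), (3, 2)]
    rng := [(0, 1), (0, 9), (1, 0), (1, 2), (1, 6), (1, 7), (2, 1), (2, 4), (3, 5), (3, 9), (4, 2), (4,
      7), (5, 3), (5, 8), (6, 1), (6, 8), (7, 1), (7, 4), (8, 5), (8, 6), (9, 0), (9, 3)]
    lev := [] }
  links := [[1, 8, 9, 10], [8, 0, 10, 2, 3, 11, 7], [3, 1, 10, 12], [11, 1, 2, 12, 4, 13], [13, 3, 12, 5,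
    9, 14, 6], [9, 4, 12, 15], [13, 4, 14, 16], [8, 1, 11, 17]]
  P := {
    a := 8
    N := 18
    nb := [1794, 3469, 5130, 14358, 29288, 37392, 90128, 133378, 131715, 50481, 4615, 139402, 33852,
      67672, 66128, 4640, 24640, 2432]
    tri := [(0, 1, 8), (0, 1, 10), (0, 8, 9), (0, 9, 10), (1, 2, 3), (1, 2, 10), (1, 3, 11), (1, 7, 8),
      (1, 7, 11), (2, 3, 12), (2, 10, 12), (3, 4, 12), (3, 4, 13), (3, 11, 13), (4, 5, 9), (4, 5,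
      12), (4, 6, 13), (4, 6, 14), (4, 9, 14), (5, 9, 15), (5, 12, 15), (6, 13, 16), (6, 14, 16),
      (7, 8, 17), (7, 11, 17)]
    fin := [0, 0, 0, 3, 4, 4, 4, 0, 0, 4, 10, 3, 3, 4, 14, 15, 16, 17]
    chd := [(0, 3), (0, 10)]
    steps := [(0, 1), (0, 2), (0, 7), (0, 8), (3, 12), (3, 11), (4, 5), (4, 6), (4, 9), (4, 13)] }
  rep := [3, 4, 10, 0, 14, 15, 16, 17]

noncomputable def v3463 : Cov.CovD where
  P := 3
  N := 5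
  pl := [6, 7, 8, 9]
  lev := [⟨[], [], [(1, 2), (1, 3), (2, 3)], [], [(0, 3, [0, 2]), (1, 1, []), (2, 2, [3])]⟩,
    ⟨[], [(0, 0), (0, 1), (0, 2), (0, 3)], [(0, 2), (0, 3), (2, 3)], [], [(0, 3, [0, 2]),
      (2, 2, [3]), (3, 0, [3])]⟩,
    ⟨[(0, 1)], [(0, 2), (1, 0), (1, 2), (1, 3)], [(0, 2)], [], [(2, 2, [3]), (4, 0, [3])]⟩,
    ⟨[(0, 1), (1, 2)], [(1, 0), (1, 1), (1, 2), (1, 3), (2, 0), (2, 1), (2, 2)], [(0, 0),
      (0, 1)], [], [(3, 0, [3]), (4, 0, [3]), (5, 1, [])]⟩,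
    ⟨[(1, 3), (2, 3)], [(0, 1), (2, 0), (3, 0), (3, 1)], [(0, 1), (1, 1)], [4], [(1, 1,
      []), (4, 0, [3]), (5, 1, [])]⟩,
    ⟨[(3, 4)], [(0, 1), (2, 0), (3, 0), (4, 0), (4, 1)], [(0, 1)], [5], [(1, 1, []), (4, 0,
      [3])]⟩,
    ⟨[(3, 4), (4, 5)], [(3, 1), (4, 0), (4, 1)], [], [4, 6], [(5, 1, [])]⟩,
    ⟨[(0, 1), (1, 2), (1, 3)], [(0, 3), (1, 0), (1, 2), (1, 3), (3, 0)], [(0, 3)], [7],
      [(0, 3, [0, 2]), (3, 0, [3])]⟩]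
  Ta := [((1, 0), 1, 3), ((1, 2), 1, 2), ((1, 6), 1, 4), ((1, 7), 1, 5), ((3, 5), 0, 1), ((3, 9),
    0, 7), ((4, 2), 0, 2), ((4, 7), 0, 5), ((5, 3), 1, 0), ((5, 8), 1, 6)]
  Tb := [((0, 1, 9), 3, 1, 7), ((1, 0, 2), 1, 3, 2), ((1, 0, 6), 1, 3, 4), ((1, 0, 7), 1, 3, 5),
    ((1, 2, 6), 1, 2, 4), ((1, 2, 7), 1, 2, 5), ((1, 6, 7), 1, 4, 5), ((2, 1, 4), 2, 1, 0),
    ((3, 5, 9), 0, 1, 7), ((4, 2, 7), 0, 2, 5), ((5, 3, 8), 1, 0, 6), ((6, 1, 8), 4, 1, 6),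
    ((7, 1, 4), 5, 1, 0), ((8, 5, 6), 6, 1, 4), ((9, 0, 3), 7, 3, 0)]
  Tc := [(3, 0, 2)]
  Td := [((0, 3), (3, 5), 1), ((0, 3), (3, 9), 7), ((0, 3), (4, 2), 2), ((0, 3), (4, 7), 5), ((2,
    3), (2, 1), 1), ((2, 3), (2, 4), 0), ((3, 0), (0, 1), 1), ((3, 0), (0, 9), 7), ((3, 2),
    (0, 1), 1), ((3, 2), (0, 9), 7)]
  G := [[0, 0, 0, 0x2214a21888514e46214221844918e8c1, 0xc21c21c4266a16631c48a1], [0,
    0x2424a228682a2c2a8a868484ace46464a6262c6686868a8c1, 0, 0, 0x6652466928c821], [0, 0,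
    0x12116c811511c464124488a11312c488116119c8446c, 0x1212c492a2c8c46262c43212c8c8c1,
    0x1212c412c2c8c2665663c46261ac8c8a1], [0, 0, 0x1121152c1828c2214241192112cc22c, 0,
    0x66524d6928c821]]

noncomputable def n3463 : Ent := ⟨e3463, noF, [], [], [(10, 15, [7334790850167413569773436004105379185503274260204390087403942018830337, 0]), (16, 17, [6903326391201334775872065844685381424292761054348340378595029943869441, 0])]⟩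

def c3463 : PLift (Cov.check n3463.C.D v3463 = true) := ⟨by decide +kernel⟩

def b3463 : PLift (entF (fidx ts) 400 3463 n3463 = true) := ⟨by decide +kernel⟩

theorem g3463 : GoodF (fidx ts) 400 3463 := GoodF.ofV v3463 n3463 c3463.down b3463.down

/-- 47467444:2628/8 -/
noncomputable def e3464 : SCfg where
  D := {
    a := 8
    L := 9
    kp := 6
    inn := [(0, 1), (1, 0), (1, 2), (1, 3), (1, 7), (2, 1), (2, 3), (3, 1), (3, 2), (3, 4), (4, 3), (4,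
      5), (4, 6), (5, 4), (6, 4), (7, 1)]
    mix := [(0, 0), (0, 1), (0, 2), (1, 0), (1, 2), (1, 3), (2, 2), (2, 4), (3, 3), (3, 4), (3, 5), (4,
      4), (4, 5), (4, 6), (4, 7), (5, 2), (5, 4), (5, 6), (6, 1), (6, 5), (6, 7), (7, 0), (7, 3),
      (7, 8)]
    cl := [3, 4, 0, 0, 1, 2, 5, 1, 6]
    chq := [(0, 3), (1, 2), (2, 1), (3, 0)]
    rng := [(0, 1), (0, 8), (1, 0), (1, 2), (1, 5), (1, 7), (2, 1), (2, 4), (2, 6), (3, 5), (3, 8), (4,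
      2), (5, 1), (5, 3), (6, 2), (6, 7), (7, 1), (7, 6), (8, 0), (8, 3)]
    lev := [] }
  links := [[1, 8, 9, 10], [8, 0, 10, 2, 3, 11, 7], [3, 1, 10, 12], [11, 1, 2, 12, 4, 13], [13, 3, 12, 5,
    14, 15, 6], [14, 4, 12, 10], [13, 4, 15, 9], [8, 1, 11, 16]]
  P := {
    a := 8
    N := 17
    nb := [1794, 3469, 5130, 14358, 61544, 21520, 41488, 67842, 66179, 42305, 21031, 73866, 1084,
      2648, 33840, 16976, 2432]
    tri := [(0, 1, 8), (0, 1, 10), (0, 8, 9), (0, 9, 10), (1, 2, 3), (1, 2, 10), (1, 3, 11), (1, 7, 8),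
      (1, 7, 11), (2, 3, 12), (2, 10, 12), (3, 4, 12), (3, 4, 13), (3, 11, 13), (4, 5, 12), (4, 5,
      14), (4, 6, 13), (4, 6, 15), (4, 14, 15), (5, 10, 12), (5, 10, 14), (6, 9, 13), (6, 9, 15),
      (7, 8, 16), (7, 11, 16)]
    fin := [0, 0, 2, 2, 4, 2, 6, 0, 0, 6, 2, 2, 4, 13, 14, 4, 16]
    chd := [(0, 2), (4, 13)]
    steps := [(0, 1), (0, 7), (0, 8), (2, 3), (2, 10), (2, 11), (4, 12), (2, 5), (4, 15), (6, 9)] }
  rep := [2, 4, 13, 0, 6, 14, 16]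

noncomputable def v3464 : Cov.CovD where
  P := 3
  N := 4
  pl := [1, 6, 8]
  lev := [⟨[], [], [(0, 3)], [4], [(0, 3, [0]), (2, 0, [3])]⟩,
    ⟨[], [(0, 0), (0, 3)], [(0, 0), (0, 3)], [], [(0, 3, [0]), (2, 0, [3]), (3, 0, [3])]⟩,
    ⟨[(0, 1)], [(0, 0), (1, 0), (1, 1), (1, 3)], [(0, 1)], [], [(2, 0, [3]), (4, 1, [2])]⟩,
    ⟨[(0, 1), (1, 2)], [(1, 0), (1, 1), (1, 2), (1, 3), (2, 0), (2, 1), (2, 2)], [(0, 1),
      (0, 2), (1, 2)], [], [(3, 0, [3]), (4, 1, [2]), (5, 2, [1])]⟩,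
    ⟨[(1, 3), (2, 3)], [(2, 1), (3, 0), (3, 1), (3, 2)], [(1, 1), (1, 2)], [5], [(4, 1,
      [2]), (5, 2, [1]), (7, 1, [2])]⟩,
    ⟨[(3, 4)], [(0, 0), (1, 0), (2, 0), (2, 1), (3, 1), (4, 0), (4, 1), (4, 2)], [(0, 1)],
      [5], [(2, 0, [3]), (4, 1, [2])]⟩,
    ⟨[(3, 4), (4, 5)], [(3, 2), (4, 1), (4, 2)], [(1, 2)], [4], [(5, 2, [1]), (7, 1, [2])]⟩,
    ⟨[(0, 1), (1, 2), (1, 3)], [(0, 3), (1, 0), (1, 3), (3, 0)], [(0, 3)], [6], [(0, 3,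
      [0]), (3, 0, [3])]⟩]
  Ta := [((2, 1), 0, 4), ((2, 4), 0, 1), ((2, 6), 0, 5), ((3, 5), 0, 2), ((3, 8), 0, 6), ((4, 2),
    1, 0), ((7, 1), 1, 4), ((7, 6), 1, 5)]
  Tb := [((0, 1, 8), 3, 4, 6), ((1, 0, 2), 4, 3, 0), ((1, 0, 5), 4, 3, 2), ((1, 0, 7), 4, 3, 1),
    ((1, 2, 5), 4, 0, 2), ((1, 2, 7), 4, 0, 1), ((1, 5, 7), 4, 2, 1), ((2, 1, 4), 0, 4, 1),
    ((2, 1, 6), 0, 4, 5), ((2, 4, 6), 0, 1, 5), ((3, 5, 8), 0, 2, 6), ((5, 1, 3), 2, 4, 0),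
    ((6, 2, 7), 5, 0, 1), ((7, 1, 6), 1, 4, 5), ((8, 0, 3), 6, 3, 0)]
  Tc := []
  Td := [((0, 3), (2, 1), 4), ((0, 3), (2, 4), 1), ((0, 3), (2, 6), 5), ((0, 3), (3, 5), 2), ((0,
    3), (3, 8), 6), ((1, 2), (4, 2), 0), ((1, 2), (7, 1), 4), ((1, 2), (7, 6), 5), ((2, 1),
    (5, 1), 4), ((2, 1), (5, 3), 0), ((3, 0), (0, 1), 4), ((3, 0), (0, 8), 6)]
  G := [[0, 0x118112c428142114c824118112c482e, 0, 0x11818294481141425884112d129442e,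
    0x1141812c98441141c288948114d2d2c9842e], [0, 0, 0, 0x184188582414214258841121d925882e,
    0x1185849248118b831c9284c1199a1811488c2e], [0, 0, 0xc28844c24488a2446288c8e1,
    0x6121884e1214483, 0xc1c1c1842c2c2c1882222c18863], [0, 0,
    0xc4c8a8a84464c4246844a8a4246468a8c4e1, 0xa121448e1218843,
    0xc82181461c1a1884c1e1c124612188ab]]

noncomputable def n3464 : Ent := ⟨e3464, noF, [], [], []⟩

def c3464 : PLift (Cov.check n3464.C.D v3464 = true) := ⟨by decide +kernel⟩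

def b3464 : PLift (entF (fidx ts) 400 3464 n3464 = true) := ⟨by decide +kernel⟩

theorem g3464 : GoodF (fidx ts) 400 3464 := GoodF.ofV v3464 n3464 c3464.down b3464.down

/-- 47467444:2628/7 -/
noncomputable def e3465 : SCfg where
  D := {
    a := 8
    L := 10
    kp := 7
    inn := [(0, 1), (1, 0), (1, 2), (1, 3), (1, 7), (2, 1), (2, 3), (3, 1), (3, 2), (3, 4), (4, 3), (4,
      5), (4, 6), (5, 4), (6, 4), (7, 1)]
    mix := [(0, 0), (0, 1), (0, 2), (1, 0), (1, 2), (1, 3), (2, 2), (2, 4), (3, 3), (3, 4), (3, 5), (4,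
      4), (4, 5), (4, 6), (4, 7), (5, 4), (5, 6), (5, 8), (6, 1), (6, 5), (6, 7), (7, 0), (7, 3),
      (7, 9)]
    cl := [3, 4, 2, 0, 0, 1, 1, 5, 7, 6]
    chq := [(2, 3), (2, 6), (3, 2), (6, 2)]
    rng := [(0, 1), (0, 9), (1, 0), (1, 2), (1, 5), (1, 7), (2, 1), (2, 4), (3, 5), (3, 9), (4, 2), (4,
      8), (5, 1), (5, 3), (6, 7), (6, 8), (7, 1), (7, 6), (8, 4), (8, 6), (9, 0), (9, 3)]
    lev := [] }
  links := [[1, 8, 9, 10], [8, 0, 10, 2, 3, 11, 7], [3, 1, 10, 12], [11, 1, 2, 12, 4, 13], [13, 3, 12, 5,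
    14, 15, 6], [14, 4, 12, 16], [13, 4, 15, 9], [8, 1, 11, 17]]
  P := {
    a := 8
    N := 18
    nb := [1794, 3469, 5130, 14358, 61544, 86032, 41488, 133378, 131715, 42305, 4615, 139402, 66620,
      2648, 98352, 16976, 20512, 2432]
    tri := [(0, 1, 8), (0, 1, 10), (0, 8, 9), (0, 9, 10), (1, 2, 3), (1, 2, 10), (1, 3, 11), (1, 7, 8),
      (1, 7, 11), (2, 3, 12), (2, 10, 12), (3, 4, 12), (3, 4, 13), (3, 11, 13), (4, 5, 12), (4, 5,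
      14), (4, 6, 13), (4, 6, 15), (4, 14, 15), (5, 12, 16), (5, 14, 16), (6, 9, 13), (6, 9, 15),
      (7, 8, 17), (7, 11, 17)]
    fin := [0, 1, 1, 3, 4, 3, 6, 1, 0, 6, 1, 3, 3, 4, 4, 15, 16, 17]
    chd := [(0, 1), (1, 17)]
    steps := [(0, 8), (1, 2), (1, 7), (1, 10), (3, 12), (3, 5), (3, 11), (4, 14), (4, 13), (6, 9)] }
  rep := [3, 4, 1, 0, 6, 15, 17, 16]

noncomputable def v3465 : Cov.CovD where
  P := 3
  N := 5
  pl := [1, 7, 8]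
  lev := [⟨[], [], [(2, 3)], [4], [(0, 3, [2]), (2, 2, [3, 6])]⟩,
    ⟨[], [(0, 0), (0, 2), (0, 3)], [(0, 2), (0, 3), (2, 3)], [], [(0, 3, [2]), (2, 2, [3,
      6]), (3, 0, [])]⟩,
    ⟨[(0, 1)], [(0, 2), (1, 0), (1, 2), (1, 3)], [(0, 2)], [], [(2, 2, [3, 6]), (4, 0,
      [])]⟩,
    ⟨[(0, 1), (1, 2)], [(1, 0), (1, 1), (1, 2), (1, 3), (2, 0), (2, 1), (2, 2)], [(0, 0),
      (0, 1)], [], [(3, 0, []), (4, 0, []), (5, 1, [])]⟩,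
    ⟨[(1, 3), (2, 3)], [(2, 0), (3, 0), (3, 1)], [(0, 1), (1, 1)], [5], [(4, 0, []), (5, 1,
      []), (6, 1, [])]⟩,
    ⟨[(3, 4)], [(2, 0), (3, 0), (4, 0), (4, 1)], [(0, 1)], [7], [(4, 0, []), (6, 1, [])]⟩,
    ⟨[(3, 4), (4, 5)], [(3, 1), (4, 0), (4, 1)], [], [4, 5], [(5, 1, [])]⟩,
    ⟨[(0, 1), (1, 2), (1, 3)], [(0, 3), (1, 0), (1, 2), (1, 3), (1, 6), (3, 0)], [(0, 3),
      (0, 6), (3, 6)], [], [(0, 3, [2]), (3, 0, []), (9, 6, [2])]⟩]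
  Ta := [((3, 5), 0, 1), ((3, 9), 0, 6), ((4, 2), 0, 2), ((4, 8), 0, 7), ((5, 1), 1, 4), ((5, 3),
    1, 0), ((6, 7), 1, 5), ((6, 8), 1, 7)]
  Tb := [((0, 1, 9), 3, 4, 6), ((1, 0, 2), 4, 3, 2), ((1, 0, 5), 4, 3, 1), ((1, 0, 7), 4, 3, 5),
    ((1, 2, 5), 4, 2, 1), ((1, 2, 7), 4, 2, 5), ((1, 5, 7), 4, 1, 5), ((2, 1, 4), 2, 4, 0),
    ((3, 5, 9), 0, 1, 6), ((4, 2, 8), 0, 2, 7), ((5, 1, 3), 1, 4, 0), ((6, 7, 8), 1, 5, 7),
    ((7, 1, 6), 5, 4, 1), ((8, 4, 6), 7, 0, 1), ((9, 0, 3), 6, 3, 0)]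
  Tc := [(2, 3, 6)]
  Td := [((2, 3), (2, 1), 4), ((2, 3), (2, 4), 0), ((2, 6), (2, 1), 4), ((2, 6), (2, 4), 0), ((3,
    2), (0, 1), 4), ((3, 2), (0, 9), 6), ((6, 2), (9, 0), 3), ((6, 2), (9, 3), 0)]
  G := [[0, 0x282862222ca4482222a2424ac2842222c22424a4682222c2282868a4cd, 0,
    0x28224294212445824128258212889424242128c121142818c8cd,
    0x48244294284452444928c12445244128c2412442c81ab], [0, 0, 0,
    0x2812222c94482412222c588422142118a4281211c28cd, 0x481421c428421444918c82411421c428b],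
    [0, 0, 0x182112c428112142c82411521192c482e,
    0x282844212484242484d212844242488282844d225242128c41122192c84cd,
    0x482412c424424829442414928c8244244128c2182412c48ab], [0, 0,
    0x1218c81111c4648118821241411cc8a41111c41212c8c82e,
    0x2228c822521c46422448892422c421229c8a822884851212c41111c8c41211c42118c8a4cd,
    0x4248c44a8c424244829445443c442146c8c821442c44241c8c28b]]

noncomputable def n3465 : Ent := ⟨e3465, noF, [], [], [(10, 16, [7334685537875745012586738086077695515070955365108989538292687707865089, 0])]⟩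

def c3465 : PLift (Cov.check n3465.C.D v3465 = true) := ⟨by decide +kernel⟩

def b3465 : PLift (entF (fidx ts) 400 3465 n3465 = true) := ⟨by decide +kernel⟩

theorem g3465 : GoodF (fidx ts) 400 3465 := GoodF.ofV v3465 n3465 c3465.down b3465.down

/-- 47467444:2628/10 -/
noncomputable def e3466 : SCfg where
  D := {
    a := 8
    L := 9
    kp := 6
    inn := [(0, 1), (1, 0), (1, 2), (1, 3), (1, 7), (2, 1), (2, 3), (3, 1), (3, 2), (3, 4), (4, 3), (4,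
      5), (4, 6), (5, 4), (6, 4), (7, 1)]
    mix := [(0, 0), (0, 1), (0, 2), (1, 0), (1, 2), (1, 3), (2, 2), (2, 4), (3, 3), (3, 4), (3, 5), (4,
      4), (4, 5), (4, 6), (4, 7), (5, 2), (5, 4), (5, 6), (6, 5), (6, 7), (6, 8), (7, 0), (7, 3),
      (7, 8)]
    cl := [3, 6, 0, 0, 1, 2, 4, 1, 5]
    chq := [(0, 3), (1, 2), (2, 1), (3, 0)]
    rng := [(0, 1), (0, 8), (1, 0), (1, 2), (2, 1), (2, 4), (2, 6), (3, 5), (3, 8), (4, 2), (5, 3), (5,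
      8), (6, 2), (6, 7), (7, 6), (7, 8), (8, 0), (8, 3), (8, 5), (8, 7)]
    lev := [] }
  links := [[1, 8, 9, 10], [8, 0, 10, 2, 3, 11, 7], [3, 1, 10, 12], [11, 1, 2, 12, 4, 13], [13, 3, 12, 5,
    14, 15, 6], [14, 4, 12, 10], [13, 4, 15, 16], [8, 1, 11, 16]]
  P := {
    a := 8
    N := 17
    nb := [1794, 3469, 5130, 14358, 61544, 21520, 106512, 67842, 66179, 1281, 21031, 73866, 1084,
      67672, 33840, 82000, 43456]
    tri := [(0, 1, 8), (0, 1, 10), (0, 8, 9), (0, 9, 10), (1, 2, 3), (1, 2, 10), (1, 3, 11), (1, 7, 8),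
      (1, 7, 11), (2, 3, 12), (2, 10, 12), (3, 4, 12), (3, 4, 13), (3, 11, 13), (4, 5, 12), (4, 5,
      14), (4, 6, 13), (4, 6, 15), (4, 14, 15), (5, 10, 12), (5, 10, 14), (6, 13, 16), (6, 15,
      16), (7, 8, 16), (7, 11, 16)]
    fin := [0, 0, 2, 2, 4, 2, 4, 0, 0, 9, 2, 2, 4, 13, 14, 4, 16]
    chd := [(0, 2), (4, 13)]
    steps := [(0, 1), (0, 7), (0, 8), (2, 3), (2, 10), (2, 11), (4, 6), (4, 12), (2, 5), (4, 15)] }
  rep := [2, 4, 13, 0, 14, 16, 9]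

noncomputable def v3466 : Cov.CovD where
  P := 3
  N := 4
  pl := [1, 6, 8]
  lev := [⟨[], [], [(0, 3)], [6], [(0, 3, [0]), (2, 0, [3])]⟩,
    ⟨[], [(0, 0), (0, 3)], [(0, 0), (0, 3)], [], [(0, 3, [0]), (2, 0, [3]), (3, 0, [3])]⟩,
    ⟨[(0, 1)], [(0, 0), (1, 0), (1, 1), (1, 3)], [(0, 1)], [], [(2, 0, [3]), (4, 1, [2])]⟩,
    ⟨[(0, 1), (1, 2)], [(1, 0), (1, 1), (1, 2), (1, 3), (2, 0), (2, 1), (2, 2)], [(0, 1),
      (0, 2), (1, 2)], [], [(3, 0, [3]), (4, 1, [2]), (5, 2, [1])]⟩,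
    ⟨[(1, 3), (2, 3)], [(2, 1), (3, 0), (3, 1), (3, 2)], [(1, 1), (1, 2)], [4], [(4, 1,
      [2]), (5, 2, [1]), (7, 1, [2])]⟩,
    ⟨[(3, 4)], [(0, 0), (1, 0), (2, 0), (2, 1), (3, 1), (4, 0), (4, 1), (4, 2)], [(0, 1)],
      [4], [(2, 0, [3]), (4, 1, [2])]⟩,
    ⟨[(3, 4), (4, 5)], [(3, 2), (4, 1), (4, 2)], [(1, 2)], [5], [(5, 2, [1]), (7, 1, [2])]⟩,
    ⟨[(0, 1), (1, 2), (1, 3)], [(0, 3), (1, 0), (1, 3), (3, 0)], [(0, 3)], [5], [(0, 3,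
      [0]), (3, 0, [3])]⟩]
  Ta := [((2, 1), 0, 6), ((2, 4), 0, 1), ((2, 6), 0, 4), ((3, 5), 0, 2), ((3, 8), 0, 5), ((4, 2),
    1, 0), ((7, 6), 1, 4), ((7, 8), 1, 5)]
  Tb := [((0, 1, 8), 3, 6, 5), ((1, 0, 2), 6, 3, 0), ((2, 1, 4), 0, 6, 1), ((2, 1, 6), 0, 6, 4),
    ((2, 4, 6), 0, 1, 4), ((3, 5, 8), 0, 2, 5), ((5, 3, 8), 2, 0, 5), ((6, 2, 7), 4, 0, 1),
    ((7, 6, 8), 1, 4, 5), ((8, 0, 3), 5, 3, 0), ((8, 0, 5), 5, 3, 2), ((8, 0, 7), 5, 3, 1),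
    ((8, 3, 5), 5, 0, 2), ((8, 3, 7), 5, 0, 1), ((8, 5, 7), 5, 2, 1)]
  Tc := []
  Td := [((0, 3), (2, 1), 6), ((0, 3), (2, 4), 1), ((0, 3), (2, 6), 4), ((0, 3), (3, 5), 2), ((0,
    3), (3, 8), 5), ((1, 2), (4, 2), 0), ((1, 2), (7, 6), 4), ((1, 2), (7, 8), 5), ((2, 1),
    (5, 3), 0), ((2, 1), (5, 8), 5), ((3, 0), (0, 1), 6), ((3, 0), (0, 8), 5)]
  G := [[0, 0x118112c428112114c82411441188c42e, 0, 0x11831294481141185824112d129482e,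
    0x1141212c984214122889861241c188942141218898a1241112c9842e], [0, 0, 0,
    0x112312944811231258841141125882e, 0x518514924831831492849129149842e], [0, 0,
    0x224448688c4e24488228848e1, 0x2121812212181882921444252188c7,
    0x2222c18122222c1848e2e2c1884b], [0, 0, 0x8828448844644488a8a824642428a8c4e1,
    0x212188221218848492144242188a7, 0x21829618446161c18288498496188229a29a1846b]]

noncomputable def n3466 : Ent := ⟨e3466, noF, [], [], [(9, 14, [1685382413448253767852309107433119732572617628602273068445379084289, 0])]⟩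

def c3466 : PLift (Cov.check n3466.C.D v3466 = true) := ⟨by decide +kernel⟩

def b3466 : PLift (entF (fidx ts) 400 3466 n3466 = true) := ⟨by decide +kernel⟩

theorem g3466 : GoodF (fidx ts) 400 3466 := GoodF.ofV v3466 n3466 c3466.down b3466.down

/-- 47467444:2628/9 -/
noncomputable def e3467 : SCfg where
  D := {
    a := 8
    L := 10
    kp := 7
    inn := [(0, 1), (1, 0), (1, 2), (1, 3), (1, 7), (2, 1), (2, 3), (3, 1), (3, 2), (3, 4), (4, 3), (4,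
      5), (4, 6), (5, 4), (6, 4), (7, 1)]
    mix := [(0, 0), (0, 1), (0, 2), (1, 0), (1, 2), (1, 3), (2, 2), (2, 4), (3, 3), (3, 4), (3, 5), (4,
      4), (4, 5), (4, 6), (4, 7), (5, 2), (5, 4), (5, 6), (6, 5), (6, 7), (6, 8), (7, 0), (7, 3),
      (7, 9)]
    cl := [3, 5, 0, 0, 1, 2, 4, 1, 6, 7]
    chq := [(0, 3), (1, 2), (2, 1), (3, 0)]
    rng := [(0, 1), (0, 9), (1, 0), (1, 2), (2, 1), (2, 4), (2, 6), (3, 5), (3, 9), (4, 2), (5, 3), (5,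
      8), (6, 2), (6, 7), (7, 6), (7, 8), (8, 5), (8, 7), (9, 0), (9, 3)]
    lev := [] }
  links := [[1, 8, 9, 10], [8, 0, 10, 2, 3, 11, 7], [3, 1, 10, 12], [11, 1, 2, 12, 4, 13], [13, 3, 12, 5,
    14, 15, 6], [14, 4, 12, 10], [13, 4, 15, 16], [8, 1, 11, 17]]
  P := {
    a := 8
    N := 18
    nb := [1794, 3469, 5130, 14358, 61544, 21520, 106512, 133378, 131715, 1281, 21031, 139402, 1084,
      67672, 33840, 82000, 41024, 2432]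
    tri := [(0, 1, 8), (0, 1, 10), (0, 8, 9), (0, 9, 10), (1, 2, 3), (1, 2, 10), (1, 3, 11), (1, 7, 8),
      (1, 7, 11), (2, 3, 12), (2, 10, 12), (3, 4, 12), (3, 4, 13), (3, 11, 13), (4, 5, 12), (4, 5,
      14), (4, 6, 13), (4, 6, 15), (4, 14, 15), (5, 10, 12), (5, 10, 14), (6, 13, 16), (6, 15,
      16), (7, 8, 17), (7, 11, 17)]
    fin := [0, 0, 2, 2, 4, 2, 4, 0, 0, 9, 2, 2, 4, 13, 14, 4, 16, 17]
    chd := [(0, 2), (4, 13)]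
    steps := [(0, 1), (0, 7), (0, 8), (2, 3), (2, 10), (2, 11), (4, 6), (4, 12), (2, 5), (4, 15)] }
  rep := [2, 4, 13, 0, 14, 9, 16, 17]

noncomputable def v3467 : Cov.CovD where
  P := 3
  N := 5
  pl := [1, 6, 8, 9]
  lev := [⟨[], [], [(0, 3)], [5], [(0, 3, [0]), (2, 0, [3])]⟩,
    ⟨[], [(0, 0), (0, 3)], [(0, 0), (0, 3)], [], [(0, 3, [0]), (2, 0, [3]), (3, 0, [3])]⟩,
    ⟨[(0, 1)], [(0, 0), (1, 0), (1, 1), (1, 3)], [(0, 1)], [], [(2, 0, [3]), (4, 1, [2])]⟩,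
    ⟨[(0, 1), (1, 2)], [(1, 0), (1, 1), (1, 2), (1, 3), (2, 0), (2, 1), (2, 2)], [(0, 1),
      (0, 2), (1, 2)], [], [(3, 0, [3]), (4, 1, [2]), (5, 2, [1])]⟩,
    ⟨[(1, 3), (2, 3)], [(2, 1), (3, 0), (3, 1), (3, 2)], [(1, 1), (1, 2)], [4], [(4, 1,
      [2]), (5, 2, [1]), (7, 1, [2])]⟩,
    ⟨[(3, 4)], [(0, 0), (1, 0), (2, 0), (2, 1), (3, 1), (4, 0), (4, 1), (4, 2)], [(0, 1)],
      [4], [(2, 0, [3]), (4, 1, [2])]⟩,
    ⟨[(3, 4), (4, 5)], [(3, 2), (4, 1), (4, 2)], [(1, 2)], [6], [(5, 2, [1]), (7, 1, [2])]⟩,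
    ⟨[(0, 1), (1, 2), (1, 3)], [(0, 3), (1, 0), (1, 3), (3, 0)], [(0, 3)], [7], [(0, 3,
      [0]), (3, 0, [3])]⟩]
  Ta := [((2, 1), 0, 5), ((2, 4), 0, 1), ((2, 6), 0, 4), ((3, 5), 0, 2), ((3, 9), 0, 7), ((4, 2),
    1, 0), ((7, 6), 1, 4), ((7, 8), 1, 6)]
  Tb := [((0, 1, 9), 3, 5, 7), ((1, 0, 2), 5, 3, 0), ((2, 1, 4), 0, 5, 1), ((2, 1, 6), 0, 5, 4),
    ((2, 4, 6), 0, 1, 4), ((3, 5, 9), 0, 2, 7), ((5, 3, 8), 2, 0, 6), ((6, 2, 7), 4, 0, 1),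
    ((7, 6, 8), 1, 4, 6), ((8, 5, 7), 6, 2, 1), ((9, 0, 3), 7, 3, 0)]
  Tc := []
  Td := [((0, 3), (2, 1), 5), ((0, 3), (2, 4), 1), ((0, 3), (2, 6), 4), ((0, 3), (3, 5), 2), ((0,
    3), (3, 9), 7), ((1, 2), (4, 2), 0), ((1, 2), (7, 6), 4), ((1, 2), (7, 8), 6), ((2, 1),
    (5, 3), 0), ((2, 1), (5, 8), 6), ((3, 0), (0, 1), 5), ((3, 0), (0, 9), 7)]
  G := [[0, 0x118112c428112114c824112114c842e, 0, 0x11583392944811c899525884115855529442e,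
    0x1241292c9841241a288946c248141232c188628818e1252c1812488c2e], [0, 0, 0,
    0x115815c294481152939258841198d9925842e,
    0x5118c38379c9248919213198c8a84284818284812114815d9a9c84894ee], [0, 0,
    0xc28844c24488a2446288c8e1, 0xaa521412aac21448ee521884b,
    0xa2a2c1882c2c2c1842c2c2c1882222c1846b], [0, 0, 0xa4c8a844c8c4646488a8a8a4646828c8e1,
    0xaa92141261214a821498842144e692188cb, 0x66966961812669669c1824e18e8ee9c92487]]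

noncomputable def n3467 : Ent := ⟨e3467, noF, [], [], [(9, 14, [7334790875878422277917280412776772662961875900559637987928627383652353, 0]), (9, 16, [7334685537875745012586738086077695515070955365108989538292687707865089, 0]), (16, 17, [6903326391201334775872065844685381424292761054348340378595029943885825, 0])]⟩

def c3467 : PLift (Cov.check n3467.C.D v3467 = true) := ⟨by decide +kernel⟩

def b3467 : PLift (entF (fidx ts) 400 3467 n3467 = true) := ⟨by decide +kernel⟩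

theorem g3467 : GoodF (fidx ts) 400 3467 := GoodF.ofV v3467 n3467 c3467.down b3467.down

/-- 47467444:2628/11 -/
noncomputable def e3468 : SCfg where
  D := {
    a := 8
    L := 10
    kp := 7
    inn := [(0, 1), (1, 0), (1, 2), (1, 3), (1, 7), (2, 1), (2, 3), (3, 1), (3, 2), (3, 4), (4, 3), (4,
      5), (4, 6), (5, 4), (6, 4), (7, 1)]
    mix := [(0, 0), (0, 1), (0, 2), (1, 0), (1, 2), (1, 3), (2, 2), (2, 4), (3, 3), (3, 4), (3, 5), (4,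
      4), (4, 5), (4, 6), (4, 7), (5, 4), (5, 6), (5, 8), (6, 5), (6, 7), (6, 9), (7, 0), (7, 3),
      (7, 9)]
    cl := [3, 6, 2, 0, 0, 1, 1, 5, 7, 4]
    chq := [(2, 3), (2, 4), (3, 2), (4, 2)]
    rng := [(0, 1), (0, 9), (1, 0), (1, 2), (2, 1), (2, 4), (3, 5), (3, 9), (4, 2), (4, 8), (5, 3), (5,
      9), (6, 7), (6, 8), (7, 6), (7, 9), (8, 4), (8, 6), (9, 0), (9, 3), (9, 5), (9, 7)]
    lev := [] }
  links := [[1, 8, 9, 10], [8, 0, 10, 2, 3, 11, 7], [3, 1, 10, 12], [11, 1, 2, 12, 4, 13], [13, 3, 12, 5,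
    14, 15, 6], [14, 4, 12, 16], [13, 4, 15, 17], [8, 1, 11, 17]]
  P := {
    a := 8
    N := 18
    nb := [1794, 3469, 5130, 14358, 61544, 86032, 172048, 133378, 131715, 1281, 4615, 139402, 66620,
      133208, 98352, 147536, 20512, 43456]
    tri := [(0, 1, 8), (0, 1, 10), (0, 8, 9), (0, 9, 10), (1, 2, 3), (1, 2, 10), (1, 3, 11), (1, 7, 8),
      (1, 7, 11), (2, 3, 12), (2, 10, 12), (3, 4, 12), (3, 4, 13), (3, 11, 13), (4, 5, 12), (4, 5,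
      14), (4, 6, 13), (4, 6, 15), (4, 14, 15), (5, 12, 16), (5, 14, 16), (6, 13, 17), (6, 15,
      17), (7, 8, 17), (7, 11, 17)]
    fin := [0, 1, 1, 3, 4, 3, 4, 1, 0, 9, 1, 3, 3, 4, 4, 15, 16, 17]
    chd := [(0, 1), (1, 17)]
    steps := [(0, 8), (1, 2), (1, 7), (1, 10), (3, 12), (3, 5), (3, 11), (4, 6), (4, 14), (4, 13)] }
  rep := [3, 4, 1, 0, 17, 15, 9, 16]

noncomputable def v3468 : Cov.CovD where
  P := 3
  N := 5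
  pl := [1, 7, 8]
  lev := [⟨[], [], [(2, 3)], [6], [(0, 3, [2]), (2, 2, [3, 4])]⟩,
    ⟨[], [(0, 0), (0, 2), (0, 3)], [(0, 2), (0, 3), (2, 3)], [], [(0, 3, [2]), (2, 2, [3,
      4]), (3, 0, [])]⟩,
    ⟨[(0, 1)], [(0, 2), (1, 0), (1, 2), (1, 3)], [(0, 2)], [], [(2, 2, [3, 4]), (4, 0,
      [])]⟩,
    ⟨[(0, 1), (1, 2)], [(1, 0), (1, 1), (1, 2), (1, 3), (2, 0), (2, 1), (2, 2)], [(0, 0),
      (0, 1)], [], [(3, 0, []), (4, 0, []), (5, 1, [])]⟩,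
    ⟨[(1, 3), (2, 3)], [(2, 0), (3, 0), (3, 1)], [(0, 1), (1, 1)], [5], [(4, 0, []), (5, 1,
      []), (6, 1, [])]⟩,
    ⟨[(3, 4)], [(2, 0), (3, 0), (4, 0), (4, 1)], [(0, 1)], [7], [(4, 0, []), (6, 1, [])]⟩,
    ⟨[(3, 4), (4, 5)], [(3, 1), (4, 0), (4, 1), (4, 4)], [(1, 4)], [5], [(5, 1, []), (9, 4,
      [2])]⟩,
    ⟨[(0, 1), (1, 2), (1, 3)], [(0, 3), (1, 0), (1, 2), (1, 3), (1, 4), (3, 0), (6, 4)],
      [(0, 3), (0, 4), (3, 4)], [], [(0, 3, [2]), (3, 0, []), (9, 4, [2])]⟩]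
  Ta := [((3, 5), 0, 1), ((3, 9), 0, 4), ((4, 2), 0, 2), ((4, 8), 0, 7), ((5, 3), 1, 0), ((5, 9),
    1, 4), ((6, 7), 1, 5), ((6, 8), 1, 7)]
  Tb := [((0, 1, 9), 3, 6, 4), ((1, 0, 2), 6, 3, 2), ((2, 1, 4), 2, 6, 0), ((3, 5, 9), 0, 1, 4),
    ((4, 2, 8), 0, 2, 7), ((5, 3, 9), 1, 0, 4), ((6, 7, 8), 1, 5, 7), ((7, 6, 9), 5, 1, 4),
    ((8, 4, 6), 7, 0, 1), ((9, 0, 3), 4, 3, 0), ((9, 0, 5), 4, 3, 1), ((9, 0, 7), 4, 3, 5),
    ((9, 3, 5), 4, 0, 1), ((9, 3, 7), 4, 0, 5), ((9, 5, 7), 4, 1, 5)]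
  Tc := [(2, 3, 4)]
  Td := [((2, 3), (2, 1), 6), ((2, 3), (2, 4), 0), ((2, 4), (2, 1), 6), ((2, 4), (2, 4), 0), ((3,
    2), (0, 1), 6), ((3, 2), (0, 9), 4), ((4, 2), (9, 0), 3), ((4, 2), (9, 3), 0), ((4, 2),
    (9, 5), 1), ((4, 2), (9, 7), 5)]
  G := [[0, 0x2222c2282862424ac6182424a2222c6282868a8422a82a6226286ac2424a24a6226226ac28cd, 0,
    0x24214222d2212c45828218212222d2c8942251422918c44252422928c1cd,
    0x444d1411442d4284452444918c82444d2c429424251444918c8ab], [0, 0, 0,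
    0x221822514648221422918a8422912251c282212251c84cd,
    0x4491421c42844a14431c482445144218c24291421c48ab], [0, 0,
    0x111d2112c428112111d2c824111d241128c82e,
    0x222d2844212484212484d425284422924884252884d222d2112c4821522192c84cd,
    0x7452412c428444d244128c821152412c421152412c42ab], [0, 0,
    0x1212c81111c46481212c41111c8a841112c41211c8c42e,
    0x2222c82121c46482222c42121c8a842212c82121c4641122c41221c8c8cd,
    0x4242c418c42414488414428b4241c44142c8c8212145c118c4144681144142cc1288c2ab]]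

noncomputable def n3468 : Ent := ⟨e3468, noF, [], [], [(9, 16, [7334685537875745012586738086077695515070955365108989538292687707840513, 0]), (9, 14, [7334790875878422277917280412776772662961875900559637987928627383656449, 0]), (10, 16, [7334685537875745012586738086077695515070955365108989538292687707873281, 0])]⟩

def c3468 : PLift (Cov.check n3468.C.D v3468 = true) := ⟨by decide +kernel⟩

def b3468 : PLift (entF (fidx ts) 400 3468 n3468 = true) := ⟨by decide +kernel⟩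

theorem g3468 : GoodF (fidx ts) 400 3468 := GoodF.ofV v3468 n3468 c3468.down b3468.down

/-- 47467444:2628 -/
noncomputable def e3469 : SCfg where
  D := {
    a := 8
    L := 11
    kp := 8
    inn := [(0, 1), (1, 0), (1, 2), (1, 3), (1, 7), (2, 1), (2, 3), (3, 1), (3, 2), (3, 4), (4, 3), (4,
      5), (4, 6), (5, 4), (6, 4), (7, 1)]
    mix := [(0, 0), (0, 1), (0, 2), (1, 0), (1, 2), (1, 3), (2, 2), (2, 4), (3, 3), (3, 4), (3, 5), (4,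
      4), (4, 5), (4, 6), (4, 7), (5, 4), (5, 6), (5, 8), (6, 5), (6, 7), (6, 9), (7, 0), (7, 3),
      (7, 10)]
    cl := [3, 6, 2, 0, 0, 1, 1, 4, 7, 8, 5]
    chq := [(2, 3), (2, 5), (3, 2), (5, 2)]
    rng := [(0, 1), (0, 10), (1, 0), (1, 2), (2, 1), (2, 4), (3, 5), (3, 10), (4, 2), (4, 8), (5, 3),
      (5, 9), (6, 7), (6, 8), (7, 6), (7, 9), (8, 4), (8, 6), (9, 5), (9, 7), (10, 0), (10, 3)]
    lev := [] }
  links := [[1, 8, 9, 10], [8, 0, 10, 2, 3, 11, 7], [3, 1, 10, 12], [11, 1, 2, 12, 4, 13], [13, 3, 12, 5,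
    14, 15, 6], [14, 4, 12, 16], [13, 4, 15, 17], [8, 1, 11, 18]]
  P := {
    a := 8
    N := 19
    nb := [1794, 3469, 5130, 14358, 61544, 86032, 172048, 264450, 262787, 1281, 4615, 270474, 66620,
      133208, 98352, 147536, 20512, 41024, 2432]
    tri := [(0, 1, 8), (0, 1, 10), (0, 8, 9), (0, 9, 10), (1, 2, 3), (1, 2, 10), (1, 3, 11), (1, 7, 8),
      (1, 7, 11), (2, 3, 12), (2, 10, 12), (3, 4, 12), (3, 4, 13), (3, 11, 13), (4, 5, 12), (4, 5,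
      14), (4, 6, 13), (4, 6, 15), (4, 14, 15), (5, 12, 16), (5, 14, 16), (6, 13, 17), (6, 15,
      17), (7, 8, 18), (7, 11, 18)]
    fin := [0, 1, 1, 3, 4, 3, 4, 1, 0, 9, 1, 3, 3, 4, 4, 15, 16, 17, 18]
    chd := [(0, 1), (1, 18)]
    steps := [(0, 8), (1, 2), (1, 7), (1, 10), (3, 12), (3, 5), (3, 11), (4, 6), (4, 14), (4, 13)] }
  rep := [3, 4, 1, 0, 15, 18, 9, 16, 17]

noncomputable def v3469 : Cov.CovD where
  P := 3
  N := 6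
  pl := [1, 7, 8, 9]
  lev := [⟨[], [], [(2, 3)], [6], [(0, 3, [2]), (2, 2, [3, 5])]⟩,
    ⟨[], [(0, 0), (0, 2), (0, 3)], [(0, 2), (0, 3), (2, 3)], [], [(0, 3, [2]), (2, 2, [3,
      5]), (3, 0, [])]⟩,
    ⟨[(0, 1)], [(0, 2), (1, 0), (1, 2), (1, 3)], [(0, 2)], [], [(2, 2, [3, 5]), (4, 0,
      [])]⟩,
    ⟨[(0, 1), (1, 2)], [(1, 0), (1, 1), (1, 2), (1, 3), (2, 0), (2, 1), (2, 2)], [(0, 0),
      (0, 1)], [], [(3, 0, []), (4, 0, []), (5, 1, [])]⟩,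
    ⟨[(1, 3), (2, 3)], [(2, 0), (3, 0), (3, 1)], [(0, 1), (1, 1)], [4], [(4, 0, []), (5, 1,
      []), (6, 1, [])]⟩,
    ⟨[(3, 4)], [(2, 0), (3, 0), (4, 0), (4, 1)], [(0, 1)], [7], [(4, 0, []), (6, 1, [])]⟩,
    ⟨[(3, 4), (4, 5)], [(3, 1), (4, 0), (4, 1)], [], [4, 8], [(5, 1, [])]⟩,
    ⟨[(0, 1), (1, 2), (1, 3)], [(0, 3), (1, 0), (1, 2), (1, 3), (1, 5), (3, 0)], [(0, 3),
      (0, 5), (3, 5)], [], [(0, 3, [2]), (3, 0, []), (10, 5, [2])]⟩]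
  Ta := [((3, 5), 0, 1), ((3, 10), 0, 5), ((4, 2), 0, 2), ((4, 8), 0, 7), ((5, 3), 1, 0), ((5,
    9), 1, 8), ((6, 7), 1, 4), ((6, 8), 1, 7)]
  Tb := [((0, 1, 10), 3, 6, 5), ((1, 0, 2), 6, 3, 2), ((2, 1, 4), 2, 6, 0), ((3, 5, 10), 0, 1,
    5), ((4, 2, 8), 0, 2, 7), ((5, 3, 9), 1, 0, 8), ((6, 7, 8), 1, 4, 7), ((7, 6, 9), 4, 1,
    8), ((8, 4, 6), 7, 0, 1), ((9, 5, 7), 8, 1, 4), ((10, 0, 3), 5, 3, 0)]
  Tc := [(2, 3, 5)]
  Td := [((2, 3), (2, 1), 6), ((2, 3), (2, 4), 0), ((2, 5), (2, 1), 6), ((2, 5), (2, 4), 0), ((3,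
    2), (0, 1), 6), ((3, 2), (0, 10), 5), ((5, 2), (10, 0), 3), ((5, 2), (10, 3), 0)]
  G := [[0, 0x22a22a6226226ac2182424a2222c6282868a8422c22c6226226ca482222c2282862424aca1cd, 0,
    0x24214222d2212c458222d22825821288942251422918c42252422928c1cd,
    0x444d2411442d4284451444918c82444d1412442d424452444928c2ab], [0, 0, 0,
    0x221822514648221422918a84221222b1c4822912251c24cd,
    0x4491421c4284491421c482443144a1c4244614431c48ab], [0, 0,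
    0x119284211524821152482e1828441121152c82182842e1152411928c82e,
    0x229284422524842252484d229284822524882292848d1152411928c41252421928c8cd,
    0x4492412c42442488442488b4452444928c824452414928c21452414928c8ab], [0, 0,
    0x1211ac811511c464124484124484e1288481164111e11acc82128842e11512c412119c8c42e,
    0x2222c8225229c464224488224484d22884822622c421229c8a8228848d12129c218c41422c48c12522c422229c8c8cd,
    0x4447449c428c42424488424488b44542c442449c8c824442c412449c418cc2124412119c444b8cc2ab]]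

noncomputable def n3469 : Ent := ⟨e3469, noF, [], [], [(9, 16, [31810581851548793677511941751458610980409781099126250235727204310991777793, 0]), (9, 14, [31810581956886796354777272293785310057557672019661700884176840250667593729, 0]), (9, 17, [31810150492402119267275227079217218666319002904815489586567506653227814913, 0]), (10, 16, [31810581851548793677511941751458610980409781099126250235727204310991810561, 0]), (17, 18, [30043303427623734937691929578474300150491519007939870628445900451935207425, 0])]⟩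

def c3469 : PLift (Cov.check n3469.C.D v3469 = true) := ⟨by decide +kernel⟩

def b3469 : PLift (entF (fidx ts) 400 3469 n3469 = true) := ⟨by decide +kernel⟩

theorem g3469 : GoodF (fidx ts) 400 3469 := GoodF.ofV v3469 n3469 c3469.down b3469.down

/-- 46944454:2631/3 -/
noncomputable def e3470 : SCfg where
  D := {
    a := 8
    L := 8
    kp := 5
    inn := [(0, 1), (0, 2), (1, 0), (1, 4), (2, 0), (2, 3), (2, 5), (2, 6), (2, 7), (3, 2), (4, 1), (5,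
      2), (5, 6), (6, 2), (6, 5), (7, 2)]
    mix := [(0, 0), (0, 1), (1, 0), (1, 1), (1, 2), (1, 3), (2, 0), (2, 1), (2, 4), (2, 5), (3, 2), (3,
      4), (3, 5), (4, 1), (4, 2), (4, 6), (5, 5), (5, 7), (6, 1), (6, 6), (6, 7), (7, 0), (7, 3),
      (7, 4)]
    cl := [0, 0, 1, 2, 3, 0, 4, 5]
    chq := [(0, 3), (2, 4), (3, 0), (4, 2)]
    rng := [(0, 3), (1, 6), (2, 3), (2, 4), (2, 5), (2, 6), (3, 0), (3, 2), (3, 4), (4, 2), (4, 3), (5,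
      2), (5, 7), (6, 1), (6, 2), (6, 7), (7, 5), (7, 6)]
    lev := [] }
  links := [[1, 8, 2, 9], [8, 0, 9, 4, 10, 11], [9, 0, 8, 7, 12, 3, 13, 5, 6], [13, 2, 12, 10], [10, 1,
    9, 14], [6, 2, 13, 15], [9, 2, 5, 15, 14], [12, 2, 8, 11]]
  P := {
    a := 8
    N := 16
    nb := [774, 3857, 13289, 13316, 17922, 41028, 49700, 6404, 2183, 16471, 30746, 5506, 3212, 33836,
      34384, 24672]
    tri := [(0, 1, 8), (0, 1, 9), (0, 2, 8), (0, 2, 9), (1, 4, 9), (1, 4, 10), (1, 8, 11), (1, 10, 11),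
      (2, 3, 12), (2, 3, 13), (2, 5, 6), (2, 5, 13), (2, 6, 9), (2, 7, 8), (2, 7, 12), (3, 10,
      12), (3, 10, 13), (4, 9, 14), (4, 10, 14), (5, 6, 15), (5, 13, 15), (6, 9, 14), (6, 14, 15),
      (7, 8, 11), (7, 11, 12)]
    fin := [0, 1, 0, 0, 1, 0, 0, 0, 0, 0, 10, 1, 12, 0, 14, 15]
    chd := [(0, 12), (1, 14)]
    steps := [(0, 2), (0, 3), (0, 5), (0, 6), (0, 7), (0, 8), (0, 13), (0, 9), (1, 4), (1, 11)] }
  rep := [0, 10, 1, 12, 14, 15]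

noncomputable def v3470 : Cov.CovD where
  P := 3
  N := 3
  pl := [2, 7]
  lev := [⟨[], [], [(0, 0)], [], [(0, 0, [3]), (1, 0, [3])]⟩,
    ⟨[], [(0, 0), (0, 2)], [(0, 0), (0, 2)], [1], [(0, 0, [3]), (1, 0, [3]), (3, 2, [4])]⟩,
    ⟨[(0, 1)], [(0, 0), (0, 3), (1, 0)], [(0, 0), (0, 3)], [], [(0, 0, [3]), (1, 0, [3]),
      (4, 3, [0]), (5, 0, [3])]⟩,
    ⟨[(0, 2)], [(2, 0), (2, 3)], [(0, 3)], [1], [(4, 3, [0]), (5, 0, [3])]⟩,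
    ⟨[(0, 1)], [(0, 0), (1, 0), (1, 2), (1, 4), (2, 0)], [(0, 4)], [1], [(1, 0, [3]), (6,
      4, [2])]⟩,
    ⟨[(0, 2), (2, 3)], [(2, 0), (2, 3), (3, 0)], [], [5], [(5, 0, [3])]⟩,
    ⟨[(0, 2), (2, 3), (2, 5)], [(0, 0), (1, 0), (2, 0), (2, 3), (2, 4), (4, 0), (4, 4), (5,
      0), (5, 4)], [(0, 4)], [5], [(1, 0, [3]), (6, 4, [2])]⟩,
    ⟨[(0, 2), (2, 3), (2, 5), (2, 6)], [(0, 0), (1, 0), (1, 2), (2, 0), (2, 2), (2, 3), (3,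
      3)], [(0, 2), (0, 3), (2, 3)], [], [(0, 0, [3]), (3, 2, [4]), (4, 3, [0])]⟩]
  Ta := [((0, 3), 0, 2), ((1, 6), 0, 4), ((5, 2), 0, 1), ((5, 7), 0, 5)]
  Tb := [((2, 3, 4), 1, 2, 3), ((2, 3, 5), 1, 2, 0), ((2, 3, 6), 1, 2, 4), ((2, 4, 5), 1, 3, 0),
    ((2, 4, 6), 1, 3, 4), ((2, 5, 6), 1, 0, 4), ((3, 0, 2), 2, 0, 1), ((3, 0, 4), 2, 0, 3),
    ((3, 2, 4), 2, 1, 3), ((4, 2, 3), 3, 1, 2), ((5, 2, 7), 0, 1, 5), ((6, 1, 2), 4, 0, 1),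
    ((6, 1, 7), 4, 0, 5), ((6, 2, 7), 4, 1, 5), ((7, 5, 6), 5, 0, 4)]
  Tc := []
  Td := [((0, 3), (0, 3), 2), ((0, 3), (1, 6), 4), ((0, 3), (5, 2), 1), ((0, 3), (5, 7), 5), ((2,
    4), (3, 0), 0), ((2, 4), (3, 2), 1), ((2, 4), (3, 4), 3), ((3, 0), (4, 2), 1), ((3, 0),
    (4, 3), 2), ((4, 2), (6, 1), 0), ((4, 2), (6, 2), 1), ((4, 2), (6, 7), 5)]
  G := [[0, 0, 0x44c8261124a246c11a44, 0x888e11444e11c288, 0x81816412121a44c82], [0, 0, 0,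
    0x48a18461c1812c1214cc5248, 0x48c28a64411a116c41a84], [0, 0x1111a241111c22648, 0,
    0x84418a12c544a446c1c288, 0x113161425821a21c44a84]]

noncomputable def n3470 : Ent := ⟨e3470, noF, [], [], []⟩

def c3470 : PLift (Cov.check n3470.C.D v3470 = true) := ⟨by decide +kernel⟩

def b3470 : PLift (entF (fidx ts) 400 3470 n3470 = true) := ⟨by decide +kernel⟩

theorem g3470 : GoodF (fidx ts) 400 3470 := GoodF.ofV v3470 n3470 c3470.down b3470.down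

/-- 46944454:2631/2 -/
noncomputable def e3471 : SCfg where
  D := {
    a := 8
    L := 9
    kp := 6
    inn := [(0, 1), (0, 2), (1, 0), (1, 4), (2, 0), (2, 3), (2, 5), (2, 6), (2, 7), (3, 2), (4, 1), (5,
      2), (5, 6), (6, 2), (6, 5), (7, 2)]
    mix := [(0, 0), (0, 1), (1, 0), (1, 1), (1, 2), (1, 3), (2, 0), (2, 1), (2, 4), (2, 5), (3, 2), (3,
      4), (3, 5), (4, 1), (4, 2), (4, 6), (5, 5), (5, 7), (6, 1), (6, 7), (6, 8), (7, 0), (7, 3),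
      (7, 4)]
    cl := [0, 0, 1, 2, 3, 0, 5, 4, 6]
    chq := [(0, 3), (2, 5), (3, 0), (5, 2)]
    rng := [(0, 3), (1, 6), (1, 8), (2, 3), (2, 4), (2, 5), (2, 6), (3, 0), (3, 2), (3, 4), (4, 2), (4,
      3), (5, 2), (5, 7), (6, 1), (6, 2), (7, 5), (7, 8), (8, 1), (8, 7)]
    lev := [] }
  links := [[1, 8, 2, 9], [8, 0, 9, 4, 10, 11], [9, 0, 8, 7, 12, 3, 13, 5, 6], [13, 2, 12, 10], [10, 1,
    9, 14], [6, 2, 13, 15], [9, 2, 5, 15, 16], [12, 2, 8, 11]]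
  P := {
    a := 8
    N := 17
    nb := [774, 3857, 13289, 13316, 17922, 41028, 98852, 6404, 2183, 82007, 30746, 5506, 3212, 33836,
      1552, 73824, 33344]
    tri := [(0, 1, 8), (0, 1, 9), (0, 2, 8), (0, 2, 9), (1, 4, 9), (1, 4, 10), (1, 8, 11), (1, 10, 11),
      (2, 3, 12), (2, 3, 13), (2, 5, 6), (2, 5, 13), (2, 6, 9), (2, 7, 8), (2, 7, 12), (3, 10,
      12), (3, 10, 13), (4, 9, 14), (4, 10, 14), (5, 6, 15), (5, 13, 15), (6, 9, 16), (6, 15, 16),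
      (7, 8, 11), (7, 11, 12)]
    fin := [0, 1, 0, 0, 1, 0, 0, 0, 0, 0, 10, 1, 12, 0, 14, 15, 16]
    chd := [(0, 12), (1, 14)]
    steps := [(0, 2), (0, 3), (0, 5), (0, 6), (0, 7), (0, 8), (0, 13), (0, 9), (1, 4), (1, 11)] }
  rep := [0, 10, 1, 12, 15, 14, 16]

noncomputable def v3471 : Cov.CovD where
  P := 3
  N := 4
  pl := [2, 7, 8]
  lev := [⟨[], [], [(0, 0)], [], [(0, 0, [3]), (1, 0, [3])]⟩,
    ⟨[], [(0, 0), (0, 2)], [(0, 0), (0, 2)], [1], [(0, 0, [3]), (1, 0, [3]), (3, 2, [5])]⟩,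
    ⟨[(0, 1)], [(0, 0), (0, 3), (1, 0)], [(0, 0), (0, 3)], [], [(0, 0, [3]), (1, 0, [3]),
      (4, 3, [0]), (5, 0, [3])]⟩,
    ⟨[(0, 2)], [(2, 0), (2, 3)], [(0, 3)], [1], [(4, 3, [0]), (5, 0, [3])]⟩,
    ⟨[(0, 1)], [(0, 0), (1, 0), (1, 2), (1, 5), (2, 0)], [(0, 5)], [1], [(1, 0, [3]), (6,
      5, [2])]⟩,
    ⟨[(0, 2), (2, 3)], [(2, 0), (2, 3), (3, 0)], [], [4], [(5, 0, [3])]⟩,
    ⟨[(0, 2), (2, 3), (2, 5)], [(0, 0), (1, 0), (2, 0), (2, 3), (4, 0), (5, 0)], [], [4,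
      6], [(1, 0, [3])]⟩,
    ⟨[(0, 2), (2, 3), (2, 5), (2, 6)], [(0, 0), (1, 0), (1, 2), (2, 0), (2, 2), (2, 3), (3,
      3)], [(0, 2), (0, 3), (2, 3)], [], [(0, 0, [3]), (3, 2, [5]), (4, 3, [0])]⟩]
  Ta := [((0, 3), 0, 2), ((1, 6), 0, 5), ((1, 8), 0, 6), ((5, 2), 0, 1), ((5, 7), 0, 4)]
  Tb := [((1, 6, 8), 0, 5, 6), ((2, 3, 4), 1, 2, 3), ((2, 3, 5), 1, 2, 0), ((2, 3, 6), 1, 2, 5),
    ((2, 4, 5), 1, 3, 0), ((2, 4, 6), 1, 3, 5), ((2, 5, 6), 1, 0, 5), ((3, 0, 2), 2, 0, 1),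
    ((3, 0, 4), 2, 0, 3), ((3, 2, 4), 2, 1, 3), ((4, 2, 3), 3, 1, 2), ((5, 2, 7), 0, 1, 4),
    ((6, 1, 2), 5, 0, 1), ((7, 5, 8), 4, 0, 6), ((8, 1, 7), 6, 0, 4)]
  Tc := []
  Td := [((0, 3), (0, 3), 2), ((0, 3), (1, 6), 5), ((0, 3), (1, 8), 6), ((0, 3), (5, 2), 1), ((0,
    3), (5, 7), 4), ((2, 5), (3, 0), 0), ((2, 5), (3, 2), 1), ((2, 5), (3, 4), 3), ((3, 0),
    (4, 2), 1), ((3, 0), (4, 3), 2), ((5, 2), (6, 1), 0), ((5, 2), (6, 2), 1)]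
  G := [[0, 0, 0x88c846a1128a286c11648, 0x888e11444e11c248, 0x2181a41a121a44c82], [0, 0, 0,
    0x11a116c4124448a5111a116c892c4, 0x31614882a1441814c41e82], [0, 0x11416281111c22a44, 0,
    0x88a886c111a446c1c244, 0x111731648122118e44a84]]

noncomputable def n3471 : Ent := ⟨e3471, noF, [], [], [(16, 14, [1580095832788404724998799751142926758855362888449624481876432969729, 0])]⟩

def c3471 : PLift (Cov.check n3471.C.D v3471 = true) := ⟨by decide +kernel⟩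

def b3471 : PLift (entF (fidx ts) 400 3471 n3471 = true) := ⟨by decide +kernel⟩

theorem g3471 : GoodF (fidx ts) 400 3471 := GoodF.ofV v3471 n3471 c3471.down b3471.down

/-- 46944454:2631/4 -/
noncomputable def e3472 : SCfg where
  D := {
    a := 8
    L := 9
    kp := 6
    inn := [(0, 1), (0, 2), (1, 0), (1, 4), (2, 0), (2, 3), (2, 5), (2, 6), (2, 7), (3, 2), (4, 1), (5,
      2), (5, 6), (6, 2), (6, 5), (7, 2)]
    mix := [(0, 0), (0, 1), (1, 0), (1, 1), (1, 2), (1, 3), (2, 0), (2, 1), (2, 4), (2, 5), (3, 4), (3,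
      5), (3, 6), (4, 1), (4, 2), (4, 7), (5, 5), (5, 8), (6, 1), (6, 7), (6, 8), (7, 0), (7, 3),
      (7, 4)]
    cl := [0, 0, 4, 2, 1, 0, 6, 3, 5]
    chq := [(0, 1), (1, 0), (2, 3), (3, 2)]
    rng := [(0, 3), (1, 7), (2, 3), (2, 7), (3, 0), (3, 2), (3, 4), (4, 3), (4, 6), (5, 6), (5, 8), (6,
      4), (6, 5), (7, 1), (7, 2), (7, 8), (8, 5), (8, 7)]
    lev := [] }
  links := [[1, 8, 2, 9], [8, 0, 9, 4, 10, 11], [9, 0, 8, 7, 12, 3, 13, 5, 6], [13, 2, 12, 14], [10, 1,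
    9, 15], [6, 2, 13, 16], [9, 2, 5, 16, 15], [12, 2, 8, 11]]
  P := {
    a := 8
    N := 17
    nb := [774, 3857, 13289, 28676, 34306, 73796, 98852, 6404, 2183, 32855, 34834, 5506, 18572, 81964,
      12296, 67152, 41056]
    tri := [(0, 1, 8), (0, 1, 9), (0, 2, 8), (0, 2, 9), (1, 4, 9), (1, 4, 10), (1, 8, 11), (1, 10, 11),
      (2, 3, 12), (2, 3, 13), (2, 5, 6), (2, 5, 13), (2, 6, 9), (2, 7, 8), (2, 7, 12), (3, 12,
      14), (3, 13, 14), (4, 9, 15), (4, 10, 15), (5, 6, 16), (5, 13, 16), (6, 9, 15), (6, 15, 16),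
      (7, 8, 11), (7, 11, 12)]
    fin := [0, 1, 0, 0, 1, 0, 0, 0, 0, 0, 10, 1, 12, 0, 14, 15, 16]
    chd := [(0, 12), (1, 15)]
    steps := [(0, 2), (0, 3), (0, 5), (0, 6), (0, 7), (0, 8), (0, 13), (0, 9), (1, 4), (1, 11)] }
  rep := [0, 12, 1, 15, 10, 16, 14]

noncomputable def v3472 : Cov.CovD where
  P := 3
  N := 4
  pl := [2, 6, 8]
  lev := [⟨[], [], [(0, 0)], [], [(0, 0, [1]), (1, 0, [1])]⟩,
    ⟨[], [(0, 0), (0, 2)], [(0, 0), (0, 2)], [4], [(0, 0, [1]), (1, 0, [1]), (3, 2, [3])]⟩,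
    ⟨[(0, 1)], [(0, 0), (0, 1), (1, 0)], [(0, 0), (0, 1)], [], [(0, 0, [1]), (1, 0, [1]),
      (4, 1, [0]), (5, 0, [1])]⟩,
    ⟨[(0, 2)], [(2, 0), (2, 1)], [(0, 1)], [6], [(4, 1, [0]), (5, 0, [1])]⟩,
    ⟨[(0, 1)], [(0, 0), (1, 0), (1, 2), (1, 3), (2, 0)], [(0, 3)], [4], [(1, 0, [1]), (7,
      3, [2])]⟩,
    ⟨[(0, 2), (2, 3)], [(2, 0), (2, 1), (3, 0)], [], [5], [(5, 0, [1])]⟩,
    ⟨[(0, 2), (2, 3), (2, 5)], [(0, 0), (1, 0), (2, 0), (2, 1), (2, 3), (4, 0), (4, 3), (5,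
      0), (5, 3)], [(0, 3)], [5], [(1, 0, [1]), (7, 3, [2])]⟩,
    ⟨[(0, 2), (2, 3), (2, 5), (2, 6)], [(0, 0), (1, 0), (1, 2), (2, 0), (2, 1), (2, 2), (3,
      1)], [(0, 1), (0, 2), (1, 2)], [], [(0, 0, [1]), (3, 2, [3]), (4, 1, [0])]⟩]
  Ta := [((0, 3), 0, 2), ((1, 7), 0, 3), ((5, 6), 0, 6), ((5, 8), 0, 5)]
  Tb := [((2, 3, 7), 4, 2, 3), ((3, 0, 2), 2, 0, 4), ((3, 0, 4), 2, 0, 1), ((3, 2, 4), 2, 4, 1),
    ((4, 3, 6), 1, 2, 6), ((5, 6, 8), 0, 6, 5), ((6, 4, 5), 6, 1, 0), ((7, 1, 2), 3, 0, 4),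
    ((7, 1, 8), 3, 0, 5), ((7, 2, 8), 3, 4, 5), ((8, 5, 7), 5, 0, 3)]
  Tc := []
  Td := [((0, 1), (0, 3), 2), ((0, 1), (1, 7), 3), ((0, 1), (5, 6), 6), ((0, 1), (5, 8), 5), ((1,
    0), (4, 3), 2), ((1, 0), (4, 6), 6), ((2, 3), (3, 0), 0), ((2, 3), (3, 2), 4), ((2, 3),
    (3, 4), 1), ((3, 2), (7, 1), 0), ((3, 2), (7, 2), 4), ((3, 2), (7, 8), 5)]
  G := [[0, 0x414162448e11c8814162484e1168c2, 0x48c846a11481448a84a314a8, 0x4281c2144182c214c8,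
    0x8181641481288c84a314a8], [0, 0x814281228182e4484e11448e1168c2, 0,
    0x41c12621814c426218c4, 0x84214826c118881c141861482a618a4], [0,
    0x888e118148213a441828122884e11e4c2, 0, 0x1281c21112a2c48142a28112a2c4c8,
    0x11126411816a4c88888c1412611188418a65c11848ca2]]

noncomputable def n3472 : Ent := ⟨e3472, noF, [], [], [(14, 10, [1685382413448253768217684516765845462123538836781343823359362260993, 0])]⟩

def c3472 : PLift (Cov.check n3472.C.D v3472 = true) := ⟨by decide +kernel⟩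

def b3472 : PLift (entF (fidx ts) 400 3472 n3472 = true) := ⟨by decide +kernel⟩

theorem g3472 : GoodF (fidx ts) 400 3472 := GoodF.ofV v3472 n3472 c3472.down b3472.down

/-- 46944454:2631/1 -/
noncomputable def e3473 : SCfg where
  D := {
    a := 8
    L := 10
    kp := 7
    inn := [(0, 1), (0, 2), (1, 0), (1, 4), (2, 0), (2, 3), (2, 5), (2, 6), (2, 7), (3, 2), (4, 1), (5,
      2), (5, 6), (6, 2), (6, 5), (7, 2)]
    mix := [(0, 0), (0, 1), (1, 0), (1, 1), (1, 2), (1, 3), (2, 0), (2, 1), (2, 4), (2, 5), (3, 4), (3,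
      5), (3, 6), (4, 1), (4, 2), (4, 7), (5, 5), (5, 8), (6, 1), (6, 8), (6, 9), (7, 0), (7, 3),
      (7, 4)]
    cl := [0, 0, 3, 2, 1, 0, 6, 5, 4, 7]
    chq := [(0, 1), (1, 0), (2, 5), (5, 2)]
    rng := [(0, 3), (1, 7), (1, 9), (2, 3), (2, 7), (3, 0), (3, 2), (3, 4), (4, 3), (4, 6), (5, 6), (5,
      8), (6, 4), (6, 5), (7, 1), (7, 2), (8, 5), (8, 9), (9, 1), (9, 8)]
    lev := [] }
  links := [[1, 8, 2, 9], [8, 0, 9, 4, 10, 11], [9, 0, 8, 7, 12, 3, 13, 5, 6], [13, 2, 12, 14], [10, 1,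
    9, 15], [6, 2, 13, 16], [9, 2, 5, 16, 17], [12, 2, 8, 11]]
  P := {
    a := 8
    N := 18
    nb := [774, 3857, 13289, 28676, 34306, 73796, 197156, 6404, 2183, 163927, 34834, 5506, 18572,
      81964, 12296, 1552, 139360, 66112]
    tri := [(0, 1, 8), (0, 1, 9), (0, 2, 8), (0, 2, 9), (1, 4, 9), (1, 4, 10), (1, 8, 11), (1, 10, 11),
      (2, 3, 12), (2, 3, 13), (2, 5, 6), (2, 5, 13), (2, 6, 9), (2, 7, 8), (2, 7, 12), (3, 12,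
      14), (3, 13, 14), (4, 9, 15), (4, 10, 15), (5, 6, 16), (5, 13, 16), (6, 9, 17), (6, 16, 17),
      (7, 8, 11), (7, 11, 12)]
    fin := [0, 1, 0, 0, 1, 0, 0, 0, 0, 0, 10, 1, 12, 0, 14, 15, 16, 17]
    chd := [(0, 12), (1, 15)]
    steps := [(0, 2), (0, 3), (0, 5), (0, 6), (0, 7), (0, 8), (0, 13), (0, 9), (1, 4), (1, 11)] }
  rep := [0, 12, 1, 10, 16, 15, 14, 17]

noncomputable def v3473 : Cov.CovD where
  P := 3
  N := 5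
  pl := [2, 6, 8, 9]
  lev := [⟨[], [], [(0, 0)], [], [(0, 0, [1]), (1, 0, [1])]⟩,
    ⟨[], [(0, 0), (0, 2)], [(0, 0), (0, 2)], [3], [(0, 0, [1]), (1, 0, [1]), (3, 2, [5])]⟩,
    ⟨[(0, 1)], [(0, 0), (0, 1), (1, 0)], [(0, 0), (0, 1)], [], [(0, 0, [1]), (1, 0, [1]),
      (4, 1, [0]), (5, 0, [1])]⟩,
    ⟨[(0, 2)], [(2, 0), (2, 1)], [(0, 1)], [6], [(4, 1, [0]), (5, 0, [1])]⟩,
    ⟨[(0, 1)], [(0, 0), (1, 0), (1, 2), (1, 5), (2, 0)], [(0, 5)], [3], [(1, 0, [1]), (7,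
      5, [2])]⟩,
    ⟨[(0, 2), (2, 3)], [(2, 0), (2, 1), (3, 0)], [], [4], [(5, 0, [1])]⟩,
    ⟨[(0, 2), (2, 3), (2, 5)], [(0, 0), (1, 0), (2, 0), (2, 1), (4, 0), (5, 0)], [], [4,
      7], [(1, 0, [1])]⟩,
    ⟨[(0, 2), (2, 3), (2, 5), (2, 6)], [(0, 0), (1, 0), (1, 2), (2, 0), (2, 1), (2, 2), (3,
      1)], [(0, 1), (0, 2), (1, 2)], [], [(0, 0, [1]), (3, 2, [5]), (4, 1, [0])]⟩]
  Ta := [((0, 3), 0, 2), ((1, 7), 0, 5), ((1, 9), 0, 7), ((5, 6), 0, 6), ((5, 8), 0, 4)]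
  Tb := [((1, 7, 9), 0, 5, 7), ((2, 3, 7), 3, 2, 5), ((3, 0, 2), 2, 0, 3), ((3, 0, 4), 2, 0, 1),
    ((3, 2, 4), 2, 3, 1), ((4, 3, 6), 1, 2, 6), ((5, 6, 8), 0, 6, 4), ((6, 4, 5), 6, 1, 0),
    ((7, 1, 2), 5, 0, 3), ((8, 5, 9), 4, 0, 7), ((9, 1, 8), 7, 0, 4)]
  Tc := []
  Td := [((0, 1), (0, 3), 2), ((0, 1), (1, 7), 5), ((0, 1), (1, 9), 7), ((0, 1), (5, 6), 6), ((0,
    1), (5, 8), 4), ((1, 0), (4, 3), 2), ((1, 0), (4, 6), 6), ((2, 5), (3, 0), 0), ((2, 5),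
    (3, 2), 3), ((2, 5), (3, 4), 1), ((5, 2), (7, 1), 0), ((5, 2), (7, 2), 3)]
  G := [[0, 0x414162484e11c8844e114141c2a2c4, 0x48c846a11444c44a6118a2, 0x818162148181a214c8,
    0x81288c8514814888e2514a2], [0, 0x484e1181228142e441224448a51a41424ac2, 0,
    0x88c186a21448c186a214c8, 0x18c18a618c11a6c1811c11a611c18a6618a4], [0,
    0x414162488e11a8412448e134184862368c4, 0, 0x81816a2118b11a2c4115143628144a62c8c2,
    0x11c18a61481c886a18c1117116411816a4c8a2]]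

noncomputable def n3473 : Ent := ⟨e3473, noF, [], [], [(14, 10, [7334790875878422277917645788186105388691426821767817058683541366829057, 0]), (17, 15, [6903537015784671890245461680740748765157398844539141476817538565865473, 0])]⟩

def c3473 : PLift (Cov.check n3473.C.D v3473 = true) := ⟨by decide +kernel⟩

def b3473 : PLift (entF (fidx ts) 400 3473 n3473 = true) := ⟨by decide +kernel⟩

theorem g3473 : GoodF (fidx ts) 400 3473 := GoodF.ofV v3473 n3473 c3473.down b3473.down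

/-- 46944454:2631/6 -/
noncomputable def e3474 : SCfg where
  D := {
    a := 8
    L := 9
    kp := 6
    inn := [(0, 1), (0, 2), (1, 0), (1, 4), (2, 0), (2, 3), (2, 5), (2, 6), (2, 7), (3, 2), (4, 1), (5,
      2), (5, 6), (6, 2), (6, 5), (7, 2)]
    mix := [(0, 0), (0, 1), (1, 0), (1, 1), (1, 2), (1, 3), (2, 0), (2, 1), (2, 4), (2, 5), (3, 2), (3,
      4), (3, 5), (4, 1), (4, 2), (4, 6), (5, 5), (5, 7), (6, 1), (6, 6), (6, 7), (7, 0), (7, 4),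
      (7, 8)]
    cl := [0, 0, 2, 5, 1, 0, 3, 4, 6]
    chq := [(0, 1), (1, 0), (3, 5), (5, 3)]
    rng := [(0, 3), (0, 8), (1, 6), (2, 3), (2, 4), (2, 5), (2, 6), (3, 0), (3, 2), (4, 2), (4, 8), (5,
      2), (5, 7), (6, 1), (6, 2), (6, 7), (7, 5), (7, 6), (8, 0), (8, 4)]
    lev := [] }
  links := [[1, 8, 2, 9], [8, 0, 9, 4, 10, 11], [9, 0, 8, 7, 12, 3, 13, 5, 6], [13, 2, 12, 10], [10, 1,
    9, 14], [6, 2, 13, 15], [9, 2, 5, 15, 14], [12, 2, 8, 16]]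
  P := {
    a := 8
    N := 17
    nb := [774, 3857, 13289, 13316, 17922, 41028, 49700, 69892, 67719, 16471, 30746, 1282, 66700,
      33836, 34384, 24672, 4480]
    tri := [(0, 1, 8), (0, 1, 9), (0, 2, 8), (0, 2, 9), (1, 4, 9), (1, 4, 10), (1, 8, 11), (1, 10, 11),
      (2, 3, 12), (2, 3, 13), (2, 5, 6), (2, 5, 13), (2, 6, 9), (2, 7, 8), (2, 7, 12), (3, 10,
      12), (3, 10, 13), (4, 9, 14), (4, 10, 14), (5, 6, 15), (5, 13, 15), (6, 9, 14), (6, 14, 15),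
      (7, 8, 16), (7, 12, 16)]
    fin := [0, 1, 0, 0, 1, 0, 0, 0, 0, 0, 10, 11, 12, 0, 1, 15, 16]
    chd := [(0, 12), (11, 1)]
    steps := [(0, 2), (0, 3), (0, 5), (0, 6), (0, 7), (0, 8), (0, 13), (0, 9), (1, 4), (1, 14)] }
  rep := [0, 12, 10, 1, 15, 11, 16]

noncomputable def v3474 : Cov.CovD where
  P := 3
  N := 4
  pl := [2, 7, 8]
  lev := [⟨[], [], [(0, 0)], [], [(0, 0, [1]), (1, 0, [1])]⟩,
    ⟨[], [(0, 0), (0, 5)], [(0, 0), (0, 5)], [2], [(0, 0, [1]), (1, 0, [1]), (3, 5, [3])]⟩,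
    ⟨[(0, 1)], [(0, 0), (0, 1), (1, 0)], [(0, 0), (0, 1)], [], [(0, 0, [1]), (1, 0, [1]),
      (4, 1, [0]), (5, 0, [1])]⟩,
    ⟨[(0, 2)], [(2, 0), (2, 1)], [(0, 1)], [2], [(4, 1, [0]), (5, 0, [1])]⟩,
    ⟨[(0, 1)], [(0, 0), (1, 0), (1, 3), (1, 5), (2, 0)], [(0, 3)], [2], [(1, 0, [1]), (6,
      3, [5])]⟩,
    ⟨[(0, 2), (2, 3)], [(2, 0), (2, 1), (3, 0)], [], [4], [(5, 0, [1])]⟩,
    ⟨[(0, 2), (2, 3), (2, 5)], [(0, 0), (1, 0), (2, 0), (2, 1), (2, 3), (4, 0), (4, 3), (5,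
      0), (5, 3)], [(0, 3)], [4], [(1, 0, [1]), (6, 3, [5])]⟩,
    ⟨[(0, 2), (2, 3), (2, 5), (2, 6)], [(0, 0), (1, 0), (2, 0), (2, 1), (3, 1)], [(0, 1)],
      [6], [(0, 0, [1]), (4, 1, [0])]⟩]
  Ta := [((0, 3), 0, 5), ((0, 8), 0, 6), ((1, 6), 0, 3), ((5, 2), 0, 2), ((5, 7), 0, 4)]
  Tb := [((0, 3, 8), 0, 5, 6), ((2, 3, 4), 2, 5, 1), ((2, 3, 5), 2, 5, 0), ((2, 3, 6), 2, 5, 3),
    ((2, 4, 5), 2, 1, 0), ((2, 4, 6), 2, 1, 3), ((2, 5, 6), 2, 0, 3), ((3, 0, 2), 5, 0, 2),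
    ((4, 2, 8), 1, 2, 6), ((5, 2, 7), 0, 2, 4), ((6, 1, 2), 3, 0, 2), ((6, 1, 7), 3, 0, 4),
    ((6, 2, 7), 3, 2, 4), ((7, 5, 6), 4, 0, 3), ((8, 0, 4), 6, 0, 1)]
  Tc := []
  Td := [((0, 1), (0, 3), 5), ((0, 1), (0, 8), 6), ((0, 1), (1, 6), 3), ((0, 1), (5, 2), 2), ((0,
    1), (5, 7), 4), ((1, 0), (4, 2), 2), ((1, 0), (4, 8), 6), ((3, 5), (6, 1), 0), ((3, 5),
    (6, 2), 2), ((3, 5), (6, 7), 4), ((5, 3), (3, 0), 0), ((5, 3), (3, 2), 2)]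
  G := [[0, 0xacce1142a1c16882c4, 0, 0xc18c22584c1c1a884c2, 0xc1c26218c1c16818a4], [0,
    0x6161a484c1c1c882c2, 0, 0x11614481812a814c2, 0x11c12a214111e1884a8], [0,
    0xa1a1a444a1a1a844c8, 0x1111a48411116888c4, 0x141164481112a844c2, 0x111262881811a884a4]]

noncomputable def n3474 : Ent := ⟨e3474, noF, [], [], [(16, 11, [1580044410770990308032078191911707142368668054796088592099358334977, 0])]⟩

def c3474 : PLift (Cov.check n3474.C.D v3474 = true) := ⟨by decide +kernel⟩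

def b3474 : PLift (entF (fidx ts) 400 3474 n3474 = true) := ⟨by decide +kernel⟩

theorem g3474 : GoodF (fidx ts) 400 3474 := GoodF.ofV v3474 n3474 c3474.down b3474.down

/-- 46944454:2631/5 -/
noncomputable def e3475 : SCfg where
  D := {
    a := 8
    L := 10
    kp := 7
    inn := [(0, 1), (0, 2), (1, 0), (1, 4), (2, 0), (2, 3), (2, 5), (2, 6), (2, 7), (3, 2), (4, 1), (5,
      2), (5, 6), (6, 2), (6, 5), (7, 2)]
    mix := [(0, 0), (0, 1), (1, 0), (1, 1), (1, 2), (1, 3), (2, 0), (2, 1), (2, 4), (2, 5), (3, 2), (3,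
      4), (3, 5), (4, 1), (4, 2), (4, 6), (5, 5), (5, 7), (6, 1), (6, 7), (6, 8), (7, 0), (7, 4),
      (7, 9)]
    cl := [0, 0, 2, 4, 1, 0, 5, 3, 6, 7]
    chq := [(0, 1), (1, 0), (4, 5), (5, 4)]
    rng := [(0, 3), (0, 9), (1, 6), (1, 8), (2, 3), (2, 4), (2, 5), (2, 6), (3, 0), (3, 2), (4, 2), (4,
      9), (5, 2), (5, 7), (6, 1), (6, 2), (7, 5), (7, 8), (8, 1), (8, 7), (9, 0), (9, 4)]
    lev := [] }
  links := [[1, 8, 2, 9], [8, 0, 9, 4, 10, 11], [9, 0, 8, 7, 12, 3, 13, 5, 6], [13, 2, 12, 10], [10, 1,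
    9, 14], [6, 2, 13, 15], [9, 2, 5, 15, 16], [12, 2, 8, 17]]
  P := {
    a := 8
    N := 18
    nb := [774, 3857, 13289, 13316, 17922, 41028, 98852, 135428, 133255, 82007, 30746, 1282, 132236,
      33836, 1552, 73824, 33344, 4480]
    tri := [(0, 1, 8), (0, 1, 9), (0, 2, 8), (0, 2, 9), (1, 4, 9), (1, 4, 10), (1, 8, 11), (1, 10, 11),
      (2, 3, 12), (2, 3, 13), (2, 5, 6), (2, 5, 13), (2, 6, 9), (2, 7, 8), (2, 7, 12), (3, 10,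
      12), (3, 10, 13), (4, 9, 14), (4, 10, 14), (5, 6, 15), (5, 13, 15), (6, 9, 16), (6, 15, 16),
      (7, 8, 17), (7, 12, 17)]
    fin := [0, 1, 0, 0, 1, 0, 0, 0, 0, 0, 10, 11, 12, 0, 1, 15, 16, 17]
    chd := [(0, 12), (11, 1)]
    steps := [(0, 2), (0, 3), (0, 5), (0, 6), (0, 7), (0, 8), (0, 13), (0, 9), (1, 4), (1, 14)] }
  rep := [0, 12, 10, 15, 11, 1, 16, 17]

noncomputable def v3475 : Cov.CovD where
  P := 3
  N := 5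
  pl := [2, 7, 8, 9]
  lev := [⟨[], [], [(0, 0)], [], [(0, 0, [1]), (1, 0, [1])]⟩,
    ⟨[], [(0, 0), (0, 4)], [(0, 0), (0, 4)], [2], [(0, 0, [1]), (1, 0, [1]), (3, 4, [5])]⟩,
    ⟨[(0, 1)], [(0, 0), (0, 1), (1, 0)], [(0, 0), (0, 1)], [], [(0, 0, [1]), (1, 0, [1]),
      (4, 1, [0]), (5, 0, [1])]⟩,
    ⟨[(0, 2)], [(2, 0), (2, 1)], [(0, 1)], [2], [(4, 1, [0]), (5, 0, [1])]⟩,
    ⟨[(0, 1)], [(0, 0), (1, 0), (1, 4), (1, 5), (2, 0)], [(0, 5)], [2], [(1, 0, [1]), (6,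
      5, [4])]⟩,
    ⟨[(0, 2), (2, 3)], [(2, 0), (2, 1), (3, 0)], [], [3], [(5, 0, [1])]⟩,
    ⟨[(0, 2), (2, 3), (2, 5)], [(0, 0), (1, 0), (2, 0), (2, 1), (4, 0), (5, 0)], [], [3,
      6], [(1, 0, [1])]⟩,
    ⟨[(0, 2), (2, 3), (2, 5), (2, 6)], [(0, 0), (1, 0), (2, 0), (2, 1), (3, 1)], [(0, 1)],
      [7], [(0, 0, [1]), (4, 1, [0])]⟩]
  Ta := [((0, 3), 0, 4), ((0, 9), 0, 7), ((1, 6), 0, 5), ((1, 8), 0, 6), ((5, 2), 0, 2), ((5, 7),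
    0, 3)]
  Tb := [((0, 3, 9), 0, 4, 7), ((1, 6, 8), 0, 5, 6), ((2, 3, 4), 2, 4, 1), ((2, 3, 5), 2, 4, 0),
    ((2, 3, 6), 2, 4, 5), ((2, 4, 5), 2, 1, 0), ((2, 4, 6), 2, 1, 5), ((2, 5, 6), 2, 0, 5),
    ((3, 0, 2), 4, 0, 2), ((4, 2, 9), 1, 2, 7), ((5, 2, 7), 0, 2, 3), ((6, 1, 2), 5, 0, 2),
    ((7, 5, 8), 3, 0, 6), ((8, 1, 7), 6, 0, 3), ((9, 0, 4), 7, 0, 1)]
  Tc := []
  Td := [((0, 1), (0, 3), 4), ((0, 1), (0, 9), 7), ((0, 1), (1, 6), 5), ((0, 1), (1, 8), 6), ((0,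
    1), (5, 2), 2), ((0, 1), (5, 7), 3), ((1, 0), (4, 2), 2), ((1, 0), (4, 9), 7), ((4, 5),
    (3, 0), 0), ((4, 5), (3, 2), 2), ((5, 4), (6, 1), 0), ((5, 4), (6, 2), 2)]
  G := [[0, 0xa1a1a4846161c848c4, 0, 0xc1c16418c1c1a814c2, 0xc1c16218c18141e814a2], [0,
    0xc1c1c442c1c1c882c2, 0, 0x141411a14c4111e1884c2, 0x111e1284181169884a8], [0,
    0x6161c442c1c16842c4, 0x111164881111a848c2, 0x11511364881111a6884c2,
    0x141261811828c11c116a184a2]]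

noncomputable def n3475 : Ent := ⟨e3475, noF, [], [], [(17, 11, [6903326391201334778116932359625648306653620957400551096786542329917441, 0]), (16, 14, [7334685589297762428874426903420482469988158645819485339342058437550081, 0])]⟩

def c3475 : PLift (Cov.check n3475.C.D v3475 = true) := ⟨by decide +kernel⟩

def b3475 : PLift (entF (fidx ts) 400 3475 n3475 = true) := ⟨by decide +kernel⟩

theorem g3475 : GoodF (fidx ts) 400 3475 := GoodF.ofV v3475 n3475 c3475.down b3475.down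

/-- 46944454:2631/7 -/
noncomputable def e3476 : SCfg where
  D := {
    a := 8
    L := 10
    kp := 7
    inn := [(0, 1), (0, 2), (1, 0), (1, 4), (2, 0), (2, 3), (2, 5), (2, 6), (2, 7), (3, 2), (4, 1), (5,
      2), (5, 6), (6, 2), (6, 5), (7, 2)]
    mix := [(0, 0), (0, 1), (1, 0), (1, 1), (1, 2), (1, 3), (2, 0), (2, 1), (2, 4), (2, 5), (3, 4), (3,
      5), (3, 6), (4, 1), (4, 2), (4, 7), (5, 5), (5, 8), (6, 1), (6, 7), (6, 8), (7, 0), (7, 4),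
      (7, 9)]
    cl := [0, 0, 4, 5, 3, 0, 6, 1, 2, 7]
    chq := [(0, 3), (1, 5), (3, 0), (5, 1)]
    rng := [(0, 3), (0, 9), (1, 7), (2, 3), (2, 7), (3, 0), (3, 2), (4, 6), (4, 9), (5, 6), (5, 8), (6,
      4), (6, 5), (7, 1), (7, 2), (7, 8), (8, 5), (8, 7), (9, 0), (9, 4)]
    lev := [] }
  links := [[1, 8, 2, 9], [8, 0, 9, 4, 10, 11], [9, 0, 8, 7, 12, 3, 13, 5, 6], [13, 2, 12, 14], [10, 1,
    9, 15], [6, 2, 13, 16], [9, 2, 5, 16, 15], [12, 2, 8, 17]]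
  P := {
    a := 8
    N := 18
    nb := [774, 3857, 13289, 28676, 34306, 73796, 98852, 135428, 133255, 32855, 34834, 1282, 147596,
      81964, 12296, 67152, 41056, 4480]
    tri := [(0, 1, 8), (0, 1, 9), (0, 2, 8), (0, 2, 9), (1, 4, 9), (1, 4, 10), (1, 8, 11), (1, 10, 11),
      (2, 3, 12), (2, 3, 13), (2, 5, 6), (2, 5, 13), (2, 6, 9), (2, 7, 8), (2, 7, 12), (3, 12,
      14), (3, 13, 14), (4, 9, 15), (4, 10, 15), (5, 6, 16), (5, 13, 16), (6, 9, 15), (6, 15, 16),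
      (7, 8, 17), (7, 12, 17)]
    fin := [0, 1, 0, 0, 1, 0, 0, 0, 0, 0, 10, 11, 12, 0, 14, 1, 16, 17]
    chd := [(0, 12), (11, 1)]
    steps := [(0, 2), (0, 3), (0, 5), (0, 6), (0, 7), (0, 8), (0, 13), (0, 9), (1, 4), (1, 15)] }
  rep := [0, 1, 16, 12, 10, 11, 14, 17]

noncomputable def v3476 : Cov.CovD where
  P := 3
  N := 5
  pl := [2, 6, 8, 9]
  lev := [⟨[], [], [(0, 0)], [], [(0, 0, [3]), (1, 0, [3])]⟩,
    ⟨[], [(0, 0), (0, 5)], [(0, 0), (0, 5)], [4], [(0, 0, [3]), (1, 0, [3]), (3, 5, [1])]⟩,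
    ⟨[(0, 1)], [(0, 0), (0, 3), (1, 0)], [(0, 0), (0, 3)], [], [(0, 0, [3]), (1, 0, [3]),
      (4, 3, [0]), (5, 0, [3])]⟩,
    ⟨[(0, 2)], [(2, 0), (2, 3)], [(0, 3)], [6], [(4, 3, [0]), (5, 0, [3])]⟩,
    ⟨[(0, 1)], [(0, 0), (1, 0), (1, 1), (1, 5), (2, 0)], [(0, 1)], [4], [(1, 0, [3]), (7,
      1, [5])]⟩,
    ⟨[(0, 2), (2, 3)], [(2, 0), (2, 3), (3, 0)], [], [2], [(5, 0, [3])]⟩,
    ⟨[(0, 2), (2, 3), (2, 5)], [(0, 0), (1, 0), (2, 0), (2, 1), (2, 3), (4, 0), (4, 1), (5,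
      0), (5, 1)], [(0, 1)], [2], [(1, 0, [3]), (7, 1, [5])]⟩,
    ⟨[(0, 2), (2, 3), (2, 5), (2, 6)], [(0, 0), (1, 0), (2, 0), (2, 3), (3, 3)], [(0, 3)],
      [7], [(0, 0, [3]), (4, 3, [0])]⟩]
  Ta := [((0, 3), 0, 5), ((0, 9), 0, 7), ((1, 7), 0, 1), ((5, 6), 0, 6), ((5, 8), 0, 2)]
  Tb := [((0, 3, 9), 0, 5, 7), ((2, 3, 7), 4, 5, 1), ((3, 0, 2), 5, 0, 4), ((4, 6, 9), 3, 6, 7),
    ((5, 6, 8), 0, 6, 2), ((6, 4, 5), 6, 3, 0), ((7, 1, 2), 1, 0, 4), ((7, 1, 8), 1, 0, 2),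
    ((7, 2, 8), 1, 4, 2), ((8, 5, 7), 2, 0, 1), ((9, 0, 4), 7, 0, 3)]
  Tc := []
  Td := [((0, 3), (0, 3), 5), ((0, 3), (0, 9), 7), ((0, 3), (1, 7), 1), ((0, 3), (5, 6), 6), ((0,
    3), (5, 8), 2), ((1, 5), (7, 1), 0), ((1, 5), (7, 2), 4), ((1, 5), (7, 8), 2), ((3, 0),
    (4, 6), 6), ((3, 0), (4, 9), 7), ((5, 1), (3, 0), 0), ((5, 1), (3, 2), 4)]
  G := [[0, 0, 0, 0xc411c144814e14c7c18868419a268881426,
    0xc1241c811c1842184b6c1841a18416c8211a18c12cc8812881b6ea814a811644a], [0,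
    0x184211442162184811888161484118441cca, 0, 0x184148c1a84a885d88c4451848b628,
    0x182182c1a881c821182188cda27818218281d8848e18241b88468846cc6], [0, 0,
    0x18442214842218814144126e1428818284c1424818244c144188ea,
    0x314314c8444c58858852a2918188c4426,
    0x1821d188a2712112cc124cd8812a631281828a988851286cc8811824c4188144e6]]

noncomputable def n3476 : Ent := ⟨e3476, noF, [], [], [(17, 11, [6903326391201334778116932359625648306653620957400551096786542329921537, 0]), (14, 10, [7334790875878422277917645788186105388691426821767817058683541366841345, 0])]⟩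

def c3476 : PLift (Cov.check n3476.C.D v3476 = true) := ⟨by decide +kernel⟩

def b3476 : PLift (entF (fidx ts) 400 3476 n3476 = true) := ⟨by decide +kernel⟩

theorem g3476 : GoodF (fidx ts) 400 3476 := GoodF.ofV v3476 n3476 c3476.down b3476.down

/-- 46944454:2631 -/
noncomputable def e3477 : SCfg where
  D := {
    a := 8
    L := 11
    kp := 8
    inn := [(0, 1), (0, 2), (1, 0), (1, 4), (2, 0), (2, 3), (2, 5), (2, 6), (2, 7), (3, 2), (4, 1), (5,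
      2), (5, 6), (6, 2), (6, 5), (7, 2)]
    mix := [(0, 0), (0, 1), (1, 0), (1, 1), (1, 2), (1, 3), (2, 0), (2, 1), (2, 4), (2, 5), (3, 4), (3,
      5), (3, 6), (4, 1), (4, 2), (4, 7), (5, 5), (5, 8), (6, 1), (6, 8), (6, 9), (7, 0), (7, 4),
      (7, 10)]
    cl := [0, 0, 3, 2, 1, 0, 6, 5, 4, 7, 8]
    chq := [(0, 1), (1, 0), (2, 5), (5, 2)]
    rng := [(0, 3), (0, 10), (1, 7), (1, 9), (2, 3), (2, 7), (3, 0), (3, 2), (4, 6), (4, 10), (5, 6),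
      (5, 8), (6, 4), (6, 5), (7, 1), (7, 2), (8, 5), (8, 9), (9, 1), (9, 8), (10, 0), (10, 4)]
    lev := [] }
  links := [[1, 8, 2, 9], [8, 0, 9, 4, 10, 11], [9, 0, 8, 7, 12, 3, 13, 5, 6], [13, 2, 12, 14], [10, 1,
    9, 15], [6, 2, 13, 16], [9, 2, 5, 16, 17], [12, 2, 8, 18]]
  P := {
    a := 8
    N := 19
    nb := [774, 3857, 13289, 28676, 34306, 73796, 197156, 266500, 264327, 163927, 34834, 1282, 278668,
      81964, 12296, 1552, 139360, 66112, 4480]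
    tri := [(0, 1, 8), (0, 1, 9), (0, 2, 8), (0, 2, 9), (1, 4, 9), (1, 4, 10), (1, 8, 11), (1, 10, 11),
      (2, 3, 12), (2, 3, 13), (2, 5, 6), (2, 5, 13), (2, 6, 9), (2, 7, 8), (2, 7, 12), (3, 12,
      14), (3, 13, 14), (4, 9, 15), (4, 10, 15), (5, 6, 16), (5, 13, 16), (6, 9, 17), (6, 16, 17),
      (7, 8, 18), (7, 12, 18)]
    fin := [0, 1, 0, 0, 1, 0, 0, 0, 0, 0, 10, 11, 12, 0, 14, 1, 16, 17, 18]
    chd := [(0, 12), (11, 1)]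
    steps := [(0, 2), (0, 3), (0, 5), (0, 6), (0, 7), (0, 8), (0, 13), (0, 9), (1, 4), (1, 15)] }
  rep := [0, 12, 11, 10, 16, 1, 14, 17, 18]

noncomputable def v3477 : Cov.CovD where
  P := 3
  N := 6
  pl := [2, 6, 8, 9, 10]
  lev := [⟨[], [], [(0, 0)], [], [(0, 0, [1]), (1, 0, [1])]⟩,
    ⟨[], [(0, 0), (0, 2)], [(0, 0), (0, 2)], [3], [(0, 0, [1]), (1, 0, [1]), (3, 2, [5])]⟩,
    ⟨[(0, 1)], [(0, 0), (0, 1), (1, 0)], [(0, 0), (0, 1)], [], [(0, 0, [1]), (1, 0, [1]),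
      (4, 1, [0]), (5, 0, [1])]⟩,
    ⟨[(0, 2)], [(2, 0), (2, 1)], [(0, 1)], [6], [(4, 1, [0]), (5, 0, [1])]⟩,
    ⟨[(0, 1)], [(0, 0), (1, 0), (1, 2), (1, 5), (2, 0)], [(0, 5)], [3], [(1, 0, [1]), (7,
      5, [2])]⟩,
    ⟨[(0, 2), (2, 3)], [(2, 0), (2, 1), (3, 0)], [], [4], [(5, 0, [1])]⟩,
    ⟨[(0, 2), (2, 3), (2, 5)], [(0, 0), (1, 0), (2, 0), (2, 1), (4, 0), (5, 0)], [], [4,
      7], [(1, 0, [1])]⟩,
    ⟨[(0, 2), (2, 3), (2, 5), (2, 6)], [(0, 0), (1, 0), (2, 0), (2, 1), (3, 1)], [(0, 1)],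
      [8], [(0, 0, [1]), (4, 1, [0])]⟩]
  Ta := [((0, 3), 0, 2), ((0, 10), 0, 8), ((1, 7), 0, 5), ((1, 9), 0, 7), ((5, 6), 0, 6), ((5,
    8), 0, 4)]
  Tb := [((0, 3, 10), 0, 2, 8), ((1, 7, 9), 0, 5, 7), ((2, 3, 7), 3, 2, 5), ((3, 0, 2), 2, 0, 3),
    ((4, 6, 10), 1, 6, 8), ((5, 6, 8), 0, 6, 4), ((6, 4, 5), 6, 1, 0), ((7, 1, 2), 5, 0, 3),
    ((8, 5, 9), 4, 0, 7), ((9, 1, 8), 7, 0, 4), ((10, 0, 4), 8, 0, 1)]
  Tc := []
  Td := [((0, 1), (0, 3), 2), ((0, 1), (0, 10), 8), ((0, 1), (1, 7), 5), ((0, 1), (1, 9), 7),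
    ((0, 1), (5, 6), 6), ((0, 1), (5, 8), 4), ((1, 0), (4, 6), 6), ((1, 0), (4, 10), 8), ((2,
    5), (3, 0), 0), ((2, 5), (3, 2), 3), ((5, 2), (7, 1), 0), ((5, 2), (7, 2), 3)]
  G := [[0, 0xa1c1a2a146862a3a48c6ce11a1c1ac443c24c, 0xc14162181221c24181c1e818c1c16418c6,
    0xc1c16218c4c2611c8811cc2, 0xc1c1a414c4c2611c8811ca2], [0,
    0xa1a1a2caae116441426aae112181a2e8c2, 0, 0x11c116a1812a11c116ae1414411c11a6618c2,
    0x11c116a11c116a11c116ae1411c116a414a2], [0, 0x6161c2c1c1c2a2666112ccce11c881aac8, 0,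
    0x11811623111b11a2c41162144311c11a61c18818cc2,
    0x14126111c11a61c18818c115113641111a64c8a4]]

noncomputable def n3477 : Ent := ⟨e3477, noF, [], [], [(18, 11, [30043303427623734937694548589408397128520940011160098207617123883052240897, 0]), (14, 10, [31810581956886796354777272659160719390283401570582909063247595164650778625, 0]), (17, 15, [31810150703026702604389600475053274033659867542605680387665729161849815041, 0])]⟩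

def c3477 : PLift (Cov.check n3477.C.D v3477 = true) := ⟨by decide +kernel⟩

def b3477 : PLift (entF (fidx ts) 400 3477 n3477 = true) := ⟨by decide +kernel⟩

theorem g3477 : GoodF (fidx ts) 400 3477 := GoodF.ofV v3477 n3477 c3477.down b3477.down

/-- 47484546:2632/2 -/
noncomputable def e3478 : SCfg where
  D := {
    a := 8
    L := 9
    kp := 6
    inn := [(0, 1), (1, 0), (1, 2), (1, 3), (1, 6), (2, 1), (2, 3), (3, 1), (3, 2), (3, 4), (3, 5), (3,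
      7), (4, 3), (4, 5), (4, 7), (5, 3), (5, 4), (6, 1), (7, 3), (7, 4)]
    mix := [(0, 0), (0, 1), (0, 2), (1, 0), (1, 2), (1, 3), (2, 2), (2, 4), (3, 3), (3, 4), (3, 5), (4,
      6), (5, 3), (5, 6), (5, 7), (6, 0), (6, 3), (6, 7), (7, 1), (7, 5), (7, 6), (7, 8)]
    cl := [1, 5, 0, 0, 2, 3, 3, 4, 6]
    chq := [(0, 1), (1, 0), (2, 4), (4, 2)]
    rng := [(0, 1), (0, 7), (1, 0), (1, 2), (1, 5), (1, 8), (2, 1), (2, 4), (3, 7), (4, 2), (4, 5), (5,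
      1), (5, 4), (6, 7), (6, 8), (7, 0), (7, 3), (7, 6), (8, 1), (8, 6)]
    lev := [] }
  links := [[1, 8, 9, 10], [8, 0, 10, 2, 3, 11, 6], [3, 1, 10, 12], [11, 1, 2, 12, 13, 7, 4, 5], [5, 3,
    7, 14], [11, 3, 4, 14, 15], [8, 1, 11, 15], [14, 4, 3, 13, 9, 16]]
  P := {
    a := 8
    N := 17
    nb := [1794, 3405, 5130, 14518, 16552, 51224, 35074, 90648, 33347, 75137, 4615, 32874, 9228, 4744,
      98480, 18784, 17024]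
    tri := [(0, 1, 8), (0, 1, 10), (0, 8, 9), (0, 9, 10), (1, 2, 3), (1, 2, 10), (1, 3, 11), (1, 6, 8),
      (1, 6, 11), (2, 3, 12), (2, 10, 12), (3, 4, 5), (3, 4, 7), (3, 5, 11), (3, 7, 13), (3, 12,
      13), (4, 5, 14), (4, 7, 14), (5, 11, 15), (5, 14, 15), (6, 8, 15), (6, 11, 15), (7, 9, 13),
      (7, 9, 16), (7, 14, 16)]
    fin := [0, 1, 1, 3, 3, 3, 0, 7, 0, 9, 1, 1, 3, 7, 7, 15, 16]
    chd := [(0, 1), (3, 15)]
    steps := [(0, 8), (0, 6), (1, 2), (1, 10), (1, 11), (3, 4), (3, 5), (3, 12), (7, 13), (7, 14)] }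
  rep := [1, 0, 3, 7, 15, 9, 16]

noncomputable def v3478 : Cov.CovD where
  P := 3
  N := 4
  pl := [1, 8]
  lev := [⟨[], [], [(0, 1)], [5], [(0, 1, [0]), (2, 0, [1])]⟩,
    ⟨[], [(0, 0), (0, 1)], [(0, 0), (0, 1)], [], [(0, 1, [0]), (2, 0, [1]), (3, 0, [1])]⟩,
    ⟨[(0, 1)], [(0, 0), (1, 0), (1, 1), (1, 2)], [(0, 2)], [], [(2, 0, [1]), (4, 2, [4])]⟩,
    ⟨[(0, 1), (1, 2)], [(1, 0), (1, 1), (1, 2), (1, 3), (2, 0), (2, 2), (2, 3)], [(0, 2),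
      (0, 3), (2, 3)], [], [(3, 0, [1]), (4, 2, [4]), (5, 3, [])]⟩,
    ⟨[(1, 3), (2, 3)], [(3, 0), (3, 2), (3, 3)], [], [], [(6, 3, [])]⟩,
    ⟨[(1, 3), (2, 3), (3, 4)], [(1, 0), (3, 0), (3, 2), (3, 3), (3, 4), (4, 0), (4, 3), (4,
      4)], [(0, 3), (0, 4), (3, 4)], [], [(3, 0, [1]), (6, 3, []), (7, 4, [2])]⟩,
    ⟨[(0, 1), (1, 2), (1, 3)], [(0, 1), (1, 0), (1, 1), (1, 4), (3, 0), (5, 0), (5, 4)],
      [(0, 1), (0, 4), (1, 4)], [], [(0, 1, [0]), (3, 0, [1]), (7, 4, [2])]⟩,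
    ⟨[(1, 3), (2, 3), (3, 4), (3, 5), (4, 5)], [(3, 0), (3, 2), (3, 3), (4, 3), (5, 3)],
      [(3, 3)], [5, 6], [(5, 3, []), (6, 3, [])]⟩]
  Ta := [((2, 1), 0, 5), ((2, 4), 0, 2), ((3, 7), 0, 4), ((5, 1), 3, 5), ((5, 4), 3, 2), ((6, 7),
    3, 4), ((6, 8), 3, 6)]
  Tb := [((0, 1, 7), 1, 5, 4), ((1, 0, 2), 5, 1, 0), ((1, 0, 5), 5, 1, 3), ((1, 0, 8), 5, 1, 6),
    ((1, 2, 5), 5, 0, 3), ((1, 2, 8), 5, 0, 6), ((1, 5, 8), 5, 3, 6), ((2, 1, 4), 0, 5, 2),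
    ((4, 2, 5), 2, 0, 3), ((5, 1, 4), 3, 5, 2), ((6, 7, 8), 3, 4, 6), ((7, 0, 3), 4, 1, 0),
    ((7, 0, 6), 4, 1, 3), ((7, 3, 6), 4, 0, 3), ((8, 1, 6), 6, 5, 3)]
  Tc := []
  Td := [((0, 1), (2, 1), 5), ((0, 1), (2, 4), 2), ((0, 1), (3, 7), 4), ((1, 0), (0, 1), 5), ((1,
    0), (0, 7), 4), ((2, 4), (4, 2), 0), ((2, 4), (4, 5), 3), ((4, 2), (7, 0), 1), ((4, 2),
    (7, 3), 0), ((4, 2), (7, 6), 3)]
  G := [[0, 0xb441b824c1274417882c12c, 0x91243818a4451283148688c, 0x3121491218c471216824984c,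
    0xb14218482842b2471486882924c], [0, 0xc8c2b27284477628418a, 0xfbc14824813437841c9248c,
    0x212d1268447128488c, 0xa1471492847148288c], [0, 0xd242844d821482388241e2323484ce, 0,
    0x842481448814187442b821c48d, 0x57c217884a88c418a41], [0, 0xcc62721a41877c28812a, 0,
    0xa4446b423486822898a684c1, 0xeec4ddc438241]]

noncomputable def n3478 : Ent := ⟨e3478, noF, [], [], []⟩

def c3478 : PLift (Cov.check n3478.C.D v3478 = true) := ⟨by decide +kernel⟩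

def b3478 : PLift (entF (fidx ts) 400 3478 n3478 = true) := ⟨by decide +kernel⟩

theorem g3478 : GoodF (fidx ts) 400 3478 := GoodF.ofV v3478 n3478 c3478.down b3478.down

/-- 47484546:2632/1 -/
noncomputable def e3479 : SCfg where
  D := {
    a := 8
    L := 10
    kp := 7
    inn := [(0, 1), (1, 0), (1, 2), (1, 3), (1, 6), (2, 1), (2, 3), (3, 1), (3, 2), (3, 4), (3, 5), (3,
      7), (4, 3), (4, 5), (4, 7), (5, 3), (5, 4), (6, 1), (7, 3), (7, 4)]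
    mix := [(0, 0), (0, 1), (0, 2), (1, 0), (1, 2), (1, 3), (2, 2), (2, 4), (3, 3), (3, 4), (3, 5), (4,
      6), (5, 3), (5, 6), (5, 7), (6, 0), (6, 3), (6, 8), (7, 1), (7, 5), (7, 6), (7, 9)]
    cl := [1, 4, 0, 0, 2, 3, 3, 5, 6, 7]
    chq := [(0, 1), (1, 0), (2, 5), (5, 2)]
    rng := [(0, 1), (0, 8), (1, 0), (1, 2), (1, 5), (1, 9), (2, 1), (2, 4), (3, 7), (3, 8), (4, 2), (4,
      5), (5, 1), (5, 4), (6, 7), (6, 9), (7, 3), (7, 6), (8, 0), (8, 3), (9, 1), (9, 6)]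
    lev := [] }
  links := [[1, 8, 9, 10], [8, 0, 10, 2, 3, 11, 6], [3, 1, 10, 12], [11, 1, 2, 12, 13, 7, 4, 5], [5, 3,
    7, 14], [11, 3, 4, 14, 15], [8, 1, 11, 16], [14, 4, 3, 13, 9, 17]]
  P := {
    a := 8
    N := 18
    nb := [1794, 3405, 5130, 14518, 16552, 51224, 67842, 156184, 66115, 140673, 4615, 98410, 9228,
      4744, 164016, 18464, 2368, 17024]
    tri := [(0, 1, 8), (0, 1, 10), (0, 8, 9), (0, 9, 10), (1, 2, 3), (1, 2, 10), (1, 3, 11), (1, 6, 8),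
      (1, 6, 11), (2, 3, 12), (2, 10, 12), (3, 4, 5), (3, 4, 7), (3, 5, 11), (3, 7, 13), (3, 12,
      13), (4, 5, 14), (4, 7, 14), (5, 11, 15), (5, 14, 15), (6, 8, 16), (6, 11, 16), (7, 9, 13),
      (7, 9, 17), (7, 14, 17)]
    fin := [0, 1, 1, 3, 3, 3, 0, 7, 0, 9, 1, 1, 3, 7, 7, 15, 16, 17]
    chd := [(0, 1), (3, 15)]
    steps := [(0, 8), (0, 6), (1, 2), (1, 10), (1, 11), (3, 4), (3, 5), (3, 12), (7, 13), (7, 14)] }
  rep := [1, 0, 3, 7, 9, 15, 16, 17]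

noncomputable def v3479 : Cov.CovD where
  P := 3
  N := 5
  pl := [1, 8, 9]
  lev := [⟨[], [], [(0, 1)], [4], [(0, 1, [0]), (2, 0, [1])]⟩,
    ⟨[], [(0, 0), (0, 1)], [(0, 0), (0, 1)], [], [(0, 1, [0]), (2, 0, [1]), (3, 0, [1])]⟩,
    ⟨[(0, 1)], [(0, 0), (1, 0), (1, 1), (1, 2)], [(0, 2)], [], [(2, 0, [1]), (4, 2, [5])]⟩,
    ⟨[(0, 1), (1, 2)], [(1, 0), (1, 1), (1, 2), (1, 3), (2, 0), (2, 2), (2, 3)], [(0, 2),
      (0, 3), (2, 3)], [], [(3, 0, [1]), (4, 2, [5]), (5, 3, [])]⟩,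
    ⟨[(1, 3), (2, 3)], [(3, 0), (3, 2), (3, 3)], [], [], [(6, 3, [])]⟩,
    ⟨[(1, 3), (2, 3), (3, 4)], [(1, 0), (3, 0), (3, 2), (3, 3), (3, 5), (4, 0), (4, 3), (4,
      5)], [(0, 3), (0, 5), (3, 5)], [], [(3, 0, [1]), (6, 3, []), (7, 5, [2])]⟩,
    ⟨[(0, 1), (1, 2), (1, 3)], [(0, 1), (1, 0), (1, 1), (3, 0), (5, 0)], [(0, 1)], [6],
      [(0, 1, [0]), (3, 0, [1])]⟩,
    ⟨[(1, 3), (2, 3), (3, 4), (3, 5), (4, 5)], [(3, 0), (3, 2), (3, 3), (4, 3), (5, 3)],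
      [(3, 3)], [4, 7], [(5, 3, []), (6, 3, [])]⟩]
  Ta := [((2, 1), 0, 4), ((2, 4), 0, 2), ((3, 7), 0, 5), ((3, 8), 0, 6), ((5, 1), 3, 4), ((5, 4),
    3, 2), ((6, 7), 3, 5), ((6, 9), 3, 7)]
  Tb := [((0, 1, 8), 1, 4, 6), ((1, 0, 2), 4, 1, 0), ((1, 0, 5), 4, 1, 3), ((1, 0, 9), 4, 1, 7),
    ((1, 2, 5), 4, 0, 3), ((1, 2, 9), 4, 0, 7), ((1, 5, 9), 4, 3, 7), ((2, 1, 4), 0, 4, 2),
    ((3, 7, 8), 0, 5, 6), ((4, 2, 5), 2, 0, 3), ((5, 1, 4), 3, 4, 2), ((6, 7, 9), 3, 5, 7),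
    ((7, 3, 6), 5, 0, 3), ((8, 0, 3), 6, 1, 0), ((9, 1, 6), 7, 4, 3)]
  Tc := []
  Td := [((0, 1), (2, 1), 4), ((0, 1), (2, 4), 2), ((0, 1), (3, 7), 5), ((0, 1), (3, 8), 6), ((1,
    0), (0, 1), 4), ((1, 0), (0, 8), 6), ((2, 5), (4, 2), 0), ((2, 5), (4, 5), 3), ((5, 2),
    (7, 3), 0), ((5, 2), (7, 6), 3)]
  G := [[0, 0x99a2184455a214823362433621c48e, 0x2191a1914162471217184a84c,
    0x3128491218c46121431248c8c, 0x31812b1428a471425141a28c], [0, 0xcca27761a41277628814a,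
    0x88c133c1c28433c144c1c248c, 0xf124844f128488c, 0xa1471492847148824c], [0,
    0x9962145c1238c1234476612813c92c48a, 0, 0x88c24814482841874214833c243821c8cd,
    0x582177c48a8dc418a41], [0, 0xcca277a1a41277a28844a, 0, 0xe42742948e82b82584c1,
    0xeec477c492841]]

noncomputable def n3479 : Ent := ⟨e3479, noF, [], [], [(15, 16, [7334685537875745012586738086077695515070955365108989538292687707922433, 0])]⟩

def c3479 : PLift (Cov.check n3479.C.D v3479 = true) := ⟨by decide +kernel⟩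

def b3479 : PLift (entF (fidx ts) 400 3479 n3479 = true) := ⟨by decide +kernel⟩

theorem g3479 : GoodF (fidx ts) 400 3479 := GoodF.ofV v3479 n3479 c3479.down b3479.down

/-- The entries 3361 to 3479. -/
theorem rE24 : Rng (GoodF (fidx ts) 400) 3361 3480 :=
  ((((((((((((((((((((((((((((((((((((((((((((((((((((((((((((((((((((((((((((((((((((((((((((((((((((((((((((((((((((((((Rng.nil _ 3361).snoc g3361 rfl).snoc g3362 rfl).snoc g3363 rfl).snoc g3364 rfl).snoc g3365 rfl).snoc g3366 rfl).snoc g3367 rfl).snoc g3368 rfl).snoc g3369 rfl).snoc g3370 rfl).snoc g3371 rfl).snoc g3372 rfl).snoc g3373 rfl).snoc g3374 rfl).snoc g3375 rfl).snoc g3376 rfl).snoc g3377 rfl).snoc g3378 rfl).snoc g3379 rfl).snoc g3380 rfl).snoc g3381 rfl).snoc g3382 rfl).snoc g3383 rfl).snoc g3384 rfl).snoc g3385 rfl).snoc g3386 rfl).snoc g3387 rfl).snoc g3388 rfl).snoc g3389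 rfl).snoc g3390 rfl).snoc g3391 rfl).snoc g3392 rfl).snoc g3393 rfl).snoc g3394 rfl).snoc g3395 rfl).snoc g3396 rfl).snoc g3397 rfl).snoc g3398 rfl).snoc g3399 rfl).snoc g3400 rfl).snoc g3401 rfl).snoc g3402 rfl).snoc g3403 rfl).snoc g3404 rfl).snoc g3405 rfl).snoc g3406 rfl).snoc g3407 rfl).snoc g3408 rfl).snoc g3409 rfl).snoc g3410 rfl).snoc g3411 rfl).snoc g3412 rfl).snoc g3413 rfl).snoc g3414 rfl).snoc g3415 rfl).snoc g3416 rfl).snoc g3417 rfl).snoc g3418 rfl).snoc g3419 rfl).snoc g3420 rfl).snoc g3421 rfl).snoc g3422 rfl).snoc g3423 rfl).snoc g3424 rfl).snoc g3425 rfl).snoc g3426 rfl).snoc g3427 rfl).snoc g3428 rfl).snoc g3429 rfl).snoc g3430 rfl).snoc g3431 rfl).snoc g3432 rfl).snoc g3433 rfl).snoc g3434 rfl).snoc g3435 rfl).snoc g3436 rfl).snoc g3437 rfl).snoc g3438 rfl).snoc g3439 rfl).snoc g3440 rfl).snoc g3441 rfl).snoc g3442 rfl).snoc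 g3443 rfl).snoc g3444 rfl).snoc g3445 rfl).snoc g3446 rfl).snoc g3447 rfl).snoc g3448 rfl).snoc g3449 rfl).snoc g3450 rfl).snoc g3451 rfl).snoc g3452 rfl).snoc g3453 rfl).snoc g3454 rfl).snoc g3455 rfl).snoc g3456 rfl).snoc g3457 rfl).snoc g3458 rfl).snoc g3459 rfl).snoc g3460 rfl).snoc g3461 rfl).snoc g3462 rfl).snoc g3463 rfl).snoc g3464 rfl).snoc g3465 rfl).snoc g3466 rfl).snoc g3467 rfl).snoc g3468 rfl).snoc g3469 rfl).snoc g3470 rfl).snoc g3471 rfl).snoc g3472 rfl).snoc g3473 rfl).snoc g3474 rfl).snoc g3475 rfl).snoc g3476 rfl).snoc g3477 rfl).snoc g3478 rfl).snoc g3479 rfl)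

end Pool.Agent.W986.ST.Dat
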