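import Pool.Agent.W986.Dat.Tab
import Pool.Agent.W986.SubAltB

/-!
# Entries 3480 to 3594 of the table
-/

set_option autoImplicit false

namespace Pool.Agent.W986.ST.Dat

/-- 47484546:2632/4 -/
noncomputable def e3480 : SCfg where
  D := {
    a := 8
    L := 9
    kp := 6
    inn := [(0, 1), (1, 0), (1, 2), (1, 3), (1, 6), (2, 1), (2, 3), (3, 1), (3, 2), (3, 4), (3, 5), (3,
      7), (4, 3), (4, 5), (4, 7), (5, 3), (5, 4), (6, 1), (7, 3), (7, 4)]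
    mix := [(0, 0), (0, 1), (0, 2), (1, 0), (1, 2), (1, 3), (2, 2), (2, 4), (3, 3), (3, 4), (3, 5), (4,
      6), (5, 3), (5, 6), (5, 7), (6, 0), (6, 3), (6, 7), (7, 1), (7, 5), (7, 6), (7, 8)]
    cl := [1, 5, 0, 0, 2, 3, 3, 4, 6]
    chq := [(0, 1), (1, 0), (2, 4), (4, 2)]
    rng := [(0, 1), (0, 7), (1, 0), (1, 2), (1, 6), (1, 8), (2, 1), (2, 4), (3, 7), (4, 2), (4, 5), (5,
      4), (5, 8), (6, 1), (6, 7), (7, 0), (7, 3), (7, 6), (8, 1), (8, 5)]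
    lev := [] }
  links := [[1, 8, 9, 10], [8, 0, 10, 2, 3, 11, 6], [3, 1, 10, 12], [11, 1, 2, 12, 13, 7, 4, 5], [5, 3,
    7, 14], [11, 3, 4, 14, 15], [8, 1, 11, 15], [14, 4, 3, 13, 16, 9]]
  P := {
    a := 8
    N := 17
    nb := [1794, 3405, 5130, 14518, 16552, 51224, 35074, 90648, 33347, 83329, 4615, 32874, 9228,
      69768, 33456, 18784, 8832]
    tri := [(0, 1, 8), (0, 1, 10), (0, 8, 9), (0, 9, 10), (1, 2, 3), (1, 2, 10), (1, 3, 11), (1, 6, 8),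
      (1, 6, 11), (2, 3, 12), (2, 10, 12), (3, 4, 5), (3, 4, 7), (3, 5, 11), (3, 7, 13), (3, 12,
      13), (4, 5, 14), (4, 7, 14), (5, 11, 15), (5, 14, 15), (6, 8, 15), (6, 11, 15), (7, 9, 14),
      (7, 9, 16), (7, 13, 16)]
    fin := [0, 1, 1, 3, 3, 3, 0, 7, 0, 9, 1, 1, 3, 7, 7, 15, 16]
    chd := [(0, 1), (3, 15)]
    steps := [(0, 8), (0, 6), (1, 2), (1, 10), (1, 11), (3, 4), (3, 5), (3, 12), (7, 13), (7, 14)] }
  rep := [1, 0, 3, 7, 15, 9, 16]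

noncomputable def v3480 : Cov.CovD where
  P := 3
  N := 4
  pl := [1, 8]
  lev := [⟨[], [], [(0, 1)], [5], [(0, 1, [0]), (2, 0, [1])]⟩,
    ⟨[], [(0, 0), (0, 1)], [(0, 0), (0, 1)], [], [(0, 1, [0]), (2, 0, [1]), (3, 0, [1])]⟩,
    ⟨[(0, 1)], [(0, 0), (1, 0), (1, 1), (1, 2)], [(0, 2)], [], [(2, 0, [1]), (4, 2, [4])]⟩,
    ⟨[(0, 1), (1, 2)], [(1, 0), (1, 1), (1, 2), (1, 3), (2, 0), (2, 2), (2, 3)], [(0, 2),
      (0, 3), (2, 3)], [], [(3, 0, [1]), (4, 2, [4]), (5, 3, [])]⟩,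
    ⟨[(1, 3), (2, 3)], [(3, 0), (3, 2), (3, 3)], [], [], [(6, 3, [])]⟩,
    ⟨[(1, 3), (2, 3), (3, 4)], [(1, 0), (3, 0), (3, 2), (3, 3), (3, 4), (4, 0), (4, 3), (4,
      4)], [(0, 3), (0, 4), (3, 4)], [], [(3, 0, [1]), (6, 3, []), (7, 4, [2])]⟩,
    ⟨[(0, 1), (1, 2), (1, 3)], [(0, 1), (1, 0), (1, 1), (1, 4), (3, 0), (5, 0), (5, 4)],
      [(0, 1), (0, 4), (1, 4)], [], [(0, 1, [0]), (3, 0, [1]), (7, 4, [2])]⟩,
    ⟨[(1, 3), (2, 3), (3, 4), (3, 5), (4, 5)], [(3, 0), (3, 2), (3, 3), (4, 3), (5, 3)],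
      [(3, 3)], [5, 6], [(5, 3, []), (6, 3, [])]⟩]
  Ta := [((2, 1), 0, 5), ((2, 4), 0, 2), ((3, 7), 0, 4), ((5, 4), 3, 2), ((5, 8), 3, 6), ((6, 1),
    3, 5), ((6, 7), 3, 4)]
  Tb := [((0, 1, 7), 1, 5, 4), ((1, 0, 2), 5, 1, 0), ((1, 0, 6), 5, 1, 3), ((1, 0, 8), 5, 1, 6),
    ((1, 2, 6), 5, 0, 3), ((1, 2, 8), 5, 0, 6), ((1, 6, 8), 5, 3, 6), ((2, 1, 4), 0, 5, 2),
    ((4, 2, 5), 2, 0, 3), ((5, 4, 8), 3, 2, 6), ((6, 1, 7), 3, 5, 4), ((7, 0, 3), 4, 1, 0),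
    ((7, 0, 6), 4, 1, 3), ((7, 3, 6), 4, 0, 3), ((8, 1, 5), 6, 5, 3)]
  Tc := []
  Td := [((0, 1), (2, 1), 5), ((0, 1), (2, 4), 2), ((0, 1), (3, 7), 4), ((1, 0), (0, 1), 5), ((1,
    0), (0, 7), 4), ((2, 4), (4, 2), 0), ((2, 4), (4, 5), 3), ((4, 2), (7, 0), 1), ((4, 2),
    (7, 3), 0), ((4, 2), (7, 6), 3)]
  G := [[0, 0xb424b882c423212816864a1416c, 0x9127186428b148251248c8c, 0xb1218448625847121848c,
    0x7148291428a47141884c], [0, 0xc4c292728146662321a488a, 0x28119c191b1c728437c141583c248c,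
    0x2129126844212512a488c, 0xa1491438246145143824c], [0, 0x9242844443252d282c183aa28414e,
    0, 0xb442b828c14742487828458c, 0x7481274248a88c4182c1], [0, 0xc2c252b2488aa6232164186, 0,
    0x24224d46a48e82b82584c1, 0x8884c421466c455c438249]]

noncomputable def n3480 : Ent := ⟨e3480, noF, [], [], []⟩

def c3480 : PLift (Cov.check n3480.C.D v3480 = true) := ⟨by decide +kernel⟩

def b3480 : PLift (entF (fidx ts) 400 3480 n3480 = true) := ⟨by decide +kernel⟩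

theorem g3480 : GoodF (fidx ts) 400 3480 := GoodF.ofV v3480 n3480 c3480.down b3480.down

/-- 47484546:2632/3 -/
noncomputable def e3481 : SCfg where
  D := {
    a := 8
    L := 10
    kp := 7
    inn := [(0, 1), (1, 0), (1, 2), (1, 3), (1, 6), (2, 1), (2, 3), (3, 1), (3, 2), (3, 4), (3, 5), (3,
      7), (4, 3), (4, 5), (4, 7), (5, 3), (5, 4), (6, 1), (7, 3), (7, 4)]
    mix := [(0, 0), (0, 1), (0, 2), (1, 0), (1, 2), (1, 3), (2, 2), (2, 4), (3, 3), (3, 4), (3, 5), (4,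
      6), (5, 3), (5, 6), (5, 7), (6, 0), (6, 3), (6, 8), (7, 1), (7, 5), (7, 6), (7, 9)]
    cl := [1, 4, 0, 0, 2, 3, 3, 5, 6, 7]
    chq := [(0, 1), (1, 0), (2, 5), (5, 2)]
    rng := [(0, 1), (0, 8), (1, 0), (1, 2), (1, 6), (1, 9), (2, 1), (2, 4), (3, 7), (3, 8), (4, 2), (4,
      5), (5, 4), (5, 9), (6, 1), (6, 7), (7, 3), (7, 6), (8, 0), (8, 3), (9, 1), (9, 5)]
    lev := [] }
  links := [[1, 8, 9, 10], [8, 0, 10, 2, 3, 11, 6], [3, 1, 10, 12], [11, 1, 2, 12, 13, 7, 4, 5], [5, 3,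
    7, 14], [11, 3, 4, 14, 15], [8, 1, 11, 16], [14, 4, 3, 13, 17, 9]]
  P := {
    a := 8
    N := 18
    nb := [1794, 3405, 5130, 14518, 16552, 51224, 67842, 156184, 66115, 148865, 4615, 98410, 9228,
      135304, 33456, 18464, 2368, 8832]
    tri := [(0, 1, 8), (0, 1, 10), (0, 8, 9), (0, 9, 10), (1, 2, 3), (1, 2, 10), (1, 3, 11), (1, 6, 8),
      (1, 6, 11), (2, 3, 12), (2, 10, 12), (3, 4, 5), (3, 4, 7), (3, 5, 11), (3, 7, 13), (3, 12,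
      13), (4, 5, 14), (4, 7, 14), (5, 11, 15), (5, 14, 15), (6, 8, 16), (6, 11, 16), (7, 9, 14),
      (7, 9, 17), (7, 13, 17)]
    fin := [0, 1, 1, 3, 3, 3, 0, 7, 0, 9, 1, 1, 3, 7, 7, 15, 16, 17]
    chd := [(0, 1), (3, 15)]
    steps := [(0, 8), (0, 6), (1, 2), (1, 10), (1, 11), (3, 4), (3, 5), (3, 12), (7, 13), (7, 14)] }
  rep := [1, 0, 3, 7, 9, 15, 16, 17]

noncomputable def v3481 : Cov.CovD where
  P := 3
  N := 5
  pl := [1, 8, 9]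
  lev := [⟨[], [], [(0, 1)], [4], [(0, 1, [0]), (2, 0, [1])]⟩,
    ⟨[], [(0, 0), (0, 1)], [(0, 0), (0, 1)], [], [(0, 1, [0]), (2, 0, [1]), (3, 0, [1])]⟩,
    ⟨[(0, 1)], [(0, 0), (1, 0), (1, 1), (1, 2)], [(0, 2)], [], [(2, 0, [1]), (4, 2, [5])]⟩,
    ⟨[(0, 1), (1, 2)], [(1, 0), (1, 1), (1, 2), (1, 3), (2, 0), (2, 2), (2, 3)], [(0, 2),
      (0, 3), (2, 3)], [], [(3, 0, [1]), (4, 2, [5]), (5, 3, [])]⟩,
    ⟨[(1, 3), (2, 3)], [(3, 0), (3, 2), (3, 3)], [], [], [(6, 3, [])]⟩,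
    ⟨[(1, 3), (2, 3), (3, 4)], [(1, 0), (3, 0), (3, 2), (3, 3), (3, 5), (4, 0), (4, 3), (4,
      5)], [(0, 3), (0, 5), (3, 5)], [], [(3, 0, [1]), (6, 3, []), (7, 5, [2])]⟩,
    ⟨[(0, 1), (1, 2), (1, 3)], [(0, 1), (1, 0), (1, 1), (3, 0), (5, 0)], [(0, 1)], [6],
      [(0, 1, [0]), (3, 0, [1])]⟩,
    ⟨[(1, 3), (2, 3), (3, 4), (3, 5), (4, 5)], [(3, 0), (3, 2), (3, 3), (4, 3), (5, 3)],
      [(3, 3)], [4, 7], [(5, 3, []), (6, 3, [])]⟩]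
  Ta := [((2, 1), 0, 4), ((2, 4), 0, 2), ((3, 7), 0, 5), ((3, 8), 0, 6), ((5, 4), 3, 2), ((5, 9),
    3, 7), ((6, 1), 3, 4), ((6, 7), 3, 5)]
  Tb := [((0, 1, 8), 1, 4, 6), ((1, 0, 2), 4, 1, 0), ((1, 0, 6), 4, 1, 3), ((1, 0, 9), 4, 1, 7),
    ((1, 2, 6), 4, 0, 3), ((1, 2, 9), 4, 0, 7), ((1, 6, 9), 4, 3, 7), ((2, 1, 4), 0, 4, 2),
    ((3, 7, 8), 0, 5, 6), ((4, 2, 5), 2, 0, 3), ((5, 4, 9), 3, 2, 7), ((6, 1, 7), 3, 4, 5),
    ((7, 3, 6), 5, 0, 3), ((8, 0, 3), 6, 1, 0), ((9, 1, 5), 7, 4, 3)]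
  Tc := []
  Td := [((0, 1), (2, 1), 4), ((0, 1), (2, 4), 2), ((0, 1), (3, 7), 5), ((0, 1), (3, 8), 6), ((1,
    0), (0, 1), 4), ((1, 0), (0, 8), 6), ((2, 5), (4, 2), 0), ((2, 5), (4, 5), 3), ((5, 2),
    (7, 3), 0), ((5, 2), (7, 6), 3)]
  G := [[0, 0x9962438247c25c1277624818a, 0x9141b182c2451217148688c, 0x3121481248c44182471218c8c,
    0x7148291428a47142884c], [0, 0xaa623361a41833a266a2c814c, 0xbbc199c1628455c166c1a428c,
    0xe1291258446123129488c, 0xa1491438246145149288c], [0, 0x8a624383234c123362444a28c18c, 0,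
    0x88c24814342144c28c1833c2844382884cd, 0x77c482ddc418a41], [0,
    0xcca255c1a48266a233a29844a, 0, 0xe42742948e82b82584c1, 0xeec4ddc438241]]

noncomputable def n3481 : Ent := ⟨e3481, noF, [], [], [(15, 16, [7334685537875745012586738086077695515070955365108989538292687707930625, 0])]⟩

def c3481 : PLift (Cov.check n3481.C.D v3481 = true) := ⟨by decide +kernel⟩

def b3481 : PLift (entF (fidx ts) 400 3481 n3481 = true) := ⟨by decide +kernel⟩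

theorem g3481 : GoodF (fidx ts) 400 3481 := GoodF.ofV v3481 n3481 c3481.down b3481.down

/-- 47484546:2632/6 -/
noncomputable def e3482 : SCfg where
  D := {
    a := 8
    L := 9
    kp := 6
    inn := [(0, 1), (1, 0), (1, 2), (1, 3), (1, 6), (2, 1), (2, 3), (3, 1), (3, 2), (3, 4), (3, 5), (3,
      7), (4, 3), (4, 5), (4, 7), (5, 3), (5, 4), (6, 1), (7, 3), (7, 4)]
    mix := [(0, 0), (0, 1), (0, 2), (1, 0), (1, 2), (1, 3), (2, 2), (2, 4), (3, 3), (3, 4), (3, 5), (4,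
      1), (5, 1), (5, 3), (5, 6), (6, 0), (6, 3), (6, 6), (7, 1), (7, 5), (7, 7), (7, 8)]
    cl := [2, 1, 0, 0, 3, 1, 4, 5, 6]
    chq := [(0, 2), (2, 0), (3, 4), (4, 3)]
    rng := [(0, 1), (0, 6), (1, 0), (1, 2), (1, 6), (1, 8), (2, 1), (2, 4), (3, 6), (4, 2), (4, 5), (5,
      4), (5, 7), (6, 0), (6, 1), (6, 3), (7, 5), (7, 8), (8, 1), (8, 7)]
    lev := [] }
  links := [[1, 8, 9, 10], [8, 0, 10, 2, 3, 11, 6], [3, 1, 10, 12], [11, 1, 2, 12, 13, 7, 4, 5], [5, 3,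
    7, 9], [11, 3, 4, 9, 14], [8, 1, 11, 14], [9, 4, 3, 13, 15, 16]]
  P := {
    a := 8
    N := 17
    nb := [1794, 3405, 5130, 14518, 680, 18968, 18690, 107032, 16963, 83377, 4615, 16490, 9228, 37000,
      2912, 73856, 33408]
    tri := [(0, 1, 8), (0, 1, 10), (0, 8, 9), (0, 9, 10), (1, 2, 3), (1, 2, 10), (1, 3, 11), (1, 6, 8),
      (1, 6, 11), (2, 3, 12), (2, 10, 12), (3, 4, 5), (3, 4, 7), (3, 5, 11), (3, 7, 13), (3, 12,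
      13), (4, 5, 9), (4, 7, 9), (5, 9, 14), (5, 11, 14), (6, 8, 14), (6, 11, 14), (7, 9, 16), (7,
      13, 15), (7, 15, 16)]
    fin := [0, 1, 1, 3, 4, 3, 0, 4, 0, 4, 1, 1, 3, 4, 14, 15, 16]
    chd := [(0, 1), (3, 14)]
    steps := [(0, 8), (0, 6), (1, 2), (1, 10), (1, 11), (3, 5), (3, 12), (4, 7), (4, 9), (4, 13)] }
  rep := [1, 4, 0, 3, 14, 15, 16]

noncomputable def v3482 : Cov.CovD where
  P := 3
  N := 4
  pl := [7, 8]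
  lev := [⟨[], [], [(0, 1), (0, 2), (1, 2)], [], [(0, 2, [0]), (1, 1, []), (2, 0, [2])]⟩,
    ⟨[], [(0, 0), (0, 1), (0, 2)], [(0, 0), (0, 2)], [], [(0, 2, [0]), (2, 0, [2]), (3, 0,
      [2])]⟩,
    ⟨[(0, 1)], [(0, 0), (1, 0), (1, 2), (1, 3)], [(0, 3)], [], [(2, 0, [2]), (4, 3, [4])]⟩,
    ⟨[(0, 1), (1, 2)], [(1, 0), (1, 1), (1, 2), (1, 3), (2, 0), (2, 1), (2, 3)], [(0, 1),
      (0, 3), (1, 3)], [], [(3, 0, [2]), (4, 3, [4]), (5, 1, [])]⟩,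
    ⟨[(1, 3), (2, 3)], [(0, 1), (3, 0), (3, 1), (3, 3)], [], [], [(1, 1, [])]⟩,
    ⟨[(1, 3), (2, 3), (3, 4)], [(0, 1), (1, 0), (3, 0), (3, 1), (3, 3), (3, 4), (4, 0), (4,
      1), (4, 4)], [(0, 1), (0, 4), (1, 4)], [], [(1, 1, []), (3, 0, [2]), (6, 4, [3])]⟩,
    ⟨[(0, 1), (1, 2), (1, 3)], [(0, 2), (1, 0), (1, 2), (1, 4), (3, 0), (5, 0), (5, 4)],
      [(0, 2), (0, 4), (2, 4)], [], [(0, 2, [0]), (3, 0, [2]), (6, 4, [3])]⟩,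
    ⟨[(1, 3), (2, 3), (3, 4), (3, 5), (4, 5)], [(0, 1), (3, 0), (3, 1), (3, 3), (4, 1), (5,
      1)], [(1, 1)], [5, 6], [(1, 1, []), (5, 1, [])]⟩]
  Ta := [((1, 0), 1, 2), ((1, 2), 1, 0), ((1, 6), 1, 4), ((1, 8), 1, 6), ((2, 1), 0, 1), ((2, 4),
    0, 3), ((3, 6), 0, 4), ((5, 4), 1, 3), ((5, 7), 1, 5)]
  Tb := [((0, 1, 6), 2, 1, 4), ((1, 0, 2), 1, 2, 0), ((1, 0, 6), 1, 2, 4), ((1, 0, 8), 1, 2, 6),
    ((1, 2, 6), 1, 0, 4), ((1, 2, 8), 1, 0, 6), ((1, 6, 8), 1, 4, 6), ((2, 1, 4), 0, 1, 3),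
    ((4, 2, 5), 3, 0, 1), ((5, 4, 7), 1, 3, 5), ((6, 0, 1), 4, 2, 1), ((6, 0, 3), 4, 2, 0),
    ((6, 1, 3), 4, 1, 0), ((7, 5, 8), 5, 1, 6), ((8, 1, 7), 6, 1, 5)]
  Tc := []
  Td := [((0, 2), (2, 1), 1), ((0, 2), (2, 4), 3), ((0, 2), (3, 6), 4), ((2, 0), (0, 1), 1), ((2,
    0), (0, 6), 4), ((3, 4), (4, 2), 0), ((3, 4), (4, 5), 1), ((4, 3), (6, 0), 2), ((4, 3),
    (6, 1), 1), ((4, 3), (6, 3), 0)]
  G := [[0, 0x2161648128c2182c184c46a48, 0xdda142148, 0xd18424d14182c4, 0xd18124914414582a8],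
    [0, 0, 0xd212d228c128, 0, 0x522182449921242825c28], [0, 0, 0xddc142148, 0xd894c44452184,
    0xd241214898c4d881c1a8], [0, 0, 0x1821c2285d2148524, 0, 0xd224d821c128]]

noncomputable def n3482 : Ent := ⟨e3482, noF, [], [], []⟩

def c3482 : PLift (Cov.check n3482.C.D v3482 = true) := ⟨by decide +kernel⟩

def b3482 : PLift (entF (fidx ts) 400 3482 n3482 = true) := ⟨by decide +kernel⟩

theorem g3482 : GoodF (fidx ts) 400 3482 := GoodF.ofV v3482 n3482 c3482.down b3482.down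

/-- 47484546:2632/5 -/
noncomputable def e3483 : SCfg where
  D := {
    a := 8
    L := 10
    kp := 7
    inn := [(0, 1), (1, 0), (1, 2), (1, 3), (1, 6), (2, 1), (2, 3), (3, 1), (3, 2), (3, 4), (3, 5), (3,
      7), (4, 3), (4, 5), (4, 7), (5, 3), (5, 4), (6, 1), (7, 3), (7, 4)]
    mix := [(0, 0), (0, 1), (0, 2), (1, 0), (1, 2), (1, 3), (2, 2), (2, 4), (3, 3), (3, 4), (3, 5), (4,
      1), (5, 1), (5, 3), (5, 6), (6, 0), (6, 3), (6, 7), (7, 1), (7, 5), (7, 8), (7, 9)]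
    cl := [2, 1, 0, 0, 3, 1, 4, 5, 6, 7]
    chq := [(0, 2), (2, 0), (3, 4), (4, 3)]
    rng := [(0, 1), (0, 7), (1, 0), (1, 2), (1, 6), (1, 9), (2, 1), (2, 4), (3, 6), (3, 7), (4, 2), (4,
      5), (5, 4), (5, 8), (6, 1), (6, 3), (7, 0), (7, 3), (8, 5), (8, 9), (9, 1), (9, 8)]
    lev := [] }
  links := [[1, 8, 9, 10], [8, 0, 10, 2, 3, 11, 6], [3, 1, 10, 12], [11, 1, 2, 12, 13, 7, 4, 5], [5, 3,
    7, 9], [11, 3, 4, 9, 14], [8, 1, 11, 15], [9, 4, 3, 13, 16, 17]]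
  P := {
    a := 8
    N := 18
    nb := [1794, 3405, 5130, 14518, 680, 18968, 35074, 205336, 33347, 148913, 4615, 49258, 9228,
      69768, 2592, 2368, 139392, 66176]
    tri := [(0, 1, 8), (0, 1, 10), (0, 8, 9), (0, 9, 10), (1, 2, 3), (1, 2, 10), (1, 3, 11), (1, 6, 8),
      (1, 6, 11), (2, 3, 12), (2, 10, 12), (3, 4, 5), (3, 4, 7), (3, 5, 11), (3, 7, 13), (3, 12,
      13), (4, 5, 9), (4, 7, 9), (5, 9, 14), (5, 11, 14), (6, 8, 15), (6, 11, 15), (7, 9, 17), (7,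
      13, 16), (7, 16, 17)]
    fin := [0, 1, 1, 3, 4, 3, 0, 4, 0, 4, 1, 1, 3, 4, 14, 15, 16, 17]
    chd := [(0, 1), (3, 14)]
    steps := [(0, 8), (0, 6), (1, 2), (1, 10), (1, 11), (3, 5), (3, 12), (4, 7), (4, 9), (4, 13)] }
  rep := [1, 4, 0, 3, 14, 15, 16, 17]

noncomputable def v3483 : Cov.CovD where
  P := 3
  N := 5
  pl := [7, 8, 9]
  lev := [⟨[], [], [(0, 1), (0, 2), (1, 2)], [], [(0, 2, [0]), (1, 1, []), (2, 0, [2])]⟩,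
    ⟨[], [(0, 0), (0, 1), (0, 2)], [(0, 0), (0, 2)], [], [(0, 2, [0]), (2, 0, [2]), (3, 0,
      [2])]⟩,
    ⟨[(0, 1)], [(0, 0), (1, 0), (1, 2), (1, 3)], [(0, 3)], [], [(2, 0, [2]), (4, 3, [4])]⟩,
    ⟨[(0, 1), (1, 2)], [(1, 0), (1, 1), (1, 2), (1, 3), (2, 0), (2, 1), (2, 3)], [(0, 1),
      (0, 3), (1, 3)], [], [(3, 0, [2]), (4, 3, [4]), (5, 1, [])]⟩,
    ⟨[(1, 3), (2, 3)], [(0, 1), (3, 0), (3, 1), (3, 3)], [], [], [(1, 1, [])]⟩,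
    ⟨[(1, 3), (2, 3), (3, 4)], [(0, 1), (1, 0), (3, 0), (3, 1), (3, 3), (3, 4), (4, 0), (4,
      1), (4, 4)], [(0, 1), (0, 4), (1, 4)], [], [(1, 1, []), (3, 0, [2]), (6, 4, [3])]⟩,
    ⟨[(0, 1), (1, 2), (1, 3)], [(0, 2), (1, 0), (1, 2), (3, 0), (5, 0)], [(0, 2)], [5],
      [(0, 2, [0]), (3, 0, [2])]⟩,
    ⟨[(1, 3), (2, 3), (3, 4), (3, 5), (4, 5)], [(0, 1), (3, 0), (3, 1), (3, 3), (4, 1), (5,
      1)], [(1, 1)], [6, 7], [(1, 1, []), (5, 1, [])]⟩]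
  Ta := [((1, 0), 1, 2), ((1, 2), 1, 0), ((1, 6), 1, 4), ((1, 9), 1, 7), ((2, 1), 0, 1), ((2, 4),
    0, 3), ((3, 6), 0, 4), ((3, 7), 0, 5), ((5, 4), 1, 3), ((5, 8), 1, 6)]
  Tb := [((0, 1, 7), 2, 1, 5), ((1, 0, 2), 1, 2, 0), ((1, 0, 6), 1, 2, 4), ((1, 0, 9), 1, 2, 7),
    ((1, 2, 6), 1, 0, 4), ((1, 2, 9), 1, 0, 7), ((1, 6, 9), 1, 4, 7), ((2, 1, 4), 0, 1, 3),
    ((3, 6, 7), 0, 4, 5), ((4, 2, 5), 3, 0, 1), ((5, 4, 8), 1, 3, 6), ((6, 1, 3), 4, 1, 0),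
    ((7, 0, 3), 5, 2, 0), ((8, 5, 9), 6, 1, 7), ((9, 1, 8), 7, 1, 6)]
  Tc := []
  Td := [((0, 2), (2, 1), 1), ((0, 2), (2, 4), 3), ((0, 2), (3, 6), 4), ((0, 2), (3, 7), 5), ((2,
    0), (0, 1), 1), ((2, 0), (0, 7), 5), ((3, 4), (4, 2), 0), ((3, 4), (4, 5), 1), ((4, 3),
    (6, 1), 1), ((4, 3), (6, 3), 0)]
  G := [[0, 0x4122a128c6142e1828144e684, 0xdda182144, 0xd18124d14128c4, 0xd141d181c228], [0, 0,
    0xdd62141d24d82381c8, 0, 0x41249121cd1244182c628], [0, 0, 0xdda142144, 0xddc4ddc8c2184,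
    0xd2d2c121d841d881c2a8], [0, 0, 0xcca841dd61411a88c342, 0, 0xdda21dda28c128]]

noncomputable def n3483 : Ent := ⟨e3483, noF, [], [], [(14, 15, [7334790850167413569773436004105379185503274260204390087403942018916353, 0])]⟩

def c3483 : PLift (Cov.check n3483.C.D v3483 = true) := ⟨by decide +kernel⟩

def b3483 : PLift (entF (fidx ts) 400 3483 n3483 = true) := ⟨by decide +kernel⟩

theorem g3483 : GoodF (fidx ts) 400 3483 := GoodF.ofV v3483 n3483 c3483.down b3483.down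

/-- 47484546:2632/7 -/
noncomputable def e3484 : SCfg where
  D := {
    a := 8
    L := 10
    kp := 7
    inn := [(0, 1), (1, 0), (1, 2), (1, 3), (1, 6), (2, 1), (2, 3), (3, 1), (3, 2), (3, 4), (3, 5), (3,
      7), (4, 3), (4, 5), (4, 7), (5, 3), (5, 4), (6, 1), (7, 3), (7, 4)]
    mix := [(0, 0), (0, 1), (0, 2), (1, 0), (1, 2), (1, 3), (2, 2), (2, 4), (3, 3), (3, 4), (3, 5), (4,
      6), (5, 3), (5, 6), (5, 7), (6, 0), (6, 3), (6, 7), (7, 5), (7, 6), (7, 8), (7, 9)]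
    cl := [3, 5, 2, 0, 0, 1, 1, 4, 6, 7]
    chq := [(2, 3), (2, 4), (3, 2), (4, 2)]
    rng := [(0, 1), (0, 7), (1, 0), (1, 2), (2, 1), (2, 4), (3, 7), (4, 2), (4, 5), (5, 4), (5, 8), (6,
      7), (6, 9), (7, 0), (7, 3), (7, 6), (8, 5), (8, 9), (9, 6), (9, 8)]
    lev := [] }
  links := [[1, 8, 9, 10], [8, 0, 10, 2, 3, 11, 6], [3, 1, 10, 12], [11, 1, 2, 12, 13, 7, 4, 5], [5, 3,
    7, 14], [11, 3, 4, 14, 15], [8, 1, 11, 15], [14, 4, 3, 13, 16, 17]]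
  P := {
    a := 8
    N := 18
    nb := [1794, 3405, 5130, 14518, 16552, 51224, 35074, 221208, 33347, 1281, 4615, 32874, 9228,
      69768, 164016, 18784, 139392, 82048]
    tri := [(0, 1, 8), (0, 1, 10), (0, 8, 9), (0, 9, 10), (1, 2, 3), (1, 2, 10), (1, 3, 11), (1, 6, 8),
      (1, 6, 11), (2, 3, 12), (2, 10, 12), (3, 4, 5), (3, 4, 7), (3, 5, 11), (3, 7, 13), (3, 12,
      13), (4, 5, 14), (4, 7, 14), (5, 11, 15), (5, 14, 15), (6, 8, 15), (6, 11, 15), (7, 13, 16),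
      (7, 14, 17), (7, 16, 17)]
    fin := [0, 1, 1, 3, 3, 3, 1, 7, 0, 9, 1, 3, 3, 7, 7, 15, 16, 17]
    chd := [(0, 1), (1, 15)]
    steps := [(0, 8), (1, 2), (1, 6), (1, 10), (3, 4), (3, 5), (3, 12), (3, 11), (7, 13), (7, 14)] }
  rep := [3, 7, 1, 0, 15, 9, 16, 17]

noncomputable def v3484 : Cov.CovD where
  P := 3
  N := 5
  pl := [1, 8, 9]
  lev := [⟨[], [], [(2, 3)], [5], [(0, 3, [2]), (2, 2, [3, 4])]⟩,
    ⟨[], [(0, 0), (0, 2), (0, 3)], [(0, 2), (0, 3), (2, 3)], [], [(0, 3, [2]), (2, 2, [3,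
      4]), (3, 0, [])]⟩,
    ⟨[(0, 1)], [(0, 2), (1, 0), (1, 2), (1, 3)], [(0, 2)], [], [(2, 2, [3, 4]), (4, 0,
      [])]⟩,
    ⟨[(0, 1), (1, 2)], [(1, 0), (1, 1), (1, 2), (1, 3), (2, 0), (2, 1), (2, 2)], [(0, 0),
      (0, 1)], [], [(3, 0, []), (4, 0, []), (5, 1, [])]⟩,
    ⟨[(1, 3), (2, 3)], [(3, 0), (3, 1)], [], [], [(6, 1, [])]⟩,
    ⟨[(1, 3), (2, 3), (3, 4)], [(1, 0), (3, 0), (3, 1), (3, 4), (4, 0), (4, 1), (4, 4)],
      [(0, 1), (0, 4), (1, 4)], [], [(3, 0, []), (6, 1, []), (7, 4, [2])]⟩,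
    ⟨[(0, 1), (1, 2), (1, 3)], [(0, 3), (1, 0), (1, 2), (1, 3), (1, 4), (3, 0), (5, 0), (5,
      4)], [(0, 3), (0, 4), (3, 4)], [], [(0, 3, [2]), (3, 0, []), (7, 4, [2])]⟩,
    ⟨[(1, 3), (2, 3), (3, 4), (3, 5), (4, 5)], [(3, 0), (3, 1), (4, 1), (5, 1)], [(1, 1)],
      [6, 7], [(5, 1, []), (6, 1, [])]⟩]
  Ta := [((3, 7), 0, 4), ((4, 2), 0, 2), ((4, 5), 0, 1), ((5, 4), 1, 0), ((5, 8), 1, 6), ((6, 7),
    1, 4), ((6, 9), 1, 7)]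
  Tb := [((0, 1, 7), 3, 5, 4), ((1, 0, 2), 5, 3, 2), ((2, 1, 4), 2, 5, 0), ((4, 2, 5), 0, 2, 1),
    ((5, 4, 8), 1, 0, 6), ((6, 7, 9), 1, 4, 7), ((7, 0, 3), 4, 3, 0), ((7, 0, 6), 4, 3, 1),
    ((7, 3, 6), 4, 0, 1), ((8, 5, 9), 6, 1, 7), ((9, 6, 8), 7, 1, 6)]
  Tc := [(2, 3, 4)]
  Td := [((2, 3), (2, 1), 5), ((2, 3), (2, 4), 0), ((2, 4), (2, 1), 5), ((2, 4), (2, 4), 0), ((3,
    2), (0, 1), 5), ((3, 2), (0, 7), 4), ((4, 2), (7, 0), 3), ((4, 2), (7, 3), 0), ((4, 2),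
    (7, 6), 1)]
  G := [[0, 0, 0, 0xd228418d221814d22841d22184cd, 0xd421418d421482442942c42d42182ab], [0, 0, 0,
    0xd2d2c1248d24d28c284d8d2c12452d2c18281a4cd, 0xd44d48c2184441d494c1c82d4d4c128dd64181ab],
    [0, 0x62a2c2e4248e2e2c1284e12848e12484cd, 0xd121428d12182451248128c82e,
    0x921244421284422848d821248521288822148dd21248d21284cd, 0xd412428d428482d41242d12148ab],
    [0, 0, 0xd1d1c124851d1c818c28441d1c19181c42e, 0xd214248d214284d21828d21424cd,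
    0x441941c428d418482d14128d41482ab]]

noncomputable def n3484 : Ent := ⟨e3484, noF, [], [], [(9, 16, [7334685537875745012586738086077695515070955365108989538292687707922433, 0]), (9, 17, [6903326391201334775872065844685381424292761054348340378595029943943169, 0]), (9, 14, [7334790875878422277917280412776772662961875900559637987928627383738369, 0])]⟩

def c3484 : PLift (Cov.check n3484.C.D v3484 = true) := ⟨by decide +kernel⟩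

def b3484 : PLift (entF (fidx ts) 400 3484 n3484 = true) := ⟨by decide +kernel⟩

theorem g3484 : GoodF (fidx ts) 400 3484 := GoodF.ofV v3484 n3484 c3484.down b3484.down

/-- 47484546:2632 -/
noncomputable def e3485 : SCfg where
  D := {
    a := 8
    L := 11
    kp := 8
    inn := [(0, 1), (1, 0), (1, 2), (1, 3), (1, 6), (2, 1), (2, 3), (3, 1), (3, 2), (3, 4), (3, 5), (3,
      7), (4, 3), (4, 5), (4, 7), (5, 3), (5, 4), (6, 1), (7, 3), (7, 4)]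
    mix := [(0, 0), (0, 1), (0, 2), (1, 0), (1, 2), (1, 3), (2, 2), (2, 4), (3, 3), (3, 4), (3, 5), (4,
      6), (5, 3), (5, 6), (5, 7), (6, 0), (6, 3), (6, 8), (7, 5), (7, 6), (7, 9), (7, 10)]
    cl := [2, 5, 1, 0, 0, 3, 3, 6, 4, 7, 8]
    chq := [(1, 2), (1, 4), (2, 1), (4, 1)]
    rng := [(0, 1), (0, 8), (1, 0), (1, 2), (2, 1), (2, 4), (3, 7), (3, 8), (4, 2), (4, 5), (5, 4), (5,
      9), (6, 7), (6, 10), (7, 3), (7, 6), (8, 0), (8, 3), (9, 5), (9, 10), (10, 6), (10, 9)]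
    lev := [] }
  links := [[1, 8, 9, 10], [8, 0, 10, 2, 3, 11, 6], [3, 1, 10, 12], [11, 1, 2, 12, 13, 7, 4, 5], [5, 3,
    7, 14], [11, 3, 4, 14, 15], [8, 1, 11, 16], [14, 4, 3, 13, 17, 18]]
  P := {
    a := 8
    N := 19
    nb := [1794, 3405, 5130, 14518, 16552, 51224, 67842, 417816, 66115, 1281, 4615, 98410, 9228,
      135304, 295088, 18464, 2368, 270464, 147584]
    tri := [(0, 1, 8), (0, 1, 10), (0, 8, 9), (0, 9, 10), (1, 2, 3), (1, 2, 10), (1, 3, 11), (1, 6, 8),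
      (1, 6, 11), (2, 3, 12), (2, 10, 12), (3, 4, 5), (3, 4, 7), (3, 5, 11), (3, 7, 13), (3, 12,
      13), (4, 5, 14), (4, 7, 14), (5, 11, 15), (5, 14, 15), (6, 8, 16), (6, 11, 16), (7, 13, 17),
      (7, 14, 18), (7, 17, 18)]
    fin := [0, 1, 1, 3, 3, 3, 1, 7, 0, 9, 1, 3, 3, 7, 7, 15, 16, 17, 18]
    chd := [(0, 1), (1, 16)]
    steps := [(0, 8), (1, 2), (1, 6), (1, 10), (3, 4), (3, 5), (3, 12), (3, 11), (7, 13), (7, 14)] }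
  rep := [3, 1, 0, 7, 16, 9, 15, 17, 18]

noncomputable def v3485 : Cov.CovD where
  P := 3
  N := 6
  pl := [1, 7, 9, 10]
  lev := [⟨[], [], [(1, 2)], [5], [(0, 2, [1]), (2, 1, [2, 4])]⟩,
    ⟨[], [(0, 0), (0, 1), (0, 2)], [(0, 1), (0, 2), (1, 2)], [], [(0, 2, [1]), (2, 1, [2,
      4]), (3, 0, [])]⟩,
    ⟨[(0, 1)], [(0, 1), (1, 0), (1, 1), (1, 2)], [(0, 1)], [], [(2, 1, [2, 4]), (4, 0,
      [])]⟩,
    ⟨[(0, 1), (1, 2)], [(1, 0), (1, 1), (1, 2), (1, 3), (2, 0), (2, 1), (2, 3)], [(0, 0),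
      (0, 3)], [], [(3, 0, []), (4, 0, []), (5, 3, [])]⟩,
    ⟨[(1, 3), (2, 3)], [(3, 0), (3, 3)], [], [], [(6, 3, [])]⟩,
    ⟨[(1, 3), (2, 3), (3, 4)], [(1, 0), (3, 0), (3, 3), (4, 0), (4, 3)], [(0, 3)], [6],
      [(3, 0, []), (6, 3, [])]⟩,
    ⟨[(0, 1), (1, 2), (1, 3)], [(0, 2), (1, 0), (1, 1), (1, 2), (1, 4), (3, 0), (5, 0)],
      [(0, 2), (0, 4), (2, 4)], [], [(0, 2, [1]), (3, 0, []), (8, 4, [1])]⟩,
    ⟨[(1, 3), (2, 3), (3, 4), (3, 5), (4, 5)], [(3, 0), (3, 3), (4, 3), (5, 3)], [(3, 3)],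
      [7, 8], [(5, 3, []), (6, 3, [])]⟩]
  Ta := [((3, 7), 0, 6), ((3, 8), 0, 4), ((4, 2), 0, 1), ((4, 5), 0, 3), ((5, 4), 3, 0), ((5, 9),
    3, 7), ((6, 7), 3, 6), ((6, 10), 3, 8)]
  Tb := [((0, 1, 8), 2, 5, 4), ((1, 0, 2), 5, 2, 1), ((2, 1, 4), 1, 5, 0), ((3, 7, 8), 0, 6, 4),
    ((4, 2, 5), 0, 1, 3), ((5, 4, 9), 3, 0, 7), ((6, 7, 10), 3, 6, 8), ((7, 3, 6), 6, 0, 3),
    ((8, 0, 3), 4, 2, 0), ((9, 5, 10), 7, 3, 8), ((10, 6, 9), 8, 3, 7)]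
  Tc := [(1, 2, 4)]
  Td := [((1, 2), (2, 1), 5), ((1, 2), (2, 4), 0), ((1, 4), (2, 1), 5), ((1, 4), (2, 4), 0), ((2,
    1), (0, 1), 5), ((2, 1), (0, 8), 4), ((4, 1), (8, 0), 2), ((4, 1), (8, 3), 0)]
  G := [[0, 0, 0xf221f284a44a2d2617284a14c, 0xf224f281a14f228f2486889,
    0xf228f241618d22162b2c16889], [0, 0, 0xf2f2d2e12222145862214f2f292e12c8c,
    0xf292f2e146241238f232f2e1c2416189, 0xf221f2f2c1618f2b2f2e142416889], [0,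
    0x712812cf181a44f12148f14828cc, 0xf221b284286a44f282c2485224b248a8cc,
    0x71a1c128d221825d22822f1c16889, 0xf221f281a41f1214f2482c89], [0,
    0x7121f1f181e1a44f1812112f1e1638a4c, 0xf21221521e284b21721c284c, 0xb21721c284d21721a4889,
    0xb21721c248b212d2146889]]

noncomputable def n3485 : Ent := ⟨e3485, noF, [], [], [(9, 17, [31810150492402119267275227079217218666319002904815489586567506653227872257, 0]), (9, 18, [30043303427623734937691929578474300150491519007939870628445900451935260673, 0]), (9, 14, [31810581956886796354777272293785310057557672019661700884176840250667675649, 0]), (15, 16, [31810581851548793677511941751458610980409781099126250235727204310991880193, 0])]⟩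

def c3485 : PLift (Cov.check n3485.C.D v3485 = true) := ⟨by decide +kernel⟩

def b3485 : PLift (entF (fidx ts) 400 3485 n3485 = true) := ⟨by decide +kernel⟩

theorem g3485 : GoodF (fidx ts) 400 3485 := GoodF.ofV v3485 n3485 c3485.down b3485.down

/-- 46944445:2638/3 -/
noncomputable def e3486 : SCfg where
  D := {
    a := 8
    L := 8
    kp := 5
    inn := [(0, 1), (0, 2), (1, 0), (1, 6), (2, 0), (2, 3), (2, 4), (2, 5), (2, 7), (3, 2), (4, 2), (5,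
      2), (5, 7), (6, 1), (7, 2), (7, 5)]
    mix := [(0, 0), (0, 1), (1, 0), (1, 1), (1, 2), (1, 3), (2, 0), (2, 1), (2, 4), (2, 5), (3, 3), (3,
      4), (3, 5), (4, 0), (4, 4), (4, 6), (5, 5), (5, 7), (6, 0), (6, 3), (6, 6), (7, 1), (7, 2),
      (7, 7)]
    cl := [0, 0, 2, 1, 3, 0, 4, 5]
    chq := [(0, 3), (2, 4), (3, 0), (4, 2)]
    rng := [(0, 6), (1, 2), (2, 1), (2, 3), (2, 7), (3, 2), (3, 4), (3, 5), (3, 6), (4, 3), (4, 6), (5,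
      3), (5, 7), (6, 0), (6, 3), (6, 4), (7, 2), (7, 5)]
    lev := [] }
  links := [[1, 8, 2, 9], [8, 0, 9, 10, 11, 6], [9, 0, 8, 4, 12, 3, 13, 5, 7], [13, 2, 12, 11], [12, 2,
    8, 14], [7, 2, 13, 15], [8, 1, 11, 14], [9, 2, 5, 15, 10]]
  P := {
    a := 8
    N := 16
    nb := [774, 3905, 13241, 14340, 20740, 41092, 18690, 34340, 16471, 1159, 35458, 29770, 18460,
      34860, 6480, 9376]
    tri := [(0, 1, 8), (0, 1, 9), (0, 2, 8), (0, 2, 9), (1, 6, 8), (1, 6, 11), (1, 9, 10), (1, 10, 11),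
      (2, 3, 12), (2, 3, 13), (2, 4, 8), (2, 4, 12), (2, 5, 7), (2, 5, 13), (2, 7, 9), (3, 11,
      12), (3, 11, 13), (4, 8, 14), (4, 12, 14), (5, 7, 15), (5, 13, 15), (6, 8, 14), (6, 11, 14),
      (7, 9, 10), (7, 10, 15)]
    fin := [0, 1, 0, 0, 0, 0, 1, 0, 0, 0, 10, 11, 12, 0, 1, 15]
    chd := [(0, 12), (10, 1)]
    steps := [(0, 2), (0, 3), (0, 4), (0, 5), (0, 7), (0, 8), (0, 13), (0, 9), (1, 6), (1, 14)] }
  rep := [0, 11, 10, 12, 1, 15]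

noncomputable def v3486 : Cov.CovD where
  P := 3
  N := 3
  pl := [3, 7]
  lev := [⟨[], [], [(0, 0)], [], [(0, 0, [3]), (1, 0, [3])]⟩,
    ⟨[], [(0, 0), (0, 2)], [(0, 0), (0, 2)], [1], [(0, 0, [3]), (1, 0, [3]), (2, 2, [4])]⟩,
    ⟨[(0, 1)], [(0, 0), (0, 3), (1, 0)], [(0, 0), (0, 3)], [], [(0, 0, [3]), (1, 0, [3]),
      (4, 3, [0]), (5, 0, [3])]⟩,
    ⟨[(0, 2)], [(2, 0), (2, 3)], [(0, 3)], [1], [(4, 3, [0]), (5, 0, [3])]⟩,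
    ⟨[(0, 2), (2, 3)], [(0, 0), (1, 0), (2, 0), (2, 3), (2, 4), (3, 3)], [(0, 3), (0, 4),
      (3, 4)], [], [(0, 0, [3]), (4, 3, [0]), (6, 4, [2])]⟩,
    ⟨[(0, 2), (2, 3), (2, 4)], [(2, 0), (2, 3), (3, 0)], [], [5], [(5, 0, [3])]⟩,
    ⟨[(0, 1)], [(0, 0), (1, 0), (1, 2), (1, 4), (2, 0), (4, 0), (4, 4)], [(0, 4)], [1],
      [(0, 0, [3]), (6, 4, [2])]⟩,
    ⟨[(0, 2), (2, 3), (2, 4), (2, 5)], [(0, 0), (1, 0), (1, 2), (2, 0), (2, 2), (2, 3), (5,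
      0), (5, 2)], [(0, 2)], [5], [(1, 0, [3]), (2, 2, [4])]⟩]
  Ta := [((0, 6), 0, 4), ((1, 2), 0, 2), ((5, 3), 0, 1), ((5, 7), 0, 5)]
  Tb := [((2, 1, 3), 2, 0, 1), ((2, 1, 7), 2, 0, 5), ((2, 3, 7), 2, 1, 5), ((3, 2, 4), 1, 2, 3),
    ((3, 2, 5), 1, 2, 0), ((3, 2, 6), 1, 2, 4), ((3, 4, 5), 1, 3, 0), ((3, 4, 6), 1, 3, 4),
    ((3, 5, 6), 1, 0, 4), ((4, 3, 6), 3, 1, 4), ((5, 3, 7), 0, 1, 5), ((6, 0, 3), 4, 0, 1),
    ((6, 0, 4), 4, 0, 3), ((6, 3, 4), 4, 1, 3), ((7, 2, 5), 5, 2, 0)]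
  Tc := []
  Td := [((0, 3), (0, 6), 4), ((0, 3), (1, 2), 2), ((0, 3), (5, 3), 1), ((0, 3), (5, 7), 5), ((2,
    4), (2, 1), 0), ((2, 4), (2, 3), 1), ((2, 4), (2, 7), 5), ((3, 0), (4, 3), 1), ((3, 0),
    (4, 6), 4), ((4, 2), (6, 0), 0), ((4, 2), (6, 3), 1), ((4, 2), (6, 4), 3)]
  G := [[0, 0, 0, 0x11c2244411c22888c, 0x1414c414246851814641414c25a84], [0, 0,
    0xaac11488c44cc11682, 0xc112c112c244, 0xa11448424c11a84], [0, 0x42126181242c12a84, 0,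
    0x5122891224c82, 0x14246188111c44a82]]

noncomputable def n3486 : Ent := ⟨e3486, noF, [], [], []⟩

def c3486 : PLift (Cov.check n3486.C.D v3486 = true) := ⟨by decide +kernel⟩

def b3486 : PLift (entF (fidx ts) 400 3486 n3486 = true) := ⟨by decide +kernel⟩

theorem g3486 : GoodF (fidx ts) 400 3486 := GoodF.ofV v3486 n3486 c3486.down b3486.down

/-- 46944445:2638/2 -/
noncomputable def e3487 : SCfg where
  D := {
    a := 8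
    L := 9
    kp := 6
    inn := [(0, 1), (0, 2), (1, 0), (1, 6), (2, 0), (2, 3), (2, 4), (2, 5), (2, 7), (3, 2), (4, 2), (5,
      2), (5, 7), (6, 1), (7, 2), (7, 5)]
    mix := [(0, 0), (0, 1), (1, 0), (1, 1), (1, 2), (1, 3), (2, 0), (2, 1), (2, 4), (2, 5), (3, 3), (3,
      4), (3, 5), (4, 0), (4, 4), (4, 6), (5, 5), (5, 7), (6, 0), (6, 3), (6, 6), (7, 1), (7, 7),
      (7, 8)]
    cl := [0, 0, 5, 2, 1, 0, 3, 4, 6]
    chq := [(0, 1), (1, 0), (3, 5), (5, 3)]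
    rng := [(0, 6), (1, 2), (1, 8), (2, 1), (2, 3), (3, 2), (3, 4), (3, 5), (3, 6), (4, 3), (4, 6), (5,
      3), (5, 7), (6, 0), (6, 3), (6, 4), (7, 5), (7, 8), (8, 1), (8, 7)]
    lev := [] }
  links := [[1, 8, 2, 9], [8, 0, 9, 10, 11, 6], [9, 0, 8, 4, 12, 3, 13, 5, 7], [13, 2, 12, 11], [12, 2,
    8, 14], [7, 2, 13, 15], [8, 1, 11, 14], [9, 2, 5, 15, 16]]
  P := {
    a := 8
    N := 17
    nb := [774, 3905, 13241, 14340, 20740, 41092, 18690, 98852, 16471, 66695, 2562, 29770, 18460,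
      34860, 6480, 73888, 33408]
    tri := [(0, 1, 8), (0, 1, 9), (0, 2, 8), (0, 2, 9), (1, 6, 8), (1, 6, 11), (1, 9, 10), (1, 10, 11),
      (2, 3, 12), (2, 3, 13), (2, 4, 8), (2, 4, 12), (2, 5, 7), (2, 5, 13), (2, 7, 9), (3, 11,
      12), (3, 11, 13), (4, 8, 14), (4, 12, 14), (5, 7, 15), (5, 13, 15), (6, 8, 14), (6, 11, 14),
      (7, 9, 16), (7, 15, 16)]
    fin := [0, 1, 0, 0, 0, 0, 1, 0, 0, 0, 10, 11, 12, 0, 1, 15, 16]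
    chd := [(0, 12), (10, 1)]
    steps := [(0, 2), (0, 3), (0, 4), (0, 5), (0, 7), (0, 8), (0, 13), (0, 9), (1, 6), (1, 14)] }
  rep := [0, 12, 11, 1, 15, 10, 16]

noncomputable def v3487 : Cov.CovD where
  P := 3
  N := 4
  pl := [3, 7, 8]
  lev := [⟨[], [], [(0, 0)], [], [(0, 0, [1]), (1, 0, [1])]⟩,
    ⟨[], [(0, 0), (0, 5)], [(0, 0), (0, 5)], [2], [(0, 0, [1]), (1, 0, [1]), (2, 5, [3])]⟩,
    ⟨[(0, 1)], [(0, 0), (0, 1), (1, 0)], [(0, 0), (0, 1)], [], [(0, 0, [1]), (1, 0, [1]),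
      (4, 1, [0]), (5, 0, [1])]⟩,
    ⟨[(0, 2)], [(2, 0), (2, 1)], [(0, 1)], [2], [(4, 1, [0]), (5, 0, [1])]⟩,
    ⟨[(0, 2), (2, 3)], [(0, 0), (1, 0), (2, 0), (2, 1), (2, 3), (3, 1)], [(0, 1), (0, 3),
      (1, 3)], [], [(0, 0, [1]), (4, 1, [0]), (6, 3, [5])]⟩,
    ⟨[(0, 2), (2, 3), (2, 4)], [(2, 0), (2, 1), (3, 0)], [], [4], [(5, 0, [1])]⟩,
    ⟨[(0, 1)], [(0, 0), (1, 0), (1, 3), (1, 5), (2, 0), (4, 0), (4, 3)], [(0, 3)], [2],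
      [(0, 0, [1]), (6, 3, [5])]⟩,
    ⟨[(0, 2), (2, 3), (2, 4), (2, 5)], [(0, 0), (1, 0), (2, 0), (2, 1), (5, 0)], [], [4,
      6], [(1, 0, [1])]⟩]
  Ta := [((0, 6), 0, 3), ((1, 2), 0, 5), ((1, 8), 0, 6), ((5, 3), 0, 2), ((5, 7), 0, 4)]
  Tb := [((1, 2, 8), 0, 5, 6), ((2, 1, 3), 5, 0, 2), ((3, 2, 4), 2, 5, 1), ((3, 2, 5), 2, 5, 0),
    ((3, 2, 6), 2, 5, 3), ((3, 4, 5), 2, 1, 0), ((3, 4, 6), 2, 1, 3), ((3, 5, 6), 2, 0, 3),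
    ((4, 3, 6), 1, 2, 3), ((5, 3, 7), 0, 2, 4), ((6, 0, 3), 3, 0, 2), ((6, 0, 4), 3, 0, 1),
    ((6, 3, 4), 3, 2, 1), ((7, 5, 8), 4, 0, 6), ((8, 1, 7), 6, 0, 4)]
  Tc := []
  Td := [((0, 1), (0, 6), 3), ((0, 1), (1, 2), 5), ((0, 1), (1, 8), 6), ((0, 1), (5, 3), 2), ((0,
    1), (5, 7), 4), ((1, 0), (4, 3), 2), ((1, 0), (4, 6), 3), ((3, 5), (6, 0), 0), ((3, 5),
    (6, 3), 2), ((3, 5), (6, 4), 1), ((5, 3), (2, 1), 0), ((5, 3), (2, 3), 2)]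
  G := [[0, 0x1111a4841111a844c2, 0, 0x1414a4841818a814c2, 0x1818a8842121861212ac1486], [0,
    0x1111c48211116884c2, 0, 0xe11448c8a86148c2, 0x82629184e81184a2], [0,
    0x1114a4481811c842c2, 0x1414a18418186188c4, 0x14746188c8186148c2, 0x523261889838c184a2]]

noncomputable def n3487 : Ent := ⟨e3487, noF, [], [], [(16, 10, [1580044410770988437858045522355060435978463990222429564876678094849, 0])]⟩

def c3487 : PLift (Cov.check n3487.C.D v3487 = true) := ⟨by decide +kernel⟩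

def b3487 : PLift (entF (fidx ts) 400 3487 n3487 = true) := ⟨by decide +kernel⟩

theorem g3487 : GoodF (fidx ts) 400 3487 := GoodF.ofV v3487 n3487 c3487.down b3487.down

/-- 46944445:2638/4 -/
noncomputable def e3488 : SCfg where
  D := {
    a := 8
    L := 9
    kp := 6
    inn := [(0, 1), (0, 2), (1, 0), (1, 6), (2, 0), (2, 3), (2, 4), (2, 5), (2, 7), (3, 2), (4, 2), (5,
      2), (5, 7), (6, 1), (7, 2), (7, 5)]
    mix := [(0, 0), (0, 1), (1, 0), (1, 1), (1, 2), (1, 3), (2, 0), (2, 1), (2, 4), (2, 5), (3, 4), (3,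
      5), (3, 6), (4, 0), (4, 4), (4, 7), (5, 5), (5, 8), (6, 0), (6, 3), (6, 7), (7, 1), (7, 2),
      (7, 8)]
    cl := [0, 0, 2, 4, 1, 0, 6, 3, 5]
    chq := [(0, 1), (1, 0), (2, 3), (3, 2)]
    rng := [(0, 7), (1, 2), (2, 1), (2, 3), (2, 8), (3, 2), (3, 7), (4, 6), (4, 7), (5, 6), (5, 8), (6,
      4), (6, 5), (7, 0), (7, 3), (7, 4), (8, 2), (8, 5)]
    lev := [] }
  links := [[1, 8, 2, 9], [8, 0, 9, 10, 11, 6], [9, 0, 8, 4, 12, 3, 13, 5, 7], [13, 2, 12, 14], [12, 2,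
    8, 15], [7, 2, 13, 16], [8, 1, 11, 15], [9, 2, 5, 16, 10]]
  P := {
    a := 8
    N := 17
    nb := [774, 3905, 13241, 28676, 37124, 73860, 35074, 67108, 32855, 1159, 68226, 33858, 49180,
      81964, 12296, 6480, 9376]
    tri := [(0, 1, 8), (0, 1, 9), (0, 2, 8), (0, 2, 9), (1, 6, 8), (1, 6, 11), (1, 9, 10), (1, 10, 11),
      (2, 3, 12), (2, 3, 13), (2, 4, 8), (2, 4, 12), (2, 5, 7), (2, 5, 13), (2, 7, 9), (3, 12,
      14), (3, 13, 14), (4, 8, 15), (4, 12, 15), (5, 7, 16), (5, 13, 16), (6, 8, 15), (6, 11, 15),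
      (7, 9, 10), (7, 10, 16)]
    fin := [0, 1, 0, 0, 0, 0, 1, 0, 0, 0, 10, 11, 12, 0, 14, 1, 16]
    chd := [(0, 12), (10, 1)]
    steps := [(0, 2), (0, 3), (0, 4), (0, 5), (0, 7), (0, 8), (0, 13), (0, 9), (1, 6), (1, 15)] }
  rep := [0, 12, 10, 1, 11, 16, 14]

noncomputable def v3488 : Cov.CovD where
  P := 3
  N := 4
  pl := [3, 6, 8]
  lev := [⟨[], [], [(0, 0)], [], [(0, 0, [1]), (1, 0, [1])]⟩,
    ⟨[], [(0, 0), (0, 2)], [(0, 0), (0, 2)], [4], [(0, 0, [1]), (1, 0, [1]), (2, 2, [3])]⟩,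
    ⟨[(0, 1)], [(0, 0), (0, 1), (1, 0)], [(0, 0), (0, 1)], [], [(0, 0, [1]), (1, 0, [1]),
      (4, 1, [0]), (5, 0, [1])]⟩,
    ⟨[(0, 2)], [(2, 0), (2, 1)], [(0, 1)], [6], [(4, 1, [0]), (5, 0, [1])]⟩,
    ⟨[(0, 2), (2, 3)], [(0, 0), (1, 0), (2, 0), (2, 1), (2, 3), (3, 1)], [(0, 1), (0, 3),
      (1, 3)], [], [(0, 0, [1]), (4, 1, [0]), (7, 3, [2])]⟩,
    ⟨[(0, 2), (2, 3), (2, 4)], [(2, 0), (2, 1), (3, 0)], [], [5], [(5, 0, [1])]⟩,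
    ⟨[(0, 1)], [(0, 0), (1, 0), (1, 2), (1, 3), (2, 0), (4, 0), (4, 3)], [(0, 3)], [4],
      [(0, 0, [1]), (7, 3, [2])]⟩,
    ⟨[(0, 2), (2, 3), (2, 4), (2, 5)], [(0, 0), (1, 0), (1, 2), (2, 0), (2, 1), (2, 2), (5,
      0), (5, 2)], [(0, 2)], [5], [(1, 0, [1]), (2, 2, [3])]⟩]
  Ta := [((0, 7), 0, 3), ((1, 2), 0, 2), ((5, 6), 0, 6), ((5, 8), 0, 5)]
  Tb := [((2, 1, 3), 2, 0, 4), ((2, 1, 8), 2, 0, 5), ((2, 3, 8), 2, 4, 5), ((3, 2, 7), 4, 2, 3),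
    ((4, 6, 7), 1, 6, 3), ((5, 6, 8), 0, 6, 5), ((6, 4, 5), 6, 1, 0), ((7, 0, 3), 3, 0, 4),
    ((7, 0, 4), 3, 0, 1), ((7, 3, 4), 3, 4, 1), ((8, 2, 5), 5, 2, 0)]
  Tc := []
  Td := [((0, 1), (0, 7), 3), ((0, 1), (1, 2), 2), ((0, 1), (5, 6), 6), ((0, 1), (5, 8), 5), ((1,
    0), (4, 6), 6), ((1, 0), (4, 7), 3), ((2, 3), (2, 1), 0), ((2, 3), (2, 3), 4), ((2, 3),
    (2, 8), 5), ((3, 2), (7, 0), 0), ((3, 2), (7, 3), 4), ((3, 2), (7, 4), 1)]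
  G := [[0, 0x42186211221282e81122122128a4212e8c2, 0, 0x881868212ac141242a1214ac14c2,
    0x1411cc418816146418a4], [0, 0x4111aa21211a2681194232118232a8c4,
    0x22c44cc118886226a114a4, 0x42c86611842c8a6118c2, 0x8424a11481216418a2], [0,
    0x114132c112c81482321228c212e4c2, 0, 0x446126188212a14c888e11ac182991ea1c4c2,
    0x3114641121a4c88424a18424a1c4a2]]

noncomputable def n3488 : Ent := ⟨e3488, noF, [], [], [(14, 11, [1685382413448254890285566577566560913002569154707632164201572196353, 0])]⟩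

def c3488 : PLift (Cov.check n3488.C.D v3488 = true) := ⟨by decide +kernel⟩

def b3488 : PLift (entF (fidx ts) 400 3488 n3488 = true) := ⟨by decide +kernel⟩

theorem g3488 : GoodF (fidx ts) 400 3488 := GoodF.ofV v3488 n3488 c3488.down b3488.down

/-- 46944445:2638/1 -/
noncomputable def e3489 : SCfg where
  D := {
    a := 8
    L := 10
    kp := 7
    inn := [(0, 1), (0, 2), (1, 0), (1, 6), (2, 0), (2, 3), (2, 4), (2, 5), (2, 7), (3, 2), (4, 2), (5,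
      2), (5, 7), (6, 1), (7, 2), (7, 5)]
    mix := [(0, 0), (0, 1), (1, 0), (1, 1), (1, 2), (1, 3), (2, 0), (2, 1), (2, 4), (2, 5), (3, 4), (3,
      5), (3, 6), (4, 0), (4, 4), (4, 7), (5, 5), (5, 8), (6, 0), (6, 3), (6, 7), (7, 1), (7, 8),
      (7, 9)]
    cl := [0, 0, 5, 3, 1, 0, 6, 2, 4, 7]
    chq := [(0, 1), (1, 0), (2, 5), (5, 2)]
    rng := [(0, 7), (1, 2), (1, 9), (2, 1), (2, 3), (3, 2), (3, 7), (4, 6), (4, 7), (5, 6), (5, 8), (6,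
      4), (6, 5), (7, 0), (7, 3), (7, 4), (8, 5), (8, 9), (9, 1), (9, 8)]
    lev := [] }
  links := [[1, 8, 2, 9], [8, 0, 9, 10, 11, 6], [9, 0, 8, 4, 12, 3, 13, 5, 7], [13, 2, 12, 14], [12, 2,
    8, 15], [7, 2, 13, 16], [8, 1, 11, 15], [9, 2, 5, 16, 17]]
  P := {
    a := 8
    N := 18
    nb := [774, 3905, 13241, 28676, 37124, 73860, 35074, 197156, 32855, 132231, 2562, 33858, 49180,
      81964, 12296, 6480, 139424, 66176]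
    tri := [(0, 1, 8), (0, 1, 9), (0, 2, 8), (0, 2, 9), (1, 6, 8), (1, 6, 11), (1, 9, 10), (1, 10, 11),
      (2, 3, 12), (2, 3, 13), (2, 4, 8), (2, 4, 12), (2, 5, 7), (2, 5, 13), (2, 7, 9), (3, 12,
      14), (3, 13, 14), (4, 8, 15), (4, 12, 15), (5, 7, 16), (5, 13, 16), (6, 8, 15), (6, 11, 15),
      (7, 9, 17), (7, 16, 17)]
    fin := [0, 1, 0, 0, 0, 0, 1, 0, 0, 0, 10, 11, 12, 0, 14, 1, 16, 17]
    chd := [(0, 12), (10, 1)]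
    steps := [(0, 2), (0, 3), (0, 4), (0, 5), (0, 7), (0, 8), (0, 13), (0, 9), (1, 6), (1, 15)] }
  rep := [0, 12, 1, 11, 16, 10, 14, 17]

noncomputable def v3489 : Cov.CovD where
  P := 3
  N := 5
  pl := [3, 6, 8, 9]
  lev := [⟨[], [], [(0, 0)], [], [(0, 0, [1]), (1, 0, [1])]⟩,
    ⟨[], [(0, 0), (0, 5)], [(0, 0), (0, 5)], [3], [(0, 0, [1]), (1, 0, [1]), (2, 5, [2])]⟩,
    ⟨[(0, 1)], [(0, 0), (0, 1), (1, 0)], [(0, 0), (0, 1)], [], [(0, 0, [1]), (1, 0, [1]),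
      (4, 1, [0]), (5, 0, [1])]⟩,
    ⟨[(0, 2)], [(2, 0), (2, 1)], [(0, 1)], [6], [(4, 1, [0]), (5, 0, [1])]⟩,
    ⟨[(0, 2), (2, 3)], [(0, 0), (1, 0), (2, 0), (2, 1), (2, 2), (3, 1)], [(0, 1), (0, 2),
      (1, 2)], [], [(0, 0, [1]), (4, 1, [0]), (7, 2, [5])]⟩,
    ⟨[(0, 2), (2, 3), (2, 4)], [(2, 0), (2, 1), (3, 0)], [], [4], [(5, 0, [1])]⟩,
    ⟨[(0, 1)], [(0, 0), (1, 0), (1, 2), (1, 5), (2, 0), (4, 0), (4, 2)], [(0, 2)], [3],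
      [(0, 0, [1]), (7, 2, [5])]⟩,
    ⟨[(0, 2), (2, 3), (2, 4), (2, 5)], [(0, 0), (1, 0), (2, 0), (2, 1), (5, 0)], [], [4,
      7], [(1, 0, [1])]⟩]
  Ta := [((0, 7), 0, 2), ((1, 2), 0, 5), ((1, 9), 0, 7), ((5, 6), 0, 6), ((5, 8), 0, 4)]
  Tb := [((1, 2, 9), 0, 5, 7), ((2, 1, 3), 5, 0, 3), ((3, 2, 7), 3, 5, 2), ((4, 6, 7), 1, 6, 2),
    ((5, 6, 8), 0, 6, 4), ((6, 4, 5), 6, 1, 0), ((7, 0, 3), 2, 0, 3), ((7, 0, 4), 2, 0, 1),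
    ((7, 3, 4), 2, 3, 1), ((8, 5, 9), 4, 0, 7), ((9, 1, 8), 7, 0, 4)]
  Tc := []
  Td := [((0, 1), (0, 7), 2), ((0, 1), (1, 2), 5), ((0, 1), (1, 9), 7), ((0, 1), (5, 6), 6), ((0,
    1), (5, 8), 4), ((1, 0), (4, 6), 6), ((1, 0), (4, 7), 2), ((2, 5), (7, 0), 0), ((2, 5),
    (7, 3), 3), ((2, 5), (7, 4), 1), ((5, 2), (2, 1), 0), ((5, 2), (2, 3), 3)]
  G := [[0, 0x144418241884e8114411841124e8a1414a41414a4a446, 0x1818681812126818a1414c81446,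
    0x11c11c681824, 0x1212c81411a11ac8141218c814e8], [0,
    0x141164181868a81111c641111a4c8a1444414841424ac46, 0, 0xcc9669a81428,
    0xc8a26118c161a814c868a114e2], [0, 0x1418681414a4a411441124611848a6188814281444e28c, 0,
    0x91ca356839c93ca1c422, 0xb112683292a1c49252619238a1c4a31a57a6131459a29c84a]]

noncomputable def n3489 : Ent := ⟨e3489, noF, [], [], [(14, 11, [7334790875878422279039713670246906104142305852085743347024383576764417, 0]), (17, 10, [6903326391201334775872705251651713694319475166462653752416129414463489, 0])]⟩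

def c3489 : PLift (Cov.check n3489.C.D v3489 = true) := ⟨by decide +kernel⟩

def b3489 : PLift (entF (fidx ts) 400 3489 n3489 = true) := ⟨by decide +kernel⟩

theorem g3489 : GoodF (fidx ts) 400 3489 := GoodF.ofV v3489 n3489 c3489.down b3489.down

/-- 46944445:2638/6 -/
noncomputable def e3490 : SCfg where
  D := {
    a := 8
    L := 9
    kp := 6
    inn := [(0, 1), (0, 2), (1, 0), (1, 6), (2, 0), (2, 3), (2, 4), (2, 5), (2, 7), (3, 2), (4, 2), (5,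
      2), (5, 7), (6, 1), (7, 2), (7, 5)]
    mix := [(0, 0), (0, 1), (1, 0), (1, 1), (1, 2), (1, 3), (2, 0), (2, 1), (2, 4), (2, 5), (3, 3), (3,
      4), (3, 5), (4, 0), (4, 4), (4, 6), (5, 5), (5, 7), (6, 0), (6, 3), (6, 8), (7, 1), (7, 2),
      (7, 7)]
    cl := [0, 0, 2, 1, 3, 0, 6, 4, 5]
    chq := [(0, 3), (2, 5), (3, 0), (5, 2)]
    rng := [(0, 6), (0, 8), (1, 2), (2, 1), (2, 3), (2, 7), (3, 2), (3, 4), (3, 5), (3, 8), (4, 3), (4,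
      6), (5, 3), (5, 7), (6, 0), (6, 4), (7, 2), (7, 5), (8, 0), (8, 3)]
    lev := [] }
  links := [[1, 8, 2, 9], [8, 0, 9, 10, 11, 6], [9, 0, 8, 4, 12, 3, 13, 5, 7], [13, 2, 12, 11], [12, 2,
    8, 14], [7, 2, 13, 15], [8, 1, 11, 16], [9, 2, 5, 15, 10]]
  P := {
    a := 8
    N := 17
    nb := [774, 3905, 13241, 14340, 20740, 41092, 67842, 34340, 82007, 1159, 35458, 78922, 18460,
      34860, 4368, 9376, 2368]
    tri := [(0, 1, 8), (0, 1, 9), (0, 2, 8), (0, 2, 9), (1, 6, 8), (1, 6, 11), (1, 9, 10), (1, 10, 11),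
      (2, 3, 12), (2, 3, 13), (2, 4, 8), (2, 4, 12), (2, 5, 7), (2, 5, 13), (2, 7, 9), (3, 11,
      12), (3, 11, 13), (4, 8, 14), (4, 12, 14), (5, 7, 15), (5, 13, 15), (6, 8, 16), (6, 11, 16),
      (7, 9, 10), (7, 10, 15)]
    fin := [0, 1, 0, 0, 0, 0, 1, 0, 0, 0, 1, 11, 12, 0, 14, 15, 16]
    chd := [(0, 12), (1, 16)]
    steps := [(0, 2), (0, 3), (0, 4), (0, 5), (0, 7), (0, 8), (0, 13), (0, 9), (1, 6), (1, 10)] }
  rep := [0, 11, 1, 12, 15, 16, 14]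

noncomputable def v3490 : Cov.CovD where
  P := 3
  N := 4
  pl := [3, 6, 7]
  lev := [⟨[], [], [(0, 0)], [], [(0, 0, [3]), (1, 0, [3])]⟩,
    ⟨[], [(0, 0), (0, 2)], [(0, 0), (0, 2)], [1], [(0, 0, [3]), (1, 0, [3]), (2, 2, [5])]⟩,
    ⟨[(0, 1)], [(0, 0), (0, 3), (1, 0)], [(0, 0), (0, 3)], [], [(0, 0, [3]), (1, 0, [3]),
      (4, 3, [0]), (5, 0, [3])]⟩,
    ⟨[(0, 2)], [(2, 0), (2, 3)], [(0, 3)], [1], [(4, 3, [0]), (5, 0, [3])]⟩,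
    ⟨[(0, 2), (2, 3)], [(0, 0), (1, 0), (2, 0), (2, 3), (3, 3)], [(0, 3)], [6], [(0, 0,
      [3]), (4, 3, [0])]⟩,
    ⟨[(0, 2), (2, 3), (2, 4)], [(2, 0), (2, 3), (3, 0)], [], [4], [(5, 0, [3])]⟩,
    ⟨[(0, 1)], [(0, 0), (1, 0), (1, 2), (1, 5), (2, 0), (4, 0)], [(0, 5)], [1], [(0, 0,
      [3]), (8, 5, [2])]⟩,
    ⟨[(0, 2), (2, 3), (2, 4), (2, 5)], [(0, 0), (1, 0), (1, 2), (2, 0), (2, 2), (2, 3), (5,
      0), (5, 2)], [(0, 2)], [4], [(1, 0, [3]), (2, 2, [5])]⟩]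
  Ta := [((0, 6), 0, 6), ((0, 8), 0, 5), ((1, 2), 0, 2), ((5, 3), 0, 1), ((5, 7), 0, 4)]
  Tb := [((0, 6, 8), 0, 6, 5), ((2, 1, 3), 2, 0, 1), ((2, 1, 7), 2, 0, 4), ((2, 3, 7), 2, 1, 4),
    ((3, 2, 4), 1, 2, 3), ((3, 2, 5), 1, 2, 0), ((3, 2, 8), 1, 2, 5), ((3, 4, 5), 1, 3, 0),
    ((3, 4, 8), 1, 3, 5), ((3, 5, 8), 1, 0, 5), ((4, 3, 6), 3, 1, 6), ((5, 3, 7), 0, 1, 4),
    ((6, 0, 4), 6, 0, 3), ((7, 2, 5), 4, 2, 0), ((8, 0, 3), 5, 0, 1)]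
  Tc := []
  Td := [((0, 3), (0, 6), 6), ((0, 3), (0, 8), 5), ((0, 3), (1, 2), 2), ((0, 3), (5, 3), 1), ((0,
    3), (5, 7), 4), ((2, 5), (2, 1), 0), ((2, 5), (2, 3), 1), ((2, 5), (2, 7), 4), ((3, 0),
    (4, 3), 1), ((3, 0), (4, 6), 6), ((5, 2), (8, 0), 0), ((5, 2), (8, 3), 1)]
  G := [[0, 0, 0, 0x11c2811c2488c14cc2d284, 0x24843241a8414a45a41148a14429688], [0, 0,
    0xaac11488c44cc11642, 0xccc211241121126884a, 0xa414481219888424c11e84], [0,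
    0x8212a141242c18682, 0, 0x9128111ca5128141c6c288, 0x8414a14148468411ca8688]]

noncomputable def n3490 : Ent := ⟨e3490, noF, [], [], [(14, 16, [1580044410770988437309982408355971841652082177953823432505703391233, 0])]⟩

def c3490 : PLift (Cov.check n3490.C.D v3490 = true) := ⟨by decide +kernel⟩

def b3490 : PLift (entF (fidx ts) 400 3490 n3490 = true) := ⟨by decide +kernel⟩

theorem g3490 : GoodF (fidx ts) 400 3490 := GoodF.ofV v3490 n3490 c3490.down b3490.down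

/-- 46944445:2638/5 -/
noncomputable def e3491 : SCfg where
  D := {
    a := 8
    L := 10
    kp := 7
    inn := [(0, 1), (0, 2), (1, 0), (1, 6), (2, 0), (2, 3), (2, 4), (2, 5), (2, 7), (3, 2), (4, 2), (5,
      2), (5, 7), (6, 1), (7, 2), (7, 5)]
    mix := [(0, 0), (0, 1), (1, 0), (1, 1), (1, 2), (1, 3), (2, 0), (2, 1), (2, 4), (2, 5), (3, 3), (3,
      4), (3, 5), (4, 0), (4, 4), (4, 6), (5, 5), (5, 7), (6, 0), (6, 3), (6, 8), (7, 1), (7, 7),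
      (7, 9)]
    cl := [0, 0, 2, 1, 3, 0, 6, 4, 5, 7]
    chq := [(0, 3), (2, 5), (3, 0), (5, 2)]
    rng := [(0, 6), (0, 8), (1, 2), (1, 9), (2, 1), (2, 3), (3, 2), (3, 4), (3, 5), (3, 8), (4, 3), (4,
      6), (5, 3), (5, 7), (6, 0), (6, 4), (7, 5), (7, 9), (8, 0), (8, 3), (9, 1), (9, 7)]
    lev := [] }
  links := [[1, 8, 2, 9], [8, 0, 9, 10, 11, 6], [9, 0, 8, 4, 12, 3, 13, 5, 7], [13, 2, 12, 11], [12, 2,
    8, 14], [7, 2, 13, 15], [8, 1, 11, 16], [9, 2, 5, 15, 17]]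
  P := {
    a := 8
    N := 18
    nb := [774, 3905, 13241, 14340, 20740, 41092, 67842, 164388, 82007, 132231, 2562, 78922, 18460,
      34860, 4368, 139424, 2368, 33408]
    tri := [(0, 1, 8), (0, 1, 9), (0, 2, 8), (0, 2, 9), (1, 6, 8), (1, 6, 11), (1, 9, 10), (1, 10, 11),
      (2, 3, 12), (2, 3, 13), (2, 4, 8), (2, 4, 12), (2, 5, 7), (2, 5, 13), (2, 7, 9), (3, 11,
      12), (3, 11, 13), (4, 8, 14), (4, 12, 14), (5, 7, 15), (5, 13, 15), (6, 8, 16), (6, 11, 16),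
      (7, 9, 17), (7, 15, 17)]
    fin := [0, 1, 0, 0, 0, 0, 1, 0, 0, 0, 1, 11, 12, 0, 14, 15, 16, 17]
    chd := [(0, 12), (1, 16)]
    steps := [(0, 2), (0, 3), (0, 4), (0, 5), (0, 7), (0, 8), (0, 13), (0, 9), (1, 6), (1, 10)] }
  rep := [0, 11, 1, 12, 15, 16, 14, 17]

noncomputable def v3491 : Cov.CovD where
  P := 3
  N := 5
  pl := [3, 6, 7, 9]
  lev := [⟨[], [], [(0, 0)], [], [(0, 0, [3]), (1, 0, [3])]⟩,
    ⟨[], [(0, 0), (0, 2)], [(0, 0), (0, 2)], [1], [(0, 0, [3]), (1, 0, [3]), (2, 2, [5])]⟩,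
    ⟨[(0, 1)], [(0, 0), (0, 3), (1, 0)], [(0, 0), (0, 3)], [], [(0, 0, [3]), (1, 0, [3]),
      (4, 3, [0]), (5, 0, [3])]⟩,
    ⟨[(0, 2)], [(2, 0), (2, 3)], [(0, 3)], [1], [(4, 3, [0]), (5, 0, [3])]⟩,
    ⟨[(0, 2), (2, 3)], [(0, 0), (1, 0), (2, 0), (2, 3), (3, 3)], [(0, 3)], [6], [(0, 0,
      [3]), (4, 3, [0])]⟩,
    ⟨[(0, 2), (2, 3), (2, 4)], [(2, 0), (2, 3), (3, 0)], [], [4], [(5, 0, [3])]⟩,
    ⟨[(0, 1)], [(0, 0), (1, 0), (1, 2), (1, 5), (2, 0), (4, 0)], [(0, 5)], [1], [(0, 0,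
      [3]), (8, 5, [2])]⟩,
    ⟨[(0, 2), (2, 3), (2, 4), (2, 5)], [(0, 0), (1, 0), (2, 0), (2, 3), (5, 0)], [], [4,
      7], [(1, 0, [3])]⟩]
  Ta := [((0, 6), 0, 6), ((0, 8), 0, 5), ((1, 2), 0, 2), ((1, 9), 0, 7), ((5, 3), 0, 1), ((5, 7),
    0, 4)]
  Tb := [((0, 6, 8), 0, 6, 5), ((1, 2, 9), 0, 2, 7), ((2, 1, 3), 2, 0, 1), ((3, 2, 4), 1, 2, 3),
    ((3, 2, 5), 1, 2, 0), ((3, 2, 8), 1, 2, 5), ((3, 4, 5), 1, 3, 0), ((3, 4, 8), 1, 3, 5),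
    ((3, 5, 8), 1, 0, 5), ((4, 3, 6), 3, 1, 6), ((5, 3, 7), 0, 1, 4), ((6, 0, 4), 6, 0, 3),
    ((7, 5, 9), 4, 0, 7), ((8, 0, 3), 5, 0, 1), ((9, 1, 7), 7, 0, 4)]
  Tc := []
  Td := [((0, 3), (0, 6), 6), ((0, 3), (0, 8), 5), ((0, 3), (1, 2), 2), ((0, 3), (1, 9), 7), ((0,
    3), (5, 3), 1), ((0, 3), (5, 7), 4), ((2, 5), (2, 1), 0), ((2, 5), (2, 3), 1), ((3, 0),
    (4, 3), 1), ((3, 0), (4, 6), 6), ((5, 2), (8, 0), 0), ((5, 2), (8, 3), 1)]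
  G := [[0, 0, 0, 0x11c11c6811c11c6411c11cc2d284, 0x1441414ac1428514881414a41414c2da84], [0, 0,
    0x44c22c61181881822c2d188c44cc11e82, 0x21221421228e118e1148141c2dac4,
    0x142e4198e411486a464c15688], [0, 0x1212a141212c12648, 0, 0xc11169151cac111ad111c6c244,
    0xc111a14d1c6428741461888a]]

noncomputable def n3491 : Ent := ⟨e3491, noF, [], [], [(14, 16, [7334685537875745012586738086077695515070955365108989538292687707959297, 0]), (17, 10, [6903326391201334775872705251651713694319475166462653752416129414471681, 0])]⟩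

def c3491 : PLift (Cov.check n3491.C.D v3491 = true) := ⟨by decide +kernel⟩

def b3491 : PLift (entF (fidx ts) 400 3491 n3491 = true) := ⟨by decide +kernel⟩

theorem g3491 : GoodF (fidx ts) 400 3491 := GoodF.ofV v3491 n3491 c3491.down b3491.down

/-- 46944445:2638/7 -/
noncomputable def e3492 : SCfg where
  D := {
    a := 8
    L := 10
    kp := 7
    inn := [(0, 1), (0, 2), (1, 0), (1, 6), (2, 0), (2, 3), (2, 4), (2, 5), (2, 7), (3, 2), (4, 2), (5,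
      2), (5, 7), (6, 1), (7, 2), (7, 5)]
    mix := [(0, 0), (0, 1), (1, 0), (1, 1), (1, 2), (1, 3), (2, 0), (2, 1), (2, 4), (2, 5), (3, 4), (3,
      5), (3, 6), (4, 0), (4, 4), (4, 7), (5, 5), (5, 8), (6, 0), (6, 3), (6, 9), (7, 1), (7, 2),
      (7, 8)]
    cl := [0, 0, 2, 3, 1, 0, 6, 7, 4, 5]
    chq := [(0, 1), (1, 0), (2, 5), (5, 2)]
    rng := [(0, 7), (0, 9), (1, 2), (2, 1), (2, 3), (2, 8), (3, 2), (3, 9), (4, 6), (4, 7), (5, 6), (5,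
      8), (6, 4), (6, 5), (7, 0), (7, 4), (8, 2), (8, 5), (9, 0), (9, 3)]
    lev := [] }
  links := [[1, 8, 2, 9], [8, 0, 9, 10, 11, 6], [9, 0, 8, 4, 12, 3, 13, 5, 7], [13, 2, 12, 14], [12, 2,
    8, 15], [7, 2, 13, 16], [8, 1, 11, 17], [9, 2, 5, 16, 10]]
  P := {
    a := 8
    N := 18
    nb := [774, 3905, 13241, 28676, 37124, 73860, 133378, 67108, 163927, 1159, 68226, 132162, 49180,
      81964, 12296, 4368, 9376, 2368]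
    tri := [(0, 1, 8), (0, 1, 9), (0, 2, 8), (0, 2, 9), (1, 6, 8), (1, 6, 11), (1, 9, 10), (1, 10, 11),
      (2, 3, 12), (2, 3, 13), (2, 4, 8), (2, 4, 12), (2, 5, 7), (2, 5, 13), (2, 7, 9), (3, 12,
      14), (3, 13, 14), (4, 8, 15), (4, 12, 15), (5, 7, 16), (5, 13, 16), (6, 8, 17), (6, 11, 17),
      (7, 9, 10), (7, 10, 16)]
    fin := [0, 1, 0, 0, 0, 0, 1, 0, 0, 0, 1, 11, 12, 0, 14, 15, 16, 17]
    chd := [(0, 12), (1, 17)]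
    steps := [(0, 2), (0, 3), (0, 4), (0, 5), (0, 7), (0, 8), (0, 13), (0, 9), (1, 6), (1, 10)] }
  rep := [0, 12, 1, 11, 16, 17, 14, 15]

noncomputable def v3492 : Cov.CovD where
  P := 3
  N := 5
  pl := [3, 6, 7, 8]
  lev := [⟨[], [], [(0, 0)], [], [(0, 0, [1]), (1, 0, [1])]⟩,
    ⟨[], [(0, 0), (0, 2)], [(0, 0), (0, 2)], [3], [(0, 0, [1]), (1, 0, [1]), (2, 2, [5])]⟩,
    ⟨[(0, 1)], [(0, 0), (0, 1), (1, 0)], [(0, 0), (0, 1)], [], [(0, 0, [1]), (1, 0, [1]),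
      (4, 1, [0]), (5, 0, [1])]⟩,
    ⟨[(0, 2)], [(2, 0), (2, 1)], [(0, 1)], [6], [(4, 1, [0]), (5, 0, [1])]⟩,
    ⟨[(0, 2), (2, 3)], [(0, 0), (1, 0), (2, 0), (2, 1), (3, 1)], [(0, 1)], [7], [(0, 0,
      [1]), (4, 1, [0])]⟩,
    ⟨[(0, 2), (2, 3), (2, 4)], [(2, 0), (2, 1), (3, 0)], [], [4], [(5, 0, [1])]⟩,
    ⟨[(0, 1)], [(0, 0), (1, 0), (1, 2), (1, 5), (2, 0), (4, 0)], [(0, 5)], [3], [(0, 0,
      [1]), (9, 5, [2])]⟩,
    ⟨[(0, 2), (2, 3), (2, 4), (2, 5)], [(0, 0), (1, 0), (1, 2), (2, 0), (2, 1), (2, 2), (5,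
      0), (5, 2)], [(0, 2)], [4], [(1, 0, [1]), (2, 2, [5])]⟩]
  Ta := [((0, 7), 0, 7), ((0, 9), 0, 5), ((1, 2), 0, 2), ((5, 6), 0, 6), ((5, 8), 0, 4)]
  Tb := [((0, 7, 9), 0, 7, 5), ((2, 1, 3), 2, 0, 3), ((2, 1, 8), 2, 0, 4), ((2, 3, 8), 2, 3, 4),
    ((3, 2, 9), 3, 2, 5), ((4, 6, 7), 1, 6, 7), ((5, 6, 8), 0, 6, 4), ((6, 4, 5), 6, 1, 0),
    ((7, 0, 4), 7, 0, 1), ((8, 2, 5), 4, 2, 0), ((9, 0, 3), 5, 0, 3)]
  Tc := []
  Td := [((0, 1), (0, 7), 7), ((0, 1), (0, 9), 5), ((0, 1), (1, 2), 2), ((0, 1), (5, 6), 6), ((0,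
    1), (5, 8), 4), ((1, 0), (4, 6), 6), ((1, 0), (4, 7), 7), ((2, 5), (2, 1), 0), ((2, 5),
    (2, 3), 3), ((2, 5), (2, 8), 4), ((5, 2), (9, 0), 0), ((5, 2), (9, 3), 3)]
  G := [[0, 0xc1144118232128138ac1281132628211a81224216cac4, 0,
    0x121268212ac1412111e682111eac14c8, 0x111e14624111ecc188424c8414ac14a2], [0,
    0x8211a228211a4118238c61281582c212128234c6c8, 0x44c22c61188121a8121ac1468,
    0x82c4aa11442c866118c2, 0x88c24a114886222ea114a4], [0,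
    0x114232421268ac2144a42412261128116114238e8c4, 0, 0x4251a6188291aa14c416156614258661c8c2,
    0x1424a148424a18c313e2461918e22661c8a4]]

noncomputable def n3492 : Ent := ⟨e3492, noF, [], [], [(15, 17, [6903326391201334775872065844685381424292761054348340378595029943975937, 0]), (14, 11, [7334790875878422279039713670246906104142305852085743347024383576776705, 0])]⟩

def c3492 : PLift (Cov.check n3492.C.D v3492 = true) := ⟨by decide +kernel⟩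

def b3492 : PLift (entF (fidx ts) 400 3492 n3492 = true) := ⟨by decide +kernel⟩

theorem g3492 : GoodF (fidx ts) 400 3492 := GoodF.ofV v3492 n3492 c3492.down b3492.down

/-- 46944445:2638 -/
noncomputable def e3493 : SCfg where
  D := {
    a := 8
    L := 11
    kp := 8
    inn := [(0, 1), (0, 2), (1, 0), (1, 6), (2, 0), (2, 3), (2, 4), (2, 5), (2, 7), (3, 2), (4, 2), (5,
      2), (5, 7), (6, 1), (7, 2), (7, 5)]
    mix := [(0, 0), (0, 1), (1, 0), (1, 1), (1, 2), (1, 3), (2, 0), (2, 1), (2, 4), (2, 5), (3, 4), (3,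
      5), (3, 6), (4, 0), (4, 4), (4, 7), (5, 5), (5, 8), (6, 0), (6, 3), (6, 9), (7, 1), (7, 8),
      (7, 10)]
    cl := [0, 0, 2, 3, 1, 0, 6, 7, 4, 5, 8]
    chq := [(0, 1), (1, 0), (2, 5), (5, 2)]
    rng := [(0, 7), (0, 9), (1, 2), (1, 10), (2, 1), (2, 3), (3, 2), (3, 9), (4, 6), (4, 7), (5, 6),
      (5, 8), (6, 4), (6, 5), (7, 0), (7, 4), (8, 5), (8, 10), (9, 0), (9, 3), (10, 1), (10, 8)]
    lev := [] }
  links := [[1, 8, 2, 9], [8, 0, 9, 10, 11, 6], [9, 0, 8, 4, 12, 3, 13, 5, 7], [13, 2, 12, 14], [12, 2,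
    8, 15], [7, 2, 13, 16], [8, 1, 11, 17], [9, 2, 5, 16, 18]]
  P := {
    a := 8
    N := 19
    nb := [774, 3905, 13241, 28676, 37124, 73860, 133378, 328228, 163927, 263303, 2562, 132162, 49180,
      81964, 12296, 4368, 270496, 2368, 66176]
    tri := [(0, 1, 8), (0, 1, 9), (0, 2, 8), (0, 2, 9), (1, 6, 8), (1, 6, 11), (1, 9, 10), (1, 10, 11),
      (2, 3, 12), (2, 3, 13), (2, 4, 8), (2, 4, 12), (2, 5, 7), (2, 5, 13), (2, 7, 9), (3, 12,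
      14), (3, 13, 14), (4, 8, 15), (4, 12, 15), (5, 7, 16), (5, 13, 16), (6, 8, 17), (6, 11, 17),
      (7, 9, 18), (7, 16, 18)]
    fin := [0, 1, 0, 0, 0, 0, 1, 0, 0, 0, 1, 11, 12, 0, 14, 15, 16, 17, 18]
    chd := [(0, 12), (1, 17)]
    steps := [(0, 2), (0, 3), (0, 4), (0, 5), (0, 7), (0, 8), (0, 13), (0, 9), (1, 6), (1, 10)] }
  rep := [0, 12, 1, 11, 16, 17, 14, 15, 18]

noncomputable def v3493 : Cov.CovD where
  P := 3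
  N := 6
  pl := [3, 6, 7, 8, 10]
  lev := [⟨[], [], [(0, 0)], [], [(0, 0, [1]), (1, 0, [1])]⟩,
    ⟨[], [(0, 0), (0, 2)], [(0, 0), (0, 2)], [3], [(0, 0, [1]), (1, 0, [1]), (2, 2, [5])]⟩,
    ⟨[(0, 1)], [(0, 0), (0, 1), (1, 0)], [(0, 0), (0, 1)], [], [(0, 0, [1]), (1, 0, [1]),
      (4, 1, [0]), (5, 0, [1])]⟩,
    ⟨[(0, 2)], [(2, 0), (2, 1)], [(0, 1)], [6], [(4, 1, [0]), (5, 0, [1])]⟩,
    ⟨[(0, 2), (2, 3)], [(0, 0), (1, 0), (2, 0), (2, 1), (3, 1)], [(0, 1)], [7], [(0, 0,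
      [1]), (4, 1, [0])]⟩,
    ⟨[(0, 2), (2, 3), (2, 4)], [(2, 0), (2, 1), (3, 0)], [], [4], [(5, 0, [1])]⟩,
    ⟨[(0, 1)], [(0, 0), (1, 0), (1, 2), (1, 5), (2, 0), (4, 0)], [(0, 5)], [3], [(0, 0,
      [1]), (9, 5, [2])]⟩,
    ⟨[(0, 2), (2, 3), (2, 4), (2, 5)], [(0, 0), (1, 0), (2, 0), (2, 1), (5, 0)], [], [4,
      8], [(1, 0, [1])]⟩]
  Ta := [((0, 7), 0, 7), ((0, 9), 0, 5), ((1, 2), 0, 2), ((1, 10), 0, 8), ((5, 6), 0, 6), ((5,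
    8), 0, 4)]
  Tb := [((0, 7, 9), 0, 7, 5), ((1, 2, 10), 0, 2, 8), ((2, 1, 3), 2, 0, 3), ((3, 2, 9), 3, 2, 5),
    ((4, 6, 7), 1, 6, 7), ((5, 6, 8), 0, 6, 4), ((6, 4, 5), 6, 1, 0), ((7, 0, 4), 7, 0, 1),
    ((8, 5, 10), 4, 0, 8), ((9, 0, 3), 5, 0, 3), ((10, 1, 8), 8, 0, 4)]
  Tc := []
  Td := [((0, 1), (0, 7), 7), ((0, 1), (0, 9), 5), ((0, 1), (1, 2), 2), ((0, 1), (1, 10), 8),
    ((0, 1), (5, 6), 6), ((0, 1), (5, 8), 4), ((1, 0), (4, 6), 6), ((1, 0), (4, 7), 7), ((2,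
    5), (2, 1), 0), ((2, 5), (2, 3), 3), ((5, 2), (9, 0), 0), ((5, 2), (9, 3), 3)]
  G := [[0, 0x1211681111c21212c4e2128114c1212c2114118ce2c4, 0,
    0x1161166111e111eac1811a11a612126c18c4, 0x111e1166111e111ecc1811c14c1414ac14a2], [0,
    0x1211a41212a81112a2e4114122128e1111a1211ccc2c8, 0xccaaaa6118cc6666a114c2,
    0xaace62a11466cea26118c2, 0xccceaaae6118c464a114a2], [0,
    0x12888241211a21212a461112a88c1141112aa112114668cc, 0,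
    0x15a73a6113a69ac1c855633661136656c1c8c2, 0x5163766141b6a16618c215c73c6115c63ca1c88a]]

noncomputable def n3493 : Ent := ⟨e3493, noF, [], [], [(15, 17, [31810150492402119267275227079217218666319002904815489586567506653227913217, 0]), (14, 11, [31810581956886796354778394727042780190998852449613226989535936006860713985, 0]), (18, 10, [30043303427623734937691930309225118815942978109782286986587410279901577217, 0])]⟩

def c3493 : PLift (Cov.check n3493.C.D v3493 = true) := ⟨by decide +kernel⟩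

def b3493 : PLift (entF (fidx ts) 400 3493 n3493 = true) := ⟨by decide +kernel⟩

theorem g3493 : GoodF (fidx ts) 400 3493 := GoodF.ofV v3493 n3493 c3493.down b3493.down

/-- 47484647:2639/1 -/
noncomputable def e3494 : SCfg where
  D := {
    a := 8
    L := 10
    kp := 8
    inn := [(0, 1), (1, 0), (1, 2), (1, 3), (1, 5), (1, 6), (2, 1), (2, 3), (3, 1), (3, 2), (3, 4), (3,
      5), (3, 7), (4, 3), (4, 7), (5, 1), (5, 3), (5, 6), (5, 7), (6, 1), (6, 5), (7, 3), (7, 4),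
      (7, 5)]
    mix := [(0, 0), (0, 1), (0, 2), (1, 0), (1, 2), (2, 2), (2, 3), (3, 3), (3, 4), (3, 5), (4, 1), (4,
      5), (5, 6), (5, 7), (6, 0), (6, 7), (7, 1), (7, 6), (7, 8), (7, 9)]
    cl := [1, 0, 2, 3, 6, 4, 0, 5, 7, 8]
    chq := [(0, 3), (1, 2), (1, 3), (2, 1), (3, 0), (3, 1), (3, 4), (3, 5), (4, 3), (5, 3)]
    rng := [(0, 1), (0, 7), (1, 0), (1, 2), (1, 5), (1, 8), (2, 1), (2, 3), (3, 2), (3, 4), (4, 3), (4,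
      5), (5, 1), (5, 4), (6, 7), (6, 9), (7, 0), (7, 6), (8, 1), (8, 9), (9, 6), (9, 8)]
    lev := [] }
  links := [[1, 8, 9, 10], [8, 0, 10, 2, 3, 5, 6], [3, 1, 10, 11], [5, 1, 2, 11, 12, 13, 4, 7], [7, 3,
    13, 9], [6, 1, 3, 7, 14, 15], [8, 1, 5, 15], [14, 5, 3, 4, 9, 16, 17]]
  P := {
    a := 8
    N := 18
    nb := [1794, 1389, 3082, 14518, 8840, 49354, 33058, 213560, 33347, 75153, 2567, 5132, 10248, 4632,
      164000, 16736, 131712, 82048]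
    tri := [(0, 1, 8), (0, 1, 10), (0, 8, 9), (0, 9, 10), (1, 2, 3), (1, 2, 10), (1, 3, 5), (1, 5, 6),
      (1, 6, 8), (2, 3, 11), (2, 10, 11), (3, 4, 7), (3, 4, 13), (3, 5, 7), (3, 11, 12), (3, 12,
      13), (4, 7, 9), (4, 9, 13), (5, 6, 15), (5, 7, 14), (5, 14, 15), (6, 8, 15), (7, 9, 16), (7,
      14, 17), (7, 16, 17)]
    fin := [0, 0, 0, 3, 4, 3, 0, 4, 0, 4, 10, 3, 12, 13, 4, 15, 16, 17]
    chd := [(0, 3), (0, 10), (3, 13), (3, 15), (4, 3)]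
    steps := [(0, 1), (0, 2), (0, 6), (0, 8), (3, 5), (3, 11), (4, 7), (4, 9), (4, 14)] }
  rep := [4, 0, 10, 3, 13, 15, 12, 16, 17]

noncomputable def v3494 : Cov.CovD where
  P := 3
  N := 6
  pl := [4, 8, 9]
  lev := [⟨[], [], [(0, 1), (0, 2), (1, 2)], [], [(0, 1, [2, 3]), (1, 0, [3]), (2, 2, [1])]⟩,
    ⟨[], [(0, 0), (0, 1), (0, 2)], [(1, 2)], [], [(0, 1, [2, 3]), (2, 2, [1])]⟩,
    ⟨[(0, 1)], [(0, 2), (1, 1), (1, 2), (1, 3)], [(2, 3)], [], [(2, 2, [1]), (3, 3, [0, 1,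
      4, 5])]⟩,
    ⟨[(0, 1), (1, 2)], [(1, 1), (1, 2), (1, 3), (1, 4), (2, 2), (2, 3), (2, 4)], [(3, 4)],
      [6], [(3, 3, [0, 1, 4, 5]), (5, 4, [3])]⟩,
    ⟨[(1, 3), (2, 3)], [(0, 0), (3, 0), (3, 3), (3, 4)], [(0, 4)], [], [(1, 0, [3]), (5, 4,
      [3])]⟩,
    ⟨[(0, 1), (1, 2), (1, 3), (2, 3), (3, 4)], [(1, 0), (1, 1), (1, 2), (1, 5), (3, 0), (3,
      3), (3, 4), (3, 5)], [(0, 5)], [], [(6, 0, [3]), (7, 5, [3])]⟩,
    ⟨[(0, 1), (1, 2), (1, 3), (1, 5), (3, 5)], [(0, 1), (1, 1), (1, 2), (1, 5), (5, 0), (5,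
      1), (5, 5)], [(1, 5)], [], [(0, 1, [2, 3]), (7, 5, [3])]⟩,
    ⟨[(1, 3), (1, 5), (2, 3), (3, 4), (3, 5), (4, 5), (5, 6)], [(0, 0), (3, 0), (3, 3), (3,
      4), (4, 0), (4, 4), (5, 0), (5, 5)], [(0, 0)], [7, 8], [(1, 0, [3]), (6, 0, [3])]⟩]
  Ta := [((1, 0), 0, 1), ((1, 2), 0, 2), ((1, 5), 0, 4), ((1, 8), 0, 7), ((6, 7), 0, 5), ((6, 9),
    0, 8)]
  Tb := [((0, 1, 7), 1, 0, 5), ((1, 0, 2), 0, 1, 2), ((1, 0, 5), 0, 1, 4), ((1, 0, 8), 0, 1, 7),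
    ((1, 2, 5), 0, 2, 4), ((1, 2, 8), 0, 2, 7), ((1, 5, 8), 0, 4, 7), ((2, 1, 3), 2, 0, 3),
    ((3, 2, 4), 3, 2, 6), ((4, 3, 5), 6, 3, 4), ((5, 1, 4), 4, 0, 6), ((6, 7, 9), 0, 5, 8),
    ((7, 0, 6), 5, 1, 0), ((8, 1, 9), 7, 0, 8), ((9, 6, 8), 8, 0, 7)]
  Tc := [(1, 2, 3), (3, 0, 1), (3, 0, 4), (3, 0, 5), (3, 1, 4), (3, 1, 5), (3, 4, 5)]
  Td := [((0, 3), (1, 0), 1), ((0, 3), (1, 2), 2), ((0, 3), (1, 5), 4), ((0, 3), (1, 8), 7), ((0,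
    3), (6, 7), 5), ((0, 3), (6, 9), 8), ((1, 2), (0, 1), 0), ((1, 2), (0, 7), 5), ((1, 3),
    (0, 1), 0), ((1, 3), (0, 7), 5), ((2, 1), (2, 1), 0), ((2, 1), (2, 3), 3), ((3, 0), (3,
    2), 2), ((3, 0), (3, 4), 6), ((3, 1), (3, 2), 2), ((3, 1), (3, 4), 6), ((3, 4), (3, 2),
    2), ((3, 4), (3, 4), 6), ((3, 5), (3, 2), 2), ((3, 5), (3, 4), 6), ((4, 3), (5, 1), 0),
    ((4, 3), (5, 4), 6), ((5, 3), (7, 0), 1), ((5, 3), (7, 6), 0)]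
  G := [[0, 0x2a614226e414a4422c26671e661e216281c81a68c2a68c8ab1cc818418c,
    0x41e43a12c42eec14221829c81a26148328c1c6181e1e44a1e1ec9ec8,
    0xe12e12c1e218221221c21e63a1425481c8,
    0x2c5e16a4e16414e1a1a434c1ec63e461c6361216844c4188c28882398], [0, 0, 0,
    0x4ec216288924e89218892e42c521e2c1e1238c,
    0xa454e564252a45c16e12425a45c148a1a4ce1c68aa484ce12398]]

noncomputable def n3494 : Ent := ⟨e3494, noF, [], [], []⟩

def c3494 : PLift (Cov.check n3494.C.D v3494 = true) := ⟨by decide +kernel⟩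

def b3494 : PLift (entF (fidx ts) 400 3494 n3494 = true) := ⟨by decide +kernel⟩

theorem g3494 : GoodF (fidx ts) 400 3494 := GoodF.ofV v3494 n3494 c3494.down b3494.down

/-- 47484647:2639/2 -/
noncomputable def e3495 : SCfg where
  D := {
    a := 8
    L := 10
    kp := 8
    inn := [(0, 1), (1, 0), (1, 2), (1, 3), (1, 5), (1, 6), (2, 1), (2, 3), (3, 1), (3, 2), (3, 4), (3,
      5), (3, 7), (4, 3), (4, 7), (5, 1), (5, 3), (5, 6), (5, 7), (6, 1), (6, 5), (7, 3), (7, 4),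
      (7, 5)]
    mix := [(0, 0), (0, 1), (0, 2), (1, 0), (1, 2), (2, 2), (2, 3), (3, 3), (3, 4), (3, 5), (4, 5), (4,
      6), (5, 7), (5, 8), (6, 0), (6, 8), (7, 1), (7, 6), (7, 7), (7, 9)]
    cl := [1, 6, 0, 2, 7, 5, 3, 3, 4, 8]
    chq := [(0, 1), (0, 4), (1, 0), (2, 3), (2, 4), (2, 5), (3, 2), (4, 0), (4, 2), (5, 2)]
    rng := [(0, 1), (0, 8), (1, 0), (1, 2), (1, 6), (1, 9), (2, 1), (2, 3), (3, 2), (3, 4), (4, 3), (4,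
      5), (5, 4), (5, 6), (6, 1), (6, 5), (7, 8), (7, 9), (8, 0), (8, 7), (9, 1), (9, 7)]
    lev := [] }
  links := [[1, 8, 9, 10], [8, 0, 10, 2, 3, 5, 6], [3, 1, 10, 11], [5, 1, 2, 11, 12, 13, 4, 7], [7, 3,
    13, 14], [6, 1, 3, 7, 15, 16], [8, 1, 5, 16], [15, 5, 3, 4, 14, 9, 17]]
  P := {
    a := 8
    N := 18
    nb := [1794, 1389, 3082, 14518, 24712, 98506, 65826, 180792, 66115, 148865, 2567, 5132, 10248,
      20504, 8848, 196768, 33120, 33408]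
    tri := [(0, 1, 8), (0, 1, 10), (0, 8, 9), (0, 9, 10), (1, 2, 3), (1, 2, 10), (1, 3, 5), (1, 5, 6),
      (1, 6, 8), (2, 3, 11), (2, 10, 11), (3, 4, 7), (3, 4, 13), (3, 5, 7), (3, 11, 12), (3, 12,
      13), (4, 7, 14), (4, 13, 14), (5, 6, 16), (5, 7, 15), (5, 15, 16), (6, 8, 16), (7, 9, 14),
      (7, 9, 17), (7, 15, 17)]
    fin := [0, 1, 1, 3, 3, 3, 1, 7, 0, 9, 1, 3, 12, 13, 7, 7, 16, 17]
    chd := [(0, 1), (1, 16), (3, 7), (3, 13), (3, 16)]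
    steps := [(0, 8), (1, 2), (1, 6), (1, 10), (3, 4), (3, 5), (3, 11), (7, 14), (7, 15)] }
  rep := [1, 0, 3, 7, 16, 13, 9, 12, 17]

noncomputable def v3495 : Cov.CovD where
  P := 3
  N := 6
  pl := [1, 4, 9]
  lev := [⟨[], [], [(0, 1)], [6], [(0, 1, [0]), (2, 0, [1, 4])]⟩,
    ⟨[], [(0, 0), (0, 1)], [(0, 1)], [], [(0, 1, [0]), (2, 0, [1, 4])]⟩,
    ⟨[(0, 1)], [(0, 0), (1, 0), (1, 1), (1, 2)], [(0, 2)], [], [(2, 0, [1, 4]), (3, 2, [3,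
      4, 5])]⟩,
    ⟨[(0, 1), (1, 2)], [(1, 0), (1, 1), (1, 2), (1, 5), (2, 0), (2, 2), (2, 5)], [(2, 5)],
      [7], [(3, 2, [3, 4, 5]), (5, 5, [2])]⟩,
    ⟨[(1, 3), (2, 3)], [(3, 2), (3, 3), (3, 5)], [(3, 5)], [], [(5, 5, [2]), (6, 3, [2])]⟩,
    ⟨[(0, 1), (1, 2), (1, 3), (2, 3), (3, 4)], [(1, 0), (1, 1), (1, 3), (1, 4), (3, 2), (3,
      3), (3, 4), (3, 5)], [(3, 4)], [], [(7, 3, [2]), (8, 4, [0, 2])]⟩,
    ⟨[(0, 1), (1, 2), (1, 3), (1, 5), (3, 5)], [(0, 1), (1, 0), (1, 1), (1, 4), (5, 1), (5,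
      3), (5, 4)], [(1, 4)], [], [(0, 1, [0]), (8, 4, [0, 2])]⟩,
    ⟨[(1, 3), (1, 5), (2, 3), (3, 4), (3, 5), (4, 5), (5, 6)], [(3, 2), (3, 3), (3, 5), (4,
      3), (4, 5), (5, 3), (5, 4)], [(3, 3)], [6, 8], [(6, 3, [2]), (7, 3, [2])]⟩]
  Ta := [((6, 1), 3, 6), ((6, 5), 3, 5), ((7, 8), 3, 4), ((7, 9), 3, 8)]
  Tb := [((0, 1, 8), 1, 6, 4), ((1, 0, 2), 6, 1, 0), ((1, 0, 6), 6, 1, 3), ((1, 0, 9), 6, 1, 8),
    ((1, 2, 6), 6, 0, 3), ((1, 2, 9), 6, 0, 8), ((1, 6, 9), 6, 3, 8), ((2, 1, 3), 0, 6, 2),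
    ((3, 2, 4), 2, 0, 7), ((4, 3, 5), 7, 2, 5), ((5, 4, 6), 5, 7, 3), ((6, 1, 5), 3, 6, 5),
    ((7, 8, 9), 3, 4, 8), ((8, 0, 7), 4, 1, 3), ((9, 1, 7), 8, 6, 3)]
  Tc := [(0, 1, 4), (2, 3, 4), (2, 3, 5), (2, 4, 5), (4, 0, 2)]
  Td := [((0, 1), (2, 1), 6), ((0, 1), (2, 3), 2), ((0, 4), (2, 1), 6), ((0, 4), (2, 3), 2), ((1,
    0), (0, 1), 6), ((1, 0), (0, 8), 4), ((2, 3), (3, 2), 0), ((2, 3), (3, 4), 7), ((2, 4),
    (3, 2), 0), ((2, 4), (3, 4), 7), ((2, 5), (3, 2), 0), ((2, 5), (3, 4), 7), ((3, 2), (6,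
    1), 6), ((3, 2), (6, 5), 5), ((3, 2), (7, 8), 4), ((3, 2), (7, 9), 8), ((4, 0), (8, 0),
    1), ((4, 0), (8, 7), 3), ((4, 2), (8, 0), 1), ((4, 2), (8, 7), 3), ((5, 2), (5, 4), 7),
    ((5, 2), (5, 6), 3)]
  G := [[0, 0xd212d12258d12281cb21221321222916658212b21a218294c6,
    0x181121713191a11111a1d1e81118c41161317141611814c111161b15181a2cc,
    0x912432123442812421291283a2122122191ae9cc2125124324174215162212212512212f9c281288cc,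
    0x9144b144543222c142b1b8348ac641441623144544151144443141e4144427ba8c], [0,
    0xd122329122944d122417212512298c212222d212161a128b29a123c94e,
    0x11a151211414611313181f11111a1b11811189e2c11615141411461551111a111141161f1ec181882cc,
    0x912293212349122932123212212912e9c4212512212b212212512e571271258c8c,
    0xb41a4299144b144547221442b1448ac314164231445414465414494443141e4146ba8c]]

noncomputable def n3495 : Ent := ⟨e3495, noF, [], [], []⟩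

def c3495 : PLift (Cov.check n3495.C.D v3495 = true) := ⟨by decide +kernel⟩

def b3495 : PLift (entF (fidx ts) 400 3495 n3495 = true) := ⟨by decide +kernel⟩

theorem g3495 : GoodF (fidx ts) 400 3495 := GoodF.ofV v3495 n3495 c3495.down b3495.down

/-- 47484647:2639/3 -/
noncomputable def e3496 : SCfg where
  D := {
    a := 8
    L := 10
    kp := 8
    inn := [(0, 1), (1, 0), (1, 2), (1, 3), (1, 5), (1, 6), (2, 1), (2, 3), (3, 1), (3, 2), (3, 4), (3,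
      5), (3, 7), (4, 3), (4, 7), (5, 1), (5, 3), (5, 6), (5, 7), (6, 1), (6, 5), (7, 3), (7, 4),
      (7, 5)]
    mix := [(0, 0), (0, 1), (0, 2), (1, 0), (1, 2), (2, 2), (2, 3), (3, 3), (3, 4), (3, 5), (4, 5), (4,
      6), (5, 7), (5, 8), (6, 0), (6, 8), (7, 1), (7, 6), (7, 7), (7, 9)]
    cl := [0, 5, 1, 4, 7, 6, 3, 3, 2, 8]
    chq := [(0, 1), (0, 4), (1, 0), (2, 4), (3, 4), (3, 7), (4, 0), (4, 2), (4, 3), (7, 3)]
    rng := [(0, 1), (0, 8), (1, 0), (1, 2), (1, 7), (1, 9), (2, 1), (2, 3), (3, 2), (3, 4), (4, 3), (4,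
      5), (5, 4), (5, 6), (6, 5), (6, 9), (7, 1), (7, 8), (8, 0), (8, 7), (9, 1), (9, 6)]
    lev := [] }
  links := [[1, 8, 9, 10], [8, 0, 10, 2, 3, 5, 6], [3, 1, 10, 11], [5, 1, 2, 11, 12, 13, 4, 7], [7, 3,
    13, 14], [6, 1, 3, 7, 15, 16], [8, 1, 5, 16], [15, 5, 3, 4, 14, 17, 9]]
  P := {
    a := 8
    N := 18
    nb := [1794, 1389, 3082, 14518, 24712, 98506, 65826, 180792, 66115, 165249, 2567, 5132, 10248,
      20504, 139408, 66208, 33120, 17024]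
    tri := [(0, 1, 8), (0, 1, 10), (0, 8, 9), (0, 9, 10), (1, 2, 3), (1, 2, 10), (1, 3, 5), (1, 5, 6),
      (1, 6, 8), (2, 3, 11), (2, 10, 11), (3, 4, 7), (3, 4, 13), (3, 5, 7), (3, 11, 12), (3, 12,
      13), (4, 7, 14), (4, 13, 14), (5, 6, 16), (5, 7, 15), (5, 15, 16), (6, 8, 16), (7, 9, 15),
      (7, 9, 17), (7, 14, 17)]
    fin := [0, 1, 1, 3, 3, 1, 0, 7, 0, 9, 10, 1, 3, 13, 7, 7, 16, 17]
    chd := [(0, 1), (0, 10), (1, 7), (1, 16), (3, 7)]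
    steps := [(0, 8), (0, 6), (1, 2), (1, 5), (1, 11), (3, 4), (3, 12), (7, 14), (7, 15)] }
  rep := [0, 10, 16, 7, 1, 9, 13, 3, 17]

noncomputable def v3496 : Cov.CovD where
  P := 3
  N := 6
  pl := [1, 5, 9]
  lev := [⟨[], [], [(0, 1)], [5], [(0, 0, [1, 4]), (2, 1, [0])]⟩,
    ⟨[], [(0, 0), (0, 1)], [(0, 1)], [], [(0, 0, [1, 4]), (2, 1, [0])]⟩,
    ⟨[(0, 1)], [(0, 1), (1, 0), (1, 1), (1, 4)], [(1, 4)], [], [(2, 1, [0]), (3, 4, [0, 2,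
      3])]⟩,
    ⟨[(0, 1), (1, 2)], [(1, 0), (1, 1), (1, 4), (1, 7), (2, 1), (2, 4), (2, 7)], [(4, 7)],
      [6], [(3, 4, [0, 2, 3]), (4, 7, [3])]⟩,
    ⟨[(1, 3), (2, 3)], [(3, 3), (3, 4), (3, 7)], [], [6], [(6, 3, [4, 7])]⟩,
    ⟨[(0, 1), (1, 2), (1, 3), (2, 3), (3, 4)], [(1, 0), (1, 1), (1, 2), (1, 3), (3, 2), (3,
      3), (3, 4), (3, 7)], [(2, 3)], [], [(7, 3, [4, 7]), (8, 2, [4])]⟩,
    ⟨[(0, 1), (1, 2), (1, 3), (1, 5), (3, 5)], [(0, 0), (1, 0), (1, 1), (1, 2), (5, 0), (5,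
      2), (5, 3)], [(0, 2)], [], [(0, 0, [1, 4]), (8, 2, [4])]⟩,
    ⟨[(1, 3), (1, 5), (2, 3), (3, 4), (3, 5), (4, 5), (5, 6)], [(3, 3), (3, 4), (3, 7), (4,
      3), (5, 2), (5, 3)], [(3, 3)], [5, 8], [(6, 3, [4, 7]), (7, 3, [4, 7])]⟩]
  Ta := [((6, 5), 3, 6), ((6, 9), 3, 8), ((7, 1), 3, 5), ((7, 8), 3, 2)]
  Tb := [((0, 1, 8), 0, 5, 2), ((1, 0, 2), 5, 0, 1), ((1, 0, 7), 5, 0, 3), ((1, 0, 9), 5, 0, 8),
    ((1, 2, 7), 5, 1, 3), ((1, 2, 9), 5, 1, 8), ((1, 7, 9), 5, 3, 8), ((2, 1, 3), 1, 5, 4),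
    ((3, 2, 4), 4, 1, 7), ((4, 3, 5), 7, 4, 6), ((5, 4, 6), 6, 7, 3), ((6, 5, 9), 3, 6, 8),
    ((7, 1, 8), 3, 5, 2), ((8, 0, 7), 2, 0, 3), ((9, 1, 6), 8, 5, 3)]
  Tc := [(0, 1, 4), (3, 4, 7), (4, 0, 2), (4, 0, 3), (4, 2, 3)]
  Td := [((0, 1), (0, 1), 5), ((0, 1), (0, 8), 2), ((0, 4), (0, 1), 5), ((0, 4), (0, 8), 2), ((1,
    0), (2, 1), 5), ((1, 0), (2, 3), 4), ((2, 4), (8, 0), 0), ((2, 4), (8, 7), 3), ((3, 4),
    (6, 5), 6), ((3, 4), (6, 9), 8), ((3, 4), (7, 1), 5), ((3, 4), (7, 8), 2), ((3, 7), (6,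
    5), 6), ((3, 7), (6, 9), 8), ((3, 7), (7, 1), 5), ((3, 7), (7, 8), 2), ((4, 0), (3, 2),
    1), ((4, 0), (3, 4), 7), ((4, 2), (3, 2), 1), ((4, 2), (3, 4), 7), ((4, 3), (3, 2), 1),
    ((4, 3), (3, 4), 7), ((7, 3), (4, 3), 4), ((7, 3), (4, 5), 6)]
  G := [[0, 0xd81314453814b41d81ad81261c18d18612c6412245a812a84b84ada813149238e,
    0x1844118241b24285466b281948b285882a48afd414881f42348a6488555824178215287285a9cc,
    0xf4821f411416a8111892848483487a84a48af9474821f81381a248584a6848757812688498cc,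
    0x12841b8281f21b823a219283b81b28ca284fd45212216721521c7826286b782481a458c], [0,
    0x9418914941c6178148154191cd18c92c3412415614684a938134837815189638a,
    0xf4232446692238299289485e1434224645382b829524548ce18c,
    0xb41384698128989981b489a48a846f1454124445374134895417845684648cf18c,
    0xf82f816a281928b285a82a28cf145815285682628a35212b2121a29c58c]]

noncomputable def n3496 : Ent := ⟨e3496, noF, [], [], []⟩

def c3496 : PLift (Cov.check n3496.C.D v3496 = true) := ⟨by decide +kernel⟩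

def b3496 : PLift (entF (fidx ts) 400 3496 n3496 = true) := ⟨by decide +kernel⟩

theorem g3496 : GoodF (fidx ts) 400 3496 := GoodF.ofV v3496 n3496 c3496.down b3496.down

/-- 47484647:2639 -/
noncomputable def e3497 : SCfg where
  D := {
    a := 8
    L := 11
    kp := 9
    inn := [(0, 1), (1, 0), (1, 2), (1, 3), (1, 5), (1, 6), (2, 1), (2, 3), (3, 1), (3, 2), (3, 4), (3,
      5), (3, 7), (4, 3), (4, 7), (5, 1), (5, 3), (5, 6), (5, 7), (6, 1), (6, 5), (7, 3), (7, 4),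
      (7, 5)]
    mix := [(0, 0), (0, 1), (0, 2), (1, 0), (1, 2), (2, 2), (2, 3), (3, 3), (3, 4), (3, 5), (4, 5), (4,
      6), (5, 7), (5, 8), (6, 0), (6, 8), (7, 6), (7, 7), (7, 9), (7, 10)]
    cl := [0, 7, 1, 4, 6, 5, 3, 3, 2, 8, 9]
    chq := [(0, 1), (0, 4), (1, 0), (2, 4), (2, 5), (2, 6), (4, 0), (4, 2), (5, 2), (6, 2)]
    rng := [(0, 1), (0, 8), (1, 0), (1, 2), (2, 1), (2, 3), (3, 2), (3, 4), (4, 3), (4, 5), (5, 4), (5,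
      6), (6, 5), (6, 9), (7, 8), (7, 10), (8, 0), (8, 7), (9, 6), (9, 10), (10, 7), (10, 9)]
    lev := [] }
  links := [[1, 8, 9, 10], [8, 0, 10, 2, 3, 5, 6], [3, 1, 10, 11], [5, 1, 2, 11, 12, 13, 4, 7], [7, 3,
    13, 14], [6, 1, 3, 7, 15, 16], [8, 1, 5, 16], [15, 5, 3, 4, 14, 17, 18]]
  P := {
    a := 8
    N := 19
    nb := [1794, 1389, 3082, 14518, 24712, 98506, 65826, 442424, 66115, 1281, 2567, 5132, 10248,
      20504, 139408, 327840, 33120, 278656, 163968]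
    tri := [(0, 1, 8), (0, 1, 10), (0, 8, 9), (0, 9, 10), (1, 2, 3), (1, 2, 10), (1, 3, 5), (1, 5, 6),
      (1, 6, 8), (2, 3, 11), (2, 10, 11), (3, 4, 7), (3, 4, 13), (3, 5, 7), (3, 11, 12), (3, 12,
      13), (4, 7, 14), (4, 13, 14), (5, 6, 16), (5, 7, 15), (5, 15, 16), (6, 8, 16), (7, 14, 17),
      (7, 15, 18), (7, 17, 18)]
    fin := [0, 0, 0, 3, 4, 3, 0, 7, 0, 9, 10, 11, 12, 4, 7, 7, 3, 17, 18]
    chd := [(0, 10), (0, 11), (4, 3), (11, 3), (12, 3)]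
    steps := [(0, 1), (0, 2), (0, 6), (0, 8), (3, 5), (3, 16), (4, 13), (7, 14), (7, 15)] }
  rep := [0, 10, 3, 7, 11, 4, 12, 9, 17, 18]

noncomputable def v3497 : Cov.CovD where
  P := 3
  N := 7
  pl := [1, 9, 10]
  lev := [⟨[], [], [(0, 1)], [7], [(0, 0, [1, 4]), (2, 1, [0])]⟩,
    ⟨[], [(0, 0), (0, 1)], [(0, 1)], [], [(0, 0, [1, 4]), (2, 1, [0])]⟩,
    ⟨[(0, 1)], [(0, 1), (1, 0), (1, 1), (1, 4)], [(1, 4)], [], [(2, 1, [0]), (3, 4, [0,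
      2])]⟩,
    ⟨[(0, 1), (1, 2)], [(1, 0), (1, 1), (1, 4), (1, 5), (1, 6), (2, 1), (2, 4), (2, 5), (2,
      6)], [(4, 5), (4, 6), (5, 6)], [], [(3, 4, [0, 2]), (4, 6, [2]), (5, 5, [2])]⟩,
    ⟨[(1, 3), (2, 3)], [(3, 3), (3, 4), (3, 5), (3, 6)], [(3, 5)], [], [(5, 5, [2]), (6, 3,
      [])]⟩,
    ⟨[(0, 1), (1, 2), (1, 3), (2, 3), (3, 4)], [(1, 0), (1, 1), (1, 2), (1, 3), (3, 2), (3,
      3), (3, 4), (3, 5), (3, 6)], [(2, 3)], [], [(7, 3, []), (8, 2, [4, 5, 6])]⟩,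
    ⟨[(0, 1), (1, 2), (1, 3), (1, 5), (3, 5)], [(0, 0), (1, 0), (1, 1), (1, 2), (5, 0), (5,
      2), (5, 3)], [(0, 2)], [], [(0, 0, [1, 4]), (8, 2, [4, 5, 6])]⟩,
    ⟨[(1, 3), (1, 5), (2, 3), (3, 4), (3, 5), (4, 5), (5, 6)], [(3, 3), (3, 4), (3, 5), (3,
      6), (4, 3), (4, 5), (5, 2), (5, 3)], [(3, 3)], [8, 9], [(6, 3, []), (7, 3, [])]⟩]
  Ta := [((6, 5), 3, 5), ((6, 9), 3, 8), ((7, 8), 3, 2), ((7, 10), 3, 9)]
  Tb := [((0, 1, 8), 0, 7, 2), ((1, 0, 2), 7, 0, 1), ((2, 1, 3), 1, 7, 4), ((3, 2, 4), 4, 1, 6),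
    ((4, 3, 5), 6, 4, 5), ((5, 4, 6), 5, 6, 3), ((6, 5, 9), 3, 5, 8), ((7, 8, 10), 3, 2, 9),
    ((8, 0, 7), 2, 0, 3), ((9, 6, 10), 8, 3, 9), ((10, 7, 9), 9, 3, 8)]
  Tc := [(0, 1, 4), (2, 4, 5), (2, 4, 6), (2, 5, 6), (4, 0, 2)]
  Td := [((0, 1), (0, 1), 7), ((0, 1), (0, 8), 2), ((0, 4), (0, 1), 7), ((0, 4), (0, 8), 2), ((1,
    0), (2, 1), 7), ((1, 0), (2, 3), 4), ((2, 4), (8, 0), 0), ((2, 4), (8, 7), 3), ((2, 5),
    (8, 0), 0), ((2, 5), (8, 7), 3), ((2, 6), (8, 0), 0), ((2, 6), (8, 7), 3), ((4, 0), (3,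
    2), 1), ((4, 0), (3, 4), 6), ((4, 2), (3, 2), 1), ((4, 2), (3, 4), 6), ((5, 2), (5, 4),
    6), ((5, 2), (5, 6), 3), ((6, 2), (4, 3), 4), ((6, 2), (4, 5), 5)]
  G := [[0,
    0x22441241241cf41f41f14d63281881a244224628122182249df81b8445f84d238228284a121421432242819c38e,
    0x182124128e48f1128182128e82f1c4124144124e42f1124184124e84f1c8c,
    0x21821221224c288221228bf81f81f48d248284248ef9422124122172412812417f81f41f84d224244284ef18c,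
    0x442422442b1f21121f2114e23f421421442d65481422482788c42142144274814814817442482442ebf82f81f82b458c],
    [0, 0x24121245921485f14b41c23241284588a21841e178942342212446124121452412189f841e38e,
    0x142588a1182528a188646a48c1d412214461144148c1e82e8461d8c,
    0x2412845281288944a854df48c224288cf1424124452412489f41f845284248cf18c,
    0xf212d62233441861481482328814881422428af1c422424236422448a9f21f82348483428c658c]]

noncomputable def n3497 : Ent := ⟨e3497, noF, [], [], [(9, 14, [31810581956886796354777272293785310057557672019661700884176840250667720705, 0]), (9, 17, [31810150492402119267275227079217218666319002904815489586567506653227937793, 0]), (9, 18, [30043303427623734937691929578474300150491519007939870628445900451935322113, 0])]⟩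

def c3497 : PLift (Cov.check n3497.C.D v3497 = true) := ⟨by decide +kernel⟩

def b3497 : PLift (entF (fidx ts) 400 3497 n3497 = true) := ⟨by decide +kernel⟩

theorem g3497 : GoodF (fidx ts) 400 3497 := GoodF.ofV v3497 n3497 c3497.down b3497.down

/-- 47484647:2642/1 -/
noncomputable def e3498 : SCfg where
  D := {
    a := 8
    L := 10
    kp := 8
    inn := [(0, 1), (1, 0), (1, 2), (1, 3), (1, 5), (2, 1), (2, 3), (3, 1), (3, 2), (3, 4), (3, 5), (3,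
      7), (4, 3), (4, 7), (5, 1), (5, 3), (5, 6), (5, 7), (6, 5), (6, 7), (7, 3), (7, 4), (7, 5),
      (7, 6)]
    mix := [(0, 0), (0, 1), (0, 2), (1, 0), (1, 2), (1, 3), (2, 2), (2, 4), (3, 4), (3, 5), (3, 6), (4,
      1), (4, 6), (5, 3), (5, 7), (6, 7), (6, 8), (7, 1), (7, 8), (7, 9)]
    cl := [5, 1, 0, 0, 6, 7, 2, 3, 4, 8]
    chq := [(0, 2), (0, 7), (2, 0), (2, 3), (2, 4), (2, 8), (3, 2), (4, 2), (7, 0), (8, 2)]
    rng := [(0, 1), (0, 3), (1, 0), (1, 2), (1, 6), (1, 9), (2, 1), (2, 4), (3, 0), (3, 7), (4, 2), (4,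
      5), (5, 4), (5, 6), (6, 1), (6, 5), (7, 3), (7, 8), (8, 7), (8, 9), (9, 1), (9, 8)]
    lev := [] }
  links := [[1, 8, 9, 10], [8, 0, 10, 2, 3, 5, 11], [3, 1, 10, 12], [5, 1, 2, 12, 13, 14, 4, 7], [7, 3,
    14, 9], [11, 1, 3, 7, 6, 15], [15, 5, 7, 16], [16, 6, 5, 3, 4, 9, 17]]
  P := {
    a := 8
    N := 18
    nb := [1794, 3373, 5130, 28854, 17032, 35018, 98464, 197240, 2563, 148881, 4615, 33058, 9228,
      20488, 8728, 67680, 164032, 66176]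
    tri := [(0, 1, 8), (0, 1, 10), (0, 8, 9), (0, 9, 10), (1, 2, 3), (1, 2, 10), (1, 3, 5), (1, 5, 11),
      (1, 8, 11), (2, 3, 12), (2, 10, 12), (3, 4, 7), (3, 4, 14), (3, 5, 7), (3, 12, 13), (3, 13,
      14), (4, 7, 9), (4, 9, 14), (5, 6, 7), (5, 6, 15), (5, 11, 15), (6, 7, 16), (6, 15, 16), (7,
      9, 17), (7, 16, 17)]
    fin := [0, 0, 2, 2, 4, 2, 4, 4, 0, 9, 2, 2, 12, 13, 4, 15, 16, 17]
    chd := [(2, 4), (2, 13), (4, 15), (4, 16), (4, 17)]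
    steps := [(0, 1), (0, 8), (2, 3), (2, 5), (2, 10), (2, 11), (4, 7), (4, 6), (4, 14)] }
  rep := [2, 9, 4, 15, 16, 0, 12, 13, 17]

noncomputable def v3498 : Cov.CovD where
  P := 3
  N := 6
  pl := [0, 1, 4]
  lev := [⟨[], [], [], [1, 5], [(2, 0, [2, 7])]⟩,
    ⟨[], [(0, 0)], [(0, 0)], [5], [(2, 0, [2, 7]), (3, 0, [2, 7])]⟩,
    ⟨[(0, 1)], [(0, 0), (1, 0)], [], [6], [(2, 0, [2, 7])]⟩,
    ⟨[(0, 1), (1, 2)], [(1, 0), (1, 2), (1, 7), (2, 0), (2, 2), (2, 7)], [(2, 7)], [6],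
      [(5, 7, [0]), (6, 2, [0, 3, 4, 8])]⟩,
    ⟨[(1, 3), (2, 3)], [(3, 2), (3, 7)], [], [1], [(6, 2, [0, 3, 4, 8])]⟩,
    ⟨[(0, 1), (1, 2), (1, 3), (2, 3), (3, 4)], [(1, 0), (1, 3), (3, 0), (3, 2), (3, 3), (3,
      7)], [(0, 3)], [], [(3, 0, [2, 7]), (7, 3, [2])]⟩,
    ⟨[(1, 5), (3, 5)], [(5, 0), (5, 3), (5, 4)], [(3, 4)], [], [(7, 3, [2]), (8, 4, [2])]⟩,
    ⟨[(1, 3), (1, 5), (2, 3), (3, 4), (3, 5), (3, 6), (4, 5), (4, 6), (5, 6)], [(3, 2), (3,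
      4), (3, 7), (3, 8), (4, 2), (4, 4), (4, 8), (5, 0), (5, 3), (5, 4), (5, 8), (6, 3), (6,
      4), (6, 8)], [(4, 8)], [1], [(8, 4, [2]), (9, 8, [2])]⟩]
  Ta := [((2, 1), 0, 1), ((2, 4), 0, 6), ((3, 0), 0, 5), ((3, 7), 0, 3)]
  Tb := [((0, 1, 3), 5, 1, 0), ((1, 0, 2), 1, 5, 0), ((1, 0, 6), 1, 5, 2), ((1, 0, 9), 1, 5, 8),
    ((1, 2, 6), 1, 0, 2), ((1, 2, 9), 1, 0, 8), ((1, 6, 9), 1, 2, 8), ((2, 1, 4), 0, 1, 6),
    ((3, 0, 7), 0, 5, 3), ((4, 2, 5), 6, 0, 7), ((5, 4, 6), 7, 6, 2), ((6, 1, 5), 2, 1, 7),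
    ((7, 3, 8), 3, 0, 4), ((8, 7, 9), 4, 3, 8), ((9, 1, 8), 8, 1, 4)]
  Tc := [(0, 2, 7), (2, 0, 3), (2, 0, 4), (2, 0, 8), (2, 3, 4), (2, 3, 8), (2, 4, 8)]
  Td := [((0, 2), (2, 1), 1), ((0, 2), (2, 4), 6), ((0, 2), (3, 0), 5), ((0, 2), (3, 7), 3), ((0,
    7), (2, 1), 1), ((0, 7), (2, 4), 6), ((0, 7), (3, 0), 5), ((0, 7), (3, 7), 3), ((2, 0),
    (6, 1), 1), ((2, 0), (6, 5), 7), ((2, 3), (6, 1), 1), ((2, 3), (6, 5), 7), ((2, 4), (6,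
    1), 1), ((2, 4), (6, 5), 7), ((2, 8), (6, 1), 1), ((2, 8), (6, 5), 7), ((3, 2), (7, 3),
    0), ((3, 2), (7, 8), 4), ((4, 2), (8, 7), 3), ((4, 2), (8, 9), 8), ((7, 0), (5, 4), 6),
    ((7, 0), (5, 6), 2), ((8, 2), (9, 1), 1), ((8, 2), (9, 8), 4)]
  G := [[0, 0x225ce36414821cc27a8124229225c8182e,
    0x1111a41111a4a141111a841111c82611116481111a84ca5,
    0xd228112c231d228561124215882118cad22812114234c211c82111128cc6c,
    0x59cd426815144a5826114444e1588a4144a31449443a89418141c4691449443a8ba4c], [0, 0,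
    0x1111a841111c82611116481111c82a11116481111a84ce1,
    0xd2281d224168d2241d2241a41124811284c2d, 0x114459cd4268328449443a8184449d45a8142d]]

noncomputable def n3498 : Ent := ⟨e3498, noF, [], [], []⟩

def c3498 : PLift (Cov.check n3498.C.D v3498 = true) := ⟨by decide +kernel⟩

def b3498 : PLift (entF (fidx ts) 400 3498 n3498 = true) := ⟨by decide +kernel⟩

theorem g3498 : GoodF (fidx ts) 400 3498 := GoodF.ofV v3498 n3498 c3498.down b3498.down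

/-- 47484647:2642/2 -/
noncomputable def e3499 : SCfg where
  D := {
    a := 8
    L := 10
    kp := 8
    inn := [(0, 1), (1, 0), (1, 2), (1, 3), (1, 5), (2, 1), (2, 3), (3, 1), (3, 2), (3, 4), (3, 5), (3,
      7), (4, 3), (4, 7), (5, 1), (5, 3), (5, 6), (5, 7), (6, 5), (6, 7), (7, 3), (7, 4), (7, 5),
      (7, 6)]
    mix := [(0, 0), (0, 1), (0, 2), (1, 0), (1, 2), (1, 3), (2, 2), (2, 4), (3, 4), (3, 5), (3, 6), (4,
      6), (4, 7), (5, 3), (5, 8), (6, 8), (6, 9), (7, 1), (7, 7), (7, 9)]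
    cl := [5, 2, 0, 0, 6, 8, 1, 7, 3, 4]
    chq := [(0, 1), (0, 8), (1, 0), (1, 2), (1, 3), (1, 4), (2, 1), (3, 1), (4, 1), (8, 0)]
    rng := [(0, 1), (0, 3), (1, 0), (1, 2), (1, 7), (1, 9), (2, 1), (2, 4), (3, 0), (3, 8), (4, 2), (4,
      5), (5, 4), (5, 6), (6, 5), (6, 7), (7, 1), (7, 6), (8, 3), (8, 9), (9, 1), (9, 8)]
    lev := [] }
  links := [[1, 8, 9, 10], [8, 0, 10, 2, 3, 5, 11], [3, 1, 10, 12], [5, 1, 2, 12, 13, 14, 4, 7], [7, 3,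
    14, 15], [11, 1, 3, 7, 6, 16], [16, 5, 7, 17], [17, 6, 5, 3, 4, 15, 9]]
  P := {
    a := 8
    N := 18
    nb := [1794, 3373, 5130, 28854, 49288, 67786, 196768, 164472, 2563, 165249, 4615, 65826, 9228,
      20488, 40984, 17040, 133216, 66240]
    tri := [(0, 1, 8), (0, 1, 10), (0, 8, 9), (0, 9, 10), (1, 2, 3), (1, 2, 10), (1, 3, 5), (1, 5, 11),
      (1, 8, 11), (2, 3, 12), (2, 10, 12), (3, 4, 7), (3, 4, 14), (3, 5, 7), (3, 12, 13), (3, 13,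
      14), (4, 7, 15), (4, 14, 15), (5, 6, 7), (5, 6, 16), (5, 11, 16), (6, 7, 17), (6, 16, 17),
      (7, 9, 15), (7, 9, 17)]
    fin := [0, 0, 2, 2, 4, 2, 4, 4, 0, 9, 2, 2, 12, 13, 4, 15, 16, 17]
    chd := [(2, 4), (2, 13), (4, 16), (4, 17), (9, 4)]
    steps := [(0, 1), (0, 8), (2, 3), (2, 5), (2, 10), (2, 11), (4, 7), (4, 6), (4, 14)] }
  rep := [2, 4, 9, 16, 17, 0, 12, 15, 13]

noncomputable def v3499 : Cov.CovD where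
  P := 3
  N := 6
  pl := [0, 4, 7]
  lev := [⟨[], [], [(0, 2)], [5], [(1, 2, [1]), (2, 0, [1, 8])]⟩,
    ⟨[], [(0, 0), (0, 2)], [(0, 0)], [5], [(2, 0, [1, 8]), (3, 0, [1, 8])]⟩,
    ⟨[(0, 1)], [(0, 0), (1, 0)], [], [6], [(2, 0, [1, 8])]⟩,
    ⟨[(0, 1), (1, 2)], [(1, 0), (1, 1), (1, 8), (2, 0), (2, 1), (2, 8)], [(1, 8)], [6],
      [(5, 8, [0]), (6, 1, [0, 2, 3, 4])]⟩,
    ⟨[(1, 3), (2, 3)], [(3, 1), (3, 8)], [], [7], [(6, 1, [0, 2, 3, 4])]⟩,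
    ⟨[(0, 1), (1, 2), (1, 3), (2, 3), (3, 4)], [(1, 0), (1, 3), (3, 0), (3, 1), (3, 3), (3,
      8)], [(0, 3)], [], [(3, 0, [1, 8]), (8, 3, [1])]⟩,
    ⟨[(1, 5), (3, 5)], [(5, 0), (5, 3), (5, 4)], [(3, 4)], [], [(8, 3, [1]), (9, 4, [1])]⟩,
    ⟨[(1, 3), (1, 5), (2, 3), (3, 4), (3, 5), (3, 6), (4, 5), (4, 6), (5, 6)], [(0, 2), (3,
      1), (3, 2), (3, 4), (3, 8), (4, 1), (4, 2), (4, 4), (5, 0), (5, 2), (5, 3), (5, 4), (6,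
      2), (6, 3), (6, 4)], [(2, 4)], [7], [(1, 2, [1]), (9, 4, [1])]⟩]
  Ta := [((2, 1), 0, 2), ((2, 4), 0, 6), ((3, 0), 0, 5), ((3, 8), 0, 3)]
  Tb := [((0, 1, 3), 5, 2, 0), ((1, 0, 2), 2, 5, 0), ((1, 0, 7), 2, 5, 7), ((1, 0, 9), 2, 5, 4),
    ((1, 2, 7), 2, 0, 7), ((1, 2, 9), 2, 0, 4), ((1, 7, 9), 2, 7, 4), ((2, 1, 4), 0, 2, 6),
    ((3, 0, 8), 0, 5, 3), ((4, 2, 5), 6, 0, 8), ((5, 4, 6), 8, 6, 1), ((6, 5, 7), 1, 8, 7),
    ((7, 1, 6), 7, 2, 1), ((8, 3, 9), 3, 0, 4), ((9, 1, 8), 4, 2, 3)]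
  Tc := [(0, 1, 8), (1, 0, 2), (1, 0, 3), (1, 0, 4), (1, 2, 3), (1, 2, 4), (1, 3, 4)]
  Td := [((0, 1), (2, 1), 2), ((0, 1), (2, 4), 6), ((0, 1), (3, 0), 5), ((0, 1), (3, 8), 3), ((0,
    8), (2, 1), 2), ((0, 8), (2, 4), 6), ((0, 8), (3, 0), 5), ((0, 8), (3, 8), 3), ((1, 0),
    (6, 5), 8), ((1, 0), (6, 7), 7), ((1, 2), (6, 5), 8), ((1, 2), (6, 7), 7), ((1, 3), (6,
    5), 8), ((1, 3), (6, 7), 7), ((1, 4), (6, 5), 8), ((1, 4), (6, 7), 7), ((2, 1), (1, 0),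
    5), ((2, 1), (1, 2), 0), ((2, 1), (1, 7), 7), ((2, 1), (1, 9), 4), ((3, 1), (8, 3), 0),
    ((3, 1), (8, 9), 4), ((4, 1), (9, 1), 2), ((4, 1), (9, 8), 3), ((8, 0), (5, 4), 6), ((8,
    0), (5, 6), 1)]
  G := [[0, 0x11116211116112114e6181112a21111a1111aca141111611116681181111aac1245c2d,
    0x21e16112821e1a1184e1e1c1142e,
    0x822522a11122821421c1222712218e1222d2229821421c1222312224ec2,
    0x2a6111622a394248a362431a6c16214121222a758a2148cc142121a92c852222e1122255a2321c244591282912a612162299b2216c4d12848d6a],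
    [0, 0x111262112114661118821a11116281111c1111cc2a1111611116681111a1111aa4c69, 0,
    0xd2221822522a1ad2221d2221cc1122811224c23,
    0x122124445248a362131a6c16812413292ca2324cc912811212c1c9211248223825a28196ac122a441e4b]]

noncomputable def n3499 : Ent := ⟨e3499, noF, [], [], []⟩

def c3499 : PLift (Cov.check n3499.C.D v3499 = true) := ⟨by decide +kernel⟩

def b3499 : PLift (entF (fidx ts) 400 3499 n3499 = true) := ⟨by decide +kernel⟩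

theorem g3499 : GoodF (fidx ts) 400 3499 := GoodF.ofV v3499 n3499 c3499.down b3499.down

/-- 47484647:2642/3 -/
noncomputable def e3500 : SCfg where
  D := {
    a := 8
    L := 10
    kp := 8
    inn := [(0, 1), (1, 0), (1, 2), (1, 3), (1, 5), (2, 1), (2, 3), (3, 1), (3, 2), (3, 4), (3, 5), (3,
      7), (4, 3), (4, 7), (5, 1), (5, 3), (5, 6), (5, 7), (6, 5), (6, 7), (7, 3), (7, 4), (7, 5),
      (7, 6)]
    mix := [(0, 0), (0, 1), (0, 2), (1, 0), (1, 2), (1, 3), (2, 2), (2, 4), (3, 4), (3, 5), (3, 6), (4,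
      6), (4, 7), (5, 3), (5, 8), (6, 1), (6, 8), (7, 1), (7, 7), (7, 9)]
    cl := [2, 1, 0, 0, 5, 7, 3, 6, 4, 8]
    chq := [(0, 3), (0, 7), (1, 3), (3, 0), (3, 1), (3, 4), (3, 8), (4, 3), (7, 0), (8, 3)]
    rng := [(0, 1), (0, 3), (1, 0), (1, 2), (1, 8), (1, 9), (2, 1), (2, 4), (3, 0), (3, 8), (4, 2), (4,
      5), (5, 4), (5, 6), (6, 5), (6, 7), (7, 6), (7, 9), (8, 1), (8, 3), (9, 1), (9, 7)]
    lev := [] }
  links := [[1, 8, 9, 10], [8, 0, 10, 2, 3, 5, 11], [3, 1, 10, 12], [5, 1, 2, 12, 13, 14, 4, 7], [7, 3,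
    14, 15], [11, 1, 3, 7, 6, 16], [16, 5, 7, 9], [9, 6, 5, 3, 4, 15, 17]]
  P := {
    a := 8
    N := 18
    nb := [1794, 3373, 5130, 28854, 49288, 67786, 66208, 164472, 2563, 198081, 4615, 65826, 9228,
      20488, 40984, 147600, 2656, 33408]
    tri := [(0, 1, 8), (0, 1, 10), (0, 8, 9), (0, 9, 10), (1, 2, 3), (1, 2, 10), (1, 3, 5), (1, 5, 11),
      (1, 8, 11), (2, 3, 12), (2, 10, 12), (3, 4, 7), (3, 4, 14), (3, 5, 7), (3, 12, 13), (3, 13,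
      14), (4, 7, 15), (4, 14, 15), (5, 6, 7), (5, 6, 16), (5, 11, 16), (6, 7, 9), (6, 9, 16), (7,
      9, 17), (7, 15, 17)]
    fin := [0, 0, 2, 2, 4, 2, 4, 4, 0, 9, 2, 2, 12, 13, 4, 15, 16, 17]
    chd := [(2, 4), (2, 13), (4, 16), (4, 17), (9, 4)]
    steps := [(0, 1), (0, 8), (2, 3), (2, 5), (2, 10), (2, 11), (4, 7), (4, 6), (4, 14)] }
  rep := [2, 9, 0, 4, 16, 12, 15, 13, 17]

noncomputable def v3500 : Cov.CovD where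
  P := 3
  N := 6
  pl := [0, 4, 7]
  lev := [⟨[], [], [(0, 1)], [2], [(1, 1, [3]), (2, 0, [3, 7])]⟩,
    ⟨[], [(0, 0), (0, 1)], [(0, 0)], [2], [(2, 0, [3, 7]), (3, 0, [3, 7])]⟩,
    ⟨[(0, 1)], [(0, 0), (1, 0)], [], [5], [(2, 0, [3, 7])]⟩,
    ⟨[(0, 1), (1, 2)], [(1, 0), (1, 3), (1, 7), (2, 0), (2, 3), (2, 7)], [(3, 7)], [5],
      [(5, 7, [0]), (6, 3, [0, 1, 4, 8])]⟩,
    ⟨[(1, 3), (2, 3)], [(3, 3), (3, 7)], [], [6], [(6, 3, [0, 1, 4, 8])]⟩,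
    ⟨[(0, 1), (1, 2), (1, 3), (2, 3), (3, 4)], [(1, 0), (1, 4), (3, 0), (3, 3), (3, 4), (3,
      7)], [(0, 4)], [], [(3, 0, [3, 7]), (8, 4, [3])]⟩,
    ⟨[(1, 5), (3, 5)], [(0, 1), (5, 0), (5, 1), (5, 4)], [(1, 4)], [], [(1, 1, [3]), (8, 4,
      [3])]⟩,
    ⟨[(1, 3), (1, 5), (2, 3), (3, 4), (3, 5), (3, 6), (4, 5), (4, 6), (5, 6)], [(0, 1), (3,
      1), (3, 3), (3, 7), (3, 8), (4, 1), (4, 3), (4, 8), (5, 0), (5, 1), (5, 4), (5, 8), (6,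
      1), (6, 4), (6, 8)], [(1, 8)], [6], [(1, 1, [3]), (9, 8, [3])]⟩]
  Ta := [((2, 1), 0, 1), ((2, 4), 0, 5), ((3, 0), 0, 2), ((3, 8), 0, 4)]
  Tb := [((0, 1, 3), 2, 1, 0), ((1, 0, 2), 1, 2, 0), ((1, 0, 8), 1, 2, 4), ((1, 0, 9), 1, 2, 8),
    ((1, 2, 8), 1, 0, 4), ((1, 2, 9), 1, 0, 8), ((1, 8, 9), 1, 4, 8), ((2, 1, 4), 0, 1, 5),
    ((3, 0, 8), 0, 2, 4), ((4, 2, 5), 5, 0, 7), ((5, 4, 6), 7, 5, 3), ((6, 5, 7), 3, 7, 6),
    ((7, 6, 9), 6, 3, 8), ((8, 1, 3), 4, 1, 0), ((9, 1, 7), 8, 1, 6)]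
  Tc := [(0, 3, 7), (3, 0, 1), (3, 0, 4), (3, 0, 8), (3, 1, 4), (3, 1, 8), (3, 4, 8)]
  Td := [((0, 3), (2, 1), 1), ((0, 3), (2, 4), 5), ((0, 3), (3, 0), 2), ((0, 3), (3, 8), 4), ((0,
    7), (2, 1), 1), ((0, 7), (2, 4), 5), ((0, 7), (3, 0), 2), ((0, 7), (3, 8), 4), ((1, 3),
    (1, 0), 2), ((1, 3), (1, 2), 0), ((1, 3), (1, 8), 4), ((1, 3), (1, 9), 8), ((3, 0), (6,
    5), 7), ((3, 0), (6, 7), 6), ((3, 1), (6, 5), 7), ((3, 1), (6, 7), 6), ((3, 4), (6, 5),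
    7), ((3, 4), (6, 7), 6), ((3, 8), (6, 5), 7), ((3, 8), (6, 7), 6), ((4, 3), (8, 1), 1),
    ((4, 3), (8, 3), 0), ((7, 0), (5, 4), 5), ((7, 0), (5, 6), 3), ((8, 3), (9, 1), 1), ((8,
    3), (9, 7), 6)]
  G := [[0, 0xa44c224ac2ca67142c6268828c2c6ab168881ac4, 0,
    0x4811512912c1c928123791281231111cc123c121c52a7c51228c1218ac4,
    0x112c81c127145414921c92e3841412814837514914c1c542765851644c1311848181658986b8181629111a2c18882da8],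
    [0, 0, 0x1c994c84c16311891c5ac1831145481e28,
    0x11224152112c6111221452812dc92842f91c52dc5244271ac8,
    0x49c1c96211114c1114cc2a1111624841c8184cc91111a24441a8184c589945ce5ca1]]

noncomputable def n3500 : Ent := ⟨e3500, noF, [], [], []⟩

def c3500 : PLift (Cov.check n3500.C.D v3500 = true) := ⟨by decide +kernel⟩

def b3500 : PLift (entF (fidx ts) 400 3500 n3500 = true) := ⟨by decide +kernel⟩

theorem g3500 : GoodF (fidx ts) 400 3500 := GoodF.ofV v3500 n3500 c3500.down b3500.down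

/-- 47484647:2642 -/
noncomputable def e3501 : SCfg where
  D := {
    a := 8
    L := 11
    kp := 9
    inn := [(0, 1), (1, 0), (1, 2), (1, 3), (1, 5), (2, 1), (2, 3), (3, 1), (3, 2), (3, 4), (3, 5), (3,
      7), (4, 3), (4, 7), (5, 1), (5, 3), (5, 6), (5, 7), (6, 5), (6, 7), (7, 3), (7, 4), (7, 5),
      (7, 6)]
    mix := [(0, 0), (0, 1), (0, 2), (1, 0), (1, 2), (1, 3), (2, 2), (2, 4), (3, 4), (3, 5), (3, 6), (4,
      6), (4, 7), (5, 3), (5, 8), (6, 8), (6, 9), (7, 7), (7, 9), (7, 10)]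
    cl := [2, 9, 0, 0, 5, 7, 1, 6, 3, 4, 8]
    chq := [(0, 1), (0, 7), (1, 0), (1, 3), (1, 4), (1, 8), (3, 1), (4, 1), (7, 0), (8, 1)]
    rng := [(0, 1), (0, 3), (1, 0), (1, 2), (2, 1), (2, 4), (3, 0), (3, 8), (4, 2), (4, 5), (5, 4), (5,
      6), (6, 5), (6, 7), (7, 6), (7, 10), (8, 3), (8, 9), (9, 8), (9, 10), (10, 7), (10, 9)]
    lev := [] }
  links := [[1, 8, 9, 10], [8, 0, 10, 2, 3, 5, 11], [3, 1, 10, 12], [5, 1, 2, 12, 13, 14, 4, 7], [7, 3,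
    14, 15], [11, 1, 3, 7, 6, 16], [16, 5, 7, 17], [17, 6, 5, 3, 4, 15, 18]]
  P := {
    a := 8
    N := 19
    nb := [1794, 3373, 5130, 28854, 49288, 67786, 196768, 426104, 2563, 1281, 4615, 65826, 9228,
      20488, 40984, 278672, 133216, 327872, 163968]
    tri := [(0, 1, 8), (0, 1, 10), (0, 8, 9), (0, 9, 10), (1, 2, 3), (1, 2, 10), (1, 3, 5), (1, 5, 11),
      (1, 8, 11), (2, 3, 12), (2, 10, 12), (3, 4, 7), (3, 4, 14), (3, 5, 7), (3, 12, 13), (3, 13,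
      14), (4, 7, 15), (4, 14, 15), (5, 6, 7), (5, 6, 16), (5, 11, 16), (6, 7, 17), (6, 16, 17),
      (7, 15, 18), (7, 17, 18)]
    fin := [0, 0, 2, 2, 4, 2, 4, 4, 0, 9, 2, 2, 12, 13, 4, 15, 16, 17, 18]
    chd := [(2, 4), (2, 13), (4, 16), (4, 17), (4, 18)]
    steps := [(0, 1), (0, 8), (2, 3), (2, 5), (2, 10), (2, 11), (4, 7), (4, 6), (4, 14)] }
  rep := [2, 4, 0, 16, 17, 12, 15, 13, 18, 9]

noncomputable def v3501 : Cov.CovD where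
  P := 3
  N := 7
  pl := [0, 1, 4, 7]
  lev := [⟨[], [], [], [2, 9], [(2, 0, [1, 7])]⟩,
    ⟨[], [(0, 0)], [(0, 0)], [2], [(2, 0, [1, 7]), (3, 0, [1, 7])]⟩,
    ⟨[(0, 1)], [(0, 0), (1, 0)], [], [5], [(2, 0, [1, 7])]⟩,
    ⟨[(0, 1), (1, 2)], [(1, 0), (1, 1), (1, 7), (2, 0), (2, 1), (2, 7)], [(1, 7)], [5],
      [(5, 7, [0]), (6, 1, [0, 3, 4, 8])]⟩,
    ⟨[(1, 3), (2, 3)], [(3, 1), (3, 7)], [], [6], [(6, 1, [0, 3, 4, 8])]⟩,
    ⟨[(0, 1), (1, 2), (1, 3), (2, 3), (3, 4)], [(1, 0), (1, 3), (3, 0), (3, 1), (3, 3), (3,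
      7)], [(0, 3)], [], [(3, 0, [1, 7]), (8, 3, [1])]⟩,
    ⟨[(1, 5), (3, 5)], [(5, 0), (5, 3), (5, 4)], [(3, 4)], [], [(8, 3, [1]), (9, 4, [1])]⟩,
    ⟨[(1, 3), (1, 5), (2, 3), (3, 4), (3, 5), (3, 6), (4, 5), (4, 6), (5, 6)], [(3, 1), (3,
      4), (3, 7), (3, 8), (4, 1), (4, 4), (4, 8), (5, 0), (5, 3), (5, 4), (5, 8), (6, 3), (6,
      4), (6, 8)], [(4, 8)], [6], [(9, 4, [1]), (10, 8, [1])]⟩]
  Ta := [((2, 1), 0, 9), ((2, 4), 0, 5), ((3, 0), 0, 2), ((3, 8), 0, 3)]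
  Tb := [((0, 1, 3), 2, 9, 0), ((1, 0, 2), 9, 2, 0), ((2, 1, 4), 0, 9, 5), ((3, 0, 8), 0, 2, 3),
    ((4, 2, 5), 5, 0, 7), ((5, 4, 6), 7, 5, 1), ((6, 5, 7), 1, 7, 6), ((7, 6, 10), 6, 1, 8),
    ((8, 3, 9), 3, 0, 4), ((9, 8, 10), 4, 3, 8), ((10, 7, 9), 8, 6, 4)]
  Tc := [(0, 1, 7), (1, 0, 3), (1, 0, 4), (1, 0, 8), (1, 3, 4), (1, 3, 8), (1, 4, 8)]
  Td := [((0, 1), (2, 1), 9), ((0, 1), (2, 4), 5), ((0, 1), (3, 0), 2), ((0, 1), (3, 8), 3), ((0,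
    7), (2, 1), 9), ((0, 7), (2, 4), 5), ((0, 7), (3, 0), 2), ((0, 7), (3, 8), 3), ((1, 0),
    (6, 5), 7), ((1, 0), (6, 7), 6), ((1, 3), (6, 5), 7), ((1, 3), (6, 7), 6), ((1, 4), (6,
    5), 7), ((1, 4), (6, 7), 6), ((1, 8), (6, 5), 7), ((1, 8), (6, 7), 6), ((3, 1), (8, 3),
    0), ((3, 1), (8, 9), 4), ((4, 1), (9, 8), 3), ((4, 1), (9, 10), 8), ((7, 0), (5, 4), 5),
    ((7, 0), (5, 6), 1), ((8, 1), (10, 7), 6), ((8, 1), (10, 9), 4)]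
  G := [[0, 0x1111a1111aa441111611116681111c1111cc2ac1, 0,
    0x12222e31442182264156226e112322c3522ae18c224d821422921c28d2ac9ac22ae11222c3921c2645621124d2621225c2238d56222e152222e354214a82148acc,
    0x922225526c1211221622a5521e258c21e291285112112282269bc2124c28891ea12222e3141221421218c2124d2e8d62261222e15522127c2298592ca14a2182122c28423c5dcaa],
    [0, 0x1111a1111aa441111611116681111c1111cc2ac1,
    0x28da3a412d2722889162441146229c1a21225c9124481c221d63a2889121428212d6ec164e,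
    0x1221441221229a23c28223c2ec9229b23c28212d6ec1ac1,
    0x112481128229f2c2da225cc52692f6c692b225cc1e21]]

noncomputable def n3501 : Ent := ⟨e3501, noF, [], [], [(9, 15, [31810581956861085346069128449376638664080213418021345636276315565302915073, 0]), (9, 18, [30043303427623734937691929578474300150491519007939870628445900451935334401, 0]), (9, 17, [31810150492402119267275227079217218666319002904815489586567506653227958273, 0])]⟩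

def c3501 : PLift (Cov.check n3501.C.D v3501 = true) := ⟨by decide +kernel⟩

def b3501 : PLift (entF (fidx ts) 400 3501 n3501 = true) := ⟨by decide +kernel⟩

theorem g3501 : GoodF (fidx ts) 400 3501 := GoodF.ofV v3501 n3501 c3501.down b3501.down

/-- 47464846:2655/1 -/
noncomputable def e3502 : SCfg where
  D := {
    a := 8
    L := 10
    kp := 8
    inn := [(0, 1), (1, 0), (1, 2), (1, 3), (1, 5), (2, 1), (3, 1), (3, 4), (3, 5), (4, 3), (4, 5), (4,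
      7), (5, 1), (5, 3), (5, 4), (5, 6), (5, 7), (6, 5), (6, 7), (7, 4), (7, 5), (7, 6)]
    mix := [(0, 0), (0, 1), (0, 2), (1, 0), (1, 2), (1, 3), (2, 2), (2, 3), (2, 4), (3, 3), (3, 5), (3,
      6), (4, 6), (5, 0), (5, 7), (5, 8), (6, 7), (6, 9), (7, 4), (7, 6), (7, 9)]
    cl := [0, 7, 1, 0, 2, 8, 3, 4, 6, 5]
    chq := [(0, 1), (0, 3), (1, 0), (2, 4), (3, 0), (3, 4), (3, 6), (4, 2), (4, 3), (6, 3)]
    rng := [(0, 1), (0, 8), (1, 0), (1, 2), (2, 1), (2, 4), (3, 4), (3, 5), (4, 2), (4, 3), (4, 6), (4,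
      9), (5, 3), (5, 6), (6, 4), (6, 5), (7, 8), (7, 9), (8, 0), (8, 7), (9, 4), (9, 7)]
    lev := [] }
  links := [[1, 8, 9, 10], [8, 0, 10, 2, 11, 3, 5], [11, 1, 10, 12], [5, 1, 11, 13, 14, 4], [5, 3, 14,
    7], [8, 1, 3, 4, 7, 6, 15, 16], [15, 5, 7, 17], [17, 6, 5, 4, 14, 12]]
  P := {
    a := 8
    N := 18
    nb := [1794, 3373, 7170, 26674, 16552, 98778, 164000, 151664, 66083, 1281, 4615, 12302, 150660,
      18440, 12440, 196704, 33056, 37056]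
    tri := [(0, 1, 8), (0, 1, 10), (0, 8, 9), (0, 9, 10), (1, 2, 10), (1, 2, 11), (1, 3, 5), (1, 3,
      11), (1, 5, 8), (2, 10, 12), (2, 11, 12), (3, 4, 5), (3, 4, 14), (3, 11, 13), (3, 13, 14),
      (4, 5, 7), (4, 7, 14), (5, 6, 7), (5, 6, 15), (5, 8, 16), (5, 15, 16), (6, 7, 17), (6, 15,
      17), (7, 12, 14), (7, 12, 17)]
    fin := [0, 0, 0, 0, 4, 4, 6, 6, 0, 9, 10, 0, 6, 13, 4, 15, 16, 17]
    chd := [(0, 4), (0, 10), (4, 15), (4, 16), (6, 15)]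
    steps := [(0, 1), (0, 2), (0, 3), (0, 8), (0, 11), (4, 5), (4, 14), (6, 7), (6, 12)] }
  rep := [0, 10, 6, 4, 15, 17, 16, 9, 13]

noncomputable def v3502 : Cov.CovD where
  P := 3
  N := 6
  pl := [1, 5, 9]
  lev := [⟨[], [], [(0, 1)], [7], [(0, 0, [1, 3]), (2, 1, [0])]⟩,
    ⟨[], [(0, 0), (0, 1)], [(0, 0), (0, 1)], [], [(0, 0, [1, 3]), (2, 1, [0]), (3, 0, [1,
      3])]⟩,
    ⟨[(0, 1)], [(0, 1), (1, 0), (1, 1), (1, 2)], [(0, 1), (0, 2), (1, 2)], [], [(2, 1,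
      [0]), (3, 0, [1, 3]), (4, 2, [4])]⟩,
    ⟨[(0, 1), (1, 2)], [(1, 0), (1, 1), (1, 3), (2, 0)], [(0, 3)], [8], [(3, 0, [1, 3]),
      (6, 3, [0, 4, 6])]⟩,
    ⟨[(1, 3)], [(3, 0), (3, 3)], [], [], [(6, 3, [0, 4, 6])]⟩,
    ⟨[(0, 1), (1, 2), (1, 3), (1, 4), (3, 4)], [(0, 0), (1, 0), (1, 1), (1, 4), (1, 6), (3,
      0), (3, 3), (3, 4), (3, 6), (4, 0), (4, 3), (4, 4), (4, 6)], [(0, 4), (0, 6), (4, 6)],
      [], [(0, 0, [1, 3]), (7, 4, [2, 3]), (8, 6, [3])]⟩,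
    ⟨[(1, 5), (3, 5), (4, 5)], [(5, 0), (5, 4), (5, 6)], [], [5], [(7, 4, [2, 3])]⟩,
    ⟨[(1, 5), (3, 4), (3, 5), (4, 5), (4, 6), (5, 6)], [(2, 2), (3, 3), (4, 2), (4, 3), (5,
      0), (5, 2), (5, 3), (5, 4), (5, 6), (6, 2), (6, 3), (6, 4)], [(2, 3)], [5], [(4, 2,
      [4]), (6, 3, [0, 4, 6])]⟩]
  Ta := [((0, 1), 0, 7), ((0, 8), 0, 6), ((3, 4), 0, 2), ((3, 5), 0, 8)]
  Tb := [((0, 1, 8), 0, 7, 6), ((1, 0, 2), 7, 0, 1), ((2, 1, 4), 1, 7, 2), ((3, 4, 5), 0, 2, 8),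
    ((4, 2, 3), 2, 1, 0), ((4, 2, 6), 2, 1, 3), ((4, 2, 9), 2, 1, 5), ((4, 3, 6), 2, 0, 3),
    ((4, 3, 9), 2, 0, 5), ((4, 6, 9), 2, 3, 5), ((5, 3, 6), 8, 0, 3), ((6, 4, 5), 3, 2, 8),
    ((7, 8, 9), 4, 6, 5), ((8, 0, 7), 6, 0, 4), ((9, 4, 7), 5, 2, 4)]
  Tc := [(0, 1, 3), (3, 0, 4), (3, 0, 6), (3, 4, 6), (4, 2, 3)]
  Td := [((0, 1), (0, 1), 7), ((0, 1), (0, 8), 6), ((0, 1), (3, 4), 2), ((0, 1), (3, 5), 8), ((0,
    3), (0, 1), 7), ((0, 3), (0, 8), 6), ((0, 3), (3, 4), 2), ((0, 3), (3, 5), 8), ((1, 0),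
    (2, 1), 7), ((1, 0), (2, 4), 2), ((2, 4), (4, 2), 1), ((2, 4), (4, 3), 0), ((2, 4), (4,
    6), 3), ((2, 4), (4, 9), 5), ((3, 0), (6, 4), 2), ((3, 0), (6, 5), 8), ((3, 4), (6, 4),
    2), ((3, 4), (6, 5), 8), ((3, 6), (6, 4), 2), ((3, 6), (6, 5), 8), ((4, 2), (7, 8), 6),
    ((4, 2), (7, 9), 5), ((4, 3), (7, 8), 6), ((4, 3), (7, 9), 5), ((6, 3), (8, 0), 0), ((6,
    3), (8, 7), 4)]
  G := [[0, 0x591d214a186ca1421964214413196a418cc, 0,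
    0x92421c212c21252815a2bc4c212c21241352a9246b48c,
    0x8a2e142a2e18221b986631178ab8412a438149882e12145a159166878218212c8498cc], [0,
    0x51319aa181746148c132811547816c21c86, 0xa1c16161a1c1e161a1c1e1e481,
    0x9242d2819242e42c2a1d248cda1ac41, 0x916289bb463acb86a13ac82abc1e841]]

noncomputable def n3502 : Ent := ⟨e3502, noF, [], [], []⟩

def c3502 : PLift (Cov.check n3502.C.D v3502 = true) := ⟨by decide +kernel⟩

def b3502 : PLift (entF (fidx ts) 400 3502 n3502 = true) := ⟨by decide +kernel⟩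

theorem g3502 : GoodF (fidx ts) 400 3502 := GoodF.ofV v3502 n3502 c3502.down b3502.down

/-- 47464846:2655/2 -/
noncomputable def e3503 : SCfg where
  D := {
    a := 8
    L := 10
    kp := 8
    inn := [(0, 1), (1, 0), (1, 2), (1, 3), (1, 5), (2, 1), (3, 1), (3, 4), (3, 5), (4, 3), (4, 5), (4,
      7), (5, 1), (5, 3), (5, 4), (5, 6), (5, 7), (6, 5), (6, 7), (7, 4), (7, 5), (7, 6)]
    mix := [(0, 0), (0, 1), (0, 2), (1, 0), (1, 2), (1, 3), (2, 2), (2, 3), (2, 4), (3, 3), (3, 5), (3,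
      6), (4, 6), (5, 0), (5, 7), (5, 8), (6, 4), (6, 7), (7, 4), (7, 6), (7, 9)]
    cl := [0, 6, 2, 0, 3, 7, 1, 4, 5, 8]
    chq := [(0, 1), (0, 2), (1, 0), (1, 3), (1, 4), (1, 5), (2, 0), (3, 1), (4, 1), (5, 1)]
    rng := [(0, 1), (0, 8), (1, 0), (1, 2), (2, 1), (2, 4), (3, 4), (3, 5), (4, 2), (4, 3), (4, 7), (4,
      9), (5, 3), (5, 6), (6, 5), (6, 9), (7, 4), (7, 8), (8, 0), (8, 7), (9, 4), (9, 6)]
    lev := [] }
  links := [[1, 8, 9, 10], [8, 0, 10, 2, 11, 3, 5], [11, 1, 10, 12], [5, 1, 11, 13, 14, 4], [5, 3, 14,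
    7], [8, 1, 3, 4, 7, 6, 15, 16], [15, 5, 7, 12], [12, 6, 5, 4, 14, 17]]
  P := {
    a := 8
    N := 18
    nb := [1794, 3373, 7170, 26674, 16552, 98778, 37024, 151664, 66083, 1281, 4615, 12302, 167108,
      18440, 139416, 69728, 33056, 20608]
    tri := [(0, 1, 8), (0, 1, 10), (0, 8, 9), (0, 9, 10), (1, 2, 10), (1, 2, 11), (1, 3, 5), (1, 3,
      11), (1, 5, 8), (2, 10, 12), (2, 11, 12), (3, 4, 5), (3, 4, 14), (3, 11, 13), (3, 13, 14),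
      (4, 5, 7), (4, 7, 14), (5, 6, 7), (5, 6, 15), (5, 8, 16), (5, 15, 16), (6, 7, 12), (6, 12,
      15), (7, 12, 17), (7, 14, 17)]
    fin := [0, 0, 0, 0, 4, 4, 6, 6, 0, 9, 10, 0, 6, 13, 4, 15, 16, 17]
    chd := [(0, 4), (0, 10), (4, 15), (4, 16), (6, 4)]
    steps := [(0, 1), (0, 2), (0, 3), (0, 8), (0, 11), (4, 5), (4, 14), (6, 7), (6, 12)] }
  rep := [0, 4, 10, 6, 15, 16, 9, 13, 17]

noncomputable def v3503 : Cov.CovD where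
  P := 3
  N := 6
  pl := [1, 5, 9]
  lev := [⟨[], [], [(0, 2)], [6], [(0, 0, [1, 2]), (2, 2, [0])]⟩,
    ⟨[], [(0, 0), (0, 2)], [(0, 0), (0, 2)], [], [(0, 0, [1, 2]), (2, 2, [0]), (3, 0, [1,
      2])]⟩,
    ⟨[(0, 1)], [(0, 2), (1, 0), (1, 2), (1, 3)], [(0, 2), (0, 3), (2, 3)], [], [(2, 2,
      [0]), (3, 0, [1, 2]), (4, 3, [1])]⟩,
    ⟨[(0, 1), (1, 2)], [(1, 0), (1, 1), (1, 2), (2, 0)], [(0, 1)], [7], [(3, 0, [1, 2]),
      (6, 1, [0, 3, 4, 5])]⟩,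
    ⟨[(1, 3)], [(3, 0), (3, 1)], [], [], [(6, 1, [0, 3, 4, 5])]⟩,
    ⟨[(0, 1), (1, 2), (1, 3), (1, 4), (3, 4)], [(0, 0), (1, 0), (1, 2), (1, 4), (1, 5), (3,
      0), (3, 1), (3, 4), (3, 5), (4, 0), (4, 1), (4, 4), (4, 5)], [(0, 4), (0, 5), (4, 5)],
      [], [(0, 0, [1, 2]), (7, 4, [1]), (8, 5, [1])]⟩,
    ⟨[(1, 5), (3, 5), (4, 5)], [(2, 3), (5, 0), (5, 3), (5, 4), (5, 5)], [(3, 4)], [], [(4,
      3, [1]), (7, 4, [1])]⟩,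
    ⟨[(1, 5), (3, 4), (3, 5), (4, 5), (4, 6), (5, 6)], [(2, 3), (3, 1), (4, 1), (4, 3), (5,
      0), (5, 1), (5, 3), (5, 4), (5, 5), (6, 1), (6, 3), (6, 4)], [(1, 3)], [8], [(4, 3,
      [1]), (6, 1, [0, 3, 4, 5])]⟩]
  Ta := [((0, 1), 0, 6), ((0, 8), 0, 5), ((3, 4), 0, 3), ((3, 5), 0, 7)]
  Tb := [((0, 1, 8), 0, 6, 5), ((1, 0, 2), 6, 0, 2), ((2, 1, 4), 2, 6, 3), ((3, 4, 5), 0, 3, 7),
    ((4, 2, 3), 3, 2, 0), ((4, 2, 7), 3, 2, 4), ((4, 2, 9), 3, 2, 8), ((4, 3, 7), 3, 0, 4),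
    ((4, 3, 9), 3, 0, 8), ((4, 7, 9), 3, 4, 8), ((5, 3, 6), 7, 0, 1), ((6, 5, 9), 1, 7, 8),
    ((7, 4, 8), 4, 3, 5), ((8, 0, 7), 5, 0, 4), ((9, 4, 6), 8, 3, 1)]
  Tc := [(0, 1, 2), (1, 0, 3), (1, 0, 4), (1, 0, 5), (1, 3, 4), (1, 3, 5), (1, 4, 5)]
  Td := [((0, 1), (0, 1), 6), ((0, 1), (0, 8), 5), ((0, 1), (3, 4), 3), ((0, 1), (3, 5), 7), ((0,
    2), (0, 1), 6), ((0, 2), (0, 8), 5), ((0, 2), (3, 4), 3), ((0, 2), (3, 5), 7), ((1, 0),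
    (6, 5), 7), ((1, 0), (6, 9), 8), ((1, 3), (6, 5), 7), ((1, 3), (6, 9), 8), ((1, 4), (6,
    5), 7), ((1, 4), (6, 9), 8), ((1, 5), (6, 5), 7), ((1, 5), (6, 9), 8), ((2, 0), (2, 1),
    6), ((2, 0), (2, 4), 3), ((3, 1), (4, 2), 2), ((3, 1), (4, 3), 0), ((3, 1), (4, 7), 4),
    ((3, 1), (4, 9), 8), ((4, 1), (7, 4), 3), ((4, 1), (7, 8), 5), ((5, 1), (8, 0), 0), ((5,
    1), (8, 7), 4)]
  G := [[0, 0x14424141a461a1e1e11c32188a1698a145e1c1, 0x5429d92c12424914dfa41286,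
    0x9992414421552c1c4999241555281c8c, 0x5d52982c1282859d768128a], [0,
    0x14424141a411a2a1491162e18a61a1c1e188ae1c1, 0x42914dfa412415dd2882c128a,
    0xd532244544529152cc4d9924589b22889c8c1, 0x112ddcd254ddd2982cc281]]

noncomputable def n3503 : Ent := ⟨e3503, noF, [], [], []⟩

def c3503 : PLift (Cov.check n3503.C.D v3503 = true) := ⟨by decide +kernel⟩

def b3503 : PLift (entF (fidx ts) 400 3503 n3503 = true) := ⟨by decide +kernel⟩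

theorem g3503 : GoodF (fidx ts) 400 3503 := GoodF.ofV v3503 n3503 c3503.down b3503.down

/-- 47464846:2655 -/
noncomputable def e3504 : SCfg where
  D := {
    a := 8
    L := 11
    kp := 9
    inn := [(0, 1), (1, 0), (1, 2), (1, 3), (1, 5), (2, 1), (3, 1), (3, 4), (3, 5), (4, 3), (4, 5), (4,
      7), (5, 1), (5, 3), (5, 4), (5, 6), (5, 7), (6, 5), (6, 7), (7, 4), (7, 5), (7, 6)]
    mix := [(0, 0), (0, 1), (0, 2), (1, 0), (1, 2), (1, 3), (2, 2), (2, 3), (2, 4), (3, 3), (3, 5), (3,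
      6), (4, 6), (5, 0), (5, 7), (5, 8), (6, 7), (6, 9), (7, 6), (7, 9), (7, 10)]
    cl := [0, 6, 2, 0, 7, 8, 1, 3, 5, 4, 9]
    chq := [(0, 1), (0, 2), (1, 0), (1, 3), (1, 4), (1, 5), (2, 0), (3, 1), (4, 1), (5, 1)]
    rng := [(0, 1), (0, 8), (1, 0), (1, 2), (2, 1), (2, 4), (3, 4), (3, 5), (4, 2), (4, 3), (5, 3), (5,
      6), (6, 5), (6, 10), (7, 8), (7, 9), (8, 0), (8, 7), (9, 7), (9, 10), (10, 6), (10, 9)]
    lev := [] }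
  links := [[1, 8, 9, 10], [8, 0, 10, 2, 11, 3, 5], [11, 1, 10, 12], [5, 1, 11, 13, 14, 4], [5, 3, 14,
    7], [8, 1, 3, 4, 7, 6, 15, 16], [15, 5, 7, 17], [17, 6, 5, 4, 14, 18]]
  P := {
    a := 8
    N := 19
    nb := [1794, 3373, 7170, 26674, 16552, 98778, 164000, 409712, 66083, 1281, 4615, 12302, 3076,
      18440, 270488, 196704, 33056, 295104, 147584]
    tri := [(0, 1, 8), (0, 1, 10), (0, 8, 9), (0, 9, 10), (1, 2, 10), (1, 2, 11), (1, 3, 5), (1, 3,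
      11), (1, 5, 8), (2, 10, 12), (2, 11, 12), (3, 4, 5), (3, 4, 14), (3, 11, 13), (3, 13, 14),
      (4, 5, 7), (4, 7, 14), (5, 6, 7), (5, 6, 15), (5, 8, 16), (5, 15, 16), (6, 7, 17), (6, 15,
      17), (7, 14, 18), (7, 17, 18)]
    fin := [0, 0, 0, 0, 0, 5, 5, 5, 0, 9, 10, 0, 12, 13, 5, 15, 16, 17, 18]
    chd := [(0, 5), (0, 10), (5, 15), (5, 16), (5, 17)]
    steps := [(0, 1), (0, 2), (0, 3), (0, 4), (0, 8), (0, 11), (5, 6), (5, 7), (5, 14)] }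
  rep := [0, 5, 10, 15, 17, 16, 9, 12, 13, 18]

noncomputable def v3504 : Cov.CovD where
  P := 3
  N := 7
  pl := [1, 4, 5, 10]
  lev := [⟨[], [], [(0, 2)], [6], [(0, 0, [1, 2]), (2, 2, [0])]⟩,
    ⟨[], [(0, 0), (0, 2)], [(0, 0), (0, 2)], [], [(0, 0, [1, 2]), (2, 2, [0]), (3, 0, [1,
      2])]⟩,
    ⟨[(0, 1)], [(0, 2), (1, 0), (1, 2)], [(0, 2)], [7], [(2, 2, [0]), (3, 0, [1, 2])]⟩,
    ⟨[(0, 1), (1, 2)], [(1, 0), (1, 1), (1, 2), (2, 0)], [(0, 1)], [8], [(3, 0, [1, 2]),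
      (6, 1, [0, 3, 4, 5])]⟩,
    ⟨[(1, 3)], [(3, 0), (3, 1)], [], [], [(6, 1, [0, 3, 4, 5])]⟩,
    ⟨[(0, 1), (1, 2), (1, 3), (1, 4), (3, 4)], [(0, 0), (1, 0), (1, 2), (1, 3), (1, 5), (3,
      0), (3, 1), (3, 3), (3, 5), (4, 0), (4, 1), (4, 3), (4, 5)], [(0, 3), (0, 5), (3, 5)],
      [], [(0, 0, [1, 2]), (7, 3, [1]), (8, 5, [1])]⟩,
    ⟨[(1, 5), (3, 5), (4, 5)], [(5, 0), (5, 3), (5, 4), (5, 5)], [(3, 4)], [], [(7, 3,
      [1]), (9, 4, [1])]⟩,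
    ⟨[(1, 5), (3, 4), (3, 5), (4, 5), (4, 6), (5, 6)], [(3, 1), (4, 1), (4, 4), (5, 0), (5,
      1), (5, 3), (5, 4), (5, 5), (6, 1), (6, 3), (6, 4)], [(1, 4)], [9], [(6, 1, [0, 3, 4,
      5]), (9, 4, [1])]⟩]
  Ta := [((0, 1), 0, 6), ((0, 8), 0, 5), ((3, 4), 0, 7), ((3, 5), 0, 8)]
  Tb := [((0, 1, 8), 0, 6, 5), ((1, 0, 2), 6, 0, 2), ((2, 1, 4), 2, 6, 7), ((3, 4, 5), 0, 7, 8),
    ((4, 2, 3), 7, 2, 0), ((5, 3, 6), 8, 0, 1), ((6, 5, 10), 1, 8, 9), ((7, 8, 9), 3, 5, 4),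
    ((8, 0, 7), 5, 0, 3), ((9, 7, 10), 4, 3, 9), ((10, 6, 9), 9, 1, 4)]
  Tc := [(0, 1, 2), (1, 0, 3), (1, 0, 4), (1, 0, 5), (1, 3, 4), (1, 3, 5), (1, 4, 5)]
  Td := [((0, 1), (0, 1), 6), ((0, 1), (0, 8), 5), ((0, 1), (3, 4), 7), ((0, 1), (3, 5), 8), ((0,
    2), (0, 1), 6), ((0, 2), (0, 8), 5), ((0, 2), (3, 4), 7), ((0, 2), (3, 5), 8), ((1, 0),
    (6, 5), 8), ((1, 0), (6, 10), 9), ((1, 3), (6, 5), 8), ((1, 3), (6, 10), 9), ((1, 4), (6,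
    5), 8), ((1, 4), (6, 10), 9), ((1, 5), (6, 5), 8), ((1, 5), (6, 10), 9), ((2, 0), (2, 1),
    6), ((2, 0), (2, 4), 7), ((3, 1), (7, 8), 5), ((3, 1), (7, 9), 4), ((4, 1), (9, 7), 3),
    ((4, 1), (9, 10), 9), ((5, 1), (8, 0), 0), ((5, 1), (8, 7), 3)]
  G := [[0, 0x14421a548a1a1e1611c321698a16984e1c1,
    0x5ddd2818824168882415ddd28168245ddb6882c188e,
    0xd42dd92c152cd97a828a1c4d42dd92c1244dddb2c1c8c,
    0xdd52d82c12d244dd6d288cac18a5ddd2882c1dd52d82c1a8a], [0,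
    0x1a54e12318542a12121698ae121c1e161c1, 0x442d9dd2c1845ddd2882c128d42dd92c144e,
    0x21ccdea1d24864555282d8a6921dd97a2889ccd5b248cc1,
    0xc214882c214882912dd4d294112ddcd25112ddcd29ca5245282819ec88ab]]

noncomputable def n3504 : Ent := ⟨e3504, noF, [], [], [(12, 18, [30043303427623734937691929578474300150491519007939870628445900451935346689, 0]), (12, 17, [31810150492402119267275227079217218666319002904815489586567506653227970561, 0])]⟩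

def c3504 : PLift (Cov.check n3504.C.D v3504 = true) := ⟨by decide +kernel⟩

def b3504 : PLift (entF (fidx ts) 400 3504 n3504 = true) := ⟨by decide +kernel⟩

theorem g3504 : GoodF (fidx ts) 400 3504 := GoodF.ofV v3504 n3504 c3504.down b3504.down

/-- 46746484:2664/1 -/
noncomputable def e3505 : SCfg where
  D := {
    a := 8
    L := 10
    kp := 8
    inn := [(0, 1), (0, 2), (0, 6), (1, 0), (1, 3), (1, 5), (1, 6), (2, 0), (2, 4), (2, 6), (3, 1), (4,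
      2), (4, 6), (4, 7), (5, 1), (5, 6), (6, 0), (6, 1), (6, 2), (6, 4), (6, 5), (7, 4)]
    mix := [(0, 0), (1, 0), (1, 1), (2, 0), (2, 2), (2, 3), (2, 4), (3, 0), (3, 1), (3, 5), (4, 2), (4,
      6), (4, 7), (5, 1), (5, 8), (6, 6), (6, 8), (6, 9), (7, 5), (7, 6), (7, 7)]
    cl := [0, 4, 3, 6, 7, 2, 3, 5, 1, 8]
    chq := [(0, 1), (0, 4), (1, 0), (1, 3), (1, 6), (1, 7), (3, 1), (4, 0), (6, 1), (7, 1)]
    rng := [(0, 4), (0, 5), (1, 5), (1, 8), (2, 3), (2, 7), (3, 2), (3, 4), (4, 0), (4, 3), (5, 0), (5,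
      1), (5, 6), (5, 7), (6, 5), (6, 9), (7, 2), (7, 5), (8, 1), (8, 9), (9, 6), (9, 8)]
    lev := [] }
  links := [[1, 6, 2, 8], [6, 0, 8, 3, 9, 5], [8, 0, 6, 4, 10, 11, 12], [9, 1, 8, 13], [10, 2, 6, 14, 7,
    15], [6, 1, 9, 16], [14, 4, 2, 0, 1, 5, 16, 17], [15, 4, 14, 13]]
  P := {
    a := 8
    N := 18
    nb := [326, 873, 7505, 8962, 50372, 66114, 213047, 57360, 12303, 73770, 34836, 5124, 2308, 50056,
      139472, 9360, 131680, 81984]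
    tri := [(0, 1, 6), (0, 1, 8), (0, 2, 6), (0, 2, 8), (1, 3, 8), (1, 3, 9), (1, 5, 6), (1, 5, 9), (2,
      4, 6), (2, 4, 10), (2, 8, 12), (2, 10, 11), (2, 11, 12), (3, 8, 13), (3, 9, 13), (4, 6, 14),
      (4, 7, 14), (4, 7, 15), (4, 10, 15), (5, 6, 16), (5, 9, 16), (6, 14, 17), (6, 16, 17), (7,
      13, 14), (7, 13, 15)]
    fin := [0, 0, 2, 0, 4, 0, 2, 7, 0, 9, 4, 11, 12, 7, 4, 15, 2, 17]
    chd := [(0, 2), (0, 9), (4, 2), (11, 2), (12, 2)]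
    steps := [(0, 1), (0, 3), (0, 5), (0, 8), (2, 6), (2, 16), (4, 14), (4, 10), (7, 13)] }
  rep := [0, 2, 7, 4, 9, 15, 11, 12, 17]

noncomputable def v3505 : Cov.CovD where
  P := 3
  N := 6
  pl := [5, 7, 9]
  lev := [⟨[], [], [], [], [(0, 0, [1, 4])]⟩,
    ⟨[], [(0, 0), (0, 4)], [(0, 4)], [], [(0, 0, [1, 4]), (1, 4, [0])]⟩,
    ⟨[(0, 1)], [(0, 0), (0, 3), (0, 6), (0, 7), (1, 0)], [(0, 3), (0, 6), (0, 7), (3, 6),
      (3, 7), (6, 7)], [], [(0, 0, [1, 4]), (2, 3, [1]), (3, 6, [1]), (4, 7, [1])]⟩,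
    ⟨[(0, 1)], [(0, 0), (1, 0), (1, 4), (2, 0)], [(0, 4)], [2], [(0, 0, [1, 4]), (1, 4,
      [0])]⟩,
    ⟨[(0, 2)], [(2, 0), (2, 3), (2, 6), (2, 7)], [(3, 3)], [5], [(2, 3, [1]), (6, 3, [1])]⟩,
    ⟨[(0, 1), (1, 3)], [(1, 0), (1, 1), (1, 4), (3, 4)], [(1, 4)], [], [(1, 4, [0]), (8, 1,
      [0, 3, 6, 7])]⟩,
    ⟨[(0, 1), (0, 2), (0, 4), (0, 5), (1, 2), (1, 3), (1, 4), (1, 5), (2, 4), (2, 5), (4,
      5)], [(0, 0), (0, 1), (0, 3), (1, 0), (1, 1), (1, 3), (1, 4), (2, 0), (2, 1), (2, 3),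
      (2, 6), (2, 7), (4, 1), (4, 3), (5, 1), (5, 3), (5, 4)], [(1, 3)], [8], [(6, 3, [1]),
      (8, 1, [0, 3, 6, 7])]⟩,
    ⟨[(2, 4), (4, 6)], [(4, 3), (6, 3)], [], [2, 5], [(6, 3, [1])]⟩]
  Ta := [((2, 3), 3, 6), ((2, 7), 3, 5), ((6, 5), 3, 2), ((6, 9), 3, 8)]
  Tb := [((0, 4, 5), 0, 7, 2), ((1, 5, 8), 4, 2, 1), ((2, 3, 7), 3, 6, 5), ((3, 2, 4), 6, 3, 7),
    ((4, 0, 3), 7, 0, 6), ((5, 0, 1), 2, 0, 4), ((5, 0, 6), 2, 0, 3), ((5, 0, 7), 2, 0, 5),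
    ((5, 1, 6), 2, 4, 3), ((5, 1, 7), 2, 4, 5), ((5, 6, 7), 2, 3, 5), ((6, 5, 9), 3, 2, 8),
    ((7, 2, 5), 5, 3, 2), ((8, 1, 9), 1, 4, 8), ((9, 6, 8), 8, 3, 1)]
  Tc := [(0, 1, 4), (1, 0, 3), (1, 0, 6), (1, 0, 7), (1, 3, 6), (1, 3, 7), (1, 6, 7)]
  Td := [((0, 1), (0, 4), 7), ((0, 1), (0, 5), 2), ((0, 4), (0, 4), 7), ((0, 4), (0, 5), 2), ((1,
    0), (8, 1), 4), ((1, 0), (8, 9), 8), ((1, 3), (8, 1), 4), ((1, 3), (8, 9), 8), ((1, 6),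
    (8, 1), 4), ((1, 6), (8, 9), 8), ((1, 7), (8, 1), 4), ((1, 7), (8, 9), 8), ((3, 1), (2,
    3), 6), ((3, 1), (2, 7), 5), ((3, 1), (6, 5), 2), ((3, 1), (6, 9), 8), ((4, 0), (1, 5),
    2), ((4, 0), (1, 8), 1), ((6, 1), (3, 2), 3), ((6, 1), (3, 4), 7), ((7, 1), (4, 0), 0),
    ((7, 1), (4, 3), 6)]
  G := [[0, 0x841141a814811816414811816841141ac1e2, 0x4118121a4d5222616891424a,
    0x814894148941189d489444941494dc224, 0xa148184514178281845212138d281d22a4], [0,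
    0x541242199a16c1812412111e1b1812412112e166112412912e182c, 0x4116415aa941c2a1e1a6cd122a4,
    0x4158892841d12c42841d128194452c88584498841d811c1f88514491841d111c1fca2c,
    0x235142222891a3981298d82289845a812111c5d226844241144d828e]]

noncomputable def n3505 : Ent := ⟨e3505, noF, [], [], []⟩

def c3505 : PLift (Cov.check n3505.C.D v3505 = true) := ⟨by decide +kernel⟩

def b3505 : PLift (entF (fidx ts) 400 3505 n3505 = true) := ⟨by decide +kernel⟩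

theorem g3505 : GoodF (fidx ts) 400 3505 := GoodF.ofV v3505 n3505 c3505.down b3505.down

/-- 46746484:2664/2 -/
noncomputable def e3506 : SCfg where
  D := {
    a := 8
    L := 10
    kp := 8
    inn := [(0, 1), (0, 2), (0, 6), (1, 0), (1, 3), (1, 5), (1, 6), (2, 0), (2, 4), (2, 6), (3, 1), (4,
      2), (4, 6), (4, 7), (5, 1), (5, 6), (6, 0), (6, 1), (6, 2), (6, 4), (6, 5), (7, 4)]
    mix := [(0, 0), (1, 0), (1, 1), (2, 0), (2, 2), (2, 3), (2, 4), (3, 0), (3, 1), (3, 4), (4, 2), (4,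
      5), (4, 6), (5, 1), (5, 7), (6, 5), (6, 7), (6, 8), (7, 5), (7, 6), (7, 9)]
    cl := [3, 1, 0, 6, 4, 0, 5, 2, 7, 8]
    chq := [(0, 2), (1, 3), (2, 0), (2, 3), (2, 4), (2, 6), (3, 1), (3, 2), (4, 2), (6, 2)]
    rng := [(0, 4), (1, 4), (1, 7), (2, 3), (2, 6), (3, 2), (3, 4), (4, 0), (4, 1), (4, 3), (5, 8), (5,
      9), (6, 2), (6, 9), (7, 1), (7, 8), (8, 5), (8, 7), (9, 5), (9, 6)]
    lev := [] }
  links := [[1, 6, 2, 8], [6, 0, 8, 3, 9, 5], [8, 0, 6, 4, 10, 11, 12], [9, 1, 8, 12], [10, 2, 6, 13, 7,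
    14], [6, 1, 9, 15], [13, 4, 2, 0, 1, 5, 15, 16], [14, 4, 13, 17]]
  P := {
    a := 8
    N := 18
    nb := [326, 873, 7505, 4866, 25796, 33346, 106551, 155664, 4111, 36906, 18452, 5124, 2828, 196816,
      132240, 66144, 41024, 24704]
    tri := [(0, 1, 6), (0, 1, 8), (0, 2, 6), (0, 2, 8), (1, 3, 8), (1, 3, 9), (1, 5, 6), (1, 5, 9), (2,
      4, 6), (2, 4, 10), (2, 8, 12), (2, 10, 11), (2, 11, 12), (3, 8, 12), (3, 9, 12), (4, 6, 13),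
      (4, 7, 13), (4, 7, 14), (4, 10, 14), (5, 6, 15), (5, 9, 15), (6, 13, 16), (6, 15, 16), (7,
      13, 17), (7, 14, 17)]
    fin := [0, 0, 2, 0, 4, 0, 2, 4, 0, 9, 4, 11, 12, 4, 14, 2, 16, 17]
    chd := [(0, 2), (0, 9), (4, 2), (11, 2), (12, 2)]
    steps := [(0, 1), (0, 3), (0, 5), (0, 8), (2, 6), (2, 15), (4, 7), (4, 13), (4, 10)] }
  rep := [4, 9, 2, 0, 12, 14, 11, 16, 17]

noncomputable def v3506 : Cov.CovD where
  P := 3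
  N := 6
  pl := [6, 8, 9]
  lev := [⟨[], [], [], [], [(0, 3, [1, 2])]⟩,
    ⟨[], [(0, 1), (0, 3)], [(1, 3)], [], [(0, 3, [1, 2]), (1, 1, [3])]⟩,
    ⟨[(0, 1)], [(0, 0), (0, 3), (0, 4), (0, 6), (1, 3)], [(0, 3), (0, 4), (0, 6), (3, 4),
      (3, 6), (4, 6)], [], [(0, 3, [1, 2]), (2, 0, [2]), (3, 6, [2]), (4, 4, [2])]⟩,
    ⟨[(0, 1)], [(0, 3), (1, 1), (1, 3), (1, 4), (2, 3), (2, 4)], [(1, 3), (1, 4), (3, 4)],
      [], [(0, 3, [1, 2]), (1, 1, [3]), (4, 4, [2])]⟩,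
    ⟨[(0, 2)], [(2, 0), (2, 3), (2, 4), (2, 6)], [(0, 0)], [5], [(2, 0, [2]), (5, 0, [2])]⟩,
    ⟨[(0, 1), (1, 3)], [(1, 1), (1, 2), (1, 3), (3, 1)], [(1, 2)], [], [(1, 1, [3]), (7, 2,
      [0, 3, 4, 6])]⟩,
    ⟨[(0, 1), (0, 2), (0, 4), (0, 5), (1, 2), (1, 3), (1, 4), (1, 5), (2, 4), (2, 5), (4,
      5)], [(0, 0), (0, 2), (0, 3), (1, 0), (1, 1), (1, 2), (1, 3), (2, 0), (2, 2), (2, 3),
      (2, 4), (2, 6), (4, 0), (4, 2), (5, 0), (5, 1), (5, 2)], [(0, 2)], [7], [(5, 0, [2]),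
      (7, 2, [0, 3, 4, 6])]⟩,
    ⟨[(2, 4), (4, 6)], [(4, 0), (6, 0)], [], [5, 8], [(5, 0, [2])]⟩]
  Ta := [((2, 3), 0, 6), ((2, 6), 0, 5), ((5, 8), 0, 7), ((5, 9), 0, 8)]
  Tb := [((1, 4, 7), 1, 4, 2), ((2, 3, 6), 0, 6, 5), ((3, 2, 4), 6, 0, 4), ((4, 0, 1), 4, 3, 1),
    ((4, 0, 3), 4, 3, 6), ((4, 1, 3), 4, 1, 6), ((5, 8, 9), 0, 7, 8), ((6, 2, 9), 5, 0, 8),
    ((7, 1, 8), 2, 1, 7), ((8, 5, 7), 7, 0, 2), ((9, 5, 6), 8, 0, 5)]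
  Tc := [(2, 0, 3), (2, 0, 4), (2, 0, 6), (2, 3, 4), (2, 3, 6), (2, 4, 6), (3, 1, 2)]
  Td := [((0, 2), (2, 3), 6), ((0, 2), (2, 6), 5), ((0, 2), (5, 8), 7), ((0, 2), (5, 9), 8), ((1,
    3), (1, 4), 4), ((1, 3), (1, 7), 2), ((2, 0), (7, 1), 1), ((2, 0), (7, 8), 7), ((2, 3),
    (7, 1), 1), ((2, 3), (7, 8), 7), ((2, 4), (7, 1), 1), ((2, 4), (7, 8), 7), ((2, 6), (7,
    1), 1), ((2, 6), (7, 8), 7), ((3, 1), (0, 4), 4), ((3, 2), (0, 4), 4), ((4, 2), (4, 0),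
    3), ((4, 2), (4, 1), 1), ((4, 2), (4, 3), 6), ((6, 2), (3, 2), 0), ((6, 2), (3, 4), 4)]
  G := [[0, 0xa14612c42a18618c82aa18618c82a18614c42615c434d8cc222d, 0x11c411c4a1112,
    0xa14614c82a18618c4251c43bc8c12d2, 0xc14614ac18618a94c18618ac18618a54c2], [0,
    0xa24624c218a28628c214c448c824c2a6c428a6c824e428ce2c884c4e2ead, 0x11c411c4a1112,
    0xe41241444e42e814488968812c2ce41241c822848281e88cc24cc4884e6c4e11d284e8884c4ee4824884c8ec21b,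
    0x42124621446e21228c449448e48a4a48684c4a88a1484ea182a1e81e4cc48648a11d4282482a84461b]]

noncomputable def n3506 : Ent := ⟨e3506, noF, [], [], []⟩

def c3506 : PLift (Cov.check n3506.C.D v3506 = true) := ⟨by decide +kernel⟩

def b3506 : PLift (entF (fidx ts) 400 3506 n3506 = true) := ⟨by decide +kernel⟩

theorem g3506 : GoodF (fidx ts) 400 3506 := GoodF.ofV v3506 n3506 c3506.down b3506.down

/-- 46746484:2664 -/
noncomputable def e3507 : SCfg where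
  D := {
    a := 8
    L := 11
    kp := 9
    inn := [(0, 1), (0, 2), (0, 6), (1, 0), (1, 3), (1, 5), (1, 6), (2, 0), (2, 4), (2, 6), (3, 1), (4,
      2), (4, 6), (4, 7), (5, 1), (5, 6), (6, 0), (6, 1), (6, 2), (6, 4), (6, 5), (7, 4)]
    mix := [(0, 0), (1, 0), (1, 1), (2, 0), (2, 2), (2, 3), (2, 4), (3, 0), (3, 1), (3, 5), (4, 2), (4,
      6), (4, 7), (5, 1), (5, 8), (6, 6), (6, 8), (6, 9), (7, 6), (7, 7), (7, 10)]
    cl := [0, 1, 3, 5, 6, 7, 3, 4, 2, 8, 9]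
    chq := [(0, 1), (0, 2), (1, 0), (2, 0), (2, 3), (2, 5), (2, 6), (3, 2), (5, 2), (6, 2)]
    rng := [(0, 4), (0, 5), (1, 5), (1, 8), (2, 3), (2, 7), (3, 2), (3, 4), (4, 0), (4, 3), (5, 0), (5,
      1), (6, 9), (6, 10), (7, 2), (7, 10), (8, 1), (8, 9), (9, 6), (9, 8), (10, 6), (10, 7)]
    lev := [] }
  links := [[1, 6, 2, 8], [6, 0, 8, 3, 9, 5], [8, 0, 6, 4, 10, 11, 12], [9, 1, 8, 13], [10, 2, 6, 14, 7,
    15], [6, 1, 9, 16], [14, 4, 2, 0, 1, 5, 16, 17], [15, 4, 14, 18]]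
  P := {
    a := 8
    N := 19
    nb := [326, 873, 7505, 8962, 50372, 66114, 213047, 311312, 12303, 73770, 34836, 5124, 2308, 776,
      393424, 263312, 131680, 81984, 49280]
    tri := [(0, 1, 6), (0, 1, 8), (0, 2, 6), (0, 2, 8), (1, 3, 8), (1, 3, 9), (1, 5, 6), (1, 5, 9), (2,
      4, 6), (2, 4, 10), (2, 8, 12), (2, 10, 11), (2, 11, 12), (3, 8, 13), (3, 9, 13), (4, 6, 14),
      (4, 7, 14), (4, 7, 15), (4, 10, 15), (5, 6, 16), (5, 9, 16), (6, 14, 17), (6, 16, 17), (7,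
      14, 18), (7, 15, 18)]
    fin := [0, 0, 2, 0, 4, 0, 2, 4, 0, 9, 4, 11, 12, 13, 4, 15, 2, 17, 18]
    chd := [(0, 2), (0, 9), (4, 2), (11, 2), (12, 2)]
    steps := [(0, 1), (0, 3), (0, 5), (0, 8), (2, 6), (2, 16), (4, 7), (4, 14), (4, 10)] }
  rep := [0, 9, 2, 4, 15, 11, 12, 13, 17, 18]

noncomputable def v3507 : Cov.CovD where
  P := 3
  N := 7
  pl := [5, 7, 9, 10]
  lev := [⟨[], [], [], [], [(0, 0, [1, 2])]⟩,
    ⟨[], [(0, 0), (0, 1)], [(0, 1)], [], [(0, 0, [1, 2]), (1, 1, [0])]⟩,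
    ⟨[(0, 1)], [(0, 0), (0, 3), (0, 5), (0, 6), (1, 0)], [(0, 3), (0, 5), (0, 6), (3, 5),
      (3, 6), (5, 6)], [], [(0, 0, [1, 2]), (2, 3, [2]), (3, 5, [2]), (4, 6, [2])]⟩,
    ⟨[(0, 1)], [(0, 0), (1, 0), (1, 1), (2, 0)], [(0, 1)], [7], [(0, 0, [1, 2]), (1, 1,
      [0])]⟩,
    ⟨[(0, 2)], [(2, 0), (2, 3), (2, 5), (2, 6)], [(3, 3)], [4], [(2, 3, [2]), (6, 3, [2])]⟩,
    ⟨[(0, 1), (1, 3)], [(1, 0), (1, 1), (1, 2), (3, 1)], [(1, 2)], [], [(1, 1, [0]), (8, 2,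
      [0, 3, 5, 6])]⟩,
    ⟨[(0, 1), (0, 2), (0, 4), (0, 5), (1, 2), (1, 3), (1, 4), (1, 5), (2, 4), (2, 5), (4,
      5)], [(0, 0), (0, 2), (0, 3), (1, 0), (1, 1), (1, 2), (1, 3), (2, 0), (2, 2), (2, 3),
      (2, 5), (2, 6), (4, 2), (4, 3), (5, 1), (5, 2), (5, 3)], [(2, 3)], [8], [(6, 3, [2]),
      (8, 2, [0, 3, 5, 6])]⟩,
    ⟨[(2, 4), (4, 6)], [(4, 3), (6, 3)], [], [4, 9], [(6, 3, [2])]⟩]
  Ta := [((2, 3), 3, 5), ((2, 7), 3, 4), ((6, 9), 3, 8), ((6, 10), 3, 9)]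
  Tb := [((0, 4, 5), 0, 6, 7), ((1, 5, 8), 1, 7, 2), ((2, 3, 7), 3, 5, 4), ((3, 2, 4), 5, 3, 6),
    ((4, 0, 3), 6, 0, 5), ((5, 0, 1), 7, 0, 1), ((6, 9, 10), 3, 8, 9), ((7, 2, 10), 4, 3, 9),
    ((8, 1, 9), 2, 1, 8), ((9, 6, 8), 8, 3, 2), ((10, 6, 7), 9, 3, 4)]
  Tc := [(0, 1, 2), (2, 0, 3), (2, 0, 5), (2, 0, 6), (2, 3, 5), (2, 3, 6), (2, 5, 6)]
  Td := [((0, 1), (0, 4), 6), ((0, 1), (0, 5), 7), ((0, 2), (0, 4), 6), ((0, 2), (0, 5), 7), ((1,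
    0), (1, 5), 7), ((1, 0), (1, 8), 2), ((2, 0), (8, 1), 1), ((2, 0), (8, 9), 8), ((2, 3),
    (8, 1), 1), ((2, 3), (8, 9), 8), ((2, 5), (8, 1), 1), ((2, 5), (8, 9), 8), ((2, 6), (8,
    1), 1), ((2, 6), (8, 9), 8), ((3, 2), (2, 3), 5), ((3, 2), (2, 7), 4), ((3, 2), (6, 9),
    8), ((3, 2), (6, 10), 9), ((5, 2), (3, 2), 3), ((5, 2), (3, 4), 6), ((6, 2), (4, 0), 0),
    ((6, 2), (4, 3), 5)]
  G := [[0, 0xaa58618c94138585c22a148968141389d224c, 0x9961528453861e4189248955a134a1e814c,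
    0xa1a456184581345daa58618453858dc282, 0xcc38863881529bcc3886385838bc448], [0,
    0xe442414417254fe44241441741f6244819c21184c92a4a4281188964281188a6ab1289e79811889b81fb1289e7988198b298faa4c,
    0xd141147144461f148118d14b14841f148111b18718118222e1f1e88a1118cc,
    0x4412648c1588cac28191282c712454a4e79cb72d45c22ebd1e84b29745d2b918c2c6,
    0xd11213889473e8941d7a9fed3821388971e4a9743d89fc821b14821b14c641182a94821b14c4ea184818cc4a]]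

noncomputable def n3507 : Ent := ⟨e3507, noF, [], [], [(13, 18, [30043303427623734937691929578474300150491519007939870628445900451935358977, 0]), (13, 12, [31810581956886802633411503221331962751705442254478426170151023836885884929, 0])]⟩

def c3507 : PLift (Cov.check n3507.C.D v3507 = true) := ⟨by decide +kernel⟩

def b3507 : PLift (entF (fidx ts) 400 3507 n3507 = true) := ⟨by decide +kernel⟩

theorem g3507 : GoodF (fidx ts) 400 3507 := GoodF.ofV v3507 n3507 c3507.down b3507.down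

/-- 46467494:2670 -/
noncomputable def e3508 : SCfg where
  D := {
    a := 8
    L := 11
    kp := 9
    inn := [(0, 1), (0, 4), (1, 0), (1, 2), (1, 3), (1, 4), (1, 6), (2, 1), (2, 3), (3, 1), (3, 2), (3,
      6), (4, 0), (4, 1), (4, 5), (4, 6), (5, 4), (5, 6), (6, 1), (6, 3), (6, 4), (6, 5), (6, 7),
      (7, 6)]
    mix := [(0, 0), (0, 1), (1, 1), (2, 1), (2, 2), (3, 2), (3, 3), (3, 4), (4, 0), (4, 5), (4, 6), (5,
      5), (5, 7), (6, 4), (6, 7), (6, 8), (6, 9), (7, 4), (7, 8), (7, 10)]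
    cl := [3, 1, 2, 9, 0, 4, 6, 0, 5, 7, 8]
    chq := [(0, 1), (0, 2), (0, 3), (0, 6), (1, 0), (2, 0), (3, 0), (6, 0), (7, 8), (8, 7)]
    rng := [(0, 1), (0, 6), (1, 0), (1, 2), (2, 1), (2, 3), (3, 2), (3, 4), (4, 3), (4, 10), (5, 6),
      (5, 7), (6, 0), (6, 5), (7, 5), (7, 9), (8, 9), (8, 10), (9, 7), (9, 8), (10, 4), (10, 8)]
    lev := [] }
  links := [[1, 4, 8, 9], [4, 0, 9, 2, 3, 6], [3, 1, 9, 10], [6, 1, 2, 10, 11, 12], [8, 0, 1, 6, 5, 13,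
    14], [13, 4, 6, 15], [15, 5, 4, 1, 3, 12, 7, 16, 17], [16, 6, 12, 18]]
  P := {
    a := 8
    N := 19
    nb := [786, 605, 1546, 7238, 24931, 41040, 233658, 331840, 16913, 1287, 2572, 5128, 264392, 49200,
      8464, 139360, 393408, 98368, 69760]
    tri := [(0, 1, 4), (0, 1, 9), (0, 4, 8), (0, 8, 9), (1, 2, 3), (1, 2, 9), (1, 3, 6), (1, 4, 6), (2,
      3, 10), (2, 9, 10), (3, 6, 12), (3, 10, 11), (3, 11, 12), (4, 5, 6), (4, 5, 13), (4, 8, 14),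
      (4, 13, 14), (5, 6, 15), (5, 13, 15), (6, 7, 12), (6, 7, 16), (6, 15, 17), (6, 16, 17), (7,
      12, 18), (7, 16, 18)]
    fin := [0, 1, 2, 1, 1, 1, 6, 6, 0, 2, 10, 11, 1, 13, 14, 1, 16, 17, 6]
    chd := [(0, 1), (1, 14), (2, 1), (10, 1), (17, 6)]
    steps := [(0, 8), (1, 3), (1, 4), (1, 5), (1, 12), (1, 15), (2, 9), (6, 7), (6, 18)] }
  rep := [1, 2, 10, 0, 13, 16, 14, 17, 6, 11]

noncomputable def v3508 : Cov.CovD where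
  P := 3
  N := 7
  pl := [3, 5, 8]
  lev := [⟨[], [], [(1, 3)], [], [(0, 3, [0]), (1, 1, [0])]⟩,
    ⟨[], [(0, 1), (0, 3)], [], [], [(1, 1, [0])]⟩,
    ⟨[(0, 1)], [(0, 1), (1, 1), (1, 2)], [(1, 2)], [], [(1, 1, [0]), (2, 2, [0])]⟩,
    ⟨[(0, 1), (1, 2)], [(1, 0), (1, 1), (1, 2), (2, 0), (2, 1), (2, 2)], [(0, 2)], [9],
      [(2, 2, [0]), (4, 0, [1, 2, 3, 6])]⟩,
    ⟨[(0, 1), (1, 2), (1, 3)], [(0, 1), (0, 3), (0, 6), (1, 1), (1, 3), (1, 6)], [(3, 6)],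
      [4], [(0, 3, [0]), (6, 6, [0])]⟩,
    ⟨[(0, 4), (1, 4)], [(4, 0), (4, 3), (4, 6)], [], [4], [(7, 0, [1, 2, 3, 6])]⟩,
    ⟨[(0, 1), (0, 4), (1, 2), (1, 3), (1, 4), (1, 5), (2, 3), (3, 4), (3, 5), (4, 5)], [(1,
      0), (1, 1), (1, 7), (3, 0), (3, 2), (3, 7), (4, 0), (4, 3), (4, 6), (4, 7), (5, 0), (5,
      7)], [(0, 0), (0, 7)], [5], [(4, 0, [1, 2, 3, 6]), (7, 0, [1, 2, 3, 6]), (9, 7, [8])]⟩,
    ⟨[(1, 6), (3, 6), (4, 6), (5, 6)], [(3, 0), (6, 0), (6, 7), (6, 8)], [(0, 8)], [5],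
      [(4, 0, [1, 2, 3, 6]), (10, 8, [7])]⟩]
  Ta := [((4, 3), 0, 9), ((4, 10), 0, 8), ((7, 5), 0, 4), ((7, 9), 0, 7)]
  Tb := [((0, 1, 6), 3, 1, 6), ((1, 0, 2), 1, 3, 2), ((2, 1, 3), 2, 1, 9), ((3, 2, 4), 9, 2, 0),
    ((4, 3, 10), 0, 9, 8), ((5, 6, 7), 4, 6, 0), ((6, 0, 5), 6, 3, 4), ((7, 5, 9), 0, 4, 7),
    ((8, 9, 10), 5, 7, 8), ((9, 7, 8), 7, 0, 5), ((10, 4, 8), 8, 0, 5)]
  Tc := [(0, 1, 2), (0, 1, 3), (0, 1, 6), (0, 2, 3), (0, 2, 6), (0, 3, 6)]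
  Td := [((0, 1), (4, 3), 9), ((0, 1), (4, 10), 8), ((0, 1), (7, 5), 4), ((0, 1), (7, 9), 7),
    ((0, 2), (4, 3), 9), ((0, 2), (4, 10), 8), ((0, 2), (7, 5), 4), ((0, 2), (7, 9), 7), ((0,
    3), (4, 3), 9), ((0, 3), (4, 10), 8), ((0, 3), (7, 5), 4), ((0, 3), (7, 9), 7), ((0, 6),
    (4, 3), 9), ((0, 6), (4, 10), 8), ((0, 6), (7, 5), 4), ((0, 6), (7, 9), 7), ((1, 0), (1,
    0), 3), ((1, 0), (1, 2), 2), ((2, 0), (2, 1), 1), ((2, 0), (2, 3), 9), ((3, 0), (0, 1),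
    1), ((3, 0), (0, 6), 6), ((6, 0), (6, 0), 3), ((6, 0), (6, 5), 4), ((7, 8), (9, 7), 0),
    ((7, 8), (9, 8), 5), ((8, 7), (10, 4), 0), ((8, 7), (10, 8), 5)]
  G := [[0, 0x6acec26ace11826ca6ca61141414611414a1c166, 0xa963811cee1196619e38e16181,
    0xac6a4a1a4145ac6a4a1896ace16ca16ace1e16ca68616ca6861c9c1,
    0xa46ca6acee1ac66ca6ace1a14ac6a4a1ac66ace68e1a16ca686181cc], [0,
    0xac66ca6ace1182ac6c26118a46868e118a6, 0x916a4615815a6119663c68e1e181,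
    0x68411446caa4a47c2c26aceac6686acee714ac668a818c9,
    0x6ca41184141163421414348912214251421ac668a6ca8c26aca6ace6cacfb8c9]]

noncomputable def n3508 : Ent := ⟨e3508, noF, [], [], []⟩

def c3508 : PLift (Cov.check n3508.C.D v3508 = true) := ⟨by decide +kernel⟩

def b3508 : PLift (entF (fidx ts) 400 3508 n3508 = true) := ⟨by decide +kernel⟩

theorem g3508 : GoodF (fidx ts) 400 3508 := GoodF.ofV v3508 n3508 c3508.down b3508.down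

/-- 46467494:2671 -/
noncomputable def e3509 : SCfg where
  D := {
    a := 8
    L := 11
    kp := 9
    inn := [(0, 1), (0, 4), (1, 0), (1, 2), (1, 3), (1, 4), (1, 6), (2, 1), (2, 3), (3, 1), (3, 2), (3,
      6), (4, 0), (4, 1), (4, 5), (4, 6), (5, 4), (5, 6), (6, 1), (6, 3), (6, 4), (6, 5), (6, 7),
      (7, 6)]
    mix := [(0, 0), (0, 1), (1, 1), (2, 1), (2, 2), (3, 2), (3, 3), (3, 4), (4, 0), (4, 5), (4, 6), (5,
      5), (5, 7), (6, 4), (6, 7), (6, 8), (6, 9), (7, 7), (7, 9), (7, 10)]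
    cl := [3, 1, 2, 9, 0, 4, 6, 0, 7, 5, 8]
    chq := [(0, 1), (0, 2), (0, 3), (0, 6), (1, 0), (2, 0), (3, 0), (6, 0), (7, 8), (8, 7)]
    rng := [(0, 1), (0, 6), (1, 0), (1, 2), (2, 1), (2, 3), (3, 2), (3, 4), (4, 3), (4, 8), (5, 6), (5,
      7), (6, 0), (6, 5), (7, 5), (7, 10), (8, 4), (8, 9), (9, 8), (9, 10), (10, 7), (10, 9)]
    lev := [] }
  links := [[1, 4, 8, 9], [4, 0, 9, 2, 3, 6], [3, 1, 9, 10], [6, 1, 2, 10, 11, 12], [8, 0, 1, 6, 5, 13,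
    14], [13, 4, 6, 15], [15, 5, 4, 1, 3, 12, 16, 17, 7], [15, 6, 17, 18]]
  P := {
    a := 8
    N := 19
    nb := [786, 605, 1546, 7238, 24931, 41040, 233658, 426048, 16913, 1287, 2572, 5128, 67656, 49200,
      8464, 270560, 135232, 327872, 163968]
    tri := [(0, 1, 4), (0, 1, 9), (0, 4, 8), (0, 8, 9), (1, 2, 3), (1, 2, 9), (1, 3, 6), (1, 4, 6), (2,
      3, 10), (2, 9, 10), (3, 6, 12), (3, 10, 11), (3, 11, 12), (4, 5, 6), (4, 5, 13), (4, 8, 14),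
      (4, 13, 14), (5, 6, 15), (5, 13, 15), (6, 7, 15), (6, 7, 17), (6, 12, 16), (6, 16, 17), (7,
      15, 18), (7, 17, 18)]
    fin := [0, 1, 2, 1, 1, 1, 6, 6, 0, 2, 10, 11, 1, 13, 14, 1, 6, 17, 18]
    chd := [(0, 1), (1, 14), (2, 1), (6, 18), (10, 1)]
    steps := [(0, 8), (1, 3), (1, 4), (1, 5), (1, 12), (1, 15), (2, 9), (6, 7), (6, 16)] }
  rep := [1, 2, 10, 0, 13, 17, 14, 6, 18, 11]

noncomputable def v3509 : Cov.CovD where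
  P := 3
  N := 7
  pl := [3, 5, 9]
  lev := [⟨[], [], [(1, 3)], [], [(0, 3, [0]), (1, 1, [0])]⟩,
    ⟨[], [(0, 1), (0, 3)], [], [], [(1, 1, [0])]⟩,
    ⟨[(0, 1)], [(0, 1), (1, 1), (1, 2)], [(1, 2)], [], [(1, 1, [0]), (2, 2, [0])]⟩,
    ⟨[(0, 1), (1, 2)], [(1, 0), (1, 1), (1, 2), (2, 0), (2, 1), (2, 2)], [(0, 2)], [9],
      [(2, 2, [0]), (4, 0, [1, 2, 3, 6])]⟩,
    ⟨[(0, 1), (1, 2), (1, 3)], [(0, 1), (0, 3), (0, 6), (1, 1), (1, 3), (1, 6)], [(3, 6)],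
      [4], [(0, 3, [0]), (6, 6, [0])]⟩,
    ⟨[(0, 4), (1, 4)], [(4, 0), (4, 3), (4, 6)], [], [4], [(7, 0, [1, 2, 3, 6])]⟩,
    ⟨[(0, 1), (0, 4), (1, 2), (1, 3), (1, 4), (1, 5), (2, 3), (3, 4), (3, 5), (4, 5)], [(1,
      0), (1, 1), (1, 7), (3, 0), (3, 2), (3, 7), (4, 0), (4, 3), (4, 6), (4, 7), (5, 0), (5,
      7)], [(0, 0), (0, 7)], [5], [(4, 0, [1, 2, 3, 6]), (7, 0, [1, 2, 3, 6]), (8, 7, [8])]⟩,
    ⟨[(1, 6), (3, 6), (4, 6), (5, 6)], [(5, 0), (6, 0), (6, 7), (6, 8)], [(0, 8)], [5],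
      [(7, 0, [1, 2, 3, 6]), (10, 8, [7])]⟩]
  Ta := [((4, 3), 0, 9), ((4, 8), 0, 7), ((7, 5), 0, 4), ((7, 10), 0, 8)]
  Tb := [((0, 1, 6), 3, 1, 6), ((1, 0, 2), 1, 3, 2), ((2, 1, 3), 2, 1, 9), ((3, 2, 4), 9, 2, 0),
    ((4, 3, 8), 0, 9, 7), ((5, 6, 7), 4, 6, 0), ((6, 0, 5), 6, 3, 4), ((7, 5, 10), 0, 4, 8),
    ((8, 4, 9), 7, 0, 5), ((9, 8, 10), 5, 7, 8), ((10, 7, 9), 8, 0, 5)]
  Tc := [(0, 1, 2), (0, 1, 3), (0, 1, 6), (0, 2, 3), (0, 2, 6), (0, 3, 6)]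
  Td := [((0, 1), (4, 3), 9), ((0, 1), (4, 8), 7), ((0, 1), (7, 5), 4), ((0, 1), (7, 10), 8),
    ((0, 2), (4, 3), 9), ((0, 2), (4, 8), 7), ((0, 2), (7, 5), 4), ((0, 2), (7, 10), 8), ((0,
    3), (4, 3), 9), ((0, 3), (4, 8), 7), ((0, 3), (7, 5), 4), ((0, 3), (7, 10), 8), ((0, 6),
    (4, 3), 9), ((0, 6), (4, 8), 7), ((0, 6), (7, 5), 4), ((0, 6), (7, 10), 8), ((1, 0), (1,
    0), 3), ((1, 0), (1, 2), 2), ((2, 0), (2, 1), 1), ((2, 0), (2, 3), 9), ((3, 0), (0, 1),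
    1), ((3, 0), (0, 6), 6), ((6, 0), (6, 0), 3), ((6, 0), (6, 5), 4), ((7, 8), (8, 4), 0),
    ((7, 8), (8, 9), 5), ((8, 7), (10, 7), 0), ((8, 7), (10, 9), 5)]
  G := [[0, 0x39614a1117a38611c46a1e39a14e1182c, 0xa1615a69ce131ce9231ce1a141,
    0x1881184186196a14a169b6c164a3861ac6115aa451acc23edc18586184c9,
    0x3563ca11ce1611ec21ace1a14916356a1a161ca59ce1a168186181cc], [0,
    0x1c661a1ace118431a5861181c6a4a1146c, 0x35694c11861a611a5e1ac61e481,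
    0xc2c214e11486cac2c1184a48418a46cac6ca2c26aca6ac6acaf18cd,
    0x146caa4e118414a4a4186ace269a4caac26aca6ace2caaf18c9]]

noncomputable def n3509 : Ent := ⟨e3509, noF, [], [], []⟩

def c3509 : PLift (Cov.check n3509.C.D v3509 = true) := ⟨by decide +kernel⟩

def b3509 : PLift (entF (fidx ts) 400 3509 n3509 = true) := ⟨by decide +kernel⟩

theorem g3509 : GoodF (fidx ts) 400 3509 := GoodF.ofV v3509 n3509 c3509.down b3509.down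

/-- 46494744:2674/1 -/
noncomputable def e3510 : SCfg where
  D := {
    a := 8
    L := 10
    kp := 8
    inn := [(0, 1), (1, 0), (1, 2), (1, 3), (1, 5), (2, 1), (2, 5), (3, 1), (3, 4), (3, 5), (3, 6), (3,
      7), (4, 3), (4, 5), (5, 1), (5, 2), (5, 3), (5, 4), (6, 3), (7, 3)]
    mix := [(0, 0), (0, 1), (0, 2), (1, 0), (1, 2), (2, 2), (2, 3), (3, 0), (3, 4), (3, 5), (3, 6), (4,
      4), (4, 7), (5, 3), (5, 7), (5, 8), (6, 4), (6, 5), (6, 9), (7, 0), (7, 1), (7, 6)]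
    cl := [0, 2, 1, 4, 0, 5, 3, 6, 7, 8]
    chq := [(0, 1), (0, 3), (0, 4), (0, 7), (1, 0), (3, 0), (3, 8), (4, 0), (7, 0), (8, 3)]
    rng := [(0, 1), (1, 0), (1, 2), (1, 6), (2, 1), (2, 3), (3, 2), (3, 8), (4, 7), (4, 9), (5, 6), (5,
      9), (6, 1), (6, 5), (7, 4), (7, 8), (8, 3), (8, 7), (9, 4), (9, 5)]
    lev := [] }
  links := [[1, 8, 9, 10], [8, 0, 10, 2, 5, 3], [5, 1, 10, 11], [8, 1, 5, 4, 12, 6, 13, 14, 7], [12, 3,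
    5, 15], [15, 4, 3, 1, 2, 11, 16], [13, 3, 12, 17], [8, 3, 14, 9]]
  P := {
    a := 8
    N := 18
    nb := [1794, 1325, 3106, 29170, 36904, 100382, 143368, 17160, 651, 17793, 2567, 66596, 163928,
      147528, 8840, 69680, 34848, 12352]
    tri := [(0, 1, 8), (0, 1, 10), (0, 8, 9), (0, 9, 10), (1, 2, 5), (1, 2, 10), (1, 3, 5), (1, 3, 8),
      (2, 5, 11), (2, 10, 11), (3, 4, 5), (3, 4, 12), (3, 6, 12), (3, 6, 13), (3, 7, 8), (3, 7,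
      14), (3, 13, 14), (4, 5, 15), (4, 12, 15), (5, 11, 16), (5, 15, 16), (6, 12, 17), (6, 13,
      17), (7, 8, 9), (7, 9, 14)]
    fin := [0, 0, 0, 3, 0, 0, 3, 0, 0, 9, 10, 11, 0, 13, 14, 15, 16, 3]
    chd := [(0, 10), (0, 11), (0, 14), (0, 16), (14, 3)]
    steps := [(0, 1), (0, 2), (0, 5), (0, 4), (0, 8), (0, 7), (0, 12), (3, 6), (3, 17)] }
  rep := [0, 10, 9, 14, 11, 13, 15, 16, 3]

noncomputable def v3510 : Cov.CovD where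
  P := 3
  N := 6
  pl := [1, 5, 7]
  lev := [⟨[], [], [(0, 1)], [2], [(0, 0, [1, 3, 4, 7]), (2, 1, [0])]⟩,
    ⟨[], [(0, 0), (0, 1)], [(0, 1)], [], [(0, 0, [1, 3, 4, 7]), (2, 1, [0])]⟩,
    ⟨[(0, 1)], [(0, 1), (1, 0), (1, 1), (1, 4)], [(1, 4)], [], [(2, 1, [0]), (3, 4, [0])]⟩,
    ⟨[(0, 1), (1, 2)], [(0, 0), (1, 0), (1, 1), (1, 3)], [(0, 0), (0, 3)], [5], [(0, 0, [1,
      3, 4, 7]), (4, 0, [1, 3, 4, 7]), (6, 3, [0, 8])]⟩,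
    ⟨[(1, 3)], [(3, 0), (3, 3)], [], [6], [(4, 0, [1, 3, 4, 7])]⟩,
    ⟨[(0, 1), (1, 2), (1, 3), (1, 4), (2, 3), (2, 4), (3, 4)], [(1, 0), (1, 1), (1, 4), (1,
      7), (2, 1), (2, 4), (2, 7), (3, 0), (3, 3), (3, 4), (3, 7), (4, 0), (4, 4), (4, 7)],
      [(4, 7)], [6], [(3, 4, [0]), (8, 7, [0])]⟩,
    ⟨[(1, 3), (3, 4), (3, 5)], [(3, 0), (3, 3), (3, 8), (4, 0)], [(0, 8)], [5], [(4, 0, [1,
      3, 4, 7]), (9, 8, [3])]⟩,
    ⟨[(1, 3), (3, 4), (3, 5), (3, 6)], [(0, 0), (1, 0), (3, 0), (3, 3)], [(0, 3)], [2],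
      [(0, 0, [1, 3, 4, 7]), (6, 3, [0, 8])]⟩]
  Ta := [((0, 1), 0, 2), ((4, 7), 0, 6), ((4, 9), 0, 8)]
  Tb := [((1, 0, 2), 2, 0, 1), ((1, 0, 6), 2, 0, 3), ((1, 2, 6), 2, 1, 3), ((2, 1, 3), 1, 2, 4),
    ((3, 2, 8), 4, 1, 7), ((4, 7, 9), 0, 6, 8), ((5, 6, 9), 5, 3, 8), ((6, 1, 5), 3, 2, 5),
    ((7, 4, 8), 6, 0, 7), ((8, 3, 7), 7, 4, 6), ((9, 4, 5), 8, 0, 5)]
  Tc := [(0, 1, 3), (0, 1, 4), (0, 1, 7), (0, 3, 4), (0, 3, 7), (0, 4, 7), (3, 0, 8)]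
  Td := [((0, 1), (0, 1), 2), ((0, 1), (4, 7), 6), ((0, 1), (4, 9), 8), ((0, 3), (0, 1), 2), ((0,
    3), (4, 7), 6), ((0, 3), (4, 9), 8), ((0, 4), (0, 1), 2), ((0, 4), (4, 7), 6), ((0, 4),
    (4, 9), 8), ((0, 7), (0, 1), 2), ((0, 7), (4, 7), 6), ((0, 7), (4, 9), 8), ((1, 0), (2,
    1), 2), ((1, 0), (2, 3), 4), ((3, 0), (6, 1), 2), ((3, 0), (6, 5), 5), ((3, 8), (6, 1),
    2), ((3, 8), (6, 5), 5), ((4, 0), (3, 2), 1), ((4, 0), (3, 8), 7), ((7, 0), (8, 3), 4),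
    ((7, 0), (8, 7), 6), ((8, 3), (9, 4), 0), ((8, 3), (9, 5), 5)]
  G := [[0, 0x111218a1211512e11a181151466113141191411c18e11188aa4,
    0x811286168231a11a22c14291ce148,
    0x841811611181114e81181168c441111413184b48c1815489548c48cad618c,
    0x28a128a164428518831682312891a2291211ce811285168251211cacc8], [0,
    0x4191222115181131211914e113128131811c18e116141114cea4, 0,
    0x1118414444811881841a48c7e111e44e5141411314a8411418641cb6111e11c115eb118d1ca9c4,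
    0x18914411a128e584581142114a111888861116116816886f611a811aa8a3a11c11c11c211ef11221e3cedc8]]

noncomputable def n3510 : Ent := ⟨e3510, noF, [], [], []⟩

def c3510 : PLift (Cov.check n3510.C.D v3510 = true) := ⟨by decide +kernel⟩

def b3510 : PLift (entF (fidx ts) 400 3510 n3510 = true) := ⟨by decide +kernel⟩

theorem g3510 : GoodF (fidx ts) 400 3510 := GoodF.ofV v3510 n3510 c3510.down b3510.down

/-- 46494744:2674 -/
noncomputable def e3511 : SCfg where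
  D := {
    a := 8
    L := 11
    kp := 9
    inn := [(0, 1), (1, 0), (1, 2), (1, 3), (1, 5), (2, 1), (2, 5), (3, 1), (3, 4), (3, 5), (3, 6), (3,
      7), (4, 3), (4, 5), (5, 1), (5, 2), (5, 3), (5, 4), (6, 3), (7, 3)]
    mix := [(0, 0), (0, 1), (0, 2), (1, 0), (1, 2), (2, 2), (2, 3), (3, 0), (3, 4), (3, 5), (3, 6), (4,
      4), (4, 7), (5, 3), (5, 7), (5, 8), (6, 4), (6, 5), (6, 9), (7, 0), (7, 6), (7, 10)]
    cl := [0, 8, 1, 3, 0, 4, 2, 5, 6, 7, 9]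
    chq := [(0, 1), (0, 2), (0, 3), (0, 6), (1, 0), (2, 0), (2, 7), (3, 0), (6, 0), (7, 2)]
    rng := [(0, 1), (0, 10), (1, 0), (1, 2), (2, 1), (2, 3), (3, 2), (3, 8), (4, 7), (4, 9), (5, 6),
      (5, 9), (6, 5), (6, 10), (7, 4), (7, 8), (8, 3), (8, 7), (9, 4), (9, 5), (10, 0), (10, 6)]
    lev := [] }
  links := [[1, 8, 9, 10], [8, 0, 10, 2, 5, 3], [5, 1, 10, 11], [8, 1, 5, 4, 12, 6, 13, 14, 7], [12, 3,
    5, 15], [15, 4, 3, 1, 2, 11, 16], [13, 3, 12, 17], [8, 3, 14, 18]]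
  P := {
    a := 8
    N := 19
    nb := [1794, 1325, 3106, 29170, 36904, 100382, 143368, 278792, 262795, 1281, 2567, 66596, 163928,
      147528, 270472, 69680, 34848, 12352, 16768]
    tri := [(0, 1, 8), (0, 1, 10), (0, 8, 9), (0, 9, 10), (1, 2, 5), (1, 2, 10), (1, 3, 5), (1, 3, 8),
      (2, 5, 11), (2, 10, 11), (3, 4, 5), (3, 4, 12), (3, 6, 12), (3, 6, 13), (3, 7, 8), (3, 7,
      14), (3, 13, 14), (4, 5, 15), (4, 12, 15), (5, 11, 16), (5, 15, 16), (6, 12, 17), (6, 13,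
      17), (7, 8, 18), (7, 14, 18)]
    fin := [0, 0, 0, 3, 0, 0, 3, 0, 0, 9, 10, 11, 0, 13, 14, 15, 16, 3, 18]
    chd := [(0, 10), (0, 11), (0, 14), (0, 16), (14, 3)]
    steps := [(0, 1), (0, 2), (0, 5), (0, 4), (0, 8), (0, 7), (0, 12), (3, 6), (3, 17)] }
  rep := [0, 10, 14, 11, 13, 15, 16, 3, 9, 18]

noncomputable def v3511 : Cov.CovD where
  P := 3
  N := 7
  pl := [1, 5, 7, 10]
  lev := [⟨[], [], [(0, 1)], [8], [(0, 0, [1, 2, 3, 6]), (2, 1, [0])]⟩,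
    ⟨[], [(0, 0), (0, 1)], [(0, 1)], [], [(0, 0, [1, 2, 3, 6]), (2, 1, [0])]⟩,
    ⟨[(0, 1)], [(0, 1), (1, 0), (1, 1), (1, 3)], [(1, 3)], [], [(2, 1, [0]), (3, 3, [0])]⟩,
    ⟨[(0, 1), (1, 2)], [(0, 0), (1, 0), (1, 1), (1, 2)], [(0, 0), (0, 2)], [4], [(0, 0, [1,
      2, 3, 6]), (4, 0, [1, 2, 3, 6]), (6, 2, [0, 7])]⟩,
    ⟨[(1, 3)], [(3, 0), (3, 2)], [], [5], [(4, 0, [1, 2, 3, 6])]⟩,
    ⟨[(0, 1), (1, 2), (1, 3), (1, 4), (2, 3), (2, 4), (3, 4)], [(1, 0), (1, 1), (1, 3), (1,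
      6), (2, 1), (2, 3), (2, 6), (3, 0), (3, 2), (3, 3), (3, 6), (4, 0), (4, 3), (4, 6)],
      [(3, 6)], [5], [(3, 3, [0]), (8, 6, [0])]⟩,
    ⟨[(1, 3), (3, 4), (3, 5)], [(3, 0), (3, 2), (3, 7), (4, 0)], [(0, 7)], [4], [(4, 0, [1,
      2, 3, 6]), (9, 7, [2])]⟩,
    ⟨[(1, 3), (3, 4), (3, 5), (3, 6)], [(0, 0), (1, 0), (3, 0), (3, 2)], [(0, 2)], [9],
      [(0, 0, [1, 2, 3, 6]), (6, 2, [0, 7])]⟩]
  Ta := [((0, 1), 0, 8), ((0, 10), 0, 9), ((4, 7), 0, 5), ((4, 9), 0, 7)]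
  Tb := [((0, 1, 10), 0, 8, 9), ((1, 0, 2), 8, 0, 1), ((2, 1, 3), 1, 8, 3), ((3, 2, 8), 3, 1, 6),
    ((4, 7, 9), 0, 5, 7), ((5, 6, 9), 4, 2, 7), ((6, 5, 10), 2, 4, 9), ((7, 4, 8), 5, 0, 6),
    ((8, 3, 7), 6, 3, 5), ((9, 4, 5), 7, 0, 4), ((10, 0, 6), 9, 0, 2)]
  Tc := [(0, 1, 2), (0, 1, 3), (0, 1, 6), (0, 2, 3), (0, 2, 6), (0, 3, 6), (2, 0, 7)]
  Td := [((0, 1), (0, 1), 8), ((0, 1), (0, 10), 9), ((0, 1), (4, 7), 5), ((0, 1), (4, 9), 7),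
    ((0, 2), (0, 1), 8), ((0, 2), (0, 10), 9), ((0, 2), (4, 7), 5), ((0, 2), (4, 9), 7), ((0,
    3), (0, 1), 8), ((0, 3), (0, 10), 9), ((0, 3), (4, 7), 5), ((0, 3), (4, 9), 7), ((0, 6),
    (0, 1), 8), ((0, 6), (0, 10), 9), ((0, 6), (4, 7), 5), ((0, 6), (4, 9), 7), ((1, 0), (2,
    1), 8), ((1, 0), (2, 3), 3), ((2, 0), (6, 5), 4), ((2, 0), (6, 10), 9), ((2, 7), (6, 5),
    4), ((2, 7), (6, 10), 9), ((3, 0), (3, 2), 1), ((3, 0), (3, 8), 6), ((6, 0), (8, 3), 3),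
    ((6, 0), (8, 7), 5), ((7, 2), (9, 4), 0), ((7, 2), (9, 5), 4)]
  G := [[0, 0x11112168121111a4a4121111a48111121c82c1111116121121ac48e, 0x6114a1126118e141,
    0xc21c21a4411421a45c21c116911921acc11c1168cc114124236c11821c1413c212cfc1111884831821689cc,
    0x112158111111a857148f11a49a1114146da141114a414a411518a411116aa11a11a42711a438a9cc], [0,
    0x111121c44121111c88c1111131648121111c84a1211116111121ac28e, 0x6112a114c118e181,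
    0x111e184124121c45111e141212c11125116111e116ea11a811a2ac9c11a1441211161256111e18c111e11a12e24d11116912111ea681cc,
    0x111e146421148481c121e146421148481ca861228e8a2d9c2a861a1168ac18a2a2e122a42aae2aaef688288c8488d6ad4d]]

noncomputable def n3511 : Ent := ⟨e3511, noF, [], [], [(9, 18, [30043303427623734937691929578474300150491519007939870628445900451935379457, 0])]⟩

def c3511 : PLift (Cov.check n3511.C.D v3511 = true) := ⟨by decide +kernel⟩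

def b3511 : PLift (entF (fidx ts) 400 3511 n3511 = true) := ⟨by decide +kernel⟩

theorem g3511 : GoodF (fidx ts) 400 3511 := GoodF.ofV v3511 n3511 c3511.down b3511.down

/-- 46494744:2675/1 -/
noncomputable def e3512 : SCfg where
  D := {
    a := 8
    L := 10
    kp := 8
    inn := [(0, 1), (1, 0), (1, 2), (1, 3), (1, 5), (2, 1), (2, 5), (3, 1), (3, 4), (3, 5), (3, 6), (3,
      7), (4, 3), (4, 5), (5, 1), (5, 2), (5, 3), (5, 4), (6, 3), (7, 3)]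
    mix := [(0, 0), (0, 1), (0, 2), (1, 0), (1, 2), (2, 2), (2, 3), (3, 0), (3, 4), (3, 5), (3, 6), (4,
      4), (4, 7), (5, 3), (5, 7), (5, 8), (6, 5), (6, 6), (6, 9), (7, 0), (7, 1), (7, 6)]
    cl := [0, 2, 1, 4, 0, 5, 3, 6, 7, 8]
    chq := [(0, 1), (0, 3), (0, 4), (0, 7), (0, 8), (1, 0), (3, 0), (4, 0), (7, 0), (8, 0)]
    rng := [(0, 1), (1, 0), (1, 2), (1, 6), (2, 1), (2, 3), (3, 2), (3, 8), (4, 5), (4, 7), (5, 4), (5,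
      9), (6, 1), (6, 9), (7, 4), (7, 8), (8, 3), (8, 7), (9, 5), (9, 6)]
    lev := [] }
  links := [[1, 8, 9, 10], [8, 0, 10, 2, 5, 3], [5, 1, 10, 11], [8, 1, 5, 4, 12, 13, 6, 14, 7], [12, 3,
    5, 15], [15, 4, 3, 1, 2, 11, 16], [14, 3, 13, 17], [8, 3, 14, 9]]
  P := {
    a := 8
    N := 18
    nb := [1794, 1325, 3106, 29170, 36904, 100382, 155656, 17160, 651, 17793, 2567, 66596, 40984,
      135240, 131784, 69680, 34848, 24640]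
    tri := [(0, 1, 8), (0, 1, 10), (0, 8, 9), (0, 9, 10), (1, 2, 5), (1, 2, 10), (1, 3, 5), (1, 3, 8),
      (2, 5, 11), (2, 10, 11), (3, 4, 5), (3, 4, 12), (3, 6, 13), (3, 6, 14), (3, 7, 8), (3, 7,
      14), (3, 12, 13), (4, 5, 15), (4, 12, 15), (5, 11, 16), (5, 15, 16), (6, 13, 17), (6, 14,
      17), (7, 8, 9), (7, 9, 14)]
    fin := [0, 0, 0, 0, 0, 0, 0, 0, 0, 9, 10, 11, 0, 13, 14, 15, 16, 17]
    chd := [(0, 10), (0, 11), (0, 14), (0, 16), (0, 17)]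
    steps := [(0, 1), (0, 2), (0, 3), (0, 4), (0, 5), (0, 6), (0, 8), (0, 7), (0, 12)] }
  rep := [0, 10, 9, 14, 11, 13, 15, 16, 17]

noncomputable def v3512 : Cov.CovD where
  P := 3
  N := 6
  pl := [1, 5, 7]
  lev := [⟨[], [], [(0, 1)], [2], [(0, 0, [1, 3, 4, 7, 8]), (2, 1, [0])]⟩,
    ⟨[], [(0, 0), (0, 1)], [(0, 1)], [], [(0, 0, [1, 3, 4, 7, 8]), (2, 1, [0])]⟩,
    ⟨[(0, 1)], [(0, 1), (1, 0), (1, 1), (1, 4)], [(1, 4)], [], [(2, 1, [0]), (3, 4, [0])]⟩,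
    ⟨[(0, 1), (1, 2)], [(0, 0), (1, 0), (1, 1), (1, 3)], [(0, 0), (0, 3)], [5], [(0, 0, [1,
      3, 4, 7, 8]), (4, 0, [1, 3, 4, 7, 8]), (6, 3, [0])]⟩,
    ⟨[(1, 3)], [(3, 0), (3, 3)], [], [6], [(4, 0, [1, 3, 4, 7, 8])]⟩,
    ⟨[(0, 1), (1, 2), (1, 3), (1, 4), (2, 3), (2, 4), (3, 4)], [(1, 0), (1, 1), (1, 4), (1,
      7), (2, 1), (2, 4), (2, 7), (3, 0), (3, 3), (3, 4), (3, 7), (4, 0), (4, 4), (4, 7)],
      [(4, 7)], [6], [(3, 4, [0]), (8, 7, [0])]⟩,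
    ⟨[(1, 3), (3, 4), (3, 5)], [(3, 0), (3, 3), (3, 8)], [(3, 8)], [5], [(6, 3, [0]), (9,
      8, [0])]⟩,
    ⟨[(1, 3), (3, 4), (3, 5), (3, 6)], [(0, 0), (1, 0), (3, 0), (3, 3), (6, 3)], [(0, 3)],
      [2], [(0, 0, [1, 3, 4, 7, 8]), (6, 3, [0])]⟩]
  Ta := [((0, 1), 0, 2), ((4, 5), 0, 5), ((4, 7), 0, 6)]
  Tb := [((1, 0, 2), 2, 0, 1), ((1, 0, 6), 2, 0, 3), ((1, 2, 6), 2, 1, 3), ((2, 1, 3), 1, 2, 4),
    ((3, 2, 8), 4, 1, 7), ((4, 5, 7), 0, 5, 6), ((5, 4, 9), 5, 0, 8), ((6, 1, 9), 3, 2, 8),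
    ((7, 4, 8), 6, 0, 7), ((8, 3, 7), 7, 4, 6), ((9, 5, 6), 8, 5, 3)]
  Tc := [(0, 1, 3), (0, 1, 4), (0, 1, 7), (0, 1, 8), (0, 3, 4), (0, 3, 7), (0, 3, 8), (0, 4, 7),
    (0, 4, 8), (0, 7, 8)]
  Td := [((0, 1), (0, 1), 2), ((0, 1), (4, 5), 5), ((0, 1), (4, 7), 6), ((0, 3), (0, 1), 2), ((0,
    3), (4, 5), 5), ((0, 3), (4, 7), 6), ((0, 4), (0, 1), 2), ((0, 4), (4, 5), 5), ((0, 4),
    (4, 7), 6), ((0, 7), (0, 1), 2), ((0, 7), (4, 5), 5), ((0, 7), (4, 7), 6), ((0, 8), (0,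
    1), 2), ((0, 8), (4, 5), 5), ((0, 8), (4, 7), 6), ((1, 0), (2, 1), 2), ((1, 0), (2, 3),
    4), ((3, 0), (6, 1), 2), ((3, 0), (6, 9), 8), ((4, 0), (3, 2), 1), ((4, 0), (3, 8), 7),
    ((7, 0), (8, 3), 4), ((7, 0), (8, 7), 6), ((8, 0), (9, 5), 5), ((8, 0), (9, 6), 3)]
  G := [[0, 0x111411126111211121114e111441181118ee111888a4, 0x411411a418118116211211ca1c4,
    0x1114411144118c411411412bc1111c151111ad6d81181813118781c4,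
    0xa11a11c448118116a11a11a211211ce8118116211211cacc8], [0,
    0x111222111241121114e811411181118e11181114ce64, 0,
    0x1114551141417a4181141118a11189911818181f6118811811b91141173114ee5c8,
    0x1118111261951114a451112811411189911188d3e11811113a21111112f1121273ce5c8]]

noncomputable def n3512 : Ent := ⟨e3512, noF, [], [], []⟩

def c3512 : PLift (Cov.check n3512.C.D v3512 = true) := ⟨by decide +kernel⟩

def b3512 : PLift (entF (fidx ts) 400 3512 n3512 = true) := ⟨by decide +kernel⟩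

theorem g3512 : GoodF (fidx ts) 400 3512 := GoodF.ofV v3512 n3512 c3512.down b3512.down

/-- 46494744:2675 -/
noncomputable def e3513 : SCfg where
  D := {
    a := 8
    L := 11
    kp := 9
    inn := [(0, 1), (1, 0), (1, 2), (1, 3), (1, 5), (2, 1), (2, 5), (3, 1), (3, 4), (3, 5), (3, 6), (3,
      7), (4, 3), (4, 5), (5, 1), (5, 2), (5, 3), (5, 4), (6, 3), (7, 3)]
    mix := [(0, 0), (0, 1), (0, 2), (1, 0), (1, 2), (2, 2), (2, 3), (3, 0), (3, 4), (3, 5), (3, 6), (4,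
      4), (4, 7), (5, 3), (5, 7), (5, 8), (6, 5), (6, 6), (6, 9), (7, 0), (7, 6), (7, 10)]
    cl := [0, 8, 1, 4, 0, 2, 3, 5, 6, 7, 9]
    chq := [(0, 1), (0, 3), (0, 4), (0, 6), (0, 7), (1, 0), (3, 0), (4, 0), (6, 0), (7, 0)]
    rng := [(0, 1), (0, 10), (1, 0), (1, 2), (2, 1), (2, 3), (3, 2), (3, 8), (4, 5), (4, 7), (5, 4),
      (5, 9), (6, 9), (6, 10), (7, 4), (7, 8), (8, 3), (8, 7), (9, 5), (9, 6), (10, 0), (10, 6)]
    lev := [] }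
  links := [[1, 8, 9, 10], [8, 0, 10, 2, 5, 3], [5, 1, 10, 11], [8, 1, 5, 4, 12, 13, 6, 14, 7], [12, 3,
    5, 15], [15, 4, 3, 1, 2, 11, 16], [14, 3, 13, 17], [8, 3, 14, 18]]
  P := {
    a := 8
    N := 19
    nb := [1794, 1325, 3106, 29170, 36904, 100382, 155656, 278792, 262795, 1281, 2567, 66596, 40984,
      135240, 393416, 69680, 34848, 24640, 16768]
    tri := [(0, 1, 8), (0, 1, 10), (0, 8, 9), (0, 9, 10), (1, 2, 5), (1, 2, 10), (1, 3, 5), (1, 3, 8),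
      (2, 5, 11), (2, 10, 11), (3, 4, 5), (3, 4, 12), (3, 6, 13), (3, 6, 14), (3, 7, 8), (3, 7,
      14), (3, 12, 13), (4, 5, 15), (4, 12, 15), (5, 11, 16), (5, 15, 16), (6, 13, 17), (6, 14,
      17), (7, 8, 18), (7, 14, 18)]
    fin := [0, 0, 0, 0, 0, 0, 0, 0, 0, 9, 10, 11, 0, 13, 14, 15, 16, 17, 18]
    chd := [(0, 10), (0, 11), (0, 14), (0, 16), (0, 17)]
    steps := [(0, 1), (0, 2), (0, 3), (0, 4), (0, 5), (0, 6), (0, 7), (0, 8), (0, 12)] }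
  rep := [0, 10, 13, 14, 11, 15, 16, 17, 9, 18]

noncomputable def v3513 : Cov.CovD where
  P := 3
  N := 7
  pl := [1, 5, 7, 10]
  lev := [⟨[], [], [(0, 1)], [8], [(0, 0, [1, 3, 4, 6, 7]), (2, 1, [0])]⟩,
    ⟨[], [(0, 0), (0, 1)], [(0, 1)], [], [(0, 0, [1, 3, 4, 6, 7]), (2, 1, [0])]⟩,
    ⟨[(0, 1)], [(0, 1), (1, 0), (1, 1), (1, 4)], [(1, 4)], [], [(2, 1, [0]), (3, 4, [0])]⟩,
    ⟨[(0, 1), (1, 2)], [(0, 0), (1, 0), (1, 1), (1, 3)], [(0, 0), (0, 3)], [2], [(0, 0, [1,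
      3, 4, 6, 7]), (4, 0, [1, 3, 4, 6, 7]), (6, 3, [0])]⟩,
    ⟨[(1, 3)], [(3, 0), (3, 3)], [], [5], [(4, 0, [1, 3, 4, 6, 7])]⟩,
    ⟨[(0, 1), (1, 2), (1, 3), (1, 4), (2, 3), (2, 4), (3, 4)], [(1, 0), (1, 1), (1, 4), (1,
      6), (2, 1), (2, 4), (2, 6), (3, 0), (3, 3), (3, 4), (3, 6), (4, 0), (4, 4), (4, 6)],
      [(4, 6)], [5], [(3, 4, [0]), (8, 6, [0])]⟩,
    ⟨[(1, 3), (3, 4), (3, 5)], [(3, 0), (3, 3), (3, 7)], [(3, 7)], [2], [(6, 3, [0]), (9,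
      7, [0])]⟩,
    ⟨[(1, 3), (3, 4), (3, 5), (3, 6)], [(0, 0), (1, 0), (3, 0), (3, 3), (6, 3)], [(0, 3)],
      [9], [(0, 0, [1, 3, 4, 6, 7]), (6, 3, [0])]⟩]
  Ta := [((0, 1), 0, 8), ((0, 10), 0, 9), ((4, 5), 0, 2), ((4, 7), 0, 5)]
  Tb := [((0, 1, 10), 0, 8, 9), ((1, 0, 2), 8, 0, 1), ((2, 1, 3), 1, 8, 4), ((3, 2, 8), 4, 1, 6),
    ((4, 5, 7), 0, 2, 5), ((5, 4, 9), 2, 0, 7), ((6, 9, 10), 3, 7, 9), ((7, 4, 8), 5, 0, 6),
    ((8, 3, 7), 6, 4, 5), ((9, 5, 6), 7, 2, 3), ((10, 0, 6), 9, 0, 3)]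
  Tc := [(0, 1, 3), (0, 1, 4), (0, 1, 6), (0, 1, 7), (0, 3, 4), (0, 3, 6), (0, 3, 7), (0, 4, 6),
    (0, 4, 7), (0, 6, 7)]
  Td := [((0, 1), (0, 1), 8), ((0, 1), (0, 10), 9), ((0, 1), (4, 5), 2), ((0, 1), (4, 7), 5),
    ((0, 3), (0, 1), 8), ((0, 3), (0, 10), 9), ((0, 3), (4, 5), 2), ((0, 3), (4, 7), 5), ((0,
    4), (0, 1), 8), ((0, 4), (0, 10), 9), ((0, 4), (4, 5), 2), ((0, 4), (4, 7), 5), ((0, 6),
    (0, 1), 8), ((0, 6), (0, 10), 9), ((0, 6), (4, 5), 2), ((0, 6), (4, 7), 5), ((0, 7), (0,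
    1), 8), ((0, 7), (0, 10), 9), ((0, 7), (4, 5), 2), ((0, 7), (4, 7), 5), ((1, 0), (2, 1),
    8), ((1, 0), (2, 3), 4), ((3, 0), (6, 9), 7), ((3, 0), (6, 10), 9), ((4, 0), (3, 2), 1),
    ((4, 0), (3, 8), 6), ((6, 0), (8, 3), 4), ((6, 0), (8, 7), 5), ((7, 0), (9, 5), 2), ((7,
    0), (9, 6), 3)]
  G := [[0, 0x11121118c111111a111111aca411181114c8211141112c11121118c68e, 0,
    0x61111613114b41a1111a131111c71188c1c11131161114c61111613118b45a114811213811811e89cc,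
    0xc11c11111111e7611611111111eda141141111611ca431142411811c111111af11619411ca9cc], [0,
    0x111881112111111ccc2111111c1111116c221114111111ac11188c2e,
    0x11c111c1a11a111a1c61811c111c1a11a111a1c618c,
    0x1114411424511841188c1c11144114849118481c611616161ba41a11a1168a1121a1a181f685cd,
    0x1118811821128a54111118a1128a1461161615c21c1146114a411811c8c1c1626188adcd]]

noncomputable def n3513 : Ent := ⟨e3513, noF, [], [], [(9, 18, [30043303427623734937691929578474300150491519007939870628445900451935387649, 0])]⟩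

def c3513 : PLift (Cov.check n3513.C.D v3513 = true) := ⟨by decide +kernel⟩

def b3513 : PLift (entF (fidx ts) 400 3513 n3513 = true) := ⟨by decide +kernel⟩

theorem g3513 : GoodF (fidx ts) 400 3513 := GoodF.ofV v3513 n3513 c3513.down b3513.down

/-- 46494566:2676 -/
noncomputable def e3514 : SCfg where
  D := {
    a := 8
    L := 11
    kp := 9
    inn := [(0, 1), (0, 6), (1, 0), (1, 2), (1, 3), (1, 6), (1, 7), (2, 1), (2, 7), (3, 1), (3, 4), (3,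
      5), (3, 6), (3, 7), (4, 3), (4, 5), (5, 3), (5, 4), (6, 0), (6, 1), (6, 3), (7, 1), (7, 2),
      (7, 3)]
    mix := [(0, 0), (0, 1), (1, 1), (2, 1), (2, 2), (3, 3), (3, 4), (3, 5), (3, 6), (4, 4), (4, 7), (5,
      5), (5, 7), (5, 8), (6, 0), (6, 6), (6, 9), (7, 2), (7, 3), (7, 10)]
    cl := [3, 1, 4, 0, 2, 0, 5, 6, 7, 8, 9]
    chq := [(0, 1), (0, 3), (0, 8), (1, 0), (1, 9), (2, 7), (3, 0), (7, 2), (8, 0), (9, 1)]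
    rng := [(0, 1), (0, 9), (1, 0), (1, 2), (2, 1), (2, 10), (3, 4), (3, 10), (4, 3), (4, 7), (5, 6),
      (5, 8), (6, 5), (6, 9), (7, 4), (7, 8), (8, 5), (8, 7), (9, 0), (9, 6), (10, 2), (10, 3)]
    lev := [] }
  links := [[1, 6, 8, 9], [6, 0, 9, 2, 7, 3], [7, 1, 9, 10], [6, 1, 7, 11, 12, 4, 5, 13, 14], [5, 3, 12,
    15], [13, 3, 4, 15, 16], [8, 0, 1, 3, 14, 17], [11, 3, 1, 2, 10, 18]]
  P := {
    a := 8
    N := 19
    nb := [834, 717, 1666, 30962, 36904, 106520, 147723, 265230, 131649, 1287, 262788, 266376, 34840,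
      81960, 139336, 69680, 40992, 16704, 3200]
    tri := [(0, 1, 6), (0, 1, 9), (0, 6, 8), (0, 8, 9), (1, 2, 7), (1, 2, 9), (1, 3, 6), (1, 3, 7), (2,
      7, 10), (2, 9, 10), (3, 4, 5), (3, 4, 12), (3, 5, 13), (3, 6, 14), (3, 7, 11), (3, 11, 12),
      (3, 13, 14), (4, 5, 15), (4, 12, 15), (5, 13, 16), (5, 15, 16), (6, 8, 17), (6, 14, 17), (7,
      10, 18), (7, 11, 18)]
    fin := [0, 0, 2, 3, 4, 4, 3, 2, 0, 2, 10, 3, 4, 3, 14, 15, 16, 17, 18]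
    chd := [(0, 3), (2, 3), (2, 18), (3, 17), (4, 16)]
    steps := [(0, 1), (0, 8), (2, 7), (2, 9), (3, 6), (3, 11), (3, 13), (4, 5), (4, 12)] }
  rep := [3, 2, 4, 0, 10, 14, 15, 16, 17, 18]

noncomputable def v3514 : Cov.CovD where
  P := 3
  N := 7
  pl := [2, 6, 7]
  lev := [⟨[], [], [(1, 3)], [], [(0, 3, [0]), (1, 1, [0, 9])]⟩,
    ⟨[], [(0, 1), (0, 3)], [], [], [(1, 1, [0, 9])]⟩,
    ⟨[(0, 1)], [(0, 1), (1, 1)], [], [4], [(1, 1, [0, 9])]⟩,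
    ⟨[(0, 1), (1, 2)], [(1, 0), (1, 1), (1, 2)], [(0, 0), (0, 2)], [5], [(3, 0, [1, 3, 8]),
      (4, 2, [7]), (5, 0, [1, 3, 8])]⟩,
    ⟨[(1, 3)], [(3, 0), (3, 2)], [], [6], [(4, 2, [7])]⟩,
    ⟨[(1, 3), (3, 4)], [(3, 0), (3, 2), (3, 7), (4, 0), (4, 2), (4, 7)], [(0, 7)], [6],
      [(5, 0, [1, 3, 8]), (8, 7, [2])]⟩,
    ⟨[(0, 1), (0, 3), (1, 2), (1, 3), (3, 4), (3, 5)], [(0, 1), (0, 3), (0, 8), (1, 1), (1,
      3), (1, 8), (3, 0), (3, 2), (3, 3), (3, 8)], [(3, 8)], [5], [(0, 3, [0]), (9, 8, [0])]⟩,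
    ⟨[(0, 1), (1, 2), (1, 3), (1, 6), (2, 3), (3, 4), (3, 5), (3, 6)], [(1, 0), (1, 1), (1,
      9), (2, 0), (2, 1), (2, 9), (3, 0), (3, 2), (3, 9)], [(0, 9)], [4], [(3, 0, [1, 3, 8]),
      (10, 9, [1])]⟩]
  Ta := [((3, 4), 0, 2), ((3, 10), 0, 9), ((5, 6), 0, 5), ((5, 8), 0, 7)]
  Tb := [((0, 1, 9), 3, 1, 8), ((1, 0, 2), 1, 3, 4), ((2, 1, 10), 4, 1, 9), ((3, 4, 10), 0, 2,
    9), ((4, 3, 7), 2, 0, 6), ((5, 6, 8), 0, 5, 7), ((6, 5, 9), 5, 0, 8), ((7, 4, 8), 6, 2,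
    7), ((8, 5, 7), 7, 0, 6), ((9, 0, 6), 8, 3, 5), ((10, 2, 3), 9, 4, 0)]
  Tc := [(0, 1, 3), (0, 1, 8), (0, 3, 8), (1, 0, 9)]
  Td := [((0, 1), (3, 4), 2), ((0, 1), (3, 10), 9), ((0, 1), (5, 6), 5), ((0, 1), (5, 8), 7),
    ((0, 3), (3, 4), 2), ((0, 3), (3, 10), 9), ((0, 3), (5, 6), 5), ((0, 3), (5, 8), 7), ((0,
    8), (3, 4), 2), ((0, 8), (3, 10), 9), ((0, 8), (5, 6), 5), ((0, 8), (5, 8), 7), ((1, 0),
    (1, 0), 3), ((1, 0), (1, 2), 4), ((1, 9), (1, 0), 3), ((1, 9), (1, 2), 4), ((2, 7), (4,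
    3), 0), ((2, 7), (4, 7), 6), ((3, 0), (0, 1), 1), ((3, 0), (0, 9), 8), ((7, 2), (8, 5),
    0), ((7, 2), (8, 7), 6), ((8, 0), (9, 0), 3), ((8, 0), (9, 6), 5), ((9, 1), (10, 2), 4),
    ((9, 1), (10, 3), 0)]
  G := [[0, 0x1114112111cc1128111112ccc2112111c4112111c8621128112111cc11148c2e,
    0xe11c116246114a118c6118a112c9c1,
    0x2114461413212412d45712211ca1a138129c21281e13c89c41613212412d4616137125a11a12ccc211a1813c81c8121844d,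
    0x214211ac11c14aa611e1815814b616156149a946141614c11aa61415221a15814214ba5212158881a15814389cc],
    [0, 0x11284111112c1111129ca411144112111c811284e21111c11258111112c4c2e, 0,
    0x1131c8442298848c2111c8421484c8211744131d8333729c2234222729452122f2122f1872117112ba5818111b287223221ba58ccd,
    0x218181111381992138ac424411414614519aa42121a281c325282323fe111d43a191fa5a712da55795569a2131812e2294311bb91a93349ac4d]]

noncomputable def n3514 : Ent := ⟨e3514, noF, [], [], []⟩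

def c3514 : PLift (Cov.check n3514.C.D v3514 = true) := ⟨by decide +kernel⟩

def b3514 : PLift (entF (fidx ts) 400 3514 n3514 = true) := ⟨by decide +kernel⟩

theorem g3514 : GoodF (fidx ts) 400 3514 := GoodF.ofV v3514 n3514 c3514.down b3514.down

/-- 46494665:2678/1 -/
noncomputable def e3515 : SCfg where
  D := {
    a := 8
    L := 10
    kp := 8
    inn := [(0, 1), (0, 5), (1, 0), (1, 2), (1, 3), (1, 5), (1, 6), (2, 1), (2, 6), (3, 1), (3, 4), (3,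
      5), (3, 6), (3, 7), (4, 3), (4, 7), (5, 0), (5, 1), (5, 3), (6, 1), (6, 2), (6, 3), (7, 3),
      (7, 4)]
    mix := [(0, 0), (0, 1), (1, 1), (2, 1), (2, 2), (3, 3), (3, 4), (3, 5), (3, 6), (4, 4), (4, 7), (5,
      0), (5, 6), (5, 8), (6, 2), (6, 3), (6, 9), (7, 3), (7, 7), (7, 9)]
    cl := [2, 0, 5, 3, 3, 7, 4, 6, 8, 1]
    chq := [(0, 1), (0, 4), (0, 8), (1, 0), (1, 4), (1, 7), (4, 0), (4, 1), (7, 1), (8, 0)]
    rng := [(0, 1), (0, 8), (1, 0), (1, 2), (2, 1), (2, 9), (3, 9), (4, 5), (4, 7), (5, 4), (5, 6), (6,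
      5), (6, 8), (7, 4), (7, 9), (8, 0), (8, 6), (9, 2), (9, 3), (9, 7)]
    lev := [] }
  links := [[1, 5, 8, 9], [5, 0, 9, 2, 6, 3], [6, 1, 9, 10], [5, 1, 6, 11, 7, 4, 12, 13, 14], [12, 3, 7,
    15], [8, 0, 1, 3, 14, 16], [11, 3, 1, 2, 10, 17], [15, 4, 3, 11, 17]]
  P := {
    a := 8
    N := 18
    nb := [802, 621, 1602, 30962, 37000, 82187, 134158, 165912, 66081, 1287, 131652, 131272, 40984,
      20488, 73768, 135312, 16672, 36032]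
    tri := [(0, 1, 5), (0, 1, 9), (0, 5, 8), (0, 8, 9), (1, 2, 6), (1, 2, 9), (1, 3, 5), (1, 3, 6), (2,
      6, 10), (2, 9, 10), (3, 4, 7), (3, 4, 12), (3, 5, 14), (3, 6, 11), (3, 7, 11), (3, 12, 13),
      (3, 13, 14), (4, 7, 15), (4, 12, 15), (5, 8, 16), (5, 14, 16), (6, 10, 17), (6, 11, 17), (7,
      11, 17), (7, 15, 17)]
    fin := [0, 1, 1, 3, 4, 1, 3, 4, 0, 1, 10, 4, 4, 13, 14, 15, 16, 3]
    chd := [(1, 3), (1, 14), (1, 16), (13, 3), (14, 3)]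
    steps := [(0, 8), (1, 2), (1, 5), (1, 9), (3, 6), (4, 7), (4, 11), (3, 17), (4, 12)] }
  rep := [1, 3, 0, 4, 14, 10, 15, 13, 16]

noncomputable def v3515 : Cov.CovD where
  P := 3
  N := 6
  pl := [0, 2, 7]
  lev := [⟨[], [], [], [2], [(1, 0, [1, 4, 8])]⟩,
    ⟨[], [(0, 0)], [], [], [(1, 0, [1, 4, 8])]⟩,
    ⟨[(0, 1)], [(0, 0), (1, 0)], [], [5], [(1, 0, [1, 4, 8])]⟩,
    ⟨[(0, 1), (1, 2)], [(1, 0), (1, 3), (1, 4), (1, 7)], [(3, 3), (3, 4), (3, 7), (4, 7)],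
      [], [(3, 3, []), (4, 3, []), (5, 7, [1]), (6, 4, [0, 1])]⟩,
    ⟨[(1, 3)], [(3, 3), (3, 4), (3, 7)], [], [6], [(4, 3, [])]⟩,
    ⟨[(0, 1), (0, 3), (1, 2), (1, 3), (3, 4)], [(0, 0), (0, 4), (0, 8), (1, 0), (1, 4), (1,
      8), (3, 3), (3, 4), (3, 7), (3, 8)], [(4, 8)], [2], [(6, 4, [0, 1]), (8, 8, [0])]⟩,
    ⟨[(0, 1), (1, 2), (1, 3), (1, 5), (2, 3), (3, 4), (3, 5)], [(1, 0), (1, 1), (1, 3), (2,
      0), (2, 1), (2, 3), (3, 1), (3, 3), (3, 4), (3, 7)], [(1, 3)], [5], [(3, 3, []), (9, 1,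
      [0, 4, 7])]⟩,
    ⟨[(1, 3), (3, 4), (3, 5), (3, 6)], [(3, 1), (3, 3), (3, 4), (3, 7), (4, 1), (4, 3), (6,
      1), (6, 3)], [(1, 3)], [6], [(3, 3, []), (9, 1, [0, 4, 7])]⟩]
  Ta := [((3, 9), 3, 1), ((4, 5), 3, 7), ((4, 7), 3, 6)]
  Tb := [((0, 1, 8), 2, 0, 8), ((1, 0, 2), 0, 2, 5), ((2, 1, 9), 5, 0, 1), ((4, 5, 7), 3, 7, 6),
    ((5, 4, 6), 7, 3, 4), ((6, 5, 8), 4, 7, 8), ((7, 4, 9), 6, 3, 1), ((8, 0, 6), 8, 2, 4),
    ((9, 2, 3), 1, 5, 3), ((9, 2, 7), 1, 5, 6), ((9, 3, 7), 1, 3, 6)]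
  Tc := [(0, 1, 4), (0, 1, 8), (0, 4, 8), (1, 0, 4), (1, 0, 7), (1, 4, 7), (4, 0, 1)]
  Td := [((0, 1), (1, 0), 2), ((0, 1), (1, 2), 5), ((0, 4), (1, 0), 2), ((0, 4), (1, 2), 5), ((0,
    8), (1, 0), 2), ((0, 8), (1, 2), 5), ((1, 0), (9, 2), 5), ((1, 0), (9, 3), 3), ((1, 0),
    (9, 7), 6), ((1, 4), (9, 2), 5), ((1, 4), (9, 3), 3), ((1, 4), (9, 7), 6), ((1, 7), (9,
    2), 5), ((1, 7), (9, 3), 3), ((1, 7), (9, 7), 6), ((4, 0), (6, 5), 7), ((4, 0), (6, 8),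
    8), ((4, 1), (6, 5), 7), ((4, 1), (6, 8), 8), ((7, 1), (5, 4), 3), ((7, 1), (5, 6), 4),
    ((8, 0), (8, 0), 2), ((8, 0), (8, 6), 4)]
  G := [[0, 0x8a2e164ee1c1128,
    0x9488648549544e112d25122c1c16815c19c81de58181a1e414161ec7684984198925191a28238ac24218141122c69c286,
    0x814d1581c8818348511151399912485181515c1c14ccd2fa48,
    0x48519151529c51246849151919248c11113c1ccc329ac8], [0, 0x88c144c122a1e1128,
    0x8124144a91c1c112f24122c122818188e414141e111111edc122f6812282c4,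
    0xc1122889144911191d2a44, 0x441c116288914111151d2682]]

noncomputable def n3515 : Ent := ⟨e3515, noF, [], [], []⟩

def c3515 : PLift (Cov.check n3515.C.D v3515 = true) := ⟨by decide +kernel⟩

def b3515 : PLift (entF (fidx ts) 400 3515 n3515 = true) := ⟨by decide +kernel⟩

theorem g3515 : GoodF (fidx ts) 400 3515 := GoodF.ofV v3515 n3515 c3515.down b3515.down

/-- 46494665:2678 -/
noncomputable def e3516 : SCfg where
  D := {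
    a := 8
    L := 11
    kp := 9
    inn := [(0, 1), (0, 5), (1, 0), (1, 2), (1, 3), (1, 5), (1, 6), (2, 1), (2, 6), (3, 1), (3, 4), (3,
      5), (3, 6), (3, 7), (4, 3), (4, 7), (5, 0), (5, 1), (5, 3), (6, 1), (6, 2), (6, 3), (7, 3),
      (7, 4)]
    mix := [(0, 0), (0, 1), (1, 1), (2, 1), (2, 2), (3, 3), (3, 4), (3, 5), (3, 6), (4, 4), (4, 7), (5,
      0), (5, 6), (5, 8), (6, 2), (6, 3), (6, 9), (7, 3), (7, 7), (7, 10)]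
    cl := [2, 1, 3, 0, 4, 7, 0, 5, 8, 9, 6]
    chq := [(0, 1), (0, 2), (0, 3), (1, 0), (2, 0), (3, 0), (4, 6), (6, 4), (6, 7), (7, 6)]
    rng := [(0, 1), (0, 8), (1, 0), (1, 2), (2, 1), (2, 9), (3, 9), (3, 10), (4, 5), (4, 7), (5, 4),
      (5, 6), (6, 5), (6, 8), (7, 4), (7, 10), (8, 0), (8, 6), (9, 2), (9, 3), (10, 3), (10, 7)]
    lev := [] }
  links := [[1, 5, 8, 9], [5, 0, 9, 2, 6, 3], [6, 1, 9, 10], [5, 1, 6, 11, 7, 4, 12, 13, 14], [12, 3, 7,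
    15], [8, 0, 1, 3, 14, 16], [11, 3, 1, 2, 10, 17], [15, 4, 3, 11, 18]]
  P := {
    a := 8
    N := 19
    nb := [802, 621, 1602, 30962, 37000, 82187, 134158, 296984, 66081, 1287, 131652, 393416, 40984,
      20488, 73768, 266384, 16672, 3136, 34944]
    tri := [(0, 1, 5), (0, 1, 9), (0, 5, 8), (0, 8, 9), (1, 2, 6), (1, 2, 9), (1, 3, 5), (1, 3, 6), (2,
      6, 10), (2, 9, 10), (3, 4, 7), (3, 4, 12), (3, 5, 14), (3, 6, 11), (3, 7, 11), (3, 12, 13),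
      (3, 13, 14), (4, 7, 15), (4, 12, 15), (5, 8, 16), (5, 14, 16), (6, 10, 17), (6, 11, 17), (7,
      11, 18), (7, 15, 18)]
    fin := [0, 1, 2, 3, 3, 1, 1, 3, 0, 2, 10, 1, 12, 13, 1, 15, 16, 17, 3]
    chd := [(0, 1), (2, 1), (10, 1), (12, 3), (13, 3)]
    steps := [(0, 8), (1, 5), (1, 6), (1, 11), (1, 14), (2, 9), (3, 4), (3, 7), (3, 18)] }
  rep := [1, 2, 0, 10, 12, 15, 3, 13, 16, 17]

noncomputable def v3516 : Cov.CovD where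
  P := 3
  N := 7
  pl := [7, 8, 9]
  lev := [⟨[], [], [(1, 2)], [], [(0, 2, [0]), (1, 1, [0])]⟩,
    ⟨[], [(0, 1), (0, 2)], [], [], [(1, 1, [0])]⟩,
    ⟨[(0, 1)], [(0, 1), (1, 1), (1, 3)], [(1, 3)], [], [(1, 1, [0]), (2, 3, [0])]⟩,
    ⟨[(0, 1), (1, 2)], [(1, 0), (1, 1), (1, 4), (1, 7)], [(0, 0), (0, 4), (0, 7), (4, 7)],
      [], [(3, 0, [1, 2, 3]), (4, 4, [6]), (5, 7, [6]), (6, 0, [1, 2, 3])]⟩,
    ⟨[(1, 3)], [(3, 0), (3, 4), (3, 7)], [], [5], [(4, 4, [6])]⟩,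
    ⟨[(0, 1), (0, 3), (1, 2), (1, 3), (3, 4)], [(0, 0), (0, 1), (0, 2), (1, 0), (1, 1), (1,
      2), (3, 0), (3, 2), (3, 4), (3, 7)], [(0, 2)], [8], [(0, 2, [0]), (6, 0, [1, 2, 3])]⟩,
    ⟨[(0, 1), (1, 2), (1, 3), (1, 5), (2, 3), (3, 4), (3, 5)], [(1, 0), (1, 1), (1, 3), (2,
      0), (2, 1), (2, 3), (3, 0), (3, 3), (3, 4), (3, 7)], [(0, 3)], [9], [(2, 3, [0]), (3,
      0, [1, 2, 3])]⟩,
    ⟨[(1, 3), (3, 4), (3, 5), (3, 6)], [(3, 0), (3, 4), (3, 6), (3, 7), (4, 0), (4, 4), (4,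
      6), (6, 0)], [(0, 6)], [5], [(3, 0, [1, 2, 3]), (10, 6, [4, 7])]⟩]
  Ta := [((3, 9), 0, 9), ((3, 10), 0, 6), ((6, 5), 0, 7), ((6, 8), 0, 8)]
  Tb := [((0, 1, 8), 2, 1, 8), ((1, 0, 2), 1, 2, 3), ((2, 1, 9), 3, 1, 9), ((3, 9, 10), 0, 9, 6),
    ((4, 5, 7), 4, 7, 5), ((5, 4, 6), 7, 4, 0), ((6, 5, 8), 0, 7, 8), ((7, 4, 10), 5, 4, 6),
    ((8, 0, 6), 8, 2, 0), ((9, 2, 3), 9, 3, 0), ((10, 3, 7), 6, 0, 5)]
  Tc := [(0, 1, 2), (0, 1, 3), (0, 2, 3), (6, 4, 7)]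
  Td := [((0, 1), (3, 9), 9), ((0, 1), (3, 10), 6), ((0, 1), (6, 5), 7), ((0, 1), (6, 8), 8),
    ((0, 2), (3, 9), 9), ((0, 2), (3, 10), 6), ((0, 2), (6, 5), 7), ((0, 2), (6, 8), 8), ((0,
    3), (3, 9), 9), ((0, 3), (3, 10), 6), ((0, 3), (6, 5), 7), ((0, 3), (6, 8), 8), ((1, 0),
    (1, 0), 2), ((1, 0), (1, 2), 3), ((2, 0), (0, 1), 1), ((2, 0), (0, 8), 8), ((3, 0), (2,
    1), 1), ((3, 0), (2, 9), 9), ((4, 6), (4, 5), 7), ((4, 6), (4, 7), 5), ((6, 4), (10, 3),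
    0), ((6, 4), (10, 7), 5), ((6, 7), (10, 3), 0), ((6, 7), (10, 7), 5), ((7, 6), (5, 4),
    4), ((7, 6), (5, 6), 0)]
  G := [[0, 0x6118c114113a6112116811411811baa6111a118115ca1181154664,
    0x216164121698121a1c182e84a124c14c1441416762161641216616167a1a1a81881276181c412c1c1c814fe1168228c4d3884489c,
    0x66612661666178ac1a8a1ae612a2e1fcc61821c4c188ce1fe1481681681781c4,
    0x8861841a41b416c4e122ae1666e17a812aa1aaa1bc84e166ce1ccce1de1c8], [0,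
    0xc11224111121a11518514113ec611411aa1148111e211611ca11811acaa4,
    0x814212a1816dc12c14a641416216166161678121a21a1a8181adc14418c141c812fec2161641a1641216d2182c188141a5e8c1,
    0x214214a14b414944144e6244131638ac2282489aca86aaacfc52182186187862422632ac55644ac66668cf444e82c469e82c8858cccce8cacfa9288188288e434488cd1,
    0x2121a8181a549211aa1289aa695655ca8249ca4488c68f652186141a61874121881ac8881cccdafa412812c12d2336232624aa2468666644eaf3822aa888a2a8bcdc1]]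

noncomputable def n3516 : Ent := ⟨e3516, noF, [], [], [(17, 18, [30043303427623734937691929578474300150491519007939870628445900451935399937, 0])]⟩

def c3516 : PLift (Cov.check n3516.C.D v3516 = true) := ⟨by decide +kernel⟩

def b3516 : PLift (entF (fidx ts) 400 3516 n3516 = true) := ⟨by decide +kernel⟩

theorem g3516 : GoodF (fidx ts) 400 3516 := GoodF.ofV v3516 n3516 c3516.down b3516.down

/-- 46469464:2686/1 -/
noncomputable def e3517 : SCfg where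
  D := {
    a := 8
    L := 10
    kp := 8
    inn := [(0, 1), (0, 3), (0, 4), (1, 0), (1, 2), (1, 4), (1, 5), (2, 1), (2, 4), (3, 0), (3, 4), (3,
      6), (4, 0), (4, 1), (4, 2), (4, 3), (4, 6), (4, 7), (5, 1), (6, 3), (6, 4), (7, 4)]
    mix := [(0, 0), (1, 0), (1, 1), (2, 1), (2, 2), (3, 0), (3, 3), (3, 4), (4, 2), (4, 5), (4, 6), (5,
      0), (5, 1), (5, 3), (6, 4), (6, 5), (6, 7), (6, 8), (7, 2), (7, 6), (7, 9)]
    cl := [1, 2, 0, 4, 3, 0, 5, 6, 7, 8]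
    chq := [(0, 1), (1, 0), (1, 2), (1, 3), (1, 6), (1, 7), (2, 1), (3, 1), (6, 1), (7, 1)]
    rng := [(0, 3), (1, 2), (1, 3), (2, 1), (2, 9), (3, 0), (3, 1), (3, 4), (4, 3), (4, 7), (5, 6), (5,
      8), (6, 5), (6, 9), (7, 4), (7, 8), (8, 5), (8, 7), (9, 2), (9, 6)]
    lev := [] }
  links := [[1, 8, 3, 4], [8, 0, 4, 2, 9, 5], [9, 1, 4, 10], [4, 0, 8, 11, 12, 6], [10, 2, 1, 0, 3, 6,
    13, 14, 7], [8, 1, 9, 11], [13, 4, 3, 12, 15, 16], [10, 4, 14, 17]]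
  P := {
    a := 8
    N := 18
    nb := [282, 821, 1554, 6481, 25807, 2818, 110616, 148496, 2091, 3110, 131732, 4904, 34888, 82000,
      139408, 69696, 41024, 17536]
    tri := [(0, 1, 4), (0, 1, 8), (0, 3, 4), (0, 3, 8), (1, 2, 4), (1, 2, 9), (1, 5, 8), (1, 5, 9), (2,
      4, 10), (2, 9, 10), (3, 4, 6), (3, 6, 12), (3, 8, 11), (3, 11, 12), (4, 6, 13), (4, 7, 10),
      (4, 7, 14), (4, 13, 14), (5, 8, 11), (5, 9, 11), (6, 12, 15), (6, 13, 16), (6, 15, 16), (7,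
      10, 17), (7, 14, 17)]
    fin := [0, 0, 0, 0, 4, 0, 0, 4, 0, 9, 4, 11, 12, 4, 14, 15, 16, 17]
    chd := [(0, 4), (0, 9), (0, 12), (0, 15), (0, 16)]
    steps := [(0, 1), (0, 2), (0, 3), (0, 6), (0, 8), (0, 5), (4, 7), (4, 13), (4, 10)] }
  rep := [4, 0, 9, 12, 11, 14, 15, 16, 17]

noncomputable def v3517 : Cov.CovD where
  P := 3
  N := 6
  pl := [3, 6, 9]
  lev := [⟨[], [], [], [], [(0, 1, [0, 2, 3, 6, 7])]⟩,
    ⟨[], [(0, 1), (0, 2)], [(1, 2)], [], [(0, 1, [0, 2, 3, 6, 7]), (1, 2, [1])]⟩,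
    ⟨[(0, 1)], [(1, 0), (1, 1), (1, 2)], [(0, 2)], [], [(1, 2, [1]), (2, 0, [1])]⟩,
    ⟨[(0, 1)], [(0, 1), (0, 3), (1, 1)], [(1, 3)], [4], [(0, 1, [0, 2, 3, 6, 7]), (4, 3,
      [1])]⟩,
    ⟨[(0, 1), (0, 2), (0, 3), (1, 2), (1, 3), (2, 3)], [(0, 0), (0, 1), (1, 0), (1, 1), (1,
      2), (2, 0), (2, 2), (3, 0), (3, 1), (3, 3)], [(0, 0)], [5], [(2, 0, [1]), (5, 0, [1])]⟩,
    ⟨[(0, 1), (1, 2), (1, 4)], [(0, 1), (1, 1), (1, 2), (2, 2), (3, 1)], [(1, 2)], [4],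
      [(0, 1, [0, 2, 3, 6, 7]), (1, 2, [1])]⟩,
    ⟨[(0, 3), (0, 4), (1, 4), (2, 4), (3, 4)], [(3, 0), (3, 1), (3, 3), (3, 6), (3, 7), (4,
      0), (4, 3), (4, 6), (4, 7)], [(0, 3), (0, 6), (0, 7), (3, 6), (3, 7), (6, 7)], [], [(4,
      3, [1]), (5, 0, [1]), (7, 6, [1]), (8, 7, [1])]⟩,
    ⟨[(0, 4), (1, 4), (2, 4), (3, 4), (4, 6)], [(2, 0), (4, 0)], [], [5, 8], [(2, 0, [1])]⟩]
  Ta := [((2, 1), 0, 2), ((2, 9), 0, 8), ((5, 6), 0, 5), ((5, 8), 0, 7)]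
  Tb := [((1, 2, 3), 2, 0, 4), ((2, 1, 9), 0, 2, 8), ((3, 0, 1), 4, 1, 2), ((3, 0, 4), 4, 1, 3),
    ((3, 1, 4), 4, 2, 3), ((4, 3, 7), 3, 4, 6), ((5, 6, 8), 0, 5, 7), ((6, 5, 9), 5, 0, 8),
    ((7, 4, 8), 6, 3, 7), ((8, 5, 7), 7, 0, 6), ((9, 2, 6), 8, 0, 5)]
  Tc := [(1, 0, 2), (1, 0, 3), (1, 0, 6), (1, 0, 7), (1, 2, 3), (1, 2, 6), (1, 2, 7), (1, 3, 6),
    (1, 3, 7), (1, 6, 7)]
  Td := [((0, 1), (2, 1), 2), ((0, 1), (2, 9), 8), ((0, 1), (5, 6), 5), ((0, 1), (5, 8), 7), ((1,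
    0), (0, 3), 4), ((1, 2), (0, 3), 4), ((1, 3), (0, 3), 4), ((1, 6), (0, 3), 4), ((1, 7),
    (0, 3), 4), ((2, 1), (1, 2), 0), ((2, 1), (1, 3), 4), ((3, 1), (4, 3), 4), ((3, 1), (4,
    7), 6), ((6, 1), (7, 4), 3), ((6, 1), (7, 8), 7), ((7, 1), (8, 5), 0), ((7, 1), (8, 7),
    6)]
  G := [[0, 0x11111161111116a114111a4c84, 0x42424e28422444c466262c4da228888e8aa2889e248a24856c1,
    0x228e28ce24224ca21621cd214242482828c43,
    0xe288838496222294447444e966214d81228888ae2e298a218d21c], [0,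
    0x1111116114114a111111ce482, 0, 0x128d28a324524a921521ad414,
    0x7272912129a4328928ca21121c9a112244815]]

noncomputable def n3517 : Ent := ⟨e3517, noF, [], [], []⟩

def c3517 : PLift (Cov.check n3517.C.D v3517 = true) := ⟨by decide +kernel⟩

def b3517 : PLift (entF (fidx ts) 400 3517 n3517 = true) := ⟨by decide +kernel⟩

theorem g3517 : GoodF (fidx ts) 400 3517 := GoodF.ofV v3517 n3517 c3517.down b3517.down

/-- 46469464:2686/2 -/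
noncomputable def e3518 : SCfg where
  D := {
    a := 8
    L := 10
    kp := 8
    inn := [(0, 1), (0, 3), (0, 4), (1, 0), (1, 2), (1, 4), (1, 5), (2, 1), (2, 4), (3, 0), (3, 4), (3,
      6), (4, 0), (4, 1), (4, 2), (4, 3), (4, 6), (4, 7), (5, 1), (6, 3), (6, 4), (7, 4)]
    mix := [(0, 0), (1, 0), (1, 1), (2, 1), (2, 2), (3, 0), (3, 3), (3, 4), (4, 2), (4, 5), (4, 6), (5,
      0), (5, 1), (5, 7), (6, 4), (6, 5), (6, 8), (6, 9), (7, 2), (7, 6), (7, 7)]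
    cl := [1, 3, 0, 8, 4, 0, 2, 5, 6, 7]
    chq := [(0, 1), (1, 0), (1, 3), (1, 4), (1, 6), (1, 7), (3, 1), (4, 1), (6, 1), (7, 1)]
    rng := [(0, 3), (0, 7), (1, 2), (1, 7), (2, 1), (2, 7), (3, 0), (3, 4), (4, 3), (4, 8), (5, 6), (5,
      9), (6, 5), (6, 7), (7, 0), (7, 1), (7, 2), (7, 6), (8, 4), (8, 9), (9, 5), (9, 8)]
    lev := [] }
  links := [[1, 8, 3, 4], [8, 0, 4, 2, 9, 5], [9, 1, 4, 10], [4, 0, 8, 11, 12, 6], [10, 2, 1, 0, 3, 6,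
    13, 14, 7], [8, 1, 9, 15], [13, 4, 3, 12, 16, 17], [10, 4, 14, 15]]
  P := {
    a := 8
    N := 18
    nb := [282, 821, 1554, 6481, 25807, 33538, 208920, 50192, 34859, 33830, 33428, 4360, 67656,
      147536, 41104, 18336, 135232, 73792]
    tri := [(0, 1, 4), (0, 1, 8), (0, 3, 4), (0, 3, 8), (1, 2, 4), (1, 2, 9), (1, 5, 8), (1, 5, 9), (2,
      4, 10), (2, 9, 10), (3, 4, 6), (3, 6, 12), (3, 8, 11), (3, 11, 12), (4, 6, 13), (4, 7, 10),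
      (4, 7, 14), (4, 13, 14), (5, 8, 15), (5, 9, 15), (6, 12, 16), (6, 13, 17), (6, 16, 17), (7,
      10, 15), (7, 14, 15)]
    fin := [0, 0, 0, 0, 4, 0, 0, 4, 0, 9, 4, 11, 12, 4, 14, 15, 16, 17]
    chd := [(0, 4), (0, 9), (0, 12), (0, 16), (0, 17)]
    steps := [(0, 1), (0, 2), (0, 3), (0, 5), (0, 6), (0, 8), (4, 7), (4, 13), (4, 10)] }
  rep := [4, 0, 14, 9, 12, 15, 16, 17, 11]

noncomputable def v3518 : Cov.CovD where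
  P := 3
  N := 6
  pl := [3, 6, 7]
  lev := [⟨[], [], [], [], [(0, 1, [0, 3, 4, 6, 7])]⟩,
    ⟨[], [(0, 1), (0, 3)], [(1, 3)], [], [(0, 1, [0, 3, 4, 6, 7]), (1, 3, [1])]⟩,
    ⟨[(0, 1)], [(1, 0), (1, 1), (1, 3)], [(0, 3)], [], [(1, 3, [1]), (2, 0, [1])]⟩,
    ⟨[(0, 1)], [(0, 1), (0, 4), (1, 1)], [(1, 4)], [8], [(0, 1, [0, 3, 4, 6, 7]), (4, 4,
      [1])]⟩,
    ⟨[(0, 1), (0, 2), (0, 3), (1, 2), (1, 3), (2, 3)], [(0, 0), (0, 1), (1, 0), (1, 1), (1,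
      3), (2, 0), (2, 3), (3, 0), (3, 1), (3, 4)], [(0, 0)], [2], [(2, 0, [1]), (5, 0, [1])]⟩,
    ⟨[(0, 1), (1, 2), (1, 4)], [(0, 1), (1, 1), (1, 3), (2, 3), (3, 1)], [(1, 3)], [5],
      [(0, 1, [0, 3, 4, 6, 7]), (1, 3, [1])]⟩,
    ⟨[(0, 3), (0, 4), (1, 4), (2, 4), (3, 4)], [(3, 0), (3, 1), (3, 4), (3, 6), (3, 7), (4,
      0), (4, 4), (4, 6), (4, 7)], [(0, 4), (0, 6), (0, 7), (4, 6), (4, 7), (6, 7)], [], [(4,
      4, [1]), (5, 0, [1]), (8, 6, [1]), (9, 7, [1])]⟩,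
    ⟨[(0, 4), (1, 4), (2, 4), (3, 4), (4, 6)], [(2, 0), (4, 0)], [], [2, 5], [(2, 0, [1])]⟩]
  Ta := [((2, 1), 0, 3), ((2, 7), 0, 5), ((5, 6), 0, 2), ((5, 9), 0, 7)]
  Tb := [((0, 3, 7), 1, 8, 5), ((1, 2, 7), 3, 0, 5), ((2, 1, 7), 0, 3, 5), ((3, 0, 4), 8, 1, 4),
    ((4, 3, 8), 4, 8, 6), ((5, 6, 9), 0, 2, 7), ((6, 5, 7), 2, 0, 5), ((7, 0, 1), 5, 1, 3),
    ((7, 0, 2), 5, 1, 0), ((7, 0, 6), 5, 1, 2), ((7, 1, 2), 5, 3, 0), ((7, 1, 6), 5, 3, 2),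
    ((7, 2, 6), 5, 0, 2), ((8, 4, 9), 6, 4, 7), ((9, 5, 8), 7, 0, 6)]
  Tc := [(1, 0, 3), (1, 0, 4), (1, 0, 6), (1, 0, 7), (1, 3, 4), (1, 3, 6), (1, 3, 7), (1, 4, 6),
    (1, 4, 7), (1, 6, 7)]
  Td := [((0, 1), (2, 1), 3), ((0, 1), (2, 7), 5), ((0, 1), (5, 6), 2), ((0, 1), (5, 9), 7), ((1,
    0), (0, 3), 8), ((1, 0), (0, 7), 5), ((1, 3), (0, 3), 8), ((1, 3), (0, 7), 5), ((1, 4),
    (0, 3), 8), ((1, 4), (0, 7), 5), ((1, 6), (0, 3), 8), ((1, 6), (0, 7), 5), ((1, 7), (0,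
    3), 8), ((1, 7), (0, 7), 5), ((3, 1), (1, 2), 0), ((3, 1), (1, 7), 5), ((4, 1), (4, 3),
    8), ((4, 1), (4, 8), 6), ((6, 1), (8, 4), 4), ((6, 1), (8, 9), 7), ((7, 1), (9, 5), 0),
    ((7, 1), (9, 8), 6)]
  G := [[0, 0x111411181114e22111411141114e886, 0,
    0x824294421828c824294d2424821c428258428258d2c1,
    0x8212822229822a298822298da182829282222c88222c822a2c8d645], [0,
    0x11148111811186c111411141114e268, 0x6214a2146218d218, 0x121412141218d218,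
    0x121812181218d214]]

noncomputable def n3518 : Ent := ⟨e3518, noF, [], [], []⟩

def c3518 : PLift (Cov.check n3518.C.D v3518 = true) := ⟨by decide +kernel⟩

def b3518 : PLift (entF (fidx ts) 400 3518 n3518 = true) := ⟨by decide +kernel⟩

theorem g3518 : GoodF (fidx ts) 400 3518 := GoodF.ofV v3518 n3518 c3518.down b3518.down

/-- 46469464:2686 -/
noncomputable def e3519 : SCfg where
  D := {
    a := 8
    L := 11
    kp := 9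
    inn := [(0, 1), (0, 3), (0, 4), (1, 0), (1, 2), (1, 4), (1, 5), (2, 1), (2, 4), (3, 0), (3, 4), (3,
      6), (4, 0), (4, 1), (4, 2), (4, 3), (4, 6), (4, 7), (5, 1), (6, 3), (6, 4), (7, 4)]
    mix := [(0, 0), (1, 0), (1, 1), (2, 1), (2, 2), (3, 0), (3, 3), (3, 4), (4, 2), (4, 5), (4, 6), (5,
      0), (5, 1), (5, 7), (6, 4), (6, 5), (6, 8), (6, 9), (7, 2), (7, 6), (7, 10)]
    cl := [1, 3, 0, 7, 4, 0, 2, 8, 5, 6, 9]
    chq := [(0, 1), (1, 0), (1, 3), (1, 4), (1, 5), (1, 6), (3, 1), (4, 1), (5, 1), (6, 1)]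
    rng := [(0, 3), (0, 7), (1, 2), (1, 7), (2, 1), (2, 10), (3, 0), (3, 4), (4, 3), (4, 8), (5, 6),
      (5, 9), (6, 5), (6, 10), (7, 0), (7, 1), (8, 4), (8, 9), (9, 5), (9, 8), (10, 2), (10, 6)]
    lev := [] }
  links := [[1, 8, 3, 4], [8, 0, 4, 2, 9, 5], [9, 1, 4, 10], [4, 0, 8, 11, 12, 6], [10, 2, 1, 0, 3, 6,
    13, 14, 7], [8, 1, 9, 15], [13, 4, 3, 12, 16, 17], [10, 4, 14, 18]]
  P := {
    a := 8
    N := 19
    nb := [282, 821, 1554, 6481, 25807, 33538, 208920, 279568, 34859, 33830, 262804, 4360, 67656,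
      147536, 270480, 800, 135232, 73792, 17536]
    tri := [(0, 1, 4), (0, 1, 8), (0, 3, 4), (0, 3, 8), (1, 2, 4), (1, 2, 9), (1, 5, 8), (1, 5, 9), (2,
      4, 10), (2, 9, 10), (3, 4, 6), (3, 6, 12), (3, 8, 11), (3, 11, 12), (4, 6, 13), (4, 7, 10),
      (4, 7, 14), (4, 13, 14), (5, 8, 15), (5, 9, 15), (6, 12, 16), (6, 13, 17), (6, 16, 17), (7,
      10, 18), (7, 14, 18)]
    fin := [0, 0, 0, 0, 4, 0, 0, 4, 0, 9, 4, 11, 12, 4, 14, 15, 16, 17, 18]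
    chd := [(0, 4), (0, 9), (0, 12), (0, 16), (0, 17)]
    steps := [(0, 1), (0, 2), (0, 3), (0, 5), (0, 6), (0, 8), (4, 7), (4, 13), (4, 10)] }
  rep := [4, 0, 14, 9, 12, 16, 17, 11, 15, 18]

noncomputable def v3519 : Cov.CovD where
  P := 3
  N := 7
  pl := [3, 6, 7, 10]
  lev := [⟨[], [], [], [], [(0, 1, [0, 3, 4, 5, 6])]⟩,
    ⟨[], [(0, 1), (0, 3)], [(1, 3)], [], [(0, 1, [0, 3, 4, 5, 6]), (1, 3, [1])]⟩,
    ⟨[(0, 1)], [(1, 0), (1, 1), (1, 3)], [(0, 3)], [], [(1, 3, [1]), (2, 0, [1])]⟩,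
    ⟨[(0, 1)], [(0, 1), (0, 4), (1, 1)], [(1, 4)], [7], [(0, 1, [0, 3, 4, 5, 6]), (4, 4,
      [1])]⟩,
    ⟨[(0, 1), (0, 2), (0, 3), (1, 2), (1, 3), (2, 3)], [(0, 0), (0, 1), (1, 0), (1, 1), (1,
      3), (2, 0), (2, 3), (3, 0), (3, 1), (3, 4)], [(0, 0)], [2], [(2, 0, [1]), (5, 0, [1])]⟩,
    ⟨[(0, 1), (1, 2), (1, 4)], [(0, 1), (1, 1), (1, 3), (2, 3), (3, 1)], [(1, 3)], [8],
      [(0, 1, [0, 3, 4, 5, 6]), (1, 3, [1])]⟩,
    ⟨[(0, 3), (0, 4), (1, 4), (2, 4), (3, 4)], [(3, 0), (3, 1), (3, 4), (3, 5), (3, 6), (4,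
      0), (4, 4), (4, 5), (4, 6)], [(0, 4), (0, 5), (0, 6), (4, 5), (4, 6), (5, 6)], [], [(4,
      4, [1]), (5, 0, [1]), (8, 5, [1]), (9, 6, [1])]⟩,
    ⟨[(0, 4), (1, 4), (2, 4), (3, 4), (4, 6)], [(2, 0), (4, 0)], [], [2, 9], [(2, 0, [1])]⟩]
  Ta := [((2, 1), 0, 3), ((2, 10), 0, 9), ((5, 6), 0, 2), ((5, 9), 0, 6)]
  Tb := [((0, 3, 7), 1, 7, 8), ((1, 2, 7), 3, 0, 8), ((2, 1, 10), 0, 3, 9), ((3, 0, 4), 7, 1, 4),
    ((4, 3, 8), 4, 7, 5), ((5, 6, 9), 0, 2, 6), ((6, 5, 10), 2, 0, 9), ((7, 0, 1), 8, 1, 3),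
    ((8, 4, 9), 5, 4, 6), ((9, 5, 8), 6, 0, 5), ((10, 2, 6), 9, 0, 2)]
  Tc := [(1, 0, 3), (1, 0, 4), (1, 0, 5), (1, 0, 6), (1, 3, 4), (1, 3, 5), (1, 3, 6), (1, 4, 5),
    (1, 4, 6), (1, 5, 6)]
  Td := [((0, 1), (2, 1), 3), ((0, 1), (2, 10), 9), ((0, 1), (5, 6), 2), ((0, 1), (5, 9), 6),
    ((1, 0), (0, 3), 7), ((1, 0), (0, 7), 8), ((1, 3), (0, 3), 7), ((1, 3), (0, 7), 8), ((1,
    4), (0, 3), 7), ((1, 4), (0, 7), 8), ((1, 5), (0, 3), 7), ((1, 5), (0, 7), 8), ((1, 6),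
    (0, 3), 7), ((1, 6), (0, 7), 8), ((3, 1), (1, 2), 0), ((3, 1), (1, 7), 8), ((4, 1), (4,
    3), 7), ((4, 1), (4, 8), 5), ((5, 1), (8, 4), 4), ((5, 1), (8, 9), 6), ((6, 1), (9, 5),
    0), ((6, 1), (9, 8), 5)]
  G := [[0, 0x11141114a11184c111811181118e2a4, 0,
    0x42182825c42c298421821cd21c282c48284c284d2424842c2c8c248d2c5,
    0x828888f928828252822229888d8aa2a298a2a298de18282c282222c888d2aa2a2c8a2a2c8da45], [0,
    0x111411141114e8111811181118e4c2, 0x62c2c2d4a2a2a2d46262c2d4d218,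
    0x121212d4121212d8121212d8d214, 0x121212d8121212d8121212d8d214]]

noncomputable def n3519 : Ent := ⟨e3519, noF, [], [], [(11, 15, [31810581956861085346069128449376638664080213418021345636276315565302992897, 0]), (18, 15, [30043303743560609943363489672228383201502815964625156830093234214868344833, 0])]⟩

def c3519 : PLift (Cov.check n3519.C.D v3519 = true) := ⟨by decide +kernel⟩

def b3519 : PLift (entF (fidx ts) 400 3519 n3519 = true) := ⟨by decide +kernel⟩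

theorem g3519 : GoodF (fidx ts) 400 3519 := GoodF.ofV v3519 n3519 c3519.down b3519.down

/-- 46479444:2687/2 -/
noncomputable def e3520 : SCfg where
  D := {
    a := 8
    L := 9
    kp := 6
    inn := [(0, 1), (0, 4), (1, 0), (1, 2), (1, 3), (1, 4), (2, 1), (2, 3), (2, 4), (3, 1), (3, 2), (3,
      5), (4, 0), (4, 1), (4, 2), (4, 6), (4, 7), (5, 3), (6, 4), (7, 4)]
    mix := [(0, 0), (0, 1), (1, 0), (1, 2), (2, 3), (3, 2), (3, 3), (3, 4), (3, 5), (4, 1), (4, 3), (4,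
      6), (4, 7), (5, 2), (5, 5), (5, 8), (6, 1), (6, 5), (6, 6), (7, 6), (7, 7), (7, 8)]
    cl := [2, 1, 0, 0, 6, 3, 4, 1, 5]
    chq := [(0, 3), (1, 4), (3, 0), (4, 1)]
    rng := [(0, 1), (0, 2), (1, 0), (1, 5), (2, 0), (2, 8), (3, 4), (3, 7), (4, 3), (4, 5), (5, 1), (5,
      4), (5, 6), (5, 8), (6, 5), (6, 8), (7, 3), (7, 8), (8, 2), (8, 5), (8, 6), (8, 7)]
    lev := [] }
  links := [[1, 8, 9, 4], [8, 0, 4, 2, 3, 10], [3, 1, 4, 11], [10, 1, 2, 11, 12, 13, 5], [11, 2, 1, 0, 9,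
    6, 14, 7, 15], [10, 3, 13, 16], [14, 4, 9, 13], [15, 4, 14, 16]]
  P := {
    a := 8
    N := 17
    nb := [786, 1309, 2074, 15398, 51911, 74760, 25104, 114704, 1539, 8529, 65834, 36892, 10248,
      86632, 73936, 67728, 58528]
    tri := [(0, 1, 4), (0, 1, 8), (0, 4, 9), (0, 8, 9), (1, 2, 3), (1, 2, 4), (1, 3, 10), (1, 8, 10),
      (2, 3, 11), (2, 4, 11), (3, 5, 10), (3, 5, 13), (3, 11, 12), (3, 12, 13), (4, 6, 9), (4, 6,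
      14), (4, 7, 14), (4, 7, 15), (4, 11, 15), (5, 10, 16), (5, 13, 16), (6, 9, 13), (6, 13, 14),
      (7, 14, 16), (7, 15, 16)]
    fin := [0, 1, 1, 3, 4, 3, 4, 4, 0, 4, 1, 1, 12, 3, 14, 4, 16]
    chd := [(1, 3), (4, 14)]
    steps := [(0, 8), (1, 2), (1, 11), (1, 10), (3, 5), (3, 13), (4, 6), (4, 7), (4, 9), (4, 15)] }
  rep := [1, 4, 0, 3, 14, 16, 12]

noncomputable def v3520 : Cov.CovD where
  P := 3
  N := 4
  pl := [0, 4, 8]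
  lev := [⟨[], [], [], [2], [(1, 1, [4])]⟩,
    ⟨[], [(0, 0), (0, 1)], [], [2], [(2, 0, [3])]⟩,
    ⟨[(0, 1)], [(1, 0)], [], [], [(3, 0, [3])]⟩,
    ⟨[(0, 1), (1, 2)], [(1, 0), (1, 3), (2, 0), (2, 3)], [(0, 0), (0, 3)], [6], [(2, 0,
      [3]), (3, 0, [3]), (5, 3, [0])]⟩,
    ⟨[(0, 1), (0, 2), (1, 2), (1, 3), (2, 3)], [(0, 0), (0, 1), (0, 4), (1, 0), (1, 1), (1,
      4), (2, 0), (2, 1), (2, 4), (3, 0)], [(0, 1), (0, 4), (1, 1), (1, 4)], [], [(1, 1,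
      [4]), (3, 0, [3]), (6, 4, [1]), (7, 1, [4])]⟩,
    ⟨[(1, 3), (2, 3)], [(1, 0), (3, 0), (3, 3)], [(0, 3)], [5], [(2, 0, [3]), (5, 3, [0])]⟩,
    ⟨[(0, 4), (1, 4), (2, 4)], [(0, 1), (3, 3), (4, 0), (4, 1), (4, 3), (4, 4), (5, 3)],
      [(1, 3), (1, 4), (3, 4)], [], [(1, 1, [4]), (5, 3, [0]), (6, 4, [1])]⟩,
    ⟨[(0, 4), (1, 4), (2, 4), (4, 6)], [(4, 0), (4, 1), (4, 4), (6, 4)], [(1, 4)], [5],
      [(6, 4, [1]), (7, 1, [4])]⟩]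
  Ta := [((1, 0), 1, 2), ((1, 5), 1, 3), ((2, 0), 0, 2), ((2, 8), 0, 5), ((3, 4), 0, 6), ((3, 7),
    0, 1), ((7, 3), 1, 0), ((7, 8), 1, 5)]
  Tb := [((0, 1, 2), 2, 1, 0), ((1, 0, 5), 1, 2, 3), ((2, 0, 8), 0, 2, 5), ((3, 4, 7), 0, 6, 1),
    ((4, 3, 5), 6, 0, 3), ((5, 1, 4), 3, 1, 6), ((5, 1, 6), 3, 1, 4), ((5, 1, 8), 3, 1, 5),
    ((5, 4, 6), 3, 6, 4), ((5, 4, 8), 3, 6, 5), ((5, 6, 8), 3, 4, 5), ((6, 5, 8), 4, 3, 5),
    ((7, 3, 8), 1, 0, 5), ((8, 2, 5), 5, 0, 3), ((8, 2, 6), 5, 0, 4), ((8, 2, 7), 5, 0, 1),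
    ((8, 5, 6), 5, 3, 4), ((8, 5, 7), 5, 3, 1), ((8, 6, 7), 5, 4, 1)]
  Tc := []
  Td := [((0, 3), (2, 0), 2), ((0, 3), (2, 8), 5), ((0, 3), (3, 4), 6), ((0, 3), (3, 7), 1), ((1,
    4), (1, 0), 2), ((1, 4), (1, 5), 3), ((1, 4), (7, 3), 0), ((1, 4), (7, 8), 5), ((3, 0),
    (5, 1), 1), ((3, 0), (5, 4), 6), ((3, 0), (5, 6), 4), ((3, 0), (5, 8), 5), ((4, 1), (6,
    5), 3), ((4, 1), (6, 8), 5)]
  G := [[0, 0, 0x112196421225225e8292111ec21522192ce12828c2428a982c4,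
    0x242442229228252128c22522292c23c8, 0x23522a92c24112828e244151ec2842581e214124ecc1a1],
    [0, 0, 0x1211813e421224416116922444dca8258a42898288a824136823c4, 0,
    0x11442946c5124242d2ec618192488152a428c82288281c8e9a1], [0, 0, 0,
    0x11242152112c1124e2828221d28ac14, 0x22522192c24281111c1128324143cc2a1], [0,
    0x4181546114622114a112c8ce11411aa118a24c, 0, 0,
    0x112111c21424468c2182821191142ac11825424cc623]]

noncomputable def n3520 : Ent := ⟨e3520, noF, [], [], []⟩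

def c3520 : PLift (Cov.check n3520.C.D v3520 = true) := ⟨by decide +kernel⟩

def b3520 : PLift (entF (fidx ts) 400 3520 n3520 = true) := ⟨by decide +kernel⟩

theorem g3520 : GoodF (fidx ts) 400 3520 := GoodF.ofV v3520 n3520 c3520.down b3520.down

/-- 46479444:2687/1 -/
noncomputable def e3521 : SCfg where
  D := {
    a := 8
    L := 10
    kp := 7
    inn := [(0, 1), (0, 4), (1, 0), (1, 2), (1, 3), (1, 4), (2, 1), (2, 3), (2, 4), (3, 1), (3, 2), (3,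
      5), (4, 0), (4, 1), (4, 2), (4, 6), (4, 7), (5, 3), (6, 4), (7, 4)]
    mix := [(0, 0), (0, 1), (1, 0), (1, 2), (2, 3), (3, 2), (3, 3), (3, 4), (3, 5), (4, 1), (4, 3), (4,
      6), (4, 7), (5, 2), (5, 5), (5, 8), (6, 1), (6, 5), (6, 6), (7, 6), (7, 7), (7, 9)]
    cl := [2, 1, 0, 0, 5, 3, 4, 1, 6, 7]
    chq := [(0, 3), (1, 4), (3, 0), (4, 1)]
    rng := [(0, 1), (0, 2), (1, 0), (1, 5), (2, 0), (2, 8), (3, 4), (3, 7), (4, 3), (4, 5), (5, 1), (5,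
      4), (5, 6), (5, 8), (6, 5), (6, 9), (7, 3), (7, 9), (8, 2), (8, 5), (9, 6), (9, 7)]
    lev := [] }
  links := [[1, 8, 9, 4], [8, 0, 4, 2, 3, 10], [3, 1, 4, 11], [10, 1, 2, 11, 12, 13, 5], [11, 2, 1, 0, 9,
    6, 14, 7, 15], [10, 3, 13, 16], [14, 4, 9, 13], [15, 4, 14, 17]]
  P := {
    a := 8
    N := 18
    nb := [786, 1309, 2074, 15398, 51911, 74760, 25104, 180240, 1539, 8529, 65834, 36892, 10248,
      86632, 139472, 133264, 9248, 49280]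
    tri := [(0, 1, 4), (0, 1, 8), (0, 4, 9), (0, 8, 9), (1, 2, 3), (1, 2, 4), (1, 3, 10), (1, 8, 10),
      (2, 3, 11), (2, 4, 11), (3, 5, 10), (3, 5, 13), (3, 11, 12), (3, 12, 13), (4, 6, 9), (4, 6,
      14), (4, 7, 14), (4, 7, 15), (4, 11, 15), (5, 10, 16), (5, 13, 16), (6, 9, 13), (6, 13, 14),
      (7, 14, 17), (7, 15, 17)]
    fin := [0, 1, 1, 3, 4, 3, 4, 4, 0, 4, 1, 1, 12, 3, 14, 4, 16, 17]
    chd := [(1, 3), (4, 14)]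
    steps := [(0, 8), (1, 2), (1, 11), (1, 10), (3, 5), (3, 13), (4, 6), (4, 7), (4, 9), (4, 15)] }
  rep := [1, 4, 0, 3, 14, 12, 16, 17]

noncomputable def v3521 : Cov.CovD where
  P := 3
  N := 5
  pl := [0, 4, 8, 9]
  lev := [⟨[], [], [], [2], [(1, 1, [4])]⟩,
    ⟨[], [(0, 0), (0, 1)], [], [2], [(2, 0, [3])]⟩,
    ⟨[(0, 1)], [(1, 0)], [], [], [(3, 0, [3])]⟩,
    ⟨[(0, 1), (1, 2)], [(1, 0), (1, 3), (2, 0), (2, 3)], [(0, 0), (0, 3)], [5], [(2, 0,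
      [3]), (3, 0, [3]), (5, 3, [0])]⟩,
    ⟨[(0, 1), (0, 2), (1, 2), (1, 3), (2, 3)], [(0, 0), (0, 1), (0, 4), (1, 0), (1, 1), (1,
      4), (2, 0), (2, 1), (2, 4), (3, 0)], [(0, 1), (0, 4), (1, 1), (1, 4)], [], [(1, 1,
      [4]), (3, 0, [3]), (6, 4, [1]), (7, 1, [4])]⟩,
    ⟨[(1, 3), (2, 3)], [(1, 0), (3, 0), (3, 3)], [(0, 3)], [6], [(2, 0, [3]), (5, 3, [0])]⟩,
    ⟨[(0, 4), (1, 4), (2, 4)], [(0, 1), (3, 3), (4, 0), (4, 1), (4, 3), (4, 4), (5, 3)],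
      [(1, 3), (1, 4), (3, 4)], [], [(1, 1, [4]), (5, 3, [0]), (6, 4, [1])]⟩,
    ⟨[(0, 4), (1, 4), (2, 4), (4, 6)], [(4, 0), (4, 1), (4, 4), (6, 4)], [(1, 4)], [7],
      [(6, 4, [1]), (7, 1, [4])]⟩]
  Ta := [((1, 0), 1, 2), ((1, 5), 1, 3), ((2, 0), 0, 2), ((2, 8), 0, 6), ((3, 4), 0, 5), ((3, 7),
    0, 1), ((7, 3), 1, 0), ((7, 9), 1, 7)]
  Tb := [((0, 1, 2), 2, 1, 0), ((1, 0, 5), 1, 2, 3), ((2, 0, 8), 0, 2, 6), ((3, 4, 7), 0, 5, 1),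
    ((4, 3, 5), 5, 0, 3), ((5, 1, 4), 3, 1, 5), ((5, 1, 6), 3, 1, 4), ((5, 1, 8), 3, 1, 6),
    ((5, 4, 6), 3, 5, 4), ((5, 4, 8), 3, 5, 6), ((5, 6, 8), 3, 4, 6), ((6, 5, 9), 4, 3, 7),
    ((7, 3, 9), 1, 0, 7), ((8, 2, 5), 6, 0, 3), ((9, 6, 7), 7, 4, 1)]
  Tc := []
  Td := [((0, 3), (2, 0), 2), ((0, 3), (2, 8), 6), ((0, 3), (3, 4), 5), ((0, 3), (3, 7), 1), ((1,
    4), (1, 0), 2), ((1, 4), (1, 5), 3), ((1, 4), (7, 3), 0), ((1, 4), (7, 9), 7), ((3, 0),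
    (5, 1), 1), ((3, 0), (5, 4), 5), ((3, 0), (5, 6), 4), ((3, 0), (5, 8), 6), ((4, 1), (6,
    5), 3), ((4, 1), (6, 9), 7)]
  G := [[0, 0, 0x212424e4512421e46182891229de821212861ea3921239ec289191e8c26c,
    0x2424642124225e462148492828a82821229e8a2121a42128c6c1,
    0x21224225d6c212891c8398c2682828ea12451ec219121e2424b4ecc6a1], [0, 0,
    0x5124215125152ac5194664c13946c4e1a9192d2e821d282a848179268c16c, 0,
    0x8221248111111e5151c93ec21d292a51459ac91916d2d26ccc2c2c823a9], [0, 0, 0,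
    0x242464229146282828a822518a22121a4212168c25c,
    0x512442161215a4225d5c22838951619c21913241cca29], [0,
    0xa11261126c11446821128c11411ac118aa4c, 0, 0,
    0x514593451415652515c51d294e9292a8828238819158ec21]]

noncomputable def n3521 : Ent := ⟨e3521, noF, [], [], [(17, 16, [7334685537875745012586738086077695515070955365108989538292687708094465, 0])]⟩

def c3521 : PLift (Cov.check n3521.C.D v3521 = true) := ⟨by decide +kernel⟩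

def b3521 : PLift (entF (fidx ts) 400 3521 n3521 = true) := ⟨by decide +kernel⟩

theorem g3521 : GoodF (fidx ts) 400 3521 := GoodF.ofV v3521 n3521 c3521.down b3521.down

/-- 46479444:2687/4 -/
noncomputable def e3522 : SCfg where
  D := {
    a := 8
    L := 9
    kp := 6
    inn := [(0, 1), (0, 4), (1, 0), (1, 2), (1, 3), (1, 4), (2, 1), (2, 3), (2, 4), (3, 1), (3, 2), (3,
      5), (4, 0), (4, 1), (4, 2), (4, 6), (4, 7), (5, 3), (6, 4), (7, 4)]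
    mix := [(0, 0), (0, 1), (1, 0), (1, 2), (2, 3), (3, 2), (3, 3), (3, 4), (3, 5), (4, 1), (4, 3), (4,
      6), (4, 7), (5, 2), (5, 5), (5, 8), (6, 1), (6, 6), (6, 8), (7, 5), (7, 6), (7, 7)]
    cl := [5, 1, 0, 0, 6, 4, 3, 1, 2]
    chq := [(1, 3), (2, 6), (3, 1), (6, 2)]
    rng := [(0, 1), (0, 2), (1, 0), (1, 8), (2, 0), (2, 8), (3, 4), (3, 7), (4, 3), (4, 5), (5, 4), (5,
      6), (5, 7), (5, 8), (6, 5), (6, 8), (7, 3), (7, 5), (8, 1), (8, 2), (8, 5), (8, 6)]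
    lev := [] }
  links := [[1, 8, 9, 4], [8, 0, 4, 2, 3, 10], [3, 1, 4, 11], [10, 1, 2, 11, 12, 13, 5], [11, 2, 1, 0, 9,
    6, 14, 7, 15], [10, 3, 13, 16], [14, 4, 9, 16], [15, 4, 14, 13]]
  P := {
    a := 8
    N := 17
    nb := [786, 1309, 2074, 15398, 51911, 74760, 82448, 57360, 1539, 65873, 65834, 36892, 10248,
      118952, 73936, 10384, 26208]
    tri := [(0, 1, 4), (0, 1, 8), (0, 4, 9), (0, 8, 9), (1, 2, 3), (1, 2, 4), (1, 3, 10), (1, 8, 10),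
      (2, 3, 11), (2, 4, 11), (3, 5, 10), (3, 5, 13), (3, 11, 12), (3, 12, 13), (4, 6, 9), (4, 6,
      14), (4, 7, 14), (4, 7, 15), (4, 11, 15), (5, 10, 16), (5, 13, 16), (6, 9, 16), (6, 14, 16),
      (7, 13, 14), (7, 13, 15)]
    fin := [0, 1, 1, 3, 4, 3, 4, 4, 0, 4, 1, 1, 12, 13, 14, 4, 3]
    chd := [(4, 14), (12, 3)]
    steps := [(0, 8), (1, 2), (1, 11), (1, 10), (3, 5), (3, 16), (4, 6), (4, 7), (4, 9), (4, 15)] }
  rep := [1, 4, 3, 14, 13, 0, 12]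

noncomputable def v3522 : Cov.CovD where
  P := 3
  N := 4
  pl := [0, 5]
  lev := [⟨[], [], [], [5], [(1, 1, [3])]⟩,
    ⟨[], [(0, 0), (0, 1)], [], [5], [(2, 0, [])]⟩,
    ⟨[(0, 1)], [(1, 0)], [], [], [(3, 0, [])]⟩,
    ⟨[(0, 1), (1, 2)], [(1, 0), (1, 6), (2, 0), (2, 6)], [(0, 0), (0, 6)], [4], [(2, 0,
      []), (3, 0, []), (4, 6, [2])]⟩,
    ⟨[(0, 1), (0, 2), (1, 2), (1, 3), (2, 3)], [(0, 0), (0, 1), (0, 3), (1, 0), (1, 1), (1,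
      3), (2, 0), (2, 1), (2, 3), (3, 0)], [(0, 1), (0, 3), (1, 1), (1, 3)], [], [(1, 1,
      [3]), (3, 0, []), (6, 3, [1]), (7, 1, [3])]⟩,
    ⟨[(1, 3), (2, 3)], [(1, 0), (3, 0), (3, 2), (3, 6)], [(0, 2)], [4], [(2, 0, []), (8, 2,
      [6])]⟩,
    ⟨[(0, 4), (1, 4), (2, 4)], [(0, 1), (4, 0), (4, 1), (4, 2), (4, 3), (5, 2)], [(1, 2),
      (1, 3), (2, 3)], [], [(1, 1, [3]), (6, 3, [1]), (8, 2, [6])]⟩,
    ⟨[(0, 4), (1, 4), (2, 4), (4, 6)], [(4, 0), (4, 1), (4, 3), (6, 3)], [(1, 3)], [4],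
      [(6, 3, [1]), (7, 1, [3])]⟩]
  Ta := [((1, 0), 1, 5), ((1, 8), 1, 2), ((2, 0), 0, 5), ((2, 8), 0, 2), ((3, 4), 0, 6), ((3, 7),
    0, 1), ((7, 3), 1, 0), ((7, 5), 1, 4)]
  Tb := [((0, 1, 2), 5, 1, 0), ((1, 0, 8), 1, 5, 2), ((2, 0, 8), 0, 5, 2), ((3, 4, 7), 0, 6, 1),
    ((4, 3, 5), 6, 0, 4), ((5, 4, 6), 4, 6, 3), ((5, 4, 7), 4, 6, 1), ((5, 4, 8), 4, 6, 2),
    ((5, 6, 7), 4, 3, 1), ((5, 6, 8), 4, 3, 2), ((5, 7, 8), 4, 1, 2), ((6, 5, 8), 3, 4, 2),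
    ((7, 3, 5), 1, 0, 4), ((8, 1, 2), 2, 1, 0), ((8, 1, 5), 2, 1, 4), ((8, 1, 6), 2, 1, 3),
    ((8, 2, 5), 2, 0, 4), ((8, 2, 6), 2, 0, 3), ((8, 5, 6), 2, 4, 3)]
  Tc := []
  Td := [((1, 3), (1, 0), 5), ((1, 3), (1, 8), 2), ((1, 3), (7, 3), 0), ((1, 3), (7, 5), 4), ((2,
    6), (8, 1), 1), ((2, 6), (8, 2), 0), ((2, 6), (8, 5), 4), ((2, 6), (8, 6), 3), ((3, 1),
    (6, 5), 4), ((3, 1), (6, 8), 2), ((6, 2), (4, 3), 0), ((6, 2), (4, 5), 4)]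
  G := [[0, 0, 0x14441424618242122c21a8418281828c2288142c284244c1818c8e16d,
    0x2424c8828c52282828c2414cc2129, 0x4492282581984628192482c82984221984282412cca29], [0, 0,
    0x828148c184144c1818c1442cce121, 0,
    0x44a2c28581a846281288a48258a8c22813241124212ac81984e12d], [0, 0, 0, 0x212152424cc2821,
    0x8292482924a282212c4a181914281924282412cca25], [0,
    0x849122112648818448a8141c8a2184c42c182214a441cce81e, 0, 0,
    0x81314281a248211a44a123cca21]]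

noncomputable def n3522 : Ent := ⟨e3522, noF, [], [], []⟩

def c3522 : PLift (Cov.check n3522.C.D v3522 = true) := ⟨by decide +kernel⟩

def b3522 : PLift (entF (fidx ts) 400 3522 n3522 = true) := ⟨by decide +kernel⟩

theorem g3522 : GoodF (fidx ts) 400 3522 := GoodF.ofV v3522 n3522 c3522.down b3522.down

/-- 46479444:2687/3 -/
noncomputable def e3523 : SCfg where
  D := {
    a := 8
    L := 10
    kp := 7
    inn := [(0, 1), (0, 4), (1, 0), (1, 2), (1, 3), (1, 4), (2, 1), (2, 3), (2, 4), (3, 1), (3, 2), (3,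
      5), (4, 0), (4, 1), (4, 2), (4, 6), (4, 7), (5, 3), (6, 4), (7, 4)]
    mix := [(0, 0), (0, 1), (1, 0), (1, 2), (2, 3), (3, 2), (3, 3), (3, 4), (3, 5), (4, 1), (4, 3), (4,
      6), (4, 7), (5, 2), (5, 5), (5, 8), (6, 1), (6, 6), (6, 8), (7, 6), (7, 7), (7, 9)]
    cl := [2, 1, 0, 0, 6, 4, 3, 1, 5, 7]
    chq := [(0, 4), (1, 3), (3, 1), (4, 0)]
    rng := [(0, 1), (0, 2), (1, 0), (1, 8), (2, 0), (2, 8), (3, 4), (3, 7), (4, 3), (4, 5), (5, 4), (5,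
      8), (6, 8), (6, 9), (7, 3), (7, 9), (8, 1), (8, 2), (8, 5), (8, 6), (9, 6), (9, 7)]
    lev := [] }
  links := [[1, 8, 9, 4], [8, 0, 4, 2, 3, 10], [3, 1, 4, 11], [10, 1, 2, 11, 12, 13, 5], [11, 2, 1, 0, 9,
    6, 14, 7, 15], [10, 3, 13, 16], [14, 4, 9, 16], [15, 4, 14, 17]]
  P := {
    a := 8
    N := 18
    nb := [786, 1309, 2074, 15398, 51911, 74760, 82448, 180240, 1539, 65873, 65834, 36892, 10248,
      69672, 196816, 133264, 26208, 49280]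
    tri := [(0, 1, 4), (0, 1, 8), (0, 4, 9), (0, 8, 9), (1, 2, 3), (1, 2, 4), (1, 3, 10), (1, 8, 10),
      (2, 3, 11), (2, 4, 11), (3, 5, 10), (3, 5, 13), (3, 11, 12), (3, 12, 13), (4, 6, 9), (4, 6,
      14), (4, 7, 14), (4, 7, 15), (4, 11, 15), (5, 10, 16), (5, 13, 16), (6, 9, 16), (6, 14, 16),
      (7, 14, 17), (7, 15, 17)]
    fin := [0, 0, 0, 3, 4, 5, 4, 4, 0, 4, 3, 3, 12, 13, 14, 4, 5, 17]
    chd := [(3, 13), (4, 14)]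
    steps := [(0, 1), (0, 2), (0, 8), (3, 11), (3, 10), (4, 6), (4, 7), (4, 9), (4, 15), (5, 16)] }
  rep := [3, 4, 0, 14, 13, 5, 12, 17]

noncomputable def v3523 : Cov.CovD where
  P := 3
  N := 5
  pl := [0, 4, 8, 9]
  lev := [⟨[], [], [], [2], [(1, 1, [3])]⟩,
    ⟨[], [(0, 0), (0, 1)], [], [2], [(2, 0, [4])]⟩,
    ⟨[(0, 1)], [(1, 0)], [], [], [(3, 0, [4])]⟩,
    ⟨[(0, 1), (1, 2)], [(1, 0), (1, 4), (2, 0), (2, 4)], [(0, 0), (0, 4)], [6], [(2, 0,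
      [4]), (3, 0, [4]), (5, 4, [0])]⟩,
    ⟨[(0, 1), (0, 2), (1, 2), (1, 3), (2, 3)], [(0, 0), (0, 1), (0, 3), (1, 0), (1, 1), (1,
      3), (2, 0), (2, 1), (2, 3), (3, 0)], [(0, 1), (0, 3), (1, 1), (1, 3)], [], [(1, 1,
      [3]), (3, 0, [4]), (6, 3, [1]), (7, 1, [3])]⟩,
    ⟨[(1, 3), (2, 3)], [(1, 0), (3, 0), (3, 4)], [(0, 4)], [5], [(2, 0, [4]), (5, 4, [0])]⟩,
    ⟨[(0, 4), (1, 4), (2, 4)], [(0, 1), (4, 0), (4, 1), (4, 3)], [(1, 3)], [5], [(1, 1,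
      [3]), (6, 3, [1])]⟩,
    ⟨[(0, 4), (1, 4), (2, 4), (4, 6)], [(4, 0), (4, 1), (4, 3), (6, 3)], [(1, 3)], [7],
      [(6, 3, [1]), (7, 1, [3])]⟩]
  Ta := [((1, 0), 1, 2), ((1, 8), 1, 5), ((2, 0), 0, 2), ((2, 8), 0, 5), ((3, 4), 0, 6), ((3, 7),
    0, 1), ((7, 3), 1, 0), ((7, 9), 1, 7)]
  Tb := [((0, 1, 2), 2, 1, 0), ((1, 0, 8), 1, 2, 5), ((2, 0, 8), 0, 2, 5), ((3, 4, 7), 0, 6, 1),
    ((4, 3, 5), 6, 0, 4), ((5, 4, 8), 4, 6, 5), ((6, 8, 9), 3, 5, 7), ((7, 3, 9), 1, 0, 7),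
    ((8, 1, 2), 5, 1, 0), ((8, 1, 5), 5, 1, 4), ((8, 1, 6), 5, 1, 3), ((8, 2, 5), 5, 0, 4),
    ((8, 2, 6), 5, 0, 3), ((8, 5, 6), 5, 4, 3), ((9, 6, 7), 7, 3, 1)]
  Tc := []
  Td := [((0, 4), (2, 0), 2), ((0, 4), (2, 8), 5), ((0, 4), (3, 4), 6), ((0, 4), (3, 7), 1), ((1,
    3), (1, 0), 2), ((1, 3), (1, 8), 5), ((1, 3), (7, 3), 0), ((1, 3), (7, 9), 7), ((3, 1),
    (6, 8), 5), ((3, 1), (6, 9), 7), ((4, 0), (5, 4), 6), ((4, 0), (5, 8), 5)]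
  G := [[0, 0, 0x2121229e42128c25295e82828295e8a1b12121e47829568e21a1a244dc2e4,
    0x225242242464214212421ecca282121e218c2828a822928e1c1,
    0x21242a5de4211552424e481a212821689191e8289178ec292421ec3838c8e1a9], [0, 0,
    0x4932421d2d2146e8882a5115111ed2146d2ecc2a1891815e89228a1818281e8416c, 0,
    0x8221248d2945493e4d22465157282c58a9291e529461c6ec189d292e8c1a9], [0, 0, 0,
    0x242121744222522292c22821225b211c22918cac1,
    0x5134269e447122532291c2c28919212424ec2128958c2a1], [0,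
    0xa11261126c11446861128c118c118aa4c, 0, 0,
    0xc85d242415282c81282498931453523c92913d21cc223]]

noncomputable def n3523 : Ent := ⟨e3523, noF, [], [], [(17, 13, [6903326391226443182813612567740724581985591720012749800372886082166785, 0])]⟩

def c3523 : PLift (Cov.check n3523.C.D v3523 = true) := ⟨by decide +kernel⟩

def b3523 : PLift (entF (fidx ts) 400 3523 n3523 = true) := ⟨by decide +kernel⟩

theorem g3523 : GoodF (fidx ts) 400 3523 := GoodF.ofV v3523 n3523 c3523.down b3523.down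

/-- 46479444:2687/5 -/
noncomputable def e3524 : SCfg where
  D := {
    a := 8
    L := 10
    kp := 7
    inn := [(0, 1), (0, 4), (1, 0), (1, 2), (1, 3), (1, 4), (2, 1), (2, 3), (2, 4), (3, 1), (3, 2), (3,
      5), (4, 0), (4, 1), (4, 2), (4, 6), (4, 7), (5, 3), (6, 4), (7, 4)]
    mix := [(0, 0), (0, 1), (1, 0), (1, 2), (2, 3), (3, 2), (3, 3), (3, 4), (3, 5), (4, 1), (4, 3), (4,
      6), (4, 7), (5, 2), (5, 5), (5, 8), (6, 1), (6, 6), (6, 9), (7, 5), (7, 6), (7, 7)]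
    cl := [2, 1, 0, 0, 5, 3, 4, 1, 6, 7]
    chq := [(0, 3), (1, 4), (3, 0), (4, 1)]
    rng := [(0, 1), (0, 2), (1, 0), (1, 9), (2, 0), (2, 8), (3, 4), (3, 7), (4, 3), (4, 5), (5, 4), (5,
      6), (5, 7), (5, 8), (6, 5), (6, 9), (7, 3), (7, 5), (8, 2), (8, 5), (9, 1), (9, 6)]
    lev := [] }
  links := [[1, 8, 9, 4], [8, 0, 4, 2, 3, 10], [3, 1, 4, 11], [10, 1, 2, 11, 12, 13, 5], [11, 2, 1, 0, 9,
    6, 14, 7, 15], [10, 3, 13, 16], [14, 4, 9, 17], [15, 4, 14, 13]]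
  P := {
    a := 8
    N := 18
    nb := [786, 1309, 2074, 15398, 51911, 74760, 147984, 57360, 1539, 131409, 65834, 36892, 10248,
      118952, 139472, 10384, 9248, 16960]
    tri := [(0, 1, 4), (0, 1, 8), (0, 4, 9), (0, 8, 9), (1, 2, 3), (1, 2, 4), (1, 3, 10), (1, 8, 10),
      (2, 3, 11), (2, 4, 11), (3, 5, 10), (3, 5, 13), (3, 11, 12), (3, 12, 13), (4, 6, 9), (4, 6,
      14), (4, 7, 14), (4, 7, 15), (4, 11, 15), (5, 10, 16), (5, 13, 16), (6, 9, 17), (6, 14, 17),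
      (7, 13, 14), (7, 13, 15)]
    fin := [0, 1, 1, 3, 4, 3, 4, 4, 0, 4, 1, 1, 12, 3, 14, 4, 16, 17]
    chd := [(1, 3), (4, 14)]
    steps := [(0, 8), (1, 2), (1, 11), (1, 10), (3, 5), (3, 13), (4, 6), (4, 7), (4, 9), (4, 15)] }
  rep := [1, 4, 0, 3, 14, 12, 16, 17]

noncomputable def v3524 : Cov.CovD where
  P := 3
  N := 5
  pl := [0, 4, 8, 9]
  lev := [⟨[], [], [], [2], [(1, 1, [4])]⟩,
    ⟨[], [(0, 0), (0, 1)], [], [2], [(2, 0, [3])]⟩,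
    ⟨[(0, 1)], [(1, 0)], [], [], [(3, 0, [3])]⟩,
    ⟨[(0, 1), (1, 2)], [(1, 0), (1, 3), (2, 0), (2, 3)], [(0, 0), (0, 3)], [5], [(2, 0,
      [3]), (3, 0, [3]), (5, 3, [0])]⟩,
    ⟨[(0, 1), (0, 2), (1, 2), (1, 3), (2, 3)], [(0, 0), (0, 1), (0, 4), (1, 0), (1, 1), (1,
      4), (2, 0), (2, 1), (2, 4), (3, 0)], [(0, 1), (0, 4), (1, 1), (1, 4)], [], [(1, 1,
      [4]), (3, 0, [3]), (6, 4, [1]), (7, 1, [4])]⟩,
    ⟨[(1, 3), (2, 3)], [(1, 0), (3, 0), (3, 3)], [(0, 3)], [6], [(2, 0, [3]), (5, 3, [0])]⟩,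
    ⟨[(0, 4), (1, 4), (2, 4)], [(0, 1), (4, 0), (4, 1), (4, 4)], [(1, 4)], [7], [(1, 1,
      [4]), (6, 4, [1])]⟩,
    ⟨[(0, 4), (1, 4), (2, 4), (4, 6)], [(3, 3), (4, 0), (4, 1), (4, 3), (4, 4), (5, 3), (6,
      4)], [(1, 3), (1, 4), (3, 4)], [], [(5, 3, [0]), (6, 4, [1]), (7, 1, [4])]⟩]
  Ta := [((1, 0), 1, 2), ((1, 9), 1, 7), ((2, 0), 0, 2), ((2, 8), 0, 6), ((3, 4), 0, 5), ((3, 7),
    0, 1), ((7, 3), 1, 0), ((7, 5), 1, 3)]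
  Tb := [((0, 1, 2), 2, 1, 0), ((1, 0, 9), 1, 2, 7), ((2, 0, 8), 0, 2, 6), ((3, 4, 7), 0, 5, 1),
    ((4, 3, 5), 5, 0, 3), ((5, 4, 6), 3, 5, 4), ((5, 4, 7), 3, 5, 1), ((5, 4, 8), 3, 5, 6),
    ((5, 6, 7), 3, 4, 1), ((5, 6, 8), 3, 4, 6), ((5, 7, 8), 3, 1, 6), ((6, 5, 9), 4, 3, 7),
    ((7, 3, 5), 1, 0, 3), ((8, 2, 5), 6, 0, 3), ((9, 1, 6), 7, 1, 4)]
  Tc := []
  Td := [((0, 3), (2, 0), 2), ((0, 3), (2, 8), 6), ((0, 3), (3, 4), 5), ((0, 3), (3, 7), 1), ((1,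
    4), (1, 0), 2), ((1, 4), (1, 9), 7), ((1, 4), (7, 3), 0), ((1, 4), (7, 5), 3), ((3, 0),
    (5, 4), 5), ((3, 0), (5, 6), 4), ((3, 0), (5, 7), 1), ((3, 0), (5, 8), 6), ((4, 1), (6,
    5), 3), ((4, 1), (6, 9), 7)]
  G := [[0, 0, 0x1252421a2524421d421d6282865215345c4e32584111168c9a289289a8319219221de8a14c,
    0x422d421d62828654225215215e4232424a181111a42128c5c214842282d222da8219229219e8a1cc,
    0x2821248a151434e42212212196c2c31928219342dc86329282da325215ac1194424d2256cc5a9], [0, 0,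
    0x81a12913e421562829886115ec828282188ee111b1212ec82456141be1211312ecc6a4, 0,
    0x115421c17e42122829828282e11542811eec82119119e424242ec82119c8e1a1], [0, 0, 0,
    0x22524564215225215b46215148a289229982292193811921958e2c1,
    0x215821d342152156412531594e2219119219d822291852951968c6a1], [0,
    0xa112211264114468611288118c118aa4c, 0, 0,
    0x1131135421d65c21898291214113bc1111a4167141242bcca21]]

noncomputable def n3524 : Ent := ⟨e3524, noF, [], [], [(17, 16, [7334685537875745012586738086077695515070955365108989538292687708102657, 0])]⟩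

def c3524 : PLift (Cov.check n3524.C.D v3524 = true) := ⟨by decide +kernel⟩

def b3524 : PLift (entF (fidx ts) 400 3524 n3524 = true) := ⟨by decide +kernel⟩

theorem g3524 : GoodF (fidx ts) 400 3524 := GoodF.ofV v3524 n3524 c3524.down b3524.down

/-- 46479444:2687/6 -/
noncomputable def e3525 : SCfg where
  D := {
    a := 8
    L := 10
    kp := 7
    inn := [(0, 1), (0, 4), (1, 0), (1, 2), (1, 3), (1, 4), (2, 1), (2, 3), (2, 4), (3, 1), (3, 2), (3,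
      5), (4, 0), (4, 1), (4, 2), (4, 6), (4, 7), (5, 3), (6, 4), (7, 4)]
    mix := [(0, 0), (0, 1), (1, 0), (1, 2), (2, 3), (3, 2), (3, 3), (3, 4), (3, 5), (4, 1), (4, 3), (4,
      6), (4, 7), (5, 2), (5, 5), (5, 8), (6, 1), (6, 6), (6, 9), (7, 6), (7, 7), (7, 8)]
    cl := [2, 1, 0, 0, 6, 4, 3, 1, 5, 7]
    chq := [(0, 4), (1, 3), (3, 1), (4, 0)]
    rng := [(0, 1), (0, 2), (1, 0), (1, 9), (2, 0), (2, 8), (3, 4), (3, 7), (4, 3), (4, 5), (5, 4), (5,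
      8), (6, 8), (6, 9), (7, 3), (7, 8), (8, 2), (8, 5), (8, 6), (8, 7), (9, 1), (9, 6)]
    lev := [] }
  links := [[1, 8, 9, 4], [8, 0, 4, 2, 3, 10], [3, 1, 4, 11], [10, 1, 2, 11, 12, 13, 5], [11, 2, 1, 0, 9,
    6, 14, 7, 15], [10, 3, 13, 16], [14, 4, 9, 17], [15, 4, 14, 16]]
  P := {
    a := 8
    N := 18
    nb := [786, 1309, 2074, 15398, 51911, 74760, 147984, 114704, 1539, 131409, 65834, 36892, 10248,
      69672, 196816, 67728, 58528, 16960]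
    tri := [(0, 1, 4), (0, 1, 8), (0, 4, 9), (0, 8, 9), (1, 2, 3), (1, 2, 4), (1, 3, 10), (1, 8, 10),
      (2, 3, 11), (2, 4, 11), (3, 5, 10), (3, 5, 13), (3, 11, 12), (3, 12, 13), (4, 6, 9), (4, 6,
      14), (4, 7, 14), (4, 7, 15), (4, 11, 15), (5, 10, 16), (5, 13, 16), (6, 9, 17), (6, 14, 17),
      (7, 14, 16), (7, 15, 16)]
    fin := [0, 0, 0, 3, 4, 5, 4, 4, 0, 4, 3, 3, 12, 13, 14, 4, 5, 17]
    chd := [(3, 13), (4, 14)]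
    steps := [(0, 1), (0, 2), (0, 8), (3, 11), (3, 10), (4, 6), (4, 7), (4, 9), (4, 15), (5, 16)] }
  rep := [3, 4, 0, 14, 13, 5, 12, 17]

noncomputable def v3525 : Cov.CovD where
  P := 3
  N := 5
  pl := [0, 4, 8, 9]
  lev := [⟨[], [], [], [2], [(1, 1, [3])]⟩,
    ⟨[], [(0, 0), (0, 1)], [], [2], [(2, 0, [4])]⟩,
    ⟨[(0, 1)], [(1, 0)], [], [], [(3, 0, [4])]⟩,
    ⟨[(0, 1), (1, 2)], [(1, 0), (1, 4), (2, 0), (2, 4)], [(0, 0), (0, 4)], [6], [(2, 0,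
      [4]), (3, 0, [4]), (5, 4, [0])]⟩,
    ⟨[(0, 1), (0, 2), (1, 2), (1, 3), (2, 3)], [(0, 0), (0, 1), (0, 3), (1, 0), (1, 1), (1,
      3), (2, 0), (2, 1), (2, 3), (3, 0)], [(0, 1), (0, 3), (1, 1), (1, 3)], [], [(1, 1,
      [3]), (3, 0, [4]), (6, 3, [1]), (7, 1, [3])]⟩,
    ⟨[(1, 3), (2, 3)], [(1, 0), (3, 0), (3, 4)], [(0, 4)], [5], [(2, 0, [4]), (5, 4, [0])]⟩,
    ⟨[(0, 4), (1, 4), (2, 4)], [(0, 1), (4, 0), (4, 1), (4, 3)], [(1, 3)], [7], [(1, 1,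
      [3]), (6, 3, [1])]⟩,
    ⟨[(0, 4), (1, 4), (2, 4), (4, 6)], [(4, 0), (4, 1), (4, 3), (6, 3)], [(1, 3)], [5],
      [(6, 3, [1]), (7, 1, [3])]⟩]
  Ta := [((1, 0), 1, 2), ((1, 9), 1, 7), ((2, 0), 0, 2), ((2, 8), 0, 5), ((3, 4), 0, 6), ((3, 7),
    0, 1), ((7, 3), 1, 0), ((7, 8), 1, 5)]
  Tb := [((0, 1, 2), 2, 1, 0), ((1, 0, 9), 1, 2, 7), ((2, 0, 8), 0, 2, 5), ((3, 4, 7), 0, 6, 1),
    ((4, 3, 5), 6, 0, 4), ((5, 4, 8), 4, 6, 5), ((6, 8, 9), 3, 5, 7), ((7, 3, 8), 1, 0, 5),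
    ((8, 2, 5), 5, 0, 4), ((8, 2, 6), 5, 0, 3), ((8, 2, 7), 5, 0, 1), ((8, 5, 6), 5, 4, 3),
    ((8, 5, 7), 5, 4, 1), ((8, 6, 7), 5, 3, 1), ((9, 1, 6), 7, 1, 3)]
  Tc := []
  Td := [((0, 4), (2, 0), 2), ((0, 4), (2, 8), 5), ((0, 4), (3, 4), 6), ((0, 4), (3, 7), 1), ((1,
    3), (1, 0), 2), ((1, 3), (1, 9), 7), ((1, 3), (7, 3), 0), ((1, 3), (7, 8), 5), ((3, 1),
    (6, 8), 5), ((3, 1), (6, 9), 7), ((4, 0), (5, 4), 6), ((4, 0), (5, 8), 5)]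
  G := [[0, 0, 0x2152421a15245215e4821d421d812de4c2a2121215e882828e942219519319e831928a1cc,
    0x28414224818288d229229e822928a3c22522564112121e225224d225ec22524e121842828a8c1c5,
    0x28212482122b5d2c21288d619219e218c824215345e4219242d219e821d245315ecc6a9], [0, 0,
    0x1242115e44242c4628191b242121252e82918a456441ee11311312ec881711982e8c1ac, 0,
    0x11544a816e442429857e4652282c88874117411ee124242ec886119813e88282c8e1a1], [0, 0, 0,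
    0x221d2422151421213221d2153cca182293812928a281846c1,
    0x241423191111c231931932152153c31931932152153cce21], [0,
    0xc1144286112a1126112e4c118c118a2cc, 0, 0,
    0x4212541c1742346882119541db12129c82181b98121258e4a1]]

noncomputable def n3525 : Ent := ⟨e3525, noF, [], [], [(17, 13, [6903326391226443182813612567740724581985591720012749800372886082158593, 0])]⟩

def c3525 : PLift (Cov.check n3525.C.D v3525 = true) := ⟨by decide +kernel⟩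

def b3525 : PLift (entF (fidx ts) 400 3525 n3525 = true) := ⟨by decide +kernel⟩

theorem g3525 : GoodF (fidx ts) 400 3525 := GoodF.ofV v3525 n3525 c3525.down b3525.down

/-- 46479444:2687 -/
noncomputable def e3526 : SCfg where
  D := {
    a := 8
    L := 11
    kp := 8
    inn := [(0, 1), (0, 4), (1, 0), (1, 2), (1, 3), (1, 4), (2, 1), (2, 3), (2, 4), (3, 1), (3, 2), (3,
      5), (4, 0), (4, 1), (4, 2), (4, 6), (4, 7), (5, 3), (6, 4), (7, 4)]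
    mix := [(0, 0), (0, 1), (1, 0), (1, 2), (2, 3), (3, 2), (3, 3), (3, 4), (3, 5), (4, 1), (4, 3), (4,
      6), (4, 7), (5, 2), (5, 5), (5, 8), (6, 1), (6, 6), (6, 9), (7, 6), (7, 7), (7, 10)]
    cl := [2, 1, 0, 0, 5, 4, 3, 1, 6, 7, 8]
    chq := [(0, 4), (1, 3), (3, 1), (4, 0)]
    rng := [(0, 1), (0, 2), (1, 0), (1, 9), (2, 0), (2, 8), (3, 4), (3, 7), (4, 3), (4, 5), (5, 4), (5,
      8), (6, 9), (6, 10), (7, 3), (7, 10), (8, 2), (8, 5), (9, 1), (9, 6), (10, 6), (10, 7)]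
    lev := [] }
  links := [[1, 8, 9, 4], [8, 0, 4, 2, 3, 10], [3, 1, 4, 11], [10, 1, 2, 11, 12, 13, 5], [11, 2, 1, 0, 9,
    6, 14, 7, 15], [10, 3, 13, 16], [14, 4, 9, 17], [15, 4, 14, 18]]
  P := {
    a := 8
    N := 19
    nb := [786, 1309, 2074, 15398, 51911, 74760, 147984, 311312, 1539, 131409, 65834, 36892, 10248,
      69672, 393424, 264336, 9248, 16960, 49280]
    tri := [(0, 1, 4), (0, 1, 8), (0, 4, 9), (0, 8, 9), (1, 2, 3), (1, 2, 4), (1, 3, 10), (1, 8, 10),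
      (2, 3, 11), (2, 4, 11), (3, 5, 10), (3, 5, 13), (3, 11, 12), (3, 12, 13), (4, 6, 9), (4, 6,
      14), (4, 7, 14), (4, 7, 15), (4, 11, 15), (5, 10, 16), (5, 13, 16), (6, 9, 17), (6, 14, 17),
      (7, 14, 18), (7, 15, 18)]
    fin := [0, 0, 0, 3, 4, 3, 4, 4, 0, 4, 3, 3, 12, 13, 14, 4, 16, 17, 18]
    chd := [(3, 13), (4, 14)]
    steps := [(0, 1), (0, 2), (0, 8), (3, 5), (3, 11), (3, 10), (4, 6), (4, 7), (4, 9), (4, 15)] }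
  rep := [3, 4, 0, 14, 13, 12, 16, 17, 18]

noncomputable def v3526 : Cov.CovD where
  P := 3
  N := 6
  pl := [0, 4, 8, 9, 10]
  lev := [⟨[], [], [], [2], [(1, 1, [3])]⟩,
    ⟨[], [(0, 0), (0, 1)], [], [2], [(2, 0, [4])]⟩,
    ⟨[(0, 1)], [(1, 0)], [], [], [(3, 0, [4])]⟩,
    ⟨[(0, 1), (1, 2)], [(1, 0), (1, 4), (2, 0), (2, 4)], [(0, 0), (0, 4)], [5], [(2, 0,
      [4]), (3, 0, [4]), (5, 4, [0])]⟩,
    ⟨[(0, 1), (0, 2), (1, 2), (1, 3), (2, 3)], [(0, 0), (0, 1), (0, 3), (1, 0), (1, 1), (1,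
      3), (2, 0), (2, 1), (2, 3), (3, 0)], [(0, 1), (0, 3), (1, 1), (1, 3)], [], [(1, 1,
      [3]), (3, 0, [4]), (6, 3, [1]), (7, 1, [3])]⟩,
    ⟨[(1, 3), (2, 3)], [(1, 0), (3, 0), (3, 4)], [(0, 4)], [6], [(2, 0, [4]), (5, 4, [0])]⟩,
    ⟨[(0, 4), (1, 4), (2, 4)], [(0, 1), (4, 0), (4, 1), (4, 3)], [(1, 3)], [7], [(1, 1,
      [3]), (6, 3, [1])]⟩,
    ⟨[(0, 4), (1, 4), (2, 4), (4, 6)], [(4, 0), (4, 1), (4, 3), (6, 3)], [(1, 3)], [8],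
      [(6, 3, [1]), (7, 1, [3])]⟩]
  Ta := [((1, 0), 1, 2), ((1, 9), 1, 7), ((2, 0), 0, 2), ((2, 8), 0, 6), ((3, 4), 0, 5), ((3, 7),
    0, 1), ((7, 3), 1, 0), ((7, 10), 1, 8)]
  Tb := [((0, 1, 2), 2, 1, 0), ((1, 0, 9), 1, 2, 7), ((2, 0, 8), 0, 2, 6), ((3, 4, 7), 0, 5, 1),
    ((4, 3, 5), 5, 0, 4), ((5, 4, 8), 4, 5, 6), ((6, 9, 10), 3, 7, 8), ((7, 3, 10), 1, 0, 8),
    ((8, 2, 5), 6, 0, 4), ((9, 1, 6), 7, 1, 3), ((10, 6, 7), 8, 3, 1)]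
  Tc := []
  Td := [((0, 4), (2, 0), 2), ((0, 4), (2, 8), 6), ((0, 4), (3, 4), 5), ((0, 4), (3, 7), 1), ((1,
    3), (1, 0), 2), ((1, 3), (1, 9), 7), ((1, 3), (7, 3), 0), ((1, 3), (7, 10), 8), ((3, 1),
    (6, 9), 7), ((3, 1), (6, 10), 8), ((4, 0), (5, 4), 5), ((4, 0), (5, 8), 6)]
  G := [[0, 0,
    0x325325a55e421318a25325b25ec25524a4e4c1a686a9299e8699699329e8a17992c9d629e21316c416c,
    0x284142248184c22522564214225222d225ec225225225e4e1222d229229e8229229229e8a2184229229a8c5c9,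
    0x2821248c25d242212829629329729e355a55255ec6992c2d629e355255355ec6a9399c325a25cce1a9],
    [0, 0,
    0x85a529497e42145a8941f649c179d68d1be88a88a486e5c5112a528c1211312e8c9a58a185b82e849171489f92e8a14c,
    0, 0x82212481229497c95eac211889f59a1489fe5295652ec589b498792e5215a9457ec9292c94574ce1a9],
    [0, 0, 0, 0x2252259422252253422522554ca229229229b82229229229e822918c6c1,
    0xa55b2534a5535554325a5594e8262929998699242d383a962958e429], [0,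
    0xa1124c114611466861128c118a118aa4c, 0, 0,
    0x52856945285652e4689565234892581489fd918c49a189b381c9813589bd8eca1]]

noncomputable def n3526 : Ent := ⟨e3526, noF, [], [], [(17, 13, [31810150492402144375682168625940274009476695735481153995989284509366095873, 0]), (17, 16, [31810581851548793677511941751458610980409781099126250235727204310992039937, 0]), (18, 13, [30043303427623766323200606511878119329438635046271951140223122772108001281, 0]), (18, 16, [30044166145917083758165358922957084778673075396561391926765295767463415809, 0])]⟩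

def c3526 : PLift (Cov.check n3526.C.D v3526 = true) := ⟨by decide +kernel⟩

def b3526 : PLift (entF (fidx ts) 400 3526 n3526 = true) := ⟨by decide +kernel⟩

theorem g3526 : GoodF (fidx ts) 400 3526 := GoodF.ofV v3526 n3526 c3526.down b3526.down

/-- 46484646:2691/1 -/
noncomputable def e3527 : SCfg where
  D := {
    a := 8
    L := 10
    kp := 8
    inn := [(0, 1), (1, 0), (1, 2), (1, 3), (2, 1), (2, 3), (3, 1), (3, 2), (3, 4), (3, 5), (3, 7), (4,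
      3), (5, 3), (5, 6), (5, 7), (6, 5), (6, 7), (7, 3), (7, 5), (7, 6)]
    mix := [(0, 0), (0, 1), (0, 2), (1, 0), (1, 2), (1, 3), (2, 2), (2, 4), (3, 3), (3, 4), (3, 5), (4,
      1), (4, 4), (4, 5), (5, 3), (5, 6), (5, 7), (6, 6), (6, 8), (7, 5), (7, 8), (7, 9)]
    cl := [5, 6, 0, 0, 1, 2, 3, 7, 4, 8]
    chq := [(1, 2), (1, 3), (1, 4), (1, 7), (1, 8), (2, 1), (3, 1), (4, 1), (7, 1), (8, 1)]
    rng := [(0, 1), (0, 3), (1, 0), (1, 2), (1, 4), (1, 5), (2, 1), (2, 4), (3, 0), (3, 7), (4, 1), (4,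
      2), (5, 1), (5, 9), (6, 7), (6, 8), (7, 3), (7, 6), (8, 6), (8, 9), (9, 5), (9, 8)]
    lev := [] }
  links := [[1, 8, 9, 10], [8, 0, 10, 2, 3, 11], [3, 1, 10, 12], [11, 1, 2, 12, 4, 13, 7, 5], [13, 3, 12,
    9], [11, 3, 7, 6, 14, 15], [14, 5, 7, 16], [16, 6, 5, 3, 13, 17]]
  P := {
    a := 8
    N := 18
    nb := [1794, 3341, 5130, 14518, 12808, 51400, 82080, 204904, 2563, 13585, 4615, 33066, 1564,
      131736, 98400, 18464, 147648, 73856]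
    tri := [(0, 1, 8), (0, 1, 10), (0, 8, 9), (0, 9, 10), (1, 2, 3), (1, 2, 10), (1, 3, 11), (1, 8,
      11), (2, 3, 12), (2, 10, 12), (3, 4, 12), (3, 4, 13), (3, 5, 7), (3, 5, 11), (3, 7, 13), (4,
      9, 12), (4, 9, 13), (5, 6, 7), (5, 6, 14), (5, 11, 15), (5, 14, 15), (6, 7, 16), (6, 14,
      16), (7, 13, 17), (7, 16, 17)]
    fin := [0, 1, 1, 3, 4, 3, 3, 3, 0, 4, 1, 1, 3, 13, 14, 15, 16, 17]
    chd := [(3, 13), (3, 14), (3, 15), (3, 16), (3, 17)]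
    steps := [(0, 8), (1, 2), (1, 10), (1, 11), (3, 5), (3, 6), (3, 7), (3, 12), (4, 9)] }
  rep := [1, 3, 13, 14, 16, 0, 4, 15, 17]

noncomputable def v3527 : Cov.CovD where
  P := 3
  N := 6
  pl := [0, 1]
  lev := [⟨[], [], [], [5, 6], [(2, 0, [])]⟩,
    ⟨[], [(0, 0)], [(0, 0)], [5], [(2, 0, []), (3, 0, [])]⟩,
    ⟨[(0, 1)], [(0, 0), (1, 0), (1, 1)], [(0, 1)], [], [(2, 0, []), (4, 1, [2, 3, 4, 7,
      8])]⟩,
    ⟨[(0, 1), (1, 2)], [(1, 0), (1, 1), (1, 2), (2, 0), (2, 1), (2, 2)], [(0, 1), (0, 2),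
      (1, 2)], [], [(3, 0, []), (4, 1, [2, 3, 4, 7, 8]), (5, 2, [1])]⟩,
    ⟨[(1, 3), (2, 3)], [(2, 1), (3, 0), (3, 1), (3, 2)], [(1, 2)], [6], [(4, 1, [2, 3, 4,
      7, 8]), (5, 2, [1])]⟩,
    ⟨[(1, 3), (2, 3), (3, 4)], [(1, 0), (3, 0), (3, 1), (3, 2), (3, 3), (3, 7)], [(0, 3),
      (0, 7), (3, 7)], [], [(3, 0, []), (6, 3, [1]), (7, 7, [1])]⟩,
    ⟨[(3, 5)], [(5, 0), (5, 3), (5, 4), (5, 7)], [(3, 4)], [], [(6, 3, [1]), (8, 4, [1])]⟩,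
    ⟨[(1, 3), (2, 3), (3, 4), (3, 5), (3, 6), (5, 6)], [(3, 0), (3, 1), (3, 2), (3, 4), (3,
      8), (4, 2), (5, 0), (5, 2), (5, 3), (5, 4), (5, 7), (5, 8), (6, 2), (6, 3), (6, 4), (6,
      8)], [(2, 4), (2, 8), (4, 8)], [], [(5, 2, [1]), (8, 4, [1]), (9, 8, [1])]⟩]
  Ta := [((2, 1), 0, 6), ((2, 4), 0, 1), ((3, 0), 0, 5), ((3, 7), 0, 7)]
  Tb := [((0, 1, 3), 5, 6, 0), ((1, 0, 2), 6, 5, 0), ((1, 0, 4), 6, 5, 1), ((1, 0, 5), 6, 5, 2),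
    ((1, 2, 4), 6, 0, 1), ((1, 2, 5), 6, 0, 2), ((1, 4, 5), 6, 1, 2), ((2, 1, 4), 0, 6, 1),
    ((3, 0, 7), 0, 5, 7), ((4, 1, 2), 1, 6, 0), ((5, 1, 9), 2, 6, 8), ((6, 7, 8), 3, 7, 4),
    ((7, 3, 6), 7, 0, 3), ((8, 6, 9), 4, 3, 8), ((9, 5, 8), 8, 2, 4)]
  Tc := [(1, 2, 3), (1, 2, 4), (1, 2, 7), (1, 2, 8), (1, 3, 4), (1, 3, 7), (1, 3, 8), (1, 4, 7),
    (1, 4, 8), (1, 7, 8)]
  Td := [((1, 2), (4, 1), 6), ((1, 2), (4, 2), 0), ((1, 3), (4, 1), 6), ((1, 3), (4, 2), 0), ((1,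
    4), (4, 1), 6), ((1, 4), (4, 2), 0), ((1, 7), (4, 1), 6), ((1, 7), (4, 2), 0), ((1, 8),
    (4, 1), 6), ((1, 8), (4, 2), 0), ((2, 1), (5, 1), 6), ((2, 1), (5, 9), 8), ((3, 1), (6,
    7), 7), ((3, 1), (6, 8), 4), ((4, 1), (8, 6), 3), ((4, 1), (8, 9), 8), ((7, 1), (7, 3),
    0), ((7, 1), (7, 6), 3), ((8, 1), (9, 5), 2), ((8, 1), (9, 8), 4)]
  G := [[0, 0x111111e8428111164811848a411116111111ec1188c42e,
    0x226a2c22aeb84242586482226c226e748886248a422c22544224e3622a2ca27a2829cc82e,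
    0xd2284281224c224984d221842e,
    0x22624228afe814112884c22321e22671222d2882a9842422c11a2f322222d3842e], [0, 0,
    0x2222ca3e4814222d22222823e22321c8c7ee81242222544566228af22298ac487, 0xd221482d2218243,
    0x222d2188222624228bfe184222624228bfe1844b]]

noncomputable def n3527 : Ent := ⟨e3527, noF, [], [], []⟩

def c3527 : PLift (Cov.check n3527.C.D v3527 = true) := ⟨by decide +kernel⟩

def b3527 : PLift (entF (fidx ts) 400 3527 n3527 = true) := ⟨by decide +kernel⟩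

theorem g3527 : GoodF (fidx ts) 400 3527 := GoodF.ofV v3527 n3527 c3527.down b3527.down

/-- 46484646:2691/2 -/
noncomputable def e3528 : SCfg where
  D := {
    a := 8
    L := 10
    kp := 8
    inn := [(0, 1), (1, 0), (1, 2), (1, 3), (2, 1), (2, 3), (3, 1), (3, 2), (3, 4), (3, 5), (3, 7), (4,
      3), (5, 3), (5, 6), (5, 7), (6, 5), (6, 7), (7, 3), (7, 5), (7, 6)]
    mix := [(0, 0), (0, 1), (0, 2), (1, 0), (1, 2), (1, 3), (2, 2), (2, 4), (3, 3), (3, 4), (3, 5), (4,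
      4), (4, 5), (4, 6), (5, 3), (5, 7), (5, 8), (6, 7), (6, 9), (7, 1), (7, 5), (7, 9)]
    cl := [6, 2, 0, 0, 1, 3, 8, 4, 7, 5]
    chq := [(1, 2), (1, 3), (1, 4), (1, 5), (1, 7), (2, 1), (3, 1), (4, 1), (5, 1), (7, 1)]
    rng := [(0, 1), (0, 3), (1, 0), (1, 2), (1, 5), (1, 9), (2, 1), (2, 4), (3, 0), (3, 8), (4, 2), (4,
      6), (5, 1), (5, 6), (6, 4), (6, 5), (7, 8), (7, 9), (8, 3), (8, 7), (9, 1), (9, 7)]
    lev := [] }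
  links := [[1, 8, 9, 10], [8, 0, 10, 2, 3, 11], [3, 1, 10, 12], [11, 1, 2, 12, 4, 13, 7, 5], [13, 3, 12,
    14], [11, 3, 7, 6, 15, 16], [15, 5, 7, 17], [17, 6, 5, 3, 13, 9]]
  P := {
    a := 8
    N := 18
    nb := [1794, 3341, 5130, 14518, 28680, 100552, 164000, 139880, 2563, 140673, 4615, 65834, 17436,
      17048, 12304, 196704, 34848, 33472]
    tri := [(0, 1, 8), (0, 1, 10), (0, 8, 9), (0, 9, 10), (1, 2, 3), (1, 2, 10), (1, 3, 11), (1, 8,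
      11), (2, 3, 12), (2, 10, 12), (3, 4, 12), (3, 4, 13), (3, 5, 7), (3, 5, 11), (3, 7, 13), (4,
      12, 14), (4, 13, 14), (5, 6, 7), (5, 6, 15), (5, 11, 16), (5, 15, 16), (6, 7, 17), (6, 15,
      17), (7, 9, 13), (7, 9, 17)]
    fin := [0, 1, 1, 3, 3, 3, 3, 7, 0, 7, 1, 1, 3, 13, 14, 15, 16, 17]
    chd := [(3, 13), (3, 15), (3, 16), (3, 17), (7, 3)]
    steps := [(0, 8), (1, 2), (1, 10), (1, 11), (3, 4), (3, 5), (3, 6), (3, 12), (7, 9)] }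
  rep := [1, 3, 7, 13, 15, 17, 0, 16, 14]

noncomputable def v3528 : Cov.CovD where
  P := 3
  N := 6
  pl := [0, 6]
  lev := [⟨[], [], [(0, 2)], [6], [(1, 2, [1]), (2, 0, [])]⟩,
    ⟨[], [(0, 0), (0, 2)], [(0, 0)], [6], [(2, 0, []), (3, 0, [])]⟩,
    ⟨[(0, 1)], [(0, 0), (1, 0), (1, 1)], [(0, 1)], [], [(2, 0, []), (4, 1, [2, 3, 4, 5,
      7])]⟩,
    ⟨[(0, 1), (1, 2)], [(1, 0), (1, 1), (1, 3), (2, 0), (2, 1), (2, 3)], [(0, 1), (0, 3),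
      (1, 3)], [], [(3, 0, []), (4, 1, [2, 3, 4, 5, 7]), (5, 3, [1])]⟩,
    ⟨[(1, 3), (2, 3)], [(2, 1), (3, 0), (3, 1), (3, 3)], [(1, 3)], [8], [(4, 1, [2, 3, 4,
      5, 7]), (5, 3, [1])]⟩,
    ⟨[(1, 3), (2, 3), (3, 4)], [(1, 0), (3, 0), (3, 1), (3, 3), (3, 4), (3, 7)], [(0, 4),
      (0, 7), (4, 7)], [], [(3, 0, []), (7, 4, [1]), (8, 7, [1])]⟩,
    ⟨[(3, 5)], [(5, 0), (5, 4), (5, 5), (5, 7)], [(4, 5)], [], [(7, 4, [1]), (9, 5, [1])]⟩,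
    ⟨[(1, 3), (2, 3), (3, 4), (3, 5), (3, 6), (5, 6)], [(0, 2), (3, 0), (3, 1), (3, 2), (3,
      3), (3, 5), (4, 3), (5, 0), (5, 2), (5, 3), (5, 4), (5, 5), (5, 7), (6, 2), (6, 3), (6,
      4), (6, 5)], [(2, 3), (2, 5), (3, 5)], [], [(1, 2, [1]), (5, 3, [1]), (9, 5, [1])]⟩]
  Ta := [((2, 1), 0, 2), ((2, 4), 0, 1), ((3, 0), 0, 6), ((3, 8), 0, 7)]
  Tb := [((0, 1, 3), 6, 2, 0), ((1, 0, 2), 2, 6, 0), ((1, 0, 5), 2, 6, 3), ((1, 0, 9), 2, 6, 5),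
    ((1, 2, 5), 2, 0, 3), ((1, 2, 9), 2, 0, 5), ((1, 5, 9), 2, 3, 5), ((2, 1, 4), 0, 2, 1),
    ((3, 0, 8), 0, 6, 7), ((4, 2, 6), 1, 0, 8), ((5, 1, 6), 3, 2, 8), ((6, 4, 5), 8, 1, 3),
    ((7, 8, 9), 4, 7, 5), ((8, 3, 7), 7, 0, 4), ((9, 1, 7), 5, 2, 4)]
  Tc := [(1, 2, 3), (1, 2, 4), (1, 2, 5), (1, 2, 7), (1, 3, 4), (1, 3, 5), (1, 3, 7), (1, 4, 5),
    (1, 4, 7), (1, 5, 7)]
  Td := [((1, 2), (4, 2), 0), ((1, 2), (4, 6), 8), ((1, 3), (4, 2), 0), ((1, 3), (4, 6), 8), ((1,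
    4), (4, 2), 0), ((1, 4), (4, 6), 8), ((1, 5), (4, 2), 0), ((1, 5), (4, 6), 8), ((1, 7),
    (4, 2), 0), ((1, 7), (4, 6), 8), ((2, 1), (1, 0), 6), ((2, 1), (1, 2), 0), ((2, 1), (1,
    5), 3), ((2, 1), (1, 9), 5), ((3, 1), (5, 1), 2), ((3, 1), (5, 6), 8), ((4, 1), (7, 8),
    7), ((4, 1), (7, 9), 5), ((5, 1), (9, 1), 2), ((5, 1), (9, 7), 4), ((7, 1), (8, 3), 0),
    ((7, 1), (8, 7), 4)]
  G := [[0,
    0x1181141111ce21181111a112e4611116114112e82a1141126111111e1141111cea8111111e1111a112e486c,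
    0x22ca2312c272a46d2229225c1ee54822c223188422c223128284262f1282722c6b222922581eed82e,
    0x5222492228c25222492228c2c,
    0x8822298286b221e2b222d2224654335283282722424a2dd84c22921e226b288221d2742423c2272182919a2b24429c2a],
    [0, 0, 0, 0x522241922281c5222492228c25,
    0x822332d222922ac221d2f4182293f22822ac221d274222d23224885e922b8c2223d22262481e922b844b]]

noncomputable def n3528 : Ent := ⟨e3528, noF, [], [], []⟩

def c3528 : PLift (Cov.check n3528.C.D v3528 = true) := ⟨by decide +kernel⟩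

def b3528 : PLift (entF (fidx ts) 400 3528 n3528 = true) := ⟨by decide +kernel⟩

theorem g3528 : GoodF (fidx ts) 400 3528 := GoodF.ofV v3528 n3528 c3528.down b3528.down

/-- 46484646:2691/3 -/
noncomputable def e3529 : SCfg where
  D := {
    a := 8
    L := 10
    kp := 8
    inn := [(0, 1), (1, 0), (1, 2), (1, 3), (2, 1), (2, 3), (3, 1), (3, 2), (3, 4), (3, 5), (3, 7), (4,
      3), (5, 3), (5, 6), (5, 7), (6, 5), (6, 7), (7, 3), (7, 5), (7, 6)]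
    mix := [(0, 0), (0, 1), (0, 2), (1, 0), (1, 2), (1, 3), (2, 2), (2, 4), (3, 3), (3, 4), (3, 5), (4,
      4), (4, 5), (4, 6), (5, 3), (5, 7), (5, 8), (6, 1), (6, 7), (7, 1), (7, 5), (7, 9)]
    cl := [5, 2, 0, 0, 1, 3, 8, 4, 6, 7]
    chq := [(1, 2), (1, 3), (1, 4), (1, 6), (1, 7), (2, 1), (3, 1), (4, 1), (6, 1), (7, 1)]
    rng := [(0, 1), (0, 3), (1, 0), (1, 2), (1, 7), (1, 9), (2, 1), (2, 4), (3, 0), (3, 8), (4, 2), (4,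
      6), (5, 6), (5, 9), (6, 4), (6, 5), (7, 1), (7, 8), (8, 3), (8, 7), (9, 1), (9, 5)]
    lev := [] }
  links := [[1, 8, 9, 10], [8, 0, 10, 2, 3, 11], [3, 1, 10, 12], [11, 1, 2, 12, 4, 13, 7, 5], [13, 3, 12,
    14], [11, 3, 7, 6, 15, 16], [15, 5, 7, 9], [9, 6, 5, 3, 13, 17]]
  P := {
    a := 8
    N := 18
    nb := [1794, 3341, 5130, 14518, 28680, 100552, 33440, 139880, 2563, 165313, 4615, 65834, 17436,
      147608, 12304, 66144, 34848, 8832]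
    tri := [(0, 1, 8), (0, 1, 10), (0, 8, 9), (0, 9, 10), (1, 2, 3), (1, 2, 10), (1, 3, 11), (1, 8,
      11), (2, 3, 12), (2, 10, 12), (3, 4, 12), (3, 4, 13), (3, 5, 7), (3, 5, 11), (3, 7, 13), (4,
      12, 14), (4, 13, 14), (5, 6, 7), (5, 6, 15), (5, 11, 16), (5, 15, 16), (6, 7, 9), (6, 9,
      15), (7, 9, 17), (7, 13, 17)]
    fin := [0, 1, 1, 3, 3, 3, 6, 3, 0, 6, 1, 1, 3, 13, 14, 15, 16, 17]
    chd := [(3, 13), (3, 15), (3, 16), (3, 17), (6, 3)]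
    steps := [(0, 8), (1, 2), (1, 10), (1, 11), (3, 4), (3, 5), (3, 7), (3, 12), (6, 9)] }
  rep := [1, 3, 6, 13, 15, 0, 16, 17, 14]

noncomputable def v3529 : Cov.CovD where
  P := 3
  N := 6
  pl := [0, 6]
  lev := [⟨[], [], [(0, 2)], [5], [(1, 2, [1]), (2, 0, [])]⟩,
    ⟨[], [(0, 0), (0, 2)], [(0, 0)], [5], [(2, 0, []), (3, 0, [])]⟩,
    ⟨[(0, 1)], [(0, 0), (1, 0), (1, 1)], [(0, 1)], [], [(2, 0, []), (4, 1, [2, 3, 4, 6,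
      7])]⟩,
    ⟨[(0, 1), (1, 2)], [(1, 0), (1, 1), (1, 3), (2, 0), (2, 1), (2, 3)], [(0, 1), (0, 3),
      (1, 3)], [], [(3, 0, []), (4, 1, [2, 3, 4, 6, 7]), (5, 3, [1])]⟩,
    ⟨[(1, 3), (2, 3)], [(2, 1), (3, 0), (3, 1), (3, 3)], [(1, 3)], [8], [(4, 1, [2, 3, 4,
      6, 7]), (5, 3, [1])]⟩,
    ⟨[(1, 3), (2, 3), (3, 4)], [(1, 0), (3, 0), (3, 1), (3, 3), (3, 4), (3, 6)], [(0, 4),
      (0, 6), (4, 6)], [], [(3, 0, []), (7, 4, [1]), (8, 6, [1])]⟩,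
    ⟨[(3, 5)], [(0, 2), (5, 0), (5, 2), (5, 4), (5, 6)], [(2, 4)], [], [(1, 2, [1]), (7, 4,
      [1])]⟩,
    ⟨[(1, 3), (2, 3), (3, 4), (3, 5), (3, 6), (5, 6)], [(0, 2), (3, 0), (3, 1), (3, 2), (3,
      3), (3, 7), (4, 3), (5, 0), (5, 2), (5, 3), (5, 4), (5, 6), (5, 7), (6, 2), (6, 3), (6,
      4), (6, 7)], [(2, 3), (2, 7), (3, 7)], [], [(1, 2, [1]), (5, 3, [1]), (9, 7, [1])]⟩]
  Ta := [((2, 1), 0, 2), ((2, 4), 0, 1), ((3, 0), 0, 5), ((3, 8), 0, 6)]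
  Tb := [((0, 1, 3), 5, 2, 0), ((1, 0, 2), 2, 5, 0), ((1, 0, 7), 2, 5, 4), ((1, 0, 9), 2, 5, 7),
    ((1, 2, 7), 2, 0, 4), ((1, 2, 9), 2, 0, 7), ((1, 7, 9), 2, 4, 7), ((2, 1, 4), 0, 2, 1),
    ((3, 0, 8), 0, 5, 6), ((4, 2, 6), 1, 0, 8), ((5, 6, 9), 3, 8, 7), ((6, 4, 5), 8, 1, 3),
    ((7, 1, 8), 4, 2, 6), ((8, 3, 7), 6, 0, 4), ((9, 1, 5), 7, 2, 3)]
  Tc := [(1, 2, 3), (1, 2, 4), (1, 2, 6), (1, 2, 7), (1, 3, 4), (1, 3, 6), (1, 3, 7), (1, 4, 6),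
    (1, 4, 7), (1, 6, 7)]
  Td := [((1, 2), (4, 2), 0), ((1, 2), (4, 6), 8), ((1, 3), (4, 2), 0), ((1, 3), (4, 6), 8), ((1,
    4), (4, 2), 0), ((1, 4), (4, 6), 8), ((1, 6), (4, 2), 0), ((1, 6), (4, 6), 8), ((1, 7),
    (4, 2), 0), ((1, 7), (4, 6), 8), ((2, 1), (1, 0), 5), ((2, 1), (1, 2), 0), ((2, 1), (1,
    7), 4), ((2, 1), (1, 9), 7), ((3, 1), (5, 6), 8), ((3, 1), (5, 9), 7), ((4, 1), (7, 1),
    2), ((4, 1), (7, 8), 6), ((6, 1), (8, 3), 0), ((6, 1), (8, 7), 4), ((7, 1), (9, 1), 2),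
    ((7, 1), (9, 5), 3)]
  G := [[0,
    0x1111c221181811a112e188114c6611116144112e82a1881441811ce214116144112e8a1881111a112e486c,
    0x22c12aa1984422c122c1548822612816217422c12aa198c2e,
    0x415d224995228c2411d423248299522844e,
    0x28813a292b23229222988665421a223282b22aa12292f84c922a19a2328285212b2f2821c252821922792298c2a],
    [0, 0, 0, 0x99522514d22c12112255922c985228c25,
    0x822292b22821c3392f41213b22281a3992b84c329228916922b822212b22821c212b2fc12a]]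

noncomputable def n3529 : Ent := ⟨e3529, noF, [], [], []⟩

def c3529 : PLift (Cov.check n3529.C.D v3529 = true) := ⟨by decide +kernel⟩

def b3529 : PLift (entF (fidx ts) 400 3529 n3529 = true) := ⟨by decide +kernel⟩

theorem g3529 : GoodF (fidx ts) 400 3529 := GoodF.ofV v3529 n3529 c3529.down b3529.down

/-- 46484646:2691 -/
noncomputable def e3530 : SCfg where
  D := {
    a := 8
    L := 11
    kp := 9
    inn := [(0, 1), (1, 0), (1, 2), (1, 3), (2, 1), (2, 3), (3, 1), (3, 2), (3, 4), (3, 5), (3, 7), (4,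
      3), (5, 3), (5, 6), (5, 7), (6, 5), (6, 7), (7, 3), (7, 5), (7, 6)]
    mix := [(0, 0), (0, 1), (0, 2), (1, 0), (1, 2), (1, 3), (2, 2), (2, 4), (3, 3), (3, 4), (3, 5), (4,
      4), (4, 5), (4, 6), (5, 3), (5, 7), (5, 8), (6, 7), (6, 9), (7, 5), (7, 9), (7, 10)]
    cl := [5, 8, 0, 0, 1, 2, 9, 3, 6, 4, 7]
    chq := [(1, 2), (1, 3), (1, 4), (1, 6), (1, 7), (2, 1), (3, 1), (4, 1), (6, 1), (7, 1)]
    rng := [(0, 1), (0, 3), (1, 0), (1, 2), (2, 1), (2, 4), (3, 0), (3, 8), (4, 2), (4, 6), (5, 6), (5,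
      10), (6, 4), (6, 5), (7, 8), (7, 9), (8, 3), (8, 7), (9, 7), (9, 10), (10, 5), (10, 9)]
    lev := [] }
  links := [[1, 8, 9, 10], [8, 0, 10, 2, 3, 11], [3, 1, 10, 12], [11, 1, 2, 12, 4, 13, 7, 5], [13, 3, 12,
    14], [11, 3, 7, 6, 15, 16], [15, 5, 7, 17], [17, 6, 5, 3, 13, 18]]
  P := {
    a := 8
    N := 19
    nb := [1794, 3341, 5130, 14518, 28680, 100552, 164000, 401512, 2563, 1281, 4615, 65834, 17436,
      278680, 12304, 196704, 34848, 295104, 139392]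
    tri := [(0, 1, 8), (0, 1, 10), (0, 8, 9), (0, 9, 10), (1, 2, 3), (1, 2, 10), (1, 3, 11), (1, 8,
      11), (2, 3, 12), (2, 10, 12), (3, 4, 12), (3, 4, 13), (3, 5, 7), (3, 5, 11), (3, 7, 13), (4,
      12, 14), (4, 13, 14), (5, 6, 7), (5, 6, 15), (5, 11, 16), (5, 15, 16), (6, 7, 17), (6, 15,
      17), (7, 13, 18), (7, 17, 18)]
    fin := [0, 1, 1, 3, 3, 3, 3, 3, 0, 9, 1, 1, 3, 13, 14, 15, 16, 17, 18]
    chd := [(3, 13), (3, 15), (3, 16), (3, 17), (3, 18)]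
    steps := [(0, 8), (1, 2), (1, 10), (1, 11), (3, 4), (3, 5), (3, 6), (3, 7), (3, 12)] }
  rep := [1, 3, 13, 15, 17, 0, 16, 18, 9, 14]

noncomputable def v3530 : Cov.CovD where
  P := 3
  N := 7
  pl := [0, 1, 6]
  lev := [⟨[], [], [], [5, 8], [(2, 0, [])]⟩,
    ⟨[], [(0, 0)], [(0, 0)], [5], [(2, 0, []), (3, 0, [])]⟩,
    ⟨[(0, 1)], [(0, 0), (1, 0), (1, 1)], [(0, 1)], [], [(2, 0, []), (4, 1, [2, 3, 4, 6,
      7])]⟩,
    ⟨[(0, 1), (1, 2)], [(1, 0), (1, 1), (1, 2), (2, 0), (2, 1), (2, 2)], [(0, 1), (0, 2),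
      (1, 2)], [], [(3, 0, []), (4, 1, [2, 3, 4, 6, 7]), (5, 2, [1])]⟩,
    ⟨[(1, 3), (2, 3)], [(2, 1), (3, 0), (3, 1), (3, 2)], [(1, 2)], [9], [(4, 1, [2, 3, 4,
      6, 7]), (5, 2, [1])]⟩,
    ⟨[(1, 3), (2, 3), (3, 4)], [(1, 0), (3, 0), (3, 1), (3, 2), (3, 3), (3, 6)], [(0, 3),
      (0, 6), (3, 6)], [], [(3, 0, []), (7, 3, [1]), (8, 6, [1])]⟩,
    ⟨[(3, 5)], [(5, 0), (5, 3), (5, 4), (5, 6)], [(3, 4)], [], [(7, 3, [1]), (9, 4, [1])]⟩,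
    ⟨[(1, 3), (2, 3), (3, 4), (3, 5), (3, 6), (5, 6)], [(3, 0), (3, 1), (3, 2), (3, 4), (3,
      7), (4, 2), (5, 0), (5, 2), (5, 3), (5, 4), (5, 6), (5, 7), (6, 2), (6, 3), (6, 4), (6,
      7)], [(2, 4), (2, 7), (4, 7)], [], [(5, 2, [1]), (9, 4, [1]), (10, 7, [1])]⟩]
  Ta := [((2, 1), 0, 8), ((2, 4), 0, 1), ((3, 0), 0, 5), ((3, 8), 0, 6)]
  Tb := [((0, 1, 3), 5, 8, 0), ((1, 0, 2), 8, 5, 0), ((2, 1, 4), 0, 8, 1), ((3, 0, 8), 0, 5, 6),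
    ((4, 2, 6), 1, 0, 9), ((5, 6, 10), 2, 9, 7), ((6, 4, 5), 9, 1, 2), ((7, 8, 9), 3, 6, 4),
    ((8, 3, 7), 6, 0, 3), ((9, 7, 10), 4, 3, 7), ((10, 5, 9), 7, 2, 4)]
  Tc := [(1, 2, 3), (1, 2, 4), (1, 2, 6), (1, 2, 7), (1, 3, 4), (1, 3, 6), (1, 3, 7), (1, 4, 6),
    (1, 4, 7), (1, 6, 7)]
  Td := [((1, 2), (4, 2), 0), ((1, 2), (4, 6), 9), ((1, 3), (4, 2), 0), ((1, 3), (4, 6), 9), ((1,
    4), (4, 2), 0), ((1, 4), (4, 6), 9), ((1, 6), (4, 2), 0), ((1, 6), (4, 6), 9), ((1, 7),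
    (4, 2), 0), ((1, 7), (4, 6), 9), ((2, 1), (5, 6), 9), ((2, 1), (5, 10), 7), ((3, 1), (7,
    8), 6), ((3, 1), (7, 9), 4), ((4, 1), (9, 7), 3), ((4, 1), (9, 10), 7), ((6, 1), (8, 3),
    0), ((6, 1), (8, 7), 3), ((7, 1), (10, 5), 2), ((7, 1), (10, 9), 4)]
  G := [[0, 0x111111e1111ac42114482114484e11884811116111111ec82118842e1144111111e1111acc82e,
    0xa2c22ae3222d8a42425c21c64222d222d64842222c22d484ea2ca238442822c22722445222e76828294a8a2ad2848e22c2222d22a22c22b28422c67e482e,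
    0x1229229c22422c548d22d225824d22d229482e,
    0x2282f222624889ea141122a3d298411222ca23384e2211a222e722c2233222d2842a98422231d22672223bd24b98822942e],
    [0, 0,
    0x21c4a281221226d622223c63ec8122c889a24462222c23e42222c23e21c86ac122222c23e2282f222c21c1ee4821c4a284cf,
    0xd22d229418d22d225824522c22922d842d,
    0x24222d6226893a24222d6b84224222d6226893a24222d6b812223d222624883e223d2b844b]]

noncomputable def n3530 : Ent := ⟨e3530, noF, [], [], [(9, 14, [31810581956886796354777272293785310057557672019661700884176840250667855873, 0]), (9, 18, [30043303427623734937691929578474300150491519007939870628445900451935453185, 0]), (9, 17, [31810150492402119267275227079217218666319002904815489586567506653228077057, 0])]⟩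

def c3530 : PLift (Cov.check n3530.C.D v3530 = true) := ⟨by decide +kernel⟩

def b3530 : PLift (entF (fidx ts) 400 3530 n3530 = true) := ⟨by decide +kernel⟩

theorem g3530 : GoodF (fidx ts) 400 3530 := GoodF.ofV v3530 n3530 c3530.down b3530.down

/-- 46484647:2692/1 -/
noncomputable def e3531 : SCfg where
  D := {
    a := 8
    L := 10
    kp := 8
    inn := [(0, 1), (1, 0), (1, 2), (1, 3), (2, 1), (2, 3), (3, 1), (3, 2), (3, 4), (3, 5), (3, 7), (4,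
      3), (4, 7), (5, 3), (5, 6), (5, 7), (6, 5), (6, 7), (7, 3), (7, 4), (7, 5), (7, 6)]
    mix := [(0, 0), (0, 1), (0, 2), (1, 0), (1, 2), (1, 3), (2, 2), (2, 4), (3, 3), (3, 4), (3, 5), (4,
      1), (4, 4), (5, 5), (5, 6), (5, 7), (6, 6), (6, 8), (7, 1), (7, 8), (7, 9)]
    cl := [6, 3, 0, 0, 1, 2, 4, 7, 5, 8]
    chq := [(1, 2), (1, 4), (1, 5), (1, 7), (1, 8), (2, 1), (4, 1), (5, 1), (7, 1), (8, 1)]
    rng := [(0, 1), (0, 3), (1, 0), (1, 2), (1, 4), (1, 9), (2, 1), (2, 4), (3, 0), (3, 5), (4, 1), (4,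
      2), (5, 3), (5, 7), (6, 7), (6, 8), (7, 5), (7, 6), (8, 6), (8, 9), (9, 1), (9, 8)]
    lev := [] }
  links := [[1, 8, 9, 10], [8, 0, 10, 2, 3, 11], [3, 1, 10, 12], [11, 1, 2, 12, 4, 7, 5, 13], [7, 3, 12,
    9], [13, 3, 7, 6, 14, 15], [14, 5, 7, 16], [16, 6, 5, 3, 4, 9, 17]]
  P := {
    a := 8
    N := 18
    nb := [1794, 3341, 5130, 14518, 4744, 57544, 82080, 197240, 2563, 136593, 4615, 8458, 1564, 34856,
      98400, 24608, 147648, 66176]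
    tri := [(0, 1, 8), (0, 1, 10), (0, 8, 9), (0, 9, 10), (1, 2, 3), (1, 2, 10), (1, 3, 11), (1, 8,
      11), (2, 3, 12), (2, 10, 12), (3, 4, 7), (3, 4, 12), (3, 5, 7), (3, 5, 13), (3, 11, 13), (4,
      7, 9), (4, 9, 12), (5, 6, 7), (5, 6, 14), (5, 13, 15), (5, 14, 15), (6, 7, 16), (6, 14, 16),
      (7, 9, 17), (7, 16, 17)]
    fin := [0, 0, 2, 2, 4, 4, 4, 4, 0, 9, 2, 2, 4, 13, 14, 15, 16, 17]
    chd := [(4, 13), (4, 14), (4, 15), (4, 16), (4, 17)]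
    steps := [(0, 1), (0, 8), (2, 3), (2, 10), (2, 11), (4, 7), (4, 5), (4, 6), (4, 12)] }
  rep := [2, 4, 13, 9, 14, 16, 0, 15, 17]

noncomputable def v3531 : Cov.CovD where
  P := 3
  N := 6
  pl := [0, 1]
  lev := [⟨[], [], [], [3, 6], [(2, 0, [])]⟩,
    ⟨[], [(0, 0)], [(0, 0)], [6], [(2, 0, []), (3, 0, [])]⟩,
    ⟨[(0, 1)], [(0, 0), (1, 0), (1, 1)], [(0, 1)], [], [(2, 0, []), (4, 1, [2, 4, 5, 7,
      8])]⟩,
    ⟨[(0, 1), (1, 2)], [(1, 0), (1, 1), (1, 2), (2, 0), (2, 1), (2, 2)], [(0, 1), (0, 2),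
      (1, 2)], [], [(3, 0, []), (4, 1, [2, 4, 5, 7, 8]), (5, 2, [1])]⟩,
    ⟨[(1, 3), (2, 3)], [(2, 1), (3, 0), (3, 1), (3, 2)], [], [3], [(4, 1, [2, 4, 5, 7,
      8])]⟩,
    ⟨[(1, 3), (2, 3), (3, 4)], [(3, 0), (3, 1), (3, 2), (3, 4), (3, 7)], [(2, 4), (2, 7),
      (4, 7)], [], [(5, 2, [1]), (6, 4, [1]), (7, 7, [1])]⟩,
    ⟨[(3, 5)], [(5, 2), (5, 4), (5, 5), (5, 7)], [(4, 5)], [], [(6, 4, [1]), (8, 5, [1])]⟩,
    ⟨[(1, 3), (2, 3), (3, 4), (3, 5), (3, 6), (4, 5), (4, 6), (5, 6)], [(3, 0), (3, 1), (3,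
      2), (3, 5), (3, 8), (4, 1), (4, 5), (4, 8), (5, 2), (5, 4), (5, 5), (5, 7), (5, 8), (6,
      4), (6, 5), (6, 8)], [(5, 8)], [3], [(8, 5, [1]), (9, 8, [1])]⟩]
  Ta := [((2, 1), 0, 3), ((2, 4), 0, 1), ((3, 0), 0, 6), ((3, 5), 0, 2)]
  Tb := [((0, 1, 3), 6, 3, 0), ((1, 0, 2), 3, 6, 0), ((1, 0, 4), 3, 6, 1), ((1, 0, 9), 3, 6, 8),
    ((1, 2, 4), 3, 0, 1), ((1, 2, 9), 3, 0, 8), ((1, 4, 9), 3, 1, 8), ((2, 1, 4), 0, 3, 1),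
    ((3, 0, 5), 0, 6, 2), ((4, 1, 2), 1, 3, 0), ((5, 3, 7), 2, 0, 7), ((6, 7, 8), 4, 7, 5),
    ((7, 5, 6), 7, 2, 4), ((8, 6, 9), 5, 4, 8), ((9, 1, 8), 8, 3, 5)]
  Tc := [(1, 2, 4), (1, 2, 5), (1, 2, 7), (1, 2, 8), (1, 4, 5), (1, 4, 7), (1, 4, 8), (1, 5, 7),
    (1, 5, 8), (1, 7, 8)]
  Td := [((1, 2), (4, 1), 3), ((1, 2), (4, 2), 0), ((1, 4), (4, 1), 3), ((1, 4), (4, 2), 0), ((1,
    5), (4, 1), 3), ((1, 5), (4, 2), 0), ((1, 7), (4, 1), 3), ((1, 7), (4, 2), 0), ((1, 8),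
    (4, 1), 3), ((1, 8), (4, 2), 0), ((2, 1), (5, 3), 0), ((2, 1), (5, 7), 7), ((4, 1), (6,
    7), 7), ((4, 1), (6, 8), 5), ((5, 1), (8, 6), 4), ((5, 1), (8, 9), 8), ((7, 1), (7, 5),
    2), ((7, 1), (7, 6), 4), ((8, 1), (9, 1), 3), ((8, 1), (9, 8), 5)]
  G := [[0, 0x111e18448111e14824111e12482e, 0, 0x2222982248548222222d4824222222d1842e,
    0x22272e8ea814115225388452213884e31672253422aecaa4984214e9a2362bd8f225b5842e], [0, 0,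
    0x222e222bbb56fe148222eb44761229b92ba1c4a1, 0x222222d18122222512281c843,
    0xd22184222276f12f225b184222272fd2f225b1844b]]

noncomputable def n3531 : Ent := ⟨e3531, noF, [], [], []⟩

def c3531 : PLift (Cov.check n3531.C.D v3531 = true) := ⟨by decide +kernel⟩

def b3531 : PLift (entF (fidx ts) 400 3531 n3531 = true) := ⟨by decide +kernel⟩

theorem g3531 : GoodF (fidx ts) 400 3531 := GoodF.ofV v3531 n3531 c3531.down b3531.down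

/-- 46484647:2692/2 -/
noncomputable def e3532 : SCfg where
  D := {
    a := 8
    L := 10
    kp := 8
    inn := [(0, 1), (1, 0), (1, 2), (1, 3), (2, 1), (2, 3), (3, 1), (3, 2), (3, 4), (3, 5), (3, 7), (4,
      3), (4, 7), (5, 3), (5, 6), (5, 7), (6, 5), (6, 7), (7, 3), (7, 4), (7, 5), (7, 6)]
    mix := [(0, 0), (0, 1), (0, 2), (1, 0), (1, 2), (1, 3), (2, 2), (2, 4), (3, 3), (3, 4), (3, 5), (4,
      4), (4, 6), (5, 5), (5, 7), (5, 8), (6, 7), (6, 9), (7, 1), (7, 6), (7, 9)]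
    cl := [6, 3, 0, 0, 1, 2, 7, 4, 8, 5]
    chq := [(1, 2), (1, 3), (1, 4), (1, 5), (1, 8), (2, 1), (3, 1), (4, 1), (5, 1), (8, 1)]
    rng := [(0, 1), (0, 3), (1, 0), (1, 2), (1, 6), (1, 9), (2, 1), (2, 4), (3, 0), (3, 5), (4, 2), (4,
      6), (5, 3), (5, 8), (6, 1), (6, 4), (7, 8), (7, 9), (8, 5), (8, 7), (9, 1), (9, 7)]
    lev := [] }
  links := [[1, 8, 9, 10], [8, 0, 10, 2, 3, 11], [3, 1, 10, 12], [11, 1, 2, 12, 4, 7, 5, 13], [7, 3, 12,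
    14], [13, 3, 7, 6, 15, 16], [15, 5, 7, 17], [17, 6, 5, 3, 4, 14, 9]]
  P := {
    a := 8
    N := 18
    nb := [1794, 3341, 5130, 14518, 20616, 106696, 164000, 148088, 2563, 148865, 4615, 8458, 17436,
      67624, 4752, 196704, 40992, 33472]
    tri := [(0, 1, 8), (0, 1, 10), (0, 8, 9), (0, 9, 10), (1, 2, 3), (1, 2, 10), (1, 3, 11), (1, 8,
      11), (2, 3, 12), (2, 10, 12), (3, 4, 7), (3, 4, 12), (3, 5, 7), (3, 5, 13), (3, 11, 13), (4,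
      7, 14), (4, 12, 14), (5, 6, 7), (5, 6, 15), (5, 13, 16), (5, 15, 16), (6, 7, 17), (6, 15,
      17), (7, 9, 14), (7, 9, 17)]
    fin := [0, 0, 2, 2, 4, 4, 4, 4, 0, 9, 2, 2, 4, 13, 14, 15, 16, 17]
    chd := [(4, 13), (4, 15), (4, 16), (4, 17), (9, 4)]
    steps := [(0, 1), (0, 8), (2, 3), (2, 10), (2, 11), (4, 7), (4, 5), (4, 6), (4, 12)] }
  rep := [2, 4, 13, 9, 15, 17, 0, 14, 16]

noncomputable def v3532 : Cov.CovD where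
  P := 3
  N := 6
  pl := [0, 6]
  lev := [⟨[], [], [(0, 3)], [6], [(1, 3, [1]), (2, 0, [])]⟩,
    ⟨[], [(0, 0), (0, 3)], [(0, 0)], [6], [(2, 0, []), (3, 0, [])]⟩,
    ⟨[(0, 1)], [(0, 0), (1, 0), (1, 1)], [(0, 1)], [], [(2, 0, []), (4, 1, [2, 3, 4, 5,
      8])]⟩,
    ⟨[(0, 1), (1, 2)], [(1, 0), (1, 1), (1, 2), (2, 0), (2, 1), (2, 2)], [(0, 1), (0, 2),
      (1, 2)], [], [(3, 0, []), (4, 1, [2, 3, 4, 5, 8]), (5, 2, [1])]⟩,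
    ⟨[(1, 3), (2, 3)], [(2, 1), (3, 0), (3, 1), (3, 2)], [], [7], [(4, 1, [2, 3, 4, 5,
      8])]⟩,
    ⟨[(1, 3), (2, 3), (3, 4)], [(3, 0), (3, 1), (3, 2), (3, 4), (3, 8)], [(2, 4), (2, 8),
      (4, 8)], [], [(5, 2, [1]), (7, 4, [1]), (8, 8, [1])]⟩,
    ⟨[(3, 5)], [(5, 2), (5, 4), (5, 5), (5, 8)], [(4, 5)], [], [(7, 4, [1]), (9, 5, [1])]⟩,
    ⟨[(1, 3), (2, 3), (3, 4), (3, 5), (3, 6), (4, 5), (4, 6), (5, 6)], [(0, 3), (3, 0), (3,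
      1), (3, 2), (3, 3), (3, 5), (4, 1), (4, 3), (4, 5), (5, 2), (5, 3), (5, 4), (5, 5), (5,
      8), (6, 3), (6, 4), (6, 5)], [(3, 5)], [7], [(1, 3, [1]), (9, 5, [1])]⟩]
  Ta := [((2, 1), 0, 3), ((2, 4), 0, 1), ((3, 0), 0, 6), ((3, 5), 0, 2)]
  Tb := [((0, 1, 3), 6, 3, 0), ((1, 0, 2), 3, 6, 0), ((1, 0, 6), 3, 6, 7), ((1, 0, 9), 3, 6, 5),
    ((1, 2, 6), 3, 0, 7), ((1, 2, 9), 3, 0, 5), ((1, 6, 9), 3, 7, 5), ((2, 1, 4), 0, 3, 1),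
    ((3, 0, 5), 0, 6, 2), ((4, 2, 6), 1, 0, 7), ((5, 3, 8), 2, 0, 8), ((6, 1, 4), 7, 3, 1),
    ((7, 8, 9), 4, 8, 5), ((8, 5, 7), 8, 2, 4), ((9, 1, 7), 5, 3, 4)]
  Tc := [(1, 2, 3), (1, 2, 4), (1, 2, 5), (1, 2, 8), (1, 3, 4), (1, 3, 5), (1, 3, 8), (1, 4, 5),
    (1, 4, 8), (1, 5, 8)]
  Td := [((1, 2), (4, 2), 0), ((1, 2), (4, 6), 7), ((1, 3), (4, 2), 0), ((1, 3), (4, 6), 7), ((1,
    4), (4, 2), 0), ((1, 4), (4, 6), 7), ((1, 5), (4, 2), 0), ((1, 5), (4, 6), 7), ((1, 8),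
    (4, 2), 0), ((1, 8), (4, 6), 7), ((2, 1), (5, 3), 0), ((2, 1), (5, 8), 8), ((3, 1), (1,
    0), 6), ((3, 1), (1, 2), 0), ((3, 1), (1, 6), 7), ((3, 1), (1, 9), 5), ((4, 1), (7, 8),
    8), ((4, 1), (7, 9), 5), ((5, 1), (9, 1), 3), ((5, 1), (9, 7), 4), ((8, 1), (8, 5), 2),
    ((8, 1), (8, 7), 4)]
  G := [[0, 0x11871111e1a448114b1111e16884111e1112d1a482e, 0,
    0x222222d222222d9428222252222952222c8924222222d222222d5842e,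
    0x225886a282427ac1421111622a3588c7692135162253528268ea8984122184211271e2253522c2ec2fa288c98ae],
    [0, 0, 0x24255b622a246522a8b3a8c4282226225cc842122ace3e28335ea948e1,
    0x222222d22229224d482224422229222222d5c283,
    0xc22284224135622a35812812236a86f22b2368d81a2236ac6f225b24339e22ab5844b]]

noncomputable def n3532 : Ent := ⟨e3532, noF, [], [], []⟩

def c3532 : PLift (Cov.check n3532.C.D v3532 = true) := ⟨by decide +kernel⟩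

def b3532 : PLift (entF (fidx ts) 400 3532 n3532 = true) := ⟨by decide +kernel⟩

theorem g3532 : GoodF (fidx ts) 400 3532 := GoodF.ofV v3532 n3532 c3532.down b3532.down

/-- 46484647:2692/3 -/
noncomputable def e3533 : SCfg where
  D := {
    a := 8
    L := 10
    kp := 8
    inn := [(0, 1), (1, 0), (1, 2), (1, 3), (2, 1), (2, 3), (3, 1), (3, 2), (3, 4), (3, 5), (3, 7), (4,
      3), (4, 7), (5, 3), (5, 6), (5, 7), (6, 5), (6, 7), (7, 3), (7, 4), (7, 5), (7, 6)]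
    mix := [(0, 0), (0, 1), (0, 2), (1, 0), (1, 2), (1, 3), (2, 2), (2, 4), (3, 3), (3, 4), (3, 5), (4,
      4), (4, 6), (5, 5), (5, 7), (5, 8), (6, 1), (6, 7), (7, 1), (7, 6), (7, 9)]
    cl := [5, 2, 0, 0, 1, 3, 6, 4, 7, 8]
    chq := [(1, 2), (1, 3), (1, 4), (1, 7), (1, 8), (2, 1), (3, 1), (4, 1), (7, 1), (8, 1)]
    rng := [(0, 1), (0, 3), (1, 0), (1, 2), (1, 7), (1, 9), (2, 1), (2, 4), (3, 0), (3, 5), (4, 2), (4,
      6), (5, 3), (5, 8), (6, 4), (6, 9), (7, 1), (7, 8), (8, 5), (8, 7), (9, 1), (9, 6)]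
    lev := [] }
  links := [[1, 8, 9, 10], [8, 0, 10, 2, 3, 11], [3, 1, 10, 12], [11, 1, 2, 12, 4, 7, 5, 13], [7, 3, 12,
    14], [13, 3, 7, 6, 15, 16], [15, 5, 7, 9], [9, 6, 5, 3, 4, 14, 17]]
  P := {
    a := 8
    N := 18
    nb := [1794, 3341, 5130, 14518, 20616, 106696, 33440, 148088, 2563, 165313, 4615, 8458, 17436,
      67624, 135312, 66144, 40992, 17024]
    tri := [(0, 1, 8), (0, 1, 10), (0, 8, 9), (0, 9, 10), (1, 2, 3), (1, 2, 10), (1, 3, 11), (1, 8,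
      11), (2, 3, 12), (2, 10, 12), (3, 4, 7), (3, 4, 12), (3, 5, 7), (3, 5, 13), (3, 11, 13), (4,
      7, 14), (4, 12, 14), (5, 6, 7), (5, 6, 15), (5, 13, 16), (5, 15, 16), (6, 7, 9), (6, 9, 15),
      (7, 9, 17), (7, 14, 17)]
    fin := [0, 0, 2, 2, 4, 4, 6, 4, 0, 6, 2, 2, 4, 13, 14, 15, 16, 17]
    chd := [(4, 13), (4, 15), (4, 16), (4, 17), (6, 4)]
    steps := [(0, 1), (0, 8), (2, 3), (2, 10), (2, 11), (4, 7), (4, 5), (4, 12), (6, 9)] }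
  rep := [2, 4, 6, 13, 15, 0, 14, 16, 17]

noncomputable def v3533 : Cov.CovD where
  P := 3
  N := 6
  pl := [0, 6]
  lev := [⟨[], [], [(0, 2)], [5], [(1, 2, [1]), (2, 0, [])]⟩,
    ⟨[], [(0, 0), (0, 2)], [(0, 0)], [5], [(2, 0, []), (3, 0, [])]⟩,
    ⟨[(0, 1)], [(0, 0), (1, 0), (1, 1)], [(0, 1)], [], [(2, 0, []), (4, 1, [2, 3, 4, 7,
      8])]⟩,
    ⟨[(0, 1), (1, 2)], [(1, 0), (1, 1), (1, 3), (2, 0), (2, 1), (2, 3)], [(0, 1), (0, 3),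
      (1, 3)], [], [(3, 0, []), (4, 1, [2, 3, 4, 7, 8]), (5, 3, [1])]⟩,
    ⟨[(1, 3), (2, 3)], [(2, 1), (3, 0), (3, 1), (3, 3)], [], [6], [(4, 1, [2, 3, 4, 7,
      8])]⟩,
    ⟨[(1, 3), (2, 3), (3, 4)], [(3, 0), (3, 1), (3, 3), (3, 4), (3, 7)], [(3, 4), (3, 7),
      (4, 7)], [], [(5, 3, [1]), (7, 4, [1]), (8, 7, [1])]⟩,
    ⟨[(3, 5)], [(0, 2), (5, 2), (5, 3), (5, 4), (5, 7)], [(2, 4)], [], [(1, 2, [1]), (7, 4,
      [1])]⟩,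
    ⟨[(1, 3), (2, 3), (3, 4), (3, 5), (3, 6), (4, 5), (4, 6), (5, 6)], [(0, 2), (3, 0), (3,
      1), (3, 2), (3, 3), (3, 8), (4, 1), (4, 2), (4, 8), (5, 2), (5, 3), (5, 4), (5, 7), (5,
      8), (6, 2), (6, 4), (6, 8)], [(2, 8)], [6], [(1, 2, [1]), (9, 8, [1])]⟩]
  Ta := [((2, 1), 0, 2), ((2, 4), 0, 1), ((3, 0), 0, 5), ((3, 5), 0, 3)]
  Tb := [((0, 1, 3), 5, 2, 0), ((1, 0, 2), 2, 5, 0), ((1, 0, 7), 2, 5, 4), ((1, 0, 9), 2, 5, 8),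
    ((1, 2, 7), 2, 0, 4), ((1, 2, 9), 2, 0, 8), ((1, 7, 9), 2, 4, 8), ((2, 1, 4), 0, 2, 1),
    ((3, 0, 5), 0, 5, 3), ((4, 2, 6), 1, 0, 6), ((5, 3, 8), 3, 0, 7), ((6, 4, 9), 6, 1, 8),
    ((7, 1, 8), 4, 2, 7), ((8, 5, 7), 7, 3, 4), ((9, 1, 6), 8, 2, 6)]
  Tc := [(1, 2, 3), (1, 2, 4), (1, 2, 7), (1, 2, 8), (1, 3, 4), (1, 3, 7), (1, 3, 8), (1, 4, 7),
    (1, 4, 8), (1, 7, 8)]
  Td := [((1, 2), (4, 2), 0), ((1, 2), (4, 6), 6), ((1, 3), (4, 2), 0), ((1, 3), (4, 6), 6), ((1,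
    4), (4, 2), 0), ((1, 4), (4, 6), 6), ((1, 7), (4, 2), 0), ((1, 7), (4, 6), 6), ((1, 8),
    (4, 2), 0), ((1, 8), (4, 6), 6), ((2, 1), (1, 0), 5), ((2, 1), (1, 2), 0), ((2, 1), (1,
    7), 4), ((2, 1), (1, 9), 8), ((3, 1), (5, 3), 0), ((3, 1), (5, 8), 7), ((4, 1), (7, 1),
    2), ((4, 1), (7, 8), 7), ((7, 1), (8, 5), 3), ((7, 1), (8, 7), 4), ((8, 1), (9, 1), 2),
    ((8, 1), (9, 6), 6)]
  G := [[0, 0x11c111c1a11c111c1a64811c111c16c1111c1aa84c,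
    0x281128246e8ee2824a24eec54822a1188424112261128242e8ee2824e24eecd42e,
    0x11c2111922cc922d4255c22514d21cc528d82c,
    0x21191a213928883a28223229ec54211112122788c21112321352112211a2179282a9a28229a8ecd82a],
    [0, 0, 0, 0x59cd22dd922c12449224dd52299922cc29,
    0x281b2b829422942112234d45223282b21b2239221b581c223282b21b3298321b522a89362821322a126dc12a]]

noncomputable def n3533 : Ent := ⟨e3533, noF, [], [], []⟩

def c3533 : PLift (Cov.check n3533.C.D v3533 = true) := ⟨by decide +kernel⟩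

def b3533 : PLift (entF (fidx ts) 400 3533 n3533 = true) := ⟨by decide +kernel⟩

theorem g3533 : GoodF (fidx ts) 400 3533 := GoodF.ofV v3533 n3533 c3533.down b3533.down

/-- 46484647:2692/4 -/
noncomputable def e3534 : SCfg where
  D := {
    a := 8
    L := 10
    kp := 8
    inn := [(0, 1), (1, 0), (1, 2), (1, 3), (2, 1), (2, 3), (3, 1), (3, 2), (3, 4), (3, 5), (3, 7), (4,
      3), (4, 7), (5, 3), (5, 6), (5, 7), (6, 5), (6, 7), (7, 3), (7, 4), (7, 5), (7, 6)]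
    mix := [(0, 0), (0, 1), (0, 2), (1, 0), (1, 2), (1, 3), (2, 2), (2, 4), (3, 3), (3, 4), (3, 5), (4,
      4), (4, 6), (5, 1), (5, 5), (5, 7), (6, 1), (6, 8), (7, 6), (7, 8), (7, 9)]
    cl := [5, 3, 0, 0, 1, 2, 6, 7, 4, 8]
    chq := [(1, 2), (1, 3), (1, 4), (1, 7), (1, 8), (2, 1), (3, 1), (4, 1), (7, 1), (8, 1)]
    rng := [(0, 1), (0, 3), (1, 0), (1, 2), (1, 7), (1, 8), (2, 1), (2, 4), (3, 0), (3, 5), (4, 2), (4,
      6), (5, 3), (5, 7), (6, 4), (6, 9), (7, 1), (7, 5), (8, 1), (8, 9), (9, 6), (9, 8)]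
    lev := [] }
  links := [[1, 8, 9, 10], [8, 0, 10, 2, 3, 11], [3, 1, 10, 12], [11, 1, 2, 12, 4, 7, 5, 13], [7, 3, 12,
    14], [13, 3, 7, 6, 9, 15], [9, 5, 7, 16], [16, 6, 5, 3, 4, 14, 17]]
  P := {
    a := 8
    N := 18
    nb := [1794, 3341, 5130, 14518, 20616, 41672, 66208, 213112, 2563, 99681, 4615, 8458, 17436,
      34856, 135312, 8736, 131776, 82048]
    tri := [(0, 1, 8), (0, 1, 10), (0, 8, 9), (0, 9, 10), (1, 2, 3), (1, 2, 10), (1, 3, 11), (1, 8,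
      11), (2, 3, 12), (2, 10, 12), (3, 4, 7), (3, 4, 12), (3, 5, 7), (3, 5, 13), (3, 11, 13), (4,
      7, 14), (4, 12, 14), (5, 6, 7), (5, 6, 9), (5, 9, 15), (5, 13, 15), (6, 7, 16), (6, 9, 16),
      (7, 14, 17), (7, 16, 17)]
    fin := [0, 0, 2, 2, 4, 4, 6, 4, 0, 6, 2, 2, 4, 13, 14, 15, 16, 17]
    chd := [(4, 13), (4, 15), (4, 16), (4, 17), (6, 4)]
    steps := [(0, 1), (0, 8), (2, 3), (2, 10), (2, 11), (4, 7), (4, 5), (4, 12), (6, 9)] }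
  rep := [2, 4, 13, 6, 16, 0, 14, 15, 17]

noncomputable def v3534 : Cov.CovD where
  P := 3
  N := 6
  pl := [0, 6]
  lev := [⟨[], [], [(0, 3)], [5], [(1, 3, [1]), (2, 0, [])]⟩,
    ⟨[], [(0, 0), (0, 3)], [(0, 0)], [5], [(2, 0, []), (3, 0, [])]⟩,
    ⟨[(0, 1)], [(0, 0), (1, 0), (1, 1)], [(0, 1)], [], [(2, 0, []), (4, 1, [2, 3, 4, 7,
      8])]⟩,
    ⟨[(0, 1), (1, 2)], [(1, 0), (1, 1), (1, 2), (2, 0), (2, 1), (2, 2)], [(0, 1), (0, 2),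
      (1, 2)], [], [(3, 0, []), (4, 1, [2, 3, 4, 7, 8]), (5, 2, [1])]⟩,
    ⟨[(1, 3), (2, 3)], [(2, 1), (3, 0), (3, 1), (3, 2)], [], [6], [(4, 1, [2, 3, 4, 7,
      8])]⟩,
    ⟨[(1, 3), (2, 3), (3, 4)], [(0, 3), (3, 0), (3, 1), (3, 2), (3, 3), (3, 7)], [(2, 3),
      (2, 7), (3, 7)], [], [(1, 3, [1]), (5, 2, [1]), (7, 7, [1])]⟩,
    ⟨[(3, 5)], [(0, 3), (5, 2), (5, 3), (5, 4), (5, 7)], [(3, 4)], [], [(1, 3, [1]), (8, 4,
      [1])]⟩,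
    ⟨[(1, 3), (2, 3), (3, 4), (3, 5), (3, 6), (4, 5), (4, 6), (5, 6)], [(3, 0), (3, 1), (3,
      2), (3, 4), (3, 8), (4, 1), (4, 4), (4, 8), (5, 2), (5, 3), (5, 4), (5, 7), (5, 8), (6,
      3), (6, 4), (6, 8)], [(4, 8)], [6], [(8, 4, [1]), (9, 8, [1])]⟩]
  Ta := [((2, 1), 0, 3), ((2, 4), 0, 1), ((3, 0), 0, 5), ((3, 5), 0, 2)]
  Tb := [((0, 1, 3), 5, 3, 0), ((1, 0, 2), 3, 5, 0), ((1, 0, 7), 3, 5, 7), ((1, 0, 8), 3, 5, 4),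
    ((1, 2, 7), 3, 0, 7), ((1, 2, 8), 3, 0, 4), ((1, 7, 8), 3, 7, 4), ((2, 1, 4), 0, 3, 1),
    ((3, 0, 5), 0, 5, 2), ((4, 2, 6), 1, 0, 6), ((5, 3, 7), 2, 0, 7), ((6, 4, 9), 6, 1, 8),
    ((7, 1, 5), 7, 3, 2), ((8, 1, 9), 4, 3, 8), ((9, 6, 8), 8, 6, 4)]
  Tc := [(1, 2, 3), (1, 2, 4), (1, 2, 7), (1, 2, 8), (1, 3, 4), (1, 3, 7), (1, 3, 8), (1, 4, 7),
    (1, 4, 8), (1, 7, 8)]
  Td := [((1, 2), (4, 2), 0), ((1, 2), (4, 6), 6), ((1, 3), (4, 2), 0), ((1, 3), (4, 6), 6), ((1,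
    4), (4, 2), 0), ((1, 4), (4, 6), 6), ((1, 7), (4, 2), 0), ((1, 7), (4, 6), 6), ((1, 8),
    (4, 2), 0), ((1, 8), (4, 6), 6), ((2, 1), (5, 3), 0), ((2, 1), (5, 7), 7), ((3, 1), (1,
    0), 5), ((3, 1), (1, 2), 0), ((3, 1), (1, 7), 7), ((3, 1), (1, 8), 4), ((4, 1), (8, 1),
    3), ((4, 1), (8, 9), 8), ((7, 1), (7, 1), 3), ((7, 1), (7, 5), 2), ((8, 1), (9, 6), 6),
    ((8, 1), (9, 8), 4)]
  G := [[0, 0x111e1111e16428111e1111e16884111e1111e1a482e, 0,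
    0x2222922229c4282222522225582422225228222222dd842e,
    0x229a8a7a222e649ac1431a2184c211352722535225aa5a2828a442e98422512251584335e223122c83a612c98ae],
    [0, 0, 0x2247362445228b3a2822ca9c421223d23ec4db22822a222deb48a1,
    0x22225228222222dd812222222d222222d58443,
    0x22582227858122251122293584221ce32b862d81a241225ce3223b2227b96229bd844b]]

noncomputable def n3534 : Ent := ⟨e3534, noF, [], [], []⟩

def c3534 : PLift (Cov.check n3534.C.D v3534 = true) := ⟨by decide +kernel⟩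

def b3534 : PLift (entF (fidx ts) 400 3534 n3534 = true) := ⟨by decide +kernel⟩

theorem g3534 : GoodF (fidx ts) 400 3534 := GoodF.ofV v3534 n3534 c3534.down b3534.down

/-- 46484647:2692/5 -/
noncomputable def e3535 : SCfg where
  D := {
    a := 8
    L := 10
    kp := 8
    inn := [(0, 1), (1, 0), (1, 2), (1, 3), (2, 1), (2, 3), (3, 1), (3, 2), (3, 4), (3, 5), (3, 7), (4,
      3), (4, 7), (5, 3), (5, 6), (5, 7), (6, 5), (6, 7), (7, 3), (7, 4), (7, 5), (7, 6)]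
    mix := [(0, 0), (0, 1), (0, 2), (1, 0), (1, 2), (1, 3), (2, 2), (2, 4), (3, 3), (3, 4), (3, 5), (4,
      4), (4, 6), (5, 1), (5, 5), (5, 7), (6, 7), (6, 8), (7, 6), (7, 8), (7, 9)]
    cl := [6, 3, 0, 0, 1, 2, 7, 4, 5, 8]
    chq := [(1, 2), (1, 3), (1, 4), (1, 5), (1, 8), (2, 1), (3, 1), (4, 1), (5, 1), (8, 1)]
    rng := [(0, 1), (0, 3), (1, 0), (1, 2), (1, 5), (1, 7), (2, 1), (2, 4), (3, 0), (3, 5), (4, 2), (4,
      6), (5, 1), (5, 3), (6, 4), (6, 9), (7, 1), (7, 8), (8, 7), (8, 9), (9, 6), (9, 8)]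
    lev := [] }
  links := [[1, 8, 9, 10], [8, 0, 10, 2, 3, 11], [3, 1, 10, 12], [11, 1, 2, 12, 4, 7, 5, 13], [7, 3, 12,
    14], [13, 3, 7, 6, 15, 9], [15, 5, 7, 16], [16, 6, 5, 3, 4, 14, 17]]
  P := {
    a := 8
    N := 18
    nb := [1794, 3341, 5130, 14518, 20616, 41672, 98464, 213112, 2563, 42273, 4615, 8458, 17436, 2600,
      135312, 66144, 164032, 82048]
    tri := [(0, 1, 8), (0, 1, 10), (0, 8, 9), (0, 9, 10), (1, 2, 3), (1, 2, 10), (1, 3, 11), (1, 8,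
      11), (2, 3, 12), (2, 10, 12), (3, 4, 7), (3, 4, 12), (3, 5, 7), (3, 5, 13), (3, 11, 13), (4,
      7, 14), (4, 12, 14), (5, 6, 7), (5, 6, 15), (5, 9, 13), (5, 9, 15), (6, 7, 16), (6, 15, 16),
      (7, 14, 17), (7, 16, 17)]
    fin := [0, 0, 2, 2, 4, 4, 4, 4, 0, 9, 2, 2, 4, 13, 14, 15, 16, 17]
    chd := [(4, 13), (4, 15), (4, 16), (4, 17), (9, 4)]
    steps := [(0, 1), (0, 8), (2, 3), (2, 10), (2, 11), (4, 7), (4, 5), (4, 6), (4, 12)] }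
  rep := [2, 4, 13, 9, 15, 16, 0, 14, 17]

noncomputable def v3535 : Cov.CovD where
  P := 3
  N := 6
  pl := [0, 6]
  lev := [⟨[], [], [(0, 3)], [6], [(1, 3, [1]), (2, 0, [])]⟩,
    ⟨[], [(0, 0), (0, 3)], [(0, 0)], [6], [(2, 0, []), (3, 0, [])]⟩,
    ⟨[(0, 1)], [(0, 0), (1, 0), (1, 1)], [(0, 1)], [], [(2, 0, []), (4, 1, [2, 3, 4, 5,
      8])]⟩,
    ⟨[(0, 1), (1, 2)], [(1, 0), (1, 1), (1, 2), (2, 0), (2, 1), (2, 2)], [(0, 1), (0, 2),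
      (1, 2)], [], [(3, 0, []), (4, 1, [2, 3, 4, 5, 8]), (5, 2, [1])]⟩,
    ⟨[(1, 3), (2, 3)], [(2, 1), (3, 0), (3, 1), (3, 2)], [], [7], [(4, 1, [2, 3, 4, 5,
      8])]⟩,
    ⟨[(1, 3), (2, 3), (3, 4)], [(0, 3), (3, 0), (3, 1), (3, 2), (3, 3), (3, 4)], [(2, 3),
      (2, 4), (3, 4)], [], [(1, 3, [1]), (5, 2, [1]), (7, 4, [1])]⟩,
    ⟨[(3, 5)], [(5, 2), (5, 3), (5, 4), (5, 5)], [(4, 5)], [], [(7, 4, [1]), (8, 5, [1])]⟩,
    ⟨[(1, 3), (2, 3), (3, 4), (3, 5), (3, 6), (4, 5), (4, 6), (5, 6)], [(3, 0), (3, 1), (3,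
      2), (3, 5), (3, 8), (4, 1), (4, 5), (4, 8), (5, 2), (5, 3), (5, 4), (5, 5), (5, 8), (6,
      4), (6, 5), (6, 8)], [(5, 8)], [7], [(8, 5, [1]), (9, 8, [1])]⟩]
  Ta := [((2, 1), 0, 3), ((2, 4), 0, 1), ((3, 0), 0, 6), ((3, 5), 0, 2)]
  Tb := [((0, 1, 3), 6, 3, 0), ((1, 0, 2), 3, 6, 0), ((1, 0, 5), 3, 6, 2), ((1, 0, 7), 3, 6, 4),
    ((1, 2, 5), 3, 0, 2), ((1, 2, 7), 3, 0, 4), ((1, 5, 7), 3, 2, 4), ((2, 1, 4), 0, 3, 1),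
    ((3, 0, 5), 0, 6, 2), ((4, 2, 6), 1, 0, 7), ((5, 1, 3), 2, 3, 0), ((6, 4, 9), 7, 1, 8),
    ((7, 1, 8), 4, 3, 5), ((8, 7, 9), 5, 4, 8), ((9, 6, 8), 8, 7, 5)]
  Tc := [(1, 2, 3), (1, 2, 4), (1, 2, 5), (1, 2, 8), (1, 3, 4), (1, 3, 5), (1, 3, 8), (1, 4, 5),
    (1, 4, 8), (1, 5, 8)]
  Td := [((1, 2), (4, 2), 0), ((1, 2), (4, 6), 7), ((1, 3), (4, 2), 0), ((1, 3), (4, 6), 7), ((1,
    4), (4, 2), 0), ((1, 4), (4, 6), 7), ((1, 5), (4, 2), 0), ((1, 5), (4, 6), 7), ((1, 8),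
    (4, 2), 0), ((1, 8), (4, 6), 7), ((2, 1), (5, 1), 3), ((2, 1), (5, 3), 0), ((3, 1), (1,
    0), 6), ((3, 1), (1, 2), 0), ((3, 1), (1, 5), 2), ((3, 1), (1, 7), 4), ((4, 1), (7, 1),
    3), ((4, 1), (7, 8), 5), ((5, 1), (8, 7), 4), ((5, 1), (8, 9), 8), ((8, 1), (9, 6), 7),
    ((8, 1), (9, 8), 5)]
  G := [[0, 0x111169111e1c4281111a51111a56884111e1111e1a442e, 0,
    0x2222922229942822225222259824221222222d92222c4942e,
    0x2227ca5a2aa8c1471272188c682253516222b3522ac6a288c98421122a15842292137562435225e86a898ae],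
    [0, 0, 0x214229822afbd2f6d482222a22defe225858424226d648972a22988c4e1,
    0x222222d222222d9482222222d222222d58243,
    0x22822858122118814221222e15846ace213b962581a64222288e21b22dd622cbd844f]]

noncomputable def n3535 : Ent := ⟨e3535, noF, [], [], []⟩

def c3535 : PLift (Cov.check n3535.C.D v3535 = true) := ⟨by decide +kernel⟩

def b3535 : PLift (entF (fidx ts) 400 3535 n3535 = true) := ⟨by decide +kernel⟩

theorem g3535 : GoodF (fidx ts) 400 3535 := GoodF.ofV v3535 n3535 c3535.down b3535.down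

/-- 46484647:2692 -/
noncomputable def e3536 : SCfg where
  D := {
    a := 8
    L := 11
    kp := 9
    inn := [(0, 1), (1, 0), (1, 2), (1, 3), (2, 1), (2, 3), (3, 1), (3, 2), (3, 4), (3, 5), (3, 7), (4,
      3), (4, 7), (5, 3), (5, 6), (5, 7), (6, 5), (6, 7), (7, 3), (7, 4), (7, 5), (7, 6)]
    mix := [(0, 0), (0, 1), (0, 2), (1, 0), (1, 2), (1, 3), (2, 2), (2, 4), (3, 3), (3, 4), (3, 5), (4,
      4), (4, 6), (5, 5), (5, 7), (5, 8), (6, 7), (6, 9), (7, 6), (7, 9), (7, 10)]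
    cl := [5, 9, 0, 0, 1, 2, 6, 3, 7, 4, 8]
    chq := [(1, 2), (1, 3), (1, 4), (1, 7), (1, 8), (2, 1), (3, 1), (4, 1), (7, 1), (8, 1)]
    rng := [(0, 1), (0, 3), (1, 0), (1, 2), (2, 1), (2, 4), (3, 0), (3, 5), (4, 2), (4, 6), (5, 3), (5,
      8), (6, 4), (6, 10), (7, 8), (7, 9), (8, 5), (8, 7), (9, 7), (9, 10), (10, 6), (10, 9)]
    lev := [] }
  links := [[1, 8, 9, 10], [8, 0, 10, 2, 3, 11], [3, 1, 10, 12], [11, 1, 2, 12, 4, 7, 5, 13], [7, 3, 12,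
    14], [13, 3, 7, 6, 15, 16], [15, 5, 7, 17], [17, 6, 5, 3, 4, 14, 18]]
  P := {
    a := 8
    N := 19
    nb := [1794, 3341, 5130, 14518, 20616, 106696, 164000, 409720, 2563, 1281, 4615, 8458, 17436,
      67624, 266384, 196704, 40992, 295104, 147584]
    tri := [(0, 1, 8), (0, 1, 10), (0, 8, 9), (0, 9, 10), (1, 2, 3), (1, 2, 10), (1, 3, 11), (1, 8,
      11), (2, 3, 12), (2, 10, 12), (3, 4, 7), (3, 4, 12), (3, 5, 7), (3, 5, 13), (3, 11, 13), (4,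
      7, 14), (4, 12, 14), (5, 6, 7), (5, 6, 15), (5, 13, 16), (5, 15, 16), (6, 7, 17), (6, 15,
      17), (7, 14, 18), (7, 17, 18)]
    fin := [0, 0, 2, 2, 4, 4, 4, 4, 0, 9, 2, 2, 4, 13, 14, 15, 16, 17, 18]
    chd := [(4, 13), (4, 15), (4, 16), (4, 17), (4, 18)]
    steps := [(0, 1), (0, 8), (2, 3), (2, 10), (2, 11), (4, 7), (4, 5), (4, 6), (4, 12)] }
  rep := [2, 4, 13, 15, 17, 0, 14, 16, 18, 9]

noncomputable def v3536 : Cov.CovD where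
  P := 3
  N := 7
  pl := [0, 1, 6]
  lev := [⟨[], [], [], [5, 9], [(2, 0, [])]⟩,
    ⟨[], [(0, 0)], [(0, 0)], [5], [(2, 0, []), (3, 0, [])]⟩,
    ⟨[(0, 1)], [(0, 0), (1, 0), (1, 1)], [(0, 1)], [], [(2, 0, []), (4, 1, [2, 3, 4, 7,
      8])]⟩,
    ⟨[(0, 1), (1, 2)], [(1, 0), (1, 1), (1, 2), (2, 0), (2, 1), (2, 2)], [(0, 1), (0, 2),
      (1, 2)], [], [(3, 0, []), (4, 1, [2, 3, 4, 7, 8]), (5, 2, [1])]⟩,
    ⟨[(1, 3), (2, 3)], [(2, 1), (3, 0), (3, 1), (3, 2)], [], [6], [(4, 1, [2, 3, 4, 7,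
      8])]⟩,
    ⟨[(1, 3), (2, 3), (3, 4)], [(3, 0), (3, 1), (3, 2), (3, 3), (3, 7)], [(2, 3), (2, 7),
      (3, 7)], [], [(5, 2, [1]), (7, 3, [1]), (8, 7, [1])]⟩,
    ⟨[(3, 5)], [(5, 2), (5, 3), (5, 4), (5, 7)], [(3, 4)], [], [(7, 3, [1]), (9, 4, [1])]⟩,
    ⟨[(1, 3), (2, 3), (3, 4), (3, 5), (3, 6), (4, 5), (4, 6), (5, 6)], [(3, 0), (3, 1), (3,
      2), (3, 4), (3, 8), (4, 1), (4, 4), (4, 8), (5, 2), (5, 3), (5, 4), (5, 7), (5, 8), (6,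
      3), (6, 4), (6, 8)], [(4, 8)], [6], [(9, 4, [1]), (10, 8, [1])]⟩]
  Ta := [((2, 1), 0, 9), ((2, 4), 0, 1), ((3, 0), 0, 5), ((3, 5), 0, 2)]
  Tb := [((0, 1, 3), 5, 9, 0), ((1, 0, 2), 9, 5, 0), ((2, 1, 4), 0, 9, 1), ((3, 0, 5), 0, 5, 2),
    ((4, 2, 6), 1, 0, 6), ((5, 3, 8), 2, 0, 7), ((6, 4, 10), 6, 1, 8), ((7, 8, 9), 3, 7, 4),
    ((8, 5, 7), 7, 2, 3), ((9, 7, 10), 4, 3, 8), ((10, 6, 9), 8, 6, 4)]
  Tc := [(1, 2, 3), (1, 2, 4), (1, 2, 7), (1, 2, 8), (1, 3, 4), (1, 3, 7), (1, 3, 8), (1, 4, 7),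
    (1, 4, 8), (1, 7, 8)]
  Td := [((1, 2), (4, 2), 0), ((1, 2), (4, 6), 6), ((1, 3), (4, 2), 0), ((1, 3), (4, 6), 6), ((1,
    4), (4, 2), 0), ((1, 4), (4, 6), 6), ((1, 7), (4, 2), 0), ((1, 7), (4, 6), 6), ((1, 8),
    (4, 2), 0), ((1, 8), (4, 6), 6), ((2, 1), (5, 3), 0), ((2, 1), (5, 8), 7), ((3, 1), (7,
    8), 7), ((3, 1), (7, 9), 4), ((4, 1), (9, 7), 3), ((4, 1), (9, 10), 8), ((7, 1), (8, 5),
    2), ((7, 1), (8, 7), 3), ((8, 1), (10, 6), 6), ((8, 1), (10, 9), 4)]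
  G := [[0, 0x111e1111e1a448111e1111e16824111e1111e16842e, 0,
    0x2222c221222222dd428222222d222222d5824222222d222222d9482e,
    0x22c22c2fa28622dac42e1421111622535842111162253588e2112712f222b3522c2ec2fa288c98464213fd622a392227828a8adac942e],
    [0, 0, 0x212252f65122447222e28aba8c424442833ca1c82122a2ce7e22a8215636d48e1,
    0x222222d22229224d418222222d222222d5842222252245228222299c84b,
    0x642132232882fa2227fd622abd8142236ac6f223b2261b98f226b58122242f21311a22635842238c8972226286a7842238d8622262887a784e7]]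

noncomputable def n3536 : Ent := ⟨e3536, noF, [], [], [(9, 14, [31810581956886796354777272293785310057557672019661700884176840250667872257, 0]), (9, 18, [30043303427623734937691929578474300150491519007939870628445900451935469569, 0]), (9, 17, [31810150492402119267275227079217218666319002904815489586567506653228093441, 0]), (9, 15, [31810581956861085346069128449376638664080213418021345636276315565303062529, 0]), (9, 16, [31810581851548793677511941751458610980409781099126250235727204310992089089, 0])]⟩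

def c3536 : PLift (Cov.check n3536.C.D v3536 = true) := ⟨by decide +kernel⟩

def b3536 : PLift (entF (fidx ts) 400 3536 n3536 = true) := ⟨by decide +kernel⟩

theorem g3536 : GoodF (fidx ts) 400 3536 := GoodF.ofV v3536 n3536 c3536.down b3536.down

/-- 46494464:2693/2 -/
noncomputable def e3537 : SCfg where
  D := {
    a := 8
    L := 9
    kp := 6
    inn := [(0, 1), (1, 0), (1, 2), (1, 3), (1, 4), (2, 1), (2, 3), (3, 1), (3, 2), (3, 4), (3, 5), (3,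
      6), (4, 1), (4, 3), (5, 3), (6, 3), (6, 7), (7, 6)]
    mix := [(0, 0), (0, 1), (0, 2), (1, 0), (1, 2), (2, 2), (2, 3), (3, 3), (3, 4), (3, 5), (3, 6), (4,
      0), (4, 6), (5, 1), (5, 3), (5, 4), (6, 5), (6, 6), (6, 7), (6, 8), (7, 1), (7, 7), (7, 8)]
    cl := [3, 2, 1, 0, 6, 0, 0, 4, 5]
    chq := [(1, 3), (3, 1), (4, 5), (5, 4)]
    rng := [(0, 1), (0, 6), (1, 0), (1, 2), (1, 3), (1, 4), (1, 7), (1, 8), (2, 1), (2, 3), (3, 1), (3,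
      2), (4, 1), (4, 5), (5, 4), (5, 7), (6, 0), (6, 8), (7, 1), (7, 5), (8, 1), (8, 6)]
    lev := [] }
  links := [[1, 8, 9, 10], [8, 0, 10, 2, 3, 4], [3, 1, 10, 11], [4, 1, 2, 11, 5, 12, 13, 6, 14], [8, 1,
    3, 14], [12, 3, 11, 9], [14, 3, 13, 15, 7, 16], [16, 6, 15, 9]]
  P := {
    a := 8
    N := 17
    nb := [1794, 1309, 3082, 30838, 16650, 6664, 123016, 98880, 16915, 105889, 2567, 1580, 8744,
      36936, 65880, 8896, 17088]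
    tri := [(0, 1, 8), (0, 1, 10), (0, 8, 9), (0, 9, 10), (1, 2, 3), (1, 2, 10), (1, 3, 4), (1, 4, 8),
      (2, 3, 11), (2, 10, 11), (3, 4, 14), (3, 5, 11), (3, 5, 12), (3, 6, 13), (3, 6, 14), (3, 12,
      13), (4, 8, 14), (5, 9, 11), (5, 9, 12), (6, 7, 15), (6, 7, 16), (6, 13, 15), (6, 14, 16),
      (7, 9, 15), (7, 9, 16)]
    fin := [0, 0, 0, 3, 0, 5, 3, 7, 0, 5, 10, 3, 12, 3, 3, 7, 16]
    chd := [(0, 10), (7, 16)]
    steps := [(0, 1), (0, 2), (0, 4), (0, 8), (3, 6), (3, 11), (3, 13), (3, 14), (5, 9), (7, 15)] }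
  rep := [3, 10, 5, 0, 7, 16, 12]

noncomputable def v3537 : Cov.CovD where
  P := 3
  N := 4
  pl := [1, 4]
  lev := [⟨[], [], [(1, 3)], [2], [(0, 3, [1]), (2, 1, [3])]⟩,
    ⟨[], [(0, 1), (0, 3)], [(1, 3)], [], [(0, 3, [1]), (2, 1, [3])]⟩,
    ⟨[(0, 1)], [(0, 1), (1, 0), (1, 1), (1, 3)], [(0, 1)], [], [(2, 1, [3]), (3, 0, [])]⟩,
    ⟨[(0, 1), (1, 2)], [(1, 0), (1, 1), (1, 3), (2, 0), (2, 1)], [(0, 0)], [6], [(3, 0,
      []), (5, 0, []), (6, 0, [])]⟩,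
    ⟨[(0, 1), (1, 2), (1, 3), (2, 3)], [(0, 3), (1, 0), (1, 1), (1, 3), (3, 0), (3, 3)],
      [(0, 3)], [], [(0, 3, [1]), (6, 0, [])]⟩,
    ⟨[(1, 3), (2, 3), (3, 4)], [(2, 0), (3, 0)], [], [2, 6], [(3, 0, [])]⟩,
    ⟨[(1, 3), (2, 3), (3, 4), (3, 5)], [(3, 0), (3, 4), (3, 5), (4, 0)], [(0, 0), (0, 4),
      (0, 5), (4, 5)], [], [(5, 0, []), (6, 0, []), (7, 4, [5]), (8, 5, [4])]⟩,
    ⟨[(3, 6)], [(6, 0), (6, 4), (6, 5)], [(4, 5)], [2], [(7, 4, [5]), (8, 5, [4])]⟩]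
  Ta := [((3, 1), 0, 2), ((3, 2), 0, 1), ((5, 4), 0, 6), ((5, 7), 0, 4), ((6, 0), 0, 3), ((6, 8),
    0, 5)]
  Tb := [((0, 1, 6), 3, 2, 0), ((1, 0, 2), 2, 3, 1), ((1, 0, 3), 2, 3, 0), ((1, 0, 4), 2, 3, 6),
    ((1, 0, 7), 2, 3, 4), ((1, 0, 8), 2, 3, 5), ((1, 2, 3), 2, 1, 0), ((1, 2, 4), 2, 1, 6),
    ((1, 2, 7), 2, 1, 4), ((1, 2, 8), 2, 1, 5), ((1, 3, 4), 2, 0, 6), ((1, 3, 7), 2, 0, 4),
    ((1, 3, 8), 2, 0, 5), ((1, 4, 7), 2, 6, 4), ((1, 4, 8), 2, 6, 5), ((1, 7, 8), 2, 4, 5),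
    ((2, 1, 3), 1, 2, 0), ((3, 1, 2), 0, 2, 1), ((4, 1, 5), 6, 2, 0), ((5, 4, 7), 0, 6, 4),
    ((6, 0, 8), 0, 3, 5), ((7, 1, 5), 4, 2, 0), ((8, 1, 6), 5, 2, 0)]
  Tc := []
  Td := [((1, 3), (2, 1), 2), ((1, 3), (2, 3), 0), ((3, 1), (0, 1), 2), ((3, 1), (0, 6), 0), ((4,
    5), (7, 1), 2), ((4, 5), (7, 5), 0), ((5, 4), (8, 1), 2), ((5, 4), (8, 6), 0)]
  G := [[0, 0x1282141e811ec164818141ec12116818a4c, 0x84c212444226282a42c8944226482a4284c24e81c,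
    0x1242412828c11, 0x111e116a281c246811], [0, 0, 0, 0xd282d212c411, 0x88812e924926828c11],
    [0, 0, 0, 0x121428d218245d2142849, 0x82a12142461482458812e1283c146819]]

noncomputable def n3537 : Ent := ⟨e3537, noF, [], [], []⟩

def c3537 : PLift (Cov.check n3537.C.D v3537 = true) := ⟨by decide +kernel⟩

def b3537 : PLift (entF (fidx ts) 400 3537 n3537 = true) := ⟨by decide +kernel⟩

theorem g3537 : GoodF (fidx ts) 400 3537 := GoodF.ofV v3537 n3537 c3537.down b3537.down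

/-- 46494464:2693/3 -/
noncomputable def e3538 : SCfg where
  D := {
    a := 8
    L := 9
    kp := 6
    inn := [(0, 1), (1, 0), (1, 2), (1, 3), (1, 4), (2, 1), (2, 3), (3, 1), (3, 2), (3, 4), (3, 5), (3,
      6), (4, 1), (4, 3), (5, 3), (6, 3), (6, 7), (7, 6)]
    mix := [(0, 0), (0, 1), (0, 2), (1, 0), (1, 2), (2, 2), (2, 3), (3, 3), (3, 4), (3, 5), (3, 6), (4,
      0), (4, 6), (5, 1), (5, 3), (5, 4), (6, 5), (6, 6), (6, 7), (6, 8), (7, 2), (7, 7), (7, 8)]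
    cl := [2, 5, 1, 0, 6, 0, 0, 3, 4]
    chq := [(1, 2), (2, 1), (3, 4), (4, 3)]
    rng := [(0, 1), (0, 6), (1, 0), (1, 2), (1, 3), (1, 4), (2, 1), (2, 3), (2, 7), (2, 8), (3, 1), (3,
      2), (4, 1), (4, 5), (5, 4), (5, 7), (6, 0), (6, 8), (7, 2), (7, 5), (8, 2), (8, 6)]
    lev := [] }
  links := [[1, 8, 9, 10], [8, 0, 10, 2, 3, 4], [3, 1, 10, 11], [4, 1, 2, 11, 5, 12, 13, 6, 14], [8, 1,
    3, 14], [12, 3, 11, 9], [14, 3, 13, 15, 7, 16], [16, 6, 15, 10]]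
  P := {
    a := 8
    N := 17
    nb := [1794, 1309, 3082, 30838, 16650, 6664, 123016, 99392, 16915, 7457, 100999, 1580, 8744,
      36936, 65880, 9408, 17600]
    tri := [(0, 1, 8), (0, 1, 10), (0, 8, 9), (0, 9, 10), (1, 2, 3), (1, 2, 10), (1, 3, 4), (1, 4, 8),
      (2, 3, 11), (2, 10, 11), (3, 4, 14), (3, 5, 11), (3, 5, 12), (3, 6, 13), (3, 6, 14), (3, 12,
      13), (4, 8, 14), (5, 9, 11), (5, 9, 12), (6, 7, 15), (6, 7, 16), (6, 13, 15), (6, 14, 16),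
      (7, 10, 15), (7, 10, 16)]
    fin := [0, 0, 0, 3, 0, 5, 3, 7, 0, 5, 10, 3, 12, 3, 3, 7, 16]
    chd := [(0, 10), (7, 16)]
    steps := [(0, 1), (0, 2), (0, 4), (0, 8), (3, 6), (3, 11), (3, 13), (3, 14), (5, 9), (7, 15)] }
  rep := [3, 10, 0, 7, 16, 5, 12]

noncomputable def v3538 : Cov.CovD where
  P := 3
  N := 4
  pl := [1, 4]
  lev := [⟨[], [], [(1, 2)], [5], [(0, 2, [1]), (2, 1, [2])]⟩,
    ⟨[], [(0, 1), (0, 2)], [(1, 2)], [], [(0, 2, [1]), (2, 1, [2])]⟩,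
    ⟨[(0, 1)], [(0, 1), (1, 0), (1, 1), (1, 2)], [(0, 1)], [], [(2, 1, [2]), (3, 0, [])]⟩,
    ⟨[(0, 1), (1, 2)], [(1, 0), (1, 1), (1, 2), (2, 0), (2, 1)], [(0, 0)], [6], [(3, 0,
      []), (5, 0, []), (6, 0, [])]⟩,
    ⟨[(0, 1), (1, 2), (1, 3), (2, 3)], [(0, 2), (1, 0), (1, 1), (1, 2), (3, 0), (3, 2)],
      [(0, 2)], [], [(0, 2, [1]), (6, 0, [])]⟩,
    ⟨[(1, 3), (2, 3), (3, 4)], [(2, 0), (3, 0)], [], [5, 6], [(3, 0, [])]⟩,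
    ⟨[(1, 3), (2, 3), (3, 4), (3, 5)], [(3, 0), (3, 3), (3, 4), (4, 0)], [(0, 0), (0, 3),
      (0, 4), (3, 4)], [], [(5, 0, []), (6, 0, []), (7, 3, [4]), (8, 4, [3])]⟩,
    ⟨[(3, 6)], [(0, 1), (1, 1), (2, 1), (6, 0), (6, 1), (6, 3), (6, 4)], [(1, 3), (1, 4),
      (3, 4)], [], [(2, 1, [2]), (7, 3, [4]), (8, 4, [3])]⟩]
  Ta := [((3, 1), 0, 5), ((3, 2), 0, 1), ((5, 4), 0, 6), ((5, 7), 0, 3), ((6, 0), 0, 2), ((6, 8),
    0, 4)]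
  Tb := [((0, 1, 6), 2, 5, 0), ((1, 0, 2), 5, 2, 1), ((1, 0, 3), 5, 2, 0), ((1, 0, 4), 5, 2, 6),
    ((1, 2, 3), 5, 1, 0), ((1, 2, 4), 5, 1, 6), ((1, 3, 4), 5, 0, 6), ((2, 1, 3), 1, 5, 0),
    ((2, 1, 7), 1, 5, 3), ((2, 1, 8), 1, 5, 4), ((2, 3, 7), 1, 0, 3), ((2, 3, 8), 1, 0, 4),
    ((2, 7, 8), 1, 3, 4), ((3, 1, 2), 0, 5, 1), ((4, 1, 5), 6, 5, 0), ((5, 4, 7), 0, 6, 3),
    ((6, 0, 8), 0, 2, 4), ((7, 2, 5), 3, 1, 0), ((8, 2, 6), 4, 1, 0)]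
  Tc := []
  Td := [((1, 2), (2, 1), 5), ((1, 2), (2, 3), 0), ((1, 2), (2, 7), 3), ((1, 2), (2, 8), 4), ((2,
    1), (0, 1), 5), ((2, 1), (0, 6), 0), ((3, 4), (7, 2), 1), ((3, 4), (7, 5), 0), ((4, 3),
    (8, 2), 1), ((4, 3), (8, 6), 0)]
  G := [[0, 0x8822a184c286426818a482a4144442664884488e4ac8c, 0, 0x12821222c4112221248c81c,
    0x111e12a21211ca868181a4114c2161412618c89], [0, 0, 0, 0xd214d222c841,
    0x1212814ed284cd2316881], [0, 0, 0x111e12111e18a4411612111e18a1842894c, 0xd214d224c281,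
    0x441281a12841e18e411]]

noncomputable def n3538 : Ent := ⟨e3538, noF, [], [], []⟩

def c3538 : PLift (Cov.check n3538.C.D v3538 = true) := ⟨by decide +kernel⟩

def b3538 : PLift (entF (fidx ts) 400 3538 n3538 = true) := ⟨by decide +kernel⟩

theorem g3538 : GoodF (fidx ts) 400 3538 := GoodF.ofV v3538 n3538 c3538.down b3538.down

/-- 46494464:2693/1 -/
noncomputable def e3539 : SCfg where
  D := {
    a := 8
    L := 10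
    kp := 7
    inn := [(0, 1), (1, 0), (1, 2), (1, 3), (1, 4), (2, 1), (2, 3), (3, 1), (3, 2), (3, 4), (3, 5), (3,
      6), (4, 1), (4, 3), (5, 3), (6, 3), (6, 7), (7, 6)]
    mix := [(0, 0), (0, 1), (0, 2), (1, 0), (1, 2), (2, 2), (2, 3), (3, 3), (3, 4), (3, 5), (3, 6), (4,
      0), (4, 6), (5, 1), (5, 3), (5, 4), (6, 5), (6, 6), (6, 7), (6, 8), (7, 7), (7, 8), (7, 9)]
    cl := [1, 5, 2, 0, 6, 0, 0, 3, 4, 7]
    chq := [(1, 2), (2, 1), (3, 4), (4, 3)]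
    rng := [(0, 1), (0, 6), (1, 0), (1, 2), (1, 3), (1, 4), (2, 1), (2, 3), (3, 1), (3, 2), (4, 1), (4,
      5), (5, 4), (5, 7), (6, 0), (6, 8), (7, 5), (7, 9), (8, 6), (8, 9), (9, 7), (9, 8)]
    lev := [] }
  links := [[1, 8, 9, 10], [8, 0, 10, 2, 3, 4], [3, 1, 10, 11], [4, 1, 2, 11, 5, 12, 13, 6, 14], [8, 1,
    3, 14], [12, 3, 11, 9], [14, 3, 13, 15, 7, 16], [16, 6, 15, 17]]
  P := {
    a := 8
    N := 18
    nb := [1794, 1309, 3082, 30838, 16650, 6664, 123016, 229440, 16915, 7457, 2567, 1580, 8744, 36936,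
      65880, 139456, 147648, 98432]
    tri := [(0, 1, 8), (0, 1, 10), (0, 8, 9), (0, 9, 10), (1, 2, 3), (1, 2, 10), (1, 3, 4), (1, 4, 8),
      (2, 3, 11), (2, 10, 11), (3, 4, 14), (3, 5, 11), (3, 5, 12), (3, 6, 13), (3, 6, 14), (3, 12,
      13), (4, 8, 14), (5, 9, 11), (5, 9, 12), (6, 7, 15), (6, 7, 16), (6, 13, 15), (6, 14, 16),
      (7, 15, 17), (7, 16, 17)]
    fin := [0, 0, 0, 3, 0, 5, 3, 7, 0, 5, 10, 3, 12, 3, 3, 7, 16, 17]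
    chd := [(0, 10), (7, 16)]
    steps := [(0, 1), (0, 2), (0, 4), (0, 8), (3, 6), (3, 11), (3, 13), (3, 14), (5, 9), (7, 15)] }
  rep := [3, 0, 10, 7, 16, 5, 12, 17]

noncomputable def v3539 : Cov.CovD where
  P := 3
  N := 5
  pl := [1, 4, 9]
  lev := [⟨[], [], [(1, 2)], [5], [(0, 1, [2]), (2, 2, [1])]⟩,
    ⟨[], [(0, 1), (0, 2)], [(1, 2)], [], [(0, 1, [2]), (2, 2, [1])]⟩,
    ⟨[(0, 1)], [(0, 2), (1, 0), (1, 1), (1, 2)], [(0, 2)], [], [(2, 2, [1]), (3, 0, [])]⟩,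
    ⟨[(0, 1), (1, 2)], [(1, 0), (1, 1), (1, 2), (2, 0), (2, 2)], [(0, 0)], [6], [(3, 0,
      []), (5, 0, []), (6, 0, [])]⟩,
    ⟨[(0, 1), (1, 2), (1, 3), (2, 3)], [(0, 1), (1, 0), (1, 1), (1, 2), (3, 0), (3, 1)],
      [(0, 1)], [], [(0, 1, [2]), (6, 0, [])]⟩,
    ⟨[(1, 3), (2, 3), (3, 4)], [(2, 0), (3, 0)], [], [5, 6], [(3, 0, [])]⟩,
    ⟨[(1, 3), (2, 3), (3, 4), (3, 5)], [(3, 0), (3, 3), (3, 4), (4, 0)], [(0, 0), (0, 3),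
      (0, 4), (3, 4)], [], [(5, 0, []), (6, 0, []), (7, 3, [4]), (8, 4, [3])]⟩,
    ⟨[(3, 6)], [(6, 0), (6, 3), (6, 4)], [(3, 4)], [7], [(7, 3, [4]), (8, 4, [3])]⟩]
  Ta := [((3, 1), 0, 5), ((3, 2), 0, 2), ((5, 4), 0, 6), ((5, 7), 0, 3), ((6, 0), 0, 1), ((6, 8),
    0, 4)]
  Tb := [((0, 1, 6), 1, 5, 0), ((1, 0, 2), 5, 1, 2), ((1, 0, 3), 5, 1, 0), ((1, 0, 4), 5, 1, 6),
    ((1, 2, 3), 5, 2, 0), ((1, 2, 4), 5, 2, 6), ((1, 3, 4), 5, 0, 6), ((2, 1, 3), 2, 5, 0),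
    ((3, 1, 2), 0, 5, 2), ((4, 1, 5), 6, 5, 0), ((5, 4, 7), 0, 6, 3), ((6, 0, 8), 0, 1, 4),
    ((7, 5, 9), 3, 0, 7), ((8, 6, 9), 4, 0, 7), ((9, 7, 8), 7, 3, 4)]
  Tc := []
  Td := [((1, 2), (0, 1), 5), ((1, 2), (0, 6), 0), ((2, 1), (2, 1), 5), ((2, 1), (2, 3), 0), ((3,
    4), (7, 5), 0), ((3, 4), (7, 9), 7), ((4, 3), (8, 6), 0), ((4, 3), (8, 9), 7)]
  G := [[0, 0, 0x9832a14536819895ca1ac493a415495c6165432648c8c,
    0x9832a895c286536828a195c24254326293a48ca8c,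
    0x536849893aa49854c8e2154326493a4895c24e819], [0, 0, 0, 0x5361832983895c24e411,
    0x536143293a91c7195c5494cd1e281], [0, 0x93a1295c12645368281c92a184453612951e18a8cc, 0,
    0x5361493a1295c14e481, 0x5361493a1895c14e281]]

noncomputable def n3539 : Ent := ⟨e3539, noF, [], [], [(9, 17, [6903326391201334775872065844685381424292761054348340378595029944176641, 0]), (10, 17, [6903326391201334775872065844685381424292761054348340378595029944180737, 0])]⟩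

def c3539 : PLift (Cov.check n3539.C.D v3539 = true) := ⟨by decide +kernel⟩

def b3539 : PLift (entF (fidx ts) 400 3539 n3539 = true) := ⟨by decide +kernel⟩

theorem g3539 : GoodF (fidx ts) 400 3539 := GoodF.ofV v3539 n3539 c3539.down b3539.down

/-- 46494464:2693/4 -/
noncomputable def e3540 : SCfg where
  D := {
    a := 8
    L := 10
    kp := 7
    inn := [(0, 1), (1, 0), (1, 2), (1, 3), (1, 4), (2, 1), (2, 3), (3, 1), (3, 2), (3, 4), (3, 5), (3,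
      6), (4, 1), (4, 3), (5, 3), (6, 3), (6, 7), (7, 6)]
    mix := [(0, 0), (0, 1), (0, 2), (1, 0), (1, 2), (2, 2), (2, 3), (3, 3), (3, 4), (3, 5), (3, 6), (4,
      0), (4, 6), (5, 3), (5, 4), (5, 7), (6, 5), (6, 6), (6, 8), (6, 9), (7, 1), (7, 8), (7, 9)]
    cl := [1, 5, 2, 0, 6, 0, 0, 7, 3, 4]
    chq := [(1, 2), (2, 1), (3, 4), (4, 3)]
    rng := [(0, 1), (0, 6), (1, 0), (1, 2), (1, 8), (1, 9), (2, 1), (2, 3), (3, 2), (3, 7), (4, 5), (4,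
      7), (5, 4), (5, 8), (6, 0), (6, 9), (7, 3), (7, 4), (8, 1), (8, 5), (9, 1), (9, 6)]
    lev := [] }
  links := [[1, 8, 9, 10], [8, 0, 10, 2, 3, 4], [3, 1, 10, 11], [4, 1, 2, 11, 5, 12, 13, 6, 14], [8, 1,
    3, 14], [12, 3, 11, 15], [14, 3, 13, 16, 7, 17], [17, 6, 16, 9]]
  P := {
    a := 8
    N := 18
    nb := [1794, 1309, 3082, 30838, 16650, 38920, 221320, 197184, 16915, 198017, 2567, 33836, 41000,
      69704, 131416, 6176, 8896, 17088]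
    tri := [(0, 1, 8), (0, 1, 10), (0, 8, 9), (0, 9, 10), (1, 2, 3), (1, 2, 10), (1, 3, 4), (1, 4, 8),
      (2, 3, 11), (2, 10, 11), (3, 4, 14), (3, 5, 11), (3, 5, 12), (3, 6, 13), (3, 6, 14), (3, 12,
      13), (4, 8, 14), (5, 11, 15), (5, 12, 15), (6, 7, 16), (6, 7, 17), (6, 13, 16), (6, 14, 17),
      (7, 9, 16), (7, 9, 17)]
    fin := [0, 0, 0, 3, 0, 3, 3, 7, 0, 9, 10, 3, 12, 3, 3, 15, 7, 17]
    chd := [(0, 10), (7, 17)]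
    steps := [(0, 1), (0, 2), (0, 4), (0, 8), (3, 5), (3, 6), (3, 11), (3, 13), (3, 14), (7, 16)] }
  rep := [3, 0, 10, 7, 17, 9, 12, 15]

noncomputable def v3540 : Cov.CovD where
  P := 3
  N := 5
  pl := [1, 4, 7]
  lev := [⟨[], [], [(1, 2)], [5], [(0, 1, [2]), (2, 2, [1])]⟩,
    ⟨[], [(0, 1), (0, 2)], [(1, 2)], [], [(0, 1, [2]), (2, 2, [1])]⟩,
    ⟨[(0, 1)], [(0, 2), (1, 0), (1, 1), (1, 2)], [(0, 2)], [], [(2, 2, [1]), (3, 0, [])]⟩,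
    ⟨[(0, 1), (1, 2)], [(1, 0), (1, 1), (1, 2), (2, 0), (2, 2)], [(0, 0)], [6], [(3, 0,
      []), (5, 0, []), (6, 0, [])]⟩,
    ⟨[(0, 1), (1, 2), (1, 3), (2, 3)], [(0, 1), (1, 0), (1, 1), (1, 2), (3, 0), (3, 1)],
      [(0, 1)], [], [(0, 1, [2]), (6, 0, [])]⟩,
    ⟨[(1, 3), (2, 3), (3, 4)], [(2, 0), (3, 0)], [], [6, 7], [(3, 0, [])]⟩,
    ⟨[(1, 3), (2, 3), (3, 4), (3, 5)], [(3, 0), (3, 3), (3, 4), (4, 0)], [(0, 0), (0, 3),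
      (0, 4), (3, 4)], [], [(5, 0, []), (6, 0, []), (8, 3, [4]), (9, 4, [3])]⟩,
    ⟨[(3, 6)], [(6, 0), (6, 3), (6, 4)], [(3, 4)], [5], [(8, 3, [4]), (9, 4, [3])]⟩]
  Ta := [((3, 2), 0, 2), ((3, 7), 0, 7), ((5, 4), 0, 6), ((5, 8), 0, 3), ((6, 0), 0, 1), ((6, 9),
    0, 4)]
  Tb := [((0, 1, 6), 1, 5, 0), ((1, 0, 2), 5, 1, 2), ((1, 0, 8), 5, 1, 3), ((1, 0, 9), 5, 1, 4),
    ((1, 2, 8), 5, 2, 3), ((1, 2, 9), 5, 2, 4), ((1, 8, 9), 5, 3, 4), ((2, 1, 3), 2, 5, 0),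
    ((3, 2, 7), 0, 2, 7), ((4, 5, 7), 6, 0, 7), ((5, 4, 8), 0, 6, 3), ((6, 0, 9), 0, 1, 4),
    ((7, 3, 4), 7, 0, 6), ((8, 1, 5), 3, 5, 0), ((9, 1, 6), 4, 5, 0)]
  Tc := []
  Td := [((1, 2), (0, 1), 5), ((1, 2), (0, 6), 0), ((2, 1), (2, 1), 5), ((2, 1), (2, 3), 0), ((3,
    4), (8, 1), 5), ((3, 4), (8, 5), 0), ((4, 3), (9, 1), 5), ((4, 3), (9, 6), 0)]
  G := [[0, 0, 0x8812a12e1421161422e1181411ce8a4c111e4411ce42141264111e11a12e8c68c,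
    0x984484ce824264422e48882a22e2ca1142262811e1411ce8a111e12a22e84685,
    0x8882a22e8884485ce464264422e48a1181414ce421161412e41811a12e8ca19], [0, 0, 0,
    0x82a812e5881c286813838841e7824264422e48a1942212ab2821d,
    0x42614222281a78884484ce8e81121235cb451c223815c44e219], [0,
    0x1161181a111e18a4412a11416111e14688c, 0, 0x82a12871e14648426145818a81112e12488d,
    0x42614812e1884c14e815161413a1434c18e289]]

noncomputable def n3540 : Ent := ⟨e3540, noF, [], [], [(9, 15, [7334790850167413569773436004105379185503274260204390087403942019141633, 0])]⟩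

def c3540 : PLift (Cov.check n3540.C.D v3540 = true) := ⟨by decide +kernel⟩

def b3540 : PLift (entF (fidx ts) 400 3540 n3540 = true) := ⟨by decide +kernel⟩

theorem g3540 : GoodF (fidx ts) 400 3540 := GoodF.ofV v3540 n3540 c3540.down b3540.down

/-- 46494464:2693/6 -/
noncomputable def e3541 : SCfg where
  D := {
    a := 8
    L := 9
    kp := 6
    inn := [(0, 1), (1, 0), (1, 2), (1, 3), (1, 4), (2, 1), (2, 3), (3, 1), (3, 2), (3, 4), (3, 5), (3,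
      6), (4, 1), (4, 3), (5, 3), (6, 3), (6, 7), (7, 6)]
    mix := [(0, 0), (0, 1), (0, 2), (1, 0), (1, 2), (2, 2), (2, 3), (3, 3), (3, 4), (3, 5), (3, 6), (4,
      0), (4, 6), (5, 3), (5, 4), (5, 7), (6, 1), (6, 5), (6, 6), (6, 8), (7, 1), (7, 2), (7, 8)]
    cl := [3, 1, 2, 0, 4, 1, 0, 6, 5]
    chq := [(0, 4), (2, 3), (3, 2), (4, 0)]
    rng := [(0, 1), (0, 6), (1, 0), (1, 2), (1, 6), (2, 1), (2, 3), (2, 8), (3, 2), (3, 7), (4, 5), (4,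
      7), (5, 4), (5, 8), (6, 0), (6, 1), (7, 3), (7, 4), (8, 2), (8, 5)]
    lev := [] }
  links := [[1, 8, 9, 10], [8, 0, 10, 2, 3, 4], [3, 1, 10, 11], [4, 1, 2, 11, 5, 12, 13, 6, 14], [8, 1,
    3, 14], [12, 3, 11, 15], [14, 3, 13, 16, 7, 9], [9, 6, 16, 10]]
  P := {
    a := 8
    N := 17
    nb := [1794, 1309, 3082, 30838, 16650, 38920, 90760, 67136, 16915, 17857, 68231, 33836, 41000,
      69704, 856, 6176, 9408]
    tri := [(0, 1, 8), (0, 1, 10), (0, 8, 9), (0, 9, 10), (1, 2, 3), (1, 2, 10), (1, 3, 4), (1, 4, 8),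
      (2, 3, 11), (2, 10, 11), (3, 4, 14), (3, 5, 11), (3, 5, 12), (3, 6, 13), (3, 6, 14), (3, 12,
      13), (4, 8, 14), (5, 11, 15), (5, 12, 15), (6, 7, 9), (6, 7, 16), (6, 9, 14), (6, 13, 16),
      (7, 9, 10), (7, 10, 16)]
    fin := [0, 0, 0, 3, 0, 3, 6, 6, 0, 6, 10, 3, 12, 6, 3, 15, 16]
    chd := [(0, 10), (3, 12)]
    steps := [(0, 1), (0, 2), (0, 4), (0, 8), (3, 5), (3, 11), (3, 14), (6, 7), (6, 9), (6, 13)] }
  rep := [3, 6, 10, 0, 12, 16, 15]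

noncomputable def v3541 : Cov.CovD where
  P := 3
  N := 4
  pl := [7, 8]
  lev := [⟨[], [], [(1, 2), (1, 3), (2, 3)], [], [(0, 3, [2]), (1, 1, []), (2, 2, [3])]⟩,
    ⟨[], [(0, 1), (0, 2), (0, 3)], [(2, 3)], [], [(0, 3, [2]), (2, 2, [3])]⟩,
    ⟨[(0, 1)], [(0, 2), (1, 0), (1, 2), (1, 3)], [(0, 2)], [], [(2, 2, [3]), (3, 0, [4])]⟩,
    ⟨[(0, 1), (1, 2)], [(1, 0), (1, 1), (1, 2), (1, 3), (1, 4), (2, 0), (2, 1), (2, 2), (2,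
      4)], [(0, 0), (0, 1), (0, 4), (1, 4)], [], [(3, 0, [4]), (4, 4, [0]), (5, 1, []), (6,
      0, [4])]⟩,
    ⟨[(0, 1), (1, 2), (1, 3), (2, 3)], [(0, 3), (1, 0), (1, 2), (1, 3), (3, 0), (3, 1), (3,
      3), (3, 4)], [(0, 3)], [], [(0, 3, [2]), (6, 0, [4])]⟩,
    ⟨[(1, 3), (2, 3), (3, 4)], [(2, 0), (3, 0), (3, 1), (3, 4)], [(0, 4)], [6], [(3, 0,
      [4]), (4, 4, [0])]⟩,
    ⟨[(1, 3), (2, 3), (3, 4), (3, 5)], [(0, 1), (3, 0), (3, 1), (3, 4), (4, 0)], [(0, 1),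
      (1, 1)], [5], [(1, 1, []), (5, 1, []), (6, 0, [4])]⟩,
    ⟨[(3, 6)], [(0, 1), (0, 2), (1, 2), (2, 2), (6, 0), (6, 1), (6, 2)], [(1, 2)], [5],
      [(1, 1, []), (2, 2, [3])]⟩]
  Ta := [((1, 0), 1, 3), ((1, 2), 1, 2), ((1, 6), 1, 0), ((3, 2), 0, 2), ((3, 7), 0, 6), ((5, 4),
    1, 4), ((5, 8), 1, 5), ((6, 0), 0, 3), ((6, 1), 0, 1)]
  Tb := [((0, 1, 6), 3, 1, 0), ((1, 0, 2), 1, 3, 2), ((1, 0, 6), 1, 3, 0), ((1, 2, 6), 1, 2, 0),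
    ((2, 1, 3), 2, 1, 0), ((2, 1, 8), 2, 1, 5), ((2, 3, 8), 2, 0, 5), ((3, 2, 7), 0, 2, 6),
    ((4, 5, 7), 4, 1, 6), ((5, 4, 8), 1, 4, 5), ((6, 0, 1), 0, 3, 1), ((7, 3, 4), 6, 0, 4),
    ((8, 2, 5), 5, 2, 1)]
  Tc := []
  Td := [((0, 4), (3, 2), 2), ((0, 4), (3, 7), 6), ((0, 4), (6, 0), 3), ((0, 4), (6, 1), 1), ((2,
    3), (2, 1), 1), ((2, 3), (2, 3), 0), ((2, 3), (2, 8), 5), ((3, 2), (0, 1), 1), ((3, 2),
    (0, 6), 0), ((4, 0), (4, 5), 1), ((4, 0), (4, 7), 6)]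
  G := [[0, 0, 0x412882384c84cc16412446c12882a84c412c12c1c1aa8ac122446c,
    0x4852284984962c485828c11, 0x9852481c281c2a81c81cc4e811], [0, 0,
    0xa1425a28a1c168462a1c162482485c1a4824e, 0, 0x325285a482982562c211], [0,
    0x84a1284a1868184a1484c14681c, 0, 0x81c1428848514ca284c181c1ca415,
    0x19c1481c18c2281c19c81cd42819], [0, 0, 0, 0, 0x141281c82c18c22241282981c2472c18148a29]]

noncomputable def n3541 : Ent := ⟨e3541, noF, [], [], []⟩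

def c3541 : PLift (Cov.check n3541.C.D v3541 = true) := ⟨by decide +kernel⟩

def b3541 : PLift (entF (fidx ts) 400 3541 n3541 = true) := ⟨by decide +kernel⟩

theorem g3541 : GoodF (fidx ts) 400 3541 := GoodF.ofV v3541 n3541 c3541.down b3541.down

/-- 46494464:2693/7 -/
noncomputable def e3542 : SCfg where
  D := {
    a := 8
    L := 9
    kp := 6
    inn := [(0, 1), (1, 0), (1, 2), (1, 3), (1, 4), (2, 1), (2, 3), (3, 1), (3, 2), (3, 4), (3, 5), (3,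
      6), (4, 1), (4, 3), (5, 3), (6, 3), (6, 7), (7, 6)]
    mix := [(0, 0), (0, 1), (0, 2), (1, 0), (1, 2), (2, 2), (2, 3), (3, 3), (3, 4), (3, 5), (3, 6), (4,
      0), (4, 6), (5, 3), (5, 4), (5, 7), (6, 1), (6, 5), (6, 6), (6, 8), (7, 1), (7, 7), (7, 8)]
    cl := [3, 1, 2, 0, 4, 1, 0, 5, 6]
    chq := [(0, 4), (2, 3), (3, 2), (4, 0)]
    rng := [(0, 1), (0, 6), (1, 0), (1, 2), (1, 6), (1, 7), (2, 1), (2, 3), (3, 2), (3, 7), (4, 5), (4,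
      7), (5, 4), (5, 8), (6, 0), (6, 1), (7, 1), (7, 3), (7, 4), (7, 8), (8, 5), (8, 7)]
    lev := [] }
  links := [[1, 8, 9, 10], [8, 0, 10, 2, 3, 4], [3, 1, 10, 11], [4, 1, 2, 11, 5, 12, 13, 6, 14], [8, 1,
    3, 14], [12, 3, 11, 15], [14, 3, 13, 16, 7, 9], [9, 6, 16, 15]]
  P := {
    a := 8
    N := 17
    nb := [1794, 1309, 3082, 30838, 16650, 38920, 90760, 98880, 16915, 50625, 2567, 33836, 41000,
      69704, 856, 72352, 41152]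
    tri := [(0, 1, 8), (0, 1, 10), (0, 8, 9), (0, 9, 10), (1, 2, 3), (1, 2, 10), (1, 3, 4), (1, 4, 8),
      (2, 3, 11), (2, 10, 11), (3, 4, 14), (3, 5, 11), (3, 5, 12), (3, 6, 13), (3, 6, 14), (3, 12,
      13), (4, 8, 14), (5, 11, 15), (5, 12, 15), (6, 7, 9), (6, 7, 16), (6, 9, 14), (6, 13, 16),
      (7, 9, 15), (7, 15, 16)]
    fin := [0, 0, 0, 3, 0, 3, 6, 6, 0, 6, 10, 3, 12, 6, 3, 15, 16]
    chd := [(0, 10), (3, 12)]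
    steps := [(0, 1), (0, 2), (0, 4), (0, 8), (3, 5), (3, 11), (3, 14), (6, 7), (6, 9), (6, 13)] }
  rep := [3, 6, 10, 0, 12, 15, 16]

noncomputable def v3542 : Cov.CovD where
  P := 3
  N := 4
  pl := [7, 8]
  lev := [⟨[], [], [(1, 2), (1, 3), (2, 3)], [], [(0, 3, [2]), (1, 1, []), (2, 2, [3])]⟩,
    ⟨[], [(0, 1), (0, 2), (0, 3)], [(2, 3)], [], [(0, 3, [2]), (2, 2, [3])]⟩,
    ⟨[(0, 1)], [(0, 2), (1, 0), (1, 2), (1, 3)], [(0, 2)], [], [(2, 2, [3]), (3, 0, [4])]⟩,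
    ⟨[(0, 1), (1, 2)], [(1, 0), (1, 1), (1, 2), (1, 3), (1, 4), (2, 0), (2, 1), (2, 2), (2,
      4)], [(0, 0), (0, 1), (0, 4), (1, 4)], [], [(3, 0, [4]), (4, 4, [0]), (5, 1, []), (6,
      0, [4])]⟩,
    ⟨[(0, 1), (1, 2), (1, 3), (2, 3)], [(0, 3), (1, 0), (1, 2), (1, 3), (3, 0), (3, 1), (3,
      3), (3, 4)], [(0, 3)], [], [(0, 3, [2]), (6, 0, [4])]⟩,
    ⟨[(1, 3), (2, 3), (3, 4)], [(2, 0), (3, 0), (3, 1), (3, 4)], [(0, 4)], [5], [(3, 0,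
      [4]), (4, 4, [0])]⟩,
    ⟨[(1, 3), (2, 3), (3, 4), (3, 5)], [(0, 1), (3, 0), (3, 1), (3, 4), (4, 0)], [(0, 1),
      (1, 1)], [6], [(1, 1, []), (5, 1, []), (6, 0, [4])]⟩,
    ⟨[(3, 6)], [(0, 1), (6, 0), (6, 1)], [], [5, 6], [(1, 1, [])]⟩]
  Ta := [((1, 0), 1, 3), ((1, 2), 1, 2), ((1, 6), 1, 0), ((1, 7), 1, 5), ((3, 2), 0, 2), ((3, 7),
    0, 5), ((5, 4), 1, 4), ((5, 8), 1, 6), ((6, 0), 0, 3), ((6, 1), 0, 1)]
  Tb := [((0, 1, 6), 3, 1, 0), ((1, 0, 2), 1, 3, 2), ((1, 0, 6), 1, 3, 0), ((1, 0, 7), 1, 3, 5),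
    ((1, 2, 6), 1, 2, 0), ((1, 2, 7), 1, 2, 5), ((1, 6, 7), 1, 0, 5), ((2, 1, 3), 2, 1, 0),
    ((3, 2, 7), 0, 2, 5), ((4, 5, 7), 4, 1, 5), ((5, 4, 8), 1, 4, 6), ((6, 0, 1), 0, 3, 1),
    ((7, 1, 3), 5, 1, 0), ((7, 1, 4), 5, 1, 4), ((7, 1, 8), 5, 1, 6), ((7, 3, 4), 5, 0, 4),
    ((7, 3, 8), 5, 0, 6), ((7, 4, 8), 5, 4, 6), ((8, 5, 7), 6, 1, 5)]
  Tc := []
  Td := [((0, 4), (3, 2), 2), ((0, 4), (3, 7), 5), ((0, 4), (6, 0), 3), ((0, 4), (6, 1), 1), ((2,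
    3), (2, 1), 1), ((2, 3), (2, 3), 0), ((3, 2), (0, 1), 1), ((3, 2), (0, 6), 0), ((4, 0),
    (4, 5), 1), ((4, 0), (4, 7), 5)]
  G := [[0, 0, 0x882184c14cc1614214651c2184a84c14cc1215c218a8821425426c, 0xd8522d14d22c18228c11,
    0x98514ca4142d49254981c6ec211], [0, 0, 0x21c12c61829329a2c4222912c62422514ca48c2c, 0,
    0xc2522829249325e2c821], [0, 0xc6a18a6c18681ca614c6a12c41c, 0,
    0x1dc14248d81432459c228c19, 0xd41181cd1c18c2281c14c1dcd42819], [0, 0, 0, 0,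
    0x12c1421c28c2212c22421c128a19]]

noncomputable def n3542 : Ent := ⟨e3542, noF, [], [], []⟩

def c3542 : PLift (Cov.check n3542.C.D v3542 = true) := ⟨by decide +kernel⟩

def b3542 : PLift (entF (fidx ts) 400 3542 n3542 = true) := ⟨by decide +kernel⟩

theorem g3542 : GoodF (fidx ts) 400 3542 := GoodF.ofV v3542 n3542 c3542.down b3542.down

/-- 46494464:2693/5 -/
noncomputable def e3543 : SCfg where
  D := {
    a := 8
    L := 10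
    kp := 7
    inn := [(0, 1), (1, 0), (1, 2), (1, 3), (1, 4), (2, 1), (2, 3), (3, 1), (3, 2), (3, 4), (3, 5), (3,
      6), (4, 1), (4, 3), (5, 3), (6, 3), (6, 7), (7, 6)]
    mix := [(0, 0), (0, 1), (0, 2), (1, 0), (1, 2), (2, 2), (2, 3), (3, 3), (3, 4), (3, 5), (3, 6), (4,
      0), (4, 6), (5, 3), (5, 4), (5, 7), (6, 1), (6, 5), (6, 6), (6, 8), (7, 1), (7, 8), (7, 9)]
    cl := [3, 1, 2, 0, 5, 0, 0, 6, 4, 7]
    chq := [(1, 4), (2, 3), (3, 2), (4, 1)]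
    rng := [(0, 1), (0, 6), (1, 0), (1, 2), (1, 6), (1, 9), (2, 1), (2, 3), (3, 2), (3, 7), (4, 5), (4,
      7), (5, 4), (5, 8), (6, 0), (6, 1), (7, 3), (7, 4), (8, 5), (8, 9), (9, 1), (9, 8)]
    lev := [] }
  links := [[1, 8, 9, 10], [8, 0, 10, 2, 3, 4], [3, 1, 10, 11], [4, 1, 2, 11, 5, 12, 13, 6, 14], [8, 1,
    3, 14], [12, 3, 11, 15], [14, 3, 13, 16, 7, 9], [9, 6, 16, 17]]
  P := {
    a := 8
    N := 18
    nb := [1794, 1309, 3082, 30838, 16650, 38920, 90760, 197184, 16915, 148929, 2567, 33836, 41000,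
      69704, 856, 6176, 139456, 66176]
    tri := [(0, 1, 8), (0, 1, 10), (0, 8, 9), (0, 9, 10), (1, 2, 3), (1, 2, 10), (1, 3, 4), (1, 4, 8),
      (2, 3, 11), (2, 10, 11), (3, 4, 14), (3, 5, 11), (3, 5, 12), (3, 6, 13), (3, 6, 14), (3, 12,
      13), (4, 8, 14), (5, 11, 15), (5, 12, 15), (6, 7, 9), (6, 7, 16), (6, 9, 14), (6, 13, 16),
      (7, 9, 17), (7, 16, 17)]
    fin := [0, 0, 0, 3, 0, 3, 6, 6, 0, 6, 10, 3, 12, 3, 3, 15, 16, 17]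
    chd := [(0, 10), (6, 16)]
    steps := [(0, 1), (0, 2), (0, 4), (0, 8), (3, 5), (3, 11), (3, 13), (3, 14), (6, 7), (6, 9)] }
  rep := [3, 6, 10, 0, 16, 12, 15, 17]

noncomputable def v3543 : Cov.CovD where
  P := 3
  N := 5
  pl := [4, 7, 9]
  lev := [⟨[], [], [(1, 2), (1, 3), (2, 3)], [], [(0, 3, [2]), (1, 1, [4]), (2, 2, [3])]⟩,
    ⟨[], [(0, 1), (0, 2), (0, 3)], [(2, 3)], [], [(0, 3, [2]), (2, 2, [3])]⟩,
    ⟨[(0, 1)], [(0, 2), (1, 0), (1, 2), (1, 3)], [(0, 2)], [], [(2, 2, [3]), (3, 0, [])]⟩,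
    ⟨[(0, 1), (1, 2)], [(1, 0), (1, 2), (1, 3), (2, 0), (2, 2)], [(0, 0)], [5], [(3, 0,
      []), (5, 0, []), (6, 0, [])]⟩,
    ⟨[(0, 1), (1, 2), (1, 3), (2, 3)], [(0, 3), (1, 0), (1, 2), (1, 3), (3, 0), (3, 3)],
      [(0, 3)], [], [(0, 3, [2]), (6, 0, [])]⟩,
    ⟨[(1, 3), (2, 3), (3, 4)], [(2, 0), (3, 0)], [], [5, 6], [(3, 0, [])]⟩,
    ⟨[(1, 3), (2, 3), (3, 4), (3, 5)], [(0, 1), (3, 0), (3, 1), (3, 4), (4, 0)], [(0, 0),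
      (0, 1), (0, 4), (1, 4)], [], [(1, 1, [4]), (5, 0, []), (6, 0, []), (8, 4, [1])]⟩,
    ⟨[(3, 6)], [(0, 1), (6, 0), (6, 1), (6, 4)], [(1, 4)], [7], [(1, 1, [4]), (8, 4, [1])]⟩]
  Ta := [((3, 2), 0, 2), ((3, 7), 0, 6), ((5, 4), 0, 5), ((5, 8), 0, 4), ((6, 0), 0, 3), ((6, 1),
    0, 1)]
  Tb := [((0, 1, 6), 3, 1, 0), ((1, 0, 2), 1, 3, 2), ((1, 0, 6), 1, 3, 0), ((1, 0, 9), 1, 3, 7),
    ((1, 2, 6), 1, 2, 0), ((1, 2, 9), 1, 2, 7), ((1, 6, 9), 1, 0, 7), ((2, 1, 3), 2, 1, 0),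
    ((3, 2, 7), 0, 2, 6), ((4, 5, 7), 5, 0, 6), ((5, 4, 8), 0, 5, 4), ((6, 0, 1), 0, 3, 1),
    ((7, 3, 4), 6, 0, 5), ((8, 5, 9), 4, 0, 7), ((9, 1, 8), 7, 1, 4)]
  Tc := []
  Td := [((1, 4), (1, 0), 3), ((1, 4), (1, 2), 2), ((1, 4), (1, 6), 0), ((1, 4), (1, 9), 7), ((2,
    3), (2, 1), 1), ((2, 3), (2, 3), 0), ((3, 2), (0, 1), 1), ((3, 2), (0, 6), 0), ((4, 1),
    (8, 5), 0), ((4, 1), (8, 9), 7)]
  G := [[0, 0, 0x985495ce129898c1465454c182a95c2125454c19854c1aa9898c2486c,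
    0x989818e24545418e285c285c29854ceac11, 0x9898c9898ca985495ce465454c48a11], [0, 0, 0,
    0x5412981295c95c95cd2e411, 0x54149898c9898ca54549874e811], [0,
    0xca618c6a12c41ca612a6c14a81c, 0, 0x981295c1264541288c15c12881295c14e419,
    0x91c1295c1462441882a5414981495c14e819]]

noncomputable def n3543 : Ent := ⟨e3543, noF, [], [], [(10, 17, [6903326391201334775872065844685381424292761054348340378595029944193025, 0]), (15, 17, [6903326391201334775872065844685381424292761054348340378595029944197121, 0])]⟩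

def c3543 : PLift (Cov.check n3543.C.D v3543 = true) := ⟨by decide +kernel⟩

def b3543 : PLift (entF (fidx ts) 400 3543 n3543 = true) := ⟨by decide +kernel⟩

theorem g3543 : GoodF (fidx ts) 400 3543 := GoodF.ofV v3543 n3543 c3543.down b3543.down

/-- 46494464:2693/8 -/
noncomputable def e3544 : SCfg where
  D := {
    a := 8
    L := 10
    kp := 7
    inn := [(0, 1), (1, 0), (1, 2), (1, 3), (1, 4), (2, 1), (2, 3), (3, 1), (3, 2), (3, 4), (3, 5), (3,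
      6), (4, 1), (4, 3), (5, 3), (6, 3), (6, 7), (7, 6)]
    mix := [(0, 0), (0, 1), (0, 2), (1, 0), (1, 2), (2, 2), (2, 3), (3, 3), (3, 4), (3, 5), (3, 6), (4,
      0), (4, 6), (5, 3), (5, 4), (5, 7), (6, 5), (6, 6), (6, 8), (6, 9), (7, 2), (7, 8), (7, 9)]
    cl := [2, 6, 1, 0, 5, 0, 0, 7, 3, 4]
    chq := [(1, 2), (2, 1), (3, 4), (4, 3)]
    rng := [(0, 1), (0, 6), (1, 0), (1, 2), (2, 1), (2, 3), (2, 8), (2, 9), (3, 2), (3, 7), (4, 5), (4,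
      7), (5, 4), (5, 8), (6, 0), (6, 9), (7, 3), (7, 4), (8, 2), (8, 5), (9, 2), (9, 6)]
    lev := [] }
  links := [[1, 8, 9, 10], [8, 0, 10, 2, 3, 4], [3, 1, 10, 11], [4, 1, 2, 11, 5, 12, 13, 6, 14], [8, 1,
    3, 14], [12, 3, 11, 15], [14, 3, 13, 16, 7, 17], [17, 6, 16, 10]]
  P := {
    a := 8
    N := 18
    nb := [1794, 1309, 3082, 30838, 16650, 38920, 221320, 197696, 16915, 1281, 199303, 33836, 41000,
      69704, 131416, 6176, 9408, 17600]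
    tri := [(0, 1, 8), (0, 1, 10), (0, 8, 9), (0, 9, 10), (1, 2, 3), (1, 2, 10), (1, 3, 4), (1, 4, 8),
      (2, 3, 11), (2, 10, 11), (3, 4, 14), (3, 5, 11), (3, 5, 12), (3, 6, 13), (3, 6, 14), (3, 12,
      13), (4, 8, 14), (5, 11, 15), (5, 12, 15), (6, 7, 16), (6, 7, 17), (6, 13, 16), (6, 14, 17),
      (7, 10, 16), (7, 10, 17)]
    fin := [0, 0, 0, 3, 0, 3, 3, 7, 0, 9, 10, 3, 12, 3, 3, 15, 7, 17]
    chd := [(0, 10), (7, 17)]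
    steps := [(0, 1), (0, 2), (0, 4), (0, 8), (3, 5), (3, 6), (3, 11), (3, 13), (3, 14), (7, 16)] }
  rep := [3, 10, 0, 7, 17, 12, 9, 15]

noncomputable def v3544 : Cov.CovD where
  P := 3
  N := 5
  pl := [1, 4, 7]
  lev := [⟨[], [], [(1, 2)], [6], [(0, 2, [1]), (2, 1, [2])]⟩,
    ⟨[], [(0, 1), (0, 2)], [(1, 2)], [], [(0, 2, [1]), (2, 1, [2])]⟩,
    ⟨[(0, 1)], [(0, 1), (1, 0), (1, 1), (1, 2)], [(0, 1)], [], [(2, 1, [2]), (3, 0, [])]⟩,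
    ⟨[(0, 1), (1, 2)], [(1, 0), (1, 1), (1, 2), (2, 0), (2, 1)], [(0, 0)], [5], [(3, 0,
      []), (5, 0, []), (6, 0, [])]⟩,
    ⟨[(0, 1), (1, 2), (1, 3), (2, 3)], [(0, 2), (1, 0), (1, 1), (1, 2), (3, 0), (3, 2)],
      [(0, 2)], [], [(0, 2, [1]), (6, 0, [])]⟩,
    ⟨[(1, 3), (2, 3), (3, 4)], [(2, 0), (3, 0)], [], [5, 7], [(3, 0, [])]⟩,
    ⟨[(1, 3), (2, 3), (3, 4), (3, 5)], [(3, 0), (3, 3), (3, 4), (4, 0)], [(0, 0), (0, 3),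
      (0, 4), (3, 4)], [], [(5, 0, []), (6, 0, []), (8, 3, [4]), (9, 4, [3])]⟩,
    ⟨[(3, 6)], [(0, 1), (1, 1), (2, 1), (6, 0), (6, 1), (6, 3), (6, 4)], [(1, 3), (1, 4),
      (3, 4)], [], [(2, 1, [2]), (8, 3, [4]), (9, 4, [3])]⟩]
  Ta := [((3, 2), 0, 1), ((3, 7), 0, 7), ((5, 4), 0, 5), ((5, 8), 0, 3), ((6, 0), 0, 2), ((6, 9),
    0, 4)]
  Tb := [((0, 1, 6), 2, 6, 0), ((1, 0, 2), 6, 2, 1), ((2, 1, 3), 1, 6, 0), ((2, 1, 8), 1, 6, 3),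
    ((2, 1, 9), 1, 6, 4), ((2, 3, 8), 1, 0, 3), ((2, 3, 9), 1, 0, 4), ((2, 8, 9), 1, 3, 4),
    ((3, 2, 7), 0, 1, 7), ((4, 5, 7), 5, 0, 7), ((5, 4, 8), 0, 5, 3), ((6, 0, 9), 0, 2, 4),
    ((7, 3, 4), 7, 0, 5), ((8, 2, 5), 3, 1, 0), ((9, 2, 6), 4, 1, 0)]
  Tc := []
  Td := [((1, 2), (2, 1), 6), ((1, 2), (2, 3), 0), ((1, 2), (2, 8), 3), ((1, 2), (2, 9), 4), ((2,
    1), (0, 1), 6), ((2, 1), (0, 6), 0), ((3, 4), (8, 2), 1), ((3, 4), (8, 5), 0), ((4, 3),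
    (9, 2), 1), ((4, 3), (9, 6), 0)]
  G := [[0, 0x8882a22e1424484c6124264422e48884a6c8882a22e1884484ce1684264422e182cc, 0,
    0x1212a2121262c211212a21221246c215,
    0x116141e12e28812a218111e11ce8e411811a12e844161412e2884414ce8ac19], [0, 0, 0,
    0xd2d2c2d214688d21248d225aa281c5,
    0x41612881281a41614c81af8e81444412e281a1281a8844b8e419], [0, 0,
    0x141e12841e18a44441481a18811e14e48c, 0xd214881d214488d214241d,
    0x49612815e181818e814161281a1884c12e489]]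

noncomputable def n3544 : Ent := ⟨e3544, noF, [], [], [(9, 15, [7334790850167413569773436004105379185503274260204390087403942019145729, 0]), (9, 17, [6903326391201334775872065844685381424292761054348340378595029944193025, 0])]⟩

def c3544 : PLift (Cov.check n3544.C.D v3544 = true) := ⟨by decide +kernel⟩

def b3544 : PLift (entF (fidx ts) 400 3544 n3544 = true) := ⟨by decide +kernel⟩

theorem g3544 : GoodF (fidx ts) 400 3544 := GoodF.ofV v3544 n3544 c3544.down b3544.down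

/-- 46494464:2693/9 -/
noncomputable def e3545 : SCfg where
  D := {
    a := 8
    L := 10
    kp := 7
    inn := [(0, 1), (1, 0), (1, 2), (1, 3), (1, 4), (2, 1), (2, 3), (3, 1), (3, 2), (3, 4), (3, 5), (3,
      6), (4, 1), (4, 3), (5, 3), (6, 3), (6, 7), (7, 6)]
    mix := [(0, 0), (0, 1), (0, 2), (1, 0), (1, 2), (2, 2), (2, 3), (3, 3), (3, 4), (3, 5), (3, 6), (4,
      0), (4, 6), (5, 3), (5, 4), (5, 7), (6, 5), (6, 6), (6, 8), (6, 9), (7, 7), (7, 8), (7, 9)]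
    cl := [1, 7, 2, 0, 5, 0, 0, 6, 3, 4]
    chq := [(1, 2), (2, 1), (3, 4), (4, 3)]
    rng := [(0, 1), (0, 6), (1, 0), (1, 2), (2, 1), (2, 3), (3, 2), (3, 7), (4, 5), (4, 7), (5, 4), (5,
      8), (6, 0), (6, 9), (7, 3), (7, 4), (7, 8), (7, 9), (8, 5), (8, 7), (9, 6), (9, 7)]
    lev := [] }
  links := [[1, 8, 9, 10], [8, 0, 10, 2, 3, 4], [3, 1, 10, 11], [4, 1, 2, 11, 5, 12, 13, 6, 14], [8, 1,
    3, 14], [12, 3, 11, 15], [14, 3, 13, 16, 7, 17], [17, 6, 16, 15]]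
  P := {
    a := 8
    N := 18
    nb := [1794, 1309, 3082, 30838, 16650, 38920, 221320, 229440, 16915, 1281, 2567, 33836, 41000,
      69704, 131416, 202912, 41152, 49344]
    tri := [(0, 1, 8), (0, 1, 10), (0, 8, 9), (0, 9, 10), (1, 2, 3), (1, 2, 10), (1, 3, 4), (1, 4, 8),
      (2, 3, 11), (2, 10, 11), (3, 4, 14), (3, 5, 11), (3, 5, 12), (3, 6, 13), (3, 6, 14), (3, 12,
      13), (4, 8, 14), (5, 11, 15), (5, 12, 15), (6, 7, 16), (6, 7, 17), (6, 13, 16), (6, 14, 17),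
      (7, 15, 16), (7, 15, 17)]
    fin := [0, 0, 0, 3, 0, 3, 3, 7, 0, 9, 10, 3, 12, 3, 3, 15, 7, 17]
    chd := [(0, 10), (7, 17)]
    steps := [(0, 1), (0, 2), (0, 4), (0, 8), (3, 5), (3, 6), (3, 11), (3, 13), (3, 14), (7, 16)] }
  rep := [3, 0, 10, 7, 17, 12, 15, 9]

noncomputable def v3545 : Cov.CovD where
  P := 3
  N := 5
  pl := [1, 4, 7]
  lev := [⟨[], [], [(1, 2)], [7], [(0, 1, [2]), (2, 2, [1])]⟩,
    ⟨[], [(0, 1), (0, 2)], [(1, 2)], [], [(0, 1, [2]), (2, 2, [1])]⟩,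
    ⟨[(0, 1)], [(0, 2), (1, 0), (1, 1), (1, 2)], [(0, 2)], [], [(2, 2, [1]), (3, 0, [])]⟩,
    ⟨[(0, 1), (1, 2)], [(1, 0), (1, 1), (1, 2), (2, 0), (2, 2)], [(0, 0)], [5], [(3, 0,
      []), (5, 0, []), (6, 0, [])]⟩,
    ⟨[(0, 1), (1, 2), (1, 3), (2, 3)], [(0, 1), (1, 0), (1, 1), (1, 2), (3, 0), (3, 1)],
      [(0, 1)], [], [(0, 1, [2]), (6, 0, [])]⟩,
    ⟨[(1, 3), (2, 3), (3, 4)], [(2, 0), (3, 0)], [], [5, 6], [(3, 0, [])]⟩,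
    ⟨[(1, 3), (2, 3), (3, 4), (3, 5)], [(3, 0), (3, 3), (3, 4), (4, 0)], [(0, 0), (0, 3),
      (0, 4), (3, 4)], [], [(5, 0, []), (6, 0, []), (8, 3, [4]), (9, 4, [3])]⟩,
    ⟨[(3, 6)], [(6, 0), (6, 3), (6, 4)], [(3, 4)], [6], [(8, 3, [4]), (9, 4, [3])]⟩]
  Ta := [((3, 2), 0, 2), ((3, 7), 0, 6), ((5, 4), 0, 5), ((5, 8), 0, 3), ((6, 0), 0, 1), ((6, 9),
    0, 4)]
  Tb := [((0, 1, 6), 1, 7, 0), ((1, 0, 2), 7, 1, 2), ((2, 1, 3), 2, 7, 0), ((3, 2, 7), 0, 2, 6),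
    ((4, 5, 7), 5, 0, 6), ((5, 4, 8), 0, 5, 3), ((6, 0, 9), 0, 1, 4), ((7, 3, 4), 6, 0, 5),
    ((7, 3, 8), 6, 0, 3), ((7, 3, 9), 6, 0, 4), ((7, 4, 8), 6, 5, 3), ((7, 4, 9), 6, 5, 4),
    ((7, 8, 9), 6, 3, 4), ((8, 5, 7), 3, 0, 6), ((9, 6, 7), 4, 0, 6)]
  Tc := []
  Td := [((1, 2), (0, 1), 7), ((1, 2), (0, 6), 0), ((2, 1), (2, 1), 7), ((2, 1), (2, 3), 0), ((3,
    4), (8, 5), 0), ((3, 4), (8, 7), 6), ((4, 3), (9, 6), 0), ((4, 3), (9, 7), 6)]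
  G := [[0, 0, 0x8811a22e1421412611689181411ce8a4c1811a811ee84211614112ee18844c1a2cc,
    0x516112e22e48822a218141e91ce8e41884411ce825161422e41893a12e8c615,
    0x84c4411ce421364412e41891a22e8ca151614142ee48813a812ee88844c4e219], [0, 0, 0,
    0x1162214cb288329211c84c38e4182a57a14d24434b41e746885,
    0x5261481a12ac8443491a74e8155a812e58811e36c52b86819], [0,
    0x111e1212111c1aa44141211a18111e14e48c, 0, 0xb71e142d17e184a11dbe12141d7a1cc215,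
    0x5214d13e18b7c14e21db61181cd17e18c219]]

noncomputable def n3545 : Ent := ⟨e3545, noF, [], [], [(9, 15, [7334790850167413569773436004105379185503274260204390087403942019141633, 0]), (9, 17, [6903326391201334775872065844685381424292761054348340378595029944197121, 0])]⟩

def c3545 : PLift (Cov.check n3545.C.D v3545 = true) := ⟨by decide +kernel⟩

def b3545 : PLift (entF (fidx ts) 400 3545 n3545 = true) := ⟨by decide +kernel⟩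

theorem g3545 : GoodF (fidx ts) 400 3545 := GoodF.ofV v3545 n3545 c3545.down b3545.down

/-- 46494464:2693 -/
noncomputable def e3546 : SCfg where
  D := {
    a := 8
    L := 11
    kp := 8
    inn := [(0, 1), (1, 0), (1, 2), (1, 3), (1, 4), (2, 1), (2, 3), (3, 1), (3, 2), (3, 4), (3, 5), (3,
      6), (4, 1), (4, 3), (5, 3), (6, 3), (6, 7), (7, 6)]
    mix := [(0, 0), (0, 1), (0, 2), (1, 0), (1, 2), (2, 2), (2, 3), (3, 3), (3, 4), (3, 5), (3, 6), (4,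
      0), (4, 6), (5, 3), (5, 4), (5, 7), (6, 5), (6, 6), (6, 8), (6, 9), (7, 8), (7, 9), (7, 10)]
    cl := [1, 6, 2, 0, 5, 0, 0, 7, 3, 4, 8]
    chq := [(1, 2), (2, 1), (3, 4), (4, 3)]
    rng := [(0, 1), (0, 6), (1, 0), (1, 2), (2, 1), (2, 3), (3, 2), (3, 7), (4, 5), (4, 7), (5, 4), (5,
      8), (6, 0), (6, 9), (7, 3), (7, 4), (8, 5), (8, 10), (9, 6), (9, 10), (10, 8), (10, 9)]
    lev := [] }
  links := [[1, 8, 9, 10], [8, 0, 10, 2, 3, 4], [3, 1, 10, 11], [4, 1, 2, 11, 5, 12, 13, 6, 14], [8, 1,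
    3, 14], [12, 3, 11, 15], [14, 3, 13, 16, 7, 17], [17, 6, 16, 18]]
  P := {
    a := 8
    N := 19
    nb := [1794, 1309, 3082, 30838, 16650, 38920, 221320, 458816, 16915, 1281, 2567, 33836, 41000,
      69704, 131416, 6176, 270528, 278720, 196736]
    tri := [(0, 1, 8), (0, 1, 10), (0, 8, 9), (0, 9, 10), (1, 2, 3), (1, 2, 10), (1, 3, 4), (1, 4, 8),
      (2, 3, 11), (2, 10, 11), (3, 4, 14), (3, 5, 11), (3, 5, 12), (3, 6, 13), (3, 6, 14), (3, 12,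
      13), (4, 8, 14), (5, 11, 15), (5, 12, 15), (6, 7, 16), (6, 7, 17), (6, 13, 16), (6, 14, 17),
      (7, 16, 18), (7, 17, 18)]
    fin := [0, 0, 0, 3, 0, 3, 3, 7, 0, 9, 10, 3, 12, 3, 3, 15, 7, 17, 18]
    chd := [(0, 10), (7, 17)]
    steps := [(0, 1), (0, 2), (0, 4), (0, 8), (3, 5), (3, 6), (3, 11), (3, 13), (3, 14), (7, 16)] }
  rep := [3, 0, 10, 7, 17, 12, 9, 15, 18]

noncomputable def v3546 : Cov.CovD where
  P := 3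
  N := 6
  pl := [1, 4, 7, 10]
  lev := [⟨[], [], [(1, 2)], [6], [(0, 1, [2]), (2, 2, [1])]⟩,
    ⟨[], [(0, 1), (0, 2)], [(1, 2)], [], [(0, 1, [2]), (2, 2, [1])]⟩,
    ⟨[(0, 1)], [(0, 2), (1, 0), (1, 1), (1, 2)], [(0, 2)], [], [(2, 2, [1]), (3, 0, [])]⟩,
    ⟨[(0, 1), (1, 2)], [(1, 0), (1, 1), (1, 2), (2, 0), (2, 2)], [(0, 0)], [5], [(3, 0,
      []), (5, 0, []), (6, 0, [])]⟩,
    ⟨[(0, 1), (1, 2), (1, 3), (2, 3)], [(0, 1), (1, 0), (1, 1), (1, 2), (3, 0), (3, 1)],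
      [(0, 1)], [], [(0, 1, [2]), (6, 0, [])]⟩,
    ⟨[(1, 3), (2, 3), (3, 4)], [(2, 0), (3, 0)], [], [5, 7], [(3, 0, [])]⟩,
    ⟨[(1, 3), (2, 3), (3, 4), (3, 5)], [(3, 0), (3, 3), (3, 4), (4, 0)], [(0, 0), (0, 3),
      (0, 4), (3, 4)], [], [(5, 0, []), (6, 0, []), (8, 3, [4]), (9, 4, [3])]⟩,
    ⟨[(3, 6)], [(6, 0), (6, 3), (6, 4)], [(3, 4)], [8], [(8, 3, [4]), (9, 4, [3])]⟩]
  Ta := [((3, 2), 0, 2), ((3, 7), 0, 7), ((5, 4), 0, 5), ((5, 8), 0, 3), ((6, 0), 0, 1), ((6, 9),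
    0, 4)]
  Tb := [((0, 1, 6), 1, 6, 0), ((1, 0, 2), 6, 1, 2), ((2, 1, 3), 2, 6, 0), ((3, 2, 7), 0, 2, 7),
    ((4, 5, 7), 5, 0, 7), ((5, 4, 8), 0, 5, 3), ((6, 0, 9), 0, 1, 4), ((7, 3, 4), 7, 0, 5),
    ((8, 5, 10), 3, 0, 8), ((9, 6, 10), 4, 0, 8), ((10, 8, 9), 8, 3, 4)]
  Tc := []
  Td := [((1, 2), (0, 1), 6), ((1, 2), (0, 6), 0), ((2, 1), (2, 1), 6), ((2, 1), (2, 3), 0), ((3,
    4), (8, 5), 0), ((3, 4), (8, 10), 8), ((4, 3), (9, 6), 0), ((4, 3), (9, 10), 8)]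
  G := [[0, 0, 0x9893a32e1425365432e1985495ce1a4c9893a32e1985495ce4685365432e182cc,
    0x9893a32e142985495ce825365432e18ac985495ce825365432e29893a32e2c615,
    0x9893a32e8985495ce865365432e48a19893a32e8985495ce465365432e48a19], [0, 0, 0,
    0x54536549893a32e85495c34e8153615c13ae28893a388895c98e415,
    0x536149892a32e8516549874e81445365491c93a136e84495c98e219], [0,
    0x5261293a12951e14e845361293a1295c18e48c, 0, 0x5361293a1295c14e8193a14485361295c18a8cc,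
    0x5361493a1895c18e815361493a1895c14e819]]

noncomputable def n3546 : Ent := ⟨e3546, noF, [], [], [(9, 15, [31810581956861085346069128449376638664080213418021345636276315565303083009, 0]), (9, 18, [30043303427623734937691929578474300150491519007939870628445900451935502337, 0]), (9, 17, [31810150492402119267275227079217218666319002904815489586567506653228134401, 0]), (10, 18, [30043303427623734937691929578474300150491519007939870628445900451935518721, 0]), (15, 18, [30043303427623734937691929578474300150491519007939870628445900451935522817, 0])]⟩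

def c3546 : PLift (Cov.check n3546.C.D v3546 = true) := ⟨by decide +kernel⟩

def b3546 : PLift (entF (fidx ts) 400 3546 n3546 = true) := ⟨by decide +kernel⟩

theorem g3546 : GoodF (fidx ts) 400 3546 := GoodF.ofV v3546 n3546 c3546.down b3546.down

/-- 46494454:2695/2 -/
noncomputable def e3547 : SCfg where
  D := {
    a := 8
    L := 9
    kp := 6
    inn := [(0, 1), (1, 0), (1, 2), (1, 3), (2, 1), (2, 3), (3, 1), (3, 2), (3, 4), (3, 5), (3, 6), (4,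
      3), (5, 3), (6, 3), (6, 7), (7, 6)]
    mix := [(0, 0), (0, 1), (0, 2), (1, 0), (1, 2), (1, 3), (2, 2), (2, 4), (3, 3), (3, 4), (3, 5), (3,
      6), (4, 1), (4, 4), (4, 5), (5, 5), (5, 6), (5, 7), (6, 3), (6, 6), (6, 8), (7, 6), (7, 7),
      (7, 8)]
    cl := [2, 4, 1, 0, 0, 3, 0, 5, 6]
    chq := [(0, 3), (1, 2), (2, 1), (3, 0)]
    rng := [(0, 1), (0, 3), (1, 0), (1, 2), (1, 4), (1, 5), (2, 1), (2, 4), (3, 0), (3, 8), (4, 1), (4,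
      2), (5, 1), (5, 7), (6, 7), (7, 5), (7, 6), (7, 8), (8, 3), (8, 7)]
    lev := [] }
  links := [[1, 8, 9, 10], [8, 0, 10, 2, 3, 11], [3, 1, 10, 12], [11, 1, 2, 12, 4, 13, 5, 14, 6], [13, 3,
    12, 9], [14, 3, 13, 15], [11, 3, 14, 7, 16], [16, 6, 14, 15]]
  P := {
    a := 8
    N := 17
    nb := [1794, 3341, 5130, 30838, 12808, 57352, 84104, 114752, 2563, 13585, 4615, 65866, 1564,
      33336, 33000, 90272, 35008]
    tri := [(0, 1, 8), (0, 1, 10), (0, 8, 9), (0, 9, 10), (1, 2, 3), (1, 2, 10), (1, 3, 11), (1, 8,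
      11), (2, 3, 12), (2, 10, 12), (3, 4, 12), (3, 4, 13), (3, 5, 13), (3, 5, 14), (3, 6, 11),
      (3, 6, 14), (4, 9, 12), (4, 9, 13), (5, 13, 15), (5, 14, 15), (6, 7, 14), (6, 7, 16), (6,
      11, 16), (7, 14, 15), (7, 15, 16)]
    fin := [0, 0, 0, 3, 4, 3, 3, 3, 0, 4, 10, 3, 3, 13, 3, 15, 16]
    chd := [(0, 10), (3, 13)]
    steps := [(0, 1), (0, 2), (0, 8), (3, 5), (3, 6), (3, 12), (3, 14), (3, 7), (3, 11), (4, 9)] }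
  rep := [3, 10, 0, 13, 4, 15, 16]

noncomputable def v3547 : Cov.CovD where
  P := 3
  N := 4
  pl := [1, 7, 8]
  lev := [⟨[], [], [(1, 2)], [4], [(0, 2, [1]), (2, 1, [2])]⟩,
    ⟨[], [(0, 0), (0, 1), (0, 2)], [(0, 1), (0, 2), (1, 2)], [], [(0, 2, [1]), (2, 1, [2]),
      (3, 0, [3])]⟩,
    ⟨[(0, 1)], [(0, 1), (1, 0), (1, 1), (1, 2)], [(0, 1)], [], [(2, 1, [2]), (4, 0, [3])]⟩,
    ⟨[(0, 1), (1, 2)], [(1, 0), (1, 1), (1, 2), (1, 3), (2, 0), (2, 1), (2, 3)], [(0, 0),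
      (0, 3)], [], [(3, 0, [3]), (4, 0, [3]), (5, 3, [0]), (6, 0, [3])]⟩,
    ⟨[(1, 3), (2, 3)], [(2, 0), (3, 0), (3, 3)], [(0, 3)], [4], [(4, 0, [3]), (5, 3, [0])]⟩,
    ⟨[(1, 3), (2, 3), (3, 4)], [(3, 0), (3, 3), (4, 3)], [(0, 3)], [5], [(5, 3, [0]), (6,
      0, [3])]⟩,
    ⟨[(1, 3), (2, 3), (3, 4), (3, 5)], [(1, 0), (3, 0), (3, 3), (5, 0)], [(0, 0)], [6],
      [(3, 0, [3]), (6, 0, [3])]⟩,
    ⟨[(3, 6)], [(3, 0), (5, 0), (6, 0)], [], [5, 6], [(6, 0, [3])]⟩]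
  Ta := [((3, 0), 0, 2), ((3, 8), 0, 6), ((4, 1), 0, 4), ((4, 2), 0, 1), ((6, 7), 0, 5)]
  Tb := [((0, 1, 3), 2, 4, 0), ((1, 0, 2), 4, 2, 1), ((1, 0, 4), 4, 2, 0), ((1, 0, 5), 4, 2, 3),
    ((1, 2, 4), 4, 1, 0), ((1, 2, 5), 4, 1, 3), ((1, 4, 5), 4, 0, 3), ((2, 1, 4), 1, 4, 0),
    ((3, 0, 8), 0, 2, 6), ((4, 1, 2), 0, 4, 1), ((5, 1, 7), 3, 4, 5), ((7, 5, 6), 5, 3, 0),
    ((7, 5, 8), 5, 3, 6), ((7, 6, 8), 5, 0, 6), ((8, 3, 7), 6, 0, 5)]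
  Tc := []
  Td := [((0, 3), (3, 0), 2), ((0, 3), (3, 8), 6), ((0, 3), (4, 1), 4), ((0, 3), (4, 2), 1), ((0,
    3), (6, 7), 5), ((1, 2), (2, 1), 4), ((1, 2), (2, 4), 0), ((2, 1), (0, 1), 4), ((2, 1),
    (0, 3), 0), ((3, 0), (5, 1), 4), ((3, 0), (5, 7), 5)]
  G := [[0, 0, 0xc6a114a4c112c4ca61186c11a84c, 0xca61182c14c82cd2a441,
    0x81a12ac81a12a42abca6c116881], [0, 0xca618a6c12a44c6a14a6c12688c, 0,
    0xca61811a11662c2181a84a6c126116448a8c, 0xca618a6c12a4118412c6a3c148141884cda612228c89],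
    [0, 0, 0, 0x42a282ce4ac386c82cc236881, 0x222826c6ac586c44a84c18c2ec2b6881]]

noncomputable def n3547 : Ent := ⟨e3547, noF, [], [], []⟩

def c3547 : PLift (Cov.check n3547.C.D v3547 = true) := ⟨by decide +kernel⟩

def b3547 : PLift (entF (fidx ts) 400 3547 n3547 = true) := ⟨by decide +kernel⟩

theorem g3547 : GoodF (fidx ts) 400 3547 := GoodF.ofV v3547 n3547 c3547.down b3547.down

/-- 46494454:2695/1 -/
noncomputable def e3548 : SCfg where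
  D := {
    a := 8
    L := 10
    kp := 7
    inn := [(0, 1), (1, 0), (1, 2), (1, 3), (2, 1), (2, 3), (3, 1), (3, 2), (3, 4), (3, 5), (3, 6), (4,
      3), (5, 3), (6, 3), (6, 7), (7, 6)]
    mix := [(0, 0), (0, 1), (0, 2), (1, 0), (1, 2), (1, 3), (2, 2), (2, 4), (3, 3), (3, 4), (3, 5), (3,
      6), (4, 1), (4, 4), (4, 5), (5, 5), (5, 6), (5, 7), (6, 3), (6, 6), (6, 8), (7, 6), (7, 8),
      (7, 9)]
    cl := [1, 2, 3, 0, 0, 4, 0, 6, 5, 7]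
    chq := [(0, 4), (1, 3), (3, 1), (4, 0)]
    rng := [(0, 1), (0, 3), (1, 0), (1, 2), (1, 4), (1, 5), (2, 1), (2, 4), (3, 0), (3, 8), (4, 1), (4,
      2), (5, 1), (5, 7), (6, 7), (6, 9), (7, 5), (7, 6), (8, 3), (8, 9), (9, 6), (9, 8)]
    lev := [] }
  links := [[1, 8, 9, 10], [8, 0, 10, 2, 3, 11], [3, 1, 10, 12], [11, 1, 2, 12, 4, 13, 5, 14, 6], [13, 3,
    12, 9], [14, 3, 13, 15], [11, 3, 14, 7, 16], [16, 6, 14, 17]]
  P := {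
    a := 8
    N := 18
    nb := [1794, 3341, 5130, 30838, 12808, 57352, 84104, 213056, 2563, 13585, 4615, 65866, 1564,
      33336, 164072, 24608, 133312, 82048]
    tri := [(0, 1, 8), (0, 1, 10), (0, 8, 9), (0, 9, 10), (1, 2, 3), (1, 2, 10), (1, 3, 11), (1, 8,
      11), (2, 3, 12), (2, 10, 12), (3, 4, 12), (3, 4, 13), (3, 5, 13), (3, 5, 14), (3, 6, 11),
      (3, 6, 14), (4, 9, 12), (4, 9, 13), (5, 13, 15), (5, 14, 15), (6, 7, 14), (6, 7, 16), (6,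
      11, 16), (7, 14, 17), (7, 16, 17)]
    fin := [0, 0, 0, 3, 4, 3, 3, 3, 0, 4, 10, 3, 3, 13, 3, 15, 16, 17]
    chd := [(0, 10), (3, 13)]
    steps := [(0, 1), (0, 2), (0, 8), (3, 5), (3, 6), (3, 7), (3, 12), (3, 14), (3, 11), (4, 9)] }
  rep := [3, 0, 4, 10, 13, 16, 15, 17]

noncomputable def v3548 : Cov.CovD where
  P := 3
  N := 5
  pl := [1, 7, 8, 9]
  lev := [⟨[], [], [(1, 3)], [2], [(0, 1, [3]), (2, 3, [1])]⟩,
    ⟨[], [(0, 0), (0, 1), (0, 3)], [(0, 1), (0, 3), (1, 3)], [], [(0, 1, [3]), (2, 3, [1]),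
      (3, 0, [4])]⟩,
    ⟨[(0, 1)], [(0, 3), (1, 0), (1, 1), (1, 3)], [(0, 3)], [], [(2, 3, [1]), (4, 0, [4])]⟩,
    ⟨[(0, 1), (1, 2)], [(1, 0), (1, 1), (1, 3), (1, 4), (2, 0), (2, 3), (2, 4)], [(0, 0),
      (0, 4)], [], [(3, 0, [4]), (4, 0, [4]), (5, 4, [0]), (6, 0, [4])]⟩,
    ⟨[(1, 3), (2, 3)], [(2, 0), (3, 0), (3, 4)], [(0, 4)], [2], [(4, 0, [4]), (5, 4, [0])]⟩,
    ⟨[(1, 3), (2, 3), (3, 4)], [(3, 0), (3, 4), (4, 4)], [(0, 4)], [6], [(5, 4, [0]), (6,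
      0, [4])]⟩,
    ⟨[(1, 3), (2, 3), (3, 4), (3, 5)], [(1, 0), (3, 0), (3, 4), (5, 0)], [(0, 0)], [5],
      [(3, 0, [4]), (6, 0, [4])]⟩,
    ⟨[(3, 6)], [(3, 0), (5, 0), (6, 0)], [], [5, 7], [(6, 0, [4])]⟩]
  Ta := [((3, 0), 0, 1), ((3, 8), 0, 5), ((4, 1), 0, 2), ((4, 2), 0, 3), ((6, 7), 0, 6), ((6, 9),
    0, 7)]
  Tb := [((0, 1, 3), 1, 2, 0), ((1, 0, 2), 2, 1, 3), ((1, 0, 4), 2, 1, 0), ((1, 0, 5), 2, 1, 4),
    ((1, 2, 4), 2, 3, 0), ((1, 2, 5), 2, 3, 4), ((1, 4, 5), 2, 0, 4), ((2, 1, 4), 3, 2, 0),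
    ((3, 0, 8), 0, 1, 5), ((4, 1, 2), 0, 2, 3), ((5, 1, 7), 4, 2, 6), ((6, 7, 9), 0, 6, 7),
    ((7, 5, 6), 6, 4, 0), ((8, 3, 9), 5, 0, 7), ((9, 6, 8), 7, 0, 5)]
  Tc := []
  Td := [((0, 4), (3, 0), 1), ((0, 4), (3, 8), 5), ((0, 4), (4, 1), 2), ((0, 4), (4, 2), 3), ((0,
    4), (6, 7), 6), ((0, 4), (6, 9), 7), ((1, 3), (0, 1), 2), ((1, 3), (0, 3), 0), ((3, 1),
    (2, 1), 2), ((3, 1), (2, 4), 0), ((4, 0), (5, 1), 2), ((4, 0), (5, 7), 6)]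
  G := [[0, 0xa6c112c6a14438ca618a6c14a14c, 0, 0x11c11cca6c1522811c11cca6c15224c,
    0x141218ec6a194281a616aa2c6a11c249], [0, 0, 0xca618c6a14c21ca618a6c12a41c,
    0x11a24a6c111c4c6281162811c8a6c1ca24c, 0xa6c12211611ac11a11a6a468ca61811c42a11a224649],
    [0, 0, 0, 0xa6c8a6c4a6c2d241a6c212a6c8a6c4c2a85,
    0xc6a8c6a2c6a4b421ca64ca689a6c21aa6ca6cc22549]]

noncomputable def n3548 : Ent := ⟨e3548, noF, [], [], [(15, 17, [6903326391201334775872065844685381424292761054348340378595029944217601, 0])]⟩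

def c3548 : PLift (Cov.check n3548.C.D v3548 = true) := ⟨by decide +kernel⟩

def b3548 : PLift (entF (fidx ts) 400 3548 n3548 = true) := ⟨by decide +kernel⟩

theorem g3548 : GoodF (fidx ts) 400 3548 := GoodF.ofV v3548 n3548 c3548.down b3548.down

/-- 46494454:2695/4 -/
noncomputable def e3549 : SCfg where
  D := {
    a := 8
    L := 9
    kp := 6
    inn := [(0, 1), (1, 0), (1, 2), (1, 3), (2, 1), (2, 3), (3, 1), (3, 2), (3, 4), (3, 5), (3, 6), (4,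
      3), (5, 3), (6, 3), (6, 7), (7, 6)]
    mix := [(0, 0), (0, 1), (0, 2), (1, 0), (1, 2), (1, 3), (2, 2), (2, 4), (3, 3), (3, 4), (3, 5), (3,
      6), (4, 4), (4, 5), (4, 7), (5, 1), (5, 5), (5, 6), (6, 3), (6, 6), (6, 8), (7, 1), (7, 6),
      (7, 8)]
    cl := [4, 2, 1, 0, 0, 3, 0, 6, 5]
    chq := [(0, 3), (1, 4), (3, 0), (4, 1)]
    rng := [(0, 1), (0, 3), (1, 0), (1, 2), (1, 5), (1, 6), (1, 8), (2, 1), (2, 4), (3, 0), (3, 8), (4,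
      2), (4, 7), (5, 1), (5, 7), (6, 1), (7, 4), (7, 5), (8, 1), (8, 3)]
    lev := [] }
  links := [[1, 8, 9, 10], [8, 0, 10, 2, 3, 11], [3, 1, 10, 12], [11, 1, 2, 12, 4, 13, 5, 14, 6], [13, 3,
    12, 15], [14, 3, 13, 9], [11, 3, 14, 7, 16], [16, 6, 14, 9]]
  P := {
    a := 8
    N := 17
    nb := [1794, 3341, 5130, 30838, 45064, 25096, 84104, 82496, 2563, 91553, 4615, 65866, 33820,
      33336, 744, 12304, 2752]
    tri := [(0, 1, 8), (0, 1, 10), (0, 8, 9), (0, 9, 10), (1, 2, 3), (1, 2, 10), (1, 3, 11), (1, 8,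
      11), (2, 3, 12), (2, 10, 12), (3, 4, 12), (3, 4, 13), (3, 5, 13), (3, 5, 14), (3, 6, 11),
      (3, 6, 14), (4, 12, 15), (4, 13, 15), (5, 9, 13), (5, 9, 14), (6, 7, 14), (6, 7, 16), (6,
      11, 16), (7, 9, 14), (7, 9, 16)]
    fin := [0, 0, 0, 3, 3, 5, 5, 5, 0, 5, 10, 3, 3, 13, 3, 15, 16]
    chd := [(0, 10), (3, 13)]
    steps := [(0, 1), (0, 2), (0, 8), (3, 4), (3, 12), (3, 14), (3, 11), (5, 9), (5, 7), (5, 6)] }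
  rep := [3, 10, 5, 13, 0, 16, 15]

noncomputable def v3549 : Cov.CovD where
  P := 3
  N := 4
  pl := [1, 7, 8]
  lev := [⟨[], [], [(1, 4)], [2], [(0, 4, [1]), (2, 1, [4])]⟩,
    ⟨[], [(0, 0), (0, 1), (0, 4)], [(0, 1), (0, 4), (1, 4)], [], [(0, 4, [1]), (2, 1, [4]),
      (3, 0, [3])]⟩,
    ⟨[(0, 1)], [(0, 1), (1, 0), (1, 1), (1, 4)], [(0, 1)], [], [(2, 1, [4]), (4, 0, [3])]⟩,
    ⟨[(0, 1), (1, 2)], [(1, 0), (1, 1), (1, 3), (1, 4), (2, 0), (2, 1), (2, 3)], [(0, 0),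
      (0, 3)], [], [(3, 0, [3]), (4, 0, [3]), (5, 3, [0]), (6, 0, [3])]⟩,
    ⟨[(1, 3), (2, 3)], [(2, 0), (3, 0), (3, 3)], [(0, 3)], [6], [(4, 0, [3]), (5, 3, [0])]⟩,
    ⟨[(1, 3), (2, 3), (3, 4)], [(3, 0), (3, 3), (4, 3)], [(0, 3)], [2], [(5, 3, [0]), (6,
      0, [3])]⟩,
    ⟨[(1, 3), (2, 3), (3, 4), (3, 5)], [(1, 0), (3, 0), (3, 3), (5, 0)], [(0, 0)], [5],
      [(3, 0, [3]), (6, 0, [3])]⟩,
    ⟨[(3, 6)], [(3, 0), (5, 0), (6, 0)], [], [2, 5], [(6, 0, [3])]⟩]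
  Ta := [((3, 0), 0, 4), ((3, 8), 0, 5), ((4, 2), 0, 1), ((4, 7), 0, 6), ((6, 1), 0, 2)]
  Tb := [((0, 1, 3), 4, 2, 0), ((1, 0, 2), 2, 4, 1), ((1, 0, 5), 2, 4, 3), ((1, 0, 6), 2, 4, 0),
    ((1, 0, 8), 2, 4, 5), ((1, 2, 5), 2, 1, 3), ((1, 2, 6), 2, 1, 0), ((1, 2, 8), 2, 1, 5),
    ((1, 5, 6), 2, 3, 0), ((1, 5, 8), 2, 3, 5), ((1, 6, 8), 2, 0, 5), ((2, 1, 4), 1, 2, 0),
    ((3, 0, 8), 0, 4, 5), ((4, 2, 7), 0, 1, 6), ((5, 1, 7), 3, 2, 6), ((7, 4, 5), 6, 0, 3),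
    ((8, 1, 3), 5, 2, 0)]
  Tc := []
  Td := [((0, 3), (3, 0), 4), ((0, 3), (3, 8), 5), ((0, 3), (4, 2), 1), ((0, 3), (4, 7), 6), ((0,
    3), (6, 1), 2), ((1, 4), (2, 1), 2), ((1, 4), (2, 4), 0), ((3, 0), (5, 1), 2), ((3, 0),
    (5, 7), 6), ((4, 1), (0, 1), 2), ((4, 1), (0, 3), 0)]
  G := [[0, 0, 0, 0x124128c21d28412812884c1d2485, 0x82a11142148a64882a8882c116126848949], [0,
    0x128881a884c484c1e6128446881a484c1624861124c8a4c, 0, 0x12812484c1e2812812484c1e24c1,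
    0x14882a1142e488261482a112a2a14212c2148ee8c1], [0, 0, 0x82a4184c216818268182c21a41c,
    0x84c884c884c4b28484c8c2484c84cce2185, 0x82a8148a487a4216882a8882c2168268489c1]]

noncomputable def n3549 : Ent := ⟨e3549, noF, [], [], []⟩

def c3549 : PLift (Cov.check n3549.C.D v3549 = true) := ⟨by decide +kernel⟩

def b3549 : PLift (entF (fidx ts) 400 3549 n3549 = true) := ⟨by decide +kernel⟩

theorem g3549 : GoodF (fidx ts) 400 3549 := GoodF.ofV v3549 n3549 c3549.down b3549.down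

/-- 46494454:2695/3 -/
noncomputable def e3550 : SCfg where
  D := {
    a := 8
    L := 10
    kp := 7
    inn := [(0, 1), (1, 0), (1, 2), (1, 3), (2, 1), (2, 3), (3, 1), (3, 2), (3, 4), (3, 5), (3, 6), (4,
      3), (5, 3), (6, 3), (6, 7), (7, 6)]
    mix := [(0, 0), (0, 1), (0, 2), (1, 0), (1, 2), (1, 3), (2, 2), (2, 4), (3, 3), (3, 4), (3, 5), (3,
      6), (4, 4), (4, 5), (4, 7), (5, 1), (5, 5), (5, 6), (6, 3), (6, 6), (6, 8), (7, 6), (7, 8),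
      (7, 9)]
    cl := [2, 4, 1, 0, 0, 3, 0, 6, 5, 7]
    chq := [(0, 3), (1, 2), (2, 1), (3, 0)]
    rng := [(0, 1), (0, 3), (1, 0), (1, 2), (1, 5), (1, 6), (2, 1), (2, 4), (3, 0), (3, 8), (4, 2), (4,
      7), (5, 1), (5, 7), (6, 1), (6, 9), (7, 4), (7, 5), (8, 3), (8, 9), (9, 6), (9, 8)]
    lev := [] }
  links := [[1, 8, 9, 10], [8, 0, 10, 2, 3, 11], [3, 1, 10, 12], [11, 1, 2, 12, 4, 13, 5, 14, 6], [13, 3,
    12, 15], [14, 3, 13, 9], [11, 3, 14, 7, 16], [16, 6, 14, 17]]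
  P := {
    a := 8
    N := 18
    nb := [1794, 3341, 5130, 30838, 45064, 25096, 84104, 213056, 2563, 25889, 4615, 65866, 33820,
      33336, 131816, 12304, 133312, 82048]
    tri := [(0, 1, 8), (0, 1, 10), (0, 8, 9), (0, 9, 10), (1, 2, 3), (1, 2, 10), (1, 3, 11), (1, 8,
      11), (2, 3, 12), (2, 10, 12), (3, 4, 12), (3, 4, 13), (3, 5, 13), (3, 5, 14), (3, 6, 11),
      (3, 6, 14), (4, 12, 15), (4, 13, 15), (5, 9, 13), (5, 9, 14), (6, 7, 14), (6, 7, 16), (6,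
      11, 16), (7, 14, 17), (7, 16, 17)]
    fin := [0, 0, 0, 3, 3, 5, 3, 3, 0, 5, 10, 3, 3, 13, 3, 15, 16, 17]
    chd := [(0, 10), (3, 13)]
    steps := [(0, 1), (0, 2), (0, 8), (3, 4), (3, 6), (3, 7), (3, 12), (3, 14), (3, 11), (5, 9)] }
  rep := [3, 10, 0, 13, 5, 16, 15, 17]

noncomputable def v3550 : Cov.CovD where
  P := 3
  N := 5
  pl := [1, 7, 8, 9]
  lev := [⟨[], [], [(1, 2)], [4], [(0, 2, [1]), (2, 1, [2])]⟩,
    ⟨[], [(0, 0), (0, 1), (0, 2)], [(0, 1), (0, 2), (1, 2)], [], [(0, 2, [1]), (2, 1, [2]),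
      (3, 0, [3])]⟩,
    ⟨[(0, 1)], [(0, 1), (1, 0), (1, 1), (1, 2)], [(0, 1)], [], [(2, 1, [2]), (4, 0, [3])]⟩,
    ⟨[(0, 1), (1, 2)], [(1, 0), (1, 1), (1, 2), (1, 3), (2, 0), (2, 1), (2, 3)], [(0, 0),
      (0, 3)], [], [(3, 0, [3]), (4, 0, [3]), (5, 3, [0]), (6, 0, [3])]⟩,
    ⟨[(1, 3), (2, 3)], [(2, 0), (3, 0), (3, 3)], [(0, 3)], [6], [(4, 0, [3]), (5, 3, [0])]⟩,
    ⟨[(1, 3), (2, 3), (3, 4)], [(3, 0), (3, 3), (4, 3)], [(0, 3)], [4], [(5, 3, [0]), (6,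
      0, [3])]⟩,
    ⟨[(1, 3), (2, 3), (3, 4), (3, 5)], [(1, 0), (3, 0), (3, 3), (5, 0)], [(0, 0)], [5],
      [(3, 0, [3]), (6, 0, [3])]⟩,
    ⟨[(3, 6)], [(3, 0), (5, 0), (6, 0)], [], [5, 7], [(6, 0, [3])]⟩]
  Ta := [((3, 0), 0, 2), ((3, 8), 0, 5), ((4, 2), 0, 1), ((4, 7), 0, 6), ((6, 1), 0, 4), ((6, 9),
    0, 7)]
  Tb := [((0, 1, 3), 2, 4, 0), ((1, 0, 2), 4, 2, 1), ((1, 0, 5), 4, 2, 3), ((1, 0, 6), 4, 2, 0),
    ((1, 2, 5), 4, 1, 3), ((1, 2, 6), 4, 1, 0), ((1, 5, 6), 4, 3, 0), ((2, 1, 4), 1, 4, 0),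
    ((3, 0, 8), 0, 2, 5), ((4, 2, 7), 0, 1, 6), ((5, 1, 7), 3, 4, 6), ((6, 1, 9), 0, 4, 7),
    ((7, 4, 5), 6, 0, 3), ((8, 3, 9), 5, 0, 7), ((9, 6, 8), 7, 0, 5)]
  Tc := []
  Td := [((0, 3), (3, 0), 2), ((0, 3), (3, 8), 5), ((0, 3), (4, 2), 1), ((0, 3), (4, 7), 6), ((0,
    3), (6, 1), 4), ((0, 3), (6, 9), 7), ((1, 2), (2, 1), 4), ((1, 2), (2, 4), 0), ((2, 1),
    (0, 1), 4), ((2, 1), (0, 3), 0), ((3, 0), (5, 1), 4), ((3, 0), (5, 7), 6)]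
  G := [[0, 0, 0x1168111c21a4411a4111c21688c, 0xca61116a22a1c24e481,
    0x11a811a2c6a1b1164a6c156481], [0, 0x11a8a6c1a21168c6a1c46811a4a6c162ca611164c8a4c, 0,
    0xc6a111a2642116ca6311a2a82c1, 0x1212c8d1812c6abc11611ca14a6c5a6881], [0, 0, 0,
    0xca681a6c21a441162c6a4311c2a6c256889, 0xca68111c8a6c29a4111c2c6a4311c4a6c256889]]

noncomputable def n3550 : Ent := ⟨e3550, noF, [], [], [(9, 17, [6903326391201334775872065844685381424292761054348340378595029944225793, 0])]⟩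

def c3550 : PLift (Cov.check n3550.C.D v3550 = true) := ⟨by decide +kernel⟩

def b3550 : PLift (entF (fidx ts) 400 3550 n3550 = true) := ⟨by decide +kernel⟩

theorem g3550 : GoodF (fidx ts) 400 3550 := GoodF.ofV v3550 n3550 c3550.down b3550.down

/-- 46494454:2695/5 -/
noncomputable def e3551 : SCfg where
  D := {
    a := 8
    L := 10
    kp := 7
    inn := [(0, 1), (1, 0), (1, 2), (1, 3), (2, 1), (2, 3), (3, 1), (3, 2), (3, 4), (3, 5), (3, 6), (4,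
      3), (5, 3), (6, 3), (6, 7), (7, 6)]
    mix := [(0, 0), (0, 1), (0, 2), (1, 0), (1, 2), (1, 3), (2, 2), (2, 4), (3, 3), (3, 4), (3, 5), (3,
      6), (4, 4), (4, 5), (4, 7), (5, 5), (5, 6), (5, 8), (6, 3), (6, 6), (6, 9), (7, 1), (7, 6),
      (7, 9)]
    cl := [3, 4, 1, 0, 0, 2, 0, 6, 7, 5]
    chq := [(0, 2), (1, 3), (2, 0), (3, 1)]
    rng := [(0, 1), (0, 3), (1, 0), (1, 2), (1, 6), (1, 9), (2, 1), (2, 4), (3, 0), (3, 9), (4, 2), (4,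
      7), (5, 7), (5, 8), (6, 1), (6, 8), (7, 4), (7, 5), (8, 5), (8, 6), (9, 1), (9, 3)]
    lev := [] }
  links := [[1, 8, 9, 10], [8, 0, 10, 2, 3, 11], [3, 1, 10, 12], [11, 1, 2, 12, 4, 13, 5, 14, 6], [13, 3,
    12, 15], [14, 3, 13, 16], [11, 3, 14, 7, 17], [17, 6, 14, 9]]
  P := {
    a := 8
    N := 18
    nb := [1794, 3341, 5130, 30838, 45064, 90120, 149640, 148032, 2563, 148865, 4615, 131402, 33820,
      98360, 66280, 12304, 24608, 2752]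
    tri := [(0, 1, 8), (0, 1, 10), (0, 8, 9), (0, 9, 10), (1, 2, 3), (1, 2, 10), (1, 3, 11), (1, 8,
      11), (2, 3, 12), (2, 10, 12), (3, 4, 12), (3, 4, 13), (3, 5, 13), (3, 5, 14), (3, 6, 11),
      (3, 6, 14), (4, 12, 15), (4, 13, 15), (5, 13, 16), (5, 14, 16), (6, 7, 14), (6, 7, 17), (6,
      11, 17), (7, 9, 14), (7, 9, 17)]
    fin := [0, 0, 0, 3, 3, 3, 6, 6, 0, 6, 10, 3, 3, 13, 3, 15, 16, 17]
    chd := [(0, 10), (3, 13)]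
    steps := [(0, 1), (0, 2), (0, 8), (3, 4), (3, 5), (3, 12), (3, 14), (3, 11), (6, 7), (6, 9)] }
  rep := [3, 10, 13, 0, 6, 17, 15, 16]

noncomputable def v3551 : Cov.CovD where
  P := 3
  N := 5
  pl := [1, 7, 8, 9]
  lev := [⟨[], [], [(1, 3)], [4], [(0, 3, [1]), (2, 1, [3])]⟩,
    ⟨[], [(0, 0), (0, 1), (0, 3)], [(0, 1), (0, 3), (1, 3)], [], [(0, 3, [1]), (2, 1, [3]),
      (3, 0, [2])]⟩,
    ⟨[(0, 1)], [(0, 1), (1, 0), (1, 1), (1, 3)], [(0, 1)], [], [(2, 1, [3]), (4, 0, [2])]⟩,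
    ⟨[(0, 1), (1, 2)], [(1, 0), (1, 1), (1, 2), (1, 3), (2, 0), (2, 1), (2, 2)], [(0, 0),
      (0, 2)], [], [(3, 0, [2]), (4, 0, [2]), (5, 2, [0]), (6, 0, [2])]⟩,
    ⟨[(1, 3), (2, 3)], [(2, 0), (3, 0), (3, 2)], [(0, 2)], [6], [(4, 0, [2]), (5, 2, [0])]⟩,
    ⟨[(1, 3), (2, 3), (3, 4)], [(3, 0), (3, 2), (4, 2)], [(0, 2)], [7], [(5, 2, [0]), (6,
      0, [2])]⟩,
    ⟨[(1, 3), (2, 3), (3, 4), (3, 5)], [(1, 0), (3, 0), (3, 2), (5, 0)], [(0, 0)], [5],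
      [(3, 0, [2]), (6, 0, [2])]⟩,
    ⟨[(3, 6)], [(3, 0), (5, 0), (6, 0)], [], [4, 5], [(6, 0, [2])]⟩]
  Ta := [((3, 0), 0, 3), ((3, 9), 0, 5), ((4, 2), 0, 1), ((4, 7), 0, 6), ((6, 1), 0, 4), ((6, 8),
    0, 7)]
  Tb := [((0, 1, 3), 3, 4, 0), ((1, 0, 2), 4, 3, 1), ((1, 0, 6), 4, 3, 0), ((1, 0, 9), 4, 3, 5),
    ((1, 2, 6), 4, 1, 0), ((1, 2, 9), 4, 1, 5), ((1, 6, 9), 4, 0, 5), ((2, 1, 4), 1, 4, 0),
    ((3, 0, 9), 0, 3, 5), ((4, 2, 7), 0, 1, 6), ((5, 7, 8), 2, 6, 7), ((6, 1, 8), 0, 4, 7),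
    ((7, 4, 5), 6, 0, 2), ((8, 5, 6), 7, 2, 0), ((9, 1, 3), 5, 4, 0)]
  Tc := []
  Td := [((0, 2), (3, 0), 3), ((0, 2), (3, 9), 5), ((0, 2), (4, 2), 1), ((0, 2), (4, 7), 6), ((0,
    2), (6, 1), 4), ((0, 2), (6, 8), 7), ((1, 3), (2, 1), 4), ((1, 3), (2, 4), 0), ((2, 0),
    (5, 7), 6), ((2, 0), (5, 8), 7), ((3, 1), (0, 1), 4), ((3, 1), (0, 3), 0)]
  G := [[0, 0, 0x11621164611a88c411641162611a88c8c1, 0x82a114484261188446a11488a61188cd,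
    0x82c1124824c11284426118482c1128cd], [0, 0x86a186a1c4284a61248e1c824141822dc2a1c482e,
    0x11621164611c88a4121461418611c8e24c1, 0xca614c6a18c4ca614c6a18c8c1,
    0x621211a11cac81aa4ca61211611ca8a8c1], [0, 0, 0x11c811c211c4e28141261214661888a8c1,
    0x84a82ac1481486486c184142a46ac148826826c184cd,
    0x82c82ca124142624ca18414262124c81a482c82ca128cd]]

noncomputable def n3551 : Ent := ⟨e3551, noF, [], [], [(9, 16, [7334685537875745012586738086077695515070955365108989538292687708213249, 0])]⟩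

def c3551 : PLift (Cov.check n3551.C.D v3551 = true) := ⟨by decide +kernel⟩

def b3551 : PLift (entF (fidx ts) 400 3551 n3551 = true) := ⟨by decide +kernel⟩

theorem g3551 : GoodF (fidx ts) 400 3551 := GoodF.ofV v3551 n3551 c3551.down b3551.down

/-- 46494454:2695/6 -/
noncomputable def e3552 : SCfg where
  D := {
    a := 8
    L := 10
    kp := 7
    inn := [(0, 1), (1, 0), (1, 2), (1, 3), (2, 1), (2, 3), (3, 1), (3, 2), (3, 4), (3, 5), (3, 6), (4,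
      3), (5, 3), (6, 3), (6, 7), (7, 6)]
    mix := [(0, 0), (0, 1), (0, 2), (1, 0), (1, 2), (1, 3), (2, 2), (2, 4), (3, 3), (3, 4), (3, 5), (3,
      6), (4, 4), (4, 5), (4, 7), (5, 5), (5, 6), (5, 8), (6, 3), (6, 6), (6, 9), (7, 6), (7, 8),
      (7, 9)]
    cl := [2, 6, 1, 0, 0, 3, 0, 7, 4, 5]
    chq := [(0, 3), (1, 2), (2, 1), (3, 0)]
    rng := [(0, 1), (0, 3), (1, 0), (1, 2), (2, 1), (2, 4), (3, 0), (3, 9), (4, 2), (4, 7), (5, 7), (5,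
      8), (6, 8), (7, 4), (7, 5), (8, 5), (8, 6), (8, 9), (9, 3), (9, 8)]
    lev := [] }
  links := [[1, 8, 9, 10], [8, 0, 10, 2, 3, 11], [3, 1, 10, 12], [11, 1, 2, 12, 4, 13, 5, 14, 6], [13, 3,
    12, 15], [14, 3, 13, 16], [11, 3, 14, 7, 17], [17, 6, 14, 16]]
  P := {
    a := 8
    N := 18
    nb := [1794, 3341, 5130, 30838, 45064, 90120, 149640, 213056, 2563, 1281, 4615, 131402, 33820,
      98360, 65768, 12304, 155808, 67776]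
    tri := [(0, 1, 8), (0, 1, 10), (0, 8, 9), (0, 9, 10), (1, 2, 3), (1, 2, 10), (1, 3, 11), (1, 8,
      11), (2, 3, 12), (2, 10, 12), (3, 4, 12), (3, 4, 13), (3, 5, 13), (3, 5, 14), (3, 6, 11),
      (3, 6, 14), (4, 12, 15), (4, 13, 15), (5, 13, 16), (5, 14, 16), (6, 7, 14), (6, 7, 17), (6,
      11, 17), (7, 14, 16), (7, 16, 17)]
    fin := [0, 0, 0, 3, 3, 3, 3, 3, 0, 9, 10, 3, 3, 13, 3, 15, 16, 17]
    chd := [(0, 10), (3, 13)]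
    steps := [(0, 1), (0, 2), (0, 8), (3, 4), (3, 5), (3, 6), (3, 12), (3, 14), (3, 7), (3, 11)] }
  rep := [3, 10, 0, 13, 16, 17, 9, 15]

noncomputable def v3552 : Cov.CovD where
  P := 3
  N := 5
  pl := [1, 7, 8, 9]
  lev := [⟨[], [], [(1, 2)], [6], [(0, 2, [1]), (2, 1, [2])]⟩,
    ⟨[], [(0, 0), (0, 1), (0, 2)], [(0, 1), (0, 2), (1, 2)], [], [(0, 2, [1]), (2, 1, [2]),
      (3, 0, [3])]⟩,
    ⟨[(0, 1)], [(0, 1), (1, 0), (1, 1), (1, 2)], [(0, 1)], [], [(2, 1, [2]), (4, 0, [3])]⟩,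
    ⟨[(0, 1), (1, 2)], [(1, 0), (1, 1), (1, 2), (1, 3), (2, 0), (2, 1), (2, 3)], [(0, 0),
      (0, 3)], [], [(3, 0, [3]), (4, 0, [3]), (5, 3, [0]), (6, 0, [3])]⟩,
    ⟨[(1, 3), (2, 3)], [(2, 0), (3, 0), (3, 3)], [(0, 3)], [7], [(4, 0, [3]), (5, 3, [0])]⟩,
    ⟨[(1, 3), (2, 3), (3, 4)], [(3, 0), (3, 3), (4, 3)], [(0, 3)], [4], [(5, 3, [0]), (6,
      0, [3])]⟩,
    ⟨[(1, 3), (2, 3), (3, 4), (3, 5)], [(1, 0), (3, 0), (3, 3), (5, 0)], [(0, 0)], [5],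
      [(3, 0, [3]), (6, 0, [3])]⟩,
    ⟨[(3, 6)], [(3, 0), (5, 0), (6, 0)], [], [4, 5], [(6, 0, [3])]⟩]
  Ta := [((3, 0), 0, 2), ((3, 9), 0, 5), ((4, 2), 0, 1), ((4, 7), 0, 7), ((6, 8), 0, 4)]
  Tb := [((0, 1, 3), 2, 6, 0), ((1, 0, 2), 6, 2, 1), ((2, 1, 4), 1, 6, 0), ((3, 0, 9), 0, 2, 5),
    ((4, 2, 7), 0, 1, 7), ((5, 7, 8), 3, 7, 4), ((7, 4, 5), 7, 0, 3), ((8, 5, 6), 4, 3, 0),
    ((8, 5, 9), 4, 3, 5), ((8, 6, 9), 4, 0, 5), ((9, 3, 8), 5, 0, 4)]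
  Tc := []
  Td := [((0, 3), (3, 0), 2), ((0, 3), (3, 9), 5), ((0, 3), (4, 2), 1), ((0, 3), (4, 7), 7), ((0,
    3), (6, 8), 4), ((1, 2), (2, 1), 6), ((1, 2), (2, 4), 0), ((2, 1), (0, 1), 6), ((2, 1),
    (0, 3), 0), ((3, 0), (5, 7), 7), ((3, 0), (5, 8), 4)]
  G := [[0, 0, 0xca611a6c11a44c6a11a6c11648c,
    0xc6a1111c21218681c824c1f64888882844164ca61511a22128a6c19e84d,
    0x81a812a2c6a1b11c4a6c156481211c611c482c172ca61111a88cc89], [0,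
    0xc6a1442ca618a6c12a4cc6a14a6c1268ca61882cc, 0,
    0xc6a114a82c6641611ca86811164863218641acc6a1cc28ca61144c18a6c52a44d,
    0x11c11acc6a118226e11614ca14a4c9a68181612ac12c6a3c14a4a31418a6cda6889], [0, 0, 0,
    0xca642a426e182a22a4c82c684c46e4112a42228266cacd586844484c8a6c2f688c,
    0x8812a844484ca6ca564121266282ac6ac1c89222826c6a88e584a24ca86c44c26c2b6889]]

noncomputable def n3552 : Ent := ⟨e3552, noF, [], [], [(9, 15, [7334790850167413569773436004105379185503274260204390087403942019182593, 0]), (9, 16, [7334685537875745012586738086077695515070955365108989538292687708213249, 0])]⟩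

def c3552 : PLift (Cov.check n3552.C.D v3552 = true) := ⟨by decide +kernel⟩

def b3552 : PLift (entF (fidx ts) 400 3552 n3552 = true) := ⟨by decide +kernel⟩

theorem g3552 : GoodF (fidx ts) 400 3552 := GoodF.ofV v3552 n3552 c3552.down b3552.down

/-- 46494454:2695 -/
noncomputable def e3553 : SCfg where
  D := {
    a := 8
    L := 11
    kp := 8
    inn := [(0, 1), (1, 0), (1, 2), (1, 3), (2, 1), (2, 3), (3, 1), (3, 2), (3, 4), (3, 5), (3, 6), (4,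
      3), (5, 3), (6, 3), (6, 7), (7, 6)]
    mix := [(0, 0), (0, 1), (0, 2), (1, 0), (1, 2), (1, 3), (2, 2), (2, 4), (3, 3), (3, 4), (3, 5), (3,
      6), (4, 4), (4, 5), (4, 7), (5, 5), (5, 6), (5, 8), (6, 3), (6, 6), (6, 9), (7, 6), (7, 9),
      (7, 10)]
    cl := [2, 5, 1, 0, 0, 3, 0, 6, 7, 4, 8]
    chq := [(0, 3), (1, 2), (2, 1), (3, 0)]
    rng := [(0, 1), (0, 3), (1, 0), (1, 2), (2, 1), (2, 4), (3, 0), (3, 9), (4, 2), (4, 7), (5, 7), (5,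
      8), (6, 8), (6, 10), (7, 4), (7, 5), (8, 5), (8, 6), (9, 3), (9, 10), (10, 6), (10, 9)]
    lev := [] }
  links := [[1, 8, 9, 10], [8, 0, 10, 2, 3, 11], [3, 1, 10, 12], [11, 1, 2, 12, 4, 13, 5, 14, 6], [13, 3,
    12, 15], [14, 3, 13, 16], [11, 3, 14, 7, 17], [17, 6, 14, 18]]
  P := {
    a := 8
    N := 19
    nb := [1794, 3341, 5130, 30838, 45064, 90120, 149640, 409664, 2563, 1281, 4615, 131402, 33820,
      98360, 327912, 12304, 24608, 264384, 147584]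
    tri := [(0, 1, 8), (0, 1, 10), (0, 8, 9), (0, 9, 10), (1, 2, 3), (1, 2, 10), (1, 3, 11), (1, 8,
      11), (2, 3, 12), (2, 10, 12), (3, 4, 12), (3, 4, 13), (3, 5, 13), (3, 5, 14), (3, 6, 11),
      (3, 6, 14), (4, 12, 15), (4, 13, 15), (5, 13, 16), (5, 14, 16), (6, 7, 14), (6, 7, 17), (6,
      11, 17), (7, 14, 18), (7, 17, 18)]
    fin := [0, 0, 0, 3, 3, 3, 3, 3, 0, 9, 10, 3, 3, 13, 3, 15, 16, 17, 18]
    chd := [(0, 10), (3, 13)]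
    steps := [(0, 1), (0, 2), (0, 8), (3, 4), (3, 5), (3, 6), (3, 7), (3, 12), (3, 14), (3, 11)] }
  rep := [3, 10, 0, 13, 17, 9, 15, 16, 18]

noncomputable def v3553 : Cov.CovD where
  P := 3
  N := 6
  pl := [1, 7, 8, 9, 10]
  lev := [⟨[], [], [(1, 2)], [5], [(0, 2, [1]), (2, 1, [2])]⟩,
    ⟨[], [(0, 0), (0, 1), (0, 2)], [(0, 1), (0, 2), (1, 2)], [], [(0, 2, [1]), (2, 1, [2]),
      (3, 0, [3])]⟩,
    ⟨[(0, 1)], [(0, 1), (1, 0), (1, 1), (1, 2)], [(0, 1)], [], [(2, 1, [2]), (4, 0, [3])]⟩,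
    ⟨[(0, 1), (1, 2)], [(1, 0), (1, 1), (1, 2), (1, 3), (2, 0), (2, 1), (2, 3)], [(0, 0),
      (0, 3)], [], [(3, 0, [3]), (4, 0, [3]), (5, 3, [0]), (6, 0, [3])]⟩,
    ⟨[(1, 3), (2, 3)], [(2, 0), (3, 0), (3, 3)], [(0, 3)], [6], [(4, 0, [3]), (5, 3, [0])]⟩,
    ⟨[(1, 3), (2, 3), (3, 4)], [(3, 0), (3, 3), (4, 3)], [(0, 3)], [7], [(5, 3, [0]), (6,
      0, [3])]⟩,
    ⟨[(1, 3), (2, 3), (3, 4), (3, 5)], [(1, 0), (3, 0), (3, 3), (5, 0)], [(0, 0)], [4],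
      [(3, 0, [3]), (6, 0, [3])]⟩,
    ⟨[(3, 6)], [(3, 0), (5, 0), (6, 0)], [], [4, 8], [(6, 0, [3])]⟩]
  Ta := [((3, 0), 0, 2), ((3, 9), 0, 4), ((4, 2), 0, 1), ((4, 7), 0, 6), ((6, 8), 0, 7), ((6,
    10), 0, 8)]
  Tb := [((0, 1, 3), 2, 5, 0), ((1, 0, 2), 5, 2, 1), ((2, 1, 4), 1, 5, 0), ((3, 0, 9), 0, 2, 4),
    ((4, 2, 7), 0, 1, 6), ((5, 7, 8), 3, 6, 7), ((6, 8, 10), 0, 7, 8), ((7, 4, 5), 6, 0, 3),
    ((8, 5, 6), 7, 3, 0), ((9, 3, 10), 4, 0, 8), ((10, 6, 9), 8, 0, 4)]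
  Tc := []
  Td := [((0, 3), (3, 0), 2), ((0, 3), (3, 9), 4), ((0, 3), (4, 2), 1), ((0, 3), (4, 7), 6), ((0,
    3), (6, 8), 7), ((0, 3), (6, 10), 8), ((1, 2), (2, 1), 5), ((1, 2), (2, 4), 0), ((2, 1),
    (0, 1), 5), ((2, 1), (0, 3), 0), ((3, 0), (5, 7), 6), ((3, 0), (5, 8), 7)]
  G := [[0, 0, 0xc6a11a6c11648ca611c6a11c48c,
    0x1214a124a6c1d2841441418aca6178241812a1811aac6a1b448d,
    0xc6a1111c2116411c8a6c1f6481164ca61511a811a2c6a1bc489], [0,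
    0xc6a1442ca618a6c12a4cc6a1442a6c122ca6188acc, 0,
    0xca61116116c11611cae1811c64a4111c11acc6a111a1166e42811a11ca124a6c1e248d,
    0x11a11ac11a11ac6abc11a11caa6c1a68111a11ac811611ca11611c6a6c1e6ca6148c89], [0, 0, 0,
    0xa6ca6ca12c6a11aa122c6a4746814412146ca68b841c6a18a8a844ca6c236c6a41468d,
    0xc6a11662a6c16c6461ca6ca6c1a6c21a49c6ac6ac14a6c11caa6c11cca6c2b2c89]]

noncomputable def n3553 : Ent := ⟨e3553, noF, [], [], [(9, 15, [31810581956861085346069128449376638664080213418021345636276315565303119873, 0]), (9, 16, [31810581851548793677511941751458610980409781099126250235727204310992150529, 0]), (9, 18, [30043303427623734937691929578474300150491519007939870628445900451935547393, 0]), (16, 18, [30043303427623734937691929578474300150491519007939870628445900451935551489, 0])]⟩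

def c3553 : PLift (Cov.check n3553.C.D v3553 = true) := ⟨by decide +kernel⟩

def b3553 : PLift (entF (fidx ts) 400 3553 n3553 = true) := ⟨by decide +kernel⟩

theorem g3553 : GoodF (fidx ts) 400 3553 := GoodF.ofV v3553 n3553 c3553.down b3553.down

/-- 46494454:2696/2 -/
noncomputable def e3554 : SCfg where
  D := {
    a := 8
    L := 9
    kp := 6
    inn := [(0, 1), (1, 0), (1, 2), (1, 3), (2, 1), (2, 3), (3, 1), (3, 2), (3, 4), (3, 5), (3, 6), (4,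
      3), (5, 3), (6, 3), (6, 7), (7, 6)]
    mix := [(0, 0), (0, 1), (0, 2), (1, 0), (1, 2), (1, 3), (2, 2), (2, 4), (3, 3), (3, 4), (3, 5), (3,
      6), (4, 1), (4, 4), (4, 5), (5, 5), (5, 6), (5, 7), (6, 3), (6, 6), (6, 8), (7, 0), (7, 3),
      (7, 8)]
    cl := [1, 4, 2, 0, 0, 3, 0, 6, 5]
    chq := [(0, 3), (1, 2), (2, 1), (3, 0)]
    rng := [(0, 1), (0, 3), (0, 8), (1, 0), (1, 2), (1, 4), (1, 5), (2, 1), (2, 4), (3, 0), (4, 1), (4,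
      2), (5, 1), (5, 7), (6, 7), (6, 8), (7, 5), (7, 6), (8, 0), (8, 6)]
    lev := [] }
  links := [[1, 8, 9, 10], [8, 0, 10, 2, 3, 11], [3, 1, 10, 12], [11, 1, 2, 12, 4, 13, 5, 14, 6], [13, 3,
    12, 9], [14, 3, 13, 15], [11, 3, 14, 16, 7], [11, 6, 16, 8]]
  P := {
    a := 8
    N := 17
    nb := [1794, 3341, 5130, 30838, 12808, 57352, 84104, 67904, 68227, 13585, 4615, 458, 1564, 33336,
      98408, 24608, 16832]
    tri := [(0, 1, 8), (0, 1, 10), (0, 8, 9), (0, 9, 10), (1, 2, 3), (1, 2, 10), (1, 3, 11), (1, 8,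
      11), (2, 3, 12), (2, 10, 12), (3, 4, 12), (3, 4, 13), (3, 5, 13), (3, 5, 14), (3, 6, 11),
      (3, 6, 14), (4, 9, 12), (4, 9, 13), (5, 13, 15), (5, 14, 15), (6, 7, 11), (6, 7, 16), (6,
      14, 16), (7, 8, 11), (7, 8, 16)]
    fin := [0, 0, 0, 3, 4, 3, 0, 0, 0, 4, 10, 3, 3, 13, 3, 15, 16]
    chd := [(0, 10), (3, 13)]
    steps := [(0, 1), (0, 2), (0, 8), (0, 7), (3, 5), (3, 12), (3, 14), (3, 11), (0, 6), (4, 9)] }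
  rep := [3, 0, 10, 13, 4, 16, 15]

noncomputable def v3554 : Cov.CovD where
  P := 3
  N := 4
  pl := [1, 7, 8]
  lev := [⟨[], [], [(1, 2)], [4], [(0, 1, [2]), (2, 2, [1])]⟩,
    ⟨[], [(0, 0), (0, 1), (0, 2)], [(0, 1), (0, 2), (1, 2)], [], [(0, 1, [2]), (2, 2, [1]),
      (3, 0, [3])]⟩,
    ⟨[(0, 1)], [(0, 2), (1, 0), (1, 1), (1, 2)], [(0, 2)], [], [(2, 2, [1]), (4, 0, [3])]⟩,
    ⟨[(0, 1), (1, 2)], [(1, 0), (1, 1), (1, 2), (1, 3), (2, 0), (2, 2), (2, 3)], [(0, 0),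
      (0, 3)], [], [(3, 0, [3]), (4, 0, [3]), (5, 3, [0]), (6, 0, [3])]⟩,
    ⟨[(1, 3), (2, 3)], [(2, 0), (3, 0), (3, 3)], [(0, 3)], [4], [(4, 0, [3]), (5, 3, [0])]⟩,
    ⟨[(1, 3), (2, 3), (3, 4)], [(3, 0), (3, 3), (4, 3)], [(0, 3)], [6], [(5, 3, [0]), (6,
      0, [3])]⟩,
    ⟨[(1, 3), (2, 3), (3, 4), (3, 5)], [(1, 0), (3, 0), (3, 3), (5, 0)], [(0, 0)], [5],
      [(3, 0, [3]), (6, 0, [3])]⟩,
    ⟨[(3, 6)], [(0, 1), (1, 0), (1, 1), (3, 0), (6, 0), (6, 1)], [(0, 1)], [5], [(0, 1,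
      [2]), (3, 0, [3])]⟩]
  Ta := [((3, 0), 0, 1), ((4, 1), 0, 4), ((4, 2), 0, 2), ((6, 7), 0, 6), ((6, 8), 0, 5)]
  Tb := [((0, 1, 3), 1, 4, 0), ((0, 1, 8), 1, 4, 5), ((0, 3, 8), 1, 0, 5), ((1, 0, 2), 4, 1, 2),
    ((1, 0, 4), 4, 1, 0), ((1, 0, 5), 4, 1, 3), ((1, 2, 4), 4, 2, 0), ((1, 2, 5), 4, 2, 3),
    ((1, 4, 5), 4, 0, 3), ((2, 1, 4), 2, 4, 0), ((4, 1, 2), 0, 4, 2), ((5, 1, 7), 3, 4, 6),
    ((6, 7, 8), 0, 6, 5), ((7, 5, 6), 6, 3, 0), ((8, 0, 6), 5, 1, 0)]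
  Tc := []
  Td := [((0, 3), (3, 0), 1), ((0, 3), (4, 1), 4), ((0, 3), (4, 2), 2), ((0, 3), (6, 7), 6), ((0,
    3), (6, 8), 5), ((1, 2), (0, 1), 4), ((1, 2), (0, 3), 0), ((1, 2), (0, 8), 5), ((2, 1),
    (2, 1), 4), ((2, 1), (2, 4), 0), ((3, 0), (5, 1), 4), ((3, 0), (5, 7), 6)]
  G := [[0, 0x42a1184c116844861148611a84c, 0, 0x1212c2b24c2118681,
    0x486111241288884a6e84c11e281], [0, 0, 0x1161881c12a4411a1411c12688c,
    0x12181212c241211212a61214a449, 0x4861884a84a62c2141a1241ab184681c126889], [0, 0, 0,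
    0x84c42252c252e19222c641, 0x12284a81ac51288884cc4481cab6881]]

noncomputable def n3554 : Ent := ⟨e3554, noF, [], [], []⟩

def c3554 : PLift (Cov.check n3554.C.D v3554 = true) := ⟨by decide +kernel⟩

def b3554 : PLift (entF (fidx ts) 400 3554 n3554 = true) := ⟨by decide +kernel⟩

theorem g3554 : GoodF (fidx ts) 400 3554 := GoodF.ofV v3554 n3554 c3554.down b3554.down

/-- 46494454:2696/3 -/
noncomputable def e3555 : SCfg where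
  D := {
    a := 8
    L := 9
    kp := 6
    inn := [(0, 1), (1, 0), (1, 2), (1, 3), (2, 1), (2, 3), (3, 1), (3, 2), (3, 4), (3, 5), (3, 6), (4,
      3), (5, 3), (6, 3), (6, 7), (7, 6)]
    mix := [(0, 0), (0, 1), (0, 2), (1, 0), (1, 2), (1, 3), (2, 2), (2, 4), (3, 3), (3, 4), (3, 5), (3,
      6), (4, 4), (4, 5), (4, 7), (5, 1), (5, 5), (5, 6), (6, 3), (6, 6), (6, 8), (7, 0), (7, 3),
      (7, 8)]
    cl := [1, 4, 2, 0, 0, 3, 0, 6, 5]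
    chq := [(0, 3), (1, 2), (2, 1), (3, 0)]
    rng := [(0, 1), (0, 3), (0, 8), (1, 0), (1, 2), (1, 5), (1, 6), (2, 1), (2, 4), (3, 0), (4, 2), (4,
      7), (5, 1), (5, 7), (6, 1), (6, 8), (7, 4), (7, 5), (8, 0), (8, 6)]
    lev := [] }
  links := [[1, 8, 9, 10], [8, 0, 10, 2, 3, 11], [3, 1, 10, 12], [11, 1, 2, 12, 4, 13, 5, 14, 6], [13, 3,
    12, 15], [14, 3, 13, 9], [11, 3, 14, 16, 7], [11, 6, 16, 8]]
  P := {
    a := 8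
    N := 17
    nb := [1794, 3341, 5130, 30838, 45064, 25096, 84104, 67904, 68227, 25889, 4615, 458, 33820, 33336,
      66152, 12304, 16832]
    tri := [(0, 1, 8), (0, 1, 10), (0, 8, 9), (0, 9, 10), (1, 2, 3), (1, 2, 10), (1, 3, 11), (1, 8,
      11), (2, 3, 12), (2, 10, 12), (3, 4, 12), (3, 4, 13), (3, 5, 13), (3, 5, 14), (3, 6, 11),
      (3, 6, 14), (4, 12, 15), (4, 13, 15), (5, 9, 13), (5, 9, 14), (6, 7, 11), (6, 7, 16), (6,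
      14, 16), (7, 8, 11), (7, 8, 16)]
    fin := [0, 0, 0, 3, 3, 5, 0, 0, 0, 5, 10, 3, 3, 13, 3, 15, 16]
    chd := [(0, 10), (3, 13)]
    steps := [(0, 1), (0, 2), (0, 8), (0, 7), (3, 4), (3, 12), (3, 14), (3, 11), (0, 6), (5, 9)] }
  rep := [3, 0, 10, 13, 5, 16, 15]

noncomputable def v3555 : Cov.CovD where
  P := 3
  N := 4
  pl := [1, 7, 8]
  lev := [⟨[], [], [(1, 2)], [4], [(0, 1, [2]), (2, 2, [1])]⟩,
    ⟨[], [(0, 0), (0, 1), (0, 2)], [(0, 1), (0, 2), (1, 2)], [], [(0, 1, [2]), (2, 2, [1]),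
      (3, 0, [3])]⟩,
    ⟨[(0, 1)], [(0, 2), (1, 0), (1, 1), (1, 2)], [(0, 2)], [], [(2, 2, [1]), (4, 0, [3])]⟩,
    ⟨[(0, 1), (1, 2)], [(1, 0), (1, 1), (1, 2), (1, 3), (2, 0), (2, 2), (2, 3)], [(0, 0),
      (0, 3)], [], [(3, 0, [3]), (4, 0, [3]), (5, 3, [0]), (6, 0, [3])]⟩,
    ⟨[(1, 3), (2, 3)], [(2, 0), (3, 0), (3, 3)], [(0, 3)], [6], [(4, 0, [3]), (5, 3, [0])]⟩,
    ⟨[(1, 3), (2, 3), (3, 4)], [(3, 0), (3, 3), (4, 3)], [(0, 3)], [4], [(5, 3, [0]), (6,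
      0, [3])]⟩,
    ⟨[(1, 3), (2, 3), (3, 4), (3, 5)], [(1, 0), (3, 0), (3, 3), (5, 0)], [(0, 0)], [5],
      [(3, 0, [3]), (6, 0, [3])]⟩,
    ⟨[(3, 6)], [(0, 1), (1, 0), (1, 1), (3, 0), (6, 0), (6, 1)], [(0, 1)], [5], [(0, 1,
      [2]), (3, 0, [3])]⟩]
  Ta := [((3, 0), 0, 1), ((4, 2), 0, 2), ((4, 7), 0, 6), ((6, 1), 0, 4), ((6, 8), 0, 5)]
  Tb := [((0, 1, 3), 1, 4, 0), ((0, 1, 8), 1, 4, 5), ((0, 3, 8), 1, 0, 5), ((1, 0, 2), 4, 1, 2),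
    ((1, 0, 5), 4, 1, 3), ((1, 0, 6), 4, 1, 0), ((1, 2, 5), 4, 2, 3), ((1, 2, 6), 4, 2, 0),
    ((1, 5, 6), 4, 3, 0), ((2, 1, 4), 2, 4, 0), ((4, 2, 7), 0, 2, 6), ((5, 1, 7), 3, 4, 6),
    ((6, 1, 8), 0, 4, 5), ((7, 4, 5), 6, 0, 3), ((8, 0, 6), 5, 1, 0)]
  Tc := []
  Td := [((0, 3), (3, 0), 1), ((0, 3), (4, 2), 2), ((0, 3), (4, 7), 6), ((0, 3), (6, 1), 4), ((0,
    3), (6, 8), 5), ((1, 2), (0, 1), 4), ((1, 2), (0, 3), 0), ((1, 2), (0, 8), 5), ((2, 1),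
    (2, 1), 4), ((2, 1), (2, 4), 0), ((3, 0), (5, 1), 4), ((3, 0), (5, 7), 6)]
  G := [[0, 0x42a1184c216484861184a11a84c, 0, 0x122122c21dc221c241,
    0x12441288a41a284a1b84c11e281], [0, 0, 0x81a14424161811c12a4c84c12241a14461161882cc,
    0x12123122642121121a84c1, 0x84a111a81a3124e1281ca84c1a6881], [0, 0, 0,
    0x52818249241488122122681c21a48d, 0x84c212486818a11214a81a4311c212484c2d6889]]

noncomputable def n3555 : Ent := ⟨e3555, noF, [], [], []⟩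

def c3555 : PLift (Cov.check n3555.C.D v3555 = true) := ⟨by decide +kernel⟩

def b3555 : PLift (entF (fidx ts) 400 3555 n3555 = true) := ⟨by decide +kernel⟩

theorem g3555 : GoodF (fidx ts) 400 3555 := GoodF.ofV v3555 n3555 c3555.down b3555.down

/-- 46494454:2696/4 -/
noncomputable def e3556 : SCfg where
  D := {
    a := 8
    L := 9
    kp := 6
    inn := [(0, 1), (1, 0), (1, 2), (1, 3), (2, 1), (2, 3), (3, 1), (3, 2), (3, 4), (3, 5), (3, 6), (4,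
      3), (5, 3), (6, 3), (6, 7), (7, 6)]
    mix := [(0, 0), (0, 1), (0, 2), (1, 0), (1, 2), (1, 3), (2, 2), (2, 4), (3, 3), (3, 4), (3, 5), (3,
      6), (4, 4), (4, 5), (4, 7), (5, 5), (5, 6), (5, 8), (6, 1), (6, 3), (6, 6), (7, 0), (7, 1),
      (7, 3)]
    cl := [1, 4, 2, 0, 0, 3, 0, 5, 6]
    chq := [(0, 3), (1, 2), (2, 1), (3, 0)]
    rng := [(0, 1), (0, 3), (1, 0), (1, 2), (1, 6), (2, 1), (2, 4), (3, 0), (4, 2), (4, 7), (5, 7), (5,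
      8), (6, 1), (6, 8), (7, 4), (7, 5), (8, 5), (8, 6)]
    lev := [] }
  links := [[1, 8, 9, 10], [8, 0, 10, 2, 3, 11], [3, 1, 10, 12], [11, 1, 2, 12, 4, 13, 5, 14, 6], [13, 3,
    12, 15], [14, 3, 13, 16], [11, 3, 14, 9, 7], [11, 6, 9, 8]]
  P := {
    a := 8
    N := 17
    nb := [1794, 3341, 5130, 30838, 45064, 90120, 19080, 2880, 2691, 17857, 4615, 458, 33820, 98360,
      66152, 12304, 24608]
    tri := [(0, 1, 8), (0, 1, 10), (0, 8, 9), (0, 9, 10), (1, 2, 3), (1, 2, 10), (1, 3, 11), (1, 8,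
      11), (2, 3, 12), (2, 10, 12), (3, 4, 12), (3, 4, 13), (3, 5, 13), (3, 5, 14), (3, 6, 11),
      (3, 6, 14), (4, 12, 15), (4, 13, 15), (5, 13, 16), (5, 14, 16), (6, 7, 9), (6, 7, 11), (6,
      9, 14), (7, 8, 9), (7, 8, 11)]
    fin := [0, 0, 0, 3, 3, 3, 0, 0, 0, 9, 10, 3, 3, 13, 3, 15, 16]
    chd := [(0, 10), (3, 13)]
    steps := [(0, 1), (0, 2), (0, 8), (0, 7), (3, 4), (3, 5), (3, 12), (3, 14), (3, 11), (0, 6)] }
  rep := [3, 0, 10, 13, 9, 15, 16]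

noncomputable def v3556 : Cov.CovD where
  P := 3
  N := 4
  pl := [1, 7, 8]
  lev := [⟨[], [], [(1, 2)], [4], [(0, 1, [2]), (2, 2, [1])]⟩,
    ⟨[], [(0, 0), (0, 1), (0, 2)], [(0, 1), (0, 2), (1, 2)], [], [(0, 1, [2]), (2, 2, [1]),
      (3, 0, [3])]⟩,
    ⟨[(0, 1)], [(0, 2), (1, 0), (1, 1), (1, 2)], [(0, 2)], [], [(2, 2, [1]), (4, 0, [3])]⟩,
    ⟨[(0, 1), (1, 2)], [(1, 0), (1, 1), (1, 2), (1, 3), (2, 0), (2, 2), (2, 3)], [(0, 0),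
      (0, 3)], [], [(3, 0, [3]), (4, 0, [3]), (5, 3, [0]), (6, 0, [3])]⟩,
    ⟨[(1, 3), (2, 3)], [(2, 0), (3, 0), (3, 3)], [(0, 3)], [5], [(4, 0, [3]), (5, 3, [0])]⟩,
    ⟨[(1, 3), (2, 3), (3, 4)], [(3, 0), (3, 3), (4, 3)], [(0, 3)], [6], [(5, 3, [0]), (6,
      0, [3])]⟩,
    ⟨[(1, 3), (2, 3), (3, 4), (3, 5)], [(1, 0), (3, 0), (3, 3), (5, 0)], [(0, 0)], [4],
      [(3, 0, [3]), (6, 0, [3])]⟩,
    ⟨[(3, 6)], [(0, 1), (1, 0), (1, 1), (3, 0), (6, 0), (6, 1)], [(0, 1)], [4], [(0, 1,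
      [2]), (3, 0, [3])]⟩]
  Ta := [((3, 0), 0, 1), ((4, 2), 0, 2), ((4, 7), 0, 5), ((6, 1), 0, 4), ((6, 8), 0, 6)]
  Tb := [((0, 1, 3), 1, 4, 0), ((1, 0, 2), 4, 1, 2), ((1, 0, 6), 4, 1, 0), ((1, 2, 6), 4, 2, 0),
    ((2, 1, 4), 2, 4, 0), ((4, 2, 7), 0, 2, 5), ((5, 7, 8), 3, 5, 6), ((6, 1, 8), 0, 4, 6),
    ((7, 4, 5), 5, 0, 3), ((8, 5, 6), 6, 3, 0)]
  Tc := []
  Td := [((0, 3), (3, 0), 1), ((0, 3), (4, 2), 2), ((0, 3), (4, 7), 5), ((0, 3), (6, 1), 4), ((0,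
    3), (6, 8), 6), ((1, 2), (0, 1), 4), ((1, 2), (0, 3), 0), ((2, 1), (2, 1), 4), ((2, 1),
    (2, 4), 0), ((3, 0), (5, 7), 5), ((3, 0), (5, 8), 6)]
  G := [[0, 0x8811821168444114211a84c, 0, 0x12126c2151212cc219a481,
    0x4861184a284a84a6684c44e281], [0, 0, 0x88144212188812a4c4214141268441882cc,
    0x121291212664812123121a82c1, 0x41a11a914a11a3c11c116381c11c9a6881], [0, 0, 0,
    0x24246124282c18a41212a1221212c71282818a96885,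
    0x8821244814841ca184a81212c91214a161864116268989]]

noncomputable def n3556 : Ent := ⟨e3556, noF, [], [], []⟩

def c3556 : PLift (Cov.check n3556.C.D v3556 = true) := ⟨by decide +kernel⟩

def b3556 : PLift (entF (fidx ts) 400 3556 n3556 = true) := ⟨by decide +kernel⟩

theorem g3556 : GoodF (fidx ts) 400 3556 := GoodF.ofV v3556 n3556 c3556.down b3556.down

/-- 46494454:2696/1 -/
noncomputable def e3557 : SCfg where
  D := {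
    a := 8
    L := 10
    kp := 7
    inn := [(0, 1), (1, 0), (1, 2), (1, 3), (2, 1), (2, 3), (3, 1), (3, 2), (3, 4), (3, 5), (3, 6), (4,
      3), (5, 3), (6, 3), (6, 7), (7, 6)]
    mix := [(0, 0), (0, 1), (0, 2), (1, 0), (1, 2), (1, 3), (2, 2), (2, 4), (3, 3), (3, 4), (3, 5), (3,
      6), (4, 4), (4, 5), (4, 7), (5, 5), (5, 6), (5, 8), (6, 3), (6, 6), (6, 9), (7, 0), (7, 3),
      (7, 9)]
    cl := [1, 5, 2, 0, 0, 3, 0, 6, 7, 4]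
    chq := [(0, 3), (1, 2), (2, 1), (3, 0)]
    rng := [(0, 1), (0, 3), (0, 9), (1, 0), (1, 2), (2, 1), (2, 4), (3, 0), (4, 2), (4, 7), (5, 7), (5,
      8), (6, 8), (6, 9), (7, 4), (7, 5), (8, 5), (8, 6), (9, 0), (9, 6)]
    lev := [] }
  links := [[1, 8, 9, 10], [8, 0, 10, 2, 3, 11], [3, 1, 10, 12], [11, 1, 2, 12, 4, 13, 5, 14, 6], [13, 3,
    12, 15], [14, 3, 13, 16], [11, 3, 14, 17, 7], [11, 6, 17, 8]]
  P := {
    a := 8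
    N := 18
    nb := [1794, 3341, 5130, 30838, 45064, 90120, 149640, 133440, 133763, 1281, 4615, 458, 33820,
      98360, 196712, 12304, 24608, 16832]
    tri := [(0, 1, 8), (0, 1, 10), (0, 8, 9), (0, 9, 10), (1, 2, 3), (1, 2, 10), (1, 3, 11), (1, 8,
      11), (2, 3, 12), (2, 10, 12), (3, 4, 12), (3, 4, 13), (3, 5, 13), (3, 5, 14), (3, 6, 11),
      (3, 6, 14), (4, 12, 15), (4, 13, 15), (5, 13, 16), (5, 14, 16), (6, 7, 11), (6, 7, 17), (6,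
      14, 17), (7, 8, 11), (7, 8, 17)]
    fin := [0, 0, 0, 3, 3, 3, 0, 0, 0, 9, 10, 3, 3, 13, 3, 15, 16, 17]
    chd := [(0, 10), (3, 13)]
    steps := [(0, 1), (0, 2), (0, 8), (0, 7), (3, 4), (3, 5), (3, 12), (3, 14), (3, 11), (0, 6)] }
  rep := [3, 0, 10, 13, 17, 9, 15, 16]

noncomputable def v3557 : Cov.CovD where
  P := 3
  N := 5
  pl := [1, 7, 8, 9]
  lev := [⟨[], [], [(1, 2)], [5], [(0, 1, [2]), (2, 2, [1])]⟩,
    ⟨[], [(0, 0), (0, 1), (0, 2)], [(0, 1), (0, 2), (1, 2)], [], [(0, 1, [2]), (2, 2, [1]),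
      (3, 0, [3])]⟩,
    ⟨[(0, 1)], [(0, 2), (1, 0), (1, 1), (1, 2)], [(0, 2)], [], [(2, 2, [1]), (4, 0, [3])]⟩,
    ⟨[(0, 1), (1, 2)], [(1, 0), (1, 1), (1, 2), (1, 3), (2, 0), (2, 2), (2, 3)], [(0, 0),
      (0, 3)], [], [(3, 0, [3]), (4, 0, [3]), (5, 3, [0]), (6, 0, [3])]⟩,
    ⟨[(1, 3), (2, 3)], [(2, 0), (3, 0), (3, 3)], [(0, 3)], [6], [(4, 0, [3]), (5, 3, [0])]⟩,
    ⟨[(1, 3), (2, 3), (3, 4)], [(3, 0), (3, 3), (4, 3)], [(0, 3)], [7], [(5, 3, [0]), (6,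
      0, [3])]⟩,
    ⟨[(1, 3), (2, 3), (3, 4), (3, 5)], [(1, 0), (3, 0), (3, 3), (5, 0)], [(0, 0)], [4],
      [(3, 0, [3]), (6, 0, [3])]⟩,
    ⟨[(3, 6)], [(0, 1), (1, 0), (1, 1), (3, 0), (6, 0), (6, 1)], [(0, 1)], [4], [(0, 1,
      [2]), (3, 0, [3])]⟩]
  Ta := [((3, 0), 0, 1), ((4, 2), 0, 2), ((4, 7), 0, 6), ((6, 8), 0, 7), ((6, 9), 0, 4)]
  Tb := [((0, 1, 3), 1, 5, 0), ((0, 1, 9), 1, 5, 4), ((0, 3, 9), 1, 0, 4), ((1, 0, 2), 5, 1, 2),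
    ((2, 1, 4), 2, 5, 0), ((4, 2, 7), 0, 2, 6), ((5, 7, 8), 3, 6, 7), ((6, 8, 9), 0, 7, 4),
    ((7, 4, 5), 6, 0, 3), ((8, 5, 6), 7, 3, 0), ((9, 0, 6), 4, 1, 0)]
  Tc := []
  Td := [((0, 3), (3, 0), 1), ((0, 3), (4, 2), 2), ((0, 3), (4, 7), 6), ((0, 3), (6, 8), 7), ((0,
    3), (6, 9), 4), ((1, 2), (0, 1), 5), ((1, 2), (0, 3), 0), ((1, 2), (0, 9), 4), ((2, 1),
    (2, 1), 5), ((2, 1), (2, 4), 0), ((3, 0), (5, 7), 6), ((3, 0), (5, 8), 7)]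
  G := [[0, 0x82a1184a116488261184a11a84c, 0, 0x1212cc2192841212ac2158241212ac213448d,
    0x84a481a8816284a1f84c1162844126121464861718884a19c289], [0, 0,
    0x81c12241a14461161884c14a1484c12684161882cc,
    0x121121648121251281212ae82c121212b12126648121121a84c5,
    0x84a1484c84c52648648634868c8a111c11211a3c14c84ca181414cda6889], [0, 0, 0,
    0x1212a9245421212ac28324c21a4c128122124524f84c2168c281829c,
    0x84c84c684c84cc84c272486486c18a181c8812e84a81aa81a4d81c84ca16889]]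

noncomputable def n3557 : Ent := ⟨e3557, noF, [], [], [(9, 15, [7334790850167413569773436004105379185503274260204390087403942019211265, 0]), (9, 16, [7334685537875745012586738086077695515070955365108989538292687708237825, 0]), (9, 17, [6903326391201334775872065844685381424292761054348340378595029944254465, 0])]⟩

def c3557 : PLift (Cov.check n3557.C.D v3557 = true) := ⟨by decide +kernel⟩

def b3557 : PLift (entF (fidx ts) 400 3557 n3557 = true) := ⟨by decide +kernel⟩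

theorem g3557 : GoodF (fidx ts) 400 3557 := GoodF.ofV v3557 n3557 c3557.down b3557.down

/-- 46494454:2696/5 -/
noncomputable def e3558 : SCfg where
  D := {
    a := 8
    L := 10
    kp := 7
    inn := [(0, 1), (1, 0), (1, 2), (1, 3), (2, 1), (2, 3), (3, 1), (3, 2), (3, 4), (3, 5), (3, 6), (4,
      3), (5, 3), (6, 3), (6, 7), (7, 6)]
    mix := [(0, 0), (0, 1), (0, 2), (1, 0), (1, 2), (1, 3), (2, 2), (2, 4), (3, 3), (3, 4), (3, 5), (3,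
      6), (4, 1), (4, 4), (4, 5), (5, 5), (5, 6), (5, 7), (6, 3), (6, 6), (6, 8), (7, 3), (7, 8),
      (7, 9)]
    cl := [4, 2, 1, 0, 0, 3, 0, 6, 5, 7]
    chq := [(0, 3), (1, 4), (3, 0), (4, 1)]
    rng := [(0, 1), (0, 3), (1, 0), (1, 2), (1, 4), (1, 5), (2, 1), (2, 4), (3, 0), (3, 9), (4, 1), (4,
      2), (5, 1), (5, 7), (6, 7), (6, 8), (7, 5), (7, 6), (8, 6), (8, 9), (9, 3), (9, 8)]
    lev := [] }
  links := [[1, 8, 9, 10], [8, 0, 10, 2, 3, 11], [3, 1, 10, 12], [11, 1, 2, 12, 4, 13, 5, 14, 6], [13, 3,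
    12, 9], [14, 3, 13, 15], [11, 3, 14, 16, 7], [11, 6, 16, 17]]
  P := {
    a := 8
    N := 18
    nb := [1794, 3341, 5130, 30838, 12808, 57352, 84104, 198720, 2563, 13585, 4615, 131530, 1564,
      33336, 98408, 24608, 147648, 67712]
    tri := [(0, 1, 8), (0, 1, 10), (0, 8, 9), (0, 9, 10), (1, 2, 3), (1, 2, 10), (1, 3, 11), (1, 8,
      11), (2, 3, 12), (2, 10, 12), (3, 4, 12), (3, 4, 13), (3, 5, 13), (3, 5, 14), (3, 6, 11),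
      (3, 6, 14), (4, 9, 12), (4, 9, 13), (5, 13, 15), (5, 14, 15), (6, 7, 11), (6, 7, 16), (6,
      14, 16), (7, 11, 17), (7, 16, 17)]
    fin := [0, 0, 0, 3, 4, 3, 3, 3, 0, 4, 10, 3, 3, 13, 3, 15, 16, 17]
    chd := [(0, 10), (3, 13)]
    steps := [(0, 1), (0, 2), (0, 8), (3, 5), (3, 6), (3, 7), (3, 12), (3, 14), (3, 11), (4, 9)] }
  rep := [3, 10, 4, 13, 0, 16, 15, 17]

noncomputable def v3558 : Cov.CovD where
  P := 3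
  N := 5
  pl := [1, 7, 8, 9]
  lev := [⟨[], [], [(1, 4)], [2], [(0, 4, [1]), (2, 1, [4])]⟩,
    ⟨[], [(0, 0), (0, 1), (0, 4)], [(0, 1), (0, 4), (1, 4)], [], [(0, 4, [1]), (2, 1, [4]),
      (3, 0, [3])]⟩,
    ⟨[(0, 1)], [(0, 1), (1, 0), (1, 1), (1, 4)], [(0, 1)], [], [(2, 1, [4]), (4, 0, [3])]⟩,
    ⟨[(0, 1), (1, 2)], [(1, 0), (1, 1), (1, 3), (1, 4), (2, 0), (2, 1), (2, 3)], [(0, 0),
      (0, 3)], [], [(3, 0, [3]), (4, 0, [3]), (5, 3, [0]), (6, 0, [3])]⟩,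
    ⟨[(1, 3), (2, 3)], [(2, 0), (3, 0), (3, 3)], [(0, 3)], [2], [(4, 0, [3]), (5, 3, [0])]⟩,
    ⟨[(1, 3), (2, 3), (3, 4)], [(3, 0), (3, 3), (4, 3)], [(0, 3)], [6], [(5, 3, [0]), (6,
      0, [3])]⟩,
    ⟨[(1, 3), (2, 3), (3, 4), (3, 5)], [(1, 0), (3, 0), (3, 3), (5, 0)], [(0, 0)], [5],
      [(3, 0, [3]), (6, 0, [3])]⟩,
    ⟨[(3, 6)], [(1, 0), (3, 0), (6, 0)], [], [5, 7], [(3, 0, [3])]⟩]
  Ta := [((3, 0), 0, 4), ((3, 9), 0, 7), ((4, 1), 0, 2), ((4, 2), 0, 1), ((6, 7), 0, 6), ((6, 8),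
    0, 5)]
  Tb := [((0, 1, 3), 4, 2, 0), ((1, 0, 2), 2, 4, 1), ((1, 0, 4), 2, 4, 0), ((1, 0, 5), 2, 4, 3),
    ((1, 2, 4), 2, 1, 0), ((1, 2, 5), 2, 1, 3), ((1, 4, 5), 2, 0, 3), ((2, 1, 4), 1, 2, 0),
    ((3, 0, 9), 0, 4, 7), ((4, 1, 2), 0, 2, 1), ((5, 1, 7), 3, 2, 6), ((6, 7, 8), 0, 6, 5),
    ((7, 5, 6), 6, 3, 0), ((8, 6, 9), 5, 0, 7), ((9, 3, 8), 7, 0, 5)]
  Tc := []
  Td := [((0, 3), (3, 0), 4), ((0, 3), (3, 9), 7), ((0, 3), (4, 1), 2), ((0, 3), (4, 2), 1), ((0,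
    3), (6, 7), 6), ((0, 3), (6, 8), 5), ((1, 4), (2, 1), 2), ((1, 4), (2, 4), 0), ((3, 0),
    (5, 1), 2), ((3, 0), (5, 7), 6), ((4, 1), (0, 1), 2), ((4, 1), (0, 3), 0)]
  G := [[0, 0, 0, 0x11a16c6a6c19248c1611c6a6c15284c, 0xc6a1111c11ca6cd2648c6a224ca611a6c42ac49],
    [0, 0x11a1411c186281161811a14c22c, 0x11a1811c126481161411c12a84c,
    0x11a11ca11c1c24811c11ca11c1c284c, 0x11a11ac11c1a4811a2241161811c42acc1], [0, 0, 0,
    0xc1a835c4a1c2d28c168c16416c2d24c1, 0x1bc8a1c2c6a4b4853a2216c426c1641a6c16a98cc1]]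

noncomputable def n3558 : Ent := ⟨e3558, noF, [], [], [(8, 17, [6903326391201334775872065844685381424292761054348340378595029944246273, 0])]⟩

def c3558 : PLift (Cov.check n3558.C.D v3558 = true) := ⟨by decide +kernel⟩

def b3558 : PLift (entF (fidx ts) 400 3558 n3558 = true) := ⟨by decide +kernel⟩

theorem g3558 : GoodF (fidx ts) 400 3558 := GoodF.ofV v3558 n3558 c3558.down b3558.down

/-- 46494454:2696/6 -/
noncomputable def e3559 : SCfg where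
  D := {
    a := 8
    L := 10
    kp := 7
    inn := [(0, 1), (1, 0), (1, 2), (1, 3), (2, 1), (2, 3), (3, 1), (3, 2), (3, 4), (3, 5), (3, 6), (4,
      3), (5, 3), (6, 3), (6, 7), (7, 6)]
    mix := [(0, 0), (0, 1), (0, 2), (1, 0), (1, 2), (1, 3), (2, 2), (2, 4), (3, 3), (3, 4), (3, 5), (3,
      6), (4, 4), (4, 5), (4, 7), (5, 1), (5, 5), (5, 6), (6, 3), (6, 6), (6, 8), (7, 3), (7, 8),
      (7, 9)]
    cl := [1, 2, 3, 0, 0, 4, 0, 6, 5, 7]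
    chq := [(0, 4), (1, 3), (3, 1), (4, 0)]
    rng := [(0, 1), (0, 3), (1, 0), (1, 2), (1, 5), (1, 6), (2, 1), (2, 4), (3, 0), (3, 9), (4, 2), (4,
      7), (5, 1), (5, 7), (6, 1), (6, 8), (7, 4), (7, 5), (8, 6), (8, 9), (9, 3), (9, 8)]
    lev := [] }
  links := [[1, 8, 9, 10], [8, 0, 10, 2, 3, 11], [3, 1, 10, 12], [11, 1, 2, 12, 4, 13, 5, 14, 6], [13, 3,
    12, 15], [14, 3, 13, 9], [11, 3, 14, 16, 7], [11, 6, 16, 17]]
  P := {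
    a := 8
    N := 18
    nb := [1794, 3341, 5130, 30838, 45064, 25096, 84104, 198720, 2563, 25889, 4615, 131530, 33820,
      33336, 66152, 12304, 147648, 67712]
    tri := [(0, 1, 8), (0, 1, 10), (0, 8, 9), (0, 9, 10), (1, 2, 3), (1, 2, 10), (1, 3, 11), (1, 8,
      11), (2, 3, 12), (2, 10, 12), (3, 4, 12), (3, 4, 13), (3, 5, 13), (3, 5, 14), (3, 6, 11),
      (3, 6, 14), (4, 12, 15), (4, 13, 15), (5, 9, 13), (5, 9, 14), (6, 7, 11), (6, 7, 16), (6,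
      14, 16), (7, 11, 17), (7, 16, 17)]
    fin := [0, 0, 0, 3, 3, 5, 3, 3, 0, 5, 10, 3, 3, 13, 3, 15, 16, 17]
    chd := [(0, 10), (3, 13)]
    steps := [(0, 1), (0, 2), (0, 8), (3, 4), (3, 6), (3, 7), (3, 12), (3, 14), (3, 11), (5, 9)] }
  rep := [3, 0, 5, 10, 13, 16, 15, 17]

noncomputable def v3559 : Cov.CovD where
  P := 3
  N := 5
  pl := [1, 7, 8, 9]
  lev := [⟨[], [], [(1, 3)], [2], [(0, 1, [3]), (2, 3, [1])]⟩,
    ⟨[], [(0, 0), (0, 1), (0, 3)], [(0, 1), (0, 3), (1, 3)], [], [(0, 1, [3]), (2, 3, [1]),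
      (3, 0, [4])]⟩,
    ⟨[(0, 1)], [(0, 3), (1, 0), (1, 1), (1, 3)], [(0, 3)], [], [(2, 3, [1]), (4, 0, [4])]⟩,
    ⟨[(0, 1), (1, 2)], [(1, 0), (1, 1), (1, 3), (1, 4), (2, 0), (2, 3), (2, 4)], [(0, 0),
      (0, 4)], [], [(3, 0, [4]), (4, 0, [4]), (5, 4, [0]), (6, 0, [4])]⟩,
    ⟨[(1, 3), (2, 3)], [(2, 0), (3, 0), (3, 4)], [(0, 4)], [6], [(4, 0, [4]), (5, 4, [0])]⟩,
    ⟨[(1, 3), (2, 3), (3, 4)], [(3, 0), (3, 4), (4, 4)], [(0, 4)], [2], [(5, 4, [0]), (6,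
      0, [4])]⟩,
    ⟨[(1, 3), (2, 3), (3, 4), (3, 5)], [(1, 0), (3, 0), (3, 4), (5, 0)], [(0, 0)], [5],
      [(3, 0, [4]), (6, 0, [4])]⟩,
    ⟨[(3, 6)], [(1, 0), (3, 0), (6, 0)], [], [5, 7], [(3, 0, [4])]⟩]
  Ta := [((3, 0), 0, 1), ((3, 9), 0, 7), ((4, 2), 0, 3), ((4, 7), 0, 6), ((6, 1), 0, 2), ((6, 8),
    0, 5)]
  Tb := [((0, 1, 3), 1, 2, 0), ((1, 0, 2), 2, 1, 3), ((1, 0, 5), 2, 1, 4), ((1, 0, 6), 2, 1, 0),
    ((1, 2, 5), 2, 3, 4), ((1, 2, 6), 2, 3, 0), ((1, 5, 6), 2, 4, 0), ((2, 1, 4), 3, 2, 0),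
    ((3, 0, 9), 0, 1, 7), ((4, 2, 7), 0, 3, 6), ((5, 1, 7), 4, 2, 6), ((6, 1, 8), 0, 2, 5),
    ((7, 4, 5), 6, 0, 4), ((8, 6, 9), 5, 0, 7), ((9, 3, 8), 7, 0, 5)]
  Tc := []
  Td := [((0, 4), (3, 0), 1), ((0, 4), (3, 9), 7), ((0, 4), (4, 2), 3), ((0, 4), (4, 7), 6), ((0,
    4), (6, 1), 2), ((0, 4), (6, 8), 5), ((1, 3), (0, 1), 2), ((1, 3), (0, 3), 0), ((3, 1),
    (2, 1), 2), ((3, 1), (2, 4), 0), ((4, 0), (5, 1), 2), ((4, 0), (5, 7), 6)]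
  G := [[0, 0xc6a1c6a1ca6c1a6c1a618ca611a6c11a24c, 0, 0x16c811c4a6c1d2211c811c4a6c1d22c1,
    0x11a811a2c6a1742142182ca68b128a6c15a4c1], [0, 0, 0,
    0x11a4211c811c4c6281168282411c822811a811a411c1e24cd,
    0x11c122116811a111a2e11c8866811611168c11c211c11c96a449], [0, 0,
    0x11a4111c816281168111c41a24c, 0xc1a42a1c4a6c856281a68216c893c49a24c,
    0x16a893a8124e2d4811681a68516c21a11a2245c1]]

noncomputable def n3559 : Ent := ⟨e3559, noF, [], [], [(8, 17, [6903326391201334775872065844685381424292761054348340378595029944250369, 0])]⟩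

def c3559 : PLift (Cov.check n3559.C.D v3559 = true) := ⟨by decide +kernel⟩

def b3559 : PLift (entF (fidx ts) 400 3559 n3559 = true) := ⟨by decide +kernel⟩

theorem g3559 : GoodF (fidx ts) 400 3559 := GoodF.ofV v3559 n3559 c3559.down b3559.down

/-- 46494454:2696/7 -/
noncomputable def e3560 : SCfg where
  D := {
    a := 8
    L := 10
    kp := 7
    inn := [(0, 1), (1, 0), (1, 2), (1, 3), (2, 1), (2, 3), (3, 1), (3, 2), (3, 4), (3, 5), (3, 6), (4,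
      3), (5, 3), (6, 3), (6, 7), (7, 6)]
    mix := [(0, 0), (0, 1), (0, 2), (1, 0), (1, 2), (1, 3), (2, 2), (2, 4), (3, 3), (3, 4), (3, 5), (3,
      6), (4, 4), (4, 5), (4, 7), (5, 5), (5, 6), (5, 8), (6, 1), (6, 3), (6, 6), (7, 1), (7, 3),
      (7, 9)]
    cl := [2, 4, 1, 0, 0, 3, 0, 5, 6, 7]
    chq := [(0, 3), (1, 2), (2, 1), (3, 0)]
    rng := [(0, 1), (0, 3), (1, 0), (1, 2), (1, 6), (1, 9), (2, 1), (2, 4), (3, 0), (3, 9), (4, 2), (4,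
      7), (5, 7), (5, 8), (6, 1), (6, 8), (7, 4), (7, 5), (8, 5), (8, 6), (9, 1), (9, 3)]
    lev := [] }
  links := [[1, 8, 9, 10], [8, 0, 10, 2, 3, 11], [3, 1, 10, 12], [11, 1, 2, 12, 4, 13, 5, 14, 6], [13, 3,
    12, 15], [14, 3, 13, 16], [11, 3, 14, 9, 7], [11, 6, 9, 17]]
  P := {
    a := 8
    N := 18
    nb := [1794, 3341, 5130, 30838, 45064, 90120, 19080, 133696, 2563, 148929, 4615, 131530, 33820,
      98360, 66152, 12304, 24608, 2688]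
    tri := [(0, 1, 8), (0, 1, 10), (0, 8, 9), (0, 9, 10), (1, 2, 3), (1, 2, 10), (1, 3, 11), (1, 8,
      11), (2, 3, 12), (2, 10, 12), (3, 4, 12), (3, 4, 13), (3, 5, 13), (3, 5, 14), (3, 6, 11),
      (3, 6, 14), (4, 12, 15), (4, 13, 15), (5, 13, 16), (5, 14, 16), (6, 7, 9), (6, 7, 11), (6,
      9, 14), (7, 9, 17), (7, 11, 17)]
    fin := [0, 0, 0, 3, 3, 3, 6, 6, 0, 6, 10, 3, 3, 13, 3, 15, 16, 17]
    chd := [(0, 10), (3, 13)]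
    steps := [(0, 1), (0, 2), (0, 8), (3, 4), (3, 5), (3, 12), (3, 14), (3, 11), (6, 7), (6, 9)] }
  rep := [3, 10, 0, 13, 6, 15, 16, 17]

noncomputable def v3560 : Cov.CovD where
  P := 3
  N := 5
  pl := [1, 7, 8, 9]
  lev := [⟨[], [], [(1, 2)], [4], [(0, 2, [1]), (2, 1, [2])]⟩,
    ⟨[], [(0, 0), (0, 1), (0, 2)], [(0, 1), (0, 2), (1, 2)], [], [(0, 2, [1]), (2, 1, [2]),
      (3, 0, [3])]⟩,
    ⟨[(0, 1)], [(0, 1), (1, 0), (1, 1), (1, 2)], [(0, 1)], [], [(2, 1, [2]), (4, 0, [3])]⟩,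
    ⟨[(0, 1), (1, 2)], [(1, 0), (1, 1), (1, 2), (1, 3), (2, 0), (2, 1), (2, 3)], [(0, 0),
      (0, 3)], [], [(3, 0, [3]), (4, 0, [3]), (5, 3, [0]), (6, 0, [3])]⟩,
    ⟨[(1, 3), (2, 3)], [(2, 0), (3, 0), (3, 3)], [(0, 3)], [5], [(4, 0, [3]), (5, 3, [0])]⟩,
    ⟨[(1, 3), (2, 3), (3, 4)], [(3, 0), (3, 3), (4, 3)], [(0, 3)], [6], [(5, 3, [0]), (6,
      0, [3])]⟩,
    ⟨[(1, 3), (2, 3), (3, 4), (3, 5)], [(1, 0), (3, 0), (3, 3), (5, 0)], [(0, 0)], [4],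
      [(3, 0, [3]), (6, 0, [3])]⟩,
    ⟨[(3, 6)], [(1, 0), (3, 0), (6, 0)], [], [4, 7], [(3, 0, [3])]⟩]
  Ta := [((3, 0), 0, 2), ((3, 9), 0, 7), ((4, 2), 0, 1), ((4, 7), 0, 5), ((6, 1), 0, 4), ((6, 8),
    0, 6)]
  Tb := [((0, 1, 3), 2, 4, 0), ((1, 0, 2), 4, 2, 1), ((1, 0, 6), 4, 2, 0), ((1, 0, 9), 4, 2, 7),
    ((1, 2, 6), 4, 1, 0), ((1, 2, 9), 4, 1, 7), ((1, 6, 9), 4, 0, 7), ((2, 1, 4), 1, 4, 0),
    ((3, 0, 9), 0, 2, 7), ((4, 2, 7), 0, 1, 5), ((5, 7, 8), 3, 5, 6), ((6, 1, 8), 0, 4, 6),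
    ((7, 4, 5), 5, 0, 3), ((8, 5, 6), 6, 3, 0), ((9, 1, 3), 7, 4, 0)]
  Tc := []
  Td := [((0, 3), (3, 0), 2), ((0, 3), (3, 9), 7), ((0, 3), (4, 2), 1), ((0, 3), (4, 7), 5), ((0,
    3), (6, 1), 4), ((0, 3), (6, 8), 6), ((1, 2), (2, 1), 4), ((1, 2), (2, 4), 0), ((2, 1),
    (0, 1), 4), ((2, 1), (0, 3), 0), ((3, 0), (5, 7), 5), ((3, 0), (5, 8), 6)]
  G := [[0, 0, 0xa21128a11a44e411e411a84c, 0x122124e217128e219c281,
    0x16a811a2c6a1b1164a6c156481], [0, 0x18144212181812a4c1214421412214188acc, 0,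
    0x1211212664812123124121e82c1, 0x11611ac181211abc11611411c5a6881], [0, 0, 0,
    0xa464612c268c18a41212614212126128122128f84c5,
    0x188c4a86324c4c4c18491212c1412414261418a1214a9ac89]]

noncomputable def n3560 : Ent := ⟨e3560, noF, [], [], [(8, 17, [6903326391201334775872065844685381424292761054348340378595029944254465, 0])]⟩

def c3560 : PLift (Cov.check n3560.C.D v3560 = true) := ⟨by decide +kernel⟩

def b3560 : PLift (entF (fidx ts) 400 3560 n3560 = true) := ⟨by decide +kernel⟩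

theorem g3560 : GoodF (fidx ts) 400 3560 := GoodF.ofV v3560 n3560 c3560.down b3560.down

/-- 46494454:2696 -/
noncomputable def e3561 : SCfg where
  D := {
    a := 8
    L := 11
    kp := 8
    inn := [(0, 1), (1, 0), (1, 2), (1, 3), (2, 1), (2, 3), (3, 1), (3, 2), (3, 4), (3, 5), (3, 6), (4,
      3), (5, 3), (6, 3), (6, 7), (7, 6)]
    mix := [(0, 0), (0, 1), (0, 2), (1, 0), (1, 2), (1, 3), (2, 2), (2, 4), (3, 3), (3, 4), (3, 5), (3,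
      6), (4, 4), (4, 5), (4, 7), (5, 5), (5, 6), (5, 8), (6, 3), (6, 6), (6, 9), (7, 3), (7, 9),
      (7, 10)]
    cl := [2, 5, 1, 0, 0, 3, 0, 6, 7, 4, 8]
    chq := [(0, 3), (1, 2), (2, 1), (3, 0)]
    rng := [(0, 1), (0, 3), (1, 0), (1, 2), (2, 1), (2, 4), (3, 0), (3, 10), (4, 2), (4, 7), (5, 7),
      (5, 8), (6, 8), (6, 9), (7, 4), (7, 5), (8, 5), (8, 6), (9, 6), (9, 10), (10, 3), (10, 9)]
    lev := [] }
  links := [[1, 8, 9, 10], [8, 0, 10, 2, 3, 11], [3, 1, 10, 12], [11, 1, 2, 12, 4, 13, 5, 14, 6], [13, 3,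
    12, 15], [14, 3, 13, 16], [11, 3, 14, 17, 7], [11, 6, 17, 18]]
  P := {
    a := 8
    N := 19
    nb := [1794, 3341, 5130, 30838, 45064, 90120, 149640, 395328, 2563, 1281, 4615, 262602, 33820,
      98360, 196712, 12304, 24608, 278720, 133248]
    tri := [(0, 1, 8), (0, 1, 10), (0, 8, 9), (0, 9, 10), (1, 2, 3), (1, 2, 10), (1, 3, 11), (1, 8,
      11), (2, 3, 12), (2, 10, 12), (3, 4, 12), (3, 4, 13), (3, 5, 13), (3, 5, 14), (3, 6, 11),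
      (3, 6, 14), (4, 12, 15), (4, 13, 15), (5, 13, 16), (5, 14, 16), (6, 7, 11), (6, 7, 17), (6,
      14, 17), (7, 11, 18), (7, 17, 18)]
    fin := [0, 0, 0, 3, 3, 3, 3, 3, 0, 9, 10, 3, 3, 13, 3, 15, 16, 17, 18]
    chd := [(0, 10), (3, 13)]
    steps := [(0, 1), (0, 2), (0, 8), (3, 4), (3, 5), (3, 6), (3, 7), (3, 12), (3, 14), (3, 11)] }
  rep := [3, 10, 0, 13, 17, 9, 15, 16, 18]

noncomputable def v3561 : Cov.CovD where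
  P := 3
  N := 6
  pl := [1, 7, 8, 9, 10]
  lev := [⟨[], [], [(1, 2)], [5], [(0, 2, [1]), (2, 1, [2])]⟩,
    ⟨[], [(0, 0), (0, 1), (0, 2)], [(0, 1), (0, 2), (1, 2)], [], [(0, 2, [1]), (2, 1, [2]),
      (3, 0, [3])]⟩,
    ⟨[(0, 1)], [(0, 1), (1, 0), (1, 1), (1, 2)], [(0, 1)], [], [(2, 1, [2]), (4, 0, [3])]⟩,
    ⟨[(0, 1), (1, 2)], [(1, 0), (1, 1), (1, 2), (1, 3), (2, 0), (2, 1), (2, 3)], [(0, 0),
      (0, 3)], [], [(3, 0, [3]), (4, 0, [3]), (5, 3, [0]), (6, 0, [3])]⟩,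
    ⟨[(1, 3), (2, 3)], [(2, 0), (3, 0), (3, 3)], [(0, 3)], [6], [(4, 0, [3]), (5, 3, [0])]⟩,
    ⟨[(1, 3), (2, 3), (3, 4)], [(3, 0), (3, 3), (4, 3)], [(0, 3)], [7], [(5, 3, [0]), (6,
      0, [3])]⟩,
    ⟨[(1, 3), (2, 3), (3, 4), (3, 5)], [(1, 0), (3, 0), (3, 3), (5, 0)], [(0, 0)], [4],
      [(3, 0, [3]), (6, 0, [3])]⟩,
    ⟨[(3, 6)], [(1, 0), (3, 0), (6, 0)], [], [4, 8], [(3, 0, [3])]⟩]
  Ta := [((3, 0), 0, 2), ((3, 10), 0, 8), ((4, 2), 0, 1), ((4, 7), 0, 6), ((6, 8), 0, 7), ((6,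
    9), 0, 4)]
  Tb := [((0, 1, 3), 2, 5, 0), ((1, 0, 2), 5, 2, 1), ((2, 1, 4), 1, 5, 0), ((3, 0, 10), 0, 2, 8),
    ((4, 2, 7), 0, 1, 6), ((5, 7, 8), 3, 6, 7), ((6, 8, 9), 0, 7, 4), ((7, 4, 5), 6, 0, 3),
    ((8, 5, 6), 7, 3, 0), ((9, 6, 10), 4, 0, 8), ((10, 3, 9), 8, 0, 4)]
  Tc := []
  Td := [((0, 3), (3, 0), 2), ((0, 3), (3, 10), 8), ((0, 3), (4, 2), 1), ((0, 3), (4, 7), 6),
    ((0, 3), (6, 8), 7), ((0, 3), (6, 9), 4), ((1, 2), (2, 1), 5), ((1, 2), (2, 4), 0), ((2,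
    1), (0, 1), 5), ((2, 1), (0, 3), 0), ((3, 0), (5, 7), 6), ((3, 0), (5, 8), 7)]
  G := [[0, 0, 0xc6a11a6c11684ca611a6c11a84c,
    0x14126ca613c6a1118812146ce84142ca6151412c11a8182c6a1fc28c,
    0xc1a811a2c6a1b1164a6c1564811a8c6a1911c211c4a6c176889], [0,
    0x11a144211c1221161886c11a1411c12681161882cc, 0,
    0x181811ab442121211678141411cd2a4c11a11ac11a1c11a111611c611c1e688c,
    0x1211a9814116311c11c5a64c8e2c6ab44891161411a1811c11ca11a11c611c1ee489], [0, 0, 0,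
    0x18839616c6321a68181a612614481ecc8b41812a16a45d1c2168144121166c168b84c5,
    0xc82c6a434ca64622ca687a6c8a6c29ac11218ac1a16ac5a1c12c14493c16cab6889]]

noncomputable def n3561 : Ent := ⟨e3561, noF, [], [], [(8, 18, [30043303427623734937691929578474300150491519007939870628445900451935571969, 0]), (9, 15, [31810581956861085346069128449376638664080213418021345636276315565303160833, 0]), (9, 16, [31810581851548793677511941751458610980409781099126250235727204310992187393, 0]), (9, 17, [31810150492402119267275227079217218666319002904815489586567506653228204033, 0])]⟩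

def c3561 : PLift (Cov.check n3561.C.D v3561 = true) := ⟨by decide +kernel⟩

def b3561 : PLift (entF (fidx ts) 400 3561 n3561 = true) := ⟨by decide +kernel⟩

theorem g3561 : GoodF (fidx ts) 400 3561 := GoodF.ofV v3561 n3561 c3561.down b3561.down

/-- 46494474:2699/1 -/
noncomputable def e3562 : SCfg where
  D := {
    a := 8
    L := 10
    kp := 7
    inn := [(0, 1), (1, 0), (1, 2), (1, 3), (1, 4), (2, 1), (2, 3), (3, 1), (3, 2), (3, 4), (3, 5), (3,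
      6), (4, 1), (4, 3), (5, 3), (5, 6), (6, 3), (6, 5), (6, 7), (7, 6)]
    mix := [(0, 0), (0, 1), (0, 2), (1, 0), (1, 2), (2, 2), (2, 3), (3, 3), (3, 4), (3, 5), (3, 6), (4,
      0), (4, 6), (5, 1), (5, 3), (6, 1), (6, 4), (6, 7), (6, 8), (7, 4), (7, 8), (7, 9)]
    cl := [2, 0, 3, 1, 0, 7, 1, 5, 4, 6]
    chq := [(2, 3), (3, 2), (5, 6), (6, 5)]
    rng := [(0, 1), (0, 6), (1, 0), (1, 2), (1, 3), (1, 7), (2, 1), (2, 3), (3, 1), (3, 2), (4, 5), (4,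
      9), (5, 4), (5, 6), (6, 0), (6, 5), (7, 1), (7, 8), (8, 7), (8, 9), (9, 4), (9, 8)]
    lev := [] }
  links := [[1, 8, 9, 10], [8, 0, 10, 2, 3, 4], [3, 1, 10, 11], [4, 1, 2, 11, 5, 6, 12, 13, 14], [8, 1,
    3, 14], [6, 3, 11, 9], [12, 3, 5, 9, 15, 16, 7], [12, 6, 16, 17]]
  P := {
    a := 8
    N := 18
    nb := [1794, 1309, 3082, 30838, 16650, 2632, 103080, 200768, 16915, 36193, 2567, 1580, 139464,
      20488, 8472, 66112, 164032, 69760]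
    tri := [(0, 1, 8), (0, 1, 10), (0, 8, 9), (0, 9, 10), (1, 2, 3), (1, 2, 10), (1, 3, 4), (1, 4, 8),
      (2, 3, 11), (2, 10, 11), (3, 4, 14), (3, 5, 6), (3, 5, 11), (3, 6, 12), (3, 12, 13), (3, 13,
      14), (4, 8, 14), (5, 6, 9), (5, 9, 11), (6, 7, 12), (6, 7, 16), (6, 9, 15), (6, 15, 16), (7,
      12, 17), (7, 16, 17)]
    fin := [0, 1, 1, 3, 1, 3, 6, 6, 0, 3, 10, 1, 3, 13, 1, 6, 16, 17]
    chd := [(0, 10), (6, 17)]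
    steps := [(0, 8), (1, 2), (1, 4), (1, 11), (1, 14), (3, 5), (3, 9), (3, 12), (6, 7), (6, 15)] }
  rep := [3, 1, 0, 10, 16, 6, 17, 13]

noncomputable def v3562 : Cov.CovD where
  P := 3
  N := 5
  pl := [5, 8]
  lev := [⟨[], [], [(0, 2), (0, 3), (2, 3)], [], [(0, 2, [3]), (1, 0, []), (2, 3, [2])]⟩,
    ⟨[], [(0, 0), (0, 2), (0, 3)], [(2, 3)], [], [(0, 2, [3]), (2, 3, [2])]⟩,
    ⟨[(0, 1)], [(0, 3), (1, 1), (1, 2), (1, 3)], [(1, 3)], [], [(2, 3, [2]), (3, 1, [])]⟩,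
    ⟨[(0, 1), (1, 2)], [(1, 0), (1, 1), (1, 2), (1, 3), (2, 0), (2, 1), (2, 3)], [(0, 1),
      (1, 1)], [7], [(3, 1, []), (4, 0, []), (6, 1, [])]⟩,
    ⟨[(0, 1), (1, 2), (1, 3), (2, 3)], [(0, 2), (1, 1), (1, 2), (1, 3), (3, 0), (3, 1), (3,
      2)], [(1, 2)], [], [(0, 2, [3]), (6, 1, [])]⟩,
    ⟨[(1, 3), (2, 3), (3, 4)], [(0, 0), (2, 1), (3, 0), (3, 1)], [(0, 1)], [], [(1, 0, []),
      (3, 1, [])]⟩,
    ⟨[(1, 3), (2, 3), (3, 4), (3, 5)], [(0, 0), (3, 0), (3, 1), (3, 5), (5, 0), (5, 1), (5,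
      5)], [(0, 0), (0, 5)], [4], [(1, 0, []), (4, 0, []), (7, 5, [6])]⟩,
    ⟨[(3, 6), (5, 6)], [(3, 0), (6, 0), (6, 5), (6, 6)], [(0, 6)], [4], [(4, 0, []), (9, 6,
      [5])]⟩]
  Ta := [((1, 0), 0, 2), ((1, 2), 0, 3), ((1, 3), 0, 1), ((1, 7), 0, 5), ((3, 1), 1, 0), ((3, 2),
    1, 3), ((4, 5), 0, 7), ((4, 9), 0, 6), ((6, 0), 1, 2), ((6, 5), 1, 7)]
  Tb := [((0, 1, 6), 2, 0, 1), ((1, 0, 2), 0, 2, 3), ((1, 0, 3), 0, 2, 1), ((1, 0, 7), 0, 2, 5),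
    ((1, 2, 3), 0, 3, 1), ((1, 2, 7), 0, 3, 5), ((1, 3, 7), 0, 1, 5), ((2, 1, 3), 3, 0, 1),
    ((3, 1, 2), 1, 0, 3), ((4, 5, 9), 0, 7, 6), ((5, 4, 6), 7, 0, 1), ((6, 0, 5), 1, 2, 7),
    ((7, 1, 8), 5, 0, 4), ((8, 7, 9), 4, 5, 6), ((9, 4, 8), 6, 0, 4)]
  Tc := []
  Td := [((2, 3), (0, 1), 0), ((2, 3), (0, 6), 1), ((3, 2), (2, 1), 0), ((3, 2), (2, 3), 1), ((5,
    6), (7, 1), 0), ((5, 6), (7, 8), 4), ((6, 5), (9, 4), 0), ((6, 5), (9, 8), 4)]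
  G := [[0, 0xa4815a2c591e48681135e41821269c64245c, 0x6ace8214835618c4319e88c12a, 0,
    0x6ace421486ace88142a], [0, 0, 0x31ce4414d9ac8c122, 0x6ace841286ace48124c, 0x6ace481422],
    [0, 0, 0, 0, 0x6ace12416ace42819ac6168196ace11c12a], [0, 0, 0,
    0x6ca1a48542ac668c48196ace44c26aca8c11c, 0x6ace1186ace114612]]

noncomputable def n3562 : Ent := ⟨e3562, noF, [], [], []⟩

def c3562 : PLift (Cov.check n3562.C.D v3562 = true) := ⟨by decide +kernel⟩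

def b3562 : PLift (entF (fidx ts) 400 3562 n3562 = true) := ⟨by decide +kernel⟩

theorem g3562 : GoodF (fidx ts) 400 3562 := GoodF.ofV v3562 n3562 c3562.down b3562.down

/-- 46494474:2699/2 -/
noncomputable def e3563 : SCfg where
  D := {
    a := 8
    L := 10
    kp := 7
    inn := [(0, 1), (1, 0), (1, 2), (1, 3), (1, 4), (2, 1), (2, 3), (3, 1), (3, 2), (3, 4), (3, 5), (3,
      6), (4, 1), (4, 3), (5, 3), (5, 6), (6, 3), (6, 5), (6, 7), (7, 6)]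
    mix := [(0, 0), (0, 1), (0, 2), (1, 0), (1, 2), (2, 2), (2, 3), (3, 3), (3, 4), (3, 5), (3, 6), (4,
      0), (4, 6), (5, 3), (5, 7), (6, 1), (6, 4), (6, 7), (6, 8), (7, 4), (7, 8), (7, 9)]
    cl := [3, 2, 4, 0, 1, 7, 0, 1, 5, 6]
    chq := [(2, 6), (3, 4), (4, 3), (6, 2)]
    rng := [(0, 1), (0, 6), (1, 0), (1, 2), (1, 7), (1, 8), (2, 1), (2, 3), (3, 2), (3, 7), (4, 5), (4,
      9), (5, 4), (5, 6), (6, 0), (6, 5), (7, 1), (7, 3), (8, 1), (8, 9), (9, 4), (9, 8)]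
    lev := [] }
  links := [[1, 8, 9, 10], [8, 0, 10, 2, 3, 4], [3, 1, 10, 11], [4, 1, 2, 11, 5, 6, 12, 13, 14], [8, 1,
    3, 14], [6, 3, 11, 15], [12, 3, 5, 15, 9, 16, 7], [12, 6, 16, 17]]
  P := {
    a := 8
    N := 18
    nb := [1794, 1309, 3082, 30838, 16650, 34888, 103080, 200768, 16915, 99649, 2567, 33836, 139464,
      20488, 8472, 2656, 131776, 69760]
    tri := [(0, 1, 8), (0, 1, 10), (0, 8, 9), (0, 9, 10), (1, 2, 3), (1, 2, 10), (1, 3, 4), (1, 4, 8),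
      (2, 3, 11), (2, 10, 11), (3, 4, 14), (3, 5, 6), (3, 5, 11), (3, 6, 12), (3, 12, 13), (3, 13,
      14), (4, 8, 14), (5, 6, 15), (5, 11, 15), (6, 7, 12), (6, 7, 16), (6, 9, 15), (6, 9, 16),
      (7, 12, 17), (7, 16, 17)]
    fin := [0, 1, 1, 3, 1, 3, 6, 6, 0, 6, 10, 1, 3, 13, 1, 3, 16, 17]
    chd := [(0, 10), (6, 17)]
    steps := [(0, 8), (1, 2), (1, 4), (1, 11), (1, 14), (3, 5), (3, 15), (3, 12), (6, 7), (6, 9)] }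
  rep := [1, 3, 6, 0, 10, 16, 17, 13]

noncomputable def v3563 : Cov.CovD where
  P := 3
  N := 5
  pl := [5, 8]
  lev := [⟨[], [], [(2, 3), (2, 4), (3, 4)], [], [(0, 3, [4]), (1, 2, [6]), (2, 4, [3])]⟩,
    ⟨[], [(0, 2), (0, 3), (0, 4)], [(3, 4)], [], [(0, 3, [4]), (2, 4, [3])]⟩,
    ⟨[(0, 1)], [(0, 4), (1, 0), (1, 3), (1, 4)], [(0, 4)], [], [(2, 4, [3]), (3, 0, [])]⟩,
    ⟨[(0, 1), (1, 2)], [(1, 0), (1, 1), (1, 3), (1, 4), (2, 0), (2, 1), (2, 4)], [(0, 0),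
      (0, 1)], [7], [(3, 0, []), (4, 1, []), (6, 0, [])]⟩,
    ⟨[(0, 1), (1, 2), (1, 3), (2, 3)], [(0, 3), (1, 0), (1, 3), (1, 4), (3, 0), (3, 1), (3,
      3)], [(0, 3)], [], [(0, 3, [4]), (6, 0, [])]⟩,
    ⟨[(1, 3), (2, 3), (3, 4)], [(2, 0), (3, 0), (3, 1)], [(0, 1)], [], [(3, 0, []), (7, 1,
      [])]⟩,
    ⟨[(1, 3), (2, 3), (3, 4), (3, 5)], [(0, 2), (3, 0), (3, 1), (3, 2), (5, 0), (5, 1), (5,
      2)], [(1, 1), (1, 2)], [5], [(1, 2, [6]), (4, 1, []), (7, 1, [])]⟩,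
    ⟨[(3, 6), (5, 6)], [(3, 1), (6, 1), (6, 2), (6, 6)], [(1, 6)], [5], [(4, 1, []), (9, 6,
      [2])]⟩]
  Ta := [((3, 2), 0, 4), ((3, 7), 0, 1), ((4, 5), 1, 7), ((4, 9), 1, 6), ((6, 0), 0, 3), ((6, 5),
    0, 7), ((7, 1), 1, 2), ((7, 3), 1, 0)]
  Tb := [((0, 1, 6), 3, 2, 0), ((1, 0, 2), 2, 3, 4), ((1, 0, 7), 2, 3, 1), ((1, 0, 8), 2, 3, 5),
    ((1, 2, 7), 2, 4, 1), ((1, 2, 8), 2, 4, 5), ((1, 7, 8), 2, 1, 5), ((2, 1, 3), 4, 2, 0),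
    ((3, 2, 7), 0, 4, 1), ((4, 5, 9), 1, 7, 6), ((5, 4, 6), 7, 1, 0), ((6, 0, 5), 0, 3, 7),
    ((7, 1, 3), 1, 2, 0), ((8, 1, 9), 5, 2, 6), ((9, 4, 8), 6, 1, 5)]
  Tc := []
  Td := [((2, 6), (1, 0), 3), ((2, 6), (1, 2), 4), ((2, 6), (1, 7), 1), ((2, 6), (1, 8), 5), ((3,
    4), (0, 1), 2), ((3, 4), (0, 6), 0), ((4, 3), (2, 1), 2), ((4, 3), (2, 3), 0), ((6, 2),
    (9, 4), 1), ((6, 2), (9, 8), 5)]
  G := [[0, 0, 0x59c8841dc22859c248e159c82459c245888c94884e11dc2259c82c21e, 0,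
    0xd4941424d94184c4d98444d9218c24d942c5924d98ac5c944861b], [0,
    0x21c2242418c2812c4412c88ae11, 0xd1c482811dc842411dc8421dc882c1e,
    0xc5941248c958128422c4222942c21d, 0x4d981248d4941284c594425c9882c1b], [0, 0,
    0xd1c1841dc1281dc148e1d1c1241dc14d818c14284e11dc1259c22c21e, 0,
    0x4d942c5928c144d94441d8c8c12c15892d4922cd14834d4924c61b], [0, 0,
    0xd1c482811dc8424121c4212c82c21e, 0xc9584218c95882142294222942c21d,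
    0x4d984218c59482145c94424d9882c1b]]

noncomputable def n3563 : Ent := ⟨e3563, noF, [], [], []⟩

def c3563 : PLift (Cov.check n3563.C.D v3563 = true) := ⟨by decide +kernel⟩

def b3563 : PLift (entF (fidx ts) 400 3563 n3563 = true) := ⟨by decide +kernel⟩

theorem g3563 : GoodF (fidx ts) 400 3563 := GoodF.ofV v3563 n3563 c3563.down b3563.down

/-- 46494474:2699/3 -/
noncomputable def e3564 : SCfg where
  D := {
    a := 8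
    L := 10
    kp := 7
    inn := [(0, 1), (1, 0), (1, 2), (1, 3), (1, 4), (2, 1), (2, 3), (3, 1), (3, 2), (3, 4), (3, 5), (3,
      6), (4, 1), (4, 3), (5, 3), (5, 6), (6, 3), (6, 5), (6, 7), (7, 6)]
    mix := [(0, 0), (0, 1), (0, 2), (1, 0), (1, 2), (2, 2), (2, 3), (3, 3), (3, 4), (3, 5), (3, 6), (4,
      0), (4, 6), (5, 3), (5, 7), (6, 1), (6, 4), (6, 7), (6, 8), (7, 1), (7, 4), (7, 9)]
    cl := [4, 1, 2, 0, 3, 0, 5, 6, 3, 7]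
    chq := [(0, 1), (1, 0), (1, 5), (5, 1)]
    rng := [(0, 1), (0, 6), (1, 0), (1, 2), (1, 8), (1, 9), (2, 1), (2, 3), (3, 2), (3, 7), (4, 5), (4,
      9), (5, 4), (5, 6), (6, 0), (6, 5), (7, 3), (7, 8), (8, 1), (8, 7), (9, 1), (9, 4)]
    lev := [] }
  links := [[1, 8, 9, 10], [8, 0, 10, 2, 3, 4], [3, 1, 10, 11], [4, 1, 2, 11, 5, 6, 12, 13, 14], [8, 1,
    3, 14], [6, 3, 11, 15], [12, 3, 5, 15, 16, 9, 7], [12, 6, 9, 17]]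
  P := {
    a := 8
    N := 18
    nb := [1794, 1309, 3082, 30838, 16650, 34888, 103080, 135744, 16915, 198081, 2567, 33836, 139464,
      20488, 8472, 67680, 33344, 4736]
    tri := [(0, 1, 8), (0, 1, 10), (0, 8, 9), (0, 9, 10), (1, 2, 3), (1, 2, 10), (1, 3, 4), (1, 4, 8),
      (2, 3, 11), (2, 10, 11), (3, 4, 14), (3, 5, 6), (3, 5, 11), (3, 6, 12), (3, 12, 13), (3, 13,
      14), (4, 8, 14), (5, 6, 15), (5, 11, 15), (6, 7, 9), (6, 7, 12), (6, 9, 16), (6, 15, 16),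
      (7, 9, 17), (7, 12, 17)]
    fin := [0, 0, 0, 3, 0, 3, 6, 0, 8, 0, 10, 3, 6, 3, 14, 15, 6, 17]
    chd := [(0, 3), (0, 14)]
    steps := [(0, 1), (0, 2), (0, 4), (0, 9), (0, 7), (3, 5), (3, 11), (3, 13), (6, 16), (6, 12)] }
  rep := [3, 0, 10, 6, 8, 14, 15, 17]

noncomputable def v3564 : Cov.CovD where
  P := 3
  N := 5
  pl := [0, 2, 7, 9]
  lev := [⟨[], [], [], [2, 4], [(1, 1, [0, 5])]⟩,
    ⟨[], [(0, 1)], [], [2, 4], []⟩,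
    ⟨[(0, 1)], [(1, 0)], [], [2], [(3, 0, [1])]⟩,
    ⟨[(0, 1), (1, 2)], [(1, 0), (1, 3), (1, 5), (2, 0), (2, 3), (2, 5)], [(0, 0), (0, 3),
      (0, 5), (3, 5)], [], [(3, 0, [1]), (4, 3, []), (5, 0, [1]), (6, 5, [1])]⟩,
    ⟨[(0, 1), (1, 2), (1, 3), (2, 3)], [(1, 5), (3, 0), (3, 3), (3, 5)], [], [4], [(6, 5,
      [1])]⟩,
    ⟨[(1, 3), (2, 3), (3, 4)], [(2, 0), (3, 0), (3, 3), (3, 5)], [], [6], [(3, 0, [1])]⟩,
    ⟨[(1, 3), (2, 3), (3, 4), (3, 5)], [(0, 1), (3, 0), (3, 1), (3, 3), (3, 5), (5, 0), (5,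
      1), (5, 3)], [(1, 3), (3, 3)], [6], [(1, 1, [0, 5]), (4, 3, []), (8, 3, [])]⟩,
    ⟨[(3, 6), (5, 6)], [(0, 1), (3, 3), (6, 1), (6, 3)], [(1, 3)], [7], [(1, 1, [0, 5]),
      (4, 3, [])]⟩]
  Ta := [((3, 2), 0, 2), ((3, 7), 0, 6), ((4, 5), 3, 0), ((4, 9), 3, 7), ((5, 4), 0, 3), ((5, 6),
    0, 5), ((8, 1), 3, 1), ((8, 7), 3, 6)]
  Tb := [((0, 1, 6), 4, 1, 5), ((1, 0, 2), 1, 4, 2), ((1, 0, 8), 1, 4, 3), ((1, 0, 9), 1, 4, 7),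
    ((1, 2, 8), 1, 2, 3), ((1, 2, 9), 1, 2, 7), ((1, 8, 9), 1, 3, 7), ((2, 1, 3), 2, 1, 0),
    ((3, 2, 7), 0, 2, 6), ((4, 5, 9), 3, 0, 7), ((5, 4, 6), 0, 3, 5), ((6, 0, 5), 5, 4, 0),
    ((7, 3, 8), 6, 0, 3), ((8, 1, 7), 3, 1, 6), ((9, 1, 4), 7, 1, 3)]
  Tc := [(1, 0, 5)]
  Td := [((0, 1), (3, 2), 2), ((0, 1), (3, 7), 6), ((0, 1), (5, 4), 3), ((0, 1), (5, 6), 5), ((1,
    0), (1, 0), 4), ((1, 0), (1, 2), 2), ((1, 0), (1, 8), 3), ((1, 0), (1, 9), 7), ((1, 5),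
    (1, 0), 4), ((1, 5), (1, 2), 2), ((1, 5), (1, 8), 3), ((1, 5), (1, 9), 7), ((5, 1), (6,
    0), 4), ((5, 1), (6, 5), 0)]
  G := [[0, 0x111e1161c1a1e11251e41111e1161c1a1111e11e41c, 0x2185191c524821425191c2183a84c,
    0x555999c2248155d899c2284c,
    0x155d88c54999cc29934855384ca555999c12839234122581555999c1e829], [0,
    0x1411a51c1c1c1a4111ca1a1c118a51681c, 0xc14222191a246512284a91c1c1284c,
    0x489845c2248488d91c2284c, 0x895999a2428148cc825c5288a48c916128b48994c845462559228a19],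
    [0, 0x111e1161c1a1e11251e41a1c161111e11111e11e81c, 0, 0x5191cccd22485191cccd22419,
    0x22924a22184c6459895c66184c1828a5191cccd659a95c45989584cde2819], [0,
    0xa1a1a14111e118c1111e11111e11681c, 0, 0x9151c22149191c22815,
    0x9191cc18621512281a5151629191a291c1c8e219]]

noncomputable def n3564 : Ent := ⟨e3564, noF, [], [], []⟩

def c3564 : PLift (Cov.check n3564.C.D v3564 = true) := ⟨by decide +kernel⟩

def b3564 : PLift (entF (fidx ts) 400 3564 n3564 = true) := ⟨by decide +kernel⟩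

theorem g3564 : GoodF (fidx ts) 400 3564 := GoodF.ofV v3564 n3564 c3564.down b3564.down

/-- 46494474:2699/4 -/
noncomputable def e3565 : SCfg where
  D := {
    a := 8
    L := 10
    kp := 7
    inn := [(0, 1), (1, 0), (1, 2), (1, 3), (1, 4), (2, 1), (2, 3), (3, 1), (3, 2), (3, 4), (3, 5), (3,
      6), (4, 1), (4, 3), (5, 3), (5, 6), (6, 3), (6, 5), (6, 7), (7, 6)]
    mix := [(0, 0), (0, 1), (0, 2), (1, 0), (1, 2), (2, 2), (2, 3), (3, 3), (3, 4), (3, 5), (3, 6), (4,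
      0), (4, 6), (5, 3), (5, 7), (6, 4), (6, 7), (6, 8), (6, 9), (7, 1), (7, 4), (7, 9)]
    cl := [2, 4, 3, 0, 1, 7, 0, 1, 6, 5]
    chq := [(2, 3), (3, 2), (4, 6), (6, 4)]
    rng := [(0, 1), (0, 6), (1, 0), (1, 2), (1, 4), (1, 9), (2, 1), (2, 3), (3, 2), (3, 7), (4, 1), (4,
      5), (5, 4), (5, 6), (6, 0), (6, 5), (7, 3), (7, 8), (8, 7), (8, 9), (9, 1), (9, 8)]
    lev := [] }
  links := [[1, 8, 9, 10], [8, 0, 10, 2, 3, 4], [3, 1, 10, 11], [4, 1, 2, 11, 5, 6, 12, 13, 14], [8, 1,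
    3, 14], [6, 3, 11, 15], [12, 3, 5, 15, 16, 17, 7], [12, 6, 17, 9]]
  P := {
    a := 8
    N := 18
    nb := [1794, 1309, 3082, 30838, 16650, 34888, 233640, 135744, 16915, 136577, 2567, 33836, 8904,
      20488, 8472, 67680, 163904, 66240]
    tri := [(0, 1, 8), (0, 1, 10), (0, 8, 9), (0, 9, 10), (1, 2, 3), (1, 2, 10), (1, 3, 4), (1, 4, 8),
      (2, 3, 11), (2, 10, 11), (3, 4, 14), (3, 5, 6), (3, 5, 11), (3, 6, 12), (3, 12, 13), (3, 13,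
      14), (4, 8, 14), (5, 6, 15), (5, 11, 15), (6, 7, 12), (6, 7, 17), (6, 15, 16), (6, 16, 17),
      (7, 9, 12), (7, 9, 17)]
    fin := [0, 1, 1, 3, 1, 3, 6, 6, 0, 6, 10, 1, 3, 13, 1, 3, 16, 17]
    chd := [(0, 10), (6, 16)]
    steps := [(0, 8), (1, 2), (1, 4), (1, 11), (1, 14), (3, 5), (3, 15), (3, 12), (6, 7), (6, 9)] }
  rep := [1, 3, 0, 10, 6, 17, 16, 13]

noncomputable def v3565 : Cov.CovD where
  P := 3
  N := 5
  pl := [5, 9]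
  lev := [⟨[], [], [(2, 3), (2, 4), (3, 4)], [], [(0, 2, [3]), (1, 4, [6]), (2, 3, [2])]⟩,
    ⟨[], [(0, 2), (0, 3), (0, 4)], [(2, 3)], [], [(0, 2, [3]), (2, 3, [2])]⟩,
    ⟨[(0, 1)], [(0, 3), (1, 0), (1, 2), (1, 3)], [(0, 3)], [], [(2, 3, [2]), (3, 0, [])]⟩,
    ⟨[(0, 1), (1, 2)], [(1, 0), (1, 1), (1, 2), (1, 3), (2, 0), (2, 1), (2, 3)], [(0, 0),
      (0, 1)], [7], [(3, 0, []), (4, 1, []), (6, 0, [])]⟩,
    ⟨[(0, 1), (1, 2), (1, 3), (2, 3)], [(0, 2), (1, 0), (1, 2), (1, 3), (3, 0), (3, 1), (3,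
      2)], [(0, 2)], [], [(0, 2, [3]), (6, 0, [])]⟩,
    ⟨[(1, 3), (2, 3), (3, 4)], [(2, 0), (3, 0), (3, 1)], [(0, 1)], [], [(3, 0, []), (7, 1,
      [])]⟩,
    ⟨[(1, 3), (2, 3), (3, 4), (3, 5)], [(3, 0), (3, 1), (3, 6), (5, 0), (5, 1), (5, 6)],
      [(1, 1), (1, 6)], [5], [(4, 1, []), (7, 1, []), (8, 6, [4])]⟩,
    ⟨[(3, 6), (5, 6)], [(0, 4), (3, 1), (6, 1), (6, 4), (6, 6)], [(1, 4)], [5], [(1, 4,
      [6]), (4, 1, [])]⟩]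
  Ta := [((3, 2), 0, 3), ((3, 7), 0, 1), ((4, 1), 1, 4), ((4, 5), 1, 7), ((6, 0), 0, 2), ((6, 5),
    0, 7), ((7, 3), 1, 0), ((7, 8), 1, 6)]
  Tb := [((0, 1, 6), 2, 4, 0), ((1, 0, 2), 4, 2, 3), ((1, 0, 4), 4, 2, 1), ((1, 0, 9), 4, 2, 5),
    ((1, 2, 4), 4, 3, 1), ((1, 2, 9), 4, 3, 5), ((1, 4, 9), 4, 1, 5), ((2, 1, 3), 3, 4, 0),
    ((3, 2, 7), 0, 3, 1), ((4, 1, 5), 1, 4, 7), ((5, 4, 6), 7, 1, 0), ((6, 0, 5), 0, 2, 7),
    ((7, 3, 8), 1, 0, 6), ((8, 7, 9), 6, 1, 5), ((9, 1, 8), 5, 4, 6)]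
  Tc := []
  Td := [((2, 3), (0, 1), 4), ((2, 3), (0, 6), 0), ((3, 2), (2, 1), 4), ((3, 2), (2, 3), 0), ((4,
    6), (1, 0), 2), ((4, 6), (1, 2), 3), ((4, 6), (1, 4), 1), ((4, 6), (1, 9), 5), ((6, 4),
    (8, 7), 1), ((6, 4), (8, 9), 5)]
  G := [[0, 0, 0,
    0x948c9c14298521818248a44cd2482d1425192c424c558c18248cd2842d94519a49158582cc21d,
    0x51944628891d284648cd82448cd428c3514d2149c5458498c928cc8428423142249152582a51928c94884e1b],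
    [0, 0x5a1e441caa468c211, 0, 0x191d84284ccd88285511d412858cd48249511d8428891d4824cd,
    0x88cd41248591d812848cd48249511d48241b], [0, 0,
    0x891d22419152181a844152584c82e1152582c41541d2281819224942846e9152584c94519c8c12e,
    0x48cd4488cd28c2144cd2488cd28c219152584c91558c8c21d,
    0x4c52288cd22c48128c1c144c925c98468c2114184591d4251922c94884e1b], [0, 0,
    0x191d84218511d4821431528c424319c8c12e, 0x88cd4421844cd88214511d482191d842c1d,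
    0x48cd8828148cd48241591d88241b]]

noncomputable def n3565 : Ent := ⟨e3565, noF, [], [], []⟩

def c3565 : PLift (Cov.check n3565.C.D v3565 = true) := ⟨by decide +kernel⟩

def b3565 : PLift (entF (fidx ts) 400 3565 n3565 = true) := ⟨by decide +kernel⟩

theorem g3565 : GoodF (fidx ts) 400 3565 := GoodF.ofV v3565 n3565 c3565.down b3565.down

/-- 46494474:2699 -/
noncomputable def e3566 : SCfg where
  D := {
    a := 8
    L := 11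
    kp := 8
    inn := [(0, 1), (1, 0), (1, 2), (1, 3), (1, 4), (2, 1), (2, 3), (3, 1), (3, 2), (3, 4), (3, 5), (3,
      6), (4, 1), (4, 3), (5, 3), (5, 6), (6, 3), (6, 5), (6, 7), (7, 6)]
    mix := [(0, 0), (0, 1), (0, 2), (1, 0), (1, 2), (2, 2), (2, 3), (3, 3), (3, 4), (3, 5), (3, 6), (4,
      0), (4, 6), (5, 3), (5, 7), (6, 4), (6, 7), (6, 8), (6, 9), (7, 4), (7, 9), (7, 10)]
    cl := [2, 7, 3, 0, 1, 8, 0, 1, 5, 4, 6]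
    chq := [(2, 3), (3, 2), (5, 6), (6, 5)]
    rng := [(0, 1), (0, 6), (1, 0), (1, 2), (2, 1), (2, 3), (3, 2), (3, 7), (4, 5), (4, 10), (5, 4),
      (5, 6), (6, 0), (6, 5), (7, 3), (7, 8), (8, 7), (8, 9), (9, 8), (9, 10), (10, 4), (10, 9)]
    lev := [] }
  links := [[1, 8, 9, 10], [8, 0, 10, 2, 3, 4], [3, 1, 10, 11], [4, 1, 2, 11, 5, 6, 12, 13, 14], [8, 1,
    3, 14], [6, 3, 11, 15], [12, 3, 5, 15, 16, 17, 7], [12, 6, 17, 18]]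
  P := {
    a := 8
    N := 19
    nb := [1794, 1309, 3082, 30838, 16650, 34888, 233640, 397376, 16915, 1281, 2567, 33836, 270536,
      20488, 8472, 67680, 163904, 327872, 135296]
    tri := [(0, 1, 8), (0, 1, 10), (0, 8, 9), (0, 9, 10), (1, 2, 3), (1, 2, 10), (1, 3, 4), (1, 4, 8),
      (2, 3, 11), (2, 10, 11), (3, 4, 14), (3, 5, 6), (3, 5, 11), (3, 6, 12), (3, 12, 13), (3, 13,
      14), (4, 8, 14), (5, 6, 15), (5, 11, 15), (6, 7, 12), (6, 7, 17), (6, 15, 16), (6, 16, 17),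
      (7, 12, 18), (7, 17, 18)]
    fin := [0, 1, 1, 3, 1, 3, 6, 6, 0, 9, 10, 1, 3, 13, 1, 3, 6, 17, 18]
    chd := [(0, 10), (6, 18)]
    steps := [(0, 8), (1, 2), (1, 4), (1, 11), (1, 14), (3, 5), (3, 15), (3, 12), (6, 7), (6, 16)] }
  rep := [1, 3, 0, 10, 17, 6, 18, 9, 13]

noncomputable def v3566 : Cov.CovD where
  P := 3
  N := 6
  pl := [1, 5, 9]
  lev := [⟨[], [], [(2, 3)], [7], [(0, 2, [3]), (2, 3, [2])]⟩,
    ⟨[], [(0, 2), (0, 3)], [(2, 3)], [], [(0, 2, [3]), (2, 3, [2])]⟩,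
    ⟨[(0, 1)], [(0, 3), (1, 0), (1, 2), (1, 3)], [(0, 3)], [], [(2, 3, [2]), (3, 0, [])]⟩,
    ⟨[(0, 1), (1, 2)], [(1, 0), (1, 1), (1, 2), (1, 3), (2, 0), (2, 1), (2, 3)], [(0, 0),
      (0, 1)], [8], [(3, 0, []), (4, 1, []), (6, 0, [])]⟩,
    ⟨[(0, 1), (1, 2), (1, 3), (2, 3)], [(0, 2), (1, 0), (1, 2), (1, 3), (3, 0), (3, 1), (3,
      2)], [(0, 2)], [], [(0, 2, [3]), (6, 0, [])]⟩,
    ⟨[(1, 3), (2, 3), (3, 4)], [(2, 0), (3, 0), (3, 1)], [(0, 1)], [], [(3, 0, []), (7, 1,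
      [])]⟩,
    ⟨[(1, 3), (2, 3), (3, 4), (3, 5)], [(3, 0), (3, 1), (3, 5), (5, 0), (5, 1), (5, 5)],
      [(1, 1), (1, 5)], [4], [(4, 1, []), (7, 1, []), (8, 5, [6])]⟩,
    ⟨[(3, 6), (5, 6)], [(3, 1), (6, 1), (6, 5), (6, 6)], [(1, 6)], [4], [(4, 1, []), (10,
      6, [5])]⟩]
  Ta := [((3, 2), 0, 3), ((3, 7), 0, 1), ((4, 5), 1, 8), ((4, 10), 1, 6), ((6, 0), 0, 2), ((6,
    5), 0, 8), ((7, 3), 1, 0), ((7, 8), 1, 5)]
  Tb := [((0, 1, 6), 2, 7, 0), ((1, 0, 2), 7, 2, 3), ((2, 1, 3), 3, 7, 0), ((3, 2, 7), 0, 3, 1),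
    ((4, 5, 10), 1, 8, 6), ((5, 4, 6), 8, 1, 0), ((6, 0, 5), 0, 2, 8), ((7, 3, 8), 1, 0, 5),
    ((8, 7, 9), 5, 1, 4), ((9, 8, 10), 4, 5, 6), ((10, 4, 9), 6, 1, 4)]
  Tc := []
  Td := [((2, 3), (0, 1), 7), ((2, 3), (0, 6), 0), ((3, 2), (2, 1), 7), ((3, 2), (2, 3), 0), ((5,
    6), (8, 7), 1), ((5, 6), (8, 9), 4), ((6, 5), (10, 4), 1), ((6, 5), (10, 9), 4)]
  G := [[0, 0, 0, 0x5829c5254259cd24829c558a482d59cd8842945c9a18259cd8842d9c558a49425c92cc21d,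
    0x59c88459cd22c181cc9c558c2459cd428c359cd28429c558c1c158a8c4942842b9488459cd425c928c94284e1b],
    [0, 0x1439ac8591e886815a1e44691e88c21591e241439ac8c21d, 0,
    0x59cd442459cd44289945c9c82859cd842452a558c4692d88c21d,
    0x59cd8124859cd812459cd4824959cd48241b], [0, 0,
    0x59cd2241c1946584a8459cd4481e5c994524859cd42815c9224948846e9c558a459cd88c12e,
    0x9c558c459cd28c2159cd24942c1583cc219c52581c59cd28c21d,
    0x59cd2849c54584a8c159cd22859cd28461942849c558925c922c94224e1b], [0, 0,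
    0x9c558c421859cd482142a538c494269c8c12e, 0x59cd4428159cd48214216ac5432ad88c21d,
    0x59cd8828159cd8824159cd88241b]]

noncomputable def n3566 : Ent := ⟨e3566, noF, [], [], [(9, 15, [31810581956861085346069128449376638664080213418021345636276315565303177217, 0]), (9, 16, [31810581851548793677511941751458610980409781099126250235727204310992203777, 0]), (9, 17, [31810150492402119267275227079217218666319002904815489586567506653228220417, 0]), (9, 18, [30043303427623734937691929578474300150491519007939870628445900451935604737, 0])]⟩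

def c3566 : PLift (Cov.check n3566.C.D v3566 = true) := ⟨by decide +kernel⟩

def b3566 : PLift (entF (fidx ts) 400 3566 n3566 = true) := ⟨by decide +kernel⟩

theorem g3566 : GoodF (fidx ts) 400 3566 := GoodF.ofV v3566 n3566 c3566.down b3566.down

/-- 48744647:2705 -/
noncomputable def e3567 : SCfg where
  D := {
    a := 8
    L := 11
    kp := 9
    inn := [(0, 1), (0, 7), (1, 0), (1, 2), (1, 4), (1, 5), (1, 7), (2, 1), (2, 3), (2, 4), (2, 5), (3,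
      2), (4, 1), (4, 2), (5, 1), (5, 2), (5, 6), (5, 7), (6, 5), (6, 7), (7, 0), (7, 1), (7, 5),
      (7, 6)]
    mix := [(0, 0), (0, 1), (1, 0), (1, 2), (1, 3), (2, 4), (2, 5), (2, 6), (3, 4), (3, 5), (3, 7), (4,
      2), (4, 6), (5, 4), (5, 8), (6, 8), (6, 9), (7, 1), (7, 9), (7, 10)]
    cl := [3, 5, 2, 7, 0, 6, 0, 9, 1, 4, 8]
    chq := [(1, 2), (1, 3), (1, 7), (2, 1), (3, 1), (3, 4), (3, 8), (4, 3), (7, 1), (8, 3)]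
    rng := [(0, 1), (0, 3), (1, 0), (1, 10), (2, 3), (2, 6), (3, 0), (3, 2), (4, 7), (4, 8), (5, 6),
      (5, 7), (6, 2), (6, 5), (7, 4), (7, 5), (8, 4), (8, 9), (9, 8), (9, 10), (10, 1), (10, 9)]
    lev := [] }
  links := [[1, 8, 9, 7], [8, 0, 7, 5, 2, 4, 10, 11], [4, 1, 5, 12, 3, 13, 14], [13, 2, 12, 15], [10, 1,
    2, 14], [12, 2, 1, 7, 6, 16], [16, 5, 7, 17], [17, 6, 5, 1, 0, 9, 18]]
  P := {
    a := 8
    N := 19
    nb := [898, 3509, 28730, 45060, 17414, 69830, 196768, 393827, 2563, 262529, 18450, 1282, 98348,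
      49164, 9236, 12296, 135264, 327872, 131712]
    tri := [(0, 1, 7), (0, 1, 8), (0, 7, 9), (0, 8, 9), (1, 2, 4), (1, 2, 5), (1, 4, 10), (1, 5, 7),
      (1, 8, 11), (1, 10, 11), (2, 3, 12), (2, 3, 13), (2, 4, 14), (2, 5, 12), (2, 13, 14), (3,
      12, 15), (3, 13, 15), (4, 10, 14), (5, 6, 7), (5, 6, 16), (5, 12, 16), (6, 7, 17), (6, 16,
      17), (7, 9, 18), (7, 17, 18)]
    fin := [0, 1, 2, 2, 1, 1, 0, 0, 0, 9, 10, 11, 2, 13, 2, 15, 1, 17, 18]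
    chd := [(0, 1), (0, 17), (0, 18), (10, 1), (11, 1)]
    steps := [(0, 7), (0, 6), (0, 8), (1, 4), (1, 5), (1, 16), (2, 3), (2, 12), (2, 14)] }
  rep := [2, 1, 10, 0, 17, 9, 13, 11, 18, 15]

noncomputable def v3567 : Cov.CovD where
  P := 3
  N := 7
  pl := [1, 5, 7]
  lev := [⟨[], [], [], [5], [(0, 3, [1, 4, 8])]⟩,
    ⟨[], [(0, 2), (0, 3), (0, 7)], [(2, 3), (2, 7), (3, 7)], [], [(0, 3, [1, 4, 8]), (2, 2,
      [1]), (3, 7, [1])]⟩,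
    ⟨[(0, 1)], [(1, 0), (1, 2), (1, 3), (1, 7)], [(0, 0)], [6], [(4, 0, []), (6, 0, [])]⟩,
    ⟨[(1, 2)], [(2, 0)], [], [6, 9], [(4, 0, [])]⟩,
    ⟨[(0, 1), (1, 2), (2, 3)], [(1, 0), (1, 2), (1, 3), (1, 7), (2, 0), (2, 2)], [(0, 2)],
      [], [(2, 2, [1]), (6, 0, [])]⟩,
    ⟨[(0, 1), (1, 2), (1, 4), (2, 3), (2, 4)], [(1, 0), (1, 1), (1, 2), (1, 3), (1, 7), (2,
      0), (2, 1), (3, 0)], [(0, 1)], [], [(4, 0, []), (8, 1, [2, 3, 7])]⟩,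
    ⟨[(1, 5), (2, 5)], [(5, 0), (5, 1), (5, 4)], [(1, 4)], [], [(8, 1, [2, 3, 7]), (9, 4,
      [3])]⟩,
    ⟨[(0, 1), (0, 5), (0, 6), (1, 2), (1, 4), (1, 5), (1, 6), (2, 5), (5, 6)], [(0, 3), (0,
      4), (0, 8), (1, 2), (1, 3), (1, 4), (1, 7), (1, 8), (5, 0), (5, 1), (5, 4), (5, 8), (6,
      1), (6, 4), (6, 8)], [(4, 8)], [5], [(9, 4, [3]), (10, 8, [3])]⟩]
  Ta := [((4, 7), 0, 9), ((4, 8), 0, 1), ((6, 2), 0, 2), ((6, 5), 0, 6)]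
  Tb := [((0, 1, 3), 3, 5, 7), ((1, 0, 10), 5, 3, 8), ((2, 3, 6), 2, 7, 0), ((3, 0, 2), 7, 3, 2),
    ((4, 7, 8), 0, 9, 1), ((5, 6, 7), 6, 0, 9), ((6, 2, 5), 0, 2, 6), ((7, 4, 5), 9, 0, 6),
    ((8, 4, 9), 1, 0, 4), ((9, 8, 10), 4, 1, 8), ((10, 1, 9), 8, 5, 4)]
  Tc := [(1, 2, 3), (1, 2, 7), (1, 3, 7), (3, 1, 4), (3, 1, 8), (3, 4, 8)]
  Td := [((1, 2), (8, 4), 0), ((1, 2), (8, 9), 4), ((1, 3), (8, 4), 0), ((1, 3), (8, 9), 4), ((1,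
    7), (8, 4), 0), ((1, 7), (8, 9), 4), ((2, 1), (2, 3), 7), ((2, 1), (2, 6), 0), ((3, 1),
    (0, 1), 5), ((3, 1), (0, 3), 7), ((3, 4), (0, 1), 5), ((3, 4), (0, 3), 7), ((3, 8), (0,
    1), 5), ((3, 8), (0, 3), 7), ((4, 3), (9, 8), 1), ((4, 3), (9, 10), 8), ((7, 1), (3, 0),
    3), ((7, 1), (3, 2), 2), ((8, 3), (10, 1), 5), ((8, 3), (10, 9), 4)]
  G := [[0, 0x224464842688427c842e1a5a248a5a284b2c442e185c248d86284c4a442e1e, 0,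
    0x52445281a528152846c292419241a928192416c22258422582c225846bc41a62294122582c22941682b816a225428225884e12b442edc2448c2814c2f,
    0x284222c41a24594141581a4158815c816c244282488424482eb21812181c2482868b541a3948a8b5818b5886c284282882428482eb24822481c21422841a6c24d4148cd48ae85816488c16cad],
    [0, 0,
    0x2182121881c41584117c881c62142121441691c481895881ca24421229481c2882128481664a8c413cc841ced,
    0x52445284952841c29244812c2984c222c441229442da24546a22c1223582c229e881a22944822c8416927842edc2441c288c2146c2f,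
    0x2412431445286514247948a615881c6ac422448a24821cb2812214252842214296b3c4816b988a19486c28824284826b2412824421684c12a4c18a4488c81cec94288bd]]

noncomputable def n3567 : Ent := ⟨e3567, noF, [], [], []⟩

def c3567 : PLift (Cov.check n3567.C.D v3567 = true) := ⟨by decide +kernel⟩

def b3567 : PLift (entF (fidx ts) 400 3567 n3567 = true) := ⟨by decide +kernel⟩

theorem g3567 : GoodF (fidx ts) 400 3567 := GoodF.ofV v3567 n3567 c3567.down b3567.down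

/-- 48485444:2706/2 -/
noncomputable def e3568 : SCfg where
  D := {
    a := 8
    L := 9
    kp := 6
    inn := [(0, 1), (1, 0), (1, 2), (1, 3), (1, 4), (1, 5), (2, 1), (2, 3), (3, 1), (3, 2), (3, 4), (3,
      6), (3, 7), (4, 1), (4, 3), (5, 1), (6, 3), (7, 3)]
    mix := [(0, 0), (0, 1), (0, 2), (1, 0), (1, 2), (1, 3), (2, 3), (2, 4), (3, 4), (3, 5), (3, 6), (4,
      0), (4, 6), (4, 7), (5, 2), (5, 3), (5, 8), (6, 1), (6, 4), (6, 5), (7, 5), (7, 6), (7, 8)]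
    cl := [0, 2, 3, 0, 1, 4, 1, 6, 5]
    chq := [(0, 3), (1, 4), (3, 0), (4, 1)]
    rng := [(0, 1), (0, 7), (1, 0), (1, 2), (1, 4), (1, 5), (2, 1), (2, 8), (3, 4), (3, 8), (4, 1), (4,
      3), (5, 1), (5, 8), (6, 7), (6, 8), (7, 0), (7, 6), (8, 2), (8, 3), (8, 5), (8, 6)]
    lev := [] }
  links := [[1, 8, 9, 10], [8, 0, 10, 5, 11, 2, 3, 4], [3, 1, 11, 12], [4, 1, 2, 12, 6, 13, 7, 14], [8,
    1, 3, 14, 15], [11, 1, 10, 16], [13, 3, 12, 9], [14, 3, 13, 16]]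
  P := {
    a := 8
    N := 17
    nb := [1794, 3389, 6154, 28886, 49418, 68610, 12808, 90120, 33299, 13633, 66083, 69670, 2636,
      66248, 98456, 16656, 27808]
    tri := [(0, 1, 8), (0, 1, 10), (0, 8, 9), (0, 9, 10), (1, 2, 3), (1, 2, 11), (1, 3, 4), (1, 4, 8),
      (1, 5, 10), (1, 5, 11), (2, 3, 12), (2, 11, 12), (3, 4, 14), (3, 6, 12), (3, 6, 13), (3, 7,
      13), (3, 7, 14), (4, 8, 15), (4, 14, 15), (5, 10, 16), (5, 11, 16), (6, 9, 12), (6, 9, 13),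
      (7, 13, 16), (7, 14, 16)]
    fin := [0, 0, 0, 3, 0, 0, 6, 7, 0, 6, 10, 0, 3, 13, 3, 15, 7]
    chd := [(0, 10), (3, 13)]
    steps := [(0, 1), (0, 2), (0, 4), (0, 5), (0, 8), (0, 11), (3, 12), (3, 14), (6, 9), (7, 16)] }
  rep := [0, 3, 6, 10, 13, 7, 15]

noncomputable def v3568 : Cov.CovD where
  P := 3
  N := 4
  pl := [1, 7, 8]
  lev := [⟨[], [], [(0, 3)], [2], [(0, 0, [3]), (2, 3, [0])]⟩,
    ⟨[], [(0, 0), (0, 3)], [(0, 0), (0, 3)], [], [(0, 0, [3]), (2, 3, [0]), (3, 0, [3])]⟩,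
    ⟨[(0, 1)], [(1, 0), (1, 1), (1, 3)], [(0, 1)], [], [(3, 0, [3]), (4, 1, [4])]⟩,
    ⟨[(0, 1), (1, 2)], [(1, 0), (1, 1), (1, 3), (1, 4), (2, 0), (2, 1), (2, 4)], [(1, 1),
      (1, 4)], [], [(4, 1, [4]), (5, 4, [1]), (6, 1, [4])]⟩,
    ⟨[(0, 1), (1, 2), (1, 3), (2, 3)], [(0, 0), (1, 0), (1, 1), (1, 3), (3, 0), (3, 1), (3,
      4)], [(0, 1)], [6], [(0, 0, [3]), (6, 1, [4])]⟩,
    ⟨[(0, 1), (1, 2), (1, 3), (1, 4)], [(0, 3), (1, 0), (1, 3), (2, 0)], [(0, 3)], [5],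
      [(2, 3, [0]), (3, 0, [3])]⟩,
    ⟨[(1, 3), (2, 3), (3, 4)], [(2, 1), (3, 1), (3, 4)], [(1, 4)], [2], [(4, 1, [4]), (5,
      4, [1])]⟩,
    ⟨[(1, 3), (2, 3), (3, 4), (3, 6)], [(3, 1), (3, 4), (4, 1), (6, 4)], [(1, 4)], [5],
      [(5, 4, [1]), (6, 1, [4])]⟩]
  Ta := [((0, 1), 0, 2), ((0, 7), 0, 6), ((3, 4), 0, 1), ((3, 8), 0, 5), ((4, 1), 1, 2), ((4, 3),
    1, 0), ((6, 7), 1, 6), ((6, 8), 1, 5)]
  Tb := [((0, 1, 7), 0, 2, 6), ((1, 0, 2), 2, 0, 3), ((1, 0, 4), 2, 0, 1), ((1, 0, 5), 2, 0, 4),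
    ((1, 2, 4), 2, 3, 1), ((1, 2, 5), 2, 3, 4), ((1, 4, 5), 2, 1, 4), ((2, 1, 8), 3, 2, 5),
    ((3, 4, 8), 0, 1, 5), ((4, 1, 3), 1, 2, 0), ((5, 1, 8), 4, 2, 5), ((6, 7, 8), 1, 6, 5),
    ((7, 0, 6), 6, 0, 1), ((8, 2, 3), 5, 3, 0), ((8, 2, 5), 5, 3, 4), ((8, 2, 6), 5, 3, 1),
    ((8, 3, 5), 5, 0, 4), ((8, 3, 6), 5, 0, 1), ((8, 5, 6), 5, 4, 1)]
  Tc := []
  Td := [((0, 3), (0, 1), 2), ((0, 3), (0, 7), 6), ((0, 3), (3, 4), 1), ((0, 3), (3, 8), 5), ((1,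
    4), (4, 1), 2), ((1, 4), (4, 3), 0), ((1, 4), (6, 7), 6), ((1, 4), (6, 8), 5), ((3, 0),
    (2, 1), 2), ((3, 0), (2, 8), 5), ((4, 1), (5, 1), 2), ((4, 1), (5, 8), 5)]
  G := [[0, 0, 0x11c1214811c12184c, 0x242281c281212c582212282c242212cc12c,
    0x81912184254848624582821126282112ac14a], [0, 0, 0x116141411c1812c116111a1c142a, 0,
    0x8191442521481918c524889c4214c131819181948cd124124cd82a], [0,
    0x8811ca2211c84261411cc11c81c6a28142148a418248ce1, 0, 0x21212421c8221212421c82c,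
    0x4292148382184c48424881911a21c94258c3], [0, 0, 0, 0,
    0x4494496142914181981c2c88321811214611414242c1c86a]]

noncomputable def n3568 : Ent := ⟨e3568, noF, [], [], []⟩

def c3568 : PLift (Cov.check n3568.C.D v3568 = true) := ⟨by decide +kernel⟩

def b3568 : PLift (entF (fidx ts) 400 3568 n3568 = true) := ⟨by decide +kernel⟩

theorem g3568 : GoodF (fidx ts) 400 3568 := GoodF.ofV v3568 n3568 c3568.down b3568.down

/-- 48485444:2706/1 -/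
noncomputable def e3569 : SCfg where
  D := {
    a := 8
    L := 10
    kp := 7
    inn := [(0, 1), (1, 0), (1, 2), (1, 3), (1, 4), (1, 5), (2, 1), (2, 3), (3, 1), (3, 2), (3, 4), (3,
      6), (3, 7), (4, 1), (4, 3), (5, 1), (6, 3), (7, 3)]
    mix := [(0, 0), (0, 1), (0, 2), (1, 0), (1, 2), (1, 3), (2, 3), (2, 4), (3, 4), (3, 5), (3, 6), (4,
      0), (4, 6), (4, 7), (5, 2), (5, 3), (5, 8), (6, 1), (6, 4), (6, 5), (7, 5), (7, 6), (7, 9)]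
    cl := [0, 2, 1, 0, 3, 4, 3, 5, 6, 7]
    chq := [(0, 1), (1, 0), (3, 4), (4, 3)]
    rng := [(0, 1), (0, 7), (1, 0), (1, 2), (1, 4), (1, 5), (2, 1), (2, 8), (3, 4), (3, 8), (4, 1), (4,
      3), (5, 1), (5, 9), (6, 7), (6, 9), (7, 0), (7, 6), (8, 2), (8, 3), (9, 5), (9, 6)]
    lev := [] }
  links := [[1, 8, 9, 10], [8, 0, 10, 5, 11, 2, 3, 4], [3, 1, 11, 12], [4, 1, 2, 12, 6, 13, 7, 14], [8,
    1, 3, 14, 15], [11, 1, 10, 16], [13, 3, 12, 9], [14, 3, 13, 17]]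
  P := {
    a := 8
    N := 18
    nb := [1794, 3389, 6154, 28886, 49418, 68610, 12808, 155656, 33299, 13633, 66083, 69670, 2636,
      131784, 163992, 16656, 3104, 24704]
    tri := [(0, 1, 8), (0, 1, 10), (0, 8, 9), (0, 9, 10), (1, 2, 3), (1, 2, 11), (1, 3, 4), (1, 4, 8),
      (1, 5, 10), (1, 5, 11), (2, 3, 12), (2, 11, 12), (3, 4, 14), (3, 6, 12), (3, 6, 13), (3, 7,
      13), (3, 7, 14), (4, 8, 15), (4, 14, 15), (5, 10, 16), (5, 11, 16), (6, 9, 12), (6, 9, 13),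
      (7, 13, 17), (7, 14, 17)]
    fin := [0, 0, 0, 3, 0, 0, 6, 3, 0, 6, 10, 0, 3, 13, 3, 15, 16, 17]
    chd := [(0, 10), (3, 13)]
    steps := [(0, 1), (0, 2), (0, 4), (0, 5), (0, 8), (0, 11), (3, 7), (3, 12), (3, 14), (6, 9)] }
  rep := [0, 10, 6, 3, 13, 15, 16, 17]

noncomputable def v3569 : Cov.CovD where
  P := 3
  N := 5
  pl := [1, 7, 8, 9]
  lev := [⟨[], [], [(0, 1)], [2], [(0, 0, [1]), (2, 1, [0])]⟩,
    ⟨[], [(0, 0), (0, 1)], [(0, 0), (0, 1)], [], [(0, 0, [1]), (2, 1, [0]), (3, 0, [1])]⟩,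
    ⟨[(0, 1)], [(1, 0), (1, 1), (1, 3)], [(0, 3)], [], [(3, 0, [1]), (4, 3, [4])]⟩,
    ⟨[(0, 1), (1, 2)], [(1, 0), (1, 1), (1, 3), (1, 4), (2, 0), (2, 3), (2, 4)], [(3, 3),
      (3, 4)], [], [(4, 3, [4]), (5, 4, [3]), (6, 3, [4])]⟩,
    ⟨[(0, 1), (1, 2), (1, 3), (2, 3)], [(0, 0), (1, 0), (1, 1), (1, 3), (3, 0), (3, 3), (3,
      4)], [(0, 3)], [5], [(0, 0, [1]), (6, 3, [4])]⟩,
    ⟨[(0, 1), (1, 2), (1, 3), (1, 4)], [(0, 1), (1, 0), (1, 1), (2, 0)], [(0, 1)], [6],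
      [(2, 1, [0]), (3, 0, [1])]⟩,
    ⟨[(1, 3), (2, 3), (3, 4)], [(2, 3), (3, 3), (3, 4)], [(3, 4)], [2], [(4, 3, [4]), (5,
      4, [3])]⟩,
    ⟨[(1, 3), (2, 3), (3, 4), (3, 6)], [(3, 3), (3, 4), (4, 3), (6, 4)], [(3, 4)], [7],
      [(5, 4, [3]), (6, 3, [4])]⟩]
  Ta := [((0, 1), 0, 2), ((0, 7), 0, 5), ((3, 4), 0, 3), ((3, 8), 0, 6), ((4, 1), 3, 2), ((4, 3),
    3, 0), ((6, 7), 3, 5), ((6, 9), 3, 7)]
  Tb := [((0, 1, 7), 0, 2, 5), ((1, 0, 2), 2, 0, 1), ((1, 0, 4), 2, 0, 3), ((1, 0, 5), 2, 0, 4),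
    ((1, 2, 4), 2, 1, 3), ((1, 2, 5), 2, 1, 4), ((1, 4, 5), 2, 3, 4), ((2, 1, 8), 1, 2, 6),
    ((3, 4, 8), 0, 3, 6), ((4, 1, 3), 3, 2, 0), ((5, 1, 9), 4, 2, 7), ((6, 7, 9), 3, 5, 7),
    ((7, 0, 6), 5, 0, 3), ((8, 2, 3), 6, 1, 0), ((9, 5, 6), 7, 4, 3)]
  Tc := []
  Td := [((0, 1), (0, 1), 2), ((0, 1), (0, 7), 5), ((0, 1), (3, 4), 3), ((0, 1), (3, 8), 6), ((1,
    0), (2, 1), 2), ((1, 0), (2, 8), 6), ((3, 4), (4, 1), 2), ((3, 4), (4, 3), 0), ((3, 4),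
    (6, 7), 5), ((3, 4), (6, 9), 7), ((4, 3), (5, 1), 2), ((4, 3), (5, 9), 7)]
  G := [[0, 0x616161a4a461439439a1e184, 0x954e121453e181a44, 0x8412248124d918851ce112b648,
    0x881b12c1125221411ab14565858c24242c8a1c8], [0, 0x239316121815b4a17858a1c1a8,
    0x97c15b61d361e1848, 0x2412a3916351841d1e2112b28124a48,
    0x4814f5a13816382a168164642148218c421885a189cc8], [0, 0x6868c1313161a1a4a4614168, 0,
    0xa1c442411c11cc11c848dd48cdcd22c8,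
    0x219418241648184891b88ca8212c4644252c81c91c9c2348821288a1884848c66141c818c9ec9], [0,
    0x239e3961249491615158c1c1a8, 0, 0xe39e39c12484,
    0x38412c5941461181418418418e558a8134a81a91418ec8]]

noncomputable def n3569 : Ent := ⟨e3569, noF, [], [], [(16, 17, [6903326391201334775872065844685381424292761054348340378595029944303617, 0])]⟩

def c3569 : PLift (Cov.check n3569.C.D v3569 = true) := ⟨by decide +kernel⟩

def b3569 : PLift (entF (fidx ts) 400 3569 n3569 = true) := ⟨by decide +kernel⟩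

theorem g3569 : GoodF (fidx ts) 400 3569 := GoodF.ofV v3569 n3569 c3569.down b3569.down

/-- 48485444:2706/4 -/
noncomputable def e3570 : SCfg where
  D := {
    a := 8
    L := 9
    kp := 6
    inn := [(0, 1), (1, 0), (1, 2), (1, 3), (1, 4), (1, 5), (2, 1), (2, 3), (3, 1), (3, 2), (3, 4), (3,
      6), (3, 7), (4, 1), (4, 3), (5, 1), (6, 3), (7, 3)]
    mix := [(0, 0), (0, 1), (0, 2), (1, 0), (1, 2), (1, 3), (2, 3), (2, 4), (3, 4), (3, 5), (3, 6), (4,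
      0), (4, 6), (4, 7), (5, 2), (5, 3), (5, 8), (6, 4), (6, 5), (6, 8), (7, 1), (7, 5), (7, 6)]
    cl := [0, 2, 3, 0, 1, 4, 1, 6, 5]
    chq := [(0, 3), (1, 4), (3, 0), (4, 1)]
    rng := [(0, 1), (0, 7), (1, 0), (1, 2), (1, 5), (1, 6), (2, 1), (2, 8), (3, 4), (3, 8), (4, 3), (4,
      8), (5, 1), (5, 8), (6, 1), (6, 7), (7, 0), (7, 6), (8, 2), (8, 3), (8, 4), (8, 5)]
    lev := [] }
  links := [[1, 8, 9, 10], [8, 0, 10, 5, 11, 2, 3, 4], [3, 1, 11, 12], [4, 1, 2, 12, 6, 13, 7, 14], [8,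
    1, 3, 14, 15], [11, 1, 10, 16], [13, 3, 12, 16], [14, 3, 13, 9]]
  P := {
    a := 8
    N := 17
    nb := [1794, 3389, 6154, 28886, 49418, 68610, 77832, 25096, 33299, 25985, 66083, 69670, 67660,
      66248, 33432, 16656, 15456]
    tri := [(0, 1, 8), (0, 1, 10), (0, 8, 9), (0, 9, 10), (1, 2, 3), (1, 2, 11), (1, 3, 4), (1, 4, 8),
      (1, 5, 10), (1, 5, 11), (2, 3, 12), (2, 11, 12), (3, 4, 14), (3, 6, 12), (3, 6, 13), (3, 7,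
      13), (3, 7, 14), (4, 8, 15), (4, 14, 15), (5, 10, 16), (5, 11, 16), (6, 12, 16), (6, 13,
      16), (7, 9, 13), (7, 9, 14)]
    fin := [0, 0, 0, 3, 0, 0, 6, 7, 0, 7, 10, 0, 3, 13, 3, 15, 6]
    chd := [(0, 10), (3, 13)]
    steps := [(0, 1), (0, 2), (0, 4), (0, 5), (0, 8), (0, 11), (3, 12), (3, 14), (6, 16), (7, 9)] }
  rep := [0, 3, 7, 10, 13, 6, 15]

noncomputable def v3570 : Cov.CovD where
  P := 3
  N := 4
  pl := [1, 7, 8]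
  lev := [⟨[], [], [(0, 3)], [2], [(0, 0, [3]), (2, 3, [0])]⟩,
    ⟨[], [(0, 0), (0, 3)], [(0, 0), (0, 3)], [], [(0, 0, [3]), (2, 3, [0]), (3, 0, [3])]⟩,
    ⟨[(0, 1)], [(1, 0), (1, 1), (1, 3)], [(0, 1)], [], [(3, 0, [3]), (4, 1, [4])]⟩,
    ⟨[(0, 1), (1, 2)], [(1, 0), (1, 1), (1, 3), (1, 4), (2, 0), (2, 1), (2, 4)], [(1, 1),
      (1, 4)], [], [(4, 1, [4]), (5, 4, [1]), (6, 1, [4])]⟩,
    ⟨[(0, 1), (1, 2), (1, 3), (2, 3)], [(0, 0), (1, 0), (1, 1), (1, 3), (3, 0), (3, 1), (3,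
      4)], [(0, 1)], [6], [(0, 0, [3]), (6, 1, [4])]⟩,
    ⟨[(0, 1), (1, 2), (1, 3), (1, 4)], [(0, 3), (1, 0), (1, 3), (2, 0)], [(0, 3)], [5],
      [(2, 3, [0]), (3, 0, [3])]⟩,
    ⟨[(1, 3), (2, 3), (3, 4)], [(2, 1), (3, 1), (3, 4)], [(1, 4)], [5], [(4, 1, [4]), (5,
      4, [1])]⟩,
    ⟨[(1, 3), (2, 3), (3, 4), (3, 6)], [(3, 1), (3, 4), (4, 1), (6, 4)], [(1, 4)], [2],
      [(5, 4, [1]), (6, 1, [4])]⟩]
  Ta := [((0, 1), 0, 2), ((0, 7), 0, 6), ((3, 4), 0, 1), ((3, 8), 0, 5), ((4, 3), 1, 0), ((4, 8),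
    1, 5), ((6, 1), 1, 2), ((6, 7), 1, 6)]
  Tb := [((0, 1, 7), 0, 2, 6), ((1, 0, 2), 2, 0, 3), ((1, 0, 5), 2, 0, 4), ((1, 0, 6), 2, 0, 1),
    ((1, 2, 5), 2, 3, 4), ((1, 2, 6), 2, 3, 1), ((1, 5, 6), 2, 4, 1), ((2, 1, 8), 3, 2, 5),
    ((3, 4, 8), 0, 1, 5), ((4, 3, 8), 1, 0, 5), ((5, 1, 8), 4, 2, 5), ((6, 1, 7), 1, 2, 6),
    ((7, 0, 6), 6, 0, 1), ((8, 2, 3), 5, 3, 0), ((8, 2, 4), 5, 3, 1), ((8, 2, 5), 5, 3, 4),
    ((8, 3, 4), 5, 0, 1), ((8, 3, 5), 5, 0, 4), ((8, 4, 5), 5, 1, 4)]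
  Tc := []
  Td := [((0, 3), (0, 1), 2), ((0, 3), (0, 7), 6), ((0, 3), (3, 4), 1), ((0, 3), (3, 8), 5), ((1,
    4), (4, 3), 0), ((1, 4), (4, 8), 5), ((1, 4), (6, 1), 2), ((1, 4), (6, 7), 6), ((3, 0),
    (2, 1), 2), ((3, 0), (2, 8), 5), ((4, 1), (5, 1), 2), ((4, 1), (5, 8), 5)]
  G := [[0, 0, 0xc112148c112184c, 0, 0x8191281125849462458118811b2481542894a], [0, 0,
    0xc11418c11818cc11c11c1826, 0x122122c1422822c452421822c121121c942c,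
    0x8191442821841118151c1118ca8152822948e92288121832c588214846a], [0,
    0x124212416c12814c4ea8122444162148e2c11a2814c18c84c8cec61, 0, 0,
    0x114182924c1c8284946248819819a2118d4258c3], [0, 0, 0, 0x12214221c8212214221c82c,
    0x9484614212418819814ac8832184411621162c182b]]

noncomputable def n3570 : Ent := ⟨e3570, noF, [], [], []⟩

def c3570 : PLift (Cov.check n3570.C.D v3570 = true) := ⟨by decide +kernel⟩

def b3570 : PLift (entF (fidx ts) 400 3570 n3570 = true) := ⟨by decide +kernel⟩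

theorem g3570 : GoodF (fidx ts) 400 3570 := GoodF.ofV v3570 n3570 c3570.down b3570.down

/-- 48485444:2706/3 -/
noncomputable def e3571 : SCfg where
  D := {
    a := 8
    L := 10
    kp := 7
    inn := [(0, 1), (1, 0), (1, 2), (1, 3), (1, 4), (1, 5), (2, 1), (2, 3), (3, 1), (3, 2), (3, 4), (3,
      6), (3, 7), (4, 1), (4, 3), (5, 1), (6, 3), (7, 3)]
    mix := [(0, 0), (0, 1), (0, 2), (1, 0), (1, 2), (1, 3), (2, 3), (2, 4), (3, 4), (3, 5), (3, 6), (4,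
      0), (4, 6), (4, 7), (5, 2), (5, 3), (5, 8), (6, 4), (6, 5), (6, 9), (7, 1), (7, 5), (7, 6)]
    cl := [0, 2, 3, 0, 1, 4, 1, 5, 6, 7]
    chq := [(0, 3), (1, 4), (3, 0), (4, 1)]
    rng := [(0, 1), (0, 7), (1, 0), (1, 2), (1, 5), (1, 6), (2, 1), (2, 8), (3, 4), (3, 8), (4, 3), (4,
      9), (5, 1), (5, 9), (6, 1), (6, 7), (7, 0), (7, 6), (8, 2), (8, 3), (9, 4), (9, 5)]
    lev := [] }
  links := [[1, 8, 9, 10], [8, 0, 10, 5, 11, 2, 3, 4], [3, 1, 11, 12], [4, 1, 2, 12, 6, 13, 7, 14], [8,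
    1, 3, 14, 15], [11, 1, 10, 16], [13, 3, 12, 17], [14, 3, 13, 9]]
  P := {
    a := 8
    N := 18
    nb := [1794, 3389, 6154, 28886, 49418, 68610, 143368, 25096, 33299, 25985, 66083, 69670, 133196,
      131784, 33432, 16656, 3104, 12352]
    tri := [(0, 1, 8), (0, 1, 10), (0, 8, 9), (0, 9, 10), (1, 2, 3), (1, 2, 11), (1, 3, 4), (1, 4, 8),
      (1, 5, 10), (1, 5, 11), (2, 3, 12), (2, 11, 12), (3, 4, 14), (3, 6, 12), (3, 6, 13), (3, 7,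
      13), (3, 7, 14), (4, 8, 15), (4, 14, 15), (5, 10, 16), (5, 11, 16), (6, 12, 17), (6, 13,
      17), (7, 9, 13), (7, 9, 14)]
    fin := [0, 0, 0, 3, 0, 0, 3, 7, 0, 7, 10, 0, 3, 13, 3, 15, 16, 17]
    chd := [(0, 10), (3, 13)]
    steps := [(0, 1), (0, 2), (0, 4), (0, 5), (0, 8), (0, 11), (3, 6), (3, 12), (3, 14), (7, 9)] }
  rep := [0, 3, 7, 10, 13, 15, 16, 17]

noncomputable def v3571 : Cov.CovD where
  P := 3
  N := 5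
  pl := [1, 7, 8, 9]
  lev := [⟨[], [], [(0, 3)], [2], [(0, 0, [3]), (2, 3, [0])]⟩,
    ⟨[], [(0, 0), (0, 3)], [(0, 0), (0, 3)], [], [(0, 0, [3]), (2, 3, [0]), (3, 0, [3])]⟩,
    ⟨[(0, 1)], [(1, 0), (1, 1), (1, 3)], [(0, 1)], [], [(3, 0, [3]), (4, 1, [4])]⟩,
    ⟨[(0, 1), (1, 2)], [(1, 0), (1, 1), (1, 3), (1, 4), (2, 0), (2, 1), (2, 4)], [(1, 1),
      (1, 4)], [], [(4, 1, [4]), (5, 4, [1]), (6, 1, [4])]⟩,
    ⟨[(0, 1), (1, 2), (1, 3), (2, 3)], [(0, 0), (1, 0), (1, 1), (1, 3), (3, 0), (3, 1), (3,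
      4)], [(0, 1)], [5], [(0, 0, [3]), (6, 1, [4])]⟩,
    ⟨[(0, 1), (1, 2), (1, 3), (1, 4)], [(0, 3), (1, 0), (1, 3), (2, 0)], [(0, 3)], [6],
      [(2, 3, [0]), (3, 0, [3])]⟩,
    ⟨[(1, 3), (2, 3), (3, 4)], [(2, 1), (3, 1), (3, 4)], [(1, 4)], [7], [(4, 1, [4]), (5,
      4, [1])]⟩,
    ⟨[(1, 3), (2, 3), (3, 4), (3, 6)], [(3, 1), (3, 4), (4, 1), (6, 4)], [(1, 4)], [2],
      [(5, 4, [1]), (6, 1, [4])]⟩]
  Ta := [((0, 1), 0, 2), ((0, 7), 0, 5), ((3, 4), 0, 1), ((3, 8), 0, 6), ((4, 3), 1, 0), ((4, 9),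
    1, 7), ((6, 1), 1, 2), ((6, 7), 1, 5)]
  Tb := [((0, 1, 7), 0, 2, 5), ((1, 0, 2), 2, 0, 3), ((1, 0, 5), 2, 0, 4), ((1, 0, 6), 2, 0, 1),
    ((1, 2, 5), 2, 3, 4), ((1, 2, 6), 2, 3, 1), ((1, 5, 6), 2, 4, 1), ((2, 1, 8), 3, 2, 6),
    ((3, 4, 8), 0, 1, 6), ((4, 3, 9), 1, 0, 7), ((5, 1, 9), 4, 2, 7), ((6, 1, 7), 1, 2, 5),
    ((7, 0, 6), 5, 0, 1), ((8, 2, 3), 6, 3, 0), ((9, 4, 5), 7, 1, 4)]
  Tc := []
  Td := [((0, 3), (0, 1), 2), ((0, 3), (0, 7), 5), ((0, 3), (3, 4), 1), ((0, 3), (3, 8), 6), ((1,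
    4), (4, 3), 0), ((1, 4), (4, 9), 7), ((1, 4), (6, 1), 2), ((1, 4), (6, 7), 5), ((3, 0),
    (2, 1), 2), ((3, 0), (2, 8), 6), ((4, 1), (5, 1), 2), ((4, 1), (5, 9), 7)]
  G := [[0, 0, 0x84cd1214884cd12184c, 0,
    0x819819321891411c72591542458858284c2418428c1288588188a912a51cdc2a], [0, 0,
    0x84cd1414884cd181244847148471c142e, 0x4218282ac12142429c9424242612123c412126821c8c2c,
    0x11614188191525482444711829812818d585828489c848835883858888a581831121165cd42a], [0,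
    0x81a2111e12416e81c8e2412141e81ae416281c4e281164464411e11ca884e4ac12844c4818ec8ce1, 0, 0,
    0x11214229281da18c24821dc1486881d94624819819a24c118d118d14e2184828cc3], [0, 0, 0,
    0x8282a11212a1c42121261424261c82c,
    0x92191b6144128128c184189c18881cac122148887218c1241881e881ec1c86a]]

noncomputable def n3571 : Ent := ⟨e3571, noF, [], [], [(16, 17, [6903326391201334775872065844685381424292761054348340378595029944311809, 0])]⟩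

def c3571 : PLift (Cov.check n3571.C.D v3571 = true) := ⟨by decide +kernel⟩

def b3571 : PLift (entF (fidx ts) 400 3571 n3571 = true) := ⟨by decide +kernel⟩

theorem g3571 : GoodF (fidx ts) 400 3571 := GoodF.ofV v3571 n3571 c3571.down b3571.down

/-- 48485444:2706/5 -/
noncomputable def e3572 : SCfg where
  D := {
    a := 8
    L := 10
    kp := 7
    inn := [(0, 1), (1, 0), (1, 2), (1, 3), (1, 4), (1, 5), (2, 1), (2, 3), (3, 1), (3, 2), (3, 4), (3,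
      6), (3, 7), (4, 1), (4, 3), (5, 1), (6, 3), (7, 3)]
    mix := [(0, 0), (0, 1), (0, 2), (1, 0), (1, 2), (1, 3), (2, 3), (2, 4), (3, 4), (3, 5), (3, 6), (4,
      0), (4, 6), (4, 7), (5, 2), (5, 3), (5, 8), (6, 4), (6, 5), (6, 8), (7, 5), (7, 6), (7, 9)]
    cl := [0, 5, 3, 0, 1, 4, 1, 6, 2, 7]
    chq := [(0, 3), (1, 4), (3, 0), (4, 1)]
    rng := [(0, 1), (0, 7), (1, 0), (1, 2), (2, 1), (2, 8), (3, 4), (3, 8), (4, 3), (4, 8), (5, 8), (5,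
      9), (6, 7), (6, 9), (7, 0), (7, 6), (8, 2), (8, 3), (8, 4), (8, 5), (9, 5), (9, 6)]
    lev := [] }
  links := [[1, 8, 9, 10], [8, 0, 10, 5, 11, 2, 3, 4], [3, 1, 11, 12], [4, 1, 2, 12, 6, 13, 7, 14], [8,
    1, 3, 14, 15], [11, 1, 10, 16], [13, 3, 12, 16], [14, 3, 13, 17]]
  P := {
    a := 8
    N := 18
    nb := [1794, 3389, 6154, 28886, 49418, 68610, 77832, 155656, 33299, 1281, 66083, 69670, 67660,
      196808, 163992, 16656, 15456, 24704]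
    tri := [(0, 1, 8), (0, 1, 10), (0, 8, 9), (0, 9, 10), (1, 2, 3), (1, 2, 11), (1, 3, 4), (1, 4, 8),
      (1, 5, 10), (1, 5, 11), (2, 3, 12), (2, 11, 12), (3, 4, 14), (3, 6, 12), (3, 6, 13), (3, 7,
      13), (3, 7, 14), (4, 8, 15), (4, 14, 15), (5, 10, 16), (5, 11, 16), (6, 12, 16), (6, 13,
      16), (7, 13, 17), (7, 14, 17)]
    fin := [0, 0, 0, 3, 0, 0, 6, 3, 0, 9, 10, 0, 3, 13, 3, 15, 6, 17]
    chd := [(0, 10), (3, 13)]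
    steps := [(0, 1), (0, 2), (0, 4), (0, 5), (0, 8), (0, 11), (3, 7), (3, 12), (3, 14), (6, 16)] }
  rep := [0, 3, 6, 10, 13, 9, 15, 17]

noncomputable def v3572 : Cov.CovD where
  P := 3
  N := 5
  pl := [1, 7, 8, 9]
  lev := [⟨[], [], [(0, 3)], [5], [(0, 0, [3]), (2, 3, [0])]⟩,
    ⟨[], [(0, 0), (0, 3)], [(0, 0), (0, 3)], [], [(0, 0, [3]), (2, 3, [0]), (3, 0, [3])]⟩,
    ⟨[(0, 1)], [(1, 0), (1, 1), (1, 3)], [(0, 1)], [], [(3, 0, [3]), (4, 1, [4])]⟩,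
    ⟨[(0, 1), (1, 2)], [(1, 0), (1, 1), (1, 3), (1, 4), (2, 0), (2, 1), (2, 4)], [(1, 1),
      (1, 4)], [], [(4, 1, [4]), (5, 4, [1]), (6, 1, [4])]⟩,
    ⟨[(0, 1), (1, 2), (1, 3), (2, 3)], [(0, 0), (1, 0), (1, 1), (1, 3), (3, 0), (3, 1), (3,
      4)], [(0, 1)], [6], [(0, 0, [3]), (6, 1, [4])]⟩,
    ⟨[(0, 1), (1, 2), (1, 3), (1, 4)], [(0, 3), (1, 0), (1, 3), (2, 0)], [(0, 3)], [2],
      [(2, 3, [0]), (3, 0, [3])]⟩,
    ⟨[(1, 3), (2, 3), (3, 4)], [(2, 1), (3, 1), (3, 4)], [(1, 4)], [2], [(4, 1, [4]), (5,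
      4, [1])]⟩,
    ⟨[(1, 3), (2, 3), (3, 4), (3, 6)], [(3, 1), (3, 4), (4, 1), (6, 4)], [(1, 4)], [7],
      [(5, 4, [1]), (6, 1, [4])]⟩]
  Ta := [((0, 1), 0, 5), ((0, 7), 0, 6), ((3, 4), 0, 1), ((3, 8), 0, 2), ((4, 3), 1, 0), ((4, 8),
    1, 2), ((6, 7), 1, 6), ((6, 9), 1, 7)]
  Tb := [((0, 1, 7), 0, 5, 6), ((1, 0, 2), 5, 0, 3), ((2, 1, 8), 3, 5, 2), ((3, 4, 8), 0, 1, 2),
    ((4, 3, 8), 1, 0, 2), ((5, 8, 9), 4, 2, 7), ((6, 7, 9), 1, 6, 7), ((7, 0, 6), 6, 0, 1),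
    ((8, 2, 3), 2, 3, 0), ((8, 2, 4), 2, 3, 1), ((8, 2, 5), 2, 3, 4), ((8, 3, 4), 2, 0, 1),
    ((8, 3, 5), 2, 0, 4), ((8, 4, 5), 2, 1, 4), ((9, 5, 6), 7, 4, 1)]
  Tc := []
  Td := [((0, 3), (0, 1), 5), ((0, 3), (0, 7), 6), ((0, 3), (3, 4), 1), ((0, 3), (3, 8), 2), ((1,
    4), (4, 3), 0), ((1, 4), (4, 8), 2), ((1, 4), (6, 7), 6), ((1, 4), (6, 9), 7), ((3, 0),
    (2, 1), 5), ((3, 0), (2, 8), 2), ((4, 1), (5, 8), 2), ((4, 1), (5, 9), 7)]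
  G := [[0, 0, 0, 0x248288c288218c582244284c284214c582241281c211211c582e,
    0xc5922418882218218c548828ccc1912482111c91a182812291c48ec592241212212c148228822c9ce], [0,
    0, 0, 0,
    0x1c38528c1428488b8c8888c9841b281a2c41245482489642141c3849c8184888447989433818422484a2882c1c324d8e421411d298191c9819491cd82e],
    [0, 0x11c411c8c221481414ca41818c18868c61, 0x95c821495c4218c1,
    0x28812181c4228412141c422828c12121c1c42e,
    0x912122921c423121468218c44822481982949825c488284c7], [0, 0, 0xd24d28c84e18596295a2c1461,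
    0, 0x58a814288911814184564c598142918182c522c132c81928c121432cd42d]]

noncomputable def n3572 : Ent := ⟨e3572, noF, [], [], [(9, 17, [6903326391201334775872065844685381424292761054348340378595029944311809, 0])]⟩

def c3572 : PLift (Cov.check n3572.C.D v3572 = true) := ⟨by decide +kernel⟩

def b3572 : PLift (entF (fidx ts) 400 3572 n3572 = true) := ⟨by decide +kernel⟩

theorem g3572 : GoodF (fidx ts) 400 3572 := GoodF.ofV v3572 n3572 c3572.down b3572.down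

/-- 48485444:2706/6 -/
noncomputable def e3573 : SCfg where
  D := {
    a := 8
    L := 10
    kp := 7
    inn := [(0, 1), (1, 0), (1, 2), (1, 3), (1, 4), (1, 5), (2, 1), (2, 3), (3, 1), (3, 2), (3, 4), (3,
      6), (3, 7), (4, 1), (4, 3), (5, 1), (6, 3), (7, 3)]
    mix := [(0, 0), (0, 1), (0, 2), (1, 0), (1, 2), (1, 3), (2, 3), (2, 4), (3, 4), (3, 5), (3, 6), (4,
      0), (4, 6), (4, 7), (5, 2), (5, 3), (5, 8), (6, 4), (6, 5), (6, 9), (7, 5), (7, 6), (7, 8)]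
    cl := [0, 5, 3, 0, 1, 4, 1, 6, 2, 7]
    chq := [(0, 3), (1, 4), (3, 0), (4, 1)]
    rng := [(0, 1), (0, 7), (1, 0), (1, 2), (2, 1), (2, 8), (3, 4), (3, 8), (4, 3), (4, 9), (5, 8), (5,
      9), (6, 7), (6, 8), (7, 0), (7, 6), (8, 2), (8, 3), (8, 5), (8, 6), (9, 4), (9, 5)]
    lev := [] }
  links := [[1, 8, 9, 10], [8, 0, 10, 5, 11, 2, 3, 4], [3, 1, 11, 12], [4, 1, 2, 12, 6, 13, 7, 14], [8,
    1, 3, 14, 15], [11, 1, 10, 16], [13, 3, 12, 17], [14, 3, 13, 16]]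
  P := {
    a := 8
    N := 18
    nb := [1794, 3389, 6154, 28886, 49418, 68610, 143368, 90120, 33299, 1281, 66083, 69670, 133196,
      196808, 98456, 16656, 27808, 12352]
    tri := [(0, 1, 8), (0, 1, 10), (0, 8, 9), (0, 9, 10), (1, 2, 3), (1, 2, 11), (1, 3, 4), (1, 4, 8),
      (1, 5, 10), (1, 5, 11), (2, 3, 12), (2, 11, 12), (3, 4, 14), (3, 6, 12), (3, 6, 13), (3, 7,
      13), (3, 7, 14), (4, 8, 15), (4, 14, 15), (5, 10, 16), (5, 11, 16), (6, 12, 17), (6, 13,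
      17), (7, 13, 16), (7, 14, 16)]
    fin := [0, 0, 0, 3, 0, 0, 3, 7, 0, 9, 10, 0, 3, 13, 3, 15, 7, 17]
    chd := [(0, 10), (3, 13)]
    steps := [(0, 1), (0, 2), (0, 4), (0, 5), (0, 8), (0, 11), (3, 6), (3, 12), (3, 14), (7, 16)] }
  rep := [0, 3, 7, 10, 13, 9, 15, 17]

noncomputable def v3573 : Cov.CovD where
  P := 3
  N := 5
  pl := [1, 7, 8, 9]
  lev := [⟨[], [], [(0, 3)], [5], [(0, 0, [3]), (2, 3, [0])]⟩,
    ⟨[], [(0, 0), (0, 3)], [(0, 0), (0, 3)], [], [(0, 0, [3]), (2, 3, [0]), (3, 0, [3])]⟩,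
    ⟨[(0, 1)], [(1, 0), (1, 1), (1, 3)], [(0, 1)], [], [(3, 0, [3]), (4, 1, [4])]⟩,
    ⟨[(0, 1), (1, 2)], [(1, 0), (1, 1), (1, 3), (1, 4), (2, 0), (2, 1), (2, 4)], [(1, 1),
      (1, 4)], [], [(4, 1, [4]), (5, 4, [1]), (6, 1, [4])]⟩,
    ⟨[(0, 1), (1, 2), (1, 3), (2, 3)], [(0, 0), (1, 0), (1, 1), (1, 3), (3, 0), (3, 1), (3,
      4)], [(0, 1)], [6], [(0, 0, [3]), (6, 1, [4])]⟩,
    ⟨[(0, 1), (1, 2), (1, 3), (1, 4)], [(0, 3), (1, 0), (1, 3), (2, 0)], [(0, 3)], [2],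
      [(2, 3, [0]), (3, 0, [3])]⟩,
    ⟨[(1, 3), (2, 3), (3, 4)], [(2, 1), (3, 1), (3, 4)], [(1, 4)], [7], [(4, 1, [4]), (5,
      4, [1])]⟩,
    ⟨[(1, 3), (2, 3), (3, 4), (3, 6)], [(3, 1), (3, 4), (4, 1), (6, 4)], [(1, 4)], [2],
      [(5, 4, [1]), (6, 1, [4])]⟩]
  Ta := [((0, 1), 0, 5), ((0, 7), 0, 6), ((3, 4), 0, 1), ((3, 8), 0, 2), ((4, 3), 1, 0), ((4, 9),
    1, 7), ((6, 7), 1, 6), ((6, 8), 1, 2)]
  Tb := [((0, 1, 7), 0, 5, 6), ((1, 0, 2), 5, 0, 3), ((2, 1, 8), 3, 5, 2), ((3, 4, 8), 0, 1, 2),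
    ((4, 3, 9), 1, 0, 7), ((5, 8, 9), 4, 2, 7), ((6, 7, 8), 1, 6, 2), ((7, 0, 6), 6, 0, 1),
    ((8, 2, 3), 2, 3, 0), ((8, 2, 5), 2, 3, 4), ((8, 2, 6), 2, 3, 1), ((8, 3, 5), 2, 0, 4),
    ((8, 3, 6), 2, 0, 1), ((8, 5, 6), 2, 4, 1), ((9, 4, 5), 7, 1, 4)]
  Tc := []
  Td := [((0, 3), (0, 1), 5), ((0, 3), (0, 7), 6), ((0, 3), (3, 4), 1), ((0, 3), (3, 8), 2), ((1,
    4), (4, 3), 0), ((1, 4), (4, 9), 7), ((1, 4), (6, 7), 6), ((1, 4), (6, 8), 2), ((3, 0),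
    (2, 1), 5), ((3, 0), (2, 8), 2), ((4, 1), (5, 8), 2), ((4, 1), (5, 9), 7)]
  G := [[0, 0, 0, 0,
    0x8191281c1258422458158281c891d824111121881c329828c24821d2212cc1e891d824114121181d2281922c9ce],
    [0, 0, 0, 0x128828c428128cc12124424c1424824c892421421c121121c942e,
    0x11a1414189881886849288c311581862c9288c1e821812845828445121811814ba188224822122cc1e122814181711138139c11614586e],
    [0, 0x111e8424841e482814614c1464a41818ac111e18c68ce1, 0x84cd821484cd4218c1, 0,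
    0x24214319211121cc22121428c21185229c48422481982118d825c848284c7], [0, 0,
    0x4c8b484cd8c1484cd24c872c18a1, 0x12814281c8282411241c428282c11212c1c42e,
    0x128128c184818881ca4891d8142128188c881e28132c8221862c582d]]

noncomputable def n3573 : Ent := ⟨e3573, noF, [], [], [(9, 17, [6903326391201334775872065844685381424292761054348340378595029944303617, 0])]⟩

def c3573 : PLift (Cov.check n3573.C.D v3573 = true) := ⟨by decide +kernel⟩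

def b3573 : PLift (entF (fidx ts) 400 3573 n3573 = true) := ⟨by decide +kernel⟩

theorem g3573 : GoodF (fidx ts) 400 3573 := GoodF.ofV v3573 n3573 c3573.down b3573.down

/-- 48485444:2706 -/
noncomputable def e3574 : SCfg where
  D := {
    a := 8
    L := 11
    kp := 8
    inn := [(0, 1), (1, 0), (1, 2), (1, 3), (1, 4), (1, 5), (2, 1), (2, 3), (3, 1), (3, 2), (3, 4), (3,
      6), (3, 7), (4, 1), (4, 3), (5, 1), (6, 3), (7, 3)]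
    mix := [(0, 0), (0, 1), (0, 2), (1, 0), (1, 2), (1, 3), (2, 3), (2, 4), (3, 4), (3, 5), (3, 6), (4,
      0), (4, 6), (4, 7), (5, 2), (5, 3), (5, 8), (6, 4), (6, 5), (6, 9), (7, 5), (7, 6), (7, 10)]
    cl := [0, 4, 2, 0, 1, 3, 1, 5, 6, 7, 8]
    chq := [(0, 2), (1, 3), (2, 0), (3, 1)]
    rng := [(0, 1), (0, 7), (1, 0), (1, 2), (2, 1), (2, 8), (3, 4), (3, 8), (4, 3), (4, 9), (5, 9), (5,
      10), (6, 7), (6, 10), (7, 0), (7, 6), (8, 2), (8, 3), (9, 4), (9, 5), (10, 5), (10, 6)]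
    lev := [] }
  links := [[1, 8, 9, 10], [8, 0, 10, 5, 11, 2, 3, 4], [3, 1, 11, 12], [4, 1, 2, 12, 6, 13, 7, 14], [8,
    1, 3, 14, 15], [11, 1, 10, 16], [13, 3, 12, 17], [14, 3, 13, 18]]
  P := {
    a := 8
    N := 19
    nb := [1794, 3389, 6154, 28886, 49418, 68610, 143368, 286728, 33299, 1281, 66083, 69670, 133196,
      393416, 295064, 16656, 3104, 12352, 24704]
    tri := [(0, 1, 8), (0, 1, 10), (0, 8, 9), (0, 9, 10), (1, 2, 3), (1, 2, 11), (1, 3, 4), (1, 4, 8),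
      (1, 5, 10), (1, 5, 11), (2, 3, 12), (2, 11, 12), (3, 4, 14), (3, 6, 12), (3, 6, 13), (3, 7,
      13), (3, 7, 14), (4, 8, 15), (4, 14, 15), (5, 10, 16), (5, 11, 16), (6, 12, 17), (6, 13,
      17), (7, 13, 18), (7, 14, 18)]
    fin := [0, 0, 0, 3, 0, 0, 3, 3, 0, 9, 10, 0, 3, 13, 3, 15, 16, 17, 18]
    chd := [(0, 10), (3, 13)]
    steps := [(0, 1), (0, 2), (0, 4), (0, 5), (0, 8), (0, 11), (3, 6), (3, 7), (3, 12), (3, 14)] }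
  rep := [0, 3, 10, 13, 9, 15, 16, 17, 18]

noncomputable def v3574 : Cov.CovD where
  P := 3
  N := 6
  pl := [1, 7, 8, 9, 10]
  lev := [⟨[], [], [(0, 2)], [4], [(0, 0, [2]), (2, 2, [0])]⟩,
    ⟨[], [(0, 0), (0, 2)], [(0, 0), (0, 2)], [], [(0, 0, [2]), (2, 2, [0]), (3, 0, [2])]⟩,
    ⟨[(0, 1)], [(1, 0), (1, 1), (1, 2)], [(0, 1)], [], [(3, 0, [2]), (4, 1, [3])]⟩,
    ⟨[(0, 1), (1, 2)], [(1, 0), (1, 1), (1, 2), (1, 3), (2, 0), (2, 1), (2, 3)], [(1, 1),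
      (1, 3)], [], [(4, 1, [3]), (5, 3, [1]), (6, 1, [3])]⟩,
    ⟨[(0, 1), (1, 2), (1, 3), (2, 3)], [(0, 0), (1, 0), (1, 1), (1, 2), (3, 0), (3, 1), (3,
      3)], [(0, 1)], [5], [(0, 0, [2]), (6, 1, [3])]⟩,
    ⟨[(0, 1), (1, 2), (1, 3), (1, 4)], [(0, 2), (1, 0), (1, 2), (2, 0)], [(0, 2)], [6],
      [(2, 2, [0]), (3, 0, [2])]⟩,
    ⟨[(1, 3), (2, 3), (3, 4)], [(2, 1), (3, 1), (3, 3)], [(1, 3)], [7], [(4, 1, [3]), (5,
      3, [1])]⟩,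
    ⟨[(1, 3), (2, 3), (3, 4), (3, 6)], [(3, 1), (3, 3), (4, 1), (6, 3)], [(1, 3)], [8],
      [(5, 3, [1]), (6, 1, [3])]⟩]
  Ta := [((0, 1), 0, 4), ((0, 7), 0, 5), ((3, 4), 0, 1), ((3, 8), 0, 6), ((4, 3), 1, 0), ((4, 9),
    1, 7), ((6, 7), 1, 5), ((6, 10), 1, 8)]
  Tb := [((0, 1, 7), 0, 4, 5), ((1, 0, 2), 4, 0, 2), ((2, 1, 8), 2, 4, 6), ((3, 4, 8), 0, 1, 6),
    ((4, 3, 9), 1, 0, 7), ((5, 9, 10), 3, 7, 8), ((6, 7, 10), 1, 5, 8), ((7, 0, 6), 5, 0, 1),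
    ((8, 2, 3), 6, 2, 0), ((9, 4, 5), 7, 1, 3), ((10, 5, 6), 8, 3, 1)]
  Tc := []
  Td := [((0, 2), (0, 1), 4), ((0, 2), (0, 7), 5), ((0, 2), (3, 4), 1), ((0, 2), (3, 8), 6), ((1,
    3), (4, 3), 0), ((1, 3), (4, 9), 7), ((1, 3), (6, 7), 5), ((1, 3), (6, 10), 8), ((2, 0),
    (2, 1), 4), ((2, 0), (2, 8), 6), ((3, 1), (5, 9), 7), ((3, 1), (5, 10), 8)]
  G := [[0, 0, 0x21619a1235d225a1c12622d2c2da18121116144695c5c562184e,
    0x8191285cd1255c1d128c4c81d12484151295cd1298cc,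
    0x2412cc1c2818952d1826d1cd42c91d1294cd125415128c8a], [0, 0,
    0x85a94576141892189bc18429249aa184941752c1486e,
    0x88144244148218d214d54618dc318948c148ec9214452148131884de158c71cd42484d428881cc,
    0x44614c21821cc1cb1958b1cd82d21898915431c51115c171c8c2a], [0,
    0x11a4124c211c411c14ca4611a81168c211c818468ac1,
    0x6192168e1a25225a1c125852218421a25c14322d299c1892e,
    0xc81d4248415415c28198295cd95cdc2d48c828cc1,
    0x422d81842421d81842c95d22948d225415228198295cd82dc8b], [0, 0,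
    0x145795aa148252841714e149292c18c249a993a1814e,
    0x824444244d435947c49c8c49888cc4e4284828885cbd2c8d428884444c848c8ec1,
    0x1ca8caa849871947a414752ac51c87558ea48c21]]

noncomputable def n3574 : Ent := ⟨e3574, noF, [], [], [(9, 17, [31810150492402119267275227079217218666319002904815489586567506653228240897, 0]), (9, 18, [30043303427623734937691929578474300150491519007939870628445900451935629313, 0]), (16, 17, [31810150492402119267275227079217218666319002904815489586567506653228253185, 0]), (16, 18, [30043303427623734937691929578474300150491519007939870628445900451935637505, 0])]⟩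

def c3574 : PLift (Cov.check n3574.C.D v3574 = true) := ⟨by decide +kernel⟩

def b3574 : PLift (entF (fidx ts) 400 3574 n3574 = true) := ⟨by decide +kernel⟩

theorem g3574 : GoodF (fidx ts) 400 3574 := GoodF.ofV v3574 n3574 c3574.down b3574.down

/-- 474748444:2708/2 -/
noncomputable def e3575 : SCfg where
  D := {
    a := 9
    L := 9
    kp := 6
    inn := [(0, 1), (0, 5), (1, 0), (1, 2), (1, 3), (1, 4), (1, 5), (2, 1), (2, 3), (3, 1), (3, 2), (3,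
      6), (3, 8), (4, 1), (4, 5), (5, 0), (5, 1), (5, 4), (5, 7), (6, 3), (7, 5), (8, 3)]
    mix := [(0, 0), (0, 1), (1, 1), (1, 2), (2, 1), (2, 3), (3, 2), (3, 3), (3, 4), (4, 2), (4, 5), (5,
      0), (5, 5), (5, 6), (5, 7), (6, 0), (6, 3), (6, 4), (7, 5), (7, 6), (7, 8), (8, 2), (8, 4),
      (8, 8)]
    cl := [2, 0, 0, 4, 3, 1, 5, 1, 6]
    chq := [(0, 3), (3, 0), (3, 4), (4, 3)]
    rng := [(0, 1), (0, 3), (0, 4), (0, 7), (1, 0), (1, 3), (2, 5), (2, 8), (3, 0), (3, 1), (4, 0), (4,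
      8), (5, 2), (5, 8), (6, 7), (6, 8), (7, 0), (7, 6), (8, 2), (8, 4), (8, 5), (8, 6)]
    lev := [] }
  links := [[1, 5, 9, 10], [5, 0, 10, 2, 3, 11, 4], [3, 1, 10, 12], [11, 1, 2, 12, 6, 13, 8], [5, 1, 11,
    14], [9, 0, 1, 4, 14, 7, 15, 16], [13, 3, 12, 9], [15, 5, 14, 17], [11, 3, 13, 17]]
  P := {
    a := 9
    N := 18
    nb := [1570, 3133, 5130, 14662, 18466, 115347, 12808, 180256, 141320, 78945, 4615, 147738, 1612,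
      131912, 133296, 196768, 33312, 59776]
    tri := [(0, 1, 5), (0, 1, 10), (0, 5, 9), (0, 9, 10), (1, 2, 3), (1, 2, 10), (1, 3, 11), (1, 4, 5),
      (1, 4, 11), (2, 3, 12), (2, 10, 12), (3, 6, 12), (3, 6, 13), (3, 8, 11), (3, 8, 13), (4, 5,
      14), (4, 11, 14), (5, 7, 14), (5, 7, 15), (5, 9, 16), (5, 15, 16), (6, 9, 12), (6, 9, 13),
      (7, 14, 17), (7, 15, 17), (8, 11, 17), (8, 13, 17)]
    fin := [0, 0, 2, 2, 0, 5, 6, 7, 2, 0, 2, 2, 6, 13, 5, 15, 5, 7]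
    chd := [(2, 13), (6, 13)]
    steps := [(0, 1), (0, 4), (0, 9), (2, 3), (2, 8), (2, 10), (2, 11), (5, 14), (5, 16), (6, 12), (7,
      17)] }
  rep := [2, 5, 0, 13, 6, 15, 7]

noncomputable def v3575 : Cov.CovD where
  P := 3
  N := 4
  pl := [0, 6, 8]
  lev := [⟨[], [], [], [2], [(1, 0, [3])]⟩,
    ⟨[], [(0, 0)], [(0, 0)], [], [(1, 0, [3]), (2, 0, [3])]⟩,
    ⟨[(0, 1)], [(0, 0), (1, 0), (1, 4)], [(0, 4)], [], [(1, 0, [3]), (3, 4, [3])]⟩,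
    ⟨[(0, 1), (1, 2)], [(1, 0), (1, 3), (1, 4), (2, 0), (2, 3), (2, 4)], [(0, 3), (0, 4),
      (3, 4)], [], [(2, 0, [3]), (3, 4, [3]), (4, 3, [0, 4])]⟩,
    ⟨[(0, 1), (1, 2), (1, 3)], [(1, 0), (1, 1), (3, 0)], [(0, 1)], [], [(2, 0, [3]), (5, 1,
      [])]⟩,
    ⟨[(0, 1), (0, 4), (1, 2), (1, 3), (1, 4)], [(0, 0), (0, 1), (1, 0), (1, 1), (4, 0), (4,
      1)], [(1, 1)], [2, 5], [(5, 1, []), (7, 1, [])]⟩,
    ⟨[(1, 3), (2, 3)], [(2, 4), (3, 0), (3, 3), (3, 4)], [(3, 4)], [2], [(3, 4, [3]), (4,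
      3, [0, 4])]⟩,
    ⟨[(0, 5), (1, 5), (4, 5)], [(4, 1), (5, 1)], [], [5, 6], [(5, 1, [])]⟩,
    ⟨[(1, 3), (2, 3), (3, 6)], [(1, 0), (3, 0), (3, 3), (3, 4), (4, 0), (6, 3)], [(0, 3)],
      [6], [(2, 0, [3]), (4, 3, [0, 4])]⟩]
  Ta := [((1, 0), 0, 2), ((1, 3), 0, 4), ((2, 5), 0, 1), ((2, 8), 0, 6), ((5, 2), 1, 0), ((5, 8),
    1, 6), ((7, 0), 1, 2), ((7, 6), 1, 5)]
  Tb := [((0, 1, 3), 2, 0, 4), ((0, 1, 4), 2, 0, 3), ((0, 1, 7), 2, 0, 1), ((0, 3, 4), 2, 4, 3),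
    ((0, 3, 7), 2, 4, 1), ((0, 4, 7), 2, 3, 1), ((1, 0, 3), 0, 2, 4), ((2, 5, 8), 0, 1, 6),
    ((3, 0, 1), 4, 2, 0), ((4, 0, 8), 3, 2, 6), ((5, 2, 8), 1, 0, 6), ((6, 7, 8), 5, 1, 6),
    ((7, 0, 6), 1, 2, 5), ((8, 2, 4), 6, 0, 3), ((8, 2, 5), 6, 0, 1), ((8, 2, 6), 6, 0, 5),
    ((8, 4, 5), 6, 3, 1), ((8, 4, 6), 6, 3, 5), ((8, 5, 6), 6, 1, 5)]
  Tc := [(3, 0, 4)]
  Td := [((0, 3), (1, 0), 2), ((0, 3), (1, 3), 4), ((0, 3), (2, 5), 1), ((0, 3), (2, 8), 6), ((3,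
    0), (4, 0), 2), ((3, 0), (4, 8), 6), ((3, 4), (4, 0), 2), ((3, 4), (4, 8), 6), ((4, 3),
    (3, 0), 2), ((4, 3), (3, 1), 0)]
  G := [[0, 0, 0x11484868d44a4851188424ad4489c2a124c1849e22de8c124a, 0,
    0x14c8718948811c911194a21481189411c93c311b1394c462], [0, 0,
    0xe121ce222cc4111484222c2216c45a28, 0x211191222294322221522225c12c84,
    0x21112218911214a83111123238c412811894222242949668], [0,
    0x2261822a1462144a86942e21a4ae1c2c4148e1648184288184286a18248182cd2c, 0, 0,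
    0x86c18e5194e2c1c421394a14e511a4c18c4162], [0, 0, 0, 0x221221542188,
    0x86c16e5192a11182218225116e14a61421984162]]

noncomputable def n3575 : Ent := ⟨e3575, noF, [], [], []⟩

def c3575 : PLift (Cov.check n3575.C.D v3575 = true) := ⟨by decide +kernel⟩

def b3575 : PLift (entF (fidx ts) 400 3575 n3575 = true) := ⟨by decide +kernel⟩

theorem g3575 : GoodF (fidx ts) 400 3575 := GoodF.ofV v3575 n3575 c3575.down b3575.down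

/-- 474748444:2708/1 -/
noncomputable def e3576 : SCfg where
  D := {
    a := 9
    L := 10
    kp := 7
    inn := [(0, 1), (0, 5), (1, 0), (1, 2), (1, 3), (1, 4), (1, 5), (2, 1), (2, 3), (3, 1), (3, 2), (3,
      6), (3, 8), (4, 1), (4, 5), (5, 0), (5, 1), (5, 4), (5, 7), (6, 3), (7, 5), (8, 3)]
    mix := [(0, 0), (0, 1), (1, 1), (1, 2), (2, 1), (2, 3), (3, 2), (3, 3), (3, 4), (4, 2), (4, 5), (5,
      0), (5, 5), (5, 6), (5, 7), (6, 0), (6, 3), (6, 4), (7, 5), (7, 6), (7, 8), (8, 2), (8, 4),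
      (8, 9)]
    cl := [2, 0, 0, 4, 3, 1, 5, 1, 6, 7]
    chq := [(0, 3), (3, 0), (3, 4), (4, 3)]
    rng := [(0, 1), (0, 3), (0, 4), (0, 7), (1, 0), (1, 3), (2, 5), (2, 9), (3, 0), (3, 1), (4, 0), (4,
      9), (5, 2), (5, 8), (6, 7), (6, 8), (7, 0), (7, 6), (8, 5), (8, 6), (9, 2), (9, 4)]
    lev := [] }
  links := [[1, 5, 9, 10], [5, 0, 10, 2, 3, 11, 4], [3, 1, 10, 12], [11, 1, 2, 12, 6, 13, 8], [5, 1, 11,
    14], [9, 0, 1, 4, 14, 7, 15, 16], [13, 3, 12, 9], [15, 5, 14, 17], [11, 3, 13, 18]]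
  P := {
    a := 9
    N := 19
    nb := [1570, 3133, 5130, 14662, 18466, 115347, 12808, 180256, 272392, 78945, 4615, 278810, 1612,
      262984, 133296, 196768, 33312, 49280, 10496]
    tri := [(0, 1, 5), (0, 1, 10), (0, 5, 9), (0, 9, 10), (1, 2, 3), (1, 2, 10), (1, 3, 11), (1, 4, 5),
      (1, 4, 11), (2, 3, 12), (2, 10, 12), (3, 6, 12), (3, 6, 13), (3, 8, 11), (3, 8, 13), (4, 5,
      14), (4, 11, 14), (5, 7, 14), (5, 7, 15), (5, 9, 16), (5, 15, 16), (6, 9, 12), (6, 9, 13),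
      (7, 14, 17), (7, 15, 17), (8, 11, 18), (8, 13, 18)]
    fin := [0, 0, 2, 2, 0, 5, 6, 5, 2, 0, 2, 2, 6, 13, 5, 15, 5, 17, 18]
    chd := [(2, 13), (6, 13)]
    steps := [(0, 1), (0, 4), (0, 9), (2, 3), (2, 8), (2, 10), (2, 11), (5, 7), (5, 14), (5, 16), (6,
      12)] }
  rep := [2, 5, 0, 13, 6, 15, 17, 18]

noncomputable def v3576 : Cov.CovD where
  P := 3
  N := 5
  pl := [0, 6, 8, 9]
  lev := [⟨[], [], [], [2], [(1, 0, [3])]⟩,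
    ⟨[], [(0, 0)], [(0, 0)], [], [(1, 0, [3]), (2, 0, [3])]⟩,
    ⟨[(0, 1)], [(0, 0), (1, 0), (1, 4)], [(0, 4)], [], [(1, 0, [3]), (3, 4, [3])]⟩,
    ⟨[(0, 1), (1, 2)], [(1, 0), (1, 3), (1, 4), (2, 0), (2, 3), (2, 4)], [(0, 3), (0, 4),
      (3, 4)], [], [(2, 0, [3]), (3, 4, [3]), (4, 3, [0, 4])]⟩,
    ⟨[(0, 1), (1, 2), (1, 3)], [(1, 0), (1, 1), (3, 0)], [(0, 1)], [], [(2, 0, [3]), (5, 1,
      [])]⟩,
    ⟨[(0, 1), (0, 4), (1, 2), (1, 3), (1, 4)], [(0, 0), (0, 1), (1, 0), (1, 1), (4, 0), (4,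
      1)], [(1, 1)], [2, 5], [(5, 1, []), (7, 1, [])]⟩,
    ⟨[(1, 3), (2, 3)], [(2, 4), (3, 0), (3, 3), (3, 4)], [(3, 4)], [2], [(3, 4, [3]), (4,
      3, [0, 4])]⟩,
    ⟨[(0, 5), (1, 5), (4, 5)], [(4, 1), (5, 1)], [], [5, 6], [(5, 1, [])]⟩,
    ⟨[(1, 3), (2, 3), (3, 6)], [(1, 0), (3, 0), (3, 3), (3, 4), (4, 0), (6, 3)], [(0, 3)],
      [7], [(2, 0, [3]), (4, 3, [0, 4])]⟩]
  Ta := [((1, 0), 0, 2), ((1, 3), 0, 4), ((2, 5), 0, 1), ((2, 9), 0, 7), ((5, 2), 1, 0), ((5, 8),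
    1, 6), ((7, 0), 1, 2), ((7, 6), 1, 5)]
  Tb := [((0, 1, 3), 2, 0, 4), ((0, 1, 4), 2, 0, 3), ((0, 1, 7), 2, 0, 1), ((0, 3, 4), 2, 4, 3),
    ((0, 3, 7), 2, 4, 1), ((0, 4, 7), 2, 3, 1), ((1, 0, 3), 0, 2, 4), ((2, 5, 9), 0, 1, 7),
    ((3, 0, 1), 4, 2, 0), ((4, 0, 9), 3, 2, 7), ((5, 2, 8), 1, 0, 6), ((6, 7, 8), 5, 1, 6),
    ((7, 0, 6), 1, 2, 5), ((8, 5, 6), 6, 1, 5), ((9, 2, 4), 7, 0, 3)]
  Tc := [(3, 0, 4)]
  Td := [((0, 3), (1, 0), 2), ((0, 3), (1, 3), 4), ((0, 3), (2, 5), 1), ((0, 3), (2, 9), 7), ((3,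
    0), (4, 0), 2), ((3, 0), (4, 9), 7), ((3, 4), (4, 0), 2), ((3, 4), (4, 9), 7), ((4, 3),
    (3, 0), 2), ((4, 3), (3, 1), 0)]
  G := [[0, 0, 0xee524c1e1a8c12ec584c868a8c11198118c4ee544ee9a868c9ca2, 0,
    0x719491ccc18919c1515194a255c85158941159b53131c93c38cc462], [0, 0,
    0x115242211a44446cc36e6768412a11a41134c4ee98e262ac4582a, 0x22448422921252d524292d98224c,
    0xb21bb51944412811589811c2115292a71681ca198d1c112194a6c2], [0,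
    0x241422144ae6948ee6142248cc4148e1ae214821eea182eea182a1eca18441ec, 0, 0,
    0x881cc51942eec1ee51946ec1225194a3eec1ee51944162], [0, 0, 0, 0xe2114218e2188214c,
    0xe2114418e21ee519421eec1e2194eec184c1aa]]

noncomputable def n3576 : Ent := ⟨e3576, noF, [], [], [(18, 17, [31810150492402119267275227079217218666319002904815489586567506653228265473, 0])]⟩

def c3576 : PLift (Cov.check n3576.C.D v3576 = true) := ⟨by decide +kernel⟩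

def b3576 : PLift (entF (fidx ts) 400 3576 n3576 = true) := ⟨by decide +kernel⟩

theorem g3576 : GoodF (fidx ts) 400 3576 := GoodF.ofV v3576 n3576 c3576.down b3576.down

/-- 474748444:2708/4 -/
noncomputable def e3577 : SCfg where
  D := {
    a := 9
    L := 9
    kp := 7
    inn := [(0, 1), (0, 5), (1, 0), (1, 2), (1, 3), (1, 4), (1, 5), (2, 1), (2, 3), (3, 1), (3, 2), (3,
      6), (3, 8), (4, 1), (4, 5), (5, 0), (5, 1), (5, 4), (5, 7), (6, 3), (7, 5), (8, 3)]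
    mix := [(0, 0), (0, 1), (1, 1), (1, 2), (2, 1), (2, 3), (3, 2), (3, 3), (3, 4), (4, 2), (4, 5), (5,
      0), (5, 5), (5, 6), (5, 7), (6, 3), (6, 4), (6, 8), (7, 5), (7, 6), (7, 8), (8, 2), (8, 4),
      (8, 5)]
    cl := [0, 2, 1, 3, 4, 0, 5, 7, 6]
    chq := [(0, 5), (1, 2), (1, 3), (1, 4), (1, 6), (2, 1), (3, 1), (4, 1), (5, 0), (6, 1)]
    rng := [(0, 1), (0, 7), (1, 0), (1, 3), (2, 5), (3, 1), (3, 8), (4, 5), (4, 8), (5, 2), (5, 4), (5,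
      8), (6, 7), (6, 8), (7, 0), (7, 6), (8, 3), (8, 4), (8, 5), (8, 6)]
    lev := [] }
  links := [[1, 5, 9, 10], [5, 0, 10, 2, 3, 11, 4], [3, 1, 10, 12], [11, 1, 2, 12, 6, 13, 8], [5, 1, 11,
    14], [9, 0, 1, 4, 14, 7, 15, 16], [13, 3, 12, 17], [15, 5, 14, 17], [11, 3, 13, 14]]
  P := {
    a := 9
    N := 18
    nb := [1570, 3133, 5130, 14662, 18466, 115347, 143368, 180256, 26632, 66593, 4615, 16666, 132172,
      147784, 141744, 196768, 33312, 61632]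
    tri := [(0, 1, 5), (0, 1, 10), (0, 5, 9), (0, 9, 10), (1, 2, 3), (1, 2, 10), (1, 3, 11), (1, 4, 5),
      (1, 4, 11), (2, 3, 12), (2, 10, 12), (3, 6, 12), (3, 6, 13), (3, 8, 11), (3, 8, 13), (4, 5,
      14), (4, 11, 14), (5, 7, 14), (5, 7, 15), (5, 9, 16), (5, 15, 16), (6, 12, 17), (6, 13, 17),
      (7, 14, 17), (7, 15, 17), (8, 11, 14), (8, 13, 14)]
    fin := [0, 0, 2, 3, 0, 0, 6, 0, 0, 0, 2, 3, 12, 13, 0, 15, 16, 6]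
    chd := [(0, 15), (2, 3), (3, 6), (3, 12), (3, 13)]
    steps := [(0, 1), (0, 4), (0, 5), (0, 7), (0, 9), (0, 14), (2, 10), (3, 11), (0, 8), (6, 17)] }
  rep := [0, 3, 2, 12, 13, 15, 6, 16]

noncomputable def v3577 : Cov.CovD where
  P := 3
  N := 5
  pl := [7]
  lev := [⟨[], [], [(0, 2)], [], [(0, 0, [5]), (1, 2, [1])]⟩,
    ⟨[], [(0, 0), (0, 1), (0, 2)], [(1, 2)], [], [(1, 2, [1]), (2, 1, [2, 3, 4, 6])]⟩,
    ⟨[(0, 1)], [(0, 2), (1, 1), (1, 2), (1, 3)], [(2, 3)], [], [(1, 2, [1]), (3, 3, [1])]⟩,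
    ⟨[(0, 1), (1, 2)], [(1, 1), (1, 2), (1, 3), (1, 4), (2, 1), (2, 2), (2, 3), (2, 4)],
      [(1, 3), (1, 4), (3, 4)], [], [(2, 1, [2, 3, 4, 6]), (3, 3, [1]), (4, 4, [1])]⟩,
    ⟨[(0, 1), (1, 2), (1, 3)], [(1, 0), (1, 1), (1, 2), (3, 1)], [(0, 1)], [], [(2, 1, [2,
      3, 4, 6]), (5, 0, [5])]⟩,
    ⟨[(0, 1), (0, 4), (1, 2), (1, 3), (1, 4)], [(0, 0), (0, 2), (0, 5), (1, 0), (1, 1), (1,
      2), (1, 5), (4, 0), (4, 1), (4, 5)], [(0, 0), (0, 5)], [7], [(0, 0, [5]), (5, 0, [5]),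
      (6, 5, [0])]⟩,
    ⟨[(1, 3), (2, 3)], [(2, 3), (3, 1), (3, 3), (3, 4), (3, 6)], [(3, 4), (3, 6), (4, 6)],
      [], [(3, 3, [1]), (4, 4, [1]), (8, 6, [1])]⟩,
    ⟨[(0, 5), (1, 5), (4, 5)], [(4, 0), (5, 0), (5, 5), (5, 6), (6, 6)], [(0, 5), (0, 6),
      (5, 6)], [], [(5, 0, [5]), (6, 5, [0]), (8, 6, [1])]⟩,
    ⟨[(1, 3), (2, 3), (3, 6)], [(1, 1), (3, 0), (3, 1), (3, 3), (3, 4), (4, 0), (4, 1), (5,
      0), (6, 4), (7, 0)], [(0, 1), (0, 4), (1, 4)], [], [(2, 1, [2, 3, 4, 6]), (4, 4, [1]),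
      (5, 0, [5])]⟩]
  Ta := [((0, 1), 0, 2), ((0, 7), 0, 7), ((5, 2), 0, 1), ((5, 4), 0, 4), ((5, 8), 0, 6)]
  Tb := [((0, 1, 7), 0, 2, 7), ((1, 0, 3), 2, 0, 3), ((3, 1, 8), 3, 2, 6), ((4, 5, 8), 4, 0, 6),
    ((5, 2, 4), 0, 1, 4), ((5, 2, 8), 0, 1, 6), ((5, 4, 8), 0, 4, 6), ((6, 7, 8), 5, 7, 6),
    ((7, 0, 6), 7, 0, 5), ((8, 3, 4), 6, 3, 4), ((8, 3, 5), 6, 3, 0), ((8, 3, 6), 6, 3, 5),
    ((8, 4, 5), 6, 4, 0), ((8, 4, 6), 6, 4, 5), ((8, 5, 6), 6, 0, 5)]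
  Tc := [(1, 2, 3), (1, 2, 4), (1, 2, 6), (1, 3, 4), (1, 3, 6), (1, 4, 6)]
  Td := [((0, 5), (0, 1), 2), ((0, 5), (0, 7), 7), ((0, 5), (5, 2), 1), ((0, 5), (5, 4), 4), ((0,
    5), (5, 8), 6), ((1, 2), (2, 5), 0), ((1, 3), (2, 5), 0), ((1, 4), (2, 5), 0), ((1, 6),
    (2, 5), 0), ((2, 1), (1, 0), 0), ((2, 1), (1, 3), 3), ((3, 1), (3, 1), 2), ((3, 1), (3,
    8), 6), ((4, 1), (4, 5), 0), ((4, 1), (4, 8), 6), ((5, 0), (6, 7), 7), ((5, 0), (6, 8),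
    6), ((6, 1), (8, 3), 3), ((6, 1), (8, 4), 4), ((6, 1), (8, 5), 0), ((6, 1), (8, 6), 5)]
  G := [[0, 0, 0xc11c116c118c1284, 0x2122832822e8422282232212222e8d212121232c44486,
    0x445214324492e4cc31cc31c11e452122142c888128121892e88a92], [0,
    0x64142844e12444e14a222e1222e168e188a1488e16888e18aaaae182222e182e1c1, 0,
    0x28226a222a422a24442e2222ac226222a2222e2828cd212424842424815222e2488896,
    0x42a44888ee288e26844a2424e264c2148284128888ea844424886444e68c88284da122224ccce24cc6222ce2ac918b]]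

noncomputable def n3577 : Ent := ⟨e3577, noF, [], [], []⟩

def c3577 : PLift (Cov.check n3577.C.D v3577 = true) := ⟨by decide +kernel⟩

def b3577 : PLift (entF (fidx ts) 400 3577 n3577 = true) := ⟨by decide +kernel⟩

theorem g3577 : GoodF (fidx ts) 400 3577 := GoodF.ofV v3577 n3577 c3577.down b3577.down

/-- 474748444:2708/3 -/
noncomputable def e3578 : SCfg where
  D := {
    a := 9
    L := 10
    kp := 7
    inn := [(0, 1), (0, 5), (1, 0), (1, 2), (1, 3), (1, 4), (1, 5), (2, 1), (2, 3), (3, 1), (3, 2), (3,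
      6), (3, 8), (4, 1), (4, 5), (5, 0), (5, 1), (5, 4), (5, 7), (6, 3), (7, 5), (8, 3)]
    mix := [(0, 0), (0, 1), (1, 1), (1, 2), (2, 1), (2, 3), (3, 2), (3, 3), (3, 4), (4, 2), (4, 5), (5,
      0), (5, 5), (5, 6), (5, 7), (6, 3), (6, 4), (6, 8), (7, 5), (7, 6), (7, 8), (8, 2), (8, 4),
      (8, 9)]
    cl := [4, 0, 0, 1, 3, 2, 5, 2, 6, 7]
    chq := [(1, 3), (1, 7), (3, 1), (7, 1)]
    rng := [(0, 1), (0, 7), (1, 0), (1, 3), (2, 5), (2, 9), (3, 1), (3, 8), (4, 8), (4, 9), (5, 2), (5,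
      8), (6, 7), (6, 8), (7, 0), (7, 6), (8, 3), (8, 4), (8, 5), (8, 6), (9, 2), (9, 4)]
    lev := [] }
  links := [[1, 5, 9, 10], [5, 0, 10, 2, 3, 11, 4], [3, 1, 10, 12], [11, 1, 2, 12, 6, 13, 8], [5, 1, 11,
    14], [9, 0, 1, 4, 14, 7, 15, 16], [13, 3, 12, 17], [15, 5, 14, 17], [11, 3, 13, 18]]
  P := {
    a := 9
    N := 19
    nb := [1570, 3133, 5130, 14662, 18466, 115347, 143368, 180256, 272392, 66593, 4615, 278810,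
      132172, 393544, 133296, 196768, 33312, 61632, 10496]
    tri := [(0, 1, 5), (0, 1, 10), (0, 5, 9), (0, 9, 10), (1, 2, 3), (1, 2, 10), (1, 3, 11), (1, 4, 5),
      (1, 4, 11), (2, 3, 12), (2, 10, 12), (3, 6, 12), (3, 6, 13), (3, 8, 11), (3, 8, 13), (4, 5,
      14), (4, 11, 14), (5, 7, 14), (5, 7, 15), (5, 9, 16), (5, 15, 16), (6, 12, 17), (6, 13, 17),
      (7, 14, 17), (7, 15, 17), (8, 11, 18), (8, 13, 18)]
    fin := [0, 1, 1, 3, 1, 5, 3, 7, 3, 0, 1, 1, 3, 13, 5, 15, 5, 7, 18]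
    chd := [(3, 13), (3, 18)]
    steps := [(0, 9), (1, 2), (1, 4), (1, 10), (1, 11), (3, 6), (3, 8), (3, 12), (5, 14), (5, 16), (7,
      17)] }
  rep := [1, 3, 5, 13, 0, 15, 7, 18]

noncomputable def v3578 : Cov.CovD where
  P := 3
  N := 5
  pl := [0, 6, 8]
  lev := [⟨[], [], [], [4], [(1, 0, [])]⟩,
    ⟨[], [(0, 0)], [(0, 0)], [], [(1, 0, []), (2, 0, [])]⟩,
    ⟨[(0, 1)], [(0, 0), (1, 0), (1, 1)], [(0, 1)], [], [(1, 0, []), (3, 1, [3, 7])]⟩,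
    ⟨[(0, 1), (1, 2)], [(1, 0), (1, 1), (1, 3), (2, 0), (2, 1), (2, 3)], [(0, 1), (0, 3),
      (1, 3)], [], [(2, 0, []), (3, 1, [3, 7]), (4, 3, [1])]⟩,
    ⟨[(0, 1), (1, 2), (1, 3)], [(1, 0), (1, 2), (3, 0)], [(0, 2)], [], [(2, 0, []), (5, 2,
      [])]⟩,
    ⟨[(0, 1), (0, 4), (1, 2), (1, 3), (1, 4)], [(0, 0), (0, 2), (1, 0), (1, 2), (4, 0), (4,
      2)], [(2, 2)], [4, 5], [(5, 2, []), (7, 2, [])]⟩,
    ⟨[(1, 3), (2, 3)], [(2, 1), (3, 0), (3, 1), (3, 3)], [(1, 3)], [6], [(3, 1, [3, 7]),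
      (4, 3, [1])]⟩,
    ⟨[(0, 5), (1, 5), (4, 5)], [(4, 2), (5, 2)], [], [5, 6], [(5, 2, [])]⟩,
    ⟨[(1, 3), (2, 3), (3, 6)], [(1, 0), (3, 0), (3, 1), (3, 3), (3, 7), (4, 0), (6, 3)],
      [(0, 3), (0, 7), (3, 7)], [], [(2, 0, []), (4, 3, [1]), (9, 7, [1])]⟩]
  Ta := [((1, 0), 0, 4), ((1, 3), 0, 1), ((2, 5), 0, 2), ((2, 9), 0, 7), ((5, 2), 2, 0), ((5, 8),
    2, 6), ((7, 0), 2, 4), ((7, 6), 2, 5)]
  Tb := [((0, 1, 7), 4, 0, 2), ((1, 0, 3), 0, 4, 1), ((2, 5, 9), 0, 2, 7), ((3, 1, 8), 1, 0, 6),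
    ((4, 8, 9), 3, 6, 7), ((5, 2, 8), 2, 0, 6), ((6, 7, 8), 5, 2, 6), ((7, 0, 6), 2, 4, 5),
    ((8, 3, 4), 6, 1, 3), ((8, 3, 5), 6, 1, 2), ((8, 3, 6), 6, 1, 5), ((8, 4, 5), 6, 3, 2),
    ((8, 4, 6), 6, 3, 5), ((8, 5, 6), 6, 2, 5), ((9, 2, 4), 7, 0, 3)]
  Tc := [(1, 3, 7)]
  Td := [((1, 3), (3, 1), 0), ((1, 3), (3, 8), 6), ((1, 7), (3, 1), 0), ((1, 7), (3, 8), 6), ((3,
    1), (4, 8), 6), ((3, 1), (4, 9), 7), ((7, 1), (9, 2), 0), ((7, 1), (9, 4), 3)]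
  G := [[0, 0x1441418611116d1828c41814a41814a1111a9c8c22, 0,
    0x122d185122d11592422954542822592298222d219d24249458c22,
    0x222b21512222322ad23422121228289c28223213d22a1199282192322918122a482d4a4], [0,
    0x1212a841212684c2212248241212c4882a1111c1411214688e, 0,
    0x1218422628522225c1c22229288588c22222522621598422119128249858c26,
    0x2418124412227489c8228824119928422294124425288145225121248289c8e], [0, 0,
    0x2261284222e2222d22822698a8c222e1422422a5281622628522a8ccc861,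
    0x24285222d21552448c4128249222d2195282498c28184c4a2,
    0x2212841282222d22822922a2199a81284222285222b2159a41e4], [0, 0, 0,
    0x22a2191822621514c122222524225c842822922229c48c23,
    0x22a2191424418c12222d42222b48c42424924249a88c25]]

noncomputable def n3578 : Ent := ⟨e3578, noF, [], [], [(18, 14, [30043303427726578972524504956108985724401353414501291620047999193394941953, 0])]⟩

def c3578 : PLift (Cov.check n3578.C.D v3578 = true) := ⟨by decide +kernel⟩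

def b3578 : PLift (entF (fidx ts) 400 3578 n3578 = true) := ⟨by decide +kernel⟩

theorem g3578 : GoodF (fidx ts) 400 3578 := GoodF.ofV v3578 n3578 c3578.down b3578.down

/-- 474748444:2708/7 -/
noncomputable def e3579 : SCfg where
  D := {
    a := 9
    L := 8
    kp := 5
    inn := [(0, 1), (0, 5), (1, 0), (1, 2), (1, 3), (1, 4), (1, 5), (2, 1), (2, 3), (3, 1), (3, 2), (3,
      6), (3, 8), (4, 1), (4, 5), (5, 0), (5, 1), (5, 4), (5, 7), (6, 3), (7, 5), (8, 3)]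
    mix := [(0, 0), (0, 1), (1, 1), (1, 2), (2, 1), (2, 3), (3, 2), (3, 3), (3, 4), (4, 2), (4, 5), (5,
      0), (5, 5), (5, 6), (5, 7), (6, 3), (6, 4), (6, 6), (7, 4), (7, 5), (7, 6), (8, 2), (8, 4),
      (8, 5)]
    cl := [5, 0, 0, 2, 3, 1, 4, 1]
    chq := [(0, 3), (0, 4), (3, 0), (4, 0)]
    rng := [(0, 1), (0, 7), (1, 0), (1, 3), (2, 5), (3, 1), (3, 6), (4, 5), (4, 6), (5, 2), (5, 4), (6,
      3), (6, 4), (6, 7), (7, 0), (7, 6)]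
    lev := [] }
  links := [[1, 5, 9, 10], [5, 0, 10, 2, 3, 11, 4], [3, 1, 10, 12], [11, 1, 2, 12, 6, 13, 8], [5, 1, 11,
    14], [9, 0, 1, 4, 14, 7, 15, 16], [13, 3, 12, 15], [15, 5, 14, 13], [11, 3, 13, 14]]
  P := {
    a := 9
    N := 17
    nb := [1570, 3133, 5130, 14662, 18466, 115347, 45064, 57376, 26632, 66593, 4615, 16666, 33868,
      49608, 10672, 78048, 33312]
    tri := [(0, 1, 5), (0, 1, 10), (0, 5, 9), (0, 9, 10), (1, 2, 3), (1, 2, 10), (1, 3, 11), (1, 4, 5),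
      (1, 4, 11), (2, 3, 12), (2, 10, 12), (3, 6, 12), (3, 6, 13), (3, 8, 11), (3, 8, 13), (4, 5,
      14), (4, 11, 14), (5, 7, 14), (5, 7, 15), (5, 9, 16), (5, 15, 16), (6, 12, 15), (6, 13, 15),
      (7, 13, 14), (7, 13, 15), (8, 11, 14), (8, 13, 14)]
    fin := [0, 0, 2, 2, 0, 5, 2, 7, 2, 0, 2, 2, 12, 13, 5, 7, 5]
    chd := [(2, 7), (2, 13)]
    steps := [(0, 1), (0, 4), (0, 9), (2, 3), (2, 6), (2, 8), (2, 10), (2, 11), (5, 14), (5, 16), (7,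
      15)] }
  rep := [2, 5, 12, 13, 7, 0]

noncomputable def v3579 : Cov.CovD where
  P := 3
  N := 3
  pl := [0, 3]
  lev := [⟨[], [], [], [5], [(1, 0, [3, 4])]⟩,
    ⟨[], [(0, 0)], [(0, 0)], [], [(1, 0, [3, 4]), (2, 0, [3, 4])]⟩,
    ⟨[(0, 1)], [(0, 0), (1, 0)], [], [2], [(1, 0, [3, 4])]⟩,
    ⟨[(0, 1), (1, 2)], [(1, 0), (1, 3), (2, 0), (2, 3)], [(0, 3)], [2], [(2, 0, [3, 4]),
      (4, 3, [0])]⟩,
    ⟨[(0, 1), (1, 2), (1, 3)], [(1, 0), (1, 1), (3, 0)], [(0, 1)], [], [(2, 0, [3, 4]), (5,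
      1, [])]⟩,
    ⟨[(0, 1), (0, 4), (1, 2), (1, 3), (1, 4)], [(0, 0), (0, 1), (0, 4), (1, 0), (1, 1), (1,
      4), (4, 0), (4, 1), (4, 4)], [(1, 1), (1, 4)], [5], [(5, 1, []), (6, 4, [0]), (7, 1,
      [])]⟩,
    ⟨[(1, 3), (2, 3)], [(3, 0), (3, 3), (3, 4), (5, 4)], [(3, 4)], [2], [(4, 3, [0]), (6,
      4, [0])]⟩,
    ⟨[(0, 5), (1, 5), (4, 5)], [(3, 3), (4, 1), (5, 1), (5, 3), (5, 4), (6, 3), (6, 4)],
      [(1, 3), (1, 4), (3, 4)], [], [(4, 3, [0]), (5, 1, []), (6, 4, [0])]⟩,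
    ⟨[(1, 3), (2, 3), (3, 6)], [(1, 0), (3, 0), (3, 1), (3, 3), (4, 0), (4, 1), (5, 1), (6,
      3), (7, 1), (7, 3)], [(0, 1), (0, 3), (1, 3)], [], [(2, 0, [3, 4]), (4, 3, [0]), (5, 1,
      [])]⟩]
  Ta := [((1, 0), 0, 5), ((1, 3), 0, 2), ((2, 5), 0, 1), ((5, 2), 1, 0), ((5, 4), 1, 3), ((7, 0),
    1, 5), ((7, 6), 1, 4)]
  Tb := [((0, 1, 7), 5, 0, 1), ((1, 0, 3), 0, 5, 2), ((3, 1, 6), 2, 0, 4), ((4, 5, 6), 3, 1, 4),
    ((5, 2, 4), 1, 0, 3), ((6, 3, 4), 4, 2, 3), ((6, 3, 7), 4, 2, 1), ((6, 4, 7), 4, 3, 1),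
    ((7, 0, 6), 1, 5, 4)]
  Tc := [(0, 3, 4)]
  Td := [((0, 3), (1, 0), 5), ((0, 3), (1, 3), 2), ((0, 3), (2, 5), 1), ((0, 4), (1, 0), 5), ((0,
    4), (1, 3), 2), ((0, 4), (2, 5), 1), ((3, 0), (4, 5), 1), ((3, 0), (4, 6), 4), ((4, 0),
    (6, 3), 2), ((4, 0), (6, 4), 3), ((4, 0), (6, 7), 1)]
  G := [[0, 0, 0x4881c1811218a442, 0x111111584151441d194414581888894d822,
    0x111844d2941145281814191111d48862], [0, 0, 0x12214248881411e142486,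
    0x1211219442181c82214484811288588c242118482e, 0x111522582844414421881199c228a], [0,
    0x82a1284486128818a8c22a1442461441c2c861, 0, 0x94449514418819188922,
    0x5881914445218a142], [0, 0, 0, 0x211142442518c82821821c8211241c8c423,
    0xc2218214c22184c1162186]]

noncomputable def n3579 : Ent := ⟨e3579, noF, [], [], []⟩

def c3579 : PLift (Cov.check n3579.C.D v3579 = true) := ⟨by decide +kernel⟩

def b3579 : PLift (entF (fidx ts) 400 3579 n3579 = true) := ⟨by decide +kernel⟩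

theorem g3579 : GoodF (fidx ts) 400 3579 := GoodF.ofV v3579 n3579 c3579.down b3579.down

/-- 474748444:2708/6 -/
noncomputable def e3580 : SCfg where
  D := {
    a := 9
    L := 9
    kp := 6
    inn := [(0, 1), (0, 5), (1, 0), (1, 2), (1, 3), (1, 4), (1, 5), (2, 1), (2, 3), (3, 1), (3, 2), (3,
      6), (3, 8), (4, 1), (4, 5), (5, 0), (5, 1), (5, 4), (5, 7), (6, 3), (7, 5), (8, 3)]
    mix := [(0, 0), (0, 1), (1, 1), (1, 2), (2, 1), (2, 3), (3, 2), (3, 3), (3, 4), (4, 2), (4, 5), (5,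
      0), (5, 5), (5, 6), (5, 7), (6, 3), (6, 4), (6, 6), (7, 4), (7, 5), (7, 6), (8, 2), (8, 4),
      (8, 8)]
    cl := [5, 0, 0, 2, 3, 1, 4, 1, 6]
    chq := [(0, 3), (0, 4), (3, 0), (4, 0)]
    rng := [(0, 1), (0, 7), (1, 0), (1, 3), (2, 5), (2, 8), (3, 1), (3, 6), (4, 5), (4, 6), (4, 8), (5,
      2), (5, 4), (6, 3), (6, 4), (6, 7), (7, 0), (7, 6), (8, 2), (8, 4)]
    lev := [] }
  links := [[1, 5, 9, 10], [5, 0, 10, 2, 3, 11, 4], [3, 1, 10, 12], [11, 1, 2, 12, 6, 13, 8], [5, 1, 11,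
    14], [9, 0, 1, 4, 14, 7, 15, 16], [13, 3, 12, 15], [15, 5, 14, 13], [11, 3, 13, 17]]
  P := {
    a := 9
    N := 18
    nb := [1570, 3133, 5130, 14662, 18466, 115347, 45064, 57376, 141320, 66593, 4615, 147738, 33868,
      180680, 10416, 78048, 33312, 10496]
    tri := [(0, 1, 5), (0, 1, 10), (0, 5, 9), (0, 9, 10), (1, 2, 3), (1, 2, 10), (1, 3, 11), (1, 4, 5),
      (1, 4, 11), (2, 3, 12), (2, 10, 12), (3, 6, 12), (3, 6, 13), (3, 8, 11), (3, 8, 13), (4, 5,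
      14), (4, 11, 14), (5, 7, 14), (5, 7, 15), (5, 9, 16), (5, 15, 16), (6, 12, 15), (6, 13, 15),
      (7, 13, 14), (7, 13, 15), (8, 11, 17), (8, 13, 17)]
    fin := [0, 0, 2, 2, 0, 5, 2, 7, 2, 0, 2, 2, 12, 13, 5, 7, 5, 17]
    chd := [(2, 7), (2, 13)]
    steps := [(0, 1), (0, 4), (0, 9), (2, 3), (2, 6), (2, 8), (2, 10), (2, 11), (5, 14), (5, 16), (7,
      15)] }
  rep := [2, 5, 12, 13, 7, 0, 17]

noncomputable def v3580 : Cov.CovD where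
  P := 3
  N := 4
  pl := [0, 3, 8]
  lev := [⟨[], [], [], [5], [(1, 0, [3, 4])]⟩,
    ⟨[], [(0, 0)], [(0, 0)], [], [(1, 0, [3, 4]), (2, 0, [3, 4])]⟩,
    ⟨[(0, 1)], [(0, 0), (1, 0)], [], [2], [(1, 0, [3, 4])]⟩,
    ⟨[(0, 1), (1, 2)], [(1, 0), (1, 3), (2, 0), (2, 3)], [(0, 3)], [2], [(2, 0, [3, 4]),
      (4, 3, [0])]⟩,
    ⟨[(0, 1), (1, 2), (1, 3)], [(1, 0), (1, 1), (3, 0)], [(0, 1)], [], [(2, 0, [3, 4]), (5,
      1, [])]⟩,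
    ⟨[(0, 1), (0, 4), (1, 2), (1, 3), (1, 4)], [(0, 0), (0, 1), (0, 4), (1, 0), (1, 1), (1,
      4), (4, 0), (4, 1), (4, 4)], [(1, 1), (1, 4)], [5], [(5, 1, []), (6, 4, [0]), (7, 1,
      [])]⟩,
    ⟨[(1, 3), (2, 3)], [(3, 0), (3, 3), (3, 4), (5, 4)], [(3, 4)], [2], [(4, 3, [0]), (6,
      4, [0])]⟩,
    ⟨[(0, 5), (1, 5), (4, 5)], [(3, 3), (4, 1), (5, 1), (5, 3), (5, 4), (6, 3), (6, 4)],
      [(1, 3), (1, 4), (3, 4)], [], [(4, 3, [0]), (5, 1, []), (6, 4, [0])]⟩,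
    ⟨[(1, 3), (2, 3), (3, 6)], [(1, 0), (3, 0), (3, 3), (4, 0), (6, 3), (7, 3)], [(0, 3)],
      [6], [(2, 0, [3, 4]), (4, 3, [0])]⟩]
  Ta := [((1, 0), 0, 5), ((1, 3), 0, 2), ((2, 5), 0, 1), ((2, 8), 0, 6), ((5, 2), 1, 0), ((5, 4),
    1, 3), ((7, 0), 1, 5), ((7, 6), 1, 4)]
  Tb := [((0, 1, 7), 5, 0, 1), ((1, 0, 3), 0, 5, 2), ((2, 5, 8), 0, 1, 6), ((3, 1, 6), 2, 0, 4),
    ((4, 5, 6), 3, 1, 4), ((4, 5, 8), 3, 1, 6), ((4, 6, 8), 3, 4, 6), ((5, 2, 4), 1, 0, 3),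
    ((6, 3, 4), 4, 2, 3), ((6, 3, 7), 4, 2, 1), ((6, 4, 7), 4, 3, 1), ((7, 0, 6), 1, 5, 4),
    ((8, 2, 4), 6, 0, 3)]
  Tc := [(0, 3, 4)]
  Td := [((0, 3), (1, 0), 5), ((0, 3), (1, 3), 2), ((0, 3), (2, 5), 1), ((0, 3), (2, 8), 6), ((0,
    4), (1, 0), 5), ((0, 4), (1, 3), 2), ((0, 4), (2, 5), 1), ((0, 4), (2, 8), 6), ((3, 0),
    (4, 5), 1), ((3, 0), (4, 6), 4), ((3, 0), (4, 8), 6), ((4, 0), (6, 3), 2), ((4, 0), (6,
    4), 3), ((4, 0), (6, 7), 1)]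
  G := [[0, 0, 0x1111c1811218a442, 0x1811191111d4111114b4a195d4c822,
    0x11211154113d8211811178949d88a42], [0, 0, 0x11218284181111e142886,
    0xa2111188c12112194c421211115812162158c82c, 0xd221e21452888861591225131842a86], [0,
    0x4c6e1244221248c82128846661e41c848812e81aaa1ca8ce1, 0, 0xb461518478a19188922,
    0x18c1918c1c665318a142], [0, 0, 0, 0x411144118a219414122194cc2a21a11581262514c12c,
    0x12e2314218d2842d318284a]]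

noncomputable def n3580 : Ent := ⟨e3580, noF, [], [], [(17, 14, [6903326468334360900303599070699561856668565975414084080169086038814721, 0])]⟩

def c3580 : PLift (Cov.check n3580.C.D v3580 = true) := ⟨by decide +kernel⟩

def b3580 : PLift (entF (fidx ts) 400 3580 n3580 = true) := ⟨by decide +kernel⟩

theorem g3580 : GoodF (fidx ts) 400 3580 := GoodF.ofV v3580 n3580 c3580.down b3580.down

/-- 474748444:2708/8 -/
noncomputable def e3581 : SCfg where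
  D := {
    a := 9
    L := 9
    kp := 6
    inn := [(0, 1), (0, 5), (1, 0), (1, 2), (1, 3), (1, 4), (1, 5), (2, 1), (2, 3), (3, 1), (3, 2), (3,
      6), (3, 8), (4, 1), (4, 5), (5, 0), (5, 1), (5, 4), (5, 7), (6, 3), (7, 5), (8, 3)]
    mix := [(0, 0), (0, 1), (1, 1), (1, 2), (2, 1), (2, 3), (3, 2), (3, 3), (3, 4), (4, 2), (4, 5), (5,
      0), (5, 5), (5, 6), (5, 7), (6, 3), (6, 4), (6, 6), (7, 5), (7, 6), (7, 8), (8, 2), (8, 4),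
      (8, 5)]
    cl := [5, 0, 0, 2, 3, 1, 4, 1, 6]
    chq := [(0, 3), (0, 4), (3, 0), (4, 0)]
    rng := [(0, 1), (0, 7), (1, 0), (1, 3), (2, 5), (3, 1), (3, 6), (4, 5), (4, 6), (5, 2), (5, 4), (5,
      8), (6, 3), (6, 4), (6, 7), (6, 8), (7, 0), (7, 6), (8, 5), (8, 6)]
    lev := [] }
  links := [[1, 5, 9, 10], [5, 0, 10, 2, 3, 11, 4], [3, 1, 10, 12], [11, 1, 2, 12, 6, 13, 8], [5, 1, 11,
    14], [9, 0, 1, 4, 14, 7, 15, 16], [13, 3, 12, 15], [15, 5, 14, 17], [11, 3, 13, 14]]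
  P := {
    a := 9
    N := 18
    nb := [1570, 3133, 5130, 14662, 18466, 115347, 45064, 180256, 26632, 66593, 4615, 16666, 33868,
      49480, 141744, 209120, 33312, 49280]
    tri := [(0, 1, 5), (0, 1, 10), (0, 5, 9), (0, 9, 10), (1, 2, 3), (1, 2, 10), (1, 3, 11), (1, 4, 5),
      (1, 4, 11), (2, 3, 12), (2, 10, 12), (3, 6, 12), (3, 6, 13), (3, 8, 11), (3, 8, 13), (4, 5,
      14), (4, 11, 14), (5, 7, 14), (5, 7, 15), (5, 9, 16), (5, 15, 16), (6, 12, 15), (6, 13, 15),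
      (7, 14, 17), (7, 15, 17), (8, 11, 14), (8, 13, 14)]
    fin := [0, 0, 2, 2, 0, 5, 2, 7, 2, 0, 2, 2, 12, 13, 5, 7, 5, 17]
    chd := [(2, 7), (2, 13)]
    steps := [(0, 1), (0, 4), (0, 9), (2, 3), (2, 6), (2, 8), (2, 10), (2, 11), (5, 14), (5, 16), (7,
      15)] }
  rep := [2, 5, 12, 13, 7, 0, 17]

noncomputable def v3581 : Cov.CovD where
  P := 3
  N := 4
  pl := [0, 3, 8]
  lev := [⟨[], [], [], [5], [(1, 0, [3, 4])]⟩,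
    ⟨[], [(0, 0)], [(0, 0)], [], [(1, 0, [3, 4]), (2, 0, [3, 4])]⟩,
    ⟨[(0, 1)], [(0, 0), (1, 0)], [], [2], [(1, 0, [3, 4])]⟩,
    ⟨[(0, 1), (1, 2)], [(1, 0), (1, 3), (2, 0), (2, 3)], [(0, 3)], [2], [(2, 0, [3, 4]),
      (4, 3, [0])]⟩,
    ⟨[(0, 1), (1, 2), (1, 3)], [(1, 0), (1, 1), (3, 0)], [(0, 1)], [], [(2, 0, [3, 4]), (5,
      1, [])]⟩,
    ⟨[(0, 1), (0, 4), (1, 2), (1, 3), (1, 4)], [(0, 0), (0, 1), (0, 4), (1, 0), (1, 1), (1,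
      4), (4, 0), (4, 1), (4, 4)], [(1, 1), (1, 4)], [5], [(5, 1, []), (6, 4, [0]), (7, 1,
      [])]⟩,
    ⟨[(1, 3), (2, 3)], [(3, 0), (3, 3), (3, 4), (5, 4)], [(3, 4)], [2], [(4, 3, [0]), (6,
      4, [0])]⟩,
    ⟨[(0, 5), (1, 5), (4, 5)], [(4, 1), (5, 1), (5, 4), (6, 4)], [(1, 4)], [6], [(5, 1,
      []), (6, 4, [0])]⟩,
    ⟨[(1, 3), (2, 3), (3, 6)], [(1, 0), (3, 0), (3, 1), (3, 3), (4, 0), (4, 1), (5, 1), (6,
      3), (7, 1)], [(0, 1), (0, 3), (1, 3)], [], [(2, 0, [3, 4]), (4, 3, [0]), (5, 1, [])]⟩]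
  Ta := [((1, 0), 0, 5), ((1, 3), 0, 2), ((2, 5), 0, 1), ((5, 2), 1, 0), ((5, 4), 1, 3), ((5, 8),
    1, 6), ((7, 0), 1, 5), ((7, 6), 1, 4)]
  Tb := [((0, 1, 7), 5, 0, 1), ((1, 0, 3), 0, 5, 2), ((3, 1, 6), 2, 0, 4), ((4, 5, 6), 3, 1, 4),
    ((5, 2, 4), 1, 0, 3), ((5, 2, 8), 1, 0, 6), ((5, 4, 8), 1, 3, 6), ((6, 3, 4), 4, 2, 3),
    ((6, 3, 7), 4, 2, 1), ((6, 3, 8), 4, 2, 6), ((6, 4, 7), 4, 3, 1), ((6, 4, 8), 4, 3, 6),
    ((6, 7, 8), 4, 1, 6), ((7, 0, 6), 1, 5, 4), ((8, 5, 6), 6, 1, 4)]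
  Tc := [(0, 3, 4)]
  Td := [((0, 3), (1, 0), 5), ((0, 3), (1, 3), 2), ((0, 3), (2, 5), 1), ((0, 4), (1, 0), 5), ((0,
    4), (1, 3), 2), ((0, 4), (2, 5), 1), ((3, 0), (4, 5), 1), ((3, 0), (4, 6), 4), ((4, 0),
    (6, 3), 2), ((4, 0), (6, 4), 3), ((4, 0), (6, 7), 1), ((4, 0), (6, 8), 6)]
  G := [[0, 0, 0x149445c18411d218a442, 0x11414449554491441c948151188859511988c8c22,
    0x445241281198488d1944492c44d29492411d14888e2], [0, 0, 0x1221424818914912e142886,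
    0x1211219442142194c828218215812112158c42c, 0x122142848288318284111b18442a54c9189284e],
    [0, 0x221284821288e1a88c22c1222e1c242c12422e1244e1c6c861, 0, 0x11c888d91411c444d514c122,
    0x544d2142841c88591882c2], [0, 0, 0, 0x1282918421421c8c12124251441128291884c6,
    0xc22182141124ccd152214a]]

noncomputable def n3581 : Ent := ⟨e3581, noF, [], [], [(13, 17, [6903326391201334775872065844685381424292761054348340378595029944348673, 0])]⟩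

def c3581 : PLift (Cov.check n3581.C.D v3581 = true) := ⟨by decide +kernel⟩

def b3581 : PLift (entF (fidx ts) 400 3581 n3581 = true) := ⟨by decide +kernel⟩

theorem g3581 : GoodF (fidx ts) 400 3581 := GoodF.ofV v3581 n3581 c3581.down b3581.down

/-- 474748444:2708/9 -/
noncomputable def e3582 : SCfg where
  D := {
    a := 9
    L := 9
    kp := 6
    inn := [(0, 1), (0, 5), (1, 0), (1, 2), (1, 3), (1, 4), (1, 5), (2, 1), (2, 3), (3, 1), (3, 2), (3,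
      6), (3, 8), (4, 1), (4, 5), (5, 0), (5, 1), (5, 4), (5, 7), (6, 3), (7, 5), (8, 3)]
    mix := [(0, 0), (0, 1), (1, 1), (1, 2), (2, 1), (2, 3), (3, 2), (3, 3), (3, 4), (4, 2), (4, 5), (5,
      0), (5, 5), (5, 6), (5, 7), (6, 3), (6, 4), (6, 6), (7, 5), (7, 6), (7, 8), (8, 2), (8, 4),
      (8, 8)]
    cl := [5, 0, 0, 2, 3, 1, 4, 1, 6]
    chq := [(0, 3), (0, 4), (3, 0), (4, 0)]
    rng := [(0, 1), (0, 7), (1, 0), (1, 3), (2, 5), (2, 8), (3, 1), (3, 6), (4, 6), (4, 8), (5, 2), (5,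
      8), (6, 3), (6, 4), (6, 7), (6, 8), (7, 0), (7, 6), (8, 2), (8, 4), (8, 5), (8, 6)]
    lev := [] }
  links := [[1, 5, 9, 10], [5, 0, 10, 2, 3, 11, 4], [3, 1, 10, 12], [11, 1, 2, 12, 6, 13, 8], [5, 1, 11,
    14], [9, 0, 1, 4, 14, 7, 15, 16], [13, 3, 12, 15], [15, 5, 14, 17], [11, 3, 13, 17]]
  P := {
    a := 9
    N := 18
    nb := [1570, 3133, 5130, 14662, 18466, 115347, 45064, 180256, 141320, 66593, 4615, 147738, 33868,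
      164168, 133296, 209120, 33312, 59776]
    tri := [(0, 1, 5), (0, 1, 10), (0, 5, 9), (0, 9, 10), (1, 2, 3), (1, 2, 10), (1, 3, 11), (1, 4, 5),
      (1, 4, 11), (2, 3, 12), (2, 10, 12), (3, 6, 12), (3, 6, 13), (3, 8, 11), (3, 8, 13), (4, 5,
      14), (4, 11, 14), (5, 7, 14), (5, 7, 15), (5, 9, 16), (5, 15, 16), (6, 12, 15), (6, 13, 15),
      (7, 14, 17), (7, 15, 17), (8, 11, 17), (8, 13, 17)]
    fin := [0, 0, 2, 2, 0, 5, 2, 7, 2, 0, 2, 2, 12, 13, 5, 7, 5, 17]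
    chd := [(2, 7), (2, 13)]
    steps := [(0, 1), (0, 4), (0, 9), (2, 3), (2, 6), (2, 8), (2, 10), (2, 11), (5, 14), (5, 16), (7,
      15)] }
  rep := [2, 5, 12, 13, 7, 0, 17]

noncomputable def v3582 : Cov.CovD where
  P := 3
  N := 4
  pl := [0, 3, 8]
  lev := [⟨[], [], [], [5], [(1, 0, [3, 4])]⟩,
    ⟨[], [(0, 0)], [(0, 0)], [], [(1, 0, [3, 4]), (2, 0, [3, 4])]⟩,
    ⟨[(0, 1)], [(0, 0), (1, 0)], [], [2], [(1, 0, [3, 4])]⟩,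
    ⟨[(0, 1), (1, 2)], [(1, 0), (1, 3), (2, 0), (2, 3)], [(0, 3)], [2], [(2, 0, [3, 4]),
      (4, 3, [0])]⟩,
    ⟨[(0, 1), (1, 2), (1, 3)], [(1, 0), (1, 1), (3, 0)], [(0, 1)], [], [(2, 0, [3, 4]), (5,
      1, [])]⟩,
    ⟨[(0, 1), (0, 4), (1, 2), (1, 3), (1, 4)], [(0, 0), (0, 1), (0, 4), (1, 0), (1, 1), (1,
      4), (4, 0), (4, 1), (4, 4)], [(1, 1), (1, 4)], [5], [(5, 1, []), (6, 4, [0]), (7, 1,
      [])]⟩,
    ⟨[(1, 3), (2, 3)], [(3, 0), (3, 3), (3, 4), (5, 4)], [(3, 4)], [2], [(4, 3, [0]), (6,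
      4, [0])]⟩,
    ⟨[(0, 5), (1, 5), (4, 5)], [(4, 1), (5, 1), (5, 4), (6, 4)], [(1, 4)], [6], [(5, 1,
      []), (6, 4, [0])]⟩,
    ⟨[(1, 3), (2, 3), (3, 6)], [(1, 0), (3, 0), (3, 3), (4, 0), (6, 3)], [(0, 3)], [6],
      [(2, 0, [3, 4]), (4, 3, [0])]⟩]
  Ta := [((1, 0), 0, 5), ((1, 3), 0, 2), ((2, 5), 0, 1), ((2, 8), 0, 6), ((5, 2), 1, 0), ((5, 8),
    1, 6), ((7, 0), 1, 5), ((7, 6), 1, 4)]
  Tb := [((0, 1, 7), 5, 0, 1), ((1, 0, 3), 0, 5, 2), ((2, 5, 8), 0, 1, 6), ((3, 1, 6), 2, 0, 4),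
    ((4, 6, 8), 3, 4, 6), ((5, 2, 8), 1, 0, 6), ((6, 3, 4), 4, 2, 3), ((6, 3, 7), 4, 2, 1),
    ((6, 3, 8), 4, 2, 6), ((6, 4, 7), 4, 3, 1), ((6, 4, 8), 4, 3, 6), ((6, 7, 8), 4, 1, 6),
    ((7, 0, 6), 1, 5, 4), ((8, 2, 4), 6, 0, 3), ((8, 2, 5), 6, 0, 1), ((8, 2, 6), 6, 0, 4),
    ((8, 4, 5), 6, 3, 1), ((8, 4, 6), 6, 3, 4), ((8, 5, 6), 6, 1, 4)]
  Tc := [(0, 3, 4)]
  Td := [((0, 3), (1, 0), 5), ((0, 3), (1, 3), 2), ((0, 3), (2, 5), 1), ((0, 3), (2, 8), 6), ((0,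
    4), (1, 0), 5), ((0, 4), (1, 3), 2), ((0, 4), (2, 5), 1), ((0, 4), (2, 8), 6), ((3, 0),
    (4, 6), 4), ((3, 0), (4, 8), 6), ((4, 0), (6, 3), 2), ((4, 0), (6, 4), 3), ((4, 0), (6,
    7), 1), ((4, 0), (6, 8), 6)]
  G := [[0, 0, 0x1111c1811218a442, 0x11414615512918c411811119111d88c22,
    0x112112611d8241111114c119d88a42], [0, 0, 0x1121221111c124681111c122112618a44a,
    0x2218112122494c821214812442211cc8212118882e,
    0x321321c412111194a82121111582111221358a84a], [0,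
    0x4e61244221248c24225242e1481e6818a4a414826e188a188c1ec8ca1, 0,
    0x21c2a591811c446d514c122, 0x51c8c591854c21318a142], [0, 0, 0,
    0x62118a2118c84221621c8e212a54c8c823, 0x12c2914812242d1122421148a8221221c82c21488a4b]]

noncomputable def n3582 : Ent := ⟨e3582, noF, [], [], []⟩

def c3582 : PLift (Cov.check n3582.C.D v3582 = true) := ⟨by decide +kernel⟩

def b3582 : PLift (entF (fidx ts) 400 3582 n3582 = true) := ⟨by decide +kernel⟩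

theorem g3582 : GoodF (fidx ts) 400 3582 := GoodF.ofV v3582 n3582 c3582.down b3582.down

/-- 474748444:2708/5 -/
noncomputable def e3583 : SCfg where
  D := {
    a := 9
    L := 10
    kp := 7
    inn := [(0, 1), (0, 5), (1, 0), (1, 2), (1, 3), (1, 4), (1, 5), (2, 1), (2, 3), (3, 1), (3, 2), (3,
      6), (3, 8), (4, 1), (4, 5), (5, 0), (5, 1), (5, 4), (5, 7), (6, 3), (7, 5), (8, 3)]
    mix := [(0, 0), (0, 1), (1, 1), (1, 2), (2, 1), (2, 3), (3, 2), (3, 3), (3, 4), (4, 2), (4, 5), (5,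
      0), (5, 5), (5, 6), (5, 7), (6, 3), (6, 4), (6, 6), (7, 5), (7, 6), (7, 8), (8, 2), (8, 4),
      (8, 9)]
    cl := [5, 0, 0, 2, 3, 1, 4, 1, 6, 7]
    chq := [(0, 3), (0, 4), (3, 0), (4, 0)]
    rng := [(0, 1), (0, 7), (1, 0), (1, 3), (2, 5), (2, 9), (3, 1), (3, 6), (4, 6), (4, 9), (5, 2), (5,
      8), (6, 3), (6, 4), (6, 7), (6, 8), (7, 0), (7, 6), (8, 5), (8, 6), (9, 2), (9, 4)]
    lev := [] }
  links := [[1, 5, 9, 10], [5, 0, 10, 2, 3, 11, 4], [3, 1, 10, 12], [11, 1, 2, 12, 6, 13, 8], [5, 1, 11,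
    14], [9, 0, 1, 4, 14, 7, 15, 16], [13, 3, 12, 15], [15, 5, 14, 17], [11, 3, 13, 18]]
  P := {
    a := 9
    N := 19
    nb := [1570, 3133, 5130, 14662, 18466, 115347, 45064, 180256, 272392, 66593, 4615, 278810, 33868,
      295240, 133296, 209120, 33312, 49280, 10496]
    tri := [(0, 1, 5), (0, 1, 10), (0, 5, 9), (0, 9, 10), (1, 2, 3), (1, 2, 10), (1, 3, 11), (1, 4, 5),
      (1, 4, 11), (2, 3, 12), (2, 10, 12), (3, 6, 12), (3, 6, 13), (3, 8, 11), (3, 8, 13), (4, 5,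
      14), (4, 11, 14), (5, 7, 14), (5, 7, 15), (5, 9, 16), (5, 15, 16), (6, 12, 15), (6, 13, 15),
      (7, 14, 17), (7, 15, 17), (8, 11, 18), (8, 13, 18)]
    fin := [0, 0, 2, 2, 0, 5, 2, 7, 2, 0, 2, 2, 12, 13, 5, 7, 5, 17, 18]
    chd := [(2, 7), (2, 13)]
    steps := [(0, 1), (0, 4), (0, 9), (2, 3), (2, 6), (2, 8), (2, 10), (2, 11), (5, 14), (5, 16), (7,
      15)] }
  rep := [2, 5, 12, 13, 7, 0, 17, 18]

noncomputable def v3583 : Cov.CovD where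
  P := 3
  N := 5
  pl := [0, 3, 8, 9]
  lev := [⟨[], [], [], [5], [(1, 0, [3, 4])]⟩,
    ⟨[], [(0, 0)], [(0, 0)], [], [(1, 0, [3, 4]), (2, 0, [3, 4])]⟩,
    ⟨[(0, 1)], [(0, 0), (1, 0)], [], [2], [(1, 0, [3, 4])]⟩,
    ⟨[(0, 1), (1, 2)], [(1, 0), (1, 3), (2, 0), (2, 3)], [(0, 3)], [2], [(2, 0, [3, 4]),
      (4, 3, [0])]⟩,
    ⟨[(0, 1), (1, 2), (1, 3)], [(1, 0), (1, 1), (3, 0)], [(0, 1)], [], [(2, 0, [3, 4]), (5,
      1, [])]⟩,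
    ⟨[(0, 1), (0, 4), (1, 2), (1, 3), (1, 4)], [(0, 0), (0, 1), (0, 4), (1, 0), (1, 1), (1,
      4), (4, 0), (4, 1), (4, 4)], [(1, 1), (1, 4)], [5], [(5, 1, []), (6, 4, [0]), (7, 1,
      [])]⟩,
    ⟨[(1, 3), (2, 3)], [(3, 0), (3, 3), (3, 4), (5, 4)], [(3, 4)], [2], [(4, 3, [0]), (6,
      4, [0])]⟩,
    ⟨[(0, 5), (1, 5), (4, 5)], [(4, 1), (5, 1), (5, 4), (6, 4)], [(1, 4)], [6], [(5, 1,
      []), (6, 4, [0])]⟩,
    ⟨[(1, 3), (2, 3), (3, 6)], [(1, 0), (3, 0), (3, 3), (4, 0), (6, 3)], [(0, 3)], [7],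
      [(2, 0, [3, 4]), (4, 3, [0])]⟩]
  Ta := [((1, 0), 0, 5), ((1, 3), 0, 2), ((2, 5), 0, 1), ((2, 9), 0, 7), ((5, 2), 1, 0), ((5, 8),
    1, 6), ((7, 0), 1, 5), ((7, 6), 1, 4)]
  Tb := [((0, 1, 7), 5, 0, 1), ((1, 0, 3), 0, 5, 2), ((2, 5, 9), 0, 1, 7), ((3, 1, 6), 2, 0, 4),
    ((4, 6, 9), 3, 4, 7), ((5, 2, 8), 1, 0, 6), ((6, 3, 4), 4, 2, 3), ((6, 3, 7), 4, 2, 1),
    ((6, 3, 8), 4, 2, 6), ((6, 4, 7), 4, 3, 1), ((6, 4, 8), 4, 3, 6), ((6, 7, 8), 4, 1, 6),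
    ((7, 0, 6), 1, 5, 4), ((8, 5, 6), 6, 1, 4), ((9, 2, 4), 7, 0, 3)]
  Tc := [(0, 3, 4)]
  Td := [((0, 3), (1, 0), 5), ((0, 3), (1, 3), 2), ((0, 3), (2, 5), 1), ((0, 3), (2, 9), 7), ((0,
    4), (1, 0), 5), ((0, 4), (1, 3), 2), ((0, 4), (2, 5), 1), ((0, 4), (2, 9), 7), ((3, 0),
    (4, 6), 4), ((3, 0), (4, 9), 7), ((4, 0), (6, 3), 2), ((4, 0), (6, 4), 3), ((4, 0), (6,
    7), 1), ((4, 0), (6, 8), 6)]
  G := [[0, 0, 0x119115c18111d218a442, 0x111d1131d15111d18c1111154946695d1818cc822,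
    0x1414822111411929d1d29c28111d1517d15111d18c88e2], [0, 0,
    0x12214281212c1884a115414122146811981284c6, 0x12141218c12162194c8212929188412452154486a,
    0x1218462118a8412148513148a821211811183686d192a84e], [0,
    0x666e12448228aaae1a884666e14666e18a4aa8e1aaae1c28ce1, 0, 0x11caaad918811c666d5184522,
    0x554d222d318211ccccd9148a42], [0, 0, 0, 0x12625144112a291884c12a29181262518c12c,
    0x421146e6d112a883114894621621c82c21c21c88a43]]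

noncomputable def n3583 : Ent := ⟨e3583, noF, [], [], [(13, 17, [31810150492402119267275227079217218666319002904815489586567506653228285953, 0]), (18, 14, [30043303427726578972524504956108985724401353414501291620047999193394958337, 0]), (18, 17, [31810150492402119267275227079217218666319002904815489586567506653228294145, 0])]⟩

def c3583 : PLift (Cov.check n3583.C.D v3583 = true) := ⟨by decide +kernel⟩

def b3583 : PLift (entF (fidx ts) 400 3583 n3583 = true) := ⟨by decide +kernel⟩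

theorem g3583 : GoodF (fidx ts) 400 3583 := GoodF.ofV v3583 n3583 c3583.down b3583.down

/-- 474748444:2708/11 -/
noncomputable def e3584 : SCfg where
  D := {
    a := 9
    L := 9
    kp := 6
    inn := [(0, 1), (0, 5), (1, 0), (1, 2), (1, 3), (1, 4), (1, 5), (2, 1), (2, 3), (3, 1), (3, 2), (3,
      6), (3, 8), (4, 1), (4, 5), (5, 0), (5, 1), (5, 4), (5, 7), (6, 3), (7, 5), (8, 3)]
    mix := [(0, 0), (0, 1), (1, 1), (1, 2), (2, 1), (2, 3), (3, 2), (3, 3), (3, 4), (4, 2), (4, 5), (5,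
      0), (5, 5), (5, 6), (5, 7), (6, 3), (6, 4), (6, 7), (7, 5), (7, 6), (7, 8), (8, 2), (8, 4),
      (8, 8)]
    cl := [2, 0, 0, 4, 3, 1, 5, 1, 6]
    chq := [(0, 3), (3, 0), (3, 4), (4, 3)]
    rng := [(0, 1), (0, 7), (1, 0), (1, 3), (2, 5), (2, 8), (3, 1), (3, 7), (4, 7), (4, 8), (5, 2), (5,
      8), (6, 7), (6, 8), (7, 0), (7, 3), (7, 4), (7, 6), (8, 2), (8, 4), (8, 5), (8, 6)]
    lev := [] }
  links := [[1, 5, 9, 10], [5, 0, 10, 2, 3, 11, 4], [3, 1, 10, 12], [11, 1, 2, 12, 6, 13, 8], [5, 1, 11,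
    14], [9, 0, 1, 4, 14, 7, 15, 16], [13, 3, 12, 16], [15, 5, 14, 17], [11, 3, 13, 17]]
  P := {
    a := 9
    N := 18
    nb := [1570, 3133, 5130, 14662, 18466, 115347, 77832, 180256, 141320, 66593, 4615, 147738, 66636,
      196936, 133296, 196768, 45664, 59776]
    tri := [(0, 1, 5), (0, 1, 10), (0, 5, 9), (0, 9, 10), (1, 2, 3), (1, 2, 10), (1, 3, 11), (1, 4, 5),
      (1, 4, 11), (2, 3, 12), (2, 10, 12), (3, 6, 12), (3, 6, 13), (3, 8, 11), (3, 8, 13), (4, 5,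
      14), (4, 11, 14), (5, 7, 14), (5, 7, 15), (5, 9, 16), (5, 15, 16), (6, 12, 16), (6, 13, 16),
      (7, 14, 17), (7, 15, 17), (8, 11, 17), (8, 13, 17)]
    fin := [0, 0, 2, 2, 0, 5, 6, 5, 2, 0, 2, 2, 6, 13, 5, 15, 5, 17]
    chd := [(2, 13), (6, 13)]
    steps := [(0, 1), (0, 4), (0, 9), (2, 3), (2, 8), (2, 10), (2, 11), (5, 7), (5, 16), (5, 14), (6,
      12)] }
  rep := [2, 5, 0, 13, 6, 15, 17]

noncomputable def v3584 : Cov.CovD where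
  P := 3
  N := 4
  pl := [0, 6, 8]
  lev := [⟨[], [], [], [2], [(1, 0, [3])]⟩,
    ⟨[], [(0, 0)], [(0, 0)], [], [(1, 0, [3]), (2, 0, [3])]⟩,
    ⟨[(0, 1)], [(0, 0), (1, 0), (1, 4)], [(0, 4)], [], [(1, 0, [3]), (3, 4, [3])]⟩,
    ⟨[(0, 1), (1, 2)], [(1, 0), (1, 3), (1, 4), (2, 0), (2, 3), (2, 4)], [(0, 3), (0, 4),
      (3, 4)], [], [(2, 0, [3]), (3, 4, [3]), (4, 3, [0, 4])]⟩,
    ⟨[(0, 1), (1, 2), (1, 3)], [(1, 0), (1, 1), (3, 0)], [(0, 1)], [], [(2, 0, [3]), (5, 1,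
      [])]⟩,
    ⟨[(0, 1), (0, 4), (1, 2), (1, 3), (1, 4)], [(0, 0), (0, 1), (1, 0), (1, 1), (4, 0), (4,
      1)], [(1, 1)], [2, 5], [(5, 1, []), (7, 1, [])]⟩,
    ⟨[(1, 3), (2, 3)], [(2, 4), (3, 0), (3, 1), (3, 3), (3, 4), (5, 1)], [(1, 3), (1, 4),
      (3, 4)], [], [(3, 4, [3]), (4, 3, [0, 4]), (7, 1, [])]⟩,
    ⟨[(0, 5), (1, 5), (4, 5)], [(4, 1), (5, 1)], [], [5, 6], [(5, 1, [])]⟩,
    ⟨[(1, 3), (2, 3), (3, 6)], [(1, 0), (3, 0), (3, 3), (3, 4), (4, 0), (6, 3)], [(0, 3)],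
      [6], [(2, 0, [3]), (4, 3, [0, 4])]⟩]
  Ta := [((1, 0), 0, 2), ((1, 3), 0, 4), ((2, 5), 0, 1), ((2, 8), 0, 6), ((5, 2), 1, 0), ((5, 8),
    1, 6), ((7, 0), 1, 2), ((7, 3), 1, 4), ((7, 4), 1, 3), ((7, 6), 1, 5)]
  Tb := [((0, 1, 7), 2, 0, 1), ((1, 0, 3), 0, 2, 4), ((2, 5, 8), 0, 1, 6), ((3, 1, 7), 4, 0, 1),
    ((4, 7, 8), 3, 1, 6), ((5, 2, 8), 1, 0, 6), ((6, 7, 8), 5, 1, 6), ((7, 0, 3), 1, 2, 4),
    ((7, 0, 4), 1, 2, 3), ((7, 0, 6), 1, 2, 5), ((7, 3, 4), 1, 4, 3), ((7, 3, 6), 1, 4, 5),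
    ((7, 4, 6), 1, 3, 5), ((8, 2, 4), 6, 0, 3), ((8, 2, 5), 6, 0, 1), ((8, 2, 6), 6, 0, 5),
    ((8, 4, 5), 6, 3, 1), ((8, 4, 6), 6, 3, 5), ((8, 5, 6), 6, 1, 5)]
  Tc := [(3, 0, 4)]
  Td := [((0, 3), (1, 0), 2), ((0, 3), (1, 3), 4), ((0, 3), (2, 5), 1), ((0, 3), (2, 8), 6), ((3,
    0), (4, 7), 1), ((3, 0), (4, 8), 6), ((3, 4), (4, 7), 1), ((3, 4), (4, 8), 6), ((4, 3),
    (3, 1), 0), ((4, 3), (3, 7), 1)]
  G := [[0, 0, 0x111d141118c2282, 0, 0x11c14c95cd1111d1d942242], [0, 0,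
    0x12141118c22111121c8812141218c4ca4, 0x1222922225542422225222299428c8,
    0x31112218941248446128118981218111151aa22212119488e2], [0,
    0x2261822a14621e861424a6144218cc4148e1686a184e8184c8184e12c, 0, 0,
    0xc851142286ac121194214a], [0, 0, 0, 0x221221942184,
    0x24182214e21e219441e21e2194281225192a1ca]]

noncomputable def n3584 : Ent := ⟨e3584, noF, [], [], []⟩

def c3584 : PLift (Cov.check n3584.C.D v3584 = true) := ⟨by decide +kernel⟩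

def b3584 : PLift (entF (fidx ts) 400 3584 n3584 = true) := ⟨by decide +kernel⟩

theorem g3584 : GoodF (fidx ts) 400 3584 := GoodF.ofV v3584 n3584 c3584.down b3584.down

/-- 474748444:2708/10 -/
noncomputable def e3585 : SCfg where
  D := {
    a := 9
    L := 10
    kp := 7
    inn := [(0, 1), (0, 5), (1, 0), (1, 2), (1, 3), (1, 4), (1, 5), (2, 1), (2, 3), (3, 1), (3, 2), (3,
      6), (3, 8), (4, 1), (4, 5), (5, 0), (5, 1), (5, 4), (5, 7), (6, 3), (7, 5), (8, 3)]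
    mix := [(0, 0), (0, 1), (1, 1), (1, 2), (2, 1), (2, 3), (3, 2), (3, 3), (3, 4), (4, 2), (4, 5), (5,
      0), (5, 5), (5, 6), (5, 7), (6, 3), (6, 4), (6, 7), (7, 5), (7, 6), (7, 8), (8, 2), (8, 4),
      (8, 9)]
    cl := [2, 0, 0, 4, 3, 1, 5, 1, 6, 7]
    chq := [(0, 3), (3, 0), (3, 4), (4, 3)]
    rng := [(0, 1), (0, 7), (1, 0), (1, 3), (2, 5), (2, 9), (3, 1), (3, 7), (4, 7), (4, 9), (5, 2), (5,
      8), (6, 7), (6, 8), (7, 0), (7, 3), (7, 4), (7, 6), (8, 5), (8, 6), (9, 2), (9, 4)]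
    lev := [] }
  links := [[1, 5, 9, 10], [5, 0, 10, 2, 3, 11, 4], [3, 1, 10, 12], [11, 1, 2, 12, 6, 13, 8], [5, 1, 11,
    14], [9, 0, 1, 4, 14, 7, 15, 16], [13, 3, 12, 16], [15, 5, 14, 17], [11, 3, 13, 18]]
  P := {
    a := 9
    N := 19
    nb := [1570, 3133, 5130, 14662, 18466, 115347, 77832, 180256, 272392, 66593, 4615, 278810, 66636,
      328008, 133296, 196768, 45664, 49280, 10496]
    tri := [(0, 1, 5), (0, 1, 10), (0, 5, 9), (0, 9, 10), (1, 2, 3), (1, 2, 10), (1, 3, 11), (1, 4, 5),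
      (1, 4, 11), (2, 3, 12), (2, 10, 12), (3, 6, 12), (3, 6, 13), (3, 8, 11), (3, 8, 13), (4, 5,
      14), (4, 11, 14), (5, 7, 14), (5, 7, 15), (5, 9, 16), (5, 15, 16), (6, 12, 16), (6, 13, 16),
      (7, 14, 17), (7, 15, 17), (8, 11, 18), (8, 13, 18)]
    fin := [0, 0, 2, 2, 0, 5, 6, 5, 2, 0, 2, 2, 6, 13, 5, 15, 5, 17, 18]
    chd := [(2, 13), (6, 13)]
    steps := [(0, 1), (0, 4), (0, 9), (2, 3), (2, 8), (2, 10), (2, 11), (5, 7), (5, 16), (5, 14), (6,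
      12)] }
  rep := [2, 5, 0, 13, 6, 15, 17, 18]

noncomputable def v3585 : Cov.CovD where
  P := 3
  N := 5
  pl := [0, 6, 8, 9]
  lev := [⟨[], [], [], [2], [(1, 0, [3])]⟩,
    ⟨[], [(0, 0)], [(0, 0)], [], [(1, 0, [3]), (2, 0, [3])]⟩,
    ⟨[(0, 1)], [(0, 0), (1, 0), (1, 4)], [(0, 4)], [], [(1, 0, [3]), (3, 4, [3])]⟩,
    ⟨[(0, 1), (1, 2)], [(1, 0), (1, 3), (1, 4), (2, 0), (2, 3), (2, 4)], [(0, 3), (0, 4),
      (3, 4)], [], [(2, 0, [3]), (3, 4, [3]), (4, 3, [0, 4])]⟩,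
    ⟨[(0, 1), (1, 2), (1, 3)], [(1, 0), (1, 1), (3, 0)], [(0, 1)], [], [(2, 0, [3]), (5, 1,
      [])]⟩,
    ⟨[(0, 1), (0, 4), (1, 2), (1, 3), (1, 4)], [(0, 0), (0, 1), (1, 0), (1, 1), (4, 0), (4,
      1)], [(1, 1)], [2, 5], [(5, 1, []), (7, 1, [])]⟩,
    ⟨[(1, 3), (2, 3)], [(2, 4), (3, 0), (3, 1), (3, 3), (3, 4), (5, 1)], [(1, 3), (1, 4),
      (3, 4)], [], [(3, 4, [3]), (4, 3, [0, 4]), (7, 1, [])]⟩,
    ⟨[(0, 5), (1, 5), (4, 5)], [(4, 1), (5, 1)], [], [5, 6], [(5, 1, [])]⟩,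
    ⟨[(1, 3), (2, 3), (3, 6)], [(1, 0), (3, 0), (3, 3), (3, 4), (4, 0), (6, 3)], [(0, 3)],
      [7], [(2, 0, [3]), (4, 3, [0, 4])]⟩]
  Ta := [((1, 0), 0, 2), ((1, 3), 0, 4), ((2, 5), 0, 1), ((2, 9), 0, 7), ((5, 2), 1, 0), ((5, 8),
    1, 6), ((7, 0), 1, 2), ((7, 3), 1, 4), ((7, 4), 1, 3), ((7, 6), 1, 5)]
  Tb := [((0, 1, 7), 2, 0, 1), ((1, 0, 3), 0, 2, 4), ((2, 5, 9), 0, 1, 7), ((3, 1, 7), 4, 0, 1),
    ((4, 7, 9), 3, 1, 7), ((5, 2, 8), 1, 0, 6), ((6, 7, 8), 5, 1, 6), ((7, 0, 3), 1, 2, 4),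
    ((7, 0, 4), 1, 2, 3), ((7, 0, 6), 1, 2, 5), ((7, 3, 4), 1, 4, 3), ((7, 3, 6), 1, 4, 5),
    ((7, 4, 6), 1, 3, 5), ((8, 5, 6), 6, 1, 5), ((9, 2, 4), 7, 0, 3)]
  Tc := [(3, 0, 4)]
  Td := [((0, 3), (1, 0), 2), ((0, 3), (1, 3), 4), ((0, 3), (2, 5), 1), ((0, 3), (2, 9), 7), ((3,
    0), (4, 7), 1), ((3, 0), (4, 9), 7), ((3, 4), (4, 7), 1), ((3, 4), (4, 9), 7), ((4, 3),
    (3, 1), 0), ((4, 3), (3, 7), 1)]
  G := [[0, 0, 0x1151482211918422c2, 0, 0x11c11cddcd195d55994221352144462], [0, 0,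
    0x12141218c411a1411618c2612141218c88a4, 0x1241412d29446281212cd2194228c,
    0x52114115d9591462521721948925439842ac1218821854412411549448aa], [0,
    0xee614221ee6142e21ee61c2c1aeea182aea182a1c8182416281824481842a4d, 0, 0,
    0xeec1ee51942142], [0, 0, 0, 0xe21e21942184, 0xe21ee519421e21e2198e21e2194c162]]

noncomputable def n3585 : Ent := ⟨e3585, noF, [], [], [(18, 17, [31810150492402119267275227079217218666319002904815489586567506653228302337, 0])]⟩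

def c3585 : PLift (Cov.check n3585.C.D v3585 = true) := ⟨by decide +kernel⟩

def b3585 : PLift (entF (fidx ts) 400 3585 n3585 = true) := ⟨by decide +kernel⟩

theorem g3585 : GoodF (fidx ts) 400 3585 := GoodF.ofV v3585 n3585 c3585.down b3585.down

/-- 474748444:2708/13 -/
noncomputable def e3586 : SCfg where
  D := {
    a := 9
    L := 9
    kp := 7
    inn := [(0, 1), (0, 5), (1, 0), (1, 2), (1, 3), (1, 4), (1, 5), (2, 1), (2, 3), (3, 1), (3, 2), (3,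
      6), (3, 8), (4, 1), (4, 5), (5, 0), (5, 1), (5, 4), (5, 7), (6, 3), (7, 5), (8, 3)]
    mix := [(0, 0), (0, 1), (1, 1), (1, 2), (2, 1), (2, 3), (3, 2), (3, 3), (3, 4), (4, 2), (4, 5), (5,
      0), (5, 5), (5, 6), (5, 7), (6, 3), (6, 4), (6, 8), (7, 4), (7, 5), (7, 6), (8, 2), (8, 4),
      (8, 5)]
    cl := [0, 2, 1, 4, 3, 0, 5, 7, 6]
    chq := [(0, 5), (1, 2), (1, 3), (1, 4), (1, 6), (2, 1), (3, 1), (4, 1), (5, 0), (6, 1)]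
    rng := [(0, 1), (0, 7), (1, 0), (1, 3), (2, 5), (3, 1), (3, 8), (4, 5), (4, 6), (4, 8), (5, 2), (5,
      4), (6, 4), (6, 7), (7, 0), (7, 6), (8, 3), (8, 4)]
    lev := [] }
  links := [[1, 5, 9, 10], [5, 0, 10, 2, 3, 11, 4], [3, 1, 10, 12], [11, 1, 2, 12, 6, 13, 8], [5, 1, 11,
    14], [9, 0, 1, 4, 14, 7, 15, 16], [13, 3, 12, 17], [15, 5, 14, 13], [11, 3, 13, 14]]
  P := {
    a := 9
    N := 18
    nb := [1570, 3133, 5130, 14662, 18466, 115347, 143368, 57376, 26632, 66593, 4615, 16666, 132172,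
      180680, 10672, 73888, 33312, 12352]
    tri := [(0, 1, 5), (0, 1, 10), (0, 5, 9), (0, 9, 10), (1, 2, 3), (1, 2, 10), (1, 3, 11), (1, 4, 5),
      (1, 4, 11), (2, 3, 12), (2, 10, 12), (3, 6, 12), (3, 6, 13), (3, 8, 11), (3, 8, 13), (4, 5,
      14), (4, 11, 14), (5, 7, 14), (5, 7, 15), (5, 9, 16), (5, 15, 16), (6, 12, 17), (6, 13, 17),
      (7, 13, 14), (7, 13, 15), (8, 11, 14), (8, 13, 14)]
    fin := [0, 0, 2, 3, 0, 0, 6, 0, 0, 0, 2, 3, 12, 13, 0, 15, 16, 6]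
    chd := [(0, 15), (2, 3), (3, 6), (3, 12), (3, 13)]
    steps := [(0, 1), (0, 4), (0, 5), (0, 7), (0, 9), (0, 14), (2, 10), (3, 11), (0, 8), (6, 17)] }
  rep := [0, 3, 2, 13, 12, 15, 6, 16]

noncomputable def v3586 : Cov.CovD where
  P := 3
  N := 5
  pl := [7]
  lev := [⟨[], [], [(0, 2)], [], [(0, 0, [5]), (1, 2, [1])]⟩,
    ⟨[], [(0, 0), (0, 1), (0, 2)], [(1, 2)], [], [(1, 2, [1]), (2, 1, [2, 3, 4, 6])]⟩,
    ⟨[(0, 1)], [(0, 2), (1, 1), (1, 2), (1, 4)], [(2, 4)], [], [(1, 2, [1]), (3, 4, [1])]⟩,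
    ⟨[(0, 1), (1, 2)], [(1, 1), (1, 2), (1, 3), (1, 4), (2, 1), (2, 2), (2, 3), (2, 4)],
      [(1, 3), (1, 4), (3, 4)], [], [(2, 1, [2, 3, 4, 6]), (3, 4, [1]), (4, 3, [1])]⟩,
    ⟨[(0, 1), (1, 2), (1, 3)], [(1, 0), (1, 1), (1, 2), (3, 1)], [(0, 1)], [], [(2, 1, [2,
      3, 4, 6]), (5, 0, [5])]⟩,
    ⟨[(0, 1), (0, 4), (1, 2), (1, 3), (1, 4)], [(0, 0), (0, 2), (0, 5), (1, 0), (1, 1), (1,
      2), (1, 5), (4, 0), (4, 1), (4, 5)], [(0, 0), (0, 5)], [7], [(0, 0, [5]), (5, 0, [5]),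
      (6, 5, [0])]⟩,
    ⟨[(1, 3), (2, 3)], [(2, 4), (3, 1), (3, 3), (3, 4), (3, 6)], [(3, 4), (3, 6), (4, 6)],
      [], [(3, 4, [1]), (4, 3, [1]), (8, 6, [1])]⟩,
    ⟨[(0, 5), (1, 5), (4, 5)], [(3, 3), (4, 0), (5, 0), (5, 3), (5, 5), (6, 3)], [(0, 3),
      (0, 5), (3, 5)], [], [(4, 3, [1]), (5, 0, [5]), (6, 5, [0])]⟩,
    ⟨[(1, 3), (2, 3), (3, 6)], [(1, 1), (3, 0), (3, 1), (3, 3), (3, 4), (4, 0), (4, 1), (5,
      0), (6, 3), (7, 0), (7, 3)], [(0, 1), (0, 3), (1, 3)], [], [(2, 1, [2, 3, 4, 6]), (4,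
      3, [1]), (5, 0, [5])]⟩]
  Ta := [((0, 1), 0, 2), ((0, 7), 0, 7), ((5, 2), 0, 1), ((5, 4), 0, 3)]
  Tb := [((0, 1, 7), 0, 2, 7), ((1, 0, 3), 2, 0, 4), ((3, 1, 8), 4, 2, 6), ((4, 5, 6), 3, 0, 5),
    ((4, 5, 8), 3, 0, 6), ((4, 6, 8), 3, 5, 6), ((5, 2, 4), 0, 1, 3), ((6, 4, 7), 5, 3, 7),
    ((7, 0, 6), 7, 0, 5), ((8, 3, 4), 6, 4, 3)]
  Tc := [(1, 2, 3), (1, 2, 4), (1, 2, 6), (1, 3, 4), (1, 3, 6), (1, 4, 6)]
  Td := [((0, 5), (0, 1), 2), ((0, 5), (0, 7), 7), ((0, 5), (5, 2), 1), ((0, 5), (5, 4), 3), ((1,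
    2), (2, 5), 0), ((1, 3), (2, 5), 0), ((1, 4), (2, 5), 0), ((1, 6), (2, 5), 0), ((2, 1),
    (1, 0), 0), ((2, 1), (1, 3), 4), ((3, 1), (4, 5), 0), ((3, 1), (4, 6), 5), ((3, 1), (4,
    8), 6), ((4, 1), (3, 1), 2), ((4, 1), (3, 8), 6), ((5, 0), (6, 4), 3), ((5, 0), (6, 7),
    7), ((6, 1), (8, 3), 4), ((6, 1), (8, 4), 3)]
  G := [[0, 0, 0x212212212e41c12c12c12e41682, 0x223222264114222412442c621284529182822a81246821c,
    0x142412644528c4c12281284c62848e2cd1318211a2c48812288a92], [0,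
    0x442e12242e146441444e1a441462212242e146e18818482a182824e182e1c1, 0,
    0x4462422a44246442482a22226c52282222a88a246842e28492c1,
    0x88a2c226411442444628c188a282264442844e2644628cca988284882849842488288c2ac831a]]

noncomputable def n3586 : Ent := ⟨e3586, noF, [], [], [(17, 15, [6903537015784671890245461680740748765157398844539141476817538566303745, 0])]⟩

def c3586 : PLift (Cov.check n3586.C.D v3586 = true) := ⟨by decide +kernel⟩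

def b3586 : PLift (entF (fidx ts) 400 3586 n3586 = true) := ⟨by decide +kernel⟩

theorem g3586 : GoodF (fidx ts) 400 3586 := GoodF.ofV v3586 n3586 c3586.down b3586.down

/-- 474748444:2708/12 -/
noncomputable def e3587 : SCfg where
  D := {
    a := 9
    L := 10
    kp := 7
    inn := [(0, 1), (0, 5), (1, 0), (1, 2), (1, 3), (1, 4), (1, 5), (2, 1), (2, 3), (3, 1), (3, 2), (3,
      6), (3, 8), (4, 1), (4, 5), (5, 0), (5, 1), (5, 4), (5, 7), (6, 3), (7, 5), (8, 3)]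
    mix := [(0, 0), (0, 1), (1, 1), (1, 2), (2, 1), (2, 3), (3, 2), (3, 3), (3, 4), (4, 2), (4, 5), (5,
      0), (5, 5), (5, 6), (5, 7), (6, 3), (6, 4), (6, 8), (7, 4), (7, 5), (7, 6), (8, 2), (8, 4),
      (8, 9)]
    cl := [2, 0, 0, 1, 3, 4, 5, 4, 7, 6]
    chq := [(1, 3), (1, 6), (3, 1), (6, 1)]
    rng := [(0, 1), (0, 7), (1, 0), (1, 3), (2, 5), (2, 9), (3, 1), (3, 8), (4, 5), (4, 6), (4, 8), (4,
      9), (5, 2), (5, 4), (6, 4), (6, 7), (7, 0), (7, 6), (8, 3), (8, 4), (9, 2), (9, 4)]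
    lev := [] }
  links := [[1, 5, 9, 10], [5, 0, 10, 2, 3, 11, 4], [3, 1, 10, 12], [11, 1, 2, 12, 6, 13, 8], [5, 1, 11,
    14], [9, 0, 1, 4, 14, 7, 15, 16], [13, 3, 12, 17], [15, 5, 14, 13], [11, 3, 13, 18]]
  P := {
    a := 9
    N := 19
    nb := [1570, 3133, 5130, 14662, 18466, 115347, 143368, 57376, 272392, 66593, 4615, 278810, 132172,
      442824, 10416, 73888, 33312, 12352, 10496]
    tri := [(0, 1, 5), (0, 1, 10), (0, 5, 9), (0, 9, 10), (1, 2, 3), (1, 2, 10), (1, 3, 11), (1, 4, 5),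
      (1, 4, 11), (2, 3, 12), (2, 10, 12), (3, 6, 12), (3, 6, 13), (3, 8, 11), (3, 8, 13), (4, 5,
      14), (4, 11, 14), (5, 7, 14), (5, 7, 15), (5, 9, 16), (5, 15, 16), (6, 12, 17), (6, 13, 17),
      (7, 13, 14), (7, 13, 15), (8, 11, 18), (8, 13, 18)]
    fin := [0, 1, 1, 3, 1, 5, 3, 7, 3, 0, 1, 1, 3, 7, 5, 15, 5, 17, 18]
    chd := [(3, 7), (3, 18)]
    steps := [(0, 9), (1, 2), (1, 4), (1, 10), (1, 11), (3, 6), (3, 8), (3, 12), (5, 14), (5, 16), (7,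
      13)] }
  rep := [1, 3, 0, 7, 5, 15, 18, 17]

noncomputable def v3587 : Cov.CovD where
  P := 3
  N := 5
  pl := [0, 6, 8]
  lev := [⟨[], [], [], [2], [(1, 0, [])]⟩,
    ⟨[], [(0, 0)], [(0, 0)], [], [(1, 0, []), (2, 0, [])]⟩,
    ⟨[(0, 1)], [(0, 0), (1, 0), (1, 1)], [(0, 1)], [], [(1, 0, []), (3, 1, [3, 6])]⟩,
    ⟨[(0, 1), (1, 2)], [(1, 0), (1, 1), (1, 3), (2, 0), (2, 1), (2, 3)], [(0, 1), (0, 3),
      (1, 3)], [], [(2, 0, []), (3, 1, [3, 6]), (4, 3, [1])]⟩,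
    ⟨[(0, 1), (1, 2), (1, 3)], [(1, 0), (1, 4), (3, 0)], [(0, 4)], [], [(2, 0, []), (5, 4,
      [])]⟩,
    ⟨[(0, 1), (0, 4), (1, 2), (1, 3), (1, 4)], [(0, 0), (0, 4), (1, 0), (1, 4), (4, 0), (4,
      4)], [(4, 4)], [2, 5], [(5, 4, []), (7, 4, [])]⟩,
    ⟨[(1, 3), (2, 3)], [(2, 1), (3, 0), (3, 1), (3, 3)], [(1, 3)], [7], [(3, 1, [3, 6]),
      (4, 3, [1])]⟩,
    ⟨[(0, 5), (1, 5), (4, 5)], [(3, 3), (4, 4), (5, 3), (5, 4), (6, 3)], [(3, 4)], [5],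
      [(4, 3, [1]), (5, 4, [])]⟩,
    ⟨[(1, 3), (2, 3), (3, 6)], [(1, 0), (3, 0), (3, 1), (3, 3), (3, 6), (4, 0), (6, 3), (7,
      3)], [(0, 3), (0, 6), (3, 6)], [], [(2, 0, []), (4, 3, [1]), (9, 6, [1])]⟩]
  Ta := [((1, 0), 0, 2), ((1, 3), 0, 1), ((2, 5), 0, 4), ((2, 9), 0, 6), ((5, 2), 4, 0), ((5, 4),
    4, 3), ((7, 0), 4, 2), ((7, 6), 4, 5)]
  Tb := [((0, 1, 7), 2, 0, 4), ((1, 0, 3), 0, 2, 1), ((2, 5, 9), 0, 4, 6), ((3, 1, 8), 1, 0, 7),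
    ((4, 5, 6), 3, 4, 5), ((4, 5, 8), 3, 4, 7), ((4, 5, 9), 3, 4, 6), ((4, 6, 8), 3, 5, 7),
    ((4, 6, 9), 3, 5, 6), ((4, 8, 9), 3, 7, 6), ((5, 2, 4), 4, 0, 3), ((6, 4, 7), 5, 3, 4),
    ((7, 0, 6), 4, 2, 5), ((8, 3, 4), 7, 1, 3), ((9, 2, 4), 6, 0, 3)]
  Tc := [(1, 3, 6)]
  Td := [((1, 3), (3, 1), 0), ((1, 3), (3, 8), 7), ((1, 6), (3, 1), 0), ((1, 6), (3, 8), 7), ((3,
    1), (4, 5), 4), ((3, 1), (4, 6), 5), ((3, 1), (4, 8), 7), ((3, 1), (4, 9), 6), ((6, 1),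
    (9, 2), 0), ((6, 1), (9, 4), 3)]
  G := [[0, 0x1212a1125221414c11452468121268221818c118928a4c,
    0x2222921842232235242424d21215e14862112246184282828d218c184ac,
    0x32125221b215924245434213229422129222e219968c28,
    0x222292184424245222e21534482254844281892252199414188ccaa], [0,
    0x1212a41111a16241414c1111c5141414e8a48a8,
    0x22215214882828922c289a184226216524145c8422a219418c66,
    0x222211d12828c282822dc924112218922421494d424,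
    0x11219122289282428da384241452422621d984862], [0, 0, 0,
    0x222292232195222225242424d222b215d2c1228289828449,
    0x2262265222d2153441222292481c28289225219942424588c12a], [0, 0, 0,
    0x2a641a262521192488e4282228d62219548c28,
    0x2262422d2884225215144862828922a2221d942422588c12a]]

noncomputable def n3587 : Ent := ⟨e3587, noF, [], [], [(17, 15, [31810150703026702604389600475053274033659867542605680387665729161850241025, 0]), (18, 14, [30043303427726578972524504956108985724401353414501291620047999193394978817, 0])]⟩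

def c3587 : PLift (Cov.check n3587.C.D v3587 = true) := ⟨by decide +kernel⟩

def b3587 : PLift (entF (fidx ts) 400 3587 n3587 = true) := ⟨by decide +kernel⟩

theorem g3587 : GoodF (fidx ts) 400 3587 := GoodF.ofV v3587 n3587 c3587.down b3587.down

/-- 474748444:2708/14 -/
noncomputable def e3588 : SCfg where
  D := {
    a := 9
    L := 10
    kp := 8
    inn := [(0, 1), (0, 5), (1, 0), (1, 2), (1, 3), (1, 4), (1, 5), (2, 1), (2, 3), (3, 1), (3, 2), (3,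
      6), (3, 8), (4, 1), (4, 5), (5, 0), (5, 1), (5, 4), (5, 7), (6, 3), (7, 5), (8, 3)]
    mix := [(0, 0), (0, 1), (1, 1), (1, 2), (2, 1), (2, 3), (3, 2), (3, 3), (3, 4), (4, 2), (4, 5), (5,
      0), (5, 5), (5, 6), (5, 7), (6, 3), (6, 4), (6, 8), (7, 5), (7, 6), (7, 9), (8, 2), (8, 4),
      (8, 5)]
    cl := [0, 2, 1, 3, 4, 0, 5, 7, 6, 8]
    chq := [(0, 5), (1, 2), (1, 3), (1, 4), (1, 6), (2, 1), (3, 1), (4, 1), (5, 0), (6, 1)]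
    rng := [(0, 1), (0, 7), (1, 0), (1, 3), (2, 5), (3, 1), (3, 8), (4, 5), (4, 8), (5, 2), (5, 4), (5,
      9), (6, 7), (6, 9), (7, 0), (7, 6), (8, 3), (8, 4), (9, 5), (9, 6)]
    lev := [] }
  links := [[1, 5, 9, 10], [5, 0, 10, 2, 3, 11, 4], [3, 1, 10, 12], [11, 1, 2, 12, 6, 13, 8], [5, 1, 11,
    14], [9, 0, 1, 4, 14, 7, 15, 16], [13, 3, 12, 17], [15, 5, 14, 18], [11, 3, 13, 14]]
  P := {
    a := 9
    N := 19
    nb := [1570, 3133, 5130, 14662, 18466, 115347, 143368, 311328, 26632, 66593, 4615, 16666, 132172,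
      147784, 272816, 327840, 33312, 12352, 49280]
    tri := [(0, 1, 5), (0, 1, 10), (0, 5, 9), (0, 9, 10), (1, 2, 3), (1, 2, 10), (1, 3, 11), (1, 4, 5),
      (1, 4, 11), (2, 3, 12), (2, 10, 12), (3, 6, 12), (3, 6, 13), (3, 8, 11), (3, 8, 13), (4, 5,
      14), (4, 11, 14), (5, 7, 14), (5, 7, 15), (5, 9, 16), (5, 15, 16), (6, 12, 17), (6, 13, 17),
      (7, 14, 18), (7, 15, 18), (8, 11, 14), (8, 13, 14)]
    fin := [0, 0, 2, 3, 0, 0, 6, 0, 0, 0, 2, 3, 12, 13, 0, 15, 16, 6, 18]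
    chd := [(0, 15), (2, 3), (3, 6), (3, 12), (3, 13)]
    steps := [(0, 1), (0, 4), (0, 5), (0, 7), (0, 9), (0, 14), (2, 10), (3, 11), (0, 8), (6, 17)] }
  rep := [0, 3, 2, 12, 13, 15, 6, 16, 18]

noncomputable def v3588 : Cov.CovD where
  P := 3
  N := 6
  pl := [7, 9]
  lev := [⟨[], [], [(0, 2)], [], [(0, 0, [5]), (1, 2, [1])]⟩,
    ⟨[], [(0, 0), (0, 1), (0, 2)], [(1, 2)], [], [(1, 2, [1]), (2, 1, [2, 3, 4, 6])]⟩,
    ⟨[(0, 1)], [(0, 2), (1, 1), (1, 2), (1, 3)], [(2, 3)], [], [(1, 2, [1]), (3, 3, [1])]⟩,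
    ⟨[(0, 1), (1, 2)], [(1, 1), (1, 2), (1, 3), (1, 4), (2, 1), (2, 2), (2, 3), (2, 4)],
      [(1, 3), (1, 4), (3, 4)], [], [(2, 1, [2, 3, 4, 6]), (3, 3, [1]), (4, 4, [1])]⟩,
    ⟨[(0, 1), (1, 2), (1, 3)], [(1, 0), (1, 1), (1, 2), (3, 1)], [(0, 1)], [], [(2, 1, [2,
      3, 4, 6]), (5, 0, [5])]⟩,
    ⟨[(0, 1), (0, 4), (1, 2), (1, 3), (1, 4)], [(0, 0), (0, 2), (0, 5), (1, 0), (1, 1), (1,
      2), (1, 5), (4, 0), (4, 1), (4, 5)], [(0, 0), (0, 5)], [7], [(0, 0, [5]), (5, 0, [5]),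
      (6, 5, [0])]⟩,
    ⟨[(1, 3), (2, 3)], [(2, 3), (3, 1), (3, 3), (3, 4), (3, 6)], [(3, 4), (3, 6), (4, 6)],
      [], [(3, 3, [1]), (4, 4, [1]), (8, 6, [1])]⟩,
    ⟨[(0, 5), (1, 5), (4, 5)], [(4, 0), (5, 0), (5, 5)], [(0, 5)], [8], [(5, 0, [5]), (6,
      5, [0])]⟩,
    ⟨[(1, 3), (2, 3), (3, 6)], [(1, 1), (3, 0), (3, 1), (3, 3), (3, 4), (4, 0), (4, 1), (5,
      0), (6, 4), (7, 0)], [(0, 1), (0, 4), (1, 4)], [], [(2, 1, [2, 3, 4, 6]), (4, 4, [1]),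
      (5, 0, [5])]⟩]
  Ta := [((0, 1), 0, 2), ((0, 7), 0, 7), ((5, 2), 0, 1), ((5, 4), 0, 4), ((5, 9), 0, 8)]
  Tb := [((0, 1, 7), 0, 2, 7), ((1, 0, 3), 2, 0, 3), ((3, 1, 8), 3, 2, 6), ((4, 5, 8), 4, 0, 6),
    ((5, 2, 4), 0, 1, 4), ((5, 2, 9), 0, 1, 8), ((5, 4, 9), 0, 4, 8), ((6, 7, 9), 5, 7, 8),
    ((7, 0, 6), 7, 0, 5), ((8, 3, 4), 6, 3, 4), ((9, 5, 6), 8, 0, 5)]
  Tc := [(1, 2, 3), (1, 2, 4), (1, 2, 6), (1, 3, 4), (1, 3, 6), (1, 4, 6)]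
  Td := [((0, 5), (0, 1), 2), ((0, 5), (0, 7), 7), ((0, 5), (5, 2), 1), ((0, 5), (5, 4), 4), ((0,
    5), (5, 9), 8), ((1, 2), (2, 5), 0), ((1, 3), (2, 5), 0), ((1, 4), (2, 5), 0), ((1, 6),
    (2, 5), 0), ((2, 1), (1, 0), 0), ((2, 1), (1, 3), 3), ((3, 1), (3, 1), 2), ((3, 1), (3,
    8), 6), ((4, 1), (4, 5), 0), ((4, 1), (4, 8), 6), ((5, 0), (6, 7), 7), ((5, 0), (6, 9),
    8), ((6, 1), (8, 3), 3), ((6, 1), (8, 4), 4)]
  G := [[0, 0, 0x2124212212ac1c12c126c128c1684,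
    0x12321292211e2e4112e221268222e2422322252acd21111e282441c,
    0x111e24111e22c881cc32cc92cc52e41181284141e2114b2412e4c29a], [0,
    0x64142444e1444e168222e1222e1622618ae182188a1888e1e88c18caaae18228184e1c1, 0,
    0x288e2222e268222e248921888e282222e284222e2222e2a4d21222e2222e268448d,
    0x886228821222e244c26224e28c482849888e28826888e28c444e28488284da1444e2444e268422228ccce2ccce26cc628c538b]]

noncomputable def n3588 : Ent := ⟨e3588, noF, [], [], [(17, 18, [30043303427623734937691929578474300150491519007939870628445900451935653889, 0]), (17, 15, [31810150703026702604389600475053274033659867542605680387665729161850245121, 0]), (13, 18, [30043303427623734937691929578474300150491519007939870628445900451935690753, 0])]⟩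

def c3588 : PLift (Cov.check n3588.C.D v3588 = true) := ⟨by decide +kernel⟩

def b3588 : PLift (entF (fidx ts) 400 3588 n3588 = true) := ⟨by decide +kernel⟩

theorem g3588 : GoodF (fidx ts) 400 3588 := GoodF.ofV v3588 n3588 c3588.down b3588.down

/-- 474748444:2708/15 -/
noncomputable def e3589 : SCfg where
  D := {
    a := 9
    L := 10
    kp := 7
    inn := [(0, 1), (0, 5), (1, 0), (1, 2), (1, 3), (1, 4), (1, 5), (2, 1), (2, 3), (3, 1), (3, 2), (3,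
      6), (3, 8), (4, 1), (4, 5), (5, 0), (5, 1), (5, 4), (5, 7), (6, 3), (7, 5), (8, 3)]
    mix := [(0, 0), (0, 1), (1, 1), (1, 2), (2, 1), (2, 3), (3, 2), (3, 3), (3, 4), (4, 2), (4, 5), (5,
      0), (5, 5), (5, 6), (5, 7), (6, 3), (6, 4), (6, 8), (7, 5), (7, 6), (7, 9), (8, 2), (8, 4),
      (8, 9)]
    cl := [5, 0, 0, 3, 4, 1, 6, 1, 7, 2]
    chq := [(2, 3), (3, 2), (3, 4), (4, 3)]
    rng := [(0, 1), (0, 7), (1, 0), (1, 3), (2, 5), (2, 9), (3, 1), (3, 8), (4, 8), (4, 9), (5, 2), (5,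
      9), (6, 7), (6, 9), (7, 0), (7, 6), (8, 3), (8, 4), (9, 2), (9, 4), (9, 5), (9, 6)]
    lev := [] }
  links := [[1, 5, 9, 10], [5, 0, 10, 2, 3, 11, 4], [3, 1, 10, 12], [11, 1, 2, 12, 6, 13, 8], [5, 1, 11,
    14], [9, 0, 1, 4, 14, 7, 15, 16], [13, 3, 12, 17], [15, 5, 14, 18], [11, 3, 13, 18]]
  P := {
    a := 9
    N := 19
    nb := [1570, 3133, 5130, 14662, 18466, 115347, 143368, 311328, 272392, 66593, 4615, 278810,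
      132172, 393544, 264368, 327840, 33312, 12352, 59776]
    tri := [(0, 1, 5), (0, 1, 10), (0, 5, 9), (0, 9, 10), (1, 2, 3), (1, 2, 10), (1, 3, 11), (1, 4, 5),
      (1, 4, 11), (2, 3, 12), (2, 10, 12), (3, 6, 12), (3, 6, 13), (3, 8, 11), (3, 8, 13), (4, 5,
      14), (4, 11, 14), (5, 7, 14), (5, 7, 15), (5, 9, 16), (5, 15, 16), (6, 12, 17), (6, 13, 17),
      (7, 14, 18), (7, 15, 18), (8, 11, 18), (8, 13, 18)]
    fin := [0, 1, 1, 3, 1, 5, 3, 7, 3, 0, 1, 1, 3, 13, 5, 15, 5, 17, 7]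
    chd := [(3, 7), (3, 13)]
    steps := [(0, 9), (1, 2), (1, 4), (1, 10), (1, 11), (3, 6), (3, 8), (3, 12), (5, 14), (5, 16), (7,
      18)] }
  rep := [1, 5, 7, 3, 13, 0, 15, 17]

noncomputable def v3589 : Cov.CovD where
  P := 3
  N := 5
  pl := [0, 6, 8]
  lev := [⟨[], [], [], [5], [(1, 0, [])]⟩,
    ⟨[], [(0, 0)], [(0, 0)], [], [(1, 0, []), (2, 0, [])]⟩,
    ⟨[(0, 1)], [(0, 0), (1, 0), (1, 3)], [(0, 3)], [], [(1, 0, []), (3, 3, [2, 4])]⟩,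
    ⟨[(0, 1), (1, 2)], [(1, 0), (1, 3), (1, 4), (2, 0), (2, 3), (2, 4)], [(0, 3), (0, 4),
      (3, 4)], [], [(2, 0, []), (3, 3, [2, 4]), (4, 4, [3])]⟩,
    ⟨[(0, 1), (1, 2), (1, 3)], [(1, 0), (1, 1), (3, 0)], [(0, 1)], [], [(2, 0, []), (5, 1,
      [])]⟩,
    ⟨[(0, 1), (0, 4), (1, 2), (1, 3), (1, 4)], [(0, 0), (0, 1), (1, 0), (1, 1), (4, 0), (4,
      1)], [(1, 1)], [5, 6], [(5, 1, []), (7, 1, [])]⟩,
    ⟨[(1, 3), (2, 3)], [(2, 3), (3, 0), (3, 3), (3, 4)], [(3, 4)], [7], [(3, 3, [2, 4]),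
      (4, 4, [3])]⟩,
    ⟨[(0, 5), (1, 5), (4, 5)], [(4, 1), (5, 1), (5, 2)], [(1, 2)], [6], [(5, 1, []), (9, 2,
      [3])]⟩,
    ⟨[(1, 3), (2, 3), (3, 6)], [(1, 0), (3, 0), (3, 2), (3, 3), (3, 4), (4, 0), (6, 4), (7,
      2)], [(0, 2), (0, 4), (2, 4)], [], [(2, 0, []), (4, 4, [3]), (9, 2, [3])]⟩]
  Ta := [((1, 0), 0, 5), ((1, 3), 0, 3), ((2, 5), 0, 1), ((2, 9), 0, 2), ((5, 2), 1, 0), ((5, 9),
    1, 2), ((7, 0), 1, 5), ((7, 6), 1, 6)]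
  Tb := [((0, 1, 7), 5, 0, 1), ((1, 0, 3), 0, 5, 3), ((2, 5, 9), 0, 1, 2), ((3, 1, 8), 3, 0, 7),
    ((4, 8, 9), 4, 7, 2), ((5, 2, 9), 1, 0, 2), ((6, 7, 9), 6, 1, 2), ((7, 0, 6), 1, 5, 6),
    ((8, 3, 4), 7, 3, 4), ((9, 2, 4), 2, 0, 4), ((9, 2, 5), 2, 0, 1), ((9, 2, 6), 2, 0, 6),
    ((9, 4, 5), 2, 4, 1), ((9, 4, 6), 2, 4, 6), ((9, 5, 6), 2, 1, 6)]
  Tc := [(3, 2, 4)]
  Td := [((2, 3), (9, 2), 0), ((2, 3), (9, 4), 4), ((2, 3), (9, 5), 1), ((2, 3), (9, 6), 6), ((3,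
    2), (3, 1), 0), ((3, 2), (3, 8), 7), ((3, 4), (3, 1), 0), ((3, 4), (3, 8), 7), ((4, 3),
    (4, 8), 7), ((4, 3), (4, 9), 2)]
  G := [[0, 0, 0, 0x842412844414d111582644928141a5884848b8924181614888887892cc2,
    0x99911939121358288889c811155446288888781242294812111d588982418f8c4218191288892698899c9288831191c488484dce2],
    [0, 0, 0, 0,
    0x822222d81488322827814a282248248121c22185c8432829481214812148e8222a817414ea812111d1448121117124a1818921219928121318888383a4ce],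
    [0,
    0x844444b4228484388c88c3682aac88c52a4845464e88424848f88c44c44cba428888382244c88c92484898a8e44849488848584c2e1,
    0xaac44c514ccc22c3146166c88c91481c2, 0x8444c4c8f4181c1c1f58484c4c4f8c2182,
    0x288888d612195688898c2888287488883c12139ca1a828a87a8a85a1a15d44162], [0, 0,
    0xa242518416282918c222318a1caa644c518ccc22c3126166c88691481a6, 0,
    0xa2a25a1a2594412a2a8581a1a1d54c12131461212191881ac22234c22238c246828962829c484ab]]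

noncomputable def n3589 : Ent := ⟨e3589, noF, [], [], [(9, 17, [31810150492402119267275227079217218666319002904815489586567506653228265473, 0]), (17, 15, [31810150703026702604389600475053274033659867542605680387665729161850249217, 0]), (17, 16, [31810581851548793677511941751458610980409781099126250235727204310992289793, 0])]⟩

def c3589 : PLift (Cov.check n3589.C.D v3589 = true) := ⟨by decide +kernel⟩

def b3589 : PLift (entF (fidx ts) 400 3589 n3589 = true) := ⟨by decide +kernel⟩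

theorem g3589 : GoodF (fidx ts) 400 3589 := GoodF.ofV v3589 n3589 c3589.down b3589.down

/-- 474748444:2708 -/
noncomputable def e3590 : SCfg where
  D := {
    a := 9
    L := 11
    kp := 8
    inn := [(0, 1), (0, 5), (1, 0), (1, 2), (1, 3), (1, 4), (1, 5), (2, 1), (2, 3), (3, 1), (3, 2), (3,
      6), (3, 8), (4, 1), (4, 5), (5, 0), (5, 1), (5, 4), (5, 7), (6, 3), (7, 5), (8, 3)]
    mix := [(0, 0), (0, 1), (1, 1), (1, 2), (2, 1), (2, 3), (3, 2), (3, 3), (3, 4), (4, 2), (4, 5), (5,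
      0), (5, 5), (5, 6), (5, 7), (6, 3), (6, 4), (6, 8), (7, 5), (7, 6), (7, 9), (8, 2), (8, 4),
      (8, 10)]
    cl := [2, 0, 0, 1, 4, 3, 5, 3, 7, 8, 6]
    chq := [(1, 4), (1, 6), (4, 1), (6, 1)]
    rng := [(0, 1), (0, 7), (1, 0), (1, 3), (2, 5), (2, 10), (3, 1), (3, 8), (4, 8), (4, 10), (5, 2),
      (5, 9), (6, 7), (6, 9), (7, 0), (7, 6), (8, 3), (8, 4), (9, 5), (9, 6), (10, 2), (10, 4)]
    lev := [] }
  links := [[1, 5, 9, 10], [5, 0, 10, 2, 3, 11, 4], [3, 1, 10, 12], [11, 1, 2, 12, 6, 13, 8], [5, 1, 11,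
    14], [9, 0, 1, 4, 14, 7, 15, 16], [13, 3, 12, 17], [15, 5, 14, 18], [11, 3, 13, 19]]
  P := {
    a := 9
    N := 20
    nb := [1570, 3133, 5130, 14662, 18466, 115347, 143368, 311328, 534536, 66593, 4615, 540954,
      132172, 655688, 264368, 327840, 33312, 12352, 49280, 10496]
    tri := [(0, 1, 5), (0, 1, 10), (0, 5, 9), (0, 9, 10), (1, 2, 3), (1, 2, 10), (1, 3, 11), (1, 4, 5),
      (1, 4, 11), (2, 3, 12), (2, 10, 12), (3, 6, 12), (3, 6, 13), (3, 8, 11), (3, 8, 13), (4, 5,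
      14), (4, 11, 14), (5, 7, 14), (5, 7, 15), (5, 9, 16), (5, 15, 16), (6, 12, 17), (6, 13, 17),
      (7, 14, 18), (7, 15, 18), (8, 11, 19), (8, 13, 19)]
    fin := [0, 1, 1, 3, 1, 5, 3, 5, 3, 0, 1, 1, 3, 13, 5, 15, 5, 17, 18, 19]
    chd := [(3, 13), (3, 19)]
    steps := [(0, 9), (1, 2), (1, 4), (1, 10), (1, 11), (3, 6), (3, 8), (3, 12), (5, 7), (5, 14), (5,
      16)] }
  rep := [1, 3, 0, 5, 13, 15, 19, 17, 18]

noncomputable def v3590 : Cov.CovD where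
  P := 3
  N := 6
  pl := [0, 6, 8, 9]
  lev := [⟨[], [], [], [2], [(1, 0, [])]⟩,
    ⟨[], [(0, 0)], [(0, 0)], [], [(1, 0, []), (2, 0, [])]⟩,
    ⟨[(0, 1)], [(0, 0), (1, 0), (1, 1)], [(0, 1)], [], [(1, 0, []), (3, 1, [4, 6])]⟩,
    ⟨[(0, 1), (1, 2)], [(1, 0), (1, 1), (1, 4), (2, 0), (2, 1), (2, 4)], [(0, 1), (0, 4),
      (1, 4)], [], [(2, 0, []), (3, 1, [4, 6]), (4, 4, [1])]⟩,
    ⟨[(0, 1), (1, 2), (1, 3)], [(1, 0), (1, 3), (3, 0)], [(0, 3)], [], [(2, 0, []), (5, 3,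
      [])]⟩,
    ⟨[(0, 1), (0, 4), (1, 2), (1, 3), (1, 4)], [(0, 0), (0, 3), (1, 0), (1, 3), (4, 0), (4,
      3)], [(3, 3)], [2, 5], [(5, 3, []), (7, 3, [])]⟩,
    ⟨[(1, 3), (2, 3)], [(2, 1), (3, 0), (3, 1), (3, 4)], [(1, 4)], [7], [(3, 1, [4, 6]),
      (4, 4, [1])]⟩,
    ⟨[(0, 5), (1, 5), (4, 5)], [(4, 3), (5, 3)], [], [5, 8], [(5, 3, [])]⟩,
    ⟨[(1, 3), (2, 3), (3, 6)], [(1, 0), (3, 0), (3, 1), (3, 4), (3, 6), (4, 0), (6, 4)],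
      [(0, 4), (0, 6), (4, 6)], [], [(2, 0, []), (4, 4, [1]), (10, 6, [1])]⟩]
  Ta := [((1, 0), 0, 2), ((1, 3), 0, 1), ((2, 5), 0, 3), ((2, 10), 0, 6), ((5, 2), 3, 0), ((5,
    9), 3, 8), ((7, 0), 3, 2), ((7, 6), 3, 5)]
  Tb := [((0, 1, 7), 2, 0, 3), ((1, 0, 3), 0, 2, 1), ((2, 5, 10), 0, 3, 6), ((3, 1, 8), 1, 0, 7),
    ((4, 8, 10), 4, 7, 6), ((5, 2, 9), 3, 0, 8), ((6, 7, 9), 5, 3, 8), ((7, 0, 6), 3, 2, 5),
    ((8, 3, 4), 7, 1, 4), ((9, 5, 6), 8, 3, 5), ((10, 2, 4), 6, 0, 4)]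
  Tc := [(1, 4, 6)]
  Td := [((1, 4), (3, 1), 0), ((1, 4), (3, 8), 7), ((1, 6), (3, 1), 0), ((1, 6), (3, 8), 7), ((4,
    1), (4, 8), 7), ((4, 1), (4, 10), 6), ((6, 1), (10, 2), 0), ((6, 1), (10, 4), 4)]
  G := [[0, 0x141166422412811614c1138d284a1811aa113292281811ac1241134d2486c,
    0x228218422522554142252259418c622322352142231218c22922958142292299218a18cac,
    0x2422654142262269418c22242231135524822a22a581422882811a922311399a8cac,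
    0x2261212264245226226226d218c422511422c22c5225215594c22c12c92258948c2a], [0,
    0x11321142182ca211381148188ca8a12411349144184c64868,
    0x226422a225522c22c5e1422521594226226922c22c9a98c2226181442a,
    0x223123512424528285c54242492232239928289498c24,
    0x1411241151128c22511512222528285a94225812222928289a98c68], [0, 0, 0,
    0x22622652232235524122622694284a22a22a582422a22a92232239928c2c,
    0x226226522522553441226226922522593481c22c22c584422c22c9848c2a], [0, 0, 0,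
    0x22a22a922322395242498682242822a52232235d24245864528,
    0x225225912222928289ac225225512222528285acc128]]

noncomputable def n3590 : Ent := ⟨e3590, noF, [], [], [(9, 17, [137534916119805384184757819924896107794424425793352985286442448516050086494209, 0]), (17, 18, [137533149272740605800428236627395364875908598309456109667484326909848793882625, 0]), (17, 15, [137534916120016008768094934298291943849791766657990775477243546738558708477953, 0]), (17, 16, [137534916551164530859168056639568349186738516571547296047091608213707850518529, 0]), (13, 18, [137533149272740605800428236627395364875908598309456109667484326909848793919489, 0]), (19, 14, [130296143695408472141498590783574413992046611560861776191257730532781047431169, 0]), (19, 18, [137533149272740605800428236627395364875908598309456109667484326909848793927681, 0])]⟩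

def c3590 : PLift (Cov.check n3590.C.D v3590 = true) := ⟨by decide +kernel⟩

def b3590 : PLift (entF (fidx ts) 400 3590 n3590 = true) := ⟨by decide +kernel⟩

theorem g3590 : GoodF (fidx ts) 400 3590 := GoodF.ofV v3590 n3590 c3590.down b3590.down

/-- 474748446:2709/1 -/
noncomputable def e3591 : SCfg where
  D := {
    a := 9
    L := 10
    kp := 9
    inn := [(0, 1), (1, 0), (1, 2), (1, 3), (1, 4), (1, 5), (2, 1), (2, 3), (3, 1), (3, 2), (3, 5), (3,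
      8), (4, 1), (4, 5), (5, 1), (5, 3), (5, 4), (5, 6), (5, 7), (5, 8), (6, 5), (6, 8), (7, 5),
      (8, 3), (8, 5), (8, 6)]
    mix := [(0, 0), (0, 1), (0, 2), (1, 0), (1, 2), (2, 2), (2, 3), (3, 3), (3, 4), (3, 5), (4, 0), (4,
      6), (5, 6), (5, 7), (6, 7), (6, 8), (7, 6), (7, 7), (7, 9), (8, 1), (8, 5), (8, 8)]
    cl := [3, 5, 0, 6, 8, 2, 4, 1, 7, 9]
    chq := [(0, 1), (0, 2), (0, 3), (1, 0), (1, 2), (1, 3), (1, 4), (1, 5), (2, 0), (2, 1), (2, 6), (3,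
      0), (3, 1), (4, 1), (5, 1), (6, 2)]
    rng := [(0, 1), (0, 6), (1, 0), (1, 2), (1, 5), (1, 8), (2, 1), (2, 3), (3, 2), (3, 4), (4, 3), (4,
      5), (5, 1), (5, 4), (6, 0), (6, 9), (7, 8), (7, 9), (8, 1), (8, 7), (9, 6), (9, 7)]
    lev := [] }
  links := [[1, 9, 10, 11], [9, 0, 11, 2, 3, 5, 4], [3, 1, 11, 12], [5, 1, 2, 12, 13, 14, 8], [9, 1, 5,
    15], [15, 4, 1, 3, 8, 6, 16, 7], [16, 5, 8, 17], [15, 5, 16, 18], [17, 6, 5, 3, 14, 10]]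
  P := {
    a := 9
    N := 19
    nb := [3586, 2621, 6154, 28966, 33314, 98778, 196896, 360480, 148584, 33811, 150273, 5127, 10252,
      20488, 9480, 262832, 393440, 66880, 98432]
    tri := [(0, 1, 9), (0, 1, 11), (0, 9, 10), (0, 10, 11), (1, 2, 3), (1, 2, 11), (1, 3, 5), (1, 4,
      5), (1, 4, 9), (2, 3, 12), (2, 11, 12), (3, 5, 8), (3, 8, 14), (3, 12, 13), (3, 13, 14), (4,
      5, 15), (4, 9, 15), (5, 6, 8), (5, 6, 16), (5, 7, 15), (5, 7, 16), (6, 8, 17), (6, 16, 17),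
      (7, 15, 18), (7, 16, 18), (8, 10, 14), (8, 10, 17)]
    fin := [0, 1, 1, 3, 0, 5, 6, 5, 6, 0, 6, 1, 12, 13, 3, 15, 5, 17, 18]
    chd := [(0, 1), (0, 5), (1, 3), (1, 5), (3, 5), (6, 5), (12, 3), (15, 5)]
    steps := [(0, 9), (0, 4), (1, 2), (1, 11), (3, 14), (5, 7), (5, 16), (6, 8), (6, 10)] }
  rep := [1, 5, 3, 0, 15, 6, 12, 17, 13, 18]

noncomputable def v3591 : Cov.CovD where
  P := 3
  N := 7
  pl := [4, 8, 9]
  lev := [⟨[], [], [(0, 3), (0, 5), (3, 5)], [], [(0, 3, [0, 1]), (1, 5, [1]), (2, 0, [1, 2,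
      3])]⟩,
    ⟨[], [(0, 0), (0, 3), (0, 5)], [(0, 3)], [], [(0, 3, [0, 1]), (2, 0, [1, 2, 3])]⟩,
    ⟨[(0, 1)], [(0, 0), (1, 0), (1, 3), (1, 6)], [(0, 6)], [], [(2, 0, [1, 2, 3]), (3, 6,
      [2])]⟩,
    ⟨[(0, 1), (1, 2)], [(1, 0), (1, 2), (1, 3), (1, 6), (2, 0), (2, 2), (2, 6)], [(2, 6)],
      [8], [(3, 6, [2]), (5, 2, [0, 1, 6])]⟩,
    ⟨[(0, 1), (1, 2), (1, 3)], [(0, 3), (1, 0), (1, 3), (1, 4)], [(3, 4)], [], [(0, 3, [0,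
      1]), (6, 4, [1])]⟩,
    ⟨[(0, 1), (1, 2), (1, 3), (1, 4), (2, 3), (3, 4)], [(1, 0), (1, 1), (1, 3), (1, 4), (3,
      1), (3, 2), (3, 4), (3, 6), (4, 1), (4, 3), (4, 4)], [(1, 4)], [], [(6, 4, [1]), (7, 1,
      [0, 2, 3, 4, 5])]⟩,
    ⟨[(1, 5), (3, 5), (4, 5)], [(5, 1), (5, 4)], [], [7], [(7, 1, [0, 2, 3, 4, 5])]⟩,
    ⟨[(1, 5), (3, 5), (4, 5), (5, 6)], [(4, 4), (5, 1), (5, 4), (6, 1)], [(1, 4)], [9],
      [(6, 4, [1]), (7, 1, [0, 2, 3, 4, 5])]⟩,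
    ⟨[(1, 3), (1, 5), (2, 3), (3, 5), (3, 6), (4, 5), (5, 6), (5, 7)], [(0, 5), (3, 2), (3,
      5), (3, 6), (5, 1), (5, 2), (5, 4), (5, 5), (6, 1), (6, 2), (6, 5)], [(2, 5)], [7],
      [(1, 5, [1]), (5, 2, [0, 1, 6])]⟩]
  Ta := []
  Tb := [((0, 1, 6), 3, 5, 4), ((1, 0, 2), 5, 3, 0), ((1, 0, 5), 5, 3, 2), ((1, 0, 8), 5, 3, 7),
    ((1, 2, 5), 5, 0, 2), ((1, 2, 8), 5, 0, 7), ((1, 5, 8), 5, 2, 7), ((2, 1, 3), 0, 5, 6),
    ((3, 2, 4), 6, 0, 8), ((4, 3, 5), 8, 6, 2), ((5, 1, 4), 2, 5, 8), ((6, 0, 9), 4, 3, 9),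
    ((7, 8, 9), 1, 7, 9), ((8, 1, 7), 7, 5, 1), ((9, 6, 7), 9, 4, 1)]
  Tc := [(0, 1, 2), (0, 1, 3), (0, 2, 3), (1, 0, 2), (1, 0, 3), (1, 0, 4), (1, 0, 5), (1, 2, 3),
    (1, 2, 4), (1, 2, 5), (1, 3, 4), (1, 3, 5), (1, 4, 5), (2, 0, 1), (2, 0, 6), (2, 1, 6),
    (3, 0, 1)]
  Td := [((0, 1), (2, 1), 5), ((0, 1), (2, 3), 6), ((0, 2), (2, 1), 5), ((0, 2), (2, 3), 6), ((0,
    3), (2, 1), 5), ((0, 3), (2, 3), 6), ((1, 0), (7, 8), 7), ((1, 0), (7, 9), 9), ((1, 2),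
    (7, 8), 7), ((1, 2), (7, 9), 9), ((1, 3), (7, 8), 7), ((1, 3), (7, 9), 9), ((1, 4), (7,
    8), 7), ((1, 4), (7, 9), 9), ((1, 5), (7, 8), 7), ((1, 5), (7, 9), 9), ((2, 0), (5, 1),
    5), ((2, 0), (5, 4), 8), ((2, 1), (5, 1), 5), ((2, 1), (5, 4), 8), ((2, 6), (5, 1), 5),
    ((2, 6), (5, 4), 8), ((3, 0), (0, 1), 5), ((3, 0), (0, 6), 4), ((3, 1), (0, 1), 5), ((3,
    1), (0, 6), 4), ((4, 1), (6, 0), 3), ((4, 1), (6, 9), 9), ((5, 1), (1, 0), 3), ((5, 1),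
    (1, 2), 0), ((5, 1), (1, 5), 2), ((5, 1), (1, 8), 7), ((6, 2), (3, 2), 0), ((6, 2), (3,
    4), 8)]
  G := [[0, 0x11811461118411111a4111a61d21111681114112a1118112114e1d2112118618112114a14ce1,
    0x8841144811c111c8428184148c22a32231821422528c82122222942826952c52259c2a96858718881146ed2858a4d8c225a124d435ce3,
    0xd2142222225222295222422892221224228d2d6224228221d22222922225922222c22229c2d2c2,
    0x88c22988a22c52141222c42222c1984a382122d128824122a89c8418145622229488812222587946a2c32c9aa9329c511182b49c225b1c4b2422c4214924413282191d581a1888d8d22623cbac928189c534428189c21315225bb59a84dd33c22c9434a49b8289c3b92295bb52259cd94ee]]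

noncomputable def n3591 : Ent := ⟨e3591, noF, [], [], []⟩

def c3591 : PLift (Cov.check n3591.C.D v3591 = true) := ⟨by decide +kernel⟩

def b3591 : PLift (entF (fidx ts) 400 3591 n3591 = true) := ⟨by decide +kernel⟩

theorem g3591 : GoodF (fidx ts) 400 3591 := GoodF.ofV v3591 n3591 c3591.down b3591.down

/-- 474748446:2709/2 -/
noncomputable def e3592 : SCfg where
  D := {
    a := 9
    L := 10
    kp := 9
    inn := [(0, 1), (1, 0), (1, 2), (1, 3), (1, 4), (1, 5), (2, 1), (2, 3), (3, 1), (3, 2), (3, 5), (3,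
      8), (4, 1), (4, 5), (5, 1), (5, 3), (5, 4), (5, 6), (5, 7), (5, 8), (6, 5), (6, 8), (7, 5),
      (8, 3), (8, 5), (8, 6)]
    mix := [(0, 0), (0, 1), (0, 2), (1, 0), (1, 2), (2, 2), (2, 3), (3, 3), (3, 4), (3, 5), (4, 0), (4,
      6), (5, 6), (5, 7), (6, 1), (6, 7), (7, 6), (7, 7), (7, 8), (8, 1), (8, 5), (8, 9)]
    cl := [0, 3, 2, 5, 7, 6, 4, 1, 8, 9]
    chq := [(0, 1), (0, 2), (0, 5), (1, 0), (1, 4), (1, 5), (1, 6), (1, 7), (2, 0), (3, 6), (4, 1), (5,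
      0), (5, 1), (6, 1), (6, 3), (7, 1)]
    rng := [(0, 1), (0, 6), (1, 0), (1, 2), (1, 7), (1, 9), (2, 1), (2, 3), (3, 2), (3, 4), (4, 3), (4,
      5), (5, 4), (5, 9), (6, 0), (6, 8), (7, 1), (7, 8), (8, 6), (8, 7), (9, 1), (9, 5)]
    lev := [] }
  links := [[1, 9, 10, 11], [9, 0, 11, 2, 3, 5, 4], [3, 1, 11, 12], [5, 1, 2, 12, 13, 14, 8], [9, 1, 5,
    15], [15, 4, 1, 3, 8, 6, 16, 7], [16, 5, 8, 10], [15, 5, 16, 17], [10, 6, 5, 3, 14, 18]]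
  P := {
    a := 9
    N := 19
    nb := [3586, 2621, 6154, 28966, 33314, 98778, 66848, 229408, 279656, 33811, 330561, 5127, 10252,
      20488, 270600, 131760, 132320, 98432, 17664]
    tri := [(0, 1, 9), (0, 1, 11), (0, 9, 10), (0, 10, 11), (1, 2, 3), (1, 2, 11), (1, 3, 5), (1, 4,
      5), (1, 4, 9), (2, 3, 12), (2, 11, 12), (3, 5, 8), (3, 8, 14), (3, 12, 13), (3, 13, 14), (4,
      5, 15), (4, 9, 15), (5, 6, 8), (5, 6, 16), (5, 7, 15), (5, 7, 16), (6, 8, 10), (6, 10, 16),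
      (7, 15, 17), (7, 16, 17), (8, 10, 18), (8, 14, 18)]
    fin := [0, 0, 0, 3, 0, 3, 6, 3, 6, 0, 6, 11, 12, 13, 14, 15, 3, 17, 18]
    chd := [(0, 3), (0, 11), (0, 12), (6, 14), (12, 3), (13, 3), (14, 3), (15, 3)]
    steps := [(0, 1), (0, 2), (0, 4), (0, 9), (3, 5), (3, 7), (3, 16), (6, 8), (6, 10)] }
  rep := [0, 3, 11, 6, 15, 12, 14, 13, 17, 18]

noncomputable def v3592 : Cov.CovD where
  P := 3
  N := 7
  pl := [8, 9]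
  lev := [⟨[], [], [(0, 2), (0, 3), (2, 3)], [], [(0, 0, [1, 2, 5]), (1, 3, [6]), (2, 2, [0])]⟩,
    ⟨[], [(0, 0), (0, 2), (0, 3)], [(0, 2)], [], [(0, 0, [1, 2, 5]), (2, 2, [0])]⟩,
    ⟨[(0, 1)], [(0, 2), (1, 0), (1, 2), (1, 5)], [(2, 5)], [], [(2, 2, [0]), (3, 5, [0,
      1])]⟩,
    ⟨[(0, 1), (1, 2)], [(1, 0), (1, 2), (1, 5), (1, 6), (1, 7), (2, 2), (2, 5), (2, 6), (2,
      7)], [(5, 6), (5, 7), (6, 7)], [], [(3, 5, [0, 1]), (4, 7, [1]), (5, 6, [1, 3])]⟩,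
    ⟨[(0, 1), (1, 2), (1, 3)], [(0, 0), (1, 0), (1, 2), (1, 4)], [(0, 4)], [], [(0, 0, [1,
      2, 5]), (6, 4, [1])]⟩,
    ⟨[(0, 1), (1, 2), (1, 3), (1, 4), (2, 3), (3, 4)], [(1, 0), (1, 1), (1, 2), (1, 4), (3,
      1), (3, 4), (3, 5), (3, 6), (3, 7), (4, 0), (4, 1), (4, 4)], [(1, 4)], [], [(6, 4,
      [1]), (7, 1, [0, 4, 5, 6, 7])]⟩,
    ⟨[(1, 5), (3, 5), (4, 5)], [(0, 3), (5, 1), (5, 3), (5, 4)], [(1, 3)], [], [(1, 3,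
      [6]), (7, 1, [0, 4, 5, 6, 7])]⟩,
    ⟨[(1, 5), (3, 5), (4, 5), (5, 6)], [(4, 4), (5, 1), (5, 4), (6, 1)], [(1, 4)], [8],
      [(6, 4, [1]), (7, 1, [0, 4, 5, 6, 7])]⟩,
    ⟨[(1, 3), (1, 5), (2, 3), (3, 5), (3, 6), (4, 5), (5, 6), (5, 7)], [(0, 3), (3, 3), (3,
      5), (3, 6), (3, 7), (5, 1), (5, 3), (5, 4), (5, 6), (6, 1), (6, 3), (6, 6)], [(3, 6)],
      [9], [(1, 3, [6]), (5, 6, [1, 3])]⟩]
  Ta := []
  Tb := [((0, 1, 6), 0, 3, 4), ((1, 0, 2), 3, 0, 2), ((1, 0, 7), 3, 0, 1), ((1, 0, 9), 3, 0, 9),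
    ((1, 2, 7), 3, 2, 1), ((1, 2, 9), 3, 2, 9), ((1, 7, 9), 3, 1, 9), ((2, 1, 3), 2, 3, 5),
    ((3, 2, 4), 5, 2, 7), ((4, 3, 5), 7, 5, 6), ((5, 4, 9), 6, 7, 9), ((6, 0, 8), 4, 0, 8),
    ((7, 1, 8), 1, 3, 8), ((8, 6, 7), 8, 4, 1), ((9, 1, 5), 9, 3, 6)]
  Tc := [(0, 1, 2), (0, 1, 5), (0, 2, 5), (1, 0, 4), (1, 0, 5), (1, 0, 6), (1, 0, 7), (1, 4, 5),
    (1, 4, 6), (1, 4, 7), (1, 5, 6), (1, 5, 7), (1, 6, 7), (5, 0, 1), (6, 1, 3)]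
  Td := [((0, 1), (0, 1), 3), ((0, 1), (0, 6), 4), ((0, 2), (0, 1), 3), ((0, 2), (0, 6), 4), ((0,
    5), (0, 1), 3), ((0, 5), (0, 6), 4), ((1, 0), (7, 1), 3), ((1, 0), (7, 8), 8), ((1, 4),
    (7, 1), 3), ((1, 4), (7, 8), 8), ((1, 5), (7, 1), 3), ((1, 5), (7, 8), 8), ((1, 6), (7,
    1), 3), ((1, 6), (7, 8), 8), ((1, 7), (7, 1), 3), ((1, 7), (7, 8), 8), ((2, 0), (2, 1),
    3), ((2, 0), (2, 3), 5), ((3, 6), (1, 0), 0), ((3, 6), (1, 2), 2), ((3, 6), (1, 7), 1),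
    ((3, 6), (1, 9), 9), ((4, 1), (6, 0), 0), ((4, 1), (6, 8), 8), ((5, 0), (3, 2), 2), ((5,
    0), (3, 4), 7), ((5, 1), (3, 2), 2), ((5, 1), (3, 4), 7), ((6, 1), (5, 4), 7), ((6, 1),
    (5, 9), 9), ((6, 3), (5, 4), 7), ((6, 3), (5, 9), 9), ((7, 1), (4, 3), 5), ((7, 1), (4,
    5), 6)]
  G := [[0, 0x91848151c2619111a49151c261c1128814121682124a19c1,
    0x1141151cc918c4dd2218221122222c12522112b751189e89571183a386,
    0xbb1d8ba98522284231221228c2228221921188222188f1c22122152221224524151731d1746d4d2224224c2f18c,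
    0xd91d8f6ed8522141518821a22122229522212222c92922122225524151731d1746d4d2638a]]

noncomputable def n3592 : Ent := ⟨e3592, noF, [], [], []⟩

def c3592 : PLift (Cov.check n3592.C.D v3592 = true) := ⟨by decide +kernel⟩

def b3592 : PLift (entF (fidx ts) 400 3592 n3592 = true) := ⟨by decide +kernel⟩

theorem g3592 : GoodF (fidx ts) 400 3592 := GoodF.ofV v3592 n3592 c3592.down b3592.down

/-- 474748446:2709/3 -/
noncomputable def e3593 : SCfg where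
  D := {
    a := 9
    L := 10
    kp := 9
    inn := [(0, 1), (1, 0), (1, 2), (1, 3), (1, 4), (1, 5), (2, 1), (2, 3), (3, 1), (3, 2), (3, 5), (3,
      8), (4, 1), (4, 5), (5, 1), (5, 3), (5, 4), (5, 6), (5, 7), (5, 8), (6, 5), (6, 8), (7, 5),
      (8, 3), (8, 5), (8, 6)]
    mix := [(0, 0), (0, 1), (0, 2), (1, 0), (1, 2), (2, 2), (2, 3), (3, 3), (3, 4), (3, 5), (4, 0), (4,
      6), (5, 6), (5, 7), (6, 7), (6, 8), (7, 1), (7, 6), (7, 7), (8, 5), (8, 8), (8, 9)]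
    cl := [1, 7, 0, 2, 9, 5, 3, 4, 6, 8]
    chq := [(0, 1), (0, 3), (0, 4), (1, 0), (2, 4), (2, 5), (2, 6), (2, 8), (3, 0), (3, 4), (4, 0), (4,
      2), (4, 3), (5, 2), (6, 2), (8, 2)]
    rng := [(0, 1), (0, 6), (1, 0), (1, 2), (1, 6), (1, 7), (2, 1), (2, 3), (3, 2), (3, 4), (4, 3), (4,
      5), (5, 4), (5, 9), (6, 0), (6, 1), (7, 1), (7, 8), (8, 7), (8, 9), (9, 5), (9, 8)]
    lev := [] }
  links := [[1, 9, 10, 11], [9, 0, 11, 2, 3, 5, 4], [3, 1, 11, 12], [5, 1, 2, 12, 13, 14, 8], [9, 1, 5,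
    15], [15, 4, 1, 3, 8, 6, 16, 7], [16, 5, 8, 17], [15, 5, 16, 10], [17, 6, 5, 3, 14, 18]]
  P := {
    a := 9
    N := 19
    nb := [3586, 2621, 6154, 28966, 33314, 98778, 196896, 99360, 409704, 33811, 100993, 5127, 10252,
      20488, 270600, 1712, 132320, 328000, 147712]
    tri := [(0, 1, 9), (0, 1, 11), (0, 9, 10), (0, 10, 11), (1, 2, 3), (1, 2, 11), (1, 3, 5), (1, 4,
      5), (1, 4, 9), (2, 3, 12), (2, 11, 12), (3, 5, 8), (3, 8, 14), (3, 12, 13), (3, 13, 14), (4,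
      5, 15), (4, 9, 15), (5, 6, 8), (5, 6, 16), (5, 7, 15), (5, 7, 16), (6, 8, 17), (6, 16, 17),
      (7, 10, 15), (7, 10, 16), (8, 14, 18), (8, 17, 18)]
    fin := [0, 1, 1, 3, 1, 5, 3, 7, 3, 0, 7, 1, 3, 13, 14, 15, 5, 17, 18]
    chd := [(0, 1), (1, 5), (1, 15), (3, 5), (3, 14), (3, 17), (3, 18), (15, 5)]
    steps := [(0, 9), (1, 2), (1, 4), (1, 11), (3, 8), (3, 6), (3, 12), (5, 16), (7, 10)] }
  rep := [1, 0, 3, 15, 5, 14, 17, 7, 18, 13]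

noncomputable def v3593 : Cov.CovD where
  P := 3
  N := 7
  pl := [1, 4]
  lev := [⟨[], [], [(0, 1)], [7], [(0, 1, [0]), (2, 0, [1, 3, 4])]⟩,
    ⟨[], [(0, 0), (0, 1)], [(0, 1)], [], [(0, 1, [0]), (2, 0, [1, 3, 4])]⟩,
    ⟨[(0, 1)], [(0, 0), (1, 0), (1, 1), (1, 2)], [(0, 2)], [], [(2, 0, [1, 3, 4]), (3, 2,
      [4, 5, 6, 8])]⟩,
    ⟨[(0, 1), (1, 2)], [(1, 0), (1, 1), (1, 2), (1, 5), (2, 0), (2, 2), (2, 5)], [(2, 5)],
      [9], [(3, 2, [4, 5, 6, 8]), (5, 5, [2])]⟩,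
    ⟨[(0, 1), (1, 2), (1, 3)], [(0, 1), (1, 0), (1, 1), (1, 3)], [(1, 3)], [], [(0, 1,
      [0]), (6, 3, [0, 4])]⟩,
    ⟨[(0, 1), (1, 2), (1, 3), (1, 4), (2, 3), (3, 4)], [(1, 0), (1, 1), (1, 3), (1, 4), (3,
      2), (3, 3), (3, 4), (3, 5), (4, 1), (4, 3), (4, 4)], [(3, 4)], [], [(6, 3, [0, 4]), (7,
      4, [0, 2, 3])]⟩,
    ⟨[(1, 5), (3, 5), (4, 5)], [(5, 3), (5, 4), (5, 6)], [(4, 6)], [], [(7, 4, [0, 2, 3]),
      (8, 6, [2])]⟩,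
    ⟨[(1, 5), (3, 5), (4, 5), (5, 6)], [(4, 3), (5, 3), (5, 4), (6, 4)], [(3, 4)], [7],
      [(6, 3, [0, 4]), (7, 4, [0, 2, 3])]⟩,
    ⟨[(1, 3), (1, 5), (2, 3), (3, 5), (3, 6), (4, 5), (5, 6), (5, 7)], [(3, 2), (3, 5), (3,
      6), (3, 8), (5, 3), (5, 4), (5, 5), (5, 6), (5, 8), (6, 4), (6, 5), (6, 6), (6, 8)],
      [(5, 6), (5, 8), (6, 8)], [], [(5, 5, [2]), (8, 6, [2]), (9, 8, [2])]⟩]
  Ta := []
  Tb := [((0, 1, 6), 1, 7, 3), ((1, 0, 2), 7, 1, 0), ((1, 0, 6), 7, 1, 3), ((1, 0, 7), 7, 1, 4),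
    ((1, 2, 6), 7, 0, 3), ((1, 2, 7), 7, 0, 4), ((1, 6, 7), 7, 3, 4), ((2, 1, 3), 0, 7, 2),
    ((3, 2, 4), 2, 0, 9), ((4, 3, 5), 9, 2, 5), ((5, 4, 9), 5, 9, 8), ((6, 0, 1), 3, 1, 7),
    ((7, 1, 8), 4, 7, 6), ((8, 7, 9), 6, 4, 8), ((9, 5, 8), 8, 5, 6)]
  Tc := [(0, 1, 3), (0, 1, 4), (0, 3, 4), (2, 4, 5), (2, 4, 6), (2, 4, 8), (2, 5, 6), (2, 5, 8),
    (2, 6, 8), (3, 0, 4), (4, 0, 2), (4, 0, 3), (4, 2, 3)]
  Td := [((0, 1), (2, 1), 7), ((0, 1), (2, 3), 2), ((0, 3), (2, 1), 7), ((0, 3), (2, 3), 2), ((0,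
    4), (2, 1), 7), ((0, 4), (2, 3), 2), ((1, 0), (0, 1), 7), ((1, 0), (0, 6), 3), ((2, 4),
    (3, 2), 0), ((2, 4), (3, 4), 9), ((2, 5), (3, 2), 0), ((2, 5), (3, 4), 9), ((2, 6), (3,
    2), 0), ((2, 6), (3, 4), 9), ((2, 8), (3, 2), 0), ((2, 8), (3, 4), 9), ((3, 0), (6, 0),
    1), ((3, 0), (6, 1), 7), ((3, 4), (6, 0), 1), ((3, 4), (6, 1), 7), ((4, 0), (7, 1), 7),
    ((4, 0), (7, 8), 6), ((4, 2), (7, 1), 7), ((4, 2), (7, 8), 6), ((4, 3), (7, 1), 7), ((4,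
    3), (7, 8), 6), ((5, 2), (5, 4), 9), ((5, 2), (5, 9), 8), ((6, 2), (8, 7), 4), ((6, 2),
    (8, 9), 8), ((8, 2), (9, 5), 5), ((8, 2), (9, 8), 6)]
  G := [[0,
    0x2121111212161e3c1e921211111696121321215c8d823122429b1315161f291211e561811281298a921411e521c416222222e1211128222291621229121c52192216e54e,
    0x1112121111116146111111111e118181111111c1e2c111141111e1211144111111121e1c6111121a182cc,
    0x22222b22b1421213228545476921212239452822322d181124cdcb21ce21c162822922d38222828b7191a17a19cc223723a124131122226c752222ac12112124b422f99112532d9c3211128c22a26131d1a222422e321223322245cdf4822181844d,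
    0x82ab41451b15141fc24256152111411682412f4943114e1491114216d4842a1443443c14818d4822a16848589bac44444444f1341523465924a12263b441c41c43c144d444e1c4141324464c1cf241415814454459441a192cc]]

noncomputable def n3593 : Ent := ⟨e3593, noF, [], [], []⟩

def c3593 : PLift (Cov.check n3593.C.D v3593 = true) := ⟨by decide +kernel⟩

def b3593 : PLift (entF (fidx ts) 400 3593 n3593 = true) := ⟨by decide +kernel⟩

theorem g3593 : GoodF (fidx ts) 400 3593 := GoodF.ofV v3593 n3593 c3593.down b3593.down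

/-- 474748446:2709 -/
noncomputable def e3594 : SCfg where
  D := {
    a := 9
    L := 11
    kp := 10
    inn := [(0, 1), (1, 0), (1, 2), (1, 3), (1, 4), (1, 5), (2, 1), (2, 3), (3, 1), (3, 2), (3, 5), (3,
      8), (4, 1), (4, 5), (5, 1), (5, 3), (5, 4), (5, 6), (5, 7), (5, 8), (6, 5), (6, 8), (7, 5),
      (8, 3), (8, 5), (8, 6)]
    mix := [(0, 0), (0, 1), (0, 2), (1, 0), (1, 2), (2, 2), (2, 3), (3, 3), (3, 4), (3, 5), (4, 0), (4,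
      6), (5, 6), (5, 7), (6, 7), (6, 8), (7, 6), (7, 7), (7, 9), (8, 5), (8, 8), (8, 10)]
    cl := [3, 8, 0, 4, 9, 5, 1, 2, 6, 10, 7]
    chq := [(0, 1), (0, 2), (0, 3), (1, 0), (1, 2), (2, 0), (2, 1), (2, 4), (3, 0), (4, 2), (4, 5), (4,
      6), (4, 7), (5, 4), (6, 4), (7, 4)]
    rng := [(0, 1), (0, 6), (1, 0), (1, 2), (2, 1), (2, 3), (3, 2), (3, 4), (4, 3), (4, 5), (5, 4), (5,
      10), (6, 0), (6, 9), (7, 8), (7, 9), (8, 7), (8, 10), (9, 6), (9, 7), (10, 5), (10, 8)]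
    lev := [] }
  links := [[1, 9, 10, 11], [9, 0, 11, 2, 3, 5, 4], [3, 1, 11, 12], [5, 1, 2, 12, 13, 14, 8], [9, 1, 5,
    15], [15, 4, 1, 3, 8, 6, 16, 7], [16, 5, 8, 17], [15, 5, 16, 18], [17, 6, 5, 3, 14, 19]]
  P := {
    a := 9
    N := 20
    nb := [3586, 2621, 6154, 28966, 33314, 98778, 196896, 360480, 671848, 33811, 2561, 5127, 10252,
      20488, 532744, 262832, 393440, 590144, 98432, 147712]
    tri := [(0, 1, 9), (0, 1, 11), (0, 9, 10), (0, 10, 11), (1, 2, 3), (1, 2, 11), (1, 3, 5), (1, 4,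
      5), (1, 4, 9), (2, 3, 12), (2, 11, 12), (3, 5, 8), (3, 8, 14), (3, 12, 13), (3, 13, 14), (4,
      5, 15), (4, 9, 15), (5, 6, 8), (5, 6, 16), (5, 7, 15), (5, 7, 16), (6, 8, 17), (6, 16, 17),
      (7, 15, 18), (7, 16, 18), (8, 14, 19), (8, 17, 19)]
    fin := [0, 1, 1, 3, 0, 1, 3, 7, 3, 0, 10, 1, 3, 13, 14, 15, 7, 17, 18, 19]
    chd := [(0, 1), (1, 7), (1, 15), (3, 7), (3, 14), (3, 17), (3, 19), (15, 7)]
    steps := [(0, 9), (0, 4), (1, 2), (1, 5), (1, 11), (3, 8), (3, 6), (3, 12), (7, 16)] }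
  rep := [1, 15, 7, 0, 3, 14, 17, 19, 10, 13, 18]

noncomputable def v3594 : Cov.CovD where
  P := 3
  N := 8
  pl := [1, 4, 9]
  lev := [⟨[], [], [(0, 3)], [8], [(0, 3, [0]), (2, 0, [1, 2, 3])]⟩,
    ⟨[], [(0, 0), (0, 3)], [(0, 3)], [], [(0, 3, [0]), (2, 0, [1, 2, 3])]⟩,
    ⟨[(0, 1)], [(0, 0), (1, 0), (1, 3), (1, 4)], [(0, 4)], [], [(2, 0, [1, 2, 3]), (3, 4,
      [2, 5, 6, 7])]⟩,
    ⟨[(0, 1), (1, 2)], [(1, 0), (1, 3), (1, 4), (1, 5), (2, 0), (2, 4), (2, 5)], [(4, 5)],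
      [9], [(3, 4, [2, 5, 6, 7]), (5, 5, [4])]⟩,
    ⟨[(0, 1), (1, 2), (1, 3)], [(0, 3), (1, 0), (1, 1), (1, 3)], [(1, 3)], [], [(0, 3,
      [0]), (6, 1, [0, 2])]⟩,
    ⟨[(0, 1), (1, 2), (1, 3), (1, 4), (2, 3), (3, 4)], [(1, 0), (1, 1), (1, 2), (1, 3), (3,
      1), (3, 2), (3, 4), (3, 5), (4, 1), (4, 2), (4, 3)], [(1, 2)], [], [(6, 1, [0, 2]), (7,
      2, [0, 1, 4])]⟩,
    ⟨[(1, 5), (3, 5), (4, 5)], [(5, 1), (5, 2), (5, 6)], [(2, 6)], [], [(7, 2, [0, 1, 4]),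
      (8, 6, [4])]⟩,
    ⟨[(1, 5), (3, 5), (4, 5), (5, 6)], [(4, 1), (5, 1), (5, 2), (6, 2)], [(1, 2)], [10],
      [(6, 1, [0, 2]), (7, 2, [0, 1, 4])]⟩,
    ⟨[(1, 3), (1, 5), (2, 3), (3, 5), (3, 6), (4, 5), (5, 6), (5, 7)], [(3, 4), (3, 5), (3,
      6), (3, 7), (5, 1), (5, 2), (5, 5), (5, 6), (5, 7), (6, 2), (6, 5), (6, 6), (6, 7)],
      [(5, 6), (5, 7), (6, 7)], [], [(5, 5, [4]), (8, 6, [4]), (10, 7, [4])]⟩]
  Ta := []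
  Tb := [((0, 1, 6), 3, 8, 1), ((1, 0, 2), 8, 3, 0), ((2, 1, 3), 0, 8, 4), ((3, 2, 4), 4, 0, 9),
    ((4, 3, 5), 9, 4, 5), ((5, 4, 10), 5, 9, 7), ((6, 0, 9), 1, 3, 10), ((7, 8, 9), 2, 6,
    10), ((8, 7, 10), 6, 2, 7), ((9, 6, 7), 10, 1, 2), ((10, 5, 8), 7, 5, 6)]
  Tc := [(0, 1, 2), (0, 1, 3), (0, 2, 3), (1, 0, 2), (2, 0, 1), (2, 0, 4), (2, 1, 4), (4, 2, 5),
    (4, 2, 6), (4, 2, 7), (4, 5, 6), (4, 5, 7), (4, 6, 7)]
  Td := [((0, 1), (2, 1), 8), ((0, 1), (2, 3), 4), ((0, 2), (2, 1), 8), ((0, 2), (2, 3), 4), ((0,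
    3), (2, 1), 8), ((0, 3), (2, 3), 4), ((1, 0), (6, 0), 3), ((1, 0), (6, 9), 10), ((1, 2),
    (6, 0), 3), ((1, 2), (6, 9), 10), ((2, 0), (7, 8), 6), ((2, 0), (7, 9), 10), ((2, 1), (7,
    8), 6), ((2, 1), (7, 9), 10), ((2, 4), (7, 8), 6), ((2, 4), (7, 9), 10), ((3, 0), (0, 1),
    8), ((3, 0), (0, 6), 1), ((4, 2), (3, 2), 0), ((4, 2), (3, 4), 9), ((4, 5), (3, 2), 0),
    ((4, 5), (3, 4), 9), ((4, 6), (3, 2), 0), ((4, 6), (3, 4), 9), ((4, 7), (3, 2), 0), ((4,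
    7), (3, 4), 9), ((5, 4), (5, 4), 9), ((5, 4), (5, 10), 7), ((6, 4), (8, 7), 2), ((6, 4),
    (8, 10), 7), ((7, 4), (10, 5), 5), ((7, 4), (10, 8), 6)]
  G := [[0,
    0xa11aac458c1d194881a1548727148426161584818427181c1d84ba71144c85271482961842a1b1584cce1,
    0xa8c4181849441c8c1c1514818c17231283411121a81714845131681f41645848a5122c9412ac1819184181b1641f5148188814c6e1,
    0x4492182999248255c218198d218ccc218de2549214289c214255c214918d21461c46882c1de2899254c25222ddc21222119144c251449281911c188c2918892415cee,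
    0x3a998a8b14549189a1e844a156476944318311814444984d149811118991181c881112f9c1b89bc769769a111189212893b9b888911111c918a9811613e8897181689b89f4e229214418998988b15118c4a129214468a1941189c8291455679a81b18e1a111189814d938889188818181389ba739184456918a161185aa98148881488814fcedc958a151189245591cc98942256918a13691868b17116829d21813b9ba8891c881c881117f9c1b8dd4ee]]

noncomputable def n3594 : Ent := ⟨e3594, noF, [], [], [(10, 19, [130296143695408343586455050064352370635079224267853574415018227909354223333377, 0]), (10, 17, [137534916119805384184757819924896107794424425793352985286442448516050086559745, 0]), (10, 18, [137533149272740605800428236627395364875908598309456109667484326909848793944065, 0])]⟩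

def c3594 : PLift (Cov.check n3594.C.D v3594 = true) := ⟨by decide +kernel⟩

def b3594 : PLift (entF (fidx ts) 400 3594 n3594 = true) := ⟨by decide +kernel⟩

theorem g3594 : GoodF (fidx ts) 400 3594 := GoodF.ofV v3594 n3594 c3594.down b3594.down

/-- The entries 3480 to 3594. -/
theorem rE25 : Rng (GoodF (fidx ts) 400) 3480 3595 :=
  ((((((((((((((((((((((((((((((((((((((((((((((((((((((((((((((((((((((((((((((((((((((((((((((((((((((((((((((((((((Rng.nil _ 3480).snoc g3480 rfl).snoc g3481 rfl).snoc g3482 rfl).snoc g3483 rfl).snoc g3484 rfl).snoc g3485 rfl).snoc g3486 rfl).snoc g3487 rfl).snoc g3488 rfl).snoc g3489 rfl).snoc g3490 rfl).snoc g3491 rfl).snoc g3492 rfl).snoc g3493 rfl).snoc g3494 rfl).snoc g3495 rfl).snoc g3496 rfl).snoc g3497 rfl).snoc g3498 rfl).snoc g3499 rfl).snoc g3500 rfl).snoc g3501 rfl).snoc g3502 rfl).snoc g3503 rfl).snoc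 g3504 rfl).snoc g3505 rfl).snoc g3506 rfl).snoc g3507 rfl).snoc g3508 rfl).snoc g3509 rfl).snoc g3510 rfl).snoc g3511 rfl).snoc g3512 rfl).snoc g3513 rfl).snoc g3514 rfl).snoc g3515 rfl).snoc g3516 rfl).snoc g3517 rfl).snoc g3518 rfl).snoc g3519 rfl).snoc g3520 rfl).snoc g3521 rfl).snoc g3522 rfl).snoc g3523 rfl).snoc g3524 rfl).snoc g3525 rfl).snoc g3526 rfl).snoc g3527 rfl).snoc g3528 rfl).snoc g3529 rfl).snoc g3530 rfl).snoc g3531 rfl).snoc g3532 rfl).snoc g3533 rfl).snoc g3534 rfl).snoc g3535 rfl).snoc g3536 rfl).snoc g3537 rfl).snoc g3538 rfl).snoc g3539 rfl).snoc g3540 rfl).snoc g3541 rfl).snoc g3542 rfl).snoc g3543 rfl).snoc g3544 rfl).snoc g3545 rfl).snoc g3546 rfl).snoc g3547 rfl).snoc g3548 rfl).snoc g3549 rfl).snoc g3550 rfl).snoc g3551 rfl).snoc g3552 rfl).snoc g3553 rfl).snoc g3554 rfl).snoc g3555 rfl).snoc g3556 rfl).snoc g3557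 rfl).snoc g3558 rfl).snoc g3559 rfl).snoc g3560 rfl).snoc g3561 rfl).snoc g3562 rfl).snoc g3563 rfl).snoc g3564 rfl).snoc g3565 rfl).snoc g3566 rfl).snoc g3567 rfl).snoc g3568 rfl).snoc g3569 rfl).snoc g3570 rfl).snoc g3571 rfl).snoc g3572 rfl).snoc g3573 rfl).snoc g3574 rfl).snoc g3575 rfl).snoc g3576 rfl).snoc g3577 rfl).snoc g3578 rfl).snoc g3579 rfl).snoc g3580 rfl).snoc g3581 rfl).snoc g3582 rfl).snoc g3583 rfl).snoc g3584 rfl).snoc g3585 rfl).snoc g3586 rfl).snoc g3587 rfl).snoc g3588 rfl).snoc g3589 rfl).snoc g3590 rfl).snoc g3591 rfl).snoc g3592 rfl).snoc g3593 rfl).snoc g3594 rfl)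

end Pool.Agent.W986.ST.Dat
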