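import Pool.Agent.W986.Dat.Tab
import Pool.Agent.W986.SubAltB

/-!
# Entries 3595 to 3711 of the table
-/

set_option autoImplicit false

namespace Pool.Agent.W986.ST.Dat

/-- 10666444:2711 -/
noncomputable def e3595 : SCfg where
  D := {
    a := 7
    L := 11
    kp := 9
    inn := [(0, 1), (0, 2), (0, 3), (0, 4), (0, 5), (0, 6), (1, 0), (1, 3), (1, 4), (2, 0), (2, 4), (2,
      5), (3, 0), (3, 1), (3, 6), (4, 0), (4, 1), (4, 2), (5, 0), (5, 2), (6, 0), (6, 3)]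
    mix := [(0, 0), (0, 1), (0, 2), (0, 3), (1, 4), (1, 5), (1, 6), (2, 4), (2, 7), (2, 8), (3, 5), (3,
      9), (3, 10), (4, 4), (5, 0), (5, 7), (6, 3), (6, 9)]
    cl := [0, 8, 9, 0, 1, 3, 5, 2, 6, 4, 7]
    chq := [(0, 1), (0, 3), (0, 5), (0, 6), (0, 7), (1, 0), (3, 0), (5, 0), (6, 0), (7, 0)]
    rng := [(0, 1), (0, 7), (1, 0), (1, 2), (2, 1), (2, 3), (3, 2), (3, 9), (4, 6), (4, 8), (5, 6), (5,
      10), (6, 4), (6, 5), (7, 0), (7, 8), (8, 4), (8, 7), (9, 3), (9, 10), (10, 5), (10, 9)]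
    lev := [] }
  links := [[1, 4, 2, 5, 7, 8, 9, 10, 6, 3], [11, 4, 0, 3, 12, 13], [14, 5, 0, 4, 11, 15], [12, 1, 0, 6,
    16, 17], [0, 1, 11, 2], [0, 2, 14, 7], [0, 10, 16, 3]]
  P := {
    a := 7
    N := 18
    nb := [2046, 14361, 51249, 200771, 2055, 16517, 66569, 16673, 641, 1281, 66113, 40982, 139274,
      6146, 32932, 18436, 132168, 69640]
    tri := [(0, 1, 3), (0, 1, 4), (0, 2, 4), (0, 2, 5), (0, 3, 6), (0, 5, 7), (0, 6, 10), (0, 7, 8),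
      (0, 8, 9), (0, 9, 10), (1, 3, 12), (1, 4, 11), (1, 11, 13), (1, 12, 13), (2, 4, 11), (2, 5,
      14), (2, 11, 15), (2, 14, 15), (3, 6, 16), (3, 12, 17), (3, 16, 17), (5, 7, 14), (6, 10,
      16)]
    fin := [0, 0, 0, 0, 0, 0, 0, 0, 8, 9, 0, 11, 12, 13, 14, 15, 16, 17]
    chd := [(0, 11), (0, 12), (0, 13), (0, 15), (0, 17)]
    steps := [(0, 1), (0, 3), (0, 4), (0, 2), (0, 5), (0, 6), (0, 7), (0, 10)] }
  rep := [0, 11, 14, 12, 16, 13, 15, 17, 8, 9]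

noncomputable def v3595 : Cov.CovD where
  P := 3
  N := 7
  pl := [1, 2, 7, 9]
  lev := [⟨[], [], [(0, 0)], [8, 9], [(0, 0, [1, 3, 5, 6, 7]), (3, 0, [1, 3, 5, 6, 7])]⟩,
    ⟨[], [(0, 0), (0, 1), (0, 3), (0, 5)], [(1, 3), (1, 5), (3, 5)], [], [(4, 1, [0]), (5,
      3, [0]), (6, 5, [0])]⟩,
    ⟨[(0, 1)], [(0, 0), (0, 1), (0, 6), (1, 1)], [(1, 6)], [2], [(4, 1, [0]), (8, 6, [0])]⟩,
    ⟨[(0, 1), (0, 2)], [(0, 0), (0, 3), (0, 7), (1, 1), (1, 3), (1, 5), (1, 7)], [(3, 7)],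
      [4], [(5, 3, [0]), (10, 7, [0])]⟩,
    ⟨[(0, 1), (0, 2), (0, 3), (1, 2), (1, 3)], [(0, 0), (0, 1), (1, 1), (1, 3), (1, 5), (2,
      1), (2, 6)], [], [], [(4, 1, [0])]⟩,
    ⟨[(0, 1), (0, 2), (0, 3), (0, 4), (2, 4)], [(0, 0), (2, 0), (2, 1), (2, 6)], [], [2],
      [(0, 0, [1, 3, 5, 6, 7])]⟩,
    ⟨[(0, 1), (0, 2), (0, 3), (0, 4), (0, 5), (1, 3)], [(0, 0), (3, 0), (3, 3), (3, 7)],
      [], [4], [(3, 0, [1, 3, 5, 6, 7])]⟩]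
  Ta := [((0, 1), 0, 8), ((0, 7), 0, 2), ((3, 2), 0, 9), ((3, 9), 0, 4)]
  Tb := [((0, 1, 7), 0, 8, 2), ((1, 0, 2), 8, 0, 9), ((2, 1, 3), 9, 8, 0), ((3, 2, 9), 0, 9, 4),
    ((4, 6, 8), 1, 5, 6), ((5, 6, 10), 3, 5, 7), ((6, 4, 5), 5, 1, 3), ((7, 0, 8), 2, 0, 6),
    ((8, 4, 7), 6, 1, 2), ((9, 3, 10), 4, 0, 7), ((10, 5, 9), 7, 3, 4)]
  Tc := [(0, 1, 3), (0, 1, 5), (0, 1, 6), (0, 1, 7), (0, 3, 5), (0, 3, 6), (0, 3, 7), (0, 5, 6),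
    (0, 5, 7), (0, 6, 7)]
  Td := [((0, 1), (0, 1), 8), ((0, 1), (0, 7), 2), ((0, 1), (3, 2), 9), ((0, 1), (3, 9), 4), ((0,
    3), (0, 1), 8), ((0, 3), (0, 7), 2), ((0, 3), (3, 2), 9), ((0, 3), (3, 9), 4), ((0, 5),
    (0, 1), 8), ((0, 5), (0, 7), 2), ((0, 5), (3, 2), 9), ((0, 5), (3, 9), 4), ((0, 6), (0,
    1), 8), ((0, 6), (0, 7), 2), ((0, 6), (3, 2), 9), ((0, 6), (3, 9), 4), ((0, 7), (0, 1),
    8), ((0, 7), (0, 7), 2), ((0, 7), (3, 2), 9), ((0, 7), (3, 9), 4), ((1, 0), (4, 6), 5),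
    ((1, 0), (4, 8), 6), ((3, 0), (5, 6), 5), ((3, 0), (5, 10), 7), ((5, 0), (6, 4), 1), ((5,
    0), (6, 5), 3), ((6, 0), (8, 4), 1), ((6, 0), (8, 7), 2), ((7, 0), (10, 5), 3), ((7, 0),
    (10, 9), 4)]
  G := [[0, 0x6441164811c4211ec8211a8811a8811ec8211c8211c8811ee,
    0x62416241c1a481a281c1a841c841c1e,
    0x4411184411144148148648f1d4811188111884188184a48f1dc841188411488184148c48f1de,
    0x4211162111124424228628f1d4281188811828128224a24f1d4841188811188124184c84f1de], [0,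
    0x64211a4411c4411ea4811a8211a8411ea4811c4211c8411ee, 0,
    0x4441184111344448248a44f1d4811188111848988284a84f1d4841188811844444c48688f1de,
    0x4211182111324484224628f1d4881188811824a28288a84f1d4881168811884484584c88f1de]]

noncomputable def n3595 : Ent := ⟨e3595, noF, [], [], []⟩

def c3595 : PLift (Cov.check n3595.C.D v3595 = true) := ⟨by decide +kernel⟩

def b3595 : PLift (entF (fidx ts) 400 3595 n3595 = true) := ⟨by decide +kernel⟩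

theorem g3595 : GoodF (fidx ts) 400 3595 := GoodF.ofV v3595 n3595 c3595.down b3595.down

/-- 76544:2713/1 -/
noncomputable def e3596 : SCfg where
  D := {
    a := 5
    L := 9
    kp := 6
    inn := [(0, 2), (0, 3), (1, 3), (1, 4), (2, 0), (3, 0), (3, 1), (4, 1)]
    mix := [(0, 0), (0, 1), (0, 2), (0, 3), (0, 4), (1, 0), (1, 1), (1, 5), (1, 6), (2, 1), (2, 2), (2,
      7), (2, 8), (3, 0), (3, 1), (4, 1), (4, 5), (4, 7)]
    cl := [0, 0, 0, 4, 5, 3, 2, 1, 6]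
    chq := [(1, 2), (2, 1)]
    rng := [(0, 4), (0, 6), (1, 7), (2, 3), (2, 8), (3, 2), (3, 4), (4, 0), (4, 3), (5, 6), (5, 7), (6,
      0), (6, 5), (7, 1), (7, 5), (7, 8), (8, 2), (8, 7)]
    lev := [] }
  links := [[5, 3, 6, 2, 7, 8, 9], [10, 4, 6, 3, 5, 11], [0, 6, 12, 13, 7], [6, 0, 5, 1], [6, 1, 10, 12]]
  P := {
    a := 5
    N := 14
    nb := [1004, 3192, 12481, 99, 5186, 2571, 4127, 8453, 641, 289, 6162, 1058, 9300, 4228]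
    tri := [(0, 2, 6), (0, 2, 7), (0, 3, 5), (0, 3, 6), (0, 5, 9), (0, 7, 8), (0, 8, 9), (1, 3, 5), (1,
      3, 6), (1, 4, 6), (1, 4, 10), (1, 5, 11), (1, 10, 11), (2, 6, 12), (2, 7, 13), (2, 12, 13),
      (4, 6, 12), (4, 10, 12)]
    fin := [0, 1, 0, 0, 1, 0, 0, 0, 8, 9, 10, 1, 12, 13]
    chd := [(1, 12)]
    steps := [(0, 2), (0, 3), (0, 5), (0, 6), (0, 7), (1, 4), (1, 11)] }
  rep := [0, 12, 1, 10, 8, 9, 13]

noncomputable def v3596 : Cov.CovD where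
  P := 3
  N := 4
  pl := [3, 4, 5, 8]
  lev := [⟨[], [], [(0, 0)], [4, 5], [(0, 0, []), (1, 0, []), (2, 0, [])]⟩,
    ⟨[], [(0, 0)], [(0, 0), (0, 2)], [3], [(0, 0, []), (1, 0, []), (6, 2, [1])]⟩,
    ⟨[], [(0, 0), (0, 1), (1, 0)], [(0, 0), (0, 1)], [6], [(1, 0, []), (2, 0, []), (7, 1,
      [2])]⟩,
    ⟨[(0, 1), (0, 2)], [(0, 0), (1, 0), (1, 2), (2, 0)], [(0, 0)], [], [(0, 0, []), (1, 0,
      [])]⟩,
    ⟨[(1, 3)], [(0, 0), (1, 0), (1, 1), (1, 2), (2, 0), (2, 1), (3, 0)], [(0, 1)], [3],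
      [(1, 0, []), (7, 1, [2])]⟩]
  Ta := [((0, 4), 0, 5), ((0, 6), 0, 2), ((1, 7), 0, 1), ((2, 3), 0, 4), ((2, 8), 0, 6)]
  Tb := [((0, 4, 6), 0, 5, 2), ((2, 3, 8), 0, 4, 6), ((3, 2, 4), 4, 0, 5), ((4, 0, 3), 5, 0, 4),
    ((5, 6, 7), 3, 2, 1), ((6, 0, 5), 2, 0, 3), ((7, 1, 5), 1, 0, 3), ((7, 1, 8), 1, 0, 6),
    ((7, 5, 8), 1, 3, 6), ((8, 2, 7), 6, 0, 1)]
  Tc := []
  Td := [((1, 2), (7, 1), 0), ((1, 2), (7, 5), 3), ((1, 2), (7, 8), 6), ((2, 1), (6, 0), 0), ((2,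
    1), (6, 5), 3)]
  G := [[0, 0, 0x1212c1218ca1418c1812cc1848c1418cae, 0x822182c982258c4c2e,
    0x8284c4214ca1882c4448ca8212c4448cae], [0, 0x8422c48226c228464842cc248464848cce, 0,
    0xc822822482ac4c4c2e, 0x8284c4448ca4882cc442ca8484c4448cae], [0, 0, 0,
    0x842482c982298c4c2e, 0x8284c4218ca8282c4412ca8482c1444cae]]

noncomputable def n3596 : Ent := ⟨e3596, noF, [], [], []⟩

def c3596 : PLift (Cov.check n3596.C.D v3596 = true) := ⟨by decide +kernel⟩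

def b3596 : PLift (entF (fidx ts) 400 3596 n3596 = true) := ⟨by decide +kernel⟩

theorem g3596 : GoodF (fidx ts) 400 3596 := GoodF.ofV v3596 n3596 c3596.down b3596.down

/-- 76544:2713 -/
noncomputable def e3597 : SCfg where
  D := {
    a := 5
    L := 10
    kp := 7
    inn := [(0, 2), (0, 3), (1, 3), (1, 4), (2, 0), (3, 0), (3, 1), (4, 1)]
    mix := [(0, 0), (0, 1), (0, 2), (0, 3), (0, 4), (1, 0), (1, 1), (1, 5), (1, 6), (2, 1), (2, 2), (2,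
      7), (2, 8), (3, 0), (3, 1), (4, 1), (4, 5), (4, 9)]
    cl := [0, 0, 0, 2, 5, 3, 1, 6, 7, 4]
    chq := [(1, 4), (4, 1)]
    rng := [(0, 4), (0, 6), (1, 7), (1, 9), (2, 3), (2, 8), (3, 2), (3, 4), (4, 0), (4, 3), (5, 6), (5,
      9), (6, 0), (6, 5), (7, 1), (7, 8), (8, 2), (8, 7), (9, 1), (9, 5)]
    lev := [] }
  links := [[5, 3, 6, 2, 7, 8, 9], [10, 4, 6, 3, 5, 11], [0, 6, 12, 13, 7], [6, 0, 5, 1], [6, 1, 10, 14]]
  P := {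
    a := 5
    N := 15
    nb := [1004, 3192, 12481, 99, 17474, 2571, 20511, 8453, 641, 289, 18450, 1058, 8260, 4228, 1104]
    tri := [(0, 2, 6), (0, 2, 7), (0, 3, 5), (0, 3, 6), (0, 5, 9), (0, 7, 8), (0, 8, 9), (1, 3, 5), (1,
      3, 6), (1, 4, 6), (1, 4, 10), (1, 5, 11), (1, 10, 11), (2, 6, 12), (2, 7, 13), (2, 12, 13),
      (4, 6, 14), (4, 10, 14)]
    fin := [0, 1, 0, 0, 1, 0, 0, 0, 8, 9, 10, 1, 12, 13, 14]
    chd := [(1, 14)]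
    steps := [(0, 2), (0, 3), (0, 5), (0, 6), (0, 7), (1, 4), (1, 11)] }
  rep := [0, 1, 8, 10, 14, 9, 12, 13]

noncomputable def v3597 : Cov.CovD where
  P := 3
  N := 5
  pl := [3, 4, 5, 7, 8]
  lev := [⟨[], [], [(0, 0)], [2, 5], [(0, 0, []), (1, 0, []), (2, 0, [])]⟩,
    ⟨[], [(0, 0)], [(0, 0), (0, 1)], [3], [(0, 0, []), (1, 0, []), (6, 1, [4])]⟩,
    ⟨[], [(0, 0), (1, 0)], [(0, 0)], [6, 7], [(1, 0, []), (2, 0, [])]⟩,
    ⟨[(0, 1), (0, 2)], [(0, 0), (1, 0), (1, 1), (2, 0)], [(0, 0)], [], [(0, 0, []), (1, 0,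
      [])]⟩,
    ⟨[(1, 3)], [(0, 0), (1, 0), (1, 1), (1, 4), (2, 0), (3, 0)], [(0, 4)], [3], [(1, 0,
      []), (9, 4, [1])]⟩]
  Ta := [((0, 4), 0, 5), ((0, 6), 0, 1), ((1, 7), 0, 6), ((1, 9), 0, 4), ((2, 3), 0, 2), ((2, 8),
    0, 7)]
  Tb := [((0, 4, 6), 0, 5, 1), ((1, 7, 9), 0, 6, 4), ((2, 3, 8), 0, 2, 7), ((3, 2, 4), 2, 0, 5),
    ((4, 0, 3), 5, 0, 2), ((5, 6, 9), 3, 1, 4), ((6, 0, 5), 1, 0, 3), ((7, 1, 8), 6, 0, 7),
    ((8, 2, 7), 7, 0, 6), ((9, 1, 5), 4, 0, 3)]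
  Tc := []
  Td := [((1, 4), (6, 0), 0), ((1, 4), (6, 5), 3), ((4, 1), (9, 1), 0), ((4, 1), (9, 5), 3)]
  G := [[0, 0x141412e121812ec121218e121218e6c, 0, 0x121224e222814ec122824e221212ecc,
    0x122212e241424ec121418e222428eca], [0, 0, 0, 0xe46222e22a8e8ece2e262e2228a8ecc,
    0xe2e2e4e222422eca2a4e4e686828eca], [0, 0, 0x281214e122222ec282428e181214ec6,
    0x142224e241418ec221822e122218ecc, 0x141222e242414ec282824e181214eca]]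

noncomputable def n3597 : Ent := ⟨e3597, noF, [], [], [(14, 12, [81623781614101222371308947630499991391842216896340265320449, 0])]⟩

def c3597 : PLift (Cov.check n3597.C.D v3597 = true) := ⟨by decide +kernel⟩

def b3597 : PLift (entF (fidx ts) 400 3597 n3597 = true) := ⟨by decide +kernel⟩

theorem g3597 : GoodF (fidx ts) 400 3597 := GoodF.ofV v3597 n3597 c3597.down b3597.down

/-- 8567444:2714/2 -/
noncomputable def e3598 : SCfg where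
  D := {
    a := 7
    L := 9
    kp := 6
    inn := [(0, 1), (0, 4), (0, 5), (0, 6), (1, 0), (1, 2), (1, 3), (1, 4), (2, 1), (2, 3), (3, 1), (3,
      2), (3, 4), (4, 0), (4, 1), (4, 3), (5, 0), (6, 0)]
    mix := [(0, 0), (0, 1), (0, 2), (0, 3), (1, 1), (2, 1), (2, 4), (2, 5), (2, 6), (3, 0), (3, 5), (3,
      7), (3, 8), (4, 0), (5, 1), (5, 2), (5, 4), (6, 2), (6, 3), (6, 8)]
    cl := [0, 0, 3, 4, 1, 0, 5, 6, 2]
    chq := [(1, 2), (1, 4), (2, 1), (4, 1)]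
    rng := [(0, 3), (0, 7), (1, 4), (2, 4), (2, 8), (3, 0), (3, 8), (4, 1), (4, 2), (4, 6), (5, 6), (5,
      8), (6, 4), (6, 5), (7, 0), (7, 8), (8, 2), (8, 3), (8, 5), (8, 7)]
    lev := [] }
  links := [[7, 4, 1, 8, 5, 9, 6, 10], [2, 8, 0, 4, 3], [11, 8, 1, 3, 12, 13], [12, 2, 1, 4, 7, 14, 15],
    [1, 0, 7, 3], [8, 11, 9, 0], [0, 9, 15, 10]]
  P := {
    a := 7
    N := 16
    nb := [2034, 285, 14602, 53398, 139, 2817, 34305, 17433, 2087, 34913, 32961, 8996, 40972, 6148,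
      32904, 22088]
    tri := [(0, 1, 4), (0, 1, 8), (0, 4, 7), (0, 5, 8), (0, 5, 9), (0, 6, 9), (0, 6, 10), (0, 7, 10),
      (1, 2, 3), (1, 2, 8), (1, 3, 4), (2, 3, 12), (2, 8, 11), (2, 11, 13), (2, 12, 13), (3, 4,
      7), (3, 7, 14), (3, 12, 15), (3, 14, 15), (5, 8, 11), (5, 9, 11), (6, 9, 15), (6, 10, 15)]
    fin := [0, 1, 1, 1, 1, 0, 6, 1, 1, 9, 10, 0, 1, 13, 14, 6]
    chd := [(0, 6), (10, 0)]
    steps := [(0, 5), (0, 11), (1, 3), (1, 4), (1, 7), (1, 12), (1, 8), (1, 2), (6, 15)] }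
  rep := [1, 0, 6, 9, 10, 13, 14]

noncomputable def v3598 : Cov.CovD where
  P := 3
  N := 4
  pl := [2, 6, 7]
  lev := [⟨[], [], [(0, 0), (0, 4)], [3], [(0, 0, []), (1, 0, []), (3, 4, [1])]⟩,
    ⟨[], [(0, 0), (0, 4)], [], [], [(1, 0, [])]⟩,
    ⟨[(0, 1)], [(0, 0), (1, 0), (1, 1)], [(0, 0), (0, 1)], [5], [(1, 0, []), (4, 1, [2,
      4]), (5, 0, [])]⟩,
    ⟨[(0, 1), (1, 2)], [(0, 0), (1, 0), (1, 2), (2, 0), (2, 1), (2, 2)], [(0, 0), (0, 2)],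
      [6], [(0, 0, []), (5, 0, []), (8, 2, [1])]⟩,
    ⟨[(0, 1), (0, 3), (1, 2), (1, 3), (2, 3)], [(0, 0), (0, 4), (1, 0), (3, 0), (3, 2)],
      [], [], [(0, 0, [])]⟩,
    ⟨[(0, 1), (0, 4)], [(0, 0), (0, 1), (0, 4), (1, 0), (2, 0), (2, 1)], [(0, 1)], [3],
      [(1, 0, []), (4, 1, [2, 4])]⟩,
    ⟨[(0, 1), (0, 4), (0, 5)], [(0, 0), (0, 2), (0, 4), (3, 2)], [(2, 4)], [3], [(3, 4,
      [1]), (8, 2, [1])]⟩]
  Ta := [((0, 3), 0, 4), ((0, 7), 0, 6), ((1, 4), 0, 1), ((5, 6), 0, 5), ((5, 8), 0, 2)]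
  Tb := [((0, 3, 7), 0, 4, 6), ((2, 4, 8), 3, 1, 2), ((3, 0, 8), 4, 0, 2), ((4, 1, 2), 1, 0, 3),
    ((4, 1, 6), 1, 0, 5), ((4, 2, 6), 1, 3, 5), ((5, 6, 8), 0, 5, 2), ((6, 4, 5), 5, 1, 0),
    ((7, 0, 8), 6, 0, 2), ((8, 2, 3), 2, 3, 4), ((8, 2, 5), 2, 3, 0), ((8, 2, 7), 2, 3, 6),
    ((8, 3, 5), 2, 4, 0), ((8, 3, 7), 2, 4, 6), ((8, 5, 7), 2, 0, 6)]
  Tc := [(1, 2, 4)]
  Td := [((1, 2), (4, 1), 0), ((1, 2), (4, 2), 3), ((1, 2), (4, 6), 5), ((1, 4), (4, 1), 0), ((1,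
    4), (4, 2), 3), ((1, 4), (4, 6), 5), ((2, 1), (8, 2), 3), ((2, 1), (8, 3), 4), ((2, 1),
    (8, 5), 0), ((2, 1), (8, 7), 6), ((4, 1), (3, 0), 0), ((4, 1), (3, 8), 2)]
  G := [[0, 0, 0, 0xc952841d2c282, 0x384814a8844842a43b42184a118114ac2a154223942a98ac11488ae],
    [0, 0x184182c184182ca4141148c141141c68124121c4124128c8ce, 0, 0xd1c2d1c4c282,
    0x842841a18228c2ac4141141a348141ac212c112c8a91c122c1ac4e], [0, 0,
    0x814811a812811ac44124816482412cc821161462116146c8e, 0xc1912c1542c82,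
    0x384842a842148ac1342342a342184ac1112111a118a191ac4e]]

noncomputable def n3598 : Ent := ⟨e3598, noF, [], [], []⟩

def c3598 : PLift (Cov.check n3598.C.D v3598 = true) := ⟨by decide +kernel⟩

def b3598 : PLift (entF (fidx ts) 400 3598 n3598 = true) := ⟨by decide +kernel⟩

theorem g3598 : GoodF (fidx ts) 400 3598 := GoodF.ofV v3598 n3598 c3598.down b3598.down

/-- 8567444:2714/1 -/
noncomputable def e3599 : SCfg where
  D := {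
    a := 7
    L := 10
    kp := 7
    inn := [(0, 1), (0, 4), (0, 5), (0, 6), (1, 0), (1, 2), (1, 3), (1, 4), (2, 1), (2, 3), (3, 1), (3,
      2), (3, 4), (4, 0), (4, 1), (4, 3), (5, 0), (6, 0)]
    mix := [(0, 0), (0, 1), (0, 2), (0, 3), (1, 1), (2, 1), (2, 4), (2, 5), (2, 6), (3, 0), (3, 5), (3,
      7), (3, 8), (4, 0), (5, 1), (5, 2), (5, 9), (6, 2), (6, 3), (6, 8)]
    cl := [0, 0, 1, 2, 5, 0, 6, 7, 3, 4]
    chq := [(1, 2), (2, 1), (2, 4), (4, 2)]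
    rng := [(0, 3), (0, 7), (1, 4), (1, 9), (2, 8), (2, 9), (3, 0), (3, 8), (4, 1), (4, 6), (5, 6), (5,
      8), (6, 4), (6, 5), (7, 0), (7, 8), (8, 2), (8, 3), (8, 5), (8, 7), (9, 1), (9, 2)]
    lev := [] }
  links := [[7, 4, 1, 8, 5, 9, 6, 10], [2, 8, 0, 4, 3], [11, 8, 1, 3, 12, 13], [12, 2, 1, 4, 7, 14, 15],
    [1, 0, 7, 3], [8, 16, 9, 0], [0, 9, 15, 10]]
  P := {
    a := 7
    N := 17
    nb := [2034, 285, 14602, 53398, 139, 66305, 34305, 17433, 67623, 98401, 32961, 8452, 40972, 6148,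
      32904, 22088, 800]
    tri := [(0, 1, 4), (0, 1, 8), (0, 4, 7), (0, 5, 8), (0, 5, 9), (0, 6, 9), (0, 6, 10), (0, 7, 10),
      (1, 2, 3), (1, 2, 8), (1, 3, 4), (2, 3, 12), (2, 8, 11), (2, 11, 13), (2, 12, 13), (3, 4,
      7), (3, 7, 14), (3, 12, 15), (3, 14, 15), (5, 8, 16), (5, 9, 16), (6, 9, 15), (6, 10, 15)]
    fin := [0, 1, 1, 1, 1, 0, 6, 1, 1, 6, 10, 11, 1, 13, 14, 15, 0]
    chd := [(6, 10), (10, 0)]
    steps := [(0, 5), (0, 16), (1, 2), (1, 3), (1, 4), (1, 7), (1, 12), (1, 8), (6, 9)] }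
  rep := [1, 6, 10, 15, 0, 11, 13, 14]

noncomputable def v3599 : Cov.CovD where
  P := 3
  N := 5
  pl := [4, 6, 7, 8]
  lev := [⟨[], [], [(0, 0), (0, 1), (0, 2), (1, 2)], [], [(0, 0, []), (1, 0, []), (2, 1, [2]),
      (3, 2, [1, 4])]⟩,
    ⟨[], [(0, 0), (0, 1), (0, 2)], [], [], [(1, 0, [])]⟩,
    ⟨[(0, 1)], [(0, 0), (1, 0)], [(0, 0)], [5, 6], [(1, 0, []), (5, 0, [])]⟩,
    ⟨[(0, 1), (1, 2)], [(0, 0), (1, 0), (2, 0)], [(0, 0)], [3, 7], [(0, 0, []), (5, 0,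
      [])]⟩,
    ⟨[(0, 1), (0, 3), (1, 2), (1, 3), (2, 3)], [(0, 0), (0, 1), (0, 2), (1, 0), (3, 0)],
      [], [], [(0, 0, [])]⟩,
    ⟨[(0, 1), (0, 4)], [(0, 0), (0, 1), (0, 2), (0, 4), (1, 0), (2, 0)], [(0, 1), (0, 4),
      (1, 4)], [], [(1, 0, []), (2, 1, [2]), (9, 4, [2])]⟩,
    ⟨[(0, 1), (0, 4), (0, 5)], [(0, 0), (0, 1), (0, 2), (5, 1)], [(1, 2)], [3], [(2, 1,
      [2]), (3, 2, [1, 4])]⟩]
  Ta := [((0, 3), 0, 2), ((0, 7), 0, 7), ((1, 4), 0, 5), ((1, 9), 0, 4), ((5, 6), 0, 6), ((5, 8),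
    0, 3)]
  Tb := [((0, 3, 7), 0, 2, 7), ((1, 4, 9), 0, 5, 4), ((2, 8, 9), 1, 3, 4), ((3, 0, 8), 2, 0, 3),
    ((4, 1, 6), 5, 0, 6), ((5, 6, 8), 0, 6, 3), ((6, 4, 5), 6, 5, 0), ((7, 0, 8), 7, 0, 3),
    ((8, 2, 3), 3, 1, 2), ((8, 2, 5), 3, 1, 0), ((8, 2, 7), 3, 1, 7), ((8, 3, 5), 3, 2, 0),
    ((8, 3, 7), 3, 2, 7), ((8, 5, 7), 3, 0, 7), ((9, 1, 2), 4, 0, 1)]
  Tc := [(2, 1, 4)]
  Td := [((1, 2), (2, 8), 3), ((1, 2), (2, 9), 4), ((2, 1), (3, 0), 0), ((2, 1), (3, 8), 3), ((2,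
    4), (3, 0), 0), ((2, 4), (3, 8), 3), ((4, 2), (9, 1), 0), ((4, 2), (9, 2), 1)]
  G := [[0, 0x82242282426e8284284282ce822422c28ee14, 0x814412c14e2812414c14e812418c14ec68,
    0x124428128e822428122e824124124ee18, 0x842148148e844142144e844142148ee18], [0,
    0x822428c28e824428c28e6824422c28e8a4, 0, 0x822121128e2121428124e128128121eca4,
    0x14144141141141e841141a142141144eec8], [0, 0x822424c22e824428c24e822422c24ee18, 0,
    0x4121226821422114e824412121ee8228894, 0x842942142e844142944e842944144ee18]]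

noncomputable def n3599 : Ent := ⟨e3599, noF, [], [], [(11, 16, [1580044410770988437309982408355971841652082177953823432505703849985, 0])]⟩

def c3599 : PLift (Cov.check n3599.C.D v3599 = true) := ⟨by decide +kernel⟩

def b3599 : PLift (entF (fidx ts) 400 3599 n3599 = true) := ⟨by decide +kernel⟩

theorem g3599 : GoodF (fidx ts) 400 3599 := GoodF.ofV v3599 n3599 c3599.down b3599.down

/-- 8567444:2714/4 -/
noncomputable def e3600 : SCfg where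
  D := {
    a := 7
    L := 9
    kp := 6
    inn := [(0, 1), (0, 4), (0, 5), (0, 6), (1, 0), (1, 2), (1, 3), (1, 4), (2, 1), (2, 3), (3, 1), (3,
      2), (3, 4), (4, 0), (4, 1), (4, 3), (5, 0), (6, 0)]
    mix := [(0, 0), (0, 1), (0, 2), (0, 3), (1, 1), (2, 1), (2, 4), (2, 5), (2, 6), (3, 0), (3, 5), (3,
      7), (3, 8), (4, 0), (5, 1), (5, 2), (5, 4), (6, 2), (6, 3), (6, 6)]
    cl := [0, 0, 3, 4, 1, 0, 2, 5, 6]
    chq := [(1, 4), (3, 4), (4, 1), (4, 3)]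
    rng := [(0, 3), (0, 7), (1, 4), (2, 4), (2, 6), (3, 0), (3, 6), (4, 1), (4, 2), (4, 6), (5, 6), (5,
      8), (6, 2), (6, 3), (6, 4), (6, 5), (7, 0), (7, 8), (8, 5), (8, 7)]
    lev := [] }
  links := [[7, 4, 1, 8, 5, 9, 6, 10], [2, 8, 0, 4, 3], [11, 8, 1, 3, 12, 13], [12, 2, 1, 4, 7, 14, 15],
    [1, 0, 7, 3], [8, 11, 9, 0], [0, 9, 13, 10]]
  P := {
    a := 7
    N := 16
    nb := [2034, 285, 14602, 53398, 139, 2817, 9729, 17433, 2087, 10337, 8385, 8996, 40972, 7748,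
      32904, 20488]
    tri := [(0, 1, 4), (0, 1, 8), (0, 4, 7), (0, 5, 8), (0, 5, 9), (0, 6, 9), (0, 6, 10), (0, 7, 10),
      (1, 2, 3), (1, 2, 8), (1, 3, 4), (2, 3, 12), (2, 8, 11), (2, 11, 13), (2, 12, 13), (3, 4,
      7), (3, 7, 14), (3, 12, 15), (3, 14, 15), (5, 8, 11), (5, 9, 11), (6, 9, 13), (6, 10, 13)]
    fin := [0, 1, 1, 1, 1, 0, 6, 1, 1, 6, 10, 0, 1, 13, 14, 15]
    chd := [(6, 10), (10, 0)]
    steps := [(0, 5), (0, 11), (1, 3), (1, 4), (1, 7), (1, 12), (1, 8), (1, 2), (6, 9)] }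
  rep := [1, 0, 13, 6, 10, 14, 15]

noncomputable def v3600 : Cov.CovD where
  P := 3
  N := 4
  pl := [6, 7, 8]
  lev := [⟨[], [], [(0, 0), (0, 3), (0, 4), (3, 4)], [], [(0, 0, []), (1, 0, []), (2, 3, [4]),
      (3, 4, [1, 3])]⟩,
    ⟨[], [(0, 0), (0, 3), (0, 4)], [], [], [(1, 0, [])]⟩,
    ⟨[(0, 1)], [(0, 0), (1, 0), (1, 1)], [(0, 0), (0, 1)], [2], [(1, 0, []), (4, 1, [4]),
      (5, 0, [])]⟩,
    ⟨[(0, 1), (1, 2)], [(0, 0), (1, 0), (2, 0), (2, 1)], [(0, 0)], [5, 6], [(0, 0, []), (5,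
      0, [])]⟩,
    ⟨[(0, 1), (0, 3), (1, 2), (1, 3), (2, 3)], [(0, 0), (0, 3), (0, 4), (1, 0), (3, 0)],
      [], [], [(0, 0, [])]⟩,
    ⟨[(0, 1), (0, 4)], [(0, 0), (0, 1), (0, 3), (0, 4), (1, 0), (2, 0), (2, 1)], [(0, 1),
      (0, 3), (1, 3)], [], [(1, 0, []), (2, 3, [4]), (4, 1, [4])]⟩,
    ⟨[(0, 1), (0, 4), (0, 5)], [(0, 0), (0, 3), (0, 4), (5, 3)], [(3, 4)], [2], [(2, 3,
      [4]), (3, 4, [1, 3])]⟩]
  Ta := [((0, 3), 0, 4), ((0, 7), 0, 5), ((1, 4), 0, 1), ((5, 6), 0, 2), ((5, 8), 0, 6)]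
  Tb := [((0, 3, 7), 0, 4, 5), ((2, 4, 6), 3, 1, 2), ((3, 0, 6), 4, 0, 2), ((4, 1, 2), 1, 0, 3),
    ((4, 1, 6), 1, 0, 2), ((4, 2, 6), 1, 3, 2), ((5, 6, 8), 0, 2, 6), ((6, 2, 3), 2, 3, 4),
    ((6, 2, 4), 2, 3, 1), ((6, 2, 5), 2, 3, 0), ((6, 3, 4), 2, 4, 1), ((6, 3, 5), 2, 4, 0),
    ((6, 4, 5), 2, 1, 0), ((7, 0, 8), 5, 0, 6), ((8, 5, 7), 6, 0, 5)]
  Tc := [(4, 1, 3)]
  Td := [((1, 4), (4, 1), 0), ((1, 4), (4, 2), 3), ((1, 4), (4, 6), 2), ((3, 4), (2, 4), 1), ((3,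
    4), (2, 6), 2), ((4, 1), (3, 0), 0), ((4, 1), (3, 6), 2), ((4, 3), (3, 0), 0), ((4, 3),
    (3, 6), 2)]
  G := [[0, 0, 0, 0xc594c952c954e482, 0x84218228c4e81384b48342e813148298218e84e], [0,
    0x184182181e82142148142e48121128124e84e, 0, 0x1dc2d1c8d1c1e482,
    0x182842381e84342141341e8222c112c811c1e84e], [0, 0,
    0x811811814e82411411411e82211211211e84e, 0xc191c151c154e842,
    0x842812118e82384142142e81111a151a194e84e]]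

noncomputable def n3600 : Ent := ⟨e3600, noF, [], [], []⟩

def c3600 : PLift (Cov.check n3600.C.D v3600 = true) := ⟨by decide +kernel⟩

def b3600 : PLift (entF (fidx ts) 400 3600 n3600 = true) := ⟨by decide +kernel⟩

theorem g3600 : GoodF (fidx ts) 400 3600 := GoodF.ofV v3600 n3600 c3600.down b3600.down

/-- 8567444:2714/3 -/
noncomputable def e3601 : SCfg where
  D := {
    a := 7
    L := 10
    kp := 7
    inn := [(0, 1), (0, 4), (0, 5), (0, 6), (1, 0), (1, 2), (1, 3), (1, 4), (2, 1), (2, 3), (3, 1), (3,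
      2), (3, 4), (4, 0), (4, 1), (4, 3), (5, 0), (6, 0)]
    mix := [(0, 0), (0, 1), (0, 2), (0, 3), (1, 1), (2, 1), (2, 4), (2, 5), (2, 6), (3, 0), (3, 5), (3,
      7), (3, 8), (4, 0), (5, 1), (5, 2), (5, 9), (6, 2), (6, 3), (6, 6)]
    cl := [0, 0, 1, 2, 5, 0, 3, 6, 7, 4]
    chq := [(1, 2), (2, 1), (2, 4), (4, 2)]
    rng := [(0, 3), (0, 7), (1, 4), (1, 9), (2, 6), (2, 9), (3, 0), (3, 6), (4, 1), (4, 6), (5, 6), (5,
      8), (6, 2), (6, 3), (6, 4), (6, 5), (7, 0), (7, 8), (8, 5), (8, 7), (9, 1), (9, 2)]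
    lev := [] }
  links := [[7, 4, 1, 8, 5, 9, 6, 10], [2, 8, 0, 4, 3], [11, 8, 1, 3, 12, 13], [12, 2, 1, 4, 7, 14, 15],
    [1, 0, 7, 3], [8, 16, 9, 0], [0, 9, 13, 10]]
  P := {
    a := 7
    N := 17
    nb := [2034, 285, 14602, 53398, 139, 66305, 9729, 17433, 67623, 73825, 8385, 8452, 40972, 7748,
      32904, 20488, 800]
    tri := [(0, 1, 4), (0, 1, 8), (0, 4, 7), (0, 5, 8), (0, 5, 9), (0, 6, 9), (0, 6, 10), (0, 7, 10),
      (1, 2, 3), (1, 2, 8), (1, 3, 4), (2, 3, 12), (2, 8, 11), (2, 11, 13), (2, 12, 13), (3, 4,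
      7), (3, 7, 14), (3, 12, 15), (3, 14, 15), (5, 8, 16), (5, 9, 16), (6, 9, 13), (6, 10, 13)]
    fin := [0, 1, 1, 1, 1, 0, 6, 1, 1, 6, 10, 11, 1, 13, 14, 15, 0]
    chd := [(6, 10), (10, 0)]
    steps := [(0, 5), (0, 16), (1, 2), (1, 3), (1, 4), (1, 7), (1, 12), (1, 8), (6, 9)] }
  rep := [1, 6, 10, 13, 0, 11, 14, 15]

noncomputable def v3601 : Cov.CovD where
  P := 3
  N := 5
  pl := [4, 6, 7, 8]
  lev := [⟨[], [], [(0, 0), (0, 1), (0, 2), (1, 2)], [], [(0, 0, []), (1, 0, []), (2, 1, [2]),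
      (3, 2, [1, 4])]⟩,
    ⟨[], [(0, 0), (0, 1), (0, 2)], [], [], [(1, 0, [])]⟩,
    ⟨[(0, 1)], [(0, 0), (1, 0)], [(0, 0)], [3, 5], [(1, 0, []), (5, 0, [])]⟩,
    ⟨[(0, 1), (1, 2)], [(0, 0), (1, 0), (2, 0)], [(0, 0)], [6, 7], [(0, 0, []), (5, 0,
      [])]⟩,
    ⟨[(0, 1), (0, 3), (1, 2), (1, 3), (2, 3)], [(0, 0), (0, 1), (0, 2), (1, 0), (3, 0)],
      [], [], [(0, 0, [])]⟩,
    ⟨[(0, 1), (0, 4)], [(0, 0), (0, 1), (0, 2), (0, 4), (1, 0), (2, 0)], [(0, 1), (0, 4),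
      (1, 4)], [], [(1, 0, []), (2, 1, [2]), (9, 4, [2])]⟩,
    ⟨[(0, 1), (0, 4), (0, 5)], [(0, 0), (0, 1), (0, 2), (5, 1)], [(1, 2)], [3], [(2, 1,
      [2]), (3, 2, [1, 4])]⟩]
  Ta := [((0, 3), 0, 2), ((0, 7), 0, 6), ((1, 4), 0, 5), ((1, 9), 0, 4), ((5, 6), 0, 3), ((5, 8),
    0, 7)]
  Tb := [((0, 3, 7), 0, 2, 6), ((1, 4, 9), 0, 5, 4), ((2, 6, 9), 1, 3, 4), ((3, 0, 6), 2, 0, 3),
    ((4, 1, 6), 5, 0, 3), ((5, 6, 8), 0, 3, 7), ((6, 2, 3), 3, 1, 2), ((6, 2, 4), 3, 1, 5),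
    ((6, 2, 5), 3, 1, 0), ((6, 3, 4), 3, 2, 5), ((6, 3, 5), 3, 2, 0), ((6, 4, 5), 3, 5, 0),
    ((7, 0, 8), 6, 0, 7), ((8, 5, 7), 7, 0, 6), ((9, 1, 2), 4, 0, 1)]
  Tc := [(2, 1, 4)]
  Td := [((1, 2), (2, 6), 3), ((1, 2), (2, 9), 4), ((2, 1), (3, 0), 0), ((2, 1), (3, 6), 3), ((2,
    4), (3, 0), 0), ((2, 4), (3, 6), 3), ((4, 2), (9, 1), 0), ((4, 2), (9, 2), 1)]
  G := [[0, 0x824822828e422422422ec28c284282cee14, 0xc12c12c18e2814812818e412412418eca4,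
    0x122122122e422122122e124128128ee18, 0x142148142e144142142e144148144ee18], [0,
    0x821821821e422421ac24c22c24ee4284468, 0, 0x821122124e4282122121121ee422122c468,
    0x14114162144142841e142142141e1418ea8], [0, 0x824822824e422422422ec28c28c28ee14, 0,
    0x824128828e428422128e122528924ee14, 0x844842844e1441484a944e942144148ee18]]

noncomputable def n3601 : Ent := ⟨e3601, noF, [], [], [(11, 16, [1580044410770988437309982408355971841652082177953823432505703858177, 0])]⟩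

def c3601 : PLift (Cov.check n3601.C.D v3601 = true) := ⟨by decide +kernel⟩

def b3601 : PLift (entF (fidx ts) 400 3601 n3601 = true) := ⟨by decide +kernel⟩

theorem g3601 : GoodF (fidx ts) 400 3601 := GoodF.ofV v3601 n3601 c3601.down b3601.down

/-- 8567444:2714/5 -/
noncomputable def e3602 : SCfg where
  D := {
    a := 7
    L := 10
    kp := 7
    inn := [(0, 1), (0, 4), (0, 5), (0, 6), (1, 0), (1, 2), (1, 3), (1, 4), (2, 1), (2, 3), (3, 1), (3,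
      2), (3, 4), (4, 0), (4, 1), (4, 3), (5, 0), (6, 0)]
    mix := [(0, 0), (0, 1), (0, 2), (0, 3), (1, 1), (2, 1), (2, 4), (2, 5), (2, 6), (3, 0), (3, 5), (3,
      7), (3, 8), (4, 0), (5, 1), (5, 2), (5, 4), (6, 2), (6, 3), (6, 9)]
    cl := [0, 0, 3, 4, 1, 0, 2, 5, 6, 7]
    chq := [(1, 4), (3, 4), (4, 1), (4, 3)]
    rng := [(0, 3), (0, 7), (1, 4), (2, 4), (2, 9), (3, 0), (3, 9), (4, 1), (4, 2), (4, 6), (5, 6), (5,
      8), (6, 4), (6, 5), (7, 0), (7, 8), (8, 5), (8, 7), (9, 2), (9, 3)]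
    lev := [] }
  links := [[7, 4, 1, 8, 5, 9, 6, 10], [2, 8, 0, 4, 3], [11, 8, 1, 3, 12, 13], [12, 2, 1, 4, 7, 14, 15],
    [1, 0, 7, 3], [8, 11, 9, 0], [0, 9, 16, 10]]
  P := {
    a := 7
    N := 17
    nb := [2034, 285, 14602, 53398, 139, 2817, 67073, 17433, 2087, 67681, 65729, 8996, 40972, 6148,
      32904, 20488, 1600]
    tri := [(0, 1, 4), (0, 1, 8), (0, 4, 7), (0, 5, 8), (0, 5, 9), (0, 6, 9), (0, 6, 10), (0, 7, 10),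
      (1, 2, 3), (1, 2, 8), (1, 3, 4), (2, 3, 12), (2, 8, 11), (2, 11, 13), (2, 12, 13), (3, 4,
      7), (3, 7, 14), (3, 12, 15), (3, 14, 15), (5, 8, 11), (5, 9, 11), (6, 9, 16), (6, 10, 16)]
    fin := [0, 1, 1, 1, 1, 0, 6, 1, 1, 6, 10, 0, 1, 13, 14, 15, 16]
    chd := [(6, 10), (10, 0)]
    steps := [(0, 5), (0, 11), (1, 3), (1, 4), (1, 7), (1, 12), (1, 8), (1, 2), (6, 9)] }
  rep := [1, 0, 13, 6, 10, 14, 15, 16]

noncomputable def v3602 : Cov.CovD where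
  P := 3
  N := 5
  pl := [6, 7, 8, 9]
  lev := [⟨[], [], [(0, 0), (0, 3), (0, 4), (3, 4)], [], [(0, 0, []), (1, 0, []), (2, 3, [4]),
      (3, 4, [1, 3])]⟩,
    ⟨[], [(0, 0), (0, 3), (0, 4)], [], [], [(1, 0, [])]⟩,
    ⟨[(0, 1)], [(0, 0), (1, 0), (1, 1)], [(0, 0), (0, 1)], [2], [(1, 0, []), (4, 1, [4]),
      (5, 0, [])]⟩,
    ⟨[(0, 1), (1, 2)], [(0, 0), (1, 0), (2, 0), (2, 1)], [(0, 0)], [5, 6], [(0, 0, []), (5,
      0, [])]⟩,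
    ⟨[(0, 1), (0, 3), (1, 2), (1, 3), (2, 3)], [(0, 0), (0, 3), (0, 4), (1, 0), (3, 0)],
      [], [], [(0, 0, [])]⟩,
    ⟨[(0, 1), (0, 4)], [(0, 0), (0, 1), (0, 3), (0, 4), (1, 0), (2, 0), (2, 1)], [(0, 1),
      (0, 3), (1, 3)], [], [(1, 0, []), (2, 3, [4]), (4, 1, [4])]⟩,
    ⟨[(0, 1), (0, 4), (0, 5)], [(0, 0), (0, 3), (0, 4), (5, 3)], [(3, 4)], [7], [(2, 3,
      [4]), (3, 4, [1, 3])]⟩]
  Ta := [((0, 3), 0, 4), ((0, 7), 0, 5), ((1, 4), 0, 1), ((5, 6), 0, 2), ((5, 8), 0, 6)]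
  Tb := [((0, 3, 7), 0, 4, 5), ((2, 4, 9), 3, 1, 7), ((3, 0, 9), 4, 0, 7), ((4, 1, 2), 1, 0, 3),
    ((4, 1, 6), 1, 0, 2), ((4, 2, 6), 1, 3, 2), ((5, 6, 8), 0, 2, 6), ((6, 4, 5), 2, 1, 0),
    ((7, 0, 8), 5, 0, 6), ((8, 5, 7), 6, 0, 5), ((9, 2, 3), 7, 3, 4)]
  Tc := [(4, 1, 3)]
  Td := [((1, 4), (4, 1), 0), ((1, 4), (4, 2), 3), ((1, 4), (4, 6), 2), ((3, 4), (2, 4), 1), ((3,
    4), (2, 9), 7), ((4, 1), (3, 0), 0), ((4, 1), (3, 9), 7), ((4, 3), (3, 0), 0), ((4, 3),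
    (3, 9), 7)]
  G := [[0, 0, 0, 0xb7c4b7c8b7c4e412, 0x18c418921184ce82582518518e82b7c4b7c4f3c8e81e], [0,
    0x188e49962188e2e84414e155a8414e8e48221e133c1221e8e84e, 0, 0x7bc17bc46f3c48c82,
    0x94118c1944e8443c2588588e82b3c1b7c1b7c4e84e], [0, 0,
    0x38c1942914e8443c8582582e413142f98a798e48e, 0xe394e398e358e842,
    0x91291138c4e821848643c843c8e81e351a391314e84e]]

noncomputable def n3602 : Ent := ⟨e3602, noF, [], [], [(15, 16, [1580044410770988437309982408355971841652082177953823432505703849985, 0]), (13, 16, [1580044410770988437309982408355971841652082177953823432505703858177, 0])]⟩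

def c3602 : PLift (Cov.check n3602.C.D v3602 = true) := ⟨by decide +kernel⟩

def b3602 : PLift (entF (fidx ts) 400 3602 n3602 = true) := ⟨by decide +kernel⟩

theorem g3602 : GoodF (fidx ts) 400 3602 := GoodF.ofV v3602 n3602 c3602.down b3602.down

/-- 8567444:2714 -/
noncomputable def e3603 : SCfg where
  D := {
    a := 7
    L := 11
    kp := 8
    inn := [(0, 1), (0, 4), (0, 5), (0, 6), (1, 0), (1, 2), (1, 3), (1, 4), (2, 1), (2, 3), (3, 1), (3,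
      2), (3, 4), (4, 0), (4, 1), (4, 3), (5, 0), (6, 0)]
    mix := [(0, 0), (0, 1), (0, 2), (0, 3), (1, 1), (2, 1), (2, 4), (2, 5), (2, 6), (3, 0), (3, 5), (3,
      7), (3, 8), (4, 0), (5, 1), (5, 2), (5, 9), (6, 2), (6, 3), (6, 10)]
    cl := [0, 0, 1, 2, 4, 0, 5, 6, 7, 3, 8]
    chq := [(1, 2), (2, 1), (2, 3), (3, 2)]
    rng := [(0, 3), (0, 7), (1, 4), (1, 9), (2, 9), (2, 10), (3, 0), (3, 10), (4, 1), (4, 6), (5, 6),
      (5, 8), (6, 4), (6, 5), (7, 0), (7, 8), (8, 5), (8, 7), (9, 1), (9, 2), (10, 2), (10, 3)]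
    lev := [] }
  links := [[7, 4, 1, 8, 5, 9, 6, 10], [2, 8, 0, 4, 3], [11, 8, 1, 3, 12, 13], [12, 2, 1, 4, 7, 14, 15],
    [1, 0, 7, 3], [8, 16, 9, 0], [0, 9, 17, 10]]
  P := {
    a := 7
    N := 18
    nb := [2034, 285, 14602, 53398, 139, 66305, 132609, 17433, 67623, 196705, 131265, 8452, 40972,
      6148, 32904, 20488, 800, 1600]
    tri := [(0, 1, 4), (0, 1, 8), (0, 4, 7), (0, 5, 8), (0, 5, 9), (0, 6, 9), (0, 6, 10), (0, 7, 10),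
      (1, 2, 3), (1, 2, 8), (1, 3, 4), (2, 3, 12), (2, 8, 11), (2, 11, 13), (2, 12, 13), (3, 4,
      7), (3, 7, 14), (3, 12, 15), (3, 14, 15), (5, 8, 16), (5, 9, 16), (6, 9, 17), (6, 10, 17)]
    fin := [0, 1, 1, 1, 1, 0, 6, 1, 1, 6, 10, 11, 1, 13, 14, 15, 0, 17]
    chd := [(6, 10), (10, 0)]
    steps := [(0, 5), (0, 16), (1, 2), (1, 3), (1, 4), (1, 7), (1, 12), (1, 8), (6, 9)] }
  rep := [1, 6, 10, 0, 11, 13, 14, 15, 17]

noncomputable def v3603 : Cov.CovD where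
  P := 3
  N := 6
  pl := [4, 6, 7, 8, 10]
  lev := [⟨[], [], [(0, 0), (0, 1), (0, 2), (1, 2)], [], [(0, 0, []), (1, 0, []), (2, 1, [2]),
      (3, 2, [1, 3])]⟩,
    ⟨[], [(0, 0), (0, 1), (0, 2)], [], [], [(1, 0, [])]⟩,
    ⟨[(0, 1)], [(0, 0), (1, 0)], [(0, 0)], [4, 5], [(1, 0, []), (5, 0, [])]⟩,
    ⟨[(0, 1), (1, 2)], [(0, 0), (1, 0), (2, 0)], [(0, 0)], [6, 7], [(0, 0, []), (5, 0,
      [])]⟩,
    ⟨[(0, 1), (0, 3), (1, 2), (1, 3), (2, 3)], [(0, 0), (0, 1), (0, 2), (1, 0), (3, 0)],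
      [], [], [(0, 0, [])]⟩,
    ⟨[(0, 1), (0, 4)], [(0, 0), (0, 1), (0, 2), (0, 3), (1, 0), (2, 0)], [(0, 1), (0, 3),
      (1, 3)], [], [(1, 0, []), (2, 1, [2]), (9, 3, [2])]⟩,
    ⟨[(0, 1), (0, 4), (0, 5)], [(0, 0), (0, 1), (0, 2), (5, 1)], [(1, 2)], [8], [(2, 1,
      [2]), (3, 2, [1, 3])]⟩]
  Ta := [((0, 3), 0, 2), ((0, 7), 0, 6), ((1, 4), 0, 4), ((1, 9), 0, 3), ((5, 6), 0, 5), ((5, 8),
    0, 7)]
  Tb := [((0, 3, 7), 0, 2, 6), ((1, 4, 9), 0, 4, 3), ((2, 9, 10), 1, 3, 8), ((3, 0, 10), 2, 0,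
    8), ((4, 1, 6), 4, 0, 5), ((5, 6, 8), 0, 5, 7), ((6, 4, 5), 5, 4, 0), ((7, 0, 8), 6, 0,
    7), ((8, 5, 7), 7, 0, 6), ((9, 1, 2), 3, 0, 1), ((10, 2, 3), 8, 1, 2)]
  Tc := [(2, 1, 3)]
  Td := [((1, 2), (2, 9), 3), ((1, 2), (2, 10), 8), ((2, 1), (3, 0), 0), ((2, 1), (3, 10), 8),
    ((2, 3), (3, 0), 0), ((2, 3), (3, 10), 8), ((3, 2), (9, 1), 0), ((3, 2), (9, 2), 1)]
  G := [[0, 0xc22c22c22ec22c22c28ec22c22c28ee14, 0xc12c12c18e2c12c12c18ec18c184181ceca4,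
    0x522924c22e522c22522ec24924528ee18, 0x942942942e942942942e944944944ee18], [0,
    0xc22c226c21c28c28ec21c21c28eec2188a4, 0, 0x924521522e921928924e6522c22c28e8a4,
    0x942941944e941941a944942941ee9424468], [0, 0xc22c22c22ec24c22c24ec22c24c24ee18, 0,
    0x924922528ec22c28c22e924c22528ee14, 0x941941911e9419111481ce911911ce9442238]]

noncomputable def n3603 : Ent := ⟨e3603, noF, [], [], [(15, 17, [6903326391201334775872065844685381424292761054348340378595029944430593, 0]), (13, 17, [6903326391201334775872065844685381424292761054348340378595029944438785, 0]), (11, 16, [7334685537875745012586738086077695515070955365108989538292687708430337, 0])]⟩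

def c3603 : PLift (Cov.check n3603.C.D v3603 = true) := ⟨by decide +kernel⟩

def b3603 : PLift (entF (fidx ts) 400 3603 n3603 = true) := ⟨by decide +kernel⟩

theorem g3603 : GoodF (fidx ts) 400 3603 := GoodF.ofV v3603 n3603 c3603.down b3603.down

/-- 6874444:2715/2 -/
noncomputable def e3604 : SCfg where
  D := {
    a := 7
    L := 9
    kp := 6
    inn := [(0, 1), (0, 2), (0, 3), (1, 0), (1, 3), (1, 5), (1, 6), (2, 0), (2, 3), (2, 4), (3, 0), (3,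
      1), (3, 2), (4, 2), (5, 1), (6, 1)]
    mix := [(0, 0), (0, 1), (0, 2), (1, 2), (1, 3), (1, 4), (1, 5), (2, 0), (2, 3), (2, 6), (2, 7), (3,
      3), (4, 6), (4, 7), (4, 8), (5, 4), (5, 5), (5, 8), (6, 3), (6, 5), (6, 7)]
    cl := [1, 6, 0, 0, 4, 3, 2, 1, 5]
    chq := [(1, 4), (3, 4), (4, 1), (4, 3)]
    rng := [(0, 1), (0, 6), (1, 0), (1, 2), (2, 1), (2, 4), (3, 7), (4, 2), (4, 8), (5, 7), (5, 8), (6,
      0), (6, 8), (7, 3), (7, 5), (7, 8), (8, 4), (8, 5), (8, 6), (8, 7)]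
    lev := [] }
  links := [[7, 8, 9, 1, 3, 2], [10, 3, 0, 9, 11, 5, 12, 6], [13, 7, 0, 3, 10, 14, 4], [0, 1, 10, 2], [2,
    14, 15, 13], [1, 11, 15, 12], [1, 12, 14, 10]]
  P := {
    a := 7
    N := 16
    nb := [910, 7785, 25753, 1031, 57348, 38914, 21506, 8453, 641, 2307, 16462, 33314, 49250, 32916,
      37972, 30768]
    tri := [(0, 1, 3), (0, 1, 9), (0, 2, 3), (0, 2, 7), (0, 7, 8), (0, 8, 9), (1, 3, 10), (1, 5, 11),
      (1, 5, 12), (1, 6, 10), (1, 6, 12), (1, 9, 11), (2, 3, 10), (2, 4, 13), (2, 4, 14), (2, 7,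
      13), (2, 10, 14), (4, 13, 15), (4, 14, 15), (5, 11, 15), (5, 12, 15), (6, 10, 14), (6, 12,
      14)]
    fin := [0, 1, 1, 0, 1, 5, 1, 1, 8, 0, 0, 5, 12, 13, 1, 15]
    chd := [(1, 5), (5, 12)]
    steps := [(0, 3), (0, 9), (0, 10), (1, 6), (1, 14), (1, 2), (1, 4), (1, 7), (5, 11)] }
  rep := [0, 1, 13, 12, 5, 15, 8]

noncomputable def v3604 : Cov.CovD where
  P := 3
  N := 4
  pl := [1, 6, 8]
  lev := [⟨[], [], [(0, 1)], [6], [(0, 1, [4]), (2, 0, [])]⟩,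
    ⟨[], [(0, 0), (0, 1), (0, 3), (0, 4)], [(0, 0), (0, 3), (0, 4), (3, 4)], [], [(2, 0,
      []), (3, 0, []), (4, 4, [1, 3]), (5, 3, [4])]⟩,
    ⟨[(0, 1)], [(0, 0), (0, 1), (1, 0)], [(0, 1), (1, 1)], [2], [(0, 1, [4]), (3, 0, []),
      (7, 1, [4])]⟩,
    ⟨[(0, 1), (0, 2), (1, 2)], [(0, 0), (0, 1), (1, 0), (1, 3), (1, 4), (2, 0), (2, 1)],
      [], [], [(3, 0, [])]⟩,
    ⟨[(0, 2), (2, 3)], [(2, 0), (2, 1)], [], [2, 5], [(7, 1, [4])]⟩,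
    ⟨[(0, 1), (1, 3)], [(1, 0), (1, 3), (1, 4)], [(3, 4)], [5], [(4, 4, [1, 3]), (5, 3,
      [4])]⟩,
    ⟨[(0, 1), (1, 3), (1, 5)], [(1, 0), (1, 1), (1, 3), (1, 4), (2, 0), (2, 1), (3, 0), (4,
      1), (5, 3)], [(0, 1), (0, 3), (1, 3)], [], [(3, 0, []), (5, 3, [4]), (7, 1, [4])]⟩]
  Ta := [((0, 1), 1, 6), ((0, 6), 1, 2), ((2, 1), 0, 6), ((2, 4), 0, 4), ((3, 7), 0, 1), ((7, 3),
    1, 0), ((7, 5), 1, 3), ((7, 8), 1, 5)]
  Tb := [((0, 1, 6), 1, 6, 2), ((1, 0, 2), 6, 1, 0), ((2, 1, 4), 0, 6, 4), ((4, 2, 8), 4, 0, 5),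
    ((5, 7, 8), 3, 1, 5), ((6, 0, 8), 2, 1, 5), ((7, 3, 5), 1, 0, 3), ((7, 3, 8), 1, 0, 5),
    ((7, 5, 8), 1, 3, 5), ((8, 4, 5), 5, 4, 3), ((8, 4, 6), 5, 4, 2), ((8, 4, 7), 5, 4, 1),
    ((8, 5, 6), 5, 3, 2), ((8, 5, 7), 5, 3, 1), ((8, 6, 7), 5, 2, 1)]
  Tc := [(4, 1, 3)]
  Td := [((1, 4), (0, 1), 6), ((1, 4), (0, 6), 2), ((1, 4), (7, 3), 0), ((1, 4), (7, 5), 3), ((1,
    4), (7, 8), 5), ((3, 4), (5, 7), 1), ((3, 4), (5, 8), 5), ((4, 1), (4, 2), 0), ((4, 1),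
    (4, 8), 5), ((4, 3), (4, 2), 0), ((4, 3), (4, 8), 5)]
  G := [[0, 0, 0x8451f24828451f2882c, 0xc2c25182c2c2c812c, 0x84ccf218284ccf2182c], [0, 0,
    0x12115c842416113c48258843c4848384c18ce, 0, 0x1112c28492121194825888394894188487889ce],
    [0, 0, 0x84ccf24821, 0xc2c294421, 0x84ccf24821], [0,
    0x4141c242121c8468181c282121c48a8181c244141c28ce, 0x6881c484184c28c248c7c84e1, 0,
    0x68883928844784928c2c1948e1]]

noncomputable def n3604 : Ent := ⟨e3604, noF, [], [], []⟩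

def c3604 : PLift (Cov.check n3604.C.D v3604 = true) := ⟨by decide +kernel⟩

def b3604 : PLift (entF (fidx ts) 400 3604 n3604 = true) := ⟨by decide +kernel⟩

theorem g3604 : GoodF (fidx ts) 400 3604 := GoodF.ofV v3604 n3604 c3604.down b3604.down

/-- 6874444:2715/1 -/
noncomputable def e3605 : SCfg where
  D := {
    a := 7
    L := 10
    kp := 7
    inn := [(0, 1), (0, 2), (0, 3), (1, 0), (1, 3), (1, 5), (1, 6), (2, 0), (2, 3), (2, 4), (3, 0), (3,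
      1), (3, 2), (4, 2), (5, 1), (6, 1)]
    mix := [(0, 0), (0, 1), (0, 2), (1, 2), (1, 3), (1, 4), (1, 5), (2, 0), (2, 3), (2, 6), (2, 7), (3,
      3), (4, 6), (4, 7), (4, 8), (5, 4), (5, 5), (5, 8), (6, 3), (6, 5), (6, 9)]
    cl := [0, 6, 1, 0, 2, 1, 4, 5, 3, 7]
    chq := [(0, 1), (0, 3), (1, 0), (3, 0)]
    rng := [(0, 1), (0, 6), (1, 0), (1, 2), (2, 1), (2, 4), (3, 7), (3, 9), (4, 2), (4, 8), (5, 8), (5,
      9), (6, 0), (6, 8), (7, 3), (7, 8), (8, 4), (8, 5), (8, 6), (8, 7), (9, 3), (9, 5)]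
    lev := [] }
  links := [[7, 8, 9, 1, 3, 2], [10, 3, 0, 9, 11, 5, 12, 6], [13, 7, 0, 3, 10, 14, 4], [0, 1, 10, 2], [2,
    14, 15, 13], [1, 11, 15, 12], [1, 12, 16, 10]]
  P := {
    a := 7
    N := 17
    nb := [910, 7785, 25753, 1031, 57348, 38914, 70658, 8453, 641, 2307, 81998, 33314, 98402, 32916,
      33812, 30768, 5184]
    tri := [(0, 1, 3), (0, 1, 9), (0, 2, 3), (0, 2, 7), (0, 7, 8), (0, 8, 9), (1, 3, 10), (1, 5, 11),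
      (1, 5, 12), (1, 6, 10), (1, 6, 12), (1, 9, 11), (2, 3, 10), (2, 4, 13), (2, 4, 14), (2, 7,
      13), (2, 10, 14), (4, 13, 15), (4, 14, 15), (5, 11, 15), (5, 12, 15), (6, 10, 16), (6, 12,
      16)]
    fin := [0, 1, 0, 0, 0, 1, 0, 0, 8, 1, 0, 11, 1, 13, 14, 15, 16]
    chd := [(0, 1), (0, 15)]
    steps := [(0, 2), (0, 3), (0, 4), (0, 7), (0, 10), (0, 6), (1, 5), (1, 9), (1, 12)] }
  rep := [0, 1, 11, 15, 13, 14, 8, 16]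

noncomputable def v3605 : Cov.CovD where
  P := 3
  N := 5
  pl := [1, 4, 6, 7, 9]
  lev := [⟨[], [], [(0, 1)], [6], [(0, 0, [1, 3]), (2, 1, [0])]⟩,
    ⟨[], [(0, 0), (0, 1)], [(0, 1), (1, 1)], [2], [(2, 1, [0]), (3, 0, [1, 3]), (5, 1,
      [0])]⟩,
    ⟨[(0, 1)], [(0, 0), (0, 1), (1, 0)], [(0, 0)], [4, 5], [(0, 0, [1, 3]), (3, 0, [1,
      3])]⟩,
    ⟨[(0, 1), (0, 2), (1, 2)], [(0, 0), (0, 1), (1, 0), (1, 1), (2, 0)], [], [], [(3, 0,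
      [1, 3])]⟩,
    ⟨[(0, 2), (2, 3)], [(2, 0), (2, 3)], [], [4, 5], [(8, 3, [0])]⟩,
    ⟨[(0, 1), (1, 3)], [(1, 0), (1, 1), (1, 3), (4, 3)], [(1, 3)], [2], [(5, 1, [0]), (8,
      3, [0])]⟩,
    ⟨[(0, 1), (1, 3), (1, 5)], [(1, 0), (1, 1), (2, 0), (3, 0), (5, 1)], [(0, 1)], [7],
      [(3, 0, [1, 3]), (5, 1, [0])]⟩]
  Ta := [((0, 1), 0, 6), ((0, 6), 0, 4), ((2, 1), 1, 6), ((2, 4), 1, 2), ((3, 7), 0, 5), ((3, 9),
    0, 7), ((5, 8), 1, 3), ((5, 9), 1, 7)]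
  Tb := [((0, 1, 6), 0, 6, 4), ((1, 0, 2), 6, 0, 1), ((2, 1, 4), 1, 6, 2), ((3, 7, 9), 0, 5, 7),
    ((4, 2, 8), 2, 1, 3), ((5, 8, 9), 1, 3, 7), ((6, 0, 8), 4, 0, 3), ((7, 3, 8), 5, 0, 3),
    ((8, 4, 5), 3, 2, 1), ((8, 4, 6), 3, 2, 4), ((8, 4, 7), 3, 2, 5), ((8, 5, 6), 3, 1, 4),
    ((8, 5, 7), 3, 1, 5), ((8, 6, 7), 3, 4, 5), ((9, 3, 5), 7, 0, 1)]
  Tc := [(0, 1, 3)]
  Td := [((0, 1), (0, 1), 6), ((0, 1), (0, 6), 4), ((0, 1), (3, 7), 5), ((0, 1), (3, 9), 7), ((0,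
    3), (0, 1), 6), ((0, 3), (0, 6), 4), ((0, 3), (3, 7), 5), ((0, 3), (3, 9), 7), ((1, 0),
    (2, 1), 6), ((1, 0), (2, 4), 2), ((1, 0), (5, 8), 3), ((1, 0), (5, 9), 7), ((3, 0), (8,
    4), 2), ((3, 0), (8, 5), 1), ((3, 0), (8, 6), 4), ((3, 0), (8, 7), 5)]
  G := [[0, 0xa114a118c112e4c112c118a111e4a, 0x1212181412d81228e4182412d412121224e8c,
    0x22914282128d11128e4212124d1225112121e8c, 0x211112d221216c214891212522112981128e8c], [0,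
    0xc114a111a112e8a1146118c111e86, 0x11c18382411c143428141188c141858c4e, 0,
    0x1111342811113428111194111158c8e], [0, 0xa1126111a112e8a1146114a111e86,
    0x28c292242852c228e41, 0x2821942121582128e41, 0x21c2942121522128e81], [0,
    0x611161186112e8c112c112a118e46, 0x4844c4b44448c414e888284c858c8c28ec1, 0,
    0xc1c192c11c146c148934e81]]

noncomputable def n3605 : Ent := ⟨e3605, noF, [], [], [(16, 14, [1580095832788404724998799751142926758855362888449624481876433518593, 0])]⟩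

def c3605 : PLift (Cov.check n3605.C.D v3605 = true) := ⟨by decide +kernel⟩

def b3605 : PLift (entF (fidx ts) 400 3605 n3605 = true) := ⟨by decide +kernel⟩

theorem g3605 : GoodF (fidx ts) 400 3605 := GoodF.ofV v3605 n3605 c3605.down b3605.down

/-- 6874444:2715/5 -/
noncomputable def e3606 : SCfg where
  D := {
    a := 7
    L := 8
    kp := 5
    inn := [(0, 1), (0, 2), (0, 3), (1, 0), (1, 3), (1, 5), (1, 6), (2, 0), (2, 3), (2, 4), (3, 0), (3,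
      1), (3, 2), (4, 2), (5, 1), (6, 1)]
    mix := [(0, 0), (0, 1), (0, 2), (1, 2), (1, 3), (1, 4), (1, 5), (2, 0), (2, 3), (2, 6), (2, 7), (3,
      3), (4, 5), (4, 6), (4, 7), (5, 4), (5, 5), (5, 6), (6, 3), (6, 5), (6, 7)]
    cl := [1, 5, 0, 0, 4, 3, 2, 1]
    chq := [(0, 2), (0, 3), (2, 0), (3, 0)]
    rng := [(0, 1), (0, 6), (1, 0), (1, 2), (2, 1), (2, 4), (3, 7), (4, 2), (4, 6), (5, 6), (5, 7), (6,
      0), (6, 4), (6, 5), (7, 3), (7, 5)]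
    lev := [] }
  links := [[7, 8, 9, 1, 3, 2], [10, 3, 0, 9, 11, 5, 12, 6], [13, 7, 0, 3, 10, 14, 4], [0, 1, 10, 2], [2,
    14, 12, 13], [1, 11, 13, 12], [1, 12, 14, 10]]
  P := {
    a := 7
    N := 15
    nb := [910, 7785, 25753, 1031, 28676, 14338, 21506, 8453, 641, 2307, 16462, 8738, 24690, 6324,
      5204]
    tri := [(0, 1, 3), (0, 1, 9), (0, 2, 3), (0, 2, 7), (0, 7, 8), (0, 8, 9), (1, 3, 10), (1, 5, 11),
      (1, 5, 12), (1, 6, 10), (1, 6, 12), (1, 9, 11), (2, 3, 10), (2, 4, 13), (2, 4, 14), (2, 7,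
      13), (2, 10, 14), (4, 12, 13), (4, 12, 14), (5, 11, 13), (5, 12, 13), (6, 10, 14), (6, 12,
      14)]
    fin := [0, 1, 0, 0, 0, 1, 0, 0, 8, 1, 1, 11, 12, 13, 0]
    chd := [(1, 12), (1, 13)]
    steps := [(0, 2), (0, 3), (0, 4), (0, 7), (0, 14), (1, 5), (1, 9), (1, 10), (0, 6)] }
  rep := [1, 0, 13, 12, 11, 8]

noncomputable def v3606 : Cov.CovD where
  P := 3
  N := 3
  pl := [1, 4]
  lev := [⟨[], [], [(0, 1)], [5], [(0, 1, []), (2, 0, [2, 3])]⟩,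
    ⟨[], [(0, 0), (0, 1), (0, 3)], [(0, 0), (0, 3)], [4], [(2, 0, [2, 3]), (3, 0, [2, 3]),
      (5, 3, [0])]⟩,
    ⟨[(0, 1)], [(0, 0), (0, 1), (0, 2), (1, 0)], [(0, 1), (0, 2), (1, 1), (1, 2)], [], [(0,
      1, []), (3, 0, [2, 3]), (6, 2, [0]), (7, 1, [])]⟩,
    ⟨[(0, 1), (0, 2), (1, 2)], [(0, 0), (0, 1), (1, 0), (1, 3), (2, 0), (2, 1), (2, 2)],
      [], [], [(3, 0, [2, 3])]⟩,
    ⟨[(0, 2), (2, 3)], [(1, 3), (2, 0), (2, 1), (2, 2), (2, 3)], [(1, 2), (1, 3), (2, 3)],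
      [], [(5, 3, [0]), (6, 2, [0]), (7, 1, [])]⟩,
    ⟨[(0, 1), (1, 3)], [(1, 0), (1, 2), (1, 3), (2, 2), (4, 2), (4, 3)], [(2, 3)], [4],
      [(5, 3, [0]), (6, 2, [0])]⟩,
    ⟨[(0, 1), (1, 3), (1, 5)], [(1, 0), (1, 1), (1, 3), (2, 0), (2, 1), (3, 0), (4, 1), (4,
      3), (5, 3)], [(0, 1), (0, 3), (1, 3)], [], [(3, 0, [2, 3]), (5, 3, [0]), (7, 1, [])]⟩]
  Ta := [((0, 1), 1, 5), ((0, 6), 1, 2), ((2, 1), 0, 5), ((2, 4), 0, 4), ((3, 7), 0, 1), ((7, 3),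
    1, 0), ((7, 5), 1, 3)]
  Tb := [((0, 1, 6), 1, 5, 2), ((1, 0, 2), 5, 1, 0), ((2, 1, 4), 0, 5, 4), ((4, 2, 6), 4, 0, 2),
    ((5, 6, 7), 3, 2, 1), ((6, 0, 4), 2, 1, 4), ((6, 0, 5), 2, 1, 3), ((6, 4, 5), 2, 4, 3),
    ((7, 3, 5), 1, 0, 3)]
  Tc := [(0, 2, 3)]
  Td := [((0, 2), (2, 1), 5), ((0, 2), (2, 4), 4), ((0, 2), (3, 7), 1), ((0, 3), (2, 1), 5), ((0,
    3), (2, 4), 4), ((0, 3), (3, 7), 1), ((2, 0), (6, 0), 1), ((2, 0), (6, 4), 4), ((2, 0),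
    (6, 5), 3), ((3, 0), (5, 6), 2), ((3, 0), (5, 7), 1)]
  G := [[0, 0, 0x281442412811228e1, 0x841d1442841d1482c, 0x218414112852148e8122111228c2281ec],
    [0, 0, 0x118241418412184e1, 0, 0x921482c211825884841118ce], [0, 0, 0x812484122411224e1,
    0x8141c2421, 0x2812821148c1228e1], [0, 0x414848121c846818288141c28a8182441484ce,
    0x181241418812184e1, 0, 0x8184841188c2148e1]]

noncomputable def n3606 : Ent := ⟨e3606, noF, [], [], []⟩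

def c3606 : PLift (Cov.check n3606.C.D v3606 = true) := ⟨by decide +kernel⟩

def b3606 : PLift (entF (fidx ts) 400 3606 n3606 = true) := ⟨by decide +kernel⟩

theorem g3606 : GoodF (fidx ts) 400 3606 := GoodF.ofV v3606 n3606 c3606.down b3606.down

/-- 6874444:2715/4 -/
noncomputable def e3607 : SCfg where
  D := {
    a := 7
    L := 9
    kp := 6
    inn := [(0, 1), (0, 2), (0, 3), (1, 0), (1, 3), (1, 5), (1, 6), (2, 0), (2, 3), (2, 4), (3, 0), (3,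
      1), (3, 2), (4, 2), (5, 1), (6, 1)]
    mix := [(0, 0), (0, 1), (0, 2), (1, 2), (1, 3), (1, 4), (1, 5), (2, 0), (2, 3), (2, 6), (2, 7), (3,
      3), (4, 5), (4, 6), (4, 7), (5, 4), (5, 5), (5, 6), (6, 3), (6, 5), (6, 8)]
    cl := [0, 5, 1, 0, 2, 1, 3, 4, 6]
    chq := [(0, 1), (1, 0), (3, 4), (4, 3)]
    rng := [(0, 1), (0, 6), (1, 0), (1, 2), (2, 1), (2, 4), (3, 7), (3, 8), (4, 2), (4, 6), (5, 6), (5,
      7), (5, 8), (6, 0), (6, 4), (6, 5), (7, 3), (7, 5), (8, 3), (8, 5)]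
    lev := [] }
  links := [[7, 8, 9, 1, 3, 2], [10, 3, 0, 9, 11, 5, 12, 6], [13, 7, 0, 3, 10, 14, 4], [0, 1, 10, 2], [2,
    14, 12, 13], [1, 11, 13, 12], [1, 12, 15, 10]]
  P := {
    a := 7
    N := 16
    nb := [910, 7785, 25753, 1031, 28676, 14338, 37890, 8453, 641, 2307, 49230, 8738, 57458, 6324,
      5140, 5184]
    tri := [(0, 1, 3), (0, 1, 9), (0, 2, 3), (0, 2, 7), (0, 7, 8), (0, 8, 9), (1, 3, 10), (1, 5, 11),
      (1, 5, 12), (1, 6, 10), (1, 6, 12), (1, 9, 11), (2, 3, 10), (2, 4, 13), (2, 4, 14), (2, 7,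
      13), (2, 10, 14), (4, 12, 13), (4, 12, 14), (5, 11, 13), (5, 12, 13), (6, 10, 15), (6, 12,
      15)]
    fin := [0, 1, 0, 0, 4, 1, 0, 0, 8, 1, 0, 11, 1, 4, 14, 15]
    chd := [(0, 1), (4, 14)]
    steps := [(0, 2), (0, 3), (0, 7), (0, 10), (0, 6), (1, 5), (1, 9), (1, 12), (4, 13)] }
  rep := [0, 1, 11, 4, 14, 8, 15]

noncomputable def v3607 : Cov.CovD where
  P := 3
  N := 4
  pl := [1, 4, 8]
  lev := [⟨[], [], [(0, 1)], [5], [(0, 0, [1]), (2, 1, [0])]⟩,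
    ⟨[], [(0, 0), (0, 1)], [(0, 1), (1, 1)], [2], [(2, 1, [0]), (3, 0, [1]), (5, 1, [0])]⟩,
    ⟨[(0, 1)], [(0, 0), (0, 1), (0, 3), (0, 4), (1, 0)], [(0, 0), (0, 3), (0, 4), (3, 4)],
      [], [(0, 0, [1]), (3, 0, [1]), (6, 3, [4]), (7, 4, [3])]⟩,
    ⟨[(0, 1), (0, 2), (1, 2)], [(0, 0), (0, 1), (1, 0), (1, 1), (2, 0), (2, 3), (2, 4)],
      [], [], [(3, 0, [1])]⟩,
    ⟨[(0, 2), (2, 3)], [(1, 1), (2, 0), (2, 1), (2, 3), (2, 4)], [(1, 3), (1, 4), (3, 4)],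
      [], [(5, 1, [0]), (6, 3, [4]), (7, 4, [3])]⟩,
    ⟨[(0, 1), (1, 3)], [(1, 0), (1, 1), (1, 3), (2, 3), (4, 1), (4, 3)], [(1, 3)], [2],
      [(5, 1, [0]), (6, 3, [4])]⟩,
    ⟨[(0, 1), (1, 3), (1, 5)], [(1, 0), (1, 1), (2, 0), (3, 0), (4, 1), (5, 1)], [(0, 1)],
      [6], [(3, 0, [1]), (5, 1, [0])]⟩]
  Ta := [((0, 1), 0, 5), ((0, 6), 0, 3), ((2, 1), 1, 5), ((2, 4), 1, 2), ((3, 7), 0, 4), ((3, 8),
    0, 6), ((5, 6), 1, 3), ((5, 7), 1, 4), ((5, 8), 1, 6)]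
  Tb := [((0, 1, 6), 0, 5, 3), ((1, 0, 2), 5, 0, 1), ((2, 1, 4), 1, 5, 2), ((3, 7, 8), 0, 4, 6),
    ((4, 2, 6), 2, 1, 3), ((5, 6, 7), 1, 3, 4), ((5, 6, 8), 1, 3, 6), ((5, 7, 8), 1, 4, 6),
    ((6, 0, 4), 3, 0, 2), ((6, 0, 5), 3, 0, 1), ((6, 4, 5), 3, 2, 1), ((7, 3, 5), 4, 0, 1),
    ((8, 3, 5), 6, 0, 1)]
  Tc := []
  Td := [((0, 1), (0, 1), 5), ((0, 1), (0, 6), 3), ((0, 1), (3, 7), 4), ((0, 1), (3, 8), 6), ((1,
    0), (2, 1), 5), ((1, 0), (2, 4), 2), ((1, 0), (5, 6), 3), ((1, 0), (5, 7), 4), ((1, 0),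
    (5, 8), 6), ((3, 4), (6, 0), 0), ((3, 4), (6, 4), 2), ((3, 4), (6, 5), 1), ((4, 3), (7,
    3), 0), ((4, 3), (7, 5), 1)]
  G := [[0, 0x6811a442c121e468146412c121e8c, 0x121228121428c, 0x181811d824241421d228c,
    0x121221d428282821d128c], [0, 0xc811a4126128e46881c4116121e8c,
    0x11c122411c142818841418c8e, 0, 0x11142811182818841114cc84849e], [0,
    0xc811a442c121e4c184c4126124e8c, 0x282422cd4281, 0x212421d2241, 0x212121d4281], [0,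
    0xc812a1486128e4c1816418a121e8c, 0x4882c4424cc14e88828814ac1, 0, 0xc184c142c112e81]]

noncomputable def n3607 : Ent := ⟨e3607, noF, [], [], [(15, 14, [385746751338780685620664494392815470296102193487288376387264513, 0])]⟩

def c3607 : PLift (Cov.check n3607.C.D v3607 = true) := ⟨by decide +kernel⟩

def b3607 : PLift (entF (fidx ts) 400 3607 n3607 = true) := ⟨by decide +kernel⟩

theorem g3607 : GoodF (fidx ts) 400 3607 := GoodF.ofV v3607 n3607 c3607.down b3607.down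

/-- 6874444:2715/6 -/
noncomputable def e3608 : SCfg where
  D := {
    a := 7
    L := 9
    kp := 6
    inn := [(0, 1), (0, 2), (0, 3), (1, 0), (1, 3), (1, 5), (1, 6), (2, 0), (2, 3), (2, 4), (3, 0), (3,
      1), (3, 2), (4, 2), (5, 1), (6, 1)]
    mix := [(0, 0), (0, 1), (0, 2), (1, 2), (1, 3), (1, 4), (1, 5), (2, 0), (2, 3), (2, 6), (2, 7), (3,
      3), (4, 6), (4, 7), (4, 8), (5, 4), (5, 5), (5, 6), (6, 3), (6, 5), (6, 7)]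
    cl := [1, 5, 0, 0, 4, 3, 2, 1, 6]
    chq := [(1, 4), (3, 4), (4, 1), (4, 3)]
    rng := [(0, 1), (0, 6), (1, 0), (1, 2), (2, 1), (2, 4), (3, 7), (4, 2), (4, 6), (5, 6), (5, 7), (6,
      0), (6, 4), (6, 5), (6, 8), (7, 3), (7, 5), (7, 8), (8, 6), (8, 7)]
    lev := [] }
  links := [[7, 8, 9, 1, 3, 2], [10, 3, 0, 9, 11, 5, 12, 6], [13, 7, 0, 3, 10, 14, 4], [0, 1, 10, 2], [2,
    14, 15, 13], [1, 11, 13, 12], [1, 12, 14, 10]]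
  P := {
    a := 7
    N := 16
    nb := [910, 7785, 25753, 1031, 57348, 14338, 21506, 8453, 641, 2307, 16462, 8738, 24674, 39092,
      37972, 24592]
    tri := [(0, 1, 3), (0, 1, 9), (0, 2, 3), (0, 2, 7), (0, 7, 8), (0, 8, 9), (1, 3, 10), (1, 5, 11),
      (1, 5, 12), (1, 6, 10), (1, 6, 12), (1, 9, 11), (2, 3, 10), (2, 4, 13), (2, 4, 14), (2, 7,
      13), (2, 10, 14), (4, 13, 15), (4, 14, 15), (5, 11, 13), (5, 12, 13), (6, 10, 14), (6, 12,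
      14)]
    fin := [0, 1, 1, 0, 1, 5, 1, 1, 8, 0, 0, 5, 12, 13, 1, 15]
    chd := [(1, 5), (5, 12)]
    steps := [(0, 3), (0, 9), (0, 10), (1, 6), (1, 14), (1, 2), (1, 4), (1, 7), (5, 11)] }
  rep := [0, 1, 13, 12, 5, 8, 15]

noncomputable def v3608 : Cov.CovD where
  P := 3
  N := 4
  pl := [1, 6, 8]
  lev := [⟨[], [], [(0, 1)], [5], [(0, 1, [4]), (2, 0, [])]⟩,
    ⟨[], [(0, 0), (0, 1), (0, 3), (0, 4)], [(0, 0), (0, 3), (0, 4), (3, 4)], [], [(2, 0,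
      []), (3, 0, []), (4, 4, [1, 3]), (5, 3, [4])]⟩,
    ⟨[(0, 1)], [(0, 0), (0, 1), (1, 0)], [(0, 1), (1, 1)], [2], [(0, 1, [4]), (3, 0, []),
      (7, 1, [4])]⟩,
    ⟨[(0, 1), (0, 2), (1, 2)], [(0, 0), (0, 1), (1, 0), (1, 3), (1, 4), (2, 0), (2, 1)],
      [], [], [(3, 0, [])]⟩,
    ⟨[(0, 2), (2, 3)], [(2, 0), (2, 1)], [], [2, 6], [(7, 1, [4])]⟩,
    ⟨[(0, 1), (1, 3)], [(1, 0), (1, 3), (1, 4)], [(3, 4)], [2], [(4, 4, [1, 3]), (5, 3,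
      [4])]⟩,
    ⟨[(0, 1), (1, 3), (1, 5)], [(1, 0), (1, 1), (1, 3), (1, 4), (2, 0), (2, 1), (3, 0), (4,
      1), (5, 3)], [(0, 1), (0, 3), (1, 3)], [], [(3, 0, []), (5, 3, [4]), (7, 1, [4])]⟩]
  Ta := [((0, 1), 1, 5), ((0, 6), 1, 2), ((2, 1), 0, 5), ((2, 4), 0, 4), ((3, 7), 0, 1), ((7, 3),
    1, 0), ((7, 5), 1, 3), ((7, 8), 1, 6)]
  Tb := [((0, 1, 6), 1, 5, 2), ((1, 0, 2), 5, 1, 0), ((2, 1, 4), 0, 5, 4), ((4, 2, 6), 4, 0, 2),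
    ((5, 6, 7), 3, 2, 1), ((6, 0, 4), 2, 1, 4), ((6, 0, 5), 2, 1, 3), ((6, 0, 8), 2, 1, 6),
    ((6, 4, 5), 2, 4, 3), ((6, 4, 8), 2, 4, 6), ((6, 5, 8), 2, 3, 6), ((7, 3, 5), 1, 0, 3),
    ((7, 3, 8), 1, 0, 6), ((7, 5, 8), 1, 3, 6), ((8, 6, 7), 6, 2, 1)]
  Tc := [(4, 1, 3)]
  Td := [((1, 4), (0, 1), 5), ((1, 4), (0, 6), 2), ((1, 4), (7, 3), 0), ((1, 4), (7, 5), 3), ((1,
    4), (7, 8), 6), ((3, 4), (5, 6), 2), ((3, 4), (5, 7), 1), ((4, 1), (4, 2), 0), ((4, 1),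
    (4, 6), 2), ((4, 3), (4, 2), 0), ((4, 3), (4, 6), 2)]
  G := [[0, 0, 0x815e2482841e2482c, 0x841d841d5482841d841d9242c, 0x4222881924868c4b2812c], [0,
    0, 0x124128c42c212c48248a68c149494c84ce, 0, 0x1214c2889241311948218589484131443898ce],
    [0, 0, 0x84ce24421, 0x48cd88cd54821, 0x48cb28821], [0,
    0x4141c242121c8468181c2821482188ca8181c244141c28ce, 0x6868c488484c28c2c244e84e1, 0,
    0x684192841483928c28c9948e1]]

noncomputable def n3608 : Ent := ⟨e3608, noF, [], [], [(12, 15, [360035742630636841211993100915356868655746945586763691022442497, 0])]⟩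

def c3608 : PLift (Cov.check n3608.C.D v3608 = true) := ⟨by decide +kernel⟩

def b3608 : PLift (entF (fidx ts) 400 3608 n3608 = true) := ⟨by decide +kernel⟩

theorem g3608 : GoodF (fidx ts) 400 3608 := GoodF.ofV v3608 n3608 c3608.down b3608.down

/-- 6874444:2715/3 -/
noncomputable def e3609 : SCfg where
  D := {
    a := 7
    L := 10
    kp := 7
    inn := [(0, 1), (0, 2), (0, 3), (1, 0), (1, 3), (1, 5), (1, 6), (2, 0), (2, 3), (2, 4), (3, 0), (3,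
      1), (3, 2), (4, 2), (5, 1), (6, 1)]
    mix := [(0, 0), (0, 1), (0, 2), (1, 2), (1, 3), (1, 4), (1, 5), (2, 0), (2, 3), (2, 6), (2, 7), (3,
      3), (4, 6), (4, 7), (4, 8), (5, 4), (5, 5), (5, 6), (6, 3), (6, 5), (6, 9)]
    cl := [0, 6, 1, 0, 3, 1, 2, 4, 5, 7]
    chq := [(0, 1), (0, 5), (1, 0), (5, 0)]
    rng := [(0, 1), (0, 6), (1, 0), (1, 2), (2, 1), (2, 4), (3, 7), (3, 9), (4, 2), (4, 6), (5, 6), (5,
      9), (6, 0), (6, 4), (6, 5), (6, 8), (7, 3), (7, 8), (8, 6), (8, 7), (9, 3), (9, 5)]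
    lev := [] }
  links := [[7, 8, 9, 1, 3, 2], [10, 3, 0, 9, 11, 5, 12, 6], [13, 7, 0, 3, 10, 14, 4], [0, 1, 10, 2], [2,
    14, 15, 13], [1, 11, 13, 12], [1, 12, 16, 10]]
  P := {
    a := 7
    N := 17
    nb := [910, 7785, 25753, 1031, 57348, 14338, 70658, 8453, 641, 2307, 81998, 8738, 73826, 39092,
      33812, 24592, 5184]
    tri := [(0, 1, 3), (0, 1, 9), (0, 2, 3), (0, 2, 7), (0, 7, 8), (0, 8, 9), (1, 3, 10), (1, 5, 11),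
      (1, 5, 12), (1, 6, 10), (1, 6, 12), (1, 9, 11), (2, 3, 10), (2, 4, 13), (2, 4, 14), (2, 7,
      13), (2, 10, 14), (4, 13, 15), (4, 14, 15), (5, 11, 13), (5, 12, 13), (6, 10, 16), (6, 12,
      16)]
    fin := [0, 1, 0, 0, 0, 1, 0, 0, 8, 1, 0, 11, 1, 13, 14, 15, 16]
    chd := [(0, 1), (0, 15)]
    steps := [(0, 2), (0, 3), (0, 4), (0, 7), (0, 10), (0, 6), (1, 5), (1, 9), (1, 12)] }
  rep := [0, 1, 13, 11, 14, 15, 8, 16]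

noncomputable def v3609 : Cov.CovD where
  P := 3
  N := 5
  pl := [1, 4, 6, 7, 9]
  lev := [⟨[], [], [(0, 1)], [6], [(0, 0, [1, 5]), (2, 1, [0])]⟩,
    ⟨[], [(0, 0), (0, 1)], [(0, 1), (1, 1)], [3], [(2, 1, [0]), (3, 0, [1, 5]), (5, 1,
      [0])]⟩,
    ⟨[(0, 1)], [(0, 0), (0, 1), (1, 0)], [(0, 0)], [2, 4], [(0, 0, [1, 5]), (3, 0, [1,
      5])]⟩,
    ⟨[(0, 1), (0, 2), (1, 2)], [(0, 0), (0, 1), (1, 0), (1, 1), (2, 0)], [], [], [(3, 0,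
      [1, 5])]⟩,
    ⟨[(0, 2), (2, 3)], [(2, 0), (2, 5)], [], [2, 4], [(8, 5, [0])]⟩,
    ⟨[(0, 1), (1, 3)], [(1, 0), (1, 1)], [], [2, 3], [(5, 1, [0])]⟩,
    ⟨[(0, 1), (1, 3), (1, 5)], [(1, 0), (1, 1), (2, 0), (3, 0), (5, 1)], [(0, 1)], [7],
      [(3, 0, [1, 5]), (5, 1, [0])]⟩]
  Ta := [((0, 1), 0, 6), ((0, 6), 0, 2), ((2, 1), 1, 6), ((2, 4), 1, 3), ((3, 7), 0, 4), ((3, 9),
    0, 7), ((5, 6), 1, 2), ((5, 9), 1, 7)]
  Tb := [((0, 1, 6), 0, 6, 2), ((1, 0, 2), 6, 0, 1), ((2, 1, 4), 1, 6, 3), ((3, 7, 9), 0, 4, 7),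
    ((4, 2, 6), 3, 1, 2), ((5, 6, 9), 1, 2, 7), ((6, 0, 4), 2, 0, 3), ((6, 0, 5), 2, 0, 1),
    ((6, 0, 8), 2, 0, 5), ((6, 4, 5), 2, 3, 1), ((6, 4, 8), 2, 3, 5), ((6, 5, 8), 2, 1, 5),
    ((7, 3, 8), 4, 0, 5), ((8, 6, 7), 5, 2, 4), ((9, 3, 5), 7, 0, 1)]
  Tc := [(0, 1, 5)]
  Td := [((0, 1), (0, 1), 6), ((0, 1), (0, 6), 2), ((0, 1), (3, 7), 4), ((0, 1), (3, 9), 7), ((0,
    5), (0, 1), 6), ((0, 5), (0, 6), 2), ((0, 5), (3, 7), 4), ((0, 5), (3, 9), 7), ((1, 0),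
    (2, 1), 6), ((1, 0), (2, 4), 3), ((1, 0), (5, 6), 2), ((1, 0), (5, 9), 7), ((5, 0), (8,
    6), 2), ((5, 0), (8, 7), 4)]
  G := [[0, 0xa114c112c46111c112c2c1116811c8e, 0x22c22cc822c22ca46122c22cc222c22c68a1c, 0,
    0x12121218a28122812a528122811a21121212acc], [0, 0x61146118c268126118c8a118a412c4e,
    0x1818a41824845c1414684c4c4a48848cd2, 0x18141814c11181418cc2,
    0x11142119122c1814211122c1814811188ce], [0, 0xc112c118c46111c112c26814a111c8e, 0, 0,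
    0x282892282834a212121b22112ac1], [0, 0xc114c114c261116811c86111a411c4e, 0,
    0xc1489489d248914c84584558cc984598cc1, 0x48912489489489b4a8c98c9928c94138891cac1]]

noncomputable def n3609 : Ent := ⟨e3609, noF, [], [], [(12, 15, [1685356702439545624007900436039642273970977273354372543760014864385, 0]), (16, 14, [1580095832788404724998799751142926758855362888449624481876433534977, 0])]⟩

def c3609 : PLift (Cov.check n3609.C.D v3609 = true) := ⟨by decide +kernel⟩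

def b3609 : PLift (entF (fidx ts) 400 3609 n3609 = true) := ⟨by decide +kernel⟩

theorem g3609 : GoodF (fidx ts) 400 3609 := GoodF.ofV v3609 n3609 c3609.down b3609.down

/-- 6874444:2715/8 -/
noncomputable def e3610 : SCfg where
  D := {
    a := 7
    L := 9
    kp := 6
    inn := [(0, 1), (0, 2), (0, 3), (1, 0), (1, 3), (1, 5), (1, 6), (2, 0), (2, 3), (2, 4), (3, 0), (3,
      1), (3, 2), (4, 2), (5, 1), (6, 1)]
    mix := [(0, 0), (0, 1), (0, 2), (1, 2), (1, 3), (1, 4), (1, 5), (2, 0), (2, 3), (2, 6), (2, 7), (3,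
      3), (4, 5), (4, 6), (4, 7), (5, 4), (5, 5), (5, 8), (6, 3), (6, 5), (6, 7)]
    cl := [1, 6, 0, 0, 3, 2, 4, 1, 5]
    chq := [(0, 2), (0, 5), (2, 0), (5, 0)]
    rng := [(0, 1), (0, 6), (1, 0), (1, 2), (2, 1), (2, 4), (3, 7), (4, 2), (4, 8), (5, 6), (5, 7), (5,
      8), (6, 0), (6, 5), (7, 3), (7, 5), (8, 4), (8, 5)]
    lev := [] }
  links := [[7, 8, 9, 1, 3, 2], [10, 3, 0, 9, 11, 5, 12, 6], [13, 7, 0, 3, 10, 14, 4], [0, 1, 10, 2], [2,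
    14, 12, 13], [1, 11, 15, 12], [1, 12, 14, 10]]
  P := {
    a := 7
    N := 16
    nb := [910, 7785, 25753, 1031, 28676, 38914, 21506, 8453, 641, 2307, 16462, 33314, 57458, 4244,
      5204, 6176]
    tri := [(0, 1, 3), (0, 1, 9), (0, 2, 3), (0, 2, 7), (0, 7, 8), (0, 8, 9), (1, 3, 10), (1, 5, 11),
      (1, 5, 12), (1, 6, 10), (1, 6, 12), (1, 9, 11), (2, 3, 10), (2, 4, 13), (2, 4, 14), (2, 7,
      13), (2, 10, 14), (4, 12, 13), (4, 12, 14), (5, 11, 15), (5, 12, 15), (6, 10, 14), (6, 12,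
      14)]
    fin := [0, 1, 0, 0, 0, 1, 0, 0, 8, 1, 1, 11, 12, 13, 0, 15]
    chd := [(1, 12), (1, 15)]
    steps := [(0, 2), (0, 3), (0, 4), (0, 7), (0, 14), (1, 5), (1, 9), (1, 10), (0, 6)] }
  rep := [1, 0, 12, 11, 13, 15, 8]

noncomputable def v3610 : Cov.CovD where
  P := 3
  N := 4
  pl := [1, 4, 6]
  lev := [⟨[], [], [(0, 1)], [6], [(0, 1, []), (2, 0, [2, 5])]⟩,
    ⟨[], [(0, 0), (0, 1), (0, 2)], [(0, 0), (0, 2)], [3], [(2, 0, [2, 5]), (3, 0, [2, 5]),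
      (5, 2, [0])]⟩,
    ⟨[(0, 1)], [(0, 0), (0, 1), (1, 0)], [(0, 1), (1, 1)], [4], [(0, 1, []), (3, 0, [2,
      5]), (7, 1, [])]⟩,
    ⟨[(0, 1), (0, 2), (1, 2)], [(0, 0), (0, 1), (1, 0), (1, 2), (2, 0), (2, 1)], [], [],
      [(3, 0, [2, 5])]⟩,
    ⟨[(0, 2), (2, 3)], [(1, 2), (2, 0), (2, 1), (2, 2)], [(1, 2)], [4], [(5, 2, [0]), (7,
      1, [])]⟩,
    ⟨[(0, 1), (1, 3)], [(1, 0), (1, 2), (1, 5), (4, 2)], [(2, 5)], [3], [(5, 2, [0]), (8,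
      5, [0])]⟩,
    ⟨[(0, 1), (1, 3), (1, 5)], [(1, 0), (1, 1), (1, 2), (2, 0), (2, 1), (3, 0), (4, 1), (4,
      2), (5, 2)], [(0, 1), (0, 2), (1, 2)], [], [(3, 0, [2, 5]), (5, 2, [0]), (7, 1, [])]⟩]
  Ta := [((0, 1), 1, 6), ((0, 6), 1, 4), ((2, 1), 0, 6), ((2, 4), 0, 3), ((3, 7), 0, 1), ((7, 3),
    1, 0), ((7, 5), 1, 2)]
  Tb := [((0, 1, 6), 1, 6, 4), ((1, 0, 2), 6, 1, 0), ((2, 1, 4), 0, 6, 3), ((4, 2, 8), 3, 0, 5),
    ((5, 6, 7), 2, 4, 1), ((5, 6, 8), 2, 4, 5), ((5, 7, 8), 2, 1, 5), ((6, 0, 5), 4, 1, 2),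
    ((7, 3, 5), 1, 0, 2), ((8, 4, 5), 5, 3, 2)]
  Tc := [(0, 2, 5)]
  Td := [((0, 2), (2, 1), 6), ((0, 2), (2, 4), 3), ((0, 2), (3, 7), 1), ((0, 5), (2, 1), 6), ((0,
    5), (2, 4), 3), ((0, 5), (3, 7), 1), ((2, 0), (5, 6), 4), ((2, 0), (5, 7), 1), ((2, 0),
    (5, 8), 5), ((5, 0), (8, 4), 3), ((5, 0), (8, 5), 2)]
  G := [[0, 0, 0x41844128c41288148cc1, 0, 0x1124223825888b21889845a282b81812491112888b28cac],
    [0, 0, 0x4141c818181c41c2, 0x181d8448914c118484541cc2,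
    0x11119281825281821118c2188b8418188315c8e], [0, 0, 0x81224148c81844122ca1, 0,
    0x21828114c81148124ca1], [0, 0x814881846481824142a841424188681848144ace,
    0x81844148c8181c81c2, 0x81848114c81844148cc2, 0x81848112c81848112ca1]]

noncomputable def n3610 : Ent := ⟨e3610, noF, [], [], [(15, 13, [360048296834107614573520772494203283988579150297652619091468289, 0])]⟩

def c3610 : PLift (Cov.check n3610.C.D v3610 = true) := ⟨by decide +kernel⟩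

def b3610 : PLift (entF (fidx ts) 400 3610 n3610 = true) := ⟨by decide +kernel⟩

theorem g3610 : GoodF (fidx ts) 400 3610 := GoodF.ofV v3610 n3610 c3610.down b3610.down

/-- 6874444:2715/7 -/
noncomputable def e3611 : SCfg where
  D := {
    a := 7
    L := 10
    kp := 7
    inn := [(0, 1), (0, 2), (0, 3), (1, 0), (1, 3), (1, 5), (1, 6), (2, 0), (2, 3), (2, 4), (3, 0), (3,
      1), (3, 2), (4, 2), (5, 1), (6, 1)]
    mix := [(0, 0), (0, 1), (0, 2), (1, 2), (1, 3), (1, 4), (1, 5), (2, 0), (2, 3), (2, 6), (2, 7), (3,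
      3), (4, 5), (4, 6), (4, 7), (5, 4), (5, 5), (5, 8), (6, 3), (6, 5), (6, 9)]
    cl := [2, 5, 3, 0, 0, 1, 4, 2, 6, 7]
    chq := [(0, 1), (1, 0), (2, 3), (3, 2)]
    rng := [(0, 1), (0, 6), (1, 0), (1, 2), (2, 1), (2, 4), (3, 7), (3, 9), (4, 2), (4, 8), (5, 6), (5,
      7), (5, 8), (5, 9), (6, 0), (6, 5), (7, 3), (7, 5), (8, 4), (8, 5), (9, 3), (9, 5)]
    lev := [] }
  links := [[7, 8, 9, 1, 3, 2], [10, 3, 0, 9, 11, 5, 12, 6], [13, 7, 0, 3, 10, 14, 4], [0, 1, 10, 2], [2,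
    14, 12, 13], [1, 11, 15, 12], [1, 12, 16, 10]]
  P := {
    a := 7
    N := 17
    nb := [910, 7785, 25753, 1031, 28676, 38914, 70658, 8453, 641, 2307, 81998, 33314, 122994, 4244,
      5140, 6176, 5184]
    tri := [(0, 1, 3), (0, 1, 9), (0, 2, 3), (0, 2, 7), (0, 7, 8), (0, 8, 9), (1, 3, 10), (1, 5, 11),
      (1, 5, 12), (1, 6, 10), (1, 6, 12), (1, 9, 11), (2, 3, 10), (2, 4, 13), (2, 4, 14), (2, 7,
      13), (2, 10, 14), (4, 12, 13), (4, 12, 14), (5, 11, 15), (5, 12, 15), (6, 10, 16), (6, 12,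
      16)]
    fin := [0, 1, 0, 0, 0, 1, 1, 0, 8, 9, 1, 1, 12, 13, 0, 15, 16]
    chd := [(0, 9), (1, 12)]
    steps := [(0, 2), (0, 3), (0, 4), (0, 7), (0, 14), (1, 5), (1, 6), (1, 11), (1, 10)] }
  rep := [1, 12, 0, 9, 13, 8, 15, 16]

noncomputable def v3611 : Cov.CovD where
  P := 3
  N := 5
  pl := [1, 6, 8, 9]
  lev := [⟨[], [], [(2, 3)], [5], [(0, 2, [3]), (2, 3, [2])]⟩,
    ⟨[], [(0, 0), (0, 1), (0, 2), (0, 3)], [(0, 0), (0, 1), (0, 3), (1, 3)], [], [(2, 3,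
      [2]), (3, 0, [1]), (4, 0, [1]), (5, 1, [0])]⟩,
    ⟨[(0, 1)], [(0, 0), (0, 2), (0, 3), (1, 0)], [(0, 2), (2, 2)], [4], [(0, 2, [3]), (3,
      0, [1]), (7, 2, [3])]⟩,
    ⟨[(0, 1), (0, 2), (1, 2)], [(0, 0), (0, 2), (0, 3), (1, 0), (1, 1), (1, 3), (2, 0), (2,
      2)], [], [], [(3, 0, [1])]⟩,
    ⟨[(0, 2), (2, 3)], [(1, 1), (2, 0), (2, 1), (2, 2)], [(1, 2)], [4], [(5, 1, [0]), (7,
      2, [3])]⟩,
    ⟨[(0, 1), (1, 3)], [(1, 0), (1, 1), (1, 3), (4, 1)], [(0, 1)], [6], [(4, 0, [1]), (5,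
      1, [0])]⟩,
    ⟨[(0, 1), (1, 3), (1, 5)], [(1, 0), (1, 1), (1, 3), (2, 0), (3, 0), (4, 1), (5, 1)],
      [(0, 1)], [7], [(3, 0, [1]), (5, 1, [0])]⟩]
  Ta := [((0, 1), 2, 5), ((0, 6), 2, 4), ((3, 7), 0, 2), ((3, 9), 0, 7), ((4, 2), 0, 3), ((4, 8),
    0, 6), ((7, 3), 2, 0), ((7, 5), 2, 1)]
  Tb := [((0, 1, 6), 2, 5, 4), ((1, 0, 2), 5, 2, 3), ((2, 1, 4), 3, 5, 0), ((3, 7, 9), 0, 2, 7),
    ((4, 2, 8), 0, 3, 6), ((5, 6, 7), 1, 4, 2), ((5, 6, 8), 1, 4, 6), ((5, 6, 9), 1, 4, 7),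
    ((5, 7, 8), 1, 2, 6), ((5, 7, 9), 1, 2, 7), ((5, 8, 9), 1, 6, 7), ((6, 0, 5), 4, 2, 1),
    ((7, 3, 5), 2, 0, 1), ((8, 4, 5), 6, 0, 1), ((9, 3, 5), 7, 0, 1)]
  Tc := []
  Td := [((0, 1), (3, 7), 2), ((0, 1), (3, 9), 7), ((0, 1), (4, 2), 3), ((0, 1), (4, 8), 6), ((1,
    0), (5, 6), 4), ((1, 0), (5, 7), 2), ((1, 0), (5, 8), 6), ((1, 0), (5, 9), 7), ((2, 3),
    (0, 1), 5), ((2, 3), (0, 6), 4), ((2, 3), (7, 3), 0), ((2, 3), (7, 5), 1), ((3, 2), (2,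
    1), 5), ((3, 2), (2, 4), 0)]
  G := [[0, 0x666666a218aaaaaaa814acc84cac48c2d, 0, 0,
    0x41422c1128148ac41128c182c118ac41124142ac182c142acb], [0,
    0x666666c418a6ccc6c812cac14ccc14c2d, 0xc184c142cc148c1826c1, 0xc184c114cc118c148cc2,
    0xc182c112a841144148ac182c118ac41424148ac182c118ac7], [0,
    0x666666a4186c6ccca412cc614c6c14c2d, 0, 0,
    0x1442211c121844ac14421414a11c1211c48ac1482811c8211c12acb], [0,
    0x666666c218aaaaaac214aca18ccc14c2d, 0, 0x11c84144181cc11c1811c48cc2,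
    0x11c82141181aa814821448a11c8211c18ac14421414a11c8211c18ac7]]

noncomputable def n3611 : Ent := ⟨e3611, noF, [], [], [(15, 13, [1685356714993749094781261963711221120386310105559083432688083890177, 0]), (16, 14, [1580095832788404724998799751142926758855362888449624481876433543169, 0])]⟩

def c3611 : PLift (Cov.check n3611.C.D v3611 = true) := ⟨by decide +kernel⟩

def b3611 : PLift (entF (fidx ts) 400 3611 n3611 = true) := ⟨by decide +kernel⟩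

theorem g3611 : GoodF (fidx ts) 400 3611 := GoodF.ofV v3611 n3611 c3611.down b3611.down

/-- 6874444:2715/9 -/
noncomputable def e3612 : SCfg where
  D := {
    a := 7
    L := 10
    kp := 7
    inn := [(0, 1), (0, 2), (0, 3), (1, 0), (1, 3), (1, 5), (1, 6), (2, 0), (2, 3), (2, 4), (3, 0), (3,
      1), (3, 2), (4, 2), (5, 1), (6, 1)]
    mix := [(0, 0), (0, 1), (0, 2), (1, 2), (1, 3), (1, 4), (1, 5), (2, 0), (2, 3), (2, 6), (2, 7), (3,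
      3), (4, 6), (4, 7), (4, 8), (5, 4), (5, 5), (5, 9), (6, 3), (6, 5), (6, 7)]
    cl := [1, 5, 0, 0, 4, 3, 2, 1, 6, 7]
    chq := [(1, 4), (3, 4), (4, 1), (4, 3)]
    rng := [(0, 1), (0, 6), (1, 0), (1, 2), (2, 1), (2, 4), (3, 7), (4, 2), (4, 9), (5, 7), (5, 9), (6,
      0), (6, 8), (7, 3), (7, 5), (7, 8), (8, 6), (8, 7), (9, 4), (9, 5)]
    lev := [] }
  links := [[7, 8, 9, 1, 3, 2], [10, 3, 0, 9, 11, 5, 12, 6], [13, 7, 0, 3, 10, 14, 4], [0, 1, 10, 2], [2,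
    14, 15, 13], [1, 11, 16, 12], [1, 12, 14, 10]]
  P := {
    a := 7
    N := 17
    nb := [910, 7785, 25753, 1031, 57348, 71682, 21506, 8453, 641, 2307, 16462, 66082, 82018, 32916,
      37972, 24592, 6176]
    tri := [(0, 1, 3), (0, 1, 9), (0, 2, 3), (0, 2, 7), (0, 7, 8), (0, 8, 9), (1, 3, 10), (1, 5, 11),
      (1, 5, 12), (1, 6, 10), (1, 6, 12), (1, 9, 11), (2, 3, 10), (2, 4, 13), (2, 4, 14), (2, 7,
      13), (2, 10, 14), (4, 13, 15), (4, 14, 15), (5, 11, 16), (5, 12, 16), (6, 10, 14), (6, 12,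
      14)]
    fin := [0, 1, 1, 0, 1, 5, 1, 1, 8, 0, 0, 5, 12, 13, 1, 15, 16]
    chd := [(1, 5), (5, 12)]
    steps := [(0, 3), (0, 9), (0, 10), (1, 6), (1, 14), (1, 2), (1, 4), (1, 7), (5, 11)] }
  rep := [0, 1, 13, 12, 5, 8, 15, 16]

noncomputable def v3612 : Cov.CovD where
  P := 3
  N := 5
  pl := [1, 6, 8, 9]
  lev := [⟨[], [], [(0, 1)], [5], [(0, 1, [4]), (2, 0, [])]⟩,
    ⟨[], [(0, 0), (0, 1), (0, 3), (0, 4)], [(0, 0), (0, 3), (0, 4), (3, 4)], [], [(2, 0,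
      []), (3, 0, []), (4, 4, [1, 3]), (5, 3, [4])]⟩,
    ⟨[(0, 1)], [(0, 0), (0, 1), (1, 0)], [(0, 1), (1, 1)], [2], [(0, 1, [4]), (3, 0, []),
      (7, 1, [4])]⟩,
    ⟨[(0, 1), (0, 2), (1, 2)], [(0, 0), (0, 1), (1, 0), (1, 3), (1, 4), (2, 0), (2, 1)],
      [], [], [(3, 0, [])]⟩,
    ⟨[(0, 2), (2, 3)], [(2, 0), (2, 1)], [], [2, 6], [(7, 1, [4])]⟩,
    ⟨[(0, 1), (1, 3)], [(1, 0), (1, 3), (1, 4)], [(3, 4)], [7], [(4, 4, [1, 3]), (5, 3,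
      [4])]⟩,
    ⟨[(0, 1), (1, 3), (1, 5)], [(1, 0), (1, 1), (1, 3), (1, 4), (2, 0), (2, 1), (3, 0), (4,
      1), (5, 3)], [(0, 1), (0, 3), (1, 3)], [], [(3, 0, []), (5, 3, [4]), (7, 1, [4])]⟩]
  Ta := [((0, 1), 1, 5), ((0, 6), 1, 2), ((2, 1), 0, 5), ((2, 4), 0, 4), ((3, 7), 0, 1), ((7, 3),
    1, 0), ((7, 5), 1, 3), ((7, 8), 1, 6)]
  Tb := [((0, 1, 6), 1, 5, 2), ((1, 0, 2), 5, 1, 0), ((2, 1, 4), 0, 5, 4), ((4, 2, 9), 4, 0, 7),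
    ((5, 7, 9), 3, 1, 7), ((6, 0, 8), 2, 1, 6), ((7, 3, 5), 1, 0, 3), ((7, 3, 8), 1, 0, 6),
    ((7, 5, 8), 1, 3, 6), ((8, 6, 7), 6, 2, 1), ((9, 4, 5), 7, 4, 3)]
  Tc := [(4, 1, 3)]
  Td := [((1, 4), (0, 1), 5), ((1, 4), (0, 6), 2), ((1, 4), (7, 3), 0), ((1, 4), (7, 5), 3), ((1,
    4), (7, 8), 6), ((3, 4), (5, 7), 1), ((3, 4), (5, 9), 7), ((4, 1), (4, 2), 0), ((4, 1),
    (4, 9), 7), ((4, 3), (4, 2), 0), ((4, 3), (4, 9), 7)]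
  G := [[0, 0, 0x8451f248284c1f2842c, 0x928491f841dd84284c1f8451f5882c, 0x84c1f248284ccf2812c],
    [0, 0, 0x4917513c8424c17913c482589519c489854885898ce, 0,
    0x513144cc78892513144cc784925895899489151845898ce], [0, 0, 0x84ccf28821,
    0x44ccf84ccf58821, 0x84ccf28821], [0,
    0xa45a45c84c23c23c846689689c28c23c23c48a689689c28a45a45c24ce,
    0x649649c48885845c284cc74cc7c48e1, 0, 0x689489948a85a45928cc38ccb948e1]]

noncomputable def n3612 : Ent := ⟨e3612, noF, [], [], [(16, 15, [1685356702439545624007900436039642273970977273354372543760014852097, 0]), (16, 13, [1580044429602293643470024699863340111275081426260889765897807429633, 0]), (12, 15, [1685356702439545624007900436039642273970977273354372543760014876673, 0])]⟩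

def c3612 : PLift (Cov.check n3612.C.D v3612 = true) := ⟨by decide +kernel⟩

def b3612 : PLift (entF (fidx ts) 400 3612 n3612 = true) := ⟨by decide +kernel⟩

theorem g3612 : GoodF (fidx ts) 400 3612 := GoodF.ofV v3612 n3612 c3612.down b3612.down

/-- 6874444:2715 -/
noncomputable def e3613 : SCfg where
  D := {
    a := 7
    L := 11
    kp := 8
    inn := [(0, 1), (0, 2), (0, 3), (1, 0), (1, 3), (1, 5), (1, 6), (2, 0), (2, 3), (2, 4), (3, 0), (3,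
      1), (3, 2), (4, 2), (5, 1), (6, 1)]
    mix := [(0, 0), (0, 1), (0, 2), (1, 2), (1, 3), (1, 4), (1, 5), (2, 0), (2, 3), (2, 6), (2, 7), (3,
      3), (4, 6), (4, 7), (4, 8), (5, 4), (5, 5), (5, 9), (6, 3), (6, 5), (6, 10)]
    cl := [1, 5, 2, 0, 0, 3, 4, 1, 6, 7, 8]
    chq := [(0, 3), (0, 5), (3, 0), (5, 0)]
    rng := [(0, 1), (0, 6), (1, 0), (1, 2), (2, 1), (2, 4), (3, 7), (3, 10), (4, 2), (4, 9), (5, 9),
      (5, 10), (6, 0), (6, 8), (7, 3), (7, 8), (8, 6), (8, 7), (9, 4), (9, 5), (10, 3), (10, 5)]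
    lev := [] }
  links := [[7, 8, 9, 1, 3, 2], [10, 3, 0, 9, 11, 5, 12, 6], [13, 7, 0, 3, 10, 14, 4], [0, 1, 10, 2], [2,
    14, 15, 13], [1, 11, 16, 12], [1, 12, 17, 10]]
  P := {
    a := 7
    N := 18
    nb := [910, 7785, 25753, 1031, 57348, 71682, 136194, 8453, 641, 2307, 147534, 66082, 196706,
      32916, 33812, 24592, 6176, 5184]
    tri := [(0, 1, 3), (0, 1, 9), (0, 2, 3), (0, 2, 7), (0, 7, 8), (0, 8, 9), (1, 3, 10), (1, 5, 11),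
      (1, 5, 12), (1, 6, 10), (1, 6, 12), (1, 9, 11), (2, 3, 10), (2, 4, 13), (2, 4, 14), (2, 7,
      13), (2, 10, 14), (4, 13, 15), (4, 14, 15), (5, 11, 16), (5, 12, 16), (6, 10, 17), (6, 12,
      17)]
    fin := [0, 1, 2, 2, 2, 1, 1, 2, 0, 9, 1, 1, 12, 13, 2, 15, 16, 17]
    chd := [(0, 1), (1, 12)]
    steps := [(0, 8), (1, 5), (1, 6), (1, 11), (1, 10), (2, 3), (2, 4), (2, 7), (2, 14)] }
  rep := [1, 2, 9, 12, 13, 0, 15, 16, 17]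

noncomputable def v3613 : Cov.CovD where
  P := 3
  N := 6
  pl := [2, 6, 8, 9, 10]
  lev := [⟨[], [], [(1, 5)], [2], [(0, 1, []), (1, 5, [0])]⟩,
    ⟨[], [(0, 0), (0, 1), (0, 3), (0, 5)], [(0, 0), (0, 3)], [2], [(3, 0, [3, 5]), (4, 0,
      [3, 5]), (5, 3, [0])]⟩,
    ⟨[(0, 1)], [(0, 0), (0, 1), (0, 5), (1, 0)], [(0, 1), (1, 1)], [4], [(0, 1, []), (3, 0,
      [3, 5]), (7, 1, [])]⟩,
    ⟨[(0, 1), (0, 2), (1, 2)], [(0, 0), (0, 1), (0, 5), (1, 0), (1, 3), (2, 0), (2, 1)],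
      [], [], [(3, 0, [3, 5])]⟩,
    ⟨[(0, 2), (2, 3)], [(2, 0), (2, 1)], [], [4, 6], [(7, 1, [])]⟩,
    ⟨[(0, 1), (1, 3)], [(1, 0), (1, 3)], [(0, 3)], [7], [(4, 0, [3, 5]), (5, 3, [0])]⟩,
    ⟨[(0, 1), (1, 3), (1, 5)], [(1, 0), (1, 3), (2, 0), (3, 0), (5, 3)], [(0, 3)], [8],
      [(3, 0, [3, 5]), (5, 3, [0])]⟩]
  Ta := [((0, 1), 1, 5), ((0, 6), 1, 4), ((3, 7), 0, 1), ((3, 10), 0, 8), ((4, 2), 0, 2), ((4,
    9), 0, 7), ((7, 3), 1, 0), ((7, 8), 1, 6)]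
  Tb := [((0, 1, 6), 1, 5, 4), ((1, 0, 2), 5, 1, 2), ((2, 1, 4), 2, 5, 0), ((3, 7, 10), 0, 1, 8),
    ((4, 2, 9), 0, 2, 7), ((5, 9, 10), 3, 7, 8), ((6, 0, 8), 4, 1, 6), ((7, 3, 8), 1, 0, 6),
    ((8, 6, 7), 6, 4, 1), ((9, 4, 5), 7, 0, 3), ((10, 3, 5), 8, 0, 3)]
  Tc := [(0, 3, 5)]
  Td := [((0, 3), (3, 7), 1), ((0, 3), (3, 10), 8), ((0, 3), (4, 2), 2), ((0, 3), (4, 9), 7),
    ((0, 5), (3, 7), 1), ((0, 5), (3, 10), 8), ((0, 5), (4, 2), 2), ((0, 5), (4, 9), 7), ((3,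
    0), (5, 9), 7), ((3, 0), (5, 10), 8), ((5, 0), (1, 0), 1), ((5, 0), (1, 2), 2)]
  G := [[0, 0, 0, 0xa124ad922a8b22ca6478639286528cc1, 0x468d242c314c8d46c863a6994846d24ca1], [0,
    0xa182a142a124e618261486128ec1, 0, 0x6a9aa394668ba152c218c43a659661aa4752cc1,
    0xc1c194c14c952ca66d666d946c27286758ca1], [0, 0,
    0x11c2211c11c52c11a2411a11a58c611c11c94142182ac11611168c11628cac,
    0x51a2471a1aa52c36628166b1658cc1, 0x71c2411c11c52c616246d6a61e58ca1], [0, 0,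
    0x6488c8122484488ca12111e1811ad412125181684dc1161128c14811e116d8cce,
    0x5aa51a9259a3aa52c9169669231691658cc1, 0x7cc11c9219c75c52c6166d694215e31658ca1]]

noncomputable def n3613 : Ent := ⟨e3613, noF, [], [], [(16, 15, [7334790850167413569773436004105379185503274260204390087403942019420161, 0]), (16, 13, [7334685537894576317792898128369202883340578364357296604626079811997697, 0]), (12, 15, [7334790850167413569773436004105379185503274260204390087403942019444737, 0]), (17, 14, [6903326468334360900303599070699561856668565975414084080169086038949889, 0])]⟩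

def c3613 : PLift (Cov.check n3613.C.D v3613 = true) := ⟨by decide +kernel⟩

def b3613 : PLift (entF (fidx ts) 400 3613 n3613 = true) := ⟨by decide +kernel⟩

theorem g3613 : GoodF (fidx ts) 400 3613 := GoodF.ofV v3613 n3613 c3613.down b3613.down

/-- 75644:2716/1 -/
noncomputable def e3614 : SCfg where
  D := {
    a := 5
    L := 9
    kp := 6
    inn := [(0, 2), (0, 3), (1, 3), (2, 0), (2, 4), (3, 0), (3, 1), (4, 2)]
    mix := [(0, 0), (0, 1), (0, 2), (0, 3), (0, 4), (1, 0), (1, 1), (1, 5), (1, 6), (2, 1), (2, 2), (2,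
      7), (2, 8), (3, 0), (3, 1), (4, 1), (4, 5), (4, 7)]
    cl := [0, 0, 0, 4, 5, 1, 6, 3, 2]
    chq := [(1, 2), (2, 1)]
    rng := [(0, 4), (0, 6), (1, 5), (2, 3), (2, 8), (3, 2), (3, 4), (4, 0), (4, 3), (5, 1), (5, 6), (5,
      7), (6, 0), (6, 5), (7, 5), (7, 8), (8, 2), (8, 7)]
    lev := [] }
  links := [[5, 3, 6, 2, 7, 8, 9], [10, 6, 3, 5, 11], [0, 6, 4, 12, 13, 7], [6, 0, 5, 1], [6, 10, 12, 2]]
  P := {
    a := 5
    N := 14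
    nb := [1004, 3176, 12497, 99, 5188, 2571, 1055, 8453, 641, 289, 6226, 1058, 9236, 4228]
    tri := [(0, 2, 6), (0, 2, 7), (0, 3, 5), (0, 3, 6), (0, 5, 9), (0, 7, 8), (0, 8, 9), (1, 3, 5), (1,
      3, 6), (1, 5, 11), (1, 6, 10), (1, 10, 11), (2, 4, 6), (2, 4, 12), (2, 7, 13), (2, 12, 13),
      (4, 6, 10), (4, 10, 12)]
    fin := [0, 0, 2, 0, 2, 0, 0, 0, 8, 9, 2, 11, 12, 13]
    chd := [(2, 13)]
    steps := [(0, 3), (0, 1), (0, 5), (0, 6), (0, 7), (2, 4), (2, 10)] }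
  rep := [0, 2, 13, 12, 8, 9, 11]

noncomputable def v3614 : Cov.CovD where
  P := 3
  N := 4
  pl := [3, 4, 6, 7]
  lev := [⟨[], [], [(0, 0)], [4, 5], [(0, 0, []), (1, 0, []), (2, 0, [])]⟩,
    ⟨[], [(0, 0)], [(0, 0), (0, 1)], [6], [(0, 0, []), (1, 0, []), (5, 1, [2])]⟩,
    ⟨[], [(0, 0), (0, 2), (1, 0)], [(0, 0), (0, 2)], [3], [(1, 0, []), (2, 0, []), (8, 2,
      [1])]⟩,
    ⟨[(0, 1), (0, 2)], [(0, 0), (1, 0), (1, 1), (2, 0)], [(0, 0)], [], [(0, 0, []), (1, 0,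
      [])]⟩,
    ⟨[(0, 2)], [(0, 0), (1, 0), (1, 1), (2, 0), (2, 1), (2, 2), (3, 0)], [(0, 1)], [3],
      [(1, 0, []), (5, 1, [2])]⟩]
  Ta := [((0, 4), 0, 5), ((0, 6), 0, 6), ((1, 5), 0, 1), ((2, 3), 0, 4), ((2, 8), 0, 2)]
  Tb := [((0, 4, 6), 0, 5, 6), ((2, 3, 8), 0, 4, 2), ((3, 2, 4), 4, 0, 5), ((4, 0, 3), 5, 0, 4),
    ((5, 1, 6), 1, 0, 6), ((5, 1, 7), 1, 0, 3), ((5, 6, 7), 1, 6, 3), ((6, 0, 5), 6, 0, 1),
    ((7, 5, 8), 3, 1, 2), ((8, 2, 7), 2, 0, 3)]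
  Tc := []
  Td := [((1, 2), (5, 1), 0), ((1, 2), (5, 6), 6), ((1, 2), (5, 7), 3), ((2, 1), (8, 2), 0), ((2,
    1), (8, 7), 3)]
  G := [[0, 0, 0, 0xc822c8228844c2e, 0x1444a1248ac8448a1842ac4218a8444ace], [0,
    0x2242c2448cc8828c8422c68242c2448c6e, 0, 0xc422c4228448c2e,
    0x44c4a44c4ac8244a8842ac8248a44c8ace], [0, 0, 0x1244c82186c4812a18186c1244c18186ce,
    0xc82298228448c2e, 0x4412a4212ac8844a4218ac8248a8218ace]]

noncomputable def n3614 : Ent := ⟨e3614, noF, [], [], []⟩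

def c3614 : PLift (Cov.check n3614.C.D v3614 = true) := ⟨by decide +kernel⟩

def b3614 : PLift (entF (fidx ts) 400 3614 n3614 = true) := ⟨by decide +kernel⟩

theorem g3614 : GoodF (fidx ts) 400 3614 := GoodF.ofV v3614 n3614 c3614.down b3614.down

/-- 75644:2716 -/
noncomputable def e3615 : SCfg where
  D := {
    a := 5
    L := 10
    kp := 7
    inn := [(0, 2), (0, 3), (1, 3), (2, 0), (2, 4), (3, 0), (3, 1), (4, 2)]
    mix := [(0, 0), (0, 1), (0, 2), (0, 3), (0, 4), (1, 0), (1, 1), (1, 5), (1, 6), (2, 1), (2, 2), (2,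
      7), (2, 8), (3, 0), (3, 1), (4, 1), (4, 7), (4, 9)]
    cl := [0, 0, 0, 2, 5, 6, 7, 3, 1, 4]
    chq := [(1, 4), (4, 1)]
    rng := [(0, 4), (0, 6), (1, 5), (1, 9), (2, 3), (2, 8), (3, 2), (3, 4), (4, 0), (4, 3), (5, 1), (5,
      6), (6, 0), (6, 5), (7, 8), (7, 9), (8, 2), (8, 7), (9, 1), (9, 7)]
    lev := [] }
  links := [[5, 3, 6, 2, 7, 8, 9], [10, 6, 3, 5, 11], [0, 6, 4, 12, 13, 7], [6, 0, 5, 1], [6, 14, 12, 2]]
  P := {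
    a := 5
    N := 15
    nb := [1004, 3176, 12497, 99, 20548, 2571, 17439, 8453, 641, 289, 2114, 1058, 24596, 4228, 4176]
    tri := [(0, 2, 6), (0, 2, 7), (0, 3, 5), (0, 3, 6), (0, 5, 9), (0, 7, 8), (0, 8, 9), (1, 3, 5), (1,
      3, 6), (1, 5, 11), (1, 6, 10), (1, 10, 11), (2, 4, 6), (2, 4, 12), (2, 7, 13), (2, 12, 13),
      (4, 6, 14), (4, 12, 14)]
    fin := [0, 0, 2, 0, 2, 0, 0, 0, 8, 9, 10, 11, 12, 13, 2]
    chd := [(13, 2)]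
    steps := [(0, 3), (0, 1), (0, 5), (0, 6), (0, 7), (2, 4), (2, 14)] }
  rep := [0, 13, 8, 12, 2, 9, 10, 11]

noncomputable def v3615 : Cov.CovD where
  P := 3
  N := 5
  pl := [3, 4, 5, 6, 7]
  lev := [⟨[], [], [(0, 0)], [2, 5], [(0, 0, []), (1, 0, []), (2, 0, [])]⟩,
    ⟨[], [(0, 0)], [(0, 0)], [6, 7], [(0, 0, []), (1, 0, [])]⟩,
    ⟨[], [(0, 0), (0, 1), (1, 0)], [(0, 0), (0, 1)], [3], [(1, 0, []), (2, 0, []), (8, 1,
      [4])]⟩,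
    ⟨[(0, 1), (0, 2)], [(0, 0), (1, 0), (2, 0)], [(0, 0)], [], [(0, 0, []), (1, 0, [])]⟩,
    ⟨[(0, 2)], [(0, 0), (1, 0), (2, 0), (2, 1), (2, 4), (3, 0)], [(0, 4)], [3], [(1, 0,
      []), (9, 4, [1])]⟩]
  Ta := [((0, 4), 0, 5), ((0, 6), 0, 7), ((1, 5), 0, 6), ((1, 9), 0, 4), ((2, 3), 0, 2), ((2, 8),
    0, 1)]
  Tb := [((0, 4, 6), 0, 5, 7), ((1, 5, 9), 0, 6, 4), ((2, 3, 8), 0, 2, 1), ((3, 2, 4), 2, 0, 5),
    ((4, 0, 3), 5, 0, 2), ((5, 1, 6), 6, 0, 7), ((6, 0, 5), 7, 0, 6), ((7, 8, 9), 3, 1, 4),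
    ((8, 2, 7), 1, 0, 3), ((9, 1, 7), 4, 0, 3)]
  Tc := []
  Td := [((1, 4), (8, 2), 0), ((1, 4), (8, 7), 3), ((4, 1), (9, 1), 0), ((4, 1), (9, 7), 3)]
  G := [[0, 0, 0, 0x2412c2218c2412ce1822c2218c1428cec, 0x1222c1222c2414ce2412c1222c2414cea], [0,
    0, 0, 0x62a2c22e8c24e8cee422ce828ce822cec, 0x62a2c64a2c24e8cea464ca264ce424cea], [0,
    0x1214c121461418ae1818c1818618186ec, 0x2818c2218c2412ce1428c1822c1428ce6,
    0x1222c1424c2414ce2818c2212c1222cec, 0x1422c1422c2414ce2818c2412c1428cea]]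

noncomputable def n3615 : Ent := ⟨e3615, noF, [], [], [(10, 14, [81620716623019490593592230936445690773474979418095898189825, 0])]⟩

def c3615 : PLift (Cov.check n3615.C.D v3615 = true) := ⟨by decide +kernel⟩

def b3615 : PLift (entF (fidx ts) 400 3615 n3615 = true) := ⟨by decide +kernel⟩

theorem g3615 : GoodF (fidx ts) 400 3615 := GoodF.ofV v3615 n3615 c3615.down b3615.down

/-- 58544:2717/1 -/
noncomputable def e3616 : SCfg where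
  D := {
    a := 5
    L := 9
    kp := 6
    inn := [(0, 3), (1, 2), (1, 3), (1, 4), (2, 1), (3, 0), (3, 1), (4, 1)]
    mix := [(0, 0), (0, 1), (0, 2), (0, 3), (1, 0), (1, 1), (1, 4), (1, 5), (1, 6), (2, 1), (2, 2), (2,
      5), (2, 7), (3, 0), (3, 1), (4, 4), (4, 5), (4, 8)]
    cl := [0, 0, 1, 5, 3, 0, 2, 6, 4]
    chq := [(2, 4), (4, 2)]
    rng := [(0, 3), (0, 6), (1, 2), (2, 1), (2, 3), (2, 7), (3, 0), (3, 2), (4, 6), (4, 8), (5, 7), (5,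
      8), (6, 0), (6, 4), (7, 2), (7, 5), (8, 4), (8, 5)]
    lev := [] }
  links := [[5, 3, 6, 7, 8], [9, 4, 10, 2, 6, 3, 5, 11], [7, 6, 1, 10, 12], [6, 0, 5, 1], [10, 1, 9, 13]]
  P := {
    a := 5
    N := 14
    nb := [488, 3708, 5314, 99, 9730, 2315, 143, 4421, 161, 10258, 12310, 546, 1156, 1552]
    tri := [(0, 3, 5), (0, 3, 6), (0, 5, 8), (0, 6, 7), (0, 7, 8), (1, 2, 6), (1, 2, 10), (1, 3, 5),
      (1, 3, 6), (1, 4, 9), (1, 4, 10), (1, 5, 11), (1, 9, 11), (2, 6, 7), (2, 7, 12), (2, 10,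
      12), (4, 9, 13), (4, 10, 13)]
    fin := [0, 1, 0, 0, 1, 0, 0, 7, 8, 9, 0, 1, 12, 13]
    chd := [(1, 13)]
    steps := [(0, 3), (0, 5), (0, 6), (0, 2), (0, 10), (1, 4), (1, 11)] }
  rep := [0, 7, 1, 9, 13, 8, 12]

noncomputable def v3616 : Cov.CovD where
  P := 3
  N := 4
  pl := [2, 3, 4, 7]
  lev := [⟨[], [], [(0, 0)], [1, 5], [(0, 0, []), (1, 0, [])]⟩,
    ⟨[], [(0, 0)], [(0, 0), (0, 2)], [3], [(0, 0, []), (1, 0, []), (5, 0, []), (6, 2,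
      [4])]⟩,
    ⟨[], [(0, 0), (1, 0), (1, 2)], [(0, 0)], [1, 6], [(1, 0, []), (5, 0, [])]⟩,
    ⟨[(0, 1), (1, 2)], [(0, 0), (1, 0), (1, 2), (2, 0)], [(0, 0)], [], [(0, 0, []), (1, 0,
      [])]⟩,
    ⟨[(1, 2), (1, 3)], [(1, 0), (1, 2), (1, 4), (2, 0)], [(0, 4)], [3], [(5, 0, []), (8, 4,
      [2])]⟩]
  Ta := [((0, 3), 0, 5), ((0, 6), 0, 2), ((1, 2), 0, 1), ((5, 7), 0, 6), ((5, 8), 0, 4)]
  Tb := [((0, 3, 6), 0, 5, 2), ((2, 1, 3), 1, 0, 5), ((2, 1, 7), 1, 0, 6), ((2, 3, 7), 1, 5, 6),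
    ((3, 0, 2), 5, 0, 1), ((4, 6, 8), 3, 2, 4), ((5, 7, 8), 0, 6, 4), ((6, 0, 4), 2, 0, 3),
    ((7, 2, 5), 6, 1, 0), ((8, 4, 5), 4, 3, 0)]
  Tc := []
  Td := [((2, 4), (6, 0), 0), ((2, 4), (6, 4), 3), ((4, 2), (8, 4), 3), ((4, 2), (8, 5), 0)]
  G := [[0, 0, 0x1412c1418ca1818c1812c6c, 0x1424c2218cc2414c1822ccc, 0x4242c1812ca4418c1448cac],
    [0, 0x128288c144282c142224ce, 0, 0x1422c2212cc1428c2812ccc, 0x4214c1448ca1214c4844cac],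
    [0, 0, 0, 0x64e2ca428cc2464ce2a2ccc, 0x64e4cc442ca64c4cc268cac]]

noncomputable def n3616 : Ent := ⟨e3616, noF, [], [], []⟩

def c3616 : PLift (Cov.check n3616.C.D v3616 = true) := ⟨by decide +kernel⟩

def b3616 : PLift (entF (fidx ts) 400 3616 n3616 = true) := ⟨by decide +kernel⟩

theorem g3616 : GoodF (fidx ts) 400 3616 := GoodF.ofV v3616 n3616 c3616.down b3616.down

/-- 58544:2717 -/
noncomputable def e3617 : SCfg where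
  D := {
    a := 5
    L := 10
    kp := 7
    inn := [(0, 3), (1, 2), (1, 3), (1, 4), (2, 1), (3, 0), (3, 1), (4, 1)]
    mix := [(0, 0), (0, 1), (0, 2), (0, 3), (1, 0), (1, 1), (1, 4), (1, 5), (1, 6), (2, 1), (2, 5), (2,
      7), (2, 8), (3, 0), (3, 1), (4, 4), (4, 5), (4, 9)]
    cl := [0, 0, 2, 5, 3, 0, 1, 6, 7, 4]
    chq := [(1, 4), (4, 1)]
    rng := [(0, 3), (0, 6), (1, 2), (1, 7), (2, 1), (2, 3), (3, 0), (3, 2), (4, 6), (4, 9), (5, 8), (5,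
      9), (6, 0), (6, 4), (7, 1), (7, 8), (8, 5), (8, 7), (9, 4), (9, 5)]
    lev := [] }
  links := [[5, 3, 6, 7, 8], [9, 4, 10, 2, 6, 3, 5, 11], [12, 6, 1, 10, 13], [6, 0, 5, 1], [10, 1, 9,
    14]]
  P := {
    a := 5
    N := 15
    nb := [488, 3708, 13378, 99, 17922, 2315, 4239, 321, 161, 18450, 24598, 546, 8260, 5124, 1552]
    tri := [(0, 3, 5), (0, 3, 6), (0, 5, 8), (0, 6, 7), (0, 7, 8), (1, 2, 6), (1, 2, 10), (1, 3, 5),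
      (1, 3, 6), (1, 4, 9), (1, 4, 10), (1, 5, 11), (1, 9, 11), (2, 6, 12), (2, 10, 13), (2, 12,
      13), (4, 9, 14), (4, 10, 14)]
    fin := [0, 1, 0, 0, 1, 0, 0, 7, 8, 9, 0, 1, 12, 13, 14]
    chd := [(1, 14)]
    steps := [(0, 3), (0, 5), (0, 6), (0, 2), (0, 10), (1, 4), (1, 11)] }
  rep := [0, 1, 7, 9, 14, 8, 12, 13]

noncomputable def v3617 : Cov.CovD where
  P := 3
  N := 5
  pl := [2, 3, 4, 7, 8]
  lev := [⟨[], [], [(0, 0)], [2, 5], [(0, 0, []), (1, 0, [])]⟩,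
    ⟨[], [(0, 0)], [(0, 0), (0, 1)], [3], [(0, 0, []), (1, 0, []), (5, 0, []), (6, 1,
      [4])]⟩,
    ⟨[], [(0, 0), (1, 0), (1, 1)], [(0, 0)], [6, 7], [(1, 0, []), (5, 0, [])]⟩,
    ⟨[(0, 1), (1, 2)], [(0, 0), (1, 0), (1, 1), (2, 0)], [(0, 0)], [], [(0, 0, []), (1, 0,
      [])]⟩,
    ⟨[(1, 2), (1, 3)], [(1, 0), (1, 1), (1, 4), (2, 0)], [(0, 4)], [3], [(5, 0, []), (9, 4,
      [1])]⟩]
  Ta := [((0, 3), 0, 5), ((0, 6), 0, 1), ((1, 2), 0, 2), ((1, 7), 0, 6), ((5, 8), 0, 7), ((5, 9),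
    0, 4)]
  Tb := [((0, 3, 6), 0, 5, 1), ((1, 2, 7), 0, 2, 6), ((2, 1, 3), 2, 0, 5), ((3, 0, 2), 5, 0, 2),
    ((4, 6, 9), 3, 1, 4), ((5, 8, 9), 0, 7, 4), ((6, 0, 4), 1, 0, 3), ((7, 1, 8), 6, 0, 7),
    ((8, 5, 7), 7, 0, 6), ((9, 4, 5), 4, 3, 0)]
  Tc := []
  Td := [((1, 4), (6, 0), 0), ((1, 4), (6, 4), 3), ((4, 1), (9, 4), 3), ((4, 1), (9, 5), 0)]
  G := [[0, 0x141212e141818ea121212e181818ecc, 0, 0x142222e281812ec242428e121218ecc,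
    0x242212e141228ec242222e121814eca], [0, 0, 0x241224e182212ec122218e241228ec6,
    0x242212e121228ec221418e122822ecc, 0x241214e182828ec142412e281828eca], [0, 0, 0,
    0x2462e2ee8a222ec22e4e4ee22828ecc, 0x22e422ee828e8ec22e4e4ee82824eca]]

noncomputable def n3617 : Ent := ⟨e3617, noF, [], [], [(12, 7, [87899350853947037246293024846659432078125472636983518035969, 0])]⟩

def c3617 : PLift (Cov.check n3617.C.D v3617 = true) := ⟨by decide +kernel⟩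

def b3617 : PLift (entF (fidx ts) 400 3617 n3617 = true) := ⟨by decide +kernel⟩

theorem g3617 : GoodF (fidx ts) 400 3617 := GoodF.ofV v3617 n3617 c3617.down b3617.down

/-- 58544:2718/1 -/
noncomputable def e3618 : SCfg where
  D := {
    a := 5
    L := 9
    kp := 6
    inn := [(0, 3), (1, 2), (1, 3), (1, 4), (2, 1), (3, 0), (3, 1), (4, 1)]
    mix := [(0, 0), (0, 1), (0, 2), (0, 3), (1, 0), (1, 1), (1, 4), (1, 5), (1, 6), (2, 1), (2, 2), (2,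
      5), (2, 7), (3, 0), (3, 1), (4, 4), (4, 6), (4, 8)]
    cl := [0, 0, 1, 5, 2, 0, 3, 6, 4]
    chq := [(0, 4), (4, 0)]
    rng := [(0, 3), (0, 6), (1, 2), (2, 1), (2, 3), (2, 7), (3, 0), (3, 2), (4, 5), (4, 8), (5, 4), (5,
      7), (6, 0), (6, 8), (7, 2), (7, 5), (8, 4), (8, 6)]
    lev := [] }
  links := [[5, 3, 6, 7, 8], [9, 10, 2, 6, 3, 5, 11, 4], [7, 6, 1, 10, 12], [6, 0, 5, 1], [1, 11, 13, 9]]
  P := {
    a := 5
    N := 14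
    nb := [488, 3708, 5314, 99, 10754, 2315, 143, 4421, 161, 9234, 4614, 8242, 1156, 2576]
    tri := [(0, 3, 5), (0, 3, 6), (0, 5, 8), (0, 6, 7), (0, 7, 8), (1, 2, 6), (1, 2, 10), (1, 3, 5),
      (1, 3, 6), (1, 4, 9), (1, 4, 11), (1, 5, 11), (1, 9, 10), (2, 6, 7), (2, 7, 12), (2, 10,
      12), (4, 9, 13), (4, 11, 13)]
    fin := [0, 0, 0, 0, 0, 0, 0, 7, 8, 9, 0, 11, 12, 13]
    chd := [(0, 13)]
    steps := [(0, 3), (0, 1), (0, 4), (0, 5), (0, 10), (0, 6), (0, 2)] }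
  rep := [0, 7, 9, 11, 13, 8, 12]

noncomputable def v3618 : Cov.CovD where
  P := 3
  N := 4
  pl := [2, 3, 4, 6, 7]
  lev := [⟨[], [], [(0, 0)], [1, 5], [(0, 0, [4]), (1, 0, [4])]⟩,
    ⟨[], [(0, 0)], [(0, 0)], [2, 3], [(0, 0, [4]), (1, 0, [4]), (5, 0, [4])]⟩,
    ⟨[], [(0, 0), (1, 0)], [(0, 0)], [1, 6], [(1, 0, [4]), (5, 0, [4])]⟩,
    ⟨[(0, 1), (1, 2)], [(0, 0), (1, 0), (2, 0)], [(0, 0)], [], [(0, 0, [4]), (1, 0, [4])]⟩,
    ⟨[(1, 2), (1, 3)], [(1, 0), (1, 4)], [], [2, 3], [(8, 4, [0])]⟩]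
  Ta := [((0, 3), 0, 5), ((0, 6), 0, 3), ((1, 2), 0, 1), ((5, 4), 0, 2), ((5, 7), 0, 6)]
  Tb := [((0, 3, 6), 0, 5, 3), ((2, 1, 3), 1, 0, 5), ((2, 1, 7), 1, 0, 6), ((2, 3, 7), 1, 5, 6),
    ((3, 0, 2), 5, 0, 1), ((4, 5, 8), 2, 0, 4), ((5, 4, 7), 0, 2, 6), ((6, 0, 8), 3, 0, 4),
    ((7, 2, 5), 6, 1, 0), ((8, 4, 6), 4, 2, 3)]
  Tc := []
  Td := [((0, 4), (0, 3), 5), ((0, 4), (0, 6), 3), ((0, 4), (1, 2), 1), ((0, 4), (5, 4), 2), ((0,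
    4), (5, 7), 6), ((4, 0), (8, 4), 2), ((4, 0), (8, 6), 3)]
  G := [[0, 0, 0, 0x12d2cd812cc54d4c9218ccc, 0x32b2c9812ca32b2c9214cac], [0,
    0x144122c122188c148124ce, 0, 0x1412c1212cc1418c1818ccc, 0x1212c1212ca1414c1412cac], [0,
    0, 0xc24c88a864cec24c88a464cec, 0x1212c1412cc1218c1212ccc, 0x1414c1418ca1418c1814cac]]

noncomputable def n3618 : Ent := ⟨e3618, noF, [], [], []⟩

def c3618 : PLift (Cov.check n3618.C.D v3618 = true) := ⟨by decide +kernel⟩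

def b3618 : PLift (entF (fidx ts) 400 3618 n3618 = true) := ⟨by decide +kernel⟩

theorem g3618 : GoodF (fidx ts) 400 3618 := GoodF.ofV v3618 n3618 c3618.down b3618.down

/-- 58544:2718 -/
noncomputable def e3619 : SCfg where
  D := {
    a := 5
    L := 10
    kp := 7
    inn := [(0, 3), (1, 2), (1, 3), (1, 4), (2, 1), (3, 0), (3, 1), (4, 1)]
    mix := [(0, 0), (0, 1), (0, 2), (0, 3), (1, 0), (1, 1), (1, 4), (1, 5), (1, 6), (2, 1), (2, 5), (2,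
      7), (2, 8), (3, 0), (3, 1), (4, 4), (4, 6), (4, 9)]
    cl := [0, 0, 4, 5, 1, 0, 2, 6, 7, 3]
    chq := [(0, 3), (3, 0)]
    rng := [(0, 3), (0, 6), (1, 2), (1, 7), (2, 1), (2, 3), (3, 0), (3, 2), (4, 5), (4, 9), (5, 4), (5,
      8), (6, 0), (6, 9), (7, 1), (7, 8), (8, 5), (8, 7), (9, 4), (9, 6)]
    lev := [] }
  links := [[5, 3, 6, 7, 8], [9, 10, 2, 6, 3, 5, 11, 4], [12, 6, 1, 10, 13], [6, 0, 5, 1], [1, 11, 14,
    9]]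
  P := {
    a := 5
    N := 15
    nb := [488, 3708, 13378, 99, 18946, 2315, 4239, 321, 161, 17426, 8710, 16434, 8260, 5124, 2576]
    tri := [(0, 3, 5), (0, 3, 6), (0, 5, 8), (0, 6, 7), (0, 7, 8), (1, 2, 6), (1, 2, 10), (1, 3, 5),
      (1, 3, 6), (1, 4, 9), (1, 4, 11), (1, 5, 11), (1, 9, 10), (2, 6, 12), (2, 10, 13), (2, 12,
      13), (4, 9, 14), (4, 11, 14)]
    fin := [0, 0, 0, 0, 0, 0, 0, 7, 8, 9, 0, 11, 12, 13, 14]
    chd := [(0, 14)]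
    steps := [(0, 3), (0, 1), (0, 2), (0, 4), (0, 5), (0, 10), (0, 6)] }
  rep := [0, 9, 11, 14, 7, 8, 12, 13]

noncomputable def v3619 : Cov.CovD where
  P := 3
  N := 5
  pl := [2, 3, 4, 6, 7, 8]
  lev := [⟨[], [], [(0, 0)], [4, 5], [(0, 0, [3]), (1, 0, [3])]⟩,
    ⟨[], [(0, 0)], [(0, 0)], [1, 2], [(0, 0, [3]), (1, 0, [3]), (5, 0, [3])]⟩,
    ⟨[], [(0, 0), (1, 0)], [(0, 0)], [6, 7], [(1, 0, [3]), (5, 0, [3])]⟩,
    ⟨[(0, 1), (1, 2)], [(0, 0), (1, 0), (2, 0)], [(0, 0)], [], [(0, 0, [3]), (1, 0, [3])]⟩,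
    ⟨[(1, 2), (1, 3)], [(1, 0), (1, 3)], [], [1, 2], [(9, 3, [0])]⟩]
  Ta := [((0, 3), 0, 5), ((0, 6), 0, 2), ((1, 2), 0, 4), ((1, 7), 0, 6), ((5, 4), 0, 1), ((5, 8),
    0, 7)]
  Tb := [((0, 3, 6), 0, 5, 2), ((1, 2, 7), 0, 4, 6), ((2, 1, 3), 4, 0, 5), ((3, 0, 2), 5, 0, 4),
    ((4, 5, 9), 1, 0, 3), ((5, 4, 8), 0, 1, 7), ((6, 0, 9), 2, 0, 3), ((7, 1, 8), 6, 0, 7),
    ((8, 5, 7), 7, 0, 6), ((9, 4, 6), 3, 1, 2)]
  Tc := []
  Td := [((0, 3), (0, 3), 5), ((0, 3), (0, 6), 2), ((0, 3), (1, 2), 4), ((0, 3), (1, 7), 6), ((0,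
    3), (5, 4), 1), ((0, 3), (5, 8), 7), ((3, 0), (9, 4), 1), ((3, 0), (9, 6), 2)]
  G := [[0, 0, 0xc4c26c88c424c282c2ecc4c2648c8ce, 0x141218e4141812e8141214e4e,
    0x141212e8141812e8121412e8e], [0, 0, 0, 0x141212e4141818e8141812e8e,
    0x141214e8141414e8121818e8e], [0, 0xc4c46c28cc4c46c88c42c4c2e848ce, 0,
    0x121414e8141814e8121414e8e, 0x141212e8141818e8121218e8e]]

noncomputable def n3619 : Ent := ⟨e3619, noF, [], [], [(12, 7, [87899350853947037246293024846659432078125472636983518044161, 0])]⟩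

def c3619 : PLift (Cov.check n3619.C.D v3619 = true) := ⟨by decide +kernel⟩

def b3619 : PLift (entF (fidx ts) 400 3619 n3619 = true) := ⟨by decide +kernel⟩

theorem g3619 : GoodF (fidx ts) 400 3619 := GoodF.ofV v3619 n3619 c3619.down b3619.down

/-- 5754:2719/1 -/
noncomputable def e3620 : SCfg where
  D := {
    a := 4
    L := 8
    kp := 5
    inn := [(0, 3), (1, 2), (1, 3), (2, 1), (3, 0), (3, 1)]
    mix := [(0, 0), (0, 1), (0, 2), (0, 3), (1, 0), (1, 1), (1, 4), (1, 5), (1, 6), (2, 1), (2, 2), (2,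
      4), (2, 7), (3, 0), (3, 1)]
    cl := [0, 0, 1, 2, 0, 3, 4, 5]
    chq := []
    rng := [(0, 3), (0, 5), (1, 2), (2, 1), (2, 3), (2, 7), (3, 0), (3, 2), (4, 6), (4, 7), (5, 0), (5,
      6), (6, 4), (6, 5), (7, 2), (7, 4)]
    lev := [] }
  links := [[4, 3, 5, 6, 7], [8, 2, 5, 3, 4, 9, 10], [6, 5, 1, 8, 11], [5, 0, 4, 1]]
  P := {
    a := 4
    N := 12
    nb := [248, 1852, 2402, 51, 651, 79, 2213, 81, 3078, 1042, 770, 324]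
    tri := [(0, 3, 4), (0, 3, 5), (0, 4, 7), (0, 5, 6), (0, 6, 7), (1, 2, 5), (1, 2, 8), (1, 3, 4), (1,
      3, 5), (1, 4, 9), (1, 8, 10), (1, 9, 10), (2, 5, 6), (2, 6, 11), (2, 8, 11)]
    fin := [0, 0, 0, 0, 0, 0, 6, 7, 0, 9, 10, 11]
    chd := []
    steps := [(0, 3), (0, 1), (0, 4), (0, 8), (0, 5), (0, 2)] }
  rep := [0, 6, 7, 9, 10, 11]

noncomputable def v3620 : Cov.CovD where
  P := 3
  N := 3
  pl := [2, 3, 5, 6, 7]
  lev := [⟨[], [], [(0, 0)], [1, 2], [(0, 0, []), (1, 0, [])]⟩,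
    ⟨[], [(0, 0)], [(0, 0)], [3, 4], [(0, 0, []), (1, 0, []), (4, 0, [])]⟩,
    ⟨[], [(0, 0), (1, 0)], [(0, 0)], [1, 5], [(1, 0, []), (4, 0, [])]⟩,
    ⟨[(0, 1), (1, 2)], [(0, 0), (1, 0), (2, 0)], [(0, 0)], [], [(0, 0, []), (1, 0, [])]⟩]
  Ta := [((0, 3), 0, 2), ((0, 5), 0, 3), ((1, 2), 0, 1), ((4, 6), 0, 4), ((4, 7), 0, 5)]
  Tb := [((0, 3, 5), 0, 2, 3), ((2, 1, 3), 1, 0, 2), ((2, 1, 7), 1, 0, 5), ((2, 3, 7), 1, 2, 5),
    ((3, 0, 2), 2, 0, 1), ((4, 6, 7), 0, 4, 5), ((5, 0, 6), 3, 0, 4), ((6, 4, 5), 4, 0, 3),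
    ((7, 2, 4), 5, 1, 0)]
  Tc := []
  Td := []
  G := [[0, 0, 0x48c88c84ce4, 0x48c82c48ce4, 0x22c22c28ce8], [0, 0x28c886846e4, 0,
    0x24c22c48ce4, 0x44c48c84ce8], [0, 0, 0, 0x42c28c48ce8, 0x24c82c82ce8]]

noncomputable def n3620 : Ent := ⟨e3620, noF, [], [], []⟩

def c3620 : PLift (Cov.check n3620.C.D v3620 = true) := ⟨by decide +kernel⟩

def b3620 : PLift (entF (fidx ts) 400 3620 n3620 = true) := ⟨by decide +kernel⟩

theorem g3620 : GoodF (fidx ts) 400 3620 := GoodF.ofV v3620 n3620 c3620.down b3620.down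

/-- 5754:2719 -/
noncomputable def e3621 : SCfg where
  D := {
    a := 4
    L := 9
    kp := 6
    inn := [(0, 3), (1, 2), (1, 3), (2, 1), (3, 0), (3, 1)]
    mix := [(0, 0), (0, 1), (0, 2), (0, 3), (1, 0), (1, 1), (1, 4), (1, 5), (1, 6), (2, 1), (2, 4), (2,
      7), (2, 8), (3, 0), (3, 1)]
    cl := [0, 0, 1, 2, 0, 3, 4, 5, 6]
    chq := []
    rng := [(0, 3), (0, 5), (1, 2), (1, 7), (2, 1), (2, 3), (3, 0), (3, 2), (4, 6), (4, 8), (5, 0), (5,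
      6), (6, 4), (6, 5), (7, 1), (7, 8), (8, 4), (8, 7)]
    lev := [] }
  links := [[4, 3, 5, 6, 7], [8, 2, 5, 3, 4, 9, 10], [11, 5, 1, 8, 12], [5, 0, 4, 1]]
  P := {
    a := 4
    N := 13
    nb := [248, 1852, 6434, 51, 651, 2127, 161, 81, 5126, 1042, 770, 4132, 2308]
    tri := [(0, 3, 4), (0, 3, 5), (0, 4, 7), (0, 5, 6), (0, 6, 7), (1, 2, 5), (1, 2, 8), (1, 3, 4), (1,
      3, 5), (1, 4, 9), (1, 8, 10), (1, 9, 10), (2, 5, 11), (2, 8, 12), (2, 11, 12)]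
    fin := [0, 0, 0, 0, 0, 0, 6, 7, 0, 9, 10, 11, 12]
    chd := []
    steps := [(0, 3), (0, 1), (0, 2), (0, 4), (0, 8), (0, 5)] }
  rep := [0, 6, 7, 9, 10, 11, 12]

noncomputable def v3621 : Cov.CovD where
  P := 3
  N := 4
  pl := [2, 3, 5, 6, 7, 8]
  lev := [⟨[], [], [(0, 0)], [1, 2], [(0, 0, []), (1, 0, [])]⟩,
    ⟨[], [(0, 0)], [(0, 0)], [3, 4], [(0, 0, []), (1, 0, []), (4, 0, [])]⟩,
    ⟨[], [(0, 0), (1, 0)], [(0, 0)], [5, 6], [(1, 0, []), (4, 0, [])]⟩,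
    ⟨[(0, 1), (1, 2)], [(0, 0), (1, 0), (2, 0)], [(0, 0)], [], [(0, 0, []), (1, 0, [])]⟩]
  Ta := [((0, 3), 0, 2), ((0, 5), 0, 3), ((1, 2), 0, 1), ((1, 7), 0, 5), ((4, 6), 0, 4), ((4, 8),
    0, 6)]
  Tb := [((0, 3, 5), 0, 2, 3), ((1, 2, 7), 0, 1, 5), ((2, 1, 3), 1, 0, 2), ((3, 0, 2), 2, 0, 1),
    ((4, 6, 8), 0, 4, 6), ((5, 0, 6), 3, 0, 4), ((6, 4, 5), 4, 0, 3), ((7, 1, 8), 5, 0, 6),
    ((8, 4, 7), 6, 0, 5)]
  Tc := []
  Td := []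
  G := [[0, 0, 0x488e288e828ee4, 0x222e222e488ee4, 0x422e422e244ee8], [0, 0x424e824e828ee8, 0,
    0x224e282e888ee8, 0x222e822e224ee8], [0, 0, 0, 0x242e288e428ee4, 0x242e888e224ee8]]

noncomputable def n3621 : Ent := ⟨e3621, noF, [], [], [(11, 6, [4490646669154137816953156309121443020718296046649345, 0])]⟩

def c3621 : PLift (Cov.check n3621.C.D v3621 = true) := ⟨by decide +kernel⟩

def b3621 : PLift (entF (fidx ts) 400 3621 n3621 = true) := ⟨by decide +kernel⟩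

theorem g3621 : GoodF (fidx ts) 400 3621 := GoodF.ofV v3621 n3621 c3621.down b3621.down

/-- 58544:2720/2 -/
noncomputable def e3622 : SCfg where
  D := {
    a := 5
    L := 8
    kp := 5
    inn := [(0, 3), (1, 2), (1, 3), (1, 4), (2, 1), (3, 0), (3, 1), (4, 1)]
    mix := [(0, 0), (0, 1), (0, 2), (0, 3), (1, 0), (1, 1), (1, 4), (1, 5), (1, 6), (2, 1), (2, 2), (2,
      5), (2, 7), (3, 0), (3, 1), (4, 0), (4, 3), (4, 6)]
    cl := [0, 0, 2, 1, 4, 0, 3, 5]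
    chq := [(1, 4), (4, 1)]
    rng := [(0, 3), (1, 2), (2, 1), (2, 3), (2, 7), (3, 0), (3, 2), (3, 6), (4, 5), (4, 6), (5, 4), (5,
      7), (6, 3), (6, 4), (7, 2), (7, 5)]
    lev := [] }
  links := [[5, 3, 6, 7, 8], [9, 10, 2, 6, 3, 5, 4, 11], [7, 6, 1, 10, 12], [6, 0, 5, 1], [5, 8, 11, 1]]
  P := {
    a := 5
    N := 13
    nb := [488, 3708, 5314, 99, 2338, 283, 143, 4421, 2225, 3074, 4614, 786, 1156]
    tri := [(0, 3, 5), (0, 3, 6), (0, 5, 8), (0, 6, 7), (0, 7, 8), (1, 2, 6), (1, 2, 10), (1, 3, 5),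
      (1, 3, 6), (1, 4, 5), (1, 4, 11), (1, 9, 10), (1, 9, 11), (2, 6, 7), (2, 7, 12), (2, 10,
      12), (4, 5, 8), (4, 8, 11)]
    fin := [0, 1, 0, 0, 1, 0, 0, 7, 1, 9, 0, 11, 12]
    chd := [(1, 9)]
    steps := [(0, 3), (0, 5), (0, 6), (0, 2), (0, 10), (1, 4), (1, 8)] }
  rep := [0, 1, 7, 11, 9, 12]

noncomputable def v3622 : Cov.CovD where
  P := 3
  N := 3
  pl := [2, 6, 7]
  lev := [⟨[], [], [(0, 0), (0, 1)], [2], [(0, 0, []), (1, 0, []), (3, 1, [4])]⟩,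
    ⟨[], [(0, 0)], [(0, 0), (0, 4)], [3], [(0, 0, []), (1, 0, []), (4, 4, [1]), (5, 0,
      [])]⟩,
    ⟨[], [(0, 0), (1, 0), (1, 4)], [(0, 0)], [2, 5], [(1, 0, []), (5, 0, [])]⟩,
    ⟨[(0, 1), (1, 2)], [(0, 0), (0, 1), (1, 0), (1, 4), (2, 0)], [(0, 0)], [], [(0, 0, []),
      (1, 0, [])]⟩,
    ⟨[(1, 2), (1, 3)], [(0, 0), (0, 1), (1, 0), (1, 1), (1, 4), (3, 0)], [(0, 1)], [3],
      [(0, 0, []), (3, 1, [4])]⟩]
  Ta := [((0, 3), 0, 1), ((1, 2), 0, 2), ((5, 4), 0, 4), ((5, 7), 0, 5)]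
  Tb := [((2, 1, 3), 2, 0, 1), ((2, 1, 7), 2, 0, 5), ((2, 3, 7), 2, 1, 5), ((3, 0, 2), 1, 0, 2),
    ((3, 0, 6), 1, 0, 3), ((3, 2, 6), 1, 2, 3), ((4, 5, 6), 4, 0, 3), ((5, 4, 7), 0, 4, 5),
    ((6, 3, 4), 3, 1, 4), ((7, 2, 5), 5, 2, 0)]
  Tc := []
  Td := [((1, 4), (3, 0), 0), ((1, 4), (3, 2), 2), ((1, 4), (3, 6), 3), ((4, 1), (4, 5), 0), ((4,
    1), (4, 6), 3)]
  G := [[0, 0x6282c42a8c2828ce4, 0, 0xc4c2c24, 0x4484a8442ac8c4ae8], [0, 0, 0x484861842a1898ce4,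
    0x9294c24, 0x1282a8414a9454ae8], [0, 0, 0, 0x5898c28, 0x4284a4242a1814ae8]]

noncomputable def n3622 : Ent := ⟨e3622, noF, [], [], []⟩

def c3622 : PLift (Cov.check n3622.C.D v3622 = true) := ⟨by decide +kernel⟩

def b3622 : PLift (entF (fidx ts) 400 3622 n3622 = true) := ⟨by decide +kernel⟩

theorem g3622 : GoodF (fidx ts) 400 3622 := GoodF.ofV v3622 n3622 c3622.down b3622.down

/-- 58544:2720/1 -/
noncomputable def e3623 : SCfg where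
  D := {
    a := 5
    L := 9
    kp := 6
    inn := [(0, 3), (1, 2), (1, 3), (1, 4), (2, 1), (3, 0), (3, 1), (4, 1)]
    mix := [(0, 0), (0, 1), (0, 2), (0, 3), (1, 0), (1, 1), (1, 4), (1, 5), (1, 6), (2, 1), (2, 5), (2,
      7), (2, 8), (3, 0), (3, 1), (4, 0), (4, 3), (4, 6)]
    cl := [0, 0, 2, 1, 4, 0, 3, 5, 6]
    chq := [(1, 4), (4, 1)]
    rng := [(0, 3), (1, 2), (1, 7), (2, 1), (2, 3), (3, 0), (3, 2), (3, 6), (4, 5), (4, 6), (5, 4), (5,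
      8), (6, 3), (6, 4), (7, 1), (7, 8), (8, 5), (8, 7)]
    lev := [] }
  links := [[5, 3, 6, 7, 8], [9, 10, 2, 6, 3, 5, 4, 11], [12, 6, 1, 10, 13], [6, 0, 5, 1], [5, 8, 11, 1]]
  P := {
    a := 5
    N := 14
    nb := [488, 3708, 13378, 99, 2338, 283, 4239, 321, 2225, 3074, 8710, 786, 8260, 5124]
    tri := [(0, 3, 5), (0, 3, 6), (0, 5, 8), (0, 6, 7), (0, 7, 8), (1, 2, 6), (1, 2, 10), (1, 3, 5),
      (1, 3, 6), (1, 4, 5), (1, 4, 11), (1, 9, 10), (1, 9, 11), (2, 6, 12), (2, 10, 13), (2, 12,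
      13), (4, 5, 8), (4, 8, 11)]
    fin := [0, 1, 0, 0, 1, 0, 0, 7, 1, 9, 0, 11, 12, 13]
    chd := [(1, 9)]
    steps := [(0, 3), (0, 5), (0, 6), (0, 2), (0, 10), (1, 4), (1, 8)] }
  rep := [0, 1, 7, 11, 9, 12, 13]

noncomputable def v3623 : Cov.CovD where
  P := 3
  N := 4
  pl := [2, 6, 7, 8]
  lev := [⟨[], [], [(0, 0), (0, 1)], [2], [(0, 0, []), (1, 0, []), (3, 1, [4])]⟩,
    ⟨[], [(0, 0)], [(0, 0), (0, 4)], [3], [(0, 0, []), (1, 0, []), (4, 4, [1]), (5, 0,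
      [])]⟩,
    ⟨[], [(0, 0), (1, 0), (1, 4)], [(0, 0)], [5, 6], [(1, 0, []), (5, 0, [])]⟩,
    ⟨[(0, 1), (1, 2)], [(0, 0), (0, 1), (1, 0), (1, 4), (2, 0)], [(0, 0)], [], [(0, 0, []),
      (1, 0, [])]⟩,
    ⟨[(1, 2), (1, 3)], [(0, 0), (0, 1), (1, 0), (1, 1), (1, 4), (3, 0)], [(0, 1)], [3],
      [(0, 0, []), (3, 1, [4])]⟩]
  Ta := [((0, 3), 0, 1), ((1, 2), 0, 2), ((1, 7), 0, 5), ((5, 4), 0, 4), ((5, 8), 0, 6)]
  Tb := [((1, 2, 7), 0, 2, 5), ((2, 1, 3), 2, 0, 1), ((3, 0, 2), 1, 0, 2), ((3, 0, 6), 1, 0, 3),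
    ((3, 2, 6), 1, 2, 3), ((4, 5, 6), 4, 0, 3), ((5, 4, 8), 0, 4, 6), ((6, 3, 4), 3, 1, 4),
    ((7, 1, 8), 5, 0, 6), ((8, 5, 7), 6, 0, 5)]
  Tc := []
  Td := [((1, 4), (3, 0), 0), ((1, 4), (3, 2), 2), ((1, 4), (3, 6), 3), ((4, 1), (4, 5), 0), ((4,
    1), (4, 6), 3)]
  G := [[0, 0x648482e42a842e2828c8ee4, 0, 0xc4c4c8e28, 0x448282e888842ec4c8c8ee8], [0, 0,
    0x121284e428848ec4c818ee4, 0xc8c294e24, 0x444282e428242ec41414ee8], [0, 0, 0,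
    0xc49898e24, 0x448282e128242ec41418ee8]]

noncomputable def n3623 : Ent := ⟨e3623, noF, [], [], [(12, 7, [19926558533506552591972921752102252692496414487018102785, 0])]⟩

def c3623 : PLift (Cov.check n3623.C.D v3623 = true) := ⟨by decide +kernel⟩

def b3623 : PLift (entF (fidx ts) 400 3623 n3623 = true) := ⟨by decide +kernel⟩

theorem g3623 : GoodF (fidx ts) 400 3623 := GoodF.ofV v3623 n3623 c3623.down b3623.down

/-- 58544:2720/3 -/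
noncomputable def e3624 : SCfg where
  D := {
    a := 5
    L := 9
    kp := 6
    inn := [(0, 3), (1, 2), (1, 3), (1, 4), (2, 1), (3, 0), (3, 1), (4, 1)]
    mix := [(0, 0), (0, 1), (0, 2), (0, 3), (1, 0), (1, 1), (1, 4), (1, 5), (1, 6), (2, 1), (2, 2), (2,
      5), (2, 7), (3, 0), (3, 1), (4, 0), (4, 6), (4, 8)]
    cl := [0, 0, 1, 5, 2, 0, 3, 6, 4]
    chq := [(2, 4), (4, 2)]
    rng := [(0, 3), (0, 8), (1, 2), (2, 1), (2, 3), (2, 7), (3, 0), (3, 2), (4, 5), (4, 6), (5, 4), (5,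
      7), (6, 4), (6, 8), (7, 2), (7, 5), (8, 0), (8, 6)]
    lev := [] }
  links := [[5, 3, 6, 7, 8], [9, 10, 2, 6, 3, 5, 4, 11], [7, 6, 1, 10, 12], [6, 0, 5, 1], [5, 13, 11, 1]]
  P := {
    a := 5
    N := 14
    nb := [488, 3708, 5314, 99, 10274, 8475, 143, 4421, 161, 3074, 4614, 8722, 1156, 2096]
    tri := [(0, 3, 5), (0, 3, 6), (0, 5, 8), (0, 6, 7), (0, 7, 8), (1, 2, 6), (1, 2, 10), (1, 3, 5),
      (1, 3, 6), (1, 4, 5), (1, 4, 11), (1, 9, 10), (1, 9, 11), (2, 6, 7), (2, 7, 12), (2, 10,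
      12), (4, 5, 13), (4, 11, 13)]
    fin := [0, 1, 0, 0, 1, 0, 0, 7, 8, 9, 0, 11, 12, 1]
    chd := [(9, 1)]
    steps := [(0, 3), (0, 5), (0, 6), (0, 2), (0, 10), (1, 4), (1, 13)] }
  rep := [0, 7, 9, 11, 1, 8, 12]

noncomputable def v3624 : Cov.CovD where
  P := 3
  N := 4
  pl := [2, 3, 6, 7]
  lev := [⟨[], [], [(0, 0)], [1, 5], [(0, 0, []), (1, 0, [])]⟩,
    ⟨[], [(0, 0)], [(0, 0), (0, 2)], [3], [(0, 0, []), (1, 0, []), (4, 2, [4]), (5, 0,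
      [])]⟩,
    ⟨[], [(0, 0), (1, 0), (1, 2)], [(0, 0)], [1, 6], [(1, 0, []), (5, 0, [])]⟩,
    ⟨[(0, 1), (1, 2)], [(0, 0), (1, 0), (1, 2), (2, 0)], [(0, 0)], [], [(0, 0, []), (1, 0,
      [])]⟩,
    ⟨[(1, 2), (1, 3)], [(0, 0), (1, 0), (1, 2), (1, 4), (3, 0)], [(0, 4)], [3], [(0, 0,
      []), (8, 4, [2])]⟩]
  Ta := [((0, 3), 0, 5), ((0, 8), 0, 4), ((1, 2), 0, 1), ((5, 4), 0, 2), ((5, 7), 0, 6)]
  Tb := [((0, 3, 8), 0, 5, 4), ((2, 1, 3), 1, 0, 5), ((2, 1, 7), 1, 0, 6), ((2, 3, 7), 1, 5, 6),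
    ((3, 0, 2), 5, 0, 1), ((4, 5, 6), 2, 0, 3), ((5, 4, 7), 0, 2, 6), ((6, 4, 8), 3, 2, 4),
    ((7, 2, 5), 6, 1, 0), ((8, 0, 6), 4, 0, 3)]
  Tc := []
  Td := [((2, 4), (4, 5), 0), ((2, 4), (4, 6), 3), ((4, 2), (8, 0), 0), ((4, 2), (8, 6), 3)]
  G := [[0, 0, 0, 0x22e2ce228cc64e4ca822ccc, 0x6462cc2c8ca44c2ce468cac], [0,
    0x228142c224184c222188ce, 0, 0x1422c2812cc1418c2822ccc, 0x4212c1848ca4214c1844cac], [0,
    0, 0x1214c1418cc1214c1812cac, 0x2422c1418cc1218c2228ccc, 0x4242c1818ca1244c4214cac]]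

noncomputable def n3624 : Ent := ⟨e3624, noF, [], [], [(13, 8, [18394062992640690949557788421104441214327234604889694209, 0])]⟩

def c3624 : PLift (Cov.check n3624.C.D v3624 = true) := ⟨by decide +kernel⟩

def b3624 : PLift (entF (fidx ts) 400 3624 n3624 = true) := ⟨by decide +kernel⟩

theorem g3624 : GoodF (fidx ts) 400 3624 := GoodF.ofV v3624 n3624 c3624.down b3624.down

/-- 58544:2720 -/
noncomputable def e3625 : SCfg where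
  D := {
    a := 5
    L := 10
    kp := 7
    inn := [(0, 3), (1, 2), (1, 3), (1, 4), (2, 1), (3, 0), (3, 1), (4, 1)]
    mix := [(0, 0), (0, 1), (0, 2), (0, 3), (1, 0), (1, 1), (1, 4), (1, 5), (1, 6), (2, 1), (2, 5), (2,
      7), (2, 8), (3, 0), (3, 1), (4, 0), (4, 6), (4, 9)]
    cl := [0, 0, 2, 5, 1, 0, 3, 6, 7, 4]
    chq := [(1, 4), (4, 1)]
    rng := [(0, 3), (0, 9), (1, 2), (1, 7), (2, 1), (2, 3), (3, 0), (3, 2), (4, 5), (4, 6), (5, 4), (5,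
      8), (6, 4), (6, 9), (7, 1), (7, 8), (8, 5), (8, 7), (9, 0), (9, 6)]
    lev := [] }
  links := [[5, 3, 6, 7, 8], [9, 10, 2, 6, 3, 5, 4, 11], [12, 6, 1, 10, 13], [6, 0, 5, 1], [5, 14, 11,
    1]]
  P := {
    a := 5
    N := 15
    nb := [488, 3708, 13378, 99, 18466, 16667, 4239, 321, 161, 3074, 8710, 16914, 8260, 5124, 2096]
    tri := [(0, 3, 5), (0, 3, 6), (0, 5, 8), (0, 6, 7), (0, 7, 8), (1, 2, 6), (1, 2, 10), (1, 3, 5),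
      (1, 3, 6), (1, 4, 5), (1, 4, 11), (1, 9, 10), (1, 9, 11), (2, 6, 12), (2, 10, 13), (2, 12,
      13), (4, 5, 14), (4, 11, 14)]
    fin := [0, 1, 0, 0, 1, 0, 0, 7, 8, 9, 0, 11, 12, 13, 1]
    chd := [(9, 1)]
    steps := [(0, 3), (0, 5), (0, 6), (0, 2), (0, 10), (1, 4), (1, 14)] }
  rep := [0, 9, 7, 11, 1, 8, 12, 13]

noncomputable def v3625 : Cov.CovD where
  P := 3
  N := 5
  pl := [2, 3, 6, 7, 8]
  lev := [⟨[], [], [(0, 0)], [2, 5], [(0, 0, []), (1, 0, [])]⟩,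
    ⟨[], [(0, 0)], [(0, 0), (0, 1)], [3], [(0, 0, []), (1, 0, []), (4, 1, [4]), (5, 0,
      [])]⟩,
    ⟨[], [(0, 0), (1, 0), (1, 1)], [(0, 0)], [6, 7], [(1, 0, []), (5, 0, [])]⟩,
    ⟨[(0, 1), (1, 2)], [(0, 0), (1, 0), (1, 1), (2, 0)], [(0, 0)], [], [(0, 0, []), (1, 0,
      [])]⟩,
    ⟨[(1, 2), (1, 3)], [(0, 0), (1, 0), (1, 1), (1, 4), (3, 0)], [(0, 4)], [3], [(0, 0,
      []), (9, 4, [1])]⟩]
  Ta := [((0, 3), 0, 5), ((0, 9), 0, 4), ((1, 2), 0, 2), ((1, 7), 0, 6), ((5, 4), 0, 1), ((5, 8),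
    0, 7)]
  Tb := [((0, 3, 9), 0, 5, 4), ((1, 2, 7), 0, 2, 6), ((2, 1, 3), 2, 0, 5), ((3, 0, 2), 5, 0, 2),
    ((4, 5, 6), 1, 0, 3), ((5, 4, 8), 0, 1, 7), ((6, 4, 9), 3, 1, 4), ((7, 1, 8), 6, 0, 7),
    ((8, 5, 7), 7, 0, 6), ((9, 0, 6), 4, 0, 3)]
  Tc := []
  Td := [((1, 4), (4, 5), 0), ((1, 4), (4, 6), 3), ((4, 1), (9, 0), 0), ((4, 1), (9, 6), 3)]
  G := [[0, 0, 0, 0x64e2e2ea22224ec24e224ee828e8ecc, 0x24e2e2ee82224ec22e2a4ee82862eca], [0, 0,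
    0x241424e122818ec141824e282214ec6, 0x221222e182218ec241822e182818ecc,
    0x242414e141222ec241418e122822eca], [0, 0x141412e141418ea141814e181212ecc, 0,
    0x222214e141822ec222414e121828ecc, 0x122422e241818ec241218e122822eca]]

noncomputable def n3625 : Ent := ⟨e3625, noF, [], [], [(14, 8, [81620716623019490626259338160855783265958941731545646526465, 0]), (12, 7, [87899350853947037246293024846659432078125472636983518068737, 0])]⟩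

def c3625 : PLift (Cov.check n3625.C.D v3625 = true) := ⟨by decide +kernel⟩

def b3625 : PLift (entF (fidx ts) 400 3625 n3625 = true) := ⟨by decide +kernel⟩

theorem g3625 : GoodF (fidx ts) 400 3625 := GoodF.ofV v3625 n3625 c3625.down b3625.down

/-- 9576444:2721 -/
noncomputable def e3626 : SCfg where
  D := {
    a := 7
    L := 11
    kp := 9
    inn := [(0, 1), (0, 2), (0, 3), (0, 4), (0, 5), (1, 0), (1, 4), (2, 0), (2, 3), (2, 5), (2, 6), (3,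
      0), (3, 2), (3, 6), (4, 0), (4, 1), (5, 0), (5, 2), (6, 2), (6, 3)]
    mix := [(0, 0), (0, 1), (0, 2), (0, 3), (1, 3), (1, 4), (1, 5), (2, 6), (2, 7), (2, 8), (3, 2), (3,
      9), (3, 10), (4, 0), (4, 4), (5, 1), (5, 6), (6, 8), (6, 9)]
    cl := [1, 0, 0, 2, 4, 7, 5, 8, 3, 6, 9]
    chq := [(0, 3), (0, 4), (0, 7), (0, 8), (3, 0), (3, 9), (4, 0), (7, 0), (8, 0), (9, 3)]
    rng := [(0, 1), (0, 4), (1, 0), (1, 6), (2, 3), (2, 10), (3, 2), (3, 5), (4, 0), (4, 5), (5, 3),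
      (5, 4), (6, 1), (6, 7), (7, 6), (7, 8), (8, 7), (8, 9), (9, 8), (9, 10), (10, 2), (10, 9)]
    lev := [] }
  links := [[1, 4, 7, 8, 5, 2, 3, 9, 10], [11, 4, 0, 10, 12], [3, 0, 5, 13, 14, 15, 6], [9, 0, 2, 6, 16,
    17], [0, 1, 11, 7], [0, 8, 13, 2], [2, 15, 16, 3]]
  P := {
    a := 7
    N := 18
    nb := [1982, 7185, 57449, 197189, 2179, 8453, 98316, 2321, 8353, 132105, 4611, 4242, 3074, 16676,
      40964, 81988, 163912, 66056]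
    tri := [(0, 1, 4), (0, 1, 10), (0, 2, 3), (0, 2, 5), (0, 3, 9), (0, 4, 7), (0, 5, 8), (0, 7, 8),
      (0, 9, 10), (1, 4, 11), (1, 10, 12), (1, 11, 12), (2, 3, 6), (2, 5, 13), (2, 6, 15), (2, 13,
      14), (2, 14, 15), (3, 6, 16), (3, 9, 17), (3, 16, 17), (4, 7, 11), (5, 8, 13), (6, 15, 16)]
    fin := [0, 0, 0, 3, 4, 0, 3, 4, 0, 0, 10, 11, 12, 13, 14, 3, 16, 17]
    chd := [(0, 3), (0, 11), (0, 12), (0, 14), (3, 17)]
    steps := [(0, 1), (0, 2), (0, 5), (0, 8), (0, 9), (3, 6), (3, 15), (4, 7)] }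
  rep := [0, 4, 10, 3, 11, 13, 16, 12, 14, 17]

noncomputable def v3626 : Cov.CovD where
  P := 3
  N := 7
  pl := [0, 3, 6, 9]
  lev := [⟨[], [], [(0, 0)], [1, 2], [(1, 0, [3, 4, 7, 8]), (2, 0, [3, 4, 7, 8])]⟩,
    ⟨[], [(0, 0), (0, 4), (0, 7)], [(4, 7)], [2], [(4, 4, [0]), (5, 7, [0])]⟩,
    ⟨[(0, 1)], [(0, 0), (0, 3), (0, 8)], [(3, 8)], [5], [(7, 8, [0]), (8, 3, [0, 9])]⟩,
    ⟨[(0, 1), (0, 2)], [(0, 0), (0, 9), (2, 0), (2, 3), (2, 8), (2, 9)], [(0, 9)], [6],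
      [(2, 0, [3, 4, 7, 8]), (10, 9, [3])]⟩,
    ⟨[(0, 1), (0, 2), (0, 3)], [(0, 0), (0, 4), (1, 4), (1, 7)], [], [1], [(4, 4, [0])]⟩,
    ⟨[(0, 1), (0, 2), (0, 3), (0, 4), (2, 3)], [(0, 0), (2, 0), (2, 3), (2, 8)], [], [5],
      [(1, 0, [3, 4, 7, 8])]⟩,
    ⟨[(0, 2), (0, 3), (2, 3), (2, 5)], [(2, 3), (2, 8), (3, 0), (3, 3), (3, 9)], [], [6],
      [(8, 3, [0, 9])]⟩]
  Ta := [((1, 0), 0, 1), ((1, 6), 0, 5), ((2, 3), 0, 2), ((2, 10), 0, 9)]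
  Tb := [((0, 1, 4), 1, 0, 4), ((1, 0, 6), 0, 1, 5), ((2, 3, 10), 0, 2, 9), ((3, 2, 5), 2, 0, 7),
    ((4, 0, 5), 4, 1, 7), ((5, 3, 4), 7, 2, 4), ((6, 1, 7), 5, 0, 8), ((7, 6, 8), 8, 5, 3),
    ((8, 7, 9), 3, 8, 6), ((9, 8, 10), 6, 3, 9), ((10, 2, 9), 9, 0, 6)]
  Tc := [(0, 3, 4), (0, 3, 7), (0, 3, 8), (0, 4, 7), (0, 4, 8), (0, 7, 8), (3, 0, 9)]
  Td := [((0, 3), (1, 0), 1), ((0, 3), (1, 6), 5), ((0, 3), (2, 3), 2), ((0, 3), (2, 10), 9),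
    ((0, 4), (1, 0), 1), ((0, 4), (1, 6), 5), ((0, 4), (2, 3), 2), ((0, 4), (2, 10), 9), ((0,
    7), (1, 0), 1), ((0, 7), (1, 6), 5), ((0, 7), (2, 3), 2), ((0, 7), (2, 10), 9), ((0, 8),
    (1, 0), 1), ((0, 8), (1, 6), 5), ((0, 8), (2, 3), 2), ((0, 8), (2, 10), 9), ((3, 0), (8,
    7), 8), ((3, 0), (8, 9), 6), ((3, 9), (8, 7), 8), ((3, 9), (8, 9), 6), ((4, 0), (4, 0),
    1), ((4, 0), (4, 5), 7), ((7, 0), (5, 3), 2), ((7, 0), (5, 4), 4), ((8, 0), (7, 6), 5),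
    ((8, 0), (7, 8), 3), ((9, 3), (10, 2), 0), ((9, 3), (10, 9), 6)]
  G := [[0, 0x6361666a49892e545812ee118, 0,
    0x281a416217521921141e644a16a1688d1c6c1ace71221481841761cd2c891c,
    0x5161813215416417221841481b241821681d1163665936aacccc61cacef38], [0, 0,
    0x13c141453c191a1c168e113a159a1a1316131a15c61e1ec, 0x616625aa6aacc1c6c1ac4de1161c8811c,
    0x316181616666513631ca86dcc6ccace138]]

noncomputable def n3626 : Ent := ⟨e3626, noF, [], [], []⟩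

def c3626 : PLift (Cov.check n3626.C.D v3626 = true) := ⟨by decide +kernel⟩

def b3626 : PLift (entF (fidx ts) 400 3626 n3626 = true) := ⟨by decide +kernel⟩

theorem g3626 : GoodF (fidx ts) 400 3626 := GoodF.ofV v3626 n3626 c3626.down b3626.down

/-- 676444:2722/2 -/
noncomputable def e3627 : SCfg where
  D := {
    a := 6
    L := 9
    kp := 6
    inn := [(0, 1), (0, 4), (1, 0), (1, 3), (2, 3), (2, 5), (3, 1), (3, 2), (4, 0), (5, 2)]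
    mix := [(0, 0), (0, 1), (0, 2), (0, 3), (1, 0), (1, 3), (1, 4), (1, 5), (1, 6), (2, 0), (2, 4), (2,
      7), (2, 8), (3, 0), (3, 4), (4, 0), (4, 1), (4, 7), (5, 4), (5, 6), (5, 8)]
    cl := [0, 3, 5, 0, 0, 6, 2, 1, 4]
    chq := [(1, 2), (1, 5), (2, 1), (5, 1)]
    rng := [(0, 7), (1, 2), (1, 7), (2, 1), (2, 3), (3, 2), (3, 5), (4, 6), (5, 3), (5, 6), (6, 4), (6,
      5), (6, 8), (7, 0), (7, 1), (7, 8), (8, 6), (8, 7)]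
    lev := [] }
  links := [[1, 6, 4, 7, 8, 9], [10, 3, 6, 0, 9, 11, 12], [13, 6, 3, 10, 5, 14], [6, 1, 10, 2], [6, 13,
    7, 0], [2, 10, 12, 14]]
  P := {
    a := 6
    N := 15
    nb := [978, 7753, 25704, 1094, 8385, 21508, 8223, 8465, 641, 2307, 4142, 4610, 19490, 16596,
      12324]
    tri := [(0, 1, 6), (0, 1, 9), (0, 4, 6), (0, 4, 7), (0, 7, 8), (0, 8, 9), (1, 3, 6), (1, 3, 10),
      (1, 9, 11), (1, 10, 12), (1, 11, 12), (2, 3, 6), (2, 3, 10), (2, 5, 10), (2, 5, 14), (2, 6,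
      13), (2, 13, 14), (4, 6, 13), (4, 7, 13), (5, 10, 12), (5, 12, 14)]
    fin := [0, 1, 0, 1, 0, 0, 1, 7, 8, 1, 1, 11, 12, 0, 14]
    chd := [(8, 0), (12, 0)]
    steps := [(0, 4), (0, 13), (0, 2), (0, 5), (1, 6), (1, 3), (1, 9), (1, 10)] }
  rep := [1, 0, 12, 7, 14, 8, 11]

noncomputable def v3627 : Cov.CovD where
  P := 3
  N := 4
  pl := [1, 5, 8]
  lev := [⟨[], [], [(0, 0), (0, 5)], [3], [(0, 0, []), (2, 5, [1]), (3, 0, [])]⟩,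
    ⟨[], [(0, 0), (0, 2), (0, 5)], [(0, 0), (0, 2)], [6], [(0, 0, []), (3, 0, []), (4, 0,
      []), (6, 2, [1])]⟩,
    ⟨[], [(0, 0), (1, 0)], [(0, 0), (0, 1)], [4], [(0, 0, []), (4, 0, []), (7, 1, [2, 5])]⟩,
    ⟨[(0, 1), (1, 2)], [(0, 0), (1, 0), (1, 2), (2, 0), (2, 1)], [(0, 0)], [], [(0, 0, []),
      (4, 0, [])]⟩,
    ⟨[(0, 1)], [(0, 0), (0, 1), (0, 5), (1, 0), (2, 0), (2, 1), (3, 0)], [(0, 1)], [3],
      [(0, 0, []), (7, 1, [2, 5])]⟩,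
    ⟨[(2, 3)], [(1, 0), (1, 2), (2, 0), (2, 1), (2, 2), (3, 0)], [(0, 2)], [4], [(4, 0,
      []), (6, 2, [1])]⟩]
  Ta := [((0, 7), 0, 1), ((3, 2), 0, 5), ((3, 5), 0, 6), ((4, 6), 0, 2)]
  Tb := [((1, 2, 7), 3, 5, 1), ((2, 1, 3), 5, 3, 0), ((3, 2, 5), 0, 5, 6), ((5, 3, 6), 6, 0, 2),
    ((6, 4, 5), 2, 0, 6), ((6, 4, 8), 2, 0, 4), ((6, 5, 8), 2, 6, 4), ((7, 0, 1), 1, 0, 3),
    ((7, 0, 8), 1, 0, 4), ((7, 1, 8), 1, 3, 4), ((8, 6, 7), 4, 2, 1)]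
  Tc := [(1, 2, 5)]
  Td := [((1, 2), (7, 0), 0), ((1, 2), (7, 1), 3), ((1, 2), (7, 8), 4), ((1, 5), (7, 0), 0), ((1,
    5), (7, 1), 3), ((1, 5), (7, 8), 4), ((2, 1), (6, 4), 0), ((2, 1), (6, 5), 6), ((2, 1),
    (6, 8), 4), ((5, 1), (2, 1), 3), ((5, 1), (2, 3), 0)]
  G := [[0, 0x486281626188182ac142144a88a214a2cc122122c8221226ce, 0, 0xc9c4255c42c2,
    0x242242c182284ca144244c842248ca88c211c8c88c411c4cae], [0, 0, 0, 0x59c4222c82492cc2,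
    0x144244c884184ca842288c844244ca114214c814214cae], [0, 0,
    0x244244c882288ca282418c842244c6814412c8144492cce, 0xccc428844c58ac2,
    0x844242c288282ca884242c244248ca812212c814a2c8cae]]

noncomputable def n3627 : Ent := ⟨e3627, noF, [], [], []⟩

def c3627 : PLift (Cov.check n3627.C.D v3627 = true) := ⟨by decide +kernel⟩

def b3627 : PLift (entF (fidx ts) 400 3627 n3627 = true) := ⟨by decide +kernel⟩

theorem g3627 : GoodF (fidx ts) 400 3627 := GoodF.ofV v3627 n3627 c3627.down b3627.down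

/-- 676444:2722/1 -/
noncomputable def e3628 : SCfg where
  D := {
    a := 6
    L := 10
    kp := 7
    inn := [(0, 1), (0, 4), (1, 0), (1, 3), (2, 3), (2, 5), (3, 1), (3, 2), (4, 0), (5, 2)]
    mix := [(0, 0), (0, 1), (0, 2), (0, 3), (1, 0), (1, 3), (1, 4), (1, 5), (1, 6), (2, 0), (2, 4), (2,
      7), (2, 8), (3, 0), (3, 4), (4, 0), (4, 1), (4, 7), (5, 4), (5, 8), (5, 9)]
    cl := [0, 1, 2, 0, 0, 6, 7, 3, 4, 5]
    chq := [(2, 3), (3, 2), (3, 5), (5, 3)]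
    rng := [(0, 7), (1, 2), (1, 7), (2, 1), (2, 3), (3, 2), (3, 5), (4, 6), (4, 9), (5, 3), (5, 6), (6,
      4), (6, 5), (7, 0), (7, 1), (7, 8), (8, 7), (8, 9), (9, 4), (9, 8)]
    lev := [] }
  links := [[1, 6, 4, 7, 8, 9], [10, 3, 6, 0, 9, 11, 12], [13, 6, 3, 10, 5, 14], [6, 1, 10, 2], [6, 13,
    7, 0], [2, 10, 15, 14]]
  P := {
    a := 6
    N := 16
    nb := [978, 7753, 25704, 1094, 8385, 50180, 8223, 8465, 641, 2307, 36910, 4610, 3074, 16596,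
      40996, 17440]
    tri := [(0, 1, 6), (0, 1, 9), (0, 4, 6), (0, 4, 7), (0, 7, 8), (0, 8, 9), (1, 3, 6), (1, 3, 10),
      (1, 9, 11), (1, 10, 12), (1, 11, 12), (2, 3, 6), (2, 3, 10), (2, 5, 10), (2, 5, 14), (2, 6,
      13), (2, 13, 14), (4, 6, 13), (4, 7, 13), (5, 10, 15), (5, 14, 15)]
    fin := [0, 1, 0, 1, 0, 0, 1, 7, 8, 1, 1, 11, 12, 0, 14, 15]
    chd := [(0, 15), (8, 0)]
    steps := [(0, 4), (0, 13), (0, 2), (0, 5), (1, 6), (1, 3), (1, 9), (1, 10)] }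
  rep := [1, 7, 8, 0, 14, 15, 11, 12]

noncomputable def v3628 : Cov.CovD where
  P := 3
  N := 5
  pl := [1, 5, 6, 8]
  lev := [⟨[], [], [(0, 0), (0, 2)], [1], [(0, 0, []), (2, 2, [3]), (3, 0, [])]⟩,
    ⟨[], [(0, 0), (0, 2)], [(0, 0)], [6, 7], [(0, 0, []), (3, 0, []), (4, 0, [])]⟩,
    ⟨[], [(0, 0), (1, 0)], [(0, 0), (0, 3)], [4], [(0, 0, []), (4, 0, []), (7, 3, [2, 5])]⟩,
    ⟨[(0, 1), (1, 2)], [(0, 0), (1, 0), (2, 0), (2, 3)], [(0, 0)], [], [(0, 0, []), (4, 0,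
      [])]⟩,
    ⟨[(0, 1)], [(0, 0), (0, 2), (0, 3), (1, 0), (2, 0), (2, 3), (3, 0)], [(0, 3)], [1],
      [(0, 0, []), (7, 3, [2, 5])]⟩,
    ⟨[(2, 3)], [(1, 0), (2, 0), (2, 3), (2, 5), (3, 0)], [(0, 5)], [4], [(4, 0, []), (9, 5,
      [3])]⟩]
  Ta := [((0, 7), 0, 3), ((3, 2), 0, 2), ((3, 5), 0, 6), ((4, 6), 0, 7), ((4, 9), 0, 5)]
  Tb := [((1, 2, 7), 1, 2, 3), ((2, 1, 3), 2, 1, 0), ((3, 2, 5), 0, 2, 6), ((4, 6, 9), 0, 7, 5),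
    ((5, 3, 6), 6, 0, 7), ((6, 4, 5), 7, 0, 6), ((7, 0, 1), 3, 0, 1), ((7, 0, 8), 3, 0, 4),
    ((7, 1, 8), 3, 1, 4), ((8, 7, 9), 4, 3, 5), ((9, 4, 8), 5, 0, 4)]
  Tc := [(3, 2, 5)]
  Td := [((2, 3), (2, 1), 1), ((2, 3), (2, 3), 0), ((3, 2), (7, 0), 0), ((3, 2), (7, 1), 1), ((3,
    2), (7, 8), 4), ((3, 5), (7, 0), 0), ((3, 5), (7, 1), 1), ((3, 5), (7, 8), 4), ((5, 3),
    (9, 4), 0), ((5, 3), (9, 8), 4)]
  G := [[0, 0x42282811a8e622928128e92212448a4ee4, 0, 0x18284241c2e18884841c8e618414848c8e8c,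
    0x144a42542e542942144e144348b44ee8], [0, 0x4248241164e124a22524e522322924ee8,
    0x112a18514e512a18112e512918118ee4, 0x182818b18e118812518e414812118ee4,
    0x214112814e288112842e214918144ee8], [0, 0x624a22c24e622a28c24e624a22c24ee8, 0,
    0x484818e18e412818e18e418812e14ee4, 0x614a14c42e644a18c18e612a12c48ee8]]

noncomputable def n3628 : Ent := ⟨e3628, noF, [], [], [(12, 15, [360035742630636841211993100915356868655746945586763691022528513, 0])]⟩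

def c3628 : PLift (Cov.check n3628.C.D v3628 = true) := ⟨by decide +kernel⟩

def b3628 : PLift (entF (fidx ts) 400 3628 n3628 = true) := ⟨by decide +kernel⟩

theorem g3628 : GoodF (fidx ts) 400 3628 := GoodF.ofV v3628 n3628 c3628.down b3628.down

/-- 676444:2722/3 -/
noncomputable def e3629 : SCfg where
  D := {
    a := 6
    L := 10
    kp := 7
    inn := [(0, 1), (0, 4), (1, 0), (1, 3), (2, 3), (2, 5), (3, 1), (3, 2), (4, 0), (5, 2)]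
    mix := [(0, 0), (0, 1), (0, 2), (0, 3), (1, 0), (1, 3), (1, 4), (1, 5), (1, 6), (2, 0), (2, 4), (2,
      7), (2, 8), (3, 0), (3, 4), (4, 0), (4, 1), (4, 9), (5, 4), (5, 6), (5, 8)]
    cl := [0, 1, 2, 0, 0, 7, 3, 5, 4, 6]
    chq := [(2, 6), (3, 5), (5, 3), (6, 2)]
    rng := [(0, 7), (0, 9), (1, 2), (1, 9), (2, 1), (2, 3), (3, 2), (3, 5), (4, 6), (5, 3), (5, 6), (6,
      4), (6, 5), (6, 8), (7, 0), (7, 8), (8, 6), (8, 7), (9, 0), (9, 1)]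
    lev := [] }
  links := [[1, 6, 4, 7, 8, 9], [10, 3, 6, 0, 9, 11, 12], [13, 6, 3, 10, 5, 14], [6, 1, 10, 2], [6, 15,
    7, 0], [2, 10, 12, 14]]
  P := {
    a := 6
    N := 16
    nb := [978, 7753, 25704, 1094, 32961, 21508, 40991, 33041, 641, 2307, 4142, 4610, 19490, 16452,
      12324, 208]
    tri := [(0, 1, 6), (0, 1, 9), (0, 4, 6), (0, 4, 7), (0, 7, 8), (0, 8, 9), (1, 3, 6), (1, 3, 10),
      (1, 9, 11), (1, 10, 12), (1, 11, 12), (2, 3, 6), (2, 3, 10), (2, 5, 10), (2, 5, 14), (2, 6,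
      13), (2, 13, 14), (4, 6, 15), (4, 7, 15), (5, 10, 12), (5, 12, 14)]
    fin := [0, 1, 2, 1, 0, 2, 1, 7, 8, 1, 1, 11, 2, 13, 14, 0]
    chd := [(2, 13), (8, 0)]
    steps := [(0, 4), (0, 15), (1, 3), (1, 6), (1, 9), (1, 10), (2, 5), (2, 12)] }
  rep := [1, 7, 8, 2, 14, 13, 0, 11]

noncomputable def v3629 : Cov.CovD where
  P := 3
  N := 5
  pl := [1, 5, 8]
  lev := [⟨[], [], [(0, 0), (0, 2)], [1], [(0, 0, []), (2, 2, [6]), (3, 0, [])]⟩,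
    ⟨[], [(0, 0), (0, 2), (0, 3)], [(0, 0), (0, 3)], [7], [(0, 0, []), (3, 0, []), (4, 0,
      []), (6, 3, [5])]⟩,
    ⟨[], [(0, 0), (1, 0)], [(0, 0), (0, 5)], [4], [(0, 0, []), (4, 0, []), (7, 5, [3])]⟩,
    ⟨[(0, 1), (1, 2)], [(0, 0), (1, 0), (1, 3), (2, 0), (2, 5)], [(0, 0)], [], [(0, 0, []),
      (4, 0, [])]⟩,
    ⟨[(0, 1)], [(0, 0), (0, 2), (0, 6), (1, 0), (2, 0), (3, 0)], [(0, 6)], [1], [(0, 0,
      []), (9, 6, [2])]⟩,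
    ⟨[(2, 3)], [(1, 0), (1, 3), (2, 0), (2, 3), (2, 5), (3, 0)], [(0, 3)], [4], [(4, 0,
      []), (6, 3, [5])]⟩]
  Ta := [((0, 7), 0, 5), ((0, 9), 0, 6), ((3, 2), 0, 2), ((3, 5), 0, 7), ((4, 6), 0, 3)]
  Tb := [((0, 7, 9), 0, 5, 6), ((1, 2, 9), 1, 2, 6), ((2, 1, 3), 2, 1, 0), ((3, 2, 5), 0, 2, 7),
    ((5, 3, 6), 7, 0, 3), ((6, 4, 5), 3, 0, 7), ((6, 4, 8), 3, 0, 4), ((6, 5, 8), 3, 7, 4),
    ((7, 0, 8), 5, 0, 4), ((8, 6, 7), 4, 3, 5), ((9, 0, 1), 6, 0, 1)]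
  Tc := []
  Td := [((2, 6), (2, 1), 1), ((2, 6), (2, 3), 0), ((3, 5), (6, 4), 0), ((3, 5), (6, 5), 7), ((3,
    5), (6, 8), 4), ((5, 3), (7, 0), 0), ((5, 3), (7, 8), 4), ((6, 2), (9, 0), 0), ((6, 2),
    (9, 1), 1)]
  G := [[0, 0x822922124e524428128e324122224ee8, 0, 0x56c244c211c8e488c411c29cc4e33c411c222c4eac,
    0x842142942e542442144e142344248ee8], [0, 0x824a24122e322422928e122324224ee8,
    0x812a12114e112418514e114a14218ee8, 0x812912114e512418112e118318214ee8,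
    0x814112944e112418548e112318214ee8], [0, 0x822a22c24e622422c28e628a28228ee4, 0,
    0x814a12c14e614418c18e618a18214ee8, 0x814a14c44e618448c18e644a44248ee8]]

noncomputable def n3629 : Ent := ⟨e3629, noF, [], [], [(15, 13, [360048296834107614573520772494203283988579150297652619091554305, 0])]⟩

def c3629 : PLift (Cov.check n3629.C.D v3629 = true) := ⟨by decide +kernel⟩

def b3629 : PLift (entF (fidx ts) 400 3629 n3629 = true) := ⟨by decide +kernel⟩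

theorem g3629 : GoodF (fidx ts) 400 3629 := GoodF.ofV v3629 n3629 c3629.down b3629.down

/-- 676444:2722 -/
noncomputable def e3630 : SCfg where
  D := {
    a := 6
    L := 11
    kp := 8
    inn := [(0, 1), (0, 4), (1, 0), (1, 3), (2, 3), (2, 5), (3, 1), (3, 2), (4, 0), (5, 2)]
    mix := [(0, 0), (0, 1), (0, 2), (0, 3), (1, 0), (1, 3), (1, 4), (1, 5), (1, 6), (2, 0), (2, 4), (2,
      7), (2, 8), (3, 0), (3, 4), (4, 0), (4, 1), (4, 9), (5, 4), (5, 8), (5, 10)]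
    cl := [0, 1, 2, 0, 0, 7, 8, 4, 3, 5, 6]
    chq := [(2, 5), (4, 6), (5, 2), (6, 4)]
    rng := [(0, 7), (0, 9), (1, 2), (1, 9), (2, 1), (2, 3), (3, 2), (3, 5), (4, 6), (4, 10), (5, 3),
      (5, 6), (6, 4), (6, 5), (7, 0), (7, 8), (8, 7), (8, 10), (9, 0), (9, 1), (10, 4), (10, 8)]
    lev := [] }
  links := [[1, 6, 4, 7, 8, 9], [10, 3, 6, 0, 9, 11, 12], [13, 6, 3, 10, 5, 14], [6, 1, 10, 2], [6, 15,
    7, 0], [2, 10, 16, 14]]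
  P := {
    a := 6
    N := 17
    nb := [978, 7753, 25704, 1094, 32961, 82948, 40991, 33041, 641, 2307, 69678, 4610, 3074, 16452,
      73764, 208, 17440]
    tri := [(0, 1, 6), (0, 1, 9), (0, 4, 6), (0, 4, 7), (0, 7, 8), (0, 8, 9), (1, 3, 6), (1, 3, 10),
      (1, 9, 11), (1, 10, 12), (1, 11, 12), (2, 3, 6), (2, 3, 10), (2, 5, 10), (2, 5, 14), (2, 6,
      13), (2, 13, 14), (4, 6, 15), (4, 7, 15), (5, 10, 16), (5, 14, 16)]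
    fin := [0, 1, 2, 1, 0, 2, 1, 7, 8, 1, 1, 11, 12, 13, 14, 0, 2]
    chd := [(8, 0), (13, 2)]
    steps := [(0, 4), (0, 15), (1, 3), (1, 6), (1, 9), (1, 10), (2, 5), (2, 16)] }
  rep := [1, 7, 8, 14, 13, 0, 2, 11, 12]

noncomputable def v3630 : Cov.CovD where
  P := 3
  N := 6
  pl := [1, 5, 6, 8]
  lev := [⟨[], [], [(0, 0), (0, 2)], [1], [(0, 0, []), (2, 2, [5]), (3, 0, [])]⟩,
    ⟨[], [(0, 0), (0, 2)], [(0, 0)], [7, 8], [(0, 0, []), (3, 0, []), (4, 0, [])]⟩,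
    ⟨[], [(0, 0), (1, 0)], [(0, 0), (0, 4)], [3], [(0, 0, []), (4, 0, []), (7, 4, [6])]⟩,
    ⟨[(0, 1), (1, 2)], [(0, 0), (1, 0), (2, 0), (2, 4)], [(0, 0)], [], [(0, 0, []), (4, 0,
      [])]⟩,
    ⟨[(0, 1)], [(0, 0), (0, 2), (0, 5), (1, 0), (2, 0), (3, 0)], [(0, 5)], [1], [(0, 0,
      []), (9, 5, [2])]⟩,
    ⟨[(2, 3)], [(1, 0), (2, 0), (2, 4), (2, 6), (3, 0)], [(0, 6)], [3], [(4, 0, []), (10,
      6, [4])]⟩]
  Ta := [((0, 7), 0, 4), ((0, 9), 0, 5), ((3, 2), 0, 2), ((3, 5), 0, 7), ((4, 6), 0, 8), ((4,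
    10), 0, 6)]
  Tb := [((0, 7, 9), 0, 4, 5), ((1, 2, 9), 1, 2, 5), ((2, 1, 3), 2, 1, 0), ((3, 2, 5), 0, 2, 7),
    ((4, 6, 10), 0, 8, 6), ((5, 3, 6), 7, 0, 8), ((6, 4, 5), 8, 0, 7), ((7, 0, 8), 4, 0, 3),
    ((8, 7, 10), 3, 4, 6), ((9, 0, 1), 5, 0, 1), ((10, 4, 8), 6, 0, 3)]
  Tc := []
  Td := [((2, 5), (2, 1), 1), ((2, 5), (2, 3), 0), ((4, 6), (7, 0), 0), ((4, 6), (7, 8), 3), ((5,
    2), (9, 0), 0), ((5, 2), (9, 1), 1), ((6, 4), (10, 4), 0), ((6, 4), (10, 8), 3)]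
  G := [[0, 0x122324c28e622328528e122328524ee4, 0, 0x13c431c8c9c8e456c4a9c811c4e63c411c89cc4eac,
    0x644144944e544942142e544942148ee8], [0, 0x524922124e628122924e124a28524ee8,
    0x312114714e612912114e114a18514ee8, 0x114312512e512312914e312118c18ee8,
    0x542942114e544918114e612948148ee8], [0, 0x622a22c24e622a22c28e624a28c28ee8, 0,
    0x612a14c18e612a18c18e614a18c18ee4, 0x644a12c14e614a18c48e642a42c48ee8]]

noncomputable def n3630 : Ent := ⟨e3630, noF, [], [], [(15, 13, [1685356714993749094781261963711221120386310105559083432688083976193, 0]), (12, 16, [1580044410770988437309982408355971841652082177953823432505703976961, 0])]⟩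

def c3630 : PLift (Cov.check n3630.C.D v3630 = true) := ⟨by decide +kernel⟩

def b3630 : PLift (entF (fidx ts) 400 3630 n3630 = true) := ⟨by decide +kernel⟩

theorem g3630 : GoodF (fidx ts) 400 3630 := GoodF.ofV v3630 n3630 c3630.down b3630.down

/-- 67544:2723/2 -/
noncomputable def e3631 : SCfg where
  D := {
    a := 5
    L := 8
    kp := 5
    inn := [(0, 3), (0, 4), (1, 2), (1, 3), (2, 1), (3, 0), (3, 1), (4, 0)]
    mix := [(0, 0), (0, 1), (0, 2), (0, 3), (1, 0), (1, 1), (1, 4), (1, 5), (1, 6), (2, 1), (2, 2), (2,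
      5), (2, 7), (3, 0), (3, 1), (4, 0), (4, 3), (4, 6)]
    cl := [0, 0, 3, 4, 2, 0, 1, 5]
    chq := [(1, 3), (3, 1)]
    rng := [(0, 6), (1, 2), (2, 1), (2, 3), (2, 7), (3, 2), (3, 6), (4, 5), (4, 6), (5, 4), (5, 7), (6,
      0), (6, 3), (6, 4), (7, 2), (7, 5)]
    lev := [] }
  links := [[5, 3, 6, 7, 8, 4], [9, 10, 2, 6, 3, 5, 11], [12, 7, 6, 1, 10], [6, 0, 5, 1], [0, 8, 11, 5]]
  P := {
    a := 5
    N := 13
    nb := [504, 3692, 5314, 99, 2337, 2075, 143, 4421, 2193, 3074, 4614, 818, 1156]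
    tri := [(0, 3, 5), (0, 3, 6), (0, 4, 5), (0, 4, 8), (0, 6, 7), (0, 7, 8), (1, 2, 6), (1, 2, 10),
      (1, 3, 5), (1, 3, 6), (1, 5, 11), (1, 9, 10), (1, 9, 11), (2, 6, 7), (2, 7, 12), (2, 10,
      12), (4, 5, 11), (4, 8, 11)]
    fin := [0, 1, 1, 1, 0, 1, 1, 7, 8, 9, 1, 0, 12]
    chd := [(7, 0)]
    steps := [(0, 4), (0, 11), (1, 2), (1, 5), (1, 3), (1, 10), (1, 6)] }
  rep := [1, 0, 9, 7, 8, 12]

noncomputable def v3631 : Cov.CovD where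
  P := 3
  N := 3
  pl := [3, 4, 7]
  lev := [⟨[], [], [(0, 0), (0, 3)], [4], [(0, 0, []), (1, 0, []), (2, 3, [1])]⟩,
    ⟨[], [(0, 0)], [(0, 0), (0, 1)], [2], [(0, 0, []), (1, 0, []), (5, 0, []), (6, 1,
      [3])]⟩,
    ⟨[], [(0, 0), (0, 3), (1, 0), (1, 1), (1, 3)], [(0, 0), (0, 3)], [5], [(1, 0, []), (2,
      3, [1]), (5, 0, [])]⟩,
    ⟨[(0, 1), (1, 2)], [(0, 0), (0, 3), (1, 0), (1, 1), (2, 0)], [(0, 0)], [], [(0, 0, []),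
      (1, 0, [])]⟩,
    ⟨[(0, 3)], [(0, 0), (0, 1), (0, 3), (1, 0), (1, 1), (3, 0)], [(0, 1)], [4], [(0, 0,
      []), (6, 1, [3])]⟩]
  Ta := [((0, 6), 0, 1), ((1, 2), 0, 3), ((5, 4), 0, 2), ((5, 7), 0, 5)]
  Tb := [((2, 1, 3), 3, 0, 4), ((2, 1, 7), 3, 0, 5), ((2, 3, 7), 3, 4, 5), ((3, 2, 6), 4, 3, 1),
    ((4, 5, 6), 2, 0, 1), ((5, 4, 7), 0, 2, 5), ((6, 0, 3), 1, 0, 4), ((6, 0, 4), 1, 0, 2),
    ((6, 3, 4), 1, 4, 2), ((7, 2, 5), 5, 3, 0)]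
  Tc := []
  Td := [((1, 3), (6, 0), 0), ((1, 3), (6, 3), 4), ((1, 3), (6, 4), 2), ((3, 1), (2, 1), 0), ((3,
    1), (2, 3), 4), ((3, 1), (2, 7), 5)]
  G := [[0, 0x842484e8224848e4482824e4e, 0, 0xc2c2c8e42, 0x4282a8484268c282c4e8e], [0, 0, 0,
    0xc4c254e42, 0x8242a8428468148414e8e], [0, 0, 0x8282a8124868445418e8e, 0xc2c2c8e82,
    0x1482a8484268441414e8e]]

noncomputable def n3631 : Ent := ⟨e3631, noF, [], [], []⟩

def c3631 : PLift (Cov.check n3631.C.D v3631 = true) := ⟨by decide +kernel⟩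

def b3631 : PLift (entF (fidx ts) 400 3631 n3631 = true) := ⟨by decide +kernel⟩

theorem g3631 : GoodF (fidx ts) 400 3631 := GoodF.ofV v3631 n3631 c3631.down b3631.down

/-- 67544:2723/1 -/
noncomputable def e3632 : SCfg where
  D := {
    a := 5
    L := 9
    kp := 6
    inn := [(0, 3), (0, 4), (1, 2), (1, 3), (2, 1), (3, 0), (3, 1), (4, 0)]
    mix := [(0, 0), (0, 1), (0, 2), (0, 3), (1, 0), (1, 1), (1, 4), (1, 5), (1, 6), (2, 1), (2, 5), (2,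
      7), (2, 8), (3, 0), (3, 1), (4, 0), (4, 3), (4, 6)]
    cl := [0, 0, 4, 3, 2, 0, 1, 5, 6]
    chq := [(1, 4), (4, 1)]
    rng := [(0, 6), (1, 2), (1, 8), (2, 1), (2, 3), (3, 2), (3, 6), (4, 5), (4, 6), (5, 4), (5, 7), (6,
      0), (6, 3), (6, 4), (7, 5), (7, 8), (8, 1), (8, 7)]
    lev := [] }
  links := [[5, 3, 6, 7, 8, 4], [9, 10, 2, 6, 3, 5, 11], [12, 13, 6, 1, 10], [6, 0, 5, 1], [0, 8, 11, 5]]
  P := {
    a := 5
    N := 14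
    nb := [504, 3692, 13378, 99, 2337, 2075, 8335, 321, 2193, 3074, 4614, 818, 9220, 4164]
    tri := [(0, 3, 5), (0, 3, 6), (0, 4, 5), (0, 4, 8), (0, 6, 7), (0, 7, 8), (1, 2, 6), (1, 2, 10),
      (1, 3, 5), (1, 3, 6), (1, 5, 11), (1, 9, 10), (1, 9, 11), (2, 6, 13), (2, 10, 12), (2, 12,
      13), (4, 5, 11), (4, 8, 11)]
    fin := [0, 1, 1, 1, 0, 1, 1, 7, 8, 9, 1, 0, 12, 13]
    chd := [(7, 0)]
    steps := [(0, 4), (0, 11), (1, 2), (1, 5), (1, 3), (1, 10), (1, 6)] }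
  rep := [1, 0, 9, 8, 7, 12, 13]

noncomputable def v3632 : Cov.CovD where
  P := 3
  N := 4
  pl := [3, 4, 7, 8]
  lev := [⟨[], [], [(0, 0), (0, 4)], [3], [(0, 0, []), (1, 0, []), (2, 4, [1])]⟩,
    ⟨[], [(0, 0)], [(0, 0), (0, 1)], [2], [(0, 0, []), (1, 0, []), (5, 0, []), (6, 1,
      [4])]⟩,
    ⟨[], [(0, 0), (1, 0), (1, 1)], [(0, 0)], [5, 6], [(1, 0, []), (5, 0, [])]⟩,
    ⟨[(0, 1), (1, 2)], [(0, 0), (0, 4), (1, 0), (1, 1), (2, 0)], [(0, 0)], [], [(0, 0, []),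
      (1, 0, [])]⟩,
    ⟨[(0, 3)], [(0, 0), (0, 1), (0, 4), (1, 0), (1, 1), (3, 0)], [(0, 1)], [3], [(0, 0,
      []), (6, 1, [4])]⟩]
  Ta := [((0, 6), 0, 1), ((1, 2), 0, 4), ((1, 8), 0, 6), ((5, 4), 0, 2), ((5, 7), 0, 5)]
  Tb := [((1, 2, 8), 0, 4, 6), ((2, 1, 3), 4, 0, 3), ((3, 2, 6), 3, 4, 1), ((4, 5, 6), 2, 0, 1),
    ((5, 4, 7), 0, 2, 5), ((6, 0, 3), 1, 0, 3), ((6, 0, 4), 1, 0, 2), ((6, 3, 4), 1, 3, 2),
    ((7, 5, 8), 5, 0, 6), ((8, 1, 7), 6, 0, 5)]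
  Tc := []
  Td := [((1, 4), (6, 0), 0), ((1, 4), (6, 3), 3), ((1, 4), (6, 4), 2), ((4, 1), (2, 1), 0), ((4,
    1), (2, 3), 3)]
  G := [[0, 0x848484e8484848e4242424e8e, 0, 0xc2c2c2e42, 0x848242e8424848e8c4c4c8e8e], [0, 0, 0,
    0x549298e42, 0x828484e8421442e81294c4e8e], [0, 0, 0x848412e8424242e418c858e4e,
    0x94c8c4e82, 0x424484e8121882e8c494c8e8e]]

noncomputable def n3632 : Ent := ⟨e3632, noF, [], [], [(13, 7, [18394062992640663734943802720736859381781482425114882049, 0])]⟩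

def c3632 : PLift (Cov.check n3632.C.D v3632 = true) := ⟨by decide +kernel⟩

def b3632 : PLift (entF (fidx ts) 400 3632 n3632 = true) := ⟨by decide +kernel⟩

theorem g3632 : GoodF (fidx ts) 400 3632 := GoodF.ofV v3632 n3632 c3632.down b3632.down

/-- 67544:2723/4 -/
noncomputable def e3633 : SCfg where
  D := {
    a := 5
    L := 8
    kp := 5
    inn := [(0, 3), (0, 4), (1, 2), (1, 3), (2, 1), (3, 0), (3, 1), (4, 0)]
    mix := [(0, 0), (0, 1), (0, 2), (0, 3), (1, 0), (1, 1), (1, 4), (1, 5), (1, 6), (2, 1), (2, 2), (2,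
      3), (2, 5), (3, 0), (3, 1), (4, 0), (4, 3), (4, 7)]
    cl := [0, 0, 2, 1, 4, 0, 5, 3]
    chq := [(2, 3), (3, 2)]
    rng := [(0, 6), (0, 7), (1, 2), (2, 1), (2, 3), (3, 2), (3, 5), (3, 7), (4, 5), (4, 6), (5, 3), (5,
      4), (6, 0), (6, 4), (7, 0), (7, 3)]
    lev := [] }
  links := [[5, 3, 6, 7, 8, 4], [9, 10, 2, 6, 3, 5, 11], [8, 7, 6, 1, 10], [6, 0, 5, 1], [0, 8, 12, 5]]
  P := {
    a := 5
    N := 13
    nb := [504, 3692, 1474, 99, 4385, 6171, 143, 325, 5269, 3074, 774, 546, 304]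
    tri := [(0, 3, 5), (0, 3, 6), (0, 4, 5), (0, 4, 8), (0, 6, 7), (0, 7, 8), (1, 2, 6), (1, 2, 10),
      (1, 3, 5), (1, 3, 6), (1, 5, 11), (1, 9, 10), (1, 9, 11), (2, 6, 7), (2, 7, 8), (2, 8, 10),
      (4, 5, 12), (4, 8, 12)]
    fin := [0, 1, 1, 1, 0, 1, 1, 0, 8, 9, 1, 11, 12]
    chd := [(0, 12)]
    steps := [(0, 4), (0, 7), (1, 2), (1, 10), (1, 6), (1, 3), (1, 5)] }
  rep := [1, 8, 0, 12, 9, 11]

noncomputable def v3633 : Cov.CovD where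
  P := 3
  N := 3
  pl := [3, 4, 6]
  lev := [⟨[], [], [(0, 0), (0, 2)], [1], [(0, 0, []), (1, 0, []), (2, 2, [3])]⟩,
    ⟨[], [(0, 0)], [(0, 0)], [4, 5], [(0, 0, []), (1, 0, []), (5, 0, [])]⟩,
    ⟨[], [(0, 0), (0, 2), (1, 0), (1, 2)], [(0, 0), (0, 2)], [1], [(1, 0, []), (2, 2, [3]),
      (5, 0, [])]⟩,
    ⟨[(0, 1), (1, 2)], [(0, 0), (0, 2), (1, 0), (2, 0)], [(0, 0)], [], [(0, 0, []), (1, 0,
      [])]⟩,
    ⟨[(0, 3)], [(0, 0), (0, 2), (0, 3), (1, 0), (3, 0)], [(0, 3)], [1], [(0, 0, []), (7, 3,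
      [2])]⟩]
  Ta := [((0, 6), 0, 5), ((0, 7), 0, 3), ((1, 2), 0, 2), ((5, 3), 0, 1), ((5, 4), 0, 4)]
  Tb := [((0, 6, 7), 0, 5, 3), ((2, 1, 3), 2, 0, 1), ((3, 2, 5), 1, 2, 0), ((3, 2, 7), 1, 2, 3),
    ((3, 5, 7), 1, 0, 3), ((4, 5, 6), 4, 0, 5), ((5, 3, 4), 0, 1, 4), ((6, 0, 4), 5, 0, 4),
    ((7, 0, 3), 3, 0, 1)]
  Tc := []
  Td := [((2, 3), (2, 1), 0), ((2, 3), (2, 3), 1), ((3, 2), (7, 0), 0), ((3, 2), (7, 3), 1)]
  G := [[0, 0, 0, 0xc28c84c24e4, 0x428488488e8], [0, 0, 0x144124148e4, 0x144128148e4,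
    0x128128188e8], [0, 0x248224224e8, 0, 0x148188148e4, 0x428448448e8]]

noncomputable def n3633 : Ent := ⟨e3633, noF, [], [], []⟩

def c3633 : PLift (Cov.check n3633.C.D v3633 = true) := ⟨by decide +kernel⟩

def b3633 : PLift (entF (fidx ts) 400 3633 n3633 = true) := ⟨by decide +kernel⟩

theorem g3633 : GoodF (fidx ts) 400 3633 := GoodF.ofV v3633 n3633 c3633.down b3633.down

/-- 67544:2723/3 -/
noncomputable def e3634 : SCfg where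
  D := {
    a := 5
    L := 9
    kp := 6
    inn := [(0, 3), (0, 4), (1, 2), (1, 3), (2, 1), (3, 0), (3, 1), (4, 0)]
    mix := [(0, 0), (0, 1), (0, 2), (0, 3), (1, 0), (1, 1), (1, 4), (1, 5), (1, 6), (2, 1), (2, 3), (2,
      5), (2, 7), (3, 0), (3, 1), (4, 0), (4, 3), (4, 8)]
    cl := [0, 0, 2, 1, 4, 0, 5, 6, 3]
    chq := [(2, 3), (3, 2)]
    rng := [(0, 6), (0, 8), (1, 2), (1, 7), (2, 1), (2, 3), (3, 2), (3, 5), (3, 7), (3, 8), (4, 5), (4,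
      6), (5, 3), (5, 4), (6, 0), (6, 4), (7, 1), (7, 3), (8, 0), (8, 3)]
    lev := [] }
  links := [[5, 3, 6, 7, 8, 4], [9, 10, 2, 6, 3, 5, 11], [8, 12, 6, 1, 10], [6, 0, 5, 1], [0, 8, 13, 5]]
  P := {
    a := 5
    N := 14
    nb := [504, 3692, 5442, 99, 8481, 10267, 4239, 321, 13461, 3074, 774, 546, 324, 304]
    tri := [(0, 3, 5), (0, 3, 6), (0, 4, 5), (0, 4, 8), (0, 6, 7), (0, 7, 8), (1, 2, 6), (1, 2, 10),
      (1, 3, 5), (1, 3, 6), (1, 5, 11), (1, 9, 10), (1, 9, 11), (2, 6, 12), (2, 8, 10), (2, 8,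
      12), (4, 5, 13), (4, 8, 13)]
    fin := [0, 1, 1, 1, 0, 1, 1, 0, 8, 9, 1, 11, 12, 13]
    chd := [(0, 13)]
    steps := [(0, 4), (0, 7), (1, 2), (1, 3), (1, 5), (1, 10), (1, 6)] }
  rep := [1, 8, 0, 13, 9, 11, 12]

noncomputable def v3634 : Cov.CovD where
  P := 3
  N := 4
  pl := [3, 4, 6, 7]
  lev := [⟨[], [], [(0, 0), (0, 2)], [1], [(0, 0, []), (1, 0, []), (2, 2, [3])]⟩,
    ⟨[], [(0, 0)], [(0, 0)], [4, 5], [(0, 0, []), (1, 0, []), (5, 0, [])]⟩,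
    ⟨[], [(0, 0), (1, 0)], [(0, 0)], [1, 6], [(1, 0, []), (5, 0, [])]⟩,
    ⟨[(0, 1), (1, 2)], [(0, 0), (0, 2), (1, 0), (2, 0)], [(0, 0)], [], [(0, 0, []), (1, 0,
      [])]⟩,
    ⟨[(0, 3)], [(0, 0), (0, 2), (0, 3), (1, 0), (3, 0)], [(0, 3)], [1], [(0, 0, []), (8, 3,
      [2])]⟩]
  Ta := [((0, 6), 0, 5), ((0, 8), 0, 3), ((1, 2), 0, 2), ((1, 7), 0, 6), ((5, 3), 0, 1), ((5, 4),
    0, 4)]
  Tb := [((0, 6, 8), 0, 5, 3), ((1, 2, 7), 0, 2, 6), ((2, 1, 3), 2, 0, 1), ((3, 2, 5), 1, 2, 0),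
    ((3, 2, 7), 1, 2, 6), ((3, 2, 8), 1, 2, 3), ((3, 5, 7), 1, 0, 6), ((3, 5, 8), 1, 0, 3),
    ((3, 7, 8), 1, 6, 3), ((4, 5, 6), 4, 0, 5), ((5, 3, 4), 0, 1, 4), ((6, 0, 4), 5, 0, 4),
    ((7, 1, 3), 6, 0, 1), ((8, 0, 3), 3, 0, 1)]
  Tc := []
  Td := [((2, 3), (2, 1), 0), ((2, 3), (2, 3), 1), ((3, 2), (8, 0), 0), ((3, 2), (8, 3), 1)]
  G := [[0, 0, 0, 0xc2c8cc8c8cc2c2ce4, 0x4444c4248c4848ce8], [0, 0, 0x1412c1812c1812ce4,
    0x1414c1212c1212ce8, 0x4212c4818c4818ce8], [0, 0x282462222a2428ce4, 0,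
    0x1412c1812c1818ce8, 0x4242c1848c4848ce8]]

noncomputable def n3634 : Ent := ⟨e3634, noF, [], [], [(12, 7, [19926558533506552591972921752102252692496414487018147841, 0])]⟩

def c3634 : PLift (Cov.check n3634.C.D v3634 = true) := ⟨by decide +kernel⟩

def b3634 : PLift (entF (fidx ts) 400 3634 n3634 = true) := ⟨by decide +kernel⟩

theorem g3634 : GoodF (fidx ts) 400 3634 := GoodF.ofV v3634 n3634 c3634.down b3634.down

/-- 67544:2723/5 -/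
noncomputable def e3635 : SCfg where
  D := {
    a := 5
    L := 9
    kp := 6
    inn := [(0, 3), (0, 4), (1, 2), (1, 3), (2, 1), (3, 0), (3, 1), (4, 0)]
    mix := [(0, 0), (0, 1), (0, 2), (0, 3), (1, 0), (1, 1), (1, 4), (1, 5), (1, 6), (2, 1), (2, 2), (2,
      5), (2, 7), (3, 0), (3, 1), (4, 0), (4, 3), (4, 8)]
    cl := [0, 0, 1, 2, 4, 0, 5, 6, 3]
    chq := [(1, 3), (3, 1)]
    rng := [(0, 6), (0, 8), (1, 2), (2, 1), (2, 3), (2, 7), (3, 2), (3, 8), (4, 5), (4, 6), (5, 4), (5,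
      7), (6, 0), (6, 4), (7, 2), (7, 5), (8, 0), (8, 3)]
    lev := [] }
  links := [[5, 3, 6, 7, 8, 4], [9, 10, 2, 6, 3, 5, 11], [12, 7, 6, 1, 10], [6, 0, 5, 1], [0, 8, 13, 5]]
  P := {
    a := 5
    N := 14
    nb := [504, 3692, 5314, 99, 8481, 10267, 143, 4421, 8337, 3074, 4614, 546, 1156, 304]
    tri := [(0, 3, 5), (0, 3, 6), (0, 4, 5), (0, 4, 8), (0, 6, 7), (0, 7, 8), (1, 2, 6), (1, 2, 10),
      (1, 3, 5), (1, 3, 6), (1, 5, 11), (1, 9, 10), (1, 9, 11), (2, 6, 7), (2, 7, 12), (2, 10,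
      12), (4, 5, 13), (4, 8, 13)]
    fin := [0, 1, 1, 1, 0, 1, 1, 0, 8, 9, 1, 11, 12, 13]
    chd := [(0, 13)]
    steps := [(0, 4), (0, 7), (1, 2), (1, 10), (1, 6), (1, 3), (1, 5)] }
  rep := [1, 0, 8, 13, 9, 11, 12]

noncomputable def v3635 : Cov.CovD where
  P := 3
  N := 4
  pl := [3, 4, 6, 7]
  lev := [⟨[], [], [(0, 0), (0, 1)], [2], [(0, 0, []), (1, 0, []), (2, 1, [3])]⟩,
    ⟨[], [(0, 0)], [(0, 0)], [4, 5], [(0, 0, []), (1, 0, []), (5, 0, [])]⟩,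
    ⟨[], [(0, 0), (0, 1), (1, 0), (1, 1)], [(0, 0), (0, 1)], [6], [(1, 0, []), (2, 1, [3]),
      (5, 0, [])]⟩,
    ⟨[(0, 1), (1, 2)], [(0, 0), (0, 1), (1, 0), (2, 0)], [(0, 0)], [], [(0, 0, []), (1, 0,
      [])]⟩,
    ⟨[(0, 3)], [(0, 0), (0, 1), (0, 3), (1, 0), (3, 0)], [(0, 3)], [2], [(0, 0, []), (8, 3,
      [1])]⟩]
  Ta := [((0, 6), 0, 5), ((0, 8), 0, 3), ((1, 2), 0, 1), ((5, 4), 0, 4), ((5, 7), 0, 6)]
  Tb := [((0, 6, 8), 0, 5, 3), ((2, 1, 3), 1, 0, 2), ((2, 1, 7), 1, 0, 6), ((2, 3, 7), 1, 2, 6),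
    ((3, 2, 8), 2, 1, 3), ((4, 5, 6), 4, 0, 5), ((5, 4, 7), 0, 4, 6), ((6, 0, 4), 5, 0, 4),
    ((7, 2, 5), 6, 1, 0), ((8, 0, 3), 3, 0, 2)]
  Tc := []
  Td := [((1, 3), (2, 1), 0), ((1, 3), (2, 3), 2), ((1, 3), (2, 7), 6), ((3, 1), (8, 0), 0), ((3,
    1), (8, 3), 2)]
  G := [[0, 0, 0x2422c2828c2422ce4, 0xc4c4cc4c2cc2c4ce8, 0x2424c2822c2428ce8], [0,
    0x1412a1218c12186e8, 0x2224c2828c2228ce8, 0x1414c1418c1814ce8, 0x1424c2428c2222ce8], [0,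
    0, 0x2222c2228c2828ce4, 0x1212c1812c1418ce4, 0x2422c1818c1414ce8]]

noncomputable def n3635 : Ent := ⟨e3635, noF, [], [], [(11, 13, [18394062992640663726968434746027364144358640063432814593, 0]), (12, 8, [19926558533506574363398264713239334983952254818781958145, 0])]⟩

def c3635 : PLift (Cov.check n3635.C.D v3635 = true) := ⟨by decide +kernel⟩

def b3635 : PLift (entF (fidx ts) 400 3635 n3635 = true) := ⟨by decide +kernel⟩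

theorem g3635 : GoodF (fidx ts) 400 3635 := GoodF.ofV v3635 n3635 c3635.down b3635.down

/-- 67544:2723 -/
noncomputable def e3636 : SCfg where
  D := {
    a := 5
    L := 10
    kp := 7
    inn := [(0, 3), (0, 4), (1, 2), (1, 3), (2, 1), (3, 0), (3, 1), (4, 0)]
    mix := [(0, 0), (0, 1), (0, 2), (0, 3), (1, 0), (1, 1), (1, 4), (1, 5), (1, 6), (2, 1), (2, 5), (2,
      7), (2, 8), (3, 0), (3, 1), (4, 0), (4, 3), (4, 9)]
    cl := [0, 0, 2, 1, 4, 0, 5, 6, 7, 3]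
    chq := [(2, 3), (3, 2)]
    rng := [(0, 6), (0, 9), (1, 2), (1, 8), (2, 1), (2, 3), (3, 2), (3, 9), (4, 5), (4, 6), (5, 4), (5,
      7), (6, 0), (6, 4), (7, 5), (7, 8), (8, 1), (8, 7), (9, 0), (9, 3)]
    lev := [] }
  links := [[5, 3, 6, 7, 8, 4], [9, 10, 2, 6, 3, 5, 11], [12, 13, 6, 1, 10], [6, 0, 5, 1], [0, 8, 14, 5]]
  P := {
    a := 5
    N := 15
    nb := [504, 3692, 13378, 99, 16673, 18459, 8335, 321, 16529, 3074, 4614, 546, 9220, 4164, 304]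
    tri := [(0, 3, 5), (0, 3, 6), (0, 4, 5), (0, 4, 8), (0, 6, 7), (0, 7, 8), (1, 2, 6), (1, 2, 10),
      (1, 3, 5), (1, 3, 6), (1, 5, 11), (1, 9, 10), (1, 9, 11), (2, 6, 13), (2, 10, 12), (2, 12,
      13), (4, 5, 14), (4, 8, 14)]
    fin := [0, 1, 1, 1, 0, 1, 1, 0, 8, 9, 1, 11, 12, 13, 14]
    chd := [(0, 14)]
    steps := [(0, 4), (0, 7), (1, 2), (1, 3), (1, 5), (1, 10), (1, 6)] }
  rep := [1, 8, 0, 14, 9, 11, 12, 13]

noncomputable def v3636 : Cov.CovD where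
  P := 3
  N := 5
  pl := [3, 4, 6, 7, 8]
  lev := [⟨[], [], [(0, 0), (0, 2)], [1], [(0, 0, []), (1, 0, []), (2, 2, [3])]⟩,
    ⟨[], [(0, 0)], [(0, 0)], [4, 5], [(0, 0, []), (1, 0, []), (5, 0, [])]⟩,
    ⟨[], [(0, 0), (1, 0)], [(0, 0)], [6, 7], [(1, 0, []), (5, 0, [])]⟩,
    ⟨[(0, 1), (1, 2)], [(0, 0), (0, 2), (1, 0), (2, 0)], [(0, 0)], [], [(0, 0, []), (1, 0,
      [])]⟩,
    ⟨[(0, 3)], [(0, 0), (0, 2), (0, 3), (1, 0), (3, 0)], [(0, 3)], [1], [(0, 0, []), (9, 3,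
      [2])]⟩]
  Ta := [((0, 6), 0, 5), ((0, 9), 0, 3), ((1, 2), 0, 2), ((1, 8), 0, 7), ((5, 4), 0, 4), ((5, 7),
    0, 6)]
  Tb := [((0, 6, 9), 0, 5, 3), ((1, 2, 8), 0, 2, 7), ((2, 1, 3), 2, 0, 1), ((3, 2, 9), 1, 2, 3),
    ((4, 5, 6), 4, 0, 5), ((5, 4, 7), 0, 4, 6), ((6, 0, 4), 5, 0, 4), ((7, 5, 8), 6, 0, 7),
    ((8, 1, 7), 7, 0, 6), ((9, 0, 3), 3, 0, 1)]
  Tc := []
  Td := [((2, 3), (2, 1), 0), ((2, 3), (2, 3), 1), ((3, 2), (9, 0), 0), ((3, 2), (9, 3), 1)]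
  G := [[0, 0x222222e282828e242224ee4, 0, 0xc4c4c2ec2c2c4ec2c4c4ee8, 0x424444e484244e424248ee8],
    [0, 0x222428e282828e282224ee4, 0x121212e141818e181818ee8, 0x121414e181212e121418ee8,
    0x124444e421218e184818ee8], [0, 0x222422e282828e282824ee8, 0, 0x121814e121218e181414ee4,
    0x121442e484818e484214ee8]]

noncomputable def n3636 : Ent := ⟨e3636, noF, [], [], [(11, 14, [81620716623019490593592230936445690773474979418095898263553, 0]), (12, 8, [87899350853947037268064450189620569160416928477315281920001, 0]), (13, 7, [87897818358406171357435995727628066684814757704921614856193, 0])]⟩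

def c3636 : PLift (Cov.check n3636.C.D v3636 = true) := ⟨by decide +kernel⟩

def b3636 : PLift (entF (fidx ts) 400 3636 n3636 = true) := ⟨by decide +kernel⟩

theorem g3636 : GoodF (fidx ts) 400 3636 := GoodF.ofV v3636 n3636 c3636.down b3636.down

/-- 865444:2727/2 -/
noncomputable def e3637 : SCfg where
  D := {
    a := 6
    L := 8
    kp := 5
    inn := [(0, 2), (0, 3), (0, 4), (1, 3), (1, 5), (2, 0), (2, 4), (3, 0), (3, 1), (4, 0), (4, 2), (5,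
      1)]
    mix := [(0, 0), (0, 1), (0, 2), (0, 3), (0, 4), (1, 0), (1, 1), (1, 5), (1, 6), (2, 1), (2, 5), (2,
      7), (3, 0), (3, 1), (4, 2), (4, 7), (5, 0), (5, 4), (5, 6)]
    cl := [0, 0, 0, 5, 1, 2, 3, 4]
    chq := [(1, 2), (2, 1)]
    rng := [(0, 4), (1, 5), (2, 3), (2, 7), (3, 2), (3, 4), (4, 0), (4, 3), (4, 6), (5, 1), (5, 6), (5,
      7), (6, 4), (6, 5), (7, 2), (7, 5)]
    lev := [] }
  links := [[6, 3, 7, 2, 4, 8, 9, 10], [11, 7, 3, 6, 5, 12], [0, 7, 11, 13, 4], [7, 0, 6, 1], [2, 13, 8,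
    0], [1, 6, 10, 12]]
  P := {
    a := 6
    N := 14
    nb := [2012, 6376, 10385, 195, 8453, 5186, 1067, 2063, 8721, 1281, 4705, 12422, 3106, 2324]
    tri := [(0, 2, 4), (0, 2, 7), (0, 3, 6), (0, 3, 7), (0, 4, 8), (0, 6, 10), (0, 8, 9), (0, 9, 10),
      (1, 3, 6), (1, 3, 7), (1, 5, 6), (1, 5, 12), (1, 7, 11), (1, 11, 12), (2, 4, 13), (2, 7,
      11), (2, 11, 13), (4, 8, 13), (5, 6, 10), (5, 10, 12)]
    fin := [0, 1, 0, 0, 0, 1, 0, 0, 0, 9, 1, 11, 12, 13]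
    chd := [(1, 11)]
    steps := [(0, 2), (0, 3), (0, 4), (0, 6), (0, 7), (0, 8), (1, 5), (1, 10)] }
  rep := [0, 1, 11, 12, 13, 9]

noncomputable def v3637 : Cov.CovD where
  P := 3
  N := 3
  pl := [3, 6, 7]
  lev := [⟨[], [], [(0, 0), (0, 1)], [5], [(0, 0, []), (1, 0, []), (2, 0, []), (4, 1, [2])]⟩,
    ⟨[], [(0, 0)], [(0, 0), (0, 2)], [3], [(0, 0, []), (1, 0, []), (5, 2, [1])]⟩,
    ⟨[], [(0, 0), (0, 1), (0, 2), (1, 0), (1, 2)], [(0, 2)], [4], [(1, 0, []), (5, 2,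
      [1])]⟩,
    ⟨[(0, 1), (0, 2)], [(0, 0), (0, 1), (1, 0), (1, 2), (2, 0)], [(0, 0)], [], [(0, 0, []),
      (1, 0, [])]⟩,
    ⟨[(0, 2), (0, 3)], [(0, 0), (0, 1), (2, 0), (2, 2)], [], [4], [(2, 0, [])]⟩,
    ⟨[(1, 3)], [(0, 0), (0, 1), (1, 0), (1, 1), (1, 2), (3, 0)], [(0, 1)], [3], [(0, 0,
      []), (4, 1, [2])]⟩]
  Ta := [((0, 4), 0, 1), ((1, 5), 0, 2), ((2, 3), 0, 5), ((2, 7), 0, 4)]
  Tb := [((2, 3, 7), 0, 5, 4), ((3, 2, 4), 5, 0, 1), ((4, 0, 3), 1, 0, 5), ((4, 0, 6), 1, 0, 3),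
    ((4, 3, 6), 1, 5, 3), ((5, 1, 6), 2, 0, 3), ((5, 1, 7), 2, 0, 4), ((5, 6, 7), 2, 3, 4),
    ((6, 4, 5), 3, 1, 2), ((7, 2, 5), 4, 0, 2)]
  Tc := []
  Td := [((1, 2), (4, 0), 0), ((1, 2), (4, 3), 5), ((1, 2), (4, 6), 3), ((2, 1), (5, 1), 0), ((2,
    1), (5, 6), 3), ((2, 1), (5, 7), 4)]
  G := [[0, 0x82a4124a21c2864122a41c6, 0, 0xccc8122, 0x846214124229a88c2144c81ac], [0, 0,
    0x114411821128e182841841282ec, 0xc14c14c22, 0x812842a412112aa884822a182118aac], [0, 0, 0,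
    0x988544c22, 0x82284291421229a88214894221423ac]]

noncomputable def n3637 : Ent := ⟨e3637, noF, [], [], []⟩

def c3637 : PLift (Cov.check n3637.C.D v3637 = true) := ⟨by decide +kernel⟩

def b3637 : PLift (entF (fidx ts) 400 3637 n3637 = true) := ⟨by decide +kernel⟩

theorem g3637 : GoodF (fidx ts) 400 3637 := GoodF.ofV v3637 n3637 c3637.down b3637.down

/-- 865444:2727/1 -/
noncomputable def e3638 : SCfg where
  D := {
    a := 6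
    L := 9
    kp := 6
    inn := [(0, 2), (0, 3), (0, 4), (1, 3), (1, 5), (2, 0), (2, 4), (3, 0), (3, 1), (4, 0), (4, 2), (5,
      1)]
    mix := [(0, 0), (0, 1), (0, 2), (0, 3), (0, 4), (1, 0), (1, 1), (1, 5), (1, 6), (2, 1), (2, 7), (2,
      8), (3, 0), (3, 1), (4, 2), (4, 8), (5, 0), (5, 4), (5, 6)]
    cl := [0, 0, 0, 5, 1, 2, 3, 6, 4]
    chq := [(1, 2), (2, 1)]
    rng := [(0, 4), (1, 5), (1, 7), (2, 3), (2, 8), (3, 2), (3, 4), (4, 0), (4, 3), (4, 6), (5, 1), (5,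
      6), (6, 4), (6, 5), (7, 1), (7, 8), (8, 2), (8, 7)]
    lev := [] }
  links := [[6, 3, 7, 2, 4, 8, 9, 10], [11, 7, 3, 6, 5, 12], [0, 7, 13, 14, 4], [7, 0, 6, 1], [2, 14, 8,
    0], [1, 6, 10, 12]]
  P := {
    a := 6
    N := 15
    nb := [2012, 6376, 24721, 195, 16645, 5186, 1067, 10255, 16913, 1281, 4705, 4226, 3106, 16516,
      8468]
    tri := [(0, 2, 4), (0, 2, 7), (0, 3, 6), (0, 3, 7), (0, 4, 8), (0, 6, 10), (0, 8, 9), (0, 9, 10),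
      (1, 3, 6), (1, 3, 7), (1, 5, 6), (1, 5, 12), (1, 7, 11), (1, 11, 12), (2, 4, 14), (2, 7,
      13), (2, 13, 14), (4, 8, 14), (5, 6, 10), (5, 10, 12)]
    fin := [0, 1, 0, 0, 0, 1, 0, 0, 0, 9, 1, 11, 12, 13, 14]
    chd := [(1, 11)]
    steps := [(0, 2), (0, 3), (0, 4), (0, 6), (0, 7), (0, 8), (1, 5), (1, 10)] }
  rep := [0, 1, 11, 12, 14, 9, 13]

noncomputable def v3638 : Cov.CovD where
  P := 3
  N := 4
  pl := [3, 6, 7, 8]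
  lev := [⟨[], [], [(0, 0), (0, 1)], [5], [(0, 0, []), (1, 0, []), (2, 0, []), (4, 1, [2])]⟩,
    ⟨[], [(0, 0)], [(0, 0), (0, 2)], [3], [(0, 0, []), (1, 0, []), (5, 2, [1])]⟩,
    ⟨[], [(0, 0), (0, 1), (1, 0)], [], [4, 6], [(1, 0, [])]⟩,
    ⟨[(0, 1), (0, 2)], [(0, 0), (0, 1), (1, 0), (1, 2), (2, 0)], [(0, 0)], [], [(0, 0, []),
      (1, 0, [])]⟩,
    ⟨[(0, 2), (0, 3)], [(0, 0), (0, 1), (2, 0)], [], [4], [(2, 0, [])]⟩,
    ⟨[(1, 3)], [(0, 0), (0, 1), (1, 0), (1, 1), (1, 2), (3, 0)], [(0, 1)], [3], [(0, 0,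
      []), (4, 1, [2])]⟩]
  Ta := [((0, 4), 0, 1), ((1, 5), 0, 2), ((1, 7), 0, 6), ((2, 3), 0, 5), ((2, 8), 0, 4)]
  Tb := [((1, 5, 7), 0, 2, 6), ((2, 3, 8), 0, 5, 4), ((3, 2, 4), 5, 0, 1), ((4, 0, 3), 1, 0, 5),
    ((4, 0, 6), 1, 0, 3), ((4, 3, 6), 1, 5, 3), ((5, 1, 6), 2, 0, 3), ((6, 4, 5), 3, 1, 2),
    ((7, 1, 8), 6, 0, 4), ((8, 2, 7), 4, 0, 6)]
  Tc := []
  Td := [((1, 2), (4, 0), 0), ((1, 2), (4, 3), 5), ((1, 2), (4, 6), 3), ((2, 1), (5, 1), 0), ((2,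
    1), (5, 6), 3)]
  G := [[0, 0x88c2142681c8262144a21cc, 0, 0xccc8122, 0x8864144c21a88a4144c81ac], [0, 0,
    0x812444814e112144428ea818418122e114112122e6c, 0x5242252822c14c14c2e,
    0x112814424e414112128ea814812822e414112114eac], [0, 0, 0, 0x84481c4544c81544484ce2,
    0x842882824d422184144ba128428842b484128148bac]]

noncomputable def n3638 : Ent := ⟨e3638, noF, [], [], [(11, 13, [87897818358406171357428020359653357189577334862559932796929, 0])]⟩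

def c3638 : PLift (Cov.check n3638.C.D v3638 = true) := ⟨by decide +kernel⟩

def b3638 : PLift (entF (fidx ts) 400 3638 n3638 = true) := ⟨by decide +kernel⟩

theorem g3638 : GoodF (fidx ts) 400 3638 := GoodF.ofV v3638 n3638 c3638.down b3638.down

/-- 865444:2727/4 -/
noncomputable def e3639 : SCfg where
  D := {
    a := 6
    L := 8
    kp := 5
    inn := [(0, 2), (0, 3), (0, 4), (1, 3), (1, 5), (2, 0), (2, 4), (3, 0), (3, 1), (4, 0), (4, 2), (5,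
      1)]
    mix := [(0, 0), (0, 1), (0, 2), (0, 3), (0, 4), (1, 0), (1, 1), (1, 5), (1, 6), (2, 1), (2, 5), (2,
      6), (3, 0), (3, 1), (4, 2), (4, 6), (5, 0), (5, 6), (5, 7)]
    cl := [0, 0, 0, 4, 5, 2, 1, 3]
    chq := [(2, 3), (3, 2)]
    rng := [(0, 4), (0, 7), (1, 5), (2, 3), (2, 6), (3, 2), (3, 4), (4, 0), (4, 3), (5, 1), (5, 6), (6,
      2), (6, 5), (6, 7), (7, 0), (7, 6)]
    lev := [] }
  links := [[6, 3, 7, 2, 4, 8, 9, 10], [11, 7, 3, 6, 5, 12], [0, 7, 11, 12, 4], [7, 0, 6, 1], [2, 12, 8,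
    0], [1, 6, 13, 12]]
  P := {
    a := 6
    N := 14
    nb := [2012, 6376, 6289, 195, 4357, 12354, 9259, 2063, 4625, 1281, 577, 4230, 10550, 4192]
    tri := [(0, 2, 4), (0, 2, 7), (0, 3, 6), (0, 3, 7), (0, 4, 8), (0, 6, 10), (0, 8, 9), (0, 9, 10),
      (1, 3, 6), (1, 3, 7), (1, 5, 6), (1, 5, 12), (1, 7, 11), (1, 11, 12), (2, 4, 12), (2, 7,
      11), (2, 11, 12), (4, 8, 12), (5, 6, 13), (5, 12, 13)]
    fin := [0, 1, 0, 0, 0, 1, 0, 0, 0, 9, 10, 11, 12, 1]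
    chd := [(11, 1)]
    steps := [(0, 2), (0, 3), (0, 4), (0, 6), (0, 7), (0, 8), (1, 5), (1, 13)] }
  rep := [0, 12, 11, 1, 9, 10]

noncomputable def v3639 : Cov.CovD where
  P := 3
  N := 3
  pl := [3, 4, 6]
  lev := [⟨[], [], [(0, 0)], [4, 5], [(0, 0, []), (1, 0, []), (2, 0, [])]⟩,
    ⟨[], [(0, 0)], [(0, 0), (0, 2)], [1], [(0, 0, []), (1, 0, []), (5, 2, [3])]⟩,
    ⟨[], [(0, 0), (0, 2), (1, 0), (1, 2)], [(0, 2)], [1], [(1, 0, []), (5, 2, [3])]⟩,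
    ⟨[(0, 1), (0, 2)], [(0, 0), (1, 0), (1, 2), (2, 0)], [(0, 0)], [], [(0, 0, []), (1, 0,
      [])]⟩,
    ⟨[(0, 2), (0, 3)], [(0, 0), (2, 0), (2, 2)], [], [1], [(2, 0, [])]⟩,
    ⟨[(1, 3)], [(0, 0), (1, 0), (1, 2), (1, 3), (3, 0)], [(0, 3)], [1], [(0, 0, []), (7, 3,
      [2])]⟩]
  Ta := [((0, 4), 0, 5), ((0, 7), 0, 3), ((1, 5), 0, 2), ((2, 3), 0, 4), ((2, 6), 0, 1)]
  Tb := [((0, 4, 7), 0, 5, 3), ((2, 3, 6), 0, 4, 1), ((3, 2, 4), 4, 0, 5), ((4, 0, 3), 5, 0, 4),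
    ((5, 1, 6), 2, 0, 1), ((6, 2, 5), 1, 0, 2), ((6, 2, 7), 1, 0, 3), ((6, 5, 7), 1, 2, 3),
    ((7, 0, 6), 3, 0, 1)]
  Tc := []
  Td := [((2, 3), (5, 1), 0), ((2, 3), (5, 6), 1), ((3, 2), (7, 0), 0), ((3, 2), (7, 6), 1)]
  G := [[0, 0, 0, 0xc4814c1844c8244e, 0x444884428848218e], [0, 0, 0x112441128414288e,
    0x142441888411884e, 0x144884888848488e], [0, 0x222482824422888e, 0, 0x182141828414448e,
    0x142181841814818e]]

noncomputable def n3639 : Ent := ⟨e3639, noF, [], [], []⟩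

def c3639 : PLift (Cov.check n3639.C.D v3639 = true) := ⟨by decide +kernel⟩

def b3639 : PLift (entF (fidx ts) 400 3639 n3639 = true) := ⟨by decide +kernel⟩

theorem g3639 : GoodF (fidx ts) 400 3639 := GoodF.ofV v3639 n3639 c3639.down b3639.down

/-- 865444:2727/3 -/
noncomputable def e3640 : SCfg where
  D := {
    a := 6
    L := 9
    kp := 6
    inn := [(0, 2), (0, 3), (0, 4), (1, 3), (1, 5), (2, 0), (2, 4), (3, 0), (3, 1), (4, 0), (4, 2), (5,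
      1)]
    mix := [(0, 0), (0, 1), (0, 2), (0, 3), (0, 4), (1, 0), (1, 1), (1, 5), (1, 6), (2, 1), (2, 6), (2,
      7), (3, 0), (3, 1), (4, 2), (4, 6), (5, 0), (5, 6), (5, 8)]
    cl := [0, 0, 0, 4, 5, 2, 1, 6, 3]
    chq := [(2, 3), (3, 2)]
    rng := [(0, 4), (0, 8), (1, 5), (1, 7), (2, 3), (2, 6), (3, 2), (3, 4), (4, 0), (4, 3), (5, 1), (5,
      6), (6, 2), (6, 5), (6, 7), (6, 8), (7, 1), (7, 6), (8, 0), (8, 6)]
    lev := [] }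
  links := [[6, 3, 7, 2, 4, 8, 9, 10], [11, 7, 3, 6, 5, 12], [0, 7, 13, 12, 4], [7, 0, 6, 1], [2, 12, 8,
    0], [1, 6, 14, 12]]
  P := {
    a := 6
    N := 15
    nb := [2012, 6376, 12433, 195, 4357, 20546, 17451, 10255, 4625, 1281, 577, 4226, 26934, 4228,
      4192]
    tri := [(0, 2, 4), (0, 2, 7), (0, 3, 6), (0, 3, 7), (0, 4, 8), (0, 6, 10), (0, 8, 9), (0, 9, 10),
      (1, 3, 6), (1, 3, 7), (1, 5, 6), (1, 5, 12), (1, 7, 11), (1, 11, 12), (2, 4, 12), (2, 7,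
      13), (2, 12, 13), (4, 8, 12), (5, 6, 14), (5, 12, 14)]
    fin := [0, 1, 0, 0, 0, 1, 0, 0, 0, 9, 10, 11, 12, 13, 1]
    chd := [(11, 1)]
    steps := [(0, 2), (0, 3), (0, 4), (0, 6), (0, 7), (0, 8), (1, 5), (1, 14)] }
  rep := [0, 12, 11, 1, 9, 10, 13]

noncomputable def v3640 : Cov.CovD where
  P := 3
  N := 4
  pl := [3, 4, 6, 7]
  lev := [⟨[], [], [(0, 0)], [4, 5], [(0, 0, []), (1, 0, []), (2, 0, [])]⟩,
    ⟨[], [(0, 0)], [(0, 0), (0, 2)], [1], [(0, 0, []), (1, 0, []), (5, 2, [3])]⟩,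
    ⟨[], [(0, 0), (1, 0)], [], [1, 6], [(1, 0, [])]⟩,
    ⟨[(0, 1), (0, 2)], [(0, 0), (1, 0), (1, 2), (2, 0)], [(0, 0)], [], [(0, 0, []), (1, 0,
      [])]⟩,
    ⟨[(0, 2), (0, 3)], [(0, 0), (2, 0)], [], [1], [(2, 0, [])]⟩,
    ⟨[(1, 3)], [(0, 0), (1, 0), (1, 2), (1, 3), (3, 0)], [(0, 3)], [1], [(0, 0, []), (8, 3,
      [2])]⟩]
  Ta := [((0, 4), 0, 5), ((0, 8), 0, 3), ((1, 5), 0, 2), ((1, 7), 0, 6), ((2, 3), 0, 4), ((2, 6),
    0, 1)]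
  Tb := [((0, 4, 8), 0, 5, 3), ((1, 5, 7), 0, 2, 6), ((2, 3, 6), 0, 4, 1), ((3, 2, 4), 4, 0, 5),
    ((4, 0, 3), 5, 0, 4), ((5, 1, 6), 2, 0, 1), ((6, 2, 5), 1, 0, 2), ((6, 2, 7), 1, 0, 6),
    ((6, 2, 8), 1, 0, 3), ((6, 5, 7), 1, 2, 6), ((6, 5, 8), 1, 2, 3), ((6, 7, 8), 1, 6, 3),
    ((7, 1, 6), 6, 0, 1), ((8, 0, 6), 3, 0, 1)]
  Tc := []
  Td := [((2, 3), (5, 1), 0), ((2, 3), (5, 6), 1), ((3, 2), (8, 0), 0), ((3, 2), (8, 6), 1)]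
  G := [[0, 0, 0, 0xc8214c8418c4814e, 0x484184421844218e], [0, 0, 0x112142c4112182c8114142c8e,
    0x112144c8112188c4114142c4e, 0x112414c8112112c8148488c8e], [0,
    0x222284a4288242a4248284a4e, 0, 0x182181821418214e, 0x184181821848818e]]

noncomputable def n3640 : Ent := ⟨e3640, noF, [], [], [(11, 13, [87897818358406171357428020359653357189577334862559932805121, 0])]⟩

def c3640 : PLift (Cov.check n3640.C.D v3640 = true) := ⟨by decide +kernel⟩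

def b3640 : PLift (entF (fidx ts) 400 3640 n3640 = true) := ⟨by decide +kernel⟩

theorem g3640 : GoodF (fidx ts) 400 3640 := GoodF.ofV v3640 n3640 c3640.down b3640.down

/-- 865444:2727/5 -/
noncomputable def e3641 : SCfg where
  D := {
    a := 6
    L := 9
    kp := 6
    inn := [(0, 2), (0, 3), (0, 4), (1, 3), (1, 5), (2, 0), (2, 4), (3, 0), (3, 1), (4, 0), (4, 2), (5,
      1)]
    mix := [(0, 0), (0, 1), (0, 2), (0, 3), (0, 4), (1, 0), (1, 1), (1, 5), (1, 6), (2, 1), (2, 5), (2,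
      7), (3, 0), (3, 1), (4, 2), (4, 7), (5, 0), (5, 6), (5, 8)]
    cl := [0, 0, 0, 5, 6, 1, 3, 2, 4]
    chq := [(1, 4), (4, 1)]
    rng := [(0, 4), (0, 8), (1, 5), (2, 3), (2, 7), (3, 2), (3, 4), (4, 0), (4, 3), (5, 1), (5, 6), (5,
      7), (6, 5), (6, 8), (7, 2), (7, 5), (8, 0), (8, 6)]
    lev := [] }
  links := [[6, 3, 7, 2, 4, 8, 9, 10], [11, 7, 3, 6, 5, 12], [0, 7, 11, 13, 4], [7, 0, 6, 1], [2, 13, 8,
    0], [1, 6, 14, 12]]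
  P := {
    a := 6
    N := 15
    nb := [2012, 6376, 10385, 195, 8453, 20546, 17451, 2063, 8721, 1281, 577, 12422, 18466, 2324,
      4192]
    tri := [(0, 2, 4), (0, 2, 7), (0, 3, 6), (0, 3, 7), (0, 4, 8), (0, 6, 10), (0, 8, 9), (0, 9, 10),
      (1, 3, 6), (1, 3, 7), (1, 5, 6), (1, 5, 12), (1, 7, 11), (1, 11, 12), (2, 4, 13), (2, 7,
      11), (2, 11, 13), (4, 8, 13), (5, 6, 14), (5, 12, 14)]
    fin := [0, 1, 0, 0, 0, 1, 0, 0, 0, 9, 10, 11, 12, 13, 1]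
    chd := [(11, 1)]
    steps := [(0, 2), (0, 3), (0, 4), (0, 6), (0, 7), (0, 8), (1, 5), (1, 14)] }
  rep := [0, 11, 13, 12, 1, 9, 10]

noncomputable def v3641 : Cov.CovD where
  P := 3
  N := 4
  pl := [3, 4, 6, 7]
  lev := [⟨[], [], [(0, 0)], [5, 6], [(0, 0, []), (1, 0, []), (2, 0, [])]⟩,
    ⟨[], [(0, 0)], [(0, 0), (0, 1)], [3], [(0, 0, []), (1, 0, []), (5, 1, [4])]⟩,
    ⟨[], [(0, 0), (0, 1), (1, 0), (1, 1)], [(0, 1)], [2], [(1, 0, []), (5, 1, [4])]⟩,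
    ⟨[(0, 1), (0, 2)], [(0, 0), (1, 0), (1, 1), (2, 0)], [(0, 0)], [], [(0, 0, []), (1, 0,
      [])]⟩,
    ⟨[(0, 2), (0, 3)], [(0, 0), (2, 0), (2, 1)], [], [2], [(2, 0, [])]⟩,
    ⟨[(1, 3)], [(0, 0), (1, 0), (1, 1), (1, 4), (3, 0)], [(0, 4)], [3], [(0, 0, []), (8, 4,
      [1])]⟩]
  Ta := [((0, 4), 0, 6), ((0, 8), 0, 4), ((1, 5), 0, 1), ((2, 3), 0, 5), ((2, 7), 0, 2)]
  Tb := [((0, 4, 8), 0, 6, 4), ((2, 3, 7), 0, 5, 2), ((3, 2, 4), 5, 0, 6), ((4, 0, 3), 6, 0, 5),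
    ((5, 1, 6), 1, 0, 3), ((5, 1, 7), 1, 0, 2), ((5, 6, 7), 1, 3, 2), ((6, 5, 8), 3, 1, 4),
    ((7, 2, 5), 2, 0, 1), ((8, 0, 6), 4, 0, 3)]
  Tc := []
  Td := [((1, 4), (5, 1), 0), ((1, 4), (5, 6), 3), ((1, 4), (5, 7), 2), ((4, 1), (8, 0), 0), ((4,
    1), (8, 6), 3)]
  G := [[0, 0, 0, 0x28412844c28482824c28282144ce, 0xe1482148c2881e128ca8286188ce], [0,
    0x14481428c11481124c14281884ae, 0, 0x24481148c11242884c21841444ce,
    0x11482148c28281828c18282848ce], [0, 0, 0x22481228c12482428c22841884ce,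
    0x24481421c28242421c24212424ce, 0x28211221c22481828c18812288ce]]

noncomputable def n3641 : Ent := ⟨e3641, noF, [], [], [(14, 10, [81620716623384866002924956665996611981654050173009881419777, 0]), (12, 13, [87897818358406171357428020359653357189577334862559932805121, 0])]⟩

def c3641 : PLift (Cov.check n3641.C.D v3641 = true) := ⟨by decide +kernel⟩

def b3641 : PLift (entF (fidx ts) 400 3641 n3641 = true) := ⟨by decide +kernel⟩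

theorem g3641 : GoodF (fidx ts) 400 3641 := GoodF.ofV v3641 n3641 c3641.down b3641.down

/-- 865444:2727 -/
noncomputable def e3642 : SCfg where
  D := {
    a := 6
    L := 10
    kp := 7
    inn := [(0, 2), (0, 3), (0, 4), (1, 3), (1, 5), (2, 0), (2, 4), (3, 0), (3, 1), (4, 0), (4, 2), (5,
      1)]
    mix := [(0, 0), (0, 1), (0, 2), (0, 3), (0, 4), (1, 0), (1, 1), (1, 5), (1, 6), (2, 1), (2, 7), (2,
      8), (3, 0), (3, 1), (4, 2), (4, 8), (5, 0), (5, 6), (5, 9)]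
    cl := [0, 0, 0, 5, 6, 2, 1, 7, 3, 4]
    chq := [(2, 4), (4, 2)]
    rng := [(0, 4), (0, 9), (1, 5), (1, 7), (2, 3), (2, 8), (3, 2), (3, 4), (4, 0), (4, 3), (5, 1), (5,
      6), (6, 5), (6, 9), (7, 1), (7, 8), (8, 2), (8, 7), (9, 0), (9, 6)]
    lev := [] }
  links := [[6, 3, 7, 2, 4, 8, 9, 10], [11, 7, 3, 6, 5, 12], [0, 7, 13, 14, 4], [7, 0, 6, 1], [2, 14, 8,
    0], [1, 6, 15, 12]]
  P := {
    a := 6
    N := 16
    nb := [2012, 6376, 24721, 195, 16645, 36930, 33835, 10255, 16913, 1281, 577, 4226, 34850, 16516,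
      8468, 4192]
    tri := [(0, 2, 4), (0, 2, 7), (0, 3, 6), (0, 3, 7), (0, 4, 8), (0, 6, 10), (0, 8, 9), (0, 9, 10),
      (1, 3, 6), (1, 3, 7), (1, 5, 6), (1, 5, 12), (1, 7, 11), (1, 11, 12), (2, 4, 14), (2, 7,
      13), (2, 13, 14), (4, 8, 14), (5, 6, 15), (5, 12, 15)]
    fin := [0, 1, 0, 0, 0, 1, 0, 0, 0, 9, 10, 11, 12, 13, 14, 1]
    chd := [(11, 1)]
    steps := [(0, 2), (0, 3), (0, 4), (0, 6), (0, 7), (0, 8), (1, 5), (1, 15)] }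
  rep := [0, 12, 11, 14, 1, 9, 10, 13]

noncomputable def v3642 : Cov.CovD where
  P := 3
  N := 5
  pl := [3, 4, 6, 7, 8]
  lev := [⟨[], [], [(0, 0)], [5, 6], [(0, 0, []), (1, 0, []), (2, 0, [])]⟩,
    ⟨[], [(0, 0)], [(0, 0), (0, 2)], [1], [(0, 0, []), (1, 0, []), (5, 2, [4])]⟩,
    ⟨[], [(0, 0), (1, 0)], [], [3, 7], [(1, 0, [])]⟩,
    ⟨[(0, 1), (0, 2)], [(0, 0), (1, 0), (1, 2), (2, 0)], [(0, 0)], [], [(0, 0, []), (1, 0,
      [])]⟩,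
    ⟨[(0, 2), (0, 3)], [(0, 0), (2, 0)], [], [3], [(2, 0, [])]⟩,
    ⟨[(1, 3)], [(0, 0), (1, 0), (1, 2), (1, 4), (3, 0)], [(0, 4)], [1], [(0, 0, []), (9, 4,
      [2])]⟩]
  Ta := [((0, 4), 0, 6), ((0, 9), 0, 4), ((1, 5), 0, 2), ((1, 7), 0, 7), ((2, 3), 0, 5), ((2, 8),
    0, 3)]
  Tb := [((0, 4, 9), 0, 6, 4), ((1, 5, 7), 0, 2, 7), ((2, 3, 8), 0, 5, 3), ((3, 2, 4), 5, 0, 6),
    ((4, 0, 3), 6, 0, 5), ((5, 1, 6), 2, 0, 1), ((6, 5, 9), 1, 2, 4), ((7, 1, 8), 7, 0, 3),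
    ((8, 2, 7), 3, 0, 7), ((9, 0, 6), 4, 0, 1)]
  Tc := []
  Td := [((2, 4), (5, 1), 0), ((2, 4), (5, 6), 1), ((4, 2), (9, 0), 0), ((4, 2), (9, 6), 1)]
  G := [[0, 0x22621822a21422c218e, 0, 0xccc418cc6814cca814e, 0x44a418446218446818e], [0,
    0x212214214e8218212228e4212242214e4e, 0x114114128e4112118114e8184142118e8e,
    0x112142124e8112112118e4184142118e4e, 0x414144422e8188418428e8118418414e8e], [0,
    0x24222828274284228242b8282244228d4e, 0, 0x14812218274124184142b8188142128d8e,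
    0x44414248478484428148b8444148428d8e]]

noncomputable def n3642 : Ent := ⟨e3642, noF, [], [], [(15, 10, [360035742630637297931254766822518807307257169425207333501493249, 0]), (12, 14, [385746751338780685620664494392815470296102193487288376387403777, 0]), (11, 13, [385753028440516072301428330182238677962518295842732840421920769, 0])]⟩

def c3642 : PLift (Cov.check n3642.C.D v3642 = true) := ⟨by decide +kernel⟩

def b3642 : PLift (entF (fidx ts) 400 3642 n3642 = true) := ⟨by decide +kernel⟩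

theorem g3642 : GoodF (fidx ts) 400 3642 := GoodF.ofV v3642 n3642 c3642.down b3642.down

/-- 586444:2728/2 -/
noncomputable def e3643 : SCfg where
  D := {
    a := 6
    L := 9
    kp := 6
    inn := [(0, 1), (1, 0), (1, 3), (1, 5), (2, 3), (2, 4), (3, 1), (3, 2), (4, 2), (5, 1)]
    mix := [(0, 0), (0, 1), (0, 2), (0, 3), (1, 0), (1, 3), (1, 4), (1, 5), (1, 6), (2, 0), (2, 1), (2,
      4), (2, 7), (3, 0), (3, 4), (4, 4), (4, 6), (4, 7), (5, 3), (5, 5), (5, 8)]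
    cl := [0, 2, 6, 0, 0, 3, 1, 4, 5]
    chq := [(1, 2), (1, 5), (2, 1), (5, 1)]
    rng := [(0, 1), (1, 0), (1, 2), (1, 7), (2, 1), (2, 3), (3, 2), (3, 8), (4, 6), (5, 6), (5, 8), (6,
      4), (6, 5), (6, 7), (7, 1), (7, 6), (8, 3), (8, 5)]
    lev := [] }
  links := [[1, 6, 7, 8, 9], [10, 3, 6, 0, 9, 5, 11, 12], [7, 6, 3, 10, 4, 13], [6, 1, 10, 2], [2, 10,
    12, 13], [9, 14, 11, 1]]
  P := {
    a := 6
    N := 15
    nb := [962, 7785, 9432, 1094, 13316, 18946, 143, 8517, 641, 16675, 4126, 20514, 11282, 4244, 2592]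
    tri := [(0, 1, 6), (0, 1, 9), (0, 6, 7), (0, 7, 8), (0, 8, 9), (1, 3, 6), (1, 3, 10), (1, 5, 9),
      (1, 5, 11), (1, 10, 12), (1, 11, 12), (2, 3, 6), (2, 3, 10), (2, 4, 10), (2, 4, 13), (2, 6,
      7), (2, 7, 13), (4, 10, 12), (4, 12, 13), (5, 9, 14), (5, 11, 14)]
    fin := [0, 1, 2, 0, 2, 1, 0, 2, 8, 0, 0, 11, 12, 13, 1]
    chd := [(2, 12), (12, 1)]
    steps := [(0, 6), (0, 3), (0, 9), (0, 10), (1, 5), (1, 14), (2, 4), (2, 7)] }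
  rep := [0, 12, 2, 11, 13, 1, 8]

noncomputable def v3643 : Cov.CovD where
  P := 3
  N := 4
  pl := [2, 5, 7]
  lev := [⟨[], [], [(0, 0), (0, 2)], [6], [(0, 0, []), (1, 2, [1]), (3, 0, [])]⟩,
    ⟨[], [(0, 0), (0, 1), (0, 2)], [(0, 0), (0, 1)], [3], [(0, 0, []), (3, 0, []), (4, 0,
      []), (6, 1, [2, 5])]⟩,
    ⟨[], [(0, 0), (0, 2), (1, 0)], [(0, 0), (0, 2)], [4], [(0, 0, []), (1, 2, [1]), (4, 0,
      [])]⟩,
    ⟨[(0, 1), (1, 2)], [(0, 0), (1, 0), (1, 1), (2, 0), (2, 2)], [(0, 0)], [], [(0, 0, []),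
      (4, 0, [])]⟩,
    ⟨[(2, 3)], [(1, 0), (1, 1), (2, 0), (2, 1), (2, 2), (3, 0)], [(0, 1)], [4], [(4, 0,
      []), (6, 1, [2, 5])]⟩,
    ⟨[(0, 1), (1, 3)], [(0, 0), (1, 0), (1, 1), (1, 5)], [(0, 5)], [3], [(3, 0, []), (8, 5,
      [1])]⟩]
  Ta := [((0, 1), 0, 2), ((3, 2), 0, 6), ((3, 8), 0, 5), ((4, 6), 0, 1)]
  Tb := [((1, 0, 2), 2, 0, 6), ((1, 0, 7), 2, 0, 4), ((1, 2, 7), 2, 6, 4), ((2, 1, 3), 6, 2, 0),
    ((3, 2, 8), 0, 6, 5), ((5, 6, 8), 3, 1, 5), ((6, 4, 5), 1, 0, 3), ((6, 4, 7), 1, 0, 4),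
    ((6, 5, 7), 1, 3, 4), ((7, 1, 6), 4, 2, 1), ((8, 3, 5), 5, 0, 3)]
  Tc := [(1, 2, 5)]
  Td := [((1, 2), (6, 4), 0), ((1, 2), (6, 5), 3), ((1, 2), (6, 7), 4), ((1, 5), (6, 4), 0), ((1,
    5), (6, 5), 3), ((1, 5), (6, 7), 4), ((2, 1), (1, 0), 0), ((2, 1), (1, 2), 6), ((2, 1),
    (1, 7), 4), ((5, 1), (8, 3), 0), ((5, 1), (8, 5), 3)]
  G := [[0, 0, 0x21421424c21241122c18482188ce, 0x282114c128222cc2,
    0x282242a182144ac182218a284142aca], [0, 0, 0, 0x282228c282222cc2,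
    0x612242aa12e42ac684e44aa82248aca], [0, 0x182142c122142c6184148c182142ccc, 0,
    0x184242c228122cc2, 0x184244a284148ac284244a184148aca]]

noncomputable def n3643 : Ent := ⟨e3643, noF, [], [], []⟩

def c3643 : PLift (Cov.check n3643.C.D v3643 = true) := ⟨by decide +kernel⟩

def b3643 : PLift (entF (fidx ts) 400 3643 n3643 = true) := ⟨by decide +kernel⟩

theorem g3643 : GoodF (fidx ts) 400 3643 := GoodF.ofV v3643 n3643 c3643.down b3643.down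

/-- 586444:2728/1 -/
noncomputable def e3644 : SCfg where
  D := {
    a := 6
    L := 10
    kp := 7
    inn := [(0, 1), (1, 0), (1, 3), (1, 5), (2, 3), (2, 4), (3, 1), (3, 2), (4, 2), (5, 1)]
    mix := [(0, 0), (0, 1), (0, 2), (0, 3), (1, 0), (1, 3), (1, 4), (1, 5), (1, 6), (2, 0), (2, 1), (2,
      4), (2, 7), (3, 0), (3, 4), (4, 4), (4, 7), (4, 8), (5, 3), (5, 5), (5, 9)]
    cl := [0, 1, 7, 0, 0, 3, 2, 4, 5, 6]
    chq := [(1, 5), (2, 6), (5, 1), (6, 2)]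
    rng := [(0, 1), (1, 0), (1, 2), (1, 7), (2, 1), (2, 3), (3, 2), (3, 9), (4, 6), (4, 8), (5, 6), (5,
      9), (6, 4), (6, 5), (7, 1), (7, 8), (8, 4), (8, 7), (9, 3), (9, 5)]
    lev := [] }
  links := [[1, 6, 7, 8, 9], [10, 3, 6, 0, 9, 5, 11, 12], [7, 6, 3, 10, 4, 13], [6, 1, 10, 2], [2, 10,
    14, 13], [9, 15, 11, 1]]
  P := {
    a := 6
    N := 16
    nb := [962, 7785, 9432, 1094, 25604, 35330, 143, 8517, 641, 33059, 20510, 36898, 3074, 16532,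
      9232, 2592]
    tri := [(0, 1, 6), (0, 1, 9), (0, 6, 7), (0, 7, 8), (0, 8, 9), (1, 3, 6), (1, 3, 10), (1, 5, 9),
      (1, 5, 11), (1, 10, 12), (1, 11, 12), (2, 3, 6), (2, 3, 10), (2, 4, 10), (2, 4, 13), (2, 6,
      7), (2, 7, 13), (4, 10, 14), (4, 13, 14), (5, 9, 15), (5, 11, 15)]
    fin := [0, 1, 2, 0, 2, 1, 0, 2, 8, 0, 0, 11, 12, 13, 14, 1]
    chd := [(2, 14), (12, 1)]
    steps := [(0, 6), (0, 3), (0, 9), (0, 10), (1, 5), (1, 15), (2, 4), (2, 7)] }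
  rep := [0, 2, 12, 11, 13, 14, 1, 8]

noncomputable def v3644 : Cov.CovD where
  P := 3
  N := 5
  pl := [2, 5, 7]
  lev := [⟨[], [], [(0, 0), (0, 1)], [7], [(0, 0, []), (1, 1, [5]), (3, 0, [])]⟩,
    ⟨[], [(0, 0), (0, 1), (0, 2)], [(0, 0), (0, 2)], [3], [(0, 0, []), (3, 0, []), (4, 0,
      []), (6, 2, [6])]⟩,
    ⟨[], [(0, 0), (0, 1), (1, 0)], [(0, 0), (0, 1)], [4], [(0, 0, []), (1, 1, [5]), (4, 0,
      [])]⟩,
    ⟨[(0, 1), (1, 2)], [(0, 0), (1, 0), (1, 2), (2, 0), (2, 1)], [(0, 0)], [], [(0, 0, []),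
      (4, 0, [])]⟩,
    ⟨[(2, 3)], [(1, 0), (2, 0), (2, 1), (2, 5), (3, 0)], [(0, 5)], [4], [(4, 0, []), (8, 5,
      [1])]⟩,
    ⟨[(0, 1), (1, 3)], [(0, 0), (1, 0), (1, 2), (1, 6)], [(0, 6)], [3], [(3, 0, []), (9, 6,
      [2])]⟩]
  Ta := [((0, 1), 0, 1), ((3, 2), 0, 7), ((3, 9), 0, 6), ((4, 6), 0, 2), ((4, 8), 0, 5)]
  Tb := [((1, 0, 2), 1, 0, 7), ((1, 0, 7), 1, 0, 4), ((1, 2, 7), 1, 7, 4), ((2, 1, 3), 7, 1, 0),
    ((3, 2, 9), 0, 7, 6), ((4, 6, 8), 0, 2, 5), ((5, 6, 9), 3, 2, 6), ((6, 4, 5), 2, 0, 3),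
    ((7, 1, 8), 4, 1, 5), ((8, 4, 7), 5, 0, 4), ((9, 3, 5), 6, 0, 3)]
  Tc := []
  Td := [((1, 5), (1, 0), 0), ((1, 5), (1, 2), 7), ((1, 5), (1, 7), 4), ((2, 6), (6, 4), 0), ((2,
    6), (6, 5), 3), ((5, 1), (8, 4), 0), ((5, 1), (8, 7), 4), ((6, 2), (9, 3), 0), ((6, 2),
    (9, 5), 3)]
  G := [[0, 0x21481188c21441182c21821184ce, 0, 0x124114c228218cc212222c112128ccc,
    0x124112c428418ca414428c122114cac], [0, 0, 0, 0x224212c68328632cc622618ca28a12ccc,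
    0x614624cc12c28ca424412ce14e24cac], [0, 0, 0x116411a4c116211a8cc128111e8c111e2122c6c,
    0x11a41162c222e4228cc116421a4c228122e8ccc, 0x444e4422c11a21162ca44a21468c11a24162cac]]

noncomputable def n3644 : Ent := ⟨e3644, noF, [], [], [(12, 14, [385746751338780685620664494392815470296102193487288376387416065, 0])]⟩

def c3644 : PLift (Cov.check n3644.C.D v3644 = true) := ⟨by decide +kernel⟩

def b3644 : PLift (entF (fidx ts) 400 3644 n3644 = true) := ⟨by decide +kernel⟩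

theorem g3644 : GoodF (fidx ts) 400 3644 := GoodF.ofV v3644 n3644 c3644.down b3644.down

/-- 586444:2728/3 -/
noncomputable def e3645 : SCfg where
  D := {
    a := 6
    L := 10
    kp := 7
    inn := [(0, 1), (1, 0), (1, 3), (1, 5), (2, 3), (2, 4), (3, 1), (3, 2), (4, 2), (5, 1)]
    mix := [(0, 0), (0, 1), (0, 2), (0, 3), (1, 0), (1, 3), (1, 4), (1, 5), (1, 6), (2, 0), (2, 4), (2,
      7), (2, 8), (3, 0), (3, 4), (4, 4), (4, 8), (4, 9), (5, 3), (5, 5), (5, 8)]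
    cl := [0, 6, 7, 0, 0, 3, 4, 2, 1, 5]
    chq := [(1, 4), (2, 5), (4, 1), (5, 2)]
    rng := [(0, 1), (0, 7), (1, 0), (1, 2), (2, 1), (2, 3), (3, 2), (3, 8), (4, 6), (4, 9), (5, 6), (5,
      8), (6, 4), (6, 5), (7, 0), (7, 8), (8, 3), (8, 5), (8, 7), (8, 9), (9, 4), (9, 8)]
    lev := [] }
  links := [[1, 6, 7, 8, 9], [10, 3, 6, 0, 9, 5, 11, 12], [13, 6, 3, 10, 4, 14], [6, 1, 10, 2], [2, 10,
    15, 14], [9, 14, 11, 1]]
  P := {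
    a := 6
    N := 16
    nb := [962, 7785, 25688, 1094, 50180, 18946, 8335, 321, 641, 16675, 36894, 20514, 3074, 16452,
      43572, 17424]
    tri := [(0, 1, 6), (0, 1, 9), (0, 6, 7), (0, 7, 8), (0, 8, 9), (1, 3, 6), (1, 3, 10), (1, 5, 9),
      (1, 5, 11), (1, 10, 12), (1, 11, 12), (2, 3, 6), (2, 3, 10), (2, 4, 10), (2, 4, 14), (2, 6,
      13), (2, 13, 14), (4, 10, 15), (4, 14, 15), (5, 9, 14), (5, 11, 14)]
    fin := [0, 1, 2, 0, 2, 1, 0, 7, 8, 0, 0, 11, 12, 13, 1, 2]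
    chd := [(12, 1), (13, 2)]
    steps := [(0, 6), (0, 3), (0, 9), (0, 10), (1, 5), (1, 14), (2, 4), (2, 15)] }
  rep := [0, 1, 13, 11, 12, 2, 7, 8]

noncomputable def v3645 : Cov.CovD where
  P := 3
  N := 5
  pl := [1, 2, 5]
  lev := [⟨[], [], [(0, 0)], [6, 7], [(0, 0, []), (3, 0, [])]⟩,
    ⟨[], [(0, 0), (0, 4)], [(0, 0), (0, 4)], [3], [(0, 0, []), (3, 0, []), (4, 0, []), (6,
      4, [1])]⟩,
    ⟨[], [(0, 0), (1, 0)], [(0, 0), (0, 1), (0, 2), (1, 2)], [], [(0, 0, []), (4, 0, []),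
      (7, 2, [5]), (8, 1, [4])]⟩,
    ⟨[(0, 1), (1, 2)], [(0, 0), (1, 0), (1, 4), (2, 0), (2, 1), (2, 2)], [(0, 0)], [], [(0,
      0, []), (4, 0, [])]⟩,
    ⟨[(2, 3)], [(1, 0), (2, 0), (2, 1), (2, 2), (2, 5), (3, 0)], [(0, 1), (0, 5), (1, 5)],
      [], [(4, 0, []), (8, 1, [4]), (9, 5, [2])]⟩,
    ⟨[(0, 1), (1, 3)], [(0, 0), (1, 0), (1, 1), (1, 4), (2, 1), (4, 1)], [(0, 1)], [3],
      [(3, 0, []), (8, 1, [4])]⟩]
  Ta := [((0, 1), 0, 6), ((0, 7), 0, 2), ((3, 2), 0, 7), ((3, 8), 0, 1), ((4, 6), 0, 4), ((4, 9),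
    0, 5)]
  Tb := [((0, 1, 7), 0, 6, 2), ((1, 0, 2), 6, 0, 7), ((2, 1, 3), 7, 6, 0), ((3, 2, 8), 0, 7, 1),
    ((4, 6, 9), 0, 4, 5), ((5, 6, 8), 3, 4, 1), ((6, 4, 5), 4, 0, 3), ((7, 0, 8), 2, 0, 1),
    ((8, 3, 5), 1, 0, 3), ((8, 3, 7), 1, 0, 2), ((8, 3, 9), 1, 0, 5), ((8, 5, 7), 1, 3, 2),
    ((8, 5, 9), 1, 3, 5), ((8, 7, 9), 1, 2, 5), ((9, 4, 8), 5, 0, 1)]
  Tc := []
  Td := [((1, 4), (8, 3), 0), ((1, 4), (8, 5), 3), ((1, 4), (8, 7), 2), ((1, 4), (8, 9), 5), ((2,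
    5), (7, 0), 0), ((2, 5), (7, 8), 1), ((4, 1), (6, 4), 0), ((4, 1), (6, 5), 3), ((5, 2),
    (9, 4), 0), ((5, 2), (9, 8), 1)]
  G := [[0, 0, 0x414411485148e114881249184e814441881184ee, 0x918829188251482e,
    0x11484188c488e112881285488e112841285188ee], [0,
    0x624442242284e8224a2282288e82484228c288ee, 0, 0xc1482c1882c1882e,
    0x41288428c448e81488188c188e81284128c488ee], [0, 0, 0, 0x95c28259c242c5c482e,
    0x444884481448e144884289488e842844281488ee]]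

noncomputable def n3645 : Ent := ⟨e3645, noF, [], [], []⟩

def c3645 : PLift (Cov.check n3645.C.D v3645 = true) := ⟨by decide +kernel⟩

def b3645 : PLift (entF (fidx ts) 400 3645 n3645 = true) := ⟨by decide +kernel⟩

theorem g3645 : GoodF (fidx ts) 400 3645 := GoodF.ofV v3645 n3645 c3645.down b3645.down

/-- 586444:2728/4 -/
noncomputable def e3646 : SCfg where
  D := {
    a := 6
    L := 10
    kp := 7
    inn := [(0, 1), (1, 0), (1, 3), (1, 5), (2, 3), (2, 4), (3, 1), (3, 2), (4, 2), (5, 1)]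
    mix := [(0, 0), (0, 1), (0, 2), (0, 3), (1, 0), (1, 3), (1, 4), (1, 5), (1, 6), (2, 0), (2, 4), (2,
      7), (2, 8), (3, 0), (3, 4), (4, 4), (4, 6), (4, 8), (5, 3), (5, 5), (5, 9)]
    cl := [0, 6, 7, 0, 0, 2, 1, 4, 3, 5]
    chq := [(1, 4), (1, 5), (4, 1), (5, 1)]
    rng := [(0, 1), (0, 7), (1, 0), (1, 2), (2, 1), (2, 3), (3, 2), (3, 9), (4, 6), (5, 6), (5, 9), (6,
      4), (6, 5), (6, 8), (7, 0), (7, 8), (8, 6), (8, 7), (9, 3), (9, 5)]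
    lev := [] }
  links := [[1, 6, 7, 8, 9], [10, 3, 6, 0, 9, 5, 11, 12], [13, 6, 3, 10, 4, 14], [6, 1, 10, 2], [2, 10,
    12, 14], [9, 15, 11, 1]]
  P := {
    a := 6
    N := 16
    nb := [962, 7785, 25688, 1094, 21508, 35330, 8335, 321, 641, 33059, 4126, 36898, 19474, 16452,
      12308, 2592]
    tri := [(0, 1, 6), (0, 1, 9), (0, 6, 7), (0, 7, 8), (0, 8, 9), (1, 3, 6), (1, 3, 10), (1, 5, 9),
      (1, 5, 11), (1, 10, 12), (1, 11, 12), (2, 3, 6), (2, 3, 10), (2, 4, 10), (2, 4, 14), (2, 6,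
      13), (2, 13, 14), (4, 10, 12), (4, 12, 14), (5, 9, 15), (5, 11, 15)]
    fin := [0, 1, 2, 0, 2, 1, 0, 7, 8, 0, 0, 11, 2, 13, 14, 1]
    chd := [(2, 1), (2, 13)]
    steps := [(0, 6), (0, 3), (0, 9), (0, 10), (1, 5), (1, 15), (2, 4), (2, 12)] }
  rep := [0, 2, 11, 14, 13, 1, 7, 8]

noncomputable def v3646 : Cov.CovD where
  P := 3
  N := 5
  pl := [1, 2, 5, 8]
  lev := [⟨[], [], [(0, 0)], [6, 7], [(0, 0, []), (3, 0, [])]⟩,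
    ⟨[], [(0, 0), (0, 1)], [(0, 0), (0, 1)], [2], [(0, 0, []), (3, 0, []), (4, 0, []), (6,
      1, [4, 5])]⟩,
    ⟨[], [(0, 0), (1, 0)], [(0, 0), (0, 4)], [3], [(0, 0, []), (4, 0, []), (7, 4, [1])]⟩,
    ⟨[(0, 1), (1, 2)], [(0, 0), (1, 0), (1, 1), (2, 0), (2, 4)], [(0, 0)], [], [(0, 0, []),
      (4, 0, [])]⟩,
    ⟨[(2, 3)], [(1, 0), (1, 1), (2, 0), (2, 1), (2, 4), (3, 0)], [(0, 1)], [3], [(4, 0,
      []), (6, 1, [4, 5])]⟩,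
    ⟨[(0, 1), (1, 3)], [(0, 0), (1, 0), (1, 1), (1, 5)], [(0, 5)], [2], [(3, 0, []), (9, 5,
      [1])]⟩]
  Ta := [((0, 1), 0, 6), ((0, 7), 0, 4), ((3, 2), 0, 7), ((3, 9), 0, 5), ((4, 6), 0, 1)]
  Tb := [((0, 1, 7), 0, 6, 4), ((1, 0, 2), 6, 0, 7), ((2, 1, 3), 7, 6, 0), ((3, 2, 9), 0, 7, 5),
    ((5, 6, 9), 2, 1, 5), ((6, 4, 5), 1, 0, 2), ((6, 4, 8), 1, 0, 3), ((6, 5, 8), 1, 2, 3),
    ((7, 0, 8), 4, 0, 3), ((8, 6, 7), 3, 1, 4), ((9, 3, 5), 5, 0, 2)]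
  Tc := [(1, 4, 5)]
  Td := [((1, 4), (6, 4), 0), ((1, 4), (6, 5), 2), ((1, 4), (6, 8), 3), ((1, 5), (6, 4), 0), ((1,
    5), (6, 5), 2), ((1, 5), (6, 8), 3), ((4, 1), (7, 0), 0), ((4, 1), (7, 8), 3), ((5, 1),
    (9, 3), 0), ((5, 1), (9, 5), 2)]
  G := [[0, 0, 0x282242212e8248288218e421228222c4e8e, 0x11582411c228115824e,
    0x18224221c4e8244184114e8282142114e8e], [0, 0, 0x242284214e8282282218e8284248212e8e,
    0xcc9824ccc228cc5428e, 0x24228422c4e8242248218e8244288214e8e], [0,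
    0x184148128e4184142124e8184142124e8e, 0x24828222c8e428224222c4e824828822c4e4e,
    0x11c82411c82411c228e, 0x24418222c4e814424221c4e814428411c4e8e]]

noncomputable def n3646 : Ent := ⟨e3646, noF, [], [], [(7, 13, [385753028440516072301428330182238677962518295842732840421928961, 0])]⟩

def c3646 : PLift (Cov.check n3646.C.D v3646 = true) := ⟨by decide +kernel⟩

def b3646 : PLift (entF (fidx ts) 400 3646 n3646 = true) := ⟨by decide +kernel⟩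

theorem g3646 : GoodF (fidx ts) 400 3646 := GoodF.ofV v3646 n3646 c3646.down b3646.down

/-- 586444:2728 -/
noncomputable def e3647 : SCfg where
  D := {
    a := 6
    L := 11
    kp := 8
    inn := [(0, 1), (1, 0), (1, 3), (1, 5), (2, 3), (2, 4), (3, 1), (3, 2), (4, 2), (5, 1)]
    mix := [(0, 0), (0, 1), (0, 2), (0, 3), (1, 0), (1, 3), (1, 4), (1, 5), (1, 6), (2, 0), (2, 4), (2,
      7), (2, 8), (3, 0), (3, 4), (4, 4), (4, 8), (4, 9), (5, 3), (5, 5), (5, 10)]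
    cl := [0, 7, 8, 0, 0, 3, 1, 2, 4, 5, 6]
    chq := [(1, 6), (2, 5), (5, 2), (6, 1)]
    rng := [(0, 1), (0, 7), (1, 0), (1, 2), (2, 1), (2, 3), (3, 2), (3, 10), (4, 6), (4, 9), (5, 6),
      (5, 10), (6, 4), (6, 5), (7, 0), (7, 8), (8, 7), (8, 9), (9, 4), (9, 8), (10, 3), (10, 5)]
    lev := [] }
  links := [[1, 6, 7, 8, 9], [10, 3, 6, 0, 9, 5, 11, 12], [13, 6, 3, 10, 4, 14], [6, 1, 10, 2], [2, 10,
    15, 14], [9, 16, 11, 1]]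
  P := {
    a := 6
    N := 17
    nb := [962, 7785, 25688, 1094, 50180, 68098, 8335, 321, 641, 65827, 36894, 69666, 3074, 16452,
      40980, 17424, 2592]
    tri := [(0, 1, 6), (0, 1, 9), (0, 6, 7), (0, 7, 8), (0, 8, 9), (1, 3, 6), (1, 3, 10), (1, 5, 9),
      (1, 5, 11), (1, 10, 12), (1, 11, 12), (2, 3, 6), (2, 3, 10), (2, 4, 10), (2, 4, 14), (2, 6,
      13), (2, 13, 14), (4, 10, 15), (4, 14, 15), (5, 9, 16), (5, 11, 16)]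
    fin := [0, 1, 2, 0, 2, 1, 0, 7, 8, 0, 0, 11, 12, 13, 14, 2, 1]
    chd := [(12, 1), (13, 2)]
    steps := [(0, 6), (0, 3), (0, 9), (0, 10), (1, 5), (1, 16), (2, 4), (2, 15)] }
  rep := [0, 12, 13, 11, 14, 2, 1, 7, 8]

noncomputable def v3647 : Cov.CovD where
  P := 3
  N := 6
  pl := [1, 2, 5, 8]
  lev := [⟨[], [], [(0, 0)], [7, 8], [(0, 0, []), (3, 0, [])]⟩,
    ⟨[], [(0, 0), (0, 1)], [(0, 0), (0, 1)], [3], [(0, 0, []), (3, 0, []), (4, 0, []), (6,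
      1, [6])]⟩,
    ⟨[], [(0, 0), (1, 0)], [(0, 0), (0, 2)], [4], [(0, 0, []), (4, 0, []), (7, 2, [5])]⟩,
    ⟨[(0, 1), (1, 2)], [(0, 0), (1, 0), (1, 1), (2, 0), (2, 2)], [(0, 0)], [], [(0, 0, []),
      (4, 0, [])]⟩,
    ⟨[(2, 3)], [(1, 0), (2, 0), (2, 2), (2, 5), (3, 0)], [(0, 5)], [4], [(4, 0, []), (9, 5,
      [2])]⟩,
    ⟨[(0, 1), (1, 3)], [(0, 0), (1, 0), (1, 1), (1, 6)], [(0, 6)], [3], [(3, 0, []), (10,
      6, [1])]⟩]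
  Ta := [((0, 1), 0, 7), ((0, 7), 0, 2), ((3, 2), 0, 8), ((3, 10), 0, 6), ((4, 6), 0, 1), ((4,
    9), 0, 5)]
  Tb := [((0, 1, 7), 0, 7, 2), ((1, 0, 2), 7, 0, 8), ((2, 1, 3), 8, 7, 0), ((3, 2, 10), 0, 8, 6),
    ((4, 6, 9), 0, 1, 5), ((5, 6, 10), 3, 1, 6), ((6, 4, 5), 1, 0, 3), ((7, 0, 8), 2, 0, 4),
    ((8, 7, 9), 4, 2, 5), ((9, 4, 8), 5, 0, 4), ((10, 3, 5), 6, 0, 3)]
  Tc := []
  Td := [((1, 6), (6, 4), 0), ((1, 6), (6, 5), 3), ((2, 5), (7, 0), 0), ((2, 5), (7, 8), 4), ((5,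
    2), (9, 4), 0), ((5, 2), (9, 8), 4), ((6, 1), (10, 3), 0), ((6, 1), (10, 5), 3)]
  G := [[0, 0, 0x214112c212318ac112114c212212ac21211861182186ce,
    0x212224c118128cc224218c112122cc214228c112128cce,
    0x112142a242214ac114142a248218ac112148a212248ace], [0, 0, 0,
    0x214224ce12e28cce12e24c212228cc214a22cc121c622cce,
    0x242214ae48e12ace42e12a218242ac212644ae18a42ace], [0,
    0x11a41162c124111e2ca116411a8c11a21162cc111e4128c111e4124c6e, 0,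
    0x11a42262c22a21162cc21a22168c12a21262cc11a21162c22a42262cce,
    0x122e2244a21c41164ac22c22168a11c21268ac12c42264a211e4148ace]]

noncomputable def n3647 : Ent := ⟨e3647, noF, [], [], [(7, 13, [1685382419725355503238989871268909155780284044704628512909414350849, 0]), (16, 14, [1580095832788404724998799751142926758855362888449624481876433686529, 0]), (12, 15, [1685356702439545624007900436039642273970977273354372543760015024129, 0])]⟩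

def c3647 : PLift (Cov.check n3647.C.D v3647 = true) := ⟨by decide +kernel⟩

def b3647 : PLift (entF (fidx ts) 400 3647 n3647 = true) := ⟨by decide +kernel⟩

theorem g3647 : GoodF (fidx ts) 400 3647 := GoodF.ofV v3647 n3647 c3647.down b3647.down

/-- 586444:2729/2 -/
noncomputable def e3648 : SCfg where
  D := {
    a := 6
    L := 9
    kp := 6
    inn := [(0, 1), (1, 0), (1, 3), (1, 5), (2, 3), (2, 4), (3, 1), (3, 2), (4, 2), (5, 1)]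
    mix := [(0, 0), (0, 1), (0, 2), (0, 3), (1, 0), (1, 3), (1, 4), (1, 5), (1, 6), (2, 0), (2, 1), (2,
      2), (2, 4), (3, 0), (3, 4), (4, 2), (4, 4), (4, 7), (5, 5), (5, 6), (5, 8)]
    cl := [0, 2, 1, 0, 0, 3, 4, 5, 6]
    chq := [(0, 6), (2, 5), (5, 2), (6, 0)]
    rng := [(0, 1), (1, 0), (1, 2), (2, 1), (2, 3), (2, 7), (3, 2), (3, 5), (4, 6), (4, 7), (5, 3), (5,
      8), (6, 4), (6, 8), (7, 2), (7, 4), (8, 5), (8, 6)]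
    lev := [] }
  links := [[1, 6, 7, 8, 9], [10, 3, 6, 0, 9, 11, 5, 12], [7, 6, 3, 10, 4, 8], [6, 1, 10, 2], [2, 10, 13,
    8], [1, 11, 14, 12]]
  P := {
    a := 6
    N := 15
    nb := [962, 7785, 1496, 1094, 9476, 22530, 143, 325, 8853, 2307, 12318, 16930, 17442, 1296, 6176]
    tri := [(0, 1, 6), (0, 1, 9), (0, 6, 7), (0, 7, 8), (0, 8, 9), (1, 3, 6), (1, 3, 10), (1, 5, 11),
      (1, 5, 12), (1, 9, 11), (1, 10, 12), (2, 3, 6), (2, 3, 10), (2, 4, 8), (2, 4, 10), (2, 6,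
      7), (2, 7, 8), (4, 8, 13), (4, 10, 13), (5, 11, 14), (5, 12, 14)]
    fin := [0, 0, 2, 0, 2, 0, 0, 2, 8, 0, 0, 11, 12, 13, 14]
    chd := [(0, 14), (2, 13)]
    steps := [(0, 1), (0, 3), (0, 5), (0, 6), (0, 9), (0, 10), (2, 4), (2, 7)] }
  rep := [0, 8, 2, 11, 12, 13, 14]

noncomputable def v3648 : Cov.CovD where
  P := 3
  N := 4
  pl := [2, 5, 6]
  lev := [⟨[], [], [(0, 0), (0, 2)], [1], [(0, 0, [6]), (1, 2, [5]), (3, 0, [6])]⟩,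
    ⟨[], [(0, 0), (0, 2)], [(0, 0)], [3, 4], [(0, 0, [6]), (3, 0, [6]), (4, 0, [6])]⟩,
    ⟨[], [(0, 0), (0, 2), (1, 0)], [(0, 0), (0, 2)], [1], [(0, 0, [6]), (1, 2, [5]), (4, 0,
      [6])]⟩,
    ⟨[(0, 1), (1, 2)], [(0, 0), (1, 0), (2, 0), (2, 2)], [(0, 0)], [], [(0, 0, [6]), (4, 0,
      [6])]⟩,
    ⟨[(2, 3)], [(1, 0), (2, 0), (2, 2), (2, 5), (3, 0)], [(0, 5)], [1], [(4, 0, [6]), (7,
      5, [2])]⟩,
    ⟨[(0, 1), (1, 3)], [(1, 0), (1, 6)], [], [3, 4], [(8, 6, [0])]⟩]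
  Ta := [((0, 1), 0, 2), ((3, 2), 0, 1), ((3, 5), 0, 3), ((4, 6), 0, 4), ((4, 7), 0, 5)]
  Tb := [((1, 0, 2), 2, 0, 1), ((2, 1, 3), 1, 2, 0), ((2, 1, 7), 1, 2, 5), ((2, 3, 7), 1, 0, 5),
    ((3, 2, 5), 0, 1, 3), ((4, 6, 7), 0, 4, 5), ((5, 3, 8), 3, 0, 6), ((6, 4, 8), 4, 0, 6),
    ((7, 2, 4), 5, 1, 0), ((8, 5, 6), 6, 3, 4)]
  Tc := []
  Td := [((0, 6), (0, 1), 2), ((0, 6), (3, 2), 1), ((0, 6), (3, 5), 3), ((0, 6), (4, 6), 4), ((0,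
    6), (4, 7), 5), ((2, 5), (1, 0), 0), ((2, 5), (1, 2), 1), ((5, 2), (7, 2), 1), ((5, 2),
    (7, 4), 0), ((6, 0), (8, 5), 3), ((6, 0), (8, 6), 4)]
  G := [[0, 0, 0x114811841144e4, 0x112411241148e4, 0x142811881128e8], [0, 0x124412841224e8, 0,
    0xd12811247148e4, 0x1448d488b488e8], [0, 0, 0, 0xddc4811c287478c8e4, 0x54489448f448e8]]

noncomputable def n3648 : Ent := ⟨e3648, noF, [], [], []⟩

def c3648 : PLift (Cov.check n3648.C.D v3648 = true) := ⟨by decide +kernel⟩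

def b3648 : PLift (entF (fidx ts) 400 3648 n3648 = true) := ⟨by decide +kernel⟩

theorem g3648 : GoodF (fidx ts) 400 3648 := GoodF.ofV v3648 n3648 c3648.down b3648.down

/-- 586444:2729/4 -/
noncomputable def e3649 : SCfg where
  D := {
    a := 6
    L := 8
    kp := 5
    inn := [(0, 1), (1, 0), (1, 3), (1, 5), (2, 3), (2, 4), (3, 1), (3, 2), (4, 2), (5, 1)]
    mix := [(0, 0), (0, 1), (0, 2), (0, 3), (1, 0), (1, 3), (1, 4), (1, 5), (1, 6), (2, 0), (2, 1), (2,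
      4), (2, 7), (3, 0), (3, 4), (4, 4), (4, 6), (4, 7), (5, 5), (5, 6), (5, 7)]
    cl := [0, 2, 5, 0, 0, 4, 1, 3]
    chq := [(0, 3), (1, 2), (2, 1), (3, 0)]
    rng := [(0, 1), (1, 0), (1, 2), (1, 7), (2, 1), (2, 3), (3, 2), (3, 5), (4, 6), (5, 3), (5, 7), (6,
      4), (6, 7), (7, 1), (7, 5), (7, 6)]
    lev := [] }
  links := [[1, 6, 7, 8, 9], [10, 3, 6, 0, 9, 11, 5, 12], [7, 6, 3, 10, 4, 13], [6, 1, 10, 2], [2, 10,
    12, 13], [1, 11, 13, 12]]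
  P := {
    a := 6
    N := 14
    nb := [962, 7785, 9432, 1094, 13316, 14338, 143, 8517, 641, 2307, 4126, 8738, 9266, 6324]
    tri := [(0, 1, 6), (0, 1, 9), (0, 6, 7), (0, 7, 8), (0, 8, 9), (1, 3, 6), (1, 3, 10), (1, 5, 11),
      (1, 5, 12), (1, 9, 11), (1, 10, 12), (2, 3, 6), (2, 3, 10), (2, 4, 10), (2, 4, 13), (2, 6,
      7), (2, 7, 13), (4, 10, 12), (4, 12, 13), (5, 11, 13), (5, 12, 13)]
    fin := [0, 0, 2, 0, 2, 0, 0, 2, 8, 0, 0, 11, 12, 13]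
    chd := [(0, 13), (2, 12)]
    steps := [(0, 1), (0, 3), (0, 5), (0, 6), (0, 9), (0, 10), (2, 4), (2, 7)] }
  rep := [0, 12, 2, 13, 11, 8]

noncomputable def v3649 : Cov.CovD where
  P := 3
  N := 3
  pl := [2, 5]
  lev := [⟨[], [], [(0, 0), (0, 2)], [5], [(0, 0, [3]), (1, 2, [1]), (3, 0, [3])]⟩,
    ⟨[], [(0, 0), (0, 1), (0, 2)], [(0, 0), (0, 1)], [4], [(0, 0, [3]), (3, 0, [3]), (4, 0,
      [3]), (6, 1, [2])]⟩,
    ⟨[], [(0, 0), (0, 2), (1, 0)], [(0, 0), (0, 2), (0, 3), (2, 3)], [], [(0, 0, [3]), (1,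
      2, [1]), (4, 0, [3]), (7, 3, [0])]⟩,
    ⟨[(0, 1), (1, 2)], [(0, 0), (1, 0), (1, 1), (2, 0), (2, 2), (2, 3)], [(0, 0)], [], [(0,
      0, [3]), (4, 0, [3])]⟩,
    ⟨[(2, 3)], [(1, 0), (1, 1), (2, 0), (2, 1), (2, 2), (2, 3), (3, 0)], [(0, 1), (0, 3),
      (1, 3)], [], [(4, 0, [3]), (6, 1, [2]), (7, 3, [0])]⟩,
    ⟨[(0, 1), (1, 3)], [(1, 0), (1, 1), (1, 3), (2, 3), (4, 1), (4, 3)], [(1, 3)], [4],
      [(6, 1, [2]), (7, 3, [0])]⟩]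
  Ta := [((0, 1), 0, 2), ((3, 2), 0, 5), ((3, 5), 0, 4), ((4, 6), 0, 1)]
  Tb := [((1, 0, 2), 2, 0, 5), ((1, 0, 7), 2, 0, 3), ((1, 2, 7), 2, 5, 3), ((2, 1, 3), 5, 2, 0),
    ((3, 2, 5), 0, 5, 4), ((5, 3, 7), 4, 0, 3), ((6, 4, 7), 1, 0, 3), ((7, 1, 5), 3, 2, 4),
    ((7, 1, 6), 3, 2, 1), ((7, 5, 6), 3, 4, 1)]
  Tc := []
  Td := [((0, 3), (0, 1), 2), ((0, 3), (3, 2), 5), ((0, 3), (3, 5), 4), ((0, 3), (4, 6), 1), ((1,
    2), (6, 4), 0), ((1, 2), (6, 7), 3), ((2, 1), (1, 0), 0), ((2, 1), (1, 2), 5), ((2, 1),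
    (1, 7), 3), ((3, 0), (7, 1), 2), ((3, 0), (7, 5), 4), ((3, 0), (7, 6), 1)]
  G := [[0, 0, 0x18281484c11441182c11821188ce, 0x824142c118142cc2,
    0x182142a184412ac144148a182118aca], [0, 0, 0, 0x824212c124442cc2,
    0x182114a448d12ac882142a182412aca], [0, 0xa84442c882224c6882422c4268224cac, 0,
    0x284124c182128cc2, 0x184144a182142ac884142a184148aca]]

noncomputable def n3649 : Ent := ⟨e3649, noF, [], [], []⟩

def c3649 : PLift (Cov.check n3649.C.D v3649 = true) := ⟨by decide +kernel⟩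

def b3649 : PLift (entF (fidx ts) 400 3649 n3649 = true) := ⟨by decide +kernel⟩

theorem g3649 : GoodF (fidx ts) 400 3649 := GoodF.ofV v3649 n3649 c3649.down b3649.down

/-- 586444:2729/3 -/
noncomputable def e3650 : SCfg where
  D := {
    a := 6
    L := 9
    kp := 6
    inn := [(0, 1), (1, 0), (1, 3), (1, 5), (2, 3), (2, 4), (3, 1), (3, 2), (4, 2), (5, 1)]
    mix := [(0, 0), (0, 1), (0, 2), (0, 3), (1, 0), (1, 3), (1, 4), (1, 5), (1, 6), (2, 0), (2, 1), (2,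
      4), (2, 7), (3, 0), (3, 4), (4, 4), (4, 7), (4, 8), (5, 5), (5, 6), (5, 7)]
    cl := [0, 2, 5, 0, 0, 3, 4, 1, 6]
    chq := [(0, 1), (1, 0), (3, 4), (4, 3)]
    rng := [(0, 1), (1, 0), (1, 2), (1, 7), (2, 1), (2, 3), (3, 2), (3, 5), (4, 6), (4, 8), (5, 3), (5,
      7), (6, 4), (6, 7), (7, 1), (7, 5), (7, 6), (7, 8), (8, 4), (8, 7)]
    lev := [] }
  links := [[1, 6, 7, 8, 9], [10, 3, 6, 0, 9, 11, 5, 12], [7, 6, 3, 10, 4, 13], [6, 1, 10, 2], [2, 10,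
    14, 13], [1, 11, 13, 12]]
  P := {
    a := 6
    N := 15
    nb := [962, 7785, 9432, 1094, 25604, 14338, 143, 8517, 641, 2307, 20510, 8738, 9250, 22708, 9232]
    tri := [(0, 1, 6), (0, 1, 9), (0, 6, 7), (0, 7, 8), (0, 8, 9), (1, 3, 6), (1, 3, 10), (1, 5, 11),
      (1, 5, 12), (1, 9, 11), (1, 10, 12), (2, 3, 6), (2, 3, 10), (2, 4, 10), (2, 4, 13), (2, 6,
      7), (2, 7, 13), (4, 10, 14), (4, 13, 14), (5, 11, 13), (5, 12, 13)]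
    fin := [0, 0, 0, 0, 0, 5, 0, 7, 8, 0, 0, 5, 12, 13, 14]
    chd := [(0, 13), (5, 12)]
    steps := [(0, 1), (0, 3), (0, 6), (0, 2), (0, 4), (0, 9), (0, 10), (5, 11)] }
  rep := [0, 13, 7, 5, 12, 8, 14]

noncomputable def v3650 : Cov.CovD where
  P := 3
  N := 4
  pl := [1, 2, 8]
  lev := [⟨[], [], [(0, 0)], [2, 5], [(0, 0, [1]), (3, 0, [1])]⟩,
    ⟨[], [(0, 0), (0, 3), (0, 4)], [(0, 0), (0, 3), (0, 4), (3, 4)], [], [(0, 0, [1]), (3,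
      0, [1]), (4, 0, [1]), (5, 3, [4]), (6, 4, [3])]⟩,
    ⟨[], [(0, 0), (1, 0)], [(0, 0), (0, 1)], [2], [(0, 0, [1]), (4, 0, [1]), (7, 1, [0])]⟩,
    ⟨[(0, 1), (1, 2)], [(0, 0), (1, 0), (1, 3), (1, 4), (2, 0), (2, 1)], [(0, 0)], [], [(0,
      0, [1]), (4, 0, [1])]⟩,
    ⟨[(2, 3)], [(1, 0), (2, 0), (2, 1), (3, 0)], [(0, 1)], [6], [(4, 0, [1]), (7, 1, [0])]⟩,
    ⟨[(0, 1), (1, 3)], [(1, 0), (1, 1), (1, 3), (1, 4), (2, 1), (4, 1)], [(1, 3), (1, 4),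
      (3, 4)], [], [(5, 3, [4]), (6, 4, [3]), (7, 1, [0])]⟩]
  Ta := [((0, 1), 0, 2), ((3, 2), 0, 5), ((3, 5), 0, 3), ((4, 6), 0, 4), ((4, 8), 0, 6)]
  Tb := [((1, 0, 2), 2, 0, 5), ((1, 0, 7), 2, 0, 1), ((1, 2, 7), 2, 5, 1), ((2, 1, 3), 5, 2, 0),
    ((3, 2, 5), 0, 5, 3), ((4, 6, 8), 0, 4, 6), ((5, 3, 7), 3, 0, 1), ((6, 4, 7), 4, 0, 1),
    ((7, 1, 5), 1, 2, 3), ((7, 1, 6), 1, 2, 4), ((7, 1, 8), 1, 2, 6), ((7, 5, 6), 1, 3, 4),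
    ((7, 5, 8), 1, 3, 6), ((7, 6, 8), 1, 4, 6), ((8, 4, 7), 6, 0, 1)]
  Tc := []
  Td := [((0, 1), (0, 1), 2), ((0, 1), (3, 2), 5), ((0, 1), (3, 5), 3), ((0, 1), (4, 6), 4), ((0,
    1), (4, 8), 6), ((1, 0), (7, 1), 2), ((1, 0), (7, 5), 3), ((1, 0), (7, 6), 4), ((1, 0),
    (7, 8), 6), ((3, 4), (5, 3), 0), ((3, 4), (5, 7), 1), ((4, 3), (6, 4), 0), ((4, 3), (6,
    7), 1)]
  G := [[0, 0x11a481462412c84e11a4411c8422a44ec, 0x814811241144e114811241148e6, 0x1148211242c,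
    0x114841881148e114841281148ea], [0, 0x1162814a2822a44e18c281162811a28ec, 0,
    0xd1282d1482c, 0x112841289148e814841281188ea], [0, 0x11a4411a2811624e11a841162811a28ec,
    0, 0xddc242ddc242c, 0x11c4844c2899c28e88c4844c2811c48ea]]

noncomputable def n3650 : Ent := ⟨e3650, noF, [], [], [(12, 14, [81620716623019490593592230936445690773474979418095898333185, 0])]⟩

def c3650 : PLift (Cov.check n3650.C.D v3650 = true) := ⟨by decide +kernel⟩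

def b3650 : PLift (entF (fidx ts) 400 3650 n3650 = true) := ⟨by decide +kernel⟩

theorem g3650 : GoodF (fidx ts) 400 3650 := GoodF.ofV v3650 n3650 c3650.down b3650.down

/-- 586444:2729/5 -/
noncomputable def e3651 : SCfg where
  D := {
    a := 6
    L := 9
    kp := 6
    inn := [(0, 1), (1, 0), (1, 3), (1, 5), (2, 3), (2, 4), (3, 1), (3, 2), (4, 2), (5, 1)]
    mix := [(0, 0), (0, 1), (0, 2), (0, 3), (1, 0), (1, 3), (1, 4), (1, 5), (1, 6), (2, 0), (2, 1), (2,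
      4), (2, 7), (3, 0), (3, 4), (4, 4), (4, 6), (4, 7), (5, 5), (5, 6), (5, 8)]
    cl := [0, 2, 6, 0, 0, 3, 1, 4, 5]
    chq := [(0, 5), (1, 2), (2, 1), (5, 0)]
    rng := [(0, 1), (1, 0), (1, 2), (1, 7), (2, 1), (2, 3), (3, 2), (3, 5), (4, 6), (5, 3), (5, 8), (6,
      4), (6, 7), (6, 8), (7, 1), (7, 6), (8, 5), (8, 6)]
    lev := [] }
  links := [[1, 6, 7, 8, 9], [10, 3, 6, 0, 9, 11, 5, 12], [7, 6, 3, 10, 4, 13], [6, 1, 10, 2], [2, 10,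
    12, 13], [1, 11, 14, 12]]
  P := {
    a := 6
    N := 15
    nb := [962, 7785, 9432, 1094, 13316, 22530, 143, 8517, 641, 2307, 4126, 16930, 25650, 4244, 6176]
    tri := [(0, 1, 6), (0, 1, 9), (0, 6, 7), (0, 7, 8), (0, 8, 9), (1, 3, 6), (1, 3, 10), (1, 5, 11),
      (1, 5, 12), (1, 9, 11), (1, 10, 12), (2, 3, 6), (2, 3, 10), (2, 4, 10), (2, 4, 13), (2, 6,
      7), (2, 7, 13), (4, 10, 12), (4, 12, 13), (5, 11, 14), (5, 12, 14)]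
    fin := [0, 0, 2, 0, 2, 0, 0, 2, 8, 0, 0, 11, 12, 13, 14]
    chd := [(0, 14), (2, 12)]
    steps := [(0, 1), (0, 3), (0, 5), (0, 6), (0, 9), (0, 10), (2, 4), (2, 7)] }
  rep := [0, 12, 2, 11, 13, 14, 8]

noncomputable def v3651 : Cov.CovD where
  P := 3
  N := 4
  pl := [2, 5, 7]
  lev := [⟨[], [], [(0, 0), (0, 2)], [6], [(0, 0, [5]), (1, 2, [1]), (3, 0, [5])]⟩,
    ⟨[], [(0, 0), (0, 1), (0, 2)], [(0, 0), (0, 1)], [3], [(0, 0, [5]), (3, 0, [5]), (4, 0,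
      [5]), (6, 1, [2])]⟩,
    ⟨[], [(0, 0), (0, 2), (1, 0)], [(0, 0), (0, 2)], [4], [(0, 0, [5]), (1, 2, [1]), (4, 0,
      [5])]⟩,
    ⟨[(0, 1), (1, 2)], [(0, 0), (1, 0), (1, 1), (2, 0), (2, 2)], [(0, 0)], [], [(0, 0,
      [5]), (4, 0, [5])]⟩,
    ⟨[(2, 3)], [(1, 0), (1, 1), (2, 0), (2, 1), (2, 2), (3, 0)], [(0, 1)], [4], [(4, 0,
      [5]), (6, 1, [2])]⟩,
    ⟨[(0, 1), (1, 3)], [(1, 0), (1, 1), (1, 5), (4, 1)], [(1, 5)], [3], [(6, 1, [2]), (8,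
      5, [0])]⟩]
  Ta := [((0, 1), 0, 2), ((3, 2), 0, 6), ((3, 5), 0, 3), ((4, 6), 0, 1)]
  Tb := [((1, 0, 2), 2, 0, 6), ((1, 0, 7), 2, 0, 4), ((1, 2, 7), 2, 6, 4), ((2, 1, 3), 6, 2, 0),
    ((3, 2, 5), 0, 6, 3), ((5, 3, 8), 3, 0, 5), ((6, 4, 7), 1, 0, 4), ((6, 4, 8), 1, 0, 5),
    ((6, 7, 8), 1, 4, 5), ((7, 1, 6), 4, 2, 1), ((8, 5, 6), 5, 3, 1)]
  Tc := []
  Td := [((0, 5), (0, 1), 2), ((0, 5), (3, 2), 6), ((0, 5), (3, 5), 3), ((0, 5), (4, 6), 1), ((1,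
    2), (6, 4), 0), ((1, 2), (6, 7), 4), ((1, 2), (6, 8), 5), ((2, 1), (1, 0), 0), ((2, 1),
    (1, 2), 6), ((2, 1), (1, 7), 4), ((5, 0), (8, 5), 3), ((5, 0), (8, 6), 1)]
  G := [[0, 0, 0x18281828c11841182c11221424ce, 0x182128c122122cc2,
    0x114142a182142ac184118a148118aca], [0, 0, 0, 0x182248c284122cc2,
    0x584114a982d48ac182944ad82512aca], [0, 0xc82c48ca84a28c6c84c42c628648cac, 0,
    0x182122c122128cc2, 0x184144a184148ac184142a184142aca]]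

noncomputable def n3651 : Ent := ⟨e3651, noF, [], [], [(14, 13, [87897818358406171357428020359653357189577334862559932846081, 0])]⟩

def c3651 : PLift (Cov.check n3651.C.D v3651 = true) := ⟨by decide +kernel⟩

def b3651 : PLift (entF (fidx ts) 400 3651 n3651 = true) := ⟨by decide +kernel⟩

theorem g3651 : GoodF (fidx ts) 400 3651 := GoodF.ofV v3651 n3651 c3651.down b3651.down

/-- 586444:2729/1 -/
noncomputable def e3652 : SCfg where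
  D := {
    a := 6
    L := 10
    kp := 7
    inn := [(0, 1), (1, 0), (1, 3), (1, 5), (2, 3), (2, 4), (3, 1), (3, 2), (4, 2), (5, 1)]
    mix := [(0, 0), (0, 1), (0, 2), (0, 3), (1, 0), (1, 3), (1, 4), (1, 5), (1, 6), (2, 0), (2, 1), (2,
      4), (2, 7), (3, 0), (3, 4), (4, 4), (4, 7), (4, 8), (5, 5), (5, 6), (5, 9)]
    cl := [0, 1, 7, 0, 0, 2, 3, 4, 5, 6]
    chq := [(0, 6), (1, 5), (5, 1), (6, 0)]
    rng := [(0, 1), (1, 0), (1, 2), (1, 7), (2, 1), (2, 3), (3, 2), (3, 5), (4, 6), (4, 8), (5, 3), (5,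
      9), (6, 4), (6, 9), (7, 1), (7, 8), (8, 4), (8, 7), (9, 5), (9, 6)]
    lev := [] }
  links := [[1, 6, 7, 8, 9], [10, 3, 6, 0, 9, 11, 5, 12], [7, 6, 3, 10, 4, 13], [6, 1, 10, 2], [2, 10,
    14, 13], [1, 11, 15, 12]]
  P := {
    a := 6
    N := 16
    nb := [962, 7785, 9432, 1094, 25604, 38914, 143, 8517, 641, 2307, 20510, 33314, 33826, 16532,
      9232, 6176]
    tri := [(0, 1, 6), (0, 1, 9), (0, 6, 7), (0, 7, 8), (0, 8, 9), (1, 3, 6), (1, 3, 10), (1, 5, 11),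
      (1, 5, 12), (1, 9, 11), (1, 10, 12), (2, 3, 6), (2, 3, 10), (2, 4, 10), (2, 4, 13), (2, 6,
      7), (2, 7, 13), (4, 10, 14), (4, 13, 14), (5, 11, 15), (5, 12, 15)]
    fin := [0, 0, 2, 0, 2, 0, 0, 2, 8, 0, 0, 11, 12, 13, 14, 15]
    chd := [(0, 15), (2, 14)]
    steps := [(0, 1), (0, 3), (0, 5), (0, 6), (0, 9), (0, 10), (2, 4), (2, 7)] }
  rep := [0, 2, 11, 12, 13, 14, 15, 8]

noncomputable def v3652 : Cov.CovD where
  P := 3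
  N := 5
  pl := [2, 5, 6, 7]
  lev := [⟨[], [], [(0, 0), (0, 1)], [7], [(0, 0, [6]), (1, 1, [5]), (3, 0, [6])]⟩,
    ⟨[], [(0, 0), (0, 1)], [(0, 0)], [2, 3], [(0, 0, [6]), (3, 0, [6]), (4, 0, [6])]⟩,
    ⟨[], [(0, 0), (0, 1), (1, 0)], [(0, 0), (0, 1)], [4], [(0, 0, [6]), (1, 1, [5]), (4, 0,
      [6])]⟩,
    ⟨[(0, 1), (1, 2)], [(0, 0), (1, 0), (2, 0), (2, 1)], [(0, 0)], [], [(0, 0, [6]), (4, 0,
      [6])]⟩,
    ⟨[(2, 3)], [(1, 0), (2, 0), (2, 1), (2, 5), (3, 0)], [(0, 5)], [4], [(4, 0, [6]), (8,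
      5, [1])]⟩,
    ⟨[(0, 1), (1, 3)], [(1, 0), (1, 6)], [], [2, 3], [(9, 6, [0])]⟩]
  Ta := [((0, 1), 0, 1), ((3, 2), 0, 7), ((3, 5), 0, 2), ((4, 6), 0, 3), ((4, 8), 0, 5)]
  Tb := [((1, 0, 2), 1, 0, 7), ((1, 0, 7), 1, 0, 4), ((1, 2, 7), 1, 7, 4), ((2, 1, 3), 7, 1, 0),
    ((3, 2, 5), 0, 7, 2), ((4, 6, 8), 0, 3, 5), ((5, 3, 9), 2, 0, 6), ((6, 4, 9), 3, 0, 6),
    ((7, 1, 8), 4, 1, 5), ((8, 4, 7), 5, 0, 4), ((9, 5, 6), 6, 2, 3)]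
  Tc := []
  Td := [((0, 6), (0, 1), 1), ((0, 6), (3, 2), 7), ((0, 6), (3, 5), 2), ((0, 6), (4, 6), 3), ((0,
    6), (4, 8), 5), ((1, 5), (1, 0), 0), ((1, 5), (1, 2), 7), ((1, 5), (1, 7), 4), ((5, 1),
    (8, 4), 0), ((5, 1), (8, 7), 4), ((6, 0), (9, 5), 2), ((6, 0), (9, 6), 3)]
  G := [[0, 0x11421128c11441122c11481184ce, 0, 0x124112c124118cc124112c118128ccc,
    0x112122c128118ca122114c118124cac], [0, 0, 0xc12c22ca18a24c6c24c14c618628cac,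
    0x122114c118122cc122114c128118ccc, 0x114124c114128ca114124c124112cac], [0, 0, 0,
    0x55a45562c999e4928ccd5a4dd62c196211a2ccc, 0x313e4122c9b9e4b24ca313e4b24c99a2b168cac]]

noncomputable def n3652 : Ent := ⟨e3652, noF, [], [], [(8, 13, [385753028440516072301428330182238677962518295842732840421949441, 0]), (15, 13, [360048296834107614573520772494203283988579150297652619091648513, 0]), (12, 14, [385746751338780685620664494392815470296102193487288376387448833, 0])]⟩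

def c3652 : PLift (Cov.check n3652.C.D v3652 = true) := ⟨by decide +kernel⟩

def b3652 : PLift (entF (fidx ts) 400 3652 n3652 = true) := ⟨by decide +kernel⟩

theorem g3652 : GoodF (fidx ts) 400 3652 := GoodF.ofV v3652 n3652 c3652.down b3652.down

/-- 586444:2729/6 -/
noncomputable def e3653 : SCfg where
  D := {
    a := 6
    L := 10
    kp := 7
    inn := [(0, 1), (1, 0), (1, 3), (1, 5), (2, 3), (2, 4), (3, 1), (3, 2), (4, 2), (5, 1)]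
    mix := [(0, 0), (0, 1), (0, 2), (0, 3), (1, 0), (1, 3), (1, 4), (1, 5), (1, 6), (2, 0), (2, 2), (2,
      4), (2, 7), (3, 0), (3, 4), (4, 2), (4, 4), (4, 8), (5, 5), (5, 6), (5, 9)]
    cl := [0, 7, 1, 0, 0, 3, 4, 2, 5, 6]
    chq := [(0, 6), (2, 5), (5, 2), (6, 0)]
    rng := [(0, 1), (0, 7), (1, 0), (1, 2), (2, 1), (2, 3), (2, 7), (2, 8), (3, 2), (3, 5), (4, 6), (4,
      8), (5, 3), (5, 9), (6, 4), (6, 9), (7, 0), (7, 2), (8, 2), (8, 4), (9, 5), (9, 6)]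
    lev := [] }
  links := [[1, 6, 7, 8, 9], [10, 3, 6, 0, 9, 11, 5, 12], [13, 6, 3, 10, 4, 8], [6, 1, 10, 2], [2, 10,
    14, 8], [1, 11, 15, 12]]
  P := {
    a := 6
    N := 16
    nb := [962, 7785, 9560, 1094, 17668, 38914, 8335, 321, 25237, 2307, 20510, 33314, 33826, 324,
      1296, 6176]
    tri := [(0, 1, 6), (0, 1, 9), (0, 6, 7), (0, 7, 8), (0, 8, 9), (1, 3, 6), (1, 3, 10), (1, 5, 11),
      (1, 5, 12), (1, 9, 11), (1, 10, 12), (2, 3, 6), (2, 3, 10), (2, 4, 8), (2, 4, 10), (2, 6,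
      13), (2, 8, 13), (4, 8, 14), (4, 10, 14), (5, 11, 15), (5, 12, 15)]
    fin := [0, 0, 2, 0, 2, 0, 0, 7, 8, 0, 0, 11, 12, 13, 2, 15]
    chd := [(0, 15), (13, 2)]
    steps := [(0, 1), (0, 3), (0, 5), (0, 6), (0, 9), (0, 10), (2, 4), (2, 14)] }
  rep := [0, 8, 13, 11, 12, 2, 15, 7]

noncomputable def v3653 : Cov.CovD where
  P := 3
  N := 5
  pl := [1, 2, 5, 6]
  lev := [⟨[], [], [(0, 0)], [1, 7], [(0, 0, [6]), (3, 0, [6])]⟩,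
    ⟨[], [(0, 0)], [(0, 0)], [3, 4], [(0, 0, [6]), (3, 0, [6]), (4, 0, [6])]⟩,
    ⟨[], [(0, 0), (1, 0)], [(0, 0), (0, 2)], [1], [(0, 0, [6]), (4, 0, [6]), (7, 2, [5])]⟩,
    ⟨[(0, 1), (1, 2)], [(0, 0), (1, 0), (2, 0), (2, 2)], [(0, 0)], [], [(0, 0, [6]), (4, 0,
      [6])]⟩,
    ⟨[(2, 3)], [(1, 0), (2, 0), (2, 2), (2, 5), (3, 0)], [(0, 5)], [1], [(4, 0, [6]), (8,
      5, [2])]⟩,
    ⟨[(0, 1), (1, 3)], [(1, 0), (1, 6)], [], [3, 4], [(9, 6, [0])]⟩]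
  Ta := [((0, 1), 0, 7), ((0, 7), 0, 2), ((3, 2), 0, 1), ((3, 5), 0, 3), ((4, 6), 0, 4), ((4, 8),
    0, 5)]
  Tb := [((0, 1, 7), 0, 7, 2), ((1, 0, 2), 7, 0, 1), ((2, 1, 3), 1, 7, 0), ((2, 1, 7), 1, 7, 2),
    ((2, 1, 8), 1, 7, 5), ((2, 3, 7), 1, 0, 2), ((2, 3, 8), 1, 0, 5), ((2, 7, 8), 1, 2, 5),
    ((3, 2, 5), 0, 1, 3), ((4, 6, 8), 0, 4, 5), ((5, 3, 9), 3, 0, 6), ((6, 4, 9), 4, 0, 6),
    ((7, 0, 2), 2, 0, 1), ((8, 2, 4), 5, 1, 0), ((9, 5, 6), 6, 3, 4)]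
  Tc := []
  Td := [((0, 6), (0, 1), 7), ((0, 6), (0, 7), 2), ((0, 6), (3, 2), 1), ((0, 6), (3, 5), 3), ((0,
    6), (4, 6), 4), ((0, 6), (4, 8), 5), ((2, 5), (7, 0), 0), ((2, 5), (7, 2), 1), ((5, 2),
    (8, 2), 1), ((5, 2), (8, 4), 0), ((6, 0), (9, 5), 3), ((6, 0), (9, 6), 4)]
  G := [[0, 0, 0x114811241148e118411841188ec, 0x112411241148e114811281148ec,
    0x112814281428e114811881428ec], [0, 0x122412841288e124412241244ec, 0,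
    0x51249148f188ed14411847188ec, 0x1448d488b488ed42814287488ec], [0, 0, 0,
    0x11c24ddc28bbc84eddc2411c2477c48ec, 0x3428f4889428ed42814287448ec]]

noncomputable def n3653 : Ent := ⟨e3653, noF, [], [], [(7, 13, [385753028440516072301428330182238677962518295842732840421949441, 0])]⟩

def c3653 : PLift (Cov.check n3653.C.D v3653 = true) := ⟨by decide +kernel⟩

def b3653 : PLift (entF (fidx ts) 400 3653 n3653 = true) := ⟨by decide +kernel⟩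

theorem g3653 : GoodF (fidx ts) 400 3653 := GoodF.ofV v3653 n3653 c3653.down b3653.down

/-- 586444:2729/8 -/
noncomputable def e3654 : SCfg where
  D := {
    a := 6
    L := 9
    kp := 6
    inn := [(0, 1), (1, 0), (1, 3), (1, 5), (2, 3), (2, 4), (3, 1), (3, 2), (4, 2), (5, 1)]
    mix := [(0, 0), (0, 1), (0, 2), (0, 3), (1, 0), (1, 3), (1, 4), (1, 5), (1, 6), (2, 0), (2, 4), (2,
      7), (2, 8), (3, 0), (3, 4), (4, 4), (4, 6), (4, 8), (5, 5), (5, 6), (5, 8)]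
    cl := [0, 4, 5, 0, 0, 2, 1, 6, 3]
    chq := [(0, 3), (1, 2), (2, 1), (3, 0)]
    rng := [(0, 1), (0, 7), (1, 0), (1, 2), (2, 1), (2, 3), (3, 2), (3, 5), (4, 6), (5, 3), (5, 8), (6,
      4), (6, 8), (7, 0), (7, 8), (8, 5), (8, 6), (8, 7)]
    lev := [] }
  links := [[1, 6, 7, 8, 9], [10, 3, 6, 0, 9, 11, 5, 12], [13, 6, 3, 10, 4, 14], [6, 1, 10, 2], [2, 10,
    12, 14], [1, 11, 14, 12]]
  P := {
    a := 6
    N := 15
    nb := [962, 7785, 25688, 1094, 21508, 22530, 8335, 321, 641, 2307, 4126, 16930, 17458, 16452,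
      14388]
    tri := [(0, 1, 6), (0, 1, 9), (0, 6, 7), (0, 7, 8), (0, 8, 9), (1, 3, 6), (1, 3, 10), (1, 5, 11),
      (1, 5, 12), (1, 9, 11), (1, 10, 12), (2, 3, 6), (2, 3, 10), (2, 4, 10), (2, 4, 14), (2, 6,
      13), (2, 13, 14), (4, 10, 12), (4, 12, 14), (5, 11, 14), (5, 12, 14)]
    fin := [0, 0, 0, 0, 0, 5, 0, 7, 8, 0, 0, 5, 12, 13, 14]
    chd := [(0, 14), (5, 12)]
    steps := [(0, 1), (0, 3), (0, 2), (0, 6), (0, 9), (0, 10), (0, 4), (5, 11)] }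
  rep := [0, 12, 5, 14, 7, 8, 13]

noncomputable def v3654 : Cov.CovD where
  P := 3
  N := 4
  pl := [1, 2, 7]
  lev := [⟨[], [], [(0, 0)], [4, 5], [(0, 0, [3]), (3, 0, [3])]⟩,
    ⟨[], [(0, 0), (0, 1), (0, 2)], [(0, 0), (0, 1), (0, 2), (1, 2)], [], [(0, 0, [3]), (3,
      0, [3]), (4, 0, [3]), (5, 2, [1]), (6, 1, [2])]⟩,
    ⟨[], [(0, 0), (1, 0)], [(0, 0), (0, 3)], [6], [(0, 0, [3]), (4, 0, [3]), (8, 3, [0])]⟩,
    ⟨[(0, 1), (1, 2)], [(0, 0), (1, 0), (1, 1), (1, 2), (2, 0), (2, 3)], [(0, 0)], [], [(0,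
      0, [3]), (4, 0, [3])]⟩,
    ⟨[(2, 3)], [(1, 0), (1, 1), (2, 0), (2, 1), (2, 3), (3, 0)], [(0, 1), (0, 3), (1, 3)],
      [], [(4, 0, [3]), (6, 1, [2]), (8, 3, [0])]⟩,
    ⟨[(0, 1), (1, 3)], [(1, 0), (1, 1), (1, 2), (1, 3), (2, 3), (4, 1), (4, 3)], [(1, 2),
      (1, 3), (2, 3)], [], [(5, 2, [1]), (6, 1, [2]), (8, 3, [0])]⟩]
  Ta := [((0, 1), 0, 4), ((0, 7), 0, 6), ((3, 2), 0, 5), ((3, 5), 0, 2), ((4, 6), 0, 1)]
  Tb := [((0, 1, 7), 0, 4, 6), ((1, 0, 2), 4, 0, 5), ((2, 1, 3), 5, 4, 0), ((3, 2, 5), 0, 5, 2),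
    ((5, 3, 8), 2, 0, 3), ((6, 4, 8), 1, 0, 3), ((7, 0, 8), 6, 0, 3), ((8, 5, 6), 3, 2, 1),
    ((8, 5, 7), 3, 2, 6), ((8, 6, 7), 3, 1, 6)]
  Tc := []
  Td := [((0, 3), (0, 1), 4), ((0, 3), (0, 7), 6), ((0, 3), (3, 2), 5), ((0, 3), (3, 5), 2), ((0,
    3), (4, 6), 1), ((1, 2), (6, 4), 0), ((1, 2), (6, 8), 3), ((2, 1), (5, 3), 0), ((2, 1),
    (5, 8), 3), ((3, 0), (8, 5), 2), ((3, 0), (8, 6), 1), ((3, 0), (8, 7), 6)]
  G := [[0, 0, 0, 0x122422114e8122122112e4828128118e4e, 0x182142112e8182142112e8184148118e8e],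
    [0, 0, 0x818448c12e4882418c12e8882418c14e8e, 0x122424112e8184442114e8822424114e8e,
    0x182142112e8884148112e8884142114e8e], [0, 0x442488284c2ac884442c24e888244884a4e8e, 0,
    0x12442411c4e888212281c2e482412281c4e4e, 0x18414211c2e818214211c8e888214281c2e8e]]

noncomputable def n3654 : Ent := ⟨e3654, noF, [], [], [(7, 13, [87897818358406171357428020359653357189577334862559932846081, 0])]⟩

def c3654 : PLift (Cov.check n3654.C.D v3654 = true) := ⟨by decide +kernel⟩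

def b3654 : PLift (entF (fidx ts) 400 3654 n3654 = true) := ⟨by decide +kernel⟩

theorem g3654 : GoodF (fidx ts) 400 3654 := GoodF.ofV v3654 n3654 c3654.down b3654.down

/-- 586444:2729/7 -/
noncomputable def e3655 : SCfg where
  D := {
    a := 6
    L := 10
    kp := 7
    inn := [(0, 1), (1, 0), (1, 3), (1, 5), (2, 3), (2, 4), (3, 1), (3, 2), (4, 2), (5, 1)]
    mix := [(0, 0), (0, 1), (0, 2), (0, 3), (1, 0), (1, 3), (1, 4), (1, 5), (1, 6), (2, 0), (2, 4), (2,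
      7), (2, 8), (3, 0), (3, 4), (4, 4), (4, 8), (4, 9), (5, 5), (5, 6), (5, 8)]
    cl := [0, 4, 5, 0, 0, 1, 2, 6, 3, 7]
    chq := [(0, 3), (1, 2), (2, 1), (3, 0)]
    rng := [(0, 1), (0, 7), (1, 0), (1, 2), (2, 1), (2, 3), (3, 2), (3, 5), (4, 6), (4, 9), (5, 3), (5,
      8), (6, 4), (6, 8), (7, 0), (7, 8), (8, 5), (8, 6), (8, 7), (8, 9), (9, 4), (9, 8)]
    lev := [] }
  links := [[1, 6, 7, 8, 9], [10, 3, 6, 0, 9, 11, 5, 12], [13, 6, 3, 10, 4, 14], [6, 1, 10, 2], [2, 10,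
    15, 14], [1, 11, 14, 12]]
  P := {
    a := 6
    N := 16
    nb := [962, 7785, 25688, 1094, 50180, 22530, 8335, 321, 641, 2307, 36894, 16930, 17442, 16452,
      47156, 17424]
    tri := [(0, 1, 6), (0, 1, 9), (0, 6, 7), (0, 7, 8), (0, 8, 9), (1, 3, 6), (1, 3, 10), (1, 5, 11),
      (1, 5, 12), (1, 9, 11), (1, 10, 12), (2, 3, 6), (2, 3, 10), (2, 4, 10), (2, 4, 14), (2, 6,
      13), (2, 13, 14), (4, 10, 15), (4, 14, 15), (5, 11, 14), (5, 12, 14)]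
    fin := [0, 0, 0, 0, 0, 5, 0, 7, 8, 0, 0, 5, 12, 13, 14, 15]
    chd := [(0, 14), (5, 12)]
    steps := [(0, 1), (0, 3), (0, 2), (0, 4), (0, 6), (0, 9), (0, 10), (5, 11)] }
  rep := [0, 5, 12, 14, 7, 8, 13, 15]

noncomputable def v3655 : Cov.CovD where
  P := 3
  N := 5
  pl := [1, 2, 7, 9]
  lev := [⟨[], [], [(0, 0)], [4, 5], [(0, 0, [3]), (3, 0, [3])]⟩,
    ⟨[], [(0, 0), (0, 1), (0, 2)], [(0, 0), (0, 1), (0, 2), (1, 2)], [], [(0, 0, [3]), (3,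
      0, [3]), (4, 0, [3]), (5, 1, [2]), (6, 2, [1])]⟩,
    ⟨[], [(0, 0), (1, 0)], [(0, 0), (0, 3)], [6], [(0, 0, [3]), (4, 0, [3]), (8, 3, [0])]⟩,
    ⟨[(0, 1), (1, 2)], [(0, 0), (1, 0), (1, 1), (1, 2), (2, 0), (2, 3)], [(0, 0)], [], [(0,
      0, [3]), (4, 0, [3])]⟩,
    ⟨[(2, 3)], [(1, 0), (2, 0), (2, 3), (3, 0)], [(0, 3)], [7], [(4, 0, [3]), (8, 3, [0])]⟩,
    ⟨[(0, 1), (1, 3)], [(1, 0), (1, 1), (1, 2), (1, 3), (2, 3), (4, 3)], [(1, 2), (1, 3),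
      (2, 3)], [], [(5, 1, [2]), (6, 2, [1]), (8, 3, [0])]⟩]
  Ta := [((0, 1), 0, 4), ((0, 7), 0, 6), ((3, 2), 0, 5), ((3, 5), 0, 1), ((4, 6), 0, 2), ((4, 9),
    0, 7)]
  Tb := [((0, 1, 7), 0, 4, 6), ((1, 0, 2), 4, 0, 5), ((2, 1, 3), 5, 4, 0), ((3, 2, 5), 0, 5, 1),
    ((4, 6, 9), 0, 2, 7), ((5, 3, 8), 1, 0, 3), ((6, 4, 8), 2, 0, 3), ((7, 0, 8), 6, 0, 3),
    ((8, 5, 6), 3, 1, 2), ((8, 5, 7), 3, 1, 6), ((8, 5, 9), 3, 1, 7), ((8, 6, 7), 3, 2, 6),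
    ((8, 6, 9), 3, 2, 7), ((8, 7, 9), 3, 6, 7), ((9, 4, 8), 7, 0, 3)]
  Tc := []
  Td := [((0, 3), (0, 1), 4), ((0, 3), (0, 7), 6), ((0, 3), (3, 2), 5), ((0, 3), (3, 5), 1), ((0,
    3), (4, 6), 2), ((0, 3), (4, 9), 7), ((1, 2), (5, 3), 0), ((1, 2), (5, 8), 3), ((2, 1),
    (6, 4), 0), ((2, 1), (6, 8), 3), ((3, 0), (8, 5), 1), ((3, 0), (8, 6), 2), ((3, 0), (8,
    7), 6), ((3, 0), (8, 9), 7)]
  G := [[0, 0, 0, 0x88a41468118e481a24162118e888384158811e8e4e,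
    0x119411521134e881321194111b8e8119211328154e8e], [0,
    0x812412c18e4812414c12e8818418c12e4e, 0, 0x11a21468118e481a41168112e818a24168114e8e,
    0x11411172111e4e8889481341152e8189211521138e8e], [0, 0,
    0x848e2444e884ce8e4888e2444e842848ece8888e2444e284ce4e8e,
    0x11a21162111e4e881a21168111e8e488a44468111e4e4e,
    0x111e4111e2111e4e8188e4111e2111e4e8811e4111e8111e8e8e]]

noncomputable def n3655 : Ent := ⟨e3655, noF, [], [], [(7, 13, [385753028440516072301428330182238677962518295842732840421957633, 0]), (12, 15, [360035742630636841211993100915356868655746945586763691022639105, 0])]⟩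

def c3655 : PLift (Cov.check n3655.C.D v3655 = true) := ⟨by decide +kernel⟩

def b3655 : PLift (entF (fidx ts) 400 3655 n3655 = true) := ⟨by decide +kernel⟩

theorem g3655 : GoodF (fidx ts) 400 3655 := GoodF.ofV v3655 n3655 c3655.down b3655.down

/-- 586444:2729/9 -/
noncomputable def e3656 : SCfg where
  D := {
    a := 6
    L := 10
    kp := 7
    inn := [(0, 1), (1, 0), (1, 3), (1, 5), (2, 3), (2, 4), (3, 1), (3, 2), (4, 2), (5, 1)]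
    mix := [(0, 0), (0, 1), (0, 2), (0, 3), (1, 0), (1, 3), (1, 4), (1, 5), (1, 6), (2, 0), (2, 4), (2,
      7), (2, 8), (3, 0), (3, 4), (4, 4), (4, 6), (4, 8), (5, 5), (5, 6), (5, 9)]
    cl := [0, 6, 7, 0, 0, 2, 1, 4, 3, 5]
    chq := [(0, 5), (1, 4), (4, 1), (5, 0)]
    rng := [(0, 1), (0, 7), (1, 0), (1, 2), (2, 1), (2, 3), (3, 2), (3, 5), (4, 6), (5, 3), (5, 9), (6,
      4), (6, 8), (6, 9), (7, 0), (7, 8), (8, 6), (8, 7), (9, 5), (9, 6)]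
    lev := [] }
  links := [[1, 6, 7, 8, 9], [10, 3, 6, 0, 9, 11, 5, 12], [13, 6, 3, 10, 4, 14], [6, 1, 10, 2], [2, 10,
    12, 14], [1, 11, 15, 12]]
  P := {
    a := 6
    N := 16
    nb := [962, 7785, 25688, 1094, 21508, 38914, 8335, 321, 641, 2307, 4126, 33314, 50226, 16452,
      12308, 6176]
    tri := [(0, 1, 6), (0, 1, 9), (0, 6, 7), (0, 7, 8), (0, 8, 9), (1, 3, 6), (1, 3, 10), (1, 5, 11),
      (1, 5, 12), (1, 9, 11), (1, 10, 12), (2, 3, 6), (2, 3, 10), (2, 4, 10), (2, 4, 14), (2, 6,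
      13), (2, 13, 14), (4, 10, 12), (4, 12, 14), (5, 11, 15), (5, 12, 15)]
    fin := [0, 0, 2, 0, 2, 0, 0, 7, 8, 0, 0, 11, 2, 13, 14, 15]
    chd := [(0, 15), (2, 13)]
    steps := [(0, 1), (0, 3), (0, 5), (0, 6), (0, 9), (0, 10), (2, 4), (2, 12)] }
  rep := [0, 2, 11, 14, 13, 15, 7, 8]

noncomputable def v3656 : Cov.CovD where
  P := 3
  N := 5
  pl := [1, 2, 5, 8]
  lev := [⟨[], [], [(0, 0)], [6, 7], [(0, 0, [5]), (3, 0, [5])]⟩,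
    ⟨[], [(0, 0), (0, 1)], [(0, 0), (0, 1)], [2], [(0, 0, [5]), (3, 0, [5]), (4, 0, [5]),
      (6, 1, [4])]⟩,
    ⟨[], [(0, 0), (1, 0)], [(0, 0), (0, 4)], [3], [(0, 0, [5]), (4, 0, [5]), (7, 4, [1])]⟩,
    ⟨[(0, 1), (1, 2)], [(0, 0), (1, 0), (1, 1), (2, 0), (2, 4)], [(0, 0)], [], [(0, 0,
      [5]), (4, 0, [5])]⟩,
    ⟨[(2, 3)], [(1, 0), (1, 1), (2, 0), (2, 1), (2, 4), (3, 0)], [(0, 1)], [3], [(4, 0,
      [5]), (6, 1, [4])]⟩,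
    ⟨[(0, 1), (1, 3)], [(1, 0), (1, 1), (1, 5), (4, 1)], [(1, 5)], [2], [(6, 1, [4]), (9,
      5, [0])]⟩]
  Ta := [((0, 1), 0, 6), ((0, 7), 0, 4), ((3, 2), 0, 7), ((3, 5), 0, 2), ((4, 6), 0, 1)]
  Tb := [((0, 1, 7), 0, 6, 4), ((1, 0, 2), 6, 0, 7), ((2, 1, 3), 7, 6, 0), ((3, 2, 5), 0, 7, 2),
    ((5, 3, 9), 2, 0, 5), ((6, 4, 8), 1, 0, 3), ((6, 4, 9), 1, 0, 5), ((6, 8, 9), 1, 3, 5),
    ((7, 0, 8), 4, 0, 3), ((8, 6, 7), 3, 1, 4), ((9, 5, 6), 5, 2, 1)]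
  Tc := []
  Td := [((0, 5), (0, 1), 6), ((0, 5), (0, 7), 4), ((0, 5), (3, 2), 7), ((0, 5), (3, 5), 2), ((0,
    5), (4, 6), 1), ((1, 4), (6, 4), 0), ((1, 4), (6, 8), 3), ((1, 4), (6, 9), 5), ((4, 1),
    (7, 0), 0), ((4, 1), (7, 8), 3), ((5, 0), (9, 5), 2), ((5, 0), (9, 6), 1)]
  G := [[0, 0, 0, 0x144184114e818411811c4e8184142114e4e, 0x11411211c4e8142182114e8144182114e8e],
    [0, 0, 0xc82c12cc98e4c82c4244c8cce8c82c4881416e4e, 0x142142114e8148142118e4148142118e4e,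
    0x11411211c4e81141481154e8184184118e8e], [0, 0xc82c484282ce4c82c42c24e8c82c42c24e8e, 0,
    0x18214211c4e414418411c4e814814211c4e4e, 0x18418411c4e814218411c4e818218211c4e8e]]

noncomputable def n3656 : Ent := ⟨e3656, noF, [], [], [(7, 13, [385753028440516072301428330182238677962518295842732840421961729, 0]), (15, 14, [385746751338780685620664494392815470296102193487288376387461121, 0])]⟩

def c3656 : PLift (Cov.check n3656.C.D v3656 = true) := ⟨by decide +kernel⟩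

def b3656 : PLift (entF (fidx ts) 400 3656 n3656 = true) := ⟨by decide +kernel⟩

theorem g3656 : GoodF (fidx ts) 400 3656 := GoodF.ofV v3656 n3656 c3656.down b3656.down

/-- 586444:2729 -/
noncomputable def e3657 : SCfg where
  D := {
    a := 6
    L := 11
    kp := 8
    inn := [(0, 1), (1, 0), (1, 3), (1, 5), (2, 3), (2, 4), (3, 1), (3, 2), (4, 2), (5, 1)]
    mix := [(0, 0), (0, 1), (0, 2), (0, 3), (1, 0), (1, 3), (1, 4), (1, 5), (1, 6), (2, 0), (2, 4), (2,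
      7), (2, 8), (3, 0), (3, 4), (4, 4), (4, 8), (4, 9), (5, 5), (5, 6), (5, 10)]
    cl := [0, 7, 8, 0, 0, 1, 2, 4, 3, 5, 6]
    chq := [(0, 6), (4, 5), (5, 4), (6, 0)]
    rng := [(0, 1), (0, 7), (1, 0), (1, 2), (2, 1), (2, 3), (3, 2), (3, 5), (4, 6), (4, 9), (5, 3), (5,
      10), (6, 4), (6, 10), (7, 0), (7, 8), (8, 7), (8, 9), (9, 4), (9, 8), (10, 5), (10, 6)]
    lev := [] }
  links := [[1, 6, 7, 8, 9], [10, 3, 6, 0, 9, 11, 5, 12], [13, 6, 3, 10, 4, 14], [6, 1, 10, 2], [2, 10,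
    15, 14], [1, 11, 16, 12]]
  P := {
    a := 6
    N := 17
    nb := [962, 7785, 25688, 1094, 50180, 71682, 8335, 321, 641, 2307, 36894, 66082, 66594, 16452,
      40980, 17424, 6176]
    tri := [(0, 1, 6), (0, 1, 9), (0, 6, 7), (0, 7, 8), (0, 8, 9), (1, 3, 6), (1, 3, 10), (1, 5, 11),
      (1, 5, 12), (1, 9, 11), (1, 10, 12), (2, 3, 6), (2, 3, 10), (2, 4, 10), (2, 4, 14), (2, 6,
      13), (2, 13, 14), (4, 10, 15), (4, 14, 15), (5, 11, 16), (5, 12, 16)]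
    fin := [0, 0, 2, 0, 2, 0, 0, 7, 8, 0, 0, 11, 12, 13, 14, 2, 16]
    chd := [(0, 16), (13, 2)]
    steps := [(0, 1), (0, 3), (0, 5), (0, 6), (0, 9), (0, 10), (2, 4), (2, 15)] }
  rep := [0, 11, 12, 14, 13, 2, 16, 7, 8]

noncomputable def v3657 : Cov.CovD where
  P := 3
  N := 6
  pl := [1, 2, 5, 6, 8]
  lev := [⟨[], [], [(0, 0)], [7, 8], [(0, 0, [6]), (3, 0, [6])]⟩,
    ⟨[], [(0, 0)], [(0, 0)], [1, 2], [(0, 0, [6]), (3, 0, [6]), (4, 0, [6])]⟩,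
    ⟨[], [(0, 0), (1, 0)], [(0, 0), (0, 4)], [3], [(0, 0, [6]), (4, 0, [6]), (7, 4, [5])]⟩,
    ⟨[(0, 1), (1, 2)], [(0, 0), (1, 0), (2, 0), (2, 4)], [(0, 0)], [], [(0, 0, [6]), (4, 0,
      [6])]⟩,
    ⟨[(2, 3)], [(1, 0), (2, 0), (2, 4), (2, 5), (3, 0)], [(0, 5)], [3], [(4, 0, [6]), (9,
      5, [4])]⟩,
    ⟨[(0, 1), (1, 3)], [(1, 0), (1, 6)], [], [1, 2], [(10, 6, [0])]⟩]
  Ta := [((0, 1), 0, 7), ((0, 7), 0, 4), ((3, 2), 0, 8), ((3, 5), 0, 1), ((4, 6), 0, 2), ((4, 9),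
    0, 5)]
  Tb := [((0, 1, 7), 0, 7, 4), ((1, 0, 2), 7, 0, 8), ((2, 1, 3), 8, 7, 0), ((3, 2, 5), 0, 8, 1),
    ((4, 6, 9), 0, 2, 5), ((5, 3, 10), 1, 0, 6), ((6, 4, 10), 2, 0, 6), ((7, 0, 8), 4, 0, 3),
    ((8, 7, 9), 3, 4, 5), ((9, 4, 8), 5, 0, 3), ((10, 5, 6), 6, 1, 2)]
  Tc := []
  Td := [((0, 6), (0, 1), 7), ((0, 6), (0, 7), 4), ((0, 6), (3, 2), 8), ((0, 6), (3, 5), 1), ((0,
    6), (4, 6), 2), ((0, 6), (4, 9), 5), ((4, 5), (7, 0), 0), ((4, 5), (7, 8), 3), ((5, 4),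
    (9, 4), 0), ((5, 4), (9, 8), 3), ((6, 0), (10, 5), 1), ((6, 0), (10, 6), 2)]
  G := [[0, 0, 0, 0x11521192114e8112113811c2e411341141194e8e,
    0x11621121194e8115411a4118e8112113211c8e8e], [0,
    0xcc624c98c188ce48c472c12cc94e8c14cc32ccc4e8e, 0,
    0x11411a21158e411641198112e811211a211c4e4e, 0x11641192114e8113411211c4e811341181198e8e],
    [0, 0, 0xcc68cca8ccc8e4cc64cca2ccc4e8cc62cca2ccc8e4e,
    0x116411a211c4e8116211a411c8e8116211a211c4e4e,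
    0x116211a211c2e8116411a211c4e8116411a811c4e8e]]

noncomputable def n3657 : Ent := ⟨e3657, noF, [], [], [(7, 13, [1685382419725355503238989871268909155780284044704628512909414383617, 0]), (8, 14, [1685382413448253767852309107433119732572617628602273068445379874817, 0]), (16, 14, [1580095832788404724998799751142926758855362888449624481876433727489, 0]), (12, 15, [1685356702439545624007900436039642273970977273354372543760015065089, 0])]⟩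

def c3657 : PLift (Cov.check n3657.C.D v3657 = true) := ⟨by decide +kernel⟩

def b3657 : PLift (entF (fidx ts) 400 3657 n3657 = true) := ⟨by decide +kernel⟩

theorem g3657 : GoodF (fidx ts) 400 3657 := GoodF.ofV v3657 n3657 c3657.down b3657.down

/-- 586444:2730/2 -/
noncomputable def e3658 : SCfg where
  D := {
    a := 6
    L := 9
    kp := 6
    inn := [(0, 1), (1, 0), (1, 3), (1, 5), (2, 3), (2, 4), (3, 1), (3, 2), (4, 2), (5, 1)]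
    mix := [(0, 0), (0, 1), (0, 2), (0, 3), (1, 0), (1, 3), (1, 4), (1, 5), (1, 6), (2, 0), (2, 1), (2,
      4), (2, 7), (3, 0), (3, 4), (4, 4), (4, 7), (4, 8), (5, 4), (5, 6), (5, 8)]
    cl := [0, 2, 6, 0, 0, 5, 3, 4, 1]
    chq := [(1, 2), (1, 5), (2, 1), (5, 1)]
    rng := [(0, 1), (1, 0), (1, 2), (1, 7), (2, 1), (2, 3), (3, 2), (3, 5), (4, 8), (5, 3), (5, 6), (6,
      5), (6, 8), (7, 1), (7, 8), (8, 4), (8, 6), (8, 7)]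
    lev := [] }
  links := [[1, 6, 7, 8, 9], [10, 3, 6, 0, 9, 11, 12, 5], [7, 6, 3, 10, 4, 13], [6, 1, 10, 2], [2, 10,
    14, 13], [1, 12, 14, 10]]
  P := {
    a := 6
    N := 15
    nb := [962, 7785, 9432, 1094, 25604, 21506, 143, 8517, 641, 2307, 16446, 4610, 18466, 16532,
      13360]
    tri := [(0, 1, 6), (0, 1, 9), (0, 6, 7), (0, 7, 8), (0, 8, 9), (1, 3, 6), (1, 3, 10), (1, 5, 10),
      (1, 5, 12), (1, 9, 11), (1, 11, 12), (2, 3, 6), (2, 3, 10), (2, 4, 10), (2, 4, 13), (2, 6,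
      7), (2, 7, 13), (4, 10, 14), (4, 13, 14), (5, 10, 14), (5, 12, 14)]
    fin := [0, 1, 2, 0, 2, 1, 0, 2, 8, 0, 0, 1, 12, 13, 14]
    chd := [(1, 14), (2, 14)]
    steps := [(0, 6), (0, 3), (0, 9), (0, 10), (1, 5), (1, 11), (2, 4), (2, 7)] }
  rep := [0, 14, 2, 12, 13, 1, 8]

noncomputable def v3658 : Cov.CovD where
  P := 3
  N := 4
  pl := [2, 6, 7]
  lev := [⟨[], [], [(0, 0), (0, 2)], [6], [(0, 0, []), (1, 2, [1]), (3, 0, [])]⟩,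
    ⟨[], [(0, 0), (0, 2), (0, 5)], [(0, 0), (0, 5)], [3], [(0, 0, []), (3, 0, []), (4, 0,
      []), (5, 5, [1])]⟩,
    ⟨[], [(0, 0), (0, 2), (1, 0)], [(0, 0), (0, 2)], [4], [(0, 0, []), (1, 2, [1]), (4, 0,
      [])]⟩,
    ⟨[(0, 1), (1, 2)], [(0, 0), (1, 0), (1, 5), (2, 0), (2, 2)], [(0, 0)], [], [(0, 0, []),
      (4, 0, [])]⟩,
    ⟨[(2, 3)], [(1, 0), (2, 0), (2, 1), (2, 2), (3, 0)], [(0, 1)], [4], [(4, 0, []), (8, 1,
      [2, 5])]⟩,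
    ⟨[(0, 1), (1, 3)], [(1, 0), (1, 1), (1, 5), (2, 0), (3, 0), (4, 0), (4, 1)], [(0, 1)],
      [3], [(4, 0, []), (8, 1, [2, 5])]⟩]
  Ta := [((0, 1), 0, 2), ((3, 2), 0, 6), ((3, 5), 0, 5), ((4, 8), 0, 1)]
  Tb := [((1, 0, 2), 2, 0, 6), ((1, 0, 7), 2, 0, 4), ((1, 2, 7), 2, 6, 4), ((2, 1, 3), 6, 2, 0),
    ((3, 2, 5), 0, 6, 5), ((5, 3, 6), 5, 0, 3), ((6, 5, 8), 3, 5, 1), ((7, 1, 8), 4, 2, 1),
    ((8, 4, 6), 1, 0, 3), ((8, 4, 7), 1, 0, 4), ((8, 6, 7), 1, 3, 4)]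
  Tc := [(1, 2, 5)]
  Td := [((1, 2), (8, 4), 0), ((1, 2), (8, 6), 3), ((1, 2), (8, 7), 4), ((1, 5), (8, 4), 0), ((1,
    5), (8, 6), 3), ((1, 5), (8, 7), 4), ((2, 1), (1, 0), 0), ((2, 1), (1, 2), 6), ((2, 1),
    (1, 7), 4), ((5, 1), (5, 3), 0), ((5, 1), (5, 6), 3)]
  G := [[0, 0, 0x4122c18148ca81428182182c14ce41824e, 0xc84942c2cc5822c,
    0x4452248c22984148ae88c4244522984144aea], [0, 0, 0, 0x184d42299c822c,
    0x4492288942c18144ae8894244c22984144aea], [0,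
    0x684642c482448c284248ce822842ca82a28c224248cec, 0, 0xccc822c24c24c2c,
    0x44c42482442ac84c44ae88c4244c22c84c44aea]]

noncomputable def n3658 : Ent := ⟨e3658, noF, [], [], []⟩

def c3658 : PLift (Cov.check n3658.C.D v3658 = true) := ⟨by decide +kernel⟩

def b3658 : PLift (entF (fidx ts) 400 3658 n3658 = true) := ⟨by decide +kernel⟩

theorem g3658 : GoodF (fidx ts) 400 3658 := GoodF.ofV v3658 n3658 c3658.down b3658.down

/-- 586444:2730/1 -/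
noncomputable def e3659 : SCfg where
  D := {
    a := 6
    L := 10
    kp := 7
    inn := [(0, 1), (1, 0), (1, 3), (1, 5), (2, 3), (2, 4), (3, 1), (3, 2), (4, 2), (5, 1)]
    mix := [(0, 0), (0, 1), (0, 2), (0, 3), (1, 0), (1, 3), (1, 4), (1, 5), (1, 6), (2, 0), (2, 1), (2,
      4), (2, 7), (3, 0), (3, 4), (4, 4), (4, 7), (4, 8), (5, 4), (5, 6), (5, 9)]
    cl := [0, 1, 7, 0, 0, 2, 3, 4, 5, 6]
    chq := [(1, 5), (2, 6), (5, 1), (6, 2)]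
    rng := [(0, 1), (1, 0), (1, 2), (1, 7), (2, 1), (2, 3), (3, 2), (3, 5), (4, 8), (4, 9), (5, 3), (5,
      6), (6, 5), (6, 9), (7, 1), (7, 8), (8, 4), (8, 7), (9, 4), (9, 6)]
    lev := [] }
  links := [[1, 6, 7, 8, 9], [10, 3, 6, 0, 9, 11, 12, 5], [7, 6, 3, 10, 4, 13], [6, 1, 10, 2], [2, 10,
    14, 13], [1, 12, 15, 10]]
  P := {
    a := 6
    N := 16
    nb := [962, 7785, 9432, 1094, 25604, 37890, 143, 8517, 641, 2307, 49214, 4610, 34850, 16532, 9232,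
      5152]
    tri := [(0, 1, 6), (0, 1, 9), (0, 6, 7), (0, 7, 8), (0, 8, 9), (1, 3, 6), (1, 3, 10), (1, 5, 10),
      (1, 5, 12), (1, 9, 11), (1, 11, 12), (2, 3, 6), (2, 3, 10), (2, 4, 10), (2, 4, 13), (2, 6,
      7), (2, 7, 13), (4, 10, 14), (4, 13, 14), (5, 10, 15), (5, 12, 15)]
    fin := [0, 1, 2, 0, 2, 1, 0, 2, 8, 0, 0, 1, 12, 13, 14, 15]
    chd := [(1, 15), (2, 14)]
    steps := [(0, 6), (0, 3), (0, 9), (0, 10), (1, 5), (1, 11), (2, 4), (2, 7)] }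
  rep := [0, 2, 1, 12, 13, 14, 15, 8]

noncomputable def v3659 : Cov.CovD where
  P := 3
  N := 5
  pl := [2, 6, 7]
  lev := [⟨[], [], [(0, 0), (0, 1)], [7], [(0, 0, []), (1, 1, [5]), (3, 0, [])]⟩,
    ⟨[], [(0, 0), (0, 1), (0, 2)], [(0, 0), (0, 2)], [3], [(0, 0, []), (3, 0, []), (4, 0,
      []), (5, 2, [6])]⟩,
    ⟨[], [(0, 0), (0, 1), (1, 0)], [(0, 0), (0, 1)], [4], [(0, 0, []), (1, 1, [5]), (4, 0,
      [])]⟩,
    ⟨[(0, 1), (1, 2)], [(0, 0), (1, 0), (1, 2), (2, 0), (2, 1)], [(0, 0)], [], [(0, 0, []),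
      (4, 0, [])]⟩,
    ⟨[(2, 3)], [(1, 0), (2, 0), (2, 1), (2, 5), (3, 0)], [(0, 5)], [4], [(4, 0, []), (8, 5,
      [1])]⟩,
    ⟨[(0, 1), (1, 3)], [(1, 0), (1, 2), (1, 6), (2, 0), (3, 0), (4, 0)], [(0, 6)], [3],
      [(4, 0, []), (9, 6, [2])]⟩]
  Ta := [((0, 1), 0, 1), ((3, 2), 0, 7), ((3, 5), 0, 2), ((4, 8), 0, 5), ((4, 9), 0, 6)]
  Tb := [((1, 0, 2), 1, 0, 7), ((1, 0, 7), 1, 0, 4), ((1, 2, 7), 1, 7, 4), ((2, 1, 3), 7, 1, 0),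
    ((3, 2, 5), 0, 7, 2), ((4, 8, 9), 0, 5, 6), ((5, 3, 6), 2, 0, 3), ((6, 5, 9), 3, 2, 6),
    ((7, 1, 8), 4, 1, 5), ((8, 4, 7), 5, 0, 4), ((9, 4, 6), 6, 0, 3)]
  Tc := []
  Td := [((1, 5), (1, 0), 0), ((1, 5), (1, 2), 7), ((1, 5), (1, 7), 4), ((2, 6), (5, 3), 0), ((2,
    6), (5, 6), 3), ((5, 1), (8, 4), 0), ((5, 1), (8, 7), 4), ((6, 2), (9, 4), 0), ((6, 2),
    (9, 6), 3)]
  G := [[0, 0x6122a148c6128a182ca1246184ce, 0, 0x614124ca18228cce14122c218228ccc,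
    0x424414ce14122ca124e12c414422cac], [0, 0, 0x124c12c128a18c6124c12c128614cac,
    0x222214ce12122cc124612c228a12ccc, 0x424414c128e14ca124418ce14528cac], [0, 0, 0,
    0x222622e2ce28aeee8cc6e64eea2c22a2a262ccc, 0x624666e2ccca2cc62ca4ca2e462c628e4ee8cac]]

noncomputable def n3659 : Ent := ⟨e3659, noF, [], [], [(15, 14, [385746751338780685620664494392815470296102193487288376387477505, 0])]⟩

def c3659 : PLift (Cov.check n3659.C.D v3659 = true) := ⟨by decide +kernel⟩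

def b3659 : PLift (entF (fidx ts) 400 3659 n3659 = true) := ⟨by decide +kernel⟩

theorem g3659 : GoodF (fidx ts) 400 3659 := GoodF.ofV v3659 n3659 c3659.down b3659.down

/-- 586444:2730/3 -/
noncomputable def e3660 : SCfg where
  D := {
    a := 6
    L := 10
    kp := 7
    inn := [(0, 1), (1, 0), (1, 3), (1, 5), (2, 3), (2, 4), (3, 1), (3, 2), (4, 2), (5, 1)]
    mix := [(0, 0), (0, 1), (0, 2), (0, 3), (1, 0), (1, 3), (1, 4), (1, 5), (1, 6), (2, 0), (2, 4), (2,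
      7), (2, 8), (3, 0), (3, 4), (4, 4), (4, 8), (4, 9), (5, 4), (5, 6), (5, 9)]
    cl := [0, 6, 7, 0, 0, 2, 3, 5, 4, 1]
    chq := [(1, 2), (1, 5), (2, 1), (5, 1)]
    rng := [(0, 1), (0, 7), (1, 0), (1, 2), (2, 1), (2, 3), (3, 2), (3, 5), (4, 9), (5, 3), (5, 6), (6,
      5), (6, 9), (7, 0), (7, 8), (8, 7), (8, 9), (9, 4), (9, 6), (9, 8)]
    lev := [] }
  links := [[1, 6, 7, 8, 9], [10, 3, 6, 0, 9, 11, 12, 5], [13, 6, 3, 10, 4, 14], [6, 1, 10, 2], [2, 10,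
    15, 14], [1, 12, 15, 10]]
  P := {
    a := 6
    N := 16
    nb := [962, 7785, 25688, 1094, 50180, 37890, 8335, 321, 641, 2307, 32830, 4610, 34850, 16452,
      40980, 21552]
    tri := [(0, 1, 6), (0, 1, 9), (0, 6, 7), (0, 7, 8), (0, 8, 9), (1, 3, 6), (1, 3, 10), (1, 5, 10),
      (1, 5, 12), (1, 9, 11), (1, 11, 12), (2, 3, 6), (2, 3, 10), (2, 4, 10), (2, 4, 14), (2, 6,
      13), (2, 13, 14), (4, 10, 15), (4, 14, 15), (5, 10, 15), (5, 12, 15)]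
    fin := [0, 1, 2, 0, 2, 1, 0, 7, 8, 0, 0, 1, 12, 13, 14, 2]
    chd := [(1, 2), (13, 2)]
    steps := [(0, 6), (0, 3), (0, 9), (0, 10), (1, 5), (1, 11), (2, 4), (2, 15)] }
  rep := [0, 2, 1, 12, 14, 13, 7, 8]

noncomputable def v3660 : Cov.CovD where
  P := 3
  N := 5
  pl := [1, 2, 6, 8]
  lev := [⟨[], [], [(0, 0)], [6, 7], [(0, 0, []), (3, 0, [])]⟩,
    ⟨[], [(0, 0), (0, 2)], [(0, 0), (0, 2)], [3], [(0, 0, []), (3, 0, []), (4, 0, []), (5,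
      2, [1])]⟩,
    ⟨[], [(0, 0), (1, 0)], [(0, 0), (0, 5)], [4], [(0, 0, []), (4, 0, []), (7, 5, [1])]⟩,
    ⟨[(0, 1), (1, 2)], [(0, 0), (1, 0), (1, 2), (2, 0), (2, 5)], [(0, 0)], [], [(0, 0, []),
      (4, 0, [])]⟩,
    ⟨[(2, 3)], [(1, 0), (2, 0), (2, 1), (2, 5), (3, 0)], [(0, 1)], [4], [(4, 0, []), (9, 1,
      [2, 5])]⟩,
    ⟨[(0, 1), (1, 3)], [(1, 0), (1, 1), (1, 2), (2, 0), (3, 0), (4, 0), (4, 1)], [(0, 1)],
      [3], [(4, 0, []), (9, 1, [2, 5])]⟩]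
  Ta := [((0, 1), 0, 6), ((0, 7), 0, 5), ((3, 2), 0, 7), ((3, 5), 0, 2), ((4, 9), 0, 1)]
  Tb := [((0, 1, 7), 0, 6, 5), ((1, 0, 2), 6, 0, 7), ((2, 1, 3), 7, 6, 0), ((3, 2, 5), 0, 7, 2),
    ((5, 3, 6), 2, 0, 3), ((6, 5, 9), 3, 2, 1), ((7, 0, 8), 5, 0, 4), ((8, 7, 9), 4, 5, 1),
    ((9, 4, 6), 1, 0, 3), ((9, 4, 8), 1, 0, 4), ((9, 6, 8), 1, 3, 4)]
  Tc := [(1, 2, 5)]
  Td := [((1, 2), (9, 4), 0), ((1, 2), (9, 6), 3), ((1, 2), (9, 8), 4), ((1, 5), (9, 4), 0), ((1,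
    5), (9, 6), 3), ((1, 5), (9, 8), 4), ((2, 1), (5, 3), 0), ((2, 1), (5, 6), 3), ((5, 1),
    (7, 0), 0), ((5, 1), (7, 8), 4)]
  G := [[0, 0, 0, 0x5c982295c8228854214c22ce,
    0x14942c44582c14ea84284546984488c14ea48542584548418eae], [0, 0,
    0x145421421421498ea1424498618441411c4ea11c224182184148cee, 0x99c8225c98228892244522ce,
    0x11c42548c48418ea88c42984942414ea18942584c48414eae], [0,
    0x282642224e482248428ec884842824e282242228ec882248824e282448224ece, 0,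
    0x28428cc826ccc82228c2222c22ce, 0x44c22c84c42ccc4ea48c42c82c42c4c4ea88c42c84c4844c4eae]]

noncomputable def n3660 : Ent := ⟨e3660, noF, [], [], [(7, 13, [385753028440516072301428330182238677962518295842732840421990401, 0])]⟩

def c3660 : PLift (Cov.check n3660.C.D v3660 = true) := ⟨by decide +kernel⟩

def b3660 : PLift (entF (fidx ts) 400 3660 n3660 = true) := ⟨by decide +kernel⟩

theorem g3660 : GoodF (fidx ts) 400 3660 := GoodF.ofV v3660 n3660 c3660.down b3660.down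

/-- 586444:2730 -/
noncomputable def e3661 : SCfg where
  D := {
    a := 6
    L := 11
    kp := 8
    inn := [(0, 1), (1, 0), (1, 3), (1, 5), (2, 3), (2, 4), (3, 1), (3, 2), (4, 2), (5, 1)]
    mix := [(0, 0), (0, 1), (0, 2), (0, 3), (1, 0), (1, 3), (1, 4), (1, 5), (1, 6), (2, 0), (2, 4), (2,
      7), (2, 8), (3, 0), (3, 4), (4, 4), (4, 8), (4, 9), (5, 4), (5, 6), (5, 10)]
    cl := [0, 7, 8, 0, 0, 1, 3, 2, 4, 5, 6]
    chq := [(1, 6), (2, 5), (5, 2), (6, 1)]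
    rng := [(0, 1), (0, 7), (1, 0), (1, 2), (2, 1), (2, 3), (3, 2), (3, 5), (4, 9), (4, 10), (5, 3),
      (5, 6), (6, 5), (6, 10), (7, 0), (7, 8), (8, 7), (8, 9), (9, 4), (9, 8), (10, 4), (10, 6)]
    lev := [] }
  links := [[1, 6, 7, 8, 9], [10, 3, 6, 0, 9, 11, 12, 5], [13, 6, 3, 10, 4, 14], [6, 1, 10, 2], [2, 10,
    15, 14], [1, 12, 16, 10]]
  P := {
    a := 6
    N := 17
    nb := [962, 7785, 25688, 1094, 50180, 70658, 8335, 321, 641, 2307, 98366, 4610, 67618, 16452,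
      40980, 17424, 5152]
    tri := [(0, 1, 6), (0, 1, 9), (0, 6, 7), (0, 7, 8), (0, 8, 9), (1, 3, 6), (1, 3, 10), (1, 5, 10),
      (1, 5, 12), (1, 9, 11), (1, 11, 12), (2, 3, 6), (2, 3, 10), (2, 4, 10), (2, 4, 14), (2, 6,
      13), (2, 13, 14), (4, 10, 15), (4, 14, 15), (5, 10, 16), (5, 12, 16)]
    fin := [0, 1, 2, 0, 2, 1, 0, 7, 8, 0, 0, 1, 12, 13, 14, 2, 16]
    chd := [(1, 16), (13, 2)]
    steps := [(0, 6), (0, 3), (0, 9), (0, 10), (1, 5), (1, 11), (2, 4), (2, 15)] }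
  rep := [0, 1, 13, 12, 14, 2, 16, 7, 8]

noncomputable def v3661 : Cov.CovD where
  P := 3
  N := 6
  pl := [1, 2, 6, 8]
  lev := [⟨[], [], [(0, 0)], [7, 8], [(0, 0, []), (3, 0, [])]⟩,
    ⟨[], [(0, 0), (0, 1)], [(0, 0), (0, 1)], [3], [(0, 0, []), (3, 0, []), (4, 0, []), (5,
      1, [6])]⟩,
    ⟨[], [(0, 0), (1, 0)], [(0, 0), (0, 2)], [4], [(0, 0, []), (4, 0, []), (7, 2, [5])]⟩,
    ⟨[(0, 1), (1, 2)], [(0, 0), (1, 0), (1, 1), (2, 0), (2, 2)], [(0, 0)], [], [(0, 0, []),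
      (4, 0, [])]⟩,
    ⟨[(2, 3)], [(1, 0), (2, 0), (2, 2), (2, 5), (3, 0)], [(0, 5)], [4], [(4, 0, []), (9, 5,
      [2])]⟩,
    ⟨[(0, 1), (1, 3)], [(1, 0), (1, 1), (1, 6), (2, 0), (3, 0), (4, 0)], [(0, 6)], [3],
      [(4, 0, []), (10, 6, [1])]⟩]
  Ta := [((0, 1), 0, 7), ((0, 7), 0, 2), ((3, 2), 0, 8), ((3, 5), 0, 1), ((4, 9), 0, 5), ((4,
    10), 0, 6)]
  Tb := [((0, 1, 7), 0, 7, 2), ((1, 0, 2), 7, 0, 8), ((2, 1, 3), 8, 7, 0), ((3, 2, 5), 0, 8, 1),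
    ((4, 9, 10), 0, 5, 6), ((5, 3, 6), 1, 0, 3), ((6, 5, 10), 3, 1, 6), ((7, 0, 8), 2, 0, 4),
    ((8, 7, 9), 4, 2, 5), ((9, 4, 8), 5, 0, 4), ((10, 4, 6), 6, 0, 3)]
  Tc := []
  Td := [((1, 6), (5, 3), 0), ((1, 6), (5, 6), 3), ((2, 5), (7, 0), 0), ((2, 5), (7, 8), 4), ((5,
    2), (9, 4), 0), ((5, 2), (9, 8), 4), ((6, 1), (10, 4), 0), ((6, 1), (10, 6), 3)]
  G := [[0, 0, 0x214212a11c41168ace121164a2182126ca14e126218618cce,
    0x122212c222e18cce14128c1222238cca12122c618228cce,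
    0x344612aa18144ac614148aa18248ac244614a1a58148ace], [0,
    0x1224122e12ca148e124c12c111e4124caa12128c111e4122cce, 0,
    0x124212c2e38122cc124e12c228212cce14124c212228cce,
    0x144214ae12342ac144e14a212242ac144a14a618344ace], [0, 0, 0,
    0x22a22662ceea2ea68cce6a4ee62c22ae2222cce2a42268c2ea2ee62cce,
    0x62c42264aaeee2e48aceeee2e42a22c22268acaac22e64a66c2e268ace]]

noncomputable def n3661 : Ent := ⟨e3661, noF, [], [], [(7, 13, [1685382419725355503238989871268909155780284044704628512909414412289, 0]), (16, 15, [1685356702439545624007900436039642273970977273354372543760015081473, 0])]⟩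

def c3661 : PLift (Cov.check n3661.C.D v3661 = true) := ⟨by decide +kernel⟩

def b3661 : PLift (entF (fidx ts) 400 3661 n3661 = true) := ⟨by decide +kernel⟩

theorem g3661 : GoodF (fidx ts) 400 3661 := GoodF.ofV v3661 n3661 c3661.down b3661.down

/-- 57744:2731 -/
noncomputable def e3662 : SCfg where
  D := {
    a := 5
    L := 9
    kp := 6
    inn := [(0, 1), (0, 2), (0, 4), (1, 0), (1, 2), (1, 3), (2, 0), (2, 1), (2, 3), (3, 1), (3, 2), (4,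
      0)]
    mix := [(0, 0), (0, 1), (1, 1), (1, 2), (1, 3), (1, 4), (2, 0), (2, 5), (2, 6), (2, 7), (3, 4), (3,
      5), (4, 0), (4, 1), (4, 8)]
    cl := [0, 1, 3, 2, 1, 0, 4, 5, 6]
    chq := []
    rng := [(0, 7), (0, 8), (1, 2), (1, 8), (2, 1), (2, 3), (3, 2), (3, 4), (4, 3), (4, 5), (5, 4), (5,
      6), (6, 5), (6, 7), (7, 0), (7, 6), (8, 0), (8, 1)]
    lev := [] }
  links := [[5, 4, 6, 1, 2], [2, 0, 6, 7, 8, 9, 3], [5, 0, 1, 3, 10, 11, 12], [1, 9, 10, 2], [6, 0, 5,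
    13]]
  P := {
    a := 5
    N := 14
    nb := [118, 973, 7211, 1542, 8289, 12309, 8339, 322, 642, 1290, 2572, 5124, 2084, 112]
    tri := [(0, 1, 2), (0, 1, 6), (0, 2, 5), (0, 4, 5), (0, 4, 6), (1, 2, 3), (1, 3, 9), (1, 6, 7), (1,
      7, 8), (1, 8, 9), (2, 3, 10), (2, 5, 12), (2, 10, 11), (2, 11, 12), (3, 9, 10), (4, 5, 13),
      (4, 6, 13)]
    fin := [0, 1, 0, 0, 0, 0, 1, 7, 8, 1, 0, 11, 12, 13]
    chd := []
    steps := [(0, 2), (0, 3), (0, 4), (0, 5), (0, 10), (1, 6), (1, 9)] }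
  rep := [0, 1, 8, 7, 11, 12, 13]

noncomputable def v3662 : Cov.CovD where
  P := 3
  N := 4
  pl := [2, 3, 6, 7, 8]
  lev := [⟨[], [], [(0, 1)], [], [(0, 0, []), (1, 1, [])]⟩,
    ⟨[], [(0, 0), (0, 1)], [(1, 1)], [2, 3], [(1, 1, []), (4, 1, [])]⟩,
    ⟨[(0, 1)], [(0, 0), (0, 1), (1, 0), (1, 1)], [(0, 0)], [4, 5], [(0, 0, []), (5, 0,
      [])]⟩,
    ⟨[(0, 1), (0, 2), (1, 2)], [(1, 0), (1, 1), (2, 0), (2, 1)], [(0, 1)], [], [(4, 1, []),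
      (5, 0, [])]⟩,
    ⟨[(0, 1), (0, 2)], [(0, 0), (0, 1), (1, 1), (2, 0)], [(0, 1)], [6], [(0, 0, []), (1, 1,
      [])]⟩]
  Ta := [((0, 7), 0, 5), ((0, 8), 0, 6), ((1, 2), 1, 3), ((1, 8), 1, 6), ((4, 3), 1, 2), ((4, 5),
    1, 0), ((5, 4), 0, 1), ((5, 6), 0, 4)]
  Tb := [((0, 7, 8), 0, 5, 6), ((1, 2, 8), 1, 3, 6), ((2, 1, 3), 3, 1, 2), ((3, 2, 4), 2, 3, 1),
    ((4, 3, 5), 1, 2, 0), ((5, 4, 6), 0, 1, 4), ((6, 5, 7), 4, 0, 5), ((7, 0, 6), 5, 0, 4),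
    ((8, 0, 1), 6, 0, 1)]
  Tc := []
  Td := []
  G := [[0, 0, 0x42444c8c8ecc281c1e888cc, 0, 0x4244449c288c1ec482c4e9c], [0, 0,
    0x2844242121e2128acc, 0x212124e242824e58, 0x242128e242828e94], [0, 0,
    0x14146121218ec1288c, 0, 0x121218e181818e94], [0, 0xa2c4c8ec2c2c4ec2, 0x242828e282828ec1,
    0x242824e242828ec1, 0x141828e182814e94]]

noncomputable def n3662 : Ent := ⟨e3662, noF, [], [], []⟩

def c3662 : PLift (Cov.check n3662.C.D v3662 = true) := ⟨by decide +kernel⟩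

def b3662 : PLift (entF (fidx ts) 400 3662 n3662 = true) := ⟨by decide +kernel⟩

theorem g3662 : GoodF (fidx ts) 400 3662 := GoodF.ofV v3662 n3662 c3662.down b3662.down

/-- 586444:2732/1 -/
noncomputable def e3663 : SCfg where
  D := {
    a := 6
    L := 10
    kp := 7
    inn := [(0, 3), (1, 2), (1, 3), (1, 5), (2, 1), (2, 4), (3, 0), (3, 1), (4, 2), (5, 1)]
    mix := [(0, 0), (0, 1), (0, 2), (0, 3), (1, 0), (1, 1), (1, 4), (1, 5), (1, 6), (2, 1), (2, 2), (2,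
      4), (2, 7), (3, 0), (3, 1), (4, 4), (4, 7), (4, 8), (5, 5), (5, 6), (5, 9)]
    cl := [0, 0, 1, 7, 0, 2, 3, 4, 5, 6]
    chq := [(0, 6), (1, 5), (5, 1), (6, 0)]
    rng := [(0, 3), (0, 5), (1, 2), (2, 1), (2, 3), (2, 7), (3, 0), (3, 2), (4, 6), (4, 8), (5, 0), (5,
      9), (6, 4), (6, 9), (7, 2), (7, 8), (8, 4), (8, 7), (9, 5), (9, 6)]
    lev := [] }
  links := [[6, 3, 7, 8, 9], [10, 2, 7, 3, 6, 11, 5, 12], [8, 7, 1, 10, 4, 13], [7, 0, 6, 1], [2, 10, 14,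
    13], [1, 11, 15, 12]]
  P := {
    a := 6
    N := 16
    nb := [968, 7404, 9618, 195, 25604, 38914, 2571, 271, 8837, 321, 20502, 32866, 33826, 16660, 9232,
      6176]
    tri := [(0, 3, 6), (0, 3, 7), (0, 6, 9), (0, 7, 8), (0, 8, 9), (1, 2, 7), (1, 2, 10), (1, 3, 6),
      (1, 3, 7), (1, 5, 11), (1, 5, 12), (1, 6, 11), (1, 10, 12), (2, 4, 10), (2, 4, 13), (2, 7,
      8), (2, 8, 13), (4, 10, 14), (4, 13, 14), (5, 11, 15), (5, 12, 15)]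
    fin := [0, 0, 2, 0, 2, 0, 0, 0, 8, 9, 0, 11, 12, 13, 2, 15]
    chd := [(0, 15), (8, 2)]
    steps := [(0, 3), (0, 1), (0, 5), (0, 6), (0, 10), (0, 7), (2, 4), (2, 14)] }
  rep := [0, 8, 11, 12, 13, 2, 15, 9]

noncomputable def v3663 : Cov.CovD where
  P := 3
  N := 5
  pl := [3, 5, 6, 7]
  lev := [⟨[], [], [(0, 0), (0, 1)], [7], [(0, 0, [6]), (1, 0, [6]), (2, 1, [5])]⟩,
    ⟨[], [(0, 0)], [(0, 0)], [2, 3], [(0, 0, [6]), (1, 0, [6]), (4, 0, [6])]⟩,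
    ⟨[], [(0, 0), (0, 1), (1, 0), (1, 1)], [(0, 0), (0, 1)], [4], [(1, 0, [6]), (2, 1,
      [5]), (4, 0, [6])]⟩,
    ⟨[(0, 1), (1, 2)], [(0, 0), (0, 1), (1, 0), (2, 0)], [(0, 0)], [], [(0, 0, [6]), (1, 0,
      [6])]⟩,
    ⟨[(1, 2)], [(1, 0), (2, 0), (2, 1), (2, 5)], [(0, 5)], [4], [(4, 0, [6]), (8, 5, [1])]⟩,
    ⟨[(1, 2), (1, 3)], [(1, 0), (1, 6)], [], [2, 3], [(9, 6, [0])]⟩]
  Ta := [((0, 3), 0, 7), ((0, 5), 0, 2), ((1, 2), 0, 1), ((4, 6), 0, 3), ((4, 8), 0, 5)]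
  Tb := [((0, 3, 5), 0, 7, 2), ((2, 1, 3), 1, 0, 7), ((2, 1, 7), 1, 0, 4), ((2, 3, 7), 1, 7, 4),
    ((3, 0, 2), 7, 0, 1), ((4, 6, 8), 0, 3, 5), ((5, 0, 9), 2, 0, 6), ((6, 4, 9), 3, 0, 6),
    ((7, 2, 8), 4, 1, 5), ((8, 4, 7), 5, 0, 4), ((9, 5, 6), 6, 2, 3)]
  Tc := []
  Td := [((0, 6), (0, 3), 7), ((0, 6), (0, 5), 2), ((0, 6), (1, 2), 1), ((0, 6), (4, 6), 3), ((0,
    6), (4, 8), 5), ((1, 5), (2, 1), 0), ((1, 5), (2, 3), 7), ((1, 5), (2, 7), 4), ((5, 1),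
    (8, 4), 0), ((5, 1), (8, 7), 4), ((6, 0), (9, 5), 2), ((6, 0), (9, 6), 3)]
  G := [[0, 0, 0xc144c288a24618cec2444c328a24e14cec, 0x114122c124112cc112128c128118ccc,
    0x114124c128114ca112128c118122cac], [0, 0x11421124c11441122c11281148ce, 0,
    0x124112c112128cc112122c122112ccc, 0x124112c122118ca112128c128114cac], [0, 0, 0,
    0x11621da4cddde2122cc124ddde2c11de8128ccc, 0x1249b3e2c3ba41962ca116419a2cbba8b364cac]]

noncomputable def n3663 : Ent := ⟨e3663, noF, [], [], []⟩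

def c3663 : PLift (Cov.check n3663.C.D v3663 = true) := ⟨by decide +kernel⟩

def b3663 : PLift (entF (fidx ts) 400 3663 n3663 = true) := ⟨by decide +kernel⟩

theorem g3663 : GoodF (fidx ts) 400 3663 := GoodF.ofV v3663 n3663 c3663.down b3663.down

/-- 586444:2732 -/
noncomputable def e3664 : SCfg where
  D := {
    a := 6
    L := 11
    kp := 8
    inn := [(0, 3), (1, 2), (1, 3), (1, 5), (2, 1), (2, 4), (3, 0), (3, 1), (4, 2), (5, 1)]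
    mix := [(0, 0), (0, 1), (0, 2), (0, 3), (1, 0), (1, 1), (1, 4), (1, 5), (1, 6), (2, 1), (2, 4), (2,
      7), (2, 8), (3, 0), (3, 1), (4, 4), (4, 8), (4, 9), (5, 5), (5, 6), (5, 10)]
    cl := [0, 0, 7, 8, 0, 1, 2, 4, 3, 5, 6]
    chq := [(0, 6), (4, 5), (5, 4), (6, 0)]
    rng := [(0, 3), (0, 5), (1, 2), (1, 7), (2, 1), (2, 3), (3, 0), (3, 2), (4, 6), (4, 9), (5, 0), (5,
      10), (6, 4), (6, 10), (7, 1), (7, 8), (8, 7), (8, 9), (9, 4), (9, 8), (10, 5), (10, 6)]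
    lev := [] }
  links := [[6, 3, 7, 8, 9], [10, 2, 7, 3, 6, 11, 5, 12], [13, 7, 1, 10, 4, 14], [7, 0, 6, 1], [2, 10,
    15, 14], [1, 11, 16, 12]]
  P := {
    a := 6
    N := 17
    nb := [968, 7404, 25746, 195, 50180, 71682, 2571, 8463, 641, 321, 36886, 65634, 66594, 16516,
      40980, 17424, 6176]
    tri := [(0, 3, 6), (0, 3, 7), (0, 6, 9), (0, 7, 8), (0, 8, 9), (1, 2, 7), (1, 2, 10), (1, 3, 6),
      (1, 3, 7), (1, 5, 11), (1, 5, 12), (1, 6, 11), (1, 10, 12), (2, 4, 10), (2, 4, 14), (2, 7,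
      13), (2, 13, 14), (4, 10, 15), (4, 14, 15), (5, 11, 16), (5, 12, 16)]
    fin := [0, 0, 2, 0, 2, 0, 0, 0, 8, 9, 0, 11, 12, 13, 14, 2, 16]
    chd := [(0, 16), (13, 2)]
    steps := [(0, 3), (0, 1), (0, 5), (0, 6), (0, 10), (0, 7), (2, 4), (2, 15)] }
  rep := [0, 11, 12, 14, 13, 2, 16, 8, 9]

noncomputable def v3664 : Cov.CovD where
  P := 3
  N := 6
  pl := [2, 3, 5, 6, 8]
  lev := [⟨[], [], [(0, 0)], [7, 8], [(0, 0, [6]), (1, 0, [6])]⟩,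
    ⟨[], [(0, 0)], [(0, 0)], [1, 2], [(0, 0, [6]), (1, 0, [6]), (4, 0, [6])]⟩,
    ⟨[], [(0, 0), (1, 0), (1, 4)], [(0, 0), (0, 4)], [3], [(1, 0, [6]), (4, 0, [6]), (7, 4,
      [5])]⟩,
    ⟨[(0, 1), (1, 2)], [(0, 0), (1, 0), (2, 0)], [(0, 0)], [], [(0, 0, [6]), (1, 0, [6])]⟩,
    ⟨[(1, 2)], [(1, 0), (2, 0), (2, 4), (2, 5)], [(0, 5)], [3], [(4, 0, [6]), (9, 5, [4])]⟩,
    ⟨[(1, 2), (1, 3)], [(1, 0), (1, 6)], [], [1, 2], [(10, 6, [0])]⟩]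
  Ta := [((0, 3), 0, 8), ((0, 5), 0, 1), ((1, 2), 0, 7), ((1, 7), 0, 4), ((4, 6), 0, 2), ((4, 9),
    0, 5)]
  Tb := [((0, 3, 5), 0, 8, 1), ((1, 2, 7), 0, 7, 4), ((2, 1, 3), 7, 0, 8), ((3, 0, 2), 8, 0, 7),
    ((4, 6, 9), 0, 2, 5), ((5, 0, 10), 1, 0, 6), ((6, 4, 10), 2, 0, 6), ((7, 1, 8), 4, 0, 3),
    ((8, 7, 9), 3, 4, 5), ((9, 4, 8), 5, 0, 3), ((10, 5, 6), 6, 1, 2)]
  Tc := []
  Td := [((0, 6), (0, 3), 8), ((0, 6), (0, 5), 1), ((0, 6), (1, 2), 7), ((0, 6), (1, 7), 4), ((0,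
    6), (4, 6), 2), ((0, 6), (4, 9), 5), ((4, 5), (7, 1), 0), ((4, 5), (7, 8), 3), ((5, 4),
    (9, 4), 0), ((5, 4), (9, 8), 3), ((6, 0), (10, 5), 1), ((6, 0), (10, 6), 2)]
  G := [[0, 0x4144c34c48d4e88628ccc344c12cc52accc92c146cc688ce, 0,
    0x115211a2112e811621181198e411641194118e8e, 0x11411a41152e811411341152e811621141198e8e],
    [0, 0, 0, 0x11811321158e4115211a2114e811411381154e4e,
    0x11341121194e811521198118e8116411a2114e8e], [0, 0,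
    0x44a24cc6888a8ccc8eccca44cc68ccc8ac442cca4ccc2e8c688ce,
    0x11a24116411c8ac116411a411c8e8116811a211c8e4e,
    0x116411a211c2e8116211a411c4e8116211a411c2e8e]]

noncomputable def n3664 : Ent := ⟨e3664, noF, [], [], [(13, 8, [1685382419725355503238989898491498509455361121774597107450871345153, 0])]⟩

def c3664 : PLift (Cov.check n3664.C.D v3664 = true) := ⟨by decide +kernel⟩

def b3664 : PLift (entF (fidx ts) 400 3664 n3664 = true) := ⟨by decide +kernel⟩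

theorem g3664 : GoodF (fidx ts) 400 3664 := GoodF.ofV v3664 n3664 c3664.down b3664.down

/-- 767444:2734/1 -/
noncomputable def e3665 : SCfg where
  D := {
    a := 6
    L := 9
    kp := 6
    inn := [(0, 1), (0, 3), (0, 4), (1, 0), (1, 2), (1, 3), (2, 1), (2, 3), (2, 5), (3, 0), (3, 1), (3,
      2), (4, 0), (5, 2)]
    mix := [(0, 0), (0, 1), (0, 2), (0, 3), (1, 1), (1, 4), (1, 5), (2, 2), (2, 5), (2, 6), (2, 7), (3,
      2), (4, 0), (4, 1), (4, 8), (5, 2), (5, 3), (5, 7)]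
    cl := [2, 1, 0, 1, 5, 0, 4, 3, 6]
    chq := [(1, 4), (4, 1)]
    rng := [(0, 3), (0, 8), (1, 4), (1, 8), (2, 3), (3, 0), (3, 2), (3, 7), (4, 1), (4, 5), (5, 4), (5,
      6), (6, 5), (6, 7), (7, 3), (7, 6), (8, 0), (8, 1)]
    lev := [] }
  links := [[6, 4, 7, 1, 3, 8, 9], [0, 7, 10, 11, 2, 3], [8, 3, 1, 11, 12, 13, 5], [1, 2, 8, 0], [7, 0,
    6, 14], [2, 13, 9, 8]]
  P := {
    a := 6
    N := 15
    nb := [986, 3213, 14634, 263, 16577, 8964, 16913, 17427, 557, 8545, 2178, 5126, 10244, 4644, 208]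
    tri := [(0, 1, 3), (0, 1, 7), (0, 3, 8), (0, 4, 6), (0, 4, 7), (0, 6, 9), (0, 8, 9), (1, 2, 3), (1,
      2, 11), (1, 7, 10), (1, 10, 11), (2, 3, 8), (2, 5, 8), (2, 5, 13), (2, 11, 12), (2, 12, 13),
      (4, 6, 14), (4, 7, 14), (5, 8, 9), (5, 9, 13)]
    fin := [0, 1, 0, 1, 4, 0, 4, 0, 1, 0, 10, 1, 12, 13, 14]
    chd := [(0, 12)]
    steps := [(0, 7), (0, 9), (0, 5), (1, 3), (1, 11), (1, 8), (0, 2), (4, 6)] }
  rep := [1, 0, 4, 13, 12, 10, 14]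

noncomputable def v3665 : Cov.CovD where
  P := 3
  N := 4
  pl := [0, 4, 7, 8]
  lev := [⟨[], [], [(0, 1), (1, 1)], [2], [(1, 1, [4]), (2, 0, []), (3, 1, [4])]⟩,
    ⟨[], [(0, 0), (0, 1)], [(0, 1)], [5], [(1, 1, [4]), (5, 0, [])]⟩,
    ⟨[(0, 1)], [(0, 0), (1, 0), (1, 1), (1, 4)], [(0, 0), (0, 4)], [3], [(2, 0, []), (5, 0,
      []), (6, 4, [1])]⟩,
    ⟨[(0, 1), (0, 2), (1, 2)], [(0, 0), (0, 1), (1, 0), (1, 1), (2, 0), (2, 4)], [], [],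
      [(2, 0, [])]⟩,
    ⟨[(0, 1), (0, 3)], [(0, 0), (0, 1), (1, 1)], [], [2, 6], [(1, 1, [4])]⟩,
    ⟨[(1, 2), (2, 3)], [(0, 0), (0, 1), (2, 0), (2, 1), (2, 4), (3, 0)], [(0, 1)], [3],
      [(2, 0, []), (3, 1, [4])]⟩]
  Ta := [((1, 4), 1, 5), ((1, 8), 1, 6), ((2, 3), 0, 1), ((3, 0), 1, 2), ((3, 2), 1, 0), ((3, 7),
    1, 3), ((5, 4), 0, 5), ((5, 6), 0, 4)]
  Tb := [((0, 3, 8), 2, 1, 6), ((1, 4, 8), 1, 5, 6), ((3, 0, 2), 1, 2, 0), ((3, 0, 7), 1, 2, 3),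
    ((3, 2, 7), 1, 0, 3), ((4, 1, 5), 5, 1, 0), ((5, 4, 6), 0, 5, 4), ((6, 5, 7), 4, 0, 3),
    ((7, 3, 6), 3, 1, 4), ((8, 0, 1), 6, 2, 1)]
  Tc := []
  Td := [((1, 4), (1, 4), 5), ((1, 4), (1, 8), 6), ((1, 4), (3, 0), 2), ((1, 4), (3, 2), 0), ((1,
    4), (3, 7), 3), ((4, 1), (6, 5), 0), ((4, 1), (6, 7), 3)]
  G := [[0, 0, 0xccc8214, 0, 0xcc94218], [0, 0x4122146812218a814412ce4, 0x424422c28e18,
    0xccc2214, 0x822422c28e18], [0, 0, 0x9458c2455c828c, 0, 0x5142cc912cc84289], [0, 0,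
    0xc24252824418c18c8ce4, 0x9c58299922c4, 0x12421282889441489ce8]]

noncomputable def n3665 : Ent := ⟨e3665, noF, [], [], []⟩

def c3665 : PLift (Cov.check n3665.C.D v3665 = true) := ⟨by decide +kernel⟩

def b3665 : PLift (entF (fidx ts) 400 3665 n3665 = true) := ⟨by decide +kernel⟩

theorem g3665 : GoodF (fidx ts) 400 3665 := GoodF.ofV v3665 n3665 c3665.down b3665.down

/-- 767444:2734 -/
noncomputable def e3666 : SCfg where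
  D := {
    a := 6
    L := 10
    kp := 7
    inn := [(0, 1), (0, 3), (0, 4), (1, 0), (1, 2), (1, 3), (2, 1), (2, 3), (2, 5), (3, 0), (3, 1), (3,
      2), (4, 0), (5, 2)]
    mix := [(0, 0), (0, 1), (0, 2), (0, 3), (1, 1), (1, 4), (1, 5), (2, 2), (2, 5), (2, 6), (2, 7), (3,
      2), (4, 0), (4, 1), (4, 8), (5, 2), (5, 7), (5, 9)]
    cl := [2, 1, 0, 1, 5, 3, 0, 4, 6, 7]
    chq := [(0, 5), (5, 0)]
    rng := [(0, 3), (0, 8), (1, 4), (1, 8), (2, 3), (2, 9), (3, 0), (3, 2), (4, 1), (4, 5), (5, 4), (5,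
      6), (6, 5), (6, 7), (7, 6), (7, 9), (8, 0), (8, 1), (9, 2), (9, 7)]
    lev := [] }
  links := [[6, 4, 7, 1, 3, 8, 9], [0, 7, 10, 11, 2, 3], [8, 3, 1, 11, 12, 13, 5], [1, 2, 8, 0], [7, 0,
    6, 14], [2, 13, 15, 8]]
  P := {
    a := 6
    N := 16
    nb := [986, 3213, 14634, 263, 16577, 41220, 16913, 17427, 33325, 321, 2178, 5126, 10244, 36900,
      208, 8480]
    tri := [(0, 1, 3), (0, 1, 7), (0, 3, 8), (0, 4, 6), (0, 4, 7), (0, 6, 9), (0, 8, 9), (1, 2, 3), (1,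
      2, 11), (1, 7, 10), (1, 10, 11), (2, 3, 8), (2, 5, 8), (2, 5, 13), (2, 11, 12), (2, 12, 13),
      (4, 6, 14), (4, 7, 14), (5, 8, 15), (5, 13, 15)]
    fin := [0, 1, 2, 0, 4, 2, 4, 0, 2, 0, 1, 11, 2, 13, 14, 15]
    chd := [(2, 1)]
    steps := [(0, 3), (0, 7), (0, 9), (1, 10), (2, 5), (2, 12), (2, 8), (4, 6)] }
  rep := [2, 0, 4, 11, 13, 1, 14, 15]

noncomputable def v3666 : Cov.CovD where
  P := 3
  N := 5
  pl := [0, 5, 7, 8, 9]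
  lev := [⟨[], [], [(0, 1), (1, 1)], [2], [(1, 1, []), (2, 0, [5]), (3, 1, [])]⟩,
    ⟨[], [(0, 0), (0, 1), (0, 5)], [(1, 5)], [3], [(1, 1, []), (4, 5, [0])]⟩,
    ⟨[(0, 1)], [(0, 0), (1, 0), (1, 1), (1, 5)], [(0, 0)], [3, 4], [(2, 0, [5]), (6, 0,
      [5])]⟩,
    ⟨[(0, 1), (0, 2), (1, 2)], [(0, 0), (0, 1), (1, 0), (1, 1), (1, 5), (2, 0)], [], [],
      [(2, 0, [5])]⟩,
    ⟨[(0, 1), (0, 3)], [(0, 0), (0, 1), (1, 1)], [], [2, 6], [(1, 1, [])]⟩,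
    ⟨[(1, 2), (2, 3)], [(0, 0), (2, 0), (3, 0)], [], [4, 7], [(2, 0, [5])]⟩]
  Ta := [((1, 4), 1, 5), ((1, 8), 1, 6), ((2, 3), 0, 1), ((2, 9), 0, 7), ((3, 0), 1, 2), ((3, 2),
    1, 0), ((6, 5), 0, 3), ((6, 7), 0, 4)]
  Tb := [((0, 3, 8), 2, 1, 6), ((1, 4, 8), 1, 5, 6), ((2, 3, 9), 0, 1, 7), ((3, 0, 2), 1, 2, 0),
    ((4, 1, 5), 5, 1, 3), ((5, 4, 6), 3, 5, 0), ((6, 5, 7), 0, 3, 4), ((7, 6, 9), 4, 0, 7),
    ((8, 0, 1), 6, 2, 1), ((9, 2, 7), 7, 0, 4)]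
  Tc := []
  Td := [((0, 5), (2, 3), 1), ((0, 5), (2, 9), 7), ((0, 5), (6, 5), 3), ((0, 5), (6, 7), 4), ((5,
    0), (4, 1), 1), ((5, 0), (4, 5), 3)]
  G := [[0, 0, 0xeec4eec2eec4e18, 0, 0xee92e1e8aee94e18], [0, 0xeec4e4e8aeec4e18,
    0xe24e22e24e14, 0xee94eec2eec8e14, 0xe22e22e24e18], [0, 0,
    0x11c41418ac411c211c2cccc211c8bec8e9c, 0, 0x112114611941118ac3992e5929394ed88486a88689],
    [0, 0, 0x11c466c1ca24124128e38, 0x11941158ca5c456c21952e38, 0x11941194c524924328e38]]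

noncomputable def n3666 : Ent := ⟨e3666, noF, [], [], [(15, 9, [360035742630636841345797572106540607504961255222653860058566657, 0])]⟩

def c3666 : PLift (Cov.check n3666.C.D v3666 = true) := ⟨by decide +kernel⟩

def b3666 : PLift (entF (fidx ts) 400 3666 n3666 = true) := ⟨by decide +kernel⟩

theorem g3666 : GoodF (fidx ts) 400 3666 := GoodF.ofV v3666 n3666 c3666.down b3666.down

/-- 956644:2735 -/
noncomputable def e3667 : SCfg where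
  D := {
    a := 6
    L := 12
    kp := 8
    inn := [(0, 1), (0, 2), (0, 3), (0, 4), (0, 5), (1, 0), (1, 4), (2, 0), (2, 3), (3, 0), (3, 2), (4,
      0), (4, 1), (5, 0)]
    mix := [(0, 0), (0, 1), (0, 2), (0, 3), (1, 3), (1, 4), (1, 5), (2, 1), (2, 6), (2, 7), (2, 8), (3,
      2), (3, 6), (3, 9), (3, 10), (4, 0), (4, 4), (5, 0), (5, 1), (5, 11)]
    cl := [1, 0, 0, 1, 2, 3, 0, 4, 5, 6, 7, 8]
    chq := []
    rng := [(0, 4), (0, 11), (1, 7), (1, 11), (2, 3), (2, 10), (3, 2), (3, 5), (4, 0), (4, 5), (5, 3),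
      (5, 4), (6, 8), (6, 9), (7, 1), (7, 8), (8, 6), (8, 7), (9, 6), (9, 10), (10, 2), (10, 9),
      (11, 0), (11, 1)]
    lev := [] }
  links := [[1, 4, 6, 5, 7, 2, 3, 8, 9], [10, 4, 0, 9, 11], [12, 3, 0, 7, 13, 14], [8, 0, 2, 12, 15, 16],
    [0, 1, 10, 6], [0, 6, 17, 7]]
  P := {
    a := 6
    N := 18
    nb := [1022, 3601, 28809, 102661, 1091, 131265, 132145, 139301, 66057, 2307, 2130, 1538, 49164,
      16516, 12292, 69640, 33032, 224]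
    tri := [(0, 1, 4), (0, 1, 9), (0, 2, 3), (0, 2, 7), (0, 3, 8), (0, 4, 6), (0, 5, 6), (0, 5, 7), (0,
      8, 9), (1, 4, 10), (1, 9, 11), (1, 10, 11), (2, 3, 12), (2, 7, 13), (2, 12, 14), (2, 13,
      14), (3, 8, 16), (3, 12, 15), (3, 15, 16), (4, 6, 10), (5, 6, 17), (5, 7, 17)]
    fin := [0, 0, 2, 2, 0, 0, 0, 2, 2, 0, 10, 11, 2, 13, 14, 15, 16, 17]
    chd := []
    steps := [(0, 1), (0, 4), (0, 5), (0, 6), (0, 9), (2, 3), (2, 7), (2, 12), (2, 8)] }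
  rep := [2, 0, 10, 11, 13, 14, 15, 16, 17]

noncomputable def v3667 : Cov.CovD where
  P := 3
  N := 6
  pl := [4, 5, 7, 8, 9, 10, 11]
  lev := [⟨[], [], [(0, 0), (0, 1), (1, 1)], [], [(0, 1, []), (1, 0, []), (2, 0, []), (3, 1,
      [])]⟩,
    ⟨[], [(0, 0), (0, 1)], [], [2, 3], [(3, 1, [])]⟩,
    ⟨[(0, 1)], [(0, 0), (0, 1)], [(0, 0)], [4, 5], [(1, 0, []), (6, 0, [])]⟩,
    ⟨[(0, 1), (0, 2)], [(0, 0), (0, 1), (2, 0)], [(0, 0)], [6, 7], [(2, 0, []), (6, 0,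
      [])]⟩,
    ⟨[(0, 1), (0, 2), (0, 3)], [(0, 0), (0, 1), (1, 1)], [], [2], [(0, 1, [])]⟩,
    ⟨[(0, 1), (0, 2), (0, 3), (0, 4)], [(0, 0), (0, 1), (2, 0), (4, 1)], [(0, 1)], [8],
      [(0, 1, []), (1, 0, [])]⟩]
  Ta := [((0, 4), 1, 2), ((0, 11), 1, 8), ((1, 7), 0, 4), ((1, 11), 0, 8), ((2, 3), 0, 1), ((2,
    10), 0, 7), ((3, 2), 1, 0), ((3, 5), 1, 3), ((6, 8), 0, 5), ((6, 9), 0, 6)]
  Tb := [((0, 4, 11), 1, 2, 8), ((1, 7, 11), 0, 4, 8), ((2, 3, 10), 0, 1, 7), ((3, 2, 5), 1, 0,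
    3), ((4, 0, 5), 2, 1, 3), ((5, 3, 4), 3, 1, 2), ((6, 8, 9), 0, 5, 6), ((7, 1, 8), 4, 0,
    5), ((8, 6, 7), 5, 0, 4), ((9, 6, 10), 6, 0, 7), ((10, 2, 9), 7, 0, 6), ((11, 0, 1), 8,
    1, 0)]
  Tc := []
  Td := []
  G := [[0, 0, 0x44444c4c4e44c4c4ee2c888c8e888848e2c,
    0x41444c144ec4416e41444c1c1e4148cce54188c8e8881ac1c1ae8888a8188aac18141e888cdc,
    0x41441c1c1e484e2c881c1e888c888c1ee2c], [0, 0,
    0x24246424246242428e242824eec282824e288242824ee2888cc, 0,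
    0x212164212821e49282128e288282821ee282128e212121ea9c], [0, 0,
    0x14146141414e141414ee218882c, 0x14146141414e111114ee112111111e141414ee518881818c89c,
    0x11442111811e1818a181811ee2c], [0,
    0x68a8a8ec1a8a4eaa8a8aa8a8aacc1c1c4e4a4468c4c4ec44ec6,
    0x124412146141214e121214eec241824e1812a142812ee1288cc, 0,
    0x114412116111112e112121ee9122812e2812a122112ee11889c], [0, 0,
    0x1418c42181818e182181818ee2c, 0x144414445111811e1811a111111ee141111e1111a111111ee9c,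
    0x11116111111e111118ee218882c], [0, 0,
    0x1244124122824e141424eec241228e1212a121218ee2812a8cc, 0,
    0x2144111221e49111228e2812a211212ee212112e281828ea9c]]

noncomputable def n3667 : Ent := ⟨e3667, noF, [], [], []⟩

def c3667 : PLift (Cov.check n3667.C.D v3667 = true) := ⟨by decide +kernel⟩

def b3667 : PLift (entF (fidx ts) 400 3667 n3667 = true) := ⟨by decide +kernel⟩

theorem g3667 : GoodF (fidx ts) 400 3667 := GoodF.ofV v3667 n3667 c3667.down b3667.down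

/-- 9566644:2736/1 -/
noncomputable def e3668 : SCfg where
  D := {
    a := 7
    L := 11
    kp := 9
    inn := [(0, 1), (0, 2), (0, 3), (0, 4), (0, 5), (0, 6), (1, 0), (1, 4), (1, 5), (2, 0), (2, 3), (2,
      6), (3, 0), (3, 2), (4, 0), (4, 1), (5, 0), (5, 1), (6, 0), (6, 2)]
    mix := [(0, 0), (0, 1), (0, 2), (1, 3), (1, 4), (2, 5), (2, 6), (2, 7), (3, 2), (3, 7), (3, 8), (3,
      9), (4, 2), (4, 4), (4, 9), (4, 10), (5, 0), (5, 3), (6, 1), (6, 5)]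
    cl := [2, 1, 0, 5, 3, 6, 7, 0, 9, 4, 8]
    chq := [(0, 1), (1, 0), (1, 3), (1, 4), (1, 7), (1, 8), (2, 3), (3, 1), (3, 2), (4, 1), (7, 1), (8,
      1)]
    rng := [(0, 1), (0, 3), (1, 0), (1, 5), (2, 9), (3, 0), (3, 4), (4, 3), (4, 10), (5, 1), (5, 6),
      (6, 5), (6, 7), (7, 6), (7, 8), (8, 7), (8, 9), (9, 2), (9, 8), (9, 10), (10, 4), (10, 9)]
    lev := [] }
  links := [[1, 5, 7, 8, 6, 2, 3, 9, 4], [10, 5, 0, 4, 11], [3, 0, 6, 12, 13, 14], [9, 0, 2, 14, 15, 16],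
    [11, 1, 0, 9, 16, 17], [0, 1, 10, 7], [0, 8, 12, 2]]
  P := {
    a := 7
    N := 18
    nb := [1022, 3121, 28745, 115205, 199171, 1155, 4357, 1313, 4289, 65561, 2210, 132114, 8516,
      20484, 40972, 81928, 164376, 67600]
    tri := [(0, 1, 4), (0, 1, 5), (0, 2, 3), (0, 2, 6), (0, 3, 9), (0, 4, 9), (0, 5, 7), (0, 6, 8), (0,
      7, 8), (1, 4, 11), (1, 5, 10), (1, 10, 11), (2, 3, 14), (2, 6, 12), (2, 12, 13), (2, 13,
      14), (3, 9, 16), (3, 14, 15), (3, 15, 16), (4, 9, 16), (4, 11, 17), (4, 16, 17), (5, 7, 10),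
      (6, 8, 12)]
    fin := [0, 1, 0, 3, 0, 1, 0, 1, 0, 3, 10, 11, 12, 13, 3, 15, 16, 17]
    chd := [(0, 3), (0, 11), (0, 13), (0, 16), (0, 17), (1, 11)]
    steps := [(0, 2), (0, 4), (0, 6), (0, 8), (1, 5), (1, 7), (3, 14), (3, 9)] }
  rep := [3, 0, 1, 11, 16, 10, 12, 13, 17, 15]

noncomputable def v3668 : Cov.CovD where
  P := 3
  N := 7
  pl := [3, 5, 8]
  lev := [⟨[], [], [(0, 1), (0, 2), (1, 2)], [], [(0, 2, [3]), (1, 1, [0, 3, 4, 7, 8]), (2, 0,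
      [1])]⟩,
    ⟨[], [(0, 0), (0, 1), (0, 2), (0, 3)], [], [5], [(4, 3, [1, 2])]⟩,
    ⟨[(0, 1)], [(0, 0), (0, 1), (0, 2), (0, 7)], [(0, 7)], [6], [(6, 7, [1]), (7, 0, [1])]⟩,
    ⟨[(0, 1), (0, 2)], [(0, 0), (0, 1), (0, 2), (0, 4), (2, 0), (2, 4), (2, 7)], [(0, 0),
      (0, 4)], [9], [(2, 0, [1]), (7, 0, [1]), (9, 4, [1])]⟩,
    ⟨[(0, 1), (0, 2), (0, 3)], [(0, 0), (0, 1), (0, 2), (0, 3), (0, 4), (0, 8), (1, 0), (1,
      3), (1, 4), (1, 8), (3, 0), (3, 4)], [(0, 3), (0, 4), (0, 8), (3, 4), (3, 8), (4, 8)],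
      [], [(2, 0, [1]), (4, 3, [1, 2]), (9, 4, [1]), (10, 8, [1])]⟩,
    ⟨[(0, 1), (0, 2), (0, 3), (0, 4), (1, 4)], [(0, 0), (0, 1), (0, 2), (1, 2), (1, 3)],
      [], [5], [(0, 2, [3])]⟩,
    ⟨[(0, 1), (0, 2), (0, 3), (0, 4), (0, 5), (2, 3)], [(0, 0), (0, 1), (0, 2), (2, 0), (2,
      1), (2, 7)], [], [6], [(1, 1, [0, 3, 4, 7, 8])]⟩]
  Ta := [((2, 9), 0, 4), ((7, 6), 0, 7), ((7, 8), 0, 9)]
  Tb := [((0, 1, 3), 2, 1, 5), ((1, 0, 5), 1, 2, 6), ((3, 0, 4), 5, 2, 3), ((4, 3, 10), 3, 5, 8),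
    ((5, 1, 6), 6, 1, 7), ((6, 5, 7), 7, 6, 0), ((7, 6, 8), 0, 7, 9), ((8, 7, 9), 9, 0, 4),
    ((9, 2, 8), 4, 0, 9), ((9, 2, 10), 4, 0, 8), ((9, 8, 10), 4, 9, 8), ((10, 4, 9), 8, 3,
    4)]
  Tc := [(1, 0, 3), (1, 0, 4), (1, 0, 7), (1, 0, 8), (1, 3, 4), (1, 3, 7), (1, 3, 8), (1, 4, 7),
    (1, 4, 8), (1, 7, 8), (3, 1, 2)]
  Td := [((0, 1), (2, 9), 4), ((0, 1), (7, 6), 7), ((0, 1), (7, 8), 9), ((1, 0), (1, 0), 2), ((1,
    0), (1, 5), 6), ((1, 3), (1, 0), 2), ((1, 3), (1, 5), 6), ((1, 4), (1, 0), 2), ((1, 4),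
    (1, 5), 6), ((1, 7), (1, 0), 2), ((1, 7), (1, 5), 6), ((1, 8), (1, 0), 2), ((1, 8), (1,
    5), 6), ((2, 3), (0, 1), 1), ((2, 3), (0, 3), 5), ((3, 1), (4, 3), 5), ((3, 1), (4, 10),
    8), ((3, 2), (4, 3), 5), ((3, 2), (4, 10), 8), ((4, 1), (9, 2), 0), ((4, 1), (9, 8), 9),
    ((4, 1), (9, 10), 8), ((7, 1), (6, 5), 6), ((7, 1), (6, 7), 0), ((8, 1), (10, 4), 3),
    ((8, 1), (10, 9), 4)]
  G := [[0, 0x641641a11e14c81a81a41e1a11a11cac1e1ac,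
    0x542c42582e24822442442842e5442252248a248a2e44628462c862e77c82922522e28c,
    0x59c299929992e224,
    0x522512624822553249a2822e44328122492e781225151684124824892e7512c12c12e2f41884188c188d8a],
    [0, 0x641c41c41e14c81a81c81e1a11a11a11e1ac,
    0x54254262c4242442842442e4182446264fc8282922982a2142182882e818281a288a2e882859c2922122eefc,
    0x55525c929552e228,
    0x11241326413218244a2e122522122ee412112c4512512912e27c82c82c82e244a288482482882e4822ce9]]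

noncomputable def n3668 : Ent := ⟨e3668, noF, [], [], []⟩

def c3668 : PLift (Cov.check n3668.C.D v3668 = true) := ⟨by decide +kernel⟩

def b3668 : PLift (entF (fidx ts) 400 3668 n3668 = true) := ⟨by decide +kernel⟩

theorem g3668 : GoodF (fidx ts) 400 3668 := GoodF.ofV v3668 n3668 c3668.down b3668.down

/-- 9566644:2736 -/
noncomputable def e3669 : SCfg where
  D := {
    a := 7
    L := 12
    kp := 10
    inn := [(0, 1), (0, 2), (0, 3), (0, 4), (0, 5), (0, 6), (1, 0), (1, 4), (1, 5), (2, 0), (2, 3), (2,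
      6), (3, 0), (3, 2), (4, 0), (4, 1), (5, 0), (5, 1), (6, 0), (6, 2)]
    mix := [(0, 0), (0, 1), (0, 2), (1, 3), (1, 4), (2, 5), (2, 6), (2, 7), (3, 2), (3, 7), (3, 8), (3,
      9), (4, 2), (4, 4), (4, 10), (4, 11), (5, 0), (5, 3), (6, 1), (6, 5)]
    cl := [2, 1, 0, 4, 3, 5, 6, 0, 9, 10, 7, 8]
    chq := [(0, 1), (1, 0), (1, 3), (1, 6), (1, 7), (1, 8), (2, 3), (3, 1), (3, 2), (6, 1), (7, 1), (8,
      1)]
    rng := [(0, 1), (0, 3), (1, 0), (1, 5), (2, 9), (2, 10), (3, 0), (3, 4), (4, 3), (4, 11), (5, 1),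
      (5, 6), (6, 5), (6, 7), (7, 6), (7, 8), (8, 7), (8, 9), (9, 2), (9, 8), (10, 2), (10, 11),
      (11, 4), (11, 10)]
    lev := [] }
  links := [[1, 5, 7, 8, 6, 2, 3, 9, 4], [10, 5, 0, 4, 11], [3, 0, 6, 12, 13, 14], [9, 0, 2, 14, 15, 16],
    [11, 1, 0, 9, 17, 18], [0, 1, 10, 7], [0, 8, 12, 2]]
  P := {
    a := 7
    N := 19
    nb := [1022, 3121, 28745, 115205, 395779, 1155, 4357, 1313, 4289, 196633, 2210, 263186, 8516,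
      20484, 40972, 81928, 33288, 262672, 133136]
    tri := [(0, 1, 4), (0, 1, 5), (0, 2, 3), (0, 2, 6), (0, 3, 9), (0, 4, 9), (0, 5, 7), (0, 6, 8), (0,
      7, 8), (1, 4, 11), (1, 5, 10), (1, 10, 11), (2, 3, 14), (2, 6, 12), (2, 12, 13), (2, 13,
      14), (3, 9, 16), (3, 14, 15), (3, 15, 16), (4, 9, 17), (4, 11, 18), (4, 17, 18), (5, 7, 10),
      (6, 8, 12)]
    fin := [0, 1, 0, 3, 0, 1, 0, 1, 0, 3, 10, 11, 12, 13, 3, 15, 16, 17, 18]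
    chd := [(0, 3), (0, 11), (0, 13), (0, 17), (0, 18), (1, 11)]
    steps := [(0, 2), (0, 4), (0, 6), (0, 8), (1, 5), (1, 7), (3, 14), (3, 9)] }
  rep := [3, 0, 1, 11, 10, 12, 13, 17, 18, 15, 16]

noncomputable def v3669 : Cov.CovD where
  P := 3
  N := 8
  pl := [3, 5, 8, 9]
  lev := [⟨[], [], [(0, 1), (0, 2), (1, 2)], [], [(0, 2, [3]), (1, 1, [0, 3, 6, 7, 8]), (2, 0,
      [1])]⟩,
    ⟨[], [(0, 0), (0, 1), (0, 2), (0, 3)], [], [4], [(4, 3, [1, 2])]⟩,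
    ⟨[(0, 1)], [(0, 0), (0, 1), (0, 2), (0, 6)], [(0, 6)], [5], [(6, 6, [1]), (7, 0, [1])]⟩,
    ⟨[(0, 1), (0, 2)], [(0, 0), (0, 1), (0, 2), (2, 0), (2, 6)], [(0, 0)], [9, 10], [(2, 0,
      [1]), (7, 0, [1])]⟩,
    ⟨[(0, 1), (0, 2), (0, 3)], [(0, 0), (0, 1), (0, 2), (0, 3), (0, 7), (0, 8), (1, 0), (1,
      3), (1, 7), (1, 8), (3, 0)], [(0, 3), (0, 7), (0, 8), (3, 7), (3, 8), (7, 8)], [], [(2,
      0, [1]), (4, 3, [1, 2]), (10, 7, [1]), (11, 8, [1])]⟩,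
    ⟨[(0, 1), (0, 2), (0, 3), (0, 4), (1, 4)], [(0, 0), (0, 1), (0, 2), (1, 2), (1, 3)],
      [], [4], [(0, 2, [3])]⟩,
    ⟨[(0, 1), (0, 2), (0, 3), (0, 4), (0, 5), (2, 3)], [(0, 0), (0, 1), (0, 2), (2, 0), (2,
      1), (2, 6)], [], [5], [(1, 1, [0, 3, 6, 7, 8])]⟩]
  Ta := [((2, 9), 0, 10), ((2, 10), 0, 7), ((7, 6), 0, 6), ((7, 8), 0, 9)]
  Tb := [((0, 1, 3), 2, 1, 4), ((1, 0, 5), 1, 2, 5), ((2, 9, 10), 0, 10, 7), ((3, 0, 4), 4, 2,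
    3), ((4, 3, 11), 3, 4, 8), ((5, 1, 6), 5, 1, 6), ((6, 5, 7), 6, 5, 0), ((7, 6, 8), 0, 6,
    9), ((8, 7, 9), 9, 0, 10), ((9, 2, 8), 10, 0, 9), ((10, 2, 11), 7, 0, 8), ((11, 4, 10),
    8, 3, 7)]
  Tc := [(1, 0, 3), (1, 0, 6), (1, 0, 7), (1, 0, 8), (1, 3, 6), (1, 3, 7), (1, 3, 8), (1, 6, 7),
    (1, 6, 8), (1, 7, 8), (3, 1, 2)]
  Td := [((0, 1), (2, 9), 10), ((0, 1), (2, 10), 7), ((0, 1), (7, 6), 6), ((0, 1), (7, 8), 9),
    ((1, 0), (1, 0), 2), ((1, 0), (1, 5), 5), ((1, 3), (1, 0), 2), ((1, 3), (1, 5), 5), ((1,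
    6), (1, 0), 2), ((1, 6), (1, 5), 5), ((1, 7), (1, 0), 2), ((1, 7), (1, 5), 5), ((1, 8),
    (1, 0), 2), ((1, 8), (1, 5), 5), ((2, 3), (0, 1), 1), ((2, 3), (0, 3), 4), ((3, 1), (4,
    3), 4), ((3, 1), (4, 11), 8), ((3, 2), (4, 3), 4), ((3, 2), (4, 11), 8), ((6, 1), (6, 5),
    5), ((6, 1), (6, 7), 0), ((7, 1), (10, 2), 0), ((7, 1), (10, 11), 8), ((8, 1), (11, 4),
    3), ((8, 1), (11, 10), 7)]
  G := [[0, 0x641c41c41e14a41a81681e1a11a11611e1ac,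
    0x542482842e842642634822442482c5842417c82922482ec8223242292299a2422e882c22ab9c,
    0x5552599259c2e228,
    0x41325126228225532489248a2e44324ca2c12e741221435168412482682e7412912c22e21283f41884188c188d8a],
    [0, 0x641c11c41e16116ac1c11e16a41a81c81e18c,
    0x1424542c42922ea1422442142482ec1824426471824c82982c22ea182881421221862e882892292291c2eebc,
    0x5c92999299c2e224,
    0x11241221124432e5532922522ee51221821126c1128522912512e674828c22c82c82e644a2882a8482882c8e9]]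

noncomputable def n3669 : Ent := ⟨e3669, noF, [], [], [(16, 17, [31810150492402119267275227079217218666319002904815489586567506653228646401, 0])]⟩

def c3669 : PLift (Cov.check n3669.C.D v3669 = true) := ⟨by decide +kernel⟩

def b3669 : PLift (entF (fidx ts) 400 3669 n3669 = true) := ⟨by decide +kernel⟩

theorem g3669 : GoodF (fidx ts) 400 3669 := GoodF.ofV v3669 n3669 c3669.down b3669.down

/-- 9566644:2737 -/
noncomputable def e3670 : SCfg where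
  D := {
    a := 7
    L := 12
    kp := 9
    inn := [(0, 1), (0, 2), (0, 3), (0, 4), (0, 5), (0, 6), (1, 0), (1, 5), (2, 0), (2, 3), (3, 0), (3,
      2), (3, 6), (4, 0), (4, 6), (5, 0), (5, 1), (6, 0), (6, 3), (6, 4)]
    mix := [(0, 0), (0, 1), (0, 2), (1, 2), (1, 3), (1, 4), (2, 0), (2, 5), (2, 6), (2, 7), (3, 5), (3,
      8), (3, 9), (4, 1), (4, 8), (4, 10), (4, 11), (5, 0), (5, 3), (6, 8)]
    cl := [1, 0, 1, 2, 6, 3, 4, 5, 0, 7, 8, 9]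
    chq := [(0, 3), (0, 4), (0, 5), (3, 0), (4, 0), (5, 0)]
    rng := [(0, 3), (0, 6), (1, 2), (1, 11), (2, 1), (2, 4), (3, 0), (3, 4), (4, 2), (4, 3), (5, 7),
      (5, 9), (6, 0), (6, 7), (7, 5), (7, 6), (8, 9), (8, 10), (9, 5), (9, 8), (10, 8), (10, 11),
      (11, 1), (11, 10)]
    lev := [] }
  links := [[1, 5, 7, 2, 3, 6, 4, 8, 9], [10, 5, 0, 9, 11], [12, 3, 0, 7, 13, 14], [15, 6, 0, 2, 12, 16],
    [8, 0, 6, 15, 17, 18], [0, 1, 10, 7], [0, 3, 15, 4]]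
  P := {
    a := 7
    N := 19
    nb := [1022, 3617, 28809, 102469, 426305, 1155, 32793, 9253, 262673, 2307, 2210, 1538, 81932,
      16516, 12292, 196696, 36872, 294928, 131344]
    tri := [(0, 1, 5), (0, 1, 9), (0, 2, 3), (0, 2, 7), (0, 3, 6), (0, 4, 6), (0, 4, 8), (0, 5, 7), (0,
      8, 9), (1, 5, 10), (1, 9, 11), (1, 10, 11), (2, 3, 12), (2, 7, 13), (2, 12, 14), (2, 13,
      14), (3, 6, 15), (3, 12, 16), (3, 15, 16), (4, 6, 15), (4, 8, 18), (4, 15, 17), (4, 17, 18),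
      (5, 7, 10)]
    fin := [0, 1, 0, 3, 0, 1, 3, 1, 0, 1, 10, 11, 3, 13, 14, 0, 16, 17, 18]
    chd := [(0, 3), (0, 13), (0, 14)]
    steps := [(0, 2), (0, 4), (0, 8), (1, 5), (1, 7), (1, 9), (3, 6), (0, 15), (3, 12)] }
  rep := [0, 1, 10, 3, 13, 14, 11, 16, 17, 18]

noncomputable def v3670 : Cov.CovD where
  P := 3
  N := 7
  pl := [3, 4, 9, 10, 11]
  lev := [⟨[], [], [(0, 1), (1, 1)], [], [(0, 1, []), (1, 0, [3, 4, 5]), (2, 1, [])]⟩,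
    ⟨[], [(0, 0), (0, 1)], [], [2, 6], [(2, 1, [])]⟩,
    ⟨[(0, 1)], [(0, 0), (0, 1), (0, 3), (0, 4), (0, 5)], [(1, 3), (1, 4), (1, 5), (3, 4),
      (3, 5), (4, 5)], [], [(0, 1, []), (5, 3, [0]), (6, 4, [0]), (7, 5, [0])]⟩,
    ⟨[(0, 1), (0, 2)], [(0, 0), (0, 1), (0, 3), (2, 0), (2, 1), (2, 3), (2, 4), (2, 5)],
      [(0, 3)], [7], [(5, 3, [0]), (8, 0, [3, 4, 5])]⟩,
    ⟨[(0, 1), (0, 2), (0, 3)], [(0, 0), (0, 1), (3, 0)], [(0, 0)], [8, 9], [(1, 0, [3, 4,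
      5]), (8, 0, [3, 4, 5])]⟩,
    ⟨[(0, 1), (0, 2), (0, 3), (0, 4)], [(0, 0), (0, 1), (1, 1), (2, 1)], [], [2], [(0, 1,
      [])]⟩,
    ⟨[(0, 1), (0, 2), (0, 3), (0, 4), (0, 5), (2, 3), (3, 4)], [(0, 0), (0, 1), (3, 0), (3,
      3), (4, 0)], [], [], [(8, 0, [3, 4, 5])]⟩]
  Ta := [((0, 3), 1, 2), ((0, 6), 1, 4), ((1, 2), 0, 1), ((1, 11), 0, 9), ((2, 1), 1, 0), ((2,
    4), 1, 6), ((8, 9), 0, 7), ((8, 10), 0, 8)]
  Tb := [((0, 3, 6), 1, 2, 4), ((1, 2, 11), 0, 1, 9), ((2, 1, 4), 1, 0, 6), ((3, 0, 4), 2, 1, 6),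
    ((4, 2, 3), 6, 1, 2), ((5, 7, 9), 3, 5, 7), ((6, 0, 7), 4, 1, 5), ((7, 5, 6), 5, 3, 4),
    ((8, 9, 10), 0, 7, 8), ((9, 5, 8), 7, 3, 0), ((10, 8, 11), 8, 0, 9), ((11, 1, 10), 9, 0,
    8)]
  Tc := [(0, 3, 4), (0, 3, 5), (0, 4, 5)]
  Td := [((0, 3), (1, 2), 1), ((0, 3), (1, 11), 9), ((0, 3), (8, 9), 7), ((0, 3), (8, 10), 8),
    ((0, 4), (1, 2), 1), ((0, 4), (1, 11), 9), ((0, 4), (8, 9), 7), ((0, 4), (8, 10), 8),
    ((0, 5), (1, 2), 1), ((0, 5), (1, 11), 9), ((0, 5), (8, 9), 7), ((0, 5), (8, 10), 8),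
    ((3, 0), (5, 7), 5), ((3, 0), (5, 9), 7), ((4, 0), (6, 0), 1), ((4, 0), (6, 7), 5), ((5,
    0), (7, 5), 3), ((5, 0), (7, 6), 4)]
  G := [[0, 0, 0x244412241824e8828a841818ee12c,
    0x2444128441c112841e2811a418841ee1411841e1828a842884ee19c,
    0x211848e412282821e288811ea12c], [0,
    0x1444114446442418e442818ee1c288828e2828a282818ee118881cc,
    0x24441144242222e241244ee1c248218e2812a842212ee12818a81cc, 0,
    0x1144122426421228e421211ee19421128e1212a421248ee1288819c], [0, 0,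
    0x242444e412248884e842888ea12c, 0x442824e4121416415482884e218248148ee1242141e482841ea19c,
    0x814412482128e8121a888841ee12c], [0, 0,
    0x22441444442428e224848ee1c282248e2288a282842ee12282a81cc, 0,
    0x2141641212142e428181e619422888e828822248ee1218281e819c]]

noncomputable def n3670 : Ent := ⟨e3670, noF, [], [], []⟩

def c3670 : PLift (Cov.check n3670.C.D v3670 = true) := ⟨by decide +kernel⟩

def b3670 : PLift (entF (fidx ts) 400 3670 n3670 = true) := ⟨by decide +kernel⟩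

theorem g3670 : GoodF (fidx ts) 400 3670 := GoodF.ofV v3670 n3670 c3670.down b3670.down

/-- 9566644:2738/1 -/
noncomputable def e3671 : SCfg where
  D := {
    a := 7
    L := 11
    kp := 8
    inn := [(0, 1), (0, 2), (0, 3), (0, 4), (0, 5), (0, 6), (1, 0), (1, 4), (1, 5), (2, 0), (2, 6), (3,
      0), (3, 6), (4, 0), (4, 1), (5, 0), (5, 1), (6, 0), (6, 2), (6, 3)]
    mix := [(0, 0), (0, 1), (0, 2), (1, 3), (1, 4), (2, 1), (2, 5), (2, 6), (2, 7), (3, 2), (3, 5), (3,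
      8), (3, 9), (4, 2), (4, 4), (4, 9), (4, 10), (5, 0), (5, 3), (6, 5)]
    cl := [1, 0, 0, 4, 3, 0, 6, 7, 8, 2, 5]
    chq := [(1, 2), (1, 3), (1, 5), (2, 1), (3, 1), (5, 1)]
    rng := [(0, 1), (0, 3), (1, 0), (1, 6), (2, 9), (3, 0), (3, 4), (4, 3), (4, 10), (5, 7), (5, 8),
      (6, 1), (6, 7), (7, 5), (7, 6), (8, 5), (8, 9), (9, 2), (9, 8), (9, 10), (10, 4), (10, 9)]
    lev := [] }
  links := [[1, 5, 7, 8, 2, 6, 3, 9, 4], [10, 5, 0, 4, 11], [12, 6, 0, 8, 13, 14], [9, 0, 6, 12, 15, 16],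
    [11, 1, 0, 9, 16, 17], [0, 1, 10, 7], [0, 2, 12, 3]]
  P := {
    a := 7
    N := 18
    nb := [1022, 3121, 28993, 102977, 199171, 1155, 4109, 1313, 8325, 65561, 2210, 132114, 49228,
      16644, 12292, 69640, 164376, 67600]
    tri := [(0, 1, 4), (0, 1, 5), (0, 2, 6), (0, 2, 8), (0, 3, 6), (0, 3, 9), (0, 4, 9), (0, 5, 7), (0,
      7, 8), (1, 4, 11), (1, 5, 10), (1, 10, 11), (2, 6, 12), (2, 8, 13), (2, 12, 14), (2, 13,
      14), (3, 6, 12), (3, 9, 16), (3, 12, 15), (3, 15, 16), (4, 9, 16), (4, 11, 17), (4, 16, 17),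
      (5, 7, 10)]
    fin := [0, 0, 2, 2, 0, 0, 0, 0, 2, 2, 10, 11, 2, 13, 14, 15, 16, 17]
    chd := [(0, 11), (0, 16), (0, 17)]
    steps := [(0, 1), (0, 4), (0, 5), (0, 6), (0, 7), (2, 8), (2, 12), (2, 3), (2, 9)] }
  rep := [2, 0, 16, 11, 10, 17, 13, 14, 15]

noncomputable def v3671 : Cov.CovD where
  P := 3
  N := 6
  pl := [3, 6, 7, 8]
  lev := [⟨[], [], [(0, 0), (0, 1)], [], [(0, 1, [2, 3, 5]), (1, 0, []), (2, 0, [])]⟩,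
    ⟨[], [(0, 0), (0, 1), (0, 3)], [], [4], [(4, 3, [1])]⟩,
    ⟨[(0, 1)], [(0, 0), (0, 1)], [(0, 0)], [6, 7], [(1, 0, []), (5, 0, [])]⟩,
    ⟨[(0, 1), (0, 2)], [(0, 0), (0, 1), (0, 2), (2, 0)], [(0, 0), (0, 2)], [8], [(2, 0,
      []), (5, 0, []), (9, 2, [1])]⟩,
    ⟨[(0, 1), (0, 2), (0, 3)], [(0, 0), (0, 1), (0, 2), (0, 3), (0, 5), (1, 0), (1, 2), (1,
      3), (1, 5), (3, 0), (3, 2)], [(0, 2), (0, 3), (0, 5), (2, 3), (2, 5), (3, 5)], [], [(2,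
      0, []), (4, 3, [1]), (9, 2, [1]), (10, 5, [1])]⟩,
    ⟨[(0, 1), (0, 2), (0, 3), (0, 4), (1, 4)], [(0, 0), (0, 1), (1, 1), (1, 3)], [], [4],
      [(0, 1, [2, 3, 5])]⟩,
    ⟨[(0, 1), (0, 2), (0, 3), (0, 4), (0, 5), (2, 3)], [(0, 0), (0, 1), (2, 0), (3, 0), (3,
      2)], [], [], [(5, 0, [])]⟩]
  Ta := [((1, 0), 0, 1), ((1, 6), 0, 6), ((2, 9), 0, 2), ((5, 7), 0, 7), ((5, 8), 0, 8)]
  Tb := [((0, 1, 3), 1, 0, 4), ((1, 0, 6), 0, 1, 6), ((3, 0, 4), 4, 1, 3), ((4, 3, 10), 3, 4, 5),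
    ((5, 7, 8), 0, 7, 8), ((6, 1, 7), 6, 0, 7), ((7, 5, 6), 7, 0, 6), ((8, 5, 9), 8, 0, 2),
    ((9, 2, 8), 2, 0, 8), ((9, 2, 10), 2, 0, 5), ((9, 8, 10), 2, 8, 5), ((10, 4, 9), 5, 3,
    2)]
  Tc := [(1, 2, 3), (1, 2, 5), (1, 3, 5)]
  Td := [((1, 2), (0, 1), 0), ((1, 2), (0, 3), 4), ((1, 3), (0, 1), 0), ((1, 3), (0, 3), 4), ((1,
    5), (0, 1), 0), ((1, 5), (0, 3), 4), ((2, 1), (9, 2), 0), ((2, 1), (9, 8), 8), ((2, 1),
    (9, 10), 5), ((3, 1), (4, 3), 4), ((3, 1), (4, 10), 5), ((5, 1), (10, 4), 3), ((5, 1),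
    (10, 9), 2)]
  G := [[0, 0x2214421221c221821ce2221882281481c481281c181881ce441441c241841c441141cece, 0,
    0x41544552445419845d241544948cd2e28858282c,
    0x1422242242a142442ae1122112112a112112ae5482182a182182a282182ae11928811288dc], [0, 0,
    0x1424426242242c4421426e4482282c182282a1824826e1121126212112a412812ce9c,
    0x222442424222142c422842ce22244d422882c1828182882ce12288112812c1128412812cedc,
    0x2422142442a142442ae4182282a182182a882182ae229288412212a112812a812412aedc], [0, 0, 0,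
    0x44588544cd244548c485d26248c889849d282c,
    0x4422442242a442442ae4282882a282282a282882ae242428b88212412a212212a812412aebc]]

noncomputable def n3671 : Ent := ⟨e3671, noF, [], [], []⟩

def c3671 : PLift (Cov.check n3671.C.D v3671 = true) := ⟨by decide +kernel⟩

def b3671 : PLift (entF (fidx ts) 400 3671 n3671 = true) := ⟨by decide +kernel⟩

theorem g3671 : GoodF (fidx ts) 400 3671 := GoodF.ofV v3671 n3671 c3671.down b3671.down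

/-- 9566644:2738 -/
noncomputable def e3672 : SCfg where
  D := {
    a := 7
    L := 12
    kp := 9
    inn := [(0, 1), (0, 2), (0, 3), (0, 4), (0, 5), (0, 6), (1, 0), (1, 4), (1, 5), (2, 0), (2, 6), (3,
      0), (3, 6), (4, 0), (4, 1), (5, 0), (5, 1), (6, 0), (6, 2), (6, 3)]
    mix := [(0, 0), (0, 1), (0, 2), (1, 3), (1, 4), (2, 1), (2, 5), (2, 6), (2, 7), (3, 2), (3, 5), (3,
      8), (3, 9), (4, 2), (4, 4), (4, 10), (4, 11), (5, 0), (5, 3), (6, 5)]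
    cl := [1, 0, 0, 3, 2, 0, 6, 7, 8, 9, 4, 5]
    chq := [(1, 2), (1, 4), (1, 5), (2, 1), (4, 1), (5, 1)]
    rng := [(0, 1), (0, 3), (1, 0), (1, 6), (2, 9), (2, 10), (3, 0), (3, 4), (4, 3), (4, 11), (5, 7),
      (5, 8), (6, 1), (6, 7), (7, 5), (7, 6), (8, 5), (8, 9), (9, 2), (9, 8), (10, 2), (10, 11),
      (11, 4), (11, 10)]
    lev := [] }
  links := [[1, 5, 7, 8, 2, 6, 3, 9, 4], [10, 5, 0, 4, 11], [12, 6, 0, 8, 13, 14], [9, 0, 6, 12, 15, 16],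
    [11, 1, 0, 9, 17, 18], [0, 1, 10, 7], [0, 2, 12, 3]]
  P := {
    a := 7
    N := 19
    nb := [1022, 3121, 28993, 102977, 395779, 1155, 4109, 1313, 8325, 196633, 2210, 263186, 49228,
      16644, 12292, 69640, 33288, 262672, 133136]
    tri := [(0, 1, 4), (0, 1, 5), (0, 2, 6), (0, 2, 8), (0, 3, 6), (0, 3, 9), (0, 4, 9), (0, 5, 7), (0,
      7, 8), (1, 4, 11), (1, 5, 10), (1, 10, 11), (2, 6, 12), (2, 8, 13), (2, 12, 14), (2, 13,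
      14), (3, 6, 12), (3, 9, 16), (3, 12, 15), (3, 15, 16), (4, 9, 17), (4, 11, 18), (4, 17, 18),
      (5, 7, 10)]
    fin := [0, 0, 2, 2, 0, 0, 0, 0, 2, 2, 10, 11, 2, 13, 14, 15, 16, 17, 18]
    chd := [(0, 11), (0, 17), (0, 18)]
    steps := [(0, 1), (0, 4), (0, 5), (0, 6), (0, 7), (2, 8), (2, 12), (2, 3), (2, 9)] }
  rep := [2, 0, 11, 10, 17, 18, 13, 14, 15, 16]

noncomputable def v3672 : Cov.CovD where
  P := 3
  N := 7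
  pl := [3, 6, 7, 8, 9]
  lev := [⟨[], [], [(0, 0), (0, 1)], [], [(0, 1, [2, 4, 5]), (1, 0, []), (2, 0, [])]⟩,
    ⟨[], [(0, 0), (0, 1), (0, 2)], [], [3], [(4, 2, [1])]⟩,
    ⟨[(0, 1)], [(0, 0), (0, 1)], [(0, 0)], [6, 7], [(1, 0, []), (5, 0, [])]⟩,
    ⟨[(0, 1), (0, 2)], [(0, 0), (0, 1), (2, 0)], [(0, 0)], [8, 9], [(2, 0, []), (5, 0,
      [])]⟩,
    ⟨[(0, 1), (0, 2), (0, 3)], [(0, 0), (0, 1), (0, 2), (0, 4), (0, 5), (1, 0), (1, 2), (1,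
      4), (1, 5), (3, 0)], [(0, 2), (0, 4), (0, 5), (2, 4), (2, 5), (4, 5)], [], [(2, 0, []),
      (4, 2, [1]), (10, 4, [1]), (11, 5, [1])]⟩,
    ⟨[(0, 1), (0, 2), (0, 3), (0, 4), (1, 4)], [(0, 0), (0, 1), (1, 1), (1, 2)], [], [3],
      [(0, 1, [2, 4, 5])]⟩,
    ⟨[(0, 1), (0, 2), (0, 3), (0, 4), (0, 5), (2, 3)], [(0, 0), (0, 1), (2, 0), (3, 0)],
      [], [], [(5, 0, [])]⟩]
  Ta := [((1, 0), 0, 1), ((1, 6), 0, 6), ((2, 9), 0, 9), ((2, 10), 0, 4), ((5, 7), 0, 7), ((5,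
    8), 0, 8)]
  Tb := [((0, 1, 3), 1, 0, 3), ((1, 0, 6), 0, 1, 6), ((2, 9, 10), 0, 9, 4), ((3, 0, 4), 3, 1, 2),
    ((4, 3, 11), 2, 3, 5), ((5, 7, 8), 0, 7, 8), ((6, 1, 7), 6, 0, 7), ((7, 5, 6), 7, 0, 6),
    ((8, 5, 9), 8, 0, 9), ((9, 2, 8), 9, 0, 8), ((10, 2, 11), 4, 0, 5), ((11, 4, 10), 5, 2,
    4)]
  Tc := [(1, 2, 4), (1, 2, 5), (1, 4, 5)]
  Td := [((1, 2), (0, 1), 0), ((1, 2), (0, 3), 3), ((1, 4), (0, 1), 0), ((1, 4), (0, 3), 3), ((1,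
    5), (0, 1), 0), ((1, 5), (0, 3), 3), ((2, 1), (4, 3), 3), ((2, 1), (4, 11), 5), ((4, 1),
    (10, 2), 0), ((4, 1), (10, 11), 5), ((5, 1), (11, 4), 2), ((5, 1), (11, 10), 4)]
  G := [[0, 0x121441211416141241441e121241841eec481181421e181281a281881181ee12188cc,
    0x112442424426112842442e412212142eec282882412e282182a282282182ee21288cc,
    0x82244212445222222182e182222a222222822ee212122222e822222a212122112ee9c,
    0x14244112812412e112842442e69142282882e282182a282282482ee212812412e89c], [0, 0,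
    0x212412641421426142842842e242242442eec282282182e8828212882882ee21288cc,
    0x2224226442242812e242422112ee112445282112182e822182a422212122ee22288cc,
    0x142442121126212112112e112842812ee9182182882e182882a482182482ee142889c], [0, 0,
    0x212442424426442842242e442212442eec282282412e282282a812882882ee21288cc,
    0x242282842e44424226212212282e222822412ee5482882282e482222822ea22288cc,
    0x24244812449242882482e282882a282282882ee412812412e212812a212812842ee9c]]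

noncomputable def n3672 : Ent := ⟨e3672, noF, [], [], [(16, 17, [31810150492402119267275227079217218666319002904815489586567506653228658689, 0])]⟩

def c3672 : PLift (Cov.check n3672.C.D v3672 = true) := ⟨by decide +kernel⟩

def b3672 : PLift (entF (fidx ts) 400 3672 n3672 = true) := ⟨by decide +kernel⟩

theorem g3672 : GoodF (fidx ts) 400 3672 := GoodF.ofV v3672 n3672 c3672.down b3672.down

/-- 67774444:2740/1 -/
noncomputable def e3673 : SCfg where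
  D := {
    a := 8
    L := 11
    kp := 8
    inn := [(0, 1), (0, 2), (0, 3), (0, 5), (1, 0), (1, 3), (1, 4), (2, 0), (2, 3), (2, 7), (3, 0), (3,
      1), (3, 2), (3, 4), (3, 6), (4, 1), (4, 3), (5, 0), (6, 3), (7, 2)]
    mix := [(0, 0), (0, 1), (1, 0), (1, 2), (1, 3), (1, 4), (2, 1), (2, 5), (2, 6), (2, 7), (3, 5), (3,
      8), (4, 4), (4, 8), (5, 0), (5, 1), (5, 9), (6, 5), (6, 8), (6, 10), (7, 4), (7, 6), (7, 7)]
    cl := [1, 0, 5, 6, 1, 0, 3, 4, 2, 7, 8]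
    chq := [(0, 1), (0, 2), (1, 0), (2, 0), (3, 4), (4, 3)]
    rng := [(0, 3), (0, 9), (1, 6), (1, 9), (2, 3), (2, 4), (3, 0), (3, 2), (4, 2), (4, 6), (4, 7), (4,
      8), (5, 7), (5, 10), (6, 1), (6, 4), (7, 4), (7, 5), (8, 4), (8, 10), (9, 0), (9, 1), (10,
      5), (10, 8)]
    lev := [] }
  links := [[1, 8, 5, 9, 2, 3], [10, 11, 8, 0, 3, 4, 12], [13, 3, 0, 9, 14, 7, 15], [16, 4, 1, 0, 2, 13,
    6], [1, 3, 16, 12], [8, 17, 9, 0], [3, 13, 18, 16], [2, 14, 12, 15]]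
  P := {
    a := 8
    N := 19
    nb := [814, 7449, 57993, 73815, 69642, 131841, 335880, 53252, 133155, 147493, 6146, 1282, 115858,
      294988, 4740, 12420, 266328, 800, 73792]
    tri := [(0, 1, 3), (0, 1, 8), (0, 2, 3), (0, 2, 9), (0, 5, 8), (0, 5, 9), (1, 3, 4), (1, 4, 12),
      (1, 8, 11), (1, 10, 11), (1, 10, 12), (2, 3, 13), (2, 7, 14), (2, 7, 15), (2, 9, 14), (2,
      13, 15), (3, 4, 16), (3, 6, 13), (3, 6, 16), (4, 12, 16), (5, 8, 17), (5, 9, 17), (6, 13,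
      18), (6, 16, 18), (7, 12, 14), (7, 12, 15)]
    fin := [0, 0, 2, 0, 0, 0, 2, 7, 0, 2, 10, 11, 0, 2, 7, 15, 16, 17, 18]
    chd := [(0, 2), (2, 16), (7, 15)]
    steps := [(0, 1), (0, 3), (0, 4), (0, 5), (0, 8), (0, 12), (2, 9), (2, 13), (2, 6), (7, 14)] }
  rep := [2, 0, 16, 7, 15, 10, 11, 17, 18]

noncomputable def v3673 : Cov.CovD where
  P := 3
  N := 6
  pl := [2, 3, 9, 10]
  lev := [⟨[], [], [(0, 1)], [], [(0, 1, [0]), (1, 0, [1, 2])]⟩,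
    ⟨[], [(0, 0), (0, 1)], [(1, 1)], [5, 6], [(0, 1, [0]), (4, 1, [0])]⟩,
    ⟨[(0, 1)], [(0, 0), (0, 1), (0, 3), (0, 4)], [(0, 0), (0, 3), (0, 4), (3, 4)], [], [(1,
      0, [1, 2]), (5, 0, [1, 2]), (6, 3, [4]), (7, 4, [3])]⟩,
    ⟨[(0, 1), (0, 2), (1, 2)], [(0, 0), (0, 1), (0, 2), (1, 0), (1, 1), (1, 2), (2, 0), (2,
      2), (2, 3), (2, 4)], [(0, 2)], [], [(5, 0, [1, 2]), (8, 2, [0])]⟩,
    ⟨[(0, 1), (0, 3), (1, 3), (2, 3)], [(1, 1), (1, 2), (3, 0), (3, 1), (3, 2)], [(1, 2)],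
      [], [(4, 1, [0]), (8, 2, [0])]⟩,
    ⟨[(0, 1), (0, 2), (0, 3)], [(0, 0), (0, 1), (1, 1), (2, 0)], [(0, 1)], [7], [(0, 1,
      [0]), (1, 0, [1, 2])]⟩,
    ⟨[(0, 3), (1, 3), (2, 3), (3, 4)], [(2, 0), (3, 0), (3, 2), (4, 2)], [(0, 2)], [8],
      [(5, 0, [1, 2]), (8, 2, [0])]⟩,
    ⟨[(0, 2), (2, 3)], [(1, 1), (2, 0), (2, 1), (2, 3), (2, 4), (4, 1)], [(1, 3), (1, 4),
      (3, 4)], [], [(4, 1, [0]), (6, 3, [4]), (7, 4, [3])]⟩]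
  Ta := [((0, 3), 1, 6), ((0, 9), 1, 7), ((1, 6), 0, 3), ((1, 9), 0, 7), ((4, 2), 1, 5), ((4, 6),
    1, 3), ((4, 7), 1, 4), ((4, 8), 1, 2), ((5, 7), 0, 4), ((5, 10), 0, 8)]
  Tb := [((0, 3, 9), 1, 6, 7), ((1, 6, 9), 0, 3, 7), ((2, 3, 4), 5, 6, 1), ((3, 0, 2), 6, 1, 5),
    ((4, 2, 6), 1, 5, 3), ((4, 2, 7), 1, 5, 4), ((4, 2, 8), 1, 5, 2), ((4, 6, 7), 1, 3, 4),
    ((4, 6, 8), 1, 3, 2), ((4, 7, 8), 1, 4, 2), ((5, 7, 10), 0, 4, 8), ((6, 1, 4), 3, 0, 1),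
    ((7, 4, 5), 4, 1, 0), ((8, 4, 10), 2, 1, 8), ((9, 0, 1), 7, 1, 0), ((10, 5, 8), 8, 0, 2)]
  Tc := [(0, 1, 2)]
  Td := [((0, 1), (1, 6), 3), ((0, 1), (1, 9), 7), ((0, 1), (5, 7), 4), ((0, 1), (5, 10), 8),
    ((0, 2), (1, 6), 3), ((0, 2), (1, 9), 7), ((0, 2), (5, 7), 4), ((0, 2), (5, 10), 8), ((1,
    0), (0, 3), 6), ((1, 0), (0, 9), 7), ((1, 0), (4, 2), 5), ((1, 0), (4, 6), 3), ((1, 0),
    (4, 7), 4), ((1, 0), (4, 8), 2), ((2, 0), (8, 4), 1), ((2, 0), (8, 10), 8), ((3, 4), (6,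
    1), 0), ((3, 4), (6, 4), 1), ((4, 3), (7, 4), 1), ((4, 3), (7, 5), 0)]
  G := [[0, 0x111168441416182111a44e28181a1411416481111c48e11116484141c181111c84eca,
    0x11a144211c182211c1422d8, 0, 0xd141224d1d1c122d18282d1d1c122dc], [0,
    0x111168441416181121684e11116441111c842121618e68181a141111a482121a14e8c,
    0x11a28441a212c481a11211a14211c112e11c182211c14211628811c148edc, 0xd12442d12142d12182d8,
    0x412181128264121245812821121851218e8128288128211212adc], [0,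
    0x111168441416182121648e111168441416181111648e68181a141111a482121a84e8c,
    0x11a1242116188211c1422d4, 0, 0xd212d811a2d218d811a2dda1282d4], [0,
    0x11216442111168411116482111a84e11116441111c842121618ee1181c444111c48c8a,
    0x11c28411a284116148e111c282446218116214e11621814a24211c282ec9,
    0xd421d828c2ddc1182ddc2482d4,
    0x88a28211a218a88a11211a118a544a118444a1184588a21242214821a12211821ae87]]

noncomputable def n3673 : Ent := ⟨e3673, noF, [], [], []⟩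

def c3673 : PLift (Cov.check n3673.C.D v3673 = true) := ⟨by decide +kernel⟩

def b3673 : PLift (entF (fidx ts) 400 3673 n3673 = true) := ⟨by decide +kernel⟩

theorem g3673 : GoodF (fidx ts) 400 3673 := GoodF.ofV v3673 n3673 c3673.down b3673.down

/-- 67774444:2740/2 -/
noncomputable def e3674 : SCfg where
  D := {
    a := 8
    L := 11
    kp := 8
    inn := [(0, 1), (0, 2), (0, 3), (0, 5), (1, 0), (1, 3), (1, 4), (2, 0), (2, 3), (2, 7), (3, 0), (3,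
      1), (3, 2), (3, 4), (3, 6), (4, 1), (4, 3), (5, 0), (6, 3), (7, 2)]
    mix := [(0, 0), (0, 1), (1, 0), (1, 2), (1, 3), (1, 4), (2, 1), (2, 5), (2, 6), (2, 7), (3, 5), (3,
      8), (4, 4), (4, 8), (5, 0), (5, 1), (5, 9), (6, 5), (6, 8), (6, 10), (7, 2), (7, 6), (7, 7)]
    cl := [1, 0, 2, 6, 1, 0, 4, 5, 3, 7, 8]
    chq := [(0, 1), (0, 2), (0, 3), (1, 0), (2, 0), (3, 0)]
    rng := [(0, 3), (0, 9), (1, 6), (1, 9), (2, 3), (2, 4), (2, 6), (2, 7), (3, 0), (3, 2), (4, 2), (4,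
      8), (5, 7), (5, 10), (6, 1), (6, 2), (7, 2), (7, 5), (8, 4), (8, 10), (9, 0), (9, 1), (10,
      5), (10, 8)]
    lev := [] }
  links := [[1, 8, 5, 9, 2, 3], [10, 11, 8, 0, 3, 4, 12], [13, 3, 0, 9, 14, 7, 15], [16, 4, 1, 0, 2, 13,
    6], [1, 3, 16, 12], [8, 17, 9, 0], [3, 13, 18, 16], [2, 14, 10, 15]]
  P := {
    a := 8
    N := 19
    nb := [814, 7449, 57993, 73815, 69642, 131841, 335880, 50180, 133155, 147493, 55426, 1282, 66578,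
      294988, 1668, 9348, 266328, 800, 73792]
    tri := [(0, 1, 3), (0, 1, 8), (0, 2, 3), (0, 2, 9), (0, 5, 8), (0, 5, 9), (1, 3, 4), (1, 4, 12),
      (1, 8, 11), (1, 10, 11), (1, 10, 12), (2, 3, 13), (2, 7, 14), (2, 7, 15), (2, 9, 14), (2,
      13, 15), (3, 4, 16), (3, 6, 13), (3, 6, 16), (4, 12, 16), (5, 8, 17), (5, 9, 17), (6, 13,
      18), (6, 16, 18), (7, 10, 14), (7, 10, 15)]
    fin := [0, 0, 2, 0, 0, 0, 2, 2, 0, 2, 10, 11, 0, 2, 14, 15, 16, 17, 18]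
    chd := [(0, 2), (2, 10), (2, 16)]
    steps := [(0, 1), (0, 3), (0, 4), (0, 5), (0, 8), (0, 12), (2, 7), (2, 9), (2, 13), (2, 6)] }
  rep := [2, 0, 10, 16, 14, 15, 11, 17, 18]

noncomputable def v3674 : Cov.CovD where
  P := 3
  N := 6
  pl := [3, 6, 7, 9, 10]
  lev := [⟨[], [], [(0, 1)], [], [(0, 1, [0]), (1, 0, [1, 2, 3])]⟩,
    ⟨[], [(0, 0), (0, 1), (0, 2)], [(1, 1), (1, 2)], [6], [(0, 1, [0]), (2, 2, [0]), (4, 1,
      [0])]⟩,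
    ⟨[(0, 1)], [(0, 0), (0, 1)], [(0, 0)], [4, 5], [(1, 0, [1, 2, 3]), (5, 0, [1, 2, 3])]⟩,
    ⟨[(0, 1), (0, 2), (1, 2)], [(0, 0), (0, 1), (0, 3), (1, 0), (1, 1), (1, 2), (1, 3), (2,
      0), (2, 3)], [(0, 3)], [], [(5, 0, [1, 2, 3]), (8, 3, [0])]⟩,
    ⟨[(0, 1), (0, 3), (1, 3), (2, 3)], [(1, 1), (1, 2), (1, 3), (3, 0), (3, 1), (3, 3)],
      [(1, 3)], [], [(4, 1, [0]), (8, 3, [0])]⟩,
    ⟨[(0, 1), (0, 2), (0, 3)], [(0, 0), (0, 1), (1, 1), (2, 0)], [(0, 1)], [7], [(0, 1,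
      [0]), (1, 0, [1, 2, 3])]⟩,
    ⟨[(0, 3), (1, 3), (2, 3), (3, 4)], [(2, 0), (3, 0), (3, 3), (4, 3)], [(0, 3)], [8],
      [(5, 0, [1, 2, 3]), (8, 3, [0])]⟩,
    ⟨[(0, 2), (2, 3)], [(1, 2), (2, 0), (2, 2)], [], [4, 5], [(2, 2, [0])]⟩]
  Ta := [((0, 3), 1, 6), ((0, 9), 1, 7), ((1, 6), 0, 4), ((1, 9), 0, 7), ((4, 2), 1, 2), ((4, 8),
    1, 3), ((5, 7), 0, 5), ((5, 10), 0, 8)]
  Tb := [((0, 3, 9), 1, 6, 7), ((1, 6, 9), 0, 4, 7), ((2, 3, 4), 2, 6, 1), ((2, 3, 6), 2, 6, 4),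
    ((2, 3, 7), 2, 6, 5), ((2, 4, 6), 2, 1, 4), ((2, 4, 7), 2, 1, 5), ((2, 6, 7), 2, 4, 5),
    ((3, 0, 2), 6, 1, 2), ((4, 2, 8), 1, 2, 3), ((5, 7, 10), 0, 5, 8), ((6, 1, 2), 4, 0, 2),
    ((7, 2, 5), 5, 2, 0), ((8, 4, 10), 3, 1, 8), ((9, 0, 1), 7, 1, 0), ((10, 5, 8), 8, 0, 3)]
  Tc := [(0, 1, 2), (0, 1, 3), (0, 2, 3)]
  Td := [((0, 1), (1, 6), 4), ((0, 1), (1, 9), 7), ((0, 1), (5, 7), 5), ((0, 1), (5, 10), 8),
    ((0, 2), (1, 6), 4), ((0, 2), (1, 9), 7), ((0, 2), (5, 7), 5), ((0, 2), (5, 10), 8), ((0,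
    3), (1, 6), 4), ((0, 3), (1, 9), 7), ((0, 3), (5, 7), 5), ((0, 3), (5, 10), 8), ((1, 0),
    (0, 3), 6), ((1, 0), (0, 9), 7), ((1, 0), (4, 2), 2), ((1, 0), (4, 8), 3), ((2, 0), (2,
    3), 6), ((2, 0), (2, 4), 1), ((2, 0), (2, 6), 4), ((2, 0), (2, 7), 5), ((3, 0), (8, 4),
    1), ((3, 0), (8, 10), 8)]
  G := [[0,
    0x1181a18181a161111a11111a1a114111211181ee1111a11181a1a1111a11111a1aac1111641111c1a446,
    0x111121111211112e4811121111211112e8c, 0,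
    0x31412411a11131c92498181186d123111c912111111cd12e88c18181c5222a22ac221811144ea9c], [0,
    0x8111a18181c16418111211141e1111c11111c2ce1111a11181c4a4141c81111c1a1111c11111c1cec2,
    0x4114221244618128221288a18114441188c1e, 0x11dd212211c2d1252258,
    0x122b244218128888b216112111624a1232122921ce812188a286112811624a21218e9c], [0,
    0x1111a41111c16418111211141e1111c11111c1ce112111811141e4141681141c1a1111c81111c1cec2,
    0x111124111211112e4811121111211112e8c, 0,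
    0x888e112333e1122211121111c11ee816188a15218123411215a22a1222121414ee94], [0,
    0x1111a11111a161111a41111a1a112111811141ee88181618111c861141a14111c1a1111c81111c1ce46,
    0x4124221244618128221188a18114441188c1e, 0xd221dd621d828e282212d5a215221d424eac1,
    0x18114222e1146888a112142138211619a22111818ae88a1888a116111e1133614a2262282912111424ee988c11488411489e]]

noncomputable def n3674 : Ent := ⟨e3674, noF, [], [], []⟩

def c3674 : PLift (Cov.check n3674.C.D v3674 = true) := ⟨by decide +kernel⟩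

def b3674 : PLift (entF (fidx ts) 400 3674 n3674 = true) := ⟨by decide +kernel⟩

theorem g3674 : GoodF (fidx ts) 400 3674 := GoodF.ofV v3674 n3674 c3674.down b3674.down

/-- 67774444:2740/3 -/
noncomputable def e3675 : SCfg where
  D := {
    a := 8
    L := 11
    kp := 8
    inn := [(0, 1), (0, 2), (0, 3), (0, 5), (1, 0), (1, 3), (1, 4), (2, 0), (2, 3), (2, 7), (3, 0), (3,
      1), (3, 2), (3, 4), (3, 6), (4, 1), (4, 3), (5, 0), (6, 3), (7, 2)]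
    mix := [(0, 0), (0, 1), (1, 0), (1, 2), (1, 3), (1, 4), (2, 1), (2, 5), (2, 6), (2, 7), (3, 5), (3,
      8), (4, 4), (4, 8), (5, 0), (5, 1), (5, 9), (6, 5), (6, 8), (6, 10), (7, 3), (7, 6), (7, 7)]
    cl := [1, 0, 6, 2, 1, 0, 4, 5, 3, 7, 8]
    chq := [(0, 1), (0, 2), (0, 3), (1, 0), (2, 0), (3, 0)]
    rng := [(0, 3), (0, 9), (1, 6), (1, 9), (2, 3), (2, 4), (3, 0), (3, 2), (3, 6), (3, 7), (4, 2), (4,
      8), (5, 7), (5, 10), (6, 1), (6, 3), (7, 3), (7, 5), (8, 4), (8, 10), (9, 0), (9, 1), (10,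
      5), (10, 8)]
    lev := [] }
  links := [[1, 8, 5, 9, 2, 3], [10, 11, 8, 0, 3, 4, 12], [13, 3, 0, 9, 14, 7, 15], [16, 4, 1, 0, 2, 13,
    6], [1, 3, 16, 12], [8, 17, 9, 0], [3, 13, 18, 16], [2, 14, 11, 15]]
  P := {
    a := 8
    N := 19
    nb := [814, 7449, 57993, 73815, 69642, 131841, 335880, 51204, 133155, 147493, 6146, 50562, 66578,
      294988, 2692, 10372, 266328, 800, 73792]
    tri := [(0, 1, 3), (0, 1, 8), (0, 2, 3), (0, 2, 9), (0, 5, 8), (0, 5, 9), (1, 3, 4), (1, 4, 12),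
      (1, 8, 11), (1, 10, 11), (1, 10, 12), (2, 3, 13), (2, 7, 14), (2, 7, 15), (2, 9, 14), (2,
      13, 15), (3, 4, 16), (3, 6, 13), (3, 6, 16), (4, 12, 16), (5, 8, 17), (5, 9, 17), (6, 13,
      18), (6, 16, 18), (7, 11, 14), (7, 11, 15)]
    fin := [0, 0, 2, 0, 0, 0, 2, 2, 0, 2, 10, 11, 0, 2, 14, 15, 16, 17, 18]
    chd := [(0, 2), (2, 11), (2, 16)]
    steps := [(0, 1), (0, 3), (0, 4), (0, 5), (0, 8), (0, 12), (2, 7), (2, 9), (2, 13), (2, 6)] }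
  rep := [2, 0, 11, 16, 14, 15, 10, 17, 18]

noncomputable def v3675 : Cov.CovD where
  P := 3
  N := 6
  pl := [2, 6, 7, 9, 10]
  lev := [⟨[], [], [(0, 1)], [], [(0, 1, [0]), (1, 0, [1, 2, 3])]⟩,
    ⟨[], [(0, 0), (0, 1), (0, 2)], [(1, 1), (1, 2)], [6], [(0, 1, [0]), (3, 2, [0]), (4, 1,
      [0])]⟩,
    ⟨[(0, 1)], [(0, 0), (0, 1)], [(0, 0)], [4, 5], [(1, 0, [1, 2, 3]), (5, 0, [1, 2, 3])]⟩,
    ⟨[(0, 1), (0, 2), (1, 2)], [(0, 0), (0, 1), (0, 3), (1, 0), (1, 1), (1, 2), (1, 3), (2,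
      0), (2, 3)], [(0, 3)], [], [(5, 0, [1, 2, 3]), (8, 3, [0])]⟩,
    ⟨[(0, 1), (0, 3), (1, 3), (2, 3)], [(1, 1), (1, 2), (1, 3), (3, 0), (3, 1), (3, 3)],
      [(1, 3)], [], [(4, 1, [0]), (8, 3, [0])]⟩,
    ⟨[(0, 1), (0, 2), (0, 3)], [(0, 0), (0, 1), (1, 1), (2, 0)], [(0, 1)], [7], [(0, 1,
      [0]), (1, 0, [1, 2, 3])]⟩,
    ⟨[(0, 3), (1, 3), (2, 3), (3, 4)], [(2, 0), (3, 0), (3, 3), (4, 3)], [(0, 3)], [8],
      [(5, 0, [1, 2, 3]), (8, 3, [0])]⟩,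
    ⟨[(0, 2), (2, 3)], [(1, 2), (2, 0), (2, 2)], [], [4, 5], [(3, 2, [0])]⟩]
  Ta := [((0, 3), 1, 2), ((0, 9), 1, 7), ((1, 6), 0, 4), ((1, 9), 0, 7), ((4, 2), 1, 6), ((4, 8),
    1, 3), ((5, 7), 0, 5), ((5, 10), 0, 8)]
  Tb := [((0, 3, 9), 1, 2, 7), ((1, 6, 9), 0, 4, 7), ((2, 3, 4), 6, 2, 1), ((3, 0, 2), 2, 1, 6),
    ((3, 0, 6), 2, 1, 4), ((3, 0, 7), 2, 1, 5), ((3, 2, 6), 2, 6, 4), ((3, 2, 7), 2, 6, 5),
    ((3, 6, 7), 2, 4, 5), ((4, 2, 8), 1, 6, 3), ((5, 7, 10), 0, 5, 8), ((6, 1, 3), 4, 0, 2),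
    ((7, 3, 5), 5, 2, 0), ((8, 4, 10), 3, 1, 8), ((9, 0, 1), 7, 1, 0), ((10, 5, 8), 8, 0, 3)]
  Tc := [(0, 1, 2), (0, 1, 3), (0, 2, 3)]
  Td := [((0, 1), (1, 6), 4), ((0, 1), (1, 9), 7), ((0, 1), (5, 7), 5), ((0, 1), (5, 10), 8),
    ((0, 2), (1, 6), 4), ((0, 2), (1, 9), 7), ((0, 2), (5, 7), 5), ((0, 2), (5, 10), 8), ((0,
    3), (1, 6), 4), ((0, 3), (1, 9), 7), ((0, 3), (5, 7), 5), ((0, 3), (5, 10), 8), ((1, 0),
    (0, 3), 2), ((1, 0), (0, 9), 7), ((1, 0), (4, 2), 6), ((1, 0), (4, 8), 3), ((2, 0), (3,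
    0), 1), ((2, 0), (3, 2), 6), ((2, 0), (3, 6), 4), ((2, 0), (3, 7), 5), ((3, 0), (8, 4),
    1), ((3, 0), (8, 10), 8)]
  G := [[0,
    0x1181a18181a161111a11111a1a114111211181ee1111a11181a1a1111a11111a1aac1111641111c1a446,
    0x111128411411c221122112c658111288c, 0xd1d111cd12211c1d1d1c92258,
    0x113b41243141249818111cd12113d812111111cd12e88a18181c9211a13185211c11111c92e9c], [0,
    0x1111611111a2a441111a18111c861111a11111a2a112111811141ee1111a11111a2a1111a11111a1aacc,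
    0x4114221144618128221188a18114441188c1e, 0,
    0x889281852161121111d21a2127212121ce888b2881216112111624a1227282121ce94], [0,
    0x8111641181c164141a1111161c1111c11111c1ce114111218181e1141a14141c1a1111c11111c1cec2,
    0x41124114a418111211112a8111211112acc, 0xdd61242d212d811a252125211d81d41ce2d8211281c,
    0x888e112331e1122211221111c11ee88a188619211a13161c2221281a22111414ee94], [0,
    0x1111614111626111164111161661111611111616411161111161a112111411181eec8111a18111a1688c,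
    0x4124221244618118221188a18114441188c1e, 0,
    0x142138211629a2211461424882888288619e191e1131624a2261281922111414ee988c2188a21618214222122c211821ee85]]

noncomputable def n3675 : Ent := ⟨e3675, noF, [], [], []⟩

def c3675 : PLift (Cov.check n3675.C.D v3675 = true) := ⟨by decide +kernel⟩

def b3675 : PLift (entF (fidx ts) 400 3675 n3675 = true) := ⟨by decide +kernel⟩

theorem g3675 : GoodF (fidx ts) 400 3675 := GoodF.ofV v3675 n3675 c3675.down b3675.down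

/-- 67774444:2740 -/
noncomputable def e3676 : SCfg where
  D := {
    a := 8
    L := 12
    kp := 9
    inn := [(0, 1), (0, 2), (0, 3), (0, 5), (1, 0), (1, 3), (1, 4), (2, 0), (2, 3), (2, 7), (3, 0), (3,
      1), (3, 2), (3, 4), (3, 6), (4, 1), (4, 3), (5, 0), (6, 3), (7, 2)]
    mix := [(0, 0), (0, 1), (1, 0), (1, 2), (1, 3), (1, 4), (2, 1), (2, 5), (2, 6), (2, 7), (3, 5), (3,
      8), (4, 4), (4, 8), (5, 0), (5, 1), (5, 9), (6, 5), (6, 8), (6, 10), (7, 6), (7, 7), (7,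
      11)]
    cl := [1, 0, 6, 7, 1, 0, 3, 4, 2, 8, 9, 5]
    chq := [(0, 1), (0, 2), (0, 5), (1, 0), (2, 0), (5, 0)]
    rng := [(0, 3), (0, 9), (1, 6), (1, 9), (2, 3), (2, 4), (3, 0), (3, 2), (4, 2), (4, 8), (5, 7), (5,
      10), (6, 1), (6, 11), (7, 5), (7, 11), (8, 4), (8, 10), (9, 0), (9, 1), (10, 5), (10, 8),
      (11, 6), (11, 7)]
    lev := [] }
  links := [[1, 8, 5, 9, 2, 3], [10, 11, 8, 0, 3, 4, 12], [13, 3, 0, 9, 14, 7, 15], [16, 4, 1, 0, 2, 13,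
    6], [1, 3, 16, 12], [8, 17, 9, 0], [3, 13, 18, 16], [2, 14, 19, 15]]
  P := {
    a := 8
    N := 20
    nb := [814, 7449, 57993, 73815, 69642, 131841, 335880, 573444, 133155, 147493, 6146, 1282, 66578,
      294988, 524932, 532612, 266328, 800, 73792, 49280]
    tri := [(0, 1, 3), (0, 1, 8), (0, 2, 3), (0, 2, 9), (0, 5, 8), (0, 5, 9), (1, 3, 4), (1, 4, 12),
      (1, 8, 11), (1, 10, 11), (1, 10, 12), (2, 3, 13), (2, 7, 14), (2, 7, 15), (2, 9, 14), (2,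
      13, 15), (3, 4, 16), (3, 6, 13), (3, 6, 16), (4, 12, 16), (5, 8, 17), (5, 9, 17), (6, 13,
      18), (6, 16, 18), (7, 14, 19), (7, 15, 19)]
    fin := [0, 0, 2, 0, 0, 0, 2, 2, 0, 2, 10, 11, 0, 2, 14, 15, 16, 17, 18, 19]
    chd := [(0, 2), (2, 16), (2, 19)]
    steps := [(0, 1), (0, 3), (0, 4), (0, 5), (0, 8), (0, 12), (2, 7), (2, 9), (2, 13), (2, 6)] }
  rep := [2, 0, 16, 14, 15, 19, 10, 11, 17, 18]

noncomputable def v3676 : Cov.CovD where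
  P := 3
  N := 7
  pl := [2, 3, 6, 7, 9, 10]
  lev := [⟨[], [], [(0, 1)], [], [(0, 1, [0]), (1, 0, [1, 2, 5])]⟩,
    ⟨[], [(0, 0), (0, 1)], [(1, 1)], [6, 7], [(0, 1, [0]), (4, 1, [0])]⟩,
    ⟨[(0, 1)], [(0, 0), (0, 1)], [(0, 0)], [3, 4], [(1, 0, [1, 2, 5]), (5, 0, [1, 2, 5])]⟩,
    ⟨[(0, 1), (0, 2), (1, 2)], [(0, 0), (0, 1), (0, 2), (1, 0), (1, 1), (1, 2), (2, 0), (2,
      2)], [(0, 2)], [], [(5, 0, [1, 2, 5]), (8, 2, [0])]⟩,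
    ⟨[(0, 1), (0, 3), (1, 3), (2, 3)], [(1, 1), (1, 2), (3, 0), (3, 1), (3, 2)], [(1, 2)],
      [], [(4, 1, [0]), (8, 2, [0])]⟩,
    ⟨[(0, 1), (0, 2), (0, 3)], [(0, 0), (0, 1), (1, 1), (2, 0)], [(0, 1)], [8], [(0, 1,
      [0]), (1, 0, [1, 2, 5])]⟩,
    ⟨[(0, 3), (1, 3), (2, 3), (3, 4)], [(2, 0), (3, 0), (3, 2), (4, 2)], [(0, 2)], [9],
      [(5, 0, [1, 2, 5]), (8, 2, [0])]⟩,
    ⟨[(0, 2), (2, 3)], [(2, 0), (2, 5)], [], [3, 4], [(11, 5, [0])]⟩]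
  Ta := [((0, 3), 1, 7), ((0, 9), 1, 8), ((1, 6), 0, 3), ((1, 9), 0, 8), ((4, 2), 1, 6), ((4, 8),
    1, 2), ((5, 7), 0, 4), ((5, 10), 0, 9)]
  Tb := [((0, 3, 9), 1, 7, 8), ((1, 6, 9), 0, 3, 8), ((2, 3, 4), 6, 7, 1), ((3, 0, 2), 7, 1, 6),
    ((4, 2, 8), 1, 6, 2), ((5, 7, 10), 0, 4, 9), ((6, 1, 11), 3, 0, 5), ((7, 5, 11), 4, 0,
    5), ((8, 4, 10), 2, 1, 9), ((9, 0, 1), 8, 1, 0), ((10, 5, 8), 9, 0, 2), ((11, 6, 7), 5,
    3, 4)]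
  Tc := [(0, 1, 2), (0, 1, 5), (0, 2, 5)]
  Td := [((0, 1), (1, 6), 3), ((0, 1), (1, 9), 8), ((0, 1), (5, 7), 4), ((0, 1), (5, 10), 9),
    ((0, 2), (1, 6), 3), ((0, 2), (1, 9), 8), ((0, 2), (5, 7), 4), ((0, 2), (5, 10), 9), ((0,
    5), (1, 6), 3), ((0, 5), (1, 9), 8), ((0, 5), (5, 7), 4), ((0, 5), (5, 10), 9), ((1, 0),
    (0, 3), 7), ((1, 0), (0, 9), 8), ((1, 0), (4, 2), 6), ((1, 0), (4, 8), 2), ((2, 0), (8,
    4), 1), ((2, 0), (8, 10), 9), ((5, 0), (11, 6), 3), ((5, 0), (11, 7), 4)]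
  G := [[0, 0x1111618441111a141111a181111a18e1111a181111a88a1111c481111a481111c88eec,
    0x11a11411614811a124e411a11411a18211c112e11612811618211a148e9c, 0,
    0x7141243141271f1c121191c82ed14284df1b1c12318825111c12eb181285111c1891888f1b1c88edc], [0,
    0x11116141111a841111c14e21111c441111c841111c44e1111a181111a481111c88eca,
    0x11a18211614811c142e11621811a218a11a18411614211c142ed11a118446,
    0x11214d1218c4d12841121871248eb12182d12841124871288edc,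
    0x7121211212611282d1212b1218e31282f128291212edb121288c], [0,
    0x111161411116481111648e41111a841111a481111c48e1111c481111a481111a88eac,
    0x11c142116118c411a18411611211c182e11c182211614811618211a184edc, 0,
    0x75a112455a112431a182fda112b2119818aedb9a18232111818aa99a18233a128acc], [0,
    0x1111648441111a841111a481111a84e1111a181111a88a11116181111a181111c88eec,
    0x11c14211a282116188e111c282116242116284e11a24211628811c212ec5,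
    0x5411d811c19c1487fc248e1d9c21454211828c73c284e14219828c5dc2483bc248ec5,
    0x55a112411a182dda282c5bba21821b9a21275a28232211828ae99a28233a218acd]]

noncomputable def n3676 : Ent := ⟨e3676, noF, [], [], [(19, 12, [130296143695408343586465777533138431857087732697043626579303559083209508884481, 0]), (19, 10, [130296143695408343586455050065174465306077857159343147133421137107910685728769, 0]), (19, 11, [130296143695408343586455053057507723888768400749000111817965852164704071692289, 0])]⟩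

def c3676 : PLift (Cov.check n3676.C.D v3676 = true) := ⟨by decide +kernel⟩

def b3676 : PLift (entF (fidx ts) 400 3676 n3676 = true) := ⟨by decide +kernel⟩

theorem g3676 : GoodF (fidx ts) 400 3676 := GoodF.ofV v3676 n3676 c3676.down b3676.down

/-- 5677644:2741/2 -/
noncomputable def e3677 : SCfg where
  D := {
    a := 7
    L := 10
    kp := 7
    inn := [(0, 3), (0, 5), (1, 2), (1, 3), (1, 4), (1, 5), (2, 1), (2, 4), (2, 6), (3, 0), (3, 1), (3,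
      5), (4, 1), (4, 2), (5, 0), (5, 1), (5, 3), (6, 2)]
    mix := [(0, 0), (0, 1), (0, 2), (1, 0), (1, 3), (2, 0), (2, 1), (2, 4), (2, 5), (3, 2), (3, 3), (3,
      6), (3, 7), (4, 3), (4, 5), (4, 8), (4, 9), (5, 0), (6, 1), (6, 2), (6, 4)]
    cl := [0, 2, 1, 1, 3, 0, 6, 7, 4, 5]
    chq := [(0, 1), (1, 0), (2, 4), (2, 5), (4, 2), (5, 2)]
    rng := [(0, 1), (1, 0), (1, 2), (2, 1), (2, 4), (2, 6), (3, 7), (3, 8), (4, 2), (4, 5), (5, 4), (5,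
      9), (6, 2), (6, 7), (7, 3), (7, 6), (8, 3), (8, 9), (9, 5), (9, 8)]
    lev := [] }
  links := [[3, 5, 7, 8, 9], [2, 7, 5, 3, 10, 4], [11, 6, 8, 7, 1, 4, 12], [10, 1, 5, 0, 9, 13, 14], [12,
    2, 1, 10, 15, 16], [7, 0, 3, 1], [8, 2, 11, 9]]
  P := {
    a := 7
    N := 17
    nb := [936, 1212, 6610, 26147, 103430, 139, 2820, 295, 709, 10569, 49178, 4676, 67604, 16904,
      9224, 66576, 36880]
    tri := [(0, 3, 5), (0, 3, 9), (0, 5, 7), (0, 7, 8), (0, 8, 9), (1, 2, 4), (1, 2, 7), (1, 3, 5), (1,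
      3, 10), (1, 4, 10), (1, 5, 7), (2, 4, 12), (2, 6, 8), (2, 6, 11), (2, 7, 8), (2, 11, 12),
      (3, 9, 13), (3, 10, 14), (3, 13, 14), (4, 10, 15), (4, 12, 16), (4, 15, 16), (6, 8, 9), (6,
      9, 11)]
    fin := [0, 0, 2, 3, 0, 0, 2, 2, 0, 3, 3, 11, 2, 13, 14, 15, 16]
    chd := [(0, 15), (0, 16), (2, 3)]
    steps := [(0, 5), (0, 1), (0, 4), (2, 6), (2, 7), (0, 8), (2, 12), (3, 9), (3, 10)] }
  rep := [2, 3, 0, 11, 15, 16, 13, 14]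

noncomputable def v3677 : Cov.CovD where
  P := 3
  N := 5
  pl := [4, 6, 7]
  lev := [⟨[], [], [(0, 1), (0, 2), (1, 2)], [], [(0, 0, [1]), (1, 2, [4, 5]), (2, 1, [0])]⟩,
    ⟨[], [(0, 0)], [(0, 1)], [], [(0, 0, [1]), (3, 1, [0])]⟩,
    ⟨[], [(0, 0), (0, 2), (1, 0), (1, 1), (1, 2)], [(0, 0), (0, 2)], [3], [(0, 0, [1]), (1,
      2, [4, 5]), (5, 0, [1])]⟩,
    ⟨[(0, 1), (1, 2)], [(0, 0), (0, 1), (0, 2), (1, 0), (1, 1)], [(1, 1)], [6, 7], [(2, 1,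
      [0]), (3, 1, [0])]⟩,
    ⟨[(1, 2), (1, 3)], [(1, 0), (1, 1), (1, 4), (1, 5), (2, 0), (2, 1), (2, 2), (2, 4), (2,
      5), (3, 1)], [(0, 1), (0, 4), (0, 5), (1, 4), (1, 5), (4, 5)], [], [(3, 1, [0]), (5, 0,
      [1]), (8, 4, [2]), (9, 5, [2])]⟩,
    ⟨[(0, 1), (0, 3), (1, 2), (1, 3), (1, 4)], [(0, 0), (0, 1), (0, 2), (1, 0), (1, 1), (2,
      0), (3, 0), (3, 1)], [], [], [(0, 0, [1])]⟩,
    ⟨[(1, 2), (2, 4)], [(0, 1), (0, 2), (2, 0), (2, 1), (2, 2), (3, 1)], [(1, 2)], [3],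
      [(1, 2, [4, 5]), (2, 1, [0])]⟩]
  Ta := [((0, 1), 0, 2), ((2, 1), 1, 2), ((2, 4), 1, 3), ((2, 6), 1, 6), ((3, 7), 1, 7), ((3, 8),
    1, 4), ((5, 4), 0, 3), ((5, 9), 0, 5)]
  Tb := [((1, 0, 2), 2, 0, 1), ((2, 1, 4), 1, 2, 3), ((2, 1, 6), 1, 2, 6), ((2, 4, 6), 1, 3, 6),
    ((3, 7, 8), 1, 7, 4), ((4, 2, 5), 3, 1, 0), ((5, 4, 9), 0, 3, 5), ((6, 2, 7), 6, 1, 7),
    ((7, 3, 6), 7, 1, 6), ((8, 3, 9), 4, 1, 5), ((9, 5, 8), 5, 0, 4)]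
  Tc := [(2, 4, 5)]
  Td := [((0, 1), (0, 1), 2), ((0, 1), (5, 4), 3), ((0, 1), (5, 9), 5), ((1, 0), (2, 1), 2), ((1,
    0), (2, 4), 3), ((1, 0), (2, 6), 6), ((1, 0), (3, 7), 7), ((1, 0), (3, 8), 4), ((2, 4),
    (1, 0), 0), ((2, 4), (1, 2), 1), ((2, 5), (1, 0), 0), ((2, 5), (1, 2), 1), ((4, 2), (8,
    3), 1), ((4, 2), (8, 9), 5), ((5, 2), (9, 5), 0), ((5, 2), (9, 8), 4)]
  G := [[0, 0x44241264142112812e1128cc8, 0x841841841d441441481dc28, 0x1221225142482142dc12288c4,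
    0x12414452421214d82144884884d8e8], [0, 0x1121126442112182ec12288c4, 0xc81c81c41d242, 0,
    0x144184184d282], [0, 0x42242264142122122e1128cc8, 0, 0x82211821c882122c482482cc54,
    0x12414452844884844d814482b8], [0, 0x1121426412412122ec11288c4, 0, 0, 0x944944984d282]]

noncomputable def n3677 : Ent := ⟨e3677, noF, [], [], []⟩

def c3677 : PLift (Cov.check n3677.C.D v3677 = true) := ⟨by decide +kernel⟩

def b3677 : PLift (entF (fidx ts) 400 3677 n3677 = true) := ⟨by decide +kernel⟩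

theorem g3677 : GoodF (fidx ts) 400 3677 := GoodF.ofV v3677 n3677 c3677.down b3677.down

/-- 5677644:2741/1 -/
noncomputable def e3678 : SCfg where
  D := {
    a := 7
    L := 11
    kp := 8
    inn := [(0, 3), (0, 5), (1, 2), (1, 3), (1, 4), (1, 5), (2, 1), (2, 4), (2, 6), (3, 0), (3, 1), (3,
      5), (4, 1), (4, 2), (5, 0), (5, 1), (5, 3), (6, 2)]
    mix := [(0, 0), (0, 1), (0, 2), (1, 0), (1, 3), (2, 0), (2, 1), (2, 4), (2, 5), (3, 2), (3, 3), (3,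
      6), (3, 7), (4, 3), (4, 5), (4, 8), (4, 9), (5, 0), (6, 1), (6, 4), (6, 10)]
    cl := [0, 2, 1, 1, 3, 0, 7, 8, 4, 5, 6]
    chq := [(0, 6), (2, 4), (2, 5), (4, 2), (5, 2), (6, 0)]
    rng := [(0, 1), (1, 0), (1, 2), (1, 10), (2, 1), (2, 6), (3, 7), (3, 8), (4, 5), (4, 10), (5, 4),
      (5, 9), (6, 2), (6, 7), (7, 3), (7, 6), (8, 3), (8, 9), (9, 5), (9, 8), (10, 1), (10, 4)]
    lev := [] }
  links := [[3, 5, 7, 8, 9], [2, 7, 5, 3, 10, 4], [11, 6, 8, 7, 1, 4, 12], [10, 1, 5, 0, 9, 13, 14], [12,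
    2, 1, 10, 15, 16], [7, 0, 3, 1], [8, 2, 11, 17]]
  P := {
    a := 7
    N := 18
    nb := [936, 1212, 6610, 26147, 103430, 139, 133380, 295, 131781, 8457, 49178, 135236, 67604,
      16904, 9224, 66576, 36880, 2368]
    tri := [(0, 3, 5), (0, 3, 9), (0, 5, 7), (0, 7, 8), (0, 8, 9), (1, 2, 4), (1, 2, 7), (1, 3, 5), (1,
      3, 10), (1, 4, 10), (1, 5, 7), (2, 4, 12), (2, 6, 8), (2, 6, 11), (2, 7, 8), (2, 11, 12),
      (3, 9, 13), (3, 10, 14), (3, 13, 14), (4, 10, 15), (4, 12, 16), (4, 15, 16), (6, 8, 17), (6,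
      11, 17)]
    fin := [0, 0, 2, 3, 0, 0, 2, 2, 0, 3, 3, 11, 2, 13, 14, 15, 16, 17]
    chd := [(0, 15), (0, 16), (2, 17)]
    steps := [(0, 5), (0, 1), (0, 4), (2, 6), (2, 7), (0, 8), (2, 12), (3, 9), (3, 10)] }
  rep := [2, 3, 0, 11, 15, 16, 17, 13, 14]

noncomputable def v3678 : Cov.CovD where
  P := 3
  N := 6
  pl := [4, 6, 7]
  lev := [⟨[], [], [(0, 1), (0, 2), (1, 2)], [], [(0, 0, [6]), (1, 2, [4, 5]), (2, 1, [])]⟩,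
    ⟨[], [(0, 0)], [(0, 1)], [], [(0, 0, [6]), (3, 1, [])]⟩,
    ⟨[], [(0, 0), (0, 2), (1, 0), (1, 1), (1, 2)], [(0, 0), (0, 2)], [3], [(0, 0, [6]), (1,
      2, [4, 5]), (5, 0, [6])]⟩,
    ⟨[(0, 1), (1, 2)], [(0, 0), (0, 1), (0, 2), (1, 0), (1, 1)], [(1, 1)], [7, 8], [(2, 1,
      []), (3, 1, [])]⟩,
    ⟨[(1, 2), (1, 3)], [(1, 0), (1, 1), (1, 4), (1, 5), (2, 0), (2, 1), (2, 2), (2, 4), (2,
      5), (3, 1)], [(0, 1), (0, 4), (0, 5), (1, 4), (1, 5), (4, 5)], [], [(3, 1, []), (5, 0,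
      [6]), (8, 4, [2]), (9, 5, [2])]⟩,
    ⟨[(0, 1), (0, 3), (1, 2), (1, 3), (1, 4)], [(0, 0), (0, 1), (0, 2), (1, 0), (1, 1), (2,
      0), (3, 0), (3, 1)], [], [], [(0, 0, [6])]⟩,
    ⟨[(1, 2), (2, 4)], [(0, 2), (2, 0), (2, 2), (2, 6)], [(2, 6)], [3], [(1, 2, [4, 5]),
      (10, 6, [0])]⟩]
  Ta := [((0, 1), 0, 2), ((2, 1), 1, 2), ((2, 6), 1, 7), ((3, 7), 1, 8), ((3, 8), 1, 4), ((5, 4),
    0, 3), ((5, 9), 0, 5)]
  Tb := [((1, 0, 2), 2, 0, 1), ((1, 0, 10), 2, 0, 6), ((1, 2, 10), 2, 1, 6), ((2, 1, 6), 1, 2,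
    7), ((3, 7, 8), 1, 8, 4), ((4, 5, 10), 3, 0, 6), ((5, 4, 9), 0, 3, 5), ((6, 2, 7), 7, 1,
    8), ((7, 3, 6), 8, 1, 7), ((8, 3, 9), 4, 1, 5), ((9, 5, 8), 5, 0, 4), ((10, 1, 4), 6, 2,
    3)]
  Tc := [(2, 4, 5)]
  Td := [((0, 6), (0, 1), 2), ((0, 6), (5, 4), 3), ((0, 6), (5, 9), 5), ((2, 4), (1, 0), 0), ((2,
    4), (1, 2), 1), ((2, 4), (1, 10), 6), ((2, 5), (1, 0), 0), ((2, 5), (1, 2), 1), ((2, 5),
    (1, 10), 6), ((4, 2), (8, 3), 1), ((4, 2), (8, 9), 5), ((5, 2), (9, 5), 0), ((5, 2), (9,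
    8), 4), ((6, 0), (10, 1), 2), ((6, 0), (10, 4), 3)]
  G := [[0, 0x1224142182142ec182182a8c4, 0x681681564186c81a81a41d8a4,
    0x12244142182122d1221229cc8, 0x14412452141212d82144144184d8e8], [0,
    0x14244122182182e122122acc8, 0xc41c41641d4a411a81a81cac2, 0,
    0x1441445144144144da181818d88c2], [0, 0x1124122d82142ecd12d22a8c4, 0,
    0xd42912542d1229829c5424458, 0x1441245b241a1248b24b84ca98], [0,
    0x14244542d12522e922922acc8, 0, 0, 0x1241b14b245ab24144c1448a98]]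

noncomputable def n3678 : Ent := ⟨e3678, noF, [], [], [(9, 17, [6903326391201334775872065844685381424292761054348340378595029944750081, 0])]⟩

def c3678 : PLift (Cov.check n3678.C.D v3678 = true) := ⟨by decide +kernel⟩

def b3678 : PLift (entF (fidx ts) 400 3678 n3678 = true) := ⟨by decide +kernel⟩

theorem g3678 : GoodF (fidx ts) 400 3678 := GoodF.ofV v3678 n3678 c3678.down b3678.down

/-- 5677644:2741/3 -/
noncomputable def e3679 : SCfg where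
  D := {
    a := 7
    L := 11
    kp := 8
    inn := [(0, 3), (0, 5), (1, 2), (1, 3), (1, 4), (1, 5), (2, 1), (2, 4), (2, 6), (3, 0), (3, 1), (3,
      5), (4, 1), (4, 2), (5, 0), (5, 1), (5, 3), (6, 2)]
    mix := [(0, 0), (0, 1), (0, 2), (1, 0), (1, 3), (2, 0), (2, 4), (2, 5), (2, 6), (3, 2), (3, 3), (3,
      7), (3, 8), (4, 3), (4, 6), (4, 9), (4, 10), (5, 0), (6, 2), (6, 4), (6, 5)]
    cl := [1, 6, 0, 0, 3, 2, 2, 7, 8, 4, 5]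
    chq := [(0, 1), (1, 0), (1, 4), (1, 5), (4, 1), (5, 1)]
    rng := [(0, 1), (0, 5), (1, 0), (1, 2), (2, 1), (2, 4), (2, 5), (2, 7), (3, 8), (3, 9), (4, 2), (4,
      6), (5, 0), (5, 2), (6, 4), (6, 10), (7, 2), (7, 8), (8, 3), (8, 7), (9, 3), (9, 10), (10,
      6), (10, 9)]
    lev := [] }
  links := [[3, 5, 7, 8, 9], [2, 7, 5, 3, 10, 4], [11, 6, 12, 7, 1, 4, 13], [10, 1, 5, 0, 9, 14, 15],
    [13, 2, 1, 10, 16, 17], [7, 0, 3, 1], [12, 2, 11, 9]]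
  P := {
    a := 7
    N := 18
    nb := [936, 1212, 14546, 50723, 205830, 139, 6660, 4391, 641, 22857, 98330, 8772, 708, 133140,
      33288, 17416, 132112, 73744]
    tri := [(0, 3, 5), (0, 3, 9), (0, 5, 7), (0, 7, 8), (0, 8, 9), (1, 2, 4), (1, 2, 7), (1, 3, 5), (1,
      3, 10), (1, 4, 10), (1, 5, 7), (2, 4, 13), (2, 6, 11), (2, 6, 12), (2, 7, 12), (2, 11, 13),
      (3, 9, 14), (3, 10, 15), (3, 14, 15), (4, 10, 16), (4, 13, 17), (4, 16, 17), (6, 9, 11), (6,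
      9, 12)]
    fin := [0, 0, 2, 3, 0, 0, 3, 0, 8, 3, 3, 11, 2, 2, 14, 15, 16, 17]
    chd := [(0, 3), (0, 16), (0, 17)]
    steps := [(0, 5), (0, 1), (0, 4), (0, 7), (2, 13), (2, 12), (3, 9), (3, 6), (3, 10)] }
  rep := [3, 0, 2, 11, 16, 17, 8, 14, 15]

noncomputable def v3679 : Cov.CovD where
  P := 3
  N := 6
  pl := [1, 4, 7, 8]
  lev := [⟨[], [], [(0, 1)], [6], [(0, 1, [0, 4, 5]), (2, 0, [1])]⟩,
    ⟨[], [(0, 1)], [(0, 1)], [], [(0, 1, [0, 4, 5]), (3, 0, [1])]⟩,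
    ⟨[], [(0, 1), (1, 0), (1, 1), (1, 2)], [(1, 2), (2, 2)], [3], [(0, 1, [0, 4, 5]), (5,
      2, []), (6, 2, [])]⟩,
    ⟨[(0, 1), (1, 2)], [(0, 0), (0, 1), (1, 0), (1, 1)], [(0, 0)], [7, 8], [(2, 0, [1]),
      (3, 0, [1])]⟩,
    ⟨[(1, 2), (1, 3)], [(1, 0), (1, 1), (1, 2), (1, 4), (1, 5), (2, 0), (2, 1), (2, 2), (2,
      4), (2, 5), (3, 0)], [(0, 2), (0, 4), (0, 5), (2, 4), (2, 5), (4, 5)], [], [(3, 0,
      [1]), (6, 2, []), (9, 4, [1]), (10, 5, [1])]⟩,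
    ⟨[(0, 1), (0, 3), (1, 2), (1, 3), (1, 4)], [(0, 0), (0, 1), (1, 0), (1, 1), (2, 1), (3,
      0), (3, 1)], [], [], [(0, 1, [0, 4, 5])]⟩,
    ⟨[(1, 2), (2, 4)], [(0, 0), (2, 0), (2, 1), (2, 2), (3, 0)], [(0, 2)], [3], [(2, 0,
      [1]), (5, 2, [])]⟩]
  Ta := [((2, 1), 0, 6), ((2, 4), 0, 3), ((2, 5), 0, 2), ((2, 7), 0, 7), ((3, 8), 0, 8), ((3, 9),
    0, 4), ((5, 0), 2, 1), ((5, 2), 2, 0), ((6, 4), 2, 3), ((6, 10), 2, 5)]
  Tb := [((0, 1, 5), 1, 6, 2), ((1, 0, 2), 6, 1, 0), ((2, 1, 4), 0, 6, 3), ((2, 1, 5), 0, 6, 2),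
    ((2, 1, 7), 0, 6, 7), ((2, 4, 5), 0, 3, 2), ((2, 4, 7), 0, 3, 7), ((2, 5, 7), 0, 2, 7),
    ((3, 8, 9), 0, 8, 4), ((4, 2, 6), 3, 0, 2), ((5, 0, 2), 2, 1, 0), ((6, 4, 10), 2, 3, 5),
    ((7, 2, 8), 7, 0, 8), ((8, 3, 7), 8, 0, 7), ((9, 3, 10), 4, 0, 5), ((10, 6, 9), 5, 2, 4)]
  Tc := [(1, 0, 4), (1, 0, 5), (1, 4, 5)]
  Td := [((0, 1), (2, 1), 6), ((0, 1), (2, 4), 3), ((0, 1), (2, 5), 2), ((0, 1), (2, 7), 7), ((0,
    1), (3, 8), 8), ((0, 1), (3, 9), 4), ((1, 0), (0, 1), 6), ((1, 0), (0, 5), 2), ((1, 4),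
    (0, 1), 6), ((1, 4), (0, 5), 2), ((1, 5), (0, 1), 6), ((1, 5), (0, 5), 2), ((4, 1), (9,
    3), 0), ((4, 1), (9, 10), 5), ((5, 1), (10, 6), 2), ((5, 1), (10, 9), 4)]
  G := [[0, 0x811181841e111181ac481446181811141e141111141ec2c,
    0x242842842e442482482ec1842282242e282482482ec1c,
    0x812812812e8442442442e45882882842e442482442ec1c,
    0x212282242e1842842882e85212212212e1882882842e89c], [0,
    0x211811811e121111ac211446181281811e411411211ec2c, 0, 0,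
    0x842882812e242412282e94412482482e1882882242e89c], [0,
    0x811821821e111121ac411446841821141e141411141ec2c, 0, 0xc82c82c42e141, 0xa42a82a82e141],
    [0, 0x841811111e111121411ec21111216221121421ec82188cc, 0, 0, 0xc42a82c82e181]]

noncomputable def n3679 : Ent := ⟨e3679, noF, [], [], [(8, 12, [7334790875884700912148207959429466810732110717284923962112213602652161, 0])]⟩

def c3679 : PLift (Cov.check n3679.C.D v3679 = true) := ⟨by decide +kernel⟩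

def b3679 : PLift (entF (fidx ts) 400 3679 n3679 = true) := ⟨by decide +kernel⟩

theorem g3679 : GoodF (fidx ts) 400 3679 := GoodF.ofV v3679 n3679 c3679.down b3679.down

/-- 5677644:2741/4 -/
noncomputable def e3680 : SCfg where
  D := {
    a := 7
    L := 11
    kp := 8
    inn := [(0, 3), (0, 5), (1, 2), (1, 3), (1, 4), (1, 5), (2, 1), (2, 4), (2, 6), (3, 0), (3, 1), (3,
      5), (4, 1), (4, 2), (5, 0), (5, 1), (5, 3), (6, 2)]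
    mix := [(0, 0), (0, 1), (0, 2), (1, 0), (1, 3), (2, 0), (2, 4), (2, 5), (2, 6), (3, 2), (3, 3), (3,
      7), (3, 8), (4, 3), (4, 6), (4, 9), (4, 10), (5, 0), (6, 4), (6, 5), (6, 7)]
    cl := [0, 7, 3, 3, 2, 1, 1, 4, 8, 5, 6]
    chq := [(0, 3), (0, 5), (0, 6), (3, 0), (5, 0), (6, 0)]
    rng := [(0, 1), (0, 5), (1, 0), (1, 2), (2, 1), (2, 7), (3, 8), (3, 9), (4, 6), (4, 7), (5, 0), (5,
      7), (6, 4), (6, 10), (7, 2), (7, 4), (7, 5), (7, 8), (8, 3), (8, 7), (9, 3), (9, 10), (10,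
      6), (10, 9)]
    lev := [] }
  links := [[3, 5, 7, 8, 9], [2, 7, 5, 3, 10, 4], [11, 6, 12, 7, 1, 4, 13], [10, 1, 5, 0, 9, 14, 15],
    [13, 2, 1, 10, 16, 17], [7, 0, 3, 1], [12, 2, 11, 14]]
  P := {
    a := 7
    N := 18
    nb := [936, 1212, 14546, 50723, 205830, 139, 22532, 4391, 641, 16649, 98330, 24644, 16580, 133140,
      39496, 17416, 132112, 73744]
    tri := [(0, 3, 5), (0, 3, 9), (0, 5, 7), (0, 7, 8), (0, 8, 9), (1, 2, 4), (1, 2, 7), (1, 3, 5), (1,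
      3, 10), (1, 4, 10), (1, 5, 7), (2, 4, 13), (2, 6, 11), (2, 6, 12), (2, 7, 12), (2, 11, 13),
      (3, 9, 14), (3, 10, 15), (3, 14, 15), (4, 10, 16), (4, 13, 17), (4, 16, 17), (6, 11, 14),
      (6, 12, 14)]
    fin := [0, 0, 2, 3, 0, 0, 6, 0, 8, 3, 3, 11, 2, 2, 6, 15, 16, 17]
    chd := [(0, 3), (0, 16), (0, 17)]
    steps := [(0, 5), (0, 1), (0, 4), (0, 7), (2, 13), (2, 12), (3, 9), (3, 10), (6, 14)] }
  rep := [0, 2, 11, 3, 6, 16, 17, 8, 15]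

noncomputable def v3680 : Cov.CovD where
  P := 3
  N := 6
  pl := [1, 4, 7, 8]
  lev := [⟨[], [], [(0, 3)], [7], [(0, 0, [3, 5, 6]), (2, 3, [0])]⟩,
    ⟨[], [(0, 0)], [(0, 3)], [], [(0, 0, [3, 5, 6]), (3, 3, [0])]⟩,
    ⟨[], [(0, 0), (1, 0), (1, 1), (1, 3)], [(0, 1), (1, 1)], [2], [(0, 0, [3, 5, 6]), (5,
      1, []), (6, 1, [])]⟩,
    ⟨[(0, 1), (1, 2)], [(0, 0), (0, 3), (1, 0), (1, 3)], [(3, 3)], [4, 8], [(2, 3, [0]),
      (3, 3, [0])]⟩,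
    ⟨[(1, 2), (1, 3)], [(1, 0), (1, 1), (1, 3), (1, 5), (1, 6), (2, 0), (2, 1), (2, 3), (2,
      5), (2, 6), (3, 3)], [(1, 3), (1, 5), (1, 6), (3, 5), (3, 6), (5, 6)], [], [(3, 3,
      [0]), (6, 1, []), (9, 5, [0]), (10, 6, [0])]⟩,
    ⟨[(0, 1), (0, 3), (1, 2), (1, 3), (1, 4)], [(0, 0), (0, 3), (1, 0), (1, 3), (2, 0), (3,
      0), (3, 3)], [], [], [(0, 0, [3, 5, 6])]⟩,
    ⟨[(1, 2), (2, 4)], [(2, 0), (2, 1)], [], [2, 4], [(5, 1, [])]⟩]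
  Ta := [((2, 1), 3, 7), ((2, 7), 3, 4), ((3, 8), 3, 8), ((3, 9), 3, 5), ((5, 0), 1, 0), ((5, 7),
    1, 4), ((6, 4), 1, 2), ((6, 10), 1, 6)]
  Tb := [((0, 1, 5), 0, 7, 1), ((1, 0, 2), 7, 0, 3), ((2, 1, 7), 3, 7, 4), ((3, 8, 9), 3, 8, 5),
    ((4, 6, 7), 2, 1, 4), ((5, 0, 7), 1, 0, 4), ((6, 4, 10), 1, 2, 6), ((7, 2, 4), 4, 3, 2),
    ((7, 2, 5), 4, 3, 1), ((7, 2, 8), 4, 3, 8), ((7, 4, 5), 4, 2, 1), ((7, 4, 8), 4, 2, 8),
    ((7, 5, 8), 4, 1, 8), ((8, 3, 7), 8, 3, 4), ((9, 3, 10), 5, 3, 6), ((10, 6, 9), 6, 1, 5)]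
  Tc := [(0, 3, 5), (0, 3, 6), (0, 5, 6)]
  Td := [((0, 3), (0, 1), 7), ((0, 3), (0, 5), 1), ((0, 5), (0, 1), 7), ((0, 5), (0, 5), 1), ((0,
    6), (0, 1), 7), ((0, 6), (0, 5), 1), ((3, 0), (2, 1), 7), ((3, 0), (2, 7), 4), ((3, 0),
    (3, 8), 8), ((3, 0), (3, 9), 5), ((5, 0), (9, 3), 3), ((5, 0), (9, 10), 6), ((6, 0), (10,
    6), 1), ((6, 0), (10, 9), 5)]
  G := [[0, 0x841441481c41f82841421821c21f48821421c81c21f84e,
    0x841481481c81f42841421821c41f48881881c81c81f84e, 0,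
    0x821921981121f84881981881141f82821881981181f84e], [0,
    0x841821841c21f8442142138218819c8481484e, 0x821481c81c81f82841481c41c81f846, 0,
    0x821921981181f82841981981141f846], [0, 0,
    0x841241241241f42841421221241f48821421281281f84e,
    0x821481421181f84841421841121f48421421981121f84e,
    0x821221221121f84281281281241f82821281281221f84e], [0, 0,
    0x281481281221f42881481241281f846, 0x841421c41141f42841441c81181f48a,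
    0x221281281121f82841281281281f846]]

noncomputable def n3680 : Ent := ⟨e3680, noF, [], [], []⟩

def c3680 : PLift (Cov.check n3680.C.D v3680 = true) := ⟨by decide +kernel⟩

def b3680 : PLift (entF (fidx ts) 400 3680 n3680 = true) := ⟨by decide +kernel⟩

theorem g3680 : GoodF (fidx ts) 400 3680 := GoodF.ofV v3680 n3680 c3680.down b3680.down

/-- 5677644:2741/5 -/
noncomputable def e3681 : SCfg where
  D := {
    a := 7
    L := 11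
    kp := 8
    inn := [(0, 3), (0, 5), (1, 2), (1, 3), (1, 4), (1, 5), (2, 1), (2, 4), (2, 6), (3, 0), (3, 1), (3,
      5), (4, 1), (4, 2), (5, 0), (5, 1), (5, 3), (6, 2)]
    mix := [(0, 0), (0, 1), (0, 2), (1, 0), (1, 3), (2, 0), (2, 4), (2, 5), (2, 6), (3, 2), (3, 3), (3,
      7), (3, 8), (4, 3), (4, 6), (4, 9), (4, 10), (5, 0), (6, 4), (6, 5), (6, 8)]
    cl := [0, 7, 3, 3, 2, 1, 1, 8, 4, 5, 6]
    chq := [(0, 3), (0, 5), (0, 6), (3, 0), (5, 0), (6, 0)]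
    rng := [(0, 1), (0, 5), (1, 0), (1, 2), (2, 1), (2, 7), (3, 8), (3, 9), (4, 6), (4, 8), (5, 0), (5,
      8), (6, 4), (6, 10), (7, 2), (7, 8), (8, 3), (8, 4), (8, 5), (8, 7), (9, 3), (9, 10), (10,
      6), (10, 9)]
    lev := [] }
  links := [[3, 5, 7, 8, 9], [2, 7, 5, 3, 10, 4], [11, 6, 12, 7, 1, 4, 13], [10, 1, 5, 0, 9, 14, 15],
    [13, 2, 1, 10, 16, 17], [7, 0, 3, 1], [12, 2, 11, 15]]
  P := {
    a := 7
    N := 18
    nb := [936, 1212, 14546, 50723, 205830, 139, 38916, 4391, 641, 16649, 98330, 41028, 32964, 133140,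
      33288, 23624, 132112, 73744]
    tri := [(0, 3, 5), (0, 3, 9), (0, 5, 7), (0, 7, 8), (0, 8, 9), (1, 2, 4), (1, 2, 7), (1, 3, 5), (1,
      3, 10), (1, 4, 10), (1, 5, 7), (2, 4, 13), (2, 6, 11), (2, 6, 12), (2, 7, 12), (2, 11, 13),
      (3, 9, 14), (3, 10, 15), (3, 14, 15), (4, 10, 16), (4, 13, 17), (4, 16, 17), (6, 11, 15),
      (6, 12, 15)]
    fin := [0, 0, 2, 3, 0, 0, 6, 0, 8, 3, 3, 11, 2, 2, 14, 6, 16, 17]
    chd := [(0, 3), (0, 16), (0, 17)]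
    steps := [(0, 5), (0, 1), (0, 4), (0, 7), (2, 13), (2, 12), (3, 9), (3, 10), (6, 15)] }
  rep := [0, 2, 11, 3, 6, 16, 17, 8, 14]

noncomputable def v3681 : Cov.CovD where
  P := 3
  N := 6
  pl := [1, 4, 7, 8]
  lev := [⟨[], [], [(0, 3)], [7], [(0, 0, [3, 5, 6]), (2, 3, [0])]⟩,
    ⟨[], [(0, 0)], [(0, 3)], [], [(0, 0, [3, 5, 6]), (3, 3, [0])]⟩,
    ⟨[], [(0, 0), (1, 0), (1, 1), (1, 3)], [(0, 1), (1, 1)], [2], [(0, 0, [3, 5, 6]), (5,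
      1, []), (6, 1, [])]⟩,
    ⟨[(0, 1), (1, 2)], [(0, 0), (0, 3), (1, 0), (1, 3)], [(3, 3)], [4, 8], [(2, 3, [0]),
      (3, 3, [0])]⟩,
    ⟨[(1, 2), (1, 3)], [(1, 0), (1, 1), (1, 3), (1, 5), (1, 6), (2, 0), (2, 1), (2, 3), (2,
      5), (2, 6), (3, 3)], [(1, 3), (1, 5), (1, 6), (3, 5), (3, 6), (5, 6)], [], [(3, 3,
      [0]), (6, 1, []), (9, 5, [0]), (10, 6, [0])]⟩,
    ⟨[(0, 1), (0, 3), (1, 2), (1, 3), (1, 4)], [(0, 0), (0, 3), (1, 0), (1, 3), (2, 0), (3,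
      0), (3, 3)], [], [], [(0, 0, [3, 5, 6])]⟩,
    ⟨[(1, 2), (2, 4)], [(2, 0), (2, 1)], [], [2, 4], [(5, 1, [])]⟩]
  Ta := [((2, 1), 3, 7), ((2, 7), 3, 8), ((3, 8), 3, 4), ((3, 9), 3, 5), ((5, 0), 1, 0), ((5, 8),
    1, 4), ((6, 4), 1, 2), ((6, 10), 1, 6)]
  Tb := [((0, 1, 5), 0, 7, 1), ((1, 0, 2), 7, 0, 3), ((2, 1, 7), 3, 7, 8), ((3, 8, 9), 3, 4, 5),
    ((4, 6, 8), 2, 1, 4), ((5, 0, 8), 1, 0, 4), ((6, 4, 10), 1, 2, 6), ((7, 2, 8), 8, 3, 4),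
    ((8, 3, 4), 4, 3, 2), ((8, 3, 5), 4, 3, 1), ((8, 3, 7), 4, 3, 8), ((8, 4, 5), 4, 2, 1),
    ((8, 4, 7), 4, 2, 8), ((8, 5, 7), 4, 1, 8), ((9, 3, 10), 5, 3, 6), ((10, 6, 9), 6, 1, 5)]
  Tc := [(0, 3, 5), (0, 3, 6), (0, 5, 6)]
  Td := [((0, 3), (0, 1), 7), ((0, 3), (0, 5), 1), ((0, 5), (0, 1), 7), ((0, 5), (0, 5), 1), ((0,
    6), (0, 1), 7), ((0, 6), (0, 5), 1), ((3, 0), (2, 1), 7), ((3, 0), (2, 7), 8), ((3, 0),
    (3, 8), 4), ((3, 0), (3, 9), 5), ((5, 0), (9, 3), 3), ((5, 0), (9, 10), 6), ((6, 0), (10,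
    6), 1), ((6, 0), (10, 9), 5)]
  G := [[0, 0x841481481c41f42881481841c41f82421441c41c21f48e,
    0x841441441c81f82881481841c81f42421441c41c21f48e, 0,
    0x841941941141f82881981841141f82821881981181f84e], [0, 0x441441c41c21f82841481481c81f48a,
    0x841421c41c21f84821421c81c81f48c, 0, 0x921941684821981121b82841981141d84e], [0, 0,
    0x841441241241f42821221221221f48481421281221f84e,
    0x841481441181f82881481881141f42421441541121f48e,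
    0x841241241281f82881281241281f82821281281181f84e], [0, 0,
    0x841421241221f82841241241241f48a, 0x821441c41121f42841441c41141f48a,
    0x221221281221f82881281241141f846]]

noncomputable def n3681 : Ent := ⟨e3681, noF, [], [], []⟩

def c3681 : PLift (Cov.check n3681.C.D v3681 = true) := ⟨by decide +kernel⟩

def b3681 : PLift (entF (fidx ts) 400 3681 n3681 = true) := ⟨by decide +kernel⟩

theorem g3681 : GoodF (fidx ts) 400 3681 := GoodF.ofV v3681 n3681 c3681.down b3681.down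

/-- 5677644:2741 -/
noncomputable def e3682 : SCfg where
  D := {
    a := 7
    L := 12
    kp := 9
    inn := [(0, 3), (0, 5), (1, 2), (1, 3), (1, 4), (1, 5), (2, 1), (2, 4), (2, 6), (3, 0), (3, 1), (3,
      5), (4, 1), (4, 2), (5, 0), (5, 1), (5, 3), (6, 2)]
    mix := [(0, 0), (0, 1), (0, 2), (1, 0), (1, 3), (2, 0), (2, 4), (2, 5), (2, 6), (3, 2), (3, 3), (3,
      7), (3, 8), (4, 3), (4, 6), (4, 9), (4, 10), (5, 0), (6, 4), (6, 5), (6, 11)]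
    cl := [0, 6, 3, 3, 2, 1, 1, 7, 8, 4, 5, 9]
    chq := [(0, 3), (0, 4), (0, 5), (3, 0), (4, 0), (5, 0)]
    rng := [(0, 1), (0, 5), (1, 0), (1, 2), (2, 1), (2, 7), (3, 8), (3, 9), (4, 6), (4, 11), (5, 0),
      (5, 11), (6, 4), (6, 10), (7, 2), (7, 8), (8, 3), (8, 7), (9, 3), (9, 10), (10, 6), (10, 9),
      (11, 4), (11, 5)]
    lev := [] }
  links := [[3, 5, 7, 8, 9], [2, 7, 5, 3, 10, 4], [11, 6, 12, 7, 1, 4, 13], [10, 1, 5, 0, 9, 14, 15],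
    [13, 2, 1, 10, 16, 17], [7, 0, 3, 1], [12, 2, 11, 18]]
  P := {
    a := 7
    N := 19
    nb := [936, 1212, 14546, 50723, 205830, 139, 268292, 4391, 641, 16649, 98330, 270404, 262340,
      133140, 33288, 17416, 132112, 73744, 6208]
    tri := [(0, 3, 5), (0, 3, 9), (0, 5, 7), (0, 7, 8), (0, 8, 9), (1, 2, 4), (1, 2, 7), (1, 3, 5), (1,
      3, 10), (1, 4, 10), (1, 5, 7), (2, 4, 13), (2, 6, 11), (2, 6, 12), (2, 7, 12), (2, 11, 13),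
      (3, 9, 14), (3, 10, 15), (3, 14, 15), (4, 10, 16), (4, 13, 17), (4, 16, 17), (6, 11, 18),
      (6, 12, 18)]
    fin := [0, 0, 2, 3, 0, 0, 2, 0, 8, 3, 3, 11, 2, 2, 14, 15, 16, 17, 18]
    chd := [(0, 3), (0, 16), (0, 17)]
    steps := [(0, 5), (0, 1), (0, 4), (0, 7), (2, 6), (2, 13), (2, 12), (3, 9), (3, 10)] }
  rep := [0, 2, 11, 3, 16, 17, 8, 14, 15, 18]

noncomputable def v3682 : Cov.CovD where
  P := 3
  N := 7
  pl := [1, 4, 7, 8, 11]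
  lev := [⟨[], [], [(0, 3)], [6], [(0, 0, [3, 4, 5]), (2, 3, [0])]⟩,
    ⟨[], [(0, 0)], [(0, 3)], [], [(0, 0, [3, 4, 5]), (3, 3, [0])]⟩,
    ⟨[], [(0, 0), (1, 0), (1, 1), (1, 3)], [(0, 1), (1, 1)], [2], [(0, 0, [3, 4, 5]), (5,
      1, []), (6, 1, [])]⟩,
    ⟨[(0, 1), (1, 2)], [(0, 0), (0, 3), (1, 0), (1, 3)], [(3, 3)], [7, 8], [(2, 3, [0]),
      (3, 3, [0])]⟩,
    ⟨[(1, 2), (1, 3)], [(1, 0), (1, 1), (1, 3), (1, 4), (1, 5), (2, 0), (2, 1), (2, 3), (2,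
      4), (2, 5), (3, 3)], [(1, 3), (1, 4), (1, 5), (3, 4), (3, 5), (4, 5)], [], [(3, 3,
      [0]), (6, 1, []), (9, 4, [0]), (10, 5, [0])]⟩,
    ⟨[(0, 1), (0, 3), (1, 2), (1, 3), (1, 4)], [(0, 0), (0, 3), (1, 0), (1, 3), (2, 0), (3,
      0), (3, 3)], [], [], [(0, 0, [3, 4, 5])]⟩,
    ⟨[(1, 2), (2, 4)], [(2, 0), (2, 1)], [], [2, 9], [(5, 1, [])]⟩]
  Ta := [((2, 1), 3, 6), ((2, 7), 3, 7), ((3, 8), 3, 8), ((3, 9), 3, 4), ((5, 0), 1, 0), ((5,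
    11), 1, 9), ((6, 4), 1, 2), ((6, 10), 1, 5)]
  Tb := [((0, 1, 5), 0, 6, 1), ((1, 0, 2), 6, 0, 3), ((2, 1, 7), 3, 6, 7), ((3, 8, 9), 3, 8, 4),
    ((4, 6, 11), 2, 1, 9), ((5, 0, 11), 1, 0, 9), ((6, 4, 10), 1, 2, 5), ((7, 2, 8), 7, 3,
    8), ((8, 3, 7), 8, 3, 7), ((9, 3, 10), 4, 3, 5), ((10, 6, 9), 5, 1, 4), ((11, 4, 5), 9,
    2, 1)]
  Tc := [(0, 3, 4), (0, 3, 5), (0, 4, 5)]
  Td := [((0, 3), (0, 1), 6), ((0, 3), (0, 5), 1), ((0, 4), (0, 1), 6), ((0, 4), (0, 5), 1), ((0,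
    5), (0, 1), 6), ((0, 5), (0, 5), 1), ((3, 0), (2, 1), 6), ((3, 0), (2, 7), 7), ((3, 0),
    (3, 8), 8), ((3, 0), (3, 9), 4), ((4, 0), (9, 3), 3), ((4, 0), (9, 10), 5), ((5, 0), (10,
    6), 1), ((5, 0), (10, 9), 4)]
  G := [[0, 0xc21c81c21c81f84c21c21c41c21f48c21c41c41c41f48e,
    0xc21c81c81c21f84c41c81c81c81f82c81c21c81c21f84e, 0,
    0x941981981981f82981981941981f82981921981981f84e], [0,
    0xc21c81c81c81f42c4184c81c41c8178c6, 0xc41c41c41c41f82c41c41c81c81f48a, 0,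
    0x921921981921f82941981941981f846], [0, 0,
    0x221221281221f84221221241221f48281281281221f84e,
    0x521921981c81f84941c21941921f48981581581981f84e,
    0x221221281221f84281281281241f82221221281221f84e], [0, 0,
    0x241221241241f42241281281281f48a, 0x541941c41c41f82541981c41941f48a,
    0x221281281221f82241281241281f846]]

noncomputable def n3682 : Ent := ⟨e3682, noF, [], [], [(8, 12, [31810581956886802633411503221331962751705442254478426170151023836886589441, 0]), (9, 18, [30043303427623734937691929578474300150491519007939870628445900451936071681, 0]), (14, 18, [30043303427623734937691929578474300150491519007939870628445900451936075777, 0]), (15, 18, [30043303427623734937691929578474300150491519007939870628445900451936079873, 0])]⟩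

def c3682 : PLift (Cov.check n3682.C.D v3682 = true) := ⟨by decide +kernel⟩

def b3682 : PLift (entF (fidx ts) 400 3682 n3682 = true) := ⟨by decide +kernel⟩

theorem g3682 : GoodF (fidx ts) 400 3682 := GoodF.ofV v3682 n3682 c3682.down b3682.down

/-- 576644:2742/1 -/
noncomputable def e3683 : SCfg where
  D := {
    a := 6
    L := 10
    kp := 7
    inn := [(0, 2), (0, 3), (1, 2), (1, 4), (1, 5), (2, 0), (2, 1), (2, 3), (3, 0), (3, 2), (4, 1), (5,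
      1)]
    mix := [(0, 0), (0, 1), (0, 2), (1, 2), (1, 3), (1, 4), (1, 5), (2, 2), (2, 3), (2, 6), (3, 0), (3,
      6), (3, 7), (3, 8), (4, 0), (4, 4), (4, 5), (5, 3), (5, 5), (5, 9)]
    cl := [1, 4, 0, 3, 2, 0, 1, 5, 6, 7]
    chq := [(0, 3), (3, 0), (3, 4), (4, 3)]
    rng := [(0, 1), (0, 4), (0, 5), (0, 8), (1, 0), (1, 2), (2, 1), (2, 4), (3, 6), (3, 9), (4, 0), (4,
      2), (5, 0), (5, 9), (6, 3), (6, 7), (7, 6), (7, 8), (8, 0), (8, 7), (9, 3), (9, 5)]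
    lev := [] }
  links := [[6, 7, 8, 2, 3], [9, 2, 8, 10, 4, 11, 5], [3, 0, 8, 1, 9, 12], [6, 0, 2, 12, 13, 14], [10, 6,
    11, 1], [1, 11, 15, 9]]
  P := {
    a := 6
    N := 16
    nb := [460, 3892, 4875, 28741, 3138, 35330, 19609, 321, 1159, 36902, 338, 32882, 8716, 20488,
      8264, 2592]
    tri := [(0, 2, 3), (0, 2, 8), (0, 3, 6), (0, 6, 7), (0, 7, 8), (1, 2, 8), (1, 2, 9), (1, 4, 10),
      (1, 4, 11), (1, 5, 9), (1, 5, 11), (1, 8, 10), (2, 3, 12), (2, 9, 12), (3, 6, 14), (3, 12,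
      13), (3, 13, 14), (4, 6, 10), (4, 6, 11), (5, 9, 15), (5, 11, 15)]
    fin := [0, 1, 0, 3, 3, 1, 3, 0, 1, 9, 10, 1, 3, 13, 14, 15]
    chd := [(0, 9), (1, 9)]
    steps := [(0, 2), (0, 7), (1, 5), (1, 8), (1, 11), (3, 6), (3, 4), (3, 12)] }
  rep := [1, 3, 10, 9, 0, 13, 14, 15]

noncomputable def v3683 : Cov.CovD where
  P := 3
  N := 5
  pl := [4, 7, 8, 9]
  lev := [⟨[], [], [(0, 1), (0, 4), (1, 4)], [], [(0, 1, []), (1, 4, [3]), (2, 0, [3])]⟩,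
    ⟨[], [(0, 0)], [(0, 0), (0, 3)], [2], [(2, 0, [3]), (3, 3, [0, 4]), (5, 0, [3])]⟩,
    ⟨[(0, 1)], [(0, 0), (0, 1), (0, 3), (0, 4), (1, 0), (1, 1), (1, 3)], [(0, 1), (0, 3),
      (1, 3)], [], [(2, 0, [3]), (3, 3, [0, 4]), (6, 1, [])]⟩,
    ⟨[(0, 2), (1, 2)], [(0, 0), (0, 1), (0, 4), (2, 0), (2, 1), (2, 3)], [(1, 1)], [5, 6],
      [(0, 1, []), (6, 1, [])]⟩,
    ⟨[(1, 2)], [(0, 1), (1, 0), (1, 1), (1, 3), (3, 1)], [(0, 1)], [2], [(0, 1, []), (5, 0,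
      [3])]⟩,
    ⟨[(1, 2), (1, 4)], [(1, 0), (1, 3), (2, 3), (4, 0)], [(0, 3)], [7], [(3, 3, [0, 4]),
      (5, 0, [3])]⟩]
  Ta := [((0, 1), 1, 4), ((0, 4), 1, 2), ((0, 5), 1, 0), ((0, 8), 1, 6), ((2, 1), 0, 4), ((2, 4),
    0, 2), ((5, 0), 0, 1), ((5, 9), 0, 7), ((6, 3), 1, 3), ((6, 7), 1, 5)]
  Tb := [((0, 1, 4), 1, 4, 2), ((0, 1, 5), 1, 4, 0), ((0, 1, 8), 1, 4, 6), ((0, 4, 5), 1, 2, 0),
    ((0, 4, 8), 1, 2, 6), ((0, 5, 8), 1, 0, 6), ((1, 0, 2), 4, 1, 0), ((2, 1, 4), 0, 4, 2),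
    ((3, 6, 9), 3, 1, 7), ((4, 0, 2), 2, 1, 0), ((5, 0, 9), 0, 1, 7), ((6, 3, 7), 1, 3, 5),
    ((7, 6, 8), 5, 1, 6), ((8, 0, 7), 6, 1, 5), ((9, 3, 5), 7, 3, 0)]
  Tc := [(3, 0, 4)]
  Td := [((0, 3), (2, 1), 4), ((0, 3), (2, 4), 2), ((0, 3), (5, 0), 1), ((0, 3), (5, 9), 7), ((3,
    0), (3, 6), 1), ((3, 0), (3, 9), 7), ((3, 4), (3, 6), 1), ((3, 4), (3, 9), 7), ((4, 3),
    (1, 0), 1), ((4, 3), (1, 2), 0)]
  G := [[0, 0, 0x181818d24141414d28c, 0x68b861d24b4a4d4d28c, 0x414b86868dc2e178a1d28c], [0, 0,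
    0x141458181894188144ce2, 0, 0x1818c1d4981818d386118dca2], [0,
    0x686842ce2424246e48484ea8c8c8c8e84e, 0, 0x686868d24a4128e4a4c28d,
    0x6868542a8182a8a8c688c2d], [0, 0, 0, 0, 0x8214882148484894a81681e8e8cda82c2c48f]]

noncomputable def n3683 : Ent := ⟨e3683, noF, [], [], []⟩

def c3683 : PLift (Cov.check n3683.C.D v3683 = true) := ⟨by decide +kernel⟩

def b3683 : PLift (entF (fidx ts) 400 3683 n3683 = true) := ⟨by decide +kernel⟩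

theorem g3683 : GoodF (fidx ts) 400 3683 := GoodF.ofV v3683 n3683 c3683.down b3683.down

/-- 576644:2742/2 -/
noncomputable def e3684 : SCfg where
  D := {
    a := 6
    L := 10
    kp := 7
    inn := [(0, 2), (0, 3), (1, 2), (1, 4), (1, 5), (2, 0), (2, 1), (2, 3), (3, 0), (3, 2), (4, 1), (5,
      1)]
    mix := [(0, 0), (0, 1), (0, 2), (1, 2), (1, 3), (1, 4), (1, 5), (2, 2), (2, 3), (2, 6), (3, 0), (3,
      6), (3, 7), (3, 8), (4, 4), (4, 5), (4, 7), (5, 3), (5, 5), (5, 9)]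
    cl := [1, 5, 0, 0, 4, 3, 1, 2, 6, 7]
    chq := [(0, 2), (0, 3), (2, 0), (3, 0)]
    rng := [(0, 1), (0, 8), (1, 0), (1, 2), (2, 1), (2, 4), (3, 6), (3, 9), (4, 2), (4, 7), (5, 7), (5,
      9), (6, 3), (6, 7), (7, 4), (7, 5), (7, 6), (7, 8), (8, 0), (8, 7), (9, 3), (9, 5)]
    lev := [] }
  links := [[6, 7, 8, 2, 3], [9, 2, 8, 10, 4, 11, 5], [3, 0, 8, 1, 9, 12], [6, 0, 2, 12, 13, 14], [10,
    13, 11, 1], [1, 11, 15, 9]]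
  P := {
    a := 6
    N := 16
    nb := [460, 3892, 4875, 28741, 11266, 35330, 16521, 321, 1159, 36902, 8466, 41010, 8716, 23576,
      8264, 2592]
    tri := [(0, 2, 3), (0, 2, 8), (0, 3, 6), (0, 6, 7), (0, 7, 8), (1, 2, 8), (1, 2, 9), (1, 4, 10),
      (1, 4, 11), (1, 5, 9), (1, 5, 11), (1, 8, 10), (2, 3, 12), (2, 9, 12), (3, 6, 14), (3, 12,
      13), (3, 13, 14), (4, 10, 13), (4, 11, 13), (5, 9, 15), (5, 11, 15)]
    fin := [0, 1, 0, 0, 1, 1, 0, 7, 1, 1, 10, 11, 0, 13, 14, 15]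
    chd := [(1, 11), (1, 13)]
    steps := [(0, 2), (0, 3), (0, 6), (0, 12), (1, 4), (1, 5), (1, 8), (1, 9)] }
  rep := [1, 0, 13, 11, 10, 7, 14, 15]

noncomputable def v3684 : Cov.CovD where
  P := 3
  N := 5
  pl := [1, 4, 8, 9]
  lev := [⟨[], [], [(0, 1)], [5], [(0, 1, []), (2, 0, [2, 3])]⟩,
    ⟨[], [(0, 0)], [(0, 0), (0, 3)], [4], [(2, 0, [2, 3]), (3, 0, [2, 3]), (5, 3, [0])]⟩,
    ⟨[(0, 1)], [(0, 0), (0, 1), (1, 0), (1, 1), (1, 3)], [(0, 0), (0, 1)], [], [(2, 0, [2,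
      3]), (3, 0, [2, 3]), (6, 1, [])]⟩,
    ⟨[(0, 2), (1, 2)], [(0, 0), (0, 1), (0, 2), (2, 0), (2, 1), (2, 2)], [(1, 1), (1, 2)],
      [6], [(0, 1, []), (6, 1, []), (7, 2, [0])]⟩,
    ⟨[(1, 2)], [(1, 0), (1, 2), (1, 3), (3, 2)], [(2, 3)], [4], [(5, 3, [0]), (7, 2, [0])]⟩,
    ⟨[(1, 2), (1, 4)], [(1, 0), (1, 3), (2, 0), (4, 3)], [(0, 3)], [7], [(3, 0, [2, 3]),
      (5, 3, [0])]⟩]
  Ta := [((0, 1), 1, 5), ((0, 8), 1, 6), ((2, 1), 0, 5), ((2, 4), 0, 4), ((3, 6), 0, 1), ((3, 9),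
    0, 7), ((6, 3), 1, 0), ((6, 7), 1, 2)]
  Tb := [((0, 1, 8), 1, 5, 6), ((1, 0, 2), 5, 1, 0), ((2, 1, 4), 0, 5, 4), ((3, 6, 9), 0, 1, 7),
    ((4, 2, 7), 4, 0, 2), ((5, 7, 9), 3, 2, 7), ((6, 3, 7), 1, 0, 2), ((7, 4, 5), 2, 4, 3),
    ((7, 4, 6), 2, 4, 1), ((7, 4, 8), 2, 4, 6), ((7, 5, 6), 2, 3, 1), ((7, 5, 8), 2, 3, 6),
    ((7, 6, 8), 2, 1, 6), ((8, 0, 7), 6, 1, 2), ((9, 3, 5), 7, 0, 3)]
  Tc := [(0, 2, 3)]
  Td := [((0, 2), (2, 1), 5), ((0, 2), (2, 4), 4), ((0, 2), (3, 6), 1), ((0, 2), (3, 9), 7), ((0,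
    3), (2, 1), 5), ((0, 3), (2, 4), 4), ((0, 3), (3, 6), 1), ((0, 3), (3, 9), 7), ((2, 0),
    (7, 4), 4), ((2, 0), (7, 5), 3), ((2, 0), (7, 6), 1), ((2, 0), (7, 8), 6), ((3, 0), (5,
    7), 2), ((3, 0), (5, 9), 7)]
  G := [[0, 0, 0x181414121214e181214181218ec, 0, 0x785894311d18a129294e583894319192925294ec],
    [0, 0, 0x181414181218e2, 0x11ed11dd5422, 0x385894913194529298e2], [0, 0,
    0x1111c41411c81112c4e1, 0, 0xe112e118e114ee112e112e114ee182e188e188ed], [0,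
    0xe1e1c4e1e1c4ae1e1c2e1e1c86e1e1c2e1e1c8ce, 0x181414181218e2, 0xe1e1c822,
    0xe1e194e1e198e1e194e2]]

noncomputable def n3684 : Ent := ⟨e3684, noF, [], [], []⟩

def c3684 : PLift (Cov.check n3684.C.D v3684 = true) := ⟨by decide +kernel⟩

def b3684 : PLift (entF (fidx ts) 400 3684 n3684 = true) := ⟨by decide +kernel⟩

theorem g3684 : GoodF (fidx ts) 400 3684 := GoodF.ofV v3684 n3684 c3684.down b3684.down

/-- 576644:2742/3 -/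
noncomputable def e3685 : SCfg where
  D := {
    a := 6
    L := 10
    kp := 7
    inn := [(0, 2), (0, 3), (1, 2), (1, 4), (1, 5), (2, 0), (2, 1), (2, 3), (3, 0), (3, 2), (4, 1), (5,
      1)]
    mix := [(0, 0), (0, 1), (0, 2), (1, 2), (1, 3), (1, 4), (1, 5), (2, 2), (2, 3), (2, 6), (3, 0), (3,
      6), (3, 7), (3, 8), (4, 4), (4, 5), (4, 8), (5, 3), (5, 5), (5, 9)]
    cl := [1, 5, 0, 0, 4, 3, 1, 6, 2, 7]
    chq := [(0, 2), (0, 3), (2, 0), (3, 0)]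
    rng := [(0, 1), (0, 8), (1, 0), (1, 2), (2, 1), (2, 4), (3, 6), (3, 9), (4, 2), (4, 8), (5, 8), (5,
      9), (6, 3), (6, 7), (7, 6), (7, 8), (8, 0), (8, 4), (8, 5), (8, 7), (9, 3), (9, 5)]
    lev := [] }
  links := [[6, 7, 8, 2, 3], [9, 2, 8, 10, 4, 11, 5], [3, 0, 8, 1, 9, 12], [6, 0, 2, 12, 13, 14], [10,
    14, 11, 1], [1, 11, 15, 9]]
  P := {
    a := 6
    N := 16
    nb := [460, 3892, 4875, 28741, 19458, 35330, 16521, 321, 1159, 36902, 16658, 49202, 8716, 20488,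
      11352, 2592]
    tri := [(0, 2, 3), (0, 2, 8), (0, 3, 6), (0, 6, 7), (0, 7, 8), (1, 2, 8), (1, 2, 9), (1, 4, 10),
      (1, 4, 11), (1, 5, 9), (1, 5, 11), (1, 8, 10), (2, 3, 12), (2, 9, 12), (3, 6, 14), (3, 12,
      13), (3, 13, 14), (4, 10, 14), (4, 11, 14), (5, 9, 15), (5, 11, 15)]
    fin := [0, 1, 0, 0, 1, 1, 0, 7, 1, 1, 10, 11, 0, 13, 14, 15]
    chd := [(1, 11), (1, 14)]
    steps := [(0, 2), (0, 3), (0, 6), (0, 12), (1, 4), (1, 5), (1, 8), (1, 9)] }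
  rep := [1, 0, 14, 11, 10, 7, 13, 15]

noncomputable def v3685 : Cov.CovD where
  P := 3
  N := 5
  pl := [1, 4, 7, 9]
  lev := [⟨[], [], [(0, 1)], [5], [(0, 1, []), (2, 0, [2, 3])]⟩,
    ⟨[], [(0, 0)], [(0, 0), (0, 3)], [4], [(2, 0, [2, 3]), (3, 0, [2, 3]), (5, 3, [0])]⟩,
    ⟨[(0, 1)], [(0, 0), (0, 1), (1, 0), (1, 1), (1, 3)], [(0, 0), (0, 1)], [], [(2, 0, [2,
      3]), (3, 0, [2, 3]), (6, 1, [])]⟩,
    ⟨[(0, 2), (1, 2)], [(0, 0), (0, 1), (0, 2), (2, 0), (2, 1), (2, 2)], [(1, 1), (1, 2)],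
      [6], [(0, 1, []), (6, 1, []), (8, 2, [0])]⟩,
    ⟨[(1, 2)], [(1, 0), (1, 2), (1, 3), (3, 2)], [(2, 3)], [4], [(5, 3, [0]), (8, 2, [0])]⟩,
    ⟨[(1, 2), (1, 4)], [(1, 0), (1, 3), (2, 0), (4, 3)], [(0, 3)], [7], [(3, 0, [2, 3]),
      (5, 3, [0])]⟩]
  Ta := [((0, 1), 1, 5), ((0, 8), 1, 2), ((2, 1), 0, 5), ((2, 4), 0, 4), ((3, 6), 0, 1), ((3, 9),
    0, 7), ((6, 3), 1, 0), ((6, 7), 1, 6)]
  Tb := [((0, 1, 8), 1, 5, 2), ((1, 0, 2), 5, 1, 0), ((2, 1, 4), 0, 5, 4), ((3, 6, 9), 0, 1, 7),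
    ((4, 2, 8), 4, 0, 2), ((5, 8, 9), 3, 2, 7), ((6, 3, 7), 1, 0, 6), ((7, 6, 8), 6, 1, 2),
    ((8, 0, 4), 2, 1, 4), ((8, 0, 5), 2, 1, 3), ((8, 0, 7), 2, 1, 6), ((8, 4, 5), 2, 4, 3),
    ((8, 4, 7), 2, 4, 6), ((8, 5, 7), 2, 3, 6), ((9, 3, 5), 7, 0, 3)]
  Tc := [(0, 2, 3)]
  Td := [((0, 2), (2, 1), 5), ((0, 2), (2, 4), 4), ((0, 2), (3, 6), 1), ((0, 2), (3, 9), 7), ((0,
    3), (2, 1), 5), ((0, 3), (2, 4), 4), ((0, 3), (3, 6), 1), ((0, 3), (3, 9), 7), ((2, 0),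
    (8, 0), 1), ((2, 0), (8, 4), 4), ((2, 0), (8, 5), 3), ((2, 0), (8, 7), 6), ((3, 0), (5,
    8), 2), ((3, 0), (5, 9), 7)]
  G := [[0, 0, 0x181214181218e181214181218ec, 0x11eda61d54216bda61d942c,
    0x383894919194525294e58189431e19292d298ec], [0, 0, 0x181414181214e2, 0,
    0x383894919194525298e2], [0, 0, 0x181214121218e181214121218ec, 0xe1e1c421,
    0xe112e118e11e18cee112e112e1e198ee184e182cd], [0,
    0xe1a45c2e1e1c462c98e146e1e1c2ce1e1c4e1e1c8ae, 0x181414181214e2, 0,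
    0xe1e194e1e198e1e194e2]]

noncomputable def n3685 : Ent := ⟨e3685, noF, [], [], []⟩

def c3685 : PLift (Cov.check n3685.C.D v3685 = true) := ⟨by decide +kernel⟩

def b3685 : PLift (entF (fidx ts) 400 3685 n3685 = true) := ⟨by decide +kernel⟩

theorem g3685 : GoodF (fidx ts) 400 3685 := GoodF.ofV v3685 n3685 c3685.down b3685.down

/-- 576644:2742 -/
noncomputable def e3686 : SCfg where
  D := {
    a := 6
    L := 11
    kp := 8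
    inn := [(0, 2), (0, 3), (1, 2), (1, 4), (1, 5), (2, 0), (2, 1), (2, 3), (3, 0), (3, 2), (4, 1), (5,
      1)]
    mix := [(0, 0), (0, 1), (0, 2), (1, 2), (1, 3), (1, 4), (1, 5), (2, 2), (2, 3), (2, 6), (3, 0), (3,
      6), (3, 7), (3, 8), (4, 4), (4, 5), (4, 9), (5, 3), (5, 5), (5, 10)]
    cl := [1, 5, 0, 0, 2, 3, 1, 6, 7, 4, 8]
    chq := [(0, 3), (0, 4), (3, 0), (4, 0)]
    rng := [(0, 1), (0, 8), (1, 0), (1, 2), (2, 1), (2, 4), (3, 6), (3, 10), (4, 2), (4, 9), (5, 9),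
      (5, 10), (6, 3), (6, 7), (7, 6), (7, 8), (8, 0), (8, 7), (9, 4), (9, 5), (10, 3), (10, 5)]
    lev := [] }
  links := [[6, 7, 8, 2, 3], [9, 2, 8, 10, 4, 11, 5], [3, 0, 8, 1, 9, 12], [6, 0, 2, 12, 13, 14], [10,
    15, 11, 1], [1, 11, 16, 9]]
  P := {
    a := 6
    N := 17
    nb := [460, 3892, 4875, 28741, 35842, 68098, 16521, 321, 1159, 69670, 33042, 98354, 8716, 20488,
      8264, 3088, 2592]
    tri := [(0, 2, 3), (0, 2, 8), (0, 3, 6), (0, 6, 7), (0, 7, 8), (1, 2, 8), (1, 2, 9), (1, 4, 10),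
      (1, 4, 11), (1, 5, 9), (1, 5, 11), (1, 8, 10), (2, 3, 12), (2, 9, 12), (3, 6, 14), (3, 12,
      13), (3, 13, 14), (4, 10, 15), (4, 11, 15), (5, 9, 16), (5, 11, 16)]
    fin := [0, 1, 0, 0, 1, 1, 0, 7, 1, 1, 10, 11, 0, 13, 14, 15, 16]
    chd := [(1, 11), (1, 15)]
    steps := [(0, 2), (0, 3), (0, 6), (0, 12), (1, 4), (1, 5), (1, 8), (1, 9)] }
  rep := [1, 0, 10, 11, 15, 7, 13, 14, 16]

noncomputable def v3686 : Cov.CovD where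
  P := 3
  N := 6
  pl := [1, 4, 7, 8, 10]
  lev := [⟨[], [], [(0, 1)], [5], [(0, 1, []), (2, 0, [3, 4])]⟩,
    ⟨[], [(0, 0)], [(0, 0), (0, 3)], [2], [(2, 0, [3, 4]), (3, 0, [3, 4]), (5, 3, [0])]⟩,
    ⟨[(0, 1)], [(0, 0), (0, 1), (1, 0), (1, 1), (1, 3)], [(0, 0), (0, 1)], [], [(2, 0, [3,
      4]), (3, 0, [3, 4]), (6, 1, [])]⟩,
    ⟨[(0, 2), (1, 2)], [(0, 0), (0, 1), (2, 0), (2, 1)], [(1, 1)], [6, 7], [(0, 1, []), (6,
      1, [])]⟩,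
    ⟨[(1, 2)], [(1, 0), (1, 3), (1, 4)], [(3, 4)], [2], [(5, 3, [0]), (9, 4, [0])]⟩,
    ⟨[(1, 2), (1, 4)], [(1, 0), (1, 3), (2, 0), (4, 3)], [(0, 3)], [8], [(3, 0, [3, 4]),
      (5, 3, [0])]⟩]
  Ta := [((0, 1), 1, 5), ((0, 8), 1, 7), ((2, 1), 0, 5), ((2, 4), 0, 2), ((3, 6), 0, 1), ((3,
    10), 0, 8), ((6, 3), 1, 0), ((6, 7), 1, 6)]
  Tb := [((0, 1, 8), 1, 5, 7), ((1, 0, 2), 5, 1, 0), ((2, 1, 4), 0, 5, 2), ((3, 6, 10), 0, 1, 8),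
    ((4, 2, 9), 2, 0, 4), ((5, 9, 10), 3, 4, 8), ((6, 3, 7), 1, 0, 6), ((7, 6, 8), 6, 1, 7),
    ((8, 0, 7), 7, 1, 6), ((9, 4, 5), 4, 2, 3), ((10, 3, 5), 8, 0, 3)]
  Tc := [(0, 3, 4)]
  Td := [((0, 3), (2, 1), 5), ((0, 3), (2, 4), 2), ((0, 3), (3, 6), 1), ((0, 3), (3, 10), 8),
    ((0, 4), (2, 1), 5), ((0, 4), (2, 4), 2), ((0, 4), (3, 6), 1), ((0, 4), (3, 10), 8), ((3,
    0), (5, 9), 4), ((3, 0), (5, 10), 8), ((4, 0), (9, 4), 2), ((4, 0), (9, 5), 3)]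
  G := [[0, 0, 0x1811c18d21414921211612d4e181818d2141414d2121212d8ec,
    0x11a191d211515618aca191a1d2115111d2cc, 0xc111c1d2116111d4a917111d2511161d8ac], [0, 0,
    0x11c11c11cd811a11a11ad462, 0x11a111d4611161d8c2, 0x111111d46161d1d4a2], [0, 0, 0,
    0xa1126112ca1146112ca1a1c26161c2cd, 0xc1126118ac1126114ac1c1c26161c4ad], [0,
    0xa1a1aa146616161e8ca1a1a1e4616161e8c6, 0, 0xa1a1a1d4616161d8c2, 0xc1c1c1d4616161d4a2]]

noncomputable def n3686 : Ent := ⟨e3686, noF, [], [], [(6, 15, [1685356702439545624007900436039642273970977273354372543760015175681, 0]), (15, 13, [1685356714993749094781261963711221120386310105559083432688084205569, 0]), (15, 14, [1685382413448253767852309107433119732572617628602273068445380005889, 0])]⟩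

def c3686 : PLift (Cov.check n3686.C.D v3686 = true) := ⟨by decide +kernel⟩

def b3686 : PLift (entF (fidx ts) 400 3686 n3686 = true) := ⟨by decide +kernel⟩

theorem g3686 : GoodF (fidx ts) 400 3686 := GoodF.ofV v3686 n3686 c3686.down b3686.down

/-- 9665644:2743 -/
noncomputable def e3687 : SCfg where
  D := {
    a := 7
    L := 12
    kp := 10
    inn := [(0, 1), (0, 2), (0, 3), (0, 4), (0, 5), (0, 6), (1, 0), (1, 4), (1, 5), (2, 0), (2, 3), (3,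
      0), (3, 2), (3, 6), (4, 0), (4, 1), (5, 0), (5, 1), (6, 0), (6, 3)]
    mix := [(0, 0), (0, 1), (0, 2), (1, 3), (1, 4), (1, 5), (2, 0), (2, 6), (2, 7), (2, 8), (3, 6), (3,
      9), (4, 2), (4, 4), (4, 10), (4, 11), (5, 0), (5, 3), (6, 1), (6, 9)]
    cl := [0, 1, 0, 2, 3, 10, 4, 6, 7, 5, 8, 9]
    chq := [(1, 4), (1, 6), (1, 7), (2, 3), (2, 8), (2, 9), (3, 2), (4, 1), (6, 1), (7, 1), (8, 2), (9,
      2)]
    rng := [(0, 3), (0, 7), (1, 2), (1, 9), (2, 1), (2, 10), (3, 0), (3, 5), (4, 5), (4, 11), (5, 3),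
      (5, 4), (6, 8), (6, 9), (7, 0), (7, 8), (8, 6), (8, 7), (9, 1), (9, 6), (10, 2), (10, 11),
      (11, 4), (11, 10)]
    lev := [] }
  links := [[1, 5, 7, 2, 3, 6, 8, 9, 4], [10, 5, 0, 4, 11, 12], [13, 3, 0, 7, 14, 15], [16, 6, 0, 2, 13],
    [11, 1, 0, 9, 17, 18], [0, 1, 10, 7], [0, 3, 16, 8]]
  P := {
    a := 7
    N := 19
    nb := [1022, 7217, 57481, 73797, 395779, 1155, 65801, 17445, 66113, 131345, 4258, 266258, 3074,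
      98316, 32900, 24580, 8520, 262672, 133136]
    tri := [(0, 1, 4), (0, 1, 5), (0, 2, 3), (0, 2, 7), (0, 3, 6), (0, 4, 9), (0, 5, 7), (0, 6, 8), (0,
      8, 9), (1, 4, 11), (1, 5, 10), (1, 10, 12), (1, 11, 12), (2, 3, 13), (2, 7, 14), (2, 13,
      15), (2, 14, 15), (3, 6, 16), (3, 13, 16), (4, 9, 17), (4, 11, 18), (4, 17, 18), (5, 7, 10),
      (6, 8, 16)]
    fin := [0, 1, 2, 2, 1, 0, 2, 0, 2, 0, 1, 11, 12, 13, 14, 15, 16, 17, 18]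
    chd := [(1, 11), (1, 17), (1, 18), (2, 13), (2, 14), (2, 15)]
    steps := [(0, 5), (0, 7), (0, 9), (1, 4), (1, 10), (2, 3), (2, 6), (2, 8)] }
  rep := [0, 2, 1, 11, 13, 16, 14, 15, 17, 18, 12]

noncomputable def v3687 : Cov.CovD where
  P := 3
  N := 8
  pl := [5, 9]
  lev := [⟨[], [], [(0, 0), (0, 1)], [], [(0, 0, []), (1, 1, [4, 6, 7]), (2, 0, [])]⟩,
    ⟨[], [(0, 0), (0, 1), (0, 2), (0, 3)], [(2, 3)], [10], [(3, 2, [3, 8, 9]), (4, 3,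
      [2])]⟩,
    ⟨[(0, 1)], [(0, 0), (0, 1), (0, 4), (0, 6), (0, 7)], [(0, 4), (0, 6), (0, 7), (4, 6),
      (4, 7), (6, 7)], [], [(0, 0, []), (6, 4, [1]), (7, 6, [1]), (8, 7, [1])]⟩,
    ⟨[(0, 1), (0, 2)], [(0, 0), (0, 1), (0, 4), (2, 0), (2, 4), (2, 6), (2, 7)], [], [5],
      [(6, 4, [1])]⟩,
    ⟨[(0, 1), (0, 2), (0, 3)], [(0, 0), (0, 1), (0, 3), (0, 8), (0, 9), (1, 0), (1, 2), (1,
      3), (1, 8), (1, 9)], [(0, 3), (0, 8), (0, 9), (3, 8), (3, 9), (8, 9)], [], [(2, 0, []),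
      (4, 3, [2]), (10, 8, [2]), (11, 9, [2])]⟩,
    ⟨[(0, 1), (0, 2), (0, 3), (0, 4), (1, 4)], [(0, 0), (0, 1), (0, 2), (1, 0), (1, 2), (1,
      3), (2, 0)], [(0, 2)], [], [(0, 0, []), (3, 2, [3, 8, 9])]⟩,
    ⟨[(0, 1), (0, 2), (0, 3), (0, 4), (0, 5), (2, 3)], [(0, 0), (0, 1), (3, 1), (3, 4)],
      [], [5], [(1, 1, [4, 6, 7])]⟩]
  Ta := [((0, 3), 0, 2), ((0, 7), 0, 6), ((2, 1), 0, 1), ((2, 10), 0, 8)]
  Tb := [((0, 3, 7), 0, 2, 6), ((1, 2, 9), 1, 0, 5), ((2, 1, 10), 0, 1, 8), ((3, 0, 5), 2, 0,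
    10), ((4, 5, 11), 3, 10, 9), ((5, 3, 4), 10, 2, 3), ((6, 8, 9), 4, 7, 5), ((7, 0, 8), 6,
    0, 7), ((8, 6, 7), 7, 4, 6), ((9, 1, 6), 5, 1, 4), ((10, 2, 11), 8, 0, 9), ((11, 4, 10),
    9, 3, 8)]
  Tc := [(1, 4, 6), (1, 4, 7), (1, 6, 7), (2, 3, 8), (2, 3, 9), (2, 8, 9)]
  Td := [((1, 4), (1, 2), 0), ((1, 4), (1, 9), 5), ((1, 6), (1, 2), 0), ((1, 6), (1, 9), 5), ((1,
    7), (1, 2), 0), ((1, 7), (1, 9), 5), ((2, 3), (3, 0), 0), ((2, 3), (3, 5), 10), ((2, 8),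
    (3, 0), 0), ((2, 8), (3, 5), 10), ((2, 9), (3, 0), 0), ((2, 9), (3, 5), 10), ((3, 2), (4,
    5), 10), ((3, 2), (4, 11), 9), ((4, 1), (6, 8), 7), ((4, 1), (6, 9), 5), ((6, 1), (7, 0),
    0), ((6, 1), (7, 8), 7), ((7, 1), (8, 6), 4), ((7, 1), (8, 7), 6), ((8, 2), (10, 2), 0),
    ((8, 2), (10, 11), 9), ((9, 2), (11, 4), 3), ((9, 2), (11, 10), 8)]
  G := [[0, 0, 0x4214244142541421181d2e8811219288118192cc,
    0x482424842982182d288218292882982142d2dc,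
    0x42412452524424124d2524484184d2b82828288f828c], [0,
    0x44228261482415882a82242e188281842242a1dc, 0,
    0x4124244242542442182d2d8121129281211292cc,
    0x1142414524124742427524414124d2524424124d2b584888a]]

noncomputable def n3687 : Ent := ⟨e3687, noF, [], [], []⟩

def c3687 : PLift (Cov.check n3687.C.D v3687 = true) := ⟨by decide +kernel⟩

def b3687 : PLift (entF (fidx ts) 400 3687 n3687 = true) := ⟨by decide +kernel⟩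

theorem g3687 : GoodF (fidx ts) 400 3687 := GoodF.ofV v3687 n3687 c3687.down b3687.down

/-- 8566444:2745/2 -/
noncomputable def e3688 : SCfg where
  D := {
    a := 7
    L := 10
    kp := 7
    inn := [(0, 1), (0, 2), (0, 3), (0, 4), (1, 0), (1, 4), (2, 0), (2, 5), (3, 0), (3, 6), (4, 0), (4,
      1), (5, 2), (6, 3)]
    mix := [(0, 0), (0, 1), (0, 2), (0, 3), (1, 1), (1, 4), (1, 5), (2, 2), (2, 3), (2, 6), (2, 7), (3,
      0), (3, 3), (3, 8), (3, 9), (4, 0), (4, 4), (5, 2), (5, 5), (5, 6), (6, 3), (6, 7), (6, 8)]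
    cl := [0, 1, 0, 0, 2, 5, 3, 6, 4, 7]
    chq := [(0, 3), (0, 4), (1, 2), (2, 1), (3, 0), (4, 0)]
    rng := [(0, 4), (0, 9), (1, 2), (1, 5), (2, 1), (2, 5), (3, 7), (4, 0), (4, 5), (5, 1), (5, 2), (5,
      4), (5, 6), (6, 5), (6, 7), (7, 3), (7, 6), (7, 8), (8, 7), (8, 9), (9, 0), (9, 8)]
    lev := [] }
  links := [[7, 4, 1, 8, 9, 2, 10, 3], [8, 0, 4, 11, 12], [10, 0, 9, 5, 13, 14], [7, 0, 10, 6, 15, 16],
    [0, 7, 11, 1], [2, 9, 12, 13], [3, 10, 14, 15]]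
  P := {
    a := 7
    N := 17
    nb := [1950, 6417, 26145, 99521, 2179, 12804, 50184, 67609, 4611, 4389, 16461, 4242, 11042, 20516,
      42052, 81992, 32904]
    tri := [(0, 1, 4), (0, 1, 8), (0, 2, 9), (0, 2, 10), (0, 3, 7), (0, 3, 10), (0, 4, 7), (0, 8, 9),
      (1, 4, 11), (1, 8, 12), (1, 11, 12), (2, 5, 9), (2, 5, 13), (2, 10, 14), (2, 13, 14), (3, 6,
      10), (3, 6, 15), (3, 7, 16), (3, 15, 16), (4, 7, 11), (5, 9, 12), (5, 12, 13), (6, 10, 14),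
      (6, 14, 15)]
    fin := [0, 1, 0, 0, 0, 0, 0, 0, 8, 0, 0, 1, 12, 13, 14, 15, 16]
    chd := [(0, 13), (0, 15), (8, 1)]
    steps := [(0, 2), (0, 3), (0, 4), (0, 5), (0, 7), (0, 9), (0, 10), (0, 6), (1, 11)] }
  rep := [0, 8, 1, 13, 15, 12, 14, 16]

noncomputable def v3688 : Cov.CovD where
  P := 3
  N := 5
  pl := [5, 7, 9]
  lev := [⟨[], [], [(0, 0), (0, 1)], [], [(0, 0, [3, 4]), (1, 1, [2]), (2, 0, [3, 4]), (3, 0, [3,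
      4])]⟩,
    ⟨[], [(0, 0), (0, 1), (0, 2)], [(1, 2)], [5], [(1, 1, [2]), (4, 2, [1])]⟩,
    ⟨[(0, 1)], [(0, 0), (0, 1), (0, 3)], [(0, 0), (0, 3)], [6], [(2, 0, [3, 4]), (3, 0, [3,
      4]), (6, 3, [0])]⟩,
    ⟨[(0, 1), (0, 2)], [(0, 0), (0, 1), (0, 4), (2, 0)], [(0, 0), (0, 4)], [7], [(0, 0, [3,
      4]), (3, 0, [3, 4]), (8, 4, [0])]⟩,
    ⟨[(0, 1), (0, 2), (0, 3)], [(0, 0), (0, 1), (0, 2), (1, 0), (1, 1), (1, 2), (3, 0)],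
      [(0, 2)], [], [(0, 0, [3, 4]), (4, 2, [1])]⟩,
    ⟨[(0, 2)], [(0, 0), (2, 0), (2, 3)], [(0, 3)], [5], [(2, 0, [3, 4]), (6, 3, [0])]⟩,
    ⟨[(0, 3)], [(0, 0), (2, 0), (3, 0), (3, 4)], [(0, 4)], [6], [(3, 0, [3, 4]), (8, 4,
      [0])]⟩]
  Ta := [((0, 4), 0, 2), ((0, 9), 0, 7), ((2, 1), 0, 1), ((2, 5), 0, 5), ((3, 7), 0, 6)]
  Tb := [((0, 4, 9), 0, 2, 7), ((1, 2, 5), 1, 0, 5), ((2, 1, 5), 0, 1, 5), ((4, 0, 5), 2, 0, 5),
    ((5, 1, 2), 5, 1, 0), ((5, 1, 4), 5, 1, 2), ((5, 1, 6), 5, 1, 3), ((5, 2, 4), 5, 0, 2),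
    ((5, 2, 6), 5, 0, 3), ((5, 4, 6), 5, 2, 3), ((6, 5, 7), 3, 5, 6), ((7, 3, 6), 6, 0, 3),
    ((7, 3, 8), 6, 0, 4), ((7, 6, 8), 6, 3, 4), ((8, 7, 9), 4, 6, 7), ((9, 0, 8), 7, 0, 4)]
  Tc := [(0, 3, 4)]
  Td := [((0, 3), (0, 4), 2), ((0, 3), (0, 9), 7), ((0, 3), (2, 1), 1), ((0, 3), (2, 5), 5), ((0,
    3), (3, 7), 6), ((0, 4), (0, 4), 2), ((0, 4), (0, 9), 7), ((0, 4), (2, 1), 1), ((0, 4),
    (2, 5), 5), ((0, 4), (3, 7), 6), ((1, 2), (1, 2), 0), ((1, 2), (1, 5), 5), ((2, 1), (4,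
    0), 0), ((2, 1), (4, 5), 5), ((3, 0), (6, 5), 5), ((3, 0), (6, 7), 6), ((4, 0), (8, 7),
    6), ((4, 0), (8, 9), 7)]
  G := [[0, 0, 0x114114641141126114142142e112114118eec182188112e1128118112224ee81888cc,
    0x8141121932e8338112a122322228ee114344416,
    0x15921452111d8e13521132218e611832119812978e81c], [0,
    0x11a4441a422a466116121616141144141e111e411642268eec12182816188c888181184e11a411a8ac8e,
    0, 0x11614141444148ec114b444a81ca4e324128222e65881988181e121121224ea88622561a8cc,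
    0x44a114264542448211e8e13a241a2222e2e69888982182e18a1881681168128ee886239681162e89c], [0,
    0, 0, 0xe12444344e242246e1818c234a1e32e18ae228e1c,
    0x6124443244184e18858189855ab2e1e38e18a1e981a52222e8ee1c]]

noncomputable def n3688 : Ent := ⟨e3688, noF, [], [], []⟩

def c3688 : PLift (Cov.check n3688.C.D v3688 = true) := ⟨by decide +kernel⟩

def b3688 : PLift (entF (fidx ts) 400 3688 n3688 = true) := ⟨by decide +kernel⟩

theorem g3688 : GoodF (fidx ts) 400 3688 := GoodF.ofV v3688 n3688 c3688.down b3688.down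

/-- 8566444:2745/1 -/
noncomputable def e3689 : SCfg where
  D := {
    a := 7
    L := 11
    kp := 8
    inn := [(0, 1), (0, 2), (0, 3), (0, 4), (1, 0), (1, 4), (2, 0), (2, 5), (3, 0), (3, 6), (4, 0), (4,
      1), (5, 2), (6, 3)]
    mix := [(0, 0), (0, 1), (0, 2), (0, 3), (1, 1), (1, 4), (1, 5), (2, 2), (2, 3), (2, 6), (2, 7), (3,
      0), (3, 3), (3, 8), (3, 9), (4, 0), (4, 4), (5, 2), (5, 5), (5, 6), (6, 3), (6, 8), (6, 10)]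
    cl := [0, 1, 0, 0, 2, 5, 3, 6, 4, 7, 8]
    chq := [(0, 3), (0, 4), (1, 2), (2, 1), (3, 0), (4, 0)]
    rng := [(0, 4), (0, 9), (1, 2), (1, 5), (2, 1), (2, 5), (3, 7), (3, 10), (4, 0), (4, 5), (5, 1),
      (5, 2), (5, 4), (5, 6), (6, 5), (6, 7), (7, 3), (7, 6), (8, 9), (8, 10), (9, 0), (9, 8),
      (10, 3), (10, 8)]
    lev := [] }
  links := [[7, 4, 1, 8, 9, 2, 10, 3], [8, 0, 4, 11, 12], [10, 0, 9, 5, 13, 14], [7, 0, 10, 6, 15, 16],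
    [0, 7, 11, 1], [2, 9, 12, 13], [3, 10, 17, 15]]
  P := {
    a := 7
    N := 18
    nb := [1950, 6417, 26145, 99521, 2179, 12804, 164872, 67609, 4611, 4389, 147533, 4242, 11042,
      20516, 9220, 196680, 32904, 33856]
    tri := [(0, 1, 4), (0, 1, 8), (0, 2, 9), (0, 2, 10), (0, 3, 7), (0, 3, 10), (0, 4, 7), (0, 8, 9),
      (1, 4, 11), (1, 8, 12), (1, 11, 12), (2, 5, 9), (2, 5, 13), (2, 10, 14), (2, 13, 14), (3, 6,
      10), (3, 6, 15), (3, 7, 16), (3, 15, 16), (4, 7, 11), (5, 9, 12), (5, 12, 13), (6, 10, 17),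
      (6, 15, 17)]
    fin := [0, 1, 0, 0, 0, 0, 0, 0, 8, 0, 0, 1, 12, 13, 14, 15, 16, 17]
    chd := [(0, 13), (0, 15), (8, 1)]
    steps := [(0, 2), (0, 3), (0, 4), (0, 5), (0, 6), (0, 7), (0, 9), (0, 10), (1, 11)] }
  rep := [0, 8, 1, 13, 15, 12, 14, 16, 17]

noncomputable def v3689 : Cov.CovD where
  P := 3
  N := 6
  pl := [5, 7, 9, 10]
  lev := [⟨[], [], [(0, 0), (0, 1)], [], [(0, 0, [3, 4]), (1, 1, [2]), (2, 0, [3, 4]), (3, 0, [3,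
      4])]⟩,
    ⟨[], [(0, 0), (0, 1), (0, 2)], [(1, 2)], [5], [(1, 1, [2]), (4, 2, [1])]⟩,
    ⟨[(0, 1)], [(0, 0), (0, 1), (0, 3)], [(0, 0), (0, 3)], [6], [(2, 0, [3, 4]), (3, 0, [3,
      4]), (6, 3, [0])]⟩,
    ⟨[(0, 1), (0, 2)], [(0, 0), (0, 1), (0, 4), (2, 0)], [(0, 0), (0, 4)], [7], [(0, 0, [3,
      4]), (3, 0, [3, 4]), (8, 4, [0])]⟩,
    ⟨[(0, 1), (0, 2), (0, 3)], [(0, 0), (0, 1), (0, 2), (1, 0), (1, 1), (1, 2), (3, 0)],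
      [(0, 2)], [], [(0, 0, [3, 4]), (4, 2, [1])]⟩,
    ⟨[(0, 2)], [(0, 0), (2, 0), (2, 3)], [(0, 3)], [5], [(2, 0, [3, 4]), (6, 3, [0])]⟩,
    ⟨[(0, 3)], [(0, 0), (2, 0), (3, 0), (3, 4)], [(0, 4)], [8], [(3, 0, [3, 4]), (8, 4,
      [0])]⟩]
  Ta := [((0, 4), 0, 2), ((0, 9), 0, 7), ((2, 1), 0, 1), ((2, 5), 0, 5), ((3, 7), 0, 6), ((3,
    10), 0, 8)]
  Tb := [((0, 4, 9), 0, 2, 7), ((1, 2, 5), 1, 0, 5), ((2, 1, 5), 0, 1, 5), ((3, 7, 10), 0, 6, 8),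
    ((4, 0, 5), 2, 0, 5), ((5, 1, 2), 5, 1, 0), ((5, 1, 4), 5, 1, 2), ((5, 1, 6), 5, 1, 3),
    ((5, 2, 4), 5, 0, 2), ((5, 2, 6), 5, 0, 3), ((5, 4, 6), 5, 2, 3), ((6, 5, 7), 3, 5, 6),
    ((7, 3, 6), 6, 0, 3), ((8, 9, 10), 4, 7, 8), ((9, 0, 8), 7, 0, 4), ((10, 3, 8), 8, 0, 4)]
  Tc := [(0, 3, 4)]
  Td := [((0, 3), (0, 4), 2), ((0, 3), (0, 9), 7), ((0, 3), (2, 1), 1), ((0, 3), (2, 5), 5), ((0,
    3), (3, 7), 6), ((0, 3), (3, 10), 8), ((0, 4), (0, 4), 2), ((0, 4), (0, 9), 7), ((0, 4),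
    (2, 1), 1), ((0, 4), (2, 5), 5), ((0, 4), (3, 7), 6), ((0, 4), (3, 10), 8), ((1, 2), (1,
    2), 0), ((1, 2), (1, 5), 5), ((2, 1), (4, 0), 0), ((2, 1), (4, 5), 5), ((3, 0), (6, 5),
    5), ((3, 0), (6, 7), 6), ((4, 0), (8, 9), 7), ((4, 0), (8, 10), 8)]
  G := [[0, 0, 0x114112641121146112114142e114128114eec112112112e1128112112124ee11888cc,
    0x1d34173261532914312e324522928ee1114881a,
    0x135219521558e41159813921992e1b3811381b38ea1c], [0,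
    0x116411646144144148e111e411a1111e1ee41241161121e2116888c184184181e11a411a111a1ec8e, 0,
    0x73a24411c7115626141d44741ecc582381981eb9a115a2a124128128eee9688524928328ea9c,
    0x116244bd6211c726165211ad2148e116b21c38122ee9b88181181e11a111a2a116211c211c2ee1168889c],
    [0, 0, 0, 0x1e34e146e121e386e24e246e1e1281e388e228e1c,
    0x1e5241e38ee5861e981e986e111ed81e32ae1881ee788e1c]]

noncomputable def n3689 : Ent := ⟨e3689, noF, [], [], [(14, 17, [6903326391201334775872065844685381424292761054348340378595029944795137, 0])]⟩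

def c3689 : PLift (Cov.check n3689.C.D v3689 = true) := ⟨by decide +kernel⟩

def b3689 : PLift (entF (fidx ts) 400 3689 n3689 = true) := ⟨by decide +kernel⟩

theorem g3689 : GoodF (fidx ts) 400 3689 := GoodF.ofV v3689 n3689 c3689.down b3689.down

/-- 8566444:2745/3 -/
noncomputable def e3690 : SCfg where
  D := {
    a := 7
    L := 11
    kp := 8
    inn := [(0, 1), (0, 2), (0, 3), (0, 4), (1, 0), (1, 4), (2, 0), (2, 5), (3, 0), (3, 6), (4, 0), (4,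
      1), (5, 2), (6, 3)]
    mix := [(0, 0), (0, 1), (0, 2), (0, 3), (1, 1), (1, 4), (1, 5), (2, 2), (2, 3), (2, 6), (2, 7), (3,
      0), (3, 3), (3, 8), (3, 9), (4, 0), (4, 4), (5, 2), (5, 6), (5, 10), (6, 3), (6, 7), (6, 8)]
    cl := [0, 2, 0, 0, 3, 8, 4, 1, 5, 6, 7]
    chq := [(1, 6), (1, 7), (2, 3), (3, 2), (6, 1), (7, 1)]
    rng := [(0, 4), (0, 9), (1, 2), (1, 5), (2, 1), (2, 10), (3, 7), (4, 0), (4, 5), (5, 1), (5, 4),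
      (6, 7), (6, 10), (7, 3), (7, 6), (7, 8), (8, 7), (8, 9), (9, 0), (9, 8), (10, 2), (10, 6)]
    lev := [] }
  links := [[7, 4, 1, 8, 9, 2, 10, 3], [8, 0, 4, 11, 12], [10, 0, 9, 5, 13, 14], [7, 0, 10, 6, 15, 16],
    [0, 7, 11, 1], [2, 9, 17, 13], [3, 10, 14, 15]]
  P := {
    a := 7
    N := 18
    nb := [1950, 6417, 26145, 99521, 2179, 139780, 50184, 67609, 4611, 131365, 16461, 4242, 2306,
      147492, 42052, 81992, 32904, 8736]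
    tri := [(0, 1, 4), (0, 1, 8), (0, 2, 9), (0, 2, 10), (0, 3, 7), (0, 3, 10), (0, 4, 7), (0, 8, 9),
      (1, 4, 11), (1, 8, 12), (1, 11, 12), (2, 5, 9), (2, 5, 13), (2, 10, 14), (2, 13, 14), (3, 6,
      10), (3, 6, 15), (3, 7, 16), (3, 15, 16), (4, 7, 11), (5, 9, 17), (5, 13, 17), (6, 10, 14),
      (6, 14, 15)]
    fin := [0, 1, 2, 3, 0, 2, 3, 0, 8, 0, 0, 1, 12, 13, 3, 15, 16, 2]
    chd := [(3, 2), (3, 16), (8, 1)]
    steps := [(0, 4), (0, 7), (0, 9), (0, 10), (1, 11), (2, 5), (2, 17), (3, 6), (3, 14)] }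
  rep := [0, 3, 8, 1, 13, 15, 16, 2, 12]

noncomputable def v3690 : Cov.CovD where
  P := 3
  N := 6
  pl := [5, 6, 8]
  lev := [⟨[], [], [(0, 0), (0, 2)], [], [(0, 0, []), (1, 2, [3]), (2, 0, []), (3, 0, [])]⟩,
    ⟨[], [(0, 0), (0, 2), (0, 3)], [(2, 3)], [8], [(1, 2, [3]), (4, 3, [2])]⟩,
    ⟨[(0, 1)], [(0, 0), (0, 1), (0, 2)], [(0, 0), (0, 1)], [4], [(2, 0, []), (3, 0, []),
      (7, 1, [6, 7])]⟩,
    ⟨[(0, 1), (0, 2)], [(0, 0), (0, 2), (0, 6), (2, 0)], [(0, 0), (0, 6)], [5], [(0, 0,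
      []), (3, 0, []), (9, 6, [1])]⟩,
    ⟨[(0, 1), (0, 2), (0, 3)], [(0, 0), (0, 2), (0, 3), (1, 0), (1, 2), (1, 3), (3, 0)],
      [(0, 3)], [], [(0, 0, []), (4, 3, [2])]⟩,
    ⟨[(0, 2)], [(0, 0), (2, 0), (2, 1), (2, 7)], [(0, 7)], [4], [(2, 0, []), (10, 7, [1])]⟩,
    ⟨[(0, 3)], [(0, 0), (2, 0), (2, 1), (3, 0), (3, 1), (3, 6)], [(0, 1)], [5], [(3, 0,
      []), (7, 1, [6, 7])]⟩]
  Ta := [((0, 4), 0, 3), ((0, 9), 0, 6), ((2, 1), 0, 2), ((2, 10), 0, 7), ((3, 7), 0, 1)]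
  Tb := [((0, 4, 9), 0, 3, 6), ((1, 2, 5), 2, 0, 8), ((2, 1, 10), 0, 2, 7), ((4, 0, 5), 3, 0, 8),
    ((5, 1, 4), 8, 2, 3), ((6, 7, 10), 4, 1, 7), ((7, 3, 6), 1, 0, 4), ((7, 3, 8), 1, 0, 5),
    ((7, 6, 8), 1, 4, 5), ((8, 7, 9), 5, 1, 6), ((9, 0, 8), 6, 0, 5), ((10, 2, 6), 7, 0, 4)]
  Tc := [(1, 6, 7)]
  Td := [((1, 6), (7, 3), 0), ((1, 6), (7, 6), 4), ((1, 6), (7, 8), 5), ((1, 7), (7, 3), 0), ((1,
    7), (7, 6), 4), ((1, 7), (7, 8), 5), ((2, 3), (1, 2), 0), ((2, 3), (1, 5), 8), ((3, 2),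
    (4, 0), 0), ((3, 2), (4, 5), 8), ((6, 1), (9, 0), 0), ((6, 1), (9, 8), 5), ((7, 1), (10,
    2), 0), ((7, 1), (10, 6), 4)]
  G := [[0, 0, 0, 0x812448141146414424122ec42244d418122928e828c18ac82288122812c12e122522acdc,
    0x424514644125226422422c14eca824414124e4248c12488824424124e824414514ecba], [0, 0,
    0x42441244218c61ec412151ce1a8122121999e1e1222c6821428128e828121595e1ec421421c4ae,
    0x122444219226121121955e4ec12244d1221219c5e1e122c22ac12288822122c99e2e422522acdc,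
    0x821c16169ca42c282842491a1e8284249168ec4218821124cc82442491a4e8241245c64ecba], [0,
    0x41244112126641244122116c41244122126ad812212a8128c8128811212aa8128812212acdc, 0,
    0x42244422c246421422c14ec412822c22e4d818821c11e822c21ac41188822812c12e8dc,
    0x421c146412822c24ec424c146424824c24ec3814428c24e824418c18ec4248882488ba]]

noncomputable def n3690 : Ent := ⟨e3690, noF, [], [], [(12, 17, [6903326391201334775872065844685381424292761054348340378595029944795137, 0])]⟩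

def c3690 : PLift (Cov.check n3690.C.D v3690 = true) := ⟨by decide +kernel⟩

def b3690 : PLift (entF (fidx ts) 400 3690 n3690 = true) := ⟨by decide +kernel⟩

theorem g3690 : GoodF (fidx ts) 400 3690 := GoodF.ofV v3690 n3690 c3690.down b3690.down

/-- 8566444:2745 -/
noncomputable def e3691 : SCfg where
  D := {
    a := 7
    L := 12
    kp := 9
    inn := [(0, 1), (0, 2), (0, 3), (0, 4), (1, 0), (1, 4), (2, 0), (2, 5), (3, 0), (3, 6), (4, 0), (4,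
      1), (5, 2), (6, 3)]
    mix := [(0, 0), (0, 1), (0, 2), (0, 3), (1, 1), (1, 4), (1, 5), (2, 2), (2, 3), (2, 6), (2, 7), (3,
      0), (3, 3), (3, 8), (3, 9), (4, 0), (4, 4), (5, 2), (5, 6), (5, 10), (6, 3), (6, 8), (6,
      11)]
    cl := [0, 1, 0, 0, 2, 9, 3, 5, 4, 6, 7, 8]
    chq := [(1, 2), (2, 1), (5, 7), (6, 8), (7, 5), (8, 6)]
    rng := [(0, 4), (0, 9), (1, 2), (1, 5), (2, 1), (2, 10), (3, 7), (3, 11), (4, 0), (4, 5), (5, 1),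
      (5, 4), (6, 7), (6, 10), (7, 3), (7, 6), (8, 9), (8, 11), (9, 0), (9, 8), (10, 2), (10, 6),
      (11, 3), (11, 8)]
    lev := [] }
  links := [[7, 4, 1, 8, 9, 2, 10, 3], [8, 0, 4, 11, 12], [10, 0, 9, 5, 13, 14], [7, 0, 10, 6, 15, 16],
    [0, 7, 11, 1], [2, 9, 17, 13], [3, 10, 18, 15]]
  P := {
    a := 7
    N := 19
    nb := [1950, 6417, 26145, 99521, 2179, 139780, 295944, 67609, 4611, 131365, 278605, 4242, 2306,
      147492, 9220, 327752, 32904, 8736, 33856]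
    tri := [(0, 1, 4), (0, 1, 8), (0, 2, 9), (0, 2, 10), (0, 3, 7), (0, 3, 10), (0, 4, 7), (0, 8, 9),
      (1, 4, 11), (1, 8, 12), (1, 11, 12), (2, 5, 9), (2, 5, 13), (2, 10, 14), (2, 13, 14), (3, 6,
      10), (3, 6, 15), (3, 7, 16), (3, 15, 16), (4, 7, 11), (5, 9, 17), (5, 13, 17), (6, 10, 18),
      (6, 15, 18)]
    fin := [0, 1, 2, 3, 0, 2, 3, 0, 8, 0, 0, 1, 12, 13, 14, 15, 16, 2, 3]
    chd := [(8, 1), (14, 2), (16, 3)]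
    steps := [(0, 4), (0, 7), (0, 9), (0, 10), (1, 11), (2, 5), (2, 17), (3, 6), (3, 18)] }
  rep := [0, 8, 1, 13, 15, 14, 16, 2, 3, 12]

noncomputable def v3691 : Cov.CovD where
  P := 3
  N := 7
  pl := [5, 6, 8]
  lev := [⟨[], [], [(0, 0), (0, 1)], [], [(0, 0, []), (1, 1, [2]), (2, 0, []), (3, 0, [])]⟩,
    ⟨[], [(0, 0), (0, 1), (0, 2)], [(1, 2)], [9], [(1, 1, [2]), (4, 2, [1])]⟩,
    ⟨[(0, 1)], [(0, 0), (0, 1), (0, 5)], [(0, 0), (0, 5)], [3], [(2, 0, []), (3, 0, []),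
      (7, 5, [7])]⟩,
    ⟨[(0, 1), (0, 2)], [(0, 0), (0, 1), (0, 6), (2, 0)], [(0, 0), (0, 6)], [4], [(0, 0,
      []), (3, 0, []), (9, 6, [8])]⟩,
    ⟨[(0, 1), (0, 2), (0, 3)], [(0, 0), (0, 1), (0, 2), (1, 0), (1, 1), (1, 2), (3, 0)],
      [(0, 2)], [], [(0, 0, []), (4, 2, [1])]⟩,
    ⟨[(0, 2)], [(0, 0), (2, 0), (2, 5), (2, 7)], [(0, 7)], [3], [(2, 0, []), (10, 7, [5])]⟩,
    ⟨[(0, 3)], [(0, 0), (2, 0), (3, 0), (3, 6), (3, 8)], [(0, 8)], [4], [(3, 0, []), (11,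
      8, [6])]⟩]
  Ta := [((0, 4), 0, 2), ((0, 9), 0, 6), ((2, 1), 0, 1), ((2, 10), 0, 7), ((3, 7), 0, 5), ((3,
    11), 0, 8)]
  Tb := [((0, 4, 9), 0, 2, 6), ((1, 2, 5), 1, 0, 9), ((2, 1, 10), 0, 1, 7), ((3, 7, 11), 0, 5,
    8), ((4, 0, 5), 2, 0, 9), ((5, 1, 4), 9, 1, 2), ((6, 7, 10), 3, 5, 7), ((7, 3, 6), 5, 0,
    3), ((8, 9, 11), 4, 6, 8), ((9, 0, 8), 6, 0, 4), ((10, 2, 6), 7, 0, 3), ((11, 3, 8), 8,
    0, 4)]
  Tc := []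
  Td := [((1, 2), (1, 2), 0), ((1, 2), (1, 5), 9), ((2, 1), (4, 0), 0), ((2, 1), (4, 5), 9), ((5,
    7), (7, 3), 0), ((5, 7), (7, 6), 3), ((6, 8), (9, 0), 0), ((6, 8), (9, 8), 4), ((7, 5),
    (10, 2), 0), ((7, 5), (10, 6), 3), ((8, 6), (11, 3), 0), ((8, 6), (11, 8), 4)]
  G := [[0, 0,
    0x11444114435341a34114e11c44ec618a9385134e63a2912a3554a1c819c2ee312c932a36c8c998aacc,
    0x112251a221141a52c558ee336411629932e11821694aa925192ee93658914c51439a4cc56a8918c4c6,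
    0xd192b1326d1255c266a132712643321121932e319213c8c5c2ee916383158918e618811988e1632889c],
    [0,
    0x61c89ac11bc1e266c8c1c8a2c5568aa641161e11a4a3a85ca4ec666499611168e33a411a19ca8e1ac44ec6,
    0,
    0xc161211a8265c21ac491c4ee41c64295a2236c411c89cc2ee161619a68c31a4aaa8cc16683a64c66a81aa4ccce,
    0x11a24411a233a855a8e56c2a1c219c2e69156239625168e33a1c9a8a11c233c2c5c1ee166239685162e89c],
    [0, 0, 0,
    0xaaa2cc946a11884d266cc5126118ac14266a4a14cc38e6654aac4cc54eed614a18c66918c6654aa64c8ca,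
    0xa11cc316aa9246612a18cc98e496638aa62c12e611866c1cc51ae6632aa38cc62e66672aac8c12ea9c]]

noncomputable def n3691 : Ent := ⟨e3691, noF, [], [], [(12, 17, [31810150492402119267275227079217218666319002904815489586567506653228732417, 0]), (14, 18, [30043303427623734937691929578474300150491519007939870628445900451936116737, 0])]⟩

def c3691 : PLift (Cov.check n3691.C.D v3691 = true) := ⟨by decide +kernel⟩

def b3691 : PLift (entF (fidx ts) 400 3691 n3691 = true) := ⟨by decide +kernel⟩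

theorem g3691 : GoodF (fidx ts) 400 3691 := GoodF.ofV v3691 n3691 c3691.down b3691.down

/-- 75644:2746/1 -/
noncomputable def e3692 : SCfg where
  D := {
    a := 5
    L := 9
    kp := 6
    inn := [(0, 2), (0, 3), (1, 3), (2, 0), (2, 4), (3, 0), (3, 1), (4, 2)]
    mix := [(0, 0), (0, 1), (0, 2), (0, 3), (0, 4), (1, 1), (1, 2), (1, 5), (1, 6), (2, 2), (2, 3), (2,
      5), (2, 7), (3, 1), (3, 2), (4, 3), (4, 7), (4, 8)]
    cl := [2, 0, 0, 0, 5, 1, 6, 3, 4]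
    chq := [(1, 4), (4, 1)]
    rng := [(0, 1), (0, 4), (1, 0), (1, 6), (2, 5), (3, 4), (3, 8), (4, 0), (4, 3), (5, 2), (5, 6), (5,
      7), (6, 1), (6, 5), (7, 5), (7, 8), (8, 3), (8, 7)]
    lev := [] }
  links := [[5, 6, 3, 7, 2, 8, 9], [10, 7, 3, 6, 11], [0, 7, 10, 12, 4, 8], [7, 0, 6, 1], [2, 12, 13, 8]]
  P := {
    a := 5
    N := 14
    nb := [1004, 3272, 5521, 195, 12548, 577, 2091, 1039, 8725, 289, 6278, 1090, 9236, 4368]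
    tri := [(0, 2, 7), (0, 2, 8), (0, 3, 6), (0, 3, 7), (0, 5, 6), (0, 5, 9), (0, 8, 9), (1, 3, 6), (1,
      3, 7), (1, 6, 11), (1, 7, 10), (1, 10, 11), (2, 4, 8), (2, 4, 12), (2, 7, 10), (2, 10, 12),
      (4, 8, 13), (4, 12, 13)]
    fin := [0, 0, 2, 0, 2, 5, 0, 0, 0, 9, 2, 11, 12, 13]
    chd := [(2, 13)]
    steps := [(0, 3), (0, 1), (0, 6), (0, 7), (0, 8), (2, 4), (2, 10)] }
  rep := [0, 2, 5, 12, 13, 9, 11]

noncomputable def v3692 : Cov.CovD where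
  P := 3
  N := 4
  pl := [0, 4, 6, 7]
  lev := [⟨[], [], [(0, 0)], [2, 5], [(1, 0, []), (2, 0, []), (3, 0, [])]⟩,
    ⟨[], [(0, 0)], [(0, 0), (0, 1)], [6], [(1, 0, []), (2, 0, []), (5, 1, [4])]⟩,
    ⟨[], [(0, 0), (0, 1), (1, 0), (1, 1)], [(0, 0), (0, 1)], [3], [(2, 0, []), (3, 0, []),
      (5, 1, [4])]⟩,
    ⟨[(0, 1), (0, 2)], [(0, 0), (1, 0), (1, 1), (2, 0)], [(0, 0)], [], [(1, 0, []), (2, 0,
      [])]⟩,
    ⟨[(0, 2)], [(0, 0), (2, 0), (2, 1), (2, 4)], [(0, 4)], [3], [(3, 0, []), (8, 4, [1])]⟩]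
  Ta := [((1, 0), 0, 2), ((1, 6), 0, 6), ((2, 5), 0, 1), ((3, 4), 0, 5), ((3, 8), 0, 4)]
  Tb := [((0, 1, 4), 2, 0, 5), ((1, 0, 6), 0, 2, 6), ((3, 4, 8), 0, 5, 4), ((4, 0, 3), 5, 2, 0),
    ((5, 2, 6), 1, 0, 6), ((5, 2, 7), 1, 0, 3), ((5, 6, 7), 1, 6, 3), ((6, 1, 5), 6, 0, 1),
    ((7, 5, 8), 3, 1, 4), ((8, 3, 7), 4, 0, 3)]
  Tc := []
  Td := [((1, 4), (5, 2), 0), ((1, 4), (5, 6), 6), ((1, 4), (5, 7), 3), ((4, 1), (8, 3), 0), ((4,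
    1), (8, 7), 3)]
  G := [[0, 0, 0x1222c2812cc2218c2212cc6, 0x1422c1422cc1222c1822ccc, 0x2412c1428cc2412c2218cca],
    [0, 0x128124122e188184142ec, 0, 0x2412c1224cc1228c1828ccc, 0x1224c2412cc1822c1822cca],
    [0, 0, 0, 0x24e4c22e4cce822c62a8ccc, 0x22e2c24e4cce428ca464cca]]

noncomputable def n3692 : Ent := ⟨e3692, noF, [], [], []⟩

def c3692 : PLift (Cov.check n3692.C.D v3692 = true) := ⟨by decide +kernel⟩

def b3692 : PLift (entF (fidx ts) 400 3692 n3692 = true) := ⟨by decide +kernel⟩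

theorem g3692 : GoodF (fidx ts) 400 3692 := GoodF.ofV v3692 n3692 c3692.down b3692.down

/-- 75644:2746 -/
noncomputable def e3693 : SCfg where
  D := {
    a := 5
    L := 10
    kp := 7
    inn := [(0, 2), (0, 3), (1, 3), (2, 0), (2, 4), (3, 0), (3, 1), (4, 2)]
    mix := [(0, 0), (0, 1), (0, 2), (0, 3), (0, 4), (1, 1), (1, 2), (1, 5), (1, 6), (2, 2), (2, 3), (2,
      7), (2, 8), (3, 1), (3, 2), (4, 3), (4, 8), (4, 9)]
    cl := [2, 0, 0, 0, 5, 6, 7, 1, 3, 4]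
    chq := [(1, 4), (4, 1)]
    rng := [(0, 1), (0, 4), (1, 0), (1, 6), (2, 5), (2, 7), (3, 4), (3, 9), (4, 0), (4, 3), (5, 2), (5,
      6), (6, 1), (6, 5), (7, 2), (7, 8), (8, 7), (8, 9), (9, 3), (9, 8)]
    lev := [] }
  links := [[5, 6, 3, 7, 2, 8, 9], [10, 7, 3, 6, 11], [0, 7, 12, 13, 4, 8], [7, 0, 6, 1], [2, 13, 14, 8]]
  P := {
    a := 5
    N := 15
    nb := [1004, 3272, 12689, 195, 24836, 577, 2091, 5135, 16917, 289, 2178, 1090, 8324, 20500, 8464]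
    tri := [(0, 2, 7), (0, 2, 8), (0, 3, 6), (0, 3, 7), (0, 5, 6), (0, 5, 9), (0, 8, 9), (1, 3, 6), (1,
      3, 7), (1, 6, 11), (1, 7, 10), (1, 10, 11), (2, 4, 8), (2, 4, 13), (2, 7, 12), (2, 12, 13),
      (4, 8, 14), (4, 13, 14)]
    fin := [0, 0, 2, 0, 2, 5, 0, 0, 0, 9, 10, 11, 2, 13, 14]
    chd := [(2, 14)]
    steps := [(0, 3), (0, 1), (0, 6), (0, 7), (0, 8), (2, 4), (2, 12)] }
  rep := [0, 2, 5, 13, 14, 9, 10, 11]

noncomputable def v3693 : Cov.CovD where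
  P := 3
  N := 5
  pl := [0, 4, 5, 6, 8]
  lev := [⟨[], [], [(0, 0)], [2, 5], [(1, 0, []), (2, 0, []), (3, 0, [])]⟩,
    ⟨[], [(0, 0)], [(0, 0)], [6, 7], [(1, 0, []), (2, 0, [])]⟩,
    ⟨[], [(0, 0), (0, 1), (1, 0)], [(0, 0), (0, 1)], [3], [(2, 0, []), (3, 0, []), (7, 1,
      [4])]⟩,
    ⟨[(0, 1), (0, 2)], [(0, 0), (1, 0), (2, 0)], [(0, 0)], [], [(1, 0, []), (2, 0, [])]⟩,
    ⟨[(0, 2)], [(0, 0), (2, 0), (2, 1), (2, 4)], [(0, 4)], [3], [(3, 0, []), (9, 4, [1])]⟩]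
  Ta := [((1, 0), 0, 2), ((1, 6), 0, 7), ((2, 5), 0, 6), ((2, 7), 0, 1), ((3, 4), 0, 5), ((3, 9),
    0, 4)]
  Tb := [((0, 1, 4), 2, 0, 5), ((1, 0, 6), 0, 2, 7), ((2, 5, 7), 0, 6, 1), ((3, 4, 9), 0, 5, 4),
    ((4, 0, 3), 5, 2, 0), ((5, 2, 6), 6, 0, 7), ((6, 1, 5), 7, 0, 6), ((7, 2, 8), 1, 0, 3),
    ((8, 7, 9), 3, 1, 4), ((9, 3, 8), 4, 0, 3)]
  Tc := []
  Td := [((1, 4), (7, 2), 0), ((1, 4), (7, 8), 3), ((4, 1), (9, 3), 0), ((4, 1), (9, 8), 3)]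
  G := [[0, 0, 0x2412c2218c2218ce1428c2818c1228cec, 0x2414c2214c1424ce2818c2212c2418cec,
    0x1424c2218c2218ce2412c1828c2818cea], [0, 0x1214c1212a1414ce1818a1812c1812cec, 0,
    0x1422c2212c2212ce1228c2818c2212cec, 0x2212c1424c2214ce2814c2212c2418cea], [0, 0, 0,
    0x62a2c24e2c22e4cee428c68a8ce222cec, 0x64a2c62a4c24e4cea468ca864ca468cea]]

noncomputable def n3693 : Ent := ⟨e3693, noF, [], [], [(10, 12, [87899350853947037246286378706680507498760953601682116624385, 0])]⟩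

def c3693 : PLift (Cov.check n3693.C.D v3693 = true) := ⟨by decide +kernel⟩

def b3693 : PLift (entF (fidx ts) 400 3693 n3693 = true) := ⟨by decide +kernel⟩

theorem g3693 : GoodF (fidx ts) 400 3693 := GoodF.ofV v3693 n3693 c3693.down b3693.down

/-- 8568444:2747/1 -/
noncomputable def e3694 : SCfg where
  D := {
    a := 7
    L := 11
    kp := 8
    inn := [(0, 2), (0, 3), (0, 4), (0, 6), (1, 4), (2, 0), (2, 3), (2, 5), (3, 0), (3, 2), (3, 5), (3,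
      6), (4, 0), (4, 1), (5, 2), (5, 3), (6, 0), (6, 3)]
    mix := [(0, 0), (0, 1), (0, 2), (0, 3), (1, 1), (1, 2), (1, 4), (1, 5), (2, 2), (2, 4), (2, 6), (3,
      7), (3, 8), (3, 9), (3, 10), (4, 1), (4, 2), (5, 6), (5, 8), (6, 3), (6, 7)]
    cl := [5, 0, 0, 4, 1, 6, 2, 3, 3, 7, 8]
    chq := [(1, 5), (2, 5), (3, 5), (5, 1), (5, 2), (5, 3)]
    rng := [(0, 1), (0, 3), (1, 0), (1, 5), (2, 4), (3, 0), (3, 7), (4, 2), (4, 5), (4, 6), (5, 1), (5,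
      4), (6, 4), (6, 8), (7, 3), (7, 10), (8, 6), (8, 9), (9, 8), (9, 10), (10, 7), (10, 9)]
    lev := [] }
  links := [[7, 8, 4, 9, 2, 3, 6, 10], [11, 9, 4, 8, 12], [0, 9, 11, 13, 5, 3], [14, 6, 0, 2, 5, 15, 16,
    17], [9, 0, 8, 1], [2, 13, 15, 3], [0, 3, 14, 10]]
  P := {
    a := 7
    N := 18
    nb := [2012, 6928, 10793, 245861, 771, 40972, 17417, 1281, 4243, 2071, 16577, 12806, 2306, 34852,
      132168, 73768, 163848, 81928]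
    tri := [(0, 2, 3), (0, 2, 9), (0, 3, 6), (0, 4, 8), (0, 4, 9), (0, 6, 10), (0, 7, 8), (0, 7, 10),
      (1, 4, 8), (1, 4, 9), (1, 8, 12), (1, 9, 11), (1, 11, 12), (2, 3, 5), (2, 5, 13), (2, 9,
      11), (2, 11, 13), (3, 5, 15), (3, 6, 14), (3, 14, 17), (3, 15, 16), (3, 16, 17), (5, 13,
      15), (6, 10, 14)]
    fin := [0, 1, 0, 3, 0, 0, 0, 0, 1, 1, 10, 11, 12, 13, 3, 3, 16, 17]
    chd := [(0, 3), (0, 11), (0, 13)]
    steps := [(0, 2), (0, 4), (0, 5), (0, 6), (0, 7), (1, 8), (1, 9), (3, 15), (3, 14)] }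
  rep := [1, 11, 13, 3, 10, 0, 12, 16, 17]

noncomputable def v3694 : Cov.CovD where
  P := 3
  N := 6
  pl := [3, 5, 9, 10]
  lev := [⟨[], [], [(0, 0), (0, 5)], [4], [(0, 5, [1, 2, 3]), (1, 0, []), (2, 0, [])]⟩,
    ⟨[], [(0, 0)], [(0, 0), (0, 1)], [6], [(1, 0, []), (2, 0, []), (4, 1, [5])]⟩,
    ⟨[], [(0, 0), (0, 1), (0, 2), (0, 5), (1, 0), (1, 1)], [(0, 1), (0, 2), (1, 2)], [],
      [(2, 0, []), (4, 1, [5]), (6, 2, [5])]⟩,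
    ⟨[(0, 2)], [(0, 0), (0, 3), (0, 5), (2, 0), (2, 1), (2, 2), (2, 3)], [(3, 3)], [7, 8],
      [(7, 3, [5]), (8, 3, [5])]⟩,
    ⟨[(0, 1), (0, 2), (0, 3)], [(0, 0), (0, 5), (1, 0), (1, 1), (2, 0)], [(0, 0)], [], [(1,
      0, []), (2, 0, [])]⟩,
    ⟨[(0, 2), (0, 3), (2, 3)], [(2, 0), (2, 1), (2, 2), (2, 3), (3, 2), (3, 3)], [(2, 3)],
      [], [(6, 2, [5]), (8, 3, [5])]⟩,
    ⟨[(0, 2), (0, 3), (0, 4), (2, 3), (3, 5)], [(0, 0), (0, 3), (0, 5), (3, 3)], [], [4],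
      [(7, 3, [5])]⟩]
  Ta := [((1, 0), 0, 5), ((1, 5), 0, 6), ((2, 4), 0, 1), ((7, 3), 3, 4), ((7, 10), 3, 8), ((8,
    6), 3, 2), ((8, 9), 3, 7)]
  Tb := [((0, 1, 3), 5, 0, 4), ((1, 0, 5), 0, 5, 6), ((3, 0, 7), 4, 5, 3), ((4, 2, 5), 1, 0, 6),
    ((4, 2, 6), 1, 0, 2), ((4, 5, 6), 1, 6, 2), ((5, 1, 4), 6, 0, 1), ((6, 4, 8), 2, 1, 3),
    ((7, 3, 10), 3, 4, 8), ((8, 6, 9), 3, 2, 7), ((9, 8, 10), 7, 3, 8), ((10, 7, 9), 8, 3,
    7)]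
  Tc := [(5, 1, 2), (5, 1, 3), (5, 2, 3)]
  Td := [((1, 5), (4, 2), 0), ((1, 5), (4, 5), 6), ((1, 5), (4, 6), 2), ((2, 5), (6, 4), 1), ((2,
    5), (6, 8), 3), ((3, 5), (7, 3), 4), ((3, 5), (7, 10), 8), ((3, 5), (8, 6), 2), ((3, 5),
    (8, 9), 7), ((5, 1), (0, 1), 0), ((5, 1), (0, 3), 4), ((5, 2), (0, 1), 0), ((5, 2), (0,
    3), 4), ((5, 3), (0, 1), 0), ((5, 3), (0, 3), 4)]
  G := [[0, 0,
    0x124184524444f4322124382482f4c128828342848f8142182928188f8c5281285c28184ac744524148948f8ce,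
    0x1841444484442e54121444482482e9c8121848882844e5882842148784889c214248d48214f8214214d18218f4ce,
    0x4122126842292461cb12b283828828c93221822882688e9c1281c28d24884e9128261c28d88884e9ce],
    [0, 0,
    0x144122522624f4144124142444f4c122882388128f8122828928828f8c94414458875888c948948546875848cce,
    0x6121444344142e54141144144444e5c1888185182188ac8121388188382e9c28818248c8414f4248248144214f8ce,
    0x3241226112412268c122128922122f8828a185388928a9cc141588588188e918948145184888a9ce], [0,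
    0x612912612542f4614984914184f4ca12a4881278188c548888a18142f8a748614c18548f8244248c14a44f86e,
    0x422382522144f4422124122424f4c128182a42142f8728122348888f8c18a8928184c28f4148524c44144f8ce,
    0x4144412414482bc41244214474428cc8128485818812ac518812812818f8c248244d14244f8214248d44218f8ce,
    0x514441282128e412441282148e21428e412822b18128f8418812b12128f8c324c24814524f8324d24818524f8ce],
    [0,
    0x34234414274428c115281921454412f4c1824182982188bc11588898988818f8a9441886588c189c584188188c18f46e,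
    0x422122524422f4124124524524f4c122128922822f8122822182888f8c94448c45588184ac9484584988588bcce,
    0x415411941452414f41441192142614f4c8828125182188ac1158888182988f8c2444284584218bc244428448c8acce,
    0x124481224812428e1238828922122f8122822922a12f8c113818981898c18f8153418988194818f8ce]]

noncomputable def n3694 : Ent := ⟨e3694, noF, [], [], []⟩

def c3694 : PLift (Cov.check n3694.C.D v3694 = true) := ⟨by decide +kernel⟩

def b3694 : PLift (entF (fidx ts) 400 3694 n3694 = true) := ⟨by decide +kernel⟩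

theorem g3694 : GoodF (fidx ts) 400 3694 := GoodF.ofV v3694 n3694 c3694.down b3694.down

/-- 8568444:2747 -/
noncomputable def e3695 : SCfg where
  D := {
    a := 7
    L := 12
    kp := 9
    inn := [(0, 2), (0, 3), (0, 4), (0, 6), (1, 4), (2, 0), (2, 3), (2, 5), (3, 0), (3, 2), (3, 5), (3,
      6), (4, 0), (4, 1), (5, 2), (5, 3), (6, 0), (6, 3)]
    mix := [(0, 0), (0, 1), (0, 2), (0, 3), (1, 1), (1, 2), (1, 4), (1, 5), (2, 2), (2, 6), (2, 7), (3,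
      8), (3, 9), (3, 10), (3, 11), (4, 1), (4, 2), (5, 7), (5, 9), (6, 3), (6, 8)]
    cl := [2, 0, 0, 1, 6, 7, 5, 4, 3, 3, 8, 9]
    chq := [(2, 3), (2, 4), (2, 5), (3, 2), (4, 2), (5, 2)]
    rng := [(0, 1), (0, 3), (1, 0), (1, 5), (2, 4), (2, 6), (3, 0), (3, 8), (4, 2), (4, 5), (5, 1), (5,
      4), (6, 2), (6, 7), (7, 6), (7, 9), (8, 3), (8, 11), (9, 7), (9, 10), (10, 9), (10, 11),
      (11, 8), (11, 10)]
    lev := [] }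
  links := [[7, 8, 4, 9, 2, 3, 6, 10], [11, 9, 4, 8, 12], [0, 9, 13, 14, 5, 3], [15, 6, 0, 2, 5, 16, 17,
    18], [9, 0, 8, 1], [2, 14, 16, 3], [0, 3, 15, 10]]
  P := {
    a := 7
    N := 19
    nb := [2012, 6928, 25129, 491621, 771, 81932, 33801, 1281, 4243, 10263, 32961, 4610, 2306, 16900,
      73764, 263240, 147496, 327688, 163848]
    tri := [(0, 2, 3), (0, 2, 9), (0, 3, 6), (0, 4, 8), (0, 4, 9), (0, 6, 10), (0, 7, 8), (0, 7, 10),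
      (1, 4, 8), (1, 4, 9), (1, 8, 12), (1, 9, 11), (1, 11, 12), (2, 3, 5), (2, 5, 14), (2, 9,
      13), (2, 13, 14), (3, 5, 16), (3, 6, 15), (3, 15, 18), (3, 16, 17), (3, 17, 18), (5, 14,
      16), (6, 10, 15)]
    fin := [0, 1, 0, 3, 0, 0, 0, 0, 1, 1, 10, 11, 12, 13, 14, 3, 3, 17, 18]
    chd := [(0, 3), (0, 13), (0, 14)]
    steps := [(0, 2), (0, 4), (0, 5), (0, 6), (0, 7), (1, 8), (1, 9), (3, 16), (3, 15)] }
  rep := [1, 10, 0, 3, 14, 13, 11, 12, 17, 18]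

noncomputable def v3695 : Cov.CovD where
  P := 3
  N := 7
  pl := [3, 4, 5, 10, 11]
  lev := [⟨[], [], [(0, 0), (0, 2)], [1], [(0, 2, [3, 4, 5]), (1, 0, []), (2, 0, [])]⟩,
    ⟨[], [(0, 0)], [(0, 0)], [6, 7], [(1, 0, []), (2, 0, [])]⟩,
    ⟨[], [(0, 0), (0, 2), (0, 4), (0, 5), (1, 0)], [(0, 4), (0, 5), (4, 5)], [], [(2, 0,
      []), (6, 5, [2]), (7, 4, [2])]⟩,
    ⟨[(0, 2)], [(0, 0), (0, 2), (0, 3), (2, 0), (2, 3), (2, 4), (2, 5)], [(3, 3)], [8, 9],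
      [(8, 3, [2]), (9, 3, [2])]⟩,
    ⟨[(0, 1), (0, 2), (0, 3)], [(0, 0), (0, 2), (1, 0), (2, 0)], [(0, 0)], [], [(1, 0, []),
      (2, 0, [])]⟩,
    ⟨[(0, 2), (0, 3), (2, 3)], [(2, 0), (2, 3), (2, 4), (2, 5), (3, 3), (3, 4)], [(3, 4)],
      [], [(7, 4, [2]), (9, 3, [2])]⟩,
    ⟨[(0, 2), (0, 3), (0, 4), (2, 3), (3, 5)], [(0, 0), (0, 2), (0, 3), (3, 3)], [], [1],
      [(8, 3, [2])]⟩]
  Ta := [((1, 0), 0, 2), ((1, 5), 0, 7), ((2, 4), 0, 6), ((2, 6), 0, 5), ((8, 3), 3, 1), ((8,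
    11), 3, 9), ((9, 7), 3, 4), ((9, 10), 3, 8)]
  Tb := [((0, 1, 3), 2, 0, 1), ((1, 0, 5), 0, 2, 7), ((2, 4, 6), 0, 6, 5), ((3, 0, 8), 1, 2, 3),
    ((4, 2, 5), 6, 0, 7), ((5, 1, 4), 7, 0, 6), ((6, 2, 7), 5, 0, 4), ((7, 6, 9), 4, 5, 3),
    ((8, 3, 11), 3, 1, 9), ((9, 7, 10), 3, 4, 8), ((10, 9, 11), 8, 3, 9), ((11, 8, 10), 9, 3,
    8)]
  Tc := [(2, 3, 4), (2, 3, 5), (2, 4, 5)]
  Td := [((2, 3), (0, 1), 0), ((2, 3), (0, 3), 1), ((2, 4), (0, 1), 0), ((2, 4), (0, 3), 1), ((2,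
    5), (0, 1), 0), ((2, 5), (0, 3), 1), ((3, 2), (8, 3), 1), ((3, 2), (8, 11), 9), ((3, 2),
    (9, 7), 4), ((3, 2), (9, 10), 8), ((4, 2), (7, 6), 5), ((4, 2), (7, 9), 3), ((5, 2), (6,
    2), 0), ((5, 2), (6, 7), 4)]
  G := [[0,
    0x24822822845228922298d22c42f248222922298c482252f28a82b24822882229828922252d22c42fe4,
    0x14521c121c1211164116411c2ef14541c121c121116241a211c8ef14521c141c141116244a811a2efe8,
    0x42418946242214541247242242e82412892822828221452128b2ec,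
    0x42444432122143441a4f44a24d14444432122143211a2f44a24d443218448944432f182444a847e8], [0,
    0x44322423224122454222d2de4222248444d45244e42b423222224438a424742254418242d4fee284814a282222298218c6cc,
    0x412141441491221164411e2ed4141414141214241468141e4ef4121412141811221168144e4efe11488121a1828118881ec,
    0x128128881d4124f282212211c8128f82223124122818d4128f2e4,
    0x1224122111b41434b1244144142cf1244422124844b41438f1421462cd42241241284241432f1441468148ede8],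
    [0,
    0x225422298222982292c1822c2fe2182229828858229848c822c8fe22542212222c8289248c22458fee4, 0,
    0x42218946242848c412472422145812272e824128928288282882ec,
    0x443444434189414921892f4144e145244434189214384432f4184e44344143491244941438f44984ee8],
    [0,
    0x423222224434a422742252412824d4fe44342443422258418222d87e423422452414242d876e2292828232222948a6c,
    0, 0x124128118d2124f2122122141d2122f2822828841d8128f2e4,
    0x1162441472811b4414b21432f1224e1162444472111b8814b41432f4224e1164444474111b4414b21438f1284ee148881488814888ec]]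

noncomputable def n3695 : Ent := ⟨e3695, noF, [], [], [(11, 13, [31810581956886802631879007680466073893347095227328116986532284714703052801, 0])]⟩

def c3695 : PLift (Cov.check n3695.C.D v3695 = true) := ⟨by decide +kernel⟩

def b3695 : PLift (entF (fidx ts) 400 3695 n3695 = true) := ⟨by decide +kernel⟩

theorem g3695 : GoodF (fidx ts) 400 3695 := GoodF.ofV v3695 n3695 c3695.down b3695.down

/-- 6766444:2749/1 -/
noncomputable def e3696 : SCfg where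
  D := {
    a := 7
    L := 10
    kp := 7
    inn := [(0, 1), (0, 5), (1, 0), (1, 2), (1, 3), (1, 6), (2, 1), (2, 3), (2, 4), (3, 1), (3, 2), (3,
      4), (4, 2), (4, 3), (5, 0), (6, 1)]
    mix := [(0, 0), (0, 1), (0, 2), (0, 3), (1, 0), (1, 3), (1, 4), (2, 0), (2, 5), (2, 6), (3, 4), (3,
      7), (3, 8), (4, 6), (4, 7), (5, 1), (5, 2), (5, 8), (6, 3), (6, 4), (6, 9)]
    cl := [0, 1, 2, 1, 0, 6, 3, 4, 5, 7]
    chq := [(0, 3), (0, 4), (3, 0), (4, 0)]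
    rng := [(0, 1), (0, 5), (1, 0), (1, 8), (2, 3), (2, 8), (3, 2), (3, 9), (4, 8), (4, 9), (5, 0), (5,
      6), (6, 5), (6, 7), (7, 6), (7, 8), (8, 1), (8, 2), (8, 4), (8, 7), (9, 3), (9, 4)]
    lev := [] }
  links := [[1, 7, 8, 5, 9, 10], [3, 2, 7, 0, 10, 6, 11], [12, 7, 1, 3, 4, 13], [14, 4, 2, 1, 11, 15],
    [2, 3, 14, 13], [0, 8, 15, 9], [1, 10, 16, 11]]
  P := {
    a := 7
    N := 17
    nb := [1954, 3277, 12442, 51222, 24588, 33537, 68610, 4359, 32929, 33825, 66115, 98378, 8324,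
      20500, 40984, 19240, 3136]
    tri := [(0, 1, 7), (0, 1, 10), (0, 5, 8), (0, 5, 9), (0, 7, 8), (0, 9, 10), (1, 2, 3), (1, 2, 7),
      (1, 3, 11), (1, 6, 10), (1, 6, 11), (2, 3, 4), (2, 4, 13), (2, 7, 12), (2, 12, 13), (3, 4,
      14), (3, 11, 15), (3, 14, 15), (4, 13, 14), (5, 8, 15), (5, 9, 15), (6, 10, 16), (6, 11,
      16)]
    fin := [0, 1, 1, 1, 1, 0, 1, 1, 0, 9, 0, 1, 12, 13, 14, 15, 16]
    chd := [(1, 13), (1, 14)]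
    steps := [(0, 5), (0, 8), (0, 10), (1, 2), (1, 3), (1, 4), (1, 6), (1, 7), (1, 11)] }
  rep := [1, 0, 9, 13, 14, 15, 12, 16]

noncomputable def v3696 : Cov.CovD where
  P := 3
  N := 5
  pl := [2, 5, 8, 9]
  lev := [⟨[], [], [(0, 1), (1, 1)], [2], [(0, 0, [3, 4]), (1, 1, []), (3, 1, [])]⟩,
    ⟨[], [(0, 0), (0, 1)], [(0, 0), (0, 1)], [], [(0, 0, [3, 4]), (3, 1, []), (4, 0, [3,
      4])]⟩,
    ⟨[(0, 1)], [(0, 0), (1, 0), (1, 1), (1, 3)], [(0, 3)], [6], [(0, 0, [3, 4]), (6, 3,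
      [0])]⟩,
    ⟨[(0, 1), (1, 2)], [(1, 0), (1, 1), (1, 4), (2, 0), (2, 3), (2, 4)], [(0, 4)], [5],
      [(4, 0, [3, 4]), (7, 4, [0])]⟩,
    ⟨[(1, 2), (1, 3), (2, 3)], [(2, 0), (2, 3), (2, 4), (3, 0), (3, 3), (3, 4)], [(3, 4)],
      [], [(6, 3, [0]), (7, 4, [0])]⟩,
    ⟨[(0, 1)], [(0, 0), (0, 1)], [], [2, 5], [(1, 1, [])]⟩,
    ⟨[(0, 1), (1, 2), (1, 3)], [(0, 1), (1, 0), (1, 1), (3, 0)], [(0, 1)], [7], [(3, 1,
      []), (4, 0, [3, 4])]⟩]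
  Ta := [((0, 1), 0, 1), ((0, 5), 0, 6), ((1, 0), 1, 0), ((1, 8), 1, 5), ((3, 2), 1, 2), ((3, 9),
    1, 7), ((4, 8), 0, 5), ((4, 9), 0, 7)]
  Tb := [((0, 1, 5), 0, 1, 6), ((1, 0, 8), 1, 0, 5), ((2, 3, 8), 2, 1, 5), ((3, 2, 9), 1, 2, 7),
    ((4, 8, 9), 0, 5, 7), ((5, 0, 6), 6, 0, 3), ((6, 5, 7), 3, 6, 4), ((7, 6, 8), 4, 3, 5),
    ((8, 1, 2), 5, 1, 2), ((8, 1, 4), 5, 1, 0), ((8, 1, 7), 5, 1, 4), ((8, 2, 4), 5, 2, 0),
    ((8, 2, 7), 5, 2, 4), ((8, 4, 7), 5, 0, 4), ((9, 3, 4), 7, 1, 0)]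
  Tc := [(0, 3, 4)]
  Td := [((0, 3), (0, 1), 1), ((0, 3), (0, 5), 6), ((0, 3), (4, 8), 5), ((0, 3), (4, 9), 7), ((0,
    4), (0, 1), 1), ((0, 4), (0, 5), 6), ((0, 4), (4, 8), 5), ((0, 4), (4, 9), 7), ((3, 0),
    (6, 5), 6), ((3, 0), (6, 7), 4), ((4, 0), (7, 6), 3), ((4, 0), (7, 8), 5)]
  G := [[0, 0x64414681a416ac1ea81aac1a681a41aac2dec8, 0x24122c1618114122c1e28124122c2de28188c4,
    0, 0x21414281111211e181211a181211212dec8], [0, 0, 0x1211216121c243121141121ee12188c4,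
    0x141111614111166111c18318181118ec8, 0x12111164111c2831218121111121eec8], [0, 0,
    0x2414428124122c1e28122c1a28124122c1eec8, 0, 0x214212612812291211e2812291a2812291cec8],
    [0, 0, 0x42124242c45c21c2838212188141cc2c2c828c22efc844418c,
    0x41124c112111811ac8c8ccc92adc81c4c4185414c414a18182cd,
    0xc2129818c21821cc841c818c22ef44214c21c2164214e89]]

noncomputable def n3696 : Ent := ⟨e3696, noF, [], [], []⟩

def c3696 : PLift (Cov.check n3696.C.D v3696 = true) := ⟨by decide +kernel⟩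

def b3696 : PLift (entF (fidx ts) 400 3696 n3696 = true) := ⟨by decide +kernel⟩

theorem g3696 : GoodF (fidx ts) 400 3696 := GoodF.ofV v3696 n3696 c3696.down b3696.down

/-- 6766444:2749/2 -/
noncomputable def e3697 : SCfg where
  D := {
    a := 7
    L := 10
    kp := 7
    inn := [(0, 1), (0, 5), (1, 0), (1, 2), (1, 3), (1, 6), (2, 1), (2, 3), (2, 4), (3, 1), (3, 2), (3,
      4), (4, 2), (4, 3), (5, 0), (6, 1)]
    mix := [(0, 0), (0, 1), (0, 2), (0, 3), (1, 0), (1, 3), (1, 4), (2, 0), (2, 5), (2, 6), (3, 4), (3,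
      7), (3, 8), (4, 6), (4, 7), (5, 1), (5, 2), (5, 7), (6, 3), (6, 4), (6, 9)]
    cl := [0, 1, 4, 1, 0, 5, 3, 2, 6, 7]
    chq := [(0, 2), (0, 3), (2, 0), (3, 0)]
    rng := [(0, 1), (0, 5), (1, 0), (1, 7), (2, 3), (2, 7), (3, 2), (3, 9), (4, 8), (4, 9), (5, 0), (5,
      6), (6, 5), (6, 7), (7, 1), (7, 2), (7, 6), (7, 8), (8, 4), (8, 7), (9, 3), (9, 4)]
    lev := [] }
  links := [[1, 7, 8, 5, 9, 10], [3, 2, 7, 0, 10, 6, 11], [12, 7, 1, 3, 4, 13], [14, 4, 2, 1, 11, 15],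
    [2, 3, 14, 13], [0, 8, 14, 9], [1, 10, 16, 11]]
  P := {
    a := 7
    N := 17
    nb := [1954, 3277, 12442, 51222, 24588, 17153, 68610, 4359, 16545, 17441, 66115, 98378, 8324,
      20500, 41784, 18440, 3136]
    tri := [(0, 1, 7), (0, 1, 10), (0, 5, 8), (0, 5, 9), (0, 7, 8), (0, 9, 10), (1, 2, 3), (1, 2, 7),
      (1, 3, 11), (1, 6, 10), (1, 6, 11), (2, 3, 4), (2, 4, 13), (2, 7, 12), (2, 12, 13), (3, 4,
      14), (3, 11, 15), (3, 14, 15), (4, 13, 14), (5, 8, 14), (5, 9, 14), (6, 10, 16), (6, 11,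
      16)]
    fin := [0, 1, 1, 1, 1, 0, 1, 1, 0, 9, 0, 1, 12, 13, 14, 15, 16]
    chd := [(1, 13), (1, 14)]
    steps := [(0, 5), (0, 8), (0, 10), (1, 2), (1, 3), (1, 4), (1, 6), (1, 7), (1, 11)] }
  rep := [1, 0, 14, 13, 9, 12, 15, 16]

noncomputable def v3697 : Cov.CovD where
  P := 3
  N := 5
  pl := [2, 5, 8, 9]
  lev := [⟨[], [], [(0, 1), (1, 1)], [4], [(0, 0, [2, 3]), (1, 1, []), (3, 1, [])]⟩,
    ⟨[], [(0, 0), (0, 1)], [(0, 0), (0, 1)], [], [(0, 0, [2, 3]), (3, 1, []), (4, 0, [2,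
      3])]⟩,
    ⟨[(0, 1)], [(0, 0), (1, 0), (1, 1), (1, 3)], [(0, 3)], [5], [(0, 0, [2, 3]), (6, 3,
      [0])]⟩,
    ⟨[(0, 1), (1, 2)], [(1, 0), (1, 1), (1, 2), (2, 0), (2, 2), (2, 3)], [(0, 2)], [6],
      [(4, 0, [2, 3]), (7, 2, [0])]⟩,
    ⟨[(1, 2), (1, 3), (2, 3)], [(2, 0), (2, 2), (2, 3), (3, 0), (3, 2), (3, 3)], [(2, 3)],
      [], [(6, 3, [0]), (7, 2, [0])]⟩,
    ⟨[(0, 1)], [(0, 0), (0, 1), (0, 2), (3, 2), (4, 2)], [(1, 2)], [4], [(1, 1, []), (7, 2,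
      [0])]⟩,
    ⟨[(0, 1), (1, 2), (1, 3)], [(0, 1), (1, 0), (1, 1), (3, 0)], [(0, 1)], [7], [(3, 1,
      []), (4, 0, [2, 3])]⟩]
  Ta := [((0, 1), 0, 1), ((0, 5), 0, 5), ((1, 0), 1, 0), ((1, 7), 1, 2), ((3, 2), 1, 4), ((3, 9),
    1, 7), ((4, 8), 0, 6), ((4, 9), 0, 7)]
  Tb := [((0, 1, 5), 0, 1, 5), ((1, 0, 7), 1, 0, 2), ((2, 3, 7), 4, 1, 2), ((3, 2, 9), 1, 4, 7),
    ((4, 8, 9), 0, 6, 7), ((5, 0, 6), 5, 0, 3), ((6, 5, 7), 3, 5, 2), ((7, 1, 2), 2, 1, 4),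
    ((7, 1, 6), 2, 1, 3), ((7, 1, 8), 2, 1, 6), ((7, 2, 6), 2, 4, 3), ((7, 2, 8), 2, 4, 6),
    ((7, 6, 8), 2, 3, 6), ((8, 4, 7), 6, 0, 2), ((9, 3, 4), 7, 1, 0)]
  Tc := [(0, 2, 3)]
  Td := [((0, 2), (0, 1), 1), ((0, 2), (0, 5), 5), ((0, 2), (4, 8), 6), ((0, 2), (4, 9), 7), ((0,
    3), (0, 1), 1), ((0, 3), (0, 5), 5), ((0, 3), (4, 8), 6), ((0, 3), (4, 9), 7), ((2, 0),
    (7, 1), 1), ((2, 0), (7, 2), 4), ((2, 0), (7, 6), 3), ((2, 0), (7, 8), 6), ((3, 0), (6,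
    5), 5), ((3, 0), (6, 7), 2)]
  G := [[0, 0xa881c841c81c81ce26481c441c41c41ce2c, 0x284218282e1421241118114a1cc,
    0x2141428812128c1ac24412421c1621818cc, 0x21812828a12821e42121a121216229818cc], [0, 0,
    0x184188182e14114118142e18c, 0, 0xc881111181ac821e41112121121ac121e11188cc], [0, 0,
    0x112288284e14112114218e18c, 0x284121812828c288cdc844162414214241c241241ce21188cc,
    0x281281a281281a211281ae42121212121229a2121aab4c], [0, 0, 0x184118182e14114118122e18c, 0,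
    0x122181a188188ac8c8ac8c8aa7442124131c11a411c21ae8282a828a1cc21884d]]

noncomputable def n3697 : Ent := ⟨e3697, noF, [], [], []⟩

def c3697 : PLift (Cov.check n3697.C.D v3697 = true) := ⟨by decide +kernel⟩

def b3697 : PLift (entF (fidx ts) 400 3697 n3697 = true) := ⟨by decide +kernel⟩

theorem g3697 : GoodF (fidx ts) 400 3697 := GoodF.ofV v3697 n3697 c3697.down b3697.down

/-- 6766444:2749 -/
noncomputable def e3698 : SCfg where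
  D := {
    a := 7
    L := 11
    kp := 8
    inn := [(0, 1), (0, 5), (1, 0), (1, 2), (1, 3), (1, 6), (2, 1), (2, 3), (2, 4), (3, 1), (3, 2), (3,
      4), (4, 2), (4, 3), (5, 0), (6, 1)]
    mix := [(0, 0), (0, 1), (0, 2), (0, 3), (1, 0), (1, 3), (1, 4), (2, 0), (2, 5), (2, 6), (3, 4), (3,
      7), (3, 8), (4, 6), (4, 7), (5, 1), (5, 2), (5, 9), (6, 3), (6, 4), (6, 10)]
    cl := [0, 1, 2, 1, 0, 5, 3, 4, 6, 7, 8]
    chq := [(0, 3), (0, 4), (3, 0), (4, 0)]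
    rng := [(0, 1), (0, 5), (1, 0), (1, 9), (2, 3), (2, 9), (3, 2), (3, 10), (4, 8), (4, 10), (5, 0),
      (5, 6), (6, 5), (6, 7), (7, 6), (7, 8), (8, 4), (8, 7), (9, 1), (9, 2), (10, 3), (10, 4)]
    lev := [] }
  links := [[1, 7, 8, 5, 9, 10], [3, 2, 7, 0, 10, 6, 11], [12, 7, 1, 3, 4, 13], [14, 4, 2, 1, 11, 15],
    [2, 3, 14, 13], [0, 8, 16, 9], [1, 10, 17, 11]]
  P := {
    a := 7
    N := 18
    nb := [1954, 3277, 12442, 51222, 24588, 66305, 134146, 4359, 65697, 66593, 131651, 163914, 8324,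
      20500, 40984, 18440, 800, 3136]
    tri := [(0, 1, 7), (0, 1, 10), (0, 5, 8), (0, 5, 9), (0, 7, 8), (0, 9, 10), (1, 2, 3), (1, 2, 7),
      (1, 3, 11), (1, 6, 10), (1, 6, 11), (2, 3, 4), (2, 4, 13), (2, 7, 12), (2, 12, 13), (3, 4,
      14), (3, 11, 15), (3, 14, 15), (4, 13, 14), (5, 8, 16), (5, 9, 16), (6, 10, 17), (6, 11,
      17)]
    fin := [0, 1, 1, 1, 1, 0, 1, 1, 0, 9, 0, 1, 12, 13, 14, 15, 16, 17]
    chd := [(1, 13), (1, 14)]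
    steps := [(0, 5), (0, 8), (0, 10), (1, 2), (1, 3), (1, 4), (1, 6), (1, 7), (1, 11)] }
  rep := [1, 0, 9, 13, 14, 12, 15, 16, 17]

noncomputable def v3698 : Cov.CovD where
  P := 3
  N := 6
  pl := [2, 5, 8, 9, 10]
  lev := [⟨[], [], [(0, 1), (1, 1)], [2], [(0, 0, [3, 4]), (1, 1, []), (3, 1, [])]⟩,
    ⟨[], [(0, 0), (0, 1)], [(0, 0), (0, 1)], [], [(0, 0, [3, 4]), (3, 1, []), (4, 0, [3,
      4])]⟩,
    ⟨[(0, 1)], [(0, 0), (1, 0), (1, 1), (1, 3)], [(0, 3)], [5], [(0, 0, [3, 4]), (6, 3,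
      [0])]⟩,
    ⟨[(0, 1), (1, 2)], [(1, 0), (1, 1), (1, 4), (2, 0), (2, 3), (2, 4)], [(0, 4)], [6],
      [(4, 0, [3, 4]), (7, 4, [0])]⟩,
    ⟨[(1, 2), (1, 3), (2, 3)], [(2, 0), (2, 3), (2, 4), (3, 0), (3, 3), (3, 4)], [(3, 4)],
      [], [(6, 3, [0]), (7, 4, [0])]⟩,
    ⟨[(0, 1)], [(0, 0), (0, 1)], [], [2, 7], [(1, 1, [])]⟩,
    ⟨[(0, 1), (1, 2), (1, 3)], [(0, 1), (1, 0), (1, 1), (3, 0)], [(0, 1)], [8], [(3, 1,
      []), (4, 0, [3, 4])]⟩]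
  Ta := [((0, 1), 0, 1), ((0, 5), 0, 5), ((1, 0), 1, 0), ((1, 9), 1, 7), ((3, 2), 1, 2), ((3,
    10), 1, 8), ((4, 8), 0, 6), ((4, 10), 0, 8)]
  Tb := [((0, 1, 5), 0, 1, 5), ((1, 0, 9), 1, 0, 7), ((2, 3, 9), 2, 1, 7), ((3, 2, 10), 1, 2, 8),
    ((4, 8, 10), 0, 6, 8), ((5, 0, 6), 5, 0, 3), ((6, 5, 7), 3, 5, 4), ((7, 6, 8), 4, 3, 6),
    ((8, 4, 7), 6, 0, 4), ((9, 1, 2), 7, 1, 2), ((10, 3, 4), 8, 1, 0)]
  Tc := [(0, 3, 4)]
  Td := [((0, 3), (0, 1), 1), ((0, 3), (0, 5), 5), ((0, 3), (4, 8), 6), ((0, 3), (4, 10), 8),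
    ((0, 4), (0, 1), 1), ((0, 4), (0, 5), 5), ((0, 4), (4, 8), 6), ((0, 4), (4, 10), 8), ((3,
    0), (6, 5), 5), ((3, 0), (6, 7), 4), ((4, 0), (7, 6), 3), ((4, 0), (7, 8), 6)]
  G := [[0, 0xc6c16ac252cac66c6cce1ccc1ccc1ccc4bccc18ea4,
    0x22c121c122c8711c122c1a11c112c122c2de11c14468, 0,
    0x21414219112912298721911291a229112912291ee18144e8], [0, 0,
    0x1214121121121e121121121ee121121a8c4, 0x115111c1611c111911191e115111c111c1ee119188c4,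
    0x12144121121121e121121a121121121eec8], [0, 0,
    0x2444122c122c1622c122c1a22c122c1c22c822c2afc281448c, 0,
    0x21441229122912291e22912291a22912291c22922fc2814489], [0, 0,
    0xc21921c8218c21121ae4421121ac21442c242ec2c2c2e678c,
    0x41144516445445445e459891ccc16885188c1acc519851ccc58ccc2afc44518851c48c,
    0x82182168218c21821cc28c22af44214216421c21c21e4214e89]]

noncomputable def n3698 : Ent := ⟨e3698, noF, [], [], [(16, 15, [7334790850167413569773436004105379185503274260204390087403942019792897, 0]), (16, 14, [7334685589297762428874426903420482469988158645819485339342058438463489, 0])]⟩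

def c3698 : PLift (Cov.check n3698.C.D v3698 = true) := ⟨by decide +kernel⟩

def b3698 : PLift (entF (fidx ts) 400 3698 n3698 = true) := ⟨by decide +kernel⟩

theorem g3698 : GoodF (fidx ts) 400 3698 := GoodF.ofV v3698 n3698 c3698.down b3698.down

/-- 856644:2750/1 -/
noncomputable def e3699 : SCfg where
  D := {
    a := 6
    L := 10
    kp := 7
    inn := [(0, 2), (0, 3), (0, 4), (1, 4), (2, 0), (2, 3), (2, 5), (3, 0), (3, 2), (3, 5), (4, 0), (4,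
      1), (5, 2), (5, 3)]
    mix := [(0, 0), (0, 1), (0, 2), (0, 3), (0, 4), (1, 1), (1, 2), (1, 5), (1, 6), (2, 2), (2, 5), (2,
      7), (3, 3), (3, 8), (3, 9), (4, 1), (4, 2), (5, 7), (5, 8)]
    cl := [4, 0, 0, 0, 5, 2, 6, 3, 1, 7]
    chq := [(0, 1), (1, 0), (1, 2), (2, 1)]
    rng := [(0, 1), (0, 4), (1, 0), (1, 6), (2, 5), (3, 4), (3, 9), (4, 0), (4, 3), (5, 2), (5, 6), (5,
      7), (6, 1), (6, 5), (7, 5), (7, 8), (8, 7), (8, 9), (9, 3), (9, 8)]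
    lev := [] }
  links := [[6, 7, 4, 8, 2, 3, 9, 10], [11, 8, 4, 7, 12], [0, 8, 11, 13, 5, 3], [0, 2, 5, 14, 15, 9], [8,
    0, 7, 1], [2, 13, 14, 3]]
  P := {
    a := 6
    N := 16
    nb := [2012, 6544, 10537, 49701, 387, 24588, 1153, 4179, 2071, 33801, 577, 12550, 2178, 18468,
      41000, 16904]
    tri := [(0, 2, 3), (0, 2, 8), (0, 3, 9), (0, 4, 7), (0, 4, 8), (0, 6, 7), (0, 6, 10), (0, 9, 10),
      (1, 4, 7), (1, 4, 8), (1, 7, 12), (1, 8, 11), (1, 11, 12), (2, 3, 5), (2, 5, 13), (2, 8,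
      11), (2, 11, 13), (3, 5, 14), (3, 9, 15), (3, 14, 15), (5, 13, 14)]
    fin := [0, 0, 2, 0, 0, 2, 6, 0, 0, 0, 10, 2, 12, 13, 14, 15]
    chd := [(0, 14), (2, 14)]
    steps := [(0, 3), (0, 4), (0, 1), (0, 7), (0, 8), (0, 9), (2, 5), (2, 11)] }
  rep := [0, 14, 2, 13, 6, 10, 12, 15]

noncomputable def v3699 : Cov.CovD where
  P := 3
  N := 5
  pl := [0, 4, 6, 7, 9]
  lev := [⟨[], [], [(0, 0)], [4, 5], [(1, 0, [1]), (2, 0, [1]), (3, 0, [1])]⟩,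
    ⟨[], [(0, 0)], [(0, 0), (0, 2)], [6], [(1, 0, [1]), (2, 0, [1]), (5, 2, [1])]⟩,
    ⟨[], [(0, 0), (0, 2), (1, 0), (1, 2)], [(0, 2)], [3], [(2, 0, [1]), (5, 2, [1])]⟩,
    ⟨[(0, 2)], [(0, 0), (0, 1), (2, 0), (2, 1), (2, 2)], [(0, 1)], [7], [(3, 0, [1]), (8,
      1, [0, 2])]⟩,
    ⟨[(0, 1), (0, 2), (0, 3)], [(0, 0), (1, 0), (1, 2), (2, 0)], [(0, 0)], [], [(1, 0,
      [1]), (2, 0, [1])]⟩,
    ⟨[(0, 2), (0, 3), (2, 3)], [(2, 0), (2, 1), (2, 2), (3, 0), (3, 1)], [], [3], [(8, 1,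
      [0, 2])]⟩]
  Ta := [((1, 0), 0, 4), ((1, 6), 0, 6), ((2, 5), 0, 2), ((3, 4), 0, 5), ((3, 9), 0, 7)]
  Tb := [((0, 1, 4), 4, 0, 5), ((1, 0, 6), 0, 4, 6), ((3, 4, 9), 0, 5, 7), ((4, 0, 3), 5, 4, 0),
    ((5, 2, 6), 2, 0, 6), ((5, 2, 7), 2, 0, 3), ((5, 6, 7), 2, 6, 3), ((6, 1, 5), 6, 0, 2),
    ((7, 5, 8), 3, 2, 1), ((8, 7, 9), 1, 3, 7), ((9, 3, 8), 7, 0, 1)]
  Tc := [(1, 0, 2)]
  Td := [((0, 1), (1, 0), 4), ((0, 1), (1, 6), 6), ((0, 1), (2, 5), 2), ((0, 1), (3, 4), 5), ((0,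
    1), (3, 9), 7), ((1, 0), (8, 7), 3), ((1, 0), (8, 9), 7), ((1, 2), (8, 7), 3), ((1, 2),
    (8, 9), 7), ((2, 1), (5, 2), 0), ((2, 1), (5, 6), 6), ((2, 1), (5, 7), 3)]
  G := [[0, 0xc262616264c1c18822a2c962a8a1c62c4a1a4c461ce, 0, 0x2414829228188252841481c2e,
    0x441c21a441c41aa481c81a841441aa841481a881481aae], [0,
    0xa4626164a8c1ca264a1a2c261ca8c461c4c8a1ce,
    0x481841644184166881421a8811218c6c821842141418c2ee, 0x241142c2182281c2881241c2e,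
    0x441c21a421c21aa821421a881481aa841481a841481aae], [0,
    0x1424222c964a2c1ca4a8a162c2a1ca464c168c4a1ce, 0, 0x48288252842182c22424c2424c52e,
    0x5442c4282c35484c4448c3a8298c4888c31888c4418caa4488c1414ca4458c8844c3ae]]

noncomputable def n3699 : Ent := ⟨e3699, noF, [], [], []⟩

def c3699 : PLift (Cov.check n3699.C.D v3699 = true) := ⟨by decide +kernel⟩

def b3699 : PLift (entF (fidx ts) 400 3699 n3699 = true) := ⟨by decide +kernel⟩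

theorem g3699 : GoodF (fidx ts) 400 3699 := GoodF.ofV v3699 n3699 c3699.down b3699.down

/-- 856644:2750 -/
noncomputable def e3700 : SCfg where
  D := {
    a := 6
    L := 11
    kp := 8
    inn := [(0, 2), (0, 3), (0, 4), (1, 4), (2, 0), (2, 3), (2, 5), (3, 0), (3, 2), (3, 5), (4, 0), (4,
      1), (5, 2), (5, 3)]
    mix := [(0, 0), (0, 1), (0, 2), (0, 3), (0, 4), (1, 1), (1, 2), (1, 5), (1, 6), (2, 2), (2, 7), (2,
      8), (3, 3), (3, 9), (3, 10), (4, 1), (4, 2), (5, 8), (5, 9)]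
    cl := [2, 0, 0, 0, 5, 6, 7, 4, 3, 1, 8]
    chq := [(0, 1), (1, 0), (1, 4), (4, 1)]
    rng := [(0, 1), (0, 4), (1, 0), (1, 6), (2, 5), (2, 7), (3, 4), (3, 10), (4, 0), (4, 3), (5, 2),
      (5, 6), (6, 1), (6, 5), (7, 2), (7, 8), (8, 7), (8, 9), (9, 8), (9, 10), (10, 3), (10, 9)]
    lev := [] }
  links := [[6, 7, 4, 8, 2, 3, 9, 10], [11, 8, 4, 7, 12], [0, 8, 13, 14, 5, 3], [0, 2, 5, 15, 16, 9], [8,
    0, 7, 1], [2, 14, 15, 3]]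
  P := {
    a := 6
    N := 17
    nb := [2012, 6544, 24873, 98853, 387, 49164, 1153, 4179, 10263, 66569, 577, 4354, 2178, 16644,
      40996, 81960, 33288]
    tri := [(0, 2, 3), (0, 2, 8), (0, 3, 9), (0, 4, 7), (0, 4, 8), (0, 6, 7), (0, 6, 10), (0, 9, 10),
      (1, 4, 7), (1, 4, 8), (1, 7, 12), (1, 8, 11), (1, 11, 12), (2, 3, 5), (2, 5, 14), (2, 8,
      13), (2, 13, 14), (3, 5, 15), (3, 9, 16), (3, 15, 16), (5, 14, 15)]
    fin := [0, 0, 2, 0, 0, 2, 6, 0, 0, 0, 10, 11, 12, 2, 14, 15, 16]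
    chd := [(0, 15), (2, 15)]
    steps := [(0, 3), (0, 4), (0, 1), (0, 7), (0, 8), (0, 9), (2, 5), (2, 13)] }
  rep := [0, 15, 6, 14, 2, 10, 11, 12, 16]

noncomputable def v3700 : Cov.CovD where
  P := 3
  N := 6
  pl := [0, 4, 5, 6, 8, 10]
  lev := [⟨[], [], [(0, 0)], [2, 5], [(1, 0, [1]), (2, 0, [1]), (3, 0, [1])]⟩,
    ⟨[], [(0, 0)], [(0, 0)], [6, 7], [(1, 0, [1]), (2, 0, [1])]⟩,
    ⟨[], [(0, 0), (0, 4), (1, 0)], [(0, 4)], [3], [(2, 0, [1]), (7, 4, [1])]⟩,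
    ⟨[(0, 2)], [(0, 0), (0, 1), (2, 0), (2, 1), (2, 4)], [(0, 1)], [8], [(3, 0, [1]), (9,
      1, [0, 4])]⟩,
    ⟨[(0, 1), (0, 2), (0, 3)], [(0, 0), (1, 0), (2, 0)], [(0, 0)], [], [(1, 0, [1]), (2, 0,
      [1])]⟩,
    ⟨[(0, 2), (0, 3), (2, 3)], [(2, 0), (2, 1), (2, 4), (3, 0), (3, 1)], [], [3], [(9, 1,
      [0, 4])]⟩]
  Ta := [((1, 0), 0, 2), ((1, 6), 0, 7), ((2, 5), 0, 6), ((2, 7), 0, 4), ((3, 4), 0, 5), ((3,
    10), 0, 8)]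
  Tb := [((0, 1, 4), 2, 0, 5), ((1, 0, 6), 0, 2, 7), ((2, 5, 7), 0, 6, 4), ((3, 4, 10), 0, 5, 8),
    ((4, 0, 3), 5, 2, 0), ((5, 2, 6), 6, 0, 7), ((6, 1, 5), 7, 0, 6), ((7, 2, 8), 4, 0, 3),
    ((8, 7, 9), 3, 4, 1), ((9, 8, 10), 1, 3, 8), ((10, 3, 9), 8, 0, 1)]
  Tc := [(1, 0, 4)]
  Td := [((0, 1), (1, 0), 2), ((0, 1), (1, 6), 7), ((0, 1), (2, 5), 6), ((0, 1), (2, 7), 4), ((0,
    1), (3, 4), 5), ((0, 1), (3, 10), 8), ((1, 0), (9, 8), 3), ((1, 0), (9, 10), 8), ((1, 4),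
    (9, 8), 3), ((1, 4), (9, 10), 8), ((4, 1), (7, 2), 0), ((4, 1), (7, 8), 3)]
  G := [[0, 0xc4646164c2c164c8c1ea2a2c1a2c261a2c861ec,
    0x8214442c38814242c3c812ec212881c81a4218488c3e4284c142144884c1ee,
    0x8414442c38414244c3c814288c3e4418888c3881821c81e881881c41eec,
    0x421821c21e8414244c3421481c81ee841421c41e881481c41e841441c81eea], [0,
    0x62a4c164a2c162c4a1e62c4a1a2c8a1a26861ec, 0,
    0x421421c41e421881c21e421441c41ee841881c81e481821c21e481881c81eec,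
    0x441421c21e421421c81e421421c81ee8814211414ce881421c41e881481c41eea], [0,
    0x64a2a16464a162c2c1e68c2a1a86861a2a461ec, 0,
    0x5444c4282c35282c4448c35242c4284c3e4892c8882c38292c4288c34492c8282c3ec,
    0x5284c4242c35248c4288c35288c4442c3e2484c8488c4244cb8844289884c8244cf4428c4488cc444cbea]]

noncomputable def n3700 : Ent := ⟨e3700, noF, [], [], [(11, 13, [1685382419725355503238989871268909155780284044704628512909414576129, 0])]⟩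

def c3700 : PLift (Cov.check n3700.C.D v3700 = true) := ⟨by decide +kernel⟩

def b3700 : PLift (entF (fidx ts) 400 3700 n3700 = true) := ⟨by decide +kernel⟩

theorem g3700 : GoodF (fidx ts) 400 3700 := GoodF.ofV v3700 n3700 c3700.down b3700.down

/-- 68844444:2751/2 -/
noncomputable def e3701 : SCfg where
  D := {
    a := 8
    L := 10
    kp := 7
    inn := [(0, 1), (0, 2), (0, 3), (1, 0), (1, 2), (1, 3), (1, 5), (1, 6), (2, 0), (2, 1), (2, 4), (2,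
      7), (3, 0), (3, 1), (4, 2), (5, 1), (6, 1), (7, 2)]
    mix := [(0, 0), (0, 1), (0, 2), (1, 3), (1, 4), (1, 5), (2, 0), (2, 5), (2, 6), (2, 7), (3, 2), (3,
      3), (4, 0), (4, 6), (4, 8), (5, 3), (5, 4), (5, 8), (6, 4), (6, 5), (6, 9), (7, 5), (7, 7),
      (7, 9)]
    cl := [3, 7, 2, 0, 1, 0, 4, 3, 5, 6]
    chq := [(0, 1), (0, 3), (0, 7), (1, 0), (3, 0), (7, 0)]
    rng := [(0, 1), (0, 8), (1, 0), (1, 2), (2, 1), (2, 3), (3, 2), (3, 8), (4, 8), (4, 9), (5, 9), (6,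
      7), (6, 8), (7, 6), (7, 9), (8, 0), (8, 3), (8, 4), (8, 6), (9, 4), (9, 5), (9, 7)]
    lev := [] }
  links := [[8, 9, 10, 3, 1, 2], [2, 0, 3, 11, 5, 12, 6, 13], [14, 4, 8, 0, 1, 13, 7, 15], [0, 10, 11,
    1], [8, 2, 14, 16], [1, 11, 16, 12], [1, 12, 17, 13], [2, 13, 17, 15]]
  P := {
    a := 8
    N := 18
    nb := [1806, 14445, 57747, 3075, 82180, 71682, 143362, 172036, 66069, 1281, 2569, 66602, 196706,
      131270, 98324, 147588, 22832, 45248]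
    tri := [(0, 1, 2), (0, 1, 3), (0, 2, 8), (0, 3, 10), (0, 8, 9), (0, 9, 10), (1, 2, 13), (1, 3, 11),
      (1, 5, 11), (1, 5, 12), (1, 6, 12), (1, 6, 13), (2, 4, 8), (2, 4, 14), (2, 7, 13), (2, 7,
      15), (2, 14, 15), (3, 10, 11), (4, 8, 16), (4, 14, 16), (5, 11, 16), (5, 12, 16), (6, 12,
      17), (6, 13, 17), (7, 13, 17), (7, 15, 17)]
    fin := [0, 1, 2, 0, 2, 1, 1, 2, 2, 0, 10, 1, 12, 1, 14, 2, 16, 17]
    chd := [(0, 1), (1, 12), (2, 1)]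
    steps := [(0, 3), (0, 9), (1, 5), (1, 6), (1, 11), (1, 13), (2, 4), (2, 7), (2, 8), (2, 15)] }
  rep := [1, 12, 10, 2, 14, 16, 17, 0]

noncomputable def v3701 : Cov.CovD where
  P := 3
  N := 5
  pl := [2, 6, 8, 9]
  lev := [⟨[], [], [(3, 7)], [2], [(0, 3, [0]), (1, 7, [0])]⟩,
    ⟨[], [(0, 0), (0, 1), (0, 3), (0, 7)], [(0, 0), (0, 1)], [], [(3, 0, [1, 3, 7]), (4, 1,
      [0]), (5, 0, [1, 3, 7])]⟩,
    ⟨[(0, 1)], [(0, 0), (0, 3), (0, 7), (1, 0), (1, 1), (1, 3)], [(0, 3), (3, 3)], [4],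
      [(0, 3, [0]), (5, 0, [1, 3, 7]), (7, 3, [0])]⟩,
    ⟨[(0, 1), (0, 2), (1, 2)], [(0, 0), (0, 3), (0, 7), (1, 0), (1, 1)], [], [2], [(3, 0,
      [1, 3, 7])]⟩,
    ⟨[(0, 2), (1, 2)], [(0, 3), (2, 0), (2, 3)], [], [4, 5], [(0, 3, [0])]⟩,
    ⟨[(0, 1), (1, 2), (1, 3)], [(1, 0), (1, 1), (3, 0)], [(0, 1)], [5], [(3, 0, [1, 3, 7]),
      (4, 1, [0])]⟩,
    ⟨[(0, 1), (1, 2), (1, 3), (1, 5)], [(1, 0), (1, 1), (2, 0), (5, 1)], [(0, 1)], [6],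
      [(4, 1, [0]), (5, 0, [1, 3, 7])]⟩,
    ⟨[(0, 2), (1, 2), (2, 4)], [(1, 0), (2, 0), (2, 3), (6, 0)], [(0, 3)], [6], [(5, 0, [1,
      3, 7]), (7, 3, [0])]⟩]
  Ta := [((0, 1), 3, 7), ((0, 8), 3, 5), ((3, 2), 0, 2), ((3, 8), 0, 5), ((5, 9), 0, 6), ((7, 6),
    3, 4), ((7, 9), 3, 6)]
  Tb := [((0, 1, 8), 3, 7, 5), ((1, 0, 2), 7, 3, 2), ((2, 1, 3), 2, 7, 0), ((3, 2, 8), 0, 2, 5),
    ((4, 8, 9), 1, 5, 6), ((6, 7, 8), 4, 3, 5), ((7, 6, 9), 3, 4, 6), ((8, 0, 3), 5, 3, 0),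
    ((8, 0, 4), 5, 3, 1), ((8, 0, 6), 5, 3, 4), ((8, 3, 4), 5, 0, 1), ((8, 3, 6), 5, 0, 4),
    ((8, 4, 6), 5, 1, 4), ((9, 4, 5), 6, 1, 0), ((9, 4, 7), 6, 1, 3), ((9, 5, 7), 6, 0, 3)]
  Tc := [(0, 1, 3), (0, 1, 7), (0, 3, 7)]
  Td := [((0, 1), (3, 2), 2), ((0, 1), (3, 8), 5), ((0, 1), (5, 9), 6), ((0, 3), (3, 2), 2), ((0,
    3), (3, 8), 5), ((0, 3), (5, 9), 6), ((0, 7), (3, 2), 2), ((0, 7), (3, 8), 5), ((0, 7),
    (5, 9), 6), ((1, 0), (4, 8), 5), ((1, 0), (4, 9), 6), ((3, 0), (0, 1), 7), ((3, 0), (0,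
    8), 5), ((3, 0), (7, 6), 4), ((3, 0), (7, 9), 6), ((7, 0), (1, 0), 3), ((7, 0), (1, 2),
    2)]
  G := [[0, 0x126814a498416212a838a826411c254461,
    0x21442412561c1221821898418414418b2ec21421452a141a181a81481458182ae218828c814818818744448414414b2c1c1c18ace,
    0xa14c1854461861498c1c1c21838ac1, 0xa14c1852c1c1c214326618614988c1], [0,
    0x1264116264126116618116811c4c4e81,
    0x1298129832a146185264125412a1418a881c4485854411c81294c14d88ce,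
    0x618e1c1ca42182144181ce4611c88694e14e88c1, 0x61881c4e18e2411c8a14e14e86181294c2ac1], [0,
    0x826411c2544416811629814c284c838ac1, 0, 0x244488182c15c84c124c134624c824c1988c1,
    0x82c484c15284c184c132624c824c1988c1], [0, 0x116281a43811a11aa1811c811a4c8e41, 0,
    0x24c1a4c1a424c1a2c4c4684c1425124178811c8c1,
    0x8811844881184424c112424182c186c1e224c182c1441e8acb]]

noncomputable def n3701 : Ent := ⟨e3701, noF, [], [], []⟩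

def c3701 : PLift (Cov.check n3701.C.D v3701 = true) := ⟨by decide +kernel⟩

def b3701 : PLift (entF (fidx ts) 400 3701 n3701 = true) := ⟨by decide +kernel⟩

theorem g3701 : GoodF (fidx ts) 400 3701 := GoodF.ofV v3701 n3701 c3701.down b3701.down

/-- 68844444:2751/1 -/
noncomputable def e3702 : SCfg where
  D := {
    a := 8
    L := 11
    kp := 8
    inn := [(0, 1), (0, 2), (0, 3), (1, 0), (1, 2), (1, 3), (1, 5), (1, 6), (2, 0), (2, 1), (2, 4), (2,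
      7), (3, 0), (3, 1), (4, 2), (5, 1), (6, 1), (7, 2)]
    mix := [(0, 0), (0, 1), (0, 2), (1, 3), (1, 4), (1, 5), (2, 0), (2, 5), (2, 6), (2, 7), (3, 2), (3,
      3), (4, 0), (4, 6), (4, 8), (5, 3), (5, 4), (5, 8), (6, 4), (6, 5), (6, 9), (7, 5), (7, 7),
      (7, 10)]
    cl := [3, 6, 2, 0, 1, 0, 4, 3, 5, 7, 8]
    chq := [(0, 1), (0, 3), (0, 6), (1, 0), (3, 0), (6, 0)]
    rng := [(0, 1), (0, 8), (1, 0), (1, 2), (2, 1), (2, 3), (3, 2), (3, 8), (4, 8), (4, 9), (5, 9), (5,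
      10), (6, 7), (6, 8), (7, 6), (7, 10), (8, 0), (8, 3), (8, 4), (8, 6), (9, 4), (9, 5), (10,
      5), (10, 7)]
    lev := [] }
  links := [[8, 9, 10, 3, 1, 2], [2, 0, 3, 11, 5, 12, 6, 13], [14, 4, 8, 0, 1, 13, 7, 15], [0, 10, 11,
    1], [8, 2, 14, 16], [1, 11, 16, 12], [1, 12, 17, 13], [2, 13, 18, 15]]
  P := {
    a := 8
    N := 19
    nb := [1806, 14445, 57747, 3075, 82180, 71682, 143362, 303108, 66069, 1281, 2569, 66602, 196706,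
      393414, 98324, 278660, 22832, 12352, 41088]
    tri := [(0, 1, 2), (0, 1, 3), (0, 2, 8), (0, 3, 10), (0, 8, 9), (0, 9, 10), (1, 2, 13), (1, 3, 11),
      (1, 5, 11), (1, 5, 12), (1, 6, 12), (1, 6, 13), (2, 4, 8), (2, 4, 14), (2, 7, 13), (2, 7,
      15), (2, 14, 15), (3, 10, 11), (4, 8, 16), (4, 14, 16), (5, 11, 16), (5, 12, 16), (6, 12,
      17), (6, 13, 17), (7, 13, 18), (7, 15, 18)]
    fin := [0, 1, 2, 0, 2, 1, 1, 2, 2, 0, 10, 1, 12, 1, 14, 2, 16, 17, 18]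
    chd := [(0, 1), (1, 12), (2, 1)]
    steps := [(0, 3), (0, 9), (1, 5), (1, 6), (1, 11), (1, 13), (2, 4), (2, 7), (2, 8), (2, 15)] }
  rep := [1, 12, 10, 2, 14, 16, 0, 17, 18]

noncomputable def v3702 : Cov.CovD where
  P := 3
  N := 6
  pl := [2, 6, 8, 9, 10]
  lev := [⟨[], [], [(3, 6)], [2], [(0, 3, [0]), (1, 6, [0])]⟩,
    ⟨[], [(0, 0), (0, 1), (0, 3), (0, 6)], [(0, 0), (0, 1)], [], [(3, 0, [1, 3, 6]), (4, 1,
      [0]), (5, 0, [1, 3, 6])]⟩,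
    ⟨[(0, 1)], [(0, 0), (0, 3), (0, 6), (1, 0), (1, 1), (1, 3)], [(0, 3), (3, 3)], [4],
      [(0, 3, [0]), (5, 0, [1, 3, 6]), (7, 3, [0])]⟩,
    ⟨[(0, 1), (0, 2), (1, 2)], [(0, 0), (0, 3), (0, 6), (1, 0), (1, 1)], [], [2], [(3, 0,
      [1, 3, 6])]⟩,
    ⟨[(0, 2), (1, 2)], [(0, 3), (2, 0), (2, 3)], [], [4, 5], [(0, 3, [0])]⟩,
    ⟨[(0, 1), (1, 2), (1, 3)], [(1, 0), (1, 1), (3, 0)], [(0, 1)], [5], [(3, 0, [1, 3, 6]),
      (4, 1, [0])]⟩,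
    ⟨[(0, 1), (1, 2), (1, 3), (1, 5)], [(1, 0), (1, 1), (2, 0), (5, 1)], [(0, 1)], [7],
      [(4, 1, [0]), (5, 0, [1, 3, 6])]⟩,
    ⟨[(0, 2), (1, 2), (2, 4)], [(1, 0), (2, 0), (2, 3), (6, 0)], [(0, 3)], [8], [(5, 0, [1,
      3, 6]), (7, 3, [0])]⟩]
  Ta := [((0, 1), 3, 6), ((0, 8), 3, 5), ((3, 2), 0, 2), ((3, 8), 0, 5), ((5, 9), 0, 7), ((5,
    10), 0, 8), ((7, 6), 3, 4), ((7, 10), 3, 8)]
  Tb := [((0, 1, 8), 3, 6, 5), ((1, 0, 2), 6, 3, 2), ((2, 1, 3), 2, 6, 0), ((3, 2, 8), 0, 2, 5),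
    ((4, 8, 9), 1, 5, 7), ((5, 9, 10), 0, 7, 8), ((6, 7, 8), 4, 3, 5), ((7, 6, 10), 3, 4, 8),
    ((8, 0, 3), 5, 3, 0), ((8, 0, 4), 5, 3, 1), ((8, 0, 6), 5, 3, 4), ((8, 3, 4), 5, 0, 1),
    ((8, 3, 6), 5, 0, 4), ((8, 4, 6), 5, 1, 4), ((9, 4, 5), 7, 1, 0), ((10, 5, 7), 8, 0, 3)]
  Tc := [(0, 1, 3), (0, 1, 6), (0, 3, 6)]
  Td := [((0, 1), (3, 2), 2), ((0, 1), (3, 8), 5), ((0, 1), (5, 9), 7), ((0, 1), (5, 10), 8),
    ((0, 3), (3, 2), 2), ((0, 3), (3, 8), 5), ((0, 3), (5, 9), 7), ((0, 3), (5, 10), 8), ((0,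
    6), (3, 2), 2), ((0, 6), (3, 8), 5), ((0, 6), (5, 9), 7), ((0, 6), (5, 10), 8), ((1, 0),
    (4, 8), 5), ((1, 0), (4, 9), 7), ((3, 0), (0, 1), 6), ((3, 0), (0, 8), 5), ((3, 0), (7,
    6), 4), ((3, 0), (7, 10), 8), ((6, 0), (1, 0), 3), ((6, 0), (1, 2), 2)]
  G := [[0, 0x11641162541162116438611a811a2988c1,
    0x2144446161c1221821892418414418b2ec21421452a1a1c1281481881472e218828c814484418414414b881881832c1c1c18ece,
    0xa14a1854c141c1c1c2c6618614988c1, 0xa14618524618a1492c1c1ca1432ac1], [0,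
    0x11a411c26811a11aa1811c811a498e41,
    0x18412188121a9418861872e41441214882c81441414811c4c18d411c444e11c8184988ce,
    0x61811ad4e18e461811c4c46a14e14c18788c1, 0xe1811c4e18e2a144e188a6a14c1e1c688c1], [0,
    0x11c411685411c2116834611c81162988c1, 0, 0xaac4acc154ccc166c134666c1ccc1988c1,
    0xaac1a6c152466c1a6c198ccc1ccc132ac1], [0, 0x11611661411681162a4116811c4c4e81, 0,
    0xa6c1c6c16cc1b4eec1aac1c46a8a45eec1688c1, 0xe4e89ccc1a24e8e45ccc168c18a14eec1d2ac1]]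

noncomputable def n3702 : Ent := ⟨e3702, noF, [], [], [(17, 18, [30043303427623734937691929578474300150491519007939870628445900451936161793, 0])]⟩

def c3702 : PLift (Cov.check n3702.C.D v3702 = true) := ⟨by decide +kernel⟩

def b3702 : PLift (entF (fidx ts) 400 3702 n3702 = true) := ⟨by decide +kernel⟩

theorem g3702 : GoodF (fidx ts) 400 3702 := GoodF.ofV v3702 n3702 c3702.down b3702.down

/-- 68844444:2751/3 -/
noncomputable def e3703 : SCfg where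
  D := {
    a := 8
    L := 11
    kp := 8
    inn := [(0, 1), (0, 2), (0, 3), (1, 0), (1, 2), (1, 3), (1, 5), (1, 6), (2, 0), (2, 1), (2, 4), (2,
      7), (3, 0), (3, 1), (4, 2), (5, 1), (6, 1), (7, 2)]
    mix := [(0, 0), (0, 1), (0, 2), (1, 3), (1, 4), (1, 5), (2, 0), (2, 5), (2, 6), (2, 7), (3, 2), (3,
      3), (4, 0), (4, 6), (4, 8), (5, 3), (5, 4), (5, 9), (6, 4), (6, 5), (6, 10), (7, 5), (7, 7),
      (7, 10)]
    cl := [3, 6, 2, 0, 1, 0, 4, 3, 7, 8, 5]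
    chq := [(0, 1), (0, 3), (0, 6), (1, 0), (3, 0), (6, 0)]
    rng := [(0, 1), (0, 8), (1, 0), (1, 2), (2, 1), (2, 3), (3, 2), (3, 9), (4, 9), (4, 10), (5, 10),
      (6, 7), (6, 8), (7, 6), (7, 10), (8, 0), (8, 6), (9, 3), (9, 4), (10, 4), (10, 5), (10, 7)]
    lev := [] }
  links := [[8, 9, 10, 3, 1, 2], [2, 0, 3, 11, 5, 12, 6, 13], [14, 4, 8, 0, 1, 13, 7, 15], [0, 10, 11,
    1], [8, 2, 14, 16], [1, 11, 17, 12], [1, 12, 18, 13], [2, 13, 18, 15]]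
  P := {
    a := 8
    N := 19
    nb := [1806, 14445, 57747, 3075, 82180, 137218, 274434, 303108, 66069, 1281, 2569, 132138, 393314,
      262342, 98324, 278660, 16656, 6176, 45248]
    tri := [(0, 1, 2), (0, 1, 3), (0, 2, 8), (0, 3, 10), (0, 8, 9), (0, 9, 10), (1, 2, 13), (1, 3, 11),
      (1, 5, 11), (1, 5, 12), (1, 6, 12), (1, 6, 13), (2, 4, 8), (2, 4, 14), (2, 7, 13), (2, 7,
      15), (2, 14, 15), (3, 10, 11), (4, 8, 16), (4, 14, 16), (5, 11, 17), (5, 12, 17), (6, 12,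
      18), (6, 13, 18), (7, 13, 18), (7, 15, 18)]
    fin := [0, 1, 2, 0, 2, 1, 1, 2, 2, 0, 10, 1, 12, 1, 14, 2, 16, 17, 18]
    chd := [(0, 1), (1, 12), (2, 1)]
    steps := [(0, 3), (0, 9), (1, 5), (1, 6), (1, 11), (1, 13), (2, 4), (2, 7), (2, 8), (2, 15)] }
  rep := [1, 12, 10, 2, 14, 18, 0, 16, 17]

noncomputable def v3703 : Cov.CovD where
  P := 3
  N := 6
  pl := [2, 6, 8, 9, 10]
  lev := [⟨[], [], [(3, 6)], [2], [(0, 3, [0]), (1, 6, [0])]⟩,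
    ⟨[], [(0, 0), (0, 1), (0, 3), (0, 6)], [(0, 0), (0, 1)], [], [(3, 0, [1, 3, 6]), (4, 1,
      [0]), (5, 0, [1, 3, 6])]⟩,
    ⟨[(0, 1)], [(0, 0), (0, 3), (0, 6), (1, 0), (1, 1), (1, 3)], [(0, 3), (3, 3)], [4],
      [(0, 3, [0]), (5, 0, [1, 3, 6]), (7, 3, [0])]⟩,
    ⟨[(0, 1), (0, 2), (1, 2)], [(0, 0), (0, 3), (0, 6), (1, 0), (1, 1)], [], [2], [(3, 0,
      [1, 3, 6])]⟩,
    ⟨[(0, 2), (1, 2)], [(0, 3), (2, 0), (2, 3)], [], [4, 7], [(0, 3, [0])]⟩,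
    ⟨[(0, 1), (1, 2), (1, 3)], [(1, 0), (1, 1), (3, 0)], [(0, 1)], [8], [(3, 0, [1, 3, 6]),
      (4, 1, [0])]⟩,
    ⟨[(0, 1), (1, 2), (1, 3), (1, 5)], [(1, 0), (1, 1), (2, 0), (5, 1)], [(0, 1)], [5],
      [(4, 1, [0]), (5, 0, [1, 3, 6])]⟩,
    ⟨[(0, 2), (1, 2), (2, 4)], [(1, 0), (2, 0), (2, 3), (6, 0)], [(0, 3)], [5], [(5, 0, [1,
      3, 6]), (7, 3, [0])]⟩]
  Ta := [((0, 1), 3, 6), ((0, 8), 3, 7), ((3, 2), 0, 2), ((3, 9), 0, 8), ((5, 10), 0, 5), ((7,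
    6), 3, 4), ((7, 10), 3, 5)]
  Tb := [((0, 1, 8), 3, 6, 7), ((1, 0, 2), 6, 3, 2), ((2, 1, 3), 2, 6, 0), ((3, 2, 9), 0, 2, 8),
    ((4, 9, 10), 1, 8, 5), ((6, 7, 8), 4, 3, 7), ((7, 6, 10), 3, 4, 5), ((8, 0, 6), 7, 3, 4),
    ((9, 3, 4), 8, 0, 1), ((10, 4, 5), 5, 1, 0), ((10, 4, 7), 5, 1, 3), ((10, 5, 7), 5, 0,
    3)]
  Tc := [(0, 1, 3), (0, 1, 6), (0, 3, 6)]
  Td := [((0, 1), (3, 2), 2), ((0, 1), (3, 9), 8), ((0, 1), (5, 10), 5), ((0, 3), (3, 2), 2),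
    ((0, 3), (3, 9), 8), ((0, 3), (5, 10), 5), ((0, 6), (3, 2), 2), ((0, 6), (3, 9), 8), ((0,
    6), (5, 10), 5), ((1, 0), (4, 9), 8), ((1, 0), (4, 10), 5), ((3, 0), (0, 1), 6), ((3, 0),
    (0, 8), 7), ((3, 0), (7, 6), 4), ((3, 0), (7, 10), 5), ((6, 0), (1, 0), 3), ((6, 0), (1,
    2), 2)]
  G := [[0, 0x221844e84a416698181214e148822e38a142218e11a84c654461,
    0x214214214d2444242448472186161c52218218981441c4181441cb884c88c24c8c8fc21421454214a1a1c928181c8188c8181c7482c42424ccc4f218218218d8888489c8118c8188c8181c74c181cc1482c42274141c4141c4441cb882c8289ce,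
    0xa1a1ca1a1c5446161ca161c98849c1c485c1c38ac1,
    0xa1a1ca161c52485c1cc1c1c3266161ca161c928c1], [0,
    0x11611661261266382121814e121418e94141218e121814e54ca1,
    0x11c129c4214c149c12561c32a4125129c82185185c21c4326821818511ccc114ccd4411c149c214185c1cd882c8489ce,
    0x144244421c1a5185ce1149cd4c31c149c21411c81cd86161ca1a1cc11e8ac1,
    0x2141a598c8144c6118cf2434c169c1421c14cc1cd821491c94944d11ce1c78ac1], [0,
    0x141812e11a41a654124488e448822e346141218e48624c6988a1, 0,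
    0x82c182c15484c124c134624c182c1988c1, 0x82c124c152424c184c19284c184c132ac1], [0,
    0x121418e121418e342181214e11a11c698181214e11641ac54ca1, 0,
    0xa4c184c1a424c1a2c1e2c1d4624186c184c1e88c1, 0xa4c1281a4c1e2486c186c162e2c186c1c8ac1]]

noncomputable def n3703 : Ent := ⟨e3703, noF, [], [], [(17, 16, [31810581851548793677511941751458610980409781099126250235727204310992769025, 0])]⟩

def c3703 : PLift (Cov.check n3703.C.D v3703 = true) := ⟨by decide +kernel⟩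

def b3703 : PLift (entF (fidx ts) 400 3703 n3703 = true) := ⟨by decide +kernel⟩

theorem g3703 : GoodF (fidx ts) 400 3703 := GoodF.ofV v3703 n3703 c3703.down b3703.down

/-- 68844444:2751 -/
noncomputable def e3704 : SCfg where
  D := {
    a := 8
    L := 12
    kp := 9
    inn := [(0, 1), (0, 2), (0, 3), (1, 0), (1, 2), (1, 3), (1, 5), (1, 6), (2, 0), (2, 1), (2, 4), (2,
      7), (3, 0), (3, 1), (4, 2), (5, 1), (6, 1), (7, 2)]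
    mix := [(0, 0), (0, 1), (0, 2), (1, 3), (1, 4), (1, 5), (2, 0), (2, 5), (2, 6), (2, 7), (3, 2), (3,
      3), (4, 0), (4, 6), (4, 8), (5, 3), (5, 4), (5, 9), (6, 4), (6, 5), (6, 10), (7, 5), (7, 7),
      (7, 11)]
    cl := [3, 5, 2, 0, 1, 0, 4, 3, 6, 7, 8, 9]
    chq := [(0, 1), (0, 3), (0, 5), (1, 0), (3, 0), (5, 0)]
    rng := [(0, 1), (0, 8), (1, 0), (1, 2), (2, 1), (2, 3), (3, 2), (3, 9), (4, 9), (4, 10), (5, 10),
      (5, 11), (6, 7), (6, 8), (7, 6), (7, 11), (8, 0), (8, 6), (9, 3), (9, 4), (10, 4), (10, 5),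
      (11, 5), (11, 7)]
    lev := [] }
  links := [[8, 9, 10, 3, 1, 2], [2, 0, 3, 11, 5, 12, 6, 13], [14, 4, 8, 0, 1, 13, 7, 15], [0, 10, 11,
    1], [8, 2, 14, 16], [1, 11, 17, 12], [1, 12, 18, 13], [2, 13, 19, 15]]
  P := {
    a := 8
    N := 20
    nb := [1806, 14445, 57747, 3075, 82180, 137218, 274434, 565252, 66069, 1281, 2569, 132138, 393314,
      786630, 98324, 540804, 16656, 6176, 12352, 41088]
    tri := [(0, 1, 2), (0, 1, 3), (0, 2, 8), (0, 3, 10), (0, 8, 9), (0, 9, 10), (1, 2, 13), (1, 3, 11),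
      (1, 5, 11), (1, 5, 12), (1, 6, 12), (1, 6, 13), (2, 4, 8), (2, 4, 14), (2, 7, 13), (2, 7,
      15), (2, 14, 15), (3, 10, 11), (4, 8, 16), (4, 14, 16), (5, 11, 17), (5, 12, 17), (6, 12,
      18), (6, 13, 18), (7, 13, 19), (7, 15, 19)]
    fin := [0, 1, 2, 0, 2, 1, 1, 2, 2, 0, 10, 1, 12, 1, 14, 2, 16, 17, 18, 19]
    chd := [(0, 1), (1, 12), (2, 1)]
    steps := [(0, 3), (0, 9), (1, 5), (1, 6), (1, 11), (1, 13), (2, 4), (2, 7), (2, 8), (2, 15)] }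
  rep := [1, 12, 10, 2, 14, 0, 16, 17, 18, 19]

noncomputable def v3704 : Cov.CovD where
  P := 3
  N := 7
  pl := [2, 6, 8, 9, 10, 11]
  lev := [⟨[], [], [(3, 5)], [2], [(0, 3, [0]), (1, 5, [0])]⟩,
    ⟨[], [(0, 0), (0, 1), (0, 3), (0, 5)], [(0, 0), (0, 1)], [], [(3, 0, [1, 3, 5]), (4, 1,
      [0]), (5, 0, [1, 3, 5])]⟩,
    ⟨[(0, 1)], [(0, 0), (0, 3), (0, 5), (1, 0), (1, 1), (1, 3)], [(0, 3), (3, 3)], [4],
      [(0, 3, [0]), (5, 0, [1, 3, 5]), (7, 3, [0])]⟩,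
    ⟨[(0, 1), (0, 2), (1, 2)], [(0, 0), (0, 3), (0, 5), (1, 0), (1, 1)], [], [2], [(3, 0,
      [1, 3, 5])]⟩,
    ⟨[(0, 2), (1, 2)], [(0, 3), (2, 0), (2, 3)], [], [4, 6], [(0, 3, [0])]⟩,
    ⟨[(0, 1), (1, 2), (1, 3)], [(1, 0), (1, 1), (3, 0)], [(0, 1)], [7], [(3, 0, [1, 3, 5]),
      (4, 1, [0])]⟩,
    ⟨[(0, 1), (1, 2), (1, 3), (1, 5)], [(1, 0), (1, 1), (2, 0), (5, 1)], [(0, 1)], [8],
      [(4, 1, [0]), (5, 0, [1, 3, 5])]⟩,
    ⟨[(0, 2), (1, 2), (2, 4)], [(1, 0), (2, 0), (2, 3), (6, 0)], [(0, 3)], [9], [(5, 0, [1,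
      3, 5]), (7, 3, [0])]⟩]
  Ta := [((0, 1), 3, 5), ((0, 8), 3, 6), ((3, 2), 0, 2), ((3, 9), 0, 7), ((5, 10), 0, 8), ((5,
    11), 0, 9), ((7, 6), 3, 4), ((7, 11), 3, 9)]
  Tb := [((0, 1, 8), 3, 5, 6), ((1, 0, 2), 5, 3, 2), ((2, 1, 3), 2, 5, 0), ((3, 2, 9), 0, 2, 7),
    ((4, 9, 10), 1, 7, 8), ((5, 10, 11), 0, 8, 9), ((6, 7, 8), 4, 3, 6), ((7, 6, 11), 3, 4,
    9), ((8, 0, 6), 6, 3, 4), ((9, 3, 4), 7, 0, 1), ((10, 4, 5), 8, 1, 0), ((11, 5, 7), 9, 0,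
    3)]
  Tc := [(0, 1, 3), (0, 1, 5), (0, 3, 5)]
  Td := [((0, 1), (3, 2), 2), ((0, 1), (3, 9), 7), ((0, 1), (5, 10), 8), ((0, 1), (5, 11), 9),
    ((0, 3), (3, 2), 2), ((0, 3), (3, 9), 7), ((0, 3), (5, 10), 8), ((0, 3), (5, 11), 9),
    ((0, 5), (3, 2), 2), ((0, 5), (3, 9), 7), ((0, 5), (5, 10), 8), ((0, 5), (5, 11), 9),
    ((1, 0), (4, 9), 7), ((1, 0), (4, 10), 8), ((3, 0), (0, 1), 5), ((3, 0), (0, 8), 6), ((3,
    0), (7, 6), 4), ((3, 0), (7, 11), 9), ((5, 0), (1, 0), 3), ((5, 0), (1, 2), 2)]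
  G := [[0, 0x1161166116116658411a11aa11a11aa94141218e141218e38ac1,
    0x214214214d4c448252186161c52218218924141c4141c4141cb8a6c68c22c8c8fc21421452214a1a1c9281418181c8181c8187a22c4a4ccccc4f218218218d8a88429c8181c8181c8181c7264c6cc2254141c4141c4141cb8c141c181cc8824bce,
    0xa1a1c61a1c5446161cc161c98c1c1cc161c38ac1, 0xa1a1cc1c1c5246161c61c1c92c1c1cc161c32ac1],
    [0, 0x116116611611666411a11c6141218e54121418e121814ec4e81,
    0x11c18c42188121821c11c149ce1149c7248842f41441212511cc828441411cca14b2a4488f81441411cce111ccd4a4488511c169c11cc1c91884ceac28c489ce,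
    0xe1e1ce1e1ca44e1e1c1c9e1c68e1e1ce1e1c148e8ac1,
    0xe111ccc1c1c618b24614a1e1ce1c1ce2e1e1ca1e1c214d8ac1], [0,
    0x11611661161166382181214e141218e98121418e181214e54ca1, 0,
    0xaac1aac154ccc1a6c134666c1a6c1988c1, 0xaac1c6c152466c16ac198ccc1a6c138ac1], [0,
    0x141812e141812e382121418e121814e98121814e121814e54c61, 0,
    0xeec1eec1a44eec1eec168eec1eec1c8ac1, 0xeec1eec1a24eec1eec162eec1eec1c8ac1]]

noncomputable def n3704 : Ent := ⟨e3704, noF, [], [], [(17, 16, [137534916551164530859168056639568349186738516571547296047091608213707850997761, 0]), (18, 19, [130296143695408343586455050064352370635079224267853574415018227909354223792129, 0])]⟩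

def c3704 : PLift (Cov.check n3704.C.D v3704 = true) := ⟨by decide +kernel⟩

def b3704 : PLift (entF (fidx ts) 400 3704 n3704 = true) := ⟨by decide +kernel⟩

theorem g3704 : GoodF (fidx ts) 400 3704 := GoodF.ofV v3704 n3704 c3704.down b3704.down

/-- 68844444:2752/1 -/
noncomputable def e3705 : SCfg where
  D := {
    a := 8
    L := 11
    kp := 8
    inn := [(0, 1), (0, 2), (0, 3), (1, 0), (1, 2), (1, 3), (1, 5), (1, 6), (2, 0), (2, 1), (2, 4), (2,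
      7), (3, 0), (3, 1), (4, 2), (5, 1), (6, 1), (7, 2)]
    mix := [(0, 0), (0, 1), (0, 2), (1, 3), (1, 4), (1, 5), (2, 0), (2, 5), (2, 6), (2, 7), (3, 2), (3,
      3), (4, 0), (4, 6), (4, 8), (5, 3), (5, 4), (5, 9), (6, 4), (6, 5), (6, 10), (7, 6), (7, 7),
      (7, 9)]
    cl := [1, 6, 2, 0, 3, 0, 4, 1, 7, 5, 8]
    chq := [(0, 3), (0, 6), (1, 4), (3, 0), (4, 1), (6, 0)]
    rng := [(0, 1), (0, 8), (1, 0), (1, 2), (2, 1), (2, 3), (3, 2), (3, 9), (4, 9), (4, 10), (5, 7),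
      (5, 10), (6, 8), (6, 9), (7, 5), (7, 9), (8, 0), (8, 6), (9, 3), (9, 4), (9, 6), (9, 7),
      (10, 4), (10, 5)]
    lev := [] }
  links := [[8, 9, 10, 3, 1, 2], [2, 0, 3, 11, 5, 12, 6, 13], [14, 4, 8, 0, 1, 13, 15, 7], [0, 10, 11,
    1], [8, 2, 14, 16], [1, 11, 17, 12], [1, 12, 18, 13], [2, 15, 17, 14]]
  P := {
    a := 8
    N := 19
    nb := [1806, 14445, 57747, 3075, 82180, 137218, 274434, 180228, 66069, 1281, 2569, 132138, 393314,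
      294982, 196756, 139396, 16656, 55456, 12352]
    tri := [(0, 1, 2), (0, 1, 3), (0, 2, 8), (0, 3, 10), (0, 8, 9), (0, 9, 10), (1, 2, 13), (1, 3, 11),
      (1, 5, 11), (1, 5, 12), (1, 6, 12), (1, 6, 13), (2, 4, 8), (2, 4, 14), (2, 7, 14), (2, 7,
      15), (2, 13, 15), (3, 10, 11), (4, 8, 16), (4, 14, 16), (5, 11, 17), (5, 12, 17), (6, 12,
      18), (6, 13, 18), (7, 14, 17), (7, 15, 17)]
    fin := [0, 1, 2, 0, 2, 1, 1, 2, 2, 0, 10, 1, 12, 1, 14, 2, 16, 17, 18]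
    chd := [(0, 1), (1, 12), (2, 14)]
    steps := [(0, 3), (0, 9), (1, 5), (1, 6), (1, 11), (1, 13), (2, 4), (2, 7), (2, 8), (2, 15)] }
  rep := [1, 2, 10, 12, 14, 17, 0, 16, 18]

noncomputable def v3705 : Cov.CovD where
  P := 3
  N := 6
  pl := [2, 8, 9, 10]
  lev := [⟨[], [], [(1, 6)], [2], [(0, 1, [4]), (1, 6, [0])]⟩,
    ⟨[], [(0, 0), (0, 1), (0, 3), (0, 6)], [(0, 0), (0, 3)], [], [(3, 0, [3, 6]), (4, 3,
      [0]), (5, 0, [3, 6])]⟩,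
    ⟨[(0, 1)], [(0, 0), (0, 1), (0, 4), (0, 6), (1, 0), (1, 1), (1, 3), (1, 4)], [(0, 1),
      (0, 4), (1, 1), (1, 4)], [], [(0, 1, [4]), (5, 0, [3, 6]), (6, 4, [1]), (7, 1, [4])]⟩,
    ⟨[(0, 1), (0, 2), (1, 2)], [(0, 0), (0, 1), (0, 6), (1, 0), (1, 3)], [], [2], [(3, 0,
      [3, 6])]⟩,
    ⟨[(0, 2), (1, 2)], [(0, 1), (2, 0), (2, 1), (2, 4)], [(1, 4)], [7], [(0, 1, [4]), (6,
      4, [1])]⟩,
    ⟨[(0, 1), (1, 2), (1, 3)], [(1, 0), (1, 3), (3, 0)], [(0, 3)], [5], [(3, 0, [3, 6]),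
      (4, 3, [0])]⟩,
    ⟨[(0, 1), (1, 2), (1, 3), (1, 5)], [(1, 0), (1, 3), (2, 0), (5, 3)], [(0, 3)], [8],
      [(4, 3, [0]), (5, 0, [3, 6])]⟩,
    ⟨[(0, 2), (1, 2), (2, 4)], [(2, 0), (2, 1), (2, 4), (4, 4)], [(1, 4)], [5], [(6, 4,
      [1]), (7, 1, [4])]⟩]
  Ta := [((0, 1), 1, 6), ((0, 8), 1, 7), ((3, 2), 0, 2), ((3, 9), 0, 5), ((5, 7), 0, 1), ((5,
    10), 0, 8), ((7, 5), 1, 0), ((7, 9), 1, 5)]
  Tb := [((0, 1, 8), 1, 6, 7), ((1, 0, 2), 6, 1, 2), ((2, 1, 3), 2, 6, 0), ((3, 2, 9), 0, 2, 5),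
    ((4, 9, 10), 3, 5, 8), ((5, 7, 10), 0, 1, 8), ((6, 8, 9), 4, 7, 5), ((7, 5, 9), 1, 0, 5),
    ((8, 0, 6), 7, 1, 4), ((9, 3, 4), 5, 0, 3), ((9, 3, 6), 5, 0, 4), ((9, 3, 7), 5, 0, 1),
    ((9, 4, 6), 5, 3, 4), ((9, 4, 7), 5, 3, 1), ((9, 6, 7), 5, 4, 1), ((10, 4, 5), 8, 3, 0)]
  Tc := [(0, 3, 6)]
  Td := [((0, 3), (3, 2), 2), ((0, 3), (3, 9), 5), ((0, 3), (5, 7), 1), ((0, 3), (5, 10), 8),
    ((0, 6), (3, 2), 2), ((0, 6), (3, 9), 5), ((0, 6), (5, 7), 1), ((0, 6), (5, 10), 8), ((1,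
    4), (0, 1), 6), ((1, 4), (0, 8), 7), ((1, 4), (7, 5), 0), ((1, 4), (7, 9), 5), ((3, 0),
    (4, 9), 5), ((3, 0), (4, 10), 8), ((4, 1), (6, 8), 7), ((4, 1), (6, 9), 5), ((6, 0), (1,
    0), 1), ((6, 0), (1, 2), 2)]
  G := [[0, 0,
    0x414214414d4242268452181121c528181189222c28226e22c8c8d11214212312112d428284de414114542141111c9222c42442c22ec2d218818818d82822a429212c12112d81121822c244dec,
    0xa121236e1141c54432c61c2121c988262d2112d298312215d254ce1,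
    0x3121c225245c52422c269c112112e9882652199298333d2229258ce1], [0, 0,
    0x1111a2441d1624c28151a241191628c2818911411e111141ed441151c418161111cd81121848448dce,
    0x193844c41538744119411498182c8155288a81c115d2b8111d5628ce1,
    0x8185141c118b2441488c119c114788811d5a28111d24464115d278ce1], [0, 0, 0,
    0x3822c311c154423c33c32211c398822a118223982432311c12358ce1,
    0x3232c311c15242223c311621c39883822321a1982432322c12358ce1], [0,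
    0x22823142eaae118228211ecce11888811eeea4e1142ceee118226118caccc1844ccc1484461446168acd,
    0, 0x1211c3d5c164411c11219c5a888818cd2b2414123446411c12374ce1,
    0x11c111c152488c51a54d228d81e12811c123416c2511c12378ce1]]

noncomputable def n3705 : Ent := ⟨e3705, noF, [], [], []⟩

def c3705 : PLift (Cov.check n3705.C.D v3705 = true) := ⟨by decide +kernel⟩

def b3705 : PLift (entF (fidx ts) 400 3705 n3705 = true) := ⟨by decide +kernel⟩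

theorem g3705 : GoodF (fidx ts) 400 3705 := GoodF.ofV v3705 n3705 c3705.down b3705.down

/-- 68844444:2752/2 -/
noncomputable def e3706 : SCfg where
  D := {
    a := 8
    L := 11
    kp := 8
    inn := [(0, 1), (0, 2), (0, 3), (1, 0), (1, 2), (1, 3), (1, 5), (1, 6), (2, 0), (2, 1), (2, 4), (2,
      7), (3, 0), (3, 1), (4, 2), (5, 1), (6, 1), (7, 2)]
    mix := [(0, 0), (0, 1), (0, 2), (1, 3), (1, 4), (1, 5), (2, 0), (2, 5), (2, 6), (2, 7), (3, 2), (3,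
      3), (4, 0), (4, 6), (4, 8), (5, 3), (5, 4), (5, 8), (6, 4), (6, 5), (6, 9), (7, 6), (7, 7),
      (7, 10)]
    cl := [3, 6, 2, 0, 1, 0, 4, 3, 5, 7, 8]
    chq := [(0, 1), (0, 6), (1, 0), (3, 4), (4, 3), (6, 0)]
    rng := [(0, 1), (0, 8), (1, 0), (1, 2), (2, 1), (2, 3), (3, 2), (3, 8), (4, 8), (4, 9), (5, 7), (5,
      9), (6, 8), (6, 10), (7, 5), (7, 10), (8, 0), (8, 3), (8, 4), (8, 6), (9, 4), (9, 5), (10,
      6), (10, 7)]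
    lev := [] }
  links := [[8, 9, 10, 3, 1, 2], [2, 0, 3, 11, 5, 12, 6, 13], [14, 4, 8, 0, 1, 13, 15, 7], [0, 10, 11,
    1], [8, 2, 14, 16], [1, 11, 16, 12], [1, 12, 17, 13], [2, 15, 18, 14]]
  P := {
    a := 8
    N := 19
    nb := [1806, 14445, 57747, 3075, 82180, 71682, 143362, 311300, 66069, 1281, 2569, 66602, 196706,
      163910, 327828, 270468, 22832, 12352, 49280]
    tri := [(0, 1, 2), (0, 1, 3), (0, 2, 8), (0, 3, 10), (0, 8, 9), (0, 9, 10), (1, 2, 13), (1, 3, 11),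
      (1, 5, 11), (1, 5, 12), (1, 6, 12), (1, 6, 13), (2, 4, 8), (2, 4, 14), (2, 7, 14), (2, 7,
      15), (2, 13, 15), (3, 10, 11), (4, 8, 16), (4, 14, 16), (5, 11, 16), (5, 12, 16), (6, 12,
      17), (6, 13, 17), (7, 14, 18), (7, 15, 18)]
    fin := [0, 1, 2, 0, 2, 1, 1, 2, 2, 0, 10, 1, 12, 1, 14, 2, 16, 17, 18]
    chd := [(0, 1), (1, 12), (2, 14)]
    steps := [(0, 3), (0, 9), (1, 5), (1, 6), (1, 11), (1, 13), (2, 4), (2, 7), (2, 8), (2, 15)] }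
  rep := [1, 12, 10, 2, 14, 16, 0, 17, 18]

noncomputable def v3706 : Cov.CovD where
  P := 3
  N := 6
  pl := [2, 8, 9, 10]
  lev := [⟨[], [], [(3, 6)], [2], [(0, 3, [4]), (1, 6, [0])]⟩,
    ⟨[], [(0, 0), (0, 1), (0, 3), (0, 6)], [(0, 0), (0, 1)], [], [(3, 0, [1, 6]), (4, 1,
      [0]), (5, 0, [1, 6])]⟩,
    ⟨[(0, 1)], [(0, 0), (0, 3), (0, 4), (0, 6), (1, 0), (1, 1), (1, 3), (1, 4)], [(0, 3),
      (0, 4), (3, 3), (3, 4)], [], [(0, 3, [4]), (5, 0, [1, 6]), (6, 4, [3]), (7, 3, [4])]⟩,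
    ⟨[(0, 1), (0, 2), (1, 2)], [(0, 0), (0, 3), (0, 6), (1, 0), (1, 1)], [], [2], [(3, 0,
      [1, 6])]⟩,
    ⟨[(0, 2), (1, 2)], [(0, 3), (2, 0), (2, 3), (2, 4)], [(3, 4)], [5], [(0, 3, [4]), (6,
      4, [3])]⟩,
    ⟨[(0, 1), (1, 2), (1, 3)], [(1, 0), (1, 1), (3, 0)], [(0, 1)], [5], [(3, 0, [1, 6]),
      (4, 1, [0])]⟩,
    ⟨[(0, 1), (1, 2), (1, 3), (1, 5)], [(1, 0), (1, 1), (2, 0), (5, 1)], [(0, 1)], [7],
      [(4, 1, [0]), (5, 0, [1, 6])]⟩,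
    ⟨[(0, 2), (1, 2), (2, 4)], [(2, 0), (2, 3), (2, 4), (4, 4)], [(3, 4)], [8], [(6, 4,
      [3]), (7, 3, [4])]⟩]
  Ta := [((0, 1), 3, 6), ((0, 8), 3, 5), ((3, 2), 0, 2), ((3, 8), 0, 5), ((5, 7), 0, 3), ((5, 9),
    0, 7), ((7, 5), 3, 0), ((7, 10), 3, 8)]
  Tb := [((0, 1, 8), 3, 6, 5), ((1, 0, 2), 6, 3, 2), ((2, 1, 3), 2, 6, 0), ((3, 2, 8), 0, 2, 5),
    ((4, 8, 9), 1, 5, 7), ((5, 7, 9), 0, 3, 7), ((6, 8, 10), 4, 5, 8), ((7, 5, 10), 3, 0, 8),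
    ((8, 0, 3), 5, 3, 0), ((8, 0, 4), 5, 3, 1), ((8, 0, 6), 5, 3, 4), ((8, 3, 4), 5, 0, 1),
    ((8, 3, 6), 5, 0, 4), ((8, 4, 6), 5, 1, 4), ((9, 4, 5), 7, 1, 0), ((10, 6, 7), 8, 4, 3)]
  Tc := [(0, 1, 6)]
  Td := [((0, 1), (3, 2), 2), ((0, 1), (3, 8), 5), ((0, 1), (5, 7), 3), ((0, 1), (5, 9), 7), ((0,
    6), (3, 2), 2), ((0, 6), (3, 8), 5), ((0, 6), (5, 7), 3), ((0, 6), (5, 9), 7), ((1, 0),
    (4, 8), 5), ((1, 0), (4, 9), 7), ((3, 4), (0, 1), 6), ((3, 4), (0, 8), 5), ((3, 4), (7,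
    5), 0), ((3, 4), (7, 10), 8), ((4, 3), (6, 8), 5), ((4, 3), (6, 10), 8), ((6, 0), (1, 0),
    3), ((6, 0), (1, 2), 2)]
  G := [[0, 0x66a899a294cc62336838aaaa4a5c254461,
    0x2144246161c12218218924144141c414b2ec21421452218a1a1c928148181c81872e218188c814818818744418414414b8c1c1c18ace,
    0xa1451854c141c314346618914988c1, 0xa1451852c141c314326618914988c1], [0,
    0x756855c2943283364348d46dd6499c2688a1,
    0x84444121811832e1441831872884487c114123141844884b488881cc185151c944e1491459181c8ce,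
    0x5185151ca449149191c6831443188cac1, 0x5185151ca249149191c62318314c2ac1], [0,
    0xccc233a438266a8996498aa6455c258c61, 0, 0xaac455c154466c899c198ccc133c138ac1,
    0xaac455c152466c199c198ccc133c132ac1], [0, 0x556225d688c3364133688c6b9a4b42982788c1, 0,
    0x1811424ccc166c111c1b44ddc1bbc168abc877c1c8ac9,
    0xccc166c111c1b2bbc177c4c26c8c45aac111c1728c1]]

noncomputable def n3706 : Ent := ⟨e3706, noF, [], [], []⟩

def c3706 : PLift (Cov.check n3706.C.D v3706 = true) := ⟨by decide +kernel⟩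

def b3706 : PLift (entF (fidx ts) 400 3706 n3706 = true) := ⟨by decide +kernel⟩

theorem g3706 : GoodF (fidx ts) 400 3706 := GoodF.ofV v3706 n3706 c3706.down b3706.down

/-- 68844444:2752 -/
noncomputable def e3707 : SCfg where
  D := {
    a := 8
    L := 12
    kp := 9
    inn := [(0, 1), (0, 2), (0, 3), (1, 0), (1, 2), (1, 3), (1, 5), (1, 6), (2, 0), (2, 1), (2, 4), (2,
      7), (3, 0), (3, 1), (4, 2), (5, 1), (6, 1), (7, 2)]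
    mix := [(0, 0), (0, 1), (0, 2), (1, 3), (1, 4), (1, 5), (2, 0), (2, 5), (2, 6), (2, 7), (3, 2), (3,
      3), (4, 0), (4, 6), (4, 8), (5, 3), (5, 4), (5, 9), (6, 4), (6, 5), (6, 10), (7, 6), (7, 7),
      (7, 11)]
    cl := [3, 5, 2, 0, 1, 0, 4, 3, 6, 7, 8, 9]
    chq := [(0, 1), (0, 5), (1, 0), (3, 4), (4, 3), (5, 0)]
    rng := [(0, 1), (0, 8), (1, 0), (1, 2), (2, 1), (2, 3), (3, 2), (3, 9), (4, 9), (4, 10), (5, 7),
      (5, 10), (6, 8), (6, 11), (7, 5), (7, 11), (8, 0), (8, 6), (9, 3), (9, 4), (10, 4), (10, 5),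
      (11, 6), (11, 7)]
    lev := [] }
  links := [[8, 9, 10, 3, 1, 2], [2, 0, 3, 11, 5, 12, 6, 13], [14, 4, 8, 0, 1, 13, 15, 7], [0, 10, 11,
    1], [8, 2, 14, 16], [1, 11, 17, 12], [1, 12, 18, 13], [2, 15, 19, 14]]
  P := {
    a := 8
    N := 20
    nb := [1806, 14445, 57747, 3075, 82180, 137218, 274434, 573444, 66069, 1281, 2569, 132138, 393314,
      294982, 589972, 532612, 16656, 6176, 12352, 49280]
    tri := [(0, 1, 2), (0, 1, 3), (0, 2, 8), (0, 3, 10), (0, 8, 9), (0, 9, 10), (1, 2, 13), (1, 3, 11),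
      (1, 5, 11), (1, 5, 12), (1, 6, 12), (1, 6, 13), (2, 4, 8), (2, 4, 14), (2, 7, 14), (2, 7,
      15), (2, 13, 15), (3, 10, 11), (4, 8, 16), (4, 14, 16), (5, 11, 17), (5, 12, 17), (6, 12,
      18), (6, 13, 18), (7, 14, 19), (7, 15, 19)]
    fin := [0, 1, 2, 0, 2, 1, 1, 2, 2, 0, 10, 1, 12, 1, 14, 2, 16, 17, 18, 19]
    chd := [(0, 1), (1, 12), (2, 14)]
    steps := [(0, 3), (0, 9), (1, 5), (1, 6), (1, 11), (1, 13), (2, 4), (2, 7), (2, 8), (2, 15)] }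
  rep := [1, 12, 10, 2, 14, 0, 16, 17, 18, 19]

noncomputable def v3707 : Cov.CovD where
  P := 3
  N := 7
  pl := [2, 8, 9, 10, 11]
  lev := [⟨[], [], [(3, 5)], [2], [(0, 3, [4]), (1, 5, [0])]⟩,
    ⟨[], [(0, 0), (0, 1), (0, 3), (0, 5)], [(0, 0), (0, 1)], [], [(3, 0, [1, 5]), (4, 1,
      [0]), (5, 0, [1, 5])]⟩,
    ⟨[(0, 1)], [(0, 0), (0, 3), (0, 4), (0, 5), (1, 0), (1, 1), (1, 3), (1, 4)], [(0, 3),
      (0, 4), (3, 3), (3, 4)], [], [(0, 3, [4]), (5, 0, [1, 5]), (6, 4, [3]), (7, 3, [4])]⟩,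
    ⟨[(0, 1), (0, 2), (1, 2)], [(0, 0), (0, 3), (0, 5), (1, 0), (1, 1)], [], [2], [(3, 0,
      [1, 5])]⟩,
    ⟨[(0, 2), (1, 2)], [(0, 3), (2, 0), (2, 3), (2, 4)], [(3, 4)], [6], [(0, 3, [4]), (6,
      4, [3])]⟩,
    ⟨[(0, 1), (1, 2), (1, 3)], [(1, 0), (1, 1), (3, 0)], [(0, 1)], [7], [(3, 0, [1, 5]),
      (4, 1, [0])]⟩,
    ⟨[(0, 1), (1, 2), (1, 3), (1, 5)], [(1, 0), (1, 1), (2, 0), (5, 1)], [(0, 1)], [8],
      [(4, 1, [0]), (5, 0, [1, 5])]⟩,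
    ⟨[(0, 2), (1, 2), (2, 4)], [(2, 0), (2, 3), (2, 4), (4, 4)], [(3, 4)], [9], [(6, 4,
      [3]), (7, 3, [4])]⟩]
  Ta := [((0, 1), 3, 5), ((0, 8), 3, 6), ((3, 2), 0, 2), ((3, 9), 0, 7), ((5, 7), 0, 3), ((5,
    10), 0, 8), ((7, 5), 3, 0), ((7, 11), 3, 9)]
  Tb := [((0, 1, 8), 3, 5, 6), ((1, 0, 2), 5, 3, 2), ((2, 1, 3), 2, 5, 0), ((3, 2, 9), 0, 2, 7),
    ((4, 9, 10), 1, 7, 8), ((5, 7, 10), 0, 3, 8), ((6, 8, 11), 4, 6, 9), ((7, 5, 11), 3, 0,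
    9), ((8, 0, 6), 6, 3, 4), ((9, 3, 4), 7, 0, 1), ((10, 4, 5), 8, 1, 0), ((11, 6, 7), 9, 4,
    3)]
  Tc := [(0, 1, 5)]
  Td := [((0, 1), (3, 2), 2), ((0, 1), (3, 9), 7), ((0, 1), (5, 7), 3), ((0, 1), (5, 10), 8),
    ((0, 5), (3, 2), 2), ((0, 5), (3, 9), 7), ((0, 5), (5, 7), 3), ((0, 5), (5, 10), 8), ((1,
    0), (4, 9), 7), ((1, 0), (4, 10), 8), ((3, 4), (0, 1), 5), ((3, 4), (0, 8), 6), ((3, 4),
    (7, 5), 0), ((3, 4), (7, 11), 9), ((4, 3), (6, 8), 6), ((4, 3), (6, 11), 9), ((5, 0), (1,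
    0), 3), ((5, 0), (1, 2), 2)]
  G := [[0, 0xccaccaa33a33aa342626468e99c99ca98a8a2a4e55655c658c61,
    0x214214214d26448252186161c52218218924141c4141c4161cb266c68c22c8c2fc21421452214a1a1c928181c9181c8131c7222c4a4aaccc2f218218218d2a88489c8181c8161c8181c74d1c1c14ccc42474141c4141c4141cb8ccc8229ce,
    0xa1a1ca151c5446161c9191c98c1c1cc131c38ac1, 0xa1a1ca151c5246161c9191c92c1c1c3131c32ac1],
    [0, 0x55655665565566a8343238e33633acc46989294e99a99cc648a1,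
    0xc444413131c42aece8c429c11481188ae1e1c9191c3131cb24444cc4444cc244e27488881ce14314ce181185151cdc1111c84a4a8cc82442428ca671111ce1e1c9191cd8a88688c49ce,
    0x5151c5151ca43131c3131cc469149191c69184c8c1,
    0x5151c5151ca249191c9191c623131c3131cc2ac1], [0,
    0xaa6aaca55a556654c2c4c8e3c633aa346626864e99a96ac948a1, 0,
    0xaac155c154ccc133c134666c199c1988c1, 0xaac155c152466c199c192ccc133c132ac1], [0,
    0x525458e545258ea44949298e929894e68343238e33633cac8ac1, 0,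
    0xddc177c1a44d41bbc16d814cbbc177c1c8ac1, 0xddc177c1a24ddc1bbc162bbc177c1c2ac1]]

noncomputable def n3707 : Ent := ⟨e3707, noF, [], [], [(17, 19, [130296143695408343586455050064352370635079224267853574415018227909354223800321, 0]), (17, 16, [137534916551164530859168056639568349186738516571547296047091608213707851014145, 0])]⟩

def c3707 : PLift (Cov.check n3707.C.D v3707 = true) := ⟨by decide +kernel⟩

def b3707 : PLift (entF (fidx ts) 400 3707 n3707 = true) := ⟨by decide +kernel⟩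

theorem g3707 : GoodF (fidx ts) 400 3707 := GoodF.ofV v3707 n3707 c3707.down b3707.down

/-- 6767444:2753/1 -/
noncomputable def e3708 : SCfg where
  D := {
    a := 7
    L := 11
    kp := 8
    inn := [(0, 1), (0, 5), (1, 0), (1, 2), (1, 3), (1, 6), (2, 1), (2, 3), (2, 4), (3, 1), (3, 2), (3,
      4), (4, 2), (4, 3), (5, 0), (6, 1)]
    mix := [(0, 0), (0, 1), (0, 2), (0, 3), (1, 0), (1, 3), (1, 4), (2, 0), (2, 5), (2, 6), (3, 4), (3,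
      7), (3, 8), (3, 9), (4, 6), (4, 7), (5, 1), (5, 2), (5, 8), (6, 3), (6, 4), (6, 10)]
    cl := [0, 4, 5, 0, 1, 6, 3, 1, 2, 7, 8]
    chq := [(0, 1), (0, 2), (0, 3), (1, 0), (2, 0), (3, 0)]
    rng := [(0, 1), (0, 5), (1, 0), (1, 8), (2, 3), (2, 8), (3, 2), (3, 10), (4, 8), (4, 10), (5, 0),
      (5, 6), (6, 5), (6, 7), (7, 6), (7, 9), (8, 1), (8, 2), (8, 4), (8, 9), (9, 7), (9, 8), (10,
      3), (10, 4)]
    lev := [] }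
  links := [[1, 7, 8, 5, 9, 10], [3, 2, 7, 0, 10, 6, 11], [12, 7, 1, 3, 4, 13], [14, 4, 2, 1, 11, 15,
    16], [2, 3, 14, 13], [0, 8, 15, 9], [1, 10, 17, 11]]
  P := {
    a := 7
    N := 18
    nb := [1954, 3277, 12442, 116758, 24588, 33537, 134146, 4359, 32929, 33825, 131651, 163914, 8324,
      20500, 73752, 68392, 49160, 3136]
    tri := [(0, 1, 7), (0, 1, 10), (0, 5, 8), (0, 5, 9), (0, 7, 8), (0, 9, 10), (1, 2, 3), (1, 2, 7),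
      (1, 3, 11), (1, 6, 10), (1, 6, 11), (2, 3, 4), (2, 4, 13), (2, 7, 12), (2, 12, 13), (3, 4,
      14), (3, 11, 15), (3, 14, 16), (3, 15, 16), (4, 13, 14), (5, 8, 15), (5, 9, 15), (6, 10,
      17), (6, 11, 17)]
    fin := [0, 0, 0, 3, 0, 0, 0, 0, 8, 9, 0, 3, 12, 13, 3, 15, 16, 17]
    chd := [(0, 3), (0, 13), (0, 15)]
    steps := [(0, 1), (0, 2), (0, 4), (0, 5), (0, 6), (0, 7), (0, 10), (3, 11), (3, 14)] }
  rep := [0, 3, 15, 13, 8, 9, 12, 16, 17]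

noncomputable def v3708 : Cov.CovD where
  P := 3
  N := 6
  pl := [1, 2, 5, 9, 10]
  lev := [⟨[], [], [(0, 0)], [4, 5], [(0, 0, [1, 2, 3]), (3, 0, [1, 2, 3])]⟩,
    ⟨[], [(0, 0), (0, 1)], [(0, 0), (0, 1)], [], [(0, 0, [1, 2, 3]), (3, 0, [1, 2, 3]), (4,
      1, [0])]⟩,
    ⟨[(0, 1)], [(0, 0), (1, 0), (1, 1), (1, 3)], [(0, 3)], [6], [(0, 0, [1, 2, 3]), (6, 3,
      [0])]⟩,
    ⟨[(0, 1), (1, 2)], [(1, 0), (1, 1), (1, 2), (2, 0), (2, 1), (2, 2), (2, 3)], [(1, 1),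
      (1, 2)], [7], [(4, 1, [0]), (7, 1, [0]), (8, 2, [0])]⟩,
    ⟨[(1, 2), (1, 3), (2, 3)], [(2, 0), (2, 1), (2, 3), (3, 1), (3, 2), (3, 3)], [(1, 3)],
      [], [(6, 3, [0]), (7, 1, [0])]⟩,
    ⟨[(0, 1)], [(0, 0), (0, 2), (3, 2)], [], [4, 5], [(8, 2, [0])]⟩,
    ⟨[(0, 1), (1, 2), (1, 3)], [(0, 0), (1, 0), (1, 1), (3, 1)], [(0, 1)], [8], [(3, 0, [1,
      2, 3]), (4, 1, [0])]⟩]
  Ta := [((0, 1), 0, 4), ((0, 5), 0, 6), ((3, 2), 0, 5), ((3, 10), 0, 8), ((4, 8), 1, 2), ((4,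
    10), 1, 8), ((7, 6), 1, 3), ((7, 9), 1, 7)]
  Tb := [((0, 1, 5), 0, 4, 6), ((1, 0, 8), 4, 0, 2), ((2, 3, 8), 5, 0, 2), ((3, 2, 10), 0, 5, 8),
    ((4, 8, 10), 1, 2, 8), ((5, 0, 6), 6, 0, 3), ((6, 5, 7), 3, 6, 1), ((7, 6, 9), 1, 3, 7),
    ((8, 1, 2), 2, 4, 5), ((8, 1, 4), 2, 4, 1), ((8, 1, 9), 2, 4, 7), ((8, 2, 4), 2, 5, 1),
    ((8, 2, 9), 2, 5, 7), ((8, 4, 9), 2, 1, 7), ((9, 7, 8), 7, 1, 2), ((10, 3, 4), 8, 0, 1)]
  Tc := [(0, 1, 2), (0, 1, 3), (0, 2, 3)]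
  Td := [((0, 1), (0, 1), 4), ((0, 1), (0, 5), 6), ((0, 1), (3, 2), 5), ((0, 1), (3, 10), 8),
    ((0, 2), (0, 1), 4), ((0, 2), (0, 5), 6), ((0, 2), (3, 2), 5), ((0, 2), (3, 10), 8), ((0,
    3), (0, 1), 4), ((0, 3), (0, 5), 6), ((0, 3), (3, 2), 5), ((0, 3), (3, 10), 8), ((1, 0),
    (4, 8), 2), ((1, 0), (4, 10), 8), ((1, 0), (7, 6), 3), ((1, 0), (7, 9), 7), ((2, 0), (8,
    1), 4), ((2, 0), (8, 2), 5), ((2, 0), (8, 4), 1), ((2, 0), (8, 9), 7), ((3, 0), (6, 5),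
    6), ((3, 0), (6, 7), 1)]
  G := [[0, 0xc1686a1a8ac146464c64a4ac12a1c1aa1a1ac14e, 0x112112c14142142c18112122c14e,
    0x111d8111d25111d1111d29111d1111d1ce42,
    0x182188918218291811819e411111491111111c9611111298c121122912212291211219e4e], [0,
    0xc8c1ca1a8ac14c4a4cc161cc1261616a1a1cc18e,
    0x1811c1818cc121411c1414cc12214411122c128c1ce, 0,
    0x28118892812819a18118494611111892111119a11411494622122492212219622122898ce], [0,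
    0xa1a8ac1a86c12a1a1a64c1ac1261616c161ac18e, 0x182182c14112112c18122112c14e,
    0xc114cccd24311281181cccd28dc2,
    0x41214c82c8891818829c811c828fc41211124c929c1c1c14128f812111188128bcc221114c2196114c229c2289ce],
    [0, 0x6861ca1c1ac1264616c1a1cc1861c16a1a1ac14e,
    0x1111c1118cc122121c811114c4161142111cc121881ce, 0,
    0x281288911289128128192848f421421494218121121192188bc22422492212219622122898ce]]

noncomputable def n3708 : Ent := ⟨e3708, noF, [], [], []⟩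

def c3708 : PLift (Cov.check n3708.C.D v3708 = true) := ⟨by decide +kernel⟩

def b3708 : PLift (entF (fidx ts) 400 3708 n3708 = true) := ⟨by decide +kernel⟩

theorem g3708 : GoodF (fidx ts) 400 3708 := GoodF.ofV v3708 n3708 c3708.down b3708.down

/-- 6767444:2753/2 -/
noncomputable def e3709 : SCfg where
  D := {
    a := 7
    L := 11
    kp := 8
    inn := [(0, 1), (0, 5), (1, 0), (1, 2), (1, 3), (1, 6), (2, 1), (2, 3), (2, 4), (3, 1), (3, 2), (3,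
      4), (4, 2), (4, 3), (5, 0), (6, 1)]
    mix := [(0, 0), (0, 1), (0, 2), (0, 3), (1, 0), (1, 3), (1, 4), (2, 0), (2, 5), (2, 6), (3, 4), (3,
      7), (3, 8), (3, 9), (4, 6), (4, 7), (5, 1), (5, 2), (5, 9), (6, 3), (6, 4), (6, 10)]
    cl := [0, 4, 5, 0, 1, 6, 3, 1, 7, 2, 8]
    chq := [(0, 1), (0, 2), (0, 3), (1, 0), (2, 0), (3, 0)]
    rng := [(0, 1), (0, 5), (1, 0), (1, 9), (2, 3), (2, 9), (3, 2), (3, 10), (4, 8), (4, 10), (5, 0),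
      (5, 6), (6, 5), (6, 7), (7, 6), (7, 9), (8, 4), (8, 9), (9, 1), (9, 2), (9, 7), (9, 8), (10,
      3), (10, 4)]
    lev := [] }
  links := [[1, 7, 8, 5, 9, 10], [3, 2, 7, 0, 10, 6, 11], [12, 7, 1, 3, 4, 13], [14, 4, 2, 1, 11, 15,
    16], [2, 3, 14, 13], [0, 8, 16, 9], [1, 10, 17, 11]]
  P := {
    a := 7
    N := 18
    nb := [1954, 3277, 12442, 116758, 24588, 66305, 134146, 4359, 65697, 66593, 131651, 163914, 8324,
      20500, 73752, 67592, 49960, 3136]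
    tri := [(0, 1, 7), (0, 1, 10), (0, 5, 8), (0, 5, 9), (0, 7, 8), (0, 9, 10), (1, 2, 3), (1, 2, 7),
      (1, 3, 11), (1, 6, 10), (1, 6, 11), (2, 3, 4), (2, 4, 13), (2, 7, 12), (2, 12, 13), (3, 4,
      14), (3, 11, 15), (3, 14, 16), (3, 15, 16), (4, 13, 14), (5, 8, 16), (5, 9, 16), (6, 10,
      17), (6, 11, 17)]
    fin := [0, 0, 0, 3, 0, 0, 0, 0, 8, 9, 0, 3, 12, 13, 3, 15, 16, 17]
    chd := [(0, 3), (0, 13), (0, 16)]
    steps := [(0, 1), (0, 2), (0, 4), (0, 5), (0, 6), (0, 7), (0, 10), (3, 11), (3, 14)] }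
  rep := [0, 3, 16, 13, 8, 9, 12, 15, 17]

noncomputable def v3709 : Cov.CovD where
  P := 3
  N := 6
  pl := [1, 2, 5, 8, 10]
  lev := [⟨[], [], [(0, 0)], [4, 5], [(0, 0, [1, 2, 3]), (3, 0, [1, 2, 3])]⟩,
    ⟨[], [(0, 0), (0, 1)], [(0, 0), (0, 1)], [], [(0, 0, [1, 2, 3]), (3, 0, [1, 2, 3]), (4,
      1, [0])]⟩,
    ⟨[(0, 1)], [(0, 0), (1, 0), (1, 1), (1, 3)], [(0, 3)], [6], [(0, 0, [1, 2, 3]), (6, 3,
      [0])]⟩,
    ⟨[(0, 1), (1, 2)], [(1, 0), (1, 1), (1, 2), (2, 0), (2, 1), (2, 2), (2, 3)], [(1, 1),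
      (1, 2)], [7], [(4, 1, [0]), (7, 1, [0]), (9, 2, [0])]⟩,
    ⟨[(1, 2), (1, 3), (2, 3)], [(2, 0), (2, 1), (2, 3), (3, 1), (3, 2), (3, 3)], [(1, 3)],
      [], [(6, 3, [0]), (7, 1, [0])]⟩,
    ⟨[(0, 1)], [(0, 0), (0, 2), (3, 2)], [], [4, 5], [(9, 2, [0])]⟩,
    ⟨[(0, 1), (1, 2), (1, 3)], [(0, 0), (1, 0), (1, 1), (3, 1)], [(0, 1)], [8], [(3, 0, [1,
      2, 3]), (4, 1, [0])]⟩]
  Ta := [((0, 1), 0, 4), ((0, 5), 0, 6), ((3, 2), 0, 5), ((3, 10), 0, 8), ((4, 8), 1, 7), ((4,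
    10), 1, 8), ((7, 6), 1, 3), ((7, 9), 1, 2)]
  Tb := [((0, 1, 5), 0, 4, 6), ((1, 0, 9), 4, 0, 2), ((2, 3, 9), 5, 0, 2), ((3, 2, 10), 0, 5, 8),
    ((4, 8, 10), 1, 7, 8), ((5, 0, 6), 6, 0, 3), ((6, 5, 7), 3, 6, 1), ((7, 6, 9), 1, 3, 2),
    ((8, 4, 9), 7, 1, 2), ((9, 1, 2), 2, 4, 5), ((9, 1, 7), 2, 4, 1), ((9, 1, 8), 2, 4, 7),
    ((9, 2, 7), 2, 5, 1), ((9, 2, 8), 2, 5, 7), ((9, 7, 8), 2, 1, 7), ((10, 3, 4), 8, 0, 1)]
  Tc := [(0, 1, 2), (0, 1, 3), (0, 2, 3)]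
  Td := [((0, 1), (0, 1), 4), ((0, 1), (0, 5), 6), ((0, 1), (3, 2), 5), ((0, 1), (3, 10), 8),
    ((0, 2), (0, 1), 4), ((0, 2), (0, 5), 6), ((0, 2), (3, 2), 5), ((0, 2), (3, 10), 8), ((0,
    3), (0, 1), 4), ((0, 3), (0, 5), 6), ((0, 3), (3, 2), 5), ((0, 3), (3, 10), 8), ((1, 0),
    (4, 8), 7), ((1, 0), (4, 10), 8), ((1, 0), (7, 6), 3), ((1, 0), (7, 9), 2), ((2, 0), (9,
    1), 4), ((2, 0), (9, 2), 5), ((2, 0), (9, 7), 1), ((2, 0), (9, 8), 7), ((3, 0), (6, 5),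
    6), ((3, 0), (6, 7), 1)]
  G := [[0, 0xc1686a1a8ac146464c64a4ac12a1c1aa1a1ac14e, 0x112182c14142112c18122122c14e, 0,
    0x182182918218291811819e41141129411111891111119ac121128912112291211219e4e], [0,
    0xc1a1aa8a8ac14c4c4aa4c1cc1261616c1c16c18e,
    0x284121841118118c561411c1111cc12224411112c218c1ce,
    0x211d1121d15112d1121d49122d1211d1ce82,
    0x28118892811819a18418494611111491111119611121898c12412492212219622112898ce], [0,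
    0xa161ca1a1cc1261c4c64a4cc12c1c1cc1c1ac12e, 0x112112c14112142c18112122c18e, 0,
    0x41214c8811188829c81c819c828fc41111124c949111c1c1994128f811181289c121c229124c2196c221c2289ce],
    [0, 0x61c1ac8a1ac12a4a4664c1cc12c161aa1a1ac14e,
    0x1111c1111cc121111c1414cc122241422812212c1ace, 0x222d1222d15222d422c1214d222d1222d1ce82,
    0x21414211288921128192828c8bc229414211218921821192148bc2212249422122892212219ace]]

noncomputable def n3709 : Ent := ⟨e3709, noF, [], [], []⟩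

def c3709 : PLift (Cov.check n3709.C.D v3709 = true) := ⟨by decide +kernel⟩

def b3709 : PLift (entF (fidx ts) 400 3709 n3709 = true) := ⟨by decide +kernel⟩

theorem g3709 : GoodF (fidx ts) 400 3709 := GoodF.ofV v3709 n3709 c3709.down b3709.down

/-- 6767444:2753/3 -/
noncomputable def e3710 : SCfg where
  D := {
    a := 7
    L := 11
    kp := 8
    inn := [(0, 1), (0, 5), (1, 0), (1, 2), (1, 3), (1, 6), (2, 1), (2, 3), (2, 4), (3, 1), (3, 2), (3,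
      4), (4, 2), (4, 3), (5, 0), (6, 1)]
    mix := [(0, 0), (0, 1), (0, 2), (0, 3), (1, 0), (1, 3), (1, 4), (2, 0), (2, 5), (2, 6), (3, 4), (3,
      7), (3, 8), (3, 9), (4, 6), (4, 7), (5, 1), (5, 2), (5, 7), (6, 3), (6, 4), (6, 10)]
    cl := [1, 3, 4, 1, 0, 5, 2, 0, 6, 7, 8]
    chq := [(0, 1), (1, 0), (1, 2), (2, 1), (3, 4), (4, 3)]
    rng := [(0, 1), (0, 5), (1, 0), (1, 7), (2, 3), (2, 7), (3, 2), (3, 10), (4, 8), (4, 10), (5, 0),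
      (5, 6), (6, 5), (6, 7), (7, 1), (7, 2), (7, 6), (7, 9), (8, 4), (8, 9), (9, 7), (9, 8), (10,
      3), (10, 4)]
    lev := [] }
  links := [[1, 7, 8, 5, 9, 10], [3, 2, 7, 0, 10, 6, 11], [12, 7, 1, 3, 4, 13], [14, 4, 2, 1, 11, 15,
    16], [2, 3, 14, 13], [0, 8, 14, 9], [1, 10, 17, 11]]
  P := {
    a := 7
    N := 18
    nb := [1954, 3277, 12442, 116758, 24588, 17153, 134146, 4359, 16545, 17441, 131651, 163914, 8324,
      20500, 74552, 67592, 49160, 3136]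
    tri := [(0, 1, 7), (0, 1, 10), (0, 5, 8), (0, 5, 9), (0, 7, 8), (0, 9, 10), (1, 2, 3), (1, 2, 7),
      (1, 3, 11), (1, 6, 10), (1, 6, 11), (2, 3, 4), (2, 4, 13), (2, 7, 12), (2, 12, 13), (3, 4,
      14), (3, 11, 15), (3, 14, 16), (3, 15, 16), (4, 13, 14), (5, 8, 14), (5, 9, 14), (6, 10,
      17), (6, 11, 17)]
    fin := [0, 0, 0, 3, 0, 5, 0, 0, 5, 9, 0, 3, 12, 13, 3, 15, 16, 17]
    chd := [(0, 3), (0, 13), (5, 9)]
    steps := [(0, 1), (0, 2), (0, 4), (0, 6), (0, 7), (0, 10), (3, 14), (3, 11), (5, 8)] }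
  rep := [3, 0, 13, 5, 9, 12, 15, 16, 17]

noncomputable def v3710 : Cov.CovD where
  P := 3
  N := 6
  pl := [5, 8, 9, 10]
  lev := [⟨[], [], [(1, 1), (1, 3), (1, 4), (3, 4)], [], [(0, 1, [0, 2]), (1, 3, [4]), (2, 4,
      [3]), (3, 1, [0, 2])]⟩,
    ⟨[], [(0, 0), (0, 1), (0, 3), (0, 4)], [(0, 1), (1, 1)], [], [(0, 1, [0, 2]), (3, 1,
      [0, 2]), (4, 0, [1])]⟩,
    ⟨[(0, 1)], [(0, 1), (1, 0), (1, 1), (1, 2)], [(1, 2)], [5], [(0, 1, [0, 2]), (6, 2,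
      [1])]⟩,
    ⟨[(0, 1), (1, 2)], [(1, 0), (1, 1), (2, 0), (2, 1), (2, 2)], [(0, 0)], [6, 7], [(4, 0,
      [1]), (7, 0, [1])]⟩,
    ⟨[(1, 2), (1, 3), (2, 3)], [(2, 0), (2, 1), (2, 2), (3, 0), (3, 2)], [(0, 2)], [], [(6,
      2, [1]), (7, 0, [1])]⟩,
    ⟨[(0, 1)], [(0, 0), (0, 1), (0, 3), (0, 4), (3, 0), (4, 0)], [(0, 3), (0, 4), (3, 4)],
      [], [(1, 3, [4]), (2, 4, [3]), (7, 0, [1])]⟩,
    ⟨[(0, 1), (1, 2), (1, 3)], [(0, 1), (1, 0), (1, 1), (3, 0)], [(0, 1)], [8], [(3, 1, [0,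
      2]), (4, 0, [1])]⟩]
  Ta := [((0, 1), 1, 3), ((0, 5), 1, 5), ((3, 2), 1, 4), ((3, 10), 1, 8), ((4, 8), 0, 6), ((4,
    10), 0, 8), ((7, 1), 0, 3), ((7, 2), 0, 4), ((7, 6), 0, 2), ((7, 9), 0, 7)]
  Tb := [((0, 1, 5), 1, 3, 5), ((1, 0, 7), 3, 1, 0), ((2, 3, 7), 4, 1, 0), ((3, 2, 10), 1, 4, 8),
    ((4, 8, 10), 0, 6, 8), ((5, 0, 6), 5, 1, 2), ((6, 5, 7), 2, 5, 0), ((7, 1, 2), 0, 3, 4),
    ((7, 1, 6), 0, 3, 2), ((7, 1, 9), 0, 3, 7), ((7, 2, 6), 0, 4, 2), ((7, 2, 9), 0, 4, 7),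
    ((7, 6, 9), 0, 2, 7), ((8, 4, 9), 6, 0, 7), ((9, 7, 8), 7, 0, 6), ((10, 3, 4), 8, 1, 0)]
  Tc := [(1, 0, 2)]
  Td := [((0, 1), (4, 8), 6), ((0, 1), (4, 10), 8), ((0, 1), (7, 1), 3), ((0, 1), (7, 2), 4),
    ((0, 1), (7, 6), 2), ((0, 1), (7, 9), 7), ((1, 0), (0, 1), 3), ((1, 0), (0, 5), 5), ((1,
    0), (3, 2), 4), ((1, 0), (3, 10), 8), ((1, 2), (0, 1), 3), ((1, 2), (0, 5), 5), ((1, 2),
    (3, 2), 4), ((1, 2), (3, 10), 8), ((2, 1), (6, 5), 5), ((2, 1), (6, 7), 0), ((3, 4), (1,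
    0), 1), ((3, 4), (1, 7), 0), ((4, 3), (2, 3), 1), ((4, 3), (2, 7), 0)]
  G := [[0, 0x684a14c88e12644a44a14e18a28a28c28e14e, 0, 0x221228228e222222228e941,
    0x222e1222e8222e1e222e8222e2222e8e941], [0, 0x684a88a88e14c18a44c14e12c18a28618e14e, 0,
    0x2212216222221a224228cd41, 0x4461ccce1cccce223ccce22c88e88ac1], [0,
    0xc14a18c18e14c44a44c44e12614c14c28e18e, 0x222e844212e4221e8122e8e221e8112e2acc1,
    0x224122124e124222188e941442446144142244e2448d812412462228224222224ed8d,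
    0x182288282e282182188e94142142148e1242242248e89122128228e228122128e94d], [0,
    0xc84a88a18e14614648644e18618a18c18e14e, 0x111e22111e22111e4111e8ce81,
    0x1824282188a182282128ed4222228224e224228244ec112412461248122124128ed8d,
    0x1882188188c1882b4142214841482b12882c12821168128c1222b4d]]

noncomputable def n3710 : Ent := ⟨e3710, noF, [], [], []⟩

def c3710 : PLift (Cov.check n3710.C.D v3710 = true) := ⟨by decide +kernel⟩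

def b3710 : PLift (entF (fidx ts) 400 3710 n3710 = true) := ⟨by decide +kernel⟩

theorem g3710 : GoodF (fidx ts) 400 3710 := GoodF.ofV v3710 n3710 c3710.down b3710.down

/-- 6767444:2753 -/
noncomputable def e3711 : SCfg where
  D := {
    a := 7
    L := 12
    kp := 9
    inn := [(0, 1), (0, 5), (1, 0), (1, 2), (1, 3), (1, 6), (2, 1), (2, 3), (2, 4), (3, 1), (3, 2), (3,
      4), (4, 2), (4, 3), (5, 0), (6, 1)]
    mix := [(0, 0), (0, 1), (0, 2), (0, 3), (1, 0), (1, 3), (1, 4), (2, 0), (2, 5), (2, 6), (3, 4), (3,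
      7), (3, 8), (3, 9), (4, 6), (4, 7), (5, 1), (5, 2), (5, 10), (6, 3), (6, 4), (6, 11)]
    cl := [0, 1, 2, 0, 3, 6, 4, 3, 7, 8, 5, 9]
    chq := [(0, 3), (0, 4), (0, 5), (3, 0), (4, 0), (5, 0)]
    rng := [(0, 1), (0, 5), (1, 0), (1, 10), (2, 3), (2, 10), (3, 2), (3, 11), (4, 8), (4, 11), (5, 0),
      (5, 6), (6, 5), (6, 7), (7, 6), (7, 9), (8, 4), (8, 9), (9, 7), (9, 8), (10, 1), (10, 2),
      (11, 3), (11, 4)]
    lev := [] }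
  links := [[1, 7, 8, 5, 9, 10], [3, 2, 7, 0, 10, 6, 11], [12, 7, 1, 3, 4, 13], [14, 4, 2, 1, 11, 15,
    16], [2, 3, 14, 13], [0, 8, 17, 9], [1, 10, 18, 11]]
  P := {
    a := 7
    N := 19
    nb := [1954, 3277, 12442, 116758, 24588, 131841, 265218, 4359, 131233, 132129, 262723, 294986,
      8324, 20500, 73752, 67592, 49160, 800, 3136]
    tri := [(0, 1, 7), (0, 1, 10), (0, 5, 8), (0, 5, 9), (0, 7, 8), (0, 9, 10), (1, 2, 3), (1, 2, 7),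
      (1, 3, 11), (1, 6, 10), (1, 6, 11), (2, 3, 4), (2, 4, 13), (2, 7, 12), (2, 12, 13), (3, 4,
      14), (3, 11, 15), (3, 14, 16), (3, 15, 16), (4, 13, 14), (5, 8, 17), (5, 9, 17), (6, 10,
      18), (6, 11, 18)]
    fin := [0, 0, 0, 3, 0, 0, 0, 0, 8, 9, 0, 3, 12, 13, 3, 15, 16, 17, 18]
    chd := [(0, 3), (0, 13), (0, 17)]
    steps := [(0, 1), (0, 2), (0, 4), (0, 5), (0, 6), (0, 7), (0, 10), (3, 11), (3, 14)] }
  rep := [0, 8, 9, 3, 13, 17, 12, 15, 16, 18]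

noncomputable def v3711 : Cov.CovD where
  P := 3
  N := 7
  pl := [1, 2, 5, 8, 9, 11]
  lev := [⟨[], [], [(0, 0)], [1, 2], [(0, 0, [3, 4, 5]), (3, 0, [3, 4, 5])]⟩,
    ⟨[], [(0, 0), (0, 3)], [(0, 0), (0, 3)], [], [(0, 0, [3, 4, 5]), (3, 0, [3, 4, 5]), (4,
      3, [0])]⟩,
    ⟨[(0, 1)], [(0, 0), (1, 0), (1, 3), (1, 4)], [(0, 4)], [6], [(0, 0, [3, 4, 5]), (6, 4,
      [0])]⟩,
    ⟨[(0, 1), (1, 2)], [(1, 0), (1, 3), (2, 0), (2, 3), (2, 4)], [(3, 3)], [7, 8], [(4, 3,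
      [0]), (7, 3, [0])]⟩,
    ⟨[(1, 2), (1, 3), (2, 3)], [(2, 0), (2, 3), (2, 4), (3, 3), (3, 4)], [(3, 4)], [], [(6,
      4, [0]), (7, 3, [0])]⟩,
    ⟨[(0, 1)], [(0, 0), (0, 5)], [], [1, 2], [(10, 5, [0])]⟩,
    ⟨[(0, 1), (1, 2), (1, 3)], [(0, 0), (1, 0), (1, 3), (3, 3)], [(0, 3)], [9], [(3, 0, [3,
      4, 5]), (4, 3, [0])]⟩]
  Ta := [((0, 1), 0, 1), ((0, 5), 0, 6), ((3, 2), 0, 2), ((3, 11), 0, 9), ((4, 8), 3, 7), ((4,
    11), 3, 9), ((7, 6), 3, 4), ((7, 9), 3, 8)]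
  Tb := [((0, 1, 5), 0, 1, 6), ((1, 0, 10), 1, 0, 5), ((2, 3, 10), 2, 0, 5), ((3, 2, 11), 0, 2,
    9), ((4, 8, 11), 3, 7, 9), ((5, 0, 6), 6, 0, 4), ((6, 5, 7), 4, 6, 3), ((7, 6, 9), 3, 4,
    8), ((8, 4, 9), 7, 3, 8), ((9, 7, 8), 8, 3, 7), ((10, 1, 2), 5, 1, 2), ((11, 3, 4), 9, 0,
    3)]
  Tc := [(0, 3, 4), (0, 3, 5), (0, 4, 5)]
  Td := [((0, 3), (0, 1), 1), ((0, 3), (0, 5), 6), ((0, 3), (3, 2), 2), ((0, 3), (3, 11), 9),
    ((0, 4), (0, 1), 1), ((0, 4), (0, 5), 6), ((0, 4), (3, 2), 2), ((0, 4), (3, 11), 9), ((0,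
    5), (0, 1), 1), ((0, 5), (0, 5), 6), ((0, 5), (3, 2), 2), ((0, 5), (3, 11), 9), ((3, 0),
    (4, 8), 7), ((3, 0), (4, 11), 9), ((3, 0), (7, 6), 4), ((3, 0), (7, 9), 8), ((4, 0), (6,
    5), 6), ((4, 0), (6, 7), 3), ((5, 0), (10, 1), 1), ((5, 0), (10, 2), 2)]
  G := [[0,
    0x11c211c111c1d11c111c111c17a11c411c111c1b11c111c111c47c611c111c211c1d11c111c411c1b68c,
    0, 0x1121115711c11112d711c11a11114fe11281111183aa11611d11111f118d1111871114ee4,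
    0x111112511426c11b11112d1118b11b11611111fe114d11111b711611d11118f1111149ee8], [0,
    0x11c111c111c111c1f211c111c111c111c1f11c111c111c111c1fca4, 0,
    0x61161111113b61161161111115f6c11c11c1111119fc114ca4,
    0xa11a11a1111113f2c11c11c1111119fc11711c1111415fc68], [0, 0,
    0x44241eec11e6c11ccc222c84a66c8ebaac814462c51aac444c8cdeccc11a8a451c82aac4678c,
    0x111c16195118e185a4112c119111e149412c12a14e7812218a1111a183111512153a14618418edec,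
    0x6111314141221467111e1251128119114111e11dc12812618ef11111481619b11211161819b8141a14618814efe8],
    [0, 0, 0xaac11aac11aac22cc22c888caac6ebccc1144c2ccc88c644c8e568,
    0xa11a1111a197a11a1191213da18a12abc11c11c1191415f468,
    0xa11a11a1111a13fa11a11a1111a15fac11c11c1111c19f468]]

noncomputable def n3711 : Ent := ⟨e3711, noF, [], [], [(17, 15, [31810150703026702604389600475053274033659867542605680387665729161850765313, 0]), (17, 16, [31810581851548793677511941751458610980409781099126250235727204310992801793, 0]), (17, 14, [31810150492479252293399658612443232846751378709736555330269080709323284481, 0])]⟩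

def c3711 : PLift (Cov.check n3711.C.D v3711 = true) := ⟨by decide +kernel⟩

def b3711 : PLift (entF (fidx ts) 400 3711 n3711 = true) := ⟨by decide +kernel⟩

theorem g3711 : GoodF (fidx ts) 400 3711 := GoodF.ofV v3711 n3711 c3711.down b3711.down

/-- The entries 3595 to 3711. -/
theorem rE26 : Rng (GoodF (fidx ts) 400) 3595 3712 :=
  ((((((((((((((((((((((((((((((((((((((((((((((((((((((((((((((((((((((((((((((((((((((((((((((((((((((((((((((((((((((Rng.nil _ 3595).snoc g3595 rfl).snoc g3596 rfl).snoc g3597 rfl).snoc g3598 rfl).snoc g3599 rfl).snoc g3600 rfl).snoc g3601 rfl).snoc g3602 rfl).snoc g3603 rfl).snoc g3604 rfl).snoc g3605 rfl).snoc g3606 rfl).snoc g3607 rfl).snoc g3608 rfl).snoc g3609 rfl).snoc g3610 rfl).snoc g3611 rfl).snoc g3612 rfl).snoc g3613 rfl).snoc g3614 rfl).snoc g3615 rfl).snoc g3616 rfl).snoc g3617 rfl).snoc g3618 rfl).snoc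 g3619 rfl).snoc g3620 rfl).snoc g3621 rfl).snoc g3622 rfl).snoc g3623 rfl).snoc g3624 rfl).snoc g3625 rfl).snoc g3626 rfl).snoc g3627 rfl).snoc g3628 rfl).snoc g3629 rfl).snoc g3630 rfl).snoc g3631 rfl).snoc g3632 rfl).snoc g3633 rfl).snoc g3634 rfl).snoc g3635 rfl).snoc g3636 rfl).snoc g3637 rfl).snoc g3638 rfl).snoc g3639 rfl).snoc g3640 rfl).snoc g3641 rfl).snoc g3642 rfl).snoc g3643 rfl).snoc g3644 rfl).snoc g3645 rfl).snoc g3646 rfl).snoc g3647 rfl).snoc g3648 rfl).snoc g3649 rfl).snoc g3650 rfl).snoc g3651 rfl).snoc g3652 rfl).snoc g3653 rfl).snoc g3654 rfl).snoc g3655 rfl).snoc g3656 rfl).snoc g3657 rfl).snoc g3658 rfl).snoc g3659 rfl).snoc g3660 rfl).snoc g3661 rfl).snoc g3662 rfl).snoc g3663 rfl).snoc g3664 rfl).snoc g3665 rfl).snoc g3666 rfl).snoc g3667 rfl).snoc g3668 rfl).snoc g3669 rfl).snoc g3670 rfl).snoc g3671 rfl).snoc g3672 rfl).snoc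 g3673 rfl).snoc g3674 rfl).snoc g3675 rfl).snoc g3676 rfl).snoc g3677 rfl).snoc g3678 rfl).snoc g3679 rfl).snoc g3680 rfl).snoc g3681 rfl).snoc g3682 rfl).snoc g3683 rfl).snoc g3684 rfl).snoc g3685 rfl).snoc g3686 rfl).snoc g3687 rfl).snoc g3688 rfl).snoc g3689 rfl).snoc g3690 rfl).snoc g3691 rfl).snoc g3692 rfl).snoc g3693 rfl).snoc g3694 rfl).snoc g3695 rfl).snoc g3696 rfl).snoc g3697 rfl).snoc g3698 rfl).snoc g3699 rfl).snoc g3700 rfl).snoc g3701 rfl).snoc g3702 rfl).snoc g3703 rfl).snoc g3704 rfl).snoc g3705 rfl).snoc g3706 rfl).snoc g3707 rfl).snoc g3708 rfl).snoc g3709 rfl).snoc g3710 rfl).snoc g3711 rfl)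

end Pool.Agent.W986.ST.Dat
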