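import Pool.Agent.W986.Dat.Tab
import Pool.Agent.W986.SubAltB

/-!
# Entries 3808 to 3877 of the table
-/

set_option autoImplicit false

namespace Pool.Agent.W986.ST.Dat

/-- 756664:2780/7 -/
noncomputable def e3808 : SCfg where
  D := {
    a := 6
    L := 11
    kp := 8
    inn := [(0, 1), (0, 2), (0, 3), (1, 0), (1, 2), (1, 4), (2, 0), (2, 1), (2, 4), (3, 0), (3, 5), (4,
      1), (4, 2), (5, 3)]
    mix := [(0, 0), (0, 1), (0, 2), (0, 3), (1, 2), (1, 4), (2, 3), (2, 5), (2, 6), (3, 0), (3, 3), (3,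
      7), (3, 8), (4, 4), (4, 5), (4, 7), (4, 9), (5, 3), (5, 7), (5, 10)]
    cl := [3, 7, 2, 3, 0, 0, 4, 1, 5, 8, 6]
    chq := [(2, 3), (2, 4), (3, 2), (4, 2), (5, 6), (6, 5)]
    rng := [(0, 1), (0, 8), (1, 0), (1, 2), (2, 1), (2, 4), (3, 6), (3, 10), (4, 2), (4, 9), (5, 6),
      (5, 7), (6, 3), (6, 5), (7, 5), (7, 8), (7, 9), (7, 10), (8, 0), (8, 7), (9, 4), (9, 7),
      (10, 3), (10, 7)]
    lev := [] }
  links := [[6, 7, 8, 1, 2, 9, 3], [2, 0, 8, 10, 4], [9, 0, 1, 4, 11, 12], [6, 0, 9, 5, 13, 14], [11, 2,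
    1, 10, 15, 13], [3, 9, 16, 13]]
  P := {
    a := 6
    N := 17
    nb := [974, 1301, 6675, 25185, 44038, 74248, 16521, 321, 1155, 69677, 33042, 12308, 2564, 116792,
      8264, 9232, 8736]
    tri := [(0, 1, 2), (0, 1, 8), (0, 2, 9), (0, 3, 6), (0, 3, 9), (0, 6, 7), (0, 7, 8), (1, 2, 4), (1,
      4, 10), (1, 8, 10), (2, 4, 11), (2, 9, 12), (2, 11, 12), (3, 5, 9), (3, 5, 13), (3, 6, 14),
      (3, 13, 14), (4, 10, 15), (4, 11, 13), (4, 13, 15), (5, 9, 16), (5, 13, 16)]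
    fin := [0, 1, 1, 3, 4, 3, 0, 7, 1, 0, 4, 4, 12, 13, 14, 15, 3]
    chd := [(0, 1), (1, 12), (14, 3)]
    steps := [(0, 6), (0, 9), (1, 2), (1, 8), (3, 5), (3, 16), (4, 10), (4, 11)] }
  rep := [4, 13, 1, 0, 12, 14, 3, 7, 15]

noncomputable def v3808 : Cov.CovD where
  P := 3
  N := 6
  pl := [1, 7, 9]
  lev := [⟨[], [], [(2, 3), (3, 3)], [7], [(0, 3, [2]), (2, 2, [3, 4]), (3, 3, [2])]⟩,
    ⟨[], [(0, 0), (0, 2), (0, 3)], [(0, 2)], [], [(2, 2, [3, 4]), (4, 0, [])]⟩,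
    ⟨[(0, 1)], [(0, 0), (0, 2), (0, 3), (0, 4), (1, 0), (1, 2), (1, 3), (1, 4)], [(0, 3),
      (0, 4), (3, 4)], [], [(3, 3, [2]), (5, 0, []), (6, 4, [2])]⟩,
    ⟨[(0, 1), (0, 2)], [(0, 2), (0, 3), (0, 5), (2, 3)], [(3, 3), (3, 5)], [1], [(0, 3,
      [2]), (3, 3, [2]), (8, 5, [6])]⟩,
    ⟨[(0, 1), (0, 2), (1, 2)], [(1, 0), (1, 2), (2, 0), (2, 3), (2, 4)], [(0, 0)], [1, 8],
      [(4, 0, []), (5, 0, [])]⟩,
    ⟨[(0, 3)], [(0, 3), (2, 3), (3, 3), (3, 5), (3, 6)], [(3, 6)], [1], [(3, 3, [2]), (10,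
      6, [5])]⟩]
  Ta := [((0, 1), 3, 7), ((0, 8), 3, 5), ((3, 6), 3, 4), ((3, 10), 3, 6), ((4, 2), 0, 2), ((4,
    9), 0, 8), ((5, 6), 0, 4), ((5, 7), 0, 1)]
  Tb := [((0, 1, 8), 3, 7, 5), ((1, 0, 2), 7, 3, 2), ((2, 1, 4), 2, 7, 0), ((3, 6, 10), 3, 4, 6),
    ((4, 2, 9), 0, 2, 8), ((5, 6, 7), 0, 4, 1), ((6, 3, 5), 4, 3, 0), ((7, 5, 8), 1, 0, 5),
    ((7, 5, 9), 1, 0, 8), ((7, 5, 10), 1, 0, 6), ((7, 8, 9), 1, 5, 8), ((7, 8, 10), 1, 5, 6),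
    ((7, 9, 10), 1, 8, 6), ((8, 0, 7), 5, 3, 1), ((9, 4, 7), 8, 0, 1), ((10, 3, 7), 6, 3, 1)]
  Tc := [(2, 3, 4)]
  Td := [((2, 3), (2, 1), 7), ((2, 3), (2, 4), 0), ((2, 4), (2, 1), 7), ((2, 4), (2, 4), 0), ((3,
    2), (0, 1), 7), ((3, 2), (0, 8), 5), ((3, 2), (3, 6), 4), ((3, 2), (3, 10), 6), ((4, 2),
    (6, 3), 3), ((4, 2), (6, 5), 0), ((5, 6), (8, 0), 3), ((5, 6), (8, 7), 1), ((6, 5), (10,
    3), 3), ((6, 5), (10, 7), 1)]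
  G := [[0, 0, 0x11c88c91211c44c51841c18c48cd18e, 0x11c88c88cd2444c11c88cd2814c88c48cd28d,
    0x14411c18cc1484488c9f214814c81cc14448c1f811c44c5448484d68b], [0, 0,
    0x11c88c91411c44c51811c11ccccd12e, 0x55c88c88cd2444c99c44cd2811c11ccccd28d,
    0x84454c88cc4448c9d2c485419254c98cc844441444cd7811c44c514468f], [0,
    0x26c68ca2442c88c48ce2844c88c44ce28d, 0, 0x11c88c88cd2441c18c48cd2144c18c48cd24d,
    0x1484554c18c4488cce14481818c84cd141444de81444521444918cc85cab], [0,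
    0x66c88c88ce21aac44c62866c22cccce28d, 0, 0x55c88c88cd2444c99c44cd2111c11ccccd28d,
    0x9444554c88c88d448e14485899cc4cd449444de11484911c44c514445e8b]]

noncomputable def n3808 : Ent := ⟨e3808, noF, [], [], [(15, 14, [1685382413448253767852309107433119732572617628602273068445380493313, 0]), (12, 16, [1580044410770988437309982408355971841652082177953823432505704706049, 0])]⟩

def c3808 : PLift (Cov.check n3808.C.D v3808 = true) := ⟨by decide +kernel⟩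

def b3808 : PLift (entF (fidx ts) 400 3808 n3808 = true) := ⟨by decide +kernel⟩

theorem g3808 : GoodF (fidx ts) 400 3808 := GoodF.ofV v3808 n3808 c3808.down b3808.down

/-- 756664:2780/10 -/
noncomputable def e3809 : SCfg where
  D := {
    a := 6
    L := 10
    kp := 7
    inn := [(0, 1), (0, 2), (0, 3), (1, 0), (1, 2), (1, 4), (2, 0), (2, 1), (2, 4), (3, 0), (3, 5), (4,
      1), (4, 2), (5, 3)]
    mix := [(0, 0), (0, 1), (0, 2), (0, 3), (1, 2), (1, 4), (2, 3), (2, 5), (2, 6), (3, 0), (3, 3), (3,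
      7), (3, 8), (4, 4), (4, 5), (4, 8), (4, 9), (5, 3), (5, 6), (5, 7)]
    cl := [0, 6, 1, 0, 3, 3, 4, 5, 2, 7]
    chq := [(0, 1), (1, 0), (1, 4), (2, 4), (4, 1), (4, 2)]
    rng := [(0, 1), (0, 8), (1, 0), (1, 2), (2, 1), (2, 4), (3, 6), (4, 2), (4, 9), (5, 6), (5, 8), (6,
      3), (6, 5), (6, 7), (7, 6), (7, 8), (8, 0), (8, 5), (8, 7), (8, 9), (9, 4), (9, 8)]
    lev := [] }
  links := [[6, 7, 8, 1, 2, 9, 3], [2, 0, 8, 10, 4], [9, 0, 1, 4, 11, 12], [6, 0, 9, 5, 13, 14], [11, 2,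
    1, 10, 15, 14], [3, 9, 12, 13]]
  P := {
    a := 6
    N := 16
    nb := [974, 1301, 6675, 25185, 52230, 12808, 16521, 321, 1155, 4141, 33042, 20500, 10788, 20520,
      43096, 17424]
    tri := [(0, 1, 2), (0, 1, 8), (0, 2, 9), (0, 3, 6), (0, 3, 9), (0, 6, 7), (0, 7, 8), (1, 2, 4), (1,
      4, 10), (1, 8, 10), (2, 4, 11), (2, 9, 12), (2, 11, 12), (3, 5, 9), (3, 5, 13), (3, 6, 14),
      (3, 13, 14), (4, 10, 15), (4, 11, 14), (4, 14, 15), (5, 9, 12), (5, 12, 13)]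
    fin := [0, 1, 1, 3, 4, 3, 0, 7, 1, 0, 4, 4, 12, 13, 3, 15]
    chd := [(0, 1), (1, 12), (12, 3)]
    steps := [(0, 6), (0, 9), (1, 2), (1, 8), (3, 5), (3, 14), (4, 10), (4, 11)] }
  rep := [0, 1, 3, 4, 12, 13, 7, 15]

noncomputable def v3809 : Cov.CovD where
  P := 3
  N := 5
  pl := [1, 7, 9]
  lev := [⟨[], [], [(0, 0), (0, 1)], [6], [(0, 0, [1]), (2, 1, [0, 4]), (3, 0, [1])]⟩,
    ⟨[], [(0, 0), (0, 1), (0, 3)], [(1, 3)], [], [(2, 1, [0, 4]), (4, 3, [])]⟩,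
    ⟨[(0, 1)], [(0, 0), (0, 1), (0, 3), (0, 4), (1, 0), (1, 1), (1, 3), (1, 4)], [(0, 3),
      (0, 4), (3, 4)], [], [(3, 0, [1]), (5, 3, []), (6, 4, [1, 2])]⟩,
    ⟨[(0, 1), (0, 2)], [(0, 0), (0, 1), (0, 2), (2, 0)], [(0, 0), (0, 2)], [5], [(0, 0,
      [1]), (3, 0, [1]), (8, 2, [4])]⟩,
    ⟨[(0, 1), (0, 2), (1, 2)], [(1, 1), (1, 2), (1, 3), (2, 0), (2, 2), (2, 3), (2, 4), (3,
      2)], [(2, 3), (3, 3)], [7], [(4, 3, []), (5, 3, []), (8, 2, [4])]⟩,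
    ⟨[(0, 3)], [(0, 0), (2, 0), (2, 4), (3, 0), (3, 2), (3, 4)], [(0, 4)], [5], [(3, 0,
      [1]), (6, 4, [1, 2])]⟩]
  Ta := [((0, 1), 0, 6), ((0, 8), 0, 2), ((3, 6), 0, 4), ((4, 2), 3, 1), ((4, 9), 3, 7), ((5, 6),
    3, 4), ((5, 8), 3, 2)]
  Tb := [((0, 1, 8), 0, 6, 2), ((1, 0, 2), 6, 0, 1), ((2, 1, 4), 1, 6, 3), ((4, 2, 9), 3, 1, 7),
    ((5, 6, 8), 3, 4, 2), ((6, 3, 5), 4, 0, 3), ((6, 3, 7), 4, 0, 5), ((6, 5, 7), 4, 3, 5),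
    ((7, 6, 8), 5, 4, 2), ((8, 0, 5), 2, 0, 3), ((8, 0, 7), 2, 0, 5), ((8, 0, 9), 2, 0, 7),
    ((8, 5, 7), 2, 3, 5), ((8, 5, 9), 2, 3, 7), ((8, 7, 9), 2, 5, 7), ((9, 4, 8), 7, 3, 2)]
  Tc := [(1, 0, 4), (4, 1, 2)]
  Td := [((0, 1), (0, 1), 6), ((0, 1), (0, 8), 2), ((0, 1), (3, 6), 4), ((1, 0), (2, 1), 6), ((1,
    0), (2, 4), 3), ((1, 4), (2, 1), 6), ((1, 4), (2, 4), 3), ((2, 4), (8, 0), 0), ((2, 4),
    (8, 5), 3), ((2, 4), (8, 7), 5), ((2, 4), (8, 9), 7), ((4, 1), (6, 3), 0), ((4, 1), (6,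
    5), 3), ((4, 1), (6, 7), 5), ((4, 2), (6, 3), 0), ((4, 2), (6, 5), 3), ((4, 2), (6, 7),
    5)]
  G := [[0, 0x81521c1121c6822ccb2885225c219429cc26, 0x122111e118e661122111e111eca1c,
    0x11c22cc2129219c2512c21cc2225115c29c, 0x522114b421ba64522441be14baa4c], [0,
    0x111d61c222c22cc1621115ca22e624ec34a, 0x111e11c6e223411c422ee22c38c,
    0x121d212dc21121d212dc28c, 0x922444b119a611242a441d124ba68c], [0,
    0x211d449c11521c24472885115c229449cc2a, 0, 0x62caecc22694a9c25eec22cc28e5225c29c,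
    0x22242ba444bc2cba64c22444be2ebaa4c], [0, 0x115169c22c22cc341a9115c22c22cc38c, 0,
    0x262deaedc21e6ed2a2dc28c, 0x28e2a444b4e9a61c22c4cb626ba61c]]

noncomputable def n3809 : Ent := ⟨e3809, noF, [], [], []⟩

def c3809 : PLift (Cov.check n3809.C.D v3809 = true) := ⟨by decide +kernel⟩

def b3809 : PLift (entF (fidx ts) 400 3809 n3809 = true) := ⟨by decide +kernel⟩

theorem g3809 : GoodF (fidx ts) 400 3809 := GoodF.ofV v3809 n3809 c3809.down b3809.down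

/-- 756664:2780/9 -/
noncomputable def e3810 : SCfg where
  D := {
    a := 6
    L := 11
    kp := 8
    inn := [(0, 1), (0, 2), (0, 3), (1, 0), (1, 2), (1, 4), (2, 0), (2, 1), (2, 4), (3, 0), (3, 5), (4,
      1), (4, 2), (5, 3)]
    mix := [(0, 0), (0, 1), (0, 2), (0, 3), (1, 2), (1, 4), (2, 3), (2, 5), (2, 6), (3, 0), (3, 3), (3,
      7), (3, 8), (4, 4), (4, 5), (4, 8), (4, 9), (5, 3), (5, 7), (5, 10)]
    cl := [0, 7, 1, 0, 3, 3, 5, 4, 2, 8, 6]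
    chq := [(0, 1), (1, 0), (1, 5), (2, 6), (5, 1), (6, 2)]
    rng := [(0, 1), (0, 8), (1, 0), (1, 2), (2, 1), (2, 4), (3, 6), (3, 10), (4, 2), (4, 9), (5, 6),
      (5, 8), (6, 3), (6, 5), (7, 8), (7, 10), (8, 0), (8, 5), (8, 7), (8, 9), (9, 4), (9, 8),
      (10, 3), (10, 7)]
    lev := [] }
  links := [[6, 7, 8, 1, 2, 9, 3], [2, 0, 8, 10, 4], [9, 0, 1, 4, 11, 12], [6, 0, 9, 5, 13, 14], [11, 2,
    1, 10, 15, 14], [3, 9, 16, 13]]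
  P := {
    a := 6
    N := 17
    nb := [974, 1301, 6675, 25185, 52230, 74248, 16521, 321, 1155, 69677, 33042, 20500, 2564, 81960,
      43096, 17424, 8736]
    tri := [(0, 1, 2), (0, 1, 8), (0, 2, 9), (0, 3, 6), (0, 3, 9), (0, 6, 7), (0, 7, 8), (1, 2, 4), (1,
      4, 10), (1, 8, 10), (2, 4, 11), (2, 9, 12), (2, 11, 12), (3, 5, 9), (3, 5, 13), (3, 6, 14),
      (3, 13, 14), (4, 10, 15), (4, 11, 14), (4, 14, 15), (5, 9, 16), (5, 13, 16)]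
    fin := [0, 1, 1, 3, 4, 3, 0, 7, 1, 0, 4, 4, 12, 13, 3, 15, 16]
    chd := [(0, 1), (1, 12), (3, 16)]
    steps := [(0, 6), (0, 9), (1, 2), (1, 8), (3, 5), (3, 14), (4, 10), (4, 11)] }
  rep := [0, 1, 3, 4, 13, 12, 16, 7, 15]

noncomputable def v3810 : Cov.CovD where
  P := 3
  N := 6
  pl := [1, 7, 9]
  lev := [⟨[], [], [(0, 0), (0, 1)], [7], [(0, 0, [1]), (2, 1, [0, 5]), (3, 0, [1])]⟩,
    ⟨[], [(0, 0), (0, 1), (0, 3)], [(1, 3)], [], [(2, 1, [0, 5]), (4, 3, [])]⟩,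
    ⟨[(0, 1)], [(0, 0), (0, 1), (0, 3), (0, 5), (1, 0), (1, 1), (1, 3), (1, 5)], [(0, 3),
      (0, 5), (3, 5)], [], [(3, 0, [1]), (5, 3, []), (6, 5, [1])]⟩,
    ⟨[(0, 1), (0, 2)], [(0, 0), (0, 1), (0, 2), (2, 0)], [(0, 0), (0, 2)], [4], [(0, 0,
      [1]), (3, 0, [1]), (8, 2, [6])]⟩,
    ⟨[(0, 1), (0, 2), (1, 2)], [(1, 1), (1, 2), (1, 3), (2, 0), (2, 2), (2, 3), (2, 5), (3,
      2)], [(2, 3), (3, 3)], [8], [(4, 3, []), (5, 3, []), (8, 2, [6])]⟩,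
    ⟨[(0, 3)], [(0, 0), (2, 0), (3, 0), (3, 2), (3, 6)], [(0, 6)], [4], [(3, 0, [1]), (10,
      6, [2])]⟩]
  Ta := [((0, 1), 0, 7), ((0, 8), 0, 2), ((3, 6), 0, 5), ((3, 10), 0, 6), ((4, 2), 3, 1), ((4,
    9), 3, 8), ((5, 6), 3, 5), ((5, 8), 3, 2)]
  Tb := [((0, 1, 8), 0, 7, 2), ((1, 0, 2), 7, 0, 1), ((2, 1, 4), 1, 7, 3), ((3, 6, 10), 0, 5, 6),
    ((4, 2, 9), 3, 1, 8), ((5, 6, 8), 3, 5, 2), ((6, 3, 5), 5, 0, 3), ((7, 8, 10), 4, 2, 6),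
    ((8, 0, 5), 2, 0, 3), ((8, 0, 7), 2, 0, 4), ((8, 0, 9), 2, 0, 8), ((8, 5, 7), 2, 3, 4),
    ((8, 5, 9), 2, 3, 8), ((8, 7, 9), 2, 4, 8), ((9, 4, 8), 8, 3, 2), ((10, 3, 7), 6, 0, 4)]
  Tc := [(1, 0, 5)]
  Td := [((0, 1), (0, 1), 7), ((0, 1), (0, 8), 2), ((0, 1), (3, 6), 5), ((0, 1), (3, 10), 6),
    ((1, 0), (2, 1), 7), ((1, 0), (2, 4), 3), ((1, 5), (2, 1), 7), ((1, 5), (2, 4), 3), ((2,
    6), (8, 0), 0), ((2, 6), (8, 5), 3), ((2, 6), (8, 7), 4), ((2, 6), (8, 9), 8), ((5, 1),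
    (6, 3), 0), ((5, 1), (6, 5), 3), ((6, 2), (10, 3), 0), ((6, 2), (10, 7), 4)]
  G := [[0, 0x21119c1121c22ce4c72215125c119229cc2a, 0x1212a111e111e6611212a111e111eca1c,
    0x12c21cc2119229c2522c11cc2225115c29c, 0x1242a111b444ba644212a414b141baa4c], [0,
    0x3142111c2111c22ceeccf2118882121c2111c1121ceec22ccf8e, 0x11c864ce2a6634c262a111c11cc29c,
    0x211d122dc24222d111dc21c, 0x4212a141b414ba641242a414b141ba68c], [0,
    0x129219c42215125c82115225c119229cc2e, 0, 0x26ceacc2229ee9c25e6c2acc2ee5225c29c,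
    0x62c2a444beeeba64e242a46cbec6baa4c], [0,
    0x214442111c1181121c66caaccf82111c2111c2111ce6c2accf4e, 0, 0x222deeedc216eeda22dc21c,
    0x62c2a466beccba61c262ac4cb6e6ba61c]]

noncomputable def n3810 : Ent := ⟨e3810, noF, [], [], [(15, 13, [1685356714993749094781261963711221120386310105559083432688084684801, 0]), (12, 16, [1580044410770988437309982408355971841652082177953823432505704714241, 0])]⟩

def c3810 : PLift (Cov.check n3810.C.D v3810 = true) := ⟨by decide +kernel⟩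

def b3810 : PLift (entF (fidx ts) 400 3810 n3810 = true) := ⟨by decide +kernel⟩

theorem g3810 : GoodF (fidx ts) 400 3810 := GoodF.ofV v3810 n3810 c3810.down b3810.down

/-- 756664:2780/11 -/
noncomputable def e3811 : SCfg where
  D := {
    a := 6
    L := 11
    kp := 8
    inn := [(0, 1), (0, 2), (0, 3), (1, 0), (1, 2), (1, 4), (2, 0), (2, 1), (2, 4), (3, 0), (3, 5), (4,
      1), (4, 2), (5, 3)]
    mix := [(0, 0), (0, 1), (0, 2), (0, 3), (1, 2), (1, 4), (2, 3), (2, 5), (2, 6), (3, 0), (3, 3), (3,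
      7), (3, 8), (4, 4), (4, 5), (4, 9), (4, 10), (5, 3), (5, 6), (5, 7)]
    cl := [0, 6, 2, 0, 1, 1, 3, 4, 5, 7, 8]
    chq := [(0, 2), (2, 0), (2, 3), (3, 2), (3, 5), (5, 3)]
    rng := [(0, 1), (0, 8), (1, 0), (1, 2), (2, 1), (2, 4), (3, 6), (4, 2), (4, 9), (5, 6), (5, 10),
      (6, 3), (6, 5), (6, 7), (7, 6), (7, 8), (8, 0), (8, 7), (9, 4), (9, 10), (10, 5), (10, 9)]
    lev := [] }
  links := [[6, 7, 8, 1, 2, 9, 3], [2, 0, 8, 10, 4], [9, 0, 1, 4, 11, 12], [6, 0, 9, 5, 13, 14], [11, 2,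
    1, 10, 15, 16], [3, 9, 12, 13]]
  P := {
    a := 6
    N := 17
    nb := [974, 1301, 6675, 25185, 101382, 12808, 16521, 321, 1155, 4141, 33042, 69652, 10788, 20520,
      8264, 66576, 34832]
    tri := [(0, 1, 2), (0, 1, 8), (0, 2, 9), (0, 3, 6), (0, 3, 9), (0, 6, 7), (0, 7, 8), (1, 2, 4), (1,
      4, 10), (1, 8, 10), (2, 4, 11), (2, 9, 12), (2, 11, 12), (3, 5, 9), (3, 5, 13), (3, 6, 14),
      (3, 13, 14), (4, 10, 15), (4, 11, 16), (4, 15, 16), (5, 9, 12), (5, 12, 13)]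
    fin := [0, 1, 1, 3, 4, 3, 0, 7, 1, 0, 4, 4, 3, 13, 14, 15, 16]
    chd := [(0, 1), (1, 3), (3, 14)]
    steps := [(0, 6), (0, 9), (1, 2), (1, 8), (3, 5), (3, 12), (4, 10), (4, 11)] }
  rep := [0, 4, 1, 3, 13, 14, 7, 15, 16]

noncomputable def v3811 : Cov.CovD where
  P := 3
  N := 6
  pl := [1, 7, 9, 10]
  lev := [⟨[], [], [(0, 0), (0, 2)], [6], [(0, 0, [2]), (2, 2, [0, 3]), (3, 0, [2])]⟩,
    ⟨[], [(0, 0), (0, 1), (0, 2)], [(1, 2)], [], [(2, 2, [0, 3]), (4, 1, [])]⟩,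
    ⟨[(0, 1)], [(0, 0), (0, 1), (0, 2), (0, 3), (1, 0), (1, 1), (1, 2), (1, 3)], [(0, 1),
      (0, 3), (1, 3)], [], [(3, 0, [2]), (5, 1, []), (6, 3, [2, 5])]⟩,
    ⟨[(0, 1), (0, 2)], [(0, 0), (0, 2), (0, 5), (2, 0)], [(0, 0), (0, 5)], [4], [(0, 0,
      [2]), (3, 0, [2]), (8, 5, [3])]⟩,
    ⟨[(0, 1), (0, 2), (1, 2)], [(1, 1), (1, 2), (2, 0), (2, 1), (2, 3)], [(1, 1)], [7, 8],
      [(4, 1, []), (5, 1, [])]⟩,
    ⟨[(0, 3)], [(0, 0), (2, 0), (2, 3), (3, 0), (3, 3), (3, 5)], [(0, 3)], [4], [(3, 0,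
      [2]), (6, 3, [2, 5])]⟩]
  Ta := [((0, 1), 0, 6), ((0, 8), 0, 5), ((3, 6), 0, 3), ((4, 2), 1, 2), ((4, 9), 1, 7), ((5, 6),
    1, 3), ((5, 10), 1, 8)]
  Tb := [((0, 1, 8), 0, 6, 5), ((1, 0, 2), 6, 0, 2), ((2, 1, 4), 2, 6, 1), ((4, 2, 9), 1, 2, 7),
    ((5, 6, 10), 1, 3, 8), ((6, 3, 5), 3, 0, 1), ((6, 3, 7), 3, 0, 4), ((6, 5, 7), 3, 1, 4),
    ((7, 6, 8), 4, 3, 5), ((8, 0, 7), 5, 0, 4), ((9, 4, 10), 7, 1, 8), ((10, 5, 9), 8, 1, 7)]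
  Tc := [(2, 0, 3), (3, 2, 5)]
  Td := [((0, 2), (0, 1), 6), ((0, 2), (0, 8), 5), ((0, 2), (3, 6), 3), ((2, 0), (2, 1), 6), ((2,
    0), (2, 4), 1), ((2, 3), (2, 1), 6), ((2, 3), (2, 4), 1), ((3, 2), (6, 3), 0), ((3, 2),
    (6, 5), 1), ((3, 2), (6, 7), 4), ((3, 5), (6, 3), 0), ((3, 5), (6, 5), 1), ((3, 5), (6,
    7), 4), ((5, 3), (8, 0), 0), ((5, 3), (8, 7), 4)]
  G := [[0, 0x522656e991e112eea4c22611e93ae152ee68c, 0x311d133d222de24311d13ad222de28c,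
    0x133d311d222de21333d111d222de21c, 0x319222d6116da4c613119911e66ca444ce58a], [0,
    0x922661e99ae112eea1922613ea31e1c2ee61c,
    0x42544811a1119e6121a66caac4cced28111581e1194141e86ca8ccced4e, 0,
    0x944166d34adc11dec1111d3395ccdea4458a], [0, 0xc22666eaaaecc2eea4c22666eaaaecc4eea8c,
    0x11216213982143ac22ce2d333d111d24e222922cc, 0x666daaad222de21666daaad222de28c,
    0x666daaad222de21a44666da4adcccdec8a], [0, 0xc22666eaaaecc2ee61c22666eaaaecc2eea1c,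
    0xa141194141e26caacccced41111a842119911e1594111e26c4acccced4e, 0,
    0xa44666da4adcccdec1a44666da4adcccdec1a]]

noncomputable def n3811 : Ent := ⟨e3811, noF, [], [], [(15, 14, [1685382413448253767852309107433119732572617628602273068445380497409, 0]), (16, 13, [1580044429602293643470024699863340111275081426260889765897808244737, 0]), (16, 14, [1580095832788404724998799751142926758855362888449624481876434358273, 0])]⟩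

def c3811 : PLift (Cov.check n3811.C.D v3811 = true) := ⟨by decide +kernel⟩

def b3811 : PLift (entF (fidx ts) 400 3811 n3811 = true) := ⟨by decide +kernel⟩

theorem g3811 : GoodF (fidx ts) 400 3811 := GoodF.ofV v3811 n3811 c3811.down b3811.down

/-- 756664:2780 -/
noncomputable def e3812 : SCfg where
  D := {
    a := 6
    L := 12
    kp := 9
    inn := [(0, 1), (0, 2), (0, 3), (1, 0), (1, 2), (1, 4), (2, 0), (2, 1), (2, 4), (3, 0), (3, 5), (4,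
      1), (4, 2), (5, 3)]
    mix := [(0, 0), (0, 1), (0, 2), (0, 3), (1, 2), (1, 4), (2, 3), (2, 5), (2, 6), (3, 0), (3, 3), (3,
      7), (3, 8), (4, 4), (4, 5), (4, 9), (4, 10), (5, 3), (5, 7), (5, 11)]
    cl := [0, 7, 2, 0, 1, 1, 4, 3, 5, 8, 9, 6]
    chq := [(0, 2), (2, 0), (2, 4), (4, 2), (5, 6), (6, 5)]
    rng := [(0, 1), (0, 8), (1, 0), (1, 2), (2, 1), (2, 4), (3, 6), (3, 11), (4, 2), (4, 9), (5, 6),
      (5, 10), (6, 3), (6, 5), (7, 8), (7, 11), (8, 0), (8, 7), (9, 4), (9, 10), (10, 5), (10, 9),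
      (11, 3), (11, 7)]
    lev := [] }
  links := [[6, 7, 8, 1, 2, 9, 3], [2, 0, 8, 10, 4], [9, 0, 1, 4, 11, 12], [6, 0, 9, 5, 13, 14], [11, 2,
    1, 10, 15, 16], [3, 9, 17, 13]]
  P := {
    a := 6
    N := 18
    nb := [974, 1301, 6675, 25185, 101382, 139784, 16521, 321, 1155, 135213, 33042, 69652, 2564,
      147496, 8264, 66576, 34832, 8736]
    tri := [(0, 1, 2), (0, 1, 8), (0, 2, 9), (0, 3, 6), (0, 3, 9), (0, 6, 7), (0, 7, 8), (1, 2, 4), (1,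
      4, 10), (1, 8, 10), (2, 4, 11), (2, 9, 12), (2, 11, 12), (3, 5, 9), (3, 5, 13), (3, 6, 14),
      (3, 13, 14), (4, 10, 15), (4, 11, 16), (4, 15, 16), (5, 9, 17), (5, 13, 17)]
    fin := [0, 1, 1, 3, 4, 3, 0, 7, 1, 0, 4, 4, 12, 13, 14, 15, 16, 3]
    chd := [(0, 1), (1, 12), (14, 3)]
    steps := [(0, 6), (0, 9), (1, 2), (1, 8), (3, 5), (3, 17), (4, 10), (4, 11)] }
  rep := [0, 4, 1, 13, 12, 14, 3, 7, 15, 16]

noncomputable def v3812 : Cov.CovD where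
  P := 3
  N := 7
  pl := [1, 7, 9, 10]
  lev := [⟨[], [], [(0, 0), (0, 2)], [7], [(0, 0, [2]), (2, 2, [0, 4]), (3, 0, [2])]⟩,
    ⟨[], [(0, 0), (0, 1), (0, 2)], [(1, 2)], [], [(2, 2, [0, 4]), (4, 1, [])]⟩,
    ⟨[(0, 1)], [(0, 0), (0, 1), (0, 2), (0, 4), (1, 0), (1, 1), (1, 2), (1, 4)], [(0, 1),
      (0, 4), (1, 4)], [], [(3, 0, [2]), (5, 1, []), (6, 4, [2])]⟩,
    ⟨[(0, 1), (0, 2)], [(0, 0), (0, 2), (0, 5), (2, 0)], [(0, 0), (0, 5)], [3], [(0, 0,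
      [2]), (3, 0, [2]), (8, 5, [6])]⟩,
    ⟨[(0, 1), (0, 2), (1, 2)], [(1, 1), (1, 2), (2, 0), (2, 1), (2, 4)], [(1, 1)], [8, 9],
      [(4, 1, []), (5, 1, [])]⟩,
    ⟨[(0, 3)], [(0, 0), (2, 0), (3, 0), (3, 5), (3, 6)], [(0, 6)], [3], [(3, 0, [2]), (11,
      6, [5])]⟩]
  Ta := [((0, 1), 0, 7), ((0, 8), 0, 5), ((3, 6), 0, 4), ((3, 11), 0, 6), ((4, 2), 1, 2), ((4,
    9), 1, 8), ((5, 6), 1, 4), ((5, 10), 1, 9)]
  Tb := [((0, 1, 8), 0, 7, 5), ((1, 0, 2), 7, 0, 2), ((2, 1, 4), 2, 7, 1), ((3, 6, 11), 0, 4, 6),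
    ((4, 2, 9), 1, 2, 8), ((5, 6, 10), 1, 4, 9), ((6, 3, 5), 4, 0, 1), ((7, 8, 11), 3, 5, 6),
    ((8, 0, 7), 5, 0, 3), ((9, 4, 10), 8, 1, 9), ((10, 5, 9), 9, 1, 8), ((11, 3, 7), 6, 0,
    3)]
  Tc := [(2, 0, 4)]
  Td := [((0, 2), (0, 1), 7), ((0, 2), (0, 8), 5), ((0, 2), (3, 6), 4), ((0, 2), (3, 11), 6),
    ((2, 0), (2, 1), 7), ((2, 0), (2, 4), 1), ((2, 4), (2, 1), 7), ((2, 4), (2, 4), 1), ((4,
    2), (6, 3), 0), ((4, 2), (6, 5), 1), ((5, 6), (8, 0), 0), ((5, 6), (8, 7), 3), ((6, 5),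
    (11, 3), 0), ((6, 5), (11, 7), 3)]
  G := [[0, 0x123252e161e3a3ec15ee6462a212e313e131e9cceea8c, 0x311d133d955de24356d191dc19de28c,
    0x513da31d159de24531d913d1c5de28c, 0x615d539d351de213111199e66caacc4e58a], [0,
    0xc22655ea9ae111eea1922653e191e91cee613212c88e,
    0x114421391191e13971a64aacccced2611191e113151e66caacccced8e, 0,
    0x142119d911bde66ca4cd211139959e66ca4c4e58a], [0,
    0xc22666eaaaeccceea4c2264aaaecccee666a82c62a2c84e, 0x111d333d5bcde2411333d51e211c5cca29c,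
    0x666daaadcccde21666daaadcccde21c, 0x666daaadcccde2164a4c4e666daaadcccdec8a], [0,
    0xc22666eaaaecccee64c22666eaaaecccee6862a2c41e,
    0x119111eccc25411a1c1e51866caacccced8113151e3151666caaccd8e, 0,
    0xa44666daaadcccdec164c4a82a44666daaadcccdec8e]]

noncomputable def n3812 : Ent := ⟨e3812, noF, [], [], [(15, 13, [7334790850179967773244209365633050764349689593036594798292870089252865, 0]), (15, 14, [7334790875878422277917280412776772662961875900559637987928627385065473, 0]), (16, 13, [7334685537894576317792898128369202883340578364357296604626079812812801, 0]), (16, 14, [7334685589297762428874426903420482469988158645819485339342058438926337, 0]), (12, 17, [6903326391201334775872065844685381424292761054348340378595029945298945, 0])]⟩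

def c3812 : PLift (Cov.check n3812.C.D v3812 = true) := ⟨by decide +kernel⟩

def b3812 : PLift (entF (fidx ts) 400 3812 n3812 = true) := ⟨by decide +kernel⟩

theorem g3812 : GoodF (fidx ts) 400 3812 := GoodF.ofV v3812 n3812 c3812.down b3812.down

/-- 756664:2781/2 -/
noncomputable def e3813 : SCfg where
  D := {
    a := 6
    L := 10
    kp := 7
    inn := [(0, 1), (0, 2), (0, 3), (1, 0), (1, 2), (1, 4), (2, 0), (2, 1), (2, 4), (3, 0), (3, 5), (4,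
      1), (4, 2), (5, 3)]
    mix := [(0, 0), (0, 1), (0, 2), (0, 3), (1, 2), (1, 4), (2, 3), (2, 5), (2, 6), (3, 0), (3, 3), (3,
      7), (3, 8), (4, 4), (4, 5), (4, 8), (4, 9), (5, 4), (5, 7), (5, 8)]
    cl := [1, 6, 2, 1, 0, 0, 5, 4, 3, 7]
    chq := [(0, 1), (1, 0), (1, 2), (2, 1), (2, 5), (5, 2)]
    rng := [(0, 1), (0, 8), (1, 0), (1, 2), (2, 1), (2, 4), (3, 6), (3, 7), (4, 2), (4, 7), (4, 8), (5,
      6), (5, 9), (6, 3), (6, 5), (7, 3), (7, 4), (8, 0), (8, 4), (8, 9), (9, 5), (9, 8)]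
    lev := [] }
  links := [[6, 7, 8, 1, 2, 9, 3], [2, 0, 8, 10, 4], [9, 0, 1, 4, 11, 12], [6, 0, 9, 13, 5, 14], [11, 2,
    1, 10, 14, 15], [3, 13, 10, 14]]
  P := {
    a := 6
    N := 16
    nb := [974, 1301, 6675, 25185, 52230, 25608, 16521, 321, 1155, 12301, 24882, 36884, 2564, 1576,
      33912, 18448]
    tri := [(0, 1, 2), (0, 1, 8), (0, 2, 9), (0, 3, 6), (0, 3, 9), (0, 6, 7), (0, 7, 8), (1, 2, 4), (1,
      4, 10), (1, 8, 10), (2, 4, 11), (2, 9, 12), (2, 11, 12), (3, 5, 13), (3, 5, 14), (3, 6, 14),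
      (3, 9, 13), (4, 10, 14), (4, 11, 15), (4, 14, 15), (5, 10, 13), (5, 10, 14)]
    fin := [0, 1, 1, 0, 4, 0, 0, 7, 1, 0, 4, 4, 12, 13, 14, 15]
    chd := [(0, 1), (0, 4), (1, 12)]
    steps := [(0, 3), (0, 5), (0, 6), (0, 9), (1, 2), (1, 8), (4, 10), (4, 11)] }
  rep := [4, 0, 1, 14, 13, 12, 7, 15]

noncomputable def v3813 : Cov.CovD where
  P := 3
  N := 5
  pl := [1, 7, 8, 9]
  lev := [⟨[], [], [(1, 1), (1, 2)], [6], [(0, 1, [0, 2]), (2, 2, [1, 5]), (3, 1, [0, 2])]⟩,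
    ⟨[], [(0, 0), (0, 1), (0, 2)], [(0, 2)], [], [(2, 2, [1, 5]), (4, 0, [1])]⟩,
    ⟨[(0, 1)], [(0, 0), (0, 1), (0, 2), (0, 5), (1, 0), (1, 1), (1, 2), (1, 5)], [(0, 1),
      (0, 5), (1, 5)], [], [(3, 1, [0, 2]), (5, 0, [1]), (6, 5, [2])]⟩,
    ⟨[(0, 1), (0, 2)], [(0, 1), (0, 2), (2, 1)], [(1, 1)], [3, 4], [(0, 1, [0, 2]), (3, 1,
      [0, 2])]⟩,
    ⟨[(0, 1), (0, 2), (1, 2)], [(1, 0), (1, 2), (2, 0), (2, 1), (2, 5)], [(0, 0)], [3, 7],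
      [(4, 0, [1]), (5, 0, [1])]⟩,
    ⟨[(0, 3)], [(1, 0), (3, 0), (3, 1), (4, 0)], [], [3, 4], [(4, 0, [1])]⟩]
  Ta := [((0, 1), 1, 6), ((0, 8), 1, 3), ((3, 6), 1, 5), ((3, 7), 1, 4), ((4, 2), 0, 2), ((4, 7),
    0, 4), ((4, 8), 0, 3), ((5, 6), 0, 5), ((5, 9), 0, 7)]
  Tb := [((0, 1, 8), 1, 6, 3), ((1, 0, 2), 6, 1, 2), ((2, 1, 4), 2, 6, 0), ((3, 6, 7), 1, 5, 4),
    ((4, 2, 7), 0, 2, 4), ((4, 2, 8), 0, 2, 3), ((4, 7, 8), 0, 4, 3), ((5, 6, 9), 0, 5, 7),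
    ((6, 3, 5), 5, 1, 0), ((7, 3, 4), 4, 1, 0), ((8, 0, 4), 3, 1, 0), ((8, 0, 9), 3, 1, 7),
    ((8, 4, 9), 3, 0, 7), ((9, 5, 8), 7, 0, 3)]
  Tc := [(1, 0, 2), (2, 1, 5)]
  Td := [((0, 1), (4, 2), 2), ((0, 1), (4, 7), 4), ((0, 1), (4, 8), 3), ((0, 1), (5, 6), 5), ((0,
    1), (5, 9), 7), ((1, 0), (0, 1), 6), ((1, 0), (0, 8), 3), ((1, 0), (3, 6), 5), ((1, 0),
    (3, 7), 4), ((1, 2), (0, 1), 6), ((1, 2), (0, 8), 3), ((1, 2), (3, 6), 5), ((1, 2), (3,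
    7), 4), ((2, 1), (2, 1), 6), ((2, 1), (2, 4), 0), ((2, 5), (2, 1), 6), ((2, 5), (2, 4),
    0), ((5, 2), (6, 3), 1), ((5, 2), (6, 5), 0)]
  G := [[0, 0x122111e441e121ee64122888e111e111ee681212c48e, 0xee2e114ee2e118c,
    0x22a426222ed14224188a22a91242451ec, 0x22a444eaa2ed12446ac5288a2222d4a9], [0,
    0x121212e111e141e121ee641248222a888e111e222eee8c, 0xa6ee112a6ee118c,
    0x22a446222ed1488a226222ed18c, 0x22a446a2aed124424588a446222edc89], [0,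
    0x222111e444e111ee64222818e111e211ee688212c44e, 0, 0x22122122c1e822122122c1e45,
    0x221eec161e2a1e41689], [0, 0x111e82222444e222e6a5222118e111e122ee688242c81e, 0,
    0x22122122c1e422122122c1e8c, 0x42a6ae54164188a6ee142d]]

noncomputable def n3813 : Ent := ⟨e3813, noF, [], [], []⟩

def c3813 : PLift (Cov.check n3813.C.D v3813 = true) := ⟨by decide +kernel⟩

def b3813 : PLift (entF (fidx ts) 400 3813 n3813 = true) := ⟨by decide +kernel⟩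

theorem g3813 : GoodF (fidx ts) 400 3813 := GoodF.ofV v3813 n3813 c3813.down b3813.down

/-- 756664:2781/1 -/
noncomputable def e3814 : SCfg where
  D := {
    a := 6
    L := 11
    kp := 8
    inn := [(0, 1), (0, 2), (0, 3), (1, 0), (1, 2), (1, 4), (2, 0), (2, 1), (2, 4), (3, 0), (3, 5), (4,
      1), (4, 2), (5, 3)]
    mix := [(0, 0), (0, 1), (0, 2), (0, 3), (1, 2), (1, 4), (2, 3), (2, 5), (2, 6), (3, 0), (3, 3), (3,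
      7), (3, 8), (4, 4), (4, 5), (4, 9), (4, 10), (5, 4), (5, 7), (5, 8)]
    cl := [1, 6, 2, 1, 0, 0, 5, 3, 4, 7, 8]
    chq := [(0, 1), (1, 0), (1, 2), (2, 1), (2, 5), (5, 2)]
    rng := [(0, 1), (0, 8), (1, 0), (1, 2), (2, 1), (2, 4), (3, 6), (3, 7), (4, 2), (4, 7), (4, 8), (4,
      9), (5, 6), (5, 10), (6, 3), (6, 5), (7, 3), (7, 4), (8, 0), (8, 4), (9, 4), (9, 10), (10,
      5), (10, 9)]
    lev := [] }
  links := [[6, 7, 8, 1, 2, 9, 3], [2, 0, 8, 10, 4], [9, 0, 1, 4, 11, 12], [6, 0, 9, 13, 5, 14], [11, 2,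
    1, 10, 15, 16], [3, 13, 10, 14]]
  P := {
    a := 6
    N := 17
    nb := [974, 1301, 6675, 25185, 101382, 25608, 16521, 321, 1155, 12301, 57650, 69652, 2564, 1576,
      1128, 66576, 34832]
    tri := [(0, 1, 2), (0, 1, 8), (0, 2, 9), (0, 3, 6), (0, 3, 9), (0, 6, 7), (0, 7, 8), (1, 2, 4), (1,
      4, 10), (1, 8, 10), (2, 4, 11), (2, 9, 12), (2, 11, 12), (3, 5, 13), (3, 5, 14), (3, 6, 14),
      (3, 9, 13), (4, 10, 15), (4, 11, 16), (4, 15, 16), (5, 10, 13), (5, 10, 14)]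
    fin := [0, 1, 1, 0, 4, 0, 0, 7, 1, 0, 4, 4, 12, 13, 14, 15, 16]
    chd := [(0, 1), (0, 4), (1, 12)]
    steps := [(0, 3), (0, 5), (0, 6), (0, 9), (1, 2), (1, 8), (4, 10), (4, 11)] }
  rep := [4, 0, 1, 13, 14, 12, 7, 15, 16]

noncomputable def v3814 : Cov.CovD where
  P := 3
  N := 6
  pl := [1, 7, 8, 9, 10]
  lev := [⟨[], [], [(1, 1), (1, 2)], [6], [(0, 1, [0, 2]), (2, 2, [1, 5]), (3, 1, [0, 2])]⟩,
    ⟨[], [(0, 0), (0, 1), (0, 2)], [(0, 2)], [], [(2, 2, [1, 5]), (4, 0, [1])]⟩,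
    ⟨[(0, 1)], [(0, 0), (0, 1), (0, 2), (0, 5), (1, 0), (1, 1), (1, 2), (1, 5)], [(0, 1),
      (0, 5), (1, 5)], [], [(3, 1, [0, 2]), (5, 0, [1]), (6, 5, [2])]⟩,
    ⟨[(0, 1), (0, 2)], [(0, 1), (0, 2), (2, 1)], [(1, 1)], [3, 4], [(0, 1, [0, 2]), (3, 1,
      [0, 2])]⟩,
    ⟨[(0, 1), (0, 2), (1, 2)], [(1, 0), (1, 2), (2, 0), (2, 1), (2, 5)], [(0, 0)], [7, 8],
      [(4, 0, [1]), (5, 0, [1])]⟩,
    ⟨[(0, 3)], [(1, 0), (3, 0), (3, 1), (4, 0)], [], [3, 4], [(4, 0, [1])]⟩]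
  Ta := [((0, 1), 1, 6), ((0, 8), 1, 4), ((3, 6), 1, 5), ((3, 7), 1, 3), ((4, 2), 0, 2), ((4, 7),
    0, 3), ((4, 8), 0, 4), ((4, 9), 0, 7), ((5, 6), 0, 5), ((5, 10), 0, 8)]
  Tb := [((0, 1, 8), 1, 6, 4), ((1, 0, 2), 6, 1, 2), ((2, 1, 4), 2, 6, 0), ((3, 6, 7), 1, 5, 3),
    ((4, 2, 7), 0, 2, 3), ((4, 2, 8), 0, 2, 4), ((4, 2, 9), 0, 2, 7), ((4, 7, 8), 0, 3, 4),
    ((4, 7, 9), 0, 3, 7), ((4, 8, 9), 0, 4, 7), ((5, 6, 10), 0, 5, 8), ((6, 3, 5), 5, 1, 0),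
    ((7, 3, 4), 3, 1, 0), ((8, 0, 4), 4, 1, 0), ((9, 4, 10), 7, 0, 8), ((10, 5, 9), 8, 0, 7)]
  Tc := [(1, 0, 2), (2, 1, 5)]
  Td := [((0, 1), (4, 2), 2), ((0, 1), (4, 7), 3), ((0, 1), (4, 8), 4), ((0, 1), (4, 9), 7), ((0,
    1), (5, 6), 5), ((0, 1), (5, 10), 8), ((1, 0), (0, 1), 6), ((1, 0), (0, 8), 4), ((1, 0),
    (3, 6), 5), ((1, 0), (3, 7), 3), ((1, 2), (0, 1), 6), ((1, 2), (0, 8), 4), ((1, 2), (3,
    6), 5), ((1, 2), (3, 7), 3), ((2, 1), (2, 1), 6), ((2, 1), (2, 4), 0), ((2, 5), (2, 1),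
    6), ((2, 5), (2, 4), 0), ((5, 2), (6, 3), 1), ((5, 2), (6, 5), 0)]
  G := [[0, 0x222111e444e122ee64111e42222888e222eaa98212c44e, 0xeeee114eeee112c,
    0x226422e222ed1488a2222d1882c42c22cd24d, 0x222e444eaaaed12824222d88c44c22cd689], [0,
    0x111e82222444e222e665111e42222888e222ea698242c81e, 0xeeee114eeee118c,
    0x222e442e22d1422222e222ed1882c22c928d, 0x222e444eaaaed12844424d888e444e222edc29], [0,
    0x122111e414e121ee64222188e111e221ee688242c81e, 0, 0x22122122c1e422122122c1e49,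
    0xe41eeee1c2e21eec1689], [0, 0x222111e144e112eea4222881e111e222eea88242c41e, 0,
    0x22122122c1e422122122c1e8c, 0xeeee141e4181eeee148d]]

noncomputable def n3814 : Ent := ⟨e3814, noF, [], [], [(15, 14, [1685382413448253767852309107433119732572617628602273068445380530177, 0])]⟩

def c3814 : PLift (Cov.check n3814.C.D v3814 = true) := ⟨by decide +kernel⟩

def b3814 : PLift (entF (fidx ts) 400 3814 n3814 = true) := ⟨by decide +kernel⟩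

theorem g3814 : GoodF (fidx ts) 400 3814 := GoodF.ofV v3814 n3814 c3814.down b3814.down

/-- 756664:2781/4 -/
noncomputable def e3815 : SCfg where
  D := {
    a := 6
    L := 10
    kp := 7
    inn := [(0, 1), (0, 2), (0, 3), (1, 0), (1, 2), (1, 4), (2, 0), (2, 1), (2, 4), (3, 0), (3, 5), (4,
      1), (4, 2), (5, 3)]
    mix := [(0, 0), (0, 1), (0, 2), (0, 3), (1, 2), (1, 4), (2, 3), (2, 5), (2, 6), (3, 0), (3, 3), (3,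
      7), (3, 8), (4, 4), (4, 5), (4, 8), (4, 9), (5, 7), (5, 8), (5, 9)]
    cl := [0, 7, 2, 0, 3, 3, 6, 5, 1, 4]
    chq := [(0, 2), (0, 4), (2, 0), (2, 6), (4, 0), (6, 2)]
    rng := [(0, 1), (0, 8), (1, 0), (1, 2), (2, 1), (2, 4), (3, 6), (3, 7), (4, 2), (4, 9), (5, 6), (5,
      8), (6, 3), (6, 5), (7, 3), (7, 9), (8, 0), (8, 5), (8, 9), (9, 4), (9, 7), (9, 8)]
    lev := [] }
  links := [[6, 7, 8, 1, 2, 9, 3], [2, 0, 8, 10, 4], [9, 0, 1, 4, 11, 12], [6, 0, 9, 13, 5, 14], [11, 2,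
    1, 10, 15, 14], [3, 13, 15, 14]]
  P := {
    a := 6
    N := 16
    nb := [974, 1301, 6675, 25185, 52230, 57352, 16521, 321, 1155, 12301, 33042, 20500, 2564, 33320,
      34936, 25648]
    tri := [(0, 1, 2), (0, 1, 8), (0, 2, 9), (0, 3, 6), (0, 3, 9), (0, 6, 7), (0, 7, 8), (1, 2, 4), (1,
      4, 10), (1, 8, 10), (2, 4, 11), (2, 9, 12), (2, 11, 12), (3, 5, 13), (3, 5, 14), (3, 6, 14),
      (3, 9, 13), (4, 10, 15), (4, 11, 14), (4, 14, 15), (5, 13, 15), (5, 14, 15)]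
    fin := [0, 1, 1, 0, 4, 0, 0, 7, 1, 0, 4, 4, 12, 13, 14, 15]
    chd := [(0, 1), (0, 15), (1, 12)]
    steps := [(0, 3), (0, 5), (0, 6), (0, 9), (1, 2), (1, 8), (4, 10), (4, 11)] }
  rep := [0, 14, 1, 4, 15, 13, 12, 7]

noncomputable def v3815 : Cov.CovD where
  P := 3
  N := 5
  pl := [1, 7, 8]
  lev := [⟨[], [], [(0, 0), (0, 2)], [7], [(0, 0, [2, 4]), (2, 2, [0, 6]), (3, 0, [2, 4])]⟩,
    ⟨[], [(0, 0), (0, 2), (0, 3)], [(2, 3)], [], [(2, 2, [0, 6]), (4, 3, [])]⟩,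
    ⟨[(0, 1)], [(0, 0), (0, 2), (0, 3), (0, 6), (1, 0), (1, 2), (1, 3), (1, 6)], [(0, 3),
      (0, 6), (3, 6)], [], [(3, 0, [2, 4]), (5, 3, []), (6, 6, [2])]⟩,
    ⟨[(0, 1), (0, 2)], [(0, 0), (0, 2), (2, 0)], [(0, 0)], [1, 5], [(0, 0, [2, 4]), (3, 0,
      [2, 4])]⟩,
    ⟨[(0, 1), (0, 2), (1, 2)], [(1, 2), (1, 3), (1, 4), (2, 0), (2, 3), (2, 4), (2, 6)],
      [(3, 3), (3, 4)], [1], [(4, 3, []), (5, 3, []), (9, 4, [0])]⟩,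
    ⟨[(0, 3)], [(3, 0), (3, 4), (4, 4)], [], [1, 5], [(9, 4, [0])]⟩]
  Ta := [((0, 1), 0, 7), ((0, 8), 0, 1), ((3, 6), 0, 6), ((3, 7), 0, 5), ((4, 2), 3, 2), ((4, 9),
    3, 4), ((5, 6), 3, 6), ((5, 8), 3, 1)]
  Tb := [((0, 1, 8), 0, 7, 1), ((1, 0, 2), 7, 0, 2), ((2, 1, 4), 2, 7, 3), ((3, 6, 7), 0, 6, 5),
    ((4, 2, 9), 3, 2, 4), ((5, 6, 8), 3, 6, 1), ((6, 3, 5), 6, 0, 3), ((7, 3, 9), 5, 0, 4),
    ((8, 0, 5), 1, 0, 3), ((8, 0, 9), 1, 0, 4), ((8, 5, 9), 1, 3, 4), ((9, 4, 7), 4, 3, 5),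
    ((9, 4, 8), 4, 3, 1), ((9, 7, 8), 4, 5, 1)]
  Tc := [(0, 2, 4), (2, 0, 6)]
  Td := [((0, 2), (0, 1), 7), ((0, 2), (0, 8), 1), ((0, 2), (3, 6), 6), ((0, 2), (3, 7), 5), ((0,
    4), (0, 1), 7), ((0, 4), (0, 8), 1), ((0, 4), (3, 6), 6), ((0, 4), (3, 7), 5), ((2, 0),
    (2, 1), 7), ((2, 0), (2, 4), 3), ((2, 6), (2, 1), 7), ((2, 6), (2, 4), 3), ((4, 0), (9,
    4), 3), ((4, 0), (9, 7), 5), ((4, 0), (9, 8), 1), ((6, 2), (6, 3), 0), ((6, 2), (6, 5),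
    3)]
  G := [[0, 0xc2c2a622ca48e826e61c222a8c4e662eaa1c, 0x1111c221111c821111c42e,
    0x11c11cc2119119c2581c11cc2815115c29c, 0x111d111dc1414c621414c111d111dcc2a], [0,
    0x44ce882e61488ce442ea18c, 0x1111c1111c621111c1111ca21111c1111cc4e,
    0x111d141dc21111d111dc28c, 0x111d111dc1414c62111d141dc1444c61a], [0, 0,
    0x1111c221111c821111c42e, 0x11c94cc2159199c2585c11cc28d5115c29c,
    0x111d94ddc1444c621444c859d115dcc2a], [0, 0, 0x1141111c1111ce21181181111ce81111c114c8e,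
    0x111d94ddc24855d119dc21c, 0x111d94ddc1444c61819d145dc1444c68a]]

noncomputable def n3815 : Ent := ⟨e3815, noF, [], [], []⟩

def c3815 : PLift (Cov.check n3815.C.D v3815 = true) := ⟨by decide +kernel⟩

def b3815 : PLift (entF (fidx ts) 400 3815 n3815 = true) := ⟨by decide +kernel⟩

theorem g3815 : GoodF (fidx ts) 400 3815 := GoodF.ofV v3815 n3815 c3815.down b3815.down

/-- 756664:2781/3 -/
noncomputable def e3816 : SCfg where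
  D := {
    a := 6
    L := 11
    kp := 8
    inn := [(0, 1), (0, 2), (0, 3), (1, 0), (1, 2), (1, 4), (2, 0), (2, 1), (2, 4), (3, 0), (3, 5), (4,
      1), (4, 2), (5, 3)]
    mix := [(0, 0), (0, 1), (0, 2), (0, 3), (1, 2), (1, 4), (2, 3), (2, 5), (2, 6), (3, 0), (3, 3), (3,
      7), (3, 8), (4, 4), (4, 5), (4, 9), (4, 10), (5, 7), (5, 8), (5, 9)]
    cl := [0, 7, 2, 0, 1, 1, 6, 4, 5, 3, 8]
    chq := [(0, 2), (0, 3), (2, 0), (2, 6), (3, 0), (6, 2)]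
    rng := [(0, 1), (0, 8), (1, 0), (1, 2), (2, 1), (2, 4), (3, 6), (3, 7), (4, 2), (4, 9), (5, 6), (5,
      10), (6, 3), (6, 5), (7, 3), (7, 9), (8, 0), (8, 9), (9, 4), (9, 7), (9, 8), (9, 10), (10,
      5), (10, 9)]
    lev := [] }
  links := [[6, 7, 8, 1, 2, 9, 3], [2, 0, 8, 10, 4], [9, 0, 1, 4, 11, 12], [6, 0, 9, 13, 5, 14], [11, 2,
    1, 10, 15, 16], [3, 13, 15, 14]]
  P := {
    a := 6
    N := 17
    nb := [974, 1301, 6675, 25185, 101382, 57352, 16521, 321, 1155, 12301, 33042, 69652, 2564, 33320,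
      32872, 91184, 34832]
    tri := [(0, 1, 2), (0, 1, 8), (0, 2, 9), (0, 3, 6), (0, 3, 9), (0, 6, 7), (0, 7, 8), (1, 2, 4), (1,
      4, 10), (1, 8, 10), (2, 4, 11), (2, 9, 12), (2, 11, 12), (3, 5, 13), (3, 5, 14), (3, 6, 14),
      (3, 9, 13), (4, 10, 15), (4, 11, 16), (4, 15, 16), (5, 13, 15), (5, 14, 15)]
    fin := [0, 1, 1, 0, 4, 0, 0, 7, 1, 0, 4, 4, 12, 13, 14, 15, 16]
    chd := [(0, 1), (0, 15), (1, 12)]
    steps := [(0, 3), (0, 5), (0, 6), (0, 9), (1, 2), (1, 8), (4, 10), (4, 11)] }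
  rep := [0, 4, 1, 15, 13, 14, 12, 7, 16]

noncomputable def v3816 : Cov.CovD where
  P := 3
  N := 6
  pl := [1, 7, 8, 10]
  lev := [⟨[], [], [(0, 0), (0, 2)], [7], [(0, 0, [2, 3]), (2, 2, [0, 6]), (3, 0, [2, 3])]⟩,
    ⟨[], [(0, 0), (0, 1), (0, 2)], [(1, 2)], [], [(2, 2, [0, 6]), (4, 1, [])]⟩,
    ⟨[(0, 1)], [(0, 0), (0, 1), (0, 2), (0, 6), (1, 0), (1, 1), (1, 2), (1, 6)], [(0, 1),
      (0, 6), (1, 6)], [], [(3, 0, [2, 3]), (5, 1, []), (6, 6, [2])]⟩,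
    ⟨[(0, 1), (0, 2)], [(0, 0), (0, 2), (2, 0)], [(0, 0)], [4, 5], [(0, 0, [2, 3]), (3, 0,
      [2, 3])]⟩,
    ⟨[(0, 1), (0, 2), (1, 2)], [(1, 1), (1, 2), (1, 3), (2, 0), (2, 1), (2, 3), (2, 6)],
      [(1, 1), (1, 3)], [8], [(4, 1, []), (5, 1, []), (9, 3, [0])]⟩,
    ⟨[(0, 3)], [(3, 0), (3, 3), (4, 3)], [], [4, 5], [(9, 3, [0])]⟩]
  Ta := [((0, 1), 0, 7), ((0, 8), 0, 5), ((3, 6), 0, 6), ((3, 7), 0, 4), ((4, 2), 1, 2), ((4, 9),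
    1, 3), ((5, 6), 1, 6), ((5, 10), 1, 8)]
  Tb := [((0, 1, 8), 0, 7, 5), ((1, 0, 2), 7, 0, 2), ((2, 1, 4), 2, 7, 1), ((3, 6, 7), 0, 6, 4),
    ((4, 2, 9), 1, 2, 3), ((5, 6, 10), 1, 6, 8), ((6, 3, 5), 6, 0, 1), ((7, 3, 9), 4, 0, 3),
    ((8, 0, 9), 5, 0, 3), ((9, 4, 7), 3, 1, 4), ((9, 4, 8), 3, 1, 5), ((9, 4, 10), 3, 1, 8),
    ((9, 7, 8), 3, 4, 5), ((9, 7, 10), 3, 4, 8), ((9, 8, 10), 3, 5, 8), ((10, 5, 9), 8, 1,
    3)]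
  Tc := [(0, 2, 3), (2, 0, 6)]
  Td := [((0, 2), (0, 1), 7), ((0, 2), (0, 8), 5), ((0, 2), (3, 6), 6), ((0, 2), (3, 7), 4), ((0,
    3), (0, 1), 7), ((0, 3), (0, 8), 5), ((0, 3), (3, 6), 6), ((0, 3), (3, 7), 4), ((2, 0),
    (2, 1), 7), ((2, 0), (2, 4), 1), ((2, 6), (2, 1), 7), ((2, 6), (2, 4), 1), ((3, 0), (9,
    4), 1), ((3, 0), (9, 7), 4), ((3, 0), (9, 8), 5), ((3, 0), (9, 10), 8), ((6, 2), (6, 3),
    0), ((6, 2), (6, 5), 1)]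
  G := [[0, 0x12d222e135e949ef92ee649245222a87de311e5d2eee8c,
    0x1191121e24115111d121de2811c14c11ce18e, 0x115d949d222de2185dd111d222de28c,
    0x111db4dd9b2de218171c3434c14e5839119a49a], [0,
    0x529222e131eb4ded92ee61d21222e8dde111e772eea8c,
    0x11216111121e11c14c11ced411884111111e111111e81c11c11ced4e, 0,
    0x119d9229e11c4424e528b97111e3434c11ce58a], [0,
    0x12d222e111ef4de9b2ee64529222e8dde111e772eea8c, 0x111d111d211de24119111d111de214829c,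
    0x111d94dd222de2485dd111d222de28c, 0x111d94dd3bade21344414e83bd347d111dec1a], [0,
    0x222131ed4deb92ee6422285de311e5f2eea8d212c48e,
    0x11444111111e1111a11c11c12ced2111111e111111e81c14c11ced8e, 0,
    0x444111d94dd222dec21424a8244483bd347d111dec8e]]

noncomputable def n3816 : Ent := ⟨e3816, noF, [], [], [(16, 14, [1580095832788404724998799751142926758855362888449624481876434382849, 0])]⟩

def c3816 : PLift (Cov.check n3816.C.D v3816 = true) := ⟨by decide +kernel⟩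

def b3816 : PLift (entF (fidx ts) 400 3816 n3816 = true) := ⟨by decide +kernel⟩

theorem g3816 : GoodF (fidx ts) 400 3816 := GoodF.ofV v3816 n3816 c3816.down b3816.down

/-- 756664:2781/6 -/
noncomputable def e3817 : SCfg where
  D := {
    a := 6
    L := 10
    kp := 7
    inn := [(0, 1), (0, 2), (0, 3), (1, 0), (1, 2), (1, 4), (2, 0), (2, 1), (2, 4), (3, 0), (3, 5), (4,
      1), (4, 2), (5, 3)]
    mix := [(0, 0), (0, 1), (0, 2), (0, 3), (1, 2), (1, 4), (2, 3), (2, 5), (2, 6), (3, 0), (3, 3), (3,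
      7), (3, 8), (4, 4), (4, 5), (4, 8), (4, 9), (5, 7), (5, 8), (5, 9)]
    cl := [0, 7, 2, 0, 3, 3, 6, 5, 1, 4]
    chq := [(0, 2), (0, 4), (2, 0), (2, 6), (4, 0), (6, 2)]
    rng := [(0, 1), (0, 8), (1, 0), (1, 2), (2, 1), (2, 4), (3, 6), (3, 7), (4, 2), (4, 8), (5, 6), (5,
      9), (6, 3), (6, 5), (7, 3), (7, 9), (8, 0), (8, 4), (8, 9), (9, 5), (9, 7), (9, 8)]
    lev := [] }
  links := [[6, 7, 8, 1, 2, 9, 3], [2, 0, 8, 10, 4], [9, 0, 1, 4, 11, 12], [6, 0, 9, 13, 5, 14], [11, 2,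
    1, 10, 14, 15], [3, 13, 15, 14]]
  P := {
    a := 6
    N := 16
    nb := [974, 1301, 6675, 25185, 52230, 57352, 16521, 321, 1155, 12301, 16658, 36884, 2564, 33320,
      33912, 26672]
    tri := [(0, 1, 2), (0, 1, 8), (0, 2, 9), (0, 3, 6), (0, 3, 9), (0, 6, 7), (0, 7, 8), (1, 2, 4), (1,
      4, 10), (1, 8, 10), (2, 4, 11), (2, 9, 12), (2, 11, 12), (3, 5, 13), (3, 5, 14), (3, 6, 14),
      (3, 9, 13), (4, 10, 14), (4, 11, 15), (4, 14, 15), (5, 13, 15), (5, 14, 15)]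
    fin := [0, 1, 1, 0, 4, 0, 0, 7, 1, 0, 4, 4, 12, 13, 14, 15]
    chd := [(0, 1), (0, 15), (1, 12)]
    steps := [(0, 3), (0, 5), (0, 6), (0, 9), (1, 2), (1, 8), (4, 10), (4, 11)] }
  rep := [0, 14, 1, 4, 15, 13, 12, 7]

noncomputable def v3817 : Cov.CovD where
  P := 3
  N := 5
  pl := [1, 7, 8]
  lev := [⟨[], [], [(0, 0), (0, 2)], [7], [(0, 0, [2, 4]), (2, 2, [0, 6]), (3, 0, [2, 4])]⟩,
    ⟨[], [(0, 0), (0, 2), (0, 3)], [(2, 3)], [], [(2, 2, [0, 6]), (4, 3, [])]⟩,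
    ⟨[(0, 1)], [(0, 0), (0, 2), (0, 3), (0, 6), (1, 0), (1, 2), (1, 3), (1, 6)], [(0, 3),
      (0, 6), (3, 6)], [], [(3, 0, [2, 4]), (5, 3, []), (6, 6, [2])]⟩,
    ⟨[(0, 1), (0, 2)], [(0, 0), (0, 2), (2, 0)], [(0, 0)], [1, 5], [(0, 0, [2, 4]), (3, 0,
      [2, 4])]⟩,
    ⟨[(0, 1), (0, 2), (1, 2)], [(1, 2), (1, 3), (1, 4), (2, 0), (2, 3), (2, 4), (2, 6)],
      [(3, 3), (3, 4)], [1], [(4, 3, []), (5, 3, []), (9, 4, [0])]⟩,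
    ⟨[(0, 3)], [(3, 0), (3, 4), (4, 4)], [], [1, 5], [(9, 4, [0])]⟩]
  Ta := [((0, 1), 0, 7), ((0, 8), 0, 1), ((3, 6), 0, 6), ((3, 7), 0, 5), ((4, 2), 3, 2), ((4, 8),
    3, 1), ((5, 6), 3, 6), ((5, 9), 3, 4)]
  Tb := [((0, 1, 8), 0, 7, 1), ((1, 0, 2), 7, 0, 2), ((2, 1, 4), 2, 7, 3), ((3, 6, 7), 0, 6, 5),
    ((4, 2, 8), 3, 2, 1), ((5, 6, 9), 3, 6, 4), ((6, 3, 5), 6, 0, 3), ((7, 3, 9), 5, 0, 4),
    ((8, 0, 4), 1, 0, 3), ((8, 0, 9), 1, 0, 4), ((8, 4, 9), 1, 3, 4), ((9, 5, 7), 4, 3, 5),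
    ((9, 5, 8), 4, 3, 1), ((9, 7, 8), 4, 5, 1)]
  Tc := [(0, 2, 4), (2, 0, 6)]
  Td := [((0, 2), (0, 1), 7), ((0, 2), (0, 8), 1), ((0, 2), (3, 6), 6), ((0, 2), (3, 7), 5), ((0,
    4), (0, 1), 7), ((0, 4), (0, 8), 1), ((0, 4), (3, 6), 6), ((0, 4), (3, 7), 5), ((2, 0),
    (2, 1), 7), ((2, 0), (2, 4), 3), ((2, 6), (2, 1), 7), ((2, 6), (2, 4), 3), ((4, 0), (9,
    5), 3), ((4, 0), (9, 7), 5), ((4, 0), (9, 8), 1), ((6, 2), (6, 3), 0), ((6, 2), (6, 5),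
    3)]
  G := [[0, 0xc2226e48e8a2e661c222a846e6e4eaa1c, 0x1111c21111c8a1111c41111c8c6,
    0x11c11cc2119119c2511c11cc2815115c29c, 0x11c11cc1444c6119419c43811d141dc4185415c8aa], [0,
    0x44ce882e61488ce442ea18c, 0x114441111c1181111ce21111c1111c1111ce4e,
    0x111d141dc24811d111dc28c, 0x111d111dc1414c62811d111dc1444c61a], [0, 0,
    0x1111c21111c461111c41111c8ca, 0x11c94cc21191d9c2585c11cc21d5115c29c,
    0x4954211c94ddc148611984b811d144dc4185415c8aa], [0, 0,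
    0x1111c1111c641111c881111c1111c1111ce4e, 0x111d94ddc2485dd111dc28c,
    0x444111d94ddcc214821858d111dc44468e]]

noncomputable def n3817 : Ent := ⟨e3817, noF, [], [], []⟩

def c3817 : PLift (Cov.check n3817.C.D v3817 = true) := ⟨by decide +kernel⟩

def b3817 : PLift (entF (fidx ts) 400 3817 n3817 = true) := ⟨by decide +kernel⟩

theorem g3817 : GoodF (fidx ts) 400 3817 := GoodF.ofV v3817 n3817 c3817.down b3817.down

/-- 756664:2781/5 -/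
noncomputable def e3818 : SCfg where
  D := {
    a := 6
    L := 11
    kp := 8
    inn := [(0, 1), (0, 2), (0, 3), (1, 0), (1, 2), (1, 4), (2, 0), (2, 1), (2, 4), (3, 0), (3, 5), (4,
      1), (4, 2), (5, 3)]
    mix := [(0, 0), (0, 1), (0, 2), (0, 3), (1, 2), (1, 4), (2, 3), (2, 5), (2, 6), (3, 0), (3, 3), (3,
      7), (3, 8), (4, 4), (4, 5), (4, 8), (4, 9), (5, 7), (5, 8), (5, 10)]
    cl := [3, 7, 2, 3, 0, 0, 5, 4, 1, 8, 6]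
    chq := [(2, 3), (2, 5), (3, 2), (3, 6), (5, 2), (6, 3)]
    rng := [(0, 1), (0, 8), (1, 0), (1, 2), (2, 1), (2, 4), (3, 6), (3, 7), (4, 2), (4, 8), (5, 6), (5,
      9), (6, 3), (6, 5), (7, 3), (7, 10), (8, 0), (8, 4), (8, 9), (8, 10), (9, 5), (9, 8), (10,
      7), (10, 8)]
    lev := [] }
  links := [[6, 7, 8, 1, 2, 9, 3], [2, 0, 8, 10, 4], [9, 0, 1, 4, 11, 12], [6, 0, 9, 13, 5, 14], [11, 2,
    1, 10, 14, 15], [3, 13, 16, 14]]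
  P := {
    a := 6
    N := 17
    nb := [974, 1301, 6675, 25185, 52230, 90120, 16521, 321, 1155, 12301, 16658, 36884, 2564, 66088,
      99448, 18448, 24608]
    tri := [(0, 1, 2), (0, 1, 8), (0, 2, 9), (0, 3, 6), (0, 3, 9), (0, 6, 7), (0, 7, 8), (1, 2, 4), (1,
      4, 10), (1, 8, 10), (2, 4, 11), (2, 9, 12), (2, 11, 12), (3, 5, 13), (3, 5, 14), (3, 6, 14),
      (3, 9, 13), (4, 10, 14), (4, 11, 15), (4, 14, 15), (5, 13, 16), (5, 14, 16)]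
    fin := [0, 1, 1, 0, 4, 0, 0, 7, 1, 0, 4, 4, 12, 13, 14, 15, 16]
    chd := [(0, 1), (0, 16), (1, 12)]
    steps := [(0, 3), (0, 5), (0, 6), (0, 9), (1, 2), (1, 8), (4, 10), (4, 11)] }
  rep := [4, 14, 1, 0, 13, 12, 16, 7, 15]

noncomputable def v3818 : Cov.CovD where
  P := 3
  N := 6
  pl := [1, 7, 8, 9]
  lev := [⟨[], [], [(2, 3), (3, 3)], [7], [(0, 3, [2, 6]), (2, 2, [3, 5]), (3, 3, [2, 6])]⟩,
    ⟨[], [(0, 0), (0, 2), (0, 3)], [(0, 2)], [], [(2, 2, [3, 5]), (4, 0, [])]⟩,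
    ⟨[(0, 1)], [(0, 0), (0, 2), (0, 3), (0, 5), (1, 0), (1, 2), (1, 3), (1, 5)], [(0, 3),
      (0, 5), (3, 5)], [], [(3, 3, [2, 6]), (5, 0, []), (6, 5, [2])]⟩,
    ⟨[(0, 1), (0, 2)], [(0, 2), (0, 3), (2, 3)], [(3, 3)], [1, 4], [(0, 3, [2, 6]), (3, 3,
      [2, 6])]⟩,
    ⟨[(0, 1), (0, 2), (1, 2)], [(1, 0), (1, 2), (2, 0), (2, 3), (2, 5)], [(0, 0)], [1, 8],
      [(4, 0, []), (5, 0, [])]⟩,
    ⟨[(0, 3)], [(3, 3), (3, 6)], [], [1, 4], [(10, 6, [3])]⟩]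
  Ta := [((0, 1), 3, 7), ((0, 8), 3, 1), ((3, 6), 3, 5), ((3, 7), 3, 4), ((4, 2), 0, 2), ((4, 8),
    0, 1), ((5, 6), 0, 5), ((5, 9), 0, 8)]
  Tb := [((0, 1, 8), 3, 7, 1), ((1, 0, 2), 7, 3, 2), ((2, 1, 4), 2, 7, 0), ((3, 6, 7), 3, 5, 4),
    ((4, 2, 8), 0, 2, 1), ((5, 6, 9), 0, 5, 8), ((6, 3, 5), 5, 3, 0), ((7, 3, 10), 4, 3, 6),
    ((8, 0, 4), 1, 3, 0), ((8, 0, 9), 1, 3, 8), ((8, 0, 10), 1, 3, 6), ((8, 4, 9), 1, 0, 8),
    ((8, 4, 10), 1, 0, 6), ((8, 9, 10), 1, 8, 6), ((9, 5, 8), 8, 0, 1), ((10, 7, 8), 6, 4,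
    1)]
  Tc := [(2, 3, 5), (3, 2, 6)]
  Td := [((2, 3), (2, 1), 7), ((2, 3), (2, 4), 0), ((2, 5), (2, 1), 7), ((2, 5), (2, 4), 0), ((3,
    2), (0, 1), 7), ((3, 2), (0, 8), 1), ((3, 2), (3, 6), 5), ((3, 2), (3, 7), 4), ((3, 6),
    (0, 1), 7), ((3, 6), (0, 8), 1), ((3, 6), (3, 6), 5), ((3, 6), (3, 7), 4), ((5, 2), (6,
    3), 3), ((5, 2), (6, 5), 0), ((6, 3), (10, 7), 4), ((6, 3), (10, 8), 1)]
  G := [[0, 0x66c44ca24aac88a61866caacccce28d, 0x44c88cddcd1244c88cddcd1844c88ccccd14e,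
    0x55c11c44cd2411c99c88cd2844c88ccccd24d,
    0x14451cd9cc448cc9d29488214411c91cc4484cccdd8d484559c95cc8dc2f], [0,
    0x66cccca24aa6cc661866caacccce28d, 0x44cddc91298ccdc51244c88cddcd12e,
    0x55c99ccccd2455c99ccccd2855c99ccccd24d,
    0xd4455c99cc44449d21488851c9dccd4444ccc9789dcc8c594c4562f], [0, 0, 0,
    0x55c11c44cd2111c99c88cd2844c88ccccd28d,
    0xd4d4551c9dcc8cd54449e25494c4d51c91c88dc244818d8cc8cd5494c4de8b], [0, 0, 0,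
    0x55c99ccccd2455c99ccccd2155c99ccccd24d,
    0x44151c9dcc5494ce155c4499dcc8c555c94c4de14489dcc8c594c45e2b]]

noncomputable def n3818 : Ent := ⟨e3818, noF, [], [], [(10, 16, [1580044410770988437309982408355971841652082177953823432505704730625, 0]), (15, 16, [1580044410770988437309982408355971841652082177953823432505704747009, 0])]⟩

def c3818 : PLift (Cov.check n3818.C.D v3818 = true) := ⟨by decide +kernel⟩

def b3818 : PLift (entF (fidx ts) 400 3818 n3818 = true) := ⟨by decide +kernel⟩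

theorem g3818 : GoodF (fidx ts) 400 3818 := GoodF.ofV v3818 n3818 c3818.down b3818.down

/-- 756664:2781/7 -/
noncomputable def e3819 : SCfg where
  D := {
    a := 6
    L := 11
    kp := 8
    inn := [(0, 1), (0, 2), (0, 3), (1, 0), (1, 2), (1, 4), (2, 0), (2, 1), (2, 4), (3, 0), (3, 5), (4,
      1), (4, 2), (5, 3)]
    mix := [(0, 0), (0, 1), (0, 2), (0, 3), (1, 2), (1, 4), (2, 3), (2, 5), (2, 6), (3, 0), (3, 3), (3,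
      7), (3, 8), (4, 4), (4, 5), (4, 9), (4, 10), (5, 7), (5, 8), (5, 10)]
    cl := [0, 7, 2, 0, 1, 1, 6, 4, 5, 8, 3]
    chq := [(0, 2), (0, 3), (2, 0), (2, 6), (3, 0), (6, 2)]
    rng := [(0, 1), (0, 8), (1, 0), (1, 2), (2, 1), (2, 4), (3, 6), (3, 7), (4, 2), (4, 9), (5, 6), (5,
      10), (6, 3), (6, 5), (7, 3), (7, 10), (8, 0), (8, 10), (9, 4), (9, 10), (10, 5), (10, 7),
      (10, 8), (10, 9)]
    lev := [] }
  links := [[6, 7, 8, 1, 2, 9, 3], [2, 0, 8, 10, 4], [9, 0, 1, 4, 11, 12], [6, 0, 9, 13, 5, 14], [11, 2,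
    1, 10, 15, 16], [3, 13, 16, 14]]
  P := {
    a := 6
    N := 17
    nb := [974, 1301, 6675, 25185, 101382, 90120, 16521, 321, 1155, 12301, 33042, 69652, 2564, 66088,
      65640, 66576, 59440]
    tri := [(0, 1, 2), (0, 1, 8), (0, 2, 9), (0, 3, 6), (0, 3, 9), (0, 6, 7), (0, 7, 8), (1, 2, 4), (1,
      4, 10), (1, 8, 10), (2, 4, 11), (2, 9, 12), (2, 11, 12), (3, 5, 13), (3, 5, 14), (3, 6, 14),
      (3, 9, 13), (4, 10, 15), (4, 11, 16), (4, 15, 16), (5, 13, 16), (5, 14, 16)]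
    fin := [0, 1, 1, 0, 4, 0, 0, 7, 1, 0, 4, 4, 12, 13, 14, 15, 16]
    chd := [(0, 1), (0, 16), (1, 12)]
    steps := [(0, 3), (0, 5), (0, 6), (0, 9), (1, 2), (1, 8), (4, 10), (4, 11)] }
  rep := [0, 4, 1, 16, 13, 14, 12, 7, 15]

noncomputable def v3819 : Cov.CovD where
  P := 3
  N := 6
  pl := [1, 7, 8, 9]
  lev := [⟨[], [], [(0, 0), (0, 2)], [7], [(0, 0, [2, 3]), (2, 2, [0, 6]), (3, 0, [2, 3])]⟩,
    ⟨[], [(0, 0), (0, 1), (0, 2)], [(1, 2)], [], [(2, 2, [0, 6]), (4, 1, [])]⟩,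
    ⟨[(0, 1)], [(0, 0), (0, 1), (0, 2), (0, 6), (1, 0), (1, 1), (1, 2), (1, 6)], [(0, 1),
      (0, 6), (1, 6)], [], [(3, 0, [2, 3]), (5, 1, []), (6, 6, [2])]⟩,
    ⟨[(0, 1), (0, 2)], [(0, 0), (0, 2), (2, 0)], [(0, 0)], [4, 5], [(0, 0, [2, 3]), (3, 0,
      [2, 3])]⟩,
    ⟨[(0, 1), (0, 2), (1, 2)], [(1, 1), (1, 2), (1, 3), (2, 0), (2, 1), (2, 3), (2, 6)],
      [(1, 1), (1, 3)], [8], [(4, 1, []), (5, 1, []), (10, 3, [0])]⟩,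
    ⟨[(0, 3)], [(3, 0), (3, 3), (4, 3)], [], [4, 5], [(10, 3, [0])]⟩]
  Ta := [((0, 1), 0, 7), ((0, 8), 0, 5), ((3, 6), 0, 6), ((3, 7), 0, 4), ((4, 2), 1, 2), ((4, 9),
    1, 8), ((5, 6), 1, 6), ((5, 10), 1, 3)]
  Tb := [((0, 1, 8), 0, 7, 5), ((1, 0, 2), 7, 0, 2), ((2, 1, 4), 2, 7, 1), ((3, 6, 7), 0, 6, 4),
    ((4, 2, 9), 1, 2, 8), ((5, 6, 10), 1, 6, 3), ((6, 3, 5), 6, 0, 1), ((7, 3, 10), 4, 0, 3),
    ((8, 0, 10), 5, 0, 3), ((9, 4, 10), 8, 1, 3), ((10, 5, 7), 3, 1, 4), ((10, 5, 8), 3, 1,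
    5), ((10, 5, 9), 3, 1, 8), ((10, 7, 8), 3, 4, 5), ((10, 7, 9), 3, 4, 8), ((10, 8, 9), 3,
    5, 8)]
  Tc := [(0, 2, 3), (2, 0, 6)]
  Td := [((0, 2), (0, 1), 7), ((0, 2), (0, 8), 5), ((0, 2), (3, 6), 6), ((0, 2), (3, 7), 4), ((0,
    3), (0, 1), 7), ((0, 3), (0, 8), 5), ((0, 3), (3, 6), 6), ((0, 3), (3, 7), 4), ((2, 0),
    (2, 1), 7), ((2, 0), (2, 4), 1), ((2, 6), (2, 1), 7), ((2, 6), (2, 4), 1), ((3, 0), (10,
    5), 1), ((3, 0), (10, 7), 4), ((3, 0), (10, 8), 5), ((3, 0), (10, 9), 8), ((6, 2), (6,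
    3), 0), ((6, 2), (6, 5), 1)]
  G := [[0, 0xd2226528131ed49eb92eee4d21222e8dde111e772eea8c, 0x111d141d111de24811d111d122de28c,
    0x111d94dd222de2485dd111d222de28c, 0x111d94dd222de218b937911e344411ce58a], [0,
    0x222115ed49ebb2ee642228dde311e572ee6112d2c48e,
    0x11444111111e1111a11c11c12ced2111111e111111e11c11c11ced8e, 0,
    0x111d9d9b2bde444521424a1844483bd347d111dec1e], [0,
    0x222115e949efb2ee642228dde111e772eea89252c48e, 0x111d141d122de24111d111d122de28c,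
    0x111d94dd222de24855d119d222de28c, 0x159999229e144424e61344414e83bd347d111dec8a], [0,
    0x5222a131e94def92ee645222a8d5e119e772ee6192484e,
    0x11116111111e11c11c11ced411884111111e111111e11c11c11ced4e, 0,
    0x444131d94dda1bdec21434a8244483bd347d111dec8e]]

noncomputable def n3819 : Ent := ⟨e3819, noF, [], [], [(15, 14, [1685382413448253767852309107433119732572617628602273068445380546561, 0])]⟩

def c3819 : PLift (Cov.check n3819.C.D v3819 = true) := ⟨by decide +kernel⟩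

def b3819 : PLift (entF (fidx ts) 400 3819 n3819 = true) := ⟨by decide +kernel⟩

theorem g3819 : GoodF (fidx ts) 400 3819 := GoodF.ofV v3819 n3819 c3819.down b3819.down

/-- 756664:2781/8 -/
noncomputable def e3820 : SCfg where
  D := {
    a := 6
    L := 11
    kp := 8
    inn := [(0, 1), (0, 2), (0, 3), (1, 0), (1, 2), (1, 4), (2, 0), (2, 1), (2, 4), (3, 0), (3, 5), (4,
      1), (4, 2), (5, 3)]
    mix := [(0, 0), (0, 1), (0, 2), (0, 3), (1, 2), (1, 4), (2, 3), (2, 5), (2, 6), (3, 0), (3, 3), (3,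
      7), (3, 8), (4, 4), (4, 5), (4, 8), (4, 9), (5, 7), (5, 8), (5, 10)]
    cl := [0, 7, 2, 0, 3, 3, 5, 4, 1, 8, 6]
    chq := [(0, 2), (0, 6), (2, 0), (2, 5), (5, 2), (6, 0)]
    rng := [(0, 1), (0, 8), (1, 0), (1, 2), (2, 1), (2, 4), (3, 6), (3, 7), (4, 2), (4, 9), (5, 6), (5,
      8), (6, 3), (6, 5), (7, 3), (7, 10), (8, 0), (8, 5), (8, 9), (8, 10), (9, 4), (9, 8), (10,
      7), (10, 8)]
    lev := [] }
  links := [[6, 7, 8, 1, 2, 9, 3], [2, 0, 8, 10, 4], [9, 0, 1, 4, 11, 12], [6, 0, 9, 13, 5, 14], [11, 2,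
    1, 10, 15, 14], [3, 13, 16, 14]]
  P := {
    a := 6
    N := 17
    nb := [974, 1301, 6675, 25185, 52230, 90120, 16521, 321, 1155, 12301, 33042, 20500, 2564, 66088,
      100472, 17424, 24608]
    tri := [(0, 1, 2), (0, 1, 8), (0, 2, 9), (0, 3, 6), (0, 3, 9), (0, 6, 7), (0, 7, 8), (1, 2, 4), (1,
      4, 10), (1, 8, 10), (2, 4, 11), (2, 9, 12), (2, 11, 12), (3, 5, 13), (3, 5, 14), (3, 6, 14),
      (3, 9, 13), (4, 10, 15), (4, 11, 14), (4, 14, 15), (5, 13, 16), (5, 14, 16)]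
    fin := [0, 1, 1, 0, 4, 0, 0, 7, 1, 0, 4, 4, 12, 13, 14, 15, 16]
    chd := [(0, 1), (0, 16), (1, 12)]
    steps := [(0, 3), (0, 5), (0, 6), (0, 9), (1, 2), (1, 8), (4, 10), (4, 11)] }
  rep := [0, 14, 1, 4, 13, 12, 16, 7, 15]

noncomputable def v3820 : Cov.CovD where
  P := 3
  N := 6
  pl := [1, 7, 8, 9]
  lev := [⟨[], [], [(0, 0), (0, 2)], [7], [(0, 0, [2, 6]), (2, 2, [0, 5]), (3, 0, [2, 6])]⟩,
    ⟨[], [(0, 0), (0, 2), (0, 3)], [(2, 3)], [], [(2, 2, [0, 5]), (4, 3, [])]⟩,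
    ⟨[(0, 1)], [(0, 0), (0, 2), (0, 3), (0, 5), (1, 0), (1, 2), (1, 3), (1, 5)], [(0, 3),
      (0, 5), (3, 5)], [], [(3, 0, [2, 6]), (5, 3, []), (6, 5, [2])]⟩,
    ⟨[(0, 1), (0, 2)], [(0, 0), (0, 2), (2, 0)], [(0, 0)], [1, 4], [(0, 0, [2, 6]), (3, 0,
      [2, 6])]⟩,
    ⟨[(0, 1), (0, 2), (1, 2)], [(1, 2), (1, 3), (2, 0), (2, 3), (2, 5)], [(3, 3)], [1, 8],
      [(4, 3, []), (5, 3, [])]⟩,
    ⟨[(0, 3)], [(3, 0), (3, 6)], [], [1, 4], [(10, 6, [0])]⟩]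
  Ta := [((0, 1), 0, 7), ((0, 8), 0, 1), ((3, 6), 0, 5), ((3, 7), 0, 4), ((4, 2), 3, 2), ((4, 9),
    3, 8), ((5, 6), 3, 5), ((5, 8), 3, 1)]
  Tb := [((0, 1, 8), 0, 7, 1), ((1, 0, 2), 7, 0, 2), ((2, 1, 4), 2, 7, 3), ((3, 6, 7), 0, 5, 4),
    ((4, 2, 9), 3, 2, 8), ((5, 6, 8), 3, 5, 1), ((6, 3, 5), 5, 0, 3), ((7, 3, 10), 4, 0, 6),
    ((8, 0, 5), 1, 0, 3), ((8, 0, 9), 1, 0, 8), ((8, 0, 10), 1, 0, 6), ((8, 5, 9), 1, 3, 8),
    ((8, 5, 10), 1, 3, 6), ((8, 9, 10), 1, 8, 6), ((9, 4, 8), 8, 3, 1), ((10, 7, 8), 6, 4,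
    1)]
  Tc := [(0, 2, 6), (2, 0, 5)]
  Td := [((0, 2), (0, 1), 7), ((0, 2), (0, 8), 1), ((0, 2), (3, 6), 5), ((0, 2), (3, 7), 4), ((0,
    6), (0, 1), 7), ((0, 6), (0, 8), 1), ((0, 6), (3, 6), 5), ((0, 6), (3, 7), 4), ((2, 0),
    (2, 1), 7), ((2, 0), (2, 4), 3), ((2, 5), (2, 1), 7), ((2, 5), (2, 4), 3), ((5, 2), (6,
    3), 0), ((5, 2), (6, 5), 3), ((6, 0), (10, 7), 4), ((6, 0), (10, 8), 1)]
  G := [[0, 0xccceaaae621ccce666ea21a262c41e, 0x119119c421414c1111ca2115115c81818c43e,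
    0x11c11cc2119119c2511c11cc2115115c29c, 0x111d111dc1414c621414c111d111dcc2a], [0,
    0xccceaaae614ccce666ea18c, 0x1111c1111c11c11cc741111c1111c11c11ccb21111c1111cc4e,
    0x111d111dc24111d111dc21c, 0x111d111dc1414c62111d111dc1414c68a], [0, 0,
    0x1111c22115115c1818c92119119c1414c52e, 0x11cddcc2119dd9c25ddc11cc2d55195c29c,
    0x111dddddc5494c629454c151dd9ddcc2a], [0, 0,
    0x1111c421111c1111c11c11ccb21111c1111c1111c11c11ccf4e, 0x115ddd9dc21dddd111dc21c,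
    0x111dddddc14d4c62959d595dc9454c68a]]

noncomputable def n3820 : Ent := ⟨e3820, noF, [], [], [(15, 16, [1580044410770988437309982408355971841652082177953823432505704738817, 0])]⟩

def c3820 : PLift (Cov.check n3820.C.D v3820 = true) := ⟨by decide +kernel⟩

def b3820 : PLift (entF (fidx ts) 400 3820 n3820 = true) := ⟨by decide +kernel⟩

theorem g3820 : GoodF (fidx ts) 400 3820 := GoodF.ofV v3820 n3820 c3820.down b3820.down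

/-- 756664:2781 -/
noncomputable def e3821 : SCfg where
  D := {
    a := 6
    L := 12
    kp := 9
    inn := [(0, 1), (0, 2), (0, 3), (1, 0), (1, 2), (1, 4), (2, 0), (2, 1), (2, 4), (3, 0), (3, 5), (4,
      1), (4, 2), (5, 3)]
    mix := [(0, 0), (0, 1), (0, 2), (0, 3), (1, 2), (1, 4), (2, 3), (2, 5), (2, 6), (3, 0), (3, 3), (3,
      7), (3, 8), (4, 4), (4, 5), (4, 9), (4, 10), (5, 7), (5, 8), (5, 11)]
    cl := [0, 7, 2, 0, 1, 1, 5, 3, 4, 8, 9, 6]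
    chq := [(0, 2), (0, 6), (2, 0), (2, 5), (5, 2), (6, 0)]
    rng := [(0, 1), (0, 8), (1, 0), (1, 2), (2, 1), (2, 4), (3, 6), (3, 7), (4, 2), (4, 9), (5, 6), (5,
      10), (6, 3), (6, 5), (7, 3), (7, 11), (8, 0), (8, 11), (9, 4), (9, 10), (10, 5), (10, 9),
      (11, 7), (11, 8)]
    lev := [] }
  links := [[6, 7, 8, 1, 2, 9, 3], [2, 0, 8, 10, 4], [9, 0, 1, 4, 11, 12], [6, 0, 9, 13, 5, 14], [11, 2,
    1, 10, 15, 16], [3, 13, 17, 14]]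
  P := {
    a := 6
    N := 18
    nb := [974, 1301, 6675, 25185, 101382, 155656, 16521, 321, 1155, 12301, 33042, 69652, 2564,
      131624, 131176, 66576, 34832, 24608]
    tri := [(0, 1, 2), (0, 1, 8), (0, 2, 9), (0, 3, 6), (0, 3, 9), (0, 6, 7), (0, 7, 8), (1, 2, 4), (1,
      4, 10), (1, 8, 10), (2, 4, 11), (2, 9, 12), (2, 11, 12), (3, 5, 13), (3, 5, 14), (3, 6, 14),
      (3, 9, 13), (4, 10, 15), (4, 11, 16), (4, 15, 16), (5, 13, 17), (5, 14, 17)]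
    fin := [0, 1, 1, 0, 4, 0, 0, 7, 1, 0, 4, 4, 12, 13, 14, 15, 16, 17]
    chd := [(0, 1), (0, 17), (1, 12)]
    steps := [(0, 3), (0, 5), (0, 6), (0, 9), (1, 2), (1, 8), (4, 10), (4, 11)] }
  rep := [0, 4, 1, 13, 14, 12, 17, 7, 15, 16]

noncomputable def v3821 : Cov.CovD where
  P := 3
  N := 7
  pl := [1, 7, 8, 9, 10]
  lev := [⟨[], [], [(0, 0), (0, 2)], [7], [(0, 0, [2, 6]), (2, 2, [0, 5]), (3, 0, [2, 6])]⟩,
    ⟨[], [(0, 0), (0, 1), (0, 2)], [(1, 2)], [], [(2, 2, [0, 5]), (4, 1, [])]⟩,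
    ⟨[(0, 1)], [(0, 0), (0, 1), (0, 2), (0, 5), (1, 0), (1, 1), (1, 2), (1, 5)], [(0, 1),
      (0, 5), (1, 5)], [], [(3, 0, [2, 6]), (5, 1, []), (6, 5, [2])]⟩,
    ⟨[(0, 1), (0, 2)], [(0, 0), (0, 2), (2, 0)], [(0, 0)], [3, 4], [(0, 0, [2, 6]), (3, 0,
      [2, 6])]⟩,
    ⟨[(0, 1), (0, 2), (1, 2)], [(1, 1), (1, 2), (2, 0), (2, 1), (2, 5)], [(1, 1)], [8, 9],
      [(4, 1, []), (5, 1, [])]⟩,
    ⟨[(0, 3)], [(3, 0), (3, 6)], [], [3, 4], [(11, 6, [0])]⟩]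
  Ta := [((0, 1), 0, 7), ((0, 8), 0, 4), ((3, 6), 0, 5), ((3, 7), 0, 3), ((4, 2), 1, 2), ((4, 9),
    1, 8), ((5, 6), 1, 5), ((5, 10), 1, 9)]
  Tb := [((0, 1, 8), 0, 7, 4), ((1, 0, 2), 7, 0, 2), ((2, 1, 4), 2, 7, 1), ((3, 6, 7), 0, 5, 3),
    ((4, 2, 9), 1, 2, 8), ((5, 6, 10), 1, 5, 9), ((6, 3, 5), 5, 0, 1), ((7, 3, 11), 3, 0, 6),
    ((8, 0, 11), 4, 0, 6), ((9, 4, 10), 8, 1, 9), ((10, 5, 9), 9, 1, 8), ((11, 7, 8), 6, 3,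
    4)]
  Tc := [(0, 2, 6), (2, 0, 5)]
  Td := [((0, 2), (0, 1), 7), ((0, 2), (0, 8), 4), ((0, 2), (3, 6), 5), ((0, 2), (3, 7), 3), ((0,
    6), (0, 1), 7), ((0, 6), (0, 8), 4), ((0, 6), (3, 6), 5), ((0, 6), (3, 7), 3), ((2, 0),
    (2, 1), 7), ((2, 0), (2, 4), 1), ((2, 5), (2, 1), 7), ((2, 5), (2, 4), 1), ((5, 2), (6,
    3), 0), ((5, 2), (6, 5), 1), ((6, 0), (11, 7), 3), ((6, 0), (11, 8), 4)]
  G := [[0, 0x322111edddebbbee64322ddde111e777eea89252c84e,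
    0x11542111d18111de2c111d111d111de28c, 0x111dddddbbbde21dddd111d777de21c,
    0x111dddddbbbde21b17111ebbc77c11ce58a], [0,
    0x322111edddebbbeea4322ddde111e777eea89252c88e,
    0x114111111e11c11c11ced41111a88111111e111111e11c11c11ced8e, 0,
    0x11d1b1e11cddcbbce52b47414e1bb9779119e49a], [0,
    0xdd6bb662322111ed8b8eac322ddde111e777eea89252c48e,
    0x111d111d111de24111111e11c11c11ce38c, 0x111dddddbbbde24dddd111d777de28c,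
    0xdd542111dd8bbbde29b47414ebbbd777d111dec1a], [0,
    0x322111edddebbbee64322ddde111e777ee619252c88e,
    0x11116111111e11c11c11ced411882111111e111111e11c11c11ced4e, 0,
    0x544111dddddbbbdec19434a82544bbbd777d111dec8e]]

noncomputable def n3821 : Ent := ⟨e3821, noF, [], [], [(10, 17, [6903326391201334775872065844685381424292761054348340378595029945311233, 0]), (15, 17, [6903326391201334775872065844685381424292761054348340378595029945319425, 0]), (15, 14, [7334790875878422277917280412776772662961875900559637987928627385114625, 0]), (16, 17, [6903326391201334775872065844685381424292761054348340378595029945331713, 0]), (16, 14, [7334685589297762428874426903420482469988158645819485339342058438967297, 0])]⟩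

def c3821 : PLift (Cov.check n3821.C.D v3821 = true) := ⟨by decide +kernel⟩

def b3821 : PLift (entF (fidx ts) 400 3821 n3821 = true) := ⟨by decide +kernel⟩

theorem g3821 : GoodF (fidx ts) 400 3821 := GoodF.ofV v3821 n3821 c3821.down b3821.down

/-- 756664:2782/2 -/
noncomputable def e3822 : SCfg where
  D := {
    a := 6
    L := 10
    kp := 7
    inn := [(0, 1), (0, 2), (0, 3), (1, 0), (1, 2), (1, 4), (2, 0), (2, 1), (2, 4), (3, 0), (3, 5), (4,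
      1), (4, 2), (5, 3)]
    mix := [(0, 0), (0, 1), (0, 2), (0, 3), (1, 2), (1, 4), (2, 3), (2, 5), (2, 6), (3, 0), (3, 3), (3,
      7), (3, 8), (4, 4), (4, 5), (4, 8), (4, 9), (5, 0), (5, 8), (5, 9)]
    cl := [3, 7, 2, 3, 0, 0, 5, 6, 1, 4]
    chq := [(2, 3), (2, 5), (3, 2), (4, 6), (5, 2), (6, 4)]
    rng := [(0, 1), (0, 9), (1, 0), (1, 2), (2, 1), (2, 4), (3, 6), (3, 7), (4, 2), (4, 8), (5, 6), (5,
      9), (6, 3), (6, 5), (7, 3), (7, 8), (8, 4), (8, 7), (8, 9), (9, 0), (9, 5), (9, 8)]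
    lev := [] }
  links := [[6, 7, 8, 1, 2, 9, 3], [2, 0, 8, 10, 4], [9, 0, 1, 4, 11, 12], [6, 0, 9, 13, 14, 5], [11, 2,
    1, 10, 14, 15], [3, 14, 15, 6]]
  P := {
    a := 6
    N := 16
    nb := [974, 1301, 6675, 25185, 52230, 49224, 32937, 321, 1155, 12301, 16658, 36884, 2564, 16904,
      42040, 18544]
    tri := [(0, 1, 2), (0, 1, 8), (0, 2, 9), (0, 3, 6), (0, 3, 9), (0, 6, 7), (0, 7, 8), (1, 2, 4), (1,
      4, 10), (1, 8, 10), (2, 4, 11), (2, 9, 12), (2, 11, 12), (3, 5, 6), (3, 5, 14), (3, 9, 13),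
      (3, 13, 14), (4, 10, 14), (4, 11, 15), (4, 14, 15), (5, 6, 15), (5, 14, 15)]
    fin := [0, 1, 1, 3, 4, 3, 0, 7, 1, 0, 4, 4, 12, 13, 14, 3]
    chd := [(0, 1), (1, 12), (13, 3)]
    steps := [(0, 6), (0, 9), (1, 2), (1, 8), (3, 5), (3, 15), (4, 10), (4, 11)] }
  rep := [4, 14, 1, 0, 3, 12, 13, 7]

noncomputable def v3822 : Cov.CovD where
  P := 3
  N := 5
  pl := [1, 8]
  lev := [⟨[], [], [(2, 3), (3, 3)], [7], [(0, 3, [2]), (2, 2, [3, 5]), (3, 3, [2])]⟩,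
    ⟨[], [(0, 0), (0, 2), (0, 3)], [(0, 2)], [], [(2, 2, [3, 5]), (4, 0, [])]⟩,
    ⟨[(0, 1)], [(0, 0), (0, 2), (0, 3), (0, 5), (1, 0), (1, 2), (1, 3), (1, 5)], [(0, 3),
      (0, 5), (3, 5)], [], [(3, 3, [2]), (5, 0, []), (6, 5, [2])]⟩,
    ⟨[(0, 1), (0, 2)], [(0, 2), (0, 3), (0, 6), (2, 3)], [(3, 3), (3, 6)], [1], [(0, 3,
      [2]), (3, 3, [2]), (7, 6, [4])]⟩,
    ⟨[(0, 1), (0, 2), (1, 2)], [(1, 0), (1, 2), (1, 4), (2, 0), (2, 3), (2, 4), (2, 5)],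
      [(0, 0), (0, 4)], [1], [(4, 0, []), (5, 0, []), (9, 4, [6])]⟩,
    ⟨[(0, 3)], [(0, 3), (3, 3), (3, 4), (3, 6), (4, 4)], [(3, 4)], [1], [(0, 3, [2]), (9,
      4, [6])]⟩]
  Ta := [((0, 1), 3, 7), ((0, 9), 3, 4), ((3, 6), 3, 5), ((3, 7), 3, 6), ((4, 2), 0, 2), ((4, 8),
    0, 1), ((5, 6), 0, 5), ((5, 9), 0, 4)]
  Tb := [((0, 1, 9), 3, 7, 4), ((1, 0, 2), 7, 3, 2), ((2, 1, 4), 2, 7, 0), ((3, 6, 7), 3, 5, 6),
    ((4, 2, 8), 0, 2, 1), ((5, 6, 9), 0, 5, 4), ((6, 3, 5), 5, 3, 0), ((7, 3, 8), 6, 3, 1),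
    ((8, 4, 7), 1, 0, 6), ((8, 4, 9), 1, 0, 4), ((8, 7, 9), 1, 6, 4), ((9, 0, 5), 4, 3, 0),
    ((9, 0, 8), 4, 3, 1), ((9, 5, 8), 4, 0, 1)]
  Tc := [(2, 3, 5)]
  Td := [((2, 3), (2, 1), 7), ((2, 3), (2, 4), 0), ((2, 5), (2, 1), 7), ((2, 5), (2, 4), 0), ((3,
    2), (0, 1), 7), ((3, 2), (0, 9), 4), ((3, 2), (3, 6), 5), ((3, 2), (3, 7), 6), ((4, 6),
    (9, 0), 3), ((4, 6), (9, 5), 0), ((4, 6), (9, 8), 1), ((5, 2), (6, 3), 3), ((5, 2), (6,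
    5), 0), ((6, 4), (7, 3), 3), ((6, 4), (7, 8), 1)]
  G := [[0, 0x22ca8a2422c42c62882c24c2cce24d, 0x11c1891211c1451811c11c11cd12e,
    0x15cc818d24c491c14d2881c11c84cd24d, 0x44c8c4481487244888444811c145f814445141848dc2b],
    [0, 0x242844e24242888e28248888e24d, 0x11c189124418c11811c148814d12e,
    0x141814d24148888d28448888d24d, 0x4418c4485214828441818d42148441848d448e2f], [0, 0, 0,
    0x15cc898d24c491c54d2111c14c84cd24d, 0x44c8c4444961444444d4498cc24482441444d18485cab],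
    [0, 0, 0, 0x141884d21148848d28448888d24d, 0x44445445818d448e244818485148e1448148848dc8b]]

noncomputable def n3822 : Ent := ⟨e3822, noF, [], [], []⟩

def c3822 : PLift (Cov.check n3822.C.D v3822 = true) := ⟨by decide +kernel⟩

def b3822 : PLift (entF (fidx ts) 400 3822 n3822 = true) := ⟨by decide +kernel⟩

theorem g3822 : GoodF (fidx ts) 400 3822 := GoodF.ofV v3822 n3822 c3822.down b3822.down

/-- 756664:2782/1 -/
noncomputable def e3823 : SCfg where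
  D := {
    a := 6
    L := 11
    kp := 8
    inn := [(0, 1), (0, 2), (0, 3), (1, 0), (1, 2), (1, 4), (2, 0), (2, 1), (2, 4), (3, 0), (3, 5), (4,
      1), (4, 2), (5, 3)]
    mix := [(0, 0), (0, 1), (0, 2), (0, 3), (1, 2), (1, 4), (2, 3), (2, 5), (2, 6), (3, 0), (3, 3), (3,
      7), (3, 8), (4, 4), (4, 5), (4, 8), (4, 9), (5, 0), (5, 8), (5, 10)]
    cl := [3, 7, 2, 3, 0, 0, 4, 5, 1, 8, 6]
    chq := [(2, 3), (2, 4), (3, 2), (4, 2), (5, 6), (6, 5)]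
    rng := [(0, 1), (0, 10), (1, 0), (1, 2), (2, 1), (2, 4), (3, 6), (3, 7), (4, 2), (4, 8), (5, 6),
      (5, 9), (6, 3), (6, 5), (7, 3), (7, 8), (8, 4), (8, 7), (8, 9), (8, 10), (9, 5), (9, 8),
      (10, 0), (10, 8)]
    lev := [] }
  links := [[6, 7, 8, 1, 2, 9, 3], [2, 0, 8, 10, 4], [9, 0, 1, 4, 11, 12], [6, 0, 9, 13, 14, 5], [11, 2,
    1, 10, 14, 15], [3, 14, 16, 6]]
  P := {
    a := 6
    N := 17
    nb := [974, 1301, 6675, 25185, 52230, 81992, 65705, 321, 1155, 12301, 16658, 36884, 2564, 16904,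
      107576, 18448, 16480]
    tri := [(0, 1, 2), (0, 1, 8), (0, 2, 9), (0, 3, 6), (0, 3, 9), (0, 6, 7), (0, 7, 8), (1, 2, 4), (1,
      4, 10), (1, 8, 10), (2, 4, 11), (2, 9, 12), (2, 11, 12), (3, 5, 6), (3, 5, 14), (3, 9, 13),
      (3, 13, 14), (4, 10, 14), (4, 11, 15), (4, 14, 15), (5, 6, 16), (5, 14, 16)]
    fin := [0, 1, 1, 3, 4, 3, 0, 7, 1, 0, 4, 4, 12, 3, 14, 15, 16]
    chd := [(0, 1), (1, 12), (3, 16)]
    steps := [(0, 6), (0, 9), (1, 2), (1, 8), (3, 5), (3, 13), (4, 10), (4, 11)] }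
  rep := [4, 14, 1, 0, 12, 3, 16, 7, 15]

noncomputable def v3823 : Cov.CovD where
  P := 3
  N := 6
  pl := [1, 8, 9]
  lev := [⟨[], [], [(2, 3), (3, 3)], [7], [(0, 3, [2]), (2, 2, [3, 4]), (3, 3, [2])]⟩,
    ⟨[], [(0, 0), (0, 2), (0, 3)], [(0, 2)], [], [(2, 2, [3, 4]), (4, 0, [])]⟩,
    ⟨[(0, 1)], [(0, 0), (0, 2), (0, 3), (0, 4), (1, 0), (1, 2), (1, 3), (1, 4)], [(0, 3),
      (0, 4), (3, 4)], [], [(3, 3, [2]), (5, 0, []), (6, 4, [2])]⟩,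
    ⟨[(0, 1), (0, 2)], [(0, 2), (0, 3), (0, 5), (2, 3)], [(3, 3), (3, 5)], [1], [(0, 3,
      [2]), (3, 3, [2]), (7, 5, [6])]⟩,
    ⟨[(0, 1), (0, 2), (1, 2)], [(1, 0), (1, 2), (2, 0), (2, 3), (2, 4)], [(0, 0)], [1, 8],
      [(4, 0, []), (5, 0, [])]⟩,
    ⟨[(0, 3)], [(0, 3), (3, 3), (3, 5), (3, 6)], [(3, 6)], [1], [(0, 3, [2]), (10, 6,
      [5])]⟩]
  Ta := [((0, 1), 3, 7), ((0, 10), 3, 6), ((3, 6), 3, 4), ((3, 7), 3, 5), ((4, 2), 0, 2), ((4,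
    8), 0, 1), ((5, 6), 0, 4), ((5, 9), 0, 8)]
  Tb := [((0, 1, 10), 3, 7, 6), ((1, 0, 2), 7, 3, 2), ((2, 1, 4), 2, 7, 0), ((3, 6, 7), 3, 4, 5),
    ((4, 2, 8), 0, 2, 1), ((5, 6, 9), 0, 4, 8), ((6, 3, 5), 4, 3, 0), ((7, 3, 8), 5, 3, 1),
    ((8, 4, 7), 1, 0, 5), ((8, 4, 9), 1, 0, 8), ((8, 4, 10), 1, 0, 6), ((8, 7, 9), 1, 5, 8),
    ((8, 7, 10), 1, 5, 6), ((8, 9, 10), 1, 8, 6), ((9, 5, 8), 8, 0, 1), ((10, 0, 8), 6, 3,
    1)]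
  Tc := [(2, 3, 4)]
  Td := [((2, 3), (2, 1), 7), ((2, 3), (2, 4), 0), ((2, 4), (2, 1), 7), ((2, 4), (2, 4), 0), ((3,
    2), (0, 1), 7), ((3, 2), (0, 10), 6), ((3, 2), (3, 6), 4), ((3, 2), (3, 7), 5), ((4, 2),
    (6, 3), 3), ((4, 2), (6, 5), 0), ((5, 6), (7, 3), 3), ((5, 6), (7, 8), 1), ((6, 5), (10,
    0), 3), ((6, 5), (10, 8), 1)]
  G := [[0, 0x22c88ca2422c44c62822c22cccce24d, 0x11c88c91211c44c51811c11ccccd18e,
    0x55c88c88cd2444c99c44cd2811c11ccccd24d,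
    0x84444c88cc44844449f24484c44c98cc141444cdd21444511c44c5c2b], [0,
    0x22c88ca2422c44c62824c88c48ce24d, 0x11c55c91211c49c51211c18c44cd18e,
    0x44c18c88cd2444c81c44cd2844c88c84cd28d,
    0x14411c81c88d14449d21488419844c11cc1444444c9784418c48cd14462f], [0, 0, 0,
    0x55c88c88cd2144c99c44cd2111c11ccccd28d,
    0x44c88cc4484c61448492449444d4898c48dca1444521444911c485cab], [0, 0, 0,
    0x14c88c84cd2141c81c88cd2111c88c88cd24d,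
    0x1444544c85cc448e2148448444da4818c84cd4ac48491881c84cd14845e8b]]

noncomputable def n3823 : Ent := ⟨e3823, noF, [], [], [(15, 16, [1580044410770988437309982408355971841652082177953823432505704767489, 0])]⟩

def c3823 : PLift (Cov.check n3823.C.D v3823 = true) := ⟨by decide +kernel⟩

def b3823 : PLift (entF (fidx ts) 400 3823 n3823 = true) := ⟨by decide +kernel⟩

theorem g3823 : GoodF (fidx ts) 400 3823 := GoodF.ofV v3823 n3823 c3823.down b3823.down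

/-- 756664:2782/4 -/
noncomputable def e3824 : SCfg where
  D := {
    a := 6
    L := 10
    kp := 7
    inn := [(0, 1), (0, 2), (0, 3), (1, 0), (1, 2), (1, 4), (2, 0), (2, 1), (2, 4), (3, 0), (3, 5), (4,
      1), (4, 2), (5, 3)]
    mix := [(0, 0), (0, 1), (0, 2), (0, 3), (1, 2), (1, 4), (2, 3), (2, 5), (2, 6), (3, 0), (3, 3), (3,
      7), (3, 8), (4, 4), (4, 5), (4, 8), (4, 9), (5, 0), (5, 8), (5, 9)]
    cl := [3, 7, 2, 3, 0, 0, 5, 6, 1, 4]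
    chq := [(2, 3), (2, 5), (3, 2), (4, 6), (5, 2), (6, 4)]
    rng := [(0, 1), (0, 9), (1, 0), (1, 2), (2, 1), (2, 4), (3, 6), (3, 7), (4, 2), (4, 9), (5, 6), (5,
      8), (6, 3), (6, 5), (7, 3), (7, 8), (8, 5), (8, 7), (8, 9), (9, 0), (9, 4), (9, 8)]
    lev := [] }
  links := [[6, 7, 8, 1, 2, 9, 3], [2, 0, 8, 10, 4], [9, 0, 1, 4, 11, 12], [6, 0, 9, 13, 14, 5], [11, 2,
    1, 10, 15, 14], [3, 14, 15, 6]]
  P := {
    a := 6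
    N := 16
    nb := [974, 1301, 6675, 25185, 52230, 49224, 32937, 321, 1155, 12301, 33042, 20500, 2564, 16904,
      43064, 17520]
    tri := [(0, 1, 2), (0, 1, 8), (0, 2, 9), (0, 3, 6), (0, 3, 9), (0, 6, 7), (0, 7, 8), (1, 2, 4), (1,
      4, 10), (1, 8, 10), (2, 4, 11), (2, 9, 12), (2, 11, 12), (3, 5, 6), (3, 5, 14), (3, 9, 13),
      (3, 13, 14), (4, 10, 15), (4, 11, 14), (4, 14, 15), (5, 6, 15), (5, 14, 15)]
    fin := [0, 1, 1, 3, 4, 3, 0, 7, 1, 0, 4, 4, 12, 13, 14, 3]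
    chd := [(0, 1), (1, 12), (13, 3)]
    steps := [(0, 6), (0, 9), (1, 2), (1, 8), (3, 5), (3, 15), (4, 10), (4, 11)] }
  rep := [4, 14, 1, 0, 3, 12, 13, 7]

noncomputable def v3824 : Cov.CovD where
  P := 3
  N := 5
  pl := [1, 8]
  lev := [⟨[], [], [(2, 3), (3, 3)], [7], [(0, 3, [2]), (2, 2, [3, 5]), (3, 3, [2])]⟩,
    ⟨[], [(0, 0), (0, 2), (0, 3)], [(0, 2)], [], [(2, 2, [3, 5]), (4, 0, [])]⟩,
    ⟨[(0, 1)], [(0, 0), (0, 2), (0, 3), (0, 5), (1, 0), (1, 2), (1, 3), (1, 5)], [(0, 3),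
      (0, 5), (3, 5)], [], [(3, 3, [2]), (5, 0, []), (6, 5, [2])]⟩,
    ⟨[(0, 1), (0, 2)], [(0, 2), (0, 3), (0, 6), (2, 3)], [(3, 3), (3, 6)], [1], [(0, 3,
      [2]), (3, 3, [2]), (7, 6, [4])]⟩,
    ⟨[(0, 1), (0, 2), (1, 2)], [(1, 0), (1, 2), (1, 4), (2, 0), (2, 3), (2, 4), (2, 5)],
      [(0, 0), (0, 4)], [1], [(4, 0, []), (5, 0, []), (9, 4, [6])]⟩,
    ⟨[(0, 3)], [(0, 3), (3, 3), (3, 4), (3, 6), (4, 4)], [(3, 4)], [1], [(0, 3, [2]), (9,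
      4, [6])]⟩]
  Ta := [((0, 1), 3, 7), ((0, 9), 3, 4), ((3, 6), 3, 5), ((3, 7), 3, 6), ((4, 2), 0, 2), ((4, 9),
    0, 4), ((5, 6), 0, 5), ((5, 8), 0, 1)]
  Tb := [((0, 1, 9), 3, 7, 4), ((1, 0, 2), 7, 3, 2), ((2, 1, 4), 2, 7, 0), ((3, 6, 7), 3, 5, 6),
    ((4, 2, 9), 0, 2, 4), ((5, 6, 8), 0, 5, 1), ((6, 3, 5), 5, 3, 0), ((7, 3, 8), 6, 3, 1),
    ((8, 5, 7), 1, 0, 6), ((8, 5, 9), 1, 0, 4), ((8, 7, 9), 1, 6, 4), ((9, 0, 4), 4, 3, 0),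
    ((9, 0, 8), 4, 3, 1), ((9, 4, 8), 4, 0, 1)]
  Tc := [(2, 3, 5)]
  Td := [((2, 3), (2, 1), 7), ((2, 3), (2, 4), 0), ((2, 5), (2, 1), 7), ((2, 5), (2, 4), 0), ((3,
    2), (0, 1), 7), ((3, 2), (0, 9), 4), ((3, 2), (3, 6), 5), ((3, 2), (3, 7), 6), ((4, 6),
    (9, 0), 3), ((4, 6), (9, 4), 0), ((4, 6), (9, 8), 1), ((5, 2), (6, 3), 3), ((5, 2), (6,
    5), 0), ((6, 4), (7, 3), 3), ((6, 4), (7, 8), 1)]
  G := [[0, 0, 0x11c1891211c1451881c11c81cd18e, 0x15cc898d2484c91c54d2881c14c84cd24d,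
    0x44c848d44852448224444498c44449d2144454414ccc2f], [0, 0, 0x448814d12141848d12448814d12e,
    0x441844d24148888d28148844d24d, 0x4498c44852148884488c4444958448848d42f], [0,
    0x22c88ca2122c6462182c22c84ce28d, 0, 0x15cc818d2184c91c14d2811c14c84cd28d,
    0x44c818d444823444414d449818dc21841486141444d8ab], [0, 0x22cc8a21242888e21248844e24d, 0,
    0x141848d21141814d21148888d28d, 0x144451418c148e114818485448e144811c44c5c2b]]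

noncomputable def n3824 : Ent := ⟨e3824, noF, [], [], []⟩

def c3824 : PLift (Cov.check n3824.C.D v3824 = true) := ⟨by decide +kernel⟩

def b3824 : PLift (entF (fidx ts) 400 3824 n3824 = true) := ⟨by decide +kernel⟩

theorem g3824 : GoodF (fidx ts) 400 3824 := GoodF.ofV v3824 n3824 c3824.down b3824.down

/-- 756664:2782/3 -/
noncomputable def e3825 : SCfg where
  D := {
    a := 6
    L := 11
    kp := 8
    inn := [(0, 1), (0, 2), (0, 3), (1, 0), (1, 2), (1, 4), (2, 0), (2, 1), (2, 4), (3, 0), (3, 5), (4,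
      1), (4, 2), (5, 3)]
    mix := [(0, 0), (0, 1), (0, 2), (0, 3), (1, 2), (1, 4), (2, 3), (2, 5), (2, 6), (3, 0), (3, 3), (3,
      7), (3, 8), (4, 4), (4, 5), (4, 9), (4, 10), (5, 0), (5, 8), (5, 9)]
    cl := [0, 7, 2, 0, 1, 1, 5, 6, 4, 3, 8]
    chq := [(0, 2), (2, 0), (2, 5), (3, 6), (5, 2), (6, 3)]
    rng := [(0, 1), (0, 9), (1, 0), (1, 2), (2, 1), (2, 4), (3, 6), (3, 7), (4, 2), (4, 9), (5, 6), (5,
      10), (6, 3), (6, 5), (7, 3), (7, 8), (8, 7), (8, 9), (9, 0), (9, 4), (9, 8), (9, 10), (10,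
      5), (10, 9)]
    lev := [] }
  links := [[6, 7, 8, 1, 2, 9, 3], [2, 0, 8, 10, 4], [9, 0, 1, 4, 11, 12], [6, 0, 9, 13, 14, 5], [11, 2,
    1, 10, 15, 16], [3, 14, 15, 6]]
  P := {
    a := 6
    N := 17
    nb := [974, 1301, 6675, 25185, 101382, 49224, 32937, 321, 1155, 12301, 33042, 69652, 2564, 16904,
      41000, 83056, 34832]
    tri := [(0, 1, 2), (0, 1, 8), (0, 2, 9), (0, 3, 6), (0, 3, 9), (0, 6, 7), (0, 7, 8), (1, 2, 4), (1,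
      4, 10), (1, 8, 10), (2, 4, 11), (2, 9, 12), (2, 11, 12), (3, 5, 6), (3, 5, 14), (3, 9, 13),
      (3, 13, 14), (4, 10, 15), (4, 11, 16), (4, 15, 16), (5, 6, 15), (5, 14, 15)]
    fin := [0, 1, 1, 3, 4, 3, 0, 7, 1, 0, 4, 4, 12, 13, 14, 3, 16]
    chd := [(0, 1), (1, 12), (13, 3)]
    steps := [(0, 6), (0, 9), (1, 2), (1, 8), (3, 5), (3, 15), (4, 10), (4, 11)] }
  rep := [0, 4, 1, 3, 14, 12, 13, 7, 16]

noncomputable def v3825 : Cov.CovD where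
  P := 3
  N := 6
  pl := [1, 8, 10]
  lev := [⟨[], [], [(0, 0), (0, 2)], [7], [(0, 0, [2]), (2, 2, [0, 5]), (3, 0, [2])]⟩,
    ⟨[], [(0, 0), (0, 1), (0, 2)], [(1, 2)], [], [(2, 2, [0, 5]), (4, 1, [])]⟩,
    ⟨[(0, 1)], [(0, 0), (0, 1), (0, 2), (0, 5), (1, 0), (1, 1), (1, 2), (1, 5)], [(0, 1),
      (0, 5), (1, 5)], [], [(3, 0, [2]), (5, 1, []), (6, 5, [2])]⟩,
    ⟨[(0, 1), (0, 2)], [(0, 0), (0, 2), (0, 6), (2, 0)], [(0, 0), (0, 6)], [4], [(0, 0,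
      [2]), (3, 0, [2]), (7, 6, [3])]⟩,
    ⟨[(0, 1), (0, 2), (1, 2)], [(1, 1), (1, 2), (1, 3), (2, 0), (2, 1), (2, 3), (2, 5)],
      [(1, 1), (1, 3)], [8], [(4, 1, []), (5, 1, []), (9, 3, [6])]⟩,
    ⟨[(0, 3)], [(0, 0), (3, 0), (3, 3), (3, 6), (4, 3)], [(0, 3)], [4], [(0, 0, [2]), (9,
      3, [6])]⟩]
  Ta := [((0, 1), 0, 7), ((0, 9), 0, 3), ((3, 6), 0, 5), ((3, 7), 0, 6), ((4, 2), 1, 2), ((4, 9),
    1, 3), ((5, 6), 1, 5), ((5, 10), 1, 8)]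
  Tb := [((0, 1, 9), 0, 7, 3), ((1, 0, 2), 7, 0, 2), ((2, 1, 4), 2, 7, 1), ((3, 6, 7), 0, 5, 6),
    ((4, 2, 9), 1, 2, 3), ((5, 6, 10), 1, 5, 8), ((6, 3, 5), 5, 0, 1), ((7, 3, 8), 6, 0, 4),
    ((8, 7, 9), 4, 6, 3), ((9, 0, 4), 3, 0, 1), ((9, 0, 8), 3, 0, 4), ((9, 0, 10), 3, 0, 8),
    ((9, 4, 8), 3, 1, 4), ((9, 4, 10), 3, 1, 8), ((9, 8, 10), 3, 4, 8), ((10, 5, 9), 8, 1,
    3)]
  Tc := [(2, 0, 5)]
  Td := [((0, 2), (0, 1), 7), ((0, 2), (0, 9), 3), ((0, 2), (3, 6), 5), ((0, 2), (3, 7), 6), ((2,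
    0), (2, 1), 7), ((2, 0), (2, 4), 1), ((2, 5), (2, 1), 7), ((2, 5), (2, 4), 1), ((3, 6),
    (9, 0), 0), ((3, 6), (9, 4), 1), ((3, 6), (9, 8), 4), ((3, 6), (9, 10), 8), ((5, 2), (6,
    3), 0), ((5, 2), (6, 5), 1), ((6, 3), (7, 3), 0), ((6, 3), (7, 8), 4)]
  G := [[0, 0x62a222e666ea4aecc2ee6462a222e866eaaaecc2eea8c,
    0x235d13511e1894c6341412ad24e2859919a2cc, 0x666da4ad222de21866daaad222de28c,
    0x666da4adc6ade21869aa9cc9e6444c4e58a], [0,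
    0x62a222e666ea4aecc2ee6462a222e866eaaaecc2eea8c,
    0x1121613c34c81ce52311121e3121a83c11c81ced2313111e3111cc4e, 0,
    0x669a1229e64a4c24e5261aa9c1e86c44ccce58a], [0,
    0x3241222a316e141e9c2eee412a222e851e91ae192eea8c, 0x166da43d111de24853da111e11c81c638c,
    0x211da43d222de21113d321d122de21c, 0x1a94231d14255de61144444e231d11ad81cdec8a], [0,
    0x222113e941e552ee64222851e913e152ee613212c44e,
    0x11216311121e15c31c82ced46188811a111e513111e81c14c84ced4e, 0,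
    0x444213d141d222dec21424a82444113da41d149dec1e]]

noncomputable def n3825 : Ent := ⟨e3825, noF, [], [], [(16, 14, [1580095832788404724998799751142926758855362888449624481876434419713, 0])]⟩

def c3825 : PLift (Cov.check n3825.C.D v3825 = true) := ⟨by decide +kernel⟩

def b3825 : PLift (entF (fidx ts) 400 3825 n3825 = true) := ⟨by decide +kernel⟩

theorem g3825 : GoodF (fidx ts) 400 3825 := GoodF.ofV v3825 n3825 c3825.down b3825.down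

/-- 756664:2782/5 -/
noncomputable def e3826 : SCfg where
  D := {
    a := 6
    L := 11
    kp := 8
    inn := [(0, 1), (0, 2), (0, 3), (1, 0), (1, 2), (1, 4), (2, 0), (2, 1), (2, 4), (3, 0), (3, 5), (4,
      1), (4, 2), (5, 3)]
    mix := [(0, 0), (0, 1), (0, 2), (0, 3), (1, 2), (1, 4), (2, 3), (2, 5), (2, 6), (3, 0), (3, 3), (3,
      7), (3, 8), (4, 4), (4, 5), (4, 8), (4, 9), (5, 0), (5, 8), (5, 10)]
    cl := [3, 7, 2, 3, 0, 0, 4, 5, 1, 8, 6]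
    chq := [(2, 3), (2, 4), (3, 2), (4, 2), (5, 6), (6, 5)]
    rng := [(0, 1), (0, 10), (1, 0), (1, 2), (2, 1), (2, 4), (3, 6), (3, 7), (4, 2), (4, 9), (5, 6),
      (5, 8), (6, 3), (6, 5), (7, 3), (7, 8), (8, 5), (8, 7), (8, 9), (8, 10), (9, 4), (9, 8),
      (10, 0), (10, 8)]
    lev := [] }
  links := [[6, 7, 8, 1, 2, 9, 3], [2, 0, 8, 10, 4], [9, 0, 1, 4, 11, 12], [6, 0, 9, 13, 14, 5], [11, 2,
    1, 10, 15, 14], [3, 14, 16, 6]]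
  P := {
    a := 6
    N := 17
    nb := [974, 1301, 6675, 25185, 52230, 81992, 65705, 321, 1155, 12301, 33042, 20500, 2564, 16904,
      108600, 17424, 16480]
    tri := [(0, 1, 2), (0, 1, 8), (0, 2, 9), (0, 3, 6), (0, 3, 9), (0, 6, 7), (0, 7, 8), (1, 2, 4), (1,
      4, 10), (1, 8, 10), (2, 4, 11), (2, 9, 12), (2, 11, 12), (3, 5, 6), (3, 5, 14), (3, 9, 13),
      (3, 13, 14), (4, 10, 15), (4, 11, 14), (4, 14, 15), (5, 6, 16), (5, 14, 16)]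
    fin := [0, 1, 1, 3, 4, 3, 0, 7, 1, 0, 4, 4, 12, 3, 14, 15, 16]
    chd := [(0, 1), (1, 12), (3, 16)]
    steps := [(0, 6), (0, 9), (1, 2), (1, 8), (3, 5), (3, 13), (4, 10), (4, 11)] }
  rep := [4, 14, 1, 0, 12, 3, 16, 7, 15]

noncomputable def v3826 : Cov.CovD where
  P := 3
  N := 6
  pl := [1, 8, 9]
  lev := [⟨[], [], [(2, 3), (3, 3)], [7], [(0, 3, [2]), (2, 2, [3, 4]), (3, 3, [2])]⟩,
    ⟨[], [(0, 0), (0, 2), (0, 3)], [(0, 2)], [], [(2, 2, [3, 4]), (4, 0, [])]⟩,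
    ⟨[(0, 1)], [(0, 0), (0, 2), (0, 3), (0, 4), (1, 0), (1, 2), (1, 3), (1, 4)], [(0, 3),
      (0, 4), (3, 4)], [], [(3, 3, [2]), (5, 0, []), (6, 4, [2])]⟩,
    ⟨[(0, 1), (0, 2)], [(0, 2), (0, 3), (0, 5), (2, 3)], [(3, 3), (3, 5)], [1], [(0, 3,
      [2]), (3, 3, [2]), (7, 5, [6])]⟩,
    ⟨[(0, 1), (0, 2), (1, 2)], [(1, 0), (1, 2), (2, 0), (2, 3), (2, 4)], [(0, 0)], [1, 8],
      [(4, 0, []), (5, 0, [])]⟩,
    ⟨[(0, 3)], [(0, 3), (3, 3), (3, 5), (3, 6)], [(3, 6)], [1], [(0, 3, [2]), (10, 6,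
      [5])]⟩]
  Ta := [((0, 1), 3, 7), ((0, 10), 3, 6), ((3, 6), 3, 4), ((3, 7), 3, 5), ((4, 2), 0, 2), ((4,
    9), 0, 8), ((5, 6), 0, 4), ((5, 8), 0, 1)]
  Tb := [((0, 1, 10), 3, 7, 6), ((1, 0, 2), 7, 3, 2), ((2, 1, 4), 2, 7, 0), ((3, 6, 7), 3, 4, 5),
    ((4, 2, 9), 0, 2, 8), ((5, 6, 8), 0, 4, 1), ((6, 3, 5), 4, 3, 0), ((7, 3, 8), 5, 3, 1),
    ((8, 5, 7), 1, 0, 5), ((8, 5, 9), 1, 0, 8), ((8, 5, 10), 1, 0, 6), ((8, 7, 9), 1, 5, 8),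
    ((8, 7, 10), 1, 5, 6), ((8, 9, 10), 1, 8, 6), ((9, 4, 8), 8, 0, 1), ((10, 0, 8), 6, 3,
    1)]
  Tc := [(2, 3, 4)]
  Td := [((2, 3), (2, 1), 7), ((2, 3), (2, 4), 0), ((2, 4), (2, 1), 7), ((2, 4), (2, 4), 0), ((3,
    2), (0, 1), 7), ((3, 2), (0, 10), 6), ((3, 2), (3, 6), 4), ((3, 2), (3, 7), 5), ((4, 2),
    (6, 3), 3), ((4, 2), (6, 5), 0), ((5, 6), (7, 3), 3), ((5, 6), (7, 8), 1), ((6, 5), (10,
    0), 3), ((6, 5), (10, 8), 1)]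
  G := [[0, 0, 0x11c88c91211c44c51811c11ccccd14e, 0x55c88c88cd2444c99c44cd2811c11ccccd28d,
    0x84444c88cc44814449f24484899cc4494c44c1f81444511c44c5c2b], [0, 0,
    0x11c88c91211c49c51244c18c48cd14e, 0x14c18c44cd2444c11c48cd2811c18c84cd24d,
    0x14444c81cc14844449f28411841c11cc1414c48c17814811c44c5844e8f], [0,
    0x22c88ca2422c44c62122c22cccce24d, 0, 0x55c88c88cd2144c99c44cd2111c11ccccd28d,
    0x44c88cc448484d61449444d4898c48d44449e1141444d11c44c5c2b], [0,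
    0x22c88ca2122c44c62142c88c48ce28d, 0, 0x11c11c48cd2114c88c48cd2844c81c84cd24d,
    0x1444544c88cc148e14481818c48cd141484de1c4849c1c44c514845e2b]]

noncomputable def n3826 : Ent := ⟨e3826, noF, [], [], [(15, 16, [1580044410770988437309982408355971841652082177953823432505704775681, 0])]⟩

def c3826 : PLift (Cov.check n3826.C.D v3826 = true) := ⟨by decide +kernel⟩

def b3826 : PLift (entF (fidx ts) 400 3826 n3826 = true) := ⟨by decide +kernel⟩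

theorem g3826 : GoodF (fidx ts) 400 3826 := GoodF.ofV v3826 n3826 c3826.down b3826.down

/-- 756664:2782/6 -/
noncomputable def e3827 : SCfg where
  D := {
    a := 6
    L := 11
    kp := 8
    inn := [(0, 1), (0, 2), (0, 3), (1, 0), (1, 2), (1, 4), (2, 0), (2, 1), (2, 4), (3, 0), (3, 5), (4,
      1), (4, 2), (5, 3)]
    mix := [(0, 0), (0, 1), (0, 2), (0, 3), (1, 2), (1, 4), (2, 3), (2, 5), (2, 6), (3, 0), (3, 3), (3,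
      7), (3, 8), (4, 4), (4, 5), (4, 9), (4, 10), (5, 0), (5, 8), (5, 10)]
    cl := [0, 7, 2, 0, 1, 1, 5, 6, 4, 8, 3]
    chq := [(0, 2), (2, 0), (2, 5), (3, 6), (5, 2), (6, 3)]
    rng := [(0, 1), (0, 10), (1, 0), (1, 2), (2, 1), (2, 4), (3, 6), (3, 7), (4, 2), (4, 9), (5, 6),
      (5, 10), (6, 3), (6, 5), (7, 3), (7, 8), (8, 7), (8, 10), (9, 4), (9, 10), (10, 0), (10, 5),
      (10, 8), (10, 9)]
    lev := [] }
  links := [[6, 7, 8, 1, 2, 9, 3], [2, 0, 8, 10, 4], [9, 0, 1, 4, 11, 12], [6, 0, 9, 13, 14, 5], [11, 2,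
    1, 10, 15, 16], [3, 14, 16, 6]]
  P := {
    a := 6
    N := 17
    nb := [974, 1301, 6675, 25185, 101382, 81992, 65705, 321, 1155, 12301, 33042, 69652, 2564, 16904,
      73768, 66576, 51312]
    tri := [(0, 1, 2), (0, 1, 8), (0, 2, 9), (0, 3, 6), (0, 3, 9), (0, 6, 7), (0, 7, 8), (1, 2, 4), (1,
      4, 10), (1, 8, 10), (2, 4, 11), (2, 9, 12), (2, 11, 12), (3, 5, 6), (3, 5, 14), (3, 9, 13),
      (3, 13, 14), (4, 10, 15), (4, 11, 16), (4, 15, 16), (5, 6, 16), (5, 14, 16)]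
    fin := [0, 1, 1, 3, 4, 3, 0, 7, 1, 0, 4, 4, 12, 13, 14, 15, 3]
    chd := [(0, 1), (1, 12), (13, 3)]
    steps := [(0, 6), (0, 9), (1, 2), (1, 8), (3, 5), (3, 16), (4, 10), (4, 11)] }
  rep := [0, 4, 1, 3, 14, 12, 13, 7, 15]

noncomputable def v3827 : Cov.CovD where
  P := 3
  N := 6
  pl := [1, 8, 9]
  lev := [⟨[], [], [(0, 0), (0, 2)], [7], [(0, 0, [2]), (2, 2, [0, 5]), (3, 0, [2])]⟩,
    ⟨[], [(0, 0), (0, 1), (0, 2)], [(1, 2)], [], [(2, 2, [0, 5]), (4, 1, [])]⟩,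
    ⟨[(0, 1)], [(0, 0), (0, 1), (0, 2), (0, 5), (1, 0), (1, 1), (1, 2), (1, 5)], [(0, 1),
      (0, 5), (1, 5)], [], [(3, 0, [2]), (5, 1, []), (6, 5, [2])]⟩,
    ⟨[(0, 1), (0, 2)], [(0, 0), (0, 2), (0, 6), (2, 0)], [(0, 0), (0, 6)], [4], [(0, 0,
      [2]), (3, 0, [2]), (7, 6, [3])]⟩,
    ⟨[(0, 1), (0, 2), (1, 2)], [(1, 1), (1, 2), (1, 3), (2, 0), (2, 1), (2, 3), (2, 5)],
      [(1, 1), (1, 3)], [8], [(4, 1, []), (5, 1, []), (10, 3, [6])]⟩,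
    ⟨[(0, 3)], [(0, 0), (3, 0), (3, 3), (3, 6), (4, 3)], [(0, 3)], [4], [(0, 0, [2]), (10,
      3, [6])]⟩]
  Ta := [((0, 1), 0, 7), ((0, 10), 0, 3), ((3, 6), 0, 5), ((3, 7), 0, 6), ((4, 2), 1, 2), ((4,
    9), 1, 8), ((5, 6), 1, 5), ((5, 10), 1, 3)]
  Tb := [((0, 1, 10), 0, 7, 3), ((1, 0, 2), 7, 0, 2), ((2, 1, 4), 2, 7, 1), ((3, 6, 7), 0, 5, 6),
    ((4, 2, 9), 1, 2, 8), ((5, 6, 10), 1, 5, 3), ((6, 3, 5), 5, 0, 1), ((7, 3, 8), 6, 0, 4),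
    ((8, 7, 10), 4, 6, 3), ((9, 4, 10), 8, 1, 3), ((10, 0, 5), 3, 0, 1), ((10, 0, 8), 3, 0,
    4), ((10, 0, 9), 3, 0, 8), ((10, 5, 8), 3, 1, 4), ((10, 5, 9), 3, 1, 8), ((10, 8, 9), 3,
    4, 8)]
  Tc := [(2, 0, 5)]
  Td := [((0, 2), (0, 1), 7), ((0, 2), (0, 10), 3), ((0, 2), (3, 6), 5), ((0, 2), (3, 7), 6),
    ((2, 0), (2, 1), 7), ((2, 0), (2, 4), 1), ((2, 5), (2, 1), 7), ((2, 5), (2, 4), 1), ((3,
    6), (10, 0), 0), ((3, 6), (10, 5), 1), ((3, 6), (10, 8), 4), ((3, 6), (10, 9), 8), ((5,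
    2), (6, 3), 0), ((5, 2), (6, 5), 1), ((6, 3), (7, 3), 0), ((6, 3), (7, 8), 4)]
  G := [[0, 0xa246222a666ea4aecc2eee4a246222a866eaaaecc2eee8c,
    0x211d343d122de2481c121d242de23182cc, 0x666da4ad222de21866daaad222de21c,
    0x666da4ad222de21869a1cc9e64a4cc4e58a], [0,
    0x62a222e666ea4aecc2ee6162a222e866eaaaecc2eea8c,
    0x11442113121e3121a83c91c15ced8313111e113151e11c34c84ced4e, 0,
    0x669aa92c9e6444c4e526444c4e1869aa9cc9e49a], [0,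
    0x222153e941e512eea4222861e9a3e112ee681232c84e, 0x211d143d222de24851d12ad212de28c,
    0x113d341d122de21213d121d222de21c, 0x211d143d222de21342414e236d913d111dec1a], [0,
    0x3241222a553e911e1c1eee112a222e833ea11e152eea1c,
    0xa1516619121e11c34c15ced4118843111c1e613111e83c94c11ced8e, 0,
    0x444163d321d81cdec21444a88444231d143d815dec1e]]

noncomputable def n3827 : Ent := ⟨e3827, noF, [], [], [(15, 14, [1685382413448253767852309107433119732572617628602273068445380567041, 0])]⟩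

def c3827 : PLift (Cov.check n3827.C.D v3827 = true) := ⟨by decide +kernel⟩

def b3827 : PLift (entF (fidx ts) 400 3827 n3827 = true) := ⟨by decide +kernel⟩

theorem g3827 : GoodF (fidx ts) 400 3827 := GoodF.ofV v3827 n3827 c3827.down b3827.down

/-- 756664:2782 -/
noncomputable def e3828 : SCfg where
  D := {
    a := 6
    L := 12
    kp := 9
    inn := [(0, 1), (0, 2), (0, 3), (1, 0), (1, 2), (1, 4), (2, 0), (2, 1), (2, 4), (3, 0), (3, 5), (4,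
      1), (4, 2), (5, 3)]
    mix := [(0, 0), (0, 1), (0, 2), (0, 3), (1, 2), (1, 4), (2, 3), (2, 5), (2, 6), (3, 0), (3, 3), (3,
      7), (3, 8), (4, 4), (4, 5), (4, 9), (4, 10), (5, 0), (5, 8), (5, 11)]
    cl := [0, 7, 2, 0, 1, 1, 4, 5, 3, 8, 9, 6]
    chq := [(0, 2), (2, 0), (2, 4), (4, 2), (5, 6), (6, 5)]
    rng := [(0, 1), (0, 11), (1, 0), (1, 2), (2, 1), (2, 4), (3, 6), (3, 7), (4, 2), (4, 9), (5, 6),
      (5, 10), (6, 3), (6, 5), (7, 3), (7, 8), (8, 7), (8, 11), (9, 4), (9, 10), (10, 5), (10, 9),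
      (11, 0), (11, 8)]
    lev := [] }
  links := [[6, 7, 8, 1, 2, 9, 3], [2, 0, 8, 10, 4], [9, 0, 1, 4, 11, 12], [6, 0, 9, 13, 14, 5], [11, 2,
    1, 10, 15, 16], [3, 14, 17, 6]]
  P := {
    a := 6
    N := 18
    nb := [974, 1301, 6675, 25185, 101382, 147528, 131241, 321, 1155, 12301, 33042, 69652, 2564,
      16904, 139304, 66576, 34832, 16480]
    tri := [(0, 1, 2), (0, 1, 8), (0, 2, 9), (0, 3, 6), (0, 3, 9), (0, 6, 7), (0, 7, 8), (1, 2, 4), (1,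
      4, 10), (1, 8, 10), (2, 4, 11), (2, 9, 12), (2, 11, 12), (3, 5, 6), (3, 5, 14), (3, 9, 13),
      (3, 13, 14), (4, 10, 15), (4, 11, 16), (4, 15, 16), (5, 6, 17), (5, 14, 17)]
    fin := [0, 1, 1, 3, 4, 3, 0, 7, 1, 0, 4, 4, 12, 3, 14, 15, 16, 17]
    chd := [(0, 1), (1, 12), (3, 17)]
    steps := [(0, 6), (0, 9), (1, 2), (1, 8), (3, 5), (3, 13), (4, 10), (4, 11)] }
  rep := [0, 4, 1, 14, 12, 3, 17, 7, 15, 16]

noncomputable def v3828 : Cov.CovD where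
  P := 3
  N := 7
  pl := [1, 8, 9, 10]
  lev := [⟨[], [], [(0, 0), (0, 2)], [7], [(0, 0, [2]), (2, 2, [0, 4]), (3, 0, [2])]⟩,
    ⟨[], [(0, 0), (0, 1), (0, 2)], [(1, 2)], [], [(2, 2, [0, 4]), (4, 1, [])]⟩,
    ⟨[(0, 1)], [(0, 0), (0, 1), (0, 2), (0, 4), (1, 0), (1, 1), (1, 2), (1, 4)], [(0, 1),
      (0, 4), (1, 4)], [], [(3, 0, [2]), (5, 1, []), (6, 4, [2])]⟩,
    ⟨[(0, 1), (0, 2)], [(0, 0), (0, 2), (0, 5), (2, 0)], [(0, 0), (0, 5)], [3], [(0, 0,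
      [2]), (3, 0, [2]), (7, 5, [6])]⟩,
    ⟨[(0, 1), (0, 2), (1, 2)], [(1, 1), (1, 2), (2, 0), (2, 1), (2, 4)], [(1, 1)], [8, 9],
      [(4, 1, []), (5, 1, [])]⟩,
    ⟨[(0, 3)], [(0, 0), (3, 0), (3, 5), (3, 6)], [(0, 6)], [3], [(0, 0, [2]), (11, 6,
      [5])]⟩]
  Ta := [((0, 1), 0, 7), ((0, 11), 0, 6), ((3, 6), 0, 4), ((3, 7), 0, 5), ((4, 2), 1, 2), ((4,
    9), 1, 8), ((5, 6), 1, 4), ((5, 10), 1, 9)]
  Tb := [((0, 1, 11), 0, 7, 6), ((1, 0, 2), 7, 0, 2), ((2, 1, 4), 2, 7, 1), ((3, 6, 7), 0, 4, 5),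
    ((4, 2, 9), 1, 2, 8), ((5, 6, 10), 1, 4, 9), ((6, 3, 5), 4, 0, 1), ((7, 3, 8), 5, 0, 3),
    ((8, 7, 11), 3, 5, 6), ((9, 4, 10), 8, 1, 9), ((10, 5, 9), 9, 1, 8), ((11, 0, 8), 6, 0,
    3)]
  Tc := [(2, 0, 4)]
  Td := [((0, 2), (0, 1), 7), ((0, 2), (0, 11), 6), ((0, 2), (3, 6), 4), ((0, 2), (3, 7), 5),
    ((2, 0), (2, 1), 7), ((2, 0), (2, 4), 1), ((2, 4), (2, 1), 7), ((2, 4), (2, 4), 1), ((4,
    2), (6, 3), 0), ((4, 2), (6, 5), 1), ((5, 6), (7, 3), 0), ((5, 6), (7, 8), 3), ((6, 5),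
    (11, 0), 0), ((6, 5), (11, 8), 3)]
  G := [[0, 0x62a2c2e666eaaaecccee6462a2c2e666eaaaeccceea8c, 0x365d119dc91de24111daa3d555de28c,
    0x666daaadcccde21666daaadcccde28c, 0xc422666daaadcc9e29669aa9cc9e64a4c4e58a], [0,
    0xc22666eaaaecccee61c22666eaaaecccee6862a2c84e,
    0x611191e15c39cc54311191e59c292519111e619111e36c11c91ced4e, 0,
    0x669a1c1e64aacccce5261aa9cc9e66ca4c4e58a], [0,
    0x122533ea11e1ccee64122165e319ec91eea85292c48e, 0x1131c55e24161d313d595de2853ca1c18e14e,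
    0x136d311db99de21363d1a1d919de21c, 0x653d191dc1cde21549414e165da1ad591dec8a], [0,
    0x922551e93ae195eea1922616e1a1e959ee683212c41e,
    0xa1116481131c1e51863c91c19ced2113151e11a1c1e63c91c1cced4e, 0,
    0x944165d319dcc1dec25414a88a44315d13adc51dec8e]]

noncomputable def n3828 : Ent := ⟨e3828, noF, [], [], [(15, 14, [7334790875878422277917280412776772662961875900559637987928627385135105, 0]), (15, 17, [6903326391201334775872065844685381424292761054348340378595029945356289, 0]), (16, 14, [7334685589297762428874426903420482469988158645819485339342058438991873, 0]), (16, 17, [6903326391201334775872065844685381424292761054348340378595029945364481, 0])]⟩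

def c3828 : PLift (Cov.check n3828.C.D v3828 = true) := ⟨by decide +kernel⟩

def b3828 : PLift (entF (fidx ts) 400 3828 n3828 = true) := ⟨by decide +kernel⟩

theorem g3828 : GoodF (fidx ts) 400 3828 := GoodF.ofV v3828 n3828 c3828.down b3828.down

/-- 866554:2783/1 -/
noncomputable def e3829 : SCfg where
  D := {
    a := 6
    L := 11
    kp := 9
    inn := [(0, 1), (0, 2), (0, 3), (0, 4), (1, 0), (1, 4), (2, 0), (2, 3), (3, 0), (3, 2), (3, 5), (4,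
      0), (4, 1), (5, 3)]
    mix := [(0, 0), (0, 1), (0, 2), (0, 3), (1, 0), (1, 4), (1, 5), (1, 6), (2, 0), (2, 6), (2, 7), (2,
      8), (3, 1), (3, 7), (4, 3), (4, 4), (4, 9), (5, 1), (5, 7), (5, 10)]
    cl := [0, 1, 0, 2, 5, 6, 4, 3, 7, 8, 9]
    chq := [(1, 3), (1, 4), (1, 7), (2, 4), (2, 5), (2, 6), (3, 1), (4, 1), (4, 2), (5, 2), (6, 2), (7,
      1)]
    rng := [(0, 6), (1, 2), (1, 10), (2, 1), (2, 3), (3, 2), (3, 9), (4, 5), (4, 9), (5, 4), (5, 6),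
      (6, 0), (6, 5), (6, 8), (7, 8), (7, 10), (8, 6), (8, 7), (9, 3), (9, 4), (10, 1), (10, 7)]
    lev := [] }
  links := [[1, 6, 2, 3, 7, 8, 9, 4], [6, 0, 4, 10, 11, 12], [13, 3, 0, 6, 12, 14], [7, 0, 2, 13, 5], [1,
    0, 9, 15, 10], [3, 13, 16, 7]]
  P := {
    a := 6
    N := 17
    nb := [990, 7249, 28745, 8357, 34307, 73864, 4103, 65833, 641, 33041, 34834, 5122, 18502, 81964,
      12292, 1552, 8352]
    tri := [(0, 1, 4), (0, 1, 6), (0, 2, 3), (0, 2, 6), (0, 3, 7), (0, 4, 9), (0, 7, 8), (0, 8, 9), (1,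
      4, 10), (1, 6, 12), (1, 10, 11), (1, 11, 12), (2, 3, 13), (2, 6, 12), (2, 12, 14), (2, 13,
      14), (3, 5, 7), (3, 5, 13), (4, 9, 15), (4, 10, 15), (5, 7, 16), (5, 13, 16)]
    fin := [0, 1, 2, 2, 1, 5, 0, 2, 0, 1, 10, 11, 12, 5, 14, 15, 16]
    chd := [(1, 10), (1, 11), (1, 12), (2, 5), (2, 12), (2, 14)]
    steps := [(0, 6), (0, 8), (1, 4), (1, 9), (2, 3), (2, 7), (5, 13)] }
  rep := [0, 2, 1, 5, 12, 10, 11, 14, 15, 16]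

noncomputable def v3829 : Cov.CovD where
  P := 3
  N := 7
  pl := [9, 10]
  lev := [⟨[], [], [(0, 0), (0, 1), (0, 2), (1, 2)], [], [(0, 0, []), (1, 1, [3, 4, 7]), (2, 0,
      []), (3, 2, [4, 5, 6])]⟩,
    ⟨[], [(0, 0), (0, 1), (0, 2), (0, 4), (0, 5), (0, 6)], [(0, 4), (0, 5), (0, 6), (4, 5),
      (4, 6), (5, 6)], [], [(0, 0, []), (4, 5, [2]), (5, 6, [2]), (6, 4, [1, 2])]⟩,
    ⟨[(0, 1)], [(0, 0), (0, 1), (0, 2), (0, 3), (0, 4), (0, 7), (1, 0), (1, 4)], [(0, 3),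
      (0, 4), (0, 7), (3, 4), (3, 7), (4, 7)], [], [(0, 0, []), (6, 4, [1, 2]), (7, 3, [1]),
      (8, 7, [1])]⟩,
    ⟨[(0, 1), (0, 2)], [(0, 0), (0, 1), (0, 2), (0, 3), (2, 0), (2, 1), (2, 3), (2, 4), (2,
      7)], [(1, 3)], [], [(1, 1, [3, 4, 7]), (7, 3, [1])]⟩,
    ⟨[(0, 1), (0, 2), (0, 3)], [(0, 0), (0, 1), (0, 2), (0, 5), (1, 0), (1, 2), (1, 4), (1,
      5), (1, 6)], [(2, 5)], [8], [(3, 2, [4, 5, 6]), (4, 5, [2])]⟩,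
    ⟨[(0, 3), (2, 3)], [(0, 1), (2, 3), (3, 1), (3, 3)], [(1, 3)], [9], [(1, 1, [3, 4, 7]),
      (7, 3, [1])]⟩]
  Ta := [((0, 6), 0, 4), ((2, 1), 0, 1), ((2, 3), 0, 2)]
  Tb := [((1, 2, 10), 1, 0, 9), ((2, 1, 3), 0, 1, 2), ((3, 2, 9), 2, 0, 8), ((4, 5, 9), 5, 6, 8),
    ((5, 4, 6), 6, 5, 4), ((6, 0, 5), 4, 0, 6), ((6, 0, 8), 4, 0, 7), ((6, 5, 8), 4, 6, 7),
    ((7, 8, 10), 3, 7, 9), ((8, 6, 7), 7, 4, 3), ((9, 3, 4), 8, 2, 5), ((10, 1, 7), 9, 1, 3)]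
  Tc := [(1, 3, 4), (1, 3, 7), (1, 4, 7), (2, 4, 5), (2, 4, 6), (2, 5, 6), (4, 1, 2)]
  Td := [((1, 3), (1, 2), 0), ((1, 3), (1, 10), 9), ((1, 4), (1, 2), 0), ((1, 4), (1, 10), 9),
    ((1, 7), (1, 2), 0), ((1, 7), (1, 10), 9), ((2, 4), (3, 2), 0), ((2, 4), (3, 9), 8), ((2,
    5), (3, 2), 0), ((2, 5), (3, 9), 8), ((2, 6), (3, 2), 0), ((2, 6), (3, 9), 8), ((3, 1),
    (7, 8), 7), ((3, 1), (7, 10), 9), ((4, 1), (6, 0), 0), ((4, 1), (6, 5), 6), ((4, 1), (6,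
    8), 7), ((4, 2), (6, 0), 0), ((4, 2), (6, 5), 6), ((4, 2), (6, 8), 7), ((5, 2), (4, 5),
    6), ((5, 2), (4, 9), 8), ((6, 2), (5, 4), 5), ((6, 2), (5, 6), 4), ((7, 1), (8, 6), 4),
    ((7, 1), (8, 7), 3)]
  G := [[0, 0, 0, 0xcccd555d9224, 0xcccb999b5248], [0, 0xcccd666da124, 0xccce999e5218,
    0xcccd555d9224, 0xcccb999b5248]]

noncomputable def n3829 : Ent := ⟨e3829, noF, [], [], []⟩

def c3829 : PLift (Cov.check n3829.C.D v3829 = true) := ⟨by decide +kernel⟩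

def b3829 : PLift (entF (fidx ts) 400 3829 n3829 = true) := ⟨by decide +kernel⟩

theorem g3829 : GoodF (fidx ts) 400 3829 := GoodF.ofV v3829 n3829 c3829.down b3829.down

/-- 866554:2783 -/
noncomputable def e3830 : SCfg where
  D := {
    a := 6
    L := 12
    kp := 10
    inn := [(0, 1), (0, 2), (0, 3), (0, 4), (1, 0), (1, 4), (2, 0), (2, 3), (3, 0), (3, 2), (3, 5), (4,
      0), (4, 1), (5, 3)]
    mix := [(0, 0), (0, 1), (0, 2), (0, 3), (1, 0), (1, 4), (1, 5), (1, 6), (2, 0), (2, 7), (2, 8), (2,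
      9), (3, 1), (3, 7), (4, 3), (4, 4), (4, 10), (5, 1), (5, 7), (5, 11)]
    cl := [0, 1, 0, 2, 4, 5, 6, 3, 7, 8, 9, 10]
    chq := [(1, 3), (1, 7), (1, 8), (2, 4), (2, 5), (2, 6), (3, 1), (4, 2), (5, 2), (6, 2), (7, 1), (8,
      1)]
    rng := [(0, 6), (0, 8), (1, 2), (1, 11), (2, 1), (2, 3), (3, 2), (3, 10), (4, 5), (4, 10), (5, 4),
      (5, 6), (6, 0), (6, 5), (7, 9), (7, 11), (8, 0), (8, 9), (9, 7), (9, 8), (10, 3), (10, 4),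
      (11, 1), (11, 7)]
    lev := [] }
  links := [[1, 6, 2, 3, 7, 8, 9, 4], [6, 0, 4, 10, 11, 12], [13, 3, 0, 6, 14, 15], [7, 0, 2, 13, 5], [1,
    0, 9, 16, 10], [3, 13, 17, 7]]
  P := {
    a := 6
    N := 18
    nb := [990, 7249, 57417, 8357, 67075, 139400, 20487, 131369, 641, 65809, 67602, 5122, 2114,
      163884, 32836, 24580, 1552, 8352]
    tri := [(0, 1, 4), (0, 1, 6), (0, 2, 3), (0, 2, 6), (0, 3, 7), (0, 4, 9), (0, 7, 8), (0, 8, 9), (1,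
      4, 10), (1, 6, 12), (1, 10, 11), (1, 11, 12), (2, 3, 13), (2, 6, 14), (2, 13, 15), (2, 14,
      15), (3, 5, 7), (3, 5, 13), (4, 9, 16), (4, 10, 16), (5, 7, 17), (5, 13, 17)]
    fin := [0, 1, 2, 2, 1, 5, 0, 2, 0, 1, 10, 11, 12, 5, 14, 15, 16, 17]
    chd := [(1, 10), (1, 11), (1, 12), (2, 5), (2, 14), (2, 15)]
    steps := [(0, 6), (0, 8), (1, 4), (1, 9), (2, 3), (2, 7), (5, 13)] }
  rep := [0, 2, 1, 5, 10, 11, 12, 14, 15, 16, 17]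

noncomputable def v3830 : Cov.CovD where
  P := 3
  N := 8
  pl := [10, 11]
  lev := [⟨[], [], [(0, 0), (0, 1), (0, 2), (1, 2)], [], [(0, 0, []), (1, 1, [3, 7, 8]), (2, 0,
      []), (3, 2, [4, 5, 6])]⟩,
    ⟨[], [(0, 0), (0, 1), (0, 2), (0, 4), (0, 5), (0, 6)], [(0, 4), (0, 5), (0, 6), (4, 5),
      (4, 6), (5, 6)], [], [(0, 0, []), (4, 4, [2]), (5, 5, [2]), (6, 6, [2])]⟩,
    ⟨[(0, 1)], [(0, 0), (0, 1), (0, 2), (0, 3), (0, 7), (0, 8), (1, 0)], [(0, 3), (0, 7),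
      (0, 8), (3, 7), (3, 8), (7, 8)], [], [(0, 0, []), (7, 3, [1]), (8, 7, [1]), (9, 8,
      [1])]⟩,
    ⟨[(0, 1), (0, 2)], [(0, 0), (0, 1), (0, 2), (0, 3), (2, 0), (2, 1), (2, 3), (2, 7), (2,
      8)], [(1, 3)], [], [(1, 1, [3, 7, 8]), (7, 3, [1])]⟩,
    ⟨[(0, 1), (0, 2), (0, 3)], [(0, 0), (0, 1), (0, 2), (0, 4), (1, 0), (1, 2), (1, 4), (1,
      5), (1, 6)], [(2, 4)], [9], [(3, 2, [4, 5, 6]), (4, 4, [2])]⟩,
    ⟨[(0, 3), (2, 3)], [(0, 1), (2, 3), (3, 1), (3, 3)], [(1, 3)], [10], [(1, 1, [3, 7,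
      8]), (7, 3, [1])]⟩]
  Ta := [((0, 6), 0, 6), ((0, 8), 0, 7), ((2, 1), 0, 1), ((2, 3), 0, 2)]
  Tb := [((0, 6, 8), 0, 6, 7), ((1, 2, 11), 1, 0, 10), ((2, 1, 3), 0, 1, 2), ((3, 2, 10), 2, 0,
    9), ((4, 5, 10), 4, 5, 9), ((5, 4, 6), 5, 4, 6), ((6, 0, 5), 6, 0, 5), ((7, 9, 11), 3, 8,
    10), ((8, 0, 9), 7, 0, 8), ((9, 7, 8), 8, 3, 7), ((10, 3, 4), 9, 2, 4), ((11, 1, 7), 10,
    1, 3)]
  Tc := [(1, 3, 7), (1, 3, 8), (1, 7, 8), (2, 4, 5), (2, 4, 6), (2, 5, 6)]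
  Td := [((1, 3), (1, 2), 0), ((1, 3), (1, 11), 10), ((1, 7), (1, 2), 0), ((1, 7), (1, 11), 10),
    ((1, 8), (1, 2), 0), ((1, 8), (1, 11), 10), ((2, 4), (3, 2), 0), ((2, 4), (3, 10), 9),
    ((2, 5), (3, 2), 0), ((2, 5), (3, 10), 9), ((2, 6), (3, 2), 0), ((2, 6), (3, 10), 9),
    ((3, 1), (7, 9), 8), ((3, 1), (7, 11), 10), ((4, 2), (4, 5), 5), ((4, 2), (4, 10), 9),
    ((5, 2), (5, 4), 4), ((5, 2), (5, 6), 6), ((6, 2), (6, 0), 0), ((6, 2), (6, 5), 5), ((7,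
    1), (8, 0), 0), ((7, 1), (8, 9), 8), ((8, 1), (9, 7), 3), ((8, 1), (9, 8), 7)]
  G := [[0, 0, 0, 0xcccd555d9224, 0xcccb999b5248], [0, 0xcccd666da124, 0xccce999e5218,
    0xcccd999d5228, 0xcccb999b5248]]

noncomputable def n3830 : Ent := ⟨e3830, noF, [], [], [(14, 12, [7334790875878425342908362144554489379655930201178005225406871752364033, 0])]⟩

def c3830 : PLift (Cov.check n3830.C.D v3830 = true) := ⟨by decide +kernel⟩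

def b3830 : PLift (entF (fidx ts) 400 3830 n3830 = true) := ⟨by decide +kernel⟩

theorem g3830 : GoodF (fidx ts) 400 3830 := GoodF.ofV v3830 n3830 c3830.down b3830.down

/-- 855544:2784/1 -/
noncomputable def e3831 : SCfg where
  D := {
    a := 6
    L := 10
    kp := 7
    inn := [(0, 1), (0, 2), (0, 3), (1, 0), (1, 4), (2, 0), (2, 5), (3, 0), (4, 1), (5, 2)]
    mix := [(0, 0), (0, 1), (0, 2), (0, 3), (0, 4), (1, 1), (1, 2), (1, 5), (2, 3), (2, 4), (2, 6), (3,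
      0), (3, 4), (3, 7), (3, 8), (4, 1), (4, 5), (4, 9), (5, 4), (5, 6), (5, 7)]
    cl := [0, 1, 1, 2, 0, 4, 3, 5, 6, 7]
    chq := [(0, 3), (1, 3), (3, 0), (3, 1)]
    rng := [(0, 1), (0, 8), (1, 0), (1, 9), (2, 3), (2, 5), (3, 2), (3, 6), (4, 7), (5, 2), (5, 9), (6,
      3), (6, 7), (7, 4), (7, 6), (7, 8), (8, 0), (8, 7), (9, 1), (9, 5)]
    lev := [] }
  links := [[6, 7, 1, 8, 9, 2, 10, 3], [8, 0, 7, 4, 11], [10, 0, 9, 12, 5], [6, 0, 10, 13, 14], [1, 7,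
    15, 11], [2, 12, 13, 10]]
  P := {
    a := 6
    N := 16
    nb := [1998, 2449, 5665, 25665, 34946, 13316, 16521, 32851, 2563, 4357, 8237, 33042, 8740, 21544,
      8264, 2192]
    tri := [(0, 1, 7), (0, 1, 8), (0, 2, 9), (0, 2, 10), (0, 3, 6), (0, 3, 10), (0, 6, 7), (0, 8, 9),
      (1, 4, 7), (1, 4, 11), (1, 8, 11), (2, 5, 10), (2, 5, 12), (2, 9, 12), (3, 6, 14), (3, 10,
      13), (3, 13, 14), (4, 7, 15), (4, 11, 15), (5, 10, 13), (5, 12, 13)]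
    fin := [0, 0, 0, 3, 0, 3, 3, 0, 0, 9, 3, 11, 12, 13, 14, 15]
    chd := [(0, 12), (3, 12)]
    steps := [(0, 1), (0, 2), (0, 4), (0, 7), (0, 8), (3, 6), (3, 10), (3, 5)] }
  rep := [3, 0, 9, 12, 11, 13, 14, 15]

noncomputable def v3831 : Cov.CovD where
  P := 3
  N := 5
  pl := [3, 5, 7, 8, 9]
  lev := [⟨[], [], [(0, 0), (0, 1), (1, 1)], [2], [(0, 0, [3]), (1, 1, [3]), (2, 1, [3]), (4, 0,
      [3])]⟩,
    ⟨[], [(0, 0), (0, 1)], [(1, 1)], [4], [(1, 1, [3]), (2, 1, [3])]⟩,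
    ⟨[(0, 1)], [(0, 0), (0, 1), (0, 3)], [(0, 3)], [2], [(4, 0, [3]), (6, 3, [0, 1])]⟩,
    ⟨[(0, 1), (0, 2)], [(0, 0), (0, 1), (2, 0)], [(0, 0)], [5, 6], [(0, 0, [3]), (4, 0,
      [3])]⟩,
    ⟨[(0, 1)], [(0, 1), (1, 1)], [], [4, 7], [(1, 1, [3])]⟩,
    ⟨[(0, 2)], [(0, 0), (2, 0), (2, 3), (3, 0)], [(0, 3)], [5], [(4, 0, [3]), (6, 3, [0,
      1])]⟩]
  Ta := [((0, 1), 0, 1), ((0, 8), 0, 6), ((1, 0), 1, 0), ((1, 9), 1, 7), ((2, 3), 1, 2), ((2, 5),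
    1, 4), ((4, 7), 0, 5)]
  Tb := [((0, 1, 8), 0, 1, 6), ((1, 0, 9), 1, 0, 7), ((2, 3, 5), 1, 2, 4), ((3, 2, 6), 2, 1, 3),
    ((5, 2, 9), 4, 1, 7), ((6, 3, 7), 3, 2, 5), ((7, 4, 6), 5, 0, 3), ((7, 4, 8), 5, 0, 6),
    ((7, 6, 8), 5, 3, 6), ((8, 0, 7), 6, 0, 5), ((9, 1, 5), 7, 1, 4)]
  Tc := [(3, 0, 1)]
  Td := [((0, 3), (0, 1), 1), ((0, 3), (0, 8), 6), ((0, 3), (4, 7), 5), ((1, 3), (1, 0), 0), ((1,
    3), (1, 9), 7), ((1, 3), (2, 3), 2), ((1, 3), (2, 5), 4), ((3, 0), (6, 3), 2), ((3, 0),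
    (6, 7), 5), ((3, 1), (6, 3), 2), ((3, 1), (6, 7), 5)]
  G := [[0, 0x141461424a8444cde2e2e2e16182e8e828e58c, 0x11c11c11ce2115115115e294, 0,
    0x99c55c33ce2999559339e258], [0, 0, 0x121221ae2119119216e258,
    0x4222641249242c8222ad98212c128c2228cc, 0x52326292335a2999555c2d8], [0, 0,
    0xeeceec22cee22252ee5ee5225e694, 0, 0xeeceec22cee2ee9ee92c2be258], [0, 0,
    0x222eece222e6222e2ee5225e694, 0x624222e4222624222ec582a222e88288a248dc,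
    0x222ce6e222cea2cebee9e2e258]]

noncomputable def n3831 : Ent := ⟨e3831, noF, [], [], []⟩

def c3831 : PLift (Cov.check n3831.C.D v3831 = true) := ⟨by decide +kernel⟩

def b3831 : PLift (entF (fidx ts) 400 3831 n3831 = true) := ⟨by decide +kernel⟩

theorem g3831 : GoodF (fidx ts) 400 3831 := GoodF.ofV v3831 n3831 c3831.down b3831.down

/-- 855544:2784 -/
noncomputable def e3832 : SCfg where
  D := {
    a := 6
    L := 11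
    kp := 8
    inn := [(0, 1), (0, 2), (0, 3), (1, 0), (1, 4), (2, 0), (2, 5), (3, 0), (4, 1), (5, 2)]
    mix := [(0, 0), (0, 1), (0, 2), (0, 3), (0, 4), (1, 1), (1, 2), (1, 5), (2, 3), (2, 4), (2, 6), (3,
      0), (3, 4), (3, 7), (3, 8), (4, 1), (4, 5), (4, 9), (5, 4), (5, 6), (5, 10)]
    cl := [0, 1, 1, 2, 0, 4, 3, 5, 6, 7, 8]
    chq := [(0, 3), (1, 3), (3, 0), (3, 1)]
    rng := [(0, 1), (0, 8), (1, 0), (1, 9), (2, 3), (2, 5), (3, 2), (3, 6), (4, 7), (4, 10), (5, 2),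
      (5, 9), (6, 3), (6, 10), (7, 4), (7, 8), (8, 0), (8, 7), (9, 1), (9, 5), (10, 4), (10, 6)]
    lev := [] }
  links := [[6, 7, 1, 8, 9, 2, 10, 3], [8, 0, 7, 4, 11], [10, 0, 9, 12, 5], [6, 0, 10, 13, 14], [1, 7,
    15, 11], [2, 12, 16, 10]]
  P := {
    a := 6
    N := 17
    nb := [1998, 2449, 5665, 25665, 34946, 70660, 16521, 32851, 2563, 4357, 73773, 33042, 66084,
      17416, 8264, 2192, 5152]
    tri := [(0, 1, 7), (0, 1, 8), (0, 2, 9), (0, 2, 10), (0, 3, 6), (0, 3, 10), (0, 6, 7), (0, 8, 9),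
      (1, 4, 7), (1, 4, 11), (1, 8, 11), (2, 5, 10), (2, 5, 12), (2, 9, 12), (3, 6, 14), (3, 10,
      13), (3, 13, 14), (4, 7, 15), (4, 11, 15), (5, 10, 16), (5, 12, 16)]
    fin := [0, 0, 0, 3, 0, 3, 3, 0, 0, 9, 3, 11, 12, 13, 14, 15, 16]
    chd := [(0, 12), (3, 12)]
    steps := [(0, 1), (0, 2), (0, 4), (0, 7), (0, 8), (3, 6), (3, 10), (3, 5)] }
  rep := [3, 0, 9, 12, 11, 13, 14, 15, 16]

noncomputable def v3832 : Cov.CovD where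
  P := 3
  N := 6
  pl := [3, 5, 7, 8, 9, 10]
  lev := [⟨[], [], [(0, 0), (0, 1), (1, 1)], [2], [(0, 0, [3]), (1, 1, [3]), (2, 1, [3]), (4, 0,
      [3])]⟩,
    ⟨[], [(0, 0), (0, 1)], [(1, 1)], [4], [(1, 1, [3]), (2, 1, [3])]⟩,
    ⟨[(0, 1)], [(0, 0), (0, 1), (0, 3)], [(0, 3)], [2], [(4, 0, [3]), (6, 3, [0, 1])]⟩,
    ⟨[(0, 1), (0, 2)], [(0, 0), (0, 1), (2, 0)], [(0, 0)], [5, 6], [(0, 0, [3]), (4, 0,
      [3])]⟩,
    ⟨[(0, 1)], [(0, 1), (1, 1)], [], [4, 7], [(1, 1, [3])]⟩,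
    ⟨[(0, 2)], [(0, 0), (2, 0), (2, 3), (3, 0)], [(0, 3)], [8], [(4, 0, [3]), (6, 3, [0,
      1])]⟩]
  Ta := [((0, 1), 0, 1), ((0, 8), 0, 6), ((1, 0), 1, 0), ((1, 9), 1, 7), ((2, 3), 1, 2), ((2, 5),
    1, 4), ((4, 7), 0, 5), ((4, 10), 0, 8)]
  Tb := [((0, 1, 8), 0, 1, 6), ((1, 0, 9), 1, 0, 7), ((2, 3, 5), 1, 2, 4), ((3, 2, 6), 2, 1, 3),
    ((4, 7, 10), 0, 5, 8), ((5, 2, 9), 4, 1, 7), ((6, 3, 10), 3, 2, 8), ((7, 4, 8), 5, 0, 6),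
    ((8, 0, 7), 6, 0, 5), ((9, 1, 5), 7, 1, 4), ((10, 4, 6), 8, 0, 3)]
  Tc := [(3, 0, 1)]
  Td := [((0, 3), (0, 1), 1), ((0, 3), (0, 8), 6), ((0, 3), (4, 7), 5), ((0, 3), (4, 10), 8),
    ((1, 3), (1, 0), 0), ((1, 3), (1, 9), 7), ((1, 3), (2, 3), 2), ((1, 3), (2, 5), 4), ((3,
    0), (6, 3), 2), ((3, 0), (6, 10), 8), ((3, 1), (6, 3), 2), ((3, 1), (6, 10), 8)]
  G := [[0, 0x11c146411611a12e4611c11c11ce11c18ac116116116e8ac, 0x11c11c11ce2115115115e294, 0,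
    0xb7c77cd7ce2e79bd97b9e258], [0, 0, 0x121212e2119119119e258,
    0x12326626212ec6262645a252a62a2c912889c, 0xd222ddc72c2b27d97e5e2d8], [0, 0,
    0xeeceeceece2ee9ee9ee9e258, 0, 0xeeceeceece2ee9ee9ee9e258], [0, 0,
    0xaa4ee2eece24a47eeebe2e294, 0x426262e4426242e45a2a2a2e2222aca2a2a2e228c9c,
    0xe2e2e2e2ee9ee9ee9e258]]

noncomputable def n3832 : Ent := ⟨e3832, noF, [], [], [(16, 13, [1580044429602293643470024699863340111275081426260889765897808343041, 0])]⟩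

def c3832 : PLift (Cov.check n3832.C.D v3832 = true) := ⟨by decide +kernel⟩

def b3832 : PLift (entF (fidx ts) 400 3832 n3832 = true) := ⟨by decide +kernel⟩

theorem g3832 : GoodF (fidx ts) 400 3832 := GoodF.ofV v3832 n3832 c3832.down b3832.down

/-- 86555:2785 -/
noncomputable def e3833 : SCfg where
  D := {
    a := 5
    L := 12
    kp := 9
    inn := [(0, 1), (0, 2), (0, 3), (0, 4), (1, 0), (1, 4), (2, 0), (3, 0), (4, 0), (4, 1)]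
    mix := [(0, 0), (0, 1), (0, 2), (0, 3), (1, 0), (1, 4), (1, 5), (1, 6), (2, 0), (2, 1), (2, 7), (2,
      8), (3, 1), (3, 2), (3, 9), (3, 10), (4, 3), (4, 4), (4, 11)]
    cl := [0, 0, 0, 1, 3, 4, 2, 5, 6, 7, 8, 9]
    chq := [(1, 2), (1, 3), (1, 4), (2, 1), (3, 1), (4, 1)]
    rng := [(0, 6), (0, 7), (1, 8), (1, 9), (2, 3), (2, 10), (3, 2), (3, 11), (4, 5), (4, 11), (5, 4),
      (5, 6), (6, 0), (6, 5), (7, 0), (7, 8), (8, 1), (8, 7), (9, 1), (9, 10), (10, 2), (10, 9),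
      (11, 3), (11, 4)]
    lev := [] }
  links := [[1, 5, 2, 6, 3, 7, 8, 4], [5, 0, 4, 9, 10, 11], [6, 0, 5, 12, 13], [7, 0, 6, 14, 15], [1, 0,
    8, 16, 9]]
  P := {
    a := 5
    N := 17
    nb := [510, 3633, 12385, 49345, 66307, 6151, 24589, 33033, 65681, 66578, 2562, 1058, 8228, 4164,
      32840, 16520, 784]
    tri := [(0, 1, 4), (0, 1, 5), (0, 2, 5), (0, 2, 6), (0, 3, 6), (0, 3, 7), (0, 4, 8), (0, 7, 8), (1,
      4, 9), (1, 5, 11), (1, 9, 10), (1, 10, 11), (2, 5, 12), (2, 6, 13), (2, 12, 13), (3, 6, 14),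
      (3, 7, 15), (3, 14, 15), (4, 8, 16), (4, 9, 16)]
    fin := [0, 1, 0, 0, 1, 0, 0, 0, 1, 9, 10, 11, 12, 13, 14, 15, 16]
    chd := [(1, 9), (1, 10), (1, 11)]
    steps := [(0, 2), (0, 3), (0, 5), (0, 6), (0, 7), (1, 4), (1, 8)] }
  rep := [0, 1, 11, 9, 10, 12, 13, 14, 15, 16]

noncomputable def v3833 : Cov.CovD where
  P := 3
  N := 7
  pl := [7, 8, 9, 10, 11]
  lev := [⟨[], [], [(0, 0), (0, 1)], [], [(0, 0, []), (1, 0, []), (2, 0, []), (3, 1, [2, 3, 4])]⟩,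
    ⟨[], [(0, 0), (0, 1), (0, 2), (0, 3), (0, 4)], [(0, 2), (0, 3), (0, 4), (2, 3), (2, 4),
      (3, 4)], [], [(0, 0, []), (4, 3, [1]), (5, 4, [1]), (6, 2, [1])]⟩,
    ⟨[(0, 1)], [(0, 0), (0, 1), (1, 0)], [(0, 0)], [5, 6], [(0, 0, []), (1, 0, [])]⟩,
    ⟨[(0, 1), (0, 2)], [(0, 0), (0, 1), (2, 0)], [(0, 0)], [7, 8], [(1, 0, []), (2, 0,
      [])]⟩,
    ⟨[(0, 1), (0, 2), (0, 3)], [(0, 0), (0, 1), (0, 3), (1, 0), (1, 1), (1, 2), (1, 3), (1,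
      4)], [(1, 3)], [9], [(3, 1, [2, 3, 4]), (4, 3, [1])]⟩]
  Ta := [((0, 6), 0, 2), ((0, 7), 0, 5), ((1, 8), 0, 6), ((1, 9), 0, 7), ((2, 3), 0, 1), ((2,
    10), 0, 8)]
  Tb := [((0, 6, 7), 0, 2, 5), ((1, 8, 9), 0, 6, 7), ((2, 3, 10), 0, 1, 8), ((3, 2, 11), 1, 0,
    9), ((4, 5, 11), 3, 4, 9), ((5, 4, 6), 4, 3, 2), ((6, 0, 5), 2, 0, 4), ((7, 0, 8), 5, 0,
    6), ((8, 1, 7), 6, 0, 5), ((9, 1, 10), 7, 0, 8), ((10, 2, 9), 8, 0, 7), ((11, 3, 4), 9,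
    1, 3)]
  Tc := [(1, 2, 3), (1, 2, 4), (1, 3, 4)]
  Td := [((1, 2), (3, 2), 0), ((1, 2), (3, 11), 9), ((1, 3), (3, 2), 0), ((1, 3), (3, 11), 9),
    ((1, 4), (3, 2), 0), ((1, 4), (3, 11), 9), ((2, 1), (6, 0), 0), ((2, 1), (6, 5), 4), ((3,
    1), (4, 5), 4), ((3, 1), (4, 11), 9), ((4, 1), (5, 4), 3), ((4, 1), (5, 6), 2)]
  G := [[0, 0, 0x445dde5ddee2d9de8888e2c, 0x545dde5ddee2d8de8888e2c, 0x445ddedd6e2d9de88d8e2c],
    [0, 0, 0, 0x445dded4e2d9de88ddae2c, 0x445dde5ddee2d9de8888e2c], [0,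
    0x444eee44e1eaeea8eaeee1c, 0, 0x5465dde5ddee2d89e8888e2c, 0x544dde44e2d8de98d9dee2c]]

noncomputable def n3833 : Ent := ⟨e3833, noF, [], [], []⟩

def c3833 : PLift (Cov.check n3833.C.D v3833 = true) := ⟨by decide +kernel⟩

def b3833 : PLift (entF (fidx ts) 400 3833 n3833 = true) := ⟨by decide +kernel⟩

theorem g3833 : GoodF (fidx ts) 400 3833 := GoodF.ofV v3833 n3833 c3833.down b3833.down

/-- 8676544:2786 -/
noncomputable def e3834 : SCfg where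
  D := {
    a := 7
    L := 12
    kp := 10
    inn := [(0, 1), (0, 2), (0, 3), (0, 4), (1, 0), (1, 2), (1, 4), (2, 0), (2, 1), (2, 3), (2, 5), (3,
      0), (3, 2), (3, 5), (3, 6), (4, 0), (4, 1), (5, 2), (5, 3), (6, 3)]
    mix := [(0, 0), (0, 1), (0, 2), (0, 3), (1, 4), (1, 5), (1, 6), (2, 6), (2, 7), (2, 8), (3, 0), (3,
      9), (4, 3), (4, 4), (4, 10), (5, 7), (5, 9), (6, 0), (6, 9), (6, 11)]
    cl := [0, 8, 9, 0, 2, 6, 3, 4, 7, 1, 5, 10]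
    chq := [(0, 1), (0, 3), (0, 4), (0, 7), (1, 0), (3, 0), (3, 5), (4, 0), (5, 3), (5, 6), (6, 5), (7,
      0)]
    rng := [(0, 1), (0, 11), (1, 0), (1, 2), (2, 1), (2, 3), (3, 2), (3, 10), (4, 5), (4, 10), (5, 4),
      (5, 6), (6, 5), (6, 8), (7, 8), (7, 9), (8, 6), (8, 7), (9, 7), (9, 11), (10, 3), (10, 4),
      (11, 0), (11, 9)]
    lev := [] }
  links := [[1, 2, 3, 7, 8, 9, 10, 4], [2, 0, 4, 11, 12, 13], [14, 5, 3, 0, 1, 13, 15], [7, 0, 2, 5, 16,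
    6], [1, 0, 10, 17, 11], [3, 2, 14, 16], [3, 16, 18, 7]]
  P := {
    a := 7
    N := 19
    nb := [1950, 14357, 57387, 65765, 134147, 81932, 327816, 262473, 641, 1281, 131601, 135186, 10242,
      36870, 98340, 24580, 278632, 3088, 65728]
    tri := [(0, 1, 2), (0, 1, 4), (0, 2, 3), (0, 3, 7), (0, 4, 10), (0, 7, 8), (0, 8, 9), (0, 9, 10),
      (1, 2, 13), (1, 4, 11), (1, 11, 12), (1, 12, 13), (2, 3, 5), (2, 5, 14), (2, 13, 15), (2,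
      14, 15), (3, 5, 16), (3, 6, 7), (3, 6, 16), (4, 10, 17), (4, 11, 17), (5, 14, 16), (6, 7,
      18), (6, 16, 18)]
    fin := [0, 1, 0, 0, 1, 0, 0, 0, 8, 9, 0, 11, 12, 13, 14, 15, 16, 1, 18]
    chd := [(0, 13), (0, 14), (0, 15), (0, 16), (12, 1), (13, 1)]
    steps := [(0, 2), (0, 3), (0, 5), (0, 6), (0, 7), (0, 10), (1, 4), (1, 17)] }
  rep := [0, 16, 11, 13, 14, 1, 12, 15, 8, 9, 18]

noncomputable def v3834 : Cov.CovD where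
  P := 3
  N := 8
  pl := [1, 2, 4, 11]
  lev := [⟨[], [], [(0, 0)], [8, 9], [(0, 0, [1, 3, 4, 7]), (3, 0, [1, 3, 4, 7])]⟩,
    ⟨[], [(0, 0), (0, 3), (0, 6)], [(3, 6)], [2], [(5, 6, [5]), (6, 3, [0, 5])]⟩,
    ⟨[(0, 1)], [(0, 0), (0, 3), (0, 4), (0, 7), (1, 3), (1, 4), (1, 6), (1, 7)], [(3, 4),
      (3, 7), (4, 7)], [], [(6, 3, [0, 5]), (7, 4, [0]), (8, 7, [0])]⟩,
    ⟨[(0, 1), (0, 2), (1, 2)], [(0, 0), (0, 1), (2, 0), (2, 1), (2, 3), (2, 4), (2, 7)],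
      [(0, 1)], [], [(0, 0, [1, 3, 4, 7]), (9, 1, [0])]⟩,
    ⟨[(0, 1), (0, 2), (0, 3), (1, 2)], [(0, 0), (0, 5), (1, 0), (1, 3), (1, 5), (1, 6)],
      [(0, 5)], [2], [(3, 0, [1, 3, 4, 7]), (10, 5, [3, 6])]⟩,
    ⟨[(0, 2), (0, 3), (1, 2), (2, 3)], [(2, 1), (2, 3), (2, 4), (2, 7), (3, 0), (3, 1), (3,
      4)], [(1, 4)], [], [(7, 4, [0]), (9, 1, [0])]⟩,
    ⟨[(0, 3), (2, 3), (3, 5)], [(0, 0), (3, 0), (3, 1), (5, 1)], [(0, 1)], [10], [(0, 0,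
      [1, 3, 4, 7]), (9, 1, [0])]⟩]
  Ta := [((0, 1), 0, 8), ((0, 11), 0, 10), ((3, 2), 0, 9), ((3, 10), 0, 5)]
  Tb := [((0, 1, 11), 0, 8, 10), ((1, 0, 2), 8, 0, 9), ((2, 1, 3), 9, 8, 0), ((3, 2, 10), 0, 9,
    5), ((4, 5, 10), 2, 6, 5), ((5, 4, 6), 6, 2, 3), ((6, 5, 8), 3, 6, 7), ((7, 8, 9), 4, 7,
    1), ((8, 6, 7), 7, 3, 4), ((9, 7, 11), 1, 4, 10), ((10, 3, 4), 5, 0, 2), ((11, 0, 9), 10,
    0, 1)]
  Tc := [(0, 1, 3), (0, 1, 4), (0, 1, 7), (0, 3, 4), (0, 3, 7), (0, 4, 7), (3, 0, 5), (5, 3, 6)]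
  Td := [((0, 1), (0, 1), 8), ((0, 1), (0, 11), 10), ((0, 1), (3, 2), 9), ((0, 1), (3, 10), 5),
    ((0, 3), (0, 1), 8), ((0, 3), (0, 11), 10), ((0, 3), (3, 2), 9), ((0, 3), (3, 10), 5),
    ((0, 4), (0, 1), 8), ((0, 4), (0, 11), 10), ((0, 4), (3, 2), 9), ((0, 4), (3, 10), 5),
    ((0, 7), (0, 1), 8), ((0, 7), (0, 11), 10), ((0, 7), (3, 2), 9), ((0, 7), (3, 10), 5),
    ((1, 0), (9, 7), 4), ((1, 0), (9, 11), 10), ((3, 0), (6, 5), 6), ((3, 0), (6, 8), 7),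
    ((3, 5), (6, 5), 6), ((3, 5), (6, 8), 7), ((4, 0), (7, 8), 7), ((4, 0), (7, 9), 1), ((5,
    3), (10, 3), 0), ((5, 3), (10, 4), 2), ((5, 6), (10, 3), 0), ((5, 6), (10, 4), 2), ((6,
    5), (5, 4), 2), ((6, 5), (5, 6), 3), ((7, 0), (8, 6), 3), ((7, 0), (8, 7), 4)]
  G := [[0x428e421aca221666481e482e28166c821aaa841eaa64816ca841aac441ee,
    0xc6a141cca121ac6421dca6181ca6181a6c821d6c6181ac61416ca441de,
    0xc94d441c94d241c1cd441e5c8d2815c8d2814cc8888c1e11cd441c94d8415c8d481ee,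
    0x11cd14111cd141114411441148444c8c4cfd5c8d18111cd1811184118811844cc8888cfd5c8d181c94d1411148c188c184c48c88cfde,
    0xc94d241c94d141112411281824442c8c2cfb5c8d1815c8d18111881128c1284cc8888cfb11cd181c94d1411188c188c188448c8c8cfbe],
    [0xacc421428e241aa6441ea662816cc881cc6881eaa6441aaa8416c6881ee,
    0x6cc121c6a141aca421d824e121acc1216ac881d66a141ac6141ccc421de,
    0x11c44111c24111c441e11c28111c88111c881e11c44111c84111c441ee,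
    0x11c44111c11cc4114441148114811c44fd11c11cc8111c88111881188118411c88fd11c48111c84111881844114811c44fde,
    0x11c24111c11ca4111241124112411c24fb11c28111c88111841188118811c28fb11c11ca8111c88111881184118811c88fbe]]

noncomputable def n3834 : Ent := ⟨e3834, noF, [], [], []⟩

def c3834 : PLift (Cov.check n3834.C.D v3834 = true) := ⟨by decide +kernel⟩

def b3834 : PLift (entF (fidx ts) 400 3834 n3834 = true) := ⟨by decide +kernel⟩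

theorem g3834 : GoodF (fidx ts) 400 3834 := GoodF.ofV v3834 n3834 c3834.down b3834.down

/-- 8666444:2787/1 -/
noncomputable def e3835 : SCfg where
  D := {
    a := 7
    L := 11
    kp := 8
    inn := [(0, 1), (0, 2), (0, 3), (1, 0), (1, 2), (1, 4), (2, 0), (2, 1), (2, 4), (3, 0), (3, 5), (3,
      6), (4, 1), (4, 2), (5, 3), (6, 3)]
    mix := [(0, 0), (0, 1), (0, 2), (0, 3), (0, 4), (1, 0), (1, 5), (1, 6), (2, 1), (2, 7), (2, 8), (3,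
      3), (3, 4), (3, 9), (4, 6), (4, 7), (5, 3), (5, 9), (5, 10), (6, 4), (6, 5), (6, 9)]
    cl := [1, 1, 6, 0, 0, 2, 5, 4, 7, 3, 8]
    chq := [(0, 3), (1, 4), (2, 4), (3, 0), (4, 1), (4, 2)]
    rng := [(0, 4), (0, 5), (1, 2), (1, 8), (2, 1), (2, 3), (3, 2), (3, 10), (4, 0), (4, 5), (5, 0),
      (5, 4), (5, 6), (5, 9), (6, 5), (6, 7), (7, 6), (7, 8), (8, 1), (8, 7), (9, 5), (9, 10),
      (10, 3), (10, 9)]
    lev := [] }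
  links := [[7, 1, 2, 8, 9, 10, 3, 11], [2, 0, 7, 12, 13, 4], [8, 0, 1, 4, 14, 15], [11, 0, 10, 5, 16,
    6], [1, 13, 14, 2], [10, 17, 16, 3], [3, 16, 12, 11]]
  P := {
    a := 7
    N := 18
    nb := [3982, 12437, 49427, 68705, 24582, 197640, 71688, 6147, 33285, 1281, 131625, 4297, 75970,
      20498, 40980, 16644, 135272, 66592]
    tri := [(0, 1, 2), (0, 1, 7), (0, 2, 8), (0, 3, 10), (0, 3, 11), (0, 7, 11), (0, 8, 9), (0, 9, 10),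
      (1, 2, 4), (1, 4, 13), (1, 7, 12), (1, 12, 13), (2, 4, 14), (2, 8, 15), (2, 14, 15), (3, 5,
      10), (3, 5, 16), (3, 6, 11), (3, 6, 16), (4, 13, 14), (5, 10, 17), (5, 16, 17), (6, 11, 12),
      (6, 12, 16)]
    fin := [0, 1, 0, 3, 1, 3, 1, 0, 0, 9, 3, 3, 1, 13, 14, 15, 16, 17]
    chd := [(0, 14), (1, 14), (3, 16)]
    steps := [(0, 2), (0, 7), (0, 8), (1, 4), (1, 12), (1, 6), (3, 5), (3, 10), (3, 11)] }
  rep := [3, 0, 1, 16, 14, 13, 9, 15, 17]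

noncomputable def v3835 : Cov.CovD where
  P := 3
  N := 6
  pl := [2, 6, 8, 10]
  lev := [⟨[], [], [(0, 0), (0, 1), (1, 1)], [6], [(0, 1, [4]), (1, 1, [4]), (3, 0, [3]), (4, 0,
      [3])]⟩,
    ⟨[], [(0, 0), (0, 1), (0, 2)], [(1, 2)], [5], [(0, 1, [4]), (5, 2, [4])]⟩,
    ⟨[(0, 1)], [(0, 0), (0, 1), (0, 4), (1, 1), (1, 2), (1, 4)], [(1, 4)], [7], [(1, 1,
      [4]), (7, 4, [1, 2])]⟩,
    ⟨[(0, 1), (0, 2)], [(0, 0), (0, 1), (0, 3)], [(0, 0), (0, 3)], [], [(3, 0, [3]), (4, 0,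
      [3]), (9, 3, [0])]⟩,
    ⟨[(0, 1), (0, 2), (1, 2)], [(1, 1), (1, 2), (1, 4), (2, 1), (2, 4)], [], [5], [(7, 4,
      [1, 2])]⟩,
    ⟨[(0, 3)], [(0, 0), (3, 0), (3, 3)], [(0, 3)], [8], [(3, 0, [3]), (9, 3, [0])]⟩,
    ⟨[(0, 3), (3, 5)], [(0, 0), (1, 2), (3, 0), (3, 2), (3, 3), (5, 3)], [(0, 2), (0, 3),
      (2, 3)], [], [(4, 0, [3]), (5, 2, [4]), (9, 3, [0])]⟩]
  Ta := [((0, 4), 1, 0), ((0, 5), 1, 2), ((1, 2), 1, 6), ((1, 8), 1, 7), ((3, 2), 0, 6), ((3,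
    10), 0, 8), ((4, 0), 0, 1), ((4, 5), 0, 2)]
  Tb := [((0, 4, 5), 1, 0, 2), ((1, 2, 8), 1, 6, 7), ((2, 1, 3), 6, 1, 0), ((3, 2, 10), 0, 6, 8),
    ((4, 0, 5), 0, 1, 2), ((5, 0, 4), 2, 1, 0), ((5, 0, 6), 2, 1, 5), ((5, 0, 9), 2, 1, 3),
    ((5, 4, 6), 2, 0, 5), ((5, 4, 9), 2, 0, 3), ((5, 6, 9), 2, 5, 3), ((6, 5, 7), 5, 2, 4),
    ((7, 6, 8), 4, 5, 7), ((8, 1, 7), 7, 1, 4), ((9, 5, 10), 3, 2, 8), ((10, 3, 9), 8, 0, 3)]
  Tc := [(4, 1, 2)]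
  Td := [((0, 3), (3, 2), 6), ((0, 3), (3, 10), 8), ((0, 3), (4, 0), 1), ((0, 3), (4, 5), 2),
    ((1, 4), (0, 4), 0), ((1, 4), (0, 5), 2), ((1, 4), (1, 2), 6), ((1, 4), (1, 8), 7), ((2,
    4), (5, 0), 1), ((2, 4), (5, 4), 0), ((2, 4), (5, 6), 5), ((2, 4), (5, 9), 3), ((3, 0),
    (9, 5), 2), ((3, 0), (9, 10), 8), ((4, 1), (7, 6), 5), ((4, 1), (7, 8), 7), ((4, 2), (7,
    6), 5), ((4, 2), (7, 8), 7)]
  G := [[0, 0, 0, 0x149e841ec22841e841e9225841e841ec22841e841e5229c,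
    0x8ac221a2681c429a46112e288a26783c221a2681c289a26812e481a46e918c22962a18c82242868e28c28822162e7111e4222242e18c2211e2a11c42964ae9c],
    [0, 0, 0, 0,
    0x812e221a4688126681a46581c489a468812e1a2e688a46812e418a469488681a46db18c38ca296216aa31c22162a5848888821e4e838c42168a112e31c32162163a844884121e4edbc],
    [0, 0x412c1c1c1ea14812c141aa188181641416c1812412c1ce,
    0x41121164114381121164114321126118ce81121162811411a28112116811211acec,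
    0x84ce84cec2248c748c792254487884bc22884b44875229c,
    0x22872488c4214688c2212678142822872488c1214688c42146eb829228852828388524468142238cf8852222c22922814244a2a324f9c],
    [0, 0,
    0x81121164112116211411cd41181164118116411211ad68122116811211ac811211a411211a9811211a811411a5ec,
    0,
    0x88c4212688c121165285482346814282b469828b82ab6214688c22146cb812222b4c883885a229823aa885222216cd814222b2c285288d3229213a814222244ed9c]]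

noncomputable def n3835 : Ent := ⟨e3835, noF, [], [], []⟩

def c3835 : PLift (Cov.check n3835.C.D v3835 = true) := ⟨by decide +kernel⟩

def b3835 : PLift (entF (fidx ts) 400 3835 n3835 = true) := ⟨by decide +kernel⟩

theorem g3835 : GoodF (fidx ts) 400 3835 := GoodF.ofV v3835 n3835 c3835.down b3835.down

/-- 8666444:2787 -/
noncomputable def e3836 : SCfg where
  D := {
    a := 7
    L := 12
    kp := 9
    inn := [(0, 1), (0, 2), (0, 3), (1, 0), (1, 2), (1, 4), (2, 0), (2, 1), (2, 4), (3, 0), (3, 5), (3,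
      6), (4, 1), (4, 2), (5, 3), (6, 3)]
    mix := [(0, 0), (0, 1), (0, 2), (0, 3), (0, 4), (1, 0), (1, 5), (1, 6), (2, 1), (2, 7), (2, 8), (3,
      3), (3, 4), (3, 9), (4, 6), (4, 7), (5, 3), (5, 9), (5, 10), (6, 4), (6, 9), (6, 11)]
    cl := [1, 1, 6, 0, 0, 7, 2, 4, 5, 3, 8, 9]
    chq := [(0, 3), (1, 2), (2, 1), (2, 5), (3, 0), (5, 2)]
    rng := [(0, 4), (0, 5), (1, 2), (1, 8), (2, 1), (2, 3), (3, 2), (3, 10), (4, 0), (4, 11), (5, 0),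
      (5, 6), (6, 5), (6, 7), (7, 6), (7, 8), (8, 1), (8, 7), (9, 10), (9, 11), (10, 3), (10, 9),
      (11, 4), (11, 9)]
    lev := [] }
  links := [[7, 1, 2, 8, 9, 10, 3, 11], [2, 0, 7, 12, 13, 4], [8, 0, 1, 4, 14, 15], [11, 0, 10, 5, 16,
    6], [1, 13, 14, 2], [10, 17, 16, 3], [3, 16, 18, 11]]
  P := {
    a := 7
    N := 19
    nb := [3982, 12437, 49427, 68705, 24582, 197640, 329736, 6147, 33285, 1281, 131625, 262345, 8322,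
      20498, 40980, 16644, 393320, 66592, 67648]
    tri := [(0, 1, 2), (0, 1, 7), (0, 2, 8), (0, 3, 10), (0, 3, 11), (0, 7, 11), (0, 8, 9), (0, 9, 10),
      (1, 2, 4), (1, 4, 13), (1, 7, 12), (1, 12, 13), (2, 4, 14), (2, 8, 15), (2, 14, 15), (3, 5,
      10), (3, 5, 16), (3, 6, 11), (3, 6, 16), (4, 13, 14), (5, 10, 17), (5, 16, 17), (6, 11, 18),
      (6, 16, 18)]
    fin := [0, 0, 2, 3, 2, 3, 3, 0, 0, 9, 3, 3, 12, 2, 14, 15, 16, 17, 18]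
    chd := [(0, 2), (2, 15), (3, 16)]
    steps := [(0, 1), (0, 7), (0, 8), (2, 4), (2, 13), (3, 5), (3, 6), (3, 10), (3, 11)] }
  rep := [3, 0, 2, 16, 14, 15, 9, 12, 17, 18]

noncomputable def v3836 : Cov.CovD where
  P := 3
  N := 7
  pl := [2, 5, 7, 10, 11]
  lev := [⟨[], [], [(0, 0), (0, 1), (1, 1)], [6], [(0, 1, [2]), (1, 1, [2]), (3, 0, [3]), (4, 0,
      [3])]⟩,
    ⟨[], [(0, 0), (0, 1), (0, 2)], [(1, 2)], [7], [(0, 1, [2]), (6, 2, [1, 5])]⟩,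
    ⟨[(0, 1)], [(0, 0), (0, 1), (0, 5), (1, 1), (1, 2), (1, 5)], [(1, 5)], [4], [(1, 1,
      [2]), (8, 5, [2])]⟩,
    ⟨[(0, 1), (0, 2)], [(0, 0), (0, 1), (0, 3)], [(0, 0), (0, 3)], [], [(3, 0, [3]), (4, 0,
      [3]), (9, 3, [0])]⟩,
    ⟨[(0, 1), (0, 2), (1, 2)], [(1, 1), (1, 2), (2, 1), (2, 2), (2, 5)], [], [4], [(6, 2,
      [1, 5])]⟩,
    ⟨[(0, 3)], [(0, 0), (3, 0), (3, 3)], [(0, 3)], [8], [(3, 0, [3]), (9, 3, [0])]⟩,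
    ⟨[(0, 3), (3, 5)], [(0, 0), (3, 0), (3, 3), (5, 3)], [(0, 3)], [9], [(4, 0, [3]), (9,
      3, [0])]⟩]
  Ta := [((0, 4), 1, 0), ((0, 5), 1, 7), ((1, 2), 1, 6), ((1, 8), 1, 5), ((3, 2), 0, 6), ((3,
    10), 0, 8), ((4, 0), 0, 1), ((4, 11), 0, 9)]
  Tb := [((0, 4, 5), 1, 0, 7), ((1, 2, 8), 1, 6, 5), ((2, 1, 3), 6, 1, 0), ((3, 2, 10), 0, 6, 8),
    ((4, 0, 11), 0, 1, 9), ((5, 0, 6), 7, 1, 2), ((6, 5, 7), 2, 7, 4), ((7, 6, 8), 4, 2, 5),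
    ((8, 1, 7), 5, 1, 4), ((9, 10, 11), 3, 8, 9), ((10, 3, 9), 8, 0, 3), ((11, 4, 9), 9, 0,
    3)]
  Tc := [(2, 1, 5)]
  Td := [((0, 3), (3, 2), 6), ((0, 3), (3, 10), 8), ((0, 3), (4, 0), 1), ((0, 3), (4, 11), 9),
    ((1, 2), (0, 4), 0), ((1, 2), (0, 5), 7), ((1, 2), (1, 2), 6), ((1, 2), (1, 8), 5), ((2,
    1), (6, 5), 7), ((2, 1), (6, 7), 4), ((2, 5), (6, 5), 7), ((2, 5), (6, 7), 4), ((3, 0),
    (9, 10), 8), ((3, 0), (9, 11), 9), ((5, 2), (8, 1), 1), ((5, 2), (8, 7), 4)]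
  G := [[0, 0,
    0x114e4a9a4613cc3c6a5a19a66319c8a5a46c9c435a863c11c46d68a11c86d64a33cc81968a31c3cca656156aa3cc,
    0xcbc11c511aada5621bcc3c911aa852d62c11c39c96d61569a23cc59c51d6116ca25c,
    0xc1cc1c31da1da36c3c119a16619c1a5a8619c835a166931c46564a51c83968a31c19561ae51c86968a31c86561a7cc16561169ae9c],
    [0, 0, 0x13c495a46c9c415a46c1c11cc1daadac6d239c81568a1cc81d68a51c7ccc396116cad2c,
    0x11a42219cc3cca5a162c9c13c5a5a862d5cc11c5261e1969a271c358ec1166169a29c,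
    0x19c1a5a1653cc9c919a15a961bc8a1a86d251c83968a11c51c96d63969a1cc11d61ad2c], [0,
    0xc14a161562c14a186c18a1863cc18614ac14614a3c181961219a2ca18618c1a14614c1ce,
    0xac54ca946c18a4d6428af4a9663c14cc2b46ca4d8a1863cc14cc274a4c9828678a3668d8618a6c98c5a6654c27aa3cc,
    0xac51a1162c14c23a8c62c18c8c23c62dcc52896164279a262c1982c14a696655a2dc,
    0xaa4daa4d3a1a136c11ac2b166c11ac2b86621c18ca51e69cc56c9ac631a66cb8618a8c514c271a7cc588ac58a691acc51c638ac6342f9c],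
    [0, 0, 0x2c548c2b46c14cc2b46c84daa4dc4a3a1c6d26c986658a6ac78618ac12c3c6c27846dcad2c,
    0x42cdc84d98a34a3962a45ac3c8da1a19625c148c79846b6427ca2c16c9c665c639a29c,
    0xcc91ca316aa4daa4d9a1a196ca4d1a116d2cc58c638a668d66cb961619ac116c271ad2c]]

noncomputable def n3836 : Ent := ⟨e3836, noF, [], [], [(12, 18, [30043303427623734937691929578474300150491519007939870628445900451936710657, 0])]⟩

def c3836 : PLift (Cov.check n3836.C.D v3836 = true) := ⟨by decide +kernel⟩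

def b3836 : PLift (entF (fidx ts) 400 3836 n3836 = true) := ⟨by decide +kernel⟩

theorem g3836 : GoodF (fidx ts) 400 3836 := GoodF.ofV v3836 n3836 c3836.down b3836.down

/-- 4104545:480 -/
noncomputable def e3837 : SCfg where
  D := {
    a := 6
    L := 10
    kp := 7
    inn := [(0, 1), (1, 0), (1, 2), (1, 3), (1, 4), (1, 5), (2, 1), (2, 3), (3, 1), (3, 2), (4, 1), (4,
      5), (5, 1), (5, 4)]
    mix := [(0, 0), (0, 1), (0, 2), (1, 0), (1, 2), (1, 3), (1, 4), (1, 5), (2, 2), (2, 6), (3, 3), (3,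
      6), (3, 7), (4, 3), (4, 8), (5, 4), (5, 8), (5, 9)]
    cl := [1, 4, 0, 0, 0, 5, 2, 6, 3, 7]
    chq := [(0, 1), (1, 0)]
    rng := [(0, 1), (0, 5), (1, 0), (1, 2), (2, 1), (2, 6), (3, 7), (3, 8), (4, 5), (4, 9), (5, 0), (5,
      4), (6, 2), (6, 7), (7, 3), (7, 6), (8, 3), (8, 9), (9, 4), (9, 8)]
    lev := [] }
  links := [[1, 6, 7, 8], [6, 0, 8, 2, 3, 9, 4, 5, 10, 11], [3, 1, 8, 12], [9, 1, 2, 12, 13], [5, 1, 9,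
    14], [10, 1, 4, 14, 15]]
  P := {
    a := 6
    N := 16
    nb := [450, 3965, 4362, 12806, 16930, 50194, 2179, 321, 4231, 24602, 34850, 1090, 8460, 4616,
      33328, 17440]
    tri := [(0, 1, 6), (0, 1, 8), (0, 6, 7), (0, 7, 8), (1, 2, 3), (1, 2, 8), (1, 3, 9), (1, 4, 5), (1,
      4, 9), (1, 5, 10), (1, 6, 11), (1, 10, 11), (2, 3, 12), (2, 8, 12), (3, 9, 13), (3, 12, 13),
      (4, 5, 14), (4, 9, 14), (5, 10, 15), (5, 14, 15)]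
    fin := [0, 0, 2, 2, 2, 2, 0, 7, 2, 2, 2, 11, 12, 13, 14, 15]
    chd := [(0, 2)]
    steps := [(0, 1), (0, 6), (2, 3), (2, 8), (2, 9), (2, 4), (2, 5), (2, 10)] }
  rep := [2, 0, 12, 14, 7, 11, 13, 15]

noncomputable def v3837 : Cov.CovD where
  P := 3
  N := 5
  pl := [1, 5, 6, 7, 8, 9]
  lev := [⟨[], [], [(0, 1)], [4], [(0, 1, [0]), (2, 0, [1])]⟩,
    ⟨[], [(0, 0), (0, 1)], [(0, 0), (0, 1)], [5], [(0, 1, [0]), (2, 0, [1]), (3, 0, [1]),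
      (4, 0, [1])]⟩,
    ⟨[(0, 1)], [(0, 0), (1, 0), (1, 1)], [], [2], [(2, 0, [1])]⟩,
    ⟨[(0, 1), (1, 2)], [(1, 0), (1, 1), (2, 0)], [], [2, 6], [(3, 0, [1])]⟩,
    ⟨[(0, 1), (1, 2), (1, 3)], [(1, 0), (1, 1), (3, 0)], [], [3], [(3, 0, [1])]⟩,
    ⟨[(0, 1), (1, 2), (1, 3), (1, 4)], [(1, 0), (1, 1), (4, 0)], [], [3, 7], [(4, 0, [1])]⟩]
  Ta := [((2, 1), 0, 4), ((2, 6), 0, 2), ((3, 7), 0, 6), ((3, 8), 0, 3), ((4, 5), 0, 5), ((4, 9),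
    0, 7)]
  Tb := [((0, 1, 5), 1, 4, 5), ((1, 0, 2), 4, 1, 0), ((2, 1, 6), 0, 4, 2), ((3, 7, 8), 0, 6, 3),
    ((4, 5, 9), 0, 5, 7), ((5, 0, 4), 5, 1, 0), ((6, 2, 7), 2, 0, 6), ((7, 3, 6), 6, 0, 2),
    ((8, 3, 9), 3, 0, 7), ((9, 4, 8), 7, 0, 3)]
  Tc := []
  Td := [((0, 1), (2, 1), 4), ((0, 1), (2, 6), 2), ((0, 1), (3, 7), 6), ((0, 1), (3, 8), 3), ((0,
    1), (4, 5), 5), ((0, 1), (4, 9), 7), ((1, 0), (0, 1), 4), ((1, 0), (0, 5), 5)]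
  G := [[0, 0x11614211a184116148e, 0x11611662181214e8c121418e211a11aa2cc,
    0x1161411a14c1161811a18cc, 0x1161211618c11a1211a18cc], [0, 0x11c14211a184116188e, 0,
    0x17616cc41a61bac8c1, 0x7161a6a2c1a1a6a2c1], [0, 0x11a18411a14811c142e, 0,
    0xca614c6a18c1, 0xca612e1e1a2c1]]

noncomputable def n3837 : Ent := ⟨e3837, noF, [], [], []⟩

def c3837 : PLift (Cov.check n3837.C.D v3837 = true) := ⟨by decide +kernel⟩

def b3837 : PLift (entF (fidx ts) 400 3837 n3837 = true) := ⟨by decide +kernel⟩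

theorem g3837 : GoodF (fidx ts) 400 3837 := GoodF.ofV v3837 n3837 c3837.down b3837.down

/-- 4104545:481 -/
noncomputable def e3838 : SCfg where
  D := {
    a := 6
    L := 10
    kp := 7
    inn := [(0, 1), (0, 5), (1, 0), (1, 2), (1, 3), (1, 4), (1, 5), (2, 1), (2, 3), (3, 1), (3, 2), (4,
      1), (5, 0), (5, 1)]
    mix := [(0, 0), (0, 1), (1, 1), (1, 2), (1, 3), (1, 4), (1, 5), (2, 1), (2, 6), (3, 2), (3, 6), (3,
      7), (4, 2), (4, 3), (4, 8), (5, 0), (5, 5), (5, 9)]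
    cl := [1, 0, 0, 3, 4, 0, 2, 6, 5, 7]
    chq := [(4, 5), (5, 4)]
    rng := [(0, 1), (0, 9), (1, 0), (1, 6), (2, 7), (2, 8), (3, 4), (3, 8), (4, 3), (4, 5), (5, 4), (5,
      9), (6, 1), (6, 7), (7, 2), (7, 6), (8, 2), (8, 3), (9, 0), (9, 5)]
    lev := [] }
  links := [[1, 5, 6, 7], [5, 0, 7, 2, 3, 8, 4, 9, 10, 11], [3, 1, 7, 12], [8, 1, 2, 12, 13], [9, 1, 8,
    14], [6, 0, 1, 11, 15]]
  P := {
    a := 6
    N := 16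
    nb := [226, 4029, 4234, 12550, 17154, 34883, 32929, 4167, 24602, 17426, 2562, 33826, 8332, 4360,
      784, 2144]
    tri := [(0, 1, 5), (0, 1, 7), (0, 5, 6), (0, 6, 7), (1, 2, 3), (1, 2, 7), (1, 3, 8), (1, 4, 8), (1,
      4, 9), (1, 5, 11), (1, 9, 10), (1, 10, 11), (2, 3, 12), (2, 7, 12), (3, 8, 13), (3, 12, 13),
      (4, 8, 14), (4, 9, 14), (5, 6, 15), (5, 11, 15)]
    fin := [0, 1, 0, 0, 1, 0, 6, 0, 0, 9, 10, 0, 12, 13, 1, 15]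
    chd := [(10, 1)]
    steps := [(0, 5), (0, 7), (0, 2), (0, 3), (0, 8), (0, 11), (1, 4), (1, 14)] }
  rep := [0, 6, 12, 9, 10, 1, 13, 15]

noncomputable def v3838 : Cov.CovD where
  P := 3
  N := 5
  pl := [0, 3, 6, 7, 9]
  lev := [⟨[], [], [], [1], [(1, 0, [])]⟩,
    ⟨[], [(0, 0), (0, 4)], [(0, 0), (0, 4)], [3], [(1, 0, []), (2, 0, []), (4, 4, [5]), (5,
      0, [])]⟩,
    ⟨[(0, 1)], [(0, 0), (1, 0), (1, 4)], [], [2], [(1, 0, [])]⟩,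
    ⟨[(0, 1), (1, 2)], [(1, 0), (1, 4), (2, 0)], [], [2, 6], [(2, 0, [])]⟩,
    ⟨[(0, 1), (1, 2), (1, 3)], [(1, 0), (1, 4), (1, 5), (3, 0)], [(0, 5)], [3], [(2, 0,
      []), (8, 5, [4])]⟩,
    ⟨[(0, 1), (1, 2), (1, 3), (1, 4)], [(0, 0), (1, 0), (1, 4)], [], [1, 7], [(5, 0, [])]⟩]
  Ta := [((1, 0), 0, 1), ((1, 6), 0, 2), ((2, 7), 0, 6), ((2, 8), 0, 5), ((5, 4), 0, 4), ((5, 9),
    0, 7)]
  Tb := [((0, 1, 9), 1, 0, 7), ((1, 0, 6), 0, 1, 2), ((2, 7, 8), 0, 6, 5), ((3, 4, 8), 3, 4, 5),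
    ((4, 3, 5), 4, 3, 0), ((5, 4, 9), 0, 4, 7), ((6, 1, 7), 2, 0, 6), ((7, 2, 6), 6, 0, 2),
    ((8, 2, 3), 5, 0, 3), ((9, 0, 5), 7, 1, 0)]
  Tc := []
  Td := [((4, 5), (4, 3), 3), ((4, 5), (4, 5), 0), ((5, 4), (8, 2), 0), ((5, 4), (8, 3), 3)]
  G := [[0, 0x66614aaa18c6c18e8, 0x113116411113a811c115c8e8, 0x1161411a1811c14e8,
    0x1161211a1811c18e8], [0, 0, 0, 0x11a11ac84116116c111c11cc4ac,
    0x116116a211a11aa211c11ca1e4], [0, 0, 0, 0xcc614818144ad8ccc14e1,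
    0x4141886b2cca12ccc18e1]]

noncomputable def n3838 : Ent := ⟨e3838, noF, [], [], []⟩

def c3838 : PLift (Cov.check n3838.C.D v3838 = true) := ⟨by decide +kernel⟩

def b3838 : PLift (entF (fidx ts) 400 3838 n3838 = true) := ⟨by decide +kernel⟩

theorem g3838 : GoodF (fidx ts) 400 3838 := GoodF.ofV v3838 n3838 c3838.down b3838.down

/-- 4104545:482 -/
noncomputable def e3839 : SCfg where
  D := {
    a := 6
    L := 10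
    kp := 7
    inn := [(0, 1), (1, 0), (1, 2), (1, 3), (1, 4), (1, 5), (2, 1), (2, 3), (3, 1), (3, 2), (4, 1), (4,
      5), (5, 1), (5, 4)]
    mix := [(0, 0), (0, 1), (0, 2), (1, 0), (1, 2), (1, 3), (1, 4), (1, 5), (2, 2), (2, 6), (3, 3), (3,
      6), (3, 7), (4, 4), (4, 8), (5, 5), (5, 8), (5, 9)]
    cl := [2, 6, 0, 0, 1, 0, 3, 7, 4, 5]
    chq := [(1, 5), (5, 1)]
    rng := [(0, 1), (0, 5), (1, 0), (1, 2), (2, 1), (2, 6), (3, 4), (3, 7), (4, 3), (4, 8), (5, 0), (5,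
      9), (6, 2), (6, 7), (7, 3), (7, 6), (8, 4), (8, 9), (9, 5), (9, 8)]
    lev := [] }
  links := [[1, 6, 7, 8], [6, 0, 8, 2, 3, 9, 10, 4, 5, 11], [3, 1, 8, 12], [9, 1, 2, 12, 13], [5, 1, 10,
    14], [11, 1, 4, 14, 15]]
  P := {
    a := 6
    N := 16
    nb := [450, 3965, 4362, 12806, 17442, 51218, 2179, 321, 4231, 9226, 16914, 32866, 8460, 4616,
      33840, 18464]
    tri := [(0, 1, 6), (0, 1, 8), (0, 6, 7), (0, 7, 8), (1, 2, 3), (1, 2, 8), (1, 3, 9), (1, 4, 5), (1,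
      4, 10), (1, 5, 11), (1, 6, 11), (1, 9, 10), (2, 3, 12), (2, 8, 12), (3, 9, 13), (3, 12, 13),
      (4, 5, 14), (4, 10, 14), (5, 11, 15), (5, 14, 15)]
    fin := [0, 1, 1, 1, 4, 4, 0, 7, 1, 1, 4, 1, 12, 13, 14, 15]
    chd := [(4, 15)]
    steps := [(0, 6), (1, 2), (1, 3), (1, 8), (1, 9), (1, 11), (4, 5), (4, 10)] }
  rep := [1, 4, 0, 12, 14, 15, 7, 13]

noncomputable def v3839 : Cov.CovD where
  P := 3
  N := 5
  pl := [0, 1, 6, 7, 8]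
  lev := [⟨[], [], [], [2, 6], [(2, 0, [])]⟩,
    ⟨[], [(0, 0), (0, 1)], [(0, 0), (0, 1)], [2], [(2, 0, []), (3, 0, []), (4, 1, [5]), (5,
      0, [])]⟩,
    ⟨[(0, 1)], [(0, 0), (1, 0), (1, 1)], [], [3], [(2, 0, [])]⟩,
    ⟨[(0, 1), (1, 2)], [(1, 0), (1, 1), (2, 0)], [], [3, 7], [(3, 0, [])]⟩,
    ⟨[(0, 1), (1, 2), (1, 3)], [(1, 0), (1, 1)], [], [4], [(4, 1, [5])]⟩,
    ⟨[(0, 1), (1, 2), (1, 3), (1, 4)], [(1, 0), (1, 1), (1, 5), (4, 0), (4, 1), (4, 5)],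
      [(0, 5)], [4], [(5, 0, []), (9, 5, [1])]⟩]
  Ta := [((2, 1), 0, 6), ((2, 6), 0, 3), ((3, 4), 0, 1), ((3, 7), 0, 7), ((5, 0), 0, 2), ((5, 9),
    0, 5)]
  Tb := [((0, 1, 5), 2, 6, 0), ((1, 0, 2), 6, 2, 0), ((2, 1, 6), 0, 6, 3), ((3, 4, 7), 0, 1, 7),
    ((4, 3, 8), 1, 0, 4), ((5, 0, 9), 0, 2, 5), ((6, 2, 7), 3, 0, 7), ((7, 3, 6), 7, 0, 3),
    ((8, 4, 9), 4, 1, 5), ((9, 5, 8), 5, 0, 4)]
  Tc := []
  Td := [((1, 5), (4, 3), 0), ((1, 5), (4, 8), 4), ((5, 1), (9, 5), 0), ((5, 1), (9, 8), 4)]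
  G := [[0, 0, 0, 0x12c329c12c1a4325121c12c6c8c, 0x325325532532536821c132512ca68a], [0,
    0x11c4411a811a2ac1, 0, 0xc254412c812c2ac1, 0x32521cc32521ca681], [0, 0,
    0x2e912e5168482d16ac1a46, 0xe2c1c291a41, 0x6a516a51681]]

noncomputable def n3839 : Ent := ⟨e3839, noF, [], [], []⟩

def c3839 : PLift (Cov.check n3839.C.D v3839 = true) := ⟨by decide +kernel⟩

def b3839 : PLift (entF (fidx ts) 400 3839 n3839 = true) := ⟨by decide +kernel⟩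

theorem g3839 : GoodF (fidx ts) 400 3839 := GoodF.ofV v3839 n3839 c3839.down b3839.down

/-- 4104455:485 -/
noncomputable def e3840 : SCfg where
  D := {
    a := 6
    L := 10
    kp := 7
    inn := [(0, 1), (0, 5), (1, 0), (1, 2), (1, 3), (1, 4), (1, 5), (2, 1), (3, 1), (3, 4), (4, 1), (4,
      3), (5, 0), (5, 1)]
    mix := [(0, 0), (0, 1), (1, 1), (1, 2), (1, 3), (1, 4), (1, 5), (2, 1), (2, 2), (2, 6), (3, 3), (3,
      7), (4, 4), (4, 7), (4, 8), (5, 0), (5, 5), (5, 9)]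
    cl := [3, 0, 1, 0, 2, 0, 6, 4, 5, 7]
    chq := [(0, 5), (5, 0)]
    rng := [(0, 1), (0, 9), (1, 0), (1, 6), (2, 3), (2, 6), (3, 2), (3, 7), (4, 5), (4, 8), (5, 4), (5,
      9), (6, 1), (6, 2), (7, 3), (7, 8), (8, 4), (8, 7), (9, 0), (9, 5)]
    lev := [] }
  links := [[1, 5, 6, 7], [5, 0, 7, 2, 8, 9, 3, 4, 10, 11], [8, 1, 7, 12], [4, 1, 9, 13], [10, 1, 3, 13,
    14], [6, 0, 1, 11, 15]]
  P := {
    a := 6
    N := 16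
    nb := [226, 4029, 4482, 8722, 25610, 34883, 32929, 4167, 4614, 8458, 18450, 33826, 388, 16920,
      9232, 2144]
    tri := [(0, 1, 5), (0, 1, 7), (0, 5, 6), (0, 6, 7), (1, 2, 7), (1, 2, 8), (1, 3, 4), (1, 3, 9), (1,
      4, 10), (1, 5, 11), (1, 8, 9), (1, 10, 11), (2, 7, 12), (2, 8, 12), (3, 4, 13), (3, 9, 13),
      (4, 10, 14), (4, 13, 14), (5, 6, 15), (5, 11, 15)]
    fin := [0, 1, 1, 1, 1, 0, 0, 1, 8, 1, 10, 1, 12, 13, 14, 15]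
    chd := [(1, 14)]
    steps := [(0, 5), (0, 6), (1, 2), (1, 3), (1, 4), (1, 7), (1, 9), (1, 11)] }
  rep := [1, 8, 10, 0, 13, 14, 12, 15]

noncomputable def v3840 : Cov.CovD where
  P := 3
  N := 5
  pl := [0, 2, 4, 6, 7, 9]
  lev := [⟨[], [], [], [3], [(1, 0, [5])]⟩,
    ⟨[], [(0, 0)], [(0, 0)], [1, 2], [(1, 0, [5]), (3, 0, [5]), (5, 0, [5])]⟩,
    ⟨[(0, 1)], [(0, 0), (1, 0)], [], [1, 6], [(1, 0, [5])]⟩,
    ⟨[(0, 1), (1, 2)], [(1, 0)], [], [4], [(3, 0, [5])]⟩,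
    ⟨[(0, 1), (1, 2), (1, 3)], [(1, 0), (1, 5), (3, 0), (3, 5)], [], [2, 4], [(8, 5, [0])]⟩,
    ⟨[(0, 1), (1, 2), (1, 3), (1, 4)], [(0, 0), (1, 0)], [], [3, 7], [(5, 0, [5])]⟩]
  Ta := [((1, 0), 0, 3), ((1, 6), 0, 6), ((3, 2), 0, 1), ((3, 7), 0, 4), ((5, 4), 0, 2), ((5, 9),
    0, 7)]
  Tb := [((0, 1, 9), 3, 0, 7), ((1, 0, 6), 0, 3, 6), ((2, 3, 6), 1, 0, 6), ((3, 2, 7), 0, 1, 4),
    ((4, 5, 8), 2, 0, 5), ((5, 4, 9), 0, 2, 7), ((6, 1, 2), 6, 0, 1), ((7, 3, 8), 4, 0, 5),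
    ((8, 4, 7), 5, 2, 4), ((9, 0, 5), 7, 3, 0)]
  Tc := []
  Td := [((0, 5), (1, 0), 3), ((0, 5), (1, 6), 6), ((0, 5), (3, 2), 1), ((0, 5), (3, 7), 4), ((0,
    5), (5, 4), 2), ((0, 5), (5, 9), 7), ((5, 0), (8, 4), 2), ((5, 0), (8, 7), 4)]
  G := [[0, 0, 0, 0xc171a9111ac4111165161cc8a, 0x115161111cc871316a1a16c86], [0,
    0x114112681188411211464e, 0, 0x11c1161811111da186, 0x122181111a61811119c18e], [0, 0,
    0xaaae1146266c318c, 0xc1c1618a1a1a146, 0xc1c16182181a1e186]]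

noncomputable def n3840 : Ent := ⟨e3840, noF, [], [], []⟩

def c3840 : PLift (Cov.check n3840.C.D v3840 = true) := ⟨by decide +kernel⟩

def b3840 : PLift (entF (fidx ts) 400 3840 n3840 = true) := ⟨by decide +kernel⟩

theorem g3840 : GoodF (fidx ts) 400 3840 := GoodF.ofV v3840 n3840 c3840.down b3840.down

/-- 4510454:501 -/
noncomputable def e3841 : SCfg where
  D := {
    a := 6
    L := 10
    kp := 7
    inn := [(0, 1), (0, 2), (1, 0), (1, 2), (2, 0), (2, 1), (2, 3), (2, 4), (2, 5), (3, 2), (3, 4), (4,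
      2), (4, 3), (5, 2)]
    mix := [(0, 0), (0, 1), (1, 1), (1, 2), (1, 3), (2, 0), (2, 3), (2, 4), (2, 5), (2, 6), (3, 3), (3,
      7), (4, 4), (4, 7), (4, 8), (5, 4), (5, 5), (5, 9)]
    cl := [0, 1, 6, 0, 0, 3, 4, 2, 7, 5]
    chq := [(4, 5), (5, 4)]
    rng := [(0, 1), (0, 6), (1, 0), (1, 2), (2, 1), (2, 3), (3, 2), (3, 7), (4, 8), (4, 9), (5, 6), (5,
      9), (6, 0), (6, 5), (7, 3), (7, 8), (8, 4), (8, 7), (9, 4), (9, 5)]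
    lev := [] }
  links := [[1, 2, 6, 7], [2, 0, 7, 8, 9], [6, 0, 1, 9, 3, 4, 10, 5, 11, 12], [4, 2, 9, 13], [10, 2, 3,
    13, 14], [11, 2, 10, 15]]
  P := {
    a := 6
    N := 16
    nb := [198, 901, 7803, 8724, 25612, 35844, 4229, 323, 642, 8462, 49204, 36900, 2116, 16920, 9232,
      3104]
    tri := [(0, 1, 2), (0, 1, 7), (0, 2, 6), (0, 6, 7), (1, 2, 9), (1, 7, 8), (1, 8, 9), (2, 3, 4), (2,
      3, 9), (2, 4, 10), (2, 5, 10), (2, 5, 11), (2, 6, 12), (2, 11, 12), (3, 4, 13), (3, 9, 13),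
      (4, 10, 14), (4, 13, 14), (5, 10, 15), (5, 11, 15)]
    fin := [0, 0, 2, 0, 0, 2, 0, 7, 8, 0, 0, 11, 12, 13, 14, 2]
    chd := [(12, 2)]
    steps := [(0, 1), (0, 6), (0, 9), (0, 3), (0, 4), (0, 10), (2, 5), (2, 15)] }
  rep := [0, 7, 13, 11, 12, 2, 8, 14]

noncomputable def v3841 : Cov.CovD where
  P := 3
  N := 5
  pl := [1, 2, 5, 7, 8]
  lev := [⟨[], [], [], [1], [(0, 0, [])]⟩,
    ⟨[], [(0, 0)], [], [1, 6], [(3, 0, [])]⟩,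
    ⟨[(0, 1)], [(0, 0), (0, 4), (1, 0), (1, 4)], [(0, 0), (0, 4)], [3], [(0, 0, []), (3, 0,
      []), (4, 0, []), (6, 4, [5])]⟩,
    ⟨[(0, 2), (1, 2)], [(1, 0), (2, 0), (2, 4)], [], [2], [(3, 0, [])]⟩,
    ⟨[(0, 2), (1, 2), (2, 3)], [(2, 0), (2, 4), (3, 0)], [], [2, 7], [(4, 0, [])]⟩,
    ⟨[(0, 2), (1, 2), (2, 3), (2, 4)], [(2, 0), (2, 4), (2, 5), (4, 0)], [(0, 5)], [3],
      [(4, 0, []), (9, 5, [4])]⟩]
  Ta := [((0, 1), 0, 1), ((0, 6), 0, 4), ((3, 2), 0, 6), ((3, 7), 0, 2), ((4, 8), 0, 7), ((4, 9),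
    0, 5)]
  Tb := [((0, 1, 6), 0, 1, 4), ((1, 0, 2), 1, 0, 6), ((2, 1, 3), 6, 1, 0), ((3, 2, 7), 0, 6, 2),
    ((4, 8, 9), 0, 7, 5), ((5, 6, 9), 3, 4, 5), ((6, 0, 5), 4, 0, 3), ((7, 3, 8), 2, 0, 7),
    ((8, 4, 7), 7, 0, 2), ((9, 4, 5), 5, 0, 3)]
  Tc := []
  Td := [((4, 5), (6, 0), 0), ((4, 5), (6, 5), 3), ((5, 4), (9, 4), 0), ((5, 4), (9, 5), 3)]
  G := [[0, 0xa18c186614a18c14e6148e8, 0, 0x614a18c14e18, 0x612a12c18e18], [0, 0,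
    0x9ac211a86356219a291c4ec566488c, 0x614a18c18e614a18c18ec1, 0x612a18c18e612a12c18ec1],
    [0, 0, 0, 0xaac84166c4ccc4a1c, 0x66a2aaa8cca8e14]]

noncomputable def n3841 : Ent := ⟨e3841, noF, [], [], []⟩

def c3841 : PLift (Cov.check n3841.C.D v3841 = true) := ⟨by decide +kernel⟩

def b3841 : PLift (entF (fidx ts) 400 3841 n3841 = true) := ⟨by decide +kernel⟩

theorem g3841 : GoodF (fidx ts) 400 3841 := GoodF.ofV v3841 n3841 c3841.down b3841.down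

/-- 4510454:502 -/
noncomputable def e3842 : SCfg where
  D := {
    a := 6
    L := 10
    kp := 7
    inn := [(0, 1), (0, 2), (1, 0), (1, 2), (2, 0), (2, 1), (2, 3), (2, 4), (2, 5), (3, 2), (3, 4), (4,
      2), (4, 3), (5, 2)]
    mix := [(0, 0), (0, 1), (1, 1), (1, 2), (1, 3), (2, 0), (2, 3), (2, 4), (2, 5), (2, 6), (3, 3), (3,
      7), (4, 4), (4, 7), (4, 8), (5, 5), (5, 6), (5, 9)]
    cl := [0, 1, 6, 0, 0, 3, 4, 2, 7, 5]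
    chq := [(0, 5), (5, 0)]
    rng := [(0, 1), (0, 6), (1, 0), (1, 2), (2, 1), (2, 3), (3, 2), (3, 7), (4, 5), (4, 8), (5, 4), (5,
      9), (6, 0), (6, 9), (7, 3), (7, 8), (8, 4), (8, 7), (9, 5), (9, 6)]
    lev := [] }
  links := [[1, 2, 6, 7], [2, 0, 7, 8, 9], [6, 0, 1, 9, 3, 4, 10, 11, 5, 12], [4, 2, 9, 13], [10, 2, 3,
    13, 14], [12, 2, 11, 15]]
  P := {
    a := 6
    N := 16
    nb := [198, 901, 7803, 8724, 25612, 38916, 4229, 323, 642, 8462, 18452, 33828, 32868, 16920, 9232,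
      6176]
    tri := [(0, 1, 2), (0, 1, 7), (0, 2, 6), (0, 6, 7), (1, 2, 9), (1, 7, 8), (1, 8, 9), (2, 3, 4), (2,
      3, 9), (2, 4, 10), (2, 5, 11), (2, 5, 12), (2, 6, 12), (2, 10, 11), (3, 4, 13), (3, 9, 13),
      (4, 10, 14), (4, 13, 14), (5, 11, 15), (5, 12, 15)]
    fin := [0, 0, 0, 0, 0, 0, 0, 7, 8, 0, 0, 11, 12, 13, 14, 15]
    chd := [(0, 15)]
    steps := [(0, 1), (0, 2), (0, 3), (0, 4), (0, 5), (0, 6), (0, 9), (0, 10)] }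
  rep := [0, 7, 13, 11, 12, 15, 8, 14]

noncomputable def v3842 : Cov.CovD where
  P := 3
  N := 5
  pl := [1, 2, 5, 6, 7, 8]
  lev := [⟨[], [], [], [1], [(0, 0, [5])]⟩,
    ⟨[], [(0, 0)], [], [1, 6], [(3, 0, [5])]⟩,
    ⟨[(0, 1)], [(0, 0), (1, 0)], [(0, 0)], [3, 4], [(0, 0, [5]), (3, 0, [5]), (4, 0, [5])]⟩,
    ⟨[(0, 2), (1, 2)], [(1, 0), (2, 0)], [], [2], [(3, 0, [5])]⟩,
    ⟨[(0, 2), (1, 2), (2, 3)], [(2, 0), (3, 0)], [], [2, 7], [(4, 0, [5])]⟩,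
    ⟨[(0, 2), (1, 2), (2, 3), (2, 4)], [(2, 0), (2, 5)], [], [3, 4], [(9, 5, [0])]⟩]
  Ta := [((0, 1), 0, 1), ((0, 6), 0, 4), ((3, 2), 0, 6), ((3, 7), 0, 2), ((4, 5), 0, 3), ((4, 8),
    0, 7)]
  Tb := [((0, 1, 6), 0, 1, 4), ((1, 0, 2), 1, 0, 6), ((2, 1, 3), 6, 1, 0), ((3, 2, 7), 0, 6, 2),
    ((4, 5, 8), 0, 3, 7), ((5, 4, 9), 3, 0, 5), ((6, 0, 9), 4, 0, 5), ((7, 3, 8), 2, 0, 7),
    ((8, 4, 7), 7, 0, 2), ((9, 5, 6), 5, 3, 4)]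
  Tc := []
  Td := [((0, 5), (0, 1), 1), ((0, 5), (0, 6), 4), ((0, 5), (3, 2), 6), ((0, 5), (3, 7), 2), ((0,
    5), (4, 5), 3), ((0, 5), (4, 8), 7), ((5, 0), (9, 5), 3), ((5, 0), (9, 6), 4)]
  G := [[0, 0x114118118e118118118ea4, 0, 0x514914f18e18, 0x312f12912e18], [0, 0,
    0x11c211686116411a811a4ec1162889, 0x114118114e114118114ec1, 0x112112118e112112118ec1],
    [0, 0, 0, 0xd1c8411dc4b7c4a1c, 0x5fa293a2f5a8e14]]

noncomputable def n3842 : Ent := ⟨e3842, noF, [], [], []⟩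

def c3842 : PLift (Cov.check n3842.C.D v3842 = true) := ⟨by decide +kernel⟩

def b3842 : PLift (entF (fidx ts) 400 3842 n3842 = true) := ⟨by decide +kernel⟩

theorem g3842 : GoodF (fidx ts) 400 3842 := GoodF.ofV v3842 n3842 c3842.down b3842.down

/-- 4104546:505 -/
noncomputable def e3843 : SCfg where
  D := {
    a := 6
    L := 10
    kp := 7
    inn := [(0, 1), (0, 5), (1, 0), (1, 2), (1, 3), (1, 4), (1, 5), (2, 1), (2, 3), (3, 1), (3, 2), (4,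
      1), (4, 5), (5, 0), (5, 1), (5, 4)]
    mix := [(0, 0), (0, 1), (1, 1), (1, 2), (1, 3), (1, 4), (1, 5), (2, 1), (2, 6), (3, 2), (3, 6), (3,
      7), (4, 5), (4, 8), (5, 0), (5, 8), (5, 9)]
    cl := [1, 0, 0, 5, 6, 0, 2, 7, 3, 4]
    chq := [(0, 4), (4, 0)]
    rng := [(0, 1), (0, 9), (1, 0), (1, 6), (2, 3), (2, 7), (3, 2), (3, 4), (4, 3), (4, 5), (5, 4), (5,
      8), (6, 1), (6, 7), (7, 2), (7, 6), (8, 5), (8, 9), (9, 0), (9, 8)]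
    lev := [] }
  links := [[1, 5, 6, 7], [5, 0, 7, 2, 3, 8, 9, 10, 11, 4], [3, 1, 7, 12], [8, 1, 2, 12, 13], [5, 1, 11,
    14], [6, 0, 1, 4, 14, 15]]
  P := {
    a := 6
    N := 16
    nb := [226, 4029, 4234, 12550, 18466, 49235, 32929, 4167, 8714, 1282, 2562, 17426, 8332, 4360,
      34864, 16480]
    tri := [(0, 1, 5), (0, 1, 7), (0, 5, 6), (0, 6, 7), (1, 2, 3), (1, 2, 7), (1, 3, 8), (1, 4, 5), (1,
      4, 11), (1, 8, 9), (1, 9, 10), (1, 10, 11), (2, 3, 12), (2, 7, 12), (3, 8, 13), (3, 12, 13),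
      (4, 5, 14), (4, 11, 14), (5, 6, 15), (5, 14, 15)]
    fin := [0, 1, 1, 1, 1, 1, 0, 1, 1, 9, 10, 1, 12, 13, 14, 15]
    chd := [(1, 15)]
    steps := [(0, 6), (1, 2), (1, 3), (1, 4), (1, 5), (1, 7), (1, 8), (1, 11)] }
  rep := [1, 0, 12, 14, 15, 9, 10, 13]

noncomputable def v3843 : Cov.CovD where
  P := 3
  N := 5
  pl := [0, 3, 4, 6, 7, 8]
  lev := [⟨[], [], [], [1], [(1, 0, [4])]⟩,
    ⟨[], [(0, 0)], [(0, 0)], [5, 6], [(1, 0, [4]), (2, 0, [4]), (5, 0, [4])]⟩,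
    ⟨[(0, 1)], [(0, 0), (1, 0)], [], [2], [(1, 0, [4])]⟩,
    ⟨[(0, 1), (1, 2)], [(1, 0), (2, 0)], [], [2, 7], [(2, 0, [4])]⟩,
    ⟨[(0, 1), (1, 2), (1, 3)], [(1, 0)], [], [3], [(5, 0, [4])]⟩,
    ⟨[(0, 1), (0, 4), (1, 2), (1, 3), (1, 4)], [(0, 0), (0, 4), (1, 0), (1, 4), (4, 0), (4,
      4)], [], [1, 3], [(9, 4, [0])]⟩]
  Ta := [((1, 0), 0, 1), ((1, 6), 0, 2), ((2, 3), 0, 5), ((2, 7), 0, 7), ((5, 4), 0, 6), ((5, 8),
    0, 3)]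
  Tb := [((0, 1, 9), 1, 0, 4), ((1, 0, 6), 0, 1, 2), ((2, 3, 7), 0, 5, 7), ((3, 2, 4), 5, 0, 6),
    ((4, 3, 5), 6, 5, 0), ((5, 4, 8), 0, 6, 3), ((6, 1, 7), 2, 0, 7), ((7, 2, 6), 7, 0, 2),
    ((8, 5, 9), 3, 0, 4), ((9, 0, 8), 4, 1, 3)]
  Tc := []
  Td := [((0, 4), (1, 0), 1), ((0, 4), (1, 6), 2), ((0, 4), (2, 3), 5), ((0, 4), (2, 7), 7), ((0,
    4), (5, 4), 6), ((0, 4), (5, 8), 3), ((4, 0), (9, 0), 1), ((4, 0), (9, 8), 3)]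
  G := [[0, 0xe1182211c11ce118ca, 0x11611662181214e8181214e8e8, 0x1161411a1411618e8,
    0x1161211a1211618e8], [0, 0, 0, 0x11611ac811a116c4611611cc48c,
    0x11a11ca8411611ca211611ca8ac], [0, 0, 0, 0x1d61841da14c1a14ac,
    0x5161295612c1618e82128c]]

noncomputable def n3843 : Ent := ⟨e3843, noF, [], [], []⟩

def c3843 : PLift (Cov.check n3843.C.D v3843 = true) := ⟨by decide +kernel⟩

def b3843 : PLift (entF (fidx ts) 400 3843 n3843 = true) := ⟨by decide +kernel⟩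

theorem g3843 : GoodF (fidx ts) 400 3843 := GoodF.ofV v3843 n3843 c3843.down b3843.down

/-- 4747646:648 -/
noncomputable def e3844 : SCfg where
  D := {
    a := 7
    L := 10
    kp := 8
    inn := [(0, 1), (1, 0), (1, 2), (1, 3), (1, 4), (2, 1), (2, 3), (3, 1), (3, 2), (3, 4), (3, 6), (4,
      1), (4, 3), (4, 5), (4, 6), (5, 4), (5, 6), (6, 3), (6, 4), (6, 5)]
    mix := [(0, 0), (0, 1), (0, 2), (1, 0), (1, 2), (1, 3), (2, 3), (2, 4), (3, 4), (3, 5), (3, 6), (4,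
      0), (4, 7), (5, 7), (5, 8), (6, 6), (6, 8), (6, 9)]
    cl := [0, 7, 2, 0, 5, 6, 3, 1, 4, 8]
    chq := [(0, 3), (0, 6), (1, 3), (3, 0), (3, 1), (3, 4), (4, 3), (6, 0)]
    rng := [(0, 1), (0, 7), (1, 0), (1, 2), (2, 1), (2, 3), (3, 2), (3, 4), (4, 3), (4, 5), (5, 4), (5,
      6), (6, 5), (6, 9), (7, 0), (7, 8), (8, 7), (8, 9), (9, 6), (9, 8)]
    lev := [] }
  links := [[1, 7, 8, 9], [7, 0, 9, 10, 2, 3, 4], [3, 1, 10, 11], [4, 1, 2, 11, 12, 13, 6], [7, 1, 3, 6,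
    5, 14], [14, 4, 6, 15], [15, 5, 4, 3, 13, 16]]
  P := {
    a := 7
    N := 17
    nb := [898, 1693, 3082, 14422, 16618, 49232, 106552, 16659, 641, 1283, 2566, 5132, 10248, 69704,
      32944, 82016, 41024]
    tri := [(0, 1, 7), (0, 1, 9), (0, 7, 8), (0, 8, 9), (1, 2, 3), (1, 2, 10), (1, 3, 4), (1, 4, 7),
      (1, 9, 10), (2, 3, 11), (2, 10, 11), (3, 4, 6), (3, 6, 13), (3, 11, 12), (3, 12, 13), (4, 5,
      6), (4, 5, 14), (4, 7, 14), (5, 6, 15), (5, 14, 15), (6, 13, 16), (6, 15, 16)]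
    fin := [0, 0, 0, 0, 0, 5, 5, 0, 8, 9, 0, 11, 12, 5, 14, 15, 16]
    chd := [(0, 5), (0, 12), (5, 14), (5, 15)]
    steps := [(0, 1), (0, 2), (0, 3), (0, 4), (0, 7), (0, 10), (5, 6), (5, 13)] }
  rep := [0, 14, 9, 5, 15, 11, 12, 8, 16]

noncomputable def v3844 : Cov.CovD where
  P := 3
  N := 6
  pl := [1, 2, 4, 9]
  lev := [⟨[], [], [], [2, 7], [(0, 0, [3, 6])]⟩,
    ⟨[], [(0, 0)], [(0, 0)], [2], [(0, 0, [3, 6]), (3, 0, [3, 6])]⟩,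
    ⟨[(0, 1)], [(1, 0)], [], [5], [(3, 0, [3, 6])]⟩,
    ⟨[(0, 1), (1, 2)], [(1, 0), (1, 3), (1, 6), (2, 0), (2, 3), (2, 6)], [(3, 6)], [5],
      [(5, 6, [0]), (6, 3, [0, 1, 4])]⟩,
    ⟨[(0, 1), (1, 2), (1, 3), (2, 3)], [(0, 0), (1, 0), (1, 1), (3, 0), (3, 1), (3, 3), (3,
      6)], [(0, 1)], [], [(0, 0, [3, 6]), (7, 1, [3])]⟩,
    ⟨[(1, 4), (3, 4)], [(4, 0), (4, 1), (4, 4)], [(1, 4)], [], [(7, 1, [3]), (8, 4, [3])]⟩,
    ⟨[(1, 3), (1, 4), (2, 3), (3, 4), (3, 5), (4, 5)], [(3, 3), (3, 4), (3, 6), (4, 0), (4,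
      1), (4, 3), (4, 4), (5, 1), (5, 3), (5, 4)], [(3, 4)], [8], [(6, 3, [0, 1, 4]), (8, 4,
      [3])]⟩]
  Ta := [((0, 1), 0, 7), ((0, 7), 0, 1), ((3, 2), 0, 2), ((3, 4), 0, 5)]
  Tb := [((0, 1, 7), 0, 7, 1), ((1, 0, 2), 7, 0, 2), ((2, 1, 3), 2, 7, 0), ((3, 2, 4), 0, 2, 5),
    ((4, 3, 5), 5, 0, 6), ((5, 4, 6), 6, 5, 3), ((6, 5, 9), 3, 6, 8), ((7, 0, 8), 1, 0, 4),
    ((8, 7, 9), 4, 1, 8), ((9, 6, 8), 8, 3, 4)]
  Tc := [(0, 3, 6), (3, 0, 1), (3, 0, 4), (3, 1, 4)]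
  Td := [((0, 3), (0, 1), 7), ((0, 3), (0, 7), 1), ((0, 3), (3, 2), 2), ((0, 3), (3, 4), 5), ((0,
    6), (0, 1), 7), ((0, 6), (0, 7), 1), ((0, 6), (3, 2), 2), ((0, 6), (3, 4), 5), ((1, 3),
    (7, 0), 0), ((1, 3), (7, 8), 4), ((3, 0), (6, 5), 6), ((3, 0), (6, 9), 8), ((3, 1), (6,
    5), 6), ((3, 1), (6, 9), 8), ((3, 4), (6, 5), 6), ((3, 4), (6, 9), 8), ((4, 3), (8, 7),
    1), ((4, 3), (8, 9), 8), ((6, 0), (5, 4), 5), ((6, 0), (5, 6), 3)]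
  G := [[0, 0xdb681db681c4db6811dae81a4c, 0,
    0x44b8c1fa581348188318ed4f34d4111472588c3114184cb8c,
    0xf3c413fc81c272598c1f12d416814418811c4e12b], [0, 0, 0x3fc8142f3c4122f3c4182e,
    0x4814284182c4814884182c23c4335864a8cf12d4f11874b8c368d,
    0x64a8c21182631432941fad8da44488b34d4daa1]]

noncomputable def n3844 : Ent := ⟨e3844, noF, [], [], []⟩

def c3844 : PLift (Cov.check n3844.C.D v3844 = true) := ⟨by decide +kernel⟩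

def b3844 : PLift (entF (fidx ts) 400 3844 n3844 = true) := ⟨by decide +kernel⟩

theorem g3844 : GoodF (fidx ts) 400 3844 := GoodF.ofV v3844 n3844 c3844.down b3844.down

/-- 41045446:694 -/
noncomputable def e3845 : SCfg where
  D := {
    a := 7
    L := 10
    kp := 7
    inn := [(0, 1), (1, 0), (1, 2), (1, 3), (1, 4), (1, 5), (1, 6), (2, 1), (2, 3), (3, 1), (3, 2), (4,
      1), (4, 6), (5, 1), (5, 6), (6, 1), (6, 4), (6, 5)]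
    mix := [(0, 0), (0, 1), (0, 2), (1, 0), (1, 2), (1, 3), (1, 4), (2, 2), (2, 5), (3, 3), (3, 5), (3,
      6), (4, 3), (4, 7), (5, 4), (5, 8), (6, 7), (6, 8), (6, 9)]
    cl := [1, 6, 0, 0, 0, 2, 7, 3, 4, 5]
    chq := [(0, 5), (5, 0)]
    rng := [(0, 1), (0, 4), (1, 0), (1, 2), (2, 1), (2, 5), (3, 6), (3, 7), (4, 0), (4, 8), (5, 2), (5,
      6), (6, 3), (6, 5), (7, 3), (7, 9), (8, 4), (8, 9), (9, 7), (9, 8)]
    lev := [] }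
  links := [[1, 7, 8, 9], [7, 0, 9, 2, 3, 10, 4, 6, 5, 11], [3, 1, 9, 12], [10, 1, 2, 12, 13], [6, 1, 10,
    14], [11, 1, 6, 15], [15, 5, 1, 4, 14, 16]]
  P := {
    a := 7
    N := 17
    nb := [898, 3837, 4618, 13318, 17474, 34882, 114738, 2307, 641, 4359, 24602, 32930, 8716, 5128,
      66640, 67680, 49216]
    tri := [(0, 1, 7), (0, 1, 9), (0, 7, 8), (0, 8, 9), (1, 2, 3), (1, 2, 9), (1, 3, 10), (1, 4, 6),
      (1, 4, 10), (1, 5, 6), (1, 5, 11), (1, 7, 11), (2, 3, 12), (2, 9, 12), (3, 10, 13), (3, 12,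
      13), (4, 6, 14), (4, 10, 14), (5, 6, 15), (5, 11, 15), (6, 14, 16), (6, 15, 16)]
    fin := [0, 0, 2, 2, 2, 2, 2, 0, 8, 2, 2, 2, 12, 13, 14, 15, 16]
    chd := [(2, 16)]
    steps := [(0, 1), (0, 7), (2, 3), (2, 9), (2, 10), (2, 4), (2, 6), (2, 5), (2, 11)] }
  rep := [2, 0, 12, 14, 15, 16, 8, 13]

noncomputable def v3845 : Cov.CovD where
  P := 3
  N := 5
  pl := [0, 1, 5, 6, 7, 8]
  lev := [⟨[], [], [], [1, 6], [(2, 0, [5])]⟩,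
    ⟨[], [(0, 0)], [(0, 0)], [1], [(2, 0, [5]), (3, 0, [5]), (4, 0, [5])]⟩,
    ⟨[(0, 1)], [(0, 0), (1, 0)], [], [2], [(2, 0, [5])]⟩,
    ⟨[(0, 1), (1, 2)], [(1, 0), (2, 0)], [], [2, 7], [(3, 0, [5])]⟩,
    ⟨[(0, 1), (1, 2), (1, 3)], [(1, 0), (3, 0)], [], [3], [(3, 0, [5])]⟩,
    ⟨[(0, 1), (1, 2), (1, 3), (1, 4)], [(1, 0)], [], [4], [(4, 0, [5])]⟩,
    ⟨[(0, 1), (1, 2), (1, 3), (1, 4), (1, 5), (4, 5)], [(1, 0), (1, 5), (4, 0), (4, 5), (5,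
      0), (5, 5)], [], [3, 4], [(9, 5, [0])]⟩]
  Ta := [((2, 1), 0, 6), ((2, 5), 0, 2), ((3, 6), 0, 7), ((3, 7), 0, 3), ((4, 0), 0, 1), ((4, 8),
    0, 4)]
  Tb := [((0, 1, 4), 1, 6, 0), ((1, 0, 2), 6, 1, 0), ((2, 1, 5), 0, 6, 2), ((3, 6, 7), 0, 7, 3),
    ((4, 0, 8), 0, 1, 4), ((5, 2, 6), 2, 0, 7), ((6, 3, 5), 7, 0, 2), ((7, 3, 9), 3, 0, 5),
    ((8, 4, 9), 4, 0, 5), ((9, 7, 8), 5, 3, 4)]
  Tc := []
  Td := [((0, 5), (2, 1), 6), ((0, 5), (2, 5), 2), ((0, 5), (3, 6), 7), ((0, 5), (3, 7), 3), ((0,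
    5), (4, 0), 1), ((0, 5), (4, 8), 4), ((5, 0), (9, 7), 3), ((5, 0), (9, 8), 4)]
  G := [[0, 0, 0x116116611611666481164211621168cc8c, 0x141218e18411a11aa184c,
    0x141812e184121814e128c], [0, 0, 0, 0x1165256481c3112da882c8c1, 0x11a1e561c3169aa241],
    [0, 0x11a11aa1841161166188c, 0, 0x1258cb4e1481, 0x1d671aa1241]]

noncomputable def n3845 : Ent := ⟨e3845, noF, [], [], []⟩

def c3845 : PLift (Cov.check n3845.C.D v3845 = true) := ⟨by decide +kernel⟩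

def b3845 : PLift (entF (fidx ts) 400 3845 n3845 = true) := ⟨by decide +kernel⟩

theorem g3845 : GoodF (fidx ts) 400 3845 := GoodF.ofV v3845 n3845 c3845.down b3845.down

/-- 41044654:696 -/
noncomputable def e3846 : SCfg where
  D := {
    a := 7
    L := 10
    kp := 7
    inn := [(0, 1), (0, 4), (1, 0), (1, 2), (1, 3), (1, 4), (1, 5), (1, 6), (2, 1), (2, 4), (3, 1), (3,
      5), (4, 0), (4, 1), (4, 2), (5, 1), (5, 3), (6, 1)]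
    mix := [(0, 0), (0, 1), (1, 0), (1, 2), (1, 3), (1, 4), (2, 2), (2, 5), (3, 3), (3, 6), (4, 1), (4,
      5), (4, 7), (5, 2), (5, 6), (5, 8), (6, 0), (6, 4), (6, 9)]
    cl := [0, 1, 0, 0, 2, 3, 4, 5, 6, 7]
    chq := [(0, 5), (5, 0)]
    rng := [(0, 1), (0, 9), (1, 0), (1, 7), (2, 5), (2, 8), (3, 4), (3, 6), (4, 3), (4, 9), (5, 2), (5,
      7), (6, 3), (6, 8), (7, 1), (7, 5), (8, 2), (8, 6), (9, 0), (9, 4)]
    lev := [] }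
  links := [[1, 7, 8, 4], [7, 0, 4, 2, 9, 5, 3, 10, 11, 6], [9, 1, 4, 12], [10, 1, 5, 13], [12, 2, 1, 0,
    8, 14], [13, 3, 1, 9, 15], [7, 1, 11, 16]]
  P := {
    a := 7
    N := 17
    nb := [402, 3837, 4626, 9250, 20743, 41482, 67714, 65859, 16529, 36902, 10250, 66626, 16916,
      33832, 4368, 8736, 2240]
    tri := [(0, 1, 4), (0, 1, 7), (0, 4, 8), (0, 7, 8), (1, 2, 4), (1, 2, 9), (1, 3, 5), (1, 3, 10),
      (1, 5, 9), (1, 6, 7), (1, 6, 11), (1, 10, 11), (2, 4, 12), (2, 9, 12), (3, 5, 13), (3, 10,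
      13), (4, 8, 14), (4, 12, 14), (5, 9, 15), (5, 13, 15), (6, 7, 16), (6, 11, 16)]
    fin := [0, 0, 0, 0, 0, 0, 0, 0, 8, 0, 0, 11, 12, 13, 14, 15, 16]
    chd := [(0, 14)]
    steps := [(0, 1), (0, 2), (0, 3), (0, 4), (0, 5), (0, 6), (0, 7), (0, 9), (0, 10)] }
  rep := [0, 8, 11, 12, 13, 14, 15, 16]

noncomputable def v3846 : Cov.CovD where
  P := 3
  N := 5
  pl := [1, 4, 5, 6, 8, 9]
  lev := [⟨[], [], [], [1], [(0, 0, [5])]⟩,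
    ⟨[], [(0, 0)], [(0, 0)], [2], [(0, 0, [5]), (2, 0, [5]), (3, 0, [5])]⟩,
    ⟨[(0, 1)], [(1, 0)], [], [3], [(2, 0, [5])]⟩,
    ⟨[(0, 1), (1, 2)], [(1, 0)], [], [4], [(3, 0, [5])]⟩,
    ⟨[(0, 1), (0, 2), (1, 2), (1, 3)], [(0, 0), (0, 5), (1, 0), (1, 5), (2, 0), (2, 5)],
      [], [1, 3], [(7, 5, [0])]⟩,
    ⟨[(0, 1), (1, 2), (1, 3), (1, 4)], [(1, 0), (2, 0), (3, 0)], [], [4, 6], [(2, 0, [5])]⟩,
    ⟨[(0, 1), (1, 2), (1, 3), (1, 4), (1, 5)], [(0, 0), (1, 0)], [], [2, 7], [(0, 0, [5])]⟩]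
  Ta := [((0, 1), 0, 1), ((0, 9), 0, 7), ((2, 5), 0, 3), ((2, 8), 0, 6), ((3, 4), 0, 2), ((3, 6),
    0, 4)]
  Tb := [((0, 1, 9), 0, 1, 7), ((1, 0, 7), 1, 0, 5), ((2, 5, 8), 0, 3, 6), ((3, 4, 6), 0, 2, 4),
    ((4, 3, 9), 2, 0, 7), ((5, 2, 7), 3, 0, 5), ((6, 3, 8), 4, 0, 6), ((7, 1, 5), 5, 1, 3),
    ((8, 2, 6), 6, 0, 4), ((9, 0, 4), 7, 0, 2)]
  Tc := []
  Td := [((0, 5), (0, 1), 1), ((0, 5), (0, 9), 7), ((0, 5), (2, 5), 3), ((0, 5), (2, 8), 6), ((0,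
    5), (3, 4), 2), ((0, 5), (3, 6), 4), ((5, 0), (7, 1), 1), ((5, 0), (7, 5), 3)]
  G := [[0, 0xc12c12a24c14c1464c18818418e8ca, 0, 0x411811c11ec11c116684,
    0x211a11a4a11211c8114aa4], [0, 0, 0, 0x124211611c9111c111e51e18882c4,
    0x12112111e111ec111c116a8], [0, 0, 0xa118c112c114e24, 0x11314115126119188c8,
    0x113141151211918e24]]

noncomputable def n3846 : Ent := ⟨e3846, noF, [], [], []⟩

def c3846 : PLift (Cov.check n3846.C.D v3846 = true) := ⟨by decide +kernel⟩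

def b3846 : PLift (entF (fidx ts) 400 3846 n3846 = true) := ⟨by decide +kernel⟩

theorem g3846 : GoodF (fidx ts) 400 3846 := GoodF.ofV v3846 n3846 c3846.down b3846.down

/-- 41044654:697/1 -/
noncomputable def e3847 : SCfg where
  D := {
    a := 7
    L := 9
    kp := 6
    inn := [(0, 1), (0, 4), (1, 0), (1, 2), (1, 3), (1, 4), (1, 5), (2, 1), (2, 4), (3, 1), (3, 5), (4,
      0), (4, 1), (4, 2), (4, 6), (5, 1), (5, 3), (6, 4)]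
    mix := [(0, 0), (0, 1), (1, 0), (1, 2), (1, 3), (1, 4), (1, 5), (2, 2), (2, 6), (3, 3), (3, 7), (4,
      1), (4, 6), (5, 2), (5, 7), (5, 8), (6, 1), (6, 6), (6, 8)]
    cl := [0, 1, 0, 0, 5, 6, 3, 2, 4]
    chq := [(1, 3), (3, 1)]
    rng := [(0, 1), (0, 5), (1, 0), (1, 8), (2, 6), (2, 8), (3, 4), (3, 7), (4, 3), (4, 5), (5, 0), (5,
      4), (6, 2), (6, 8), (7, 3), (7, 8), (8, 1), (8, 2), (8, 6), (8, 7)]
    lev := [] }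
  links := [[1, 7, 8, 4], [7, 0, 4, 2, 9, 5, 3, 10, 11, 12], [9, 1, 4, 13], [10, 1, 5, 14], [13, 2, 1, 0,
    8, 6], [14, 3, 1, 9, 15], [13, 4, 8, 15]]
  P := {
    a := 7
    N := 16
    nb := [402, 7869, 8722, 17442, 8519, 49674, 41232, 4355, 32977, 40998, 18442, 5122, 2178, 33364,
      33832, 25440]
    tri := [(0, 1, 4), (0, 1, 7), (0, 4, 8), (0, 7, 8), (1, 2, 4), (1, 2, 9), (1, 3, 5), (1, 3, 10),
      (1, 5, 9), (1, 7, 12), (1, 10, 11), (1, 11, 12), (2, 4, 13), (2, 9, 13), (3, 5, 14), (3, 10,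
      14), (4, 6, 8), (4, 6, 13), (5, 9, 15), (5, 14, 15), (6, 8, 15), (6, 13, 15)]
    fin := [0, 0, 0, 0, 0, 0, 6, 0, 6, 0, 0, 11, 12, 13, 14, 15]
    chd := [(6, 13)]
    steps := [(0, 1), (0, 2), (0, 3), (0, 4), (0, 5), (0, 7), (0, 9), (0, 10), (6, 8)] }
  rep := [0, 6, 14, 13, 15, 11, 12]

noncomputable def v3847 : Cov.CovD where
  P := 3
  N := 4
  pl := [4, 5, 7, 8]
  lev := [⟨[], [], [(0, 1)], [], [(0, 0, []), (1, 1, [3])]⟩,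
    ⟨[], [(0, 0), (0, 1)], [(0, 0)], [5, 6], [(0, 0, []), (2, 0, []), (3, 0, [])]⟩,
    ⟨[(0, 1)], [(1, 0), (1, 3)], [(0, 3)], [], [(2, 0, []), (6, 3, [1])]⟩,
    ⟨[(0, 1), (1, 2)], [(1, 0)], [], [2], [(3, 0, [])]⟩,
    ⟨[(0, 1), (0, 2), (1, 2), (1, 3)], [(0, 0), (0, 1), (0, 3), (1, 0), (1, 1), (1, 3), (2,
      0), (2, 1), (2, 3)], [(1, 3)], [], [(1, 1, [3]), (6, 3, [1])]⟩,
    ⟨[(0, 1), (1, 2), (1, 3), (1, 4)], [(1, 0), (2, 0), (3, 0)], [], [2, 4], [(2, 0, [])]⟩,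
    ⟨[(0, 4), (1, 4), (2, 4)], [(0, 1), (2, 3), (4, 1), (4, 3)], [(1, 3)], [4], [(1, 1,
      [3]), (6, 3, [1])]⟩]
  Ta := [((0, 1), 0, 1), ((0, 5), 0, 6), ((2, 6), 0, 3), ((2, 8), 0, 4), ((3, 4), 0, 5), ((3, 7),
    0, 2)]
  Tb := [((0, 1, 5), 0, 1, 6), ((1, 0, 8), 1, 0, 4), ((2, 6, 8), 0, 3, 4), ((3, 4, 7), 0, 5, 2),
    ((4, 3, 5), 5, 0, 6), ((5, 0, 4), 6, 0, 5), ((6, 2, 8), 3, 0, 4), ((7, 3, 8), 2, 0, 4),
    ((8, 1, 2), 4, 1, 0), ((8, 1, 6), 4, 1, 3), ((8, 1, 7), 4, 1, 2), ((8, 2, 6), 4, 0, 3),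
    ((8, 2, 7), 4, 0, 2), ((8, 6, 7), 4, 3, 2)]
  Tc := []
  Td := [((1, 3), (1, 0), 0), ((1, 3), (1, 8), 4), ((3, 1), (6, 2), 0), ((3, 1), (6, 8), 4)]
  G := [[0, 0x2184a4c8464386c2844e1182c24cc11e2, 0, 0x111421118211181118ae8,
    0x111221112211121118ae8], [0, 0, 0, 0x44881dcd824448895cd4281c1484c14c94cac,
    0x521429888da284a15a9225288918814a91ce4], [0, 0, 0x11612211612211614cc41e8,
    0x111421118211141118ce4, 0x111821112211481118ae4]]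

noncomputable def n3847 : Ent := ⟨e3847, noF, [], [], []⟩

def c3847 : PLift (Cov.check n3847.C.D v3847 = true) := ⟨by decide +kernel⟩

def b3847 : PLift (entF (fidx ts) 400 3847 n3847 = true) := ⟨by decide +kernel⟩

theorem g3847 : GoodF (fidx ts) 400 3847 := GoodF.ofV v3847 n3847 c3847.down b3847.down

/-- 41044654:697/2 -/
noncomputable def e3848 : SCfg where
  D := {
    a := 7
    L := 9
    kp := 6
    inn := [(0, 1), (0, 4), (1, 0), (1, 2), (1, 3), (1, 4), (1, 5), (2, 1), (2, 4), (3, 1), (3, 5), (4,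
      0), (4, 1), (4, 2), (4, 6), (5, 1), (5, 3), (6, 4)]
    mix := [(0, 0), (0, 1), (1, 0), (1, 2), (1, 3), (1, 4), (1, 5), (2, 2), (2, 6), (3, 3), (3, 7), (4,
      1), (4, 6), (5, 2), (5, 7), (5, 8), (6, 1), (6, 6), (6, 7)]
    cl := [0, 1, 0, 0, 4, 5, 3, 2, 6]
    chq := [(1, 3), (3, 1)]
    rng := [(0, 1), (0, 5), (1, 0), (1, 7), (2, 6), (2, 8), (3, 4), (3, 7), (4, 3), (4, 5), (5, 0), (5,
      4), (6, 2), (6, 7), (7, 1), (7, 3), (7, 6), (7, 8), (8, 2), (8, 7)]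
    lev := [] }
  links := [[1, 7, 8, 4], [7, 0, 4, 2, 9, 5, 3, 10, 11, 12], [9, 1, 4, 13], [10, 1, 5, 14], [13, 2, 1, 0,
    8, 6], [14, 3, 1, 9, 15], [13, 4, 8, 14]]
  P := {
    a := 7
    N := 16
    nb := [402, 7869, 8722, 17442, 8519, 49674, 24848, 4355, 16593, 40998, 18442, 5122, 2178, 16980,
      42344, 16928]
    tri := [(0, 1, 4), (0, 1, 7), (0, 4, 8), (0, 7, 8), (1, 2, 4), (1, 2, 9), (1, 3, 5), (1, 3, 10),
      (1, 5, 9), (1, 7, 12), (1, 10, 11), (1, 11, 12), (2, 4, 13), (2, 9, 13), (3, 5, 14), (3, 10,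
      14), (4, 6, 8), (4, 6, 13), (5, 9, 15), (5, 14, 15), (6, 8, 14), (6, 13, 14)]
    fin := [0, 0, 0, 0, 0, 0, 6, 0, 6, 0, 0, 11, 12, 13, 14, 15]
    chd := [(6, 13)]
    steps := [(0, 1), (0, 2), (0, 3), (0, 4), (0, 5), (0, 7), (0, 9), (0, 10), (6, 8)] }
  rep := [0, 6, 14, 13, 11, 12, 15]

noncomputable def v3848 : Cov.CovD where
  P := 3
  N := 4
  pl := [4, 5, 7, 8]
  lev := [⟨[], [], [(0, 1)], [], [(0, 0, []), (1, 1, [3])]⟩,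
    ⟨[], [(0, 0), (0, 1)], [(0, 0)], [4, 5], [(0, 0, []), (2, 0, []), (3, 0, [])]⟩,
    ⟨[(0, 1)], [(1, 0), (1, 3)], [(0, 3)], [], [(2, 0, []), (6, 3, [1])]⟩,
    ⟨[(0, 1), (1, 2)], [(1, 0)], [], [2], [(3, 0, [])]⟩,
    ⟨[(0, 1), (0, 2), (1, 2), (1, 3)], [(0, 0), (0, 1), (0, 3), (1, 0), (1, 1), (1, 3), (2,
      0), (2, 1), (2, 3)], [(1, 3)], [], [(1, 1, [3]), (6, 3, [1])]⟩,
    ⟨[(0, 1), (1, 2), (1, 3), (1, 4)], [(1, 0), (2, 0), (3, 0)], [], [2, 6], [(2, 0, [])]⟩,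
    ⟨[(0, 4), (1, 4), (2, 4)], [(0, 1), (2, 3), (4, 1), (4, 3)], [(1, 3)], [2], [(1, 1,
      [3]), (6, 3, [1])]⟩]
  Ta := [((0, 1), 0, 1), ((0, 5), 0, 5), ((2, 6), 0, 3), ((2, 8), 0, 6), ((3, 4), 0, 4), ((3, 7),
    0, 2)]
  Tb := [((0, 1, 5), 0, 1, 5), ((1, 0, 7), 1, 0, 2), ((2, 6, 8), 0, 3, 6), ((3, 4, 7), 0, 4, 2),
    ((4, 3, 5), 4, 0, 5), ((5, 0, 4), 5, 0, 4), ((6, 2, 7), 3, 0, 2), ((7, 1, 3), 2, 1, 0),
    ((7, 1, 6), 2, 1, 3), ((7, 1, 8), 2, 1, 6), ((7, 3, 6), 2, 0, 3), ((7, 3, 8), 2, 0, 6),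
    ((7, 6, 8), 2, 3, 6), ((8, 2, 7), 6, 0, 2)]
  Tc := []
  Td := [((1, 3), (1, 0), 0), ((1, 3), (1, 7), 2), ((3, 1), (6, 2), 0), ((3, 1), (6, 7), 2)]
  G := [[0, 0x44c88c6418181684128c88c44cc81e2, 0, 0x111421118211142e4, 0x1112211182111811886e8],
    [0, 0, 0, 0x448811cd8244c18c542688c11c5428c, 0x88a11a582411a112888a41211a8199a41cad], [0,
    0, 0xcc6182cca12288c1244c12ce4, 0x111821118211142e4, 0x111221118211121118ce8]]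

noncomputable def n3848 : Ent := ⟨e3848, noF, [], [], []⟩

def c3848 : PLift (Cov.check n3848.C.D v3848 = true) := ⟨by decide +kernel⟩

def b3848 : PLift (entF (fidx ts) 400 3848 n3848 = true) := ⟨by decide +kernel⟩

theorem g3848 : GoodF (fidx ts) 400 3848 := GoodF.ofV v3848 n3848 c3848.down b3848.down

/-- 41044654:697 -/
noncomputable def e3849 : SCfg where
  D := {
    a := 7
    L := 10
    kp := 7
    inn := [(0, 1), (0, 4), (1, 0), (1, 2), (1, 3), (1, 4), (1, 5), (2, 1), (2, 4), (3, 1), (3, 5), (4,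
      0), (4, 1), (4, 2), (4, 6), (5, 1), (5, 3), (6, 4)]
    mix := [(0, 0), (0, 1), (1, 0), (1, 2), (1, 3), (1, 4), (1, 5), (2, 2), (2, 6), (3, 3), (3, 7), (4,
      1), (4, 6), (5, 2), (5, 7), (5, 8), (6, 1), (6, 6), (6, 9)]
    cl := [0, 3, 0, 0, 2, 5, 1, 4, 6, 7]
    chq := [(1, 3), (3, 1)]
    rng := [(0, 1), (0, 5), (1, 0), (1, 9), (2, 6), (2, 8), (3, 4), (3, 7), (4, 3), (4, 5), (5, 0), (5,
      4), (6, 2), (6, 9), (7, 3), (7, 8), (8, 2), (8, 7), (9, 1), (9, 6)]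
    lev := [] }
  links := [[1, 7, 8, 4], [7, 0, 4, 2, 9, 5, 3, 10, 11, 12], [9, 1, 4, 13], [10, 1, 5, 14], [13, 2, 1, 0,
    8, 6], [14, 3, 1, 9, 15], [13, 4, 8, 16]]
  P := {
    a := 7
    N := 17
    nb := [402, 7869, 8722, 17442, 8519, 49674, 74000, 4355, 65745, 40998, 18442, 5122, 2178, 66132,
      33832, 16928, 8512]
    tri := [(0, 1, 4), (0, 1, 7), (0, 4, 8), (0, 7, 8), (1, 2, 4), (1, 2, 9), (1, 3, 5), (1, 3, 10),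
      (1, 5, 9), (1, 7, 12), (1, 10, 11), (1, 11, 12), (2, 4, 13), (2, 9, 13), (3, 5, 14), (3, 10,
      14), (4, 6, 8), (4, 6, 13), (5, 9, 15), (5, 14, 15), (6, 8, 16), (6, 13, 16)]
    fin := [0, 0, 0, 0, 0, 0, 6, 0, 6, 0, 0, 11, 12, 13, 14, 15, 16]
    chd := [(6, 13)]
    steps := [(0, 1), (0, 2), (0, 3), (0, 4), (0, 5), (0, 7), (0, 9), (0, 10), (6, 8)] }
  rep := [0, 13, 11, 6, 14, 12, 15, 16]

noncomputable def v3849 : Cov.CovD where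
  P := 3
  N := 5
  pl := [4, 5, 7, 8, 9]
  lev := [⟨[], [], [(0, 3)], [], [(0, 0, []), (1, 3, [1])]⟩,
    ⟨[], [(0, 0), (0, 3)], [(0, 0)], [2, 5], [(0, 0, []), (2, 0, []), (3, 0, [])]⟩,
    ⟨[(0, 1)], [(1, 0), (1, 1)], [(0, 1)], [], [(2, 0, []), (6, 1, [3])]⟩,
    ⟨[(0, 1), (1, 2)], [(1, 0)], [], [4], [(3, 0, [])]⟩,
    ⟨[(0, 1), (0, 2), (1, 2), (1, 3)], [(0, 0), (0, 1), (0, 3), (1, 0), (1, 1), (1, 3), (2,
      0), (2, 1), (2, 3)], [(1, 3)], [], [(1, 3, [1]), (6, 1, [3])]⟩,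
    ⟨[(0, 1), (1, 2), (1, 3), (1, 4)], [(1, 0), (2, 0), (3, 0)], [], [4, 6], [(2, 0, [])]⟩,
    ⟨[(0, 4), (1, 4), (2, 4)], [(0, 3), (2, 1), (4, 1), (4, 3)], [(1, 3)], [7], [(1, 3,
      [1]), (6, 1, [3])]⟩]
  Ta := [((0, 1), 0, 3), ((0, 5), 0, 5), ((2, 6), 0, 1), ((2, 8), 0, 6), ((3, 4), 0, 2), ((3, 7),
    0, 4)]
  Tb := [((0, 1, 5), 0, 3, 5), ((1, 0, 9), 3, 0, 7), ((2, 6, 8), 0, 1, 6), ((3, 4, 7), 0, 2, 4),
    ((4, 3, 5), 2, 0, 5), ((5, 0, 4), 5, 0, 2), ((6, 2, 9), 1, 0, 7), ((7, 3, 8), 4, 0, 6),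
    ((8, 2, 7), 6, 0, 4), ((9, 1, 6), 7, 3, 1)]
  Tc := []
  Td := [((1, 3), (6, 2), 0), ((1, 3), (6, 9), 7), ((3, 1), (1, 0), 0), ((3, 1), (1, 9), 7)]
  G := [[0, 0, 0, 0xc1915281441d19ccc1519c1519a4c2, 0x91181915642c14c191569118c514d14c8aa], [0,
    0x2821226ceee888ee16666e21ccce81ac1, 0, 0xd212ddc11cddde118c2,
    0xddde1148554e4198899612c9c23], [0, 0, 0xd11d11c4d11d11a4c2, 0xdd51dd3168dda1d11c8c2,
    0xd11ddd716851148a918499a55ac8523]]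

noncomputable def n3849 : Ent := ⟨e3849, noF, [], [], [(16, 15, [1685356702439545624007900436039642273970977273354372543760015847425, 0]), (16, 14, [1580095832788404724998799751142926758855362888449624481876434518017, 0])]⟩

def c3849 : PLift (Cov.check n3849.C.D v3849 = true) := ⟨by decide +kernel⟩

def b3849 : PLift (entF (fidx ts) 400 3849 n3849 = true) := ⟨by decide +kernel⟩

theorem g3849 : GoodF (fidx ts) 400 3849 := GoodF.ofV v3849 n3849 c3849.down b3849.down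

/-- 41045445:698/1 -/
noncomputable def e3850 : SCfg where
  D := {
    a := 7
    L := 9
    kp := 6
    inn := [(0, 1), (1, 0), (1, 2), (1, 3), (1, 4), (1, 5), (1, 6), (2, 1), (2, 3), (3, 1), (3, 2), (4,
      1), (4, 6), (5, 1), (6, 1), (6, 4)]
    mix := [(0, 0), (0, 1), (0, 2), (1, 0), (1, 2), (1, 3), (1, 4), (2, 2), (2, 5), (3, 3), (3, 5), (3,
      6), (4, 4), (4, 7), (5, 0), (5, 4), (5, 8), (6, 3), (6, 6), (6, 7)]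
    cl := [1, 5, 0, 0, 0, 2, 3, 4, 6]
    chq := [(0, 1), (1, 0)]
    rng := [(0, 1), (0, 8), (1, 0), (1, 2), (2, 1), (2, 5), (3, 6), (4, 7), (4, 8), (5, 2), (5, 6), (6,
      3), (6, 5), (6, 7), (7, 4), (7, 6), (8, 0), (8, 4)]
    lev := [] }
  links := [[1, 7, 8, 9], [7, 0, 9, 2, 3, 10, 6, 4, 11, 5], [3, 1, 9, 12], [10, 1, 2, 12, 13], [11, 1, 6,
    14], [7, 1, 11, 15], [14, 4, 1, 10, 13]]
  P := {
    a := 7
    N := 16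
    nb := [898, 3837, 4618, 13318, 18498, 34946, 25618, 33059, 641, 4359, 8266, 49202, 8716, 21576,
      10320, 2208]
    tri := [(0, 1, 7), (0, 1, 9), (0, 7, 8), (0, 8, 9), (1, 2, 3), (1, 2, 9), (1, 3, 10), (1, 4, 6),
      (1, 4, 11), (1, 5, 7), (1, 5, 11), (1, 6, 10), (2, 3, 12), (2, 9, 12), (3, 10, 13), (3, 12,
      13), (4, 6, 14), (4, 11, 14), (5, 7, 15), (5, 11, 15), (6, 10, 13), (6, 13, 14)]
    fin := [0, 0, 2, 2, 2, 0, 2, 0, 8, 2, 2, 2, 12, 13, 14, 15]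
    chd := [(0, 2)]
    steps := [(0, 1), (0, 5), (0, 7), (2, 3), (2, 9), (2, 10), (2, 6), (2, 4), (2, 11)] }
  rep := [2, 0, 12, 13, 14, 8, 15]

noncomputable def v3850 : Cov.CovD where
  P := 3
  N := 4
  pl := [1, 5, 6, 7, 8]
  lev := [⟨[], [], [(0, 1)], [5], [(0, 1, [0]), (2, 0, [1])]⟩,
    ⟨[], [(0, 0), (0, 1)], [(0, 0), (0, 1)], [], [(0, 1, [0]), (2, 0, [1]), (3, 0, [1]),
      (4, 0, [1])]⟩,
    ⟨[(0, 1)], [(0, 0), (1, 0), (1, 1)], [], [2], [(2, 0, [1])]⟩,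
    ⟨[(0, 1), (1, 2)], [(1, 0), (1, 1), (2, 0)], [], [2, 3], [(3, 0, [1])]⟩,
    ⟨[(0, 1), (1, 2), (1, 3)], [(1, 0), (1, 1)], [], [4], [(4, 0, [1])]⟩,
    ⟨[(0, 1), (1, 2), (1, 3), (1, 4)], [(0, 1), (1, 0), (1, 1), (4, 0)], [(0, 1)], [6],
      [(0, 1, [0]), (4, 0, [1])]⟩,
    ⟨[(0, 1), (1, 2), (1, 3), (1, 4), (1, 5)], [(1, 0), (1, 1), (3, 0), (4, 0)], [], [3,
      4], [(3, 0, [1])]⟩]
  Ta := [((2, 1), 0, 5), ((2, 5), 0, 2), ((3, 6), 0, 3), ((4, 7), 0, 4), ((4, 8), 0, 6)]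
  Tb := [((0, 1, 8), 1, 5, 6), ((1, 0, 2), 5, 1, 0), ((2, 1, 5), 0, 5, 2), ((4, 7, 8), 0, 4, 6),
    ((5, 2, 6), 2, 0, 3), ((6, 3, 5), 3, 0, 2), ((6, 3, 7), 3, 0, 4), ((6, 5, 7), 3, 2, 4),
    ((7, 4, 6), 4, 0, 3), ((8, 0, 4), 6, 1, 0)]
  Tc := []
  Td := [((0, 1), (2, 1), 5), ((0, 1), (2, 5), 2), ((0, 1), (3, 6), 3), ((0, 1), (4, 7), 4), ((0,
    1), (4, 8), 6), ((1, 0), (0, 1), 5), ((1, 0), (0, 8), 6)]
  G := [[0, 0x1214a68ae154848ae651486, 0x114118112e248111a1121aa24c,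
    0x114118212d844142125881888cc, 0xc161a184c1a16128c], [0, 0xe2ce1182188ac311a21aac146, 0,
    0x41216488121a88c1, 0x8141a4121aa841], [0, 0x1164463418eec1182141812e814e, 0,
    0x14c44488c22ca18c1, 0x64418cac68a12c1]]

noncomputable def n3850 : Ent := ⟨e3850, noF, [], [], []⟩

def c3850 : PLift (Cov.check n3850.C.D v3850 = true) := ⟨by decide +kernel⟩

def b3850 : PLift (entF (fidx ts) 400 3850 n3850 = true) := ⟨by decide +kernel⟩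

theorem g3850 : GoodF (fidx ts) 400 3850 := GoodF.ofV v3850 n3850 c3850.down b3850.down

/-- 41045445:698 -/
noncomputable def e3851 : SCfg where
  D := {
    a := 7
    L := 10
    kp := 7
    inn := [(0, 1), (1, 0), (1, 2), (1, 3), (1, 4), (1, 5), (1, 6), (2, 1), (2, 3), (3, 1), (3, 2), (4,
      1), (4, 6), (5, 1), (6, 1), (6, 4)]
    mix := [(0, 0), (0, 1), (0, 2), (1, 0), (1, 2), (1, 3), (1, 4), (2, 2), (2, 5), (3, 3), (3, 5), (3,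
      6), (4, 4), (4, 7), (5, 0), (5, 4), (5, 8), (6, 3), (6, 7), (6, 9)]
    cl := [1, 4, 0, 0, 0, 2, 5, 3, 6, 7]
    chq := [(0, 1), (1, 0)]
    rng := [(0, 1), (0, 8), (1, 0), (1, 2), (2, 1), (2, 5), (3, 6), (3, 9), (4, 7), (4, 8), (5, 2), (5,
      6), (6, 3), (6, 5), (7, 4), (7, 9), (8, 0), (8, 4), (9, 3), (9, 7)]
    lev := [] }
  links := [[1, 7, 8, 9], [7, 0, 9, 2, 3, 10, 6, 4, 11, 5], [3, 1, 9, 12], [10, 1, 2, 12, 13], [11, 1, 6,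
    14], [7, 1, 11, 15], [14, 4, 1, 10, 16]]
  P := {
    a := 7
    N := 17
    nb := [898, 3837, 4618, 13318, 18498, 34946, 82962, 33059, 641, 4359, 73802, 49202, 8716, 5128,
      67664, 2208, 17472]
    tri := [(0, 1, 7), (0, 1, 9), (0, 7, 8), (0, 8, 9), (1, 2, 3), (1, 2, 9), (1, 3, 10), (1, 4, 6),
      (1, 4, 11), (1, 5, 7), (1, 5, 11), (1, 6, 10), (2, 3, 12), (2, 9, 12), (3, 10, 13), (3, 12,
      13), (4, 6, 14), (4, 11, 14), (5, 7, 15), (5, 11, 15), (6, 10, 16), (6, 14, 16)]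
    fin := [0, 0, 2, 2, 2, 0, 2, 0, 8, 2, 2, 2, 12, 13, 14, 15, 16]
    chd := [(0, 2)]
    steps := [(0, 1), (0, 5), (0, 7), (2, 3), (2, 9), (2, 10), (2, 6), (2, 4), (2, 11)] }
  rep := [2, 0, 12, 14, 8, 13, 15, 16]

noncomputable def v3851 : Cov.CovD where
  P := 3
  N := 5
  pl := [1, 5, 6, 7, 8, 9]
  lev := [⟨[], [], [(0, 1)], [4], [(0, 1, [0]), (2, 0, [1])]⟩,
    ⟨[], [(0, 0), (0, 1)], [(0, 0), (0, 1)], [], [(0, 1, [0]), (2, 0, [1]), (3, 0, [1]),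
      (4, 0, [1])]⟩,
    ⟨[(0, 1)], [(0, 0), (1, 0), (1, 1)], [], [2], [(2, 0, [1])]⟩,
    ⟨[(0, 1), (1, 2)], [(1, 0), (1, 1), (2, 0)], [], [2, 5], [(3, 0, [1])]⟩,
    ⟨[(0, 1), (1, 2), (1, 3)], [(1, 0), (1, 1)], [], [3], [(4, 0, [1])]⟩,
    ⟨[(0, 1), (1, 2), (1, 3), (1, 4)], [(0, 1), (1, 0), (1, 1), (4, 0)], [(0, 1)], [6],
      [(0, 1, [0]), (4, 0, [1])]⟩,
    ⟨[(0, 1), (1, 2), (1, 3), (1, 4), (1, 5)], [(1, 0), (1, 1), (3, 0), (4, 0)], [], [3,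
      7], [(3, 0, [1])]⟩]
  Ta := [((2, 1), 0, 4), ((2, 5), 0, 2), ((3, 6), 0, 5), ((3, 9), 0, 7), ((4, 7), 0, 3), ((4, 8),
    0, 6)]
  Tb := [((0, 1, 8), 1, 4, 6), ((1, 0, 2), 4, 1, 0), ((2, 1, 5), 0, 4, 2), ((3, 6, 9), 0, 5, 7),
    ((4, 7, 8), 0, 3, 6), ((5, 2, 6), 2, 0, 5), ((6, 3, 5), 5, 0, 2), ((7, 4, 9), 3, 0, 7),
    ((8, 0, 4), 6, 1, 0), ((9, 3, 7), 7, 0, 3)]
  Tc := []
  Td := [((0, 1), (2, 1), 4), ((0, 1), (2, 5), 2), ((0, 1), (3, 6), 5), ((0, 1), (3, 9), 7), ((0,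
    1), (4, 7), 3), ((0, 1), (4, 8), 6), ((1, 0), (0, 1), 4), ((1, 0), (0, 8), 6)]
  G := [[0, 0x48aec518222ec63148c, 0x114118112e241111a1111aa24c, 0xc161a184414148121a18cc,
    0x412161281818c61412a1812cc], [0, 0x22eca318411a11c611611acc82c, 0,
    0x41216c1a16c481888c1, 0xc161ac161aa841], [0, 0x6e8e1148eea11846, 0, 0x44414c8c62ca18c1,
    0x4cc2ac61288818c1]]

noncomputable def n3851 : Ent := ⟨e3851, noF, [], [], [(13, 16, [1580044410770988437309982408355971841652082177953823432505704882177, 0])]⟩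

def c3851 : PLift (Cov.check n3851.C.D v3851 = true) := ⟨by decide +kernel⟩

def b3851 : PLift (entF (fidx ts) 400 3851 n3851 = true) := ⟨by decide +kernel⟩

theorem g3851 : GoodF (fidx ts) 400 3851 := GoodF.ofV v3851 n3851 c3851.down b3851.down

/-- 41045446:699 -/
noncomputable def e3852 : SCfg where
  D := {
    a := 7
    L := 10
    kp := 7
    inn := [(0, 1), (1, 0), (1, 2), (1, 3), (1, 4), (1, 5), (1, 6), (2, 1), (2, 3), (3, 1), (3, 2), (4,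
      1), (4, 6), (5, 1), (5, 6), (6, 1), (6, 4), (6, 5)]
    mix := [(0, 0), (0, 1), (0, 2), (1, 0), (1, 2), (1, 3), (1, 4), (2, 2), (2, 5), (3, 3), (3, 5), (3,
      6), (4, 4), (4, 7), (5, 0), (5, 8), (6, 7), (6, 8), (6, 9)]
    cl := [0, 6, 1, 1, 0, 2, 7, 3, 4, 5]
    chq := [(0, 5), (5, 0)]
    rng := [(0, 1), (0, 8), (1, 0), (1, 2), (2, 1), (2, 5), (3, 4), (3, 6), (4, 3), (4, 7), (5, 2), (5,
      6), (6, 3), (6, 5), (7, 4), (7, 9), (8, 0), (8, 9), (9, 7), (9, 8)]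
    lev := [] }
  links := [[1, 7, 8, 9], [7, 0, 9, 2, 3, 10, 11, 4, 6, 5], [3, 1, 9, 12], [10, 1, 2, 12, 13], [6, 1, 11,
    14], [7, 1, 6, 15], [15, 5, 1, 4, 14, 16]]
  P := {
    a := 7
    N := 17
    nb := [898, 3837, 4618, 13318, 18498, 32962, 114738, 33059, 641, 4359, 10250, 17426, 8716, 5128,
      67664, 65760, 49216]
    tri := [(0, 1, 7), (0, 1, 9), (0, 7, 8), (0, 8, 9), (1, 2, 3), (1, 2, 9), (1, 3, 10), (1, 4, 6),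
      (1, 4, 11), (1, 5, 6), (1, 5, 7), (1, 10, 11), (2, 3, 12), (2, 9, 12), (3, 10, 13), (3, 12,
      13), (4, 6, 14), (4, 11, 14), (5, 6, 15), (5, 7, 15), (6, 14, 16), (6, 15, 16)]
    fin := [0, 0, 2, 2, 0, 0, 0, 0, 8, 2, 2, 0, 12, 13, 14, 15, 16]
    chd := [(0, 16)]
    steps := [(0, 1), (0, 4), (0, 5), (0, 6), (0, 7), (0, 11), (2, 3), (2, 9), (2, 10)] }
  rep := [0, 2, 12, 14, 15, 16, 8, 13]

noncomputable def v3852 : Cov.CovD where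
  P := 3
  N := 5
  pl := [1, 5, 6, 7, 8]
  lev := [⟨[], [], [(0, 1)], [6], [(0, 0, [5]), (2, 1, [])]⟩,
    ⟨[], [(0, 0), (0, 1)], [(0, 0), (0, 1), (1, 1)], [], [(0, 0, [5]), (2, 1, []), (3, 1,
      []), (4, 0, [5])]⟩,
    ⟨[(0, 1)], [(0, 1), (1, 0), (1, 1)], [], [2], [(2, 1, [])]⟩,
    ⟨[(0, 1), (1, 2)], [(1, 0), (1, 1), (2, 1)], [], [2, 7], [(3, 1, [])]⟩,
    ⟨[(0, 1), (1, 2), (1, 3)], [(1, 0), (1, 1)], [], [3], [(4, 0, [5])]⟩,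
    ⟨[(0, 1), (1, 2), (1, 3), (1, 4)], [(0, 0), (1, 0), (1, 1)], [], [4], [(0, 0, [5])]⟩,
    ⟨[(0, 1), (1, 2), (1, 3), (1, 4), (1, 5), (4, 5)], [(1, 0), (1, 1), (1, 5), (4, 0), (4,
      5), (5, 0), (5, 5)], [], [3, 4], [(9, 5, [0])]⟩]
  Ta := [((0, 1), 0, 6), ((0, 8), 0, 4), ((2, 1), 1, 6), ((2, 5), 1, 2), ((3, 4), 1, 0), ((3, 6),
    1, 7), ((4, 3), 0, 1), ((4, 7), 0, 3)]
  Tb := [((0, 1, 8), 0, 6, 4), ((1, 0, 2), 6, 0, 1), ((2, 1, 5), 1, 6, 2), ((3, 4, 6), 1, 0, 7),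
    ((4, 3, 7), 0, 1, 3), ((5, 2, 6), 2, 1, 7), ((6, 3, 5), 7, 1, 2), ((7, 4, 9), 3, 0, 5),
    ((8, 0, 9), 4, 0, 5), ((9, 7, 8), 5, 3, 4)]
  Tc := []
  Td := [((0, 5), (0, 1), 6), ((0, 5), (0, 8), 4), ((0, 5), (4, 3), 1), ((0, 5), (4, 7), 3), ((5,
    0), (9, 7), 3), ((5, 0), (9, 8), 4)]
  G := [[0, 0, 0x1418e2d28464124121888b28cc, 0x941862d1282a91844a3d8411664312e491161882bd48c,
    0x1d653ca2844412819a31aa21cc], [0, 0, 0x48144141886ad1231a88bc8c2, 0,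
    0x1418e2d12116e8b9842], [0, 0, 0x71a924ea2841, 0x51629b64536886cd181, 0x53a95aa2141], [0,
    0x141812e11a11aac1411a11a611a11aac84a, 0x14541161e9cc43298a84c2, 0,
    0x34b845ae55ab3ca9141]]

noncomputable def n3852 : Ent := ⟨e3852, noF, [], [], []⟩

def c3852 : PLift (Cov.check n3852.C.D v3852 = true) := ⟨by decide +kernel⟩

def b3852 : PLift (entF (fidx ts) 400 3852 n3852 = true) := ⟨by decide +kernel⟩

theorem g3852 : GoodF (fidx ts) 400 3852 := GoodF.ofV v3852 n3852 c3852.down b3852.down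

/-- 41044644:700/1 -/
noncomputable def e3853 : SCfg where
  D := {
    a := 7
    L := 9
    kp := 6
    inn := [(0, 1), (0, 4), (1, 0), (1, 2), (1, 3), (1, 4), (1, 5), (2, 1), (2, 4), (3, 1), (4, 0), (4,
      1), (4, 2), (4, 6), (5, 1), (6, 4)]
    mix := [(0, 0), (0, 1), (1, 0), (1, 2), (1, 3), (1, 4), (1, 5), (2, 2), (2, 6), (3, 3), (3, 4), (3,
      7), (4, 1), (4, 6), (5, 0), (5, 5), (5, 8), (6, 1), (6, 6), (6, 7)]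
    cl := [0, 1, 0, 2, 0, 4, 3, 5, 6]
    chq := [(1, 3), (3, 1)]
    rng := [(0, 1), (0, 8), (1, 0), (1, 7), (2, 3), (2, 6), (3, 2), (3, 7), (4, 5), (4, 7), (5, 4), (5,
      8), (6, 2), (6, 7), (7, 1), (7, 3), (7, 4), (7, 6), (8, 0), (8, 5)]
    lev := [] }
  links := [[1, 7, 8, 4], [7, 0, 4, 2, 9, 10, 3, 11, 12, 5], [9, 1, 4, 13], [11, 1, 10, 14], [13, 2, 1,
    0, 8, 6], [7, 1, 12, 15], [13, 4, 8, 14]]
  P := {
    a := 7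
    N := 16
    nb := [402, 7869, 8722, 19458, 8519, 36994, 24848, 33059, 16593, 9222, 16906, 20490, 34850, 16980,
      11592, 4256]
    tri := [(0, 1, 4), (0, 1, 7), (0, 4, 8), (0, 7, 8), (1, 2, 4), (1, 2, 9), (1, 3, 10), (1, 3, 11),
      (1, 5, 7), (1, 5, 12), (1, 9, 10), (1, 11, 12), (2, 4, 13), (2, 9, 13), (3, 10, 14), (3, 11,
      14), (4, 6, 8), (4, 6, 13), (5, 7, 15), (5, 12, 15), (6, 8, 14), (6, 13, 14)]
    fin := [0, 0, 0, 0, 0, 0, 6, 0, 6, 0, 10, 0, 12, 13, 14, 15]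
    chd := [(6, 13)]
    steps := [(0, 1), (0, 2), (0, 3), (0, 4), (0, 5), (0, 7), (0, 9), (0, 11), (6, 8)] }
  rep := [0, 6, 10, 13, 12, 14, 15]

noncomputable def v3853 : Cov.CovD where
  P := 3
  N := 4
  pl := [3, 5, 7, 8]
  lev := [⟨[], [], [(0, 1)], [], [(0, 0, []), (1, 1, [3])]⟩,
    ⟨[], [(0, 0), (0, 1)], [(0, 0)], [2, 4], [(0, 0, []), (2, 0, []), (4, 0, [])]⟩,
    ⟨[(0, 1)], [(1, 0), (1, 3)], [(0, 3)], [], [(2, 0, []), (6, 3, [1])]⟩,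
    ⟨[(0, 1), (1, 2)], [(1, 0)], [], [2, 5], [(4, 0, [])]⟩,
    ⟨[(0, 1), (0, 2), (1, 2), (1, 3)], [(0, 0), (0, 1), (0, 3), (1, 0), (1, 1), (1, 3), (2,
      0), (2, 1), (2, 3)], [(1, 3)], [], [(1, 1, [3]), (6, 3, [1])]⟩,
    ⟨[(0, 1), (1, 2), (1, 3), (1, 4)], [(0, 0), (1, 0)], [], [4, 6], [(0, 0, [])]⟩,
    ⟨[(0, 4), (1, 4), (2, 4)], [(0, 1), (2, 3), (4, 1), (4, 3)], [(1, 3)], [5], [(1, 1,
      [3]), (6, 3, [1])]⟩]
  Ta := [((0, 1), 0, 1), ((0, 8), 0, 6), ((2, 3), 0, 2), ((2, 6), 0, 3), ((4, 5), 0, 4), ((4, 7),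
    0, 5)]
  Tb := [((0, 1, 8), 0, 1, 6), ((1, 0, 7), 1, 0, 5), ((2, 3, 6), 0, 2, 3), ((3, 2, 7), 2, 0, 5),
    ((4, 5, 7), 0, 4, 5), ((5, 4, 8), 4, 0, 6), ((6, 2, 7), 3, 0, 5), ((7, 1, 3), 5, 1, 2),
    ((7, 1, 4), 5, 1, 0), ((7, 1, 6), 5, 1, 3), ((7, 3, 4), 5, 2, 0), ((7, 3, 6), 5, 2, 3),
    ((7, 4, 6), 5, 0, 3), ((8, 0, 5), 6, 0, 4)]
  Tc := []
  Td := [((1, 3), (1, 0), 0), ((1, 3), (1, 7), 5), ((3, 1), (6, 2), 0), ((3, 1), (6, 7), 5)]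
  G := [[0, 0x24281488aaa61184ca411ee622446e11ce, 0, 0x116112411a1128c, 0x11c112116116c11a4],
    [0, 0, 0x11111162111111a2c4, 0x418111d12c111912c4, 0xc1115124111519141ca8], [0, 0, 0,
    0x11871115b1c24511911c28c, 0x1c5111c1a21112411219918ea4]]

noncomputable def n3853 : Ent := ⟨e3853, noF, [], [], []⟩

def c3853 : PLift (Cov.check n3853.C.D v3853 = true) := ⟨by decide +kernel⟩

def b3853 : PLift (entF (fidx ts) 400 3853 n3853 = true) := ⟨by decide +kernel⟩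

theorem g3853 : GoodF (fidx ts) 400 3853 := GoodF.ofV v3853 n3853 c3853.down b3853.down

/-- 41044644:700/2 -/
noncomputable def e3854 : SCfg where
  D := {
    a := 7
    L := 9
    kp := 6
    inn := [(0, 1), (0, 4), (1, 0), (1, 2), (1, 3), (1, 4), (1, 5), (2, 1), (2, 4), (3, 1), (4, 0), (4,
      1), (4, 2), (4, 6), (5, 1), (6, 4)]
    mix := [(0, 0), (0, 1), (1, 0), (1, 2), (1, 3), (1, 4), (1, 5), (2, 2), (2, 6), (3, 3), (3, 4), (3,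
      7), (4, 1), (4, 6), (5, 0), (5, 5), (5, 8), (6, 1), (6, 6), (6, 8)]
    cl := [0, 1, 0, 2, 0, 4, 3, 6, 5]
    chq := [(1, 3), (3, 1)]
    rng := [(0, 1), (0, 8), (1, 0), (1, 8), (2, 3), (2, 6), (3, 2), (3, 7), (4, 5), (4, 7), (5, 4), (5,
      8), (6, 2), (6, 8), (7, 3), (7, 4), (8, 0), (8, 1), (8, 5), (8, 6)]
    lev := [] }
  links := [[1, 7, 8, 4], [7, 0, 4, 2, 9, 10, 3, 11, 12, 5], [9, 1, 4, 13], [11, 1, 10, 14], [13, 2, 1,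
    0, 8, 6], [7, 1, 12, 15], [13, 4, 8, 15]]
  P := {
    a := 7
    N := 16
    nb := [402, 7869, 8722, 19458, 8519, 36994, 41232, 33059, 32977, 9222, 16906, 20490, 34850, 33364,
      3080, 12768]
    tri := [(0, 1, 4), (0, 1, 7), (0, 4, 8), (0, 7, 8), (1, 2, 4), (1, 2, 9), (1, 3, 10), (1, 3, 11),
      (1, 5, 7), (1, 5, 12), (1, 9, 10), (1, 11, 12), (2, 4, 13), (2, 9, 13), (3, 10, 14), (3, 11,
      14), (4, 6, 8), (4, 6, 13), (5, 7, 15), (5, 12, 15), (6, 8, 15), (6, 13, 15)]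
    fin := [0, 0, 0, 0, 0, 0, 6, 0, 6, 0, 10, 0, 12, 13, 14, 15]
    chd := [(6, 13)]
    steps := [(0, 1), (0, 2), (0, 3), (0, 4), (0, 5), (0, 7), (0, 9), (0, 11), (6, 8)] }
  rep := [0, 6, 10, 13, 12, 15, 14]

noncomputable def v3854 : Cov.CovD where
  P := 3
  N := 4
  pl := [3, 5, 7, 8]
  lev := [⟨[], [], [(0, 1)], [], [(0, 0, []), (1, 1, [3])]⟩,
    ⟨[], [(0, 0), (0, 1)], [(0, 0)], [2, 4], [(0, 0, []), (2, 0, []), (4, 0, [])]⟩,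
    ⟨[(0, 1)], [(1, 0), (1, 3)], [(0, 3)], [], [(2, 0, []), (6, 3, [1])]⟩,
    ⟨[(0, 1), (1, 2)], [(1, 0)], [], [2, 6], [(4, 0, [])]⟩,
    ⟨[(0, 1), (0, 2), (1, 2), (1, 3)], [(0, 0), (0, 1), (0, 3), (1, 0), (1, 1), (1, 3), (2,
      0), (2, 1), (2, 3)], [(1, 3)], [], [(1, 1, [3]), (6, 3, [1])]⟩,
    ⟨[(0, 1), (1, 2), (1, 3), (1, 4)], [(0, 0), (1, 0)], [], [4, 5], [(0, 0, [])]⟩,
    ⟨[(0, 4), (1, 4), (2, 4)], [(0, 1), (2, 3), (4, 1), (4, 3)], [(1, 3)], [5], [(1, 1,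
      [3]), (6, 3, [1])]⟩]
  Ta := [((0, 1), 0, 1), ((0, 8), 0, 5), ((2, 3), 0, 2), ((2, 6), 0, 3), ((4, 5), 0, 4), ((4, 7),
    0, 6)]
  Tb := [((0, 1, 8), 0, 1, 5), ((1, 0, 8), 1, 0, 5), ((2, 3, 6), 0, 2, 3), ((3, 2, 7), 2, 0, 6),
    ((4, 5, 7), 0, 4, 6), ((5, 4, 8), 4, 0, 5), ((6, 2, 8), 3, 0, 5), ((7, 3, 4), 6, 2, 0),
    ((8, 0, 1), 5, 0, 1), ((8, 0, 5), 5, 0, 4), ((8, 0, 6), 5, 0, 3), ((8, 1, 5), 5, 1, 4),
    ((8, 1, 6), 5, 1, 3), ((8, 5, 6), 5, 4, 3)]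
  Tc := []
  Td := [((1, 3), (1, 0), 0), ((1, 3), (1, 8), 5), ((3, 1), (6, 2), 0), ((3, 1), (6, 8), 5)]
  G := [[0, 0x42a8c2ae118e862244e1146, 0, 0xd16112495a1128c, 0xd1c11241611816815a4], [0, 0,
    0x111111c2111111a2c4, 0xc1115128c1119124c, 0x418111d121111d1816a4], [0, 0, 0,
    0x11514211611131c2c111828c, 0x1151111b1a2183116c1111ca1a4]]

noncomputable def n3854 : Ent := ⟨e3854, noF, [], [], []⟩

def c3854 : PLift (Cov.check n3854.C.D v3854 = true) := ⟨by decide +kernel⟩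

def b3854 : PLift (entF (fidx ts) 400 3854 n3854 = true) := ⟨by decide +kernel⟩

theorem g3854 : GoodF (fidx ts) 400 3854 := GoodF.ofV v3854 n3854 c3854.down b3854.down

/-- 41044644:700 -/
noncomputable def e3855 : SCfg where
  D := {
    a := 7
    L := 10
    kp := 7
    inn := [(0, 1), (0, 4), (1, 0), (1, 2), (1, 3), (1, 4), (1, 5), (2, 1), (2, 4), (3, 1), (4, 0), (4,
      1), (4, 2), (4, 6), (5, 1), (6, 4)]
    mix := [(0, 0), (0, 1), (1, 0), (1, 2), (1, 3), (1, 4), (1, 5), (2, 2), (2, 6), (3, 3), (3, 4), (3,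
      7), (4, 1), (4, 6), (5, 0), (5, 5), (5, 8), (6, 1), (6, 6), (6, 9)]
    cl := [0, 1, 0, 2, 0, 4, 3, 5, 6, 7]
    chq := [(1, 3), (3, 1)]
    rng := [(0, 1), (0, 8), (1, 0), (1, 9), (2, 3), (2, 6), (3, 2), (3, 7), (4, 5), (4, 7), (5, 4), (5,
      8), (6, 2), (6, 9), (7, 3), (7, 4), (8, 0), (8, 5), (9, 1), (9, 6)]
    lev := [] }
  links := [[1, 7, 8, 4], [7, 0, 4, 2, 9, 10, 3, 11, 12, 5], [9, 1, 4, 13], [11, 1, 10, 14], [13, 2, 1,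
    0, 8, 6], [7, 1, 12, 15], [13, 4, 8, 16]]
  P := {
    a := 7
    N := 17
    nb := [402, 7869, 8722, 19458, 8519, 36994, 74000, 33059, 65745, 9222, 16906, 20490, 34850, 66132,
      3080, 4256, 8512]
    tri := [(0, 1, 4), (0, 1, 7), (0, 4, 8), (0, 7, 8), (1, 2, 4), (1, 2, 9), (1, 3, 10), (1, 3, 11),
      (1, 5, 7), (1, 5, 12), (1, 9, 10), (1, 11, 12), (2, 4, 13), (2, 9, 13), (3, 10, 14), (3, 11,
      14), (4, 6, 8), (4, 6, 13), (5, 7, 15), (5, 12, 15), (6, 8, 16), (6, 13, 16)]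
    fin := [0, 0, 0, 0, 0, 0, 6, 0, 6, 0, 10, 0, 12, 13, 14, 15, 16]
    chd := [(6, 13)]
    steps := [(0, 1), (0, 2), (0, 3), (0, 4), (0, 5), (0, 7), (0, 9), (0, 11), (6, 8)] }
  rep := [0, 6, 10, 13, 12, 14, 15, 16]

noncomputable def v3855 : Cov.CovD where
  P := 3
  N := 5
  pl := [3, 5, 7, 8, 9]
  lev := [⟨[], [], [(0, 1)], [], [(0, 0, []), (1, 1, [3])]⟩,
    ⟨[], [(0, 0), (0, 1)], [(0, 0)], [2, 4], [(0, 0, []), (2, 0, []), (4, 0, [])]⟩,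
    ⟨[(0, 1)], [(1, 0), (1, 3)], [(0, 3)], [], [(2, 0, []), (6, 3, [1])]⟩,
    ⟨[(0, 1), (1, 2)], [(1, 0)], [], [2, 5], [(4, 0, [])]⟩,
    ⟨[(0, 1), (0, 2), (1, 2), (1, 3)], [(0, 0), (0, 1), (0, 3), (1, 0), (1, 1), (1, 3), (2,
      0), (2, 1), (2, 3)], [(1, 3)], [], [(1, 1, [3]), (6, 3, [1])]⟩,
    ⟨[(0, 1), (1, 2), (1, 3), (1, 4)], [(0, 0), (1, 0)], [], [4, 6], [(0, 0, [])]⟩,
    ⟨[(0, 4), (1, 4), (2, 4)], [(0, 1), (2, 3), (4, 1), (4, 3)], [(1, 3)], [7], [(1, 1,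
      [3]), (6, 3, [1])]⟩]
  Ta := [((0, 1), 0, 1), ((0, 8), 0, 6), ((2, 3), 0, 2), ((2, 6), 0, 3), ((4, 5), 0, 4), ((4, 7),
    0, 5)]
  Tb := [((0, 1, 8), 0, 1, 6), ((1, 0, 9), 1, 0, 7), ((2, 3, 6), 0, 2, 3), ((3, 2, 7), 2, 0, 5),
    ((4, 5, 7), 0, 4, 5), ((5, 4, 8), 4, 0, 6), ((6, 2, 9), 3, 0, 7), ((7, 3, 4), 5, 2, 0),
    ((8, 0, 5), 6, 0, 4), ((9, 1, 6), 7, 1, 3)]
  Tc := []
  Td := [((1, 3), (1, 0), 0), ((1, 3), (1, 9), 7), ((3, 1), (6, 2), 0), ((3, 1), (6, 9), 7)]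
  G := [[0, 0x42666a11428211822cea88ae11c86811ce, 0, 0xdd61124dda1128c, 0xddc1129961155611ca4],
    [0, 0, 0xd11d1162d11d11a2c8, 0xc1915124181d1d12c8, 0xc19151285111d18162c], [0, 0, 0,
    0xdd61d11c24d11dda1c28c, 0xddd71ddc1a29112c11511a9118ea4]]

noncomputable def n3855 : Ent := ⟨e3855, noF, [], [], [(16, 14, [1580095832788404724998799751142926758855362888449624481876434538497, 0]), (16, 15, [1685356702439545624007900436039642273970977273354372543760015876097, 0])]⟩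

def c3855 : PLift (Cov.check n3855.C.D v3855 = true) := ⟨by decide +kernel⟩

def b3855 : PLift (entF (fidx ts) 400 3855 n3855 = true) := ⟨by decide +kernel⟩

theorem g3855 : GoodF (fidx ts) 400 3855 := GoodF.ofV v3855 n3855 c3855.down b3855.down

/-- 41044645:701 -/
noncomputable def e3856 : SCfg where
  D := {
    a := 7
    L := 10
    kp := 7
    inn := [(0, 1), (0, 4), (1, 0), (1, 2), (1, 3), (1, 4), (1, 5), (1, 6), (2, 1), (2, 4), (3, 1), (3,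
      6), (4, 0), (4, 1), (4, 2), (5, 1), (6, 1), (6, 3)]
    mix := [(0, 0), (0, 1), (1, 0), (1, 2), (1, 3), (1, 4), (2, 2), (2, 5), (3, 3), (3, 6), (4, 1), (4,
      5), (4, 7), (5, 0), (5, 4), (5, 8), (6, 4), (6, 6), (6, 9)]
    cl := [0, 2, 0, 1, 1, 3, 4, 5, 6, 7]
    chq := [(0, 5), (5, 0)]
    rng := [(0, 1), (0, 8), (1, 0), (1, 7), (2, 3), (2, 5), (3, 2), (3, 6), (4, 8), (4, 9), (5, 2), (5,
      7), (6, 3), (6, 9), (7, 1), (7, 5), (8, 0), (8, 4), (9, 4), (9, 6)]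
    lev := [] }
  links := [[1, 7, 8, 4], [7, 0, 4, 2, 9, 10, 3, 6, 11, 5], [9, 1, 4, 12], [6, 1, 10, 13], [12, 2, 1, 0,
    8, 14], [7, 1, 11, 15], [11, 1, 3, 13, 16]]
  P := {
    a := 7
    N := 17
    nb := [402, 3837, 4626, 9282, 20743, 34946, 75786, 33059, 16529, 5126, 8714, 98402, 16916, 66632,
      4368, 2208, 10304]
    tri := [(0, 1, 4), (0, 1, 7), (0, 4, 8), (0, 7, 8), (1, 2, 4), (1, 2, 9), (1, 3, 6), (1, 3, 10),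
      (1, 5, 7), (1, 5, 11), (1, 6, 11), (1, 9, 10), (2, 4, 12), (2, 9, 12), (3, 6, 13), (3, 10,
      13), (4, 8, 14), (4, 12, 14), (5, 7, 15), (5, 11, 15), (6, 11, 16), (6, 13, 16)]
    fin := [0, 0, 0, 3, 0, 0, 3, 0, 8, 0, 3, 3, 12, 13, 14, 15, 16]
    chd := [(0, 14)]
    steps := [(0, 1), (0, 2), (0, 4), (0, 5), (0, 7), (0, 9), (3, 6), (3, 10), (3, 11)] }
  rep := [0, 3, 8, 12, 13, 14, 15, 16]

noncomputable def v3856 : Cov.CovD where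
  P := 3
  N := 5
  pl := [1, 5, 6, 8, 9]
  lev := [⟨[], [], [], [2], [(0, 0, [5])]⟩,
    ⟨[], [(0, 0), (0, 1)], [(0, 0), (0, 1), (1, 1)], [], [(0, 0, [5]), (2, 0, [5]), (3, 1,
      []), (4, 1, [])]⟩,
    ⟨[(0, 1)], [(1, 0), (1, 1)], [], [3], [(2, 0, [5])]⟩,
    ⟨[(0, 1), (1, 2)], [(1, 0), (1, 1)], [], [4], [(3, 1, [])]⟩,
    ⟨[(0, 1), (0, 2), (1, 2), (1, 3)], [(0, 0), (0, 5), (1, 0), (1, 1), (1, 5), (2, 0), (2,
      5)], [], [2, 3], [(7, 5, [0])]⟩,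
    ⟨[(0, 1), (1, 2), (1, 3), (1, 4)], [(0, 0), (1, 0), (1, 1)], [(0, 1)], [6], [(0, 0,
      [5]), (4, 1, [])]⟩,
    ⟨[(0, 1), (1, 2), (1, 3), (1, 4), (1, 5)], [(1, 0), (1, 1), (3, 1), (5, 1)], [], [4,
      7], [(4, 1, [])]⟩]
  Ta := [((0, 1), 0, 2), ((0, 8), 0, 6), ((2, 3), 0, 1), ((2, 5), 0, 3), ((3, 2), 1, 0), ((3, 6),
    1, 4), ((4, 8), 1, 6), ((4, 9), 1, 7)]
  Tb := [((0, 1, 8), 0, 2, 6), ((1, 0, 7), 2, 0, 5), ((2, 3, 5), 0, 1, 3), ((3, 2, 6), 1, 0, 4),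
    ((4, 8, 9), 1, 6, 7), ((5, 2, 7), 3, 0, 5), ((6, 3, 9), 4, 1, 7), ((7, 1, 5), 5, 2, 3),
    ((8, 0, 4), 6, 0, 1), ((9, 4, 6), 7, 1, 4)]
  Tc := []
  Td := [((0, 5), (0, 1), 2), ((0, 5), (0, 8), 6), ((0, 5), (2, 3), 1), ((0, 5), (2, 5), 3), ((5,
    0), (7, 1), 2), ((5, 0), (7, 5), 3)]
  G := [[0, 0, 0x42c2c2e929265182812891c4, 0x5214422c188215219ac8, 0xc2192155214692188c2], [0,
    0, 0x88448c88aa14545dc5dce2198828cc, 0x5dc1244c119c16688188812ac4,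
    0x5dc125dc12688188812cc2], [0, 0x11c1411c1211c18e24, 0, 0x611311528c245292c54c2888c9,
    0x211b1199291a2121ac648], [0, 0, 0, 0x81488188c451125151d1d2a8c, 0x411449112d1d1a26c8]]

noncomputable def n3856 : Ent := ⟨e3856, noF, [], [], []⟩

def c3856 : PLift (Cov.check n3856.C.D v3856 = true) := ⟨by decide +kernel⟩

def b3856 : PLift (entF (fidx ts) 400 3856 n3856 = true) := ⟨by decide +kernel⟩

theorem g3856 : GoodF (fidx ts) 400 3856 := GoodF.ofV v3856 n3856 c3856.down b3856.down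

/-- 41044645:702/1 -/
noncomputable def e3857 : SCfg where
  D := {
    a := 7
    L := 9
    kp := 6
    inn := [(0, 1), (0, 4), (1, 0), (1, 2), (1, 3), (1, 4), (1, 6), (2, 1), (2, 4), (3, 1), (3, 6), (4,
      0), (4, 1), (4, 2), (4, 5), (5, 4), (6, 1), (6, 3)]
    mix := [(0, 0), (0, 1), (1, 0), (1, 2), (1, 3), (1, 4), (1, 5), (2, 2), (2, 6), (3, 3), (3, 7), (4,
      1), (4, 6), (5, 1), (5, 6), (5, 7), (6, 4), (6, 7), (6, 8)]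
    cl := [0, 2, 0, 1, 1, 5, 4, 3, 6]
    chq := [(0, 3), (3, 0)]
    rng := [(0, 1), (0, 5), (1, 0), (1, 7), (2, 3), (2, 6), (3, 2), (3, 7), (4, 5), (4, 8), (5, 0), (5,
      4), (6, 2), (6, 7), (7, 1), (7, 3), (7, 6), (7, 8), (8, 4), (8, 7)]
    lev := [] }
  links := [[1, 7, 8, 4], [7, 0, 4, 2, 9, 10, 3, 6, 11, 12], [9, 1, 4, 13], [6, 1, 10, 14], [13, 2, 1, 0,
    8, 5], [13, 4, 8, 14], [11, 1, 3, 14, 15]]
  P := {
    a := 7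
    N := 16
    nb := [402, 7901, 8722, 17474, 8487, 24848, 51210, 4355, 16561, 9222, 16906, 36930, 2178, 16948,
      42344, 18496]
    tri := [(0, 1, 4), (0, 1, 7), (0, 4, 8), (0, 7, 8), (1, 2, 4), (1, 2, 9), (1, 3, 6), (1, 3, 10),
      (1, 6, 11), (1, 7, 12), (1, 9, 10), (1, 11, 12), (2, 4, 13), (2, 9, 13), (3, 6, 14), (3, 10,
      14), (4, 5, 8), (4, 5, 13), (5, 8, 14), (5, 13, 14), (6, 11, 15), (6, 14, 15)]
    fin := [0, 1, 0, 3, 0, 0, 3, 0, 8, 0, 1, 1, 12, 13, 3, 15]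
    chd := [(0, 3)]
    steps := [(0, 4), (0, 2), (0, 5), (0, 7), (0, 9), (1, 10), (1, 11), (3, 6), (3, 14)] }
  rep := [0, 1, 8, 3, 13, 12, 15]

noncomputable def v3857 : Cov.CovD where
  P := 3
  N := 4
  pl := [1, 5, 6, 8]
  lev := [⟨[], [], [], [2], [(0, 0, [3])]⟩,
    ⟨[], [(0, 0), (0, 1)], [(0, 0), (0, 1), (1, 1)], [5], [(0, 0, [3]), (2, 0, [3]), (3, 1,
      []), (4, 1, [])]⟩,
    ⟨[(0, 1)], [(1, 0), (1, 1)], [], [4], [(2, 0, [3])]⟩,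
    ⟨[(0, 1), (1, 2)], [(1, 0), (1, 1), (1, 3)], [(1, 3)], [], [(3, 1, []), (7, 3, [0])]⟩,
    ⟨[(0, 1), (0, 2), (1, 2), (1, 3)], [(0, 0), (1, 0), (1, 1), (2, 0)], [], [2, 4], []⟩,
    ⟨[(0, 4), (1, 4), (2, 4)], [(3, 3), (4, 3)], [], [2, 4], [(7, 3, [0])]⟩,
    ⟨[(0, 1), (1, 2), (1, 3), (1, 4)], [(1, 0), (1, 1), (1, 3), (3, 1), (3, 3), (5, 3)],
      [(1, 3)], [6], [(4, 1, []), (7, 3, [0])]⟩]
  Ta := [((0, 1), 0, 2), ((0, 5), 0, 5), ((2, 3), 0, 1), ((2, 6), 0, 4), ((3, 2), 1, 0), ((3, 7),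
    1, 3), ((4, 5), 1, 5), ((4, 8), 1, 6)]
  Tb := [((0, 1, 5), 0, 2, 5), ((1, 0, 7), 2, 0, 3), ((2, 3, 6), 0, 1, 4), ((3, 2, 7), 1, 0, 3),
    ((4, 5, 8), 1, 5, 6), ((5, 0, 4), 5, 0, 1), ((6, 2, 7), 4, 0, 3), ((7, 1, 3), 3, 2, 1),
    ((7, 1, 6), 3, 2, 4), ((7, 1, 8), 3, 2, 6), ((7, 3, 6), 3, 1, 4), ((7, 3, 8), 3, 1, 6),
    ((7, 6, 8), 3, 4, 6), ((8, 4, 7), 6, 1, 3)]
  Tc := []
  Td := [((0, 3), (0, 1), 2), ((0, 3), (0, 5), 5), ((0, 3), (2, 3), 1), ((0, 3), (2, 6), 4), ((3,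
    0), (7, 1), 2), ((3, 0), (7, 3), 1), ((3, 0), (7, 6), 4), ((3, 0), (7, 8), 6)]
  G := [[0, 0, 0x25c52a6112428c92ee11c8, 0x229112254132111214218c3c8,
    0x211121c1a45223112851a15c2], [0, 0, 0x544115498d2e11c98d26218c,
    0x4412d1813459512959126181889511acc, 0x52122d1d2a21ccd91148a], [0,
    0x111141a211128111211146e4, 0, 0x222d112225114c22c418222d812c9,
    0x2222931559246229112259922b1ac8], [0, 0, 0,
    0xc4122415912189151a9891922c8841544465d5828cd, 0x88995b3252826dd38292124112ec2]]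

noncomputable def n3857 : Ent := ⟨e3857, noF, [], [], []⟩

def c3857 : PLift (Cov.check n3857.C.D v3857 = true) := ⟨by decide +kernel⟩

def b3857 : PLift (entF (fidx ts) 400 3857 n3857 = true) := ⟨by decide +kernel⟩

theorem g3857 : GoodF (fidx ts) 400 3857 := GoodF.ofV v3857 n3857 c3857.down b3857.down

/-- 41044645:702/2 -/
noncomputable def e3858 : SCfg where
  D := {
    a := 7
    L := 9
    kp := 6
    inn := [(0, 1), (0, 4), (1, 0), (1, 2), (1, 3), (1, 4), (1, 6), (2, 1), (2, 4), (3, 1), (3, 6), (4,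
      0), (4, 1), (4, 2), (4, 5), (5, 4), (6, 1), (6, 3)]
    mix := [(0, 0), (0, 1), (1, 0), (1, 2), (1, 3), (1, 4), (1, 5), (2, 2), (2, 6), (3, 3), (3, 7), (4,
      1), (4, 6), (5, 1), (5, 6), (5, 8), (6, 4), (6, 7), (6, 8)]
    cl := [0, 3, 0, 1, 1, 6, 2, 5, 4]
    chq := [(0, 4), (4, 0)]
    rng := [(0, 1), (0, 5), (1, 0), (1, 8), (2, 3), (2, 6), (3, 2), (3, 7), (4, 5), (4, 8), (5, 0), (5,
      4), (6, 2), (6, 8), (7, 3), (7, 8), (8, 1), (8, 4), (8, 6), (8, 7)]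
    lev := [] }
  links := [[1, 7, 8, 4], [7, 0, 4, 2, 9, 10, 3, 6, 11, 12], [9, 1, 4, 13], [6, 1, 10, 14], [13, 2, 1, 0,
    8, 5], [13, 4, 8, 15], [11, 1, 3, 14, 15]]
  P := {
    a := 7
    N := 16
    nb := [402, 7901, 8722, 17474, 8487, 41232, 51210, 4355, 32945, 9222, 16906, 36930, 2178, 33332,
      33864, 26976]
    tri := [(0, 1, 4), (0, 1, 7), (0, 4, 8), (0, 7, 8), (1, 2, 4), (1, 2, 9), (1, 3, 6), (1, 3, 10),
      (1, 6, 11), (1, 7, 12), (1, 9, 10), (1, 11, 12), (2, 4, 13), (2, 9, 13), (3, 6, 14), (3, 10,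
      14), (4, 5, 8), (4, 5, 13), (5, 8, 15), (5, 13, 15), (6, 11, 15), (6, 14, 15)]
    fin := [0, 1, 0, 3, 0, 0, 3, 0, 8, 0, 1, 1, 12, 13, 14, 3]
    chd := [(0, 3)]
    steps := [(0, 4), (0, 2), (0, 5), (0, 7), (0, 9), (1, 10), (1, 11), (3, 6), (3, 15)] }
  rep := [0, 1, 13, 8, 3, 14, 12]

noncomputable def v3858 : Cov.CovD where
  P := 3
  N := 4
  pl := [1, 5, 6, 7]
  lev := [⟨[], [], [], [3], [(0, 0, [4])]⟩,
    ⟨[], [(0, 0), (0, 1)], [(0, 0), (0, 1), (1, 1)], [6], [(0, 0, [4]), (2, 0, [4]), (3, 1,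
      []), (4, 1, [])]⟩,
    ⟨[(0, 1)], [(1, 0), (1, 1)], [], [2], [(2, 0, [4])]⟩,
    ⟨[(0, 1), (1, 2)], [(1, 0), (1, 1)], [], [5], [(3, 1, [])]⟩,
    ⟨[(0, 1), (0, 2), (1, 2), (1, 3)], [(0, 0), (1, 0), (1, 1), (2, 0)], [], [2, 3], []⟩,
    ⟨[(0, 4), (1, 4), (2, 4)], [(4, 4)], [], [2, 3], [(8, 4, [0])]⟩,
    ⟨[(0, 1), (1, 2), (1, 3), (1, 4)], [(1, 0), (1, 1), (1, 4), (3, 1), (3, 4), (5, 4)],
      [(1, 4)], [5], [(4, 1, []), (8, 4, [0])]⟩]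
  Ta := [((0, 1), 0, 3), ((0, 5), 0, 6), ((2, 3), 0, 1), ((2, 6), 0, 2), ((3, 2), 1, 0), ((3, 7),
    1, 5), ((4, 5), 1, 6), ((4, 8), 1, 4)]
  Tb := [((0, 1, 5), 0, 3, 6), ((1, 0, 8), 3, 0, 4), ((2, 3, 6), 0, 1, 2), ((3, 2, 7), 1, 0, 5),
    ((4, 5, 8), 1, 6, 4), ((5, 0, 4), 6, 0, 1), ((6, 2, 8), 2, 0, 4), ((7, 3, 8), 5, 1, 4),
    ((8, 1, 4), 4, 3, 1), ((8, 1, 6), 4, 3, 2), ((8, 1, 7), 4, 3, 5), ((8, 4, 6), 4, 1, 2),
    ((8, 4, 7), 4, 1, 5), ((8, 6, 7), 4, 2, 5)]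
  Tc := []
  Td := [((0, 4), (0, 1), 3), ((0, 4), (0, 5), 6), ((0, 4), (2, 3), 1), ((0, 4), (2, 6), 2), ((4,
    0), (8, 1), 3), ((4, 0), (8, 4), 1), ((4, 0), (8, 6), 2), ((4, 0), (8, 7), 5)]
  G := [[0, 0, 0, 0x1294124c4454488c225891c21164619558211a151918849ca,
    0x322222512221a3891c112b1111b1c2211a13192cc], [0, 0, 0,
    0x5d58214549c9c2114128c1d912498d1528ce, 0x41122485a1251823911b822c5291929822342d1a21ce],
    [0, 0x111284114118c41111c11868a3, 0x24c32611c2265822c22a11c12a94c1,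
    0x61a1c3131c542121c51b1c98c1, 0x6121a3191a523132a6122a58c1], [0, 0,
    0x985da62444144664442a891c996a2cc1, 0x515128112c85188924415128cc191c2847,
    0x9591228d1222d1d1a28c5]]

noncomputable def n3858 : Ent := ⟨e3858, noF, [], [], []⟩

def c3858 : PLift (Cov.check n3858.C.D v3858 = true) := ⟨by decide +kernel⟩

def b3858 : PLift (entF (fidx ts) 400 3858 n3858 = true) := ⟨by decide +kernel⟩

theorem g3858 : GoodF (fidx ts) 400 3858 := GoodF.ofV v3858 n3858 c3858.down b3858.down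

/-- 41044645:702 -/
noncomputable def e3859 : SCfg where
  D := {
    a := 7
    L := 10
    kp := 7
    inn := [(0, 1), (0, 4), (1, 0), (1, 2), (1, 3), (1, 4), (1, 6), (2, 1), (2, 4), (3, 1), (3, 6), (4,
      0), (4, 1), (4, 2), (4, 5), (5, 4), (6, 1), (6, 3)]
    mix := [(0, 0), (0, 1), (1, 0), (1, 2), (1, 3), (1, 4), (1, 5), (2, 2), (2, 6), (3, 3), (3, 7), (4,
      1), (4, 6), (5, 1), (5, 6), (5, 8), (6, 4), (6, 7), (6, 9)]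
    cl := [0, 2, 0, 1, 1, 5, 3, 4, 6, 7]
    chq := [(2, 3), (3, 2)]
    rng := [(0, 1), (0, 5), (1, 0), (1, 8), (2, 3), (2, 6), (3, 2), (3, 7), (4, 5), (4, 9), (5, 0), (5,
      4), (6, 2), (6, 8), (7, 3), (7, 9), (8, 1), (8, 6), (9, 4), (9, 7)]
    lev := [] }
  links := [[1, 7, 8, 4], [7, 0, 4, 2, 9, 10, 3, 6, 11, 12], [9, 1, 4, 13], [6, 1, 10, 14], [13, 2, 1, 0,
    8, 5], [13, 4, 8, 15], [11, 1, 3, 14, 16]]
  P := {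
    a := 7
    N := 17
    nb := [402, 7901, 8722, 17474, 8487, 41232, 83978, 4355, 32945, 9222, 16906, 69698, 2178, 33332,
      66632, 8480, 18496]
    tri := [(0, 1, 4), (0, 1, 7), (0, 4, 8), (0, 7, 8), (1, 2, 4), (1, 2, 9), (1, 3, 6), (1, 3, 10),
      (1, 6, 11), (1, 7, 12), (1, 9, 10), (1, 11, 12), (2, 4, 13), (2, 9, 13), (3, 6, 14), (3, 10,
      14), (4, 5, 8), (4, 5, 13), (5, 8, 15), (5, 13, 15), (6, 11, 16), (6, 14, 16)]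
    fin := [0, 0, 0, 3, 0, 5, 3, 0, 5, 0, 3, 3, 12, 13, 14, 15, 16]
    chd := [(5, 13)]
    steps := [(0, 1), (0, 2), (0, 4), (0, 7), (0, 9), (3, 6), (3, 10), (3, 11), (5, 8)] }
  rep := [0, 3, 5, 13, 14, 12, 15, 16]

noncomputable def v3859 : Cov.CovD where
  P := 3
  N := 5
  pl := [5, 7, 8, 9]
  lev := [⟨[], [], [(0, 2)], [], [(0, 0, []), (1, 2, [3])]⟩,
    ⟨[], [(0, 0), (0, 1), (0, 2)], [(0, 0), (0, 1), (1, 1)], [5], [(0, 0, []), (2, 0, []),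
      (3, 1, []), (4, 1, [])]⟩,
    ⟨[(0, 1)], [(1, 0), (1, 1), (1, 3)], [(0, 3)], [], [(2, 0, []), (6, 3, [2])]⟩,
    ⟨[(0, 1), (1, 2)], [(1, 0), (1, 1)], [], [4], [(3, 1, [])]⟩,
    ⟨[(0, 1), (0, 2), (1, 2), (1, 3)], [(0, 0), (0, 2), (0, 3), (1, 0), (1, 1), (1, 2), (1,
      3), (2, 0), (2, 2), (2, 3)], [(2, 3)], [], [(1, 2, [3]), (6, 3, [2])]⟩,
    ⟨[(0, 4), (1, 4), (2, 4)], [(0, 2), (2, 3), (4, 2), (4, 3)], [(2, 3)], [6], [(1, 2,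
      [3]), (6, 3, [2])]⟩,
    ⟨[(0, 1), (1, 2), (1, 3), (1, 4)], [(1, 0), (1, 1), (3, 1)], [], [4, 7], [(4, 1, [])]⟩]
  Ta := [((0, 1), 0, 2), ((0, 5), 0, 5), ((2, 3), 0, 1), ((2, 6), 0, 3), ((3, 2), 1, 0), ((3, 7),
    1, 4), ((4, 5), 1, 5), ((4, 9), 1, 7)]
  Tb := [((0, 1, 5), 0, 2, 5), ((1, 0, 8), 2, 0, 6), ((2, 3, 6), 0, 1, 3), ((3, 2, 7), 1, 0, 4),
    ((4, 5, 9), 1, 5, 7), ((5, 0, 4), 5, 0, 1), ((6, 2, 8), 3, 0, 6), ((7, 3, 9), 4, 1, 7),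
    ((8, 1, 6), 6, 2, 3), ((9, 4, 7), 7, 1, 4)]
  Tc := []
  Td := [((2, 3), (1, 0), 0), ((2, 3), (1, 8), 6), ((3, 2), (6, 2), 0), ((3, 2), (6, 8), 6)]
  G := [[0, 0, 0x2ac226ab3cbb6a914722c2e68e22929e38e5186, 0xc2cd1292d152a32d13abd192c4,
    0x277b1b22b1c42a914923b11db318ec2], [0, 0, 0xd4dd6a21482221852dd5ed8e21c8818831ce,
    0xdddd1224dddd1228c, 0xdddb124d212dd9d1a23c2], [0, 0x111d1111d162111d1111d162c8, 0,
    0x77c279522c729552a4b259a8a29d552c63c88249,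
    0x27a629372a379354b29148c91d8a128a93a32292124e49], [0, 0, 0,
    0x55c51522dd5122cd89122888c422ddc822cd, 0x52d8d5dbb24dd912ddadd392ac8222483]]

noncomputable def n3859 : Ent := ⟨e3859, noF, [], [], [(15, 14, [1685382413448253767852309107433119732572617628602273068445380710401, 0]), (15, 16, [1580044410770988437309982408355971841652082177953823432505704914945, 0])]⟩

def c3859 : PLift (Cov.check n3859.C.D v3859 = true) := ⟨by decide +kernel⟩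

def b3859 : PLift (entF (fidx ts) 400 3859 n3859 = true) := ⟨by decide +kernel⟩

theorem g3859 : GoodF (fidx ts) 400 3859 := GoodF.ofV v3859 n3859 c3859.down b3859.down

/-- 41044564:703/1 -/
noncomputable def e3860 : SCfg where
  D := {
    a := 7
    L := 9
    kp := 6
    inn := [(0, 1), (0, 5), (1, 0), (1, 2), (1, 3), (1, 4), (1, 5), (2, 1), (2, 5), (3, 1), (3, 4), (4,
      1), (4, 3), (5, 0), (5, 1), (5, 2), (5, 6), (6, 5)]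
    mix := [(0, 0), (0, 1), (1, 0), (1, 2), (1, 3), (1, 4), (1, 5), (2, 2), (2, 6), (3, 4), (3, 7), (4,
      5), (4, 7), (4, 8), (5, 1), (5, 6), (6, 1), (6, 6), (6, 7)]
    cl := [0, 3, 0, 5, 1, 1, 4, 2, 6]
    chq := [(0, 2), (2, 0)]
    rng := [(0, 1), (0, 5), (1, 0), (1, 7), (2, 3), (2, 6), (3, 2), (3, 4), (4, 3), (4, 7), (5, 0), (5,
      8), (6, 2), (6, 7), (7, 1), (7, 4), (7, 6), (7, 8), (8, 5), (8, 7)]
    lev := [] }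
  links := [[1, 7, 8, 5], [7, 0, 5, 2, 9, 10, 11, 3, 4, 12], [9, 1, 5, 13], [4, 1, 11, 14], [12, 1, 3,
    14, 15], [13, 2, 1, 0, 8, 6], [13, 5, 8, 14]]
  P := {
    a := 7
    N := 16
    nb := [418, 7869, 8738, 18450, 53258, 8519, 24864, 4355, 16609, 9222, 2562, 17418, 32914, 16996,
      43352, 20496]
    tri := [(0, 1, 5), (0, 1, 7), (0, 5, 8), (0, 7, 8), (1, 2, 5), (1, 2, 9), (1, 3, 4), (1, 3, 11),
      (1, 4, 12), (1, 7, 12), (1, 9, 10), (1, 10, 11), (2, 5, 13), (2, 9, 13), (3, 4, 14), (3, 11,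
      14), (4, 12, 15), (4, 14, 15), (5, 6, 8), (5, 6, 13), (6, 8, 14), (6, 13, 14)]
    fin := [0, 1, 0, 3, 3, 0, 0, 0, 8, 0, 10, 1, 1, 13, 3, 15]
    chd := [(0, 3)]
    steps := [(0, 5), (0, 2), (0, 6), (0, 7), (0, 9), (1, 11), (1, 12), (3, 4), (3, 14)] }
  rep := [0, 1, 3, 8, 13, 10, 15]

noncomputable def v3860 : Cov.CovD where
  P := 3
  N := 4
  pl := [1, 3, 6, 8]
  lev := [⟨[], [], [], [3], [(0, 0, [2])]⟩,
    ⟨[], [(0, 0), (0, 1)], [(0, 0), (0, 1), (1, 1)], [5], [(0, 0, [2]), (2, 0, [2]), (4, 1,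
      []), (5, 1, [])]⟩,
    ⟨[(0, 1)], [(1, 0), (1, 1)], [], [4], [(2, 0, [2])]⟩,
    ⟨[(0, 1), (1, 2)], [(1, 0), (1, 1), (1, 2)], [(1, 2)], [], [(4, 1, []), (7, 2, [0])]⟩,
    ⟨[(0, 1), (1, 2), (1, 3)], [(1, 0), (1, 1), (1, 2), (3, 1), (3, 2)], [(1, 2)], [6],
      [(5, 1, []), (7, 2, [0])]⟩,
    ⟨[(0, 1), (0, 2), (1, 2), (1, 3), (1, 4)], [(0, 0), (1, 0), (1, 1), (2, 0)], [], [3,
      4], []⟩,
    ⟨[(0, 5), (1, 5), (2, 5)], [(3, 2), (4, 2), (5, 2)], [], [3, 4], [(7, 2, [0])]⟩]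
  Ta := [((0, 1), 0, 3), ((0, 5), 0, 1), ((2, 3), 0, 5), ((2, 6), 0, 4), ((4, 3), 1, 5), ((4, 7),
    1, 2), ((5, 0), 1, 0), ((5, 8), 1, 6)]
  Tb := [((0, 1, 5), 0, 3, 1), ((1, 0, 7), 3, 0, 2), ((2, 3, 6), 0, 5, 4), ((3, 2, 4), 5, 0, 1),
    ((4, 3, 7), 1, 5, 2), ((5, 0, 8), 1, 0, 6), ((6, 2, 7), 4, 0, 2), ((7, 1, 4), 2, 3, 1),
    ((7, 1, 6), 2, 3, 4), ((7, 1, 8), 2, 3, 6), ((7, 4, 6), 2, 1, 4), ((7, 4, 8), 2, 1, 6),
    ((7, 6, 8), 2, 4, 6), ((8, 5, 7), 6, 1, 2)]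
  Tc := []
  Td := [((0, 2), (0, 1), 3), ((0, 2), (0, 5), 1), ((0, 2), (2, 3), 5), ((0, 2), (2, 6), 4), ((2,
    0), (7, 1), 3), ((2, 0), (7, 4), 1), ((2, 0), (7, 6), 4), ((2, 0), (7, 8), 6)]
  G := [[0, 0, 0x1228141842634111c281c3, 0xd2d2541d2d2941c2,
    0x926218291112882a213c1121411284c6], [0, 0x1111c1241111c8221111c4211481188c1111c18ee,
    0x8112241184c8112841184c42612182a181cb, 0,
    0x1182826192e91311119882a82a983c11119141111914c6], [0, 0, 0x18242625181c222291c1,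
    0xc214d212586d2d2c12c1, 0x815211121c11282c11284412a21482a214c7], [0, 0,
    0x811481126841184118a442614182a121cd, 0,
    0x11119121111982c818141111984c926192e91482a82a914c7]]

noncomputable def n3860 : Ent := ⟨e3860, noF, [], [], []⟩

def c3860 : PLift (Cov.check n3860.C.D v3860 = true) := ⟨by decide +kernel⟩

def b3860 : PLift (entF (fidx ts) 400 3860 n3860 = true) := ⟨by decide +kernel⟩

theorem g3860 : GoodF (fidx ts) 400 3860 := GoodF.ofV v3860 n3860 c3860.down b3860.down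

/-- 41044564:703/2 -/
noncomputable def e3861 : SCfg where
  D := {
    a := 7
    L := 9
    kp := 6
    inn := [(0, 1), (0, 5), (1, 0), (1, 2), (1, 3), (1, 4), (1, 5), (2, 1), (2, 5), (3, 1), (3, 4), (4,
      1), (4, 3), (5, 0), (5, 1), (5, 2), (5, 6), (6, 5)]
    mix := [(0, 0), (0, 1), (1, 0), (1, 2), (1, 3), (1, 4), (1, 5), (2, 2), (2, 6), (3, 4), (3, 7), (4,
      5), (4, 7), (4, 8), (5, 1), (5, 6), (6, 1), (6, 6), (6, 8)]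
    cl := [0, 3, 0, 6, 1, 1, 2, 4, 5]
    chq := [(2, 3), (3, 2)]
    rng := [(0, 1), (0, 5), (1, 0), (1, 8), (2, 3), (2, 6), (3, 2), (3, 4), (4, 3), (4, 7), (5, 0), (5,
      8), (6, 2), (6, 8), (7, 4), (7, 8), (8, 1), (8, 5), (8, 6), (8, 7)]
    lev := [] }
  links := [[1, 7, 8, 5], [7, 0, 5, 2, 9, 10, 11, 3, 4, 12], [9, 1, 5, 13], [4, 1, 11, 14], [12, 1, 3,
    14, 15], [13, 2, 1, 0, 8, 6], [13, 5, 8, 15]]
  P := {
    a := 7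
    N := 16
    nb := [418, 7869, 8738, 18450, 53258, 8519, 41248, 4355, 32993, 9222, 2562, 17418, 32914, 33380,
      34840, 29008]
    tri := [(0, 1, 5), (0, 1, 7), (0, 5, 8), (0, 7, 8), (1, 2, 5), (1, 2, 9), (1, 3, 4), (1, 3, 11),
      (1, 4, 12), (1, 7, 12), (1, 9, 10), (1, 10, 11), (2, 5, 13), (2, 9, 13), (3, 4, 14), (3, 11,
      14), (4, 12, 15), (4, 14, 15), (5, 6, 8), (5, 6, 13), (6, 8, 15), (6, 13, 15)]
    fin := [0, 1, 0, 3, 3, 0, 6, 0, 6, 0, 10, 1, 1, 13, 14, 3]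
    chd := [(6, 13)]
    steps := [(0, 5), (0, 2), (0, 7), (0, 9), (1, 11), (1, 12), (3, 4), (3, 15), (6, 8)] }
  rep := [0, 1, 13, 6, 14, 3, 10]

noncomputable def v3861 : Cov.CovD where
  P := 3
  N := 4
  pl := [3, 7, 8]
  lev := [⟨[], [], [(0, 3)], [], [(0, 0, []), (1, 3, [2])]⟩,
    ⟨[], [(0, 0), (0, 1), (0, 3)], [(0, 0), (0, 1), (1, 1)], [6], [(0, 0, []), (2, 0, []),
      (4, 1, []), (5, 1, [])]⟩,
    ⟨[(0, 1)], [(1, 0), (1, 1), (1, 2)], [(0, 2)], [], [(2, 0, []), (6, 2, [3])]⟩,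
    ⟨[(0, 1), (1, 2)], [(1, 0), (1, 1)], [], [4], [(4, 1, [])]⟩,
    ⟨[(0, 1), (1, 2), (1, 3)], [(1, 0), (1, 1), (3, 1)], [], [4, 5], [(5, 1, [])]⟩,
    ⟨[(0, 1), (0, 2), (1, 2), (1, 3), (1, 4)], [(0, 0), (0, 2), (0, 3), (1, 0), (1, 1), (1,
      2), (1, 3), (2, 0), (2, 2), (2, 3)], [(2, 3)], [], [(1, 3, [2]), (6, 2, [3])]⟩,
    ⟨[(0, 5), (1, 5), (2, 5)], [(0, 3), (2, 2), (5, 2), (5, 3)], [(2, 3)], [5], [(1, 3,
      [2]), (6, 2, [3])]⟩]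
  Ta := [((0, 1), 0, 3), ((0, 5), 0, 1), ((2, 3), 0, 6), ((2, 6), 0, 2), ((4, 3), 1, 6), ((4, 7),
    1, 4), ((5, 0), 1, 0), ((5, 8), 1, 5)]
  Tb := [((0, 1, 5), 0, 3, 1), ((1, 0, 8), 3, 0, 5), ((2, 3, 6), 0, 6, 2), ((3, 2, 4), 6, 0, 1),
    ((4, 3, 7), 1, 6, 4), ((5, 0, 8), 1, 0, 5), ((6, 2, 8), 2, 0, 5), ((7, 4, 8), 4, 1, 5),
    ((8, 1, 5), 5, 3, 1), ((8, 1, 6), 5, 3, 2), ((8, 1, 7), 5, 3, 4), ((8, 5, 6), 5, 1, 2),
    ((8, 5, 7), 5, 1, 4), ((8, 6, 7), 5, 2, 4)]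
  Tc := []
  Td := [((2, 3), (6, 2), 0), ((2, 3), (6, 8), 5), ((3, 2), (1, 0), 0), ((3, 2), (1, 8), 5)]
  G := [[0, 0, 0, 0x4858156485815358c592849c1c19b94c2,
    0x8121392932c842b92a1219952821221119524e], [0, 0x1141111a541141118112acc2, 0,
    0x8d54d959cd248d54d9481dd28c2, 0x8839118d2248a32b9c281b132821a39219d224e], [0, 0,
    0xc262c26158c2a2c2a194c1, 0xd121115c181cd12c111958c2, 0xb12a11195282222212a959828885a45],
    [0, 0, 0xa8624cc2e8e132824e64ae2cd22c1, 0xd1d1c11134d18d1115a8c2,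
    0xa1b111d22832812a11a5a8888c2a45]]

noncomputable def n3861 : Ent := ⟨e3861, noF, [], [], []⟩

def c3861 : PLift (Cov.check n3861.C.D v3861 = true) := ⟨by decide +kernel⟩

def b3861 : PLift (entF (fidx ts) 400 3861 n3861 = true) := ⟨by decide +kernel⟩

theorem g3861 : GoodF (fidx ts) 400 3861 := GoodF.ofV v3861 n3861 c3861.down b3861.down

/-- 41044564:703 -/
noncomputable def e3862 : SCfg where
  D := {
    a := 7
    L := 10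
    kp := 7
    inn := [(0, 1), (0, 5), (1, 0), (1, 2), (1, 3), (1, 4), (1, 5), (2, 1), (2, 5), (3, 1), (3, 4), (4,
      1), (4, 3), (5, 0), (5, 1), (5, 2), (5, 6), (6, 5)]
    mix := [(0, 0), (0, 1), (1, 0), (1, 2), (1, 3), (1, 4), (1, 5), (2, 2), (2, 6), (3, 4), (3, 7), (4,
      5), (4, 7), (4, 8), (5, 1), (5, 6), (6, 1), (6, 6), (6, 9)]
    cl := [0, 2, 0, 5, 1, 1, 3, 4, 6, 7]
    chq := [(2, 3), (3, 2)]
    rng := [(0, 1), (0, 5), (1, 0), (1, 9), (2, 3), (2, 6), (3, 2), (3, 4), (4, 3), (4, 7), (5, 0), (5,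
      8), (6, 2), (6, 9), (7, 4), (7, 8), (8, 5), (8, 7), (9, 1), (9, 6)]
    lev := [] }
  links := [[1, 7, 8, 5], [7, 0, 5, 2, 9, 10, 11, 3, 4, 12], [9, 1, 5, 13], [4, 1, 11, 14], [12, 1, 3,
    14, 15], [13, 2, 1, 0, 8, 6], [13, 5, 8, 16]]
  P := {
    a := 7
    N := 17
    nb := [418, 7869, 8738, 18450, 53258, 8519, 74016, 4355, 65761, 9222, 2562, 17418, 32914, 66148,
      34840, 20496, 8512]
    tri := [(0, 1, 5), (0, 1, 7), (0, 5, 8), (0, 7, 8), (1, 2, 5), (1, 2, 9), (1, 3, 4), (1, 3, 11),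
      (1, 4, 12), (1, 7, 12), (1, 9, 10), (1, 10, 11), (2, 5, 13), (2, 9, 13), (3, 4, 14), (3, 11,
      14), (4, 12, 15), (4, 14, 15), (5, 6, 8), (5, 6, 13), (6, 8, 16), (6, 13, 16)]
    fin := [0, 0, 0, 3, 3, 0, 6, 0, 6, 0, 10, 3, 3, 13, 14, 15, 16]
    chd := [(6, 13)]
    steps := [(0, 1), (0, 2), (0, 5), (0, 7), (0, 9), (3, 4), (3, 11), (3, 12), (6, 8)] }
  rep := [0, 3, 6, 13, 14, 10, 15, 16]

noncomputable def v3862 : Cov.CovD where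
  P := 3
  N := 5
  pl := [3, 7, 8, 9]
  lev := [⟨[], [], [(0, 2)], [], [(0, 0, []), (1, 2, [3])]⟩,
    ⟨[], [(0, 0), (0, 1), (0, 2)], [(0, 0), (0, 1), (1, 1)], [5], [(0, 0, []), (2, 0, []),
      (4, 1, []), (5, 1, [])]⟩,
    ⟨[(0, 1)], [(1, 0), (1, 1), (1, 3)], [(0, 3)], [], [(2, 0, []), (6, 3, [2])]⟩,
    ⟨[(0, 1), (1, 2)], [(1, 0), (1, 1)], [], [4], [(4, 1, [])]⟩,
    ⟨[(0, 1), (1, 2), (1, 3)], [(1, 0), (1, 1), (3, 1)], [], [4, 6], [(5, 1, [])]⟩,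
    ⟨[(0, 1), (0, 2), (1, 2), (1, 3), (1, 4)], [(0, 0), (0, 2), (0, 3), (1, 0), (1, 1), (1,
      2), (1, 3), (2, 0), (2, 2), (2, 3)], [(2, 3)], [], [(1, 2, [3]), (6, 3, [2])]⟩,
    ⟨[(0, 5), (1, 5), (2, 5)], [(0, 2), (2, 3), (5, 2), (5, 3)], [(2, 3)], [7], [(1, 2,
      [3]), (6, 3, [2])]⟩]
  Ta := [((0, 1), 0, 2), ((0, 5), 0, 1), ((2, 3), 0, 5), ((2, 6), 0, 3), ((4, 3), 1, 5), ((4, 7),
    1, 4), ((5, 0), 1, 0), ((5, 8), 1, 6)]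
  Tb := [((0, 1, 5), 0, 2, 1), ((1, 0, 9), 2, 0, 7), ((2, 3, 6), 0, 5, 3), ((3, 2, 4), 5, 0, 1),
    ((4, 3, 7), 1, 5, 4), ((5, 0, 8), 1, 0, 6), ((6, 2, 9), 3, 0, 7), ((7, 4, 8), 4, 1, 6),
    ((8, 5, 7), 6, 1, 4), ((9, 1, 6), 7, 2, 3)]
  Tc := []
  Td := [((2, 3), (1, 0), 0), ((2, 3), (1, 9), 7), ((3, 2), (6, 2), 0), ((3, 2), (6, 9), 7)]
  G := [[0, 0, 0xca6ca66ca6ca635162629622c1cc82c8c85914a, 0xd12d1d1952d1d1ad1d1392c4,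
    0xb12b1b159491291919531319312cac2], [0, 0xd1d1d1e124d12d1d1c328c,
    0x624214a2821c6ac6a921cc42e8ec2e8e131c8421ce, 0xd1d1d1d224d14d1d19628c,
    0xb14b1b19642131c311391a898985a3c2], [0, 0, 0, 0xc95c956c95c953528c59c59ac59c593924c,
    0xa93a936a93a93354a838912911d31b2b2bb229cc8], [0, 0, 0,
    0x51422489548dd48ddd22c59c59922c44822c8422cd,
    0x89328bb28bbd2438942b8883913318839385aec2282483]]

noncomputable def n3862 : Ent := ⟨e3862, noF, [], [], [(16, 14, [1580095832788404724998799751142926758855362888449624481876434567169, 0]), (16, 15, [1685356702439545624007900436039642273970977273354372543760015904769, 0])]⟩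

def c3862 : PLift (Cov.check n3862.C.D v3862 = true) := ⟨by decide +kernel⟩

def b3862 : PLift (entF (fidx ts) 400 3862 n3862 = true) := ⟨by decide +kernel⟩

theorem g3862 : GoodF (fidx ts) 400 3862 := GoodF.ofV v3862 n3862 c3862.down b3862.down

/-- 41044646:704 -/
noncomputable def e3863 : SCfg where
  D := {
    a := 7
    L := 10
    kp := 8
    inn := [(0, 1), (0, 4), (1, 0), (1, 2), (1, 3), (1, 4), (1, 5), (1, 6), (2, 1), (2, 4), (3, 1), (3,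
      6), (4, 0), (4, 1), (4, 2), (5, 1), (5, 6), (6, 1), (6, 3), (6, 5)]
    mix := [(0, 0), (0, 1), (1, 0), (1, 2), (1, 3), (1, 4), (2, 2), (2, 5), (3, 3), (3, 6), (4, 1), (4,
      5), (4, 7), (5, 2), (5, 8), (6, 6), (6, 8), (6, 9)]
    cl := [0, 1, 0, 3, 8, 2, 4, 6, 5, 7]
    chq := [(0, 3), (0, 4), (0, 6), (0, 7), (3, 0), (4, 0), (6, 0), (7, 0)]
    rng := [(0, 1), (0, 4), (1, 0), (1, 7), (2, 5), (2, 8), (3, 4), (3, 6), (4, 0), (4, 3), (5, 2), (5,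
      7), (6, 3), (6, 9), (7, 1), (7, 5), (8, 2), (8, 9), (9, 6), (9, 8)]
    lev := [] }
  links := [[1, 7, 8, 4], [7, 0, 4, 2, 9, 5, 6, 3, 10, 11], [9, 1, 4, 12], [10, 1, 6, 13], [12, 2, 1, 0,
    8, 14], [6, 1, 9, 15], [13, 3, 1, 5, 15, 16]]
  P := {
    a := 7
    N := 17
    nb := [402, 3837, 4626, 9282, 20743, 33346, 106538, 2307, 16529, 36902, 10250, 1154, 16916, 66632,
      4368, 66144, 41024]
    tri := [(0, 1, 4), (0, 1, 7), (0, 4, 8), (0, 7, 8), (1, 2, 4), (1, 2, 9), (1, 3, 6), (1, 3, 10),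
      (1, 5, 6), (1, 5, 9), (1, 7, 11), (1, 10, 11), (2, 4, 12), (2, 9, 12), (3, 6, 13), (3, 10,
      13), (4, 8, 14), (4, 12, 14), (5, 6, 15), (5, 9, 15), (6, 13, 16), (6, 15, 16)]
    fin := [0, 0, 0, 0, 0, 0, 0, 0, 8, 0, 10, 11, 12, 13, 14, 15, 16]
    chd := [(0, 10), (0, 13), (0, 14), (0, 16)]
    steps := [(0, 1), (0, 2), (0, 3), (0, 4), (0, 5), (0, 6), (0, 7), (0, 9)] }
  rep := [0, 8, 12, 10, 13, 15, 14, 16, 11]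

noncomputable def v3863 : Cov.CovD where
  P := 3
  N := 6
  pl := [1, 4, 5, 8]
  lev := [⟨[], [], [], [1], [(0, 0, [3, 4, 6, 7])]⟩,
    ⟨[], [(0, 0), (0, 3)], [(0, 0), (0, 3)], [8], [(0, 0, [3, 4, 6, 7]), (2, 0, [3, 4, 6,
      7]), (3, 3, [0])]⟩,
    ⟨[(0, 1)], [(1, 0), (1, 3)], [], [2], [(2, 0, [3, 4, 6, 7])]⟩,
    ⟨[(0, 1), (1, 2)], [(1, 0), (1, 3), (1, 4)], [(3, 4)], [], [(3, 3, [0]), (6, 4, [0])]⟩,
    ⟨[(0, 1), (0, 2), (1, 2), (1, 3)], [(0, 0), (0, 6), (1, 0), (1, 3), (1, 6), (2, 0), (2,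
      6)], [], [1, 2], [(7, 6, [0])]⟩,
    ⟨[(0, 1), (1, 2), (1, 3), (1, 4)], [(1, 0), (1, 3), (2, 0)], [], [5], [(2, 0, [3, 4, 6,
      7])]⟩,
    ⟨[(0, 1), (1, 2), (1, 3), (1, 4), (1, 5), (3, 5)], [(1, 0), (1, 3), (1, 4), (1, 7), (3,
      3), (3, 4), (3, 7), (5, 0), (5, 4), (5, 7)], [(4, 7)], [5], [(6, 4, [0]), (9, 7, [0])]⟩]
  Ta := [((0, 1), 0, 1), ((0, 4), 0, 8), ((2, 5), 0, 2), ((2, 8), 0, 5)]
  Tb := [((0, 1, 4), 0, 1, 8), ((1, 0, 7), 1, 0, 6), ((2, 5, 8), 0, 2, 5), ((3, 4, 6), 3, 8, 4),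
    ((4, 0, 3), 8, 0, 3), ((5, 2, 7), 2, 0, 6), ((6, 3, 9), 4, 3, 7), ((7, 1, 5), 6, 1, 2),
    ((8, 2, 9), 5, 0, 7), ((9, 6, 8), 7, 4, 5)]
  Tc := [(0, 3, 4), (0, 3, 6), (0, 3, 7), (0, 4, 6), (0, 4, 7), (0, 6, 7)]
  Td := [((0, 3), (0, 1), 1), ((0, 3), (0, 4), 8), ((0, 3), (2, 5), 2), ((0, 3), (2, 8), 5), ((0,
    4), (0, 1), 1), ((0, 4), (0, 4), 8), ((0, 4), (2, 5), 2), ((0, 4), (2, 8), 5), ((0, 6),
    (0, 1), 1), ((0, 6), (0, 4), 8), ((0, 6), (2, 5), 2), ((0, 6), (2, 8), 5), ((0, 7), (0,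
    1), 1), ((0, 7), (0, 4), 8), ((0, 7), (2, 5), 2), ((0, 7), (2, 8), 5), ((3, 0), (3, 4),
    8), ((3, 0), (3, 6), 4), ((4, 0), (6, 3), 3), ((4, 0), (6, 9), 7), ((6, 0), (7, 1), 1),
    ((6, 0), (7, 5), 2), ((7, 0), (9, 6), 4), ((7, 0), (9, 8), 5)]
  G := [[0, 0x11611cc1111611ac1111c11cc18e2, 0, 0x14118112c71d841211813dc1b4916b114ac,
    0x11a193a15241161124b19211c195c138ac], [0, 0, 0x11611cc1411c11ac1811a116c14e1,
    0x1819e6158121141b5c17461415b61948c, 0x121d3a1524121181d361b2141b5c138ac]]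

noncomputable def n3863 : Ent := ⟨e3863, noF, [], [], []⟩

def c3863 : PLift (Cov.check n3863.C.D v3863 = true) := ⟨by decide +kernel⟩

def b3863 : PLift (entF (fidx ts) 400 3863 n3863 = true) := ⟨by decide +kernel⟩

theorem g3863 : GoodF (fidx ts) 400 3863 := GoodF.ofV v3863 n3863 c3863.down b3863.down

/-- 41044466:705 -/
noncomputable def e3864 : SCfg where
  D := {
    a := 7
    L := 10
    kp := 8
    inn := [(0, 1), (0, 5), (1, 0), (1, 2), (1, 3), (1, 4), (1, 5), (1, 6), (2, 1), (2, 5), (3, 1), (3,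
      6), (4, 1), (4, 6), (5, 0), (5, 1), (5, 2), (6, 1), (6, 3), (6, 4)]
    mix := [(0, 0), (0, 1), (1, 0), (1, 2), (1, 3), (1, 4), (2, 2), (2, 5), (3, 3), (3, 6), (4, 4), (4,
      7), (5, 1), (5, 5), (5, 8), (6, 6), (6, 7), (6, 9)]
    cl := [0, 1, 2, 0, 5, 3, 6, 4, 7, 8]
    chq := [(0, 3), (0, 4), (0, 7), (0, 8), (3, 0), (4, 0), (7, 0), (8, 0)]
    rng := [(0, 1), (0, 4), (1, 0), (1, 8), (2, 3), (2, 5), (3, 2), (3, 6), (4, 0), (4, 7), (5, 2), (5,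
      8), (6, 3), (6, 9), (7, 4), (7, 9), (8, 1), (8, 5), (9, 6), (9, 7)]
    lev := [] }
  links := [[1, 7, 8, 5], [7, 0, 5, 2, 9, 10, 3, 6, 4, 11], [9, 1, 5, 12], [6, 1, 10, 13], [11, 1, 6,
    14], [12, 2, 1, 0, 8, 15], [14, 4, 1, 3, 13, 16]]
  P := {
    a := 7
    N := 17
    nb := [418, 3837, 4642, 9282, 18498, 37127, 90138, 2307, 32929, 5126, 8714, 16530, 33316, 66632,
      67664, 4384, 24640]
    tri := [(0, 1, 5), (0, 1, 7), (0, 5, 8), (0, 7, 8), (1, 2, 5), (1, 2, 9), (1, 3, 6), (1, 3, 10),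
      (1, 4, 6), (1, 4, 11), (1, 7, 11), (1, 9, 10), (2, 5, 12), (2, 9, 12), (3, 6, 13), (3, 10,
      13), (4, 6, 14), (4, 11, 14), (5, 8, 15), (5, 12, 15), (6, 13, 16), (6, 14, 16)]
    fin := [0, 0, 0, 0, 0, 0, 0, 0, 8, 9, 0, 11, 12, 13, 14, 15, 16]
    chd := [(0, 12), (0, 14), (0, 15), (0, 16)]
    steps := [(0, 1), (0, 2), (0, 3), (0, 4), (0, 5), (0, 6), (0, 7), (0, 10)] }
  rep := [0, 8, 9, 12, 14, 11, 13, 15, 16]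

noncomputable def v3864 : Cov.CovD where
  P := 3
  N := 6
  pl := [1, 2, 4, 6]
  lev := [⟨[], [], [], [1], [(0, 0, [3, 4, 7, 8])]⟩,
    ⟨[], [(0, 0)], [(0, 0)], [2, 5], [(0, 0, [3, 4, 7, 8]), (3, 0, [3, 4, 7, 8])]⟩,
    ⟨[(0, 1)], [(1, 0), (1, 3)], [], [2], [(5, 3, [0])]⟩,
    ⟨[(0, 1), (1, 2)], [(1, 0)], [], [6], [(3, 0, [3, 4, 7, 8])]⟩,
    ⟨[(0, 1), (1, 2), (1, 3)], [(1, 0), (1, 4)], [], [5], [(7, 4, [0])]⟩,
    ⟨[(0, 1), (0, 2), (1, 2), (1, 3), (1, 4)], [(0, 0), (0, 3), (0, 7), (1, 0), (1, 3), (1,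
      7), (2, 3), (2, 7)], [(3, 7)], [1], [(5, 3, [0]), (8, 7, [0])]⟩,
    ⟨[(0, 1), (1, 2), (1, 3), (1, 4), (1, 5), (3, 4)], [(1, 0), (1, 4), (1, 8), (3, 0), (3,
      4), (3, 8), (4, 4), (4, 8)], [(4, 8)], [6], [(7, 4, [0]), (9, 8, [0])]⟩]
  Ta := [((0, 1), 0, 1), ((0, 4), 0, 5), ((3, 2), 0, 2), ((3, 6), 0, 6)]
  Tb := [((0, 1, 4), 0, 1, 5), ((1, 0, 8), 1, 0, 7), ((2, 3, 5), 2, 0, 3), ((3, 2, 6), 0, 2, 6),
    ((4, 0, 7), 5, 0, 4), ((5, 2, 8), 3, 2, 7), ((6, 3, 9), 6, 0, 8), ((7, 4, 9), 4, 5, 8),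
    ((8, 1, 5), 7, 1, 3), ((9, 6, 7), 8, 6, 4)]
  Tc := [(0, 3, 4), (0, 3, 7), (0, 3, 8), (0, 4, 7), (0, 4, 8), (0, 7, 8)]
  Td := [((0, 3), (0, 1), 1), ((0, 3), (0, 4), 5), ((0, 3), (3, 2), 2), ((0, 3), (3, 6), 6), ((0,
    4), (0, 1), 1), ((0, 4), (0, 4), 5), ((0, 4), (3, 2), 2), ((0, 4), (3, 6), 6), ((0, 7),
    (0, 1), 1), ((0, 7), (0, 4), 5), ((0, 7), (3, 2), 2), ((0, 7), (3, 6), 6), ((0, 8), (0,
    1), 1), ((0, 8), (0, 4), 5), ((0, 8), (3, 2), 2), ((0, 8), (3, 6), 6), ((3, 0), (5, 2),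
    2), ((3, 0), (5, 8), 7), ((4, 0), (7, 4), 5), ((4, 0), (7, 9), 8), ((7, 0), (8, 1), 1),
    ((7, 0), (8, 5), 3), ((8, 0), (9, 6), 6), ((8, 0), (9, 7), 4)]
  G := [[0, 0x111e1111e1a141161111e1181e18c, 0, 0x111311a41115411115d9111111cb61311211189389cc,
    0x3112111118a114111659cb11119d3111111c7c1a4], [0, 0, 0x1112411181114a11141118ae8,
    0x11124111411119d51751a9c11211ed11991e18c, 0x113152311118a1d514b11bd111115d3c1a4]]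

noncomputable def n3864 : Ent := ⟨e3864, noF, [], [], []⟩

def c3864 : PLift (Cov.check n3864.C.D v3864 = true) := ⟨by decide +kernel⟩

def b3864 : PLift (entF (fidx ts) 400 3864 n3864 = true) := ⟨by decide +kernel⟩

theorem g3864 : GoodF (fidx ts) 400 3864 := GoodF.ofV v3864 n3864 c3864.down b3864.down

/-- 4766474:707/1 -/
noncomputable def e3865 : SCfg where
  D := {
    a := 7
    L := 9
    kp := 7
    inn := [(0, 1), (0, 5), (1, 0), (1, 2), (1, 3), (1, 5), (2, 1), (2, 3), (2, 4), (3, 1), (3, 2), (3,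
      4), (3, 5), (4, 2), (4, 3), (5, 0), (5, 1), (5, 3), (5, 6), (6, 5)]
    mix := [(0, 0), (0, 1), (1, 0), (1, 2), (1, 3), (2, 2), (2, 4), (2, 5), (3, 6), (3, 7), (4, 4), (4,
      7), (5, 1), (5, 6), (5, 8), (6, 1), (6, 4), (6, 8)]
    cl := [1, 0, 4, 7, 3, 6, 0, 2, 5]
    chq := [(1, 2), (1, 3), (1, 4), (1, 6), (2, 1), (3, 1), (4, 1), (6, 1)]
    rng := [(0, 1), (0, 3), (1, 0), (1, 4), (2, 3), (2, 5), (3, 0), (3, 2), (4, 1), (4, 5), (4, 7), (4,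
      8), (5, 2), (5, 4), (6, 7), (6, 8), (7, 4), (7, 6), (8, 4), (8, 6)]
    lev := [] }
  links := [[1, 7, 8, 5], [7, 0, 5, 3, 2, 9, 10], [9, 1, 3, 4, 11, 12], [4, 2, 1, 5, 13, 14], [11, 2, 3,
    14], [13, 3, 1, 0, 8, 6, 15], [15, 5, 8, 11]]
  P := {
    a := 7
    N := 16
    nb := [418, 1709, 6682, 24630, 18444, 41291, 35104, 1283, 2273, 5126, 642, 53588, 2564, 49192,
      10264, 10336]
    tri := [(0, 1, 5), (0, 1, 7), (0, 5, 8), (0, 7, 8), (1, 2, 3), (1, 2, 9), (1, 3, 5), (1, 7, 10),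
      (1, 9, 10), (2, 3, 4), (2, 4, 11), (2, 9, 12), (2, 11, 12), (3, 4, 14), (3, 5, 13), (3, 13,
      14), (4, 11, 14), (5, 6, 8), (5, 6, 15), (5, 13, 15), (6, 8, 11), (6, 11, 15)]
    fin := [0, 0, 0, 0, 0, 5, 5, 0, 5, 9, 10, 11, 12, 5, 14, 15]
    chd := [(0, 9), (0, 11), (0, 12), (0, 14)]
    steps := [(0, 1), (0, 2), (0, 3), (0, 4), (0, 7), (5, 6), (5, 8), (5, 13)] }
  rep := [5, 0, 14, 11, 9, 15, 12, 10]

noncomputable def v3865 : Cov.CovD where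
  P := 3
  N := 5
  pl := [3, 8]
  lev := [⟨[], [], [(0, 1)], [], [(0, 1, [2, 3, 4, 6]), (1, 0, [])]⟩,
    ⟨[], [(0, 0), (0, 1), (0, 4)], [(1, 4)], [7], [(0, 1, [2, 3, 4, 6]), (2, 4, [1])]⟩,
    ⟨[(0, 1)], [(1, 1), (1, 3), (1, 4), (1, 6)], [(3, 4), (3, 6), (4, 6)], [], [(2, 4,
      [1]), (4, 3, [1]), (5, 6, [1])]⟩,
    ⟨[(0, 1), (1, 2)], [(1, 0), (1, 1), (1, 2), (1, 4), (2, 0), (2, 2), (2, 3), (2, 4), (2,
      6)], [(0, 2)], [], [(6, 0, []), (7, 2, [1])]⟩,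
    ⟨[(1, 2), (1, 3), (2, 3)], [(2, 2), (2, 3), (2, 4), (2, 6), (3, 0), (3, 2), (3, 3)],
      [(2, 3)], [], [(4, 3, [1]), (7, 2, [1])]⟩,
    ⟨[(0, 1), (0, 3), (1, 2), (1, 3), (2, 3), (3, 4)], [(0, 0), (0, 1), (1, 0), (1, 1), (1,
      4), (3, 0), (3, 2)], [(0, 0)], [5], [(1, 0, []), (6, 0, [])]⟩,
    ⟨[(0, 5), (1, 5), (3, 5)], [(0, 0), (2, 3), (4, 3), (5, 0), (5, 3)], [(0, 3)], [5],
      [(1, 0, []), (4, 3, [1])]⟩]
  Ta := [((1, 0), 0, 1), ((1, 4), 0, 3), ((6, 7), 0, 2), ((6, 8), 0, 5)]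
  Tb := [((0, 1, 3), 1, 0, 7), ((1, 0, 4), 0, 1, 3), ((2, 3, 5), 4, 7, 6), ((3, 0, 2), 7, 1, 4),
    ((4, 1, 5), 3, 0, 6), ((4, 1, 7), 3, 0, 2), ((4, 1, 8), 3, 0, 5), ((4, 5, 7), 3, 6, 2),
    ((4, 5, 8), 3, 6, 5), ((4, 7, 8), 3, 2, 5), ((5, 2, 4), 6, 4, 3), ((6, 7, 8), 0, 2, 5),
    ((7, 4, 6), 2, 3, 0), ((8, 4, 6), 5, 3, 0)]
  Tc := [(1, 2, 3), (1, 2, 4), (1, 2, 6), (1, 3, 4), (1, 3, 6), (1, 4, 6)]
  Td := [((1, 2), (0, 1), 0), ((1, 2), (0, 3), 7), ((1, 3), (0, 1), 0), ((1, 3), (0, 3), 7), ((1,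
    4), (0, 1), 0), ((1, 4), (0, 3), 7), ((1, 6), (0, 1), 0), ((1, 6), (0, 3), 7), ((2, 1),
    (7, 4), 3), ((2, 1), (7, 6), 0), ((3, 1), (4, 1), 0), ((3, 1), (4, 5), 6), ((3, 1), (4,
    7), 2), ((3, 1), (4, 8), 5), ((4, 1), (2, 3), 7), ((4, 1), (2, 5), 6), ((6, 1), (5, 2),
    4), ((6, 1), (5, 4), 3)]
  G := [[0, 0x8414ea1c146a181248e4a1c1e8884146, 0, 0x826426c128482242a9c282642ac42d8,
    0x221a8648a9242a184a8928c642a982d4418286], [0, 0, 0x816116c82411a12ac4212611ac829c,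
    0x12618212a18212a142d4, 0x1a618216a1821a6182d4]]

noncomputable def n3865 : Ent := ⟨e3865, noF, [], [], []⟩

def c3865 : PLift (Cov.check n3865.C.D v3865 = true) := ⟨by decide +kernel⟩

def b3865 : PLift (entF (fidx ts) 400 3865 n3865 = true) := ⟨by decide +kernel⟩

theorem g3865 : GoodF (fidx ts) 400 3865 := GoodF.ofV v3865 n3865 c3865.down b3865.down

/-- 4766474:707/2 -/
noncomputable def e3866 : SCfg where
  D := {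
    a := 7
    L := 9
    kp := 7
    inn := [(0, 1), (0, 5), (1, 0), (1, 2), (1, 3), (1, 5), (2, 1), (2, 3), (2, 4), (3, 1), (3, 2), (3,
      4), (3, 5), (4, 2), (4, 3), (5, 0), (5, 1), (5, 3), (5, 6), (6, 5)]
    mix := [(0, 0), (0, 1), (1, 0), (1, 2), (1, 3), (2, 2), (2, 4), (2, 5), (3, 6), (3, 7), (4, 4), (4,
      7), (5, 1), (5, 6), (5, 8), (6, 1), (6, 5), (6, 8)]
    cl := [2, 0, 3, 7, 5, 4, 0, 1, 6]
    chq := [(1, 2), (1, 3), (1, 4), (1, 7), (2, 1), (3, 1), (4, 1), (7, 1)]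
    rng := [(0, 1), (0, 3), (1, 0), (1, 5), (2, 3), (2, 5), (3, 0), (3, 2), (4, 5), (4, 7), (5, 1), (5,
      2), (5, 4), (5, 8), (6, 7), (6, 8), (7, 4), (7, 6), (8, 5), (8, 6)]
    lev := [] }
  links := [[1, 7, 8, 5], [7, 0, 5, 3, 2, 9, 10], [9, 1, 3, 4, 11, 12], [4, 2, 1, 5, 13, 14], [11, 2, 3,
    14], [13, 3, 1, 0, 8, 6, 15], [15, 5, 8, 12]]
  P := {
    a := 7
    N := 16
    nb := [418, 1709, 6682, 24630, 18444, 41291, 37152, 1283, 4321, 5126, 642, 20500, 35652, 49192,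
      10264, 12384]
    tri := [(0, 1, 5), (0, 1, 7), (0, 5, 8), (0, 7, 8), (1, 2, 3), (1, 2, 9), (1, 3, 5), (1, 7, 10),
      (1, 9, 10), (2, 3, 4), (2, 4, 11), (2, 9, 12), (2, 11, 12), (3, 4, 14), (3, 5, 13), (3, 13,
      14), (4, 11, 14), (5, 6, 8), (5, 6, 15), (5, 13, 15), (6, 8, 12), (6, 12, 15)]
    fin := [0, 1, 2, 1, 2, 5, 5, 0, 5, 9, 10, 11, 2, 5, 1, 15]
    chd := [(0, 1), (2, 1), (9, 1), (10, 1)]
    steps := [(0, 7), (1, 3), (1, 14), (2, 4), (2, 12), (5, 6), (5, 8), (5, 13)] }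
  rep := [5, 1, 0, 9, 2, 11, 15, 10]

noncomputable def v3866 : Cov.CovD where
  P := 3
  N := 5
  pl := [4, 8]
  lev := [⟨[], [], [(0, 2)], [], [(0, 2, [1]), (1, 0, [])]⟩,
    ⟨[], [(0, 0), (0, 2), (0, 3), (0, 7)], [(2, 3), (2, 7), (3, 7)], [], [(0, 2, [1]), (2,
      3, [1]), (3, 7, [1])]⟩,
    ⟨[(0, 1)], [(1, 2), (1, 3), (1, 4), (1, 7)], [(3, 4)], [5], [(2, 3, [1]), (5, 4, [1])]⟩,
    ⟨[(0, 1), (1, 2)], [(1, 0), (1, 1), (1, 2), (1, 3), (1, 7), (2, 0), (2, 1), (2, 3), (2,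
      4)], [(0, 1)], [], [(6, 0, []), (7, 1, [2, 3, 4, 7])]⟩,
    ⟨[(1, 2), (1, 3), (2, 3)], [(2, 1), (2, 3), (2, 4), (3, 0), (3, 1)], [], [5], [(7, 1,
      [2, 3, 4, 7])]⟩,
    ⟨[(0, 1), (0, 3), (1, 2), (1, 3), (2, 3), (3, 4)], [(0, 0), (0, 2), (1, 0), (1, 2), (1,
      3), (1, 7), (3, 0), (3, 1)], [(0, 0)], [6], [(1, 0, []), (6, 0, [])]⟩,
    ⟨[(0, 5), (1, 5), (3, 5)], [(0, 0), (2, 4), (5, 0), (5, 4)], [(0, 4)], [6], [(1, 0,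
      []), (5, 4, [1])]⟩]
  Ta := [((1, 0), 0, 2), ((1, 5), 0, 4), ((6, 7), 0, 1), ((6, 8), 0, 6)]
  Tb := [((0, 1, 3), 2, 0, 7), ((1, 0, 5), 0, 2, 4), ((2, 3, 5), 3, 7, 4), ((3, 0, 2), 7, 2, 3),
    ((4, 5, 7), 5, 4, 1), ((5, 1, 2), 4, 0, 3), ((5, 1, 4), 4, 0, 5), ((5, 1, 8), 4, 0, 6),
    ((5, 2, 4), 4, 3, 5), ((5, 2, 8), 4, 3, 6), ((5, 4, 8), 4, 5, 6), ((6, 7, 8), 0, 1, 6),
    ((7, 4, 6), 1, 5, 0), ((8, 5, 6), 6, 4, 0)]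
  Tc := [(1, 2, 3), (1, 2, 4), (1, 2, 7), (1, 3, 4), (1, 3, 7), (1, 4, 7)]
  Td := [((1, 2), (7, 4), 5), ((1, 2), (7, 6), 0), ((1, 3), (7, 4), 5), ((1, 3), (7, 6), 0), ((1,
    4), (7, 4), 5), ((1, 4), (7, 6), 0), ((1, 7), (7, 4), 5), ((1, 7), (7, 6), 0), ((2, 1),
    (0, 1), 0), ((2, 1), (0, 3), 7), ((3, 1), (2, 3), 7), ((3, 1), (2, 5), 4), ((4, 1), (5,
    1), 0), ((4, 1), (5, 2), 3), ((4, 1), (5, 4), 5), ((4, 1), (5, 8), 6), ((7, 1), (3, 0),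
    2), ((7, 1), (3, 2), 3)]
  G := [[0, 0, 0x426826c122ac8424c412ec816ac14fa82c4124a, 0x482e482ec12c2ac2ac12c2ac2a542d4,
    0xc26826c1224c412ac6ac946ac147a82c81824c888d423a], [0, 0x116116a8118, 0,
    0x12a12a94212a12a58212612ac82d4, 0x12614212c12c94212a842b82c8424c486ac18d29]]

noncomputable def n3866 : Ent := ⟨e3866, noF, [], [], []⟩

def c3866 : PLift (Cov.check n3866.C.D v3866 = true) := ⟨by decide +kernel⟩

def b3866 : PLift (entF (fidx ts) 400 3866 n3866 = true) := ⟨by decide +kernel⟩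

theorem g3866 : GoodF (fidx ts) 400 3866 := GoodF.ofV v3866 n3866 c3866.down b3866.down

/-- 4766474:707 -/
noncomputable def e3867 : SCfg where
  D := {
    a := 7
    L := 10
    kp := 8
    inn := [(0, 1), (0, 5), (1, 0), (1, 2), (1, 3), (1, 5), (2, 1), (2, 3), (2, 4), (3, 1), (3, 2), (3,
      4), (3, 5), (4, 2), (4, 3), (5, 0), (5, 1), (5, 3), (5, 6), (6, 5)]
    mix := [(0, 0), (0, 1), (1, 0), (1, 2), (1, 3), (2, 2), (2, 4), (2, 5), (3, 6), (3, 7), (4, 4), (4,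
      7), (5, 1), (5, 6), (5, 8), (6, 1), (6, 8), (6, 9)]
    cl := [2, 0, 3, 6, 4, 7, 0, 1, 5, 8]
    chq := [(0, 3), (0, 6), (1, 3), (1, 7), (3, 0), (3, 1), (6, 0), (7, 1)]
    rng := [(0, 1), (0, 3), (1, 0), (1, 9), (2, 3), (2, 5), (3, 0), (3, 2), (4, 5), (4, 7), (5, 2), (5,
      4), (6, 7), (6, 8), (7, 4), (7, 6), (8, 6), (8, 9), (9, 1), (9, 8)]
    lev := [] }
  links := [[1, 7, 8, 5], [7, 0, 5, 3, 2, 9, 10], [9, 1, 3, 4, 11, 12], [4, 2, 1, 5, 13, 14], [11, 2, 3,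
    14], [13, 3, 1, 0, 8, 6, 15], [15, 5, 8, 16]]
  P := {
    a := 7
    N := 17
    nb := [418, 1709, 6682, 24630, 18444, 41291, 98592, 1283, 65761, 5126, 642, 20500, 2564, 49192,
      10264, 73824, 33088]
    tri := [(0, 1, 5), (0, 1, 7), (0, 5, 8), (0, 7, 8), (1, 2, 3), (1, 2, 9), (1, 3, 5), (1, 7, 10),
      (1, 9, 10), (2, 3, 4), (2, 4, 11), (2, 9, 12), (2, 11, 12), (3, 4, 14), (3, 5, 13), (3, 13,
      14), (4, 11, 14), (5, 6, 8), (5, 6, 15), (5, 13, 15), (6, 8, 16), (6, 15, 16)]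
    fin := [0, 1, 2, 1, 2, 1, 1, 0, 1, 9, 10, 11, 12, 1, 2, 15, 16]
    chd := [(1, 9), (1, 10), (9, 2), (12, 2)]
    steps := [(0, 7), (1, 3), (1, 5), (1, 6), (1, 8), (1, 13), (2, 4), (2, 14)] }
  rep := [1, 2, 0, 9, 11, 15, 10, 12, 16]

noncomputable def v3867 : Cov.CovD where
  P := 3
  N := 6
  pl := [0, 4, 8, 9]
  lev := [⟨[], [], [], [2], [(1, 0, [3, 6])]⟩,
    ⟨[], [(0, 0), (0, 3), (0, 6)], [(3, 6)], [2], [(2, 3, [0, 1]), (3, 6, [0])]⟩,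
    ⟨[(0, 1)], [(1, 3), (1, 6), (1, 7)], [(3, 7)], [4], [(2, 3, [0, 1]), (5, 7, [1])]⟩,
    ⟨[(0, 1), (1, 2)], [(1, 0), (1, 1), (1, 3), (1, 6), (2, 0), (2, 1), (2, 3), (2, 7)],
      [(0, 1)], [], [(6, 0, [3, 6]), (7, 1, [3, 7])]⟩,
    ⟨[(1, 2), (1, 3), (2, 3)], [(2, 1), (2, 3), (2, 7), (3, 0), (3, 1)], [], [4], [(7, 1,
      [3, 7])]⟩,
    ⟨[(0, 1), (0, 3), (1, 2), (1, 3), (2, 3), (3, 4)], [(0, 0), (1, 0), (1, 3), (1, 6), (3,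
      0), (3, 1)], [(0, 0)], [5], [(1, 0, [3, 6]), (6, 0, [3, 6])]⟩,
    ⟨[(0, 5), (1, 5), (3, 5)], [(0, 0), (5, 0)], [], [5, 8], [(1, 0, [3, 6])]⟩]
  Ta := [((1, 0), 0, 2), ((1, 9), 0, 8), ((6, 7), 0, 1), ((6, 8), 0, 5)]
  Tb := [((0, 1, 3), 2, 0, 6), ((1, 0, 9), 0, 2, 8), ((2, 3, 5), 3, 6, 7), ((3, 0, 2), 6, 2, 3),
    ((4, 5, 7), 4, 7, 1), ((5, 2, 4), 7, 3, 4), ((6, 7, 8), 0, 1, 5), ((7, 4, 6), 1, 4, 0),
    ((8, 6, 9), 5, 0, 8), ((9, 1, 8), 8, 0, 5)]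
  Tc := [(0, 3, 6), (1, 3, 7), (3, 0, 1)]
  Td := [((0, 3), (1, 0), 2), ((0, 3), (1, 9), 8), ((0, 3), (6, 7), 1), ((0, 3), (6, 8), 5), ((0,
    6), (1, 0), 2), ((0, 6), (1, 9), 8), ((0, 6), (6, 7), 1), ((0, 6), (6, 8), 5), ((1, 3),
    (7, 4), 4), ((1, 3), (7, 6), 0), ((1, 7), (7, 4), 4), ((1, 7), (7, 6), 0), ((3, 0), (2,
    3), 6), ((3, 0), (2, 5), 7), ((3, 1), (2, 3), 6), ((3, 1), (2, 5), 7), ((6, 0), (3, 0),
    2), ((6, 0), (3, 2), 3), ((7, 1), (5, 2), 3), ((7, 1), (5, 4), 4)]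
  G := [[0, 0,
    0x62818e61481c52e8e8126c26cc1a6221448ee418e61484cbc6ac6ac12284c24e498888c1241e4a1c7ec8641c8618ac8814ce,
    0x11684111a84148ee84ca648ca6ca698ca688fd8, 0x11a441ca648ca648ca6ca6c8ca648f38], [0,
    0x121418e2118, 0, 0x1412c4111a8411a6481a64859a16a9416a84fd8,
    0x11a44171a8471a8434e258d459688f38]]

noncomputable def n3867 : Ent := ⟨e3867, noF, [], [], [(16, 11, [1580044410770990308032078191911707142368668054796088592099359952897, 0]), (16, 12, [1580044410777118419473445963789405229760683414688298388994439356417, 0])]⟩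

def c3867 : PLift (Cov.check n3867.C.D v3867 = true) := ⟨by decide +kernel⟩

def b3867 : PLift (entF (fidx ts) 400 3867 n3867 = true) := ⟨by decide +kernel⟩

theorem g3867 : GoodF (fidx ts) 400 3867 := GoodF.ofV v3867 n3867 c3867.down b3867.down

/-- 10_555444:2001 -/
noncomputable def e3868 : SCfg where
  D := {
    a := 7
    L := 11
    kp := 8
    inn := [(0, 1), (0, 2), (0, 3), (0, 4), (0, 5), (1, 0), (1, 4), (2, 0), (2, 5), (3, 0), (3, 6), (4,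
      0), (4, 1), (5, 0), (5, 2), (6, 3)]
    mix := [(0, 0), (0, 1), (0, 2), (0, 3), (0, 4), (1, 4), (1, 5), (1, 6), (2, 1), (2, 7), (2, 8), (3,
      2), (3, 3), (3, 9), (4, 0), (4, 5), (5, 0), (5, 7), (6, 2), (6, 9), (6, 10)]
    cl := [0, 0, 1, 1, 2, 3, 6, 4, 7, 5, 8]
    chq := [(0, 2), (0, 6), (2, 0), (6, 0)]
    rng := [(0, 5), (0, 7), (1, 2), (1, 8), (2, 1), (2, 10), (3, 4), (3, 9), (4, 3), (4, 6), (5, 0),
      (5, 6), (6, 4), (6, 5), (7, 0), (7, 8), (8, 1), (8, 7), (9, 3), (9, 10), (10, 2), (10, 9)]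
    lev := [] }
  links := [[1, 4, 7, 5, 2, 8, 9, 3, 10, 11], [12, 4, 0, 11, 13], [8, 0, 5, 14, 15], [10, 0, 9, 6, 16],
    [0, 1, 12, 7], [0, 7, 14, 2], [3, 9, 17, 16]]
  P := {
    a := 7
    N := 18
    nb := [4030, 14353, 49441, 67137, 4227, 16517, 197128, 20529, 33285, 131401, 67593, 9219, 8338,
      6146, 32932, 16644, 132168, 66112]
    tri := [(0, 1, 4), (0, 1, 11), (0, 2, 5), (0, 2, 8), (0, 3, 9), (0, 3, 10), (0, 4, 7), (0, 5, 7),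
      (0, 8, 9), (0, 10, 11), (1, 4, 12), (1, 11, 13), (1, 12, 13), (2, 5, 14), (2, 8, 15), (2,
      14, 15), (3, 6, 9), (3, 6, 16), (3, 10, 16), (4, 7, 12), (5, 7, 14), (6, 9, 17), (6, 16,
      17)]
    fin := [0, 0, 0, 3, 0, 0, 3, 0, 0, 3, 3, 11, 12, 13, 14, 15, 16, 17]
    chd := [(0, 11), (0, 13)]
    steps := [(0, 1), (0, 2), (0, 4), (0, 5), (0, 7), (0, 8), (3, 6), (3, 9), (3, 10)] }
  rep := [0, 3, 11, 12, 14, 16, 13, 15, 17]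

noncomputable def v3868 : Cov.CovD where
  P := 3
  N := 6
  pl := [5, 7, 8, 9, 10]
  lev := [⟨[], [], [(0, 0), (0, 1), (0, 2), (1, 1), (1, 2)], [], [(0, 0, [2, 6]), (1, 0, [2, 6]),
      (2, 1, []), (3, 1, []), (4, 2, [0])]⟩,
    ⟨[], [(0, 0), (0, 1), (0, 2), (0, 6)], [(2, 6)], [3], [(4, 2, [0]), (6, 6, [0])]⟩,
    ⟨[(0, 1)], [(0, 0), (0, 1), (0, 2)], [], [4, 7], [(1, 0, [2, 6])]⟩,
    ⟨[(0, 1), (0, 2)], [(0, 0), (0, 1), (0, 2)], [(1, 1)], [5], [(2, 1, []), (3, 1, [])]⟩,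
    ⟨[(0, 1), (0, 2), (0, 3)], [(0, 0), (0, 1), (0, 2), (1, 0), (1, 2), (1, 6)], [], [3],
      [(0, 0, [2, 6])]⟩,
    ⟨[(0, 1), (0, 2), (0, 3), (0, 4)], [(0, 0), (0, 1), (0, 2), (2, 0), (4, 0)], [], [4],
      [(0, 0, [2, 6])]⟩,
    ⟨[(0, 3)], [(0, 1), (3, 1)], [], [5, 8], [(2, 1, [])]⟩]
  Ta := [((0, 5), 0, 3), ((0, 7), 0, 4), ((1, 2), 0, 1), ((1, 8), 0, 7), ((2, 1), 1, 0), ((2,
    10), 1, 8), ((3, 4), 1, 2), ((3, 9), 1, 5)]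
  Tb := [((0, 5, 7), 0, 3, 4), ((1, 2, 8), 0, 1, 7), ((2, 1, 10), 1, 0, 8), ((3, 4, 9), 1, 2, 5),
    ((4, 3, 6), 2, 1, 6), ((5, 0, 6), 3, 0, 6), ((6, 4, 5), 6, 2, 3), ((7, 0, 8), 4, 0, 7),
    ((8, 1, 7), 7, 0, 4), ((9, 3, 10), 5, 1, 8), ((10, 2, 9), 8, 1, 5)]
  Tc := [(0, 2, 6)]
  Td := [((0, 2), (0, 5), 3), ((0, 2), (0, 7), 4), ((0, 2), (1, 2), 1), ((0, 2), (1, 8), 7), ((0,
    6), (0, 5), 3), ((0, 6), (0, 7), 4), ((0, 6), (1, 2), 1), ((0, 6), (1, 8), 7), ((2, 0),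
    (4, 3), 1), ((2, 0), (4, 6), 6), ((6, 0), (6, 4), 2), ((6, 0), (6, 5), 3)]
  G := [[0, 0, 0xcc6cccc929894e5118, 0,
    0xcc62996451cca29962519241c2c269225c2c2c9285c84949865fb8], [0, 0, 0x36646a68a3a2d118,
    0x226822c4512422445222228c22c217522c822a8c1288282c89c,
    0xa262376251626293a25164a4a2494c53222245284cd2264584c7b8], [0,
    0xc1c8c6168aac1c1a6161aac2c2662616ae14, 0xc8c2c4e55a55aa9114, 0,
    0xc1c16919165c1c1a9491c5c2c26929165e18], [0, 0, 0xc3ac2c6622894e5118,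
    0x21216212165244212218d222218224de18, 0xc1c1691216524316a151cc712d14218de18]]

noncomputable def n3868 : Ent := ⟨e3868, noF, [], [], []⟩

def c3868 : PLift (Cov.check n3868.C.D v3868 = true) := ⟨by decide +kernel⟩

def b3868 : PLift (entF (fidx ts) 400 3868 n3868 = true) := ⟨by decide +kernel⟩

theorem g3868 : GoodF (fidx ts) 400 3868 := GoodF.ofV v3868 n3868 c3868.down b3868.down

/-- 956554:2002 -/
noncomputable def e3869 : SCfg where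
  D := {
    a := 6
    L := 12
    kp := 9
    inn := [(0, 1), (0, 2), (0, 3), (0, 4), (0, 5), (1, 0), (1, 5), (2, 0), (2, 5), (3, 0), (4, 0), (5,
      0), (5, 1), (5, 2)]
    mix := [(0, 0), (0, 1), (0, 2), (0, 3), (1, 3), (1, 4), (1, 5), (2, 0), (2, 4), (2, 6), (2, 7), (3,
      0), (3, 1), (3, 8), (3, 9), (4, 1), (4, 2), (4, 10), (4, 11), (5, 4)]
    cl := [0, 0, 0, 1, 3, 5, 4, 2, 6, 7, 8, 9]
    chq := [(1, 2), (1, 3), (1, 4), (2, 1), (3, 1), (4, 1)]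
    rng := [(0, 7), (0, 8), (1, 9), (1, 10), (2, 3), (2, 11), (3, 2), (3, 5), (4, 5), (4, 6), (5, 3),
      (5, 4), (6, 4), (6, 7), (7, 0), (7, 6), (8, 0), (8, 9), (9, 1), (9, 8), (10, 1), (10, 11),
      (11, 2), (11, 10)]
    lev := [] }
  links := [[1, 5, 2, 6, 3, 7, 4, 8, 9], [10, 5, 0, 9, 11], [6, 0, 5, 10, 12, 13], [7, 0, 6, 14, 15], [8,
    0, 7, 16, 17], [0, 1, 10, 2]]
  P := {
    a := 6
    N := 18
    nb := [1022, 3617, 13409, 49345, 196993, 1031, 24589, 98329, 131601, 2307, 6182, 1538, 9220, 4164,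
      32840, 16520, 131216, 65808]
    tri := [(0, 1, 5), (0, 1, 9), (0, 2, 5), (0, 2, 6), (0, 3, 6), (0, 3, 7), (0, 4, 7), (0, 4, 8), (0,
      8, 9), (1, 5, 10), (1, 9, 11), (1, 10, 11), (2, 5, 10), (2, 6, 13), (2, 10, 12), (2, 12,
      13), (3, 6, 14), (3, 7, 15), (3, 14, 15), (4, 7, 16), (4, 8, 17), (4, 16, 17)]
    fin := [0, 1, 1, 0, 0, 1, 0, 0, 0, 1, 10, 11, 12, 13, 14, 15, 16, 17]
    chd := [(1, 10), (1, 12), (1, 13)]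
    steps := [(0, 3), (0, 4), (0, 6), (0, 7), (0, 8), (1, 5), (1, 2), (1, 9)] }
  rep := [0, 1, 13, 10, 12, 11, 14, 15, 16, 17]

noncomputable def v3869 : Cov.CovD where
  P := 3
  N := 7
  pl := [5, 8, 9, 10, 11]
  lev := [⟨[], [], [(0, 0), (0, 1)], [], [(0, 0, []), (1, 0, []), (2, 0, []), (3, 1, [2, 3, 4])]⟩,
    ⟨[], [(0, 0), (0, 1), (0, 3)], [(1, 3)], [5], [(3, 1, [2, 3, 4]), (4, 3, [1])]⟩,
    ⟨[(0, 1)], [(0, 0), (0, 1), (0, 2), (0, 3), (0, 4), (1, 3)], [(0, 2), (0, 3), (0, 4),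
      (2, 3), (2, 4), (3, 4)], [], [(0, 0, []), (4, 3, [1]), (6, 4, [1]), (7, 2, [1])]⟩,
    ⟨[(0, 1), (0, 2)], [(0, 0), (0, 1), (2, 0)], [(0, 0)], [6, 7], [(0, 0, []), (1, 0,
      [])]⟩,
    ⟨[(0, 1), (0, 2), (0, 3)], [(0, 0), (0, 1), (3, 0)], [(0, 0)], [8, 9], [(1, 0, []), (2,
      0, [])]⟩,
    ⟨[(0, 1), (0, 2), (0, 3), (0, 4), (1, 2)], [(0, 0), (0, 1), (0, 3), (1, 1), (1, 3), (2,
      0), (2, 2), (2, 3), (2, 4)], [], [], [(4, 3, [1])]⟩]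
  Ta := [((0, 7), 0, 2), ((0, 8), 0, 6), ((1, 9), 0, 7), ((1, 10), 0, 8), ((2, 3), 0, 1), ((2,
    11), 0, 9)]
  Tb := [((0, 7, 8), 0, 2, 6), ((1, 9, 10), 0, 7, 8), ((2, 3, 11), 0, 1, 9), ((3, 2, 5), 1, 0,
    5), ((4, 5, 6), 3, 5, 4), ((5, 3, 4), 5, 1, 3), ((6, 4, 7), 4, 3, 2), ((7, 0, 6), 2, 0,
    4), ((8, 0, 9), 6, 0, 7), ((9, 1, 8), 7, 0, 6), ((10, 1, 11), 8, 0, 9), ((11, 2, 10), 9,
    0, 8)]
  Tc := [(1, 2, 3), (1, 2, 4), (1, 3, 4)]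
  Td := [((1, 2), (3, 2), 0), ((1, 2), (3, 5), 5), ((1, 3), (3, 2), 0), ((1, 3), (3, 5), 5), ((1,
    4), (3, 2), 0), ((1, 4), (3, 5), 5), ((2, 1), (7, 0), 0), ((2, 1), (7, 6), 4), ((3, 1),
    (4, 5), 5), ((3, 1), (4, 6), 4), ((4, 1), (6, 4), 3), ((4, 1), (6, 7), 2)]
  G := [[0, 0, 0x5442446444e444ee2111e111e62d888e88a888ee29882111e82dc, 0x55ce42259ce59cea22c,
    0x5442446444e444ee2111e111e62d888e88a888ee29882111e82dc], [0, 0, 0,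
    0x54422995e99ac9cee22c, 0x5442446444e444ee2111e111e62d888e88a888ee29882111e82dc], [0,
    0x446444e444ee1222e416888e21222e222ea1a888e888ec14881ce, 0, 0x5c9e422595e99cea22c,
    0x5442446444e444ee21442d888e88a888ee29882111e11a111ee2dc]]

noncomputable def n3869 : Ent := ⟨e3869, noF, [], [], []⟩

def c3869 : PLift (Cov.check n3869.C.D v3869 = true) := ⟨by decide +kernel⟩

def b3869 : PLift (entF (fidx ts) 400 3869 n3869 = true) := ⟨by decide +kernel⟩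

theorem g3869 : GoodF (fidx ts) 400 3869 := GoodF.ofV v3869 n3869 c3869.down b3869.down

/-- 10_556544:2003 -/
noncomputable def e3870 : SCfg where
  D := {
    a := 7
    L := 12
    kp := 9
    inn := [(0, 1), (0, 2), (0, 3), (0, 4), (0, 5), (0, 6), (1, 0), (1, 5), (2, 0), (2, 3), (2, 6), (3,
      0), (3, 2), (4, 0), (5, 0), (5, 1), (6, 0), (6, 2)]
    mix := [(0, 0), (0, 1), (0, 2), (0, 3), (1, 3), (1, 4), (1, 5), (2, 6), (2, 7), (3, 1), (3, 7), (3,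
      8), (3, 9), (4, 1), (4, 2), (4, 10), (4, 11), (5, 0), (5, 4), (6, 0), (6, 6)]
    cl := [0, 1, 1, 0, 2, 7, 4, 3, 5, 6, 8, 9]
    chq := [(0, 3), (0, 5), (0, 6), (3, 0), (5, 0), (6, 0)]
    rng := [(0, 4), (0, 6), (1, 9), (1, 10), (2, 3), (2, 11), (3, 2), (3, 5), (4, 0), (4, 5), (5, 3),
      (5, 4), (6, 0), (6, 7), (7, 6), (7, 8), (8, 7), (8, 9), (9, 1), (9, 8), (10, 1), (10, 11),
      (11, 2), (11, 10)]
    lev := [] }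
  links := [[1, 5, 7, 6, 2, 3, 8, 4, 9, 10], [11, 5, 0, 10, 12], [3, 0, 6, 13, 14], [8, 0, 2, 14, 15,
    16], [9, 0, 8, 17, 18], [0, 1, 11, 7], [0, 7, 13, 2]]
  P := {
    a := 7
    N := 19
    nb := [2046, 7201, 24649, 114949, 393985, 2179, 8325, 10337, 196633, 263185, 4611, 4258, 3074,
      16580, 40972, 81928, 33032, 262416, 131600]
    tri := [(0, 1, 5), (0, 1, 10), (0, 2, 3), (0, 2, 6), (0, 3, 8), (0, 4, 8), (0, 4, 9), (0, 5, 7),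
      (0, 6, 7), (0, 9, 10), (1, 5, 11), (1, 10, 12), (1, 11, 12), (2, 3, 14), (2, 6, 13), (2, 13,
      14), (3, 8, 16), (3, 14, 15), (3, 15, 16), (4, 8, 17), (4, 9, 18), (4, 17, 18), (5, 7, 11),
      (6, 7, 13)]
    fin := [0, 0, 0, 0, 4, 0, 0, 0, 4, 4, 0, 11, 12, 13, 14, 15, 16, 17, 18]
    chd := [(0, 14), (0, 15), (0, 16)]
    steps := [(0, 1), (0, 2), (0, 3), (0, 5), (0, 6), (0, 7), (0, 10), (4, 8), (4, 9)] }
  rep := [0, 4, 11, 14, 13, 15, 16, 12, 17, 18]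

noncomputable def v3870 : Cov.CovD where
  P := 3
  N := 7
  pl := [4, 5, 6, 10, 11]
  lev := [⟨[], [], [(0, 0), (0, 1), (1, 1)], [], [(0, 0, [3, 5, 6]), (1, 1, []), (2, 1, []), (3,
      0, [3, 5, 6])]⟩,
    ⟨[], [(0, 0), (0, 1)], [], [2, 7], [(3, 0, [3, 5, 6])]⟩,
    ⟨[(0, 1)], [(0, 0), (0, 1), (0, 3)], [], [4], [(7, 3, [0])]⟩,
    ⟨[(0, 1), (0, 2)], [(0, 0), (0, 1), (0, 3), (0, 5), (0, 6), (2, 1), (2, 3), (2, 5), (2,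
      6)], [(1, 3), (1, 5), (1, 6), (3, 5), (3, 6), (5, 6)], [], [(1, 1, []), (7, 3, [0]),
      (8, 5, [0]), (9, 6, [0])]⟩,
    ⟨[(0, 1), (0, 2), (0, 3)], [(0, 0), (0, 1), (3, 1)], [(1, 1)], [8, 9], [(1, 1, []), (2,
      1, [])]⟩,
    ⟨[(0, 1), (0, 2), (0, 3), (0, 4)], [(0, 0), (0, 1), (1, 0)], [], [2], [(0, 0, [3, 5,
      6])]⟩,
    ⟨[(0, 1), (0, 2), (0, 3), (0, 4), (0, 5), (2, 3)], [(0, 0), (0, 1), (2, 0), (2, 3), (5,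
      0)], [], [4], [(0, 0, [3, 5, 6])]⟩]
  Ta := [((0, 4), 0, 2), ((0, 6), 0, 4), ((1, 9), 1, 6), ((1, 10), 1, 8), ((2, 3), 1, 0), ((2,
    11), 1, 9), ((3, 2), 0, 1), ((3, 5), 0, 7)]
  Tb := [((0, 4, 6), 0, 2, 4), ((1, 9, 10), 1, 6, 8), ((2, 3, 11), 1, 0, 9), ((3, 2, 5), 0, 1,
    7), ((4, 0, 5), 2, 0, 7), ((5, 3, 4), 7, 0, 2), ((6, 0, 7), 4, 0, 3), ((7, 6, 8), 3, 4,
    5), ((8, 7, 9), 5, 3, 6), ((9, 1, 8), 6, 1, 5), ((10, 1, 11), 8, 1, 9), ((11, 2, 10), 9,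
    1, 8)]
  Tc := [(0, 3, 5), (0, 3, 6), (0, 5, 6)]
  Td := [((0, 3), (0, 4), 2), ((0, 3), (0, 6), 4), ((0, 3), (3, 2), 1), ((0, 3), (3, 5), 7), ((0,
    5), (0, 4), 2), ((0, 5), (0, 6), 4), ((0, 5), (3, 2), 1), ((0, 5), (3, 5), 7), ((0, 6),
    (0, 4), 2), ((0, 6), (0, 6), 4), ((0, 6), (3, 2), 1), ((0, 6), (3, 5), 7), ((3, 0), (7,
    6), 4), ((3, 0), (7, 8), 5), ((5, 0), (8, 7), 3), ((5, 0), (8, 9), 6), ((6, 0), (9, 1),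
    1), ((6, 0), (9, 8), 5)]
  G := [[0, 0, 0xa2a2a4d1162a8a4d11a4, 0x444448d1242824d161848884d181c,
    0x424248d141828888d1282828d1a1c], [0, 0, 0x62c2a4d1162c462d1168,
    0x444844d141848888d1242828d1a1c, 0x424242d1222228d161888282d181c], [0, 0, 0,
    0x41414141451444441d1211428d1ec148118d1181891211818d1e88818cc,
    0x4141442414a818888d1181291282828d1e888181d1121291211221d1eac], [0,
    0x2121221212c848181e1444818e11814c1e148188e1444141e11818c1ec6, 0,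
    0x144141441144114d1212424d1ec148888d1181891211818d1e8118918cc,
    0x41414121251121841d1212818d1ea811818d1181891212121d1e82818ac]]

noncomputable def n3870 : Ent := ⟨e3870, noF, [], [], []⟩

def c3870 : PLift (Cov.check n3870.C.D v3870 = true) := ⟨by decide +kernel⟩

def b3870 : PLift (entF (fidx ts) 400 3870 n3870 = true) := ⟨by decide +kernel⟩

theorem g3870 : GoodF (fidx ts) 400 3870 := GoodF.ofV v3870 n3870 c3870.down b3870.down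

/-- 10_555444:2004 -/
noncomputable def e3871 : SCfg where
  D := {
    a := 7
    L := 11
    kp := 8
    inn := [(0, 1), (0, 2), (0, 3), (0, 4), (0, 5), (1, 0), (1, 4), (2, 0), (2, 5), (3, 0), (3, 6), (4,
      0), (4, 1), (5, 0), (5, 2), (6, 3)]
    mix := [(0, 0), (0, 1), (0, 2), (0, 3), (0, 4), (1, 1), (1, 5), (1, 6), (2, 3), (2, 7), (2, 8), (3,
      0), (3, 4), (3, 9), (4, 0), (4, 5), (5, 2), (5, 7), (6, 4), (6, 9), (6, 10)]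
    cl := [0, 0, 1, 2, 0, 4, 7, 3, 6, 5, 8]
    chq := [(0, 3), (0, 6), (3, 0), (6, 0)]
    rng := [(0, 5), (0, 9), (1, 2), (1, 6), (2, 1), (2, 7), (3, 4), (3, 8), (4, 3), (4, 10), (5, 0),
      (5, 6), (6, 1), (6, 5), (7, 2), (7, 8), (8, 3), (8, 7), (9, 0), (9, 10), (10, 4), (10, 9)]
    lev := [] }
  links := [[7, 4, 1, 8, 9, 5, 2, 10, 11, 3], [8, 0, 4, 12, 13], [10, 0, 5, 14, 15], [7, 0, 11, 6, 16],
    [0, 7, 12, 1], [0, 9, 14, 2], [3, 11, 17, 16]]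
  P := {
    a := 7
    N := 18
    nb := [4030, 12561, 50209, 67777, 4227, 16901, 198664, 69657, 8707, 16673, 34821, 132169, 8338,
      4354, 33316, 17412, 131272, 67648]
    tri := [(0, 1, 4), (0, 1, 8), (0, 2, 5), (0, 2, 10), (0, 3, 7), (0, 3, 11), (0, 4, 7), (0, 5, 9),
      (0, 8, 9), (0, 10, 11), (1, 4, 12), (1, 8, 13), (1, 12, 13), (2, 5, 14), (2, 10, 15), (2,
      14, 15), (3, 6, 11), (3, 6, 16), (3, 7, 16), (4, 7, 12), (5, 9, 14), (6, 11, 17), (6, 16,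
      17)]
    fin := [0, 0, 0, 0, 0, 0, 0, 0, 0, 9, 10, 0, 12, 13, 14, 15, 16, 17]
    chd := [(0, 14), (0, 15)]
    steps := [(0, 1), (0, 2), (0, 3), (0, 4), (0, 5), (0, 6), (0, 7), (0, 8), (0, 11)] }
  rep := [0, 9, 10, 14, 12, 16, 15, 13, 17]

noncomputable def v3871 : Cov.CovD where
  P := 3
  N := 6
  pl := [2, 3, 5, 6, 9, 10]
  lev := [⟨[], [], [(0, 0)], [1, 2], [(0, 0, [3, 6]), (1, 0, [3, 6]), (4, 0, [3, 6])]⟩,
    ⟨[], [(0, 0)], [], [4, 7], [(1, 0, [3, 6])]⟩,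
    ⟨[(0, 1)], [(0, 0), (0, 3), (0, 6)], [(3, 6)], [2], [(7, 3, [0]), (8, 6, [0])]⟩,
    ⟨[(0, 1), (0, 2)], [(0, 0)], [(0, 0)], [5], [(0, 0, [3, 6]), (4, 0, [3, 6])]⟩,
    ⟨[(0, 1), (0, 2), (0, 3)], [(0, 0), (1, 0), (3, 0)], [], [4], [(0, 0, [3, 6])]⟩,
    ⟨[(0, 1), (0, 2), (0, 3), (0, 4)], [(0, 0), (0, 3), (2, 3), (2, 6)], [], [1], [(7, 3,
      [0])]⟩,
    ⟨[(0, 3)], [(0, 0), (3, 0)], [], [5, 8], [(4, 0, [3, 6])]⟩]
  Ta := [((0, 5), 0, 4), ((0, 9), 0, 5), ((1, 2), 0, 1), ((1, 6), 0, 7), ((4, 3), 0, 2), ((4,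
    10), 0, 8)]
  Tb := [((0, 5, 9), 0, 4, 5), ((1, 2, 6), 0, 1, 7), ((2, 1, 7), 1, 0, 3), ((3, 4, 8), 2, 0, 6),
    ((4, 3, 10), 0, 2, 8), ((5, 0, 6), 4, 0, 7), ((6, 1, 5), 7, 0, 4), ((7, 2, 8), 3, 1, 6),
    ((8, 3, 7), 6, 2, 3), ((9, 0, 10), 5, 0, 8), ((10, 4, 9), 8, 0, 5)]
  Tc := [(0, 3, 6)]
  Td := [((0, 3), (0, 5), 4), ((0, 3), (0, 9), 5), ((0, 3), (1, 2), 1), ((0, 3), (1, 6), 7), ((0,
    3), (4, 3), 2), ((0, 3), (4, 10), 8), ((0, 6), (0, 5), 4), ((0, 6), (0, 9), 5), ((0, 6),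
    (1, 2), 1), ((0, 6), (1, 6), 7), ((0, 6), (4, 3), 2), ((0, 6), (4, 10), 8), ((3, 0), (7,
    2), 1), ((3, 0), (7, 8), 6), ((6, 0), (8, 3), 2), ((6, 0), (8, 7), 3)]
  G := [[0, 0, 0, 0x11221114411128111c59c6125a5c18e61f8,
    0x114614c1112312a114498118d65251818ee178], [0, 0x116111616111c111a161116111a2c1e8, 0,
    0x11c411c16111c211c261611c111c1a18c, 0x1111116115111516311c411c161111411511192a3e8], [0,
    0, 0xc1c1ca1a1a621c1c1c68686ac1c1a6161aac1c, 0xcccccc6aa518aace6118,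
    0xc4598ccceaacaac66118]]

noncomputable def n3871 : Ent := ⟨e3871, noF, [], [], []⟩

def c3871 : PLift (Cov.check n3871.C.D v3871 = true) := ⟨by decide +kernel⟩

def b3871 : PLift (entF (fidx ts) 400 3871 n3871 = true) := ⟨by decide +kernel⟩

theorem g3871 : GoodF (fidx ts) 400 3871 := GoodF.ofV v3871 n3871 c3871.down b3871.down

/-- 10_555444:2005 -/
noncomputable def e3872 : SCfg where
  D := {
    a := 7
    L := 11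
    kp := 8
    inn := [(0, 1), (0, 2), (0, 3), (0, 4), (0, 5), (1, 0), (1, 4), (2, 0), (2, 5), (3, 0), (3, 6), (4,
      0), (4, 1), (5, 0), (5, 2), (6, 3)]
    mix := [(0, 0), (0, 1), (0, 2), (0, 3), (0, 4), (1, 1), (1, 5), (1, 6), (2, 2), (2, 7), (2, 8), (3,
      0), (3, 4), (3, 9), (4, 0), (4, 5), (5, 3), (5, 7), (6, 4), (6, 9), (6, 10)]
    cl := [0, 0, 1, 2, 0, 4, 7, 3, 6, 5, 8]
    chq := [(0, 3), (0, 6), (3, 0), (6, 0)]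
    rng := [(0, 5), (0, 9), (1, 2), (1, 6), (2, 1), (2, 8), (3, 4), (3, 7), (4, 3), (4, 10), (5, 0),
      (5, 6), (6, 1), (6, 5), (7, 3), (7, 8), (8, 2), (8, 7), (9, 0), (9, 10), (10, 4), (10, 9)]
    lev := [] }
  links := [[7, 4, 1, 8, 9, 2, 5, 10, 11, 3], [8, 0, 4, 12, 13], [14, 5, 0, 9, 15], [7, 0, 11, 6, 16],
    [0, 7, 12, 1], [0, 2, 14, 10], [3, 11, 17, 16]]
  P := {
    a := 7
    N := 18
    nb := [4030, 12561, 49697, 67777, 4227, 17413, 198664, 69657, 8707, 33029, 18465, 132169, 8338,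
      4354, 33828, 16900, 131272, 67648]
    tri := [(0, 1, 4), (0, 1, 8), (0, 2, 5), (0, 2, 9), (0, 3, 7), (0, 3, 11), (0, 4, 7), (0, 5, 10),
      (0, 8, 9), (0, 10, 11), (1, 4, 12), (1, 8, 13), (1, 12, 13), (2, 5, 14), (2, 9, 15), (2, 14,
      15), (3, 6, 11), (3, 6, 16), (3, 7, 16), (4, 7, 12), (5, 10, 14), (6, 11, 17), (6, 16, 17)]
    fin := [0, 0, 0, 0, 0, 0, 0, 0, 0, 9, 10, 0, 12, 13, 14, 15, 16, 17]
    chd := [(0, 14), (0, 15)]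
    steps := [(0, 1), (0, 2), (0, 3), (0, 4), (0, 5), (0, 6), (0, 7), (0, 8), (0, 11)] }
  rep := [0, 9, 10, 14, 12, 16, 15, 13, 17]

noncomputable def v3872 : Cov.CovD where
  P := 3
  N := 6
  pl := [2, 3, 5, 6, 9, 10]
  lev := [⟨[], [], [(0, 0)], [1, 2], [(0, 0, [3, 6]), (1, 0, [3, 6]), (4, 0, [3, 6])]⟩,
    ⟨[], [(0, 0)], [], [4, 7], [(1, 0, [3, 6])]⟩,
    ⟨[(0, 1)], [(0, 0), (0, 3), (0, 6)], [(3, 6)], [1], [(7, 3, [0]), (8, 6, [0])]⟩,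
    ⟨[(0, 1), (0, 2)], [(0, 0)], [(0, 0)], [5], [(0, 0, [3, 6]), (4, 0, [3, 6])]⟩,
    ⟨[(0, 1), (0, 2), (0, 3)], [(0, 0), (1, 0), (3, 0)], [], [4], [(0, 0, [3, 6])]⟩,
    ⟨[(0, 1), (0, 2), (0, 3), (0, 4)], [(0, 0), (0, 3), (2, 3), (2, 6)], [], [2], [(7, 3,
      [0])]⟩,
    ⟨[(0, 3)], [(0, 0), (3, 0)], [], [5, 8], [(4, 0, [3, 6])]⟩]
  Ta := [((0, 5), 0, 4), ((0, 9), 0, 5), ((1, 2), 0, 1), ((1, 6), 0, 7), ((4, 3), 0, 2), ((4,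
    10), 0, 8)]
  Tb := [((0, 5, 9), 0, 4, 5), ((1, 2, 6), 0, 1, 7), ((2, 1, 8), 1, 0, 6), ((3, 4, 7), 2, 0, 3),
    ((4, 3, 10), 0, 2, 8), ((5, 0, 6), 4, 0, 7), ((6, 1, 5), 7, 0, 4), ((7, 3, 8), 3, 2, 6),
    ((8, 2, 7), 6, 1, 3), ((9, 0, 10), 5, 0, 8), ((10, 4, 9), 8, 0, 5)]
  Tc := [(0, 3, 6)]
  Td := [((0, 3), (0, 5), 4), ((0, 3), (0, 9), 5), ((0, 3), (1, 2), 1), ((0, 3), (1, 6), 7), ((0,
    3), (4, 3), 2), ((0, 3), (4, 10), 8), ((0, 6), (0, 5), 4), ((0, 6), (0, 9), 5), ((0, 6),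
    (1, 2), 1), ((0, 6), (1, 6), 7), ((0, 6), (4, 3), 2), ((0, 6), (4, 10), 8), ((3, 0), (7,
    3), 2), ((3, 0), (7, 8), 6), ((6, 0), (8, 2), 1), ((6, 0), (8, 7), 3)]
  G := [[0, 0, 0, 0x11221114411128111c59c6125a5c18e61f8,
    0x11221114811144112118b18ea11aa31ae61f8], [0,
    0x11111161141116114111ce11211261121126111112ae6111188c111111a118111ae8c, 0,
    0x1411416111c411c16114111c2182e1e181181c18c, 0x1111116113111316511a411a16111a211a261e8],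
    [0, 0, 0xccacca6aaaaac66118, 0xcccccca1466966cea114, 0xccacca6aaaaaa66118]]

noncomputable def n3872 : Ent := ⟨e3872, noF, [], [], []⟩

def c3872 : PLift (Cov.check n3872.C.D v3872 = true) := ⟨by decide +kernel⟩

def b3872 : PLift (entF (fidx ts) 400 3872 n3872 = true) := ⟨by decide +kernel⟩

theorem g3872 : GoodF (fidx ts) 400 3872 := GoodF.ofV v3872 n3872 c3872.down b3872.down

/-- 10_555444:2006/1 -/
noncomputable def e3873 : SCfg where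
  D := {
    a := 7
    L := 10
    kp := 7
    inn := [(0, 1), (0, 2), (0, 3), (0, 4), (0, 5), (1, 0), (1, 4), (2, 0), (2, 5), (3, 0), (3, 6), (4,
      0), (4, 1), (5, 0), (5, 2), (6, 3)]
    mix := [(0, 0), (0, 1), (0, 2), (0, 3), (0, 4), (1, 1), (1, 5), (1, 6), (2, 2), (2, 7), (2, 8), (3,
      0), (3, 4), (3, 9), (4, 0), (4, 5), (5, 3), (5, 7), (6, 0), (6, 5), (6, 9)]
    cl := [0, 0, 2, 0, 1, 3, 7, 4, 6, 5]
    chq := [(0, 6), (1, 3), (3, 1), (6, 0)]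
    rng := [(0, 5), (1, 2), (1, 6), (2, 1), (2, 8), (3, 4), (3, 7), (4, 3), (4, 9), (5, 0), (5, 6), (5,
      9), (6, 1), (6, 5), (7, 3), (7, 8), (8, 2), (8, 7), (9, 4), (9, 5)]
    lev := [] }
  links := [[7, 4, 1, 8, 9, 2, 5, 10, 11, 3], [8, 0, 4, 12, 13], [14, 5, 0, 9, 15], [7, 0, 11, 16, 6],
    [0, 7, 12, 1], [0, 2, 14, 10], [3, 16, 12, 7]]
  P := {
    a := 7
    N := 17
    nb := [4030, 12561, 49697, 67777, 4227, 17413, 69768, 4185, 8707, 33029, 18465, 66569, 73938,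
      4354, 33828, 16900, 6216]
    tri := [(0, 1, 4), (0, 1, 8), (0, 2, 5), (0, 2, 9), (0, 3, 7), (0, 3, 11), (0, 4, 7), (0, 5, 10),
      (0, 8, 9), (0, 10, 11), (1, 4, 12), (1, 8, 13), (1, 12, 13), (2, 5, 14), (2, 9, 15), (2, 14,
      15), (3, 6, 7), (3, 6, 16), (3, 11, 16), (4, 7, 12), (5, 10, 14), (6, 7, 12), (6, 12, 16)]
    fin := [0, 0, 0, 3, 0, 0, 3, 0, 0, 9, 0, 3, 12, 13, 14, 15, 16]
    chd := [(0, 15), (3, 12)]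
    steps := [(0, 1), (0, 2), (0, 4), (0, 5), (0, 7), (0, 8), (0, 10), (3, 6), (3, 11)] }
  rep := [0, 3, 9, 12, 14, 16, 15, 13]

noncomputable def v3873 : Cov.CovD where
  P := 3
  N := 5
  pl := [2, 6, 7, 9]
  lev := [⟨[], [], [(0, 0), (0, 1)], [2], [(0, 0, [6]), (1, 0, [6]), (3, 0, [6]), (4, 1, [3])]⟩,
    ⟨[], [(0, 0), (0, 1), (0, 3)], [(0, 3)], [7], [(1, 0, [6]), (5, 3, [1])]⟩,
    ⟨[(0, 1)], [(0, 0), (0, 1), (0, 6)], [], [2, 4], [(8, 6, [0])]⟩,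
    ⟨[(0, 1), (0, 2)], [(0, 0), (0, 1)], [(0, 1)], [5], [(0, 0, [6]), (4, 1, [3])]⟩,
    ⟨[(0, 1), (0, 2), (0, 3)], [(0, 0), (0, 1), (0, 3), (1, 0), (1, 3), (3, 0)], [(0, 3)],
      [], [(0, 0, [6]), (5, 3, [1])]⟩,
    ⟨[(0, 1), (0, 2), (0, 3), (0, 4)], [(0, 0), (0, 1), (2, 0), (2, 6)], [], [4], [(3, 0,
      [6])]⟩,
    ⟨[(0, 3)], [(0, 0), (1, 3), (3, 0), (3, 1), (3, 3), (4, 0), (4, 3)], [(0, 3)], [5],
      [(0, 0, [6]), (5, 3, [1])]⟩]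
  Ta := [((0, 5), 0, 3), ((1, 2), 0, 2), ((1, 6), 0, 7), ((3, 4), 0, 1), ((3, 7), 0, 4)]
  Tb := [((1, 2, 6), 0, 2, 7), ((2, 1, 8), 2, 0, 6), ((3, 4, 7), 0, 1, 4), ((4, 3, 9), 1, 0, 5),
    ((5, 0, 6), 3, 0, 7), ((5, 0, 9), 3, 0, 5), ((5, 6, 9), 3, 7, 5), ((6, 1, 5), 7, 0, 3),
    ((7, 3, 8), 4, 0, 6), ((8, 2, 7), 6, 2, 4), ((9, 4, 5), 5, 1, 3)]
  Tc := []
  Td := [((0, 6), (0, 5), 3), ((0, 6), (1, 2), 2), ((0, 6), (1, 6), 7), ((0, 6), (3, 4), 1), ((0,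
    6), (3, 7), 4), ((1, 3), (4, 3), 0), ((1, 3), (4, 9), 5), ((3, 1), (5, 0), 0), ((3, 1),
    (5, 6), 7), ((3, 1), (5, 9), 5), ((6, 0), (8, 2), 2), ((6, 0), (8, 7), 4)]
  G := [[0, 0, 0, 0x22624462c1188a822a8c1886822a2c1ac, 0x226244a4c122624464c12262266aac2c178],
    [0, 0, 0x3428125441221254142425224421cec8822889818228caa12c12865c112129221122ceac,
    0x22644464c1116222a1c162861a2c8918c, 0x9962886251116244a2c1ccc122a251e8], [0,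
    0x1412c18241a14ae114, 0, 0x8822c182cc226829a1c2b22cd14, 0x622a425722182c1162642cb18]]

noncomputable def n3873 : Ent := ⟨e3873, noF, [], [], []⟩

def c3873 : PLift (Cov.check n3873.C.D v3873 = true) := ⟨by decide +kernel⟩

def b3873 : PLift (entF (fidx ts) 400 3873 n3873 = true) := ⟨by decide +kernel⟩

theorem g3873 : GoodF (fidx ts) 400 3873 := GoodF.ofV v3873 n3873 c3873.down b3873.down

/-- 10_555444:2006 -/
noncomputable def e3874 : SCfg where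
  D := {
    a := 7
    L := 11
    kp := 8
    inn := [(0, 1), (0, 2), (0, 3), (0, 4), (0, 5), (1, 0), (1, 4), (2, 0), (2, 5), (3, 0), (3, 6), (4,
      0), (4, 1), (5, 0), (5, 2), (6, 3)]
    mix := [(0, 0), (0, 1), (0, 2), (0, 3), (0, 4), (1, 1), (1, 5), (1, 6), (2, 2), (2, 7), (2, 8), (3,
      0), (3, 4), (3, 9), (4, 0), (4, 5), (5, 3), (5, 7), (6, 0), (6, 9), (6, 10)]
    cl := [0, 0, 2, 0, 1, 3, 8, 4, 6, 5, 7]
    chq := [(0, 6), (1, 7), (6, 0), (7, 1)]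
    rng := [(0, 5), (0, 10), (1, 2), (1, 6), (2, 1), (2, 8), (3, 4), (3, 7), (4, 3), (4, 9), (5, 0),
      (5, 6), (6, 1), (6, 5), (7, 3), (7, 8), (8, 2), (8, 7), (9, 4), (9, 10), (10, 0), (10, 9)]
    lev := [] }
  links := [[7, 4, 1, 8, 9, 2, 5, 10, 11, 3], [8, 0, 4, 12, 13], [14, 5, 0, 9, 15], [7, 0, 11, 16, 6],
    [0, 7, 12, 1], [0, 2, 14, 10], [3, 16, 17, 7]]
  P := {
    a := 7
    N := 18
    nb := [4030, 12561, 49697, 67777, 4227, 17413, 196744, 135257, 8707, 33029, 18465, 66569, 8338,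
      4354, 33828, 16900, 133192, 65728]
    tri := [(0, 1, 4), (0, 1, 8), (0, 2, 5), (0, 2, 9), (0, 3, 7), (0, 3, 11), (0, 4, 7), (0, 5, 10),
      (0, 8, 9), (0, 10, 11), (1, 4, 12), (1, 8, 13), (1, 12, 13), (2, 5, 14), (2, 9, 15), (2, 14,
      15), (3, 6, 7), (3, 6, 16), (3, 11, 16), (4, 7, 12), (5, 10, 14), (6, 7, 17), (6, 16, 17)]
    fin := [0, 0, 0, 3, 0, 0, 3, 0, 0, 9, 0, 3, 12, 13, 14, 15, 16, 17]
    chd := [(0, 15), (3, 17)]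
    steps := [(0, 1), (0, 2), (0, 4), (0, 5), (0, 7), (0, 8), (0, 10), (3, 6), (3, 11)] }
  rep := [0, 3, 9, 12, 14, 16, 15, 17, 13]

noncomputable def v3874 : Cov.CovD where
  P := 3
  N := 6
  pl := [2, 5, 6, 7, 9]
  lev := [⟨[], [], [(0, 0), (0, 1)], [2], [(0, 0, [6]), (1, 0, [6]), (3, 0, [6]), (4, 1, [7])]⟩,
    ⟨[], [(0, 0), (0, 1)], [], [3, 8], [(1, 0, [6])]⟩,
    ⟨[(0, 1)], [(0, 0), (0, 1), (0, 6)], [], [2, 4], [(8, 6, [0])]⟩,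
    ⟨[(0, 1), (0, 2)], [(0, 0), (0, 1)], [(0, 1)], [5], [(0, 0, [6]), (4, 1, [7])]⟩,
    ⟨[(0, 1), (0, 2), (0, 3)], [(0, 0), (0, 1), (1, 0), (3, 0)], [], [3], [(0, 0, [6])]⟩,
    ⟨[(0, 1), (0, 2), (0, 3), (0, 4)], [(0, 0), (0, 1), (2, 0), (2, 6)], [], [4], [(3, 0,
      [6])]⟩,
    ⟨[(0, 3)], [(0, 0), (3, 0), (3, 1), (3, 7), (4, 0)], [(0, 7)], [5], [(0, 0, [6]), (10,
      7, [1])]⟩]
  Ta := [((0, 5), 0, 3), ((0, 10), 0, 7), ((1, 2), 0, 2), ((1, 6), 0, 8), ((3, 4), 0, 1), ((3,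
    7), 0, 4)]
  Tb := [((0, 5, 10), 0, 3, 7), ((1, 2, 6), 0, 2, 8), ((2, 1, 8), 2, 0, 6), ((3, 4, 7), 0, 1, 4),
    ((4, 3, 9), 1, 0, 5), ((5, 0, 6), 3, 0, 8), ((6, 1, 5), 8, 0, 3), ((7, 3, 8), 4, 0, 6),
    ((8, 2, 7), 6, 2, 4), ((9, 4, 10), 5, 1, 7), ((10, 0, 9), 7, 0, 5)]
  Tc := []
  Td := [((0, 6), (0, 5), 3), ((0, 6), (0, 10), 7), ((0, 6), (1, 2), 2), ((0, 6), (1, 6), 8),
    ((0, 6), (3, 4), 1), ((0, 6), (3, 7), 4), ((1, 7), (4, 3), 0), ((1, 7), (4, 9), 5), ((6,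
    0), (8, 2), 2), ((6, 0), (8, 7), 4), ((7, 1), (10, 0), 0), ((7, 1), (10, 9), 5)]
  G := [[0, 0, 0, 0xe662416264eaa4c13eec822a8c12aa281ac,
    0x2264ee64c12662ea64c12262666ea648cc178], [0, 0,
    0x611a145241114c124224ce611a125241112cc212125e6188218c218e1893182189e8c,
    0x22611164c1116222c2c163aa82668918c, 0xcc61226226651226111a4c1336222a291e8], [0,
    0x181214e11a11aac114, 0, 0x388382284dc832a2828a9c23834e2222c9d14,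
    0xc2326222465322328284d242c414c2268db18]]

noncomputable def n3874 : Ent := ⟨e3874, noF, [], [], [(12, 17, [6903326391201334775872065844685381424292761054348340378595029945552897, 0])]⟩

def c3874 : PLift (Cov.check n3874.C.D v3874 = true) := ⟨by decide +kernel⟩

def b3874 : PLift (entF (fidx ts) 400 3874 n3874 = true) := ⟨by decide +kernel⟩

theorem g3874 : GoodF (fidx ts) 400 3874 := GoodF.ofV v3874 n3874 c3874.down b3874.down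

/-- 10_566544:2007 -/
noncomputable def e3875 : SCfg where
  D := {
    a := 7
    L := 11
    kp := 9
    inn := [(0, 1), (0, 2), (0, 3), (0, 4), (0, 5), (0, 6), (1, 0), (1, 2), (1, 5), (2, 0), (2, 1), (2,
      3), (3, 0), (3, 2), (3, 4), (4, 0), (4, 3), (4, 6), (5, 0), (5, 1), (6, 0), (6, 4)]
    mix := [(0, 0), (0, 1), (0, 2), (0, 3), (1, 4), (1, 5), (2, 5), (2, 6), (2, 7), (3, 7), (3, 8), (3,
      9), (4, 8), (4, 10), (5, 0), (5, 4), (6, 1), (6, 10)]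
    cl := [0, 0, 7, 8, 2, 1, 9, 4, 3, 6, 5]
    chq := [(0, 1), (0, 3), (1, 0), (1, 3), (1, 4), (1, 6), (3, 0), (3, 1), (4, 1), (6, 1)]
    rng := [(0, 3), (0, 4), (1, 2), (1, 10), (2, 1), (2, 3), (3, 0), (3, 2), (4, 0), (4, 5), (5, 4),
      (5, 6), (6, 5), (6, 7), (7, 6), (7, 9), (8, 9), (8, 10), (9, 7), (9, 8), (10, 1), (10, 8)]
    lev := [] }
  links := [[7, 5, 1, 2, 3, 4, 6, 8, 9, 10], [2, 0, 5, 11, 12], [3, 0, 1, 12, 13, 14], [15, 4, 0, 2, 14,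
    16], [17, 6, 0, 3, 15], [0, 7, 11, 1], [0, 4, 17, 8]]
  P := {
    a := 7
    N := 18
    nb := [2046, 6181, 28683, 114709, 163913, 2179, 131345, 3105, 131649, 1281, 641, 4258, 10246,
      20484, 73740, 196632, 49160, 33104]
    tri := [(0, 1, 2), (0, 1, 5), (0, 2, 3), (0, 3, 4), (0, 4, 6), (0, 5, 7), (0, 6, 8), (0, 7, 10),
      (0, 8, 9), (0, 9, 10), (1, 2, 12), (1, 5, 11), (1, 11, 12), (2, 3, 14), (2, 12, 13), (2, 13,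
      14), (3, 4, 15), (3, 14, 16), (3, 15, 16), (4, 6, 17), (4, 15, 17), (5, 7, 11), (6, 8, 17)]
    fin := [0, 0, 2, 2, 0, 0, 0, 0, 0, 9, 10, 11, 2, 13, 14, 15, 16, 17]
    chd := [(0, 2), (0, 15), (2, 14), (2, 15), (2, 16)]
    steps := [(0, 1), (0, 4), (0, 5), (0, 6), (0, 7), (0, 8), (2, 3), (2, 12)] }
  rep := [0, 2, 11, 15, 14, 17, 16, 9, 10, 13]

noncomputable def v3875 : Cov.CovD where
  P := 3
  N := 7
  pl := [2, 3, 4, 6, 10]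
  lev := [⟨[], [], [(0, 0)], [7, 8], [(0, 0, [1, 3]), (1, 0, [1, 3])]⟩,
    ⟨[], [(0, 0), (0, 1)], [], [2], [(5, 1, [0, 3, 4, 6])]⟩,
    ⟨[(0, 1)], [(0, 0), (0, 1), (0, 4), (1, 1), (1, 4)], [(1, 4)], [9], [(5, 1, [0, 3, 4,
      6]), (7, 4, [1])]⟩,
    ⟨[(0, 1), (0, 2), (1, 2)], [(0, 0), (0, 3), (0, 4), (0, 6), (2, 1), (2, 3), (2, 4), (2,
      6)], [(3, 4), (3, 6), (4, 6)], [], [(7, 4, [1]), (8, 3, [0, 1]), (9, 6, [1])]⟩,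
    ⟨[(0, 1), (0, 2), (0, 3), (2, 3)], [(0, 0), (0, 3), (3, 3), (3, 4), (3, 6)], [], [5],
      [(8, 3, [0, 1])]⟩,
    ⟨[(0, 1), (0, 2), (0, 3), (0, 4), (1, 2)], [(0, 0), (1, 0), (1, 1)], [], [2], [(0, 0,
      [1, 3])]⟩,
    ⟨[(0, 1), (0, 2), (0, 3), (0, 4), (0, 5), (3, 4)], [(0, 0), (4, 0), (4, 3)], [], [5],
      [(1, 0, [1, 3])]⟩]
  Ta := [((0, 3), 0, 8), ((0, 4), 0, 2), ((1, 2), 0, 7), ((1, 10), 0, 5)]
  Tb := [((0, 3, 4), 0, 8, 2), ((1, 2, 10), 0, 7, 5), ((2, 1, 3), 7, 0, 8), ((3, 0, 2), 8, 0, 7),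
    ((4, 0, 5), 2, 0, 1), ((5, 4, 6), 1, 2, 9), ((6, 5, 7), 9, 1, 4), ((7, 6, 9), 4, 9, 6),
    ((8, 9, 10), 3, 6, 5), ((9, 7, 8), 6, 4, 3), ((10, 1, 8), 5, 0, 3)]
  Tc := [(0, 1, 3), (1, 0, 3), (1, 0, 4), (1, 0, 6), (1, 3, 4), (1, 3, 6), (1, 4, 6), (3, 0, 1)]
  Td := [((0, 1), (0, 3), 8), ((0, 1), (0, 4), 2), ((0, 1), (1, 2), 7), ((0, 1), (1, 10), 5),
    ((0, 3), (0, 3), 8), ((0, 3), (0, 4), 2), ((0, 3), (1, 2), 7), ((0, 3), (1, 10), 5), ((1,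
    0), (5, 4), 2), ((1, 0), (5, 6), 9), ((1, 3), (5, 4), 2), ((1, 3), (5, 6), 9), ((1, 4),
    (5, 4), 2), ((1, 4), (5, 6), 9), ((1, 6), (5, 4), 2), ((1, 6), (5, 6), 9), ((3, 0), (8,
    9), 6), ((3, 0), (8, 10), 5), ((3, 1), (8, 9), 6), ((3, 1), (8, 10), 5), ((4, 1), (7, 6),
    9), ((4, 1), (7, 9), 6), ((6, 1), (9, 7), 4), ((6, 1), (9, 8), 3)]
  G := [[0, 0x611168116111e4a811a811a811e1c4116811c411e4e,
    0x64126212a212d4c212a2126812d8a81681a81d4641c81c81a81fc812281281c41124218efdce,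
    0x641268126412d1a412a812a412d8c812c812c412d4e,
    0x6212c212c212d1a212a812a812d8a81a81c81c21fc21681c81824218ef5a81681c81a81f89e], [0,
    0x64116111a111e4c811a811a411e1c411a411c411e1e, 0,
    0x446432448432448432d141843288a132814832d88884c1d28841c1d24148c1d2d4e,
    0x424262722248c2d22228424828d2f1828122d28182a1b221242282a2d2f821419424861b4848c8d82489f21429882854148c1d8148c8ef54288c27822858888c8d82285f89e]]

noncomputable def n3875 : Ent := ⟨e3875, noF, [], [], []⟩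

def c3875 : PLift (Cov.check n3875.C.D v3875 = true) := ⟨by decide +kernel⟩

def b3875 : PLift (entF (fidx ts) 400 3875 n3875 = true) := ⟨by decide +kernel⟩

theorem g3875 : GoodF (fidx ts) 400 3875 := GoodF.ofV v3875 n3875 c3875.down b3875.down

/-- 11_555444:2008 -/
noncomputable def e3876 : SCfg where
  D := {
    a := 7
    L := 11
    kp := 8
    inn := [(0, 1), (0, 2), (0, 3), (0, 4), (0, 5), (0, 6), (1, 0), (1, 4), (2, 0), (2, 5), (3, 0), (3,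
      6), (4, 0), (4, 1), (5, 0), (5, 2), (6, 0), (6, 3)]
    mix := [(0, 0), (0, 1), (0, 2), (0, 3), (0, 4), (1, 4), (1, 5), (1, 6), (2, 1), (2, 7), (2, 8), (3,
      3), (3, 9), (3, 10), (4, 0), (4, 5), (5, 0), (5, 7), (6, 2), (6, 9)]
    cl := [0, 0, 1, 0, 2, 3, 6, 4, 8, 5, 7]
    chq := [(0, 6), (1, 7), (6, 0), (7, 1)]
    rng := [(0, 5), (0, 7), (1, 2), (1, 8), (2, 1), (2, 9), (3, 4), (3, 10), (4, 3), (4, 6), (5, 0),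
      (5, 6), (6, 4), (6, 5), (7, 0), (7, 8), (8, 1), (8, 7), (9, 2), (9, 10), (10, 3), (10, 9)]
    lev := [] }
  links := [[1, 4, 7, 5, 2, 8, 9, 6, 3, 10, 11], [12, 4, 0, 11, 13], [8, 0, 5, 14, 15], [10, 0, 6, 16,
    17], [0, 1, 12, 7], [0, 7, 14, 2], [0, 9, 16, 3]]
  P := {
    a := 7
    N := 18
    nb := [4094, 14353, 49441, 197697, 4227, 16517, 66057, 20529, 33285, 65857, 133129, 9219, 8338,
      6146, 32932, 16644, 131656, 66568]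
    tri := [(0, 1, 4), (0, 1, 11), (0, 2, 5), (0, 2, 8), (0, 3, 6), (0, 3, 10), (0, 4, 7), (0, 5, 7),
      (0, 6, 9), (0, 8, 9), (0, 10, 11), (1, 4, 12), (1, 11, 13), (1, 12, 13), (2, 5, 14), (2, 8,
      15), (2, 14, 15), (3, 6, 16), (3, 10, 17), (3, 16, 17), (4, 7, 12), (5, 7, 14), (6, 9, 16)]
    fin := [0, 0, 0, 3, 0, 0, 3, 0, 0, 3, 0, 11, 12, 13, 14, 15, 16, 17]
    chd := [(0, 13), (3, 17)]
    steps := [(0, 1), (0, 2), (0, 4), (0, 5), (0, 7), (0, 8), (0, 10), (3, 6), (3, 9)] }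
  rep := [0, 3, 11, 12, 14, 16, 13, 17, 15]

noncomputable def v3876 : Cov.CovD where
  P := 3
  N := 6
  pl := [4, 5, 7, 8, 9]
  lev := [⟨[], [], [(0, 0), (0, 1)], [2], [(0, 0, [6]), (1, 0, [6]), (2, 1, [7]), (3, 0, [6])]⟩,
    ⟨[], [(0, 0), (0, 1), (0, 6)], [], [2, 3], [(6, 6, [0])]⟩,
    ⟨[(0, 1)], [(0, 0), (0, 1)], [], [4, 8], [(1, 0, [6])]⟩,
    ⟨[(0, 1), (0, 2)], [(0, 0), (0, 1), (0, 7)], [(0, 7)], [5], [(3, 0, [6]), (10, 7,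
      [1])]⟩,
    ⟨[(0, 1), (0, 2), (0, 3)], [(0, 0), (0, 1), (1, 0), (1, 6)], [], [3], [(0, 0, [6])]⟩,
    ⟨[(0, 1), (0, 2), (0, 3), (0, 4)], [(0, 0), (0, 1), (2, 0), (4, 0)], [], [4], [(0, 0,
      [6])]⟩,
    ⟨[(0, 1), (0, 2), (0, 3), (0, 4), (0, 5)], [(0, 0), (0, 1), (3, 0), (3, 1), (3, 7)],
      [], [5], [(2, 1, [7])]⟩]
  Ta := [((0, 5), 0, 3), ((0, 7), 0, 4), ((1, 2), 0, 1), ((1, 8), 0, 8), ((3, 4), 0, 2), ((3,
    10), 0, 7)]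
  Tb := [((0, 5, 7), 0, 3, 4), ((1, 2, 8), 0, 1, 8), ((2, 1, 9), 1, 0, 5), ((3, 4, 10), 0, 2, 7),
    ((4, 3, 6), 2, 0, 6), ((5, 0, 6), 3, 0, 6), ((6, 4, 5), 6, 2, 3), ((7, 0, 8), 4, 0, 8),
    ((8, 1, 7), 8, 0, 4), ((9, 2, 10), 5, 1, 7), ((10, 3, 9), 7, 0, 5)]
  Tc := []
  Td := [((0, 6), (0, 5), 3), ((0, 6), (0, 7), 4), ((0, 6), (1, 2), 1), ((0, 6), (1, 8), 8), ((0,
    6), (3, 4), 2), ((0, 6), (3, 10), 7), ((1, 7), (2, 1), 0), ((1, 7), (2, 9), 5), ((6, 0),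
    (6, 4), 2), ((6, 0), (6, 5), 3), ((7, 1), (10, 3), 0), ((7, 1), (10, 9), 5)]
  G := [[0, 0, 0, 0x48a4c864314856848c8318888c4848a34282a8242a39428423b9c,
    0x5562446231886244a2314484a844463825864442a358448437b8], [0, 0x61616161a4c1a2c261e18, 0,
    0x814864881a39191a8181a34182a814163e14, 0x51516414163818164144a34181c81c263e18], [0, 0,
    0x18c141441c818a8cca1e181a119a1a1146211a1c9c1e1ec, 0x841288e88a88aa149852ee114,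
    0x416446641644ca51c11a6e118]]

noncomputable def n3876 : Ent := ⟨e3876, noF, [], [], []⟩

def c3876 : PLift (Cov.check n3876.C.D v3876 = true) := ⟨by decide +kernel⟩

def b3876 : PLift (entF (fidx ts) 400 3876 n3876 = true) := ⟨by decide +kernel⟩

theorem g3876 : GoodF (fidx ts) 400 3876 := GoodF.ofV v3876 n3876 c3876.down b3876.down

/-- 11_564444:2015 -/
noncomputable def e3877 : SCfg where
  D := {
    a := 7
    L := 11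
    kp := 8
    inn := [(0, 1), (0, 2), (0, 3), (0, 4), (0, 5), (0, 6), (1, 0), (1, 3), (2, 0), (2, 4), (2, 5), (3,
      0), (3, 1), (4, 0), (4, 2), (5, 0), (5, 2), (6, 0)]
    mix := [(0, 0), (0, 1), (0, 2), (0, 3), (0, 4), (1, 4), (1, 5), (1, 6), (2, 7), (2, 8), (2, 9), (3,
      0), (3, 5), (4, 0), (4, 8), (5, 1), (5, 7), (6, 1), (6, 2), (6, 10)]
    cl := [0, 0, 3, 5, 0, 1, 8, 4, 2, 6, 7]
    chq := [(0, 6), (5, 7), (6, 0), (7, 5)]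
    rng := [(0, 5), (0, 8), (1, 7), (1, 10), (2, 3), (2, 10), (3, 2), (3, 4), (4, 3), (4, 6), (5, 0),
      (5, 6), (6, 4), (6, 5), (7, 1), (7, 9), (8, 0), (8, 9), (9, 7), (9, 8), (10, 1), (10, 2)]
    lev := [] }
  links := [[1, 3, 7, 4, 2, 5, 8, 6, 9, 10, 11], [12, 3, 0, 11, 13], [14, 5, 0, 4, 15, 16], [0, 1, 12,
    7], [0, 7, 15, 2], [0, 2, 14, 8], [0, 8, 17, 9]]
  P := {
    a := 7
    N := 18
    nb := [4094, 14345, 114737, 4227, 32901, 16645, 131841, 36889, 147553, 132161, 2561, 9219, 8330,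
      6146, 65828, 65684, 49156, 832]
    tri := [(0, 1, 3), (0, 1, 11), (0, 2, 4), (0, 2, 5), (0, 3, 7), (0, 4, 7), (0, 5, 8), (0, 6, 8),
      (0, 6, 9), (0, 9, 10), (0, 10, 11), (1, 3, 12), (1, 11, 13), (1, 12, 13), (2, 4, 15), (2, 5,
      14), (2, 14, 16), (2, 15, 16), (3, 7, 12), (4, 7, 15), (5, 8, 14), (6, 8, 17), (6, 9, 17)]
    fin := [0, 1, 1, 1, 1, 1, 0, 1, 1, 9, 0, 1, 12, 13, 14, 15, 16, 17]
    chd := [(0, 17), (1, 16)]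
    steps := [(0, 6), (0, 10), (1, 3), (1, 7), (1, 4), (1, 2), (1, 5), (1, 8), (1, 11)] }
  rep := [1, 12, 15, 9, 14, 0, 16, 17, 13]

noncomputable def v3877 : Cov.CovD where
  P := 3
  N := 6
  pl := [2, 5, 6, 7, 8]
  lev := [⟨[], [], [(0, 0), (0, 5)], [3], [(0, 0, [6]), (1, 0, [6]), (3, 5, [7]), (4, 0, [6])]⟩,
    ⟨[], [(0, 0), (0, 5)], [], [1, 8], [(4, 0, [6])]⟩,
    ⟨[(0, 1)], [(0, 0), (0, 5), (0, 6)], [], [2, 4], [(9, 6, [0])]⟩,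
    ⟨[(0, 1), (0, 2)], [(0, 0), (0, 5), (1, 0)], [], [1], [(0, 0, [6])]⟩,
    ⟨[(0, 1), (0, 2), (0, 3)], [(0, 0), (0, 5), (2, 0), (2, 6), (3, 0)], [], [2], [(0, 0,
      [6])]⟩,
    ⟨[(0, 1), (0, 2), (0, 3), (0, 4), (2, 4)], [(0, 0), (0, 5), (2, 0), (2, 6)], [], [4],
      [(1, 0, [6])]⟩,
    ⟨[(0, 1), (0, 2), (0, 3), (0, 4), (0, 5)], [(0, 0), (0, 5), (0, 7), (5, 0)], [(0, 7)],
      [3], [(1, 0, [6]), (10, 7, [5])]⟩]
  Ta := [((0, 5), 0, 1), ((0, 8), 0, 2), ((1, 7), 0, 4), ((1, 10), 0, 7), ((4, 3), 0, 5), ((4,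
    6), 0, 8)]
  Tb := [((0, 5, 8), 0, 1, 2), ((1, 7, 10), 0, 4, 7), ((2, 3, 10), 3, 5, 7), ((3, 2, 4), 5, 3,
    0), ((4, 3, 6), 0, 5, 8), ((5, 0, 6), 1, 0, 8), ((6, 4, 5), 8, 0, 1), ((7, 1, 9), 4, 0,
    6), ((8, 0, 9), 2, 0, 6), ((9, 7, 8), 6, 4, 2), ((10, 1, 2), 7, 0, 3)]
  Tc := []
  Td := [((0, 6), (0, 5), 1), ((0, 6), (0, 8), 2), ((0, 6), (1, 7), 4), ((0, 6), (1, 10), 7),
    ((0, 6), (4, 3), 5), ((0, 6), (4, 6), 8), ((5, 7), (3, 2), 3), ((5, 7), (3, 4), 0), ((6,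
    0), (9, 7), 4), ((6, 0), (9, 8), 2), ((7, 5), (10, 1), 0), ((7, 5), (10, 2), 3)]
  G := [[0, 0x636421516421611c821a3a821a1ca44159c841ce,
    0x614414241248e1a828a1883288e11848c144c148e1e, 0x35a4411a16881191c8411e,
    0x636241191a28111968811e], [0, 0, 0, 0x641464146244d1a814a818a288d1c844c488c288d1e,
    0x6214648466624b1a828a218a428b1c818c814c488b1e], [0, 0, 0,
    0x1664415b6411ca1681191a881cc1c44119c441ce, 0x156241116211c39a28133a281c51c8815cc841ce]]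

noncomputable def n3877 : Ent := ⟨e3877, noF, [], [], []⟩

def c3877 : PLift (Cov.check n3877.C.D v3877 = true) := ⟨by decide +kernel⟩

def b3877 : PLift (entF (fidx ts) 400 3877 n3877 = true) := ⟨by decide +kernel⟩

theorem g3877 : GoodF (fidx ts) 400 3877 := GoodF.ofV v3877 n3877 c3877.down b3877.down

/-- The entries 3808 to 3877. -/
theorem rE28 : Rng (GoodF (fidx ts) 400) 3808 3878 :=
  (((((((((((((((((((((((((((((((((((((((((((((((((((((((((((((((((((((((Rng.nil _ 3808).snoc g3808 rfl).snoc g3809 rfl).snoc g3810 rfl).snoc g3811 rfl).snoc g3812 rfl).snoc g3813 rfl).snoc g3814 rfl).snoc g3815 rfl).snoc g3816 rfl).snoc g3817 rfl).snoc g3818 rfl).snoc g3819 rfl).snoc g3820 rfl).snoc g3821 rfl).snoc g3822 rfl).snoc g3823 rfl).snoc g3824 rfl).snoc g3825 rfl).snoc g3826 rfl).snoc g3827 rfl).snoc g3828 rfl).snoc g3829 rfl).snoc g3830 rfl).snoc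 g3831 rfl).snoc g3832 rfl).snoc g3833 rfl).snoc g3834 rfl).snoc g3835 rfl).snoc g3836 rfl).snoc g3837 rfl).snoc g3838 rfl).snoc g3839 rfl).snoc g3840 rfl).snoc g3841 rfl).snoc g3842 rfl).snoc g3843 rfl).snoc g3844 rfl).snoc g3845 rfl).snoc g3846 rfl).snoc g3847 rfl).snoc g3848 rfl).snoc g3849 rfl).snoc g3850 rfl).snoc g3851 rfl).snoc g3852 rfl).snoc g3853 rfl).snoc g3854 rfl).snoc g3855 rfl).snoc g3856 rfl).snoc g3857 rfl).snoc g3858 rfl).snoc g3859 rfl).snoc g3860 rfl).snoc g3861 rfl).snoc g3862 rfl).snoc g3863 rfl).snoc g3864 rfl).snoc g3865 rfl).snoc g3866 rfl).snoc g3867 rfl).snoc g3868 rfl).snoc g3869 rfl).snoc g3870 rfl).snoc g3871 rfl).snoc g3872 rfl).snoc g3873 rfl).snoc g3874 rfl).snoc g3875 rfl).snoc g3876 rfl).snoc g3877 rfl)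

end Pool.Agent.W986.ST.Dat
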