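import Pool.Agent.W986.Dat.Tab
import Pool.Agent.W986.SubAltB

/-!
# Entries 518 to 675 of the table
-/

set_option autoImplicit false

namespace Pool.Agent.W986.ST.Dat

/-- 457664:444/1 -/
noncomputable def e518 : SCfg where
  D := {
    a := 6
    L := 9
    kp := 6
    inn := [(0, 1), (0, 2), (0, 3), (1, 0), (1, 2), (2, 0), (2, 1), (2, 3), (3, 0), (3, 2), (3, 4), (4,
      3), (4, 5), (5, 4)]
    mix := [(0, 0), (1, 0), (1, 1), (1, 2), (2, 2), (2, 3), (2, 4), (2, 5), (3, 0), (3, 5), (3, 6), (4,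
      0), (4, 1), (4, 6), (4, 7), (5, 6), (5, 7), (5, 8)]
    cl := [0, 2, 1, 4, 5, 1, 0, 3, 6]
    chq := [(0, 3), (3, 0)]
    rng := [(0, 1), (1, 0), (1, 2), (1, 7), (2, 1), (2, 3), (3, 2), (3, 4), (4, 3), (4, 5), (5, 4), (5,
      6), (6, 5), (6, 8), (7, 1), (7, 8), (8, 6), (8, 7)]
    lev := [] }
  links := [[1, 2, 3, 6], [2, 0, 6, 7, 8], [3, 0, 1, 8, 9, 10, 11], [6, 0, 2, 11, 12, 4], [6, 3, 12, 5,
    13, 7], [13, 4, 12, 14]]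
  P := {
    a := 6
    N := 15
    nb := [78, 453, 3851, 6229, 12520, 28688, 155, 8530, 646, 1284, 2564, 5132, 18488, 16560, 12320]
    tri := [(0, 1, 2), (0, 1, 6), (0, 2, 3), (0, 3, 6), (1, 2, 8), (1, 6, 7), (1, 7, 8), (2, 3, 11),
      (2, 8, 9), (2, 9, 10), (2, 10, 11), (3, 4, 6), (3, 4, 12), (3, 11, 12), (4, 5, 12), (4, 5,
      13), (4, 6, 7), (4, 7, 13), (5, 12, 14), (5, 13, 14)]
    fin := [0, 0, 2, 0, 0, 0, 0, 7, 2, 9, 10, 2, 0, 13, 14]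
    chd := [(0, 13)]
    steps := [(0, 1), (0, 3), (0, 6), (0, 4), (0, 5), (0, 12), (2, 8), (2, 11)] }
  rep := [0, 2, 7, 13, 9, 10, 14]

noncomputable def v518 : Cov.CovD where
  P := 3
  N := 4
  pl := [1, 3, 4, 8]
  lev := [⟨[], [], [], [], [(0, 0, [3])]⟩,
    ⟨[], [(0, 0), (0, 1)], [(0, 1)], [2], [(0, 0, [3]), (2, 1, [])]⟩,
    ⟨[(0, 1)], [(0, 0), (0, 1), (1, 0), (1, 1)], [(1, 1)], [4, 5], [(2, 1, []), (5, 1,
      [])]⟩,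
    ⟨[(0, 1), (0, 2), (1, 2)], [(0, 0), (0, 1), (1, 0), (2, 0), (2, 1)], [(0, 0), (0, 1)],
      [], [(0, 0, [3]), (5, 1, []), (6, 0, [3])]⟩,
    ⟨[(0, 3), (2, 3)], [(0, 0), (1, 0), (3, 0), (3, 1), (3, 3)], [(0, 0), (0, 3)], [2],
      [(0, 0, [3]), (6, 0, [3]), (7, 3, [0])]⟩,
    ⟨[(3, 4)], [(3, 0), (4, 0), (4, 3)], [(0, 3)], [6], [(6, 0, [3]), (7, 3, [0])]⟩]
  Ta := [((0, 1), 0, 2), ((2, 1), 1, 2), ((2, 3), 1, 4), ((5, 4), 1, 5), ((5, 6), 1, 0), ((6, 5),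
    0, 1), ((6, 8), 0, 6)]
  Tb := [((1, 0, 2), 2, 0, 1), ((1, 0, 7), 2, 0, 3), ((1, 2, 7), 2, 1, 3), ((2, 1, 3), 1, 2, 4),
    ((3, 2, 4), 4, 1, 5), ((4, 3, 5), 5, 4, 1), ((5, 4, 6), 1, 5, 0), ((6, 5, 8), 0, 1, 6),
    ((7, 1, 8), 3, 2, 6), ((8, 6, 7), 6, 0, 3)]
  Tc := []
  Td := [((0, 3), (0, 1), 2), ((0, 3), (6, 5), 1), ((0, 3), (6, 8), 6), ((3, 0), (7, 1), 2), ((3,
    0), (7, 8), 6)]
  G := [[0, 0, 0x11a411c811c4d82, 0xa1c216c216c2d48, 0xc1a416a816a8d82], [0, 0,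
    0x11a411681164d48, 0, 0x16a41ba853a8d82], [0, 0, 0, 0xa86464a6c2a6c29c8,
    0xc6a4c6a4c6a4d82], [0, 0xa6c2a6c264a8ce42, 0, 0, 0xc6a4c6a4c6a4d82]]

noncomputable def n518 : Ent := ⟨e518, noF, [], [], [(10, 14, [81620716623019490593592230936445690773474979418095885504513, 0])]⟩

def c518 : PLift (Cov.check n518.C.D v518 = true) := ⟨by decide +kernel⟩

def b518 : PLift (entF (fidx ts) 400 518 n518 = true) := ⟨by decide +kernel⟩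

theorem g518 : GoodF (fidx ts) 400 518 := GoodF.ofV v518 n518 c518.down b518.down

/-- 457664:444/3 -/
noncomputable def e519 : SCfg where
  D := {
    a := 6
    L := 9
    kp := 6
    inn := [(0, 1), (0, 2), (0, 3), (1, 0), (1, 2), (2, 0), (2, 1), (2, 3), (3, 0), (3, 2), (3, 4), (4,
      3), (4, 5), (5, 4)]
    mix := [(0, 0), (1, 0), (1, 1), (1, 2), (2, 2), (2, 3), (2, 4), (2, 5), (3, 0), (3, 5), (3, 6), (4,
      0), (4, 6), (4, 7), (4, 8), (5, 4), (5, 6), (5, 7)]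
    cl := [0, 4, 1, 5, 2, 1, 0, 3, 6]
    chq := [(0, 3), (3, 0)]
    rng := [(0, 1), (0, 8), (1, 0), (1, 2), (2, 1), (2, 3), (3, 2), (3, 4), (4, 3), (4, 5), (4, 6), (4,
      7), (5, 4), (5, 6), (6, 4), (6, 5), (7, 4), (7, 8), (8, 0), (8, 7)]
    lev := [] }
  links := [[1, 2, 3, 6], [2, 0, 6, 7, 8], [3, 0, 1, 8, 9, 10, 11], [6, 0, 2, 11, 12, 4], [6, 3, 12, 5,
    13, 14], [13, 4, 12, 10]]
  P := {
    a := 6
    N := 15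
    nb := [78, 453, 3851, 6229, 28776, 13328, 16539, 322, 646, 1284, 14884, 5132, 3128, 17456, 8272]
    tri := [(0, 1, 2), (0, 1, 6), (0, 2, 3), (0, 3, 6), (1, 2, 8), (1, 6, 7), (1, 7, 8), (2, 3, 11),
      (2, 8, 9), (2, 9, 10), (2, 10, 11), (3, 4, 6), (3, 4, 12), (3, 11, 12), (4, 5, 12), (4, 5,
      13), (4, 6, 14), (4, 13, 14), (5, 10, 12), (5, 10, 13)]
    fin := [0, 0, 2, 0, 0, 0, 0, 7, 2, 9, 10, 2, 0, 13, 14]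
    chd := [(0, 13)]
    steps := [(0, 1), (0, 3), (0, 4), (0, 5), (0, 6), (0, 12), (2, 8), (2, 11)] }
  rep := [0, 2, 10, 13, 7, 9, 14]

noncomputable def v519 : Cov.CovD where
  P := 3
  N := 4
  pl := [1, 3, 4, 8]
  lev := [⟨[], [], [], [], [(0, 0, [3])]⟩,
    ⟨[], [(0, 0), (0, 1)], [(0, 1)], [4], [(0, 0, [3]), (2, 1, [])]⟩,
    ⟨[(0, 1)], [(0, 0), (0, 1), (1, 0), (1, 1)], [(1, 1)], [2, 5], [(2, 1, []), (5, 1,
      [])]⟩,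
    ⟨[(0, 1), (0, 2), (1, 2)], [(0, 0), (0, 1), (1, 0), (2, 0), (2, 1)], [(0, 0), (0, 1)],
      [], [(0, 0, [3]), (5, 1, []), (6, 0, [3])]⟩,
    ⟨[(0, 3), (2, 3)], [(0, 0), (1, 0), (3, 0), (3, 1), (3, 3)], [(0, 0), (0, 3)], [6],
      [(0, 0, [3]), (6, 0, [3]), (7, 3, [0])]⟩,
    ⟨[(3, 4)], [(3, 0), (4, 0), (4, 3)], [(0, 3)], [2], [(6, 0, [3]), (7, 3, [0])]⟩]
  Ta := [((0, 1), 0, 4), ((0, 8), 0, 6), ((2, 1), 1, 4), ((2, 3), 1, 5), ((5, 4), 1, 2), ((5, 6),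
    1, 0), ((6, 4), 0, 2), ((6, 5), 0, 1)]
  Tb := [((0, 1, 8), 0, 4, 6), ((1, 0, 2), 4, 0, 1), ((2, 1, 3), 1, 4, 5), ((3, 2, 4), 5, 1, 2),
    ((4, 3, 5), 2, 5, 1), ((4, 3, 6), 2, 5, 0), ((4, 3, 7), 2, 5, 3), ((4, 5, 6), 2, 1, 0),
    ((4, 5, 7), 2, 1, 3), ((4, 6, 7), 2, 0, 3), ((5, 4, 6), 1, 2, 0), ((6, 4, 5), 0, 2, 1),
    ((7, 4, 8), 3, 2, 6), ((8, 0, 7), 6, 0, 3)]
  Tc := []
  Td := [((0, 3), (0, 1), 4), ((0, 3), (0, 8), 6), ((0, 3), (6, 4), 2), ((0, 3), (6, 5), 1), ((3,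
    0), (7, 4), 2), ((3, 0), (7, 8), 6)]
  G := [[0, 0, 0, 0, 0x812e41812e4812e49c812e488a], [0, 0, 0, 0x815e4815e4928,
    0x812e412688c928], [0, 0, 0x42688c42688ac14, 0, 0x8a2e418a2e418a2e48d8], [0,
    0x84ce284ce2c84ce284ce2c68, 0x42688c4482acc21, 0x4c688c4c688cc12, 0x8a2e48a2e4928]]

noncomputable def n519 : Ent := ⟨e519, noF, [], [], [(7, 14, [81620716623019490593592230936445690773474979418095885504513, 0])]⟩

def c519 : PLift (Cov.check n519.C.D v519 = true) := ⟨by decide +kernel⟩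

def b519 : PLift (entF (fidx ts) 400 519 n519 = true) := ⟨by decide +kernel⟩

theorem g519 : GoodF (fidx ts) 400 519 := GoodF.ofV v519 n519 c519.down b519.down

/-- 457664:444 -/
noncomputable def e520 : SCfg where
  D := {
    a := 6
    L := 10
    kp := 7
    inn := [(0, 1), (0, 2), (0, 3), (1, 0), (1, 2), (2, 0), (2, 1), (2, 3), (3, 0), (3, 2), (3, 4), (4,
      3), (4, 5), (5, 4)]
    mix := [(0, 0), (1, 0), (1, 1), (1, 2), (2, 2), (2, 3), (2, 4), (2, 5), (3, 0), (3, 5), (3, 6), (4,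
      0), (4, 6), (4, 7), (4, 8), (5, 6), (5, 7), (5, 9)]
    cl := [0, 2, 1, 4, 5, 1, 0, 3, 6, 7]
    chq := [(0, 3), (3, 0)]
    rng := [(0, 1), (0, 8), (1, 0), (1, 2), (2, 1), (2, 3), (3, 2), (3, 4), (4, 3), (4, 5), (5, 4), (5,
      6), (6, 5), (6, 9), (7, 8), (7, 9), (8, 0), (8, 7), (9, 6), (9, 7)]
    lev := [] }
  links := [[1, 2, 3, 6], [2, 0, 6, 7, 8], [3, 0, 1, 8, 9, 10, 11], [6, 0, 2, 11, 12, 4], [6, 3, 12, 5,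
    13, 14], [13, 4, 12, 15]]
  P := {
    a := 6
    N := 16
    nb := [78, 453, 3851, 6229, 28776, 45072, 16539, 322, 646, 1284, 2564, 5132, 34872, 49200, 8272,
      12320]
    tri := [(0, 1, 2), (0, 1, 6), (0, 2, 3), (0, 3, 6), (1, 2, 8), (1, 6, 7), (1, 7, 8), (2, 3, 11),
      (2, 8, 9), (2, 9, 10), (2, 10, 11), (3, 4, 6), (3, 4, 12), (3, 11, 12), (4, 5, 12), (4, 5,
      13), (4, 6, 14), (4, 13, 14), (5, 12, 15), (5, 13, 15)]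
    fin := [0, 0, 2, 0, 0, 0, 0, 7, 2, 9, 10, 2, 0, 13, 14, 15]
    chd := [(0, 13)]
    steps := [(0, 1), (0, 3), (0, 4), (0, 5), (0, 6), (0, 12), (2, 8), (2, 11)] }
  rep := [0, 2, 7, 13, 9, 10, 14, 15]

noncomputable def v520 : Cov.CovD where
  P := 3
  N := 5
  pl := [1, 3, 4, 8, 9]
  lev := [⟨[], [], [], [], [(0, 0, [3])]⟩,
    ⟨[], [(0, 0), (0, 1)], [(0, 1)], [2], [(0, 0, [3]), (2, 1, [])]⟩,
    ⟨[(0, 1)], [(0, 0), (0, 1), (1, 0), (1, 1)], [(1, 1)], [4, 5], [(2, 1, []), (5, 1,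
      [])]⟩,
    ⟨[(0, 1), (0, 2), (1, 2)], [(0, 0), (0, 1), (1, 0), (2, 0), (2, 1)], [(0, 0), (0, 1)],
      [], [(0, 0, [3]), (5, 1, []), (6, 0, [3])]⟩,
    ⟨[(0, 3), (2, 3)], [(0, 0), (1, 0), (3, 0), (3, 1), (3, 3)], [(0, 0), (0, 3)], [6],
      [(0, 0, [3]), (6, 0, [3]), (7, 3, [0])]⟩,
    ⟨[(3, 4)], [(3, 0), (4, 0), (4, 3)], [(0, 3)], [7], [(6, 0, [3]), (7, 3, [0])]⟩]
  Ta := [((0, 1), 0, 2), ((0, 8), 0, 6), ((2, 1), 1, 2), ((2, 3), 1, 4), ((5, 4), 1, 5), ((5, 6),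
    1, 0), ((6, 5), 0, 1), ((6, 9), 0, 7)]
  Tb := [((0, 1, 8), 0, 2, 6), ((1, 0, 2), 2, 0, 1), ((2, 1, 3), 1, 2, 4), ((3, 2, 4), 4, 1, 5),
    ((4, 3, 5), 5, 4, 1), ((5, 4, 6), 1, 5, 0), ((6, 5, 9), 0, 1, 7), ((7, 8, 9), 3, 6, 7),
    ((8, 0, 7), 6, 0, 3), ((9, 6, 7), 7, 0, 3)]
  Tc := []
  Td := [((0, 3), (0, 1), 2), ((0, 3), (0, 8), 6), ((0, 3), (6, 5), 1), ((0, 3), (6, 9), 7), ((3,
    0), (7, 8), 6), ((3, 0), (7, 9), 7)]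
  G := [[0, 0, 0x111e4111e8111e4d42, 0x593e45e3e8e17e4d42, 0x9ea346359e85d9e8d84], [0, 0,
    0x111e4111e8111e4d82, 0, 0xe95e4359e839ee4d82], [0, 0, 0, 0x4eeea8ae2eec65ee6e8a8c4,
    0xe2eec61eeae46ee6e8cc98], [0, 0xe2eec6eeae46e4eeace82, 0, 0, 0xe4eeace4eeac52e4eeac829]]

noncomputable def n520 : Ent := ⟨e520, noF, [], [], [(7, 14, [385746751338780685620664494392815470296102193487288376374616065, 0]), (10, 15, [360035742630636841211993100915356868655746945586763691009798145, 0])]⟩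

def c520 : PLift (Cov.check n520.C.D v520 = true) := ⟨by decide +kernel⟩

def b520 : PLift (entF (fidx ts) 400 520 n520 = true) := ⟨by decide +kernel⟩

theorem g520 : GoodF (fidx ts) 400 520 := GoodF.ofV v520 n520 c520.down b520.down

/-- 457664:445/1 -/
noncomputable def e521 : SCfg where
  D := {
    a := 6
    L := 9
    kp := 6
    inn := [(0, 1), (0, 2), (0, 3), (1, 0), (1, 2), (2, 0), (2, 1), (2, 3), (3, 0), (3, 2), (3, 4), (4,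
      3), (4, 5), (5, 4)]
    mix := [(0, 0), (1, 0), (1, 1), (1, 2), (2, 2), (2, 3), (2, 4), (2, 5), (3, 0), (3, 5), (3, 6), (4,
      0), (4, 6), (4, 7), (4, 8), (5, 0), (5, 1), (5, 8)]
    cl := [0, 2, 1, 4, 5, 1, 0, 6, 3]
    chq := [(0, 3), (3, 0)]
    rng := [(0, 1), (1, 0), (1, 2), (1, 8), (2, 1), (2, 3), (3, 2), (3, 4), (4, 3), (4, 5), (5, 4), (5,
      6), (6, 5), (6, 7), (7, 6), (7, 8), (8, 1), (8, 7)]
    lev := [] }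
  links := [[1, 2, 3, 6], [2, 0, 6, 7, 8], [3, 0, 1, 8, 9, 10, 11], [6, 0, 2, 11, 12, 4], [6, 3, 12, 13,
    14, 5], [6, 4, 14, 7]]
  P := {
    a := 6
    N := 15
    nb := [78, 453, 3851, 6229, 28776, 16592, 187, 16738, 646, 1284, 2564, 5132, 10264, 20496, 8368]
    tri := [(0, 1, 2), (0, 1, 6), (0, 2, 3), (0, 3, 6), (1, 2, 8), (1, 6, 7), (1, 7, 8), (2, 3, 11),
      (2, 8, 9), (2, 9, 10), (2, 10, 11), (3, 4, 6), (3, 4, 12), (3, 11, 12), (4, 5, 6), (4, 5,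
      14), (4, 12, 13), (4, 13, 14), (5, 6, 7), (5, 7, 14)]
    fin := [0, 0, 2, 0, 0, 0, 0, 7, 2, 9, 10, 2, 0, 13, 14]
    chd := [(0, 14)]
    steps := [(0, 1), (0, 3), (0, 4), (0, 6), (0, 5), (0, 12), (2, 8), (2, 11)] }
  rep := [0, 2, 7, 14, 9, 10, 13]

noncomputable def v521 : Cov.CovD where
  P := 3
  N := 4
  pl := [1, 3, 4, 7]
  lev := [⟨[], [], [], [], [(0, 0, [3])]⟩,
    ⟨[], [(0, 0), (0, 1)], [(0, 1)], [2], [(0, 0, [3]), (2, 1, [])]⟩,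
    ⟨[(0, 1)], [(0, 0), (0, 1), (1, 0), (1, 1)], [(1, 1)], [4, 5], [(2, 1, []), (5, 1,
      [])]⟩,
    ⟨[(0, 1), (0, 2), (1, 2)], [(0, 0), (0, 1), (1, 0), (2, 0), (2, 1)], [(0, 0), (0, 1)],
      [], [(0, 0, [3]), (5, 1, []), (6, 0, [3])]⟩,
    ⟨[(0, 3), (2, 3)], [(0, 0), (1, 0), (3, 0), (3, 1), (3, 3)], [(0, 0), (0, 3)], [6],
      [(0, 0, [3]), (6, 0, [3]), (8, 3, [0])]⟩,
    ⟨[(3, 4)], [(0, 0), (1, 0), (3, 0), (4, 0), (4, 3)], [(0, 3)], [2], [(0, 0, [3]), (8,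
      3, [0])]⟩]
  Ta := [((0, 1), 0, 2), ((2, 1), 1, 2), ((2, 3), 1, 4), ((5, 4), 1, 5), ((5, 6), 1, 0), ((6, 5),
    0, 1), ((6, 7), 0, 6)]
  Tb := [((1, 0, 2), 2, 0, 1), ((1, 0, 8), 2, 0, 3), ((1, 2, 8), 2, 1, 3), ((2, 1, 3), 1, 2, 4),
    ((3, 2, 4), 4, 1, 5), ((4, 3, 5), 5, 4, 1), ((5, 4, 6), 1, 5, 0), ((6, 5, 7), 0, 1, 6),
    ((7, 6, 8), 6, 0, 3), ((8, 1, 7), 3, 2, 6)]
  Tc := []
  Td := [((0, 3), (0, 1), 2), ((0, 3), (6, 5), 1), ((0, 3), (6, 7), 6), ((3, 0), (8, 1), 2), ((3,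
    0), (8, 7), 6)]
  G := [[0, 0, 0x82a44642688a2284cad84, 0x8ca4464c688a448cacd48, 0x82aa46228aca228ac6d84], [0,
    0, 0x4482ac642e842688cd42, 0, 0x8a2e4a482ac8a2e4d28], [0, 0, 0, 0x81a446149e881a446d84,
    0x812e4132e8812e4d82], [0, 0x811e2141e2811e4e48, 0, 0, 0x812e4a412ac812e4d82]]

noncomputable def n521 : Ent := ⟨e521, noF, [], [], []⟩

def c521 : PLift (Cov.check n521.C.D v521 = true) := ⟨by decide +kernel⟩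

def b521 : PLift (entF (fidx ts) 400 521 n521 = true) := ⟨by decide +kernel⟩

theorem g521 : GoodF (fidx ts) 400 521 := GoodF.ofV v521 n521 c521.down b521.down

/-- 457664:445 -/
noncomputable def e522 : SCfg where
  D := {
    a := 6
    L := 10
    kp := 7
    inn := [(0, 1), (0, 2), (0, 3), (1, 0), (1, 2), (2, 0), (2, 1), (2, 3), (3, 0), (3, 2), (3, 4), (4,
      3), (4, 5), (5, 4)]
    mix := [(0, 0), (1, 0), (1, 1), (1, 2), (2, 2), (2, 3), (2, 4), (2, 5), (3, 0), (3, 5), (3, 6), (4,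
      0), (4, 6), (4, 7), (4, 8), (5, 0), (5, 8), (5, 9)]
    cl := [0, 2, 1, 4, 5, 1, 0, 6, 3, 7]
    chq := [(0, 3), (3, 0)]
    rng := [(0, 1), (0, 9), (1, 0), (1, 2), (2, 1), (2, 3), (3, 2), (3, 4), (4, 3), (4, 5), (5, 4), (5,
      6), (6, 5), (6, 7), (7, 6), (7, 8), (8, 7), (8, 9), (9, 0), (9, 8)]
    lev := [] }
  links := [[1, 2, 3, 6], [2, 0, 6, 7, 8], [3, 0, 1, 8, 9, 10, 11], [6, 0, 2, 11, 12, 4], [6, 3, 12, 13,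
    14, 5], [6, 4, 14, 15]]
  P := {
    a := 6
    N := 16
    nb := [78, 453, 3851, 6229, 28776, 49232, 32955, 322, 646, 1284, 2564, 5132, 10264, 20496, 41008,
      16480]
    tri := [(0, 1, 2), (0, 1, 6), (0, 2, 3), (0, 3, 6), (1, 2, 8), (1, 6, 7), (1, 7, 8), (2, 3, 11),
      (2, 8, 9), (2, 9, 10), (2, 10, 11), (3, 4, 6), (3, 4, 12), (3, 11, 12), (4, 5, 6), (4, 5,
      14), (4, 12, 13), (4, 13, 14), (5, 6, 15), (5, 14, 15)]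
    fin := [0, 0, 2, 0, 0, 0, 0, 7, 2, 9, 10, 2, 0, 13, 14, 15]
    chd := [(0, 14)]
    steps := [(0, 1), (0, 3), (0, 4), (0, 5), (0, 6), (0, 12), (2, 8), (2, 11)] }
  rep := [0, 2, 7, 14, 9, 10, 13, 15]

noncomputable def v522 : Cov.CovD where
  P := 3
  N := 5
  pl := [1, 3, 4, 7, 9]
  lev := [⟨[], [], [], [], [(0, 0, [3])]⟩,
    ⟨[], [(0, 0), (0, 1)], [(0, 1)], [2], [(0, 0, [3]), (2, 1, [])]⟩,
    ⟨[(0, 1)], [(0, 0), (0, 1), (1, 0), (1, 1)], [(1, 1)], [4, 5], [(2, 1, []), (5, 1,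
      [])]⟩,
    ⟨[(0, 1), (0, 2), (1, 2)], [(0, 0), (0, 1), (1, 0), (2, 0), (2, 1)], [(0, 0), (0, 1)],
      [], [(0, 0, [3]), (5, 1, []), (6, 0, [3])]⟩,
    ⟨[(0, 3), (2, 3)], [(0, 0), (1, 0), (3, 0), (3, 1), (3, 3)], [(0, 0), (0, 3)], [6],
      [(0, 0, [3]), (6, 0, [3]), (8, 3, [0])]⟩,
    ⟨[(3, 4)], [(0, 0), (1, 0), (3, 0), (4, 0), (4, 3)], [(0, 3)], [7], [(0, 0, [3]), (8,
      3, [0])]⟩]
  Ta := [((0, 1), 0, 2), ((0, 9), 0, 7), ((2, 1), 1, 2), ((2, 3), 1, 4), ((5, 4), 1, 5), ((5, 6),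
    1, 0), ((6, 5), 0, 1), ((6, 7), 0, 6)]
  Tb := [((0, 1, 9), 0, 2, 7), ((1, 0, 2), 2, 0, 1), ((2, 1, 3), 1, 2, 4), ((3, 2, 4), 4, 1, 5),
    ((4, 3, 5), 5, 4, 1), ((5, 4, 6), 1, 5, 0), ((6, 5, 7), 0, 1, 6), ((7, 6, 8), 6, 0, 3),
    ((8, 7, 9), 3, 6, 7), ((9, 0, 8), 7, 0, 3)]
  Tc := []
  Td := [((0, 3), (0, 1), 2), ((0, 3), (0, 9), 7), ((0, 3), (6, 5), 1), ((0, 3), (6, 7), 6), ((3,
    0), (8, 7), 6), ((3, 0), (8, 9), 7)]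
  G := [[0, 0, 0xeeae46e2eecae2eec6d84, 0xe2eec6e2eec65e2eec68c8, 0x44288eaee4ee6e8ce4eeacd86],
    [0, 0, 0xeea46eee88ce4eeacde488c2, 0, 0x44882eaee4e4eeace4eeacd86], [0, 0, 0,
    0x12ebc6d7618a539e4d48, 0xb1be41eee8b39e4d82], [0, 0x111e2111e2111e4e48, 0, 0,
    0x593e453698cd7618cd28]]

noncomputable def n522 : Ent := ⟨e522, noF, [], [], [(7, 15, [360035742630636841211993100915356868655746945586763691009806337, 0])]⟩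

def c522 : PLift (Cov.check n522.C.D v522 = true) := ⟨by decide +kernel⟩

def b522 : PLift (entF (fidx ts) 400 522 n522 = true) := ⟨by decide +kernel⟩

theorem g522 : GoodF (fidx ts) 400 522 := GoodF.ofV v522 n522 c522.down b522.down

/-- 484564:446 -/
noncomputable def e523 : SCfg where
  D := {
    a := 6
    L := 10
    kp := 7
    inn := [(0, 1), (0, 3), (1, 0), (1, 2), (1, 3), (1, 4), (2, 1), (3, 0), (3, 1), (4, 1), (4, 5), (5,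
      4)]
    mix := [(0, 0), (0, 1), (1, 0), (1, 2), (1, 3), (1, 4), (2, 2), (2, 3), (2, 5), (3, 1), (3, 2), (3,
      6), (4, 0), (4, 4), (4, 7), (4, 8), (5, 4), (5, 7), (5, 9)]
    cl := [0, 1, 0, 2, 0, 4, 5, 3, 6, 7]
    chq := [(0, 3), (3, 0)]
    rng := [(0, 1), (0, 8), (1, 0), (1, 6), (2, 5), (2, 6), (3, 4), (3, 5), (4, 3), (4, 9), (5, 2), (5,
      3), (6, 1), (6, 2), (7, 8), (7, 9), (8, 0), (8, 7), (9, 4), (9, 7)]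
    lev := [] }
  links := [[1, 6, 7, 3], [6, 0, 3, 8, 2, 9, 10, 4], [9, 1, 8, 11], [8, 1, 0, 7, 12], [6, 1, 10, 5, 13,
    14], [13, 4, 10, 15]]
  P := {
    a := 6
    N := 16
    nb := [202, 1885, 2818, 4483, 25698, 42000, 16531, 4169, 6158, 3078, 33330, 772, 392, 49200, 8272,
      9248]
    tri := [(0, 1, 3), (0, 1, 6), (0, 3, 7), (0, 6, 7), (1, 2, 8), (1, 2, 9), (1, 3, 8), (1, 4, 6), (1,
      4, 10), (1, 9, 10), (2, 8, 11), (2, 9, 11), (3, 7, 12), (3, 8, 12), (4, 5, 10), (4, 5, 13),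
      (4, 6, 14), (4, 13, 14), (5, 10, 15), (5, 13, 15)]
    fin := [0, 0, 0, 0, 0, 0, 0, 7, 0, 9, 0, 11, 12, 13, 14, 15]
    chd := [(0, 13)]
    steps := [(0, 1), (0, 2), (0, 3), (0, 4), (0, 5), (0, 6), (0, 8), (0, 10)] }
  rep := [0, 7, 9, 13, 11, 12, 14, 15]

noncomputable def v523 : Cov.CovD where
  P := 3
  N := 5
  pl := [1, 3, 5, 6, 8, 9]
  lev := [⟨[], [], [], [1], [(0, 0, [3])]⟩,
    ⟨[], [(0, 0)], [(0, 0)], [2], [(0, 0, [3]), (2, 0, [3]), (4, 0, [3])]⟩,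
    ⟨[(0, 1)], [(1, 0)], [], [2, 4], [(2, 0, [3])]⟩,
    ⟨[(0, 1), (1, 2)], [(0, 0), (1, 0), (2, 0)], [], [1, 5], [(2, 0, [3])]⟩,
    ⟨[(0, 1), (1, 2), (1, 3)], [(0, 0), (1, 0), (1, 3)], [(0, 0), (0, 3)], [6], [(0, 0,
      [3]), (4, 0, [3]), (7, 3, [0])]⟩,
    ⟨[(1, 4)], [(1, 0), (4, 0), (4, 3)], [(0, 3)], [7], [(4, 0, [3]), (7, 3, [0])]⟩]
  Ta := [((0, 1), 0, 1), ((0, 8), 0, 6), ((2, 5), 0, 4), ((2, 6), 0, 5), ((4, 3), 0, 2), ((4, 9),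
    0, 7)]
  Tb := [((0, 1, 8), 0, 1, 6), ((1, 0, 6), 1, 0, 5), ((2, 5, 6), 0, 4, 5), ((3, 4, 5), 2, 0, 4),
    ((4, 3, 9), 0, 2, 7), ((5, 2, 3), 4, 0, 2), ((6, 1, 2), 5, 1, 0), ((7, 8, 9), 3, 6, 7),
    ((8, 0, 7), 6, 0, 3), ((9, 4, 7), 7, 0, 3)]
  Tc := []
  Td := [((0, 3), (0, 1), 1), ((0, 3), (0, 8), 6), ((0, 3), (2, 5), 4), ((0, 3), (2, 6), 5), ((0,
    3), (4, 3), 2), ((0, 3), (4, 9), 7), ((3, 0), (7, 8), 6), ((3, 0), (7, 9), 7)]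
  G := [[0, 0x111e111e6182, 0, 0xe16411b7eb8c1c8, 0x17deee1ec128], [0, 0, 0,
    0x1441471becc395eb7acb7a8cc1, 0xee6593ec2935ebe1ec188aa4], [0, 0, 0xee616eee16e81881ac4,
    0xe8144e8184ee6ee6c18d, 0xee61e21ae81eec1aa4]]

noncomputable def n523 : Ent := ⟨e523, noF, [], [], []⟩

def c523 : PLift (Cov.check n523.C.D v523 = true) := ⟨by decide +kernel⟩

def b523 : PLift (entF (fidx ts) 400 523 n523 = true) := ⟨by decide +kernel⟩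

theorem g523 : GoodF (fidx ts) 400 523 := GoodF.ofV v523 n523 c523.down b523.down

/-- 484564:447/1 -/
noncomputable def e524 : SCfg where
  D := {
    a := 6
    L := 9
    kp := 6
    inn := [(0, 1), (0, 3), (1, 0), (1, 2), (1, 3), (1, 4), (2, 1), (3, 0), (3, 1), (4, 1), (4, 5), (5,
      4)]
    mix := [(0, 0), (0, 1), (1, 0), (1, 2), (1, 3), (1, 4), (2, 2), (2, 3), (2, 5), (3, 1), (3, 2), (3,
      6), (4, 0), (4, 4), (4, 7), (4, 8), (5, 0), (5, 1), (5, 8)]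
    cl := [0, 1, 0, 2, 0, 4, 5, 6, 3]
    chq := [(0, 3), (3, 0)]
    rng := [(0, 1), (1, 0), (1, 6), (1, 8), (2, 5), (2, 6), (3, 4), (3, 5), (4, 3), (4, 7), (5, 2), (5,
      3), (6, 1), (6, 2), (7, 4), (7, 8), (8, 1), (8, 7)]
    lev := [] }
  links := [[1, 6, 7, 3], [6, 0, 3, 8, 2, 9, 10, 4], [9, 1, 8, 11], [8, 1, 0, 7, 12], [6, 1, 10, 13, 14,
    5], [6, 4, 14, 7]]
  P := {
    a := 6
    N := 15
    nb := [202, 1885, 2818, 4483, 25698, 16592, 179, 20585, 6158, 3078, 8722, 772, 392, 17424, 8368]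
    tri := [(0, 1, 3), (0, 1, 6), (0, 3, 7), (0, 6, 7), (1, 2, 8), (1, 2, 9), (1, 3, 8), (1, 4, 6), (1,
      4, 10), (1, 9, 10), (2, 8, 11), (2, 9, 11), (3, 7, 12), (3, 8, 12), (4, 5, 6), (4, 5, 14),
      (4, 10, 13), (4, 13, 14), (5, 6, 7), (5, 7, 14)]
    fin := [0, 0, 0, 0, 0, 0, 0, 7, 0, 9, 0, 11, 12, 13, 14]
    chd := [(0, 14)]
    steps := [(0, 1), (0, 2), (0, 3), (0, 4), (0, 6), (0, 5), (0, 8), (0, 10)] }
  rep := [0, 7, 9, 14, 11, 12, 13]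

noncomputable def v524 : Cov.CovD where
  P := 3
  N := 4
  pl := [1, 3, 5, 6, 7]
  lev := [⟨[], [], [], [1], [(0, 0, [3])]⟩,
    ⟨[], [(0, 0)], [(0, 0)], [2], [(0, 0, [3]), (2, 0, [3]), (4, 0, [3])]⟩,
    ⟨[(0, 1)], [(1, 0)], [], [2, 4], [(2, 0, [3])]⟩,
    ⟨[(0, 1), (1, 2)], [(0, 0), (1, 0), (2, 0)], [], [1, 5], [(2, 0, [3])]⟩,
    ⟨[(0, 1), (1, 2), (1, 3)], [(0, 0), (1, 0), (1, 3)], [(0, 0), (0, 3)], [6], [(0, 0,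
      [3]), (4, 0, [3]), (8, 3, [0])]⟩,
    ⟨[(1, 4)], [(0, 0), (1, 0), (4, 0), (4, 3)], [(0, 3)], [1], [(0, 0, [3]), (8, 3, [0])]⟩]
  Ta := [((0, 1), 0, 1), ((2, 5), 0, 4), ((2, 6), 0, 5), ((4, 3), 0, 2), ((4, 7), 0, 6)]
  Tb := [((1, 0, 6), 1, 0, 5), ((1, 0, 8), 1, 0, 3), ((1, 6, 8), 1, 5, 3), ((2, 5, 6), 0, 4, 5),
    ((3, 4, 5), 2, 0, 4), ((4, 3, 7), 0, 2, 6), ((5, 2, 3), 4, 0, 2), ((6, 1, 2), 5, 1, 0),
    ((7, 4, 8), 6, 0, 3), ((8, 1, 7), 3, 1, 6)]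
  Tc := []
  Td := [((0, 3), (0, 1), 1), ((0, 3), (2, 5), 4), ((0, 3), (2, 6), 5), ((0, 3), (4, 3), 2), ((0,
    3), (4, 7), 6), ((3, 0), (8, 1), 1), ((3, 0), (8, 7), 6)]
  G := [[0, 0xa482a8a2ee142, 0, 0x4c6148888c1c4c6188c, 0x4c61284ce1881aa8], [0, 0, 0,
    0x891e19ac888c444441614cecc8c, 0x12416c2841e841ec84c88caa4], [0, 0, 0x14181a1811e1e48,
    0x4c6149ec18881c4, 0x41612841e1881aa8]]

noncomputable def n524 : Ent := ⟨e524, noF, [], [], []⟩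

def c524 : PLift (Cov.check n524.C.D v524 = true) := ⟨by decide +kernel⟩

def b524 : PLift (entF (fidx ts) 400 524 n524 = true) := ⟨by decide +kernel⟩

theorem g524 : GoodF (fidx ts) 400 524 := GoodF.ofV v524 n524 c524.down b524.down

/-- 484564:447 -/
noncomputable def e525 : SCfg where
  D := {
    a := 6
    L := 10
    kp := 7
    inn := [(0, 1), (0, 3), (1, 0), (1, 2), (1, 3), (1, 4), (2, 1), (3, 0), (3, 1), (4, 1), (4, 5), (5,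
      4)]
    mix := [(0, 0), (0, 1), (1, 0), (1, 2), (1, 3), (1, 4), (2, 2), (2, 3), (2, 5), (3, 1), (3, 2), (3,
      6), (4, 0), (4, 4), (4, 7), (4, 8), (5, 0), (5, 8), (5, 9)]
    cl := [0, 1, 0, 2, 0, 4, 5, 6, 3, 7]
    chq := [(0, 3), (3, 0)]
    rng := [(0, 1), (0, 9), (1, 0), (1, 6), (2, 5), (2, 6), (3, 4), (3, 5), (4, 3), (4, 7), (5, 2), (5,
      3), (6, 1), (6, 2), (7, 4), (7, 8), (8, 7), (8, 9), (9, 0), (9, 8)]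
    lev := [] }
  links := [[1, 6, 7, 3], [6, 0, 3, 8, 2, 9, 10, 4], [9, 1, 8, 11], [8, 1, 0, 7, 12], [6, 1, 10, 13, 14,
    5], [6, 4, 14, 15]]
  P := {
    a := 6
    N := 16
    nb := [202, 1885, 2818, 4483, 25698, 49232, 32947, 4169, 6158, 3078, 8722, 772, 392, 17424, 41008,
      16480]
    tri := [(0, 1, 3), (0, 1, 6), (0, 3, 7), (0, 6, 7), (1, 2, 8), (1, 2, 9), (1, 3, 8), (1, 4, 6), (1,
      4, 10), (1, 9, 10), (2, 8, 11), (2, 9, 11), (3, 7, 12), (3, 8, 12), (4, 5, 6), (4, 5, 14),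
      (4, 10, 13), (4, 13, 14), (5, 6, 15), (5, 14, 15)]
    fin := [0, 0, 0, 0, 0, 0, 0, 7, 0, 9, 0, 11, 12, 13, 14, 15]
    chd := [(0, 14)]
    steps := [(0, 1), (0, 2), (0, 3), (0, 4), (0, 5), (0, 6), (0, 8), (0, 10)] }
  rep := [0, 7, 9, 14, 11, 12, 13, 15]

noncomputable def v525 : Cov.CovD where
  P := 3
  N := 5
  pl := [1, 3, 5, 6, 7, 9]
  lev := [⟨[], [], [], [1], [(0, 0, [3])]⟩,
    ⟨[], [(0, 0)], [(0, 0)], [2], [(0, 0, [3]), (2, 0, [3]), (4, 0, [3])]⟩,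
    ⟨[(0, 1)], [(1, 0)], [], [2, 4], [(2, 0, [3])]⟩,
    ⟨[(0, 1), (1, 2)], [(0, 0), (1, 0), (2, 0)], [], [1, 5], [(2, 0, [3])]⟩,
    ⟨[(0, 1), (1, 2), (1, 3)], [(0, 0), (1, 0), (1, 3)], [(0, 0), (0, 3)], [6], [(0, 0,
      [3]), (4, 0, [3]), (8, 3, [0])]⟩,
    ⟨[(1, 4)], [(0, 0), (1, 0), (4, 0), (4, 3)], [(0, 3)], [7], [(0, 0, [3]), (8, 3, [0])]⟩]
  Ta := [((0, 1), 0, 1), ((0, 9), 0, 7), ((2, 5), 0, 4), ((2, 6), 0, 5), ((4, 3), 0, 2), ((4, 7),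
    0, 6)]
  Tb := [((0, 1, 9), 0, 1, 7), ((1, 0, 6), 1, 0, 5), ((2, 5, 6), 0, 4, 5), ((3, 4, 5), 2, 0, 4),
    ((4, 3, 7), 0, 2, 6), ((5, 2, 3), 4, 0, 2), ((6, 1, 2), 5, 1, 0), ((7, 4, 8), 6, 0, 3),
    ((8, 7, 9), 3, 6, 7), ((9, 0, 8), 7, 0, 3)]
  Tc := []
  Td := [((0, 3), (0, 1), 1), ((0, 3), (0, 9), 7), ((0, 3), (2, 5), 4), ((0, 3), (2, 6), 5), ((0,
    3), (4, 3), 2), ((0, 3), (4, 7), 6), ((3, 0), (8, 7), 6), ((3, 0), (8, 9), 7)]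
  G := [[0, 0xe4e4a1eeaeeaa1c4, 0, 0x88414ee66eeec1e881cc, 0xe216eee1aeec1881aa4], [0, 0, 0,
    0x9438cb88c49564d16395ecc35a88cc, 0x93632c27e1ee59ec5895ccaa4], [0, 0, 0x111e1111e1c28,
    0x3e653eec19881c4, 0xb71e395ec128]]

noncomputable def n525 : Ent := ⟨e525, noF, [], [], [(7, 15, [360035742630636841211993100915356868655746945586763691009818625, 0])]⟩

def c525 : PLift (Cov.check n525.C.D v525 = true) := ⟨by decide +kernel⟩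

def b525 : PLift (entF (fidx ts) 400 525 n525 = true) := ⟨by decide +kernel⟩

theorem g525 : GoodF (fidx ts) 400 525 := GoodF.ofV v525 n525 c525.down b525.down

/-- 457764:448/1 -/
noncomputable def e526 : SCfg where
  D := {
    a := 6
    L := 10
    kp := 7
    inn := [(0, 1), (0, 2), (1, 0), (1, 2), (2, 0), (2, 1), (2, 3), (2, 4), (3, 2), (3, 4), (3, 5), (4,
      2), (4, 3), (5, 3)]
    mix := [(0, 0), (0, 1), (1, 1), (1, 2), (1, 3), (2, 0), (2, 3), (2, 4), (3, 4), (3, 5), (3, 6), (3,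
      7), (4, 0), (4, 7), (4, 8), (4, 9), (5, 2), (5, 4), (5, 5)]
    cl := [0, 3, 1, 2, 0, 4, 5, 0, 6, 7]
    chq := [(1, 5), (2, 3), (3, 2), (5, 1)]
    rng := [(0, 1), (0, 9), (1, 0), (1, 2), (2, 1), (2, 3), (2, 4), (2, 5), (3, 2), (3, 4), (4, 2), (4,
      3), (5, 2), (5, 6), (6, 5), (6, 7), (7, 6), (7, 8), (8, 7), (8, 9), (9, 0), (9, 8)]
    lev := [] }
  links := [[1, 2, 6, 7], [2, 0, 7, 8, 9], [6, 0, 1, 9, 10, 3, 4], [4, 2, 10, 5, 11, 12, 13], [6, 2, 3,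
    13, 14, 15], [11, 3, 10, 8]]
  P := {
    a := 6
    N := 16
    nb := [198, 901, 1627, 15412, 57420, 3336, 32917, 323, 3746, 1286, 812, 4392, 10248, 20504, 40976,
      16464]
    tri := [(0, 1, 2), (0, 1, 7), (0, 2, 6), (0, 6, 7), (1, 2, 9), (1, 7, 8), (1, 8, 9), (2, 3, 4), (2,
      3, 10), (2, 4, 6), (2, 9, 10), (3, 4, 13), (3, 5, 10), (3, 5, 11), (3, 11, 12), (3, 12, 13),
      (4, 6, 15), (4, 13, 14), (4, 14, 15), (5, 8, 10), (5, 8, 11)]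
    fin := [0, 1, 0, 3, 0, 3, 0, 1, 3, 9, 0, 11, 12, 0, 14, 15]
    chd := [(1, 9), (3, 12)]
    steps := [(0, 2), (0, 4), (0, 6), (0, 10), (0, 13), (1, 7), (3, 5), (3, 8)] }
  rep := [0, 3, 9, 1, 11, 12, 14, 15]

noncomputable def v526 : Cov.CovD where
  P := 3
  N := 5
  pl := [5, 8, 9]
  lev := [⟨[], [], [(0, 3)], [], [(0, 0, []), (1, 3, [2])]⟩,
    ⟨[], [(0, 0), (0, 1), (0, 2), (0, 3)], [(1, 2), (1, 3), (2, 3)], [], [(1, 3, [2]), (2,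
      1, [5]), (3, 2, [3])]⟩,
    ⟨[(0, 1)], [(0, 0), (0, 2), (0, 3), (1, 0), (1, 1), (1, 2), (1, 3)], [(0, 0), (0, 2)],
      [], [(0, 0, []), (3, 2, [3]), (4, 0, [])]⟩,
    ⟨[(0, 2), (1, 2)], [(2, 0), (2, 2), (2, 5)], [(0, 0), (0, 5)], [4], [(4, 0, []), (6, 5,
      [1]), (7, 0, [])]⟩,
    ⟨[(0, 2), (1, 2), (2, 3)], [(0, 0), (2, 0), (2, 2), (3, 0), (3, 5)], [(0, 0)], [6, 7],
      [(0, 0, []), (7, 0, [])]⟩,
    ⟨[(2, 3), (3, 4)], [(1, 1), (2, 0), (3, 0), (3, 1), (3, 5)], [(0, 1)], [4], [(2, 1,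
      [5]), (4, 0, [])]⟩]
  Ta := [((0, 1), 0, 3), ((0, 9), 0, 7), ((4, 2), 0, 1), ((4, 3), 0, 2), ((7, 6), 0, 5), ((7, 8),
    0, 6)]
  Tb := [((0, 1, 9), 0, 3, 7), ((1, 0, 2), 3, 0, 1), ((2, 1, 3), 1, 3, 2), ((2, 1, 4), 1, 3, 0),
    ((2, 1, 5), 1, 3, 4), ((2, 3, 4), 1, 2, 0), ((2, 3, 5), 1, 2, 4), ((2, 4, 5), 1, 0, 4),
    ((3, 2, 4), 2, 1, 0), ((4, 2, 3), 0, 1, 2), ((5, 2, 6), 4, 1, 5), ((6, 5, 7), 5, 4, 0),
    ((7, 6, 8), 0, 5, 6), ((8, 7, 9), 6, 0, 7), ((9, 0, 8), 7, 0, 6)]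
  Tc := []
  Td := [((1, 5), (2, 1), 3), ((1, 5), (2, 3), 2), ((1, 5), (2, 4), 0), ((1, 5), (2, 5), 4), ((2,
    3), (3, 2), 1), ((2, 3), (3, 4), 0), ((3, 2), (1, 0), 0), ((3, 2), (1, 2), 1), ((5, 1),
    (6, 5), 4), ((5, 1), (6, 7), 0)]
  G := [[0, 0, 0, 0x5c5e249c5e2892, 0xc162118e414e58ea12484e19cee41c8a94], [0,
    0xa464688ea822ceec644a4e22cee68a8cc2, 0x488ecccea484e4644884eccce48ac2acc1, 0xccce2812,
    0x484eccce6488e8a14], [0, 0, 0, 0xc55e2412, 0x116184ec95ee488a14]]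

noncomputable def n526 : Ent := ⟨e526, noF, [], [], []⟩

def c526 : PLift (Cov.check n526.C.D v526 = true) := ⟨by decide +kernel⟩

def b526 : PLift (entF (fidx ts) 400 526 n526 = true) := ⟨by decide +kernel⟩

theorem g526 : GoodF (fidx ts) 400 526 := GoodF.ofV v526 n526 c526.down b526.down

/-- 457764:448 -/
noncomputable def e527 : SCfg where
  D := {
    a := 6
    L := 11
    kp := 8
    inn := [(0, 1), (0, 2), (1, 0), (1, 2), (2, 0), (2, 1), (2, 3), (2, 4), (3, 2), (3, 4), (3, 5), (4,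
      2), (4, 3), (5, 3)]
    mix := [(0, 0), (0, 1), (1, 1), (1, 2), (1, 3), (2, 0), (2, 3), (2, 4), (3, 4), (3, 5), (3, 6), (3,
      7), (4, 0), (4, 7), (4, 8), (4, 9), (5, 4), (5, 5), (5, 10)]
    cl := [0, 1, 6, 2, 0, 3, 4, 0, 7, 8, 5]
    chq := [(1, 2), (2, 1), (4, 5), (5, 4)]
    rng := [(0, 1), (0, 9), (1, 0), (1, 2), (2, 1), (2, 3), (3, 2), (3, 4), (4, 3), (4, 10), (5, 6),
      (5, 10), (6, 5), (6, 7), (7, 6), (7, 8), (8, 7), (8, 9), (9, 0), (9, 8), (10, 4), (10, 5)]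
    lev := [] }
  links := [[1, 2, 6, 7], [2, 0, 7, 8, 9], [6, 0, 1, 9, 10, 3, 4], [4, 2, 10, 5, 11, 12, 13], [6, 2, 3,
    13, 14, 15], [11, 3, 10, 16]]
  P := {
    a := 6
    N := 17
    nb := [198, 901, 1627, 15412, 57420, 68616, 32917, 323, 642, 1286, 66092, 69672, 10248, 20504,
      40976, 16464, 3104]
    tri := [(0, 1, 2), (0, 1, 7), (0, 2, 6), (0, 6, 7), (1, 2, 9), (1, 7, 8), (1, 8, 9), (2, 3, 4), (2,
      3, 10), (2, 4, 6), (2, 9, 10), (3, 4, 13), (3, 5, 10), (3, 5, 11), (3, 11, 12), (3, 12, 13),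
      (4, 6, 15), (4, 13, 14), (4, 14, 15), (5, 10, 16), (5, 11, 16)]
    fin := [0, 1, 0, 3, 0, 3, 0, 1, 8, 9, 0, 11, 12, 0, 14, 15, 3]
    chd := [(1, 9), (12, 3)]
    steps := [(0, 2), (0, 4), (0, 6), (0, 10), (0, 13), (1, 7), (3, 5), (3, 16)] }
  rep := [0, 1, 9, 11, 12, 3, 8, 14, 15]

noncomputable def v527 : Cov.CovD where
  P := 3
  N := 6
  pl := [2, 5, 8, 9]
  lev := [⟨[], [], [(0, 1)], [], [(0, 0, []), (1, 1, [2])]⟩,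
    ⟨[], [(0, 0), (0, 1), (0, 2)], [(1, 2)], [6], [(1, 1, [2]), (3, 2, [1])]⟩,
    ⟨[(0, 1)], [(0, 0), (0, 1), (0, 2), (1, 0), (1, 1), (1, 2)], [(0, 0), (0, 2)], [], [(0,
      0, []), (3, 2, [1]), (4, 0, [])]⟩,
    ⟨[(0, 2), (1, 2)], [(2, 0), (2, 2), (2, 4)], [(0, 0), (0, 4)], [3], [(4, 0, []), (6, 4,
      [5]), (7, 0, [])]⟩,
    ⟨[(0, 2), (1, 2), (2, 3)], [(0, 0), (2, 0), (2, 2), (3, 0), (3, 4)], [(0, 0)], [7, 8],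
      [(0, 0, []), (7, 0, [])]⟩,
    ⟨[(2, 3), (3, 4)], [(2, 0), (3, 0), (3, 4), (3, 5)], [(0, 5)], [3], [(4, 0, []), (10,
      5, [4])]⟩]
  Ta := [((0, 1), 0, 1), ((0, 9), 0, 8), ((4, 3), 0, 2), ((4, 10), 0, 5), ((7, 6), 0, 4), ((7,
    8), 0, 7)]
  Tb := [((0, 1, 9), 0, 1, 8), ((1, 0, 2), 1, 0, 6), ((2, 1, 3), 6, 1, 2), ((3, 2, 4), 2, 6, 0),
    ((4, 3, 10), 0, 2, 5), ((5, 6, 10), 3, 4, 5), ((6, 5, 7), 4, 3, 0), ((7, 6, 8), 0, 4, 7),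
    ((8, 7, 9), 7, 0, 8), ((9, 0, 8), 8, 0, 7), ((10, 4, 5), 5, 0, 3)]
  Tc := []
  Td := [((1, 2), (1, 0), 0), ((1, 2), (1, 2), 6), ((2, 1), (3, 2), 6), ((2, 1), (3, 4), 0), ((4,
    5), (6, 5), 3), ((4, 5), (6, 7), 0), ((5, 4), (10, 4), 0), ((5, 4), (10, 5), 3)]
  G := [[0, 0x144666e91a199eec34a19e591ee16a8cc2, 0, 0x3411aec56e31ac8ac144366e11a999eec52,
    0xc22631e113e99cea316a1ae5c5ee188a94], [0, 0, 0xc22666eaaaecccea666aaaecccee688cc1,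
    0xaa64666ea8ccceecaaaeccce6666e8c92, 0xcc62666eaaaec8eaaaaeccce6666e8a94], [0, 0, 0,
    0x92c16665a18a14aacce1161a3e95cee388ac4, 0x522131ea13e5ccea122635e919e19cea94]]

noncomputable def n527 : Ent := ⟨e527, noF, [], [], [(8, 16, [1580044410770988437309982408355971841652082177953823432505691267073, 0])]⟩

def c527 : PLift (Cov.check n527.C.D v527 = true) := ⟨by decide +kernel⟩

def b527 : PLift (entF (fidx ts) 400 527 n527 = true) := ⟨by decide +kernel⟩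

theorem g527 : GoodF (fidx ts) 400 527 := GoodF.ofV v527 n527 c527.down b527.down

/-- 457764:449/1 -/
noncomputable def e528 : SCfg where
  D := {
    a := 6
    L := 10
    kp := 7
    inn := [(0, 1), (0, 2), (1, 0), (1, 2), (2, 0), (2, 1), (2, 3), (2, 4), (3, 2), (3, 4), (3, 5), (4,
      2), (4, 3), (5, 3)]
    mix := [(0, 0), (0, 1), (1, 1), (1, 2), (1, 3), (2, 0), (2, 3), (2, 4), (3, 4), (3, 5), (3, 6), (3,
      7), (4, 0), (4, 7), (4, 8), (4, 9), (5, 1), (5, 5), (5, 6)]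
    cl := [0, 1, 7, 0, 2, 3, 4, 3, 5, 6]
    chq := [(2, 5), (2, 6), (5, 2), (6, 2)]
    rng := [(0, 1), (0, 9), (1, 0), (1, 2), (1, 5), (1, 6), (2, 1), (2, 3), (3, 2), (3, 4), (4, 3), (4,
      5), (5, 1), (5, 4), (6, 1), (6, 7), (7, 6), (7, 8), (8, 7), (8, 9), (9, 0), (9, 8)]
    lev := [] }
  links := [[1, 2, 6, 7], [2, 0, 7, 8, 9], [6, 0, 1, 9, 10, 3, 4], [4, 2, 10, 11, 5, 12, 13], [6, 2, 3,
    13, 14, 15], [12, 3, 11, 7]]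
  P := {
    a := 6
    N := 16
    nb := [198, 901, 1627, 15412, 57420, 6280, 32917, 6499, 642, 1286, 2572, 1192, 8360, 20504, 40976,
      16464]
    tri := [(0, 1, 2), (0, 1, 7), (0, 2, 6), (0, 6, 7), (1, 2, 9), (1, 7, 8), (1, 8, 9), (2, 3, 4), (2,
      3, 10), (2, 4, 6), (2, 9, 10), (3, 4, 13), (3, 5, 11), (3, 5, 12), (3, 10, 11), (3, 12, 13),
      (4, 6, 15), (4, 13, 14), (4, 14, 15), (5, 7, 11), (5, 7, 12)]
    fin := [0, 0, 2, 3, 2, 5, 0, 5, 8, 0, 2, 3, 12, 3, 14, 15]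
    chd := [(2, 14), (2, 15)]
    steps := [(0, 1), (0, 6), (0, 9), (2, 4), (2, 10), (3, 11), (3, 13), (5, 7)] }
  rep := [0, 5, 2, 3, 12, 14, 15, 8]

noncomputable def v528 : Cov.CovD where
  P := 3
  N := 5
  pl := [1, 2, 6]
  lev := [⟨[], [], [], [1], [(0, 0, [])]⟩,
    ⟨[], [(0, 0)], [], [1, 7], [(3, 0, [])]⟩,
    ⟨[(0, 1)], [(0, 0), (0, 2), (1, 0), (1, 2)], [(0, 0), (0, 2)], [], [(0, 0, []), (3, 0,
      []), (4, 2, [5, 6])]⟩,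
    ⟨[(0, 2), (1, 2)], [(2, 0), (2, 2), (2, 3)], [(2, 3), (3, 3)], [4], [(4, 2, [5, 6]),
      (5, 3, []), (7, 3, [])]⟩,
    ⟨[(0, 2), (1, 2), (2, 3)], [(0, 0), (2, 0), (2, 2), (2, 3), (2, 5), (2, 6), (3, 0), (3,
      2), (3, 3), (3, 5), (3, 6)], [(0, 3), (0, 5), (0, 6), (3, 5), (3, 6), (5, 6)], [], [(0,
      0, []), (7, 3, []), (8, 5, [2]), (9, 6, [2])]⟩,
    ⟨[(2, 3), (3, 4)], [(3, 2), (3, 3)], [], [1, 4], [(5, 3, [])]⟩]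
  Ta := [((0, 1), 0, 1), ((0, 9), 0, 6), ((3, 2), 0, 7), ((3, 4), 0, 2), ((5, 1), 3, 1), ((5, 4),
    3, 2), ((7, 6), 3, 4), ((7, 8), 3, 5)]
  Tb := [((0, 1, 9), 0, 1, 6), ((1, 0, 2), 1, 0, 7), ((1, 0, 5), 1, 0, 3), ((1, 0, 6), 1, 0, 4),
    ((1, 2, 5), 1, 7, 3), ((1, 2, 6), 1, 7, 4), ((1, 5, 6), 1, 3, 4), ((2, 1, 3), 7, 1, 0),
    ((3, 2, 4), 0, 7, 2), ((4, 3, 5), 2, 0, 3), ((5, 1, 4), 3, 1, 2), ((6, 1, 7), 4, 1, 3),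
    ((7, 6, 8), 3, 4, 5), ((8, 7, 9), 5, 3, 6), ((9, 0, 8), 6, 0, 5)]
  Tc := [(2, 5, 6)]
  Td := [((2, 5), (4, 3), 0), ((2, 5), (4, 5), 3), ((2, 6), (4, 3), 0), ((2, 6), (4, 5), 3), ((5,
    2), (8, 7), 3), ((5, 2), (8, 9), 6), ((6, 2), (9, 0), 0), ((6, 2), (9, 8), 5)]
  G := [[0, 0xe218e21864, 0, 0x42125828c18, 0x844414b214], [0, 0x6214a214a4, 0, 0x42125828c18,
    0x14c444b214], [0, 0, 0x814111e2814111e2c8, 0x42125828c42482129cc1,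
    0x844414b2844414b2c4], [0, 0, 0x41c16118c111151e8c4, 0x829212d442125828cc8,
    0x445414b2844414b2c8]]

noncomputable def n528 : Ent := ⟨e528, noF, [], [], []⟩

def c528 : PLift (Cov.check n528.C.D v528 = true) := ⟨by decide +kernel⟩

def b528 : PLift (entF (fidx ts) 400 528 n528 = true) := ⟨by decide +kernel⟩

theorem g528 : GoodF (fidx ts) 400 528 := GoodF.ofV v528 n528 c528.down b528.down

/-- 457764:449/2 -/
noncomputable def e529 : SCfg where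
  D := {
    a := 6
    L := 10
    kp := 7
    inn := [(0, 1), (0, 2), (1, 0), (1, 2), (2, 0), (2, 1), (2, 3), (2, 4), (3, 2), (3, 4), (3, 5), (4,
      2), (4, 3), (5, 3)]
    mix := [(0, 0), (0, 1), (1, 1), (1, 2), (1, 3), (2, 0), (2, 3), (2, 4), (3, 4), (3, 5), (3, 6), (3,
      7), (4, 0), (4, 7), (4, 8), (4, 9), (5, 2), (5, 5), (5, 6)]
    cl := [0, 2, 4, 0, 1, 3, 5, 3, 6, 7]
    chq := [(1, 6), (1, 7), (6, 1), (7, 1)]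
    rng := [(0, 1), (0, 9), (1, 0), (1, 2), (2, 1), (2, 3), (2, 5), (2, 6), (3, 2), (3, 4), (4, 3), (4,
      5), (5, 2), (5, 4), (6, 2), (6, 7), (7, 6), (7, 8), (8, 7), (8, 9), (9, 0), (9, 8)]
    lev := [] }
  links := [[1, 2, 6, 7], [2, 0, 7, 8, 9], [6, 0, 1, 9, 10, 3, 4], [4, 2, 10, 11, 5, 12, 13], [6, 2, 3,
    13, 14, 15], [12, 3, 11, 8]]
  P := {
    a := 6
    N := 16
    nb := [198, 901, 1627, 15412, 57420, 6408, 32917, 323, 6818, 1286, 2572, 1320, 8488, 20504, 40976,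
      16464]
    tri := [(0, 1, 2), (0, 1, 7), (0, 2, 6), (0, 6, 7), (1, 2, 9), (1, 7, 8), (1, 8, 9), (2, 3, 4), (2,
      3, 10), (2, 4, 6), (2, 9, 10), (3, 4, 13), (3, 5, 11), (3, 5, 12), (3, 10, 11), (3, 12, 13),
      (4, 6, 15), (4, 13, 14), (4, 14, 15), (5, 8, 11), (5, 8, 12)]
    fin := [0, 0, 2, 3, 2, 5, 0, 7, 5, 0, 2, 3, 12, 3, 14, 15]
    chd := [(2, 14), (2, 15)]
    steps := [(0, 1), (0, 6), (0, 9), (2, 4), (2, 10), (3, 11), (3, 13), (5, 8)] }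
  rep := [0, 2, 7, 3, 5, 12, 14, 15]

noncomputable def v529 : Cov.CovD where
  P := 3
  N := 5
  pl := [1, 2, 6]
  lev := [⟨[], [], [], [2], [(0, 0, [])]⟩,
    ⟨[], [(0, 0)], [], [2, 4], [(3, 0, [])]⟩,
    ⟨[(0, 1)], [(0, 0), (0, 1), (1, 0), (1, 1)], [(0, 0), (0, 1)], [], [(0, 0, []), (3, 0,
      []), (4, 1, [6, 7])]⟩,
    ⟨[(0, 2), (1, 2)], [(2, 0), (2, 1), (2, 3)], [(1, 3), (3, 3)], [5], [(4, 1, [6, 7]),
      (5, 3, []), (7, 3, [])]⟩,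
    ⟨[(0, 2), (1, 2), (2, 3)], [(0, 0), (2, 0), (2, 1), (2, 3), (2, 6), (2, 7), (3, 0), (3,
      1), (3, 3), (3, 6), (3, 7)], [(0, 3), (0, 6), (0, 7), (3, 6), (3, 7), (6, 7)], [], [(0,
      0, []), (7, 3, []), (8, 6, [1]), (9, 7, [1])]⟩,
    ⟨[(2, 3), (3, 4)], [(3, 1), (3, 3)], [], [4, 5], [(5, 3, [])]⟩]
  Ta := [((0, 1), 0, 2), ((0, 9), 0, 7), ((3, 2), 0, 4), ((3, 4), 0, 1), ((5, 2), 3, 4), ((5, 4),
    3, 1), ((7, 6), 3, 5), ((7, 8), 3, 6)]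
  Tb := [((0, 1, 9), 0, 2, 7), ((1, 0, 2), 2, 0, 4), ((2, 1, 3), 4, 2, 0), ((2, 1, 5), 4, 2, 3),
    ((2, 1, 6), 4, 2, 5), ((2, 3, 5), 4, 0, 3), ((2, 3, 6), 4, 0, 5), ((2, 5, 6), 4, 3, 5),
    ((3, 2, 4), 0, 4, 1), ((4, 3, 5), 1, 0, 3), ((5, 2, 4), 3, 4, 1), ((6, 2, 7), 5, 4, 3),
    ((7, 6, 8), 3, 5, 6), ((8, 7, 9), 6, 3, 7), ((9, 0, 8), 7, 0, 6)]
  Tc := [(1, 6, 7)]
  Td := [((1, 6), (4, 3), 0), ((1, 6), (4, 5), 3), ((1, 7), (4, 3), 0), ((1, 7), (4, 5), 3), ((6,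
    1), (8, 7), 3), ((6, 1), (8, 9), 7), ((7, 1), (9, 0), 0), ((7, 1), (9, 8), 6)]
  G := [[0, 0, 0x822212d4224212d8c2, 0x624a2129c14, 0x62125a28c18], [0, 0, 0x122212d4524222d8c2,
    0x529212d814, 0xa29212d412], [0, 0x811121e4314111e2c8, 0, 0x822232d442125228cc8,
    0x62482329c224212d8a2], [0, 0x211181e2611141e8c4, 0, 0x829232d4224242d8c1,
    0x829212d4322222d4a8]]

noncomputable def n529 : Ent := ⟨e529, noF, [], [], []⟩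

def c529 : PLift (Cov.check n529.C.D v529 = true) := ⟨by decide +kernel⟩

def b529 : PLift (entF (fidx ts) 400 529 n529 = true) := ⟨by decide +kernel⟩

theorem g529 : GoodF (fidx ts) 400 529 := GoodF.ofV v529 n529 c529.down b529.down

/-- 457764:449 -/
noncomputable def e530 : SCfg where
  D := {
    a := 6
    L := 11
    kp := 8
    inn := [(0, 1), (0, 2), (1, 0), (1, 2), (2, 0), (2, 1), (2, 3), (2, 4), (3, 2), (3, 4), (3, 5), (4,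
      2), (4, 3), (5, 3)]
    mix := [(0, 0), (0, 1), (1, 1), (1, 2), (1, 3), (2, 0), (2, 3), (2, 4), (3, 4), (3, 5), (3, 6), (3,
      7), (4, 0), (4, 7), (4, 8), (4, 9), (5, 5), (5, 6), (5, 10)]
    cl := [0, 2, 7, 0, 1, 3, 4, 3, 5, 6, 8]
    chq := [(1, 5), (1, 6), (5, 1), (6, 1)]
    rng := [(0, 1), (0, 9), (1, 0), (1, 2), (2, 1), (2, 3), (3, 2), (3, 4), (4, 3), (4, 5), (5, 4), (5,
      10), (6, 7), (6, 10), (7, 6), (7, 8), (8, 7), (8, 9), (9, 0), (9, 8), (10, 5), (10, 6)]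
    lev := [] }
  links := [[1, 2, 6, 7], [2, 0, 7, 8, 9], [6, 0, 1, 9, 10, 3, 4], [4, 2, 10, 11, 5, 12, 13], [6, 2, 3,
    13, 14, 15], [12, 3, 11, 16]]
  P := {
    a := 6
    N := 17
    nb := [198, 901, 1627, 15412, 57420, 71688, 32917, 323, 642, 1286, 2572, 66600, 73768, 20504,
      40976, 16464, 6176]
    tri := [(0, 1, 2), (0, 1, 7), (0, 2, 6), (0, 6, 7), (1, 2, 9), (1, 7, 8), (1, 8, 9), (2, 3, 4), (2,
      3, 10), (2, 4, 6), (2, 9, 10), (3, 4, 13), (3, 5, 11), (3, 5, 12), (3, 10, 11), (3, 12, 13),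
      (4, 6, 15), (4, 13, 14), (4, 14, 15), (5, 11, 16), (5, 12, 16)]
    fin := [0, 0, 2, 3, 2, 3, 0, 7, 8, 0, 2, 3, 12, 3, 14, 15, 16]
    chd := [(2, 14), (2, 15)]
    steps := [(0, 1), (0, 6), (0, 9), (2, 4), (2, 10), (3, 5), (3, 11), (3, 13)] }
  rep := [0, 2, 7, 3, 12, 14, 15, 8, 16]

noncomputable def v530 : Cov.CovD where
  P := 3
  N := 6
  pl := [1, 2, 6, 10]
  lev := [⟨[], [], [], [2], [(0, 0, [])]⟩,
    ⟨[], [(0, 0)], [], [2, 7], [(3, 0, [])]⟩,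
    ⟨[(0, 1)], [(0, 0), (0, 1), (1, 0), (1, 1)], [(0, 0), (0, 1)], [], [(0, 0, []), (3, 0,
      []), (4, 1, [5, 6])]⟩,
    ⟨[(0, 2), (1, 2)], [(2, 0), (2, 1), (2, 3)], [(1, 3), (3, 3)], [4], [(4, 1, [5, 6]),
      (5, 3, []), (7, 3, [])]⟩,
    ⟨[(0, 2), (1, 2), (2, 3)], [(0, 0), (2, 0), (2, 1), (2, 3), (2, 5), (2, 6), (3, 0), (3,
      1), (3, 3), (3, 5), (3, 6)], [(0, 3), (0, 5), (0, 6), (3, 5), (3, 6), (5, 6)], [], [(0,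
      0, []), (7, 3, []), (8, 5, [1]), (9, 6, [1])]⟩,
    ⟨[(2, 3), (3, 4)], [(3, 1), (3, 3)], [], [4, 8], [(5, 3, [])]⟩]
  Ta := [((0, 1), 0, 2), ((0, 9), 0, 6), ((3, 2), 0, 7), ((3, 4), 0, 1), ((5, 4), 3, 1), ((5,
    10), 3, 8), ((7, 6), 3, 4), ((7, 8), 3, 5)]
  Tb := [((0, 1, 9), 0, 2, 6), ((1, 0, 2), 2, 0, 7), ((2, 1, 3), 7, 2, 0), ((3, 2, 4), 0, 7, 1),
    ((4, 3, 5), 1, 0, 3), ((5, 4, 10), 3, 1, 8), ((6, 7, 10), 4, 3, 8), ((7, 6, 8), 3, 4, 5),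
    ((8, 7, 9), 5, 3, 6), ((9, 0, 8), 6, 0, 5), ((10, 5, 6), 8, 3, 4)]
  Tc := [(1, 5, 6)]
  Td := [((1, 5), (4, 3), 0), ((1, 5), (4, 5), 3), ((1, 6), (4, 3), 0), ((1, 6), (4, 5), 3), ((5,
    1), (8, 7), 3), ((5, 1), (8, 9), 6), ((6, 1), (9, 0), 0), ((6, 1), (9, 8), 5)]
  G := [[0, 0, 0x624a2329c62325a28ca4, 0x62325a28c14, 0x62325a28c12], [0, 0,
    0x529232d4526232d8a2, 0x526232d814, 0x526232d812], [0, 0x9131a51465149131acc8, 0,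
    0x624a2329c226232d828cc1, 0xa23294624a2329ca62488a], [0, 0x51491c1ac61a1c1e8c4, 0,
    0x924a2329c526232d8c4, 0xa29232d4624a2c29ca8]]

noncomputable def n530 : Ent := ⟨e530, noF, [], [], [(7, 16, [1580044410770988437309982408355971841652082177953823432505691275265, 0]), (8, 16, [1580044410770988437309982408355971841652082177953823432505691279361, 0])]⟩

def c530 : PLift (Cov.check n530.C.D v530 = true) := ⟨by decide +kernel⟩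

def b530 : PLift (entF (fidx ts) 400 530 n530 = true) := ⟨by decide +kernel⟩

theorem g530 : GoodF (fidx ts) 400 530 := GoodF.ofV v530 n530 c530.down b530.down

/-- 457746:458/1 -/
noncomputable def e531 : SCfg where
  D := {
    a := 6
    L := 9
    kp := 6
    inn := [(0, 1), (0, 2), (0, 3), (1, 0), (1, 2), (1, 5), (2, 0), (2, 1), (2, 3), (2, 5), (3, 0), (3,
      2), (3, 4), (4, 3), (5, 1), (5, 2)]
    mix := [(0, 0), (1, 0), (1, 1), (2, 2), (2, 3), (2, 4), (3, 0), (3, 4), (3, 5), (3, 6), (4, 0), (4,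
      1), (4, 6), (5, 1), (5, 2), (5, 7), (5, 8)]
    cl := [0, 1, 1, 2, 0, 4, 3, 5, 6]
    chq := [(1, 4), (4, 1)]
    rng := [(0, 1), (1, 0), (1, 6), (1, 7), (2, 3), (2, 8), (3, 2), (3, 4), (4, 3), (4, 5), (5, 4), (5,
      6), (6, 1), (6, 5), (7, 1), (7, 8), (8, 2), (8, 7)]
    lev := [] }
  links := [[1, 2, 3, 6], [2, 0, 6, 7, 5], [3, 0, 1, 5, 8, 9, 10], [6, 0, 2, 10, 11, 12, 4], [6, 3, 12,
    7], [8, 2, 1, 7, 13, 14]]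
  P := {
    a := 6
    N := 15
    nb := [78, 229, 1835, 7253, 4296, 24966, 155, 12402, 16932, 1284, 2572, 5128, 2200, 16544, 8480]
    tri := [(0, 1, 2), (0, 1, 6), (0, 2, 3), (0, 3, 6), (1, 2, 5), (1, 5, 7), (1, 6, 7), (2, 3, 10),
      (2, 5, 8), (2, 8, 9), (2, 9, 10), (3, 4, 6), (3, 4, 12), (3, 10, 11), (3, 11, 12), (4, 6,
      7), (4, 7, 12), (5, 7, 13), (5, 8, 14), (5, 13, 14)]
    fin := [0, 0, 0, 3, 3, 3, 0, 3, 3, 9, 0, 11, 12, 13, 14]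
    chd := [(3, 11)]
    steps := [(0, 1), (0, 2), (0, 6), (0, 10), (3, 4), (3, 7), (3, 5), (3, 8)] }
  rep := [0, 3, 9, 12, 11, 13, 14]

noncomputable def v531 : Cov.CovD where
  P := 3
  N := 4
  pl := [3, 6, 7, 8]
  lev := [⟨[], [], [], [], [(0, 0, [])]⟩,
    ⟨[], [(0, 0), (0, 1)], [(0, 1)], [], [(0, 0, []), (1, 1, [4])]⟩,
    ⟨[(0, 1)], [(0, 0), (0, 1), (1, 0), (1, 1)], [(0, 1)], [2], [(2, 1, [4]), (4, 0, [])]⟩,
    ⟨[(0, 1), (0, 2), (1, 2)], [(0, 0), (0, 4), (1, 0), (2, 0), (2, 1), (2, 4)], [(0, 0),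
      (0, 4)], [3], [(0, 0, []), (4, 0, []), (5, 4, [1])]⟩,
    ⟨[(0, 3), (2, 3)], [(0, 0), (1, 0), (1, 1), (3, 0), (3, 1), (3, 4)], [(0, 1)], [3],
      [(0, 0, []), (1, 1, [4])]⟩,
    ⟨[(0, 1), (0, 2), (1, 2), (2, 3)], [(1, 0), (1, 1), (2, 0), (2, 1), (4, 1)], [(1, 1)],
      [5, 6], [(1, 1, [4]), (2, 1, [4])]⟩]
  Ta := [((0, 1), 0, 1), ((1, 0), 1, 0), ((1, 6), 1, 3), ((1, 7), 1, 5), ((2, 3), 1, 2), ((2, 8),
    1, 6), ((4, 3), 0, 2), ((4, 5), 0, 4)]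
  Tb := [((1, 0, 6), 1, 0, 3), ((1, 0, 7), 1, 0, 5), ((1, 6, 7), 1, 3, 5), ((2, 3, 8), 1, 2, 6),
    ((3, 2, 4), 2, 1, 0), ((4, 3, 5), 0, 2, 4), ((5, 4, 6), 4, 0, 3), ((6, 1, 5), 3, 1, 4),
    ((7, 1, 8), 5, 1, 6), ((8, 2, 7), 6, 1, 5)]
  Tc := []
  Td := [((1, 4), (1, 0), 0), ((1, 4), (1, 6), 3), ((1, 4), (1, 7), 5), ((1, 4), (2, 3), 2), ((1,
    4), (2, 8), 6), ((4, 1), (5, 4), 0), ((4, 1), (5, 6), 3)]
  G := [[0, 0x644e8eecac8448a2, 0, 0, 0x15c2d8d8cc8c2b84], [0, 0, 0, 0xddc2482, 0x51c28cc2928],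
    [0, 0, 0x412912d4d8ce84, 0, 0x512d4d4ca488c2849], [0, 0, 0xd4c2912c24, 0xdd52842,
    0x45c2889528c4]]

noncomputable def n531 : Ent := ⟨e531, noF, [], [], []⟩

def c531 : PLift (Cov.check n531.C.D v531 = true) := ⟨by decide +kernel⟩

def b531 : PLift (entF (fidx ts) 400 531 n531 = true) := ⟨by decide +kernel⟩

theorem g531 : GoodF (fidx ts) 400 531 := GoodF.ofV v531 n531 c531.down b531.down

/-- 457746:458 -/
noncomputable def e532 : SCfg where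
  D := {
    a := 6
    L := 10
    kp := 7
    inn := [(0, 1), (0, 2), (0, 3), (1, 0), (1, 2), (1, 5), (2, 0), (2, 1), (2, 3), (2, 5), (3, 0), (3,
      2), (3, 4), (4, 3), (5, 1), (5, 2)]
    mix := [(0, 0), (1, 0), (1, 1), (2, 2), (2, 3), (2, 4), (3, 0), (3, 4), (3, 5), (3, 6), (4, 0), (4,
      6), (4, 7), (5, 1), (5, 2), (5, 8), (5, 9)]
    cl := [0, 3, 3, 4, 1, 0, 2, 5, 6, 7]
    chq := [(0, 4), (4, 0)]
    rng := [(0, 1), (0, 7), (1, 0), (1, 8), (2, 3), (2, 9), (3, 2), (3, 4), (4, 3), (4, 5), (5, 4), (5,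
      6), (6, 5), (6, 7), (7, 0), (7, 6), (8, 1), (8, 9), (9, 2), (9, 8)]
    lev := [] }
  links := [[1, 2, 3, 6], [2, 0, 6, 7, 5], [3, 0, 1, 5, 8, 9, 10], [6, 0, 2, 10, 11, 12, 4], [6, 3, 12,
    13], [8, 2, 1, 7, 14, 15]]
  P := {
    a := 6
    N := 16
    nb := [78, 229, 1835, 7253, 12360, 49542, 8347, 16482, 33316, 1284, 2572, 5128, 10264, 4176,
      32928, 16672]
    tri := [(0, 1, 2), (0, 1, 6), (0, 2, 3), (0, 3, 6), (1, 2, 5), (1, 5, 7), (1, 6, 7), (2, 3, 10),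
      (2, 5, 8), (2, 8, 9), (2, 9, 10), (3, 4, 6), (3, 4, 12), (3, 10, 11), (3, 11, 12), (4, 6,
      13), (4, 12, 13), (5, 7, 14), (5, 8, 15), (5, 14, 15)]
    fin := [0, 0, 0, 0, 0, 5, 0, 5, 5, 9, 10, 0, 12, 13, 14, 15]
    chd := [(0, 9)]
    steps := [(0, 1), (0, 2), (0, 3), (0, 4), (0, 6), (0, 11), (5, 7), (5, 8)] }
  rep := [0, 10, 12, 5, 9, 13, 14, 15]

noncomputable def v532 : Cov.CovD where
  P := 3
  N := 5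
  pl := [4, 6, 7, 8, 9]
  lev := [⟨[], [], [], [], [(0, 0, [4])]⟩,
    ⟨[], [(0, 0), (0, 3)], [(0, 3)], [], [(0, 0, [4]), (1, 3, [])]⟩,
    ⟨[(0, 1)], [(0, 0), (0, 3), (0, 4), (1, 0), (1, 3), (1, 4)], [(3, 4)], [1], [(2, 3,
      []), (3, 4, [0])]⟩,
    ⟨[(0, 1), (0, 2), (1, 2)], [(0, 0), (1, 0), (2, 0), (2, 3), (2, 4)], [(0, 0)], [1, 2],
      [(0, 0, [4]), (5, 0, [4])]⟩,
    ⟨[(0, 3), (2, 3)], [(0, 0), (1, 0), (3, 0)], [], [2, 5], [(0, 0, [4])]⟩,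
    ⟨[(0, 1), (0, 2), (1, 2), (2, 3)], [(1, 0), (1, 3), (2, 3), (2, 4)], [(3, 3)], [6, 7],
      [(1, 3, []), (2, 3, [])]⟩]
  Ta := [((0, 1), 0, 3), ((0, 7), 0, 5), ((1, 0), 3, 0), ((1, 8), 3, 6), ((2, 3), 3, 4), ((2, 9),
    3, 7), ((5, 4), 0, 1), ((5, 6), 0, 2)]
  Tb := [((0, 1, 7), 0, 3, 5), ((1, 0, 8), 3, 0, 6), ((2, 3, 9), 3, 4, 7), ((3, 2, 4), 4, 3, 1),
    ((4, 3, 5), 1, 4, 0), ((5, 4, 6), 0, 1, 2), ((6, 5, 7), 2, 0, 5), ((7, 0, 6), 5, 0, 2),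
    ((8, 1, 9), 6, 3, 7), ((9, 2, 8), 7, 3, 6)]
  Tc := []
  Td := [((0, 4), (0, 1), 3), ((0, 4), (0, 7), 5), ((0, 4), (5, 4), 1), ((0, 4), (5, 6), 2), ((4,
    0), (3, 2), 3), ((4, 0), (3, 4), 1)]
  G := [[0, 0, 0, 0xffc8161948a17c4846, 0xaaa8111877a8911a84e2], [0, 0, 0, 0x114118ffc4d82,
    0x118118ffa8d24], [0, 0xf182f18468, 0xbb68177a81c2, 0x118f1857148a4, 0x118f185b18468],
    [0, 0xf1824f184f148ca, 0xffa4148, 0x114118f14d84, 0x118118f18d24]]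

noncomputable def n532 : Ent := ⟨e532, noF, [], [], [(7, 13, [385753028440516072301428330182238677962518295842732840409182209, 0])]⟩

def c532 : PLift (Cov.check n532.C.D v532 = true) := ⟨by decide +kernel⟩

def b532 : PLift (entF (fidx ts) 400 532 n532 = true) := ⟨by decide +kernel⟩

theorem g532 : GoodF (fidx ts) 400 532 := GoodF.ofV v532 n532 c532.down b532.down

/-- 457865:462 -/
noncomputable def e533 : SCfg where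
  D := {
    a := 6
    L := 11
    kp := 9
    inn := [(0, 1), (0, 2), (0, 3), (1, 0), (1, 2), (2, 0), (2, 1), (2, 3), (2, 4), (3, 0), (3, 2), (3,
      4), (3, 5), (4, 2), (4, 3), (4, 5), (5, 3), (5, 4)]
    mix := [(0, 0), (1, 0), (1, 1), (1, 2), (2, 2), (2, 3), (2, 4), (3, 0), (3, 5), (3, 6), (3, 7), (4,
      4), (4, 8), (4, 9), (5, 5), (5, 9), (5, 10)]
    cl := [0, 6, 2, 4, 1, 0, 7, 8, 9, 3, 5]
    chq := [(0, 1), (0, 2), (0, 4), (1, 0), (1, 3), (1, 5), (2, 0), (3, 1), (4, 0), (5, 1)]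
    rng := [(0, 1), (0, 7), (1, 0), (1, 2), (2, 1), (2, 3), (3, 2), (3, 4), (4, 3), (4, 8), (5, 6), (5,
      10), (6, 5), (6, 7), (7, 0), (7, 6), (8, 4), (8, 9), (9, 8), (9, 10), (10, 5), (10, 9)]
    lev := [] }
  links := [[1, 2, 3, 6], [2, 0, 6, 7, 8], [3, 0, 1, 8, 9, 10, 4], [6, 0, 2, 4, 5, 11, 12, 13], [5, 3, 2,
    10, 14, 15], [11, 3, 4, 15, 16]]
  P := {
    a := 6
    N := 17
    nb := [78, 453, 1819, 14453, 50220, 100376, 8331, 322, 646, 1284, 16916, 69672, 10248, 4168,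
      33808, 81968, 34848]
    tri := [(0, 1, 2), (0, 1, 6), (0, 2, 3), (0, 3, 6), (1, 2, 8), (1, 6, 7), (1, 7, 8), (2, 3, 4), (2,
      4, 10), (2, 8, 9), (2, 9, 10), (3, 4, 5), (3, 5, 11), (3, 6, 13), (3, 11, 12), (3, 12, 13),
      (4, 5, 15), (4, 10, 14), (4, 14, 15), (5, 11, 16), (5, 15, 16)]
    fin := [0, 0, 0, 0, 4, 4, 0, 7, 8, 9, 4, 0, 12, 13, 14, 15, 16]
    chd := [(0, 4), (0, 8), (0, 9), (4, 15), (4, 16)]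
    steps := [(0, 1), (0, 2), (0, 3), (0, 6), (0, 11), (4, 5), (4, 10)] }
  rep := [0, 4, 8, 15, 9, 16, 7, 12, 13, 14]

noncomputable def v533 : Cov.CovD where
  P := 3
  N := 7
  pl := [1, 6, 7, 8]
  lev := [⟨[], [], [], [], [(0, 0, [1, 2, 4])]⟩,
    ⟨[], [(0, 0), (0, 2)], [(0, 2)], [6], [(0, 0, [1, 2, 4]), (2, 2, [0])]⟩,
    ⟨[(0, 1)], [(0, 0), (0, 1), (0, 2), (0, 4), (1, 0), (1, 1), (1, 2), (1, 4)], [(1, 2),
      (1, 4), (2, 4)], [], [(2, 2, [0]), (3, 4, [0]), (4, 1, [0, 3, 5])]⟩,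
    ⟨[(0, 1), (0, 2), (1, 2)], [(0, 0), (1, 0), (2, 0), (2, 1), (2, 2), (2, 4)], [(0, 0)],
      [7, 8], [(0, 0, [1, 2, 4]), (5, 0, [1, 2, 4])]⟩,
    ⟨[(0, 2), (0, 3), (1, 2), (2, 3)], [(2, 1), (2, 2), (2, 3), (2, 4), (3, 0), (3, 1), (3,
      3)], [(1, 3)], [9], [(4, 1, [0, 3, 5]), (9, 3, [1])]⟩,
    ⟨[(0, 3), (2, 3), (2, 4), (3, 4)], [(3, 0), (3, 3), (3, 5), (4, 0), (4, 1), (4, 3), (4,
      5)], [(0, 3), (0, 5), (3, 5)], [], [(5, 0, [1, 2, 4]), (9, 3, [1]), (10, 5, [1])]⟩]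
  Ta := [((0, 1), 0, 6), ((0, 7), 0, 8), ((5, 6), 0, 7), ((5, 10), 0, 5)]
  Tb := [((0, 1, 7), 0, 6, 8), ((1, 0, 2), 6, 0, 2), ((2, 1, 3), 2, 6, 4), ((3, 2, 4), 4, 2, 1),
    ((4, 3, 8), 1, 4, 9), ((5, 6, 10), 0, 7, 5), ((6, 5, 7), 7, 0, 8), ((7, 0, 6), 8, 0, 7),
    ((8, 4, 9), 9, 1, 3), ((9, 8, 10), 3, 9, 5), ((10, 5, 9), 5, 0, 3)]
  Tc := [(0, 1, 2), (0, 1, 4), (0, 2, 4), (1, 0, 3), (1, 0, 5), (1, 3, 5)]
  Td := [((0, 1), (0, 1), 6), ((0, 1), (0, 7), 8), ((0, 1), (5, 6), 7), ((0, 1), (5, 10), 5),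
    ((0, 2), (0, 1), 6), ((0, 2), (0, 7), 8), ((0, 2), (5, 6), 7), ((0, 2), (5, 10), 5), ((0,
    4), (0, 1), 6), ((0, 4), (0, 7), 8), ((0, 4), (5, 6), 7), ((0, 4), (5, 10), 5), ((1, 0),
    (4, 3), 4), ((1, 0), (4, 8), 9), ((1, 3), (4, 3), 4), ((1, 3), (4, 8), 9), ((1, 5), (4,
    3), 4), ((1, 5), (4, 8), 9), ((2, 0), (2, 1), 6), ((2, 0), (2, 3), 4), ((3, 1), (9, 8),
    9), ((3, 1), (9, 10), 5), ((4, 0), (3, 2), 2), ((4, 0), (3, 4), 1), ((5, 1), (10, 5), 0),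
    ((5, 1), (10, 9), 3)]
  G := [[0, 0x116e1ae1e1ac118111ec118111ec1c6,
    0x21e1621e1a22c76cad8214421822c22cddce922c41e2121e1e2121e1ec27,
    0x229abed61222dadeda12121e1e8d222d24c1222d41c6,
    0x222da6ed61222da6ed61e128b222d81222d812121c8ba], [0,
    0x1441116111e111ee1c111e11a111ee11881cc,
    0xa1221e1ac612e12ca21422c22cddce52121c1e21822c22cddced2121c214ce6,
    0x222d229a6ede1222da6eda12121e1e8d2441222d41c6,
    0x2441225222da6ede1a222d229a6ede128812121e1e8bc]]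

noncomputable def n533 : Ent := ⟨e533, noF, [], [], []⟩

def c533 : PLift (Cov.check n533.C.D v533 = true) := ⟨by decide +kernel⟩

def b533 : PLift (entF (fidx ts) 400 533 n533 = true) := ⟨by decide +kernel⟩

theorem g533 : GoodF (fidx ts) 400 533 := GoodF.ofV v533 n533 c533.down b533.down

/-- 457764:465 -/
noncomputable def e534 : SCfg where
  D := {
    a := 6
    L := 10
    kp := 8
    inn := [(0, 1), (0, 2), (0, 3), (1, 0), (1, 2), (2, 0), (2, 1), (2, 3), (2, 4), (3, 0), (3, 2), (3,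
      4), (4, 2), (4, 3), (4, 5), (5, 4)]
    mix := [(0, 0), (1, 0), (1, 1), (1, 2), (2, 2), (2, 3), (2, 4), (3, 0), (3, 5), (3, 6), (3, 7), (4,
      4), (4, 5), (4, 8), (5, 4), (5, 8), (5, 9)]
    cl := [3, 5, 1, 2, 0, 0, 6, 7, 4, 8]
    chq := [(2, 3), (2, 5), (2, 6), (2, 7), (3, 2), (5, 2), (6, 2), (7, 2)]
    rng := [(0, 1), (0, 7), (1, 0), (1, 2), (2, 1), (2, 3), (3, 2), (3, 4), (4, 3), (4, 9), (5, 6), (5,
      8), (6, 5), (6, 7), (7, 0), (7, 6), (8, 5), (8, 9), (9, 4), (9, 8)]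
    lev := [] }
  links := [[1, 2, 3, 6], [2, 0, 6, 7, 8], [3, 0, 1, 8, 9, 10, 4], [6, 0, 2, 4, 11, 12, 13], [11, 3, 2,
    10, 5, 14], [14, 4, 10, 15]]
  P := {
    a := 6
    N := 16
    nb := [78, 453, 1819, 14421, 19500, 50192, 8331, 322, 646, 1284, 33332, 20504, 10248, 4168, 34864,
      17440]
    tri := [(0, 1, 2), (0, 1, 6), (0, 2, 3), (0, 3, 6), (1, 2, 8), (1, 6, 7), (1, 7, 8), (2, 3, 4), (2,
      4, 10), (2, 8, 9), (2, 9, 10), (3, 4, 11), (3, 6, 13), (3, 11, 12), (3, 12, 13), (4, 5, 10),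
      (4, 5, 14), (4, 11, 14), (5, 10, 15), (5, 14, 15)]
    fin := [0, 1, 2, 2, 4, 4, 0, 1, 8, 2, 4, 4, 12, 13, 14, 15]
    chd := [(0, 2), (1, 2), (2, 12), (2, 13)]
    steps := [(0, 6), (1, 7), (2, 3), (2, 9), (4, 5), (4, 10), (4, 11)] }
  rep := [4, 8, 2, 0, 14, 1, 12, 13, 15]

noncomputable def v534 : Cov.CovD where
  P := 3
  N := 6
  pl := [2, 8, 9]
  lev := [⟨[], [], [], [], [(0, 3, [2])]⟩,
    ⟨[], [(0, 3), (0, 5)], [(3, 5)], [1], [(0, 3, [2]), (1, 5, [2])]⟩,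
    ⟨[(0, 1)], [(0, 0), (0, 2), (0, 3), (1, 0), (1, 2), (1, 3), (1, 5)], [(0, 2)], [1],
      [(3, 2, [3, 5, 6, 7]), (4, 0, [])]⟩,
    ⟨[(0, 1), (0, 2), (1, 2)], [(0, 0), (0, 3), (0, 6), (0, 7), (1, 3), (2, 0), (2, 2), (2,
      3), (2, 6), (2, 7)], [(0, 3), (0, 6), (0, 7), (3, 6), (3, 7), (6, 7)], [], [(0, 3,
      [2]), (5, 0, []), (6, 6, [2]), (7, 7, [2])]⟩,
    ⟨[(0, 2), (0, 3), (1, 2), (2, 3)], [(2, 0), (2, 2), (3, 0), (3, 3), (3, 6), (3, 7)],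
      [(0, 0)], [4], [(4, 0, []), (5, 0, [])]⟩,
    ⟨[(2, 4), (3, 4)], [(2, 0), (4, 0)], [], [4, 8], [(4, 0, [])]⟩]
  Ta := [((4, 3), 0, 2), ((4, 9), 0, 8), ((5, 6), 0, 6), ((5, 8), 0, 4)]
  Tb := [((0, 1, 7), 3, 5, 7), ((1, 0, 2), 5, 3, 1), ((2, 1, 3), 1, 5, 2), ((3, 2, 4), 2, 1, 0),
    ((4, 3, 9), 0, 2, 8), ((5, 6, 8), 0, 6, 4), ((6, 5, 7), 6, 0, 7), ((7, 0, 6), 7, 3, 6),
    ((8, 5, 9), 4, 0, 8), ((9, 4, 8), 8, 0, 4)]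
  Tc := [(2, 3, 5), (2, 3, 6), (2, 3, 7), (2, 5, 6), (2, 5, 7), (2, 6, 7)]
  Td := [((2, 3), (3, 2), 1), ((2, 3), (3, 4), 0), ((2, 5), (3, 2), 1), ((2, 5), (3, 4), 0), ((2,
    6), (3, 2), 1), ((2, 6), (3, 4), 0), ((2, 7), (3, 2), 1), ((2, 7), (3, 4), 0), ((3, 2),
    (0, 1), 5), ((3, 2), (0, 7), 7), ((5, 2), (1, 0), 3), ((5, 2), (1, 2), 1), ((6, 2), (6,
    5), 0), ((6, 2), (6, 7), 7), ((7, 2), (7, 0), 3), ((7, 2), (7, 6), 6)]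
  G := [[0, 0x88244642a82c26c28c642a82c2d, 0xca6181c6a141a, 0x2e8e284642a82c642a82c96,
    0x8e6ca6584ca648ee2ec84f84844882e84b], [0, 0x142a82c35c28ca1c2425, 0,
    0xa1c241bc2853c24d2, 0xc841853a484124816a489b]]

noncomputable def n534 : Ent := ⟨e534, noF, [], [], []⟩

def c534 : PLift (Cov.check n534.C.D v534 = true) := ⟨by decide +kernel⟩

def b534 : PLift (entF (fidx ts) 400 534 n534 = true) := ⟨by decide +kernel⟩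

theorem g534 : GoodF (fidx ts) 400 534 := GoodF.ofV v534 n534 c534.down b534.down

/-- 457664:466/1 -/
noncomputable def e535 : SCfg where
  D := {
    a := 6
    L := 9
    kp := 6
    inn := [(0, 1), (0, 2), (1, 0), (1, 2), (1, 4), (2, 0), (2, 1), (2, 3), (2, 4), (3, 2), (3, 5), (4,
      1), (4, 2), (5, 3)]
    mix := [(0, 0), (0, 1), (1, 1), (1, 2), (2, 0), (2, 3), (2, 4), (3, 0), (3, 4), (3, 5), (3, 6), (4,
      2), (4, 3), (4, 7), (4, 8), (5, 4), (5, 5), (5, 8)]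
    cl := [0, 2, 1, 1, 0, 3, 5, 6, 4]
    chq := [(0, 3), (3, 0)]
    rng := [(0, 1), (0, 6), (1, 0), (1, 2), (2, 1), (2, 7), (3, 4), (3, 8), (4, 3), (4, 8), (5, 6), (5,
      8), (6, 0), (6, 5), (7, 2), (7, 8), (8, 3), (8, 4), (8, 5), (8, 7)]
    lev := [] }
  links := [[1, 2, 6, 7], [2, 0, 7, 8, 4], [6, 0, 1, 4, 9, 10, 3], [6, 2, 10, 5, 11, 12], [9, 2, 1, 8,
    13, 14], [11, 3, 10, 14]]
  P := {
    a := 6
    N := 15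
    nb := [198, 405, 1627, 7268, 25350, 19464, 4237, 323, 8338, 17428, 16940, 20520, 2120, 16656,
      11824]
    tri := [(0, 1, 2), (0, 1, 7), (0, 2, 6), (0, 6, 7), (1, 2, 4), (1, 4, 8), (1, 7, 8), (2, 3, 6), (2,
      3, 10), (2, 4, 9), (2, 9, 10), (3, 5, 10), (3, 5, 11), (3, 6, 12), (3, 11, 12), (4, 8, 13),
      (4, 9, 14), (4, 13, 14), (5, 10, 14), (5, 11, 14)]
    fin := [0, 0, 0, 0, 4, 0, 0, 7, 4, 4, 0, 11, 12, 13, 14]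
    chd := [(0, 11)]
    steps := [(0, 1), (0, 2), (0, 3), (0, 5), (0, 6), (0, 10), (4, 8), (4, 9)] }
  rep := [0, 4, 7, 11, 14, 12, 13]

noncomputable def v535 : Cov.CovD where
  P := 3
  N := 4
  pl := [1, 6, 7, 8]
  lev := [⟨[], [], [], [2], [(0, 0, [3])]⟩,
    ⟨[], [(0, 0), (0, 1)], [], [2], [(2, 1, [])]⟩,
    ⟨[(0, 1)], [(0, 0), (0, 1), (1, 0), (1, 1)], [(0, 0), (0, 1)], [], [(0, 0, [3]), (3, 1,
      []), (4, 0, [3])]⟩,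
    ⟨[(0, 2), (1, 2)], [(0, 0), (2, 0), (2, 1), (2, 3)], [(0, 0), (0, 3)], [5], [(0, 0,
      [3]), (4, 0, [3]), (5, 3, [0])]⟩,
    ⟨[(0, 1), (0, 2), (1, 2), (2, 3)], [(1, 1), (2, 0), (2, 1)], [(1, 1)], [4, 6], [(2, 1,
      []), (3, 1, [])]⟩,
    ⟨[(2, 3)], [(2, 0), (3, 0), (3, 3)], [(0, 3)], [4], [(4, 0, [3]), (5, 3, [0])]⟩]
  Ta := [((0, 1), 0, 2), ((0, 6), 0, 5), ((2, 1), 1, 2), ((2, 7), 1, 6), ((3, 4), 1, 0), ((3, 8),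
    1, 4), ((4, 3), 0, 1), ((4, 8), 0, 4)]
  Tb := [((0, 1, 6), 0, 2, 5), ((1, 0, 2), 2, 0, 1), ((2, 1, 7), 1, 2, 6), ((3, 4, 8), 1, 0, 4),
    ((4, 3, 8), 0, 1, 4), ((5, 6, 8), 3, 5, 4), ((6, 0, 5), 5, 0, 3), ((7, 2, 8), 6, 1, 4),
    ((8, 3, 4), 4, 1, 0), ((8, 3, 5), 4, 1, 3), ((8, 3, 7), 4, 1, 6), ((8, 4, 5), 4, 0, 3),
    ((8, 4, 7), 4, 0, 6), ((8, 5, 7), 4, 3, 6)]
  Tc := []
  Td := [((0, 3), (0, 1), 2), ((0, 3), (0, 6), 5), ((0, 3), (4, 3), 1), ((0, 3), (4, 8), 4), ((3,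
    0), (5, 6), 5), ((3, 0), (5, 8), 4)]
  G := [[0, 0, 0x2422192111d141dce48, 0x2422292813d141dce14, 0x141d222d6863d8c12], [0, 0,
    0x115141d112de888c42, 0, 0x175941d923de188c12], [0, 0, 0, 0x86eda29222de4c54618,
    0x222d286eda4edc618], [0, 0xe62e28eeee4ee84e618, 0, 0, 0xa4ed486edee2dac21]]

noncomputable def n535 : Ent := ⟨e535, noF, [], [], []⟩

def c535 : PLift (Cov.check n535.C.D v535 = true) := ⟨by decide +kernel⟩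

def b535 : PLift (entF (fidx ts) 400 535 n535 = true) := ⟨by decide +kernel⟩

theorem g535 : GoodF (fidx ts) 400 535 := GoodF.ofV v535 n535 c535.down b535.down

/-- 457664:466 -/
noncomputable def e536 : SCfg where
  D := {
    a := 6
    L := 10
    kp := 7
    inn := [(0, 1), (0, 2), (1, 0), (1, 2), (1, 4), (2, 0), (2, 1), (2, 3), (2, 4), (3, 2), (3, 5), (4,
      1), (4, 2), (5, 3)]
    mix := [(0, 0), (0, 1), (1, 1), (1, 2), (2, 0), (2, 3), (2, 4), (3, 0), (3, 4), (3, 5), (3, 6), (4,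
      2), (4, 3), (4, 7), (4, 8), (5, 4), (5, 5), (5, 9)]
    cl := [0, 2, 1, 1, 0, 3, 4, 5, 6, 7]
    chq := [(0, 3), (3, 0)]
    rng := [(0, 1), (0, 6), (1, 0), (1, 2), (2, 1), (2, 7), (3, 4), (3, 8), (4, 3), (4, 9), (5, 6), (5,
      9), (6, 0), (6, 5), (7, 2), (7, 8), (8, 3), (8, 7), (9, 4), (9, 5)]
    lev := [] }
  links := [[1, 2, 6, 7], [2, 0, 7, 8, 4], [6, 0, 1, 4, 9, 10, 3], [6, 2, 10, 5, 11, 12], [9, 2, 1, 8,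
    13, 14], [11, 3, 10, 15]]
  P := {
    a := 6
    N := 16
    nb := [198, 405, 1627, 7268, 25350, 35848, 4237, 323, 8338, 17428, 33324, 36904, 2120, 16656,
      8720, 3104]
    tri := [(0, 1, 2), (0, 1, 7), (0, 2, 6), (0, 6, 7), (1, 2, 4), (1, 4, 8), (1, 7, 8), (2, 3, 6), (2,
      3, 10), (2, 4, 9), (2, 9, 10), (3, 5, 10), (3, 5, 11), (3, 6, 12), (3, 11, 12), (4, 8, 13),
      (4, 9, 14), (4, 13, 14), (5, 10, 15), (5, 11, 15)]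
    fin := [0, 0, 0, 0, 4, 0, 0, 7, 4, 4, 0, 11, 12, 13, 14, 15]
    chd := [(0, 11)]
    steps := [(0, 1), (0, 2), (0, 3), (0, 5), (0, 6), (0, 10), (4, 8), (4, 9)] }
  rep := [0, 4, 7, 11, 12, 13, 14, 15]

noncomputable def v536 : Cov.CovD where
  P := 3
  N := 5
  pl := [1, 6, 7, 8, 9]
  lev := [⟨[], [], [], [2], [(0, 0, [3])]⟩,
    ⟨[], [(0, 0), (0, 1)], [], [2], [(2, 1, [])]⟩,
    ⟨[(0, 1)], [(0, 0), (0, 1), (1, 0), (1, 1)], [(0, 0), (0, 1)], [], [(0, 0, [3]), (3, 1,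
      []), (4, 0, [3])]⟩,
    ⟨[(0, 2), (1, 2)], [(0, 0), (2, 0), (2, 1), (2, 3)], [(0, 0), (0, 3)], [4], [(0, 0,
      [3]), (4, 0, [3]), (5, 3, [0])]⟩,
    ⟨[(0, 1), (0, 2), (1, 2), (2, 3)], [(1, 1), (2, 0), (2, 1)], [(1, 1)], [5, 6], [(2, 1,
      []), (3, 1, [])]⟩,
    ⟨[(2, 3)], [(2, 0), (3, 0), (3, 3)], [(0, 3)], [7], [(4, 0, [3]), (5, 3, [0])]⟩]
  Ta := [((0, 1), 0, 2), ((0, 6), 0, 4), ((2, 1), 1, 2), ((2, 7), 1, 5), ((3, 4), 1, 0), ((3, 8),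
    1, 6), ((4, 3), 0, 1), ((4, 9), 0, 7)]
  Tb := [((0, 1, 6), 0, 2, 4), ((1, 0, 2), 2, 0, 1), ((2, 1, 7), 1, 2, 5), ((3, 4, 8), 1, 0, 6),
    ((4, 3, 9), 0, 1, 7), ((5, 6, 9), 3, 4, 7), ((6, 0, 5), 4, 0, 3), ((7, 2, 8), 5, 1, 6),
    ((8, 3, 7), 6, 1, 5), ((9, 4, 5), 7, 0, 3)]
  Tc := []
  Td := [((0, 3), (0, 1), 2), ((0, 3), (0, 6), 4), ((0, 3), (4, 3), 1), ((0, 3), (4, 9), 7), ((3,
    0), (5, 6), 4), ((3, 0), (5, 9), 7)]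
  G := [[0, 0, 0x1151156111d1818ec82, 0xb9ed119e5bde344618, 0x515737de97de188c12], [0, 0,
    0x115111d14e18119ac42, 0, 0x144dd5d1997b3dec28], [0, 0, 0, 0xeeed2eeedeeedc681,
    0xeeedeeedaeeed4681], [0, 0xeeee2eeeeeeeeca14, 0, 0, 0xeeed4eeedeeedac12]]

noncomputable def n536 : Ent := ⟨e536, noF, [], [], [(14, 15, [360035742630636841211993100915356868655746945586763691009863681, 0])]⟩

def c536 : PLift (Cov.check n536.C.D v536 = true) := ⟨by decide +kernel⟩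

def b536 : PLift (entF (fidx ts) 400 536 n536 = true) := ⟨by decide +kernel⟩

theorem g536 : GoodF (fidx ts) 400 536 := GoodF.ofV v536 n536 c536.down b536.down

/-- 457664:467/1 -/
noncomputable def e537 : SCfg where
  D := {
    a := 6
    L := 9
    kp := 6
    inn := [(0, 1), (0, 2), (1, 0), (1, 2), (1, 4), (2, 0), (2, 1), (2, 3), (2, 4), (3, 2), (3, 5), (4,
      1), (4, 2), (5, 3)]
    mix := [(0, 0), (0, 1), (1, 1), (1, 2), (2, 0), (2, 3), (2, 4), (3, 0), (3, 4), (3, 5), (3, 6), (4,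
      2), (4, 3), (4, 7), (4, 8), (5, 0), (5, 1), (5, 6)]
    cl := [0, 2, 1, 1, 0, 4, 3, 5, 6]
    chq := [(0, 3), (3, 0)]
    rng := [(0, 1), (1, 0), (1, 2), (1, 6), (2, 1), (2, 7), (3, 4), (3, 8), (4, 3), (4, 5), (5, 4), (5,
      6), (6, 1), (6, 5), (7, 2), (7, 8), (8, 3), (8, 7)]
    lev := [] }
  links := [[1, 2, 6, 7], [2, 0, 7, 8, 4], [6, 0, 1, 4, 9, 10, 3], [6, 2, 10, 11, 12, 5], [9, 2, 1, 8,
    13, 14], [6, 3, 12, 7]]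
  P := {
    a := 6
    N := 15
    nb := [198, 405, 1627, 7268, 25350, 4296, 173, 4451, 8338, 17428, 2572, 5128, 2216, 16656, 8720]
    tri := [(0, 1, 2), (0, 1, 7), (0, 2, 6), (0, 6, 7), (1, 2, 4), (1, 4, 8), (1, 7, 8), (2, 3, 6), (2,
      3, 10), (2, 4, 9), (2, 9, 10), (3, 5, 6), (3, 5, 12), (3, 10, 11), (3, 11, 12), (4, 8, 13),
      (4, 9, 14), (4, 13, 14), (5, 6, 7), (5, 7, 12)]
    fin := [0, 0, 0, 0, 4, 0, 0, 7, 4, 4, 0, 11, 12, 13, 14]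
    chd := [(0, 12)]
    steps := [(0, 1), (0, 2), (0, 3), (0, 6), (0, 5), (0, 10), (4, 8), (4, 9)] }
  rep := [0, 4, 7, 12, 11, 13, 14]

noncomputable def v537 : Cov.CovD where
  P := 3
  N := 4
  pl := [1, 5, 7, 8]
  lev := [⟨[], [], [], [2], [(0, 0, [3])]⟩,
    ⟨[], [(0, 0), (0, 1)], [], [2], [(2, 1, [])]⟩,
    ⟨[(0, 1)], [(0, 0), (0, 1), (1, 0), (1, 1)], [(0, 0), (0, 1)], [], [(0, 0, [3]), (3, 1,
      []), (4, 0, [3])]⟩,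
    ⟨[(0, 2), (1, 2)], [(0, 0), (2, 0), (2, 1), (2, 3)], [(0, 0), (0, 3)], [4], [(0, 0,
      [3]), (4, 0, [3]), (6, 3, [0])]⟩,
    ⟨[(0, 1), (0, 2), (1, 2), (2, 3)], [(1, 1), (2, 0), (2, 1)], [(1, 1)], [5, 6], [(2, 1,
      []), (3, 1, [])]⟩,
    ⟨[(2, 3)], [(0, 0), (2, 0), (3, 0), (3, 3)], [(0, 3)], [2], [(0, 0, [3]), (6, 3, [0])]⟩]
  Ta := [((0, 1), 0, 2), ((2, 1), 1, 2), ((2, 7), 1, 5), ((3, 4), 1, 0), ((3, 8), 1, 6), ((4, 3),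
    0, 1), ((4, 5), 0, 4)]
  Tb := [((1, 0, 2), 2, 0, 1), ((1, 0, 6), 2, 0, 3), ((1, 2, 6), 2, 1, 3), ((2, 1, 7), 1, 2, 5),
    ((3, 4, 8), 1, 0, 6), ((4, 3, 5), 0, 1, 4), ((5, 4, 6), 4, 0, 3), ((6, 1, 5), 3, 2, 4),
    ((7, 2, 8), 5, 1, 6), ((8, 3, 7), 6, 1, 5)]
  Tc := []
  Td := [((0, 3), (0, 1), 2), ((0, 3), (4, 3), 1), ((0, 3), (4, 5), 4), ((3, 0), (6, 1), 2), ((3,
    0), (6, 5), 4)]
  G := [[0, 0, 0x2252282888d444dce48, 0x888dcccda444d4618, 0xa44888daa9222dec82], [0, 0,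
    0x64444d222de8898c24, 0, 0xaaad222d6888d8c12], [0, 0, 0, 0xcccd2888d444dc681,
    0x144888d119222dec82], [0, 0x122111e444e11ce614, 0, 0, 0x1154888d38122dec28]]

noncomputable def n537 : Ent := ⟨e537, noF, [], [], []⟩

def c537 : PLift (Cov.check n537.C.D v537 = true) := ⟨by decide +kernel⟩

def b537 : PLift (entF (fidx ts) 400 537 n537 = true) := ⟨by decide +kernel⟩

theorem g537 : GoodF (fidx ts) 400 537 := GoodF.ofV v537 n537 c537.down b537.down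

/-- 457664:467 -/
noncomputable def e538 : SCfg where
  D := {
    a := 6
    L := 10
    kp := 7
    inn := [(0, 1), (0, 2), (1, 0), (1, 2), (1, 4), (2, 0), (2, 1), (2, 3), (2, 4), (3, 2), (3, 5), (4,
      1), (4, 2), (5, 3)]
    mix := [(0, 0), (0, 1), (1, 1), (1, 2), (2, 0), (2, 3), (2, 4), (3, 0), (3, 4), (3, 5), (3, 6), (4,
      2), (4, 3), (4, 7), (4, 8), (5, 0), (5, 6), (5, 9)]
    cl := [0, 2, 1, 1, 0, 4, 3, 5, 6, 7]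
    chq := [(0, 3), (3, 0)]
    rng := [(0, 1), (0, 9), (1, 0), (1, 2), (2, 1), (2, 7), (3, 4), (3, 8), (4, 3), (4, 5), (5, 4), (5,
      6), (6, 5), (6, 9), (7, 2), (7, 8), (8, 3), (8, 7), (9, 0), (9, 6)]
    lev := [] }
  links := [[1, 2, 6, 7], [2, 0, 7, 8, 4], [6, 0, 1, 4, 9, 10, 3], [6, 2, 10, 11, 12, 5], [9, 2, 1, 8,
    13, 14], [6, 3, 12, 15]]
  P := {
    a := 6
    N := 16
    nb := [198, 405, 1627, 7268, 25350, 36936, 32941, 323, 8338, 17428, 2572, 5128, 34856, 16656,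
      8720, 4192]
    tri := [(0, 1, 2), (0, 1, 7), (0, 2, 6), (0, 6, 7), (1, 2, 4), (1, 4, 8), (1, 7, 8), (2, 3, 6), (2,
      3, 10), (2, 4, 9), (2, 9, 10), (3, 5, 6), (3, 5, 12), (3, 10, 11), (3, 11, 12), (4, 8, 13),
      (4, 9, 14), (4, 13, 14), (5, 6, 15), (5, 12, 15)]
    fin := [0, 0, 0, 0, 4, 0, 0, 7, 4, 4, 0, 11, 12, 13, 14, 15]
    chd := [(0, 12)]
    steps := [(0, 1), (0, 2), (0, 3), (0, 5), (0, 6), (0, 10), (4, 8), (4, 9)] }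
  rep := [0, 4, 7, 12, 11, 13, 14, 15]

noncomputable def v538 : Cov.CovD where
  P := 3
  N := 5
  pl := [1, 5, 7, 8, 9]
  lev := [⟨[], [], [], [2], [(0, 0, [3])]⟩,
    ⟨[], [(0, 0), (0, 1)], [], [2], [(2, 1, [])]⟩,
    ⟨[(0, 1)], [(0, 0), (0, 1), (1, 0), (1, 1)], [(0, 0), (0, 1)], [], [(0, 0, [3]), (3, 1,
      []), (4, 0, [3])]⟩,
    ⟨[(0, 2), (1, 2)], [(0, 0), (2, 0), (2, 1), (2, 3)], [(0, 0), (0, 3)], [4], [(0, 0,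
      [3]), (4, 0, [3]), (6, 3, [0])]⟩,
    ⟨[(0, 1), (0, 2), (1, 2), (2, 3)], [(1, 1), (2, 0), (2, 1)], [(1, 1)], [5, 6], [(2, 1,
      []), (3, 1, [])]⟩,
    ⟨[(2, 3)], [(0, 0), (2, 0), (3, 0), (3, 3)], [(0, 3)], [7], [(0, 0, [3]), (6, 3, [0])]⟩]
  Ta := [((0, 1), 0, 2), ((0, 9), 0, 7), ((2, 1), 1, 2), ((2, 7), 1, 5), ((3, 4), 1, 0), ((3, 8),
    1, 6), ((4, 3), 0, 1), ((4, 5), 0, 4)]
  Tb := [((0, 1, 9), 0, 2, 7), ((1, 0, 2), 2, 0, 1), ((2, 1, 7), 1, 2, 5), ((3, 4, 8), 1, 0, 6),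
    ((4, 3, 5), 0, 1, 4), ((5, 4, 6), 4, 0, 3), ((6, 5, 9), 3, 4, 7), ((7, 2, 8), 5, 1, 6),
    ((8, 3, 7), 6, 1, 5), ((9, 0, 6), 7, 0, 3)]
  Tc := []
  Td := [((0, 3), (0, 1), 2), ((0, 3), (0, 9), 7), ((0, 3), (4, 3), 1), ((0, 3), (4, 5), 4), ((3,
    0), (6, 5), 4), ((3, 0), (6, 9), 7)]
  G := [[0, 0, 0xee5ee56e82eeede8ce48, 0xee52e82eeedeeedce84, 0xeeedeeed6eeed8c12], [0, 0,
    0xeeedeeed6ee98c2e48486, 0, 0x61eeedeeedeee8d8c12], [0, 0, 0, 0xe11d25ded9eddc618,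
    0x3755e7d391de988c12], [0, 0x144111e11a111eec18, 0, 0, 0x53ed4953d395dac12]]

noncomputable def n538 : Ent := ⟨e538, noF, [], [], [(7, 15, [360035742630636841211993100915356868655746945586763691009871873, 0])]⟩

def c538 : PLift (Cov.check n538.C.D v538 = true) := ⟨by decide +kernel⟩

def b538 : PLift (entF (fidx ts) 400 538 n538 = true) := ⟨by decide +kernel⟩

theorem g538 : GoodF (fidx ts) 400 538 := GoodF.ofV v538 n538 c538.down b538.down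

/-- 457665:470/2 -/
noncomputable def e539 : SCfg where
  D := {
    a := 6
    L := 9
    kp := 6
    inn := [(0, 1), (0, 2), (1, 0), (1, 2), (2, 0), (2, 1), (2, 3), (3, 2), (3, 4), (3, 5), (4, 3), (4,
      5), (5, 3), (5, 4)]
    mix := [(0, 0), (0, 1), (1, 1), (1, 2), (1, 3), (2, 0), (2, 3), (2, 4), (2, 5), (3, 0), (3, 5), (3,
      6), (4, 2), (4, 6), (4, 7), (4, 8), (5, 0), (5, 1), (5, 8)]
    cl := [0, 2, 3, 4, 5, 0, 1, 6, 1]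
    chq := [(0, 3), (0, 4), (3, 0), (4, 0)]
    rng := [(0, 1), (1, 0), (1, 2), (1, 8), (2, 1), (2, 3), (2, 7), (2, 8), (3, 2), (3, 4), (4, 3), (4,
      5), (5, 4), (5, 6), (6, 5), (6, 7), (7, 2), (7, 6), (8, 1), (8, 2)]
    lev := [] }
  links := [[1, 2, 6, 7], [2, 0, 7, 8, 9], [6, 0, 1, 9, 10, 11, 3], [6, 2, 11, 12, 4, 5], [5, 3, 12, 13,
    8, 14], [6, 3, 4, 14, 7]]
  P := {
    a := 6
    N := 15
    nb := [198, 901, 3659, 6260, 28968, 16600, 173, 16739, 25234, 1286, 2564, 5132, 10264, 4368, 432]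
    tri := [(0, 1, 2), (0, 1, 7), (0, 2, 6), (0, 6, 7), (1, 2, 9), (1, 7, 8), (1, 8, 9), (2, 3, 6), (2,
      3, 11), (2, 9, 10), (2, 10, 11), (3, 4, 5), (3, 4, 12), (3, 5, 6), (3, 11, 12), (4, 5, 14),
      (4, 8, 13), (4, 8, 14), (4, 12, 13), (5, 6, 7), (5, 7, 14)]
    fin := [0, 0, 0, 0, 4, 0, 0, 7, 8, 9, 10, 0, 4, 13, 4]
    chd := [(0, 8), (0, 9)]
    steps := [(0, 1), (0, 2), (0, 3), (0, 6), (0, 5), (0, 11), (4, 12), (4, 14)] }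
  rep := [0, 4, 7, 8, 9, 10, 13]

noncomputable def v539 : Cov.CovD where
  P := 3
  N := 4
  pl := [1, 4, 7]
  lev := [⟨[], [], [], [2], [(0, 0, [3, 4])]⟩,
    ⟨[], [(0, 0), (0, 3), (0, 4)], [(3, 4)], [2], [(2, 3, [0]), (3, 4, [0])]⟩,
    ⟨[(0, 1)], [(0, 0), (0, 4), (1, 0), (1, 3), (1, 4)], [(0, 0), (0, 4)], [5], [(0, 0, [3,
      4]), (3, 4, [0]), (5, 0, [3, 4])]⟩,
    ⟨[(0, 2), (1, 2)], [(0, 0), (2, 0), (2, 1), (2, 4)], [(0, 0), (0, 1)], [], [(0, 0, [3,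
      4]), (5, 0, [3, 4]), (6, 1, [])]⟩,
    ⟨[(2, 3)], [(1, 3), (3, 0), (3, 1), (3, 3)], [(1, 1), (1, 3)], [6], [(2, 3, [0]), (6,
      1, []), (8, 1, [])]⟩,
    ⟨[(2, 3), (3, 4)], [(0, 0), (2, 0), (3, 0), (3, 1), (4, 0), (4, 1), (4, 3)], [(0, 1)],
      [2], [(0, 0, [3, 4]), (8, 1, [])]⟩]
  Ta := [((0, 1), 0, 2), ((5, 4), 0, 5), ((5, 6), 0, 1), ((6, 5), 1, 0), ((6, 7), 1, 6), ((8, 1),
    1, 2), ((8, 2), 1, 3)]
  Tb := [((1, 0, 2), 2, 0, 3), ((1, 0, 8), 2, 0, 1), ((1, 2, 8), 2, 3, 1), ((2, 1, 3), 3, 2, 4),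
    ((2, 1, 7), 3, 2, 6), ((2, 1, 8), 3, 2, 1), ((2, 3, 7), 3, 4, 6), ((2, 3, 8), 3, 4, 1),
    ((2, 7, 8), 3, 6, 1), ((3, 2, 4), 4, 3, 5), ((4, 3, 5), 5, 4, 0), ((5, 4, 6), 0, 5, 1),
    ((6, 5, 7), 1, 0, 6), ((7, 2, 6), 6, 3, 1), ((8, 1, 2), 1, 2, 3)]
  Tc := [(0, 3, 4)]
  Td := [((0, 3), (0, 1), 2), ((0, 3), (5, 4), 5), ((0, 3), (5, 6), 1), ((0, 4), (0, 1), 2), ((0,
    4), (5, 4), 5), ((0, 4), (5, 6), 1), ((3, 0), (2, 1), 2), ((3, 0), (2, 3), 4), ((3, 0),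
    (2, 7), 6), ((3, 0), (2, 8), 1), ((4, 0), (3, 2), 3), ((4, 0), (3, 4), 5)]
  G := [[0, 0, 0x88544458c448944298c42582898422d4eac, 0, 0x888d42828d4228d8c38], [0, 0,
    0x8852885244c8e884d426489448984498e84548894caa, 0x884d2888d2448d8e14,
    0x888d2888d2888d4e18], [0, 0x484e4448e8448e8e14, 0, 0, 0x128d42212d4112d8c38], [0, 0, 0,
    0x884d2448d8118d4e14, 0x118d4118d2818d4e18]]

noncomputable def n539 : Ent := ⟨e539, noF, [], [], []⟩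

def c539 : PLift (Cov.check n539.C.D v539 = true) := ⟨by decide +kernel⟩

def b539 : PLift (entF (fidx ts) 400 539 n539 = true) := ⟨by decide +kernel⟩

theorem g539 : GoodF (fidx ts) 400 539 := GoodF.ofV v539 n539 c539.down b539.down

/-- 457665:470/3 -/
noncomputable def e540 : SCfg where
  D := {
    a := 6
    L := 9
    kp := 6
    inn := [(0, 1), (0, 2), (1, 0), (1, 2), (2, 0), (2, 1), (2, 3), (3, 2), (3, 4), (3, 5), (4, 3), (4,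
      5), (5, 3), (5, 4)]
    mix := [(0, 0), (0, 1), (1, 1), (1, 2), (1, 3), (2, 0), (2, 3), (2, 4), (2, 5), (3, 0), (3, 5), (3,
      6), (4, 2), (4, 6), (4, 7), (4, 8), (5, 0), (5, 1), (5, 2)]
    cl := [0, 2, 1, 3, 4, 0, 1, 5, 6]
    chq := [(0, 3), (2, 3), (3, 0), (3, 2)]
    rng := [(0, 1), (1, 0), (1, 2), (2, 1), (2, 3), (2, 8), (3, 2), (3, 4), (4, 3), (4, 5), (5, 4), (5,
      6), (6, 5), (6, 7), (7, 6), (7, 8), (8, 2), (8, 7)]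
    lev := [] }
  links := [[1, 2, 6, 7], [2, 0, 7, 8, 9], [6, 0, 1, 9, 10, 11, 3], [6, 2, 11, 12, 4, 5], [5, 3, 12, 13,
    14, 8], [6, 3, 4, 8, 7]]
  P := {
    a := 6
    N := 15
    nb := [198, 901, 3659, 6260, 28968, 472, 173, 355, 17074, 1286, 2564, 5132, 10264, 20496, 8464]
    tri := [(0, 1, 2), (0, 1, 7), (0, 2, 6), (0, 6, 7), (1, 2, 9), (1, 7, 8), (1, 8, 9), (2, 3, 6), (2,
      3, 11), (2, 9, 10), (2, 10, 11), (3, 4, 5), (3, 4, 12), (3, 5, 6), (3, 11, 12), (4, 5, 8),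
      (4, 8, 14), (4, 12, 13), (4, 13, 14), (5, 6, 7), (5, 7, 8)]
    fin := [0, 1, 0, 0, 4, 0, 0, 1, 4, 9, 10, 0, 4, 13, 14]
    chd := [(0, 9), (1, 9)]
    steps := [(0, 2), (0, 3), (0, 6), (0, 5), (0, 11), (1, 7), (4, 8), (4, 12)] }
  rep := [0, 4, 1, 9, 10, 13, 14]

noncomputable def v540 : Cov.CovD where
  P := 3
  N := 4
  pl := [4, 7, 8]
  lev := [⟨[], [], [(0, 2)], [], [(0, 0, [3]), (1, 2, [3])]⟩,
    ⟨[], [(0, 0), (0, 1), (0, 2), (0, 3)], [(1, 2), (1, 3), (2, 3)], [], [(1, 2, [3]), (2,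
      1, []), (3, 3, [0, 2])]⟩,
    ⟨[(0, 1)], [(0, 0), (0, 2), (0, 3), (1, 0), (1, 1), (1, 2), (1, 3)], [(0, 0), (0, 3)],
      [4], [(0, 0, [3]), (3, 3, [0, 2]), (5, 0, [3])]⟩,
    ⟨[(0, 2), (1, 2)], [(0, 0), (2, 0), (2, 1), (2, 3)], [(0, 0), (0, 1)], [], [(0, 0,
      [3]), (5, 0, [3]), (6, 1, [])]⟩,
    ⟨[(2, 3)], [(1, 1), (3, 0), (3, 1)], [(1, 1)], [5, 6], [(2, 1, []), (6, 1, [])]⟩,
    ⟨[(2, 3), (3, 4)], [(0, 0), (0, 2), (1, 1), (1, 2), (2, 0), (3, 0), (3, 1), (3, 2), (4,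
      0), (4, 1), (4, 2)], [(0, 1), (0, 2), (1, 2)], [], [(0, 0, [3]), (1, 2, [3]), (2, 1,
      [])]⟩]
  Ta := [((0, 1), 0, 2), ((2, 1), 1, 2), ((2, 3), 1, 3), ((2, 8), 1, 6), ((5, 4), 0, 4), ((5, 6),
    0, 1), ((6, 5), 1, 0), ((6, 7), 1, 5)]
  Tb := [((1, 0, 2), 2, 0, 1), ((2, 1, 3), 1, 2, 3), ((2, 1, 8), 1, 2, 6), ((2, 3, 8), 1, 3, 6),
    ((3, 2, 4), 3, 1, 4), ((4, 3, 5), 4, 3, 0), ((5, 4, 6), 0, 4, 1), ((6, 5, 7), 1, 0, 5),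
    ((7, 6, 8), 5, 1, 6), ((8, 2, 7), 6, 1, 5)]
  Tc := [(3, 0, 2)]
  Td := [((0, 3), (0, 1), 2), ((0, 3), (5, 4), 4), ((0, 3), (5, 6), 1), ((2, 3), (1, 0), 0), ((2,
    3), (1, 2), 1), ((3, 0), (3, 2), 1), ((3, 0), (3, 4), 4), ((3, 2), (3, 2), 1), ((3, 2),
    (3, 4), 4)]
  G := [[0, 0, 0x444d2488d864484d2444d8a8c, 0x844d2488d2448d8e14, 0x888d4888d2888d4e18], [0, 0,
    0x882d4422d4a482d8222d86c2, 0, 0x288d8288d8612], [0, 0, 0, 0x118d4818d2114d8e14,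
    0x118d2118d8888d4e12], [0, 0x448e2448e8448e8e14, 0, 0, 0x228d8222d4618]]

noncomputable def n540 : Ent := ⟨e540, noF, [], [], []⟩

def c540 : PLift (Cov.check n540.C.D v540 = true) := ⟨by decide +kernel⟩

def b540 : PLift (entF (fidx ts) 400 540 n540 = true) := ⟨by decide +kernel⟩

theorem g540 : GoodF (fidx ts) 400 540 := GoodF.ofV v540 n540 c540.down b540.down

/-- 457665:470/1 -/
noncomputable def e541 : SCfg where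
  D := {
    a := 6
    L := 10
    kp := 7
    inn := [(0, 1), (0, 2), (1, 0), (1, 2), (2, 0), (2, 1), (2, 3), (3, 2), (3, 4), (3, 5), (4, 3), (4,
      5), (5, 3), (5, 4)]
    mix := [(0, 0), (0, 1), (1, 1), (1, 2), (1, 3), (2, 0), (2, 3), (2, 4), (2, 5), (3, 0), (3, 5), (3,
      6), (4, 6), (4, 7), (4, 8), (4, 9), (5, 0), (5, 1), (5, 9)]
    cl := [0, 2, 4, 3, 5, 0, 1, 6, 7, 1]
    chq := [(0, 3), (0, 4), (3, 0), (4, 0)]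
    rng := [(0, 1), (1, 0), (1, 2), (1, 9), (2, 1), (2, 3), (3, 2), (3, 4), (4, 3), (4, 5), (5, 4), (5,
      6), (6, 5), (6, 7), (7, 6), (7, 8), (8, 7), (8, 9), (9, 1), (9, 8)]
    lev := [] }
  links := [[1, 2, 6, 7], [2, 0, 7, 8, 9], [6, 0, 1, 9, 10, 11, 3], [6, 2, 11, 12, 4, 5], [5, 3, 12, 13,
    14, 15], [6, 3, 4, 15, 7]]
  P := {
    a := 6
    N := 16
    nb := [198, 901, 3659, 6260, 61480, 32984, 173, 33123, 642, 1286, 2564, 5132, 10264, 20496, 40976,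
      16560]
    tri := [(0, 1, 2), (0, 1, 7), (0, 2, 6), (0, 6, 7), (1, 2, 9), (1, 7, 8), (1, 8, 9), (2, 3, 6), (2,
      3, 11), (2, 9, 10), (2, 10, 11), (3, 4, 5), (3, 4, 12), (3, 5, 6), (3, 11, 12), (4, 5, 15),
      (4, 12, 13), (4, 13, 14), (4, 14, 15), (5, 6, 7), (5, 7, 15)]
    fin := [0, 0, 0, 0, 4, 0, 0, 7, 8, 9, 10, 0, 4, 13, 14, 4]
    chd := [(0, 8), (0, 9)]
    steps := [(0, 1), (0, 2), (0, 3), (0, 6), (0, 5), (0, 11), (4, 12), (4, 15)] }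
  rep := [0, 4, 7, 9, 8, 10, 13, 14]

noncomputable def v541 : Cov.CovD where
  P := 3
  N := 5
  pl := [1, 4, 7, 8]
  lev := [⟨[], [], [], [2], [(0, 0, [3, 4])]⟩,
    ⟨[], [(0, 0), (0, 3), (0, 4)], [(3, 4)], [2], [(2, 4, [0]), (3, 3, [0])]⟩,
    ⟨[(0, 1)], [(0, 0), (0, 3), (1, 0), (1, 3), (1, 4)], [(0, 0), (0, 3)], [5], [(0, 0, [3,
      4]), (3, 3, [0]), (5, 0, [3, 4])]⟩,
    ⟨[(0, 2), (1, 2)], [(0, 0), (2, 0), (2, 1), (2, 3)], [(0, 0), (0, 1)], [], [(0, 0, [3,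
      4]), (5, 0, [3, 4]), (6, 1, [])]⟩,
    ⟨[(2, 3)], [(3, 0), (3, 1)], [(1, 1)], [6, 7], [(6, 1, []), (9, 1, [])]⟩,
    ⟨[(2, 3), (3, 4)], [(0, 0), (2, 0), (3, 0), (3, 1), (4, 0), (4, 1)], [(0, 1)], [2],
      [(0, 0, [3, 4]), (9, 1, [])]⟩]
  Ta := [((0, 1), 0, 2), ((5, 4), 0, 5), ((5, 6), 0, 1), ((6, 5), 1, 0), ((6, 7), 1, 6), ((9, 1),
    1, 2), ((9, 8), 1, 7)]
  Tb := [((1, 0, 2), 2, 0, 4), ((1, 0, 9), 2, 0, 1), ((1, 2, 9), 2, 4, 1), ((2, 1, 3), 4, 2, 3),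
    ((3, 2, 4), 3, 4, 5), ((4, 3, 5), 5, 3, 0), ((5, 4, 6), 0, 5, 1), ((6, 5, 7), 1, 0, 6),
    ((7, 6, 8), 6, 1, 7), ((8, 7, 9), 7, 6, 1), ((9, 1, 8), 1, 2, 7)]
  Tc := [(0, 3, 4)]
  Td := [((0, 3), (0, 1), 2), ((0, 3), (5, 4), 5), ((0, 3), (5, 6), 1), ((0, 4), (0, 1), 2), ((0,
    4), (5, 4), 5), ((0, 4), (5, 6), 1), ((3, 0), (3, 2), 4), ((3, 0), (3, 4), 5), ((4, 0),
    (2, 1), 2), ((4, 0), (2, 3), 3)]
  G := [[0, 0, 0x224d4224d8488d4e882d4484d8444d8e6424d4288d8442d8e8c, 0, 0x282d4228d8888d4e12],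
    [0, 0, 0x888d2488d2484d4e488d4448d8444d8e6888d2444d8884d4e8a, 0x484d2444d8444d8e18,
    0x888d4888d2888d4e12], [0, 0x888e4488e8484e4e18, 0, 0, 0x118d4282d8118d4e18], [0, 0, 0,
    0x848d2814d2818d4e18, 0x188d4188d8188d4e18]]

noncomputable def n541 : Ent := ⟨e541, noF, [], [], [(8, 14, [385746751338780685620664494392815470296102193487288376374702081, 0]), (8, 15, [360035742630636841211993100915356868655746945586763691009884161, 0])]⟩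

def c541 : PLift (Cov.check n541.C.D v541 = true) := ⟨by decide +kernel⟩

def b541 : PLift (entF (fidx ts) 400 541 n541 = true) := ⟨by decide +kernel⟩

theorem g541 : GoodF (fidx ts) 400 541 := GoodF.ofV v541 n541 c541.down b541.down

/-- 457665:470/4 -/
noncomputable def e542 : SCfg where
  D := {
    a := 6
    L := 10
    kp := 7
    inn := [(0, 1), (0, 2), (1, 0), (1, 2), (2, 0), (2, 1), (2, 3), (3, 2), (3, 4), (3, 5), (4, 3), (4,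
      5), (5, 3), (5, 4)]
    mix := [(0, 0), (0, 1), (1, 1), (1, 2), (1, 3), (2, 0), (2, 3), (2, 4), (2, 5), (3, 0), (3, 5), (3,
      6), (4, 2), (4, 6), (4, 7), (4, 8), (5, 0), (5, 8), (5, 9)]
    cl := [0, 2, 3, 4, 5, 0, 1, 6, 1, 7]
    chq := [(0, 3), (0, 4), (3, 0), (4, 0)]
    rng := [(0, 1), (0, 9), (1, 0), (1, 2), (2, 1), (2, 3), (2, 6), (2, 7), (3, 2), (3, 4), (4, 3), (4,
      5), (5, 4), (5, 6), (6, 2), (6, 5), (7, 2), (7, 8), (8, 7), (8, 9), (9, 0), (9, 8)]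
    lev := [] }
  links := [[1, 2, 6, 7], [2, 0, 7, 8, 9], [6, 0, 1, 9, 10, 11, 3], [6, 2, 11, 12, 4, 5], [5, 3, 12, 8,
    13, 14], [6, 3, 4, 14, 15]]
  P := {
    a := 6
    N := 16
    nb := [198, 901, 3659, 6260, 28968, 49240, 32941, 323, 12946, 1286, 2564, 5132, 2328, 16656,
      41008, 16480]
    tri := [(0, 1, 2), (0, 1, 7), (0, 2, 6), (0, 6, 7), (1, 2, 9), (1, 7, 8), (1, 8, 9), (2, 3, 6), (2,
      3, 11), (2, 9, 10), (2, 10, 11), (3, 4, 5), (3, 4, 12), (3, 5, 6), (3, 11, 12), (4, 5, 14),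
      (4, 8, 12), (4, 8, 13), (4, 13, 14), (5, 6, 15), (5, 14, 15)]
    fin := [0, 0, 0, 3, 4, 3, 0, 7, 4, 9, 10, 0, 3, 13, 3, 15]
    chd := [(0, 4), (0, 9)]
    steps := [(0, 1), (0, 2), (0, 6), (0, 11), (3, 5), (3, 12), (3, 14), (4, 8)] }
  rep := [0, 3, 7, 4, 9, 10, 13, 15]

noncomputable def v542 : Cov.CovD where
  P := 3
  N := 5
  pl := [1, 4, 7, 9]
  lev := [⟨[], [], [], [2], [(0, 0, [3, 4])]⟩,
    ⟨[], [(0, 0), (0, 3), (0, 4)], [(3, 4)], [2], [(2, 3, [0]), (3, 4, [0])]⟩,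
    ⟨[(0, 1)], [(0, 0), (0, 4), (1, 0), (1, 3), (1, 4)], [(0, 0), (0, 4)], [5], [(0, 0, [3,
      4]), (3, 4, [0]), (5, 0, [3, 4])]⟩,
    ⟨[(0, 2), (1, 2)], [(0, 0), (2, 0), (2, 1), (2, 4)], [(0, 0), (0, 1)], [], [(0, 0, [3,
      4]), (5, 0, [3, 4]), (6, 1, [])]⟩,
    ⟨[(2, 3)], [(1, 3), (3, 0), (3, 1), (3, 3)], [(1, 1), (1, 3)], [6], [(2, 3, [0]), (6,
      1, []), (8, 1, [])]⟩,
    ⟨[(2, 3), (3, 4)], [(0, 0), (2, 0), (3, 0), (3, 1), (4, 0), (4, 1), (4, 3)], [(0, 1)],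
      [7], [(0, 0, [3, 4]), (8, 1, [])]⟩]
  Ta := [((0, 1), 0, 2), ((0, 9), 0, 7), ((5, 4), 0, 5), ((5, 6), 0, 1), ((6, 2), 1, 3), ((6, 5),
    1, 0), ((8, 7), 1, 6), ((8, 9), 1, 7)]
  Tb := [((0, 1, 9), 0, 2, 7), ((1, 0, 2), 2, 0, 3), ((2, 1, 3), 3, 2, 4), ((2, 1, 6), 3, 2, 1),
    ((2, 1, 7), 3, 2, 6), ((2, 3, 6), 3, 4, 1), ((2, 3, 7), 3, 4, 6), ((2, 6, 7), 3, 1, 6),
    ((3, 2, 4), 4, 3, 5), ((4, 3, 5), 5, 4, 0), ((5, 4, 6), 0, 5, 1), ((6, 2, 5), 1, 3, 0),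
    ((7, 2, 8), 6, 3, 1), ((8, 7, 9), 1, 6, 7), ((9, 0, 8), 7, 0, 1)]
  Tc := [(0, 3, 4)]
  Td := [((0, 3), (0, 1), 2), ((0, 3), (0, 9), 7), ((0, 3), (5, 4), 5), ((0, 3), (5, 6), 1), ((0,
    4), (0, 1), 2), ((0, 4), (0, 9), 7), ((0, 4), (5, 4), 5), ((0, 4), (5, 6), 1), ((3, 0),
    (2, 1), 2), ((3, 0), (2, 3), 4), ((3, 0), (2, 6), 1), ((3, 0), (2, 7), 6), ((4, 0), (3,
    2), 3), ((4, 0), (3, 4), 5)]
  G := [[0, 0, 0x225422582254e4229422982298e22582298222d4eac, 0x222d4222d8222d8e14,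
    0x222d4222d8222d4e12], [0, 0, 0xcc52cc9244c8cdce2cc924c988cccc52cc58cc6,
    0xcccd2cccd24ccd88ce14, 0xcc5c8c2c8cd446cccd2c38], [0, 0xca6e466ce86cae8e14, 0,
    0x22528c112d8112d8e14, 0x112d4112d8112d8e18], [0, 0, 0, 0x11cd411cd211cd4e18,
    0x11cd8211cd411cd2c38]]

noncomputable def n542 : Ent := ⟨e542, noF, [], [], []⟩

def c542 : PLift (Cov.check n542.C.D v542 = true) := ⟨by decide +kernel⟩

def b542 : PLift (entF (fidx ts) 400 542 n542 = true) := ⟨by decide +kernel⟩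

theorem g542 : GoodF (fidx ts) 400 542 := GoodF.ofV v542 n542 c542.down b542.down

/-- 457665:470/5 -/
noncomputable def e543 : SCfg where
  D := {
    a := 6
    L := 10
    kp := 7
    inn := [(0, 1), (0, 2), (1, 0), (1, 2), (2, 0), (2, 1), (2, 3), (3, 2), (3, 4), (3, 5), (4, 3), (4,
      5), (5, 3), (5, 4)]
    mix := [(0, 0), (0, 1), (1, 1), (1, 2), (1, 3), (2, 0), (2, 3), (2, 4), (2, 5), (3, 0), (3, 5), (3,
      6), (4, 2), (4, 6), (4, 7), (4, 8), (5, 0), (5, 8), (5, 9)]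
    cl := [0, 2, 3, 4, 5, 0, 1, 6, 1, 7]
    chq := [(0, 3), (0, 4), (3, 0), (4, 0)]
    rng := [(0, 1), (0, 9), (1, 0), (1, 2), (2, 1), (2, 3), (2, 7), (2, 8), (3, 2), (3, 4), (4, 3), (4,
      5), (5, 4), (5, 6), (6, 5), (6, 7), (7, 2), (7, 6), (8, 2), (8, 9), (9, 0), (9, 8)]
    lev := [] }
  links := [[1, 2, 6, 7], [2, 0, 7, 8, 9], [6, 0, 1, 9, 10, 11, 3], [6, 2, 11, 12, 4, 5], [5, 3, 12, 13,
    8, 14], [6, 3, 4, 14, 15]]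
  P := {
    a := 6
    N := 16
    nb := [198, 901, 3659, 6260, 28968, 49240, 32941, 323, 25234, 1286, 2564, 5132, 10264, 4368,
      33072, 16480]
    tri := [(0, 1, 2), (0, 1, 7), (0, 2, 6), (0, 6, 7), (1, 2, 9), (1, 7, 8), (1, 8, 9), (2, 3, 6), (2,
      3, 11), (2, 9, 10), (2, 10, 11), (3, 4, 5), (3, 4, 12), (3, 5, 6), (3, 11, 12), (4, 5, 14),
      (4, 8, 13), (4, 8, 14), (4, 12, 13), (5, 6, 15), (5, 14, 15)]
    fin := [0, 0, 0, 3, 4, 3, 0, 7, 4, 9, 10, 0, 3, 13, 3, 15]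
    chd := [(0, 4), (0, 9)]
    steps := [(0, 1), (0, 2), (0, 6), (0, 11), (3, 5), (3, 12), (3, 14), (4, 8)] }
  rep := [0, 3, 7, 4, 9, 10, 13, 15]

noncomputable def v543 : Cov.CovD where
  P := 3
  N := 5
  pl := [1, 4, 7, 9]
  lev := [⟨[], [], [], [2], [(0, 0, [3, 4])]⟩,
    ⟨[], [(0, 0), (0, 3), (0, 4)], [(3, 4)], [2], [(2, 3, [0]), (3, 4, [0])]⟩,
    ⟨[(0, 1)], [(0, 0), (0, 4), (1, 0), (1, 3), (1, 4)], [(0, 0), (0, 4)], [5], [(0, 0, [3,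
      4]), (3, 4, [0]), (5, 0, [3, 4])]⟩,
    ⟨[(0, 2), (1, 2)], [(0, 0), (2, 0), (2, 1), (2, 4)], [(0, 0), (0, 1)], [], [(0, 0, [3,
      4]), (5, 0, [3, 4]), (6, 1, [])]⟩,
    ⟨[(2, 3)], [(1, 3), (3, 0), (3, 1), (3, 3)], [(1, 1), (1, 3)], [6], [(2, 3, [0]), (6,
      1, []), (8, 1, [])]⟩,
    ⟨[(2, 3), (3, 4)], [(0, 0), (2, 0), (3, 0), (3, 1), (4, 0), (4, 1), (4, 3)], [(0, 1)],
      [7], [(0, 0, [3, 4]), (8, 1, [])]⟩]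
  Ta := [((0, 1), 0, 2), ((0, 9), 0, 7), ((5, 4), 0, 5), ((5, 6), 0, 1), ((6, 5), 1, 0), ((6, 7),
    1, 6), ((8, 2), 1, 3), ((8, 9), 1, 7)]
  Tb := [((0, 1, 9), 0, 2, 7), ((1, 0, 2), 2, 0, 3), ((2, 1, 3), 3, 2, 4), ((2, 1, 7), 3, 2, 6),
    ((2, 1, 8), 3, 2, 1), ((2, 3, 7), 3, 4, 6), ((2, 3, 8), 3, 4, 1), ((2, 7, 8), 3, 6, 1),
    ((3, 2, 4), 4, 3, 5), ((4, 3, 5), 5, 4, 0), ((5, 4, 6), 0, 5, 1), ((6, 5, 7), 1, 0, 6),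
    ((7, 2, 6), 6, 3, 1), ((8, 2, 9), 1, 3, 7), ((9, 0, 8), 7, 0, 1)]
  Tc := [(0, 3, 4)]
  Td := [((0, 3), (0, 1), 2), ((0, 3), (0, 9), 7), ((0, 3), (5, 4), 5), ((0, 3), (5, 6), 1), ((0,
    4), (0, 1), 2), ((0, 4), (0, 9), 7), ((0, 4), (5, 4), 5), ((0, 4), (5, 6), 1), ((3, 0),
    (2, 1), 2), ((3, 0), (2, 3), 4), ((3, 0), (2, 7), 6), ((3, 0), (2, 8), 1), ((4, 0), (3,
    2), 3), ((4, 0), (3, 4), 5)]
  G := [[0, 0, 0x22542258c422942298c22582298222d4eac, 0x222d4222d8222d8e14,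
    0x222d424229c222d4e18], [0, 0, 0xcc52cc52cc58e4cc94488c9a48cd4ecc52cc9244c88cdceac,
    0x445c88dacccd2cc5c8ce14, 0xcccd24ccd88c44c8cdce18], [0, 0x6cce26ace2aace4e18, 0,
    0x222d4112d8122d4e18, 0x122d82222d4212d8c38], [0, 0, 0, 0x11cd411cd211cd8e14,
    0x11cd211cd811cd4e12]]

noncomputable def n543 : Ent := ⟨e543, noF, [], [], [(7, 15, [360035742630636841211993100915356868655746945586763691009880065, 0])]⟩

def c543 : PLift (Cov.check n543.C.D v543 = true) := ⟨by decide +kernel⟩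

def b543 : PLift (entF (fidx ts) 400 543 n543 = true) := ⟨by decide +kernel⟩

theorem g543 : GoodF (fidx ts) 400 543 := GoodF.ofV v543 n543 c543.down b543.down

/-- 457665:470/6 -/
noncomputable def e544 : SCfg where
  D := {
    a := 6
    L := 10
    kp := 7
    inn := [(0, 1), (0, 2), (1, 0), (1, 2), (2, 0), (2, 1), (2, 3), (3, 2), (3, 4), (3, 5), (4, 3), (4,
      5), (5, 3), (5, 4)]
    mix := [(0, 0), (0, 1), (1, 1), (1, 2), (1, 3), (2, 0), (2, 3), (2, 4), (2, 5), (3, 0), (3, 5), (3,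
      6), (4, 2), (4, 6), (4, 7), (4, 8), (5, 0), (5, 2), (5, 9)]
    cl := [0, 2, 1, 3, 4, 0, 1, 5, 6, 7]
    chq := [(0, 3), (2, 3), (3, 0), (3, 2)]
    rng := [(0, 1), (0, 9), (1, 0), (1, 2), (2, 1), (2, 3), (2, 8), (2, 9), (3, 2), (3, 4), (4, 3), (4,
      5), (5, 4), (5, 6), (6, 5), (6, 7), (7, 6), (7, 8), (8, 2), (8, 7), (9, 0), (9, 2)]
    lev := [] }
  links := [[1, 2, 6, 7], [2, 0, 7, 8, 9], [6, 0, 1, 9, 10, 11, 3], [6, 2, 11, 12, 4, 5], [5, 3, 12, 13,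
    14, 8], [6, 3, 4, 8, 15]]
  P := {
    a := 6
    N := 16
    nb := [198, 901, 3659, 6260, 28968, 33112, 32941, 323, 49842, 1286, 2564, 5132, 10264, 20496,
      8464, 352]
    tri := [(0, 1, 2), (0, 1, 7), (0, 2, 6), (0, 6, 7), (1, 2, 9), (1, 7, 8), (1, 8, 9), (2, 3, 6), (2,
      3, 11), (2, 9, 10), (2, 10, 11), (3, 4, 5), (3, 4, 12), (3, 5, 6), (3, 11, 12), (4, 5, 8),
      (4, 8, 14), (4, 12, 13), (4, 13, 14), (5, 6, 15), (5, 8, 15)]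
    fin := [0, 1, 0, 0, 4, 0, 0, 1, 4, 9, 10, 0, 4, 13, 14, 15]
    chd := [(0, 9), (1, 9)]
    steps := [(0, 2), (0, 3), (0, 5), (0, 6), (0, 11), (1, 7), (4, 8), (4, 12)] }
  rep := [0, 4, 1, 9, 10, 13, 14, 15]

noncomputable def v544 : Cov.CovD where
  P := 3
  N := 5
  pl := [4, 7, 8, 9]
  lev := [⟨[], [], [(0, 2)], [], [(0, 0, [3]), (1, 2, [3])]⟩,
    ⟨[], [(0, 0), (0, 1), (0, 2), (0, 3)], [(1, 2), (1, 3), (2, 3)], [], [(1, 2, [3]), (2,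
      1, []), (3, 3, [0, 2])]⟩,
    ⟨[(0, 1)], [(0, 0), (0, 2), (0, 3), (1, 0), (1, 1), (1, 2), (1, 3)], [(0, 0), (0, 3)],
      [4], [(0, 0, [3]), (3, 3, [0, 2]), (5, 0, [3])]⟩,
    ⟨[(0, 2), (1, 2)], [(0, 0), (2, 0), (2, 1), (2, 3)], [(0, 0), (0, 1)], [], [(0, 0,
      [3]), (5, 0, [3]), (6, 1, [])]⟩,
    ⟨[(2, 3)], [(1, 1), (3, 0), (3, 1)], [(1, 1)], [5, 6], [(2, 1, []), (6, 1, [])]⟩,
    ⟨[(2, 3), (3, 4)], [(0, 0), (1, 1), (2, 0), (3, 0), (3, 1), (4, 0), (4, 1)], [(0, 1)],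
      [7], [(0, 0, [3]), (2, 1, [])]⟩]
  Ta := [((0, 1), 0, 2), ((0, 9), 0, 7), ((2, 1), 1, 2), ((2, 3), 1, 3), ((2, 8), 1, 6), ((2, 9),
    1, 7), ((5, 4), 0, 4), ((5, 6), 0, 1), ((6, 5), 1, 0), ((6, 7), 1, 5)]
  Tb := [((0, 1, 9), 0, 2, 7), ((1, 0, 2), 2, 0, 1), ((2, 1, 3), 1, 2, 3), ((2, 1, 8), 1, 2, 6),
    ((2, 1, 9), 1, 2, 7), ((2, 3, 8), 1, 3, 6), ((2, 3, 9), 1, 3, 7), ((2, 8, 9), 1, 6, 7),
    ((3, 2, 4), 3, 1, 4), ((4, 3, 5), 4, 3, 0), ((5, 4, 6), 0, 4, 1), ((6, 5, 7), 1, 0, 5),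
    ((7, 6, 8), 5, 1, 6), ((8, 2, 7), 6, 1, 5), ((9, 0, 2), 7, 0, 1)]
  Tc := [(3, 0, 2)]
  Td := [((0, 3), (0, 1), 2), ((0, 3), (0, 9), 7), ((0, 3), (5, 4), 4), ((0, 3), (5, 6), 1), ((2,
    3), (1, 0), 0), ((2, 3), (1, 2), 1), ((3, 0), (3, 2), 1), ((3, 0), (3, 4), 4), ((3, 2),
    (3, 2), 1), ((3, 2), (3, 4), 4)]
  G := [[0, 0, 0xcccd24ccd88c64cccd2c4cc9ca8c, 0xcc9c46cccd2c4cc9ce18, 0xcccd2cccd244c8cdce18],
    [0, 0, 0x222d4222d4a222d8222d86c2, 0, 0x222d8222d4618], [0, 0, 0, 0x11cd211cd811cd8e18,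
    0x11cd211cd811cd8e12], [0, 0xcace26cce86a6e8e18, 0, 0, 0x212d8112d8612]]

noncomputable def n544 : Ent := ⟨e544, noF, [], [], [(7, 15, [360035742630636841211993100915356868655746945586763691009884161, 0])]⟩

def c544 : PLift (Cov.check n544.C.D v544 = true) := ⟨by decide +kernel⟩

def b544 : PLift (entF (fidx ts) 400 544 n544 = true) := ⟨by decide +kernel⟩

theorem g544 : GoodF (fidx ts) 400 544 := GoodF.ofV v544 n544 c544.down b544.down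

/-- 457665:470 -/
noncomputable def e545 : SCfg where
  D := {
    a := 6
    L := 11
    kp := 8
    inn := [(0, 1), (0, 2), (1, 0), (1, 2), (2, 0), (2, 1), (2, 3), (3, 2), (3, 4), (3, 5), (4, 3), (4,
      5), (5, 3), (5, 4)]
    mix := [(0, 0), (0, 1), (1, 1), (1, 2), (1, 3), (2, 0), (2, 3), (2, 4), (2, 5), (3, 0), (3, 5), (3,
      6), (4, 6), (4, 7), (4, 8), (4, 9), (5, 0), (5, 9), (5, 10)]
    cl := [0, 2, 4, 3, 5, 0, 1, 6, 7, 1, 8]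
    chq := [(0, 3), (0, 4), (3, 0), (4, 0)]
    rng := [(0, 1), (0, 10), (1, 0), (1, 2), (2, 1), (2, 3), (3, 2), (3, 4), (4, 3), (4, 5), (5, 4),
      (5, 6), (6, 5), (6, 7), (7, 6), (7, 8), (8, 7), (8, 9), (9, 8), (9, 10), (10, 0), (10, 9)]
    lev := [] }
  links := [[1, 2, 6, 7], [2, 0, 7, 8, 9], [6, 0, 1, 9, 10, 11, 3], [6, 2, 11, 12, 4, 5], [5, 3, 12, 13,
    14, 15], [6, 3, 4, 15, 16]]
  P := {
    a := 6
    N := 17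
    nb := [198, 901, 3659, 6260, 61480, 98392, 65709, 323, 642, 1286, 2564, 5132, 10264, 20496, 40976,
      81968, 32864]
    tri := [(0, 1, 2), (0, 1, 7), (0, 2, 6), (0, 6, 7), (1, 2, 9), (1, 7, 8), (1, 8, 9), (2, 3, 6), (2,
      3, 11), (2, 9, 10), (2, 10, 11), (3, 4, 5), (3, 4, 12), (3, 5, 6), (3, 11, 12), (4, 5, 15),
      (4, 12, 13), (4, 13, 14), (4, 14, 15), (5, 6, 16), (5, 15, 16)]
    fin := [0, 0, 0, 0, 4, 0, 0, 7, 8, 9, 10, 0, 4, 13, 14, 4, 16]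
    chd := [(0, 8), (0, 9)]
    steps := [(0, 1), (0, 2), (0, 3), (0, 5), (0, 6), (0, 11), (4, 12), (4, 15)] }
  rep := [0, 4, 7, 9, 8, 10, 13, 14, 16]

noncomputable def v545 : Cov.CovD where
  P := 3
  N := 6
  pl := [1, 4, 7, 8, 10]
  lev := [⟨[], [], [], [2], [(0, 0, [3, 4])]⟩,
    ⟨[], [(0, 0), (0, 3), (0, 4)], [(3, 4)], [2], [(2, 4, [0]), (3, 3, [0])]⟩,
    ⟨[(0, 1)], [(0, 0), (0, 3), (1, 0), (1, 3), (1, 4)], [(0, 0), (0, 3)], [5], [(0, 0, [3,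
      4]), (3, 3, [0]), (5, 0, [3, 4])]⟩,
    ⟨[(0, 2), (1, 2)], [(0, 0), (2, 0), (2, 1), (2, 3)], [(0, 0), (0, 1)], [], [(0, 0, [3,
      4]), (5, 0, [3, 4]), (6, 1, [])]⟩,
    ⟨[(2, 3)], [(3, 0), (3, 1)], [(1, 1)], [6, 7], [(6, 1, []), (9, 1, [])]⟩,
    ⟨[(2, 3), (3, 4)], [(0, 0), (2, 0), (3, 0), (3, 1), (4, 0), (4, 1)], [(0, 1)], [8],
      [(0, 0, [3, 4]), (9, 1, [])]⟩]
  Ta := [((0, 1), 0, 2), ((0, 10), 0, 8), ((5, 4), 0, 5), ((5, 6), 0, 1), ((6, 5), 1, 0), ((6,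
    7), 1, 6), ((9, 8), 1, 7), ((9, 10), 1, 8)]
  Tb := [((0, 1, 10), 0, 2, 8), ((1, 0, 2), 2, 0, 4), ((2, 1, 3), 4, 2, 3), ((3, 2, 4), 3, 4, 5),
    ((4, 3, 5), 5, 3, 0), ((5, 4, 6), 0, 5, 1), ((6, 5, 7), 1, 0, 6), ((7, 6, 8), 6, 1, 7),
    ((8, 7, 9), 7, 6, 1), ((9, 8, 10), 1, 7, 8), ((10, 0, 9), 8, 0, 1)]
  Tc := [(0, 3, 4)]
  Td := [((0, 3), (0, 1), 2), ((0, 3), (0, 10), 8), ((0, 3), (5, 4), 5), ((0, 3), (5, 6), 1),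
    ((0, 4), (0, 1), 2), ((0, 4), (0, 10), 8), ((0, 4), (5, 4), 5), ((0, 4), (5, 6), 1), ((3,
    0), (3, 2), 4), ((3, 0), (3, 4), 5), ((4, 0), (2, 1), 2), ((4, 0), (2, 3), 3)]
  G := [[0, 0, 0x222d4222d8222d4e222d4222d8222d8e6222d4222d8222d8e8c, 0x222d4222d8222d8e14,
    0x222d4222d8222d4e18], [0, 0,
    0xcccd2cccd24ccd88cecccd24ccd88a4ccd88ce6cccd2cccd24ccd88ce8c, 0xcccd2cccd24ccd88ce18,
    0xc8cd446cccd24ccd88ce18], [0, 0x6aae46a6e86a6e8e18, 0, 0x212d4222d8112d8e18,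
    0x122d4222d8112d4e18], [0, 0, 0, 0x11cd411cd211cd8e18, 0x11cd211cd811cd4e18]]

noncomputable def n545 : Ent := ⟨e545, noF, [], [], [(7, 16, [1580044410770988437309982408355971841652082177953823432505691328513, 0]), (8, 13, [1685382419725355503238989871268909155780284044704628512909401645057, 0]), (8, 14, [1685382413448253767852309107433119732572617628602273068445367136257, 0]), (8, 15, [1685356702439545624007900436039642273970977273354372543760002318337, 0])]⟩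

def c545 : PLift (Cov.check n545.C.D v545 = true) := ⟨by decide +kernel⟩

def b545 : PLift (entF (fidx ts) 400 545 n545 = true) := ⟨by decide +kernel⟩

theorem g545 : GoodF (fidx ts) 400 545 := GoodF.ofV v545 n545 c545.down b545.down

/-- 484657:473 -/
noncomputable def e546 : SCfg where
  D := {
    a := 6
    L := 10
    kp := 8
    inn := [(0, 1), (0, 3), (0, 4), (1, 0), (1, 2), (1, 3), (1, 4), (1, 5), (2, 1), (2, 5), (3, 0), (3,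
      1), (3, 5), (4, 0), (4, 1), (5, 1), (5, 2), (5, 3)]
    mix := [(0, 0), (1, 1), (1, 2), (1, 3), (2, 1), (2, 4), (3, 0), (3, 5), (3, 6), (4, 0), (4, 3), (4,
      7), (5, 4), (5, 6), (5, 8), (5, 9)]
    cl := [1, 2, 4, 3, 0, 5, 0, 6, 7, 8]
    chq := [(0, 1), (1, 0), (1, 2), (1, 3), (1, 4), (2, 1), (3, 1), (4, 1)]
    rng := [(0, 5), (0, 7), (1, 2), (1, 4), (2, 1), (2, 3), (3, 2), (3, 7), (4, 1), (4, 9), (5, 0), (5,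
      6), (6, 5), (6, 8), (7, 0), (7, 3), (8, 6), (8, 9), (9, 4), (9, 8)]
    lev := [] }
  links := [[1, 4, 6, 3], [4, 0, 3, 5, 2, 7, 8, 9], [7, 1, 5, 10], [5, 1, 0, 6, 11, 12], [6, 0, 1, 9,
    13], [10, 2, 1, 3, 12, 14, 15]]
  P := {
    a := 6
    N := 16
    nb := [90, 957, 1186, 6243, 8771, 54286, 10265, 1286, 642, 8466, 32932, 4168, 18472, 592, 36896,
      17440]
    tri := [(0, 1, 3), (0, 1, 4), (0, 3, 6), (0, 4, 6), (1, 2, 5), (1, 2, 7), (1, 3, 5), (1, 4, 9), (1,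
      7, 8), (1, 8, 9), (2, 5, 10), (2, 7, 10), (3, 5, 12), (3, 6, 11), (3, 11, 12), (4, 6, 13),
      (4, 9, 13), (5, 10, 15), (5, 12, 14), (5, 14, 15)]
    fin := [0, 0, 0, 0, 0, 5, 0, 7, 8, 9, 5, 11, 5, 13, 14, 15]
    chd := [(0, 5), (0, 7), (0, 8), (0, 9)]
    steps := [(0, 1), (0, 2), (0, 3), (0, 4), (0, 6), (5, 12), (5, 10)] }
  rep := [5, 0, 7, 9, 8, 11, 13, 14, 15]

noncomputable def v546 : Cov.CovD where
  P := 3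
  N := 6
  pl := [5, 7, 8, 9]
  lev := [⟨[], [], [], [], [(0, 1, [0, 2, 3, 4])]⟩,
    ⟨[], [(0, 1), (0, 2), (0, 3), (0, 4)], [(2, 3), (2, 4), (3, 4)], [], [(1, 2, [1]), (2,
      4, [1]), (3, 3, [1])]⟩,
    ⟨[(0, 1)], [(1, 0), (1, 2), (1, 3), (1, 4)], [(0, 2)], [], [(1, 2, [1]), (4, 0, [1])]⟩,
    ⟨[(0, 1), (1, 2)], [(0, 0), (0, 1), (1, 0), (1, 1), (1, 2), (1, 3), (1, 4)], [(0, 1)],
      [5], [(0, 1, [0, 2, 3, 4]), (6, 0, [1])]⟩,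
    ⟨[(0, 1), (0, 3), (1, 2), (1, 3)], [(0, 1), (0, 3), (1, 1), (1, 2), (1, 3), (1, 4), (3,
      1)], [(1, 3)], [6], [(0, 1, [0, 2, 3, 4]), (3, 3, [1])]⟩,
    ⟨[(0, 1), (0, 3), (1, 2), (1, 3), (1, 4), (2, 3)], [(1, 0), (1, 2), (1, 3), (1, 4), (2,
      0), (2, 2), (3, 0), (3, 1)], [(0, 0)], [7, 8], [(4, 0, [1]), (6, 0, [1])]⟩]
  Ta := [((4, 1), 0, 2), ((4, 9), 0, 8), ((6, 5), 0, 5), ((6, 8), 0, 7)]
  Tb := [((0, 5, 7), 1, 5, 6), ((1, 2, 4), 2, 4, 0), ((2, 1, 3), 4, 2, 3), ((3, 2, 7), 3, 4, 6),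
    ((4, 1, 9), 0, 2, 8), ((5, 0, 6), 5, 1, 0), ((6, 5, 8), 0, 5, 7), ((7, 0, 3), 6, 1, 3),
    ((8, 6, 9), 7, 0, 8), ((9, 4, 8), 8, 0, 7)]
  Tc := [(1, 0, 2), (1, 0, 3), (1, 0, 4), (1, 2, 3), (1, 2, 4), (1, 3, 4)]
  Td := [((0, 1), (4, 1), 2), ((0, 1), (4, 9), 8), ((0, 1), (6, 5), 5), ((0, 1), (6, 8), 7), ((1,
    0), (0, 5), 5), ((1, 0), (0, 7), 6), ((1, 2), (0, 5), 5), ((1, 2), (0, 7), 6), ((1, 3),
    (0, 5), 5), ((1, 3), (0, 7), 6), ((1, 4), (0, 5), 5), ((1, 4), (0, 7), 6), ((2, 1), (1,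
    2), 4), ((2, 1), (1, 4), 0), ((3, 1), (3, 2), 4), ((3, 1), (3, 7), 6), ((4, 1), (2, 1),
    2), ((4, 1), (2, 3), 3)]
  G := [[0, 0x266eeeecec8e8c12, 0x22912222b12eeed14e4, 0x22182218cccd142222c4f4,
    0x22c12eeed18225222bc8b4], [0, 0xeeeeeeee6818, 0, 0x62a2c162a2c1888d8444d4562a2c4f1,
    0x225881222722cc2eeedeeedc1222e48b9]]

noncomputable def n546 : Ent := ⟨e546, noF, [], [], []⟩

def c546 : PLift (Cov.check n546.C.D v546 = true) := ⟨by decide +kernel⟩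

def b546 : PLift (entF (fidx ts) 400 546 n546 = true) := ⟨by decide +kernel⟩

theorem g546 : GoodF (fidx ts) 400 546 := GoodF.ofV v546 n546 c546.down b546.down

/-- 484664:474/1 -/
noncomputable def e547 : SCfg where
  D := {
    a := 6
    L := 9
    kp := 6
    inn := [(0, 1), (0, 3), (0, 4), (1, 0), (1, 2), (1, 3), (1, 4), (2, 1), (3, 0), (3, 1), (3, 5), (4,
      0), (4, 1), (5, 3)]
    mix := [(0, 0), (1, 1), (1, 2), (1, 3), (1, 4), (2, 1), (2, 2), (2, 5), (3, 0), (3, 1), (3, 6), (4,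
      0), (4, 4), (4, 7), (4, 8), (5, 0), (5, 6), (5, 8)]
    cl := [0, 0, 1, 2, 0, 5, 3, 6, 4]
    chq := [(2, 5), (5, 2)]
    rng := [(0, 8), (1, 5), (1, 6), (2, 3), (2, 5), (3, 2), (3, 4), (4, 3), (4, 7), (5, 1), (5, 2), (6,
      1), (6, 8), (7, 4), (7, 8), (8, 0), (8, 6), (8, 7)]
    lev := [] }
  links := [[1, 4, 6, 3], [4, 0, 3, 7, 2, 8, 9, 10], [8, 1, 7, 11], [7, 1, 0, 6, 5, 12], [6, 0, 1, 10,
    13, 14], [12, 3, 6, 14]]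
  P := {
    a := 6
    N := 15
    nb := [90, 1949, 2434, 4323, 25667, 20552, 16441, 6158, 2566, 1282, 8722, 388, 16552, 17424,
      12400]
    tri := [(0, 1, 3), (0, 1, 4), (0, 3, 6), (0, 4, 6), (1, 2, 7), (1, 2, 8), (1, 3, 7), (1, 4, 10),
      (1, 8, 9), (1, 9, 10), (2, 7, 11), (2, 8, 11), (3, 5, 6), (3, 5, 12), (3, 7, 12), (4, 6,
      14), (4, 10, 13), (4, 13, 14), (5, 6, 14), (5, 12, 14)]
    fin := [0, 1, 1, 0, 0, 0, 0, 0, 8, 9, 0, 1, 12, 13, 14]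
    chd := [(9, 1)]
    steps := [(0, 3), (0, 4), (0, 6), (0, 5), (0, 7), (0, 10), (1, 2), (1, 11)] }
  rep := [0, 8, 9, 12, 14, 1, 13]

noncomputable def v547 : Cov.CovD where
  P := 3
  N := 4
  pl := [2, 6, 7, 8]
  lev := [⟨[], [], [], [], [(0, 0, [])]⟩,
    ⟨[], [(0, 0), (0, 2)], [(0, 0), (0, 2)], [1], [(1, 0, []), (3, 2, [5]), (4, 0, [])]⟩,
    ⟨[(0, 1)], [(1, 0), (1, 2), (1, 5)], [(0, 5)], [1], [(1, 0, []), (5, 5, [2])]⟩,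
    ⟨[(0, 1), (1, 2)], [(0, 0), (1, 0), (1, 2), (2, 0)], [(0, 0)], [3], [(0, 0, []), (1, 0,
      [])]⟩,
    ⟨[(0, 1), (0, 3), (1, 2), (1, 3)], [(0, 0), (1, 0), (1, 2), (3, 0)], [(0, 0)], [4, 6],
      [(0, 0, []), (4, 0, [])]⟩,
    ⟨[(0, 3), (1, 3)], [(0, 0), (3, 0), (4, 0)], [], [3, 4], [(0, 0, [])]⟩]
  Ta := [((0, 8), 0, 4), ((1, 5), 0, 5), ((1, 6), 0, 3), ((4, 3), 0, 2), ((4, 7), 0, 6)]
  Tb := [((1, 5, 6), 0, 5, 3), ((2, 3, 5), 1, 2, 5), ((3, 2, 4), 2, 1, 0), ((4, 3, 7), 0, 2, 6),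
    ((5, 1, 2), 5, 0, 1), ((6, 1, 8), 3, 0, 4), ((7, 4, 8), 6, 0, 4), ((8, 0, 6), 4, 0, 3),
    ((8, 0, 7), 4, 0, 6), ((8, 6, 7), 4, 3, 6)]
  Tc := []
  Td := [((2, 5), (3, 2), 1), ((2, 5), (3, 4), 0), ((5, 2), (5, 1), 0), ((5, 2), (5, 2), 1)]
  G := [[0, 0x646e428aae82c2, 0, 0x44688aee2ee148, 0x226a4eec8ce182], [0, 0x42611a81ce242, 0,
    0xe4ce8a2e648cce662ea8c1, 0x4411a812ee484], [0, 0x11618142ee284, 0x12611a11ce148,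
    0x116141e88e182, 0x116111e88e182]]

noncomputable def n547 : Ent := ⟨e547, noF, [], [], []⟩

def c547 : PLift (Cov.check n547.C.D v547 = true) := ⟨by decide +kernel⟩

def b547 : PLift (entF (fidx ts) 400 547 n547 = true) := ⟨by decide +kernel⟩

theorem g547 : GoodF (fidx ts) 400 547 := GoodF.ofV v547 n547 c547.down b547.down

/-- 484664:474 -/
noncomputable def e548 : SCfg where
  D := {
    a := 6
    L := 10
    kp := 7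
    inn := [(0, 1), (0, 3), (0, 4), (1, 0), (1, 2), (1, 3), (1, 4), (2, 1), (3, 0), (3, 1), (3, 5), (4,
      0), (4, 1), (5, 3)]
    mix := [(0, 0), (1, 1), (1, 2), (1, 3), (1, 4), (2, 1), (2, 2), (2, 5), (3, 0), (3, 1), (3, 6), (4,
      0), (4, 4), (4, 7), (4, 8), (5, 0), (5, 6), (5, 9)]
    cl := [0, 0, 1, 2, 0, 4, 3, 5, 6, 7]
    chq := [(2, 4), (4, 2)]
    rng := [(0, 8), (0, 9), (1, 5), (1, 6), (2, 3), (2, 5), (3, 2), (3, 4), (4, 3), (4, 7), (5, 1), (5,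
      2), (6, 1), (6, 9), (7, 4), (7, 8), (8, 0), (8, 7), (9, 0), (9, 6)]
    lev := [] }
  links := [[1, 4, 6, 3], [4, 0, 3, 7, 2, 8, 9, 10], [8, 1, 7, 11], [7, 1, 0, 6, 5, 12], [6, 0, 1, 10,
    13, 14], [12, 3, 6, 15]]
  P := {
    a := 6
    N := 16
    nb := [90, 1949, 2434, 4323, 25667, 36936, 49209, 6158, 2566, 1282, 8722, 388, 32936, 17424, 8272,
      4192]
    tri := [(0, 1, 3), (0, 1, 4), (0, 3, 6), (0, 4, 6), (1, 2, 7), (1, 2, 8), (1, 3, 7), (1, 4, 10),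
      (1, 8, 9), (1, 9, 10), (2, 7, 11), (2, 8, 11), (3, 5, 6), (3, 5, 12), (3, 7, 12), (4, 6,
      14), (4, 10, 13), (4, 13, 14), (5, 6, 15), (5, 12, 15)]
    fin := [0, 1, 1, 0, 0, 0, 0, 0, 8, 9, 0, 1, 12, 13, 14, 15]
    chd := [(9, 1)]
    steps := [(0, 3), (0, 4), (0, 5), (0, 6), (0, 7), (0, 10), (1, 2), (1, 11)] }
  rep := [0, 8, 9, 12, 1, 13, 14, 15]

noncomputable def v548 : Cov.CovD where
  P := 3
  N := 5
  pl := [2, 6, 7, 8, 9]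
  lev := [⟨[], [], [], [], [(0, 0, [])]⟩,
    ⟨[], [(0, 0), (0, 2)], [(0, 0), (0, 2)], [1], [(1, 0, []), (3, 2, [4]), (4, 0, [])]⟩,
    ⟨[(0, 1)], [(1, 0), (1, 2), (1, 4)], [(0, 4)], [1], [(1, 0, []), (5, 4, [2])]⟩,
    ⟨[(0, 1), (1, 2)], [(0, 0), (1, 0), (1, 2), (2, 0)], [(0, 0)], [3], [(0, 0, []), (1, 0,
      [])]⟩,
    ⟨[(0, 1), (0, 3), (1, 2), (1, 3)], [(0, 0), (1, 0), (1, 2), (3, 0)], [(0, 0)], [5, 6],
      [(0, 0, []), (4, 0, [])]⟩,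
    ⟨[(0, 3), (1, 3)], [(0, 0), (3, 0), (4, 0)], [], [3, 7], [(0, 0, [])]⟩]
  Ta := [((0, 8), 0, 6), ((0, 9), 0, 7), ((1, 5), 0, 4), ((1, 6), 0, 3), ((4, 3), 0, 2), ((4, 7),
    0, 5)]
  Tb := [((0, 8, 9), 0, 6, 7), ((1, 5, 6), 0, 4, 3), ((2, 3, 5), 1, 2, 4), ((3, 2, 4), 2, 1, 0),
    ((4, 3, 7), 0, 2, 5), ((5, 1, 2), 4, 0, 1), ((6, 1, 9), 3, 0, 7), ((7, 4, 8), 5, 0, 6),
    ((8, 0, 7), 6, 0, 5), ((9, 0, 6), 7, 0, 3)]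
  Tc := []
  Td := [((2, 4), (3, 2), 1), ((2, 4), (3, 4), 0), ((4, 2), (5, 1), 0), ((4, 2), (5, 2), 1)]
  G := [[0, 0x666e42aaae82c2, 0, 0x246218ecee22a44ce14a, 0x44aeaea18c8ce4186], [0,
    0xccceaaae6281, 0, 0x525c3e91ce45bae31a14e8c2, 0xccceaaae6481], [0, 0x11611a11ce242,
    0x11611a11ce142, 0x11611a11ce184, 0x11611a11ce184]]

noncomputable def n548 : Ent := ⟨e548, noF, [], [], [(15, 14, [385746751338780685620664494392815470296102193487288376374734849, 0])]⟩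

def c548 : PLift (Cov.check n548.C.D v548 = true) := ⟨by decide +kernel⟩

def b548 : PLift (entF (fidx ts) 400 548 n548 = true) := ⟨by decide +kernel⟩

theorem g548 : GoodF (fidx ts) 400 548 := GoodF.ofV v548 n548 c548.down b548.down

/-- 484664:475 -/
noncomputable def e549 : SCfg where
  D := {
    a := 6
    L := 10
    kp := 7
    inn := [(0, 1), (0, 3), (0, 4), (1, 0), (1, 2), (1, 3), (1, 4), (1, 5), (2, 1), (3, 0), (3, 1), (4,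
      0), (4, 1), (5, 1)]
    mix := [(0, 0), (1, 1), (1, 2), (1, 3), (2, 1), (2, 2), (2, 4), (3, 0), (3, 1), (3, 5), (3, 6), (4,
      0), (4, 3), (4, 7), (4, 8), (5, 2), (5, 3), (5, 9)]
    cl := [0, 0, 1, 0, 3, 2, 4, 5, 6, 7]
    chq := [(0, 1), (1, 0)]
    rng := [(0, 5), (0, 8), (1, 4), (1, 6), (2, 4), (2, 9), (3, 7), (3, 9), (4, 1), (4, 2), (5, 0), (5,
      6), (6, 1), (6, 5), (7, 3), (7, 8), (8, 0), (8, 7), (9, 2), (9, 3)]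
    lev := [] }
  links := [[1, 4, 6, 3], [4, 0, 3, 7, 2, 8, 5, 9], [8, 1, 7, 10], [7, 1, 0, 6, 11, 12], [6, 0, 1, 9, 13,
    14], [9, 1, 8, 15]]
  P := {
    a := 6
    N := 16
    nb := [90, 957, 1410, 6339, 25155, 33538, 18457, 5134, 33830, 41010, 388, 4168, 2184, 16912, 8272,
      800]
    tri := [(0, 1, 3), (0, 1, 4), (0, 3, 6), (0, 4, 6), (1, 2, 7), (1, 2, 8), (1, 3, 7), (1, 4, 9), (1,
      5, 8), (1, 5, 9), (2, 7, 10), (2, 8, 10), (3, 6, 11), (3, 7, 12), (3, 11, 12), (4, 6, 14),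
      (4, 9, 13), (4, 13, 14), (5, 8, 15), (5, 9, 15)]
    fin := [0, 0, 0, 0, 0, 0, 0, 0, 8, 0, 10, 11, 12, 13, 14, 15]
    chd := [(0, 8)]
    steps := [(0, 1), (0, 2), (0, 3), (0, 4), (0, 5), (0, 6), (0, 7), (0, 9)] }
  rep := [0, 8, 11, 10, 12, 13, 14, 15]

noncomputable def v549 : Cov.CovD where
  P := 3
  N := 5
  pl := [4, 5, 6, 7, 8, 9]
  lev := [⟨[], [], [], [], [(0, 0, [1])]⟩,
    ⟨[], [(0, 0), (0, 1)], [(0, 0), (0, 1)], [], [(1, 0, [1]), (2, 1, [0]), (3, 0, [1])]⟩,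
    ⟨[(0, 1)], [(1, 0), (1, 1)], [(0, 1)], [3], [(1, 0, [1]), (2, 1, [0])]⟩,
    ⟨[(0, 1), (1, 2)], [(0, 0), (1, 0), (1, 1), (2, 0)], [(0, 0)], [2, 4], [(0, 0, [1]),
      (1, 0, [1])]⟩,
    ⟨[(0, 1), (0, 3), (1, 2), (1, 3)], [(0, 0), (1, 0), (1, 1), (3, 0)], [(0, 0)], [5, 6],
      [(0, 0, [1]), (3, 0, [1])]⟩,
    ⟨[(0, 1), (1, 2), (1, 3), (1, 4)], [(1, 0), (1, 1), (2, 1), (4, 0)], [(0, 1)], [7],
      [(2, 1, [0]), (3, 0, [1])]⟩]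
  Ta := [((0, 5), 0, 2), ((0, 8), 0, 6), ((1, 4), 0, 3), ((1, 6), 0, 4), ((3, 7), 0, 5), ((3, 9),
    0, 7)]
  Tb := [((0, 5, 8), 0, 2, 6), ((1, 4, 6), 0, 3, 4), ((2, 4, 9), 1, 3, 7), ((3, 7, 9), 0, 5, 7),
    ((4, 1, 2), 3, 0, 1), ((5, 0, 6), 2, 0, 4), ((6, 1, 5), 4, 0, 2), ((7, 3, 8), 5, 0, 6),
    ((8, 0, 7), 6, 0, 5), ((9, 2, 3), 7, 1, 0)]
  Tc := []
  Td := [((0, 1), (0, 5), 2), ((0, 1), (0, 8), 6), ((0, 1), (1, 4), 3), ((0, 1), (1, 6), 4), ((0,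
    1), (3, 7), 5), ((0, 1), (3, 9), 7), ((1, 0), (2, 4), 3), ((1, 0), (2, 9), 7)]
  G := [[0, 0xcacea2caaaea2caccc4ccc4c62, 0x11611a11ce184, 0x116111ec11881c2,
    0x14111ea111a81c4], [0, 0xac66ccecacce4c2aace8c88629, 0, 0x14414111ecc111e11ac11a8cc2,
    0x14111ea4111e111ea11a8cc1], [0, 0x666466666cecaa88cacec8cca1, 0, 0x4464ccec1c88e88c1c1,
    0x44c4a1c8ceccaa1c1]]

noncomputable def n549 : Ent := ⟨e549, noF, [], [], []⟩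

def c549 : PLift (Cov.check n549.C.D v549 = true) := ⟨by decide +kernel⟩

def b549 : PLift (entF (fidx ts) 400 549 n549 = true) := ⟨by decide +kernel⟩

theorem g549 : GoodF (fidx ts) 400 549 := GoodF.ofV v549 n549 c549.down b549.down

/-- 484664:476/1 -/
noncomputable def e550 : SCfg where
  D := {
    a := 6
    L := 9
    kp := 6
    inn := [(0, 1), (0, 3), (0, 4), (1, 0), (1, 2), (1, 3), (1, 4), (2, 1), (3, 0), (3, 1), (4, 0), (4,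
      1), (4, 5), (5, 4)]
    mix := [(0, 0), (1, 1), (1, 2), (1, 3), (1, 4), (2, 1), (2, 2), (2, 5), (3, 0), (3, 1), (3, 6), (3,
      7), (4, 0), (4, 4), (4, 8), (5, 0), (5, 6), (5, 8)]
    cl := [0, 0, 1, 2, 0, 5, 3, 6, 4]
    chq := [(2, 5), (5, 2)]
    rng := [(0, 6), (1, 5), (1, 7), (2, 3), (2, 5), (3, 2), (3, 4), (4, 3), (4, 8), (5, 1), (5, 2), (6,
      0), (6, 7), (6, 8), (7, 1), (7, 6), (8, 4), (8, 6)]
    lev := [] }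
  links := [[1, 4, 6, 3], [4, 0, 3, 7, 2, 8, 9, 10], [8, 1, 7, 11], [7, 1, 0, 6, 12, 13], [6, 0, 1, 10,
    14, 5], [6, 4, 14, 12]]
  P := {
    a := 6
    N := 15
    nb := [90, 1949, 2434, 12483, 17507, 20560, 4153, 10254, 2566, 1282, 16914, 388, 24680, 4232,
      5168]
    tri := [(0, 1, 3), (0, 1, 4), (0, 3, 6), (0, 4, 6), (1, 2, 7), (1, 2, 8), (1, 3, 7), (1, 4, 10),
      (1, 8, 9), (1, 9, 10), (2, 7, 11), (2, 8, 11), (3, 6, 12), (3, 7, 13), (3, 12, 13), (4, 5,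
      6), (4, 5, 14), (4, 10, 14), (5, 6, 12), (5, 12, 14)]
    fin := [0, 1, 1, 0, 0, 0, 0, 0, 8, 9, 0, 1, 12, 13, 14]
    chd := [(9, 1)]
    steps := [(0, 3), (0, 4), (0, 6), (0, 5), (0, 7), (0, 10), (1, 2), (1, 11)] }
  rep := [0, 8, 9, 12, 14, 1, 13]

noncomputable def v550 : Cov.CovD where
  P := 3
  N := 4
  pl := [2, 6, 7, 8]
  lev := [⟨[], [], [], [], [(0, 0, [])]⟩,
    ⟨[], [(0, 0), (0, 2)], [(0, 0), (0, 2)], [1], [(1, 0, []), (3, 2, [5]), (4, 0, [])]⟩,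
    ⟨[(0, 1)], [(1, 0), (1, 2), (1, 5)], [(0, 5)], [1], [(1, 0, []), (5, 5, [2])]⟩,
    ⟨[(0, 1), (1, 2)], [(0, 0), (1, 0), (1, 2), (2, 0)], [(0, 0)], [3, 6], [(0, 0, []), (1,
      0, [])]⟩,
    ⟨[(0, 1), (0, 3), (1, 2), (1, 3)], [(0, 0), (1, 0), (1, 2), (3, 0)], [(0, 0)], [4],
      [(0, 0, []), (4, 0, [])]⟩,
    ⟨[(0, 4), (1, 4)], [(0, 0), (3, 0), (4, 0)], [], [3, 4], [(0, 0, [])]⟩]
  Ta := [((0, 6), 0, 3), ((1, 5), 0, 5), ((1, 7), 0, 6), ((4, 3), 0, 2), ((4, 8), 0, 4)]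
  Tb := [((1, 5, 7), 0, 5, 6), ((2, 3, 5), 1, 2, 5), ((3, 2, 4), 2, 1, 0), ((4, 3, 8), 0, 2, 4),
    ((5, 1, 2), 5, 0, 1), ((6, 0, 7), 3, 0, 6), ((6, 0, 8), 3, 0, 4), ((6, 7, 8), 3, 6, 4),
    ((7, 1, 6), 6, 0, 3), ((8, 4, 6), 4, 0, 3)]
  Tc := []
  Td := [((2, 5), (3, 2), 1), ((2, 5), (3, 4), 0), ((5, 2), (5, 1), 0), ((5, 2), (5, 2), 1)]
  G := [[0, 0x8e66ca482ee284, 0, 0x8e64ea482ee148, 0x4a6c26618ac6818a], [0, 0x81614c21ce282, 0,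
    0x126218614a126ec84164811a88c6, 0x11611c11ce482], [0, 0x86ac6a482ee241, 0x81611a12ce184,
    0x81614c12ce182, 0x18641612ce182]]

noncomputable def n550 : Ent := ⟨e550, noF, [], [], []⟩

def c550 : PLift (Cov.check n550.C.D v550 = true) := ⟨by decide +kernel⟩

def b550 : PLift (entF (fidx ts) 400 550 n550 = true) := ⟨by decide +kernel⟩

theorem g550 : GoodF (fidx ts) 400 550 := GoodF.ofV v550 n550 c550.down b550.down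

/-- 484664:476 -/
noncomputable def e551 : SCfg where
  D := {
    a := 6
    L := 10
    kp := 7
    inn := [(0, 1), (0, 3), (0, 4), (1, 0), (1, 2), (1, 3), (1, 4), (2, 1), (3, 0), (3, 1), (4, 0), (4,
      1), (4, 5), (5, 4)]
    mix := [(0, 0), (1, 1), (1, 2), (1, 3), (1, 4), (2, 1), (2, 2), (2, 5), (3, 0), (3, 1), (3, 6), (3,
      7), (4, 0), (4, 4), (4, 8), (5, 0), (5, 8), (5, 9)]
    cl := [0, 0, 1, 2, 0, 4, 5, 6, 3, 7]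
    chq := [(2, 4), (4, 2)]
    rng := [(0, 6), (0, 9), (1, 5), (1, 7), (2, 3), (2, 5), (3, 2), (3, 4), (4, 3), (4, 8), (5, 1), (5,
      2), (6, 0), (6, 7), (7, 1), (7, 6), (8, 4), (8, 9), (9, 0), (9, 8)]
    lev := [] }
  links := [[1, 4, 6, 3], [4, 0, 3, 7, 2, 8, 9, 10], [8, 1, 7, 11], [7, 1, 0, 6, 12, 13], [6, 0, 1, 10,
    14, 5], [6, 4, 14, 15]]
  P := {
    a := 6
    N := 16
    nb := [90, 1949, 2434, 12483, 17507, 49232, 36921, 10254, 2566, 1282, 16914, 388, 8264, 4232,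
      33840, 16480]
    tri := [(0, 1, 3), (0, 1, 4), (0, 3, 6), (0, 4, 6), (1, 2, 7), (1, 2, 8), (1, 3, 7), (1, 4, 10),
      (1, 8, 9), (1, 9, 10), (2, 7, 11), (2, 8, 11), (3, 6, 12), (3, 7, 13), (3, 12, 13), (4, 5,
      6), (4, 5, 14), (4, 10, 14), (5, 6, 15), (5, 14, 15)]
    fin := [0, 1, 1, 0, 0, 0, 0, 0, 8, 9, 0, 1, 12, 13, 14, 15]
    chd := [(9, 1)]
    steps := [(0, 3), (0, 4), (0, 5), (0, 6), (0, 7), (0, 10), (1, 2), (1, 11)] }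
  rep := [0, 8, 9, 14, 1, 12, 13, 15]

noncomputable def v551 : Cov.CovD where
  P := 3
  N := 5
  pl := [2, 6, 7, 8, 9]
  lev := [⟨[], [], [], [], [(0, 0, [])]⟩,
    ⟨[], [(0, 0), (0, 2)], [(0, 0), (0, 2)], [1], [(1, 0, []), (3, 2, [4]), (4, 0, [])]⟩,
    ⟨[(0, 1)], [(1, 0), (1, 2), (1, 4)], [(0, 4)], [1], [(1, 0, []), (5, 4, [2])]⟩,
    ⟨[(0, 1), (1, 2)], [(0, 0), (1, 0), (1, 2), (2, 0)], [(0, 0)], [5, 6], [(0, 0, []), (1,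
      0, [])]⟩,
    ⟨[(0, 1), (0, 3), (1, 2), (1, 3)], [(0, 0), (1, 0), (1, 2), (3, 0)], [(0, 0)], [3],
      [(0, 0, []), (4, 0, [])]⟩,
    ⟨[(0, 4), (1, 4)], [(0, 0), (3, 0), (4, 0)], [], [3, 7], [(0, 0, [])]⟩]
  Ta := [((0, 6), 0, 5), ((0, 9), 0, 7), ((1, 5), 0, 4), ((1, 7), 0, 6), ((4, 3), 0, 2), ((4, 8),
    0, 3)]
  Tb := [((0, 6, 9), 0, 5, 7), ((1, 5, 7), 0, 4, 6), ((2, 3, 5), 1, 2, 4), ((3, 2, 4), 2, 1, 0),
    ((4, 3, 8), 0, 2, 3), ((5, 1, 2), 4, 0, 1), ((6, 0, 7), 5, 0, 6), ((7, 1, 6), 6, 0, 5),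
    ((8, 4, 9), 3, 0, 7), ((9, 0, 8), 7, 0, 3)]
  Tc := []
  Td := [((2, 4), (3, 2), 1), ((2, 4), (3, 4), 0), ((4, 2), (5, 1), 0), ((4, 2), (5, 2), 1)]
  G := [[0, 0x642e8e44e2a8a2ca2c2, 0, 0x622248eee14c8c4ac14a, 0xca6ca664822848c86848e], [0,
    0x11611a11ce282, 0, 0x11611a11ce411c11a11ce8c2, 0x11611a11ce482], [0, 0x95616a1bce248,
    0x11611a11ce184, 0x1a659a936e148, 0xca6ca6ca6e481]]

noncomputable def n551 : Ent := ⟨e551, noF, [], [], [(12, 15, [360035742630636841211993100915356868655746945586763691009925121, 0])]⟩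

def c551 : PLift (Cov.check n551.C.D v551 = true) := ⟨by decide +kernel⟩

def b551 : PLift (entF (fidx ts) 400 551 n551 = true) := ⟨by decide +kernel⟩

theorem g551 : GoodF (fidx ts) 400 551 := GoodF.ofV v551 n551 c551.down b551.down

/-- 457745:478/2 -/
noncomputable def e552 : SCfg where
  D := {
    a := 6
    L := 9
    kp := 6
    inn := [(0, 1), (0, 2), (1, 0), (1, 2), (2, 0), (2, 1), (2, 3), (3, 2), (3, 4), (3, 5), (4, 3), (5,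
      3)]
    mix := [(0, 0), (0, 1), (1, 1), (1, 2), (1, 3), (2, 0), (2, 3), (2, 4), (2, 5), (3, 0), (3, 5), (3,
      6), (3, 7), (4, 2), (4, 6), (4, 7), (5, 0), (5, 1), (5, 7), (5, 8)]
    cl := [0, 1, 2, 3, 5, 0, 4, 0, 6]
    chq := [(0, 3), (1, 3), (3, 0), (3, 1)]
    rng := [(0, 1), (1, 0), (1, 2), (1, 8), (2, 1), (2, 3), (2, 6), (2, 7), (3, 2), (3, 4), (4, 3), (4,
      5), (5, 4), (5, 6), (6, 2), (6, 5), (7, 2), (7, 8), (8, 1), (8, 7)]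
    lev := [] }
  links := [[1, 2, 6, 7], [2, 0, 7, 8, 9], [6, 0, 1, 9, 10, 11, 3], [6, 2, 11, 12, 4, 13, 5], [13, 3, 12,
    8], [6, 3, 13, 14, 7]]
  P := {
    a := 6
    N := 15
    nb := [198, 901, 3659, 14452, 12552, 24776, 173, 16739, 12946, 1286, 2564, 5132, 2328, 16696,
      8352]
    tri := [(0, 1, 2), (0, 1, 7), (0, 2, 6), (0, 6, 7), (1, 2, 9), (1, 7, 8), (1, 8, 9), (2, 3, 6), (2,
      3, 11), (2, 9, 10), (2, 10, 11), (3, 4, 12), (3, 4, 13), (3, 5, 6), (3, 5, 13), (3, 11, 12),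
      (4, 8, 12), (4, 8, 13), (5, 6, 7), (5, 7, 14), (5, 13, 14)]
    fin := [0, 1, 0, 0, 0, 0, 0, 1, 8, 9, 10, 0, 12, 0, 14]
    chd := [(0, 9), (1, 9)]
    steps := [(0, 2), (0, 3), (0, 4), (0, 6), (0, 5), (0, 11), (0, 13), (1, 7)] }
  rep := [0, 1, 8, 9, 12, 10, 14]

noncomputable def v552 : Cov.CovD where
  P := 3
  N := 4
  pl := [2, 4, 6, 8]
  lev := [⟨[], [], [(0, 1)], [], [(0, 0, [3]), (1, 1, [3])]⟩,
    ⟨[], [(0, 0), (0, 1), (0, 3)], [(1, 3)], [2], [(1, 1, [3]), (3, 3, [0, 1])]⟩,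
    ⟨[(0, 1)], [(0, 0), (0, 1), (0, 3), (1, 0), (1, 1), (1, 3)], [(0, 0), (0, 3)], [5],
      [(0, 0, [3]), (3, 3, [0, 1]), (5, 0, [3])]⟩,
    ⟨[(0, 2), (1, 2)], [(0, 0), (2, 0), (2, 3)], [(0, 0)], [4], [(0, 0, [3]), (5, 0, [3]),
      (7, 0, [3])]⟩,
    ⟨[(2, 3)], [(3, 0)], [], [2, 4], [(7, 0, [3])]⟩,
    ⟨[(2, 3), (3, 4)], [(0, 0), (0, 1), (1, 1), (2, 0), (3, 0), (3, 1), (4, 0)], [(0, 0),
      (0, 1)], [6], [(0, 0, [3]), (1, 1, [3]), (7, 0, [3])]⟩]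
  Ta := [((0, 1), 0, 1), ((5, 4), 0, 5), ((5, 6), 0, 4), ((7, 2), 0, 2), ((7, 8), 0, 6)]
  Tb := [((1, 0, 2), 1, 0, 2), ((1, 0, 8), 1, 0, 6), ((1, 2, 8), 1, 2, 6), ((2, 1, 3), 2, 1, 3),
    ((2, 1, 6), 2, 1, 4), ((2, 1, 7), 2, 1, 0), ((2, 3, 6), 2, 3, 4), ((2, 3, 7), 2, 3, 0),
    ((2, 6, 7), 2, 4, 0), ((3, 2, 4), 3, 2, 5), ((4, 3, 5), 5, 3, 0), ((5, 4, 6), 0, 5, 4),
    ((6, 2, 5), 4, 2, 0), ((7, 2, 8), 0, 2, 6), ((8, 1, 7), 6, 1, 0)]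
  Tc := [(3, 0, 1)]
  Td := [((0, 3), (0, 1), 1), ((0, 3), (5, 4), 5), ((0, 3), (5, 6), 4), ((0, 3), (7, 2), 2), ((0,
    3), (7, 8), 6), ((1, 3), (1, 0), 0), ((1, 3), (1, 2), 2), ((1, 3), (1, 8), 6), ((3, 0),
    (3, 2), 2), ((3, 0), (3, 4), 5), ((3, 1), (3, 2), 2), ((3, 1), (3, 4), 5)]
  G := [[0, 0xa1a1668a1caa1a1aa1a4c6c2, 0, 0xc12c12c12e18, 0xc14c1c1ac2c1ce14], [0, 0, 0,
    0xcc92ccc2cc52e18, 0xc8c26c1c2ac2c1ce14], [0, 0, 0xc8c264c6846ca48cc2a48a846c6c1,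
    0xccc2ccc2ccc2e14, 0xcca44888c2ec2ccace18]]

noncomputable def n552 : Ent := ⟨e552, noF, [], [], []⟩

def c552 : PLift (Cov.check n552.C.D v552 = true) := ⟨by decide +kernel⟩

def b552 : PLift (entF (fidx ts) 400 552 n552 = true) := ⟨by decide +kernel⟩

theorem g552 : GoodF (fidx ts) 400 552 := GoodF.ofV v552 n552 c552.down b552.down

/-- 457745:478/3 -/
noncomputable def e553 : SCfg where
  D := {
    a := 6
    L := 9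
    kp := 6
    inn := [(0, 1), (0, 2), (1, 0), (1, 2), (2, 0), (2, 1), (2, 3), (3, 2), (3, 4), (3, 5), (4, 3), (5,
      3)]
    mix := [(0, 0), (0, 1), (1, 1), (1, 2), (1, 3), (2, 0), (2, 3), (2, 4), (2, 5), (3, 0), (3, 5), (3,
      6), (3, 7), (4, 6), (4, 7), (4, 8), (5, 0), (5, 1), (5, 2), (5, 7)]
    cl := [0, 1, 4, 3, 5, 0, 2, 0, 6]
    chq := [(0, 3), (1, 3), (3, 0), (3, 1)]
    rng := [(0, 1), (1, 0), (1, 2), (2, 1), (2, 3), (2, 7), (3, 2), (3, 4), (4, 3), (4, 5), (5, 4), (5,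
      6), (6, 5), (6, 8), (7, 2), (7, 8), (8, 6), (8, 7)]
    lev := [] }
  links := [[1, 2, 6, 7], [2, 0, 7, 8, 9], [6, 0, 1, 9, 10, 11, 3], [6, 2, 11, 12, 4, 13, 5], [13, 3, 12,
    14], [6, 3, 13, 8, 7]]
  P := {
    a := 6
    N := 15
    nb := [198, 901, 3659, 14452, 28680, 8648, 173, 355, 8866, 1286, 2564, 5132, 18456, 16696, 12304]
    tri := [(0, 1, 2), (0, 1, 7), (0, 2, 6), (0, 6, 7), (1, 2, 9), (1, 7, 8), (1, 8, 9), (2, 3, 6), (2,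
      3, 11), (2, 9, 10), (2, 10, 11), (3, 4, 12), (3, 4, 13), (3, 5, 6), (3, 5, 13), (3, 11, 12),
      (4, 12, 14), (4, 13, 14), (5, 6, 7), (5, 7, 8), (5, 8, 13)]
    fin := [0, 1, 0, 0, 0, 0, 0, 1, 8, 9, 10, 0, 12, 0, 14]
    chd := [(0, 9), (1, 9)]
    steps := [(0, 2), (0, 3), (0, 4), (0, 6), (0, 5), (0, 11), (0, 13), (1, 7)] }
  rep := [0, 1, 12, 9, 8, 10, 14]

noncomputable def v553 : Cov.CovD where
  P := 3
  N := 4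
  pl := [2, 4, 6, 8]
  lev := [⟨[], [], [(0, 1)], [], [(0, 0, [3]), (1, 1, [3])]⟩,
    ⟨[], [(0, 0), (0, 1), (0, 3)], [(1, 3)], [4], [(1, 1, [3]), (3, 3, [0, 1])]⟩,
    ⟨[(0, 1)], [(0, 0), (0, 1), (0, 3), (1, 0), (1, 1), (1, 3)], [(0, 0), (0, 3)], [5],
      [(0, 0, [3]), (3, 3, [0, 1]), (5, 0, [3])]⟩,
    ⟨[(0, 2), (1, 2)], [(0, 0), (2, 0), (2, 3)], [(0, 0)], [2], [(0, 0, [3]), (5, 0, [3]),
      (7, 0, [3])]⟩,
    ⟨[(2, 3)], [(3, 0)], [], [2, 6], [(7, 0, [3])]⟩,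
    ⟨[(2, 3), (3, 4)], [(0, 0), (0, 1), (1, 1), (2, 0), (3, 0), (3, 1), (4, 0)], [(0, 0),
      (0, 1)], [4], [(0, 0, [3]), (1, 1, [3]), (7, 0, [3])]⟩]
  Ta := [((0, 1), 0, 1), ((5, 4), 0, 5), ((5, 6), 0, 2), ((7, 2), 0, 4), ((7, 8), 0, 6)]
  Tb := [((1, 0, 2), 1, 0, 4), ((2, 1, 3), 4, 1, 3), ((2, 1, 7), 4, 1, 0), ((2, 3, 7), 4, 3, 0),
    ((3, 2, 4), 3, 4, 5), ((4, 3, 5), 5, 3, 0), ((5, 4, 6), 0, 5, 2), ((6, 5, 8), 2, 0, 6),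
    ((7, 2, 8), 0, 4, 6), ((8, 6, 7), 6, 2, 0)]
  Tc := [(3, 0, 1)]
  Td := [((0, 3), (0, 1), 1), ((0, 3), (5, 4), 5), ((0, 3), (5, 6), 2), ((0, 3), (7, 2), 4), ((0,
    3), (7, 8), 6), ((1, 3), (1, 0), 0), ((1, 3), (1, 2), 4), ((3, 0), (3, 2), 4), ((3, 0),
    (3, 4), 5), ((3, 1), (3, 2), 4), ((3, 1), (3, 4), 5)]
  G := [[0, 0x814218414e414818214ea414418814e46, 0, 0xc14c18c18e18, 0xc12c12c18e14], [0, 0,
    0xcca4ccc2cc68e18, 0xc14c18c14e14, 0xc12c12c18e14], [0, 0, 0,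
    0x44c844c86c848488cc4c8ce548c488c4a44889c, 0x44a844a86484a248a8a4ca288a24ca88ae9c]]

noncomputable def n553 : Ent := ⟨e553, noF, [], [], []⟩

def c553 : PLift (Cov.check n553.C.D v553 = true) := ⟨by decide +kernel⟩

def b553 : PLift (entF (fidx ts) 400 553 n553 = true) := ⟨by decide +kernel⟩

theorem g553 : GoodF (fidx ts) 400 553 := GoodF.ofV v553 n553 c553.down b553.down

/-- 457745:478/1 -/
noncomputable def e554 : SCfg where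
  D := {
    a := 6
    L := 10
    kp := 7
    inn := [(0, 1), (0, 2), (1, 0), (1, 2), (2, 0), (2, 1), (2, 3), (3, 2), (3, 4), (3, 5), (4, 3), (5,
      3)]
    mix := [(0, 0), (0, 1), (1, 1), (1, 2), (1, 3), (2, 0), (2, 3), (2, 4), (2, 5), (3, 0), (3, 5), (3,
      6), (3, 7), (4, 6), (4, 7), (4, 8), (5, 0), (5, 1), (5, 7), (5, 9)]
    cl := [0, 1, 5, 3, 4, 0, 2, 0, 6, 7]
    chq := [(1, 3), (1, 4), (3, 1), (4, 1)]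
    rng := [(0, 1), (1, 0), (1, 2), (1, 9), (2, 1), (2, 3), (3, 2), (3, 4), (4, 3), (4, 5), (5, 4), (5,
      6), (6, 5), (6, 8), (7, 8), (7, 9), (8, 6), (8, 7), (9, 1), (9, 7)]
    lev := [] }
  links := [[1, 2, 6, 7], [2, 0, 7, 8, 9], [6, 0, 1, 9, 10, 11, 3], [6, 2, 11, 12, 4, 13, 5], [13, 3, 12,
    14], [6, 3, 13, 15, 7]]
  P := {
    a := 6
    N := 16
    nb := [198, 901, 3659, 14452, 28680, 41160, 173, 33123, 642, 1286, 2564, 5132, 18456, 49208,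
      12304, 8352]
    tri := [(0, 1, 2), (0, 1, 7), (0, 2, 6), (0, 6, 7), (1, 2, 9), (1, 7, 8), (1, 8, 9), (2, 3, 6), (2,
      3, 11), (2, 9, 10), (2, 10, 11), (3, 4, 12), (3, 4, 13), (3, 5, 6), (3, 5, 13), (3, 11, 12),
      (4, 12, 14), (4, 13, 14), (5, 6, 7), (5, 7, 15), (5, 13, 15)]
    fin := [0, 1, 1, 0, 0, 0, 0, 1, 8, 9, 10, 0, 12, 0, 14, 15]
    chd := [(1, 9), (1, 10)]
    steps := [(0, 6), (0, 3), (0, 4), (0, 5), (0, 11), (0, 13), (1, 2), (1, 7)] }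
  rep := [0, 1, 12, 9, 10, 8, 14, 15]

noncomputable def v554 : Cov.CovD where
  P := 3
  N := 5
  pl := [2, 6, 8, 9]
  lev := [⟨[], [], [(0, 1)], [], [(0, 0, []), (1, 1, [3, 4])]⟩,
    ⟨[], [(0, 0), (0, 1), (0, 3)], [(1, 3)], [5], [(1, 1, [3, 4]), (3, 3, [1])]⟩,
    ⟨[(0, 1)], [(0, 0), (0, 1), (0, 3), (0, 4), (1, 0), (1, 1), (1, 3), (1, 4)], [(0, 0),
      (0, 3), (0, 4), (3, 4)], [], [(0, 0, []), (3, 3, [1]), (4, 4, [1]), (5, 0, [])]⟩,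
    ⟨[(0, 2), (1, 2)], [(0, 0), (2, 0), (2, 3), (2, 4)], [(0, 0)], [2], [(0, 0, []), (5, 0,
      []), (7, 0, [])]⟩,
    ⟨[(2, 3)], [(3, 0)], [], [2, 6], [(7, 0, [])]⟩,
    ⟨[(2, 3), (3, 4)], [(0, 0), (0, 1), (1, 1), (2, 0), (3, 0), (3, 1), (4, 0)], [(0, 0),
      (0, 1)], [7], [(0, 0, []), (1, 1, [3, 4]), (7, 0, [])]⟩]
  Ta := [((0, 1), 0, 1), ((5, 4), 0, 4), ((5, 6), 0, 2), ((7, 8), 0, 6), ((7, 9), 0, 7)]
  Tb := [((1, 0, 2), 1, 0, 5), ((1, 0, 9), 1, 0, 7), ((1, 2, 9), 1, 5, 7), ((2, 1, 3), 5, 1, 3),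
    ((3, 2, 4), 3, 5, 4), ((4, 3, 5), 4, 3, 0), ((5, 4, 6), 0, 4, 2), ((6, 5, 8), 2, 0, 6),
    ((7, 8, 9), 0, 6, 7), ((8, 6, 7), 6, 2, 0), ((9, 1, 7), 7, 1, 0)]
  Tc := [(1, 3, 4)]
  Td := [((1, 3), (1, 0), 0), ((1, 3), (1, 2), 5), ((1, 3), (1, 9), 7), ((1, 4), (1, 0), 0), ((1,
    4), (1, 2), 5), ((1, 4), (1, 9), 7), ((3, 1), (3, 2), 5), ((3, 1), (3, 4), 4), ((4, 1),
    (4, 3), 3), ((4, 1), (4, 5), 0)]
  G := [[0, 0xa14618614e2c14a14c14e618c18c18eca, 0, 0xc182c182c142d8, 0xc182c182c182d4], [0, 0,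
    0xcc682cca42cc682d8, 0xc142c182c142d4, 0xc182c182c182d4], [0, 0, 0,
    0xc4c8c24cc88c244c8cc2d4, 0x6ca88a26ca88a26ca88a2d4]]

noncomputable def n554 : Ent := ⟨e554, noF, [], [], [(8, 14, [385746751338780685620664494392815470296102193487288376374755329, 0]), (8, 15, [360035742630636841211993100915356868655746945586763691009937409, 0])]⟩

def c554 : PLift (Cov.check n554.C.D v554 = true) := ⟨by decide +kernel⟩

def b554 : PLift (entF (fidx ts) 400 554 n554 = true) := ⟨by decide +kernel⟩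

theorem g554 : GoodF (fidx ts) 400 554 := GoodF.ofV v554 n554 c554.down b554.down

/-- 457745:478/4 -/
noncomputable def e555 : SCfg where
  D := {
    a := 6
    L := 10
    kp := 7
    inn := [(0, 1), (0, 2), (1, 0), (1, 2), (2, 0), (2, 1), (2, 3), (3, 2), (3, 4), (3, 5), (4, 3), (5,
      3)]
    mix := [(0, 0), (0, 1), (1, 1), (1, 2), (1, 3), (2, 0), (2, 3), (2, 4), (2, 5), (3, 0), (3, 5), (3,
      6), (3, 7), (4, 2), (4, 6), (4, 7), (5, 0), (5, 7), (5, 8), (5, 9)]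
    cl := [0, 1, 4, 3, 5, 0, 2, 0, 6, 7]
    chq := [(0, 3), (1, 3), (3, 0), (3, 1)]
    rng := [(0, 1), (0, 9), (1, 0), (1, 2), (2, 1), (2, 3), (2, 6), (2, 7), (3, 2), (3, 4), (4, 3), (4,
      5), (5, 4), (5, 6), (6, 2), (6, 5), (7, 2), (7, 8), (8, 7), (8, 9), (9, 0), (9, 8)]
    lev := [] }
  links := [[1, 2, 6, 7], [2, 0, 7, 8, 9], [6, 0, 1, 9, 10, 11, 3], [6, 2, 11, 12, 4, 13, 5], [13, 3, 12,
    8], [6, 3, 13, 14, 15]]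
  P := {
    a := 6
    N := 16
    nb := [198, 901, 3659, 14452, 12552, 57416, 32941, 323, 12946, 1286, 2564, 5132, 2328, 16696,
      40992, 16480]
    tri := [(0, 1, 2), (0, 1, 7), (0, 2, 6), (0, 6, 7), (1, 2, 9), (1, 7, 8), (1, 8, 9), (2, 3, 6), (2,
      3, 11), (2, 9, 10), (2, 10, 11), (3, 4, 12), (3, 4, 13), (3, 5, 6), (3, 5, 13), (3, 11, 12),
      (4, 8, 12), (4, 8, 13), (5, 6, 15), (5, 13, 14), (5, 14, 15)]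
    fin := [0, 1, 0, 0, 0, 0, 0, 1, 8, 9, 10, 0, 12, 0, 14, 15]
    chd := [(0, 9), (1, 9)]
    steps := [(0, 2), (0, 3), (0, 4), (0, 5), (0, 6), (0, 11), (0, 13), (1, 7)] }
  rep := [0, 1, 12, 9, 8, 10, 14, 15]

noncomputable def v555 : Cov.CovD where
  P := 3
  N := 5
  pl := [2, 4, 6, 8, 9]
  lev := [⟨[], [], [(0, 1)], [], [(0, 0, [3]), (1, 1, [3])]⟩,
    ⟨[], [(0, 0), (0, 1), (0, 3)], [(1, 3)], [4], [(1, 1, [3]), (3, 3, [0, 1])]⟩,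
    ⟨[(0, 1)], [(0, 0), (0, 1), (0, 3), (1, 0), (1, 1), (1, 3)], [(0, 0), (0, 3)], [5],
      [(0, 0, [3]), (3, 3, [0, 1]), (5, 0, [3])]⟩,
    ⟨[(0, 2), (1, 2)], [(0, 0), (2, 0), (2, 3)], [(0, 0)], [2], [(0, 0, [3]), (5, 0, [3]),
      (7, 0, [3])]⟩,
    ⟨[(2, 3)], [(3, 0)], [], [2, 4], [(7, 0, [3])]⟩,
    ⟨[(2, 3), (3, 4)], [(0, 0), (2, 0), (3, 0), (4, 0)], [(0, 0)], [6, 7], [(0, 0, [3]),
      (7, 0, [3])]⟩]
  Ta := [((0, 1), 0, 1), ((0, 9), 0, 7), ((5, 4), 0, 5), ((5, 6), 0, 2), ((7, 2), 0, 4), ((7, 8),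
    0, 6)]
  Tb := [((0, 1, 9), 0, 1, 7), ((1, 0, 2), 1, 0, 4), ((2, 1, 3), 4, 1, 3), ((2, 1, 6), 4, 1, 2),
    ((2, 1, 7), 4, 1, 0), ((2, 3, 6), 4, 3, 2), ((2, 3, 7), 4, 3, 0), ((2, 6, 7), 4, 2, 0),
    ((3, 2, 4), 3, 4, 5), ((4, 3, 5), 5, 3, 0), ((5, 4, 6), 0, 5, 2), ((6, 2, 5), 2, 4, 0),
    ((7, 2, 8), 0, 4, 6), ((8, 7, 9), 6, 0, 7), ((9, 0, 8), 7, 0, 6)]
  Tc := [(3, 0, 1)]
  Td := [((0, 3), (0, 1), 1), ((0, 3), (0, 9), 7), ((0, 3), (5, 4), 5), ((0, 3), (5, 6), 2), ((0,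
    3), (7, 2), 4), ((0, 3), (7, 8), 6), ((1, 3), (1, 0), 0), ((1, 3), (1, 2), 4), ((3, 0),
    (3, 2), 4), ((3, 0), (3, 4), 5), ((3, 1), (3, 2), 4), ((3, 1), (3, 4), 5)]
  G := [[0, 0xe14e18e18e2e14e18e14ee14e4868c8ec6, 0, 0xe14e18e18e14, 0xe12e18e18e18], [0, 0,
    0xeec2a6ce26ace8e14, 0xe14e18e18e14, 0xe12e18e18e14], [0, 0, 0,
    0xe48c2c46a446888c6ec88ce5e8468c8a44889c, 0x2ca228c8a64e8228c8aa6282a22c8ae28e9c]]

noncomputable def n555 : Ent := ⟨e555, noF, [], [], [(7, 15, [360035742630636841211993100915356868655746945586763691009933313, 0])]⟩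

def c555 : PLift (Cov.check n555.C.D v555 = true) := ⟨by decide +kernel⟩

def b555 : PLift (entF (fidx ts) 400 555 n555 = true) := ⟨by decide +kernel⟩

theorem g555 : GoodF (fidx ts) 400 555 := GoodF.ofV v555 n555 c555.down b555.down

/-- 457745:478/5 -/
noncomputable def e556 : SCfg where
  D := {
    a := 6
    L := 10
    kp := 7
    inn := [(0, 1), (0, 2), (1, 0), (1, 2), (2, 0), (2, 1), (2, 3), (3, 2), (3, 4), (3, 5), (4, 3), (5,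
      3)]
    mix := [(0, 0), (0, 1), (1, 1), (1, 2), (1, 3), (2, 0), (2, 3), (2, 4), (2, 5), (3, 0), (3, 5), (3,
      6), (3, 7), (4, 6), (4, 7), (4, 8), (5, 0), (5, 2), (5, 7), (5, 9)]
    cl := [0, 1, 4, 3, 5, 0, 2, 0, 6, 7]
    chq := [(0, 3), (1, 3), (3, 0), (3, 1)]
    rng := [(0, 1), (0, 9), (1, 0), (1, 2), (2, 1), (2, 3), (2, 7), (2, 9), (3, 2), (3, 4), (4, 3), (4,
      5), (5, 4), (5, 6), (6, 5), (6, 8), (7, 2), (7, 8), (8, 6), (8, 7), (9, 0), (9, 2)]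
    lev := [] }
  links := [[1, 2, 6, 7], [2, 0, 7, 8, 9], [6, 0, 1, 9, 10, 11, 3], [6, 2, 11, 12, 4, 13, 5], [13, 3, 12,
    14], [6, 3, 13, 8, 15]]
  P := {
    a := 6
    N := 16
    nb := [198, 901, 3659, 14452, 28680, 41288, 32941, 323, 41634, 1286, 2564, 5132, 18456, 16696,
      12304, 352]
    tri := [(0, 1, 2), (0, 1, 7), (0, 2, 6), (0, 6, 7), (1, 2, 9), (1, 7, 8), (1, 8, 9), (2, 3, 6), (2,
      3, 11), (2, 9, 10), (2, 10, 11), (3, 4, 12), (3, 4, 13), (3, 5, 6), (3, 5, 13), (3, 11, 12),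
      (4, 12, 14), (4, 13, 14), (5, 6, 15), (5, 8, 13), (5, 8, 15)]
    fin := [0, 1, 0, 0, 0, 0, 0, 1, 8, 9, 10, 0, 12, 0, 14, 15]
    chd := [(0, 9), (1, 9)]
    steps := [(0, 2), (0, 3), (0, 4), (0, 5), (0, 6), (0, 11), (0, 13), (1, 7)] }
  rep := [0, 1, 12, 9, 8, 10, 14, 15]

noncomputable def v556 : Cov.CovD where
  P := 3
  N := 5
  pl := [2, 4, 6, 8, 9]
  lev := [⟨[], [], [(0, 1)], [], [(0, 0, [3]), (1, 1, [3])]⟩,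
    ⟨[], [(0, 0), (0, 1), (0, 3)], [(1, 3)], [4], [(1, 1, [3]), (3, 3, [0, 1])]⟩,
    ⟨[(0, 1)], [(0, 0), (0, 1), (0, 3), (1, 0), (1, 1), (1, 3)], [(0, 0), (0, 3)], [5],
      [(0, 0, [3]), (3, 3, [0, 1]), (5, 0, [3])]⟩,
    ⟨[(0, 2), (1, 2)], [(0, 0), (2, 0), (2, 3)], [(0, 0)], [2], [(0, 0, [3]), (5, 0, [3]),
      (7, 0, [3])]⟩,
    ⟨[(2, 3)], [(3, 0)], [], [2, 6], [(7, 0, [3])]⟩,
    ⟨[(2, 3), (3, 4)], [(0, 0), (2, 0), (3, 0), (4, 0)], [(0, 0)], [4, 7], [(0, 0, [3]),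
      (7, 0, [3])]⟩]
  Ta := [((0, 1), 0, 1), ((0, 9), 0, 7), ((5, 4), 0, 5), ((5, 6), 0, 2), ((7, 2), 0, 4), ((7, 8),
    0, 6)]
  Tb := [((0, 1, 9), 0, 1, 7), ((1, 0, 2), 1, 0, 4), ((2, 1, 3), 4, 1, 3), ((2, 1, 7), 4, 1, 0),
    ((2, 1, 9), 4, 1, 7), ((2, 3, 7), 4, 3, 0), ((2, 3, 9), 4, 3, 7), ((2, 7, 9), 4, 0, 7),
    ((3, 2, 4), 3, 4, 5), ((4, 3, 5), 5, 3, 0), ((5, 4, 6), 0, 5, 2), ((6, 5, 8), 2, 0, 6),
    ((7, 2, 8), 0, 4, 6), ((8, 6, 7), 6, 2, 0), ((9, 0, 2), 7, 0, 4)]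
  Tc := [(3, 0, 1)]
  Td := [((0, 3), (0, 1), 1), ((0, 3), (0, 9), 7), ((0, 3), (5, 4), 5), ((0, 3), (5, 6), 2), ((0,
    3), (7, 2), 4), ((0, 3), (7, 8), 6), ((1, 3), (1, 0), 0), ((1, 3), (1, 2), 4), ((3, 0),
    (3, 2), 4), ((3, 0), (3, 4), 5), ((3, 1), (3, 2), 4), ((3, 1), (3, 4), 5)]
  G := [[0, 0x614e18c14e4e14a18c14e618a18e18eac, 0, 0xe14e18e18e14, 0xe12e12e18e18], [0, 0,
    0xea4e468ee8ee68e14, 0xe14e18e14e14, 0xe12e18e18e18], [0, 0, 0,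
    0x66c8a4c8c688445cac4aac4a6468c2ac86ec88ce9c, 0x6268a22a8aa6ea88ae1cca26ca8a6ca266a86c5]]

noncomputable def n556 : Ent := ⟨e556, noF, [], [], [(7, 15, [360035742630636841211993100915356868655746945586763691009937409, 0])]⟩

def c556 : PLift (Cov.check n556.C.D v556 = true) := ⟨by decide +kernel⟩

def b556 : PLift (entF (fidx ts) 400 556 n556 = true) := ⟨by decide +kernel⟩

theorem g556 : GoodF (fidx ts) 400 556 := GoodF.ofV v556 n556 c556.down b556.down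

/-- 457745:478 -/
noncomputable def e557 : SCfg where
  D := {
    a := 6
    L := 11
    kp := 8
    inn := [(0, 1), (0, 2), (1, 0), (1, 2), (2, 0), (2, 1), (2, 3), (3, 2), (3, 4), (3, 5), (4, 3), (5,
      3)]
    mix := [(0, 0), (0, 1), (1, 1), (1, 2), (1, 3), (2, 0), (2, 3), (2, 4), (2, 5), (3, 0), (3, 5), (3,
      6), (3, 7), (4, 6), (4, 7), (4, 8), (5, 0), (5, 7), (5, 9), (5, 10)]
    cl := [0, 1, 5, 3, 4, 0, 2, 0, 6, 7, 8]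
    chq := [(1, 3), (1, 4), (3, 1), (4, 1)]
    rng := [(0, 1), (0, 10), (1, 0), (1, 2), (2, 1), (2, 3), (3, 2), (3, 4), (4, 3), (4, 5), (5, 4),
      (5, 6), (6, 5), (6, 8), (7, 8), (7, 9), (8, 6), (8, 7), (9, 7), (9, 10), (10, 0), (10, 9)]
    lev := [] }
  links := [[1, 2, 6, 7], [2, 0, 7, 8, 9], [6, 0, 1, 9, 10, 11, 3], [6, 2, 11, 12, 4, 13, 5], [13, 3, 12,
    14], [6, 3, 13, 15, 16]]
  P := {
    a := 6
    N := 17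
    nb := [198, 901, 3659, 14452, 28680, 106568, 65709, 323, 642, 1286, 2564, 5132, 18456, 49208,
      12304, 73760, 32864]
    tri := [(0, 1, 2), (0, 1, 7), (0, 2, 6), (0, 6, 7), (1, 2, 9), (1, 7, 8), (1, 8, 9), (2, 3, 6), (2,
      3, 11), (2, 9, 10), (2, 10, 11), (3, 4, 12), (3, 4, 13), (3, 5, 6), (3, 5, 13), (3, 11, 12),
      (4, 12, 14), (4, 13, 14), (5, 6, 16), (5, 13, 15), (5, 15, 16)]
    fin := [0, 1, 1, 0, 0, 0, 0, 1, 8, 9, 10, 0, 12, 0, 14, 15, 16]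
    chd := [(1, 9), (1, 10)]
    steps := [(0, 6), (0, 3), (0, 4), (0, 5), (0, 11), (0, 13), (1, 2), (1, 7)] }
  rep := [0, 1, 12, 9, 10, 8, 14, 15, 16]

noncomputable def v557 : Cov.CovD where
  P := 3
  N := 6
  pl := [2, 6, 8, 9, 10]
  lev := [⟨[], [], [(0, 1)], [], [(0, 0, []), (1, 1, [3, 4])]⟩,
    ⟨[], [(0, 0), (0, 1), (0, 3)], [(1, 3)], [5], [(1, 1, [3, 4]), (3, 3, [1])]⟩,
    ⟨[(0, 1)], [(0, 0), (0, 1), (0, 3), (0, 4), (1, 0), (1, 1), (1, 3), (1, 4)], [(0, 0),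
      (0, 3), (0, 4), (3, 4)], [], [(0, 0, []), (3, 3, [1]), (4, 4, [1]), (5, 0, [])]⟩,
    ⟨[(0, 2), (1, 2)], [(0, 0), (2, 0), (2, 3), (2, 4)], [(0, 0)], [2], [(0, 0, []), (5, 0,
      []), (7, 0, [])]⟩,
    ⟨[(2, 3)], [(3, 0)], [], [2, 6], [(7, 0, [])]⟩,
    ⟨[(2, 3), (3, 4)], [(0, 0), (2, 0), (3, 0), (4, 0)], [(0, 0)], [7, 8], [(0, 0, []), (7,
      0, [])]⟩]
  Ta := [((0, 1), 0, 1), ((0, 10), 0, 8), ((5, 4), 0, 4), ((5, 6), 0, 2), ((7, 8), 0, 6), ((7,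
    9), 0, 7)]
  Tb := [((0, 1, 10), 0, 1, 8), ((1, 0, 2), 1, 0, 5), ((2, 1, 3), 5, 1, 3), ((3, 2, 4), 3, 5, 4),
    ((4, 3, 5), 4, 3, 0), ((5, 4, 6), 0, 4, 2), ((6, 5, 8), 2, 0, 6), ((7, 8, 9), 0, 6, 7),
    ((8, 6, 7), 6, 2, 0), ((9, 7, 10), 7, 0, 8), ((10, 0, 9), 8, 0, 7)]
  Tc := [(1, 3, 4)]
  Td := [((1, 3), (1, 0), 0), ((1, 3), (1, 2), 5), ((1, 4), (1, 0), 0), ((1, 4), (1, 2), 5), ((3,
    1), (3, 2), 5), ((3, 1), (3, 4), 4), ((4, 1), (4, 3), 3), ((4, 1), (4, 5), 0)]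
  G := [[0, 0xe14e18e18ee14e18e18e6e14e18e18e8c, 0, 0xe182e142e142d4, 0xe182e182e182d4], [0, 0,
    0x68ee82eea42ee682d8, 0xe182e142e182d8, 0xe182e182e182d8], [0, 0, 0,
    0xe4e8c244eacc26ec88c2d4, 0x8828826ea88ae18826ea88aa8826ea88a6c5]]

noncomputable def n557 : Ent := ⟨e557, noF, [], [], [(7, 16, [1580044410770988437309982408355971841652082177953823432505691381761, 0]), (8, 14, [1685382413448253767852309107433119732572617628602273068445367185409, 0]), (8, 15, [1685356702439545624007900436039642273970977273354372543760002367489, 0])]⟩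

def c557 : PLift (Cov.check n557.C.D v557 = true) := ⟨by decide +kernel⟩

def b557 : PLift (entF (fidx ts) 400 557 n557 = true) := ⟨by decide +kernel⟩

theorem g557 : GoodF (fidx ts) 400 557 := GoodF.ofV v557 n557 c557.down b557.down

/-- 484674:481 -/
noncomputable def e558 : SCfg where
  D := {
    a := 6
    L := 10
    kp := 7
    inn := [(0, 1), (0, 3), (1, 0), (1, 2), (1, 3), (1, 4), (1, 5), (2, 1), (2, 4), (3, 0), (3, 1), (3,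
      4), (4, 1), (4, 2), (4, 3), (5, 1)]
    mix := [(0, 0), (0, 1), (1, 0), (1, 2), (1, 3), (2, 2), (2, 4), (3, 1), (3, 5), (3, 6), (4, 4), (4,
      6), (4, 7), (4, 8), (5, 0), (5, 3), (5, 9)]
    cl := [0, 1, 0, 2, 3, 4, 3, 5, 6, 7]
    chq := [(0, 4), (4, 0)]
    rng := [(0, 1), (0, 9), (1, 0), (1, 5), (2, 3), (2, 4), (3, 2), (3, 9), (4, 2), (4, 8), (5, 1), (5,
      6), (6, 5), (6, 7), (7, 6), (7, 8), (8, 4), (8, 7), (9, 0), (9, 3)]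
    lev := [] }
  links := [[1, 6, 7, 3], [6, 0, 3, 4, 2, 8, 9, 5], [8, 1, 4, 10], [4, 1, 0, 7, 11, 12], [10, 2, 1, 3,
    12, 13, 14], [6, 1, 9, 15]]
  P := {
    a := 6
    N := 16
    nb := [202, 893, 1298, 6291, 29710, 33346, 32931, 2121, 1542, 33058, 16660, 4232, 10264, 20496,
      9232, 608]
    tri := [(0, 1, 3), (0, 1, 6), (0, 3, 7), (0, 6, 7), (1, 2, 4), (1, 2, 8), (1, 3, 4), (1, 5, 6), (1,
      5, 9), (1, 8, 9), (2, 4, 10), (2, 8, 10), (3, 4, 12), (3, 7, 11), (3, 11, 12), (4, 10, 14),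
      (4, 12, 13), (4, 13, 14), (5, 6, 15), (5, 9, 15)]
    fin := [0, 0, 0, 0, 4, 0, 0, 7, 0, 9, 4, 11, 4, 13, 14, 15]
    chd := [(0, 11)]
    steps := [(0, 1), (0, 2), (0, 3), (0, 5), (0, 6), (0, 8), (4, 12), (4, 10)] }
  rep := [0, 7, 9, 4, 11, 13, 14, 15]

noncomputable def v558 : Cov.CovD where
  P := 3
  N := 5
  pl := [1, 3, 7, 8, 9]
  lev := [⟨[], [], [], [1], [(0, 0, [4])]⟩,
    ⟨[], [(0, 0)], [(0, 0)], [2], [(0, 0, [4]), (2, 0, [4])]⟩,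
    ⟨[(0, 1)], [(1, 0), (1, 3)], [(0, 3)], [], [(2, 0, [4]), (4, 3, [])]⟩,
    ⟨[(0, 1), (1, 2)], [(0, 0), (0, 3), (0, 4), (1, 0), (1, 3), (1, 4)], [(3, 4)], [1],
      [(5, 4, [0]), (6, 3, [])]⟩,
    ⟨[(0, 1), (0, 3), (1, 2), (1, 3), (2, 3)], [(1, 0), (1, 3), (2, 0), (2, 3), (3, 3), (3,
      4)], [(3, 3)], [5, 6], [(4, 3, []), (6, 3, [])]⟩,
    ⟨[(0, 1), (1, 2), (1, 3), (1, 4)], [(0, 0), (1, 0)], [], [2, 7], [(0, 0, [4])]⟩]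
  Ta := [((0, 1), 0, 1), ((0, 9), 0, 7), ((2, 3), 0, 2), ((2, 4), 0, 3), ((4, 2), 3, 0), ((4, 8),
    3, 6), ((6, 5), 3, 4), ((6, 7), 3, 5)]
  Tb := [((0, 1, 9), 0, 1, 7), ((1, 0, 5), 1, 0, 4), ((2, 3, 4), 0, 2, 3), ((3, 2, 9), 2, 0, 7),
    ((4, 2, 8), 3, 0, 6), ((5, 1, 6), 4, 1, 3), ((6, 5, 7), 3, 4, 5), ((7, 6, 8), 5, 3, 6),
    ((8, 4, 7), 6, 3, 5), ((9, 0, 3), 7, 0, 2)]
  Tc := []
  Td := [((0, 4), (0, 1), 1), ((0, 4), (0, 9), 7), ((0, 4), (2, 3), 2), ((0, 4), (2, 4), 3), ((4,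
    0), (5, 1), 1), ((4, 0), (5, 6), 3)]
  G := [[0, 0x4cccf24882888acc144cce4386, 0, 0x4411c1c8cd9118cc75ac8, 0x2211a14aa8e19aa1842c],
    [0, 0x4ccb2445cc3c4e684cc4188588acca88c3c6, 0, 0x11445411c8ccf98c8, 0xa2111111aaadd4a4],
    [0, 0, 0x666d16acb1684, 0x141411111b91138ac4, 0x11111d511111b9684], [0, 0, 0xaaaaf1248,
    0x11111111fd248, 0x11111111fd284]]

noncomputable def n558 : Ent := ⟨e558, noF, [], [], []⟩

def c558 : PLift (Cov.check n558.C.D v558 = true) := ⟨by decide +kernel⟩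

def b558 : PLift (entF (fidx ts) 400 558 n558 = true) := ⟨by decide +kernel⟩

theorem g558 : GoodF (fidx ts) 400 558 := GoodF.ofV v558 n558 c558.down b558.down

/-- 484674:483 -/
noncomputable def e559 : SCfg where
  D := {
    a := 6
    L := 10
    kp := 7
    inn := [(0, 1), (0, 3), (1, 0), (1, 2), (1, 3), (1, 4), (2, 1), (2, 4), (3, 0), (3, 1), (3, 4), (3,
      5), (4, 1), (4, 2), (4, 3), (5, 3)]
    mix := [(0, 0), (0, 1), (1, 0), (1, 2), (1, 3), (1, 4), (2, 2), (2, 5), (3, 1), (3, 6), (4, 5), (4,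
      6), (4, 7), (4, 8), (5, 1), (5, 6), (5, 9)]
    cl := [1, 3, 1, 4, 2, 0, 0, 5, 6, 7]
    chq := [(0, 3), (3, 0)]
    rng := [(0, 1), (0, 4), (1, 0), (1, 9), (2, 3), (2, 5), (3, 2), (3, 4), (4, 0), (4, 3), (5, 2), (5,
      8), (6, 7), (6, 9), (7, 6), (7, 8), (8, 5), (8, 7), (9, 1), (9, 6)]
    lev := [] }
  links := [[1, 6, 7, 3], [6, 0, 3, 4, 2, 8, 9, 10], [8, 1, 4, 11], [4, 1, 0, 7, 5, 12], [11, 2, 1, 3,
    12, 13, 14], [12, 3, 7, 15]]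
  P := {
    a := 6
    N := 16
    nb := [202, 1885, 2322, 4275, 30734, 37000, 1155, 32873, 2566, 1282, 578, 16660, 41016, 20496,
      10256, 4256]
    tri := [(0, 1, 3), (0, 1, 6), (0, 3, 7), (0, 6, 7), (1, 2, 4), (1, 2, 8), (1, 3, 4), (1, 6, 10),
      (1, 8, 9), (1, 9, 10), (2, 4, 11), (2, 8, 11), (3, 4, 12), (3, 5, 7), (3, 5, 12), (4, 11,
      14), (4, 12, 13), (4, 13, 14), (5, 7, 15), (5, 12, 15)]
    fin := [0, 0, 0, 0, 4, 5, 0, 5, 0, 9, 10, 4, 4, 13, 14, 15]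
    chd := [(5, 4)]
    steps := [(0, 1), (0, 2), (0, 3), (0, 6), (0, 8), (4, 12), (4, 11), (5, 7)] }
  rep := [4, 0, 10, 5, 9, 13, 14, 15]

noncomputable def v559 : Cov.CovD where
  P := 3
  N := 5
  pl := [3, 4, 7, 8, 9]
  lev := [⟨[], [], [(1, 3)], [], [(0, 1, []), (1, 3, [0])]⟩,
    ⟨[], [(0, 1), (0, 3)], [(1, 1)], [2, 4], [(0, 1, []), (2, 1, [])]⟩,
    ⟨[(0, 1)], [(1, 0), (1, 1)], [(0, 1)], [], [(2, 1, []), (5, 0, [3])]⟩,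
    ⟨[(0, 1), (1, 2)], [(0, 0), (0, 1), (0, 3), (1, 0), (1, 1), (1, 3)], [(0, 3)], [], [(1,
      3, [0]), (6, 0, [3])]⟩,
    ⟨[(0, 1), (0, 3), (1, 2), (1, 3), (2, 3)], [(1, 0), (1, 1), (2, 0), (2, 1), (3, 0), (3,
      3)], [(0, 0)], [5, 6], [(5, 0, [3]), (6, 0, [3])]⟩,
    ⟨[(0, 3), (1, 3), (3, 4)], [(0, 3), (3, 0), (3, 3), (4, 0)], [(0, 3)], [7], [(1, 3,
      [0]), (6, 0, [3])]⟩]
  Ta := [((0, 1), 1, 3), ((0, 4), 1, 2), ((2, 3), 1, 4), ((2, 5), 1, 0), ((5, 2), 0, 1), ((5, 8),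
    0, 6), ((6, 7), 0, 5), ((6, 9), 0, 7)]
  Tb := [((0, 1, 4), 1, 3, 2), ((1, 0, 9), 3, 1, 7), ((2, 3, 5), 1, 4, 0), ((3, 2, 4), 4, 1, 2),
    ((4, 0, 3), 2, 1, 4), ((5, 2, 8), 0, 1, 6), ((6, 7, 9), 0, 5, 7), ((7, 6, 8), 5, 0, 6),
    ((8, 5, 7), 6, 0, 5), ((9, 1, 6), 7, 3, 0)]
  Tc := []
  Td := [((0, 3), (5, 2), 1), ((0, 3), (5, 8), 6), ((0, 3), (6, 7), 5), ((0, 3), (6, 9), 7), ((3,
    0), (1, 0), 1), ((3, 0), (1, 9), 7)]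
  G := [[0, 0, 0x136c81d5ee414b1a16dee8c1, 0x7dde2477de28c1, 0x6ade28134cca151ee4111e186899],
    [0, 0x116111e18e211611a11ce2c1, 0xb7de24e7de28c1, 0, 0xa66c1cc81ed62b82c11a2893], [0, 0,
    0x426ae8eac8ee454cee82ae64ee1c1, 0x2222eecee122ee4e6a28cc1,
    0xaaa4642a1426c8eeae8ee1ea644aca82a95], [0, 0, 0x2222eecee12222eecee1c1, 0,
    0x626c8aa812222eecee4626ec6899]]

noncomputable def n559 : Ent := ⟨e559, noF, [], [], []⟩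

def c559 : PLift (Cov.check n559.C.D v559 = true) := ⟨by decide +kernel⟩

def b559 : PLift (entF (fidx ts) 400 559 n559 = true) := ⟨by decide +kernel⟩

theorem g559 : GoodF (fidx ts) 400 559 := GoodF.ofV v559 n559 c559.down b559.down

/-- 484674:484 -/
noncomputable def e560 : SCfg where
  D := {
    a := 6
    L := 10
    kp := 7
    inn := [(0, 1), (0, 3), (1, 0), (1, 2), (1, 3), (1, 4), (2, 1), (2, 4), (3, 0), (3, 1), (3, 4), (4,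
      1), (4, 2), (4, 3), (4, 5), (5, 4)]
    mix := [(0, 0), (0, 1), (1, 0), (1, 2), (1, 3), (1, 4), (2, 2), (2, 5), (3, 1), (3, 6), (3, 7), (4,
      5), (4, 7), (4, 8), (5, 7), (5, 8), (5, 9)]
    cl := [1, 2, 1, 5, 6, 0, 4, 0, 3, 7]
    chq := [(1, 4), (4, 1)]
    rng := [(0, 1), (0, 4), (1, 0), (1, 6), (2, 3), (2, 5), (3, 2), (3, 4), (4, 0), (4, 3), (5, 2), (5,
      8), (6, 1), (6, 7), (7, 6), (7, 9), (8, 5), (8, 9), (9, 7), (9, 8)]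
    lev := [] }
  links := [[1, 6, 7, 3], [6, 0, 3, 4, 2, 8, 9, 10], [8, 1, 4, 11], [4, 1, 0, 7, 12, 13], [11, 2, 1, 3,
    13, 5, 14], [14, 4, 13, 15]]
  P := {
    a := 6
    N := 16
    nb := [202, 1885, 2322, 12435, 26670, 57360, 1155, 4169, 2566, 1282, 578, 16660, 8328, 36920,
      34864, 24608]
    tri := [(0, 1, 3), (0, 1, 6), (0, 3, 7), (0, 6, 7), (1, 2, 4), (1, 2, 8), (1, 3, 4), (1, 6, 10),
      (1, 8, 9), (1, 9, 10), (2, 4, 11), (2, 8, 11), (3, 4, 13), (3, 7, 12), (3, 12, 13), (4, 5,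
      13), (4, 5, 14), (4, 11, 14), (5, 13, 15), (5, 14, 15)]
    fin := [0, 0, 0, 0, 4, 4, 0, 7, 0, 9, 10, 4, 12, 4, 14, 15]
    chd := [(0, 12)]
    steps := [(0, 1), (0, 2), (0, 3), (0, 6), (0, 8), (4, 5), (4, 13), (4, 11)] }
  rep := [4, 0, 7, 14, 12, 9, 10, 15]

noncomputable def v560 : Cov.CovD where
  P := 3
  N := 5
  pl := [1, 3, 4, 8, 9]
  lev := [⟨[], [], [], [2], [(0, 1, [4])]⟩,
    ⟨[], [(0, 1)], [(1, 1)], [5, 6], [(0, 1, [4]), (2, 1, [4])]⟩,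
    ⟨[(0, 1)], [(1, 0), (1, 1)], [(0, 1)], [], [(2, 1, [4]), (5, 0, [])]⟩,
    ⟨[(0, 1), (1, 2)], [(0, 0), (0, 1), (0, 4), (1, 0), (1, 1), (1, 4)], [(0, 4)], [2],
      [(6, 4, [1]), (7, 0, [])]⟩,
    ⟨[(0, 1), (0, 3), (1, 2), (1, 3), (2, 3)], [(1, 0), (1, 1), (2, 0), (2, 1), (3, 0), (3,
      4)], [(0, 0)], [3], [(5, 0, []), (7, 0, [])]⟩,
    ⟨[(1, 4), (2, 4), (3, 4)], [(3, 0), (4, 0)], [], [3, 7], [(7, 0, [])]⟩]
  Ta := [((0, 1), 1, 2), ((0, 4), 1, 6), ((2, 3), 1, 5), ((2, 5), 1, 0), ((5, 2), 0, 1), ((5, 8),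
    0, 3), ((7, 6), 0, 4), ((7, 9), 0, 7)]
  Tb := [((0, 1, 4), 1, 2, 6), ((1, 0, 6), 2, 1, 4), ((2, 3, 5), 1, 5, 0), ((3, 2, 4), 5, 1, 6),
    ((4, 0, 3), 6, 1, 5), ((5, 2, 8), 0, 1, 3), ((6, 1, 7), 4, 2, 0), ((7, 6, 9), 0, 4, 7),
    ((8, 5, 9), 3, 0, 7), ((9, 7, 8), 7, 0, 3)]
  Tc := []
  Td := [((1, 4), (0, 1), 2), ((1, 4), (0, 4), 6), ((1, 4), (2, 3), 5), ((1, 4), (2, 5), 0), ((4,
    1), (6, 1), 2), ((4, 1), (6, 7), 0)]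
  G := [[0, 0, 0xa29566471c28a1c22d8, 0x48ee14621c81a1a6c6ac4d4, 0x39c24a1c2216c22d1], [0,
    0xa21c41611611ac2a6c12e8, 0x39c2839c24539c248c, 0, 0x53c2439c28a1c24d1], [0, 0,
    0x42e24e6126c2882a5a222c86e18c, 0x8448a64eac448e48eec6ac148eec6ac4d1,
    0xe862142e24ea1a6c22d282828389], [0, 0, 0x62414822e8ea122c4aa1642a82cdc, 0,
    0x442822a8eac42e24ea1642a82cd1]]

noncomputable def n560 : Ent := ⟨e560, noF, [], [], []⟩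

def c560 : PLift (Cov.check n560.C.D v560 = true) := ⟨by decide +kernel⟩

def b560 : PLift (entF (fidx ts) 400 560 n560 = true) := ⟨by decide +kernel⟩

theorem g560 : GoodF (fidx ts) 400 560 := GoodF.ofV v560 n560 c560.down b560.down

/-- 484674:485 -/
noncomputable def e561 : SCfg where
  D := {
    a := 6
    L := 10
    kp := 7
    inn := [(0, 1), (0, 3), (1, 0), (1, 2), (1, 3), (1, 4), (2, 1), (2, 4), (3, 0), (3, 1), (3, 4), (4,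
      1), (4, 2), (4, 3), (4, 5), (5, 4)]
    mix := [(0, 0), (0, 1), (1, 0), (1, 2), (1, 3), (1, 4), (2, 2), (2, 5), (3, 1), (3, 6), (3, 7), (4,
      5), (4, 7), (4, 8), (5, 5), (5, 8), (5, 9)]
    cl := [1, 2, 1, 5, 6, 0, 4, 0, 3, 7]
    chq := [(1, 4), (4, 1)]
    rng := [(0, 1), (0, 4), (1, 0), (1, 6), (2, 3), (2, 5), (3, 2), (3, 4), (4, 0), (4, 3), (5, 2), (5,
      9), (6, 1), (6, 7), (7, 6), (7, 8), (8, 7), (8, 9), (9, 5), (9, 8)]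
    lev := [] }
  links := [[1, 6, 7, 3], [6, 0, 3, 4, 2, 8, 9, 10], [8, 1, 4, 11], [4, 1, 0, 7, 12, 13], [11, 2, 1, 3,
    13, 14, 5], [11, 4, 14, 15]]
  P := {
    a := 6
    N := 16
    nb := [202, 1885, 2322, 12435, 26670, 51216, 1155, 4169, 2566, 1282, 578, 33076, 8328, 20504,
      41008, 18464]
    tri := [(0, 1, 3), (0, 1, 6), (0, 3, 7), (0, 6, 7), (1, 2, 4), (1, 2, 8), (1, 3, 4), (1, 6, 10),
      (1, 8, 9), (1, 9, 10), (2, 4, 11), (2, 8, 11), (3, 4, 13), (3, 7, 12), (3, 12, 13), (4, 5,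
      11), (4, 5, 14), (4, 13, 14), (5, 11, 15), (5, 14, 15)]
    fin := [0, 0, 0, 0, 4, 4, 0, 7, 0, 9, 10, 4, 12, 4, 14, 15]
    chd := [(0, 12)]
    steps := [(0, 1), (0, 2), (0, 3), (0, 6), (0, 8), (4, 5), (4, 13), (4, 11)] }
  rep := [4, 0, 7, 14, 12, 9, 10, 15]

noncomputable def v561 : Cov.CovD where
  P := 3
  N := 5
  pl := [1, 3, 4, 8, 9]
  lev := [⟨[], [], [], [2], [(0, 1, [4])]⟩,
    ⟨[], [(0, 1)], [(1, 1)], [5, 6], [(0, 1, [4]), (2, 1, [4])]⟩,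
    ⟨[(0, 1)], [(1, 0), (1, 1)], [(0, 1)], [], [(2, 1, [4]), (5, 0, [])]⟩,
    ⟨[(0, 1), (1, 2)], [(0, 0), (0, 1), (0, 4), (1, 0), (1, 1), (1, 4)], [(0, 4)], [2],
      [(6, 4, [1]), (7, 0, [])]⟩,
    ⟨[(0, 1), (0, 3), (1, 2), (1, 3), (2, 3)], [(1, 0), (1, 1), (2, 0), (2, 1), (3, 0), (3,
      4)], [(0, 0)], [3], [(5, 0, []), (7, 0, [])]⟩,
    ⟨[(1, 4), (2, 4), (3, 4)], [(2, 0), (4, 0)], [], [3, 7], [(5, 0, [])]⟩]
  Ta := [((0, 1), 1, 2), ((0, 4), 1, 6), ((2, 3), 1, 5), ((2, 5), 1, 0), ((5, 2), 0, 1), ((5, 9),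
    0, 7), ((7, 6), 0, 4), ((7, 8), 0, 3)]
  Tb := [((0, 1, 4), 1, 2, 6), ((1, 0, 6), 2, 1, 4), ((2, 3, 5), 1, 5, 0), ((3, 2, 4), 5, 1, 6),
    ((4, 0, 3), 6, 1, 5), ((5, 2, 9), 0, 1, 7), ((6, 1, 7), 4, 2, 0), ((7, 6, 8), 0, 4, 3),
    ((8, 7, 9), 3, 0, 7), ((9, 5, 8), 7, 0, 3)]
  Tc := []
  Td := [((1, 4), (0, 1), 2), ((1, 4), (0, 4), 6), ((1, 4), (2, 3), 5), ((1, 4), (2, 5), 0), ((4,
    1), (6, 1), 2), ((4, 1), (6, 7), 0)]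
  G := [[0, 0, 0x626248e882a482e866282aa6c229c, 0xa21c416c6a148a6c6ac4486d8,
    0x8a61441648ee18a6c22d8], [0, 0xa21c416c6a14a6c12e8, 0x24242e4aac4a2c46a28ca2a2c4e89c, 0,
    0x8a614822e8ea894418c6a14ca], [0, 0, 0x6421a1c2293c22d18228c,
    0x95616ac416a416a8c1a653ac8d1, 0x35c221bc221bc24d1], [0, 0, 0x71c241212ac82971c28d4, 0,
    0x1826425142a82971c28d1]]

noncomputable def n561 : Ent := ⟨e561, noF, [], [], []⟩

def c561 : PLift (Cov.check n561.C.D v561 = true) := ⟨by decide +kernel⟩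

def b561 : PLift (entF (fidx ts) 400 561 n561 = true) := ⟨by decide +kernel⟩

theorem g561 : GoodF (fidx ts) 400 561 := GoodF.ofV v561 n561 c561.down b561.down

/-- 484644:493/1 -/
noncomputable def e562 : SCfg where
  D := {
    a := 6
    L := 8
    kp := 5
    inn := [(0, 1), (0, 3), (1, 0), (1, 2), (1, 3), (1, 5), (2, 1), (3, 0), (3, 1), (3, 4), (4, 3), (5,
      1)]
    mix := [(0, 0), (0, 1), (1, 0), (1, 2), (1, 3), (1, 4), (2, 2), (2, 3), (2, 5), (3, 1), (3, 2), (3,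
      6), (4, 1), (4, 6), (4, 7), (5, 0), (5, 4), (5, 7)]
    cl := [1, 0, 0, 1, 3, 5, 4, 2]
    chq := []
    rng := [(0, 1), (0, 7), (1, 0), (1, 7), (2, 5), (2, 6), (3, 4), (3, 5), (4, 3), (4, 7), (5, 2), (5,
      3), (6, 2), (6, 7), (7, 0), (7, 1), (7, 4), (7, 6)]
    lev := [] }
  links := [[1, 6, 7, 3], [6, 0, 3, 8, 2, 9, 10, 5], [9, 1, 8, 11], [8, 1, 0, 7, 4, 12], [12, 3, 7, 13],
    [6, 1, 10, 13]]
  P := {
    a := 6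
    N := 14
    nb := [202, 1901, 2818, 4499, 12424, 9282, 8355, 8281, 6158, 3078, 8738, 772, 8472, 5360]
    tri := [(0, 1, 3), (0, 1, 6), (0, 3, 7), (0, 6, 7), (1, 2, 8), (1, 2, 9), (1, 3, 8), (1, 5, 6), (1,
      5, 10), (1, 9, 10), (2, 8, 11), (2, 9, 11), (3, 4, 7), (3, 4, 12), (3, 8, 12), (4, 7, 13),
      (4, 12, 13), (5, 6, 13), (5, 10, 13)]
    fin := [0, 0, 0, 3, 3, 0, 0, 3, 3, 0, 10, 11, 12, 13]
    chd := []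
    steps := [(0, 1), (0, 2), (0, 5), (0, 6), (0, 9), (3, 4), (3, 7), (3, 8)] }
  rep := [3, 0, 13, 10, 12, 11]

noncomputable def v562 : Cov.CovD where
  P := 3
  N := 3
  pl := [4, 5, 6, 7]
  lev := [⟨[], [], [(0, 1)], [], [(0, 1, []), (1, 0, [])]⟩,
    ⟨[], [(0, 0), (0, 1)], [(0, 1), (1, 1)], [3], [(0, 1, []), (2, 0, []), (3, 1, [])]⟩,
    ⟨[(0, 1)], [(1, 0), (1, 1)], [(0, 1)], [5], [(2, 0, []), (3, 1, [])]⟩,
    ⟨[(0, 1), (1, 2)], [(0, 0), (0, 1), (1, 0), (1, 1), (2, 0)], [(0, 0)], [4], [(1, 0,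
      []), (2, 0, [])]⟩,
    ⟨[(0, 3), (1, 3)], [(0, 0), (3, 0)], [], [2, 4], [(1, 0, [])]⟩,
    ⟨[(0, 1), (1, 2), (1, 3)], [(0, 1), (1, 0), (1, 1)], [], [2, 3], [(0, 1, [])]⟩]
  Ta := [((0, 1), 1, 0), ((0, 7), 1, 2), ((1, 0), 0, 1), ((1, 7), 0, 2), ((2, 5), 0, 5), ((2, 6),
    0, 4), ((3, 4), 1, 3), ((3, 5), 1, 5)]
  Tb := [((0, 1, 7), 1, 0, 2), ((1, 0, 7), 0, 1, 2), ((2, 5, 6), 0, 5, 4), ((3, 4, 5), 1, 3, 5),
    ((4, 3, 7), 3, 1, 2), ((5, 2, 3), 5, 0, 1), ((6, 2, 7), 4, 0, 2), ((7, 0, 1), 2, 1, 0),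
    ((7, 0, 4), 2, 1, 3), ((7, 0, 6), 2, 1, 4), ((7, 1, 4), 2, 0, 3), ((7, 1, 6), 2, 0, 4),
    ((7, 4, 6), 2, 3, 4)]
  Tc := []
  Td := []
  G := [[0, 0x88c284464424844aac888e2, 0xc4c2a218, 0x44c2288c2258, 0x88a419812a2c4], [0, 0,
    0x2422614442a1c8, 0, 0x11a4128a261c8], [0, 0, 0, 0x1152244522c8, 0x889429811a2c4], [0, 0,
    0, 0, 0x11348894c89822a1822ac43]]

noncomputable def n562 : Ent := ⟨e562, noF, [], [], []⟩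

def c562 : PLift (Cov.check n562.C.D v562 = true) := ⟨by decide +kernel⟩

def b562 : PLift (entF (fidx ts) 400 562 n562 = true) := ⟨by decide +kernel⟩

theorem g562 : GoodF (fidx ts) 400 562 := GoodF.ofV v562 n562 c562.down b562.down

/-- 484644:493 -/
noncomputable def e563 : SCfg where
  D := {
    a := 6
    L := 9
    kp := 6
    inn := [(0, 1), (0, 3), (1, 0), (1, 2), (1, 3), (1, 5), (2, 1), (3, 0), (3, 1), (3, 4), (4, 3), (5,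
      1)]
    mix := [(0, 0), (0, 1), (1, 0), (1, 2), (1, 3), (1, 4), (2, 2), (2, 3), (2, 5), (3, 1), (3, 2), (3,
      6), (4, 1), (4, 6), (4, 7), (5, 0), (5, 4), (5, 8)]
    cl := [1, 0, 0, 1, 2, 4, 3, 5, 6]
    chq := []
    rng := [(0, 1), (0, 8), (1, 0), (1, 7), (2, 5), (2, 6), (3, 4), (3, 5), (4, 3), (4, 8), (5, 2), (5,
      3), (6, 2), (6, 7), (7, 1), (7, 6), (8, 0), (8, 4)]
    lev := [] }
  links := [[1, 6, 7, 3], [6, 0, 3, 8, 2, 9, 10, 5], [9, 1, 8, 11], [8, 1, 0, 7, 4, 12], [12, 3, 7, 13],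
    [6, 1, 10, 14]]
  P := {
    a := 6
    N := 15
    nb := [202, 1901, 2818, 4499, 12424, 17474, 16547, 8281, 6158, 3078, 16930, 772, 8472, 4240, 1120]
    tri := [(0, 1, 3), (0, 1, 6), (0, 3, 7), (0, 6, 7), (1, 2, 8), (1, 2, 9), (1, 3, 8), (1, 5, 6), (1,
      5, 10), (1, 9, 10), (2, 8, 11), (2, 9, 11), (3, 4, 7), (3, 4, 12), (3, 8, 12), (4, 7, 13),
      (4, 12, 13), (5, 6, 14), (5, 10, 14)]
    fin := [0, 0, 0, 3, 3, 0, 0, 3, 3, 0, 10, 11, 12, 13, 14]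
    chd := []
    steps := [(0, 1), (0, 2), (0, 5), (0, 6), (0, 9), (3, 4), (3, 7), (3, 8)] }
  rep := [3, 0, 10, 12, 11, 13, 14]

noncomputable def v563 : Cov.CovD where
  P := 3
  N := 4
  pl := [4, 5, 6, 7, 8]
  lev := [⟨[], [], [(0, 1)], [], [(0, 1, []), (1, 0, [])]⟩,
    ⟨[], [(0, 0), (0, 1)], [(0, 1), (1, 1)], [2], [(0, 1, []), (2, 0, []), (3, 1, [])]⟩,
    ⟨[(0, 1)], [(1, 0), (1, 1)], [(0, 1)], [4], [(2, 0, []), (3, 1, [])]⟩,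
    ⟨[(0, 1), (1, 2)], [(0, 0), (0, 1), (1, 0), (1, 1), (2, 0)], [(0, 0)], [3], [(1, 0,
      []), (2, 0, [])]⟩,
    ⟨[(0, 3), (1, 3)], [(0, 0), (3, 0)], [], [3, 5], [(1, 0, [])]⟩,
    ⟨[(0, 1), (1, 2), (1, 3)], [(0, 1), (1, 0), (1, 1)], [], [2, 6], [(0, 1, [])]⟩]
  Ta := [((0, 1), 1, 0), ((0, 8), 1, 6), ((1, 0), 0, 1), ((1, 7), 0, 5), ((2, 5), 0, 4), ((2, 6),
    0, 3), ((3, 4), 1, 2), ((3, 5), 1, 4)]
  Tb := [((0, 1, 8), 1, 0, 6), ((1, 0, 7), 0, 1, 5), ((2, 5, 6), 0, 4, 3), ((3, 4, 5), 1, 2, 4),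
    ((4, 3, 8), 2, 1, 6), ((5, 2, 3), 4, 0, 1), ((6, 2, 7), 3, 0, 5), ((7, 1, 6), 5, 0, 3),
    ((8, 0, 4), 6, 1, 2)]
  Tc := []
  Td := []
  G := [[0, 0xcca248ccc4cc646cca82c6, 0x44c8cccee18482c4, 0, 0x11c11a6288c88a6298], [0, 0,
    0x22c22a6188, 0x55c55a6188, 0x22c22a6188], [0, 0, 0xcc9cc36284, 0, 0x9199a6284], [0, 0,
    0x21226a21226ac48, 0x54c891e491996a8c4, 0x2122a621226ac84]]

noncomputable def n563 : Ent := ⟨e563, noF, [], [], [(13, 14, [81620716623019490593592230936445690773474979418095885688833, 0])]⟩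

def c563 : PLift (Cov.check n563.C.D v563 = true) := ⟨by decide +kernel⟩

def b563 : PLift (entF (fidx ts) 400 563 n563 = true) := ⟨by decide +kernel⟩

theorem g563 : GoodF (fidx ts) 400 563 := GoodF.ofV v563 n563 c563.down b563.down

/-- 457745:500/2 -/
noncomputable def e564 : SCfg where
  D := {
    a := 6
    L := 9
    kp := 6
    inn := [(0, 1), (0, 2), (1, 0), (1, 2), (2, 0), (2, 1), (2, 3), (3, 2), (3, 4), (3, 5), (4, 3), (5,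
      3)]
    mix := [(0, 0), (0, 1), (1, 1), (1, 2), (1, 3), (2, 0), (2, 3), (2, 4), (2, 5), (3, 0), (3, 5), (3,
      6), (3, 7), (4, 5), (4, 6), (4, 8), (5, 0), (5, 1), (5, 2), (5, 7)]
    cl := [0, 1, 4, 3, 5, 0, 2, 0, 6]
    chq := [(0, 3), (1, 3), (3, 0), (3, 1)]
    rng := [(0, 1), (1, 0), (1, 2), (2, 1), (2, 3), (2, 7), (3, 2), (3, 4), (4, 3), (4, 5), (5, 4), (5,
      8), (6, 7), (6, 8), (7, 2), (7, 6), (8, 5), (8, 6)]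
    lev := [] }
  links := [[1, 2, 6, 7], [2, 0, 7, 8, 9], [6, 0, 1, 9, 10, 11, 3], [6, 2, 11, 4, 12, 13, 5], [12, 3, 11,
    14], [6, 3, 13, 8, 7]]
  P := {
    a := 6
    N := 15
    nb := [198, 901, 3659, 14452, 22536, 8648, 173, 355, 8866, 1286, 2564, 17436, 24600, 4392, 6160]
    tri := [(0, 1, 2), (0, 1, 7), (0, 2, 6), (0, 6, 7), (1, 2, 9), (1, 7, 8), (1, 8, 9), (2, 3, 6), (2,
      3, 11), (2, 9, 10), (2, 10, 11), (3, 4, 11), (3, 4, 12), (3, 5, 6), (3, 5, 13), (3, 12, 13),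
      (4, 11, 14), (4, 12, 14), (5, 6, 7), (5, 7, 8), (5, 8, 13)]
    fin := [0, 1, 0, 0, 0, 0, 0, 1, 8, 9, 10, 0, 12, 0, 14]
    chd := [(0, 9), (1, 9)]
    steps := [(0, 2), (0, 3), (0, 4), (0, 6), (0, 5), (0, 11), (0, 13), (1, 7)] }
  rep := [0, 1, 12, 9, 8, 10, 14]

noncomputable def v564 : Cov.CovD where
  P := 3
  N := 4
  pl := [2, 4, 6, 8]
  lev := [⟨[], [], [(0, 1)], [], [(0, 0, [3]), (1, 1, [3])]⟩,
    ⟨[], [(0, 0), (0, 1), (0, 3)], [(1, 3)], [4], [(1, 1, [3]), (3, 3, [0, 1])]⟩,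
    ⟨[(0, 1)], [(0, 0), (0, 1), (0, 3), (1, 0), (1, 1), (1, 3)], [(0, 0), (0, 3)], [5],
      [(0, 0, [3]), (3, 3, [0, 1]), (5, 0, [3])]⟩,
    ⟨[(0, 2), (1, 2)], [(0, 0), (2, 0), (2, 3)], [(0, 0)], [2], [(0, 0, [3]), (5, 0, [3]),
      (7, 0, [3])]⟩,
    ⟨[(2, 3)], [(2, 0), (3, 0)], [], [2, 6], [(5, 0, [3])]⟩,
    ⟨[(2, 3), (3, 4)], [(0, 0), (0, 1), (1, 1), (2, 0), (3, 0), (3, 1)], [(0, 0), (0, 1)],
      [4], [(0, 0, [3]), (1, 1, [3]), (7, 0, [3])]⟩]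
  Ta := [((0, 1), 0, 1), ((5, 4), 0, 5), ((5, 8), 0, 6), ((7, 2), 0, 4), ((7, 6), 0, 2)]
  Tb := [((1, 0, 2), 1, 0, 4), ((2, 1, 3), 4, 1, 3), ((2, 1, 7), 4, 1, 0), ((2, 3, 7), 4, 3, 0),
    ((3, 2, 4), 3, 4, 5), ((4, 3, 5), 5, 3, 0), ((5, 4, 8), 0, 5, 6), ((6, 7, 8), 2, 0, 6),
    ((7, 2, 6), 0, 4, 2), ((8, 5, 6), 6, 0, 2)]
  Tc := [(3, 0, 1)]
  Td := [((0, 3), (0, 1), 1), ((0, 3), (5, 4), 5), ((0, 3), (5, 8), 6), ((0, 3), (7, 2), 4), ((0,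
    3), (7, 6), 2), ((1, 3), (1, 0), 0), ((1, 3), (1, 2), 4), ((3, 0), (3, 2), 4), ((3, 0),
    (3, 4), 5), ((3, 1), (3, 2), 4), ((3, 1), (3, 4), 5)]
  G := [[0, 0x814218414e414818214ea414418814e46, 0, 0xc14c18c18e18, 0xc12c12c18e14], [0, 0, 0,
    0xc8c44cc88c4cc88ce144881c, 0xcca2cca2c2c8ae14], [0, 0, 0xcca2ccc2cc68e14,
    0x41841864814818a414818c14e9c, 0x412818c12e1812818a4128126c9]]

noncomputable def n564 : Ent := ⟨e564, noF, [], [], []⟩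

def c564 : PLift (Cov.check n564.C.D v564 = true) := ⟨by decide +kernel⟩

def b564 : PLift (entF (fidx ts) 400 564 n564 = true) := ⟨by decide +kernel⟩

theorem g564 : GoodF (fidx ts) 400 564 := GoodF.ofV v564 n564 c564.down b564.down

/-- 457745:500/1 -/
noncomputable def e565 : SCfg where
  D := {
    a := 6
    L := 10
    kp := 7
    inn := [(0, 1), (0, 2), (1, 0), (1, 2), (2, 0), (2, 1), (2, 3), (3, 2), (3, 4), (3, 5), (4, 3), (5,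
      3)]
    mix := [(0, 0), (0, 1), (1, 1), (1, 2), (1, 3), (2, 0), (2, 3), (2, 4), (2, 5), (3, 0), (3, 5), (3,
      6), (3, 7), (4, 5), (4, 6), (4, 8), (5, 0), (5, 1), (5, 7), (5, 9)]
    cl := [0, 1, 5, 3, 4, 0, 2, 0, 6, 7]
    chq := [(1, 3), (1, 4), (3, 1), (4, 1)]
    rng := [(0, 1), (1, 0), (1, 2), (1, 9), (2, 1), (2, 3), (3, 2), (3, 4), (4, 3), (4, 5), (5, 4), (5,
      8), (6, 7), (6, 8), (7, 6), (7, 9), (8, 5), (8, 6), (9, 1), (9, 7)]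
    lev := [] }
  links := [[1, 2, 6, 7], [2, 0, 7, 8, 9], [6, 0, 1, 9, 10, 11, 3], [6, 2, 11, 4, 12, 13, 5], [12, 3, 11,
    14], [6, 3, 13, 15, 7]]
  P := {
    a := 6
    N := 16
    nb := [198, 901, 3659, 14452, 22536, 41160, 173, 33123, 642, 1286, 2564, 17436, 24600, 36904,
      6160, 8352]
    tri := [(0, 1, 2), (0, 1, 7), (0, 2, 6), (0, 6, 7), (1, 2, 9), (1, 7, 8), (1, 8, 9), (2, 3, 6), (2,
      3, 11), (2, 9, 10), (2, 10, 11), (3, 4, 11), (3, 4, 12), (3, 5, 6), (3, 5, 13), (3, 12, 13),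
      (4, 11, 14), (4, 12, 14), (5, 6, 7), (5, 7, 15), (5, 13, 15)]
    fin := [0, 1, 1, 0, 0, 0, 0, 1, 8, 9, 10, 0, 12, 0, 14, 15]
    chd := [(1, 9), (1, 10)]
    steps := [(0, 6), (0, 3), (0, 4), (0, 5), (0, 11), (0, 13), (1, 2), (1, 7)] }
  rep := [0, 1, 12, 9, 10, 8, 14, 15]

noncomputable def v565 : Cov.CovD where
  P := 3
  N := 5
  pl := [2, 6, 8, 9]
  lev := [⟨[], [], [(0, 1)], [], [(0, 0, []), (1, 1, [3, 4])]⟩,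
    ⟨[], [(0, 0), (0, 1), (0, 3)], [(1, 3)], [5], [(1, 1, [3, 4]), (3, 3, [1])]⟩,
    ⟨[(0, 1)], [(0, 0), (0, 1), (0, 3), (0, 4), (1, 0), (1, 1), (1, 3), (1, 4)], [(0, 0),
      (0, 3), (0, 4), (3, 4)], [], [(0, 0, []), (3, 3, [1]), (4, 4, [1]), (5, 0, [])]⟩,
    ⟨[(0, 2), (1, 2)], [(0, 0), (2, 0), (2, 3), (2, 4)], [(0, 0)], [2], [(0, 0, []), (5, 0,
      []), (7, 0, [])]⟩,
    ⟨[(2, 3)], [(2, 0), (3, 0)], [], [2, 6], [(5, 0, [])]⟩,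
    ⟨[(2, 3), (3, 4)], [(0, 0), (0, 1), (1, 1), (2, 0), (3, 0), (3, 1)], [(0, 0), (0, 1)],
      [7], [(0, 0, []), (1, 1, [3, 4]), (7, 0, [])]⟩]
  Ta := [((0, 1), 0, 1), ((5, 4), 0, 4), ((5, 8), 0, 6), ((7, 6), 0, 2), ((7, 9), 0, 7)]
  Tb := [((1, 0, 2), 1, 0, 5), ((1, 0, 9), 1, 0, 7), ((1, 2, 9), 1, 5, 7), ((2, 1, 3), 5, 1, 3),
    ((3, 2, 4), 3, 5, 4), ((4, 3, 5), 4, 3, 0), ((5, 4, 8), 0, 4, 6), ((6, 7, 8), 2, 0, 6),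
    ((7, 6, 9), 0, 2, 7), ((8, 5, 6), 6, 0, 2), ((9, 1, 7), 7, 1, 0)]
  Tc := [(1, 3, 4)]
  Td := [((1, 3), (1, 0), 0), ((1, 3), (1, 2), 5), ((1, 3), (1, 9), 7), ((1, 4), (1, 0), 0), ((1,
    4), (1, 2), 5), ((1, 4), (1, 9), 7), ((3, 1), (3, 2), 5), ((3, 1), (3, 4), 4), ((4, 1),
    (4, 3), 3), ((4, 1), (4, 5), 0)]
  G := [[0, 0xa14618614e2c14a14c14e618c18c18eca, 0, 0xc182c182c142d8, 0xc182c182c182d4], [0, 0,
    0, 0xc4c8c24cc88c2c4c8c2d8, 0x6ca88a26ca88a22cac8a2d4], [0, 0, 0xcca42cca42cc682d4,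
    0xc142c142c182d4, 0xc182c182c182d8]]

noncomputable def n565 : Ent := ⟨e565, noF, [], [], [(8, 15, [360035742630636841211993100915356868655746945586763691009982465, 0])]⟩

def c565 : PLift (Cov.check n565.C.D v565 = true) := ⟨by decide +kernel⟩

def b565 : PLift (entF (fidx ts) 400 565 n565 = true) := ⟨by decide +kernel⟩

theorem g565 : GoodF (fidx ts) 400 565 := GoodF.ofV v565 n565 c565.down b565.down

/-- 457745:500/3 -/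
noncomputable def e566 : SCfg where
  D := {
    a := 6
    L := 10
    kp := 7
    inn := [(0, 1), (0, 2), (1, 0), (1, 2), (2, 0), (2, 1), (2, 3), (3, 2), (3, 4), (3, 5), (4, 3), (5,
      3)]
    mix := [(0, 0), (0, 1), (1, 1), (1, 2), (1, 3), (2, 0), (2, 3), (2, 4), (2, 5), (3, 0), (3, 5), (3,
      6), (3, 7), (4, 5), (4, 6), (4, 8), (5, 0), (5, 2), (5, 7), (5, 9)]
    cl := [0, 1, 4, 3, 5, 0, 2, 0, 6, 7]
    chq := [(0, 3), (1, 3), (3, 0), (3, 1)]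
    rng := [(0, 1), (0, 9), (1, 0), (1, 2), (2, 1), (2, 3), (2, 7), (2, 9), (3, 2), (3, 4), (4, 3), (4,
      5), (5, 4), (5, 8), (6, 7), (6, 8), (7, 2), (7, 6), (8, 5), (8, 6), (9, 0), (9, 2)]
    lev := [] }
  links := [[1, 2, 6, 7], [2, 0, 7, 8, 9], [6, 0, 1, 9, 10, 11, 3], [6, 2, 11, 4, 12, 13, 5], [12, 3, 11,
    14], [6, 3, 13, 8, 15]]
  P := {
    a := 6
    N := 16
    nb := [198, 901, 3659, 14452, 22536, 41288, 32941, 323, 41634, 1286, 2564, 17436, 24600, 4392,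
      6160, 352]
    tri := [(0, 1, 2), (0, 1, 7), (0, 2, 6), (0, 6, 7), (1, 2, 9), (1, 7, 8), (1, 8, 9), (2, 3, 6), (2,
      3, 11), (2, 9, 10), (2, 10, 11), (3, 4, 11), (3, 4, 12), (3, 5, 6), (3, 5, 13), (3, 12, 13),
      (4, 11, 14), (4, 12, 14), (5, 6, 15), (5, 8, 13), (5, 8, 15)]
    fin := [0, 1, 0, 0, 0, 0, 0, 1, 8, 9, 10, 0, 12, 0, 14, 15]
    chd := [(0, 9), (1, 9)]
    steps := [(0, 2), (0, 3), (0, 4), (0, 5), (0, 6), (0, 11), (0, 13), (1, 7)] }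
  rep := [0, 1, 12, 9, 8, 10, 14, 15]

noncomputable def v566 : Cov.CovD where
  P := 3
  N := 5
  pl := [2, 4, 6, 8, 9]
  lev := [⟨[], [], [(0, 1)], [], [(0, 0, [3]), (1, 1, [3])]⟩,
    ⟨[], [(0, 0), (0, 1), (0, 3)], [(1, 3)], [4], [(1, 1, [3]), (3, 3, [0, 1])]⟩,
    ⟨[(0, 1)], [(0, 0), (0, 1), (0, 3), (1, 0), (1, 1), (1, 3)], [(0, 0), (0, 3)], [5],
      [(0, 0, [3]), (3, 3, [0, 1]), (5, 0, [3])]⟩,
    ⟨[(0, 2), (1, 2)], [(0, 0), (2, 0), (2, 3)], [(0, 0)], [2], [(0, 0, [3]), (5, 0, [3]),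
      (7, 0, [3])]⟩,
    ⟨[(2, 3)], [(2, 0), (3, 0)], [], [2, 6], [(5, 0, [3])]⟩,
    ⟨[(2, 3), (3, 4)], [(0, 0), (2, 0), (3, 0)], [(0, 0)], [4, 7], [(0, 0, [3]), (7, 0,
      [3])]⟩]
  Ta := [((0, 1), 0, 1), ((0, 9), 0, 7), ((5, 4), 0, 5), ((5, 8), 0, 6), ((7, 2), 0, 4), ((7, 6),
    0, 2)]
  Tb := [((0, 1, 9), 0, 1, 7), ((1, 0, 2), 1, 0, 4), ((2, 1, 3), 4, 1, 3), ((2, 1, 7), 4, 1, 0),
    ((2, 1, 9), 4, 1, 7), ((2, 3, 7), 4, 3, 0), ((2, 3, 9), 4, 3, 7), ((2, 7, 9), 4, 0, 7),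
    ((3, 2, 4), 3, 4, 5), ((4, 3, 5), 5, 3, 0), ((5, 4, 8), 0, 5, 6), ((6, 7, 8), 2, 0, 6),
    ((7, 2, 6), 0, 4, 2), ((8, 5, 6), 6, 0, 2), ((9, 0, 2), 7, 0, 4)]
  Tc := [(3, 0, 1)]
  Td := [((0, 3), (0, 1), 1), ((0, 3), (0, 9), 7), ((0, 3), (5, 4), 5), ((0, 3), (5, 8), 6), ((0,
    3), (7, 2), 4), ((0, 3), (7, 6), 2), ((1, 3), (1, 0), 0), ((1, 3), (1, 2), 4), ((3, 0),
    (3, 2), 4), ((3, 0), (3, 4), 5), ((3, 1), (3, 2), 4), ((3, 1), (3, 4), 5)]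
  G := [[0, 0x614e18c14e4e14a18c14e618a18e18eac, 0, 0xe14e18e18e14, 0xe12e12e18e18], [0, 0, 0,
    0x8844144eacc6ec86ec88ce1c, 0x22ecaae2e8a2eac8ae14], [0, 0, 0xeec2eec2c2ee4e14,
    0x614a14e18e1c14a14a618c186c9, 0x618a12e18e1a12a18a6126186c5]]

noncomputable def n566 : Ent := ⟨e566, noF, [], [], [(7, 15, [360035742630636841211993100915356868655746945586763691009982465, 0])]⟩

def c566 : PLift (Cov.check n566.C.D v566 = true) := ⟨by decide +kernel⟩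

def b566 : PLift (entF (fidx ts) 400 566 n566 = true) := ⟨by decide +kernel⟩

theorem g566 : GoodF (fidx ts) 400 566 := GoodF.ofV v566 n566 c566.down b566.down

/-- 457745:500 -/
noncomputable def e567 : SCfg where
  D := {
    a := 6
    L := 11
    kp := 8
    inn := [(0, 1), (0, 2), (1, 0), (1, 2), (2, 0), (2, 1), (2, 3), (3, 2), (3, 4), (3, 5), (4, 3), (5,
      3)]
    mix := [(0, 0), (0, 1), (1, 1), (1, 2), (1, 3), (2, 0), (2, 3), (2, 4), (2, 5), (3, 0), (3, 5), (3,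
      6), (3, 7), (4, 5), (4, 6), (4, 8), (5, 0), (5, 7), (5, 9), (5, 10)]
    cl := [0, 1, 5, 3, 4, 0, 2, 0, 6, 7, 8]
    chq := [(1, 3), (1, 4), (3, 1), (4, 1)]
    rng := [(0, 1), (0, 10), (1, 0), (1, 2), (2, 1), (2, 3), (3, 2), (3, 4), (4, 3), (4, 5), (5, 4),
      (5, 8), (6, 7), (6, 8), (7, 6), (7, 9), (8, 5), (8, 6), (9, 7), (9, 10), (10, 0), (10, 9)]
    lev := [] }
  links := [[1, 2, 6, 7], [2, 0, 7, 8, 9], [6, 0, 1, 9, 10, 11, 3], [6, 2, 11, 4, 12, 13, 5], [12, 3, 11,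
    14], [6, 3, 13, 15, 16]]
  P := {
    a := 6
    N := 17
    nb := [198, 901, 3659, 14452, 22536, 106568, 65709, 323, 642, 1286, 2564, 17436, 24600, 36904,
      6160, 73760, 32864]
    tri := [(0, 1, 2), (0, 1, 7), (0, 2, 6), (0, 6, 7), (1, 2, 9), (1, 7, 8), (1, 8, 9), (2, 3, 6), (2,
      3, 11), (2, 9, 10), (2, 10, 11), (3, 4, 11), (3, 4, 12), (3, 5, 6), (3, 5, 13), (3, 12, 13),
      (4, 11, 14), (4, 12, 14), (5, 6, 16), (5, 13, 15), (5, 15, 16)]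
    fin := [0, 1, 1, 0, 0, 0, 0, 1, 8, 9, 10, 0, 12, 0, 14, 15, 16]
    chd := [(1, 9), (1, 10)]
    steps := [(0, 6), (0, 3), (0, 4), (0, 5), (0, 11), (0, 13), (1, 2), (1, 7)] }
  rep := [0, 1, 12, 9, 10, 8, 14, 15, 16]

noncomputable def v567 : Cov.CovD where
  P := 3
  N := 6
  pl := [2, 6, 8, 9, 10]
  lev := [⟨[], [], [(0, 1)], [], [(0, 0, []), (1, 1, [3, 4])]⟩,
    ⟨[], [(0, 0), (0, 1), (0, 3)], [(1, 3)], [5], [(1, 1, [3, 4]), (3, 3, [1])]⟩,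
    ⟨[(0, 1)], [(0, 0), (0, 1), (0, 3), (0, 4), (1, 0), (1, 1), (1, 3), (1, 4)], [(0, 0),
      (0, 3), (0, 4), (3, 4)], [], [(0, 0, []), (3, 3, [1]), (4, 4, [1]), (5, 0, [])]⟩,
    ⟨[(0, 2), (1, 2)], [(0, 0), (2, 0), (2, 3), (2, 4)], [(0, 0)], [2], [(0, 0, []), (5, 0,
      []), (7, 0, [])]⟩,
    ⟨[(2, 3)], [(2, 0), (3, 0)], [], [2, 6], [(5, 0, [])]⟩,
    ⟨[(2, 3), (3, 4)], [(0, 0), (2, 0), (3, 0)], [(0, 0)], [7, 8], [(0, 0, []), (7, 0,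
      [])]⟩]
  Ta := [((0, 1), 0, 1), ((0, 10), 0, 8), ((5, 4), 0, 4), ((5, 8), 0, 6), ((7, 6), 0, 2), ((7,
    9), 0, 7)]
  Tb := [((0, 1, 10), 0, 1, 8), ((1, 0, 2), 1, 0, 5), ((2, 1, 3), 5, 1, 3), ((3, 2, 4), 3, 5, 4),
    ((4, 3, 5), 4, 3, 0), ((5, 4, 8), 0, 4, 6), ((6, 7, 8), 2, 0, 6), ((7, 6, 9), 0, 2, 7),
    ((8, 5, 6), 6, 0, 2), ((9, 7, 10), 7, 0, 8), ((10, 0, 9), 8, 0, 7)]
  Tc := [(1, 3, 4)]
  Td := [((1, 3), (1, 0), 0), ((1, 3), (1, 2), 5), ((1, 4), (1, 0), 0), ((1, 4), (1, 2), 5), ((3,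
    1), (3, 2), 5), ((3, 1), (3, 4), 4), ((4, 1), (4, 3), 3), ((4, 1), (4, 5), 0)]
  G := [[0, 0xe14e18e18ee14e18e18e6e14e18e18e8c, 0, 0xe182e142e142d4, 0xe182e182e182d4], [0, 0,
    0, 0x6ec88c2e4e8c26ec88c2d4, 0x6ea88a28826ea88a68828826ea88aed88288a], [0, 0,
    0xeea42eea42ee682d4, 0xe142e182e142d8, 0xe182e182e182d8]]

noncomputable def n567 : Ent := ⟨e567, noF, [], [], [(7, 16, [1580044410770988437309982408355971841652082177953823432505691426817, 0]), (8, 15, [1685356702439545624007900436039642273970977273354372543760002408449, 0])]⟩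

def c567 : PLift (Cov.check n567.C.D v567 = true) := ⟨by decide +kernel⟩

def b567 : PLift (entF (fidx ts) 400 567 n567 = true) := ⟨by decide +kernel⟩

theorem g567 : GoodF (fidx ts) 400 567 := GoodF.ofV v567 n567 c567.down b567.down

/-- 457754:503/2 -/
noncomputable def e568 : SCfg where
  D := {
    a := 6
    L := 9
    kp := 6
    inn := [(0, 1), (0, 2), (1, 0), (1, 2), (2, 0), (2, 1), (2, 3), (3, 2), (3, 4), (4, 3), (4, 5), (5,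
      4)]
    mix := [(0, 0), (0, 1), (1, 1), (1, 2), (1, 3), (2, 0), (2, 3), (2, 4), (2, 5), (3, 0), (3, 5), (3,
      6), (3, 7), (3, 8), (4, 0), (4, 1), (4, 8), (5, 1), (5, 2), (5, 8)]
    cl := [0, 1, 3, 4, 2, 0, 5, 6, 0]
    chq := [(1, 2), (2, 1), (2, 3), (3, 2)]
    rng := [(0, 1), (1, 0), (1, 2), (2, 1), (2, 3), (2, 8), (3, 2), (3, 4), (4, 3), (4, 5), (5, 4), (5,
      6), (6, 5), (6, 7), (7, 6), (7, 8), (8, 2), (8, 7)]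
    lev := [] }
  links := [[1, 2, 6, 7], [2, 0, 7, 8, 9], [6, 0, 1, 9, 10, 11, 3], [6, 2, 11, 12, 13, 14, 4], [6, 3, 14,
    5, 7], [7, 4, 14, 8]]
  P := {
    a := 6
    N := 15
    nb := [198, 901, 3659, 30804, 16616, 16784, 157, 371, 17058, 1286, 2564, 5132, 10248, 20488, 8504]
    tri := [(0, 1, 2), (0, 1, 7), (0, 2, 6), (0, 6, 7), (1, 2, 9), (1, 7, 8), (1, 8, 9), (2, 3, 6), (2,
      3, 11), (2, 9, 10), (2, 10, 11), (3, 4, 6), (3, 4, 14), (3, 11, 12), (3, 12, 13), (3, 13,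
      14), (4, 5, 7), (4, 5, 14), (4, 6, 7), (5, 7, 8), (5, 8, 14)]
    fin := [0, 1, 2, 3, 3, 3, 3, 0, 1, 9, 2, 3, 12, 13, 3]
    chd := [(0, 2), (1, 2)]
    steps := [(0, 7), (1, 8), (2, 10), (3, 4), (3, 5), (3, 6), (3, 11), (3, 14)] }
  rep := [3, 0, 2, 1, 9, 12, 13]

noncomputable def v568 : Cov.CovD where
  P := 3
  N := 4
  pl := [3, 6, 7]
  lev := [⟨[], [], [(0, 1)], [], [(0, 0, []), (1, 1, [2])]⟩,
    ⟨[], [(0, 0), (0, 1), (0, 3)], [(1, 3)], [4], [(1, 1, [2]), (2, 3, [2])]⟩,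
    ⟨[(0, 1)], [(0, 0), (0, 1), (0, 2), (1, 0), (1, 1), (1, 2), (1, 3)], [(0, 0), (0, 2)],
      [4], [(0, 0, []), (4, 2, [1, 3]), (5, 0, [])]⟩,
    ⟨[(0, 2), (1, 2)], [(0, 0), (2, 0), (2, 2)], [(0, 0)], [5, 6], [(0, 0, []), (5, 0, []),
      (8, 0, [])]⟩,
    ⟨[(2, 3)], [(0, 0), (0, 1), (1, 1), (2, 0), (3, 0), (3, 1)], [(0, 0), (0, 1)], [], [(0,
      0, []), (1, 1, [2]), (8, 0, [])]⟩,
    ⟨[(3, 4)], [(0, 1), (1, 1), (1, 3), (3, 0), (4, 0), (4, 1), (4, 3)], [(0, 1), (0, 3),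
      (1, 3)], [], [(1, 1, [2]), (2, 3, [2]), (8, 0, [])]⟩]
  Ta := [((0, 1), 0, 1), ((5, 4), 0, 2), ((5, 6), 0, 5), ((8, 2), 0, 3), ((8, 7), 0, 6)]
  Tb := [((1, 0, 2), 1, 0, 3), ((2, 1, 3), 3, 1, 4), ((2, 1, 8), 3, 1, 0), ((2, 3, 8), 3, 4, 0),
    ((3, 2, 4), 4, 3, 2), ((4, 3, 5), 2, 4, 0), ((5, 4, 6), 0, 2, 5), ((6, 5, 7), 5, 0, 6),
    ((7, 6, 8), 6, 5, 0), ((8, 2, 7), 0, 3, 6)]
  Tc := [(2, 1, 3)]
  Td := [((1, 2), (1, 0), 0), ((1, 2), (1, 2), 3), ((2, 1), (4, 3), 4), ((2, 1), (4, 5), 0), ((2,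
    3), (4, 3), 4), ((2, 3), (4, 5), 0), ((3, 2), (2, 1), 1), ((3, 2), (2, 3), 4), ((3, 2),
    (2, 8), 0)]
  G := [[0, 0x2444244ac28a224e4684846288c622244e8ac, 0, 0x141461418ac1224c234,
    0x181814e24144818e81c], [0, 0, 0x181814e181818e618, 0x141418e141818ec21,
    0x14814486a114146148a45], [0, 0, 0, 0x8242c4c8c4ec4c4ac244274,
    0x484848e21484844e2c4c8c8e484844eac9]]

noncomputable def n568 : Ent := ⟨e568, noF, [], [], []⟩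

def c568 : PLift (Cov.check n568.C.D v568 = true) := ⟨by decide +kernel⟩

def b568 : PLift (entF (fidx ts) 400 568 n568 = true) := ⟨by decide +kernel⟩

theorem g568 : GoodF (fidx ts) 400 568 := GoodF.ofV v568 n568 c568.down b568.down

/-- 457754:503/1 -/
noncomputable def e569 : SCfg where
  D := {
    a := 6
    L := 10
    kp := 7
    inn := [(0, 1), (0, 2), (1, 0), (1, 2), (2, 0), (2, 1), (2, 3), (3, 2), (3, 4), (4, 3), (4, 5), (5,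
      4)]
    mix := [(0, 0), (0, 1), (1, 1), (1, 2), (1, 3), (2, 0), (2, 3), (2, 4), (2, 5), (3, 0), (3, 5), (3,
      6), (3, 7), (3, 8), (4, 0), (4, 1), (4, 8), (5, 1), (5, 8), (5, 9)]
    cl := [0, 3, 4, 1, 2, 0, 5, 6, 0, 7]
    chq := [(2, 3), (2, 4), (3, 2), (4, 2)]
    rng := [(0, 1), (1, 0), (1, 2), (1, 9), (2, 1), (2, 3), (3, 2), (3, 4), (4, 3), (4, 5), (5, 4), (5,
      6), (6, 5), (6, 7), (7, 6), (7, 8), (8, 7), (8, 9), (9, 1), (9, 8)]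
    lev := [] }
  links := [[1, 2, 6, 7], [2, 0, 7, 8, 9], [6, 0, 1, 9, 10, 11, 3], [6, 2, 11, 12, 13, 14, 4], [6, 3, 14,
    5, 7], [7, 4, 14, 15]]
  P := {
    a := 6
    N := 16
    nb := [198, 901, 3659, 30804, 16616, 49296, 157, 33139, 642, 1286, 2564, 5132, 10248, 20488,
      41016, 16544]
    tri := [(0, 1, 2), (0, 1, 7), (0, 2, 6), (0, 6, 7), (1, 2, 9), (1, 7, 8), (1, 8, 9), (2, 3, 6), (2,
      3, 11), (2, 9, 10), (2, 10, 11), (3, 4, 6), (3, 4, 14), (3, 11, 12), (3, 12, 13), (3, 13,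
      14), (4, 5, 7), (4, 5, 14), (4, 6, 7), (5, 7, 15), (5, 14, 15)]
    fin := [0, 1, 2, 3, 3, 3, 3, 0, 1, 9, 2, 3, 12, 13, 3, 15]
    chd := [(0, 2), (1, 2)]
    steps := [(0, 7), (1, 8), (2, 10), (3, 4), (3, 5), (3, 6), (3, 11), (3, 14)] }
  rep := [3, 9, 2, 0, 1, 12, 13, 15]

noncomputable def v569 : Cov.CovD where
  P := 3
  N := 5
  pl := [3, 6, 7, 9]
  lev := [⟨[], [], [(0, 3)], [], [(0, 0, []), (1, 3, [2])]⟩,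
    ⟨[], [(0, 0), (0, 3), (0, 4)], [(3, 4)], [1], [(1, 3, [2]), (2, 4, [2])]⟩,
    ⟨[(0, 1)], [(0, 0), (0, 2), (0, 3), (1, 0), (1, 2), (1, 3), (1, 4)], [(0, 0), (0, 2)],
      [1], [(0, 0, []), (4, 2, [3, 4]), (5, 0, [])]⟩,
    ⟨[(0, 2), (1, 2)], [(0, 0), (2, 0), (2, 2)], [(0, 0)], [5, 6], [(0, 0, []), (5, 0, []),
      (8, 0, [])]⟩,
    ⟨[(2, 3)], [(0, 0), (0, 3), (1, 3), (2, 0), (3, 0), (3, 3)], [(0, 0), (0, 3)], [], [(0,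
      0, []), (1, 3, [2]), (8, 0, [])]⟩,
    ⟨[(3, 4)], [(0, 3), (1, 3), (3, 0), (4, 0), (4, 3)], [(0, 3)], [7], [(1, 3, [2]), (8,
      0, [])]⟩]
  Ta := [((0, 1), 0, 3), ((5, 4), 0, 2), ((5, 6), 0, 5), ((8, 7), 0, 6), ((8, 9), 0, 7)]
  Tb := [((1, 0, 2), 3, 0, 4), ((1, 0, 9), 3, 0, 7), ((1, 2, 9), 3, 4, 7), ((2, 1, 3), 4, 3, 1),
    ((3, 2, 4), 1, 4, 2), ((4, 3, 5), 2, 1, 0), ((5, 4, 6), 0, 2, 5), ((6, 5, 7), 5, 0, 6),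
    ((7, 6, 8), 6, 5, 0), ((8, 7, 9), 0, 6, 7), ((9, 1, 8), 7, 3, 0)]
  Tc := [(2, 3, 4)]
  Td := [((2, 3), (4, 3), 1), ((2, 3), (4, 5), 0), ((2, 4), (4, 3), 1), ((2, 4), (4, 5), 0), ((3,
    2), (1, 0), 0), ((3, 2), (1, 2), 4), ((3, 2), (1, 9), 7), ((4, 2), (2, 1), 3), ((4, 2),
    (2, 3), 1)]
  G := [[0, 0x18a858e42641492e82c, 0, 0x78a8d2e4626264e8121212e8d2,
    0x18c8684148814885d26212e84e], [0, 0x11c11a11ae421, 0x141814e81121212e416,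
    0x181212e4121414e8121212e8d2, 0x11611c11ae841], [0, 0xca6c6aa6ce421, 0,
    0xa2a8a8e46462246e8e2e2a6ce4d2, 0xca6c6aa6ce841]]

noncomputable def n569 : Ent := ⟨e569, noF, [], [], [(8, 15, [360035742630636841211993100915356868655746945586763691009998849, 0])]⟩

def c569 : PLift (Cov.check n569.C.D v569 = true) := ⟨by decide +kernel⟩

def b569 : PLift (entF (fidx ts) 400 569 n569 = true) := ⟨by decide +kernel⟩

theorem g569 : GoodF (fidx ts) 400 569 := GoodF.ofV v569 n569 c569.down b569.down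

/-- 457754:503/3 -/
noncomputable def e570 : SCfg where
  D := {
    a := 6
    L := 10
    kp := 7
    inn := [(0, 1), (0, 2), (1, 0), (1, 2), (2, 0), (2, 1), (2, 3), (3, 2), (3, 4), (4, 3), (4, 5), (5,
      4)]
    mix := [(0, 0), (0, 1), (1, 1), (1, 2), (1, 3), (2, 0), (2, 3), (2, 4), (2, 5), (3, 0), (3, 5), (3,
      6), (3, 7), (3, 8), (4, 0), (4, 8), (4, 9), (5, 2), (5, 8), (5, 9)]
    cl := [0, 3, 1, 2, 5, 0, 6, 7, 0, 4]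
    chq := [(1, 5), (3, 5), (5, 1), (5, 3)]
    rng := [(0, 1), (0, 9), (1, 0), (1, 2), (2, 1), (2, 3), (2, 8), (2, 9), (3, 2), (3, 4), (4, 3), (4,
      5), (5, 4), (5, 6), (6, 5), (6, 7), (7, 6), (7, 8), (8, 2), (8, 7), (9, 0), (9, 2)]
    lev := [] }
  links := [[1, 2, 6, 7], [2, 0, 7, 8, 9], [6, 0, 1, 9, 10, 11, 3], [6, 2, 11, 12, 13, 14, 4], [6, 3, 14,
    5, 15], [15, 4, 14, 8]]
  P := {
    a := 6
    N := 16
    nb := [198, 901, 3659, 30804, 49256, 49424, 32925, 323, 49826, 1286, 2564, 5132, 10248, 20488,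
      8504, 368]
    tri := [(0, 1, 2), (0, 1, 7), (0, 2, 6), (0, 6, 7), (1, 2, 9), (1, 7, 8), (1, 8, 9), (2, 3, 6), (2,
      3, 11), (2, 9, 10), (2, 10, 11), (3, 4, 6), (3, 4, 14), (3, 11, 12), (3, 12, 13), (3, 13,
      14), (4, 5, 14), (4, 5, 15), (4, 6, 15), (5, 8, 14), (5, 8, 15)]
    fin := [0, 1, 1, 0, 0, 0, 0, 7, 8, 9, 1, 0, 12, 13, 0, 15]
    chd := [(7, 1), (8, 1)]
    steps := [(0, 6), (0, 3), (0, 4), (0, 5), (0, 11), (0, 14), (1, 2), (1, 10)] }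
  rep := [0, 8, 9, 7, 15, 1, 12, 13]

noncomputable def v570 : Cov.CovD where
  P := 3
  N := 5
  pl := [3, 6, 7, 9]
  lev := [⟨[], [], [(0, 3)], [], [(0, 0, []), (1, 3, [5])]⟩,
    ⟨[], [(0, 0), (0, 1), (0, 3)], [(1, 3)], [2], [(1, 3, [5]), (2, 1, [5])]⟩,
    ⟨[(0, 1)], [(0, 0), (0, 3), (0, 5), (1, 0), (1, 1), (1, 3), (1, 5)], [(0, 0), (0, 5)],
      [2], [(0, 0, []), (4, 5, [1, 3]), (5, 0, [])]⟩,
    ⟨[(0, 2), (1, 2)], [(0, 0), (2, 0), (2, 5)], [(0, 0)], [6, 7], [(0, 0, []), (5, 0, []),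
      (8, 0, [])]⟩,
    ⟨[(2, 3)], [(0, 0), (2, 0), (3, 0)], [(0, 0)], [4], [(0, 0, []), (8, 0, [])]⟩,
    ⟨[(3, 4)], [(1, 1), (3, 0), (4, 0), (4, 1)], [(0, 1)], [4], [(2, 1, [5]), (8, 0, [])]⟩]
  Ta := [((0, 1), 0, 3), ((0, 9), 0, 4), ((5, 4), 0, 5), ((5, 6), 0, 6), ((8, 2), 0, 1), ((8, 7),
    0, 7)]
  Tb := [((0, 1, 9), 0, 3, 4), ((1, 0, 2), 3, 0, 1), ((2, 1, 3), 1, 3, 2), ((2, 1, 8), 1, 3, 0),
    ((2, 1, 9), 1, 3, 4), ((2, 3, 8), 1, 2, 0), ((2, 3, 9), 1, 2, 4), ((2, 8, 9), 1, 0, 4),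
    ((3, 2, 4), 2, 1, 5), ((4, 3, 5), 5, 2, 0), ((5, 4, 6), 0, 5, 6), ((6, 5, 7), 6, 0, 7),
    ((7, 6, 8), 7, 6, 0), ((8, 2, 7), 0, 1, 7), ((9, 0, 2), 4, 0, 1)]
  Tc := [(5, 1, 3)]
  Td := [((1, 5), (2, 1), 3), ((1, 5), (2, 3), 2), ((1, 5), (2, 8), 0), ((1, 5), (2, 9), 4), ((3,
    5), (1, 0), 0), ((3, 5), (1, 2), 1), ((5, 1), (4, 3), 2), ((5, 1), (4, 5), 0), ((5, 3),
    (4, 3), 2), ((5, 3), (4, 5), 0)]
  G := [[0, 0, 0x486214c816c6852241a14a14ea4c, 0x925284ce44169292e8c2,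
    0x14c41a14ce25228a84c214c81aca1c], [0, 0, 0x816281611ac611611c84ae8c1,
    0x121212e121212ec12, 0x11a11a81ce21816116c8114a281e], [0, 0x42642a24ce448684a82ce8c1,
    0x84c24868c6c684c248684acac1, 0xc2c2486e4c2c2c2e8c1, 0x48684a84ce2148684a84ce81a]]

noncomputable def n570 : Ent := ⟨e570, noF, [], [], [(7, 15, [360035742630636841211993100915356868655746945586763691009998849, 0])]⟩

def c570 : PLift (Cov.check n570.C.D v570 = true) := ⟨by decide +kernel⟩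

def b570 : PLift (entF (fidx ts) 400 570 n570 = true) := ⟨by decide +kernel⟩

theorem g570 : GoodF (fidx ts) 400 570 := GoodF.ofV v570 n570 c570.down b570.down

/-- 457754:503 -/
noncomputable def e571 : SCfg where
  D := {
    a := 6
    L := 11
    kp := 8
    inn := [(0, 1), (0, 2), (1, 0), (1, 2), (2, 0), (2, 1), (2, 3), (3, 2), (3, 4), (4, 3), (4, 5), (5,
      4)]
    mix := [(0, 0), (0, 1), (1, 1), (1, 2), (1, 3), (2, 0), (2, 3), (2, 4), (2, 5), (3, 0), (3, 5), (3,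
      6), (3, 7), (3, 8), (4, 0), (4, 8), (4, 9), (5, 8), (5, 9), (5, 10)]
    cl := [0, 3, 5, 1, 2, 0, 6, 7, 0, 4, 8]
    chq := [(2, 3), (2, 5), (3, 2), (5, 2)]
    rng := [(0, 1), (0, 9), (1, 0), (1, 2), (2, 1), (2, 3), (3, 2), (3, 4), (4, 3), (4, 5), (5, 4), (5,
      6), (6, 5), (6, 7), (7, 6), (7, 8), (8, 7), (8, 10), (9, 0), (9, 10), (10, 8), (10, 9)]
    lev := [] }
  links := [[1, 2, 6, 7], [2, 0, 7, 8, 9], [6, 0, 1, 9, 10, 11, 3], [6, 2, 11, 12, 13, 14, 4], [6, 3, 14,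
    5, 15], [15, 4, 14, 16]]
  P := {
    a := 6
    N := 17
    nb := [198, 901, 3659, 30804, 49256, 114704, 32925, 323, 642, 1286, 2564, 5132, 10248, 20488,
      73784, 65648, 49184]
    tri := [(0, 1, 2), (0, 1, 7), (0, 2, 6), (0, 6, 7), (1, 2, 9), (1, 7, 8), (1, 8, 9), (2, 3, 6), (2,
      3, 11), (2, 9, 10), (2, 10, 11), (3, 4, 6), (3, 4, 14), (3, 11, 12), (3, 12, 13), (3, 13,
      14), (4, 5, 14), (4, 5, 15), (4, 6, 15), (5, 14, 16), (5, 15, 16)]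
    fin := [0, 1, 1, 0, 0, 0, 0, 7, 8, 9, 1, 0, 12, 13, 0, 15, 16]
    chd := [(7, 1), (8, 1)]
    steps := [(0, 6), (0, 3), (0, 4), (0, 5), (0, 11), (0, 14), (1, 2), (1, 10)] }
  rep := [0, 9, 1, 7, 15, 8, 12, 13, 16]

noncomputable def v571 : Cov.CovD where
  P := 3
  N := 6
  pl := [3, 6, 7, 9, 10]
  lev := [⟨[], [], [(0, 3)], [], [(0, 0, []), (1, 3, [2])]⟩,
    ⟨[], [(0, 0), (0, 3), (0, 5)], [(3, 5)], [1], [(1, 3, [2]), (2, 5, [2])]⟩,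
    ⟨[(0, 1)], [(0, 0), (0, 2), (0, 3), (1, 0), (1, 2), (1, 3), (1, 5)], [(0, 0), (0, 2)],
      [1], [(0, 0, []), (4, 2, [3, 5]), (5, 0, [])]⟩,
    ⟨[(0, 2), (1, 2)], [(0, 0), (2, 0), (2, 2)], [(0, 0)], [6, 7], [(0, 0, []), (5, 0, []),
      (8, 0, [])]⟩,
    ⟨[(2, 3)], [(0, 0), (2, 0), (3, 0)], [(0, 0)], [4], [(0, 0, []), (8, 0, [])]⟩,
    ⟨[(3, 4)], [(3, 0), (4, 0)], [], [4, 8], [(8, 0, [])]⟩]
  Ta := [((0, 1), 0, 3), ((0, 9), 0, 4), ((5, 4), 0, 2), ((5, 6), 0, 6), ((8, 7), 0, 7), ((8,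
    10), 0, 8)]
  Tb := [((0, 1, 9), 0, 3, 4), ((1, 0, 2), 3, 0, 5), ((2, 1, 3), 5, 3, 1), ((3, 2, 4), 1, 5, 2),
    ((4, 3, 5), 2, 1, 0), ((5, 4, 6), 0, 2, 6), ((6, 5, 7), 6, 0, 7), ((7, 6, 8), 7, 6, 0),
    ((8, 7, 10), 0, 7, 8), ((9, 0, 10), 4, 0, 8), ((10, 8, 9), 8, 0, 4)]
  Tc := [(2, 3, 5)]
  Td := [((2, 3), (4, 3), 1), ((2, 3), (4, 5), 0), ((2, 5), (4, 3), 1), ((2, 5), (4, 5), 0), ((3,
    2), (1, 0), 0), ((3, 2), (1, 2), 5), ((5, 2), (2, 1), 3), ((5, 2), (2, 3), 1)]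
  G := [[0, 0x1a693ac1ae421a61a6c16e82c, 0, 0x1a6c1a1dae4a1c439c35aac1a6a1c16ce8d2,
    0x16a93c6841a688b1688559616a596e84e], [0, 0x11611611ce821, 0x11a11a11ae4111c11a116e41a,
    0x11c11a116e411611c116e811611a11ce4d2, 0x11611611ce841], [0, 0xca6c6aa6ce421, 0,
    0xca6c6aa6ce4ca6c6aa6ce8ca6c6aa6ce8d2, 0xca6c6aa6ce841]]

noncomputable def n571 : Ent := ⟨e571, noF, [], [], [(7, 15, [1685356702439545624007900436039642273970977273354372543760002420737, 0]), (8, 16, [1580044410770988437309982408355971841652082177953823432505691447297, 0])]⟩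

def c571 : PLift (Cov.check n571.C.D v571 = true) := ⟨by decide +kernel⟩

def b571 : PLift (entF (fidx ts) 400 571 n571 = true) := ⟨by decide +kernel⟩

theorem g571 : GoodF (fidx ts) 400 571 := GoodF.ofV v571 n571 c571.down b571.down

/-- 457754:504/2 -/
noncomputable def e572 : SCfg where
  D := {
    a := 6
    L := 9
    kp := 6
    inn := [(0, 1), (0, 2), (1, 0), (1, 2), (2, 0), (2, 1), (2, 3), (3, 2), (3, 4), (4, 3), (4, 5), (5,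
      4)]
    mix := [(0, 0), (0, 1), (1, 1), (1, 2), (1, 3), (2, 0), (2, 3), (2, 4), (2, 5), (3, 0), (3, 5), (3,
      6), (3, 7), (3, 8), (4, 0), (4, 2), (4, 8), (5, 0), (5, 1), (5, 2)]
    cl := [0, 3, 1, 2, 4, 0, 5, 6, 0]
    chq := [(1, 4), (3, 4), (4, 1), (4, 3)]
    rng := [(0, 1), (1, 0), (1, 2), (2, 1), (2, 3), (2, 8), (3, 2), (3, 4), (4, 3), (4, 5), (5, 4), (5,
      6), (6, 5), (6, 7), (7, 6), (7, 8), (8, 2), (8, 7)]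
    lev := [] }
  links := [[1, 2, 6, 7], [2, 0, 7, 8, 9], [6, 0, 1, 9, 10, 11, 3], [6, 2, 11, 12, 13, 14, 4], [6, 3, 14,
    8, 5], [6, 4, 8, 7]]
  P := {
    a := 6
    N := 15
    nb := [198, 901, 3659, 30804, 16744, 464, 189, 355, 17074, 1286, 2564, 5132, 10248, 20488, 8472]
    tri := [(0, 1, 2), (0, 1, 7), (0, 2, 6), (0, 6, 7), (1, 2, 9), (1, 7, 8), (1, 8, 9), (2, 3, 6), (2,
      3, 11), (2, 9, 10), (2, 10, 11), (3, 4, 6), (3, 4, 14), (3, 11, 12), (3, 12, 13), (3, 13,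
      14), (4, 5, 6), (4, 5, 8), (4, 8, 14), (5, 6, 7), (5, 7, 8)]
    fin := [0, 1, 1, 0, 0, 0, 0, 7, 8, 9, 1, 0, 12, 13, 0]
    chd := [(7, 1), (8, 1)]
    steps := [(0, 6), (0, 3), (0, 4), (0, 5), (0, 11), (0, 14), (1, 2), (1, 10)] }
  rep := [0, 8, 9, 7, 1, 12, 13]

noncomputable def v572 : Cov.CovD where
  P := 3
  N := 4
  pl := [3, 6, 7]
  lev := [⟨[], [], [(0, 3)], [], [(0, 0, []), (1, 3, [4])]⟩,
    ⟨[], [(0, 0), (0, 1), (0, 3)], [(1, 3)], [2], [(1, 3, [4]), (2, 1, [4])]⟩,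
    ⟨[(0, 1)], [(0, 0), (0, 3), (0, 4), (1, 0), (1, 1), (1, 3), (1, 4)], [(0, 0), (0, 4)],
      [2], [(0, 0, []), (4, 4, [1, 3]), (5, 0, [])]⟩,
    ⟨[(0, 2), (1, 2)], [(0, 0), (2, 0), (2, 4)], [(0, 0)], [5, 6], [(0, 0, []), (5, 0, []),
      (8, 0, [])]⟩,
    ⟨[(2, 3)], [(0, 0), (1, 1), (2, 0), (3, 0), (3, 1)], [(0, 0), (0, 1)], [], [(0, 0, []),
      (2, 1, [4]), (8, 0, [])]⟩,
    ⟨[(3, 4)], [(0, 0), (0, 3), (1, 1), (1, 3), (2, 0), (3, 0), (4, 0), (4, 1), (4, 3)],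
      [(0, 1), (0, 3), (1, 3)], [], [(0, 0, []), (1, 3, [4]), (2, 1, [4])]⟩]
  Ta := [((0, 1), 0, 3), ((5, 4), 0, 4), ((5, 6), 0, 5), ((8, 2), 0, 1), ((8, 7), 0, 6)]
  Tb := [((1, 0, 2), 3, 0, 1), ((2, 1, 3), 1, 3, 2), ((2, 1, 8), 1, 3, 0), ((2, 3, 8), 1, 2, 0),
    ((3, 2, 4), 2, 1, 4), ((4, 3, 5), 4, 2, 0), ((5, 4, 6), 0, 4, 5), ((6, 5, 7), 5, 0, 6),
    ((7, 6, 8), 6, 5, 0), ((8, 2, 7), 0, 1, 6)]
  Tc := [(4, 1, 3)]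
  Td := [((1, 4), (2, 1), 3), ((1, 4), (2, 3), 2), ((1, 4), (2, 8), 0), ((3, 4), (1, 0), 0), ((3,
    4), (1, 2), 1), ((4, 1), (4, 3), 2), ((4, 1), (4, 5), 0), ((4, 3), (4, 3), 2), ((4, 3),
    (4, 5), 0)]
  G := [[0, 0, 0x8828488c684424848ca4c, 0xc48884e444c844e8c2, 0x848888e28828a4424848ca1c], [0,
    0, 0x1421814c681424814ca4c, 0x441418e188814ec12, 0x142141488ea1141418e81c], [0,
    0xc28284e444c844e8c1, 0x8428484c64824848cac1, 0x188888e41441814e81c,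
    0x181814e211414c2118281e]]

noncomputable def n572 : Ent := ⟨e572, noF, [], [], []⟩

def c572 : PLift (Cov.check n572.C.D v572 = true) := ⟨by decide +kernel⟩

def b572 : PLift (entF (fidx ts) 400 572 n572 = true) := ⟨by decide +kernel⟩

theorem g572 : GoodF (fidx ts) 400 572 := GoodF.ofV v572 n572 c572.down b572.down

/-- 457754:504/1 -/
noncomputable def e573 : SCfg where
  D := {
    a := 6
    L := 10
    kp := 7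
    inn := [(0, 1), (0, 2), (1, 0), (1, 2), (2, 0), (2, 1), (2, 3), (3, 2), (3, 4), (4, 3), (4, 5), (5,
      4)]
    mix := [(0, 0), (0, 1), (1, 1), (1, 2), (1, 3), (2, 0), (2, 3), (2, 4), (2, 5), (3, 0), (3, 5), (3,
      6), (3, 7), (3, 8), (4, 0), (4, 8), (4, 9), (5, 0), (5, 1), (5, 9)]
    cl := [0, 3, 5, 1, 2, 0, 6, 7, 0, 4]
    chq := [(2, 3), (2, 5), (3, 2), (5, 2)]
    rng := [(0, 1), (1, 0), (1, 2), (1, 9), (2, 1), (2, 3), (3, 2), (3, 4), (4, 3), (4, 5), (5, 4), (5,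
      6), (6, 5), (6, 7), (7, 6), (7, 8), (8, 7), (8, 9), (9, 1), (9, 8)]
    lev := [] }
  links := [[1, 2, 6, 7], [2, 0, 7, 8, 9], [6, 0, 1, 9, 10, 11, 3], [6, 2, 11, 12, 13, 14, 4], [6, 3, 14,
    15, 5], [6, 4, 15, 7]]
  P := {
    a := 6
    N := 16
    nb := [198, 901, 3659, 30804, 49256, 32976, 189, 33123, 642, 1286, 2564, 5132, 10248, 20488,
      40984, 16560]
    tri := [(0, 1, 2), (0, 1, 7), (0, 2, 6), (0, 6, 7), (1, 2, 9), (1, 7, 8), (1, 8, 9), (2, 3, 6), (2,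
      3, 11), (2, 9, 10), (2, 10, 11), (3, 4, 6), (3, 4, 14), (3, 11, 12), (3, 12, 13), (3, 13,
      14), (4, 5, 6), (4, 5, 15), (4, 14, 15), (5, 6, 7), (5, 7, 15)]
    fin := [0, 1, 2, 3, 3, 3, 3, 0, 1, 9, 2, 3, 12, 13, 3, 15]
    chd := [(0, 2), (1, 2)]
    steps := [(0, 7), (1, 8), (2, 10), (3, 4), (3, 5), (3, 6), (3, 11), (3, 14)] }
  rep := [3, 9, 2, 0, 15, 1, 12, 13]

noncomputable def v573 : Cov.CovD where
  P := 3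
  N := 5
  pl := [3, 6, 7, 9]
  lev := [⟨[], [], [(0, 3)], [], [(0, 0, []), (1, 3, [2])]⟩,
    ⟨[], [(0, 0), (0, 3), (0, 5)], [(3, 5)], [1], [(1, 3, [2]), (2, 5, [2])]⟩,
    ⟨[(0, 1)], [(0, 0), (0, 2), (0, 3), (1, 0), (1, 2), (1, 3), (1, 5)], [(0, 0), (0, 2)],
      [1], [(0, 0, []), (4, 2, [3, 5]), (5, 0, [])]⟩,
    ⟨[(0, 2), (1, 2)], [(0, 0), (2, 0), (2, 2)], [(0, 0)], [6, 7], [(0, 0, []), (5, 0, []),
      (8, 0, [])]⟩,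
    ⟨[(2, 3)], [(0, 0), (2, 0), (3, 0)], [(0, 0)], [4], [(0, 0, []), (8, 0, [])]⟩,
    ⟨[(3, 4)], [(0, 0), (0, 3), (1, 3), (2, 0), (3, 0), (4, 0), (4, 3)], [(0, 3)], [4],
      [(0, 0, []), (1, 3, [2])]⟩]
  Ta := [((0, 1), 0, 3), ((5, 4), 0, 2), ((5, 6), 0, 6), ((8, 7), 0, 7), ((8, 9), 0, 4)]
  Tb := [((1, 0, 2), 3, 0, 5), ((1, 0, 9), 3, 0, 4), ((1, 2, 9), 3, 5, 4), ((2, 1, 3), 5, 3, 1),
    ((3, 2, 4), 1, 5, 2), ((4, 3, 5), 2, 1, 0), ((5, 4, 6), 0, 2, 6), ((6, 5, 7), 6, 0, 7),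
    ((7, 6, 8), 7, 6, 0), ((8, 7, 9), 0, 7, 4), ((9, 1, 8), 4, 3, 0)]
  Tc := [(2, 3, 5)]
  Td := [((2, 3), (4, 3), 1), ((2, 3), (4, 5), 0), ((2, 5), (4, 3), 1), ((2, 5), (4, 5), 0), ((3,
    2), (1, 0), 0), ((3, 2), (1, 2), 5), ((3, 2), (1, 9), 4), ((5, 2), (2, 1), 3), ((5, 2),
    (2, 3), 1)]
  G := [[0, 0x82682a82ce424a646a24ce82c, 0, 0x82682a82ce442642a24ce8c26c2ae2ce8d2,
    0x4868484a84c68c486884c2642a26ce84e], [0, 0xca6c6aa6ce421, 0x11684c611a8c111612611ce816,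
    0x11a81a116e4126126416e811c11a11ae4d2, 0xca6c6a2e8ee841], [0, 0xca6c6aa6ce421, 0,
    0x12a81a82ce4842642a14ce8126126c1ae85a, 0xca6c6aa6ce841]]

noncomputable def n573 : Ent := ⟨e573, noF, [], [], [(8, 15, [360035742630636841211993100915356868655746945586763691010015233, 0])]⟩

def c573 : PLift (Cov.check n573.C.D v573 = true) := ⟨by decide +kernel⟩

def b573 : PLift (entF (fidx ts) 400 573 n573 = true) := ⟨by decide +kernel⟩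

theorem g573 : GoodF (fidx ts) 400 573 := GoodF.ofV v573 n573 c573.down b573.down

/-- 457754:504/3 -/
noncomputable def e574 : SCfg where
  D := {
    a := 6
    L := 10
    kp := 7
    inn := [(0, 1), (0, 2), (1, 0), (1, 2), (2, 0), (2, 1), (2, 3), (3, 2), (3, 4), (4, 3), (4, 5), (5,
      4)]
    mix := [(0, 0), (0, 1), (1, 1), (1, 2), (1, 3), (2, 0), (2, 3), (2, 4), (2, 5), (3, 0), (3, 5), (3,
      6), (3, 7), (3, 8), (4, 0), (4, 2), (4, 8), (5, 0), (5, 2), (5, 9)]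
    cl := [0, 3, 1, 2, 4, 0, 5, 6, 0, 7]
    chq := [(1, 4), (3, 4), (4, 1), (4, 3)]
    rng := [(0, 1), (0, 9), (1, 0), (1, 2), (2, 1), (2, 3), (2, 8), (2, 9), (3, 2), (3, 4), (4, 3), (4,
      5), (5, 4), (5, 6), (6, 5), (6, 7), (7, 6), (7, 8), (8, 2), (8, 7), (9, 0), (9, 2)]
    lev := [] }
  links := [[1, 2, 6, 7], [2, 0, 7, 8, 9], [6, 0, 1, 9, 10, 11, 3], [6, 2, 11, 12, 13, 14, 4], [6, 3, 14,
    8, 5], [6, 4, 8, 15]]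
  P := {
    a := 6
    N := 16
    nb := [198, 901, 3659, 30804, 16744, 33104, 32957, 323, 49842, 1286, 2564, 5132, 10248, 20488,
      8472, 352]
    tri := [(0, 1, 2), (0, 1, 7), (0, 2, 6), (0, 6, 7), (1, 2, 9), (1, 7, 8), (1, 8, 9), (2, 3, 6), (2,
      3, 11), (2, 9, 10), (2, 10, 11), (3, 4, 6), (3, 4, 14), (3, 11, 12), (3, 12, 13), (3, 13,
      14), (4, 5, 6), (4, 5, 8), (4, 8, 14), (5, 6, 15), (5, 8, 15)]
    fin := [0, 1, 1, 0, 0, 0, 0, 7, 8, 9, 1, 0, 12, 13, 0, 15]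
    chd := [(7, 1), (8, 1)]
    steps := [(0, 6), (0, 3), (0, 4), (0, 5), (0, 11), (0, 14), (1, 2), (1, 10)] }
  rep := [0, 8, 9, 7, 1, 12, 13, 15]

noncomputable def v574 : Cov.CovD where
  P := 3
  N := 5
  pl := [3, 6, 7, 9]
  lev := [⟨[], [], [(0, 3)], [], [(0, 0, []), (1, 3, [4])]⟩,
    ⟨[], [(0, 0), (0, 1), (0, 3)], [(1, 3)], [2], [(1, 3, [4]), (2, 1, [4])]⟩,
    ⟨[(0, 1)], [(0, 0), (0, 3), (0, 4), (1, 0), (1, 1), (1, 3), (1, 4)], [(0, 0), (0, 4)],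
      [2], [(0, 0, []), (4, 4, [1, 3]), (5, 0, [])]⟩,
    ⟨[(0, 2), (1, 2)], [(0, 0), (2, 0), (2, 4)], [(0, 0)], [5, 6], [(0, 0, []), (5, 0, []),
      (8, 0, [])]⟩,
    ⟨[(2, 3)], [(0, 0), (1, 1), (2, 0), (3, 0), (3, 1)], [(0, 0), (0, 1)], [], [(0, 0, []),
      (2, 1, [4]), (8, 0, [])]⟩,
    ⟨[(3, 4)], [(0, 0), (1, 1), (2, 0), (3, 0), (4, 0), (4, 1)], [(0, 1)], [7], [(0, 0,
      []), (2, 1, [4])]⟩]
  Ta := [((0, 1), 0, 3), ((0, 9), 0, 7), ((5, 4), 0, 4), ((5, 6), 0, 5), ((8, 2), 0, 1), ((8, 7),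
    0, 6)]
  Tb := [((0, 1, 9), 0, 3, 7), ((1, 0, 2), 3, 0, 1), ((2, 1, 3), 1, 3, 2), ((2, 1, 8), 1, 3, 0),
    ((2, 1, 9), 1, 3, 7), ((2, 3, 8), 1, 2, 0), ((2, 3, 9), 1, 2, 7), ((2, 8, 9), 1, 0, 7),
    ((3, 2, 4), 2, 1, 4), ((4, 3, 5), 4, 2, 0), ((5, 4, 6), 0, 4, 5), ((6, 5, 7), 5, 0, 6),
    ((7, 6, 8), 6, 5, 0), ((8, 2, 7), 0, 1, 6), ((9, 0, 2), 7, 0, 1)]
  Tc := [(4, 1, 3)]
  Td := [((1, 4), (2, 1), 3), ((1, 4), (2, 3), 2), ((1, 4), (2, 8), 0), ((1, 4), (2, 9), 7), ((3,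
    4), (1, 0), 0), ((3, 4), (1, 2), 1), ((4, 1), (4, 3), 2), ((4, 1), (4, 5), 0), ((4, 3),
    (4, 3), 2), ((4, 3), (4, 5), 0)]
  G := [[0, 0, 0xc42c4c8c68c8c46c48a4c, 0xc4c8c4e4c4c8c8e8c2, 0xc448cc8e28c42c4c8ca124288e], [0,
    0, 0x1421814c6818146188a4c, 0x141414e181814ec12, 0x141418e21141814e81a], [0,
    0x6862c2e4a2a8c8e8c1, 0x1821818c6814146148a4c, 0x141814e41141414e81c,
    0x181418e211814c2114281e]]

noncomputable def n574 : Ent := ⟨e574, noF, [], [], [(7, 15, [360035742630636841211993100915356868655746945586763691010015233, 0])]⟩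

def c574 : PLift (Cov.check n574.C.D v574 = true) := ⟨by decide +kernel⟩

def b574 : PLift (entF (fidx ts) 400 574 n574 = true) := ⟨by decide +kernel⟩

theorem g574 : GoodF (fidx ts) 400 574 := GoodF.ofV v574 n574 c574.down b574.down

/-- 457754:504 -/
noncomputable def e575 : SCfg where
  D := {
    a := 6
    L := 11
    kp := 8
    inn := [(0, 1), (0, 2), (1, 0), (1, 2), (2, 0), (2, 1), (2, 3), (3, 2), (3, 4), (4, 3), (4, 5), (5,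
      4)]
    mix := [(0, 0), (0, 1), (1, 1), (1, 2), (1, 3), (2, 0), (2, 3), (2, 4), (2, 5), (3, 0), (3, 5), (3,
      6), (3, 7), (3, 8), (4, 0), (4, 8), (4, 9), (5, 0), (5, 9), (5, 10)]
    cl := [0, 3, 5, 1, 2, 0, 6, 7, 0, 4, 8]
    chq := [(2, 3), (2, 5), (3, 2), (5, 2)]
    rng := [(0, 1), (0, 10), (1, 0), (1, 2), (2, 1), (2, 3), (3, 2), (3, 4), (4, 3), (4, 5), (5, 4),
      (5, 6), (6, 5), (6, 7), (7, 6), (7, 8), (8, 7), (8, 9), (9, 8), (9, 10), (10, 0), (10, 9)]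
    lev := [] }
  links := [[1, 2, 6, 7], [2, 0, 7, 8, 9], [6, 0, 1, 9, 10, 11, 3], [6, 2, 11, 12, 13, 14, 4], [6, 3, 14,
    15, 5], [6, 4, 15, 16]]
  P := {
    a := 6
    N := 17
    nb := [198, 901, 3659, 30804, 49256, 98384, 65725, 323, 642, 1286, 2564, 5132, 10248, 20488,
      40984, 81968, 32864]
    tri := [(0, 1, 2), (0, 1, 7), (0, 2, 6), (0, 6, 7), (1, 2, 9), (1, 7, 8), (1, 8, 9), (2, 3, 6), (2,
      3, 11), (2, 9, 10), (2, 10, 11), (3, 4, 6), (3, 4, 14), (3, 11, 12), (3, 12, 13), (3, 13,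
      14), (4, 5, 6), (4, 5, 15), (4, 14, 15), (5, 6, 16), (5, 15, 16)]
    fin := [0, 1, 1, 0, 0, 0, 0, 7, 8, 9, 1, 0, 12, 13, 0, 15, 16]
    chd := [(7, 1), (8, 1)]
    steps := [(0, 6), (0, 3), (0, 4), (0, 5), (0, 11), (0, 14), (1, 2), (1, 10)] }
  rep := [0, 9, 1, 7, 15, 8, 12, 13, 16]

noncomputable def v575 : Cov.CovD where
  P := 3
  N := 6
  pl := [3, 6, 7, 9, 10]
  lev := [⟨[], [], [(0, 3)], [], [(0, 0, []), (1, 3, [2])]⟩,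
    ⟨[], [(0, 0), (0, 3), (0, 5)], [(3, 5)], [1], [(1, 3, [2]), (2, 5, [2])]⟩,
    ⟨[(0, 1)], [(0, 0), (0, 2), (0, 3), (1, 0), (1, 2), (1, 3), (1, 5)], [(0, 0), (0, 2)],
      [1], [(0, 0, []), (4, 2, [3, 5]), (5, 0, [])]⟩,
    ⟨[(0, 2), (1, 2)], [(0, 0), (2, 0), (2, 2)], [(0, 0)], [6, 7], [(0, 0, []), (5, 0, []),
      (8, 0, [])]⟩,
    ⟨[(2, 3)], [(0, 0), (2, 0), (3, 0)], [(0, 0)], [4], [(0, 0, []), (8, 0, [])]⟩,
    ⟨[(3, 4)], [(0, 0), (2, 0), (3, 0), (4, 0)], [], [4, 8], [(0, 0, [])]⟩]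
  Ta := [((0, 1), 0, 3), ((0, 10), 0, 8), ((5, 4), 0, 2), ((5, 6), 0, 6), ((8, 7), 0, 7), ((8,
    9), 0, 4)]
  Tb := [((0, 1, 10), 0, 3, 8), ((1, 0, 2), 3, 0, 5), ((2, 1, 3), 5, 3, 1), ((3, 2, 4), 1, 5, 2),
    ((4, 3, 5), 2, 1, 0), ((5, 4, 6), 0, 2, 6), ((6, 5, 7), 6, 0, 7), ((7, 6, 8), 7, 6, 0),
    ((8, 7, 9), 0, 7, 4), ((9, 8, 10), 4, 0, 8), ((10, 0, 9), 8, 0, 4)]
  Tc := [(2, 3, 5)]
  Td := [((2, 3), (4, 3), 1), ((2, 3), (4, 5), 0), ((2, 5), (4, 3), 1), ((2, 5), (4, 5), 0), ((3,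
    2), (1, 0), 0), ((3, 2), (1, 2), 5), ((5, 2), (2, 1), 3), ((5, 2), (2, 3), 1)]
  G := [[0, 0xca6c6aa6ce42ca6c6aa6ce82c, 0, 0xca6c6aa6ce4ca6c6aa6ce8ca6c6aa6ce4d2,
    0xc6aa6c684ca688ca6885ca6c6aa6ce84e], [0, 0xca6c6aa6ce421, 0x11611a11ce8111611a116e416,
    0x11611a116e411611a11ae811611611ce8d2, 0x1411668411618c811618c851161211ce84e], [0,
    0xca6c6aa6ce421, 0, 0xc16c1ac1ae4c16c1ac1ae8c1693c16ce8d2, 0xca6c6aa6ce841]]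

noncomputable def n575 : Ent := ⟨e575, noF, [], [], [(7, 16, [1580044410770988437309982408355971841652082177953823432505691459585, 0]), (8, 15, [1685356702439545624007900436039642273970977273354372543760002441217, 0])]⟩

def c575 : PLift (Cov.check n575.C.D v575 = true) := ⟨by decide +kernel⟩

def b575 : PLift (entF (fidx ts) 400 575 n575 = true) := ⟨by decide +kernel⟩

theorem g575 : GoodF (fidx ts) 400 575 := GoodF.ofV v575 n575 c575.down b575.down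

/-- 484774:507 -/
noncomputable def e576 : SCfg where
  D := {
    a := 6
    L := 10
    kp := 8
    inn := [(0, 1), (0, 3), (1, 0), (1, 2), (1, 3), (1, 4), (2, 1), (2, 4), (3, 0), (3, 1), (3, 4), (3,
      5), (4, 1), (4, 2), (4, 3), (4, 5), (5, 3), (5, 4)]
    mix := [(0, 0), (0, 1), (1, 0), (1, 2), (1, 3), (1, 4), (2, 2), (2, 5), (3, 1), (3, 6), (3, 7), (4,
      5), (4, 8), (4, 9), (5, 7), (5, 8)]
    cl := [0, 1, 0, 7, 8, 2, 5, 3, 4, 6]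
    chq := [(0, 3), (0, 4), (0, 5), (0, 6), (3, 0), (4, 0), (5, 0), (6, 0)]
    rng := [(0, 1), (0, 4), (1, 0), (1, 6), (2, 3), (2, 5), (3, 2), (3, 4), (4, 0), (4, 3), (5, 2), (5,
      9), (6, 1), (6, 7), (7, 6), (7, 8), (8, 7), (8, 9), (9, 5), (9, 8)]
    lev := [] }
  links := [[1, 6, 7, 3], [6, 0, 3, 4, 2, 8, 9, 10], [8, 1, 4, 11], [4, 1, 0, 7, 12, 13, 5], [11, 2, 1,
    3, 5, 14, 15], [14, 4, 3, 13]]
  P := {
    a := 6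
    N := 16
    nb := [202, 1885, 2322, 12467, 51246, 24600, 1155, 4169, 2566, 1282, 578, 33044, 8328, 20520,
      41008, 18448]
    tri := [(0, 1, 3), (0, 1, 6), (0, 3, 7), (0, 6, 7), (1, 2, 4), (1, 2, 8), (1, 3, 4), (1, 6, 10),
      (1, 8, 9), (1, 9, 10), (2, 4, 11), (2, 8, 11), (3, 4, 5), (3, 5, 13), (3, 7, 12), (3, 12,
      13), (4, 5, 14), (4, 11, 15), (4, 14, 15), (5, 13, 14)]
    fin := [0, 0, 0, 0, 0, 0, 0, 7, 0, 9, 10, 11, 12, 13, 14, 15]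
    chd := [(0, 12), (0, 13), (0, 14), (0, 15)]
    steps := [(0, 1), (0, 2), (0, 3), (0, 4), (0, 5), (0, 6), (0, 8)] }
  rep := [0, 7, 11, 13, 14, 12, 15, 9, 10]

noncomputable def v576 : Cov.CovD where
  P := 3
  N := 6
  pl := [1, 3, 4, 5]
  lev := [⟨[], [], [], [1], [(0, 0, [3, 4, 5, 6])]⟩,
    ⟨[], [(0, 0)], [(0, 0)], [7, 8], [(0, 0, [3, 4, 5, 6]), (2, 0, [3, 4, 5, 6])]⟩,
    ⟨[(0, 1)], [(1, 0)], [], [2], [(2, 0, [3, 4, 5, 6])]⟩,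
    ⟨[(0, 1), (1, 2)], [(0, 0), (0, 3), (0, 5), (1, 0), (1, 3), (1, 5)], [(3, 5)], [1],
      [(6, 5, [0]), (7, 3, [0])]⟩,
    ⟨[(0, 1), (0, 3), (1, 2), (1, 3), (2, 3)], [(1, 0), (1, 4), (1, 6), (2, 0), (2, 4), (2,
      6), (3, 3), (3, 4), (3, 5), (3, 6)], [(4, 6)], [2], [(8, 4, [0]), (9, 6, [0])]⟩,
    ⟨[(0, 3), (1, 3), (1, 4), (2, 4), (3, 4)], [(3, 3), (3, 4), (3, 5), (4, 3), (4, 4), (4,
      6)], [(3, 4)], [], [(7, 3, [0]), (8, 4, [0])]⟩]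
  Ta := [((0, 1), 0, 1), ((0, 4), 0, 8), ((2, 3), 0, 7), ((2, 5), 0, 2)]
  Tb := [((0, 1, 4), 0, 1, 8), ((1, 0, 6), 1, 0, 5), ((2, 3, 5), 0, 7, 2), ((3, 2, 4), 7, 0, 8),
    ((4, 0, 3), 8, 0, 7), ((5, 2, 9), 2, 0, 6), ((6, 1, 7), 5, 1, 3), ((7, 6, 8), 3, 5, 4),
    ((8, 7, 9), 4, 3, 6), ((9, 5, 8), 6, 2, 4)]
  Tc := [(0, 3, 4), (0, 3, 5), (0, 3, 6), (0, 4, 5), (0, 4, 6), (0, 5, 6)]
  Td := [((0, 3), (0, 1), 1), ((0, 3), (0, 4), 8), ((0, 3), (2, 3), 7), ((0, 3), (2, 5), 2), ((0,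
    4), (0, 1), 1), ((0, 4), (0, 4), 8), ((0, 4), (2, 3), 7), ((0, 4), (2, 5), 2), ((0, 5),
    (0, 1), 1), ((0, 5), (0, 4), 8), ((0, 5), (2, 3), 7), ((0, 5), (2, 5), 2), ((0, 6), (0,
    1), 1), ((0, 6), (0, 4), 8), ((0, 6), (2, 3), 7), ((0, 6), (2, 5), 2), ((3, 0), (7, 6),
    5), ((3, 0), (7, 8), 4), ((4, 0), (8, 7), 3), ((4, 0), (8, 9), 6), ((5, 0), (6, 1), 1),
    ((5, 0), (6, 7), 3), ((6, 0), (9, 5), 2), ((6, 0), (9, 8), 4)]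
  G := [[0, 0x111111e41111a8111111e4e114846, 0, 0xb1332d58431317b2dd47188313121db7c15ec,
    0x61de35251b136ebd851613debd8e5138928c], [0, 0, 0x14124111e1411a12111e14ec,
    0xb1336d584314317b2d9ca18871b1332dd4ec, 0xb1424b16e3551389aa136eb983deb1a1b1caec]]

noncomputable def n576 : Ent := ⟨e576, noF, [], [], []⟩

def c576 : PLift (Cov.check n576.C.D v576 = true) := ⟨by decide +kernel⟩

def b576 : PLift (entF (fidx ts) 400 576 n576 = true) := ⟨by decide +kernel⟩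

theorem g576 : GoodF (fidx ts) 400 576 := GoodF.ofV v576 n576 c576.down b576.down

/-- 468665:511/1 -/
noncomputable def e577 : SCfg where
  D := {
    a := 6
    L := 10
    kp := 8
    inn := [(0, 1), (0, 2), (0, 3), (1, 0), (1, 3), (2, 0), (2, 3), (2, 4), (2, 5), (3, 0), (3, 1), (3,
      2), (3, 4), (4, 2), (4, 3), (4, 5), (5, 2), (5, 4)]
    mix := [(0, 0), (1, 0), (1, 1), (1, 2), (1, 3), (2, 0), (2, 4), (2, 5), (2, 6), (3, 1), (3, 7), (4,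
      7), (4, 8), (4, 9), (5, 2), (5, 6), (5, 8)]
    cl := [0, 0, 4, 8, 5, 6, 3, 2, 1, 7]
    chq := [(0, 1), (0, 7), (1, 0), (1, 3), (1, 5), (1, 6), (3, 1), (5, 1), (6, 1), (7, 0)]
    rng := [(0, 3), (0, 4), (1, 2), (1, 7), (2, 1), (2, 3), (2, 6), (2, 8), (3, 0), (3, 2), (4, 0), (4,
      5), (5, 4), (5, 6), (6, 2), (6, 5), (7, 1), (7, 9), (8, 2), (8, 9), (9, 7), (9, 8)]
    lev := [] }
  links := [[1, 6, 2, 3], [6, 0, 3, 7, 8, 9], [3, 0, 6, 10, 11, 12, 5, 4], [7, 1, 0, 2, 4, 13], [13, 3,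
    2, 5, 14, 15], [14, 4, 2, 12, 8]]
  P := {
    a := 6
    N := 16
    nb := [78, 969, 7289, 8343, 57388, 20756, 1543, 8458, 21154, 322, 2116, 5124, 2340, 32920, 33072,
      24592]
    tri := [(0, 1, 3), (0, 1, 6), (0, 2, 3), (0, 2, 6), (1, 3, 7), (1, 6, 9), (1, 7, 8), (1, 8, 9), (2,
      3, 4), (2, 4, 5), (2, 5, 12), (2, 6, 10), (2, 10, 11), (2, 11, 12), (3, 4, 13), (3, 7, 13),
      (4, 5, 14), (4, 13, 15), (4, 14, 15), (5, 8, 12), (5, 8, 14)]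
    fin := [0, 0, 2, 0, 0, 2, 0, 0, 8, 9, 10, 11, 12, 13, 2, 15]
    chd := [(0, 2), (0, 15), (10, 2), (11, 2), (12, 2)]
    steps := [(0, 1), (0, 3), (0, 4), (0, 6), (0, 7), (2, 5), (2, 14)] }
  rep := [0, 2, 13, 12, 8, 10, 11, 15, 9]

noncomputable def v577 : Cov.CovD where
  P := 3
  N := 6
  pl := [2, 3, 7]
  lev := [⟨[], [], [], [], [(0, 0, [1, 7])]⟩,
    ⟨[], [(0, 0)], [(0, 0)], [4, 8], [(0, 0, [1, 7]), (1, 0, [1, 7])]⟩,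
    ⟨[(0, 1)], [(0, 0), (0, 3), (0, 5), (0, 6), (1, 0)], [(0, 3), (0, 5), (0, 6), (3, 5),
      (3, 6), (5, 6)], [], [(0, 0, [1, 7]), (4, 5, [1]), (5, 6, [1]), (6, 3, [1])]⟩,
    ⟨[(0, 1), (0, 2), (1, 2)], [(0, 0), (1, 0), (2, 0), (2, 3), (2, 5), (2, 6)], [], [2],
      [(1, 0, [1, 7])]⟩,
    ⟨[(0, 2), (0, 3), (1, 3), (2, 3)], [(2, 0), (2, 1), (2, 3), (2, 5), (2, 6), (2, 7), (3,
      0), (3, 1), (3, 7)], [(1, 7)], [2], [(8, 1, [0, 3, 5, 6]), (9, 7, [0])]⟩,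
    ⟨[(0, 2), (2, 3), (2, 4), (3, 4)], [(2, 0), (2, 1), (2, 3), (2, 5), (2, 6), (4, 1), (4,
      3), (4, 7)], [(1, 3)], [4], [(6, 3, [1]), (8, 1, [0, 3, 5, 6])]⟩]
  Ta := [((0, 3), 0, 8), ((0, 4), 0, 5), ((1, 2), 0, 4), ((1, 7), 0, 2)]
  Tb := [((0, 3, 4), 0, 8, 5), ((1, 2, 7), 0, 4, 2), ((2, 1, 3), 4, 0, 8), ((2, 1, 6), 4, 0, 3),
    ((2, 1, 8), 4, 0, 1), ((2, 3, 6), 4, 8, 3), ((2, 3, 8), 4, 8, 1), ((2, 6, 8), 4, 3, 1),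
    ((3, 0, 2), 8, 0, 4), ((4, 0, 5), 5, 0, 6), ((5, 4, 6), 6, 5, 3), ((6, 2, 5), 3, 4, 6),
    ((7, 1, 9), 2, 0, 7), ((8, 2, 9), 1, 4, 7), ((9, 7, 8), 7, 2, 1)]
  Tc := [(0, 1, 7), (1, 0, 3), (1, 0, 5), (1, 0, 6), (1, 3, 5), (1, 3, 6), (1, 5, 6)]
  Td := [((0, 1), (0, 3), 8), ((0, 1), (0, 4), 5), ((0, 1), (1, 2), 4), ((0, 1), (1, 7), 2), ((0,
    7), (0, 3), 8), ((0, 7), (0, 4), 5), ((0, 7), (1, 2), 4), ((0, 7), (1, 7), 2), ((1, 0),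
    (8, 2), 4), ((1, 0), (8, 9), 7), ((1, 3), (8, 2), 4), ((1, 3), (8, 9), 7), ((1, 5), (8,
    2), 4), ((1, 5), (8, 9), 7), ((1, 6), (8, 2), 4), ((1, 6), (8, 9), 7), ((3, 1), (6, 2),
    4), ((3, 1), (6, 5), 6), ((5, 1), (4, 0), 0), ((5, 1), (4, 5), 6), ((6, 1), (5, 4), 5),
    ((6, 1), (5, 6), 3), ((7, 0), (9, 7), 2), ((7, 0), (9, 8), 1)]
  G := [[0, 0xe4e8c144eacc16e4e8c18c, 0, 0x19542159421d582e8, 0x911892159821d982e4], [0,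
    0x44eacc1e4e8c144eacc1e2, 0x99c4255c8244d9cc2e1, 0x19942155821d582e8,
    0x181289182159821d982e9]]

noncomputable def n577 : Ent := ⟨e577, noF, [], [], []⟩

def c577 : PLift (Cov.check n577.C.D v577 = true) := ⟨by decide +kernel⟩

def b577 : PLift (entF (fidx ts) 400 577 n577 = true) := ⟨by decide +kernel⟩

theorem g577 : GoodF (fidx ts) 400 577 := GoodF.ofV v577 n577 c577.down b577.down

/-- 468665:511 -/
noncomputable def e578 : SCfg where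
  D := {
    a := 6
    L := 11
    kp := 9
    inn := [(0, 1), (0, 2), (0, 3), (1, 0), (1, 3), (2, 0), (2, 3), (2, 4), (2, 5), (3, 0), (3, 1), (3,
      2), (3, 4), (4, 2), (4, 3), (4, 5), (5, 2), (5, 4)]
    mix := [(0, 0), (1, 0), (1, 1), (1, 2), (1, 3), (2, 0), (2, 4), (2, 5), (2, 6), (3, 1), (3, 7), (4,
      7), (4, 8), (4, 9), (5, 6), (5, 8), (5, 10)]
    cl := [0, 0, 7, 8, 4, 5, 3, 2, 1, 6, 9]
    chq := [(0, 1), (0, 6), (1, 0), (1, 3), (1, 4), (1, 5), (3, 1), (4, 1), (5, 1), (6, 0)]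
    rng := [(0, 3), (0, 4), (1, 2), (1, 7), (2, 1), (2, 3), (3, 0), (3, 2), (4, 0), (4, 5), (5, 4), (5,
      6), (6, 5), (6, 10), (7, 1), (7, 9), (8, 9), (8, 10), (9, 7), (9, 8), (10, 6), (10, 8)]
    lev := [] }
  links := [[1, 6, 2, 3], [6, 0, 3, 7, 8, 9], [3, 0, 6, 10, 11, 12, 5, 4], [7, 1, 0, 2, 4, 13], [13, 3,
    2, 5, 14, 15], [14, 4, 2, 12, 16]]
  P := {
    a := 6
    N := 17
    nb := [78, 969, 7289, 8343, 57388, 86036, 1543, 8458, 642, 322, 2116, 5124, 67620, 32920, 98352,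
      24592, 20512]
    tri := [(0, 1, 3), (0, 1, 6), (0, 2, 3), (0, 2, 6), (1, 3, 7), (1, 6, 9), (1, 7, 8), (1, 8, 9), (2,
      3, 4), (2, 4, 5), (2, 5, 12), (2, 6, 10), (2, 10, 11), (2, 11, 12), (3, 4, 13), (3, 7, 13),
      (4, 5, 14), (4, 13, 15), (4, 14, 15), (5, 12, 16), (5, 14, 16)]
    fin := [0, 0, 2, 0, 0, 2, 0, 0, 8, 9, 10, 11, 12, 13, 2, 15, 16]
    chd := [(0, 2), (0, 15), (10, 2), (11, 2), (12, 2)]
    steps := [(0, 1), (0, 3), (0, 4), (0, 6), (0, 7), (2, 5), (2, 14)] }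
  rep := [0, 2, 13, 12, 10, 11, 15, 8, 9, 16]

noncomputable def v578 : Cov.CovD where
  P := 3
  N := 7
  pl := [2, 3, 7, 10]
  lev := [⟨[], [], [], [], [(0, 0, [1, 6])]⟩,
    ⟨[], [(0, 0)], [(0, 0)], [7, 8], [(0, 0, [1, 6]), (1, 0, [1, 6])]⟩,
    ⟨[(0, 1)], [(0, 0), (0, 3), (0, 4), (0, 5), (1, 0)], [(0, 3), (0, 4), (0, 5), (3, 4),
      (3, 5), (4, 5)], [], [(0, 0, [1, 6]), (4, 4, [1]), (5, 5, [1]), (6, 3, [1])]⟩,
    ⟨[(0, 1), (0, 2), (1, 2)], [(0, 0), (1, 0), (2, 0), (2, 3), (2, 4), (2, 5)], [], [2],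
      [(1, 0, [1, 6])]⟩,
    ⟨[(0, 2), (0, 3), (1, 3), (2, 3)], [(2, 0), (2, 1), (2, 3), (2, 4), (2, 5), (2, 6), (3,
      0), (3, 1), (3, 6)], [(1, 6)], [2], [(8, 1, [0, 3, 4, 5]), (9, 6, [0])]⟩,
    ⟨[(0, 2), (2, 3), (2, 4), (3, 4)], [(2, 0), (2, 1), (2, 3), (2, 4), (2, 5), (4, 1), (4,
      3), (4, 6)], [(1, 3)], [9], [(6, 3, [1]), (8, 1, [0, 3, 4, 5])]⟩]
  Ta := [((0, 3), 0, 8), ((0, 4), 0, 4), ((1, 2), 0, 7), ((1, 7), 0, 2)]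
  Tb := [((0, 3, 4), 0, 8, 4), ((1, 2, 7), 0, 7, 2), ((2, 1, 3), 7, 0, 8), ((3, 0, 2), 8, 0, 7),
    ((4, 0, 5), 4, 0, 5), ((5, 4, 6), 5, 4, 3), ((6, 5, 10), 3, 5, 9), ((7, 1, 9), 2, 0, 6),
    ((8, 9, 10), 1, 6, 9), ((9, 7, 8), 6, 2, 1), ((10, 6, 8), 9, 3, 1)]
  Tc := [(0, 1, 6), (1, 0, 3), (1, 0, 4), (1, 0, 5), (1, 3, 4), (1, 3, 5), (1, 4, 5)]
  Td := [((0, 1), (0, 3), 8), ((0, 1), (0, 4), 4), ((0, 1), (1, 2), 7), ((0, 1), (1, 7), 2), ((0,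
    6), (0, 3), 8), ((0, 6), (0, 4), 4), ((0, 6), (1, 2), 7), ((0, 6), (1, 7), 2), ((1, 0),
    (8, 9), 6), ((1, 0), (8, 10), 9), ((1, 3), (8, 9), 6), ((1, 3), (8, 10), 9), ((1, 4), (8,
    9), 6), ((1, 4), (8, 10), 9), ((1, 5), (8, 9), 6), ((1, 5), (8, 10), 9), ((3, 1), (6, 5),
    5), ((3, 1), (6, 10), 9), ((4, 1), (4, 0), 0), ((4, 1), (4, 5), 5), ((5, 1), (5, 4), 4),
    ((5, 1), (5, 6), 3), ((6, 0), (9, 7), 2), ((6, 0), (9, 8), 1)]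
  G := [[0, 0xe4e8c1e4e8c16ec88c1e2, 0, 0x1d9421d5821d582e8, 0xd118921d9821d982e4], [0,
    0xe4e8c1e4e8c16ec88c1e2, 0x44d9cc2d4d8c2d4d8c2e1, 0x1d5421d9421d542e8,
    0xd118921d9821d982e4]]

noncomputable def n578 : Ent := ⟨e578, noF, [], [], [(16, 8, [1580044410770988437309982451912114807532205501265773183772022542337, 0])]⟩

def c578 : PLift (Cov.check n578.C.D v578 = true) := ⟨by decide +kernel⟩

def b578 : PLift (entF (fidx ts) 400 578 n578 = true) := ⟨by decide +kernel⟩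

theorem g578 : GoodF (fidx ts) 400 578 := GoodF.ofV v578 n578 c578.down b578.down

/-- 468664:512/1 -/
noncomputable def e579 : SCfg where
  D := {
    a := 6
    L := 10
    kp := 8
    inn := [(0, 1), (0, 2), (0, 3), (1, 0), (1, 3), (2, 0), (2, 3), (2, 4), (3, 0), (3, 1), (3, 2), (3,
      4), (4, 2), (4, 3), (4, 5), (5, 4)]
    mix := [(0, 0), (1, 0), (1, 1), (1, 2), (1, 3), (2, 0), (2, 4), (2, 5), (2, 6), (2, 7), (3, 1), (3,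
      8), (4, 7), (4, 8), (4, 9), (5, 2), (5, 8), (5, 9)]
    cl := [0, 0, 2, 8, 5, 6, 7, 3, 1, 4]
    chq := [(1, 3), (1, 5), (1, 6), (1, 7), (2, 3), (3, 1), (3, 2), (5, 1), (6, 1), (7, 1)]
    rng := [(0, 3), (0, 4), (1, 2), (1, 8), (2, 1), (2, 3), (2, 8), (2, 9), (3, 0), (3, 2), (4, 0), (4,
      5), (5, 4), (5, 6), (6, 5), (6, 7), (7, 6), (7, 9), (8, 1), (8, 2), (9, 2), (9, 7)]
    lev := [] }
  links := [[1, 6, 2, 3], [6, 0, 3, 7, 8, 9], [3, 0, 6, 10, 11, 12, 13, 4], [7, 1, 0, 2, 4, 14], [14, 3,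
    2, 13, 15, 5], [14, 4, 15, 8]]
  P := {
    a := 6
    N := 16
    nb := [78, 969, 15449, 16535, 57388, 49424, 1543, 16650, 49826, 322, 2116, 5124, 10244, 36884,
      440, 8496]
    tri := [(0, 1, 3), (0, 1, 6), (0, 2, 3), (0, 2, 6), (1, 3, 7), (1, 6, 9), (1, 7, 8), (1, 8, 9), (2,
      3, 4), (2, 4, 13), (2, 6, 10), (2, 10, 11), (2, 11, 12), (2, 12, 13), (3, 4, 14), (3, 7,
      14), (4, 5, 14), (4, 5, 15), (4, 13, 15), (5, 8, 14), (5, 8, 15)]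
    fin := [0, 0, 2, 2, 4, 4, 0, 0, 8, 9, 10, 11, 12, 4, 2, 15]
    chd := [(4, 2), (8, 4), (10, 2), (11, 2), (12, 2)]
    steps := [(0, 1), (0, 6), (0, 7), (2, 3), (2, 14), (4, 5), (4, 13)] }
  rep := [0, 2, 8, 4, 15, 10, 11, 12, 9]

noncomputable def v579 : Cov.CovD where
  P := 3
  N := 6
  pl := [3, 9]
  lev := [⟨[], [], [], [], [(0, 0, [])]⟩,
    ⟨[], [(0, 0), (0, 2)], [(0, 0), (0, 2)], [8], [(0, 0, []), (1, 0, []), (2, 2, [3])]⟩,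
    ⟨[(0, 1)], [(0, 0), (0, 3), (0, 5), (0, 6), (0, 7), (1, 0)], [(0, 3), (0, 5), (0, 6),
      (0, 7), (3, 5), (3, 6), (3, 7), (5, 6), (5, 7), (6, 7)], [], [(0, 0, []), (4, 5, [1]),
      (5, 6, [1]), (6, 7, [1]), (7, 3, [1, 2])]⟩,
    ⟨[(0, 1), (0, 2), (1, 2)], [(0, 0), (0, 1), (1, 0), (1, 1), (1, 2), (2, 0), (2, 1), (2,
      3), (2, 5), (2, 6), (2, 7)], [(0, 1)], [], [(1, 0, []), (8, 1, [3, 5, 6, 7])]⟩,
    ⟨[(0, 2), (0, 3), (1, 3), (2, 3)], [(2, 0), (2, 1), (2, 3), (2, 5), (2, 6), (2, 7), (3,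
      0), (3, 1), (3, 3)], [(1, 3)], [4], [(7, 3, [1, 2]), (8, 1, [3, 5, 6, 7])]⟩,
    ⟨[(2, 4), (3, 4)], [(1, 2), (3, 1), (4, 1), (4, 2), (4, 3)], [(1, 2)], [4], [(2, 2,
      [3]), (8, 1, [3, 5, 6, 7])]⟩]
  Ta := [((0, 3), 0, 8), ((0, 4), 0, 5), ((1, 2), 0, 2), ((1, 8), 0, 1)]
  Tb := [((0, 3, 4), 0, 8, 5), ((1, 2, 8), 0, 2, 1), ((2, 1, 3), 2, 0, 8), ((2, 1, 8), 2, 0, 1),
    ((2, 1, 9), 2, 0, 4), ((2, 3, 8), 2, 8, 1), ((2, 3, 9), 2, 8, 4), ((2, 8, 9), 2, 1, 4),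
    ((3, 0, 2), 8, 0, 2), ((4, 0, 5), 5, 0, 6), ((5, 4, 6), 6, 5, 7), ((6, 5, 7), 7, 6, 3),
    ((7, 6, 9), 3, 7, 4), ((8, 1, 2), 1, 0, 2), ((9, 2, 7), 4, 2, 3)]
  Tc := [(1, 3, 5), (1, 3, 6), (1, 3, 7), (1, 5, 6), (1, 5, 7), (1, 6, 7), (3, 1, 2)]
  Td := [((1, 3), (8, 1), 0), ((1, 3), (8, 2), 2), ((1, 5), (8, 1), 0), ((1, 5), (8, 2), 2), ((1,
    6), (8, 1), 0), ((1, 6), (8, 2), 2), ((1, 7), (8, 1), 0), ((1, 7), (8, 2), 2), ((2, 3),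
    (2, 1), 0), ((2, 3), (2, 3), 8), ((2, 3), (2, 8), 1), ((2, 3), (2, 9), 4), ((3, 1), (7,
    6), 7), ((3, 1), (7, 9), 4), ((3, 2), (7, 6), 7), ((3, 2), (7, 9), 4), ((5, 1), (4, 0),
    0), ((5, 1), (4, 5), 6), ((6, 1), (5, 4), 5), ((6, 1), (5, 6), 7), ((7, 1), (6, 5), 6),
    ((7, 1), (6, 7), 3)]
  G := [[0, 0, 0, 0x44819c24158892c4, 0x8199452198d82a4], [0, 0x48ce4184ce21c8, 0xc142c182a4,
    0x891d4244819c2c8, 0x98588c2198d82a1]]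

noncomputable def n579 : Ent := ⟨e579, noF, [], [], []⟩

def c579 : PLift (Cov.check n579.C.D v579 = true) := ⟨by decide +kernel⟩

def b579 : PLift (entF (fidx ts) 400 579 n579 = true) := ⟨by decide +kernel⟩

theorem g579 : GoodF (fidx ts) 400 579 := GoodF.ofV v579 n579 c579.down b579.down

/-- 468664:512 -/
noncomputable def e580 : SCfg where
  D := {
    a := 6
    L := 11
    kp := 9
    inn := [(0, 1), (0, 2), (0, 3), (1, 0), (1, 3), (2, 0), (2, 3), (2, 4), (3, 0), (3, 1), (3, 2), (3,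
      4), (4, 2), (4, 3), (4, 5), (5, 4)]
    mix := [(0, 0), (1, 0), (1, 1), (1, 2), (1, 3), (2, 0), (2, 4), (2, 5), (2, 6), (2, 7), (3, 1), (3,
      8), (4, 7), (4, 8), (4, 9), (5, 8), (5, 9), (5, 10)]
    cl := [0, 0, 8, 9, 4, 5, 6, 2, 1, 3, 7]
    chq := [(1, 2), (1, 4), (1, 5), (1, 6), (2, 1), (2, 7), (4, 1), (5, 1), (6, 1), (7, 2)]
    rng := [(0, 3), (0, 4), (1, 2), (1, 8), (2, 1), (2, 3), (3, 0), (3, 2), (4, 0), (4, 5), (5, 4), (5,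
      6), (6, 5), (6, 7), (7, 6), (7, 9), (8, 1), (8, 10), (9, 7), (9, 10), (10, 8), (10, 9)]
    lev := [] }
  links := [[1, 6, 2, 3], [6, 0, 3, 7, 8, 9], [3, 0, 6, 10, 11, 12, 13, 4], [7, 1, 0, 2, 4, 14], [14, 3,
    2, 13, 15, 5], [14, 4, 15, 16]]
  P := {
    a := 6
    N := 17
    nb := [78, 969, 15449, 16535, 57388, 114704, 1543, 16650, 642, 322, 2116, 5124, 10244, 36884,
      65720, 73776, 49184]
    tri := [(0, 1, 3), (0, 1, 6), (0, 2, 3), (0, 2, 6), (1, 3, 7), (1, 6, 9), (1, 7, 8), (1, 8, 9), (2,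
      3, 4), (2, 4, 13), (2, 6, 10), (2, 10, 11), (2, 11, 12), (2, 12, 13), (3, 4, 14), (3, 7,
      14), (4, 5, 14), (4, 5, 15), (4, 13, 15), (5, 14, 16), (5, 15, 16)]
    fin := [0, 0, 2, 2, 4, 4, 0, 0, 8, 9, 10, 11, 12, 4, 2, 15, 16]
    chd := [(4, 2), (4, 16), (10, 2), (11, 2), (12, 2)]
    steps := [(0, 1), (0, 6), (0, 7), (2, 3), (2, 14), (4, 5), (4, 13)] }
  rep := [0, 2, 4, 15, 10, 11, 12, 16, 8, 9]

noncomputable def v580 : Cov.CovD where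
  P := 3
  N := 7
  pl := [2, 3, 9]
  lev := [⟨[], [], [], [], [(0, 0, [])]⟩,
    ⟨[], [(0, 0)], [(0, 0)], [8, 9], [(0, 0, []), (1, 0, [])]⟩,
    ⟨[(0, 1)], [(0, 0), (0, 2), (0, 4), (0, 5), (0, 6), (1, 0)], [(0, 2), (0, 4), (0, 5),
      (0, 6), (2, 4), (2, 5), (2, 6), (4, 5), (4, 6), (5, 6)], [], [(0, 0, []), (4, 4, [1]),
      (5, 5, [1]), (6, 6, [1]), (7, 2, [1, 7])]⟩,
    ⟨[(0, 1), (0, 2), (1, 2)], [(0, 0), (0, 1), (1, 0), (1, 1), (2, 0), (2, 1), (2, 2), (2,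
      4), (2, 5), (2, 6)], [(0, 1)], [], [(1, 0, []), (8, 1, [2, 4, 5, 6])]⟩,
    ⟨[(0, 2), (0, 3), (1, 3), (2, 3)], [(2, 0), (2, 1), (2, 2), (2, 4), (2, 5), (2, 6), (3,
      0), (3, 1), (3, 2)], [(1, 2)], [3], [(7, 2, [1, 7]), (8, 1, [2, 4, 5, 6])]⟩,
    ⟨[(2, 4), (3, 4)], [(3, 1), (4, 1), (4, 2), (4, 7)], [(1, 7)], [3], [(8, 1, [2, 4, 5,
      6]), (10, 7, [2])]⟩]
  Ta := [((0, 3), 0, 9), ((0, 4), 0, 4), ((1, 2), 0, 8), ((1, 8), 0, 1)]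
  Tb := [((0, 3, 4), 0, 9, 4), ((1, 2, 8), 0, 8, 1), ((2, 1, 3), 8, 0, 9), ((3, 0, 2), 9, 0, 8),
    ((4, 0, 5), 4, 0, 5), ((5, 4, 6), 5, 4, 6), ((6, 5, 7), 6, 5, 2), ((7, 6, 9), 2, 6, 3),
    ((8, 1, 10), 1, 0, 7), ((9, 7, 10), 3, 2, 7), ((10, 8, 9), 7, 1, 3)]
  Tc := [(1, 2, 4), (1, 2, 5), (1, 2, 6), (1, 4, 5), (1, 4, 6), (1, 5, 6), (2, 1, 7)]
  Td := [((1, 2), (8, 1), 0), ((1, 2), (8, 10), 7), ((1, 4), (8, 1), 0), ((1, 4), (8, 10), 7),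
    ((1, 5), (8, 1), 0), ((1, 5), (8, 10), 7), ((1, 6), (8, 1), 0), ((1, 6), (8, 10), 7),
    ((2, 1), (7, 6), 6), ((2, 1), (7, 9), 3), ((2, 7), (7, 6), 6), ((2, 7), (7, 9), 3), ((4,
    1), (4, 0), 0), ((4, 1), (4, 5), 5), ((5, 1), (5, 4), 4), ((5, 1), (5, 6), 6), ((6, 1),
    (6, 5), 5), ((6, 1), (6, 7), 2), ((7, 2), (10, 8), 1), ((7, 2), (10, 9), 3)]
  G := [[0, 0, 0x18d4521dc121dc82e4, 0x22c122258222c12e8, 0xc59424d9824d942e4], [0,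
    0x2ec21a6c21a6c21e4, 0xd1c421dc82d1c42e1, 0x22c422294222542e8, 0xc59424d982d4942e1]]

noncomputable def n580 : Ent := ⟨e580, noF, [], [], [(16, 8, [1580044410770988437309982451912114807532205501265773183772022550529, 0])]⟩

def c580 : PLift (Cov.check n580.C.D v580 = true) := ⟨by decide +kernel⟩

def b580 : PLift (entF (fidx ts) 400 580 n580 = true) := ⟨by decide +kernel⟩

theorem g580 : GoodF (fidx ts) 400 580 := GoodF.ofV v580 n580 c580.down b580.down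

/-- 468664:513/1 -/
noncomputable def e581 : SCfg where
  D := {
    a := 6
    L := 9
    kp := 7
    inn := [(0, 1), (0, 2), (0, 3), (0, 4), (1, 0), (1, 3), (1, 4), (2, 0), (2, 3), (2, 4), (2, 5), (3,
      0), (3, 1), (3, 2), (4, 0), (4, 1), (4, 2), (5, 2)]
    mix := [(1, 0), (1, 1), (1, 2), (2, 3), (2, 4), (2, 5), (2, 6), (3, 0), (3, 6), (3, 7), (4, 2), (4,
      3), (4, 8), (5, 1), (5, 4), (5, 5)]
    cl := [3, 1, 4, 0, 2, 0, 5, 7, 6]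
    chq := [(0, 3), (0, 7), (1, 6), (3, 0), (3, 6), (6, 1), (6, 3), (7, 0)]
    rng := [(0, 1), (0, 7), (1, 0), (1, 2), (1, 4), (1, 5), (2, 1), (2, 8), (3, 4), (3, 8), (4, 1), (4,
      3), (5, 1), (5, 6), (6, 5), (6, 7), (7, 0), (7, 6), (8, 2), (8, 3)]
    lev := [] }
  links := [[1, 4, 2, 3], [4, 0, 3, 6, 7, 8], [3, 0, 4, 9, 10, 5, 11, 12], [6, 1, 0, 2, 12, 13], [9, 2,
    0, 1, 8, 14], [11, 2, 10, 7]]
  P := {
    a := 6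
    N := 15
    nb := [30, 473, 7737, 12359, 17159, 3204, 8330, 3426, 16530, 17428, 676, 4260, 10252, 4168, 784]
    tri := [(0, 1, 3), (0, 1, 4), (0, 2, 3), (0, 2, 4), (1, 3, 6), (1, 4, 8), (1, 6, 7), (1, 7, 8), (2,
      3, 12), (2, 4, 9), (2, 5, 10), (2, 5, 11), (2, 9, 10), (2, 11, 12), (3, 6, 13), (3, 12, 13),
      (4, 8, 14), (4, 9, 14), (5, 7, 10), (5, 7, 11)]
    fin := [0, 0, 2, 2, 0, 5, 6, 5, 8, 2, 10, 2, 12, 13, 0]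
    chd := [(2, 13), (5, 0), (6, 0), (6, 2)]
    steps := [(0, 1), (0, 4), (0, 14), (2, 3), (2, 9), (2, 11), (5, 7)] }
  rep := [2, 5, 10, 6, 8, 12, 0, 13]

noncomputable def v581 : Cov.CovD where
  P := 3
  N := 5
  pl := [2, 4, 6]
  lev := [⟨[], [], [], [], []⟩,
    ⟨[], [(0, 1), (0, 3)], [(1, 3)], [4], [(0, 3, [0, 6]), (1, 1, [6])]⟩,
    ⟨[(0, 1)], [(0, 0)], [(0, 0)], [2, 5], [(3, 0, [3, 7]), (5, 0, [3, 7])]⟩,
    ⟨[(0, 1), (0, 2), (1, 2)], [(0, 3), (0, 7), (1, 1), (1, 3), (1, 7), (2, 0), (2, 3), (2,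
      7)], [(3, 7)], [5], [(0, 3, [0, 6]), (7, 7, [0])]⟩,
    ⟨[(0, 1), (0, 2), (0, 3), (1, 2), (1, 3), (2, 3)], [(0, 0), (0, 6), (1, 0), (1, 1), (1,
      3), (1, 6), (2, 0), (2, 6)], [(0, 6)], [4], [(3, 0, [3, 7]), (8, 6, [1, 3])]⟩,
    ⟨[(0, 2), (2, 3), (2, 4)], [(1, 1), (2, 0), (2, 1)], [(0, 1)], [2], [(1, 1, [6]), (5,
      0, [3, 7])]⟩]
  Ta := [((3, 4), 0, 2), ((3, 8), 0, 6), ((5, 1), 0, 1), ((5, 6), 0, 5)]
  Tb := [((0, 1, 7), 3, 1, 7), ((1, 0, 2), 1, 3, 4), ((1, 0, 4), 1, 3, 2), ((1, 0, 5), 1, 3, 0),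
    ((1, 2, 4), 1, 4, 2), ((1, 2, 5), 1, 4, 0), ((1, 4, 5), 1, 2, 0), ((2, 1, 8), 4, 1, 6),
    ((3, 4, 8), 0, 2, 6), ((4, 1, 3), 2, 1, 0), ((5, 1, 6), 0, 1, 5), ((6, 5, 7), 5, 0, 7),
    ((7, 0, 6), 7, 3, 5), ((8, 2, 3), 6, 4, 0)]
  Tc := [(0, 3, 7), (3, 0, 6), (6, 1, 3)]
  Td := [((0, 3), (3, 4), 2), ((0, 3), (3, 8), 6), ((0, 3), (5, 1), 1), ((0, 3), (5, 6), 5), ((0,
    7), (3, 4), 2), ((0, 7), (3, 8), 6), ((0, 7), (5, 1), 1), ((0, 7), (5, 6), 5), ((1, 6),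
    (1, 0), 3), ((1, 6), (1, 2), 4), ((1, 6), (1, 4), 2), ((1, 6), (1, 5), 0), ((3, 0), (0,
    1), 1), ((3, 0), (0, 7), 7), ((3, 6), (0, 1), 1), ((3, 6), (0, 7), 7), ((6, 1), (8, 2),
    4), ((6, 1), (8, 3), 0), ((6, 3), (8, 2), 4), ((6, 3), (8, 3), 0), ((7, 0), (7, 0), 3),
    ((7, 0), (7, 6), 5)]
  G := [[0, 0, 0x821841a4461821c9481881a46, 0x121121c4242342124242fc5121421c8a,
    0x816181a1a121882d88c111e3a9111e11891a46], [0, 0x811811c811811c811811ce2, 0,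
    0x4282382829c82823494248827821c42424882f856,
    0x828833888788a9a328282d8288c88cba9811888895a48282827847]]

noncomputable def n581 : Ent := ⟨e581, noF, [], [], []⟩

def c581 : PLift (Cov.check n581.C.D v581 = true) := ⟨by decide +kernel⟩

def b581 : PLift (entF (fidx ts) 400 581 n581 = true) := ⟨by decide +kernel⟩

theorem g581 : GoodF (fidx ts) 400 581 := GoodF.ofV v581 n581 c581.down b581.down

/-- 468664:513 -/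
noncomputable def e582 : SCfg where
  D := {
    a := 6
    L := 10
    kp := 8
    inn := [(0, 1), (0, 2), (0, 3), (0, 4), (1, 0), (1, 3), (1, 4), (2, 0), (2, 3), (2, 4), (2, 5), (3,
      0), (3, 1), (3, 2), (4, 0), (4, 1), (4, 2), (5, 2)]
    mix := [(1, 0), (1, 1), (1, 2), (2, 3), (2, 4), (2, 5), (2, 6), (3, 0), (3, 6), (3, 7), (4, 2), (4,
      3), (4, 8), (5, 4), (5, 5), (5, 9)]
    cl := [3, 6, 4, 0, 1, 0, 2, 7, 5, 8]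
    chq := [(0, 3), (0, 7), (3, 0), (3, 5), (5, 3), (5, 6), (6, 5), (7, 0)]
    rng := [(0, 1), (0, 7), (1, 0), (1, 2), (2, 1), (2, 8), (3, 4), (3, 8), (4, 3), (4, 9), (5, 6), (5,
      9), (6, 5), (6, 7), (7, 0), (7, 6), (8, 2), (8, 3), (9, 4), (9, 5)]
    lev := [] }
  links := [[1, 4, 2, 3], [4, 0, 3, 6, 7, 8], [3, 0, 4, 9, 10, 5, 11, 12], [6, 1, 0, 2, 12, 13], [9, 2,
    0, 1, 8, 14], [11, 2, 10, 15]]
  P := {
    a := 6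
    N := 16
    nb := [30, 473, 7737, 12359, 17159, 35844, 8330, 322, 16530, 17428, 33316, 36900, 10252, 4168,
      784, 3104]
    tri := [(0, 1, 3), (0, 1, 4), (0, 2, 3), (0, 2, 4), (1, 3, 6), (1, 4, 8), (1, 6, 7), (1, 7, 8), (2,
      3, 12), (2, 4, 9), (2, 5, 10), (2, 5, 11), (2, 9, 10), (2, 11, 12), (3, 6, 13), (3, 12, 13),
      (4, 8, 14), (4, 9, 14), (5, 10, 15), (5, 11, 15)]
    fin := [0, 0, 2, 2, 0, 2, 6, 7, 8, 2, 10, 2, 12, 13, 0, 15]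
    chd := [(2, 13), (6, 0), (6, 2), (7, 0)]
    steps := [(0, 1), (0, 4), (0, 14), (2, 3), (2, 5), (2, 9), (2, 11)] }
  rep := [2, 10, 12, 6, 8, 0, 7, 13, 15]

noncomputable def v582 : Cov.CovD where
  P := 3
  N := 6
  pl := [2, 4, 6, 9]
  lev := [⟨[], [], [], [], []⟩,
    ⟨[], [(0, 3), (0, 6)], [(3, 6)], [4], [(0, 3, [0, 5]), (1, 6, [5])]⟩,
    ⟨[(0, 1)], [(0, 0)], [(0, 0)], [1, 2], [(3, 0, [3, 7]), (5, 0, [3, 7])]⟩,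
    ⟨[(0, 1), (0, 2), (1, 2)], [(0, 3), (0, 7), (1, 3), (1, 6), (1, 7), (2, 0), (2, 3), (2,
      7)], [(3, 7)], [2], [(0, 3, [0, 5]), (7, 7, [0])]⟩,
    ⟨[(0, 1), (0, 2), (0, 3), (1, 2), (1, 3), (2, 3)], [(0, 0), (0, 5), (1, 0), (1, 3), (1,
      5), (1, 6), (2, 0), (2, 5)], [(0, 5)], [4], [(3, 0, [3, 7]), (8, 5, [3, 6])]⟩,
    ⟨[(0, 2), (2, 3), (2, 4)], [(2, 0)], [], [1, 8], [(5, 0, [3, 7])]⟩]
  Ta := [((3, 4), 0, 1), ((3, 8), 0, 5), ((5, 6), 0, 2), ((5, 9), 0, 8)]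
  Tb := [((0, 1, 7), 3, 6, 7), ((1, 0, 2), 6, 3, 4), ((2, 1, 8), 4, 6, 5), ((3, 4, 8), 0, 1, 5),
    ((4, 3, 9), 1, 0, 8), ((5, 6, 9), 0, 2, 8), ((6, 5, 7), 2, 0, 7), ((7, 0, 6), 7, 3, 2),
    ((8, 2, 3), 5, 4, 0), ((9, 4, 5), 8, 1, 0)]
  Tc := [(0, 3, 7), (3, 0, 5), (5, 3, 6)]
  Td := [((0, 3), (3, 4), 1), ((0, 3), (3, 8), 5), ((0, 3), (5, 6), 2), ((0, 3), (5, 9), 8), ((0,
    7), (3, 4), 1), ((0, 7), (3, 8), 5), ((0, 7), (5, 6), 2), ((0, 7), (5, 9), 8), ((3, 0),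
    (0, 1), 6), ((3, 0), (0, 7), 7), ((3, 5), (0, 1), 6), ((3, 5), (0, 7), 7), ((5, 3), (8,
    2), 4), ((5, 3), (8, 3), 0), ((5, 6), (8, 2), 4), ((5, 6), (8, 3), 0), ((6, 5), (1, 0),
    3), ((6, 5), (1, 2), 4), ((7, 0), (7, 0), 3), ((7, 0), (7, 6), 2)]
  G := [[0, 0xa661416a618a6a14aac14e9, 0, 0x11a14141181c141811cd47116188c,
    0x121841161811c181211611cb8b18184e], [0, 0,
    0x8c588cc9e424184c14cc988accc2c468c68cc248684448c8444c8ecc6e8ca8cfb,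
    0xcc618cc5181418cc6d8bcc91446, 0xcc5181218cc6b83cc61848cb18c6]]

noncomputable def n582 : Ent := ⟨e582, noF, [], [], [(7, 15, [360035742630636841211993100915356868655746945586763691010052097, 0])]⟩

def c582 : PLift (Cov.check n582.C.D v582 = true) := ⟨by decide +kernel⟩

def b582 : PLift (entF (fidx ts) 400 582 n582 = true) := ⟨by decide +kernel⟩

theorem g582 : GoodF (fidx ts) 400 582 := GoodF.ofV v582 n582 c582.down b582.down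

/-- 484566:514/1 -/
noncomputable def e583 : SCfg where
  D := {
    a := 6
    L := 9
    kp := 7
    inn := [(0, 1), (0, 5), (1, 0), (1, 2), (1, 3), (1, 4), (1, 5), (2, 1), (2, 3), (3, 1), (3, 2), (4,
      1), (4, 5), (5, 0), (5, 1), (5, 4)]
    mix := [(0, 0), (0, 1), (1, 1), (1, 2), (1, 3), (2, 2), (2, 4), (3, 3), (3, 4), (3, 5), (4, 3), (4,
      5), (4, 6), (4, 7), (5, 0), (5, 7), (5, 8)]
    cl := [2, 1, 5, 0, 3, 4, 7, 0, 6]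
    chq := [(0, 1), (1, 0), (1, 3), (1, 4), (1, 6), (3, 1), (4, 1), (6, 1)]
    rng := [(0, 1), (0, 8), (1, 0), (1, 2), (2, 1), (2, 4), (3, 5), (4, 2), (4, 5), (5, 3), (5, 4), (5,
      6), (6, 5), (6, 7), (7, 6), (7, 8), (8, 0), (8, 7)]
    lev := [] }
  links := [[1, 5, 6, 7], [5, 0, 7, 8, 2, 3, 9, 4], [3, 1, 8, 10], [9, 1, 2, 10, 11], [5, 1, 9, 11, 12,
    13], [6, 0, 1, 4, 13, 14]]
  P := {
    a := 6
    N := 15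
    nb := [226, 957, 1290, 3590, 14882, 24659, 16545, 323, 1158, 2074, 2316, 5656, 10256, 20528, 8288]
    tri := [(0, 1, 5), (0, 1, 7), (0, 5, 6), (0, 6, 7), (1, 2, 3), (1, 2, 8), (1, 3, 9), (1, 4, 5), (1,
      4, 9), (1, 7, 8), (2, 3, 10), (2, 8, 10), (3, 9, 11), (3, 10, 11), (4, 5, 13), (4, 9, 11),
      (4, 11, 12), (4, 12, 13), (5, 6, 14), (5, 13, 14)]
    fin := [0, 1, 1, 1, 4, 1, 0, 1, 8, 4, 10, 11, 12, 4, 14]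
    chd := [(1, 4), (1, 10), (1, 11), (1, 14)]
    steps := [(0, 6), (1, 2), (1, 3), (1, 5), (1, 7), (4, 9), (4, 13)] }
  rep := [4, 1, 0, 10, 11, 8, 14, 12]

noncomputable def v583 : Cov.CovD where
  P := 3
  N := 5
  pl := [0, 2, 6]
  lev := [⟨[], [], [], [2], [(1, 1, [0, 3, 4, 6])]⟩,
    ⟨[], [(0, 0), (0, 1)], [(0, 1)], [5], [(1, 1, [0, 3, 4, 6]), (3, 0, [1])]⟩,
    ⟨[(0, 1)], [(1, 0), (1, 1), (1, 3)], [], [5], [(4, 3, [1])]⟩,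
    ⟨[(0, 1), (1, 2)], [(1, 0), (1, 1), (1, 3), (1, 4), (2, 0), (2, 3), (2, 4)], [(0, 3),
      (0, 4), (3, 4)], [], [(3, 0, [1]), (4, 3, [1]), (5, 4, [1])]⟩,
    ⟨[(0, 1), (1, 2), (1, 3)], [(1, 0), (1, 1), (1, 4), (3, 0), (3, 4)], [(0, 0), (0, 4)],
      [7], [(3, 0, [1]), (5, 4, [1]), (7, 0, [1])]⟩,
    ⟨[(0, 1), (0, 4), (1, 2), (1, 3), (1, 4)], [(0, 0), (0, 1), (0, 6), (1, 0), (1, 1), (1,
      6), (4, 0), (4, 4), (4, 6)], [(0, 6)], [2], [(7, 0, [1]), (8, 6, [1])]⟩]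
  Ta := [((3, 5), 0, 4), ((7, 6), 0, 7), ((7, 8), 0, 6)]
  Tb := [((0, 1, 8), 2, 1, 6), ((1, 0, 2), 1, 2, 5), ((2, 1, 4), 5, 1, 3), ((4, 2, 5), 3, 5, 4),
    ((5, 3, 4), 4, 0, 3), ((5, 3, 6), 4, 0, 7), ((5, 4, 6), 4, 3, 7), ((6, 5, 7), 7, 4, 0),
    ((7, 6, 8), 0, 7, 6), ((8, 0, 7), 6, 2, 0)]
  Tc := [(1, 0, 3), (1, 0, 4), (1, 0, 6), (1, 3, 4), (1, 3, 6), (1, 4, 6)]
  Td := [((0, 1), (3, 5), 4), ((0, 1), (7, 6), 7), ((0, 1), (7, 8), 6), ((1, 0), (1, 0), 2), ((1,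
    0), (1, 2), 5), ((1, 3), (1, 0), 2), ((1, 3), (1, 2), 5), ((1, 4), (1, 0), 2), ((1, 4),
    (1, 2), 5), ((1, 6), (1, 0), 2), ((1, 6), (1, 2), 5), ((3, 1), (4, 2), 5), ((3, 1), (4,
    5), 4), ((4, 1), (5, 3), 0), ((4, 1), (5, 4), 3), ((4, 1), (5, 6), 7), ((6, 1), (8, 0),
    2), ((6, 1), (8, 7), 0)]
  G := [[0, 0x116111c11a691812a111c111a116c3e4, 0x2aa2c224a22ae2742662c222c626a2b8c,
    0x111e224111e228c, 0x122166221a221a24a21627c2262282282b89], [0,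
    0x14126111a111c116a511a114411c1ee8, 0x2462522aa222ce16226e224282286ed8,
    0x4cc22188221cc622cca22cd, 0x28a2244c1226222ae1a2aa222ae16c9]]

noncomputable def n583 : Ent := ⟨e583, noF, [], [], []⟩

def c583 : PLift (Cov.check n583.C.D v583 = true) := ⟨by decide +kernel⟩

def b583 : PLift (entF (fidx ts) 400 583 n583 = true) := ⟨by decide +kernel⟩

theorem g583 : GoodF (fidx ts) 400 583 := GoodF.ofV v583 n583 c583.down b583.down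

/-- 484566:514 -/
noncomputable def e584 : SCfg where
  D := {
    a := 6
    L := 10
    kp := 8
    inn := [(0, 1), (0, 5), (1, 0), (1, 2), (1, 3), (1, 4), (1, 5), (2, 1), (2, 3), (3, 1), (3, 2), (4,
      1), (4, 5), (5, 0), (5, 1), (5, 4)]
    mix := [(0, 0), (0, 1), (1, 1), (1, 2), (1, 3), (2, 2), (2, 4), (3, 3), (3, 4), (3, 5), (4, 3), (4,
      6), (4, 7), (4, 8), (5, 0), (5, 8), (5, 9)]
    cl := [1, 0, 2, 3, 4, 5, 7, 8, 3, 6]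
    chq := [(0, 3), (0, 4), (0, 5), (0, 6), (3, 0), (4, 0), (5, 0), (6, 0)]
    rng := [(0, 1), (0, 9), (1, 0), (1, 2), (2, 1), (2, 4), (3, 5), (3, 6), (4, 2), (4, 5), (5, 3), (5,
      4), (6, 3), (6, 7), (7, 6), (7, 8), (8, 7), (8, 9), (9, 0), (9, 8)]
    lev := [] }
  links := [[1, 5, 6, 7], [5, 0, 7, 8, 2, 3, 9, 4], [3, 1, 8, 10], [9, 1, 2, 10, 11], [5, 1, 9, 12, 13,
    14], [6, 0, 1, 4, 14, 15]]
  P := {
    a := 6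
    N := 16
    nb := [226, 957, 1290, 3590, 29218, 49235, 32929, 323, 1158, 6170, 2316, 1544, 8720, 20496, 41008,
      16480]
    tri := [(0, 1, 5), (0, 1, 7), (0, 5, 6), (0, 6, 7), (1, 2, 3), (1, 2, 8), (1, 3, 9), (1, 4, 5), (1,
      4, 9), (1, 7, 8), (2, 3, 10), (2, 8, 10), (3, 9, 11), (3, 10, 11), (4, 5, 14), (4, 9, 12),
      (4, 12, 13), (4, 13, 14), (5, 6, 15), (5, 14, 15)]
    fin := [0, 1, 1, 1, 4, 1, 0, 1, 8, 4, 10, 11, 12, 13, 4, 15]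
    chd := [(1, 4), (1, 10), (1, 11), (1, 15)]
    steps := [(0, 6), (1, 2), (1, 3), (1, 5), (1, 7), (4, 9), (4, 14)] }
  rep := [1, 0, 8, 4, 10, 11, 15, 12, 13]

noncomputable def v584 : Cov.CovD where
  P := 3
  N := 6
  pl := [0, 2, 6, 7]
  lev := [⟨[], [], [], [1], [(1, 0, [3, 4, 5, 6])]⟩,
    ⟨[], [(0, 0), (0, 3)], [(0, 3)], [2], [(1, 0, [3, 4, 5, 6]), (3, 3, [0])]⟩,
    ⟨[(0, 1)], [(1, 0), (1, 3), (1, 4)], [], [2], [(4, 4, [0])]⟩,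
    ⟨[(0, 1), (1, 2)], [(1, 0), (1, 3), (1, 4), (1, 5), (2, 3), (2, 4), (2, 5)], [(3, 4),
      (3, 5), (4, 5)], [], [(3, 3, [0]), (4, 4, [0]), (5, 5, [0])]⟩,
    ⟨[(0, 1), (1, 2), (1, 3)], [(1, 0), (1, 3), (3, 3)], [(3, 3)], [7, 8], [(3, 3, [0]),
      (8, 3, [0])]⟩,
    ⟨[(0, 1), (0, 4), (1, 2), (1, 3), (1, 4)], [(0, 0), (0, 3), (0, 6), (1, 0), (1, 3), (1,
      6), (4, 3), (4, 6)], [(3, 6)], [1], [(8, 3, [0]), (9, 6, [0])]⟩]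
  Ta := [((3, 5), 3, 5), ((3, 6), 3, 7), ((8, 7), 3, 8), ((8, 9), 3, 6)]
  Tb := [((0, 1, 9), 1, 0, 6), ((1, 0, 2), 0, 1, 2), ((2, 1, 4), 2, 0, 4), ((3, 5, 6), 3, 5, 7),
    ((4, 2, 5), 4, 2, 5), ((5, 3, 4), 5, 3, 4), ((6, 3, 7), 7, 3, 8), ((7, 6, 8), 8, 7, 3),
    ((8, 7, 9), 3, 8, 6), ((9, 0, 8), 6, 1, 3)]
  Tc := [(0, 3, 4), (0, 3, 5), (0, 3, 6), (0, 4, 5), (0, 4, 6), (0, 5, 6)]
  Td := [((0, 3), (1, 0), 1), ((0, 3), (1, 2), 2), ((0, 4), (1, 0), 1), ((0, 4), (1, 2), 2), ((0,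
    5), (1, 0), 1), ((0, 5), (1, 2), 2), ((0, 6), (1, 0), 1), ((0, 6), (1, 2), 2), ((3, 0),
    (3, 5), 5), ((3, 0), (3, 6), 7), ((3, 0), (8, 7), 8), ((3, 0), (8, 9), 6), ((4, 0), (4,
    2), 2), ((4, 0), (4, 5), 5), ((5, 0), (5, 3), 3), ((5, 0), (5, 4), 4), ((6, 0), (9, 0),
    1), ((6, 0), (9, 8), 3)]
  G := [[0, 0x4444f118888f11c2, 0x111d1111d1a411b1111b1c68,
    0x1111f1111711573941111f111318119bb58c, 0x15511119f118185b1118f1185112125ba4], [0,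
    0xee31144411eac11ca, 0x1111f11111f1c28, 0x1111f111d1394111e148c, 0x111df12111df18a4]]

noncomputable def n584 : Ent := ⟨e584, noF, [], [], [(11, 12, [385753029973011613167317188540585705112827479461471962592997377, 0])]⟩

def c584 : PLift (Cov.check n584.C.D v584 = true) := ⟨by decide +kernel⟩

def b584 : PLift (entF (fidx ts) 400 584 n584 = true) := ⟨by decide +kernel⟩

theorem g584 : GoodF (fidx ts) 400 584 := GoodF.ofV v584 n584 c584.down b584.down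

/-- 484564:515/1 -/
noncomputable def e585 : SCfg where
  D := {
    a := 6
    L := 9
    kp := 6
    inn := [(0, 1), (1, 0), (1, 2), (1, 3), (1, 4), (2, 1), (2, 3), (3, 1), (3, 2), (4, 1), (4, 5), (5,
      4)]
    mix := [(0, 0), (0, 1), (0, 2), (1, 0), (1, 2), (1, 3), (1, 4), (2, 3), (2, 5), (3, 4), (3, 5), (3,
      6), (4, 0), (4, 4), (4, 7), (4, 8), (5, 4), (5, 6), (5, 7)]
    cl := [0, 5, 1, 0, 0, 2, 4, 3, 6]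
    chq := [(0, 3), (3, 0)]
    rng := [(0, 1), (0, 8), (1, 0), (1, 2), (2, 1), (2, 3), (3, 2), (3, 5), (4, 6), (5, 3), (5, 6), (6,
      4), (6, 5), (6, 7), (7, 6), (7, 8), (8, 0), (8, 7)]
    lev := [] }
  links := [[1, 6, 7, 8], [6, 0, 8, 9, 2, 3, 10, 4], [3, 1, 9, 11], [10, 1, 2, 11, 12], [6, 1, 10, 5, 13,
    14], [13, 4, 10, 12]]
  P := {
    a := 6
    N := 15
    nb := [450, 1885, 2570, 7174, 25698, 13328, 16531, 321, 643, 2310, 4154, 4620, 11304, 20528, 8272]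
    tri := [(0, 1, 6), (0, 1, 8), (0, 6, 7), (0, 7, 8), (1, 2, 3), (1, 2, 9), (1, 3, 10), (1, 4, 6),
      (1, 4, 10), (1, 8, 9), (2, 3, 11), (2, 9, 11), (3, 10, 12), (3, 11, 12), (4, 5, 10), (4, 5,
      13), (4, 6, 14), (4, 13, 14), (5, 10, 12), (5, 12, 13)]
    fin := [0, 0, 0, 0, 0, 0, 0, 7, 8, 0, 0, 11, 12, 13, 14]
    chd := [(0, 13)]
    steps := [(0, 1), (0, 2), (0, 3), (0, 4), (0, 6), (0, 9), (0, 10), (0, 5)] }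
  rep := [0, 8, 11, 13, 12, 7, 14]

noncomputable def v585 : Cov.CovD where
  P := 3
  N := 4
  pl := [1, 2, 5, 6, 8]
  lev := [⟨[], [], [], [1, 5], [(0, 0, [3])]⟩,
    ⟨[], [(0, 0)], [(0, 0)], [1], [(0, 0, [3]), (3, 0, [3]), (4, 0, [3])]⟩,
    ⟨[(0, 1)], [(1, 0)], [], [2], [(3, 0, [3])]⟩,
    ⟨[(0, 1), (1, 2)], [(1, 0), (2, 0)], [], [2, 4], [(4, 0, [3])]⟩,
    ⟨[(0, 1), (1, 2), (1, 3)], [(0, 0), (1, 0), (1, 3), (3, 0)], [(0, 0), (0, 3)], [6],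
      [(0, 0, [3]), (4, 0, [3]), (7, 3, [0])]⟩,
    ⟨[(1, 4)], [(1, 0), (3, 0), (4, 0), (4, 3)], [(0, 3)], [4], [(4, 0, [3]), (7, 3, [0])]⟩]
  Ta := [((0, 1), 0, 5), ((0, 8), 0, 6), ((3, 2), 0, 1), ((3, 5), 0, 2), ((4, 6), 0, 4)]
  Tb := [((0, 1, 8), 0, 5, 6), ((1, 0, 2), 5, 0, 1), ((2, 1, 3), 1, 5, 0), ((3, 2, 5), 0, 1, 2),
    ((5, 3, 6), 2, 0, 4), ((6, 4, 5), 4, 0, 2), ((6, 4, 7), 4, 0, 3), ((6, 5, 7), 4, 2, 3),
    ((7, 6, 8), 3, 4, 6), ((8, 0, 7), 6, 0, 3)]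
  Tc := []
  Td := [((0, 3), (0, 1), 5), ((0, 3), (0, 8), 6), ((0, 3), (3, 2), 1), ((0, 3), (3, 5), 2), ((0,
    3), (4, 6), 4), ((3, 0), (7, 6), 4), ((3, 0), (7, 8), 6)]
  G := [[0, 0, 0, 0x41641ea2e18c15ae26541881cc, 0x891e512ea1412aec6328812cc], [0,
    0x1212eecd82111e12ac8144466, 0x11614c11ae481, 0xee618e814c1, 0xee6188818a8c1], [0, 0, 0,
    0x642e448aee81c1, 0x446e2ea18ca82c1]]

noncomputable def n585 : Ent := ⟨e585, noF, [], [], []⟩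

def c585 : PLift (Cov.check n585.C.D v585 = true) := ⟨by decide +kernel⟩

def b585 : PLift (entF (fidx ts) 400 585 n585 = true) := ⟨by decide +kernel⟩

theorem g585 : GoodF (fidx ts) 400 585 := GoodF.ofV v585 n585 c585.down b585.down

/-- 484564:515 -/
noncomputable def e586 : SCfg where
  D := {
    a := 6
    L := 10
    kp := 7
    inn := [(0, 1), (1, 0), (1, 2), (1, 3), (1, 4), (2, 1), (2, 3), (3, 1), (3, 2), (4, 1), (4, 5), (5,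
      4)]
    mix := [(0, 0), (0, 1), (0, 2), (1, 0), (1, 2), (1, 3), (1, 4), (2, 3), (2, 5), (3, 4), (3, 5), (3,
      6), (4, 0), (4, 4), (4, 7), (4, 8), (5, 4), (5, 7), (5, 9)]
    cl := [0, 4, 1, 0, 0, 2, 5, 3, 6, 7]
    chq := [(0, 3), (3, 0)]
    rng := [(0, 1), (0, 8), (1, 0), (1, 2), (2, 1), (2, 3), (3, 2), (3, 5), (4, 6), (4, 9), (5, 3), (5,
      6), (6, 4), (6, 5), (7, 8), (7, 9), (8, 0), (8, 7), (9, 4), (9, 7)]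
    lev := [] }
  links := [[1, 6, 7, 8], [6, 0, 8, 9, 2, 3, 10, 4], [3, 1, 9, 11], [10, 1, 2, 11, 12], [6, 1, 10, 5, 13,
    14], [13, 4, 10, 15]]
  P := {
    a := 6
    N := 16
    nb := [450, 1885, 2570, 7174, 25698, 42000, 16531, 321, 643, 2310, 36922, 4620, 3080, 49200, 8272,
      9248]
    tri := [(0, 1, 6), (0, 1, 8), (0, 6, 7), (0, 7, 8), (1, 2, 3), (1, 2, 9), (1, 3, 10), (1, 4, 6),
      (1, 4, 10), (1, 8, 9), (2, 3, 11), (2, 9, 11), (3, 10, 12), (3, 11, 12), (4, 5, 10), (4, 5,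
      13), (4, 6, 14), (4, 13, 14), (5, 10, 15), (5, 13, 15)]
    fin := [0, 0, 0, 0, 0, 0, 0, 7, 8, 0, 0, 11, 12, 13, 14, 15]
    chd := [(0, 13)]
    steps := [(0, 1), (0, 2), (0, 3), (0, 4), (0, 5), (0, 6), (0, 9), (0, 10)] }
  rep := [0, 8, 11, 13, 7, 12, 14, 15]

noncomputable def v586 : Cov.CovD where
  P := 3
  N := 5
  pl := [1, 2, 5, 6, 8, 9]
  lev := [⟨[], [], [], [1, 4], [(0, 0, [3])]⟩,
    ⟨[], [(0, 0)], [(0, 0)], [1], [(0, 0, [3]), (3, 0, [3]), (4, 0, [3])]⟩,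
    ⟨[(0, 1)], [(1, 0)], [], [2], [(3, 0, [3])]⟩,
    ⟨[(0, 1), (1, 2)], [(1, 0), (2, 0)], [], [2, 5], [(4, 0, [3])]⟩,
    ⟨[(0, 1), (1, 2), (1, 3)], [(0, 0), (1, 0), (1, 3), (3, 0)], [(0, 0), (0, 3)], [6],
      [(0, 0, [3]), (4, 0, [3]), (7, 3, [0])]⟩,
    ⟨[(1, 4)], [(1, 0), (3, 0), (4, 0), (4, 3)], [(0, 3)], [7], [(4, 0, [3]), (7, 3, [0])]⟩]
  Ta := [((0, 1), 0, 4), ((0, 8), 0, 6), ((3, 2), 0, 1), ((3, 5), 0, 2), ((4, 6), 0, 5), ((4, 9),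
    0, 7)]
  Tb := [((0, 1, 8), 0, 4, 6), ((1, 0, 2), 4, 0, 1), ((2, 1, 3), 1, 4, 0), ((3, 2, 5), 0, 1, 2),
    ((4, 6, 9), 0, 5, 7), ((5, 3, 6), 2, 0, 5), ((6, 4, 5), 5, 0, 2), ((7, 8, 9), 3, 6, 7),
    ((8, 0, 7), 6, 0, 3), ((9, 4, 7), 7, 0, 3)]
  Tc := []
  Td := [((0, 3), (0, 1), 4), ((0, 3), (0, 8), 6), ((0, 3), (3, 2), 1), ((0, 3), (3, 5), 2), ((0,
    3), (4, 6), 5), ((0, 3), (4, 9), 7), ((3, 0), (7, 8), 6), ((3, 0), (7, 9), 7)]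
  G := [[0, 0, 0, 0x1444148eea1ccee618e818cc, 0x1414eeab84ee618e812cc], [0,
    0x111e111ec421212c8eec186a, 0x111e11a14e841, 0xe418eea18c1, 0x1414eeab241], [0, 0, 0,
    0x44e4c4eaeeeeac8c1, 0xee6ee6a2e8e8a2c1]]

noncomputable def n586 : Ent := ⟨e586, noF, [], [], [(12, 15, [360035742630636841211993100915356868655746945586763691010068481, 0])]⟩

def c586 : PLift (Cov.check n586.C.D v586 = true) := ⟨by decide +kernel⟩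

def b586 : PLift (entF (fidx ts) 400 586 n586 = true) := ⟨by decide +kernel⟩

theorem g586 : GoodF (fidx ts) 400 586 := GoodF.ofV v586 n586 c586.down b586.down

/-- 484564:516 -/
noncomputable def e587 : SCfg where
  D := {
    a := 6
    L := 10
    kp := 7
    inn := [(0, 1), (1, 0), (1, 2), (1, 3), (1, 4), (2, 1), (2, 3), (3, 1), (3, 2), (4, 1), (4, 5), (5,
      4)]
    mix := [(0, 0), (0, 1), (0, 2), (1, 0), (1, 2), (1, 3), (1, 4), (2, 3), (2, 5), (3, 4), (3, 5), (3,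
      6), (4, 0), (4, 4), (4, 7), (4, 8), (5, 7), (5, 8), (5, 9)]
    cl := [0, 5, 1, 0, 0, 2, 6, 3, 4, 7]
    chq := [(3, 4), (4, 3)]
    rng := [(0, 1), (0, 8), (1, 0), (1, 2), (2, 1), (2, 3), (3, 2), (3, 5), (4, 6), (4, 7), (5, 3), (5,
      6), (6, 4), (6, 5), (7, 4), (7, 9), (8, 0), (8, 9), (9, 7), (9, 8)]
    lev := [] }
  links := [[1, 6, 7, 8], [6, 0, 8, 9, 2, 3, 10, 4], [3, 1, 9, 11], [10, 1, 2, 11, 12], [6, 1, 10, 13, 5,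
    14], [14, 4, 13, 15]]
  P := {
    a := 6
    N := 16
    nb := [450, 1885, 2570, 7174, 25698, 57360, 16531, 321, 643, 2310, 12314, 4620, 3080, 33840,
      32880, 24608]
    tri := [(0, 1, 6), (0, 1, 8), (0, 6, 7), (0, 7, 8), (1, 2, 3), (1, 2, 9), (1, 3, 10), (1, 4, 6),
      (1, 4, 10), (1, 8, 9), (2, 3, 11), (2, 9, 11), (3, 10, 12), (3, 11, 12), (4, 5, 13), (4, 5,
      14), (4, 6, 14), (4, 10, 13), (5, 13, 15), (5, 14, 15)]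
    fin := [0, 0, 0, 0, 0, 5, 0, 7, 8, 0, 0, 11, 12, 5, 14, 15]
    chd := [(5, 14)]
    steps := [(0, 1), (0, 2), (0, 3), (0, 4), (0, 6), (0, 9), (0, 10), (5, 13)] }
  rep := [0, 8, 11, 5, 14, 7, 12, 15]

noncomputable def v587 : Cov.CovD where
  P := 3
  N := 5
  pl := [1, 2, 5, 6, 9]
  lev := [⟨[], [], [], [1, 5], [(0, 0, [])]⟩,
    ⟨[], [(0, 0)], [(0, 0)], [1], [(0, 0, []), (3, 0, []), (4, 0, [])]⟩,
    ⟨[(0, 1)], [(1, 0)], [], [2], [(3, 0, [])]⟩,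
    ⟨[(0, 1), (1, 2)], [(1, 0), (2, 0)], [], [2, 6], [(4, 0, [])]⟩,
    ⟨[(0, 1), (1, 2), (1, 3)], [(0, 0), (1, 0), (1, 3), (1, 4), (3, 0)], [(0, 0), (0, 3),
      (0, 4), (3, 4)], [], [(0, 0, []), (4, 0, []), (7, 3, [4]), (8, 4, [3])]⟩,
    ⟨[(1, 4)], [(4, 0), (4, 3), (4, 4)], [(3, 4)], [7], [(7, 3, [4]), (8, 4, [3])]⟩]
  Ta := [((0, 1), 0, 5), ((0, 8), 0, 4), ((3, 2), 0, 1), ((3, 5), 0, 2), ((4, 6), 0, 6), ((4, 7),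
    0, 3)]
  Tb := [((0, 1, 8), 0, 5, 4), ((1, 0, 2), 5, 0, 1), ((2, 1, 3), 1, 5, 0), ((3, 2, 5), 0, 1, 2),
    ((4, 6, 7), 0, 6, 3), ((5, 3, 6), 2, 0, 6), ((6, 4, 5), 6, 0, 2), ((7, 4, 9), 3, 0, 7),
    ((8, 0, 9), 4, 0, 7), ((9, 7, 8), 7, 3, 4)]
  Tc := []
  Td := [((3, 4), (7, 4), 0), ((3, 4), (7, 9), 7), ((4, 3), (8, 0), 0), ((4, 3), (8, 9), 7)]
  G := [[0, 0, 0, 0x536149818c541493a18cc, 0x536129818c541893a18cc], [0,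
    0x536149818c93a1854146c, 0x536153e649888a2c1, 0x536189814c1, 0x536129818c1], [0, 0, 0,
    0x4454c4913e93ac1c1, 0x54153ea193a88a1c1]]

noncomputable def n587 : Ent := ⟨e587, noF, [], [], []⟩

def c587 : PLift (Cov.check n587.C.D v587 = true) := ⟨by decide +kernel⟩

def b587 : PLift (entF (fidx ts) 400 587 n587 = true) := ⟨by decide +kernel⟩

theorem g587 : GoodF (fidx ts) 400 587 := GoodF.ofV v587 n587 c587.down b587.down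

/-- 484564:517/2 -/
noncomputable def e588 : SCfg where
  D := {
    a := 6
    L := 8
    kp := 5
    inn := [(0, 1), (1, 0), (1, 2), (1, 3), (1, 4), (2, 1), (2, 3), (3, 1), (3, 2), (4, 1), (4, 5), (5,
      4)]
    mix := [(0, 0), (0, 1), (0, 2), (1, 0), (1, 2), (1, 3), (1, 4), (2, 3), (2, 5), (3, 4), (3, 5), (3,
      6), (4, 0), (4, 4), (4, 6), (4, 7), (5, 0), (5, 1), (5, 7)]
    cl := [0, 4, 1, 0, 0, 2, 5, 3]
    chq := [(0, 3), (3, 0)]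
    rng := [(0, 1), (1, 0), (1, 2), (1, 7), (2, 1), (2, 3), (3, 2), (3, 5), (4, 6), (5, 3), (5, 6), (6,
      4), (6, 5), (6, 7), (7, 1), (7, 6)]
    lev := [] }
  links := [[1, 6, 7, 8], [6, 0, 8, 9, 2, 3, 10, 4], [3, 1, 9, 11], [10, 1, 2, 11, 12], [6, 1, 10, 12,
    13, 5], [6, 4, 13, 7]]
  P := {
    a := 6
    N := 14
    nb := [450, 1885, 2570, 7174, 13410, 8400, 179, 8545, 643, 2310, 4122, 4620, 11288, 4272]
    tri := [(0, 1, 6), (0, 1, 8), (0, 6, 7), (0, 7, 8), (1, 2, 3), (1, 2, 9), (1, 3, 10), (1, 4, 6),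
      (1, 4, 10), (1, 8, 9), (2, 3, 11), (2, 9, 11), (3, 10, 12), (3, 11, 12), (4, 5, 6), (4, 5,
      13), (4, 10, 12), (4, 12, 13), (5, 6, 7), (5, 7, 13)]
    fin := [0, 0, 0, 0, 0, 0, 0, 7, 8, 0, 0, 11, 12, 13]
    chd := [(0, 13)]
    steps := [(0, 1), (0, 2), (0, 3), (0, 6), (0, 5), (0, 9), (0, 10), (0, 4)] }
  rep := [0, 8, 11, 13, 7, 12]

noncomputable def v588 : Cov.CovD where
  P := 3
  N := 3
  pl := [1, 2, 5, 6]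
  lev := [⟨[], [], [], [1, 4], [(0, 0, [3])]⟩,
    ⟨[], [(0, 0)], [(0, 0)], [1], [(0, 0, [3]), (3, 0, [3]), (4, 0, [3])]⟩,
    ⟨[(0, 1)], [(1, 0)], [], [2], [(3, 0, [3])]⟩,
    ⟨[(0, 1), (1, 2)], [(1, 0), (2, 0)], [], [2, 5], [(4, 0, [3])]⟩,
    ⟨[(0, 1), (1, 2), (1, 3)], [(0, 0), (1, 0), (1, 3), (3, 0)], [(0, 0), (0, 3)], [5],
      [(0, 0, [3]), (4, 0, [3]), (7, 3, [0])]⟩,
    ⟨[(1, 4)], [(0, 0), (1, 0), (4, 0), (4, 3)], [(0, 3)], [4], [(0, 0, [3]), (7, 3, [0])]⟩]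
  Ta := [((0, 1), 0, 4), ((3, 2), 0, 1), ((3, 5), 0, 2), ((4, 6), 0, 5)]
  Tb := [((1, 0, 2), 4, 0, 1), ((1, 0, 7), 4, 0, 3), ((1, 2, 7), 4, 1, 3), ((2, 1, 3), 1, 4, 0),
    ((3, 2, 5), 0, 1, 2), ((5, 3, 6), 2, 0, 5), ((6, 4, 5), 5, 0, 2), ((6, 4, 7), 5, 0, 3),
    ((6, 5, 7), 5, 2, 3), ((7, 1, 6), 3, 4, 5)]
  Tc := []
  Td := [((0, 3), (0, 1), 4), ((0, 3), (3, 2), 1), ((0, 3), (3, 5), 2), ((0, 3), (4, 6), 5), ((3,
    0), (7, 1), 4), ((3, 0), (7, 6), 5)]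
  G := [[0, 0, 0, 0x8aae184646e148c, 0x8aee184642e128c], [0, 0x141e142811e1846,
    0x81c816a8444421812a2cc, 0xe448eea14c1, 0xee618e812c1], [0, 0, 0, 0x1888462ea6c48888c5,
    0x64c4a1e8e2a1c1]]

noncomputable def n588 : Ent := ⟨e588, noF, [], [], []⟩

def c588 : PLift (Cov.check n588.C.D v588 = true) := ⟨by decide +kernel⟩

def b588 : PLift (entF (fidx ts) 400 588 n588 = true) := ⟨by decide +kernel⟩

theorem g588 : GoodF (fidx ts) 400 588 := GoodF.ofV v588 n588 c588.down b588.down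

/-- 484564:517/1 -/
noncomputable def e589 : SCfg where
  D := {
    a := 6
    L := 9
    kp := 6
    inn := [(0, 1), (1, 0), (1, 2), (1, 3), (1, 4), (2, 1), (2, 3), (3, 1), (3, 2), (4, 1), (4, 5), (5,
      4)]
    mix := [(0, 0), (0, 1), (0, 2), (1, 0), (1, 2), (1, 3), (1, 4), (2, 3), (2, 5), (3, 4), (3, 5), (3,
      6), (4, 0), (4, 4), (4, 7), (4, 8), (5, 0), (5, 1), (5, 8)]
    cl := [0, 4, 1, 0, 0, 2, 5, 6, 3]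
    chq := [(0, 3), (3, 0)]
    rng := [(0, 1), (1, 0), (1, 2), (1, 8), (2, 1), (2, 3), (3, 2), (3, 5), (4, 6), (4, 7), (5, 3), (5,
      6), (6, 4), (6, 5), (7, 4), (7, 8), (8, 1), (8, 7)]
    lev := [] }
  links := [[1, 6, 7, 8], [6, 0, 8, 9, 2, 3, 10, 4], [3, 1, 9, 11], [10, 1, 2, 11, 12], [6, 1, 10, 13,
    14, 5], [6, 4, 14, 7]]
  P := {
    a := 6
    N := 15
    nb := [450, 1885, 2570, 7174, 25698, 16592, 179, 16737, 643, 2310, 12314, 4620, 3080, 17424, 8368]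
    tri := [(0, 1, 6), (0, 1, 8), (0, 6, 7), (0, 7, 8), (1, 2, 3), (1, 2, 9), (1, 3, 10), (1, 4, 6),
      (1, 4, 10), (1, 8, 9), (2, 3, 11), (2, 9, 11), (3, 10, 12), (3, 11, 12), (4, 5, 6), (4, 5,
      14), (4, 10, 13), (4, 13, 14), (5, 6, 7), (5, 7, 14)]
    fin := [0, 0, 0, 0, 0, 0, 0, 7, 8, 0, 0, 11, 12, 13, 14]
    chd := [(0, 14)]
    steps := [(0, 1), (0, 2), (0, 3), (0, 4), (0, 6), (0, 5), (0, 9), (0, 10)] }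
  rep := [0, 8, 11, 14, 7, 12, 13]

noncomputable def v589 : Cov.CovD where
  P := 3
  N := 4
  pl := [1, 2, 5, 6, 7]
  lev := [⟨[], [], [], [1, 4], [(0, 0, [3])]⟩,
    ⟨[], [(0, 0)], [(0, 0)], [1], [(0, 0, [3]), (3, 0, [3]), (4, 0, [3])]⟩,
    ⟨[(0, 1)], [(1, 0)], [], [2], [(3, 0, [3])]⟩,
    ⟨[(0, 1), (1, 2)], [(1, 0), (2, 0)], [], [2, 5], [(4, 0, [3])]⟩,
    ⟨[(0, 1), (1, 2), (1, 3)], [(0, 0), (1, 0), (1, 3), (3, 0)], [(0, 0), (0, 3)], [6],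
      [(0, 0, [3]), (4, 0, [3]), (8, 3, [0])]⟩,
    ⟨[(1, 4)], [(0, 0), (1, 0), (4, 0), (4, 3)], [(0, 3)], [4], [(0, 0, [3]), (8, 3, [0])]⟩]
  Ta := [((0, 1), 0, 4), ((3, 2), 0, 1), ((3, 5), 0, 2), ((4, 6), 0, 5), ((4, 7), 0, 6)]
  Tb := [((1, 0, 2), 4, 0, 1), ((1, 0, 8), 4, 0, 3), ((1, 2, 8), 4, 1, 3), ((2, 1, 3), 1, 4, 0),
    ((3, 2, 5), 0, 1, 2), ((4, 6, 7), 0, 5, 6), ((5, 3, 6), 2, 0, 5), ((6, 4, 5), 5, 0, 2),
    ((7, 4, 8), 6, 0, 3), ((8, 1, 7), 3, 4, 6)]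
  Tc := []
  Td := [((0, 3), (0, 1), 4), ((0, 3), (3, 2), 1), ((0, 3), (3, 5), 2), ((0, 3), (4, 6), 5), ((0,
    3), (4, 7), 6), ((3, 0), (8, 1), 4), ((3, 0), (8, 7), 6)]
  G := [[0, 0, 0, 0x8a2e18444186ea18cc, 0x8a2e18464ee128c], [0, 0x841e182111e1846,
    0x1411a111ee24142e141e628c, 0xee618e818c1, 0x6eee128818c1], [0, 0, 0,
    0xe4e4c1eea8eea45c1, 0x4444a2eaeeeaeea8c1]]

noncomputable def n589 : Ent := ⟨e589, noF, [], [], [(12, 13, [87897818358406171357428020359653357189577334862559920308225, 0])]⟩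

def c589 : PLift (Cov.check n589.C.D v589 = true) := ⟨by decide +kernel⟩

def b589 : PLift (entF (fidx ts) 400 589 n589 = true) := ⟨by decide +kernel⟩

theorem g589 : GoodF (fidx ts) 400 589 := GoodF.ofV v589 n589 c589.down b589.down

/-- 484564:517/3 -/
noncomputable def e590 : SCfg where
  D := {
    a := 6
    L := 9
    kp := 6
    inn := [(0, 1), (1, 0), (1, 2), (1, 3), (1, 4), (2, 1), (2, 3), (3, 1), (3, 2), (4, 1), (4, 5), (5,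
      4)]
    mix := [(0, 0), (0, 1), (0, 2), (1, 0), (1, 2), (1, 3), (1, 4), (2, 3), (2, 5), (3, 4), (3, 5), (3,
      6), (4, 0), (4, 4), (4, 6), (4, 7), (5, 0), (5, 7), (5, 8)]
    cl := [0, 5, 1, 0, 0, 2, 4, 3, 6]
    chq := [(0, 3), (3, 0)]
    rng := [(0, 1), (0, 8), (1, 0), (1, 2), (2, 1), (2, 3), (3, 2), (3, 5), (4, 6), (5, 3), (5, 6), (6,
      4), (6, 5), (6, 7), (7, 6), (7, 8), (8, 0), (8, 7)]
    lev := [] }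
  links := [[1, 6, 7, 8], [6, 0, 8, 9, 2, 3, 10, 4], [3, 1, 9, 11], [10, 1, 2, 11, 12], [6, 1, 10, 12,
    13, 5], [6, 4, 13, 14]]
  P := {
    a := 6
    N := 15
    nb := [450, 1885, 2570, 7174, 13410, 24656, 16563, 321, 643, 2310, 4122, 4620, 11288, 20528, 8288]
    tri := [(0, 1, 6), (0, 1, 8), (0, 6, 7), (0, 7, 8), (1, 2, 3), (1, 2, 9), (1, 3, 10), (1, 4, 6),
      (1, 4, 10), (1, 8, 9), (2, 3, 11), (2, 9, 11), (3, 10, 12), (3, 11, 12), (4, 5, 6), (4, 5,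
      13), (4, 10, 12), (4, 12, 13), (5, 6, 14), (5, 13, 14)]
    fin := [0, 0, 0, 0, 0, 0, 0, 7, 8, 0, 0, 11, 12, 13, 14]
    chd := [(0, 13)]
    steps := [(0, 1), (0, 2), (0, 3), (0, 6), (0, 5), (0, 9), (0, 10), (0, 4)] }
  rep := [0, 8, 11, 13, 12, 7, 14]

noncomputable def v590 : Cov.CovD where
  P := 3
  N := 4
  pl := [1, 2, 5, 6, 8]
  lev := [⟨[], [], [], [1, 5], [(0, 0, [3])]⟩,
    ⟨[], [(0, 0)], [(0, 0)], [1], [(0, 0, [3]), (3, 0, [3]), (4, 0, [3])]⟩,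
    ⟨[(0, 1)], [(1, 0)], [], [2], [(3, 0, [3])]⟩,
    ⟨[(0, 1), (1, 2)], [(1, 0), (2, 0)], [], [2, 4], [(4, 0, [3])]⟩,
    ⟨[(0, 1), (1, 2), (1, 3)], [(0, 0), (1, 0), (1, 3), (3, 0)], [(0, 0), (0, 3)], [4],
      [(0, 0, [3]), (4, 0, [3]), (7, 3, [0])]⟩,
    ⟨[(1, 4)], [(0, 0), (1, 0), (4, 0), (4, 3)], [(0, 3)], [6], [(0, 0, [3]), (7, 3, [0])]⟩]
  Ta := [((0, 1), 0, 5), ((0, 8), 0, 6), ((3, 2), 0, 1), ((3, 5), 0, 2), ((4, 6), 0, 4)]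
  Tb := [((0, 1, 8), 0, 5, 6), ((1, 0, 2), 5, 0, 1), ((2, 1, 3), 1, 5, 0), ((3, 2, 5), 0, 1, 2),
    ((5, 3, 6), 2, 0, 4), ((6, 4, 5), 4, 0, 2), ((6, 4, 7), 4, 0, 3), ((6, 5, 7), 4, 2, 3),
    ((7, 6, 8), 3, 4, 6), ((8, 0, 7), 6, 0, 3)]
  Tc := []
  Td := [((0, 3), (0, 1), 5), ((0, 3), (0, 8), 6), ((0, 3), (3, 2), 1), ((0, 3), (3, 5), 2), ((0,
    3), (4, 6), 4), ((3, 0), (7, 6), 4), ((3, 0), (7, 8), 6)]
  G := [[0, 0, 0, 0xee614e888cee614e881cc, 0xce612e2c81ce418e2e832cc], [0, 0x18116982111e184a,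
    0x11c116a241412681882cc, 0xee618e814c1, 0xe418eea12c1], [0, 0, 0, 0xea648e6a88c1,
    0xce624489e2c82c1]]

noncomputable def n590 : Ent := ⟨e590, noF, [], [], [(7, 14, [81620716623019490593592230936445690773474979418095885795329, 0])]⟩

def c590 : PLift (Cov.check n590.C.D v590 = true) := ⟨by decide +kernel⟩

def b590 : PLift (entF (fidx ts) 400 590 n590 = true) := ⟨by decide +kernel⟩

theorem g590 : GoodF (fidx ts) 400 590 := GoodF.ofV v590 n590 c590.down b590.down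

/-- 484564:517 -/
noncomputable def e591 : SCfg where
  D := {
    a := 6
    L := 10
    kp := 7
    inn := [(0, 1), (1, 0), (1, 2), (1, 3), (1, 4), (2, 1), (2, 3), (3, 1), (3, 2), (4, 1), (4, 5), (5,
      4)]
    mix := [(0, 0), (0, 1), (0, 2), (1, 0), (1, 2), (1, 3), (1, 4), (2, 3), (2, 5), (3, 4), (3, 5), (3,
      6), (4, 0), (4, 4), (4, 7), (4, 8), (5, 0), (5, 8), (5, 9)]
    cl := [0, 4, 1, 0, 0, 2, 5, 6, 3, 7]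
    chq := [(0, 3), (3, 0)]
    rng := [(0, 1), (0, 9), (1, 0), (1, 2), (2, 1), (2, 3), (3, 2), (3, 5), (4, 6), (4, 7), (5, 3), (5,
      6), (6, 4), (6, 5), (7, 4), (7, 8), (8, 7), (8, 9), (9, 0), (9, 8)]
    lev := [] }
  links := [[1, 6, 7, 8], [6, 0, 8, 9, 2, 3, 10, 4], [3, 1, 9, 11], [10, 1, 2, 11, 12], [6, 1, 10, 13,
    14, 5], [6, 4, 14, 15]]
  P := {
    a := 6
    N := 16
    nb := [450, 1885, 2570, 7174, 25698, 49232, 32947, 321, 643, 2310, 12314, 4620, 3080, 17424,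
      41008, 16480]
    tri := [(0, 1, 6), (0, 1, 8), (0, 6, 7), (0, 7, 8), (1, 2, 3), (1, 2, 9), (1, 3, 10), (1, 4, 6),
      (1, 4, 10), (1, 8, 9), (2, 3, 11), (2, 9, 11), (3, 10, 12), (3, 11, 12), (4, 5, 6), (4, 5,
      14), (4, 10, 13), (4, 13, 14), (5, 6, 15), (5, 14, 15)]
    fin := [0, 0, 0, 0, 0, 0, 0, 7, 8, 0, 0, 11, 12, 13, 14, 15]
    chd := [(0, 14)]
    steps := [(0, 1), (0, 2), (0, 3), (0, 4), (0, 5), (0, 6), (0, 9), (0, 10)] }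
  rep := [0, 8, 11, 14, 7, 12, 13, 15]

noncomputable def v591 : Cov.CovD where
  P := 3
  N := 5
  pl := [1, 2, 5, 6, 7, 9]
  lev := [⟨[], [], [], [1, 4], [(0, 0, [3])]⟩,
    ⟨[], [(0, 0)], [(0, 0)], [1], [(0, 0, [3]), (3, 0, [3]), (4, 0, [3])]⟩,
    ⟨[(0, 1)], [(1, 0)], [], [2], [(3, 0, [3])]⟩,
    ⟨[(0, 1), (1, 2)], [(1, 0), (2, 0)], [], [2, 5], [(4, 0, [3])]⟩,
    ⟨[(0, 1), (1, 2), (1, 3)], [(0, 0), (1, 0), (1, 3), (3, 0)], [(0, 0), (0, 3)], [6],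
      [(0, 0, [3]), (4, 0, [3]), (8, 3, [0])]⟩,
    ⟨[(1, 4)], [(0, 0), (1, 0), (4, 0), (4, 3)], [(0, 3)], [7], [(0, 0, [3]), (8, 3, [0])]⟩]
  Ta := [((0, 1), 0, 4), ((0, 9), 0, 7), ((3, 2), 0, 1), ((3, 5), 0, 2), ((4, 6), 0, 5), ((4, 7),
    0, 6)]
  Tb := [((0, 1, 9), 0, 4, 7), ((1, 0, 2), 4, 0, 1), ((2, 1, 3), 1, 4, 0), ((3, 2, 5), 0, 1, 2),
    ((4, 6, 7), 0, 5, 6), ((5, 3, 6), 2, 0, 5), ((6, 4, 5), 5, 0, 2), ((7, 4, 8), 6, 0, 3),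
    ((8, 7, 9), 3, 6, 7), ((9, 0, 8), 7, 0, 3)]
  Tc := []
  Td := [((0, 3), (0, 1), 4), ((0, 3), (0, 9), 7), ((0, 3), (3, 2), 1), ((0, 3), (3, 5), 2), ((0,
    3), (4, 6), 5), ((0, 3), (4, 7), 6), ((3, 0), (8, 7), 6), ((3, 0), (8, 9), 7)]
  G := [[0, 0, 0, 0xe414eea14ce418eea18cc, 0xee612e818ce418eea12cc], [0, 0x111e148111e1486,
    0x111e111ea24111e111e628c, 0xe414eea18c1, 0xee612e818c1], [0, 0, 0, 0xee6ee6c1e8e8c8c1,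
    0xe4e4a2eeaeeaa2c1]]

noncomputable def n591 : Ent := ⟨e591, noF, [], [], [(7, 15, [360035742630636841211993100915356868655746945586763691010084865, 0]), (12, 13, [385753028440516072301428330182238677962518295842732840409423873, 0])]⟩

def c591 : PLift (Cov.check n591.C.D v591 = true) := ⟨by decide +kernel⟩

def b591 : PLift (entF (fidx ts) 400 591 n591 = true) := ⟨by decide +kernel⟩

theorem g591 : GoodF (fidx ts) 400 591 := GoodF.ofV v591 n591 c591.down b591.down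

/-- 484564:518/1 -/
noncomputable def e592 : SCfg where
  D := {
    a := 6
    L := 8
    kp := 5
    inn := [(0, 1), (0, 4), (1, 0), (1, 2), (1, 3), (1, 4), (2, 1), (2, 3), (3, 1), (3, 2), (4, 0), (4,
      1), (4, 5), (5, 4)]
    mix := [(0, 0), (0, 1), (1, 1), (1, 2), (1, 3), (1, 4), (2, 2), (2, 5), (3, 3), (3, 5), (3, 6), (4,
      0), (4, 4), (4, 7), (5, 0), (5, 5), (5, 7)]
    cl := [0, 2, 1, 1, 0, 3, 5, 4]
    chq := []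
    rng := [(0, 1), (0, 5), (1, 0), (1, 2), (2, 1), (2, 5), (3, 4), (3, 6), (4, 3), (4, 7), (5, 0), (5,
      2), (5, 6), (5, 7), (6, 3), (6, 5), (7, 4), (7, 5)]
    lev := [] }
  links := [[1, 4, 6, 7], [4, 0, 7, 8, 2, 3, 9, 10], [3, 1, 8, 11], [9, 1, 2, 11, 12], [6, 0, 1, 10, 13,
    5], [6, 4, 13, 11]]
  P := {
    a := 6
    N := 14
    nb := [210, 1949, 2314, 6662, 9315, 10320, 2225, 323, 2182, 5130, 8722, 12652, 2568, 3120]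
    tri := [(0, 1, 4), (0, 1, 7), (0, 4, 6), (0, 6, 7), (1, 2, 3), (1, 2, 8), (1, 3, 9), (1, 4, 10),
      (1, 7, 8), (1, 9, 10), (2, 3, 11), (2, 8, 11), (3, 9, 12), (3, 11, 12), (4, 5, 6), (4, 5,
      13), (4, 10, 13), (5, 6, 11), (5, 11, 13)]
    fin := [0, 0, 2, 2, 0, 0, 0, 7, 2, 2, 0, 11, 12, 13]
    chd := []
    steps := [(0, 1), (0, 4), (0, 5), (0, 6), (0, 10), (2, 3), (2, 8), (2, 9)] }
  rep := [0, 2, 7, 11, 13, 12]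

noncomputable def v592 : Cov.CovD where
  P := 3
  N := 3
  pl := [1, 5, 6, 7]
  lev := [⟨[], [], [], [2], [(0, 0, [])]⟩,
    ⟨[], [(0, 0), (0, 1)], [(0, 1), (1, 1)], [2], [(2, 1, []), (3, 1, []), (4, 0, [])]⟩,
    ⟨[(0, 1)], [(1, 0), (1, 1)], [], [3], [(2, 1, [])]⟩,
    ⟨[(0, 1), (1, 2)], [(1, 0), (1, 1), (2, 1)], [], [3, 5], [(3, 1, [])]⟩,
    ⟨[(0, 1), (1, 2), (1, 3)], [(0, 0), (1, 0), (1, 1)], [(0, 0)], [4], [(0, 0, []), (4, 0,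
      [])]⟩,
    ⟨[(0, 4), (1, 4)], [(0, 0), (4, 0)], [], [3, 4], [(0, 0, [])]⟩]
  Ta := [((0, 1), 0, 2), ((0, 5), 0, 3), ((2, 1), 1, 2), ((2, 5), 1, 3), ((3, 4), 1, 0), ((3, 6),
    1, 5), ((4, 3), 0, 1), ((4, 7), 0, 4)]
  Tb := [((0, 1, 5), 0, 2, 3), ((1, 0, 2), 2, 0, 1), ((2, 1, 5), 1, 2, 3), ((3, 4, 6), 1, 0, 5),
    ((4, 3, 7), 0, 1, 4), ((5, 0, 2), 3, 0, 1), ((5, 0, 6), 3, 0, 5), ((5, 0, 7), 3, 0, 4),
    ((5, 2, 6), 3, 1, 5), ((5, 2, 7), 3, 1, 4), ((5, 6, 7), 3, 5, 4), ((6, 3, 5), 5, 1, 3),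
    ((7, 4, 5), 4, 0, 3)]
  Tc := []
  Td := []
  G := [[0, 0, 0xc2c2a84ab144, 0x82624262c18, 0xc2826ac224c6c18], [0, 0, 0x82642a482ed284, 0,
    0x426c26528268898], [0, 0, 0, 0x1262184, 0xc2126c27188], [0, 0x11641a21ce184, 0, 0,
    0x18614c316d182]]

noncomputable def n592 : Ent := ⟨e592, noF, [], [], []⟩

def c592 : PLift (Cov.check n592.C.D v592 = true) := ⟨by decide +kernel⟩

def b592 : PLift (entF (fidx ts) 400 592 n592 = true) := ⟨by decide +kernel⟩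

theorem g592 : GoodF (fidx ts) 400 592 := GoodF.ofV v592 n592 c592.down b592.down

/-- 484564:518/2 -/
noncomputable def e593 : SCfg where
  D := {
    a := 6
    L := 8
    kp := 5
    inn := [(0, 1), (0, 4), (1, 0), (1, 2), (1, 3), (1, 4), (2, 1), (2, 3), (3, 1), (3, 2), (4, 0), (4,
      1), (4, 5), (5, 4)]
    mix := [(0, 0), (0, 1), (1, 1), (1, 2), (1, 3), (1, 4), (2, 2), (2, 5), (3, 3), (3, 5), (3, 6), (4,
      0), (4, 4), (4, 7), (5, 0), (5, 6), (5, 7)]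
    cl := [0, 2, 1, 1, 0, 3, 4, 5]
    chq := []
    rng := [(0, 1), (0, 6), (1, 0), (1, 2), (2, 1), (2, 5), (3, 4), (3, 6), (4, 3), (4, 7), (5, 2), (5,
      6), (6, 0), (6, 3), (6, 5), (6, 7), (7, 4), (7, 6)]
    lev := [] }
  links := [[1, 4, 6, 7], [4, 0, 7, 8, 2, 3, 9, 10], [3, 1, 8, 11], [9, 1, 2, 11, 12], [6, 0, 1, 10, 13,
    5], [6, 4, 13, 12]]
  P := {
    a := 6
    N := 14
    nb := [210, 1949, 2314, 6662, 9315, 12368, 4273, 323, 2182, 5130, 8722, 4364, 10856, 5168]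
    tri := [(0, 1, 4), (0, 1, 7), (0, 4, 6), (0, 6, 7), (1, 2, 3), (1, 2, 8), (1, 3, 9), (1, 4, 10),
      (1, 7, 8), (1, 9, 10), (2, 3, 11), (2, 8, 11), (3, 9, 12), (3, 11, 12), (4, 5, 6), (4, 5,
      13), (4, 10, 13), (5, 6, 12), (5, 12, 13)]
    fin := [0, 0, 2, 2, 0, 0, 0, 7, 2, 2, 0, 11, 12, 13]
    chd := []
    steps := [(0, 1), (0, 4), (0, 5), (0, 6), (0, 10), (2, 3), (2, 8), (2, 9)] }
  rep := [0, 2, 7, 11, 12, 13]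

noncomputable def v593 : Cov.CovD where
  P := 3
  N := 3
  pl := [1, 5, 6, 7]
  lev := [⟨[], [], [], [2], [(0, 0, [])]⟩,
    ⟨[], [(0, 0), (0, 1)], [(0, 1), (1, 1)], [2], [(2, 1, []), (3, 1, []), (4, 0, [])]⟩,
    ⟨[(0, 1)], [(1, 0), (1, 1)], [], [3], [(2, 1, [])]⟩,
    ⟨[(0, 1), (1, 2)], [(1, 0), (1, 1), (2, 1)], [], [3, 4], [(3, 1, [])]⟩,
    ⟨[(0, 1), (1, 2), (1, 3)], [(0, 0), (1, 0), (1, 1)], [(0, 0)], [5], [(0, 0, []), (4, 0,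
      [])]⟩,
    ⟨[(0, 4), (1, 4)], [(0, 0), (4, 0)], [], [4, 5], [(0, 0, [])]⟩]
  Ta := [((0, 1), 0, 2), ((0, 6), 0, 4), ((2, 1), 1, 2), ((2, 5), 1, 3), ((3, 4), 1, 0), ((3, 6),
    1, 4), ((4, 3), 0, 1), ((4, 7), 0, 5)]
  Tb := [((0, 1, 6), 0, 2, 4), ((1, 0, 2), 2, 0, 1), ((2, 1, 5), 1, 2, 3), ((3, 4, 6), 1, 0, 4),
    ((4, 3, 7), 0, 1, 5), ((5, 2, 6), 3, 1, 4), ((6, 0, 3), 4, 0, 1), ((6, 0, 5), 4, 0, 3),
    ((6, 0, 7), 4, 0, 5), ((6, 3, 5), 4, 1, 3), ((6, 3, 7), 4, 1, 5), ((6, 5, 7), 4, 3, 5),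
    ((7, 4, 6), 5, 0, 4)]
  Tc := []
  Td := []
  G := [[0, 0, 0xc2a2c2a1944, 0xc262c262588, 0x4264c26258268498], [0, 0, 0x82c64ae24ed242, 0,
    0xc2611882ca4cc21a], [0, 0, 0, 0x12621262588, 0xc262c261581], [0, 0x116116126e184, 0, 0,
    0x8a624ccca61581]]

noncomputable def n593 : Ent := ⟨e593, noF, [], [], []⟩

def c593 : PLift (Cov.check n593.C.D v593 = true) := ⟨by decide +kernel⟩

def b593 : PLift (entF (fidx ts) 400 593 n593 = true) := ⟨by decide +kernel⟩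

theorem g593 : GoodF (fidx ts) 400 593 := GoodF.ofV v593 n593 c593.down b593.down

/-- 484564:518 -/
noncomputable def e594 : SCfg where
  D := {
    a := 6
    L := 9
    kp := 6
    inn := [(0, 1), (0, 4), (1, 0), (1, 2), (1, 3), (1, 4), (2, 1), (2, 3), (3, 1), (3, 2), (4, 0), (4,
      1), (4, 5), (5, 4)]
    mix := [(0, 0), (0, 1), (1, 1), (1, 2), (1, 3), (1, 4), (2, 2), (2, 5), (3, 3), (3, 5), (3, 6), (4,
      0), (4, 4), (4, 7), (5, 0), (5, 7), (5, 8)]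
    cl := [0, 2, 1, 1, 0, 3, 5, 4, 6]
    chq := []
    rng := [(0, 1), (0, 8), (1, 0), (1, 2), (2, 1), (2, 5), (3, 4), (3, 6), (4, 3), (4, 7), (5, 2), (5,
      6), (6, 3), (6, 5), (7, 4), (7, 8), (8, 0), (8, 7)]
    lev := [] }
  links := [[1, 4, 6, 7], [4, 0, 7, 8, 2, 3, 9, 10], [3, 1, 8, 11], [9, 1, 2, 11, 12], [6, 0, 1, 10, 13,
    5], [6, 4, 13, 14]]
  P := {
    a := 6
    N := 15
    nb := [210, 1949, 2314, 6662, 9315, 24656, 16561, 323, 2182, 5130, 8722, 4364, 2568, 17456, 8288]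
    tri := [(0, 1, 4), (0, 1, 7), (0, 4, 6), (0, 6, 7), (1, 2, 3), (1, 2, 8), (1, 3, 9), (1, 4, 10),
      (1, 7, 8), (1, 9, 10), (2, 3, 11), (2, 8, 11), (3, 9, 12), (3, 11, 12), (4, 5, 6), (4, 5,
      13), (4, 10, 13), (5, 6, 14), (5, 13, 14)]
    fin := [0, 0, 2, 2, 0, 0, 0, 7, 2, 2, 0, 11, 12, 13, 14]
    chd := []
    steps := [(0, 1), (0, 4), (0, 5), (0, 6), (0, 10), (2, 3), (2, 8), (2, 9)] }
  rep := [0, 2, 7, 11, 13, 12, 14]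

noncomputable def v594 : Cov.CovD where
  P := 3
  N := 4
  pl := [1, 5, 6, 7, 8]
  lev := [⟨[], [], [], [2], [(0, 0, [])]⟩,
    ⟨[], [(0, 0), (0, 1)], [(0, 1), (1, 1)], [2], [(2, 1, []), (3, 1, []), (4, 0, [])]⟩,
    ⟨[(0, 1)], [(1, 0), (1, 1)], [], [3], [(2, 1, [])]⟩,
    ⟨[(0, 1), (1, 2)], [(1, 0), (1, 1), (2, 1)], [], [3, 5], [(3, 1, [])]⟩,
    ⟨[(0, 1), (1, 2), (1, 3)], [(0, 0), (1, 0), (1, 1)], [(0, 0)], [4], [(0, 0, []), (4, 0,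
      [])]⟩,
    ⟨[(0, 4), (1, 4)], [(0, 0), (4, 0)], [], [4, 6], [(0, 0, [])]⟩]
  Ta := [((0, 1), 0, 2), ((0, 8), 0, 6), ((2, 1), 1, 2), ((2, 5), 1, 3), ((3, 4), 1, 0), ((3, 6),
    1, 5), ((4, 3), 0, 1), ((4, 7), 0, 4)]
  Tb := [((0, 1, 8), 0, 2, 6), ((1, 0, 2), 2, 0, 1), ((2, 1, 5), 1, 2, 3), ((3, 4, 6), 1, 0, 5),
    ((4, 3, 7), 0, 1, 4), ((5, 2, 6), 3, 1, 5), ((6, 3, 5), 5, 1, 3), ((7, 4, 8), 4, 0, 6),
    ((8, 0, 7), 6, 0, 4)]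
  Tc := []
  Td := []
  G := [[0, 0, 0xe4448c6aa8ae8e2394c, 0xc6a2c6a2944, 0xca6218a6ca6cc41a], [0, 0,
    0xca6448c6ac6a924c, 0, 0xca612ca6ca6c298], [0, 0, 0, 0xc6a2c6a2941, 0xca62ca6ca65c81],
    [0, 0x11611c116e184, 0, 0, 0xca6ca6ca6d281]]

noncomputable def n594 : Ent := ⟨e594, noF, [], [], [(11, 14, [81620716623019490593592230936445690773474979418095885811713, 0]), (12, 14, [81620716623019490593592230936445690773474979418095885815809, 0])]⟩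

def c594 : PLift (Cov.check n594.C.D v594 = true) := ⟨by decide +kernel⟩

def b594 : PLift (entF (fidx ts) 400 594 n594 = true) := ⟨by decide +kernel⟩

theorem g594 : GoodF (fidx ts) 400 594 := GoodF.ofV v594 n594 c594.down b594.down

/-- 484665:529 -/
noncomputable def e595 : SCfg where
  D := {
    a := 6
    L := 10
    kp := 8
    inn := [(0, 1), (1, 0), (1, 2), (1, 3), (1, 4), (1, 5), (2, 1), (2, 3), (3, 1), (3, 2), (3, 4), (4,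
      1), (4, 3), (4, 5), (5, 1), (5, 4)]
    mix := [(0, 0), (0, 1), (0, 2), (1, 0), (1, 2), (1, 3), (2, 3), (2, 4), (3, 4), (3, 5), (3, 6), (4,
      6), (4, 7), (4, 8), (5, 0), (5, 8), (5, 9)]
    cl := [0, 7, 1, 0, 2, 5, 3, 6, 4, 8]
    chq := [(0, 3), (0, 4), (0, 5), (0, 6), (3, 0), (4, 0), (5, 0), (6, 0)]
    rng := [(0, 1), (0, 9), (1, 0), (1, 2), (2, 1), (2, 3), (3, 2), (3, 4), (4, 3), (4, 5), (5, 4), (5,
      6), (6, 5), (6, 7), (7, 6), (7, 8), (8, 7), (8, 9), (9, 0), (9, 8)]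
    lev := [] }
  links := [[1, 6, 7, 8], [6, 0, 8, 9, 2, 3, 4, 5], [3, 1, 9, 10], [4, 1, 2, 10, 11, 12], [5, 1, 3, 12,
    13, 14], [6, 1, 4, 14, 15]]
  P := {
    a := 6
    N := 16
    nb := [450, 893, 1546, 7190, 28714, 49234, 32931, 321, 643, 1286, 2572, 5128, 10264, 20496, 41008,
      16480]
    tri := [(0, 1, 6), (0, 1, 8), (0, 6, 7), (0, 7, 8), (1, 2, 3), (1, 2, 9), (1, 3, 4), (1, 4, 5), (1,
      5, 6), (1, 8, 9), (2, 3, 10), (2, 9, 10), (3, 4, 12), (3, 10, 11), (3, 11, 12), (4, 5, 14),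
      (4, 12, 13), (4, 13, 14), (5, 6, 15), (5, 14, 15)]
    fin := [0, 0, 0, 0, 0, 0, 0, 7, 8, 0, 10, 11, 12, 13, 14, 15]
    chd := [(0, 11), (0, 12), (0, 13), (0, 14)]
    steps := [(0, 1), (0, 2), (0, 3), (0, 4), (0, 5), (0, 6), (0, 9)] }
  rep := [0, 8, 10, 12, 14, 11, 13, 7, 15]

noncomputable def v595 : Cov.CovD where
  P := 3
  N := 6
  pl := [1, 2, 4, 9]
  lev := [⟨[], [], [], [1, 7], [(0, 0, [3, 4, 5, 6])]⟩,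
    ⟨[], [(0, 0)], [(0, 0)], [1], [(0, 0, [3, 4, 5, 6]), (3, 0, [3, 4, 5, 6])]⟩,
    ⟨[(0, 1)], [(1, 0)], [], [2], [(3, 0, [3, 4, 5, 6])]⟩,
    ⟨[(0, 1), (1, 2)], [(1, 0), (1, 3), (1, 5), (2, 0), (2, 3), (2, 5)], [(3, 5)], [2],
      [(5, 5, [0]), (6, 3, [0])]⟩,
    ⟨[(0, 1), (1, 2), (1, 3), (2, 3)], [(1, 0), (1, 3), (1, 4), (1, 6), (3, 3), (3, 4), (3,
      5), (3, 6)], [(3, 4), (3, 6), (4, 6)], [], [(6, 3, [0]), (7, 6, [0]), (8, 4, [0])]⟩,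
    ⟨[(0, 1), (1, 2), (1, 3), (1, 4), (3, 4)], [(0, 0), (1, 0), (1, 4), (4, 0), (4, 3), (4,
      4), (4, 6)], [(0, 4)], [8], [(0, 0, [3, 4, 5, 6]), (8, 4, [0])]⟩]
  Ta := [((0, 1), 0, 7), ((0, 9), 0, 8), ((3, 2), 0, 1), ((3, 4), 0, 2)]
  Tb := [((0, 1, 9), 0, 7, 8), ((1, 0, 2), 7, 0, 1), ((2, 1, 3), 1, 7, 0), ((3, 2, 4), 0, 1, 2),
    ((4, 3, 5), 2, 0, 5), ((5, 4, 6), 5, 2, 3), ((6, 5, 7), 3, 5, 6), ((7, 6, 8), 6, 3, 4),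
    ((8, 7, 9), 4, 6, 8), ((9, 0, 8), 8, 0, 4)]
  Tc := [(0, 3, 4), (0, 3, 5), (0, 3, 6), (0, 4, 5), (0, 4, 6), (0, 5, 6)]
  Td := [((0, 3), (0, 1), 7), ((0, 3), (0, 9), 8), ((0, 3), (3, 2), 1), ((0, 3), (3, 4), 2), ((0,
    4), (0, 1), 7), ((0, 4), (0, 9), 8), ((0, 4), (3, 2), 1), ((0, 4), (3, 4), 2), ((0, 5),
    (0, 1), 7), ((0, 5), (0, 9), 8), ((0, 5), (3, 2), 1), ((0, 5), (3, 4), 2), ((0, 6), (0,
    1), 7), ((0, 6), (0, 9), 8), ((0, 6), (3, 2), 1), ((0, 6), (3, 4), 2), ((3, 0), (6, 5),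
    5), ((3, 0), (6, 7), 6), ((4, 0), (8, 7), 6), ((4, 0), (8, 9), 8), ((5, 0), (5, 4), 2),
    ((5, 0), (5, 6), 3), ((6, 0), (7, 6), 3), ((6, 0), (7, 8), 4)]
  G := [[0, 0, 0, 0x4141e1a1cb7efd8c61e17cdefd48181cc, 0x8e91241e912861e16eaeb28181cd], [0,
    0xe1184e1148c, 0x61e1e1e28182c1, 0x414458e1a1c8eefd8c1, 0x4418e1e1aaaefb8c1]]

noncomputable def n595 : Ent := ⟨e595, noF, [], [], []⟩

def c595 : PLift (Cov.check n595.C.D v595 = true) := ⟨by decide +kernel⟩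

def b595 : PLift (entF (fidx ts) 400 595 n595 = true) := ⟨by decide +kernel⟩

theorem g595 : GoodF (fidx ts) 400 595 := GoodF.ofV v595 n595 c595.down b595.down

/-- 484666:530/1 -/
noncomputable def e596 : SCfg where
  D := {
    a := 6
    L := 10
    kp := 8
    inn := [(0, 1), (0, 5), (1, 0), (1, 2), (1, 3), (1, 4), (1, 5), (2, 1), (2, 3), (3, 1), (3, 2), (3,
      4), (4, 1), (4, 3), (5, 0), (5, 1)]
    mix := [(0, 0), (0, 1), (1, 1), (1, 2), (1, 3), (2, 2), (2, 4), (3, 4), (3, 5), (3, 6), (4, 3), (4,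
      6), (4, 7), (4, 8), (5, 0), (5, 3), (5, 8), (5, 9)]
    cl := [1, 2, 0, 3, 5, 6, 3, 8, 4, 7]
    chq := [(0, 1), (0, 3), (0, 4), (0, 6), (0, 7), (1, 0), (3, 0), (4, 0), (6, 0), (7, 0)]
    rng := [(0, 1), (0, 9), (1, 0), (1, 2), (2, 1), (2, 4), (3, 8), (4, 2), (4, 5), (5, 4), (5, 6), (6,
      5), (6, 7), (7, 6), (7, 8), (8, 3), (8, 7), (8, 9), (9, 0), (9, 8)]
    lev := [] }
  links := [[1, 5, 6, 7], [5, 0, 7, 8, 2, 3, 4, 9], [3, 1, 8, 10], [4, 1, 2, 10, 11, 12], [9, 1, 3, 12,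
    13, 14], [6, 0, 1, 9, 14, 15]]
  P := {
    a := 6
    N := 16
    nb := [226, 957, 1290, 7190, 29194, 49731, 32929, 323, 1158, 16434, 2316, 5128, 10264, 20496,
      41520, 16480]
    tri := [(0, 1, 5), (0, 1, 7), (0, 5, 6), (0, 6, 7), (1, 2, 3), (1, 2, 8), (1, 3, 4), (1, 4, 9), (1,
      5, 9), (1, 7, 8), (2, 3, 10), (2, 8, 10), (3, 4, 12), (3, 10, 11), (3, 11, 12), (4, 9, 14),
      (4, 12, 13), (4, 13, 14), (5, 6, 15), (5, 9, 14), (5, 14, 15)]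
    fin := [0, 1, 1, 1, 4, 1, 0, 7, 1, 4, 10, 11, 4, 13, 14, 15]
    chd := [(0, 1), (1, 4), (1, 11), (1, 14), (1, 15)]
    steps := [(0, 6), (1, 2), (1, 3), (1, 5), (1, 8), (4, 12), (4, 9)] }
  rep := [1, 0, 7, 4, 14, 10, 11, 15, 13]

noncomputable def v596 : Cov.CovD where
  P := 3
  N := 6
  pl := [1, 4, 7]
  lev := [⟨[], [], [], [2], [(0, 1, [0])]⟩,
    ⟨[], [(0, 0), (0, 1), (0, 3)], [(0, 3)], [2], [(2, 0, [1, 3, 4, 6, 7]), (3, 3, [0])]⟩,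
    ⟨[(0, 1)], [(1, 0), (1, 3)], [], [5], [(2, 0, [1, 3, 4, 6, 7])]⟩,
    ⟨[(0, 1), (1, 2)], [(1, 0), (1, 3), (1, 6), (2, 0), (2, 3), (2, 6)], [(3, 6)], [5],
      [(5, 6, [0]), (6, 3, [0])]⟩,
    ⟨[(0, 1), (1, 2), (1, 3), (2, 3)], [(1, 0), (1, 3), (1, 4), (3, 3), (3, 4), (3, 6)],
      [(3, 3), (3, 4)], [8], [(3, 3, [0]), (6, 3, [0]), (8, 4, [0])]⟩,
    ⟨[(0, 1), (1, 2), (1, 3), (1, 4)], [(0, 1), (0, 3), (0, 4), (0, 7), (1, 0), (1, 1), (1,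
      3), (1, 4), (1, 7), (4, 3), (4, 4)], [(1, 3), (1, 4), (1, 7), (3, 4), (3, 7), (4, 7)],
      [], [(0, 1, [0]), (3, 3, [0]), (8, 4, [0]), (9, 7, [0])]⟩]
  Ta := [((3, 8), 3, 4), ((6, 5), 3, 6), ((6, 7), 3, 8)]
  Tb := [((0, 1, 9), 1, 2, 7), ((1, 0, 2), 2, 1, 0), ((2, 1, 4), 0, 2, 5), ((4, 2, 5), 5, 0, 6),
    ((5, 4, 6), 6, 5, 3), ((6, 5, 7), 3, 6, 8), ((7, 6, 8), 8, 3, 4), ((8, 3, 7), 4, 3, 8),
    ((8, 3, 9), 4, 3, 7), ((8, 7, 9), 4, 8, 7), ((9, 0, 8), 7, 1, 4)]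
  Tc := [(0, 1, 3), (0, 1, 4), (0, 1, 6), (0, 1, 7), (0, 3, 4), (0, 3, 6), (0, 3, 7), (0, 4, 6),
    (0, 4, 7), (0, 6, 7)]
  Td := [((0, 1), (2, 1), 2), ((0, 1), (2, 4), 5), ((0, 3), (2, 1), 2), ((0, 3), (2, 4), 5), ((0,
    4), (2, 1), 2), ((0, 4), (2, 4), 5), ((0, 6), (2, 1), 2), ((0, 6), (2, 4), 5), ((0, 7),
    (2, 1), 2), ((0, 7), (2, 4), 5), ((1, 0), (0, 1), 2), ((1, 0), (0, 9), 7), ((3, 0), (3,
    8), 4), ((3, 0), (6, 5), 6), ((3, 0), (6, 7), 8), ((4, 0), (8, 3), 3), ((4, 0), (8, 7),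
    8), ((4, 0), (8, 9), 7), ((6, 0), (5, 4), 5), ((6, 0), (5, 6), 3), ((7, 0), (9, 0), 1),
    ((7, 0), (9, 8), 4)]
  G := [[0, 0x1117111171a4111b1111b168c, 0x11c1111d161118116111171ce4,
    0x141113811c111117be411115611a1111b111b5e8c,
    0x111153115161211a512111111fd111d8e88c868888acb11c583181118789], [0, 0x1111f11111f1a48,
    0x1111f11111f1a48, 0x111711111e1111ff18111111fba41111f4289,
    0x111714111d1111ff18111b1111fdc21132489]]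

noncomputable def n596 : Ent := ⟨e596, noF, [], [], []⟩

def c596 : PLift (Cov.check n596.C.D v596 = true) := ⟨by decide +kernel⟩

def b596 : PLift (entF (fidx ts) 400 596 n596 = true) := ⟨by decide +kernel⟩

theorem g596 : GoodF (fidx ts) 400 596 := GoodF.ofV v596 n596 c596.down b596.down

/-- 484666:530 -/
noncomputable def e597 : SCfg where
  D := {
    a := 6
    L := 11
    kp := 9
    inn := [(0, 1), (0, 5), (1, 0), (1, 2), (1, 3), (1, 4), (1, 5), (2, 1), (2, 3), (3, 1), (3, 2), (3,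
      4), (4, 1), (4, 3), (5, 0), (5, 1)]
    mix := [(0, 0), (0, 1), (1, 1), (1, 2), (1, 3), (2, 2), (2, 4), (3, 4), (3, 5), (3, 6), (4, 3), (4,
      6), (4, 7), (4, 8), (5, 0), (5, 3), (5, 9), (5, 10)]
    cl := [4, 1, 0, 3, 2, 5, 3, 8, 9, 6, 7]
    chq := [(0, 3), (0, 4), (0, 5), (0, 6), (0, 7), (3, 0), (4, 0), (5, 0), (6, 0), (7, 0)]
    rng := [(0, 1), (0, 10), (1, 0), (1, 2), (2, 1), (2, 4), (3, 8), (3, 9), (4, 2), (4, 5), (5, 4),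
      (5, 6), (6, 5), (6, 7), (7, 6), (7, 8), (8, 3), (8, 7), (9, 3), (9, 10), (10, 0), (10, 9)]
    lev := [] }
  links := [[1, 5, 6, 7], [5, 0, 7, 8, 2, 3, 4, 9], [3, 1, 8, 10], [4, 1, 2, 10, 11, 12], [9, 1, 3, 12,
    13, 14], [6, 0, 1, 9, 15, 16]]
  P := {
    a := 6
    N := 17
    nb := [226, 957, 1290, 7190, 29194, 98883, 65697, 323, 1158, 49202, 2316, 5128, 10264, 20496,
      8720, 66080, 32864]
    tri := [(0, 1, 5), (0, 1, 7), (0, 5, 6), (0, 6, 7), (1, 2, 3), (1, 2, 8), (1, 3, 4), (1, 4, 9), (1,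
      5, 9), (1, 7, 8), (2, 3, 10), (2, 8, 10), (3, 4, 12), (3, 10, 11), (3, 11, 12), (4, 9, 14),
      (4, 12, 13), (4, 13, 14), (5, 6, 16), (5, 9, 15), (5, 15, 16)]
    fin := [0, 1, 1, 1, 4, 1, 0, 7, 1, 4, 10, 11, 4, 13, 14, 15, 16]
    chd := [(0, 1), (1, 4), (1, 11), (1, 15), (1, 16)]
    steps := [(0, 6), (1, 2), (1, 3), (1, 5), (1, 8), (4, 12), (4, 9)] }
  rep := [1, 7, 10, 4, 0, 11, 15, 16, 13, 14]

noncomputable def v597 : Cov.CovD where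
  P := 3
  N := 7
  pl := [1, 4, 7, 8]
  lev := [⟨[], [], [], [1], [(0, 4, [0])]⟩,
    ⟨[], [(0, 0), (0, 3), (0, 4)], [(0, 3)], [1], [(2, 0, [3, 4, 5, 6, 7]), (3, 3, [0])]⟩,
    ⟨[(0, 1)], [(1, 0), (1, 3)], [], [2], [(2, 0, [3, 4, 5, 6, 7])]⟩,
    ⟨[(0, 1), (1, 2)], [(1, 0), (1, 3), (1, 5), (2, 0), (2, 3), (2, 5)], [(3, 5)], [2],
      [(5, 5, [0]), (6, 3, [0])]⟩,
    ⟨[(0, 1), (1, 2), (1, 3), (2, 3)], [(1, 0), (1, 3), (3, 3), (3, 5)], [(3, 3)], [8, 9],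
      [(3, 3, [0]), (6, 3, [0])]⟩,
    ⟨[(0, 1), (1, 2), (1, 3), (1, 4)], [(0, 3), (0, 4), (0, 6), (0, 7), (1, 0), (1, 3), (1,
      4), (1, 6), (1, 7), (4, 3)], [(3, 4), (3, 6), (3, 7), (4, 6), (4, 7), (6, 7)], [], [(0,
      4, [0]), (3, 3, [0]), (9, 6, [0]), (10, 7, [0])]⟩]
  Ta := [((3, 8), 3, 9), ((3, 9), 3, 6), ((6, 5), 3, 5), ((6, 7), 3, 8)]
  Tb := [((0, 1, 10), 4, 1, 7), ((1, 0, 2), 1, 4, 0), ((2, 1, 4), 0, 1, 2), ((3, 8, 9), 3, 9, 6),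
    ((4, 2, 5), 2, 0, 5), ((5, 4, 6), 5, 2, 3), ((6, 5, 7), 3, 5, 8), ((7, 6, 8), 8, 3, 9),
    ((8, 3, 7), 9, 3, 8), ((9, 3, 10), 6, 3, 7), ((10, 0, 9), 7, 4, 6)]
  Tc := [(0, 3, 4), (0, 3, 5), (0, 3, 6), (0, 3, 7), (0, 4, 5), (0, 4, 6), (0, 4, 7), (0, 5, 6),
    (0, 5, 7), (0, 6, 7)]
  Td := [((0, 3), (2, 1), 1), ((0, 3), (2, 4), 2), ((0, 4), (2, 1), 1), ((0, 4), (2, 4), 2), ((0,
    5), (2, 1), 1), ((0, 5), (2, 4), 2), ((0, 6), (2, 1), 1), ((0, 6), (2, 4), 2), ((0, 7),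
    (2, 1), 1), ((0, 7), (2, 4), 2), ((3, 0), (3, 8), 9), ((3, 0), (3, 9), 6), ((3, 0), (6,
    5), 5), ((3, 0), (6, 7), 8), ((4, 0), (0, 1), 1), ((4, 0), (0, 10), 7), ((5, 0), (5, 4),
    2), ((5, 0), (5, 6), 3), ((6, 0), (9, 3), 3), ((6, 0), (9, 10), 7), ((7, 0), (10, 0), 4),
    ((7, 0), (10, 9), 6)]
  G := [[0, 0x1111f1821111f141218c111d184e, 0x1111f421111f82c1,
    0x11171181c884851111f14113184484d3143b8b1c113458cd,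
    0x1111f18882888a511171181a44829113bbb92377782cd], [0, 0x1111f1481111f1846,
    0x1111f21111f461111f82c1, 0x11111111fd8411111111fd48c, 0x1111f1241111f1281111a28d]]

noncomputable def n597 : Ent := ⟨e597, noF, [], [], [(14, 15, [1685356702439545624007900436039642273970977273354372543760002531329, 0])]⟩

def c597 : PLift (Cov.check n597.C.D v597 = true) := ⟨by decide +kernel⟩

def b597 : PLift (entF (fidx ts) 400 597 n597 = true) := ⟨by decide +kernel⟩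

theorem g597 : GoodF (fidx ts) 400 597 := GoodF.ofV v597 n597 c597.down b597.down

/-- 484664:531/1 -/
noncomputable def e598 : SCfg where
  D := {
    a := 6
    L := 9
    kp := 6
    inn := [(0, 1), (1, 0), (1, 2), (1, 3), (1, 4), (2, 1), (2, 3), (3, 1), (3, 2), (3, 4), (4, 1), (4,
      3), (4, 5), (5, 4)]
    mix := [(0, 0), (0, 1), (0, 2), (1, 0), (1, 2), (1, 3), (1, 4), (2, 3), (2, 5), (3, 5), (3, 6), (3,
      7), (4, 4), (4, 7), (4, 8), (5, 1), (5, 7), (5, 8)]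
    cl := [0, 4, 1, 0, 3, 2, 6, 3, 5]
    chq := [(0, 6), (6, 0)]
    rng := [(0, 1), (0, 4), (1, 0), (1, 2), (1, 7), (1, 8), (2, 1), (2, 3), (3, 2), (3, 5), (4, 0), (4,
      8), (5, 3), (5, 6), (6, 5), (6, 7), (7, 1), (7, 6), (8, 1), (8, 4)]
    lev := [] }
  links := [[1, 6, 7, 8], [6, 0, 8, 9, 2, 3, 4, 10], [3, 1, 9, 11], [4, 1, 2, 11, 12, 13], [10, 1, 3, 13,
    5, 14], [14, 4, 13, 7]]
  P := {
    a := 6
    N := 15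
    nb := [450, 1885, 2570, 14358, 25642, 24720, 1155, 24929, 643, 2310, 16466, 4620, 10248, 4280,
      1200]
    tri := [(0, 1, 6), (0, 1, 8), (0, 6, 7), (0, 7, 8), (1, 2, 3), (1, 2, 9), (1, 3, 4), (1, 4, 10),
      (1, 6, 10), (1, 8, 9), (2, 3, 11), (2, 9, 11), (3, 4, 13), (3, 11, 12), (3, 12, 13), (4, 5,
      13), (4, 5, 14), (4, 10, 14), (5, 7, 13), (5, 7, 14)]
    fin := [0, 0, 0, 0, 4, 5, 0, 5, 8, 0, 4, 11, 12, 4, 14]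
    chd := [(0, 12)]
    steps := [(0, 1), (0, 2), (0, 3), (0, 6), (0, 9), (4, 13), (4, 10), (5, 7)] }
  rep := [0, 8, 11, 4, 5, 14, 12]

noncomputable def v598 : Cov.CovD where
  P := 3
  N := 4
  pl := [1, 2, 5, 8]
  lev := [⟨[], [], [], [1, 4], [(0, 0, [6])]⟩,
    ⟨[], [(0, 0), (0, 3)], [(0, 0), (0, 3)], [1], [(0, 0, [6]), (3, 0, [6]), (4, 3, [])]⟩,
    ⟨[(0, 1)], [(1, 0), (1, 3)], [], [2], [(3, 0, [6])]⟩,
    ⟨[(0, 1), (1, 2)], [(1, 0), (1, 3), (1, 6), (2, 0), (2, 3), (2, 6)], [(3, 6)], [2],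
      [(6, 6, [0]), (7, 3, [])]⟩,
    ⟨[(0, 1), (1, 2), (1, 3), (2, 3)], [(1, 0), (1, 3), (3, 3), (3, 6)], [(3, 3)], [5],
      [(4, 3, []), (7, 3, [])]⟩,
    ⟨[(1, 4), (3, 4)], [(3, 3), (4, 3)], [], [4, 5], [(7, 3, [])]⟩]
  Ta := [((0, 1), 0, 4), ((0, 4), 0, 3), ((3, 2), 0, 1), ((3, 5), 0, 2), ((4, 0), 3, 0), ((4, 8),
    3, 5), ((7, 1), 3, 4), ((7, 6), 3, 6)]
  Tb := [((0, 1, 4), 0, 4, 3), ((1, 0, 2), 4, 0, 1), ((1, 0, 7), 4, 0, 3), ((1, 0, 8), 4, 0, 5),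
    ((1, 2, 7), 4, 1, 3), ((1, 2, 8), 4, 1, 5), ((1, 7, 8), 4, 3, 5), ((2, 1, 3), 1, 4, 0),
    ((3, 2, 5), 0, 1, 2), ((4, 0, 8), 3, 0, 5), ((5, 3, 6), 2, 0, 6), ((6, 5, 7), 6, 2, 3),
    ((7, 1, 6), 3, 4, 6), ((8, 1, 4), 5, 4, 3)]
  Tc := []
  Td := [((0, 6), (0, 1), 4), ((0, 6), (0, 4), 3), ((0, 6), (3, 2), 1), ((0, 6), (3, 5), 2), ((6,
    0), (6, 5), 2), ((6, 0), (6, 7), 3)]
  G := [[0, 0, 0, 0x51862b944744e148c, 0x312ac92464ce128c], [0, 0, 0, 0x831e184142e148c,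
    0x812e184341e128c], [0, 0x985184114427588c, 0x2a1748241782c1, 0x1142581a1e18c1,
    0x421181a38618c1], [0, 0x149e182812e1846, 0x8a17c61ba241fe488c41, 0x1dbe1481,
    0x1dbe1281]]

noncomputable def n598 : Ent := ⟨e598, noF, [], [], []⟩

def c598 : PLift (Cov.check n598.C.D v598 = true) := ⟨by decide +kernel⟩

def b598 : PLift (entF (fidx ts) 400 598 n598 = true) := ⟨by decide +kernel⟩

theorem g598 : GoodF (fidx ts) 400 598 := GoodF.ofV v598 n598 c598.down b598.down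

/-- 484664:531 -/
noncomputable def e599 : SCfg where
  D := {
    a := 6
    L := 10
    kp := 7
    inn := [(0, 1), (1, 0), (1, 2), (1, 3), (1, 4), (2, 1), (2, 3), (3, 1), (3, 2), (3, 4), (4, 1), (4,
      3), (4, 5), (5, 4)]
    mix := [(0, 0), (0, 1), (0, 2), (1, 0), (1, 2), (1, 3), (1, 4), (2, 3), (2, 5), (3, 5), (3, 6), (3,
      7), (4, 4), (4, 7), (4, 8), (5, 7), (5, 8), (5, 9)]
    cl := [0, 6, 1, 0, 3, 2, 5, 3, 4, 7]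
    chq := [(0, 5), (5, 0)]
    rng := [(0, 1), (0, 4), (1, 0), (1, 2), (2, 1), (2, 3), (3, 2), (3, 5), (4, 0), (4, 8), (5, 3), (5,
      6), (6, 5), (6, 7), (7, 6), (7, 9), (8, 4), (8, 9), (9, 7), (9, 8)]
    lev := [] }
  links := [[1, 6, 7, 8], [6, 0, 8, 9, 2, 3, 4, 10], [3, 1, 9, 11], [4, 1, 2, 11, 12, 13], [10, 1, 3, 13,
    5, 14], [14, 4, 13, 15]]
  P := {
    a := 6
    N := 16
    nb := [450, 1885, 2570, 14358, 25642, 57360, 1155, 321, 643, 2310, 16466, 4620, 10248, 36920,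
      33840, 24608]
    tri := [(0, 1, 6), (0, 1, 8), (0, 6, 7), (0, 7, 8), (1, 2, 3), (1, 2, 9), (1, 3, 4), (1, 4, 10),
      (1, 6, 10), (1, 8, 9), (2, 3, 11), (2, 9, 11), (3, 4, 13), (3, 11, 12), (3, 12, 13), (4, 5,
      13), (4, 5, 14), (4, 10, 14), (5, 13, 15), (5, 14, 15)]
    fin := [0, 0, 0, 0, 4, 4, 0, 7, 8, 0, 4, 11, 12, 4, 14, 15]
    chd := [(0, 12)]
    steps := [(0, 1), (0, 2), (0, 3), (0, 6), (0, 9), (4, 5), (4, 13), (4, 10)] }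
  rep := [0, 8, 11, 4, 14, 12, 7, 15]

noncomputable def v599 : Cov.CovD where
  P := 3
  N := 5
  pl := [1, 2, 5, 8, 9]
  lev := [⟨[], [], [], [1, 6], [(0, 0, [5])]⟩,
    ⟨[], [(0, 0), (0, 3)], [(0, 0), (0, 3)], [1], [(0, 0, [5]), (3, 0, [5]), (4, 3, [])]⟩,
    ⟨[(0, 1)], [(1, 0), (1, 3)], [], [2], [(3, 0, [5])]⟩,
    ⟨[(0, 1), (1, 2)], [(1, 0), (1, 3), (1, 5), (2, 0), (2, 3), (2, 5)], [(3, 5)], [2],
      [(6, 5, [0]), (7, 3, [])]⟩,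
    ⟨[(0, 1), (1, 2), (1, 3), (2, 3)], [(1, 0), (1, 3), (3, 3), (3, 5)], [(3, 3)], [4],
      [(4, 3, []), (7, 3, [])]⟩,
    ⟨[(1, 4), (3, 4)], [(3, 3), (4, 3)], [], [4, 7], [(7, 3, [])]⟩]
  Ta := [((0, 1), 0, 6), ((0, 4), 0, 3), ((3, 2), 0, 1), ((3, 5), 0, 2), ((4, 0), 3, 0), ((4, 8),
    3, 4), ((7, 6), 3, 5), ((7, 9), 3, 7)]
  Tb := [((0, 1, 4), 0, 6, 3), ((1, 0, 2), 6, 0, 1), ((2, 1, 3), 1, 6, 0), ((3, 2, 5), 0, 1, 2),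
    ((4, 0, 8), 3, 0, 4), ((5, 3, 6), 2, 0, 5), ((6, 5, 7), 5, 2, 3), ((7, 6, 9), 3, 5, 7),
    ((8, 4, 9), 4, 3, 7), ((9, 7, 8), 7, 3, 4)]
  Tc := []
  Td := [((0, 5), (0, 1), 6), ((0, 5), (0, 4), 3), ((0, 5), (3, 2), 1), ((0, 5), (3, 5), 2), ((5,
    0), (6, 5), 2), ((5, 0), (6, 7), 3)]
  G := [[0, 0, 0, 0xa93416ace18c68c13145e215189cc, 0xa43191234ace18c7a4e12518292cc], [0, 0, 0,
    0x41d174f584811db8f948c, 0x4141d174fb24811db8f928c], [0, 0xa4189ca1468e3184749148e,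
    0x28bb42247782c1, 0x63a14a9618c1, 0x74a12b8618c1], [0, 0xb712f1421db8f148a,
    0xca97268bfa4c65b42c1, 0x811db8f9481, 0x811db8f9281]]

noncomputable def n599 : Ent := ⟨e599, noF, [], [], [(7, 15, [360035742630636841211993100915356868655746945586763691010121729, 0])]⟩

def c599 : PLift (Cov.check n599.C.D v599 = true) := ⟨by decide +kernel⟩

def b599 : PLift (entF (fidx ts) 400 599 n599 = true) := ⟨by decide +kernel⟩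

theorem g599 : GoodF (fidx ts) 400 599 := GoodF.ofV v599 n599 c599.down b599.down

/-- 484665:532/1 -/
noncomputable def e600 : SCfg where
  D := {
    a := 6
    L := 10
    kp := 7
    inn := [(0, 1), (1, 0), (1, 2), (1, 3), (1, 4), (2, 1), (2, 3), (3, 1), (3, 2), (3, 4), (4, 1), (4,
      3), (4, 5), (5, 4)]
    mix := [(0, 0), (0, 1), (0, 2), (1, 0), (1, 2), (1, 3), (1, 4), (2, 3), (2, 5), (3, 5), (3, 6), (3,
      7), (4, 4), (4, 7), (4, 8), (5, 1), (5, 7), (5, 8), (5, 9)]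
    cl := [0, 2, 5, 0, 1, 4, 6, 3, 3, 7]
    chq := [(1, 4), (1, 6), (4, 1), (6, 1)]
    rng := [(0, 1), (0, 4), (1, 0), (1, 2), (1, 7), (1, 9), (2, 1), (2, 3), (3, 2), (3, 5), (4, 0), (4,
      8), (5, 3), (5, 6), (6, 5), (6, 7), (7, 1), (7, 6), (8, 4), (8, 9), (9, 1), (9, 8)]
    lev := [] }
  links := [[1, 6, 7, 8], [6, 0, 8, 9, 2, 3, 4, 10], [3, 1, 9, 11], [4, 1, 2, 11, 12, 13], [10, 1, 3, 13,
    5, 14], [14, 4, 13, 7, 15]]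
  P := {
    a := 6
    N := 16
    nb := [450, 1885, 2570, 14358, 25642, 57488, 1155, 41313, 643, 2310, 16466, 4620, 10248, 4280,
      33840, 16544]
    tri := [(0, 1, 6), (0, 1, 8), (0, 6, 7), (0, 7, 8), (1, 2, 3), (1, 2, 9), (1, 3, 4), (1, 4, 10),
      (1, 6, 10), (1, 8, 9), (2, 3, 11), (2, 9, 11), (3, 4, 13), (3, 11, 12), (3, 12, 13), (4, 5,
      13), (4, 5, 14), (4, 10, 14), (5, 7, 13), (5, 7, 15), (5, 14, 15)]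
    fin := [0, 0, 0, 3, 3, 5, 0, 7, 8, 0, 3, 11, 12, 5, 5, 15]
    chd := [(3, 11), (3, 12)]
    steps := [(0, 1), (0, 2), (0, 6), (0, 9), (3, 4), (3, 10), (5, 13), (5, 14)] }
  rep := [0, 3, 7, 5, 11, 8, 12, 15]

noncomputable def v600 : Cov.CovD where
  P := 3
  N := 5
  pl := [1, 2, 9]
  lev := [⟨[], [], [], [2, 5], [(0, 0, [])]⟩,
    ⟨[], [(0, 0), (0, 1)], [(0, 0), (0, 1)], [5], [(0, 0, []), (3, 0, []), (4, 1, [4, 6])]⟩,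
    ⟨[(0, 1)], [(1, 0), (1, 1), (1, 4)], [(0, 4)], [], [(3, 0, []), (5, 4, [1])]⟩,
    ⟨[(0, 1), (1, 2)], [(1, 0), (1, 1), (1, 3), (1, 4), (1, 6), (2, 0), (2, 3), (2, 4), (2,
      6)], [(3, 4), (3, 6), (4, 6)], [], [(5, 4, [1]), (6, 6, [1]), (7, 3, [])]⟩,
    ⟨[(0, 1), (1, 2), (1, 3), (2, 3)], [(1, 0), (1, 1), (1, 3), (3, 1), (3, 3), (3, 4), (3,
      6)], [(1, 3), (3, 3)], [], [(4, 1, [4, 6]), (7, 3, []), (8, 3, [])]⟩,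
    ⟨[(1, 4), (3, 4)], [(3, 3), (4, 1), (4, 3)], [(3, 3)], [2, 7], [(7, 3, []), (8, 3,
      [])]⟩]
  Ta := [((0, 1), 0, 2), ((0, 4), 0, 1), ((3, 2), 0, 5), ((3, 5), 0, 4), ((7, 1), 3, 2), ((7, 6),
    3, 6), ((8, 4), 3, 1), ((8, 9), 3, 7)]
  Tb := [((0, 1, 4), 0, 2, 1), ((1, 0, 2), 2, 0, 5), ((1, 0, 7), 2, 0, 3), ((1, 0, 9), 2, 0, 7),
    ((1, 2, 7), 2, 5, 3), ((1, 2, 9), 2, 5, 7), ((1, 7, 9), 2, 3, 7), ((2, 1, 3), 5, 2, 0),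
    ((3, 2, 5), 0, 5, 4), ((4, 0, 8), 1, 0, 3), ((5, 3, 6), 4, 0, 6), ((6, 5, 7), 6, 4, 3),
    ((7, 1, 6), 3, 2, 6), ((8, 4, 9), 3, 1, 7), ((9, 1, 8), 7, 2, 3)]
  Tc := [(1, 4, 6)]
  Td := [((1, 4), (4, 0), 0), ((1, 4), (4, 8), 3), ((1, 6), (4, 0), 0), ((1, 6), (4, 8), 3), ((4,
    1), (5, 3), 0), ((4, 1), (5, 6), 6), ((6, 1), (6, 5), 4), ((6, 1), (6, 7), 3)]
  G := [[0, 0xc961596168596195a1c2c, 0xe1218e1214c, 0xc95218c59214c, 0xa3521893c214a], [0,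
    0xd21d2168d21d21a4c, 0xe1218e1214c, 0xc95218c59214c, 0xb4218b4214a], [0, 0, 0,
    0xc9528181368c59284c1528c5924cd, 0xa352b43436a828c28682a392a392cc9], [0, 0, 0,
    0xc95248c59284c9528c5924cd, 0xb4248b4288b42a392c4b]]

noncomputable def n600 : Ent := ⟨e600, noF, [], [], []⟩

def c600 : PLift (Cov.check n600.C.D v600 = true) := ⟨by decide +kernel⟩

def b600 : PLift (entF (fidx ts) 400 600 n600 = true) := ⟨by decide +kernel⟩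

theorem g600 : GoodF (fidx ts) 400 600 := GoodF.ofV v600 n600 c600.down b600.down

/-- 484665:532/3 -/
noncomputable def e601 : SCfg where
  D := {
    a := 6
    L := 9
    kp := 6
    inn := [(0, 1), (1, 0), (1, 2), (1, 3), (1, 4), (2, 1), (2, 3), (3, 1), (3, 2), (3, 4), (4, 1), (4,
      3), (4, 5), (5, 4)]
    mix := [(0, 0), (0, 1), (0, 2), (1, 0), (1, 2), (1, 3), (1, 4), (2, 3), (2, 5), (3, 5), (3, 6), (3,
      7), (4, 4), (4, 7), (4, 8), (5, 1), (5, 6), (5, 7), (5, 8)]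
    cl := [0, 5, 6, 0, 1, 2, 4, 3, 3]
    chq := [(1, 2), (1, 4), (2, 1), (4, 1)]
    rng := [(0, 1), (0, 4), (1, 0), (1, 2), (1, 6), (1, 8), (2, 1), (2, 3), (3, 2), (3, 5), (4, 0), (4,
      8), (5, 3), (5, 6), (6, 1), (6, 5), (6, 7), (7, 6), (8, 1), (8, 4)]
    lev := [] }
  links := [[1, 6, 7, 8], [6, 0, 8, 9, 2, 3, 4, 10], [3, 1, 9, 11], [4, 1, 2, 11, 12, 13], [10, 1, 3, 13,
    5, 14], [14, 4, 13, 12, 7]]
  P := {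
    a := 6
    N := 15
    nb := [450, 1885, 2570, 14358, 25642, 28816, 1155, 20833, 643, 2310, 16466, 4620, 10408, 4152,
      1200]
    tri := [(0, 1, 6), (0, 1, 8), (0, 6, 7), (0, 7, 8), (1, 2, 3), (1, 2, 9), (1, 3, 4), (1, 4, 10),
      (1, 6, 10), (1, 8, 9), (2, 3, 11), (2, 9, 11), (3, 4, 13), (3, 11, 12), (3, 12, 13), (4, 5,
      13), (4, 5, 14), (4, 10, 14), (5, 7, 12), (5, 7, 14), (5, 12, 13)]
    fin := [0, 0, 0, 3, 3, 5, 0, 7, 8, 0, 3, 11, 12, 5, 5]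
    chd := [(3, 11), (3, 12)]
    steps := [(0, 1), (0, 2), (0, 6), (0, 9), (3, 4), (3, 10), (5, 13), (5, 14)] }
  rep := [0, 3, 11, 5, 12, 7, 8]

noncomputable def v601 : Cov.CovD where
  P := 3
  N := 4
  pl := [1, 2]
  lev := [⟨[], [], [], [5, 6], [(0, 0, [])]⟩,
    ⟨[], [(0, 0), (0, 1)], [(0, 0), (0, 1)], [6], [(0, 0, []), (3, 0, []), (4, 1, [2, 4])]⟩,
    ⟨[(0, 1)], [(1, 0), (1, 1), (1, 2)], [(0, 2)], [], [(3, 0, []), (5, 2, [1])]⟩,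
    ⟨[(0, 1), (1, 2)], [(1, 0), (1, 1), (1, 2), (1, 3), (1, 4), (2, 0), (2, 2), (2, 3), (2,
      4)], [(2, 3), (2, 4), (3, 4)], [], [(5, 2, [1]), (6, 4, [1]), (7, 3, [])]⟩,
    ⟨[(0, 1), (1, 2), (1, 3), (2, 3)], [(1, 0), (1, 1), (1, 3), (3, 1), (3, 2), (3, 3), (3,
      4)], [(1, 3), (3, 3)], [], [(4, 1, [2, 4]), (7, 3, []), (8, 3, [])]⟩,
    ⟨[(1, 4), (3, 4)], [(3, 3), (3, 4), (4, 1), (4, 3), (4, 4)], [(3, 3), (3, 4)], [5],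
      [(6, 4, [1]), (7, 3, []), (8, 3, [])]⟩]
  Ta := [((0, 1), 0, 5), ((0, 4), 0, 1), ((3, 2), 0, 6), ((3, 5), 0, 2), ((7, 6), 3, 4), ((8, 1),
    3, 5), ((8, 4), 3, 1)]
  Tb := [((0, 1, 4), 0, 5, 1), ((1, 0, 2), 5, 0, 6), ((1, 0, 6), 5, 0, 4), ((1, 0, 8), 5, 0, 3),
    ((1, 2, 6), 5, 6, 4), ((1, 2, 8), 5, 6, 3), ((1, 6, 8), 5, 4, 3), ((2, 1, 3), 6, 5, 0),
    ((3, 2, 5), 0, 6, 2), ((4, 0, 8), 1, 0, 3), ((5, 3, 6), 2, 0, 4), ((6, 1, 5), 4, 5, 2),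
    ((6, 1, 7), 4, 5, 3), ((6, 5, 7), 4, 2, 3), ((8, 1, 4), 3, 5, 1)]
  Tc := [(1, 2, 4)]
  Td := [((1, 2), (4, 0), 0), ((1, 2), (4, 8), 3), ((1, 4), (4, 0), 0), ((1, 4), (4, 8), 3), ((2,
    1), (5, 3), 0), ((2, 1), (5, 6), 4), ((4, 1), (6, 1), 5), ((4, 1), (6, 5), 2), ((4, 1),
    (6, 7), 3)]
  G := [[0, 0x11614811a18411c182e, 0, 0xe95248e5928428242428ce, 0xe95218e592147821b428ce], [0,
    0x11614811a18411c182e, 0, 0xe95248e5921422c2422528ce, 0xe41f1238e5921463521a13892ce], [0,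
    0, 0xe1528e1924c1, 0xe9524828248c27d284b, 0xc59224282421b24eb52887], [0, 0,
    0xe1528f1c28c1, 0xc59284229244eb52487, 0xc59284a138924eb52887]]

noncomputable def n601 : Ent := ⟨e601, noF, [], [], []⟩

def c601 : PLift (Cov.check n601.C.D v601 = true) := ⟨by decide +kernel⟩

def b601 : PLift (entF (fidx ts) 400 601 n601 = true) := ⟨by decide +kernel⟩

theorem g601 : GoodF (fidx ts) 400 601 := GoodF.ofV v601 n601 c601.down b601.down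

/-- 484665:532/2 -/
noncomputable def e602 : SCfg where
  D := {
    a := 6
    L := 10
    kp := 7
    inn := [(0, 1), (1, 0), (1, 2), (1, 3), (1, 4), (2, 1), (2, 3), (3, 1), (3, 2), (3, 4), (4, 1), (4,
      3), (4, 5), (5, 4)]
    mix := [(0, 0), (0, 1), (0, 2), (1, 0), (1, 2), (1, 3), (1, 4), (2, 3), (2, 5), (3, 5), (3, 6), (3,
      7), (4, 4), (4, 7), (4, 8), (5, 1), (5, 7), (5, 8), (5, 9)]
    cl := [0, 2, 5, 0, 1, 4, 6, 3, 3, 7]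
    chq := [(1, 4), (1, 6), (4, 1), (6, 1)]
    rng := [(0, 1), (0, 4), (1, 0), (1, 2), (1, 8), (1, 9), (2, 1), (2, 3), (3, 2), (3, 5), (4, 0), (4,
      8), (5, 3), (5, 6), (6, 5), (6, 7), (7, 6), (7, 9), (8, 1), (8, 4), (9, 1), (9, 7)]
    lev := [] }
  links := [[1, 6, 7, 8], [6, 0, 8, 9, 2, 3, 4, 10], [3, 1, 9, 11], [4, 1, 2, 11, 12, 13], [10, 1, 3, 13,
    5, 14], [14, 4, 13, 15, 7]]
  P := {
    a := 6
    N := 16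
    nb := [450, 1885, 2570, 14358, 25642, 57488, 1155, 49505, 643, 2310, 16466, 4620, 10248, 36920,
      1200, 8352]
    tri := [(0, 1, 6), (0, 1, 8), (0, 6, 7), (0, 7, 8), (1, 2, 3), (1, 2, 9), (1, 3, 4), (1, 4, 10),
      (1, 6, 10), (1, 8, 9), (2, 3, 11), (2, 9, 11), (3, 4, 13), (3, 11, 12), (3, 12, 13), (4, 5,
      13), (4, 5, 14), (4, 10, 14), (5, 7, 14), (5, 7, 15), (5, 13, 15)]
    fin := [0, 0, 0, 3, 3, 5, 0, 7, 8, 0, 3, 11, 12, 5, 5, 15]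
    chd := [(3, 11), (3, 12)]
    steps := [(0, 1), (0, 2), (0, 6), (0, 9), (3, 4), (3, 10), (5, 13), (5, 14)] }
  rep := [0, 3, 7, 5, 11, 8, 12, 15]

noncomputable def v602 : Cov.CovD where
  P := 3
  N := 5
  pl := [1, 2, 9]
  lev := [⟨[], [], [], [2, 5], [(0, 0, [])]⟩,
    ⟨[], [(0, 0), (0, 1)], [(0, 0), (0, 1)], [5], [(0, 0, []), (3, 0, []), (4, 1, [4, 6])]⟩,
    ⟨[(0, 1)], [(1, 0), (1, 1), (1, 4)], [(0, 4)], [], [(3, 0, []), (5, 4, [1])]⟩,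
    ⟨[(0, 1), (1, 2)], [(1, 0), (1, 1), (1, 3), (1, 4), (1, 6), (2, 0), (2, 3), (2, 4), (2,
      6)], [(3, 4), (3, 6), (4, 6)], [], [(5, 4, [1]), (6, 6, [1]), (7, 3, [])]⟩,
    ⟨[(0, 1), (1, 2), (1, 3), (2, 3)], [(1, 0), (1, 1), (1, 3), (3, 1), (3, 3), (3, 4), (3,
      6)], [(1, 3), (3, 3)], [], [(4, 1, [4, 6]), (7, 3, []), (8, 3, [])]⟩,
    ⟨[(1, 4), (3, 4)], [(3, 3), (4, 1), (4, 3)], [(3, 3)], [2, 7], [(7, 3, []), (8, 3,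
      [])]⟩]
  Ta := [((0, 1), 0, 2), ((0, 4), 0, 1), ((3, 2), 0, 5), ((3, 5), 0, 4), ((7, 6), 3, 6), ((7, 9),
    3, 7), ((8, 1), 3, 2), ((8, 4), 3, 1)]
  Tb := [((0, 1, 4), 0, 2, 1), ((1, 0, 2), 2, 0, 5), ((1, 0, 8), 2, 0, 3), ((1, 0, 9), 2, 0, 7),
    ((1, 2, 8), 2, 5, 3), ((1, 2, 9), 2, 5, 7), ((1, 8, 9), 2, 3, 7), ((2, 1, 3), 5, 2, 0),
    ((3, 2, 5), 0, 5, 4), ((4, 0, 8), 1, 0, 3), ((5, 3, 6), 4, 0, 6), ((6, 5, 7), 6, 4, 3),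
    ((7, 6, 9), 3, 6, 7), ((8, 1, 4), 3, 2, 1), ((9, 1, 7), 7, 2, 3)]
  Tc := [(1, 4, 6)]
  Td := [((1, 4), (4, 0), 0), ((1, 4), (4, 8), 3), ((1, 6), (4, 0), 0), ((1, 6), (4, 8), 3), ((4,
    1), (5, 3), 0), ((4, 1), (5, 6), 6), ((6, 1), (6, 5), 4), ((6, 1), (6, 7), 3)]
  G := [[0, 0xd21d2168d21d21a4c, 0xe1218e1214c, 0xc95218c59214c, 0xb4218b4214a], [0,
    0x5961c9616895a1c5a1a4c, 0xe1218e1214c, 0xc95218c59214c, 0xa95218a3c214a], [0, 0, 0,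
    0xc95248c59284c9528c5924cd, 0xb42a39b46a4b42b42c83], [0, 0, 0,
    0xc13c95496728c592c59d23a4c, 0xa35248a95288a392a392c4b]]

noncomputable def n602 : Ent := ⟨e602, noF, [], [], [(12, 15, [360035742630636841211993100915356868655746945586763691010134017, 0])]⟩

def c602 : PLift (Cov.check n602.C.D v602 = true) := ⟨by decide +kernel⟩

def b602 : PLift (entF (fidx ts) 400 602 n602 = true) := ⟨by decide +kernel⟩

theorem g602 : GoodF (fidx ts) 400 602 := GoodF.ofV v602 n602 c602.down b602.down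

/-- 484665:532/4 -/
noncomputable def e603 : SCfg where
  D := {
    a := 6
    L := 10
    kp := 7
    inn := [(0, 1), (1, 0), (1, 2), (1, 3), (1, 4), (2, 1), (2, 3), (3, 1), (3, 2), (3, 4), (4, 1), (4,
      3), (4, 5), (5, 4)]
    mix := [(0, 0), (0, 1), (0, 2), (1, 0), (1, 2), (1, 3), (1, 4), (2, 3), (2, 5), (3, 5), (3, 6), (3,
      7), (4, 4), (4, 7), (4, 8), (5, 6), (5, 7), (5, 8), (5, 9)]
    cl := [0, 6, 5, 0, 1, 2, 4, 3, 3, 7]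
    chq := [(1, 2), (1, 4), (2, 1), (4, 1)]
    rng := [(0, 1), (0, 4), (1, 0), (1, 2), (2, 1), (2, 3), (3, 2), (3, 5), (4, 0), (4, 8), (5, 3), (5,
      6), (6, 5), (6, 7), (6, 9), (7, 6), (8, 4), (8, 9), (9, 6), (9, 8)]
    lev := [] }
  links := [[1, 6, 7, 8], [6, 0, 8, 9, 2, 3, 4, 10], [3, 1, 9, 11], [4, 1, 2, 11, 12, 13], [10, 1, 3, 13,
    5, 14], [14, 4, 13, 12, 15]]
  P := {
    a := 6
    N := 16
    nb := [450, 1885, 2570, 14358, 25642, 61456, 1155, 321, 643, 2310, 16466, 4620, 43048, 4152,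
      33840, 20512]
    tri := [(0, 1, 6), (0, 1, 8), (0, 6, 7), (0, 7, 8), (1, 2, 3), (1, 2, 9), (1, 3, 4), (1, 4, 10),
      (1, 6, 10), (1, 8, 9), (2, 3, 11), (2, 9, 11), (3, 4, 13), (3, 11, 12), (3, 12, 13), (4, 5,
      13), (4, 5, 14), (4, 10, 14), (5, 12, 13), (5, 12, 15), (5, 14, 15)]
    fin := [0, 0, 0, 3, 3, 5, 0, 7, 8, 0, 3, 11, 12, 5, 5, 15]
    chd := [(3, 11), (3, 12)]
    steps := [(0, 1), (0, 2), (0, 6), (0, 9), (3, 4), (3, 10), (5, 13), (5, 14)] }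
  rep := [0, 3, 11, 5, 12, 8, 7, 15]

noncomputable def v603 : Cov.CovD where
  P := 3
  N := 5
  pl := [1, 2, 9]
  lev := [⟨[], [], [], [5, 6], [(0, 0, [])]⟩,
    ⟨[], [(0, 0), (0, 1)], [(0, 0), (0, 1)], [5], [(0, 0, []), (3, 0, []), (4, 1, [2, 4])]⟩,
    ⟨[(0, 1)], [(1, 0), (1, 1), (1, 2)], [(0, 2)], [], [(3, 0, []), (5, 2, [1])]⟩,
    ⟨[(0, 1), (1, 2)], [(1, 0), (1, 1), (1, 2), (1, 3), (1, 4), (2, 0), (2, 2), (2, 3), (2,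
      4)], [(2, 3), (2, 4), (3, 4)], [], [(5, 2, [1]), (6, 4, [1]), (7, 3, [])]⟩,
    ⟨[(0, 1), (1, 2), (1, 3), (2, 3)], [(1, 0), (1, 1), (1, 3), (3, 1), (3, 2), (3, 3), (3,
      4)], [(1, 3), (3, 3)], [], [(4, 1, [2, 4]), (7, 3, []), (8, 3, [])]⟩,
    ⟨[(1, 4), (3, 4)], [(3, 3), (3, 4), (4, 1), (4, 3), (4, 4)], [(3, 3), (3, 4)], [7],
      [(6, 4, [1]), (7, 3, []), (8, 3, [])]⟩]
  Ta := [((0, 1), 0, 6), ((0, 4), 0, 1), ((3, 2), 0, 5), ((3, 5), 0, 2), ((7, 6), 3, 4), ((8, 4),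
    3, 1), ((8, 9), 3, 7)]
  Tb := [((0, 1, 4), 0, 6, 1), ((1, 0, 2), 6, 0, 5), ((2, 1, 3), 5, 6, 0), ((3, 2, 5), 0, 5, 2),
    ((4, 0, 8), 1, 0, 3), ((5, 3, 6), 2, 0, 4), ((6, 5, 7), 4, 2, 3), ((6, 5, 9), 4, 2, 7),
    ((6, 7, 9), 4, 3, 7), ((8, 4, 9), 3, 1, 7), ((9, 6, 8), 7, 4, 3)]
  Tc := [(1, 2, 4)]
  Td := [((1, 2), (4, 0), 0), ((1, 2), (4, 8), 3), ((1, 4), (4, 0), 0), ((1, 4), (4, 8), 3), ((2,
    1), (5, 3), 0), ((2, 1), (5, 6), 4), ((4, 1), (6, 5), 2), ((4, 1), (6, 7), 3), ((4, 1),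
    (6, 9), 7)]
  G := [[0, 0xdb6148d7a184b7c182e, 0, 0xeb5248e79284eb52142a3968ce,
    0xeb521828e7921b24eb528e7921ce], [0, 0xdb6148d7a184b7c182e, 0,
    0xeb5248e79214eb524a3924245ce, 0xeb5218f1f8924f1e438e7921ce], [0, 0, 0xeb528e7928c1,
    0x2e9d248e79244eb524c27d28c7, 0x28e7921b24e25d284eb52887], [0, 0, 0xf423846e7924c1,
    0xe7928442b3c684eb52887, 0xe79284f1c2c384eb52887]]

noncomputable def n603 : Ent := ⟨e603, noF, [], [], [(7, 15, [360035742630636841211993100915356868655746945586763691010134017, 0])]⟩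

def c603 : PLift (Cov.check n603.C.D v603 = true) := ⟨by decide +kernel⟩

def b603 : PLift (entF (fidx ts) 400 603 n603 = true) := ⟨by decide +kernel⟩

theorem g603 : GoodF (fidx ts) 400 603 := GoodF.ofV v603 n603 c603.down b603.down

/-- 484665:532 -/
noncomputable def e604 : SCfg where
  D := {
    a := 6
    L := 11
    kp := 8
    inn := [(0, 1), (1, 0), (1, 2), (1, 3), (1, 4), (2, 1), (2, 3), (3, 1), (3, 2), (3, 4), (4, 1), (4,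
      3), (4, 5), (5, 4)]
    mix := [(0, 0), (0, 1), (0, 2), (1, 0), (1, 2), (1, 3), (1, 4), (2, 3), (2, 5), (3, 5), (3, 6), (3,
      7), (4, 4), (4, 7), (4, 8), (5, 7), (5, 8), (5, 9), (5, 10)]
    cl := [0, 6, 2, 0, 1, 4, 5, 3, 3, 7, 8]
    chq := [(1, 4), (1, 5), (4, 1), (5, 1)]
    rng := [(0, 1), (0, 4), (1, 0), (1, 2), (2, 1), (2, 3), (3, 2), (3, 5), (4, 0), (4, 8), (5, 3), (5,
      6), (6, 5), (6, 7), (7, 6), (7, 9), (8, 4), (8, 10), (9, 7), (9, 10), (10, 8), (10, 9)]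
    lev := [] }
  links := [[1, 6, 7, 8], [6, 0, 8, 9, 2, 3, 4, 10], [3, 1, 9, 11], [4, 1, 2, 11, 12, 13], [10, 1, 3, 13,
    5, 14], [14, 4, 13, 15, 16]]
  P := {
    a := 6
    N := 17
    nb := [450, 1885, 2570, 14358, 25642, 122896, 1155, 321, 643, 2310, 16466, 4620, 10248, 36920,
      66608, 73760, 49184]
    tri := [(0, 1, 6), (0, 1, 8), (0, 6, 7), (0, 7, 8), (1, 2, 3), (1, 2, 9), (1, 3, 4), (1, 4, 10),
      (1, 6, 10), (1, 8, 9), (2, 3, 11), (2, 9, 11), (3, 4, 13), (3, 11, 12), (3, 12, 13), (4, 5,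
      13), (4, 5, 14), (4, 10, 14), (5, 13, 15), (5, 14, 16), (5, 15, 16)]
    fin := [0, 0, 0, 3, 3, 5, 0, 7, 8, 0, 3, 11, 12, 5, 5, 15, 16]
    chd := [(3, 11), (3, 12)]
    steps := [(0, 1), (0, 2), (0, 6), (0, 9), (3, 4), (3, 10), (5, 13), (5, 14)] }
  rep := [0, 3, 8, 5, 11, 12, 7, 15, 16]

noncomputable def v604 : Cov.CovD where
  P := 3
  N := 6
  pl := [1, 2, 9, 10]
  lev := [⟨[], [], [], [2, 6], [(0, 0, [])]⟩,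
    ⟨[], [(0, 0), (0, 1)], [(0, 0), (0, 1)], [2], [(0, 0, []), (3, 0, []), (4, 1, [4, 5])]⟩,
    ⟨[(0, 1)], [(1, 0), (1, 1), (1, 4)], [(0, 4)], [], [(3, 0, []), (5, 4, [1])]⟩,
    ⟨[(0, 1), (1, 2)], [(1, 0), (1, 1), (1, 3), (1, 4), (1, 5), (2, 0), (2, 3), (2, 4), (2,
      5)], [(3, 4), (3, 5), (4, 5)], [], [(5, 4, [1]), (6, 5, [1]), (7, 3, [])]⟩,
    ⟨[(0, 1), (1, 2), (1, 3), (2, 3)], [(1, 0), (1, 1), (1, 3), (3, 1), (3, 3), (3, 4), (3,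
      5)], [(1, 3), (3, 3)], [], [(4, 1, [4, 5]), (7, 3, []), (8, 3, [])]⟩,
    ⟨[(1, 4), (3, 4)], [(3, 3), (4, 1), (4, 3)], [(3, 3)], [7, 8], [(7, 3, []), (8, 3,
      [])]⟩]
  Ta := [((0, 1), 0, 6), ((0, 4), 0, 1), ((3, 2), 0, 2), ((3, 5), 0, 4), ((7, 6), 3, 5), ((7, 9),
    3, 7), ((8, 4), 3, 1), ((8, 10), 3, 8)]
  Tb := [((0, 1, 4), 0, 6, 1), ((1, 0, 2), 6, 0, 2), ((2, 1, 3), 2, 6, 0), ((3, 2, 5), 0, 2, 4),
    ((4, 0, 8), 1, 0, 3), ((5, 3, 6), 4, 0, 5), ((6, 5, 7), 5, 4, 3), ((7, 6, 9), 3, 5, 7),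
    ((8, 4, 10), 3, 1, 8), ((9, 7, 10), 7, 3, 8), ((10, 8, 9), 8, 3, 7)]
  Tc := [(1, 4, 5)]
  Td := [((1, 4), (4, 0), 0), ((1, 4), (4, 8), 3), ((1, 5), (4, 0), 0), ((1, 5), (4, 8), 3), ((4,
    1), (5, 3), 0), ((4, 1), (5, 6), 5), ((5, 1), (6, 5), 4), ((5, 1), (6, 7), 3)]
  G := [[0, 0xdb614d7a12cd7a1d7a1a4c, 0, 0xe79214e79214c, 0xeb5218eb5218a], [0,
    0xdb61db6168db61db61a8c, 0, 0xe79214eb5218c, 0xeb5218eb5218a], [0, 0,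
    0xe792e792c4eb52eb52c8c, 0xe792e792c41, 0xeb52eb52c81], [0, 0, 0xf12f1f8964d1f171fa5f28a,
    0xe792e792c41, 0xeb52eb52c81]]

noncomputable def n604 : Ent := ⟨e604, noF, [], [], [(7, 15, [1685356702439545624007900436039642273970977273354372543760002547713, 0]), (7, 16, [1580044410770988437309982408355971841652082177953823432505691578369, 0]), (12, 15, [1685356702439545624007900436039642273970977273354372543760002560001, 0])]⟩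

def c604 : PLift (Cov.check n604.C.D v604 = true) := ⟨by decide +kernel⟩

def b604 : PLift (entF (fidx ts) 400 604 n604 = true) := ⟨by decide +kernel⟩

theorem g604 : GoodF (fidx ts) 400 604 := GoodF.ofV v604 n604 c604.down b604.down

/-- 484654:533/1 -/
noncomputable def e605 : SCfg where
  D := {
    a := 6
    L := 9
    kp := 6
    inn := [(0, 1), (1, 0), (1, 2), (1, 3), (1, 4), (2, 1), (2, 3), (3, 1), (3, 2), (3, 5), (4, 1), (5,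
      3)]
    mix := [(0, 0), (0, 1), (0, 2), (1, 0), (1, 2), (1, 3), (1, 4), (2, 3), (2, 5), (3, 4), (3, 5), (3,
      6), (4, 0), (4, 4), (4, 7), (4, 8), (5, 1), (5, 5), (5, 6)]
    cl := [0, 1, 2, 0, 0, 3, 4, 5, 6]
    chq := [(3, 4), (4, 3)]
    rng := [(0, 1), (0, 8), (1, 0), (1, 2), (1, 5), (1, 6), (2, 1), (2, 3), (3, 2), (3, 5), (4, 6), (4,
      7), (5, 1), (5, 3), (6, 1), (6, 4), (7, 4), (7, 8), (8, 0), (8, 7)]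
    lev := [] }
  links := [[1, 6, 7, 8], [6, 0, 8, 9, 2, 3, 10, 4], [3, 1, 9, 11], [10, 1, 2, 11, 5, 12], [6, 1, 10, 13,
    14], [12, 3, 11, 7]]
  P := {
    a := 6
    N := 15
    nb := [450, 1885, 2570, 7206, 25666, 6280, 16531, 6497, 643, 2310, 12314, 684, 1192, 17424, 8272]
    tri := [(0, 1, 6), (0, 1, 8), (0, 6, 7), (0, 7, 8), (1, 2, 3), (1, 2, 9), (1, 3, 10), (1, 4, 6),
      (1, 4, 10), (1, 8, 9), (2, 3, 11), (2, 9, 11), (3, 5, 11), (3, 5, 12), (3, 10, 12), (4, 6,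
      14), (4, 10, 13), (4, 13, 14), (5, 7, 11), (5, 7, 12)]
    fin := [0, 0, 0, 0, 0, 5, 0, 7, 8, 0, 0, 5, 12, 13, 14]
    chd := [(5, 12)]
    steps := [(0, 1), (0, 2), (0, 3), (0, 4), (0, 6), (0, 9), (0, 10), (5, 11)] }
  rep := [0, 7, 8, 5, 12, 13, 14]

noncomputable def v605 : Cov.CovD where
  P := 3
  N := 4
  pl := [1, 2, 7, 8]
  lev := [⟨[], [], [], [1, 2], [(0, 0, [])]⟩,
    ⟨[], [(0, 0)], [(0, 0)], [2], [(0, 0, []), (3, 0, []), (4, 0, [])]⟩,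
    ⟨[(0, 1)], [(1, 0), (1, 3)], [(0, 3)], [], [(3, 0, []), (5, 3, [4])]⟩,
    ⟨[(0, 1), (1, 2)], [(1, 0), (1, 3), (1, 4), (2, 0), (2, 3), (2, 4)], [(0, 3), (0, 4),
      (3, 4)], [], [(4, 0, []), (5, 3, [4]), (6, 4, [3])]⟩,
    ⟨[(0, 1), (1, 2), (1, 3)], [(0, 0), (1, 0), (3, 0)], [(0, 0)], [5, 6], [(0, 0, []), (4,
      0, [])]⟩,
    ⟨[(1, 3), (2, 3)], [(2, 3), (3, 0), (3, 3), (3, 4)], [(3, 4)], [1], [(5, 3, [4]), (6,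
      4, [3])]⟩]
  Ta := [((0, 1), 0, 1), ((0, 8), 0, 6), ((3, 2), 0, 2), ((3, 5), 0, 3), ((4, 6), 0, 4), ((4, 7),
    0, 5)]
  Tb := [((0, 1, 8), 0, 1, 6), ((1, 0, 2), 1, 0, 2), ((1, 0, 5), 1, 0, 3), ((1, 0, 6), 1, 0, 4),
    ((1, 2, 5), 1, 2, 3), ((1, 2, 6), 1, 2, 4), ((1, 5, 6), 1, 3, 4), ((2, 1, 3), 2, 1, 0),
    ((3, 2, 5), 0, 2, 3), ((4, 6, 7), 0, 4, 5), ((5, 1, 3), 3, 1, 0), ((6, 1, 4), 4, 1, 0),
    ((7, 4, 8), 5, 0, 6), ((8, 0, 7), 6, 0, 5)]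
  Tc := []
  Td := [((3, 4), (5, 1), 1), ((3, 4), (5, 3), 0), ((4, 3), (6, 1), 1), ((4, 3), (6, 4), 0)]
  G := [[0, 0xccce1aaae1684, 0, 0x111e2184, 0x1222118e144e11ce1a8], [0, 0,
    0xcc614c81811e111ea6c8, 0xddde2241, 0x444e119e62111e444ec88c8aa1], [0, 0, 0, 0xddde2141,
    0x12444e119ee188c81a1]]

noncomputable def n605 : Ent := ⟨e605, noF, [], [], []⟩

def c605 : PLift (Cov.check n605.C.D v605 = true) := ⟨by decide +kernel⟩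

def b605 : PLift (entF (fidx ts) 400 605 n605 = true) := ⟨by decide +kernel⟩

theorem g605 : GoodF (fidx ts) 400 605 := GoodF.ofV v605 n605 c605.down b605.down

/-- 484654:533 -/
noncomputable def e606 : SCfg where
  D := {
    a := 6
    L := 10
    kp := 7
    inn := [(0, 1), (1, 0), (1, 2), (1, 3), (1, 4), (2, 1), (2, 3), (3, 1), (3, 2), (3, 5), (4, 1), (5,
      3)]
    mix := [(0, 0), (0, 1), (0, 2), (1, 0), (1, 2), (1, 3), (1, 4), (2, 3), (2, 5), (3, 4), (3, 5), (3,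
      6), (4, 0), (4, 4), (4, 7), (4, 8), (5, 5), (5, 6), (5, 9)]
    cl := [0, 4, 2, 0, 0, 1, 3, 5, 6, 7]
    chq := [(1, 3), (3, 1)]
    rng := [(0, 1), (0, 8), (1, 0), (1, 2), (2, 1), (2, 3), (3, 2), (3, 5), (4, 6), (4, 7), (5, 3), (5,
      9), (6, 4), (6, 9), (7, 4), (7, 8), (8, 0), (8, 7), (9, 5), (9, 6)]
    lev := [] }
  links := [[1, 6, 7, 8], [6, 0, 8, 9, 2, 3, 10, 4], [3, 1, 9, 11], [10, 1, 2, 11, 5, 12], [6, 1, 10, 13,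
    14], [12, 3, 11, 15]]
  P := {
    a := 6
    N := 16
    nb := [450, 1885, 2570, 7206, 25666, 38920, 16531, 321, 643, 2310, 12314, 33324, 33832, 17424,
      8272, 6176]
    tri := [(0, 1, 6), (0, 1, 8), (0, 6, 7), (0, 7, 8), (1, 2, 3), (1, 2, 9), (1, 3, 10), (1, 4, 6),
      (1, 4, 10), (1, 8, 9), (2, 3, 11), (2, 9, 11), (3, 5, 11), (3, 5, 12), (3, 10, 12), (4, 6,
      14), (4, 10, 13), (4, 13, 14), (5, 11, 15), (5, 12, 15)]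
    fin := [0, 0, 0, 0, 0, 5, 0, 7, 8, 0, 0, 5, 12, 13, 14, 15]
    chd := [(5, 12)]
    steps := [(0, 1), (0, 2), (0, 3), (0, 4), (0, 6), (0, 9), (0, 10), (5, 11)] }
  rep := [0, 5, 8, 12, 7, 13, 14, 15]

noncomputable def v606 : Cov.CovD where
  P := 3
  N := 5
  pl := [1, 2, 7, 8, 9]
  lev := [⟨[], [], [], [2, 4], [(0, 0, [])]⟩,
    ⟨[], [(0, 0)], [(0, 0)], [2], [(0, 0, []), (3, 0, []), (4, 0, [])]⟩,
    ⟨[(0, 1)], [(1, 0), (1, 1)], [(0, 1)], [], [(3, 0, []), (5, 1, [3])]⟩,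
    ⟨[(0, 1), (1, 2)], [(1, 0), (1, 1), (1, 3), (2, 0), (2, 1), (2, 3)], [(0, 1), (0, 3),
      (1, 3)], [], [(4, 0, []), (5, 1, [3]), (6, 3, [1])]⟩,
    ⟨[(0, 1), (1, 2), (1, 3)], [(0, 0), (1, 0), (3, 0)], [(0, 0)], [5, 6], [(0, 0, []), (4,
      0, [])]⟩,
    ⟨[(1, 3), (2, 3)], [(2, 1), (3, 0), (3, 1), (3, 3)], [(1, 3)], [7], [(5, 1, [3]), (6,
      3, [1])]⟩]
  Ta := [((0, 1), 0, 4), ((0, 8), 0, 6), ((3, 2), 0, 2), ((3, 5), 0, 1), ((4, 6), 0, 3), ((4, 7),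
    0, 5)]
  Tb := [((0, 1, 8), 0, 4, 6), ((1, 0, 2), 4, 0, 2), ((2, 1, 3), 2, 4, 0), ((3, 2, 5), 0, 2, 1),
    ((4, 6, 7), 0, 3, 5), ((5, 3, 9), 1, 0, 7), ((6, 4, 9), 3, 0, 7), ((7, 4, 8), 5, 0, 6),
    ((8, 0, 7), 6, 0, 5), ((9, 5, 6), 7, 1, 3)]
  Tc := []
  Td := [((1, 3), (5, 3), 0), ((1, 3), (5, 9), 7), ((3, 1), (6, 4), 0), ((3, 1), (6, 9), 7)]
  G := [[0, 0, 0, 0x144454cca1191e11ac5c156c451458c999a81cc, 0x999e555ec12116111eccced41884aa],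
    [0, 0xaaae2ccce4681, 0x919e111e4c4ed421448111e11accced8c6, 0x11648111e18ccced8c1,
    0x111e111eccced421], [0, 0, 0, 0x555e41999e81c1, 0x999e555ec121]]

noncomputable def n606 : Ent := ⟨e606, noF, [], [], [(7, 15, [360035742630636841211993100915356868655746945586763691010150401, 0])]⟩

def c606 : PLift (Cov.check n606.C.D v606 = true) := ⟨by decide +kernel⟩

def b606 : PLift (entF (fidx ts) 400 606 n606 = true) := ⟨by decide +kernel⟩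

theorem g606 : GoodF (fidx ts) 400 606 := GoodF.ofV v606 n606 c606.down b606.down

/-- 457764:534/1 -/
noncomputable def e607 : SCfg where
  D := {
    a := 6
    L := 9
    kp := 6
    inn := [(0, 1), (0, 2), (1, 0), (1, 2), (1, 3), (1, 4), (2, 0), (2, 1), (2, 4), (3, 1), (3, 4), (3,
      5), (4, 1), (4, 2), (4, 3), (5, 3)]
    mix := [(0, 0), (0, 1), (1, 1), (2, 0), (2, 2), (2, 3), (2, 4), (3, 1), (3, 5), (3, 6), (3, 7), (4,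
      2), (4, 7), (4, 8), (5, 0), (5, 1), (5, 5)]
    cl := [0, 1, 0, 4, 5, 2, 1, 3, 6]
    chq := [(0, 3), (3, 0)]
    rng := [(0, 1), (0, 4), (0, 5), (1, 0), (2, 3), (2, 8), (3, 2), (3, 4), (4, 0), (4, 3), (5, 0), (5,
      6), (6, 5), (6, 7), (7, 6), (7, 8), (8, 2), (8, 7)]
    lev := [] }
  links := [[1, 2, 6, 7], [2, 0, 7, 3, 4], [6, 0, 1, 4, 8, 9, 10], [4, 1, 7, 5, 11, 12, 13], [8, 2, 1, 3,
    13, 14], [11, 3, 7, 6]]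
  P := {
    a := 6
    N := 15
    nb := [198, 157, 1875, 14514, 24846, 2248, 3237, 107, 16916, 1284, 580, 4200, 10248, 20504, 8464]
    tri := [(0, 1, 2), (0, 1, 7), (0, 2, 6), (0, 6, 7), (1, 2, 4), (1, 3, 4), (1, 3, 7), (2, 4, 8), (2,
      6, 10), (2, 8, 9), (2, 9, 10), (3, 4, 13), (3, 5, 7), (3, 5, 11), (3, 11, 12), (3, 12, 13),
      (4, 8, 14), (4, 13, 14), (5, 6, 7), (5, 6, 11)]
    fin := [0, 0, 0, 3, 0, 0, 0, 3, 0, 9, 10, 11, 3, 13, 14]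
    chd := [(0, 13)]
    steps := [(0, 1), (0, 2), (0, 4), (0, 6), (0, 8), (3, 7), (0, 5), (3, 12)] }
  rep := [0, 3, 11, 13, 9, 10, 14]

noncomputable def v607 : Cov.CovD where
  P := 3
  N := 4
  pl := [3, 4, 5, 8]
  lev := [⟨[], [], [(0, 1)], [], [(0, 0, [3]), (1, 1, [])]⟩,
    ⟨[], [(0, 0), (0, 1)], [], [], [(1, 1, [])]⟩,
    ⟨[(0, 1)], [(0, 0), (0, 1), (1, 0), (1, 1)], [(0, 0)], [4, 5], [(0, 0, [3]), (2, 0,
      [3])]⟩,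
    ⟨[(0, 1), (1, 2)], [(0, 1), (1, 1), (1, 3)], [(1, 1), (1, 3)], [2], [(1, 1, []), (6, 1,
      []), (7, 3, [0])]⟩,
    ⟨[(0, 1), (0, 2), (1, 2), (1, 3), (2, 3)], [(1, 0), (1, 1), (1, 3), (2, 0), (2, 3), (3,
      0), (3, 1), (3, 3)], [(0, 3)], [6], [(2, 0, [3]), (7, 3, [0])]⟩,
    ⟨[(1, 3), (3, 4)], [(0, 0), (0, 1), (1, 1), (2, 0), (3, 0), (3, 1), (3, 3)], [(0, 1)],
      [2], [(0, 0, [3]), (1, 1, [])]⟩]
  Ta := [((0, 1), 0, 1), ((0, 4), 0, 5), ((0, 5), 0, 2), ((1, 0), 1, 0), ((2, 3), 0, 4), ((2, 8),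
    0, 6), ((6, 5), 1, 2), ((6, 7), 1, 3)]
  Tb := [((0, 1, 4), 0, 1, 5), ((0, 1, 5), 0, 1, 2), ((0, 4, 5), 0, 5, 2), ((2, 3, 8), 0, 4, 6),
    ((3, 2, 4), 4, 0, 5), ((4, 0, 3), 5, 0, 4), ((5, 0, 6), 2, 0, 1), ((6, 5, 7), 1, 2, 3),
    ((7, 6, 8), 3, 1, 6), ((8, 2, 7), 6, 0, 3)]
  Tc := []
  Td := [((0, 3), (0, 1), 1), ((0, 3), (0, 4), 5), ((0, 3), (0, 5), 2), ((0, 3), (2, 3), 4), ((0,
    3), (2, 8), 6), ((3, 0), (7, 6), 1), ((3, 0), (7, 8), 6)]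
  G := [[0, 0x4181c8181c8181ce28, 0x41444181c4188181cec8, 0, 0x81886988a1888e1e841458], [0, 0,
    0x4144121c2121ce8188c4, 0x841441886948a1884e1ec8, 0x241481286981829888e1ec8], [0, 0, 0,
    0, 0x888e1888e16888e18c1], [0, 0, 0, 0x44141486184a1844e1e8818ac,
    0x84182a1822e1e82a18c241485]]

noncomputable def n607 : Ent := ⟨e607, noF, [], [], []⟩

def c607 : PLift (Cov.check n607.C.D v607 = true) := ⟨by decide +kernel⟩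

def b607 : PLift (entF (fidx ts) 400 607 n607 = true) := ⟨by decide +kernel⟩

theorem g607 : GoodF (fidx ts) 400 607 := GoodF.ofV v607 n607 c607.down b607.down

/-- 457764:534 -/
noncomputable def e608 : SCfg where
  D := {
    a := 6
    L := 10
    kp := 7
    inn := [(0, 1), (0, 2), (1, 0), (1, 2), (1, 3), (1, 4), (2, 0), (2, 1), (2, 4), (3, 1), (3, 4), (3,
      5), (4, 1), (4, 2), (4, 3), (5, 3)]
    mix := [(0, 0), (0, 1), (1, 1), (2, 0), (2, 2), (2, 3), (2, 4), (3, 1), (3, 5), (3, 6), (3, 7), (4,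
      2), (4, 7), (4, 8), (5, 1), (5, 5), (5, 9)]
    cl := [1, 0, 1, 5, 6, 3, 0, 2, 4, 7]
    chq := [(0, 4), (4, 0)]
    rng := [(0, 1), (0, 4), (1, 0), (1, 9), (2, 3), (2, 8), (3, 2), (3, 4), (4, 0), (4, 3), (5, 6), (5,
      9), (6, 5), (6, 7), (7, 6), (7, 8), (8, 2), (8, 7), (9, 1), (9, 5)]
    lev := [] }
  links := [[1, 2, 6, 7], [2, 0, 7, 3, 4], [6, 0, 1, 4, 8, 9, 10], [4, 1, 7, 5, 11, 12, 13], [8, 2, 1, 3,
    13, 14], [11, 3, 7, 15]]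
  P := {
    a := 6
    N := 16
    nb := [198, 157, 1875, 14514, 24846, 34952, 1157, 32875, 16916, 1284, 580, 36904, 10248, 20504,
      8464, 2208]
    tri := [(0, 1, 2), (0, 1, 7), (0, 2, 6), (0, 6, 7), (1, 2, 4), (1, 3, 4), (1, 3, 7), (2, 4, 8), (2,
      6, 10), (2, 8, 9), (2, 9, 10), (3, 4, 13), (3, 5, 7), (3, 5, 11), (3, 11, 12), (3, 12, 13),
      (4, 8, 14), (4, 13, 14), (5, 7, 15), (5, 11, 15)]
    fin := [0, 0, 0, 3, 3, 3, 0, 3, 0, 9, 10, 11, 3, 13, 14, 15]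
    chd := [(3, 14)]
    steps := [(0, 1), (0, 2), (0, 6), (0, 8), (3, 4), (3, 5), (3, 7), (3, 12)] }
  rep := [3, 0, 13, 11, 14, 9, 10, 15]

noncomputable def v608 : Cov.CovD where
  P := 3
  N := 5
  pl := [3, 4, 5, 7, 9]
  lev := [⟨[], [], [(0, 1)], [], [(0, 1, []), (1, 0, [4])]⟩,
    ⟨[], [(0, 0), (0, 1)], [], [], [(1, 0, [4])]⟩,
    ⟨[(0, 1)], [(0, 0), (0, 1), (1, 0), (1, 1)], [(1, 1)], [5, 6], [(0, 1, []), (2, 1,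
      [])]⟩,
    ⟨[(0, 1), (1, 2)], [(0, 0), (1, 0)], [(0, 0)], [2, 3], [(1, 0, [4]), (6, 0, [4])]⟩,
    ⟨[(0, 1), (0, 2), (1, 2), (1, 3), (2, 3)], [(1, 0), (1, 1), (1, 4), (2, 1), (2, 4), (3,
      0), (3, 1), (3, 4)], [(1, 4)], [2], [(2, 1, []), (8, 4, [0])]⟩,
    ⟨[(1, 3), (3, 4)], [(0, 0), (1, 0), (3, 0)], [], [3, 7], [(1, 0, [4])]⟩]
  Ta := [((0, 1), 1, 0), ((0, 4), 1, 6), ((1, 0), 0, 1), ((1, 9), 0, 7), ((2, 3), 1, 5), ((2, 8),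
    1, 4), ((6, 5), 0, 3), ((6, 7), 0, 2)]
  Tb := [((0, 1, 4), 1, 0, 6), ((1, 0, 9), 0, 1, 7), ((2, 3, 8), 1, 5, 4), ((3, 2, 4), 5, 1, 6),
    ((4, 0, 3), 6, 1, 5), ((5, 6, 9), 3, 0, 7), ((6, 5, 7), 0, 3, 2), ((7, 6, 8), 2, 0, 4),
    ((8, 2, 7), 4, 1, 2), ((9, 1, 5), 7, 0, 3)]
  Tc := []
  Td := [((0, 4), (1, 0), 1), ((0, 4), (1, 9), 7), ((0, 4), (6, 5), 3), ((0, 4), (6, 7), 2), ((4,
    0), (8, 2), 1), ((4, 0), (8, 7), 2)]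
  G := [[0, 0xa161ca161ca161ce24, 0, 0xa161ca161caa5165cd28, 0xc161ac261ac2169ad48], [0, 0, 0,
    0xa161ca161c1a5165cd28, 0xc161ac161a1c9669ad48], [0, 0, 0x1241212c1212cd1288c4,
    0x9151ca111c1a511ccd28, 0x3151a11b1a12169ad48], [0, 0, 0x1411ca4211c11c618811c11cad2c,
    0x3151c5131c1a5115cd28, 0x3151a5191a1c9119ad28]]

noncomputable def n608 : Ent := ⟨e608, noF, [], [], [(6, 15, [360035742630636841211993100915356868655746945586763691010158593, 0])]⟩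

def c608 : PLift (Cov.check n608.C.D v608 = true) := ⟨by decide +kernel⟩

def b608 : PLift (entF (fidx ts) 400 608 n608 = true) := ⟨by decide +kernel⟩

theorem g608 : GoodF (fidx ts) 400 608 := GoodF.ofV v608 n608 c608.down b608.down

/-- 484744:537/1 -/
noncomputable def e609 : SCfg where
  D := {
    a := 6
    L := 8
    kp := 5
    inn := [(0, 1), (1, 0), (1, 2), (1, 3), (1, 4), (2, 1), (2, 3), (3, 1), (3, 2), (3, 4), (3, 5), (4,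
      1), (4, 3), (5, 3)]
    mix := [(0, 0), (0, 1), (0, 2), (1, 0), (1, 2), (1, 3), (1, 4), (2, 3), (2, 5), (3, 5), (3, 6), (3,
      7), (4, 4), (4, 7), (5, 1), (5, 5), (5, 6)]
    cl := [0, 1, 2, 0, 4, 3, 5, 3]
    chq := []
    rng := [(0, 1), (0, 4), (1, 0), (1, 2), (1, 5), (1, 6), (2, 1), (2, 3), (3, 2), (3, 5), (4, 0), (4,
      7), (5, 1), (5, 3), (6, 1), (6, 7), (7, 4), (7, 6)]
    lev := [] }
  links := [[1, 6, 7, 8], [6, 0, 8, 9, 2, 3, 4, 10], [3, 1, 9, 11], [4, 1, 2, 11, 5, 12, 13], [10, 1, 3,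
    13], [12, 3, 11, 7]]
  P := {
    a := 6
    N := 14
    nb := [450, 1885, 2570, 14390, 9226, 6280, 1155, 6497, 643, 2310, 8274, 684, 8360, 5144]
    tri := [(0, 1, 6), (0, 1, 8), (0, 6, 7), (0, 7, 8), (1, 2, 3), (1, 2, 9), (1, 3, 4), (1, 4, 10),
      (1, 6, 10), (1, 8, 9), (2, 3, 11), (2, 9, 11), (3, 4, 13), (3, 5, 11), (3, 5, 12), (3, 12,
      13), (4, 10, 13), (5, 7, 11), (5, 7, 12)]
    fin := [0, 0, 0, 3, 0, 5, 0, 5, 8, 0, 10, 3, 12, 3]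
    chd := []
    steps := [(0, 1), (0, 2), (0, 4), (0, 6), (0, 9), (3, 11), (3, 13), (5, 7)] }
  rep := [0, 5, 8, 3, 10, 12]

noncomputable def v609 : Cov.CovD where
  P := 3
  N := 3
  pl := [1, 2, 4, 6]
  lev := [⟨[], [], [], [1, 2], [(0, 0, [])]⟩,
    ⟨[], [(0, 0)], [(0, 0)], [2, 4], [(0, 0, []), (3, 0, [])]⟩,
    ⟨[(0, 1)], [(1, 0), (1, 3)], [(0, 3)], [], [(3, 0, []), (5, 3, [])]⟩,
    ⟨[(0, 1), (1, 2)], [(1, 0), (1, 3), (2, 0), (2, 3)], [(3, 3)], [5], [(5, 3, []), (7, 3,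
      [])]⟩,
    ⟨[(0, 1), (1, 2), (1, 3), (2, 3)], [(1, 0), (1, 3), (3, 3)], [], [4], [(7, 3, [])]⟩,
    ⟨[(1, 3), (2, 3), (3, 4)], [(2, 3), (3, 3)], [], [1, 5], [(5, 3, [])]⟩]
  Ta := [((0, 1), 0, 1), ((0, 4), 0, 4), ((3, 2), 0, 2), ((3, 5), 0, 3), ((5, 1), 3, 1), ((5, 3),
    3, 0), ((7, 4), 3, 4), ((7, 6), 3, 5)]
  Tb := [((0, 1, 4), 0, 1, 4), ((1, 0, 2), 1, 0, 2), ((1, 0, 5), 1, 0, 3), ((1, 0, 6), 1, 0, 5),
    ((1, 2, 5), 1, 2, 3), ((1, 2, 6), 1, 2, 5), ((1, 5, 6), 1, 3, 5), ((2, 1, 3), 2, 1, 0),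
    ((3, 2, 5), 0, 2, 3), ((4, 0, 7), 4, 0, 3), ((5, 1, 3), 3, 1, 0), ((6, 1, 7), 5, 1, 3),
    ((7, 4, 6), 3, 4, 5)]
  Tc := []
  Td := []
  G := [[0, 0x811412169e118c4, 0, 0xc55219221c8, 0xc4116342431418189a8], [0, 0xc112c112c8, 0,
    0xc121c221c4, 0x41148323411238a8], [0, 0, 0x411165281224181c58e8, 0xd224d122c4,
    0x4191147241948178a8], [0, 0, 0x814132418132c8, 0x51229122c4, 0x418132811234a1]]

noncomputable def n609 : Ent := ⟨e609, noF, [], [], []⟩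

def c609 : PLift (Cov.check n609.C.D v609 = true) := ⟨by decide +kernel⟩

def b609 : PLift (entF (fidx ts) 400 609 n609 = true) := ⟨by decide +kernel⟩

theorem g609 : GoodF (fidx ts) 400 609 := GoodF.ofV v609 n609 c609.down b609.down

/-- 484744:537 -/
noncomputable def e610 : SCfg where
  D := {
    a := 6
    L := 9
    kp := 6
    inn := [(0, 1), (1, 0), (1, 2), (1, 3), (1, 4), (2, 1), (2, 3), (3, 1), (3, 2), (3, 4), (3, 5), (4,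
      1), (4, 3), (5, 3)]
    mix := [(0, 0), (0, 1), (0, 2), (1, 0), (1, 2), (1, 3), (1, 4), (2, 3), (2, 5), (3, 5), (3, 6), (3,
      7), (4, 4), (4, 7), (5, 5), (5, 6), (5, 8)]
    cl := [1, 5, 2, 1, 3, 0, 4, 0, 6]
    chq := []
    rng := [(0, 1), (0, 4), (1, 0), (1, 2), (2, 1), (2, 3), (3, 2), (3, 5), (4, 0), (4, 7), (5, 3), (5,
      8), (6, 7), (6, 8), (7, 4), (7, 6), (8, 5), (8, 6)]
    lev := [] }
  links := [[1, 6, 7, 8], [6, 0, 8, 9, 2, 3, 4, 10], [3, 1, 9, 11], [4, 1, 2, 11, 5, 12, 13], [10, 1, 3,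
    13], [12, 3, 11, 14]]
  P := {
    a := 6
    N := 15
    nb := [450, 1885, 2570, 14390, 9226, 22536, 1155, 321, 643, 2310, 8274, 16940, 24616, 5144, 6176]
    tri := [(0, 1, 6), (0, 1, 8), (0, 6, 7), (0, 7, 8), (1, 2, 3), (1, 2, 9), (1, 3, 4), (1, 4, 10),
      (1, 6, 10), (1, 8, 9), (2, 3, 11), (2, 9, 11), (3, 4, 13), (3, 5, 11), (3, 5, 12), (3, 12,
      13), (4, 10, 13), (5, 11, 14), (5, 12, 14)]
    fin := [0, 0, 0, 3, 0, 3, 0, 7, 8, 0, 10, 3, 12, 3, 14]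
    chd := []
    steps := [(0, 1), (0, 2), (0, 4), (0, 6), (0, 9), (3, 5), (3, 11), (3, 13)] }
  rep := [3, 0, 8, 10, 12, 7, 14]

noncomputable def v610 : Cov.CovD where
  P := 3
  N := 4
  pl := [1, 2, 4, 6, 8]
  lev := [⟨[], [], [], [2, 5], [(0, 1, [])]⟩,
    ⟨[], [(0, 1)], [(1, 1)], [2, 3], [(0, 1, []), (3, 1, [])]⟩,
    ⟨[(0, 1)], [(1, 0), (1, 1)], [(0, 1)], [], [(3, 1, []), (5, 0, [])]⟩,
    ⟨[(0, 1), (1, 2)], [(1, 0), (1, 1), (2, 0), (2, 1)], [(0, 0)], [4], [(5, 0, []), (7, 0,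
      [])]⟩,
    ⟨[(0, 1), (1, 2), (1, 3), (2, 3)], [(1, 0), (1, 1), (3, 0)], [], [3], [(7, 0, [])]⟩,
    ⟨[(1, 3), (2, 3), (3, 4)], [(2, 0), (3, 0)], [], [4, 6], [(5, 0, [])]⟩]
  Ta := [((0, 1), 1, 5), ((0, 4), 1, 3), ((3, 2), 1, 2), ((3, 5), 1, 0), ((5, 3), 0, 1), ((5, 8),
    0, 6), ((7, 4), 0, 3), ((7, 6), 0, 4)]
  Tb := [((0, 1, 4), 1, 5, 3), ((1, 0, 2), 5, 1, 2), ((2, 1, 3), 2, 5, 1), ((3, 2, 5), 1, 2, 0),
    ((4, 0, 7), 3, 1, 0), ((5, 3, 8), 0, 1, 6), ((6, 7, 8), 4, 0, 6), ((7, 4, 6), 0, 3, 4),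
    ((8, 5, 6), 6, 0, 4)]
  Tc := []
  Td := []
  G := [[0, 0, 0xa12c146c161a4ca12c84a612c18acc, 0, 0xaa666ac2148ceaac6819], [0,
    0xc1a168c161a4c1, 0xc2a168c161a4c2, 0xe22242e41624a28c19, 0x624a28c12], [0, 0,
    0x329264c464a1c187864122c289cc, 0, 0xa421446a212c4918d864a212c499], [0, 0,
    0x3252a4c212a4c2, 0xb2126481262c8112d2a44d, 0x141268b2146492]]

noncomputable def n610 : Ent := ⟨e610, noF, [], [], [(7, 14, [81620716623019490593592230936445690773474979418095885881345, 0])]⟩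

def c610 : PLift (Cov.check n610.C.D v610 = true) := ⟨by decide +kernel⟩

def b610 : PLift (entF (fidx ts) 400 610 n610 = true) := ⟨by decide +kernel⟩

theorem g610 : GoodF (fidx ts) 400 610 := GoodF.ofV v610 n610 c610.down b610.down

/-- 484754:539/1 -/
noncomputable def e611 : SCfg where
  D := {
    a := 6
    L := 9
    kp := 6
    inn := [(0, 1), (1, 0), (1, 2), (1, 3), (1, 4), (2, 1), (2, 3), (3, 1), (3, 2), (3, 4), (3, 5), (4,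
      1), (4, 3), (5, 3)]
    mix := [(0, 0), (0, 1), (0, 2), (1, 0), (1, 2), (1, 3), (1, 4), (2, 3), (2, 5), (3, 5), (3, 6), (3,
      7), (4, 4), (4, 7), (4, 8), (5, 1), (5, 5), (5, 6)]
    cl := [1, 4, 2, 0, 0, 3, 5, 3, 6]
    chq := [(0, 4), (4, 0)]
    rng := [(0, 1), (0, 4), (1, 0), (1, 2), (1, 5), (1, 6), (2, 1), (2, 3), (3, 2), (3, 5), (4, 0), (4,
      8), (5, 1), (5, 3), (6, 1), (6, 7), (7, 6), (7, 8), (8, 4), (8, 7)]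
    lev := [] }
  links := [[1, 6, 7, 8], [6, 0, 8, 9, 2, 3, 4, 10], [3, 1, 9, 11], [4, 1, 2, 11, 5, 12, 13], [10, 1, 3,
    13, 14], [12, 3, 11, 7]]
  P := {
    a := 6
    N := 15
    nb := [450, 1885, 2570, 14390, 25610, 6280, 1155, 6497, 643, 2310, 16466, 684, 8360, 20504, 9232]
    tri := [(0, 1, 6), (0, 1, 8), (0, 6, 7), (0, 7, 8), (1, 2, 3), (1, 2, 9), (1, 3, 4), (1, 4, 10),
      (1, 6, 10), (1, 8, 9), (2, 3, 11), (2, 9, 11), (3, 4, 13), (3, 5, 11), (3, 5, 12), (3, 12,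
      13), (4, 10, 14), (4, 13, 14), (5, 7, 11), (5, 7, 12)]
    fin := [0, 1, 1, 3, 1, 0, 6, 0, 8, 1, 1, 3, 12, 3, 14]
    chd := [(0, 1)]
    steps := [(0, 7), (0, 5), (1, 2), (1, 4), (1, 9), (1, 10), (3, 11), (3, 13)] }
  rep := [1, 6, 8, 3, 0, 12, 14]

noncomputable def v611 : Cov.CovD where
  P := 3
  N := 4
  pl := [0, 2, 6, 8]
  lev := [⟨[], [], [], [1, 2], [(1, 4, [0])]⟩,
    ⟨[], [(0, 0), (0, 4)], [(0, 0)], [1, 2], [(3, 0, [4]), (4, 0, [4])]⟩,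
    ⟨[(0, 1)], [(1, 0), (1, 3)], [(0, 3)], [], [(3, 0, [4]), (5, 3, [])]⟩,
    ⟨[(0, 1), (1, 2)], [(1, 0), (1, 3), (2, 0), (2, 3)], [(3, 3)], [5], [(5, 3, []), (7, 3,
      [])]⟩,
    ⟨[(0, 1), (1, 2), (1, 3), (2, 3)], [(1, 0), (1, 3), (3, 0), (3, 3)], [(0, 3)], [6],
      [(4, 0, [4]), (7, 3, [])]⟩,
    ⟨[(1, 3), (2, 3), (3, 4)], [(0, 4), (2, 3), (3, 3), (3, 4)], [(3, 4)], [5], [(1, 4,
      [0]), (5, 3, [])]⟩]
  Ta := [((3, 2), 0, 2), ((3, 5), 0, 3), ((4, 0), 0, 1), ((4, 8), 0, 6), ((5, 1), 3, 4), ((5, 3),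
    3, 0), ((7, 6), 3, 5), ((7, 8), 3, 6)]
  Tb := [((0, 1, 4), 1, 4, 0), ((1, 0, 2), 4, 1, 2), ((1, 0, 5), 4, 1, 3), ((1, 0, 6), 4, 1, 5),
    ((1, 2, 5), 4, 2, 3), ((1, 2, 6), 4, 2, 5), ((1, 5, 6), 4, 3, 5), ((2, 1, 3), 2, 4, 0),
    ((3, 2, 5), 0, 2, 3), ((4, 0, 8), 0, 1, 6), ((5, 1, 3), 3, 4, 0), ((6, 1, 7), 5, 4, 3),
    ((7, 6, 8), 3, 5, 6), ((8, 4, 7), 6, 0, 3)]
  Tc := []
  Td := [((0, 4), (3, 2), 2), ((0, 4), (3, 5), 3), ((0, 4), (4, 0), 1), ((0, 4), (4, 8), 6), ((4,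
    0), (1, 0), 1), ((4, 0), (1, 2), 2), ((4, 0), (1, 5), 3), ((4, 0), (1, 6), 5)]
  G := [[0, 0, 0xa112584143686112948183a4c, 0x8424d4784ca2858b4c1, 0x8c6a46a29923449945e81], [0,
    0, 0x211121e84514111e28c, 0x612121e814a41, 0x31b1a58eb481], [0,
    0x12118182a8ab41211414264678c, 0, 0x9861e224697814c1, 0xb21d41e2e46781], [0,
    0x18116522c886a3444149411a144a8acc, 0, 0x28641592e124a83c1, 0x999e12ac4ca6581]]

noncomputable def n611 : Ent := ⟨e611, noF, [], [], []⟩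

def c611 : PLift (Cov.check n611.C.D v611 = true) := ⟨by decide +kernel⟩

def b611 : PLift (entF (fidx ts) 400 611 n611 = true) := ⟨by decide +kernel⟩

theorem g611 : GoodF (fidx ts) 400 611 := GoodF.ofV v611 n611 c611.down b611.down

/-- 484754:539 -/
noncomputable def e612 : SCfg where
  D := {
    a := 6
    L := 10
    kp := 7
    inn := [(0, 1), (1, 0), (1, 2), (1, 3), (1, 4), (2, 1), (2, 3), (3, 1), (3, 2), (3, 4), (3, 5), (4,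
      1), (4, 3), (5, 3)]
    mix := [(0, 0), (0, 1), (0, 2), (1, 0), (1, 2), (1, 3), (1, 4), (2, 3), (2, 5), (3, 5), (3, 6), (3,
      7), (4, 4), (4, 7), (4, 8), (5, 5), (5, 6), (5, 9)]
    cl := [1, 5, 2, 0, 0, 3, 4, 3, 6, 7]
    chq := [(0, 5), (5, 0)]
    rng := [(0, 1), (0, 4), (1, 0), (1, 2), (2, 1), (2, 3), (3, 2), (3, 5), (4, 0), (4, 8), (5, 3), (5,
      9), (6, 7), (6, 9), (7, 6), (7, 8), (8, 4), (8, 7), (9, 5), (9, 6)]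
    lev := [] }
  links := [[1, 6, 7, 8], [6, 0, 8, 9, 2, 3, 4, 10], [3, 1, 9, 11], [4, 1, 2, 11, 5, 12, 13], [10, 1, 3,
    13, 14], [12, 3, 11, 15]]
  P := {
    a := 6
    N := 16
    nb := [450, 1885, 2570, 14390, 25610, 38920, 1155, 321, 643, 2310, 16466, 33324, 41000, 20504,
      9232, 6176]
    tri := [(0, 1, 6), (0, 1, 8), (0, 6, 7), (0, 7, 8), (1, 2, 3), (1, 2, 9), (1, 3, 4), (1, 4, 10),
      (1, 6, 10), (1, 8, 9), (2, 3, 11), (2, 9, 11), (3, 4, 13), (3, 5, 11), (3, 5, 12), (3, 12,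
      13), (4, 10, 14), (4, 13, 14), (5, 11, 15), (5, 12, 15)]
    fin := [0, 1, 1, 3, 1, 3, 6, 0, 8, 1, 1, 3, 12, 3, 14, 15]
    chd := [(0, 1)]
    steps := [(0, 7), (1, 2), (1, 4), (1, 9), (1, 10), (3, 5), (3, 11), (3, 13)] }
  rep := [1, 6, 8, 3, 12, 0, 14, 15]

noncomputable def v612 : Cov.CovD where
  P := 3
  N := 5
  pl := [0, 2, 6, 8, 9]
  lev := [⟨[], [], [], [1, 2], [(1, 5, [0])]⟩,
    ⟨[], [(0, 0), (0, 5)], [(0, 0)], [1, 2], [(3, 0, [5]), (4, 0, [5])]⟩,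
    ⟨[(0, 1)], [(1, 0), (1, 3)], [(0, 3)], [], [(3, 0, [5]), (5, 3, [])]⟩,
    ⟨[(0, 1), (1, 2)], [(1, 0), (1, 3), (2, 0), (2, 3)], [(3, 3)], [4], [(5, 3, []), (7, 3,
      [])]⟩,
    ⟨[(0, 1), (1, 2), (1, 3), (2, 3)], [(1, 0), (1, 3), (3, 0), (3, 3)], [(0, 3)], [6],
      [(4, 0, [5]), (7, 3, [])]⟩,
    ⟨[(1, 3), (2, 3), (3, 4)], [(2, 3), (3, 3)], [], [4, 7], [(5, 3, [])]⟩]
  Ta := [((3, 2), 0, 2), ((3, 5), 0, 3), ((4, 0), 0, 1), ((4, 8), 0, 6), ((5, 3), 3, 0), ((5, 9),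
    3, 7), ((7, 6), 3, 4), ((7, 8), 3, 6)]
  Tb := [((0, 1, 4), 1, 5, 0), ((1, 0, 2), 5, 1, 2), ((2, 1, 3), 2, 5, 0), ((3, 2, 5), 0, 2, 3),
    ((4, 0, 8), 0, 1, 6), ((5, 3, 9), 3, 0, 7), ((6, 7, 9), 4, 3, 7), ((7, 6, 8), 3, 4, 6),
    ((8, 4, 7), 6, 0, 3), ((9, 5, 6), 7, 3, 4)]
  Tc := []
  Td := [((0, 5), (3, 2), 2), ((0, 5), (3, 5), 3), ((0, 5), (4, 0), 1), ((0, 5), (4, 8), 6), ((5,
    0), (1, 0), 1), ((5, 0), (1, 2), 2)]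
  G := [[0, 0, 0x2115a3c26158b818e4c2a192761b365a8c, 0x8c6a49867848e858b4c1,
    0xc2a46a29923c49945e81], [0, 0, 0x7161255eb8431251469182cc, 0x21a131e418681,
    0x2184151c1e681], [0, 0x721d81e2e8ab4521f416e2e8a1cc, 0, 0x4b61941e2e46781,
    0xb21d41e2e46781], [0, 0x9361a864538164a89c995e12ac4ca638c, 0, 0x999e12ac4ca6581,
    0x999e12ac4ca6381]]

noncomputable def n612 : Ent := ⟨e612, noF, [], [], [(7, 15, [360035742630636841211993100915356868655746945586763691010174977, 0])]⟩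

def c612 : PLift (Cov.check n612.C.D v612 = true) := ⟨by decide +kernel⟩

def b612 : PLift (entF (fidx ts) 400 612 n612 = true) := ⟨by decide +kernel⟩

theorem g612 : GoodF (fidx ts) 400 612 := GoodF.ofV v612 n612 c612.down b612.down

/-- 484754:540/1 -/
noncomputable def e613 : SCfg where
  D := {
    a := 6
    L := 9
    kp := 6
    inn := [(0, 1), (1, 0), (1, 2), (1, 3), (1, 4), (2, 1), (2, 3), (3, 1), (3, 2), (3, 4), (3, 5), (4,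
      1), (4, 3), (5, 3)]
    mix := [(0, 0), (0, 1), (0, 2), (1, 0), (1, 2), (1, 3), (1, 4), (2, 3), (2, 5), (3, 5), (3, 6), (3,
      7), (4, 4), (4, 7), (4, 8), (5, 1), (5, 6), (5, 7)]
    cl := [1, 4, 2, 0, 0, 3, 5, 3, 6]
    chq := [(0, 4), (4, 0)]
    rng := [(0, 1), (0, 4), (1, 0), (1, 2), (1, 6), (1, 7), (2, 1), (2, 3), (3, 2), (3, 5), (4, 0), (4,
      8), (5, 3), (5, 6), (6, 1), (6, 5), (7, 1), (7, 8), (8, 4), (8, 7)]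
    lev := [] }
  links := [[1, 6, 7, 8], [6, 0, 8, 9, 2, 3, 4, 10], [3, 1, 9, 11], [4, 1, 2, 11, 12, 5, 13], [10, 1, 3,
    13, 14], [13, 3, 12, 7]]
  P := {
    a := 6
    N := 15
    nb := [450, 1885, 2570, 14390, 25610, 12424, 1155, 12641, 643, 2310, 16466, 4620, 2216, 16568,
      9232]
    tri := [(0, 1, 6), (0, 1, 8), (0, 6, 7), (0, 7, 8), (1, 2, 3), (1, 2, 9), (1, 3, 4), (1, 4, 10),
      (1, 6, 10), (1, 8, 9), (2, 3, 11), (2, 9, 11), (3, 4, 13), (3, 5, 12), (3, 5, 13), (3, 11,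
      12), (4, 10, 14), (4, 13, 14), (5, 7, 12), (5, 7, 13)]
    fin := [0, 1, 1, 3, 1, 0, 6, 0, 8, 1, 1, 3, 12, 3, 14]
    chd := [(0, 1)]
    steps := [(0, 7), (0, 5), (1, 2), (1, 4), (1, 9), (1, 10), (3, 11), (3, 13)] }
  rep := [1, 6, 8, 3, 0, 12, 14]

noncomputable def v613 : Cov.CovD where
  P := 3
  N := 4
  pl := [0, 2, 6, 8]
  lev := [⟨[], [], [], [1, 2], [(1, 4, [0])]⟩,
    ⟨[], [(0, 0), (0, 4)], [(0, 0)], [1, 2], [(3, 0, [4]), (4, 0, [4])]⟩,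
    ⟨[(0, 1)], [(1, 0), (1, 3)], [(0, 3)], [], [(3, 0, [4]), (5, 3, [])]⟩,
    ⟨[(0, 1), (1, 2)], [(1, 0), (1, 3), (2, 0), (2, 3)], [(3, 3)], [5], [(5, 3, []), (7, 3,
      [])]⟩,
    ⟨[(0, 1), (1, 2), (1, 3), (2, 3)], [(1, 0), (1, 3), (3, 0), (3, 3)], [(0, 3)], [6],
      [(4, 0, [4]), (7, 3, [])]⟩,
    ⟨[(1, 3), (2, 3), (3, 4)], [(0, 4), (3, 3), (3, 4), (4, 3)], [(3, 4)], [5], [(1, 4,
      [0]), (7, 3, [])]⟩]
  Ta := [((3, 2), 0, 2), ((3, 5), 0, 3), ((4, 0), 0, 1), ((4, 8), 0, 6), ((5, 3), 3, 0), ((5, 6),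
    3, 5), ((7, 1), 3, 4), ((7, 8), 3, 6)]
  Tb := [((0, 1, 4), 1, 4, 0), ((1, 0, 2), 4, 1, 2), ((1, 0, 6), 4, 1, 5), ((1, 0, 7), 4, 1, 3),
    ((1, 2, 6), 4, 2, 5), ((1, 2, 7), 4, 2, 3), ((1, 6, 7), 4, 5, 3), ((2, 1, 3), 2, 4, 0),
    ((3, 2, 5), 0, 2, 3), ((4, 0, 8), 0, 1, 6), ((5, 3, 6), 3, 0, 5), ((6, 1, 5), 5, 4, 3),
    ((7, 1, 8), 3, 4, 6), ((8, 4, 7), 6, 0, 3)]
  Tc := []
  Td := [((0, 4), (3, 2), 2), ((0, 4), (3, 5), 3), ((0, 4), (4, 0), 1), ((0, 4), (4, 8), 6), ((4,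
    0), (1, 0), 1), ((4, 0), (1, 2), 2), ((4, 0), (1, 6), 5), ((4, 0), (1, 7), 3)]
  G := [[0, 0, 0x81116548116184188cc, 0x1652121e1221a58bc41, 0x211a3c1451c9a681], [0, 0,
    0x813111e241121a41468c, 0x212c1999e5681, 0xa12c1999e5681], [0, 0x1161428a41c11642b4e18c,
    0, 0x521581c225aa741, 0x921941c2a46781], [0, 0x82a828e684111e9a442624c111eb44a458c, 0,
    0xc6a4195be1c2622ca3c1, 0x426a68e9dbebc86e4581]]

noncomputable def n613 : Ent := ⟨e613, noF, [], [], []⟩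

def c613 : PLift (Cov.check n613.C.D v613 = true) := ⟨by decide +kernel⟩

def b613 : PLift (entF (fidx ts) 400 613 n613 = true) := ⟨by decide +kernel⟩

theorem g613 : GoodF (fidx ts) 400 613 := GoodF.ofV v613 n613 c613.down b613.down

/-- 484754:540 -/
noncomputable def e614 : SCfg where
  D := {
    a := 6
    L := 10
    kp := 7
    inn := [(0, 1), (1, 0), (1, 2), (1, 3), (1, 4), (2, 1), (2, 3), (3, 1), (3, 2), (3, 4), (3, 5), (4,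
      1), (4, 3), (5, 3)]
    mix := [(0, 0), (0, 1), (0, 2), (1, 0), (1, 2), (1, 3), (1, 4), (2, 3), (2, 5), (3, 5), (3, 6), (3,
      7), (4, 4), (4, 7), (4, 8), (5, 6), (5, 7), (5, 9)]
    cl := [1, 5, 2, 0, 0, 3, 4, 3, 6, 7]
    chq := [(0, 5), (5, 0)]
    rng := [(0, 1), (0, 4), (1, 0), (1, 2), (2, 1), (2, 3), (3, 2), (3, 5), (4, 0), (4, 8), (5, 3), (5,
      6), (6, 5), (6, 9), (7, 8), (7, 9), (8, 4), (8, 7), (9, 6), (9, 7)]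
    lev := [] }
  links := [[1, 6, 7, 8], [6, 0, 8, 9, 2, 3, 4, 10], [3, 1, 9, 11], [4, 1, 2, 11, 12, 5, 13], [10, 1, 3,
    13, 14], [13, 3, 12, 15]]
  P := {
    a := 6
    N := 16
    nb := [450, 1885, 2570, 14390, 25610, 45064, 1155, 321, 643, 2310, 16466, 4620, 34856, 49208,
      9232, 12320]
    tri := [(0, 1, 6), (0, 1, 8), (0, 6, 7), (0, 7, 8), (1, 2, 3), (1, 2, 9), (1, 3, 4), (1, 4, 10),
      (1, 6, 10), (1, 8, 9), (2, 3, 11), (2, 9, 11), (3, 4, 13), (3, 5, 12), (3, 5, 13), (3, 11,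
      12), (4, 10, 14), (4, 13, 14), (5, 12, 15), (5, 13, 15)]
    fin := [0, 1, 1, 3, 1, 3, 6, 0, 8, 1, 1, 3, 12, 3, 14, 15]
    chd := [(0, 1)]
    steps := [(0, 7), (1, 2), (1, 4), (1, 9), (1, 10), (3, 5), (3, 11), (3, 13)] }
  rep := [1, 6, 8, 3, 12, 0, 14, 15]

noncomputable def v614 : Cov.CovD where
  P := 3
  N := 5
  pl := [0, 2, 6, 8, 9]
  lev := [⟨[], [], [], [1, 2], [(1, 5, [0])]⟩,
    ⟨[], [(0, 0), (0, 5)], [(0, 0)], [1, 2], [(3, 0, [5]), (4, 0, [5])]⟩,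
    ⟨[(0, 1)], [(1, 0), (1, 3)], [(0, 3)], [], [(3, 0, [5]), (5, 3, [])]⟩,
    ⟨[(0, 1), (1, 2)], [(1, 0), (1, 3), (2, 0), (2, 3)], [(3, 3)], [4], [(5, 3, []), (7, 3,
      [])]⟩,
    ⟨[(0, 1), (1, 2), (1, 3), (2, 3)], [(1, 0), (1, 3), (3, 0), (3, 3)], [(0, 3)], [6],
      [(4, 0, [5]), (7, 3, [])]⟩,
    ⟨[(1, 3), (2, 3), (3, 4)], [(3, 3), (4, 3)], [], [4, 7], [(7, 3, [])]⟩]
  Ta := [((3, 2), 0, 2), ((3, 5), 0, 3), ((4, 0), 0, 1), ((4, 8), 0, 6), ((5, 3), 3, 0), ((5, 6),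
    3, 4), ((7, 8), 3, 6), ((7, 9), 3, 7)]
  Tb := [((0, 1, 4), 1, 5, 0), ((1, 0, 2), 5, 1, 2), ((2, 1, 3), 2, 5, 0), ((3, 2, 5), 0, 2, 3),
    ((4, 0, 8), 0, 1, 6), ((5, 3, 6), 3, 0, 4), ((6, 5, 9), 4, 3, 7), ((7, 8, 9), 3, 6, 7),
    ((8, 4, 7), 6, 0, 3), ((9, 6, 7), 7, 4, 3)]
  Tc := []
  Td := [((0, 5), (3, 2), 2), ((0, 5), (3, 5), 3), ((0, 5), (4, 0), 1), ((0, 5), (4, 8), 6), ((5,
    0), (1, 0), 1), ((5, 0), (1, 2), 2)]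
  G := [[0, 0, 0xa14c1266188c21b1cc194368c, 0x211a3c1451c9a681, 0x1a9925143945a681], [0, 0,
    0x31251469182c5142312918acc, 0x5142312918ac1, 0xa12c1999e5681], [0,
    0x55a15da64aa54521581c268ab4c, 0, 0x55a15ca65aa541, 0x921941c2a46781], [0,
    0x6cae82af57ed864e2344269dbe9c86ea68e638c, 0, 0x426a68e9dbebc86e4581,
    0x9dbe1426c86ea68ee381]]

noncomputable def n614 : Ent := ⟨e614, noF, [], [], [(7, 15, [360035742630636841211993100915356868655746945586763691010183169, 0])]⟩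

def c614 : PLift (Cov.check n614.C.D v614 = true) := ⟨by decide +kernel⟩

def b614 : PLift (entF (fidx ts) 400 614 n614 = true) := ⟨by decide +kernel⟩

theorem g614 : GoodF (fidx ts) 400 614 := GoodF.ofV v614 n614 c614.down b614.down

/-- 484756:541/1 -/
noncomputable def e615 : SCfg where
  D := {
    a := 6
    L := 10
    kp := 7
    inn := [(0, 1), (1, 0), (1, 2), (1, 3), (1, 4), (2, 1), (2, 3), (3, 1), (3, 2), (3, 4), (3, 5), (4,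
      1), (4, 3), (4, 5), (5, 3), (5, 4)]
    mix := [(0, 0), (0, 1), (0, 2), (1, 0), (1, 2), (1, 3), (1, 4), (2, 3), (2, 5), (3, 5), (3, 6), (3,
      7), (4, 4), (4, 8), (5, 1), (5, 7), (5, 8), (5, 9)]
    cl := [0, 2, 5, 0, 1, 4, 6, 3, 3, 7]
    chq := [(1, 4), (1, 6), (4, 1), (6, 1)]
    rng := [(0, 1), (0, 4), (1, 0), (1, 2), (1, 7), (1, 9), (2, 1), (2, 3), (3, 2), (3, 5), (4, 0), (4,
      8), (5, 3), (5, 6), (6, 5), (6, 7), (7, 1), (7, 6), (8, 4), (8, 9), (9, 1), (9, 8)]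
    lev := [] }
  links := [[1, 6, 7, 8], [6, 0, 8, 9, 2, 3, 4, 10], [3, 1, 9, 11], [4, 1, 2, 11, 12, 13, 5], [10, 1, 3,
    5, 14], [14, 4, 3, 13, 7, 15]]
  P := {
    a := 6
    N := 16
    nb := [450, 1885, 2570, 14390, 17450, 57496, 1155, 41313, 643, 2310, 16466, 4620, 10248, 4264,
      33840, 16544]
    tri := [(0, 1, 6), (0, 1, 8), (0, 6, 7), (0, 7, 8), (1, 2, 3), (1, 2, 9), (1, 3, 4), (1, 4, 10),
      (1, 6, 10), (1, 8, 9), (2, 3, 11), (2, 9, 11), (3, 4, 5), (3, 5, 13), (3, 11, 12), (3, 12,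
      13), (4, 5, 14), (4, 10, 14), (5, 7, 13), (5, 7, 15), (5, 14, 15)]
    fin := [0, 0, 0, 3, 3, 5, 0, 7, 8, 0, 3, 11, 12, 5, 5, 15]
    chd := [(3, 11), (3, 12)]
    steps := [(0, 1), (0, 2), (0, 6), (0, 9), (3, 4), (3, 10), (5, 13), (5, 14)] }
  rep := [0, 3, 7, 5, 11, 8, 12, 15]

noncomputable def v615 : Cov.CovD where
  P := 3
  N := 5
  pl := [1, 2, 9]
  lev := [⟨[], [], [], [2, 5], [(0, 0, [])]⟩,
    ⟨[], [(0, 0), (0, 1)], [(0, 0), (0, 1)], [5], [(0, 0, []), (3, 0, []), (4, 1, [4, 6])]⟩,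
    ⟨[(0, 1)], [(1, 0), (1, 1), (1, 4)], [(0, 4)], [], [(3, 0, []), (5, 4, [1])]⟩,
    ⟨[(0, 1), (1, 2)], [(1, 0), (1, 1), (1, 3), (1, 4), (1, 6), (2, 0), (2, 3), (2, 4), (2,
      6)], [(3, 4), (3, 6), (4, 6)], [], [(5, 4, [1]), (6, 6, [1]), (7, 3, [])]⟩,
    ⟨[(0, 1), (1, 2), (1, 3), (2, 3)], [(1, 0), (1, 1), (1, 3), (3, 1), (3, 3), (3, 4), (3,
      6)], [(1, 3)], [], [(4, 1, [4, 6]), (8, 3, [])]⟩,
    ⟨[(1, 3), (1, 4), (2, 3), (3, 4)], [(3, 3), (3, 4), (3, 6), (4, 1), (4, 3)], [(3, 3)],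
      [2, 7], [(7, 3, []), (8, 3, [])]⟩]
  Ta := [((0, 1), 0, 2), ((0, 4), 0, 1), ((3, 2), 0, 5), ((3, 5), 0, 4), ((7, 1), 3, 2), ((7, 6),
    3, 6), ((8, 4), 3, 1), ((8, 9), 3, 7)]
  Tb := [((0, 1, 4), 0, 2, 1), ((1, 0, 2), 2, 0, 5), ((1, 0, 7), 2, 0, 3), ((1, 0, 9), 2, 0, 7),
    ((1, 2, 7), 2, 5, 3), ((1, 2, 9), 2, 5, 7), ((1, 7, 9), 2, 3, 7), ((2, 1, 3), 5, 2, 0),
    ((3, 2, 5), 0, 5, 4), ((4, 0, 8), 1, 0, 3), ((5, 3, 6), 4, 0, 6), ((6, 5, 7), 6, 4, 3),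
    ((7, 1, 6), 3, 2, 6), ((8, 4, 9), 3, 1, 7), ((9, 1, 8), 7, 2, 3)]
  Tc := [(1, 4, 6)]
  Td := [((1, 4), (4, 0), 0), ((1, 4), (4, 8), 3), ((1, 6), (4, 0), 0), ((1, 6), (4, 8), 3), ((4,
    1), (5, 3), 0), ((4, 1), (5, 6), 6), ((6, 1), (6, 5), 4), ((6, 1), (6, 7), 3)]
  G := [[0, 0xd21d4168d21d21a4c, 0x21124e4632884a21128e1a321486c, 0xd4218d8214c,
    0x24124b4632488c21812812421b1e3ca], [0, 0xd21d2168d21d21a4c, 0x21121e163821219e1234c,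
    0xc95218c59214c, 0xa4121b163824249b4234a], [0, 0, 0, 0xd4248d1284d428d124cd,
    0xb12242156824b8a84b42248ab82212856cb], [0, 0, 0, 0xc95248c592c59d23a4c95288d,
    0xb4b4528b4288b4224b1b4da4b]]

noncomputable def n615 : Ent := ⟨e615, noF, [], [], []⟩

def c615 : PLift (Cov.check n615.C.D v615 = true) := ⟨by decide +kernel⟩

def b615 : PLift (entF (fidx ts) 400 615 n615 = true) := ⟨by decide +kernel⟩

theorem g615 : GoodF (fidx ts) 400 615 := GoodF.ofV v615 n615 c615.down b615.down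

/-- 484756:541/2 -/
noncomputable def e616 : SCfg where
  D := {
    a := 6
    L := 10
    kp := 7
    inn := [(0, 1), (1, 0), (1, 2), (1, 3), (1, 4), (2, 1), (2, 3), (3, 1), (3, 2), (3, 4), (3, 5), (4,
      1), (4, 3), (4, 5), (5, 3), (5, 4)]
    mix := [(0, 0), (0, 1), (0, 2), (1, 0), (1, 2), (1, 3), (1, 4), (2, 3), (2, 5), (3, 5), (3, 6), (3,
      7), (4, 4), (4, 8), (5, 1), (5, 7), (5, 8), (5, 9)]
    cl := [0, 2, 5, 0, 1, 4, 6, 3, 3, 7]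
    chq := [(1, 4), (1, 6), (4, 1), (6, 1)]
    rng := [(0, 1), (0, 4), (1, 0), (1, 2), (1, 8), (1, 9), (2, 1), (2, 3), (3, 2), (3, 5), (4, 0), (4,
      8), (5, 3), (5, 6), (6, 5), (6, 7), (7, 6), (7, 9), (8, 1), (8, 4), (9, 1), (9, 7)]
    lev := [] }
  links := [[1, 6, 7, 8], [6, 0, 8, 9, 2, 3, 4, 10], [3, 1, 9, 11], [4, 1, 2, 11, 12, 13, 5], [10, 1, 3,
    5, 14], [14, 4, 3, 13, 15, 7]]
  P := {
    a := 6
    N := 16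
    nb := [450, 1885, 2570, 14390, 17450, 57496, 1155, 49505, 643, 2310, 16466, 4620, 10248, 36904,
      1200, 8352]
    tri := [(0, 1, 6), (0, 1, 8), (0, 6, 7), (0, 7, 8), (1, 2, 3), (1, 2, 9), (1, 3, 4), (1, 4, 10),
      (1, 6, 10), (1, 8, 9), (2, 3, 11), (2, 9, 11), (3, 4, 5), (3, 5, 13), (3, 11, 12), (3, 12,
      13), (4, 5, 14), (4, 10, 14), (5, 7, 14), (5, 7, 15), (5, 13, 15)]
    fin := [0, 0, 0, 3, 3, 5, 0, 7, 8, 0, 3, 11, 12, 5, 5, 15]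
    chd := [(3, 11), (3, 12)]
    steps := [(0, 1), (0, 2), (0, 6), (0, 9), (3, 4), (3, 10), (5, 13), (5, 14)] }
  rep := [0, 3, 7, 5, 11, 8, 12, 15]

noncomputable def v616 : Cov.CovD where
  P := 3
  N := 5
  pl := [1, 2, 9]
  lev := [⟨[], [], [], [2, 5], [(0, 0, [])]⟩,
    ⟨[], [(0, 0), (0, 1)], [(0, 0), (0, 1)], [5], [(0, 0, []), (3, 0, []), (4, 1, [4, 6])]⟩,
    ⟨[(0, 1)], [(1, 0), (1, 1), (1, 4)], [(0, 4)], [], [(3, 0, []), (5, 4, [1])]⟩,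
    ⟨[(0, 1), (1, 2)], [(1, 0), (1, 1), (1, 3), (1, 4), (1, 6), (2, 0), (2, 3), (2, 4), (2,
      6)], [(3, 4), (3, 6), (4, 6)], [], [(5, 4, [1]), (6, 6, [1]), (7, 3, [])]⟩,
    ⟨[(0, 1), (1, 2), (1, 3), (2, 3)], [(1, 0), (1, 1), (1, 3), (3, 1), (3, 3), (3, 4), (3,
      6)], [(1, 3)], [], [(4, 1, [4, 6]), (8, 3, [])]⟩,
    ⟨[(1, 3), (1, 4), (2, 3), (3, 4)], [(3, 3), (3, 4), (3, 6), (4, 1), (4, 3)], [(3, 3)],
      [2, 7], [(7, 3, []), (8, 3, [])]⟩]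
  Ta := [((0, 1), 0, 2), ((0, 4), 0, 1), ((3, 2), 0, 5), ((3, 5), 0, 4), ((7, 6), 3, 6), ((7, 9),
    3, 7), ((8, 1), 3, 2), ((8, 4), 3, 1)]
  Tb := [((0, 1, 4), 0, 2, 1), ((1, 0, 2), 2, 0, 5), ((1, 0, 8), 2, 0, 3), ((1, 0, 9), 2, 0, 7),
    ((1, 2, 8), 2, 5, 3), ((1, 2, 9), 2, 5, 7), ((1, 8, 9), 2, 3, 7), ((2, 1, 3), 5, 2, 0),
    ((3, 2, 5), 0, 5, 4), ((4, 0, 8), 1, 0, 3), ((5, 3, 6), 4, 0, 6), ((6, 5, 7), 6, 4, 3),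
    ((7, 6, 9), 3, 6, 7), ((8, 1, 4), 3, 2, 1), ((9, 1, 7), 7, 2, 3)]
  Tc := [(1, 4, 6)]
  Td := [((1, 4), (4, 0), 0), ((1, 4), (4, 8), 3), ((1, 6), (4, 0), 0), ((1, 6), (4, 8), 3), ((4,
    1), (5, 3), 0), ((4, 1), (5, 6), 6), ((6, 1), (6, 5), 4), ((6, 1), (6, 7), 3)]
  G := [[0, 0xd21d2168d81d81a4c, 0x24124e1632181a21289e82321416c, 0xd1218d8214c,
    0x21245b12324812481e2821524b1a34a], [0, 0x596159616895a195a1a4c, 0x21215e123821121e1a34c,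
    0xc95218c59214c, 0xa4121b163821249839234a], [0, 0, 0, 0xd4248d8284d428d124cd,
    0xb122421568b12248a8b12b82242821de4b], [0, 0, 0, 0xc952d1c96368c592d1c5a3a4c,
    0x91224a4568a952888192a39224249e4b]]

noncomputable def n616 : Ent := ⟨e616, noF, [], [], []⟩

def c616 : PLift (Cov.check n616.C.D v616 = true) := ⟨by decide +kernel⟩

def b616 : PLift (entF (fidx ts) 400 616 n616 = true) := ⟨by decide +kernel⟩

theorem g616 : GoodF (fidx ts) 400 616 := GoodF.ofV v616 n616 c616.down b616.down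

/-- 484756:541 -/
noncomputable def e617 : SCfg where
  D := {
    a := 6
    L := 11
    kp := 8
    inn := [(0, 1), (1, 0), (1, 2), (1, 3), (1, 4), (2, 1), (2, 3), (3, 1), (3, 2), (3, 4), (3, 5), (4,
      1), (4, 3), (4, 5), (5, 3), (5, 4)]
    mix := [(0, 0), (0, 1), (0, 2), (1, 0), (1, 2), (1, 3), (1, 4), (2, 3), (2, 5), (3, 5), (3, 6), (3,
      7), (4, 4), (4, 8), (5, 7), (5, 8), (5, 9), (5, 10)]
    cl := [0, 6, 2, 0, 1, 4, 5, 3, 3, 7, 8]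
    chq := [(1, 4), (1, 5), (4, 1), (5, 1)]
    rng := [(0, 1), (0, 4), (1, 0), (1, 2), (2, 1), (2, 3), (3, 2), (3, 5), (4, 0), (4, 8), (5, 3), (5,
      6), (6, 5), (6, 7), (7, 6), (7, 9), (8, 4), (8, 10), (9, 7), (9, 10), (10, 8), (10, 9)]
    lev := [] }
  links := [[1, 6, 7, 8], [6, 0, 8, 9, 2, 3, 4, 10], [3, 1, 9, 11], [4, 1, 2, 11, 12, 13, 5], [10, 1, 3,
    5, 14], [14, 4, 3, 13, 15, 16]]
  P := {
    a := 6
    N := 17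
    nb := [450, 1885, 2570, 14390, 17450, 122904, 1155, 321, 643, 2310, 16466, 4620, 10248, 36904,
      66608, 73760, 49184]
    tri := [(0, 1, 6), (0, 1, 8), (0, 6, 7), (0, 7, 8), (1, 2, 3), (1, 2, 9), (1, 3, 4), (1, 4, 10),
      (1, 6, 10), (1, 8, 9), (2, 3, 11), (2, 9, 11), (3, 4, 5), (3, 5, 13), (3, 11, 12), (3, 12,
      13), (4, 5, 14), (4, 10, 14), (5, 13, 15), (5, 14, 16), (5, 15, 16)]
    fin := [0, 0, 0, 3, 3, 5, 0, 7, 8, 0, 3, 11, 12, 5, 5, 15, 16]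
    chd := [(3, 11), (3, 12)]
    steps := [(0, 1), (0, 2), (0, 6), (0, 9), (3, 4), (3, 10), (5, 13), (5, 14)] }
  rep := [0, 3, 8, 5, 11, 12, 7, 15, 16]

noncomputable def v617 : Cov.CovD where
  P := 3
  N := 6
  pl := [1, 2, 9, 10]
  lev := [⟨[], [], [], [2, 6], [(0, 0, [])]⟩,
    ⟨[], [(0, 0), (0, 1)], [(0, 0), (0, 1)], [2], [(0, 0, []), (3, 0, []), (4, 1, [4, 5])]⟩,
    ⟨[(0, 1)], [(1, 0), (1, 1), (1, 4)], [(0, 4)], [], [(3, 0, []), (5, 4, [1])]⟩,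
    ⟨[(0, 1), (1, 2)], [(1, 0), (1, 1), (1, 3), (1, 4), (1, 5), (2, 0), (2, 3), (2, 4), (2,
      5)], [(3, 4), (3, 5), (4, 5)], [], [(5, 4, [1]), (6, 5, [1]), (7, 3, [])]⟩,
    ⟨[(0, 1), (1, 2), (1, 3), (2, 3)], [(1, 0), (1, 1), (1, 3), (3, 1), (3, 3), (3, 4), (3,
      5)], [(1, 3)], [], [(4, 1, [4, 5]), (8, 3, [])]⟩,
    ⟨[(1, 3), (1, 4), (2, 3), (3, 4)], [(3, 3), (3, 4), (3, 5), (4, 1), (4, 3)], [(3, 3)],
      [7, 8], [(7, 3, []), (8, 3, [])]⟩]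
  Ta := [((0, 1), 0, 6), ((0, 4), 0, 1), ((3, 2), 0, 2), ((3, 5), 0, 4), ((7, 6), 3, 5), ((7, 9),
    3, 7), ((8, 4), 3, 1), ((8, 10), 3, 8)]
  Tb := [((0, 1, 4), 0, 6, 1), ((1, 0, 2), 6, 0, 2), ((2, 1, 3), 2, 6, 0), ((3, 2, 5), 0, 2, 4),
    ((4, 0, 8), 1, 0, 3), ((5, 3, 6), 4, 0, 5), ((6, 5, 7), 5, 4, 3), ((7, 6, 9), 3, 5, 7),
    ((8, 4, 10), 3, 1, 8), ((9, 7, 10), 7, 3, 8), ((10, 8, 9), 8, 3, 7)]
  Tc := [(1, 4, 5)]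
  Td := [((1, 4), (4, 0), 0), ((1, 4), (4, 8), 3), ((1, 5), (4, 0), 0), ((1, 5), (4, 8), 3), ((4,
    1), (5, 3), 0), ((4, 1), (5, 6), 5), ((5, 1), (6, 5), 4), ((5, 1), (6, 7), 3)]
  G := [[0, 0xf41f2168f81f21a4c, 0, 0xf12121828215ac2412424f4e38c,
    0x21121f4632881a2424521f4a38a], [0, 0xdb61db6168db612d7a18cc, 0,
    0xe29121f1a342122c52c7921cc, 0x21e255f1238212295cb5238a], [0, 0,
    0xf424f82282821dacf4221f1624219e8c, 0xf1221f1624219e81, 0xf1221f1621219e81], [0, 0,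
    0xf12f1f2c964f12f12fc5a8c, 0xf12e9522252ec5e81, 0xeb522f92fc5a81]]

noncomputable def n617 : Ent := ⟨e617, noF, [], [], [(7, 15, [1685356702439545624007900436039642273970977273354372543760002609153, 0]), (7, 16, [1580044410770988437309982408355971841652082177953823432505691635713, 0])]⟩

def c617 : PLift (Cov.check n617.C.D v617 = true) := ⟨by decide +kernel⟩

def b617 : PLift (entF (fidx ts) 400 617 n617 = true) := ⟨by decide +kernel⟩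

theorem g617 : GoodF (fidx ts) 400 617 := GoodF.ofV v617 n617 c617.down b617.down

/-- 484764:543 -/
noncomputable def e618 : SCfg where
  D := {
    a := 6
    L := 10
    kp := 8
    inn := [(0, 1), (1, 0), (1, 2), (1, 3), (1, 4), (2, 1), (2, 3), (3, 1), (3, 2), (3, 4), (3, 5), (4,
      1), (4, 3), (4, 5), (5, 3), (5, 4)]
    mix := [(0, 0), (0, 1), (0, 2), (1, 0), (1, 2), (1, 3), (1, 4), (2, 3), (2, 5), (3, 5), (3, 6), (3,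
      7), (4, 4), (4, 8), (4, 9), (5, 7), (5, 8)]
    cl := [1, 6, 2, 0, 0, 4, 7, 3, 5, 8]
    chq := [(0, 3), (0, 6), (0, 7), (3, 0), (3, 8), (6, 0), (7, 0), (8, 3)]
    rng := [(0, 1), (0, 4), (1, 0), (1, 2), (2, 1), (2, 3), (3, 2), (3, 5), (4, 0), (4, 9), (5, 3), (5,
      6), (6, 5), (6, 7), (7, 6), (7, 8), (8, 7), (8, 9), (9, 4), (9, 8)]
    lev := [] }
  links := [[1, 6, 7, 8], [6, 0, 8, 9, 2, 3, 4, 10], [3, 1, 9, 11], [4, 1, 2, 11, 12, 13, 5], [10, 1, 3,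
    5, 14, 15], [14, 4, 3, 13]]
  P := {
    a := 6
    N := 16
    nb := [450, 1885, 2570, 14390, 50218, 24600, 1155, 321, 643, 2310, 32850, 4620, 10248, 20520,
      41008, 17424]
    tri := [(0, 1, 6), (0, 1, 8), (0, 6, 7), (0, 7, 8), (1, 2, 3), (1, 2, 9), (1, 3, 4), (1, 4, 10),
      (1, 6, 10), (1, 8, 9), (2, 3, 11), (2, 9, 11), (3, 4, 5), (3, 5, 13), (3, 11, 12), (3, 12,
      13), (4, 5, 14), (4, 10, 15), (4, 14, 15), (5, 13, 14)]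
    fin := [0, 1, 1, 1, 4, 4, 6, 0, 8, 1, 1, 11, 12, 4, 14, 15]
    chd := [(0, 1), (1, 4), (1, 12), (4, 15)]
    steps := [(0, 7), (1, 2), (1, 3), (1, 9), (1, 10), (4, 5), (4, 13)] }
  rep := [1, 6, 8, 4, 11, 14, 0, 12, 15]

noncomputable def v618 : Cov.CovD where
  P := 3
  N := 6
  pl := [0, 2, 5, 8]
  lev := [⟨[], [], [], [1, 2], [(1, 6, [0])]⟩,
    ⟨[], [(0, 0), (0, 6)], [(0, 0)], [1, 2], [(3, 0, [3, 6, 7]), (4, 0, [3, 6, 7])]⟩,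
    ⟨[(0, 1)], [(1, 0)], [], [4], [(3, 0, [3, 6, 7])]⟩,
    ⟨[(0, 1), (1, 2)], [(1, 0), (1, 3), (1, 7), (2, 0), (2, 3), (2, 7)], [(3, 7)], [4],
      [(6, 7, [0]), (7, 3, [0, 8])]⟩,
    ⟨[(0, 1), (1, 2), (1, 3), (2, 3)], [(1, 0), (1, 8), (3, 0), (3, 3), (3, 7), (3, 8)],
      [(0, 8)], [5], [(4, 0, [3, 6, 7]), (9, 8, [3])]⟩,
    ⟨[(1, 3), (1, 4), (2, 3), (3, 4)], [(3, 3), (3, 7), (4, 0), (4, 3), (4, 8)], [], [5],
      [(7, 3, [0, 8])]⟩]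
  Ta := [((3, 2), 0, 2), ((3, 5), 0, 4), ((4, 0), 0, 1), ((4, 9), 0, 8)]
  Tb := [((0, 1, 4), 1, 6, 0), ((1, 0, 2), 6, 1, 2), ((2, 1, 3), 2, 6, 0), ((3, 2, 5), 0, 2, 4),
    ((4, 0, 9), 0, 1, 8), ((5, 3, 6), 4, 0, 7), ((6, 5, 7), 7, 4, 3), ((7, 6, 8), 3, 7, 5),
    ((8, 7, 9), 5, 3, 8), ((9, 4, 8), 8, 0, 5)]
  Tc := [(0, 3, 6), (0, 3, 7), (0, 6, 7), (3, 0, 8)]
  Td := [((0, 3), (3, 2), 2), ((0, 3), (3, 5), 4), ((0, 3), (4, 0), 1), ((0, 3), (4, 9), 8), ((0,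
    6), (3, 2), 2), ((0, 6), (3, 5), 4), ((0, 6), (4, 0), 1), ((0, 6), (4, 9), 8), ((0, 7),
    (3, 2), 2), ((0, 7), (3, 5), 4), ((0, 7), (4, 0), 1), ((0, 7), (4, 9), 8), ((3, 0), (7,
    6), 7), ((3, 0), (7, 8), 5), ((3, 8), (7, 6), 7), ((3, 8), (7, 8), 5), ((6, 0), (1, 0),
    1), ((6, 0), (1, 2), 2), ((7, 0), (6, 5), 4), ((7, 0), (6, 7), 3), ((8, 3), (9, 4), 0),
    ((8, 3), (9, 8), 5)]
  G := [[0, 0, 0x619e139a1141e414131ce1a3ca18cc, 0x35639ab612ed8159cd9aceba41,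
    0x24cb6363ce13567486b5c918fe81], [0, 0x135e11ace1a419615a1e1381e8c, 0, 0xa416ca16ace1e41,
    0x6ace16ace1681]]

noncomputable def n618 : Ent := ⟨e618, noF, [], [], []⟩

def c618 : PLift (Cov.check n618.C.D v618 = true) := ⟨by decide +kernel⟩

def b618 : PLift (entF (fidx ts) 400 618 n618 = true) := ⟨by decide +kernel⟩

theorem g618 : GoodF (fidx ts) 400 618 := GoodF.ofV v618 n618 c618.down b618.down

/-- 457844:544 -/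
noncomputable def e619 : SCfg where
  D := {
    a := 6
    L := 10
    kp := 8
    inn := [(0, 1), (0, 2), (1, 0), (1, 2), (1, 3), (2, 0), (2, 1), (2, 3), (3, 1), (3, 2), (3, 4), (3,
      5), (4, 3), (5, 3)]
    mix := [(0, 0), (0, 1), (1, 1), (1, 2), (2, 0), (2, 3), (2, 4), (2, 5), (3, 2), (3, 3), (3, 6), (3,
      7), (4, 6), (4, 7), (4, 8), (5, 3), (5, 7), (5, 9)]
    cl := [1, 2, 0, 3, 5, 6, 3, 4, 7, 8]
    chq := [(0, 1), (0, 5), (0, 6), (1, 0), (3, 4), (4, 3), (5, 0), (6, 0)]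
    rng := [(0, 1), (0, 5), (1, 0), (1, 2), (2, 1), (2, 6), (3, 4), (3, 9), (4, 3), (4, 5), (5, 0), (5,
      4), (6, 2), (6, 8), (7, 8), (7, 9), (8, 6), (8, 7), (9, 3), (9, 7)]
    lev := [] }
  links := [[1, 2, 6, 7], [2, 0, 7, 8, 3], [6, 0, 1, 3, 9, 10, 11], [9, 2, 1, 8, 12, 4, 13, 5], [13, 3,
    12, 14], [9, 3, 13, 15]]
  P := {
    a := 6
    N := 16
    nb := [198, 397, 3659, 13110, 28680, 41480, 2181, 323, 4234, 33836, 2564, 1092, 16664, 49208,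
      12304, 8736]
    tri := [(0, 1, 2), (0, 1, 7), (0, 2, 6), (0, 6, 7), (1, 2, 3), (1, 3, 8), (1, 7, 8), (2, 3, 9), (2,
      6, 11), (2, 9, 10), (2, 10, 11), (3, 4, 12), (3, 4, 13), (3, 5, 9), (3, 5, 13), (3, 8, 12),
      (4, 12, 14), (4, 13, 14), (5, 9, 15), (5, 13, 15)]
    fin := [0, 1, 1, 3, 3, 3, 0, 7, 1, 3, 10, 11, 3, 13, 14, 15]
    chd := [(0, 1), (1, 10), (1, 11), (3, 13)]
    steps := [(0, 6), (1, 2), (1, 8), (3, 4), (3, 5), (3, 12), (3, 9)] }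
  rep := [1, 0, 7, 3, 13, 10, 11, 14, 15]

noncomputable def v619 : Cov.CovD where
  P := 3
  N := 6
  pl := [1, 8, 9]
  lev := [⟨[], [], [], [2], [(0, 1, [0])]⟩,
    ⟨[], [(0, 0), (0, 1)], [], [2], [(2, 0, [1, 5, 6])]⟩,
    ⟨[(0, 1)], [(0, 1), (0, 3), (0, 5), (0, 6), (1, 0), (1, 1), (1, 3), (1, 5), (1, 6)],
      [(1, 3), (1, 5), (1, 6), (3, 5), (3, 6), (5, 6)], [], [(0, 1, [0]), (3, 3, [4]), (4, 5,
      [0]), (5, 6, [0])]⟩,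
    ⟨[(0, 1), (0, 2), (1, 2)], [(1, 0), (1, 3), (1, 4), (2, 0), (2, 1), (2, 3), (2, 4), (2,
      5), (2, 6)], [(0, 3), (0, 4), (3, 3), (3, 4)], [], [(2, 0, [1, 5, 6]), (3, 3, [4]), (6,
      3, [4]), (7, 4, [3])]⟩,
    ⟨[(1, 3), (2, 3)], [(3, 0), (3, 3), (3, 4)], [(3, 4)], [7], [(6, 3, [4]), (7, 4, [3])]⟩,
    ⟨[(1, 3), (2, 3), (3, 4)], [(2, 3), (3, 0), (3, 3), (3, 4), (4, 4)], [(3, 4)], [8],
      [(3, 3, [4]), (7, 4, [3])]⟩]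
  Ta := [((3, 4), 3, 5), ((3, 9), 3, 8), ((6, 2), 3, 0), ((6, 8), 3, 7)]
  Tb := [((0, 1, 5), 1, 2, 6), ((1, 0, 2), 2, 1, 0), ((2, 1, 6), 0, 2, 3), ((3, 4, 9), 3, 5, 8),
    ((4, 3, 5), 5, 3, 6), ((5, 0, 4), 6, 1, 5), ((6, 2, 8), 3, 0, 7), ((7, 8, 9), 4, 7, 8),
    ((8, 6, 7), 7, 3, 4), ((9, 3, 7), 8, 3, 4)]
  Tc := [(0, 1, 5), (0, 1, 6), (0, 5, 6)]
  Td := [((0, 1), (2, 1), 2), ((0, 1), (2, 6), 3), ((0, 5), (2, 1), 2), ((0, 5), (2, 6), 3), ((0,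
    6), (2, 1), 2), ((0, 6), (2, 6), 3), ((1, 0), (0, 1), 2), ((1, 0), (0, 5), 6), ((3, 4),
    (3, 4), 5), ((3, 4), (3, 9), 8), ((3, 4), (6, 2), 0), ((3, 4), (6, 8), 7), ((4, 3), (7,
    8), 7), ((4, 3), (7, 9), 8), ((5, 0), (4, 3), 3), ((5, 0), (4, 5), 6), ((6, 0), (5, 0),
    1), ((6, 0), (5, 4), 5)]
  G := [[0, 0x4141f4199633ca1c4, 0x55a4199633ca1c4, 0x4141f33c6199681c8, 0x55a33c6199681a8], [0,
    0xa5541699c33a1c4, 0xc3321699a55c1a4, 0x8a25f84c3f616429f81c8, 0x8a25f84c3f616429f81a8]]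

noncomputable def n619 : Ent := ⟨e619, noF, [], [], []⟩

def c619 : PLift (Cov.check n619.C.D v619 = true) := ⟨by decide +kernel⟩

def b619 : PLift (entF (fidx ts) 400 619 n619 = true) := ⟨by decide +kernel⟩

theorem g619 : GoodF (fidx ts) 400 619 := GoodF.ofV v619 n619 c619.down b619.down

/-- 457664:545/1 -/
noncomputable def e620 : SCfg where
  D := {
    a := 6
    L := 9
    kp := 6
    inn := [(0, 1), (0, 2), (1, 0), (1, 2), (1, 3), (2, 0), (2, 1), (2, 3), (3, 1), (3, 2), (3, 4), (4,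
      3), (4, 5), (5, 4)]
    mix := [(0, 0), (0, 1), (1, 1), (1, 2), (2, 0), (2, 3), (2, 4), (2, 5), (3, 2), (3, 3), (3, 6), (4,
      2), (4, 6), (4, 7), (4, 8), (5, 1), (5, 2), (5, 7)]
    cl := [1, 2, 0, 1, 4, 5, 0, 3, 6]
    chq := [(0, 3), (3, 0)]
    rng := [(0, 1), (0, 5), (1, 0), (1, 2), (1, 7), (2, 1), (3, 4), (3, 6), (4, 3), (4, 5), (5, 0), (5,
      4), (6, 3), (6, 8), (7, 1), (7, 8), (8, 6), (8, 7)]
    lev := [] }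
  links := [[1, 2, 6, 7], [2, 0, 7, 8, 3], [6, 0, 1, 3, 9, 10, 11], [9, 2, 1, 8, 4, 12], [12, 3, 8, 5,
    13, 14], [13, 4, 8, 7]]
  P := {
    a := 6
    N := 15
    nb := [198, 397, 3659, 4886, 28968, 8592, 2181, 8547, 186, 5132, 2564, 1092, 16920, 16560, 12304]
    tri := [(0, 1, 2), (0, 1, 7), (0, 2, 6), (0, 6, 7), (1, 2, 3), (1, 3, 8), (1, 7, 8), (2, 3, 9), (2,
      6, 11), (2, 9, 10), (2, 10, 11), (3, 4, 8), (3, 4, 12), (3, 9, 12), (4, 5, 8), (4, 5, 13),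
      (4, 12, 14), (4, 13, 14), (5, 7, 8), (5, 7, 13)]
    fin := [0, 0, 0, 0, 4, 5, 0, 5, 4, 0, 10, 11, 4, 13, 14]
    chd := [(4, 13)]
    steps := [(0, 1), (0, 2), (0, 3), (0, 6), (0, 9), (4, 8), (4, 12), (5, 7)] }
  rep := [4, 0, 5, 13, 10, 11, 14]

noncomputable def v620 : Cov.CovD where
  P := 3
  N := 4
  pl := [1, 4, 5, 8]
  lev := [⟨[], [], [], [2], [(0, 1, [])]⟩,
    ⟨[], [(0, 0), (0, 1)], [], [2], [(2, 0, [3])]⟩,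
    ⟨[(0, 1)], [(0, 1), (1, 0), (1, 1)], [(1, 1)], [4, 5], [(0, 1, []), (3, 1, [])]⟩,
    ⟨[(0, 1), (0, 2), (1, 2)], [(1, 0), (1, 1), (2, 0), (2, 1)], [(0, 0), (0, 1)], [], [(2,
      0, [3]), (3, 1, []), (6, 0, [3])]⟩,
    ⟨[(1, 3), (2, 3)], [(1, 0), (3, 0), (3, 1), (3, 3)], [(0, 0), (0, 3)], [6], [(2, 0,
      [3]), (6, 0, [3]), (7, 3, [0])]⟩,
    ⟨[(3, 4)], [(1, 0), (3, 0), (4, 0), (4, 3)], [(0, 3)], [2], [(2, 0, [3]), (7, 3, [0])]⟩]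
  Ta := [((0, 1), 1, 2), ((0, 5), 1, 5), ((2, 1), 0, 2), ((3, 4), 1, 4), ((3, 6), 1, 0), ((6, 3),
    0, 1), ((6, 8), 0, 6)]
  Tb := [((0, 1, 5), 1, 2, 5), ((1, 0, 2), 2, 1, 0), ((1, 0, 7), 2, 1, 3), ((1, 2, 7), 2, 0, 3),
    ((3, 4, 6), 1, 4, 0), ((4, 3, 5), 4, 1, 5), ((5, 0, 4), 5, 1, 4), ((6, 3, 8), 0, 1, 6),
    ((7, 1, 8), 3, 2, 6), ((8, 6, 7), 6, 0, 3)]
  Tc := []
  Td := [((0, 3), (2, 1), 2), ((0, 3), (6, 3), 1), ((0, 3), (6, 8), 6), ((3, 0), (7, 1), 2), ((3,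
    0), (7, 8), 6)]
  G := [[0, 0, 0x82a4462284ca2284cad84, 0xc284c6c284ca8ca446d84, 0x8a2e482aa468a2e4d81], [0, 0,
    0x884488a2e442688a2e4d8c, 0, 0x8a2e4a2688c8a2e4d82], [0, 0, 0, 0x4481ac145e8145e8d41,
    0x812e4312e8812e4d28], [0, 0x141e2841e2811e4e84, 0, 0, 0x812e412688c812e4d82]]

noncomputable def n620 : Ent := ⟨e620, noF, [], [], []⟩

def c620 : PLift (Cov.check n620.C.D v620 = true) := ⟨by decide +kernel⟩

def b620 : PLift (entF (fidx ts) 400 620 n620 = true) := ⟨by decide +kernel⟩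

theorem g620 : GoodF (fidx ts) 400 620 := GoodF.ofV v620 n620 c620.down b620.down

/-- 457664:545 -/
noncomputable def e621 : SCfg where
  D := {
    a := 6
    L := 10
    kp := 7
    inn := [(0, 1), (0, 2), (1, 0), (1, 2), (1, 3), (2, 0), (2, 1), (2, 3), (3, 1), (3, 2), (3, 4), (4,
      3), (4, 5), (5, 4)]
    mix := [(0, 0), (0, 1), (1, 1), (1, 2), (2, 0), (2, 3), (2, 4), (2, 5), (3, 2), (3, 3), (3, 6), (4,
      2), (4, 6), (4, 7), (4, 8), (5, 2), (5, 7), (5, 9)]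
    cl := [1, 2, 0, 1, 4, 5, 0, 3, 6, 7]
    chq := [(0, 3), (3, 0)]
    rng := [(0, 1), (0, 5), (1, 0), (1, 2), (2, 1), (2, 9), (3, 4), (3, 6), (4, 3), (4, 5), (5, 0), (5,
      4), (6, 3), (6, 8), (7, 8), (7, 9), (8, 6), (8, 7), (9, 2), (9, 7)]
    lev := [] }
  links := [[1, 2, 6, 7], [2, 0, 7, 8, 3], [6, 0, 1, 3, 9, 10, 11], [9, 2, 1, 8, 4, 12], [12, 3, 8, 5,
    13, 14], [13, 4, 8, 15]]
  P := {
    a := 6
    N := 16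
    nb := [198, 397, 3659, 4886, 28968, 41232, 2181, 323, 32954, 5132, 2564, 1092, 16920, 49200,
      12304, 8480]
    tri := [(0, 1, 2), (0, 1, 7), (0, 2, 6), (0, 6, 7), (1, 2, 3), (1, 3, 8), (1, 7, 8), (2, 3, 9), (2,
      6, 11), (2, 9, 10), (2, 10, 11), (3, 4, 8), (3, 4, 12), (3, 9, 12), (4, 5, 8), (4, 5, 13),
      (4, 12, 14), (4, 13, 14), (5, 8, 15), (5, 13, 15)]
    fin := [0, 0, 0, 0, 4, 4, 0, 7, 4, 0, 10, 11, 4, 13, 14, 15]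
    chd := [(4, 13)]
    steps := [(0, 1), (0, 2), (0, 3), (0, 6), (0, 9), (4, 5), (4, 8), (4, 12)] }
  rep := [4, 0, 7, 13, 10, 11, 14, 15]

noncomputable def v621 : Cov.CovD where
  P := 3
  N := 5
  pl := [1, 4, 5, 8, 9]
  lev := [⟨[], [], [], [2], [(0, 1, [])]⟩,
    ⟨[], [(0, 0), (0, 1)], [], [2], [(2, 0, [3])]⟩,
    ⟨[(0, 1)], [(0, 1), (1, 0), (1, 1)], [(1, 1)], [4, 5], [(0, 1, []), (3, 1, [])]⟩,
    ⟨[(0, 1), (0, 2), (1, 2)], [(1, 0), (1, 1), (2, 0), (2, 1)], [(0, 0), (0, 1)], [], [(2,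
      0, [3]), (3, 1, []), (6, 0, [3])]⟩,
    ⟨[(1, 3), (2, 3)], [(1, 0), (3, 0), (3, 1), (3, 3)], [(0, 0), (0, 3)], [6], [(2, 0,
      [3]), (6, 0, [3]), (7, 3, [0])]⟩,
    ⟨[(3, 4)], [(1, 0), (3, 0), (4, 0), (4, 3)], [(0, 3)], [7], [(2, 0, [3]), (7, 3, [0])]⟩]
  Ta := [((0, 1), 1, 2), ((0, 5), 1, 5), ((2, 1), 0, 2), ((2, 9), 0, 7), ((3, 4), 1, 4), ((3, 6),
    1, 0), ((6, 3), 0, 1), ((6, 8), 0, 6)]
  Tb := [((0, 1, 5), 1, 2, 5), ((1, 0, 2), 2, 1, 0), ((2, 1, 9), 0, 2, 7), ((3, 4, 6), 1, 4, 0),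
    ((4, 3, 5), 4, 1, 5), ((5, 0, 4), 5, 1, 4), ((6, 3, 8), 0, 1, 6), ((7, 8, 9), 3, 6, 7),
    ((8, 6, 7), 6, 0, 3), ((9, 2, 7), 7, 0, 3)]
  Tc := []
  Td := [((0, 3), (2, 1), 2), ((0, 3), (2, 9), 7), ((0, 3), (6, 3), 1), ((0, 3), (6, 8), 6), ((3,
    0), (7, 8), 6), ((3, 0), (7, 9), 7)]
  G := [[0, 0, 0xeeae464e2eec6e2eec69c8, 0xee6e8a4e2eecae2eeca9c4, 0xe2eec6e2eec6ee6e8cd81], [0,
    0, 0xe844e4eeacee68e4eeacdc2, 0, 0xeaee4e4eeacee6e8cd8448823], [0, 0, 0,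
    0x5493ac5e3e817ab46d41, 0x935e41e7e8593e8d28], [0, 0x111e2111e8111e8e41, 0, 0,
    0xd1be4b7618c935e4d82]]

noncomputable def n621 : Ent := ⟨e621, noF, [], [], [(7, 15, [360035742630636841211993100915356868655746945586763691010211841, 0])]⟩

def c621 : PLift (Cov.check n621.C.D v621 = true) := ⟨by decide +kernel⟩

def b621 : PLift (entF (fidx ts) 400 621 n621 = true) := ⟨by decide +kernel⟩

theorem g621 : GoodF (fidx ts) 400 621 := GoodF.ofV v621 n621 c621.down b621.down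

/-- 457664:546 -/
noncomputable def e622 : SCfg where
  D := {
    a := 6
    L := 10
    kp := 7
    inn := [(0, 1), (0, 2), (1, 0), (1, 2), (1, 3), (2, 0), (2, 1), (2, 3), (3, 1), (3, 2), (3, 4), (4,
      3), (4, 5), (5, 4)]
    mix := [(0, 0), (0, 1), (1, 1), (1, 2), (2, 0), (2, 3), (2, 4), (2, 5), (3, 2), (3, 3), (3, 6), (4,
      2), (4, 6), (4, 7), (4, 8), (5, 6), (5, 8), (5, 9)]
    cl := [1, 2, 0, 1, 4, 5, 0, 6, 3, 7]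
    chq := [(0, 3), (3, 0)]
    rng := [(0, 1), (0, 5), (1, 0), (1, 2), (2, 1), (2, 7), (3, 4), (3, 6), (4, 3), (4, 5), (5, 0), (5,
      4), (6, 3), (6, 9), (7, 2), (7, 8), (8, 7), (8, 9), (9, 6), (9, 8)]
    lev := [] }
  links := [[1, 2, 6, 7], [2, 0, 7, 8, 3], [6, 0, 1, 3, 9, 10, 11], [9, 2, 1, 8, 4, 12], [12, 3, 8, 13,
    14, 5], [12, 4, 14, 15]]
  P := {
    a := 6
    N := 16
    nb := [198, 397, 3659, 4886, 28968, 53264, 2181, 323, 8346, 5132, 2564, 1092, 33336, 16656, 41008,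
      20512]
    tri := [(0, 1, 2), (0, 1, 7), (0, 2, 6), (0, 6, 7), (1, 2, 3), (1, 3, 8), (1, 7, 8), (2, 3, 9), (2,
      6, 11), (2, 9, 10), (2, 10, 11), (3, 4, 8), (3, 4, 12), (3, 9, 12), (4, 5, 12), (4, 5, 14),
      (4, 8, 13), (4, 13, 14), (5, 12, 15), (5, 14, 15)]
    fin := [0, 0, 0, 0, 4, 4, 0, 7, 4, 0, 10, 11, 4, 13, 14, 15]
    chd := [(4, 14)]
    steps := [(0, 1), (0, 2), (0, 3), (0, 6), (0, 9), (4, 5), (4, 8), (4, 12)] }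
  rep := [4, 0, 7, 14, 10, 11, 13, 15]

noncomputable def v622 : Cov.CovD where
  P := 3
  N := 5
  pl := [1, 4, 5, 7, 9]
  lev := [⟨[], [], [], [2], [(0, 1, [])]⟩,
    ⟨[], [(0, 0), (0, 1)], [], [2], [(2, 0, [3])]⟩,
    ⟨[(0, 1)], [(0, 1), (1, 0), (1, 1)], [(1, 1)], [4, 5], [(0, 1, []), (3, 1, [])]⟩,
    ⟨[(0, 1), (0, 2), (1, 2)], [(1, 0), (1, 1), (2, 0), (2, 1)], [(0, 0), (0, 1)], [], [(2,
      0, [3]), (3, 1, []), (6, 0, [3])]⟩,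
    ⟨[(1, 3), (2, 3)], [(1, 0), (3, 0), (3, 1), (3, 3)], [(0, 0), (0, 3)], [6], [(2, 0,
      [3]), (6, 0, [3]), (8, 3, [0])]⟩,
    ⟨[(3, 4)], [(3, 0), (4, 0), (4, 3)], [(0, 3)], [7], [(6, 0, [3]), (8, 3, [0])]⟩]
  Ta := [((0, 1), 1, 2), ((0, 5), 1, 5), ((2, 1), 0, 2), ((2, 7), 0, 6), ((3, 4), 1, 4), ((3, 6),
    1, 0), ((6, 3), 0, 1), ((6, 9), 0, 7)]
  Tb := [((0, 1, 5), 1, 2, 5), ((1, 0, 2), 2, 1, 0), ((2, 1, 7), 0, 2, 6), ((3, 4, 6), 1, 4, 0),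
    ((4, 3, 5), 4, 1, 5), ((5, 0, 4), 5, 1, 4), ((6, 3, 9), 0, 1, 7), ((7, 2, 8), 6, 0, 3),
    ((8, 7, 9), 3, 6, 7), ((9, 6, 8), 7, 0, 3)]
  Tc := []
  Td := [((0, 3), (2, 1), 2), ((0, 3), (2, 7), 6), ((0, 3), (6, 3), 1), ((0, 3), (6, 9), 7), ((3,
    0), (8, 7), 6), ((3, 0), (8, 9), 7)]
  G := [[0, 0, 0x11618c111e8111e4d24, 0xbb1e4b2d1ca3295c6d84, 0x593e49235ca32e5c6d81], [0, 0,
    0x111e4111e49111e84a4, 0, 0x935e45493acb1be4d81], [0, 0, 0, 0xe2eec6e2eecae2eecad81,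
    0x44eaeecee6e8ce4eeacd21], [0, 0xe2eec6e2eec66eeae468c8, 0, 0, 0xee6e8ce4eeace4eeacd21]]

noncomputable def n622 : Ent := ⟨e622, noF, [], [], []⟩

def c622 : PLift (Cov.check n622.C.D v622 = true) := ⟨by decide +kernel⟩

def b622 : PLift (entF (fidx ts) 400 622 n622 = true) := ⟨by decide +kernel⟩

theorem g622 : GoodF (fidx ts) 400 622 := GoodF.ofV v622 n622 c622.down b622.down

/-- 474764:548/1 -/
noncomputable def e623 : SCfg where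
  D := {
    a := 6
    L := 9
    kp := 7
    inn := [(0, 1), (1, 0), (1, 2), (1, 3), (1, 4), (2, 1), (2, 3), (3, 1), (3, 2), (3, 4), (3, 5), (4,
      1), (4, 3), (5, 3)]
    mix := [(0, 0), (0, 1), (0, 2), (1, 0), (1, 2), (1, 3), (2, 2), (2, 4), (3, 4), (3, 5), (3, 6), (4,
      3), (4, 6), (4, 7), (4, 8), (5, 1), (5, 5), (5, 6)]
    cl := [2, 4, 0, 0, 1, 5, 3, 6, 7]
    chq := [(1, 3), (1, 4), (1, 6), (1, 7), (3, 1), (4, 1), (6, 1), (7, 1)]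
    rng := [(0, 1), (0, 3), (1, 0), (1, 2), (1, 5), (1, 6), (2, 1), (2, 4), (3, 0), (3, 8), (4, 2), (4,
      5), (5, 1), (5, 4), (6, 1), (6, 7), (7, 6), (7, 8), (8, 3), (8, 7)]
    lev := [] }
  links := [[1, 6, 7, 8], [6, 0, 8, 2, 3, 4, 9], [3, 1, 8, 10], [4, 1, 2, 10, 11, 5, 12], [9, 1, 3, 12,
    13, 14], [12, 3, 11, 7]]
  P := {
    a := 6
    N := 15
    nb := [450, 861, 1290, 7222, 29194, 6280, 643, 6497, 1159, 16466, 2316, 1192, 8376, 20496, 8720]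
    tri := [(0, 1, 6), (0, 1, 8), (0, 6, 7), (0, 7, 8), (1, 2, 3), (1, 2, 8), (1, 3, 4), (1, 4, 9), (1,
      6, 9), (2, 3, 10), (2, 8, 10), (3, 4, 12), (3, 5, 11), (3, 5, 12), (3, 10, 11), (4, 9, 14),
      (4, 12, 13), (4, 13, 14), (5, 7, 11), (5, 7, 12)]
    fin := [0, 1, 1, 3, 3, 5, 0, 5, 1, 1, 3, 11, 12, 13, 14]
    chd := [(3, 12), (3, 13), (3, 14), (5, 3)]
    steps := [(0, 6), (1, 2), (1, 8), (1, 9), (3, 4), (3, 10), (5, 7)] }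
  rep := [1, 3, 0, 12, 5, 11, 13, 14]

noncomputable def v623 : Cov.CovD where
  P := 3
  N := 5
  pl := [0, 5]
  lev := [⟨[], [], [(0, 4)], [2], [(1, 4, [1]), (2, 0, [])]⟩,
    ⟨[], [(0, 0), (0, 4)], [(0, 0)], [2], [(2, 0, []), (3, 0, [])]⟩,
    ⟨[(0, 1)], [(0, 0), (1, 0), (1, 1)], [(0, 1)], [], [(2, 0, []), (4, 1, [3, 4, 6, 7])]⟩,
    ⟨[(0, 1), (1, 2)], [(1, 0), (1, 1), (1, 3), (2, 0), (2, 1), (2, 3)], [(1, 3)], [5],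
      [(4, 1, [3, 4, 6, 7]), (6, 3, [1])]⟩,
    ⟨[(0, 1), (1, 2), (1, 3), (2, 3)], [(1, 0), (1, 3), (1, 6), (1, 7), (3, 0), (3, 1), (3,
      3), (3, 6), (3, 7)], [(0, 3), (0, 6), (0, 7), (3, 6), (3, 7), (6, 7)], [], [(3, 0, []),
      (6, 3, [1]), (7, 6, [1]), (8, 7, [1])]⟩,
    ⟨[(1, 3), (2, 3), (3, 4)], [(0, 4), (3, 1), (3, 3), (3, 4), (4, 3)], [(3, 4)], [5],
      [(1, 4, [1]), (6, 3, [1])]⟩]
  Ta := [((2, 1), 0, 4), ((2, 4), 0, 1), ((3, 0), 0, 2), ((3, 8), 0, 7)]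
  Tb := [((0, 1, 3), 2, 4, 0), ((1, 0, 2), 4, 2, 0), ((1, 0, 5), 4, 2, 5), ((1, 0, 6), 4, 2, 3),
    ((1, 2, 5), 4, 0, 5), ((1, 2, 6), 4, 0, 3), ((1, 5, 6), 4, 5, 3), ((2, 1, 4), 0, 4, 1),
    ((3, 0, 8), 0, 2, 7), ((4, 2, 5), 1, 0, 5), ((5, 1, 4), 5, 4, 1), ((6, 1, 7), 3, 4, 6),
    ((7, 6, 8), 6, 3, 7), ((8, 3, 7), 7, 0, 6)]
  Tc := [(1, 3, 4), (1, 3, 6), (1, 3, 7), (1, 4, 6), (1, 4, 7), (1, 6, 7)]
  Td := [((1, 3), (4, 2), 0), ((1, 3), (4, 5), 5), ((1, 4), (4, 2), 0), ((1, 4), (4, 5), 5), ((1,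
    6), (4, 2), 0), ((1, 6), (4, 5), 5), ((1, 7), (4, 2), 0), ((1, 7), (4, 5), 5), ((3, 1),
    (6, 1), 4), ((3, 1), (6, 7), 6), ((4, 1), (1, 0), 2), ((4, 1), (1, 2), 0), ((4, 1), (1,
    5), 5), ((4, 1), (1, 6), 3), ((6, 1), (7, 6), 3), ((6, 1), (7, 8), 7), ((7, 1), (8, 3),
    0), ((7, 1), (8, 7), 6)]
  G := [[0, 0x111121e84111111e48c, 0, 0x22125828c442422329c8c, 0x82842e2b25228c8a], [0, 0,
    0x1212262c58281c2, 0xe2422129c81, 0x62a212d481]]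

noncomputable def n623 : Ent := ⟨e623, noF, [], [], []⟩

def c623 : PLift (Cov.check n623.C.D v623 = true) := ⟨by decide +kernel⟩

def b623 : PLift (entF (fidx ts) 400 623 n623 = true) := ⟨by decide +kernel⟩

theorem g623 : GoodF (fidx ts) 400 623 := GoodF.ofV v623 n623 c623.down b623.down

/-- 474764:548 -/
noncomputable def e624 : SCfg where
  D := {
    a := 6
    L := 10
    kp := 8
    inn := [(0, 1), (1, 0), (1, 2), (1, 3), (1, 4), (2, 1), (2, 3), (3, 1), (3, 2), (3, 4), (3, 5), (4,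
      1), (4, 3), (5, 3)]
    mix := [(0, 0), (0, 1), (0, 2), (1, 0), (1, 2), (1, 3), (2, 2), (2, 4), (3, 4), (3, 5), (3, 6), (4,
      3), (4, 6), (4, 7), (4, 8), (5, 5), (5, 6), (5, 9)]
    cl := [2, 8, 0, 0, 1, 4, 3, 5, 6, 7]
    chq := [(1, 3), (1, 5), (1, 6), (1, 7), (3, 1), (5, 1), (6, 1), (7, 1)]
    rng := [(0, 1), (0, 3), (1, 0), (1, 2), (2, 1), (2, 4), (3, 0), (3, 8), (4, 2), (4, 5), (5, 4), (5,
      9), (6, 7), (6, 9), (7, 6), (7, 8), (8, 3), (8, 7), (9, 5), (9, 6)]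
    lev := [] }
  links := [[1, 6, 7, 8], [6, 0, 8, 2, 3, 4, 9], [3, 1, 8, 10], [4, 1, 2, 10, 11, 5, 12], [9, 1, 3, 12,
    13, 14], [12, 3, 11, 15]]
  P := {
    a := 6
    N := 16
    nb := [450, 861, 1290, 7222, 29194, 38920, 643, 321, 1159, 16466, 2316, 33832, 41016, 20496, 8720,
      6176]
    tri := [(0, 1, 6), (0, 1, 8), (0, 6, 7), (0, 7, 8), (1, 2, 3), (1, 2, 8), (1, 3, 4), (1, 4, 9), (1,
      6, 9), (2, 3, 10), (2, 8, 10), (3, 4, 12), (3, 5, 11), (3, 5, 12), (3, 10, 11), (4, 9, 14),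
      (4, 12, 13), (4, 13, 14), (5, 11, 15), (5, 12, 15)]
    fin := [0, 1, 1, 3, 3, 3, 0, 7, 1, 1, 3, 11, 12, 13, 14, 15]
    chd := [(3, 12), (3, 13), (3, 14), (3, 15)]
    steps := [(0, 6), (1, 2), (1, 8), (1, 9), (3, 4), (3, 5), (3, 10)] }
  rep := [1, 3, 0, 12, 11, 13, 14, 15, 7]

noncomputable def v624 : Cov.CovD where
  P := 3
  N := 6
  pl := [0, 1, 5]
  lev := [⟨[], [], [], [2, 8], [(2, 0, [])]⟩,
    ⟨[], [(0, 0)], [(0, 0)], [2], [(2, 0, []), (3, 0, [])]⟩,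
    ⟨[(0, 1)], [(0, 0), (1, 0), (1, 1)], [(0, 1)], [], [(2, 0, []), (4, 1, [3, 5, 6, 7])]⟩,
    ⟨[(0, 1), (1, 2)], [(1, 0), (1, 1), (1, 3), (2, 0), (2, 1), (2, 3)], [(1, 3)], [4],
      [(4, 1, [3, 5, 6, 7]), (6, 3, [1])]⟩,
    ⟨[(0, 1), (1, 2), (1, 3), (2, 3)], [(1, 0), (1, 3), (1, 5), (1, 6), (3, 0), (3, 1), (3,
      3), (3, 5), (3, 6)], [(0, 3), (0, 5), (0, 6), (3, 5), (3, 6), (5, 6)], [], [(3, 0, []),
      (6, 3, [1]), (7, 5, [1]), (8, 6, [1])]⟩,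
    ⟨[(1, 3), (2, 3), (3, 4)], [(3, 1), (3, 3), (3, 7), (4, 3)], [(3, 7)], [4], [(6, 3,
      [1]), (9, 7, [1])]⟩]
  Ta := [((2, 1), 0, 8), ((2, 4), 0, 1), ((3, 0), 0, 2), ((3, 8), 0, 6)]
  Tb := [((0, 1, 3), 2, 8, 0), ((1, 0, 2), 8, 2, 0), ((2, 1, 4), 0, 8, 1), ((3, 0, 8), 0, 2, 6),
    ((4, 2, 5), 1, 0, 4), ((5, 4, 9), 4, 1, 7), ((6, 7, 9), 3, 5, 7), ((7, 6, 8), 5, 3, 6),
    ((8, 3, 7), 6, 0, 5), ((9, 5, 6), 7, 4, 3)]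
  Tc := [(1, 3, 5), (1, 3, 6), (1, 3, 7), (1, 5, 6), (1, 5, 7), (1, 6, 7)]
  Td := [((1, 3), (4, 2), 0), ((1, 3), (4, 5), 4), ((1, 5), (4, 2), 0), ((1, 5), (4, 5), 4), ((1,
    6), (4, 2), 0), ((1, 6), (4, 5), 4), ((1, 7), (4, 2), 0), ((1, 7), (4, 5), 4), ((3, 1),
    (6, 7), 5), ((3, 1), (6, 9), 7), ((5, 1), (7, 6), 3), ((5, 1), (7, 8), 6), ((6, 1), (8,
    3), 0), ((6, 1), (8, 7), 5), ((7, 1), (9, 5), 4), ((7, 1), (9, 6), 3)]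
  G := [[0, 0x111111e24111111e28c, 0, 0x224e2729c462a2f2d48c, 0x22725422e2f84a62a2f2d48a], [0,
    0, 0x22b29e2458721e222c946, 0xe2b25228c81, 0xe2422b29c81]]

noncomputable def n624 : Ent := ⟨e624, noF, [], [], [(7, 15, [360035742630636841211993100915356868655746945586763691010224129, 0])]⟩

def c624 : PLift (Cov.check n624.C.D v624 = true) := ⟨by decide +kernel⟩

def b624 : PLift (entF (fidx ts) 400 624 n624 = true) := ⟨by decide +kernel⟩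

theorem g624 : GoodF (fidx ts) 400 624 := GoodF.ofV v624 n624 c624.down b624.down

/-- 474765:549/2 -/
noncomputable def e625 : SCfg where
  D := {
    a := 6
    L := 9
    kp := 6
    inn := [(0, 1), (1, 0), (1, 2), (1, 3), (1, 4), (2, 1), (2, 3), (3, 1), (3, 2), (3, 4), (3, 5), (4,
      1), (4, 3), (5, 3)]
    mix := [(0, 0), (0, 1), (0, 2), (1, 0), (1, 2), (1, 3), (2, 2), (2, 4), (3, 4), (3, 5), (3, 6), (4,
      3), (4, 6), (4, 7), (4, 8), (5, 1), (5, 5), (5, 6), (5, 7)]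
    cl := [2, 5, 0, 0, 1, 3, 3, 4, 6]
    chq := [(1, 4), (1, 6), (4, 1), (6, 1)]
    rng := [(0, 1), (0, 3), (1, 0), (1, 2), (1, 5), (1, 7), (2, 1), (2, 4), (3, 0), (3, 8), (4, 2), (4,
      5), (5, 1), (5, 4), (6, 7), (7, 1), (7, 6), (7, 8), (8, 3), (8, 7)]
    lev := [] }
  links := [[1, 6, 7, 8], [6, 0, 8, 2, 3, 4, 9], [3, 1, 8, 10], [4, 1, 2, 10, 11, 5, 12], [9, 1, 3, 12,
    13, 14], [12, 3, 11, 7, 13]]
  P := {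
    a := 6
    N := 15
    nb := [450, 861, 1290, 7222, 29194, 14472, 643, 10593, 1159, 16466, 2316, 1192, 8248, 20656, 8720]
    tri := [(0, 1, 6), (0, 1, 8), (0, 6, 7), (0, 7, 8), (1, 2, 3), (1, 2, 8), (1, 3, 4), (1, 4, 9), (1,
      6, 9), (2, 3, 10), (2, 8, 10), (3, 4, 12), (3, 5, 11), (3, 5, 12), (3, 10, 11), (4, 9, 14),
      (4, 12, 13), (4, 13, 14), (5, 7, 11), (5, 7, 13), (5, 12, 13)]
    fin := [0, 1, 1, 3, 3, 5, 0, 7, 1, 1, 3, 5, 5, 13, 14]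
    chd := [(3, 13), (3, 14)]
    steps := [(0, 6), (1, 2), (1, 8), (1, 9), (3, 4), (3, 10), (5, 11), (5, 12)] }
  rep := [1, 3, 0, 5, 13, 7, 14]

noncomputable def v625 : Cov.CovD where
  P := 3
  N := 4
  pl := [0, 1]
  lev := [⟨[], [], [], [2, 5], [(2, 0, [])]⟩,
    ⟨[], [(0, 0)], [(0, 0)], [2], [(2, 0, []), (3, 0, [])]⟩,
    ⟨[(0, 1)], [(0, 0), (1, 0), (1, 1)], [(0, 1)], [], [(2, 0, []), (4, 1, [4, 6])]⟩,
    ⟨[(0, 1), (1, 2)], [(1, 0), (1, 1), (1, 3), (2, 0), (2, 1), (2, 3)], [(1, 3), (3, 3)],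
      [], [(4, 1, [4, 6]), (5, 3, []), (6, 3, [])]⟩,
    ⟨[(0, 1), (1, 2), (1, 3), (2, 3)], [(1, 0), (1, 3), (1, 4), (1, 6), (3, 0), (3, 1), (3,
      3), (3, 4), (3, 6)], [(0, 3), (0, 4), (0, 6), (3, 4), (3, 6), (4, 6)], [], [(3, 0, []),
      (6, 3, []), (7, 4, [1]), (8, 6, [1])]⟩,
    ⟨[(1, 3), (2, 3), (3, 4)], [(3, 1), (3, 3), (3, 4), (4, 3), (4, 4)], [(3, 3), (3, 4)],
      [5], [(5, 3, []), (6, 3, []), (7, 4, [1])]⟩]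
  Ta := [((2, 1), 0, 5), ((2, 4), 0, 1), ((3, 0), 0, 2), ((3, 8), 0, 6), ((5, 1), 3, 5), ((5, 4),
    3, 1), ((6, 7), 3, 4)]
  Tb := [((0, 1, 3), 2, 5, 0), ((1, 0, 2), 5, 2, 0), ((1, 0, 5), 5, 2, 3), ((1, 0, 7), 5, 2, 4),
    ((1, 2, 5), 5, 0, 3), ((1, 2, 7), 5, 0, 4), ((1, 5, 7), 5, 3, 4), ((2, 1, 4), 0, 5, 1),
    ((3, 0, 8), 0, 2, 6), ((4, 2, 5), 1, 0, 3), ((5, 1, 4), 3, 5, 1), ((7, 1, 6), 4, 5, 3),
    ((7, 1, 8), 4, 5, 6), ((7, 6, 8), 4, 3, 6), ((8, 3, 7), 6, 0, 4)]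
  Tc := [(1, 4, 6)]
  Td := [((1, 4), (4, 2), 0), ((1, 4), (4, 5), 3), ((1, 6), (4, 2), 0), ((1, 6), (4, 5), 3), ((4,
    1), (7, 1), 5), ((4, 1), (7, 6), 3), ((4, 1), (7, 8), 6), ((6, 1), (8, 3), 0), ((6, 1),
    (8, 7), 4)]
  G := [[0, 0x1111a441111688c, 0, 0xa2925486232588c, 0x82d25444684a6232588a], [0, 0x1142811828c,
    0, 0x324828c46232588c, 0x82f25444684a72848a], [0, 0, 0xb28447248832148e, 0xe24b21c81,
    0xe2b25881], [0, 0, 0x921e245872818a, 0xe2b25881, 0xe2b25881]]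

noncomputable def n625 : Ent := ⟨e625, noF, [], [], []⟩

def c625 : PLift (Cov.check n625.C.D v625 = true) := ⟨by decide +kernel⟩

def b625 : PLift (entF (fidx ts) 400 625 n625 = true) := ⟨by decide +kernel⟩

theorem g625 : GoodF (fidx ts) 400 625 := GoodF.ofV v625 n625 c625.down b625.down

/-- 474765:549/1 -/
noncomputable def e626 : SCfg where
  D := {
    a := 6
    L := 10
    kp := 7
    inn := [(0, 1), (1, 0), (1, 2), (1, 3), (1, 4), (2, 1), (2, 3), (3, 1), (3, 2), (3, 4), (3, 5), (4,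
      1), (4, 3), (5, 3)]
    mix := [(0, 0), (0, 1), (0, 2), (1, 0), (1, 2), (1, 3), (2, 2), (2, 4), (3, 4), (3, 5), (3, 6), (4,
      3), (4, 6), (4, 7), (4, 8), (5, 1), (5, 5), (5, 6), (5, 9)]
    cl := [2, 4, 0, 0, 1, 3, 3, 5, 6, 7]
    chq := [(1, 5), (1, 6), (5, 1), (6, 1)]
    rng := [(0, 1), (0, 3), (1, 0), (1, 2), (1, 5), (1, 9), (2, 1), (2, 4), (3, 0), (3, 8), (4, 2), (4,
      5), (5, 1), (5, 4), (6, 7), (6, 9), (7, 6), (7, 8), (8, 3), (8, 7), (9, 1), (9, 6)]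
    lev := [] }
  links := [[1, 6, 7, 8], [6, 0, 8, 2, 3, 4, 9], [3, 1, 8, 10], [4, 1, 2, 10, 11, 5, 12], [9, 1, 3, 12,
    13, 14], [12, 3, 11, 7, 15]]
  P := {
    a := 6
    N := 16
    nb := [450, 861, 1290, 7222, 29194, 39048, 643, 35169, 1159, 16466, 2316, 1192, 41016, 20496,
      8720, 4256]
    tri := [(0, 1, 6), (0, 1, 8), (0, 6, 7), (0, 7, 8), (1, 2, 3), (1, 2, 8), (1, 3, 4), (1, 4, 9), (1,
      6, 9), (2, 3, 10), (2, 8, 10), (3, 4, 12), (3, 5, 11), (3, 5, 12), (3, 10, 11), (4, 9, 14),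
      (4, 12, 13), (4, 13, 14), (5, 7, 11), (5, 7, 15), (5, 12, 15)]
    fin := [0, 1, 1, 3, 3, 5, 0, 7, 1, 1, 3, 5, 5, 13, 14, 15]
    chd := [(3, 13), (3, 14)]
    steps := [(0, 6), (1, 2), (1, 8), (1, 9), (3, 4), (3, 10), (5, 11), (5, 12)] }
  rep := [1, 3, 0, 5, 7, 13, 14, 15]

noncomputable def v626 : Cov.CovD where
  P := 3
  N := 5
  pl := [0, 1, 9]
  lev := [⟨[], [], [], [2, 4], [(2, 0, [])]⟩,
    ⟨[], [(0, 0)], [(0, 0)], [2], [(2, 0, []), (3, 0, [])]⟩,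
    ⟨[(0, 1)], [(0, 0), (1, 0), (1, 1)], [(0, 1)], [], [(2, 0, []), (4, 1, [5, 6])]⟩,
    ⟨[(0, 1), (1, 2)], [(1, 0), (1, 1), (1, 3), (2, 0), (2, 1), (2, 3)], [(1, 3), (3, 3)],
      [], [(4, 1, [5, 6]), (5, 3, []), (6, 3, [])]⟩,
    ⟨[(0, 1), (1, 2), (1, 3), (2, 3)], [(1, 0), (1, 3), (1, 5), (1, 6), (3, 0), (3, 1), (3,
      3), (3, 5), (3, 6)], [(0, 3), (0, 5), (0, 6), (3, 5), (3, 6), (5, 6)], [], [(3, 0, []),
      (6, 3, []), (7, 5, [1]), (8, 6, [1])]⟩,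
    ⟨[(1, 3), (2, 3), (3, 4)], [(3, 1), (3, 3), (4, 3)], [(3, 3)], [4, 7], [(5, 3, []), (6,
      3, [])]⟩]
  Ta := [((2, 1), 0, 4), ((2, 4), 0, 1), ((3, 0), 0, 2), ((3, 8), 0, 6), ((5, 1), 3, 4), ((5, 4),
    3, 1), ((6, 7), 3, 5), ((6, 9), 3, 7)]
  Tb := [((0, 1, 3), 2, 4, 0), ((1, 0, 2), 4, 2, 0), ((1, 0, 5), 4, 2, 3), ((1, 0, 9), 4, 2, 7),
    ((1, 2, 5), 4, 0, 3), ((1, 2, 9), 4, 0, 7), ((1, 5, 9), 4, 3, 7), ((2, 1, 4), 0, 4, 1),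
    ((3, 0, 8), 0, 2, 6), ((4, 2, 5), 1, 0, 3), ((5, 1, 4), 3, 4, 1), ((6, 7, 9), 3, 5, 7),
    ((7, 6, 8), 5, 3, 6), ((8, 3, 7), 6, 0, 5), ((9, 1, 6), 7, 4, 3)]
  Tc := [(1, 5, 6)]
  Td := [((1, 5), (4, 2), 0), ((1, 5), (4, 5), 3), ((1, 6), (4, 2), 0), ((1, 6), (4, 5), 3), ((5,
    1), (7, 6), 3), ((5, 1), (7, 8), 6), ((6, 1), (8, 3), 0), ((6, 1), (8, 7), 5)]
  G := [[0, 0x9131a445131688c, 0, 0xa2329446232588c, 0x921c246c248a6232588a], [0, 0xf1428f1824c,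
    0, 0xa27294472884c, 0x8244f27444a48a72848a], [0, 0, 0xc292588a2329446, 0xe2729441,
    0xe2b25881], [0, 0, 0xc2b2588b24186, 0xe2b25881, 0xe2b25881]]

noncomputable def n626 : Ent := ⟨e626, noF, [], [], [(15, 13, [360048296834107614573520772494203283988579150297652619079258113, 0])]⟩

def c626 : PLift (Cov.check n626.C.D v626 = true) := ⟨by decide +kernel⟩

def b626 : PLift (entF (fidx ts) 400 626 n626 = true) := ⟨by decide +kernel⟩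

theorem g626 : GoodF (fidx ts) 400 626 := GoodF.ofV v626 n626 c626.down b626.down

/-- 474765:549/3 -/
noncomputable def e627 : SCfg where
  D := {
    a := 6
    L := 10
    kp := 7
    inn := [(0, 1), (1, 0), (1, 2), (1, 3), (1, 4), (2, 1), (2, 3), (3, 1), (3, 2), (3, 4), (3, 5), (4,
      1), (4, 3), (5, 3)]
    mix := [(0, 0), (0, 1), (0, 2), (1, 0), (1, 2), (1, 3), (2, 2), (2, 4), (3, 4), (3, 5), (3, 6), (4,
      3), (4, 6), (4, 7), (4, 8), (5, 1), (5, 5), (5, 6), (5, 9)]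
    cl := [2, 4, 0, 0, 1, 3, 3, 5, 6, 7]
    chq := [(1, 5), (1, 6), (5, 1), (6, 1)]
    rng := [(0, 1), (0, 3), (1, 0), (1, 2), (1, 6), (1, 9), (2, 1), (2, 4), (3, 0), (3, 8), (4, 2), (4,
      5), (5, 4), (5, 9), (6, 1), (6, 7), (7, 6), (7, 8), (8, 3), (8, 7), (9, 1), (9, 5)]
    lev := [] }
  links := [[1, 6, 7, 8], [6, 0, 8, 2, 3, 4, 9], [3, 1, 8, 10], [4, 1, 2, 10, 11, 5, 12], [9, 1, 3, 12,
    13, 14], [12, 3, 11, 15, 7]]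
  P := {
    a := 6
    N := 16
    nb := [450, 861, 1290, 7222, 29194, 39048, 643, 37217, 1159, 16466, 2316, 33832, 8376, 20496,
      8720, 2208]
    tri := [(0, 1, 6), (0, 1, 8), (0, 6, 7), (0, 7, 8), (1, 2, 3), (1, 2, 8), (1, 3, 4), (1, 4, 9), (1,
      6, 9), (2, 3, 10), (2, 8, 10), (3, 4, 12), (3, 5, 11), (3, 5, 12), (3, 10, 11), (4, 9, 14),
      (4, 12, 13), (4, 13, 14), (5, 7, 12), (5, 7, 15), (5, 11, 15)]
    fin := [0, 1, 1, 3, 3, 5, 0, 7, 1, 1, 3, 5, 5, 13, 14, 15]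
    chd := [(3, 13), (3, 14)]
    steps := [(0, 6), (1, 2), (1, 8), (1, 9), (3, 4), (3, 10), (5, 11), (5, 12)] }
  rep := [1, 3, 0, 5, 7, 13, 14, 15]

noncomputable def v627 : Cov.CovD where
  P := 3
  N := 5
  pl := [0, 1, 9]
  lev := [⟨[], [], [], [2, 4], [(2, 0, [])]⟩,
    ⟨[], [(0, 0)], [(0, 0)], [2], [(2, 0, []), (3, 0, [])]⟩,
    ⟨[(0, 1)], [(0, 0), (1, 0), (1, 1)], [(0, 1)], [], [(2, 0, []), (4, 1, [5, 6])]⟩,
    ⟨[(0, 1), (1, 2)], [(1, 0), (1, 1), (1, 3), (2, 0), (2, 1), (2, 3)], [(1, 3), (3, 3)],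
      [], [(4, 1, [5, 6]), (5, 3, []), (6, 3, [])]⟩,
    ⟨[(0, 1), (1, 2), (1, 3), (2, 3)], [(1, 0), (1, 3), (1, 5), (1, 6), (3, 0), (3, 1), (3,
      3), (3, 5), (3, 6)], [(0, 3), (0, 5), (0, 6), (3, 5), (3, 6), (5, 6)], [], [(3, 0, []),
      (6, 3, []), (7, 5, [1]), (8, 6, [1])]⟩,
    ⟨[(1, 3), (2, 3), (3, 4)], [(3, 1), (3, 3), (4, 3)], [(3, 3)], [4, 7], [(5, 3, []), (6,
      3, [])]⟩]
  Ta := [((2, 1), 0, 4), ((2, 4), 0, 1), ((3, 0), 0, 2), ((3, 8), 0, 6), ((5, 4), 3, 1), ((5, 9),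
    3, 7), ((6, 1), 3, 4), ((6, 7), 3, 5)]
  Tb := [((0, 1, 3), 2, 4, 0), ((1, 0, 2), 4, 2, 0), ((1, 0, 6), 4, 2, 3), ((1, 0, 9), 4, 2, 7),
    ((1, 2, 6), 4, 0, 3), ((1, 2, 9), 4, 0, 7), ((1, 6, 9), 4, 3, 7), ((2, 1, 4), 0, 4, 1),
    ((3, 0, 8), 0, 2, 6), ((4, 2, 5), 1, 0, 3), ((5, 4, 9), 3, 1, 7), ((6, 1, 7), 3, 4, 5),
    ((7, 6, 8), 5, 3, 6), ((8, 3, 7), 6, 0, 5), ((9, 1, 5), 7, 4, 3)]
  Tc := [(1, 5, 6)]
  Td := [((1, 5), (4, 2), 0), ((1, 5), (4, 5), 3), ((1, 6), (4, 2), 0), ((1, 6), (4, 5), 3), ((5,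
    1), (7, 6), 3), ((5, 1), (7, 8), 6), ((6, 1), (8, 3), 0), ((6, 1), (8, 7), 5)]
  G := [[0, 0x9171a4471824c, 0, 0xa2329446232588c, 0xd21c246c284a6232588a], [0,
    0x9131a443151c28c, 0, 0xa2925846232588c, 0xd21c246c284a6232588a], [0, 0, 0xc27294472848a,
    0xe2729441, 0xe2b25881], [0, 0, 0xc2529447232c18a, 0x721e28c41, 0xe2b25881]]

noncomputable def n627 : Ent := ⟨e627, noF, [], [], []⟩

def c627 : PLift (Cov.check n627.C.D v627 = true) := ⟨by decide +kernel⟩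

def b627 : PLift (entF (fidx ts) 400 627 n627 = true) := ⟨by decide +kernel⟩

theorem g627 : GoodF (fidx ts) 400 627 := GoodF.ofV v627 n627 c627.down b627.down

/-- 474765:549/4 -/
noncomputable def e628 : SCfg where
  D := {
    a := 6
    L := 10
    kp := 7
    inn := [(0, 1), (1, 0), (1, 2), (1, 3), (1, 4), (2, 1), (2, 3), (3, 1), (3, 2), (3, 4), (3, 5), (4,
      1), (4, 3), (5, 3)]
    mix := [(0, 0), (0, 1), (0, 2), (1, 0), (1, 2), (1, 3), (2, 2), (2, 4), (3, 4), (3, 5), (3, 6), (4,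
      3), (4, 6), (4, 7), (4, 8), (5, 5), (5, 6), (5, 7), (5, 9)]
    cl := [2, 6, 0, 0, 1, 3, 3, 4, 5, 7]
    chq := [(1, 4), (1, 5), (4, 1), (5, 1)]
    rng := [(0, 1), (0, 3), (1, 0), (1, 2), (2, 1), (2, 4), (3, 0), (3, 8), (4, 2), (4, 5), (5, 4), (5,
      9), (6, 7), (7, 6), (7, 8), (7, 9), (8, 3), (8, 7), (9, 5), (9, 7)]
    lev := [] }
  links := [[1, 6, 7, 8], [6, 0, 8, 2, 3, 4, 9], [3, 1, 8, 10], [4, 1, 2, 10, 11, 5, 12], [9, 1, 3, 12,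
    13, 14], [12, 3, 11, 15, 13]]
  P := {
    a := 6
    N := 16
    nb := [450, 861, 1290, 7222, 29194, 47112, 643, 321, 1159, 16466, 2316, 33832, 8248, 53296, 8720,
      10272]
    tri := [(0, 1, 6), (0, 1, 8), (0, 6, 7), (0, 7, 8), (1, 2, 3), (1, 2, 8), (1, 3, 4), (1, 4, 9), (1,
      6, 9), (2, 3, 10), (2, 8, 10), (3, 4, 12), (3, 5, 11), (3, 5, 12), (3, 10, 11), (4, 9, 14),
      (4, 12, 13), (4, 13, 14), (5, 11, 15), (5, 12, 13), (5, 13, 15)]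
    fin := [0, 1, 1, 3, 3, 5, 0, 7, 1, 1, 3, 5, 5, 13, 14, 15]
    chd := [(3, 13), (3, 14)]
    steps := [(0, 6), (1, 2), (1, 8), (1, 9), (3, 4), (3, 10), (5, 11), (5, 12)] }
  rep := [1, 3, 0, 5, 13, 14, 7, 15]

noncomputable def v628 : Cov.CovD where
  P := 3
  N := 5
  pl := [0, 1, 9]
  lev := [⟨[], [], [], [2, 6], [(2, 0, [])]⟩,
    ⟨[], [(0, 0)], [(0, 0)], [2], [(2, 0, []), (3, 0, [])]⟩,
    ⟨[(0, 1)], [(0, 0), (1, 0), (1, 1)], [(0, 1)], [], [(2, 0, []), (4, 1, [4, 5])]⟩,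
    ⟨[(0, 1), (1, 2)], [(1, 0), (1, 1), (1, 3), (2, 0), (2, 1), (2, 3)], [(1, 3), (3, 3)],
      [], [(4, 1, [4, 5]), (5, 3, []), (6, 3, [])]⟩,
    ⟨[(0, 1), (1, 2), (1, 3), (2, 3)], [(1, 0), (1, 3), (1, 4), (1, 5), (3, 0), (3, 1), (3,
      3), (3, 4), (3, 5)], [(0, 3), (0, 4), (0, 5), (3, 4), (3, 5), (4, 5)], [], [(3, 0, []),
      (6, 3, []), (7, 4, [1]), (8, 5, [1])]⟩,
    ⟨[(1, 3), (2, 3), (3, 4)], [(3, 1), (3, 3), (3, 4), (4, 3), (4, 4)], [(3, 3), (3, 4)],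
      [7], [(5, 3, []), (6, 3, []), (7, 4, [1])]⟩]
  Ta := [((2, 1), 0, 6), ((2, 4), 0, 1), ((3, 0), 0, 2), ((3, 8), 0, 5), ((5, 4), 3, 1), ((5, 9),
    3, 7), ((6, 7), 3, 4)]
  Tb := [((0, 1, 3), 2, 6, 0), ((1, 0, 2), 6, 2, 0), ((2, 1, 4), 0, 6, 1), ((3, 0, 8), 0, 2, 5),
    ((4, 2, 5), 1, 0, 3), ((5, 4, 9), 3, 1, 7), ((7, 6, 8), 4, 3, 5), ((7, 6, 9), 4, 3, 7),
    ((7, 8, 9), 4, 5, 7), ((8, 3, 7), 5, 0, 4), ((9, 5, 7), 7, 3, 4)]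
  Tc := [(1, 4, 5)]
  Td := [((1, 4), (4, 2), 0), ((1, 4), (4, 5), 3), ((1, 5), (4, 2), 0), ((1, 5), (4, 5), 3), ((4,
    1), (7, 6), 3), ((4, 1), (7, 8), 5), ((4, 1), (7, 9), 7), ((5, 1), (8, 3), 0), ((5, 1),
    (8, 7), 4)]
  G := [[0, 0x7142b182c5171a818a4c, 0, 0xf2146282c8ce2b2588c, 0xa2f254244e84ae2b2588a], [0,
    0x212d151aa47142b182cc, 0, 0xe272944e2b2588c, 0xa2b2542464248ae2b2588a], [0, 0,
    0xe2b25886282f2d486, 0xe2729441, 0xe2b25881], [0, 0, 0x721e2854e2b2588c, 0xe2b25881,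
    0xe2b25881]]

noncomputable def n628 : Ent := ⟨e628, noF, [], [], [(7, 15, [360035742630636841211993100915356868655746945586763691010232321, 0])]⟩

def c628 : PLift (Cov.check n628.C.D v628 = true) := ⟨by decide +kernel⟩

def b628 : PLift (entF (fidx ts) 400 628 n628 = true) := ⟨by decide +kernel⟩

theorem g628 : GoodF (fidx ts) 400 628 := GoodF.ofV v628 n628 c628.down b628.down

/-- 474765:549 -/
noncomputable def e629 : SCfg where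
  D := {
    a := 6
    L := 11
    kp := 8
    inn := [(0, 1), (1, 0), (1, 2), (1, 3), (1, 4), (2, 1), (2, 3), (3, 1), (3, 2), (3, 4), (3, 5), (4,
      1), (4, 3), (5, 3)]
    mix := [(0, 0), (0, 1), (0, 2), (1, 0), (1, 2), (1, 3), (2, 2), (2, 4), (3, 4), (3, 5), (3, 6), (4,
      3), (4, 6), (4, 7), (4, 8), (5, 5), (5, 6), (5, 9), (5, 10)]
    cl := [2, 6, 0, 0, 1, 3, 3, 4, 5, 7, 8]
    chq := [(1, 4), (1, 5), (4, 1), (5, 1)]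
    rng := [(0, 1), (0, 3), (1, 0), (1, 2), (2, 1), (2, 4), (3, 0), (3, 8), (4, 2), (4, 5), (5, 4), (5,
      9), (6, 7), (6, 10), (7, 6), (7, 8), (8, 3), (8, 7), (9, 5), (9, 10), (10, 6), (10, 9)]
    lev := [] }
  links := [[1, 6, 7, 8], [6, 0, 8, 2, 3, 4, 9], [3, 1, 8, 10], [4, 1, 2, 10, 11, 5, 12], [9, 1, 3, 12,
    13, 14], [12, 3, 11, 15, 16]]
  P := {
    a := 6
    N := 17
    nb := [450, 861, 1290, 7222, 29194, 104456, 643, 321, 1159, 16466, 2316, 33832, 73784, 20496,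
      8720, 67616, 36896]
    tri := [(0, 1, 6), (0, 1, 8), (0, 6, 7), (0, 7, 8), (1, 2, 3), (1, 2, 8), (1, 3, 4), (1, 4, 9), (1,
      6, 9), (2, 3, 10), (2, 8, 10), (3, 4, 12), (3, 5, 11), (3, 5, 12), (3, 10, 11), (4, 9, 14),
      (4, 12, 13), (4, 13, 14), (5, 11, 15), (5, 12, 16), (5, 15, 16)]
    fin := [0, 1, 1, 3, 3, 5, 0, 7, 1, 1, 3, 5, 5, 13, 14, 15, 16]
    chd := [(3, 13), (3, 14)]
    steps := [(0, 6), (1, 2), (1, 8), (1, 9), (3, 4), (3, 10), (5, 11), (5, 12)] }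
  rep := [1, 3, 0, 5, 13, 14, 7, 15, 16]

noncomputable def v629 : Cov.CovD where
  P := 3
  N := 6
  pl := [0, 1, 9, 10]
  lev := [⟨[], [], [], [2, 6], [(2, 0, [])]⟩,
    ⟨[], [(0, 0)], [(0, 0)], [2], [(2, 0, []), (3, 0, [])]⟩,
    ⟨[(0, 1)], [(0, 0), (1, 0), (1, 1)], [(0, 1)], [], [(2, 0, []), (4, 1, [4, 5])]⟩,
    ⟨[(0, 1), (1, 2)], [(1, 0), (1, 1), (1, 3), (2, 0), (2, 1), (2, 3)], [(1, 3), (3, 3)],
      [], [(4, 1, [4, 5]), (5, 3, []), (6, 3, [])]⟩,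
    ⟨[(0, 1), (1, 2), (1, 3), (2, 3)], [(1, 0), (1, 3), (1, 4), (1, 5), (3, 0), (3, 1), (3,
      3), (3, 4), (3, 5)], [(0, 3), (0, 4), (0, 5), (3, 4), (3, 5), (4, 5)], [], [(3, 0, []),
      (6, 3, []), (7, 4, [1]), (8, 5, [1])]⟩,
    ⟨[(1, 3), (2, 3), (3, 4)], [(3, 1), (3, 3), (4, 3)], [(3, 3)], [7, 8], [(5, 3, []), (6,
      3, [])]⟩]
  Ta := [((2, 1), 0, 6), ((2, 4), 0, 1), ((3, 0), 0, 2), ((3, 8), 0, 5), ((5, 4), 3, 1), ((5, 9),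
    3, 7), ((6, 7), 3, 4), ((6, 10), 3, 8)]
  Tb := [((0, 1, 3), 2, 6, 0), ((1, 0, 2), 6, 2, 0), ((2, 1, 4), 0, 6, 1), ((3, 0, 8), 0, 2, 5),
    ((4, 2, 5), 1, 0, 3), ((5, 4, 9), 3, 1, 7), ((6, 7, 10), 3, 4, 8), ((7, 6, 8), 4, 3, 5),
    ((8, 3, 7), 5, 0, 4), ((9, 5, 10), 7, 3, 8), ((10, 6, 9), 8, 3, 7)]
  Tc := [(1, 4, 5)]
  Td := [((1, 4), (4, 2), 0), ((1, 4), (4, 5), 3), ((1, 5), (4, 2), 0), ((1, 5), (4, 5), 3), ((4,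
    1), (7, 6), 3), ((4, 1), (7, 8), 5), ((5, 1), (8, 3), 0), ((5, 1), (8, 7), 4)]
  G := [[0, 0xd171a447142b182cc, 0, 0xe272944e2b2588c, 0xa2f254444e84ae2b2588a], [0,
    0xd171a44d1b1688c, 0, 0xe272944e2b2588c, 0xa2b2542464248ae2b2588a], [0, 0,
    0xe272944721e2894c, 0xe2729441, 0xe2b25881], [0, 0, 0xf2418f2814f2144e, 0xe2b25881,
    0xe2b25881]]

noncomputable def n629 : Ent := ⟨e629, noF, [], [], [(7, 15, [1685356702439545624007900436039642273970977273354372543760002654209, 0]), (7, 16, [1580044410770988437309982408355971841652082177953823432505691680769, 0]), (16, 13, [1580044429602293643470024699863340111275081426260889765897795223553, 0])]⟩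

def c629 : PLift (Cov.check n629.C.D v629 = true) := ⟨by decide +kernel⟩

def b629 : PLift (entF (fidx ts) 400 629 n629 = true) := ⟨by decide +kernel⟩

theorem g629 : GoodF (fidx ts) 400 629 := GoodF.ofV v629 n629 c629.down b629.down

/-- 474754:553/2 -/
noncomputable def e630 : SCfg where
  D := {
    a := 6
    L := 8
    kp := 5
    inn := [(0, 1), (1, 0), (1, 2), (1, 3), (1, 4), (2, 1), (2, 3), (3, 1), (3, 2), (3, 5), (4, 1), (5,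
      3)]
    mix := [(0, 0), (0, 1), (0, 2), (1, 0), (1, 2), (1, 3), (2, 2), (2, 4), (3, 3), (3, 4), (3, 5), (3,
      6), (4, 0), (4, 3), (4, 6), (4, 7), (5, 1), (5, 4), (5, 5)]
    cl := [0, 4, 3, 0, 1, 2, 1, 5]
    chq := [(0, 3), (3, 0)]
    rng := [(0, 1), (0, 7), (1, 0), (1, 2), (1, 4), (1, 5), (2, 1), (2, 4), (3, 6), (4, 1), (4, 2), (5,
      1), (5, 6), (6, 3), (6, 5), (6, 7), (7, 0), (7, 6)]
    lev := [] }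
  links := [[1, 6, 7, 8], [6, 0, 8, 2, 3, 9, 4], [3, 1, 8, 10], [9, 1, 2, 10, 5, 11, 12], [6, 1, 9, 12,
    13], [11, 3, 10, 7]]
  P := {
    a := 6
    N := 14
    nb := [450, 861, 1290, 7718, 12866, 3208, 8339, 3425, 1159, 4122, 428, 4264, 10776, 4176]
    tri := [(0, 1, 6), (0, 1, 8), (0, 6, 7), (0, 7, 8), (1, 2, 3), (1, 2, 8), (1, 3, 9), (1, 4, 6), (1,
      4, 9), (2, 3, 10), (2, 8, 10), (3, 5, 10), (3, 5, 11), (3, 9, 12), (3, 11, 12), (4, 6, 13),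
      (4, 9, 12), (4, 12, 13), (5, 7, 10), (5, 7, 11)]
    fin := [0, 0, 0, 3, 0, 5, 0, 5, 8, 0, 3, 11, 3, 13]
    chd := [(0, 8)]
    steps := [(0, 1), (0, 2), (0, 4), (0, 6), (0, 9), (3, 10), (3, 12), (5, 7)] }
  rep := [0, 3, 11, 8, 5, 13]

noncomputable def v630 : Cov.CovD where
  P := 3
  N := 3
  pl := [1, 5, 7]
  lev := [⟨[], [], [(0, 3)], [4], [(0, 0, [3]), (2, 3, [0])]⟩,
    ⟨[], [(0, 0), (0, 3)], [(0, 0), (0, 3)], [], [(0, 0, [3]), (2, 3, [0]), (3, 0, [3])]⟩,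
    ⟨[(0, 1)], [(0, 3), (1, 0), (1, 1), (1, 3)], [(1, 3)], [], [(2, 3, [0]), (4, 1, [])]⟩,
    ⟨[(0, 1), (1, 2)], [(1, 0), (1, 1), (1, 3), (2, 0), (2, 1), (2, 3)], [(0, 1), (1, 1)],
      [2], [(3, 0, [3]), (4, 1, []), (6, 1, [])]⟩,
    ⟨[(0, 1), (1, 2), (1, 3)], [(0, 0), (1, 0), (1, 1), (1, 3), (3, 0), (3, 1)], [(0, 0),
      (0, 1)], [5], [(0, 0, [3]), (3, 0, [3]), (6, 1, [])]⟩,
    ⟨[(1, 3), (2, 3)], [(2, 1), (3, 0), (3, 1)], [], [2, 4], [(4, 1, [])]⟩]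
  Ta := [((0, 1), 0, 4), ((0, 7), 0, 5), ((3, 6), 0, 1), ((4, 1), 1, 4), ((4, 2), 1, 3), ((6, 3),
    1, 0), ((6, 5), 1, 2), ((6, 7), 1, 5)]
  Tb := [((0, 1, 7), 0, 4, 5), ((1, 0, 2), 4, 0, 3), ((1, 0, 4), 4, 0, 1), ((1, 0, 5), 4, 0, 2),
    ((1, 2, 4), 4, 3, 1), ((1, 2, 5), 4, 3, 2), ((1, 4, 5), 4, 1, 2), ((2, 1, 4), 3, 4, 1),
    ((4, 1, 2), 1, 4, 3), ((5, 1, 6), 2, 4, 1), ((6, 3, 5), 1, 0, 2), ((6, 3, 7), 1, 0, 5),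
    ((6, 5, 7), 1, 2, 5), ((7, 0, 6), 5, 0, 1)]
  Tc := []
  Td := [((0, 3), (0, 1), 4), ((0, 3), (0, 7), 5), ((0, 3), (3, 6), 1), ((3, 0), (2, 1), 4), ((3,
    0), (2, 4), 1)]
  G := [[0, 0, 0x824184281442488241ce, 0, 0x821888c1869281411c812e], [0, 0, 0x22c8122,
    0x5cc8122, 0x22c8122], [0, 0, 0x4281482844c24887, 0, 0x1281482844128187], [0,
    0x1164811c82a1, 0x22c4122, 0x11c8122, 0x22c8122]]

noncomputable def n630 : Ent := ⟨e630, noF, [], [], []⟩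

def c630 : PLift (Cov.check n630.C.D v630 = true) := ⟨by decide +kernel⟩

def b630 : PLift (entF (fidx ts) 400 630 n630 = true) := ⟨by decide +kernel⟩

theorem g630 : GoodF (fidx ts) 400 630 := GoodF.ofV v630 n630 c630.down b630.down

/-- 474754:553/1 -/
noncomputable def e631 : SCfg where
  D := {
    a := 6
    L := 9
    kp := 6
    inn := [(0, 1), (1, 0), (1, 2), (1, 3), (1, 4), (2, 1), (2, 3), (3, 1), (3, 2), (3, 5), (4, 1), (5,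
      3)]
    mix := [(0, 0), (0, 1), (0, 2), (1, 0), (1, 2), (1, 3), (2, 2), (2, 4), (3, 3), (3, 4), (3, 5), (3,
      6), (4, 0), (4, 3), (4, 7), (4, 8), (5, 1), (5, 4), (5, 5)]
    cl := [0, 2, 1, 0, 3, 4, 3, 5, 6]
    chq := [(0, 1), (1, 0)]
    rng := [(0, 1), (0, 8), (1, 0), (1, 2), (1, 4), (1, 5), (2, 1), (2, 4), (3, 6), (3, 7), (4, 1), (4,
      2), (5, 1), (5, 6), (6, 3), (6, 5), (7, 3), (7, 8), (8, 0), (8, 7)]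
    lev := [] }
  links := [[1, 6, 7, 8], [6, 0, 8, 2, 3, 9, 4], [3, 1, 8, 10], [9, 1, 2, 10, 5, 11, 12], [6, 1, 9, 13,
    14], [11, 3, 10, 7]]
  P := {
    a := 6
    N := 15
    nb := [450, 861, 1290, 7718, 25154, 3208, 16531, 3425, 1159, 12314, 428, 4264, 2568, 16912, 8272]
    tri := [(0, 1, 6), (0, 1, 8), (0, 6, 7), (0, 7, 8), (1, 2, 3), (1, 2, 8), (1, 3, 9), (1, 4, 6), (1,
      4, 9), (2, 3, 10), (2, 8, 10), (3, 5, 10), (3, 5, 11), (3, 9, 12), (3, 11, 12), (4, 6, 14),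
      (4, 9, 13), (4, 13, 14), (5, 7, 10), (5, 7, 11)]
    fin := [0, 0, 0, 3, 0, 5, 0, 5, 8, 0, 3, 11, 3, 13, 14]
    chd := [(0, 8)]
    steps := [(0, 1), (0, 2), (0, 4), (0, 6), (0, 9), (3, 10), (3, 12), (5, 7)] }
  rep := [0, 8, 5, 3, 11, 13, 14]

noncomputable def v631 : Cov.CovD where
  P := 3
  N := 4
  pl := [1, 5, 7, 8]
  lev := [⟨[], [], [(0, 1)], [2], [(0, 0, [1]), (2, 1, [0])]⟩,
    ⟨[], [(0, 0), (0, 1)], [(0, 0), (0, 1)], [], [(0, 0, [1]), (2, 1, [0]), (3, 0, [1])]⟩,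
    ⟨[(0, 1)], [(0, 1), (1, 0), (1, 1), (1, 3)], [(1, 3)], [], [(2, 1, [0]), (4, 3, [])]⟩,
    ⟨[(0, 1), (1, 2)], [(1, 0), (1, 1), (1, 3), (2, 0), (2, 1), (2, 3)], [(0, 3), (3, 3)],
      [4], [(3, 0, [1]), (4, 3, []), (6, 3, [])]⟩,
    ⟨[(0, 1), (1, 2), (1, 3)], [(0, 0), (1, 0), (1, 1), (3, 0)], [(0, 0)], [5, 6], [(0, 0,
      [1]), (3, 0, [1])]⟩,
    ⟨[(1, 3), (2, 3)], [(2, 3), (3, 0), (3, 3)], [], [2, 4], [(4, 3, [])]⟩]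
  Ta := [((0, 1), 0, 2), ((0, 8), 0, 6), ((3, 6), 0, 3), ((3, 7), 0, 5), ((4, 1), 3, 2), ((4, 2),
    3, 1), ((6, 3), 3, 0), ((6, 5), 3, 4)]
  Tb := [((0, 1, 8), 0, 2, 6), ((1, 0, 2), 2, 0, 1), ((1, 0, 4), 2, 0, 3), ((1, 0, 5), 2, 0, 4),
    ((1, 2, 4), 2, 1, 3), ((1, 2, 5), 2, 1, 4), ((1, 4, 5), 2, 3, 4), ((2, 1, 4), 1, 2, 3),
    ((3, 6, 7), 0, 3, 5), ((4, 1, 2), 3, 2, 1), ((5, 1, 6), 4, 2, 3), ((6, 3, 5), 3, 0, 4),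
    ((7, 3, 8), 5, 0, 6), ((8, 0, 7), 6, 0, 5)]
  Tc := []
  Td := [((0, 1), (0, 1), 2), ((0, 1), (0, 8), 6), ((0, 1), (3, 6), 3), ((0, 1), (3, 7), 5), ((1,
    0), (2, 1), 2), ((1, 0), (2, 4), 3)]
  G := [[0, 0x1221888e444e11ce168, 0xa41464e1c88a22aa1c4, 0xddde2184, 0x1441888e11a222ee1c8],
    [0, 0x996888e3482684, 0xaaae1484, 0x99ce2148, 0x844111a822e61c8], [0,
    0x1222888e444e11ce168, 0, 0xddde2181, 0x111e222e61888e81c1], [0, 0x555e444e3848, 0,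
    0x555e2848, 0x844411a222e68c8]]

noncomputable def n631 : Ent := ⟨e631, noF, [], [], [(12, 13, [87897818358406171357428020359653357189577334862559920480257, 0])]⟩

def c631 : PLift (Cov.check n631.C.D v631 = true) := ⟨by decide +kernel⟩

def b631 : PLift (entF (fidx ts) 400 631 n631 = true) := ⟨by decide +kernel⟩

theorem g631 : GoodF (fidx ts) 400 631 := GoodF.ofV v631 n631 c631.down b631.down

/-- 474754:553/3 -/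
noncomputable def e632 : SCfg where
  D := {
    a := 6
    L := 9
    kp := 6
    inn := [(0, 1), (1, 0), (1, 2), (1, 3), (1, 4), (2, 1), (2, 3), (3, 1), (3, 2), (3, 5), (4, 1), (5,
      3)]
    mix := [(0, 0), (0, 1), (0, 2), (1, 0), (1, 2), (1, 3), (2, 2), (2, 4), (3, 3), (3, 4), (3, 5), (3,
      6), (4, 0), (4, 3), (4, 7), (4, 8), (5, 4), (5, 5), (5, 8)]
    cl := [0, 5, 2, 0, 1, 3, 1, 6, 4]
    chq := [(0, 2), (2, 0)]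
    rng := [(0, 1), (0, 8), (1, 0), (1, 2), (2, 1), (2, 4), (3, 6), (3, 7), (4, 2), (4, 8), (5, 6), (5,
      8), (6, 3), (6, 5), (7, 3), (7, 8), (8, 0), (8, 4), (8, 5), (8, 7)]
    lev := [] }
  links := [[1, 6, 7, 8], [6, 0, 8, 2, 3, 9, 4], [3, 1, 8, 10], [9, 1, 2, 10, 5, 11, 12], [6, 1, 9, 13,
    14], [11, 3, 10, 14]]
  P := {
    a := 6
    N := 15
    nb := [450, 861, 1290, 7718, 25154, 19464, 16531, 321, 1159, 12314, 16684, 20520, 2568, 16912,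
      11376]
    tri := [(0, 1, 6), (0, 1, 8), (0, 6, 7), (0, 7, 8), (1, 2, 3), (1, 2, 8), (1, 3, 9), (1, 4, 6), (1,
      4, 9), (2, 3, 10), (2, 8, 10), (3, 5, 10), (3, 5, 11), (3, 9, 12), (3, 11, 12), (4, 6, 14),
      (4, 9, 13), (4, 13, 14), (5, 10, 14), (5, 11, 14)]
    fin := [0, 0, 0, 3, 0, 3, 0, 7, 8, 0, 3, 11, 3, 13, 14]
    chd := [(0, 8)]
    steps := [(0, 1), (0, 2), (0, 4), (0, 6), (0, 9), (3, 5), (3, 10), (3, 12)] }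
  rep := [0, 3, 8, 11, 14, 7, 13]

noncomputable def v632 : Cov.CovD where
  P := 3
  N := 4
  pl := [1, 5, 7, 8]
  lev := [⟨[], [], [(0, 2)], [5], [(0, 0, [2]), (2, 2, [0])]⟩,
    ⟨[], [(0, 0), (0, 2)], [(0, 0), (0, 2)], [], [(0, 0, [2]), (2, 2, [0]), (3, 0, [2])]⟩,
    ⟨[(0, 1)], [(0, 2), (1, 0), (1, 1), (1, 2)], [(1, 2)], [], [(2, 2, [0]), (4, 1, [])]⟩,
    ⟨[(0, 1), (1, 2)], [(1, 0), (1, 1), (1, 2), (2, 0), (2, 1), (2, 2)], [(0, 1), (1, 1)],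
      [3], [(3, 0, [2]), (4, 1, []), (6, 1, [])]⟩,
    ⟨[(0, 1), (1, 2), (1, 3)], [(0, 0), (1, 0), (1, 2), (3, 0)], [(0, 0)], [4, 6], [(0, 0,
      [2]), (3, 0, [2])]⟩,
    ⟨[(1, 3), (2, 3)], [(2, 1), (3, 0), (3, 1)], [], [3, 4], [(4, 1, [])]⟩]
  Ta := [((0, 1), 0, 5), ((0, 8), 0, 4), ((3, 6), 0, 1), ((3, 7), 0, 6), ((4, 2), 1, 2), ((4, 8),
    1, 4), ((6, 3), 1, 0), ((6, 5), 1, 3)]
  Tb := [((0, 1, 8), 0, 5, 4), ((1, 0, 2), 5, 0, 2), ((2, 1, 4), 2, 5, 1), ((3, 6, 7), 0, 1, 6),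
    ((4, 2, 8), 1, 2, 4), ((5, 6, 8), 3, 1, 4), ((6, 3, 5), 1, 0, 3), ((7, 3, 8), 6, 0, 4),
    ((8, 0, 4), 4, 0, 1), ((8, 0, 5), 4, 0, 3), ((8, 0, 7), 4, 0, 6), ((8, 4, 5), 4, 1, 3),
    ((8, 4, 7), 4, 1, 6), ((8, 5, 7), 4, 3, 6)]
  Tc := []
  Td := [((0, 2), (0, 1), 5), ((0, 2), (0, 8), 4), ((0, 2), (3, 6), 1), ((0, 2), (3, 7), 6), ((2,
    0), (2, 1), 5), ((2, 0), (2, 4), 1)]
  G := [[0, 0, 0x815e149ec12815e92c114c4166, 0x45641819e18c1c45641418cc89a81cc,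
    0x145e4819e8924d6411618c988c81aa], [0, 0, 0x853e842222e182426412a8c98e, 0,
    0x842e22ee5824262e6588828c1aa], [0, 0, 0x85de111ec42819e8145e452c, 0x145e41819e81c1,
    0x819e145ec121], [0, 0x111e111ea841, 0x241842e11ac92122e211ec42c, 0, 0x822e111ec121]]

noncomputable def n632 : Ent := ⟨e632, noF, [], [], []⟩

def c632 : PLift (Cov.check n632.C.D v632 = true) := ⟨by decide +kernel⟩

def b632 : PLift (entF (fidx ts) 400 632 n632 = true) := ⟨by decide +kernel⟩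

theorem g632 : GoodF (fidx ts) 400 632 := GoodF.ofV v632 n632 c632.down b632.down

/-- 474754:553/4 -/
noncomputable def e633 : SCfg where
  D := {
    a := 6
    L := 9
    kp := 6
    inn := [(0, 1), (1, 0), (1, 2), (1, 3), (1, 4), (2, 1), (2, 3), (3, 1), (3, 2), (3, 5), (4, 1), (5,
      3)]
    mix := [(0, 0), (0, 1), (0, 2), (1, 0), (1, 2), (1, 3), (2, 2), (2, 4), (3, 3), (3, 4), (3, 5), (3,
      6), (4, 0), (4, 3), (4, 6), (4, 7), (5, 4), (5, 5), (5, 8)]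
    cl := [0, 4, 2, 0, 1, 3, 1, 5, 6]
    chq := [(0, 2), (2, 0)]
    rng := [(0, 1), (0, 7), (1, 0), (1, 2), (2, 1), (2, 4), (3, 6), (4, 2), (4, 8), (5, 6), (5, 8), (6,
      3), (6, 5), (6, 7), (7, 0), (7, 6), (8, 4), (8, 5)]
    lev := [] }
  links := [[1, 6, 7, 8], [6, 0, 8, 2, 3, 9, 4], [3, 1, 8, 10], [9, 1, 2, 10, 5, 11, 12], [6, 1, 9, 12,
    13], [11, 3, 10, 14]]
  P := {
    a := 6
    N := 15
    nb := [450, 861, 1290, 7718, 12866, 19464, 8339, 321, 1159, 4122, 16684, 20520, 10776, 4176, 3104]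
    tri := [(0, 1, 6), (0, 1, 8), (0, 6, 7), (0, 7, 8), (1, 2, 3), (1, 2, 8), (1, 3, 9), (1, 4, 6), (1,
      4, 9), (2, 3, 10), (2, 8, 10), (3, 5, 10), (3, 5, 11), (3, 9, 12), (3, 11, 12), (4, 6, 13),
      (4, 9, 12), (4, 12, 13), (5, 10, 14), (5, 11, 14)]
    fin := [0, 0, 0, 3, 0, 3, 0, 7, 8, 0, 3, 11, 3, 13, 14]
    chd := [(0, 8)]
    steps := [(0, 1), (0, 2), (0, 4), (0, 6), (0, 9), (3, 5), (3, 10), (3, 12)] }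
  rep := [0, 3, 8, 11, 7, 13, 14]

noncomputable def v633 : Cov.CovD where
  P := 3
  N := 4
  pl := [1, 5, 7, 8]
  lev := [⟨[], [], [(0, 2)], [4], [(0, 0, [2]), (2, 2, [0])]⟩,
    ⟨[], [(0, 0), (0, 2)], [(0, 0), (0, 2)], [], [(0, 0, [2]), (2, 2, [0]), (3, 0, [2])]⟩,
    ⟨[(0, 1)], [(0, 2), (1, 0), (1, 1), (1, 2)], [(1, 2)], [], [(2, 2, [0]), (4, 1, [])]⟩,
    ⟨[(0, 1), (1, 2)], [(1, 0), (1, 1), (1, 2), (2, 0), (2, 1), (2, 2)], [(0, 1), (1, 1)],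
      [3], [(3, 0, [2]), (4, 1, []), (6, 1, [])]⟩,
    ⟨[(0, 1), (1, 2), (1, 3)], [(0, 0), (1, 0), (1, 1), (1, 2), (3, 0), (3, 1)], [(0, 0),
      (0, 1)], [5], [(0, 0, [2]), (3, 0, [2]), (6, 1, [])]⟩,
    ⟨[(1, 3), (2, 3)], [(2, 1), (3, 0), (3, 1)], [], [3, 6], [(4, 1, [])]⟩]
  Ta := [((0, 1), 0, 4), ((0, 7), 0, 5), ((3, 6), 0, 1), ((4, 2), 1, 2), ((4, 8), 1, 6), ((6, 3),
    1, 0), ((6, 5), 1, 3), ((6, 7), 1, 5)]
  Tb := [((0, 1, 7), 0, 4, 5), ((1, 0, 2), 4, 0, 2), ((2, 1, 4), 2, 4, 1), ((4, 2, 8), 1, 2, 6),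
    ((5, 6, 8), 3, 1, 6), ((6, 3, 5), 1, 0, 3), ((6, 3, 7), 1, 0, 5), ((6, 5, 7), 1, 3, 5),
    ((7, 0, 6), 5, 0, 1), ((8, 4, 5), 6, 1, 3)]
  Tc := []
  Td := [((0, 2), (0, 1), 4), ((0, 2), (0, 7), 5), ((0, 2), (3, 6), 1), ((2, 0), (2, 1), 4), ((2,
    0), (2, 4), 1)]
  G := [[0, 0, 0x52419281c52419284c6, 0x5292c2d8452489281cc, 0x524199c81a99c55cc12a], [0, 0,
    0x22c5ecc8262caec984a, 0, 0xa44173c2898ae9c22cc12a], [0, 0, 0x124d2429c482112d2c98a,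
    0x52489281c1, 0x524199c81a1], [0, 0x141812e481, 0xcac26c94226ceac9846, 0, 0x69c32cc121]]

noncomputable def n633 : Ent := ⟨e633, noF, [], [], [(7, 14, [81620716623019490593592230936445690773474979418095885967361, 0])]⟩

def c633 : PLift (Cov.check n633.C.D v633 = true) := ⟨by decide +kernel⟩

def b633 : PLift (entF (fidx ts) 400 633 n633 = true) := ⟨by decide +kernel⟩

theorem g633 : GoodF (fidx ts) 400 633 := GoodF.ofV v633 n633 c633.down b633.down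

/-- 474754:553 -/
noncomputable def e634 : SCfg where
  D := {
    a := 6
    L := 10
    kp := 7
    inn := [(0, 1), (1, 0), (1, 2), (1, 3), (1, 4), (2, 1), (2, 3), (3, 1), (3, 2), (3, 5), (4, 1), (5,
      3)]
    mix := [(0, 0), (0, 1), (0, 2), (1, 0), (1, 2), (1, 3), (2, 2), (2, 4), (3, 3), (3, 4), (3, 5), (3,
      6), (4, 0), (4, 3), (4, 7), (4, 8), (5, 4), (5, 5), (5, 9)]
    cl := [0, 4, 2, 0, 1, 3, 1, 5, 6, 7]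
    chq := [(0, 2), (2, 0)]
    rng := [(0, 1), (0, 8), (1, 0), (1, 2), (2, 1), (2, 4), (3, 6), (3, 7), (4, 2), (4, 9), (5, 6), (5,
      9), (6, 3), (6, 5), (7, 3), (7, 8), (8, 0), (8, 7), (9, 4), (9, 5)]
    lev := [] }
  links := [[1, 6, 7, 8], [6, 0, 8, 2, 3, 9, 4], [3, 1, 8, 10], [9, 1, 2, 10, 5, 11, 12], [6, 1, 9, 13,
    14], [11, 3, 10, 15]]
  P := {
    a := 6
    N := 16
    nb := [450, 861, 1290, 7718, 25154, 35848, 16531, 321, 1159, 12314, 33068, 36904, 2568, 16912,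
      8272, 3104]
    tri := [(0, 1, 6), (0, 1, 8), (0, 6, 7), (0, 7, 8), (1, 2, 3), (1, 2, 8), (1, 3, 9), (1, 4, 6), (1,
      4, 9), (2, 3, 10), (2, 8, 10), (3, 5, 10), (3, 5, 11), (3, 9, 12), (3, 11, 12), (4, 6, 14),
      (4, 9, 13), (4, 13, 14), (5, 10, 15), (5, 11, 15)]
    fin := [0, 0, 0, 3, 0, 3, 0, 7, 8, 0, 3, 11, 3, 13, 14, 15]
    chd := [(0, 8)]
    steps := [(0, 1), (0, 2), (0, 4), (0, 6), (0, 9), (3, 5), (3, 10), (3, 12)] }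
  rep := [0, 3, 8, 11, 7, 13, 14, 15]

noncomputable def v634 : Cov.CovD where
  P := 3
  N := 5
  pl := [1, 5, 7, 8, 9]
  lev := [⟨[], [], [(0, 2)], [4], [(0, 0, [2]), (2, 2, [0])]⟩,
    ⟨[], [(0, 0), (0, 2)], [(0, 0), (0, 2)], [], [(0, 0, [2]), (2, 2, [0]), (3, 0, [2])]⟩,
    ⟨[(0, 1)], [(0, 2), (1, 0), (1, 1), (1, 2)], [(1, 2)], [], [(2, 2, [0]), (4, 1, [])]⟩,
    ⟨[(0, 1), (1, 2)], [(1, 0), (1, 1), (1, 2), (2, 0), (2, 1), (2, 2)], [(0, 1), (1, 1)],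
      [3], [(3, 0, [2]), (4, 1, []), (6, 1, [])]⟩,
    ⟨[(0, 1), (1, 2), (1, 3)], [(0, 0), (1, 0), (1, 2), (3, 0)], [(0, 0)], [5, 6], [(0, 0,
      [2]), (3, 0, [2])]⟩,
    ⟨[(1, 3), (2, 3)], [(2, 1), (3, 0), (3, 1)], [], [3, 7], [(4, 1, [])]⟩]
  Ta := [((0, 1), 0, 4), ((0, 8), 0, 6), ((3, 6), 0, 1), ((3, 7), 0, 5), ((4, 2), 1, 2), ((4, 9),
    1, 7), ((6, 3), 1, 0), ((6, 5), 1, 3)]
  Tb := [((0, 1, 8), 0, 4, 6), ((1, 0, 2), 4, 0, 2), ((2, 1, 4), 2, 4, 1), ((3, 6, 7), 0, 1, 5),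
    ((4, 2, 9), 1, 2, 7), ((5, 6, 9), 3, 1, 7), ((6, 3, 5), 1, 0, 3), ((7, 3, 8), 5, 0, 6),
    ((8, 0, 7), 6, 0, 5), ((9, 4, 5), 7, 1, 3)]
  Tc := []
  Td := [((0, 2), (0, 1), 4), ((0, 2), (0, 8), 6), ((0, 2), (3, 6), 1), ((0, 2), (3, 7), 5), ((2,
    0), (2, 1), 4), ((2, 0), (2, 4), 1)]
  G := [[0, 0, 0x999e555ec1242199de12c555c4866, 0x55641481d99e18c9cc461548591e4d9da81cc,
    0x999e555ec128211255dec999c81aa], [0, 0, 0xccce222e942222e1ccce8a4a, 0,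
    0x267e532ec8222615cce4a2888aa], [0, 0, 0x454e4999e11acc2999e555ec12c, 0x555e41999e81c1,
    0x999e555ec121], [0, 0x11c11a116e841, 0x299ee22ec12323baea2cd48a, 0, 0x222ee55ec121]]

noncomputable def n634 : Ent := ⟨e634, noF, [], [], [(7, 15, [360035742630636841211993100915356868655746945586763691010256897, 0]), (15, 14, [385746751338780685620664494392815470296102193487288376375083009, 0]), (12, 13, [385753028440516072301428330182238677962518295842732840409600001, 0])]⟩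

def c634 : PLift (Cov.check n634.C.D v634 = true) := ⟨by decide +kernel⟩

def b634 : PLift (entF (fidx ts) 400 634 n634 = true) := ⟨by decide +kernel⟩

theorem g634 : GoodF (fidx ts) 400 634 := GoodF.ofV v634 n634 c634.down b634.down

/-- 474674:566/2 -/
noncomputable def e635 : SCfg where
  D := {
    a := 6
    L := 8
    kp := 5
    inn := [(0, 1), (1, 0), (1, 2), (1, 3), (2, 1), (2, 3), (2, 4), (3, 1), (3, 2), (3, 4), (4, 2), (4,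
      3), (4, 5), (5, 4)]
    mix := [(0, 0), (0, 1), (0, 2), (1, 0), (1, 2), (1, 3), (1, 4), (2, 2), (3, 3), (3, 5), (3, 6), (4,
      1), (4, 2), (4, 5), (4, 7), (5, 0), (5, 1), (5, 7)]
    cl := [2, 1, 0, 0, 4, 1, 5, 3]
    chq := [(0, 2), (2, 0)]
    rng := [(0, 1), (0, 4), (0, 7), (1, 0), (1, 2), (2, 1), (3, 4), (3, 6), (4, 0), (4, 3), (5, 6), (5,
      7), (6, 3), (6, 5), (7, 0), (7, 5)]
    lev := [] }
  links := [[1, 6, 7, 8], [6, 0, 8, 2, 3, 9, 10], [3, 1, 8, 4], [9, 1, 2, 4, 11, 12], [11, 3, 2, 8, 7, 5,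
    13], [13, 4, 7, 6]]
  P := {
    a := 6
    N := 14
    nb := [450, 1869, 282, 6678, 10668, 8400, 9379, 369, 151, 5130, 578, 12312, 2568, 2160]
    tri := [(0, 1, 6), (0, 1, 8), (0, 6, 7), (0, 7, 8), (1, 2, 3), (1, 2, 8), (1, 3, 9), (1, 6, 10),
      (1, 9, 10), (2, 3, 4), (2, 4, 8), (3, 4, 11), (3, 9, 12), (3, 11, 12), (4, 5, 7), (4, 5,
      13), (4, 7, 8), (4, 11, 13), (5, 6, 7), (5, 6, 13)]
    fin := [0, 0, 2, 2, 4, 0, 0, 4, 2, 2, 10, 4, 12, 13]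
    chd := [(0, 2)]
    steps := [(0, 1), (0, 6), (0, 5), (2, 3), (2, 8), (2, 9), (4, 7), (4, 11)] }
  rep := [2, 4, 0, 13, 10, 12]

noncomputable def v635 : Cov.CovD where
  P := 3
  N := 3
  pl := [4, 6, 7]
  lev := [⟨[], [], [(0, 1), (0, 2), (1, 2)], [], [(0, 2, [0]), (1, 1, []), (2, 0, [2])]⟩,
    ⟨[], [(0, 0), (0, 1), (0, 2)], [(0, 0), (0, 2)], [4], [(0, 2, [0]), (2, 0, [2]), (3, 0,
      [2])]⟩,
    ⟨[(0, 1)], [(0, 0), (1, 0), (1, 2)], [], [], [(2, 0, [2])]⟩,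
    ⟨[(0, 1), (1, 2)], [(1, 0), (1, 1), (1, 2), (2, 0), (2, 1)], [(0, 1)], [5], [(3, 0,
      [2]), (5, 1, [])]⟩,
    ⟨[(1, 2), (1, 3), (2, 3)], [(0, 0), (0, 1), (1, 0), (2, 0), (2, 1), (3, 0), (3, 1)],
      [(0, 1), (1, 1)], [3], [(1, 1, []), (2, 0, [2]), (5, 1, [])]⟩,
    ⟨[(2, 4), (3, 4)], [(0, 1), (0, 2), (1, 2), (4, 0), (4, 1), (4, 2)], [(1, 2)], [3],
      [(0, 2, [0]), (1, 1, [])]⟩]
  Ta := [((1, 0), 1, 2), ((1, 2), 1, 0), ((2, 1), 0, 1), ((3, 4), 0, 4), ((3, 6), 0, 5), ((5, 6),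
    1, 5), ((5, 7), 1, 3)]
  Tb := [((0, 1, 4), 2, 1, 4), ((0, 1, 7), 2, 1, 3), ((0, 4, 7), 2, 4, 3), ((1, 0, 2), 1, 2, 0),
    ((3, 4, 6), 0, 4, 5), ((4, 0, 3), 4, 2, 0), ((5, 6, 7), 1, 5, 3), ((6, 3, 5), 5, 0, 1),
    ((7, 0, 5), 3, 2, 1)]
  Tc := []
  Td := [((0, 2), (2, 1), 1), ((0, 2), (3, 4), 4), ((0, 2), (3, 6), 5), ((2, 0), (0, 1), 1), ((2,
    0), (0, 4), 4), ((2, 0), (0, 7), 3)]
  G := [[0, 0x84a84a64486486a8c4, 0xc12414c1868, 0x14c1214c28c4, 0x81c2481c12a8], [0, 0,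
    0x11c1812c1868, 0, 0x82c1481c14a8], [0, 0, 0x11c1211c1268, 0x81c2148528c8,
    0x81c2419c81cc2a1], [0, 0, 0x81c1482c12a8, 0, 0x82521cc8298581cc28a]]

noncomputable def n635 : Ent := ⟨e635, noF, [], [], []⟩

def c635 : PLift (Cov.check n635.C.D v635 = true) := ⟨by decide +kernel⟩

def b635 : PLift (entF (fidx ts) 400 635 n635 = true) := ⟨by decide +kernel⟩

theorem g635 : GoodF (fidx ts) 400 635 := GoodF.ofV v635 n635 c635.down b635.down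

/-- 474674:566/1 -/
noncomputable def e636 : SCfg where
  D := {
    a := 6
    L := 9
    kp := 6
    inn := [(0, 1), (1, 0), (1, 2), (1, 3), (2, 1), (2, 3), (2, 4), (3, 1), (3, 2), (3, 4), (4, 2), (4,
      3), (4, 5), (5, 4)]
    mix := [(0, 0), (0, 1), (0, 2), (1, 0), (1, 2), (1, 3), (1, 4), (2, 2), (3, 3), (3, 5), (3, 6), (4,
      2), (4, 5), (4, 7), (4, 8), (5, 0), (5, 7), (5, 8)]
    cl := [2, 4, 0, 0, 5, 1, 6, 1, 3]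
    chq := [(4, 5), (5, 4)]
    rng := [(0, 1), (0, 4), (0, 7), (0, 8), (1, 0), (1, 2), (2, 1), (2, 7), (3, 4), (3, 6), (4, 0), (4,
      3), (5, 6), (5, 8), (6, 3), (6, 5), (7, 0), (7, 2), (8, 0), (8, 5)]
    lev := [] }
  links := [[1, 6, 7, 8], [6, 0, 8, 2, 3, 9, 10], [3, 1, 8, 4], [9, 1, 2, 4, 11, 12], [11, 3, 2, 8, 13,
    5, 14], [14, 4, 13, 6]]
  P := {
    a := 6
    N := 15
    nb := [450, 1869, 282, 6678, 26924, 24656, 25763, 321, 8343, 5130, 578, 20504, 2568, 368, 2160]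
    tri := [(0, 1, 6), (0, 1, 8), (0, 6, 7), (0, 7, 8), (1, 2, 3), (1, 2, 8), (1, 3, 9), (1, 6, 10),
      (1, 9, 10), (2, 3, 4), (2, 4, 8), (3, 4, 11), (3, 9, 12), (3, 11, 12), (4, 5, 13), (4, 5,
      14), (4, 8, 13), (4, 11, 14), (5, 6, 13), (5, 6, 14)]
    fin := [0, 0, 2, 2, 4, 5, 5, 0, 2, 2, 10, 4, 12, 4, 14]
    chd := [(0, 10)]
    steps := [(0, 1), (0, 7), (2, 3), (2, 8), (2, 9), (4, 13), (4, 11), (5, 6)] }
  rep := [2, 4, 5, 14, 0, 10, 12]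

noncomputable def v636 : Cov.CovD where
  P := 3
  N := 4
  pl := [0, 6, 8]
  lev := [⟨[], [], [(0, 4)], [2], [(1, 4, [5]), (2, 0, [])]⟩,
    ⟨[], [(0, 0), (0, 4), (0, 5)], [(0, 0), (0, 5)], [2], [(2, 0, []), (3, 0, []), (4, 5,
      [4])]⟩,
    ⟨[(0, 1)], [(0, 0), (1, 0), (1, 5)], [], [], [(2, 0, [])]⟩,
    ⟨[(0, 1), (1, 2)], [(1, 0), (1, 1), (1, 5), (2, 0), (2, 1)], [(0, 1)], [6], [(3, 0,
      []), (5, 1, [])]⟩,
    ⟨[(1, 2), (1, 3), (2, 3)], [(0, 0), (1, 0), (2, 0), (2, 1), (3, 0), (3, 1)], [(0, 1),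
      (1, 1)], [3], [(2, 0, []), (5, 1, []), (7, 1, [])]⟩,
    ⟨[(2, 4), (3, 4)], [(4, 0), (4, 1)], [], [2, 3], [(7, 1, [])]⟩]
  Ta := [((2, 1), 0, 4), ((2, 7), 0, 1), ((3, 4), 0, 5), ((3, 6), 0, 6), ((5, 6), 1, 6), ((5, 8),
    1, 3), ((7, 0), 1, 2), ((7, 2), 1, 0)]
  Tb := [((0, 1, 4), 2, 4, 5), ((0, 1, 7), 2, 4, 1), ((0, 1, 8), 2, 4, 3), ((0, 4, 7), 2, 5, 1),
    ((0, 4, 8), 2, 5, 3), ((0, 7, 8), 2, 1, 3), ((1, 0, 2), 4, 2, 0), ((2, 1, 7), 0, 4, 1),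
    ((3, 4, 6), 0, 5, 6), ((4, 0, 3), 5, 2, 0), ((5, 6, 8), 1, 6, 3), ((6, 3, 5), 6, 0, 1),
    ((7, 0, 2), 1, 2, 0), ((8, 0, 5), 3, 2, 1)]
  Tc := []
  Td := [((4, 5), (1, 0), 2), ((4, 5), (1, 2), 0), ((5, 4), (4, 0), 2), ((5, 4), (4, 3), 0)]
  G := [[0, 0, 0x24c12484c128c, 0, 0x81c12282c148a], [0, 0x48684ca2484a84c628c,
    0x441881a284c1246, 0x84c12481c128c, 0x81c14281c128a], [0, 0, 0x485882c4a2285829c48a, 0,
    0x818489421cc221c88c1446a3], [0, 0, 0x84c214485288c, 0x81c2414c28c1,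
    0x81c2419c88c1446a1]]

noncomputable def n636 : Ent := ⟨e636, noF, [], [], [(7, 13, [87897818358406171357428020359653357189577334862559920500737, 0])]⟩

def c636 : PLift (Cov.check n636.C.D v636 = true) := ⟨by decide +kernel⟩

def b636 : PLift (entF (fidx ts) 400 636 n636 = true) := ⟨by decide +kernel⟩

theorem g636 : GoodF (fidx ts) 400 636 := GoodF.ofV v636 n636 c636.down b636.down

/-- 474674:566/3 -/
noncomputable def e637 : SCfg where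
  D := {
    a := 6
    L := 9
    kp := 6
    inn := [(0, 1), (1, 0), (1, 2), (1, 3), (2, 1), (2, 3), (2, 4), (3, 1), (3, 2), (3, 4), (4, 2), (4,
      3), (4, 5), (5, 4)]
    mix := [(0, 0), (0, 1), (0, 2), (1, 0), (1, 2), (1, 3), (1, 4), (2, 2), (3, 3), (3, 5), (3, 6), (4,
      1), (4, 2), (4, 5), (4, 7), (5, 1), (5, 7), (5, 8)]
    cl := [2, 1, 0, 0, 4, 1, 5, 3, 6]
    chq := [(1, 4), (4, 1)]
    rng := [(0, 1), (0, 4), (1, 0), (1, 2), (1, 8), (2, 1), (3, 4), (3, 6), (4, 0), (4, 3), (5, 6), (5,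
      7), (6, 3), (6, 5), (7, 5), (7, 8), (8, 1), (8, 7)]
    lev := [] }
  links := [[1, 6, 7, 8], [6, 0, 8, 2, 3, 9, 10], [3, 1, 8, 4], [9, 1, 2, 4, 11, 12], [11, 3, 2, 8, 7, 5,
    13], [13, 4, 7, 14]]
  P := {
    a := 6
    N := 15
    nb := [450, 1869, 282, 6678, 10668, 24720, 1155, 16753, 151, 5130, 578, 12312, 2568, 18480, 8352]
    tri := [(0, 1, 6), (0, 1, 8), (0, 6, 7), (0, 7, 8), (1, 2, 3), (1, 2, 8), (1, 3, 9), (1, 6, 10),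
      (1, 9, 10), (2, 3, 4), (2, 4, 8), (3, 4, 11), (3, 9, 12), (3, 11, 12), (4, 5, 7), (4, 5,
      13), (4, 7, 8), (4, 11, 13), (5, 7, 14), (5, 13, 14)]
    fin := [0, 0, 2, 2, 0, 0, 6, 0, 2, 2, 10, 0, 12, 13, 14]
    chd := [(0, 10)]
    steps := [(0, 1), (0, 7), (0, 5), (2, 3), (2, 8), (0, 4), (0, 11), (2, 9)] }
  rep := [2, 0, 6, 13, 10, 12, 14]

noncomputable def v637 : Cov.CovD where
  P := 3
  N := 4
  pl := [0, 6, 7, 8]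
  lev := [⟨[], [], [(0, 1)], [2], [(1, 1, [4]), (2, 0, [])]⟩,
    ⟨[], [(0, 0), (0, 1), (0, 4)], [(0, 0), (0, 4)], [2], [(2, 0, []), (3, 0, []), (4, 4,
      [1])]⟩,
    ⟨[(0, 1)], [(0, 0), (1, 0), (1, 4)], [], [], [(2, 0, [])]⟩,
    ⟨[(0, 1), (1, 2)], [(1, 0), (1, 1), (1, 4), (2, 0), (2, 1)], [(0, 1)], [5], [(3, 0,
      []), (5, 1, [4])]⟩,
    ⟨[(1, 2), (1, 3), (2, 3)], [(0, 0), (0, 1), (1, 0), (2, 0), (2, 1), (3, 0), (3, 1)],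
      [(0, 1), (1, 1)], [3], [(1, 1, [4]), (2, 0, []), (5, 1, [4])]⟩,
    ⟨[(2, 4), (3, 4)], [(0, 1), (4, 0), (4, 1)], [], [3, 6], [(1, 1, [4])]⟩]
  Ta := [((1, 0), 1, 2), ((1, 2), 1, 0), ((1, 8), 1, 6), ((2, 1), 0, 1), ((3, 4), 0, 4), ((3, 6),
    0, 5), ((5, 6), 1, 5), ((5, 7), 1, 3)]
  Tb := [((0, 1, 4), 2, 1, 4), ((1, 0, 2), 1, 2, 0), ((1, 0, 8), 1, 2, 6), ((1, 2, 8), 1, 0, 6),
    ((3, 4, 6), 0, 4, 5), ((4, 0, 3), 4, 2, 0), ((5, 6, 7), 1, 5, 3), ((6, 3, 5), 5, 0, 1),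
    ((7, 5, 8), 3, 1, 6), ((8, 1, 7), 6, 1, 3)]
  Tc := []
  Td := [((1, 4), (1, 0), 2), ((1, 4), (1, 2), 0), ((1, 4), (1, 8), 6), ((1, 4), (5, 6), 5), ((1,
    4), (5, 7), 3), ((4, 1), (4, 0), 2), ((4, 1), (4, 3), 0)]
  G := [[0, 0xc6a4a6c2664a8a6ce2c8, 0x44191c1c28, 0x95c129815416c8, 0x541981c28], [0, 0,
    0x25c1828, 0, 0xe2c1428], [0, 0, 0x81d49c1dc14c528, 0x95c2195c21c8, 0x189d49cd414c528],
    [0, 0, 0xb252e9c424, 0, 0x3acc29c428]]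

noncomputable def n637 : Ent := ⟨e637, noF, [], [], [(6, 14, [81620716623019490593592230936445690773474979418095885987841, 0])]⟩

def c637 : PLift (Cov.check n637.C.D v637 = true) := ⟨by decide +kernel⟩

def b637 : PLift (entF (fidx ts) 400 637 n637 = true) := ⟨by decide +kernel⟩

theorem g637 : GoodF (fidx ts) 400 637 := GoodF.ofV v637 n637 c637.down b637.down

/-- 474674:566 -/
noncomputable def e638 : SCfg where
  D := {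
    a := 6
    L := 10
    kp := 7
    inn := [(0, 1), (1, 0), (1, 2), (1, 3), (2, 1), (2, 3), (2, 4), (3, 1), (3, 2), (3, 4), (4, 2), (4,
      3), (4, 5), (5, 4)]
    mix := [(0, 0), (0, 1), (0, 2), (1, 0), (1, 2), (1, 3), (1, 4), (2, 2), (3, 3), (3, 5), (3, 6), (4,
      2), (4, 5), (4, 7), (4, 8), (5, 7), (5, 8), (5, 9)]
    cl := [2, 4, 0, 0, 5, 1, 6, 1, 3, 7]
    chq := [(4, 5), (5, 4)]
    rng := [(0, 1), (0, 4), (1, 0), (1, 2), (2, 1), (2, 7), (3, 4), (3, 6), (4, 0), (4, 3), (5, 6), (5,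
      8), (6, 3), (6, 5), (7, 2), (7, 9), (8, 5), (8, 9), (9, 7), (9, 8)]
    lev := [] }
  links := [[1, 6, 7, 8], [6, 0, 8, 2, 3, 9, 10], [3, 1, 8, 4], [9, 1, 2, 4, 11, 12], [11, 3, 2, 8, 13,
    5, 14], [14, 4, 13, 15]]
  P := {
    a := 6
    N := 16
    nb := [450, 1869, 282, 6678, 26924, 57360, 1155, 321, 8343, 5130, 578, 20504, 2568, 33072, 34864,
      24608]
    tri := [(0, 1, 6), (0, 1, 8), (0, 6, 7), (0, 7, 8), (1, 2, 3), (1, 2, 8), (1, 3, 9), (1, 6, 10),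
      (1, 9, 10), (2, 3, 4), (2, 4, 8), (3, 4, 11), (3, 9, 12), (3, 11, 12), (4, 5, 13), (4, 5,
      14), (4, 8, 13), (4, 11, 14), (5, 13, 15), (5, 14, 15)]
    fin := [0, 0, 2, 2, 4, 4, 6, 0, 2, 2, 10, 4, 12, 4, 14, 15]
    chd := [(0, 10)]
    steps := [(0, 1), (0, 7), (2, 3), (2, 8), (2, 9), (4, 5), (4, 13), (4, 11)] }
  rep := [2, 4, 6, 14, 0, 10, 12, 15]

noncomputable def v638 : Cov.CovD where
  P := 3
  N := 5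
  pl := [0, 6, 8, 9]
  lev := [⟨[], [], [(0, 4)], [2], [(1, 4, [5]), (2, 0, [])]⟩,
    ⟨[], [(0, 0), (0, 4), (0, 5)], [(0, 0), (0, 5)], [2], [(2, 0, []), (3, 0, []), (4, 5,
      [4])]⟩,
    ⟨[(0, 1)], [(0, 0), (1, 0), (1, 5)], [], [], [(2, 0, [])]⟩,
    ⟨[(0, 1), (1, 2)], [(1, 0), (1, 1), (1, 5), (2, 0), (2, 1)], [(0, 1)], [6], [(3, 0,
      []), (5, 1, [])]⟩,
    ⟨[(1, 2), (1, 3), (2, 3)], [(0, 0), (1, 0), (2, 0), (2, 1), (3, 0), (3, 1)], [(0, 1),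
      (1, 1)], [3], [(2, 0, []), (5, 1, []), (7, 1, [])]⟩,
    ⟨[(2, 4), (3, 4)], [(4, 0), (4, 1)], [], [3, 7], [(7, 1, [])]⟩]
  Ta := [((2, 1), 0, 4), ((2, 7), 0, 1), ((3, 4), 0, 5), ((3, 6), 0, 6), ((5, 6), 1, 6), ((5, 8),
    1, 3), ((7, 2), 1, 0), ((7, 9), 1, 7)]
  Tb := [((0, 1, 4), 2, 4, 5), ((1, 0, 2), 4, 2, 0), ((2, 1, 7), 0, 4, 1), ((3, 4, 6), 0, 5, 6),
    ((4, 0, 3), 5, 2, 0), ((5, 6, 8), 1, 6, 3), ((6, 3, 5), 6, 0, 1), ((7, 2, 9), 1, 0, 7),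
    ((8, 5, 9), 3, 1, 7), ((9, 7, 8), 7, 1, 3)]
  Tc := []
  Td := [((4, 5), (1, 0), 2), ((4, 5), (1, 2), 0), ((5, 4), (4, 0), 2), ((5, 4), (4, 3), 0)]
  G := [[0, 0, 0x72c18492c128c, 0x92c1242bc148c, 0x72c18292c148a], [0xca662cc84a4c6a4a6c268c,
    0xca6a2c4e84e24ea6c628c, 0x15c1881a295c1246, 0x95c12495c128c, 0x44191c1c295c128a], [0, 0,
    0x72c63cc123a5c29c48a, 0xc29424a1848342bcc225c82cd, 0xe18482492cc263c892c46a3], [0, 0,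
    0x9825425495c218c, 0x44291c2c542982cc1, 0x8141c8295c2181dcd1cc22b]]

noncomputable def n638 : Ent := ⟨e638, noF, [], [], [(6, 15, [360035742630636841211993100915356868655746945586763691010277377, 0]), (7, 13, [385753028440516072301428330182238677962518295842732840409616385, 0])]⟩

def c638 : PLift (Cov.check n638.C.D v638 = true) := ⟨by decide +kernel⟩

def b638 : PLift (entF (fidx ts) 400 638 n638 = true) := ⟨by decide +kernel⟩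

theorem g638 : GoodF (fidx ts) 400 638 := GoodF.ofV v638 n638 c638.down b638.down

/-- 474675:567/3 -/
noncomputable def e639 : SCfg where
  D := {
    a := 6
    L := 8
    kp := 5
    inn := [(0, 1), (1, 0), (1, 2), (1, 3), (2, 1), (2, 3), (2, 4), (3, 1), (3, 2), (3, 4), (4, 2), (4,
      3), (4, 5), (5, 4)]
    mix := [(0, 0), (0, 1), (0, 2), (1, 0), (1, 2), (1, 3), (1, 4), (2, 2), (3, 3), (3, 5), (3, 6), (4,
      1), (4, 2), (4, 5), (4, 7), (5, 0), (5, 1), (5, 4), (5, 7)]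
    cl := [2, 1, 0, 0, 4, 3, 5, 1]
    chq := [(0, 2), (0, 3), (2, 0), (3, 0)]
    rng := [(0, 1), (0, 4), (1, 0), (1, 2), (2, 1), (3, 4), (3, 6), (4, 0), (4, 3), (4, 7), (5, 6), (5,
      7), (6, 3), (6, 5), (7, 4), (7, 5)]
    lev := [] }
  links := [[1, 6, 7, 8], [6, 0, 8, 2, 3, 9, 10], [3, 1, 8, 4], [9, 1, 2, 4, 11, 12], [11, 3, 2, 8, 7, 5,
    13], [13, 4, 7, 6, 10]]
  P := {
    a := 6
    N := 14
    nb := [450, 1869, 282, 6678, 10668, 9424, 1187, 369, 151, 5130, 8802, 12312, 2568, 3120]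
    tri := [(0, 1, 6), (0, 1, 8), (0, 6, 7), (0, 7, 8), (1, 2, 3), (1, 2, 8), (1, 3, 9), (1, 6, 10),
      (1, 9, 10), (2, 3, 4), (2, 4, 8), (3, 4, 11), (3, 9, 12), (3, 11, 12), (4, 5, 7), (4, 5,
      13), (4, 7, 8), (4, 11, 13), (5, 6, 7), (5, 6, 10), (5, 10, 13)]
    fin := [0, 0, 2, 2, 4, 0, 0, 4, 2, 2, 10, 11, 12, 4]
    chd := [(0, 2), (2, 11)]
    steps := [(0, 1), (0, 6), (0, 5), (2, 3), (2, 8), (2, 9), (4, 7), (4, 13)] }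
  rep := [2, 4, 0, 11, 10, 12]

noncomputable def v639 : Cov.CovD where
  P := 3
  N := 3
  pl := [4, 6]
  lev := [⟨[], [], [(0, 1), (0, 2), (1, 2)], [], [(0, 2, [0]), (1, 1, []), (2, 0, [2, 3])]⟩,
    ⟨[], [(0, 0), (0, 1), (0, 2)], [(0, 0), (0, 2)], [4], [(0, 2, [0]), (2, 0, [2, 3]), (3,
      0, [2, 3])]⟩,
    ⟨[(0, 1)], [(0, 0), (1, 0), (1, 2)], [], [], [(2, 0, [2, 3])]⟩,
    ⟨[(0, 1), (1, 2)], [(1, 0), (1, 2), (1, 3), (2, 0), (2, 3)], [(0, 3)], [5], [(3, 0, [2,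
      3]), (5, 3, [0])]⟩,
    ⟨[(1, 2), (1, 3), (2, 3)], [(0, 0), (0, 1), (1, 0), (2, 0), (2, 1), (2, 3), (3, 0), (3,
      1), (3, 3)], [(0, 1), (0, 3), (1, 1), (1, 3)], [], [(1, 1, []), (2, 0, [2, 3]), (5, 3,
      [0]), (7, 1, [])]⟩,
    ⟨[(2, 4), (3, 4)], [(0, 1), (0, 2), (1, 2), (4, 0), (4, 1), (4, 2), (4, 3)], [(1, 1),
      (1, 2)], [4], [(0, 2, [0]), (1, 1, []), (7, 1, [])]⟩]
  Ta := [((1, 0), 1, 2), ((1, 2), 1, 0), ((2, 1), 0, 1), ((3, 4), 0, 4), ((3, 6), 0, 5), ((7, 4),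
    1, 4), ((7, 5), 1, 3)]
  Tb := [((0, 1, 4), 2, 1, 4), ((1, 0, 2), 1, 2, 0), ((3, 4, 6), 0, 4, 5), ((4, 0, 3), 4, 2, 0),
    ((4, 0, 7), 4, 2, 1), ((4, 3, 7), 4, 0, 1), ((5, 6, 7), 3, 5, 1), ((6, 3, 5), 5, 0, 3),
    ((7, 4, 5), 1, 4, 3)]
  Tc := [(0, 2, 3)]
  Td := [((0, 2), (2, 1), 1), ((0, 2), (3, 4), 4), ((0, 2), (3, 6), 5), ((0, 3), (2, 1), 1), ((0,
    3), (3, 4), 4), ((0, 3), (3, 6), 5), ((2, 0), (0, 1), 1), ((2, 0), (0, 4), 4), ((3, 0),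
    (5, 6), 5), ((3, 0), (5, 7), 1)]
  G := [[0, 0x8861844c18c4, 0x11c1828, 0x14148872184844b2c4, 0x1414187828], [0, 0,
    0x41c1211c14a4, 0, 0x14883144614146181ca8], [0, 0, 0x11c1424, 0x185244144564889c8114c28c,
    0x8194118de188928], [0, 0, 0x84c1211c1864, 0, 0x8858481e281411c6188a23]]

noncomputable def n639 : Ent := ⟨e639, noF, [], [], []⟩

def c639 : PLift (Cov.check n639.C.D v639 = true) := ⟨by decide +kernel⟩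

def b639 : PLift (entF (fidx ts) 400 639 n639 = true) := ⟨by decide +kernel⟩

theorem g639 : GoodF (fidx ts) 400 639 := GoodF.ofV v639 n639 c639.down b639.down

/-- 474675:567/2 -/
noncomputable def e640 : SCfg where
  D := {
    a := 6
    L := 9
    kp := 6
    inn := [(0, 1), (1, 0), (1, 2), (1, 3), (2, 1), (2, 3), (2, 4), (3, 1), (3, 2), (3, 4), (4, 2), (4,
      3), (4, 5), (5, 4)]
    mix := [(0, 0), (0, 1), (0, 2), (1, 0), (1, 2), (1, 3), (1, 4), (2, 2), (3, 3), (3, 5), (3, 6), (4,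
      1), (4, 2), (4, 5), (4, 7), (5, 0), (5, 1), (5, 7), (5, 8)]
    cl := [2, 1, 0, 0, 5, 3, 4, 1, 6]
    chq := [(0, 2), (1, 4), (2, 0), (4, 1)]
    rng := [(0, 1), (0, 4), (0, 8), (1, 0), (1, 2), (2, 1), (3, 4), (3, 6), (4, 0), (4, 3), (5, 6), (5,
      7), (6, 3), (6, 5), (7, 5), (7, 8), (8, 0), (8, 7)]
    lev := [] }
  links := [[1, 6, 7, 8], [6, 0, 8, 2, 3, 9, 10], [3, 1, 8, 4], [9, 1, 2, 4, 11, 12], [11, 3, 2, 8, 7, 5,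
    13], [13, 4, 7, 6, 14]]
  P := {
    a := 6
    N := 15
    nb := [450, 1869, 282, 6678, 10668, 24784, 17571, 369, 151, 5130, 578, 12312, 2568, 18480, 8288]
    tri := [(0, 1, 6), (0, 1, 8), (0, 6, 7), (0, 7, 8), (1, 2, 3), (1, 2, 8), (1, 3, 9), (1, 6, 10),
      (1, 9, 10), (2, 3, 4), (2, 4, 8), (3, 4, 11), (3, 9, 12), (3, 11, 12), (4, 5, 7), (4, 5,
      13), (4, 7, 8), (4, 11, 13), (5, 6, 7), (5, 6, 14), (5, 13, 14)]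
    fin := [0, 1, 2, 2, 2, 0, 0, 2, 1, 1, 10, 11, 12, 2, 14]
    chd := [(0, 1), (2, 12)]
    steps := [(0, 6), (0, 5), (1, 8), (1, 9), (2, 3), (2, 4), (2, 7), (2, 13)] }
  rep := [1, 2, 0, 11, 12, 10, 14]

noncomputable def v640 : Cov.CovD where
  P := 3
  N := 4
  pl := [4, 5, 8]
  lev := [⟨[], [], [(0, 1), (0, 2), (1, 2)], [], [(0, 2, [0]), (1, 1, [4]), (2, 0, [2])]⟩,
    ⟨[], [(0, 0), (0, 1), (0, 2)], [(0, 0), (0, 2)], [5], [(0, 2, [0]), (2, 0, [2]), (3, 0,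
      [2])]⟩,
    ⟨[(0, 1)], [(0, 0), (1, 0), (1, 2)], [], [], [(2, 0, [2])]⟩,
    ⟨[(0, 1), (1, 2)], [(1, 0), (1, 2), (1, 4), (2, 0), (2, 4)], [(0, 4)], [3], [(3, 0,
      [2]), (6, 4, [1])]⟩,
    ⟨[(1, 2), (1, 3), (2, 3)], [(0, 0), (0, 1), (1, 0), (2, 0), (2, 1), (3, 0), (3, 1), (3,
      4)], [(0, 1), (1, 1)], [3], [(1, 1, [4]), (2, 0, [2]), (7, 1, [4])]⟩,
    ⟨[(2, 4), (3, 4)], [(0, 1), (0, 2), (1, 2), (4, 0), (4, 1), (4, 2)], [(1, 1), (1, 2)],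
      [6], [(0, 2, [0]), (1, 1, [4]), (7, 1, [4])]⟩]
  Ta := [((1, 0), 1, 2), ((1, 2), 1, 0), ((2, 1), 0, 1), ((3, 4), 0, 5), ((3, 6), 0, 4), ((7, 5),
    1, 3), ((7, 8), 1, 6)]
  Tb := [((0, 1, 4), 2, 1, 5), ((0, 1, 8), 2, 1, 6), ((0, 4, 8), 2, 5, 6), ((1, 0, 2), 1, 2, 0),
    ((3, 4, 6), 0, 5, 4), ((4, 0, 3), 5, 2, 0), ((5, 6, 7), 3, 4, 1), ((6, 3, 5), 4, 0, 3),
    ((7, 5, 8), 1, 3, 6), ((8, 0, 7), 6, 2, 1)]
  Tc := []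
  Td := [((0, 2), (2, 1), 1), ((0, 2), (3, 4), 5), ((0, 2), (3, 6), 4), ((1, 4), (1, 0), 2), ((1,
    4), (1, 2), 0), ((1, 4), (7, 5), 3), ((1, 4), (7, 8), 6), ((2, 0), (0, 1), 1), ((2, 0),
    (0, 4), 5), ((2, 0), (0, 8), 6), ((4, 1), (6, 3), 0), ((4, 1), (6, 5), 3)]
  G := [[0, 0xccc12cc618c4, 0x11c2111c28c8, 0x59c2259c28c4, 0x99c24949499cd2a8], [0, 0,
    0x142181a141838c2, 0, 0x98943494494983ca8], [0, 0, 0x11c2111c28c4, 0x9c9229cc22c8,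
    0x99c218194198de188aa8], [0, 0, 0x142181c181438c2, 0, 0x81822949899ce41899ca9446a9]]

noncomputable def n640 : Ent := ⟨e640, noF, [], [], [(14, 10, [81620716623384866002924956665996611981654050173009869139969, 0])]⟩

def c640 : PLift (Cov.check n640.C.D v640 = true) := ⟨by decide +kernel⟩

def b640 : PLift (entF (fidx ts) 400 640 n640 = true) := ⟨by decide +kernel⟩

theorem g640 : GoodF (fidx ts) 400 640 := GoodF.ofV v640 n640 c640.down b640.down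

/-- 474675:567/4 -/
noncomputable def e641 : SCfg where
  D := {
    a := 6
    L := 9
    kp := 6
    inn := [(0, 1), (1, 0), (1, 2), (1, 3), (2, 1), (2, 3), (2, 4), (3, 1), (3, 2), (3, 4), (4, 2), (4,
      3), (4, 5), (5, 4)]
    mix := [(0, 0), (0, 1), (0, 2), (1, 0), (1, 2), (1, 3), (1, 4), (2, 2), (3, 3), (3, 5), (3, 6), (4,
      2), (4, 5), (4, 7), (4, 8), (5, 0), (5, 4), (5, 7), (5, 8)]
    cl := [3, 6, 0, 0, 2, 4, 5, 1, 1]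
    chq := [(0, 3), (1, 5), (3, 0), (5, 1)]
    rng := [(0, 1), (0, 4), (0, 7), (1, 0), (1, 2), (2, 1), (2, 7), (3, 4), (3, 6), (4, 0), (4, 3), (4,
      8), (5, 6), (5, 8), (6, 3), (6, 5), (7, 0), (7, 2), (8, 4), (8, 5)]
    lev := [] }
  links := [[1, 6, 7, 8], [6, 0, 8, 2, 3, 9, 10], [3, 1, 8, 4], [9, 1, 2, 4, 11, 12], [11, 3, 2, 8, 13,
    5, 14], [14, 4, 13, 6, 10]]
  P := {
    a := 6
    N := 15
    nb := [450, 1869, 282, 6678, 26924, 25680, 9379, 321, 8343, 5130, 16994, 20504, 2568, 368, 3120]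
    tri := [(0, 1, 6), (0, 1, 8), (0, 6, 7), (0, 7, 8), (1, 2, 3), (1, 2, 8), (1, 3, 9), (1, 6, 10),
      (1, 9, 10), (2, 3, 4), (2, 4, 8), (3, 4, 11), (3, 9, 12), (3, 11, 12), (4, 5, 13), (4, 5,
      14), (4, 8, 13), (4, 11, 14), (5, 6, 10), (5, 6, 13), (5, 10, 14)]
    fin := [0, 1, 1, 3, 3, 0, 0, 7, 1, 1, 10, 11, 12, 3, 3]
    chd := [(0, 1), (12, 3)]
    steps := [(0, 6), (0, 5), (1, 2), (1, 8), (1, 9), (3, 4), (3, 13), (3, 14)] }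
  rep := [1, 3, 10, 0, 11, 12, 7]

noncomputable def v641 : Cov.CovD where
  P := 3
  N := 4
  pl := [1, 4, 5]
  lev := [⟨[], [], [(0, 3)], [6], [(0, 3, [0]), (2, 0, [3])]⟩,
    ⟨[], [(0, 0), (0, 3)], [(0, 0), (0, 3)], [2], [(0, 3, [0]), (2, 0, [3]), (3, 0, [3])]⟩,
    ⟨[(0, 1)], [(0, 0), (1, 0), (1, 3)], [], [], [(2, 0, [3])]⟩,
    ⟨[(0, 1), (1, 2)], [(1, 0), (1, 3), (1, 5), (2, 0), (2, 5)], [(0, 5)], [4], [(3, 0,
      [3]), (6, 5, [1])]⟩,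
    ⟨[(1, 2), (1, 3), (2, 3)], [(0, 0), (1, 0), (2, 0), (2, 1), (3, 0), (3, 1), (3, 5)],
      [(0, 1), (1, 1)], [4], [(2, 0, [3]), (7, 1, [5]), (8, 1, [5])]⟩,
    ⟨[(2, 4), (3, 4)], [(0, 3), (1, 3), (4, 0), (4, 1), (4, 3)], [(1, 1), (1, 3)], [2],
      [(0, 3, [0]), (7, 1, [5]), (8, 1, [5])]⟩]
  Ta := [((2, 1), 0, 6), ((2, 7), 0, 1), ((3, 4), 0, 2), ((3, 6), 0, 5), ((7, 0), 1, 3), ((7, 2),
    1, 0), ((8, 4), 1, 2), ((8, 5), 1, 4)]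
  Tb := [((0, 1, 4), 3, 6, 2), ((0, 1, 7), 3, 6, 1), ((0, 4, 7), 3, 2, 1), ((1, 0, 2), 6, 3, 0),
    ((2, 1, 7), 0, 6, 1), ((3, 4, 6), 0, 2, 5), ((4, 0, 3), 2, 3, 0), ((4, 0, 8), 2, 3, 1),
    ((4, 3, 8), 2, 0, 1), ((5, 6, 8), 4, 5, 1), ((6, 3, 5), 5, 0, 4), ((7, 0, 2), 1, 3, 0),
    ((8, 4, 5), 1, 2, 4)]
  Tc := []
  Td := [((0, 3), (2, 1), 6), ((0, 3), (2, 7), 1), ((0, 3), (3, 4), 2), ((0, 3), (3, 6), 5), ((1,
    5), (7, 0), 3), ((1, 5), (7, 2), 0), ((1, 5), (8, 4), 2), ((1, 5), (8, 5), 4), ((3, 0),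
    (0, 1), 6), ((3, 0), (0, 4), 2), ((3, 0), (0, 7), 1), ((5, 1), (6, 3), 0), ((5, 1), (6,
    5), 4)]
  G := [[0, 0x88c1284461848861244a14ce, 0, 0, 0x88c24888c2414141878a141411cd82e], [0, 0, 0,
    0x11c22841c22411c2414c22ce, 0x8418348141418782141811cd42e], [0, 0, 0x88c2444c28c1, 0,
    0x81c2181852881411c6188a2d], [0, 0, 0x88c2444c28c448cc8e1, 0x88524818924811c284b,
    0x148834881248414c1a1441811cac2b]]

noncomputable def n641 : Ent := ⟨e641, noF, [], [], [(7, 13, [87897818358406171357428020359653357189577334862559920517121, 0])]⟩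

def c641 : PLift (Cov.check n641.C.D v641 = true) := ⟨by decide +kernel⟩

def b641 : PLift (entF (fidx ts) 400 641 n641 = true) := ⟨by decide +kernel⟩

theorem g641 : GoodF (fidx ts) 400 641 := GoodF.ofV v641 n641 c641.down b641.down

/-- 474675:567/1 -/
noncomputable def e642 : SCfg where
  D := {
    a := 6
    L := 10
    kp := 7
    inn := [(0, 1), (1, 0), (1, 2), (1, 3), (2, 1), (2, 3), (2, 4), (3, 1), (3, 2), (3, 4), (4, 2), (4,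
      3), (4, 5), (5, 4)]
    mix := [(0, 0), (0, 1), (0, 2), (1, 0), (1, 2), (1, 3), (1, 4), (2, 2), (3, 3), (3, 5), (3, 6), (4,
      2), (4, 5), (4, 7), (4, 8), (5, 0), (5, 7), (5, 8), (5, 9)]
    cl := [1, 5, 0, 0, 6, 3, 4, 2, 2, 7]
    chq := [(0, 1), (1, 0), (2, 4), (4, 2)]
    rng := [(0, 1), (0, 4), (0, 7), (0, 9), (1, 0), (1, 2), (2, 1), (2, 7), (3, 4), (3, 6), (4, 0), (4,
      3), (5, 6), (5, 8), (6, 3), (6, 5), (7, 0), (7, 2), (8, 5), (8, 9), (9, 0), (9, 8)]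
    lev := [] }
  links := [[1, 6, 7, 8], [6, 0, 8, 2, 3, 9, 10], [3, 1, 8, 4], [9, 1, 2, 4, 11, 12], [11, 3, 2, 8, 13,
    5, 14], [14, 4, 13, 6, 15]]
  P := {
    a := 6
    N := 16
    nb := [450, 1869, 282, 6678, 26924, 57424, 42147, 321, 8343, 5130, 578, 20504, 2568, 368, 34864,
      16480]
    tri := [(0, 1, 6), (0, 1, 8), (0, 6, 7), (0, 7, 8), (1, 2, 3), (1, 2, 8), (1, 3, 9), (1, 6, 10),
      (1, 9, 10), (2, 3, 4), (2, 4, 8), (3, 4, 11), (3, 9, 12), (3, 11, 12), (4, 5, 13), (4, 5,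
      14), (4, 8, 13), (4, 11, 14), (5, 6, 13), (5, 6, 15), (5, 14, 15)]
    fin := [0, 1, 1, 3, 3, 0, 0, 7, 1, 1, 10, 11, 12, 3, 3, 15]
    chd := [(0, 1), (12, 3)]
    steps := [(0, 6), (0, 5), (1, 2), (1, 8), (1, 9), (3, 4), (3, 13), (3, 14)] }
  rep := [1, 0, 3, 11, 12, 7, 10, 15]

noncomputable def v642 : Cov.CovD where
  P := 3
  N := 5
  pl := [1, 4, 5, 9]
  lev := [⟨[], [], [(0, 1)], [5], [(0, 1, [0]), (2, 0, [1])]⟩,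
    ⟨[], [(0, 0), (0, 1)], [(0, 0), (0, 1)], [6], [(0, 1, [0]), (2, 0, [1]), (3, 0, [1])]⟩,
    ⟨[(0, 1)], [(0, 0), (1, 0), (1, 1)], [], [], [(2, 0, [1])]⟩,
    ⟨[(0, 1), (1, 2)], [(1, 0), (1, 1), (1, 4), (2, 0), (2, 4)], [(0, 4)], [3], [(3, 0,
      [1]), (6, 4, [2])]⟩,
    ⟨[(1, 2), (1, 3), (2, 3)], [(0, 0), (1, 0), (2, 0), (2, 2), (3, 0), (3, 2), (3, 4)],
      [(0, 2), (2, 2)], [3], [(2, 0, [1]), (7, 2, [4]), (8, 2, [4])]⟩,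
    ⟨[(2, 4), (3, 4)], [(0, 1), (1, 1), (4, 0), (4, 1), (4, 2)], [(1, 2), (2, 2)], [7],
      [(0, 1, [0]), (7, 2, [4]), (8, 2, [4])]⟩]
  Ta := [((2, 1), 0, 5), ((2, 7), 0, 2), ((3, 4), 0, 6), ((3, 6), 0, 4), ((7, 0), 2, 1), ((7, 2),
    2, 0), ((8, 5), 2, 3), ((8, 9), 2, 7)]
  Tb := [((0, 1, 4), 1, 5, 6), ((0, 1, 7), 1, 5, 2), ((0, 1, 9), 1, 5, 7), ((0, 4, 7), 1, 6, 2),
    ((0, 4, 9), 1, 6, 7), ((0, 7, 9), 1, 2, 7), ((1, 0, 2), 5, 1, 0), ((2, 1, 7), 0, 5, 2),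
    ((3, 4, 6), 0, 6, 4), ((4, 0, 3), 6, 1, 0), ((5, 6, 8), 3, 4, 2), ((6, 3, 5), 4, 0, 3),
    ((7, 0, 2), 2, 1, 0), ((8, 5, 9), 2, 3, 7), ((9, 0, 8), 7, 1, 2)]
  Tc := []
  Td := [((0, 1), (2, 1), 5), ((0, 1), (2, 7), 2), ((0, 1), (3, 4), 6), ((0, 1), (3, 6), 4), ((1,
    0), (0, 1), 5), ((1, 0), (0, 4), 6), ((1, 0), (0, 7), 2), ((1, 0), (0, 9), 7), ((2, 4),
    (7, 0), 1), ((2, 4), (7, 2), 0), ((2, 4), (8, 5), 3), ((2, 4), (8, 9), 7), ((4, 2), (6,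
    3), 0), ((4, 2), (6, 5), 3)]
  G := [[0, 0x11c2411c28c11c2111c21cc, 0xcca14cc618ccc618cca12cc, 0x95c22c9c22c95c2259c28cc,
    0x99a4292926981ac99a42929219ab881acc], [0, 0x14118238181811cd221418384e, 0, 0,
    0x9892529219898987ac924981c92218a99a9acc], [0, 0x11c214141831446211c248e, 0,
    0x5cc225cc28c1, 0x818848188499a429221899ac6cd], [0, 0x1811429418214168141811cd42e, 0, 0,
    0x81884818249299a98e29221899ac6cd]]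

noncomputable def n642 : Ent := ⟨e642, noF, [], [], [(7, 13, [385753028440516072301428330182238677962518295842732840409628673, 0]), (15, 10, [360035742630637297931254766822518807307257169425207333489217537, 0])]⟩

def c642 : PLift (Cov.check n642.C.D v642 = true) := ⟨by decide +kernel⟩

def b642 : PLift (entF (fidx ts) 400 642 n642 = true) := ⟨by decide +kernel⟩

theorem g642 : GoodF (fidx ts) 400 642 := GoodF.ofV v642 n642 c642.down b642.down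

/-- 474675:567/5 -/
noncomputable def e643 : SCfg where
  D := {
    a := 6
    L := 10
    kp := 7
    inn := [(0, 1), (1, 0), (1, 2), (1, 3), (2, 1), (2, 3), (2, 4), (3, 1), (3, 2), (3, 4), (4, 2), (4,
      3), (4, 5), (5, 4)]
    mix := [(0, 0), (0, 1), (0, 2), (1, 0), (1, 2), (1, 3), (1, 4), (2, 2), (3, 3), (3, 5), (3, 6), (4,
      2), (4, 5), (4, 7), (4, 8), (5, 0), (5, 7), (5, 8), (5, 9)]
    cl := [1, 5, 0, 0, 6, 3, 4, 2, 2, 7]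
    chq := [(0, 1), (1, 0), (2, 4), (4, 2)]
    rng := [(0, 1), (0, 4), (0, 8), (0, 9), (1, 0), (1, 2), (2, 1), (2, 7), (3, 4), (3, 6), (4, 0), (4,
      3), (5, 6), (5, 8), (6, 3), (6, 5), (7, 2), (7, 9), (8, 0), (8, 5), (9, 0), (9, 7)]
    lev := [] }
  links := [[1, 6, 7, 8], [6, 0, 8, 2, 3, 9, 10], [3, 1, 8, 4], [9, 1, 2, 4, 11, 12], [11, 3, 2, 8, 13,
    5, 14], [14, 4, 13, 15, 6]]
  P := {
    a := 6
    N := 16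
    nb := [450, 1869, 282, 6678, 26924, 57424, 50339, 321, 8343, 5130, 578, 20504, 2568, 33072, 2160,
      8288]
    tri := [(0, 1, 6), (0, 1, 8), (0, 6, 7), (0, 7, 8), (1, 2, 3), (1, 2, 8), (1, 3, 9), (1, 6, 10),
      (1, 9, 10), (2, 3, 4), (2, 4, 8), (3, 4, 11), (3, 9, 12), (3, 11, 12), (4, 5, 13), (4, 5,
      14), (4, 8, 13), (4, 11, 14), (5, 6, 14), (5, 6, 15), (5, 13, 15)]
    fin := [0, 1, 1, 3, 3, 0, 0, 7, 1, 1, 10, 11, 12, 3, 3, 15]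
    chd := [(0, 1), (12, 3)]
    steps := [(0, 6), (0, 5), (1, 2), (1, 8), (1, 9), (3, 4), (3, 13), (3, 14)] }
  rep := [1, 0, 3, 11, 12, 7, 10, 15]

noncomputable def v643 : Cov.CovD where
  P := 3
  N := 5
  pl := [1, 4, 5, 9]
  lev := [⟨[], [], [(0, 1)], [5], [(0, 1, [0]), (2, 0, [1])]⟩,
    ⟨[], [(0, 0), (0, 1)], [(0, 0), (0, 1)], [6], [(0, 1, [0]), (2, 0, [1]), (3, 0, [1])]⟩,
    ⟨[(0, 1)], [(0, 0), (1, 0), (1, 1)], [], [], [(2, 0, [1])]⟩,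
    ⟨[(0, 1), (1, 2)], [(1, 0), (1, 1), (1, 4), (2, 0), (2, 4)], [(0, 4)], [3], [(3, 0,
      [1]), (6, 4, [2])]⟩,
    ⟨[(1, 2), (1, 3), (2, 3)], [(0, 0), (1, 0), (2, 0), (2, 2), (3, 0), (3, 2), (3, 4)],
      [(0, 2), (2, 2)], [3], [(2, 0, [1]), (7, 2, [4]), (8, 2, [4])]⟩,
    ⟨[(2, 4), (3, 4)], [(0, 1), (1, 1), (4, 0), (4, 1), (4, 2)], [(1, 2), (2, 2)], [7],
      [(0, 1, [0]), (7, 2, [4]), (8, 2, [4])]⟩]
  Ta := [((2, 1), 0, 5), ((2, 7), 0, 2), ((3, 4), 0, 6), ((3, 6), 0, 4), ((7, 2), 2, 0), ((7, 9),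
    2, 7), ((8, 0), 2, 1), ((8, 5), 2, 3)]
  Tb := [((0, 1, 4), 1, 5, 6), ((0, 1, 8), 1, 5, 2), ((0, 1, 9), 1, 5, 7), ((0, 4, 8), 1, 6, 2),
    ((0, 4, 9), 1, 6, 7), ((0, 8, 9), 1, 2, 7), ((1, 0, 2), 5, 1, 0), ((2, 1, 7), 0, 5, 2),
    ((3, 4, 6), 0, 6, 4), ((4, 0, 3), 6, 1, 0), ((5, 6, 8), 3, 4, 2), ((6, 3, 5), 4, 0, 3),
    ((7, 2, 9), 2, 0, 7), ((8, 0, 5), 2, 1, 3), ((9, 0, 7), 7, 1, 2)]
  Tc := []
  Td := [((0, 1), (2, 1), 5), ((0, 1), (2, 7), 2), ((0, 1), (3, 4), 6), ((0, 1), (3, 6), 4), ((1,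
    0), (0, 1), 5), ((1, 0), (0, 4), 6), ((1, 0), (0, 8), 2), ((1, 0), (0, 9), 7), ((2, 4),
    (7, 2), 0), ((2, 4), (7, 9), 7), ((2, 4), (8, 0), 1), ((2, 4), (8, 5), 3), ((4, 2), (6,
    3), 0), ((4, 2), (6, 5), 3)]
  G := [[0, 0x11c21811c214181811cd42e, 0xcc612cc612ccc612ccc12cc, 0,
    0x99a4292926981ac99a429292a99a1acc], [0, 0x1418384141411cd821418348e, 0,
    0x55c2295c22c59c2255c28cc, 0x989252922929856c98925292218a99a9acc], [0,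
    0x11c2111c21c11c2411c21ca, 0, 0, 0x818248182499a429221899ac6cd], [0,
    0x14183841814348141411cd82e, 0, 0xc9c24c9c22c1, 0x8188481824929292e98461892a99a46cd]]

noncomputable def n643 : Ent := ⟨e643, noF, [], [], []⟩

def c643 : PLift (Cov.check n643.C.D v643 = true) := ⟨by decide +kernel⟩

def b643 : PLift (entF (fidx ts) 400 643 n643 = true) := ⟨by decide +kernel⟩

theorem g643 : GoodF (fidx ts) 400 643 := GoodF.ofV v643 n643 c643.down b643.down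

/-- 474675:567/7 -/
noncomputable def e644 : SCfg where
  D := {
    a := 6
    L := 9
    kp := 6
    inn := [(0, 1), (1, 0), (1, 2), (1, 3), (2, 1), (2, 3), (2, 4), (3, 1), (3, 2), (3, 4), (4, 2), (4,
      3), (4, 5), (5, 4)]
    mix := [(0, 0), (0, 1), (0, 2), (1, 0), (1, 2), (1, 3), (1, 4), (2, 2), (3, 3), (3, 5), (3, 6), (4,
      1), (4, 2), (4, 5), (4, 7), (5, 1), (5, 4), (5, 7), (5, 8)]
    cl := [3, 1, 0, 0, 2, 4, 5, 1, 6]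
    chq := [(0, 3), (1, 5), (3, 0), (5, 1)]
    rng := [(0, 1), (0, 4), (1, 0), (1, 2), (1, 8), (2, 1), (3, 4), (3, 6), (4, 0), (4, 3), (4, 7), (4,
      8), (5, 6), (5, 7), (6, 3), (6, 5), (7, 4), (7, 5), (8, 1), (8, 4)]
    lev := [] }
  links := [[1, 6, 7, 8], [6, 0, 8, 2, 3, 9, 10], [3, 1, 8, 4], [9, 1, 2, 4, 11, 12], [11, 3, 2, 8, 7, 5,
    13], [13, 4, 7, 14, 10]]
  P := {
    a := 6
    N := 15
    nb := [450, 1869, 282, 6678, 10668, 25744, 1155, 16753, 151, 5130, 25186, 12312, 2568, 3120, 1184]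
    tri := [(0, 1, 6), (0, 1, 8), (0, 6, 7), (0, 7, 8), (1, 2, 3), (1, 2, 8), (1, 3, 9), (1, 6, 10),
      (1, 9, 10), (2, 3, 4), (2, 4, 8), (3, 4, 11), (3, 9, 12), (3, 11, 12), (4, 5, 7), (4, 5,
      13), (4, 7, 8), (4, 11, 13), (5, 7, 14), (5, 10, 13), (5, 10, 14)]
    fin := [0, 1, 2, 2, 2, 2, 0, 2, 1, 1, 10, 11, 12, 2, 14]
    chd := [(0, 1), (2, 12)]
    steps := [(0, 6), (1, 8), (1, 9), (2, 3), (2, 4), (2, 5), (2, 7), (2, 13)] }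
  rep := [1, 2, 10, 0, 11, 12, 14]

noncomputable def v644 : Cov.CovD where
  P := 3
  N := 4
  pl := [4, 5, 8]
  lev := [⟨[], [], [(0, 1), (0, 3), (1, 3)], [], [(0, 3, [0]), (1, 1, [5]), (2, 0, [3])]⟩,
    ⟨[], [(0, 0), (0, 1), (0, 3)], [(0, 0), (0, 3)], [2], [(0, 3, [0]), (2, 0, [3]), (3, 0,
      [3])]⟩,
    ⟨[(0, 1)], [(0, 0), (1, 0), (1, 3)], [], [], [(2, 0, [3])]⟩,
    ⟨[(0, 1), (1, 2)], [(1, 0), (1, 3), (1, 5), (2, 0), (2, 5)], [(0, 5)], [4], [(3, 0,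
      [3]), (6, 5, [1])]⟩,
    ⟨[(1, 2), (1, 3), (2, 3)], [(0, 0), (0, 1), (1, 0), (2, 0), (2, 1), (3, 0), (3, 1), (3,
      5)], [(0, 1), (1, 1)], [4], [(1, 1, [5]), (2, 0, [3]), (7, 1, [5])]⟩,
    ⟨[(2, 4), (3, 4)], [(0, 1), (4, 0), (4, 1)], [(1, 1)], [2, 6], [(1, 1, [5]), (7, 1,
      [5])]⟩]
  Ta := [((1, 0), 1, 3), ((1, 2), 1, 0), ((1, 8), 1, 6), ((2, 1), 0, 1), ((3, 4), 0, 2), ((3, 6),
    0, 5), ((7, 4), 1, 2), ((7, 5), 1, 4)]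
  Tb := [((0, 1, 4), 3, 1, 2), ((1, 0, 2), 1, 3, 0), ((1, 0, 8), 1, 3, 6), ((1, 2, 8), 1, 0, 6),
    ((3, 4, 6), 0, 2, 5), ((4, 0, 3), 2, 3, 0), ((4, 0, 7), 2, 3, 1), ((4, 0, 8), 2, 3, 6),
    ((4, 3, 7), 2, 0, 1), ((4, 3, 8), 2, 0, 6), ((4, 7, 8), 2, 1, 6), ((5, 6, 7), 4, 5, 1),
    ((6, 3, 5), 5, 0, 4), ((7, 4, 5), 1, 2, 4), ((8, 1, 4), 6, 1, 2)]
  Tc := []
  Td := [((0, 3), (2, 1), 1), ((0, 3), (3, 4), 2), ((0, 3), (3, 6), 5), ((1, 5), (1, 0), 3), ((1,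
    5), (1, 2), 0), ((1, 5), (1, 8), 6), ((1, 5), (7, 4), 2), ((1, 5), (7, 5), 4), ((3, 0),
    (0, 1), 1), ((3, 0), (0, 4), 2), ((5, 1), (6, 3), 0), ((5, 1), (6, 5), 4)]
  G := [[0, 0xcca148ccc124c, 0, 0, 0x99c2489498394462c], [0, 0, 0, 0x99c2459c28c2,
    0x94946981c294983486], [0, 0, 0xccc218cc5284c, 0, 0x99c2488194c1899ca32c], [0, 0,
    0xc1284c12488484848cca27, 0x5cc21cc528c2, 0x18594118de829499c61818c8427]]

noncomputable def n644 : Ent := ⟨e644, noF, [], [], [(6, 14, [81620716623019490593592230936445690773474979418095886004225, 0])]⟩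

def c644 : PLift (Cov.check n644.C.D v644 = true) := ⟨by decide +kernel⟩

def b644 : PLift (entF (fidx ts) 400 644 n644 = true) := ⟨by decide +kernel⟩

theorem g644 : GoodF (fidx ts) 400 644 := GoodF.ofV v644 n644 c644.down b644.down

/-- 474675:567/6 -/
noncomputable def e645 : SCfg where
  D := {
    a := 6
    L := 10
    kp := 7
    inn := [(0, 1), (1, 0), (1, 2), (1, 3), (2, 1), (2, 3), (2, 4), (3, 1), (3, 2), (3, 4), (4, 2), (4,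
      3), (4, 5), (5, 4)]
    mix := [(0, 0), (0, 1), (0, 2), (1, 0), (1, 2), (1, 3), (1, 4), (2, 2), (3, 3), (3, 5), (3, 6), (4,
      1), (4, 2), (4, 5), (4, 7), (5, 1), (5, 7), (5, 8), (5, 9)]
    cl := [2, 1, 0, 0, 5, 3, 4, 1, 6, 7]
    chq := [(0, 2), (1, 4), (2, 0), (4, 1)]
    rng := [(0, 1), (0, 4), (1, 0), (1, 2), (1, 8), (2, 1), (3, 4), (3, 6), (4, 0), (4, 3), (5, 6), (5,
      7), (6, 3), (6, 5), (7, 5), (7, 9), (8, 1), (8, 9), (9, 7), (9, 8)]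
    lev := [] }
  links := [[1, 6, 7, 8], [6, 0, 8, 2, 3, 9, 10], [3, 1, 8, 4], [9, 1, 2, 4, 11, 12], [11, 3, 2, 8, 7, 5,
    13], [13, 4, 7, 14, 15]]
  P := {
    a := 6
    N := 16
    nb := [450, 1869, 282, 6678, 10668, 57488, 1155, 16753, 151, 5130, 578, 12312, 2568, 34864, 32928,
      24608]
    tri := [(0, 1, 6), (0, 1, 8), (0, 6, 7), (0, 7, 8), (1, 2, 3), (1, 2, 8), (1, 3, 9), (1, 6, 10),
      (1, 9, 10), (2, 3, 4), (2, 4, 8), (3, 4, 11), (3, 9, 12), (3, 11, 12), (4, 5, 7), (4, 5,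
      13), (4, 7, 8), (4, 11, 13), (5, 7, 14), (5, 13, 15), (5, 14, 15)]
    fin := [0, 1, 2, 2, 2, 2, 0, 2, 1, 1, 10, 11, 12, 2, 14, 15]
    chd := [(0, 1), (2, 12)]
    steps := [(0, 6), (1, 8), (1, 9), (2, 3), (2, 4), (2, 5), (2, 7), (2, 13)] }
  rep := [1, 2, 0, 11, 12, 10, 14, 15]

noncomputable def v645 : Cov.CovD where
  P := 3
  N := 5
  pl := [4, 5, 8, 9]
  lev := [⟨[], [], [(0, 1), (0, 2), (1, 2)], [], [(0, 2, [0]), (1, 1, [4]), (2, 0, [2])]⟩,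
    ⟨[], [(0, 0), (0, 1), (0, 2)], [(0, 0), (0, 2)], [5], [(0, 2, [0]), (2, 0, [2]), (3, 0,
      [2])]⟩,
    ⟨[(0, 1)], [(0, 0), (1, 0), (1, 2)], [], [], [(2, 0, [2])]⟩,
    ⟨[(0, 1), (1, 2)], [(1, 0), (1, 2), (1, 4), (2, 0), (2, 4)], [(0, 4)], [3], [(3, 0,
      [2]), (6, 4, [1])]⟩,
    ⟨[(1, 2), (1, 3), (2, 3)], [(0, 0), (0, 1), (1, 0), (2, 0), (2, 1), (3, 0), (3, 1), (3,
      4)], [(0, 1), (1, 1)], [3], [(1, 1, [4]), (2, 0, [2]), (7, 1, [4])]⟩,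
    ⟨[(2, 4), (3, 4)], [(0, 1), (4, 0), (4, 1)], [(1, 1)], [6, 7], [(1, 1, [4]), (7, 1,
      [4])]⟩]
  Ta := [((1, 0), 1, 2), ((1, 2), 1, 0), ((1, 8), 1, 6), ((2, 1), 0, 1), ((3, 4), 0, 5), ((3, 6),
    0, 4), ((7, 5), 1, 3), ((7, 9), 1, 7)]
  Tb := [((0, 1, 4), 2, 1, 5), ((1, 0, 2), 1, 2, 0), ((1, 0, 8), 1, 2, 6), ((1, 2, 8), 1, 0, 6),
    ((3, 4, 6), 0, 5, 4), ((4, 0, 3), 5, 2, 0), ((5, 6, 7), 3, 4, 1), ((6, 3, 5), 4, 0, 3),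
    ((7, 5, 9), 1, 3, 7), ((8, 1, 9), 6, 1, 7), ((9, 7, 8), 7, 1, 6)]
  Tc := []
  Td := [((0, 2), (2, 1), 1), ((0, 2), (3, 4), 5), ((0, 2), (3, 6), 4), ((1, 4), (1, 0), 2), ((1,
    4), (1, 2), 0), ((1, 4), (1, 8), 6), ((1, 4), (7, 5), 3), ((1, 4), (7, 9), 7), ((2, 0),
    (0, 1), 1), ((2, 0), (0, 4), 5), ((4, 1), (6, 3), 0), ((4, 1), (6, 5), 3)]
  G := [[0, 0xeec12eec12c8, 0xddc215d8d28c4, 0xddc22ddc22c8, 0xd9c2441649cd454c7881ca8], [0, 0,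
    0xd41d829d41d823c4, 0, 0xd82d416d8d8d9c74416a8], [0, 0, 0xd94d24ddc21c4, 0xddc21ddc21c4,
    0xd94d24589945cddc23a8], [0, 0, 0x58c185c23d41d829c8, 0,
    0x81c1c58c14ddce521c5d8d94de48a]]

noncomputable def n645 : Ent := ⟨e645, noF, [], [], [(6, 14, [385746751338780685620664494392815470296102193487288376375115777, 0]), (15, 10, [360035742630637297931254766822518807307257169425207333489229825, 0])]⟩

def c645 : PLift (Cov.check n645.C.D v645 = true) := ⟨by decide +kernel⟩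

def b645 : PLift (entF (fidx ts) 400 645 n645 = true) := ⟨by decide +kernel⟩

theorem g645 : GoodF (fidx ts) 400 645 := GoodF.ofV v645 n645 c645.down b645.down

/-- 474675:567/8 -/
noncomputable def e646 : SCfg where
  D := {
    a := 6
    L := 10
    kp := 7
    inn := [(0, 1), (1, 0), (1, 2), (1, 3), (2, 1), (2, 3), (2, 4), (3, 1), (3, 2), (3, 4), (4, 2), (4,
      3), (4, 5), (5, 4)]
    mix := [(0, 0), (0, 1), (0, 2), (1, 0), (1, 2), (1, 3), (1, 4), (2, 2), (3, 3), (3, 5), (3, 6), (4,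
      2), (4, 5), (4, 7), (4, 8), (5, 4), (5, 7), (5, 8), (5, 9)]
    cl := [3, 6, 0, 0, 2, 4, 5, 1, 1, 7]
    chq := [(0, 3), (1, 5), (3, 0), (5, 1)]
    rng := [(0, 1), (0, 4), (1, 0), (1, 2), (2, 1), (2, 7), (3, 4), (3, 6), (4, 0), (4, 3), (4, 8), (4,
      9), (5, 6), (5, 8), (6, 3), (6, 5), (7, 2), (7, 9), (8, 4), (8, 5), (9, 4), (9, 7)]
    lev := [] }
  links := [[1, 6, 7, 8], [6, 0, 8, 2, 3, 9, 10], [3, 1, 8, 4], [9, 1, 2, 4, 11, 12], [11, 3, 2, 8, 13,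
    5, 14], [14, 4, 13, 15, 10]]
  P := {
    a := 6
    N := 16
    nb := [450, 1869, 282, 6678, 26924, 58384, 1155, 321, 8343, 5130, 49762, 20504, 2568, 33072, 3120,
      9248]
    tri := [(0, 1, 6), (0, 1, 8), (0, 6, 7), (0, 7, 8), (1, 2, 3), (1, 2, 8), (1, 3, 9), (1, 6, 10),
      (1, 9, 10), (2, 3, 4), (2, 4, 8), (3, 4, 11), (3, 9, 12), (3, 11, 12), (4, 5, 13), (4, 5,
      14), (4, 8, 13), (4, 11, 14), (5, 10, 14), (5, 10, 15), (5, 13, 15)]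
    fin := [0, 1, 1, 3, 3, 3, 0, 7, 1, 1, 10, 11, 12, 3, 3, 15]
    chd := [(0, 1), (12, 3)]
    steps := [(0, 6), (1, 2), (1, 8), (1, 9), (3, 4), (3, 5), (3, 13), (3, 14)] }
  rep := [1, 3, 10, 0, 11, 12, 7, 15]

noncomputable def v646 : Cov.CovD where
  P := 3
  N := 5
  pl := [1, 4, 5, 9]
  lev := [⟨[], [], [(0, 3)], [6], [(0, 3, [0]), (2, 0, [3])]⟩,
    ⟨[], [(0, 0), (0, 3)], [(0, 0), (0, 3)], [2], [(0, 3, [0]), (2, 0, [3]), (3, 0, [3])]⟩,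
    ⟨[(0, 1)], [(0, 0), (1, 0), (1, 3)], [], [], [(2, 0, [3])]⟩,
    ⟨[(0, 1), (1, 2)], [(1, 0), (1, 3), (1, 5), (2, 0), (2, 5)], [(0, 5)], [4], [(3, 0,
      [3]), (6, 5, [1])]⟩,
    ⟨[(1, 2), (1, 3), (2, 3)], [(0, 0), (1, 0), (2, 0), (2, 1), (3, 0), (3, 1), (3, 5)],
      [(0, 1), (1, 1)], [4], [(2, 0, [3]), (7, 1, [5]), (8, 1, [5])]⟩,
    ⟨[(2, 4), (3, 4)], [(4, 0), (4, 1)], [(1, 1)], [2, 7], [(7, 1, [5]), (8, 1, [5])]⟩]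
  Ta := [((2, 1), 0, 6), ((2, 7), 0, 1), ((3, 4), 0, 2), ((3, 6), 0, 5), ((7, 2), 1, 0), ((7, 9),
    1, 7), ((8, 4), 1, 2), ((8, 5), 1, 4)]
  Tb := [((0, 1, 4), 3, 6, 2), ((1, 0, 2), 6, 3, 0), ((2, 1, 7), 0, 6, 1), ((3, 4, 6), 0, 2, 5),
    ((4, 0, 3), 2, 3, 0), ((4, 0, 8), 2, 3, 1), ((4, 0, 9), 2, 3, 7), ((4, 3, 8), 2, 0, 1),
    ((4, 3, 9), 2, 0, 7), ((4, 8, 9), 2, 1, 7), ((5, 6, 8), 4, 5, 1), ((6, 3, 5), 5, 0, 4),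
    ((7, 2, 9), 1, 0, 7), ((8, 4, 5), 1, 2, 4), ((9, 4, 7), 7, 2, 1)]
  Tc := []
  Td := [((0, 3), (2, 1), 6), ((0, 3), (2, 7), 1), ((0, 3), (3, 4), 2), ((0, 3), (3, 6), 5), ((1,
    5), (7, 2), 0), ((1, 5), (7, 9), 7), ((1, 5), (8, 4), 2), ((1, 5), (8, 5), 4), ((3, 0),
    (0, 1), 6), ((3, 0), (0, 4), 2), ((5, 1), (6, 3), 0), ((5, 1), (6, 5), 4)]
  G := [[0, 0xcca128cc6184cca12cca14ce, 0, 0, 0x99c24899c2418c9889cb4a9494c99c1c2e], [0, 0, 0,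
    0xc9c24899c22495c22c5c22ce, 0x949834898943418c9889cb4a949899cd42e], [0, 0,
    0x442c8c2cc42c82cc1, 0, 0x99c218198d2418982a18984299c294462f], [0, 0,
    0x442c82c4c884eec4c4ac82c48c48e1, 0xc9c2145c528499c2287,
    0x918d24899c2418594c8a8194c18892944948c1899ca4af]]

noncomputable def n646 : Ent := ⟨e646, noF, [], [], [(6, 15, [360035742630636841211993100915356868655746945586763691010297857, 0]), (7, 13, [385753028440516072301428330182238677962518295842732840409645057, 0])]⟩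

def c646 : PLift (Cov.check n646.C.D v646 = true) := ⟨by decide +kernel⟩

def b646 : PLift (entF (fidx ts) 400 646 n646 = true) := ⟨by decide +kernel⟩

theorem g646 : GoodF (fidx ts) 400 646 := GoodF.ofV v646 n646 c646.down b646.down

/-- 474675:567 -/
noncomputable def e647 : SCfg where
  D := {
    a := 6
    L := 11
    kp := 8
    inn := [(0, 1), (1, 0), (1, 2), (1, 3), (2, 1), (2, 3), (2, 4), (3, 1), (3, 2), (3, 4), (4, 2), (4,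
      3), (4, 5), (5, 4)]
    mix := [(0, 0), (0, 1), (0, 2), (1, 0), (1, 2), (1, 3), (1, 4), (2, 2), (3, 3), (3, 5), (3, 6), (4,
      2), (4, 5), (4, 7), (4, 8), (5, 7), (5, 8), (5, 9), (5, 10)]
    cl := [2, 5, 0, 0, 6, 3, 4, 1, 1, 7, 8]
    chq := [(0, 2), (1, 4), (2, 0), (4, 1)]
    rng := [(0, 1), (0, 4), (1, 0), (1, 2), (2, 1), (2, 7), (3, 4), (3, 6), (4, 0), (4, 3), (5, 6), (5,
      8), (6, 3), (6, 5), (7, 2), (7, 9), (8, 5), (8, 10), (9, 7), (9, 10), (10, 8), (10, 9)]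
    lev := [] }
  links := [[1, 6, 7, 8], [6, 0, 8, 2, 3, 9, 10], [3, 1, 8, 4], [9, 1, 2, 4, 11, 12], [11, 3, 2, 8, 13,
    5, 14], [14, 4, 13, 15, 16]]
  P := {
    a := 6
    N := 17
    nb := [450, 1869, 282, 6678, 26924, 122896, 1155, 321, 8343, 5130, 578, 20504, 2568, 33072, 67632,
      73760, 49184]
    tri := [(0, 1, 6), (0, 1, 8), (0, 6, 7), (0, 7, 8), (1, 2, 3), (1, 2, 8), (1, 3, 9), (1, 6, 10),
      (1, 9, 10), (2, 3, 4), (2, 4, 8), (3, 4, 11), (3, 9, 12), (3, 11, 12), (4, 5, 13), (4, 5,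
      14), (4, 8, 13), (4, 11, 14), (5, 13, 15), (5, 14, 16), (5, 15, 16)]
    fin := [0, 1, 1, 3, 3, 3, 0, 7, 1, 1, 10, 11, 12, 3, 3, 15, 16]
    chd := [(0, 1), (12, 3)]
    steps := [(0, 6), (1, 2), (1, 8), (1, 9), (3, 4), (3, 5), (3, 13), (3, 14)] }
  rep := [1, 3, 0, 11, 12, 7, 10, 15, 16]

noncomputable def v647 : Cov.CovD where
  P := 3
  N := 6
  pl := [1, 4, 5, 9, 10]
  lev := [⟨[], [], [(0, 2)], [5], [(0, 2, [0]), (2, 0, [2])]⟩,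
    ⟨[], [(0, 0), (0, 2)], [(0, 0), (0, 2)], [6], [(0, 2, [0]), (2, 0, [2]), (3, 0, [2])]⟩,
    ⟨[(0, 1)], [(0, 0), (1, 0), (1, 2)], [], [], [(2, 0, [2])]⟩,
    ⟨[(0, 1), (1, 2)], [(1, 0), (1, 2), (1, 4), (2, 0), (2, 4)], [(0, 4)], [3], [(3, 0,
      [2]), (6, 4, [1])]⟩,
    ⟨[(1, 2), (1, 3), (2, 3)], [(0, 0), (1, 0), (2, 0), (2, 1), (3, 0), (3, 1), (3, 4)],
      [(0, 1), (1, 1)], [3], [(2, 0, [2]), (7, 1, [4]), (8, 1, [4])]⟩,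
    ⟨[(2, 4), (3, 4)], [(4, 0), (4, 1)], [(1, 1)], [7, 8], [(7, 1, [4]), (8, 1, [4])]⟩]
  Ta := [((2, 1), 0, 5), ((2, 7), 0, 1), ((3, 4), 0, 6), ((3, 6), 0, 4), ((7, 2), 1, 0), ((7, 9),
    1, 7), ((8, 5), 1, 3), ((8, 10), 1, 8)]
  Tb := [((0, 1, 4), 2, 5, 6), ((1, 0, 2), 5, 2, 0), ((2, 1, 7), 0, 5, 1), ((3, 4, 6), 0, 6, 4),
    ((4, 0, 3), 6, 2, 0), ((5, 6, 8), 3, 4, 1), ((6, 3, 5), 4, 0, 3), ((7, 2, 9), 1, 0, 7),
    ((8, 5, 10), 1, 3, 8), ((9, 7, 10), 7, 1, 8), ((10, 8, 9), 8, 1, 7)]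
  Tc := []
  Td := [((0, 2), (2, 1), 5), ((0, 2), (2, 7), 1), ((0, 2), (3, 4), 6), ((0, 2), (3, 6), 4), ((1,
    4), (7, 2), 0), ((1, 4), (7, 9), 7), ((1, 4), (8, 5), 3), ((1, 4), (8, 10), 8), ((2, 0),
    (0, 1), 5), ((2, 0), (0, 4), 6), ((4, 1), (6, 3), 0), ((4, 1), (6, 5), 3)]
  G := [[0, 0xeec12eea14cea4e14ee618cc, 0xd94d2459cd28cddc21ddc21c6,
    0xd9c244161dc2c81ccd42d82c5dc2881acc, 0xd9c2441649c249cd4c56ad42d82cd449c5dcd881caa], [0,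
    0, 0xd821d824d412ed82d416d821cd4184e, 0xd89434416d82d416cd82d41658c543881acc,
    0x49c294c1649cd4447d81cad42d81c44149cd8d9cdcaa], [0, 0, 0xd1cd24142dc92ccddc21ddc21cc,
    0x442d9c2cd42d82cc1, 0x8141c828141c82d42d82c944dc65898acab], [0, 0,
    0xd449cddcd22494dd834858c185c294e, 0xd4214d8d8ec48e84d4a58d8ad84ec1,
    0x8141c228141c82d4294d8d8e448e9444658d9cacab]]

noncomputable def n647 : Ent := ⟨e647, noF, [], [], [(6, 15, [1685356702439545624007900436039642273970977273354372543760002719745, 0]), (6, 16, [1580044410770988437309982408355971841652082177953823432505691746305, 0]), (7, 13, [1685382419725355503238989871268909155780284044704628512909402066945, 0]), (16, 10, [1580044410770988437858045522355060435978463990222429564876666462209, 0])]⟩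

def c647 : PLift (Cov.check n647.C.D v647 = true) := ⟨by decide +kernel⟩

def b647 : PLift (entF (fidx ts) 400 647 n647 = true) := ⟨by decide +kernel⟩

theorem g647 : GoodF (fidx ts) 400 647 := GoodF.ofV v647 n647 c647.down b647.down

/-- 474684:568/1 -/
noncomputable def e648 : SCfg where
  D := {
    a := 6
    L := 9
    kp := 7
    inn := [(0, 1), (1, 0), (1, 2), (1, 3), (2, 1), (2, 3), (2, 4), (3, 1), (3, 2), (3, 4), (3, 5), (4,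
      2), (4, 3), (4, 5), (5, 3), (5, 4)]
    mix := [(0, 0), (0, 1), (0, 2), (1, 0), (1, 2), (1, 3), (1, 4), (2, 2), (3, 3), (3, 5), (4, 1), (4,
      2), (4, 6), (4, 7), (4, 8), (5, 5), (5, 8)]
    cl := [2, 3, 0, 1, 0, 5, 6, 7, 4]
    chq := [(1, 3), (1, 4), (1, 6), (1, 7), (3, 1), (4, 1), (6, 1), (7, 1)]
    rng := [(0, 1), (0, 4), (1, 0), (1, 2), (1, 6), (2, 1), (3, 4), (3, 5), (4, 0), (4, 3), (5, 3), (5,
      8), (6, 1), (6, 7), (7, 6), (7, 8), (8, 5), (8, 7)]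
    lev := [] }
  links := [[1, 6, 7, 8], [6, 0, 8, 2, 3, 9, 10], [3, 1, 8, 4], [9, 1, 2, 4, 5, 11], [5, 3, 2, 8, 7, 12,
    13, 14], [11, 3, 4, 14]]
  P := {
    a := 6
    N := 15
    nb := [450, 1869, 282, 2614, 29100, 18456, 1155, 4433, 151, 3082, 578, 16936, 8336, 20496, 10288]
    tri := [(0, 1, 6), (0, 1, 8), (0, 6, 7), (0, 7, 8), (1, 2, 3), (1, 2, 8), (1, 3, 9), (1, 6, 10),
      (1, 9, 10), (2, 3, 4), (2, 4, 8), (3, 4, 5), (3, 5, 11), (3, 9, 11), (4, 5, 14), (4, 7, 8),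
      (4, 7, 12), (4, 12, 13), (4, 13, 14), (5, 11, 14)]
    fin := [0, 1, 1, 3, 3, 5, 0, 7, 1, 3, 1, 11, 12, 13, 5]
    chd := [(3, 5), (3, 12), (3, 13), (7, 3)]
    steps := [(0, 6), (1, 2), (1, 8), (1, 10), (3, 4), (3, 9), (5, 14)] }
  rep := [1, 3, 0, 7, 5, 11, 12, 13]

noncomputable def v648 : Cov.CovD where
  P := 3
  N := 5
  pl := [0, 5]
  lev := [⟨[], [], [(0, 3)], [2], [(1, 3, [1]), (2, 0, [])]⟩,
    ⟨[], [(0, 0), (0, 1), (0, 3)], [(0, 0), (0, 1)], [2], [(2, 0, []), (3, 1, [3, 4, 6,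
      7]), (4, 0, [])]⟩,
    ⟨[(0, 1)], [(0, 0), (1, 0), (1, 1)], [], [], [(2, 0, [])]⟩,
    ⟨[(0, 1), (1, 2)], [(1, 0), (1, 1), (2, 0), (2, 1)], [], [5], [(3, 1, [3, 4, 6, 7])]⟩,
    ⟨[(1, 2), (1, 3), (2, 3)], [(0, 0), (0, 3), (1, 0), (2, 0), (2, 3), (2, 4), (2, 6), (2,
      7), (3, 0), (3, 1), (3, 3), (3, 4), (3, 6), (3, 7)], [(0, 3), (0, 4), (0, 6), (0, 7),
      (3, 4), (3, 6), (3, 7), (4, 6), (4, 7), (6, 7)], [], [(1, 3, [1]), (2, 0, []), (6, 6,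
      [1]), (7, 7, [1]), (8, 4, [1])]⟩,
    ⟨[(1, 3), (2, 3), (2, 4), (3, 4)], [(3, 1), (3, 4), (4, 0), (4, 3), (4, 4), (4, 6), (4,
      7)], [], [5], [(8, 4, [1])]⟩]
  Ta := [((2, 1), 0, 3), ((4, 0), 0, 2), ((4, 3), 0, 1)]
  Tb := [((0, 1, 4), 2, 3, 0), ((1, 0, 2), 3, 2, 0), ((1, 0, 6), 3, 2, 6), ((1, 2, 6), 3, 0, 6),
    ((3, 4, 5), 1, 0, 5), ((4, 0, 3), 0, 2, 1), ((5, 3, 8), 5, 1, 4), ((6, 1, 7), 6, 3, 7),
    ((7, 6, 8), 7, 6, 4), ((8, 5, 7), 4, 5, 7)]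
  Tc := [(1, 3, 4), (1, 3, 6), (1, 3, 7), (1, 4, 6), (1, 4, 7), (1, 6, 7)]
  Td := [((1, 3), (3, 4), 0), ((1, 3), (3, 5), 5), ((1, 4), (3, 4), 0), ((1, 4), (3, 5), 5), ((1,
    6), (3, 4), 0), ((1, 6), (3, 5), 5), ((1, 7), (3, 4), 0), ((1, 7), (3, 5), 5), ((3, 1),
    (1, 0), 2), ((3, 1), (1, 2), 0), ((3, 1), (1, 6), 6), ((4, 1), (8, 5), 5), ((4, 1), (8,
    7), 7), ((6, 1), (6, 1), 3), ((6, 1), (6, 7), 7), ((7, 1), (7, 6), 6), ((7, 1), (7, 8),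
    4)]
  G := [[0, 0, 0, 0xc252944c292588c, 0xc252942c292588a], [0, 0xc161a44612c18a4c,
    0x521c2894c2529446, 0xc2529441, 0xc2925881]]

noncomputable def n648 : Ent := ⟨e648, noF, [], [], []⟩

def c648 : PLift (Cov.check n648.C.D v648 = true) := ⟨by decide +kernel⟩

def b648 : PLift (entF (fidx ts) 400 648 n648 = true) := ⟨by decide +kernel⟩

theorem g648 : GoodF (fidx ts) 400 648 := GoodF.ofV v648 n648 c648.down b648.down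

/-- 474684:568 -/
noncomputable def e649 : SCfg where
  D := {
    a := 6
    L := 10
    kp := 8
    inn := [(0, 1), (1, 0), (1, 2), (1, 3), (2, 1), (2, 3), (2, 4), (3, 1), (3, 2), (3, 4), (3, 5), (4,
      2), (4, 3), (4, 5), (5, 3), (5, 4)]
    mix := [(0, 0), (0, 1), (0, 2), (1, 0), (1, 2), (1, 3), (1, 4), (2, 2), (3, 3), (3, 5), (4, 2), (4,
      6), (4, 7), (4, 8), (4, 9), (5, 5), (5, 9)]
    cl := [2, 8, 0, 1, 0, 4, 5, 6, 7, 3]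
    chq := [(1, 3), (1, 5), (1, 6), (1, 7), (3, 1), (5, 1), (6, 1), (7, 1)]
    rng := [(0, 1), (0, 4), (1, 0), (1, 2), (2, 1), (2, 6), (3, 4), (3, 5), (4, 0), (4, 3), (5, 3), (5,
      9), (6, 2), (6, 7), (7, 6), (7, 8), (8, 7), (8, 9), (9, 5), (9, 8)]
    lev := [] }
  links := [[1, 6, 7, 8], [6, 0, 8, 2, 3, 9, 10], [3, 1, 8, 4], [9, 1, 2, 4, 5, 11], [5, 3, 2, 8, 12, 13,
    14, 15], [11, 3, 4, 15]]
  P := {
    a := 6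
    N := 16
    nb := [450, 1869, 282, 2614, 61740, 34840, 1155, 321, 4247, 3082, 578, 33320, 8464, 20496, 40976,
      18480]
    tri := [(0, 1, 6), (0, 1, 8), (0, 6, 7), (0, 7, 8), (1, 2, 3), (1, 2, 8), (1, 3, 9), (1, 6, 10),
      (1, 9, 10), (2, 3, 4), (2, 4, 8), (3, 4, 5), (3, 5, 11), (3, 9, 11), (4, 5, 15), (4, 8, 12),
      (4, 12, 13), (4, 13, 14), (4, 14, 15), (5, 11, 15)]
    fin := [0, 1, 1, 3, 3, 5, 0, 7, 1, 3, 1, 11, 12, 13, 14, 5]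
    chd := [(3, 5), (3, 12), (3, 13), (3, 14)]
    steps := [(0, 6), (1, 2), (1, 8), (1, 10), (3, 4), (3, 9), (5, 15)] }
  rep := [1, 3, 0, 5, 11, 12, 13, 14, 7]

noncomputable def v649 : Cov.CovD where
  P := 3
  N := 6
  pl := [0, 1, 5]
  lev := [⟨[], [], [], [2, 8], [(2, 0, [])]⟩,
    ⟨[], [(0, 0), (0, 1)], [(0, 0), (0, 1)], [2], [(2, 0, []), (3, 1, [3, 5, 6, 7]), (4, 0,
      [])]⟩,
    ⟨[(0, 1)], [(0, 0), (1, 0), (1, 1)], [], [], [(2, 0, [])]⟩,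
    ⟨[(0, 1), (1, 2)], [(1, 0), (1, 1), (2, 0), (2, 1)], [], [4], [(3, 1, [3, 5, 6, 7])]⟩,
    ⟨[(1, 2), (1, 3), (2, 3)], [(0, 0), (1, 0), (2, 0), (2, 3), (2, 5), (2, 6), (2, 7), (3,
      0), (3, 1), (3, 3), (3, 5), (3, 6), (3, 7)], [(0, 3), (0, 5), (0, 6), (0, 7), (3, 5),
      (3, 6), (3, 7), (5, 6), (5, 7), (6, 7)], [], [(2, 0, []), (6, 5, [1]), (7, 6, [1]), (8,
      7, [1]), (9, 3, [1])]⟩,
    ⟨[(1, 3), (2, 3), (2, 4), (3, 4)], [(3, 1), (3, 3), (4, 0), (4, 3), (4, 5), (4, 6), (4,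
      7)], [], [4], [(9, 3, [1])]⟩]
  Ta := [((2, 1), 0, 8), ((2, 6), 0, 5), ((4, 0), 0, 2), ((4, 3), 0, 1)]
  Tb := [((0, 1, 4), 2, 8, 0), ((1, 0, 2), 8, 2, 0), ((2, 1, 6), 0, 8, 5), ((3, 4, 5), 1, 0, 4),
    ((4, 0, 3), 0, 2, 1), ((5, 3, 9), 4, 1, 3), ((6, 2, 7), 5, 0, 6), ((7, 6, 8), 6, 5, 7),
    ((8, 7, 9), 7, 6, 3), ((9, 5, 8), 3, 4, 7)]
  Tc := [(1, 3, 5), (1, 3, 6), (1, 3, 7), (1, 5, 6), (1, 5, 7), (1, 6, 7)]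
  Td := [((1, 3), (3, 4), 0), ((1, 3), (3, 5), 4), ((1, 5), (3, 4), 0), ((1, 5), (3, 5), 4), ((1,
    6), (3, 4), 0), ((1, 6), (3, 5), 4), ((1, 7), (3, 4), 0), ((1, 7), (3, 5), 4), ((3, 1),
    (9, 5), 4), ((3, 1), (9, 8), 7), ((5, 1), (6, 2), 0), ((5, 1), (6, 7), 6), ((6, 1), (7,
    6), 5), ((6, 1), (7, 8), 7), ((7, 1), (8, 7), 6), ((7, 1), (8, 9), 3)]
  G := [[0, 0, 0, 0xc252944c292588c, 0xa292544248ac292588a], [0, 0x612c18a4a12c1468c,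
    0xc292588521c28546, 0xc2529441, 0xc2925881]]

noncomputable def n649 : Ent := ⟨e649, noF, [], [], [(7, 12, [385753029973011613167317188540585705112827479461471962593263617, 0])]⟩

def c649 : PLift (Cov.check n649.C.D v649 = true) := ⟨by decide +kernel⟩

def b649 : PLift (entF (fidx ts) 400 649 n649 = true) := ⟨by decide +kernel⟩

theorem g649 : GoodF (fidx ts) 400 649 := GoodF.ofV v649 n649 c649.down b649.down

/-- 474754:571/1 -/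
noncomputable def e650 : SCfg where
  D := {
    a := 6
    L := 9
    kp := 6
    inn := [(0, 1), (1, 0), (1, 2), (1, 3), (2, 1), (2, 3), (3, 1), (3, 2), (3, 4), (4, 3), (4, 5), (5,
      4)]
    mix := [(0, 0), (0, 1), (0, 2), (1, 0), (1, 2), (1, 3), (1, 4), (2, 2), (2, 5), (3, 3), (3, 5), (3,
      6), (3, 7), (4, 1), (4, 5), (4, 6), (5, 1), (5, 6), (5, 8)]
    cl := [3, 2, 0, 0, 4, 1, 1, 5, 6]
    chq := [(0, 3), (3, 0)]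
    rng := [(0, 1), (0, 4), (1, 0), (1, 2), (1, 5), (1, 8), (2, 1), (2, 5), (3, 4), (3, 7), (4, 0), (4,
      3), (5, 1), (5, 2), (6, 7), (6, 8), (7, 3), (7, 6), (8, 1), (8, 6)]
    lev := [] }
  links := [[1, 6, 7, 8], [6, 0, 8, 2, 3, 9, 10], [3, 1, 8, 11], [9, 1, 2, 11, 4, 12, 13], [12, 3, 11, 7,
    5], [12, 4, 7, 14]]
  P := {
    a := 6
    N := 15
    nb := [450, 1869, 2314, 14870, 6312, 20624, 1155, 18801, 2183, 9226, 578, 412, 24632, 4616, 4256]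
    tri := [(0, 1, 6), (0, 1, 8), (0, 6, 7), (0, 7, 8), (1, 2, 3), (1, 2, 8), (1, 3, 9), (1, 6, 10),
      (1, 9, 10), (2, 3, 11), (2, 8, 11), (3, 4, 11), (3, 4, 12), (3, 9, 13), (3, 12, 13), (4, 5,
      7), (4, 5, 12), (4, 7, 11), (5, 7, 14), (5, 12, 14)]
    fin := [0, 0, 2, 2, 4, 5, 0, 5, 2, 2, 10, 4, 4, 13, 14]
    chd := [(0, 2)]
    steps := [(0, 1), (0, 6), (2, 3), (2, 8), (2, 9), (4, 11), (4, 12), (5, 7)] }
  rep := [2, 4, 5, 0, 10, 13, 14]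

noncomputable def v650 : Cov.CovD where
  P := 3
  N := 4
  pl := [1, 4, 7, 8]
  lev := [⟨[], [], [(0, 3)], [2], [(0, 3, [0]), (2, 0, [3])]⟩,
    ⟨[], [(0, 0), (0, 3)], [(0, 0), (0, 3)], [4], [(0, 3, [0]), (2, 0, [3]), (3, 0, [3])]⟩,
    ⟨[(0, 1)], [(0, 0), (1, 0), (1, 1), (1, 3)], [(0, 1)], [], [(2, 0, [3]), (5, 1, [])]⟩,
    ⟨[(0, 1), (1, 2)], [(1, 0), (1, 1), (1, 3), (2, 0), (2, 1)], [(0, 1), (1, 1)], [5],
      [(3, 0, [3]), (5, 1, []), (6, 1, [])]⟩,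
    ⟨[(1, 3), (2, 3)], [(2, 1), (3, 0), (3, 1)], [(1, 1)], [2], [(5, 1, []), (6, 1, [])]⟩,
    ⟨[(3, 4)], [(3, 1), (4, 1)], [], [2, 6], [(6, 1, [])]⟩]
  Ta := [((2, 1), 0, 2), ((2, 5), 0, 1), ((3, 4), 0, 4), ((3, 7), 0, 5), ((5, 1), 1, 2), ((5, 2),
    1, 0), ((6, 7), 1, 5), ((6, 8), 1, 6)]
  Tb := [((0, 1, 4), 3, 2, 4), ((1, 0, 2), 2, 3, 0), ((1, 0, 5), 2, 3, 1), ((1, 0, 8), 2, 3, 6),
    ((1, 2, 5), 2, 0, 1), ((1, 2, 8), 2, 0, 6), ((1, 5, 8), 2, 1, 6), ((2, 1, 5), 0, 2, 1),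
    ((3, 4, 7), 0, 4, 5), ((4, 0, 3), 4, 3, 0), ((5, 1, 2), 1, 2, 0), ((6, 7, 8), 1, 5, 6),
    ((7, 3, 6), 5, 0, 1), ((8, 1, 6), 6, 2, 1)]
  Tc := []
  Td := [((0, 3), (2, 1), 2), ((0, 3), (2, 5), 1), ((0, 3), (3, 4), 4), ((0, 3), (3, 7), 5), ((3,
    0), (0, 1), 2), ((3, 0), (0, 4), 4)]
  G := [[0, 0x1414621818a4a1418a81418c46c, 0x281482818424142e, 0x58149418ac818c8186c,
    0x28142818c281428146a], [0, 0, 0xc8148c8124c8182e, 0, 0x98149818c981498146a], [0, 0, 0,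
    0x51419818a9188494845148c1c1c8ed, 0x28142828c162128c42128c8c3], [0, 0, 0, 0,
    0x98985289191c4291849191c8cb]]

noncomputable def n650 : Ent := ⟨e650, noF, [], [], []⟩

def c650 : PLift (Cov.check n650.C.D v650 = true) := ⟨by decide +kernel⟩

def b650 : PLift (entF (fidx ts) 400 650 n650 = true) := ⟨by decide +kernel⟩

theorem g650 : GoodF (fidx ts) 400 650 := GoodF.ofV v650 n650 c650.down b650.down

/-- 474754:571/2 -/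
noncomputable def e651 : SCfg where
  D := {
    a := 6
    L := 9
    kp := 6
    inn := [(0, 1), (1, 0), (1, 2), (1, 3), (2, 1), (2, 3), (3, 1), (3, 2), (3, 4), (4, 3), (4, 5), (5,
      4)]
    mix := [(0, 0), (0, 1), (0, 2), (1, 0), (1, 2), (1, 3), (1, 4), (2, 2), (2, 5), (3, 3), (3, 5), (3,
      6), (3, 7), (4, 5), (4, 6), (4, 8), (5, 1), (5, 6), (5, 8)]
    cl := [3, 2, 0, 0, 5, 1, 1, 6, 4]
    chq := [(0, 3), (3, 0)]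
    rng := [(0, 1), (0, 4), (1, 0), (1, 2), (1, 6), (1, 8), (2, 1), (2, 5), (3, 4), (3, 7), (4, 0), (4,
      3), (5, 2), (5, 8), (6, 1), (6, 7), (7, 3), (7, 6), (8, 1), (8, 5)]
    lev := [] }
  links := [[1, 6, 7, 8], [6, 0, 8, 2, 3, 9, 10], [3, 1, 8, 11], [9, 1, 2, 11, 4, 12, 13], [12, 3, 11,
    14, 5], [12, 4, 14, 7]]
  P := {
    a := 6
    N := 15
    nb := [450, 1869, 2314, 14870, 22568, 20624, 1155, 20833, 2183, 9226, 578, 16668, 8376, 4616,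
      2224]
    tri := [(0, 1, 6), (0, 1, 8), (0, 6, 7), (0, 7, 8), (1, 2, 3), (1, 2, 8), (1, 3, 9), (1, 6, 10),
      (1, 9, 10), (2, 3, 11), (2, 8, 11), (3, 4, 11), (3, 4, 12), (3, 9, 13), (3, 12, 13), (4, 5,
      12), (4, 5, 14), (4, 11, 14), (5, 7, 12), (5, 7, 14)]
    fin := [0, 1, 1, 3, 4, 4, 0, 4, 1, 1, 10, 3, 3, 13, 14]
    chd := [(0, 1)]
    steps := [(0, 6), (1, 2), (1, 8), (1, 9), (3, 11), (3, 12), (4, 5), (4, 7)] }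
  rep := [1, 3, 4, 0, 14, 10, 13]

noncomputable def v651 : Cov.CovD where
  P := 3
  N := 4
  pl := [1, 4, 7, 8]
  lev := [⟨[], [], [(0, 3)], [2], [(0, 3, [0]), (2, 0, [3])]⟩,
    ⟨[], [(0, 0), (0, 3)], [(0, 0), (0, 3)], [5], [(0, 3, [0]), (2, 0, [3]), (3, 0, [3])]⟩,
    ⟨[(0, 1)], [(0, 0), (1, 0), (1, 1), (1, 3)], [(0, 1)], [], [(2, 0, [3]), (5, 1, [])]⟩,
    ⟨[(0, 1), (1, 2)], [(1, 0), (1, 1), (1, 3), (2, 0), (2, 1)], [(0, 1), (1, 1)], [6],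
      [(3, 0, [3]), (5, 1, []), (6, 1, [])]⟩,
    ⟨[(1, 3), (2, 3)], [(2, 1), (3, 0), (3, 1)], [(1, 1)], [4], [(5, 1, []), (6, 1, [])]⟩,
    ⟨[(3, 4)], [(3, 1), (4, 1)], [], [2, 4], [(6, 1, [])]⟩]
  Ta := [((2, 1), 0, 2), ((2, 5), 0, 1), ((3, 4), 0, 5), ((3, 7), 0, 6), ((5, 2), 1, 0), ((5, 8),
    1, 4), ((6, 1), 1, 2), ((6, 7), 1, 6)]
  Tb := [((0, 1, 4), 3, 2, 5), ((1, 0, 2), 2, 3, 0), ((1, 0, 6), 2, 3, 1), ((1, 0, 8), 2, 3, 4),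
    ((1, 2, 6), 2, 0, 1), ((1, 2, 8), 2, 0, 4), ((1, 6, 8), 2, 1, 4), ((2, 1, 5), 0, 2, 1),
    ((3, 4, 7), 0, 5, 6), ((4, 0, 3), 5, 3, 0), ((5, 2, 8), 1, 0, 4), ((6, 1, 7), 1, 2, 6),
    ((7, 3, 6), 6, 0, 1), ((8, 1, 5), 4, 2, 1)]
  Tc := []
  Td := [((0, 3), (2, 1), 2), ((0, 3), (2, 5), 1), ((0, 3), (3, 4), 5), ((0, 3), (3, 7), 6), ((3,
    0), (0, 1), 2), ((3, 0), (0, 4), 5)]
  G := [[0, 0x84a1166411c41ac4a41611ca214c186c26c, 0x24c14884c18482c142e, 0,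
    0x82c1481c18c82c1482c146a], [0, 0, 0x84c12884c18484c142e, 0x84c1481c18a84c1281c146c,
    0x81c1281c18c81c1281c186a], [0, 0, 0, 0, 0x81981c548219819c4281584215819c8cb], [0, 0, 0,
    0x81514c9214c186415819c48494214c419c4e5, 0x81c81c528815819c8281584815819c2cb]]

noncomputable def n651 : Ent := ⟨e651, noF, [], [], []⟩

def c651 : PLift (Cov.check n651.C.D v651 = true) := ⟨by decide +kernel⟩

def b651 : PLift (entF (fidx ts) 400 651 n651 = true) := ⟨by decide +kernel⟩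

theorem g651 : GoodF (fidx ts) 400 651 := GoodF.ofV v651 n651 c651.down b651.down

/-- 474754:571 -/
noncomputable def e652 : SCfg where
  D := {
    a := 6
    L := 10
    kp := 7
    inn := [(0, 1), (1, 0), (1, 2), (1, 3), (2, 1), (2, 3), (3, 1), (3, 2), (3, 4), (4, 3), (4, 5), (5,
      4)]
    mix := [(0, 0), (0, 1), (0, 2), (1, 0), (1, 2), (1, 3), (1, 4), (2, 2), (2, 5), (3, 3), (3, 5), (3,
      6), (3, 7), (4, 5), (4, 6), (4, 8), (5, 6), (5, 8), (5, 9)]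
    cl := [2, 4, 0, 0, 5, 1, 1, 6, 3, 7]
    chq := [(0, 2), (2, 0)]
    rng := [(0, 1), (0, 4), (1, 0), (1, 2), (2, 1), (2, 5), (3, 4), (3, 7), (4, 0), (4, 3), (5, 2), (5,
      8), (6, 7), (6, 9), (7, 3), (7, 6), (8, 5), (8, 9), (9, 6), (9, 8)]
    lev := [] }
  links := [[1, 6, 7, 8], [6, 0, 8, 2, 3, 9, 10], [3, 1, 8, 11], [9, 1, 2, 11, 4, 12, 13], [12, 3, 11,
    14, 5], [12, 4, 14, 15]]
  P := {
    a := 6
    N := 16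
    nb := [450, 1869, 2314, 14870, 22568, 53264, 1155, 321, 2183, 9226, 578, 16668, 41016, 4616,
      34864, 20512]
    tri := [(0, 1, 6), (0, 1, 8), (0, 6, 7), (0, 7, 8), (1, 2, 3), (1, 2, 8), (1, 3, 9), (1, 6, 10),
      (1, 9, 10), (2, 3, 11), (2, 8, 11), (3, 4, 11), (3, 4, 12), (3, 9, 13), (3, 12, 13), (4, 5,
      12), (4, 5, 14), (4, 11, 14), (5, 12, 15), (5, 14, 15)]
    fin := [0, 0, 2, 2, 4, 4, 0, 7, 2, 2, 10, 4, 4, 13, 14, 15]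
    chd := [(0, 2)]
    steps := [(0, 1), (0, 6), (2, 3), (2, 8), (2, 9), (4, 5), (4, 11), (4, 12)] }
  rep := [2, 4, 0, 14, 7, 10, 13, 15]

noncomputable def v652 : Cov.CovD where
  P := 3
  N := 5
  pl := [1, 4, 7, 8, 9]
  lev := [⟨[], [], [(0, 2)], [4], [(0, 2, [0]), (2, 0, [2])]⟩,
    ⟨[], [(0, 0), (0, 2)], [(0, 0), (0, 2)], [5], [(0, 2, [0]), (2, 0, [2]), (3, 0, [2])]⟩,
    ⟨[(0, 1)], [(0, 0), (1, 0), (1, 1), (1, 2)], [(0, 1)], [], [(2, 0, [2]), (5, 1, [])]⟩,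
    ⟨[(0, 1), (1, 2)], [(1, 0), (1, 1), (1, 2), (2, 0), (2, 1)], [(0, 1), (1, 1)], [6],
      [(3, 0, [2]), (5, 1, []), (6, 1, [])]⟩,
    ⟨[(1, 3), (2, 3)], [(2, 1), (3, 0), (3, 1)], [(1, 1)], [3], [(5, 1, []), (6, 1, [])]⟩,
    ⟨[(3, 4)], [(3, 1), (4, 1)], [], [3, 7], [(6, 1, [])]⟩]
  Ta := [((2, 1), 0, 4), ((2, 5), 0, 1), ((3, 4), 0, 5), ((3, 7), 0, 6), ((5, 2), 1, 0), ((5, 8),
    1, 3), ((6, 7), 1, 6), ((6, 9), 1, 7)]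
  Tb := [((0, 1, 4), 2, 4, 5), ((1, 0, 2), 4, 2, 0), ((2, 1, 5), 0, 4, 1), ((3, 4, 7), 0, 5, 6),
    ((4, 0, 3), 5, 2, 0), ((5, 2, 8), 1, 0, 3), ((6, 7, 9), 1, 6, 7), ((7, 3, 6), 6, 0, 1),
    ((8, 5, 9), 3, 1, 7), ((9, 6, 8), 7, 1, 3)]
  Tc := []
  Td := [((0, 2), (2, 1), 4), ((0, 2), (2, 5), 1), ((0, 2), (3, 4), 5), ((0, 2), (3, 7), 6), ((2,
    0), (0, 1), 4), ((2, 0), (0, 4), 5)]
  G := [[0, 0x11a11664121814e2c11611a6811611ca2cc, 0x92c148a6c18425c142e,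
    0x25c142ec18c92c1825c18cc, 0x36c1492c18a25c14a3c14aa], [0, 0, 0x95c14895c18495c182e,
    0x95c1295c14c95c1295c12cc, 0x95c1495c18a95c1495c14aa], [0, 0, 0x25c14292c18492c188e,
    0xc256a9c4365259c8c1, 0x295259c4295259c8a1], [0, 0, 0x95c14895c18495c142e,
    0xc95c59c2c95c59c8c1, 0xc95c59c4c95c59c4a1]]

noncomputable def n652 : Ent := ⟨e652, noF, [], [], [(7, 14, [385746751338780685620664494392815470296102193487288376375156737, 0]), (7, 15, [360035742630636841211993100915356868655746945586763691010338817, 0])]⟩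

def c652 : PLift (Cov.check n652.C.D v652 = true) := ⟨by decide +kernel⟩

def b652 : PLift (entF (fidx ts) 400 652 n652 = true) := ⟨by decide +kernel⟩

theorem g652 : GoodF (fidx ts) 400 652 := GoodF.ofV v652 n652 c652.down b652.down

/-- 474854:572/1 -/
noncomputable def e653 : SCfg where
  D := {
    a := 6
    L := 9
    kp := 6
    inn := [(0, 1), (1, 0), (1, 2), (1, 3), (1, 5), (2, 1), (2, 3), (3, 1), (3, 2), (3, 4), (3, 5), (4,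
      3), (5, 1), (5, 3)]
    mix := [(0, 0), (0, 1), (0, 2), (1, 0), (1, 2), (1, 3), (2, 2), (2, 4), (3, 4), (3, 5), (3, 6), (3,
      7), (4, 1), (4, 4), (4, 5), (4, 8), (5, 3), (5, 7)]
    cl := [2, 4, 0, 0, 1, 1, 5, 3, 6]
    chq := [(1, 3), (3, 1)]
    rng := [(0, 1), (0, 3), (1, 0), (1, 2), (1, 4), (1, 8), (2, 1), (2, 4), (3, 0), (3, 7), (4, 1), (4,
      2), (5, 6), (5, 8), (6, 5), (6, 7), (7, 3), (7, 6), (8, 1), (8, 5)]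
    lev := [] }
  links := [[1, 6, 7, 8], [6, 0, 8, 2, 3, 5, 9], [3, 1, 8, 10], [5, 1, 2, 10, 4, 11, 12, 13], [11, 3, 10,
    7, 14], [9, 1, 3, 13]]
  P := {
    a := 6
    N := 15
    nb := [450, 877, 1290, 15414, 19592, 8714, 643, 17745, 1159, 8290, 412, 20504, 10248, 4648, 2192]
    tri := [(0, 1, 6), (0, 1, 8), (0, 6, 7), (0, 7, 8), (1, 2, 3), (1, 2, 8), (1, 3, 5), (1, 5, 9), (1,
      6, 9), (2, 3, 10), (2, 8, 10), (3, 4, 10), (3, 4, 11), (3, 5, 13), (3, 11, 12), (3, 12, 13),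
      (4, 7, 10), (4, 7, 14), (4, 11, 14), (5, 9, 13)]
    fin := [0, 1, 1, 3, 4, 1, 0, 4, 1, 1, 3, 3, 12, 13, 14]
    chd := [(3, 13)]
    steps := [(0, 6), (1, 2), (1, 5), (1, 8), (1, 9), (3, 10), (3, 11), (4, 7)] }
  rep := [1, 3, 0, 13, 4, 12, 14]

noncomputable def v653 : Cov.CovD where
  P := 3
  N := 4
  pl := [0, 1, 6, 8]
  lev := [⟨[], [], [], [2, 4], [(2, 0, [])]⟩,
    ⟨[], [(0, 0)], [(0, 0)], [2], [(2, 0, []), (3, 0, [])]⟩,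
    ⟨[(0, 1)], [(0, 0), (1, 0), (1, 1)], [(0, 1)], [], [(2, 0, []), (4, 1, [3])]⟩,
    ⟨[(0, 1), (1, 2)], [(1, 0), (1, 1), (1, 3), (2, 0), (2, 1), (2, 3)], [(1, 1), (1, 3)],
      [5], [(4, 1, [3]), (5, 1, [3]), (7, 3, [1])]⟩,
    ⟨[(1, 3), (2, 3)], [(2, 1), (3, 1), (3, 3)], [(1, 1)], [4, 6], [(4, 1, [3]), (5, 1,
      [3])]⟩,
    ⟨[(0, 1), (1, 2), (1, 3), (2, 3), (3, 4)], [(1, 0), (1, 3), (3, 0), (3, 1), (3, 3)],
      [(0, 3)], [], [(3, 0, []), (7, 3, [1])]⟩]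
  Ta := [((2, 1), 0, 4), ((2, 4), 0, 1), ((3, 0), 0, 2), ((3, 7), 0, 3), ((4, 1), 1, 4), ((4, 2),
    1, 0), ((5, 6), 1, 5), ((5, 8), 1, 6)]
  Tb := [((0, 1, 3), 2, 4, 0), ((1, 0, 2), 4, 2, 0), ((1, 0, 4), 4, 2, 1), ((1, 0, 8), 4, 2, 6),
    ((1, 2, 4), 4, 0, 1), ((1, 2, 8), 4, 0, 6), ((1, 4, 8), 4, 1, 6), ((2, 1, 4), 0, 4, 1),
    ((3, 0, 7), 0, 2, 3), ((4, 1, 2), 1, 4, 0), ((5, 6, 8), 1, 5, 6), ((6, 5, 7), 5, 1, 3),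
    ((7, 3, 6), 3, 0, 5), ((8, 1, 5), 6, 4, 1)]
  Tc := []
  Td := [((1, 3), (4, 1), 4), ((1, 3), (4, 2), 0), ((1, 3), (5, 6), 5), ((1, 3), (5, 8), 6), ((3,
    1), (7, 3), 0), ((3, 1), (7, 6), 5)]
  G := [[0, 0x11a11a618a8c411612216e14468c, 0, 0x1292295428984c22522551258c8c,
    0x12911922cd4214522552158c8a], [0, 0, 0, 0x129119229d241154882522592cc,
    0x115414dcccdd188c22], [0, 0, 0x22942292299c42252255225898c, 0x224d48222d222d94c1,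
    0x42c4688da12c2ddc21], [0, 0, 0x244225229222ddc2882c2, 0x2442288d222d922946c1,
    0x42c4288da1c62ddc21]]

noncomputable def n653 : Ent := ⟨e653, noF, [], [], []⟩

def c653 : PLift (Cov.check n653.C.D v653 = true) := ⟨by decide +kernel⟩

def b653 : PLift (entF (fidx ts) 400 653 n653 = true) := ⟨by decide +kernel⟩

theorem g653 : GoodF (fidx ts) 400 653 := GoodF.ofV v653 n653 c653.down b653.down

/-- 474854:572/2 -/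
noncomputable def e654 : SCfg where
  D := {
    a := 6
    L := 9
    kp := 6
    inn := [(0, 1), (1, 0), (1, 2), (1, 3), (1, 5), (2, 1), (2, 3), (3, 1), (3, 2), (3, 4), (3, 5), (4,
      3), (5, 1), (5, 3)]
    mix := [(0, 0), (0, 1), (0, 2), (1, 0), (1, 2), (1, 3), (2, 2), (2, 4), (3, 4), (3, 5), (3, 6), (3,
      7), (4, 1), (4, 4), (4, 5), (4, 8), (5, 3), (5, 7)]
    cl := [2, 4, 0, 0, 1, 1, 5, 3, 6]
    chq := [(1, 3), (3, 1)]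
    rng := [(0, 1), (0, 3), (1, 0), (1, 2), (1, 5), (1, 8), (2, 1), (2, 4), (3, 0), (3, 7), (4, 2), (4,
      8), (5, 1), (5, 6), (6, 5), (6, 7), (7, 3), (7, 6), (8, 1), (8, 4)]
    lev := [] }
  links := [[1, 6, 7, 8], [6, 0, 8, 2, 3, 5, 9], [3, 1, 8, 10], [5, 1, 2, 10, 4, 11, 12, 13], [11, 3, 10,
    14, 7], [9, 1, 3, 13]]
  P := {
    a := 6
    N := 15
    nb := [450, 877, 1290, 15414, 19592, 8714, 643, 18769, 1159, 8290, 16668, 4248, 10248, 4648, 1168]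
    tri := [(0, 1, 6), (0, 1, 8), (0, 6, 7), (0, 7, 8), (1, 2, 3), (1, 2, 8), (1, 3, 5), (1, 5, 9), (1,
      6, 9), (2, 3, 10), (2, 8, 10), (3, 4, 10), (3, 4, 11), (3, 5, 13), (3, 11, 12), (3, 12, 13),
      (4, 7, 11), (4, 7, 14), (4, 10, 14), (5, 9, 13)]
    fin := [0, 1, 1, 3, 4, 1, 0, 4, 1, 1, 3, 3, 12, 13, 14]
    chd := [(3, 13)]
    steps := [(0, 6), (1, 2), (1, 5), (1, 8), (1, 9), (3, 10), (3, 11), (4, 7)] }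
  rep := [1, 3, 0, 13, 4, 12, 14]

noncomputable def v654 : Cov.CovD where
  P := 3
  N := 4
  pl := [0, 1, 6, 8]
  lev := [⟨[], [], [], [2, 4], [(2, 0, [])]⟩,
    ⟨[], [(0, 0)], [(0, 0)], [2], [(2, 0, []), (3, 0, [])]⟩,
    ⟨[(0, 1)], [(0, 0), (1, 0), (1, 1)], [(0, 1)], [], [(2, 0, []), (4, 1, [3])]⟩,
    ⟨[(0, 1), (1, 2)], [(1, 0), (1, 1), (1, 3), (2, 0), (2, 1), (2, 3)], [(1, 1), (1, 3)],
      [5], [(4, 1, [3]), (5, 1, [3]), (7, 3, [1])]⟩,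
    ⟨[(1, 3), (2, 3)], [(2, 1), (3, 1), (3, 3)], [(1, 1)], [4, 6], [(4, 1, [3]), (5, 1,
      [3])]⟩,
    ⟨[(0, 1), (1, 2), (1, 3), (2, 3), (3, 4)], [(1, 0), (1, 3), (3, 0), (3, 1), (3, 3)],
      [(0, 3)], [], [(3, 0, []), (7, 3, [1])]⟩]
  Ta := [((2, 1), 0, 4), ((2, 4), 0, 1), ((3, 0), 0, 2), ((3, 7), 0, 3), ((4, 2), 1, 0), ((4, 8),
    1, 6), ((5, 1), 1, 4), ((5, 6), 1, 5)]
  Tb := [((0, 1, 3), 2, 4, 0), ((1, 0, 2), 4, 2, 0), ((1, 0, 5), 4, 2, 1), ((1, 0, 8), 4, 2, 6),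
    ((1, 2, 5), 4, 0, 1), ((1, 2, 8), 4, 0, 6), ((1, 5, 8), 4, 1, 6), ((2, 1, 4), 0, 4, 1),
    ((3, 0, 7), 0, 2, 3), ((4, 2, 8), 1, 0, 6), ((5, 1, 6), 1, 4, 5), ((6, 5, 7), 5, 1, 3),
    ((7, 3, 6), 3, 0, 5), ((8, 1, 4), 6, 4, 1)]
  Tc := []
  Td := [((1, 3), (4, 2), 0), ((1, 3), (4, 8), 6), ((1, 3), (5, 1), 4), ((1, 3), (5, 6), 5), ((3,
    1), (7, 3), 0), ((3, 1), (7, 6), 5)]
  G := [[0, 0x11a11a618a8c411612216e14468c, 0, 0x21941292299c414522551258c8c,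
    0x115111dcccdd188c22], [0, 0, 0, 0x189229229d242254828522592cc,
    0x12c119225d422454225222d9c8a], [0, 0, 0x2448229222d5288d8cc2, 0x222d222d5218c28c84c1,
    0x222d222d5218c22c84a1], [0, 0, 0x229229c14225225984245229588e, 0x2448222d222d922946c1,
    0x244688da2926addc21]]

noncomputable def n654 : Ent := ⟨e654, noF, [], [], []⟩

def c654 : PLift (Cov.check n654.C.D v654 = true) := ⟨by decide +kernel⟩

def b654 : PLift (entF (fidx ts) 400 654 n654 = true) := ⟨by decide +kernel⟩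

theorem g654 : GoodF (fidx ts) 400 654 := GoodF.ofV v654 n654 c654.down b654.down

/-- 474854:572 -/
noncomputable def e655 : SCfg where
  D := {
    a := 6
    L := 10
    kp := 7
    inn := [(0, 1), (1, 0), (1, 2), (1, 3), (1, 5), (2, 1), (2, 3), (3, 1), (3, 2), (3, 4), (3, 5), (4,
      3), (5, 1), (5, 3)]
    mix := [(0, 0), (0, 1), (0, 2), (1, 0), (1, 2), (1, 3), (2, 2), (2, 4), (3, 4), (3, 5), (3, 6), (3,
      7), (4, 4), (4, 5), (4, 8), (4, 9), (5, 3), (5, 7)]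
    cl := [2, 5, 0, 0, 1, 1, 4, 3, 6, 7]
    chq := [(0, 4), (4, 0)]
    rng := [(0, 1), (0, 3), (1, 0), (1, 2), (2, 1), (2, 4), (3, 0), (3, 7), (4, 2), (4, 8), (5, 6), (5,
      9), (6, 5), (6, 7), (7, 3), (7, 6), (8, 4), (8, 9), (9, 5), (9, 8)]
    lev := [] }
  links := [[1, 6, 7, 8], [6, 0, 8, 2, 3, 5, 9], [3, 1, 8, 10], [5, 1, 2, 10, 4, 11, 12, 13], [11, 3, 10,
    14, 15], [9, 1, 3, 13]]
  P := {
    a := 6
    N := 16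
    nb := [450, 877, 1290, 15414, 52232, 8714, 643, 321, 1159, 8290, 16668, 36888, 10248, 4648, 33808,
      18448]
    tri := [(0, 1, 6), (0, 1, 8), (0, 6, 7), (0, 7, 8), (1, 2, 3), (1, 2, 8), (1, 3, 5), (1, 5, 9), (1,
      6, 9), (2, 3, 10), (2, 8, 10), (3, 4, 10), (3, 4, 11), (3, 5, 13), (3, 11, 12), (3, 12, 13),
      (4, 10, 14), (4, 11, 15), (4, 14, 15), (5, 9, 13)]
    fin := [0, 0, 2, 2, 4, 2, 0, 7, 2, 2, 4, 4, 12, 13, 14, 15]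
    chd := [(2, 12)]
    steps := [(0, 1), (0, 6), (2, 3), (2, 5), (2, 8), (2, 9), (4, 10), (4, 11)] }
  rep := [2, 4, 0, 13, 12, 7, 14, 15]

noncomputable def v655 : Cov.CovD where
  P := 3
  N := 5
  pl := [0, 1, 7, 8, 9]
  lev := [⟨[], [], [], [2, 5], [(2, 0, [4])]⟩,
    ⟨[], [(0, 0)], [(0, 0)], [2], [(2, 0, [4]), (3, 0, [4])]⟩,
    ⟨[(0, 1)], [(0, 0), (1, 0), (1, 1)], [(0, 1)], [], [(2, 0, [4]), (4, 1, [])]⟩,
    ⟨[(0, 1), (1, 2)], [(1, 0), (1, 1), (1, 4), (2, 0), (2, 1), (2, 4)], [(1, 1), (1, 4)],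
      [3], [(4, 1, []), (5, 1, []), (6, 4, [0])]⟩,
    ⟨[(1, 3), (2, 3)], [(2, 1), (3, 1), (3, 4)], [(1, 1)], [6, 7], [(4, 1, []), (5, 1,
      [])]⟩,
    ⟨[(0, 1), (1, 2), (1, 3), (2, 3), (3, 4)], [(1, 0), (3, 0), (3, 1), (3, 4)], [], [3],
      [(3, 0, [4])]⟩]
  Ta := [((2, 1), 0, 5), ((2, 4), 0, 1), ((3, 0), 0, 2), ((3, 7), 0, 3), ((4, 2), 1, 0), ((4, 8),
    1, 6), ((5, 6), 1, 4), ((5, 9), 1, 7)]
  Tb := [((0, 1, 3), 2, 5, 0), ((1, 0, 2), 5, 2, 0), ((2, 1, 4), 0, 5, 1), ((3, 0, 7), 0, 2, 3),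
    ((4, 2, 8), 1, 0, 6), ((5, 6, 9), 1, 4, 7), ((6, 5, 7), 4, 1, 3), ((7, 3, 6), 3, 0, 4),
    ((8, 4, 9), 6, 1, 7), ((9, 5, 8), 7, 1, 6)]
  Tc := []
  Td := [((0, 4), (2, 1), 5), ((0, 4), (2, 4), 1), ((0, 4), (3, 0), 2), ((0, 4), (3, 7), 3), ((4,
    0), (6, 5), 1), ((4, 0), (6, 7), 3)]
  G := [[0, 0x18221e611646118e84c121e2116414eca1882cc, 0, 0x11216ccdd8411662d5118c8c,
    0x2111ac6dd4211662d5118c8a], [0, 0, 0, 0x6a6d124aaad1842111c24d,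
    0x666d148666d1881121c42b], [0, 0, 0x666d148cccd142a, 0x424d48288daa2d94c1,
    0x424d262d5488d8c21], [0, 0, 0xacad184cccd124a, 0x424d662d58288d84c1,
    0x424d262d5428d8c21]]

noncomputable def n655 : Ent := ⟨e655, noF, [], [], [(7, 14, [385746751338780685620664494392815470296102193487288376375169025, 0]), (7, 15, [360035742630636841211993100915356868655746945586763691010351105, 0])]⟩

def c655 : PLift (Cov.check n655.C.D v655 = true) := ⟨by decide +kernel⟩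

def b655 : PLift (entF (fidx ts) 400 655 n655 = true) := ⟨by decide +kernel⟩

theorem g655 : GoodF (fidx ts) 400 655 := GoodF.ofV v655 n655 c655.down b655.down

/-- 474647:574/1 -/
noncomputable def e656 : SCfg where
  D := {
    a := 6
    L := 9
    kp := 7
    inn := [(0, 1), (1, 0), (1, 2), (1, 3), (1, 5), (2, 1), (2, 3), (3, 1), (3, 2), (3, 4), (3, 5), (4,
      3), (5, 1), (5, 3)]
    mix := [(0, 0), (0, 1), (0, 2), (1, 0), (1, 2), (1, 3), (2, 2), (2, 4), (3, 4), (3, 5), (4, 1), (4,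
      4), (4, 5), (5, 3), (5, 5), (5, 6), (5, 7), (5, 8)]
    cl := [2, 4, 0, 0, 1, 3, 5, 6, 7]
    chq := [(1, 3), (1, 5), (1, 6), (1, 7), (3, 1), (5, 1), (6, 1), (7, 1)]
    rng := [(0, 1), (0, 3), (1, 0), (1, 2), (1, 4), (1, 5), (2, 1), (2, 4), (3, 0), (3, 8), (4, 1), (4,
      2), (5, 1), (5, 6), (6, 5), (6, 7), (7, 6), (7, 8), (8, 3), (8, 7)]
    lev := [] }
  links := [[1, 6, 7, 8], [6, 0, 8, 2, 3, 5, 9], [3, 1, 8, 10], [5, 1, 2, 10, 4, 11], [11, 3, 10, 7], [9,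
    1, 3, 11, 12, 13, 14]]
  P := {
    a := 6
    N := 15
    nb := [450, 877, 1290, 3126, 3208, 31242, 643, 3409, 1159, 16482, 412, 4280, 10272, 20512, 8736]
    tri := [(0, 1, 6), (0, 1, 8), (0, 6, 7), (0, 7, 8), (1, 2, 3), (1, 2, 8), (1, 3, 5), (1, 5, 9), (1,
      6, 9), (2, 3, 10), (2, 8, 10), (3, 4, 10), (3, 4, 11), (3, 5, 11), (4, 7, 10), (4, 7, 11),
      (5, 9, 14), (5, 11, 12), (5, 12, 13), (5, 13, 14)]
    fin := [0, 1, 1, 3, 4, 3, 0, 4, 1, 1, 3, 11, 12, 13, 14]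
    chd := [(3, 11), (3, 12), (3, 13), (3, 14)]
    steps := [(0, 6), (1, 2), (1, 8), (1, 9), (3, 5), (3, 10), (4, 7)] }
  rep := [1, 3, 0, 11, 4, 12, 13, 14]

noncomputable def v656 : Cov.CovD where
  P := 3
  N := 5
  pl := [0, 1]
  lev := [⟨[], [], [], [2, 4], [(2, 0, [])]⟩,
    ⟨[], [(0, 0)], [(0, 0)], [2], [(2, 0, []), (3, 0, [])]⟩,
    ⟨[(0, 1)], [(0, 0), (1, 0), (1, 1)], [(0, 1)], [], [(2, 0, []), (4, 1, [3, 5, 6, 7])]⟩,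
    ⟨[(0, 1), (1, 2)], [(1, 0), (1, 1), (1, 3), (2, 0), (2, 1), (2, 3)], [(1, 3)], [], [(4,
      1, [3, 5, 6, 7]), (5, 3, [1])]⟩,
    ⟨[(1, 3), (2, 3)], [(2, 1), (3, 1), (3, 3)], [(1, 3)], [4], [(4, 1, [3, 5, 6, 7]), (5,
      3, [1])]⟩,
    ⟨[(0, 1), (1, 2), (1, 3), (2, 3), (3, 4)], [(1, 0), (1, 3), (1, 5), (1, 6), (1, 7), (3,
      0), (3, 1), (3, 3), (3, 5), (3, 6), (3, 7), (4, 3)], [(0, 3), (0, 5), (0, 6), (0, 7),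
      (3, 5), (3, 6), (3, 7), (5, 6), (5, 7), (6, 7)], [], [(3, 0, []), (5, 3, [1]), (6, 5,
      [1]), (7, 6, [1]), (8, 7, [1])]⟩]
  Ta := [((2, 1), 0, 4), ((2, 4), 0, 1), ((3, 0), 0, 2), ((3, 8), 0, 7)]
  Tb := [((0, 1, 3), 2, 4, 0), ((1, 0, 2), 4, 2, 0), ((1, 0, 4), 4, 2, 1), ((1, 0, 5), 4, 2, 3),
    ((1, 2, 4), 4, 0, 1), ((1, 2, 5), 4, 0, 3), ((1, 4, 5), 4, 1, 3), ((2, 1, 4), 0, 4, 1),
    ((3, 0, 8), 0, 2, 7), ((4, 1, 2), 1, 4, 0), ((5, 1, 6), 3, 4, 5), ((6, 5, 7), 5, 3, 6),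
    ((7, 6, 8), 6, 5, 7), ((8, 3, 7), 7, 0, 6)]
  Tc := [(1, 3, 5), (1, 3, 6), (1, 3, 7), (1, 5, 6), (1, 5, 7), (1, 6, 7)]
  Td := [((1, 3), (4, 1), 4), ((1, 3), (4, 2), 0), ((1, 5), (4, 1), 4), ((1, 5), (4, 2), 0), ((1,
    6), (4, 1), 4), ((1, 6), (4, 2), 0), ((1, 7), (4, 1), 4), ((1, 7), (4, 2), 0), ((3, 1),
    (5, 1), 4), ((3, 1), (5, 6), 5), ((5, 1), (6, 5), 3), ((5, 1), (6, 7), 6), ((6, 1), (7,
    6), 5), ((6, 1), (7, 8), 7), ((7, 1), (8, 3), 0), ((7, 1), (8, 7), 6)]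
  G := [[0, 0x1812a441214c28c, 0, 0x28219442421588c, 0x2822c5482421948a], [0, 0,
    0x28219442421948a, 0x22c219441, 0x22c215881]]

noncomputable def n656 : Ent := ⟨e656, noF, [], [], []⟩

def c656 : PLift (Cov.check n656.C.D v656 = true) := ⟨by decide +kernel⟩

def b656 : PLift (entF (fidx ts) 400 656 n656 = true) := ⟨by decide +kernel⟩

theorem g656 : GoodF (fidx ts) 400 656 := GoodF.ofV v656 n656 c656.down b656.down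

/-- 474647:574 -/
noncomputable def e657 : SCfg where
  D := {
    a := 6
    L := 10
    kp := 8
    inn := [(0, 1), (1, 0), (1, 2), (1, 3), (1, 5), (2, 1), (2, 3), (3, 1), (3, 2), (3, 4), (3, 5), (4,
      3), (5, 1), (5, 3)]
    mix := [(0, 0), (0, 1), (0, 2), (1, 0), (1, 2), (1, 3), (2, 2), (2, 4), (3, 4), (3, 5), (4, 4), (4,
      5), (4, 6), (5, 3), (5, 5), (5, 7), (5, 8), (5, 9)]
    cl := [2, 7, 0, 0, 1, 3, 8, 4, 5, 6]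
    chq := [(1, 3), (1, 4), (1, 5), (1, 6), (3, 1), (4, 1), (5, 1), (6, 1)]
    rng := [(0, 1), (0, 3), (1, 0), (1, 2), (2, 1), (2, 4), (3, 0), (3, 9), (4, 2), (4, 6), (5, 6), (5,
      7), (6, 4), (6, 5), (7, 5), (7, 8), (8, 7), (8, 9), (9, 3), (9, 8)]
    lev := [] }
  links := [[1, 6, 7, 8], [6, 0, 8, 2, 3, 5, 9], [3, 1, 8, 10], [5, 1, 2, 10, 4, 11], [11, 3, 10, 12],
    [9, 1, 3, 11, 13, 14, 15]]
  P := {
    a := 6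
    N := 16
    nb := [450, 877, 1290, 3126, 7176, 59914, 643, 321, 1159, 32866, 4380, 12344, 3088, 18464, 40992,
      16928]
    tri := [(0, 1, 6), (0, 1, 8), (0, 6, 7), (0, 7, 8), (1, 2, 3), (1, 2, 8), (1, 3, 5), (1, 5, 9), (1,
      6, 9), (2, 3, 10), (2, 8, 10), (3, 4, 10), (3, 4, 11), (3, 5, 11), (4, 10, 12), (4, 11, 12),
      (5, 9, 15), (5, 11, 13), (5, 13, 14), (5, 14, 15)]
    fin := [0, 1, 1, 3, 3, 3, 0, 7, 1, 1, 3, 11, 12, 13, 14, 15]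
    chd := [(3, 11), (3, 13), (3, 14), (3, 15)]
    steps := [(0, 6), (1, 2), (1, 8), (1, 9), (3, 4), (3, 5), (3, 10)] }
  rep := [1, 3, 0, 11, 13, 14, 15, 7, 12]

noncomputable def v657 : Cov.CovD where
  P := 3
  N := 6
  pl := [0, 1, 6]
  lev := [⟨[], [], [], [2, 7], [(2, 0, [])]⟩,
    ⟨[], [(0, 0)], [(0, 0)], [2], [(2, 0, []), (3, 0, [])]⟩,
    ⟨[(0, 1)], [(0, 0), (1, 0), (1, 1)], [(0, 1)], [], [(2, 0, []), (4, 1, [3, 4, 5, 6])]⟩,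
    ⟨[(0, 1), (1, 2)], [(1, 0), (1, 1), (1, 3), (2, 0), (2, 1), (2, 3)], [(1, 3)], [], [(4,
      1, [3, 4, 5, 6]), (5, 3, [1])]⟩,
    ⟨[(1, 3), (2, 3)], [(2, 1), (3, 1), (3, 3)], [(1, 3)], [8], [(4, 1, [3, 4, 5, 6]), (5,
      3, [1])]⟩,
    ⟨[(0, 1), (1, 2), (1, 3), (2, 3), (3, 4)], [(1, 0), (1, 3), (1, 4), (1, 5), (1, 6), (3,
      0), (3, 1), (3, 3), (3, 4), (3, 5), (3, 6), (4, 3)], [(0, 3), (0, 4), (0, 5), (0, 6),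
      (3, 4), (3, 5), (3, 6), (4, 5), (4, 6), (5, 6)], [], [(3, 0, []), (5, 3, [1]), (7, 4,
      [1]), (8, 5, [1]), (9, 6, [1])]⟩]
  Ta := [((2, 1), 0, 7), ((2, 4), 0, 1), ((3, 0), 0, 2), ((3, 9), 0, 6)]
  Tb := [((0, 1, 3), 2, 7, 0), ((1, 0, 2), 7, 2, 0), ((2, 1, 4), 0, 7, 1), ((3, 0, 9), 0, 2, 6),
    ((4, 2, 6), 1, 0, 8), ((5, 6, 7), 3, 8, 4), ((6, 4, 5), 8, 1, 3), ((7, 5, 8), 4, 3, 5),
    ((8, 7, 9), 5, 4, 6), ((9, 3, 8), 6, 0, 5)]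
  Tc := [(1, 3, 4), (1, 3, 5), (1, 3, 6), (1, 4, 5), (1, 4, 6), (1, 5, 6)]
  Td := [((1, 3), (4, 2), 0), ((1, 3), (4, 6), 8), ((1, 4), (4, 2), 0), ((1, 4), (4, 6), 8), ((1,
    5), (4, 2), 0), ((1, 5), (4, 6), 8), ((1, 6), (4, 2), 0), ((1, 6), (4, 6), 8), ((3, 1),
    (5, 6), 8), ((3, 1), (5, 7), 4), ((4, 1), (7, 5), 3), ((4, 1), (7, 8), 5), ((5, 1), (8,
    7), 4), ((5, 1), (8, 9), 6), ((6, 1), (9, 3), 0), ((6, 1), (9, 8), 5)]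
  G := [[0, 0x11a211c468116211c8a4c, 0, 0x2428222dd8422c229588c, 0x22a229542448a22c229588a], [0,
    0, 0x22c22594422c229588a, 0x22c2295881, 0x22c2295881]]

noncomputable def n657 : Ent := ⟨e657, noF, [], [], [(7, 12, [385753029973011613167317188540585705112827479461471962593296385, 0])]⟩

def c657 : PLift (Cov.check n657.C.D v657 = true) := ⟨by decide +kernel⟩

def b657 : PLift (entF (fidx ts) 400 657 n657 = true) := ⟨by decide +kernel⟩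

theorem g657 : GoodF (fidx ts) 400 657 := GoodF.ofV v657 n657 c657.down b657.down

/-- 474648:575/1 -/
noncomputable def e658 : SCfg where
  D := {
    a := 6
    L := 10
    kp := 8
    inn := [(0, 1), (1, 0), (1, 2), (1, 3), (1, 5), (2, 1), (2, 3), (3, 1), (3, 2), (3, 4), (3, 5), (4,
      3), (5, 1), (5, 3)]
    mix := [(0, 0), (0, 1), (0, 2), (1, 0), (1, 2), (1, 3), (2, 2), (2, 4), (3, 4), (3, 5), (4, 1), (4,
      4), (4, 5), (5, 3), (5, 5), (5, 6), (5, 7), (5, 8), (5, 9)]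
    cl := [1, 2, 0, 0, 3, 4, 5, 6, 7, 8]
    chq := [(3, 4), (3, 5), (3, 6), (3, 7), (3, 8), (4, 3), (5, 3), (6, 3), (7, 3), (8, 3)]
    rng := [(0, 1), (0, 3), (1, 0), (1, 2), (1, 4), (1, 5), (2, 1), (2, 4), (3, 0), (3, 9), (4, 1), (4,
      2), (5, 1), (5, 6), (6, 5), (6, 7), (7, 6), (7, 8), (8, 7), (8, 9), (9, 3), (9, 8)]
    lev := [] }
  links := [[1, 6, 7, 8], [6, 0, 8, 2, 3, 5, 9], [3, 1, 8, 10], [5, 1, 2, 10, 4, 11], [11, 3, 10, 7], [9,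
    1, 3, 11, 12, 13, 14, 15]]
  P := {
    a := 6
    N := 16
    nb := [450, 877, 1290, 3126, 3208, 64010, 643, 3409, 1159, 32866, 412, 4280, 10272, 20512, 40992,
      16928]
    tri := [(0, 1, 6), (0, 1, 8), (0, 6, 7), (0, 7, 8), (1, 2, 3), (1, 2, 8), (1, 3, 5), (1, 5, 9), (1,
      6, 9), (2, 3, 10), (2, 8, 10), (3, 4, 10), (3, 4, 11), (3, 5, 11), (4, 7, 10), (4, 7, 11),
      (5, 9, 15), (5, 11, 12), (5, 12, 13), (5, 13, 14), (5, 14, 15)]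
    fin := [0, 1, 1, 3, 4, 3, 0, 4, 1, 1, 3, 11, 12, 13, 14, 15]
    chd := [(3, 11), (3, 12), (3, 13), (3, 14), (3, 15)]
    steps := [(0, 6), (1, 2), (1, 8), (1, 9), (3, 5), (3, 10), (4, 7)] }
  rep := [1, 0, 4, 3, 11, 12, 13, 14, 15]

noncomputable def v658 : Cov.CovD where
  P := 3
  N := 6
  pl := [0, 1]
  lev := [⟨[], [], [], [1, 2], [(2, 0, [])]⟩,
    ⟨[], [(0, 0)], [(0, 0)], [1], [(2, 0, []), (3, 0, [])]⟩,
    ⟨[(0, 1)], [(0, 0), (1, 0), (1, 3)], [(0, 3)], [], [(2, 0, []), (4, 3, [4, 5, 6, 7,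
      8])]⟩,
    ⟨[(0, 1), (1, 2)], [(1, 0), (1, 3), (1, 4), (2, 0), (2, 3), (2, 4)], [(3, 4)], [], [(4,
      3, [4, 5, 6, 7, 8]), (5, 4, [3])]⟩,
    ⟨[(1, 3), (2, 3)], [(2, 3), (3, 3), (3, 4)], [(3, 4)], [2], [(4, 3, [4, 5, 6, 7, 8]),
      (5, 4, [3])]⟩,
    ⟨[(0, 1), (1, 2), (1, 3), (2, 3), (3, 4)], [(1, 0), (1, 4), (1, 5), (1, 6), (1, 7), (1,
      8), (3, 0), (3, 3), (3, 4), (3, 5), (3, 6), (3, 7), (3, 8), (4, 4)], [(0, 4), (0, 5),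
      (0, 6), (0, 7), (0, 8), (4, 5), (4, 6), (4, 7), (4, 8), (5, 6), (5, 7), (5, 8), (6, 7),
      (6, 8), (7, 8)], [], [(3, 0, []), (5, 4, [3]), (6, 5, [3]), (7, 6, [3]), (8, 7, [3]),
      (9, 8, [3])]⟩]
  Ta := [((2, 1), 0, 2), ((2, 4), 0, 3), ((3, 0), 0, 1), ((3, 9), 0, 8)]
  Tb := [((0, 1, 3), 1, 2, 0), ((1, 0, 2), 2, 1, 0), ((1, 0, 4), 2, 1, 3), ((1, 0, 5), 2, 1, 4),
    ((1, 2, 4), 2, 0, 3), ((1, 2, 5), 2, 0, 4), ((1, 4, 5), 2, 3, 4), ((2, 1, 4), 0, 2, 3),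
    ((3, 0, 9), 0, 1, 8), ((4, 1, 2), 3, 2, 0), ((5, 1, 6), 4, 2, 5), ((6, 5, 7), 5, 4, 6),
    ((7, 6, 8), 6, 5, 7), ((8, 7, 9), 7, 6, 8), ((9, 3, 8), 8, 0, 7)]
  Tc := [(3, 4, 5), (3, 4, 6), (3, 4, 7), (3, 4, 8), (3, 5, 6), (3, 5, 7), (3, 5, 8), (3, 6, 7),
    (3, 6, 8), (3, 7, 8)]
  Td := [((3, 4), (4, 1), 2), ((3, 4), (4, 2), 0), ((3, 5), (4, 1), 2), ((3, 5), (4, 2), 0), ((3,
    6), (4, 1), 2), ((3, 6), (4, 2), 0), ((3, 7), (4, 1), 2), ((3, 7), (4, 2), 0), ((3, 8),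
    (4, 1), 2), ((3, 8), (4, 2), 0), ((4, 3), (5, 1), 2), ((4, 3), (5, 6), 5), ((5, 3), (6,
    5), 4), ((5, 3), (6, 7), 6), ((6, 3), (7, 6), 5), ((6, 3), (7, 8), 7), ((7, 3), (8, 7),
    6), ((7, 3), (8, 9), 8), ((8, 3), (9, 3), 0), ((8, 3), (9, 8), 7)]
  G := [[0, 0, 0x44a122a8e14c8, 0x5492298522c4, 0x384861792813c48], [0, 0x68a4c1e124, 0,
    0x44c228c522c8, 0x611688182e948]]

noncomputable def n658 : Ent := ⟨e658, noF, [], [], []⟩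

def c658 : PLift (Cov.check n658.C.D v658 = true) := ⟨by decide +kernel⟩

def b658 : PLift (entF (fidx ts) 400 658 n658 = true) := ⟨by decide +kernel⟩

theorem g658 : GoodF (fidx ts) 400 658 := GoodF.ofV v658 n658 c658.down b658.down

/-- 474648:575 -/
noncomputable def e659 : SCfg where
  D := {
    a := 6
    L := 11
    kp := 9
    inn := [(0, 1), (1, 0), (1, 2), (1, 3), (1, 5), (2, 1), (2, 3), (3, 1), (3, 2), (3, 4), (3, 5), (4,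
      3), (5, 1), (5, 3)]
    mix := [(0, 0), (0, 1), (0, 2), (1, 0), (1, 2), (1, 3), (2, 2), (2, 4), (3, 4), (3, 5), (4, 4), (4,
      5), (4, 6), (5, 3), (5, 5), (5, 7), (5, 8), (5, 9), (5, 10)]
    cl := [2, 8, 0, 0, 1, 3, 9, 4, 5, 6, 7]
    chq := [(1, 3), (1, 4), (1, 5), (1, 6), (1, 7), (3, 1), (4, 1), (5, 1), (6, 1), (7, 1)]
    rng := [(0, 1), (0, 3), (1, 0), (1, 2), (2, 1), (2, 4), (3, 0), (3, 10), (4, 2), (4, 6), (5, 6),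
      (5, 7), (6, 4), (6, 5), (7, 5), (7, 8), (8, 7), (8, 9), (9, 8), (9, 10), (10, 3), (10, 9)]
    lev := [] }
  links := [[1, 6, 7, 8], [6, 0, 8, 2, 3, 5, 9], [3, 1, 8, 10], [5, 1, 2, 10, 4, 11], [11, 3, 10, 12],
    [9, 1, 3, 11, 13, 14, 15, 16]]
  P := {
    a := 6
    N := 17
    nb := [450, 877, 1290, 3126, 7176, 125450, 643, 321, 1159, 65634, 4380, 12344, 3088, 18464, 40992,
      81952, 33312]
    tri := [(0, 1, 6), (0, 1, 8), (0, 6, 7), (0, 7, 8), (1, 2, 3), (1, 2, 8), (1, 3, 5), (1, 5, 9), (1,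
      6, 9), (2, 3, 10), (2, 8, 10), (3, 4, 10), (3, 4, 11), (3, 5, 11), (4, 10, 12), (4, 11, 12),
      (5, 9, 16), (5, 11, 13), (5, 13, 14), (5, 14, 15), (5, 15, 16)]
    fin := [0, 1, 1, 3, 3, 3, 0, 7, 1, 1, 3, 11, 12, 13, 14, 15, 16]
    chd := [(3, 11), (3, 13), (3, 14), (3, 15), (3, 16)]
    steps := [(0, 6), (1, 2), (1, 8), (1, 9), (3, 4), (3, 5), (3, 10)] }
  rep := [1, 3, 0, 11, 13, 14, 15, 16, 7, 12]

noncomputable def v659 : Cov.CovD where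
  P := 3
  N := 7
  pl := [0, 1, 6]
  lev := [⟨[], [], [], [2, 8], [(2, 0, [])]⟩,
    ⟨[], [(0, 0)], [(0, 0)], [2], [(2, 0, []), (3, 0, [])]⟩,
    ⟨[(0, 1)], [(0, 0), (1, 0), (1, 1)], [(0, 1)], [], [(2, 0, []), (4, 1, [3, 4, 5, 6,
      7])]⟩,
    ⟨[(0, 1), (1, 2)], [(1, 0), (1, 1), (1, 3), (2, 0), (2, 1), (2, 3)], [(1, 3)], [], [(4,
      1, [3, 4, 5, 6, 7]), (5, 3, [1])]⟩,
    ⟨[(1, 3), (2, 3)], [(2, 1), (3, 1), (3, 3)], [(1, 3)], [9], [(4, 1, [3, 4, 5, 6, 7]),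
      (5, 3, [1])]⟩,
    ⟨[(0, 1), (1, 2), (1, 3), (2, 3), (3, 4)], [(1, 0), (1, 3), (1, 4), (1, 5), (1, 6), (1,
      7), (3, 0), (3, 1), (3, 3), (3, 4), (3, 5), (3, 6), (3, 7), (4, 3)], [(0, 3), (0, 4),
      (0, 5), (0, 6), (0, 7), (3, 4), (3, 5), (3, 6), (3, 7), (4, 5), (4, 6), (4, 7), (5, 6),
      (5, 7), (6, 7)], [], [(3, 0, []), (5, 3, [1]), (7, 4, [1]), (8, 5, [1]), (9, 6, [1]),
      (10, 7, [1])]⟩]
  Ta := [((2, 1), 0, 8), ((2, 4), 0, 1), ((3, 0), 0, 2), ((3, 10), 0, 7)]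
  Tb := [((0, 1, 3), 2, 8, 0), ((1, 0, 2), 8, 2, 0), ((2, 1, 4), 0, 8, 1), ((3, 0, 10), 0, 2, 7),
    ((4, 2, 6), 1, 0, 9), ((5, 6, 7), 3, 9, 4), ((6, 4, 5), 9, 1, 3), ((7, 5, 8), 4, 3, 5),
    ((8, 7, 9), 5, 4, 6), ((9, 8, 10), 6, 5, 7), ((10, 3, 9), 7, 0, 6)]
  Tc := [(1, 3, 4), (1, 3, 5), (1, 3, 6), (1, 3, 7), (1, 4, 5), (1, 4, 6), (1, 4, 7), (1, 5, 6),
    (1, 5, 7), (1, 6, 7)]
  Td := [((1, 3), (4, 2), 0), ((1, 3), (4, 6), 9), ((1, 4), (4, 2), 0), ((1, 4), (4, 6), 9), ((1,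
    5), (4, 2), 0), ((1, 5), (4, 6), 9), ((1, 6), (4, 2), 0), ((1, 6), (4, 6), 9), ((1, 7),
    (4, 2), 0), ((1, 7), (4, 6), 9), ((3, 1), (5, 6), 9), ((3, 1), (5, 7), 4), ((4, 1), (7,
    5), 3), ((4, 1), (7, 8), 5), ((5, 1), (8, 7), 4), ((5, 1), (8, 9), 6), ((6, 1), (9, 8),
    5), ((6, 1), (9, 10), 7), ((7, 1), (10, 3), 0), ((7, 1), (10, 9), 6)]
  G := [[0, 0x116211c8c411a211c468c, 0, 0x22c22594422c229588c, 0x222295422c48a22c229588a], [0,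
    0, 0x229122c45822c2259446, 0x22c2259441, 0x22c2295881]]

noncomputable def n659 : Ent := ⟨e659, noF, [], [], [(7, 12, [1685382419726887998779855760127267502807434353888247252031585722369, 0])]⟩

def c659 : PLift (Cov.check n659.C.D v659 = true) := ⟨by decide +kernel⟩

def b659 : PLift (entF (fidx ts) 400 659 n659 = true) := ⟨by decide +kernel⟩

theorem g659 : GoodF (fidx ts) 400 659 := GoodF.ofV v659 n659 c659.down b659.down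

/-- 474644:576/1 -/
noncomputable def e660 : SCfg where
  D := {
    a := 6
    L := 7
    kp := 5
    inn := [(0, 1), (1, 0), (1, 2), (1, 3), (1, 5), (2, 1), (2, 3), (3, 1), (3, 2), (3, 4), (4, 3), (5,
      1)]
    mix := [(0, 0), (0, 1), (0, 2), (1, 0), (1, 2), (1, 3), (2, 2), (2, 4), (3, 3), (3, 4), (3, 5), (4,
      1), (4, 4), (4, 5), (5, 0), (5, 3), (5, 6)]
    cl := [1, 2, 0, 0, 3, 4, 5]
    chq := [(0, 1), (1, 0), (3, 4), (4, 3)]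
    rng := [(0, 1), (0, 6), (1, 0), (1, 2), (1, 4), (1, 5), (2, 1), (2, 4), (3, 5), (3, 6), (4, 1), (4,
      2), (5, 1), (5, 3), (6, 0), (6, 3)]
    lev := [] }
  links := [[1, 6, 7, 8], [6, 0, 8, 2, 3, 9, 5], [3, 1, 8, 10], [9, 1, 2, 10, 4, 11], [11, 3, 10, 7], [6,
    1, 9, 12]]
  P := {
    a := 6
    N := 13
    nb := [450, 877, 1290, 3606, 3208, 4674, 4259, 3409, 1159, 6186, 412, 664, 608]
    tri := [(0, 1, 6), (0, 1, 8), (0, 6, 7), (0, 7, 8), (1, 2, 3), (1, 2, 8), (1, 3, 9), (1, 5, 6), (1,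
      5, 9), (2, 3, 10), (2, 8, 10), (3, 4, 10), (3, 4, 11), (3, 9, 11), (4, 7, 10), (4, 7, 11),
      (5, 6, 12), (5, 9, 12)]
    fin := [0, 0, 2, 2, 4, 0, 0, 7, 2, 2, 4, 11, 12]
    chd := [(0, 2), (4, 11)]
    steps := [(0, 1), (0, 5), (0, 6), (2, 3), (2, 8), (2, 9), (4, 10)] }
  rep := [2, 0, 7, 4, 11, 12]

noncomputable def v660 : Cov.CovD where
  P := 3
  N := 3
  pl := [1, 6]
  lev := [⟨[], [], [(0, 1)], [2], [(0, 1, [0]), (2, 0, [1])]⟩,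
    ⟨[], [(0, 0), (0, 1)], [(0, 0), (0, 1)], [], [(0, 1, [0]), (2, 0, [1]), (3, 0, [1])]⟩,
    ⟨[(0, 1)], [(0, 0), (1, 0), (1, 1), (1, 3)], [(0, 3)], [], [(2, 0, [1]), (4, 3, [4])]⟩,
    ⟨[(0, 1), (1, 2)], [(1, 0), (1, 1), (1, 3), (1, 4), (2, 0), (2, 3), (2, 4)], [(0, 3),
      (0, 4), (3, 4)], [], [(3, 0, [1]), (4, 3, [4]), (5, 4, [3])]⟩,
    ⟨[(1, 3), (2, 3)], [(2, 3), (3, 0), (3, 3), (3, 4)], [(3, 4)], [2], [(4, 3, [4]), (5,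
      4, [3])]⟩,
    ⟨[(0, 1), (1, 2), (1, 3)], [(0, 1), (1, 0), (1, 1), (3, 0)], [(0, 1)], [5], [(0, 1,
      [0]), (3, 0, [1])]⟩]
  Ta := [((2, 1), 0, 2), ((2, 4), 0, 3), ((3, 5), 0, 4), ((3, 6), 0, 5)]
  Tb := [((0, 1, 6), 1, 2, 5), ((1, 0, 2), 2, 1, 0), ((1, 0, 4), 2, 1, 3), ((1, 0, 5), 2, 1, 4),
    ((1, 2, 4), 2, 0, 3), ((1, 2, 5), 2, 0, 4), ((1, 4, 5), 2, 3, 4), ((2, 1, 4), 0, 2, 3),
    ((3, 5, 6), 0, 4, 5), ((4, 1, 2), 3, 2, 0), ((5, 1, 3), 4, 2, 0), ((6, 0, 3), 5, 1, 0)]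
  Tc := []
  Td := [((0, 1), (2, 1), 2), ((0, 1), (2, 4), 3), ((0, 1), (3, 5), 4), ((0, 1), (3, 6), 5), ((1,
    0), (0, 1), 2), ((1, 0), (0, 6), 5), ((3, 4), (4, 1), 2), ((3, 4), (4, 2), 0), ((4, 3),
    (5, 1), 2), ((4, 3), (5, 3), 0)]
  G := [[0, 0x61c1a1e184, 0x12483cc61c8818c4, 0x111d2288, 0x11911641112a8c8], [0, 0xa1c1c1e128,
    0, 0xcccd2281, 0x4144c881c2e1c8]]

noncomputable def n660 : Ent := ⟨e660, noF, [], [], []⟩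

def c660 : PLift (Cov.check n660.C.D v660 = true) := ⟨by decide +kernel⟩

def b660 : PLift (entF (fidx ts) 400 660 n660 = true) := ⟨by decide +kernel⟩

theorem g660 : GoodF (fidx ts) 400 660 := GoodF.ofV v660 n660 c660.down b660.down

/-- 474644:576 -/
noncomputable def e661 : SCfg where
  D := {
    a := 6
    L := 8
    kp := 6
    inn := [(0, 1), (1, 0), (1, 2), (1, 3), (1, 5), (2, 1), (2, 3), (3, 1), (3, 2), (3, 4), (4, 3), (5,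
      1)]
    mix := [(0, 0), (0, 1), (0, 2), (1, 0), (1, 2), (1, 3), (2, 2), (2, 4), (3, 3), (3, 4), (3, 5), (4,
      4), (4, 5), (4, 6), (5, 0), (5, 3), (5, 7)]
    cl := [2, 5, 1, 0, 0, 3, 6, 4]
    chq := [(1, 2), (1, 4), (2, 1), (4, 1)]
    rng := [(0, 1), (0, 7), (1, 0), (1, 2), (2, 1), (2, 4), (3, 5), (3, 7), (4, 2), (4, 6), (5, 3), (5,
      6), (6, 4), (6, 5), (7, 0), (7, 3)]
    lev := [] }
  links := [[1, 6, 7, 8], [6, 0, 8, 2, 3, 9, 5], [3, 1, 8, 10], [9, 1, 2, 10, 4, 11], [11, 3, 10, 12],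
    [6, 1, 9, 13]]
  P := {
    a := 6
    N := 14
    nb := [450, 877, 1290, 3606, 7176, 8770, 8355, 321, 1159, 10282, 4380, 4632, 3088, 608]
    tri := [(0, 1, 6), (0, 1, 8), (0, 6, 7), (0, 7, 8), (1, 2, 3), (1, 2, 8), (1, 3, 9), (1, 5, 6), (1,
      5, 9), (2, 3, 10), (2, 8, 10), (3, 4, 10), (3, 4, 11), (3, 9, 11), (4, 10, 12), (4, 11, 12),
      (5, 6, 13), (5, 9, 13)]
    fin := [0, 1, 1, 3, 3, 1, 0, 7, 1, 3, 3, 11, 12, 13]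
    chd := [(0, 1), (1, 13)]
    steps := [(0, 6), (1, 2), (1, 5), (1, 8), (3, 4), (3, 10), (3, 9)] }
  rep := [3, 1, 0, 11, 13, 7, 12]

noncomputable def v661 : Cov.CovD where
  P := 3
  N := 4
  pl := [1, 5, 6]
  lev := [⟨[], [], [(1, 2)], [5], [(0, 2, [1]), (2, 1, [2, 4])]⟩,
    ⟨[], [(0, 0), (0, 1), (0, 2)], [(0, 1), (0, 2), (1, 2)], [], [(0, 2, [1]), (2, 1, [2,
      4]), (3, 0, [])]⟩,
    ⟨[(0, 1)], [(0, 1), (1, 0), (1, 1), (1, 2)], [(0, 1)], [], [(2, 1, [2, 4]), (4, 0,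
      [])]⟩,
    ⟨[(0, 1), (1, 2)], [(1, 0), (1, 1), (1, 2), (2, 0), (2, 1)], [(0, 0)], [3], [(3, 0,
      []), (4, 0, [])]⟩,
    ⟨[(1, 3), (2, 3)], [(2, 0), (3, 0)], [], [3, 6], [(4, 0, [])]⟩,
    ⟨[(0, 1), (1, 2), (1, 3)], [(0, 2), (1, 0), (1, 1), (1, 2), (1, 4), (3, 0)], [(0, 2),
      (0, 4), (2, 4)], [], [(0, 2, [1]), (3, 0, []), (7, 4, [1])]⟩]
  Ta := [((3, 5), 0, 3), ((3, 7), 0, 4), ((4, 2), 0, 1), ((4, 6), 0, 6)]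
  Tb := [((0, 1, 7), 2, 5, 4), ((1, 0, 2), 5, 2, 1), ((2, 1, 4), 1, 5, 0), ((3, 5, 7), 0, 3, 4),
    ((4, 2, 6), 0, 1, 6), ((5, 3, 6), 3, 0, 6), ((6, 4, 5), 6, 0, 3), ((7, 0, 3), 4, 2, 0)]
  Tc := [(1, 2, 4)]
  Td := [((1, 2), (2, 1), 5), ((1, 2), (2, 4), 0), ((1, 4), (2, 1), 5), ((1, 4), (2, 4), 0), ((2,
    1), (0, 1), 5), ((2, 1), (0, 7), 4), ((4, 1), (7, 0), 2), ((4, 1), (7, 3), 0)]
  G := [[0, 0, 0x21226a4422c226a14c, 0x21226a8421226a849, 0x2122a64821226a489], [0,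
    0x11a211c46811c11a688c, 0x22c226a4422c22a688c, 0x24226288a122c216a449,
    0x2442822ac121c21a6889]]

noncomputable def n661 : Ent := ⟨e661, noF, [], [], [(7, 12, [19926558533506552585326781773177673327977379185604247553, 0])]⟩

def c661 : PLift (Cov.check n661.C.D v661 = true) := ⟨by decide +kernel⟩

def b661 : PLift (entF (fidx ts) 400 661 n661 = true) := ⟨by decide +kernel⟩

theorem g661 : GoodF (fidx ts) 400 661 := GoodF.ofV v661 n661 c661.down b661.down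

/-- 474646:577/1 -/
noncomputable def e662 : SCfg where
  D := {
    a := 6
    L := 9
    kp := 7
    inn := [(0, 1), (1, 0), (1, 2), (1, 3), (1, 5), (2, 1), (2, 3), (3, 1), (3, 2), (3, 4), (4, 3), (5,
      1)]
    mix := [(0, 0), (0, 1), (0, 2), (1, 0), (1, 2), (1, 3), (2, 2), (2, 4), (3, 3), (3, 4), (3, 5), (4,
      1), (4, 4), (4, 5), (5, 0), (5, 3), (5, 6), (5, 7), (5, 8)]
    cl := [1, 2, 0, 3, 3, 4, 5, 6, 7]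
    chq := [(0, 1), (0, 5), (0, 6), (0, 7), (1, 0), (5, 0), (6, 0), (7, 0)]
    rng := [(0, 1), (0, 8), (1, 0), (1, 2), (1, 4), (1, 5), (2, 1), (2, 4), (3, 5), (3, 6), (4, 1), (4,
      2), (5, 1), (5, 3), (6, 3), (6, 7), (7, 6), (7, 8), (8, 0), (8, 7)]
    lev := [] }
  links := [[1, 6, 7, 8], [6, 0, 8, 2, 3, 9, 5], [3, 1, 8, 10], [9, 1, 2, 10, 4, 11], [11, 3, 10, 7], [6,
    1, 9, 12, 13, 14]]
  P := {
    a := 6
    N := 15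
    nb := [450, 877, 1290, 3606, 3208, 29250, 16547, 3409, 1159, 6186, 412, 664, 8736, 20512, 8288]
    tri := [(0, 1, 6), (0, 1, 8), (0, 6, 7), (0, 7, 8), (1, 2, 3), (1, 2, 8), (1, 3, 9), (1, 5, 6), (1,
      5, 9), (2, 3, 10), (2, 8, 10), (3, 4, 10), (3, 4, 11), (3, 9, 11), (4, 7, 10), (4, 7, 11),
      (5, 6, 14), (5, 9, 12), (5, 12, 13), (5, 13, 14)]
    fin := [0, 1, 1, 3, 4, 1, 0, 4, 1, 3, 3, 11, 12, 13, 14]
    chd := [(0, 1), (1, 12), (1, 13), (1, 14)]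
    steps := [(0, 6), (1, 2), (1, 5), (1, 8), (3, 10), (3, 9), (4, 7)] }
  rep := [1, 0, 4, 3, 11, 12, 13, 14]

noncomputable def v662 : Cov.CovD where
  P := 3
  N := 5
  pl := [1, 5]
  lev := [⟨[], [], [(0, 1)], [2], [(0, 1, [0]), (2, 0, [1, 5, 6, 7])]⟩,
    ⟨[], [(0, 0), (0, 1), (0, 3)], [(0, 1), (0, 3), (1, 3)], [], [(0, 1, [0]), (2, 0, [1,
      5, 6, 7]), (3, 3, [])]⟩,
    ⟨[(0, 1)], [(0, 0), (1, 0), (1, 1), (1, 3)], [(0, 3)], [], [(2, 0, [1, 5, 6, 7]), (4,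
      3, [])]⟩,
    ⟨[(0, 1), (1, 2)], [(1, 0), (1, 1), (1, 3), (2, 0), (2, 3)], [(3, 3)], [4], [(3, 3,
      []), (4, 3, [])]⟩,
    ⟨[(1, 3), (2, 3)], [(2, 3), (3, 3)], [], [2, 4], [(4, 3, [])]⟩,
    ⟨[(0, 1), (1, 2), (1, 3)], [(0, 1), (1, 0), (1, 1), (1, 3), (1, 5), (1, 6), (1, 7), (3,
      3)], [(1, 3), (1, 5), (1, 6), (1, 7), (3, 5), (3, 6), (3, 7), (5, 6), (5, 7), (6, 7)],
      [], [(0, 1, [0]), (3, 3, []), (6, 5, [0]), (7, 6, [0]), (8, 7, [0])]⟩]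
  Ta := [((3, 5), 3, 4), ((3, 6), 3, 5), ((4, 1), 3, 2), ((4, 2), 3, 0)]
  Tb := [((0, 1, 8), 1, 2, 7), ((1, 0, 2), 2, 1, 0), ((1, 0, 4), 2, 1, 3), ((1, 0, 5), 2, 1, 4),
    ((1, 2, 4), 2, 0, 3), ((1, 2, 5), 2, 0, 4), ((1, 4, 5), 2, 3, 4), ((2, 1, 4), 0, 2, 3),
    ((3, 5, 6), 3, 4, 5), ((4, 1, 2), 3, 2, 0), ((5, 1, 3), 4, 2, 3), ((6, 3, 7), 5, 3, 6),
    ((7, 6, 8), 6, 5, 7), ((8, 0, 7), 7, 1, 6)]
  Tc := [(0, 1, 5), (0, 1, 6), (0, 1, 7), (0, 5, 6), (0, 5, 7), (0, 6, 7)]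
  Td := [((0, 1), (2, 1), 2), ((0, 1), (2, 4), 3), ((0, 5), (2, 1), 2), ((0, 5), (2, 4), 3), ((0,
    6), (2, 1), 2), ((0, 6), (2, 4), 3), ((0, 7), (2, 1), 2), ((0, 7), (2, 4), 3), ((1, 0),
    (0, 1), 2), ((1, 0), (0, 8), 7), ((5, 0), (6, 3), 3), ((5, 0), (6, 7), 6), ((6, 0), (7,
    6), 5), ((6, 0), (7, 8), 7), ((7, 0), (8, 0), 1), ((7, 0), (8, 7), 6)]
  G := [[0, 0x14113824, 0x11a1411c12c4, 0x11c2211922c4, 0x12115848], [0, 0x181411e124,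
    0x11c111a1684, 0x111d2284, 0x181211b18129648]]

noncomputable def n662 : Ent := ⟨e662, noF, [], [], []⟩

def c662 : PLift (Cov.check n662.C.D v662 = true) := ⟨by decide +kernel⟩

def b662 : PLift (entF (fidx ts) 400 662 n662 = true) := ⟨by decide +kernel⟩

theorem g662 : GoodF (fidx ts) 400 662 := GoodF.ofV v662 n662 c662.down b662.down

/-- 474646:577 -/
noncomputable def e663 : SCfg where
  D := {
    a := 6
    L := 10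
    kp := 8
    inn := [(0, 1), (1, 0), (1, 2), (1, 3), (1, 5), (2, 1), (2, 3), (3, 1), (3, 2), (3, 4), (4, 3), (5,
      1)]
    mix := [(0, 0), (0, 1), (0, 2), (1, 0), (1, 2), (1, 3), (2, 2), (2, 4), (3, 3), (3, 4), (3, 5), (4,
      4), (4, 5), (4, 6), (5, 0), (5, 3), (5, 7), (5, 8), (5, 9)]
    cl := [2, 7, 1, 0, 0, 3, 8, 4, 5, 6]
    chq := [(1, 2), (1, 4), (1, 5), (1, 6), (2, 1), (4, 1), (5, 1), (6, 1)]
    rng := [(0, 1), (0, 9), (1, 0), (1, 2), (2, 1), (2, 4), (3, 5), (3, 7), (4, 2), (4, 6), (5, 3), (5,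
      6), (6, 4), (6, 5), (7, 3), (7, 8), (8, 7), (8, 9), (9, 0), (9, 8)]
    lev := [] }
  links := [[1, 6, 7, 8], [6, 0, 8, 2, 3, 9, 5], [3, 1, 8, 10], [9, 1, 2, 10, 4, 11], [11, 3, 10, 12],
    [6, 1, 9, 13, 14, 15]]
  P := {
    a := 6
    N := 16
    nb := [450, 877, 1290, 3606, 7176, 57922, 32931, 321, 1159, 10282, 4380, 4632, 3088, 16928, 40992,
      16480]
    tri := [(0, 1, 6), (0, 1, 8), (0, 6, 7), (0, 7, 8), (1, 2, 3), (1, 2, 8), (1, 3, 9), (1, 5, 6), (1,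
      5, 9), (2, 3, 10), (2, 8, 10), (3, 4, 10), (3, 4, 11), (3, 9, 11), (4, 10, 12), (4, 11, 12),
      (5, 6, 15), (5, 9, 13), (5, 13, 14), (5, 14, 15)]
    fin := [0, 1, 1, 3, 3, 1, 0, 7, 1, 3, 3, 11, 12, 13, 14, 15]
    chd := [(0, 1), (1, 13), (1, 14), (1, 15)]
    steps := [(0, 6), (1, 2), (1, 5), (1, 8), (3, 4), (3, 10), (3, 9)] }
  rep := [3, 1, 0, 11, 13, 14, 15, 7, 12]

noncomputable def v663 : Cov.CovD where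
  P := 3
  N := 6
  pl := [1, 5, 6]
  lev := [⟨[], [], [(1, 2)], [7], [(0, 2, [1]), (2, 1, [2, 4, 5, 6])]⟩,
    ⟨[], [(0, 0), (0, 1), (0, 2)], [(0, 1), (0, 2), (1, 2)], [], [(0, 2, [1]), (2, 1, [2,
      4, 5, 6]), (3, 0, [])]⟩,
    ⟨[(0, 1)], [(0, 1), (1, 0), (1, 1), (1, 2)], [(0, 1)], [], [(2, 1, [2, 4, 5, 6]), (4,
      0, [])]⟩,
    ⟨[(0, 1), (1, 2)], [(1, 0), (1, 1), (1, 2), (2, 0), (2, 1)], [(0, 0)], [3], [(3, 0,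
      []), (4, 0, [])]⟩,
    ⟨[(1, 3), (2, 3)], [(2, 0), (3, 0)], [], [3, 8], [(4, 0, [])]⟩,
    ⟨[(0, 1), (1, 2), (1, 3)], [(0, 2), (1, 0), (1, 1), (1, 2), (1, 4), (1, 5), (1, 6), (3,
      0)], [(0, 2), (0, 4), (0, 5), (0, 6), (2, 4), (2, 5), (2, 6), (4, 5), (4, 6), (5, 6)],
      [], [(0, 2, [1]), (3, 0, []), (7, 4, [1]), (8, 5, [1]), (9, 6, [1])]⟩]
  Ta := [((3, 5), 0, 3), ((3, 7), 0, 4), ((4, 2), 0, 1), ((4, 6), 0, 8)]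
  Tb := [((0, 1, 9), 2, 7, 6), ((1, 0, 2), 7, 2, 1), ((2, 1, 4), 1, 7, 0), ((3, 5, 7), 0, 3, 4),
    ((4, 2, 6), 0, 1, 8), ((5, 3, 6), 3, 0, 8), ((6, 4, 5), 8, 0, 3), ((7, 3, 8), 4, 0, 5),
    ((8, 7, 9), 5, 4, 6), ((9, 0, 8), 6, 2, 5)]
  Tc := [(1, 2, 4), (1, 2, 5), (1, 2, 6), (1, 4, 5), (1, 4, 6), (1, 5, 6)]
  Td := [((1, 2), (2, 1), 7), ((1, 2), (2, 4), 0), ((1, 4), (2, 1), 7), ((1, 4), (2, 4), 0), ((1,
    5), (2, 1), 7), ((1, 5), (2, 4), 0), ((1, 6), (2, 1), 7), ((1, 6), (2, 4), 0), ((2, 1),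
    (0, 1), 7), ((2, 1), (0, 9), 6), ((4, 1), (7, 3), 0), ((4, 1), (7, 8), 5), ((5, 1), (8,
    7), 4), ((5, 1), (8, 9), 6), ((6, 1), (9, 0), 2), ((6, 1), (9, 8), 5)]
  G := [[0, 0, 0x22c21a4422c21688c, 0x21226a4421226c289, 0x2122a6482122a6889], [0,
    0x11c116a441442122188acc, 0x22c226a4422c22a688c, 0x2822a2446122c22a6889,
    0x24226288c122c22a6889]]

noncomputable def n663 : Ent := ⟨e663, noF, [], [], [(7, 12, [385753029973011613167317188540585705112827479461471962593320961, 0])]⟩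

def c663 : PLift (Cov.check n663.C.D v663 = true) := ⟨by decide +kernel⟩

def b663 : PLift (entF (fidx ts) 400 663 n663 = true) := ⟨by decide +kernel⟩

theorem g663 : GoodF (fidx ts) 400 663 := GoodF.ofV v663 n663 c663.down b663.down

/-- 474647:578/1 -/
noncomputable def e664 : SCfg where
  D := {
    a := 6
    L := 10
    kp := 8
    inn := [(0, 1), (1, 0), (1, 2), (1, 3), (1, 5), (2, 1), (2, 3), (3, 1), (3, 2), (3, 4), (4, 3), (5,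
      1)]
    mix := [(0, 0), (0, 1), (0, 2), (1, 0), (1, 2), (1, 3), (2, 2), (2, 4), (3, 3), (3, 4), (3, 5), (4,
      1), (4, 4), (4, 5), (5, 0), (5, 3), (5, 6), (5, 7), (5, 8), (5, 9)]
    cl := [1, 2, 0, 3, 3, 4, 5, 6, 7, 8]
    chq := [(0, 1), (0, 5), (0, 6), (0, 7), (0, 8), (1, 0), (5, 0), (6, 0), (7, 0), (8, 0)]
    rng := [(0, 1), (0, 9), (1, 0), (1, 2), (1, 4), (1, 5), (2, 1), (2, 4), (3, 5), (3, 6), (4, 1), (4,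
      2), (5, 1), (5, 3), (6, 3), (6, 7), (7, 6), (7, 8), (8, 7), (8, 9), (9, 0), (9, 8)]
    lev := [] }
  links := [[1, 6, 7, 8], [6, 0, 8, 2, 3, 9, 5], [3, 1, 8, 10], [9, 1, 2, 10, 4, 11], [11, 3, 10, 7], [6,
    1, 9, 12, 13, 14, 15]]
  P := {
    a := 6
    N := 16
    nb := [450, 877, 1290, 3606, 3208, 62018, 32931, 3409, 1159, 6186, 412, 664, 8736, 20512, 40992,
      16480]
    tri := [(0, 1, 6), (0, 1, 8), (0, 6, 7), (0, 7, 8), (1, 2, 3), (1, 2, 8), (1, 3, 9), (1, 5, 6), (1,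
      5, 9), (2, 3, 10), (2, 8, 10), (3, 4, 10), (3, 4, 11), (3, 9, 11), (4, 7, 10), (4, 7, 11),
      (5, 6, 15), (5, 9, 12), (5, 12, 13), (5, 13, 14), (5, 14, 15)]
    fin := [0, 1, 1, 3, 4, 1, 0, 4, 1, 3, 3, 11, 12, 13, 14, 15]
    chd := [(0, 1), (1, 12), (1, 13), (1, 14), (1, 15)]
    steps := [(0, 6), (1, 2), (1, 5), (1, 8), (3, 10), (3, 9), (4, 7)] }
  rep := [1, 0, 4, 3, 11, 12, 13, 14, 15]

noncomputable def v664 : Cov.CovD where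
  P := 3
  N := 6
  pl := [1, 5]
  lev := [⟨[], [], [(0, 1)], [2], [(0, 1, [0]), (2, 0, [1, 5, 6, 7, 8])]⟩,
    ⟨[], [(0, 0), (0, 1), (0, 3)], [(0, 1), (0, 3), (1, 3)], [], [(0, 1, [0]), (2, 0, [1,
      5, 6, 7, 8]), (3, 3, [])]⟩,
    ⟨[(0, 1)], [(0, 0), (1, 0), (1, 1), (1, 3)], [(0, 3)], [], [(2, 0, [1, 5, 6, 7, 8]),
      (4, 3, [])]⟩,
    ⟨[(0, 1), (1, 2)], [(1, 0), (1, 1), (1, 3), (2, 0), (2, 3)], [(3, 3)], [4], [(3, 3,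
      []), (4, 3, [])]⟩,
    ⟨[(1, 3), (2, 3)], [(2, 3), (3, 3)], [], [2, 4], [(4, 3, [])]⟩,
    ⟨[(0, 1), (1, 2), (1, 3)], [(0, 1), (1, 0), (1, 1), (1, 3), (1, 5), (1, 6), (1, 7), (1,
      8), (3, 3)], [(1, 3), (1, 5), (1, 6), (1, 7), (1, 8), (3, 5), (3, 6), (3, 7), (3, 8),
      (5, 6), (5, 7), (5, 8), (6, 7), (6, 8), (7, 8)], [], [(0, 1, [0]), (3, 3, []), (6, 5,
      [0]), (7, 6, [0]), (8, 7, [0]), (9, 8, [0])]⟩]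
  Ta := [((3, 5), 3, 4), ((3, 6), 3, 5), ((4, 1), 3, 2), ((4, 2), 3, 0)]
  Tb := [((0, 1, 9), 1, 2, 8), ((1, 0, 2), 2, 1, 0), ((1, 0, 4), 2, 1, 3), ((1, 0, 5), 2, 1, 4),
    ((1, 2, 4), 2, 0, 3), ((1, 2, 5), 2, 0, 4), ((1, 4, 5), 2, 3, 4), ((2, 1, 4), 0, 2, 3),
    ((3, 5, 6), 3, 4, 5), ((4, 1, 2), 3, 2, 0), ((5, 1, 3), 4, 2, 3), ((6, 3, 7), 5, 3, 6),
    ((7, 6, 8), 6, 5, 7), ((8, 7, 9), 7, 6, 8), ((9, 0, 8), 8, 1, 7)]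
  Tc := [(0, 1, 5), (0, 1, 6), (0, 1, 7), (0, 1, 8), (0, 5, 6), (0, 5, 7), (0, 5, 8), (0, 6, 7),
    (0, 6, 8), (0, 7, 8)]
  Td := [((0, 1), (2, 1), 2), ((0, 1), (2, 4), 3), ((0, 5), (2, 1), 2), ((0, 5), (2, 4), 3), ((0,
    6), (2, 1), 2), ((0, 6), (2, 4), 3), ((0, 7), (2, 1), 2), ((0, 7), (2, 4), 3), ((0, 8),
    (2, 1), 2), ((0, 8), (2, 4), 3), ((1, 0), (0, 1), 2), ((1, 0), (0, 9), 8), ((5, 0), (6,
    3), 3), ((5, 0), (6, 7), 6), ((6, 0), (7, 6), 5), ((6, 0), (7, 8), 7), ((7, 0), (8, 7),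
    6), ((7, 0), (8, 9), 8), ((8, 0), (9, 0), 1), ((8, 0), (9, 8), 7)]
  G := [[0, 0x14113828, 0x11c1811a12c4, 0x1152211922c8, 0x18115248], [0, 0x181411e124,
    0x11c111a1684, 0x111d2248, 0x12113181211bc48]]

noncomputable def n664 : Ent := ⟨e664, noF, [], [], []⟩

def c664 : PLift (Cov.check n664.C.D v664 = true) := ⟨by decide +kernel⟩

def b664 : PLift (entF (fidx ts) 400 664 n664 = true) := ⟨by decide +kernel⟩

theorem g664 : GoodF (fidx ts) 400 664 := GoodF.ofV v664 n664 c664.down b664.down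

/-- 474647:578 -/
noncomputable def e665 : SCfg where
  D := {
    a := 6
    L := 11
    kp := 9
    inn := [(0, 1), (1, 0), (1, 2), (1, 3), (1, 5), (2, 1), (2, 3), (3, 1), (3, 2), (3, 4), (4, 3), (5,
      1)]
    mix := [(0, 0), (0, 1), (0, 2), (1, 0), (1, 2), (1, 3), (2, 2), (2, 4), (3, 3), (3, 4), (3, 5), (4,
      4), (4, 5), (4, 6), (5, 0), (5, 3), (5, 7), (5, 8), (5, 9), (5, 10)]
    cl := [2, 8, 1, 0, 0, 3, 9, 4, 5, 6, 7]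
    chq := [(1, 2), (1, 4), (1, 5), (1, 6), (1, 7), (2, 1), (4, 1), (5, 1), (6, 1), (7, 1)]
    rng := [(0, 1), (0, 10), (1, 0), (1, 2), (2, 1), (2, 4), (3, 5), (3, 7), (4, 2), (4, 6), (5, 3),
      (5, 6), (6, 4), (6, 5), (7, 3), (7, 8), (8, 7), (8, 9), (9, 8), (9, 10), (10, 0), (10, 9)]
    lev := [] }
  links := [[1, 6, 7, 8], [6, 0, 8, 2, 3, 9, 5], [3, 1, 8, 10], [9, 1, 2, 10, 4, 11], [11, 3, 10, 12],
    [6, 1, 9, 13, 14, 15, 16]]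
  P := {
    a := 6
    N := 17
    nb := [450, 877, 1290, 3606, 7176, 123458, 65699, 321, 1159, 10282, 4380, 4632, 3088, 16928,
      40992, 81952, 32864]
    tri := [(0, 1, 6), (0, 1, 8), (0, 6, 7), (0, 7, 8), (1, 2, 3), (1, 2, 8), (1, 3, 9), (1, 5, 6), (1,
      5, 9), (2, 3, 10), (2, 8, 10), (3, 4, 10), (3, 4, 11), (3, 9, 11), (4, 10, 12), (4, 11, 12),
      (5, 6, 16), (5, 9, 13), (5, 13, 14), (5, 14, 15), (5, 15, 16)]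
    fin := [0, 1, 1, 3, 3, 1, 0, 7, 1, 3, 3, 11, 12, 13, 14, 15, 16]
    chd := [(0, 1), (1, 13), (1, 14), (1, 15), (1, 16)]
    steps := [(0, 6), (1, 2), (1, 5), (1, 8), (3, 4), (3, 10), (3, 9)] }
  rep := [3, 1, 0, 11, 13, 14, 15, 16, 7, 12]

noncomputable def v665 : Cov.CovD where
  P := 3
  N := 7
  pl := [1, 5, 6]
  lev := [⟨[], [], [(1, 2)], [8], [(0, 2, [1]), (2, 1, [2, 4, 5, 6, 7])]⟩,
    ⟨[], [(0, 0), (0, 1), (0, 2)], [(0, 1), (0, 2), (1, 2)], [], [(0, 2, [1]), (2, 1, [2,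
      4, 5, 6, 7]), (3, 0, [])]⟩,
    ⟨[(0, 1)], [(0, 1), (1, 0), (1, 1), (1, 2)], [(0, 1)], [], [(2, 1, [2, 4, 5, 6, 7]),
      (4, 0, [])]⟩,
    ⟨[(0, 1), (1, 2)], [(1, 0), (1, 1), (1, 2), (2, 0), (2, 1)], [(0, 0)], [3], [(3, 0,
      []), (4, 0, [])]⟩,
    ⟨[(1, 3), (2, 3)], [(2, 0), (3, 0)], [], [3, 9], [(4, 0, [])]⟩,
    ⟨[(0, 1), (1, 2), (1, 3)], [(0, 2), (1, 0), (1, 1), (1, 2), (1, 4), (1, 5), (1, 6), (1,
      7), (3, 0)], [(0, 2), (0, 4), (0, 5), (0, 6), (0, 7), (2, 4), (2, 5), (2, 6), (2, 7),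
      (4, 5), (4, 6), (4, 7), (5, 6), (5, 7), (6, 7)], [], [(0, 2, [1]), (3, 0, []), (7, 4,
      [1]), (8, 5, [1]), (9, 6, [1]), (10, 7, [1])]⟩]
  Ta := [((3, 5), 0, 3), ((3, 7), 0, 4), ((4, 2), 0, 1), ((4, 6), 0, 9)]
  Tb := [((0, 1, 10), 2, 8, 7), ((1, 0, 2), 8, 2, 1), ((2, 1, 4), 1, 8, 0), ((3, 5, 7), 0, 3, 4),
    ((4, 2, 6), 0, 1, 9), ((5, 3, 6), 3, 0, 9), ((6, 4, 5), 9, 0, 3), ((7, 3, 8), 4, 0, 5),
    ((8, 7, 9), 5, 4, 6), ((9, 8, 10), 6, 5, 7), ((10, 0, 9), 7, 2, 6)]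
  Tc := [(1, 2, 4), (1, 2, 5), (1, 2, 6), (1, 2, 7), (1, 4, 5), (1, 4, 6), (1, 4, 7), (1, 5, 6),
    (1, 5, 7), (1, 6, 7)]
  Td := [((1, 2), (2, 1), 8), ((1, 2), (2, 4), 0), ((1, 4), (2, 1), 8), ((1, 4), (2, 4), 0), ((1,
    5), (2, 1), 8), ((1, 5), (2, 4), 0), ((1, 6), (2, 1), 8), ((1, 6), (2, 4), 0), ((1, 7),
    (2, 1), 8), ((1, 7), (2, 4), 0), ((2, 1), (0, 1), 8), ((2, 1), (0, 10), 7), ((4, 1), (7,
    3), 0), ((4, 1), (7, 8), 5), ((5, 1), (8, 7), 4), ((5, 1), (8, 9), 6), ((6, 1), (9, 8),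
    5), ((6, 1), (9, 10), 7), ((7, 1), (10, 0), 2), ((7, 1), (10, 9), 6)]
  G := [[0, 0, 0x2122a6482122a688c, 0x2122a68421226a849, 0x222b2164822c216889], [0,
    0x14421812a4c11c11a688c, 0x22c226a4422c22a688c, 0x22c22a68122a222c4685,
    0x24226288c122c22a6889]]

noncomputable def n665 : Ent := ⟨e665, noF, [], [], [(7, 12, [1685382419726887998779855760127267502807434353888247252031585746945, 0])]⟩

def c665 : PLift (Cov.check n665.C.D v665 = true) := ⟨by decide +kernel⟩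

def b665 : PLift (entF (fidx ts) 400 665 n665 = true) := ⟨by decide +kernel⟩

theorem g665 : GoodF (fidx ts) 400 665 := GoodF.ofV v665 n665 c665.down b665.down

/-- 474649:580/1 -/
noncomputable def e666 : SCfg where
  D := {
    a := 6
    L := 10
    kp := 8
    inn := [(0, 1), (1, 0), (1, 2), (1, 3), (2, 1), (2, 3), (2, 5), (3, 1), (3, 2), (3, 4), (3, 5), (4,
      3), (4, 5), (5, 2), (5, 3), (5, 4)]
    mix := [(0, 0), (0, 1), (0, 2), (1, 0), (1, 2), (1, 3), (1, 4), (2, 2), (3, 3), (3, 5), (4, 5), (4,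
      6), (5, 1), (5, 2), (5, 6), (5, 7), (5, 8), (5, 9)]
    cl := [2, 3, 0, 1, 0, 5, 4, 6, 7, 8]
    chq := [(1, 3), (1, 4), (1, 6), (1, 7), (1, 8), (3, 1), (4, 1), (6, 1), (7, 1), (8, 1)]
    rng := [(0, 1), (0, 4), (1, 0), (1, 2), (1, 7), (2, 1), (3, 4), (3, 5), (4, 0), (4, 3), (5, 3), (5,
      6), (6, 5), (6, 9), (7, 1), (7, 8), (8, 7), (8, 9), (9, 6), (9, 8)]
    lev := [] }
  links := [[1, 6, 7, 8], [6, 0, 8, 2, 3, 9, 10], [3, 1, 8, 5], [9, 1, 2, 5, 4, 11], [11, 3, 5, 12], [12,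
    4, 3, 2, 8, 7, 13, 14, 15]]
  P := {
    a := 6
    N := 16
    nb := [450, 1869, 298, 2614, 6184, 61852, 1155, 8545, 167, 3082, 578, 4632, 34864, 16544, 40992,
      20512]
    tri := [(0, 1, 6), (0, 1, 8), (0, 6, 7), (0, 7, 8), (1, 2, 3), (1, 2, 8), (1, 3, 9), (1, 6, 10),
      (1, 9, 10), (2, 3, 5), (2, 5, 8), (3, 4, 5), (3, 4, 11), (3, 9, 11), (4, 5, 12), (4, 11,
      12), (5, 7, 8), (5, 7, 13), (5, 12, 15), (5, 13, 14), (5, 14, 15)]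
    fin := [0, 1, 1, 3, 4, 3, 0, 7, 1, 3, 1, 11, 4, 13, 14, 15]
    chd := [(3, 4), (3, 13), (3, 14), (3, 15), (7, 3)]
    steps := [(0, 6), (1, 2), (1, 8), (1, 10), (3, 5), (3, 9), (4, 12)] }
  rep := [1, 3, 0, 7, 4, 11, 13, 14, 15]

noncomputable def v666 : Cov.CovD where
  P := 3
  N := 6
  pl := [0, 5]
  lev := [⟨[], [], [(0, 3)], [2], [(1, 3, [1]), (2, 0, [])]⟩,
    ⟨[], [(0, 0), (0, 1), (0, 3)], [(0, 0), (0, 1)], [2], [(2, 0, []), (3, 1, [3, 4, 6, 7,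
      8]), (4, 0, [])]⟩,
    ⟨[(0, 1)], [(0, 0), (1, 0), (1, 1)], [], [], [(2, 0, [])]⟩,
    ⟨[(0, 1), (1, 2)], [(1, 0), (1, 1), (2, 0), (2, 1)], [], [5], [(3, 1, [3, 4, 6, 7,
      8])]⟩,
    ⟨[(1, 3), (2, 3)], [(3, 1), (3, 4)], [], [5], [(6, 4, [1])]⟩,
    ⟨[(1, 2), (1, 3), (2, 3), (2, 4), (3, 4)], [(0, 0), (0, 3), (1, 0), (2, 0), (2, 3), (2,
      4), (2, 6), (2, 7), (2, 8), (3, 0), (3, 1), (3, 3), (3, 4), (3, 6), (3, 7), (3, 8), (4,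
      0), (4, 3), (4, 4), (4, 6), (4, 7), (4, 8)], [(0, 3), (0, 4), (0, 6), (0, 7), (0, 8),
      (3, 4), (3, 6), (3, 7), (3, 8), (4, 6), (4, 7), (4, 8), (6, 7), (6, 8), (7, 8)], [],
      [(1, 3, [1]), (2, 0, []), (6, 4, [1]), (7, 6, [1]), (8, 7, [1]), (9, 8, [1])]⟩]
  Ta := [((2, 1), 0, 3), ((4, 0), 0, 2), ((4, 3), 0, 1)]
  Tb := [((0, 1, 4), 2, 3, 0), ((1, 0, 2), 3, 2, 0), ((1, 0, 7), 3, 2, 6), ((1, 2, 7), 3, 0, 6),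
    ((3, 4, 5), 1, 0, 5), ((4, 0, 3), 0, 2, 1), ((5, 3, 6), 5, 1, 4), ((6, 5, 9), 4, 5, 8),
    ((7, 1, 8), 6, 3, 7), ((8, 7, 9), 7, 6, 8), ((9, 6, 8), 8, 4, 7)]
  Tc := [(1, 3, 4), (1, 3, 6), (1, 3, 7), (1, 3, 8), (1, 4, 6), (1, 4, 7), (1, 4, 8), (1, 6, 7),
    (1, 6, 8), (1, 7, 8)]
  Td := [((1, 3), (3, 4), 0), ((1, 3), (3, 5), 5), ((1, 4), (3, 4), 0), ((1, 4), (3, 5), 5), ((1,
    6), (3, 4), 0), ((1, 6), (3, 5), 5), ((1, 7), (3, 4), 0), ((1, 7), (3, 5), 5), ((1, 8),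
    (3, 4), 0), ((1, 8), (3, 5), 5), ((3, 1), (1, 0), 2), ((3, 1), (1, 2), 0), ((3, 1), (1,
    7), 6), ((4, 1), (6, 5), 5), ((4, 1), (6, 9), 8), ((6, 1), (7, 1), 3), ((6, 1), (7, 8),
    7), ((7, 1), (8, 7), 6), ((7, 1), (8, 9), 8), ((8, 1), (9, 6), 4), ((8, 1), (9, 8), 7)]
  G := [[0, 0, 0, 0x2251422c84c22c229588c, 0x24428219c222c229588a], [0,
    0x14421812a4c116211c8a4c, 0x225122c89422c2295886, 0x22c2259441, 0x22c2295881]]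

noncomputable def n666 : Ent := ⟨e666, noF, [], [], []⟩

def c666 : PLift (Cov.check n666.C.D v666 = true) := ⟨by decide +kernel⟩

def b666 : PLift (entF (fidx ts) 400 666 n666 = true) := ⟨by decide +kernel⟩

theorem g666 : GoodF (fidx ts) 400 666 := GoodF.ofV v666 n666 c666.down b666.down

/-- 474649:580 -/
noncomputable def e667 : SCfg where
  D := {
    a := 6
    L := 11
    kp := 9
    inn := [(0, 1), (1, 0), (1, 2), (1, 3), (2, 1), (2, 3), (2, 5), (3, 1), (3, 2), (3, 4), (3, 5), (4,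
      3), (4, 5), (5, 2), (5, 3), (5, 4)]
    mix := [(0, 0), (0, 1), (0, 2), (1, 0), (1, 2), (1, 3), (1, 4), (2, 2), (3, 3), (3, 5), (4, 5), (4,
      6), (5, 2), (5, 6), (5, 7), (5, 8), (5, 9), (5, 10)]
    cl := [2, 9, 0, 1, 0, 4, 3, 5, 6, 7, 8]
    chq := [(1, 3), (1, 5), (1, 6), (1, 7), (1, 8), (3, 1), (5, 1), (6, 1), (7, 1), (8, 1)]
    rng := [(0, 1), (0, 4), (1, 0), (1, 2), (2, 1), (2, 7), (3, 4), (3, 5), (4, 0), (4, 3), (5, 3), (5,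
      6), (6, 5), (6, 10), (7, 2), (7, 8), (8, 7), (8, 9), (9, 8), (9, 10), (10, 6), (10, 9)]
    lev := [] }
  links := [[1, 6, 7, 8], [6, 0, 8, 2, 3, 9, 10], [3, 1, 8, 5], [9, 1, 2, 5, 4, 11], [11, 3, 5, 12], [12,
    4, 3, 2, 8, 13, 14, 15, 16]]
  P := {
    a := 6
    N := 17
    nb := [450, 1869, 298, 2614, 6184, 127260, 1155, 321, 8359, 3082, 578, 4632, 67632, 16672, 40992,
      81952, 36896]
    tri := [(0, 1, 6), (0, 1, 8), (0, 6, 7), (0, 7, 8), (1, 2, 3), (1, 2, 8), (1, 3, 9), (1, 6, 10),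
      (1, 9, 10), (2, 3, 5), (2, 5, 8), (3, 4, 5), (3, 4, 11), (3, 9, 11), (4, 5, 12), (4, 11,
      12), (5, 8, 13), (5, 12, 16), (5, 13, 14), (5, 14, 15), (5, 15, 16)]
    fin := [0, 1, 1, 3, 4, 3, 0, 7, 1, 3, 1, 11, 4, 13, 14, 15, 16]
    chd := [(3, 4), (3, 13), (3, 14), (3, 15), (3, 16)]
    steps := [(0, 6), (1, 2), (1, 8), (1, 10), (3, 5), (3, 9), (4, 12)] }
  rep := [1, 3, 0, 4, 11, 13, 14, 15, 16, 7]

noncomputable def v667 : Cov.CovD where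
  P := 3
  N := 7
  pl := [0, 1, 5]
  lev := [⟨[], [], [], [2, 9], [(2, 0, [])]⟩,
    ⟨[], [(0, 0), (0, 1)], [(0, 0), (0, 1)], [2], [(2, 0, []), (3, 1, [3, 5, 6, 7, 8]), (4,
      0, [])]⟩,
    ⟨[(0, 1)], [(0, 0), (1, 0), (1, 1)], [], [], [(2, 0, [])]⟩,
    ⟨[(0, 1), (1, 2)], [(1, 0), (1, 1), (2, 0), (2, 1)], [], [4], [(3, 1, [3, 5, 6, 7,
      8])]⟩,
    ⟨[(1, 3), (2, 3)], [(3, 1), (3, 3)], [], [4], [(6, 3, [1])]⟩,
    ⟨[(1, 2), (1, 3), (2, 3), (2, 4), (3, 4)], [(0, 0), (1, 0), (2, 0), (2, 3), (2, 5), (2,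
      6), (2, 7), (2, 8), (3, 0), (3, 1), (3, 3), (3, 5), (3, 6), (3, 7), (3, 8), (4, 0), (4,
      3), (4, 5), (4, 6), (4, 7), (4, 8)], [(0, 3), (0, 5), (0, 6), (0, 7), (0, 8), (3, 5),
      (3, 6), (3, 7), (3, 8), (5, 6), (5, 7), (5, 8), (6, 7), (6, 8), (7, 8)], [], [(2, 0,
      []), (6, 3, [1]), (7, 5, [1]), (8, 6, [1]), (9, 7, [1]), (10, 8, [1])]⟩]
  Ta := [((2, 1), 0, 9), ((2, 7), 0, 5), ((4, 0), 0, 2), ((4, 3), 0, 1)]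
  Tb := [((0, 1, 4), 2, 9, 0), ((1, 0, 2), 9, 2, 0), ((2, 1, 7), 0, 9, 5), ((3, 4, 5), 1, 0, 4),
    ((4, 0, 3), 0, 2, 1), ((5, 3, 6), 4, 1, 3), ((6, 5, 10), 3, 4, 8), ((7, 2, 8), 5, 0, 6),
    ((8, 7, 9), 6, 5, 7), ((9, 8, 10), 7, 6, 8), ((10, 6, 9), 8, 3, 7)]
  Tc := [(1, 3, 5), (1, 3, 6), (1, 3, 7), (1, 3, 8), (1, 5, 6), (1, 5, 7), (1, 5, 8), (1, 6, 7),
    (1, 6, 8), (1, 7, 8)]
  Td := [((1, 3), (3, 4), 0), ((1, 3), (3, 5), 4), ((1, 5), (3, 4), 0), ((1, 5), (3, 5), 4), ((1,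
    6), (3, 4), 0), ((1, 6), (3, 5), 4), ((1, 7), (3, 4), 0), ((1, 7), (3, 5), 4), ((1, 8),
    (3, 4), 0), ((1, 8), (3, 5), 4), ((3, 1), (6, 5), 4), ((3, 1), (6, 10), 8), ((5, 1), (7,
    2), 0), ((5, 1), (7, 8), 6), ((6, 1), (8, 7), 5), ((6, 1), (8, 9), 7), ((7, 1), (9, 8),
    6), ((7, 1), (9, 10), 8), ((8, 1), (10, 6), 3), ((8, 1), (10, 9), 7)]
  G := [[0, 0, 0, 0x2251422c84c22c229588c, 0x22a229542448a22c229588a], [0,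
    0x11a211c46811c11a688c, 0x22c22594422c229588c, 0x22c2259441, 0x22c2295881]]

noncomputable def n667 : Ent := ⟨e667, noF, [], [], [(7, 13, [1685382419725355503238989871268909155780284044704628512909402152961, 0])]⟩

def c667 : PLift (Cov.check n667.C.D v667 = true) := ⟨by decide +kernel⟩

def b667 : PLift (entF (fidx ts) 400 667 n667 = true) := ⟨by decide +kernel⟩

theorem g667 : GoodF (fidx ts) 400 667 := GoodF.ofV v667 n667 c667.down b667.down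

/-- 474855:583/1 -/
noncomputable def e668 : SCfg where
  D := {
    a := 6
    L := 10
    kp := 7
    inn := [(0, 1), (1, 0), (1, 2), (1, 3), (1, 5), (2, 1), (2, 3), (3, 1), (3, 2), (3, 4), (3, 5), (4,
      3), (5, 1), (5, 3)]
    mix := [(0, 0), (0, 1), (0, 2), (1, 0), (1, 2), (1, 3), (2, 2), (2, 4), (3, 4), (3, 5), (3, 6), (3,
      7), (4, 1), (4, 5), (4, 6), (4, 8), (5, 3), (5, 7), (5, 9)]
    cl := [1, 2, 0, 0, 5, 3, 3, 4, 6, 7]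
    chq := [(0, 3), (0, 4), (3, 0), (4, 0)]
    rng := [(0, 1), (0, 3), (1, 0), (1, 2), (1, 5), (1, 8), (2, 1), (2, 4), (3, 0), (3, 9), (4, 2), (4,
      5), (5, 1), (5, 4), (6, 7), (6, 8), (7, 6), (7, 9), (8, 1), (8, 6), (9, 3), (9, 7)]
    lev := [] }
  links := [[1, 6, 7, 8], [6, 0, 8, 2, 3, 5, 9], [3, 1, 8, 10], [5, 1, 2, 10, 11, 4, 12, 13], [12, 3, 11,
    7, 14], [9, 1, 3, 13, 15]]
  P := {
    a := 6
    N := 16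
    nb := [450, 877, 1290, 15414, 22664, 41482, 643, 18769, 1159, 32866, 2316, 1176, 24600, 36904,
      4240, 8736]
    tri := [(0, 1, 6), (0, 1, 8), (0, 6, 7), (0, 7, 8), (1, 2, 3), (1, 2, 8), (1, 3, 5), (1, 5, 9), (1,
      6, 9), (2, 3, 10), (2, 8, 10), (3, 4, 11), (3, 4, 12), (3, 5, 13), (3, 10, 11), (3, 12, 13),
      (4, 7, 11), (4, 7, 14), (4, 12, 14), (5, 9, 15), (5, 13, 15)]
    fin := [0, 1, 1, 3, 4, 1, 0, 4, 1, 1, 10, 3, 3, 13, 14, 15]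
    chd := [(1, 3), (1, 13)]
    steps := [(0, 6), (1, 2), (1, 5), (1, 8), (1, 9), (3, 11), (3, 12), (4, 7)] }
  rep := [1, 0, 4, 3, 13, 10, 14, 15]

noncomputable def v668 : Cov.CovD where
  P := 3
  N := 5
  pl := [0, 1, 4, 8, 9]
  lev := [⟨[], [], [], [1, 2], [(2, 0, [3, 4])]⟩,
    ⟨[], [(0, 0)], [(0, 0)], [1], [(2, 0, [3, 4]), (3, 0, [3, 4])]⟩,
    ⟨[(0, 1)], [(0, 0), (1, 0)], [], [5], [(2, 0, [3, 4])]⟩,
    ⟨[(0, 1), (1, 2)], [(1, 0), (1, 3), (1, 4), (2, 0), (2, 3), (2, 4)], [(3, 3), (3, 4)],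
      [5], [(5, 3, [0]), (6, 3, [0]), (7, 4, [0])]⟩,
    ⟨[(1, 3), (2, 3)], [(3, 3), (3, 4)], [(3, 3)], [2, 6], [(5, 3, [0]), (6, 3, [0])]⟩,
    ⟨[(0, 1), (1, 2), (1, 3), (2, 3), (3, 4)], [(1, 0), (1, 4), (3, 0), (3, 3), (3, 4)],
      [(0, 4)], [7], [(3, 0, [3, 4]), (7, 4, [0])]⟩]
  Ta := [((2, 1), 0, 2), ((2, 4), 0, 5), ((3, 0), 0, 1), ((3, 9), 0, 7), ((5, 1), 3, 2), ((5, 4),
    3, 5), ((6, 7), 3, 4), ((6, 8), 3, 6)]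
  Tb := [((0, 1, 3), 1, 2, 0), ((1, 0, 2), 2, 1, 0), ((1, 0, 5), 2, 1, 3), ((1, 0, 8), 2, 1, 6),
    ((1, 2, 5), 2, 0, 3), ((1, 2, 8), 2, 0, 6), ((1, 5, 8), 2, 3, 6), ((2, 1, 4), 0, 2, 5),
    ((3, 0, 9), 0, 1, 7), ((4, 2, 5), 5, 0, 3), ((5, 1, 4), 3, 2, 5), ((6, 7, 8), 3, 4, 6),
    ((7, 6, 9), 4, 3, 7), ((8, 1, 6), 6, 2, 3), ((9, 3, 7), 7, 0, 4)]
  Tc := [(0, 3, 4)]
  Td := [((0, 3), (2, 1), 2), ((0, 3), (2, 4), 5), ((0, 3), (3, 0), 1), ((0, 3), (3, 9), 7), ((0,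
    4), (2, 1), 2), ((0, 4), (2, 4), 5), ((0, 4), (3, 0), 1), ((0, 4), (3, 9), 7), ((3, 0),
    (5, 1), 2), ((3, 0), (5, 4), 5), ((3, 0), (6, 7), 4), ((3, 0), (6, 8), 6), ((4, 0), (7,
    6), 3), ((4, 0), (7, 9), 7)]
  G := [[0, 0, 0xeeee1eeee1a48, 0x1443443175eeed9181111ddc4cdf181a9cbc8,
    0x1211a1236e9f1812aa3b1a9111b189ecafa14f48], [0, 0, 0xeeee1eeee1684,
    0x14645711b9e8edd1411dd8c57e18811c83c4, 0x113b441a3ee331881a918ea9b128112efc8], [0,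
    0xeeed1eeed1684, 0, 0xeeed1cccd1116d4711ad33ada1c4, 0x646b148a8b1eeeb111ab11ab11abe7c8],
    [0, 0xee51ee91c24, 0, 0x116d416eed18814c91116d31adafc8, 0xee311c9ee9311cb11ab12eb48]]

noncomputable def n668 : Ent := ⟨e668, noF, [], [], []⟩

def c668 : PLift (Cov.check n668.C.D v668 = true) := ⟨by decide +kernel⟩

def b668 : PLift (entF (fidx ts) 400 668 n668 = true) := ⟨by decide +kernel⟩

theorem g668 : GoodF (fidx ts) 400 668 := GoodF.ofV v668 n668 c668.down b668.down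

/-- 474855:583/2 -/
noncomputable def e669 : SCfg where
  D := {
    a := 6
    L := 10
    kp := 7
    inn := [(0, 1), (1, 0), (1, 2), (1, 3), (1, 5), (2, 1), (2, 3), (3, 1), (3, 2), (3, 4), (3, 5), (4,
      3), (5, 1), (5, 3)]
    mix := [(0, 0), (0, 1), (0, 2), (1, 0), (1, 2), (1, 3), (2, 2), (2, 4), (3, 4), (3, 5), (3, 6), (3,
      7), (4, 1), (4, 5), (4, 6), (4, 8), (5, 3), (5, 7), (5, 9)]
    cl := [1, 2, 0, 0, 5, 3, 3, 4, 6, 7]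
    chq := [(0, 3), (0, 4), (3, 0), (4, 0)]
    rng := [(0, 1), (0, 3), (1, 0), (1, 2), (1, 6), (1, 8), (2, 1), (2, 4), (3, 0), (3, 9), (4, 2), (4,
      5), (5, 4), (5, 8), (6, 1), (6, 7), (7, 6), (7, 9), (8, 1), (8, 5), (9, 3), (9, 7)]
    lev := [] }
  links := [[1, 6, 7, 8], [6, 0, 8, 2, 3, 5, 9], [3, 1, 8, 10], [5, 1, 2, 10, 11, 4, 12, 13], [12, 3, 11,
    14, 7], [9, 1, 3, 13, 15]]
  P := {
    a := 6
    N := 16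
    nb := [450, 877, 1290, 15414, 22664, 41482, 643, 20817, 1159, 32866, 2316, 17432, 8344, 36904,
      2192, 8736]
    tri := [(0, 1, 6), (0, 1, 8), (0, 6, 7), (0, 7, 8), (1, 2, 3), (1, 2, 8), (1, 3, 5), (1, 5, 9), (1,
      6, 9), (2, 3, 10), (2, 8, 10), (3, 4, 11), (3, 4, 12), (3, 5, 13), (3, 10, 11), (3, 12, 13),
      (4, 7, 12), (4, 7, 14), (4, 11, 14), (5, 9, 15), (5, 13, 15)]
    fin := [0, 1, 1, 3, 4, 1, 0, 4, 1, 1, 10, 3, 3, 13, 14, 15]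
    chd := [(1, 3), (1, 13)]
    steps := [(0, 6), (1, 2), (1, 5), (1, 8), (1, 9), (3, 11), (3, 12), (4, 7)] }
  rep := [1, 0, 4, 3, 13, 10, 14, 15]

noncomputable def v669 : Cov.CovD where
  P := 3
  N := 5
  pl := [0, 1, 4, 8, 9]
  lev := [⟨[], [], [], [1, 2], [(2, 0, [3, 4])]⟩,
    ⟨[], [(0, 0)], [(0, 0)], [1], [(2, 0, [3, 4]), (3, 0, [3, 4])]⟩,
    ⟨[(0, 1)], [(0, 0), (1, 0)], [], [5], [(2, 0, [3, 4])]⟩,
    ⟨[(0, 1), (1, 2)], [(1, 0), (1, 3), (1, 4), (2, 0), (2, 3), (2, 4)], [(3, 3), (3, 4)],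
      [5], [(5, 3, [0]), (6, 3, [0]), (7, 4, [0])]⟩,
    ⟨[(1, 3), (2, 3)], [(3, 3), (3, 4)], [(3, 3)], [2, 6], [(5, 3, [0]), (6, 3, [0])]⟩,
    ⟨[(0, 1), (1, 2), (1, 3), (2, 3), (3, 4)], [(1, 0), (1, 4), (3, 0), (3, 3), (3, 4)],
      [(0, 4)], [7], [(3, 0, [3, 4]), (7, 4, [0])]⟩]
  Ta := [((2, 1), 0, 2), ((2, 4), 0, 5), ((3, 0), 0, 1), ((3, 9), 0, 7), ((5, 4), 3, 5), ((5, 8),
    3, 6), ((6, 1), 3, 2), ((6, 7), 3, 4)]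
  Tb := [((0, 1, 3), 1, 2, 0), ((1, 0, 2), 2, 1, 0), ((1, 0, 6), 2, 1, 3), ((1, 0, 8), 2, 1, 6),
    ((1, 2, 6), 2, 0, 3), ((1, 2, 8), 2, 0, 6), ((1, 6, 8), 2, 3, 6), ((2, 1, 4), 0, 2, 5),
    ((3, 0, 9), 0, 1, 7), ((4, 2, 5), 5, 0, 3), ((5, 4, 8), 3, 5, 6), ((6, 1, 7), 3, 2, 4),
    ((7, 6, 9), 4, 3, 7), ((8, 1, 5), 6, 2, 3), ((9, 3, 7), 7, 0, 4)]
  Tc := [(0, 3, 4)]
  Td := [((0, 3), (2, 1), 2), ((0, 3), (2, 4), 5), ((0, 3), (3, 0), 1), ((0, 3), (3, 9), 7), ((0,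
    4), (2, 1), 2), ((0, 4), (2, 4), 5), ((0, 4), (3, 0), 1), ((0, 4), (3, 9), 7), ((3, 0),
    (5, 4), 5), ((3, 0), (5, 8), 6), ((3, 0), (6, 1), 2), ((3, 0), (6, 7), 4), ((4, 0), (7,
    6), 3), ((4, 0), (7, 9), 7)]
  G := [[0, 0, 0xeeee1eeee1a48, 0x175418eaed51451ddcc57e119831ad83c4,
    0x113b1264121a3aaebb1a9ecab9188118ebc8], [0, 0, 0x666e18a8e1ecee1e84,
    0x117d645571ee9911c11dd6e885118811c8bc4, 0x1631131a3ee3f18992a1811a149ee9f1a94f48], [0,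
    0xeeed1eeed1c28, 0, 0xeeed1cccd1165116de3ade71881c4, 0xceeb118eeeb331ab31ab1a3eb48], [0,
    0xeeed1ee51684, 0, 0x641e8ed18c51116d116d6f11ad81c4, 0xee31ee9111ab11ab11abeb48]]

noncomputable def n669 : Ent := ⟨e669, noF, [], [], []⟩

def c669 : PLift (Cov.check n669.C.D v669 = true) := ⟨by decide +kernel⟩

def b669 : PLift (entF (fidx ts) 400 669 n669 = true) := ⟨by decide +kernel⟩

theorem g669 : GoodF (fidx ts) 400 669 := GoodF.ofV v669 n669 c669.down b669.down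

/-- 474855:583 -/
noncomputable def e670 : SCfg where
  D := {
    a := 6
    L := 11
    kp := 8
    inn := [(0, 1), (1, 0), (1, 2), (1, 3), (1, 5), (2, 1), (2, 3), (3, 1), (3, 2), (3, 4), (3, 5), (4,
      3), (5, 1), (5, 3)]
    mix := [(0, 0), (0, 1), (0, 2), (1, 0), (1, 2), (1, 3), (2, 2), (2, 4), (3, 4), (3, 5), (3, 6), (3,
      7), (4, 5), (4, 6), (4, 8), (4, 9), (5, 3), (5, 7), (5, 10)]
    cl := [1, 5, 0, 0, 2, 3, 3, 4, 6, 7, 8]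
    chq := [(0, 3), (0, 4), (3, 0), (4, 0)]
    rng := [(0, 1), (0, 3), (1, 0), (1, 2), (2, 1), (2, 4), (3, 0), (3, 10), (4, 2), (4, 5), (5, 4),
      (5, 8), (6, 7), (6, 9), (7, 6), (7, 10), (8, 5), (8, 9), (9, 6), (9, 8), (10, 3), (10, 7)]
    lev := [] }
  links := [[1, 6, 7, 8], [6, 0, 8, 2, 3, 5, 9], [3, 1, 8, 10], [5, 1, 2, 10, 11, 4, 12, 13], [12, 3, 11,
    14, 15], [9, 1, 3, 13, 16]]
  P := {
    a := 6
    N := 17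
    nb := [450, 877, 1290, 15414, 55304, 74250, 643, 321, 1159, 65634, 2316, 17432, 40984, 69672,
      34832, 20496, 8736]
    tri := [(0, 1, 6), (0, 1, 8), (0, 6, 7), (0, 7, 8), (1, 2, 3), (1, 2, 8), (1, 3, 5), (1, 5, 9), (1,
      6, 9), (2, 3, 10), (2, 8, 10), (3, 4, 11), (3, 4, 12), (3, 5, 13), (3, 10, 11), (3, 12, 13),
      (4, 11, 14), (4, 12, 15), (4, 14, 15), (5, 9, 16), (5, 13, 16)]
    fin := [0, 0, 2, 2, 4, 2, 0, 7, 2, 2, 10, 4, 4, 13, 14, 15, 16]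
    chd := [(2, 4), (2, 13)]
    steps := [(0, 1), (0, 6), (2, 3), (2, 5), (2, 8), (2, 9), (4, 11), (4, 12)] }
  rep := [2, 0, 10, 4, 13, 7, 14, 15, 16]

noncomputable def v670 : Cov.CovD where
  P := 3
  N := 6
  pl := [0, 1, 4, 8, 9, 10]
  lev := [⟨[], [], [], [1, 5], [(2, 0, [3, 4])]⟩,
    ⟨[], [(0, 0)], [(0, 0)], [1], [(2, 0, [3, 4]), (3, 0, [3, 4])]⟩,
    ⟨[(0, 1)], [(0, 0), (1, 0)], [], [2], [(2, 0, [3, 4])]⟩,
    ⟨[(0, 1), (1, 2)], [(1, 0), (1, 3), (1, 4), (2, 0), (2, 3), (2, 4)], [(3, 3), (3, 4)],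
      [2], [(5, 3, [0]), (6, 3, [0]), (7, 4, [0])]⟩,
    ⟨[(1, 3), (2, 3)], [(3, 3), (3, 4)], [(3, 3)], [6, 7], [(5, 3, [0]), (6, 3, [0])]⟩,
    ⟨[(0, 1), (1, 2), (1, 3), (2, 3), (3, 4)], [(1, 0), (1, 4), (3, 0), (3, 3), (3, 4)],
      [(0, 4)], [8], [(3, 0, [3, 4]), (7, 4, [0])]⟩]
  Ta := [((2, 1), 0, 5), ((2, 4), 0, 2), ((3, 0), 0, 1), ((3, 10), 0, 8), ((5, 4), 3, 2), ((5,
    8), 3, 6), ((6, 7), 3, 4), ((6, 9), 3, 7)]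
  Tb := [((0, 1, 3), 1, 5, 0), ((1, 0, 2), 5, 1, 0), ((2, 1, 4), 0, 5, 2), ((3, 0, 10), 0, 1, 8),
    ((4, 2, 5), 2, 0, 3), ((5, 4, 8), 3, 2, 6), ((6, 7, 9), 3, 4, 7), ((7, 6, 10), 4, 3, 8),
    ((8, 5, 9), 6, 3, 7), ((9, 6, 8), 7, 3, 6), ((10, 3, 7), 8, 0, 4)]
  Tc := [(0, 3, 4)]
  Td := [((0, 3), (2, 1), 5), ((0, 3), (2, 4), 2), ((0, 3), (3, 0), 1), ((0, 3), (3, 10), 8),
    ((0, 4), (2, 1), 5), ((0, 4), (2, 4), 2), ((0, 4), (3, 0), 1), ((0, 4), (3, 10), 8), ((3,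
    0), (5, 4), 2), ((3, 0), (5, 8), 6), ((3, 0), (6, 7), 4), ((3, 0), (6, 9), 7), ((4, 0),
    (7, 6), 3), ((4, 0), (7, 10), 8)]
  G := [[0, 0, 0x1111f21111f461111f82c1111f481131111fa11c8acc,
    0x1a36eeef5111e8c411674116eaeef9c811c481a984cd,
    0x61111af6ecefb111e8a411a211671c5eecefba1881cc], [0, 0,
    0x1111f111d621111f12a4c1111f1111f681111f82cc, 0x1654111aeeeef58c1116f4eaeef1c811aaf844d,
    0x186eeef9244444f122aaaf1188ac11671116fa84d], [0, 0xeeeef142eeeef1846, 0,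
    0x1116f4eeeef1c111af84c1, 0x161af21cc6feeeef9a41], [0, 0xeeeef184eeeef182c, 0,
    0x144811abeeeef5111af8cc1, 0x165111cfeeeefb11a8a41]]

noncomputable def n670 : Ent := ⟨e670, noF, [], [], [(7, 14, [1685382413448253767852309107433119732572617628602273068445367648257, 0]), (7, 15, [1685356702439545624007900436039642273970977273354372543760002830337, 0])]⟩

def c670 : PLift (Cov.check n670.C.D v670 = true) := ⟨by decide +kernel⟩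

def b670 : PLift (entF (fidx ts) 400 670 n670 = true) := ⟨by decide +kernel⟩

theorem g670 : GoodF (fidx ts) 400 670 := GoodF.ofV v670 n670 c670.down b670.down

/-- 474664:584/1 -/
noncomputable def e671 : SCfg where
  D := {
    a := 6
    L := 9
    kp := 6
    inn := [(0, 1), (1, 0), (1, 2), (1, 3), (2, 1), (2, 3), (3, 1), (3, 2), (3, 4), (4, 3), (4, 5), (5,
      4)]
    mix := [(0, 0), (0, 1), (0, 2), (1, 0), (1, 2), (1, 3), (1, 4), (2, 2), (2, 5), (3, 3), (3, 5), (3,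
      6), (4, 5), (4, 6), (4, 7), (4, 8), (5, 1), (5, 5), (5, 7)]
    cl := [2, 1, 0, 4, 0, 3, 3, 5, 6]
    chq := [(1, 6), (6, 1)]
    rng := [(0, 1), (0, 4), (1, 0), (1, 2), (1, 5), (1, 7), (2, 1), (2, 5), (3, 4), (3, 6), (4, 0), (4,
      3), (5, 1), (5, 2), (6, 3), (6, 8), (7, 1), (7, 8), (8, 6), (8, 7)]
    lev := [] }
  links := [[1, 6, 7, 8], [6, 0, 8, 2, 3, 9, 10], [3, 1, 8, 11], [9, 1, 2, 11, 4, 12], [12, 3, 11, 5, 13,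
    14], [13, 4, 11, 7]]
  P := {
    a := 6
    N := 15
    nb := [450, 1869, 2314, 6678, 30760, 10384, 1155, 10593, 2183, 5130, 578, 444, 16920, 16560,
      12304]
    tri := [(0, 1, 6), (0, 1, 8), (0, 6, 7), (0, 7, 8), (1, 2, 3), (1, 2, 8), (1, 3, 9), (1, 6, 10),
      (1, 9, 10), (2, 3, 11), (2, 8, 11), (3, 4, 11), (3, 4, 12), (3, 9, 12), (4, 5, 11), (4, 5,
      13), (4, 12, 14), (4, 13, 14), (5, 7, 11), (5, 7, 13)]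
    fin := [0, 1, 1, 3, 4, 4, 0, 4, 1, 9, 1, 3, 3, 13, 14]
    chd := [(4, 14)]
    steps := [(0, 6), (1, 2), (1, 8), (1, 10), (3, 11), (3, 12), (4, 5), (4, 7)] }
  rep := [1, 4, 0, 3, 9, 13, 14]

noncomputable def v671 : Cov.CovD where
  P := 3
  N := 4
  pl := [0, 3, 7]
  lev := [⟨[], [], [(0, 1)], [2], [(1, 1, [6]), (2, 0, [])]⟩,
    ⟨[], [(0, 0), (0, 1)], [(0, 0)], [2, 4], [(2, 0, []), (4, 0, [])]⟩,
    ⟨[(0, 1)], [(0, 0), (1, 0), (1, 3)], [(0, 3)], [], [(2, 0, []), (5, 3, [])]⟩,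
    ⟨[(0, 1), (1, 2)], [(1, 0), (1, 3), (2, 0), (2, 3)], [(3, 3)], [4], [(5, 3, []), (6, 3,
      [])]⟩,
    ⟨[(1, 3), (2, 3)], [(2, 3), (3, 3), (3, 6)], [(3, 3), (3, 6)], [5], [(5, 3, []), (6, 3,
      []), (8, 6, [1])]⟩,
    ⟨[(3, 4)], [(0, 1), (2, 3), (3, 3), (4, 1), (4, 3), (4, 6)], [(1, 3)], [5], [(1, 1,
      [6]), (5, 3, [])]⟩]
  Ta := [((2, 1), 0, 1), ((2, 5), 0, 3), ((4, 0), 0, 2), ((4, 3), 0, 4), ((5, 1), 3, 1), ((5, 2),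
    3, 0), ((6, 3), 3, 4), ((6, 8), 3, 6)]
  Tb := [((0, 1, 4), 2, 1, 0), ((1, 0, 2), 1, 2, 0), ((1, 0, 5), 1, 2, 3), ((1, 0, 7), 1, 2, 5),
    ((1, 2, 5), 1, 0, 3), ((1, 2, 7), 1, 0, 5), ((1, 5, 7), 1, 3, 5), ((2, 1, 5), 0, 1, 3),
    ((3, 4, 6), 4, 0, 3), ((4, 0, 3), 0, 2, 4), ((5, 1, 2), 3, 1, 0), ((6, 3, 8), 3, 4, 6),
    ((7, 1, 8), 5, 1, 6), ((8, 6, 7), 6, 3, 5)]
  Tc := []
  Td := [((1, 6), (1, 0), 2), ((1, 6), (1, 2), 0), ((1, 6), (1, 5), 3), ((1, 6), (1, 7), 5), ((6,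
    1), (8, 6), 3), ((6, 1), (8, 7), 5)]
  G := [[0, 0xe114e118c8, 0, 0xc25292d228c4, 0x48ce84dcf52c2c284c849cff8a8], [0, 0xc1126118c8,
    0, 0xc212c212c4, 0x1898f148854f12a8], [0, 0, 0x845cf14849cf18c4, 0xd2218d21245,
    0x849e14917851b841de9284dcf1289], [0, 0, 0x1498f1441c8f12c4, 0x92245212c1,
    0x4961898f34811d5238a1]]

noncomputable def n671 : Ent := ⟨e671, noF, [], [], []⟩

def c671 : PLift (Cov.check n671.C.D v671 = true) := ⟨by decide +kernel⟩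

def b671 : PLift (entF (fidx ts) 400 671 n671 = true) := ⟨by decide +kernel⟩

theorem g671 : GoodF (fidx ts) 400 671 := GoodF.ofV v671 n671 c671.down b671.down

/-- 474664:584/3 -/
noncomputable def e672 : SCfg where
  D := {
    a := 6
    L := 8
    kp := 5
    inn := [(0, 1), (1, 0), (1, 2), (1, 3), (2, 1), (2, 3), (3, 1), (3, 2), (3, 4), (4, 3), (4, 5), (5,
      4)]
    mix := [(0, 0), (0, 1), (0, 2), (1, 0), (1, 2), (1, 3), (1, 4), (2, 2), (2, 5), (3, 3), (3, 5), (3,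
      6), (4, 1), (4, 5), (4, 6), (4, 7), (5, 1), (5, 2), (5, 5)]
    cl := [1, 4, 0, 2, 0, 3, 3, 5]
    chq := [(3, 4), (4, 3)]
    rng := [(0, 1), (0, 4), (1, 0), (1, 2), (1, 7), (2, 1), (2, 5), (3, 4), (3, 6), (4, 0), (4, 3), (5,
      2), (6, 3), (6, 7), (7, 1), (7, 6)]
    lev := [] }
  links := [[1, 6, 7, 8], [6, 0, 8, 2, 3, 9, 10], [3, 1, 8, 11], [9, 1, 2, 11, 4, 12], [12, 3, 11, 5, 7,
    13], [7, 4, 11, 8]]
  P := {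
    a := 6
    N := 14
    nb := [450, 1869, 2314, 6678, 14504, 2448, 1155, 8561, 2215, 5130, 578, 316, 8728, 4240]
    tri := [(0, 1, 6), (0, 1, 8), (0, 6, 7), (0, 7, 8), (1, 2, 3), (1, 2, 8), (1, 3, 9), (1, 6, 10),
      (1, 9, 10), (2, 3, 11), (2, 8, 11), (3, 4, 11), (3, 4, 12), (3, 9, 12), (4, 5, 7), (4, 5,
      11), (4, 7, 13), (4, 12, 13), (5, 7, 8), (5, 8, 11)]
    fin := [0, 1, 1, 3, 4, 4, 0, 4, 1, 9, 1, 3, 3, 13]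
    chd := [(4, 3)]
    steps := [(0, 6), (1, 2), (1, 8), (1, 10), (3, 11), (3, 12), (4, 5), (4, 7)] }
  rep := [1, 0, 9, 3, 4, 13]

noncomputable def v672 : Cov.CovD where
  P := 3
  N := 3
  pl := [0, 3, 7]
  lev := [⟨[], [], [(0, 4)], [1], [(1, 4, [3]), (2, 0, [])]⟩,
    ⟨[], [(0, 0), (0, 4)], [(0, 0)], [1, 2], [(2, 0, []), (4, 0, [])]⟩,
    ⟨[(0, 1)], [(0, 0), (1, 0), (1, 3)], [(0, 3)], [], [(2, 0, []), (5, 3, [4])]⟩,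
    ⟨[(0, 1), (1, 2)], [(1, 0), (1, 3), (2, 0), (2, 3)], [(3, 3)], [2], [(5, 3, [4]), (6,
      3, [4])]⟩,
    ⟨[(1, 3), (2, 3)], [(0, 4), (2, 3), (3, 3), (3, 4)], [(3, 3), (3, 4)], [5], [(1, 4,
      [3]), (5, 3, [4]), (6, 3, [4])]⟩,
    ⟨[(3, 4)], [(0, 0), (0, 4), (1, 0), (2, 0), (2, 3), (3, 3), (4, 0), (4, 3), (4, 4)],
      [(0, 3), (0, 4), (3, 4)], [], [(1, 4, [3]), (2, 0, []), (5, 3, [4])]⟩]
  Ta := [((2, 1), 0, 4), ((2, 5), 0, 3), ((4, 0), 0, 1), ((4, 3), 0, 2), ((5, 2), 3, 0), ((6, 3),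
    3, 2), ((6, 7), 3, 5)]
  Tb := [((0, 1, 4), 1, 4, 0), ((1, 0, 2), 4, 1, 0), ((1, 0, 7), 4, 1, 5), ((1, 2, 7), 4, 0, 5),
    ((2, 1, 5), 0, 4, 3), ((3, 4, 6), 2, 0, 3), ((4, 0, 3), 0, 1, 2), ((6, 3, 7), 3, 2, 5),
    ((7, 1, 6), 5, 4, 3)]
  Tc := []
  Td := [((3, 4), (5, 2), 0), ((3, 4), (6, 3), 2), ((3, 4), (6, 7), 5), ((4, 3), (1, 0), 1), ((4,
    3), (1, 2), 0), ((4, 3), (1, 7), 5)]
  G := [[0, 0, 0, 0x822b44842684ed928c, 0x88a82ab348446445948c], [0, 0, 0, 0x888b1484247184c,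
    0x828b1284247128c], [0, 0x11cd128123128a, 0x2222846de24c588c8c1, 0x842ef1281,
    0x842ef1481], [0, 0x444d128222b1846, 0x222788848cfe481, 0x842af1481, 0x842cf1281]]

noncomputable def n672 : Ent := ⟨e672, noF, [], [], []⟩

def c672 : PLift (Cov.check n672.C.D v672 = true) := ⟨by decide +kernel⟩

def b672 : PLift (entF (fidx ts) 400 672 n672 = true) := ⟨by decide +kernel⟩

theorem g672 : GoodF (fidx ts) 400 672 := GoodF.ofV v672 n672 c672.down b672.down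

/-- 474664:584/2 -/
noncomputable def e673 : SCfg where
  D := {
    a := 6
    L := 9
    kp := 6
    inn := [(0, 1), (1, 0), (1, 2), (1, 3), (2, 1), (2, 3), (3, 1), (3, 2), (3, 4), (4, 3), (4, 5), (5,
      4)]
    mix := [(0, 0), (0, 1), (0, 2), (1, 0), (1, 2), (1, 3), (1, 4), (2, 2), (2, 5), (3, 3), (3, 5), (3,
      6), (4, 1), (4, 5), (4, 6), (4, 7), (5, 1), (5, 5), (5, 8)]
    cl := [1, 4, 0, 2, 0, 3, 3, 5, 6]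
    chq := [(5, 6), (6, 5)]
    rng := [(0, 1), (0, 4), (1, 0), (1, 2), (1, 7), (1, 8), (2, 1), (2, 5), (3, 4), (3, 6), (4, 0), (4,
      3), (5, 2), (5, 8), (6, 3), (6, 7), (7, 1), (7, 6), (8, 1), (8, 5)]
    lev := [] }
  links := [[1, 6, 7, 8], [6, 0, 8, 2, 3, 9, 10], [3, 1, 8, 11], [9, 1, 2, 11, 4, 12], [12, 3, 11, 5, 7,
    13], [7, 4, 11, 14]]
  P := {
    a := 6
    N := 15
    nb := [450, 1869, 2314, 6678, 14504, 18576, 1155, 24945, 2183, 5130, 578, 16700, 8728, 4240, 2208]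
    tri := [(0, 1, 6), (0, 1, 8), (0, 6, 7), (0, 7, 8), (1, 2, 3), (1, 2, 8), (1, 3, 9), (1, 6, 10),
      (1, 9, 10), (2, 3, 11), (2, 8, 11), (3, 4, 11), (3, 4, 12), (3, 9, 12), (4, 5, 7), (4, 5,
      11), (4, 7, 13), (4, 12, 13), (5, 7, 14), (5, 11, 14)]
    fin := [0, 1, 1, 3, 4, 4, 0, 7, 1, 9, 1, 3, 3, 13, 4]
    chd := [(13, 4)]
    steps := [(0, 6), (1, 2), (1, 8), (1, 10), (3, 11), (3, 12), (4, 5), (4, 14)] }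
  rep := [1, 0, 9, 3, 7, 13, 4]

noncomputable def v673 : Cov.CovD where
  P := 3
  N := 4
  pl := [0, 1, 3]
  lev := [⟨[], [], [], [1, 4], [(2, 0, [])]⟩,
    ⟨[], [(0, 0)], [(0, 0)], [1, 2], [(2, 0, []), (4, 0, [])]⟩,
    ⟨[(0, 1)], [(0, 0), (1, 0), (1, 3)], [(0, 3)], [], [(2, 0, []), (5, 3, [])]⟩,
    ⟨[(0, 1), (1, 2)], [(1, 0), (1, 3), (2, 0), (2, 3)], [(3, 3)], [2], [(5, 3, []), (6, 3,
      [])]⟩,
    ⟨[(1, 3), (2, 3)], [(2, 3), (3, 3), (3, 5)], [(3, 3), (3, 5)], [4], [(5, 3, []), (6, 3,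
      []), (7, 5, [6])]⟩,
    ⟨[(3, 4)], [(2, 3), (3, 3), (4, 3), (4, 5), (4, 6)], [(3, 6)], [4], [(5, 3, []), (8, 6,
      [5])]⟩]
  Ta := [((2, 1), 0, 4), ((2, 5), 0, 3), ((4, 0), 0, 1), ((4, 3), 0, 2), ((5, 2), 3, 0), ((5, 8),
    3, 6), ((6, 3), 3, 2), ((6, 7), 3, 5)]
  Tb := [((0, 1, 4), 1, 4, 0), ((1, 0, 2), 4, 1, 0), ((1, 0, 7), 4, 1, 5), ((1, 0, 8), 4, 1, 6),
    ((1, 2, 7), 4, 0, 5), ((1, 2, 8), 4, 0, 6), ((1, 7, 8), 4, 5, 6), ((2, 1, 5), 0, 4, 3),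
    ((3, 4, 6), 2, 0, 3), ((4, 0, 3), 0, 1, 2), ((5, 2, 8), 3, 0, 6), ((6, 3, 7), 3, 2, 5),
    ((7, 1, 6), 5, 4, 3), ((8, 1, 5), 6, 4, 3)]
  Tc := []
  Td := [((5, 6), (7, 1), 4), ((5, 6), (7, 6), 3), ((6, 5), (8, 1), 4), ((6, 5), (8, 5), 3)]
  G := [[0, 0, 0, 0x78a163c24b461a3528c, 0x69a5a9348a46945348c], [0, 0, 0, 0x588b1249147128c,
    0x388b148a127148c], [0, 0x11cd1241231246, 0x11c718c12116d6a41, 0x111ef1241, 0x111ef1481],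
    [0, 0x188d1281127184a, 0x165284116fe841, 0x111af1481, 0x111af1481]]

noncomputable def n673 : Ent := ⟨e673, noF, [], [], [(8, 14, [81620716623019490593592230936445690773474979418095886139393, 0])]⟩

def c673 : PLift (Cov.check n673.C.D v673 = true) := ⟨by decide +kernel⟩

def b673 : PLift (entF (fidx ts) 400 673 n673 = true) := ⟨by decide +kernel⟩

theorem g673 : GoodF (fidx ts) 400 673 := GoodF.ofV v673 n673 c673.down b673.down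

/-- 474664:584/4 -/
noncomputable def e674 : SCfg where
  D := {
    a := 6
    L := 9
    kp := 6
    inn := [(0, 1), (1, 0), (1, 2), (1, 3), (2, 1), (2, 3), (3, 1), (3, 2), (3, 4), (4, 3), (4, 5), (5,
      4)]
    mix := [(0, 0), (0, 1), (0, 2), (1, 0), (1, 2), (1, 3), (1, 4), (2, 2), (2, 5), (3, 3), (3, 5), (3,
      6), (4, 5), (4, 6), (4, 7), (4, 8), (5, 2), (5, 5), (5, 7)]
    cl := [1, 5, 0, 2, 0, 3, 3, 4, 6]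
    chq := [(3, 4), (4, 3)]
    rng := [(0, 1), (0, 4), (1, 0), (1, 2), (2, 1), (2, 5), (2, 7), (3, 4), (3, 6), (4, 0), (4, 3), (5,
      2), (6, 3), (6, 8), (7, 2), (7, 8), (8, 6), (8, 7)]
    lev := [] }
  links := [[1, 6, 7, 8], [6, 0, 8, 2, 3, 9, 10], [3, 1, 8, 11], [9, 1, 2, 11, 4, 12], [12, 3, 11, 5, 13,
    14], [13, 4, 11, 8]]
  P := {
    a := 6
    N := 15
    nb := [450, 1869, 2314, 6678, 30760, 10512, 1155, 321, 10407, 5130, 578, 316, 16920, 16688, 12304]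
    tri := [(0, 1, 6), (0, 1, 8), (0, 6, 7), (0, 7, 8), (1, 2, 3), (1, 2, 8), (1, 3, 9), (1, 6, 10),
      (1, 9, 10), (2, 3, 11), (2, 8, 11), (3, 4, 11), (3, 4, 12), (3, 9, 12), (4, 5, 11), (4, 5,
      13), (4, 12, 14), (4, 13, 14), (5, 8, 11), (5, 8, 13)]
    fin := [0, 1, 1, 1, 4, 1, 0, 7, 1, 9, 1, 4, 4, 13, 14]
    chd := [(4, 13)]
    steps := [(0, 6), (1, 2), (1, 3), (1, 8), (1, 10), (4, 11), (1, 5), (4, 12)] }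
  rep := [1, 0, 9, 4, 13, 7, 14]

noncomputable def v674 : Cov.CovD where
  P := 3
  N := 4
  pl := [0, 1, 3, 8]
  lev := [⟨[], [], [], [1, 5], [(2, 0, [])]⟩,
    ⟨[], [(0, 0)], [(0, 0)], [1, 2], [(2, 0, []), (4, 0, [])]⟩,
    ⟨[(0, 1)], [(0, 0), (1, 0), (1, 3)], [(0, 3)], [], [(2, 0, []), (5, 3, [4])]⟩,
    ⟨[(0, 1), (1, 2)], [(1, 0), (1, 3), (2, 0), (2, 3)], [(3, 3)], [2], [(5, 3, [4]), (6,
      3, [4])]⟩,
    ⟨[(1, 3), (2, 3)], [(2, 3), (3, 3), (3, 4)], [(3, 3), (3, 4)], [6], [(5, 3, [4]), (6,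
      3, [4]), (7, 4, [3])]⟩,
    ⟨[(3, 4)], [(0, 0), (1, 0), (2, 0), (2, 3), (3, 3), (4, 0), (4, 3), (4, 4)], [(0, 3),
      (0, 4), (3, 4)], [], [(2, 0, []), (5, 3, [4]), (7, 4, [3])]⟩]
  Ta := [((2, 1), 0, 5), ((2, 5), 0, 3), ((2, 7), 0, 4), ((4, 0), 0, 1), ((4, 3), 0, 2), ((5, 2),
    3, 0), ((6, 3), 3, 2), ((6, 8), 3, 6)]
  Tb := [((0, 1, 4), 1, 5, 0), ((1, 0, 2), 5, 1, 0), ((2, 1, 5), 0, 5, 3), ((2, 1, 7), 0, 5, 4),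
    ((2, 5, 7), 0, 3, 4), ((3, 4, 6), 2, 0, 3), ((4, 0, 3), 0, 1, 2), ((6, 3, 8), 3, 2, 6),
    ((7, 2, 8), 4, 0, 6), ((8, 6, 7), 6, 3, 4)]
  Tc := []
  Td := [((3, 4), (5, 2), 0), ((3, 4), (6, 3), 2), ((3, 4), (6, 8), 6), ((4, 3), (7, 2), 0), ((4,
    3), (7, 8), 6)]
  G := [[0, 0, 0, 0x8a2e842ef52842688842efd28c, 0x84ce842ef3482284c842efb48c], [0, 0, 0,
    0x8426f184842cf128c, 0x842cf128842af148c], [0, 0x811ef128841ef128c, 0x4482cbc2284ada681,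
    0x842ef1241, 0x842ef1481], [0, 0x8416f184812cf1246, 0x42682cb84ade481, 0x8426f1841,
    0x842cf1281]]

noncomputable def n674 : Ent := ⟨e674, noF, [], [], [(7, 13, [87897818358406171357428020359653357189577334862559920652289, 0])]⟩

def c674 : PLift (Cov.check n674.C.D v674 = true) := ⟨by decide +kernel⟩

def b674 : PLift (entF (fidx ts) 400 674 n674 = true) := ⟨by decide +kernel⟩

theorem g674 : GoodF (fidx ts) 400 674 := GoodF.ofV v674 n674 c674.down b674.down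

/-- 474664:584 -/
noncomputable def e675 : SCfg where
  D := {
    a := 6
    L := 10
    kp := 7
    inn := [(0, 1), (1, 0), (1, 2), (1, 3), (2, 1), (2, 3), (3, 1), (3, 2), (3, 4), (4, 3), (4, 5), (5,
      4)]
    mix := [(0, 0), (0, 1), (0, 2), (1, 0), (1, 2), (1, 3), (1, 4), (2, 2), (2, 5), (3, 3), (3, 5), (3,
      6), (4, 5), (4, 6), (4, 7), (4, 8), (5, 5), (5, 7), (5, 9)]
    cl := [1, 7, 0, 2, 0, 3, 3, 4, 5, 6]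
    chq := [(5, 6), (6, 5)]
    rng := [(0, 1), (0, 4), (1, 0), (1, 2), (2, 1), (2, 5), (3, 4), (3, 6), (4, 0), (4, 3), (5, 2), (5,
      9), (6, 3), (6, 8), (7, 8), (7, 9), (8, 6), (8, 7), (9, 5), (9, 7)]
    lev := [] }
  links := [[1, 6, 7, 8], [6, 0, 8, 2, 3, 9, 10], [3, 1, 8, 11], [9, 1, 2, 11, 4, 12], [12, 3, 11, 5, 13,
    14], [13, 4, 11, 15]]
  P := {
    a := 6
    N := 16
    nb := [450, 1869, 2314, 6678, 30760, 43024, 1155, 321, 2183, 5130, 578, 33084, 16920, 49200,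
      12304, 10272]
    tri := [(0, 1, 6), (0, 1, 8), (0, 6, 7), (0, 7, 8), (1, 2, 3), (1, 2, 8), (1, 3, 9), (1, 6, 10),
      (1, 9, 10), (2, 3, 11), (2, 8, 11), (3, 4, 11), (3, 4, 12), (3, 9, 12), (4, 5, 11), (4, 5,
      13), (4, 12, 14), (4, 13, 14), (5, 11, 15), (5, 13, 15)]
    fin := [0, 1, 1, 3, 4, 4, 0, 7, 1, 9, 1, 3, 3, 13, 14, 4]
    chd := [(14, 4)]
    steps := [(0, 6), (1, 2), (1, 8), (1, 10), (3, 11), (3, 12), (4, 5), (4, 15)] }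
  rep := [1, 0, 9, 3, 13, 14, 4, 7]

noncomputable def v675 : Cov.CovD where
  P := 3
  N := 5
  pl := [0, 1, 3, 7]
  lev := [⟨[], [], [], [1, 7], [(2, 0, [])]⟩,
    ⟨[], [(0, 0)], [(0, 0)], [1, 2], [(2, 0, []), (4, 0, [])]⟩,
    ⟨[(0, 1)], [(0, 0), (1, 0), (1, 3)], [(0, 3)], [], [(2, 0, []), (5, 3, [])]⟩,
    ⟨[(0, 1), (1, 2)], [(1, 0), (1, 3), (2, 0), (2, 3)], [(3, 3)], [2], [(5, 3, []), (6, 3,
      [])]⟩,
    ⟨[(1, 3), (2, 3)], [(2, 3), (3, 3), (3, 5)], [(3, 3), (3, 5)], [4], [(5, 3, []), (6, 3,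
      []), (8, 5, [6])]⟩,
    ⟨[(3, 4)], [(2, 3), (3, 3), (4, 3), (4, 5), (4, 6)], [(3, 6)], [4], [(5, 3, []), (9, 6,
      [5])]⟩]
  Ta := [((2, 1), 0, 7), ((2, 5), 0, 3), ((4, 0), 0, 1), ((4, 3), 0, 2), ((5, 2), 3, 0), ((5, 9),
    3, 6), ((6, 3), 3, 2), ((6, 8), 3, 5)]
  Tb := [((0, 1, 4), 1, 7, 0), ((1, 0, 2), 7, 1, 0), ((2, 1, 5), 0, 7, 3), ((3, 4, 6), 2, 0, 3),
    ((4, 0, 3), 0, 1, 2), ((5, 2, 9), 3, 0, 6), ((6, 3, 8), 3, 2, 5), ((7, 8, 9), 4, 5, 6),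
    ((8, 6, 7), 5, 3, 4), ((9, 5, 7), 6, 3, 4)]
  Tc := []
  Td := [((5, 6), (8, 6), 3), ((5, 6), (8, 7), 4), ((6, 5), (9, 5), 3), ((6, 5), (9, 7), 4)]
  G := [[0, 0, 0, 0x6ace319ef528ac687835e79a4c, 0x6ace591ef3486ade59ed348c], [0, 0, 0,
    0x599cf1245356f184c, 0x595cf1283a9af148c], [0, 0x33def12833def1246, 0x9455cbc9233ada681,
    0x33def1281, 0x5b5ef1481], [0, 0x59ccf12459ccf124a, 0x5948f943825e241, 0x59ccf1281,
    0x399af1481]]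

noncomputable def n675 : Ent := ⟨e675, noF, [], [], [(7, 15, [360035742630636841211993100915356868655746945586763691010420737, 0]), (7, 13, [385753028440516072301428330182238677962518295842732840409763841, 0]), (8, 15, [360035742630636841211993100915356868655746945586763691010433025, 0])]⟩

def c675 : PLift (Cov.check n675.C.D v675 = true) := ⟨by decide +kernel⟩

def b675 : PLift (entF (fidx ts) 400 675 n675 = true) := ⟨by decide +kernel⟩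

theorem g675 : GoodF (fidx ts) 400 675 := GoodF.ofV v675 n675 c675.down b675.down

/-- The entries 518 to 675. -/
theorem rE3 : Rng (GoodF (fidx ts) 400) 518 676 :=
  (((((((((((((((((((((((((((((((((((((((((((((((((((((((((((((((((((((((((((((((((((((((((((((((((((((((((((((((((((((((((((((((((((((((((((((((((((((((((((((((Rng.nil _ 518).snoc g518 rfl).snoc g519 rfl).snoc g520 rfl).snoc g521 rfl).snoc g522 rfl).snoc g523 rfl).snoc g524 rfl).snoc g525 rfl).snoc g526 rfl).snoc g527 rfl).snoc g528 rfl).snoc g529 rfl).snoc g530 rfl).snoc g531 rfl).snoc g532 rfl).snoc g533 rfl).snoc g534 rfl).snoc g535 rfl).snoc g536 rfl).snoc g537 rfl).snoc g538 rfl).snoc g539 rfl).snoc g540 rfl).snoc g541 rfl).snoc g542 rfl).snoc g543 rfl).snoc g544 rfl).snoc g545 rfl).snoc g546 rfl).snoc g547 rfl).snoc g548 rfl).snoc g549 rfl).snoc g550 rfl).snoc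 g551 rfl).snoc g552 rfl).snoc g553 rfl).snoc g554 rfl).snoc g555 rfl).snoc g556 rfl).snoc g557 rfl).snoc g558 rfl).snoc g559 rfl).snoc g560 rfl).snoc g561 rfl).snoc g562 rfl).snoc g563 rfl).snoc g564 rfl).snoc g565 rfl).snoc g566 rfl).snoc g567 rfl).snoc g568 rfl).snoc g569 rfl).snoc g570 rfl).snoc g571 rfl).snoc g572 rfl).snoc g573 rfl).snoc g574 rfl).snoc g575 rfl).snoc g576 rfl).snoc g577 rfl).snoc g578 rfl).snoc g579 rfl).snoc g580 rfl).snoc g581 rfl).snoc g582 rfl).snoc g583 rfl).snoc g584 rfl).snoc g585 rfl).snoc g586 rfl).snoc g587 rfl).snoc g588 rfl).snoc g589 rfl).snoc g590 rfl).snoc g591 rfl).snoc g592 rfl).snoc g593 rfl).snoc g594 rfl).snoc g595 rfl).snoc g596 rfl).snoc g597 rfl).snoc g598 rfl).snoc g599 rfl).snoc g600 rfl).snoc g601 rfl).snoc g602 rfl).snoc g603 rfl).snoc g604 rfl).snoc g605 rfl).snoc g606 rfl).snoc g607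 rfl).snoc g608 rfl).snoc g609 rfl).snoc g610 rfl).snoc g611 rfl).snoc g612 rfl).snoc g613 rfl).snoc g614 rfl).snoc g615 rfl).snoc g616 rfl).snoc g617 rfl).snoc g618 rfl).snoc g619 rfl).snoc g620 rfl).snoc g621 rfl).snoc g622 rfl).snoc g623 rfl).snoc g624 rfl).snoc g625 rfl).snoc g626 rfl).snoc g627 rfl).snoc g628 rfl).snoc g629 rfl).snoc g630 rfl).snoc g631 rfl).snoc g632 rfl).snoc g633 rfl).snoc g634 rfl).snoc g635 rfl).snoc g636 rfl).snoc g637 rfl).snoc g638 rfl).snoc g639 rfl).snoc g640 rfl).snoc g641 rfl).snoc g642 rfl).snoc g643 rfl).snoc g644 rfl).snoc g645 rfl).snoc g646 rfl).snoc g647 rfl).snoc g648 rfl).snoc g649 rfl).snoc g650 rfl).snoc g651 rfl).snoc g652 rfl).snoc g653 rfl).snoc g654 rfl).snoc g655 rfl).snoc g656 rfl).snoc g657 rfl).snoc g658 rfl).snoc g659 rfl).snoc g660 rfl).snoc g661 rfl).snoc g662 rfl).snoc g663 rfl).snoc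 g664 rfl).snoc g665 rfl).snoc g666 rfl).snoc g667 rfl).snoc g668 rfl).snoc g669 rfl).snoc g670 rfl).snoc g671 rfl).snoc g672 rfl).snoc g673 rfl).snoc g674 rfl).snoc g675 rfl)

end Pool.Agent.W986.ST.Dat
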