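import Pool.Agent.W986.Dat.Tab
import Pool.Agent.W986.SubAltB

/-!
# Entries 676 to 825 of the table
-/

set_option autoImplicit false

namespace Pool.Agent.W986.ST.Dat

/-- 474664:585/1 -/
noncomputable def e676 : SCfg where
  D := {
    a := 6
    L := 9
    kp := 6
    inn := [(0, 1), (1, 0), (1, 2), (1, 3), (2, 1), (2, 3), (3, 1), (3, 2), (3, 4), (4, 3), (4, 5), (5,
      4)]
    mix := [(0, 0), (0, 1), (0, 2), (1, 0), (1, 2), (1, 3), (1, 4), (2, 2), (2, 5), (3, 3), (3, 5), (3,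
      6), (4, 1), (4, 5), (4, 6), (4, 7), (5, 6), (5, 7), (5, 8)]
    cl := [1, 4, 0, 2, 0, 3, 3, 5, 6]
    chq := [(4, 6), (6, 4)]
    rng := [(0, 1), (0, 4), (1, 0), (1, 2), (1, 5), (1, 7), (2, 1), (2, 5), (3, 4), (3, 6), (4, 0), (4,
      3), (5, 1), (5, 2), (6, 3), (6, 8), (7, 1), (7, 8), (8, 6), (8, 7)]
    lev := [] }
  links := [[1, 6, 7, 8], [6, 0, 8, 2, 3, 9, 10], [3, 1, 8, 11], [9, 1, 2, 11, 4, 12], [12, 3, 11, 7, 13,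
    5], [12, 4, 13, 14]]
  P := {
    a := 6
    N := 15
    nb := [450, 1869, 2314, 6678, 14504, 28688, 1155, 10577, 2183, 5130, 578, 412, 16952, 16560,
      12320]
    tri := [(0, 1, 6), (0, 1, 8), (0, 6, 7), (0, 7, 8), (1, 2, 3), (1, 2, 8), (1, 3, 9), (1, 6, 10),
      (1, 9, 10), (2, 3, 11), (2, 8, 11), (3, 4, 11), (3, 4, 12), (3, 9, 12), (4, 5, 12), (4, 5,
      13), (4, 7, 11), (4, 7, 13), (5, 12, 14), (5, 13, 14)]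
    fin := [0, 1, 1, 3, 4, 4, 0, 4, 1, 9, 1, 3, 3, 13, 14]
    chd := [(4, 14)]
    steps := [(0, 6), (1, 2), (1, 8), (1, 10), (3, 11), (3, 12), (4, 5), (4, 7)] }
  rep := [1, 0, 9, 3, 4, 13, 14]

noncomputable def v676 : Cov.CovD where
  P := 3
  N := 4
  pl := [0, 3, 7]
  lev := [⟨[], [], [(0, 4)], [1], [(1, 4, [6]), (2, 0, [])]⟩,
    ⟨[], [(0, 0), (0, 4)], [(0, 0)], [1, 2], [(2, 0, []), (4, 0, [])]⟩,
    ⟨[(0, 1)], [(0, 0), (1, 0), (1, 3)], [(0, 3)], [], [(2, 0, []), (5, 3, [])]⟩,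
    ⟨[(0, 1), (1, 2)], [(1, 0), (1, 3), (2, 0), (2, 3)], [(3, 3)], [2], [(5, 3, []), (6, 3,
      [])]⟩,
    ⟨[(1, 3), (2, 3)], [(0, 4), (2, 3), (3, 3), (3, 4)], [(3, 3), (3, 4)], [5], [(1, 4,
      [6]), (5, 3, []), (6, 3, [])]⟩,
    ⟨[(3, 4)], [(3, 3), (4, 3), (4, 4), (4, 6)], [(3, 6)], [5], [(6, 3, []), (8, 6, [4])]⟩]
  Ta := [((2, 1), 0, 4), ((2, 5), 0, 3), ((4, 0), 0, 1), ((4, 3), 0, 2), ((5, 1), 3, 4), ((5, 2),
    3, 0), ((6, 3), 3, 2), ((6, 8), 3, 6)]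
  Tb := [((0, 1, 4), 1, 4, 0), ((1, 0, 2), 4, 1, 0), ((1, 0, 5), 4, 1, 3), ((1, 0, 7), 4, 1, 5),
    ((1, 2, 5), 4, 0, 3), ((1, 2, 7), 4, 0, 5), ((1, 5, 7), 4, 3, 5), ((2, 1, 5), 0, 4, 3),
    ((3, 4, 6), 2, 0, 3), ((4, 0, 3), 0, 1, 2), ((5, 1, 2), 3, 4, 0), ((6, 3, 8), 3, 2, 6),
    ((7, 1, 8), 5, 4, 6), ((8, 6, 7), 6, 3, 5)]
  Tc := []
  Td := [((4, 6), (1, 0), 1), ((4, 6), (1, 2), 0), ((4, 6), (1, 5), 3), ((4, 6), (1, 7), 5), ((6,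
    4), (8, 6), 3), ((6, 4), (8, 7), 5)]
  G := [[0, 0, 0, 0x51a563924c29481d28c, 0x15a2c93483868a5948c], [0, 0, 0, 0xf74b148f9a7124c,
    0xf56b128fb87148c], [0, 0x482d1244c31246, 0x248b2464284728a8c1, 0x484af1241,
    0x4886f1481], [0, 0x44fb4248b32ec948c, 0x8d54822c7fe481, 0x516adaf5841, 0x7bdef1481]]

noncomputable def n676 : Ent := ⟨e676, noF, [], [], []⟩

def c676 : PLift (Cov.check n676.C.D v676 = true) := ⟨by decide +kernel⟩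

def b676 : PLift (entF (fidx ts) 400 676 n676 = true) := ⟨by decide +kernel⟩

theorem g676 : GoodF (fidx ts) 400 676 := GoodF.ofV v676 n676 c676.down b676.down

/-- 474664:585/2 -/
noncomputable def e677 : SCfg where
  D := {
    a := 6
    L := 9
    kp := 6
    inn := [(0, 1), (1, 0), (1, 2), (1, 3), (2, 1), (2, 3), (3, 1), (3, 2), (3, 4), (4, 3), (4, 5), (5,
      4)]
    mix := [(0, 0), (0, 1), (0, 2), (1, 0), (1, 2), (1, 3), (1, 4), (2, 2), (2, 5), (3, 3), (3, 5), (3,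
      6), (4, 5), (4, 6), (4, 7), (4, 8), (5, 1), (5, 6), (5, 8)]
    cl := [2, 1, 0, 4, 0, 3, 3, 6, 5]
    chq := [(1, 6), (6, 1)]
    rng := [(0, 1), (0, 4), (1, 0), (1, 2), (1, 6), (1, 8), (2, 1), (2, 5), (3, 4), (3, 6), (4, 0), (4,
      3), (5, 2), (5, 7), (6, 1), (6, 3), (7, 5), (7, 8), (8, 1), (8, 7)]
    lev := [] }
  links := [[1, 6, 7, 8], [6, 0, 8, 2, 3, 9, 10], [3, 1, 8, 11], [9, 1, 2, 11, 4, 12], [12, 3, 11, 13,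
    14, 5], [12, 4, 14, 7]]
  P := {
    a := 6
    N := 15
    nb := [450, 1869, 2314, 6678, 30760, 20624, 1155, 20833, 2183, 5130, 578, 8476, 696, 18448, 8368]
    tri := [(0, 1, 6), (0, 1, 8), (0, 6, 7), (0, 7, 8), (1, 2, 3), (1, 2, 8), (1, 3, 9), (1, 6, 10),
      (1, 9, 10), (2, 3, 11), (2, 8, 11), (3, 4, 11), (3, 4, 12), (3, 9, 12), (4, 5, 12), (4, 5,
      14), (4, 11, 13), (4, 13, 14), (5, 7, 12), (5, 7, 14)]
    fin := [0, 1, 1, 3, 4, 4, 0, 4, 1, 9, 1, 3, 3, 13, 14]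
    chd := [(4, 13)]
    steps := [(0, 6), (1, 2), (1, 8), (1, 10), (3, 11), (3, 12), (4, 5), (4, 7)] }
  rep := [1, 4, 0, 3, 9, 14, 13]

noncomputable def v677 : Cov.CovD where
  P := 3
  N := 4
  pl := [0, 3, 8]
  lev := [⟨[], [], [(0, 1)], [2], [(1, 1, [6]), (2, 0, [])]⟩,
    ⟨[], [(0, 0), (0, 1)], [(0, 0)], [2, 4], [(2, 0, []), (4, 0, [])]⟩,
    ⟨[(0, 1)], [(0, 0), (1, 0), (1, 3)], [(0, 3)], [], [(2, 0, []), (5, 3, [])]⟩,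
    ⟨[(0, 1), (1, 2)], [(1, 0), (1, 3), (2, 0), (2, 3)], [(3, 3)], [4], [(5, 3, []), (6, 3,
      [])]⟩,
    ⟨[(1, 3), (2, 3)], [(2, 3), (3, 3), (3, 6)], [(3, 3), (3, 6)], [5], [(5, 3, []), (6, 3,
      []), (7, 6, [1])]⟩,
    ⟨[(3, 4)], [(0, 1), (3, 3), (4, 1), (4, 3), (4, 6)], [(1, 3)], [5], [(1, 1, [6]), (6,
      3, [])]⟩]
  Ta := [((2, 1), 0, 1), ((2, 5), 0, 3), ((4, 0), 0, 2), ((4, 3), 0, 4), ((5, 2), 3, 0), ((5, 7),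
    3, 6), ((6, 1), 3, 1), ((6, 3), 3, 4)]
  Tb := [((0, 1, 4), 2, 1, 0), ((1, 0, 2), 1, 2, 0), ((1, 0, 6), 1, 2, 3), ((1, 0, 8), 1, 2, 5),
    ((1, 2, 6), 1, 0, 3), ((1, 2, 8), 1, 0, 5), ((1, 6, 8), 1, 3, 5), ((2, 1, 5), 0, 1, 3),
    ((3, 4, 6), 4, 0, 3), ((4, 0, 3), 0, 2, 4), ((5, 2, 7), 3, 0, 6), ((6, 1, 3), 3, 1, 4),
    ((7, 5, 8), 6, 3, 5), ((8, 1, 7), 5, 1, 6)]
  Tc := []
  Td := [((1, 6), (1, 0), 2), ((1, 6), (1, 2), 0), ((1, 6), (1, 6), 3), ((1, 6), (1, 8), 5), ((6,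
    1), (7, 5), 3), ((6, 1), (7, 8), 5)]
  G := [[0, 0xa1146118c4, 0, 0xc292925228c4, 0x81ce81c8f521212841d42f8a8], [0, 0xe114e112c4, 0,
    0xd214d212c8, 0x81dcf1484dcf18a8], [0, 0, 0x858712148b12c8, 0x9221c212c4,
    0x4498f14c17238495238a8], [0, 0, 0x84dcf1284dcf1864, 0xd224d212c4,
    0x148dcb52496851b819496f8a8]]

noncomputable def n677 : Ent := ⟨e677, noF, [], [], []⟩

def c677 : PLift (Cov.check n677.C.D v677 = true) := ⟨by decide +kernel⟩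

def b677 : PLift (entF (fidx ts) 400 677 n677 = true) := ⟨by decide +kernel⟩

theorem g677 : GoodF (fidx ts) 400 677 := GoodF.ofV v677 n677 c677.down b677.down

/-- 474664:585 -/
noncomputable def e678 : SCfg where
  D := {
    a := 6
    L := 10
    kp := 7
    inn := [(0, 1), (1, 0), (1, 2), (1, 3), (2, 1), (2, 3), (3, 1), (3, 2), (3, 4), (4, 3), (4, 5), (5,
      4)]
    mix := [(0, 0), (0, 1), (0, 2), (1, 0), (1, 2), (1, 3), (1, 4), (2, 2), (2, 5), (3, 3), (3, 5), (3,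
      6), (4, 5), (4, 6), (4, 7), (4, 8), (5, 6), (5, 8), (5, 9)]
    cl := [1, 7, 0, 2, 0, 3, 3, 5, 4, 6]
    chq := [(5, 6), (6, 5)]
    rng := [(0, 1), (0, 4), (1, 0), (1, 2), (2, 1), (2, 5), (3, 4), (3, 6), (4, 0), (4, 3), (5, 2), (5,
      7), (6, 3), (6, 9), (7, 5), (7, 8), (8, 7), (8, 9), (9, 6), (9, 8)]
    lev := [] }
  links := [[1, 6, 7, 8], [6, 0, 8, 2, 3, 9, 10], [3, 1, 8, 11], [9, 1, 2, 11, 4, 12], [12, 3, 11, 13,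
    14, 5], [12, 4, 14, 15]]
  P := {
    a := 6
    N := 16
    nb := [450, 1869, 2314, 6678, 30760, 53264, 1155, 321, 2183, 5130, 578, 8476, 33336, 18448, 41008,
      20512]
    tri := [(0, 1, 6), (0, 1, 8), (0, 6, 7), (0, 7, 8), (1, 2, 3), (1, 2, 8), (1, 3, 9), (1, 6, 10),
      (1, 9, 10), (2, 3, 11), (2, 8, 11), (3, 4, 11), (3, 4, 12), (3, 9, 12), (4, 5, 12), (4, 5,
      14), (4, 11, 13), (4, 13, 14), (5, 12, 15), (5, 14, 15)]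
    fin := [0, 1, 1, 3, 4, 4, 0, 7, 1, 9, 1, 3, 3, 4, 14, 15]
    chd := [(4, 15)]
    steps := [(0, 6), (1, 2), (1, 8), (1, 10), (3, 11), (3, 12), (4, 5), (4, 13)] }
  rep := [1, 0, 9, 3, 14, 4, 15, 7]

noncomputable def v678 : Cov.CovD where
  P := 3
  N := 5
  pl := [0, 1, 3, 8]
  lev := [⟨[], [], [], [1, 7], [(2, 0, [])]⟩,
    ⟨[], [(0, 0)], [(0, 0)], [1, 2], [(2, 0, []), (4, 0, [])]⟩,
    ⟨[(0, 1)], [(0, 0), (1, 0), (1, 3)], [(0, 3)], [], [(2, 0, []), (5, 3, [])]⟩,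
    ⟨[(0, 1), (1, 2)], [(1, 0), (1, 3), (2, 0), (2, 3)], [(3, 3)], [2], [(5, 3, []), (6, 3,
      [])]⟩,
    ⟨[(1, 3), (2, 3)], [(2, 3), (3, 3), (3, 5)], [(3, 3), (3, 5)], [4], [(5, 3, []), (6, 3,
      []), (7, 5, [6])]⟩,
    ⟨[(3, 4)], [(3, 3), (4, 3), (4, 5), (4, 6)], [(3, 6)], [4], [(6, 3, []), (9, 6, [5])]⟩]
  Ta := [((2, 1), 0, 7), ((2, 5), 0, 3), ((4, 0), 0, 1), ((4, 3), 0, 2), ((5, 2), 3, 0), ((5, 7),
    3, 5), ((6, 3), 3, 2), ((6, 9), 3, 6)]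
  Tb := [((0, 1, 4), 1, 7, 0), ((1, 0, 2), 7, 1, 0), ((2, 1, 5), 0, 7, 3), ((3, 4, 6), 2, 0, 3),
    ((4, 0, 3), 0, 1, 2), ((5, 2, 7), 3, 0, 5), ((6, 3, 9), 3, 2, 6), ((7, 5, 8), 5, 3, 4),
    ((8, 7, 9), 4, 5, 6), ((9, 6, 8), 6, 3, 4)]
  Tc := []
  Td := [((5, 6), (7, 5), 3), ((5, 6), (7, 8), 4), ((6, 5), (9, 6), 3), ((6, 5), (9, 8), 4)]
  G := [[0, 0, 0, 0x135e5c6b5281a5e496b528c, 0x31ce32ad3481a5ee2ad348c], [0, 0, 0,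
    0x7bdef1847bdef124c, 0x7bdef1487bdef128c], [0, 0x4396f12848eaf128a, 0xa4692bc4238cda681,
    0x59ccf1241, 0x2986f1481], [0, 0x817bd6f9247bdef1846, 0x3dab25bcd4681, 0x7bdef1241,
    0x7bdef1281]]

noncomputable def n678 : Ent := ⟨e678, noF, [], [], [(7, 13, [385753028440516072301428330182238677962518295842732840409776129, 0]), (7, 15, [360035742630636841211993100915356868655746945586763691010445313, 0])]⟩

def c678 : PLift (Cov.check n678.C.D v678 = true) := ⟨by decide +kernel⟩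

def b678 : PLift (entF (fidx ts) 400 678 n678 = true) := ⟨by decide +kernel⟩

theorem g678 : GoodF (fidx ts) 400 678 := GoodF.ofV v678 n678 c678.down b678.down

/-- 474674:588/1 -/
noncomputable def e679 : SCfg where
  D := {
    a := 6
    L := 9
    kp := 6
    inn := [(0, 1), (1, 0), (1, 2), (1, 3), (1, 4), (2, 1), (2, 3), (3, 1), (3, 2), (3, 4), (4, 1), (4,
      3), (4, 5), (5, 4)]
    mix := [(0, 0), (0, 1), (0, 2), (1, 0), (1, 2), (1, 3), (2, 2), (2, 4), (3, 4), (3, 5), (3, 6), (4,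
      3), (4, 6), (4, 7), (4, 8), (5, 1), (5, 6), (5, 7)]
    cl := [1, 4, 0, 0, 2, 6, 3, 5, 3]
    chq := [(0, 6), (6, 0)]
    rng := [(0, 1), (0, 3), (1, 0), (1, 2), (1, 6), (1, 7), (2, 1), (2, 4), (3, 0), (3, 8), (4, 2), (4,
      5), (5, 4), (5, 6), (6, 1), (6, 5), (7, 1), (7, 8), (8, 3), (8, 7)]
    lev := [] }
  links := [[1, 6, 7, 8], [6, 0, 8, 2, 3, 4, 9], [3, 1, 8, 10], [4, 1, 2, 10, 11, 12], [9, 1, 3, 12, 5,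
    13, 14], [13, 4, 12, 7]]
  P := {
    a := 6
    N := 15
    nb := [450, 861, 1290, 7190, 29226, 12432, 643, 12641, 1159, 16466, 2316, 5128, 2232, 16560, 8720]
    tri := [(0, 1, 6), (0, 1, 8), (0, 6, 7), (0, 7, 8), (1, 2, 3), (1, 2, 8), (1, 3, 4), (1, 4, 9), (1,
      6, 9), (2, 3, 10), (2, 8, 10), (3, 4, 12), (3, 10, 11), (3, 11, 12), (4, 5, 12), (4, 5, 13),
      (4, 9, 14), (4, 13, 14), (5, 7, 12), (5, 7, 13)]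
    fin := [0, 1, 1, 1, 4, 5, 0, 5, 1, 1, 10, 11, 4, 13, 4]
    chd := [(1, 11)]
    steps := [(0, 6), (1, 2), (1, 3), (1, 8), (1, 9), (4, 12), (4, 14), (5, 7)] }
  rep := [1, 0, 10, 4, 5, 13, 11]

noncomputable def v679 : Cov.CovD where
  P := 3
  N := 4
  pl := [0, 1, 4, 7]
  lev := [⟨[], [], [], [1, 4], [(2, 0, [6])]⟩,
    ⟨[], [(0, 0)], [(0, 0)], [1], [(2, 0, [6]), (3, 0, [6])]⟩,
    ⟨[(0, 1)], [(0, 0), (1, 0)], [], [2], [(2, 0, [6])]⟩,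
    ⟨[(0, 1), (1, 2)], [(1, 0), (1, 3), (1, 6), (2, 0), (2, 3), (2, 6)], [(3, 6)], [2],
      [(5, 6, [0]), (6, 3, [])]⟩,
    ⟨[(0, 1), (1, 2), (1, 3), (2, 3)], [(1, 0), (1, 3), (3, 0), (3, 3), (3, 6)], [(0, 3),
      (3, 3)], [5], [(3, 0, [6]), (6, 3, []), (8, 3, [])]⟩,
    ⟨[(1, 4), (3, 4)], [(3, 3), (4, 0), (4, 3)], [], [4, 5], [(6, 3, [])]⟩]
  Ta := [((2, 1), 0, 4), ((2, 4), 0, 2), ((3, 0), 0, 1), ((3, 8), 0, 3), ((6, 1), 3, 4), ((6, 5),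
    3, 6), ((8, 3), 3, 0), ((8, 7), 3, 5)]
  Tb := [((0, 1, 3), 1, 4, 0), ((1, 0, 2), 4, 1, 0), ((1, 0, 6), 4, 1, 3), ((1, 0, 7), 4, 1, 5),
    ((1, 2, 6), 4, 0, 3), ((1, 2, 7), 4, 0, 5), ((1, 6, 7), 4, 3, 5), ((2, 1, 4), 0, 4, 2),
    ((3, 0, 8), 0, 1, 3), ((4, 2, 5), 2, 0, 6), ((5, 4, 6), 6, 2, 3), ((6, 1, 5), 3, 4, 6),
    ((7, 1, 8), 5, 4, 3), ((8, 3, 7), 3, 0, 5)]
  Tc := []
  Td := [((0, 6), (2, 1), 4), ((0, 6), (2, 4), 2), ((0, 6), (3, 0), 1), ((0, 6), (3, 8), 3), ((6,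
    0), (5, 4), 2), ((6, 0), (5, 6), 3)]
  G := [[0, 0, 0xba54299873987a8c515e42354b2524b8acc, 0x812e184143e148c, 0x813e184142e128c], [0,
    0, 0x98521268a4442211baca8c, 0x819e184142e148c, 0x218ac924145e128c], [0,
    0x815e182142e148a, 0, 0xd17e1841, 0xd17e1841], [0, 0x198e142144e142c, 0, 0x5aee1481,
    0x12e34e9241]]

noncomputable def n679 : Ent := ⟨e679, noF, [], [], []⟩

def c679 : PLift (Cov.check n679.C.D v679 = true) := ⟨by decide +kernel⟩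

def b679 : PLift (entF (fidx ts) 400 679 n679 = true) := ⟨by decide +kernel⟩

theorem g679 : GoodF (fidx ts) 400 679 := GoodF.ofV v679 n679 c679.down b679.down

/-- 474674:588 -/
noncomputable def e680 : SCfg where
  D := {
    a := 6
    L := 10
    kp := 7
    inn := [(0, 1), (1, 0), (1, 2), (1, 3), (1, 4), (2, 1), (2, 3), (3, 1), (3, 2), (3, 4), (4, 1), (4,
      3), (4, 5), (5, 4)]
    mix := [(0, 0), (0, 1), (0, 2), (1, 0), (1, 2), (1, 3), (2, 2), (2, 4), (3, 4), (3, 5), (3, 6), (4,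
      3), (4, 6), (4, 7), (4, 8), (5, 6), (5, 7), (5, 9)]
    cl := [1, 6, 0, 0, 2, 5, 3, 4, 3, 7]
    chq := [(0, 5), (5, 0)]
    rng := [(0, 1), (0, 3), (1, 0), (1, 2), (2, 1), (2, 4), (3, 0), (3, 8), (4, 2), (4, 5), (5, 4), (5,
      6), (6, 5), (6, 9), (7, 8), (7, 9), (8, 3), (8, 7), (9, 6), (9, 7)]
    lev := [] }
  links := [[1, 6, 7, 8], [6, 0, 8, 2, 3, 4, 9], [3, 1, 8, 10], [4, 1, 2, 10, 11, 12], [9, 1, 3, 12, 5,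
    13, 14], [13, 4, 12, 15]]
  P := {
    a := 6
    N := 16
    nb := [450, 861, 1290, 7190, 29226, 45072, 643, 321, 1159, 16466, 2316, 5128, 34872, 49200, 8720,
      12320]
    tri := [(0, 1, 6), (0, 1, 8), (0, 6, 7), (0, 7, 8), (1, 2, 3), (1, 2, 8), (1, 3, 4), (1, 4, 9), (1,
      6, 9), (2, 3, 10), (2, 8, 10), (3, 4, 12), (3, 10, 11), (3, 11, 12), (4, 5, 12), (4, 5, 13),
      (4, 9, 14), (4, 13, 14), (5, 12, 15), (5, 13, 15)]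
    fin := [0, 1, 1, 1, 4, 4, 0, 7, 1, 1, 10, 11, 4, 13, 4, 15]
    chd := [(1, 11)]
    steps := [(0, 6), (1, 2), (1, 3), (1, 8), (1, 9), (4, 5), (4, 12), (4, 14)] }
  rep := [1, 0, 10, 4, 13, 11, 7, 15]

noncomputable def v680 : Cov.CovD where
  P := 3
  N := 5
  pl := [0, 1, 4, 7, 9]
  lev := [⟨[], [], [], [1, 6], [(2, 0, [5])]⟩,
    ⟨[], [(0, 0)], [(0, 0)], [1], [(2, 0, [5]), (3, 0, [5])]⟩,
    ⟨[(0, 1)], [(0, 0), (1, 0)], [], [2], [(2, 0, [5])]⟩,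
    ⟨[(0, 1), (1, 2)], [(1, 0), (1, 3), (1, 5), (2, 0), (2, 3), (2, 5)], [(3, 5)], [2],
      [(5, 5, [0]), (6, 3, [])]⟩,
    ⟨[(0, 1), (1, 2), (1, 3), (2, 3)], [(1, 0), (1, 3), (3, 0), (3, 3), (3, 5)], [(0, 3),
      (3, 3)], [4], [(3, 0, [5]), (6, 3, []), (8, 3, [])]⟩,
    ⟨[(1, 4), (3, 4)], [(3, 3), (4, 0), (4, 3)], [], [4, 7], [(6, 3, [])]⟩]
  Ta := [((2, 1), 0, 6), ((2, 4), 0, 2), ((3, 0), 0, 1), ((3, 8), 0, 3), ((6, 5), 3, 5), ((6, 9),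
    3, 7), ((8, 3), 3, 0), ((8, 7), 3, 4)]
  Tb := [((0, 1, 3), 1, 6, 0), ((1, 0, 2), 6, 1, 0), ((2, 1, 4), 0, 6, 2), ((3, 0, 8), 0, 1, 3),
    ((4, 2, 5), 2, 0, 5), ((5, 4, 6), 5, 2, 3), ((6, 5, 9), 3, 5, 7), ((7, 8, 9), 4, 3, 7),
    ((8, 3, 7), 3, 0, 4), ((9, 6, 7), 7, 3, 4)]
  Tc := []
  Td := [((0, 5), (2, 1), 6), ((0, 5), (2, 4), 2), ((0, 5), (3, 0), 1), ((0, 5), (3, 8), 3), ((5,
    0), (5, 4), 2), ((5, 0), (5, 6), 3)]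
  G := [[0, 0, 0x943462b56b259bcf57cbc6cdb87796a5b5ef3a9661882cc, 0x536149818c536149818cc,
    0x536129812c536129812cc], [0, 0, 0xdc52ba3461882ca148cc926638acc, 0x9a3e18454146ca18cc,
    0x6a3e184653e128c], [0, 0x2214951e14693a1854186c, 0, 0x541493a14c1, 0x541893a12c1], [0,
    0x95ce182541493a18cc, 0, 0xda7e1841, 0xdaee1841]]

noncomputable def n680 : Ent := ⟨e680, noF, [], [], [(7, 15, [360035742630636841211993100915356868655746945586763691010453505, 0])]⟩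

def c680 : PLift (Cov.check n680.C.D v680 = true) := ⟨by decide +kernel⟩

def b680 : PLift (entF (fidx ts) 400 680 n680 = true) := ⟨by decide +kernel⟩

theorem g680 : GoodF (fidx ts) 400 680 := GoodF.ofV v680 n680 c680.down b680.down

/-- 474675:589/1 -/
noncomputable def e681 : SCfg where
  D := {
    a := 6
    L := 10
    kp := 7
    inn := [(0, 1), (1, 0), (1, 2), (1, 3), (1, 4), (2, 1), (2, 3), (3, 1), (3, 2), (3, 4), (4, 1), (4,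
      3), (4, 5), (5, 4)]
    mix := [(0, 0), (0, 1), (0, 2), (1, 0), (1, 2), (1, 3), (2, 2), (2, 4), (3, 4), (3, 5), (3, 6), (4,
      3), (4, 6), (4, 7), (4, 8), (5, 1), (5, 6), (5, 7), (5, 9)]
    cl := [1, 4, 0, 0, 2, 5, 3, 3, 6, 7]
    chq := [(0, 3), (0, 5), (3, 0), (5, 0)]
    rng := [(0, 1), (0, 3), (1, 0), (1, 2), (1, 6), (1, 9), (2, 1), (2, 4), (3, 0), (3, 8), (4, 2), (4,
      5), (5, 4), (5, 6), (6, 1), (6, 5), (7, 8), (7, 9), (8, 3), (8, 7), (9, 1), (9, 7)]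
    lev := [] }
  links := [[1, 6, 7, 8], [6, 0, 8, 2, 3, 4, 9], [3, 1, 8, 10], [4, 1, 2, 10, 11, 12], [9, 1, 3, 12, 5,
    13, 14], [13, 4, 12, 7, 15]]
  P := {
    a := 6
    N := 16
    nb := [450, 861, 1290, 7190, 29226, 45200, 643, 37217, 1159, 16466, 2316, 5128, 2232, 49200, 8720,
      8352]
    tri := [(0, 1, 6), (0, 1, 8), (0, 6, 7), (0, 7, 8), (1, 2, 3), (1, 2, 8), (1, 3, 4), (1, 4, 9), (1,
      6, 9), (2, 3, 10), (2, 8, 10), (3, 4, 12), (3, 10, 11), (3, 11, 12), (4, 5, 12), (4, 5, 13),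
      (4, 9, 14), (4, 13, 14), (5, 7, 12), (5, 7, 15), (5, 13, 15)]
    fin := [0, 1, 1, 1, 4, 5, 0, 5, 1, 1, 10, 11, 4, 4, 14, 15]
    chd := [(1, 4), (1, 11)]
    steps := [(0, 6), (1, 2), (1, 3), (1, 8), (1, 9), (4, 12), (4, 13), (5, 7)] }
  rep := [1, 0, 10, 4, 5, 11, 14, 15]

noncomputable def v681 : Cov.CovD where
  P := 3
  N := 5
  pl := [0, 1, 4, 8, 9]
  lev := [⟨[], [], [], [1, 4], [(2, 0, [3, 5])]⟩,
    ⟨[], [(0, 0)], [(0, 0)], [1], [(2, 0, [3, 5]), (3, 0, [3, 5])]⟩,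
    ⟨[(0, 1)], [(0, 0), (1, 0)], [], [2], [(2, 0, [3, 5])]⟩,
    ⟨[(0, 1), (1, 2)], [(1, 0), (1, 3), (1, 5), (2, 0), (2, 3), (2, 5)], [(3, 5)], [2],
      [(5, 5, [0]), (6, 3, [0])]⟩,
    ⟨[(0, 1), (1, 2), (1, 3), (2, 3)], [(1, 0), (1, 3), (3, 0), (3, 3), (3, 5)], [(0, 3),
      (3, 3)], [6], [(3, 0, [3, 5]), (6, 3, [0]), (7, 3, [0])]⟩,
    ⟨[(1, 4), (3, 4)], [(3, 3), (4, 0), (4, 3)], [(3, 3)], [4, 7], [(6, 3, [0]), (7, 3,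
      [0])]⟩]
  Ta := [((2, 1), 0, 4), ((2, 4), 0, 2), ((3, 0), 0, 1), ((3, 8), 0, 6), ((6, 1), 3, 4), ((6, 5),
    3, 5), ((7, 8), 3, 6), ((7, 9), 3, 7)]
  Tb := [((0, 1, 3), 1, 4, 0), ((1, 0, 2), 4, 1, 0), ((1, 0, 6), 4, 1, 3), ((1, 0, 9), 4, 1, 7),
    ((1, 2, 6), 4, 0, 3), ((1, 2, 9), 4, 0, 7), ((1, 6, 9), 4, 3, 7), ((2, 1, 4), 0, 4, 2),
    ((3, 0, 8), 0, 1, 6), ((4, 2, 5), 2, 0, 5), ((5, 4, 6), 5, 2, 3), ((6, 1, 5), 3, 4, 5),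
    ((7, 8, 9), 3, 6, 7), ((8, 3, 7), 6, 0, 3), ((9, 1, 7), 7, 4, 3)]
  Tc := [(0, 3, 5)]
  Td := [((0, 3), (2, 1), 4), ((0, 3), (2, 4), 2), ((0, 3), (3, 0), 1), ((0, 3), (3, 8), 6), ((0,
    5), (2, 1), 4), ((0, 5), (2, 4), 2), ((0, 5), (3, 0), 1), ((0, 5), (3, 8), 6), ((3, 0),
    (6, 1), 4), ((3, 0), (6, 5), 5), ((3, 0), (7, 8), 6), ((3, 0), (7, 9), 7), ((5, 0), (5,
    4), 2), ((5, 0), (5, 6), 3)]
  G := [[0, 0, 0x11a7421a51811a7e188ac1651636116718ca1818a2cc, 0x9bbe184757e148c,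
    0x9bbe184757e128c], [0, 0, 0x11c21e381a148e4114d233a468c, 0x9bfe184753e148c,
    0x8193be384757e128c], [0, 0xd5de182b3618b81866, 0, 0xff618f818c1, 0x5ffe12a818c1], [0,
    0xd2149dc14a321877c146a, 0, 0x4418b41ffa1cc1, 0x4418fbfe18c1]]

noncomputable def n681 : Ent := ⟨e681, noF, [], [], []⟩

def c681 : PLift (Cov.check n681.C.D v681 = true) := ⟨by decide +kernel⟩

def b681 : PLift (entF (fidx ts) 400 681 n681 = true) := ⟨by decide +kernel⟩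

theorem g681 : GoodF (fidx ts) 400 681 := GoodF.ofV v681 n681 c681.down b681.down

/-- 474675:589/3 -/
noncomputable def e682 : SCfg where
  D := {
    a := 6
    L := 9
    kp := 6
    inn := [(0, 1), (1, 0), (1, 2), (1, 3), (1, 4), (2, 1), (2, 3), (3, 1), (3, 2), (3, 4), (4, 1), (4,
      3), (4, 5), (5, 4)]
    mix := [(0, 0), (0, 1), (0, 2), (1, 0), (1, 2), (1, 3), (2, 2), (2, 4), (3, 4), (3, 5), (3, 6), (4,
      3), (4, 6), (4, 7), (4, 8), (5, 1), (5, 5), (5, 6), (5, 7)]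
    cl := [1, 2, 0, 0, 5, 4, 3, 3, 6]
    chq := [(0, 3), (0, 4), (3, 0), (4, 0)]
    rng := [(0, 1), (0, 3), (1, 0), (1, 2), (1, 5), (1, 7), (2, 1), (2, 4), (3, 0), (3, 8), (4, 2), (4,
      5), (5, 1), (5, 4), (5, 6), (6, 5), (7, 1), (7, 8), (8, 3), (8, 7)]
    lev := [] }
  links := [[1, 6, 7, 8], [6, 0, 8, 2, 3, 4, 9], [3, 1, 8, 10], [4, 1, 2, 10, 11, 12], [9, 1, 3, 12, 5,
    13, 14], [13, 4, 12, 11, 7]]
  P := {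
    a := 6
    N := 15
    nb := [450, 861, 1290, 7190, 29226, 14480, 643, 10593, 1159, 16466, 2316, 5288, 2104, 16560, 8720]
    tri := [(0, 1, 6), (0, 1, 8), (0, 6, 7), (0, 7, 8), (1, 2, 3), (1, 2, 8), (1, 3, 4), (1, 4, 9), (1,
      6, 9), (2, 3, 10), (2, 8, 10), (3, 4, 12), (3, 10, 11), (3, 11, 12), (4, 5, 12), (4, 5, 13),
      (4, 9, 14), (4, 13, 14), (5, 7, 11), (5, 7, 13), (5, 11, 12)]
    fin := [0, 0, 2, 2, 2, 5, 0, 7, 2, 2, 10, 11, 5, 5, 14]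
    chd := [(2, 5), (2, 11)]
    steps := [(0, 1), (0, 6), (2, 3), (2, 4), (2, 8), (2, 9), (5, 12), (5, 13)] }
  rep := [2, 0, 7, 5, 11, 10, 14]

noncomputable def v682 : Cov.CovD where
  P := 3
  N := 4
  pl := [0, 1, 4, 8]
  lev := [⟨[], [], [], [1, 2], [(2, 0, [3, 4])]⟩,
    ⟨[], [(0, 0)], [(0, 0)], [1], [(2, 0, [3, 4]), (3, 0, [3, 4])]⟩,
    ⟨[(0, 1)], [(0, 0), (1, 0)], [], [5], [(2, 0, [3, 4])]⟩,
    ⟨[(0, 1), (1, 2)], [(1, 0), (1, 3), (1, 4), (2, 0), (2, 3), (2, 4)], [(3, 4)], [5],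
      [(5, 4, [0]), (6, 3, [0])]⟩,
    ⟨[(0, 1), (1, 2), (1, 3), (2, 3)], [(1, 0), (1, 3), (3, 0), (3, 3), (3, 4)], [(0, 3),
      (3, 3)], [6], [(3, 0, [3, 4]), (6, 3, [0]), (7, 3, [0])]⟩,
    ⟨[(1, 4), (3, 4)], [(3, 3), (3, 4), (4, 0), (4, 3), (4, 4)], [(3, 3), (3, 4)], [2],
      [(5, 4, [0]), (6, 3, [0]), (7, 3, [0])]⟩]
  Ta := [((2, 1), 0, 2), ((2, 4), 0, 5), ((3, 0), 0, 1), ((3, 8), 0, 6), ((6, 5), 3, 4), ((7, 1),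
    3, 2), ((7, 8), 3, 6)]
  Tb := [((0, 1, 3), 1, 2, 0), ((1, 0, 2), 2, 1, 0), ((1, 0, 5), 2, 1, 4), ((1, 0, 7), 2, 1, 3),
    ((1, 2, 5), 2, 0, 4), ((1, 2, 7), 2, 0, 3), ((1, 5, 7), 2, 4, 3), ((2, 1, 4), 0, 2, 5),
    ((3, 0, 8), 0, 1, 6), ((4, 2, 5), 5, 0, 4), ((5, 1, 4), 4, 2, 5), ((5, 1, 6), 4, 2, 3),
    ((5, 4, 6), 4, 5, 3), ((7, 1, 8), 3, 2, 6), ((8, 3, 7), 6, 0, 3)]
  Tc := [(0, 3, 4)]
  Td := [((0, 3), (2, 1), 2), ((0, 3), (2, 4), 5), ((0, 3), (3, 0), 1), ((0, 3), (3, 8), 6), ((0,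
    4), (2, 1), 2), ((0, 4), (2, 4), 5), ((0, 4), (3, 0), 1), ((0, 4), (3, 8), 6), ((3, 0),
    (6, 5), 4), ((3, 0), (7, 1), 2), ((3, 0), (7, 8), 6), ((4, 0), (5, 1), 2), ((4, 0), (5,
    4), 5), ((4, 0), (5, 6), 3)]
  G := [[0, 0, 0x6661214cce3a81689881ac4, 0x541d162c9da1d82ac4, 0x944288511a3a6d225913e3ac8],
    [0, 0, 0xc861241aaee54121c87ac8, 0x4292d4715c269da18c4, 0x3442129ab1e3183a19babcc8], [0,
    0x111e1111e1c24, 0, 0x5d6159cd23a9818c4, 0x9b3e19b3e1a41], [0, 0x111e1111e1684, 0,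
    0x5d6119c26dda18c4, 0xb36193a19bc1e41]]

noncomputable def n682 : Ent := ⟨e682, noF, [], [], []⟩

def c682 : PLift (Cov.check n682.C.D v682 = true) := ⟨by decide +kernel⟩

def b682 : PLift (entF (fidx ts) 400 682 n682 = true) := ⟨by decide +kernel⟩

theorem g682 : GoodF (fidx ts) 400 682 := GoodF.ofV v682 n682 c682.down b682.down

/-- 474675:589/2 -/
noncomputable def e683 : SCfg where
  D := {
    a := 6
    L := 10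
    kp := 7
    inn := [(0, 1), (1, 0), (1, 2), (1, 3), (1, 4), (2, 1), (2, 3), (3, 1), (3, 2), (3, 4), (4, 1), (4,
      3), (4, 5), (5, 4)]
    mix := [(0, 0), (0, 1), (0, 2), (1, 0), (1, 2), (1, 3), (2, 2), (2, 4), (3, 4), (3, 5), (3, 6), (4,
      3), (4, 6), (4, 7), (4, 8), (5, 1), (5, 6), (5, 7), (5, 9)]
    cl := [1, 4, 0, 0, 2, 5, 3, 3, 6, 7]
    chq := [(0, 3), (0, 5), (3, 0), (5, 0)]
    rng := [(0, 1), (0, 3), (1, 0), (1, 2), (1, 7), (1, 9), (2, 1), (2, 4), (3, 0), (3, 8), (4, 2), (4,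
      5), (5, 4), (5, 6), (6, 5), (6, 9), (7, 1), (7, 8), (8, 3), (8, 7), (9, 1), (9, 6)]
    lev := [] }
  links := [[1, 6, 7, 8], [6, 0, 8, 2, 3, 4, 9], [3, 1, 8, 10], [4, 1, 2, 10, 11, 12], [9, 1, 3, 12, 5,
    13, 14], [13, 4, 12, 15, 7]]
  P := {
    a := 6
    N := 16
    nb := [450, 861, 1290, 7190, 29226, 45200, 643, 41313, 1159, 16466, 2316, 5128, 34872, 16560,
      8720, 4256]
    tri := [(0, 1, 6), (0, 1, 8), (0, 6, 7), (0, 7, 8), (1, 2, 3), (1, 2, 8), (1, 3, 4), (1, 4, 9), (1,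
      6, 9), (2, 3, 10), (2, 8, 10), (3, 4, 12), (3, 10, 11), (3, 11, 12), (4, 5, 12), (4, 5, 13),
      (4, 9, 14), (4, 13, 14), (5, 7, 13), (5, 7, 15), (5, 12, 15)]
    fin := [0, 1, 1, 1, 4, 5, 0, 5, 1, 1, 10, 11, 4, 4, 14, 15]
    chd := [(1, 4), (1, 11)]
    steps := [(0, 6), (1, 2), (1, 3), (1, 8), (1, 9), (4, 12), (4, 13), (5, 7)] }
  rep := [1, 0, 10, 4, 5, 11, 14, 15]

noncomputable def v683 : Cov.CovD where
  P := 3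
  N := 5
  pl := [0, 1, 4, 8, 9]
  lev := [⟨[], [], [], [1, 4], [(2, 0, [3, 5])]⟩,
    ⟨[], [(0, 0)], [(0, 0)], [1], [(2, 0, [3, 5]), (3, 0, [3, 5])]⟩,
    ⟨[(0, 1)], [(0, 0), (1, 0)], [], [2], [(2, 0, [3, 5])]⟩,
    ⟨[(0, 1), (1, 2)], [(1, 0), (1, 3), (1, 5), (2, 0), (2, 3), (2, 5)], [(3, 5)], [2],
      [(5, 5, [0]), (6, 3, [0])]⟩,
    ⟨[(0, 1), (1, 2), (1, 3), (2, 3)], [(1, 0), (1, 3), (3, 0), (3, 3), (3, 5)], [(0, 3),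
      (3, 3)], [6], [(3, 0, [3, 5]), (6, 3, [0]), (7, 3, [0])]⟩,
    ⟨[(1, 4), (3, 4)], [(3, 3), (4, 0), (4, 3)], [(3, 3)], [4, 7], [(6, 3, [0]), (7, 3,
      [0])]⟩]
  Ta := [((2, 1), 0, 4), ((2, 4), 0, 2), ((3, 0), 0, 1), ((3, 8), 0, 6), ((6, 5), 3, 5), ((6, 9),
    3, 7), ((7, 1), 3, 4), ((7, 8), 3, 6)]
  Tb := [((0, 1, 3), 1, 4, 0), ((1, 0, 2), 4, 1, 0), ((1, 0, 7), 4, 1, 3), ((1, 0, 9), 4, 1, 7),
    ((1, 2, 7), 4, 0, 3), ((1, 2, 9), 4, 0, 7), ((1, 7, 9), 4, 3, 7), ((2, 1, 4), 0, 4, 2),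
    ((3, 0, 8), 0, 1, 6), ((4, 2, 5), 2, 0, 5), ((5, 4, 6), 5, 2, 3), ((6, 5, 9), 3, 5, 7),
    ((7, 1, 8), 3, 4, 6), ((8, 3, 7), 6, 0, 3), ((9, 1, 6), 7, 4, 3)]
  Tc := [(0, 3, 5)]
  Td := [((0, 3), (2, 1), 4), ((0, 3), (2, 4), 2), ((0, 3), (3, 0), 1), ((0, 3), (3, 8), 6), ((0,
    5), (2, 1), 4), ((0, 5), (2, 4), 2), ((0, 5), (3, 0), 1), ((0, 5), (3, 8), 6), ((3, 0),
    (6, 5), 5), ((3, 0), (6, 9), 7), ((3, 0), (7, 1), 4), ((3, 0), (7, 8), 6), ((5, 0), (5,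
    4), 2), ((5, 0), (5, 6), 3)]
  G := [[0, 0, 0x11a71e562122118d18c6c14149c1446112b2116b8acc, 0x9bfe1845361781c8c,
    0x9b3e1245f61781a8c], [0, 0, 0x1421a31a9a148e41114f2116b468c, 0xbb6149814c757e148c,
    0x9bbe124757e128c], [0, 0x9bfe184753e148c, 0, 0xf414ffa14c1, 0xff612f818c1], [0,
    0x9fde142541473a14ca, 0, 0x4418fbfe18c1, 0xff618f818c1]]

noncomputable def n683 : Ent := ⟨e683, noF, [], [], [(11, 15, [360035742630636841211993100915356868655746945586763691010465793, 0])]⟩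

def c683 : PLift (Cov.check n683.C.D v683 = true) := ⟨by decide +kernel⟩

def b683 : PLift (entF (fidx ts) 400 683 n683 = true) := ⟨by decide +kernel⟩

theorem g683 : GoodF (fidx ts) 400 683 := GoodF.ofV v683 n683 c683.down b683.down

/-- 474675:589/4 -/
noncomputable def e684 : SCfg where
  D := {
    a := 6
    L := 10
    kp := 7
    inn := [(0, 1), (1, 0), (1, 2), (1, 3), (1, 4), (2, 1), (2, 3), (3, 1), (3, 2), (3, 4), (4, 1), (4,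
      3), (4, 5), (5, 4)]
    mix := [(0, 0), (0, 1), (0, 2), (1, 0), (1, 2), (1, 3), (2, 2), (2, 4), (3, 4), (3, 5), (3, 6), (4,
      3), (4, 6), (4, 7), (4, 8), (5, 5), (5, 6), (5, 7), (5, 9)]
    cl := [1, 5, 0, 0, 2, 4, 3, 3, 6, 7]
    chq := [(0, 3), (0, 4), (3, 0), (4, 0)]
    rng := [(0, 1), (0, 3), (1, 0), (1, 2), (2, 1), (2, 4), (3, 0), (3, 8), (4, 2), (4, 5), (5, 4), (5,
      6), (5, 9), (6, 5), (7, 8), (7, 9), (8, 3), (8, 7), (9, 5), (9, 7)]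
    lev := [] }
  links := [[1, 6, 7, 8], [6, 0, 8, 2, 3, 4, 9], [3, 1, 8, 10], [4, 1, 2, 10, 11, 12], [9, 1, 3, 12, 5,
    13, 14], [13, 4, 12, 11, 15]]
  P := {
    a := 6
    N := 16
    nb := [450, 861, 1290, 7190, 29226, 47120, 643, 321, 1159, 16466, 2316, 37928, 2104, 49200, 8720,
      10272]
    tri := [(0, 1, 6), (0, 1, 8), (0, 6, 7), (0, 7, 8), (1, 2, 3), (1, 2, 8), (1, 3, 4), (1, 4, 9), (1,
      6, 9), (2, 3, 10), (2, 8, 10), (3, 4, 12), (3, 10, 11), (3, 11, 12), (4, 5, 12), (4, 5, 13),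
      (4, 9, 14), (4, 13, 14), (5, 11, 12), (5, 11, 15), (5, 13, 15)]
    fin := [0, 1, 1, 1, 4, 5, 0, 7, 1, 1, 10, 5, 4, 4, 14, 15]
    chd := [(1, 4), (1, 5)]
    steps := [(0, 6), (1, 2), (1, 3), (1, 8), (1, 9), (4, 12), (4, 13), (5, 11)] }
  rep := [1, 0, 10, 4, 5, 7, 14, 15]

noncomputable def v684 : Cov.CovD where
  P := 3
  N := 5
  pl := [0, 1, 4, 8, 9]
  lev := [⟨[], [], [], [1, 5], [(2, 0, [3, 4])]⟩,
    ⟨[], [(0, 0)], [(0, 0)], [1], [(2, 0, [3, 4]), (3, 0, [3, 4])]⟩,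
    ⟨[(0, 1)], [(0, 0), (1, 0)], [], [2], [(2, 0, [3, 4])]⟩,
    ⟨[(0, 1), (1, 2)], [(1, 0), (1, 3), (1, 4), (2, 0), (2, 3), (2, 4)], [(3, 4)], [2],
      [(5, 4, [0]), (6, 3, [0])]⟩,
    ⟨[(0, 1), (1, 2), (1, 3), (2, 3)], [(1, 0), (1, 3), (3, 0), (3, 3), (3, 4)], [(0, 3),
      (3, 3)], [6], [(3, 0, [3, 4]), (6, 3, [0]), (7, 3, [0])]⟩,
    ⟨[(1, 4), (3, 4)], [(3, 3), (3, 4), (4, 0), (4, 3), (4, 4)], [(3, 3), (3, 4)], [7],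
      [(5, 4, [0]), (6, 3, [0]), (7, 3, [0])]⟩]
  Ta := [((2, 1), 0, 5), ((2, 4), 0, 2), ((3, 0), 0, 1), ((3, 8), 0, 6), ((6, 5), 3, 4), ((7, 8),
    3, 6), ((7, 9), 3, 7)]
  Tb := [((0, 1, 3), 1, 5, 0), ((1, 0, 2), 5, 1, 0), ((2, 1, 4), 0, 5, 2), ((3, 0, 8), 0, 1, 6),
    ((4, 2, 5), 2, 0, 4), ((5, 4, 6), 4, 2, 3), ((5, 4, 9), 4, 2, 7), ((5, 6, 9), 4, 3, 7),
    ((7, 8, 9), 3, 6, 7), ((8, 3, 7), 6, 0, 3), ((9, 5, 7), 7, 4, 3)]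
  Tc := [(0, 3, 4)]
  Td := [((0, 3), (2, 1), 5), ((0, 3), (2, 4), 2), ((0, 3), (3, 0), 1), ((0, 3), (3, 8), 6), ((0,
    4), (2, 1), 5), ((0, 4), (2, 4), 2), ((0, 4), (3, 0), 1), ((0, 4), (3, 8), 6), ((3, 0),
    (6, 5), 4), ((3, 0), (7, 8), 6), ((3, 0), (7, 9), 7), ((4, 0), (5, 4), 2), ((4, 0), (5,
    6), 3), ((4, 0), (5, 9), 7)]
  G := [[0, 0, 0x14421187114b1112fe188ac1147112761161818ec18982cc, 0x41fbfe584414817fbe9c8c,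
    0xff612f812cd41821ffa32cc], [0, 0, 0x1116f2111cf8a41161127618281149ce8c,
    0x41b45ffa1c4f414ffa18cc, 0xff612f818c741281ffa98cc], [0, 0xffa18f4146e218ff1e186c, 0,
    0xff618f818c1, 0xf412ffa18c1], [0, 0xff614f818cffa18f4186c, 0, 0x4414fbfe18c1,
    0xf412ffa18c1]]

noncomputable def n684 : Ent := ⟨e684, noF, [], [], [(7, 15, [360035742630636841211993100915356868655746945586763691010465793, 0])]⟩

def c684 : PLift (Cov.check n684.C.D v684 = true) := ⟨by decide +kernel⟩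

def b684 : PLift (entF (fidx ts) 400 684 n684 = true) := ⟨by decide +kernel⟩

theorem g684 : GoodF (fidx ts) 400 684 := GoodF.ofV v684 n684 c684.down b684.down

/-- 474675:589 -/
noncomputable def e685 : SCfg where
  D := {
    a := 6
    L := 11
    kp := 8
    inn := [(0, 1), (1, 0), (1, 2), (1, 3), (1, 4), (2, 1), (2, 3), (3, 1), (3, 2), (3, 4), (4, 1), (4,
      3), (4, 5), (5, 4)]
    mix := [(0, 0), (0, 1), (0, 2), (1, 0), (1, 2), (1, 3), (2, 2), (2, 4), (3, 4), (3, 5), (3, 6), (4,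
      3), (4, 6), (4, 7), (4, 8), (5, 6), (5, 7), (5, 9), (5, 10)]
    cl := [1, 5, 0, 0, 2, 4, 3, 3, 6, 7, 8]
    chq := [(0, 3), (0, 4), (3, 0), (4, 0)]
    rng := [(0, 1), (0, 3), (1, 0), (1, 2), (2, 1), (2, 4), (3, 0), (3, 8), (4, 2), (4, 5), (5, 4), (5,
      6), (6, 5), (6, 9), (7, 8), (7, 10), (8, 3), (8, 7), (9, 6), (9, 10), (10, 7), (10, 9)]
    lev := [] }
  links := [[1, 6, 7, 8], [6, 0, 8, 2, 3, 4, 9], [3, 1, 8, 10], [4, 1, 2, 10, 11, 12], [9, 1, 3, 12, 5,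
    13, 14], [13, 4, 12, 15, 16]]
  P := {
    a := 6
    N := 17
    nb := [450, 861, 1290, 7190, 29226, 110608, 643, 321, 1159, 16466, 2316, 5128, 34872, 81968, 8720,
      69664, 40992]
    tri := [(0, 1, 6), (0, 1, 8), (0, 6, 7), (0, 7, 8), (1, 2, 3), (1, 2, 8), (1, 3, 4), (1, 4, 9), (1,
      6, 9), (2, 3, 10), (2, 8, 10), (3, 4, 12), (3, 10, 11), (3, 11, 12), (4, 5, 12), (4, 5, 13),
      (4, 9, 14), (4, 13, 14), (5, 12, 15), (5, 13, 16), (5, 15, 16)]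
    fin := [0, 0, 2, 2, 2, 5, 0, 7, 2, 2, 10, 11, 5, 5, 14, 15, 16]
    chd := [(2, 5), (2, 11)]
    steps := [(0, 1), (0, 6), (2, 3), (2, 4), (2, 8), (2, 9), (5, 12), (5, 13)] }
  rep := [2, 0, 10, 5, 11, 7, 14, 15, 16]

noncomputable def v685 : Cov.CovD where
  P := 3
  N := 6
  pl := [0, 1, 4, 8, 9, 10]
  lev := [⟨[], [], [], [1, 5], [(2, 0, [3, 4])]⟩,
    ⟨[], [(0, 0)], [(0, 0)], [1], [(2, 0, [3, 4]), (3, 0, [3, 4])]⟩,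
    ⟨[(0, 1)], [(0, 0), (1, 0)], [], [2], [(2, 0, [3, 4])]⟩,
    ⟨[(0, 1), (1, 2)], [(1, 0), (1, 3), (1, 4), (2, 0), (2, 3), (2, 4)], [(3, 4)], [2],
      [(5, 4, [0]), (6, 3, [0])]⟩,
    ⟨[(0, 1), (1, 2), (1, 3), (2, 3)], [(1, 0), (1, 3), (3, 0), (3, 3), (3, 4)], [(0, 3),
      (3, 3)], [6], [(3, 0, [3, 4]), (6, 3, [0]), (7, 3, [0])]⟩,
    ⟨[(1, 4), (3, 4)], [(3, 3), (4, 0), (4, 3)], [(3, 3)], [7, 8], [(6, 3, [0]), (7, 3,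
      [0])]⟩]
  Ta := [((2, 1), 0, 5), ((2, 4), 0, 2), ((3, 0), 0, 1), ((3, 8), 0, 6), ((6, 5), 3, 4), ((6, 9),
    3, 7), ((7, 8), 3, 6), ((7, 10), 3, 8)]
  Tb := [((0, 1, 3), 1, 5, 0), ((1, 0, 2), 5, 1, 0), ((2, 1, 4), 0, 5, 2), ((3, 0, 8), 0, 1, 6),
    ((4, 2, 5), 2, 0, 4), ((5, 4, 6), 4, 2, 3), ((6, 5, 9), 3, 4, 7), ((7, 8, 10), 3, 6, 8),
    ((8, 3, 7), 6, 0, 3), ((9, 6, 10), 7, 3, 8), ((10, 7, 9), 8, 3, 7)]
  Tc := [(0, 3, 4)]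
  Td := [((0, 3), (2, 1), 5), ((0, 3), (2, 4), 2), ((0, 3), (3, 0), 1), ((0, 3), (3, 8), 6), ((0,
    4), (2, 1), 5), ((0, 4), (2, 4), 2), ((0, 4), (3, 0), 1), ((0, 4), (3, 8), 6), ((3, 0),
    (6, 5), 4), ((3, 0), (6, 9), 7), ((3, 0), (7, 8), 6), ((3, 0), (7, 10), 8), ((4, 0), (5,
    4), 2), ((4, 0), (5, 6), 3)]
  G := [[0, 0, 0x1e54211e7111efa1811acac1e511eb111efe144611a82cc, 0x4414fbfe18c5ffe14a818cc,
    0xff612f812cf418ffa18cc], [0, 0, 0x111ef211eb8148e411e711e76182184e8c,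
    0xff614f814cff614f818cc, 0xff612f818cd41221ffa92cc], [0, 0xa218ff5e146ffa18f41466, 0,
    0xf418ffa14c1, 0xf412ffa18c1], [0, 0xf414ffa14cf218ffc146c, 0, 0xf414ffa18c1,
    0xff612f812c1]]

noncomputable def n685 : Ent := ⟨e685, noF, [], [], [(7, 15, [1685356702439545624007900436039642273970977273354372543760002879489, 0]), (7, 16, [1580044410770988437309982408355971841652082177953823432505691910145, 0]), (11, 15, [1685356702439545624007900436039642273970977273354372543760002891777, 0])]⟩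

def c685 : PLift (Cov.check n685.C.D v685 = true) := ⟨by decide +kernel⟩

def b685 : PLift (entF (fidx ts) 400 685 n685 = true) := ⟨by decide +kernel⟩

theorem g685 : GoodF (fidx ts) 400 685 := GoodF.ofV v685 n685 c685.down b685.down

/-- 474674:590/1 -/
noncomputable def e686 : SCfg where
  D := {
    a := 6
    L := 9
    kp := 6
    inn := [(0, 1), (1, 0), (1, 2), (1, 3), (1, 4), (2, 1), (2, 3), (3, 1), (3, 2), (3, 4), (4, 1), (4,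
      3), (4, 5), (5, 4)]
    mix := [(0, 0), (0, 1), (0, 2), (1, 0), (1, 2), (1, 3), (2, 2), (2, 4), (3, 4), (3, 5), (3, 6), (4,
      3), (4, 6), (4, 7), (4, 8), (5, 1), (5, 7), (5, 8)]
    cl := [1, 4, 0, 0, 2, 6, 3, 5, 3]
    chq := [(0, 6), (6, 0)]
    rng := [(0, 1), (0, 3), (1, 0), (1, 2), (1, 7), (1, 8), (2, 1), (2, 4), (3, 0), (3, 8), (4, 2), (4,
      5), (5, 4), (5, 6), (6, 5), (6, 7), (7, 1), (7, 6), (8, 1), (8, 3)]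
    lev := [] }
  links := [[1, 6, 7, 8], [6, 0, 8, 2, 3, 4, 9], [3, 1, 8, 10], [4, 1, 2, 10, 11, 12], [9, 1, 3, 12, 13,
    5, 14], [14, 4, 13, 7]]
  P := {
    a := 6
    N := 15
    nb := [450, 861, 1290, 7190, 29226, 24720, 643, 24929, 1159, 16466, 2316, 5128, 10264, 4272, 688]
    tri := [(0, 1, 6), (0, 1, 8), (0, 6, 7), (0, 7, 8), (1, 2, 3), (1, 2, 8), (1, 3, 4), (1, 4, 9), (1,
      6, 9), (2, 3, 10), (2, 8, 10), (3, 4, 12), (3, 10, 11), (3, 11, 12), (4, 5, 13), (4, 5, 14),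
      (4, 9, 14), (4, 12, 13), (5, 7, 13), (5, 7, 14)]
    fin := [0, 1, 1, 1, 4, 5, 0, 5, 1, 1, 10, 11, 4, 13, 4]
    chd := [(1, 11)]
    steps := [(0, 6), (1, 2), (1, 3), (1, 8), (1, 9), (4, 12), (4, 14), (5, 7)] }
  rep := [1, 0, 10, 4, 5, 13, 11]

noncomputable def v686 : Cov.CovD where
  P := 3
  N := 4
  pl := [0, 1, 4, 7]
  lev := [⟨[], [], [], [1, 4], [(2, 0, [6])]⟩,
    ⟨[], [(0, 0)], [(0, 0)], [1], [(2, 0, [6]), (3, 0, [6])]⟩,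
    ⟨[(0, 1)], [(0, 0), (1, 0)], [], [2], [(2, 0, [6])]⟩,
    ⟨[(0, 1), (1, 2)], [(1, 0), (1, 3), (1, 6), (2, 0), (2, 3), (2, 6)], [(3, 6)], [2],
      [(5, 6, [0]), (6, 3, [])]⟩,
    ⟨[(0, 1), (1, 2), (1, 3), (2, 3)], [(1, 0), (1, 3), (3, 0), (3, 3), (3, 6)], [(0, 3),
      (3, 3)], [5], [(3, 0, [6]), (6, 3, []), (8, 3, [])]⟩,
    ⟨[(1, 4), (3, 4)], [(4, 0), (4, 3)], [], [4, 5], [(8, 3, [])]⟩]
  Ta := [((2, 1), 0, 4), ((2, 4), 0, 2), ((3, 0), 0, 1), ((3, 8), 0, 3), ((6, 5), 3, 6), ((6, 7),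
    3, 5), ((8, 1), 3, 4), ((8, 3), 3, 0)]
  Tb := [((0, 1, 3), 1, 4, 0), ((1, 0, 2), 4, 1, 0), ((1, 0, 7), 4, 1, 5), ((1, 0, 8), 4, 1, 3),
    ((1, 2, 7), 4, 0, 5), ((1, 2, 8), 4, 0, 3), ((1, 7, 8), 4, 5, 3), ((2, 1, 4), 0, 4, 2),
    ((3, 0, 8), 0, 1, 3), ((4, 2, 5), 2, 0, 6), ((5, 4, 6), 6, 2, 3), ((6, 5, 7), 3, 6, 5),
    ((7, 1, 6), 5, 4, 3), ((8, 1, 3), 3, 4, 0)]
  Tc := []
  Td := [((0, 6), (2, 1), 4), ((0, 6), (2, 4), 2), ((0, 6), (3, 0), 1), ((0, 6), (3, 8), 3), ((6,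
    0), (5, 4), 2), ((6, 0), (5, 6), 3)]
  G := [[0, 0, 0x12c29ab825e242a67429543e48c, 0x1ace184612e148c, 0x89ce184621e128c], [0, 0,
    0xba521f87468141e2112e468c, 0x14182a1c4143e148c, 0x812e184143e128c], [0,
    0x14ce14821c1221c46, 0, 0x691e1481, 0x31ce1841], [0, 0x831e182142e148c, 0, 0xd17e1841,
    0x1dbe1281]]

noncomputable def n686 : Ent := ⟨e686, noF, [], [], []⟩

def c686 : PLift (Cov.check n686.C.D v686 = true) := ⟨by decide +kernel⟩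

def b686 : PLift (entF (fidx ts) 400 686 n686 = true) := ⟨by decide +kernel⟩

theorem g686 : GoodF (fidx ts) 400 686 := GoodF.ofV v686 n686 c686.down b686.down

/-- 474674:590 -/
noncomputable def e687 : SCfg where
  D := {
    a := 6
    L := 10
    kp := 7
    inn := [(0, 1), (1, 0), (1, 2), (1, 3), (1, 4), (2, 1), (2, 3), (3, 1), (3, 2), (3, 4), (4, 1), (4,
      3), (4, 5), (5, 4)]
    mix := [(0, 0), (0, 1), (0, 2), (1, 0), (1, 2), (1, 3), (2, 2), (2, 4), (3, 4), (3, 5), (3, 6), (4,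
      3), (4, 6), (4, 7), (4, 8), (5, 7), (5, 8), (5, 9)]
    cl := [1, 6, 0, 0, 2, 5, 3, 4, 3, 7]
    chq := [(0, 5), (5, 0)]
    rng := [(0, 1), (0, 3), (1, 0), (1, 2), (2, 1), (2, 4), (3, 0), (3, 8), (4, 2), (4, 5), (5, 4), (5,
      6), (6, 5), (6, 7), (7, 6), (7, 9), (8, 3), (8, 9), (9, 7), (9, 8)]
    lev := [] }
  links := [[1, 6, 7, 8], [6, 0, 8, 2, 3, 4, 9], [3, 1, 8, 10], [4, 1, 2, 10, 11, 12], [9, 1, 3, 12, 13,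
    5, 14], [14, 4, 13, 15]]
  P := {
    a := 6
    N := 16
    nb := [450, 861, 1290, 7190, 29226, 57360, 643, 321, 1159, 16466, 2316, 5128, 10264, 36912, 33328,
      24608]
    tri := [(0, 1, 6), (0, 1, 8), (0, 6, 7), (0, 7, 8), (1, 2, 3), (1, 2, 8), (1, 3, 4), (1, 4, 9), (1,
      6, 9), (2, 3, 10), (2, 8, 10), (3, 4, 12), (3, 10, 11), (3, 11, 12), (4, 5, 13), (4, 5, 14),
      (4, 9, 14), (4, 12, 13), (5, 13, 15), (5, 14, 15)]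
    fin := [0, 1, 1, 1, 4, 4, 0, 7, 1, 1, 10, 11, 4, 13, 4, 15]
    chd := [(1, 11)]
    steps := [(0, 6), (1, 2), (1, 3), (1, 8), (1, 9), (4, 5), (4, 12), (4, 14)] }
  rep := [1, 0, 10, 4, 13, 11, 7, 15]

noncomputable def v687 : Cov.CovD where
  P := 3
  N := 5
  pl := [0, 1, 4, 7, 9]
  lev := [⟨[], [], [], [1, 6], [(2, 0, [5])]⟩,
    ⟨[], [(0, 0)], [(0, 0)], [1], [(2, 0, [5]), (3, 0, [5])]⟩,
    ⟨[(0, 1)], [(0, 0), (1, 0)], [], [2], [(2, 0, [5])]⟩,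
    ⟨[(0, 1), (1, 2)], [(1, 0), (1, 3), (1, 5), (2, 0), (2, 3), (2, 5)], [(3, 5)], [2],
      [(5, 5, [0]), (6, 3, [])]⟩,
    ⟨[(0, 1), (1, 2), (1, 3), (2, 3)], [(1, 0), (1, 3), (3, 0), (3, 3), (3, 5)], [(0, 3),
      (3, 3)], [4], [(3, 0, [5]), (6, 3, []), (8, 3, [])]⟩,
    ⟨[(1, 4), (3, 4)], [(4, 0), (4, 3)], [], [4, 7], [(8, 3, [])]⟩]
  Ta := [((2, 1), 0, 6), ((2, 4), 0, 2), ((3, 0), 0, 1), ((3, 8), 0, 3), ((6, 5), 3, 5), ((6, 7),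
    3, 4), ((8, 3), 3, 0), ((8, 9), 3, 7)]
  Tb := [((0, 1, 3), 1, 6, 0), ((1, 0, 2), 6, 1, 0), ((2, 1, 4), 0, 6, 2), ((3, 0, 8), 0, 1, 3),
    ((4, 2, 5), 2, 0, 5), ((5, 4, 6), 5, 2, 3), ((6, 5, 7), 3, 5, 4), ((7, 6, 9), 4, 3, 7),
    ((8, 3, 9), 3, 0, 7), ((9, 7, 8), 7, 4, 3)]
  Tc := []
  Td := [((0, 5), (2, 1), 6), ((0, 5), (2, 4), 2), ((0, 5), (3, 0), 1), ((0, 5), (3, 8), 3), ((5,
    0), (5, 4), 2), ((5, 0), (5, 6), 3)]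
  G := [[0, 0, 0x769dc3a28eb46424e728ebdc3e48c, 0x9a3e184a41493a18cc, 0x5c6126818c6ace128c], [0,
    0, 0xf1a721fc7461818a4c1fc7f4611ab2184e8c, 0x536149814c536189818cc,
    0x4412913e18c536189812cc], [0, 0x95ce1826a3e148a, 0, 0x65ce1481, 0x6ace1841], [0,
    0x93a1454146321895c14ac, 0, 0x541493a18c1, 0x536189812c1]]

noncomputable def n687 : Ent := ⟨e687, noF, [], [], [(7, 15, [360035742630636841211993100915356868655746945586763691010482177, 0])]⟩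

def c687 : PLift (Cov.check n687.C.D v687 = true) := ⟨by decide +kernel⟩

def b687 : PLift (entF (fidx ts) 400 687 n687 = true) := ⟨by decide +kernel⟩

theorem g687 : GoodF (fidx ts) 400 687 := GoodF.ofV v687 n687 c687.down b687.down

/-- 474665:592/2 -/
noncomputable def e688 : SCfg where
  D := {
    a := 6
    L := 9
    kp := 6
    inn := [(0, 1), (1, 0), (1, 2), (1, 3), (2, 1), (2, 3), (3, 1), (3, 2), (3, 4), (4, 3), (4, 5), (5,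
      4)]
    mix := [(0, 0), (0, 1), (0, 2), (1, 0), (1, 2), (1, 3), (1, 4), (2, 2), (2, 5), (3, 3), (3, 5), (3,
      6), (4, 3), (4, 6), (4, 7), (4, 8), (5, 0), (5, 1), (5, 6), (5, 7)]
    cl := [1, 2, 0, 0, 6, 4, 3, 3, 5]
    chq := [(0, 1), (1, 0), (4, 5), (5, 4)]
    rng := [(0, 1), (0, 4), (0, 7), (1, 0), (1, 2), (1, 6), (2, 1), (2, 5), (3, 4), (3, 8), (4, 0), (4,
      3), (5, 2), (5, 6), (6, 1), (6, 5), (7, 0), (7, 8), (8, 3), (8, 7)]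
    lev := [] }
  links := [[1, 6, 7, 8], [6, 0, 8, 2, 3, 9, 10], [3, 1, 8, 11], [9, 1, 2, 11, 12, 4], [9, 3, 12, 5, 13,
    14], [13, 4, 12, 7, 6]]
  P := {
    a := 6
    N := 15
    nb := [450, 1869, 2314, 6678, 29224, 12496, 9379, 4449, 2183, 17434, 578, 4364, 2232, 16496, 8720]
    tri := [(0, 1, 6), (0, 1, 8), (0, 6, 7), (0, 7, 8), (1, 2, 3), (1, 2, 8), (1, 3, 9), (1, 6, 10),
      (1, 9, 10), (2, 3, 11), (2, 8, 11), (3, 4, 9), (3, 4, 12), (3, 11, 12), (4, 5, 12), (4, 5,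
      13), (4, 9, 14), (4, 13, 14), (5, 6, 7), (5, 6, 13), (5, 7, 12)]
    fin := [0, 1, 1, 3, 3, 5, 0, 7, 1, 1, 10, 3, 5, 5, 14]
    chd := [(0, 1), (3, 14)]
    steps := [(0, 6), (1, 2), (1, 8), (1, 9), (3, 4), (3, 11), (5, 12), (5, 13)] }
  rep := [1, 0, 7, 5, 3, 14, 10]

noncomputable def v688 : Cov.CovD where
  P := 3
  N := 4
  pl := [1, 4]
  lev := [⟨[], [], [(0, 1)], [2], [(0, 1, [0]), (2, 0, [1])]⟩,
    ⟨[], [(0, 0), (0, 1)], [(0, 0), (0, 1)], [6], [(0, 1, [0]), (2, 0, [1]), (3, 0, [1])]⟩,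
    ⟨[(0, 1)], [(0, 0), (1, 0), (1, 1), (1, 4)], [(0, 4)], [], [(2, 0, [1]), (5, 4, [5])]⟩,
    ⟨[(0, 1), (1, 2)], [(1, 0), (1, 1), (1, 3), (1, 4), (2, 0), (2, 3), (2, 4)], [(0, 3),
      (0, 4), (3, 4)], [], [(3, 0, [1]), (5, 4, [5]), (6, 3, [])]⟩,
    ⟨[(1, 3), (2, 3)], [(1, 0), (3, 0), (3, 3), (3, 4), (3, 5)], [(0, 3), (0, 5), (3, 3),
      (3, 5)], [], [(3, 0, [1]), (6, 3, []), (7, 3, []), (8, 5, [4])]⟩,
    ⟨[(3, 4)], [(0, 1), (1, 1), (3, 3), (4, 0), (4, 1), (4, 3), (4, 5)], [(1, 3), (3, 3)],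
      [2], [(0, 1, [0]), (6, 3, []), (7, 3, [])]⟩]
  Ta := [((2, 1), 0, 2), ((2, 5), 0, 4), ((3, 4), 0, 6), ((3, 8), 0, 5), ((6, 1), 3, 2), ((6, 5),
    3, 4), ((7, 0), 3, 1), ((7, 8), 3, 5)]
  Tb := [((0, 1, 4), 1, 2, 6), ((0, 1, 7), 1, 2, 3), ((0, 4, 7), 1, 6, 3), ((1, 0, 2), 2, 1, 0),
    ((1, 0, 6), 2, 1, 3), ((1, 2, 6), 2, 0, 3), ((2, 1, 5), 0, 2, 4), ((3, 4, 8), 0, 6, 5),
    ((4, 0, 3), 6, 1, 0), ((5, 2, 6), 4, 0, 3), ((6, 1, 5), 3, 2, 4), ((7, 0, 8), 3, 1, 5),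
    ((8, 3, 7), 5, 0, 3)]
  Tc := []
  Td := [((0, 1), (2, 1), 2), ((0, 1), (2, 5), 4), ((0, 1), (3, 4), 6), ((0, 1), (3, 8), 5), ((1,
    0), (0, 1), 2), ((1, 0), (0, 4), 6), ((1, 0), (0, 7), 3), ((4, 5), (5, 2), 0), ((4, 5),
    (5, 6), 3), ((5, 4), (8, 3), 0), ((5, 4), (8, 7), 3)]
  G := [[0, 0x121818e16814111ce1a4, 0xc21c126c21c12ac4, 0x42125985268242c8c92ac8,
    0x9212598526821291289c66c8], [0, 0xc181a1c1416164, 0x8ca14416412c281acc8,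
    0x52494c2a82129c492ac4, 0x89a41484147692946884ac8], [0, 0x121148e168141c1e1c8, 0,
    0x12414124214ce18281ca1cc, 0x1299c61821281ce1c828489], [0, 0x41688a181a146168, 0,
    0xc284c615281ca1c4, 0x89a94619481ac1c8]]

noncomputable def n688 : Ent := ⟨e688, noF, [], [], []⟩

def c688 : PLift (Cov.check n688.C.D v688 = true) := ⟨by decide +kernel⟩

def b688 : PLift (entF (fidx ts) 400 688 n688 = true) := ⟨by decide +kernel⟩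

theorem g688 : GoodF (fidx ts) 400 688 := GoodF.ofV v688 n688 c688.down b688.down

/-- 474665:592/3 -/
noncomputable def e689 : SCfg where
  D := {
    a := 6
    L := 9
    kp := 6
    inn := [(0, 1), (1, 0), (1, 2), (1, 3), (2, 1), (2, 3), (3, 1), (3, 2), (3, 4), (4, 3), (4, 5), (5,
      4)]
    mix := [(0, 0), (0, 1), (0, 2), (1, 0), (1, 2), (1, 3), (1, 4), (2, 2), (2, 5), (3, 3), (3, 5), (3,
      6), (4, 1), (4, 3), (4, 6), (4, 7), (5, 0), (5, 1), (5, 6), (5, 8)]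
    cl := [2, 1, 0, 0, 5, 3, 1, 4, 6]
    chq := [(0, 2), (2, 0), (3, 4), (4, 3)]
    rng := [(0, 1), (0, 4), (0, 8), (1, 0), (1, 2), (1, 7), (2, 1), (2, 5), (3, 4), (3, 7), (4, 0), (4,
      3), (5, 2), (5, 6), (6, 5), (6, 8), (7, 1), (7, 3), (8, 0), (8, 6)]
    lev := [] }
  links := [[1, 6, 7, 8], [6, 0, 8, 2, 3, 9, 10], [3, 1, 8, 11], [9, 1, 2, 11, 12, 4], [9, 3, 12, 5, 7,
    13], [7, 4, 12, 14, 6]]
  P := {
    a := 6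
    N := 15
    nb := [450, 1869, 2314, 6678, 12968, 20688, 17571, 8561, 2183, 9242, 578, 4364, 18488, 656, 4192]
    tri := [(0, 1, 6), (0, 1, 8), (0, 6, 7), (0, 7, 8), (1, 2, 3), (1, 2, 8), (1, 3, 9), (1, 6, 10),
      (1, 9, 10), (2, 3, 11), (2, 8, 11), (3, 4, 9), (3, 4, 12), (3, 11, 12), (4, 5, 7), (4, 5,
      12), (4, 7, 13), (4, 9, 13), (5, 6, 7), (5, 6, 14), (5, 12, 14)]
    fin := [0, 1, 1, 3, 3, 5, 0, 5, 1, 1, 10, 3, 5, 13, 14]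
    chd := [(0, 1), (3, 13)]
    steps := [(0, 6), (1, 2), (1, 8), (1, 9), (3, 4), (3, 11), (5, 7), (5, 12)] }
  rep := [1, 5, 0, 3, 13, 10, 14]

noncomputable def v689 : Cov.CovD where
  P := 3
  N := 4
  pl := [4, 8]
  lev := [⟨[], [], [(0, 1), (0, 2), (1, 2)], [], [(0, 2, [0]), (1, 1, []), (2, 0, [2])]⟩,
    ⟨[], [(0, 0), (0, 1), (0, 2)], [(0, 0), (0, 2)], [5], [(0, 2, [0]), (2, 0, [2]), (3, 0,
      [2])]⟩,
    ⟨[(0, 1)], [(0, 0), (1, 0), (1, 2), (1, 3)], [(0, 3)], [], [(2, 0, [2]), (5, 3, [4])]⟩,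
    ⟨[(0, 1), (1, 2)], [(1, 0), (1, 1), (1, 2), (1, 3), (2, 0), (2, 1), (2, 3)], [(0, 1),
      (0, 3), (1, 3)], [], [(3, 0, [2]), (5, 3, [4]), (6, 1, [])]⟩,
    ⟨[(1, 3), (2, 3)], [(0, 1), (1, 0), (3, 0), (3, 1), (3, 3), (3, 4)], [(0, 1), (0, 4),
      (1, 1), (1, 4)], [], [(1, 1, []), (3, 0, [2]), (6, 1, []), (7, 4, [3])]⟩,
    ⟨[(3, 4)], [(0, 1), (0, 2), (1, 2), (3, 1), (4, 0), (4, 1), (4, 2), (4, 4)], [(1, 1),
      (1, 2)], [6], [(0, 2, [0]), (1, 1, []), (6, 1, [])]⟩]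
  Ta := [((1, 0), 1, 2), ((1, 2), 1, 0), ((1, 7), 1, 4), ((2, 1), 0, 1), ((2, 5), 0, 3), ((3, 4),
    0, 5), ((3, 7), 0, 4), ((6, 5), 1, 3), ((6, 8), 1, 6)]
  Tb := [((0, 1, 4), 2, 1, 5), ((0, 1, 8), 2, 1, 6), ((0, 4, 8), 2, 5, 6), ((1, 0, 2), 1, 2, 0),
    ((1, 0, 7), 1, 2, 4), ((1, 2, 7), 1, 0, 4), ((2, 1, 5), 0, 1, 3), ((3, 4, 7), 0, 5, 4),
    ((4, 0, 3), 5, 2, 0), ((5, 2, 6), 3, 0, 1), ((6, 5, 8), 1, 3, 6), ((7, 1, 3), 4, 1, 0),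
    ((8, 0, 6), 6, 2, 1)]
  Tc := []
  Td := [((0, 2), (2, 1), 1), ((0, 2), (2, 5), 3), ((0, 2), (3, 4), 5), ((0, 2), (3, 7), 4), ((2,
    0), (0, 1), 1), ((2, 0), (0, 4), 5), ((2, 0), (0, 8), 6), ((3, 4), (5, 2), 0), ((3, 4),
    (5, 6), 1), ((4, 3), (7, 1), 1), ((4, 3), (7, 3), 0)]
  G := [[0, 0xc244cc26c28c8c2ac4, 0x11c2111c12a4, 0x541c12cc19892c4, 0x118d94529498c2a8], [0, 0,
    0x14c1c11411849a4, 0, 0x18581894c2149451894c8a], [0, 0, 0x11c2111c12a4, 0x59c21c9c21c4,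
    0x99c219498c1a8], [0, 0, 0x18114851418c1c2, 0, 0x9498c129498cc18a]]

noncomputable def n689 : Ent := ⟨e689, noF, [], [], []⟩

def c689 : PLift (Cov.check n689.C.D v689 = true) := ⟨by decide +kernel⟩

def b689 : PLift (entF (fidx ts) 400 689 n689 = true) := ⟨by decide +kernel⟩

theorem g689 : GoodF (fidx ts) 400 689 := GoodF.ofV v689 n689 c689.down b689.down

/-- 474665:592/1 -/
noncomputable def e690 : SCfg where
  D := {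
    a := 6
    L := 10
    kp := 7
    inn := [(0, 1), (1, 0), (1, 2), (1, 3), (2, 1), (2, 3), (3, 1), (3, 2), (3, 4), (4, 3), (4, 5), (5,
      4)]
    mix := [(0, 0), (0, 1), (0, 2), (1, 0), (1, 2), (1, 3), (1, 4), (2, 2), (2, 5), (3, 3), (3, 5), (3,
      6), (4, 3), (4, 6), (4, 7), (4, 8), (5, 0), (5, 6), (5, 7), (5, 9)]
    cl := [1, 5, 0, 0, 6, 2, 3, 3, 4, 7]
    chq := [(0, 1), (1, 0), (2, 4), (4, 2)]
    rng := [(0, 1), (0, 4), (0, 7), (0, 9), (1, 0), (1, 2), (2, 1), (2, 5), (3, 4), (3, 8), (4, 0), (4,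
      3), (5, 2), (5, 6), (6, 5), (6, 9), (7, 0), (7, 8), (8, 3), (8, 7), (9, 0), (9, 6)]
    lev := [] }
  links := [[1, 6, 7, 8], [6, 0, 8, 2, 3, 9, 10], [3, 1, 8, 11], [9, 1, 2, 11, 12, 4], [9, 3, 12, 5, 13,
    14], [13, 4, 12, 15, 6]]
  P := {
    a := 6
    N := 16
    nb := [450, 1869, 2314, 6678, 29224, 45136, 42147, 321, 2183, 17434, 578, 4364, 34872, 16496,
      8720, 4192]
    tri := [(0, 1, 6), (0, 1, 8), (0, 6, 7), (0, 7, 8), (1, 2, 3), (1, 2, 8), (1, 3, 9), (1, 6, 10),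
      (1, 9, 10), (2, 3, 11), (2, 8, 11), (3, 4, 9), (3, 4, 12), (3, 11, 12), (4, 5, 12), (4, 5,
      13), (4, 9, 14), (4, 13, 14), (5, 6, 13), (5, 6, 15), (5, 12, 15)]
    fin := [0, 1, 1, 3, 3, 5, 0, 7, 1, 1, 10, 3, 5, 5, 14, 15]
    chd := [(0, 1), (3, 14)]
    steps := [(0, 6), (1, 2), (1, 8), (1, 9), (3, 4), (3, 11), (5, 12), (5, 13)] }
  rep := [1, 0, 3, 5, 14, 7, 10, 15]

noncomputable def v690 : Cov.CovD where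
  P := 3
  N := 5
  pl := [1, 4, 9]
  lev := [⟨[], [], [(0, 1)], [5], [(0, 1, [0]), (2, 0, [1])]⟩,
    ⟨[], [(0, 0), (0, 1)], [(0, 0), (0, 1)], [6], [(0, 1, [0]), (2, 0, [1]), (3, 0, [1])]⟩,
    ⟨[(0, 1)], [(0, 0), (1, 0), (1, 1), (1, 2)], [(0, 2)], [], [(2, 0, [1]), (5, 2, [4])]⟩,
    ⟨[(0, 1), (1, 2)], [(1, 0), (1, 1), (1, 2), (1, 3), (2, 0), (2, 2), (2, 3)], [(0, 2),
      (0, 3), (2, 3)], [], [(3, 0, [1]), (5, 2, [4]), (6, 3, [])]⟩,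
    ⟨[(1, 3), (2, 3)], [(1, 0), (3, 0), (3, 2), (3, 3), (3, 4)], [(0, 3), (0, 4), (3, 3),
      (3, 4)], [], [(3, 0, [1]), (6, 3, []), (7, 3, []), (8, 4, [2])]⟩,
    ⟨[(3, 4)], [(0, 1), (1, 1), (3, 3), (4, 0), (4, 1), (4, 3), (4, 4)], [(1, 3), (3, 3)],
      [7], [(0, 1, [0]), (6, 3, []), (7, 3, [])]⟩]
  Ta := [((2, 1), 0, 5), ((2, 5), 0, 2), ((3, 4), 0, 6), ((3, 8), 0, 4), ((6, 5), 3, 2), ((6, 9),
    3, 7), ((7, 0), 3, 1), ((7, 8), 3, 4)]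
  Tb := [((0, 1, 4), 1, 5, 6), ((0, 1, 7), 1, 5, 3), ((0, 1, 9), 1, 5, 7), ((0, 4, 7), 1, 6, 3),
    ((0, 4, 9), 1, 6, 7), ((0, 7, 9), 1, 3, 7), ((1, 0, 2), 5, 1, 0), ((2, 1, 5), 0, 5, 2),
    ((3, 4, 8), 0, 6, 4), ((4, 0, 3), 6, 1, 0), ((5, 2, 6), 2, 0, 3), ((6, 5, 9), 3, 2, 7),
    ((7, 0, 8), 3, 1, 4), ((8, 3, 7), 4, 0, 3), ((9, 0, 6), 7, 1, 3)]
  Tc := []
  Td := [((0, 1), (2, 1), 5), ((0, 1), (2, 5), 2), ((0, 1), (3, 4), 6), ((0, 1), (3, 8), 4), ((1,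
    0), (0, 1), 5), ((1, 0), (0, 4), 6), ((1, 0), (0, 7), 3), ((1, 0), (0, 9), 7), ((2, 4),
    (5, 2), 0), ((2, 4), (5, 6), 3), ((4, 2), (8, 3), 0), ((4, 2), (8, 7), 3)]
  G := [[0, 0x111e182111e184111e148e, 0x12211cd26111cf24c811114fa4111cf28cc,
    0xc29254c25298cc25294c25298cc, 0x5dcd1232125dcda2c95de2895de28cc], [0,
    0x128141214212418e, 0x111cf24111cf82c111cf42111cf28cc, 0xc292549252c8cd248c25298cc,
    0x42c494724d4d82cd4628d4628cc], [0, 0x111e144c112982111e148e, 0, 0x9252c49252c8c1,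
    0x95de2895de28c1], [0, 0x121841214812412e, 0, 0xd248d284c1, 0xd4628d4628c1]]

noncomputable def n690 : Ent := ⟨e690, noF, [], [], [(7, 15, [360035742630636841211993100915356868655746945586763691010490369, 0]), (7, 13, [385753028440516072301428330182238677962518295842732840409829377, 0])]⟩

def c690 : PLift (Cov.check n690.C.D v690 = true) := ⟨by decide +kernel⟩

def b690 : PLift (entF (fidx ts) 400 690 n690 = true) := ⟨by decide +kernel⟩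

theorem g690 : GoodF (fidx ts) 400 690 := GoodF.ofV v690 n690 c690.down b690.down

/-- 474665:592/4 -/
noncomputable def e691 : SCfg where
  D := {
    a := 6
    L := 10
    kp := 7
    inn := [(0, 1), (1, 0), (1, 2), (1, 3), (2, 1), (2, 3), (3, 1), (3, 2), (3, 4), (4, 3), (4, 5), (5,
      4)]
    mix := [(0, 0), (0, 1), (0, 2), (1, 0), (1, 2), (1, 3), (1, 4), (2, 2), (2, 5), (3, 3), (3, 5), (3,
      6), (4, 3), (4, 6), (4, 7), (4, 8), (5, 1), (5, 6), (5, 7), (5, 9)]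
    cl := [1, 2, 0, 0, 6, 4, 3, 3, 5, 7]
    chq := [(0, 1), (1, 0), (4, 5), (5, 4)]
    rng := [(0, 1), (0, 4), (1, 0), (1, 2), (1, 6), (1, 9), (2, 1), (2, 5), (3, 4), (3, 8), (4, 0), (4,
      3), (5, 2), (5, 6), (6, 1), (6, 5), (7, 8), (7, 9), (8, 3), (8, 7), (9, 1), (9, 7)]
    lev := [] }
  links := [[1, 6, 7, 8], [6, 0, 8, 2, 3, 9, 10], [3, 1, 8, 11], [9, 1, 2, 11, 12, 4], [9, 3, 12, 5, 13,
    14], [13, 4, 12, 7, 15]]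
  P := {
    a := 6
    N := 16
    nb := [450, 1869, 2314, 6678, 29224, 45200, 1155, 37217, 2183, 17434, 578, 4364, 2232, 49200,
      8720, 8352]
    tri := [(0, 1, 6), (0, 1, 8), (0, 6, 7), (0, 7, 8), (1, 2, 3), (1, 2, 8), (1, 3, 9), (1, 6, 10),
      (1, 9, 10), (2, 3, 11), (2, 8, 11), (3, 4, 9), (3, 4, 12), (3, 11, 12), (4, 5, 12), (4, 5,
      13), (4, 9, 14), (4, 13, 14), (5, 7, 12), (5, 7, 15), (5, 13, 15)]
    fin := [0, 1, 1, 3, 3, 5, 0, 7, 1, 1, 10, 3, 5, 5, 14, 15]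
    chd := [(0, 1), (3, 14)]
    steps := [(0, 6), (1, 2), (1, 8), (1, 9), (3, 4), (3, 11), (5, 12), (5, 13)] }
  rep := [1, 0, 7, 5, 3, 14, 10, 15]

noncomputable def v691 : Cov.CovD where
  P := 3
  N := 5
  pl := [1, 4, 9]
  lev := [⟨[], [], [(0, 1)], [2], [(0, 1, [0]), (2, 0, [1])]⟩,
    ⟨[], [(0, 0), (0, 1)], [(0, 0), (0, 1)], [6], [(0, 1, [0]), (2, 0, [1]), (3, 0, [1])]⟩,
    ⟨[(0, 1)], [(0, 0), (1, 0), (1, 1), (1, 4)], [(0, 4)], [], [(2, 0, [1]), (5, 4, [5])]⟩,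
    ⟨[(0, 1), (1, 2)], [(1, 0), (1, 1), (1, 3), (1, 4), (2, 0), (2, 3), (2, 4)], [(0, 3),
      (0, 4), (3, 4)], [], [(3, 0, [1]), (5, 4, [5]), (6, 3, [])]⟩,
    ⟨[(1, 3), (2, 3)], [(1, 0), (3, 0), (3, 3), (3, 4), (3, 5)], [(0, 3), (0, 5), (3, 3),
      (3, 5)], [], [(3, 0, [1]), (6, 3, []), (7, 3, []), (8, 5, [4])]⟩,
    ⟨[(3, 4)], [(3, 3), (4, 0), (4, 3), (4, 5)], [(3, 3)], [2, 7], [(6, 3, []), (7, 3,
      [])]⟩]
  Ta := [((2, 1), 0, 2), ((2, 5), 0, 4), ((3, 4), 0, 6), ((3, 8), 0, 5), ((6, 1), 3, 2), ((6, 5),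
    3, 4), ((7, 8), 3, 5), ((7, 9), 3, 7)]
  Tb := [((0, 1, 4), 1, 2, 6), ((1, 0, 2), 2, 1, 0), ((1, 0, 6), 2, 1, 3), ((1, 0, 9), 2, 1, 7),
    ((1, 2, 6), 2, 0, 3), ((1, 2, 9), 2, 0, 7), ((1, 6, 9), 2, 3, 7), ((2, 1, 5), 0, 2, 4),
    ((3, 4, 8), 0, 6, 5), ((4, 0, 3), 6, 1, 0), ((5, 2, 6), 4, 0, 3), ((6, 1, 5), 3, 2, 4),
    ((7, 8, 9), 3, 5, 7), ((8, 3, 7), 5, 0, 3), ((9, 1, 7), 7, 2, 3)]
  Tc := []
  Td := [((0, 1), (2, 1), 2), ((0, 1), (2, 5), 4), ((0, 1), (3, 4), 6), ((0, 1), (3, 8), 5), ((1,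
    0), (0, 1), 2), ((1, 0), (0, 4), 6), ((4, 5), (5, 2), 0), ((4, 5), (5, 6), 3), ((5, 4),
    (8, 3), 0), ((5, 4), (8, 7), 3)]
  G := [[0, 0x121c1cca95dee9c965c395ce168, 0xecee1a1e436a161cc161c8bac8,
    0xd2d2592d5ca6c29252bd14d123ac4, 0xbaa1a3936794a494761a8713a931ababc6ac8], [0,
    0xd2d5ca1d4ddac168, 0xeea1e416c16669e12cc8, 0xd28d45d8a64d24dd8d2a8c,
    0x9bab46a49436b28b4b8c6c8], [0, 0x9811c3d2d46e39c355a95ce168, 0,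
    0x52958e619252954ee1c92818c, 0x993e33c6193693a33ce1c328948689], [0, 0x5d6d8a1d29dc6164,
    0, 0xd29dc61d2d5ca1c8, 0xb29bc61b2bbca1c8]]

noncomputable def n691 : Ent := ⟨e691, noF, [], [], [(6, 15, [360035742630636841211993100915356868655746945586763691010490369, 0])]⟩

def c691 : PLift (Cov.check n691.C.D v691 = true) := ⟨by decide +kernel⟩

def b691 : PLift (entF (fidx ts) 400 691 n691 = true) := ⟨by decide +kernel⟩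

theorem g691 : GoodF (fidx ts) 400 691 := GoodF.ofV v691 n691 c691.down b691.down

/-- 474665:592/5 -/
noncomputable def e692 : SCfg where
  D := {
    a := 6
    L := 10
    kp := 7
    inn := [(0, 1), (1, 0), (1, 2), (1, 3), (2, 1), (2, 3), (3, 1), (3, 2), (3, 4), (4, 3), (4, 5), (5,
      4)]
    mix := [(0, 0), (0, 1), (0, 2), (1, 0), (1, 2), (1, 3), (1, 4), (2, 2), (2, 5), (3, 3), (3, 5), (3,
      6), (4, 3), (4, 6), (4, 7), (4, 8), (5, 1), (5, 6), (5, 7), (5, 9)]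
    cl := [1, 2, 0, 0, 6, 4, 3, 3, 5, 7]
    chq := [(0, 1), (1, 0), (4, 5), (5, 4)]
    rng := [(0, 1), (0, 4), (1, 0), (1, 2), (1, 7), (1, 9), (2, 1), (2, 5), (3, 4), (3, 8), (4, 0), (4,
      3), (5, 2), (5, 6), (6, 5), (6, 9), (7, 1), (7, 8), (8, 3), (8, 7), (9, 1), (9, 6)]
    lev := [] }
  links := [[1, 6, 7, 8], [6, 0, 8, 2, 3, 9, 10], [3, 1, 8, 11], [9, 1, 2, 11, 12, 4], [9, 3, 12, 5, 13,
    14], [13, 4, 12, 15, 7]]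
  P := {
    a := 6
    N := 16
    nb := [450, 1869, 2314, 6678, 29224, 45200, 1155, 41313, 2183, 17434, 578, 4364, 34872, 16560,
      8720, 4256]
    tri := [(0, 1, 6), (0, 1, 8), (0, 6, 7), (0, 7, 8), (1, 2, 3), (1, 2, 8), (1, 3, 9), (1, 6, 10),
      (1, 9, 10), (2, 3, 11), (2, 8, 11), (3, 4, 9), (3, 4, 12), (3, 11, 12), (4, 5, 12), (4, 5,
      13), (4, 9, 14), (4, 13, 14), (5, 7, 13), (5, 7, 15), (5, 12, 15)]
    fin := [0, 1, 1, 3, 3, 5, 0, 7, 1, 1, 10, 3, 5, 5, 14, 15]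
    chd := [(0, 1), (3, 14)]
    steps := [(0, 6), (1, 2), (1, 8), (1, 9), (3, 4), (3, 11), (5, 12), (5, 13)] }
  rep := [1, 0, 7, 5, 3, 14, 10, 15]

noncomputable def v692 : Cov.CovD where
  P := 3
  N := 5
  pl := [1, 4, 9]
  lev := [⟨[], [], [(0, 1)], [2], [(0, 1, [0]), (2, 0, [1])]⟩,
    ⟨[], [(0, 0), (0, 1)], [(0, 0), (0, 1)], [6], [(0, 1, [0]), (2, 0, [1]), (3, 0, [1])]⟩,
    ⟨[(0, 1)], [(0, 0), (1, 0), (1, 1), (1, 4)], [(0, 4)], [], [(2, 0, [1]), (5, 4, [5])]⟩,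
    ⟨[(0, 1), (1, 2)], [(1, 0), (1, 1), (1, 3), (1, 4), (2, 0), (2, 3), (2, 4)], [(0, 3),
      (0, 4), (3, 4)], [], [(3, 0, [1]), (5, 4, [5]), (6, 3, [])]⟩,
    ⟨[(1, 3), (2, 3)], [(1, 0), (3, 0), (3, 3), (3, 4), (3, 5)], [(0, 3), (0, 5), (3, 3),
      (3, 5)], [], [(3, 0, [1]), (6, 3, []), (7, 3, []), (8, 5, [4])]⟩,
    ⟨[(3, 4)], [(3, 3), (4, 0), (4, 3), (4, 5)], [(3, 3)], [2, 7], [(6, 3, []), (7, 3,
      [])]⟩]
  Ta := [((2, 1), 0, 2), ((2, 5), 0, 4), ((3, 4), 0, 6), ((3, 8), 0, 5), ((6, 5), 3, 4), ((6, 9),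
    3, 7), ((7, 1), 3, 2), ((7, 8), 3, 5)]
  Tb := [((0, 1, 4), 1, 2, 6), ((1, 0, 2), 2, 1, 0), ((1, 0, 7), 2, 1, 3), ((1, 0, 9), 2, 1, 7),
    ((1, 2, 7), 2, 0, 3), ((1, 2, 9), 2, 0, 7), ((1, 7, 9), 2, 3, 7), ((2, 1, 5), 0, 2, 4),
    ((3, 4, 8), 0, 6, 5), ((4, 0, 3), 6, 1, 0), ((5, 2, 6), 4, 0, 3), ((6, 5, 9), 3, 4, 7),
    ((7, 1, 8), 3, 2, 5), ((8, 3, 7), 5, 0, 3), ((9, 1, 6), 7, 2, 3)]
  Tc := []
  Td := [((0, 1), (2, 1), 2), ((0, 1), (2, 5), 4), ((0, 1), (3, 4), 6), ((0, 1), (3, 8), 5), ((1,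
    0), (0, 1), 2), ((1, 0), (0, 4), 6), ((4, 5), (5, 2), 0), ((4, 5), (5, 6), 3), ((5, 4),
    (8, 3), 0), ((5, 4), (8, 7), 3)]
  G := [[0, 0x921c2959e65925295ce1a4, 0xe1a25e1e1a6c162981e66e9ac4,
    0xc2529271d8d1236c2d495ab95de2cc8, 0x1b8b14534a49476b49baa4d93a346ac8], [0,
    0xd29dc61dd6d8c1a8, 0xe1c46c1216aee61e81ac4, 0xd462d2d8ac4d249cad46a8c,
    0xb2a2531ada49476b42b2b8acc8], [0, 0x9252954ee1925295ce168, 0,
    0x52958e619252954ee1c92818c, 0x993e34619493a34e1c948289], [0, 0x9dad461dd6d8c1a8, 0,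
    0xd29dc61d2d5ca1c4, 0xb29bc61b2bbca1c8]]

noncomputable def n692 : Ent := ⟨e692, noF, [], [], []⟩

def c692 : PLift (Cov.check n692.C.D v692 = true) := ⟨by decide +kernel⟩

def b692 : PLift (entF (fidx ts) 400 692 n692 = true) := ⟨by decide +kernel⟩

theorem g692 : GoodF (fidx ts) 400 692 := GoodF.ofV v692 n692 c692.down b692.down

/-- 474665:592/6 -/
noncomputable def e693 : SCfg where
  D := {
    a := 6
    L := 10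
    kp := 7
    inn := [(0, 1), (1, 0), (1, 2), (1, 3), (2, 1), (2, 3), (3, 1), (3, 2), (3, 4), (4, 3), (4, 5), (5,
      4)]
    mix := [(0, 0), (0, 1), (0, 2), (1, 0), (1, 2), (1, 3), (1, 4), (2, 2), (2, 5), (3, 3), (3, 5), (3,
      6), (4, 1), (4, 3), (4, 6), (4, 7), (5, 1), (5, 6), (5, 8), (5, 9)]
    cl := [2, 1, 0, 0, 5, 3, 1, 4, 6, 7]
    chq := [(0, 2), (2, 0), (3, 4), (4, 3)]
    rng := [(0, 1), (0, 4), (1, 0), (1, 2), (1, 7), (1, 9), (2, 1), (2, 5), (3, 4), (3, 7), (4, 0), (4,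
      3), (5, 2), (5, 6), (6, 5), (6, 8), (7, 1), (7, 3), (8, 6), (8, 9), (9, 1), (9, 8)]
    lev := [] }
  links := [[1, 6, 7, 8], [6, 0, 8, 2, 3, 9, 10], [3, 1, 8, 11], [9, 1, 2, 11, 12, 4], [9, 3, 12, 5, 7,
    13], [7, 4, 12, 14, 15]]
  P := {
    a := 6
    N := 16
    nb := [450, 1869, 2314, 6678, 12968, 53392, 1155, 41329, 2183, 9242, 578, 4364, 18488, 656, 36896,
      16544]
    tri := [(0, 1, 6), (0, 1, 8), (0, 6, 7), (0, 7, 8), (1, 2, 3), (1, 2, 8), (1, 3, 9), (1, 6, 10),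
      (1, 9, 10), (2, 3, 11), (2, 8, 11), (3, 4, 9), (3, 4, 12), (3, 11, 12), (4, 5, 7), (4, 5,
      12), (4, 7, 13), (4, 9, 13), (5, 7, 15), (5, 12, 14), (5, 14, 15)]
    fin := [0, 1, 1, 3, 3, 5, 0, 5, 1, 1, 10, 3, 5, 13, 14, 15]
    chd := [(0, 1), (3, 13)]
    steps := [(0, 6), (1, 2), (1, 8), (1, 9), (3, 4), (3, 11), (5, 7), (5, 12)] }
  rep := [1, 5, 0, 3, 13, 10, 14, 15]

noncomputable def v693 : Cov.CovD where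
  P := 3
  N := 5
  pl := [4, 8, 9]
  lev := [⟨[], [], [(0, 1), (0, 2), (1, 2)], [], [(0, 2, [0]), (1, 1, []), (2, 0, [2])]⟩,
    ⟨[], [(0, 0), (0, 1), (0, 2)], [(0, 0), (0, 2)], [5], [(0, 2, [0]), (2, 0, [2]), (3, 0,
      [2])]⟩,
    ⟨[(0, 1)], [(0, 0), (1, 0), (1, 2), (1, 3)], [(0, 3)], [], [(2, 0, [2]), (5, 3, [4])]⟩,
    ⟨[(0, 1), (1, 2)], [(1, 0), (1, 1), (1, 2), (1, 3), (2, 0), (2, 1), (2, 3)], [(0, 1),
      (0, 3), (1, 3)], [], [(3, 0, [2]), (5, 3, [4]), (6, 1, [])]⟩,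
    ⟨[(1, 3), (2, 3)], [(0, 1), (1, 0), (3, 0), (3, 1), (3, 3), (3, 4)], [(0, 1), (0, 4),
      (1, 1), (1, 4)], [], [(1, 1, []), (3, 0, [2]), (6, 1, []), (7, 4, [3])]⟩,
    ⟨[(3, 4)], [(0, 1), (3, 1), (4, 0), (4, 1), (4, 4)], [(1, 1)], [6, 7], [(1, 1, []), (6,
      1, [])]⟩]
  Ta := [((1, 0), 1, 2), ((1, 2), 1, 0), ((1, 7), 1, 4), ((1, 9), 1, 7), ((2, 1), 0, 1), ((2, 5),
    0, 3), ((3, 4), 0, 5), ((3, 7), 0, 4), ((6, 5), 1, 3), ((6, 8), 1, 6)]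
  Tb := [((0, 1, 4), 2, 1, 5), ((1, 0, 2), 1, 2, 0), ((1, 0, 7), 1, 2, 4), ((1, 0, 9), 1, 2, 7),
    ((1, 2, 7), 1, 0, 4), ((1, 2, 9), 1, 0, 7), ((1, 7, 9), 1, 4, 7), ((2, 1, 5), 0, 1, 3),
    ((3, 4, 7), 0, 5, 4), ((4, 0, 3), 5, 2, 0), ((5, 2, 6), 3, 0, 1), ((6, 5, 8), 1, 3, 6),
    ((7, 1, 3), 4, 1, 0), ((8, 6, 9), 6, 1, 7), ((9, 1, 8), 7, 1, 6)]
  Tc := []
  Td := [((0, 2), (2, 1), 1), ((0, 2), (2, 5), 3), ((0, 2), (3, 4), 5), ((0, 2), (3, 7), 4), ((2,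
    0), (0, 1), 1), ((2, 0), (0, 4), 5), ((3, 4), (5, 2), 0), ((3, 4), (5, 6), 1), ((4, 3),
    (7, 1), 1), ((4, 3), (7, 3), 0)]
  G := [[0, 0x2ea44ec262e68e8c2ac8, 0x11cd21ddc1268, 0x11cdd4529451c9c2c8, 0x11cdd4521c5d8c2a8],
    [0, 0, 0x945d8c1d41c9c168, 0, 0x1c91459458621c9145945868a], [0, 0, 0xddc12ddc12c8,
    0xddc21ddc21c8, 0xddc21d4d8c1a8], [0, 0, 0x1c5d8c1d41c9c168, 0, 0xd4d8c12d4d8cc18a]]

noncomputable def n693 : Ent := ⟨e693, noF, [], [], [(6, 15, [360035742630636841211993100915356868655746945586763691010494465, 0])]⟩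

def c693 : PLift (Cov.check n693.C.D v693 = true) := ⟨by decide +kernel⟩

def b693 : PLift (entF (fidx ts) 400 693 n693 = true) := ⟨by decide +kernel⟩

theorem g693 : GoodF (fidx ts) 400 693 := GoodF.ofV v693 n693 c693.down b693.down

/-- 474665:592 -/
noncomputable def e694 : SCfg where
  D := {
    a := 6
    L := 11
    kp := 8
    inn := [(0, 1), (1, 0), (1, 2), (1, 3), (2, 1), (2, 3), (3, 1), (3, 2), (3, 4), (4, 3), (4, 5), (5,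
      4)]
    mix := [(0, 0), (0, 1), (0, 2), (1, 0), (1, 2), (1, 3), (1, 4), (2, 2), (2, 5), (3, 3), (3, 5), (3,
      6), (4, 3), (4, 6), (4, 7), (4, 8), (5, 6), (5, 7), (5, 9), (5, 10)]
    cl := [1, 5, 0, 0, 6, 4, 3, 3, 2, 7, 8]
    chq := [(0, 1), (1, 0), (2, 4), (4, 2)]
    rng := [(0, 1), (0, 4), (1, 0), (1, 2), (2, 1), (2, 5), (3, 4), (3, 8), (4, 0), (4, 3), (5, 2), (5,
      6), (6, 5), (6, 9), (7, 8), (7, 10), (8, 3), (8, 7), (9, 6), (9, 10), (10, 7), (10, 9)]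
    lev := [] }
  links := [[1, 6, 7, 8], [6, 0, 8, 2, 3, 9, 10], [3, 1, 8, 11], [9, 1, 2, 11, 12, 4], [9, 3, 12, 5, 13,
    14], [13, 4, 12, 15, 16]]
  P := {
    a := 6
    N := 17
    nb := [450, 1869, 2314, 6678, 29224, 110608, 1155, 321, 2183, 17434, 578, 4364, 34872, 81968,
      8720, 69664, 40992]
    tri := [(0, 1, 6), (0, 1, 8), (0, 6, 7), (0, 7, 8), (1, 2, 3), (1, 2, 8), (1, 3, 9), (1, 6, 10),
      (1, 9, 10), (2, 3, 11), (2, 8, 11), (3, 4, 9), (3, 4, 12), (3, 11, 12), (4, 5, 12), (4, 5,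
      13), (4, 9, 14), (4, 13, 14), (5, 12, 15), (5, 13, 16), (5, 15, 16)]
    fin := [0, 1, 1, 3, 3, 5, 0, 7, 1, 1, 10, 3, 5, 5, 14, 15, 16]
    chd := [(0, 1), (3, 14)]
    steps := [(0, 6), (1, 2), (1, 8), (1, 9), (3, 4), (3, 11), (5, 12), (5, 13)] }
  rep := [1, 0, 14, 5, 3, 7, 10, 15, 16]

noncomputable def v694 : Cov.CovD where
  P := 3
  N := 6
  pl := [1, 4, 9, 10]
  lev := [⟨[], [], [(0, 1)], [5], [(0, 1, [0]), (2, 0, [1])]⟩,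
    ⟨[], [(0, 0), (0, 1)], [(0, 0), (0, 1)], [6], [(0, 1, [0]), (2, 0, [1]), (3, 0, [1])]⟩,
    ⟨[(0, 1)], [(0, 0), (1, 0), (1, 1), (1, 4)], [(0, 4)], [], [(2, 0, [1]), (5, 4, [2])]⟩,
    ⟨[(0, 1), (1, 2)], [(1, 0), (1, 1), (1, 3), (1, 4), (2, 0), (2, 3), (2, 4)], [(0, 3),
      (0, 4), (3, 4)], [], [(3, 0, [1]), (5, 4, [2]), (6, 3, [])]⟩,
    ⟨[(1, 3), (2, 3)], [(1, 0), (3, 0), (3, 2), (3, 3), (3, 4)], [(0, 2), (0, 3), (2, 3),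
      (3, 3)], [], [(3, 0, [1]), (6, 3, []), (7, 3, []), (8, 2, [4])]⟩,
    ⟨[(3, 4)], [(3, 3), (4, 0), (4, 2), (4, 3)], [(3, 3)], [7, 8], [(6, 3, []), (7, 3,
      [])]⟩]
  Ta := [((2, 1), 0, 5), ((2, 5), 0, 4), ((3, 4), 0, 6), ((3, 8), 0, 2), ((6, 5), 3, 4), ((6, 9),
    3, 7), ((7, 8), 3, 2), ((7, 10), 3, 8)]
  Tb := [((0, 1, 4), 1, 5, 6), ((1, 0, 2), 5, 1, 0), ((2, 1, 5), 0, 5, 4), ((3, 4, 8), 0, 6, 2),
    ((4, 0, 3), 6, 1, 0), ((5, 2, 6), 4, 0, 3), ((6, 5, 9), 3, 4, 7), ((7, 8, 10), 3, 2, 8),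
    ((8, 3, 7), 2, 0, 3), ((9, 6, 10), 7, 3, 8), ((10, 7, 9), 8, 3, 7)]
  Tc := []
  Td := [((0, 1), (2, 1), 5), ((0, 1), (2, 5), 4), ((0, 1), (3, 4), 6), ((0, 1), (3, 8), 2), ((1,
    0), (0, 1), 5), ((1, 0), (0, 4), 6), ((2, 4), (8, 3), 0), ((2, 4), (8, 7), 3), ((4, 2),
    (5, 2), 0), ((4, 2), (5, 6), 3)]
  G := [[0, 0xb7c21f16d21cb7c21b7c21c6, 0, 0xb7c2972d26b7c2b52d2ccb7c2b7c2a69ab7c74b2cc,
    0xd7a4974b46d34b4e69d1a3ac974b4d7a4cec31217ab18e69d1abacc], [0, 0xb7c218b7c214f4f8c12e,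
    0, 0xf29f4d47287c2b4c2ccf42f82cf42f8f83acc,
    0x87af887a744b4e2f2f8accf24f84ae2916b72be8d83acc], [0, 0xb7c21972d21cb7c21b7c21cc,
    0xb2d7acd4b7ca6db672cd8b7c6ac1, 0xb7c2b7c2ab7c2b7c2ac1, 0xd7a4d7a4ad7a42649cd7a34eac1],
    [0, 0xb7c218b7c21b7c21cb7c214e, 0xf2f46f84af42f2f8acc1, 0xf42f82cf42f82cc1,
    0xf24f82cf2d8a4b4e28a6c1]]

noncomputable def n694 : Ent := ⟨e694, noF, [], [], [(6, 16, [1580044410770988437309982408355971841652082177953823432505691938817, 0]), (7, 15, [1685356702439545624007900436039642273970977273354372543760002920449, 0]), (7, 16, [1580044410770988437309982408355971841652082177953823432505691947009, 0]), (7, 13, [1685382419725355503238989871268909155780284044704628512909402263553, 0])]⟩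

def c694 : PLift (Cov.check n694.C.D v694 = true) := ⟨by decide +kernel⟩

def b694 : PLift (entF (fidx ts) 400 694 n694 = true) := ⟨by decide +kernel⟩

theorem g694 : GoodF (fidx ts) 400 694 := GoodF.ofV v694 n694 c694.down b694.down

/-- 474854:593/1 -/
noncomputable def e695 : SCfg where
  D := {
    a := 6
    L := 9
    kp := 6
    inn := [(0, 1), (1, 0), (1, 2), (1, 3), (1, 5), (2, 1), (2, 3), (3, 1), (3, 2), (3, 4), (3, 5), (4,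
      3), (5, 1), (5, 3)]
    mix := [(0, 0), (0, 1), (0, 2), (1, 0), (1, 2), (1, 3), (2, 2), (2, 4), (3, 4), (3, 5), (3, 6), (3,
      7), (4, 1), (4, 6), (4, 7), (4, 8), (5, 3), (5, 7)]
    cl := [2, 4, 0, 0, 3, 5, 1, 1, 6]
    chq := [(1, 3), (3, 1)]
    rng := [(0, 1), (0, 3), (1, 0), (1, 2), (1, 6), (1, 8), (2, 1), (2, 4), (3, 0), (3, 7), (4, 2), (4,
      5), (5, 4), (5, 6), (6, 1), (6, 5), (7, 3), (7, 8), (8, 1), (8, 7)]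
    lev := [] }
  links := [[1, 6, 7, 8], [6, 0, 8, 2, 3, 5, 9], [3, 1, 8, 10], [5, 1, 2, 10, 11, 12, 4, 13], [13, 3, 12,
    7, 14], [9, 1, 3, 13]]
  P := {
    a := 6
    N := 15
    nb := [450, 877, 1290, 15414, 28808, 8714, 643, 20817, 1159, 8290, 2316, 5128, 2200, 16952, 8336]
    tri := [(0, 1, 6), (0, 1, 8), (0, 6, 7), (0, 7, 8), (1, 2, 3), (1, 2, 8), (1, 3, 5), (1, 5, 9), (1,
      6, 9), (2, 3, 10), (2, 8, 10), (3, 4, 12), (3, 4, 13), (3, 5, 13), (3, 10, 11), (3, 11, 12),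
      (4, 7, 12), (4, 7, 14), (4, 13, 14), (5, 9, 13)]
    fin := [0, 1, 1, 3, 4, 1, 0, 4, 1, 1, 10, 11, 3, 3, 14]
    chd := [(10, 3)]
    steps := [(0, 6), (1, 2), (1, 5), (1, 8), (1, 9), (3, 12), (3, 13), (4, 7)] }
  rep := [1, 3, 0, 10, 4, 11, 14]

noncomputable def v695 : Cov.CovD where
  P := 3
  N := 4
  pl := [0, 1, 5, 8]
  lev := [⟨[], [], [], [2, 4], [(2, 0, [])]⟩,
    ⟨[], [(0, 0)], [(0, 0)], [2], [(2, 0, []), (3, 0, [])]⟩,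
    ⟨[(0, 1)], [(0, 0), (1, 0), (1, 3)], [(0, 3)], [], [(2, 0, []), (4, 3, [1])]⟩,
    ⟨[(0, 1), (1, 2)], [(1, 0), (1, 1), (1, 3), (2, 0), (2, 1), (2, 3)], [(1, 1), (1, 3)],
      [5], [(4, 3, [1]), (6, 1, [3]), (7, 1, [3])]⟩,
    ⟨[(1, 3), (2, 3)], [(3, 1), (3, 3)], [(1, 1)], [4, 6], [(6, 1, [3]), (7, 1, [3])]⟩,
    ⟨[(0, 1), (1, 2), (1, 3), (2, 3), (3, 4)], [(1, 0), (1, 1), (3, 0), (3, 1), (3, 3), (4,
      1)], [(0, 1)], [], [(3, 0, []), (7, 1, [3])]⟩]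
  Ta := [((2, 1), 0, 4), ((2, 4), 0, 3), ((3, 0), 0, 2), ((3, 7), 0, 1), ((6, 1), 1, 4), ((6, 5),
    1, 5), ((7, 3), 1, 0), ((7, 8), 1, 6)]
  Tb := [((0, 1, 3), 2, 4, 0), ((1, 0, 2), 4, 2, 0), ((1, 0, 6), 4, 2, 1), ((1, 0, 8), 4, 2, 6),
    ((1, 2, 6), 4, 0, 1), ((1, 2, 8), 4, 0, 6), ((1, 6, 8), 4, 1, 6), ((2, 1, 4), 0, 4, 3),
    ((3, 0, 7), 0, 2, 1), ((4, 2, 5), 3, 0, 5), ((5, 4, 6), 5, 3, 1), ((6, 1, 5), 1, 4, 5),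
    ((7, 3, 8), 1, 0, 6), ((8, 1, 7), 6, 4, 1)]
  Tc := []
  Td := [((1, 3), (6, 1), 4), ((1, 3), (6, 5), 5), ((1, 3), (7, 3), 0), ((1, 3), (7, 8), 6), ((3,
    1), (4, 2), 0), ((3, 1), (4, 5), 5)]
  G := [[0, 0, 0, 0x419129489d24425815225d28c, 0x22c2495248982a415285885d28a], [0, 0, 0,
    0x1194495218982c415115485d28c, 0x18822445114d448dd28a], [0, 0,
    0x24522c22cd28429229849d246, 0x41884d422dd224c82c1, 0x425824d848dd24882a1], [0,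
    0x42a28a48ae14246286486e18c, 0x488d884d92884d4162, 0x8442484d889448dd2c1,
    0x445884d444dd24882a1]]

noncomputable def n695 : Ent := ⟨e695, noF, [], [], []⟩

def c695 : PLift (Cov.check n695.C.D v695 = true) := ⟨by decide +kernel⟩

def b695 : PLift (entF (fidx ts) 400 695 n695 = true) := ⟨by decide +kernel⟩

theorem g695 : GoodF (fidx ts) 400 695 := GoodF.ofV v695 n695 c695.down b695.down

/-- 474854:593/2 -/
noncomputable def e696 : SCfg where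
  D := {
    a := 6
    L := 9
    kp := 6
    inn := [(0, 1), (1, 0), (1, 2), (1, 3), (1, 5), (2, 1), (2, 3), (3, 1), (3, 2), (3, 4), (3, 5), (4,
      3), (5, 1), (5, 3)]
    mix := [(0, 0), (0, 1), (0, 2), (1, 0), (1, 2), (1, 3), (2, 2), (2, 4), (3, 4), (3, 5), (3, 6), (3,
      7), (4, 1), (4, 6), (4, 7), (4, 8), (5, 3), (5, 7)]
    cl := [2, 4, 0, 0, 3, 5, 1, 1, 6]
    chq := [(1, 3), (3, 1)]
    rng := [(0, 1), (0, 3), (1, 0), (1, 2), (1, 7), (1, 8), (2, 1), (2, 4), (3, 0), (3, 7), (4, 2), (4,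
      5), (5, 4), (5, 6), (6, 5), (6, 8), (7, 1), (7, 3), (8, 1), (8, 6)]
    lev := [] }
  links := [[1, 6, 7, 8], [6, 0, 8, 2, 3, 5, 9], [3, 1, 8, 10], [5, 1, 2, 10, 11, 12, 4, 13], [13, 3, 12,
    14, 7], [9, 1, 3, 13]]
  P := {
    a := 6
    N := 15
    nb := [450, 877, 1290, 15414, 28808, 8714, 643, 24913, 1159, 8290, 2316, 5128, 18456, 696, 4240]
    tri := [(0, 1, 6), (0, 1, 8), (0, 6, 7), (0, 7, 8), (1, 2, 3), (1, 2, 8), (1, 3, 5), (1, 5, 9), (1,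
      6, 9), (2, 3, 10), (2, 8, 10), (3, 4, 12), (3, 4, 13), (3, 5, 13), (3, 10, 11), (3, 11, 12),
      (4, 7, 13), (4, 7, 14), (4, 12, 14), (5, 9, 13)]
    fin := [0, 1, 1, 3, 4, 1, 0, 4, 1, 1, 10, 11, 3, 3, 14]
    chd := [(10, 3)]
    steps := [(0, 6), (1, 2), (1, 5), (1, 8), (1, 9), (3, 12), (3, 13), (4, 7)] }
  rep := [1, 3, 0, 10, 4, 11, 14]

noncomputable def v696 : Cov.CovD where
  P := 3
  N := 4
  pl := [0, 1, 5, 8]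
  lev := [⟨[], [], [], [2, 4], [(2, 0, [])]⟩,
    ⟨[], [(0, 0)], [(0, 0)], [2], [(2, 0, []), (3, 0, [])]⟩,
    ⟨[(0, 1)], [(0, 0), (1, 0), (1, 3)], [(0, 3)], [], [(2, 0, []), (4, 3, [1])]⟩,
    ⟨[(0, 1), (1, 2)], [(1, 0), (1, 1), (1, 3), (2, 0), (2, 1), (2, 3)], [(1, 1), (1, 3)],
      [5], [(4, 3, [1]), (6, 1, [3]), (7, 1, [3])]⟩,
    ⟨[(1, 3), (2, 3)], [(3, 1), (3, 3)], [(1, 1)], [4, 6], [(6, 1, [3]), (7, 1, [3])]⟩,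
    ⟨[(0, 1), (1, 2), (1, 3), (2, 3), (3, 4)], [(1, 0), (1, 1), (3, 0), (3, 1), (3, 3), (4,
      1)], [(0, 1)], [], [(3, 0, []), (7, 1, [3])]⟩]
  Ta := [((2, 1), 0, 4), ((2, 4), 0, 3), ((3, 0), 0, 2), ((3, 7), 0, 1), ((6, 5), 1, 5), ((6, 8),
    1, 6), ((7, 1), 1, 4), ((7, 3), 1, 0)]
  Tb := [((0, 1, 3), 2, 4, 0), ((1, 0, 2), 4, 2, 0), ((1, 0, 7), 4, 2, 1), ((1, 0, 8), 4, 2, 6),
    ((1, 2, 7), 4, 0, 1), ((1, 2, 8), 4, 0, 6), ((1, 7, 8), 4, 1, 6), ((2, 1, 4), 0, 4, 3),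
    ((3, 0, 7), 0, 2, 1), ((4, 2, 5), 3, 0, 5), ((5, 4, 6), 5, 3, 1), ((6, 5, 8), 1, 5, 6),
    ((7, 1, 3), 1, 4, 0), ((8, 1, 6), 6, 4, 1)]
  Tc := []
  Td := [((1, 3), (6, 5), 5), ((1, 3), (6, 8), 6), ((1, 3), (7, 1), 4), ((1, 3), (7, 3), 0), ((3,
    1), (4, 2), 0), ((3, 1), (4, 5), 5)]
  G := [[0, 0, 0, 0x129219489d24145885825d28c, 0x48822415228d844dd28a], [0, 0, 0,
    0x189819889d24445845445d28c, 0x11c4495241c82a445885885d28a], [0, 0, 0x222d828d52282d82c2,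
    0x222d822d52288d82c1, 0x245228d824dd24881a2], [0, 0x22a44a614881c286286618246884d,
    0x4888c124484485d284181849d28e, 0x888d42444d484d92c1, 0x445484d444dd24882a1]]

noncomputable def n696 : Ent := ⟨e696, noF, [], [], []⟩

def c696 : PLift (Cov.check n696.C.D v696 = true) := ⟨by decide +kernel⟩

def b696 : PLift (entF (fidx ts) 400 696 n696 = true) := ⟨by decide +kernel⟩

theorem g696 : GoodF (fidx ts) 400 696 := GoodF.ofV v696 n696 c696.down b696.down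

/-- 474854:593 -/
noncomputable def e697 : SCfg where
  D := {
    a := 6
    L := 10
    kp := 7
    inn := [(0, 1), (1, 0), (1, 2), (1, 3), (1, 5), (2, 1), (2, 3), (3, 1), (3, 2), (3, 4), (3, 5), (4,
      3), (5, 1), (5, 3)]
    mix := [(0, 0), (0, 1), (0, 2), (1, 0), (1, 2), (1, 3), (2, 2), (2, 4), (3, 4), (3, 5), (3, 6), (3,
      7), (4, 6), (4, 7), (4, 8), (4, 9), (5, 3), (5, 7)]
    cl := [1, 5, 0, 0, 2, 4, 3, 3, 6, 7]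
    chq := [(0, 4), (4, 0)]
    rng := [(0, 1), (0, 3), (1, 0), (1, 2), (2, 1), (2, 4), (3, 0), (3, 7), (4, 2), (4, 5), (5, 4), (5,
      6), (6, 5), (6, 8), (7, 3), (7, 9), (8, 6), (8, 9), (9, 7), (9, 8)]
    lev := [] }
  links := [[1, 6, 7, 8], [6, 0, 8, 2, 3, 5, 9], [3, 1, 8, 10], [5, 1, 2, 10, 11, 12, 4, 13], [13, 3, 12,
    14, 15], [9, 1, 3, 13]]
  P := {
    a := 6
    N := 16
    nb := [450, 877, 1290, 15414, 61448, 8714, 643, 321, 1159, 8290, 2316, 5128, 18456, 33336, 36880,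
      24592]
    tri := [(0, 1, 6), (0, 1, 8), (0, 6, 7), (0, 7, 8), (1, 2, 3), (1, 2, 8), (1, 3, 5), (1, 5, 9), (1,
      6, 9), (2, 3, 10), (2, 8, 10), (3, 4, 12), (3, 4, 13), (3, 5, 13), (3, 10, 11), (3, 11, 12),
      (4, 12, 14), (4, 13, 15), (4, 14, 15), (5, 9, 13)]
    fin := [0, 0, 2, 2, 4, 2, 0, 7, 2, 2, 10, 11, 4, 4, 14, 15]
    chd := [(2, 11)]
    steps := [(0, 1), (0, 6), (2, 3), (2, 5), (2, 8), (2, 9), (4, 12), (4, 13)] }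
  rep := [2, 0, 10, 4, 11, 7, 14, 15]

noncomputable def v697 : Cov.CovD where
  P := 3
  N := 5
  pl := [0, 1, 4, 8, 9]
  lev := [⟨[], [], [], [1, 5], [(2, 0, [4])]⟩,
    ⟨[], [(0, 0)], [(0, 0)], [1], [(2, 0, [4]), (3, 0, [4])]⟩,
    ⟨[(0, 1)], [(0, 0), (1, 0)], [], [2], [(2, 0, [4])]⟩,
    ⟨[(0, 1), (1, 2)], [(1, 0), (1, 3), (1, 4), (2, 0), (2, 3), (2, 4)], [(3, 3), (3, 4)],
      [2], [(5, 4, [0]), (6, 3, []), (7, 3, [])]⟩,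
    ⟨[(1, 3), (2, 3)], [(3, 3), (3, 4)], [(3, 3)], [6, 7], [(6, 3, []), (7, 3, [])]⟩,
    ⟨[(0, 1), (1, 2), (1, 3), (2, 3), (3, 4)], [(1, 0), (1, 3), (3, 0), (3, 3), (3, 4), (4,
      3)], [(0, 3)], [], [(3, 0, [4]), (7, 3, [])]⟩]
  Ta := [((2, 1), 0, 5), ((2, 4), 0, 2), ((3, 0), 0, 1), ((3, 7), 0, 3), ((6, 5), 3, 4), ((6, 8),
    3, 6), ((7, 3), 3, 0), ((7, 9), 3, 7)]
  Tb := [((0, 1, 3), 1, 5, 0), ((1, 0, 2), 5, 1, 0), ((2, 1, 4), 0, 5, 2), ((3, 0, 7), 0, 1, 3),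
    ((4, 2, 5), 2, 0, 4), ((5, 4, 6), 4, 2, 3), ((6, 5, 8), 3, 4, 6), ((7, 3, 9), 3, 0, 7),
    ((8, 6, 9), 6, 3, 7), ((9, 7, 8), 7, 3, 6)]
  Tc := []
  Td := [((0, 4), (2, 1), 5), ((0, 4), (2, 4), 2), ((0, 4), (3, 0), 1), ((0, 4), (3, 7), 3), ((4,
    0), (5, 4), 2), ((4, 0), (5, 6), 3)]
  G := [[0, 0, 0x2121f41621811f211ea4c2112f241e681112f81a2cc, 0x214818228f9c411218422fd48c,
    0x2242f1284224f1884111a28d], [0, 0, 0x1124f421811f8212fa4c14411821b2412fec112e82cc,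
    0x842cf184842cf1482111c84d, 0x4121842afb8411118a2afb24c], [0, 0x4484f1422242f188a, 0,
    0x21818822fd841, 0x81118482fb241], [0, 0x842cf142842af142c, 0, 0x4244f488422f12288f8cc1,
    0x4281f8426f32288f8a41]]

noncomputable def n697 : Ent := ⟨e697, noF, [], [], [(7, 14, [385746751338780685620664494392815470296102193487288376375341057, 0]), (7, 15, [360035742630636841211993100915356868655746945586763691010523137, 0])]⟩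

def c697 : PLift (Cov.check n697.C.D v697 = true) := ⟨by decide +kernel⟩

def b697 : PLift (entF (fidx ts) 400 697 n697 = true) := ⟨by decide +kernel⟩

theorem g697 : GoodF (fidx ts) 400 697 := GoodF.ofV v697 n697 c697.down b697.down

/-- 458646:597/1 -/
noncomputable def e698 : SCfg where
  D := {
    a := 6
    L := 9
    kp := 7
    inn := [(0, 1), (0, 2), (0, 3), (1, 0), (1, 2), (2, 0), (2, 1), (2, 3), (2, 4), (2, 5), (3, 0), (3,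
      2), (4, 2), (4, 5), (5, 2), (5, 4)]
    mix := [(0, 0), (1, 0), (1, 1), (1, 2), (2, 2), (2, 3), (2, 4), (3, 0), (3, 4), (3, 5), (3, 6), (4,
      3), (4, 7), (5, 4), (5, 5), (5, 7), (5, 8)]
    cl := [0, 6, 1, 2, 0, 3, 7, 4, 5]
    chq := [(0, 1), (1, 0), (1, 3), (1, 4), (1, 5), (3, 1), (4, 1), (5, 1)]
    rng := [(0, 1), (0, 6), (1, 0), (1, 2), (2, 1), (2, 3), (3, 2), (3, 7), (4, 5), (5, 4), (5, 6), (5,
      8), (6, 0), (6, 5), (7, 3), (7, 8), (8, 5), (8, 7)]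
    lev := [] }
  links := [[1, 2, 3, 6], [2, 0, 6, 7, 8], [3, 0, 1, 8, 9, 4, 5, 10], [6, 0, 2, 10, 11, 12], [5, 2, 9,
    13], [10, 2, 4, 13, 14, 11]]
  P := {
    a := 6
    N := 15
    nb := [78, 453, 1851, 7237, 8740, 27668, 4235, 322, 646, 8468, 2092, 21544, 2120, 16944, 10272]
    tri := [(0, 1, 2), (0, 1, 6), (0, 2, 3), (0, 3, 6), (1, 2, 8), (1, 6, 7), (1, 7, 8), (2, 3, 10),
      (2, 4, 5), (2, 4, 9), (2, 5, 10), (2, 8, 9), (3, 6, 12), (3, 10, 11), (3, 11, 12), (4, 5,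
      13), (4, 9, 13), (5, 10, 11), (5, 11, 14), (5, 13, 14)]
    fin := [0, 0, 2, 0, 2, 2, 0, 7, 2, 9, 0, 11, 12, 13, 14]
    chd := [(0, 2), (2, 11), (2, 13), (2, 14)]
    steps := [(0, 1), (0, 3), (0, 6), (0, 10), (2, 4), (2, 5), (2, 8)] }
  rep := [0, 2, 9, 11, 13, 14, 7, 12]

noncomputable def v698 : Cov.CovD where
  P := 3
  N := 5
  pl := [1, 3, 6]
  lev := [⟨[], [], [], [], [(0, 0, [1])]⟩,
    ⟨[], [(0, 0), (0, 1)], [(0, 1)], [6], [(0, 0, [1]), (2, 1, [0, 3, 4, 5])]⟩,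
    ⟨[(0, 1)], [(0, 0), (0, 1), (1, 0), (1, 1)], [(0, 1)], [2], [(2, 1, [0, 3, 4, 5]), (4,
      0, [1])]⟩,
    ⟨[(0, 1), (0, 2), (1, 2)], [(0, 0), (0, 3), (1, 0), (2, 0), (2, 1), (2, 3)], [(0, 0),
      (0, 3)], [7], [(0, 0, [1]), (4, 0, [1]), (5, 3, [1])]⟩,
    ⟨[(0, 2), (1, 2), (2, 3)], [(2, 0), (2, 1), (2, 4)], [], [2], [(7, 4, [1])]⟩,
    ⟨[(0, 2), (1, 2), (2, 3), (2, 4)], [(2, 0), (2, 1), (2, 3), (2, 4), (2, 5), (3, 0), (3,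
      3), (4, 0), (4, 3), (4, 4), (4, 5)], [(0, 3), (0, 4), (0, 5), (3, 4), (3, 5), (4, 5)],
      [], [(4, 0, [1]), (5, 3, [1]), (7, 4, [1]), (8, 5, [1])]⟩]
  Ta := [((0, 1), 0, 6), ((0, 6), 0, 7), ((4, 5), 0, 3)]
  Tb := [((0, 1, 6), 0, 6, 7), ((1, 0, 2), 6, 0, 1), ((2, 1, 3), 1, 6, 2), ((3, 2, 7), 2, 1, 4),
    ((5, 4, 6), 3, 0, 7), ((5, 4, 8), 3, 0, 5), ((5, 6, 8), 3, 7, 5), ((6, 0, 5), 7, 0, 3),
    ((7, 3, 8), 4, 2, 5), ((8, 5, 7), 5, 3, 4)]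
  Tc := [(1, 0, 3), (1, 0, 4), (1, 0, 5), (1, 3, 4), (1, 3, 5), (1, 4, 5)]
  Td := [((0, 1), (0, 1), 6), ((0, 1), (0, 6), 7), ((0, 1), (4, 5), 3), ((1, 0), (2, 1), 6), ((1,
    0), (2, 3), 2), ((1, 3), (2, 1), 6), ((1, 3), (2, 3), 2), ((1, 4), (2, 1), 6), ((1, 4),
    (2, 3), 2), ((1, 5), (2, 1), 6), ((1, 5), (2, 3), 2), ((3, 1), (5, 4), 0), ((3, 1), (5,
    6), 7), ((3, 1), (5, 8), 5), ((4, 1), (7, 3), 2), ((4, 1), (7, 8), 5), ((5, 1), (8, 5),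
    3), ((5, 1), (8, 7), 4)]
  G := [[0, 0x11c11ca41411c11ce811c4188ce2, 0x24236622c28cc2422cc2823aacc2,
    0x22c229225e422c22c22ce1c2, 0x22a226122a6222e1ca2812121d2e8ac], [0,
    0x14411c1811cec11c11c611c8ca1, 0x22c22c622c8c12, 0x22522922ce418, 0x623229229e888a14]]

noncomputable def n698 : Ent := ⟨e698, noF, [], [], []⟩

def c698 : PLift (Cov.check n698.C.D v698 = true) := ⟨by decide +kernel⟩

def b698 : PLift (entF (fidx ts) 400 698 n698 = true) := ⟨by decide +kernel⟩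

theorem g698 : GoodF (fidx ts) 400 698 := GoodF.ofV v698 n698 c698.down b698.down

/-- 458646:597 -/
noncomputable def e699 : SCfg where
  D := {
    a := 6
    L := 10
    kp := 8
    inn := [(0, 1), (0, 2), (0, 3), (1, 0), (1, 2), (2, 0), (2, 1), (2, 3), (2, 4), (2, 5), (3, 0), (3,
      2), (4, 2), (4, 5), (5, 2), (5, 4)]
    mix := [(0, 0), (1, 0), (1, 1), (1, 2), (2, 2), (2, 3), (2, 4), (3, 0), (3, 4), (3, 5), (3, 6), (4,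
      3), (4, 7), (5, 4), (5, 7), (5, 8), (5, 9)]
    cl := [0, 6, 1, 2, 0, 7, 8, 3, 4, 5]
    chq := [(0, 1), (1, 0), (1, 3), (1, 4), (1, 5), (3, 1), (4, 1), (5, 1)]
    rng := [(0, 1), (0, 6), (1, 0), (1, 2), (2, 1), (2, 3), (3, 2), (3, 7), (4, 5), (4, 9), (5, 4), (5,
      6), (6, 0), (6, 5), (7, 3), (7, 8), (8, 7), (8, 9), (9, 4), (9, 8)]
    lev := [] }
  links := [[1, 2, 3, 6], [2, 0, 6, 7, 8], [3, 0, 1, 8, 9, 4, 5, 10], [6, 0, 2, 10, 11, 12], [5, 2, 9,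
    13], [10, 2, 4, 13, 14, 15]]
  P := {
    a := 6
    N := 16
    nb := [78, 453, 1851, 7237, 8740, 58388, 4235, 322, 646, 8468, 34860, 5128, 2120, 16944, 40992,
      17440]
    tri := [(0, 1, 2), (0, 1, 6), (0, 2, 3), (0, 3, 6), (1, 2, 8), (1, 6, 7), (1, 7, 8), (2, 3, 10),
      (2, 4, 5), (2, 4, 9), (2, 5, 10), (2, 8, 9), (3, 6, 12), (3, 10, 11), (3, 11, 12), (4, 5,
      13), (4, 9, 13), (5, 10, 15), (5, 13, 14), (5, 14, 15)]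
    fin := [0, 0, 2, 0, 2, 2, 0, 7, 2, 9, 0, 11, 12, 13, 14, 15]
    chd := [(0, 2), (2, 13), (2, 14), (2, 15)]
    steps := [(0, 1), (0, 3), (0, 6), (0, 10), (2, 4), (2, 5), (2, 8)] }
  rep := [0, 2, 9, 13, 14, 15, 7, 11, 12]

noncomputable def v699 : Cov.CovD where
  P := 3
  N := 6
  pl := [1, 3, 5, 6]
  lev := [⟨[], [], [], [], [(0, 0, [1])]⟩,
    ⟨[], [(0, 0), (0, 1)], [(0, 1)], [6], [(0, 0, [1]), (2, 1, [0, 3, 4, 5])]⟩,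
    ⟨[(0, 1)], [(0, 0), (0, 1), (1, 0), (1, 1)], [(0, 1)], [2], [(2, 1, [0, 3, 4, 5]), (4,
      0, [1])]⟩,
    ⟨[(0, 1), (0, 2), (1, 2)], [(0, 0), (1, 0), (2, 0), (2, 1)], [(0, 0)], [7, 8], [(0, 0,
      [1]), (4, 0, [1])]⟩,
    ⟨[(0, 2), (1, 2), (2, 3)], [(2, 0), (2, 1), (2, 3)], [], [2], [(7, 3, [1])]⟩,
    ⟨[(0, 2), (1, 2), (2, 3), (2, 4)], [(2, 0), (2, 1), (2, 3), (2, 4), (2, 5), (3, 0), (4,
      0), (4, 3), (4, 4), (4, 5)], [(0, 3), (0, 4), (0, 5), (3, 4), (3, 5), (4, 5)], [], [(4,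
      0, [1]), (7, 3, [1]), (8, 4, [1]), (9, 5, [1])]⟩]
  Ta := [((0, 1), 0, 6), ((0, 6), 0, 8), ((4, 5), 0, 7), ((4, 9), 0, 5)]
  Tb := [((0, 1, 6), 0, 6, 8), ((1, 0, 2), 6, 0, 1), ((2, 1, 3), 1, 6, 2), ((3, 2, 7), 2, 1, 3),
    ((4, 5, 9), 0, 7, 5), ((5, 4, 6), 7, 0, 8), ((6, 0, 5), 8, 0, 7), ((7, 3, 8), 3, 2, 4),
    ((8, 7, 9), 4, 3, 5), ((9, 4, 8), 5, 0, 4)]
  Tc := [(1, 0, 3), (1, 0, 4), (1, 0, 5), (1, 3, 4), (1, 3, 5), (1, 4, 5)]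
  Td := [((0, 1), (0, 1), 6), ((0, 1), (0, 6), 8), ((0, 1), (4, 5), 7), ((0, 1), (4, 9), 5), ((1,
    0), (2, 1), 6), ((1, 0), (2, 3), 2), ((1, 3), (2, 1), 6), ((1, 3), (2, 3), 2), ((1, 4),
    (2, 1), 6), ((1, 4), (2, 3), 2), ((1, 5), (2, 1), 6), ((1, 5), (2, 3), 2), ((3, 1), (7,
    3), 2), ((3, 1), (7, 8), 4), ((4, 1), (8, 7), 3), ((4, 1), (8, 9), 5), ((5, 1), (9, 4),
    0), ((5, 1), (9, 8), 4)]
  G := [[0, 0x14411c1811cec1411c14e1818acc2, 0x42422c23af2ec2422c24e2828acc2,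
    0x22c41422c22c22ce1225225a8cc, 0x218822121622a2828e921f2229e2889c6], [0,
    0x1411c14e1818ac14411c1811cec61, 0x2422c22ce288c14, 0x22522922ce812, 0x623229229e888a14]]

noncomputable def n699 : Ent := ⟨e699, noF, [], [], [(15, 11, [360035742632133418888619945503597441924448419398891365934538753, 0])]⟩

def c699 : PLift (Cov.check n699.C.D v699 = true) := ⟨by decide +kernel⟩

def b699 : PLift (entF (fidx ts) 400 699 n699 = true) := ⟨by decide +kernel⟩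

theorem g699 : GoodF (fidx ts) 400 699 := GoodF.ofV v699 n699 c699.down b699.down

/-- 458656:598 -/
noncomputable def e700 : SCfg where
  D := {
    a := 6
    L := 10
    kp := 9
    inn := [(0, 1), (0, 2), (0, 3), (1, 0), (1, 2), (2, 0), (2, 1), (2, 3), (2, 4), (2, 5), (3, 0), (3,
      2), (3, 5), (4, 2), (4, 5), (5, 2), (5, 3), (5, 4)]
    mix := [(0, 0), (1, 0), (1, 1), (1, 2), (2, 2), (2, 3), (2, 4), (3, 0), (3, 5), (3, 6), (4, 4), (4,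
      7), (4, 8), (5, 5), (5, 8), (5, 9)]
    cl := [0, 7, 2, 5, 3, 1, 8, 6, 4, 9]
    chq := [(0, 1), (0, 2), (0, 3), (0, 5), (1, 0), (1, 3), (1, 4), (1, 6), (2, 0), (3, 0), (3, 1), (4,
      1), (5, 0), (6, 1)]
    rng := [(0, 1), (0, 6), (1, 0), (1, 2), (2, 1), (2, 3), (3, 2), (3, 4), (4, 3), (4, 7), (5, 6), (5,
      9), (6, 0), (6, 5), (7, 4), (7, 8), (8, 7), (8, 9), (9, 5), (9, 8)]
    lev := [] }
  links := [[1, 2, 3, 6], [2, 0, 6, 7, 8], [3, 0, 1, 8, 9, 10, 4, 5], [6, 0, 2, 5, 11, 12], [5, 2, 10,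
    13, 14], [11, 3, 2, 4, 14, 15]]
  P := {
    a := 6
    N := 16
    nb := [78, 453, 1851, 6245, 25636, 51228, 4235, 322, 646, 1284, 8724, 36904, 2120, 17424, 41008,
      18464]
    tri := [(0, 1, 2), (0, 1, 6), (0, 2, 3), (0, 3, 6), (1, 2, 8), (1, 6, 7), (1, 7, 8), (2, 3, 5), (2,
      4, 5), (2, 4, 10), (2, 8, 9), (2, 9, 10), (3, 5, 11), (3, 6, 12), (3, 11, 12), (4, 5, 14),
      (4, 10, 13), (4, 13, 14), (5, 11, 15), (5, 14, 15)]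
    fin := [0, 0, 0, 0, 4, 4, 0, 7, 8, 9, 10, 4, 12, 13, 14, 15]
    chd := [(0, 4), (0, 8), (0, 9), (0, 10), (4, 13), (4, 14), (10, 4)]
    steps := [(0, 1), (0, 2), (0, 3), (0, 6), (4, 5), (4, 11)] }
  rep := [0, 4, 8, 10, 14, 9, 13, 7, 12, 15]

noncomputable def v700 : Cov.CovD where
  P := 3
  N := 7
  pl := [1, 6, 9]
  lev := [⟨[], [], [], [], [(0, 0, [1, 2, 3, 5])]⟩,
    ⟨[], [(0, 0), (0, 2)], [(0, 2)], [7], [(0, 0, [1, 2, 3, 5]), (2, 2, [0])]⟩,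
    ⟨[(0, 1)], [(0, 0), (0, 2), (0, 3), (0, 5), (1, 0), (1, 2), (1, 3), (1, 5)], [(2, 3),
      (2, 5), (3, 5)], [], [(2, 2, [0]), (3, 5, [0]), (4, 3, [0, 1])]⟩,
    ⟨[(0, 1), (0, 2), (1, 2)], [(0, 0), (0, 1), (1, 0), (2, 0), (2, 1), (2, 2), (2, 3), (2,
      5)], [(0, 1)], [8], [(0, 0, [1, 2, 3, 5]), (5, 1, [0, 3, 4, 6])]⟩,
    ⟨[(0, 2), (1, 2), (2, 3)], [(2, 2), (2, 3), (2, 4), (2, 5), (2, 6)], [(3, 4), (3, 6),
      (4, 6)], [], [(4, 3, [0, 1]), (7, 6, [1]), (8, 4, [1])]⟩,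
    ⟨[(0, 2), (0, 3), (1, 2), (2, 3), (2, 4), (3, 4)], [(2, 1), (2, 2), (2, 3), (2, 4), (2,
      5), (3, 0), (3, 1), (3, 4), (4, 1), (4, 3), (4, 4), (4, 6)], [(1, 4)], [9], [(5, 1, [0,
      3, 4, 6]), (8, 4, [1])]⟩]
  Ta := []
  Tb := [((0, 1, 6), 0, 7, 8), ((1, 0, 2), 7, 0, 2), ((2, 1, 3), 2, 7, 5), ((3, 2, 4), 5, 2, 3),
    ((4, 3, 7), 3, 5, 6), ((5, 6, 9), 1, 8, 9), ((6, 0, 5), 8, 0, 1), ((7, 4, 8), 6, 3, 4),
    ((8, 7, 9), 4, 6, 9), ((9, 5, 8), 9, 1, 4)]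
  Tc := [(0, 1, 2), (0, 1, 3), (0, 1, 5), (0, 2, 3), (0, 2, 5), (0, 3, 5), (1, 0, 3), (1, 0, 4),
    (1, 0, 6), (1, 3, 4), (1, 3, 6), (1, 4, 6), (3, 0, 1)]
  Td := [((0, 1), (0, 1), 7), ((0, 1), (0, 6), 8), ((0, 2), (0, 1), 7), ((0, 2), (0, 6), 8), ((0,
    3), (0, 1), 7), ((0, 3), (0, 6), 8), ((0, 5), (0, 1), 7), ((0, 5), (0, 6), 8), ((1, 0),
    (5, 6), 8), ((1, 0), (5, 9), 9), ((1, 3), (5, 6), 8), ((1, 3), (5, 9), 9), ((1, 4), (5,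
    6), 8), ((1, 4), (5, 9), 9), ((1, 6), (5, 6), 8), ((1, 6), (5, 9), 9), ((2, 0), (2, 1),
    7), ((2, 0), (2, 3), 5), ((3, 0), (4, 3), 5), ((3, 0), (4, 7), 6), ((3, 1), (4, 3), 5),
    ((3, 1), (4, 7), 6), ((4, 1), (8, 7), 6), ((4, 1), (8, 9), 9), ((5, 0), (3, 2), 2), ((5,
    0), (3, 4), 3), ((6, 1), (7, 4), 3), ((6, 1), (7, 8), 4)]
  G := [[0, 0xc1a161e1e1e1a1c4, 0x113113c281212cc2c2c51212c128c2c2cdc113113c21212c124c67,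
    0xd2d2c1d2d2c11212c1212ccd2, 0x1111f1111fc21d2d2c1d2d2c11212c8b6]]

noncomputable def n700 : Ent := ⟨e700, noF, [], [], []⟩

def c700 : PLift (Cov.check n700.C.D v700 = true) := ⟨by decide +kernel⟩

def b700 : PLift (entF (fidx ts) 400 700 n700 = true) := ⟨by decide +kernel⟩

theorem g700 : GoodF (fidx ts) 400 700 := GoodF.ofV v700 n700 c700.down b700.down

/-- 458664:599/1 -/
noncomputable def e701 : SCfg where
  D := {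
    a := 6
    L := 9
    kp := 7
    inn := [(0, 1), (0, 2), (0, 3), (1, 0), (1, 2), (2, 0), (2, 1), (2, 3), (2, 4), (3, 0), (3, 2), (3,
      4), (4, 2), (4, 3), (4, 5), (5, 4)]
    mix := [(0, 0), (1, 0), (1, 1), (1, 2), (2, 2), (2, 3), (2, 4), (2, 5), (3, 0), (3, 6), (3, 7), (4,
      5), (4, 6), (4, 8), (5, 1), (5, 6), (5, 8)]
    cl := [0, 2, 1, 5, 6, 3, 3, 7, 4]
    chq := [(0, 1), (0, 3), (0, 5), (0, 6), (1, 0), (3, 0), (5, 0), (6, 0)]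
    rng := [(0, 1), (0, 7), (1, 0), (1, 2), (1, 6), (1, 8), (2, 1), (2, 3), (3, 2), (3, 4), (4, 3), (4,
      5), (5, 4), (5, 8), (6, 1), (6, 7), (7, 0), (7, 6), (8, 1), (8, 5)]
    lev := [] }
  links := [[1, 2, 3, 6], [2, 0, 6, 7, 8], [3, 0, 1, 8, 9, 10, 11, 4], [6, 0, 2, 4, 12, 13], [12, 3, 2,
    11, 14, 5], [12, 4, 14, 7]]
  P := {
    a := 6
    N := 15
    nb := [78, 453, 3867, 12373, 22572, 20624, 8331, 20834, 646, 1284, 2564, 17428, 8376, 4168, 2224]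
    tri := [(0, 1, 2), (0, 1, 6), (0, 2, 3), (0, 3, 6), (1, 2, 8), (1, 6, 7), (1, 7, 8), (2, 3, 4), (2,
      4, 11), (2, 8, 9), (2, 9, 10), (2, 10, 11), (3, 4, 12), (3, 6, 13), (3, 12, 13), (4, 5, 12),
      (4, 5, 14), (4, 11, 14), (5, 7, 12), (5, 7, 14)]
    fin := [0, 0, 0, 0, 4, 5, 0, 5, 8, 9, 10, 4, 4, 13, 14]
    chd := [(0, 4), (0, 8), (0, 9), (0, 10)]
    steps := [(0, 1), (0, 2), (0, 3), (0, 6), (4, 11), (4, 12), (5, 7)] }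
  rep := [0, 8, 5, 4, 14, 9, 10, 13]

noncomputable def v701 : Cov.CovD where
  P := 3
  N := 5
  pl := [1, 7, 8]
  lev := [⟨[], [], [], [], [(0, 0, [1, 3, 5, 6])]⟩,
    ⟨[], [(0, 0), (0, 1)], [(0, 1)], [2], [(0, 0, [1, 3, 5, 6]), (2, 1, [0])]⟩,
    ⟨[(0, 1)], [(0, 0), (0, 1), (0, 3), (0, 5), (0, 6), (1, 0), (1, 1), (1, 3), (1, 5), (1,
      6)], [(1, 3), (1, 5), (1, 6), (3, 5), (3, 6), (5, 6)], [], [(2, 1, [0]), (3, 5, [0]),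
      (4, 6, [0]), (5, 3, [0])]⟩,
    ⟨[(0, 1), (0, 2), (1, 2)], [(0, 0), (0, 3), (1, 0), (2, 0), (2, 1), (2, 3), (2, 5), (2,
      6)], [(0, 3)], [7], [(0, 0, [1, 3, 5, 6]), (6, 3, [0])]⟩,
    ⟨[(0, 2), (0, 3), (1, 2), (2, 3)], [(2, 1), (2, 3), (2, 5), (2, 6), (3, 0), (3, 3)],
      [(3, 3)], [4], [(5, 3, [0]), (6, 3, [0])]⟩,
    ⟨[(2, 4), (3, 4)], [(3, 3), (4, 3)], [], [2, 4], [(6, 3, [0])]⟩]
  Ta := [((5, 4), 3, 6), ((5, 8), 3, 4), ((6, 1), 3, 2), ((6, 7), 3, 7)]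
  Tb := [((0, 1, 7), 0, 2, 7), ((1, 0, 2), 2, 0, 1), ((1, 0, 6), 2, 0, 3), ((1, 0, 8), 2, 0, 4),
    ((1, 2, 6), 2, 1, 3), ((1, 2, 8), 2, 1, 4), ((1, 6, 8), 2, 3, 4), ((2, 1, 3), 1, 2, 5),
    ((3, 2, 4), 5, 1, 6), ((4, 3, 5), 6, 5, 3), ((5, 4, 8), 3, 6, 4), ((6, 1, 7), 3, 2, 7),
    ((7, 0, 6), 7, 0, 3), ((8, 1, 5), 4, 2, 3)]
  Tc := [(0, 1, 3), (0, 1, 5), (0, 1, 6), (0, 3, 5), (0, 3, 6), (0, 5, 6)]
  Td := [((0, 1), (0, 1), 2), ((0, 1), (0, 7), 7), ((0, 3), (0, 1), 2), ((0, 3), (0, 7), 7), ((0,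
    5), (0, 1), 2), ((0, 5), (0, 7), 7), ((0, 6), (0, 1), 2), ((0, 6), (0, 7), 7), ((1, 0),
    (2, 1), 2), ((1, 0), (2, 3), 5), ((3, 0), (5, 4), 6), ((3, 0), (5, 8), 4), ((3, 0), (6,
    1), 2), ((3, 0), (6, 7), 7), ((5, 0), (3, 2), 1), ((5, 0), (3, 4), 6), ((6, 0), (4, 3),
    5), ((6, 0), (4, 5), 3)]
  G := [[0, 0x41681ac182, 0xa1c16148, 0x5292c142, 0x12681ca184], [0, 0x815e148149e1841e1a4c,
    0xe1e1e1e148, 0x9252d2e148, 0x812e831e618192e818c]]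

noncomputable def n701 : Ent := ⟨e701, noF, [], [], []⟩

def c701 : PLift (Cov.check n701.C.D v701 = true) := ⟨by decide +kernel⟩

def b701 : PLift (entF (fidx ts) 400 701 n701 = true) := ⟨by decide +kernel⟩

theorem g701 : GoodF (fidx ts) 400 701 := GoodF.ofV v701 n701 c701.down b701.down

/-- 458664:599 -/
noncomputable def e702 : SCfg where
  D := {
    a := 6
    L := 10
    kp := 8
    inn := [(0, 1), (0, 2), (0, 3), (1, 0), (1, 2), (2, 0), (2, 1), (2, 3), (2, 4), (3, 0), (3, 2), (3,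
      4), (4, 2), (4, 3), (4, 5), (5, 4)]
    mix := [(0, 0), (1, 0), (1, 1), (1, 2), (2, 2), (2, 3), (2, 4), (2, 5), (3, 0), (3, 6), (3, 7), (4,
      5), (4, 6), (4, 8), (5, 6), (5, 8), (5, 9)]
    cl := [1, 6, 3, 4, 5, 0, 0, 7, 2, 8]
    chq := [(0, 1), (1, 0), (1, 3), (1, 4), (1, 5), (3, 1), (4, 1), (5, 1)]
    rng := [(0, 1), (0, 7), (1, 0), (1, 2), (2, 1), (2, 3), (3, 2), (3, 4), (4, 3), (4, 5), (5, 4), (5,
      8), (6, 7), (6, 9), (7, 0), (7, 6), (8, 5), (8, 9), (9, 6), (9, 8)]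
    lev := [] }
  links := [[1, 2, 3, 6], [2, 0, 6, 7, 8], [3, 0, 1, 8, 9, 10, 11, 4], [6, 0, 2, 4, 12, 13], [12, 3, 2,
    11, 14, 5], [12, 4, 14, 15]]
  P := {
    a := 6
    N := 16
    nb := [78, 453, 3867, 12373, 22572, 53264, 8331, 322, 646, 1284, 2564, 17428, 41016, 4168, 34864,
      20512]
    tri := [(0, 1, 2), (0, 1, 6), (0, 2, 3), (0, 3, 6), (1, 2, 8), (1, 6, 7), (1, 7, 8), (2, 3, 4), (2,
      4, 11), (2, 8, 9), (2, 9, 10), (2, 10, 11), (3, 4, 12), (3, 6, 13), (3, 12, 13), (4, 5, 12),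
      (4, 5, 14), (4, 11, 14), (5, 12, 15), (5, 14, 15)]
    fin := [0, 0, 0, 0, 4, 4, 0, 7, 8, 9, 10, 4, 4, 13, 14, 15]
    chd := [(0, 4), (0, 8), (0, 9), (0, 10)]
    steps := [(0, 1), (0, 2), (0, 3), (0, 6), (4, 5), (4, 11), (4, 12)] }
  rep := [4, 0, 14, 8, 9, 10, 7, 13, 15]

noncomputable def v702 : Cov.CovD where
  P := 3
  N := 6
  pl := [1, 7, 8, 9]
  lev := [⟨[], [], [], [], [(0, 1, [0, 3, 4, 5])]⟩,
    ⟨[], [(0, 1), (0, 3)], [(1, 3)], [6], [(0, 1, [0, 3, 4, 5]), (2, 3, [1])]⟩,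
    ⟨[(0, 1)], [(0, 0), (0, 1), (0, 3), (0, 4), (0, 5), (1, 0), (1, 1), (1, 3), (1, 4), (1,
      5)], [(0, 3), (0, 4), (0, 5), (3, 4), (3, 5), (4, 5)], [], [(2, 3, [1]), (3, 4, [1]),
      (4, 5, [1]), (5, 0, [1])]⟩,
    ⟨[(0, 1), (0, 2), (1, 2)], [(0, 0), (0, 1), (1, 1), (2, 0), (2, 1), (2, 3), (2, 4), (2,
      5)], [(0, 1)], [7], [(0, 1, [0, 3, 4, 5]), (6, 0, [1])]⟩,
    ⟨[(0, 2), (0, 3), (1, 2), (2, 3)], [(2, 0), (2, 3), (2, 4), (2, 5), (3, 0), (3, 1)],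
      [(0, 0)], [2], [(5, 0, [1]), (6, 0, [1])]⟩,
    ⟨[(2, 4), (3, 4)], [(3, 0), (4, 0)], [], [2, 8], [(6, 0, [1])]⟩]
  Ta := [((5, 4), 0, 5), ((5, 8), 0, 2), ((6, 7), 0, 7), ((6, 9), 0, 8)]
  Tb := [((0, 1, 7), 1, 6, 7), ((1, 0, 2), 6, 1, 3), ((2, 1, 3), 3, 6, 4), ((3, 2, 4), 4, 3, 5),
    ((4, 3, 5), 5, 4, 0), ((5, 4, 8), 0, 5, 2), ((6, 7, 9), 0, 7, 8), ((7, 0, 6), 7, 1, 0),
    ((8, 5, 9), 2, 0, 8), ((9, 6, 8), 8, 0, 2)]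
  Tc := [(1, 0, 3), (1, 0, 4), (1, 0, 5), (1, 3, 4), (1, 3, 5), (1, 4, 5)]
  Td := [((0, 1), (5, 4), 5), ((0, 1), (5, 8), 2), ((0, 1), (6, 7), 7), ((0, 1), (6, 9), 8), ((1,
    0), (0, 1), 6), ((1, 0), (0, 7), 7), ((1, 3), (0, 1), 6), ((1, 3), (0, 7), 7), ((1, 4),
    (0, 1), 6), ((1, 4), (0, 7), 7), ((1, 5), (0, 1), 6), ((1, 5), (0, 7), 7), ((3, 1), (2,
    1), 6), ((3, 1), (2, 3), 4), ((4, 1), (3, 2), 3), ((4, 1), (3, 4), 5), ((5, 1), (4, 3),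
    4), ((5, 1), (4, 5), 0)]
  G := [[0, 0x1414a11814a11418c1e4, 0xa41268126812d8, 0xc812c412c412d8, 0xa812a812a812d4], [0,
    0x1414611414c11418a1e8, 0, 0xc4c8c2c448cc2c4c8c2d1,
    0x828182818288289e88228aa8c682882828aa8ce82888228aa8ced5]]

noncomputable def n702 : Ent := ⟨e702, noF, [], [], [(7, 15, [360035742630636841211993100915356868655746945586763691010543617, 0])]⟩

def c702 : PLift (Cov.check n702.C.D v702 = true) := ⟨by decide +kernel⟩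

def b702 : PLift (entF (fidx ts) 400 702 n702 = true) := ⟨by decide +kernel⟩

theorem g702 : GoodF (fidx ts) 400 702 := GoodF.ofV v702 n702 c702.down b702.down

/-- 474464:603/2 -/
noncomputable def e703 : SCfg where
  D := {
    a := 6
    L := 7
    kp := 4
    inn := [(0, 1), (1, 0), (1, 2), (1, 3), (2, 1), (2, 4), (3, 1), (4, 2), (4, 5), (5, 4)]
    mix := [(0, 0), (0, 1), (0, 2), (1, 0), (1, 2), (1, 3), (1, 4), (2, 2), (2, 3), (3, 3), (3, 4), (3,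
      5), (4, 2), (4, 3), (4, 5), (4, 6), (5, 1), (5, 2), (5, 6)]
    cl := [1, 3, 0, 1, 2, 0, 4]
    chq := []
    rng := [(0, 1), (0, 4), (1, 0), (1, 2), (1, 6), (2, 1), (3, 5), (4, 0), (4, 5), (5, 3), (5, 4), (5,
      6), (6, 1), (6, 5)]
    lev := [] }
  links := [[1, 6, 7, 8], [6, 0, 8, 2, 9, 3, 10], [9, 1, 8, 4], [10, 1, 9, 11], [9, 2, 8, 5, 12, 11],
    [12, 4, 8, 7]]
  P := {
    a := 6
    N := 13
    nb := [450, 1869, 786, 3586, 6948, 4496, 1155, 4449, 183, 2078, 2122, 5656, 2224]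
    tri := [(0, 1, 6), (0, 1, 8), (0, 6, 7), (0, 7, 8), (1, 2, 8), (1, 2, 9), (1, 3, 9), (1, 3, 10),
      (1, 6, 10), (2, 4, 8), (2, 4, 9), (3, 9, 11), (3, 10, 11), (4, 5, 8), (4, 5, 12), (4, 9,
      11), (4, 11, 12), (5, 7, 8), (5, 7, 12)]
    fin := [0, 0, 0, 0, 4, 5, 0, 5, 4, 0, 10, 4, 12]
    chd := []
    steps := [(0, 1), (0, 2), (0, 3), (0, 6), (0, 9), (4, 8), (4, 11), (5, 7)] }
  rep := [4, 0, 10, 5, 12]

noncomputable def v703 : Cov.CovD where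
  P := 3
  N := 2
  pl := [1, 4, 6]
  lev := [⟨[], [], [(0, 1)], [3], [(0, 1, []), (2, 0, [])]⟩,
    ⟨[], [(0, 0), (0, 1)], [(0, 1), (1, 1)], [2], [(0, 1, []), (2, 0, []), (3, 1, [])]⟩,
    ⟨[(0, 1)], [(0, 0), (1, 0), (1, 1)], [(0, 1)], [], [(2, 0, []), (3, 1, [])]⟩,
    ⟨[(0, 1), (1, 2)], [(1, 0), (1, 1), (2, 1)], [(0, 1)], [2], [(3, 1, []), (5, 0, [])]⟩,
    ⟨[(1, 2)], [(0, 0), (1, 0), (1, 1), (2, 0), (2, 1), (3, 0), (3, 1)], [(0, 0), (0, 1)],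
      [4], [(2, 0, []), (3, 1, []), (5, 0, [])]⟩,
    ⟨[(2, 4)], [(0, 0), (1, 0), (2, 0), (4, 0), (4, 1)], [], [3, 4], [(2, 0, [])]⟩]
  Ta := [((0, 1), 1, 3), ((0, 4), 1, 2), ((2, 1), 0, 3), ((3, 5), 1, 0), ((5, 3), 0, 1), ((5, 4),
    0, 2), ((5, 6), 0, 4)]
  Tb := [((0, 1, 4), 1, 3, 2), ((1, 0, 2), 3, 1, 0), ((1, 0, 6), 3, 1, 4), ((1, 2, 6), 3, 0, 4),
    ((4, 0, 5), 2, 1, 0), ((5, 3, 4), 0, 1, 2), ((5, 3, 6), 0, 1, 4), ((5, 4, 6), 0, 2, 4),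
    ((6, 1, 5), 4, 3, 0)]
  Tc := []
  Td := []
  G := [[0, 0, 0, 0x82c44824c184c, 0x82c12864a848c], [0, 0, 0, 0, 0xe2c8482], [0, 0,
    0x12884c2c4245, 0x6ac4841, 0xa6c8281], [0, 0x81682812a4846, 0x11c8842, 0, 0x21c8482]]

noncomputable def n703 : Ent := ⟨e703, noF, [], [], []⟩

def c703 : PLift (Cov.check n703.C.D v703 = true) := ⟨by decide +kernel⟩

def b703 : PLift (entF (fidx ts) 400 703 n703 = true) := ⟨by decide +kernel⟩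

theorem g703 : GoodF (fidx ts) 400 703 := GoodF.ofV v703 n703 c703.down b703.down

/-- 474464:603/1 -/
noncomputable def e704 : SCfg where
  D := {
    a := 6
    L := 8
    kp := 5
    inn := [(0, 1), (1, 0), (1, 2), (1, 3), (2, 1), (2, 4), (3, 1), (4, 2), (4, 5), (5, 4)]
    mix := [(0, 0), (0, 1), (0, 2), (1, 0), (1, 2), (1, 3), (1, 4), (2, 2), (2, 3), (3, 3), (3, 4), (3,
      5), (4, 2), (4, 3), (4, 6), (4, 7), (5, 1), (5, 2), (5, 6)]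
    cl := [0, 3, 1, 0, 2, 5, 4, 1]
    chq := []
    rng := [(0, 1), (0, 4), (1, 0), (1, 2), (1, 6), (2, 1), (3, 5), (3, 7), (4, 0), (4, 5), (5, 3), (5,
      4), (6, 1), (6, 7), (7, 3), (7, 6)]
    lev := [] }
  links := [[1, 6, 7, 8], [6, 0, 8, 2, 9, 3, 10], [9, 1, 8, 4], [10, 1, 9, 11], [9, 2, 8, 5, 12, 13],
    [12, 4, 8, 7]]
  P := {
    a := 6
    N := 14
    nb := [450, 1869, 786, 3586, 13092, 4496, 1155, 4449, 183, 10270, 2122, 1544, 8368, 4624]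
    tri := [(0, 1, 6), (0, 1, 8), (0, 6, 7), (0, 7, 8), (1, 2, 8), (1, 2, 9), (1, 3, 9), (1, 3, 10),
      (1, 6, 10), (2, 4, 8), (2, 4, 9), (3, 9, 11), (3, 10, 11), (4, 5, 8), (4, 5, 12), (4, 9,
      13), (4, 12, 13), (5, 7, 8), (5, 7, 12)]
    fin := [0, 0, 0, 0, 4, 5, 0, 5, 4, 0, 10, 11, 12, 4]
    chd := []
    steps := [(0, 1), (0, 2), (0, 3), (0, 6), (0, 9), (4, 8), (4, 13), (5, 7)] }
  rep := [0, 4, 10, 5, 12, 11]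

noncomputable def v704 : Cov.CovD where
  P := 3
  N := 3
  pl := [1, 4, 5, 6]
  lev := [⟨[], [], [(0, 1)], [3], [(0, 0, []), (2, 1, [])]⟩,
    ⟨[], [(0, 0), (0, 1)], [(0, 0), (0, 1)], [2], [(0, 0, []), (2, 1, []), (3, 0, [])]⟩,
    ⟨[(0, 1)], [(0, 1), (1, 0), (1, 1)], [(0, 1)], [], [(2, 1, []), (3, 0, [])]⟩,
    ⟨[(0, 1), (1, 2)], [(1, 0), (1, 1), (2, 0)], [], [2, 5], [(3, 0, [])]⟩,
    ⟨[(1, 2)], [(0, 1), (1, 0), (1, 1), (2, 0), (2, 1), (3, 0)], [(0, 1), (1, 1)], [4],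
      [(2, 1, []), (3, 0, []), (7, 1, [])]⟩,
    ⟨[(2, 4)], [(0, 1), (1, 1), (2, 1), (4, 0), (4, 1)], [], [3, 4], [(2, 1, [])]⟩]
  Ta := [((0, 1), 0, 3), ((0, 4), 0, 2), ((2, 1), 1, 3), ((3, 5), 0, 5), ((3, 7), 0, 1), ((7, 3),
    1, 0), ((7, 6), 1, 4)]
  Tb := [((0, 1, 4), 0, 3, 2), ((1, 0, 2), 3, 0, 1), ((1, 0, 6), 3, 0, 4), ((1, 2, 6), 3, 1, 4),
    ((3, 5, 7), 0, 5, 1), ((4, 0, 5), 2, 0, 5), ((5, 3, 4), 5, 0, 2), ((6, 1, 7), 4, 3, 1),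
    ((7, 3, 6), 1, 0, 4)]
  Tc := []
  Td := []
  G := [[0, 0, 0x81c81c61814c14ca14c, 0x81c14814c184c, 0x81c148441181c8c], [0, 0, 0x1dc95cc182,
    0x541981c42, 0x541981c82], [0, 0, 0, 0xd1cd1cc481, 0xd1cd1ca481], [0,
    0x11c116c2411641ac28c, 0, 0x21c12cc481, 0x21c12ca481]]

noncomputable def n704 : Ent := ⟨e704, noF, [], [], [(13, 11, [18394811281478977149262555032661714881264703900882825217, 0])]⟩

def c704 : PLift (Cov.check n704.C.D v704 = true) := ⟨by decide +kernel⟩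

def b704 : PLift (entF (fidx ts) 400 704 n704 = true) := ⟨by decide +kernel⟩

theorem g704 : GoodF (fidx ts) 400 704 := GoodF.ofV v704 n704 c704.down b704.down

/-- 474464:603/3 -/
noncomputable def e705 : SCfg where
  D := {
    a := 6
    L := 8
    kp := 5
    inn := [(0, 1), (1, 0), (1, 2), (1, 3), (2, 1), (2, 4), (3, 1), (4, 2), (4, 5), (5, 4)]
    mix := [(0, 0), (0, 1), (0, 2), (1, 0), (1, 2), (1, 3), (1, 4), (2, 2), (2, 3), (3, 3), (3, 4), (3,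
      5), (4, 2), (4, 3), (4, 5), (4, 6), (5, 2), (5, 6), (5, 7)]
    cl := [1, 4, 0, 1, 2, 0, 3, 5]
    chq := []
    rng := [(0, 1), (0, 4), (1, 0), (1, 2), (2, 1), (2, 7), (3, 5), (4, 0), (4, 5), (5, 3), (5, 4), (5,
      6), (6, 5), (6, 7), (7, 2), (7, 6)]
    lev := [] }
  links := [[1, 6, 7, 8], [6, 0, 8, 2, 9, 3, 10], [9, 1, 8, 4], [10, 1, 9, 11], [9, 2, 8, 5, 12, 11],
    [12, 4, 8, 13]]
  P := {
    a := 6
    N := 14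
    nb := [450, 1869, 786, 3586, 6948, 12560, 1155, 321, 8375, 2078, 2122, 5656, 10288, 4384]
    tri := [(0, 1, 6), (0, 1, 8), (0, 6, 7), (0, 7, 8), (1, 2, 8), (1, 2, 9), (1, 3, 9), (1, 3, 10),
      (1, 6, 10), (2, 4, 8), (2, 4, 9), (3, 9, 11), (3, 10, 11), (4, 5, 8), (4, 5, 12), (4, 9,
      11), (4, 11, 12), (5, 8, 13), (5, 12, 13)]
    fin := [0, 0, 0, 0, 4, 4, 0, 7, 4, 0, 10, 4, 12, 13]
    chd := []
    steps := [(0, 1), (0, 2), (0, 3), (0, 6), (0, 9), (4, 5), (4, 8), (4, 11)] }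
  rep := [4, 0, 10, 12, 7, 13]

noncomputable def v705 : Cov.CovD where
  P := 3
  N := 3
  pl := [1, 4, 6, 7]
  lev := [⟨[], [], [(0, 1)], [4], [(0, 1, []), (2, 0, [])]⟩,
    ⟨[], [(0, 0), (0, 1)], [(0, 1), (1, 1)], [2], [(0, 1, []), (2, 0, []), (3, 1, [])]⟩,
    ⟨[(0, 1)], [(0, 0), (1, 0), (1, 1)], [(0, 1)], [], [(2, 0, []), (3, 1, [])]⟩,
    ⟨[(0, 1), (1, 2)], [(1, 0), (1, 1), (2, 1)], [(0, 1)], [2], [(3, 1, []), (5, 0, [])]⟩,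
    ⟨[(1, 2)], [(0, 0), (1, 0), (1, 1), (2, 0), (2, 1), (3, 0), (3, 1)], [(0, 0), (0, 1)],
      [3], [(2, 0, []), (3, 1, []), (5, 0, [])]⟩,
    ⟨[(2, 4)], [(0, 0), (1, 0), (2, 0), (4, 0), (4, 1)], [], [3, 5], [(2, 0, [])]⟩]
  Ta := [((0, 1), 1, 4), ((0, 4), 1, 2), ((2, 1), 0, 4), ((2, 7), 0, 5), ((3, 5), 1, 0), ((5, 3),
    0, 1), ((5, 4), 0, 2), ((5, 6), 0, 3)]
  Tb := [((0, 1, 4), 1, 4, 2), ((1, 0, 2), 4, 1, 0), ((2, 1, 7), 0, 4, 5), ((4, 0, 5), 2, 1, 0),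
    ((5, 3, 4), 0, 1, 2), ((5, 3, 6), 0, 1, 3), ((5, 4, 6), 0, 2, 3), ((6, 5, 7), 3, 0, 5),
    ((7, 2, 6), 5, 0, 3)]
  Tc := []
  Td := []
  G := [[0, 0, 0, 0x2e8e484a6c824c, 0xa6c128a6c128c], [0, 0, 0, 0, 0x641a81c82], [0, 0,
    0xa6c8281, 0xa6c8281, 0xa6c8281], [0, 0x11a42811c884a, 0x11c4482, 0, 0x648a88c12]]

noncomputable def n705 : Ent := ⟨e705, noF, [], [], [(7, 13, [18394062992640663726968434746027364144358640063420821505, 0])]⟩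

def c705 : PLift (Cov.check n705.C.D v705 = true) := ⟨by decide +kernel⟩

def b705 : PLift (entF (fidx ts) 400 705 n705 = true) := ⟨by decide +kernel⟩

theorem g705 : GoodF (fidx ts) 400 705 := GoodF.ofV v705 n705 c705.down b705.down

/-- 474464:603 -/
noncomputable def e706 : SCfg where
  D := {
    a := 6
    L := 9
    kp := 7
    inn := [(0, 1), (1, 0), (1, 2), (1, 3), (2, 1), (2, 4), (3, 1), (4, 2), (4, 5), (5, 4)]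
    mix := [(0, 0), (0, 1), (0, 2), (1, 0), (1, 2), (1, 3), (1, 4), (2, 2), (2, 3), (3, 3), (3, 4), (3,
      5), (4, 2), (4, 3), (4, 6), (4, 7), (5, 2), (5, 6), (5, 8)]
    cl := [1, 5, 0, 0, 2, 4, 3, 6, 7]
    chq := [(0, 1), (0, 3), (1, 0), (1, 4), (3, 0), (4, 1)]
    rng := [(0, 1), (0, 4), (1, 0), (1, 2), (2, 1), (2, 8), (3, 5), (3, 7), (4, 0), (4, 5), (5, 3), (5,
      4), (6, 7), (6, 8), (7, 3), (7, 6), (8, 2), (8, 6)]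
    lev := [] }
  links := [[1, 6, 7, 8], [6, 0, 8, 2, 9, 3, 10], [9, 1, 8, 4], [10, 1, 9, 11], [9, 2, 8, 5, 12, 13],
    [12, 4, 8, 14]]
  P := {
    a := 6
    N := 15
    nb := [450, 1869, 786, 3586, 13092, 20752, 1155, 321, 16567, 10270, 2122, 1544, 24624, 4624, 4384]
    tri := [(0, 1, 6), (0, 1, 8), (0, 6, 7), (0, 7, 8), (1, 2, 8), (1, 2, 9), (1, 3, 9), (1, 3, 10),
      (1, 6, 10), (2, 4, 8), (2, 4, 9), (3, 9, 11), (3, 10, 11), (4, 5, 8), (4, 5, 12), (4, 9,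
      13), (4, 12, 13), (5, 8, 14), (5, 12, 14)]
    fin := [0, 0, 0, 0, 4, 4, 0, 7, 4, 4, 10, 11, 12, 13, 14]
    chd := [(0, 4), (0, 11), (4, 12)]
    steps := [(0, 1), (0, 2), (0, 3), (0, 6), (4, 5), (4, 8), (4, 9)] }
  rep := [4, 0, 10, 12, 11, 7, 13, 14]

noncomputable def v706 : Cov.CovD where
  P := 3
  N := 5
  pl := [1, 4, 7, 8]
  lev := [⟨[], [], [(0, 1)], [5], [(0, 1, [0, 4]), (2, 0, [1, 3])]⟩,
    ⟨[], [(0, 0), (0, 1)], [(0, 0), (0, 1)], [2], [(0, 1, [0, 4]), (2, 0, [1, 3]), (3, 0,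
      [1, 3])]⟩,
    ⟨[(0, 1)], [(0, 0), (1, 0), (1, 1)], [(0, 0)], [], [(2, 0, [1, 3]), (3, 0, [1, 3])]⟩,
    ⟨[(0, 1), (1, 2)], [(1, 0), (1, 1), (1, 4), (2, 0)], [(0, 4)], [2], [(3, 0, [1, 3]),
      (5, 4, [1])]⟩,
    ⟨[(1, 2)], [(0, 0), (1, 0), (2, 0), (2, 3), (3, 0)], [(0, 0), (0, 3)], [6], [(2, 0, [1,
      3]), (3, 0, [1, 3]), (6, 3, [0])]⟩,
    ⟨[(2, 4)], [(0, 0), (1, 0), (2, 0), (4, 0), (4, 3)], [(0, 3)], [7], [(2, 0, [1, 3]),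
      (6, 3, [0])]⟩]
  Ta := [((2, 1), 0, 5), ((2, 8), 0, 7), ((3, 5), 0, 4), ((3, 7), 0, 6)]
  Tb := [((0, 1, 4), 1, 5, 2), ((1, 0, 2), 5, 1, 0), ((2, 1, 8), 0, 5, 7), ((3, 5, 7), 0, 4, 6),
    ((4, 0, 5), 2, 1, 4), ((5, 3, 4), 4, 0, 2), ((6, 7, 8), 3, 6, 7), ((7, 3, 6), 6, 0, 3),
    ((8, 2, 6), 7, 0, 3)]
  Tc := [(0, 1, 3), (1, 0, 4)]
  Td := [((0, 1), (2, 1), 5), ((0, 1), (2, 8), 7), ((0, 1), (3, 5), 4), ((0, 1), (3, 7), 6), ((0,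
    3), (2, 1), 5), ((0, 3), (2, 8), 7), ((0, 3), (3, 5), 4), ((0, 3), (3, 7), 6), ((1, 0),
    (0, 1), 5), ((1, 0), (0, 4), 2), ((1, 4), (0, 1), 5), ((1, 4), (0, 4), 2), ((3, 0), (6,
    7), 6), ((3, 0), (6, 8), 7), ((4, 1), (5, 3), 0), ((4, 1), (5, 4), 2)]
  G := [[0, 0x111e128111e184c, 0xe42eea2c4e22eec2a4c, 0xe21eec168ee61e81a8c,
    0xeea2e4268ee62e82c8c], [0, 0x111e184111e1846, 0xeea2e42641, 0x224e28eeceecece41,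
    0xe22eec2a81]]

noncomputable def n706 : Ent := ⟨e706, noF, [], [], [(7, 14, [81620716623019490593592230936445690773474979418095886270465, 0]), (13, 11, [87897819106695009670850314479939991540314240926397382791169, 0])]⟩

def c706 : PLift (Cov.check n706.C.D v706 = true) := ⟨by decide +kernel⟩

def b706 : PLift (entF (fidx ts) 400 706 n706 = true) := ⟨by decide +kernel⟩

theorem g706 : GoodF (fidx ts) 400 706 := GoodF.ofV v706 n706 c706.down b706.down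

/-- 458646:610 -/
noncomputable def e707 : SCfg where
  D := {
    a := 6
    L := 10
    kp := 7
    inn := [(0, 1), (0, 2), (1, 0), (1, 2), (1, 3), (1, 5), (2, 0), (2, 1), (2, 4), (2, 5), (3, 1), (3,
      5), (4, 2), (5, 1), (5, 2), (5, 3)]
    mix := [(0, 0), (0, 1), (1, 1), (2, 0), (2, 2), (2, 3), (2, 4), (3, 1), (3, 5), (3, 6), (3, 7), (4,
      2), (4, 3), (4, 8), (5, 2), (5, 7), (5, 9)]
    cl := [1, 3, 0, 2, 0, 5, 6, 3, 7, 4]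
    chq := [(1, 4), (4, 1)]
    rng := [(0, 1), (0, 4), (1, 0), (1, 5), (2, 8), (2, 9), (3, 4), (3, 8), (4, 0), (4, 3), (5, 1), (5,
      6), (6, 5), (6, 7), (7, 6), (7, 9), (8, 2), (8, 3), (9, 2), (9, 7)]
    lev := [] }
  links := [[1, 2, 6, 7], [2, 0, 7, 3, 5], [6, 0, 1, 5, 8, 4, 9, 10], [5, 1, 7, 11, 12, 13], [9, 2, 8,
    14], [8, 2, 1, 3, 13, 15]]
  P := {
    a := 6
    N := 16
    nb := [198, 173, 1907, 14498, 17156, 41230, 1157, 2123, 49204, 17428, 580, 4232, 10248, 36904,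
      784, 8480]
    tri := [(0, 1, 2), (0, 1, 7), (0, 2, 6), (0, 6, 7), (1, 2, 5), (1, 3, 5), (1, 3, 7), (2, 4, 8), (2,
      4, 9), (2, 5, 8), (2, 6, 10), (2, 9, 10), (3, 5, 13), (3, 7, 11), (3, 11, 12), (3, 12, 13),
      (4, 8, 14), (4, 9, 14), (5, 8, 15), (5, 13, 15)]
    fin := [0, 0, 2, 3, 2, 0, 0, 3, 2, 9, 2, 11, 12, 3, 14, 15]
    chd := [(0, 15)]
    steps := [(0, 1), (0, 5), (0, 6), (2, 4), (2, 8), (2, 10), (3, 7), (3, 13)] }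
  rep := [2, 0, 9, 3, 15, 11, 12, 14]

noncomputable def v707 : Cov.CovD where
  P := 3
  N := 5
  pl := [3, 5, 6, 8]
  lev := [⟨[], [], [(1, 3)], [], [(0, 1, [4]), (1, 3, [])]⟩,
    ⟨[], [(0, 1), (0, 3)], [], [], [(1, 3, [])]⟩,
    ⟨[(0, 1)], [(0, 0), (0, 1), (0, 3), (1, 0), (1, 1), (1, 3)], [(0, 0), (0, 1)], [2],
      [(0, 1, [4]), (2, 0, []), (4, 0, [])]⟩,
    ⟨[(0, 1), (1, 2)], [(0, 3), (1, 3)], [(3, 3)], [5, 6], [(1, 3, []), (7, 3, [])]⟩,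
    ⟨[(0, 2), (1, 2)], [(2, 0), (2, 1)], [], [2, 7], [(2, 0, [])]⟩,
    ⟨[(0, 1), (0, 2), (1, 2), (1, 3), (2, 3), (2, 4)], [(1, 0), (1, 3), (1, 4), (2, 0), (2,
      1), (2, 3), (2, 4), (3, 0), (3, 3), (3, 4), (4, 0)], [(0, 3), (0, 4), (3, 4)], [], [(2,
      0, []), (7, 3, []), (9, 4, [1])]⟩]
  Ta := [((1, 0), 3, 1), ((1, 5), 3, 5), ((2, 8), 0, 7), ((2, 9), 0, 4), ((4, 0), 0, 1), ((4, 3),
    0, 2), ((7, 6), 3, 6), ((7, 9), 3, 4)]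
  Tb := [((0, 1, 4), 1, 3, 0), ((1, 0, 5), 3, 1, 5), ((2, 8, 9), 0, 7, 4), ((3, 4, 8), 2, 0, 7),
    ((4, 0, 3), 0, 1, 2), ((5, 1, 6), 5, 3, 6), ((6, 5, 7), 6, 5, 3), ((7, 6, 9), 3, 6, 4),
    ((8, 2, 3), 7, 0, 2), ((9, 2, 7), 4, 0, 3)]
  Tc := []
  Td := [((1, 4), (0, 1), 3), ((1, 4), (0, 4), 0), ((4, 1), (9, 2), 0), ((4, 1), (9, 7), 3)]
  G := [[0, 0, 0, 0x24428886c22c2ac22cb8c24122c289c44c288c4ca5,
    0x22a2aa22ab866a486822a48744a44a44ab825], [0, 0, 0, 0x22c22ceac22cf44428a1,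
    0x22a22a6ea22af882a14], [0, 0x612121d8181a181741a, 0x22a22a54226666a8c11a11c116886f429,
    0x414141b822148212198818164ec, 0x41614141f822121a84214121784d], [0, 0x11c11c11ce1f428,
    0x22a22cb7622cf481, 0x2121e121f481, 0x2121e121f841]]

noncomputable def n707 : Ent := ⟨e707, noF, [], [], []⟩

def c707 : PLift (Cov.check n707.C.D v707 = true) := ⟨by decide +kernel⟩

def b707 : PLift (entF (fidx ts) 400 707 n707 = true) := ⟨by decide +kernel⟩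

theorem g707 : GoodF (fidx ts) 400 707 := GoodF.ofV v707 n707 c707.down b707.down

/-- 458656:611/2 -/
noncomputable def e708 : SCfg where
  D := {
    a := 6
    L := 9
    kp := 6
    inn := [(0, 1), (0, 2), (1, 0), (1, 2), (1, 3), (1, 5), (2, 0), (2, 1), (2, 4), (2, 5), (3, 1), (3,
      5), (4, 2), (5, 1), (5, 2), (5, 3)]
    mix := [(0, 0), (0, 1), (1, 1), (2, 0), (2, 2), (2, 3), (2, 4), (3, 1), (3, 5), (3, 6), (3, 7), (4,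
      3), (4, 4), (4, 5), (4, 6), (5, 2), (5, 7), (5, 8)]
    cl := [0, 3, 2, 1, 1, 4, 5, 3, 6]
    chq := [(0, 2), (0, 6), (2, 0), (6, 0)]
    rng := [(0, 1), (0, 4), (1, 0), (1, 5), (2, 3), (2, 8), (3, 2), (3, 5), (4, 0), (4, 6), (5, 1), (5,
      3), (5, 6), (6, 4), (6, 5), (6, 7), (7, 6), (7, 8), (8, 2), (8, 7)]
    lev := [] }
  links := [[1, 2, 6, 7], [2, 0, 7, 3, 5], [6, 0, 1, 5, 8, 9, 4, 10], [5, 1, 7, 11, 12, 13], [10, 2, 9,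
    11, 12], [8, 2, 1, 3, 13, 14]]
  P := {
    a := 6
    N := 15
    nb := [198, 173, 1907, 14498, 7684, 24846, 1157, 2123, 16932, 2324, 4180, 4760, 11288, 20520,
      8480]
    tri := [(0, 1, 2), (0, 1, 7), (0, 2, 6), (0, 6, 7), (1, 2, 5), (1, 3, 5), (1, 3, 7), (2, 4, 9), (2,
      4, 10), (2, 5, 8), (2, 6, 10), (2, 8, 9), (3, 5, 13), (3, 7, 11), (3, 11, 12), (3, 12, 13),
      (4, 9, 11), (4, 10, 12), (4, 11, 12), (5, 8, 14), (5, 13, 14)]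
    fin := [0, 0, 0, 3, 4, 0, 0, 3, 8, 4, 4, 11, 12, 3, 14]
    chd := [(0, 8), (0, 14)]
    steps := [(0, 1), (0, 2), (0, 5), (0, 6), (3, 7), (3, 13), (4, 9), (4, 10)] }
  rep := [0, 4, 8, 3, 11, 12, 14]

noncomputable def v708 : Cov.CovD where
  P := 3
  N := 4
  pl := [5, 6]
  lev := [⟨[], [], [(0, 3)], [], [(0, 0, [2, 6]), (1, 3, [])]⟩,
    ⟨[], [(0, 0), (0, 3)], [], [], [(1, 3, [])]⟩,
    ⟨[(0, 1)], [(0, 0), (0, 1), (0, 2), (0, 3), (1, 0), (1, 1), (1, 2), (1, 3)], [(0, 1),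
      (0, 2), (1, 1), (1, 2)], [], [(0, 0, [2, 6]), (2, 2, [0]), (3, 1, []), (4, 1, [])]⟩,
    ⟨[(0, 1), (1, 2)], [(0, 3), (1, 3)], [(3, 3)], [4, 5], [(1, 3, []), (7, 3, [])]⟩,
    ⟨[(0, 2), (1, 2)], [(2, 0), (2, 1), (2, 2)], [(1, 1)], [4, 5], [(3, 1, []), (4, 1,
      [])]⟩,
    ⟨[(0, 1), (0, 2), (1, 2), (1, 3), (2, 3), (2, 4)], [(1, 2), (1, 3), (1, 6), (2, 0), (2,
      1), (2, 2), (2, 3), (2, 6), (3, 2), (3, 3), (3, 6)], [(2, 3), (2, 6), (3, 6)], [], [(2,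
      2, [0]), (7, 3, []), (8, 6, [0])]⟩]
  Ta := [((1, 0), 3, 0), ((1, 5), 3, 4), ((3, 2), 1, 2), ((3, 5), 1, 4), ((4, 0), 1, 0), ((4, 6),
    1, 5), ((7, 6), 3, 5), ((7, 8), 3, 6)]
  Tb := [((0, 1, 4), 0, 3, 1), ((1, 0, 5), 3, 0, 4), ((2, 3, 8), 2, 1, 6), ((3, 2, 5), 1, 2, 4),
    ((4, 0, 6), 1, 0, 5), ((5, 1, 3), 4, 3, 1), ((5, 1, 6), 4, 3, 5), ((5, 3, 6), 4, 1, 5),
    ((6, 4, 5), 5, 1, 4), ((6, 4, 7), 5, 1, 3), ((6, 5, 7), 5, 4, 3), ((7, 6, 8), 3, 5, 6),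
    ((8, 2, 7), 6, 2, 3)]
  Tc := [(0, 2, 6)]
  Td := [((0, 2), (0, 1), 3), ((0, 2), (0, 4), 1), ((0, 6), (0, 1), 3), ((0, 6), (0, 4), 1), ((2,
    0), (2, 3), 1), ((2, 0), (2, 8), 6), ((6, 0), (8, 2), 2), ((6, 0), (8, 7), 3)]
  G := [[0, 0, 0x1814a1b414488813cc1, 0x14515188c81128999d2456, 0x181831b8344851411531781888a6],
    [0, 0, 0x181411ce1f428, 0x181411cd1f428, 0x181411cb1f842], [0, 0x111e148111e182a,
    0x1814a1b414186811cc1, 0, 0x28343821f811111568189198a6], [0, 0x111e1824, 0x181411ce1f481,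
    0, 0x181411cb1f824]]

noncomputable def n708 : Ent := ⟨e708, noF, [], [], []⟩

def c708 : PLift (Cov.check n708.C.D v708 = true) := ⟨by decide +kernel⟩

def b708 : PLift (entF (fidx ts) 400 708 n708 = true) := ⟨by decide +kernel⟩

theorem g708 : GoodF (fidx ts) 400 708 := GoodF.ofV v708 n708 c708.down b708.down

/-- 458656:611/1 -/
noncomputable def e709 : SCfg where
  D := {
    a := 6
    L := 10
    kp := 7
    inn := [(0, 1), (0, 2), (1, 0), (1, 2), (1, 3), (1, 5), (2, 0), (2, 1), (2, 4), (2, 5), (3, 1), (3,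
      5), (4, 2), (5, 1), (5, 2), (5, 3)]
    mix := [(0, 0), (0, 1), (1, 1), (2, 0), (2, 2), (2, 3), (2, 4), (3, 1), (3, 5), (3, 6), (3, 7), (4,
      3), (4, 4), (4, 5), (4, 8), (5, 2), (5, 7), (5, 9)]
    cl := [0, 3, 2, 1, 1, 4, 6, 3, 7, 5]
    chq := [(0, 2), (0, 5), (2, 0), (5, 0)]
    rng := [(0, 1), (0, 4), (1, 0), (1, 5), (2, 3), (2, 9), (3, 2), (3, 5), (4, 0), (4, 8), (5, 1), (5,
      3), (5, 6), (5, 8), (6, 5), (6, 7), (7, 6), (7, 9), (8, 4), (8, 5), (9, 2), (9, 7)]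
    lev := [] }
  links := [[1, 2, 6, 7], [2, 0, 7, 3, 5], [6, 0, 1, 5, 8, 9, 4, 10], [5, 1, 7, 11, 12, 13], [10, 2, 9,
    11, 14], [8, 2, 1, 3, 13, 15]]
  P := {
    a := 6
    N := 16
    nb := [198, 173, 1907, 14498, 19972, 41230, 1157, 2123, 33316, 2324, 16468, 21144, 10248, 36904,
      3088, 8480]
    tri := [(0, 1, 2), (0, 1, 7), (0, 2, 6), (0, 6, 7), (1, 2, 5), (1, 3, 5), (1, 3, 7), (2, 4, 9), (2,
      4, 10), (2, 5, 8), (2, 6, 10), (2, 8, 9), (3, 5, 13), (3, 7, 11), (3, 11, 12), (3, 12, 13),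
      (4, 9, 11), (4, 10, 14), (4, 11, 14), (5, 8, 15), (5, 13, 15)]
    fin := [0, 0, 2, 3, 4, 0, 0, 3, 8, 2, 2, 4, 12, 3, 14, 15]
    chd := [(0, 8), (0, 15)]
    steps := [(0, 1), (0, 5), (0, 6), (2, 9), (2, 10), (3, 7), (3, 13), (4, 11)] }
  rep := [0, 2, 8, 3, 4, 15, 12, 14]

noncomputable def v709 : Cov.CovD where
  P := 3
  N := 5
  pl := [5, 6, 8]
  lev := [⟨[], [], [(0, 3)], [], [(0, 0, [2, 5]), (1, 3, [])]⟩,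
    ⟨[], [(0, 0), (0, 3)], [], [], [(1, 3, [])]⟩,
    ⟨[(0, 1)], [(0, 0), (0, 1), (0, 2), (0, 3), (1, 0), (1, 1), (1, 2), (1, 3)], [(0, 1),
      (0, 2), (1, 1), (1, 2)], [], [(0, 0, [2, 5]), (2, 2, [0]), (3, 1, []), (4, 1, [])]⟩,
    ⟨[(0, 1), (1, 2)], [(0, 3), (1, 3)], [(3, 3)], [4, 6], [(1, 3, []), (7, 3, [])]⟩,
    ⟨[(0, 2), (1, 2)], [(2, 0), (2, 1), (2, 2)], [(1, 1)], [4, 7], [(3, 1, []), (4, 1,
      [])]⟩,
    ⟨[(0, 1), (0, 2), (1, 2), (1, 3), (2, 3), (2, 4)], [(1, 2), (1, 3), (1, 5), (2, 0), (2,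
      1), (2, 2), (2, 3), (2, 5), (3, 2), (3, 3), (3, 5)], [(2, 3), (2, 5), (3, 5)], [], [(2,
      2, [0]), (7, 3, []), (9, 5, [0])]⟩]
  Ta := [((1, 0), 3, 0), ((1, 5), 3, 4), ((3, 2), 1, 2), ((3, 5), 1, 4), ((4, 0), 1, 0), ((4, 8),
    1, 7), ((7, 6), 3, 6), ((7, 9), 3, 5)]
  Tb := [((0, 1, 4), 0, 3, 1), ((1, 0, 5), 3, 0, 4), ((2, 3, 9), 2, 1, 5), ((3, 2, 5), 1, 2, 4),
    ((4, 0, 8), 1, 0, 7), ((5, 1, 3), 4, 3, 1), ((5, 1, 6), 4, 3, 6), ((5, 1, 8), 4, 3, 7),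
    ((5, 3, 6), 4, 1, 6), ((5, 3, 8), 4, 1, 7), ((5, 6, 8), 4, 6, 7), ((6, 5, 7), 6, 4, 3),
    ((7, 6, 9), 3, 6, 5), ((8, 4, 5), 7, 1, 4), ((9, 2, 7), 5, 2, 3)]
  Tc := [(0, 2, 5)]
  Td := [((0, 2), (0, 1), 3), ((0, 2), (0, 4), 1), ((0, 5), (0, 1), 3), ((0, 5), (0, 4), 1), ((2,
    0), (2, 3), 1), ((2, 0), (2, 9), 5), ((5, 0), (9, 2), 2), ((5, 0), (9, 7), 3)]
  G := [[0, 0, 0x111d84111d622d58111d44538e1, 0x18111da454445983115145119189c14111d689888954bc,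
    0x222d322d222dd81115281828111d115199dd8333d28f6], [0, 0, 0xe41111d111d111dee9fc21,
    0x111d111d111d59ddf842, 0x111d111d111d19bdfa81924], [0,
    0x11a111e98111e48541c111e444eb816, 0x111da2594111d6858111d8134e1, 0,
    0x115481153353834887119111d323db833c4853838a81e], [0, 0x111e111e111e111ef824,
    0x111d111d111d6eedf881c24, 0, 0x111d111d111d39bdf881942]]

noncomputable def n709 : Ent := ⟨e709, noF, [], [], [(12, 14, [385746751338780685620664494392815470296102193487288376375394305, 0])]⟩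

def c709 : PLift (Cov.check n709.C.D v709 = true) := ⟨by decide +kernel⟩

def b709 : PLift (entF (fidx ts) 400 709 n709 = true) := ⟨by decide +kernel⟩

theorem g709 : GoodF (fidx ts) 400 709 := GoodF.ofV v709 n709 c709.down b709.down

/-- 458656:611/4 -/
noncomputable def e710 : SCfg where
  D := {
    a := 6
    L := 9
    kp := 6
    inn := [(0, 1), (0, 2), (1, 0), (1, 2), (1, 3), (1, 5), (2, 0), (2, 1), (2, 4), (2, 5), (3, 1), (3,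
      5), (4, 2), (5, 1), (5, 2), (5, 3)]
    mix := [(0, 0), (0, 1), (1, 1), (2, 0), (2, 2), (2, 3), (2, 4), (3, 1), (3, 5), (3, 6), (3, 7), (4,
      3), (4, 4), (4, 5), (4, 6), (5, 2), (5, 7), (5, 8)]
    cl := [0, 3, 2, 1, 1, 4, 5, 3, 6]
    chq := [(0, 2), (0, 6), (2, 0), (6, 0)]
    rng := [(0, 1), (0, 4), (1, 0), (1, 5), (2, 3), (2, 8), (3, 2), (3, 6), (4, 0), (4, 5), (5, 1), (5,
      4), (5, 6), (6, 3), (6, 5), (6, 7), (7, 6), (7, 8), (8, 2), (8, 7)]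
    lev := [] }
  links := [[1, 2, 6, 7], [2, 0, 7, 3, 5], [6, 0, 1, 5, 8, 9, 4, 10], [5, 1, 7, 11, 12, 13], [10, 2, 9,
    12, 11], [8, 2, 1, 3, 13, 14]]
  P := {
    a := 6
    N := 15
    nb := [198, 173, 1907, 14498, 7684, 24846, 1157, 2123, 16932, 4372, 2132, 5272, 10776, 20520,
      8480]
    tri := [(0, 1, 2), (0, 1, 7), (0, 2, 6), (0, 6, 7), (1, 2, 5), (1, 3, 5), (1, 3, 7), (2, 4, 9), (2,
      4, 10), (2, 5, 8), (2, 6, 10), (2, 8, 9), (3, 5, 13), (3, 7, 11), (3, 11, 12), (3, 12, 13),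
      (4, 9, 12), (4, 10, 11), (4, 11, 12), (5, 8, 14), (5, 13, 14)]
    fin := [0, 0, 0, 3, 4, 0, 0, 3, 8, 4, 4, 11, 12, 3, 14]
    chd := [(0, 8), (0, 14)]
    steps := [(0, 1), (0, 2), (0, 5), (0, 6), (3, 7), (3, 13), (4, 9), (4, 10)] }
  rep := [0, 4, 8, 3, 11, 12, 14]

noncomputable def v710 : Cov.CovD where
  P := 3
  N := 4
  pl := [5, 6]
  lev := [⟨[], [], [(0, 3)], [], [(0, 0, [2, 6]), (1, 3, [])]⟩,
    ⟨[], [(0, 0), (0, 3)], [], [], [(1, 3, [])]⟩,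
    ⟨[(0, 1)], [(0, 0), (0, 1), (0, 2), (0, 3), (1, 0), (1, 1), (1, 2), (1, 3)], [(0, 1),
      (0, 2), (1, 1), (1, 2)], [], [(0, 0, [2, 6]), (2, 2, [0]), (3, 1, []), (4, 1, [])]⟩,
    ⟨[(0, 1), (1, 2)], [(0, 3), (1, 3)], [(3, 3)], [4, 5], [(1, 3, []), (7, 3, [])]⟩,
    ⟨[(0, 2), (1, 2)], [(2, 0), (2, 1), (2, 2)], [(1, 1)], [4, 5], [(3, 1, []), (4, 1,
      [])]⟩,
    ⟨[(0, 1), (0, 2), (1, 2), (1, 3), (2, 3), (2, 4)], [(1, 2), (1, 3), (1, 6), (2, 0), (2,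
      1), (2, 2), (2, 3), (2, 6), (3, 2), (3, 3), (3, 6)], [(2, 3), (2, 6), (3, 6)], [], [(2,
      2, [0]), (7, 3, []), (8, 6, [0])]⟩]
  Ta := [((1, 0), 3, 0), ((1, 5), 3, 4), ((3, 2), 1, 2), ((3, 6), 1, 5), ((4, 0), 1, 0), ((4, 5),
    1, 4), ((7, 6), 3, 5), ((7, 8), 3, 6)]
  Tb := [((0, 1, 4), 0, 3, 1), ((1, 0, 5), 3, 0, 4), ((2, 3, 8), 2, 1, 6), ((3, 2, 6), 1, 2, 5),
    ((4, 0, 5), 1, 0, 4), ((5, 1, 4), 4, 3, 1), ((5, 1, 6), 4, 3, 5), ((5, 4, 6), 4, 1, 5),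
    ((6, 3, 5), 5, 1, 4), ((6, 3, 7), 5, 1, 3), ((6, 5, 7), 5, 4, 3), ((7, 6, 8), 3, 5, 6),
    ((8, 2, 7), 6, 2, 3)]
  Tc := [(0, 2, 6)]
  Td := [((0, 2), (0, 1), 3), ((0, 2), (0, 4), 1), ((0, 6), (0, 1), 3), ((0, 6), (0, 4), 1), ((2,
    0), (2, 3), 1), ((2, 0), (2, 8), 6), ((6, 0), (8, 2), 2), ((6, 0), (8, 7), 3)]
  G := [[0, 0, 0x44413188c14186178c1, 0x14418819c411851192845c285a,
    0x24481811921b8c1428181491d8a6], [0, 0, 0x181411ce1f842, 0x181411cd1f842,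
    0x181411cb1f824], [0, 0x111e142111e184c, 0x188414215814c4138e1, 0,
    0x282421d81142811928181491d8e6], [0, 0x111e1842, 0x181411ce1f842, 0, 0x181411cb1f824]]

noncomputable def n710 : Ent := ⟨e710, noF, [], [], []⟩

def c710 : PLift (Cov.check n710.C.D v710 = true) := ⟨by decide +kernel⟩

def b710 : PLift (entF (fidx ts) 400 710 n710 = true) := ⟨by decide +kernel⟩

theorem g710 : GoodF (fidx ts) 400 710 := GoodF.ofV v710 n710 c710.down b710.down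

/-- 458656:611/3 -/
noncomputable def e711 : SCfg where
  D := {
    a := 6
    L := 10
    kp := 7
    inn := [(0, 1), (0, 2), (1, 0), (1, 2), (1, 3), (1, 5), (2, 0), (2, 1), (2, 4), (2, 5), (3, 1), (3,
      5), (4, 2), (5, 1), (5, 2), (5, 3)]
    mix := [(0, 0), (0, 1), (1, 1), (2, 0), (2, 2), (2, 3), (2, 4), (3, 1), (3, 5), (3, 6), (3, 7), (4,
      3), (4, 4), (4, 5), (4, 8), (5, 2), (5, 7), (5, 9)]
    cl := [0, 3, 2, 1, 1, 4, 6, 3, 7, 5]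
    chq := [(0, 2), (0, 5), (2, 0), (5, 0)]
    rng := [(0, 1), (0, 4), (1, 0), (1, 5), (2, 3), (2, 9), (3, 2), (3, 8), (4, 0), (4, 5), (5, 1), (5,
      4), (5, 6), (5, 8), (6, 5), (6, 7), (7, 6), (7, 9), (8, 3), (8, 5), (9, 2), (9, 7)]
    lev := [] }
  links := [[1, 2, 6, 7], [2, 0, 7, 3, 5], [6, 0, 1, 5, 8, 9, 4, 10], [5, 1, 7, 11, 12, 13], [10, 2, 9,
    14, 11], [8, 2, 1, 3, 13, 15]]
  P := {
    a := 6
    N := 16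
    nb := [198, 173, 1907, 14498, 19972, 41230, 1157, 2123, 33316, 16660, 2132, 21656, 10248, 36904,
      2576, 8480]
    tri := [(0, 1, 2), (0, 1, 7), (0, 2, 6), (0, 6, 7), (1, 2, 5), (1, 3, 5), (1, 3, 7), (2, 4, 9), (2,
      4, 10), (2, 5, 8), (2, 6, 10), (2, 8, 9), (3, 5, 13), (3, 7, 11), (3, 11, 12), (3, 12, 13),
      (4, 9, 14), (4, 10, 11), (4, 11, 14), (5, 8, 15), (5, 13, 15)]
    fin := [0, 0, 2, 3, 4, 0, 0, 3, 8, 2, 2, 4, 12, 3, 14, 15]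
    chd := [(0, 8), (0, 15)]
    steps := [(0, 1), (0, 5), (0, 6), (2, 9), (2, 10), (3, 7), (3, 13), (4, 11)] }
  rep := [0, 2, 8, 3, 4, 15, 12, 14]

noncomputable def v711 : Cov.CovD where
  P := 3
  N := 5
  pl := [5, 6, 8]
  lev := [⟨[], [], [(0, 3)], [], [(0, 0, [2, 5]), (1, 3, [])]⟩,
    ⟨[], [(0, 0), (0, 3)], [], [], [(1, 3, [])]⟩,
    ⟨[(0, 1)], [(0, 0), (0, 1), (0, 2), (0, 3), (1, 0), (1, 1), (1, 2), (1, 3)], [(0, 1),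
      (0, 2), (1, 1), (1, 2)], [], [(0, 0, [2, 5]), (2, 2, [0]), (3, 1, []), (4, 1, [])]⟩,
    ⟨[(0, 1), (1, 2)], [(0, 3), (1, 3)], [(3, 3)], [4, 6], [(1, 3, []), (7, 3, [])]⟩,
    ⟨[(0, 2), (1, 2)], [(2, 0), (2, 1), (2, 2)], [(1, 1)], [4, 7], [(3, 1, []), (4, 1,
      [])]⟩,
    ⟨[(0, 1), (0, 2), (1, 2), (1, 3), (2, 3), (2, 4)], [(1, 2), (1, 3), (1, 5), (2, 0), (2,
      1), (2, 2), (2, 3), (2, 5), (3, 2), (3, 3), (3, 5)], [(2, 3), (2, 5), (3, 5)], [], [(2,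
      2, [0]), (7, 3, []), (9, 5, [0])]⟩]
  Ta := [((1, 0), 3, 0), ((1, 5), 3, 4), ((3, 2), 1, 2), ((3, 8), 1, 7), ((4, 0), 1, 0), ((4, 5),
    1, 4), ((7, 6), 3, 6), ((7, 9), 3, 5)]
  Tb := [((0, 1, 4), 0, 3, 1), ((1, 0, 5), 3, 0, 4), ((2, 3, 9), 2, 1, 5), ((3, 2, 8), 1, 2, 7),
    ((4, 0, 5), 1, 0, 4), ((5, 1, 4), 4, 3, 1), ((5, 1, 6), 4, 3, 6), ((5, 1, 8), 4, 3, 7),
    ((5, 4, 6), 4, 1, 6), ((5, 4, 8), 4, 1, 7), ((5, 6, 8), 4, 6, 7), ((6, 5, 7), 6, 4, 3),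
    ((7, 6, 9), 3, 6, 5), ((8, 3, 5), 7, 1, 4), ((9, 2, 7), 5, 2, 3)]
  Tc := [(0, 2, 5)]
  Td := [((0, 2), (0, 1), 3), ((0, 2), (0, 4), 1), ((0, 5), (0, 1), 3), ((0, 5), (0, 4), 1), ((2,
    0), (2, 3), 1), ((2, 0), (2, 9), 5), ((5, 0), (9, 2), 2), ((5, 0), (9, 7), 3)]
  G := [[0, 0, 0x111da494112d4a291c111d4138e1, 0x18111da454445983115145119189c14111d689888954bc,
    0x11548221d111d222db833c48d1152811c199d983828b6], [0, 0, 0x441111d111d111deaedfc28,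
    0x111d111d111d59ddf824, 0x111d111d111d39bdf881942], [0,
    0x111e841111e18111e485141e444e381e, 0x112d2a2d94111d48111d88934e1, 0,
    0x122d222d98322d48511528115111d68111d199d983828f6], [0, 0x111e111e111e111ef842,
    0x441111d111d111deaedfc28, 0, 0x111d111d111d39bdf881924]]

noncomputable def n711 : Ent := ⟨e711, noF, [], [], [(12, 14, [385746751338780685620664494392815470296102193487288376375402497, 0])]⟩

def c711 : PLift (Cov.check n711.C.D v711 = true) := ⟨by decide +kernel⟩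

def b711 : PLift (entF (fidx ts) 400 711 n711 = true) := ⟨by decide +kernel⟩

theorem g711 : GoodF (fidx ts) 400 711 := GoodF.ofV v711 n711 c711.down b711.down

/-- 458656:611/5 -/
noncomputable def e712 : SCfg where
  D := {
    a := 6
    L := 10
    kp := 7
    inn := [(0, 1), (0, 2), (1, 0), (1, 2), (1, 3), (1, 5), (2, 0), (2, 1), (2, 4), (2, 5), (3, 1), (3,
      5), (4, 2), (5, 1), (5, 2), (5, 3)]
    mix := [(0, 0), (0, 1), (1, 1), (2, 0), (2, 2), (2, 3), (2, 4), (3, 1), (3, 5), (3, 6), (3, 7), (4,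
      3), (4, 4), (4, 6), (4, 8), (5, 2), (5, 7), (5, 9)]
    cl := [0, 3, 2, 1, 1, 6, 4, 3, 7, 5]
    chq := [(0, 2), (0, 5), (2, 0), (5, 0)]
    rng := [(0, 1), (0, 4), (1, 0), (1, 5), (2, 3), (2, 9), (3, 2), (3, 6), (4, 0), (4, 8), (5, 1), (5,
      6), (6, 3), (6, 5), (6, 7), (6, 8), (7, 6), (7, 9), (8, 4), (8, 6), (9, 2), (9, 7)]
    lev := [] }
  links := [[1, 2, 6, 7], [2, 0, 7, 3, 5], [6, 0, 1, 5, 8, 9, 4, 10], [5, 1, 7, 11, 12, 13], [10, 2, 9,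
    12, 14], [8, 2, 1, 3, 13, 15]]
  P := {
    a := 6
    N := 16
    nb := [198, 173, 1907, 14498, 22020, 41230, 1157, 2123, 33316, 4372, 16468, 4232, 27160, 36904,
      5136, 8480]
    tri := [(0, 1, 2), (0, 1, 7), (0, 2, 6), (0, 6, 7), (1, 2, 5), (1, 3, 5), (1, 3, 7), (2, 4, 9), (2,
      4, 10), (2, 5, 8), (2, 6, 10), (2, 8, 9), (3, 5, 13), (3, 7, 11), (3, 11, 12), (3, 12, 13),
      (4, 9, 12), (4, 10, 14), (4, 12, 14), (5, 8, 15), (5, 13, 15)]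
    fin := [0, 0, 2, 3, 4, 0, 0, 3, 8, 2, 2, 11, 4, 3, 14, 15]
    chd := [(0, 8), (0, 15)]
    steps := [(0, 1), (0, 5), (0, 6), (2, 9), (2, 10), (3, 7), (3, 13), (4, 12)] }
  rep := [0, 2, 8, 3, 4, 15, 11, 14]

noncomputable def v712 : Cov.CovD where
  P := 3
  N := 5
  pl := [5, 6, 8]
  lev := [⟨[], [], [(0, 3)], [], [(0, 0, [2, 5]), (1, 3, [])]⟩,
    ⟨[], [(0, 0), (0, 3)], [], [], [(1, 3, [])]⟩,
    ⟨[(0, 1)], [(0, 0), (0, 1), (0, 2), (0, 3), (1, 0), (1, 1), (1, 2), (1, 3)], [(0, 1),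
      (0, 2), (1, 1), (1, 2)], [], [(0, 0, [2, 5]), (2, 2, [0]), (3, 1, []), (4, 1, [])]⟩,
    ⟨[(0, 1), (1, 2)], [(0, 3), (1, 3)], [(3, 3)], [4, 6], [(1, 3, []), (7, 3, [])]⟩,
    ⟨[(0, 2), (1, 2)], [(2, 0), (2, 1), (2, 2)], [(1, 1)], [4, 7], [(3, 1, []), (4, 1,
      [])]⟩,
    ⟨[(0, 1), (0, 2), (1, 2), (1, 3), (2, 3), (2, 4)], [(1, 2), (1, 3), (1, 5), (2, 0), (2,
      1), (2, 2), (2, 3), (2, 5), (3, 2), (3, 3), (3, 5)], [(2, 3), (2, 5), (3, 5)], [], [(2,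
      2, [0]), (7, 3, []), (9, 5, [0])]⟩]
  Ta := [((1, 0), 3, 0), ((1, 5), 3, 6), ((3, 2), 1, 2), ((3, 6), 1, 4), ((4, 0), 1, 0), ((4, 8),
    1, 7), ((7, 6), 3, 4), ((7, 9), 3, 5)]
  Tb := [((0, 1, 4), 0, 3, 1), ((1, 0, 5), 3, 0, 6), ((2, 3, 9), 2, 1, 5), ((3, 2, 6), 1, 2, 4),
    ((4, 0, 8), 1, 0, 7), ((5, 1, 6), 6, 3, 4), ((6, 3, 5), 4, 1, 6), ((6, 3, 7), 4, 1, 3),
    ((6, 3, 8), 4, 1, 7), ((6, 5, 7), 4, 6, 3), ((6, 5, 8), 4, 6, 7), ((6, 7, 8), 4, 3, 7),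
    ((7, 6, 9), 3, 4, 5), ((8, 4, 6), 7, 1, 4), ((9, 2, 7), 5, 2, 3)]
  Tc := [(0, 2, 5)]
  Td := [((0, 2), (0, 1), 3), ((0, 2), (0, 4), 1), ((0, 5), (0, 1), 3), ((0, 5), (0, 4), 1), ((2,
    0), (2, 3), 1), ((2, 0), (2, 9), 5), ((5, 0), (9, 2), 2), ((5, 0), (9, 7), 3)]
  G := [[0, 0, 0x112d84111d622d58111d44538e1, 0x115111d6418845444598b119111d18cb8144898889547c,
    0x11548211d111d322db833c48d1152811c995983828b6], [0, 0, 0x641111d111d111de8edfc81,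
    0x111d111d111d59ddf842, 0x111d111d111d39bdf881942], [0,
    0x111e1811a111ec8544c141e444eb816, 0x112d2a2d94111d48111d88934e1, 0,
    0x115111d68222d322d222dd831153438111d199983828b6], [0, 0x111e111e111e111ef824,
    0x111d111d111d6eedf881c41, 0, 0x111d111d111d39bdf881942]]

noncomputable def n712 : Ent := ⟨e712, noF, [], [], [(11, 14, [385746751338780685620664494392815470296102193487288376375402497, 0])]⟩

def c712 : PLift (Cov.check n712.C.D v712 = true) := ⟨by decide +kernel⟩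

def b712 : PLift (entF (fidx ts) 400 712 n712 = true) := ⟨by decide +kernel⟩

theorem g712 : GoodF (fidx ts) 400 712 := GoodF.ofV v712 n712 c712.down b712.down

/-- 458656:611/6 -/
noncomputable def e713 : SCfg where
  D := {
    a := 6
    L := 10
    kp := 7
    inn := [(0, 1), (0, 2), (1, 0), (1, 2), (1, 3), (1, 5), (2, 0), (2, 1), (2, 4), (2, 5), (3, 1), (3,
      5), (4, 2), (5, 1), (5, 2), (5, 3)]
    mix := [(0, 0), (0, 1), (1, 1), (2, 0), (2, 2), (2, 3), (2, 4), (3, 1), (3, 5), (3, 6), (3, 7), (4,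
      3), (4, 4), (4, 6), (4, 8), (5, 2), (5, 7), (5, 9)]
    cl := [0, 3, 4, 1, 1, 6, 2, 3, 7, 5]
    chq := [(0, 4), (0, 5), (4, 0), (5, 0)]
    rng := [(0, 1), (0, 4), (1, 0), (1, 5), (2, 3), (2, 9), (3, 2), (3, 8), (4, 0), (4, 6), (5, 1), (5,
      6), (6, 4), (6, 5), (6, 7), (6, 8), (7, 6), (7, 9), (8, 3), (8, 6), (9, 2), (9, 7)]
    lev := [] }
  links := [[1, 2, 6, 7], [2, 0, 7, 3, 5], [6, 0, 1, 5, 8, 9, 4, 10], [5, 1, 7, 11, 12, 13], [10, 2, 9,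
    14, 12], [8, 2, 1, 3, 13, 15]]
  P := {
    a := 6
    N := 16
    nb := [198, 173, 1907, 14498, 22020, 41230, 1157, 2123, 33316, 16660, 4180, 4232, 27672, 36904,
      4624, 8480]
    tri := [(0, 1, 2), (0, 1, 7), (0, 2, 6), (0, 6, 7), (1, 2, 5), (1, 3, 5), (1, 3, 7), (2, 4, 9), (2,
      4, 10), (2, 5, 8), (2, 6, 10), (2, 8, 9), (3, 5, 13), (3, 7, 11), (3, 11, 12), (3, 12, 13),
      (4, 9, 14), (4, 10, 12), (4, 12, 14), (5, 8, 15), (5, 13, 15)]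
    fin := [0, 0, 2, 3, 4, 0, 0, 3, 8, 2, 2, 11, 4, 3, 14, 15]
    chd := [(0, 8), (0, 15)]
    steps := [(0, 1), (0, 5), (0, 6), (2, 9), (2, 10), (3, 7), (3, 13), (4, 12)] }
  rep := [0, 2, 4, 3, 8, 15, 11, 14]

noncomputable def v713 : Cov.CovD where
  P := 3
  N := 5
  pl := [5, 6, 8]
  lev := [⟨[], [], [(0, 3)], [], [(0, 0, [4, 5]), (1, 3, [])]⟩,
    ⟨[], [(0, 0), (0, 3)], [], [], [(1, 3, [])]⟩,
    ⟨[(0, 1)], [(0, 0), (0, 1), (0, 3), (0, 4), (1, 0), (1, 1), (1, 3), (1, 4)], [(0, 1),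
      (0, 4), (1, 1), (1, 4)], [], [(0, 0, [4, 5]), (2, 4, [0]), (3, 1, []), (4, 1, [])]⟩,
    ⟨[(0, 1), (1, 2)], [(0, 3), (1, 3)], [(3, 3)], [2, 6], [(1, 3, []), (7, 3, [])]⟩,
    ⟨[(0, 2), (1, 2)], [(2, 0), (2, 1), (2, 4)], [(1, 1)], [2, 7], [(3, 1, []), (4, 1,
      [])]⟩,
    ⟨[(0, 1), (0, 2), (1, 2), (1, 3), (2, 3), (2, 4)], [(1, 3), (1, 4), (1, 5), (2, 0), (2,
      1), (2, 3), (2, 4), (2, 5), (3, 3), (3, 4), (3, 5)], [(3, 4), (3, 5), (4, 5)], [], [(2,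
      4, [0]), (7, 3, []), (9, 5, [0])]⟩]
  Ta := [((1, 0), 3, 0), ((1, 5), 3, 6), ((3, 2), 1, 4), ((3, 8), 1, 7), ((4, 0), 1, 0), ((4, 6),
    1, 2), ((7, 6), 3, 2), ((7, 9), 3, 5)]
  Tb := [((0, 1, 4), 0, 3, 1), ((1, 0, 5), 3, 0, 6), ((2, 3, 9), 4, 1, 5), ((3, 2, 8), 1, 4, 7),
    ((4, 0, 6), 1, 0, 2), ((5, 1, 6), 6, 3, 2), ((6, 4, 5), 2, 1, 6), ((6, 4, 7), 2, 1, 3),
    ((6, 4, 8), 2, 1, 7), ((6, 5, 7), 2, 6, 3), ((6, 5, 8), 2, 6, 7), ((6, 7, 8), 2, 3, 7),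
    ((7, 6, 9), 3, 2, 5), ((8, 3, 6), 7, 1, 2), ((9, 2, 7), 5, 4, 3)]
  Tc := [(0, 4, 5)]
  Td := [((0, 4), (0, 1), 3), ((0, 4), (0, 4), 1), ((0, 5), (0, 1), 3), ((0, 5), (0, 4), 1), ((4,
    0), (2, 3), 1), ((4, 0), (2, 9), 5), ((5, 0), (9, 2), 4), ((5, 0), (9, 7), 3)]
  G := [[0, 0, 0x1824348bbca2ccc3188814218186c37c4873839ca34346c1e, 0,
    0x11984119119339b811911934aa914f4], [0, 0, 0x11c11c11ce411c11c11ce8c2, 0,
    0x119119d59b41191193b9b8819c2], [0, 0x11c11c11cd11c11c11cdc22,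
    0x748b3c22ccc12833cc8111c443877ca33c2c3e, 0x11511c119d11c11c59cd44c1d2a51832,
    0x11922994119119339b8119bb934e4], [0, 0x11c11c11cd211c11c11cd468,
    0x11c11c11ce411c11c11ce8c2, 0x115119bb5d411511c719d86418d2,
    0x119119d59b41191193b9b8819c2]]

noncomputable def n713 : Ent := ⟨e713, noF, [], [], [(11, 14, [385746751338780685620664494392815470296102193487288376375394305, 0])]⟩

def c713 : PLift (Cov.check n713.C.D v713 = true) := ⟨by decide +kernel⟩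

def b713 : PLift (entF (fidx ts) 400 713 n713 = true) := ⟨by decide +kernel⟩

theorem g713 : GoodF (fidx ts) 400 713 := GoodF.ofV v713 n713 c713.down b713.down

/-- 458656:611 -/
noncomputable def e714 : SCfg where
  D := {
    a := 6
    L := 11
    kp := 8
    inn := [(0, 1), (0, 2), (1, 0), (1, 2), (1, 3), (1, 5), (2, 0), (2, 1), (2, 4), (2, 5), (3, 1), (3,
      5), (4, 2), (5, 1), (5, 2), (5, 3)]
    mix := [(0, 0), (0, 1), (1, 1), (2, 0), (2, 2), (2, 3), (2, 4), (3, 1), (3, 5), (3, 6), (3, 7), (4,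
      3), (4, 4), (4, 8), (4, 9), (5, 2), (5, 7), (5, 10)]
    cl := [0, 3, 2, 1, 1, 5, 6, 3, 7, 8, 4]
    chq := [(0, 2), (0, 4), (2, 0), (4, 0)]
    rng := [(0, 1), (0, 4), (1, 0), (1, 5), (2, 3), (2, 10), (3, 2), (3, 8), (4, 0), (4, 9), (5, 1),
      (5, 6), (6, 5), (6, 7), (7, 6), (7, 10), (8, 3), (8, 9), (9, 4), (9, 8), (10, 2), (10, 7)]
    lev := [] }
  links := [[1, 2, 6, 7], [2, 0, 7, 3, 5], [6, 0, 1, 5, 8, 9, 4, 10], [5, 1, 7, 11, 12, 13], [10, 2, 9,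
    14, 15], [8, 2, 1, 3, 13, 16]]
  P := {
    a := 6
    N := 17
    nb := [198, 173, 1907, 14498, 50692, 73998, 1157, 2123, 66084, 16660, 32852, 4232, 10248, 69672,
      33296, 17424, 8480]
    tri := [(0, 1, 2), (0, 1, 7), (0, 2, 6), (0, 6, 7), (1, 2, 5), (1, 3, 5), (1, 3, 7), (2, 4, 9), (2,
      4, 10), (2, 5, 8), (2, 6, 10), (2, 8, 9), (3, 5, 13), (3, 7, 11), (3, 11, 12), (3, 12, 13),
      (4, 9, 14), (4, 10, 15), (4, 14, 15), (5, 8, 16), (5, 13, 16)]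
    fin := [0, 0, 0, 3, 4, 0, 0, 3, 8, 4, 4, 11, 12, 3, 14, 15, 16]
    chd := [(0, 8), (0, 16)]
    steps := [(0, 1), (0, 2), (0, 5), (0, 6), (3, 7), (3, 13), (4, 9), (4, 10)] }
  rep := [0, 4, 8, 3, 16, 11, 12, 14, 15]

noncomputable def v714 : Cov.CovD where
  P := 3
  N := 6
  pl := [5, 6, 8, 9]
  lev := [⟨[], [], [(0, 3)], [], [(0, 0, [2, 4]), (1, 3, [])]⟩,
    ⟨[], [(0, 0), (0, 3)], [], [], [(1, 3, [])]⟩,
    ⟨[(0, 1)], [(0, 0), (0, 1), (0, 2), (0, 3), (1, 0), (1, 1), (1, 2), (1, 3)], [(0, 1),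
      (0, 2), (1, 1), (1, 2)], [], [(0, 0, [2, 4]), (2, 2, [0]), (3, 1, []), (4, 1, [])]⟩,
    ⟨[(0, 1), (1, 2)], [(0, 3), (1, 3)], [(3, 3)], [5, 6], [(1, 3, []), (7, 3, [])]⟩,
    ⟨[(0, 2), (1, 2)], [(2, 0), (2, 1), (2, 2)], [(1, 1)], [7, 8], [(3, 1, []), (4, 1,
      [])]⟩,
    ⟨[(0, 1), (0, 2), (1, 2), (1, 3), (2, 3), (2, 4)], [(1, 2), (1, 3), (1, 4), (2, 0), (2,
      1), (2, 2), (2, 3), (2, 4), (3, 2), (3, 3), (3, 4)], [(2, 3), (2, 4), (3, 4)], [], [(2,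
      2, [0]), (7, 3, []), (10, 4, [0])]⟩]
  Ta := [((1, 0), 3, 0), ((1, 5), 3, 5), ((3, 2), 1, 2), ((3, 8), 1, 7), ((4, 0), 1, 0), ((4, 9),
    1, 8), ((7, 6), 3, 6), ((7, 10), 3, 4)]
  Tb := [((0, 1, 4), 0, 3, 1), ((1, 0, 5), 3, 0, 5), ((2, 3, 10), 2, 1, 4), ((3, 2, 8), 1, 2, 7),
    ((4, 0, 9), 1, 0, 8), ((5, 1, 6), 5, 3, 6), ((6, 5, 7), 6, 5, 3), ((7, 6, 10), 3, 6, 4),
    ((8, 3, 9), 7, 1, 8), ((9, 4, 8), 8, 1, 7), ((10, 2, 7), 4, 2, 3)]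
  Tc := [(0, 2, 4)]
  Td := [((0, 2), (0, 1), 3), ((0, 2), (0, 4), 1), ((0, 4), (0, 1), 3), ((0, 4), (0, 4), 1), ((2,
    0), (2, 3), 1), ((2, 0), (2, 10), 4), ((4, 0), (10, 2), 2), ((4, 0), (10, 7), 3)]
  G := [[0, 0, 0x111d84111d222d58111d444d38e1,
    0x144119885c111d111d199db8c111d24111d111d999dd4a6,
    0x111d111d68222d222d222dd8311528111d199d98382838b6], [0, 0, 0x111d111d111deaedf4441892,
    0x111d111d111dd9ddf441582, 0x111d111d111d1bbdfa81924], [0,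
    0x111e111e98111e485444e1111e111eac16, 0x111d84111d222d58111d444d38e1, 0,
    0x211d111d222db8222d48511528111d111d119dd83822c38b6], [0, 0x111e111e111e111ef428,
    0xe814111d111d111dee5f8c1, 0, 0x111d111d111d3bbdf881942]]

noncomputable def n714 : Ent := ⟨e714, noF, [], [], [(11, 14, [1685382413448253767852309107433119732572617628602273068445367816193, 0]), (11, 15, [1685356702439545624007900436039642273970977273354372543760003002369, 0]), (12, 14, [1685382413448253767852309107433119732572617628602273068445367828481, 0]), (12, 15, [1685356702439545624007900436039642273970977273354372543760003010561, 0])]⟩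

def c714 : PLift (Cov.check n714.C.D v714 = true) := ⟨by decide +kernel⟩

def b714 : PLift (entF (fidx ts) 400 714 n714 = true) := ⟨by decide +kernel⟩

theorem g714 : GoodF (fidx ts) 400 714 := GoodF.ofV v714 n714 c714.down b714.down

/-- 474565:612/2 -/
noncomputable def e715 : SCfg where
  D := {
    a := 6
    L := 9
    kp := 6
    inn := [(0, 1), (1, 0), (1, 2), (1, 3), (2, 1), (3, 1), (3, 4), (4, 3), (4, 5), (5, 4)]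
    mix := [(0, 0), (0, 1), (0, 2), (1, 0), (1, 2), (1, 3), (1, 4), (2, 2), (2, 3), (2, 5), (3, 3), (3,
      4), (3, 6), (4, 4), (4, 6), (4, 7), (4, 8), (5, 1), (5, 2), (5, 6), (5, 7)]
    cl := [1, 2, 3, 0, 0, 5, 4, 4, 6]
    chq := [(1, 3), (1, 5), (3, 1), (5, 1)]
    rng := [(0, 1), (0, 4), (1, 0), (1, 2), (1, 6), (2, 1), (2, 5), (2, 7), (3, 5), (3, 6), (4, 0), (4,
      8), (5, 2), (5, 3), (6, 1), (6, 3), (7, 2), (7, 8), (8, 4), (8, 7)]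
    lev := [] }
  links := [[1, 6, 7, 8], [6, 0, 8, 2, 9, 3, 10], [9, 1, 8, 11], [10, 1, 9, 12, 4], [10, 3, 12, 5, 13,
    14], [13, 4, 12, 7, 8]]
  P := {
    a := 6
    N := 15
    nb := [450, 1869, 2818, 5650, 29736, 12688, 1155, 4449, 10407, 6158, 16474, 772, 696, 16688, 9232]
    tri := [(0, 1, 6), (0, 1, 8), (0, 6, 7), (0, 7, 8), (1, 2, 8), (1, 2, 9), (1, 3, 9), (1, 3, 10),
      (1, 6, 10), (2, 8, 11), (2, 9, 11), (3, 4, 10), (3, 4, 12), (3, 9, 12), (4, 5, 12), (4, 5,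
      13), (4, 10, 14), (4, 13, 14), (5, 7, 8), (5, 7, 12), (5, 8, 13)]
    fin := [0, 0, 0, 3, 3, 5, 0, 7, 8, 3, 3, 11, 5, 5, 14]
    chd := [(0, 8), (0, 11)]
    steps := [(0, 1), (0, 2), (0, 6), (3, 4), (3, 9), (3, 10), (5, 12), (5, 13)] }
  rep := [3, 0, 7, 8, 5, 11, 14]

noncomputable def v715 : Cov.CovD where
  P := 3
  N := 4
  pl := [1, 8]
  lev := [⟨[], [], [(1, 3)], [2], [(0, 1, [3, 5]), (2, 3, [1])]⟩,
    ⟨[], [(0, 0), (0, 1), (0, 3)], [(0, 0), (0, 1), (0, 3), (1, 3)], [], [(0, 1, [3, 5]),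
      (2, 3, [1]), (3, 0, []), (4, 0, [])]⟩,
    ⟨[(0, 1)], [(0, 3), (1, 0), (1, 1), (1, 3), (1, 5)], [(0, 3), (0, 5), (3, 5)], [], [(2,
      3, [1]), (3, 0, []), (5, 5, [1])]⟩,
    ⟨[(0, 1), (1, 2)], [(1, 0), (1, 1), (1, 3), (1, 4), (2, 0)], [(0, 0), (0, 4)], [], [(3,
      0, []), (4, 0, []), (6, 4, [])]⟩,
    ⟨[(1, 3)], [(1, 0), (3, 0), (3, 4)], [(0, 4), (4, 4)], [6], [(4, 0, []), (6, 4, []),
      (7, 4, [])]⟩,
    ⟨[(3, 4)], [(0, 3), (1, 3), (2, 3), (3, 4), (4, 0), (4, 3), (4, 4)], [(3, 4), (4, 4)],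
      [2], [(2, 3, [1]), (6, 4, []), (7, 4, [])]⟩]
  Ta := [((3, 5), 0, 5), ((3, 6), 0, 4), ((4, 0), 0, 1), ((4, 8), 0, 6), ((6, 1), 4, 2), ((6, 3),
    4, 0), ((7, 2), 4, 3), ((7, 8), 4, 6)]
  Tb := [((0, 1, 4), 1, 2, 0), ((1, 0, 2), 2, 1, 3), ((1, 0, 6), 2, 1, 4), ((1, 2, 6), 2, 3, 4),
    ((2, 1, 5), 3, 2, 5), ((2, 1, 7), 3, 2, 4), ((2, 5, 7), 3, 5, 4), ((3, 5, 6), 0, 5, 4),
    ((4, 0, 8), 0, 1, 6), ((5, 2, 3), 5, 3, 0), ((6, 1, 3), 4, 2, 0), ((7, 2, 8), 4, 3, 6),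
    ((8, 4, 7), 6, 0, 4)]
  Tc := [(1, 3, 5)]
  Td := [((1, 3), (0, 1), 2), ((1, 3), (0, 4), 0), ((1, 5), (0, 1), 2), ((1, 5), (0, 4), 0), ((3,
    1), (2, 1), 2), ((3, 1), (2, 5), 5), ((3, 1), (2, 7), 4), ((5, 1), (5, 2), 3), ((5, 1),
    (5, 3), 0)]
  G := [[0, 0, 0xc1a162861824c, 0x819e228145e224c, 0x9a5983628312e8249], [0, 0, 0xa142861224c,
    0x11c7228114b8249, 0xa1428111e8249], [0, 0x811e418141e814c, 0x8a2e84ce628642e824c,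
    0x85de22811a8249, 0x8b2e28a62811c12a249], [0, 0x811e218141e814c, 0x8a2e42864ee824c,
    0x811e22814de824c, 0x8a2e428111e2149]]

noncomputable def n715 : Ent := ⟨e715, noF, [], [], []⟩

def c715 : PLift (Cov.check n715.C.D v715 = true) := ⟨by decide +kernel⟩

def b715 : PLift (entF (fidx ts) 400 715 n715 = true) := ⟨by decide +kernel⟩

theorem g715 : GoodF (fidx ts) 400 715 := GoodF.ofV v715 n715 c715.down b715.down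

/-- 474565:612/1 -/
noncomputable def e716 : SCfg where
  D := {
    a := 6
    L := 10
    kp := 7
    inn := [(0, 1), (1, 0), (1, 2), (1, 3), (2, 1), (3, 1), (3, 4), (4, 3), (4, 5), (5, 4)]
    mix := [(0, 0), (0, 1), (0, 2), (1, 0), (1, 2), (1, 3), (1, 4), (2, 2), (2, 3), (2, 5), (3, 3), (3,
      4), (3, 6), (4, 4), (4, 6), (4, 7), (4, 8), (5, 1), (5, 6), (5, 7), (5, 9)]
    cl := [2, 4, 1, 0, 0, 5, 3, 3, 6, 7]
    chq := [(0, 1), (0, 4), (1, 0), (4, 0)]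
    rng := [(0, 1), (0, 4), (1, 0), (1, 2), (1, 6), (1, 9), (2, 1), (2, 5), (3, 5), (3, 6), (4, 0), (4,
      8), (5, 2), (5, 3), (6, 1), (6, 3), (7, 8), (7, 9), (8, 4), (8, 7), (9, 1), (9, 7)]
    lev := [] }
  links := [[1, 6, 7, 8], [6, 0, 8, 2, 9, 3, 10], [9, 1, 8, 11], [10, 1, 9, 12, 4], [10, 3, 12, 5, 13,
    14], [13, 4, 12, 7, 15]]
  P := {
    a := 6
    N := 16
    nb := [450, 1869, 2818, 5650, 29736, 45200, 1155, 37217, 2183, 6158, 16474, 772, 696, 49200, 9232,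
      8352]
    tri := [(0, 1, 6), (0, 1, 8), (0, 6, 7), (0, 7, 8), (1, 2, 8), (1, 2, 9), (1, 3, 9), (1, 3, 10),
      (1, 6, 10), (2, 8, 11), (2, 9, 11), (3, 4, 10), (3, 4, 12), (3, 9, 12), (4, 5, 12), (4, 5,
      13), (4, 10, 14), (4, 13, 14), (5, 7, 12), (5, 7, 15), (5, 13, 15)]
    fin := [0, 0, 2, 3, 4, 0, 6, 0, 2, 3, 3, 11, 4, 4, 14, 15]
    chd := [(0, 3), (2, 3)]
    steps := [(0, 1), (0, 7), (0, 5), (2, 8), (3, 9), (3, 10), (4, 12), (4, 13)] }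
  rep := [3, 2, 6, 4, 0, 11, 14, 15]

noncomputable def v716 : Cov.CovD where
  P := 3
  N := 5
  pl := [0, 5, 8, 9]
  lev := [⟨[], [], [(1, 4)], [2], [(1, 4, [0]), (2, 1, [0])]⟩,
    ⟨[], [(0, 0), (0, 1), (0, 4)], [(0, 0), (0, 1)], [2], [(2, 1, [0]), (3, 0, [1, 4]), (4,
      0, [1, 4])]⟩,
    ⟨[(0, 1)], [(0, 1), (1, 0), (1, 1)], [(0, 1)], [5], [(2, 1, [0]), (3, 0, [1, 4])]⟩,
    ⟨[(0, 1), (1, 2)], [(1, 0), (1, 1), (1, 3), (2, 0)], [(0, 0), (0, 3)], [], [(3, 0, [1,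
      4]), (4, 0, [1, 4]), (6, 3, [])]⟩,
    ⟨[(1, 3)], [(1, 0), (3, 0), (3, 3)], [(0, 3), (3, 3)], [6], [(4, 0, [1, 4]), (6, 3,
      []), (7, 3, [])]⟩,
    ⟨[(3, 4)], [(0, 4), (3, 3), (4, 0), (4, 3), (4, 4)], [(3, 3), (3, 4)], [7], [(1, 4,
      [0]), (6, 3, []), (7, 3, [])]⟩]
  Ta := [((3, 5), 0, 5), ((3, 6), 0, 3), ((4, 0), 0, 2), ((4, 8), 0, 6), ((6, 1), 3, 4), ((6, 3),
    3, 0), ((7, 8), 3, 6), ((7, 9), 3, 7)]
  Tb := [((0, 1, 4), 2, 4, 0), ((1, 0, 2), 4, 2, 1), ((1, 0, 6), 4, 2, 3), ((1, 0, 9), 4, 2, 7),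
    ((1, 2, 6), 4, 1, 3), ((1, 2, 9), 4, 1, 7), ((1, 6, 9), 4, 3, 7), ((2, 1, 5), 1, 4, 5),
    ((3, 5, 6), 0, 5, 3), ((4, 0, 8), 0, 2, 6), ((5, 2, 3), 5, 1, 0), ((6, 1, 3), 3, 4, 0),
    ((7, 8, 9), 3, 6, 7), ((8, 4, 7), 6, 0, 3), ((9, 1, 7), 7, 4, 3)]
  Tc := [(0, 1, 4)]
  Td := [((0, 1), (3, 5), 5), ((0, 1), (3, 6), 3), ((0, 1), (4, 0), 2), ((0, 1), (4, 8), 6), ((0,
    4), (3, 5), 5), ((0, 4), (3, 6), 3), ((0, 4), (4, 0), 2), ((0, 4), (4, 8), 6), ((1, 0),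
    (2, 1), 4), ((1, 0), (2, 5), 5), ((4, 0), (1, 0), 2), ((4, 0), (1, 2), 1), ((4, 0), (1,
    6), 3), ((4, 0), (1, 9), 7)]
  G := [[0, 0x11cd11ab611cd11ab6c81, 0, 0x13cdfd2b6f34cf19ab6c81, 0xdb4dbd2b6c113cfd6bec81], [0,
    0x111ef2111ef4681, 0, 0x111ef4111ef4c81, 0x111ef2111ef4c81], [0,
    0x11cd1a36a116511aec1882c1, 0x9b2e99a618752e556a14c, 0x7d28f82a756e141,
    0x4b6db7eb4ce181], [0, 0x111ef2111ef2c81, 0x9bfe41822751ea14c, 0x7f78f88c141,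
    0xfbfe446181]]

noncomputable def n716 : Ent := ⟨e716, noF, [], [], [(8, 15, [360035742630636841211993100915356868655746945586763691010600961, 0])]⟩

def c716 : PLift (Cov.check n716.C.D v716 = true) := ⟨by decide +kernel⟩

def b716 : PLift (entF (fidx ts) 400 716 n716 = true) := ⟨by decide +kernel⟩

theorem g716 : GoodF (fidx ts) 400 716 := GoodF.ofV v716 n716 c716.down b716.down

/-- 474565:612/4 -/
noncomputable def e717 : SCfg where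
  D := {
    a := 6
    L := 9
    kp := 6
    inn := [(0, 1), (1, 0), (1, 2), (1, 3), (2, 1), (3, 1), (3, 4), (4, 3), (4, 5), (5, 4)]
    mix := [(0, 0), (0, 1), (0, 2), (1, 0), (1, 2), (1, 3), (1, 4), (2, 2), (2, 3), (2, 5), (3, 3), (3,
      4), (3, 6), (4, 4), (4, 6), (4, 7), (4, 8), (5, 1), (5, 5), (5, 6), (5, 7)]
    cl := [2, 4, 1, 0, 0, 5, 3, 3, 6]
    chq := [(0, 1), (0, 4), (1, 0), (4, 0)]
    rng := [(0, 1), (0, 4), (1, 0), (1, 2), (1, 5), (1, 7), (2, 1), (2, 5), (3, 5), (3, 6), (4, 0), (4,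
      8), (5, 1), (5, 2), (5, 3), (5, 6), (6, 3), (6, 5), (7, 1), (7, 8), (8, 4), (8, 7)]
    lev := [] }
  links := [[1, 6, 7, 8], [6, 0, 8, 2, 9, 3, 10], [9, 1, 8, 11], [10, 1, 9, 12, 4], [10, 3, 12, 5, 13,
    14], [13, 4, 12, 11, 7]]
  P := {
    a := 6
    N := 15
    nb := [450, 1869, 2818, 5650, 29736, 14480, 1155, 10593, 2183, 6158, 16474, 5028, 2616, 16560,
      9232]
    tri := [(0, 1, 6), (0, 1, 8), (0, 6, 7), (0, 7, 8), (1, 2, 8), (1, 2, 9), (1, 3, 9), (1, 3, 10),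
      (1, 6, 10), (2, 8, 11), (2, 9, 11), (3, 4, 10), (3, 4, 12), (3, 9, 12), (4, 5, 12), (4, 5,
      13), (4, 10, 14), (4, 13, 14), (5, 7, 11), (5, 7, 13), (5, 11, 12)]
    fin := [0, 0, 2, 3, 3, 5, 6, 0, 2, 3, 3, 11, 5, 5, 14]
    chd := [(0, 3), (2, 3)]
    steps := [(0, 1), (0, 7), (2, 8), (3, 4), (3, 9), (3, 10), (5, 12), (5, 13)] }
  rep := [3, 2, 6, 5, 0, 11, 14]

noncomputable def v717 : Cov.CovD where
  P := 3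
  N := 4
  pl := [0, 5, 8]
  lev := [⟨[], [], [(1, 4)], [2], [(1, 4, [0]), (2, 1, [0])]⟩,
    ⟨[], [(0, 0), (0, 1), (0, 4)], [(0, 0), (0, 1)], [2], [(2, 1, [0]), (3, 0, [1, 4]), (4,
      0, [1, 4])]⟩,
    ⟨[(0, 1)], [(0, 1), (1, 0), (1, 1)], [(0, 1)], [5], [(2, 1, [0]), (3, 0, [1, 4])]⟩,
    ⟨[(0, 1), (1, 2)], [(1, 0), (1, 1), (1, 3), (2, 0)], [(0, 0), (0, 3)], [], [(3, 0, [1,
      4]), (4, 0, [1, 4]), (6, 3, [])]⟩,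
    ⟨[(1, 3)], [(1, 0), (3, 0), (3, 3)], [(0, 3), (3, 3)], [6], [(4, 0, [1, 4]), (6, 3,
      []), (7, 3, [])]⟩,
    ⟨[(3, 4)], [(0, 4), (3, 3), (4, 0), (4, 3), (4, 4)], [(3, 3), (3, 4)], [5], [(1, 4,
      [0]), (6, 3, []), (7, 3, [])]⟩]
  Ta := [((3, 5), 0, 5), ((3, 6), 0, 3), ((4, 0), 0, 2), ((4, 8), 0, 6), ((6, 3), 3, 0), ((6, 5),
    3, 5), ((7, 1), 3, 4), ((7, 8), 3, 6)]
  Tb := [((0, 1, 4), 2, 4, 0), ((1, 0, 2), 4, 2, 1), ((1, 0, 5), 4, 2, 5), ((1, 0, 7), 4, 2, 3),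
    ((1, 2, 5), 4, 1, 5), ((1, 2, 7), 4, 1, 3), ((1, 5, 7), 4, 5, 3), ((2, 1, 5), 1, 4, 5),
    ((3, 5, 6), 0, 5, 3), ((4, 0, 8), 0, 2, 6), ((5, 1, 2), 5, 4, 1), ((5, 1, 3), 5, 4, 0),
    ((5, 1, 6), 5, 4, 3), ((5, 2, 3), 5, 1, 0), ((5, 2, 6), 5, 1, 3), ((5, 3, 6), 5, 0, 3),
    ((6, 3, 5), 3, 0, 5), ((7, 1, 8), 3, 4, 6), ((8, 4, 7), 6, 0, 3)]
  Tc := [(0, 1, 4)]
  Td := [((0, 1), (3, 5), 5), ((0, 1), (3, 6), 3), ((0, 1), (4, 0), 2), ((0, 1), (4, 8), 6), ((0,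
    4), (3, 5), 5), ((0, 4), (3, 6), 3), ((0, 4), (4, 0), 2), ((0, 4), (4, 8), 6), ((1, 0),
    (2, 1), 4), ((1, 0), (2, 5), 5), ((4, 0), (1, 0), 2), ((4, 0), (1, 2), 1), ((4, 0), (1,
    5), 5), ((4, 0), (1, 7), 3)]
  G := [[0, 0x11c116a11c116a641, 0, 0xb92e216134dfd2b6c81, 0x1328f99a67458316bec81], [0,
    0x111e8111e2641, 0, 0x111af2116d8c41, 0x111af41116f2c81], [0, 0x11c11a6811c6112e2c1,
    0x111e418111e814c, 0x116418313cf8149, 0xc111c116be181], [0, 0x111e2111e2681,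
    0x111e218111e214c, 0x111ef4181, 0x111ef2181]]

noncomputable def n717 : Ent := ⟨e717, noF, [], [], []⟩

def c717 : PLift (Cov.check n717.C.D v717 = true) := ⟨by decide +kernel⟩

def b717 : PLift (entF (fidx ts) 400 717 n717 = true) := ⟨by decide +kernel⟩

theorem g717 : GoodF (fidx ts) 400 717 := GoodF.ofV v717 n717 c717.down b717.down

/-- 474565:612/3 -/
noncomputable def e718 : SCfg where
  D := {
    a := 6
    L := 10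
    kp := 7
    inn := [(0, 1), (1, 0), (1, 2), (1, 3), (2, 1), (3, 1), (3, 4), (4, 3), (4, 5), (5, 4)]
    mix := [(0, 0), (0, 1), (0, 2), (1, 0), (1, 2), (1, 3), (1, 4), (2, 2), (2, 3), (2, 5), (3, 3), (3,
      4), (3, 6), (4, 4), (4, 6), (4, 7), (4, 8), (5, 1), (5, 6), (5, 7), (5, 9)]
    cl := [2, 4, 1, 0, 0, 5, 3, 3, 6, 7]
    chq := [(0, 1), (0, 4), (1, 0), (4, 0)]
    rng := [(0, 1), (0, 4), (1, 0), (1, 2), (1, 7), (1, 9), (2, 1), (2, 5), (3, 5), (3, 6), (4, 0), (4,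
      8), (5, 2), (5, 3), (6, 3), (6, 9), (7, 1), (7, 8), (8, 4), (8, 7), (9, 1), (9, 6)]
    lev := [] }
  links := [[1, 6, 7, 8], [6, 0, 8, 2, 9, 3, 10], [9, 1, 8, 11], [10, 1, 9, 12, 4], [10, 3, 12, 5, 13,
    14], [13, 4, 12, 15, 7]]
  P := {
    a := 6
    N := 16
    nb := [450, 1869, 2818, 5650, 29736, 45200, 1155, 41313, 2183, 6158, 16474, 772, 33336, 16560,
      9232, 4256]
    tri := [(0, 1, 6), (0, 1, 8), (0, 6, 7), (0, 7, 8), (1, 2, 8), (1, 2, 9), (1, 3, 9), (1, 3, 10),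
      (1, 6, 10), (2, 8, 11), (2, 9, 11), (3, 4, 10), (3, 4, 12), (3, 9, 12), (4, 5, 12), (4, 5,
      13), (4, 10, 14), (4, 13, 14), (5, 7, 13), (5, 7, 15), (5, 12, 15)]
    fin := [0, 0, 2, 3, 3, 5, 6, 0, 2, 3, 3, 11, 5, 5, 14, 15]
    chd := [(0, 3), (2, 3)]
    steps := [(0, 1), (0, 7), (2, 8), (3, 4), (3, 9), (3, 10), (5, 12), (5, 13)] }
  rep := [3, 2, 6, 5, 0, 11, 14, 15]

noncomputable def v718 : Cov.CovD where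
  P := 3
  N := 5
  pl := [0, 5, 8, 9]
  lev := [⟨[], [], [(1, 4)], [2], [(1, 4, [0]), (2, 1, [0])]⟩,
    ⟨[], [(0, 0), (0, 1), (0, 4)], [(0, 0), (0, 1)], [2], [(2, 1, [0]), (3, 0, [1, 4]), (4,
      0, [1, 4])]⟩,
    ⟨[(0, 1)], [(0, 1), (1, 0), (1, 1)], [(0, 1)], [5], [(2, 1, [0]), (3, 0, [1, 4])]⟩,
    ⟨[(0, 1), (1, 2)], [(1, 0), (1, 1), (1, 3), (2, 0)], [(0, 0), (0, 3)], [], [(3, 0, [1,
      4]), (4, 0, [1, 4]), (6, 3, [])]⟩,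
    ⟨[(1, 3)], [(1, 0), (3, 0), (3, 3)], [(0, 3), (3, 3)], [6], [(4, 0, [1, 4]), (6, 3,
      []), (7, 3, [])]⟩,
    ⟨[(3, 4)], [(0, 4), (3, 3), (4, 0), (4, 3), (4, 4)], [(3, 3), (3, 4)], [7], [(1, 4,
      [0]), (6, 3, []), (7, 3, [])]⟩]
  Ta := [((3, 5), 0, 5), ((3, 6), 0, 3), ((4, 0), 0, 2), ((4, 8), 0, 6), ((6, 3), 3, 0), ((6, 9),
    3, 7), ((7, 1), 3, 4), ((7, 8), 3, 6)]
  Tb := [((0, 1, 4), 2, 4, 0), ((1, 0, 2), 4, 2, 1), ((1, 0, 7), 4, 2, 3), ((1, 0, 9), 4, 2, 7),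
    ((1, 2, 7), 4, 1, 3), ((1, 2, 9), 4, 1, 7), ((1, 7, 9), 4, 3, 7), ((2, 1, 5), 1, 4, 5),
    ((3, 5, 6), 0, 5, 3), ((4, 0, 8), 0, 2, 6), ((5, 2, 3), 5, 1, 0), ((6, 3, 9), 3, 0, 7),
    ((7, 1, 8), 3, 4, 6), ((8, 4, 7), 6, 0, 3), ((9, 1, 6), 7, 4, 3)]
  Tc := [(0, 1, 4)]
  Td := [((0, 1), (3, 5), 5), ((0, 1), (3, 6), 3), ((0, 1), (4, 0), 2), ((0, 1), (4, 8), 6), ((0,
    4), (3, 5), 5), ((0, 4), (3, 6), 3), ((0, 4), (4, 0), 2), ((0, 4), (4, 8), 6), ((1, 0),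
    (2, 1), 4), ((1, 0), (2, 5), 5), ((4, 0), (1, 0), 2), ((4, 0), (1, 2), 1), ((4, 0), (1,
    7), 3), ((4, 0), (1, 9), 7)]
  G := [[0, 0x11cd11ab611cd11ab6a81, 0, 0x53cdbd2b6cb4d5a36c3884c1, 0x1bcdf5ab613cdfd2b6c81],
    [0, 0x111ef8111ef2c41, 0, 0x111ef4111ef4c81, 0x111ef2111ef2c81], [0,
    0x11cd1167a11cd1167aa41, 0x9b7e41875be84ca14c, 0x3d2ec2a31c7e141, 0x426db2eb4dee181], [0,
    0x111ef2111ef4681, 0x9bbe418757e814c, 0xff6f8a141, 0xf2ffc6181]]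

noncomputable def n718 : Ent := ⟨e718, noF, [], [], [(11, 15, [360035742630636841211993100915356868655746945586763691010609153, 0])]⟩

def c718 : PLift (Cov.check n718.C.D v718 = true) := ⟨by decide +kernel⟩

def b718 : PLift (entF (fidx ts) 400 718 n718 = true) := ⟨by decide +kernel⟩

theorem g718 : GoodF (fidx ts) 400 718 := GoodF.ofV v718 n718 c718.down b718.down

/-- 474565:612/6 -/
noncomputable def e719 : SCfg where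
  D := {
    a := 6
    L := 9
    kp := 6
    inn := [(0, 1), (1, 0), (1, 2), (1, 3), (2, 1), (3, 1), (3, 4), (4, 3), (4, 5), (5, 4)]
    mix := [(0, 0), (0, 1), (0, 2), (1, 0), (1, 2), (1, 3), (1, 4), (2, 2), (2, 3), (2, 5), (3, 3), (3,
      4), (3, 6), (4, 4), (4, 6), (4, 7), (4, 8), (5, 2), (5, 5), (5, 6), (5, 7)]
    cl := [2, 5, 1, 0, 0, 4, 3, 3, 6]
    chq := [(1, 2), (2, 1), (2, 4), (4, 2)]
    rng := [(0, 1), (0, 4), (1, 0), (1, 2), (2, 1), (2, 5), (2, 7), (3, 5), (3, 6), (4, 0), (4, 8), (5,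
      2), (5, 3), (5, 6), (6, 3), (6, 5), (7, 2), (7, 8), (8, 4), (8, 7)]
    lev := [] }
  links := [[1, 6, 7, 8], [6, 0, 8, 2, 9, 3, 10], [9, 1, 8, 11], [10, 1, 9, 12, 4], [10, 3, 12, 5, 13,
    14], [13, 4, 12, 11, 8]]
  P := {
    a := 6
    N := 15
    nb := [450, 1869, 2818, 5650, 29736, 14608, 1155, 321, 10407, 6158, 16474, 4900, 2616, 16688,
      9232]
    tri := [(0, 1, 6), (0, 1, 8), (0, 6, 7), (0, 7, 8), (1, 2, 8), (1, 2, 9), (1, 3, 9), (1, 3, 10),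
      (1, 6, 10), (2, 8, 11), (2, 9, 11), (3, 4, 10), (3, 4, 12), (3, 9, 12), (4, 5, 12), (4, 5,
      13), (4, 10, 14), (4, 13, 14), (5, 8, 11), (5, 8, 13), (5, 11, 12)]
    fin := [0, 0, 0, 3, 3, 5, 0, 7, 8, 3, 3, 11, 5, 5, 14]
    chd := [(0, 8), (0, 11)]
    steps := [(0, 1), (0, 2), (0, 6), (3, 4), (3, 9), (3, 10), (5, 12), (5, 13)] }
  rep := [3, 8, 0, 5, 11, 7, 14]

noncomputable def v719 : Cov.CovD where
  P := 3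
  N := 4
  pl := [1, 8]
  lev := [⟨[], [], [(1, 2)], [5], [(0, 2, [1, 4]), (2, 1, [2])]⟩,
    ⟨[], [(0, 0), (0, 1), (0, 2)], [(0, 0), (0, 1), (0, 2), (1, 2)], [], [(0, 2, [1, 4]),
      (2, 1, [2]), (3, 0, []), (4, 0, [])]⟩,
    ⟨[(0, 1)], [(0, 1), (1, 0), (1, 1), (1, 2), (1, 4)], [(0, 1), (0, 4), (1, 4)], [], [(2,
      1, [2]), (3, 0, []), (5, 4, [2])]⟩,
    ⟨[(0, 1), (1, 2)], [(1, 0), (1, 1), (1, 2), (1, 3), (2, 0)], [(0, 0), (0, 3)], [], [(3,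
      0, []), (4, 0, []), (6, 3, [])]⟩,
    ⟨[(1, 3)], [(1, 0), (3, 0), (3, 3)], [(0, 3), (3, 3)], [6], [(4, 0, []), (6, 3, []),
      (7, 3, [])]⟩,
    ⟨[(3, 4)], [(0, 1), (1, 1), (2, 1), (2, 4), (3, 3), (4, 0), (4, 1), (4, 3), (4, 4)],
      [(1, 3), (1, 4), (3, 3), (3, 4)], [], [(2, 1, [2]), (5, 4, [2]), (6, 3, []), (7, 3,
      [])]⟩]
  Ta := [((3, 5), 0, 4), ((3, 6), 0, 3), ((4, 0), 0, 2), ((4, 8), 0, 6), ((6, 3), 3, 0), ((6, 5),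
    3, 4), ((7, 2), 3, 1), ((7, 8), 3, 6)]
  Tb := [((0, 1, 4), 2, 5, 0), ((1, 0, 2), 5, 2, 1), ((2, 1, 5), 1, 5, 4), ((2, 1, 7), 1, 5, 3),
    ((2, 5, 7), 1, 4, 3), ((3, 5, 6), 0, 4, 3), ((4, 0, 8), 0, 2, 6), ((5, 2, 3), 4, 1, 0),
    ((5, 2, 6), 4, 1, 3), ((5, 3, 6), 4, 0, 3), ((6, 3, 5), 3, 0, 4), ((7, 2, 8), 3, 1, 6),
    ((8, 4, 7), 6, 0, 3)]
  Tc := [(2, 1, 4)]
  Td := [((1, 2), (2, 1), 5), ((1, 2), (2, 5), 4), ((1, 2), (2, 7), 3), ((2, 1), (0, 1), 5), ((2,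
    1), (0, 4), 0), ((2, 4), (0, 1), 5), ((2, 4), (0, 4), 0), ((4, 2), (5, 2), 1), ((4, 2),
    (5, 3), 0), ((4, 2), (5, 6), 3)]
  G := [[0, 0x212c121668c161a24c, 0, 0x82321c5e2a4222d2442b2c85, 0x95de24895de2489], [0,
    0xa18612c4e1428c, 0, 0x214214c8212212c85, 0x111cf448111cf4489], [0,
    0x8a2e84ce62642e82cca6c6aa6ce28c, 0x111e218111e214c, 0x111e228221e214c,
    0x111e248111e2189], [0, 0xe2eec62864c28aee468c, 0x111e814111e218c, 0x121e418111e4185,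
    0x111e418111e4489]]

noncomputable def n719 : Ent := ⟨e719, noF, [], [], []⟩

def c719 : PLift (Cov.check n719.C.D v719 = true) := ⟨by decide +kernel⟩

def b719 : PLift (entF (fidx ts) 400 719 n719 = true) := ⟨by decide +kernel⟩

theorem g719 : GoodF (fidx ts) 400 719 := GoodF.ofV v719 n719 c719.down b719.down

/-- 474565:612/5 -/
noncomputable def e720 : SCfg where
  D := {
    a := 6
    L := 10
    kp := 7
    inn := [(0, 1), (1, 0), (1, 2), (1, 3), (2, 1), (3, 1), (3, 4), (4, 3), (4, 5), (5, 4)]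
    mix := [(0, 0), (0, 1), (0, 2), (1, 0), (1, 2), (1, 3), (1, 4), (2, 2), (2, 3), (2, 5), (3, 3), (3,
      4), (3, 6), (4, 4), (4, 6), (4, 7), (4, 8), (5, 2), (5, 6), (5, 7), (5, 9)]
    cl := [2, 5, 1, 0, 0, 4, 3, 3, 6, 7]
    chq := [(1, 2), (2, 1), (2, 4), (4, 2)]
    rng := [(0, 1), (0, 4), (1, 0), (1, 2), (2, 1), (2, 5), (2, 7), (2, 9), (3, 5), (3, 6), (4, 0), (4,
      8), (5, 2), (5, 3), (6, 3), (6, 9), (7, 2), (7, 8), (8, 4), (8, 7), (9, 2), (9, 6)]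
    lev := [] }
  links := [[1, 6, 7, 8], [6, 0, 8, 2, 9, 3, 10], [9, 1, 8, 11], [10, 1, 9, 12, 4], [10, 3, 12, 5, 13,
    14], [13, 4, 12, 15, 8]]
  P := {
    a := 6
    N := 16
    nb := [450, 1869, 2818, 5650, 29736, 45328, 1155, 321, 43175, 6158, 16474, 772, 33336, 16688,
      9232, 4384]
    tri := [(0, 1, 6), (0, 1, 8), (0, 6, 7), (0, 7, 8), (1, 2, 8), (1, 2, 9), (1, 3, 9), (1, 3, 10),
      (1, 6, 10), (2, 8, 11), (2, 9, 11), (3, 4, 10), (3, 4, 12), (3, 9, 12), (4, 5, 12), (4, 5,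
      13), (4, 10, 14), (4, 13, 14), (5, 8, 13), (5, 8, 15), (5, 12, 15)]
    fin := [0, 0, 0, 3, 3, 5, 0, 7, 8, 3, 3, 11, 5, 5, 14, 15]
    chd := [(0, 8), (0, 11)]
    steps := [(0, 1), (0, 2), (0, 6), (3, 4), (3, 9), (3, 10), (5, 12), (5, 13)] }
  rep := [3, 8, 0, 5, 11, 7, 14, 15]

noncomputable def v720 : Cov.CovD where
  P := 3
  N := 5
  pl := [1, 8, 9]
  lev := [⟨[], [], [(1, 2)], [5], [(0, 2, [1, 4]), (2, 1, [2])]⟩,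
    ⟨[], [(0, 0), (0, 1), (0, 2)], [(0, 0), (0, 1), (0, 2), (1, 2)], [], [(0, 2, [1, 4]),
      (2, 1, [2]), (3, 0, []), (4, 0, [])]⟩,
    ⟨[(0, 1)], [(0, 1), (1, 0), (1, 1), (1, 2), (1, 4)], [(0, 1), (0, 4), (1, 4)], [], [(2,
      1, [2]), (3, 0, []), (5, 4, [2])]⟩,
    ⟨[(0, 1), (1, 2)], [(1, 0), (1, 1), (1, 2), (1, 3), (2, 0)], [(0, 0), (0, 3)], [], [(3,
      0, []), (4, 0, []), (6, 3, [])]⟩,
    ⟨[(1, 3)], [(1, 0), (3, 0), (3, 3)], [(0, 3), (3, 3)], [6], [(4, 0, []), (6, 3, []),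
      (7, 3, [])]⟩,
    ⟨[(3, 4)], [(0, 1), (1, 1), (2, 1), (3, 3), (4, 0), (4, 1), (4, 3)], [(1, 3), (3, 3)],
      [7], [(2, 1, [2]), (6, 3, []), (7, 3, [])]⟩]
  Ta := [((3, 5), 0, 4), ((3, 6), 0, 3), ((4, 0), 0, 2), ((4, 8), 0, 6), ((6, 3), 3, 0), ((6, 9),
    3, 7), ((7, 2), 3, 1), ((7, 8), 3, 6)]
  Tb := [((0, 1, 4), 2, 5, 0), ((1, 0, 2), 5, 2, 1), ((2, 1, 5), 1, 5, 4), ((2, 1, 7), 1, 5, 3),
    ((2, 1, 9), 1, 5, 7), ((2, 5, 7), 1, 4, 3), ((2, 5, 9), 1, 4, 7), ((2, 7, 9), 1, 3, 7),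
    ((3, 5, 6), 0, 4, 3), ((4, 0, 8), 0, 2, 6), ((5, 2, 3), 4, 1, 0), ((6, 3, 9), 3, 0, 7),
    ((7, 2, 8), 3, 1, 6), ((8, 4, 7), 6, 0, 3), ((9, 2, 6), 7, 1, 3)]
  Tc := [(2, 1, 4)]
  Td := [((1, 2), (2, 1), 5), ((1, 2), (2, 5), 4), ((1, 2), (2, 7), 3), ((1, 2), (2, 9), 7), ((2,
    1), (0, 1), 5), ((2, 1), (0, 4), 0), ((2, 4), (0, 1), 5), ((2, 4), (0, 4), 0), ((4, 2),
    (5, 2), 1), ((4, 2), (5, 3), 0)]
  G := [[0, 0xa161c24c161a24c, 0, 0x222d2222d2c8222d2222d2c45, 0x95de24895de2489], [0,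
    0xe1228e1428c, 0, 0x214212c8214214c85, 0x111cf248111cf2489], [0,
    0x6cae86a86ce24ca6c6aa6ce28c, 0x95de21895de214c, 0x22de21822de2185, 0x95de24895de2189],
    [0, 0x62ee8e628e2eeca24c, 0x95de21895de214c, 0x22de21822de2145, 0x95de24895de2489]]

noncomputable def n720 : Ent := ⟨e720, noF, [], [], [(7, 15, [360035742630636841211993100915356868655746945586763691010600961, 0]), (11, 15, [360035742630636841211993100915356868655746945586763691010617345, 0])]⟩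

def c720 : PLift (Cov.check n720.C.D v720 = true) := ⟨by decide +kernel⟩

def b720 : PLift (entF (fidx ts) 400 720 n720 = true) := ⟨by decide +kernel⟩

theorem g720 : GoodF (fidx ts) 400 720 := GoodF.ofV v720 n720 c720.down b720.down

/-- 474565:612/7 -/
noncomputable def e721 : SCfg where
  D := {
    a := 6
    L := 10
    kp := 7
    inn := [(0, 1), (1, 0), (1, 2), (1, 3), (2, 1), (3, 1), (3, 4), (4, 3), (4, 5), (5, 4)]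
    mix := [(0, 0), (0, 1), (0, 2), (1, 0), (1, 2), (1, 3), (1, 4), (2, 2), (2, 3), (2, 5), (3, 3), (3,
      4), (3, 6), (4, 4), (4, 6), (4, 7), (4, 8), (5, 5), (5, 6), (5, 7), (5, 9)]
    cl := [4, 5, 3, 0, 0, 2, 1, 1, 6, 7]
    chq := [(0, 3), (0, 5), (3, 0), (5, 0)]
    rng := [(0, 1), (0, 4), (1, 0), (1, 2), (2, 1), (2, 5), (3, 5), (3, 6), (4, 0), (4, 8), (5, 2), (5,
      3), (5, 6), (5, 9), (6, 3), (6, 5), (7, 8), (7, 9), (8, 4), (8, 7), (9, 5), (9, 7)]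
    lev := [] }
  links := [[1, 6, 7, 8], [6, 0, 8, 2, 9, 3, 10], [9, 1, 8, 11], [10, 1, 9, 12, 4], [10, 3, 12, 5, 13,
    14], [13, 4, 12, 11, 15]]
  P := {
    a := 6
    N := 16
    nb := [450, 1869, 2818, 5650, 29736, 47120, 1155, 321, 2183, 6158, 16474, 37668, 2616, 49200,
      9232, 10272]
    tri := [(0, 1, 6), (0, 1, 8), (0, 6, 7), (0, 7, 8), (1, 2, 8), (1, 2, 9), (1, 3, 9), (1, 3, 10),
      (1, 6, 10), (2, 8, 11), (2, 9, 11), (3, 4, 10), (3, 4, 12), (3, 9, 12), (4, 5, 12), (4, 5,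
      13), (4, 10, 14), (4, 13, 14), (5, 11, 12), (5, 11, 15), (5, 13, 15)]
    fin := [0, 0, 2, 3, 4, 5, 6, 0, 2, 3, 3, 5, 4, 4, 14, 15]
    chd := [(0, 3), (2, 3)]
    steps := [(0, 1), (0, 7), (2, 8), (3, 9), (3, 10), (4, 12), (4, 13), (5, 11)] }
  rep := [3, 4, 5, 2, 6, 0, 14, 15]

noncomputable def v721 : Cov.CovD where
  P := 3
  N := 5
  pl := [0, 5, 8, 9]
  lev := [⟨[], [], [(3, 5)], [4], [(1, 5, [0]), (2, 3, [0])]⟩,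
    ⟨[], [(0, 0), (0, 3), (0, 5)], [(0, 0), (0, 3)], [4], [(2, 3, [0]), (3, 0, [3, 5]), (4,
      0, [3, 5])]⟩,
    ⟨[(0, 1)], [(0, 3), (1, 0), (1, 3)], [(0, 3)], [2], [(2, 3, [0]), (3, 0, [3, 5])]⟩,
    ⟨[(0, 1), (1, 2)], [(1, 0), (1, 1), (1, 3), (2, 0)], [(0, 0), (0, 1)], [], [(3, 0, [3,
      5]), (4, 0, [3, 5]), (6, 1, [])]⟩,
    ⟨[(1, 3)], [(1, 0), (3, 0), (3, 1)], [(0, 1), (1, 1)], [6], [(4, 0, [3, 5]), (6, 1,
      []), (7, 1, [])]⟩,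
    ⟨[(3, 4)], [(3, 1), (4, 0), (4, 1)], [(1, 1)], [2, 7], [(6, 1, []), (7, 1, [])]⟩]
  Ta := [((3, 5), 0, 2), ((3, 6), 0, 1), ((4, 0), 0, 4), ((4, 8), 0, 6), ((6, 3), 1, 0), ((6, 5),
    1, 2), ((7, 8), 1, 6), ((7, 9), 1, 7)]
  Tb := [((0, 1, 4), 4, 5, 0), ((1, 0, 2), 5, 4, 3), ((2, 1, 5), 3, 5, 2), ((3, 5, 6), 0, 2, 1),
    ((4, 0, 8), 0, 4, 6), ((5, 2, 3), 2, 3, 0), ((5, 2, 6), 2, 3, 1), ((5, 2, 9), 2, 3, 7),
    ((5, 3, 6), 2, 0, 1), ((5, 3, 9), 2, 0, 7), ((5, 6, 9), 2, 1, 7), ((6, 3, 5), 1, 0, 2),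
    ((7, 8, 9), 1, 6, 7), ((8, 4, 7), 6, 0, 1), ((9, 5, 7), 7, 2, 1)]
  Tc := [(0, 3, 5)]
  Td := [((0, 3), (3, 5), 2), ((0, 3), (3, 6), 1), ((0, 3), (4, 0), 4), ((0, 3), (4, 8), 6), ((0,
    5), (3, 5), 2), ((0, 5), (3, 6), 1), ((0, 5), (4, 0), 4), ((0, 5), (4, 8), 6), ((3, 0),
    (2, 1), 5), ((3, 0), (2, 5), 2), ((5, 0), (1, 0), 4), ((5, 0), (1, 2), 3)]
  G := [[0, 0xccc28ccc24cca4cca4ce1, 0xc148c184c142e1, 0xc148c184c14c14ce1,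
    0x99c48118d8118d8a118d82e1], [0, 0, 0xc148c184c142e1, 0, 0x118d48118d899c2a118d82e1], [0,
    0, 0, 0x59c41855c81499c41259c4855c8455c81ef,
    0x99c418884819c818841e9498c1299c489498c199c42ef], [0, 0, 0, 0,
    0x99c2189498a1499c41299c4899c2119c88c2ef]]

noncomputable def n721 : Ent := ⟨e721, noF, [], [], [(7, 15, [360035742630636841211993100915356868655746945586763691010609153, 0]), (8, 15, [360035742630636841211993100915356868655746945586763691010617345, 0])]⟩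

def c721 : PLift (Cov.check n721.C.D v721 = true) := ⟨by decide +kernel⟩

def b721 : PLift (entF (fidx ts) 400 721 n721 = true) := ⟨by decide +kernel⟩

theorem g721 : GoodF (fidx ts) 400 721 := GoodF.ofV v721 n721 c721.down b721.down

/-- 474565:612 -/
noncomputable def e722 : SCfg where
  D := {
    a := 6
    L := 11
    kp := 8
    inn := [(0, 1), (1, 0), (1, 2), (1, 3), (2, 1), (3, 1), (3, 4), (4, 3), (4, 5), (5, 4)]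
    mix := [(0, 0), (0, 1), (0, 2), (1, 0), (1, 2), (1, 3), (1, 4), (2, 2), (2, 3), (2, 5), (3, 3), (3,
      4), (3, 6), (4, 4), (4, 6), (4, 7), (4, 8), (5, 6), (5, 7), (5, 9), (5, 10)]
    cl := [2, 4, 1, 0, 0, 5, 3, 3, 6, 7, 8]
    chq := [(0, 1), (0, 4), (1, 0), (4, 0)]
    rng := [(0, 1), (0, 4), (1, 0), (1, 2), (2, 1), (2, 5), (3, 5), (3, 6), (4, 0), (4, 8), (5, 2), (5,
      3), (6, 3), (6, 9), (7, 8), (7, 10), (8, 4), (8, 7), (9, 6), (9, 10), (10, 7), (10, 9)]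
    lev := [] }
  links := [[1, 6, 7, 8], [6, 0, 8, 2, 9, 3, 10], [9, 1, 8, 11], [10, 1, 9, 12, 4], [10, 3, 12, 5, 13,
    14], [13, 4, 12, 15, 16]]
  P := {
    a := 6
    N := 17
    nb := [450, 1869, 2818, 5650, 29736, 110608, 1155, 321, 2183, 6158, 16474, 772, 33336, 81968,
      9232, 69664, 40992]
    tri := [(0, 1, 6), (0, 1, 8), (0, 6, 7), (0, 7, 8), (1, 2, 8), (1, 2, 9), (1, 3, 9), (1, 3, 10),
      (1, 6, 10), (2, 8, 11), (2, 9, 11), (3, 4, 10), (3, 4, 12), (3, 9, 12), (4, 5, 12), (4, 5,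
      13), (4, 10, 14), (4, 13, 14), (5, 12, 15), (5, 13, 16), (5, 15, 16)]
    fin := [0, 0, 2, 3, 3, 5, 6, 0, 2, 3, 3, 11, 5, 5, 14, 15, 16]
    chd := [(0, 3), (2, 3)]
    steps := [(0, 1), (0, 7), (2, 8), (3, 4), (3, 9), (3, 10), (5, 12), (5, 13)] }
  rep := [3, 2, 6, 5, 0, 11, 14, 15, 16]

noncomputable def v722 : Cov.CovD where
  P := 3
  N := 6
  pl := [0, 5, 8, 9, 10]
  lev := [⟨[], [], [(1, 4)], [2], [(1, 4, [0]), (2, 1, [0])]⟩,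
    ⟨[], [(0, 0), (0, 1), (0, 4)], [(0, 0), (0, 1)], [2], [(2, 1, [0]), (3, 0, [1, 4]), (4,
      0, [1, 4])]⟩,
    ⟨[(0, 1)], [(0, 1), (1, 0), (1, 1)], [(0, 1)], [5], [(2, 1, [0]), (3, 0, [1, 4])]⟩,
    ⟨[(0, 1), (1, 2)], [(1, 0), (1, 1), (1, 3), (2, 0)], [(0, 0), (0, 3)], [], [(3, 0, [1,
      4]), (4, 0, [1, 4]), (6, 3, [])]⟩,
    ⟨[(1, 3)], [(1, 0), (3, 0), (3, 3)], [(0, 3), (3, 3)], [6], [(4, 0, [1, 4]), (6, 3,
      []), (7, 3, [])]⟩,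
    ⟨[(3, 4)], [(3, 3), (4, 0), (4, 3)], [(3, 3)], [7, 8], [(6, 3, []), (7, 3, [])]⟩]
  Ta := [((3, 5), 0, 5), ((3, 6), 0, 3), ((4, 0), 0, 2), ((4, 8), 0, 6), ((6, 3), 3, 0), ((6, 9),
    3, 7), ((7, 8), 3, 6), ((7, 10), 3, 8)]
  Tb := [((0, 1, 4), 2, 4, 0), ((1, 0, 2), 4, 2, 1), ((2, 1, 5), 1, 4, 5), ((3, 5, 6), 0, 5, 3),
    ((4, 0, 8), 0, 2, 6), ((5, 2, 3), 5, 1, 0), ((6, 3, 9), 3, 0, 7), ((7, 8, 10), 3, 6, 8),
    ((8, 4, 7), 6, 0, 3), ((9, 6, 10), 7, 3, 8), ((10, 7, 9), 8, 3, 7)]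
  Tc := [(0, 1, 4)]
  Td := [((0, 1), (3, 5), 5), ((0, 1), (3, 6), 3), ((0, 1), (4, 0), 2), ((0, 1), (4, 8), 6), ((0,
    4), (3, 5), 5), ((0, 4), (3, 6), 3), ((0, 4), (4, 0), 2), ((0, 4), (4, 8), 6), ((1, 0),
    (2, 1), 4), ((1, 0), (2, 5), 5), ((4, 0), (1, 0), 2), ((4, 0), (1, 2), 1)]
  G := [[0, 0x14441c91167a11cd163aac1, 0, 0x31cdfd27a11cdaf52fac41, 0xfb4d15ab6fb4d15ab6c81],
    [0, 0x111ef8111ef2641, 0, 0x111ef4111ef4c81, 0x111ef2111ef4c81], [0,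
    0x11cd11ab6c111c116bea81, 0x7dae82a875ee1482a417dae875ea1cc, 0xd26d2ab7dee181,
    0x426d92eb6dee181], [0, 0x111ef2111ef8641, 0xa2ff5ea14fbfe44618c, 0xff6f8a141,
    0xffaf46181]]

noncomputable def n722 : Ent := ⟨e722, noF, [], [], [(7, 15, [1685356702439545624007900436039642273970977273354372543760003022849, 0]), (7, 16, [1580044410770988437309982408355971841652082177953823432505692053505, 0]), (8, 16, [1580044410770988437309982408355971841652082177953823432505692061697, 0]), (11, 15, [1685356702439545624007900436039642273970977273354372543760003043329, 0])]⟩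

def c722 : PLift (Cov.check n722.C.D v722 = true) := ⟨by decide +kernel⟩

def b722 : PLift (entF (fidx ts) 400 722 n722 = true) := ⟨by decide +kernel⟩

theorem g722 : GoodF (fidx ts) 400 722 := GoodF.ofV v722 n722 c722.down b722.down

/-- 474654:614/3 -/
noncomputable def e723 : SCfg where
  D := {
    a := 6
    L := 7
    kp := 4
    inn := [(0, 1), (1, 0), (1, 2), (1, 3), (2, 1), (2, 4), (3, 1), (3, 5), (4, 2), (5, 3)]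
    mix := [(0, 0), (0, 1), (0, 2), (1, 0), (1, 2), (1, 3), (1, 4), (2, 2), (2, 3), (3, 3), (3, 4), (3,
      5), (3, 6), (4, 1), (4, 2), (4, 3), (4, 5), (5, 1), (5, 5), (5, 6)]
    cl := [2, 1, 0, 0, 0, 3, 4]
    chq := [(3, 4), (4, 3)]
    rng := [(0, 1), (0, 4), (1, 0), (1, 2), (1, 5), (1, 6), (2, 1), (3, 5), (4, 0), (4, 6), (5, 1), (5,
      3), (6, 1), (6, 4)]
    lev := [] }
  links := [[1, 6, 7, 8], [6, 0, 8, 2, 9, 3, 10], [9, 1, 8, 4], [10, 1, 9, 11, 5, 12], [9, 2, 8, 7, 11],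
    [12, 3, 11, 7]]
  P := {
    a := 6
    N := 13
    nb := [450, 1869, 786, 7714, 2948, 6280, 1155, 6513, 151, 2078, 4170, 696, 1192]
    tri := [(0, 1, 6), (0, 1, 8), (0, 6, 7), (0, 7, 8), (1, 2, 8), (1, 2, 9), (1, 3, 9), (1, 3, 10),
      (1, 6, 10), (2, 4, 8), (2, 4, 9), (3, 5, 11), (3, 5, 12), (3, 9, 11), (3, 10, 12), (4, 7,
      8), (4, 7, 11), (4, 9, 11), (5, 7, 11), (5, 7, 12)]
    fin := [0, 0, 0, 3, 3, 5, 0, 7, 3, 3, 3, 5, 12]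
    chd := [(5, 12)]
    steps := [(0, 1), (0, 2), (0, 6), (3, 9), (3, 4), (3, 8), (3, 10), (5, 11)] }
  rep := [3, 7, 0, 5, 12]

noncomputable def v723 : Cov.CovD where
  P := 3
  N := 2
  pl := [0, 1]
  lev := [⟨[], [], [], [1, 2], [(2, 0, [])]⟩,
    ⟨[], [(0, 0)], [(0, 0)], [2], [(2, 0, []), (3, 0, []), (4, 0, [])]⟩,
    ⟨[(0, 1)], [(0, 0), (1, 0)], [(0, 0)], [], [(2, 0, []), (3, 0, [])]⟩,
    ⟨[(0, 1), (1, 2)], [(1, 0), (1, 3), (1, 4), (2, 0)], [(0, 0), (0, 3), (0, 4), (3, 4)],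
      [], [(3, 0, []), (4, 0, []), (5, 3, [4]), (6, 4, [3])]⟩,
    ⟨[(1, 2)], [(0, 0), (1, 0), (2, 0), (2, 3), (3, 0), (3, 3)], [(0, 0), (0, 3)], [1],
      [(2, 0, []), (3, 0, []), (5, 3, [4])]⟩,
    ⟨[(1, 3)], [(3, 0), (3, 3), (3, 4), (4, 3)], [(3, 4)], [1], [(5, 3, [4]), (6, 4, [3])]⟩]
  Ta := [((2, 1), 0, 1), ((3, 5), 0, 3), ((4, 0), 0, 2), ((4, 6), 0, 4)]
  Tb := [((0, 1, 4), 2, 1, 0), ((1, 0, 2), 1, 2, 0), ((1, 0, 5), 1, 2, 3), ((1, 0, 6), 1, 2, 4),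
    ((1, 2, 5), 1, 0, 3), ((1, 2, 6), 1, 0, 4), ((1, 5, 6), 1, 3, 4), ((4, 0, 6), 0, 2, 4),
    ((5, 1, 3), 3, 1, 0), ((6, 1, 4), 4, 1, 0)]
  Tc := []
  Td := [((3, 4), (5, 1), 1), ((3, 4), (5, 3), 0), ((4, 3), (6, 1), 1), ((4, 3), (6, 4), 0)]
  G := [[0, 0x44428822a8c4, 0, 0x11c2284, 0x184411ce428], [0, 0, 0, 0x59c2841, 0x884411ce821],
    [0, 0, 0x884411ce428, 0x95c2844, 0x884411ce421]]

noncomputable def n723 : Ent := ⟨e723, noF, [], [], []⟩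

def c723 : PLift (Cov.check n723.C.D v723 = true) := ⟨by decide +kernel⟩

def b723 : PLift (entF (fidx ts) 400 723 n723 = true) := ⟨by decide +kernel⟩

theorem g723 : GoodF (fidx ts) 400 723 := GoodF.ofV v723 n723 c723.down b723.down

/-- 474654:614/2 -/
noncomputable def e724 : SCfg where
  D := {
    a := 6
    L := 8
    kp := 5
    inn := [(0, 1), (1, 0), (1, 2), (1, 3), (2, 1), (2, 4), (3, 1), (3, 5), (4, 2), (5, 3)]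
    mix := [(0, 0), (0, 1), (0, 2), (1, 0), (1, 2), (1, 3), (1, 4), (2, 2), (2, 3), (3, 3), (3, 4), (3,
      5), (3, 6), (4, 1), (4, 2), (4, 3), (4, 7), (5, 1), (5, 5), (5, 6)]
    cl := [2, 1, 0, 0, 0, 3, 4, 5]
    chq := [(3, 4), (4, 3)]
    rng := [(0, 1), (0, 4), (1, 0), (1, 2), (1, 5), (1, 6), (1, 7), (2, 1), (3, 5), (3, 7), (4, 0), (4,
      6), (5, 1), (5, 3), (6, 1), (6, 4), (7, 1), (7, 3)]
    lev := [] }
  links := [[1, 6, 7, 8], [6, 0, 8, 2, 9, 3, 10], [9, 1, 8, 4], [10, 1, 9, 11, 5, 12], [9, 2, 8, 7, 13],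
    [12, 3, 11, 7]]
  P := {
    a := 6
    N := 14
    nb := [450, 1869, 786, 7714, 9092, 6280, 1155, 14705, 151, 10270, 4170, 680, 1192, 656]
    tri := [(0, 1, 6), (0, 1, 8), (0, 6, 7), (0, 7, 8), (1, 2, 8), (1, 2, 9), (1, 3, 9), (1, 3, 10),
      (1, 6, 10), (2, 4, 8), (2, 4, 9), (3, 5, 11), (3, 5, 12), (3, 9, 11), (3, 10, 12), (4, 7,
      8), (4, 7, 13), (4, 9, 13), (5, 7, 11), (5, 7, 12)]
    fin := [0, 0, 2, 2, 4, 5, 0, 4, 2, 2, 2, 5, 12, 13]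
    chd := [(5, 12)]
    steps := [(0, 1), (0, 6), (2, 8), (2, 9), (2, 3), (2, 10), (4, 7), (5, 11)] }
  rep := [2, 4, 0, 5, 12, 13]

noncomputable def v724 : Cov.CovD where
  P := 3
  N := 3
  pl := [0, 1, 7]
  lev := [⟨[], [], [], [1, 2], [(2, 0, [])]⟩,
    ⟨[], [(0, 0)], [(0, 0)], [2], [(2, 0, []), (3, 0, []), (4, 0, [])]⟩,
    ⟨[(0, 1)], [(0, 0), (1, 0)], [(0, 0)], [], [(2, 0, []), (3, 0, [])]⟩,
    ⟨[(0, 1), (1, 2)], [(1, 0), (1, 3), (1, 4), (2, 0)], [(0, 0), (0, 3), (0, 4), (3, 4)],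
      [], [(3, 0, []), (4, 0, []), (5, 3, [4]), (6, 4, [3])]⟩,
    ⟨[(1, 2)], [(0, 0), (1, 0), (2, 0), (3, 0)], [(0, 0)], [1, 5], [(2, 0, []), (3, 0,
      [])]⟩,
    ⟨[(1, 3)], [(3, 0), (3, 3), (3, 4)], [(3, 4)], [1], [(5, 3, [4]), (6, 4, [3])]⟩]
  Ta := [((2, 1), 0, 1), ((3, 5), 0, 3), ((3, 7), 0, 5), ((4, 0), 0, 2), ((4, 6), 0, 4)]
  Tb := [((0, 1, 4), 2, 1, 0), ((1, 0, 2), 1, 2, 0), ((1, 0, 5), 1, 2, 3), ((1, 0, 6), 1, 2, 4),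
    ((1, 0, 7), 1, 2, 5), ((1, 2, 5), 1, 0, 3), ((1, 2, 6), 1, 0, 4), ((1, 2, 7), 1, 0, 5),
    ((1, 5, 6), 1, 3, 4), ((1, 5, 7), 1, 3, 5), ((1, 6, 7), 1, 4, 5), ((3, 5, 7), 0, 3, 5),
    ((4, 0, 6), 0, 2, 4), ((5, 1, 3), 3, 1, 0), ((6, 1, 4), 4, 1, 0), ((7, 1, 3), 5, 1, 0)]
  Tc := []
  Td := [((3, 4), (5, 1), 1), ((3, 4), (5, 3), 0), ((4, 3), (6, 1), 1), ((4, 3), (6, 4), 0)]
  G := [[0, 0x44c2266288688c4, 0, 0x11c2288, 0x81c41c11ce828], [0, 0, 0, 0xddc2484,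
    0x88c44c11ce828], [0, 0, 0x88c44c11ce428, 0xddc2848, 0x88c44c11ce421]]

noncomputable def n724 : Ent := ⟨e724, noF, [], [], [(13, 11, [18394811281478977149262555032661714881264703900882907137, 0])]⟩

def c724 : PLift (Cov.check n724.C.D v724 = true) := ⟨by decide +kernel⟩

def b724 : PLift (entF (fidx ts) 400 724 n724 = true) := ⟨by decide +kernel⟩

theorem g724 : GoodF (fidx ts) 400 724 := GoodF.ofV v724 n724 c724.down b724.down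

/-- 474654:614/4 -/
noncomputable def e725 : SCfg where
  D := {
    a := 6
    L := 8
    kp := 5
    inn := [(0, 1), (1, 0), (1, 2), (1, 3), (2, 1), (2, 4), (3, 1), (3, 5), (4, 2), (5, 3)]
    mix := [(0, 0), (0, 1), (0, 2), (1, 0), (1, 2), (1, 3), (1, 4), (2, 2), (2, 3), (3, 3), (3, 4), (3,
      5), (3, 6), (4, 1), (4, 2), (4, 3), (4, 5), (5, 5), (5, 6), (5, 7)]
    cl := [1, 2, 0, 0, 0, 3, 4, 5]
    chq := [(3, 4), (4, 3)]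
    rng := [(0, 1), (0, 4), (1, 0), (1, 2), (1, 5), (2, 1), (3, 5), (4, 0), (4, 6), (5, 1), (5, 3), (5,
      7), (6, 4), (6, 7), (7, 5), (7, 6)]
    lev := [] }
  links := [[1, 6, 7, 8], [6, 0, 8, 2, 9, 3, 10], [9, 1, 8, 4], [10, 1, 9, 11, 5, 12], [9, 2, 8, 7, 11],
    [12, 3, 11, 13]]
  P := {
    a := 6
    N := 14
    nb := [450, 1869, 786, 7714, 2948, 14344, 1155, 2385, 151, 2078, 4170, 8888, 9256, 6176]
    tri := [(0, 1, 6), (0, 1, 8), (0, 6, 7), (0, 7, 8), (1, 2, 8), (1, 2, 9), (1, 3, 9), (1, 3, 10),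
      (1, 6, 10), (2, 4, 8), (2, 4, 9), (3, 5, 11), (3, 5, 12), (3, 9, 11), (3, 10, 12), (4, 7,
      8), (4, 7, 11), (4, 9, 11), (5, 11, 13), (5, 12, 13)]
    fin := [0, 0, 0, 3, 3, 5, 0, 7, 3, 3, 3, 5, 12, 13]
    chd := [(5, 12)]
    steps := [(0, 1), (0, 2), (0, 6), (3, 9), (3, 4), (3, 8), (3, 10), (5, 11)] }
  rep := [3, 0, 7, 5, 12, 13]

noncomputable def v725 : Cov.CovD where
  P := 3
  N := 3
  pl := [0, 1, 7]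
  lev := [⟨[], [], [], [1, 2], [(2, 0, [])]⟩,
    ⟨[], [(0, 0)], [(0, 0)], [1], [(2, 0, []), (3, 0, []), (4, 0, [])]⟩,
    ⟨[(0, 1)], [(0, 0), (1, 0)], [(0, 0)], [], [(2, 0, []), (3, 0, [])]⟩,
    ⟨[(0, 1), (1, 2)], [(1, 0), (1, 3), (1, 4), (2, 0)], [(0, 0), (0, 3), (0, 4), (3, 4)],
      [], [(3, 0, []), (4, 0, []), (5, 3, [4]), (6, 4, [3])]⟩,
    ⟨[(1, 2)], [(0, 0), (1, 0), (2, 0), (2, 3), (3, 0), (3, 3)], [(0, 0), (0, 3)], [2],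
      [(2, 0, []), (3, 0, []), (5, 3, [4])]⟩,
    ⟨[(1, 3)], [(3, 0), (3, 3), (3, 4), (4, 3)], [(3, 4)], [5], [(5, 3, [4]), (6, 4, [3])]⟩]
  Ta := [((2, 1), 0, 2), ((3, 5), 0, 3), ((4, 0), 0, 1), ((4, 6), 0, 4)]
  Tb := [((0, 1, 4), 1, 2, 0), ((1, 0, 2), 2, 1, 0), ((1, 0, 5), 2, 1, 3), ((1, 2, 5), 2, 0, 3),
    ((4, 0, 6), 0, 1, 4), ((5, 1, 3), 3, 2, 0), ((5, 1, 7), 3, 2, 5), ((5, 3, 7), 3, 0, 5),
    ((6, 4, 7), 4, 0, 5), ((7, 5, 6), 5, 3, 4)]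
  Tc := []
  Td := [((3, 4), (5, 1), 2), ((3, 4), (5, 3), 0), ((3, 4), (5, 7), 5), ((4, 3), (6, 4), 0), ((4,
    3), (6, 7), 5)]
  G := [[0, 0, 0x54489832a8c4, 0x5433c649884c8, 0x55a32629882c8], [0, 0, 0, 0x54429833ca2c1,
    0x55a449832a4c8], [0, 0x54429833ca2c4, 0, 0x5433c629888c1, 0x55a449832a8c1]]

noncomputable def n725 : Ent := ⟨e725, noF, [], [], [(7, 13, [18394062992640663726968434746027364144358640063420903425, 0])]⟩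

def c725 : PLift (Cov.check n725.C.D v725 = true) := ⟨by decide +kernel⟩

def b725 : PLift (entF (fidx ts) 400 725 n725 = true) := ⟨by decide +kernel⟩

theorem g725 : GoodF (fidx ts) 400 725 := GoodF.ofV v725 n725 c725.down b725.down

/-- 474654:614/1 -/
noncomputable def e726 : SCfg where
  D := {
    a := 6
    L := 9
    kp := 6
    inn := [(0, 1), (1, 0), (1, 2), (1, 3), (2, 1), (2, 4), (3, 1), (3, 5), (4, 2), (5, 3)]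
    mix := [(0, 0), (0, 1), (0, 2), (1, 0), (1, 2), (1, 3), (1, 4), (2, 2), (2, 3), (3, 3), (3, 4), (3,
      5), (3, 6), (4, 1), (4, 2), (4, 3), (4, 7), (5, 5), (5, 6), (5, 8)]
    cl := [1, 2, 0, 0, 0, 3, 4, 5, 6]
    chq := [(3, 4), (4, 3)]
    rng := [(0, 1), (0, 4), (1, 0), (1, 2), (1, 7), (2, 1), (3, 5), (3, 7), (4, 0), (4, 6), (5, 3), (5,
      8), (6, 4), (6, 8), (7, 1), (7, 3), (8, 5), (8, 6)]
    lev := [] }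
  links := [[1, 6, 7, 8], [6, 0, 8, 2, 9, 3, 10], [9, 1, 8, 4], [10, 1, 9, 11, 5, 12], [9, 2, 8, 7, 13],
    [12, 3, 11, 14]]
  P := {
    a := 6
    N := 15
    nb := [450, 1869, 786, 7714, 9092, 22536, 1155, 8529, 151, 10270, 4170, 16936, 17448, 656, 6176]
    tri := [(0, 1, 6), (0, 1, 8), (0, 6, 7), (0, 7, 8), (1, 2, 8), (1, 2, 9), (1, 3, 9), (1, 3, 10),
      (1, 6, 10), (2, 4, 8), (2, 4, 9), (3, 5, 11), (3, 5, 12), (3, 9, 11), (3, 10, 12), (4, 7,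
      8), (4, 7, 13), (4, 9, 13), (5, 11, 14), (5, 12, 14)]
    fin := [0, 0, 2, 2, 4, 5, 0, 4, 2, 2, 2, 5, 12, 13, 14]
    chd := [(5, 12)]
    steps := [(0, 1), (0, 6), (2, 8), (2, 9), (2, 3), (2, 10), (4, 7), (5, 11)] }
  rep := [2, 0, 4, 5, 12, 13, 14]

noncomputable def v726 : Cov.CovD where
  P := 3
  N := 4
  pl := [0, 1, 7, 8]
  lev := [⟨[], [], [], [1, 2], [(2, 0, [])]⟩,
    ⟨[], [(0, 0)], [(0, 0)], [1], [(2, 0, []), (3, 0, []), (4, 0, [])]⟩,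
    ⟨[(0, 1)], [(0, 0), (1, 0)], [(0, 0)], [], [(2, 0, []), (3, 0, [])]⟩,
    ⟨[(0, 1), (1, 2)], [(1, 0), (1, 3), (1, 4), (2, 0)], [(0, 0), (0, 3), (0, 4), (3, 4)],
      [], [(3, 0, []), (4, 0, []), (5, 3, [4]), (6, 4, [3])]⟩,
    ⟨[(1, 2)], [(0, 0), (1, 0), (2, 0), (3, 0)], [(0, 0)], [2, 5], [(2, 0, []), (3, 0,
      [])]⟩,
    ⟨[(1, 3)], [(3, 0), (3, 3), (3, 4)], [(3, 4)], [6], [(5, 3, [4]), (6, 4, [3])]⟩]
  Ta := [((2, 1), 0, 2), ((3, 5), 0, 3), ((3, 7), 0, 5), ((4, 0), 0, 1), ((4, 6), 0, 4)]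
  Tb := [((0, 1, 4), 1, 2, 0), ((1, 0, 2), 2, 1, 0), ((1, 0, 7), 2, 1, 5), ((1, 2, 7), 2, 0, 5),
    ((3, 5, 7), 0, 3, 5), ((4, 0, 6), 0, 1, 4), ((5, 3, 8), 3, 0, 6), ((6, 4, 8), 4, 0, 6),
    ((7, 1, 3), 5, 2, 0), ((8, 5, 6), 6, 3, 4)]
  Tc := []
  Td := [((3, 4), (5, 3), 0), ((3, 4), (5, 8), 6), ((4, 3), (6, 4), 0), ((4, 3), (6, 8), 6)]
  G := [[0, 0, 0x5564899a336a8c4, 0x55c33c6299c82c8, 0x55a33a6299a82c8], [0, 0, 0,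
    0x55c33c6499c88c8, 0x55a33a6499a82c8], [0, 0x55c33c6299c82c8, 0, 0x55c4499c33ca2c1,
    0x55a4499a33aa2c1]]

noncomputable def n726 : Ent := ⟨e726, noF, [], [], [(7, 14, [81620716623019490593592230936445690773474979418095886352385, 0]), (13, 11, [87897819106695009670850314479939991540314240926397382873089, 0])]⟩

def c726 : PLift (Cov.check n726.C.D v726 = true) := ⟨by decide +kernel⟩

def b726 : PLift (entF (fidx ts) 400 726 n726 = true) := ⟨by decide +kernel⟩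

theorem g726 : GoodF (fidx ts) 400 726 := GoodF.ofV v726 n726 c726.down b726.down

/-- 474654:614/6 -/
noncomputable def e727 : SCfg where
  D := {
    a := 6
    L := 8
    kp := 5
    inn := [(0, 1), (1, 0), (1, 2), (1, 3), (2, 1), (2, 4), (3, 1), (3, 5), (4, 2), (5, 3)]
    mix := [(0, 0), (0, 1), (0, 2), (1, 0), (1, 2), (1, 3), (1, 4), (2, 2), (2, 3), (3, 3), (3, 4), (3,
      5), (3, 6), (4, 2), (4, 3), (4, 5), (4, 7), (5, 1), (5, 5), (5, 6)]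
    cl := [1, 2, 0, 0, 0, 3, 4, 5]
    chq := [(3, 4), (4, 3)]
    rng := [(0, 1), (0, 4), (1, 0), (1, 2), (1, 5), (1, 6), (2, 1), (2, 7), (3, 5), (4, 0), (4, 6), (5,
      1), (5, 3), (5, 7), (6, 1), (6, 4), (7, 2), (7, 5)]
    lev := [] }
  links := [[1, 6, 7, 8], [6, 0, 8, 2, 9, 3, 10], [9, 1, 8, 4], [10, 1, 9, 11, 5, 12], [9, 2, 8, 13, 11],
    [12, 3, 11, 7]]
  P := {
    a := 6
    N := 14
    nb := [450, 1869, 786, 7714, 11012, 6280, 1155, 6497, 8343, 2078, 4170, 8888, 1192, 2320]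
    tri := [(0, 1, 6), (0, 1, 8), (0, 6, 7), (0, 7, 8), (1, 2, 8), (1, 2, 9), (1, 3, 9), (1, 3, 10),
      (1, 6, 10), (2, 4, 8), (2, 4, 9), (3, 5, 11), (3, 5, 12), (3, 9, 11), (3, 10, 12), (4, 8,
      13), (4, 9, 11), (4, 11, 13), (5, 7, 11), (5, 7, 12)]
    fin := [0, 0, 0, 3, 3, 5, 0, 7, 3, 3, 3, 5, 12, 13]
    chd := [(5, 12)]
    steps := [(0, 1), (0, 2), (0, 6), (3, 9), (3, 4), (3, 8), (3, 10), (5, 11)] }
  rep := [3, 0, 7, 5, 12, 13]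

noncomputable def v727 : Cov.CovD where
  P := 3
  N := 3
  pl := [0, 1, 7]
  lev := [⟨[], [], [], [1, 2], [(2, 0, [])]⟩,
    ⟨[], [(0, 0)], [(0, 0)], [1], [(2, 0, []), (3, 0, []), (4, 0, [])]⟩,
    ⟨[(0, 1)], [(0, 0), (1, 0)], [(0, 0)], [], [(2, 0, []), (3, 0, [])]⟩,
    ⟨[(0, 1), (1, 2)], [(1, 0), (1, 3), (1, 4), (2, 0)], [(0, 0), (0, 3), (0, 4), (3, 4)],
      [], [(3, 0, []), (4, 0, []), (5, 3, [4]), (6, 4, [3])]⟩,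
    ⟨[(1, 2)], [(0, 0), (1, 0), (2, 0), (2, 3), (3, 0), (3, 3)], [(0, 0), (0, 3)], [5],
      [(2, 0, []), (3, 0, []), (5, 3, [4])]⟩,
    ⟨[(1, 3)], [(3, 0), (3, 3), (3, 4), (4, 3)], [(3, 4)], [2], [(5, 3, [4]), (6, 4, [3])]⟩]
  Ta := [((2, 1), 0, 2), ((2, 7), 0, 5), ((3, 5), 0, 3), ((4, 0), 0, 1), ((4, 6), 0, 4)]
  Tb := [((0, 1, 4), 1, 2, 0), ((1, 0, 2), 2, 1, 0), ((1, 0, 5), 2, 1, 3), ((1, 0, 6), 2, 1, 4),
    ((1, 2, 5), 2, 0, 3), ((1, 2, 6), 2, 0, 4), ((1, 5, 6), 2, 3, 4), ((2, 1, 7), 0, 2, 5),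
    ((4, 0, 6), 0, 1, 4), ((5, 1, 3), 3, 2, 0), ((5, 1, 7), 3, 2, 5), ((5, 3, 7), 3, 0, 5),
    ((6, 1, 4), 4, 2, 0), ((7, 2, 5), 5, 0, 3)]
  Tc := []
  Td := [((3, 4), (5, 1), 2), ((3, 4), (5, 3), 0), ((3, 4), (5, 7), 5), ((4, 3), (6, 1), 2), ((4,
    3), (6, 4), 0)]
  G := [[0, 0, 0x444e222e62888e88c4, 0x111e2288, 0x811e111e112ee248], [0, 0, 0, 0x95de2841,
    0x111e199e222ee481], [0, 0x888e114e111ee828, 0, 0x95de2284, 0x111e991e222ee481]]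

noncomputable def n727 : Ent := ⟨e727, noF, [], [], [(7, 13, [18394062992640663726968434746027364144358640063420903425, 0])]⟩

def c727 : PLift (Cov.check n727.C.D v727 = true) := ⟨by decide +kernel⟩

def b727 : PLift (entF (fidx ts) 400 727 n727 = true) := ⟨by decide +kernel⟩

theorem g727 : GoodF (fidx ts) 400 727 := GoodF.ofV v727 n727 c727.down b727.down

/-- 474654:614/5 -/
noncomputable def e728 : SCfg where
  D := {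
    a := 6
    L := 9
    kp := 6
    inn := [(0, 1), (1, 0), (1, 2), (1, 3), (2, 1), (2, 4), (3, 1), (3, 5), (4, 2), (5, 3)]
    mix := [(0, 0), (0, 1), (0, 2), (1, 0), (1, 2), (1, 3), (1, 4), (2, 2), (2, 3), (3, 3), (3, 4), (3,
      5), (3, 6), (4, 2), (4, 3), (4, 7), (4, 8), (5, 1), (5, 5), (5, 6)]
    cl := [1, 2, 0, 0, 0, 3, 4, 5, 6]
    chq := [(3, 4), (4, 3)]
    rng := [(0, 1), (0, 4), (1, 0), (1, 2), (1, 5), (1, 6), (2, 1), (2, 7), (3, 5), (3, 8), (4, 0), (4,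
      6), (5, 1), (5, 3), (6, 1), (6, 4), (7, 2), (7, 8), (8, 3), (8, 7)]
    lev := [] }
  links := [[1, 6, 7, 8], [6, 0, 8, 2, 9, 3, 10], [9, 1, 8, 4], [10, 1, 9, 11, 5, 12], [9, 2, 8, 13, 14],
    [12, 3, 11, 7]]
  P := {
    a := 6
    N := 15
    nb := [450, 1869, 786, 7714, 25348, 6280, 1155, 6497, 8343, 18462, 4170, 680, 1192, 16656, 8720]
    tri := [(0, 1, 6), (0, 1, 8), (0, 6, 7), (0, 7, 8), (1, 2, 8), (1, 2, 9), (1, 3, 9), (1, 3, 10),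
      (1, 6, 10), (2, 4, 8), (2, 4, 9), (3, 5, 11), (3, 5, 12), (3, 9, 11), (3, 10, 12), (4, 8,
      13), (4, 9, 14), (4, 13, 14), (5, 7, 11), (5, 7, 12)]
    fin := [0, 0, 0, 3, 3, 5, 0, 7, 3, 3, 3, 5, 12, 13, 14]
    chd := [(5, 12)]
    steps := [(0, 1), (0, 2), (0, 6), (3, 9), (3, 4), (3, 8), (3, 10), (5, 11)] }
  rep := [3, 0, 7, 5, 12, 13, 14]

noncomputable def v728 : Cov.CovD where
  P := 3
  N := 4
  pl := [0, 1, 7, 8]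
  lev := [⟨[], [], [], [1, 2], [(2, 0, [])]⟩,
    ⟨[], [(0, 0)], [(0, 0)], [1], [(2, 0, []), (3, 0, []), (4, 0, [])]⟩,
    ⟨[(0, 1)], [(0, 0), (1, 0)], [(0, 0)], [], [(2, 0, []), (3, 0, [])]⟩,
    ⟨[(0, 1), (1, 2)], [(1, 0), (1, 3), (1, 4), (2, 0)], [(0, 0), (0, 3), (0, 4), (3, 4)],
      [], [(3, 0, []), (4, 0, []), (5, 3, [4]), (6, 4, [3])]⟩,
    ⟨[(1, 2)], [(0, 0), (1, 0), (2, 0), (3, 0)], [(0, 0)], [5, 6], [(2, 0, []), (3, 0,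
      [])]⟩,
    ⟨[(1, 3)], [(3, 0), (3, 3), (3, 4)], [(3, 4)], [2], [(5, 3, [4]), (6, 4, [3])]⟩]
  Ta := [((2, 1), 0, 2), ((2, 7), 0, 5), ((3, 5), 0, 3), ((3, 8), 0, 6), ((4, 0), 0, 1), ((4, 6),
    0, 4)]
  Tb := [((0, 1, 4), 1, 2, 0), ((1, 0, 2), 2, 1, 0), ((1, 0, 5), 2, 1, 3), ((1, 0, 6), 2, 1, 4),
    ((1, 2, 5), 2, 0, 3), ((1, 2, 6), 2, 0, 4), ((1, 5, 6), 2, 3, 4), ((2, 1, 7), 0, 2, 5),
    ((3, 5, 8), 0, 3, 6), ((4, 0, 6), 0, 1, 4), ((5, 1, 3), 3, 2, 0), ((6, 1, 4), 4, 2, 0),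
    ((7, 2, 8), 5, 0, 6), ((8, 3, 7), 6, 0, 5)]
  Tc := []
  Td := [((3, 4), (5, 1), 2), ((3, 4), (5, 3), 0), ((4, 3), (6, 1), 2), ((4, 3), (6, 4), 0)]
  G := [[0, 0, 0x444e222e62888e82c4, 0x111e2288, 0x811e111e211ee848], [0, 0, 0, 0xddde2281,
    0x88a884111e222ee648], [0, 0x881e441e111ee824, 0, 0xddde2488, 0x888e111e222ee248]]

noncomputable def n728 : Ent := ⟨e728, noF, [], [], [(7, 13, [87897818358406171357428020359653357189577334862559920865281, 0]), (14, 11, [81620717745452748063725672116875642299580338513852079370241, 0])]⟩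

def c728 : PLift (Cov.check n728.C.D v728 = true) := ⟨by decide +kernel⟩

def b728 : PLift (entF (fidx ts) 400 728 n728 = true) := ⟨by decide +kernel⟩

theorem g728 : GoodF (fidx ts) 400 728 := GoodF.ofV v728 n728 c728.down b728.down

/-- 474654:614/8 -/
noncomputable def e729 : SCfg where
  D := {
    a := 6
    L := 8
    kp := 5
    inn := [(0, 1), (1, 0), (1, 2), (1, 3), (2, 1), (2, 4), (3, 1), (3, 5), (4, 2), (5, 3)]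
    mix := [(0, 0), (0, 1), (0, 2), (1, 0), (1, 2), (1, 3), (1, 4), (2, 2), (2, 3), (3, 3), (3, 4), (3,
      5), (3, 6), (4, 2), (4, 3), (4, 5), (4, 7), (5, 5), (5, 6), (5, 7)]
    cl := [2, 5, 0, 0, 0, 1, 3, 4]
    chq := [(1, 3), (3, 1)]
    rng := [(0, 1), (0, 4), (1, 0), (1, 2), (2, 1), (2, 7), (3, 5), (4, 0), (4, 6), (5, 3), (5, 7), (6,
      4), (6, 7), (7, 2), (7, 5), (7, 6)]
    lev := [] }
  links := [[1, 6, 7, 8], [6, 0, 8, 2, 9, 3, 10], [9, 1, 8, 4], [10, 1, 9, 11, 5, 12], [9, 2, 8, 13, 11],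
    [12, 3, 11, 13]]
  P := {
    a := 6
    N := 14
    nb := [450, 1869, 786, 7714, 11012, 14344, 1155, 321, 8343, 2078, 4170, 8760, 9256, 6448]
    tri := [(0, 1, 6), (0, 1, 8), (0, 6, 7), (0, 7, 8), (1, 2, 8), (1, 2, 9), (1, 3, 9), (1, 3, 10),
      (1, 6, 10), (2, 4, 8), (2, 4, 9), (3, 5, 11), (3, 5, 12), (3, 9, 11), (3, 10, 12), (4, 8,
      13), (4, 9, 11), (4, 11, 13), (5, 11, 13), (5, 12, 13)]
    fin := [0, 0, 0, 3, 3, 5, 0, 7, 3, 3, 3, 5, 12, 13]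
    chd := [(5, 12)]
    steps := [(0, 1), (0, 2), (0, 6), (3, 9), (3, 4), (3, 8), (3, 10), (5, 11)] }
  rep := [3, 5, 0, 12, 13, 7]

noncomputable def v729 : Cov.CovD where
  P := 3
  N := 3
  pl := [0, 1, 7]
  lev := [⟨[], [], [], [2, 5], [(2, 0, [])]⟩,
    ⟨[], [(0, 0)], [(0, 0)], [2], [(2, 0, []), (3, 0, []), (4, 0, [])]⟩,
    ⟨[(0, 1)], [(0, 0), (1, 0)], [(0, 0)], [], [(2, 0, []), (3, 0, [])]⟩,
    ⟨[(0, 1), (1, 2)], [(1, 0), (1, 1), (1, 3), (2, 0)], [(0, 0), (0, 1), (0, 3), (1, 3)],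
      [], [(3, 0, []), (4, 0, []), (5, 1, [3]), (6, 3, [1])]⟩,
    ⟨[(1, 2)], [(0, 0), (1, 0), (2, 0), (2, 1), (3, 0), (3, 1)], [(0, 0), (0, 1)], [4],
      [(2, 0, []), (3, 0, []), (5, 1, [3])]⟩,
    ⟨[(1, 3)], [(3, 0), (3, 1), (3, 3), (4, 1)], [(1, 3)], [4], [(5, 1, [3]), (6, 3, [1])]⟩]
  Ta := [((2, 1), 0, 5), ((2, 7), 0, 4), ((3, 5), 0, 1), ((4, 0), 0, 2), ((4, 6), 0, 3)]
  Tb := [((0, 1, 4), 2, 5, 0), ((1, 0, 2), 5, 2, 0), ((2, 1, 7), 0, 5, 4), ((4, 0, 6), 0, 2, 3),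
    ((5, 3, 7), 1, 0, 4), ((6, 4, 7), 3, 0, 4), ((7, 2, 5), 4, 0, 1), ((7, 2, 6), 4, 0, 3),
    ((7, 5, 6), 4, 1, 3)]
  Tc := []
  Td := [((1, 3), (5, 3), 0), ((1, 3), (5, 7), 4), ((3, 1), (6, 4), 0), ((3, 1), (6, 7), 4)]
  G := [[0, 0, 0, 0x444281c18c2c14c4481c82cc, 0x81c14cc8281c14cc42a], [0, 0x84c82a6281, 0,
    0x81c11cc841, 0x11c11cc481], [0, 0, 0x11c11cc8411c11cc42a, 0x85c11cc841, 0x11c94cc281]]

noncomputable def n729 : Ent := ⟨e729, noF, [], [], [(7, 13, [18394062992640663726968434746027364144358640063420903425, 0])]⟩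

def c729 : PLift (Cov.check n729.C.D v729 = true) := ⟨by decide +kernel⟩

def b729 : PLift (entF (fidx ts) 400 729 n729 = true) := ⟨by decide +kernel⟩

theorem g729 : GoodF (fidx ts) 400 729 := GoodF.ofV v729 n729 c729.down b729.down

/-- 474654:614/7 -/
noncomputable def e730 : SCfg where
  D := {
    a := 6
    L := 9
    kp := 6
    inn := [(0, 1), (1, 0), (1, 2), (1, 3), (2, 1), (2, 4), (3, 1), (3, 5), (4, 2), (5, 3)]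
    mix := [(0, 0), (0, 1), (0, 2), (1, 0), (1, 2), (1, 3), (1, 4), (2, 2), (2, 3), (3, 3), (3, 4), (3,
      5), (3, 6), (4, 2), (4, 3), (4, 7), (4, 8), (5, 5), (5, 6), (5, 7)]
    cl := [2, 5, 0, 0, 0, 1, 3, 4, 6]
    chq := [(1, 3), (3, 1)]
    rng := [(0, 1), (0, 4), (1, 0), (1, 2), (2, 1), (2, 7), (3, 5), (3, 8), (4, 0), (4, 6), (5, 3), (5,
      7), (6, 4), (6, 7), (7, 2), (7, 5), (7, 6), (7, 8), (8, 3), (8, 7)]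
    lev := [] }
  links := [[1, 6, 7, 8], [6, 0, 8, 2, 9, 3, 10], [9, 1, 8, 4], [10, 1, 9, 11, 5, 12], [9, 2, 8, 13, 14],
    [12, 3, 11, 13]]
  P := {
    a := 6
    N := 15
    nb := [450, 1869, 786, 7714, 25348, 14344, 1155, 321, 8343, 18462, 4170, 8744, 9256, 22832, 8720]
    tri := [(0, 1, 6), (0, 1, 8), (0, 6, 7), (0, 7, 8), (1, 2, 8), (1, 2, 9), (1, 3, 9), (1, 3, 10),
      (1, 6, 10), (2, 4, 8), (2, 4, 9), (3, 5, 11), (3, 5, 12), (3, 9, 11), (3, 10, 12), (4, 8,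
      13), (4, 9, 14), (4, 13, 14), (5, 11, 13), (5, 12, 13)]
    fin := [0, 0, 0, 3, 3, 5, 0, 7, 3, 3, 3, 5, 12, 13, 14]
    chd := [(5, 12)]
    steps := [(0, 1), (0, 2), (0, 6), (3, 9), (3, 4), (3, 8), (3, 10), (5, 11)] }
  rep := [3, 5, 0, 12, 13, 7, 14]

noncomputable def v730 : Cov.CovD where
  P := 3
  N := 4
  pl := [0, 1, 7, 8]
  lev := [⟨[], [], [], [2, 5], [(2, 0, [])]⟩,
    ⟨[], [(0, 0)], [(0, 0)], [2], [(2, 0, []), (3, 0, []), (4, 0, [])]⟩,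
    ⟨[(0, 1)], [(0, 0), (1, 0)], [(0, 0)], [], [(2, 0, []), (3, 0, [])]⟩,
    ⟨[(0, 1), (1, 2)], [(1, 0), (1, 1), (1, 3), (2, 0)], [(0, 0), (0, 1), (0, 3), (1, 3)],
      [], [(3, 0, []), (4, 0, []), (5, 1, [3]), (6, 3, [1])]⟩,
    ⟨[(1, 2)], [(0, 0), (1, 0), (2, 0), (3, 0)], [(0, 0)], [4, 6], [(2, 0, []), (3, 0,
      [])]⟩,
    ⟨[(1, 3)], [(3, 0), (3, 1), (3, 3)], [(1, 3)], [4], [(5, 1, [3]), (6, 3, [1])]⟩]
  Ta := [((2, 1), 0, 5), ((2, 7), 0, 4), ((3, 5), 0, 1), ((3, 8), 0, 6), ((4, 0), 0, 2), ((4, 6),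
    0, 3)]
  Tb := [((0, 1, 4), 2, 5, 0), ((1, 0, 2), 5, 2, 0), ((2, 1, 7), 0, 5, 4), ((3, 5, 8), 0, 1, 6),
    ((4, 0, 6), 0, 2, 3), ((5, 3, 7), 1, 0, 4), ((6, 4, 7), 3, 0, 4), ((7, 2, 5), 4, 0, 1),
    ((7, 2, 6), 4, 0, 3), ((7, 2, 8), 4, 0, 6), ((7, 5, 6), 4, 1, 3), ((7, 5, 8), 4, 1, 6),
    ((7, 6, 8), 4, 3, 6), ((8, 3, 7), 6, 0, 4)]
  Tc := []
  Td := [((1, 3), (5, 3), 0), ((1, 3), (5, 7), 4), ((3, 1), (6, 4), 0), ((3, 1), (6, 7), 4)]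
  G := [[0, 0, 0, 0x54c42891e12c8c541e42819e88cc, 0x819e145ec42819e145ec82a], [0,
    0xa4ceca2e6281, 0, 0x811e111ec841, 0x111e141ec481], [0, 0, 0x111e141ec42111e111ec486,
    0x855e119ec841, 0x811e14dec821]]

noncomputable def n730 : Ent := ⟨e730, noF, [], [], [(7, 13, [87897818358406171357428020359653357189577334862559920865281, 0]), (14, 11, [81620717745452748063725672116875642299580338513852079378433, 0])]⟩

def c730 : PLift (Cov.check n730.C.D v730 = true) := ⟨by decide +kernel⟩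

def b730 : PLift (entF (fidx ts) 400 730 n730 = true) := ⟨by decide +kernel⟩

theorem g730 : GoodF (fidx ts) 400 730 := GoodF.ofV v730 n730 c730.down b730.down

/-- 474654:614/9 -/
noncomputable def e731 : SCfg where
  D := {
    a := 6
    L := 9
    kp := 6
    inn := [(0, 1), (1, 0), (1, 2), (1, 3), (2, 1), (2, 4), (3, 1), (3, 5), (4, 2), (5, 3)]
    mix := [(0, 0), (0, 1), (0, 2), (1, 0), (1, 2), (1, 3), (1, 4), (2, 2), (2, 3), (3, 3), (3, 4), (3,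
      5), (3, 6), (4, 2), (4, 3), (4, 5), (4, 7), (5, 5), (5, 6), (5, 8)]
    cl := [2, 4, 0, 0, 0, 3, 1, 5, 6]
    chq := [(1, 3), (3, 1)]
    rng := [(0, 1), (0, 4), (1, 0), (1, 2), (2, 1), (2, 7), (3, 5), (4, 0), (4, 6), (5, 3), (5, 7), (5,
      8), (6, 4), (6, 8), (7, 2), (7, 5), (8, 5), (8, 6)]
    lev := [] }
  links := [[1, 6, 7, 8], [6, 0, 8, 2, 9, 3, 10], [9, 1, 8, 4], [10, 1, 9, 11, 5, 12], [9, 2, 8, 13, 11],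
    [12, 3, 11, 14]]
  P := {
    a := 6
    N := 15
    nb := [450, 1869, 786, 7714, 11012, 22536, 1155, 321, 8343, 2078, 4170, 25144, 17448, 2320, 6176]
    tri := [(0, 1, 6), (0, 1, 8), (0, 6, 7), (0, 7, 8), (1, 2, 8), (1, 2, 9), (1, 3, 9), (1, 3, 10),
      (1, 6, 10), (2, 4, 8), (2, 4, 9), (3, 5, 11), (3, 5, 12), (3, 9, 11), (3, 10, 12), (4, 8,
      13), (4, 9, 11), (4, 11, 13), (5, 11, 14), (5, 12, 14)]
    fin := [0, 0, 0, 3, 3, 5, 0, 7, 3, 3, 3, 5, 12, 13, 14]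
    chd := [(5, 12)]
    steps := [(0, 1), (0, 2), (0, 6), (3, 9), (3, 4), (3, 8), (3, 10), (5, 11)] }
  rep := [3, 12, 0, 5, 7, 13, 14]

noncomputable def v731 : Cov.CovD where
  P := 3
  N := 4
  pl := [0, 1, 7, 8]
  lev := [⟨[], [], [], [2, 4], [(2, 0, [])]⟩,
    ⟨[], [(0, 0)], [(0, 0)], [2], [(2, 0, []), (3, 0, []), (4, 0, [])]⟩,
    ⟨[(0, 1)], [(0, 0), (1, 0)], [(0, 0)], [], [(2, 0, []), (3, 0, [])]⟩,
    ⟨[(0, 1), (1, 2)], [(1, 0), (1, 1), (1, 3), (2, 0)], [(0, 0), (0, 1), (0, 3), (1, 3)],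
      [], [(3, 0, []), (4, 0, []), (5, 3, [1]), (6, 1, [3])]⟩,
    ⟨[(1, 2)], [(0, 0), (1, 0), (2, 0), (2, 3), (3, 0), (3, 3)], [(0, 0), (0, 3)], [5],
      [(2, 0, []), (3, 0, []), (5, 3, [1])]⟩,
    ⟨[(1, 3)], [(3, 0), (3, 1), (3, 3), (4, 3)], [(1, 3)], [6], [(5, 3, [1]), (6, 1, [3])]⟩]
  Ta := [((2, 1), 0, 4), ((2, 7), 0, 5), ((3, 5), 0, 3), ((4, 0), 0, 2), ((4, 6), 0, 1)]
  Tb := [((0, 1, 4), 2, 4, 0), ((1, 0, 2), 4, 2, 0), ((2, 1, 7), 0, 4, 5), ((4, 0, 6), 0, 2, 1),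
    ((5, 3, 7), 3, 0, 5), ((5, 3, 8), 3, 0, 6), ((5, 7, 8), 3, 5, 6), ((6, 4, 8), 1, 0, 6),
    ((7, 2, 5), 5, 0, 3), ((8, 5, 6), 6, 3, 1)]
  Tc := []
  Td := [((1, 3), (6, 4), 0), ((1, 3), (6, 8), 6), ((3, 1), (5, 3), 0), ((3, 1), (5, 7), 5), ((3,
    1), (5, 8), 6)]
  G := [[0, 0, 0, 0x5464499a12c8c5564899a88cc, 0x99a556c4299a556c82a], [0, 0, 0, 0x5564299a88c1,
    0x99a556c821], [0, 0xcecaea6281, 0x99a556c8299a556c42c, 0x5564299a88c1, 0x5564499a84a1]]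

noncomputable def n731 : Ent := ⟨e731, noF, [], [], [(7, 13, [87897818358406171357428020359653357189577334862559920869377, 0]), (7, 14, [81620716623019490593592230936445690773474979418095886364673, 0]), (13, 14, [81620716623019490593592230936445690773474979418095886372865, 0])]⟩

def c731 : PLift (Cov.check n731.C.D v731 = true) := ⟨by decide +kernel⟩

def b731 : PLift (entF (fidx ts) 400 731 n731 = true) := ⟨by decide +kernel⟩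

theorem g731 : GoodF (fidx ts) 400 731 := GoodF.ofV v731 n731 c731.down b731.down

/-- 474654:614 -/
noncomputable def e732 : SCfg where
  D := {
    a := 6
    L := 10
    kp := 7
    inn := [(0, 1), (1, 0), (1, 2), (1, 3), (2, 1), (2, 4), (3, 1), (3, 5), (4, 2), (5, 3)]
    mix := [(0, 0), (0, 1), (0, 2), (1, 0), (1, 2), (1, 3), (1, 4), (2, 2), (2, 3), (3, 3), (3, 4), (3,
      5), (3, 6), (4, 2), (4, 3), (4, 7), (4, 8), (5, 5), (5, 6), (5, 9)]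
    cl := [2, 4, 0, 0, 0, 1, 3, 5, 6, 7]
    chq := [(1, 3), (3, 1)]
    rng := [(0, 1), (0, 4), (1, 0), (1, 2), (2, 1), (2, 7), (3, 5), (3, 8), (4, 0), (4, 6), (5, 3), (5,
      9), (6, 4), (6, 9), (7, 2), (7, 8), (8, 3), (8, 7), (9, 5), (9, 6)]
    lev := [] }
  links := [[1, 6, 7, 8], [6, 0, 8, 2, 9, 3, 10], [9, 1, 8, 4], [10, 1, 9, 11, 5, 12], [9, 2, 8, 13, 14],
    [12, 3, 11, 15]]
  P := {
    a := 6
    N := 16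
    nb := [450, 1869, 786, 7714, 25348, 38920, 1155, 321, 8343, 18462, 4170, 33320, 33832, 16656,
      8720, 6176]
    tri := [(0, 1, 6), (0, 1, 8), (0, 6, 7), (0, 7, 8), (1, 2, 8), (1, 2, 9), (1, 3, 9), (1, 3, 10),
      (1, 6, 10), (2, 4, 8), (2, 4, 9), (3, 5, 11), (3, 5, 12), (3, 9, 11), (3, 10, 12), (4, 8,
      13), (4, 9, 14), (4, 13, 14), (5, 11, 15), (5, 12, 15)]
    fin := [0, 0, 0, 3, 3, 5, 0, 7, 3, 3, 3, 5, 12, 13, 14, 15]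
    chd := [(5, 12)]
    steps := [(0, 1), (0, 2), (0, 6), (3, 9), (3, 4), (3, 8), (3, 10), (5, 11)] }
  rep := [3, 5, 0, 12, 7, 13, 14, 15]

noncomputable def v732 : Cov.CovD where
  P := 3
  N := 5
  pl := [0, 1, 7, 8, 9]
  lev := [⟨[], [], [], [2, 4], [(2, 0, [])]⟩,
    ⟨[], [(0, 0)], [(0, 0)], [2], [(2, 0, []), (3, 0, []), (4, 0, [])]⟩,
    ⟨[(0, 1)], [(0, 0), (1, 0)], [(0, 0)], [], [(2, 0, []), (3, 0, [])]⟩,
    ⟨[(0, 1), (1, 2)], [(1, 0), (1, 1), (1, 3), (2, 0)], [(0, 0), (0, 1), (0, 3), (1, 3)],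
      [], [(3, 0, []), (4, 0, []), (5, 1, [3]), (6, 3, [1])]⟩,
    ⟨[(1, 2)], [(0, 0), (1, 0), (2, 0), (3, 0)], [(0, 0)], [5, 6], [(2, 0, []), (3, 0,
      [])]⟩,
    ⟨[(1, 3)], [(3, 0), (3, 1), (3, 3)], [(1, 3)], [7], [(5, 1, [3]), (6, 3, [1])]⟩]
  Ta := [((2, 1), 0, 4), ((2, 7), 0, 5), ((3, 5), 0, 1), ((3, 8), 0, 6), ((4, 0), 0, 2), ((4, 6),
    0, 3)]
  Tb := [((0, 1, 4), 2, 4, 0), ((1, 0, 2), 4, 2, 0), ((2, 1, 7), 0, 4, 5), ((3, 5, 8), 0, 1, 6),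
    ((4, 0, 6), 0, 2, 3), ((5, 3, 9), 1, 0, 7), ((6, 4, 9), 3, 0, 7), ((7, 2, 8), 5, 0, 6),
    ((8, 3, 7), 6, 0, 5), ((9, 5, 6), 7, 1, 3)]
  Tc := []
  Td := [((1, 3), (5, 3), 0), ((1, 3), (5, 9), 7), ((3, 1), (6, 4), 0), ((3, 1), (6, 9), 7)]
  G := [[0, 0, 0, 0x555e42999e82c555e42999e88cc, 0x999e555ec42999e555ec42a], [0, 0xccceaaae6481,
    0, 0x555e42999e82c1, 0x9252c99c55cca21], [0, 0, 0x999e555ec82999e555ec426,
    0x555e44999e88c1, 0x999e555ec821]]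

noncomputable def n732 : Ent := ⟨e732, noF, [], [], [(7, 13, [385753028440516072301428330182238677962518295842732840409980929, 0]), (7, 15, [360035742630636841211993100915356868655746945586763691010654209, 0]), (13, 15, [360035742630636841211993100915356868655746945586763691010662401, 0]), (14, 11, [385746751339903118878134627833995900247628298846384132568494081, 0])]⟩

def c732 : PLift (Cov.check n732.C.D v732 = true) := ⟨by decide +kernel⟩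

def b732 : PLift (entF (fidx ts) 400 732 n732 = true) := ⟨by decide +kernel⟩

theorem g732 : GoodF (fidx ts) 400 732 := GoodF.ofV v732 n732 c732.down b732.down

/-- 458646:617/1 -/
noncomputable def e733 : SCfg where
  D := {
    a := 6
    L := 9
    kp := 6
    inn := [(0, 1), (0, 2), (1, 0), (1, 2), (1, 3), (1, 5), (2, 0), (2, 1), (2, 4), (2, 5), (3, 1), (3,
      5), (4, 2), (5, 1), (5, 2), (5, 3)]
    mix := [(0, 0), (0, 1), (1, 1), (2, 0), (2, 2), (2, 3), (2, 4), (3, 1), (3, 5), (3, 6), (3, 7), (4,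
      0), (4, 4), (4, 5), (5, 2), (5, 7), (5, 8)]
    cl := [1, 0, 3, 1, 4, 2, 6, 0, 5]
    chq := [(1, 5), (5, 1)]
    rng := [(0, 1), (0, 5), (1, 0), (1, 5), (2, 3), (2, 8), (3, 2), (3, 4), (4, 3), (4, 5), (5, 0), (5,
      1), (5, 4), (5, 6), (6, 5), (6, 7), (7, 6), (7, 8), (8, 2), (8, 7)]
    lev := [] }
  links := [[1, 2, 6, 7], [2, 0, 7, 3, 5], [6, 0, 1, 5, 8, 9, 10, 4], [5, 1, 7, 11, 12, 13], [6, 2, 10,
    11], [8, 2, 1, 3, 13, 14]]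
  P := {
    a := 6
    N := 15
    nb := [198, 173, 1907, 14498, 3140, 24846, 2197, 2123, 16932, 1284, 2580, 5336, 10248, 20520,
      8480]
    tri := [(0, 1, 2), (0, 1, 7), (0, 2, 6), (0, 6, 7), (1, 2, 5), (1, 3, 5), (1, 3, 7), (2, 4, 6), (2,
      4, 10), (2, 5, 8), (2, 8, 9), (2, 9, 10), (3, 5, 13), (3, 7, 11), (3, 11, 12), (3, 12, 13),
      (4, 6, 11), (4, 10, 11), (5, 8, 14), (5, 13, 14)]
    fin := [0, 0, 0, 3, 0, 0, 0, 3, 8, 0, 10, 11, 12, 3, 14]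
    chd := [(0, 14)]
    steps := [(0, 1), (0, 2), (0, 4), (0, 5), (0, 6), (0, 9), (3, 7), (3, 13)] }
  rep := [3, 0, 11, 8, 10, 14, 12]

noncomputable def v733 : Cov.CovD where
  P := 3
  N := 4
  pl := [2, 4, 5, 6]
  lev := [⟨[], [], [(0, 1)], [], [(0, 1, [5]), (1, 0, [])]⟩,
    ⟨[], [(0, 0), (0, 1)], [], [], [(1, 0, [])]⟩,
    ⟨[(0, 1)], [(0, 0), (0, 1), (1, 0), (1, 1)], [(1, 1)], [3, 4], [(0, 1, [5]), (3, 1,
      [5])]⟩,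
    ⟨[(0, 1), (1, 2)], [(0, 0), (1, 0)], [(0, 0)], [2, 6], [(1, 0, []), (7, 0, [])]⟩,
    ⟨[(0, 2), (1, 2)], [(0, 1), (2, 1)], [], [2, 4], [(0, 1, [5])]⟩,
    ⟨[(0, 1), (0, 2), (1, 2), (1, 3), (2, 3), (2, 4)], [(1, 0), (1, 5), (2, 0), (2, 1), (2,
      5), (3, 0), (3, 5)], [(0, 5)], [3], [(7, 0, []), (8, 5, [1])]⟩]
  Ta := [((0, 1), 1, 0), ((0, 5), 1, 2), ((1, 0), 0, 1), ((1, 5), 0, 2), ((3, 2), 1, 3), ((3, 4),
    1, 4), ((7, 6), 0, 6), ((7, 8), 0, 5)]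
  Tb := [((0, 1, 5), 1, 0, 2), ((1, 0, 5), 0, 1, 2), ((2, 3, 8), 3, 1, 5), ((3, 2, 4), 1, 3, 4),
    ((4, 3, 5), 4, 1, 2), ((5, 0, 1), 2, 1, 0), ((5, 0, 4), 2, 1, 4), ((5, 0, 6), 2, 1, 6),
    ((5, 1, 4), 2, 0, 4), ((5, 1, 6), 2, 0, 6), ((5, 4, 6), 2, 4, 6), ((6, 5, 7), 6, 2, 0),
    ((7, 6, 8), 0, 6, 5), ((8, 2, 7), 5, 3, 0)]
  Tc := []
  Td := [((1, 5), (0, 1), 0), ((1, 5), (0, 5), 2), ((1, 5), (3, 2), 3), ((1, 5), (3, 4), 4), ((5,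
    1), (8, 2), 3), ((5, 1), (8, 7), 0)]
  G := [[0, 0x1414c11c11cc61818c8a2, 0x24246622c4582828aa22c894c, 0x2424c422828c2121c92c,
    0x2291a9a21e1a52828aa8c4], [0, 0, 0x2241824b4a4387862ec89c6, 0, 0x32b2a21e1a543828aa84c],
    [0, 0, 0, 0x2121c122828c2424cc29, 0x21e1a14229669a42828aa8c9], [0, 0, 0, 0,
    0x888e1e1a542262a46828aa8c9]]

noncomputable def n733 : Ent := ⟨e733, noF, [], [], []⟩

def c733 : PLift (Cov.check n733.C.D v733 = true) := ⟨by decide +kernel⟩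

def b733 : PLift (entF (fidx ts) 400 733 n733 = true) := ⟨by decide +kernel⟩

theorem g733 : GoodF (fidx ts) 400 733 := GoodF.ofV v733 n733 c733.down b733.down

/-- 458646:617 -/
noncomputable def e734 : SCfg where
  D := {
    a := 6
    L := 10
    kp := 7
    inn := [(0, 1), (0, 2), (1, 0), (1, 2), (1, 3), (1, 5), (2, 0), (2, 1), (2, 4), (2, 5), (3, 1), (3,
      5), (4, 2), (5, 1), (5, 2), (5, 3)]
    mix := [(0, 0), (0, 1), (1, 1), (2, 0), (2, 2), (2, 3), (2, 4), (3, 1), (3, 5), (3, 6), (3, 7), (4,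
      0), (4, 4), (4, 8), (5, 2), (5, 7), (5, 9)]
    cl := [0, 3, 1, 0, 2, 5, 6, 3, 7, 4]
    chq := [(0, 4), (4, 0)]
    rng := [(0, 1), (0, 8), (1, 0), (1, 5), (2, 3), (2, 9), (3, 2), (3, 4), (4, 3), (4, 8), (5, 1), (5,
      6), (6, 5), (6, 7), (7, 6), (7, 9), (8, 0), (8, 4), (9, 2), (9, 7)]
    lev := [] }
  links := [[1, 2, 6, 7], [2, 0, 7, 3, 5], [6, 0, 1, 5, 8, 9, 10, 4], [5, 1, 7, 11, 12, 13], [6, 2, 10,
    14], [8, 2, 1, 3, 13, 15]]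
  P := {
    a := 6
    N := 16
    nb := [198, 173, 1907, 14498, 17476, 41230, 16533, 2123, 33316, 1284, 16916, 4232, 10248, 36904,
      1104, 8480]
    tri := [(0, 1, 2), (0, 1, 7), (0, 2, 6), (0, 6, 7), (1, 2, 5), (1, 3, 5), (1, 3, 7), (2, 4, 6), (2,
      4, 10), (2, 5, 8), (2, 8, 9), (2, 9, 10), (3, 5, 13), (3, 7, 11), (3, 11, 12), (3, 12, 13),
      (4, 6, 14), (4, 10, 14), (5, 8, 15), (5, 13, 15)]
    fin := [0, 0, 0, 3, 0, 0, 0, 3, 8, 0, 10, 11, 12, 3, 14, 15]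
    chd := [(0, 15)]
    steps := [(0, 1), (0, 2), (0, 4), (0, 5), (0, 6), (0, 9), (3, 7), (3, 13)] }
  rep := [0, 8, 10, 3, 15, 11, 12, 14]

noncomputable def v734 : Cov.CovD where
  P := 3
  N := 5
  pl := [2, 4, 5, 6, 8]
  lev := [⟨[], [], [(0, 3)], [], [(0, 0, [4]), (1, 3, [])]⟩,
    ⟨[], [(0, 0), (0, 3)], [], [], [(1, 3, [])]⟩,
    ⟨[(0, 1)], [(0, 0), (0, 3), (1, 0), (1, 3)], [(0, 0)], [1, 2], [(0, 0, [4]), (3, 0,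
      [4])]⟩,
    ⟨[(0, 1), (1, 2)], [(0, 3), (1, 3)], [(3, 3)], [5, 6], [(1, 3, []), (7, 3, [])]⟩,
    ⟨[(0, 2), (1, 2)], [(0, 0), (2, 0)], [], [2, 7], [(0, 0, [4])]⟩,
    ⟨[(0, 1), (0, 2), (1, 2), (1, 3), (2, 3), (2, 4)], [(1, 3), (1, 4), (2, 0), (2, 3), (2,
      4), (3, 3), (3, 4)], [(3, 4)], [1], [(7, 3, []), (9, 4, [0])]⟩]
  Ta := [((0, 1), 0, 3), ((0, 8), 0, 7), ((1, 0), 3, 0), ((1, 5), 3, 5), ((3, 2), 0, 1), ((3, 4),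
    0, 2), ((7, 6), 3, 6), ((7, 9), 3, 4)]
  Tb := [((0, 1, 8), 0, 3, 7), ((1, 0, 5), 3, 0, 5), ((2, 3, 9), 1, 0, 4), ((3, 2, 4), 0, 1, 2),
    ((4, 3, 8), 2, 0, 7), ((5, 1, 6), 5, 3, 6), ((6, 5, 7), 6, 5, 3), ((7, 6, 9), 3, 6, 4),
    ((8, 0, 4), 7, 0, 2), ((9, 2, 7), 4, 1, 3)]
  Tc := []
  Td := [((0, 4), (0, 1), 3), ((0, 4), (0, 8), 7), ((0, 4), (3, 2), 1), ((0, 4), (3, 4), 2), ((4,
    0), (9, 2), 1), ((4, 0), (9, 7), 3)]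
  G := [[0, 0, 0, 0x11c11c114d74148188c11c84e88c88c88c741a,
    0x124811a11a118bb811a485848f44a44a44ab816], [0, 0, 0, 0x11c11c11c994df428,
    0x11a11a11a11cbf842], [0, 0x21a121d41416141b816, 0x11c149411c12581161838e1,
    0x514141b81918181741c, 0x11919851485415141b816], [0, 0xe1e1e17e18c12, 0x11a11a116116f421,
    0x111111d1f482, 0x111111d1f842]]

noncomputable def n734 : Ent := ⟨e734, noF, [], [], [(11, 14, [385746751338780685620664494392815470296102193487288376375496705, 0])]⟩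

def c734 : PLift (Cov.check n734.C.D v734 = true) := ⟨by decide +kernel⟩

def b734 : PLift (entF (fidx ts) 400 734 n734 = true) := ⟨by decide +kernel⟩

theorem g734 : GoodF (fidx ts) 400 734 := GoodF.ofV v734 n734 c734.down b734.down

/-- 458656:618/2 -/
noncomputable def e735 : SCfg where
  D := {
    a := 6
    L := 9
    kp := 6
    inn := [(0, 1), (0, 2), (1, 0), (1, 2), (1, 3), (1, 5), (2, 0), (2, 1), (2, 4), (2, 5), (3, 1), (3,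
      5), (4, 2), (5, 1), (5, 2), (5, 3)]
    mix := [(0, 0), (0, 1), (1, 1), (2, 0), (2, 2), (2, 3), (2, 4), (3, 1), (3, 5), (3, 6), (3, 7), (4,
      0), (4, 4), (4, 5), (4, 6), (5, 2), (5, 7), (5, 8)]
    cl := [1, 0, 3, 6, 1, 2, 4, 0, 5]
    chq := [(1, 3), (1, 5), (3, 1), (5, 1)]
    rng := [(0, 1), (0, 5), (1, 0), (1, 5), (2, 3), (2, 8), (3, 2), (3, 4), (4, 3), (4, 6), (5, 0), (5,
      1), (5, 6), (6, 4), (6, 5), (6, 7), (7, 6), (7, 8), (8, 2), (8, 7)]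
    lev := [] }
  links := [[1, 2, 6, 7], [2, 0, 7, 3, 5], [6, 0, 1, 5, 8, 9, 10, 4], [5, 1, 7, 11, 12, 13], [6, 2, 10,
    12, 11], [8, 2, 1, 3, 13, 14]]
  P := {
    a := 6
    N := 15
    nb := [198, 173, 1907, 14498, 7236, 24846, 2197, 2123, 16932, 1284, 4628, 4312, 11288, 20520,
      8480]
    tri := [(0, 1, 2), (0, 1, 7), (0, 2, 6), (0, 6, 7), (1, 2, 5), (1, 3, 5), (1, 3, 7), (2, 4, 6), (2,
      4, 10), (2, 5, 8), (2, 8, 9), (2, 9, 10), (3, 5, 13), (3, 7, 11), (3, 11, 12), (3, 12, 13),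
      (4, 6, 11), (4, 10, 12), (4, 11, 12), (5, 8, 14), (5, 13, 14)]
    fin := [0, 0, 0, 3, 0, 0, 0, 3, 8, 9, 0, 11, 12, 3, 14]
    chd := [(0, 8), (0, 14)]
    steps := [(0, 1), (0, 2), (0, 4), (0, 5), (0, 6), (0, 10), (3, 7), (3, 13)] }
  rep := [3, 0, 11, 8, 12, 14, 9]

noncomputable def v735 : Cov.CovD where
  P := 3
  N := 4
  pl := [3, 5, 6]
  lev := [⟨[], [], [(0, 1)], [], [(0, 1, [3, 5]), (1, 0, [])]⟩,
    ⟨[], [(0, 0), (0, 1)], [], [], [(1, 0, [])]⟩,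
    ⟨[(0, 1)], [(0, 0), (0, 1), (0, 3), (1, 0), (1, 1), (1, 3)], [(1, 1), (1, 3)], [6],
      [(0, 1, [3, 5]), (2, 3, [1]), (4, 1, [3, 5])]⟩,
    ⟨[(0, 1), (1, 2)], [(0, 0), (1, 0)], [(0, 0)], [2, 4], [(1, 0, []), (7, 0, [])]⟩,
    ⟨[(0, 2), (1, 2)], [(0, 1), (2, 1), (2, 3)], [(1, 1)], [2, 4], [(0, 1, [3, 5]), (4, 1,
      [3, 5])]⟩,
    ⟨[(0, 1), (0, 2), (1, 2), (1, 3), (2, 3), (2, 4)], [(1, 0), (1, 3), (1, 5), (2, 0), (2,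
      1), (2, 3), (2, 5), (3, 0), (3, 3), (3, 5)], [(0, 3), (0, 5), (3, 5)], [], [(2, 3,
      [1]), (7, 0, []), (8, 5, [1])]⟩]
  Ta := [((0, 1), 1, 0), ((0, 5), 1, 2), ((1, 0), 0, 1), ((1, 5), 0, 2), ((4, 3), 1, 6), ((4, 6),
    1, 4), ((7, 6), 0, 4), ((7, 8), 0, 5)]
  Tb := [((0, 1, 5), 1, 0, 2), ((1, 0, 5), 0, 1, 2), ((2, 3, 8), 3, 6, 5), ((3, 2, 4), 6, 3, 1),
    ((4, 3, 6), 1, 6, 4), ((5, 0, 1), 2, 1, 0), ((5, 0, 6), 2, 1, 4), ((5, 1, 6), 2, 0, 4),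
    ((6, 4, 5), 4, 1, 2), ((6, 4, 7), 4, 1, 0), ((6, 5, 7), 4, 2, 0), ((7, 6, 8), 0, 4, 5),
    ((8, 2, 7), 5, 3, 0)]
  Tc := [(1, 3, 5)]
  Td := [((1, 3), (0, 1), 0), ((1, 3), (0, 5), 2), ((1, 3), (4, 3), 6), ((1, 3), (4, 6), 4), ((1,
    5), (0, 1), 0), ((1, 5), (0, 5), 2), ((1, 5), (4, 3), 6), ((1, 5), (4, 6), 4), ((3, 1),
    (2, 3), 6), ((3, 1), (2, 8), 5), ((5, 1), (8, 2), 3), ((5, 1), (8, 7), 0)]
  G := [[0, 0x144481814c1881814ce2c, 0x2468642442824c9c28884c, 0x2821c2121c2821cd24,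
    0x712b12e12d48], [0, 0, 0x24442824c2882824cdc2, 0, 0x28a1a21b1a21e1ad42], [0, 0, 0,
    0x2124c412821c2124c92c, 0x669261252881a1c28a1a849], [0, 0, 0, 0, 0x2861a28e1a528a1a892]]

noncomputable def n735 : Ent := ⟨e735, noF, [], [], []⟩

def c735 : PLift (Cov.check n735.C.D v735 = true) := ⟨by decide +kernel⟩

def b735 : PLift (entF (fidx ts) 400 735 n735 = true) := ⟨by decide +kernel⟩

theorem g735 : GoodF (fidx ts) 400 735 := GoodF.ofV v735 n735 c735.down b735.down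

/-- 458656:618/1 -/
noncomputable def e736 : SCfg where
  D := {
    a := 6
    L := 10
    kp := 7
    inn := [(0, 1), (0, 2), (1, 0), (1, 2), (1, 3), (1, 5), (2, 0), (2, 1), (2, 4), (2, 5), (3, 1), (3,
      5), (4, 2), (5, 1), (5, 2), (5, 3)]
    mix := [(0, 0), (0, 1), (1, 1), (2, 0), (2, 2), (2, 3), (2, 4), (3, 1), (3, 5), (3, 6), (3, 7), (4,
      0), (4, 4), (4, 5), (4, 8), (5, 2), (5, 7), (5, 9)]
    cl := [1, 0, 3, 4, 1, 2, 5, 0, 6, 7]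
    chq := [(0, 3), (0, 4), (3, 0), (4, 0)]
    rng := [(0, 1), (0, 5), (1, 0), (1, 5), (2, 3), (2, 9), (3, 2), (3, 4), (4, 3), (4, 8), (5, 0), (5,
      1), (5, 6), (5, 8), (6, 5), (6, 7), (7, 6), (7, 9), (8, 4), (8, 5), (9, 2), (9, 7)]
    lev := [] }
  links := [[1, 2, 6, 7], [2, 0, 7, 3, 5], [6, 0, 1, 5, 8, 9, 10, 4], [5, 1, 7, 11, 12, 13], [6, 2, 10,
    14, 11], [8, 2, 1, 3, 13, 15]]
  P := {
    a := 6
    N := 16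
    nb := [198, 173, 1907, 14498, 19524, 41230, 2197, 2123, 33316, 1284, 16916, 20696, 10248, 36904,
      3088, 8480]
    tri := [(0, 1, 2), (0, 1, 7), (0, 2, 6), (0, 6, 7), (1, 2, 5), (1, 3, 5), (1, 3, 7), (2, 4, 6), (2,
      4, 10), (2, 5, 8), (2, 8, 9), (2, 9, 10), (3, 5, 13), (3, 7, 11), (3, 11, 12), (3, 12, 13),
      (4, 6, 11), (4, 10, 14), (4, 11, 14), (5, 8, 15), (5, 13, 15)]
    fin := [0, 0, 2, 2, 0, 2, 0, 2, 8, 9, 0, 11, 12, 2, 14, 15]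
    chd := [(2, 8), (2, 9)]
    steps := [(0, 1), (0, 6), (0, 4), (0, 10), (2, 5), (2, 3), (2, 7), (2, 13)] }
  rep := [2, 0, 11, 8, 9, 12, 14, 15]

noncomputable def v736 : Cov.CovD where
  P := 3
  N := 5
  pl := [5, 6, 8, 9]
  lev := [⟨[], [], [(0, 1)], [], [(0, 1, []), (1, 0, [3, 4])]⟩,
    ⟨[], [(0, 0), (0, 1)], [], [], [(1, 0, [3, 4])]⟩,
    ⟨[(0, 1)], [(0, 0), (0, 1), (0, 3), (0, 4), (1, 0), (1, 1), (1, 3), (1, 4)], [(1, 1),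
      (1, 3), (1, 4), (3, 4)], [], [(0, 1, []), (2, 3, [0]), (3, 4, [0]), (4, 1, [])]⟩,
    ⟨[(0, 1), (1, 2)], [(0, 0), (1, 0)], [(0, 0)], [2, 5], [(1, 0, [3, 4]), (7, 0, [3,
      4])]⟩,
    ⟨[(0, 2), (1, 2)], [(0, 1), (2, 1), (2, 3), (2, 4)], [(1, 1)], [2, 6], [(0, 1, []), (4,
      1, [])]⟩,
    ⟨[(0, 1), (0, 2), (1, 2), (1, 3), (2, 3), (2, 4)], [(1, 0), (1, 3), (2, 0), (2, 1), (2,
      3), (2, 4), (3, 0), (3, 3)], [(0, 3)], [7], [(2, 3, [0]), (7, 0, [3, 4])]⟩]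
  Ta := [((0, 1), 1, 0), ((0, 5), 1, 2), ((1, 0), 0, 1), ((1, 5), 0, 2), ((4, 3), 1, 4), ((4, 8),
    1, 6), ((7, 6), 0, 5), ((7, 9), 0, 7)]
  Tb := [((0, 1, 5), 1, 0, 2), ((1, 0, 5), 0, 1, 2), ((2, 3, 9), 3, 4, 7), ((3, 2, 4), 4, 3, 1),
    ((4, 3, 8), 1, 4, 6), ((5, 0, 1), 2, 1, 0), ((5, 0, 6), 2, 1, 5), ((5, 0, 8), 2, 1, 6),
    ((5, 1, 6), 2, 0, 5), ((5, 1, 8), 2, 0, 6), ((5, 6, 8), 2, 5, 6), ((6, 5, 7), 5, 2, 0),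
    ((7, 6, 9), 0, 5, 7), ((8, 4, 5), 6, 1, 2), ((9, 2, 7), 7, 3, 0)]
  Tc := [(0, 3, 4)]
  Td := [((0, 3), (1, 0), 1), ((0, 3), (1, 5), 2), ((0, 3), (7, 6), 5), ((0, 3), (7, 9), 7), ((0,
    4), (1, 0), 1), ((0, 4), (1, 5), 2), ((0, 4), (7, 6), 5), ((0, 4), (7, 9), 7), ((3, 0),
    (2, 3), 4), ((3, 0), (2, 9), 7), ((4, 0), (3, 2), 3), ((4, 0), (3, 4), 1)]
  G := [[0, 0x11c11cc11c11cc611c11cc8c2, 0xeeceeca148, 0xeeceecc124, 0x7171aee9ee9a961d1a468],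
    [0, 0, 0xeeceec6182, 0, 0x71a1ab1b1aee9ee9ad42], [0, 0, 0, 0xeeceecc128,
    0x7171ab18ee9ee9add12468], [0, 0, 0, 0, 0x7171ab1b1aee9ee9ad48]]

noncomputable def n736 : Ent := ⟨e736, noF, [], [], [(12, 14, [385746751338780685620664494392815470296102193487288376375504897, 0])]⟩

def c736 : PLift (Cov.check n736.C.D v736 = true) := ⟨by decide +kernel⟩

def b736 : PLift (entF (fidx ts) 400 736 n736 = true) := ⟨by decide +kernel⟩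

theorem g736 : GoodF (fidx ts) 400 736 := GoodF.ofV v736 n736 c736.down b736.down

/-- 458656:618/3 -/
noncomputable def e737 : SCfg where
  D := {
    a := 6
    L := 10
    kp := 7
    inn := [(0, 1), (0, 2), (1, 0), (1, 2), (1, 3), (1, 5), (2, 0), (2, 1), (2, 4), (2, 5), (3, 1), (3,
      5), (4, 2), (5, 1), (5, 2), (5, 3)]
    mix := [(0, 0), (0, 1), (1, 1), (2, 0), (2, 2), (2, 3), (2, 4), (3, 1), (3, 5), (3, 6), (3, 7), (4,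
      0), (4, 4), (4, 6), (4, 8), (5, 2), (5, 7), (5, 9)]
    cl := [1, 0, 3, 4, 1, 5, 2, 0, 6, 7]
    chq := [(0, 3), (0, 4), (3, 0), (4, 0)]
    rng := [(0, 1), (0, 8), (1, 0), (1, 5), (2, 3), (2, 9), (3, 2), (3, 4), (4, 3), (4, 6), (5, 1), (5,
      6), (6, 4), (6, 5), (6, 7), (6, 8), (7, 6), (7, 9), (8, 0), (8, 6), (9, 2), (9, 7)]
    lev := [] }
  links := [[1, 2, 6, 7], [2, 0, 7, 3, 5], [6, 0, 1, 5, 8, 9, 10, 4], [5, 1, 7, 11, 12, 13], [6, 2, 10,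
    12, 14], [8, 2, 1, 3, 13, 15]]
  P := {
    a := 6
    N := 16
    nb := [198, 173, 1907, 14498, 21572, 41230, 16533, 2123, 33316, 1284, 4628, 4232, 27672, 36904,
      4176, 8480]
    tri := [(0, 1, 2), (0, 1, 7), (0, 2, 6), (0, 6, 7), (1, 2, 5), (1, 3, 5), (1, 3, 7), (2, 4, 6), (2,
      4, 10), (2, 5, 8), (2, 8, 9), (2, 9, 10), (3, 5, 13), (3, 7, 11), (3, 11, 12), (3, 12, 13),
      (4, 6, 14), (4, 10, 12), (4, 12, 14), (5, 8, 15), (5, 13, 15)]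
    fin := [0, 0, 2, 2, 0, 2, 0, 2, 8, 9, 0, 11, 12, 2, 14, 15]
    chd := [(2, 8), (2, 9)]
    steps := [(0, 1), (0, 6), (0, 4), (0, 10), (2, 5), (2, 3), (2, 7), (2, 13)] }
  rep := [2, 0, 12, 8, 9, 11, 14, 15]

noncomputable def v737 : Cov.CovD where
  P := 3
  N := 5
  pl := [5, 6, 8, 9]
  lev := [⟨[], [], [(0, 1)], [], [(0, 1, []), (1, 0, [3, 4])]⟩,
    ⟨[], [(0, 0), (0, 1)], [], [], [(1, 0, [3, 4])]⟩,
    ⟨[(0, 1)], [(0, 0), (0, 1), (0, 3), (0, 4), (1, 0), (1, 1), (1, 3), (1, 4)], [(1, 1),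
      (1, 3), (1, 4), (3, 4)], [], [(0, 1, []), (2, 3, [0]), (3, 4, [0]), (4, 1, [])]⟩,
    ⟨[(0, 1), (1, 2)], [(0, 0), (1, 0)], [(0, 0)], [2, 5], [(1, 0, [3, 4]), (7, 0, [3,
      4])]⟩,
    ⟨[(0, 2), (1, 2)], [(0, 1), (2, 1), (2, 3), (2, 4)], [(1, 1)], [2, 6], [(0, 1, []), (4,
      1, [])]⟩,
    ⟨[(0, 1), (0, 2), (1, 2), (1, 3), (2, 3), (2, 4)], [(1, 0), (1, 3), (2, 0), (2, 1), (2,
      3), (2, 4), (3, 0), (3, 3)], [(0, 3)], [7], [(2, 3, [0]), (7, 0, [3, 4])]⟩]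
  Ta := [((0, 1), 1, 0), ((0, 8), 1, 6), ((1, 0), 0, 1), ((1, 5), 0, 5), ((4, 3), 1, 4), ((4, 6),
    1, 2), ((7, 6), 0, 2), ((7, 9), 0, 7)]
  Tb := [((0, 1, 8), 1, 0, 6), ((1, 0, 5), 0, 1, 5), ((2, 3, 9), 3, 4, 7), ((3, 2, 4), 4, 3, 1),
    ((4, 3, 6), 1, 4, 2), ((5, 1, 6), 5, 0, 2), ((6, 4, 5), 2, 1, 5), ((6, 4, 7), 2, 1, 0),
    ((6, 4, 8), 2, 1, 6), ((6, 5, 7), 2, 5, 0), ((6, 5, 8), 2, 5, 6), ((6, 7, 8), 2, 0, 6),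
    ((7, 6, 9), 0, 2, 7), ((8, 0, 6), 6, 1, 2), ((9, 2, 7), 7, 3, 0)]
  Tc := [(0, 3, 4)]
  Td := [((0, 3), (1, 0), 1), ((0, 3), (1, 5), 5), ((0, 3), (7, 6), 2), ((0, 3), (7, 9), 7), ((0,
    4), (1, 0), 1), ((0, 4), (1, 5), 5), ((0, 4), (7, 6), 2), ((0, 4), (7, 9), 7), ((3, 0),
    (2, 3), 4), ((3, 0), (2, 9), 7), ((4, 0), (3, 2), 3), ((4, 0), (3, 4), 1)]
  G := [[0, 0x11c11cc11c11cc611c11cc8c2, 0, 0, 0x7171aee92961d1aee98568], [0, 0, 0,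
    0xeeceecc124, 0x31b1a68ee9a571d1a8188e98da4], [0, 0, 0xeeceecc128, 0,
    0x7171ab1b1aee9ee9ad48], [0, 0, 0x66ceac8cce184, 0xeeceecc128, 0x71a1ab1b1aee9ee9ad42]]

noncomputable def n737 : Ent := ⟨e737, noF, [], [], [(11, 14, [385746751338780685620664494392815470296102193487288376375504897, 0])]⟩

def c737 : PLift (Cov.check n737.C.D v737 = true) := ⟨by decide +kernel⟩

def b737 : PLift (entF (fidx ts) 400 737 n737 = true) := ⟨by decide +kernel⟩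

theorem g737 : GoodF (fidx ts) 400 737 := GoodF.ofV v737 n737 c737.down b737.down

/-- 458656:618 -/
noncomputable def e738 : SCfg where
  D := {
    a := 6
    L := 11
    kp := 8
    inn := [(0, 1), (0, 2), (1, 0), (1, 2), (1, 3), (1, 5), (2, 0), (2, 1), (2, 4), (2, 5), (3, 1), (3,
      5), (4, 2), (5, 1), (5, 2), (5, 3)]
    mix := [(0, 0), (0, 1), (1, 1), (2, 0), (2, 2), (2, 3), (2, 4), (3, 1), (3, 5), (3, 6), (3, 7), (4,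
      0), (4, 4), (4, 8), (4, 9), (5, 2), (5, 7), (5, 10)]
    cl := [1, 0, 3, 4, 1, 2, 5, 0, 6, 7, 8]
    chq := [(0, 3), (0, 4), (3, 0), (4, 0)]
    rng := [(0, 1), (0, 9), (1, 0), (1, 5), (2, 3), (2, 10), (3, 2), (3, 4), (4, 3), (4, 8), (5, 1),
      (5, 6), (6, 5), (6, 7), (7, 6), (7, 10), (8, 4), (8, 9), (9, 0), (9, 8), (10, 2), (10, 7)]
    lev := [] }
  links := [[1, 2, 6, 7], [2, 0, 7, 3, 5], [6, 0, 1, 5, 8, 9, 10, 4], [5, 1, 7, 11, 12, 13], [6, 2, 10,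
    14, 15], [8, 2, 1, 3, 13, 16]]
  P := {
    a := 6
    N := 17
    nb := [198, 173, 1907, 14498, 50244, 73998, 32917, 2123, 66084, 1284, 16916, 4232, 10248, 69672,
      33808, 16464, 8480]
    tri := [(0, 1, 2), (0, 1, 7), (0, 2, 6), (0, 6, 7), (1, 2, 5), (1, 3, 5), (1, 3, 7), (2, 4, 6), (2,
      4, 10), (2, 5, 8), (2, 8, 9), (2, 9, 10), (3, 5, 13), (3, 7, 11), (3, 11, 12), (3, 12, 13),
      (4, 6, 15), (4, 10, 14), (4, 14, 15), (5, 8, 16), (5, 13, 16)]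
    fin := [0, 0, 2, 2, 0, 2, 0, 2, 8, 9, 0, 11, 12, 2, 14, 15, 16]
    chd := [(2, 8), (2, 9)]
    steps := [(0, 1), (0, 6), (0, 4), (0, 10), (2, 5), (2, 3), (2, 7), (2, 13)] }
  rep := [2, 0, 11, 8, 9, 12, 14, 15, 16]

noncomputable def v738 : Cov.CovD where
  P := 3
  N := 6
  pl := [5, 6, 8, 9, 10]
  lev := [⟨[], [], [(0, 1)], [], [(0, 1, []), (1, 0, [3, 4])]⟩,
    ⟨[], [(0, 0), (0, 1)], [], [], [(1, 0, [3, 4])]⟩,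
    ⟨[(0, 1)], [(0, 0), (0, 1), (0, 3), (0, 4), (1, 0), (1, 1), (1, 3), (1, 4)], [(1, 1),
      (1, 3), (1, 4), (3, 4)], [], [(0, 1, []), (2, 3, [0]), (3, 4, [0]), (4, 1, [])]⟩,
    ⟨[(0, 1), (1, 2)], [(0, 0), (1, 0)], [(0, 0)], [2, 5], [(1, 0, [3, 4]), (7, 0, [3,
      4])]⟩,
    ⟨[(0, 2), (1, 2)], [(0, 1), (2, 1), (2, 3), (2, 4)], [(1, 1)], [6, 7], [(0, 1, []), (4,
      1, [])]⟩,
    ⟨[(0, 1), (0, 2), (1, 2), (1, 3), (2, 3), (2, 4)], [(1, 0), (1, 3), (2, 0), (2, 1), (2,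
      3), (2, 4), (3, 0), (3, 3)], [(0, 3)], [8], [(2, 3, [0]), (7, 0, [3, 4])]⟩]
  Ta := [((0, 1), 1, 0), ((0, 9), 1, 7), ((1, 0), 0, 1), ((1, 5), 0, 2), ((4, 3), 1, 4), ((4, 8),
    1, 6), ((7, 6), 0, 5), ((7, 10), 0, 8)]
  Tb := [((0, 1, 9), 1, 0, 7), ((1, 0, 5), 0, 1, 2), ((2, 3, 10), 3, 4, 8), ((3, 2, 4), 4, 3, 1),
    ((4, 3, 8), 1, 4, 6), ((5, 1, 6), 2, 0, 5), ((6, 5, 7), 5, 2, 0), ((7, 6, 10), 0, 5, 8),
    ((8, 4, 9), 6, 1, 7), ((9, 0, 8), 7, 1, 6), ((10, 2, 7), 8, 3, 0)]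
  Tc := [(0, 3, 4)]
  Td := [((0, 3), (1, 0), 1), ((0, 3), (1, 5), 2), ((0, 3), (7, 6), 5), ((0, 3), (7, 10), 8),
    ((0, 4), (1, 0), 1), ((0, 4), (1, 5), 2), ((0, 4), (7, 6), 5), ((0, 4), (7, 10), 8), ((3,
    0), (2, 3), 4), ((3, 0), (2, 10), 8), ((4, 0), (3, 2), 3), ((4, 0), (3, 4), 1)]
  G := [[0, 0x116411a12c111e111ece111e18c8a1411cc486, 0xeeed464d61a8ad81c4,
    0x61b1c427171ceeedeeedc92c, 0xb122eed2571d1ab18eeedc8ada4], [0, 0, 0xeeedeeed6184,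
    0x71d1cb1b1ceeedeeedcd24, 0x71a1ab1b1aeeedeeedad42], [0, 0, 0, 0x71a1cb1b1ceeedeeedcd24,
    0x7171ab1b1aeeedeeedad48], [0, 0, 0, 0x71a1cb1b1ceeedeeedcd24, 0x7171ab1b1aeeedeeedad48]]

noncomputable def n738 : Ent := ⟨e738, noF, [], [], [(11, 15, [1685356702439545624007900436039642273970977273354372543760003104769, 0]), (12, 14, [1685382413448253767852309107433119732572617628602273068445367930881, 0])]⟩

def c738 : PLift (Cov.check n738.C.D v738 = true) := ⟨by decide +kernel⟩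

def b738 : PLift (entF (fidx ts) 400 738 n738 = true) := ⟨by decide +kernel⟩

theorem g738 : GoodF (fidx ts) 400 738 := GoodF.ofV v738 n738 c738.down b738.down

/-- 474644:620/1 -/
noncomputable def e739 : SCfg where
  D := {
    a := 6
    L := 8
    kp := 6
    inn := [(0, 1), (1, 0), (1, 2), (1, 3), (2, 1), (3, 1), (3, 4), (3, 5), (4, 3), (5, 3)]
    mix := [(0, 0), (0, 1), (0, 2), (1, 0), (1, 2), (1, 3), (1, 4), (2, 2), (2, 3), (2, 5), (3, 3), (3,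
      4), (3, 6), (4, 3), (4, 5), (4, 6), (5, 4), (5, 6), (5, 7)]
    cl := [1, 5, 3, 0, 0, 2, 4, 6]
    chq := [(0, 4), (1, 2), (1, 3), (2, 1), (3, 1), (4, 0)]
    rng := [(0, 1), (0, 4), (1, 0), (1, 2), (2, 1), (2, 5), (3, 5), (4, 0), (4, 7), (5, 2), (5, 3), (5,
      6), (6, 5), (6, 7), (7, 4), (7, 6)]
    lev := [] }
  links := [[1, 6, 7, 8], [6, 0, 8, 2, 9, 3, 10], [9, 1, 8, 11], [10, 1, 9, 4, 12, 5], [12, 3, 9, 11],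
    [10, 3, 12, 13]]
  P := {
    a := 6
    N := 14
    nb := [450, 1869, 2818, 5682, 6664, 13320, 1155, 321, 2183, 2078, 8298, 4884, 10296, 5152]
    tri := [(0, 1, 6), (0, 1, 8), (0, 6, 7), (0, 7, 8), (1, 2, 8), (1, 2, 9), (1, 3, 9), (1, 3, 10),
      (1, 6, 10), (2, 8, 11), (2, 9, 11), (3, 4, 9), (3, 4, 12), (3, 5, 10), (3, 5, 12), (4, 9,
      11), (4, 11, 12), (5, 10, 13), (5, 12, 13)]
    fin := [0, 0, 0, 3, 4, 3, 0, 7, 8, 3, 3, 4, 12, 13]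
    chd := [(0, 4), (0, 8), (3, 12)]
    steps := [(0, 1), (0, 2), (0, 6), (3, 5), (3, 9), (3, 10), (4, 11)] }
  rep := [3, 0, 4, 8, 12, 7, 13]

noncomputable def v739 : Cov.CovD where
  P := 3
  N := 4
  pl := [1, 7]
  lev := [⟨[], [], [(1, 3)], [5], [(0, 1, [2, 3]), (2, 3, [1])]⟩,
    ⟨[], [(0, 0), (0, 1), (0, 3)], [(0, 0), (0, 1), (0, 3), (1, 3)], [], [(0, 1, [2, 3]),
      (2, 3, [1]), (3, 0, [4]), (4, 0, [4])]⟩,
    ⟨[(0, 1)], [(0, 3), (1, 0), (1, 1), (1, 2), (1, 3)], [(0, 2), (0, 3), (2, 3)], [], [(2,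
      3, [1]), (3, 0, [4]), (5, 2, [1])]⟩,
    ⟨[(0, 1), (1, 2)], [(1, 0), (1, 1), (1, 3), (1, 4), (2, 0)], [(0, 0), (0, 4)], [], [(3,
      0, [4]), (4, 0, [4]), (6, 4, [0])]⟩,
    ⟨[(1, 3)], [(1, 0), (2, 0), (2, 2), (3, 0), (3, 2), (3, 4)], [(0, 2), (0, 4), (2, 4)],
      [], [(3, 0, [4]), (5, 2, [1]), (6, 4, [0])]⟩,
    ⟨[(1, 3), (3, 4)], [(1, 0), (3, 0), (3, 4), (4, 4)], [(0, 4)], [6], [(4, 0, [4]), (6,
      4, [0])]⟩]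
  Ta := [((3, 5), 0, 2), ((4, 0), 0, 1), ((4, 7), 0, 6)]
  Tb := [((0, 1, 4), 1, 5, 0), ((1, 0, 2), 5, 1, 3), ((2, 1, 5), 3, 5, 2), ((4, 0, 7), 0, 1, 6),
    ((5, 2, 3), 2, 3, 0), ((5, 2, 6), 2, 3, 4), ((5, 3, 6), 2, 0, 4), ((6, 5, 7), 4, 2, 6),
    ((7, 4, 6), 6, 0, 4)]
  Tc := [(1, 2, 3)]
  Td := [((0, 4), (3, 5), 2), ((0, 4), (4, 0), 1), ((0, 4), (4, 7), 6), ((1, 2), (0, 1), 5), ((1,
    2), (0, 4), 0), ((1, 3), (0, 1), 5), ((1, 3), (0, 4), 0), ((2, 1), (5, 2), 3), ((2, 1),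
    (5, 3), 0), ((2, 1), (5, 6), 4), ((3, 1), (2, 1), 5), ((3, 1), (2, 5), 2), ((4, 0), (6,
    5), 2), ((4, 0), (6, 7), 6)]
  G := [[0, 0, 0x14126281412a241214c21814a4cd, 0xa1c2816c22c2, 0xc81262818d2a24c1a4218d2a2cd],
    [0, 0xc8a6c618c4a6ca14a161ca161cc2e, 0, 0xc6928a6924c2,
    0xc49a162868961a246c34268961a2cd]]

noncomputable def n739 : Ent := ⟨e739, noF, [], [], []⟩

def c739 : PLift (Cov.check n739.C.D v739 = true) := ⟨by decide +kernel⟩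

def b739 : PLift (entF (fidx ts) 400 739 n739 = true) := ⟨by decide +kernel⟩

theorem g739 : GoodF (fidx ts) 400 739 := GoodF.ofV v739 n739 c739.down b739.down

/-- 474644:620 -/
noncomputable def e740 : SCfg where
  D := {
    a := 6
    L := 9
    kp := 7
    inn := [(0, 1), (1, 0), (1, 2), (1, 3), (2, 1), (3, 1), (3, 4), (3, 5), (4, 3), (5, 3)]
    mix := [(0, 0), (0, 1), (0, 2), (1, 0), (1, 2), (1, 3), (1, 4), (2, 2), (2, 3), (2, 5), (3, 3), (3,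
      4), (3, 6), (4, 3), (4, 6), (4, 7), (5, 4), (5, 6), (5, 8)]
    cl := [2, 5, 1, 0, 0, 4, 3, 6, 7]
    chq := [(0, 3), (1, 2), (2, 1), (2, 4), (3, 0), (4, 2)]
    rng := [(0, 1), (0, 4), (1, 0), (1, 2), (2, 1), (2, 5), (3, 5), (3, 7), (4, 0), (4, 8), (5, 2), (5,
      3), (6, 7), (6, 8), (7, 3), (7, 6), (8, 4), (8, 6)]
    lev := [] }
  links := [[1, 6, 7, 8], [6, 0, 8, 2, 9, 3, 10], [9, 1, 8, 11], [10, 1, 9, 4, 12, 5], [12, 3, 9, 13],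
    [10, 3, 12, 14]]
  P := {
    a := 6
    N := 15
    nb := [450, 1869, 2818, 5682, 12808, 21512, 1155, 321, 2183, 10270, 16490, 772, 24632, 4624, 5152]
    tri := [(0, 1, 6), (0, 1, 8), (0, 6, 7), (0, 7, 8), (1, 2, 8), (1, 2, 9), (1, 3, 9), (1, 3, 10),
      (1, 6, 10), (2, 8, 11), (2, 9, 11), (3, 4, 9), (3, 4, 12), (3, 5, 10), (3, 5, 12), (4, 9,
      13), (4, 12, 13), (5, 10, 14), (5, 12, 14)]
    fin := [0, 0, 0, 3, 3, 3, 0, 7, 8, 3, 3, 11, 12, 13, 14]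
    chd := [(0, 8), (0, 11), (3, 12)]
    steps := [(0, 1), (0, 2), (0, 6), (3, 4), (3, 5), (3, 9), (3, 10)] }
  rep := [3, 8, 0, 12, 11, 7, 13, 14]

noncomputable def v740 : Cov.CovD where
  P := 3
  N := 5
  pl := [1, 7, 8]
  lev := [⟨[], [], [(1, 2)], [5], [(0, 2, [1, 4]), (2, 1, [2])]⟩,
    ⟨[], [(0, 0), (0, 1), (0, 2)], [(0, 0), (0, 1), (0, 2), (1, 2)], [], [(0, 2, [1, 4]),
      (2, 1, [2]), (3, 0, [3]), (4, 0, [3])]⟩,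
    ⟨[(0, 1)], [(0, 1), (1, 0), (1, 1), (1, 2), (1, 4)], [(0, 1), (0, 4), (1, 4)], [], [(2,
      1, [2]), (3, 0, [3]), (5, 4, [2])]⟩,
    ⟨[(0, 1), (1, 2)], [(1, 0), (1, 1), (1, 2), (1, 3), (2, 0)], [(0, 0), (0, 3)], [], [(3,
      0, [3]), (4, 0, [3]), (6, 3, [0])]⟩,
    ⟨[(1, 3)], [(1, 0), (2, 0), (3, 0), (3, 3)], [(0, 3)], [6], [(3, 0, [3]), (6, 3, [0])]⟩,
    ⟨[(1, 3), (3, 4)], [(1, 0), (3, 0), (3, 3), (4, 3)], [(0, 3)], [7], [(4, 0, [3]), (6,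
      3, [0])]⟩]
  Ta := [((3, 5), 0, 4), ((3, 7), 0, 6), ((4, 0), 0, 2), ((4, 8), 0, 7)]
  Tb := [((0, 1, 4), 2, 5, 0), ((1, 0, 2), 5, 2, 1), ((2, 1, 5), 1, 5, 4), ((3, 5, 7), 0, 4, 6),
    ((4, 0, 8), 0, 2, 7), ((5, 2, 3), 4, 1, 0), ((6, 7, 8), 3, 6, 7), ((7, 3, 6), 6, 0, 3),
    ((8, 4, 6), 7, 0, 3)]
  Tc := [(2, 1, 4)]
  Td := [((0, 3), (3, 5), 4), ((0, 3), (3, 7), 6), ((0, 3), (4, 0), 2), ((0, 3), (4, 8), 7), ((1,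
    2), (2, 1), 5), ((1, 2), (2, 5), 4), ((2, 1), (0, 1), 5), ((2, 1), (0, 4), 0), ((2, 4),
    (0, 1), 5), ((2, 4), (0, 4), 0), ((3, 0), (6, 7), 6), ((3, 0), (6, 8), 7), ((4, 2), (5,
    2), 1), ((4, 2), (5, 3), 0)]
  G := [[0, 0x13ca5a6285cc696a24c, 0, 0x51c696a241bca1a6285, 0xc9c15a6481bca1a6489], [0,
    0xc1ac2b6286c9665a24c, 0xc161ac161ac4614c1a16ca188cc, 0xc16c6ba246c5c63a249,
    0xc1248af648ac5aa96489]]

noncomputable def n740 : Ent := ⟨e740, noF, [], [], [(11, 13, [87897818358406171357428020359653357189577334862559920926721, 0])]⟩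

def c740 : PLift (Cov.check n740.C.D v740 = true) := ⟨by decide +kernel⟩

def b740 : PLift (entF (fidx ts) 400 740 n740 = true) := ⟨by decide +kernel⟩

theorem g740 : GoodF (fidx ts) 400 740 := GoodF.ofV v740 n740 c740.down b740.down

/-- 474674:637 -/
noncomputable def e741 : SCfg where
  D := {
    a := 6
    L := 11
    kp := 8
    inn := [(0, 1), (1, 0), (1, 2), (1, 3), (1, 4), (2, 1), (3, 1), (3, 4), (4, 1), (4, 3), (4, 5), (5,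
      4)]
    mix := [(0, 0), (0, 1), (0, 2), (1, 0), (1, 2), (1, 3), (2, 2), (2, 3), (2, 4), (3, 3), (3, 5), (3,
      6), (3, 7), (4, 0), (4, 7), (4, 8), (4, 9), (5, 7), (5, 8), (5, 10)]
    cl := [0, 5, 1, 0, 6, 7, 8, 0, 3, 2, 4]
    chq := [(0, 1), (1, 0), (2, 4), (4, 2)]
    rng := [(0, 1), (0, 9), (1, 0), (1, 2), (2, 1), (2, 4), (3, 4), (3, 5), (4, 2), (4, 3), (5, 3), (5,
      6), (6, 5), (6, 7), (7, 6), (7, 10), (8, 9), (8, 10), (9, 0), (9, 8), (10, 7), (10, 8)]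
    lev := [] }
  links := [[1, 6, 7, 8], [6, 0, 8, 2, 9, 3, 4], [9, 1, 8, 10], [4, 1, 9, 11, 12, 13], [6, 1, 3, 13, 5,
    14, 15], [14, 4, 13, 16]]
  P := {
    a := 6
    N := 17
    nb := [450, 861, 1794, 14866, 57450, 90128, 32915, 321, 1159, 3086, 772, 4616, 10248, 69688,
      98352, 16464, 24608]
    tri := [(0, 1, 6), (0, 1, 8), (0, 6, 7), (0, 7, 8), (1, 2, 8), (1, 2, 9), (1, 3, 4), (1, 3, 9), (1,
      4, 6), (2, 8, 10), (2, 9, 10), (3, 4, 13), (3, 9, 11), (3, 11, 12), (3, 12, 13), (4, 5, 13),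
      (4, 5, 14), (4, 6, 15), (4, 14, 15), (5, 13, 16), (5, 14, 16)]
    fin := [0, 0, 0, 0, 4, 4, 0, 7, 8, 0, 10, 11, 12, 0, 14, 15, 4]
    chd := [(0, 8), (15, 4)]
    steps := [(0, 1), (0, 2), (0, 3), (0, 6), (0, 9), (0, 13), (4, 5), (4, 16)] }
  rep := [0, 8, 15, 14, 4, 7, 10, 11, 12]

noncomputable def v741 : Cov.CovD where
  P := 3
  N := 6
  pl := [1, 4, 5, 6, 8]
  lev := [⟨[], [], [(0, 1)], [5], [(0, 0, [1]), (2, 1, [0])]⟩,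
    ⟨[], [(0, 0), (0, 1)], [(0, 0), (0, 1)], [], [(0, 0, [1]), (2, 1, [0]), (3, 0, [1])]⟩,
    ⟨[(0, 1)], [(0, 1), (1, 0), (1, 1)], [(0, 1)], [6], [(2, 1, [0]), (3, 0, [1])]⟩,
    ⟨[(0, 1), (1, 2)], [(1, 0), (1, 1), (2, 0)], [(0, 0)], [7, 8], [(3, 0, [1]), (7, 0,
      [1])]⟩,
    ⟨[(0, 1), (1, 2), (1, 3)], [(0, 0), (1, 0), (1, 1), (1, 2), (3, 0), (3, 2)], [(0, 0),
      (0, 2)], [3], [(0, 0, [1]), (7, 0, [1]), (9, 2, [4])]⟩,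
    ⟨[(1, 4), (3, 4)], [(3, 0), (4, 0), (4, 2), (4, 4)], [(0, 4)], [3], [(7, 0, [1]), (10,
      4, [2])]⟩]
  Ta := [((0, 1), 0, 5), ((0, 9), 0, 2), ((3, 4), 0, 6), ((3, 5), 0, 7), ((7, 6), 0, 8), ((7,
    10), 0, 4)]
  Tb := [((0, 1, 9), 0, 5, 2), ((1, 0, 2), 5, 0, 1), ((2, 1, 4), 1, 5, 6), ((3, 4, 5), 0, 6, 7),
    ((4, 2, 3), 6, 1, 0), ((5, 3, 6), 7, 0, 8), ((6, 5, 7), 8, 7, 0), ((7, 6, 10), 0, 8, 4),
    ((8, 9, 10), 3, 2, 4), ((9, 0, 8), 2, 0, 3), ((10, 7, 8), 4, 0, 3)]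
  Tc := []
  Td := [((0, 1), (0, 1), 5), ((0, 1), (0, 9), 2), ((0, 1), (3, 4), 6), ((0, 1), (3, 5), 7), ((0,
    1), (7, 6), 8), ((0, 1), (7, 10), 4), ((1, 0), (2, 1), 5), ((1, 0), (2, 4), 6), ((2, 4),
    (9, 0), 0), ((2, 4), (9, 8), 3), ((4, 2), (10, 7), 0), ((4, 2), (10, 8), 3)]
  G := [[0, 0x242421ce12c12cc6221c2421ce2421c21cec21821c6188c4e, 0x11c11a11ae1411611611ce18c,
    0x144112c2821ce1c1412c21ce12881cc, 0x14a41a41ae1414a4141a14aa1cc], [0,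
    0x12c12c12ce4221c12c21ce822412c12ce21882ce, 0, 0x2441421c12cec21c1812ce288cc1,
    0x41a4414a41a14ae14a41aacc1], [0, 0x34146421c2828e8c14821c21c662882c34146184c2828a1486ce,
    0, 0xe46ac6ace12881c1, 0x6ca4eae4ae141]]

noncomputable def n741 : Ent := ⟨e741, noF, [], [], []⟩

def c741 : PLift (Cov.check n741.C.D v741 = true) := ⟨by decide +kernel⟩

def b741 : PLift (entF (fidx ts) 400 741 n741 = true) := ⟨by decide +kernel⟩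

theorem g741 : GoodF (fidx ts) 400 741 := GoodF.ofV v741 n741 c741.down b741.down

/-- 474674:638/1 -/
noncomputable def e742 : SCfg where
  D := {
    a := 6
    L := 10
    kp := 7
    inn := [(0, 1), (1, 0), (1, 2), (1, 3), (1, 4), (2, 1), (3, 1), (3, 4), (4, 1), (4, 3), (4, 5), (5,
      4)]
    mix := [(0, 0), (0, 1), (0, 2), (1, 0), (1, 2), (1, 3), (2, 2), (2, 3), (2, 4), (3, 3), (3, 5), (3,
      6), (3, 7), (4, 0), (4, 7), (4, 8), (4, 9), (5, 0), (5, 1), (5, 9)]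
    cl := [0, 2, 1, 0, 5, 6, 7, 0, 4, 3]
    chq := [(0, 1), (1, 0), (2, 4), (4, 2)]
    rng := [(0, 1), (1, 0), (1, 2), (1, 9), (2, 1), (2, 4), (3, 4), (3, 5), (4, 2), (4, 3), (5, 3), (5,
      6), (6, 5), (6, 7), (7, 6), (7, 8), (8, 7), (8, 9), (9, 1), (9, 8)]
    lev := [] }
  links := [[1, 6, 7, 8], [6, 0, 8, 2, 9, 3, 4], [9, 1, 8, 10], [4, 1, 9, 11, 12, 13], [6, 1, 3, 13, 14,
    15, 5], [6, 4, 15, 7]]
  P := {
    a := 6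
    N := 16
    nb := [450, 861, 1794, 14866, 57450, 32976, 179, 33121, 1159, 3086, 772, 4616, 10248, 20504,
      40976, 16560]
    tri := [(0, 1, 6), (0, 1, 8), (0, 6, 7), (0, 7, 8), (1, 2, 8), (1, 2, 9), (1, 3, 4), (1, 3, 9), (1,
      4, 6), (2, 8, 10), (2, 9, 10), (3, 4, 13), (3, 9, 11), (3, 11, 12), (3, 12, 13), (4, 5, 6),
      (4, 5, 15), (4, 13, 14), (4, 14, 15), (5, 6, 7), (5, 7, 15)]
    fin := [0, 0, 0, 0, 4, 4, 0, 4, 8, 0, 10, 11, 12, 0, 14, 15]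
    chd := [(0, 8), (4, 14)]
    steps := [(0, 1), (0, 2), (0, 3), (0, 6), (0, 9), (0, 13), (4, 5), (4, 7)] }
  rep := [0, 8, 4, 15, 14, 10, 11, 12]

noncomputable def v742 : Cov.CovD where
  P := 3
  N := 5
  pl := [4, 5, 6, 9]
  lev := [⟨[], [], [(0, 1), (0, 2), (1, 2)], [], [(0, 0, [1]), (1, 2, [4]), (2, 1, [0])]⟩,
    ⟨[], [(0, 0), (0, 1), (0, 2)], [(0, 0), (0, 1)], [], [(0, 0, [1]), (2, 1, [0]), (3, 0,
      [1])]⟩,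
    ⟨[(0, 1)], [(0, 1), (1, 0), (1, 1)], [(0, 1)], [5], [(2, 1, [0]), (3, 0, [1])]⟩,
    ⟨[(0, 1), (1, 2)], [(1, 0), (1, 1), (2, 0)], [(0, 0)], [6, 7], [(3, 0, [1]), (7, 0,
      [1])]⟩,
    ⟨[(0, 1), (1, 2), (1, 3)], [(0, 0), (1, 0), (1, 1), (1, 4), (3, 0), (3, 4)], [(0, 0),
      (0, 4)], [3], [(0, 0, [1]), (7, 0, [1]), (8, 4, [2])]⟩,
    ⟨[(1, 4), (3, 4)], [(0, 0), (0, 2), (1, 0), (4, 0), (4, 2), (4, 4)], [(0, 2)], [3],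
      [(0, 0, [1]), (1, 2, [4])]⟩]
  Ta := [((0, 1), 0, 2), ((3, 4), 0, 5), ((3, 5), 0, 6), ((7, 6), 0, 7), ((7, 8), 0, 4)]
  Tb := [((1, 0, 2), 2, 0, 1), ((1, 0, 9), 2, 0, 3), ((1, 2, 9), 2, 1, 3), ((2, 1, 4), 1, 2, 5),
    ((3, 4, 5), 0, 5, 6), ((4, 2, 3), 5, 1, 0), ((5, 3, 6), 6, 0, 7), ((6, 5, 7), 7, 6, 0),
    ((7, 6, 8), 0, 7, 4), ((8, 7, 9), 4, 0, 3), ((9, 1, 8), 3, 2, 4)]
  Tc := []
  Td := [((0, 1), (0, 1), 2), ((0, 1), (3, 4), 5), ((0, 1), (3, 5), 6), ((0, 1), (7, 6), 7), ((0,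
    1), (7, 8), 4), ((1, 0), (2, 1), 2), ((1, 0), (2, 4), 5), ((2, 4), (1, 0), 0), ((2, 4),
    (1, 2), 1), ((2, 4), (1, 9), 3), ((4, 2), (8, 7), 0), ((4, 2), (8, 9), 3)]
  G := [[0, 0x81641662481e881cae814ce891e81ce4e8, 0x4266a2e64cee16881c4, 0xc2c2c2e148,
    0xa4416a2e82a8acee1c8], [0, 0x4411ce541ee44481e14e615a84ca89aaac4, 0,
    0x925265252c2ec9288c4, 0xa4a866a46a2e2a8eec6a2e82a28e22a8cc1], [0,
    0x481e81cea11ce85a81ceea881e4144c68, 0, 0x92c292e184, 0x92641312e18831ee1c8]]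

noncomputable def n742 : Ent := ⟨e742, noF, [], [], []⟩

def c742 : PLift (Cov.check n742.C.D v742 = true) := ⟨by decide +kernel⟩

def b742 : PLift (entF (fidx ts) 400 742 n742 = true) := ⟨by decide +kernel⟩

theorem g742 : GoodF (fidx ts) 400 742 := GoodF.ofV v742 n742 c742.down b742.down

/-- 474674:638 -/
noncomputable def e743 : SCfg where
  D := {
    a := 6
    L := 11
    kp := 8
    inn := [(0, 1), (1, 0), (1, 2), (1, 3), (1, 4), (2, 1), (3, 1), (3, 4), (4, 1), (4, 3), (4, 5), (5,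
      4)]
    mix := [(0, 0), (0, 1), (0, 2), (1, 0), (1, 2), (1, 3), (2, 2), (2, 3), (2, 4), (3, 3), (3, 5), (3,
      6), (3, 7), (4, 0), (4, 7), (4, 8), (4, 9), (5, 0), (5, 9), (5, 10)]
    cl := [0, 5, 1, 0, 6, 7, 8, 0, 2, 3, 4]
    chq := [(0, 1), (1, 0), (2, 4), (4, 2)]
    rng := [(0, 1), (0, 10), (1, 0), (1, 2), (2, 1), (2, 4), (3, 4), (3, 5), (4, 2), (4, 3), (5, 3),
      (5, 6), (6, 5), (6, 7), (7, 6), (7, 8), (8, 7), (8, 9), (9, 8), (9, 10), (10, 0), (10, 9)]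
    lev := [] }
  links := [[1, 6, 7, 8], [6, 0, 8, 2, 9, 3, 4], [9, 1, 8, 10], [4, 1, 9, 11, 12, 13], [6, 1, 3, 13, 14,
    15, 5], [6, 4, 15, 16]]
  P := {
    a := 6
    N := 17
    nb := [450, 861, 1794, 14866, 57450, 98384, 65715, 321, 1159, 3086, 772, 4616, 10248, 20504,
      40976, 81968, 32864]
    tri := [(0, 1, 6), (0, 1, 8), (0, 6, 7), (0, 7, 8), (1, 2, 8), (1, 2, 9), (1, 3, 4), (1, 3, 9), (1,
      4, 6), (2, 8, 10), (2, 9, 10), (3, 4, 13), (3, 9, 11), (3, 11, 12), (3, 12, 13), (4, 5, 6),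
      (4, 5, 15), (4, 13, 14), (4, 14, 15), (5, 6, 16), (5, 15, 16)]
    fin := [0, 0, 0, 0, 4, 4, 0, 7, 8, 0, 10, 11, 12, 0, 4, 15, 16]
    chd := [(0, 8), (4, 16)]
    steps := [(0, 1), (0, 2), (0, 3), (0, 6), (0, 9), (0, 13), (4, 5), (4, 14)] }
  rep := [0, 8, 4, 15, 16, 7, 10, 11, 12]

noncomputable def v743 : Cov.CovD where
  P := 3
  N := 6
  pl := [1, 4, 5, 6, 9]
  lev := [⟨[], [], [(0, 1)], [5], [(0, 0, [1]), (2, 1, [0])]⟩,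
    ⟨[], [(0, 0), (0, 1)], [(0, 0), (0, 1)], [], [(0, 0, [1]), (2, 1, [0]), (3, 0, [1])]⟩,
    ⟨[(0, 1)], [(0, 1), (1, 0), (1, 1)], [(0, 1)], [6], [(2, 1, [0]), (3, 0, [1])]⟩,
    ⟨[(0, 1), (1, 2)], [(1, 0), (1, 1), (2, 0)], [(0, 0)], [7, 8], [(3, 0, [1]), (7, 0,
      [1])]⟩,
    ⟨[(0, 1), (1, 2), (1, 3)], [(0, 0), (1, 0), (1, 1), (1, 2), (3, 0), (3, 2)], [(0, 0),
      (0, 2)], [3], [(0, 0, [1]), (7, 0, [1]), (8, 2, [4])]⟩,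
    ⟨[(1, 4), (3, 4)], [(0, 0), (1, 0), (4, 0), (4, 2), (4, 4)], [(0, 4)], [3], [(0, 0,
      [1]), (10, 4, [2])]⟩]
  Ta := [((0, 1), 0, 5), ((0, 10), 0, 4), ((3, 4), 0, 6), ((3, 5), 0, 7), ((7, 6), 0, 8), ((7,
    8), 0, 2)]
  Tb := [((0, 1, 10), 0, 5, 4), ((1, 0, 2), 5, 0, 1), ((2, 1, 4), 1, 5, 6), ((3, 4, 5), 0, 6, 7),
    ((4, 2, 3), 6, 1, 0), ((5, 3, 6), 7, 0, 8), ((6, 5, 7), 8, 7, 0), ((7, 6, 8), 0, 8, 2),
    ((8, 7, 9), 2, 0, 3), ((9, 8, 10), 3, 2, 4), ((10, 0, 9), 4, 0, 3)]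
  Tc := []
  Td := [((0, 1), (0, 1), 5), ((0, 1), (0, 10), 4), ((0, 1), (3, 4), 6), ((0, 1), (3, 5), 7),
    ((0, 1), (7, 6), 8), ((0, 1), (7, 8), 2), ((1, 0), (2, 1), 5), ((1, 0), (2, 4), 6), ((2,
    4), (8, 7), 0), ((2, 4), (8, 9), 3), ((4, 2), (10, 0), 0), ((4, 2), (10, 9), 3)]
  G := [[0, 0x242421ce12c12cc6221c2421ce2421c21cec21821c6188c4e, 0,
    0x24416ace8e2ce1ce46ac2ece12881cc, 0x4ea4eae4ae144ea6ca616ca81cc], [0,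
    0x12c21c21ce8221c21c6421c82a24821c12c661884ce, 0, 0x244e46ac2ecec6ace8e2ce288cc1,
    0x4ea6ca644eae4ae4ae6ca8cc1], [0, 0x21c2221c84612c21c21ce12c4a224421c21c62418ce1882ce,
    0x48eec6ae24ee141, 0x6ac6ac616ac81c1, 0x4eac6a6cae141]]

noncomputable def n743 : Ent := ⟨e743, noF, [], [], [(7, 16, [1580044410770988437309982408355971841652082177953823432505692151809, 0])]⟩

def c743 : PLift (Cov.check n743.C.D v743 = true) := ⟨by decide +kernel⟩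

def b743 : PLift (entF (fidx ts) 400 743 n743 = true) := ⟨by decide +kernel⟩

theorem g743 : GoodF (fidx ts) 400 743 := GoodF.ofV v743 n743 c743.down b743.down

/-- 458745:639/1 -/
noncomputable def e744 : SCfg where
  D := {
    a := 6
    L := 10
    kp := 7
    inn := [(0, 1), (0, 2), (1, 0), (1, 2), (1, 3), (2, 0), (2, 1), (2, 3), (2, 5), (3, 1), (3, 2), (3,
      4), (4, 3), (5, 2)]
    mix := [(0, 0), (0, 1), (1, 1), (1, 2), (2, 0), (2, 3), (2, 4), (2, 5), (3, 2), (3, 3), (3, 6), (3,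
      7), (4, 2), (4, 6), (4, 8), (5, 3), (5, 4), (5, 8), (5, 9)]
    cl := [4, 1, 0, 3, 3, 6, 2, 0, 5, 7]
    chq := [(0, 4), (0, 6), (4, 0), (6, 0)]
    rng := [(0, 1), (0, 5), (1, 0), (1, 2), (2, 1), (2, 8), (3, 7), (3, 9), (4, 5), (4, 8), (5, 0), (5,
      4), (6, 7), (6, 8), (7, 3), (7, 6), (8, 2), (8, 4), (8, 6), (8, 9), (9, 3), (9, 8)]
    lev := [] }
  links := [[1, 2, 6, 7], [2, 0, 7, 8, 3], [6, 0, 1, 3, 9, 5, 10, 11], [9, 2, 1, 8, 4, 12, 13], [12, 3,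
    8, 14], [10, 2, 9, 15, 14]]
  P := {
    a := 6
    N := 16
    nb := [198, 397, 3691, 13078, 20744, 50692, 2181, 323, 16538, 41004, 18468, 1092, 24600, 4616,
      38192, 16928]
    tri := [(0, 1, 2), (0, 1, 7), (0, 2, 6), (0, 6, 7), (1, 2, 3), (1, 3, 8), (1, 7, 8), (2, 3, 9), (2,
      5, 9), (2, 5, 10), (2, 6, 11), (2, 10, 11), (3, 4, 8), (3, 4, 12), (3, 9, 13), (3, 12, 13),
      (4, 8, 14), (4, 12, 14), (5, 9, 15), (5, 10, 14), (5, 14, 15)]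
    fin := [0, 0, 2, 2, 2, 5, 0, 7, 2, 5, 5, 11, 12, 2, 14, 15]
    chd := [(0, 2), (2, 11)]
    steps := [(0, 1), (0, 6), (2, 3), (2, 4), (2, 8), (2, 13), (5, 9), (5, 10)] }
  rep := [2, 7, 12, 5, 0, 14, 11, 15]

noncomputable def v744 : Cov.CovD where
  P := 3
  N := 5
  pl := [1, 6, 8, 9]
  lev := [⟨[], [], [], [1], [(0, 4, [0])]⟩,
    ⟨[], [(0, 0), (0, 4)], [], [1], [(2, 0, [4, 6])]⟩,
    ⟨[(0, 1)], [(0, 3), (0, 4), (0, 6), (1, 0), (1, 3), (1, 4), (1, 6)], [(3, 3), (3, 4),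
      (3, 6), (4, 6)], [], [(0, 4, [0]), (3, 3, []), (4, 3, []), (5, 6, [0])]⟩,
    ⟨[(0, 1), (0, 2), (1, 2)], [(1, 0), (1, 3), (2, 0), (2, 3), (2, 4), (2, 6)], [(0, 0),
      (0, 3)], [2], [(2, 0, [4, 6]), (3, 3, []), (7, 0, [4, 6])]⟩,
    ⟨[(1, 3), (2, 3)], [(1, 0), (3, 0), (3, 3)], [], [2, 5], [(2, 0, [4, 6])]⟩,
    ⟨[(0, 2), (1, 2), (2, 3)], [(2, 3), (2, 4), (2, 6), (3, 3)], [(3, 3)], [5, 7], [(3, 3,
      []), (4, 3, [])]⟩]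
  Ta := [((2, 1), 0, 1), ((2, 8), 0, 5), ((3, 7), 3, 0), ((3, 9), 3, 7), ((4, 5), 3, 6), ((4, 8),
    3, 5), ((7, 3), 0, 3), ((7, 6), 0, 2)]
  Tb := [((0, 1, 5), 4, 1, 6), ((1, 0, 2), 1, 4, 0), ((2, 1, 8), 0, 1, 5), ((3, 7, 9), 3, 0, 7),
    ((4, 5, 8), 3, 6, 5), ((5, 0, 4), 6, 4, 3), ((6, 7, 8), 2, 0, 5), ((7, 3, 6), 0, 3, 2),
    ((8, 2, 4), 5, 0, 3), ((8, 2, 6), 5, 0, 2), ((8, 2, 9), 5, 0, 7), ((8, 4, 6), 5, 3, 2),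
    ((8, 4, 9), 5, 3, 7), ((8, 6, 9), 5, 2, 7), ((9, 3, 8), 7, 3, 5)]
  Tc := [(0, 4, 6)]
  Td := [((0, 4), (2, 1), 1), ((0, 4), (2, 8), 5), ((0, 4), (7, 3), 3), ((0, 4), (7, 6), 2), ((0,
    6), (2, 1), 1), ((0, 6), (2, 8), 5), ((0, 6), (7, 3), 3), ((0, 6), (7, 6), 2), ((4, 0),
    (0, 1), 1), ((4, 0), (0, 5), 6), ((6, 0), (5, 0), 4), ((6, 0), (5, 4), 3)]
  G := [[0, 0x87c78c12b4b4cc18c, 0, 0x85c78c14b4b4cc181143418c621588cd,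
    0x85a52aa141211af2f8a58118112a4d], [0, 0x74b8c1234b5cc186, 0,
    0x74b8c1497c81411411949394a84f8d, 0x11211287a58ab411211852d6aa78c], [0, 0,
    0xd2d3a6188d652aa18c, 0x51418b181444b1cf178c67188c8861c9cd,
    0xd171a14d122a1871247181a91821d1aecd], [0, 0, 0x943e418b7c214c, 0xf1814f1814118118118e4d,
    0x112112f12b4112112f1278c]]

noncomputable def n744 : Ent := ⟨e744, noF, [], [], []⟩

def c744 : PLift (Cov.check n744.C.D v744 = true) := ⟨by decide +kernel⟩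

def b744 : PLift (entF (fidx ts) 400 744 n744 = true) := ⟨by decide +kernel⟩

theorem g744 : GoodF (fidx ts) 400 744 := GoodF.ofV v744 n744 c744.down b744.down

/-- 458745:639/2 -/
noncomputable def e745 : SCfg where
  D := {
    a := 6
    L := 10
    kp := 7
    inn := [(0, 1), (0, 2), (1, 0), (1, 2), (1, 3), (2, 0), (2, 1), (2, 3), (2, 5), (3, 1), (3, 2), (3,
      4), (4, 3), (5, 2)]
    mix := [(0, 0), (0, 1), (1, 1), (1, 2), (2, 0), (2, 3), (2, 4), (2, 5), (3, 2), (3, 3), (3, 6), (3,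
      7), (4, 2), (4, 6), (4, 8), (5, 3), (5, 4), (5, 7), (5, 9)]
    cl := [4, 1, 0, 3, 3, 5, 2, 0, 6, 7]
    chq := [(0, 4), (0, 5), (4, 0), (5, 0)]
    rng := [(0, 1), (0, 5), (1, 0), (1, 2), (2, 1), (2, 8), (3, 7), (4, 5), (4, 9), (5, 0), (5, 4), (6,
      7), (6, 8), (7, 3), (7, 6), (7, 9), (8, 2), (8, 6), (9, 4), (9, 7)]
    lev := [] }
  links := [[1, 2, 6, 7], [2, 0, 7, 8, 3], [6, 0, 1, 3, 9, 5, 10, 11], [9, 2, 1, 8, 4, 12, 13], [12, 3,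
    8, 14], [10, 2, 9, 13, 15]]
  P := {
    a := 6
    N := 16
    nb := [198, 397, 3691, 13078, 20744, 42500, 2181, 323, 16538, 8236, 34852, 1092, 24600, 37416,
      4368, 9248]
    tri := [(0, 1, 2), (0, 1, 7), (0, 2, 6), (0, 6, 7), (1, 2, 3), (1, 3, 8), (1, 7, 8), (2, 3, 9), (2,
      5, 9), (2, 5, 10), (2, 6, 11), (2, 10, 11), (3, 4, 8), (3, 4, 12), (3, 9, 13), (3, 12, 13),
      (4, 8, 14), (4, 12, 14), (5, 9, 13), (5, 10, 15), (5, 13, 15)]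
    fin := [0, 0, 2, 2, 2, 5, 0, 7, 2, 5, 5, 11, 12, 2, 14, 15]
    chd := [(0, 2), (2, 11)]
    steps := [(0, 1), (0, 6), (2, 3), (2, 4), (2, 8), (5, 9), (2, 13), (5, 10)] }
  rep := [2, 7, 12, 5, 0, 11, 14, 15]

noncomputable def v745 : Cov.CovD where
  P := 3
  N := 5
  pl := [1, 6, 8, 9]
  lev := [⟨[], [], [], [1], [(0, 4, [0])]⟩,
    ⟨[], [(0, 0), (0, 4)], [], [1], [(2, 0, [4, 5])]⟩,
    ⟨[(0, 1)], [(0, 3), (0, 4), (0, 5), (1, 0), (1, 3), (1, 4), (1, 5)], [(3, 3), (3, 4),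
      (3, 5), (4, 5)], [], [(0, 4, [0]), (3, 3, []), (4, 3, []), (5, 5, [0])]⟩,
    ⟨[(0, 1), (0, 2), (1, 2)], [(1, 0), (1, 3), (2, 0), (2, 3), (2, 4), (2, 5)], [(0, 0),
      (0, 3)], [2], [(2, 0, [4, 5]), (3, 3, []), (7, 0, [4, 5])]⟩,
    ⟨[(1, 3), (2, 3)], [(1, 0), (3, 0), (3, 3)], [], [2, 6], [(2, 0, [4, 5])]⟩,
    ⟨[(0, 2), (1, 2), (2, 3)], [(2, 0), (2, 3), (2, 4), (2, 5), (3, 0), (3, 3)], [(0, 3),
      (3, 3)], [7], [(3, 3, []), (4, 3, []), (7, 0, [4, 5])]⟩]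
  Ta := [((2, 1), 0, 1), ((2, 8), 0, 6), ((3, 7), 3, 0), ((4, 5), 3, 5), ((4, 9), 3, 7), ((7, 3),
    0, 3), ((7, 6), 0, 2), ((7, 9), 0, 7)]
  Tb := [((0, 1, 5), 4, 1, 5), ((1, 0, 2), 1, 4, 0), ((2, 1, 8), 0, 1, 6), ((4, 5, 9), 3, 5, 7),
    ((5, 0, 4), 5, 4, 3), ((6, 7, 8), 2, 0, 6), ((7, 3, 6), 0, 3, 2), ((7, 3, 9), 0, 3, 7),
    ((7, 6, 9), 0, 2, 7), ((8, 2, 6), 6, 0, 2), ((9, 4, 7), 7, 3, 0)]
  Tc := [(0, 4, 5)]
  Td := [((0, 4), (2, 1), 1), ((0, 4), (2, 8), 6), ((0, 4), (7, 3), 3), ((0, 4), (7, 6), 2), ((0,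
    4), (7, 9), 7), ((0, 5), (2, 1), 1), ((0, 5), (2, 8), 6), ((0, 5), (7, 3), 3), ((0, 5),
    (7, 6), 2), ((0, 5), (7, 9), 7), ((4, 0), (0, 1), 1), ((4, 0), (0, 5), 5), ((5, 0), (5,
    0), 4), ((5, 0), (5, 4), 3)]
  G := [[0, 0xaac66cc12aac66cc12c, 0, 0x66c418a166cc18118aac894d, 0xcca66aa14cca66aa14c], [0,
    0xe4e8c12e4e8c126, 0, 0xaec68c14e841e481cc, 0xe2e8a14c2e2aa14c], [0, 0, 0xccc66ca141,
    0xb149131ca161c77188c1, 0x7189131aa111ac161af41], [0, 0, 0xeec2181, 0xe1814e1814c,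
    0xe1214e1814c]]

noncomputable def n745 : Ent := ⟨e745, noF, [], [], []⟩

def c745 : PLift (Cov.check n745.C.D v745 = true) := ⟨by decide +kernel⟩

def b745 : PLift (entF (fidx ts) 400 745 n745 = true) := ⟨by decide +kernel⟩

theorem g745 : GoodF (fidx ts) 400 745 := GoodF.ofV v745 n745 c745.down b745.down

/-- 458745:639 -/
noncomputable def e746 : SCfg where
  D := {
    a := 6
    L := 11
    kp := 8
    inn := [(0, 1), (0, 2), (1, 0), (1, 2), (1, 3), (2, 0), (2, 1), (2, 3), (2, 5), (3, 1), (3, 2), (3,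
      4), (4, 3), (5, 2)]
    mix := [(0, 0), (0, 1), (1, 1), (1, 2), (2, 0), (2, 3), (2, 4), (2, 5), (3, 2), (3, 3), (3, 6), (3,
      7), (4, 2), (4, 6), (4, 8), (5, 3), (5, 4), (5, 9), (5, 10)]
    cl := [3, 2, 0, 1, 1, 5, 4, 0, 6, 7, 8]
    chq := [(0, 3), (0, 5), (3, 0), (5, 0)]
    rng := [(0, 1), (0, 5), (1, 0), (1, 2), (2, 1), (2, 8), (3, 7), (3, 9), (4, 5), (4, 10), (5, 0),
      (5, 4), (6, 7), (6, 8), (7, 3), (7, 6), (8, 2), (8, 6), (9, 3), (9, 10), (10, 4), (10, 9)]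
    lev := [] }
  links := [[1, 2, 6, 7], [2, 0, 7, 8, 3], [6, 0, 1, 3, 9, 5, 10, 11], [9, 2, 1, 8, 4, 12, 13], [12, 3,
    8, 14], [10, 2, 9, 15, 16]]
  P := {
    a := 6
    N := 17
    nb := [198, 397, 3691, 13078, 20744, 99844, 2181, 323, 16538, 41004, 67620, 1092, 24600, 4616,
      4368, 66080, 33824]
    tri := [(0, 1, 2), (0, 1, 7), (0, 2, 6), (0, 6, 7), (1, 2, 3), (1, 3, 8), (1, 7, 8), (2, 3, 9), (2,
      5, 9), (2, 5, 10), (2, 6, 11), (2, 10, 11), (3, 4, 8), (3, 4, 12), (3, 9, 13), (3, 12, 13),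
      (4, 8, 14), (4, 12, 14), (5, 9, 15), (5, 10, 16), (5, 15, 16)]
    fin := [0, 0, 2, 2, 2, 5, 0, 7, 2, 5, 5, 11, 12, 2, 14, 15, 16]
    chd := [(0, 2), (2, 11)]
    steps := [(0, 1), (0, 6), (2, 3), (2, 4), (2, 8), (2, 13), (5, 9), (5, 10)] }
  rep := [2, 5, 7, 0, 12, 11, 14, 15, 16]

noncomputable def v746 : Cov.CovD where
  P := 3
  N := 6
  pl := [1, 6, 8, 9, 10]
  lev := [⟨[], [], [], [2], [(0, 3, [0])]⟩,
    ⟨[], [(0, 0), (0, 3)], [], [2], [(2, 0, [3, 5])]⟩,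
    ⟨[(0, 1)], [(0, 1), (0, 3), (0, 5), (1, 0), (1, 1), (1, 3), (1, 5)], [(1, 1), (1, 3),
      (1, 5), (3, 5)], [], [(0, 3, [0]), (3, 1, []), (4, 1, []), (5, 5, [0])]⟩,
    ⟨[(0, 1), (0, 2), (1, 2)], [(1, 0), (1, 1), (2, 0), (2, 1), (2, 3), (2, 5)], [(0, 0),
      (0, 1)], [4], [(2, 0, [3, 5]), (3, 1, []), (7, 0, [3, 5])]⟩,
    ⟨[(1, 3), (2, 3)], [(1, 0), (3, 0), (3, 1)], [], [4, 6], [(2, 0, [3, 5])]⟩,
    ⟨[(0, 2), (1, 2), (2, 3)], [(2, 1), (2, 3), (2, 5), (3, 1)], [(1, 1)], [7, 8], [(3, 1,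
      []), (4, 1, [])]⟩]
  Ta := [((2, 1), 0, 2), ((2, 8), 0, 6), ((3, 7), 1, 0), ((3, 9), 1, 7), ((4, 5), 1, 5), ((4,
    10), 1, 8), ((7, 3), 0, 1), ((7, 6), 0, 4)]
  Tb := [((0, 1, 5), 3, 2, 5), ((1, 0, 2), 2, 3, 0), ((2, 1, 8), 0, 2, 6), ((3, 7, 9), 1, 0, 7),
    ((4, 5, 10), 1, 5, 8), ((5, 0, 4), 5, 3, 1), ((6, 7, 8), 4, 0, 6), ((7, 3, 6), 0, 1, 4),
    ((8, 2, 6), 6, 0, 4), ((9, 3, 10), 7, 1, 8), ((10, 4, 9), 8, 1, 7)]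
  Tc := [(0, 3, 5)]
  Td := [((0, 3), (2, 1), 2), ((0, 3), (2, 8), 6), ((0, 3), (7, 3), 1), ((0, 3), (7, 6), 4), ((0,
    5), (2, 1), 2), ((0, 5), (2, 8), 6), ((0, 5), (7, 3), 1), ((0, 5), (7, 6), 4), ((3, 0),
    (0, 1), 2), ((3, 0), (0, 5), 5), ((5, 0), (5, 0), 3), ((5, 0), (5, 4), 1)]
  G := [[0, 0, 0xddadd6c12ddadd6c12c, 0xdd641114dda89cd2dd6c1d881c1111c41188cd,
    0x1164118ddadd6cd21181111cddadd6cd2a], [0, 0, 0xddadd6c12ddadd6c126,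
    0xdd64111116dda89c1111add645dda81cc, 0x114ddadd6c92ddadd6c1211211116c8b], [0,
    0x41a1e1e4e1e16e1e1cac1, 0, 0x114ddad1c94118d1dd6c5811441188cd,
    0xc1dd6c12dd3dd9c181111c1111cc2b], [0, 0, 0, 0x11116ddcd1a941111addcd1658c,
    0x114ddac1c92112d1d2d4e981111648b]]

noncomputable def n746 : Ent := ⟨e746, noF, [], [], [(14, 16, [1580044410770988437309982408355971841652082177953823432505692160001, 0]), (13, 15, [1685356702439545624007900436039642273970977273354372543760003141633, 0])]⟩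

def c746 : PLift (Cov.check n746.C.D v746 = true) := ⟨by decide +kernel⟩

def b746 : PLift (entF (fidx ts) 400 746 n746 = true) := ⟨by decide +kernel⟩

theorem g746 : GoodF (fidx ts) 400 746 := GoodF.ofV v746 n746 c746.down b746.down

/-- 484566:641/1 -/
noncomputable def e747 : SCfg where
  D := {
    a := 6
    L := 10
    kp := 7
    inn := [(0, 1), (1, 0), (1, 2), (1, 3), (1, 4), (2, 1), (3, 1), (3, 4), (3, 5), (4, 1), (4, 3), (4,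
      5), (5, 3), (5, 4)]
    mix := [(0, 0), (0, 1), (0, 2), (1, 0), (1, 2), (1, 3), (1, 4), (2, 3), (2, 4), (2, 5), (3, 4), (3,
      6), (4, 0), (4, 7), (4, 8), (5, 5), (5, 6), (5, 7), (5, 9)]
    cl := [0, 6, 2, 0, 1, 4, 3, 3, 5, 7]
    chq := [(0, 1), (1, 0), (1, 5), (5, 1)]
    rng := [(0, 1), (0, 8), (1, 0), (1, 2), (2, 1), (2, 3), (3, 2), (3, 5), (4, 5), (4, 6), (5, 3), (5,
      4), (5, 6), (5, 9), (6, 4), (6, 5), (7, 8), (7, 9), (8, 0), (8, 7), (9, 5), (9, 7)]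
    lev := [] }
  links := [[1, 6, 7, 8], [6, 0, 8, 9, 2, 10, 3, 4], [10, 1, 9, 11], [4, 1, 10, 12, 5], [6, 1, 3, 5, 13,
    14], [13, 4, 3, 12, 11, 15]]
  P := {
    a := 6
    N := 16
    nb := [450, 1885, 3586, 5170, 24682, 47128, 16531, 321, 643, 2310, 6158, 38436, 3112, 49200, 8272,
      10272]
    tri := [(0, 1, 6), (0, 1, 8), (0, 6, 7), (0, 7, 8), (1, 2, 9), (1, 2, 10), (1, 3, 4), (1, 3, 10),
      (1, 4, 6), (1, 8, 9), (2, 9, 11), (2, 10, 11), (3, 4, 5), (3, 5, 12), (3, 10, 12), (4, 5,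
      13), (4, 6, 14), (4, 13, 14), (5, 11, 12), (5, 11, 15), (5, 13, 15)]
    fin := [0, 0, 0, 3, 3, 5, 0, 7, 8, 0, 3, 11, 5, 5, 14, 15]
    chd := [(0, 3), (3, 14)]
    steps := [(0, 1), (0, 2), (0, 6), (0, 9), (3, 4), (3, 10), (5, 12), (5, 13)] }
  rep := [0, 3, 8, 5, 11, 14, 7, 15]

noncomputable def v747 : Cov.CovD where
  P := 3
  N := 5
  pl := [1, 2, 5, 9]
  lev := [⟨[], [], [], [2, 6], [(0, 0, [1])]⟩,
    ⟨[], [(0, 0), (0, 1)], [(0, 0), (0, 1)], [2], [(0, 0, [1]), (3, 0, [1]), (4, 1, [0,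
      5])]⟩,
    ⟨[(0, 1)], [(1, 0), (1, 1)], [(0, 1)], [4], [(3, 0, [1]), (4, 1, [0, 5])]⟩,
    ⟨[(0, 1), (1, 2)], [(1, 0), (1, 1), (1, 3), (2, 1)], [(1, 3)], [], [(4, 1, [0, 5]), (6,
      3, [])]⟩,
    ⟨[(0, 1), (1, 2), (1, 3)], [(0, 0), (1, 0), (1, 1), (1, 3), (1, 5), (3, 0), (3, 1), (3,
      3), (3, 5)], [(0, 3), (0, 5), (3, 5)], [], [(0, 0, [1]), (7, 3, []), (8, 5, [1])]⟩,
    ⟨[(1, 3), (1, 4), (3, 4)], [(3, 1), (3, 3), (4, 0), (4, 3), (4, 5)], [(3, 3)], [4, 7],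
      [(6, 3, []), (7, 3, [])]⟩]
  Ta := [((0, 1), 0, 6), ((0, 8), 0, 5), ((3, 2), 0, 2), ((3, 5), 0, 4), ((6, 4), 3, 1), ((6, 5),
    3, 4), ((7, 8), 3, 5), ((7, 9), 3, 7)]
  Tb := [((0, 1, 8), 0, 6, 5), ((1, 0, 2), 6, 0, 2), ((2, 1, 3), 2, 6, 0), ((3, 2, 5), 0, 2, 4),
    ((4, 5, 6), 1, 4, 3), ((5, 3, 4), 4, 0, 1), ((5, 3, 6), 4, 0, 3), ((5, 3, 9), 4, 0, 7),
    ((5, 4, 6), 4, 1, 3), ((5, 4, 9), 4, 1, 7), ((5, 6, 9), 4, 3, 7), ((6, 4, 5), 3, 1, 4),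
    ((7, 8, 9), 3, 5, 7), ((8, 0, 7), 5, 0, 3), ((9, 5, 7), 7, 4, 3)]
  Tc := [(1, 0, 5)]
  Td := [((0, 1), (0, 1), 6), ((0, 1), (0, 8), 5), ((0, 1), (3, 2), 2), ((0, 1), (3, 5), 4), ((1,
    0), (4, 5), 4), ((1, 0), (4, 6), 3), ((1, 5), (4, 5), 4), ((1, 5), (4, 6), 3), ((5, 1),
    (8, 0), 0), ((5, 1), (8, 7), 3)]
  G := [[0, 0xd1ac23b238a641, 0, 0x2ea2852d142fa78914c, 0x2e6a165182fab4518a], [0,
    0x15de2327bc668818c1, 0, 0x22fe81422fe418c, 0x2f6112811a22fe418a], [0, 0x1b6a4552746c81,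
    0x2a6925246212dc8b238c26a529c46, 0x3472c4b238c8c1, 0x2a69253472cc81], [0,
    0x5d62327fc6a9828c1, 0x2b6827a8c42b6427a4c8c, 0x2b6427a1c81, 0x2b6127a4c81]]

noncomputable def n747 : Ent := ⟨e747, noF, [], [], []⟩

def c747 : PLift (Cov.check n747.C.D v747 = true) := ⟨by decide +kernel⟩

def b747 : PLift (entF (fidx ts) 400 747 n747 = true) := ⟨by decide +kernel⟩

theorem g747 : GoodF (fidx ts) 400 747 := GoodF.ofV v747 n747 c747.down b747.down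

/-- 484566:641 -/
noncomputable def e748 : SCfg where
  D := {
    a := 6
    L := 11
    kp := 8
    inn := [(0, 1), (1, 0), (1, 2), (1, 3), (1, 4), (2, 1), (3, 1), (3, 4), (3, 5), (4, 1), (4, 3), (4,
      5), (5, 3), (5, 4)]
    mix := [(0, 0), (0, 1), (0, 2), (1, 0), (1, 2), (1, 3), (1, 4), (2, 3), (2, 4), (2, 5), (3, 4), (3,
      6), (4, 0), (4, 7), (4, 8), (5, 6), (5, 7), (5, 9), (5, 10)]
    cl := [0, 5, 2, 0, 1, 6, 3, 3, 4, 7, 8]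
    chq := [(0, 1), (1, 0), (1, 4), (4, 1)]
    rng := [(0, 1), (0, 8), (1, 0), (1, 2), (2, 1), (2, 3), (3, 2), (3, 5), (4, 5), (4, 6), (5, 3), (5,
      4), (6, 4), (6, 9), (7, 8), (7, 10), (8, 0), (8, 7), (9, 6), (9, 10), (10, 7), (10, 9)]
    lev := [] }
  links := [[1, 6, 7, 8], [6, 0, 8, 9, 2, 10, 3, 4], [10, 1, 9, 11], [4, 1, 10, 12, 5], [6, 1, 3, 5, 13,
    14], [13, 4, 3, 12, 15, 16]]
  P := {
    a := 6
    N := 17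
    nb := [450, 1885, 3586, 5170, 24682, 110616, 16531, 321, 643, 2310, 6158, 1540, 33832, 81968,
      8272, 69664, 40992]
    tri := [(0, 1, 6), (0, 1, 8), (0, 6, 7), (0, 7, 8), (1, 2, 9), (1, 2, 10), (1, 3, 4), (1, 3, 10),
      (1, 4, 6), (1, 8, 9), (2, 9, 11), (2, 10, 11), (3, 4, 5), (3, 5, 12), (3, 10, 12), (4, 5,
      13), (4, 6, 14), (4, 13, 14), (5, 12, 15), (5, 13, 16), (5, 15, 16)]
    fin := [0, 0, 0, 3, 3, 5, 0, 7, 8, 0, 3, 11, 5, 5, 14, 15, 16]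
    chd := [(0, 3), (3, 14)]
    steps := [(0, 1), (0, 2), (0, 6), (0, 9), (3, 4), (3, 10), (5, 12), (5, 13)] }
  rep := [0, 3, 8, 5, 14, 7, 11, 15, 16]

noncomputable def v748 : Cov.CovD where
  P := 3
  N := 6
  pl := [1, 2, 5, 9, 10]
  lev := [⟨[], [], [], [2, 5], [(0, 0, [1])]⟩,
    ⟨[], [(0, 0), (0, 1)], [(0, 0), (0, 1)], [2], [(0, 0, [1]), (3, 0, [1]), (4, 1, [0,
      4])]⟩,
    ⟨[(0, 1)], [(1, 0), (1, 1)], [(0, 1)], [6], [(3, 0, [1]), (4, 1, [0, 4])]⟩,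
    ⟨[(0, 1), (1, 2)], [(1, 0), (1, 1), (1, 3), (2, 1)], [(1, 3)], [], [(4, 1, [0, 4]), (6,
      3, [])]⟩,
    ⟨[(0, 1), (1, 2), (1, 3)], [(0, 0), (1, 0), (1, 1), (1, 3), (1, 4), (3, 0), (3, 1), (3,
      3), (3, 4)], [(0, 3), (0, 4), (3, 4)], [], [(0, 0, [1]), (7, 3, []), (8, 4, [1])]⟩,
    ⟨[(1, 3), (1, 4), (3, 4)], [(3, 1), (3, 3), (4, 0), (4, 3), (4, 4)], [(3, 3)], [7, 8],
      [(6, 3, []), (7, 3, [])]⟩]
  Ta := [((0, 1), 0, 5), ((0, 8), 0, 4), ((3, 2), 0, 2), ((3, 5), 0, 6), ((6, 4), 3, 1), ((6, 9),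
    3, 7), ((7, 8), 3, 4), ((7, 10), 3, 8)]
  Tb := [((0, 1, 8), 0, 5, 4), ((1, 0, 2), 5, 0, 2), ((2, 1, 3), 2, 5, 0), ((3, 2, 5), 0, 2, 6),
    ((4, 5, 6), 1, 6, 3), ((5, 3, 4), 6, 0, 1), ((6, 4, 9), 3, 1, 7), ((7, 8, 10), 3, 4, 8),
    ((8, 0, 7), 4, 0, 3), ((9, 6, 10), 7, 3, 8), ((10, 7, 9), 8, 3, 7)]
  Tc := [(1, 0, 4)]
  Td := [((0, 1), (0, 1), 5), ((0, 1), (0, 8), 4), ((0, 1), (3, 2), 2), ((0, 1), (3, 5), 6), ((1,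
    0), (4, 5), 6), ((1, 0), (4, 6), 3), ((1, 4), (4, 5), 6), ((1, 4), (4, 6), 3), ((4, 1),
    (8, 0), 0), ((4, 1), (8, 7), 3)]
  G := [[0, 0xf2f8a9218e6abc41, 0, 0xf23868d142fa78914c, 0x2f6b4518242e692d18a], [0,
    0xe12e1468e12e1268111e8111e2a4d, 0, 0x22fe11422fe418c, 0x2f6112881a22fe418a], [0,
    0x12f4e27f214e47c81, 0xe225a92ea729284e42e6a1652e62965c8a, 0x2e6b25f2b45248e81,
    0x2e6b25f2b45248e81], [0, 0x6217f9e223d42ef8282de2ac1, 0xf24f2122c1e82f2b82f2b8c46,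
    0xf21f2422c4e81, 0xf21f2122c4e81]]

noncomputable def n748 : Ent := ⟨e748, noF, [], [], [(11, 15, [1685356702439545624007900436039642273970977273354372543760003149825, 0])]⟩

def c748 : PLift (Cov.check n748.C.D v748 = true) := ⟨by decide +kernel⟩

def b748 : PLift (entF (fidx ts) 400 748 n748 = true) := ⟨by decide +kernel⟩

theorem g748 : GoodF (fidx ts) 400 748 := GoodF.ofV v748 n748 c748.down b748.down

/-- 484565:642/1 -/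
noncomputable def e749 : SCfg where
  D := {
    a := 6
    L := 10
    kp := 7
    inn := [(0, 1), (1, 0), (1, 2), (1, 3), (1, 4), (2, 1), (3, 1), (3, 4), (4, 1), (4, 3), (4, 5), (5,
      4)]
    mix := [(0, 0), (0, 1), (0, 2), (1, 0), (1, 2), (1, 3), (1, 4), (2, 3), (2, 4), (2, 5), (3, 4), (3,
      6), (3, 7), (4, 0), (4, 7), (4, 8), (5, 5), (5, 7), (5, 8), (5, 9)]
    cl := [0, 6, 2, 0, 1, 4, 5, 3, 3, 7]
    chq := [(0, 1), (0, 5), (1, 0), (5, 0)]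
    rng := [(0, 1), (0, 8), (1, 0), (1, 2), (2, 1), (2, 3), (3, 2), (3, 5), (4, 5), (4, 6), (5, 3), (5,
      4), (5, 8), (5, 9), (6, 4), (6, 7), (7, 6), (7, 9), (8, 0), (8, 5), (9, 5), (9, 7)]
    lev := [] }
  links := [[1, 6, 7, 8], [6, 0, 8, 9, 2, 10, 3, 4], [10, 1, 9, 11], [4, 1, 10, 12, 13], [6, 1, 3, 13, 5,
    14], [14, 4, 13, 15, 11]]
  P := {
    a := 6
    N := 16
    nb := [450, 1885, 3586, 13330, 24682, 59408, 16531, 321, 643, 2310, 6158, 50724, 9224, 36920,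
      2160, 10272]
    tri := [(0, 1, 6), (0, 1, 8), (0, 6, 7), (0, 7, 8), (1, 2, 9), (1, 2, 10), (1, 3, 4), (1, 3, 10),
      (1, 4, 6), (1, 8, 9), (2, 9, 11), (2, 10, 11), (3, 4, 13), (3, 10, 12), (3, 12, 13), (4, 5,
      13), (4, 5, 14), (4, 6, 14), (5, 11, 14), (5, 11, 15), (5, 13, 15)]
    fin := [0, 0, 0, 0, 4, 5, 0, 7, 8, 0, 10, 5, 12, 4, 4, 15]
    chd := [(0, 10), (0, 12)]
    steps := [(0, 1), (0, 2), (0, 3), (0, 6), (0, 9), (4, 13), (4, 14), (5, 11)] }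
  rep := [0, 10, 8, 4, 5, 12, 7, 15]

noncomputable def v749 : Cov.CovD where
  P := 3
  N := 5
  pl := [1, 2, 5, 9]
  lev := [⟨[], [], [], [2, 6], [(0, 0, [1, 5])]⟩,
    ⟨[], [(0, 0), (0, 1)], [(0, 0), (0, 1)], [2], [(0, 0, [1, 5]), (3, 0, [1, 5]), (4, 1,
      [0])]⟩,
    ⟨[(0, 1)], [(1, 0), (1, 1)], [(0, 1)], [4], [(3, 0, [1, 5]), (4, 1, [0])]⟩,
    ⟨[(0, 1), (1, 2)], [(1, 0), (1, 1), (1, 3), (1, 5), (2, 1)], [(1, 3), (1, 5), (3, 5)],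
      [], [(4, 1, [0]), (6, 5, [0]), (7, 3, [])]⟩,
    ⟨[(0, 1), (1, 2), (1, 3)], [(0, 0), (1, 0), (1, 1), (1, 3), (3, 0), (3, 1), (3, 3), (3,
      5)], [(0, 3), (3, 3)], [], [(0, 0, [1, 5]), (7, 3, []), (8, 3, [])]⟩,
    ⟨[(1, 4), (3, 4)], [(3, 3), (4, 0), (4, 3)], [(3, 3)], [4, 7], [(7, 3, []), (8, 3,
      [])]⟩]
  Ta := [((0, 1), 0, 6), ((0, 8), 0, 3), ((3, 2), 0, 2), ((3, 5), 0, 4), ((7, 6), 3, 5), ((7, 9),
    3, 7), ((8, 0), 3, 0), ((8, 5), 3, 4)]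
  Tb := [((0, 1, 8), 0, 6, 3), ((1, 0, 2), 6, 0, 2), ((2, 1, 3), 2, 6, 0), ((3, 2, 5), 0, 2, 4),
    ((4, 5, 6), 1, 4, 5), ((5, 3, 4), 4, 0, 1), ((5, 3, 8), 4, 0, 3), ((5, 3, 9), 4, 0, 7),
    ((5, 4, 8), 4, 1, 3), ((5, 4, 9), 4, 1, 7), ((5, 8, 9), 4, 3, 7), ((6, 4, 7), 5, 1, 3),
    ((7, 6, 9), 3, 5, 7), ((8, 0, 5), 3, 0, 4), ((9, 5, 7), 7, 4, 3)]
  Tc := [(0, 1, 5)]
  Td := [((0, 1), (0, 1), 6), ((0, 1), (0, 8), 3), ((0, 1), (3, 2), 2), ((0, 1), (3, 5), 4), ((0,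
    5), (0, 1), 6), ((0, 5), (0, 8), 3), ((0, 5), (3, 2), 2), ((0, 5), (3, 5), 4), ((1, 0),
    (4, 5), 4), ((1, 0), (4, 6), 5), ((5, 0), (6, 4), 1), ((5, 0), (6, 7), 3)]
  G := [[0, 0xf2178c1a81, 0, 0xd7a114d7a114c, 0xdb6118db6118a], [0, 0x9a615361c81, 0,
    0xd7a114db6118c, 0xdb6118db6118a], [0, 0xda61781c81, 0xb41f4a1c4b415b61c8c, 0xb461f81c41,
    0xb415b61c81], [0, 0xc5a19361641, 0x97a153a1c493c156a1c4a, 0x97a153a1c41, 0x9a615361c81]]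

noncomputable def n749 : Ent := ⟨e749, noF, [], [], []⟩

def c749 : PLift (Cov.check n749.C.D v749 = true) := ⟨by decide +kernel⟩

def b749 : PLift (entF (fidx ts) 400 749 n749 = true) := ⟨by decide +kernel⟩

theorem g749 : GoodF (fidx ts) 400 749 := GoodF.ofV v749 n749 c749.down b749.down

/-- 484565:642 -/
noncomputable def e750 : SCfg where
  D := {
    a := 6
    L := 11
    kp := 8
    inn := [(0, 1), (1, 0), (1, 2), (1, 3), (1, 4), (2, 1), (3, 1), (3, 4), (4, 1), (4, 3), (4, 5), (5,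
      4)]
    mix := [(0, 0), (0, 1), (0, 2), (1, 0), (1, 2), (1, 3), (1, 4), (2, 3), (2, 4), (2, 5), (3, 4), (3,
      6), (3, 7), (4, 0), (4, 7), (4, 8), (5, 7), (5, 8), (5, 9), (5, 10)]
    cl := [0, 5, 2, 0, 1, 6, 4, 3, 3, 7, 8]
    chq := [(0, 1), (0, 4), (1, 0), (4, 0)]
    rng := [(0, 1), (0, 8), (1, 0), (1, 2), (2, 1), (2, 3), (3, 2), (3, 5), (4, 5), (4, 6), (5, 3), (5,
      4), (6, 4), (6, 7), (7, 6), (7, 9), (8, 0), (8, 10), (9, 7), (9, 10), (10, 8), (10, 9)]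
    lev := [] }
  links := [[1, 6, 7, 8], [6, 0, 8, 9, 2, 10, 3, 4], [10, 1, 9, 11], [4, 1, 10, 12, 13], [6, 1, 3, 13, 5,
    14], [14, 4, 13, 15, 16]]
  P := {
    a := 6
    N := 17
    nb := [450, 1885, 3586, 13330, 24682, 122896, 16531, 321, 643, 2310, 6158, 1540, 9224, 36920,
      65648, 73760, 49184]
    tri := [(0, 1, 6), (0, 1, 8), (0, 6, 7), (0, 7, 8), (1, 2, 9), (1, 2, 10), (1, 3, 4), (1, 3, 10),
      (1, 4, 6), (1, 8, 9), (2, 9, 11), (2, 10, 11), (3, 4, 13), (3, 10, 12), (3, 12, 13), (4, 5,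
      13), (4, 5, 14), (4, 6, 14), (5, 13, 15), (5, 14, 16), (5, 15, 16)]
    fin := [0, 0, 0, 0, 0, 5, 0, 7, 8, 0, 10, 11, 12, 5, 5, 15, 16]
    chd := [(0, 10), (0, 12)]
    steps := [(0, 1), (0, 2), (0, 3), (0, 4), (0, 6), (0, 9), (5, 13), (5, 14)] }
  rep := [0, 10, 8, 5, 12, 7, 11, 15, 16]

noncomputable def v750 : Cov.CovD where
  P := 3
  N := 6
  pl := [1, 2, 5, 9, 10]
  lev := [⟨[], [], [], [2, 5], [(0, 0, [1, 4])]⟩,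
    ⟨[], [(0, 0), (0, 1)], [(0, 0), (0, 1)], [2], [(0, 0, [1, 4]), (3, 0, [1, 4]), (4, 1,
      [0])]⟩,
    ⟨[(0, 1)], [(1, 0), (1, 1)], [(0, 1)], [6], [(3, 0, [1, 4]), (4, 1, [0])]⟩,
    ⟨[(0, 1), (1, 2)], [(1, 0), (1, 1), (1, 3), (1, 4), (2, 1)], [(1, 3), (1, 4), (3, 4)],
      [], [(4, 1, [0]), (6, 4, [0]), (7, 3, [])]⟩,
    ⟨[(0, 1), (1, 2), (1, 3)], [(0, 0), (1, 0), (1, 1), (1, 3), (3, 0), (3, 1), (3, 3), (3,
      4)], [(0, 3), (3, 3)], [], [(0, 0, [1, 4]), (7, 3, []), (8, 3, [])]⟩,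
    ⟨[(1, 4), (3, 4)], [(3, 3), (4, 0), (4, 3)], [(3, 3)], [7, 8], [(7, 3, []), (8, 3,
      [])]⟩]
  Ta := [((0, 1), 0, 5), ((0, 8), 0, 3), ((3, 2), 0, 2), ((3, 5), 0, 6), ((7, 6), 3, 4), ((7, 9),
    3, 7), ((8, 0), 3, 0), ((8, 10), 3, 8)]
  Tb := [((0, 1, 8), 0, 5, 3), ((1, 0, 2), 5, 0, 2), ((2, 1, 3), 2, 5, 0), ((3, 2, 5), 0, 2, 6),
    ((4, 5, 6), 1, 6, 4), ((5, 3, 4), 6, 0, 1), ((6, 4, 7), 4, 1, 3), ((7, 6, 9), 3, 4, 7),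
    ((8, 0, 10), 3, 0, 8), ((9, 7, 10), 7, 3, 8), ((10, 8, 9), 8, 3, 7)]
  Tc := [(0, 1, 4)]
  Td := [((0, 1), (0, 1), 5), ((0, 1), (0, 8), 3), ((0, 1), (3, 2), 2), ((0, 1), (3, 5), 6), ((0,
    4), (0, 1), 5), ((0, 4), (0, 8), 3), ((0, 4), (3, 2), 2), ((0, 4), (3, 5), 6), ((1, 0),
    (4, 5), 6), ((1, 0), (4, 6), 4), ((4, 0), (6, 4), 1), ((4, 0), (6, 7), 3)]
  G := [[0, 0xdb61db61a81, 0, 0xdb6118db6118c, 0xdb6118db6118a], [0, 0xd7a1d7a1641, 0,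
    0xd7a114db6118c, 0xdb6118db6118a], [0, 0xd7a1d7a1641, 0xdb61db61c8db614d7a18c6,
    0xdb61db61c81, 0xdb61db61c81], [0, 0xdb618d7a14c1, 0xdb61db61c8d7a1d7a1c46,
    0xd7a1d7a1c41, 0xdb61db61c81]]

noncomputable def n750 : Ent := ⟨e750, noF, [], [], [(11, 16, [1580044410770988437309982408355971841652082177953823432505692180481, 0])]⟩

def c750 : PLift (Cov.check n750.C.D v750 = true) := ⟨by decide +kernel⟩

def b750 : PLift (entF (fidx ts) 400 750 n750 = true) := ⟨by decide +kernel⟩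

theorem g750 : GoodF (fidx ts) 400 750 := GoodF.ofV v750 n750 c750.down b750.down

/-- 478644:643/1 -/
noncomputable def e751 : SCfg where
  D := {
    a := 6
    L := 9
    kp := 7
    inn := [(0, 1), (0, 2), (0, 3), (1, 0), (1, 3), (1, 4), (2, 0), (2, 3), (2, 5), (3, 0), (3, 1), (3,
      2), (3, 5), (4, 1), (5, 2), (5, 3)]
    mix := [(0, 0), (1, 0), (1, 1), (1, 2), (1, 3), (2, 0), (2, 4), (2, 5), (2, 6), (2, 7), (3, 1), (3,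
      8), (4, 2), (4, 3), (4, 5), (5, 7), (5, 8)]
    cl := [0, 1, 0, 2, 6, 3, 7, 4, 5]
    chq := [(1, 3), (1, 4), (1, 6), (1, 7), (3, 1), (4, 1), (6, 1), (7, 1)]
    rng := [(0, 3), (0, 4), (1, 2), (1, 8), (2, 1), (2, 5), (3, 0), (3, 5), (4, 0), (4, 5), (5, 2), (5,
      3), (5, 4), (5, 6), (6, 5), (6, 7), (7, 6), (7, 8), (8, 1), (8, 7)]
    lev := [] }
  links := [[1, 6, 2, 3], [6, 0, 3, 7, 8, 4, 9], [3, 0, 6, 10, 11, 12, 13, 5], [7, 1, 0, 2, 5, 14], [9,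
    1, 8, 11], [14, 3, 2, 13]]
  P := {
    a := 6
    N := 15
    nb := [78, 985, 15465, 16551, 2818, 24588, 1543, 16650, 2194, 2130, 2116, 5908, 10244, 20516,
      8360]
    tri := [(0, 1, 3), (0, 1, 6), (0, 2, 3), (0, 2, 6), (1, 3, 7), (1, 4, 8), (1, 4, 9), (1, 6, 9), (1,
      7, 8), (2, 3, 5), (2, 5, 13), (2, 6, 10), (2, 10, 11), (2, 11, 12), (2, 12, 13), (3, 5, 14),
      (3, 7, 14), (4, 8, 11), (4, 9, 11), (5, 13, 14)]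
    fin := [0, 0, 2, 2, 0, 5, 0, 2, 0, 9, 10, 11, 12, 5, 14]
    chd := [(2, 5), (2, 10), (2, 11), (2, 12)]
    steps := [(0, 1), (0, 4), (0, 6), (0, 8), (2, 3), (2, 7), (5, 13)] }
  rep := [0, 2, 9, 11, 5, 14, 10, 12]

noncomputable def v751 : Cov.CovD where
  P := 3
  N := 5
  pl := [3, 8]
  lev := [⟨[], [], [], [], [(0, 0, [])]⟩,
    ⟨[], [(0, 0), (0, 1)], [(0, 0), (0, 1)], [2], [(0, 0, []), (1, 1, [3, 4, 6, 7]), (2, 0,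
      [])]⟩,
    ⟨[(0, 1)], [(0, 0), (0, 3), (0, 4), (0, 6), (0, 7), (1, 0)], [(0, 3), (0, 4), (0, 6),
      (0, 7), (3, 4), (3, 6), (3, 7), (4, 6), (4, 7), (6, 7)], [], [(0, 0, []), (4, 6, [1]),
      (5, 3, [1]), (6, 7, [1]), (7, 4, [1])]⟩,
    ⟨[(0, 1), (0, 2), (1, 2)], [(0, 0), (0, 1), (1, 0), (1, 1), (2, 0), (2, 1), (2, 3), (2,
      4), (2, 6), (2, 7)], [], [5], [(1, 1, [3, 4, 6, 7])]⟩,
    ⟨[(0, 1), (1, 3)], [(1, 0), (1, 1), (1, 3), (2, 3)], [(0, 3)], [2], [(2, 0, []), (5, 3,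
      [1])]⟩,
    ⟨[(0, 2), (0, 3), (1, 3), (2, 3)], [(2, 0), (2, 3), (2, 4), (2, 6), (2, 7), (3, 1), (3,
      4)], [], [5], [(7, 4, [1])]⟩]
  Ta := [((0, 3), 0, 2), ((0, 4), 0, 6), ((2, 1), 0, 1), ((2, 5), 0, 3)]
  Tb := [((0, 3, 4), 0, 2, 6), ((1, 2, 8), 1, 0, 5), ((2, 1, 5), 0, 1, 3), ((3, 0, 5), 2, 0, 3),
    ((4, 0, 5), 6, 0, 3), ((5, 2, 3), 3, 0, 2), ((5, 2, 4), 3, 0, 6), ((5, 2, 6), 3, 0, 7),
    ((5, 3, 4), 3, 2, 6), ((5, 3, 6), 3, 2, 7), ((5, 4, 6), 3, 6, 7), ((6, 5, 7), 7, 3, 4),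
    ((7, 6, 8), 4, 7, 5), ((8, 1, 7), 5, 1, 4)]
  Tc := [(1, 3, 4), (1, 3, 6), (1, 3, 7), (1, 4, 6), (1, 4, 7), (1, 6, 7)]
  Td := [((1, 3), (1, 2), 0), ((1, 3), (1, 8), 5), ((1, 4), (1, 2), 0), ((1, 4), (1, 8), 5), ((1,
    6), (1, 2), 0), ((1, 6), (1, 8), 5), ((1, 7), (1, 2), 0), ((1, 7), (1, 8), 5), ((3, 1),
    (5, 2), 0), ((3, 1), (5, 3), 2), ((3, 1), (5, 4), 6), ((3, 1), (5, 6), 7), ((4, 1), (7,
    6), 7), ((4, 1), (7, 8), 5), ((6, 1), (4, 0), 0), ((6, 1), (4, 5), 3), ((7, 1), (6, 5),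
    3), ((7, 1), (6, 7), 4)]
  G := [[0, 0, 0xcc69965288, 0xc1915288, 0xc1915288], [0, 0x66c41aac81c2, 0, 0x55c4299c82c1,
    0xc292528c858922c]]

noncomputable def n751 : Ent := ⟨e751, noF, [], [], []⟩

def c751 : PLift (Cov.check n751.C.D v751 = true) := ⟨by decide +kernel⟩

def b751 : PLift (entF (fidx ts) 400 751 n751 = true) := ⟨by decide +kernel⟩

theorem g751 : GoodF (fidx ts) 400 751 := GoodF.ofV v751 n751 c751.down b751.down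

/-- 478644:643 -/
noncomputable def e752 : SCfg where
  D := {
    a := 6
    L := 10
    kp := 8
    inn := [(0, 1), (0, 2), (0, 3), (1, 0), (1, 3), (1, 4), (2, 0), (2, 3), (2, 5), (3, 0), (3, 1), (3,
      2), (3, 5), (4, 1), (5, 2), (5, 3)]
    mix := [(0, 0), (1, 0), (1, 1), (1, 2), (1, 3), (2, 0), (2, 4), (2, 5), (2, 6), (2, 7), (3, 1), (3,
      8), (4, 2), (4, 3), (4, 9), (5, 7), (5, 8)]
    cl := [0, 1, 0, 2, 5, 6, 7, 3, 4, 8]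
    chq := [(1, 3), (1, 5), (1, 6), (1, 7), (3, 1), (5, 1), (6, 1), (7, 1)]
    rng := [(0, 3), (0, 4), (1, 2), (1, 8), (2, 1), (2, 9), (3, 0), (3, 9), (4, 0), (4, 5), (5, 4), (5,
      6), (6, 5), (6, 7), (7, 6), (7, 8), (8, 1), (8, 7), (9, 2), (9, 3)]
    lev := [] }
  links := [[1, 6, 2, 3], [6, 0, 3, 7, 8, 4, 9], [3, 0, 6, 10, 11, 12, 13, 5], [7, 1, 0, 2, 5, 14], [9,
    1, 8, 15], [14, 3, 2, 13]]
  P := {
    a := 6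
    N := 16
    nb := [78, 985, 15465, 16551, 33538, 24588, 1543, 16650, 32914, 32850, 2116, 5124, 10244, 20516,
      8360, 784]
    tri := [(0, 1, 3), (0, 1, 6), (0, 2, 3), (0, 2, 6), (1, 3, 7), (1, 4, 8), (1, 4, 9), (1, 6, 9), (1,
      7, 8), (2, 3, 5), (2, 5, 13), (2, 6, 10), (2, 10, 11), (2, 11, 12), (2, 12, 13), (3, 5, 14),
      (3, 7, 14), (4, 8, 15), (4, 9, 15), (5, 13, 14)]
    fin := [0, 0, 2, 2, 0, 5, 0, 2, 0, 9, 10, 11, 12, 5, 14, 15]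
    chd := [(2, 5), (2, 10), (2, 11), (2, 12)]
    steps := [(0, 1), (0, 4), (0, 6), (0, 8), (2, 3), (2, 7), (5, 13)] }
  rep := [0, 2, 9, 5, 14, 10, 11, 12, 15]

noncomputable def v752 : Cov.CovD where
  P := 3
  N := 6
  pl := [3, 8, 9]
  lev := [⟨[], [], [], [], [(0, 0, [])]⟩,
    ⟨[], [(0, 0), (0, 1)], [(0, 0), (0, 1)], [2], [(0, 0, []), (1, 1, [3, 5, 6, 7]), (2, 0,
      [])]⟩,
    ⟨[(0, 1)], [(0, 0), (0, 3), (0, 5), (0, 6), (0, 7), (1, 0)], [(0, 3), (0, 5), (0, 6),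
      (0, 7), (3, 5), (3, 6), (3, 7), (5, 6), (5, 7), (6, 7)], [], [(0, 0, []), (4, 5, [1]),
      (5, 6, [1]), (6, 7, [1]), (7, 3, [1])]⟩,
    ⟨[(0, 1), (0, 2), (1, 2)], [(0, 0), (0, 1), (1, 0), (1, 1), (2, 0), (2, 1), (2, 3), (2,
      5), (2, 6), (2, 7)], [], [4], [(1, 1, [3, 5, 6, 7])]⟩,
    ⟨[(0, 1), (1, 3)], [(1, 0), (1, 1)], [], [2, 8], [(2, 0, [])]⟩,
    ⟨[(0, 2), (0, 3), (1, 3), (2, 3)], [(2, 0), (2, 3), (2, 5), (2, 6), (2, 7), (3, 1), (3,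
      3)], [], [4], [(7, 3, [1])]⟩]
  Ta := [((0, 3), 0, 2), ((0, 4), 0, 5), ((2, 1), 0, 1), ((2, 9), 0, 8)]
  Tb := [((0, 3, 4), 0, 2, 5), ((1, 2, 8), 1, 0, 4), ((2, 1, 9), 0, 1, 8), ((3, 0, 9), 2, 0, 8),
    ((4, 0, 5), 5, 0, 6), ((5, 4, 6), 6, 5, 7), ((6, 5, 7), 7, 6, 3), ((7, 6, 8), 3, 7, 4),
    ((8, 1, 7), 4, 1, 3), ((9, 2, 3), 8, 0, 2)]
  Tc := [(1, 3, 5), (1, 3, 6), (1, 3, 7), (1, 5, 6), (1, 5, 7), (1, 6, 7)]
  Td := [((1, 3), (1, 2), 0), ((1, 3), (1, 8), 4), ((1, 5), (1, 2), 0), ((1, 5), (1, 8), 4), ((1,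
    6), (1, 2), 0), ((1, 6), (1, 8), 4), ((1, 7), (1, 2), 0), ((1, 7), (1, 8), 4), ((3, 1),
    (7, 6), 7), ((3, 1), (7, 8), 4), ((5, 1), (4, 0), 0), ((5, 1), (4, 5), 6), ((6, 1), (5,
    4), 5), ((6, 1), (5, 6), 7), ((7, 1), (6, 5), 6), ((7, 1), (6, 7), 3)]
  G := [[0, 0, 0xcca55a9244, 0xc1519244, 0xc1915288], [0, 0xe6c88612ac81c2, 0, 0x55c4299c82c1,
    0x99a128cca4285]]

noncomputable def n752 : Ent := ⟨e752, noF, [], [], [(11, 15, [360035742630636841211993100915356868655746945586763691010748417, 0])]⟩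

def c752 : PLift (Cov.check n752.C.D v752 = true) := ⟨by decide +kernel⟩

def b752 : PLift (entF (fidx ts) 400 752 n752 = true) := ⟨by decide +kernel⟩

theorem g752 : GoodF (fidx ts) 400 752 := GoodF.ofV v752 n752 c752.down b752.down

/-- 458844:649 -/
noncomputable def e753 : SCfg where
  D := {
    a := 6
    L := 11
    kp := 9
    inn := [(0, 1), (0, 2), (1, 0), (1, 2), (1, 3), (2, 0), (2, 1), (2, 3), (3, 1), (3, 2), (3, 4), (3,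
      5), (4, 3), (5, 3)]
    mix := [(0, 0), (0, 1), (1, 1), (1, 2), (2, 0), (2, 3), (2, 4), (2, 5), (2, 6), (3, 2), (3, 3), (3,
      7), (3, 8), (4, 3), (4, 8), (4, 9), (5, 7), (5, 8), (5, 10)]
    cl := [1, 2, 0, 3, 5, 6, 7, 3, 4, 8, 9]
    chq := [(0, 1), (0, 5), (0, 6), (0, 7), (1, 0), (3, 4), (4, 3), (5, 0), (6, 0), (7, 0)]
    rng := [(0, 1), (0, 6), (1, 0), (1, 2), (2, 1), (2, 7), (3, 4), (3, 9), (4, 3), (4, 5), (5, 4), (5,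
      6), (6, 0), (6, 5), (7, 2), (7, 10), (8, 9), (8, 10), (9, 3), (9, 8), (10, 7), (10, 8)]
    lev := [] }
  links := [[1, 2, 6, 7], [2, 0, 7, 8, 3], [6, 0, 1, 3, 9, 10, 11, 12], [9, 2, 1, 8, 13, 5, 14, 4], [9,
    3, 14, 15], [14, 3, 13, 16]]
  P := {
    a := 6
    N := 17
    nb := [198, 397, 7755, 25398, 49672, 90120, 4229, 323, 8330, 33820, 2564, 5124, 2116, 65832,
      98360, 16912, 24608]
    tri := [(0, 1, 2), (0, 1, 7), (0, 2, 6), (0, 6, 7), (1, 2, 3), (1, 3, 8), (1, 7, 8), (2, 3, 9), (2,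
      6, 12), (2, 9, 10), (2, 10, 11), (2, 11, 12), (3, 4, 9), (3, 4, 14), (3, 5, 13), (3, 5, 14),
      (3, 8, 13), (4, 9, 15), (4, 14, 15), (5, 13, 16), (5, 14, 16)]
    fin := [0, 1, 1, 3, 3, 3, 0, 7, 1, 3, 10, 11, 12, 3, 14, 15, 16]
    chd := [(0, 1), (1, 10), (1, 11), (1, 12), (3, 14)]
    steps := [(0, 6), (1, 2), (1, 8), (3, 4), (3, 5), (3, 13), (3, 9)] }
  rep := [1, 0, 7, 3, 14, 10, 11, 12, 15, 16]

noncomputable def v753 : Cov.CovD where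
  P := 3
  N := 7
  pl := [1, 9, 10]
  lev := [⟨[], [], [], [2], [(0, 1, [0])]⟩,
    ⟨[], [(0, 0), (0, 1)], [], [2], [(2, 0, [1, 5, 6, 7])]⟩,
    ⟨[(0, 1)], [(0, 1), (0, 3), (0, 5), (0, 6), (0, 7), (1, 0), (1, 1), (1, 3), (1, 5), (1,
      6), (1, 7)], [(1, 3), (1, 5), (1, 6), (1, 7), (3, 5), (3, 6), (3, 7), (5, 6), (5, 7),
      (6, 7)], [], [(0, 1, [0]), (3, 3, [4]), (4, 5, [0]), (5, 6, [0]), (6, 7, [0])]⟩,
    ⟨[(0, 1), (0, 2), (1, 2)], [(1, 0), (1, 3), (1, 4), (2, 0), (2, 1), (2, 3), (2, 4), (2,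
      5), (2, 6), (2, 7)], [(0, 3), (0, 4), (3, 3), (3, 4)], [], [(2, 0, [1, 5, 6, 7]), (3,
      3, [4]), (7, 3, [4]), (8, 4, [3])]⟩,
    ⟨[(1, 3), (2, 3)], [(2, 3), (3, 0), (3, 3), (3, 4)], [(3, 4)], [8], [(3, 3, [4]), (8,
      4, [3])]⟩,
    ⟨[(1, 3), (2, 3), (3, 4)], [(3, 0), (3, 3), (3, 4), (4, 4)], [(3, 4)], [9], [(7, 3,
      [4]), (8, 4, [3])]⟩]
  Ta := [((3, 4), 3, 5), ((3, 9), 3, 8), ((7, 2), 3, 0), ((7, 10), 3, 9)]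
  Tb := [((0, 1, 6), 1, 2, 7), ((1, 0, 2), 2, 1, 0), ((2, 1, 7), 0, 2, 3), ((3, 4, 9), 3, 5, 8),
    ((4, 3, 5), 5, 3, 6), ((5, 4, 6), 6, 5, 7), ((6, 0, 5), 7, 1, 6), ((7, 2, 10), 3, 0, 9),
    ((8, 9, 10), 4, 8, 9), ((9, 3, 8), 8, 3, 4), ((10, 7, 8), 9, 3, 4)]
  Tc := [(0, 1, 5), (0, 1, 6), (0, 1, 7), (0, 5, 6), (0, 5, 7), (0, 6, 7)]
  Td := [((0, 1), (2, 1), 2), ((0, 1), (2, 7), 3), ((0, 5), (2, 1), 2), ((0, 5), (2, 7), 3), ((0,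
    6), (2, 1), 2), ((0, 6), (2, 7), 3), ((0, 7), (2, 1), 2), ((0, 7), (2, 7), 3), ((1, 0),
    (0, 1), 2), ((1, 0), (0, 6), 7), ((3, 4), (3, 4), 5), ((3, 4), (3, 9), 8), ((3, 4), (7,
    2), 0), ((3, 4), (7, 10), 9), ((4, 3), (8, 9), 8), ((4, 3), (8, 10), 9), ((5, 0), (4, 3),
    3), ((5, 0), (4, 5), 6), ((6, 0), (5, 4), 5), ((6, 0), (5, 6), 7), ((7, 0), (6, 0), 1),
    ((7, 0), (6, 5), 6)]
  G := [[0, 0xa55c336169981c8, 0xa5541699c33a1c4, 0xa55c336169981c8, 0xaa5c336169981a8], [0,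
    0x55a4199633ca1c4, 0x99633ca14141f4164, 0xd7a41db6b7ca1c4, 0xb7c21db6d7ac1a8]]

noncomputable def n753 : Ent := ⟨e753, noF, [], [], []⟩

def c753 : PLift (Cov.check n753.C.D v753 = true) := ⟨by decide +kernel⟩

def b753 : PLift (entF (fidx ts) 400 753 n753 = true) := ⟨by decide +kernel⟩

theorem g753 : GoodF (fidx ts) 400 753 := GoodF.ofV v753 n753 c753.down b753.down

/-- 458664:653 -/
noncomputable def e754 : SCfg where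
  D := {
    a := 6
    L := 10
    kp := 8
    inn := [(0, 1), (0, 2), (1, 0), (1, 2), (1, 3), (2, 0), (2, 1), (2, 3), (2, 4), (3, 1), (3, 2), (3,
      4), (4, 2), (4, 3), (4, 5), (5, 4)]
    mix := [(0, 0), (0, 1), (1, 1), (1, 2), (2, 0), (2, 3), (2, 4), (2, 5), (3, 2), (3, 6), (3, 7), (4,
      3), (4, 7), (4, 8), (5, 7), (5, 8), (5, 9)]
    cl := [1, 2, 0, 3, 5, 6, 7, 3, 4, 8]
    chq := [(0, 1), (0, 3), (0, 5), (0, 6), (1, 0), (3, 0), (5, 0), (6, 0)]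
    rng := [(0, 1), (0, 5), (1, 0), (1, 2), (2, 1), (2, 6), (3, 4), (3, 8), (4, 3), (4, 5), (5, 0), (5,
      4), (6, 2), (6, 7), (7, 6), (7, 9), (8, 3), (8, 9), (9, 7), (9, 8)]
    lev := [] }
  links := [[1, 2, 6, 7], [2, 0, 7, 8, 3], [6, 0, 1, 3, 4, 9, 10, 11], [4, 2, 1, 8, 12, 13], [9, 2, 3,
    13, 5, 14], [14, 4, 13, 15]]
  P := {
    a := 6
    N := 16
    nb := [198, 397, 3675, 12566, 25132, 57360, 2181, 323, 4234, 17428, 2564, 1092, 8456, 36920,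
      33328, 24608]
    tri := [(0, 1, 2), (0, 1, 7), (0, 2, 6), (0, 6, 7), (1, 2, 3), (1, 3, 8), (1, 7, 8), (2, 3, 4), (2,
      4, 9), (2, 6, 11), (2, 9, 10), (2, 10, 11), (3, 4, 13), (3, 8, 12), (3, 12, 13), (4, 5, 13),
      (4, 5, 14), (4, 9, 14), (5, 13, 15), (5, 14, 15)]
    fin := [0, 0, 2, 2, 4, 4, 0, 7, 2, 4, 10, 11, 12, 4, 14, 15]
    chd := [(0, 2), (2, 4), (2, 10), (2, 11)]
    steps := [(0, 1), (0, 6), (2, 3), (2, 8), (4, 5), (4, 13), (4, 9)] }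
  rep := [2, 0, 7, 4, 14, 10, 11, 12, 15]

noncomputable def v754 : Cov.CovD where
  P := 3
  N := 6
  pl := [1, 6, 8, 9]
  lev := [⟨[], [], [], [2], [(0, 1, [0])]⟩,
    ⟨[], [(0, 0), (0, 1)], [], [2], [(2, 0, [1, 3, 5, 6])]⟩,
    ⟨[(0, 1)], [(0, 1), (0, 3), (0, 5), (0, 6), (1, 0), (1, 1), (1, 3), (1, 5), (1, 6)],
      [(1, 3), (1, 5), (1, 6), (3, 5), (3, 6), (5, 6)], [], [(0, 1, [0]), (3, 3, [0]), (4, 5,
      [0]), (5, 6, [0])]⟩,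
    ⟨[(0, 1), (0, 2), (1, 2)], [(1, 0), (1, 3), (2, 0), (2, 1), (2, 3), (2, 5), (2, 6)],
      [(0, 3)], [7], [(2, 0, [1, 3, 5, 6]), (7, 3, [0])]⟩,
    ⟨[(0, 2), (1, 2), (1, 3), (2, 3)], [(2, 1), (2, 3), (2, 5), (2, 6), (3, 0), (3, 3)],
      [(3, 3)], [4], [(3, 3, [0]), (7, 3, [0])]⟩,
    ⟨[(2, 4), (3, 4)], [(3, 3), (4, 3)], [], [4, 8], [(7, 3, [0])]⟩]
  Ta := [((3, 4), 3, 5), ((3, 8), 3, 4), ((7, 6), 3, 7), ((7, 9), 3, 8)]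
  Tb := [((0, 1, 5), 1, 2, 6), ((1, 0, 2), 2, 1, 0), ((2, 1, 6), 0, 2, 7), ((3, 4, 8), 3, 5, 4),
    ((4, 3, 5), 5, 3, 6), ((5, 0, 4), 6, 1, 5), ((6, 2, 7), 7, 0, 3), ((7, 6, 9), 3, 7, 8),
    ((8, 3, 9), 4, 3, 8), ((9, 7, 8), 8, 3, 4)]
  Tc := [(0, 1, 3), (0, 1, 5), (0, 1, 6), (0, 3, 5), (0, 3, 6), (0, 5, 6)]
  Td := [((0, 1), (2, 1), 2), ((0, 1), (2, 6), 7), ((0, 3), (2, 1), 2), ((0, 3), (2, 6), 7), ((0,
    5), (2, 1), 2), ((0, 5), (2, 6), 7), ((0, 6), (2, 1), 2), ((0, 6), (2, 6), 7), ((1, 0),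
    (0, 1), 2), ((1, 0), (0, 5), 6), ((3, 0), (3, 4), 5), ((3, 0), (3, 8), 4), ((3, 0), (7,
    6), 7), ((3, 0), (7, 9), 8), ((5, 0), (4, 3), 3), ((5, 0), (4, 5), 6), ((6, 0), (5, 0),
    1), ((6, 0), (5, 4), 5)]
  G := [[0, 0x453e954ea144, 0x1747d14da144, 0x983e958e6188, 0x983e958e6188], [0,
    0x414141d17ef313131a6cf68181811dbef8c1, 0xd174fb712f611db8f81a4,
    0xd174f418142691db8fb712fa9c4182a5485, 0xd174fb712f611db8f81a814269814122dc29]]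

noncomputable def n754 : Ent := ⟨e754, noF, [], [], []⟩

def c754 : PLift (Cov.check n754.C.D v754 = true) := ⟨by decide +kernel⟩

def b754 : PLift (entF (fidx ts) 400 754 n754 = true) := ⟨by decide +kernel⟩

theorem g754 : GoodF (fidx ts) 400 754 := GoodF.ofV v754 n754 c754.down b754.down

/-- 458664:657/1 -/
noncomputable def e755 : SCfg where
  D := {
    a := 6
    L := 10
    kp := 8
    inn := [(0, 1), (0, 2), (1, 0), (1, 2), (1, 3), (2, 0), (2, 1), (2, 3), (2, 4), (3, 1), (3, 2), (4,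
      2), (4, 5), (5, 4)]
    mix := [(0, 0), (0, 1), (1, 1), (1, 2), (2, 0), (2, 3), (2, 4), (2, 5), (3, 2), (3, 3), (3, 6), (3,
      7), (4, 3), (4, 4), (4, 8), (4, 9), (5, 1), (5, 8), (5, 9)]
    cl := [1, 0, 2, 3, 3, 8, 6, 7, 4, 5]
    chq := [(0, 3), (1, 2), (1, 3), (1, 6), (1, 7), (2, 1), (3, 0), (3, 1), (6, 1), (7, 1)]
    rng := [(0, 1), (0, 5), (1, 0), (1, 2), (1, 8), (1, 9), (2, 1), (2, 6), (3, 7), (3, 8), (4, 5), (4,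
      9), (5, 0), (5, 4), (6, 2), (6, 7), (7, 3), (7, 6), (8, 1), (8, 3), (9, 1), (9, 4)]
    lev := [] }
  links := [[1, 2, 6, 7], [2, 0, 7, 8, 3], [6, 0, 1, 3, 9, 4, 10, 11], [9, 2, 1, 8, 12, 13], [10, 2, 9,
    14, 5, 15], [15, 4, 14, 7]]
  P := {
    a := 6
    N := 16
    nb := [198, 397, 3675, 13062, 50724, 49296, 2181, 49507, 4234, 24604, 34836, 1092, 8456, 4616,
      688, 1200]
    tri := [(0, 1, 2), (0, 1, 7), (0, 2, 6), (0, 6, 7), (1, 2, 3), (1, 3, 8), (1, 7, 8), (2, 3, 9), (2,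
      4, 9), (2, 4, 10), (2, 6, 11), (2, 10, 11), (3, 8, 12), (3, 9, 13), (3, 12, 13), (4, 5, 14),
      (4, 5, 15), (4, 9, 14), (4, 10, 15), (5, 7, 14), (5, 7, 15)]
    fin := [0, 0, 2, 0, 4, 4, 0, 4, 8, 2, 2, 11, 12, 13, 14, 15]
    chd := [(0, 2), (0, 8), (0, 12), (0, 13), (4, 2)]
    steps := [(0, 1), (0, 3), (0, 6), (2, 9), (2, 10), (4, 5), (4, 7)] }
  rep := [4, 0, 8, 2, 14, 15, 12, 13, 11]

noncomputable def v755 : Cov.CovD where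
  P := 3
  N := 6
  pl := [5, 8, 9]
  lev := [⟨[], [], [(0, 1)], [], [(0, 1, [2, 3, 6, 7]), (1, 0, [3])]⟩,
    ⟨[], [(0, 0), (0, 1), (0, 2)], [(0, 2)], [], [(1, 0, [3]), (2, 2, [1])]⟩,
    ⟨[(0, 1)], [(0, 0), (0, 1), (0, 3), (1, 0), (1, 1), (1, 2), (1, 3)], [(1, 3), (3, 3)],
      [8], [(0, 1, [2, 3, 6, 7]), (3, 3, [0, 1]), (4, 3, [0, 1])]⟩,
    ⟨[(0, 1), (0, 2), (1, 2)], [(1, 0), (1, 2), (1, 3), (1, 6), (1, 7), (2, 1), (2, 2), (2,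
      3), (2, 6), (2, 7)], [(2, 3), (2, 6), (2, 7), (3, 6), (3, 7), (6, 7)], [], [(2, 2,
      [1]), (3, 3, [0, 1]), (6, 6, [1]), (7, 7, [1])]⟩,
    ⟨[(0, 2), (1, 2), (2, 3)], [(2, 1), (2, 3), (3, 3)], [(3, 3)], [4, 5], [(3, 3, [0, 1]),
      (4, 3, [0, 1])]⟩,
    ⟨[(2, 4)], [(0, 0), (1, 0), (4, 0), (4, 3)], [], [4, 5], [(1, 0, [3])]⟩]
  Ta := [((3, 7), 3, 7), ((3, 8), 3, 4), ((4, 5), 3, 8), ((4, 9), 3, 5)]
  Tb := [((0, 1, 5), 1, 0, 8), ((1, 0, 2), 0, 1, 2), ((1, 0, 8), 0, 1, 4), ((1, 0, 9), 0, 1, 5),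
    ((1, 2, 8), 0, 2, 4), ((1, 2, 9), 0, 2, 5), ((1, 8, 9), 0, 4, 5), ((2, 1, 6), 2, 0, 6),
    ((3, 7, 8), 3, 7, 4), ((4, 5, 9), 3, 8, 5), ((5, 0, 4), 8, 1, 3), ((6, 2, 7), 6, 2, 7),
    ((7, 3, 6), 7, 3, 6), ((8, 1, 3), 4, 0, 3), ((9, 1, 4), 5, 0, 3)]
  Tc := [(1, 2, 3), (1, 2, 6), (1, 2, 7), (1, 3, 6), (1, 3, 7), (1, 6, 7), (3, 0, 1)]
  Td := [((0, 3), (1, 0), 1), ((0, 3), (1, 2), 2), ((0, 3), (1, 8), 4), ((0, 3), (1, 9), 5), ((1,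
    2), (0, 1), 0), ((1, 2), (0, 5), 8), ((1, 3), (0, 1), 0), ((1, 3), (0, 5), 8), ((1, 6),
    (0, 1), 0), ((1, 6), (0, 5), 8), ((1, 7), (0, 1), 0), ((1, 7), (0, 5), 8), ((2, 1), (2,
    1), 0), ((2, 1), (2, 6), 6), ((3, 0), (3, 7), 7), ((3, 0), (3, 8), 4), ((3, 0), (4, 5),
    8), ((3, 0), (4, 9), 5), ((3, 1), (3, 7), 7), ((3, 1), (3, 8), 4), ((3, 1), (4, 5), 8),
    ((3, 1), (4, 9), 5), ((6, 1), (6, 2), 2), ((6, 1), (6, 7), 7), ((7, 1), (7, 3), 3), ((7,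
    1), (7, 6), 6)]
  G := [[0, 0xe11e11e11e84, 0xe12e12e12d48, 0x2c322c32442cf2d54c28c19c2486,
    0x892cf24842e7288889842ef2b5828ac], [0, 0xe11e11e11e48, 0xe12e12e12d48,
    0x84c422432283284c84c92c32fc8, 0x892ef2842ef25842c7288889a5828ac]]

noncomputable def n755 : Ent := ⟨e755, noF, [], [], []⟩

def c755 : PLift (Cov.check n755.C.D v755 = true) := ⟨by decide +kernel⟩

def b755 : PLift (entF (fidx ts) 400 755 n755 = true) := ⟨by decide +kernel⟩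

theorem g755 : GoodF (fidx ts) 400 755 := GoodF.ofV v755 n755 c755.down b755.down

/-- 458664:657 -/
noncomputable def e756 : SCfg where
  D := {
    a := 6
    L := 11
    kp := 9
    inn := [(0, 1), (0, 2), (1, 0), (1, 2), (1, 3), (2, 0), (2, 1), (2, 3), (2, 4), (3, 1), (3, 2), (4,
      2), (4, 5), (5, 4)]
    mix := [(0, 0), (0, 1), (1, 1), (1, 2), (2, 0), (2, 3), (2, 4), (2, 5), (3, 2), (3, 3), (3, 6), (3,
      7), (4, 3), (4, 4), (4, 8), (4, 9), (5, 8), (5, 9), (5, 10)]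
    cl := [1, 2, 3, 0, 0, 6, 7, 8, 4, 5, 9]
    chq := [(0, 9), (1, 3), (3, 1), (3, 6), (6, 3), (6, 7), (6, 8), (7, 6), (8, 6), (9, 0)]
    rng := [(0, 1), (0, 5), (1, 0), (1, 2), (2, 1), (2, 6), (3, 7), (3, 8), (4, 5), (4, 9), (5, 0), (5,
      4), (6, 2), (6, 7), (7, 3), (7, 6), (8, 3), (8, 10), (9, 4), (9, 10), (10, 8), (10, 9)]
    lev := [] }
  links := [[1, 2, 6, 7], [2, 0, 7, 8, 3], [6, 0, 1, 3, 9, 4, 10, 11], [9, 2, 1, 8, 12, 13], [10, 2, 9,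
    14, 5, 15], [15, 4, 14, 16]]
  P := {
    a := 6
    N := 17
    nb := [198, 397, 3675, 13062, 50724, 114704, 2181, 323, 4234, 24604, 34836, 1092, 8456, 4616,
      66096, 66608, 49184]
    tri := [(0, 1, 2), (0, 1, 7), (0, 2, 6), (0, 6, 7), (1, 2, 3), (1, 3, 8), (1, 7, 8), (2, 3, 9), (2,
      4, 9), (2, 4, 10), (2, 6, 11), (2, 10, 11), (3, 8, 12), (3, 9, 13), (3, 12, 13), (4, 5, 14),
      (4, 5, 15), (4, 9, 14), (4, 10, 15), (5, 14, 16), (5, 15, 16)]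
    fin := [0, 0, 2, 2, 4, 4, 0, 7, 8, 4, 4, 2, 12, 13, 14, 15, 16]
    chd := [(0, 8), (2, 12), (2, 13), (4, 16), (8, 2)]
    steps := [(0, 1), (0, 6), (2, 3), (2, 11), (4, 5), (4, 9), (4, 10)] }
  rep := [4, 0, 7, 8, 14, 15, 2, 12, 13, 16]

noncomputable def v756 : Cov.CovD where
  P := 3
  N := 7
  pl := [1, 8, 9]
  lev := [⟨[], [], [], [2], [(0, 1, [3])]⟩,
    ⟨[], [(0, 1), (0, 3)], [], [2], [(2, 3, [1, 6])]⟩,
    ⟨[(0, 1)], [(0, 0), (0, 1), (0, 6), (1, 0), (1, 1), (1, 3), (1, 6)], [(0, 0), (0, 1),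
      (0, 6), (1, 6)], [], [(0, 1, [3]), (3, 0, [9]), (4, 0, [9]), (5, 6, [3, 7, 8])]⟩,
    ⟨[(0, 1), (0, 2), (1, 2)], [(1, 0), (1, 3), (1, 7), (1, 8), (2, 0), (2, 1), (2, 3), (2,
      6), (2, 7), (2, 8)], [(0, 3), (0, 7), (0, 8), (3, 7), (3, 8), (7, 8)], [], [(2, 3, [1,
      6]), (3, 0, [9]), (6, 7, [6]), (7, 8, [6])]⟩,
    ⟨[(0, 2), (1, 2), (2, 3)], [(2, 0), (2, 1), (2, 6), (3, 0)], [(0, 0)], [4, 5], [(3, 0,
      [9]), (4, 0, [9])]⟩,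
    ⟨[(2, 4)], [(4, 0), (4, 9)], [], [4, 5], [(10, 9, [0])]⟩]
  Ta := [((3, 7), 0, 8), ((3, 8), 0, 4), ((4, 5), 0, 6), ((4, 9), 0, 5)]
  Tb := [((0, 1, 5), 1, 2, 6), ((1, 0, 2), 2, 1, 3), ((2, 1, 6), 3, 2, 7), ((3, 7, 8), 0, 8, 4),
    ((4, 5, 9), 0, 6, 5), ((5, 0, 4), 6, 1, 0), ((6, 2, 7), 7, 3, 8), ((7, 3, 6), 8, 0, 7),
    ((8, 3, 10), 4, 0, 9), ((9, 4, 10), 5, 0, 9), ((10, 8, 9), 9, 4, 5)]
  Tc := [(3, 1, 6), (6, 3, 7), (6, 3, 8), (6, 7, 8)]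
  Td := [((0, 9), (3, 7), 8), ((0, 9), (3, 8), 4), ((0, 9), (4, 5), 6), ((0, 9), (4, 9), 5), ((1,
    3), (0, 1), 2), ((1, 3), (0, 5), 6), ((3, 1), (2, 1), 2), ((3, 1), (2, 6), 7), ((3, 6),
    (2, 1), 2), ((3, 6), (2, 6), 7), ((6, 3), (5, 0), 1), ((6, 3), (5, 4), 0), ((6, 7), (5,
    0), 1), ((6, 7), (5, 4), 0), ((6, 8), (5, 0), 1), ((6, 8), (5, 4), 0), ((7, 6), (6, 2),
    3), ((7, 6), (6, 7), 8), ((8, 6), (7, 3), 0), ((8, 6), (7, 6), 7), ((9, 0), (10, 8), 4),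
    ((9, 0), (10, 9), 5)]
  G := [[0x324d17e295c4e1dbe2128b7c8e1dbe4d17e8ce2, 0x1dbe1dbe6b71e8a14, 0xd17e8421dbe1dbe682c,
    0xd1c845361dbe1dbee17a8c1dbe4d17e8cd1, 0x1dbe1dbe6d17e8c21],
    [0x11a2b71eb71eb71ed61dbe1dbe1dbe78a4, 0x1dbe2b71eb71eca14, 0x536143d17e9811abc21dbe482c,
    0x917e111e94541dbe1dbe1dbef588cd17e84d1, 0x1dbe1dbe6d17e111e9c21]]

noncomputable def n756 : Ent := ⟨e756, noF, [], [], [(7, 16, [1580044410770988437309982408355971841652082177953823432505692205057, 0])]⟩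

def c756 : PLift (Cov.check n756.C.D v756 = true) := ⟨by decide +kernel⟩

def b756 : PLift (entF (fidx ts) 400 756 n756 = true) := ⟨by decide +kernel⟩

theorem g756 : GoodF (fidx ts) 400 756 := GoodF.ofV v756 n756 c756.down b756.down

/-- 458566:658/1 -/
noncomputable def e757 : SCfg where
  D := {
    a := 6
    L := 10
    kp := 7
    inn := [(0, 1), (0, 2), (1, 0), (1, 2), (2, 0), (2, 1), (2, 3), (2, 5), (3, 2), (3, 4), (3, 5), (4,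
      3), (4, 5), (5, 2), (5, 3), (5, 4)]
    mix := [(0, 0), (0, 1), (1, 1), (1, 2), (1, 3), (2, 0), (2, 3), (2, 4), (2, 5), (3, 3), (3, 6), (4,
      1), (4, 6), (4, 7), (4, 8), (5, 4), (5, 8), (5, 9)]
    cl := [0, 2, 5, 0, 3, 4, 1, 6, 1, 7]
    chq := [(1, 3), (1, 4), (3, 1), (4, 1)]
    rng := [(0, 1), (0, 5), (1, 0), (1, 2), (1, 7), (1, 8), (2, 1), (2, 3), (3, 2), (3, 6), (4, 5), (4,
      9), (5, 0), (5, 4), (6, 3), (6, 7), (7, 1), (7, 6), (8, 1), (8, 9), (9, 4), (9, 8)]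
    lev := [] }
  links := [[1, 2, 6, 7], [2, 0, 7, 8, 9], [6, 0, 1, 9, 3, 5, 10, 11], [5, 2, 9, 12, 4], [5, 3, 12, 13,
    7, 14], [10, 2, 3, 4, 14, 15]]
  P := {
    a := 6
    N := 16
    nb := [198, 901, 3691, 4660, 28840, 50204, 2181, 24915, 642, 4366, 34852, 1092, 8728, 4240, 32944,
      17440]
    tri := [(0, 1, 2), (0, 1, 7), (0, 2, 6), (0, 6, 7), (1, 2, 9), (1, 7, 8), (1, 8, 9), (2, 3, 5), (2,
      3, 9), (2, 5, 10), (2, 6, 11), (2, 10, 11), (3, 4, 5), (3, 4, 12), (3, 9, 12), (4, 5, 14),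
      (4, 7, 13), (4, 7, 14), (4, 12, 13), (5, 10, 15), (5, 14, 15)]
    fin := [0, 0, 2, 2, 4, 2, 0, 4, 8, 0, 10, 11, 2, 13, 2, 15]
    chd := [(10, 2), (11, 2)]
    steps := [(0, 1), (0, 6), (0, 9), (2, 3), (2, 5), (2, 12), (2, 14), (4, 7)] }
  rep := [0, 2, 4, 10, 11, 8, 13, 15]

noncomputable def v757 : Cov.CovD where
  P := 3
  N := 5
  pl := [1, 2, 7, 9]
  lev := [⟨[], [], [], [2], [(0, 0, [])]⟩,
    ⟨[], [(0, 0)], [], [2, 5], [(3, 0, [])]⟩,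
    ⟨[(0, 1)], [(0, 0), (0, 3), (0, 4), (1, 0), (1, 3), (1, 4)], [(0, 0), (0, 3), (0, 4),
      (3, 4)], [], [(0, 0, []), (3, 0, []), (4, 3, [1]), (5, 4, [1])]⟩,
    ⟨[(0, 2), (1, 2)], [(1, 0), (2, 0), (2, 1), (2, 3), (2, 4)], [(0, 1)], [], [(3, 0, []),
      (6, 1, [3, 4])]⟩,
    ⟨[(2, 3)], [(3, 0), (3, 1)], [(1, 1)], [2, 6], [(6, 1, [3, 4]), (8, 1, [3, 4])]⟩,
    ⟨[(0, 2), (1, 2), (2, 3), (2, 4), (3, 4)], [(2, 0), (2, 1), (2, 3), (2, 4), (3, 0), (3,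
      1), (3, 3), (4, 1), (4, 3)], [(1, 3)], [7], [(4, 3, [1]), (8, 1, [3, 4])]⟩]
  Ta := [((0, 1), 0, 2), ((0, 5), 0, 4), ((3, 2), 0, 5), ((3, 6), 0, 1), ((6, 3), 1, 0), ((6, 7),
    1, 6), ((8, 1), 1, 2), ((8, 9), 1, 7)]
  Tb := [((0, 1, 5), 0, 2, 4), ((1, 0, 2), 2, 0, 5), ((1, 0, 7), 2, 0, 6), ((1, 0, 8), 2, 0, 1),
    ((1, 2, 7), 2, 5, 6), ((1, 2, 8), 2, 5, 1), ((1, 7, 8), 2, 6, 1), ((2, 1, 3), 5, 2, 0),
    ((3, 2, 6), 0, 5, 1), ((4, 5, 9), 3, 4, 7), ((5, 0, 4), 4, 0, 3), ((6, 3, 7), 1, 0, 6),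
    ((7, 1, 6), 6, 2, 1), ((8, 1, 9), 1, 2, 7), ((9, 4, 8), 7, 3, 1)]
  Tc := [(1, 3, 4)]
  Td := [((1, 3), (6, 3), 0), ((1, 3), (6, 7), 6), ((1, 3), (8, 1), 2), ((1, 3), (8, 9), 7), ((1,
    4), (6, 3), 0), ((1, 4), (6, 7), 6), ((1, 4), (8, 1), 2), ((1, 4), (8, 9), 7), ((3, 1),
    (4, 5), 4), ((3, 1), (4, 9), 7), ((4, 1), (5, 0), 0), ((4, 1), (5, 4), 3)]
  G := [[0, 0, 0x44d9cc2d9c4452c4, 0, 0xdd94218], [0, 0, 0xd4d8c25dc8892c4, 0xdd94218,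
    0xdd94218], [0, 0x11c211c211c8e11c411c211c4ec1, 0, 0, 0xdd94277945598dd94ea8], [0, 0, 0,
    0xdd582dd942c4, 0xdd94277945598dd94ea8]]

noncomputable def n757 : Ent := ⟨e757, noF, [], [], []⟩

def c757 : PLift (Cov.check n757.C.D v757 = true) := ⟨by decide +kernel⟩

def b757 : PLift (entF (fidx ts) 400 757 n757 = true) := ⟨by decide +kernel⟩

theorem g757 : GoodF (fidx ts) 400 757 := GoodF.ofV v757 n757 c757.down b757.down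

/-- 458566:658 -/
noncomputable def e758 : SCfg where
  D := {
    a := 6
    L := 11
    kp := 8
    inn := [(0, 1), (0, 2), (1, 0), (1, 2), (2, 0), (2, 1), (2, 3), (2, 5), (3, 2), (3, 4), (3, 5), (4,
      3), (4, 5), (5, 2), (5, 3), (5, 4)]
    mix := [(0, 0), (0, 1), (1, 1), (1, 2), (1, 3), (2, 0), (2, 3), (2, 4), (2, 5), (3, 3), (3, 6), (4,
      6), (4, 7), (4, 8), (4, 9), (5, 4), (5, 9), (5, 10)]
    cl := [0, 2, 5, 0, 3, 6, 1, 7, 8, 1, 4]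
    chq := [(0, 3), (0, 4), (3, 0), (4, 0)]
    rng := [(0, 1), (0, 5), (1, 0), (1, 2), (2, 1), (2, 3), (3, 2), (3, 6), (4, 5), (4, 10), (5, 0),
      (5, 4), (6, 3), (6, 7), (7, 6), (7, 8), (8, 7), (8, 9), (9, 8), (9, 10), (10, 4), (10, 9)]
    lev := [] }
  links := [[1, 2, 6, 7], [2, 0, 7, 8, 9], [6, 0, 1, 9, 3, 5, 10, 11], [5, 2, 9, 12, 4], [5, 3, 12, 13,
    14, 15], [10, 2, 3, 4, 15, 16]]
  P := {
    a := 6
    N := 17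
    nb := [198, 901, 3691, 4660, 61480, 99356, 2181, 323, 642, 4366, 67620, 1092, 8728, 20496, 40976,
      81968, 33824]
    tri := [(0, 1, 2), (0, 1, 7), (0, 2, 6), (0, 6, 7), (1, 2, 9), (1, 7, 8), (1, 8, 9), (2, 3, 5), (2,
      3, 9), (2, 5, 10), (2, 6, 11), (2, 10, 11), (3, 4, 5), (3, 4, 12), (3, 9, 12), (4, 5, 15),
      (4, 12, 13), (4, 13, 14), (4, 14, 15), (5, 10, 16), (5, 15, 16)]
    fin := [0, 0, 0, 0, 4, 0, 0, 7, 8, 0, 10, 11, 4, 13, 14, 4, 16]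
    chd := [(0, 10), (0, 16)]
    steps := [(0, 1), (0, 2), (0, 3), (0, 5), (0, 6), (0, 9), (4, 12), (4, 15)] }
  rep := [0, 4, 7, 10, 16, 8, 11, 13, 14]

noncomputable def v758 : Cov.CovD where
  P := 3
  N := 6
  pl := [1, 2, 5, 7, 8]
  lev := [⟨[], [], [], [2], [(0, 0, [3, 4])]⟩,
    ⟨[], [(0, 0)], [], [2, 5], [(3, 0, [3, 4])]⟩,
    ⟨[(0, 1)], [(0, 0), (0, 3), (1, 0), (1, 3)], [(0, 0), (0, 3)], [6], [(0, 0, [3, 4]),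
      (3, 0, [3, 4]), (4, 3, [0])]⟩,
    ⟨[(0, 2), (1, 2)], [(1, 0), (2, 0), (2, 1), (2, 3)], [(0, 1)], [], [(3, 0, [3, 4]), (6,
      1, [])]⟩,
    ⟨[(2, 3)], [(3, 0), (3, 1)], [(1, 1)], [7, 8], [(6, 1, []), (9, 1, [])]⟩,
    ⟨[(0, 2), (1, 2), (2, 3), (2, 4), (3, 4)], [(2, 0), (2, 1), (2, 3), (2, 4), (3, 0), (3,
      1), (3, 3), (3, 4), (4, 1), (4, 3), (4, 4)], [(1, 3), (1, 4), (3, 4)], [], [(4, 3,
      [0]), (9, 1, []), (10, 4, [0])]⟩]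
  Ta := [((0, 1), 0, 2), ((0, 5), 0, 6), ((3, 2), 0, 5), ((3, 6), 0, 1), ((6, 3), 1, 0), ((6, 7),
    1, 7), ((9, 8), 1, 8), ((9, 10), 1, 4)]
  Tb := [((0, 1, 5), 0, 2, 6), ((1, 0, 2), 2, 0, 5), ((2, 1, 3), 5, 2, 0), ((3, 2, 6), 0, 5, 1),
    ((4, 5, 10), 3, 6, 4), ((5, 0, 4), 6, 0, 3), ((6, 3, 7), 1, 0, 7), ((7, 6, 8), 7, 1, 8),
    ((8, 7, 9), 8, 7, 1), ((9, 8, 10), 1, 8, 4), ((10, 4, 9), 4, 3, 1)]
  Tc := [(0, 3, 4)]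
  Td := [((0, 3), (0, 1), 2), ((0, 3), (0, 5), 6), ((0, 3), (3, 2), 5), ((0, 3), (3, 6), 1), ((0,
    4), (0, 1), 2), ((0, 4), (0, 5), 6), ((0, 4), (3, 2), 5), ((0, 4), (3, 6), 1), ((3, 0),
    (4, 5), 6), ((3, 0), (4, 10), 4), ((4, 0), (10, 4), 3), ((4, 0), (10, 9), 1)]
  G := [[0, 0, 0x111d84111d4111d8a111d4111d8111d8ee4, 0x117d411bd811dd8e14,
    0x119d4115d811dd4e12], [0, 0, 0x111d2111d8111d4e111d4111d2111d4ea4,
    0x111d4115d211dd4e181481c, 0x14199c115d211dd8e12], [0,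
    0x111e4111e2111e8e4111e2111e2111e4e8c, 0, 0x117d411ed811dd4e11ed411bd811dd8ec1,
    0x117d4115d811dd8e2117d4115d811dd4e89], [0, 0, 0,
    0x111d4111d811dd4e41245111d2111d811dd8e81289c,
    0x81481111d2115d811dd4e111d4115d211dd8ea3]]

noncomputable def n758 : Ent := ⟨e758, noF, [], [], [(7, 14, [1685382413448253767852309107433119732572617628602273068445368012801, 0])]⟩

def c758 : PLift (Cov.check n758.C.D v758 = true) := ⟨by decide +kernel⟩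

def b758 : PLift (entF (fidx ts) 400 758 n758 = true) := ⟨by decide +kernel⟩

theorem g758 : GoodF (fidx ts) 400 758 := GoodF.ofV v758 n758 c758.down b758.down

/-- 458656:660/2 -/
noncomputable def e759 : SCfg where
  D := {
    a := 6
    L := 9
    kp := 6
    inn := [(0, 1), (0, 2), (1, 0), (1, 2), (2, 0), (2, 1), (2, 3), (2, 4), (3, 2), (3, 4), (3, 5), (4,
      2), (4, 3), (4, 5), (5, 3), (5, 4)]
    mix := [(0, 0), (0, 1), (1, 1), (1, 2), (1, 3), (2, 0), (2, 3), (2, 4), (2, 5), (3, 4), (3, 6), (3,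
      7), (4, 5), (4, 8), (5, 1), (5, 2), (5, 7), (5, 8)]
    cl := [0, 1, 5, 0, 4, 2, 6, 3, 3]
    chq := [(2, 4), (2, 6), (4, 2), (6, 2)]
    rng := [(0, 1), (0, 5), (1, 0), (1, 2), (1, 7), (2, 1), (2, 3), (2, 8), (3, 2), (3, 4), (4, 3), (4,
      6), (5, 0), (5, 8), (6, 4), (6, 7), (7, 1), (7, 6), (8, 2), (8, 5)]
    lev := [] }
  links := [[1, 2, 6, 7], [2, 0, 7, 8, 9], [6, 0, 1, 9, 10, 3, 4, 11], [4, 2, 10, 12, 13, 5], [11, 2, 3,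
    5, 14], [14, 4, 3, 13, 7, 8]]
  P := {
    a := 6
    N := 15
    nb := [198, 901, 3675, 13364, 18476, 24984, 2181, 8547, 17058, 1286, 4620, 16468, 9224, 4264,
      2352]
    tri := [(0, 1, 2), (0, 1, 7), (0, 2, 6), (0, 6, 7), (1, 2, 9), (1, 7, 8), (1, 8, 9), (2, 3, 4), (2,
      3, 10), (2, 4, 11), (2, 6, 11), (2, 9, 10), (3, 4, 5), (3, 5, 13), (3, 10, 12), (3, 12, 13),
      (4, 5, 14), (4, 11, 14), (5, 7, 8), (5, 7, 13), (5, 8, 14)]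
    fin := [0, 0, 0, 3, 3, 5, 0, 7, 8, 0, 10, 3, 12, 5, 5]
    chd := [(3, 12), (10, 3)]
    steps := [(0, 1), (0, 2), (0, 6), (0, 9), (3, 4), (3, 11), (5, 13), (5, 14)] }
  rep := [0, 7, 3, 5, 10, 8, 12]

noncomputable def v759 : Cov.CovD where
  P := 3
  N := 4
  pl := [1, 2]
  lev := [⟨[], [], [], [1], [(0, 0, [])]⟩,
    ⟨[], [(0, 0)], [], [1, 5], [(3, 0, [])]⟩,
    ⟨[(0, 1)], [(0, 0), (0, 2), (0, 4), (1, 0), (1, 2), (1, 4)], [(0, 0), (0, 2), (0, 4),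
      (2, 4)], [], [(0, 0, []), (3, 0, []), (4, 4, [2]), (5, 2, [4, 6])]⟩,
    ⟨[(0, 2), (1, 2)], [(2, 0), (2, 2), (2, 3), (2, 4), (2, 6)], [(3, 4), (3, 6), (4, 6)],
      [], [(4, 4, [2]), (6, 6, [2]), (7, 3, [])]⟩,
    ⟨[(0, 2), (1, 2), (2, 3)], [(2, 0), (2, 2), (2, 3), (2, 4), (3, 2), (3, 3), (3, 4), (3,
      6)], [(2, 3)], [], [(5, 2, [4, 6]), (8, 3, [])]⟩,
    ⟨[(2, 3), (2, 4), (3, 4)], [(3, 3), (3, 4), (3, 6), (4, 2), (4, 3)], [(3, 3)], [1, 5],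
      [(7, 3, []), (8, 3, [])]⟩]
  Ta := [((0, 1), 0, 1), ((0, 5), 0, 2), ((3, 2), 0, 5), ((3, 4), 0, 4), ((7, 1), 3, 1), ((7, 6),
    3, 6), ((8, 2), 3, 5), ((8, 5), 3, 2)]
  Tb := [((0, 1, 5), 0, 1, 2), ((1, 0, 2), 1, 0, 5), ((1, 0, 7), 1, 0, 3), ((1, 2, 7), 1, 5, 3),
    ((2, 1, 3), 5, 1, 0), ((2, 1, 8), 5, 1, 3), ((2, 3, 8), 5, 0, 3), ((3, 2, 4), 0, 5, 4),
    ((4, 3, 6), 4, 0, 6), ((5, 0, 8), 2, 0, 3), ((6, 4, 7), 6, 4, 3), ((7, 1, 6), 3, 1, 6),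
    ((8, 2, 5), 3, 5, 2)]
  Tc := [(2, 4, 6)]
  Td := [((2, 4), (5, 0), 0), ((2, 4), (5, 8), 3), ((2, 6), (5, 0), 0), ((2, 6), (5, 8), 3), ((4,
    2), (4, 3), 0), ((4, 2), (4, 6), 6), ((6, 2), (6, 4), 4), ((6, 2), (6, 7), 3)]
  G := [[0, 0xc12c8213c24243282828ec68, 0x121181c14, 0xd12d82c14, 0x41d1cd1486a14], [0,
    0x4852c12ca121321a121bc68, 0x121121614, 0xc152c192c14, 0x9242512c25a18], [0, 0, 0,
    0x942912c542512cc1, 0xd24984a414842d58486ac1], [0, 0, 0, 0x89528192c14c24592cc1,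
    0x8534924a12425524496ac1]]

noncomputable def n759 : Ent := ⟨e759, noF, [], [], []⟩

def c759 : PLift (Cov.check n759.C.D v759 = true) := ⟨by decide +kernel⟩

def b759 : PLift (entF (fidx ts) 400 759 n759 = true) := ⟨by decide +kernel⟩

theorem g759 : GoodF (fidx ts) 400 759 := GoodF.ofV v759 n759 c759.down b759.down

/-- 458656:660/1 -/
noncomputable def e760 : SCfg where
  D := {
    a := 6
    L := 10
    kp := 7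
    inn := [(0, 1), (0, 2), (1, 0), (1, 2), (2, 0), (2, 1), (2, 3), (2, 4), (3, 2), (3, 4), (3, 5), (4,
      2), (4, 3), (4, 5), (5, 3), (5, 4)]
    mix := [(0, 0), (0, 1), (1, 1), (1, 2), (1, 3), (2, 0), (2, 3), (2, 4), (2, 5), (3, 4), (3, 6), (3,
      7), (4, 5), (4, 8), (5, 1), (5, 7), (5, 8), (5, 9)]
    cl := [0, 1, 6, 0, 2, 4, 5, 3, 3, 7]
    chq := [(2, 4), (4, 2), (4, 5), (5, 4)]
    rng := [(0, 1), (0, 5), (1, 0), (1, 2), (1, 7), (1, 9), (2, 1), (2, 3), (3, 2), (3, 4), (4, 3), (4,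
      6), (5, 0), (5, 8), (6, 4), (6, 7), (7, 1), (7, 6), (8, 5), (8, 9), (9, 1), (9, 8)]
    lev := [] }
  links := [[1, 2, 6, 7], [2, 0, 7, 8, 9], [6, 0, 1, 9, 10, 3, 4, 11], [4, 2, 10, 12, 13, 5], [11, 2, 3,
    5, 14], [14, 4, 3, 13, 7, 15]]
  P := {
    a := 6
    N := 16
    nb := [198, 901, 3675, 13364, 18476, 57496, 2181, 41315, 642, 1286, 4620, 16468, 9224, 4264,
      34864, 16544]
    tri := [(0, 1, 2), (0, 1, 7), (0, 2, 6), (0, 6, 7), (1, 2, 9), (1, 7, 8), (1, 8, 9), (2, 3, 4), (2,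
      3, 10), (2, 4, 11), (2, 6, 11), (2, 9, 10), (3, 4, 5), (3, 5, 13), (3, 10, 12), (3, 12, 13),
      (4, 5, 14), (4, 11, 14), (5, 7, 13), (5, 7, 15), (5, 14, 15)]
    fin := [0, 0, 0, 3, 3, 5, 0, 7, 8, 0, 10, 3, 12, 5, 5, 15]
    chd := [(3, 12), (10, 3)]
    steps := [(0, 1), (0, 2), (0, 6), (0, 9), (3, 4), (3, 11), (5, 13), (5, 14)] }
  rep := [0, 7, 10, 5, 3, 12, 8, 15]

noncomputable def v760 : Cov.CovD where
  P := 3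
  N := 5
  pl := [1, 2, 9]
  lev := [⟨[], [], [], [1], [(0, 0, [])]⟩,
    ⟨[], [(0, 0)], [], [1, 6], [(3, 0, [])]⟩,
    ⟨[(0, 1)], [(0, 0), (0, 2), (0, 4), (1, 0), (1, 2), (1, 4)], [(0, 0), (0, 2), (0, 4),
      (2, 4)], [], [(0, 0, []), (3, 0, []), (4, 2, [4]), (5, 4, [2, 5])]⟩,
    ⟨[(0, 2), (1, 2)], [(2, 0), (2, 2), (2, 3), (2, 4), (2, 5)], [(2, 3), (2, 5), (3, 5)],
      [], [(4, 2, [4]), (6, 5, [4]), (7, 3, [])]⟩,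
    ⟨[(0, 2), (1, 2), (2, 3)], [(2, 0), (2, 2), (2, 3), (2, 4), (3, 2), (3, 3), (3, 4), (3,
      5)], [(3, 4)], [], [(5, 4, [2, 5]), (8, 3, [])]⟩,
    ⟨[(2, 3), (2, 4), (3, 4)], [(3, 2), (3, 3), (3, 5), (4, 3), (4, 4)], [(3, 3)], [1, 7],
      [(7, 3, []), (8, 3, [])]⟩]
  Ta := [((0, 1), 0, 1), ((0, 5), 0, 4), ((3, 2), 0, 6), ((3, 4), 0, 2), ((7, 1), 3, 1), ((7, 6),
    3, 5), ((8, 5), 3, 4), ((8, 9), 3, 7)]
  Tb := [((0, 1, 5), 0, 1, 4), ((1, 0, 2), 1, 0, 6), ((1, 0, 7), 1, 0, 3), ((1, 0, 9), 1, 0, 7),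
    ((1, 2, 7), 1, 6, 3), ((1, 2, 9), 1, 6, 7), ((1, 7, 9), 1, 3, 7), ((2, 1, 3), 6, 1, 0),
    ((3, 2, 4), 0, 6, 2), ((4, 3, 6), 2, 0, 5), ((5, 0, 8), 4, 0, 3), ((6, 4, 7), 5, 2, 3),
    ((7, 1, 6), 3, 1, 5), ((8, 5, 9), 3, 4, 7), ((9, 1, 8), 7, 1, 3)]
  Tc := [(4, 2, 5)]
  Td := [((2, 4), (4, 3), 0), ((2, 4), (4, 6), 5), ((4, 2), (5, 0), 0), ((4, 2), (5, 8), 3), ((4,
    5), (5, 0), 0), ((4, 5), (5, 8), 3), ((5, 4), (6, 4), 2), ((5, 4), (6, 7), 3)]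
  G := [[0, 0xe14e18ce1184a32c65e18ce4, 0, 0xd24d281d2dc18, 0xd1d234dc8a14], [0,
    0xe1415e18ce14e18c62, 0, 0xd2425d28c14, 0x5c89f2d28a14], [0, 0, 0xd14d1d1ac52d16d18ac1,
    0xd24d1821c9dc42d2d2dd18cc1, 0xd11453d184aad11433d18ac4], [0, 0,
    0xc592c2d2c6c592c2d2c6c8, 0xd24d1c29cd2425d28cc1, 0xc952d1c29ac4972d28ac1]]

noncomputable def n760 : Ent := ⟨e760, noF, [], [], [(8, 15, [360035742630636841211993100915356868655746945586763691010781185, 0])]⟩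

def c760 : PLift (Cov.check n760.C.D v760 = true) := ⟨by decide +kernel⟩

def b760 : PLift (entF (fidx ts) 400 760 n760 = true) := ⟨by decide +kernel⟩

theorem g760 : GoodF (fidx ts) 400 760 := GoodF.ofV v760 n760 c760.down b760.down

/-- 458656:660/4 -/
noncomputable def e761 : SCfg where
  D := {
    a := 6
    L := 9
    kp := 6
    inn := [(0, 1), (0, 2), (1, 0), (1, 2), (2, 0), (2, 1), (2, 3), (2, 4), (3, 2), (3, 4), (3, 5), (4,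
      2), (4, 3), (4, 5), (5, 3), (5, 4)]
    mix := [(0, 0), (0, 1), (1, 1), (1, 2), (1, 3), (2, 0), (2, 3), (2, 4), (2, 5), (3, 4), (3, 6), (3,
      7), (4, 5), (4, 8), (5, 1), (5, 2), (5, 7), (5, 8)]
    cl := [0, 1, 5, 0, 4, 2, 6, 3, 3]
    chq := [(2, 4), (2, 6), (4, 2), (6, 2)]
    rng := [(0, 1), (0, 5), (1, 0), (1, 2), (1, 8), (2, 1), (2, 3), (2, 7), (3, 2), (3, 4), (4, 3), (4,
      6), (5, 0), (5, 8), (6, 4), (6, 7), (7, 2), (7, 6), (8, 1), (8, 5)]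
    lev := [] }
  links := [[1, 2, 6, 7], [2, 0, 7, 8, 9], [6, 0, 1, 9, 10, 3, 4, 11], [4, 2, 10, 12, 13, 5], [11, 2, 3,
    5, 14], [14, 4, 3, 13, 8, 7]]
  P := {
    a := 6
    N := 15
    nb := [198, 901, 3675, 13364, 18476, 24984, 2181, 16739, 8866, 1286, 4620, 16468, 9224, 4392,
      2224]
    tri := [(0, 1, 2), (0, 1, 7), (0, 2, 6), (0, 6, 7), (1, 2, 9), (1, 7, 8), (1, 8, 9), (2, 3, 4), (2,
      3, 10), (2, 4, 11), (2, 6, 11), (2, 9, 10), (3, 4, 5), (3, 5, 13), (3, 10, 12), (3, 12, 13),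
      (4, 5, 14), (4, 11, 14), (5, 7, 8), (5, 7, 14), (5, 8, 13)]
    fin := [0, 0, 0, 3, 3, 5, 0, 7, 8, 0, 10, 3, 12, 5, 5]
    chd := [(3, 12), (10, 3)]
    steps := [(0, 1), (0, 2), (0, 6), (0, 9), (3, 4), (3, 11), (5, 13), (5, 14)] }
  rep := [0, 7, 3, 5, 10, 8, 12]

noncomputable def v761 : Cov.CovD where
  P := 3
  N := 4
  pl := [1, 2]
  lev := [⟨[], [], [], [1], [(0, 0, [])]⟩,
    ⟨[], [(0, 0)], [], [1, 5], [(3, 0, [])]⟩,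
    ⟨[(0, 1)], [(0, 0), (0, 2), (0, 4), (1, 0), (1, 2), (1, 4)], [(0, 0), (0, 2), (0, 4),
      (2, 4)], [], [(0, 0, []), (3, 0, []), (4, 4, [2]), (5, 2, [4, 6])]⟩,
    ⟨[(0, 2), (1, 2)], [(2, 0), (2, 2), (2, 3), (2, 4), (2, 6)], [(3, 4), (3, 6), (4, 6)],
      [], [(4, 4, [2]), (6, 6, [2]), (7, 3, [])]⟩,
    ⟨[(0, 2), (1, 2), (2, 3)], [(2, 0), (2, 2), (2, 3), (2, 4), (3, 2), (3, 3), (3, 4), (3,
      6)], [(2, 3)], [], [(5, 2, [4, 6]), (8, 3, [])]⟩,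
    ⟨[(2, 3), (2, 4), (3, 4)], [(3, 3), (3, 4), (3, 6), (4, 2), (4, 3)], [(3, 3)], [1, 5],
      [(7, 3, []), (8, 3, [])]⟩]
  Ta := [((0, 1), 0, 1), ((0, 5), 0, 2), ((3, 2), 0, 5), ((3, 4), 0, 4), ((7, 2), 3, 5), ((7, 6),
    3, 6), ((8, 1), 3, 1), ((8, 5), 3, 2)]
  Tb := [((0, 1, 5), 0, 1, 2), ((1, 0, 2), 1, 0, 5), ((1, 0, 8), 1, 0, 3), ((1, 2, 8), 1, 5, 3),
    ((2, 1, 3), 5, 1, 0), ((2, 1, 7), 5, 1, 3), ((2, 3, 7), 5, 0, 3), ((3, 2, 4), 0, 5, 4),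
    ((4, 3, 6), 4, 0, 6), ((5, 0, 8), 2, 0, 3), ((6, 4, 7), 6, 4, 3), ((7, 2, 6), 3, 5, 6),
    ((8, 1, 5), 3, 1, 2)]
  Tc := [(2, 4, 6)]
  Td := [((2, 4), (5, 0), 0), ((2, 4), (5, 8), 3), ((2, 6), (5, 0), 0), ((2, 6), (5, 8), 3), ((4,
    2), (4, 3), 0), ((4, 2), (4, 6), 6), ((6, 2), (6, 4), 4), ((6, 2), (6, 7), 3)]
  G := [[0, 0xc824c4282124247212828bce4, 0x121181a18, 0xd12d82c18, 0x41d2cd2486a14], [0,
    0xe12c12c216821761213ca4, 0x11a111a1614, 0xc152c192c18, 0x11c2511c85a14], [0, 0, 0,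
    0x912982c512512cc1, 0x91415924a4251c42416ac1], [0, 0, 0, 0x89528192c14c24592cc1,
    0x8d3481a4a184254134496ac1]]

noncomputable def n761 : Ent := ⟨e761, noF, [], [], []⟩

def c761 : PLift (Cov.check n761.C.D v761 = true) := ⟨by decide +kernel⟩

def b761 : PLift (entF (fidx ts) 400 761 n761 = true) := ⟨by decide +kernel⟩

theorem g761 : GoodF (fidx ts) 400 761 := GoodF.ofV v761 n761 c761.down b761.down

/-- 458656:660/3 -/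
noncomputable def e762 : SCfg where
  D := {
    a := 6
    L := 10
    kp := 7
    inn := [(0, 1), (0, 2), (1, 0), (1, 2), (2, 0), (2, 1), (2, 3), (2, 4), (3, 2), (3, 4), (3, 5), (4,
      2), (4, 3), (4, 5), (5, 3), (5, 4)]
    mix := [(0, 0), (0, 1), (1, 1), (1, 2), (1, 3), (2, 0), (2, 3), (2, 4), (2, 5), (3, 4), (3, 6), (3,
      7), (4, 5), (4, 8), (5, 1), (5, 7), (5, 8), (5, 9)]
    cl := [0, 1, 6, 0, 4, 2, 5, 3, 3, 7]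
    chq := [(2, 4), (2, 5), (4, 2), (5, 2)]
    rng := [(0, 1), (0, 5), (1, 0), (1, 2), (1, 8), (1, 9), (2, 1), (2, 3), (3, 2), (3, 4), (4, 3), (4,
      6), (5, 0), (5, 8), (6, 4), (6, 7), (7, 6), (7, 9), (8, 1), (8, 5), (9, 1), (9, 7)]
    lev := [] }
  links := [[1, 2, 6, 7], [2, 0, 7, 8, 9], [6, 0, 1, 9, 10, 3, 4, 11], [4, 2, 10, 12, 13, 5], [11, 2, 3,
    5, 14], [14, 4, 3, 13, 15, 7]]
  P := {
    a := 6
    N := 16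
    nb := [198, 901, 3675, 13364, 18476, 57496, 2181, 49507, 642, 1286, 4620, 16468, 9224, 36904,
      2224, 8352]
    tri := [(0, 1, 2), (0, 1, 7), (0, 2, 6), (0, 6, 7), (1, 2, 9), (1, 7, 8), (1, 8, 9), (2, 3, 4), (2,
      3, 10), (2, 4, 11), (2, 6, 11), (2, 9, 10), (3, 4, 5), (3, 5, 13), (3, 10, 12), (3, 12, 13),
      (4, 5, 14), (4, 11, 14), (5, 7, 14), (5, 7, 15), (5, 13, 15)]
    fin := [0, 0, 0, 3, 3, 5, 0, 7, 8, 0, 10, 3, 12, 5, 5, 15]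
    chd := [(3, 12), (10, 3)]
    steps := [(0, 1), (0, 2), (0, 6), (0, 9), (3, 4), (3, 11), (5, 13), (5, 14)] }
  rep := [0, 7, 3, 5, 10, 12, 8, 15]

noncomputable def v762 : Cov.CovD where
  P := 3
  N := 5
  pl := [1, 2, 9]
  lev := [⟨[], [], [], [1], [(0, 0, [])]⟩,
    ⟨[], [(0, 0)], [], [1, 6], [(3, 0, [])]⟩,
    ⟨[(0, 1)], [(0, 0), (0, 2), (0, 4), (1, 0), (1, 2), (1, 4)], [(0, 0), (0, 2), (0, 4),
      (2, 4)], [], [(0, 0, []), (3, 0, []), (4, 4, [2]), (5, 2, [4, 5])]⟩,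
    ⟨[(0, 2), (1, 2)], [(2, 0), (2, 2), (2, 3), (2, 4), (2, 5)], [(3, 4), (3, 5), (4, 5)],
      [], [(4, 4, [2]), (6, 5, [2]), (7, 3, [])]⟩,
    ⟨[(0, 2), (1, 2), (2, 3)], [(2, 0), (2, 2), (2, 3), (2, 4), (3, 2), (3, 3), (3, 4), (3,
      5)], [(2, 3)], [], [(5, 2, [4, 5]), (8, 3, [])]⟩,
    ⟨[(2, 3), (2, 4), (3, 4)], [(3, 3), (3, 4), (3, 5), (4, 2), (4, 3)], [(3, 3)], [1, 7],
      [(7, 3, []), (8, 3, [])]⟩]
  Ta := [((0, 1), 0, 1), ((0, 5), 0, 2), ((3, 2), 0, 6), ((3, 4), 0, 4), ((7, 6), 3, 5), ((7, 9),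
    3, 7), ((8, 1), 3, 1), ((8, 5), 3, 2)]
  Tb := [((0, 1, 5), 0, 1, 2), ((1, 0, 2), 1, 0, 6), ((1, 0, 8), 1, 0, 3), ((1, 0, 9), 1, 0, 7),
    ((1, 2, 8), 1, 6, 3), ((1, 2, 9), 1, 6, 7), ((1, 8, 9), 1, 3, 7), ((2, 1, 3), 6, 1, 0),
    ((3, 2, 4), 0, 6, 4), ((4, 3, 6), 4, 0, 5), ((5, 0, 8), 2, 0, 3), ((6, 4, 7), 5, 4, 3),
    ((7, 6, 9), 3, 5, 7), ((8, 1, 5), 3, 1, 2), ((9, 1, 7), 7, 1, 3)]
  Tc := [(2, 4, 5)]
  Td := [((2, 4), (5, 0), 0), ((2, 4), (5, 8), 3), ((2, 5), (5, 0), 0), ((2, 5), (5, 8), 3), ((4,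
    2), (4, 3), 0), ((4, 2), (4, 6), 5), ((5, 2), (6, 4), 4), ((5, 2), (6, 7), 3)]
  G := [[0, 0x2421e121fe1283ce12432121e828fc62, 0xd41d21c14, 0xd12d12c14, 0x41d241dd1486a14],
    [0, 0xe121321e121bc21e1217869213ca4, 0xc5a1c961614, 0xc952c592c18, 0x8d3425d141c87a18],
    [0, 0, 0, 0xd42d82cd42d12cc1, 0xd241541842d141ee41d242dd2416ac1], [0, 0, 0,
    0xc952c592cc952c592cc1, 0xc934254285942dad1c25c594496ac4]]

noncomputable def n762 : Ent := ⟨e762, noF, [], [], [(8, 15, [360035742630636841211993100915356868655746945586763691010789377, 0])]⟩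

def c762 : PLift (Cov.check n762.C.D v762 = true) := ⟨by decide +kernel⟩

def b762 : PLift (entF (fidx ts) 400 762 n762 = true) := ⟨by decide +kernel⟩

theorem g762 : GoodF (fidx ts) 400 762 := GoodF.ofV v762 n762 c762.down b762.down

/-- 458656:660/5 -/
noncomputable def e763 : SCfg where
  D := {
    a := 6
    L := 10
    kp := 7
    inn := [(0, 1), (0, 2), (1, 0), (1, 2), (2, 0), (2, 1), (2, 3), (2, 4), (3, 2), (3, 4), (3, 5), (4,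
      2), (4, 3), (4, 5), (5, 3), (5, 4)]
    mix := [(0, 0), (0, 1), (1, 1), (1, 2), (1, 3), (2, 0), (2, 3), (2, 4), (2, 5), (3, 4), (3, 6), (3,
      7), (4, 5), (4, 8), (5, 2), (5, 7), (5, 8), (5, 9)]
    cl := [0, 2, 5, 0, 1, 4, 6, 3, 3, 7]
    chq := [(1, 4), (4, 1), (4, 6), (6, 4)]
    rng := [(0, 1), (0, 5), (1, 0), (1, 2), (2, 1), (2, 3), (2, 7), (2, 9), (3, 2), (3, 4), (4, 3), (4,
      6), (5, 0), (5, 8), (6, 4), (6, 7), (7, 2), (7, 6), (8, 5), (8, 9), (9, 2), (9, 8)]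
    lev := [] }
  links := [[1, 2, 6, 7], [2, 0, 7, 8, 9], [6, 0, 1, 9, 10, 3, 4, 11], [4, 2, 10, 12, 13, 5], [11, 2, 3,
    5, 14], [14, 4, 3, 13, 8, 15]]
  P := {
    a := 6
    N := 16
    nb := [198, 901, 3675, 13364, 18476, 57624, 2181, 323, 41634, 1286, 4620, 16468, 9224, 4392,
      34864, 16672]
    tri := [(0, 1, 2), (0, 1, 7), (0, 2, 6), (0, 6, 7), (1, 2, 9), (1, 7, 8), (1, 8, 9), (2, 3, 4), (2,
      3, 10), (2, 4, 11), (2, 6, 11), (2, 9, 10), (3, 4, 5), (3, 5, 13), (3, 10, 12), (3, 12, 13),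
      (4, 5, 14), (4, 11, 14), (5, 8, 13), (5, 8, 15), (5, 14, 15)]
    fin := [0, 0, 0, 3, 3, 5, 0, 7, 8, 0, 10, 3, 12, 5, 5, 15]
    chd := [(3, 12), (10, 3)]
    steps := [(0, 1), (0, 2), (0, 6), (0, 9), (3, 4), (3, 11), (5, 13), (5, 14)] }
  rep := [0, 10, 7, 5, 3, 8, 12, 15]

noncomputable def v763 : Cov.CovD where
  P := 3
  N := 5
  pl := [1, 2, 9]
  lev := [⟨[], [], [], [2], [(0, 0, [])]⟩,
    ⟨[], [(0, 0)], [], [2, 5], [(3, 0, [])]⟩,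
    ⟨[(0, 1)], [(0, 0), (0, 1), (0, 4), (1, 0), (1, 1), (1, 4)], [(0, 0), (0, 1), (0, 4),
      (1, 4)], [], [(0, 0, []), (3, 0, []), (4, 1, [4]), (5, 4, [1, 6])]⟩,
    ⟨[(0, 2), (1, 2)], [(2, 0), (2, 1), (2, 3), (2, 4), (2, 6)], [(1, 3), (1, 6), (3, 6)],
      [], [(4, 1, [4]), (6, 6, [4]), (7, 3, [])]⟩,
    ⟨[(0, 2), (1, 2), (2, 3)], [(2, 0), (2, 1), (2, 3), (2, 4), (3, 1), (3, 3), (3, 4), (3,
      6)], [(3, 4)], [], [(5, 4, [1, 6]), (8, 3, [])]⟩,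
    ⟨[(2, 3), (2, 4), (3, 4)], [(3, 1), (3, 3), (3, 6), (4, 3), (4, 4)], [(3, 3)], [5, 7],
      [(7, 3, []), (8, 3, [])]⟩]
  Ta := [((0, 1), 0, 2), ((0, 5), 0, 4), ((3, 2), 0, 5), ((3, 4), 0, 1), ((7, 2), 3, 5), ((7, 6),
    3, 6), ((8, 5), 3, 4), ((8, 9), 3, 7)]
  Tb := [((0, 1, 5), 0, 2, 4), ((1, 0, 2), 2, 0, 5), ((2, 1, 3), 5, 2, 0), ((2, 1, 7), 5, 2, 3),
    ((2, 1, 9), 5, 2, 7), ((2, 3, 7), 5, 0, 3), ((2, 3, 9), 5, 0, 7), ((2, 7, 9), 5, 3, 7),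
    ((3, 2, 4), 0, 5, 1), ((4, 3, 6), 1, 0, 6), ((5, 0, 8), 4, 0, 3), ((6, 4, 7), 6, 1, 3),
    ((7, 2, 6), 3, 5, 6), ((8, 5, 9), 3, 4, 7), ((9, 2, 8), 7, 5, 3)]
  Tc := [(4, 1, 6)]
  Td := [((1, 4), (4, 3), 0), ((1, 4), (4, 6), 6), ((4, 1), (5, 0), 0), ((4, 1), (5, 8), 3), ((4,
    6), (5, 0), 0), ((4, 6), (5, 8), 3), ((6, 4), (6, 4), 1), ((6, 4), (6, 7), 3)]
  G := [[0, 0, 0xd218a4d1c158b12165718ce2, 0x41f12d6df18c14, 0xf12d65f18c12], [0, 0,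
    0xd284d1c4358a9346f3289ce4, 0xf15afe5ed38c14, 0xf1789e5ae578c12], [0,
    0xb1291b1c652716718ac8, 0, 0xb14b1811a3dc5161523d5238cc1, 0xd14d282d2dc276427a21a9ca2],
    [0, 0xa45b4aa3946248b7866b58ac1, 0, 0xa934f1a49cf16856538cc1, 0xd24493829cf16856738ca2]]

noncomputable def n763 : Ent := ⟨e763, noF, [], [], [(7, 15, [360035742630636841211993100915356868655746945586763691010789377, 0])]⟩

def c763 : PLift (Cov.check n763.C.D v763 = true) := ⟨by decide +kernel⟩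

def b763 : PLift (entF (fidx ts) 400 763 n763 = true) := ⟨by decide +kernel⟩

theorem g763 : GoodF (fidx ts) 400 763 := GoodF.ofV v763 n763 c763.down b763.down

/-- 458656:660/6 -/
noncomputable def e764 : SCfg where
  D := {
    a := 6
    L := 10
    kp := 7
    inn := [(0, 1), (0, 2), (1, 0), (1, 2), (2, 0), (2, 1), (2, 3), (2, 4), (3, 2), (3, 4), (3, 5), (4,
      2), (4, 3), (4, 5), (5, 3), (5, 4)]
    mix := [(0, 0), (0, 1), (1, 1), (1, 2), (1, 3), (2, 0), (2, 3), (2, 4), (2, 5), (3, 4), (3, 6), (3,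
      7), (4, 5), (4, 8), (5, 2), (5, 7), (5, 8), (5, 9)]
    cl := [0, 2, 5, 0, 1, 4, 6, 3, 3, 7]
    chq := [(1, 4), (4, 1), (4, 6), (6, 4)]
    rng := [(0, 1), (0, 5), (1, 0), (1, 2), (2, 1), (2, 3), (2, 8), (2, 9), (3, 2), (3, 4), (4, 3), (4,
      6), (5, 0), (5, 8), (6, 4), (6, 7), (7, 6), (7, 9), (8, 2), (8, 5), (9, 2), (9, 7)]
    lev := [] }
  links := [[1, 2, 6, 7], [2, 0, 7, 8, 9], [6, 0, 1, 9, 10, 3, 4, 11], [4, 2, 10, 12, 13, 5], [11, 2, 3,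
    5, 14], [14, 4, 3, 13, 15, 8]]
  P := {
    a := 6
    N := 16
    nb := [198, 901, 3675, 13364, 18476, 57624, 2181, 323, 49826, 1286, 4620, 16468, 9224, 36904,
      2352, 8480]
    tri := [(0, 1, 2), (0, 1, 7), (0, 2, 6), (0, 6, 7), (1, 2, 9), (1, 7, 8), (1, 8, 9), (2, 3, 4), (2,
      3, 10), (2, 4, 11), (2, 6, 11), (2, 9, 10), (3, 4, 5), (3, 5, 13), (3, 10, 12), (3, 12, 13),
      (4, 5, 14), (4, 11, 14), (5, 8, 14), (5, 8, 15), (5, 13, 15)]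
    fin := [0, 0, 0, 3, 3, 5, 0, 7, 8, 0, 10, 3, 12, 5, 5, 15]
    chd := [(3, 12), (10, 3)]
    steps := [(0, 1), (0, 2), (0, 6), (0, 9), (3, 4), (3, 11), (5, 13), (5, 14)] }
  rep := [0, 10, 7, 5, 3, 8, 12, 15]

noncomputable def v764 : Cov.CovD where
  P := 3
  N := 5
  pl := [1, 2, 9]
  lev := [⟨[], [], [], [2], [(0, 0, [])]⟩,
    ⟨[], [(0, 0)], [], [2, 5], [(3, 0, [])]⟩,
    ⟨[(0, 1)], [(0, 0), (0, 1), (0, 4), (1, 0), (1, 1), (1, 4)], [(0, 0), (0, 1), (0, 4),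
      (1, 4)], [], [(0, 0, []), (3, 0, []), (4, 1, [4]), (5, 4, [1, 6])]⟩,
    ⟨[(0, 2), (1, 2)], [(2, 0), (2, 1), (2, 3), (2, 4), (2, 6)], [(1, 3), (1, 6), (3, 6)],
      [], [(4, 1, [4]), (6, 6, [4]), (7, 3, [])]⟩,
    ⟨[(0, 2), (1, 2), (2, 3)], [(2, 0), (2, 1), (2, 3), (2, 4), (3, 1), (3, 3), (3, 4), (3,
      6)], [(3, 4)], [], [(5, 4, [1, 6]), (8, 3, [])]⟩,
    ⟨[(2, 3), (2, 4), (3, 4)], [(3, 1), (3, 3), (3, 6), (4, 3), (4, 4)], [(3, 3)], [5, 7],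
      [(7, 3, []), (8, 3, [])]⟩]
  Ta := [((0, 1), 0, 2), ((0, 5), 0, 4), ((3, 2), 0, 5), ((3, 4), 0, 1), ((7, 6), 3, 6), ((7, 9),
    3, 7), ((8, 2), 3, 5), ((8, 5), 3, 4)]
  Tb := [((0, 1, 5), 0, 2, 4), ((1, 0, 2), 2, 0, 5), ((2, 1, 3), 5, 2, 0), ((2, 1, 8), 5, 2, 3),
    ((2, 1, 9), 5, 2, 7), ((2, 3, 8), 5, 0, 3), ((2, 3, 9), 5, 0, 7), ((2, 8, 9), 5, 3, 7),
    ((3, 2, 4), 0, 5, 1), ((4, 3, 6), 1, 0, 6), ((5, 0, 8), 4, 0, 3), ((6, 4, 7), 6, 1, 3),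
    ((7, 6, 9), 3, 6, 7), ((8, 2, 5), 3, 5, 4), ((9, 2, 7), 7, 5, 3)]
  Tc := [(4, 1, 6)]
  Td := [((1, 4), (4, 3), 0), ((1, 4), (4, 6), 6), ((4, 1), (5, 0), 0), ((4, 1), (5, 8), 3), ((4,
    6), (5, 0), 0), ((4, 6), (5, 8), 3), ((6, 4), (6, 4), 1), ((6, 4), (6, 7), 3)]
  G := [[0, 0, 0x71d2584b24d1a1cc1231718ca6, 0xf14f1822dadc18, 0xf12d65f18c12], [0, 0,
    0xd1c2948c53488b36856738c6c, 0xed346f3789e9c18, 0xfd34f16bce9c18], [0,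
    0xb1294b1c67127151cac4, 0, 0xb21235923a1cc41712d6d718cc1, 0xd24d282d2dc71471389ca2], [0,
    0x8a1d2a4a39c664772742c3bcac8, 0, 0xa934b1a49cf164956538cc1, 0xdc344d3829c6f34653249ca2]]

noncomputable def n764 : Ent := ⟨e764, noF, [], [], [(7, 15, [360035742630636841211993100915356868655746945586763691010781185, 0])]⟩

def c764 : PLift (Cov.check n764.C.D v764 = true) := ⟨by decide +kernel⟩

def b764 : PLift (entF (fidx ts) 400 764 n764 = true) := ⟨by decide +kernel⟩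

theorem g764 : GoodF (fidx ts) 400 764 := GoodF.ofV v764 n764 c764.down b764.down

/-- 458656:660 -/
noncomputable def e765 : SCfg where
  D := {
    a := 6
    L := 11
    kp := 8
    inn := [(0, 1), (0, 2), (1, 0), (1, 2), (2, 0), (2, 1), (2, 3), (2, 4), (3, 2), (3, 4), (3, 5), (4,
      2), (4, 3), (4, 5), (5, 3), (5, 4)]
    mix := [(0, 0), (0, 1), (1, 1), (1, 2), (1, 3), (2, 0), (2, 3), (2, 4), (2, 5), (3, 4), (3, 6), (3,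
      7), (4, 5), (4, 8), (5, 7), (5, 8), (5, 9), (5, 10)]
    cl := [0, 2, 6, 0, 1, 4, 5, 3, 3, 7, 8]
    chq := [(1, 4), (4, 1), (4, 5), (5, 4)]
    rng := [(0, 1), (0, 5), (1, 0), (1, 2), (2, 1), (2, 3), (3, 2), (3, 4), (4, 3), (4, 6), (5, 0), (5,
      8), (6, 4), (6, 7), (7, 6), (7, 9), (8, 5), (8, 10), (9, 7), (9, 10), (10, 8), (10, 9)]
    lev := [] }
  links := [[1, 2, 6, 7], [2, 0, 7, 8, 9], [6, 0, 1, 9, 10, 3, 4, 11], [4, 2, 10, 12, 13, 5], [11, 2, 3,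
    5, 14], [14, 4, 3, 13, 15, 16]]
  P := {
    a := 6
    N := 17
    nb := [198, 901, 3675, 13364, 18476, 122904, 2181, 323, 642, 1286, 4620, 16468, 9224, 36904,
      67632, 73760, 49184]
    tri := [(0, 1, 2), (0, 1, 7), (0, 2, 6), (0, 6, 7), (1, 2, 9), (1, 7, 8), (1, 8, 9), (2, 3, 4), (2,
      3, 10), (2, 4, 11), (2, 6, 11), (2, 9, 10), (3, 4, 5), (3, 5, 13), (3, 10, 12), (3, 12, 13),
      (4, 5, 14), (4, 11, 14), (5, 13, 15), (5, 14, 16), (5, 15, 16)]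
    fin := [0, 0, 0, 3, 3, 5, 0, 7, 8, 0, 10, 3, 12, 5, 5, 15, 16]
    chd := [(3, 12), (10, 3)]
    steps := [(0, 1), (0, 2), (0, 6), (0, 9), (3, 4), (3, 11), (5, 13), (5, 14)] }
  rep := [0, 10, 7, 5, 3, 12, 8, 15, 16]

noncomputable def v765 : Cov.CovD where
  P := 3
  N := 6
  pl := [1, 2, 9, 10]
  lev := [⟨[], [], [], [2], [(0, 0, [])]⟩,
    ⟨[], [(0, 0)], [], [2, 6], [(3, 0, [])]⟩,
    ⟨[(0, 1)], [(0, 0), (0, 1), (0, 4), (1, 0), (1, 1), (1, 4)], [(0, 0), (0, 1), (0, 4),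
      (1, 4)], [], [(0, 0, []), (3, 0, []), (4, 1, [4]), (5, 4, [1, 5])]⟩,
    ⟨[(0, 2), (1, 2)], [(2, 0), (2, 1), (2, 3), (2, 4), (2, 5)], [(1, 3), (1, 5), (3, 5)],
      [], [(4, 1, [4]), (6, 5, [4]), (7, 3, [])]⟩,
    ⟨[(0, 2), (1, 2), (2, 3)], [(2, 0), (2, 1), (2, 3), (2, 4), (3, 1), (3, 3), (3, 4), (3,
      5)], [(3, 4)], [], [(5, 4, [1, 5]), (8, 3, [])]⟩,
    ⟨[(2, 3), (2, 4), (3, 4)], [(3, 1), (3, 3), (3, 5), (4, 3), (4, 4)], [(3, 3)], [7, 8],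
      [(7, 3, []), (8, 3, [])]⟩]
  Ta := [((0, 1), 0, 2), ((0, 5), 0, 4), ((3, 2), 0, 6), ((3, 4), 0, 1), ((7, 6), 3, 5), ((7, 9),
    3, 7), ((8, 5), 3, 4), ((8, 10), 3, 8)]
  Tb := [((0, 1, 5), 0, 2, 4), ((1, 0, 2), 2, 0, 6), ((2, 1, 3), 6, 2, 0), ((3, 2, 4), 0, 6, 1),
    ((4, 3, 6), 1, 0, 5), ((5, 0, 8), 4, 0, 3), ((6, 4, 7), 5, 1, 3), ((7, 6, 9), 3, 5, 7),
    ((8, 5, 10), 3, 4, 8), ((9, 7, 10), 7, 3, 8), ((10, 8, 9), 8, 3, 7)]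
  Tc := [(4, 1, 5)]
  Td := [((1, 4), (4, 3), 0), ((1, 4), (4, 6), 5), ((4, 1), (5, 0), 0), ((4, 1), (5, 8), 3), ((4,
    5), (5, 0), 0), ((4, 5), (5, 8), 3), ((5, 4), (6, 4), 1), ((5, 4), (6, 7), 3)]
  G := [[0, 0, 0x42d231e5df18cf14f12da9c62, 0xd234f1822dadc18, 0xf1b465f18c12], [0, 0,
    0x2cf7842edb4868fb42cf78ce2, 0xff346d34b8e9c18, 0xff34f14bce9c18], [0,
    0xf12f1f1c6f1f16f18ac1, 0, 0xf15235f18281dc42d23963dd238cc1,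
    0xf142fa82d23dcf13c65f18ca1], [0, 0x624afdafd2b46688ff226cbf8ac1, 0,
    0xef346d3a869cf16ca5ef38cc1, 0xef34f1ac69c6e9b4a4f78ca1]]

noncomputable def n765 : Ent := ⟨e765, noF, [], [], [(7, 15, [1685356702439545624007900436039642273970977273354372543760003203073, 0]), (7, 16, [1580044410770988437309982408355971841652082177953823432505692233729, 0]), (8, 15, [1685356702439545624007900436039642273970977273354372543760003215361, 0]), (8, 16, [1580044410770988437309982408355971841652082177953823432505692241921, 0])]⟩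

def c765 : PLift (Cov.check n765.C.D v765 = true) := ⟨by decide +kernel⟩

def b765 : PLift (entF (fidx ts) 400 765 n765 = true) := ⟨by decide +kernel⟩

theorem g765 : GoodF (fidx ts) 400 765 := GoodF.ofV v765 n765 c765.down b765.down

/-- 458665:662 -/
noncomputable def e766 : SCfg where
  D := {
    a := 6
    L := 11
    kp := 8
    inn := [(0, 1), (0, 2), (1, 0), (1, 2), (2, 0), (2, 1), (2, 3), (2, 4), (2, 5), (3, 2), (3, 4), (4,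
      2), (4, 3), (4, 5), (5, 2), (5, 4)]
    mix := [(0, 0), (0, 1), (1, 1), (1, 2), (1, 3), (2, 0), (2, 3), (2, 4), (3, 4), (3, 5), (3, 6), (3,
      7), (4, 7), (4, 8), (4, 9), (5, 0), (5, 9), (5, 10)]
    cl := [0, 2, 5, 0, 1, 6, 7, 1, 4, 3, 8]
    chq := [(0, 3), (0, 4), (3, 0), (4, 0)]
    rng := [(0, 1), (0, 10), (1, 0), (1, 2), (2, 1), (2, 3), (3, 2), (3, 4), (4, 3), (4, 5), (5, 4),
      (5, 6), (6, 5), (6, 7), (7, 6), (7, 8), (8, 7), (8, 9), (9, 8), (9, 10), (10, 0), (10, 9)]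
    lev := [] }
  links := [[1, 2, 6, 7], [2, 0, 7, 8, 9], [6, 0, 1, 9, 10, 3, 4, 5], [4, 2, 10, 11, 12, 13], [5, 2, 3,
    13, 14, 15], [6, 2, 4, 15, 16]]
  P := {
    a := 6
    N := 17
    nb := [198, 901, 1659, 15380, 57388, 98388, 65701, 323, 642, 1286, 2572, 5128, 10248, 20504,
      40976, 81968, 32864]
    tri := [(0, 1, 2), (0, 1, 7), (0, 2, 6), (0, 6, 7), (1, 2, 9), (1, 7, 8), (1, 8, 9), (2, 3, 4), (2,
      3, 10), (2, 4, 5), (2, 5, 6), (2, 9, 10), (3, 4, 13), (3, 10, 11), (3, 11, 12), (3, 12, 13),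
      (4, 5, 15), (4, 13, 14), (4, 14, 15), (5, 6, 16), (5, 15, 16)]
    fin := [0, 0, 0, 3, 0, 0, 0, 7, 8, 0, 3, 11, 12, 3, 14, 15, 16]
    chd := [(0, 14), (0, 15)]
    steps := [(0, 1), (0, 2), (0, 4), (0, 5), (0, 6), (0, 9), (3, 10), (3, 13)] }
  rep := [0, 3, 7, 15, 14, 8, 11, 12, 16]

noncomputable def v766 : Cov.CovD where
  P := 3
  N := 6
  pl := [1, 2, 5, 6, 10]
  lev := [⟨[], [], [], [2], [(0, 0, [3, 4])]⟩,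
    ⟨[], [(0, 0)], [], [2, 5], [(3, 0, [3, 4])]⟩,
    ⟨[(0, 1)], [(0, 0), (0, 1), (1, 0), (1, 1)], [(0, 0), (0, 1)], [], [(0, 0, [3, 4]), (3,
      0, [3, 4]), (4, 1, [])]⟩,
    ⟨[(0, 2), (1, 2)], [(2, 0), (2, 1)], [(1, 1)], [6, 7], [(4, 1, []), (7, 1, [])]⟩,
    ⟨[(0, 2), (1, 2), (2, 3)], [(2, 0), (2, 1), (2, 3), (2, 4), (3, 1), (3, 3), (3, 4)],
      [(1, 3), (1, 4), (3, 4)], [], [(7, 1, []), (8, 4, [0]), (9, 3, [0])]⟩,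
    ⟨[(0, 2), (1, 2), (2, 3), (2, 4), (3, 4)], [(0, 0), (2, 0), (2, 1), (2, 3), (4, 0), (4,
      1), (4, 3), (4, 4)], [(0, 3)], [8], [(0, 0, [3, 4]), (9, 3, [0])]⟩]
  Ta := [((0, 1), 0, 2), ((0, 10), 0, 8), ((3, 2), 0, 5), ((3, 4), 0, 1), ((4, 3), 1, 0), ((4,
    5), 1, 6), ((7, 6), 1, 7), ((7, 8), 1, 4)]
  Tb := [((0, 1, 10), 0, 2, 8), ((1, 0, 2), 2, 0, 5), ((2, 1, 3), 5, 2, 0), ((3, 2, 4), 0, 5, 1),
    ((4, 3, 5), 1, 0, 6), ((5, 4, 6), 6, 1, 7), ((6, 5, 7), 7, 6, 1), ((7, 6, 8), 1, 7, 4),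
    ((8, 7, 9), 4, 1, 3), ((9, 8, 10), 3, 4, 8), ((10, 0, 9), 8, 0, 3)]
  Tc := [(0, 3, 4)]
  Td := [((0, 3), (0, 1), 2), ((0, 3), (0, 10), 8), ((0, 3), (3, 2), 5), ((0, 3), (3, 4), 1),
    ((0, 4), (0, 1), 2), ((0, 4), (0, 10), 8), ((0, 4), (3, 2), 5), ((0, 4), (3, 4), 1), ((3,
    0), (9, 8), 4), ((3, 0), (9, 10), 8), ((4, 0), (8, 7), 1), ((4, 0), (8, 9), 3)]
  G := [[0, 0, 0x614e181e1dc414e1a1e1dca2, 0x414e1a1cdebdc18, 0x61e11debd818c12], [0, 0,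
    0x61e1e1d818c61e1e1d818c62, 0x61e176edd818a14, 0xe121abeddc14618], [0,
    0x11a2e1e114e661e1e1e818ac4, 0, 0x61154758411c311ded8ce181883d4a184c5,
    0x414e1a111dedc61e111ded818ca2], [0, 0, 0, 0x21215218c1c1ddcdde61e17dedd818ac4,
    0xe121e1dc1ddc56414e1a1abeddca8]]

noncomputable def n766 : Ent := ⟨e766, noF, [], [], []⟩

def c766 : PLift (Cov.check n766.C.D v766 = true) := ⟨by decide +kernel⟩

def b766 : PLift (entF (fidx ts) 400 766 n766 = true) := ⟨by decide +kernel⟩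

theorem g766 : GoodF (fidx ts) 400 766 := GoodF.ofV v766 n766 c766.down b766.down

/-- 458664:664 -/
noncomputable def e767 : SCfg where
  D := {
    a := 6
    L := 10
    kp := 8
    inn := [(0, 1), (0, 2), (1, 0), (1, 2), (2, 0), (2, 1), (2, 3), (2, 4), (3, 2), (3, 4), (3, 5), (4,
      2), (4, 3), (4, 5), (5, 3), (5, 4)]
    mix := [(0, 0), (0, 1), (1, 1), (1, 2), (1, 3), (2, 0), (2, 3), (2, 4), (2, 5), (3, 4), (3, 6), (3,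
      7), (4, 5), (4, 8), (4, 9), (5, 7), (5, 8)]
    cl := [0, 1, 8, 0, 2, 5, 6, 3, 4, 7]
    chq := [(0, 3), (0, 4), (0, 6), (0, 7), (3, 0), (4, 0), (6, 0), (7, 0)]
    rng := [(0, 1), (0, 5), (1, 0), (1, 2), (2, 1), (2, 3), (3, 2), (3, 4), (4, 3), (4, 6), (5, 0), (5,
      9), (6, 4), (6, 7), (7, 6), (7, 8), (8, 7), (8, 9), (9, 5), (9, 8)]
    lev := [] }
  links := [[1, 2, 6, 7], [2, 0, 7, 8, 9], [6, 0, 1, 9, 10, 3, 4, 11], [4, 2, 10, 12, 13, 5], [11, 2, 3,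
    5, 14, 15], [14, 4, 3, 13]]
  P := {
    a := 6
    N := 16
    nb := [198, 901, 3675, 13364, 51244, 24600, 2181, 323, 642, 1286, 4620, 32852, 9224, 20520, 41008,
      18448]
    tri := [(0, 1, 2), (0, 1, 7), (0, 2, 6), (0, 6, 7), (1, 2, 9), (1, 7, 8), (1, 8, 9), (2, 3, 4), (2,
      3, 10), (2, 4, 11), (2, 6, 11), (2, 9, 10), (3, 4, 5), (3, 5, 13), (3, 10, 12), (3, 12, 13),
      (4, 5, 14), (4, 11, 15), (4, 14, 15), (5, 13, 14)]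
    fin := [0, 0, 0, 0, 0, 0, 0, 7, 8, 0, 10, 11, 12, 13, 14, 15]
    chd := [(0, 12), (0, 13), (0, 14), (0, 15)]
    steps := [(0, 1), (0, 2), (0, 3), (0, 4), (0, 5), (0, 6), (0, 9)] }
  rep := [0, 7, 10, 13, 14, 11, 12, 15, 8]

noncomputable def v767 : Cov.CovD where
  P := 3
  N := 6
  pl := [1, 2, 4, 5]
  lev := [⟨[], [], [], [1], [(0, 0, [3, 4, 6, 7])]⟩,
    ⟨[], [(0, 0)], [], [1, 8], [(3, 0, [3, 4, 6, 7])]⟩,
    ⟨[(0, 1)], [(0, 0), (1, 0)], [(0, 0)], [2, 5], [(0, 0, [3, 4, 6, 7]), (3, 0, [3, 4, 6,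
      7])]⟩,
    ⟨[(0, 2), (1, 2)], [(2, 0), (2, 3), (2, 6)], [(3, 6)], [2], [(6, 6, [0]), (7, 3, [0])]⟩,
    ⟨[(0, 2), (1, 2), (2, 3)], [(2, 0), (2, 4), (2, 7), (3, 3), (3, 4), (3, 6), (3, 7)],
      [(4, 7)], [5], [(8, 4, [0]), (9, 7, [0])]⟩,
    ⟨[(2, 3), (2, 4), (3, 4)], [(3, 3), (3, 4), (3, 6), (4, 3), (4, 4), (4, 7)], [(3, 4)],
      [], [(7, 3, [0]), (8, 4, [0])]⟩]
  Ta := [((0, 1), 0, 1), ((0, 5), 0, 5), ((3, 2), 0, 8), ((3, 4), 0, 2)]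
  Tb := [((0, 1, 5), 0, 1, 5), ((1, 0, 2), 1, 0, 8), ((2, 1, 3), 8, 1, 0), ((3, 2, 4), 0, 8, 2),
    ((4, 3, 6), 2, 0, 6), ((5, 0, 9), 5, 0, 7), ((6, 4, 7), 6, 2, 3), ((7, 6, 8), 3, 6, 4),
    ((8, 7, 9), 4, 3, 7), ((9, 5, 8), 7, 5, 4)]
  Tc := [(0, 3, 4), (0, 3, 6), (0, 3, 7), (0, 4, 6), (0, 4, 7), (0, 6, 7)]
  Td := [((0, 3), (0, 1), 1), ((0, 3), (0, 5), 5), ((0, 3), (3, 2), 8), ((0, 3), (3, 4), 2), ((0,
    4), (0, 1), 1), ((0, 4), (0, 5), 5), ((0, 4), (3, 2), 8), ((0, 4), (3, 4), 2), ((0, 6),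
    (0, 1), 1), ((0, 6), (0, 5), 5), ((0, 6), (3, 2), 8), ((0, 6), (3, 4), 2), ((0, 7), (0,
    1), 1), ((0, 7), (0, 5), 5), ((0, 7), (3, 2), 8), ((0, 7), (3, 4), 2), ((3, 0), (7, 6),
    6), ((3, 0), (7, 8), 4), ((4, 0), (8, 7), 3), ((4, 0), (8, 9), 7), ((6, 0), (6, 4), 2),
    ((6, 0), (6, 7), 3), ((7, 0), (9, 5), 5), ((7, 0), (9, 8), 4)]
  G := [[0, 0xe11e11ce11e11ca4, 0, 0x414819133e7dc15132eb981c, 0x312155edb819145e7ba14], [0, 0,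
    0x111111e111111e611116118111111eec8, 0x2e3142e314414819134dcde118e1185132a98dc,
    0x214e5345e71a214e5345e71a315898191aad4]]

noncomputable def n767 : Ent := ⟨e767, noF, [], [], []⟩

def c767 : PLift (Cov.check n767.C.D v767 = true) := ⟨by decide +kernel⟩

def b767 : PLift (entF (fidx ts) 400 767 n767 = true) := ⟨by decide +kernel⟩

theorem g767 : GoodF (fidx ts) 400 767 := GoodF.ofV v767 n767 c767.down b767.down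

/-- 484644:665/1 -/
noncomputable def e768 : SCfg where
  D := {
    a := 6
    L := 9
    kp := 6
    inn := [(0, 1), (1, 0), (1, 2), (1, 3), (2, 1), (3, 1), (3, 4), (3, 5), (4, 3), (5, 3)]
    mix := [(0, 0), (0, 1), (0, 2), (1, 0), (1, 2), (1, 3), (1, 4), (1, 5), (2, 3), (2, 4), (2, 6), (3,
      4), (3, 5), (3, 7), (4, 4), (4, 6), (4, 7), (5, 5), (5, 7), (5, 8)]
    cl := [1, 5, 2, 1, 0, 0, 4, 3, 6]
    chq := [(0, 3), (3, 0)]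
    rng := [(0, 1), (0, 5), (1, 0), (1, 2), (2, 1), (2, 3), (3, 2), (3, 6), (4, 6), (5, 0), (5, 8), (6,
      3), (6, 4), (6, 7), (7, 6), (7, 8), (8, 5), (8, 7)]
    lev := [] }
  links := [[1, 6, 7, 8], [6, 0, 8, 9, 2, 10, 3, 11], [10, 1, 9, 12], [11, 1, 10, 4, 13, 5], [13, 3, 10,
    12], [11, 3, 13, 14]]
  P := {
    a := 6
    N := 15
    nb := [450, 3917, 5634, 11314, 13320, 26632, 2179, 321, 643, 4358, 4126, 16490, 9748, 20536,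
      10272]
    tri := [(0, 1, 6), (0, 1, 8), (0, 6, 7), (0, 7, 8), (1, 2, 9), (1, 2, 10), (1, 3, 10), (1, 3, 11),
      (1, 6, 11), (1, 8, 9), (2, 9, 12), (2, 10, 12), (3, 4, 10), (3, 4, 13), (3, 5, 11), (3, 5,
      13), (4, 10, 12), (4, 12, 13), (5, 11, 14), (5, 13, 14)]
    fin := [0, 0, 0, 3, 4, 3, 0, 7, 8, 0, 3, 3, 4, 13, 14]
    chd := [(3, 13)]
    steps := [(0, 1), (0, 2), (0, 6), (0, 9), (3, 5), (3, 10), (3, 11), (4, 12)] }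
  rep := [3, 0, 8, 13, 4, 7, 14]

noncomputable def v768 : Cov.CovD where
  P := 3
  N := 4
  pl := [1, 2, 6, 8]
  lev := [⟨[], [], [], [2, 5], [(0, 1, [])]⟩,
    ⟨[], [(0, 0), (0, 1)], [(0, 0), (0, 1), (1, 1)], [2], [(0, 1, []), (3, 1, []), (4, 0,
      [3]), (5, 0, [3])]⟩,
    ⟨[(0, 1)], [(1, 0), (1, 1)], [(0, 1)], [4], [(3, 1, []), (4, 0, [3])]⟩,
    ⟨[(0, 1), (1, 2)], [(1, 0), (1, 1), (1, 3), (2, 0)], [(0, 0), (0, 3)], [], [(4, 0,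
      [3]), (5, 0, [3]), (7, 3, [0])]⟩,
    ⟨[(1, 3)], [(1, 0), (2, 0), (3, 0), (3, 3)], [(0, 3)], [4], [(4, 0, [3]), (7, 3, [0])]⟩,
    ⟨[(1, 3), (3, 4)], [(1, 0), (3, 0), (3, 3), (4, 3)], [(0, 3)], [6], [(5, 0, [3]), (7,
      3, [0])]⟩]
  Ta := [((0, 1), 1, 5), ((0, 5), 1, 0), ((3, 2), 1, 2), ((3, 6), 1, 4), ((4, 6), 0, 4), ((5, 0),
    0, 1), ((5, 8), 0, 6)]
  Tb := [((0, 1, 5), 1, 5, 0), ((1, 0, 2), 5, 1, 2), ((2, 1, 3), 2, 5, 1), ((3, 2, 6), 1, 2, 4),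
    ((5, 0, 8), 0, 1, 6), ((6, 3, 4), 4, 1, 0), ((6, 3, 7), 4, 1, 3), ((6, 4, 7), 4, 0, 3),
    ((7, 6, 8), 3, 4, 6), ((8, 5, 7), 6, 0, 3)]
  Tc := []
  Td := [((0, 3), (4, 6), 4), ((0, 3), (5, 0), 1), ((0, 3), (5, 8), 6), ((3, 0), (7, 6), 4), ((3,
    0), (7, 8), 6)]
  G := [[0, 0, 0xc9c5262811cd2628c, 0, 0x116e1262811cd26289], [0, 0, 0x5892c14616ac42,
    0xb8126c412ac4c812612b4cc89, 0x18a1a634526c82], [0, 0x48961ac161aa4e144e18e12acc,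
    0xc1c23a2462e181e28c, 0, 0xc1c23628c1c236289], [0, 0, 0xc1242bac1625ac42,
    0x4c2e82ac2e14426c86e82e189, 0xc8e16a45a16c82]]

noncomputable def n768 : Ent := ⟨e768, noF, [], [], []⟩

def c768 : PLift (Cov.check n768.C.D v768 = true) := ⟨by decide +kernel⟩

def b768 : PLift (entF (fidx ts) 400 768 n768 = true) := ⟨by decide +kernel⟩

theorem g768 : GoodF (fidx ts) 400 768 := GoodF.ofV v768 n768 c768.down b768.down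

/-- 484644:665 -/
noncomputable def e769 : SCfg where
  D := {
    a := 6
    L := 10
    kp := 7
    inn := [(0, 1), (1, 0), (1, 2), (1, 3), (2, 1), (3, 1), (3, 4), (3, 5), (4, 3), (5, 3)]
    mix := [(0, 0), (0, 1), (0, 2), (1, 0), (1, 2), (1, 3), (1, 4), (1, 5), (2, 3), (2, 4), (2, 6), (3,
      4), (3, 5), (3, 7), (4, 4), (4, 7), (4, 8), (5, 5), (5, 7), (5, 9)]
    cl := [1, 4, 2, 1, 0, 0, 5, 3, 6, 7]
    chq := [(0, 3), (3, 0)]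
    rng := [(0, 1), (0, 5), (1, 0), (1, 2), (2, 1), (2, 3), (3, 2), (3, 6), (4, 6), (4, 8), (5, 0), (5,
      9), (6, 3), (6, 4), (7, 8), (7, 9), (8, 4), (8, 7), (9, 5), (9, 7)]
    lev := [] }
  links := [[1, 6, 7, 8], [6, 0, 8, 9, 2, 10, 3, 11], [10, 1, 9, 12], [11, 1, 10, 4, 13, 5], [13, 3, 10,
    14], [11, 3, 13, 15]]
  P := {
    a := 6
    N := 16
    nb := [450, 3917, 5634, 11314, 25608, 43016, 2179, 321, 643, 4358, 20510, 32874, 1540, 49208,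
      9232, 10272]
    tri := [(0, 1, 6), (0, 1, 8), (0, 6, 7), (0, 7, 8), (1, 2, 9), (1, 2, 10), (1, 3, 10), (1, 3, 11),
      (1, 6, 11), (1, 8, 9), (2, 9, 12), (2, 10, 12), (3, 4, 10), (3, 4, 13), (3, 5, 11), (3, 5,
      13), (4, 10, 14), (4, 13, 14), (5, 11, 15), (5, 13, 15)]
    fin := [0, 0, 0, 3, 3, 3, 0, 7, 8, 0, 3, 3, 12, 13, 14, 15]
    chd := [(3, 13)]
    steps := [(0, 1), (0, 2), (0, 6), (0, 9), (3, 4), (3, 5), (3, 10), (3, 11)] }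
  rep := [3, 0, 8, 13, 7, 12, 14, 15]

noncomputable def v769 : Cov.CovD where
  P := 3
  N := 5
  pl := [1, 2, 6, 8, 9]
  lev := [⟨[], [], [], [2, 4], [(0, 1, [])]⟩,
    ⟨[], [(0, 0), (0, 1)], [(0, 0), (0, 1), (1, 1)], [2], [(0, 1, []), (3, 1, []), (4, 0,
      [3]), (5, 0, [3])]⟩,
    ⟨[(0, 1)], [(1, 0), (1, 1)], [(0, 1)], [5], [(3, 1, []), (4, 0, [3])]⟩,
    ⟨[(0, 1), (1, 2)], [(1, 0), (1, 1), (1, 3), (2, 0)], [(0, 0), (0, 3)], [], [(4, 0,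
      [3]), (5, 0, [3]), (7, 3, [0])]⟩,
    ⟨[(1, 3)], [(1, 0), (2, 0), (3, 0), (3, 3)], [(0, 3)], [6], [(4, 0, [3]), (7, 3, [0])]⟩,
    ⟨[(1, 3), (3, 4)], [(1, 0), (3, 0), (3, 3), (4, 3)], [(0, 3)], [7], [(5, 0, [3]), (7,
      3, [0])]⟩]
  Ta := [((0, 1), 1, 4), ((0, 5), 1, 0), ((3, 2), 1, 2), ((3, 6), 1, 5), ((4, 6), 0, 5), ((4, 8),
    0, 6), ((5, 0), 0, 1), ((5, 9), 0, 7)]
  Tb := [((0, 1, 5), 1, 4, 0), ((1, 0, 2), 4, 1, 2), ((2, 1, 3), 2, 4, 1), ((3, 2, 6), 1, 2, 5),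
    ((4, 6, 8), 0, 5, 6), ((5, 0, 9), 0, 1, 7), ((6, 3, 4), 5, 1, 0), ((7, 8, 9), 3, 6, 7),
    ((8, 4, 7), 6, 0, 3), ((9, 5, 7), 7, 0, 3)]
  Tc := []
  Td := [((0, 3), (4, 6), 5), ((0, 3), (4, 8), 6), ((0, 3), (5, 0), 1), ((0, 3), (5, 9), 7), ((3,
    0), (7, 8), 6), ((3, 0), (7, 9), 7)]
  G := [[0, 0, 0x31c696a2413ca9a628c, 0, 0x19ca5a62813c95a6289], [0, 0, 0x13ca9a6435c196a8c2,
    0x93c15a611cada6c811c6d6a5c8e116ac45, 0xc1c1da6c3c19a6c82], [0,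
    0xc161ac161a64c161ac161aa4c, 0xc16c27a24c16c27a24c, 0, 0xc1ac2b628aa4da16289], [0, 0,
    0xe1241a1644c8ccd82, 0x82a416cae864ea1c426ca6ea48ee185, 0xe14e1422a8aad82]]

noncomputable def n769 : Ent := ⟨e769, noF, [], [], [(12, 14, [385746751338780685620664494392815470296102193487288376375640065, 0])]⟩

def c769 : PLift (Cov.check n769.C.D v769 = true) := ⟨by decide +kernel⟩

def b769 : PLift (entF (fidx ts) 400 769 n769 = true) := ⟨by decide +kernel⟩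

theorem g769 : GoodF (fidx ts) 400 769 := GoodF.ofV v769 n769 c769.down b769.down

/-- 458644:667/1 -/
noncomputable def e770 : SCfg where
  D := {
    a := 6
    L := 9
    kp := 6
    inn := [(0, 1), (0, 2), (1, 0), (1, 2), (2, 0), (2, 1), (2, 3), (2, 4), (3, 2), (3, 5), (4, 2), (5,
      3)]
    mix := [(0, 0), (0, 1), (1, 1), (1, 2), (1, 3), (2, 0), (2, 3), (2, 4), (2, 5), (3, 4), (3, 5), (3,
      6), (3, 7), (4, 0), (4, 5), (4, 8), (5, 2), (5, 4), (5, 6)]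
    cl := [0, 3, 2, 0, 1, 1, 4, 5, 6]
    chq := [(2, 5), (5, 2)]
    rng := [(0, 1), (0, 8), (1, 0), (1, 2), (2, 1), (2, 3), (2, 4), (2, 6), (3, 2), (3, 4), (4, 2), (4,
      3), (5, 7), (5, 8), (6, 2), (6, 7), (7, 5), (7, 6), (8, 0), (8, 5)]
    lev := [] }
  links := [[1, 2, 6, 7], [2, 0, 7, 8, 9], [6, 0, 1, 9, 10, 3, 11, 4], [11, 2, 10, 5, 12, 13], [6, 2, 11,
    14], [12, 3, 10, 8]]
  P := {
    a := 6
    N := 15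
    nb := [198, 901, 3675, 15396, 18500, 5384, 16533, 323, 5794, 1286, 812, 24604, 8488, 6152, 2128]
    tri := [(0, 1, 2), (0, 1, 7), (0, 2, 6), (0, 6, 7), (1, 2, 9), (1, 7, 8), (1, 8, 9), (2, 3, 10),
      (2, 3, 11), (2, 4, 6), (2, 4, 11), (2, 9, 10), (3, 5, 10), (3, 5, 12), (3, 11, 13), (3, 12,
      13), (4, 6, 14), (4, 11, 14), (5, 8, 10), (5, 8, 12)]
    fin := [0, 0, 2, 3, 0, 3, 0, 7, 3, 0, 2, 2, 12, 13, 14]
    chd := [(3, 13)]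
    steps := [(0, 1), (0, 6), (0, 4), (0, 9), (2, 10), (2, 11), (3, 5), (3, 8)] }
  rep := [0, 2, 3, 7, 12, 13, 14]

noncomputable def v770 : Cov.CovD where
  P := 3
  N := 4
  pl := [1, 6, 8]
  lev := [⟨[], [], [], [3], [(0, 0, [])]⟩,
    ⟨[], [(0, 0), (0, 2)], [(0, 2)], [3], [(2, 2, [5]), (3, 0, [])]⟩,
    ⟨[(0, 1)], [(0, 0), (0, 1), (1, 0), (1, 1), (1, 2)], [(0, 0), (0, 1), (1, 1)], [], [(0,
      0, []), (3, 0, []), (4, 1, []), (5, 1, [])]⟩,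
    ⟨[(0, 2), (1, 2)], [(2, 0), (2, 1), (2, 5)], [(1, 1), (1, 5)], [4], [(4, 1, []), (5, 1,
      []), (7, 5, [2])]⟩,
    ⟨[(0, 2), (1, 2), (2, 3)], [(0, 0), (2, 0), (2, 1), (3, 1)], [(0, 1)], [6], [(0, 0,
      []), (5, 1, [])]⟩,
    ⟨[(2, 3)], [(1, 2), (2, 1), (3, 1), (3, 2), (3, 5)], [(1, 2)], [4], [(2, 2, [5]), (4,
      1, [])]⟩]
  Ta := [((0, 1), 0, 3), ((0, 8), 0, 6), ((3, 2), 0, 2), ((3, 4), 0, 1), ((4, 2), 1, 2), ((4, 3),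
    1, 0), ((5, 7), 1, 5), ((5, 8), 1, 6)]
  Tb := [((0, 1, 8), 0, 3, 6), ((1, 0, 2), 3, 0, 2), ((2, 1, 3), 2, 3, 0), ((2, 1, 4), 2, 3, 1),
    ((2, 1, 6), 2, 3, 4), ((2, 3, 4), 2, 0, 1), ((2, 3, 6), 2, 0, 4), ((2, 4, 6), 2, 1, 4),
    ((3, 2, 4), 0, 2, 1), ((4, 2, 3), 1, 2, 0), ((5, 7, 8), 1, 5, 6), ((6, 2, 7), 4, 2, 5),
    ((7, 5, 6), 5, 1, 4), ((8, 0, 5), 6, 0, 1)]
  Tc := []
  Td := [((2, 5), (2, 1), 3), ((2, 5), (2, 3), 0), ((2, 5), (2, 4), 1), ((2, 5), (2, 6), 4), ((5,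
    2), (7, 5), 1), ((5, 2), (7, 6), 4)]
  G := [[0, 0, 0, 0x42482129c42482129c92, 0x829212d48129282d81c], [0, 0, 0, 0,
    0x1492c28cd188c129c11c588c8c26], [0, 0x88c44cccce28446446cc6e84c, 0xc214c21861,
    0x42115818c42482119cc2, 0x829212d48129212d82a], [0, 0, 0xa1144a1182a, 0,
    0x812111d48219121d82a]]

noncomputable def n770 : Ent := ⟨e770, noF, [], [], []⟩

def c770 : PLift (Cov.check n770.C.D v770 = true) := ⟨by decide +kernel⟩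

def b770 : PLift (entF (fidx ts) 400 770 n770 = true) := ⟨by decide +kernel⟩

theorem g770 : GoodF (fidx ts) 400 770 := GoodF.ofV v770 n770 c770.down b770.down

/-- 458644:667 -/
noncomputable def e771 : SCfg where
  D := {
    a := 6
    L := 10
    kp := 7
    inn := [(0, 1), (0, 2), (1, 0), (1, 2), (2, 0), (2, 1), (2, 3), (2, 4), (3, 2), (3, 5), (4, 2), (5,
      3)]
    mix := [(0, 0), (0, 1), (1, 1), (1, 2), (1, 3), (2, 0), (2, 3), (2, 4), (2, 5), (3, 4), (3, 5), (3,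
      6), (3, 7), (4, 0), (4, 5), (4, 8), (5, 4), (5, 6), (5, 9)]
    cl := [1, 2, 4, 1, 0, 0, 3, 5, 6, 7]
    chq := [(0, 3), (3, 0)]
    rng := [(0, 1), (0, 8), (1, 0), (1, 2), (2, 1), (2, 3), (3, 2), (3, 4), (4, 3), (4, 9), (5, 7), (5,
      8), (6, 7), (6, 9), (7, 5), (7, 6), (8, 0), (8, 5), (9, 4), (9, 6)]
    lev := [] }
  links := [[1, 2, 6, 7], [2, 0, 7, 8, 9], [6, 0, 1, 9, 10, 3, 11, 4], [11, 2, 10, 5, 12, 13], [6, 2, 11,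
    14], [12, 3, 10, 15]]
  P := {
    a := 6
    N := 16
    nb := [198, 901, 3675, 15396, 18500, 37896, 16533, 323, 642, 1286, 33324, 24604, 41000, 6152,
      2128, 5152]
    tri := [(0, 1, 2), (0, 1, 7), (0, 2, 6), (0, 6, 7), (1, 2, 9), (1, 7, 8), (1, 8, 9), (2, 3, 10),
      (2, 3, 11), (2, 4, 6), (2, 4, 11), (2, 9, 10), (3, 5, 10), (3, 5, 12), (3, 11, 13), (3, 12,
      13), (4, 6, 14), (4, 11, 14), (5, 10, 15), (5, 12, 15)]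
    fin := [0, 0, 0, 3, 0, 3, 0, 7, 8, 0, 3, 3, 12, 13, 14, 15]
    chd := [(3, 12)]
    steps := [(0, 1), (0, 2), (0, 4), (0, 6), (0, 9), (3, 5), (3, 10), (3, 11)] }
  rep := [3, 0, 7, 12, 8, 13, 14, 15]

noncomputable def v771 : Cov.CovD where
  P := 3
  N := 5
  pl := [1, 2, 7, 8, 9]
  lev := [⟨[], [], [], [2], [(0, 1, [])]⟩,
    ⟨[], [(0, 1)], [], [2, 4], [(3, 1, [])]⟩,
    ⟨[(0, 1)], [(0, 0), (0, 1), (1, 0), (1, 1)], [(0, 0), (0, 1), (1, 1)], [], [(0, 1, []),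
      (3, 1, []), (4, 0, [3]), (5, 0, [3])]⟩,
    ⟨[(0, 2), (1, 2)], [(2, 0), (2, 1), (2, 3)], [(0, 0), (0, 3)], [5], [(4, 0, [3]), (5,
      0, [3]), (6, 3, [0])]⟩,
    ⟨[(0, 2), (1, 2), (2, 3)], [(0, 1), (2, 0), (2, 1), (3, 0)], [(0, 1)], [6], [(0, 1,
      []), (5, 0, [3])]⟩,
    ⟨[(2, 3)], [(2, 0), (3, 0), (3, 3)], [(0, 3)], [7], [(4, 0, [3]), (6, 3, [0])]⟩]
  Ta := [((0, 1), 1, 2), ((0, 8), 1, 6), ((3, 2), 1, 4), ((3, 4), 1, 0), ((4, 3), 0, 1), ((4, 9),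
    0, 7), ((5, 7), 0, 5), ((5, 8), 0, 6)]
  Tb := [((0, 1, 8), 1, 2, 6), ((1, 0, 2), 2, 1, 4), ((2, 1, 3), 4, 2, 1), ((3, 2, 4), 1, 4, 0),
    ((4, 3, 9), 0, 1, 7), ((5, 7, 8), 0, 5, 6), ((6, 7, 9), 3, 5, 7), ((7, 5, 6), 5, 0, 3),
    ((8, 0, 5), 6, 1, 0), ((9, 4, 6), 7, 0, 3)]
  Tc := []
  Td := [((0, 3), (4, 3), 1), ((0, 3), (4, 9), 7), ((0, 3), (5, 7), 5), ((0, 3), (5, 8), 6), ((3,
    0), (6, 7), 5), ((3, 0), (6, 9), 7)]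
  G := [[0, 0, 0xe14e1e1ac24, 0xe1e16e18ce14e1e1ac94, 0xe1e16e18c28], [0,
    0xee6ee66eea8ceecee66eea8ac4, 0xe24e1e2ac4e2e26e18c8c, 0, 0x414e1a1e1ece14e1e1ac92], [0,
    0, 0x34e9c1eced88c24, 0x14455c18933cec54e9c112de988cc1, 0x54439c9853cec21], [0, 0,
    0x52326928c325292e8c4, 0, 0x529232e4329252e498]]

noncomputable def n771 : Ent := ⟨e771, noF, [], [], [(8, 15, [360035742630636841211993100915356868655746945586763691010826241, 0])]⟩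

def c771 : PLift (Cov.check n771.C.D v771 = true) := ⟨by decide +kernel⟩

def b771 : PLift (entF (fidx ts) 400 771 n771 = true) := ⟨by decide +kernel⟩

theorem g771 : GoodF (fidx ts) 400 771 := GoodF.ofV v771 n771 c771.down b771.down

/-- 458644:669/1 -/
noncomputable def e772 : SCfg where
  D := {
    a := 6
    L := 9
    kp := 6
    inn := [(0, 1), (0, 2), (1, 0), (1, 2), (2, 0), (2, 1), (2, 3), (2, 4), (3, 2), (3, 5), (4, 2), (5,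
      3)]
    mix := [(0, 0), (0, 1), (1, 1), (1, 2), (1, 3), (2, 0), (2, 3), (2, 4), (2, 5), (3, 4), (3, 5), (3,
      6), (3, 7), (4, 0), (4, 5), (4, 8), (5, 1), (5, 6), (5, 7)]
    cl := [0, 2, 5, 0, 1, 1, 3, 4, 6]
    chq := [(1, 2), (2, 1)]
    rng := [(0, 1), (0, 8), (1, 0), (1, 2), (1, 6), (1, 7), (2, 1), (2, 3), (3, 2), (3, 4), (4, 3), (4,
      6), (5, 7), (5, 8), (6, 1), (6, 4), (7, 1), (7, 5), (8, 0), (8, 5)]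
    lev := [] }
  links := [[1, 2, 6, 7], [2, 0, 7, 8, 9], [6, 0, 1, 9, 10, 3, 11, 4], [11, 2, 10, 12, 5, 13], [6, 2, 11,
    14], [13, 3, 12, 7]]
  P := {
    a := 6
    N := 15
    nb := [198, 901, 3675, 15396, 18500, 12424, 16533, 12643, 642, 1286, 4620, 24604, 1192, 2216,
      2128]
    tri := [(0, 1, 2), (0, 1, 7), (0, 2, 6), (0, 6, 7), (1, 2, 9), (1, 7, 8), (1, 8, 9), (2, 3, 10),
      (2, 3, 11), (2, 4, 6), (2, 4, 11), (2, 9, 10), (3, 5, 12), (3, 5, 13), (3, 10, 12), (3, 11,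
      13), (4, 6, 14), (4, 11, 14), (5, 7, 12), (5, 7, 13)]
    fin := [0, 0, 2, 3, 0, 3, 0, 3, 8, 0, 2, 2, 12, 13, 14]
    chd := [(3, 2)]
    steps := [(0, 1), (0, 6), (0, 4), (0, 9), (2, 10), (2, 11), (3, 5), (3, 7)] }
  rep := [0, 2, 3, 12, 13, 8, 14]

noncomputable def v772 : Cov.CovD where
  P := 3
  N := 4
  pl := [2, 6, 7, 8]
  lev := [⟨[], [], [(0, 2)], [], [(0, 0, []), (1, 2, [1])]⟩,
    ⟨[], [(0, 0), (0, 2)], [(0, 2)], [5], [(1, 2, [1]), (3, 0, [])]⟩,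
    ⟨[(0, 1)], [(0, 0), (0, 1), (0, 2), (1, 0), (1, 1), (1, 2)], [(0, 0), (0, 1), (1, 1)],
      [], [(0, 0, []), (3, 0, []), (4, 1, [2]), (5, 1, [2])]⟩,
    ⟨[(0, 2), (1, 2)], [(2, 0), (2, 1)], [(1, 1)], [3, 4], [(4, 1, [2]), (5, 1, [2])]⟩,
    ⟨[(0, 2), (1, 2), (2, 3)], [(0, 0), (2, 0), (2, 1), (3, 1)], [(0, 1)], [6], [(0, 0,
      []), (5, 1, [2])]⟩,
    ⟨[(2, 3)], [(0, 2), (1, 2), (3, 1), (3, 2)], [], [3, 4], [(1, 2, [1])]⟩]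
  Ta := [((0, 1), 0, 2), ((0, 8), 0, 6), ((3, 2), 0, 5), ((3, 4), 0, 1), ((4, 3), 1, 0), ((4, 6),
    1, 3), ((5, 7), 1, 4), ((5, 8), 1, 6)]
  Tb := [((0, 1, 8), 0, 2, 6), ((1, 0, 2), 2, 0, 5), ((1, 0, 6), 2, 0, 3), ((1, 0, 7), 2, 0, 4),
    ((1, 2, 6), 2, 5, 3), ((1, 2, 7), 2, 5, 4), ((1, 6, 7), 2, 3, 4), ((2, 1, 3), 5, 2, 0),
    ((3, 2, 4), 0, 5, 1), ((4, 3, 6), 1, 0, 3), ((5, 7, 8), 1, 4, 6), ((6, 1, 4), 3, 2, 1),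
    ((7, 1, 5), 4, 2, 1), ((8, 0, 5), 6, 0, 1)]
  Tc := []
  Td := [((1, 2), (4, 3), 0), ((1, 2), (4, 6), 3), ((1, 2), (5, 7), 4), ((1, 2), (5, 8), 6), ((2,
    1), (1, 0), 0), ((2, 1), (1, 2), 5), ((2, 1), (1, 6), 3), ((2, 1), (1, 7), 4)]
  G := [[0, 0, 0xe214e218c2, 0x42125828c24, 0x22a212d418], [0, 0, 0xeec18eec1864, 0x822212d418,
    0x22c488c11c9c12], [0, 0x11a11a11ae4116146116e8c1, 0, 0x42482129c21,
    0x22a111d4822212d4a8], [0, 0, 0, 0x41125818c28, 0x812111d4812111d4a8]]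

noncomputable def n772 : Ent := ⟨e772, noF, [], [], []⟩

def c772 : PLift (Cov.check n772.C.D v772 = true) := ⟨by decide +kernel⟩

def b772 : PLift (entF (fidx ts) 400 772 n772 = true) := ⟨by decide +kernel⟩

theorem g772 : GoodF (fidx ts) 400 772 := GoodF.ofV v772 n772 c772.down b772.down

/-- 458644:669/2 -/
noncomputable def e773 : SCfg where
  D := {
    a := 6
    L := 9
    kp := 6
    inn := [(0, 1), (0, 2), (1, 0), (1, 2), (2, 0), (2, 1), (2, 3), (2, 4), (3, 2), (3, 5), (4, 2), (5,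
      3)]
    mix := [(0, 0), (0, 1), (1, 1), (1, 2), (1, 3), (2, 0), (2, 3), (2, 4), (2, 5), (3, 4), (3, 5), (3,
      6), (3, 7), (4, 0), (4, 5), (4, 8), (5, 2), (5, 6), (5, 7)]
    cl := [0, 2, 3, 0, 1, 1, 4, 5, 6]
    chq := [(1, 3), (3, 1)]
    rng := [(0, 1), (0, 8), (1, 0), (1, 2), (2, 1), (2, 3), (2, 6), (2, 7), (3, 2), (3, 4), (4, 3), (4,
      6), (5, 7), (5, 8), (6, 2), (6, 4), (7, 2), (7, 5), (8, 0), (8, 5)]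
    lev := [] }
  links := [[1, 2, 6, 7], [2, 0, 7, 8, 9], [6, 0, 1, 9, 10, 3, 11, 4], [11, 2, 10, 12, 5, 13], [6, 2, 11,
    14], [13, 3, 12, 8]]
  P := {
    a := 6
    N := 15
    nb := [198, 901, 3675, 15396, 18500, 12552, 16533, 323, 12962, 1286, 4620, 24604, 1320, 2344,
      2128]
    tri := [(0, 1, 2), (0, 1, 7), (0, 2, 6), (0, 6, 7), (1, 2, 9), (1, 7, 8), (1, 8, 9), (2, 3, 10),
      (2, 3, 11), (2, 4, 6), (2, 4, 11), (2, 9, 10), (3, 5, 12), (3, 5, 13), (3, 10, 12), (3, 11,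
      13), (4, 6, 14), (4, 11, 14), (5, 8, 12), (5, 8, 13)]
    fin := [0, 0, 2, 3, 0, 3, 0, 7, 3, 0, 2, 2, 12, 13, 14]
    chd := [(3, 2)]
    steps := [(0, 1), (0, 6), (0, 4), (0, 9), (2, 10), (2, 11), (3, 5), (3, 8)] }
  rep := [0, 2, 7, 3, 12, 13, 14]

noncomputable def v773 : Cov.CovD where
  P := 3
  N := 4
  pl := [1, 6, 7, 8]
  lev := [⟨[], [], [], [2], [(0, 0, [])]⟩,
    ⟨[], [(0, 0), (0, 3)], [(0, 3)], [2], [(2, 3, [1]), (3, 0, [])]⟩,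
    ⟨[(0, 1)], [(0, 0), (0, 1), (1, 0), (1, 1), (1, 3)], [(0, 0), (0, 1), (1, 1)], [], [(0,
      0, []), (3, 0, []), (4, 1, [3]), (5, 1, [3])]⟩,
    ⟨[(0, 2), (1, 2)], [(2, 0), (2, 1)], [(1, 1)], [4, 5], [(4, 1, [3]), (5, 1, [3])]⟩,
    ⟨[(0, 2), (1, 2), (2, 3)], [(0, 0), (2, 0), (2, 1), (3, 1)], [(0, 1)], [6], [(0, 0,
      []), (5, 1, [3])]⟩,
    ⟨[(2, 3)], [(1, 3), (3, 1), (3, 3)], [], [4, 5], [(2, 3, [1])]⟩]
  Ta := [((0, 1), 0, 2), ((0, 8), 0, 6), ((3, 2), 0, 3), ((3, 4), 0, 1), ((4, 3), 1, 0), ((4, 6),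
    1, 4), ((5, 7), 1, 5), ((5, 8), 1, 6)]
  Tb := [((0, 1, 8), 0, 2, 6), ((1, 0, 2), 2, 0, 3), ((2, 1, 3), 3, 2, 0), ((2, 1, 6), 3, 2, 4),
    ((2, 1, 7), 3, 2, 5), ((2, 3, 6), 3, 0, 4), ((2, 3, 7), 3, 0, 5), ((2, 6, 7), 3, 4, 5),
    ((3, 2, 4), 0, 3, 1), ((4, 3, 6), 1, 0, 4), ((5, 7, 8), 1, 5, 6), ((6, 2, 4), 4, 3, 1),
    ((7, 2, 5), 5, 3, 1), ((8, 0, 5), 6, 0, 1)]
  Tc := []
  Td := [((1, 3), (4, 3), 0), ((1, 3), (4, 6), 4), ((1, 3), (5, 7), 5), ((1, 3), (5, 8), 6), ((3,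
    1), (2, 1), 2), ((3, 1), (2, 3), 0), ((3, 1), (2, 6), 4), ((3, 1), (2, 7), 5)]
  G := [[0, 0, 0x4248a22212d468, 0xe22212d418, 0x62125a28c18], [0, 0, 0x246ec11cda8a8c24,
    0x6446aca811cdc18, 0xeec11c522c8c12], [0, 0x88a11c11ce211644a11ce2c1, 0,
    0x21481119c214232d8c4, 0x62325a28c28], [0, 0, 0, 0x812111d441215318cc8, 0x614a1319c28]]

noncomputable def n773 : Ent := ⟨e773, noF, [], [], []⟩

def c773 : PLift (Cov.check n773.C.D v773 = true) := ⟨by decide +kernel⟩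

def b773 : PLift (entF (fidx ts) 400 773 n773 = true) := ⟨by decide +kernel⟩

theorem g773 : GoodF (fidx ts) 400 773 := GoodF.ofV v773 n773 c773.down b773.down

/-- 458644:669 -/
noncomputable def e774 : SCfg where
  D := {
    a := 6
    L := 10
    kp := 7
    inn := [(0, 1), (0, 2), (1, 0), (1, 2), (2, 0), (2, 1), (2, 3), (2, 4), (3, 2), (3, 5), (4, 2), (5,
      3)]
    mix := [(0, 0), (0, 1), (1, 1), (1, 2), (1, 3), (2, 0), (2, 3), (2, 4), (2, 5), (3, 4), (3, 5), (3,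
      6), (3, 7), (4, 0), (4, 5), (4, 8), (5, 6), (5, 7), (5, 9)]
    cl := [0, 2, 6, 0, 1, 1, 3, 4, 7, 5]
    chq := [(1, 5), (5, 1)]
    rng := [(0, 1), (0, 8), (1, 0), (1, 2), (2, 1), (2, 3), (3, 2), (3, 4), (4, 3), (4, 6), (5, 7), (5,
      8), (6, 4), (6, 9), (7, 5), (7, 9), (8, 0), (8, 5), (9, 6), (9, 7)]
    lev := [] }
  links := [[1, 2, 6, 7], [2, 0, 7, 8, 9], [6, 0, 1, 9, 10, 3, 11, 4], [11, 2, 10, 12, 5, 13], [6, 2, 11,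
    14], [13, 3, 12, 15]]
  P := {
    a := 6
    N := 16
    nb := [198, 901, 3675, 15396, 18500, 45064, 16533, 323, 642, 1286, 4620, 24604, 33832, 34856,
      2128, 12320]
    tri := [(0, 1, 2), (0, 1, 7), (0, 2, 6), (0, 6, 7), (1, 2, 9), (1, 7, 8), (1, 8, 9), (2, 3, 10),
      (2, 3, 11), (2, 4, 6), (2, 4, 11), (2, 9, 10), (3, 5, 12), (3, 5, 13), (3, 10, 12), (3, 11,
      13), (4, 6, 14), (4, 11, 14), (5, 12, 15), (5, 13, 15)]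
    fin := [0, 0, 0, 3, 0, 3, 0, 7, 8, 0, 3, 3, 12, 13, 14, 15]
    chd := [(3, 15)]
    steps := [(0, 1), (0, 2), (0, 4), (0, 6), (0, 9), (3, 5), (3, 10), (3, 11)] }
  rep := [0, 3, 7, 12, 13, 15, 8, 14]

noncomputable def v774 : Cov.CovD where
  P := 3
  N := 5
  pl := [1, 2, 6, 7, 8]
  lev := [⟨[], [], [], [2], [(0, 0, [])]⟩,
    ⟨[], [(0, 0)], [], [2, 6], [(3, 0, [])]⟩,
    ⟨[(0, 1)], [(0, 0), (0, 1), (1, 0), (1, 1)], [(0, 0), (0, 1), (1, 1)], [], [(0, 0, []),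
      (3, 0, []), (4, 1, [5]), (5, 1, [5])]⟩,
    ⟨[(0, 2), (1, 2)], [(2, 0), (2, 1)], [(1, 1)], [3, 4], [(4, 1, [5]), (5, 1, [5])]⟩,
    ⟨[(0, 2), (1, 2), (2, 3)], [(0, 0), (2, 0), (2, 1), (3, 1)], [(0, 1)], [7], [(0, 0,
      []), (5, 1, [5])]⟩,
    ⟨[(2, 3)], [(3, 1), (3, 5)], [], [3, 4], [(9, 5, [1])]⟩]
  Ta := [((0, 1), 0, 2), ((0, 8), 0, 7), ((3, 2), 0, 6), ((3, 4), 0, 1), ((4, 3), 1, 0), ((4, 6),
    1, 3), ((5, 7), 1, 4), ((5, 8), 1, 7)]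
  Tb := [((0, 1, 8), 0, 2, 7), ((1, 0, 2), 2, 0, 6), ((2, 1, 3), 6, 2, 0), ((3, 2, 4), 0, 6, 1),
    ((4, 3, 6), 1, 0, 3), ((5, 7, 8), 1, 4, 7), ((6, 4, 9), 3, 1, 5), ((7, 5, 9), 4, 1, 5),
    ((8, 0, 5), 7, 0, 1), ((9, 6, 7), 5, 3, 4)]
  Tc := []
  Td := [((1, 5), (4, 3), 0), ((1, 5), (4, 6), 3), ((1, 5), (5, 7), 4), ((1, 5), (5, 8), 7), ((5,
    1), (9, 6), 3), ((5, 1), (9, 7), 4)]
  G := [[0, 0, 0x624a2329c22e2b2d8a4, 0x62325a28c18, 0xe22272d418], [0, 0,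
    0x644eac2873cdc246ec3bcda88cc2, 0x246ec3bcda88c14, 0x244eec2877cdc12], [0,
    0x11c11a11ce211611a11ce2c8, 0, 0xe22272d462315a28cc8, 0xe12171d462325a18ca8], [0, 0, 0,
    0xe12171d4614a1319cc8, 0xe12171d4e12171d4a2]]

noncomputable def n774 : Ent := ⟨e774, noF, [], [], [(7, 15, [360035742630636841211993100915356868655746945586763691010834433, 0]), (8, 15, [360035742630636841211993100915356868655746945586763691010838529, 0])]⟩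

def c774 : PLift (Cov.check n774.C.D v774 = true) := ⟨by decide +kernel⟩

def b774 : PLift (entF (fidx ts) 400 774 n774 = true) := ⟨by decide +kernel⟩

theorem g774 : GoodF (fidx ts) 400 774 := GoodF.ofV v774 n774 c774.down b774.down

/-- 458644:670/1 -/
noncomputable def e775 : SCfg where
  D := {
    a := 6
    L := 9
    kp := 6
    inn := [(0, 1), (0, 2), (1, 0), (1, 2), (2, 0), (2, 1), (2, 3), (2, 4), (3, 2), (3, 5), (4, 2), (5,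
      3)]
    mix := [(0, 0), (0, 1), (1, 1), (1, 2), (1, 3), (2, 0), (2, 3), (2, 4), (2, 5), (3, 4), (3, 5), (3,
      6), (3, 7), (4, 0), (4, 5), (4, 8), (5, 5), (5, 7), (5, 8)]
    cl := [1, 2, 5, 1, 0, 0, 6, 3, 4]
    chq := [(0, 3), (3, 0)]
    rng := [(0, 1), (0, 8), (1, 0), (1, 2), (2, 1), (2, 3), (3, 2), (3, 4), (4, 3), (4, 6), (5, 8), (6,
      4), (6, 7), (7, 6), (7, 8), (8, 0), (8, 5), (8, 7)]
    lev := [] }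
  links := [[1, 2, 6, 7], [2, 0, 7, 8, 9], [6, 0, 1, 9, 10, 3, 11, 4], [11, 2, 10, 12, 13, 5], [6, 2, 11,
    14], [11, 3, 13, 14]]
  P := {
    a := 6
    N := 15
    nb := [198, 901, 3675, 15396, 18500, 26632, 16533, 323, 642, 1286, 4620, 16444, 9224, 20520,
      10352]
    tri := [(0, 1, 2), (0, 1, 7), (0, 2, 6), (0, 6, 7), (1, 2, 9), (1, 7, 8), (1, 8, 9), (2, 3, 10),
      (2, 3, 11), (2, 4, 6), (2, 4, 11), (2, 9, 10), (3, 5, 11), (3, 5, 13), (3, 10, 12), (3, 12,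
      13), (4, 6, 14), (4, 11, 14), (5, 11, 14), (5, 13, 14)]
    fin := [0, 0, 0, 3, 0, 3, 0, 7, 8, 0, 3, 3, 12, 13, 14]
    chd := [(3, 13)]
    steps := [(0, 1), (0, 2), (0, 4), (0, 6), (0, 9), (3, 5), (3, 10), (3, 11)] }
  rep := [3, 0, 7, 13, 14, 8, 12]

noncomputable def v775 : Cov.CovD where
  P := 3
  N := 4
  pl := [1, 2, 6, 8]
  lev := [⟨[], [], [], [2], [(0, 1, [])]⟩,
    ⟨[], [(0, 1)], [], [2, 5], [(3, 1, [])]⟩,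
    ⟨[(0, 1)], [(0, 0), (0, 1), (1, 0), (1, 1)], [(0, 0), (0, 1), (1, 1)], [], [(0, 1, []),
      (3, 1, []), (4, 0, [3]), (5, 0, [3])]⟩,
    ⟨[(0, 2), (1, 2)], [(2, 0), (2, 1), (2, 3)], [(0, 0), (0, 3)], [6], [(4, 0, [3]), (5,
      0, [3]), (7, 3, [0])]⟩,
    ⟨[(0, 2), (1, 2), (2, 3)], [(0, 1), (2, 0), (2, 1), (3, 0)], [(0, 1)], [4], [(0, 1,
      []), (5, 0, [3])]⟩,
    ⟨[(2, 3)], [(2, 0), (3, 0), (3, 3), (4, 0)], [(0, 3)], [4], [(5, 0, [3]), (7, 3, [0])]⟩]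
  Ta := [((0, 1), 1, 2), ((0, 8), 1, 4), ((3, 2), 1, 5), ((3, 4), 1, 0), ((4, 3), 0, 1), ((4, 6),
    0, 6), ((5, 8), 0, 4)]
  Tb := [((0, 1, 8), 1, 2, 4), ((1, 0, 2), 2, 1, 5), ((2, 1, 3), 5, 2, 1), ((3, 2, 4), 1, 5, 0),
    ((4, 3, 6), 0, 1, 6), ((6, 4, 7), 6, 0, 3), ((7, 6, 8), 3, 6, 4), ((8, 0, 5), 4, 1, 0),
    ((8, 0, 7), 4, 1, 3), ((8, 5, 7), 4, 0, 3)]
  Tc := []
  Td := [((0, 3), (4, 3), 1), ((0, 3), (4, 6), 6), ((0, 3), (5, 8), 4), ((3, 0), (7, 6), 6), ((3,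
    0), (7, 8), 4)]
  G := [[0, 0, 0xe14e1e1ac24, 0xe14e121ace1216e18c94, 0x1494e1e1ac21], [0,
    0x11a11a126e418611c11ce2c8, 0x12216328c321221e8c4, 0, 0x321221e412e122e891], [0, 0,
    0x44486ca86acec28, 0x442468828ac64a4c22ce864a8c888cd4, 0xa4ce2c686c8c21], [0, 0,
    0x88844e24e222ac64e222e8cc, 0, 0xe2226e28c44486ca822ec91]]

noncomputable def n775 : Ent := ⟨e775, noF, [], [], []⟩

def c775 : PLift (Cov.check n775.C.D v775 = true) := ⟨by decide +kernel⟩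

def b775 : PLift (entF (fidx ts) 400 775 n775 = true) := ⟨by decide +kernel⟩

theorem g775 : GoodF (fidx ts) 400 775 := GoodF.ofV v775 n775 c775.down b775.down

/-- 458644:670 -/
noncomputable def e776 : SCfg where
  D := {
    a := 6
    L := 10
    kp := 7
    inn := [(0, 1), (0, 2), (1, 0), (1, 2), (2, 0), (2, 1), (2, 3), (2, 4), (3, 2), (3, 5), (4, 2), (5,
      3)]
    mix := [(0, 0), (0, 1), (1, 1), (1, 2), (1, 3), (2, 0), (2, 3), (2, 4), (2, 5), (3, 4), (3, 5), (3,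
      6), (3, 7), (4, 0), (4, 5), (4, 8), (5, 5), (5, 7), (5, 9)]
    cl := [1, 2, 4, 1, 0, 0, 5, 3, 6, 7]
    chq := [(0, 3), (3, 0)]
    rng := [(0, 1), (0, 8), (1, 0), (1, 2), (2, 1), (2, 3), (3, 2), (3, 4), (4, 3), (4, 6), (5, 8), (5,
      9), (6, 4), (6, 7), (7, 6), (7, 9), (8, 0), (8, 5), (9, 5), (9, 7)]
    lev := [] }
  links := [[1, 2, 6, 7], [2, 0, 7, 8, 9], [6, 0, 1, 9, 10, 3, 11, 4], [11, 2, 10, 12, 13, 5], [6, 2, 11,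
    14], [11, 3, 13, 15]]
  P := {
    a := 6
    N := 16
    nb := [198, 901, 3675, 15396, 18500, 43016, 16533, 323, 642, 1286, 4620, 49212, 9224, 36904, 2128,
      10272]
    tri := [(0, 1, 2), (0, 1, 7), (0, 2, 6), (0, 6, 7), (1, 2, 9), (1, 7, 8), (1, 8, 9), (2, 3, 10),
      (2, 3, 11), (2, 4, 6), (2, 4, 11), (2, 9, 10), (3, 5, 11), (3, 5, 13), (3, 10, 12), (3, 12,
      13), (4, 6, 14), (4, 11, 14), (5, 11, 15), (5, 13, 15)]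
    fin := [0, 0, 0, 3, 0, 3, 0, 7, 8, 0, 3, 3, 12, 13, 14, 15]
    chd := [(3, 13)]
    steps := [(0, 1), (0, 2), (0, 4), (0, 6), (0, 9), (3, 5), (3, 10), (3, 11)] }
  rep := [3, 0, 7, 13, 8, 12, 14, 15]

noncomputable def v776 : Cov.CovD where
  P := 3
  N := 5
  pl := [1, 2, 6, 8, 9]
  lev := [⟨[], [], [], [2], [(0, 1, [])]⟩,
    ⟨[], [(0, 1)], [], [2, 4], [(3, 1, [])]⟩,
    ⟨[(0, 1)], [(0, 0), (0, 1), (1, 0), (1, 1)], [(0, 0), (0, 1), (1, 1)], [], [(0, 1, []),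
      (3, 1, []), (4, 0, [3]), (5, 0, [3])]⟩,
    ⟨[(0, 2), (1, 2)], [(2, 0), (2, 1), (2, 3)], [(0, 0), (0, 3)], [5], [(4, 0, [3]), (5,
      0, [3]), (7, 3, [0])]⟩,
    ⟨[(0, 2), (1, 2), (2, 3)], [(0, 1), (2, 0), (2, 1), (3, 0)], [(0, 1)], [6], [(0, 1,
      []), (5, 0, [3])]⟩,
    ⟨[(2, 3)], [(2, 0), (3, 0), (3, 3), (4, 0)], [(0, 3)], [7], [(5, 0, [3]), (7, 3, [0])]⟩]
  Ta := [((0, 1), 1, 2), ((0, 8), 1, 6), ((3, 2), 1, 4), ((3, 4), 1, 0), ((4, 3), 0, 1), ((4, 6),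
    0, 5), ((5, 8), 0, 6), ((5, 9), 0, 7)]
  Tb := [((0, 1, 8), 1, 2, 6), ((1, 0, 2), 2, 1, 4), ((2, 1, 3), 4, 2, 1), ((3, 2, 4), 1, 4, 0),
    ((4, 3, 6), 0, 1, 5), ((5, 8, 9), 0, 6, 7), ((6, 4, 7), 5, 0, 3), ((7, 6, 9), 3, 5, 7),
    ((8, 0, 5), 6, 1, 0), ((9, 5, 7), 7, 0, 3)]
  Tc := []
  Td := [((0, 3), (4, 3), 1), ((0, 3), (4, 6), 5), ((0, 3), (5, 8), 6), ((0, 3), (5, 9), 7), ((3,
    0), (7, 6), 5), ((3, 0), (7, 9), 7)]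
  G := [[0, 0, 0xe14e1e1ac24, 0xe118e1e41448e1e16e18cd8, 0xe1e16e18c28], [0,
    0x116411a11aac11611c116e8c4, 0x12e26e18c12e1d2e8c4, 0, 0x12b2e1e4d21272e491], [0, 0,
    0xe44eeca8eecec248482c, 0xe484eeceec6e88ceec4eeceecacd1, 0xeec4eeceecac21], [0, 0,
    0xe2844e24e2e2ace2e268cc, 0, 0xe2e26e28ce2e26e28c91]]

noncomputable def n776 : Ent := ⟨e776, noF, [], [], [(15, 14, [385746751338780685620664494392815470296102193487288376375668737, 0])]⟩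

def c776 : PLift (Cov.check n776.C.D v776 = true) := ⟨by decide +kernel⟩

def b776 : PLift (entF (fidx ts) 400 776 n776 = true) := ⟨by decide +kernel⟩

theorem g776 : GoodF (fidx ts) 400 776 := GoodF.ofV v776 n776 c776.down b776.down

/-- 458654:672 -/
noncomputable def e777 : SCfg where
  D := {
    a := 6
    L := 11
    kp := 8
    inn := [(0, 1), (0, 2), (1, 0), (1, 2), (2, 0), (2, 1), (2, 3), (2, 4), (3, 2), (3, 5), (4, 2), (5,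
      3)]
    mix := [(0, 0), (0, 1), (1, 1), (1, 2), (1, 3), (2, 0), (2, 3), (2, 4), (2, 5), (3, 4), (3, 5), (3,
      6), (3, 7), (4, 0), (4, 5), (4, 8), (4, 9), (5, 4), (5, 6), (5, 10)]
    cl := [0, 1, 4, 2, 0, 0, 3, 5, 6, 7, 8]
    chq := [(0, 3), (0, 4), (3, 0), (4, 0)]
    rng := [(0, 1), (0, 9), (1, 0), (1, 2), (2, 1), (2, 3), (3, 2), (3, 4), (4, 3), (4, 10), (5, 7),
      (5, 8), (6, 7), (6, 10), (7, 5), (7, 6), (8, 5), (8, 9), (9, 0), (9, 8), (10, 4), (10, 6)]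
    lev := [] }
  links := [[1, 2, 6, 7], [2, 0, 7, 8, 9], [6, 0, 1, 9, 10, 3, 11, 4], [11, 2, 10, 5, 12, 13], [6, 2, 11,
    14, 15], [12, 3, 10, 16]]
  P := {
    a := 6
    N := 17
    nb := [198, 901, 3675, 15396, 51268, 70664, 32917, 323, 642, 1286, 66092, 24604, 73768, 6152,
      34832, 16464, 5152]
    tri := [(0, 1, 2), (0, 1, 7), (0, 2, 6), (0, 6, 7), (1, 2, 9), (1, 7, 8), (1, 8, 9), (2, 3, 10),
      (2, 3, 11), (2, 4, 6), (2, 4, 11), (2, 9, 10), (3, 5, 10), (3, 5, 12), (3, 11, 13), (3, 12,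
      13), (4, 6, 15), (4, 11, 14), (4, 14, 15), (5, 10, 16), (5, 12, 16)]
    fin := [0, 0, 0, 0, 0, 0, 0, 7, 8, 9, 0, 0, 12, 13, 14, 15, 16]
    chd := [(0, 8), (0, 12)]
    steps := [(0, 1), (0, 2), (0, 3), (0, 4), (0, 5), (0, 6), (0, 10), (0, 11)] }
  rep := [0, 7, 9, 12, 8, 13, 14, 15, 16]

noncomputable def v777 : Cov.CovD where
  P := 3
  N := 6
  pl := [1, 3, 7, 8, 9, 10]
  lev := [⟨[], [], [], [1], [(0, 0, [3, 4])]⟩,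
    ⟨[], [(0, 0), (0, 4)], [], [1, 2], [(2, 4, [0])]⟩,
    ⟨[(0, 1)], [(0, 0), (1, 0), (1, 4)], [(0, 0)], [2], [(0, 0, [3, 4]), (4, 0, [3, 4]),
      (5, 0, [3, 4])]⟩,
    ⟨[(0, 2), (1, 2)], [(2, 0), (2, 3)], [(0, 0), (0, 3)], [5], [(4, 0, [3, 4]), (5, 0, [3,
      4]), (6, 3, [0])]⟩,
    ⟨[(0, 2), (1, 2), (2, 3)], [(0, 0), (2, 0), (3, 0)], [(0, 0)], [6, 7], [(0, 0, [3, 4]),
      (5, 0, [3, 4])]⟩,
    ⟨[(2, 3)], [(2, 0), (3, 0), (3, 3)], [(0, 3)], [8], [(4, 0, [3, 4]), (6, 3, [0])]⟩]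
  Ta := [((0, 1), 0, 1), ((0, 9), 0, 7), ((4, 3), 0, 2), ((4, 10), 0, 8), ((5, 7), 0, 5), ((5,
    8), 0, 6)]
  Tb := [((0, 1, 9), 0, 1, 7), ((1, 0, 2), 1, 0, 4), ((2, 1, 3), 4, 1, 2), ((3, 2, 4), 2, 4, 0),
    ((4, 3, 10), 0, 2, 8), ((5, 7, 8), 0, 5, 6), ((6, 7, 10), 3, 5, 8), ((7, 5, 6), 5, 0, 3),
    ((8, 5, 9), 6, 0, 7), ((9, 0, 8), 7, 0, 6), ((10, 4, 6), 8, 0, 3)]
  Tc := [(0, 3, 4)]
  Td := [((0, 3), (0, 1), 1), ((0, 3), (0, 9), 7), ((0, 3), (4, 3), 2), ((0, 3), (4, 10), 8),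
    ((0, 3), (5, 7), 5), ((0, 3), (5, 8), 6), ((0, 4), (0, 1), 1), ((0, 4), (0, 9), 7), ((0,
    4), (4, 3), 2), ((0, 4), (4, 10), 8), ((0, 4), (5, 7), 5), ((0, 4), (5, 8), 6), ((3, 0),
    (6, 7), 5), ((3, 0), (6, 10), 8), ((4, 0), (2, 1), 1), ((4, 0), (2, 3), 2)]
  G := [[0, 0x1164111e18111eec14111e111ee11a8cc2, 0, 0x544599e93a335eec18,
    0x3562593e359e98ea14], [0, 0, 0xe422ea2eeeeeeeec8eeeeee2eeeeeeeecac4,
    0xe4841eeeeeeee6eea8c1c, 0xeeeeeeee6eeee8a14], [0, 0, 0, 0x54199ee33eed5a8c14,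
    0xbb3e1e5e6b19e8a14]]

noncomputable def n777 : Ent := ⟨e777, noF, [], [], []⟩

def c777 : PLift (Cov.check n777.C.D v777 = true) := ⟨by decide +kernel⟩

def b777 : PLift (entF (fidx ts) 400 777 n777 = true) := ⟨by decide +kernel⟩

theorem g777 : GoodF (fidx ts) 400 777 := GoodF.ofV v777 n777 c777.down b777.down

/-- 458654:673/1 -/
noncomputable def e778 : SCfg where
  D := {
    a := 6
    L := 10
    kp := 7
    inn := [(0, 1), (0, 2), (1, 0), (1, 2), (2, 0), (2, 1), (2, 3), (2, 4), (3, 2), (3, 5), (4, 2), (5,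
      3)]
    mix := [(0, 0), (0, 1), (1, 1), (1, 2), (1, 3), (2, 0), (2, 3), (2, 4), (2, 5), (3, 4), (3, 5), (3,
      6), (3, 7), (4, 0), (4, 5), (4, 8), (4, 9), (5, 5), (5, 7), (5, 8)]
    cl := [0, 1, 6, 2, 0, 0, 5, 4, 3, 7]
    chq := [(1, 2), (2, 1), (3, 5), (5, 3)]
    rng := [(0, 1), (0, 9), (1, 0), (1, 2), (2, 1), (2, 3), (3, 2), (3, 4), (4, 3), (4, 6), (5, 8), (6,
      4), (6, 7), (7, 6), (7, 8), (8, 5), (8, 7), (8, 9), (9, 0), (9, 8)]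
    lev := [] }
  links := [[1, 2, 6, 7], [2, 0, 7, 8, 9], [6, 0, 1, 9, 10, 3, 11, 4], [11, 2, 10, 12, 13, 5], [6, 2, 11,
    14, 15], [11, 3, 13, 14]]
  P := {
    a := 6
    N := 16
    nb := [198, 901, 3675, 15396, 51268, 26632, 32917, 323, 642, 1286, 4620, 16444, 9224, 20520,
      43056, 16464]
    tri := [(0, 1, 2), (0, 1, 7), (0, 2, 6), (0, 6, 7), (1, 2, 9), (1, 7, 8), (1, 8, 9), (2, 3, 10),
      (2, 3, 11), (2, 4, 6), (2, 4, 11), (2, 9, 10), (3, 5, 11), (3, 5, 13), (3, 10, 12), (3, 12,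
      13), (4, 6, 15), (4, 11, 14), (4, 14, 15), (5, 11, 14), (5, 13, 14)]
    fin := [0, 1, 0, 3, 0, 3, 0, 1, 8, 9, 0, 0, 3, 13, 14, 15]
    chd := [(1, 9), (3, 14)]
    steps := [(0, 2), (0, 4), (0, 6), (0, 10), (0, 11), (1, 7), (3, 5), (3, 12)] }
  rep := [0, 1, 9, 14, 13, 3, 8, 15]

noncomputable def v778 : Cov.CovD where
  P := 3
  N := 5
  pl := [2, 7, 9]
  lev := [⟨[], [], [(0, 1)], [], [(0, 0, []), (1, 1, [2])]⟩,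
    ⟨[], [(0, 0), (0, 1), (0, 2)], [(1, 2)], [6], [(1, 1, [2]), (3, 2, [1])]⟩,
    ⟨[(0, 1)], [(0, 0), (0, 1), (0, 2), (1, 0), (1, 1), (1, 2)], [(0, 0), (0, 2)], [], [(0,
      0, []), (3, 2, [1]), (4, 0, []), (5, 0, [])]⟩,
    ⟨[(0, 2), (1, 2)], [(2, 0), (2, 2), (2, 5)], [(0, 0), (0, 5)], [4], [(4, 0, []), (5, 0,
      []), (6, 5, [3])]⟩,
    ⟨[(0, 2), (1, 2), (2, 3)], [(0, 0), (2, 0), (2, 2), (2, 3), (3, 0)], [(0, 0), (0, 3)],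
      [7], [(0, 0, []), (5, 0, []), (8, 3, [5])]⟩,
    ⟨[(2, 3)], [(2, 0), (3, 0), (3, 3), (3, 5), (4, 0), (4, 3)], [(0, 3)], [4], [(5, 0,
      []), (8, 3, [5])]⟩]
  Ta := [((0, 1), 0, 1), ((0, 9), 0, 7), ((4, 3), 0, 2), ((4, 6), 0, 5), ((5, 8), 0, 3)]
  Tb := [((0, 1, 9), 0, 1, 7), ((1, 0, 2), 1, 0, 6), ((2, 1, 3), 6, 1, 2), ((3, 2, 4), 2, 6, 0),
    ((4, 3, 6), 0, 2, 5), ((6, 4, 7), 5, 0, 4), ((7, 6, 8), 4, 5, 3), ((8, 5, 7), 3, 0, 4),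
    ((8, 5, 9), 3, 0, 7), ((8, 7, 9), 3, 4, 7), ((9, 0, 8), 7, 0, 3)]
  Tc := []
  Td := [((1, 2), (1, 0), 0), ((1, 2), (1, 2), 6), ((2, 1), (3, 2), 6), ((2, 1), (3, 4), 0), ((3,
    5), (8, 5), 0), ((3, 5), (8, 7), 4), ((3, 5), (8, 9), 7), ((5, 3), (6, 4), 0), ((5, 3),
    (6, 7), 4)]
  G := [[0, 0x5498c483a84c116926683a18ac54941e112ee8cc, 0, 0x444853e11ac12eec144831e13a9c2eec92,
    0x4365266111ea858ea222853e941e11cea94], [0, 0, 0x1c62851e143e98ea111ec966836ec8aac4,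
    0x811e321c2eea4c461252663218a81c94cce98, 0x4161266853ea818ea616912ea1834aeca94], [0, 0,
    0, 0x866eaaacc2ee4446866ea2cc2eea4c4698, 0x866ea4aeccce2c262866ea4aec8ea922288c]]

noncomputable def n778 : Ent := ⟨e778, noF, [], [], []⟩

def c778 : PLift (Cov.check n778.C.D v778 = true) := ⟨by decide +kernel⟩

def b778 : PLift (entF (fidx ts) 400 778 n778 = true) := ⟨by decide +kernel⟩

theorem g778 : GoodF (fidx ts) 400 778 := GoodF.ofV v778 n778 c778.down b778.down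

/-- 458654:673 -/
noncomputable def e779 : SCfg where
  D := {
    a := 6
    L := 11
    kp := 8
    inn := [(0, 1), (0, 2), (1, 0), (1, 2), (2, 0), (2, 1), (2, 3), (2, 4), (3, 2), (3, 5), (4, 2), (5,
      3)]
    mix := [(0, 0), (0, 1), (1, 1), (1, 2), (1, 3), (2, 0), (2, 3), (2, 4), (2, 5), (3, 4), (3, 5), (3,
      6), (3, 7), (4, 0), (4, 5), (4, 8), (4, 9), (5, 5), (5, 7), (5, 10)]
    cl := [0, 1, 6, 2, 0, 0, 4, 3, 7, 8, 5]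
    chq := [(1, 2), (2, 1), (4, 5), (5, 4)]
    rng := [(0, 1), (0, 9), (1, 0), (1, 2), (2, 1), (2, 3), (3, 2), (3, 4), (4, 3), (4, 6), (5, 8), (5,
      10), (6, 4), (6, 7), (7, 6), (7, 10), (8, 5), (8, 9), (9, 0), (9, 8), (10, 5), (10, 7)]
    lev := [] }
  links := [[1, 2, 6, 7], [2, 0, 7, 8, 9], [6, 0, 1, 9, 10, 3, 11, 4], [11, 2, 10, 12, 13, 5], [6, 2, 11,
    14, 15], [11, 3, 13, 16]]
  P := {
    a := 6
    N := 17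
    nb := [198, 901, 3675, 15396, 51268, 75784, 32917, 323, 642, 1286, 4620, 81980, 9224, 69672,
      34832, 16464, 10272]
    tri := [(0, 1, 2), (0, 1, 7), (0, 2, 6), (0, 6, 7), (1, 2, 9), (1, 7, 8), (1, 8, 9), (2, 3, 10),
      (2, 3, 11), (2, 4, 6), (2, 4, 11), (2, 9, 10), (3, 5, 11), (3, 5, 13), (3, 10, 12), (3, 12,
      13), (4, 6, 15), (4, 11, 14), (4, 14, 15), (5, 11, 16), (5, 13, 16)]
    fin := [0, 1, 0, 3, 0, 3, 0, 1, 8, 9, 0, 0, 3, 13, 14, 15, 16]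
    chd := [(1, 9), (3, 16)]
    steps := [(0, 2), (0, 4), (0, 6), (0, 10), (0, 11), (1, 7), (3, 5), (3, 12)] }
  rep := [0, 1, 9, 13, 3, 16, 8, 14, 15]

noncomputable def v779 : Cov.CovD where
  P := 3
  N := 6
  pl := [2, 7, 8, 9]
  lev := [⟨[], [], [(0, 1)], [], [(0, 0, []), (1, 1, [2])]⟩,
    ⟨[], [(0, 0), (0, 1), (0, 2)], [(1, 2)], [6], [(1, 1, [2]), (3, 2, [1])]⟩,
    ⟨[(0, 1)], [(0, 0), (0, 1), (0, 2), (1, 0), (1, 1), (1, 2)], [(0, 0), (0, 2)], [], [(0,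
      0, []), (3, 2, [1]), (4, 0, []), (5, 0, [])]⟩,
    ⟨[(0, 2), (1, 2)], [(2, 0), (2, 2), (2, 4)], [(0, 0), (0, 4)], [3], [(4, 0, []), (5, 0,
      []), (6, 4, [5])]⟩,
    ⟨[(0, 2), (1, 2), (2, 3)], [(0, 0), (2, 0), (2, 2), (3, 0)], [(0, 0)], [7, 8], [(0, 0,
      []), (5, 0, [])]⟩,
    ⟨[(2, 3)], [(2, 0), (3, 0), (3, 4), (3, 5), (4, 0)], [(0, 5)], [3], [(5, 0, []), (10,
      5, [4])]⟩]
  Ta := [((0, 1), 0, 1), ((0, 9), 0, 8), ((4, 3), 0, 2), ((4, 6), 0, 4), ((5, 8), 0, 7), ((5,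
    10), 0, 5)]
  Tb := [((0, 1, 9), 0, 1, 8), ((1, 0, 2), 1, 0, 6), ((2, 1, 3), 6, 1, 2), ((3, 2, 4), 2, 6, 0),
    ((4, 3, 6), 0, 2, 4), ((5, 8, 10), 0, 7, 5), ((6, 4, 7), 4, 0, 3), ((7, 6, 10), 3, 4, 5),
    ((8, 5, 9), 7, 0, 8), ((9, 0, 8), 8, 0, 7), ((10, 5, 7), 5, 0, 3)]
  Tc := []
  Td := [((1, 2), (1, 0), 0), ((1, 2), (1, 2), 6), ((2, 1), (3, 2), 6), ((2, 1), (3, 4), 0), ((4,
    5), (6, 4), 0), ((4, 5), (6, 7), 3), ((5, 4), (10, 5), 0), ((5, 4), (10, 7), 3)]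
  G := [[0, 0x944561e9aa115eec14aa1ec96e56a18acc2, 0, 0x9364151ea851ceec556a99e111ee588cc2,
    0x515e93ae15ce21962b53e9a1e18ea912288c], [0, 0, 0x565ec91ea91ae465562111e3a3ec8eac8,
    0x3212c19ee65c19cca556399e511ee188c54, 0x522131ea13e5ccea656319e591ee188a94], [0, 0, 0,
    0xaa6cc66666ea8c8ecaaaeccce6666e8c92, 0x666eaaaec8e2c22666eaaaecccea9cc62889]]

noncomputable def n779 : Ent := ⟨e779, noF, [], [], [(16, 14, [1580095832788404724998799751142926758855362888449624481876421943297, 0])]⟩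

def c779 : PLift (Cov.check n779.C.D v779 = true) := ⟨by decide +kernel⟩

def b779 : PLift (entF (fidx ts) 400 779 n779 = true) := ⟨by decide +kernel⟩

theorem g779 : GoodF (fidx ts) 400 779 := GoodF.ofV v779 n779 c779.down b779.down

/-- 458664:674/2 -/
noncomputable def e780 : SCfg where
  D := {
    a := 6
    L := 9
    kp := 6
    inn := [(0, 1), (0, 2), (1, 0), (1, 2), (2, 0), (2, 1), (2, 3), (2, 4), (3, 2), (3, 4), (3, 5), (4,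
      2), (4, 3), (5, 3)]
    mix := [(0, 0), (0, 1), (1, 1), (1, 2), (1, 3), (2, 0), (2, 3), (2, 4), (2, 5), (3, 4), (3, 6), (3,
      7), (4, 2), (4, 3), (4, 6), (4, 8), (5, 1), (5, 6), (5, 7)]
    cl := [3, 1, 2, 0, 0, 5, 0, 4, 6]
    chq := [(2, 3), (2, 5), (3, 2), (5, 2)]
    rng := [(0, 1), (0, 5), (1, 0), (1, 2), (1, 6), (1, 7), (2, 1), (2, 3), (2, 8), (3, 2), (4, 5), (4,
      7), (5, 0), (5, 4), (6, 1), (6, 8), (7, 1), (7, 4), (8, 2), (8, 6)]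
    lev := [] }
  links := [[1, 2, 6, 7], [2, 0, 7, 8, 9], [6, 0, 1, 9, 4, 3, 10, 11], [10, 2, 4, 12, 5, 13], [12, 3, 2,
    9, 8, 14], [13, 3, 12, 7]]
  P := {
    a := 6
    N := 15
    nb := [198, 901, 3675, 13364, 21260, 12424, 2181, 12643, 17042, 278, 10252, 1092, 16568, 1192,
      4368]
    tri := [(0, 1, 2), (0, 1, 7), (0, 2, 6), (0, 6, 7), (1, 2, 9), (1, 7, 8), (1, 8, 9), (2, 3, 4), (2,
      3, 10), (2, 4, 9), (2, 6, 11), (2, 10, 11), (3, 4, 12), (3, 5, 12), (3, 5, 13), (3, 10, 13),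
      (4, 8, 9), (4, 8, 14), (4, 12, 14), (5, 7, 12), (5, 7, 13)]
    fin := [0, 1, 1, 3, 3, 5, 0, 5, 1, 3, 3, 11, 3, 13, 14]
    chd := [(0, 1), (1, 11)]
    steps := [(0, 6), (1, 2), (3, 4), (3, 9), (1, 8), (3, 12), (3, 10), (5, 7)] }
  rep := [3, 5, 1, 0, 13, 11, 14]

noncomputable def v780 : Cov.CovD where
  P := 3
  N := 4
  pl := [1, 7, 8]
  lev := [⟨[], [], [], [1], [(0, 3, [2])]⟩,
    ⟨[], [(0, 0), (0, 2), (0, 3)], [(0, 2)], [1], [(2, 2, [3, 5]), (3, 0, [])]⟩,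
    ⟨[(0, 1)], [(0, 0), (0, 3), (0, 5), (1, 0), (1, 2), (1, 3), (1, 5)], [(0, 0), (0, 3),
      (0, 5), (3, 5)], [], [(0, 3, [2]), (3, 0, []), (4, 0, []), (5, 5, [2])]⟩,
    ⟨[(0, 2), (1, 2)], [(2, 0), (2, 3), (2, 5)], [(0, 0)], [4], [(4, 0, []), (6, 0, [])]⟩,
    ⟨[(0, 2), (1, 2), (2, 3)], [(1, 0), (1, 2), (2, 0), (2, 2), (2, 3), (2, 5), (3, 0), (3,
      2)], [(0, 0), (0, 2)], [6], [(2, 2, [3, 5]), (3, 0, []), (6, 0, [])]⟩,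
    ⟨[(2, 3), (3, 4)], [(3, 0), (4, 0)], [], [1, 4], [(6, 0, [])]⟩]
  Ta := [((3, 2), 0, 2), ((4, 5), 0, 5), ((4, 7), 0, 4), ((6, 1), 0, 1), ((6, 8), 0, 6)]
  Tb := [((0, 1, 5), 3, 1, 5), ((1, 0, 2), 1, 3, 2), ((1, 0, 6), 1, 3, 0), ((1, 0, 7), 1, 3, 4),
    ((1, 2, 6), 1, 2, 0), ((1, 2, 7), 1, 2, 4), ((1, 6, 7), 1, 0, 4), ((2, 1, 3), 2, 1, 0),
    ((2, 1, 8), 2, 1, 6), ((2, 3, 8), 2, 0, 6), ((4, 5, 7), 0, 5, 4), ((5, 0, 4), 5, 3, 0),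
    ((6, 1, 8), 0, 1, 6), ((7, 1, 4), 4, 1, 0), ((8, 2, 6), 6, 2, 0)]
  Tc := [(2, 3, 5)]
  Td := [((2, 3), (2, 1), 1), ((2, 3), (2, 3), 0), ((2, 3), (2, 8), 6), ((2, 5), (2, 1), 1), ((2,
    5), (2, 3), 0), ((2, 5), (2, 8), 6), ((3, 2), (0, 1), 1), ((3, 2), (0, 5), 5), ((5, 2),
    (5, 0), 3), ((5, 2), (5, 4), 0)]
  G := [[0, 0, 0x121418e18a11aa81641ace41, 0x11c22411c2285, 0x14a11aa4818a14aa489], [0, 0, 0,
    0x55c2249cc2249, 0x44ac1aa4148a14aa489], [0, 0x22442242c82828c42ccec2, 0,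
    0xccc228ccc221c, 0x48ac4aa4148ac4aa489]]

noncomputable def n780 : Ent := ⟨e780, noF, [], [], []⟩

def c780 : PLift (Cov.check n780.C.D v780 = true) := ⟨by decide +kernel⟩

def b780 : PLift (entF (fidx ts) 400 780 n780 = true) := ⟨by decide +kernel⟩

theorem g780 : GoodF (fidx ts) 400 780 := GoodF.ofV v780 n780 c780.down b780.down

/-- 458664:674/1 -/
noncomputable def e781 : SCfg where
  D := {
    a := 6
    L := 10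
    kp := 7
    inn := [(0, 1), (0, 2), (1, 0), (1, 2), (2, 0), (2, 1), (2, 3), (2, 4), (3, 2), (3, 4), (3, 5), (4,
      2), (4, 3), (5, 3)]
    mix := [(0, 0), (0, 1), (1, 1), (1, 2), (1, 3), (2, 0), (2, 3), (2, 4), (2, 5), (3, 4), (3, 6), (3,
      7), (4, 3), (4, 6), (4, 8), (4, 9), (5, 1), (5, 6), (5, 7)]
    cl := [2, 1, 4, 0, 0, 5, 0, 3, 6, 7]
    chq := [(2, 4), (4, 2), (4, 5), (5, 4)]
    rng := [(0, 1), (0, 5), (1, 0), (1, 2), (1, 6), (1, 7), (2, 1), (2, 3), (3, 2), (3, 8), (4, 5), (4,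
      7), (5, 0), (5, 4), (6, 1), (6, 9), (7, 1), (7, 4), (8, 3), (8, 9), (9, 6), (9, 8)]
    lev := [] }
  links := [[1, 2, 6, 7], [2, 0, 7, 8, 9], [6, 0, 1, 9, 4, 3, 10, 11], [10, 2, 4, 12, 5, 13], [12, 3, 2,
    9, 14, 15], [13, 3, 12, 7]]
  P := {
    a := 6
    N := 16
    nb := [198, 901, 3675, 13364, 53772, 12424, 2181, 12643, 642, 16662, 10252, 1092, 32952, 1192,
      33296, 20496]
    tri := [(0, 1, 2), (0, 1, 7), (0, 2, 6), (0, 6, 7), (1, 2, 9), (1, 7, 8), (1, 8, 9), (2, 3, 4), (2,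
      3, 10), (2, 4, 9), (2, 6, 11), (2, 10, 11), (3, 4, 12), (3, 5, 12), (3, 5, 13), (3, 10, 13),
      (4, 9, 14), (4, 12, 15), (4, 14, 15), (5, 7, 12), (5, 7, 13)]
    fin := [0, 1, 1, 3, 3, 5, 0, 5, 1, 3, 3, 11, 3, 13, 14, 15]
    chd := [(0, 1), (1, 11)]
    steps := [(0, 6), (1, 2), (1, 8), (3, 4), (3, 9), (3, 12), (3, 10), (5, 7)] }
  rep := [3, 5, 0, 13, 1, 11, 14, 15]

noncomputable def v781 : Cov.CovD where
  P := 3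
  N := 5
  pl := [1, 7, 8, 9]
  lev := [⟨[], [], [], [1], [(0, 2, [4])]⟩,
    ⟨[], [(0, 0), (0, 2), (0, 4)], [(0, 4)], [1], [(2, 4, [2, 5]), (3, 0, [])]⟩,
    ⟨[(0, 1)], [(0, 0), (0, 2), (0, 5), (1, 0), (1, 2), (1, 4), (1, 5)], [(0, 0), (0, 2),
      (0, 5), (2, 5)], [], [(0, 2, [4]), (3, 0, []), (4, 0, []), (5, 5, [4])]⟩,
    ⟨[(0, 2), (1, 2)], [(2, 0), (2, 2), (2, 5)], [(0, 0)], [3], [(4, 0, []), (6, 0, [])]⟩,
    ⟨[(0, 2), (1, 2), (2, 3)], [(1, 0), (2, 0), (2, 2), (2, 5), (3, 0)], [(0, 0)], [6, 7],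
      [(3, 0, []), (6, 0, [])]⟩,
    ⟨[(2, 3), (3, 4)], [(3, 0), (4, 0)], [], [1, 3], [(6, 0, [])]⟩]
  Ta := [((3, 2), 0, 4), ((3, 8), 0, 6), ((4, 5), 0, 5), ((4, 7), 0, 3), ((6, 1), 0, 1), ((6, 9),
    0, 7)]
  Tb := [((0, 1, 5), 2, 1, 5), ((1, 0, 2), 1, 2, 4), ((1, 0, 6), 1, 2, 0), ((1, 0, 7), 1, 2, 3),
    ((1, 2, 6), 1, 4, 0), ((1, 2, 7), 1, 4, 3), ((1, 6, 7), 1, 0, 3), ((2, 1, 3), 4, 1, 0),
    ((3, 2, 8), 0, 4, 6), ((4, 5, 7), 0, 5, 3), ((5, 0, 4), 5, 2, 0), ((6, 1, 9), 0, 1, 7),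
    ((7, 1, 4), 3, 1, 0), ((8, 3, 9), 6, 0, 7), ((9, 6, 8), 7, 0, 6)]
  Tc := [(4, 2, 5)]
  Td := [((2, 4), (0, 1), 1), ((2, 4), (0, 5), 5), ((4, 2), (2, 1), 1), ((4, 2), (2, 3), 0), ((4,
    5), (2, 1), 1), ((4, 5), (2, 3), 0), ((5, 4), (5, 0), 2), ((5, 4), (5, 4), 0)]
  G := [[0, 0, 0x188e414ea414116618a48a111e18c6ec8, 0x111e24111e28c1, 0x814e118e612484e11cea41],
    [0, 0, 0x488e141ea188e414ec618, 0x599e241cc9e281c, 0x484e111e648a846c1cea41], [0,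
    0x488e24a42484e228e624a2c2c, 0x484e8c8e688644a84cea14, 0xccce2442cc8e68c1,
    0x484e8c8e6488e42c4cea41]]

noncomputable def n781 : Ent := ⟨e781, noF, [], [], [(8, 14, [385746751338780685620664494392815470296102193487288376375689217, 0])]⟩

def c781 : PLift (Cov.check n781.C.D v781 = true) := ⟨by decide +kernel⟩

def b781 : PLift (entF (fidx ts) 400 781 n781 = true) := ⟨by decide +kernel⟩

theorem g781 : GoodF (fidx ts) 400 781 := GoodF.ofV v781 n781 c781.down b781.down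

/-- 458664:674/3 -/
noncomputable def e782 : SCfg where
  D := {
    a := 6
    L := 10
    kp := 7
    inn := [(0, 1), (0, 2), (1, 0), (1, 2), (2, 0), (2, 1), (2, 3), (2, 4), (3, 2), (3, 4), (3, 5), (4,
      2), (4, 3), (5, 3)]
    mix := [(0, 0), (0, 1), (1, 1), (1, 2), (1, 3), (2, 0), (2, 3), (2, 4), (2, 5), (3, 4), (3, 6), (3,
      7), (4, 2), (4, 3), (4, 6), (4, 8), (5, 6), (5, 7), (5, 9)]
    cl := [3, 4, 1, 0, 0, 5, 0, 2, 6, 7]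
    chq := [(1, 3), (1, 5), (3, 1), (5, 1)]
    rng := [(0, 1), (0, 5), (1, 0), (1, 2), (2, 1), (2, 3), (2, 8), (3, 2), (4, 5), (4, 7), (5, 0), (5,
      4), (6, 8), (6, 9), (7, 4), (7, 9), (8, 2), (8, 6), (9, 6), (9, 7)]
    lev := [] }
  links := [[1, 2, 6, 7], [2, 0, 7, 8, 9], [6, 0, 1, 9, 4, 3, 10, 11], [10, 2, 4, 12, 5, 13], [12, 3, 2,
    9, 8, 14], [13, 3, 12, 15]]
  P := {
    a := 6
    N := 16
    nb := [198, 901, 3675, 13364, 21260, 45064, 2181, 323, 17042, 278, 10252, 1092, 49208, 33832,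
      4368, 12320]
    tri := [(0, 1, 2), (0, 1, 7), (0, 2, 6), (0, 6, 7), (1, 2, 9), (1, 7, 8), (1, 8, 9), (2, 3, 4), (2,
      3, 10), (2, 4, 9), (2, 6, 11), (2, 10, 11), (3, 4, 12), (3, 5, 12), (3, 5, 13), (3, 10, 13),
      (4, 8, 9), (4, 8, 14), (4, 12, 14), (5, 12, 15), (5, 13, 15)]
    fin := [0, 1, 1, 3, 3, 3, 0, 7, 1, 3, 3, 11, 3, 13, 14, 15]
    chd := [(0, 1), (1, 11)]
    steps := [(0, 6), (1, 2), (3, 4), (3, 5), (3, 9), (1, 8), (3, 12), (3, 10)] }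
  rep := [3, 1, 13, 0, 7, 11, 14, 15]

noncomputable def v782 : Cov.CovD where
  P := 3
  N := 5
  pl := [1, 7, 8, 9]
  lev := [⟨[], [], [], [4], [(0, 3, [1])]⟩,
    ⟨[], [(0, 0), (0, 1), (0, 3)], [(0, 1)], [4], [(2, 1, [3, 5]), (3, 0, [])]⟩,
    ⟨[(0, 1)], [(0, 0), (0, 3), (0, 5), (1, 0), (1, 1), (1, 3), (1, 5)], [(0, 0), (0, 3),
      (0, 5), (3, 5)], [], [(0, 3, [1]), (3, 0, []), (4, 0, []), (5, 5, [1])]⟩,
    ⟨[(0, 2), (1, 2)], [(2, 0), (2, 3), (2, 5)], [(0, 0)], [2], [(4, 0, []), (6, 0, [])]⟩,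
    ⟨[(0, 2), (1, 2), (2, 3)], [(1, 0), (1, 1), (2, 0), (2, 1), (2, 3), (2, 5), (3, 0), (3,
      1)], [(0, 0), (0, 1)], [6], [(2, 1, [3, 5]), (3, 0, []), (6, 0, [])]⟩,
    ⟨[(2, 3), (3, 4)], [(3, 0), (4, 0)], [], [2, 7], [(6, 0, [])]⟩]
  Ta := [((3, 2), 0, 1), ((4, 5), 0, 5), ((4, 7), 0, 2), ((6, 8), 0, 6), ((6, 9), 0, 7)]
  Tb := [((0, 1, 5), 3, 4, 5), ((1, 0, 2), 4, 3, 1), ((2, 1, 3), 1, 4, 0), ((2, 1, 8), 1, 4, 6),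
    ((2, 3, 8), 1, 0, 6), ((4, 5, 7), 0, 5, 2), ((5, 0, 4), 5, 3, 0), ((6, 8, 9), 0, 6, 7),
    ((7, 4, 9), 2, 0, 7), ((8, 2, 6), 6, 1, 0), ((9, 6, 7), 7, 0, 2)]
  Tc := [(1, 3, 5)]
  Td := [((1, 3), (2, 1), 4), ((1, 3), (2, 3), 0), ((1, 3), (2, 8), 6), ((1, 5), (2, 1), 4), ((1,
    5), (2, 3), 0), ((1, 5), (2, 8), 6), ((3, 1), (0, 1), 4), ((3, 1), (0, 5), 5), ((5, 1),
    (5, 0), 3), ((5, 1), (5, 4), 0)]
  G := [[0, 0x11a411a81168e116811a411c8e61, 0, 0x11c82811c82411c4211c42cd,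
    0x11c82811c82411c8211c82cd], [0, 0, 0x6ac82866c824c24c28aac4e1e,
    0x11c42811c82412812811c4e1e, 0x11c82811c82412812811c8e1e], [0, 0, 0,
    0x44c8cc28c4c8c24c24c28c4c8ce1e, 0x2ac88a282ac88a24a2848828aac28822ac8ed88228822cf]]

noncomputable def n782 : Ent := ⟨e782, noF, [], [], [(7, 15, [360035742630636841211993100915356868655746945586763691010867201, 0])]⟩

def c782 : PLift (Cov.check n782.C.D v782 = true) := ⟨by decide +kernel⟩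

def b782 : PLift (entF (fidx ts) 400 782 n782 = true) := ⟨by decide +kernel⟩

theorem g782 : GoodF (fidx ts) 400 782 := GoodF.ofV v782 n782 c782.down b782.down

/-- 458664:674 -/
noncomputable def e783 : SCfg where
  D := {
    a := 6
    L := 11
    kp := 8
    inn := [(0, 1), (0, 2), (1, 0), (1, 2), (2, 0), (2, 1), (2, 3), (2, 4), (3, 2), (3, 4), (3, 5), (4,
      2), (4, 3), (5, 3)]
    mix := [(0, 0), (0, 1), (1, 1), (1, 2), (1, 3), (2, 0), (2, 3), (2, 4), (2, 5), (3, 4), (3, 6), (3,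
      7), (4, 3), (4, 6), (4, 8), (4, 9), (5, 6), (5, 7), (5, 10)]
    cl := [3, 1, 2, 0, 0, 5, 0, 4, 6, 7, 8]
    chq := [(2, 3), (2, 5), (3, 2), (5, 2)]
    rng := [(0, 1), (0, 5), (1, 0), (1, 2), (2, 1), (2, 3), (3, 2), (3, 8), (4, 5), (4, 7), (5, 0), (5,
      4), (6, 9), (6, 10), (7, 4), (7, 10), (8, 3), (8, 9), (9, 6), (9, 8), (10, 6), (10, 7)]
    lev := [] }
  links := [[1, 2, 6, 7], [2, 0, 7, 8, 9], [6, 0, 1, 9, 4, 3, 10, 11], [10, 2, 4, 12, 5, 13], [12, 3, 2,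
    9, 14, 15], [13, 3, 12, 16]]
  P := {
    a := 6
    N := 17
    nb := [198, 901, 3675, 13364, 53772, 77832, 2181, 323, 642, 16662, 10252, 1092, 98360, 66600,
      33296, 20496, 12320]
    tri := [(0, 1, 2), (0, 1, 7), (0, 2, 6), (0, 6, 7), (1, 2, 9), (1, 7, 8), (1, 8, 9), (2, 3, 4), (2,
      3, 10), (2, 4, 9), (2, 6, 11), (2, 10, 11), (3, 4, 12), (3, 5, 12), (3, 5, 13), (3, 10, 13),
      (4, 9, 14), (4, 12, 15), (4, 14, 15), (5, 12, 16), (5, 13, 16)]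
    fin := [0, 1, 1, 3, 3, 3, 0, 7, 1, 3, 3, 11, 3, 13, 14, 15, 16]
    chd := [(0, 1), (1, 11)]
    steps := [(0, 6), (1, 2), (1, 8), (3, 4), (3, 5), (3, 9), (3, 12), (3, 10)] }
  rep := [3, 7, 1, 0, 13, 11, 14, 15, 16]

noncomputable def v783 : Cov.CovD where
  P := 3
  N := 6
  pl := [1, 7, 8, 9, 10]
  lev := [⟨[], [], [], [1], [(0, 3, [2])]⟩,
    ⟨[], [(0, 0), (0, 2), (0, 3)], [(0, 2)], [1], [(2, 2, [3, 5]), (3, 0, [])]⟩,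
    ⟨[(0, 1)], [(0, 0), (0, 3), (0, 5), (1, 0), (1, 2), (1, 3), (1, 5)], [(0, 0), (0, 3),
      (0, 5), (3, 5)], [], [(0, 3, [2]), (3, 0, []), (4, 0, []), (5, 5, [2])]⟩,
    ⟨[(0, 2), (1, 2)], [(2, 0), (2, 3), (2, 5)], [(0, 0)], [4], [(4, 0, []), (6, 0, [])]⟩,
    ⟨[(0, 2), (1, 2), (2, 3)], [(1, 0), (2, 0), (2, 3), (2, 5), (3, 0)], [(0, 0)], [6, 7],
      [(3, 0, []), (6, 0, [])]⟩,
    ⟨[(2, 3), (3, 4)], [(3, 0), (4, 0)], [], [4, 8], [(6, 0, [])]⟩]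
  Ta := [((3, 2), 0, 2), ((3, 8), 0, 6), ((4, 5), 0, 5), ((4, 7), 0, 4), ((6, 9), 0, 7), ((6,
    10), 0, 8)]
  Tb := [((0, 1, 5), 3, 1, 5), ((1, 0, 2), 1, 3, 2), ((2, 1, 3), 2, 1, 0), ((3, 2, 8), 0, 2, 6),
    ((4, 5, 7), 0, 5, 4), ((5, 0, 4), 5, 3, 0), ((6, 9, 10), 0, 7, 8), ((7, 4, 10), 4, 0, 8),
    ((8, 3, 9), 6, 0, 7), ((9, 6, 8), 7, 0, 6), ((10, 6, 7), 8, 0, 4)]
  Tc := [(2, 3, 5)]
  Td := [((2, 3), (2, 1), 1), ((2, 3), (2, 3), 0), ((2, 5), (2, 1), 1), ((2, 5), (2, 3), 0), ((3,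
    2), (0, 1), 1), ((3, 2), (0, 5), 5), ((5, 2), (5, 0), 3), ((5, 2), (5, 4), 0)]
  G := [[0, 0x111e111ec2121268c1212a111e111ec68c, 0x1162111e111ea111e111ece111e1868c1,
    0x111e111ec2412111e11ce249, 0x11a11aa48141461414ca8111e111ea48d], [0,
    0x5292657ae911eca4c212a15ae691ec68c, 0, 0x7a1e116ec241a611addce249,
    0x91cea1665881a1e616ece1136365ea485], [0,
    0xea6e26e84ce242eaee26e84ce24e24866e222844ee288e22a8a8ce, 0,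
    0x2eaee26e84ce242eaee26e84ce24c, 0x44c86eaece4aae8aea6c26e44ee1ce682aa64ee485]]

noncomputable def n783 : Ent := ⟨e783, noF, [], [], [(7, 16, [1580044410770988437309982408355971841652082177953823432505692311553, 0]), (8, 14, [1685382413448253767852309107433119732572617628602273068445368115201, 0])]⟩

def c783 : PLift (Cov.check n783.C.D v783 = true) := ⟨by decide +kernel⟩

def b783 : PLift (entF (fidx ts) 400 783 n783 = true) := ⟨by decide +kernel⟩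

theorem g783 : GoodF (fidx ts) 400 783 := GoodF.ofV v783 n783 c783.down b783.down

/-- 458664:676/1 -/
noncomputable def e784 : SCfg where
  D := {
    a := 6
    L := 10
    kp := 7
    inn := [(0, 1), (0, 2), (1, 0), (1, 2), (2, 0), (2, 1), (2, 3), (2, 4), (3, 2), (3, 4), (4, 2), (4,
      3), (4, 5), (5, 4)]
    mix := [(0, 0), (0, 1), (1, 1), (1, 2), (1, 3), (2, 0), (2, 3), (2, 4), (2, 5), (3, 4), (3, 6), (3,
      7), (3, 8), (4, 3), (4, 6), (4, 9), (5, 2), (5, 3), (5, 9)]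
    cl := [3, 2, 1, 0, 0, 5, 0, 6, 7, 4]
    chq := [(1, 3), (1, 5), (3, 1), (5, 1)]
    rng := [(0, 1), (0, 5), (1, 0), (1, 2), (2, 1), (2, 3), (2, 9), (3, 2), (4, 5), (4, 8), (5, 0), (5,
      4), (6, 7), (6, 9), (7, 6), (7, 8), (8, 4), (8, 7), (9, 2), (9, 6)]
    lev := [] }
  links := [[1, 2, 6, 7], [2, 0, 7, 8, 9], [6, 0, 1, 9, 4, 3, 10, 11], [10, 2, 4, 12, 13, 14], [12, 3, 2,
    9, 5, 15], [15, 4, 9, 8]]
  P := {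
    a := 6
    N := 16
    nb := [198, 901, 3675, 29716, 37420, 33552, 2181, 323, 33442, 310, 18444, 1092, 40984, 20488,
      9224, 4400]
    tri := [(0, 1, 2), (0, 1, 7), (0, 2, 6), (0, 6, 7), (1, 2, 9), (1, 7, 8), (1, 8, 9), (2, 3, 4), (2,
      3, 10), (2, 4, 9), (2, 6, 11), (2, 10, 11), (3, 4, 12), (3, 10, 14), (3, 12, 13), (3, 13,
      14), (4, 5, 9), (4, 5, 15), (4, 12, 15), (5, 8, 9), (5, 8, 15)]
    fin := [0, 1, 1, 3, 3, 1, 0, 7, 1, 3, 3, 11, 3, 13, 14, 15]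
    chd := [(0, 1), (1, 11)]
    steps := [(0, 6), (1, 2), (1, 8), (3, 4), (3, 9), (1, 5), (3, 12), (3, 10)] }
  rep := [3, 1, 7, 0, 15, 11, 13, 14]

noncomputable def v784 : Cov.CovD where
  P := 3
  N := 5
  pl := [1, 7, 8, 9]
  lev := [⟨[], [], [], [2], [(0, 3, [1])]⟩,
    ⟨[], [(0, 0), (0, 1), (0, 3)], [(0, 1)], [2], [(2, 1, [3, 5]), (3, 0, [])]⟩,
    ⟨[(0, 1)], [(0, 0), (0, 3), (0, 5), (1, 0), (1, 1), (1, 3), (1, 5)], [(0, 0), (0, 3),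
      (0, 5), (3, 5)], [], [(0, 3, [1]), (3, 0, []), (4, 0, []), (5, 5, [1])]⟩,
    ⟨[(0, 2), (1, 2)], [(2, 0), (2, 3), (2, 5)], [(0, 0)], [6, 7], [(4, 0, []), (6, 0,
      [])]⟩,
    ⟨[(0, 2), (1, 2), (2, 3)], [(1, 0), (2, 0), (2, 3), (2, 5), (3, 0)], [(0, 0)], [4],
      [(3, 0, []), (6, 0, [])]⟩,
    ⟨[(2, 4), (3, 4)], [(1, 0), (1, 1), (2, 0), (4, 0), (4, 1)], [(0, 1)], [4], [(2, 1, [3,
      5]), (3, 0, [])]⟩]
  Ta := [((3, 2), 0, 1), ((4, 5), 0, 5), ((4, 8), 0, 7), ((6, 7), 0, 6), ((6, 9), 0, 4)]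
  Tb := [((0, 1, 5), 3, 2, 5), ((1, 0, 2), 2, 3, 1), ((2, 1, 3), 1, 2, 0), ((2, 1, 9), 1, 2, 4),
    ((2, 3, 9), 1, 0, 4), ((4, 5, 8), 0, 5, 7), ((5, 0, 4), 5, 3, 0), ((6, 7, 9), 0, 6, 4),
    ((7, 6, 8), 6, 0, 7), ((8, 4, 7), 7, 0, 6), ((9, 2, 6), 4, 1, 0)]
  Tc := [(1, 3, 5)]
  Td := [((1, 3), (2, 1), 2), ((1, 3), (2, 3), 0), ((1, 3), (2, 9), 4), ((1, 5), (2, 1), 2), ((1,
    5), (2, 3), 0), ((1, 5), (2, 9), 4), ((3, 1), (0, 1), 2), ((3, 1), (0, 5), 5), ((5, 1),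
    (5, 0), 3), ((5, 1), (5, 4), 0)]
  G := [[0, 0x82682a84ae24c84a24ce682642a4cae8c1, 0xc22248e824e84cea482c2a486824e84ce68c,
    0xc2c284ce24c2c284ce285, 0x248e824e44e28c228284aac8486824e84ce28b], [0, 0,
    0x12211c11c81cea4122411c11c11ce2cc, 0x121214ce28121281ce285,
    0x1281661212116e14c81cce821c11ca283], [0, 0, 0x14c81c81ce248628c92214c81c84ce68c,
    0x925284ce28529214ce24c, 0x14c81cc28416281a2c814c81c84ce28b]]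

noncomputable def n784 : Ent := ⟨e784, noF, [], [], []⟩

def c784 : PLift (Cov.check n784.C.D v784 = true) := ⟨by decide +kernel⟩

def b784 : PLift (entF (fidx ts) 400 784 n784 = true) := ⟨by decide +kernel⟩

theorem g784 : GoodF (fidx ts) 400 784 := GoodF.ofV v784 n784 c784.down b784.down

/-- 458664:676 -/
noncomputable def e785 : SCfg where
  D := {
    a := 6
    L := 11
    kp := 8
    inn := [(0, 1), (0, 2), (1, 0), (1, 2), (2, 0), (2, 1), (2, 3), (2, 4), (3, 2), (3, 4), (4, 2), (4,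
      3), (4, 5), (5, 4)]
    mix := [(0, 0), (0, 1), (1, 1), (1, 2), (1, 3), (2, 0), (2, 3), (2, 4), (2, 5), (3, 4), (3, 6), (3,
      7), (3, 8), (4, 3), (4, 6), (4, 9), (5, 3), (5, 9), (5, 10)]
    cl := [3, 1, 2, 0, 0, 5, 0, 6, 7, 4, 8]
    chq := [(2, 3), (2, 5), (3, 2), (5, 2)]
    rng := [(0, 1), (0, 5), (1, 0), (1, 2), (2, 1), (2, 3), (3, 2), (3, 10), (4, 5), (4, 8), (5, 0),
      (5, 4), (6, 7), (6, 9), (7, 6), (7, 8), (8, 4), (8, 7), (9, 6), (9, 10), (10, 3), (10, 9)]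
    lev := [] }
  links := [[1, 2, 6, 7], [2, 0, 7, 8, 9], [6, 0, 1, 9, 4, 3, 10, 11], [10, 2, 4, 12, 13, 14], [12, 3, 2,
    9, 5, 15], [15, 4, 9, 16]]
  P := {
    a := 6
    N := 17
    nb := [198, 901, 3675, 29716, 37420, 98832, 2181, 323, 642, 65846, 18444, 1092, 40984, 20488,
      9224, 69680, 33312]
    tri := [(0, 1, 2), (0, 1, 7), (0, 2, 6), (0, 6, 7), (1, 2, 9), (1, 7, 8), (1, 8, 9), (2, 3, 4), (2,
      3, 10), (2, 4, 9), (2, 6, 11), (2, 10, 11), (3, 4, 12), (3, 10, 14), (3, 12, 13), (3, 13,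
      14), (4, 5, 9), (4, 5, 15), (4, 12, 15), (5, 9, 16), (5, 15, 16)]
    fin := [0, 1, 1, 3, 3, 3, 0, 7, 1, 3, 3, 11, 3, 13, 14, 15, 16]
    chd := [(0, 1), (1, 11)]
    steps := [(0, 6), (1, 2), (1, 8), (3, 4), (3, 5), (3, 9), (3, 12), (3, 10)] }
  rep := [3, 7, 1, 0, 15, 11, 13, 14, 16]

noncomputable def v785 : Cov.CovD where
  P := 3
  N := 6
  pl := [1, 7, 8, 9, 10]
  lev := [⟨[], [], [], [1], [(0, 3, [2])]⟩,
    ⟨[], [(0, 0), (0, 2), (0, 3)], [(0, 2)], [1], [(2, 2, [3, 5]), (3, 0, [])]⟩,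
    ⟨[(0, 1)], [(0, 0), (0, 3), (0, 5), (1, 0), (1, 2), (1, 3), (1, 5)], [(0, 0), (0, 3),
      (0, 5), (3, 5)], [], [(0, 3, [2]), (3, 0, []), (4, 0, []), (5, 5, [2])]⟩,
    ⟨[(0, 2), (1, 2)], [(2, 0), (2, 3), (2, 5)], [(0, 0)], [6, 7], [(4, 0, []), (6, 0,
      [])]⟩,
    ⟨[(0, 2), (1, 2), (2, 3)], [(1, 0), (2, 0), (2, 3), (2, 5), (3, 0)], [(0, 0)], [4],
      [(3, 0, []), (6, 0, [])]⟩,
    ⟨[(2, 4), (3, 4)], [(1, 0), (2, 0), (4, 0)], [], [4, 8], [(3, 0, [])]⟩]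
  Ta := [((3, 2), 0, 2), ((3, 10), 0, 8), ((4, 5), 0, 5), ((4, 8), 0, 7), ((6, 7), 0, 6), ((6,
    9), 0, 4)]
  Tb := [((0, 1, 5), 3, 1, 5), ((1, 0, 2), 1, 3, 2), ((2, 1, 3), 2, 1, 0), ((3, 2, 10), 0, 2, 8),
    ((4, 5, 8), 0, 5, 7), ((5, 0, 4), 5, 3, 0), ((6, 7, 9), 0, 6, 4), ((7, 6, 8), 6, 0, 7),
    ((8, 4, 7), 7, 0, 6), ((9, 6, 10), 4, 0, 8), ((10, 3, 9), 8, 0, 4)]
  Tc := [(2, 3, 5)]
  Td := [((2, 3), (2, 1), 1), ((2, 3), (2, 3), 0), ((2, 5), (2, 1), 1), ((2, 5), (2, 3), 0), ((3,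
    2), (0, 1), 1), ((3, 2), (0, 5), 5), ((5, 2), (5, 0), 3), ((5, 2), (5, 4), 0)]
  G := [[0, 0x2e8ee24ea6ce2482e4aa2e8ee24ea6ce6842246482422e8ee8ce,
    0x48eec6ae24ee2e8ee24ea6ce6ca648ee2e8ee8c1, 0x2e8ee24ea6ce242e8ee24ea6ce28c,
    0x48eec6aa8e4864284e24e64ea848eec6ae24ee48448eec8cd], [0,
    0x11c11c11ce211628c11a211c11c11ce68c, 0, 0x11611611ce2411a11611ce245,
    0x11a11aa48116411a4a811a11a11ae48d], [0, 0x716216c93c1dcea41da271ca1c16ce68c, 0,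
    0x596c1aa1ce24c1653c16ce249, 0x16a1daa481a6439c4a81ba16ac1ae48d]]

noncomputable def n785 : Ent := ⟨e785, noF, [], [], [(8, 16, [1580044410770988437309982408355971841652082177953823432505692323841, 0])]⟩

def c785 : PLift (Cov.check n785.C.D v785 = true) := ⟨by decide +kernel⟩

def b785 : PLift (entF (fidx ts) 400 785 n785 = true) := ⟨by decide +kernel⟩

theorem g785 : GoodF (fidx ts) 400 785 := GoodF.ofV v785 n785 c785.down b785.down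

/-- 458664:677 -/
noncomputable def e786 : SCfg where
  D := {
    a := 6
    L := 11
    kp := 8
    inn := [(0, 1), (0, 2), (1, 0), (1, 2), (2, 0), (2, 1), (2, 3), (2, 4), (3, 2), (3, 4), (4, 2), (4,
      3), (4, 5), (5, 4)]
    mix := [(0, 0), (0, 1), (1, 1), (1, 2), (1, 3), (2, 0), (2, 3), (2, 4), (2, 5), (3, 4), (3, 6), (3,
      7), (3, 8), (4, 3), (4, 6), (4, 9), (5, 6), (5, 9), (5, 10)]
    cl := [3, 1, 2, 0, 0, 5, 0, 6, 7, 4, 8]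
    chq := [(2, 3), (2, 5), (3, 2), (5, 2)]
    rng := [(0, 1), (0, 5), (1, 0), (1, 2), (2, 1), (2, 3), (3, 2), (3, 9), (4, 5), (4, 8), (5, 0), (5,
      4), (6, 7), (6, 10), (7, 6), (7, 8), (8, 4), (8, 7), (9, 3), (9, 10), (10, 6), (10, 9)]
    lev := [] }
  links := [[1, 2, 6, 7], [2, 0, 7, 8, 9], [6, 0, 1, 9, 4, 3, 10, 11], [10, 2, 4, 12, 13, 14], [12, 3, 2,
    9, 15, 5], [12, 4, 15, 16]]
  P := {
    a := 6
    N := 17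
    nb := [198, 901, 3675, 29716, 37420, 102416, 2181, 323, 642, 33046, 18444, 1092, 73784, 20488,
      9224, 66096, 36896]
    tri := [(0, 1, 2), (0, 1, 7), (0, 2, 6), (0, 6, 7), (1, 2, 9), (1, 7, 8), (1, 8, 9), (2, 3, 4), (2,
      3, 10), (2, 4, 9), (2, 6, 11), (2, 10, 11), (3, 4, 12), (3, 10, 14), (3, 12, 13), (3, 13,
      14), (4, 5, 12), (4, 5, 15), (4, 9, 15), (5, 12, 16), (5, 15, 16)]
    fin := [0, 1, 1, 3, 3, 3, 0, 7, 1, 3, 3, 11, 3, 13, 14, 15, 16]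
    chd := [(0, 1), (1, 11)]
    steps := [(0, 6), (1, 2), (1, 8), (3, 4), (3, 5), (3, 9), (3, 12), (3, 10)] }
  rep := [3, 7, 1, 0, 15, 11, 13, 14, 16]

noncomputable def v786 : Cov.CovD where
  P := 3
  N := 6
  pl := [1, 7, 8, 9, 10]
  lev := [⟨[], [], [], [1], [(0, 3, [2])]⟩,
    ⟨[], [(0, 0), (0, 2), (0, 3)], [(0, 2)], [1], [(2, 2, [3, 5]), (3, 0, [])]⟩,
    ⟨[(0, 1)], [(0, 0), (0, 3), (0, 5), (1, 0), (1, 2), (1, 3), (1, 5)], [(0, 0), (0, 3),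
      (0, 5), (3, 5)], [], [(0, 3, [2]), (3, 0, []), (4, 0, []), (5, 5, [2])]⟩,
    ⟨[(0, 2), (1, 2)], [(2, 0), (2, 3), (2, 5)], [(0, 0)], [6, 7], [(4, 0, []), (6, 0,
      [])]⟩,
    ⟨[(0, 2), (1, 2), (2, 3)], [(1, 0), (2, 0), (2, 3), (2, 5), (3, 0)], [(0, 0)], [4],
      [(3, 0, []), (6, 0, [])]⟩,
    ⟨[(2, 4), (3, 4)], [(3, 0), (4, 0)], [], [4, 8], [(6, 0, [])]⟩]
  Ta := [((3, 2), 0, 2), ((3, 9), 0, 4), ((4, 5), 0, 5), ((4, 8), 0, 7), ((6, 7), 0, 6), ((6,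
    10), 0, 8)]
  Tb := [((0, 1, 5), 3, 1, 5), ((1, 0, 2), 1, 3, 2), ((2, 1, 3), 2, 1, 0), ((3, 2, 9), 0, 2, 4),
    ((4, 5, 8), 0, 5, 7), ((5, 0, 4), 5, 3, 0), ((6, 7, 10), 0, 6, 8), ((7, 6, 8), 6, 0, 7),
    ((8, 4, 7), 7, 0, 6), ((9, 3, 10), 4, 0, 8), ((10, 6, 9), 8, 0, 4)]
  Tc := [(2, 3, 5)]
  Td := [((2, 3), (2, 1), 1), ((2, 3), (2, 3), 0), ((2, 5), (2, 1), 1), ((2, 5), (2, 3), 0), ((3,
    2), (0, 1), 1), ((3, 2), (0, 5), 5), ((5, 2), (5, 0), 3), ((5, 2), (5, 4), 0)]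
  G := [[0, 0xc1621dca1ca1cea4c1a235ca1ca6ce68c, 0x11a11a11ae11611611ce611611a11ce8c1,
    0xc161daa1ce24716a1c16ce285, 0x16ab1aa481a64a1c4a816a93ac1ae48d], [0,
    0x116211c11c11cea411a211c11c11ce68c, 0, 0x11a11c11ce2411611a11ce289,
    0x11a11aa4811a411c4a111a11a11ae48d], [0,
    0x42e8662e8ee24ea6cea482e4aa2e8ee24ea6ce684224648228a8ce, 0,
    0x2e8ee24ea6ce242e8ee24ea6ce245, 0x8e6246a2e4aac1c448cc4e24e24ea148eec6ae24ee48d]]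

noncomputable def n786 : Ent := ⟨e786, noF, [], [], []⟩

def c786 : PLift (Cov.check n786.C.D v786 = true) := ⟨by decide +kernel⟩

def b786 : PLift (entF (fidx ts) 400 786 n786 = true) := ⟨by decide +kernel⟩

theorem g786 : GoodF (fidx ts) 400 786 := GoodF.ofV v786 n786 c786.down b786.down

/-- 458644:678/1 -/
noncomputable def e787 : SCfg where
  D := {
    a := 6
    L := 9
    kp := 6
    inn := [(0, 1), (0, 2), (1, 0), (1, 2), (2, 0), (2, 1), (2, 3), (3, 2), (3, 4), (3, 5), (4, 3), (5,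
      3)]
    mix := [(0, 0), (0, 1), (1, 1), (1, 2), (1, 3), (2, 0), (2, 3), (2, 4), (2, 5), (2, 6), (3, 4), (3,
      5), (3, 7), (4, 2), (4, 4), (4, 7), (5, 5), (5, 7), (5, 8)]
    cl := [1, 2, 4, 1, 0, 0, 5, 3, 6]
    chq := [(0, 3), (3, 0)]
    rng := [(0, 1), (0, 6), (1, 0), (1, 2), (2, 1), (2, 3), (2, 4), (2, 7), (3, 2), (3, 4), (4, 2), (4,
      3), (5, 6), (5, 8), (6, 0), (6, 5), (7, 2), (7, 8), (8, 5), (8, 7)]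
    lev := [] }
  links := [[1, 2, 6, 7], [2, 0, 7, 8, 9], [6, 0, 1, 9, 10, 3, 11, 12], [11, 2, 10, 4, 13, 5], [13, 3,
    10, 8], [11, 3, 13, 14]]
  P := {
    a := 6
    N := 15
    nb := [198, 901, 7755, 11316, 9480, 26632, 4229, 323, 9874, 1286, 796, 20524, 2116, 16696, 10272]
    tri := [(0, 1, 2), (0, 1, 7), (0, 2, 6), (0, 6, 7), (1, 2, 9), (1, 7, 8), (1, 8, 9), (2, 3, 10),
      (2, 3, 11), (2, 6, 12), (2, 9, 10), (2, 11, 12), (3, 4, 10), (3, 4, 13), (3, 5, 11), (3, 5,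
      13), (4, 8, 10), (4, 8, 13), (5, 11, 14), (5, 13, 14)]
    fin := [0, 0, 2, 3, 3, 2, 0, 7, 3, 0, 2, 2, 12, 13, 14]
    chd := [(2, 13)]
    steps := [(0, 1), (0, 6), (0, 9), (2, 10), (2, 11), (2, 5), (3, 4), (3, 8)] }
  rep := [2, 0, 7, 13, 3, 12, 14]

noncomputable def v787 : Cov.CovD where
  P := 3
  N := 4
  pl := [1, 2, 6, 8]
  lev := [⟨[], [], [], [2], [(0, 1, [])]⟩,
    ⟨[], [(0, 1)], [], [2, 4], [(3, 1, [])]⟩,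
    ⟨[(0, 1)], [(0, 0), (0, 1), (1, 0), (1, 1)], [(0, 0), (0, 1), (1, 1)], [5], [(0, 1,
      []), (3, 1, []), (4, 0, [3]), (5, 0, [3])]⟩,
    ⟨[(0, 2), (1, 2)], [(2, 0), (2, 1), (2, 3)], [(0, 0), (0, 3)], [], [(4, 0, [3]), (5, 0,
      [3]), (7, 3, [0])]⟩,
    ⟨[(2, 3)], [(2, 0), (3, 0), (3, 3)], [(0, 3)], [4], [(4, 0, [3]), (7, 3, [0])]⟩,
    ⟨[(2, 3), (3, 4)], [(2, 0), (3, 0), (3, 3), (4, 3)], [(0, 3)], [6], [(5, 0, [3]), (7,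
      3, [0])]⟩]
  Ta := [((0, 1), 1, 2), ((0, 6), 1, 5), ((3, 2), 1, 4), ((3, 4), 1, 0), ((4, 2), 0, 4), ((4, 3),
    0, 1), ((5, 6), 0, 5), ((5, 8), 0, 6)]
  Tb := [((0, 1, 6), 1, 2, 5), ((1, 0, 2), 2, 1, 4), ((2, 1, 3), 4, 2, 1), ((2, 1, 4), 4, 2, 0),
    ((2, 1, 7), 4, 2, 3), ((2, 3, 4), 4, 1, 0), ((2, 3, 7), 4, 1, 3), ((2, 4, 7), 4, 0, 3),
    ((3, 2, 4), 1, 4, 0), ((4, 2, 3), 0, 4, 1), ((5, 6, 8), 0, 5, 6), ((6, 0, 5), 5, 1, 0),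
    ((7, 2, 8), 3, 4, 6), ((8, 5, 7), 6, 0, 3)]
  Tc := []
  Td := [((0, 3), (4, 2), 4), ((0, 3), (4, 3), 1), ((0, 3), (5, 6), 5), ((0, 3), (5, 8), 6), ((3,
    0), (7, 2), 4), ((3, 0), (7, 8), 6)]
  G := [[0, 0, 0x112e5261ccd2ac24, 0x1814a414126818d2614d2acd4, 0x11cd263cc52ac28], [0,
    0x181261812ac1411a61214cac4, 0x18a1a618d2ac3492614616acc2, 0,
    0x18a1a67814ac3294cc412ac91], [0, 0, 0xc1c236c1c23ac24, 0xc1c236c1c23ac14,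
    0xac3a16e12242ec28], [0, 0, 0xc1c23668961aca45a16c4e1acc2, 0, 0xc16ca766c8d61ac18]]

noncomputable def n787 : Ent := ⟨e787, noF, [], [], []⟩

def c787 : PLift (Cov.check n787.C.D v787 = true) := ⟨by decide +kernel⟩

def b787 : PLift (entF (fidx ts) 400 787 n787 = true) := ⟨by decide +kernel⟩

theorem g787 : GoodF (fidx ts) 400 787 := GoodF.ofV v787 n787 c787.down b787.down

/-- 458644:678 -/
noncomputable def e788 : SCfg where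
  D := {
    a := 6
    L := 10
    kp := 7
    inn := [(0, 1), (0, 2), (1, 0), (1, 2), (2, 0), (2, 1), (2, 3), (3, 2), (3, 4), (3, 5), (4, 3), (5,
      3)]
    mix := [(0, 0), (0, 1), (1, 1), (1, 2), (1, 3), (2, 0), (2, 3), (2, 4), (2, 5), (2, 6), (3, 4), (3,
      5), (3, 7), (4, 4), (4, 7), (4, 8), (5, 5), (5, 7), (5, 9)]
    cl := [1, 2, 4, 1, 0, 0, 5, 3, 6, 7]
    chq := [(0, 3), (3, 0)]
    rng := [(0, 1), (0, 6), (1, 0), (1, 2), (2, 1), (2, 3), (3, 2), (3, 4), (4, 3), (4, 8), (5, 6), (5,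
      9), (6, 0), (6, 5), (7, 8), (7, 9), (8, 4), (8, 7), (9, 5), (9, 7)]
    lev := [] }
  links := [[1, 2, 6, 7], [2, 0, 7, 8, 9], [6, 0, 1, 9, 10, 3, 11, 12], [11, 2, 10, 4, 13, 5], [13, 3,
    10, 14], [11, 3, 13, 15]]
  P := {
    a := 6
    N := 16
    nb := [198, 901, 7755, 11316, 25608, 43016, 4229, 323, 642, 1286, 16924, 36908, 2116, 49208, 9232,
      10272]
    tri := [(0, 1, 2), (0, 1, 7), (0, 2, 6), (0, 6, 7), (1, 2, 9), (1, 7, 8), (1, 8, 9), (2, 3, 10),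
      (2, 3, 11), (2, 6, 12), (2, 9, 10), (2, 11, 12), (3, 4, 10), (3, 4, 13), (3, 5, 11), (3, 5,
      13), (4, 10, 14), (4, 13, 14), (5, 11, 15), (5, 13, 15)]
    fin := [0, 0, 0, 3, 3, 3, 0, 7, 8, 0, 3, 3, 12, 13, 14, 15]
    chd := [(3, 13)]
    steps := [(0, 1), (0, 2), (0, 6), (0, 9), (3, 4), (3, 5), (3, 10), (3, 11)] }
  rep := [3, 0, 7, 13, 8, 12, 14, 15]

noncomputable def v788 : Cov.CovD where
  P := 3
  N := 5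
  pl := [1, 2, 6, 8, 9]
  lev := [⟨[], [], [], [2], [(0, 1, [])]⟩,
    ⟨[], [(0, 1)], [], [2, 4], [(3, 1, [])]⟩,
    ⟨[(0, 1)], [(0, 0), (0, 1), (1, 0), (1, 1)], [(0, 0), (0, 1), (1, 1)], [5], [(0, 1,
      []), (3, 1, []), (4, 0, [3]), (5, 0, [3])]⟩,
    ⟨[(0, 2), (1, 2)], [(2, 0), (2, 1), (2, 3)], [(0, 0), (0, 3)], [], [(4, 0, [3]), (5, 0,
      [3]), (7, 3, [0])]⟩,
    ⟨[(2, 3)], [(2, 0), (3, 0), (3, 3)], [(0, 3)], [6], [(4, 0, [3]), (7, 3, [0])]⟩,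
    ⟨[(2, 3), (3, 4)], [(2, 0), (3, 0), (3, 3), (4, 3)], [(0, 3)], [7], [(5, 0, [3]), (7,
      3, [0])]⟩]
  Ta := [((0, 1), 1, 2), ((0, 6), 1, 5), ((3, 2), 1, 4), ((3, 4), 1, 0), ((4, 3), 0, 1), ((4, 8),
    0, 6), ((5, 6), 0, 5), ((5, 9), 0, 7)]
  Tb := [((0, 1, 6), 1, 2, 5), ((1, 0, 2), 2, 1, 4), ((2, 1, 3), 4, 2, 1), ((3, 2, 4), 1, 4, 0),
    ((4, 3, 8), 0, 1, 6), ((5, 6, 9), 0, 5, 7), ((6, 0, 5), 5, 1, 0), ((7, 8, 9), 3, 6, 7),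
    ((8, 4, 7), 6, 0, 3), ((9, 5, 7), 7, 0, 3)]
  Tc := []
  Td := [((0, 3), (4, 3), 1), ((0, 3), (4, 8), 6), ((0, 3), (5, 6), 5), ((0, 3), (5, 9), 7), ((3,
    0), (7, 8), 6), ((3, 0), (7, 9), 7)]
  G := [[0, 0, 0x93c15a635c196ac24, 0xc1c1da653c196acc9c15a631c596ac94, 0x1bca1a635c196ac28],
    [0, 0x11c116a11a116c611c11a611a116cac4, 0x1bca1a651c396acc3c19a631c656acc2, 0,
    0x3cc156a413ca9a61cae116ac9c3c19a6889], [0, 0, 0xc1cc2b66c8d61ac28,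
    0xc1ac2b6c16c27ac284cfa16c16c27acc1, 0xac3aa96c16c27ac21], [0, 0,
    0xcc9ca56c18642fac42cd8a36c16c27acc2, 0, 0xcc9aa56a6c761acc182c2f642c7869ac92]]

noncomputable def n788 : Ent := ⟨e788, noF, [], [], [(8, 14, [385746751338780685620664494392815470296102193487288376375717889, 0])]⟩

def c788 : PLift (Cov.check n788.C.D v788 = true) := ⟨by decide +kernel⟩

def b788 : PLift (entF (fidx ts) 400 788 n788 = true) := ⟨by decide +kernel⟩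

theorem g788 : GoodF (fidx ts) 400 788 := GoodF.ofV v788 n788 c788.down b788.down

/-- 458654:679/1 -/
noncomputable def e789 : SCfg where
  D := {
    a := 6
    L := 10
    kp := 7
    inn := [(0, 1), (0, 2), (1, 0), (1, 2), (2, 0), (2, 1), (2, 3), (2, 4), (3, 2), (3, 5), (4, 2), (5,
      3)]
    mix := [(0, 0), (0, 1), (1, 1), (1, 2), (1, 3), (2, 0), (2, 3), (2, 4), (2, 5), (3, 3), (3, 4), (3,
      6), (3, 7), (4, 0), (4, 5), (4, 8), (4, 9), (5, 2), (5, 3), (5, 6)]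
    cl := [1, 2, 3, 0, 0, 1, 4, 5, 6, 7]
    chq := [(1, 3), (3, 1), (3, 5), (5, 3)]
    rng := [(0, 1), (0, 9), (1, 0), (1, 2), (2, 1), (2, 3), (2, 6), (3, 2), (4, 5), (4, 7), (5, 4), (5,
      8), (6, 2), (6, 7), (7, 4), (7, 6), (8, 5), (8, 9), (9, 0), (9, 8)]
    lev := [] }
  links := [[1, 2, 6, 7], [2, 0, 7, 8, 9], [6, 0, 1, 9, 3, 10, 11, 4], [10, 2, 9, 5, 12, 13], [6, 2, 11,
    14, 15], [12, 3, 9, 8]]
  P := {
    a := 6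
    N := 16
    nb := [198, 901, 3675, 13860, 51268, 4872, 32917, 323, 4770, 302, 10252, 17428, 8488, 5128, 34832,
      16464]
    tri := [(0, 1, 2), (0, 1, 7), (0, 2, 6), (0, 6, 7), (1, 2, 9), (1, 7, 8), (1, 8, 9), (2, 3, 9), (2,
      3, 10), (2, 4, 6), (2, 4, 11), (2, 10, 11), (3, 5, 9), (3, 5, 12), (3, 10, 13), (3, 12, 13),
      (4, 6, 15), (4, 11, 14), (4, 14, 15), (5, 8, 9), (5, 8, 12)]
    fin := [0, 0, 2, 3, 0, 3, 0, 7, 3, 2, 2, 0, 12, 13, 14, 15]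
    chd := [(0, 3), (3, 13)]
    steps := [(0, 1), (0, 6), (0, 4), (0, 11), (2, 9), (2, 10), (3, 5), (3, 8)] }
  rep := [2, 0, 7, 3, 12, 13, 14, 15]

noncomputable def v789 : Cov.CovD where
  P := 3
  N := 5
  pl := [1, 6, 8, 9]
  lev := [⟨[], [], [], [2], [(0, 1, [3])]⟩,
    ⟨[], [(0, 0), (0, 1), (0, 3)], [(0, 3)], [2], [(2, 3, [1, 5]), (3, 0, [])]⟩,
    ⟨[(0, 1)], [(0, 0), (0, 1), (1, 0), (1, 1), (1, 3)], [(0, 0), (0, 1), (1, 1)], [], [(0,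
      1, [3]), (3, 0, []), (4, 0, []), (5, 1, [3])]⟩,
    ⟨[(0, 2), (1, 2)], [(1, 0), (2, 0), (2, 1), (2, 5)], [(0, 0), (0, 5)], [4], [(3, 0,
      []), (4, 0, []), (7, 5, [3])]⟩,
    ⟨[(0, 2), (1, 2), (2, 3)], [(0, 1), (2, 0), (2, 1)], [(1, 1)], [6, 7], [(0, 1, [3]),
      (5, 1, [3])]⟩,
    ⟨[(2, 3)], [(1, 0), (1, 3), (2, 0), (3, 0), (3, 3), (3, 5)], [(0, 3)], [4], [(2, 3, [1,
      5]), (3, 0, [])]⟩]
  Ta := [((0, 1), 1, 2), ((0, 9), 1, 7), ((3, 2), 0, 3), ((4, 5), 0, 1), ((4, 7), 0, 5), ((5, 4),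
    1, 0), ((5, 8), 1, 6)]
  Tb := [((0, 1, 9), 1, 2, 7), ((1, 0, 2), 2, 1, 3), ((2, 1, 3), 3, 2, 0), ((2, 1, 6), 3, 2, 4),
    ((2, 3, 6), 3, 0, 4), ((4, 5, 7), 0, 1, 5), ((5, 4, 8), 1, 0, 6), ((6, 2, 7), 4, 3, 5),
    ((7, 4, 6), 5, 0, 4), ((8, 5, 9), 6, 1, 7), ((9, 0, 8), 7, 1, 6)]
  Tc := [(3, 1, 5)]
  Td := [((1, 3), (0, 1), 2), ((1, 3), (0, 9), 7), ((1, 3), (5, 4), 0), ((1, 3), (5, 8), 6), ((3,
    1), (2, 1), 2), ((3, 1), (2, 3), 0), ((3, 1), (2, 6), 4), ((3, 5), (2, 1), 2), ((3, 5),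
    (2, 3), 0), ((3, 5), (2, 6), 4), ((5, 3), (7, 4), 0), ((5, 3), (7, 6), 4)]
  G := [[0, 0, 0x665aaadcccde688c24, 0xa44888daa9222dec665444d222de688cc1, 0xaaadcccd6666d8c21],
    [0, 0, 0x665aaadcccde688c24, 0, 0xaa54666da8cccdec28], [0, 0, 0x115a33db55de188c24,
    0x665aaad222de688c14, 0x135931dc58c59dac21], [0, 0xcc62666eaaaec8ea18,
    0x615313dbccde188c24, 0, 0x135331d559de188c21]]

noncomputable def n789 : Ent := ⟨e789, noF, [], [], []⟩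

def c789 : PLift (Cov.check n789.C.D v789 = true) := ⟨by decide +kernel⟩

def b789 : PLift (entF (fidx ts) 400 789 n789 = true) := ⟨by decide +kernel⟩

theorem g789 : GoodF (fidx ts) 400 789 := GoodF.ofV v789 n789 c789.down b789.down

/-- 458654:679 -/
noncomputable def e790 : SCfg where
  D := {
    a := 6
    L := 11
    kp := 8
    inn := [(0, 1), (0, 2), (1, 0), (1, 2), (2, 0), (2, 1), (2, 3), (2, 4), (3, 2), (3, 5), (4, 2), (5,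
      3)]
    mix := [(0, 0), (0, 1), (1, 1), (1, 2), (1, 3), (2, 0), (2, 3), (2, 4), (2, 5), (3, 3), (3, 4), (3,
      6), (3, 7), (4, 0), (4, 5), (4, 8), (4, 9), (5, 3), (5, 6), (5, 10)]
    cl := [1, 2, 4, 0, 0, 1, 3, 5, 7, 8, 6]
    chq := [(1, 4), (4, 1), (5, 6), (6, 5)]
    rng := [(0, 1), (0, 9), (1, 0), (1, 2), (2, 1), (2, 3), (3, 2), (3, 10), (4, 5), (4, 7), (5, 4),
      (5, 8), (6, 7), (6, 10), (7, 4), (7, 6), (8, 5), (8, 9), (9, 0), (9, 8), (10, 3), (10, 6)]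
    lev := [] }
  links := [[1, 2, 6, 7], [2, 0, 7, 8, 9], [6, 0, 1, 9, 3, 10, 11, 4], [10, 2, 9, 5, 12, 13], [6, 2, 11,
    14, 15], [12, 3, 9, 16]]
  P := {
    a := 6
    N := 17
    nb := [198, 901, 3675, 13860, 51268, 70152, 32917, 323, 642, 65838, 10252, 17428, 73768, 5128,
      34832, 16464, 4640]
    tri := [(0, 1, 2), (0, 1, 7), (0, 2, 6), (0, 6, 7), (1, 2, 9), (1, 7, 8), (1, 8, 9), (2, 3, 9), (2,
      3, 10), (2, 4, 6), (2, 4, 11), (2, 10, 11), (3, 5, 9), (3, 5, 12), (3, 10, 13), (3, 12, 13),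
      (4, 6, 15), (4, 11, 14), (4, 14, 15), (5, 9, 16), (5, 12, 16)]
    fin := [0, 0, 2, 3, 0, 3, 0, 7, 8, 2, 2, 0, 12, 13, 14, 15, 3]
    chd := [(0, 8), (13, 3)]
    steps := [(0, 1), (0, 6), (0, 4), (0, 11), (2, 9), (2, 10), (3, 5), (3, 16)] }
  rep := [2, 0, 7, 12, 8, 13, 3, 14, 15]

noncomputable def v790 : Cov.CovD where
  P := 3
  N := 6
  pl := [1, 6, 8, 9]
  lev := [⟨[], [], [], [2], [(0, 1, [4])]⟩,
    ⟨[], [(0, 0), (0, 1), (0, 4)], [(0, 4)], [2], [(2, 4, [1]), (3, 0, [])]⟩,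
    ⟨[(0, 1)], [(0, 0), (0, 1), (1, 0), (1, 1), (1, 4)], [(0, 0), (0, 1), (1, 1)], [], [(0,
      1, [4]), (3, 0, []), (4, 0, []), (5, 1, [4])]⟩,
    ⟨[(0, 2), (1, 2)], [(1, 0), (2, 0), (2, 1), (2, 5)], [(0, 0), (0, 5)], [3], [(3, 0,
      []), (4, 0, []), (7, 5, [6])]⟩,
    ⟨[(0, 2), (1, 2), (2, 3)], [(0, 1), (2, 0), (2, 1)], [(1, 1)], [7, 8], [(0, 1, [4]),
      (5, 1, [4])]⟩,
    ⟨[(2, 3)], [(1, 0), (2, 0), (3, 0), (3, 5), (3, 6)], [(0, 6)], [3], [(3, 0, []), (10,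
      6, [5])]⟩]
  Ta := [((0, 1), 1, 2), ((0, 9), 1, 8), ((3, 2), 0, 4), ((3, 10), 0, 6), ((4, 5), 0, 1), ((4,
    7), 0, 5), ((5, 4), 1, 0), ((5, 8), 1, 7)]
  Tb := [((0, 1, 9), 1, 2, 8), ((1, 0, 2), 2, 1, 4), ((2, 1, 3), 4, 2, 0), ((3, 2, 10), 0, 4, 6),
    ((4, 5, 7), 0, 1, 5), ((5, 4, 8), 1, 0, 7), ((6, 7, 10), 3, 5, 6), ((7, 4, 6), 5, 0, 3),
    ((8, 5, 9), 7, 1, 8), ((9, 0, 8), 8, 1, 7), ((10, 3, 6), 6, 0, 3)]
  Tc := []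
  Td := [((1, 4), (0, 1), 2), ((1, 4), (0, 9), 8), ((1, 4), (5, 4), 0), ((1, 4), (5, 8), 7), ((4,
    1), (2, 1), 2), ((4, 1), (2, 3), 0), ((5, 6), (7, 4), 0), ((5, 6), (7, 6), 3), ((6, 5),
    (10, 3), 0), ((6, 5), (10, 6), 3)]
  G := [[0, 0, 0x64aaadcccde6698c24, 0xa44666daa9cccdec665aaadcc5e68c8acc1,
    0xaaadcccd6666d8c21], [0, 0, 0x64aaadcccde6698c24, 0, 0xaaad4666dcccdac21], [0, 0,
    0x344611daa915cdec28, 0xaa54666da8cccdec18, 0x133d4311dcccdac21], [0,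
    0xaaaeccce6666e8a14, 0x1151d3d955de688c24, 0, 0x144135d339599dec21]]

noncomputable def n790 : Ent := ⟨e790, noF, [], [], [(8, 16, [1580044410770988437309982408355971841652082177953823432505692344321, 0])]⟩

def c790 : PLift (Cov.check n790.C.D v790 = true) := ⟨by decide +kernel⟩

def b790 : PLift (entF (fidx ts) 400 790 n790 = true) := ⟨by decide +kernel⟩

theorem g790 : GoodF (fidx ts) 400 790 := GoodF.ofV v790 n790 c790.down b790.down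

/-- 458654:680/1 -/
noncomputable def e791 : SCfg where
  D := {
    a := 6
    L := 10
    kp := 7
    inn := [(0, 1), (0, 2), (1, 0), (1, 2), (2, 0), (2, 1), (2, 3), (2, 4), (3, 2), (3, 5), (4, 2), (5,
      3)]
    mix := [(0, 0), (0, 1), (1, 1), (1, 2), (1, 3), (2, 0), (2, 3), (2, 4), (2, 5), (3, 3), (3, 4), (3,
      6), (3, 7), (4, 0), (4, 5), (4, 8), (4, 9), (5, 6), (5, 7), (5, 8)]
    cl := [0, 2, 6, 1, 1, 0, 4, 5, 3, 7]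
    chq := [(0, 6), (1, 3), (3, 1), (6, 0)]
    rng := [(0, 1), (0, 9), (1, 0), (1, 2), (2, 1), (2, 3), (3, 2), (3, 6), (4, 5), (4, 7), (5, 4), (5,
      8), (6, 3), (6, 8), (7, 4), (7, 8), (8, 5), (8, 6), (8, 7), (8, 9), (9, 0), (9, 8)]
    lev := [] }
  links := [[1, 2, 6, 7], [2, 0, 7, 8, 9], [6, 0, 1, 9, 3, 10, 11, 4], [10, 2, 9, 12, 5, 13], [6, 2, 11,
    14, 15], [13, 3, 12, 14]]
  P := {
    a := 6
    N := 16
    nb := [198, 901, 3675, 13860, 51268, 28680, 32917, 323, 642, 4366, 10252, 17428, 16936, 17448,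
      47152, 16464]
    tri := [(0, 1, 2), (0, 1, 7), (0, 2, 6), (0, 6, 7), (1, 2, 9), (1, 7, 8), (1, 8, 9), (2, 3, 9), (2,
      3, 10), (2, 4, 6), (2, 4, 11), (2, 10, 11), (3, 5, 12), (3, 5, 13), (3, 9, 12), (3, 10, 13),
      (4, 6, 15), (4, 11, 14), (4, 14, 15), (5, 12, 14), (5, 13, 14)]
    fin := [0, 0, 0, 3, 0, 3, 0, 7, 8, 3, 3, 0, 12, 13, 14, 15]
    chd := [(0, 8), (3, 14)]
    steps := [(0, 1), (0, 2), (0, 4), (0, 6), (0, 11), (3, 5), (3, 9), (3, 10)] }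
  rep := [0, 3, 7, 14, 12, 13, 8, 15]

noncomputable def v791 : Cov.CovD where
  P := 3
  N := 5
  pl := [1, 6, 7, 9]
  lev := [⟨[], [], [], [2], [(0, 0, [6])]⟩,
    ⟨[], [(0, 0), (0, 1), (0, 6)], [(1, 6)], [2], [(2, 6, [0]), (3, 1, [3])]⟩,
    ⟨[(0, 1)], [(0, 0), (0, 1), (1, 0), (1, 1), (1, 6)], [(0, 0), (0, 1), (1, 1)], [], [(0,
      0, [6]), (3, 1, [3]), (4, 1, [3]), (5, 0, [6])]⟩,
    ⟨[(0, 2), (1, 2)], [(1, 1), (2, 0), (2, 1)], [(1, 1)], [4, 5], [(3, 1, [3]), (4, 1,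
      [3])]⟩,
    ⟨[(0, 2), (1, 2), (2, 3)], [(0, 0), (2, 0), (2, 1), (2, 3)], [(0, 0), (0, 3)], [7],
      [(0, 0, [6]), (5, 0, [6]), (8, 3, [1])]⟩,
    ⟨[(2, 3)], [(3, 1), (3, 3), (4, 3)], [], [4, 5], [(8, 3, [1])]⟩]
  Ta := [((0, 1), 0, 2), ((0, 9), 0, 7), ((3, 2), 1, 6), ((3, 6), 1, 4), ((4, 5), 1, 0), ((4, 7),
    1, 5), ((5, 4), 0, 1), ((5, 8), 0, 3)]
  Tb := [((0, 1, 9), 0, 2, 7), ((1, 0, 2), 2, 0, 6), ((2, 1, 3), 6, 2, 1), ((3, 2, 6), 1, 6, 4),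
    ((4, 5, 7), 1, 0, 5), ((5, 4, 8), 0, 1, 3), ((6, 3, 8), 4, 1, 3), ((7, 4, 8), 5, 1, 3),
    ((8, 5, 6), 3, 0, 4), ((8, 5, 7), 3, 0, 5), ((8, 5, 9), 3, 0, 7), ((8, 6, 7), 3, 4, 5),
    ((8, 6, 9), 3, 4, 7), ((8, 7, 9), 3, 5, 7), ((9, 0, 8), 7, 0, 3)]
  Tc := []
  Td := [((0, 6), (0, 1), 2), ((0, 6), (0, 9), 7), ((0, 6), (5, 4), 1), ((0, 6), (5, 8), 3), ((1,
    3), (3, 2), 6), ((1, 3), (3, 6), 4), ((1, 3), (4, 5), 0), ((1, 3), (4, 7), 5), ((3, 1),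
    (8, 5), 0), ((3, 1), (8, 6), 4), ((3, 1), (8, 7), 5), ((3, 1), (8, 9), 7), ((6, 0), (2,
    1), 2), ((6, 0), (2, 3), 1)]
  G := [[0, 0, 0x4661165824246e111ed8c82ae2818d48aa84c6, 0x22624ee111ed888c14,
    0x246e482ae111e9c12], [0, 0, 0x44482ee22a111edc28, 0x24246e111ed8aa8c14,
    0x242e482ee111e9c12], [0, 0, 0, 0x466483ae28123edc18, 0x246e133e582ae8c12], [0,
    0x122811e141e11ce614, 0, 0x32624ee329ed888c14, 0x34246e123ed8aa8c12]]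

noncomputable def n791 : Ent := ⟨e791, noF, [], [], []⟩

def c791 : PLift (Cov.check n791.C.D v791 = true) := ⟨by decide +kernel⟩

def b791 : PLift (entF (fidx ts) 400 791 n791 = true) := ⟨by decide +kernel⟩

theorem g791 : GoodF (fidx ts) 400 791 := GoodF.ofV v791 n791 c791.down b791.down

/-- 458654:680/2 -/
noncomputable def e792 : SCfg where
  D := {
    a := 6
    L := 10
    kp := 7
    inn := [(0, 1), (0, 2), (1, 0), (1, 2), (2, 0), (2, 1), (2, 3), (2, 4), (3, 2), (3, 5), (4, 2), (5,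
      3)]
    mix := [(0, 0), (0, 1), (1, 1), (1, 2), (1, 3), (2, 0), (2, 3), (2, 4), (2, 5), (3, 3), (3, 4), (3,
      6), (3, 7), (4, 0), (4, 5), (4, 8), (4, 9), (5, 6), (5, 7), (5, 9)]
    cl := [0, 2, 6, 1, 1, 0, 4, 5, 7, 3]
    chq := [(0, 6), (1, 3), (3, 1), (6, 0)]
    rng := [(0, 1), (0, 9), (1, 0), (1, 2), (2, 1), (2, 3), (3, 2), (3, 6), (4, 5), (4, 7), (5, 4), (5,
      8), (6, 3), (6, 9), (7, 4), (7, 9), (8, 5), (8, 9), (9, 0), (9, 6), (9, 7), (9, 8)]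
    lev := [] }
  links := [[1, 2, 6, 7], [2, 0, 7, 8, 9], [6, 0, 1, 9, 3, 10, 11, 4], [10, 2, 9, 12, 5, 13], [6, 2, 11,
    14, 15], [13, 3, 12, 15]]
  P := {
    a := 6
    N := 16
    nb := [198, 901, 3675, 13860, 51268, 45064, 32917, 323, 642, 4366, 10252, 17428, 33320, 33832,
      34832, 28784]
    tri := [(0, 1, 2), (0, 1, 7), (0, 2, 6), (0, 6, 7), (1, 2, 9), (1, 7, 8), (1, 8, 9), (2, 3, 9), (2,
      3, 10), (2, 4, 6), (2, 4, 11), (2, 10, 11), (3, 5, 12), (3, 5, 13), (3, 9, 12), (3, 10, 13),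
      (4, 6, 15), (4, 11, 14), (4, 14, 15), (5, 12, 15), (5, 13, 15)]
    fin := [0, 0, 0, 3, 0, 3, 0, 7, 8, 3, 3, 0, 12, 13, 14, 15]
    chd := [(0, 8), (3, 15)]
    steps := [(0, 1), (0, 2), (0, 4), (0, 6), (0, 11), (3, 5), (3, 9), (3, 10)] }
  rep := [0, 3, 7, 15, 12, 13, 8, 14]

noncomputable def v792 : Cov.CovD where
  P := 3
  N := 5
  pl := [1, 6, 7, 8]
  lev := [⟨[], [], [], [2], [(0, 0, [6])]⟩,
    ⟨[], [(0, 0), (0, 1), (0, 6)], [(1, 6)], [2], [(2, 6, [0]), (3, 1, [3])]⟩,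
    ⟨[(0, 1)], [(0, 0), (0, 1), (1, 0), (1, 1), (1, 6)], [(0, 0), (0, 1), (1, 1)], [], [(0,
      0, [6]), (3, 1, [3]), (4, 1, [3]), (5, 0, [6])]⟩,
    ⟨[(0, 2), (1, 2)], [(1, 1), (2, 0), (2, 1)], [(1, 1)], [4, 5], [(3, 1, [3]), (4, 1,
      [3])]⟩,
    ⟨[(0, 2), (1, 2), (2, 3)], [(0, 0), (2, 0), (2, 1), (2, 3)], [(0, 0), (0, 3)], [7],
      [(0, 0, [6]), (5, 0, [6]), (9, 3, [1])]⟩,
    ⟨[(2, 3)], [(3, 1), (3, 3), (4, 3)], [], [4, 5], [(9, 3, [1])]⟩]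
  Ta := [((0, 1), 0, 2), ((0, 9), 0, 3), ((3, 2), 1, 6), ((3, 6), 1, 4), ((4, 5), 1, 0), ((4, 7),
    1, 5), ((5, 4), 0, 1), ((5, 8), 0, 7)]
  Tb := [((0, 1, 9), 0, 2, 3), ((1, 0, 2), 2, 0, 6), ((2, 1, 3), 6, 2, 1), ((3, 2, 6), 1, 6, 4),
    ((4, 5, 7), 1, 0, 5), ((5, 4, 8), 0, 1, 7), ((6, 3, 9), 4, 1, 3), ((7, 4, 9), 5, 1, 3),
    ((8, 5, 9), 7, 0, 3), ((9, 0, 6), 3, 0, 4), ((9, 0, 7), 3, 0, 5), ((9, 0, 8), 3, 0, 7),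
    ((9, 6, 7), 3, 4, 5), ((9, 6, 8), 3, 4, 7), ((9, 7, 8), 3, 5, 7)]
  Tc := []
  Td := [((0, 6), (0, 1), 2), ((0, 6), (0, 9), 3), ((0, 6), (5, 4), 1), ((0, 6), (5, 8), 7), ((1,
    3), (3, 2), 6), ((1, 3), (3, 6), 4), ((1, 3), (4, 5), 0), ((1, 3), (4, 7), 5), ((3, 1),
    (9, 0), 0), ((3, 1), (9, 6), 4), ((3, 1), (9, 7), 5), ((3, 1), (9, 8), 7), ((6, 0), (2,
    1), 2), ((6, 0), (2, 3), 1)]
  G := [[0, 0, 0x4661165824246e111ed8c82ae2818d48aa84c6, 0x22624ee31bed888c14,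
    0x246e321e583ae8c12], [0, 0, 0x24246e111ed8aa8c24, 0x34346e221ed8aa8c14,
    0x44482ee32a235edc12], [0, 0, 0, 0x426482ee28111edc18, 0x44482ee22a111edc18], [0,
    0x14141e112ee81a8c14, 0, 0x24246e111ed8aa8c14, 0x246e482ae111e9c21]]

noncomputable def n792 : Ent := ⟨e792, noF, [], [], []⟩

def c792 : PLift (Cov.check n792.C.D v792 = true) := ⟨by decide +kernel⟩

def b792 : PLift (entF (fidx ts) 400 792 n792 = true) := ⟨by decide +kernel⟩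

theorem g792 : GoodF (fidx ts) 400 792 := GoodF.ofV v792 n792 c792.down b792.down

/-- 458654:680 -/
noncomputable def e793 : SCfg where
  D := {
    a := 6
    L := 11
    kp := 8
    inn := [(0, 1), (0, 2), (1, 0), (1, 2), (2, 0), (2, 1), (2, 3), (2, 4), (3, 2), (3, 5), (4, 2), (5,
      3)]
    mix := [(0, 0), (0, 1), (1, 1), (1, 2), (1, 3), (2, 0), (2, 3), (2, 4), (2, 5), (3, 3), (3, 4), (3,
      6), (3, 7), (4, 0), (4, 5), (4, 8), (4, 9), (5, 6), (5, 7), (5, 10)]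
    cl := [0, 2, 5, 1, 1, 0, 3, 4, 7, 8, 6]
    chq := [(0, 5), (1, 6), (5, 0), (6, 1)]
    rng := [(0, 1), (0, 9), (1, 0), (1, 2), (2, 1), (2, 3), (3, 2), (3, 6), (4, 5), (4, 7), (5, 4), (5,
      8), (6, 3), (6, 10), (7, 4), (7, 10), (8, 5), (8, 9), (9, 0), (9, 8), (10, 6), (10, 7)]
    lev := [] }
  links := [[1, 2, 6, 7], [2, 0, 7, 8, 9], [6, 0, 1, 9, 3, 10, 11, 4], [10, 2, 9, 12, 5, 13], [6, 2, 11,
    14, 15], [13, 3, 12, 16]]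
  P := {
    a := 6
    N := 17
    nb := [198, 901, 3675, 13860, 51268, 77832, 32917, 323, 642, 4366, 10252, 17428, 66088, 66600,
      34832, 16464, 12320]
    tri := [(0, 1, 2), (0, 1, 7), (0, 2, 6), (0, 6, 7), (1, 2, 9), (1, 7, 8), (1, 8, 9), (2, 3, 9), (2,
      3, 10), (2, 4, 6), (2, 4, 11), (2, 10, 11), (3, 5, 12), (3, 5, 13), (3, 9, 12), (3, 10, 13),
      (4, 6, 15), (4, 11, 14), (4, 14, 15), (5, 12, 16), (5, 13, 16)]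
    fin := [0, 0, 0, 3, 0, 3, 0, 7, 8, 3, 3, 0, 12, 13, 14, 15, 16]
    chd := [(0, 8), (3, 16)]
    steps := [(0, 1), (0, 2), (0, 4), (0, 6), (0, 11), (3, 5), (3, 9), (3, 10)] }
  rep := [0, 3, 7, 12, 13, 8, 16, 14, 15]

noncomputable def v793 : Cov.CovD where
  P := 3
  N := 6
  pl := [1, 6, 7, 8, 9]
  lev := [⟨[], [], [], [2], [(0, 0, [5])]⟩,
    ⟨[], [(0, 0), (0, 1), (0, 5)], [(1, 5)], [2], [(2, 5, [0]), (3, 1, [6])]⟩,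
    ⟨[(0, 1)], [(0, 0), (0, 1), (1, 0), (1, 1), (1, 5)], [(0, 0), (0, 1), (1, 1)], [], [(0,
      0, [5]), (3, 1, [6]), (4, 1, [6]), (5, 0, [5])]⟩,
    ⟨[(0, 2), (1, 2)], [(1, 1), (2, 0), (2, 1)], [(1, 1)], [3, 4], [(3, 1, [6]), (4, 1,
      [6])]⟩,
    ⟨[(0, 2), (1, 2), (2, 3)], [(0, 0), (2, 0), (2, 1)], [(0, 0)], [7, 8], [(0, 0, [5]),
      (5, 0, [5])]⟩,
    ⟨[(2, 3)], [(3, 1), (3, 6)], [], [3, 4], [(10, 6, [1])]⟩]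
  Ta := [((0, 1), 0, 2), ((0, 9), 0, 8), ((3, 2), 1, 5), ((3, 6), 1, 3), ((4, 5), 1, 0), ((4, 7),
    1, 4), ((5, 4), 0, 1), ((5, 8), 0, 7)]
  Tb := [((0, 1, 9), 0, 2, 8), ((1, 0, 2), 2, 0, 5), ((2, 1, 3), 5, 2, 1), ((3, 2, 6), 1, 5, 3),
    ((4, 5, 7), 1, 0, 4), ((5, 4, 8), 0, 1, 7), ((6, 3, 10), 3, 1, 6), ((7, 4, 10), 4, 1, 6),
    ((8, 5, 9), 7, 0, 8), ((9, 0, 8), 8, 0, 7), ((10, 6, 7), 6, 3, 4)]
  Tc := []
  Td := [((0, 5), (0, 1), 2), ((0, 5), (0, 9), 8), ((0, 5), (5, 4), 1), ((0, 5), (5, 8), 7), ((1,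
    6), (3, 2), 5), ((1, 6), (3, 6), 3), ((1, 6), (4, 5), 0), ((1, 6), (4, 7), 4), ((5, 0),
    (2, 1), 2), ((5, 0), (2, 3), 1), ((6, 1), (10, 6), 3), ((6, 1), (10, 7), 4)]
  G := [[0, 0, 0x644eaee22a737edc2266eee3bbeda88cc2, 0x6664eaae28733edc18, 0x666e4aaae333e9c12],
    [0, 0, 0x6664eaae28733edc28, 0x2266eee3bbeda88c14, 0x666e333e5aaae8c12], [0, 0, 0,
    0x644eaee22a737edc18, 0x644eaee22a737edc18], [0, 0x111e111e6111e8a14, 0,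
    0x6663365eaae2878dc18, 0x6664eaae28733edc18]]

noncomputable def n793 : Ent := ⟨e793, noF, [], [], [(16, 14, [1580095832788404724998799751142926758855362888449624481876421996545, 0]), (16, 15, [1685356702439545624007900436039642273970977273354372543760003334145, 0])]⟩

def c793 : PLift (Cov.check n793.C.D v793 = true) := ⟨by decide +kernel⟩

def b793 : PLift (entF (fidx ts) 400 793 n793 = true) := ⟨by decide +kernel⟩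

theorem g793 : GoodF (fidx ts) 400 793 := GoodF.ofV v793 n793 c793.down b793.down

/-- 458654:681 -/
noncomputable def e794 : SCfg where
  D := {
    a := 6
    L := 11
    kp := 8
    inn := [(0, 1), (0, 2), (1, 0), (1, 2), (2, 0), (2, 1), (2, 3), (2, 4), (3, 2), (3, 5), (4, 2), (5,
      3)]
    mix := [(0, 0), (0, 1), (1, 1), (1, 2), (1, 3), (2, 0), (2, 3), (2, 4), (2, 5), (3, 3), (3, 4), (3,
      6), (3, 7), (4, 0), (4, 5), (4, 8), (4, 9), (5, 4), (5, 7), (5, 10)]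
    cl := [1, 2, 4, 0, 0, 1, 5, 3, 6, 7, 8]
    chq := [(0, 3), (1, 4), (3, 0), (4, 1)]
    rng := [(0, 1), (0, 9), (1, 0), (1, 2), (2, 1), (2, 3), (3, 2), (3, 6), (4, 5), (4, 10), (5, 4),
      (5, 8), (6, 3), (6, 7), (7, 6), (7, 10), (8, 5), (8, 9), (9, 0), (9, 8), (10, 4), (10, 7)]
    lev := [] }
  links := [[1, 2, 6, 7], [2, 0, 7, 8, 9], [6, 0, 1, 9, 3, 10, 11, 4], [10, 2, 9, 12, 13, 5], [6, 2, 11,
    14, 15], [10, 3, 13, 16]]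
  P := {
    a := 6
    N := 17
    nb := [198, 901, 3675, 13860, 51268, 74760, 32917, 323, 642, 4366, 67628, 17428, 8712, 69672,
      34832, 16464, 9248]
    tri := [(0, 1, 2), (0, 1, 7), (0, 2, 6), (0, 6, 7), (1, 2, 9), (1, 7, 8), (1, 8, 9), (2, 3, 9), (2,
      3, 10), (2, 4, 6), (2, 4, 11), (2, 10, 11), (3, 5, 10), (3, 5, 13), (3, 9, 12), (3, 12, 13),
      (4, 6, 15), (4, 11, 14), (4, 14, 15), (5, 10, 16), (5, 13, 16)]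
    fin := [0, 0, 0, 3, 0, 3, 0, 7, 8, 3, 3, 0, 12, 13, 14, 15, 16]
    chd := [(0, 8), (3, 13)]
    steps := [(0, 1), (0, 2), (0, 4), (0, 6), (0, 11), (3, 5), (3, 9), (3, 10)] }
  rep := [3, 0, 7, 13, 8, 12, 14, 15, 16]

noncomputable def v794 : Cov.CovD where
  P := 3
  N := 6
  pl := [1, 6, 8, 9, 10]
  lev := [⟨[], [], [], [2], [(0, 1, [4])]⟩,
    ⟨[], [(0, 0), (0, 1), (0, 4)], [(0, 4)], [2], [(2, 4, [1]), (3, 0, [3])]⟩,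
    ⟨[(0, 1)], [(0, 0), (0, 1), (1, 0), (1, 1), (1, 4)], [(0, 0), (0, 1), (1, 1)], [], [(0,
      1, [4]), (3, 0, [3]), (4, 0, [3]), (5, 1, [4])]⟩,
    ⟨[(0, 2), (1, 2)], [(1, 0), (2, 0), (2, 1), (2, 3)], [(0, 0), (0, 3)], [5], [(3, 0,
      [3]), (4, 0, [3]), (7, 3, [0])]⟩,
    ⟨[(0, 2), (1, 2), (2, 3)], [(0, 1), (2, 0), (2, 1)], [(1, 1)], [6, 7], [(0, 1, [4]),
      (5, 1, [4])]⟩,
    ⟨[(2, 3)], [(2, 0), (3, 0), (3, 3)], [(0, 3)], [8], [(4, 0, [3]), (7, 3, [0])]⟩]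
  Ta := [((0, 1), 1, 2), ((0, 9), 1, 7), ((3, 2), 0, 4), ((3, 6), 0, 5), ((4, 5), 0, 1), ((4,
    10), 0, 8), ((5, 4), 1, 0), ((5, 8), 1, 6)]
  Tb := [((0, 1, 9), 1, 2, 7), ((1, 0, 2), 2, 1, 4), ((2, 1, 3), 4, 2, 0), ((3, 2, 6), 0, 4, 5),
    ((4, 5, 10), 0, 1, 8), ((5, 4, 8), 1, 0, 6), ((6, 3, 7), 5, 0, 3), ((7, 6, 10), 3, 5, 8),
    ((8, 5, 9), 6, 1, 7), ((9, 0, 8), 7, 1, 6), ((10, 4, 7), 8, 0, 3)]
  Tc := []
  Td := [((0, 3), (3, 2), 4), ((0, 3), (3, 6), 5), ((0, 3), (4, 5), 1), ((0, 3), (4, 10), 8),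
    ((1, 4), (0, 1), 2), ((1, 4), (0, 9), 7), ((1, 4), (5, 4), 0), ((1, 4), (5, 8), 6), ((3,
    0), (7, 6), 5), ((3, 0), (7, 10), 8), ((4, 1), (2, 1), 2), ((4, 1), (2, 3), 0)]
  G := [[0, 0, 0x145ded379de9398c24, 0xd3ed119d9ede4339959a4c544834559de4e8cc,
    0x355475ed18e99dec28], [0, 0, 0xd44be9d139d1bdec28, 0, 0x35c4e95d91933dec21], [0, 0,
    0xe14eeedeeedac2eec482c, 0xeeeda8eeede414eed481c, 0xeeed4eeedeeedac21], [0,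
    0xeeee2eeeeeeeeca14, 0x8484264eeedeeedeee98c2c, 0, 0xeeedeeed6eeed8c21]]

noncomputable def n794 : Ent := ⟨e794, noF, [], [], []⟩

def c794 : PLift (Cov.check n794.C.D v794 = true) := ⟨by decide +kernel⟩

def b794 : PLift (entF (fidx ts) 400 794 n794 = true) := ⟨by decide +kernel⟩

theorem g794 : GoodF (fidx ts) 400 794 := GoodF.ofV v794 n794 c794.down b794.down

/-- 458644:682/1 -/
noncomputable def e795 : SCfg where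
  D := {
    a := 6
    L := 9
    kp := 6
    inn := [(0, 1), (0, 2), (1, 0), (1, 2), (2, 0), (2, 1), (2, 3), (3, 2), (3, 4), (3, 5), (4, 3), (5,
      3)]
    mix := [(0, 0), (0, 1), (1, 1), (1, 2), (1, 3), (2, 0), (2, 3), (2, 4), (2, 5), (2, 6), (3, 3), (3,
      4), (3, 7), (4, 2), (4, 3), (4, 7), (5, 4), (5, 7), (5, 8)]
    cl := [0, 1, 2, 0, 0, 4, 5, 3, 6]
    chq := [(0, 3), (3, 0)]
    rng := [(0, 1), (0, 6), (1, 0), (1, 2), (2, 1), (2, 3), (2, 7), (3, 2), (4, 5), (4, 8), (5, 4), (5,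
      6), (6, 0), (6, 5), (7, 2), (7, 8), (8, 4), (8, 7)]
    lev := [] }
  links := [[1, 2, 6, 7], [2, 0, 7, 8, 9], [6, 0, 1, 9, 3, 10, 11, 12], [10, 2, 9, 4, 13, 5], [13, 3, 9,
    8], [10, 3, 13, 14]]
  P := {
    a := 6
    N := 15
    nb := [198, 901, 7755, 9780, 8968, 25608, 4229, 323, 8850, 286, 18476, 5124, 2116, 16696, 9248]
    tri := [(0, 1, 2), (0, 1, 7), (0, 2, 6), (0, 6, 7), (1, 2, 9), (1, 7, 8), (1, 8, 9), (2, 3, 9), (2,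
      3, 10), (2, 6, 12), (2, 10, 11), (2, 11, 12), (3, 4, 9), (3, 4, 13), (3, 5, 10), (3, 5, 13),
      (4, 8, 9), (4, 8, 13), (5, 10, 14), (5, 13, 14)]
    fin := [0, 0, 0, 0, 0, 0, 0, 7, 8, 0, 0, 11, 12, 13, 14]
    chd := [(0, 13)]
    steps := [(0, 1), (0, 2), (0, 3), (0, 5), (0, 6), (0, 9), (0, 4), (0, 10)] }
  rep := [0, 7, 8, 13, 11, 12, 14]

noncomputable def v795 : Cov.CovD where
  P := 3
  N := 4
  pl := [1, 2, 5, 6, 8]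
  lev := [⟨[], [], [], [1], [(0, 0, [3])]⟩,
    ⟨[], [(0, 0)], [], [1, 2], [(3, 0, [3])]⟩,
    ⟨[(0, 1)], [(0, 0), (1, 0)], [(0, 0)], [4, 5], [(0, 0, [3]), (3, 0, [3]), (4, 0, [3])]⟩,
    ⟨[(0, 2), (1, 2)], [(1, 0), (2, 0), (2, 3)], [(0, 0), (0, 3)], [], [(3, 0, [3]), (4, 0,
      [3]), (7, 3, [0])]⟩,
    ⟨[(2, 3)], [(1, 0), (2, 0), (3, 0), (3, 3)], [(0, 3)], [2], [(3, 0, [3]), (7, 3, [0])]⟩,
    ⟨[(2, 3), (3, 4)], [(2, 0), (3, 0), (3, 3), (4, 3)], [(0, 3)], [6], [(4, 0, [3]), (7,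
      3, [0])]⟩]
  Ta := [((0, 1), 0, 1), ((0, 6), 0, 5), ((3, 2), 0, 2), ((4, 5), 0, 4), ((4, 8), 0, 6)]
  Tb := [((0, 1, 6), 0, 1, 5), ((1, 0, 2), 1, 0, 2), ((2, 1, 3), 2, 1, 0), ((2, 1, 7), 2, 1, 3),
    ((2, 3, 7), 2, 0, 3), ((4, 5, 8), 0, 4, 6), ((5, 4, 6), 4, 0, 5), ((6, 0, 5), 5, 0, 4),
    ((7, 2, 8), 3, 2, 6), ((8, 4, 7), 6, 0, 3)]
  Tc := []
  Td := [((0, 3), (0, 1), 1), ((0, 3), (0, 6), 5), ((0, 3), (3, 2), 2), ((0, 3), (4, 5), 4), ((0,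
    3), (4, 8), 6), ((3, 0), (7, 2), 2), ((3, 0), (7, 8), 6)]
  G := [[0, 0x111161111ac1111c2c4, 0, 0xa1926192c152e48, 0x11a8618d2a1162ce84], [0, 0,
    0x141261812a1214ce81, 0x16c2a6c21dc2e48, 0xc1a1863852a7812ce81], [0, 0, 0,
    0x842d2a692282484cee84, 0x4888e1ea2e1c6c6aa86898]]

noncomputable def n795 : Ent := ⟨e795, noF, [], [], []⟩

def c795 : PLift (Cov.check n795.C.D v795 = true) := ⟨by decide +kernel⟩

def b795 : PLift (entF (fidx ts) 400 795 n795 = true) := ⟨by decide +kernel⟩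

theorem g795 : GoodF (fidx ts) 400 795 := GoodF.ofV v795 n795 c795.down b795.down

/-- 458644:682 -/
noncomputable def e796 : SCfg where
  D := {
    a := 6
    L := 10
    kp := 7
    inn := [(0, 1), (0, 2), (1, 0), (1, 2), (2, 0), (2, 1), (2, 3), (3, 2), (3, 4), (3, 5), (4, 3), (5,
      3)]
    mix := [(0, 0), (0, 1), (1, 1), (1, 2), (1, 3), (2, 0), (2, 3), (2, 4), (2, 5), (2, 6), (3, 3), (3,
      4), (3, 7), (4, 3), (4, 7), (4, 8), (5, 4), (5, 7), (5, 9)]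
    cl := [0, 1, 2, 0, 0, 4, 5, 3, 6, 7]
    chq := [(0, 3), (3, 0)]
    rng := [(0, 1), (0, 6), (1, 0), (1, 2), (2, 1), (2, 3), (3, 2), (3, 8), (4, 5), (4, 9), (5, 4), (5,
      6), (6, 0), (6, 5), (7, 8), (7, 9), (8, 3), (8, 7), (9, 4), (9, 7)]
    lev := [] }
  links := [[1, 2, 6, 7], [2, 0, 7, 8, 9], [6, 0, 1, 9, 3, 10, 11, 12], [10, 2, 9, 4, 13, 5], [13, 3, 9,
    14], [10, 3, 13, 15]]
  P := {
    a := 6
    N := 16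
    nb := [198, 901, 7755, 9780, 25096, 41992, 4229, 323, 642, 16670, 34860, 5124, 2116, 49208, 8720,
      9248]
    tri := [(0, 1, 2), (0, 1, 7), (0, 2, 6), (0, 6, 7), (1, 2, 9), (1, 7, 8), (1, 8, 9), (2, 3, 9), (2,
      3, 10), (2, 6, 12), (2, 10, 11), (2, 11, 12), (3, 4, 9), (3, 4, 13), (3, 5, 10), (3, 5, 13),
      (4, 9, 14), (4, 13, 14), (5, 10, 15), (5, 13, 15)]
    fin := [0, 0, 0, 0, 0, 0, 0, 7, 8, 0, 0, 11, 12, 13, 14, 15]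
    chd := [(0, 13)]
    steps := [(0, 1), (0, 2), (0, 3), (0, 4), (0, 5), (0, 6), (0, 9), (0, 10)] }
  rep := [0, 7, 8, 13, 11, 12, 14, 15]

noncomputable def v796 : Cov.CovD where
  P := 3
  N := 5
  pl := [1, 2, 5, 6, 8, 9]
  lev := [⟨[], [], [], [1], [(0, 0, [3])]⟩,
    ⟨[], [(0, 0)], [], [1, 2], [(3, 0, [3])]⟩,
    ⟨[(0, 1)], [(0, 0), (1, 0)], [(0, 0)], [4, 5], [(0, 0, [3]), (3, 0, [3]), (4, 0, [3])]⟩,
    ⟨[(0, 2), (1, 2)], [(1, 0), (2, 0), (2, 3)], [(0, 0), (0, 3)], [], [(3, 0, [3]), (4, 0,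
      [3]), (7, 3, [0])]⟩,
    ⟨[(2, 3)], [(1, 0), (2, 0), (3, 0), (3, 3)], [(0, 3)], [6], [(3, 0, [3]), (7, 3, [0])]⟩,
    ⟨[(2, 3), (3, 4)], [(2, 0), (3, 0), (3, 3), (4, 3)], [(0, 3)], [7], [(4, 0, [3]), (7,
      3, [0])]⟩]
  Ta := [((0, 1), 0, 1), ((0, 6), 0, 5), ((3, 2), 0, 2), ((3, 8), 0, 6), ((4, 5), 0, 4), ((4, 9),
    0, 7)]
  Tb := [((0, 1, 6), 0, 1, 5), ((1, 0, 2), 1, 0, 2), ((2, 1, 3), 2, 1, 0), ((3, 2, 8), 0, 2, 6),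
    ((4, 5, 9), 0, 4, 7), ((5, 4, 6), 4, 0, 5), ((6, 0, 5), 5, 0, 4), ((7, 8, 9), 3, 6, 7),
    ((8, 3, 7), 6, 0, 3), ((9, 4, 7), 7, 0, 3)]
  Tc := []
  Td := [((0, 3), (0, 1), 1), ((0, 3), (0, 6), 5), ((0, 3), (3, 2), 2), ((0, 3), (3, 8), 6), ((0,
    3), (4, 5), 4), ((0, 3), (4, 9), 7), ((3, 0), (7, 8), 6), ((3, 0), (7, 9), 7)]
  G := [[0, 0x111161111a1111ce48, 0, 0xc13a1967cc11a6c1b11ae48, 0x215481b6116d6aaa1d116e84], [0,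
    0, 0x11c11a611c116a11a116ce81, 0x51c696a419c35a639a936cac4, 0x93c15a65cc696a51a936ce81],
    [0, 0, 0, 0xc84d4a566c3a69a6a9a65ce81, 0xac5ca366c9c63a668b61ce81]]

noncomputable def n796 : Ent := ⟨e796, noF, [], [], [(8, 14, [385746751338780685620664494392815470296102193487288376375750657, 0])]⟩

def c796 : PLift (Cov.check n796.C.D v796 = true) := ⟨by decide +kernel⟩

def b796 : PLift (entF (fidx ts) 400 796 n796 = true) := ⟨by decide +kernel⟩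

theorem g796 : GoodF (fidx ts) 400 796 := GoodF.ofV v796 n796 c796.down b796.down

/-- 458645:683/2 -/
noncomputable def e797 : SCfg where
  D := {
    a := 6
    L := 9
    kp := 6
    inn := [(0, 1), (0, 2), (1, 0), (1, 2), (2, 0), (2, 1), (2, 3), (2, 5), (3, 2), (3, 4), (4, 3), (5,
      2)]
    mix := [(0, 0), (0, 1), (1, 1), (1, 2), (1, 3), (2, 0), (2, 3), (2, 4), (2, 5), (3, 3), (3, 4), (3,
      6), (3, 7), (4, 2), (4, 3), (4, 6), (5, 4), (5, 5), (5, 7), (5, 8)]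
    cl := [2, 4, 3, 0, 1, 1, 5, 0, 6]
    chq := [(1, 3), (2, 3), (3, 1), (3, 2)]
    rng := [(0, 1), (0, 5), (1, 0), (1, 2), (2, 1), (2, 3), (2, 6), (3, 2), (4, 7), (5, 0), (5, 8), (6,
      2), (6, 7), (7, 4), (7, 6), (7, 8), (8, 5), (8, 7)]
    lev := [] }
  links := [[1, 2, 6, 7], [2, 0, 7, 8, 9], [6, 0, 1, 9, 3, 10, 5, 11], [10, 2, 9, 4, 12, 13], [12, 3, 9,
    8], [11, 2, 10, 13, 14]]
  P := {
    a := 6
    N := 15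
    nb := [198, 901, 3691, 13844, 4872, 27652, 2181, 323, 4754, 286, 8236, 16484, 8472, 21544, 10272]
    tri := [(0, 1, 2), (0, 1, 7), (0, 2, 6), (0, 6, 7), (1, 2, 9), (1, 7, 8), (1, 8, 9), (2, 3, 9), (2,
      3, 10), (2, 5, 10), (2, 5, 11), (2, 6, 11), (3, 4, 9), (3, 4, 12), (3, 10, 13), (3, 12, 13),
      (4, 8, 9), (4, 8, 12), (5, 10, 13), (5, 11, 14), (5, 13, 14)]
    fin := [0, 1, 2, 3, 1, 3, 0, 7, 1, 3, 2, 2, 12, 3, 14]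
    chd := [(0, 1), (1, 2)]
    steps := [(0, 6), (1, 8), (1, 4), (2, 10), (2, 11), (3, 9), (3, 13), (3, 5)] }
  rep := [3, 2, 0, 1, 7, 12, 14]

noncomputable def v797 : Cov.CovD where
  P := 3
  N := 4
  pl := [1, 6, 8]
  lev := [⟨[], [], [], [4], [(0, 2, [3])]⟩,
    ⟨[], [(0, 0), (0, 2), (0, 3)], [(0, 3)], [4], [(2, 3, [1, 2]), (3, 0, [])]⟩,
    ⟨[(0, 1)], [(0, 0), (0, 1), (0, 2), (1, 0), (1, 1), (1, 2), (1, 3)], [(0, 1), (0, 2),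
      (1, 1), (1, 2)], [], [(0, 2, [3]), (3, 0, []), (4, 1, [3]), (5, 1, [3])]⟩,
    ⟨[(0, 2), (1, 2)], [(1, 0), (2, 0), (2, 1), (2, 2)], [(0, 0), (0, 1)], [5], [(3, 0,
      []), (4, 1, [3]), (7, 0, [])]⟩,
    ⟨[(2, 3)], [(1, 0), (1, 3), (2, 0), (3, 0), (3, 1), (3, 3)], [(0, 3)], [5], [(2, 3, [1,
      2]), (3, 0, [])]⟩,
    ⟨[(0, 2), (1, 2), (2, 3)], [(2, 0), (2, 1), (2, 2), (3, 0), (3, 1)], [(0, 1), (1, 1)],
      [6], [(4, 1, [3]), (5, 1, [3]), (7, 0, [])]⟩]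
  Ta := [((3, 2), 0, 3), ((4, 7), 1, 0), ((5, 0), 1, 2), ((5, 8), 1, 6), ((7, 4), 0, 1), ((7, 6),
    0, 5), ((7, 8), 0, 6)]
  Tb := [((0, 1, 5), 2, 4, 1), ((1, 0, 2), 4, 2, 3), ((2, 1, 3), 3, 4, 0), ((2, 1, 6), 3, 4, 5),
    ((2, 3, 6), 3, 0, 5), ((5, 0, 8), 1, 2, 6), ((6, 2, 7), 5, 3, 0), ((7, 4, 6), 0, 1, 5),
    ((7, 4, 8), 0, 1, 6), ((7, 6, 8), 0, 5, 6), ((8, 5, 7), 6, 1, 0)]
  Tc := [(3, 1, 2)]
  Td := [((1, 3), (4, 7), 0), ((1, 3), (5, 0), 2), ((1, 3), (5, 8), 6), ((2, 3), (0, 1), 4), ((2,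
    3), (0, 5), 1), ((3, 1), (2, 1), 4), ((3, 1), (2, 3), 0), ((3, 1), (2, 6), 5), ((3, 2),
    (2, 1), 4), ((3, 2), (2, 3), 0), ((3, 2), (2, 6), 5)]
  G := [[0, 0, 0x1812c481214c8412111ec82e, 0, 0x11c2811612c8a11611ac843], [0, 0,
    0x1812c481214c8412111ec82e, 0x12111ec82111e12c425, 0x11c2811614a8a12111ec843], [0,
    0x64626688c1a1a1a42c, 0x424c8a82cc141c488e8442c1c828c2e, 0,
    0x8281ccacc6c168281441483c84b], [0, 0, 0x424ccce82cc1cc3cc5682c, 0xcccc1a42414c281cc29,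
    0x4128c8e84a92428c381e849]]

noncomputable def n797 : Ent := ⟨e797, noF, [], [], []⟩

def c797 : PLift (Cov.check n797.C.D v797 = true) := ⟨by decide +kernel⟩

def b797 : PLift (entF (fidx ts) 400 797 n797 = true) := ⟨by decide +kernel⟩

theorem g797 : GoodF (fidx ts) 400 797 := GoodF.ofV v797 n797 c797.down b797.down

/-- 458645:683/1 -/
noncomputable def e798 : SCfg where
  D := {
    a := 6
    L := 10
    kp := 7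
    inn := [(0, 1), (0, 2), (1, 0), (1, 2), (2, 0), (2, 1), (2, 3), (2, 5), (3, 2), (3, 4), (4, 3), (5,
      2)]
    mix := [(0, 0), (0, 1), (1, 1), (1, 2), (1, 3), (2, 0), (2, 3), (2, 4), (2, 5), (3, 3), (3, 4), (3,
      6), (3, 7), (4, 2), (4, 3), (4, 6), (5, 4), (5, 5), (5, 8), (5, 9)]
    cl := [2, 3, 1, 0, 0, 0, 4, 5, 6, 7]
    chq := [(1, 2), (1, 5), (2, 1), (5, 1)]
    rng := [(0, 1), (0, 5), (1, 0), (1, 2), (2, 1), (2, 3), (2, 6), (3, 2), (4, 7), (4, 8), (5, 0), (5,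
      9), (6, 2), (6, 7), (7, 4), (7, 6), (8, 4), (8, 9), (9, 5), (9, 8)]
    lev := [] }
  links := [[1, 2, 6, 7], [2, 0, 7, 8, 9], [6, 0, 1, 9, 3, 10, 5, 11], [10, 2, 9, 4, 12, 13], [12, 3, 9,
    8], [11, 2, 10, 14, 15]]
  P := {
    a := 6
    N := 16
    nb := [198, 901, 3691, 13844, 4872, 52228, 2181, 323, 4754, 286, 24620, 32868, 8472, 5128, 33824,
      18464]
    tri := [(0, 1, 2), (0, 1, 7), (0, 2, 6), (0, 6, 7), (1, 2, 9), (1, 7, 8), (1, 8, 9), (2, 3, 9), (2,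
      3, 10), (2, 5, 10), (2, 5, 11), (2, 6, 11), (3, 4, 9), (3, 4, 12), (3, 10, 13), (3, 12, 13),
      (4, 8, 9), (4, 8, 12), (5, 10, 14), (5, 11, 15), (5, 14, 15)]
    fin := [0, 0, 2, 3, 3, 2, 0, 7, 3, 2, 2, 2, 12, 13, 14, 15]
    chd := [(0, 3), (3, 13)]
    steps := [(0, 1), (0, 6), (2, 5), (2, 9), (2, 10), (2, 11), (3, 4), (3, 8)] }
  rep := [2, 3, 0, 7, 12, 13, 14, 15]

noncomputable def v798 : Cov.CovD where
  P := 3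
  N := 5
  pl := [1, 6, 8, 9]
  lev := [⟨[], [], [], [3], [(0, 2, [1])]⟩,
    ⟨[], [(0, 0), (0, 1), (0, 2)], [(0, 1)], [3], [(2, 1, [2, 5]), (3, 0, [])]⟩,
    ⟨[(0, 1)], [(0, 0), (0, 2), (1, 0), (1, 1), (1, 2)], [(0, 0), (0, 2)], [], [(0, 2,
      [1]), (3, 0, []), (4, 0, []), (5, 0, [])]⟩,
    ⟨[(0, 2), (1, 2)], [(1, 0), (2, 0), (2, 2), (2, 5)], [(0, 0), (0, 5)], [4], [(3, 0,
      []), (4, 0, []), (7, 5, [1])]⟩,
    ⟨[(2, 3)], [(1, 0), (1, 1), (2, 0), (3, 0), (3, 1), (3, 5)], [(0, 1)], [4], [(2, 1, [2,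
      5]), (3, 0, [])]⟩,
    ⟨[(0, 2), (1, 2), (2, 3)], [(2, 0), (2, 2), (3, 0)], [(0, 0)], [6, 7], [(4, 0, []), (5,
      0, [])]⟩]
  Ta := [((3, 2), 0, 1), ((4, 7), 0, 5), ((4, 8), 0, 6), ((5, 0), 0, 2), ((5, 9), 0, 7)]
  Tb := [((0, 1, 5), 2, 3, 0), ((1, 0, 2), 3, 2, 1), ((2, 1, 3), 1, 3, 0), ((2, 1, 6), 1, 3, 4),
    ((2, 3, 6), 1, 0, 4), ((4, 7, 8), 0, 5, 6), ((5, 0, 9), 0, 2, 7), ((6, 2, 7), 4, 1, 5),
    ((7, 4, 6), 5, 0, 4), ((8, 4, 9), 6, 0, 7), ((9, 5, 8), 7, 0, 6)]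
  Tc := [(1, 2, 5)]
  Td := [((1, 2), (2, 1), 3), ((1, 2), (2, 3), 0), ((1, 2), (2, 6), 4), ((1, 5), (2, 1), 3), ((1,
    5), (2, 3), 0), ((1, 5), (2, 6), 4), ((2, 1), (0, 1), 3), ((2, 1), (0, 5), 0), ((5, 1),
    (7, 4), 0), ((5, 1), (7, 6), 4)]
  G := [[0, 0xe884e4e268e4e26e88ce1, 0, 0xeec24eec28c2, 0xe8e4ccce2864e4eece888a422c288b], [0,
    0, 0, 0xee9284ee92486, 0xe8e4c1e2821288e12e8e4ca4b], [0, 0, 0xeec241e4eec6e88c1a,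
    0xeec28eec2452, 0xe8e481e2824e4eecec88a461288b]]

noncomputable def n798 : Ent := ⟨e798, noF, [], [], [(13, 14, [385746751338780685620664494392815470296102193487288376375758849, 0])]⟩

def c798 : PLift (Cov.check n798.C.D v798 = true) := ⟨by decide +kernel⟩

def b798 : PLift (entF (fidx ts) 400 798 n798 = true) := ⟨by decide +kernel⟩

theorem g798 : GoodF (fidx ts) 400 798 := GoodF.ofV v798 n798 c798.down b798.down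

/-- 458645:683/3 -/
noncomputable def e799 : SCfg where
  D := {
    a := 6
    L := 10
    kp := 7
    inn := [(0, 1), (0, 2), (1, 0), (1, 2), (2, 0), (2, 1), (2, 3), (2, 5), (3, 2), (3, 4), (4, 3), (5,
      2)]
    mix := [(0, 0), (0, 1), (1, 1), (1, 2), (1, 3), (2, 0), (2, 3), (2, 4), (2, 5), (3, 3), (3, 4), (3,
      6), (3, 7), (4, 3), (4, 6), (4, 8), (5, 4), (5, 5), (5, 7), (5, 9)]
    cl := [1, 2, 5, 0, 0, 0, 4, 3, 6, 7]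
    chq := [(1, 5), (3, 6), (5, 1), (6, 3)]
    rng := [(0, 1), (0, 5), (1, 0), (1, 2), (2, 1), (2, 3), (3, 2), (3, 8), (4, 7), (5, 0), (5, 9), (6,
      7), (6, 8), (7, 4), (7, 6), (7, 9), (8, 3), (8, 6), (9, 5), (9, 7)]
    lev := [] }
  links := [[1, 2, 6, 7], [2, 0, 7, 8, 9], [6, 0, 1, 9, 3, 10, 5, 11], [10, 2, 9, 4, 12, 13], [12, 3, 9,
    14], [11, 2, 10, 13, 15]]
  P := {
    a := 6
    N := 16
    nb := [198, 901, 3691, 13844, 21000, 44036, 2181, 323, 642, 16670, 8236, 32868, 24600, 37928,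
      4624, 10272]
    tri := [(0, 1, 2), (0, 1, 7), (0, 2, 6), (0, 6, 7), (1, 2, 9), (1, 7, 8), (1, 8, 9), (2, 3, 9), (2,
      3, 10), (2, 5, 10), (2, 5, 11), (2, 6, 11), (3, 4, 9), (3, 4, 12), (3, 10, 13), (3, 12, 13),
      (4, 9, 14), (4, 12, 14), (5, 10, 13), (5, 11, 15), (5, 13, 15)]
    fin := [0, 0, 2, 3, 3, 2, 0, 7, 8, 2, 2, 2, 12, 13, 3, 15]
    chd := [(0, 8), (13, 3)]
    steps := [(0, 1), (0, 6), (2, 5), (2, 9), (2, 10), (2, 11), (3, 4), (3, 14)] }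
  rep := [2, 0, 7, 13, 12, 8, 3, 15]

noncomputable def v799 : Cov.CovD where
  P := 3
  N := 5
  pl := [1, 6, 9]
  lev := [⟨[], [], [], [2], [(0, 1, [5])]⟩,
    ⟨[], [(0, 0), (0, 1), (0, 5)], [(0, 5)], [2], [(2, 5, [1]), (3, 0, [])]⟩,
    ⟨[(0, 1)], [(0, 0), (0, 1), (1, 0), (1, 1), (1, 5)], [(0, 0), (0, 1)], [], [(0, 1,
      [5]), (3, 0, []), (4, 0, []), (5, 0, [])]⟩,
    ⟨[(0, 2), (1, 2)], [(1, 0), (2, 0), (2, 1), (2, 3)], [(0, 0), (0, 3)], [4], [(3, 0,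
      []), (4, 0, []), (7, 3, [6])]⟩,
    ⟨[(2, 3)], [(1, 0), (2, 0), (3, 0), (3, 3), (3, 6)], [(0, 6)], [4], [(3, 0, []), (8, 6,
      [3])]⟩,
    ⟨[(0, 2), (1, 2), (2, 3)], [(2, 0), (2, 1), (2, 3), (3, 0), (3, 3)], [(0, 0), (0, 3)],
      [7], [(4, 0, []), (5, 0, []), (7, 3, [6])]⟩]
  Ta := [((3, 2), 0, 5), ((3, 8), 0, 6), ((4, 7), 0, 3), ((5, 0), 0, 1), ((5, 9), 0, 7)]
  Tb := [((0, 1, 5), 1, 2, 0), ((1, 0, 2), 2, 1, 5), ((2, 1, 3), 5, 2, 0), ((3, 2, 8), 0, 5, 6),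
    ((5, 0, 9), 0, 1, 7), ((6, 7, 8), 4, 3, 6), ((7, 4, 6), 3, 0, 4), ((7, 4, 9), 3, 0, 7),
    ((7, 6, 9), 3, 4, 7), ((8, 3, 6), 6, 0, 4), ((9, 5, 7), 7, 0, 3)]
  Tc := []
  Td := [((1, 5), (0, 1), 2), ((1, 5), (0, 5), 0), ((3, 6), (7, 4), 0), ((3, 6), (7, 6), 4), ((3,
    6), (7, 9), 7), ((5, 1), (2, 1), 2), ((5, 1), (2, 3), 0), ((6, 3), (8, 3), 0), ((6, 3),
    (8, 6), 4)]
  G := [[0, 0, 0x4264ee6ace8aae8c24, 0x644e48ace826a2eec42e4ceea2eea868cc1, 0xeeaeec6ee68c21],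
    [0, 0, 0x41c6368ea85a1ac24, 0x4264ce6a2ee8a8e8c14, 0x246c9865ec838c21], [0,
    0xe182e1826ea6ec68d4, 0x6148ace826a9ec28, 0x44a48ece28a6e2eec18, 0xe14ca36acac21]]

noncomputable def n799 : Ent := ⟨e799, noF, [], [], [(8, 14, [385746751338780685620664494392815470296102193487288376375758849, 0])]⟩

def c799 : PLift (Cov.check n799.C.D v799 = true) := ⟨by decide +kernel⟩

def b799 : PLift (entF (fidx ts) 400 799 n799 = true) := ⟨by decide +kernel⟩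

theorem g799 : GoodF (fidx ts) 400 799 := GoodF.ofV v799 n799 c799.down b799.down

/-- 458645:683 -/
noncomputable def e800 : SCfg where
  D := {
    a := 6
    L := 11
    kp := 8
    inn := [(0, 1), (0, 2), (1, 0), (1, 2), (2, 0), (2, 1), (2, 3), (2, 5), (3, 2), (3, 4), (4, 3), (5,
      2)]
    mix := [(0, 0), (0, 1), (1, 1), (1, 2), (1, 3), (2, 0), (2, 3), (2, 4), (2, 5), (3, 3), (3, 4), (3,
      6), (3, 7), (4, 3), (4, 6), (4, 8), (5, 4), (5, 5), (5, 9), (5, 10)]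
    cl := [1, 2, 4, 0, 0, 0, 3, 5, 6, 7, 8]
    chq := [(1, 4), (4, 1), (5, 6), (6, 5)]
    rng := [(0, 1), (0, 5), (1, 0), (1, 2), (2, 1), (2, 3), (3, 2), (3, 8), (4, 7), (4, 9), (5, 0), (5,
      10), (6, 7), (6, 8), (7, 4), (7, 6), (8, 3), (8, 6), (9, 4), (9, 10), (10, 5), (10, 9)]
    lev := [] }
  links := [[1, 2, 6, 7], [2, 0, 7, 8, 9], [6, 0, 1, 9, 3, 10, 5, 11], [10, 2, 9, 4, 12, 13], [12, 3, 9,
    14], [11, 2, 10, 15, 16]]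
  P := {
    a := 6
    N := 17
    nb := [198, 901, 3691, 13844, 21000, 101380, 2181, 323, 642, 16670, 41004, 65636, 24600, 5128,
      4624, 66592, 34848]
    tri := [(0, 1, 2), (0, 1, 7), (0, 2, 6), (0, 6, 7), (1, 2, 9), (1, 7, 8), (1, 8, 9), (2, 3, 9), (2,
      3, 10), (2, 5, 10), (2, 5, 11), (2, 6, 11), (3, 4, 9), (3, 4, 12), (3, 10, 13), (3, 12, 13),
      (4, 9, 14), (4, 12, 14), (5, 10, 15), (5, 11, 16), (5, 15, 16)]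
    fin := [0, 0, 2, 3, 3, 2, 0, 7, 8, 2, 2, 2, 12, 13, 3, 15, 16]
    chd := [(0, 8), (13, 3)]
    steps := [(0, 1), (0, 6), (2, 5), (2, 9), (2, 10), (2, 11), (3, 4), (3, 14)] }
  rep := [2, 0, 7, 12, 8, 13, 3, 15, 16]

noncomputable def v800 : Cov.CovD where
  P := 3
  N := 6
  pl := [1, 6, 9, 10]
  lev := [⟨[], [], [], [2], [(0, 1, [4])]⟩,
    ⟨[], [(0, 0), (0, 1), (0, 4)], [(0, 4)], [2], [(2, 4, [1]), (3, 0, [])]⟩,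
    ⟨[(0, 1)], [(0, 0), (0, 1), (1, 0), (1, 1), (1, 4)], [(0, 0), (0, 1)], [], [(0, 1,
      [4]), (3, 0, []), (4, 0, []), (5, 0, [])]⟩,
    ⟨[(0, 2), (1, 2)], [(1, 0), (2, 0), (2, 1), (2, 5)], [(0, 0), (0, 5)], [3], [(3, 0,
      []), (4, 0, []), (7, 5, [6])]⟩,
    ⟨[(2, 3)], [(1, 0), (2, 0), (3, 0), (3, 5), (3, 6)], [(0, 6)], [3], [(3, 0, []), (8, 6,
      [5])]⟩,
    ⟨[(0, 2), (1, 2), (2, 3)], [(2, 0), (2, 1), (3, 0)], [(0, 0)], [7, 8], [(4, 0, []), (5,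
      0, [])]⟩]
  Ta := [((3, 2), 0, 4), ((3, 8), 0, 6), ((4, 7), 0, 5), ((4, 9), 0, 7), ((5, 0), 0, 1), ((5,
    10), 0, 8)]
  Tb := [((0, 1, 5), 1, 2, 0), ((1, 0, 2), 2, 1, 4), ((2, 1, 3), 4, 2, 0), ((3, 2, 8), 0, 4, 6),
    ((4, 7, 9), 0, 5, 7), ((5, 0, 10), 0, 1, 8), ((6, 7, 8), 3, 5, 6), ((7, 4, 6), 5, 0, 3),
    ((8, 3, 6), 6, 0, 3), ((9, 4, 10), 7, 0, 8), ((10, 5, 9), 8, 0, 7)]
  Tc := []
  Td := [((1, 4), (0, 1), 2), ((1, 4), (0, 5), 0), ((4, 1), (2, 1), 2), ((4, 1), (2, 3), 0), ((5,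
    6), (7, 4), 0), ((5, 6), (7, 6), 3), ((6, 5), (8, 3), 0), ((6, 5), (8, 6), 3)]
  G := [[0, 0, 0x466eeaeecea868c24, 0x44a4ee6aaaeecec666eeaeece8868cc1, 0xeea4ee6eecac21], [0,
    0, 0x61eeaee5e818c24, 0x46a4ee6a8aeecec18, 0x6634e1883ee5ec28], [0, 0x46a4ee6a8aeecec18,
    0x61686ee6889e1ec28, 0x466eeaeecea868c14, 0xc14ee6a2a4e9ec21]]

noncomputable def n800 : Ent := ⟨e800, noF, [], [], [(8, 14, [1685382413448253767852309107433119732572617628602273068445368180737, 0]), (13, 15, [1685356702439545624007900436039642273970977273354372543760003362817, 0])]⟩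

def c800 : PLift (Cov.check n800.C.D v800 = true) := ⟨by decide +kernel⟩

def b800 : PLift (entF (fidx ts) 400 800 n800 = true) := ⟨by decide +kernel⟩

theorem g800 : GoodF (fidx ts) 400 800 := GoodF.ofV v800 n800 c800.down b800.down

/-- 458644:684/1 -/
noncomputable def e801 : SCfg where
  D := {
    a := 6
    L := 9
    kp := 6
    inn := [(0, 1), (0, 2), (1, 0), (1, 2), (2, 0), (2, 1), (2, 3), (2, 5), (3, 2), (3, 4), (4, 3), (5,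
      2)]
    mix := [(0, 0), (0, 1), (1, 1), (1, 2), (1, 3), (2, 0), (2, 3), (2, 4), (2, 5), (3, 3), (3, 4), (3,
      6), (3, 7), (4, 2), (4, 3), (4, 6), (5, 0), (5, 5), (5, 8)]
    cl := [0, 1, 4, 0, 0, 2, 3, 5, 6]
    chq := [(0, 3), (3, 0)]
    rng := [(0, 1), (0, 8), (1, 0), (1, 2), (2, 1), (2, 3), (2, 6), (3, 2), (4, 5), (4, 7), (5, 4), (5,
      8), (6, 2), (6, 7), (7, 4), (7, 6), (8, 0), (8, 5)]
    lev := [] }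
  links := [[1, 2, 6, 7], [2, 0, 7, 8, 9], [6, 0, 1, 9, 3, 10, 11, 5], [10, 2, 9, 4, 12, 13], [12, 3, 9,
    8], [6, 2, 11, 14]]
  P := {
    a := 6
    N := 15
    nb := [198, 901, 3691, 13844, 4872, 18500, 16549, 323, 4754, 286, 10252, 17444, 8472, 5128, 2144]
    tri := [(0, 1, 2), (0, 1, 7), (0, 2, 6), (0, 6, 7), (1, 2, 9), (1, 7, 8), (1, 8, 9), (2, 3, 9), (2,
      3, 10), (2, 5, 6), (2, 5, 11), (2, 10, 11), (3, 4, 9), (3, 4, 12), (3, 10, 13), (3, 12, 13),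
      (4, 8, 9), (4, 8, 12), (5, 6, 14), (5, 11, 14)]
    fin := [0, 0, 0, 0, 0, 0, 0, 7, 8, 0, 0, 11, 12, 13, 14]
    chd := [(0, 12)]
    steps := [(0, 1), (0, 2), (0, 3), (0, 5), (0, 6), (0, 9), (0, 4), (0, 10)] }
  rep := [0, 7, 11, 12, 8, 13, 14]

noncomputable def v801 : Cov.CovD where
  P := 3
  N := 4
  pl := [1, 2, 5, 7, 8]
  lev := [⟨[], [], [], [1], [(0, 0, [3])]⟩,
    ⟨[], [(0, 0)], [], [1, 4], [(3, 0, [3])]⟩,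
    ⟨[(0, 1)], [(0, 0), (1, 0)], [(0, 0)], [2], [(0, 0, [3]), (3, 0, [3]), (4, 0, [3])]⟩,
    ⟨[(0, 2), (1, 2)], [(1, 0), (2, 0), (2, 3)], [(0, 0), (0, 3)], [5], [(3, 0, [3]), (4,
      0, [3]), (6, 3, [0])]⟩,
    ⟨[(2, 3)], [(1, 0), (2, 0), (3, 0), (3, 3)], [(0, 3)], [4], [(3, 0, [3]), (6, 3, [0])]⟩,
    ⟨[(0, 2), (1, 2), (2, 3)], [(0, 0), (2, 0)], [], [2, 6], [(0, 0, [3])]⟩]
  Ta := [((0, 1), 0, 1), ((0, 8), 0, 6), ((3, 2), 0, 4), ((4, 5), 0, 2), ((4, 7), 0, 5)]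
  Tb := [((0, 1, 8), 0, 1, 6), ((1, 0, 2), 1, 0, 4), ((2, 1, 3), 4, 1, 0), ((2, 1, 6), 4, 1, 3),
    ((2, 3, 6), 4, 0, 3), ((4, 5, 7), 0, 2, 5), ((5, 4, 8), 2, 0, 6), ((6, 2, 7), 3, 4, 5),
    ((7, 4, 6), 5, 0, 3), ((8, 0, 5), 6, 0, 2)]
  Tc := []
  Td := [((0, 3), (0, 1), 1), ((0, 3), (0, 8), 6), ((0, 3), (3, 2), 4), ((0, 3), (4, 5), 2), ((0,
    3), (4, 7), 5), ((3, 0), (6, 2), 4), ((3, 0), (6, 7), 5)]
  G := [[0, 0x818441c4c1e841c1c1e818ce4, 0, 0xcccecccea41ccce481c, 0xaaaeaaae6aaae8a14], [0, 0,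
    0, 0x11a111e6188c1161412e8c4, 0x11a11a6188a11614116e8c4], [0, 0, 0x61a1c1e2c1c1c1e2c4,
    0x111e111e6111e8c18, 0x111e2111e111eca18]]

noncomputable def n801 : Ent := ⟨e801, noF, [], [], []⟩

def c801 : PLift (Cov.check n801.C.D v801 = true) := ⟨by decide +kernel⟩

def b801 : PLift (entF (fidx ts) 400 801 n801 = true) := ⟨by decide +kernel⟩

theorem g801 : GoodF (fidx ts) 400 801 := GoodF.ofV v801 n801 c801.down b801.down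

/-- 458644:684 -/
noncomputable def e802 : SCfg where
  D := {
    a := 6
    L := 10
    kp := 7
    inn := [(0, 1), (0, 2), (1, 0), (1, 2), (2, 0), (2, 1), (2, 3), (2, 5), (3, 2), (3, 4), (4, 3), (5,
      2)]
    mix := [(0, 0), (0, 1), (1, 1), (1, 2), (1, 3), (2, 0), (2, 3), (2, 4), (2, 5), (3, 3), (3, 4), (3,
      6), (3, 7), (4, 3), (4, 6), (4, 8), (5, 0), (5, 5), (5, 9)]
    cl := [0, 1, 4, 0, 0, 2, 3, 5, 6, 7]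
    chq := [(0, 3), (3, 0)]
    rng := [(0, 1), (0, 9), (1, 0), (1, 2), (2, 1), (2, 3), (3, 2), (3, 8), (4, 5), (4, 7), (5, 4), (5,
      9), (6, 7), (6, 8), (7, 4), (7, 6), (8, 3), (8, 6), (9, 0), (9, 5)]
    lev := [] }
  links := [[1, 2, 6, 7], [2, 0, 7, 8, 9], [6, 0, 1, 9, 3, 10, 11, 5], [10, 2, 9, 4, 12, 13], [12, 3, 9,
    14], [6, 2, 11, 15]]
  P := {
    a := 6
    N := 16
    nb := [198, 901, 3691, 13844, 21000, 34884, 32933, 323, 642, 16670, 10252, 33828, 24600, 5128,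
      4624, 2144]
    tri := [(0, 1, 2), (0, 1, 7), (0, 2, 6), (0, 6, 7), (1, 2, 9), (1, 7, 8), (1, 8, 9), (2, 3, 9), (2,
      3, 10), (2, 5, 6), (2, 5, 11), (2, 10, 11), (3, 4, 9), (3, 4, 12), (3, 10, 13), (3, 12, 13),
      (4, 9, 14), (4, 12, 14), (5, 6, 15), (5, 11, 15)]
    fin := [0, 0, 0, 0, 0, 0, 0, 7, 8, 0, 0, 11, 12, 13, 14, 15]
    chd := [(0, 12)]
    steps := [(0, 1), (0, 2), (0, 3), (0, 4), (0, 5), (0, 6), (0, 9), (0, 10)] }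
  rep := [0, 7, 11, 12, 8, 13, 14, 15]

noncomputable def v802 : Cov.CovD where
  P := 3
  N := 5
  pl := [1, 2, 5, 7, 8, 9]
  lev := [⟨[], [], [], [1], [(0, 0, [3])]⟩,
    ⟨[], [(0, 0)], [], [1, 4], [(3, 0, [3])]⟩,
    ⟨[(0, 1)], [(0, 0), (1, 0)], [(0, 0)], [2], [(0, 0, [3]), (3, 0, [3]), (4, 0, [3])]⟩,
    ⟨[(0, 2), (1, 2)], [(1, 0), (2, 0), (2, 3)], [(0, 0), (0, 3)], [5], [(3, 0, [3]), (4,
      0, [3]), (6, 3, [0])]⟩,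
    ⟨[(2, 3)], [(1, 0), (2, 0), (3, 0), (3, 3)], [(0, 3)], [6], [(3, 0, [3]), (6, 3, [0])]⟩,
    ⟨[(0, 2), (1, 2), (2, 3)], [(0, 0), (2, 0)], [], [2, 7], [(0, 0, [3])]⟩]
  Ta := [((0, 1), 0, 1), ((0, 9), 0, 7), ((3, 2), 0, 4), ((3, 8), 0, 6), ((4, 5), 0, 2), ((4, 7),
    0, 5)]
  Tb := [((0, 1, 9), 0, 1, 7), ((1, 0, 2), 1, 0, 4), ((2, 1, 3), 4, 1, 0), ((3, 2, 8), 0, 4, 6),
    ((4, 5, 7), 0, 2, 5), ((5, 4, 9), 2, 0, 7), ((6, 7, 8), 3, 5, 6), ((7, 4, 6), 5, 0, 3),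
    ((8, 3, 6), 6, 0, 3), ((9, 0, 5), 7, 0, 2)]
  Tc := []
  Td := [((0, 3), (0, 1), 1), ((0, 3), (0, 9), 7), ((0, 3), (3, 2), 4), ((0, 3), (3, 8), 6), ((0,
    3), (4, 5), 2), ((0, 3), (4, 7), 5), ((3, 0), (6, 7), 5), ((3, 0), (6, 8), 6)]
  G := [[0, 0x41c1c1e818c41c1c81c1ac62, 0, 0xc1848184c4188ccceccce685c, 0xaaae2aaaeaaaeca14],
    [0, 0, 0, 0x111e111ea4111e4111e111eacc111e488c, 0x11a2111e111e14ea4111e111e6111e8a8c],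
    [0, 0, 0xa161c1e2a1c1c1e2c4, 0x111e111e6111e8c18, 0x111e2111e111eca14]]

noncomputable def n802 : Ent := ⟨e802, noF, [], [], [(8, 14, [385746751338780685620664494392815470296102193487288376375775233, 0])]⟩

def c802 : PLift (Cov.check n802.C.D v802 = true) := ⟨by decide +kernel⟩

def b802 : PLift (entF (fidx ts) 400 802 n802 = true) := ⟨by decide +kernel⟩

theorem g802 : GoodF (fidx ts) 400 802 := GoodF.ofV v802 n802 c802.down b802.down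

/-- 458564:686/2 -/
noncomputable def e803 : SCfg where
  D := {
    a := 6
    L := 9
    kp := 6
    inn := [(0, 1), (0, 2), (1, 0), (1, 2), (2, 0), (2, 1), (2, 3), (2, 4), (3, 2), (4, 2), (4, 5), (5,
      4)]
    mix := [(0, 0), (0, 1), (1, 1), (1, 2), (1, 3), (2, 0), (2, 3), (2, 4), (2, 5), (3, 2), (3, 3), (3,
      4), (3, 6), (4, 4), (4, 5), (4, 7), (4, 8), (5, 4), (5, 6), (5, 7)]
    cl := [1, 4, 2, 0, 0, 0, 5, 3, 6]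
    chq := [(0, 3), (1, 2), (2, 1), (3, 0)]
    rng := [(0, 1), (0, 5), (1, 0), (1, 2), (2, 1), (2, 3), (2, 6), (3, 2), (4, 6), (5, 0), (5, 8), (6,
      2), (6, 4), (6, 7), (7, 6), (7, 8), (8, 5), (8, 7)]
    lev := [] }
  links := [[1, 2, 6, 7], [2, 0, 7, 8, 9], [6, 0, 1, 9, 3, 10, 4, 11], [10, 2, 9, 8, 12], [11, 2, 10, 5,
    13, 14], [13, 4, 10, 12]]
  P := {
    a := 6
    N := 15
    nb := [198, 901, 3675, 5892, 27684, 13328, 2181, 323, 4746, 270, 4156, 16468, 9512, 20528, 10256]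
    tri := [(0, 1, 2), (0, 1, 7), (0, 2, 6), (0, 6, 7), (1, 2, 9), (1, 7, 8), (1, 8, 9), (2, 3, 9), (2,
      3, 10), (2, 4, 10), (2, 4, 11), (2, 6, 11), (3, 8, 9), (3, 8, 12), (3, 10, 12), (4, 5, 10),
      (4, 5, 13), (4, 11, 14), (4, 13, 14), (5, 10, 12), (5, 12, 13)]
    fin := [0, 0, 2, 3, 2, 2, 0, 7, 3, 2, 2, 2, 12, 13, 14]
    chd := [(0, 3), (2, 13)]
    steps := [(0, 1), (0, 6), (2, 4), (2, 5), (2, 9), (2, 10), (2, 11), (3, 8)] }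
  rep := [2, 0, 3, 13, 7, 12, 14]

noncomputable def v803 : Cov.CovD where
  P := 3
  N := 4
  pl := [1, 6, 8]
  lev := [⟨[], [], [], [4], [(0, 1, [2])]⟩,
    ⟨[], [(0, 0), (0, 1), (0, 2)], [(0, 2)], [4], [(2, 2, [1]), (3, 0, [3])]⟩,
    ⟨[(0, 1)], [(0, 0), (0, 1), (1, 0), (1, 1), (1, 2)], [(0, 0), (0, 1)], [], [(0, 1,
      [2]), (3, 0, [3]), (4, 0, [3]), (5, 0, [3])]⟩,
    ⟨[(0, 2), (1, 2)], [(1, 0), (1, 2), (2, 0), (2, 1), (2, 2)], [(0, 0), (0, 2)], [5],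
      [(2, 2, [1]), (3, 0, [3]), (4, 0, [3])]⟩,
    ⟨[(0, 2), (1, 2), (2, 3)], [(2, 0), (2, 1), (2, 3), (3, 0)], [(0, 0), (0, 3)], [6],
      [(4, 0, [3]), (5, 0, [3]), (7, 3, [0])]⟩,
    ⟨[(2, 4)], [(2, 0), (3, 0), (4, 0), (4, 3)], [(0, 3)], [5], [(4, 0, [3]), (7, 3, [0])]⟩]
  Ta := [((3, 2), 0, 2), ((4, 6), 0, 5), ((5, 0), 0, 1), ((5, 8), 0, 6)]
  Tb := [((0, 1, 5), 1, 4, 0), ((1, 0, 2), 4, 1, 2), ((2, 1, 3), 2, 4, 0), ((2, 1, 6), 2, 4, 5),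
    ((2, 3, 6), 2, 0, 5), ((5, 0, 8), 0, 1, 6), ((6, 2, 4), 5, 2, 0), ((6, 2, 7), 5, 2, 3),
    ((6, 4, 7), 5, 0, 3), ((7, 6, 8), 3, 5, 6), ((8, 5, 7), 6, 0, 3)]
  Tc := []
  Td := [((0, 3), (3, 2), 2), ((0, 3), (4, 6), 5), ((0, 3), (5, 0), 1), ((0, 3), (5, 8), 6), ((1,
    2), (0, 1), 4), ((1, 2), (0, 5), 0), ((2, 1), (2, 1), 4), ((2, 1), (2, 3), 0), ((2, 1),
    (2, 6), 5), ((3, 0), (7, 6), 5), ((3, 0), (7, 8), 6)]
  G := [[0, 0, 0x111e848111e48111e2869, 0x132e24312e28c2, 0x819e512ea4844512ea8ca8c2c], [0, 0,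
    0, 0x6e2e2888a4e262e82c85, 0x88ce62aa48642864884488b4c66c2ea888c2d], [0,
    0x111e111ec21144811e12acc1a, 0, 0x132e248312e284c, 0x815e512ea48416612ea888c1c]]

noncomputable def n803 : Ent := ⟨e803, noF, [], [], []⟩

def c803 : PLift (Cov.check n803.C.D v803 = true) := ⟨by decide +kernel⟩

def b803 : PLift (entF (fidx ts) 400 803 n803 = true) := ⟨by decide +kernel⟩

theorem g803 : GoodF (fidx ts) 400 803 := GoodF.ofV v803 n803 c803.down b803.down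

/-- 458564:686/1 -/
noncomputable def e804 : SCfg where
  D := {
    a := 6
    L := 10
    kp := 7
    inn := [(0, 1), (0, 2), (1, 0), (1, 2), (2, 0), (2, 1), (2, 3), (2, 4), (3, 2), (4, 2), (4, 5), (5,
      4)]
    mix := [(0, 0), (0, 1), (1, 1), (1, 2), (1, 3), (2, 0), (2, 3), (2, 4), (2, 5), (3, 2), (3, 3), (3,
      4), (3, 6), (4, 4), (4, 5), (4, 7), (4, 8), (5, 4), (5, 7), (5, 9)]
    cl := [1, 4, 2, 0, 0, 0, 5, 3, 6, 7]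
    chq := [(0, 3), (1, 2), (2, 1), (3, 0)]
    rng := [(0, 1), (0, 5), (1, 0), (1, 2), (2, 1), (2, 3), (2, 6), (3, 2), (4, 6), (4, 9), (5, 0), (5,
      8), (6, 2), (6, 4), (7, 8), (7, 9), (8, 5), (8, 7), (9, 4), (9, 7)]
    lev := [] }
  links := [[1, 2, 6, 7], [2, 0, 7, 8, 9], [6, 0, 1, 9, 3, 10, 4, 11], [10, 2, 9, 8, 12], [11, 2, 10, 5,
    13, 14], [13, 4, 10, 15]]
  P := {
    a := 6
    N := 16
    nb := [198, 901, 3675, 5892, 27684, 42000, 2181, 323, 4746, 270, 36924, 16468, 1288, 49200, 10256,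
      9248]
    tri := [(0, 1, 2), (0, 1, 7), (0, 2, 6), (0, 6, 7), (1, 2, 9), (1, 7, 8), (1, 8, 9), (2, 3, 9), (2,
      3, 10), (2, 4, 10), (2, 4, 11), (2, 6, 11), (3, 8, 9), (3, 8, 12), (3, 10, 12), (4, 5, 10),
      (4, 5, 13), (4, 11, 14), (4, 13, 14), (5, 10, 15), (5, 13, 15)]
    fin := [0, 0, 2, 3, 2, 2, 0, 7, 3, 2, 2, 2, 12, 13, 14, 15]
    chd := [(0, 3), (2, 13)]
    steps := [(0, 1), (0, 6), (2, 4), (2, 5), (2, 9), (2, 10), (2, 11), (3, 8)] }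
  rep := [2, 0, 3, 13, 7, 12, 14, 15]

noncomputable def v804 : Cov.CovD where
  P := 3
  N := 5
  pl := [1, 6, 8, 9]
  lev := [⟨[], [], [], [4], [(0, 1, [2])]⟩,
    ⟨[], [(0, 0), (0, 1), (0, 2)], [(0, 2)], [4], [(2, 2, [1]), (3, 0, [3])]⟩,
    ⟨[(0, 1)], [(0, 0), (0, 1), (1, 0), (1, 1), (1, 2)], [(0, 0), (0, 1)], [], [(0, 1,
      [2]), (3, 0, [3]), (4, 0, [3]), (5, 0, [3])]⟩,
    ⟨[(0, 2), (1, 2)], [(1, 0), (1, 2), (2, 0), (2, 1), (2, 2)], [(0, 0), (0, 2)], [5],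
      [(2, 2, [1]), (3, 0, [3]), (4, 0, [3])]⟩,
    ⟨[(0, 2), (1, 2), (2, 3)], [(2, 0), (2, 1), (2, 3), (3, 0)], [(0, 0), (0, 3)], [6],
      [(4, 0, [3]), (5, 0, [3]), (7, 3, [0])]⟩,
    ⟨[(2, 4)], [(2, 0), (3, 0), (4, 0), (4, 3)], [(0, 3)], [7], [(4, 0, [3]), (7, 3, [0])]⟩]
  Ta := [((3, 2), 0, 2), ((4, 6), 0, 5), ((4, 9), 0, 7), ((5, 0), 0, 1), ((5, 8), 0, 6)]
  Tb := [((0, 1, 5), 1, 4, 0), ((1, 0, 2), 4, 1, 2), ((2, 1, 3), 2, 4, 0), ((2, 1, 6), 2, 4, 5),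
    ((2, 3, 6), 2, 0, 5), ((4, 6, 9), 0, 5, 7), ((5, 0, 8), 0, 1, 6), ((6, 2, 4), 5, 2, 0),
    ((7, 8, 9), 3, 6, 7), ((8, 5, 7), 6, 0, 3), ((9, 4, 7), 7, 0, 3)]
  Tc := []
  Td := [((0, 3), (3, 2), 2), ((0, 3), (4, 6), 5), ((0, 3), (4, 9), 7), ((0, 3), (5, 0), 1), ((0,
    3), (5, 8), 6), ((1, 2), (0, 1), 4), ((1, 2), (0, 5), 0), ((2, 1), (2, 1), 4), ((2, 1),
    (2, 3), 0), ((2, 1), (2, 6), 5), ((3, 0), (7, 8), 6), ((3, 0), (7, 9), 7)]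
  G := [[0, 0, 0x111e111ea4111e4111e8ca1, 0xb93e248359e284c, 0x59eed1bea48be6359ea188c2c], [0,
    0, 0, 0xee62e82ce42eea2cc2, 0xeaeeeeaa4e4289ce6e4ae8eeaac4488364882d], [0,
    0x111e111ec28111e4111e8c1a, 0, 0xd1be243e5e2892, 0x71ee935ea481e67d1eae88c29]]

noncomputable def n804 : Ent := ⟨e804, noF, [], [], [(12, 15, [360035742630636841211993100915356868655746945586763691010961409, 0])]⟩

def c804 : PLift (Cov.check n804.C.D v804 = true) := ⟨by decide +kernel⟩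

def b804 : PLift (entF (fidx ts) 400 804 n804 = true) := ⟨by decide +kernel⟩

theorem g804 : GoodF (fidx ts) 400 804 := GoodF.ofV v804 n804 c804.down b804.down

/-- 458564:686/3 -/
noncomputable def e805 : SCfg where
  D := {
    a := 6
    L := 10
    kp := 7
    inn := [(0, 1), (0, 2), (1, 0), (1, 2), (2, 0), (2, 1), (2, 3), (2, 4), (3, 2), (4, 2), (4, 5), (5,
      4)]
    mix := [(0, 0), (0, 1), (1, 1), (1, 2), (1, 3), (2, 0), (2, 3), (2, 4), (2, 5), (3, 3), (3, 4), (3,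
      6), (3, 7), (4, 4), (4, 5), (4, 8), (4, 9), (5, 4), (5, 7), (5, 8)]
    cl := [1, 2, 5, 0, 0, 0, 6, 4, 3, 7]
    chq := [(0, 3), (1, 5), (3, 0), (5, 1)]
    rng := [(0, 1), (0, 5), (1, 0), (1, 2), (2, 1), (2, 3), (3, 2), (3, 6), (4, 7), (5, 0), (5, 9), (6,
      3), (6, 7), (7, 4), (7, 6), (7, 8), (8, 7), (8, 9), (9, 5), (9, 8)]
    lev := [] }
  links := [[1, 2, 6, 7], [2, 0, 7, 8, 9], [6, 0, 1, 9, 3, 10, 4, 11], [10, 2, 9, 12, 13], [11, 2, 10, 5,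
    14, 15], [14, 4, 10, 13]]
  P := {
    a := 6
    N := 16
    nb := [198, 901, 3675, 13828, 52260, 25616, 2181, 323, 642, 4366, 8252, 32852, 8712, 21544, 41008,
      18448]
    tri := [(0, 1, 2), (0, 1, 7), (0, 2, 6), (0, 6, 7), (1, 2, 9), (1, 7, 8), (1, 8, 9), (2, 3, 9), (2,
      3, 10), (2, 4, 10), (2, 4, 11), (2, 6, 11), (3, 9, 12), (3, 10, 13), (3, 12, 13), (4, 5,
      10), (4, 5, 14), (4, 11, 15), (4, 14, 15), (5, 10, 13), (5, 13, 14)]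
    fin := [0, 0, 0, 3, 3, 3, 0, 7, 8, 3, 3, 3, 12, 13, 14, 15]
    chd := [(0, 8), (3, 14)]
    steps := [(0, 1), (0, 2), (0, 6), (3, 9), (3, 10), (3, 4), (3, 5), (3, 11)] }
  rep := [3, 0, 7, 14, 13, 8, 12, 15]

noncomputable def v805 : Cov.CovD where
  P := 3
  N := 5
  pl := [1, 6, 7, 9]
  lev := [⟨[], [], [], [2], [(0, 1, [5])]⟩,
    ⟨[], [(0, 0), (0, 1), (0, 5)], [(0, 5)], [2], [(2, 5, [1]), (3, 0, [3])]⟩,
    ⟨[(0, 1)], [(0, 0), (0, 1), (1, 0), (1, 1), (1, 5)], [(0, 0), (0, 1)], [], [(0, 1,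
      [5]), (3, 0, [3]), (4, 0, [3]), (5, 0, [3])]⟩,
    ⟨[(0, 2), (1, 2)], [(1, 0), (2, 0), (2, 1)], [(0, 0)], [4, 6], [(3, 0, [3]), (4, 0,
      [3])]⟩,
    ⟨[(0, 2), (1, 2), (2, 3)], [(2, 0), (2, 1), (2, 3), (3, 0)], [(0, 0), (0, 3)], [7],
      [(4, 0, [3]), (5, 0, [3]), (8, 3, [0])]⟩,
    ⟨[(2, 4)], [(2, 0), (3, 0), (4, 0), (4, 3)], [(0, 3)], [4], [(4, 0, [3]), (8, 3, [0])]⟩]
  Ta := [((3, 2), 0, 5), ((3, 6), 0, 6), ((4, 7), 0, 4), ((5, 0), 0, 1), ((5, 9), 0, 7)]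
  Tb := [((0, 1, 5), 1, 2, 0), ((1, 0, 2), 2, 1, 5), ((2, 1, 3), 5, 2, 0), ((3, 2, 6), 0, 5, 6),
    ((5, 0, 9), 0, 1, 7), ((6, 3, 7), 6, 0, 4), ((7, 4, 6), 4, 0, 6), ((7, 4, 8), 4, 0, 3),
    ((7, 6, 8), 4, 6, 3), ((8, 7, 9), 3, 4, 7), ((9, 5, 8), 7, 0, 3)]
  Tc := []
  Td := [((0, 3), (3, 2), 5), ((0, 3), (3, 6), 6), ((0, 3), (4, 7), 4), ((0, 3), (5, 0), 1), ((0,
    3), (5, 9), 7), ((1, 5), (0, 1), 2), ((1, 5), (0, 5), 0), ((3, 0), (8, 7), 4), ((3, 0),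
    (8, 9), 7), ((5, 1), (2, 1), 2), ((5, 1), (2, 3), 0)]
  G := [[0, 0, 0x94145e312ee81a8c24, 0x1564819e58312eec996541e132ee188cc1,
    0x444891e15a312eec28], [0, 0, 0x88442ee664eee4e88e2aac2c, 0xe8441ee64e6e4e88e2aac1c,
    0xe464ee6e2ee8ea8888ec21], [0, 0x222111e141e11ce614, 0x444819e51a132eec28,
    0x916541e312ee888c14, 0x4164891e58312eec18]]

noncomputable def n805 : Ent := ⟨e805, noF, [], [], [(8, 12, [385753029973011613167317188540585705112827479461471962593898497, 0])]⟩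

def c805 : PLift (Cov.check n805.C.D v805 = true) := ⟨by decide +kernel⟩

def b805 : PLift (entF (fidx ts) 400 805 n805 = true) := ⟨by decide +kernel⟩

theorem g805 : GoodF (fidx ts) 400 805 := GoodF.ofV v805 n805 c805.down b805.down

/-- 458564:686 -/
noncomputable def e806 : SCfg where
  D := {
    a := 6
    L := 11
    kp := 8
    inn := [(0, 1), (0, 2), (1, 0), (1, 2), (2, 0), (2, 1), (2, 3), (2, 4), (3, 2), (4, 2), (4, 5), (5,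
      4)]
    mix := [(0, 0), (0, 1), (1, 1), (1, 2), (1, 3), (2, 0), (2, 3), (2, 4), (2, 5), (3, 3), (3, 4), (3,
      6), (3, 7), (4, 4), (4, 5), (4, 8), (4, 9), (5, 4), (5, 8), (5, 10)]
    cl := [1, 2, 4, 0, 0, 0, 5, 6, 3, 7, 8]
    chq := [(0, 3), (1, 4), (3, 0), (4, 1)]
    rng := [(0, 1), (0, 5), (1, 0), (1, 2), (2, 1), (2, 3), (3, 2), (3, 6), (4, 7), (4, 10), (5, 0),
      (5, 9), (6, 3), (6, 7), (7, 4), (7, 6), (8, 9), (8, 10), (9, 5), (9, 8), (10, 4), (10, 8)]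
    lev := [] }
  links := [[1, 2, 6, 7], [2, 0, 7, 8, 9], [6, 0, 1, 9, 3, 10, 4, 11], [10, 2, 9, 12, 13], [11, 2, 10, 5,
    14, 15], [14, 4, 10, 16]]
  P := {
    a := 6
    N := 17
    nb := [198, 901, 3675, 13828, 52260, 82960, 2181, 323, 642, 4366, 73788, 32852, 8712, 5128, 98352,
      18448, 17440]
    tri := [(0, 1, 2), (0, 1, 7), (0, 2, 6), (0, 6, 7), (1, 2, 9), (1, 7, 8), (1, 8, 9), (2, 3, 9), (2,
      3, 10), (2, 4, 10), (2, 4, 11), (2, 6, 11), (3, 9, 12), (3, 10, 13), (3, 12, 13), (4, 5,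
      10), (4, 5, 14), (4, 11, 15), (4, 14, 15), (5, 10, 16), (5, 14, 16)]
    fin := [0, 0, 0, 3, 3, 3, 0, 7, 8, 3, 3, 3, 12, 13, 14, 15, 16]
    chd := [(0, 8), (3, 14)]
    steps := [(0, 1), (0, 2), (0, 6), (3, 9), (3, 10), (3, 4), (3, 5), (3, 11)] }
  rep := [3, 0, 7, 14, 8, 12, 13, 15, 16]

noncomputable def v806 : Cov.CovD where
  P := 3
  N := 6
  pl := [1, 6, 7, 9, 10]
  lev := [⟨[], [], [], [2], [(0, 1, [4])]⟩,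
    ⟨[], [(0, 0), (0, 1), (0, 4)], [(0, 4)], [2], [(2, 4, [1]), (3, 0, [3])]⟩,
    ⟨[(0, 1)], [(0, 0), (0, 1), (1, 0), (1, 1), (1, 4)], [(0, 0), (0, 1)], [], [(0, 1,
      [4]), (3, 0, [3]), (4, 0, [3]), (5, 0, [3])]⟩,
    ⟨[(0, 2), (1, 2)], [(1, 0), (2, 0), (2, 1)], [(0, 0)], [5, 6], [(3, 0, [3]), (4, 0,
      [3])]⟩,
    ⟨[(0, 2), (1, 2), (2, 3)], [(2, 0), (2, 1), (2, 3), (3, 0)], [(0, 0), (0, 3)], [7],
      [(4, 0, [3]), (5, 0, [3]), (8, 3, [0])]⟩,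
    ⟨[(2, 4)], [(2, 0), (3, 0), (4, 0), (4, 3)], [(0, 3)], [8], [(4, 0, [3]), (8, 3, [0])]⟩]
  Ta := [((3, 2), 0, 4), ((3, 6), 0, 5), ((4, 7), 0, 6), ((4, 10), 0, 8), ((5, 0), 0, 1), ((5,
    9), 0, 7)]
  Tb := [((0, 1, 5), 1, 2, 0), ((1, 0, 2), 2, 1, 4), ((2, 1, 3), 4, 2, 0), ((3, 2, 6), 0, 4, 5),
    ((4, 7, 10), 0, 6, 8), ((5, 0, 9), 0, 1, 7), ((6, 3, 7), 5, 0, 6), ((7, 4, 6), 6, 0, 5),
    ((8, 9, 10), 3, 7, 8), ((9, 5, 8), 7, 0, 3), ((10, 4, 8), 8, 0, 3)]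
  Tc := []
  Td := [((0, 3), (3, 2), 4), ((0, 3), (3, 6), 5), ((0, 3), (4, 7), 6), ((0, 3), (4, 10), 8),
    ((0, 3), (5, 0), 1), ((0, 3), (5, 9), 7), ((1, 4), (0, 1), 2), ((1, 4), (0, 5), 0), ((3,
    0), (8, 9), 7), ((3, 0), (8, 10), 8), ((4, 1), (2, 1), 2), ((4, 1), (2, 3), 0)]
  G := [[0, 0, 0x3565e9e35eee988c24, 0x544935e93ab1eeec95617be395ee388cc1,
    0x94493ee53a593eec28], [0, 0, 0x88442e46eeeee6eeeae8ac2c, 0x88441ee66eeeee6ee8e8ac1c,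
    0xee6ee66eeeee8e888ec21], [0, 0x111e11a111ee144618, 0x544593e93a935eec28,
    0xe9635ee359ee388c14, 0x359e4935e593eac21]]

noncomputable def n806 : Ent := ⟨e806, noF, [], [], [(8, 12, [1685382419726887998779855760127267502807434353888247252031586320385, 0]), (13, 16, [1580044410770988437309982408355971841652082177953823432505692409857, 0])]⟩

def c806 : PLift (Cov.check n806.C.D v806 = true) := ⟨by decide +kernel⟩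

def b806 : PLift (entF (fidx ts) 400 806 n806 = true) := ⟨by decide +kernel⟩

theorem g806 : GoodF (fidx ts) 400 806 := GoodF.ofV v806 n806 c806.down b806.down

/-- 458564:687 -/
noncomputable def e807 : SCfg where
  D := {
    a := 6
    L := 11
    kp := 8
    inn := [(0, 1), (0, 2), (1, 0), (1, 2), (2, 0), (2, 1), (2, 3), (2, 4), (3, 2), (4, 2), (4, 5), (5,
      4)]
    mix := [(0, 0), (0, 1), (1, 1), (1, 2), (1, 3), (2, 0), (2, 3), (2, 4), (2, 5), (3, 3), (3, 4), (3,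
      6), (3, 7), (4, 4), (4, 5), (4, 8), (4, 9), (5, 5), (5, 9), (5, 10)]
    cl := [1, 2, 4, 0, 0, 0, 5, 6, 7, 3, 8]
    chq := [(0, 3), (1, 4), (3, 0), (4, 1)]
    rng := [(0, 1), (0, 5), (1, 0), (1, 2), (2, 1), (2, 3), (3, 2), (3, 6), (4, 7), (4, 8), (5, 0), (5,
      10), (6, 3), (6, 7), (7, 4), (7, 6), (8, 4), (8, 9), (9, 8), (9, 10), (10, 5), (10, 9)]
    lev := [] }
  links := [[1, 2, 6, 7], [2, 0, 7, 8, 9], [6, 0, 1, 9, 3, 10, 4, 11], [10, 2, 9, 12, 13], [11, 2, 10,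
    14, 15, 5], [11, 4, 15, 16]]
  P := {
    a := 6
    N := 17
    nb := [198, 901, 3675, 13828, 52260, 100368, 2181, 323, 642, 4366, 24604, 65652, 8712, 5128,
      33808, 81968, 34848]
    tri := [(0, 1, 2), (0, 1, 7), (0, 2, 6), (0, 6, 7), (1, 2, 9), (1, 7, 8), (1, 8, 9), (2, 3, 9), (2,
      3, 10), (2, 4, 10), (2, 4, 11), (2, 6, 11), (3, 9, 12), (3, 10, 13), (3, 12, 13), (4, 5,
      11), (4, 5, 15), (4, 10, 14), (4, 14, 15), (5, 11, 16), (5, 15, 16)]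
    fin := [0, 0, 0, 3, 3, 3, 0, 7, 8, 3, 3, 3, 12, 13, 14, 15, 16]
    chd := [(0, 8), (3, 15)]
    steps := [(0, 1), (0, 2), (0, 6), (3, 9), (3, 10), (3, 4), (3, 5), (3, 11)] }
  rep := [3, 0, 7, 15, 8, 12, 13, 14, 16]

noncomputable def v807 : Cov.CovD where
  P := 3
  N := 6
  pl := [1, 6, 7, 8, 10]
  lev := [⟨[], [], [], [2], [(0, 1, [4])]⟩,
    ⟨[], [(0, 0), (0, 1), (0, 4)], [(0, 4)], [2], [(2, 4, [1]), (3, 0, [3])]⟩,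
    ⟨[(0, 1)], [(0, 0), (0, 1), (1, 0), (1, 1), (1, 4)], [(0, 0), (0, 1)], [], [(0, 1,
      [4]), (3, 0, [3]), (4, 0, [3]), (5, 0, [3])]⟩,
    ⟨[(0, 2), (1, 2)], [(1, 0), (2, 0), (2, 1)], [(0, 0)], [5, 6], [(3, 0, [3]), (4, 0,
      [3])]⟩,
    ⟨[(0, 2), (1, 2), (2, 3)], [(2, 0), (2, 1), (2, 3), (3, 0)], [(0, 0), (0, 3)], [7],
      [(4, 0, [3]), (5, 0, [3]), (9, 3, [0])]⟩,
    ⟨[(2, 4)], [(2, 0), (4, 0), (4, 3)], [(0, 3)], [8], [(5, 0, [3]), (9, 3, [0])]⟩]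
  Ta := [((3, 2), 0, 4), ((3, 6), 0, 5), ((4, 7), 0, 6), ((4, 8), 0, 7), ((5, 0), 0, 1), ((5,
    10), 0, 8)]
  Tb := [((0, 1, 5), 1, 2, 0), ((1, 0, 2), 2, 1, 4), ((2, 1, 3), 4, 2, 0), ((3, 2, 6), 0, 4, 5),
    ((4, 7, 8), 0, 6, 7), ((5, 0, 10), 0, 1, 8), ((6, 3, 7), 5, 0, 6), ((7, 4, 6), 6, 0, 5),
    ((8, 4, 9), 7, 0, 3), ((9, 8, 10), 3, 7, 8), ((10, 5, 9), 8, 0, 3)]
  Tc := []
  Td := [((0, 3), (3, 2), 4), ((0, 3), (3, 6), 5), ((0, 3), (4, 7), 6), ((0, 3), (4, 8), 7), ((0,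
    3), (5, 0), 1), ((0, 3), (5, 10), 8), ((1, 4), (0, 1), 2), ((1, 4), (0, 5), 0), ((3, 0),
    (9, 8), 7), ((3, 0), (9, 10), 8), ((4, 1), (2, 1), 2), ((4, 1), (2, 3), 0)]
  G := [[0, 0, 0x3565e9e35eee988c24, 0x544935e93ab1eeec95617be395ee388cc1,
    0x94493ee53a593eec28], [0, 0, 0x94493ee35a1bbeec28, 0x93649b3eb81beeec18,
    0x344593e95ab1eeec18], [0, 0xeeae2e2ee4eeceece618, 0xeeaeeaeaeee42e4e444e82c,
    0xe8441ee6ee6ee6ee8e8ac1c, 0x44e4e4eeaeeeeaeeaec21]]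

noncomputable def n807 : Ent := ⟨e807, noF, [], [], []⟩

def c807 : PLift (Cov.check n807.C.D v807 = true) := ⟨by decide +kernel⟩

def b807 : PLift (entF (fidx ts) 400 807 n807 = true) := ⟨by decide +kernel⟩

theorem g807 : GoodF (fidx ts) 400 807 := GoodF.ofV v807 n807 c807.down b807.down

/-- 458564:688 -/
noncomputable def e808 : SCfg where
  D := {
    a := 6
    L := 11
    kp := 8
    inn := [(0, 1), (0, 2), (1, 0), (1, 2), (2, 0), (2, 1), (2, 3), (2, 4), (3, 2), (4, 2), (4, 5), (5,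
      4)]
    mix := [(0, 0), (0, 1), (1, 1), (1, 2), (1, 3), (2, 0), (2, 3), (2, 4), (2, 5), (3, 3), (3, 4), (3,
      6), (3, 7), (4, 0), (4, 5), (4, 8), (4, 9), (5, 5), (5, 8), (5, 10)]
    cl := [0, 2, 4, 1, 1, 0, 5, 6, 3, 7, 8]
    chq := [(0, 3), (0, 4), (3, 0), (4, 0)]
    rng := [(0, 1), (0, 9), (1, 0), (1, 2), (2, 1), (2, 3), (3, 2), (3, 6), (4, 5), (4, 7), (5, 4), (5,
      10), (6, 3), (6, 7), (7, 4), (7, 6), (8, 9), (8, 10), (9, 0), (9, 8), (10, 5), (10, 8)]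
    lev := [] }
  links := [[1, 2, 6, 7], [2, 0, 7, 8, 9], [6, 0, 1, 9, 3, 10, 11, 4], [10, 2, 9, 12, 13], [6, 2, 11, 5,
    14, 15], [14, 4, 11, 16]]
  P := {
    a := 6
    N := 17
    nb := [198, 901, 3675, 13828, 51300, 83984, 32917, 323, 642, 4366, 10252, 66612, 8712, 5128,
      98352, 16464, 18464]
    tri := [(0, 1, 2), (0, 1, 7), (0, 2, 6), (0, 6, 7), (1, 2, 9), (1, 7, 8), (1, 8, 9), (2, 3, 9), (2,
      3, 10), (2, 4, 6), (2, 4, 11), (2, 10, 11), (3, 9, 12), (3, 10, 13), (3, 12, 13), (4, 5,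
      11), (4, 5, 14), (4, 6, 15), (4, 14, 15), (5, 11, 16), (5, 14, 16)]
    fin := [0, 0, 0, 3, 0, 0, 0, 7, 8, 3, 3, 0, 12, 13, 14, 15, 16]
    chd := [(0, 8), (0, 14)]
    steps := [(0, 1), (0, 2), (0, 4), (0, 5), (0, 6), (0, 11), (3, 9), (3, 10)] }
  rep := [0, 3, 7, 14, 8, 12, 13, 15, 16]

noncomputable def v808 : Cov.CovD where
  P := 3
  N := 6
  pl := [1, 6, 7, 9, 10]
  lev := [⟨[], [], [], [2], [(0, 0, [3, 4])]⟩,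
    ⟨[], [(0, 0), (0, 1), (0, 4)], [(1, 4)], [2], [(2, 4, [0]), (3, 1, [])]⟩,
    ⟨[(0, 1)], [(0, 0), (0, 1), (1, 0), (1, 1), (1, 4)], [(0, 0), (0, 1), (1, 1)], [], [(0,
      0, [3, 4]), (3, 1, []), (4, 1, []), (5, 0, [3, 4])]⟩,
    ⟨[(0, 2), (1, 2)], [(1, 1), (2, 0), (2, 1)], [(1, 1)], [5, 6], [(3, 1, []), (4, 1,
      [])]⟩,
    ⟨[(0, 2), (1, 2), (2, 3)], [(0, 0), (2, 0), (2, 1), (2, 3)], [(0, 0), (0, 3)], [7],
      [(0, 0, [3, 4]), (5, 0, [3, 4]), (8, 3, [0])]⟩,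
    ⟨[(2, 4)], [(2, 0), (4, 0), (4, 3)], [(0, 3)], [8], [(5, 0, [3, 4]), (8, 3, [0])]⟩]
  Ta := [((0, 1), 0, 2), ((0, 9), 0, 7), ((3, 2), 1, 4), ((3, 6), 1, 5), ((4, 5), 1, 0), ((4, 7),
    1, 6), ((5, 4), 0, 1), ((5, 10), 0, 8)]
  Tb := [((0, 1, 9), 0, 2, 7), ((1, 0, 2), 2, 0, 4), ((2, 1, 3), 4, 2, 1), ((3, 2, 6), 1, 4, 5),
    ((4, 5, 7), 1, 0, 6), ((5, 4, 10), 0, 1, 8), ((6, 3, 7), 5, 1, 6), ((7, 4, 6), 6, 1, 5),
    ((8, 9, 10), 3, 7, 8), ((9, 0, 8), 7, 0, 3), ((10, 5, 8), 8, 0, 3)]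
  Tc := [(0, 3, 4)]
  Td := [((0, 3), (0, 1), 2), ((0, 3), (0, 9), 7), ((0, 3), (5, 4), 1), ((0, 3), (5, 10), 8),
    ((0, 4), (0, 1), 2), ((0, 4), (0, 9), 7), ((0, 4), (5, 4), 1), ((0, 4), (5, 10), 8), ((3,
    0), (8, 9), 7), ((3, 0), (8, 10), 8), ((4, 0), (2, 1), 2), ((4, 0), (2, 3), 1)]
  G := [[0, 0, 0x116111e111ed841161165111e1818dc1884c6, 0x5449b3e93a3b9edc18,
    0xe36359e593ed988c12], [0, 0, 0x116111e111ed188c24, 0x5961bee359ed388c14,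
    0x544539e93ae17edc28], [0, 0, 0, 0xe8eeaeaeed41ee6e444d81c, 0xee6e4e4de8eeaeeadc12], [0,
    0xee6ee6ee6ee8e8e8ea14, 0, 0xe4ee65eeaeeae8dc1e4881c, 0xe4ee6ee6deeae8e8dc12]]

noncomputable def n808 : Ent := ⟨e808, noF, [], [], []⟩

def c808 : PLift (Cov.check n808.C.D v808 = true) := ⟨by decide +kernel⟩

def b808 : PLift (entF (fidx ts) 400 808 n808 = true) := ⟨by decide +kernel⟩

theorem g808 : GoodF (fidx ts) 400 808 := GoodF.ofV v808 n808 c808.down b808.down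

/-- 458564:689/1 -/
noncomputable def e809 : SCfg where
  D := {
    a := 6
    L := 10
    kp := 7
    inn := [(0, 1), (0, 2), (1, 0), (1, 2), (2, 0), (2, 1), (2, 3), (2, 4), (3, 2), (4, 2), (4, 5), (5,
      4)]
    mix := [(0, 0), (0, 1), (1, 1), (1, 2), (1, 3), (2, 0), (2, 3), (2, 4), (2, 5), (3, 3), (3, 4), (3,
      6), (3, 7), (4, 0), (4, 5), (4, 8), (4, 9), (5, 2), (5, 8), (5, 9)]
    cl := [0, 5, 2, 1, 1, 0, 6, 7, 3, 4]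
    chq := [(0, 2), (2, 0), (3, 4), (4, 3)]
    rng := [(0, 1), (0, 9), (1, 0), (1, 2), (2, 1), (2, 3), (2, 8), (2, 9), (3, 2), (3, 6), (4, 5), (4,
      7), (5, 4), (5, 8), (6, 3), (6, 7), (7, 4), (7, 6), (8, 2), (8, 5), (9, 0), (9, 2)]
    lev := [] }
  links := [[1, 2, 6, 7], [2, 0, 7, 8, 9], [6, 0, 1, 9, 3, 10, 11, 4], [10, 2, 9, 12, 13], [6, 2, 11, 14,
    5, 15], [15, 4, 14, 8]]
  P := {
    a := 6
    N := 16
    nb := [198, 901, 3675, 13828, 51300, 49424, 32917, 323, 49826, 4366, 10252, 17428, 8712, 5128,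
      2352, 368]
    tri := [(0, 1, 2), (0, 1, 7), (0, 2, 6), (0, 6, 7), (1, 2, 9), (1, 7, 8), (1, 8, 9), (2, 3, 9), (2,
      3, 10), (2, 4, 6), (2, 4, 11), (2, 10, 11), (3, 9, 12), (3, 10, 13), (3, 12, 13), (4, 5,
      14), (4, 5, 15), (4, 6, 15), (4, 11, 14), (5, 8, 14), (5, 8, 15)]
    fin := [0, 0, 0, 3, 0, 5, 0, 7, 8, 3, 3, 0, 12, 13, 5, 15]
    chd := [(0, 8), (5, 15)]
    steps := [(0, 1), (0, 2), (0, 4), (0, 6), (0, 11), (3, 9), (3, 10), (5, 14)] }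
  rep := [0, 3, 8, 5, 15, 7, 12, 13]

noncomputable def v809 : Cov.CovD where
  P := 3
  N := 5
  pl := [1, 6, 7]
  lev := [⟨[], [], [], [5], [(0, 0, [2])]⟩,
    ⟨[], [(0, 0), (0, 1), (0, 2)], [(1, 2)], [5], [(2, 2, [0]), (3, 1, [])]⟩,
    ⟨[(0, 1)], [(0, 0), (0, 1), (1, 0), (1, 1), (1, 2)], [(0, 0), (0, 1), (1, 1)], [], [(0,
      0, [2]), (3, 1, []), (4, 1, []), (5, 0, [2])]⟩,
    ⟨[(0, 2), (1, 2)], [(1, 1), (2, 0), (2, 1)], [(1, 1)], [6, 7], [(3, 1, []), (4, 1,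
      [])]⟩,
    ⟨[(0, 2), (1, 2), (2, 3)], [(0, 0), (2, 0), (2, 1), (2, 3), (2, 4)], [(0, 0), (0, 3),
      (0, 4), (3, 4)], [], [(0, 0, [2]), (5, 0, [2]), (8, 3, [4]), (9, 4, [3])]⟩,
    ⟨[(2, 4)], [(1, 2), (4, 0), (4, 2), (4, 3), (4, 4)], [(2, 3), (2, 4), (3, 4)], [], [(2,
      2, [0]), (8, 3, [4]), (9, 4, [3])]⟩]
  Ta := [((0, 1), 0, 5), ((0, 9), 0, 4), ((3, 2), 1, 2), ((3, 6), 1, 6), ((4, 5), 1, 0), ((4, 7),
    1, 7), ((5, 4), 0, 1), ((5, 8), 0, 3)]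
  Tb := [((0, 1, 9), 0, 5, 4), ((1, 0, 2), 5, 0, 2), ((2, 1, 3), 2, 5, 1), ((2, 1, 8), 2, 5, 3),
    ((2, 1, 9), 2, 5, 4), ((2, 3, 8), 2, 1, 3), ((2, 3, 9), 2, 1, 4), ((2, 8, 9), 2, 3, 4),
    ((3, 2, 6), 1, 2, 6), ((4, 5, 7), 1, 0, 7), ((5, 4, 8), 0, 1, 3), ((6, 3, 7), 6, 1, 7),
    ((7, 4, 6), 7, 1, 6), ((8, 2, 5), 3, 2, 0), ((9, 0, 2), 4, 0, 2)]
  Tc := []
  Td := [((0, 2), (0, 1), 5), ((0, 2), (0, 9), 4), ((0, 2), (5, 4), 1), ((0, 2), (5, 8), 3), ((2,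
    0), (2, 1), 5), ((2, 0), (2, 3), 1), ((2, 0), (2, 8), 3), ((2, 0), (2, 9), 4), ((3, 4),
    (8, 2), 2), ((3, 4), (8, 5), 0), ((4, 3), (9, 0), 0), ((4, 3), (9, 2), 2)]
  G := [[0, 0, 0x126112e142ed88884544426426d82a8888dc16, 0xd2d2d2d4d2d2d2d8c2,
    0x812e82a812ed4814488144812e82a812edc1e], [0, 0, 0x426142e142ed188c416112e111ed888c61, 0,
    0x812e88812ed412648a14192e192ed82a8c1c], [0, 0, 0x144811e12a111edc426111e141ed188cc1,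
    0xd2d2d2d412, 0x14192e14d82a82a9c1b4b4b4d816], [0, 0x121212e84111e4811e111eac16,
    0x14112e14d11a82a9c126141e112ed188c61, 0, 0x14192e14d82a82a9c1b4b4b4d816]]

noncomputable def n809 : Ent := ⟨e809, noF, [], [], []⟩

def c809 : PLift (Cov.check n809.C.D v809 = true) := ⟨by decide +kernel⟩

def b809 : PLift (entF (fidx ts) 400 809 n809 = true) := ⟨by decide +kernel⟩

theorem g809 : GoodF (fidx ts) 400 809 := GoodF.ofV v809 n809 c809.down b809.down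

/-- 458564:689/2 -/
noncomputable def e810 : SCfg where
  D := {
    a := 6
    L := 10
    kp := 7
    inn := [(0, 1), (0, 2), (1, 0), (1, 2), (2, 0), (2, 1), (2, 3), (2, 4), (3, 2), (4, 2), (4, 5), (5,
      4)]
    mix := [(0, 0), (0, 1), (1, 1), (1, 2), (1, 3), (2, 0), (2, 3), (2, 4), (2, 5), (3, 3), (3, 4), (3,
      6), (3, 7), (4, 0), (4, 5), (4, 8), (4, 9), (5, 6), (5, 8), (5, 9)]
    cl := [0, 2, 6, 1, 1, 0, 3, 7, 4, 5]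
    chq := [(0, 3), (0, 6), (3, 0), (6, 0)]
    rng := [(0, 1), (0, 9), (1, 0), (1, 2), (2, 1), (2, 3), (3, 2), (3, 6), (4, 5), (4, 7), (5, 4), (5,
      8), (6, 3), (6, 7), (6, 8), (6, 9), (7, 4), (7, 6), (8, 5), (8, 6), (9, 0), (9, 6)]
    lev := [] }
  links := [[1, 2, 6, 7], [2, 0, 7, 8, 9], [6, 0, 1, 9, 3, 10, 11, 4], [10, 2, 9, 12, 13], [6, 2, 11, 14,
    5, 15], [15, 4, 14, 12]]
  P := {
    a := 6
    N := 16
    nb := [198, 901, 3675, 13828, 51300, 53264, 32917, 323, 642, 4366, 10252, 17428, 57896, 5128,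
      6192, 4208]
    tri := [(0, 1, 2), (0, 1, 7), (0, 2, 6), (0, 6, 7), (1, 2, 9), (1, 7, 8), (1, 8, 9), (2, 3, 9), (2,
      3, 10), (2, 4, 6), (2, 4, 11), (2, 10, 11), (3, 9, 12), (3, 10, 13), (3, 12, 13), (4, 5,
      14), (4, 5, 15), (4, 6, 15), (4, 11, 14), (5, 12, 14), (5, 12, 15)]
    fin := [0, 0, 0, 3, 0, 0, 0, 7, 8, 3, 3, 0, 12, 13, 14, 15]
    chd := [(0, 8), (0, 12)]
    steps := [(0, 1), (0, 2), (0, 4), (0, 5), (0, 6), (0, 11), (3, 9), (3, 10)] }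
  rep := [0, 3, 7, 12, 14, 15, 8, 13]

noncomputable def v810 : Cov.CovD where
  P := 3
  N := 5
  pl := [1, 7, 8, 9]
  lev := [⟨[], [], [], [2], [(0, 0, [3, 6])]⟩,
    ⟨[], [(0, 0), (0, 1), (0, 6)], [(1, 6)], [2], [(2, 6, [0]), (3, 1, [])]⟩,
    ⟨[(0, 1)], [(0, 0), (0, 1), (1, 0), (1, 1), (1, 6)], [(0, 0), (0, 1), (1, 1)], [], [(0,
      0, [3, 6]), (3, 1, []), (4, 1, []), (5, 0, [3, 6])]⟩,
    ⟨[(0, 2), (1, 2)], [(1, 1), (2, 0), (2, 1), (2, 3)], [(1, 1), (1, 3)], [7], [(3, 1,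
      []), (4, 1, []), (6, 3, [0])]⟩,
    ⟨[(0, 2), (1, 2), (2, 3)], [(0, 0), (2, 0), (2, 1)], [(0, 0)], [4, 5], [(0, 0, [3, 6]),
      (5, 0, [3, 6])]⟩,
    ⟨[(2, 4)], [(3, 3), (4, 0), (4, 3)], [], [4, 5], [(6, 3, [0])]⟩]
  Ta := [((0, 1), 0, 2), ((0, 9), 0, 5), ((3, 2), 1, 6), ((3, 6), 1, 3), ((4, 5), 1, 0), ((4, 7),
    1, 7), ((5, 4), 0, 1), ((5, 8), 0, 4)]
  Tb := [((0, 1, 9), 0, 2, 5), ((1, 0, 2), 2, 0, 6), ((2, 1, 3), 6, 2, 1), ((3, 2, 6), 1, 6, 3),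
    ((4, 5, 7), 1, 0, 7), ((5, 4, 8), 0, 1, 4), ((6, 3, 7), 3, 1, 7), ((6, 3, 8), 3, 1, 4),
    ((6, 3, 9), 3, 1, 5), ((6, 7, 8), 3, 7, 4), ((6, 7, 9), 3, 7, 5), ((6, 8, 9), 3, 4, 5),
    ((7, 4, 6), 7, 1, 3), ((8, 5, 6), 4, 0, 3), ((9, 0, 6), 5, 0, 3)]
  Tc := [(0, 3, 6)]
  Td := [((0, 3), (0, 1), 2), ((0, 3), (0, 9), 5), ((0, 3), (5, 4), 1), ((0, 3), (5, 8), 4), ((0,
    6), (0, 1), 2), ((0, 6), (0, 9), 5), ((0, 6), (5, 4), 1), ((0, 6), (5, 8), 4), ((3, 0),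
    (6, 3), 1), ((3, 0), (6, 7), 7), ((3, 0), (6, 8), 4), ((3, 0), (6, 9), 5), ((6, 0), (2,
    1), 2), ((6, 0), (2, 3), 1)]
  G := [[0, 0, 0x1164181c14141e111ed8c811e18116d412a84c6, 0x31614be1d2ed888c14,
    0x3214be1d2ed81c8c12], [0, 0, 0x126111e111ed188c24, 0x4264812e18d12edc18,
    0x142e1d2e5812e8c12], [0, 0, 0, 0x4364812e18d17edc18, 0x4364817e18d12edc18], [0,
    0x122811e141e11cea18, 0, 0x4264812e18d12edc18, 0x142e1d2e5812e8c21]]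

noncomputable def n810 : Ent := ⟨e810, noF, [], [], []⟩

def c810 : PLift (Cov.check n810.C.D v810 = true) := ⟨by decide +kernel⟩

def b810 : PLift (entF (fidx ts) 400 810 n810 = true) := ⟨by decide +kernel⟩

theorem g810 : GoodF (fidx ts) 400 810 := GoodF.ofV v810 n810 c810.down b810.down

/-- 458564:689/3 -/
noncomputable def e811 : SCfg where
  D := {
    a := 6
    L := 10
    kp := 7
    inn := [(0, 1), (0, 2), (1, 0), (1, 2), (2, 0), (2, 1), (2, 3), (2, 4), (3, 2), (4, 2), (4, 5), (5,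
      4)]
    mix := [(0, 0), (0, 1), (1, 1), (1, 2), (1, 3), (2, 0), (2, 3), (2, 4), (2, 5), (3, 3), (3, 4), (3,
      6), (3, 7), (4, 0), (4, 5), (4, 8), (4, 9), (5, 7), (5, 8), (5, 9)]
    cl := [0, 2, 6, 1, 1, 0, 7, 3, 4, 5]
    chq := [(0, 3), (0, 6), (3, 0), (6, 0)]
    rng := [(0, 1), (0, 9), (1, 0), (1, 2), (2, 1), (2, 3), (3, 2), (3, 6), (4, 5), (4, 7), (5, 4), (5,
      8), (6, 3), (6, 7), (7, 4), (7, 6), (7, 8), (7, 9), (8, 5), (8, 7), (9, 0), (9, 7)]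
    lev := [] }
  links := [[1, 2, 6, 7], [2, 0, 7, 8, 9], [6, 0, 1, 9, 3, 10, 11, 4], [10, 2, 9, 12, 13], [6, 2, 11, 14,
    5, 15], [15, 4, 14, 13]]
  P := {
    a := 6
    N := 16
    nb := [198, 901, 3675, 13828, 51300, 57360, 32917, 323, 642, 4366, 10252, 17428, 8712, 54312,
      10288, 8304]
    tri := [(0, 1, 2), (0, 1, 7), (0, 2, 6), (0, 6, 7), (1, 2, 9), (1, 7, 8), (1, 8, 9), (2, 3, 9), (2,
      3, 10), (2, 4, 6), (2, 4, 11), (2, 10, 11), (3, 9, 12), (3, 10, 13), (3, 12, 13), (4, 5,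
      14), (4, 5, 15), (4, 6, 15), (4, 11, 14), (5, 13, 14), (5, 13, 15)]
    fin := [0, 0, 0, 3, 0, 0, 0, 7, 8, 3, 3, 0, 12, 13, 14, 15]
    chd := [(0, 8), (0, 13)]
    steps := [(0, 1), (0, 2), (0, 4), (0, 5), (0, 6), (0, 11), (3, 9), (3, 10)] }
  rep := [0, 3, 7, 13, 14, 15, 8, 12]

noncomputable def v811 : Cov.CovD where
  P := 3
  N := 5
  pl := [1, 6, 8, 9]
  lev := [⟨[], [], [], [2], [(0, 0, [3, 6])]⟩,
    ⟨[], [(0, 0), (0, 1), (0, 6)], [(1, 6)], [2], [(2, 6, [0]), (3, 1, [])]⟩,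
    ⟨[(0, 1)], [(0, 0), (0, 1), (1, 0), (1, 1), (1, 6)], [(0, 0), (0, 1), (1, 1)], [], [(0,
      0, [3, 6]), (3, 1, []), (4, 1, []), (5, 0, [3, 6])]⟩,
    ⟨[(0, 2), (1, 2)], [(1, 1), (2, 0), (2, 1), (2, 3)], [(1, 1), (1, 3)], [7], [(3, 1,
      []), (4, 1, []), (7, 3, [0])]⟩,
    ⟨[(0, 2), (1, 2), (2, 3)], [(0, 0), (2, 0), (2, 1)], [(0, 0)], [4, 5], [(0, 0, [3, 6]),
      (5, 0, [3, 6])]⟩,
    ⟨[(2, 4)], [(3, 3), (4, 0), (4, 3)], [], [4, 5], [(7, 3, [0])]⟩]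
  Ta := [((0, 1), 0, 2), ((0, 9), 0, 5), ((3, 2), 1, 6), ((3, 6), 1, 7), ((4, 5), 1, 0), ((4, 7),
    1, 3), ((5, 4), 0, 1), ((5, 8), 0, 4)]
  Tb := [((0, 1, 9), 0, 2, 5), ((1, 0, 2), 2, 0, 6), ((2, 1, 3), 6, 2, 1), ((3, 2, 6), 1, 6, 7),
    ((4, 5, 7), 1, 0, 3), ((5, 4, 8), 0, 1, 4), ((6, 3, 7), 7, 1, 3), ((7, 4, 6), 3, 1, 7),
    ((7, 4, 8), 3, 1, 4), ((7, 4, 9), 3, 1, 5), ((7, 6, 8), 3, 7, 4), ((7, 6, 9), 3, 7, 5),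
    ((7, 8, 9), 3, 4, 5), ((8, 5, 7), 4, 0, 3), ((9, 0, 7), 5, 0, 3)]
  Tc := [(0, 3, 6)]
  Td := [((0, 3), (0, 1), 2), ((0, 3), (0, 9), 5), ((0, 3), (5, 4), 1), ((0, 3), (5, 8), 4), ((0,
    6), (0, 1), 2), ((0, 6), (0, 9), 5), ((0, 6), (5, 4), 1), ((0, 6), (5, 8), 4), ((3, 0),
    (7, 4), 1), ((3, 0), (7, 6), 7), ((3, 0), (7, 8), 4), ((3, 0), (7, 9), 5), ((6, 0), (2,
    1), 2), ((6, 0), (2, 3), 1)]
  G := [[0, 0, 0x1261458116142e112ed8c811e1811ad48884c6, 0x444812e12ad12edc18,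
    0x142e4812ed12e9c12], [0, 0, 0x14142e14d11a11a9c24, 0x31614ae1d3ed888c14,
    0x143e1dae5813e8c12], [0, 0, 0, 0x444812e12ad12edc18, 0x142e1d2e5812e8c12], [0,
    0x144811e11a112eec18, 0, 0x4264835e18d13edc18, 0x142e1dbe5831e8c12]]

noncomputable def n811 : Ent := ⟨e811, noF, [], [], []⟩

def c811 : PLift (Cov.check n811.C.D v811 = true) := ⟨by decide +kernel⟩

def b811 : PLift (entF (fidx ts) 400 811 n811 = true) := ⟨by decide +kernel⟩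

theorem g811 : GoodF (fidx ts) 400 811 := GoodF.ofV v811 n811 c811.down b811.down

/-- 458564:689 -/
noncomputable def e812 : SCfg where
  D := {
    a := 6
    L := 11
    kp := 8
    inn := [(0, 1), (0, 2), (1, 0), (1, 2), (2, 0), (2, 1), (2, 3), (2, 4), (3, 2), (4, 2), (4, 5), (5,
      4)]
    mix := [(0, 0), (0, 1), (1, 1), (1, 2), (1, 3), (2, 0), (2, 3), (2, 4), (2, 5), (3, 3), (3, 4), (3,
      6), (3, 7), (4, 0), (4, 5), (4, 8), (4, 9), (5, 8), (5, 9), (5, 10)]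
    cl := [0, 2, 5, 1, 1, 0, 7, 8, 3, 4, 6]
    chq := [(0, 5), (0, 6), (5, 0), (6, 0)]
    rng := [(0, 1), (0, 9), (1, 0), (1, 2), (2, 1), (2, 3), (3, 2), (3, 6), (4, 5), (4, 7), (5, 4), (5,
      8), (6, 3), (6, 7), (7, 4), (7, 6), (8, 5), (8, 10), (9, 0), (9, 10), (10, 8), (10, 9)]
    lev := [] }
  links := [[1, 2, 6, 7], [2, 0, 7, 8, 9], [6, 0, 1, 9, 3, 10, 11, 4], [10, 2, 9, 12, 13], [6, 2, 11, 14,
    5, 15], [15, 4, 14, 16]]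
  P := {
    a := 6
    N := 17
    nb := [198, 901, 3675, 13828, 51300, 114704, 32917, 323, 642, 4366, 10252, 17428, 8712, 5128,
      67632, 65648, 49184]
    tri := [(0, 1, 2), (0, 1, 7), (0, 2, 6), (0, 6, 7), (1, 2, 9), (1, 7, 8), (1, 8, 9), (2, 3, 9), (2,
      3, 10), (2, 4, 6), (2, 4, 11), (2, 10, 11), (3, 9, 12), (3, 10, 13), (3, 12, 13), (4, 5,
      14), (4, 5, 15), (4, 6, 15), (4, 11, 14), (5, 14, 16), (5, 15, 16)]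
    fin := [0, 0, 0, 3, 0, 0, 0, 7, 8, 3, 3, 0, 12, 13, 14, 15, 16]
    chd := [(0, 8), (0, 16)]
    steps := [(0, 1), (0, 2), (0, 4), (0, 5), (0, 6), (0, 11), (3, 9), (3, 10)] }
  rep := [0, 3, 7, 14, 15, 8, 16, 12, 13]

noncomputable def v812 : Cov.CovD where
  P := 3
  N := 6
  pl := [1, 6, 7, 8, 9]
  lev := [⟨[], [], [], [2], [(0, 0, [5, 6])]⟩,
    ⟨[], [(0, 0), (0, 1), (0, 5)], [(1, 5)], [2], [(2, 5, [0]), (3, 1, [])]⟩,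
    ⟨[(0, 1)], [(0, 0), (0, 1), (1, 0), (1, 1), (1, 5)], [(0, 0), (0, 1), (1, 1)], [], [(0,
      0, [5, 6]), (3, 1, []), (4, 1, []), (5, 0, [5, 6])]⟩,
    ⟨[(0, 2), (1, 2)], [(1, 1), (2, 0), (2, 1)], [(1, 1)], [7, 8], [(3, 1, []), (4, 1,
      [])]⟩,
    ⟨[(0, 2), (1, 2), (2, 3)], [(0, 0), (2, 0), (2, 1)], [(0, 0)], [3, 4], [(0, 0, [5, 6]),
      (5, 0, [5, 6])]⟩,
    ⟨[(2, 4)], [(4, 0), (4, 6)], [], [3, 4], [(10, 6, [0])]⟩]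
  Ta := [((0, 1), 0, 2), ((0, 9), 0, 4), ((3, 2), 1, 5), ((3, 6), 1, 7), ((4, 5), 1, 0), ((4, 7),
    1, 8), ((5, 4), 0, 1), ((5, 8), 0, 3)]
  Tb := [((0, 1, 9), 0, 2, 4), ((1, 0, 2), 2, 0, 5), ((2, 1, 3), 5, 2, 1), ((3, 2, 6), 1, 5, 7),
    ((4, 5, 7), 1, 0, 8), ((5, 4, 8), 0, 1, 3), ((6, 3, 7), 7, 1, 8), ((7, 4, 6), 8, 1, 7),
    ((8, 5, 10), 3, 0, 6), ((9, 0, 10), 4, 0, 6), ((10, 8, 9), 6, 3, 4)]
  Tc := [(0, 5, 6)]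
  Td := [((0, 5), (0, 1), 2), ((0, 5), (0, 9), 4), ((0, 5), (5, 4), 1), ((0, 5), (5, 8), 3), ((0,
    6), (0, 1), 2), ((0, 6), (0, 9), 4), ((0, 6), (5, 4), 1), ((0, 6), (5, 8), 3), ((5, 0),
    (2, 1), 2), ((5, 0), (2, 3), 1), ((6, 0), (10, 8), 3), ((6, 0), (10, 9), 4)]
  G := [[0, 0, 0x1161165111e1818dc14111e111ed11a8cc2, 0x541dbe1dbed93a8c14,
    0x5361dbe1dbed988c12], [0, 0, 0x116111e111ed188c24, 0x544d17e93ad17edc18,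
    0x5361dbe1dbed988c12], [0, 0, 0, 0x544d17e93ad17edc18, 0x544d17e93ad17edc18], [0,
    0x116111e111ee188a14, 0, 0x544d17e93ad17edc18, 0x1dbe1dbe5d17e8c21]]

noncomputable def n812 : Ent := ⟨e812, noF, [], [], [(8, 16, [1580044410770988437309982408355971841652082177953823432505692426241, 0]), (12, 16, [1580044410770988437309982408355971841652082177953823432505692430337, 0]), (13, 16, [1580044410770988437309982408355971841652082177953823432505692434433, 0])]⟩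

def c812 : PLift (Cov.check n812.C.D v812 = true) := ⟨by decide +kernel⟩

def b812 : PLift (entF (fidx ts) 400 812 n812 = true) := ⟨by decide +kernel⟩

theorem g812 : GoodF (fidx ts) 400 812 := GoodF.ofV v812 n812 c812.down b812.down

/-- 458564:690/2 -/
noncomputable def e813 : SCfg where
  D := {
    a := 6
    L := 9
    kp := 6
    inn := [(0, 1), (0, 2), (1, 0), (1, 2), (2, 0), (2, 1), (2, 3), (2, 4), (3, 2), (4, 2), (4, 5), (5,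
      4)]
    mix := [(0, 0), (0, 1), (1, 1), (1, 2), (1, 3), (2, 0), (2, 3), (2, 4), (2, 5), (3, 2), (3, 3), (3,
      4), (3, 6), (4, 0), (4, 5), (4, 7), (4, 8), (5, 0), (5, 1), (5, 8)]
    cl := [0, 3, 2, 1, 1, 0, 5, 6, 4]
    chq := [(0, 2), (0, 4), (2, 0), (4, 0)]
    rng := [(0, 1), (1, 0), (1, 2), (1, 8), (2, 1), (2, 3), (2, 6), (3, 2), (4, 5), (4, 6), (5, 4), (5,
      7), (6, 2), (6, 4), (7, 5), (7, 8), (8, 1), (8, 7)]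
    lev := [] }
  links := [[1, 2, 6, 7], [2, 0, 7, 8, 9], [6, 0, 1, 9, 3, 10, 11, 4], [10, 2, 9, 8, 12], [6, 2, 11, 13,
    14, 5], [6, 4, 14, 7]]
  P := {
    a := 6
    N := 15
    nb := [198, 901, 3675, 5892, 26724, 16592, 181, 16739, 4746, 270, 6156, 9236, 1288, 18448, 8368]
    tri := [(0, 1, 2), (0, 1, 7), (0, 2, 6), (0, 6, 7), (1, 2, 9), (1, 7, 8), (1, 8, 9), (2, 3, 9), (2,
      3, 10), (2, 4, 6), (2, 4, 11), (2, 10, 11), (3, 8, 9), (3, 8, 12), (3, 10, 12), (4, 5, 6),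
      (4, 5, 14), (4, 11, 13), (4, 13, 14), (5, 6, 7), (5, 7, 14)]
    fin := [0, 0, 2, 3, 0, 0, 0, 7, 3, 2, 2, 0, 12, 13, 14]
    chd := [(0, 3), (0, 14)]
    steps := [(0, 1), (0, 6), (0, 4), (0, 5), (0, 11), (2, 9), (2, 10), (3, 8)] }
  rep := [0, 2, 3, 7, 14, 12, 13]

noncomputable def v813 : Cov.CovD where
  P := 3
  N := 4
  pl := [1, 6, 7]
  lev := [⟨[], [], [], [3], [(0, 0, [2, 4])]⟩,
    ⟨[], [(0, 0), (0, 1), (0, 2)], [(1, 2)], [3], [(2, 2, [0]), (3, 1, [])]⟩,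
    ⟨[(0, 1)], [(0, 0), (0, 1), (1, 0), (1, 1), (1, 2)], [(0, 0), (0, 1), (1, 1)], [], [(0,
      0, [2, 4]), (3, 1, []), (4, 1, []), (5, 0, [2, 4])]⟩,
    ⟨[(0, 2), (1, 2)], [(1, 1), (1, 2), (2, 0), (2, 1), (2, 2)], [(1, 1), (1, 2)], [5],
      [(2, 2, [0]), (3, 1, []), (4, 1, [])]⟩,
    ⟨[(0, 2), (1, 2), (2, 3)], [(0, 0), (2, 0), (2, 1), (2, 4)], [(0, 0), (0, 4)], [6],
      [(0, 0, [2, 4]), (5, 0, [2, 4]), (8, 4, [0])]⟩,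
    ⟨[(2, 4)], [(0, 0), (2, 0), (4, 0), (4, 4)], [(0, 4)], [3], [(0, 0, [2, 4]), (8, 4,
      [0])]⟩]
  Ta := [((0, 1), 0, 3), ((3, 2), 1, 2), ((4, 5), 1, 0), ((4, 6), 1, 5), ((5, 4), 0, 1), ((5, 7),
    0, 6)]
  Tb := [((1, 0, 2), 3, 0, 2), ((1, 0, 8), 3, 0, 4), ((1, 2, 8), 3, 2, 4), ((2, 1, 3), 2, 3, 1),
    ((2, 1, 6), 2, 3, 5), ((2, 3, 6), 2, 1, 5), ((4, 5, 6), 1, 0, 5), ((5, 4, 7), 0, 1, 6),
    ((6, 2, 4), 5, 2, 1), ((7, 5, 8), 6, 0, 4), ((8, 1, 7), 4, 3, 6)]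
  Tc := [(0, 2, 4)]
  Td := [((0, 2), (0, 1), 3), ((0, 2), (5, 4), 1), ((0, 2), (5, 7), 6), ((0, 4), (0, 1), 3), ((0,
    4), (5, 4), 1), ((0, 4), (5, 7), 6), ((2, 0), (2, 1), 3), ((2, 0), (2, 3), 1), ((2, 0),
    (2, 6), 5), ((4, 0), (8, 1), 3), ((4, 0), (8, 7), 6)]
  G := [[0, 0, 0x811e148111e184c, 0x642e642e5848a2e8a2e9416, 0x8aee8aee948426642e9688c1c], [0,
    0, 0x111e148142e184c, 0, 0x8aae8a2e94846664ee9688c1c], [0, 0, 0x812e148141e184c,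
    0x312e312e5812, 0x436341e9188c18a2e8a2e9485], [0, 0x111e841ec24111e12ac144616,
    0x8aee14642e18c1, 0, 0x416541e9888c1312e1a2e9416]]

noncomputable def n813 : Ent := ⟨e813, noF, [], [], []⟩

def c813 : PLift (Cov.check n813.C.D v813 = true) := ⟨by decide +kernel⟩

def b813 : PLift (entF (fidx ts) 400 813 n813 = true) := ⟨by decide +kernel⟩

theorem g813 : GoodF (fidx ts) 400 813 := GoodF.ofV v813 n813 c813.down b813.down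

/-- 458564:690/1 -/
noncomputable def e814 : SCfg where
  D := {
    a := 6
    L := 10
    kp := 7
    inn := [(0, 1), (0, 2), (1, 0), (1, 2), (2, 0), (2, 1), (2, 3), (2, 4), (3, 2), (4, 2), (4, 5), (5,
      4)]
    mix := [(0, 0), (0, 1), (1, 1), (1, 2), (1, 3), (2, 0), (2, 3), (2, 4), (2, 5), (3, 3), (3, 4), (3,
      6), (3, 7), (4, 0), (4, 5), (4, 8), (4, 9), (5, 0), (5, 1), (5, 9)]
    cl := [0, 2, 4, 1, 1, 0, 5, 6, 7, 3]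
    chq := [(0, 3), (0, 4), (3, 0), (4, 0)]
    rng := [(0, 1), (1, 0), (1, 2), (1, 9), (2, 1), (2, 3), (3, 2), (3, 6), (4, 5), (4, 7), (5, 4), (5,
      8), (6, 3), (6, 7), (7, 4), (7, 6), (8, 5), (8, 9), (9, 1), (9, 8)]
    lev := [] }
  links := [[1, 2, 6, 7], [2, 0, 7, 8, 9], [6, 0, 1, 9, 3, 10, 11, 4], [10, 2, 9, 12, 13], [6, 2, 11, 14,
    15, 5], [6, 4, 15, 7]]
  P := {
    a := 6
    N := 16
    nb := [198, 901, 3675, 13828, 51300, 32976, 181, 33123, 642, 4366, 10252, 17428, 8712, 5128,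
      34832, 16560]
    tri := [(0, 1, 2), (0, 1, 7), (0, 2, 6), (0, 6, 7), (1, 2, 9), (1, 7, 8), (1, 8, 9), (2, 3, 9), (2,
      3, 10), (2, 4, 6), (2, 4, 11), (2, 10, 11), (3, 9, 12), (3, 10, 13), (3, 12, 13), (4, 5, 6),
      (4, 5, 15), (4, 11, 14), (4, 14, 15), (5, 6, 7), (5, 7, 15)]
    fin := [0, 0, 0, 3, 0, 0, 0, 7, 8, 3, 3, 0, 12, 13, 14, 15]
    chd := [(0, 8), (0, 15)]
    steps := [(0, 1), (0, 2), (0, 4), (0, 6), (0, 5), (0, 11), (3, 9), (3, 10)] }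
  rep := [0, 3, 7, 15, 8, 12, 13, 14]

noncomputable def v814 : Cov.CovD where
  P := 3
  N := 5
  pl := [1, 6, 7, 8]
  lev := [⟨[], [], [], [2], [(0, 0, [3, 4])]⟩,
    ⟨[], [(0, 0), (0, 1), (0, 4)], [(1, 4)], [2], [(2, 4, [0]), (3, 1, [])]⟩,
    ⟨[(0, 1)], [(0, 0), (0, 1), (1, 0), (1, 1), (1, 4)], [(0, 0), (0, 1), (1, 1)], [], [(0,
      0, [3, 4]), (3, 1, []), (4, 1, []), (5, 0, [3, 4])]⟩,
    ⟨[(0, 2), (1, 2)], [(1, 1), (2, 0), (2, 1)], [(1, 1)], [5, 6], [(3, 1, []), (4, 1,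
      [])]⟩,
    ⟨[(0, 2), (1, 2), (2, 3)], [(0, 0), (2, 0), (2, 1), (2, 3)], [(0, 0), (0, 3)], [7],
      [(0, 0, [3, 4]), (5, 0, [3, 4]), (9, 3, [0])]⟩,
    ⟨[(2, 4)], [(0, 0), (2, 0), (4, 0), (4, 3)], [(0, 3)], [2], [(0, 0, [3, 4]), (9, 3,
      [0])]⟩]
  Ta := [((0, 1), 0, 2), ((3, 2), 1, 4), ((3, 6), 1, 5), ((4, 5), 1, 0), ((4, 7), 1, 6), ((5, 4),
    0, 1), ((5, 8), 0, 7)]
  Tb := [((1, 0, 2), 2, 0, 4), ((1, 0, 9), 2, 0, 3), ((1, 2, 9), 2, 4, 3), ((2, 1, 3), 4, 2, 1),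
    ((3, 2, 6), 1, 4, 5), ((4, 5, 7), 1, 0, 6), ((5, 4, 8), 0, 1, 7), ((6, 3, 7), 5, 1, 6),
    ((7, 4, 6), 6, 1, 5), ((8, 5, 9), 7, 0, 3), ((9, 1, 8), 3, 2, 7)]
  Tc := [(0, 3, 4)]
  Td := [((0, 3), (0, 1), 2), ((0, 3), (5, 4), 1), ((0, 3), (5, 8), 7), ((0, 4), (0, 1), 2), ((0,
    4), (5, 4), 1), ((0, 4), (5, 8), 7), ((3, 0), (9, 1), 2), ((3, 0), (9, 8), 7), ((4, 0),
    (2, 1), 2), ((4, 0), (2, 3), 1)]
  G := [[0, 0, 0x444458a2e82a82adc44642e642ed82a8cc2, 0x4c64c658ca8888dc144881c,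
    0xa2648a2e888a2edc18], [0, 0, 0x444458a2e82a82adc28, 0x884414c64c64c6d88889c1c,
    0xa448a2e82a8a2edc12], [0, 0, 0, 0x444815e81a815edc18, 0x326312e192ed188c12], [0,
    0x144111e81a811eec18, 0, 0x4414ce145ed81a8c14, 0x312e4812e812e9c12]]

noncomputable def n814 : Ent := ⟨e814, noF, [], [], [(8, 12, [385753029973011613167317188540585705112827479461471962593939457, 0])]⟩

def c814 : PLift (Cov.check n814.C.D v814 = true) := ⟨by decide +kernel⟩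

def b814 : PLift (entF (fidx ts) 400 814 n814 = true) := ⟨by decide +kernel⟩

theorem g814 : GoodF (fidx ts) 400 814 := GoodF.ofV v814 n814 c814.down b814.down

/-- 458564:690/3 -/
noncomputable def e815 : SCfg where
  D := {
    a := 6
    L := 10
    kp := 7
    inn := [(0, 1), (0, 2), (1, 0), (1, 2), (2, 0), (2, 1), (2, 3), (2, 4), (3, 2), (4, 2), (4, 5), (5,
      4)]
    mix := [(0, 0), (0, 1), (1, 1), (1, 2), (1, 3), (2, 0), (2, 3), (2, 4), (2, 5), (3, 2), (3, 3), (3,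
      4), (3, 6), (4, 0), (4, 5), (4, 7), (4, 8), (5, 0), (5, 8), (5, 9)]
    cl := [0, 2, 3, 1, 1, 0, 7, 5, 4, 6]
    chq := [(0, 3), (3, 0), (5, 6), (6, 5)]
    rng := [(0, 1), (0, 9), (1, 0), (1, 2), (2, 1), (2, 3), (2, 6), (3, 2), (4, 5), (4, 6), (5, 4), (5,
      7), (6, 2), (6, 4), (7, 5), (7, 8), (8, 7), (8, 9), (9, 0), (9, 8)]
    lev := [] }
  links := [[1, 2, 6, 7], [2, 0, 7, 8, 9], [6, 0, 1, 9, 3, 10, 11, 4], [10, 2, 9, 8, 12], [6, 2, 11, 13,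
    14, 5], [6, 4, 14, 15]]
  P := {
    a := 6
    N := 16
    nb := [198, 901, 3675, 5892, 26724, 49232, 32949, 323, 4746, 270, 6156, 9236, 1288, 18448, 41008,
      16480]
    tri := [(0, 1, 2), (0, 1, 7), (0, 2, 6), (0, 6, 7), (1, 2, 9), (1, 7, 8), (1, 8, 9), (2, 3, 9), (2,
      3, 10), (2, 4, 6), (2, 4, 11), (2, 10, 11), (3, 8, 9), (3, 8, 12), (3, 10, 12), (4, 5, 6),
      (4, 5, 14), (4, 11, 13), (4, 13, 14), (5, 6, 15), (5, 14, 15)]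
    fin := [0, 0, 0, 3, 4, 4, 0, 7, 8, 3, 3, 0, 12, 4, 14, 15]
    chd := [(0, 8), (4, 15)]
    steps := [(0, 1), (0, 2), (0, 6), (0, 11), (3, 9), (3, 10), (4, 5), (4, 13)] }
  rep := [0, 3, 7, 8, 14, 4, 15, 12]

noncomputable def v815 : Cov.CovD where
  P := 3
  N := 5
  pl := [1, 6, 8]
  lev := [⟨[], [], [], [2], [(0, 0, [3])]⟩,
    ⟨[], [(0, 0), (0, 1), (0, 3)], [(1, 3)], [2], [(2, 3, [0]), (3, 1, [])]⟩,
    ⟨[(0, 1)], [(0, 0), (0, 1), (1, 0), (1, 1), (1, 3)], [(0, 0), (0, 1), (1, 1)], [], [(0,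
      0, [3]), (3, 1, []), (4, 1, []), (5, 0, [3])]⟩,
    ⟨[(0, 2), (1, 2)], [(1, 1), (1, 3), (2, 0), (2, 1), (2, 3)], [(1, 1), (1, 3)], [7],
      [(2, 3, [0]), (3, 1, []), (4, 1, [])]⟩,
    ⟨[(0, 2), (1, 2), (2, 3)], [(0, 0), (2, 0), (2, 1), (2, 5)], [(0, 0), (0, 5)], [4],
      [(0, 0, [3]), (5, 0, [3]), (7, 5, [6])]⟩,
    ⟨[(2, 4)], [(0, 0), (2, 0), (4, 0), (4, 5), (4, 6)], [(0, 6)], [4], [(0, 0, [3]), (9,
      6, [5])]⟩]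
  Ta := [((0, 1), 0, 2), ((0, 9), 0, 6), ((3, 2), 1, 3), ((4, 5), 1, 0), ((4, 6), 1, 7), ((5, 4),
    0, 1), ((5, 7), 0, 5)]
  Tb := [((0, 1, 9), 0, 2, 6), ((1, 0, 2), 2, 0, 3), ((2, 1, 3), 3, 2, 1), ((2, 1, 6), 3, 2, 7),
    ((2, 3, 6), 3, 1, 7), ((4, 5, 6), 1, 0, 7), ((5, 4, 7), 0, 1, 5), ((6, 2, 4), 7, 3, 1),
    ((7, 5, 8), 5, 0, 4), ((8, 7, 9), 4, 5, 6), ((9, 0, 8), 6, 0, 4)]
  Tc := []
  Td := [((0, 3), (0, 1), 2), ((0, 3), (0, 9), 6), ((0, 3), (5, 4), 1), ((0, 3), (5, 7), 5), ((3,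
    0), (2, 1), 2), ((3, 0), (2, 3), 1), ((3, 0), (2, 6), 7), ((5, 6), (7, 5), 0), ((5, 6),
    (7, 8), 4), ((6, 5), (9, 0), 0), ((6, 5), (9, 8), 4)]
  G := [[0, 0, 0x6ace6ace946ace6ace58c2, 0xa446ace6ca6acedc18, 0xa46ace56ace6cacc12], [0, 0,
    0xac66ace6aced688c24, 0xac66ace6aced688c14, 0xa4ac656ace6ca68dc28], [0, 0, 0,
    0x3566a1e619ed188c14, 0x691e31ce5135e8c12], [0, 0xa1613ce5a1ee688c14, 0,
    0x3565a1e591ed188c14, 0x3c6135e619ed188c12]]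

noncomputable def n815 : Ent := ⟨e815, noF, [], [], [(7, 15, [360035742630636841211993100915356868655746945586763691011002369, 0])]⟩

def c815 : PLift (Cov.check n815.C.D v815 = true) := ⟨by decide +kernel⟩

def b815 : PLift (entF (fidx ts) 400 815 n815 = true) := ⟨by decide +kernel⟩

theorem g815 : GoodF (fidx ts) 400 815 := GoodF.ofV v815 n815 c815.down b815.down

/-- 458564:690 -/
noncomputable def e816 : SCfg where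
  D := {
    a := 6
    L := 11
    kp := 8
    inn := [(0, 1), (0, 2), (1, 0), (1, 2), (2, 0), (2, 1), (2, 3), (2, 4), (3, 2), (4, 2), (4, 5), (5,
      4)]
    mix := [(0, 0), (0, 1), (1, 1), (1, 2), (1, 3), (2, 0), (2, 3), (2, 4), (2, 5), (3, 3), (3, 4), (3,
      6), (3, 7), (4, 0), (4, 5), (4, 8), (4, 9), (5, 0), (5, 9), (5, 10)]
    cl := [0, 2, 4, 1, 1, 0, 7, 8, 5, 3, 6]
    chq := [(0, 4), (4, 0), (5, 6), (6, 5)]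
    rng := [(0, 1), (0, 10), (1, 0), (1, 2), (2, 1), (2, 3), (3, 2), (3, 6), (4, 5), (4, 7), (5, 4),
      (5, 8), (6, 3), (6, 7), (7, 4), (7, 6), (8, 5), (8, 9), (9, 8), (9, 10), (10, 0), (10, 9)]
    lev := [] }
  links := [[1, 2, 6, 7], [2, 0, 7, 8, 9], [6, 0, 1, 9, 3, 10, 11, 4], [10, 2, 9, 12, 13], [6, 2, 11, 14,
    15, 5], [6, 4, 15, 16]]
  P := {
    a := 6
    N := 17
    nb := [198, 901, 3675, 13828, 51300, 98384, 65717, 323, 642, 4366, 10252, 17428, 8712, 5128,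
      34832, 81968, 32864]
    tri := [(0, 1, 2), (0, 1, 7), (0, 2, 6), (0, 6, 7), (1, 2, 9), (1, 7, 8), (1, 8, 9), (2, 3, 9), (2,
      3, 10), (2, 4, 6), (2, 4, 11), (2, 10, 11), (3, 9, 12), (3, 10, 13), (3, 12, 13), (4, 5, 6),
      (4, 5, 15), (4, 11, 14), (4, 14, 15), (5, 6, 16), (5, 15, 16)]
    fin := [0, 0, 0, 3, 4, 4, 0, 7, 8, 3, 3, 0, 12, 13, 4, 15, 16]
    chd := [(0, 8), (4, 16)]
    steps := [(0, 1), (0, 2), (0, 6), (0, 11), (3, 9), (3, 10), (4, 5), (4, 14)] }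
  rep := [0, 3, 7, 15, 8, 4, 16, 12, 13]

noncomputable def v816 : Cov.CovD where
  P := 3
  N := 6
  pl := [1, 6, 7, 9]
  lev := [⟨[], [], [], [2], [(0, 0, [4])]⟩,
    ⟨[], [(0, 0), (0, 1), (0, 4)], [(1, 4)], [2], [(2, 4, [0]), (3, 1, [])]⟩,
    ⟨[(0, 1)], [(0, 0), (0, 1), (1, 0), (1, 1), (1, 4)], [(0, 0), (0, 1), (1, 1)], [], [(0,
      0, [4]), (3, 1, []), (4, 1, []), (5, 0, [4])]⟩,
    ⟨[(0, 2), (1, 2)], [(1, 1), (2, 0), (2, 1)], [(1, 1)], [7, 8], [(3, 1, []), (4, 1,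
      [])]⟩,
    ⟨[(0, 2), (1, 2), (2, 3)], [(0, 0), (2, 0), (2, 1), (2, 5)], [(0, 0), (0, 5)], [3],
      [(0, 0, [4]), (5, 0, [4]), (8, 5, [6])]⟩,
    ⟨[(2, 4)], [(0, 0), (2, 0), (4, 0), (4, 5), (4, 6)], [(0, 6)], [3], [(0, 0, [4]), (10,
      6, [5])]⟩]
  Ta := [((0, 1), 0, 2), ((0, 10), 0, 6), ((3, 2), 1, 4), ((3, 6), 1, 7), ((4, 5), 1, 0), ((4,
    7), 1, 8), ((5, 4), 0, 1), ((5, 8), 0, 5)]
  Tb := [((0, 1, 10), 0, 2, 6), ((1, 0, 2), 2, 0, 4), ((2, 1, 3), 4, 2, 1), ((3, 2, 6), 1, 4, 7),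
    ((4, 5, 7), 1, 0, 8), ((5, 4, 8), 0, 1, 5), ((6, 3, 7), 7, 1, 8), ((7, 4, 6), 8, 1, 7),
    ((8, 5, 9), 5, 0, 3), ((9, 8, 10), 3, 5, 6), ((10, 0, 9), 6, 0, 3)]
  Tc := []
  Td := [((0, 4), (0, 1), 2), ((0, 4), (0, 10), 6), ((0, 4), (5, 4), 1), ((0, 4), (5, 8), 5),
    ((4, 0), (2, 1), 2), ((4, 0), (2, 3), 1), ((5, 6), (8, 5), 0), ((5, 6), (8, 9), 3), ((6,
    5), (10, 0), 0), ((6, 5), (10, 9), 3)]
  G := [[0, 0, 0xa446ace6ca6acedcac66ace6aced688cc2, 0xa46ace6aced6ca8c14,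
    0xa446ace6ca6acedc12], [0, 0, 0xac66ace6aced688c24, 0xa446ace6ca6acedc18,
    0xa446ace6ca6acedc18], [0, 0, 0, 0x196635e5a1ed388c14, 0x144591e39a31cedc18], [0,
    0x196135e13cee688a14, 0, 0x14431ce69a135edc18, 0xa4431ce51a6a1edc18]]

noncomputable def n816 : Ent := ⟨e816, noF, [], [], [(7, 16, [1580044410770988437309982408355971841652082177953823432505692446721, 0]), (8, 12, [1685382419726887998779855760127267502807434353888247252031586365441, 0])]⟩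

def c816 : PLift (Cov.check n816.C.D v816 = true) := ⟨by decide +kernel⟩

def b816 : PLift (entF (fidx ts) 400 816 n816 = true) := ⟨by decide +kernel⟩

theorem g816 : GoodF (fidx ts) 400 816 := GoodF.ofV v816 n816 c816.down b816.down

/-- 458656:693/2 -/
noncomputable def e817 : SCfg where
  D := {
    a := 6
    L := 9
    kp := 6
    inn := [(0, 1), (0, 2), (1, 0), (1, 2), (2, 0), (2, 1), (2, 3), (2, 4), (3, 2), (3, 4), (3, 5), (4,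
      2), (4, 3), (4, 5), (5, 3), (5, 4)]
    mix := [(0, 0), (0, 1), (1, 1), (1, 2), (1, 3), (2, 0), (2, 3), (2, 4), (2, 5), (3, 2), (3, 3), (3,
      6), (4, 4), (4, 7), (5, 1), (5, 6), (5, 7), (5, 8)]
    cl := [0, 1, 2, 0, 4, 5, 3, 3, 6]
    chq := [(0, 4), (2, 4), (4, 0), (4, 2)]
    rng := [(0, 1), (0, 5), (1, 0), (1, 2), (1, 6), (1, 8), (2, 1), (2, 3), (2, 6), (3, 2), (4, 5), (4,
      7), (5, 0), (5, 4), (6, 1), (6, 2), (7, 4), (7, 8), (8, 1), (8, 7)]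
    lev := [] }
  links := [[1, 2, 6, 7], [2, 0, 7, 8, 9], [6, 0, 1, 9, 3, 4, 10, 11], [4, 2, 9, 8, 12, 5], [10, 2, 3, 5,
    13], [13, 4, 3, 12, 7, 14]]
  P := {
    a := 6
    N := 15
    nb := [198, 901, 3675, 4916, 9260, 28824, 2181, 20835, 4746, 270, 10260, 1092, 424, 17456, 8352]
    tri := [(0, 1, 2), (0, 1, 7), (0, 2, 6), (0, 6, 7), (1, 2, 9), (1, 7, 8), (1, 8, 9), (2, 3, 4), (2,
      3, 9), (2, 4, 10), (2, 6, 11), (2, 10, 11), (3, 4, 5), (3, 5, 12), (3, 8, 9), (3, 8, 12),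
      (4, 5, 13), (4, 10, 13), (5, 7, 12), (5, 7, 14), (5, 13, 14)]
    fin := [0, 0, 0, 3, 3, 5, 0, 7, 3, 0, 10, 11, 5, 5, 14]
    chd := [(0, 10), (3, 10)]
    steps := [(0, 1), (0, 2), (0, 6), (0, 9), (3, 4), (3, 8), (5, 12), (5, 13)] }
  rep := [0, 7, 3, 5, 10, 11, 14]

noncomputable def v817 : Cov.CovD where
  P := 3
  N := 4
  pl := [1, 5, 8]
  lev := [⟨[], [], [], [1], [(0, 0, [4])]⟩,
    ⟨[], [(0, 0), (0, 2)], [(0, 2)], [1], [(2, 2, [4]), (3, 0, [4])]⟩,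
    ⟨[(0, 1)], [(0, 0), (0, 4), (1, 0), (1, 2), (1, 4)], [(0, 0), (0, 4)], [5], [(0, 0,
      [4]), (3, 0, [4]), (4, 4, [0, 2])]⟩,
    ⟨[(0, 2), (1, 2)], [(1, 0), (1, 2), (2, 0), (2, 2), (2, 3), (2, 4)], [(0, 2), (0, 3),
      (2, 3)], [], [(2, 2, [4]), (3, 0, [4]), (6, 3, [])]⟩,
    ⟨[(0, 2), (1, 2), (2, 3)], [(2, 0), (2, 3), (2, 4), (3, 0), (3, 2), (3, 3), (3, 4)],
      [(3, 4)], [], [(4, 4, [0, 2]), (7, 3, [])]⟩,
    ⟨[(2, 3), (2, 4), (3, 4)], [(3, 0), (3, 2), (3, 3), (4, 3), (4, 4)], [(3, 3)], [1, 6],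
      [(6, 3, []), (7, 3, [])]⟩]
  Ta := [((0, 1), 0, 1), ((0, 5), 0, 5), ((3, 2), 0, 2), ((6, 1), 3, 1), ((6, 2), 3, 2), ((7, 4),
    3, 4), ((7, 8), 3, 6)]
  Tb := [((0, 1, 5), 0, 1, 5), ((1, 0, 2), 1, 0, 2), ((1, 0, 6), 1, 0, 3), ((1, 0, 8), 1, 0, 6),
    ((1, 2, 6), 1, 2, 3), ((1, 2, 8), 1, 2, 6), ((1, 6, 8), 1, 3, 6), ((2, 1, 3), 2, 1, 0),
    ((2, 1, 6), 2, 1, 3), ((2, 3, 6), 2, 0, 3), ((4, 5, 7), 4, 5, 3), ((5, 0, 4), 5, 0, 4),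
    ((6, 1, 2), 3, 1, 2), ((7, 4, 8), 3, 4, 6), ((8, 1, 7), 6, 1, 3)]
  Tc := [(4, 0, 2)]
  Td := [((0, 4), (0, 1), 1), ((0, 4), (0, 5), 5), ((0, 4), (3, 2), 2), ((2, 4), (2, 1), 1), ((2,
    4), (2, 3), 0), ((2, 4), (2, 6), 3), ((4, 0), (4, 5), 5), ((4, 0), (4, 7), 3), ((4, 2),
    (4, 5), 5), ((4, 2), (4, 7), 3)]
  G := [[0, 0xe21e21e1689e84, 0, 0xd24d2894d2ce14, 0xd42c1155ad48e18], [0, 0xe14e18e18e48, 0,
    0xd24d28d28e84, 0xcc5b2d286d42898], [0, 0, 0x519169151a9151ce81, 0xd24d2892149ce84,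
    0xd42d158ad48e81], [0, 0, 0xd12d12d12e48, 0xd24d28d28e41, 0xd424944f8d48e81]]

noncomputable def n817 : Ent := ⟨e817, noF, [], [], []⟩

def c817 : PLift (Cov.check n817.C.D v817 = true) := ⟨by decide +kernel⟩

def b817 : PLift (entF (fidx ts) 400 817 n817 = true) := ⟨by decide +kernel⟩

theorem g817 : GoodF (fidx ts) 400 817 := GoodF.ofV v817 n817 c817.down b817.down

/-- 458656:693/1 -/
noncomputable def e818 : SCfg where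
  D := {
    a := 6
    L := 10
    kp := 7
    inn := [(0, 1), (0, 2), (1, 0), (1, 2), (2, 0), (2, 1), (2, 3), (2, 4), (3, 2), (3, 4), (3, 5), (4,
      2), (4, 3), (4, 5), (5, 3), (5, 4)]
    mix := [(0, 0), (0, 1), (1, 1), (1, 2), (1, 3), (2, 0), (2, 3), (2, 4), (2, 5), (3, 3), (3, 6), (3,
      7), (4, 4), (4, 8), (5, 1), (5, 7), (5, 8), (5, 9)]
    cl := [0, 1, 5, 0, 2, 6, 4, 3, 3, 7]
    chq := [(0, 2), (2, 0), (2, 4), (4, 2)]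
    rng := [(0, 1), (0, 5), (1, 0), (1, 2), (1, 7), (1, 9), (2, 1), (2, 3), (3, 2), (3, 6), (4, 5), (4,
      8), (5, 0), (5, 4), (6, 3), (6, 7), (7, 1), (7, 6), (8, 4), (8, 9), (9, 1), (9, 8)]
    lev := [] }
  links := [[1, 2, 6, 7], [2, 0, 7, 8, 9], [6, 0, 1, 9, 3, 4, 10, 11], [4, 2, 9, 12, 13, 5], [10, 2, 3,
    5, 14], [14, 4, 3, 13, 7, 15]]
  P := {
    a := 6
    N := 16
    nb := [198, 901, 3675, 12852, 17452, 57496, 2181, 41315, 642, 4366, 18452, 1092, 8712, 4264,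
      33840, 16544]
    tri := [(0, 1, 2), (0, 1, 7), (0, 2, 6), (0, 6, 7), (1, 2, 9), (1, 7, 8), (1, 8, 9), (2, 3, 4), (2,
      3, 9), (2, 4, 10), (2, 6, 11), (2, 10, 11), (3, 4, 5), (3, 5, 13), (3, 9, 12), (3, 12, 13),
      (4, 5, 14), (4, 10, 14), (5, 7, 13), (5, 7, 15), (5, 14, 15)]
    fin := [0, 0, 0, 3, 3, 5, 0, 7, 8, 0, 10, 11, 3, 5, 5, 15]
    chd := [(0, 10), (10, 3)]
    steps := [(0, 1), (0, 2), (0, 6), (0, 9), (3, 4), (3, 12), (5, 13), (5, 14)] }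
  rep := [0, 7, 10, 5, 3, 8, 11, 15]

noncomputable def v818 : Cov.CovD where
  P := 3
  N := 5
  pl := [1, 2, 5, 9]
  lev := [⟨[], [], [], [1], [(0, 0, [2])]⟩,
    ⟨[], [(0, 0)], [], [1, 5], [(3, 0, [2])]⟩,
    ⟨[(0, 1)], [(0, 0), (0, 2), (1, 0), (1, 2)], [(0, 0), (0, 2)], [6], [(0, 0, [2]), (3,
      0, [2]), (4, 2, [0, 4])]⟩,
    ⟨[(0, 2), (1, 2)], [(1, 0), (2, 0), (2, 2), (2, 3), (2, 4)], [(0, 3), (0, 4), (3, 4)],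
      [], [(3, 0, [2]), (6, 4, [2]), (7, 3, [])]⟩,
    ⟨[(0, 2), (1, 2), (2, 3)], [(2, 0), (2, 2), (2, 3), (3, 0), (3, 2), (3, 3), (3, 4)],
      [(2, 3)], [], [(4, 2, [0, 4]), (8, 3, [])]⟩,
    ⟨[(2, 3), (2, 4), (3, 4)], [(3, 0), (3, 3), (3, 4), (4, 2), (4, 3)], [(3, 3)], [1, 7],
      [(7, 3, []), (8, 3, [])]⟩]
  Ta := [((0, 1), 0, 1), ((0, 5), 0, 6), ((3, 2), 0, 5), ((3, 6), 0, 4), ((7, 1), 3, 1), ((7, 6),
    3, 4), ((8, 4), 3, 2), ((8, 9), 3, 7)]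
  Tb := [((0, 1, 5), 0, 1, 6), ((1, 0, 2), 1, 0, 5), ((1, 0, 7), 1, 0, 3), ((1, 0, 9), 1, 0, 7),
    ((1, 2, 7), 1, 5, 3), ((1, 2, 9), 1, 5, 7), ((1, 7, 9), 1, 3, 7), ((2, 1, 3), 5, 1, 0),
    ((3, 2, 6), 0, 5, 4), ((4, 5, 8), 2, 6, 3), ((5, 0, 4), 6, 0, 2), ((6, 3, 7), 4, 0, 3),
    ((7, 1, 6), 3, 1, 4), ((8, 4, 9), 3, 2, 7), ((9, 1, 8), 7, 1, 3)]
  Tc := [(2, 0, 4)]
  Td := [((0, 2), (0, 1), 1), ((0, 2), (0, 5), 6), ((0, 2), (3, 2), 5), ((0, 2), (3, 6), 4), ((2,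
    0), (4, 5), 6), ((2, 0), (4, 8), 3), ((2, 4), (4, 5), 6), ((2, 4), (4, 8), 3), ((4, 2),
    (6, 3), 0), ((4, 2), (6, 7), 3)]
  G := [[0, 0xe41e81ce41e81ca4, 0x52d2618ad2a94145ce18, 0xd42d82c18, 0xd14412d84e18], [0,
    0x2182421e1661e8ace12e12caa, 0xd24d221c38e18, 0xc952c592c18, 0xd242642d2ca14], [0, 0,
    0x146d469218d2e9448ce18, 0xd12d12cd42d82cc1, 0xd24422d84ed1416d1486ac1], [0, 0,
    0x9245285492ce14, 0xc952c592cc952c592cc1, 0xd242642d2cad242642c19cac1]]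

noncomputable def n818 : Ent := ⟨e818, noF, [], [], [(8, 12, [385753029973011613167317188540585705112827479461471962593955841, 0])]⟩

def c818 : PLift (Cov.check n818.C.D v818 = true) := ⟨by decide +kernel⟩

def b818 : PLift (entF (fidx ts) 400 818 n818 = true) := ⟨by decide +kernel⟩

theorem g818 : GoodF (fidx ts) 400 818 := GoodF.ofV v818 n818 c818.down b818.down

/-- 458656:693/3 -/
noncomputable def e819 : SCfg where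
  D := {
    a := 6
    L := 10
    kp := 7
    inn := [(0, 1), (0, 2), (1, 0), (1, 2), (2, 0), (2, 1), (2, 3), (2, 4), (3, 2), (3, 4), (3, 5), (4,
      2), (4, 3), (4, 5), (5, 3), (5, 4)]
    mix := [(0, 0), (0, 1), (1, 1), (1, 2), (1, 3), (2, 0), (2, 3), (2, 4), (2, 5), (3, 3), (3, 6), (3,
      7), (4, 4), (4, 8), (5, 1), (5, 7), (5, 8), (5, 9)]
    cl := [0, 1, 5, 0, 2, 6, 4, 3, 3, 7]
    chq := [(0, 2), (2, 0), (2, 4), (4, 2)]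
    rng := [(0, 1), (0, 5), (1, 0), (1, 2), (1, 8), (1, 9), (2, 1), (2, 3), (3, 2), (3, 6), (4, 5), (4,
      8), (5, 0), (5, 4), (6, 3), (6, 7), (7, 6), (7, 9), (8, 1), (8, 4), (9, 1), (9, 7)]
    lev := [] }
  links := [[1, 2, 6, 7], [2, 0, 7, 8, 9], [6, 0, 1, 9, 3, 4, 10, 11], [4, 2, 9, 12, 13, 5], [10, 2, 3,
    5, 14], [14, 4, 3, 13, 15, 7]]
  P := {
    a := 6
    N := 16
    nb := [198, 901, 3675, 12852, 17452, 57496, 2181, 49507, 642, 4366, 18452, 1092, 8712, 36904,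
      1200, 8352]
    tri := [(0, 1, 2), (0, 1, 7), (0, 2, 6), (0, 6, 7), (1, 2, 9), (1, 7, 8), (1, 8, 9), (2, 3, 4), (2,
      3, 9), (2, 4, 10), (2, 6, 11), (2, 10, 11), (3, 4, 5), (3, 5, 13), (3, 9, 12), (3, 12, 13),
      (4, 5, 14), (4, 10, 14), (5, 7, 14), (5, 7, 15), (5, 13, 15)]
    fin := [0, 0, 0, 3, 3, 5, 0, 7, 8, 0, 10, 11, 3, 5, 5, 15]
    chd := [(0, 10), (10, 3)]
    steps := [(0, 1), (0, 2), (0, 6), (0, 9), (3, 4), (3, 12), (5, 13), (5, 14)] }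
  rep := [0, 7, 10, 5, 3, 8, 11, 15]

noncomputable def v819 : Cov.CovD where
  P := 3
  N := 5
  pl := [1, 2, 5, 9]
  lev := [⟨[], [], [], [1], [(0, 0, [2])]⟩,
    ⟨[], [(0, 0)], [], [1, 5], [(3, 0, [2])]⟩,
    ⟨[(0, 1)], [(0, 0), (0, 2), (1, 0), (1, 2)], [(0, 0), (0, 2)], [6], [(0, 0, [2]), (3,
      0, [2]), (4, 2, [0, 4])]⟩,
    ⟨[(0, 2), (1, 2)], [(1, 0), (2, 0), (2, 2), (2, 3), (2, 4)], [(0, 3), (0, 4), (3, 4)],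
      [], [(3, 0, [2]), (6, 4, [2]), (7, 3, [])]⟩,
    ⟨[(0, 2), (1, 2), (2, 3)], [(2, 0), (2, 2), (2, 3), (3, 0), (3, 2), (3, 3), (3, 4)],
      [(2, 3)], [], [(4, 2, [0, 4]), (8, 3, [])]⟩,
    ⟨[(2, 3), (2, 4), (3, 4)], [(3, 0), (3, 3), (3, 4), (4, 2), (4, 3)], [(3, 3)], [1, 7],
      [(7, 3, []), (8, 3, [])]⟩]
  Ta := [((0, 1), 0, 1), ((0, 5), 0, 6), ((3, 2), 0, 5), ((3, 6), 0, 4), ((7, 6), 3, 4), ((7, 9),
    3, 7), ((8, 1), 3, 1), ((8, 4), 3, 2)]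
  Tb := [((0, 1, 5), 0, 1, 6), ((1, 0, 2), 1, 0, 5), ((1, 0, 8), 1, 0, 3), ((1, 0, 9), 1, 0, 7),
    ((1, 2, 8), 1, 5, 3), ((1, 2, 9), 1, 5, 7), ((1, 8, 9), 1, 3, 7), ((2, 1, 3), 5, 1, 0),
    ((3, 2, 6), 0, 5, 4), ((4, 5, 8), 2, 6, 3), ((5, 0, 4), 6, 0, 2), ((6, 3, 7), 4, 0, 3),
    ((7, 6, 9), 3, 4, 7), ((8, 1, 4), 3, 1, 2), ((9, 1, 7), 7, 1, 3)]
  Tc := [(2, 0, 4)]
  Td := [((0, 2), (0, 1), 1), ((0, 2), (0, 5), 6), ((0, 2), (3, 2), 5), ((0, 2), (3, 6), 4), ((2,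
    0), (4, 5), 6), ((2, 0), (4, 8), 3), ((2, 4), (4, 5), 6), ((2, 4), (4, 8), 3), ((4, 2),
    (6, 3), 0), ((4, 2), (6, 7), 3)]
  G := [[0, 0xe41e81ce41e81ca4, 0x52d4618ad8a94149ce18, 0xd42d12c14, 0xd14422d84e18], [0,
    0xa1443e12218ee12214ae124e4, 0x1c3495a21c38e14, 0xc952c592c14, 0xd2453652d8ca18], [0, 0,
    0x143d4618a894149d4ee18, 0xd12d12c4d12d12c89, 0xd14412d24ed1426d1416ac1], [0, 0,
    0xd2546d2189ac14, 0xc952c592cc952c592cc1, 0x52d8c2c9342652d8cacc9342688c]]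

noncomputable def n819 : Ent := ⟨e819, noF, [], [], []⟩

def c819 : PLift (Cov.check n819.C.D v819 = true) := ⟨by decide +kernel⟩

def b819 : PLift (entF (fidx ts) 400 819 n819 = true) := ⟨by decide +kernel⟩

theorem g819 : GoodF (fidx ts) 400 819 := GoodF.ofV v819 n819 c819.down b819.down

/-- 458656:693/4 -/
noncomputable def e820 : SCfg where
  D := {
    a := 6
    L := 10
    kp := 7
    inn := [(0, 1), (0, 2), (1, 0), (1, 2), (2, 0), (2, 1), (2, 3), (2, 4), (3, 2), (3, 4), (3, 5), (4,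
      2), (4, 3), (4, 5), (5, 3), (5, 4)]
    mix := [(0, 0), (0, 1), (1, 1), (1, 2), (1, 3), (2, 0), (2, 3), (2, 4), (2, 5), (3, 2), (3, 3), (3,
      6), (4, 4), (4, 7), (5, 6), (5, 7), (5, 8), (5, 9)]
    cl := [0, 2, 1, 0, 4, 5, 3, 3, 6, 7]
    chq := [(0, 4), (1, 4), (4, 0), (4, 1)]
    rng := [(0, 1), (0, 5), (1, 0), (1, 2), (2, 1), (2, 3), (2, 6), (3, 2), (4, 5), (4, 7), (5, 0), (5,
      4), (6, 2), (6, 8), (7, 4), (7, 9), (8, 6), (8, 9), (9, 7), (9, 8)]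
    lev := [] }
  links := [[1, 2, 6, 7], [2, 0, 7, 8, 9], [6, 0, 1, 9, 3, 4, 10, 11], [4, 2, 9, 8, 12, 5], [10, 2, 3, 5,
    13], [13, 4, 3, 12, 14, 15]]
  P := {
    a := 6
    N := 16
    nb := [198, 901, 3675, 4916, 9260, 61464, 2181, 323, 4746, 270, 10260, 1092, 16680, 33840, 36896,
      24608]
    tri := [(0, 1, 2), (0, 1, 7), (0, 2, 6), (0, 6, 7), (1, 2, 9), (1, 7, 8), (1, 8, 9), (2, 3, 4), (2,
      3, 9), (2, 4, 10), (2, 6, 11), (2, 10, 11), (3, 4, 5), (3, 5, 12), (3, 8, 9), (3, 8, 12),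
      (4, 5, 13), (4, 10, 13), (5, 12, 14), (5, 13, 15), (5, 14, 15)]
    fin := [0, 0, 0, 3, 3, 5, 0, 7, 3, 0, 10, 11, 5, 5, 14, 15]
    chd := [(0, 10), (3, 10)]
    steps := [(0, 1), (0, 2), (0, 6), (0, 9), (3, 4), (3, 8), (5, 12), (5, 13)] }
  rep := [0, 3, 7, 5, 10, 11, 14, 15]

noncomputable def v820 : Cov.CovD where
  P := 3
  N := 5
  pl := [1, 5, 8, 9]
  lev := [⟨[], [], [], [2], [(0, 0, [4])]⟩,
    ⟨[], [(0, 0), (0, 1)], [(0, 1)], [2], [(2, 1, [4]), (3, 0, [4])]⟩,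
    ⟨[(0, 1)], [(0, 0), (0, 4), (1, 0), (1, 1), (1, 4)], [(0, 0), (0, 4)], [5], [(0, 0,
      [4]), (3, 0, [4]), (4, 4, [0, 1])]⟩,
    ⟨[(0, 2), (1, 2)], [(1, 0), (1, 1), (2, 0), (2, 1), (2, 3), (2, 4)], [(0, 1), (0, 3),
      (1, 3)], [], [(2, 1, [4]), (3, 0, [4]), (6, 3, [])]⟩,
    ⟨[(0, 2), (1, 2), (2, 3)], [(2, 0), (2, 3), (2, 4), (3, 0), (3, 1), (3, 3), (3, 4)],
      [(3, 4)], [], [(4, 4, [0, 1]), (7, 3, [])]⟩,
    ⟨[(2, 3), (2, 4), (3, 4)], [(3, 0), (3, 1), (3, 3), (4, 3), (4, 4)], [(3, 3)], [6, 7],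
      [(6, 3, []), (7, 3, [])]⟩]
  Ta := [((0, 1), 0, 2), ((0, 5), 0, 5), ((3, 2), 0, 1), ((6, 2), 3, 1), ((6, 8), 3, 6), ((7, 4),
    3, 4), ((7, 9), 3, 7)]
  Tb := [((0, 1, 5), 0, 2, 5), ((1, 0, 2), 2, 0, 1), ((2, 1, 3), 1, 2, 0), ((2, 1, 6), 1, 2, 3),
    ((2, 3, 6), 1, 0, 3), ((4, 5, 7), 4, 5, 3), ((5, 0, 4), 5, 0, 4), ((6, 2, 8), 3, 1, 6),
    ((7, 4, 9), 3, 4, 7), ((8, 6, 9), 6, 3, 7), ((9, 7, 8), 7, 3, 6)]
  Tc := [(4, 0, 1)]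
  Td := [((0, 4), (0, 1), 2), ((0, 4), (0, 5), 5), ((0, 4), (3, 2), 1), ((1, 4), (2, 1), 2), ((1,
    4), (2, 3), 0), ((1, 4), (2, 6), 3), ((4, 0), (4, 5), 5), ((4, 0), (4, 7), 3), ((4, 1),
    (4, 5), 5), ((4, 1), (4, 7), 3)]
  G := [[0, 0, 0xf14f18b171ce84, 0x5a34f28b4969ce14, 0xf241f98b41f3ce18], [0, 0,
    0xf24f2822c3f4e84, 0xf24f2822d2f4e84, 0xf24f2822c3f8e18], [0, 0xd2f16d171af178ce84, 0,
    0xf24f28b41e3ce81, 0xf281f978c68f2488a], [0, 0xf14f12f18e81, 0, 0xf24f2822d2f4e81,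
    0xf24f2822c3f4e81]]

noncomputable def n820 : Ent := ⟨e820, noF, [], [], [(7, 14, [385746751338780685620664494392815470296102193487288376375840769, 0])]⟩

def c820 : PLift (Cov.check n820.C.D v820 = true) := ⟨by decide +kernel⟩

def b820 : PLift (entF (fidx ts) 400 820 n820 = true) := ⟨by decide +kernel⟩

theorem g820 : GoodF (fidx ts) 400 820 := GoodF.ofV v820 n820 c820.down b820.down

/-- 458656:693 -/
noncomputable def e821 : SCfg where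
  D := {
    a := 6
    L := 11
    kp := 8
    inn := [(0, 1), (0, 2), (1, 0), (1, 2), (2, 0), (2, 1), (2, 3), (2, 4), (3, 2), (3, 4), (3, 5), (4,
      2), (4, 3), (4, 5), (5, 3), (5, 4)]
    mix := [(0, 0), (0, 1), (1, 1), (1, 2), (1, 3), (2, 0), (2, 3), (2, 4), (2, 5), (3, 3), (3, 6), (3,
      7), (4, 4), (4, 8), (5, 7), (5, 8), (5, 9), (5, 10)]
    cl := [0, 1, 5, 0, 4, 6, 2, 3, 3, 7, 8]
    chq := [(0, 4), (2, 4), (4, 0), (4, 2)]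
    rng := [(0, 1), (0, 5), (1, 0), (1, 2), (2, 1), (2, 3), (3, 2), (3, 6), (4, 5), (4, 8), (5, 0), (5,
      4), (6, 3), (6, 7), (7, 6), (7, 9), (8, 4), (8, 10), (9, 7), (9, 10), (10, 8), (10, 9)]
    lev := [] }
  links := [[1, 2, 6, 7], [2, 0, 7, 8, 9], [6, 0, 1, 9, 3, 4, 10, 11], [4, 2, 9, 12, 13, 5], [10, 2, 3,
    5, 14], [14, 4, 3, 13, 15, 16]]
  P := {
    a := 6
    N := 17
    nb := [198, 901, 3675, 12852, 17452, 122904, 2181, 323, 642, 4366, 18452, 1092, 8712, 36904,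
      66608, 73760, 49184]
    tri := [(0, 1, 2), (0, 1, 7), (0, 2, 6), (0, 6, 7), (1, 2, 9), (1, 7, 8), (1, 8, 9), (2, 3, 4), (2,
      3, 9), (2, 4, 10), (2, 6, 11), (2, 10, 11), (3, 4, 5), (3, 5, 13), (3, 9, 12), (3, 12, 13),
      (4, 5, 14), (4, 10, 14), (5, 13, 15), (5, 14, 16), (5, 15, 16)]
    fin := [0, 0, 0, 3, 3, 5, 0, 7, 8, 0, 10, 11, 3, 5, 5, 15, 16]
    chd := [(0, 10), (10, 3)]
    steps := [(0, 1), (0, 2), (0, 6), (0, 9), (3, 4), (3, 12), (5, 13), (5, 14)] }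
  rep := [0, 7, 3, 5, 10, 8, 11, 15, 16]

noncomputable def v821 : Cov.CovD where
  P := 3
  N := 6
  pl := [1, 2, 5, 9, 10]
  lev := [⟨[], [], [], [1], [(0, 0, [4])]⟩,
    ⟨[], [(0, 0)], [], [1, 5], [(3, 0, [4])]⟩,
    ⟨[(0, 1)], [(0, 0), (0, 4), (1, 0), (1, 4)], [(0, 0), (0, 4)], [6], [(0, 0, [4]), (3,
      0, [4]), (4, 4, [0, 2])]⟩,
    ⟨[(0, 2), (1, 2)], [(1, 0), (2, 0), (2, 2), (2, 3), (2, 4)], [(0, 2), (0, 3), (2, 3)],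
      [], [(3, 0, [4]), (6, 2, [4]), (7, 3, [])]⟩,
    ⟨[(0, 2), (1, 2), (2, 3)], [(2, 0), (2, 3), (2, 4), (3, 0), (3, 2), (3, 3), (3, 4)],
      [(3, 4)], [], [(4, 4, [0, 2]), (8, 3, [])]⟩,
    ⟨[(2, 3), (2, 4), (3, 4)], [(3, 0), (3, 2), (3, 3), (4, 3), (4, 4)], [(3, 3)], [7, 8],
      [(7, 3, []), (8, 3, [])]⟩]
  Ta := [((0, 1), 0, 1), ((0, 5), 0, 6), ((3, 2), 0, 5), ((3, 6), 0, 2), ((7, 6), 3, 2), ((7, 9),
    3, 7), ((8, 4), 3, 4), ((8, 10), 3, 8)]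
  Tb := [((0, 1, 5), 0, 1, 6), ((1, 0, 2), 1, 0, 5), ((2, 1, 3), 5, 1, 0), ((3, 2, 6), 0, 5, 2),
    ((4, 5, 8), 4, 6, 3), ((5, 0, 4), 6, 0, 4), ((6, 3, 7), 2, 0, 3), ((7, 6, 9), 3, 2, 7),
    ((8, 4, 10), 3, 4, 8), ((9, 7, 10), 7, 3, 8), ((10, 8, 9), 8, 3, 7)]
  Tc := [(4, 0, 2)]
  Td := [((0, 4), (0, 1), 1), ((0, 4), (0, 5), 6), ((0, 4), (3, 2), 5), ((0, 4), (3, 6), 2), ((2,
    4), (6, 3), 0), ((2, 4), (6, 7), 3), ((4, 0), (4, 5), 6), ((4, 0), (4, 8), 3), ((4, 2),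
    (4, 5), 6), ((4, 2), (4, 8), 3)]
  G := [[0, 0xf18b171c6f14f178caf14f28ce4, 0, 0x1f54f281e578ce18, 0x1e52d21f3af48e18], [0,
    0xf2822d2f86f24e13822c3f4ef248e8, 0, 0xf24f2822c3f8e18, 0xf424a45f2f48e18], [0, 0,
    0xd2f16d171ab4f1ce4d1b16d171af178ce8c, 0xf24f281b3175ce1e34f281e578cec1,
    0xf42d21f3a1f98e14681b45e1e378a4fc3841eec1], [0, 0, 0xf12f12f14ef14f18f14ec1,
    0xf24f2822c3f4ef24f2822d2f8ec1, 0xf424a45f8f48e4b4d2e2ef9a4f4e8ec1]]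

noncomputable def n821 : Ent := ⟨e821, noF, [], [], [(7, 15, [1685356702439545624007900436039642273970977273354372543760003440641, 0]), (7, 16, [1580044410770988437309982408355971841652082177953823432505692467201, 0]), (8, 12, [1685382419726887998779855760127267502807434353888247252031586385921, 0])]⟩

def c821 : PLift (Cov.check n821.C.D v821 = true) := ⟨by decide +kernel⟩

def b821 : PLift (entF (fidx ts) 400 821 n821 = true) := ⟨by decide +kernel⟩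

theorem g821 : GoodF (fidx ts) 400 821 := GoodF.ofV v821 n821 c821.down b821.down

/-- 458654:694/2 -/
noncomputable def e822 : SCfg where
  D := {
    a := 6
    L := 9
    kp := 6
    inn := [(0, 1), (0, 2), (1, 0), (1, 2), (2, 0), (2, 1), (2, 3), (2, 4), (3, 2), (3, 5), (4, 2), (5,
      3)]
    mix := [(0, 0), (0, 1), (1, 1), (1, 2), (1, 3), (2, 0), (2, 3), (2, 4), (2, 5), (3, 2), (3, 3), (3,
      4), (3, 6), (4, 4), (4, 5), (4, 7), (4, 8), (5, 4), (5, 6), (5, 7)]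
    cl := [2, 4, 1, 0, 0, 0, 5, 3, 6]
    chq := [(1, 2), (1, 3), (2, 1), (3, 1)]
    rng := [(0, 1), (0, 5), (1, 0), (1, 2), (2, 1), (2, 3), (2, 6), (3, 2), (4, 7), (5, 0), (5, 8), (6,
      2), (6, 7), (7, 4), (7, 6), (7, 8), (8, 5), (8, 7)]
    lev := [] }
  links := [[1, 2, 6, 7], [2, 0, 7, 8, 9], [6, 0, 1, 9, 3, 10, 4, 11], [10, 2, 9, 8, 12, 5], [11, 2, 10,
    13, 14], [10, 3, 12, 13]]
  P := {
    a := 6
    N := 15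
    nb := [198, 901, 3675, 5924, 27652, 13320, 2181, 323, 4746, 270, 8252, 16468, 8488, 21552, 10256]
    tri := [(0, 1, 2), (0, 1, 7), (0, 2, 6), (0, 6, 7), (1, 2, 9), (1, 7, 8), (1, 8, 9), (2, 3, 9), (2,
      3, 10), (2, 4, 10), (2, 4, 11), (2, 6, 11), (3, 5, 10), (3, 5, 12), (3, 8, 9), (3, 8, 12),
      (4, 10, 13), (4, 11, 14), (4, 13, 14), (5, 10, 13), (5, 12, 13)]
    fin := [0, 0, 2, 3, 2, 3, 0, 7, 3, 2, 2, 2, 12, 13, 14]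
    chd := [(0, 3), (3, 13)]
    steps := [(0, 1), (0, 6), (2, 4), (2, 9), (2, 10), (2, 11), (3, 5), (3, 8)] }
  rep := [2, 3, 0, 13, 7, 12, 14]

noncomputable def v822 : Cov.CovD where
  P := 3
  N := 4
  pl := [1, 6, 8]
  lev := [⟨[], [], [], [4], [(0, 2, [1])]⟩,
    ⟨[], [(0, 0), (0, 1), (0, 2)], [(0, 1)], [4], [(2, 1, [2, 3]), (3, 0, [])]⟩,
    ⟨[(0, 1)], [(0, 0), (0, 2), (1, 0), (1, 1), (1, 2)], [(0, 0), (0, 2)], [], [(0, 2,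
      [1]), (3, 0, []), (4, 0, []), (5, 0, [])]⟩,
    ⟨[(0, 2), (1, 2)], [(1, 0), (1, 1), (2, 0), (2, 1), (2, 2)], [(0, 0), (0, 1)], [5],
      [(2, 1, [2, 3]), (3, 0, []), (4, 0, [])]⟩,
    ⟨[(0, 2), (1, 2), (2, 3)], [(2, 0), (2, 2), (2, 3), (3, 0)], [(0, 0), (0, 3)], [6],
      [(4, 0, []), (5, 0, []), (7, 3, [1])]⟩,
    ⟨[(2, 3)], [(2, 0), (3, 0), (3, 1), (3, 3), (4, 0), (4, 3)], [(0, 3)], [5], [(4, 0,
      []), (7, 3, [1])]⟩]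
  Ta := [((3, 2), 0, 1), ((4, 7), 0, 3), ((5, 0), 0, 2), ((5, 8), 0, 6)]
  Tb := [((0, 1, 5), 2, 4, 0), ((1, 0, 2), 4, 2, 1), ((2, 1, 3), 1, 4, 0), ((2, 1, 6), 1, 4, 5),
    ((2, 3, 6), 1, 0, 5), ((5, 0, 8), 0, 2, 6), ((6, 2, 7), 5, 1, 3), ((7, 4, 6), 3, 0, 5),
    ((7, 4, 8), 3, 0, 6), ((7, 6, 8), 3, 5, 6), ((8, 5, 7), 6, 0, 3)]
  Tc := [(1, 2, 3)]
  Td := [((1, 2), (2, 1), 4), ((1, 2), (2, 3), 0), ((1, 2), (2, 6), 5), ((1, 3), (2, 1), 4), ((1,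
    3), (2, 3), 0), ((1, 3), (2, 6), 5), ((2, 1), (0, 1), 4), ((2, 1), (0, 5), 0), ((3, 1),
    (7, 4), 0), ((3, 1), (7, 6), 5), ((3, 1), (7, 8), 6)]
  G := [[0, 0x111e848111e48111e2869, 0, 0x22688a4111e28c222e4823, 0x812e241ec28216142ec288a4a],
    [0, 0, 0, 0x226242e88e8226242e88e852, 0x822e24eec2886ae226ec249], [0, 0,
    0x222e222ec2124ee4812e8c1a, 0x22951ea4822951e684c, 0x812e241ec28226a41ec288a4a]]

noncomputable def n822 : Ent := ⟨e822, noF, [], [], []⟩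

def c822 : PLift (Cov.check n822.C.D v822 = true) := ⟨by decide +kernel⟩

def b822 : PLift (entF (fidx ts) 400 822 n822 = true) := ⟨by decide +kernel⟩

theorem g822 : GoodF (fidx ts) 400 822 := GoodF.ofV v822 n822 c822.down b822.down

/-- 458654:694/1 -/
noncomputable def e823 : SCfg where
  D := {
    a := 6
    L := 10
    kp := 7
    inn := [(0, 1), (0, 2), (1, 0), (1, 2), (2, 0), (2, 1), (2, 3), (2, 4), (3, 2), (3, 5), (4, 2), (5,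
      3)]
    mix := [(0, 0), (0, 1), (1, 1), (1, 2), (1, 3), (2, 0), (2, 3), (2, 4), (2, 5), (3, 2), (3, 3), (3,
      4), (3, 6), (4, 4), (4, 5), (4, 7), (4, 8), (5, 4), (5, 6), (5, 9)]
    cl := [1, 2, 3, 0, 0, 0, 4, 6, 7, 5]
    chq := [(1, 3), (3, 1), (3, 5), (5, 3)]
    rng := [(0, 1), (0, 5), (1, 0), (1, 2), (2, 1), (2, 3), (2, 6), (3, 2), (4, 7), (4, 9), (5, 0), (5,
      8), (6, 2), (6, 9), (7, 4), (7, 8), (8, 5), (8, 7), (9, 4), (9, 6)]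
    lev := [] }
  links := [[1, 2, 6, 7], [2, 0, 7, 8, 9], [6, 0, 1, 9, 3, 10, 4, 11], [10, 2, 9, 8, 12, 5], [11, 2, 10,
    13, 14], [10, 3, 12, 15]]
  P := {
    a := 6
    N := 16
    nb := [198, 901, 3675, 5924, 27652, 37896, 2181, 323, 4746, 270, 41020, 16468, 33064, 17424,
      10256, 5152]
    tri := [(0, 1, 2), (0, 1, 7), (0, 2, 6), (0, 6, 7), (1, 2, 9), (1, 7, 8), (1, 8, 9), (2, 3, 9), (2,
      3, 10), (2, 4, 10), (2, 4, 11), (2, 6, 11), (3, 5, 10), (3, 5, 12), (3, 8, 9), (3, 8, 12),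
      (4, 10, 13), (4, 11, 14), (4, 13, 14), (5, 10, 15), (5, 12, 15)]
    fin := [0, 0, 2, 3, 2, 3, 0, 7, 3, 2, 2, 2, 12, 13, 14, 15]
    chd := [(0, 3), (3, 15)]
    steps := [(0, 1), (0, 6), (2, 4), (2, 9), (2, 10), (2, 11), (3, 5), (3, 8)] }
  rep := [2, 0, 7, 3, 12, 15, 13, 14]

noncomputable def v823 : Cov.CovD where
  P := 3
  N := 5
  pl := [1, 6, 7, 8]
  lev := [⟨[], [], [], [2], [(0, 1, [3])]⟩,
    ⟨[], [(0, 0), (0, 1), (0, 3)], [(0, 3)], [2], [(2, 3, [1, 5]), (3, 0, [])]⟩,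
    ⟨[(0, 1)], [(0, 0), (0, 1), (1, 0), (1, 1), (1, 3)], [(0, 0), (0, 1)], [], [(0, 1,
      [3]), (3, 0, []), (4, 0, []), (5, 0, [])]⟩,
    ⟨[(0, 2), (1, 2)], [(1, 0), (1, 3), (2, 0), (2, 1), (2, 3)], [(0, 0), (0, 3)], [4],
      [(2, 3, [1, 5]), (3, 0, []), (4, 0, [])]⟩,
    ⟨[(0, 2), (1, 2), (2, 3)], [(2, 0), (2, 1), (3, 0)], [(0, 0)], [6, 7], [(4, 0, []), (5,
      0, [])]⟩,
    ⟨[(2, 3)], [(2, 0), (3, 0), (3, 3), (3, 5), (4, 0)], [(0, 5)], [4], [(4, 0, []), (9, 5,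
      [3])]⟩]
  Ta := [((3, 2), 0, 3), ((4, 7), 0, 6), ((4, 9), 0, 5), ((5, 0), 0, 1), ((5, 8), 0, 7)]
  Tb := [((0, 1, 5), 1, 2, 0), ((1, 0, 2), 2, 1, 3), ((2, 1, 3), 3, 2, 0), ((2, 1, 6), 3, 2, 4),
    ((2, 3, 6), 3, 0, 4), ((4, 7, 9), 0, 6, 5), ((5, 0, 8), 0, 1, 7), ((6, 2, 9), 4, 3, 5),
    ((7, 4, 8), 6, 0, 7), ((8, 5, 7), 7, 0, 6), ((9, 4, 6), 5, 0, 4)]
  Tc := [(3, 1, 5)]
  Td := [((1, 3), (0, 1), 2), ((1, 3), (0, 5), 0), ((3, 1), (2, 1), 2), ((3, 1), (2, 3), 0), ((3,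
    1), (2, 6), 4), ((3, 5), (2, 1), 2), ((3, 5), (2, 3), 0), ((3, 5), (2, 6), 4), ((5, 3),
    (9, 4), 0), ((5, 3), (9, 6), 4)]
  G := [[0, 0, 0x14139e951ee36a8c24, 0x111e444ea4118e881e68c1, 0x1441d3e31acc9eec21], [0, 0,
    0x666aaaecccee688c24, 0x8864444e88eeeeec18, 0xa44666eaaaccceec18], [0,
    0x3562591e9aae18ea18, 0x144636e91a199eec28, 0x8164144e18c19eec18, 0x1864444e88191eec18]]

noncomputable def n823 : Ent := ⟨e823, noF, [], [], [(15, 13, [360048296834107614573520772494203283988579150297652619080065025, 0])]⟩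

def c823 : PLift (Cov.check n823.C.D v823 = true) := ⟨by decide +kernel⟩

def b823 : PLift (entF (fidx ts) 400 823 n823 = true) := ⟨by decide +kernel⟩

theorem g823 : GoodF (fidx ts) 400 823 := GoodF.ofV v823 n823 c823.down b823.down

/-- 458654:694/3 -/
noncomputable def e824 : SCfg where
  D := {
    a := 6
    L := 10
    kp := 7
    inn := [(0, 1), (0, 2), (1, 0), (1, 2), (2, 0), (2, 1), (2, 3), (2, 4), (3, 2), (3, 5), (4, 2), (5,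
      3)]
    mix := [(0, 0), (0, 1), (1, 1), (1, 2), (1, 3), (2, 0), (2, 3), (2, 4), (2, 5), (3, 3), (3, 4), (3,
      6), (3, 7), (4, 4), (4, 5), (4, 8), (4, 9), (5, 4), (5, 7), (5, 8)]
    cl := [1, 2, 5, 0, 0, 0, 6, 3, 4, 7]
    chq := [(0, 3), (1, 5), (3, 0), (5, 1)]
    rng := [(0, 1), (0, 5), (1, 0), (1, 2), (2, 1), (2, 3), (3, 2), (3, 6), (4, 8), (5, 0), (5, 9), (6,
      3), (6, 7), (7, 6), (7, 8), (8, 4), (8, 7), (8, 9), (9, 5), (9, 8)]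
    lev := [] }
  links := [[1, 2, 6, 7], [2, 0, 7, 8, 9], [6, 0, 1, 9, 3, 10, 4, 11], [10, 2, 9, 12, 13, 5], [11, 2, 10,
    14, 15], [10, 3, 13, 14]]
  P := {
    a := 6
    N := 16
    nb := [198, 901, 3675, 13860, 52228, 25608, 2181, 323, 642, 4366, 16444, 32852, 8712, 20520,
      42032, 18448]
    tri := [(0, 1, 2), (0, 1, 7), (0, 2, 6), (0, 6, 7), (1, 2, 9), (1, 7, 8), (1, 8, 9), (2, 3, 9), (2,
      3, 10), (2, 4, 10), (2, 4, 11), (2, 6, 11), (3, 5, 10), (3, 5, 13), (3, 9, 12), (3, 12, 13),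
      (4, 10, 14), (4, 11, 15), (4, 14, 15), (5, 10, 14), (5, 13, 14)]
    fin := [0, 0, 0, 3, 3, 3, 0, 7, 8, 3, 3, 3, 12, 13, 14, 15]
    chd := [(0, 8), (3, 13)]
    steps := [(0, 1), (0, 2), (0, 6), (3, 5), (3, 9), (3, 10), (3, 4), (3, 11)] }
  rep := [3, 0, 7, 13, 14, 8, 12, 15]

noncomputable def v824 : Cov.CovD where
  P := 3
  N := 5
  pl := [1, 6, 8, 9]
  lev := [⟨[], [], [], [2], [(0, 1, [5])]⟩,
    ⟨[], [(0, 0), (0, 1), (0, 5)], [(0, 5)], [2], [(2, 5, [1]), (3, 0, [3])]⟩,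
    ⟨[(0, 1)], [(0, 0), (0, 1), (1, 0), (1, 1), (1, 5)], [(0, 0), (0, 1)], [], [(0, 1,
      [5]), (3, 0, [3]), (4, 0, [3]), (5, 0, [3])]⟩,
    ⟨[(0, 2), (1, 2)], [(1, 0), (2, 0), (2, 1), (2, 3)], [(0, 0), (0, 3)], [6], [(3, 0,
      [3]), (4, 0, [3]), (7, 3, [0])]⟩,
    ⟨[(0, 2), (1, 2), (2, 3)], [(2, 0), (2, 1), (3, 0)], [(0, 0)], [4, 7], [(4, 0, [3]),
      (5, 0, [3])]⟩,
    ⟨[(2, 3)], [(2, 0), (3, 0), (3, 3), (4, 0)], [(0, 3)], [4], [(4, 0, [3]), (7, 3, [0])]⟩]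
  Ta := [((3, 2), 0, 5), ((3, 6), 0, 6), ((4, 8), 0, 4), ((5, 0), 0, 1), ((5, 9), 0, 7)]
  Tb := [((0, 1, 5), 1, 2, 0), ((1, 0, 2), 2, 1, 5), ((2, 1, 3), 5, 2, 0), ((3, 2, 6), 0, 5, 6),
    ((5, 0, 9), 0, 1, 7), ((6, 3, 7), 6, 0, 3), ((7, 6, 8), 3, 6, 4), ((8, 4, 7), 4, 0, 3),
    ((8, 4, 9), 4, 0, 7), ((8, 7, 9), 4, 3, 7), ((9, 5, 8), 7, 0, 4)]
  Tc := []
  Td := [((0, 3), (3, 2), 5), ((0, 3), (3, 6), 6), ((0, 3), (4, 8), 4), ((0, 3), (5, 0), 1), ((0,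
    3), (5, 9), 7), ((1, 5), (0, 1), 2), ((1, 5), (0, 5), 0), ((3, 0), (7, 6), 6), ((3, 0),
    (7, 8), 4), ((5, 1), (2, 1), 2), ((5, 1), (2, 3), 0)]
  G := [[0, 0, 0x54941e112ee83a8c24, 0x4164813e18752eec516143e912ee888cc1, 0x943e112e6851e8c21],
    [0, 0, 0x4e648eeea8ee2eec248482c, 0xc484124e4eeee2ee8ea8c1c, 0xe4eeee2e68eee8c21], [0,
    0x116141e112ee188c14, 0x54943e112ee81a8c24, 0x136941e152ee888c14, 0x143e912e6851e8c21]]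

noncomputable def n824 : Ent := ⟨e824, noF, [], [], [(8, 12, [385753029973011613167317188540585705112827479461471962593976321, 0])]⟩

def c824 : PLift (Cov.check n824.C.D v824 = true) := ⟨by decide +kernel⟩

def b824 : PLift (entF (fidx ts) 400 824 n824 = true) := ⟨by decide +kernel⟩

theorem g824 : GoodF (fidx ts) 400 824 := GoodF.ofV v824 n824 c824.down b824.down

/-- 458654:694 -/
noncomputable def e825 : SCfg where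
  D := {
    a := 6
    L := 11
    kp := 8
    inn := [(0, 1), (0, 2), (1, 0), (1, 2), (2, 0), (2, 1), (2, 3), (2, 4), (3, 2), (3, 5), (4, 2), (5,
      3)]
    mix := [(0, 0), (0, 1), (1, 1), (1, 2), (1, 3), (2, 0), (2, 3), (2, 4), (2, 5), (3, 3), (3, 4), (3,
      6), (3, 7), (4, 4), (4, 5), (4, 8), (4, 9), (5, 4), (5, 7), (5, 10)]
    cl := [1, 2, 4, 0, 0, 0, 5, 3, 6, 7, 8]
    chq := [(0, 3), (1, 4), (3, 0), (4, 1)]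
    rng := [(0, 1), (0, 5), (1, 0), (1, 2), (2, 1), (2, 3), (3, 2), (3, 6), (4, 8), (4, 10), (5, 0),
      (5, 9), (6, 3), (6, 7), (7, 6), (7, 10), (8, 4), (8, 9), (9, 5), (9, 8), (10, 4), (10, 7)]
    lev := [] }
  links := [[1, 2, 6, 7], [2, 0, 7, 8, 9], [6, 0, 1, 9, 3, 10, 4, 11], [10, 2, 9, 12, 13, 5], [11, 2, 10,
    14, 15], [10, 3, 13, 16]]
  P := {
    a := 6
    N := 17
    nb := [198, 901, 3675, 13860, 52228, 74760, 2181, 323, 642, 4366, 81980, 32852, 8712, 69672,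
      33808, 18448, 9248]
    tri := [(0, 1, 2), (0, 1, 7), (0, 2, 6), (0, 6, 7), (1, 2, 9), (1, 7, 8), (1, 8, 9), (2, 3, 9), (2,
      3, 10), (2, 4, 10), (2, 4, 11), (2, 6, 11), (3, 5, 10), (3, 5, 13), (3, 9, 12), (3, 12, 13),
      (4, 10, 14), (4, 11, 15), (4, 14, 15), (5, 10, 16), (5, 13, 16)]
    fin := [0, 0, 0, 3, 3, 3, 0, 7, 8, 3, 3, 3, 12, 13, 14, 15, 16]
    chd := [(0, 8), (3, 13)]
    steps := [(0, 1), (0, 2), (0, 6), (3, 5), (3, 9), (3, 10), (3, 4), (3, 11)] }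
  rep := [3, 0, 7, 13, 8, 12, 14, 15, 16]

noncomputable def v825 : Cov.CovD where
  P := 3
  N := 6
  pl := [1, 6, 8, 9, 10]
  lev := [⟨[], [], [], [2], [(0, 1, [4])]⟩,
    ⟨[], [(0, 0), (0, 1), (0, 4)], [(0, 4)], [2], [(2, 4, [1]), (3, 0, [3])]⟩,
    ⟨[(0, 1)], [(0, 0), (0, 1), (1, 0), (1, 1), (1, 4)], [(0, 0), (0, 1)], [], [(0, 1,
      [4]), (3, 0, [3]), (4, 0, [3]), (5, 0, [3])]⟩,
    ⟨[(0, 2), (1, 2)], [(1, 0), (2, 0), (2, 1), (2, 3)], [(0, 0), (0, 3)], [5], [(3, 0,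
      [3]), (4, 0, [3]), (7, 3, [0])]⟩,
    ⟨[(0, 2), (1, 2), (2, 3)], [(2, 0), (2, 1), (3, 0)], [(0, 0)], [6, 7], [(4, 0, [3]),
      (5, 0, [3])]⟩,
    ⟨[(2, 3)], [(2, 0), (3, 0), (3, 3), (4, 0)], [(0, 3)], [8], [(4, 0, [3]), (7, 3, [0])]⟩]
  Ta := [((3, 2), 0, 4), ((3, 6), 0, 5), ((4, 8), 0, 6), ((4, 10), 0, 8), ((5, 0), 0, 1), ((5,
    9), 0, 7)]
  Tb := [((0, 1, 5), 1, 2, 0), ((1, 0, 2), 2, 1, 4), ((2, 1, 3), 4, 2, 0), ((3, 2, 6), 0, 4, 5),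
    ((4, 8, 10), 0, 6, 8), ((5, 0, 9), 0, 1, 7), ((6, 3, 7), 5, 0, 3), ((7, 6, 10), 3, 5, 8),
    ((8, 4, 9), 6, 0, 7), ((9, 5, 8), 7, 0, 6), ((10, 4, 7), 8, 0, 3)]
  Tc := []
  Td := [((0, 3), (3, 2), 4), ((0, 3), (3, 6), 5), ((0, 3), (4, 8), 6), ((0, 3), (4, 10), 8),
    ((0, 3), (5, 0), 1), ((0, 3), (5, 9), 7), ((1, 4), (0, 1), 2), ((1, 4), (0, 5), 0), ((3,
    0), (7, 6), 5), ((3, 0), (7, 10), 8), ((4, 1), (2, 1), 2), ((4, 1), (2, 3), 0)]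
  G := [[0, 0, 0x34993e555ee39a8c24, 0x17645bde98ee1eec356e59e393ee588cc1,
    0x344d53e19a79beec28], [0, 0, 0xee64eeeeeeeeac2e8482c, 0xee6ee66eeeee8ac1e8481c,
    0x64eeeeeeeeee8ee8c21], [0, 0x122111e111e11cea18, 0x54933e399ee55a8c24,
    0x136eb5e7e9ee188c14, 0x944e55e93a339eec18]]

noncomputable def n825 : Ent := ⟨e825, noF, [], [], [(8, 12, [1685382419726887998779855760127267502807434353888247252031586398209, 0]), (16, 14, [1580095832788404724998799751142926758855362888449624481876422131713, 0])]⟩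

def c825 : PLift (Cov.check n825.C.D v825 = true) := ⟨by decide +kernel⟩

def b825 : PLift (entF (fidx ts) 400 825 n825 = true) := ⟨by decide +kernel⟩

theorem g825 : GoodF (fidx ts) 400 825 := GoodF.ofV v825 n825 c825.down b825.down

/-- The entries 676 to 825. -/
theorem rE4 : Rng (GoodF (fidx ts) 400) 676 826 :=
  (((((((((((((((((((((((((((((((((((((((((((((((((((((((((((((((((((((((((((((((((((((((((((((((((((((((((((((((((((((((((((((((((((((((((((((((((((((((Rng.nil _ 676).snoc g676 rfl).snoc g677 rfl).snoc g678 rfl).snoc g679 rfl).snoc g680 rfl).snoc g681 rfl).snoc g682 rfl).snoc g683 rfl).snoc g684 rfl).snoc g685 rfl).snoc g686 rfl).snoc g687 rfl).snoc g688 rfl).snoc g689 rfl).snoc g690 rfl).snoc g691 rfl).snoc g692 rfl).snoc g693 rfl).snoc g694 rfl).snoc g695 rfl).snoc g696 rfl).snoc g697 rfl).snoc g698 rfl).snoc g699 rfl).snoc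 g700 rfl).snoc g701 rfl).snoc g702 rfl).snoc g703 rfl).snoc g704 rfl).snoc g705 rfl).snoc g706 rfl).snoc g707 rfl).snoc g708 rfl).snoc g709 rfl).snoc g710 rfl).snoc g711 rfl).snoc g712 rfl).snoc g713 rfl).snoc g714 rfl).snoc g715 rfl).snoc g716 rfl).snoc g717 rfl).snoc g718 rfl).snoc g719 rfl).snoc g720 rfl).snoc g721 rfl).snoc g722 rfl).snoc g723 rfl).snoc g724 rfl).snoc g725 rfl).snoc g726 rfl).snoc g727 rfl).snoc g728 rfl).snoc g729 rfl).snoc g730 rfl).snoc g731 rfl).snoc g732 rfl).snoc g733 rfl).snoc g734 rfl).snoc g735 rfl).snoc g736 rfl).snoc g737 rfl).snoc g738 rfl).snoc g739 rfl).snoc g740 rfl).snoc g741 rfl).snoc g742 rfl).snoc g743 rfl).snoc g744 rfl).snoc g745 rfl).snoc g746 rfl).snoc g747 rfl).snoc g748 rfl).snoc g749 rfl).snoc g750 rfl).snoc g751 rfl).snoc g752 rfl).snoc g753 rfl).snoc g754 rfl).snoc g755 rfl).snoc g756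 rfl).snoc g757 rfl).snoc g758 rfl).snoc g759 rfl).snoc g760 rfl).snoc g761 rfl).snoc g762 rfl).snoc g763 rfl).snoc g764 rfl).snoc g765 rfl).snoc g766 rfl).snoc g767 rfl).snoc g768 rfl).snoc g769 rfl).snoc g770 rfl).snoc g771 rfl).snoc g772 rfl).snoc g773 rfl).snoc g774 rfl).snoc g775 rfl).snoc g776 rfl).snoc g777 rfl).snoc g778 rfl).snoc g779 rfl).snoc g780 rfl).snoc g781 rfl).snoc g782 rfl).snoc g783 rfl).snoc g784 rfl).snoc g785 rfl).snoc g786 rfl).snoc g787 rfl).snoc g788 rfl).snoc g789 rfl).snoc g790 rfl).snoc g791 rfl).snoc g792 rfl).snoc g793 rfl).snoc g794 rfl).snoc g795 rfl).snoc g796 rfl).snoc g797 rfl).snoc g798 rfl).snoc g799 rfl).snoc g800 rfl).snoc g801 rfl).snoc g802 rfl).snoc g803 rfl).snoc g804 rfl).snoc g805 rfl).snoc g806 rfl).snoc g807 rfl).snoc g808 rfl).snoc g809 rfl).snoc g810 rfl).snoc g811 rfl).snoc g812 rfl).snoc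 g813 rfl).snoc g814 rfl).snoc g815 rfl).snoc g816 rfl).snoc g817 rfl).snoc g818 rfl).snoc g819 rfl).snoc g820 rfl).snoc g821 rfl).snoc g822 rfl).snoc g823 rfl).snoc g824 rfl).snoc g825 rfl)

end Pool.Agent.W986.ST.Dat
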