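import Pool.Agent.W986.Dat.Tab
import Pool.Agent.W986.SubAltB

/-!
# Entries 826 to 977 of the table
-/

set_option autoImplicit false

namespace Pool.Agent.W986.ST.Dat

/-- 458644:695/1 -/
noncomputable def e826 : SCfg where
  D := {
    a := 6
    L := 9
    kp := 6
    inn := [(0, 1), (0, 2), (1, 0), (1, 2), (2, 0), (2, 1), (2, 3), (2, 5), (3, 2), (3, 4), (4, 3), (5,
      2)]
    mix := [(0, 0), (0, 1), (1, 1), (1, 2), (1, 3), (2, 0), (2, 3), (2, 4), (2, 5), (3, 3), (3, 4), (3,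
      6), (3, 7), (4, 6), (4, 7), (4, 8), (5, 0), (5, 5), (5, 8)]
    cl := [0, 1, 6, 0, 0, 2, 3, 4, 5]
    chq := [(3, 4), (4, 3)]
    rng := [(0, 1), (0, 8), (1, 0), (1, 2), (2, 1), (2, 3), (3, 2), (3, 6), (4, 5), (4, 7), (5, 4), (5,
      8), (6, 3), (6, 8), (7, 4), (7, 8), (8, 0), (8, 5), (8, 6), (8, 7)]
    lev := [] }
  links := [[1, 2, 6, 7], [2, 0, 7, 8, 9], [6, 0, 1, 9, 3, 10, 11, 5], [10, 2, 9, 12, 4, 13], [13, 3, 12,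
    14], [6, 2, 11, 14]]
  P := {
    a := 6
    N := 15
    nb := [198, 901, 3691, 13844, 28680, 18500, 16549, 323, 642, 4366, 10252, 17444, 16920, 17432,
      14448]
    tri := [(0, 1, 2), (0, 1, 7), (0, 2, 6), (0, 6, 7), (1, 2, 9), (1, 7, 8), (1, 8, 9), (2, 3, 9), (2,
      3, 10), (2, 5, 6), (2, 5, 11), (2, 10, 11), (3, 4, 12), (3, 4, 13), (3, 9, 12), (3, 10, 13),
      (4, 12, 14), (4, 13, 14), (5, 6, 14), (5, 11, 14)]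
    fin := [0, 0, 0, 0, 4, 0, 0, 7, 8, 0, 0, 11, 4, 13, 14]
    chd := [(4, 13)]
    steps := [(0, 1), (0, 2), (0, 3), (0, 5), (0, 6), (0, 9), (0, 10), (4, 12)] }
  rep := [0, 7, 11, 4, 13, 14, 8]

noncomputable def v826 : Cov.CovD where
  P := 3
  N := 4
  pl := [1, 2, 5, 8]
  lev := [⟨[], [], [], [1], [(0, 0, [])]⟩,
    ⟨[], [(0, 0)], [], [1, 6], [(3, 0, [])]⟩,
    ⟨[(0, 1)], [(0, 0), (1, 0)], [(0, 0)], [2], [(0, 0, []), (3, 0, []), (4, 0, [])]⟩,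
    ⟨[(0, 2), (1, 2)], [(1, 0), (2, 0), (2, 3), (2, 4)], [(0, 0), (0, 3), (0, 4), (3, 4)],
      [], [(3, 0, []), (4, 0, []), (6, 3, [4]), (7, 4, [3])]⟩,
    ⟨[(2, 3)], [(3, 0), (3, 3), (3, 4)], [(3, 4)], [5], [(6, 3, [4]), (7, 4, [3])]⟩,
    ⟨[(0, 2), (1, 2), (2, 3)], [(0, 0), (2, 0)], [], [2, 5], [(0, 0, [])]⟩]
  Ta := [((0, 1), 0, 1), ((0, 8), 0, 5), ((3, 2), 0, 6), ((3, 6), 0, 3), ((4, 5), 0, 2), ((4, 7),
    0, 4)]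
  Tb := [((0, 1, 8), 0, 1, 5), ((1, 0, 2), 1, 0, 6), ((2, 1, 3), 6, 1, 0), ((3, 2, 6), 0, 6, 3),
    ((4, 5, 7), 0, 2, 4), ((5, 4, 8), 2, 0, 5), ((6, 3, 8), 3, 0, 5), ((7, 4, 8), 4, 0, 5),
    ((8, 0, 5), 5, 0, 2), ((8, 0, 6), 5, 0, 3), ((8, 0, 7), 5, 0, 4), ((8, 5, 6), 5, 2, 3),
    ((8, 5, 7), 5, 2, 4), ((8, 6, 7), 5, 3, 4)]
  Tc := []
  Td := [((3, 4), (6, 3), 0), ((3, 4), (6, 8), 5), ((4, 3), (7, 4), 0), ((4, 3), (7, 8), 5)]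
  G := [[0, 0x414c181c1ec41485c1e888cc2, 0, 0x44484981843ec18, 0x2832829285ca14], [0, 0, 0,
    0x814d111117e411511361198cc8, 0x121b118711e211521368198ac8], [0, 0, 0x6161c1e214,
    0x11841d111be814, 0x18511361298a14]]

noncomputable def n826 : Ent := ⟨e826, noF, [], [], []⟩

def c826 : PLift (Cov.check n826.C.D v826 = true) := ⟨by decide +kernel⟩

def b826 : PLift (entF (fidx ts) 400 826 n826 = true) := ⟨by decide +kernel⟩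

theorem g826 : GoodF (fidx ts) 400 826 := GoodF.ofV v826 n826 c826.down b826.down

/-- 458644:695 -/
noncomputable def e827 : SCfg where
  D := {
    a := 6
    L := 10
    kp := 7
    inn := [(0, 1), (0, 2), (1, 0), (1, 2), (2, 0), (2, 1), (2, 3), (2, 5), (3, 2), (3, 4), (4, 3), (5,
      2)]
    mix := [(0, 0), (0, 1), (1, 1), (1, 2), (1, 3), (2, 0), (2, 3), (2, 4), (2, 5), (3, 3), (3, 4), (3,
      6), (3, 7), (4, 6), (4, 7), (4, 8), (5, 0), (5, 5), (5, 9)]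
    cl := [0, 1, 5, 0, 0, 2, 3, 4, 6, 7]
    chq := [(3, 4), (4, 3)]
    rng := [(0, 1), (0, 9), (1, 0), (1, 2), (2, 1), (2, 3), (3, 2), (3, 6), (4, 5), (4, 7), (5, 4), (5,
      9), (6, 3), (6, 8), (7, 4), (7, 8), (8, 6), (8, 7), (9, 0), (9, 5)]
    lev := [] }
  links := [[1, 2, 6, 7], [2, 0, 7, 8, 9], [6, 0, 1, 9, 3, 10, 11, 5], [10, 2, 9, 12, 4, 13], [13, 3, 12,
    14], [6, 2, 11, 15]]
  P := {
    a := 6
    N := 16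
    nb := [198, 901, 3691, 13844, 28680, 34884, 32933, 323, 642, 4366, 10252, 33828, 16920, 17432,
      12304, 2144]
    tri := [(0, 1, 2), (0, 1, 7), (0, 2, 6), (0, 6, 7), (1, 2, 9), (1, 7, 8), (1, 8, 9), (2, 3, 9), (2,
      3, 10), (2, 5, 6), (2, 5, 11), (2, 10, 11), (3, 4, 12), (3, 4, 13), (3, 9, 12), (3, 10, 13),
      (4, 12, 14), (4, 13, 14), (5, 6, 15), (5, 11, 15)]
    fin := [0, 0, 0, 0, 4, 0, 0, 7, 8, 0, 0, 11, 4, 13, 14, 15]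
    chd := [(4, 13)]
    steps := [(0, 1), (0, 2), (0, 3), (0, 5), (0, 6), (0, 9), (0, 10), (4, 12)] }
  rep := [0, 7, 11, 4, 13, 8, 14, 15]

noncomputable def v827 : Cov.CovD where
  P := 3
  N := 5
  pl := [1, 2, 5, 8, 9]
  lev := [⟨[], [], [], [1], [(0, 0, [])]⟩,
    ⟨[], [(0, 0)], [], [1, 5], [(3, 0, [])]⟩,
    ⟨[(0, 1)], [(0, 0), (1, 0)], [(0, 0)], [2], [(0, 0, []), (3, 0, []), (4, 0, [])]⟩,
    ⟨[(0, 2), (1, 2)], [(1, 0), (2, 0), (2, 3), (2, 4)], [(0, 0), (0, 3), (0, 4), (3, 4)],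
      [], [(3, 0, []), (4, 0, []), (6, 3, [4]), (7, 4, [3])]⟩,
    ⟨[(2, 3)], [(3, 0), (3, 3), (3, 4)], [(3, 4)], [6], [(6, 3, [4]), (7, 4, [3])]⟩,
    ⟨[(0, 2), (1, 2), (2, 3)], [(0, 0), (2, 0)], [], [2, 7], [(0, 0, [])]⟩]
  Ta := [((0, 1), 0, 1), ((0, 9), 0, 7), ((3, 2), 0, 5), ((3, 6), 0, 3), ((4, 5), 0, 2), ((4, 7),
    0, 4)]
  Tb := [((0, 1, 9), 0, 1, 7), ((1, 0, 2), 1, 0, 5), ((2, 1, 3), 5, 1, 0), ((3, 2, 6), 0, 5, 3),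
    ((4, 5, 7), 0, 2, 4), ((5, 4, 9), 2, 0, 7), ((6, 3, 8), 3, 0, 6), ((7, 4, 8), 4, 0, 6),
    ((8, 6, 7), 6, 3, 4), ((9, 0, 5), 7, 0, 2)]
  Tc := []
  Td := [((3, 4), (6, 3), 0), ((3, 4), (6, 8), 6), ((4, 3), (7, 4), 0), ((4, 3), (7, 8), 6)]
  G := [[0, 0xcc984cc5cc36818c41cc5cc3ec88ce2, 0, 0x4884141cc5cc3e8898c1c, 0xaa32aa9aa5ca14],
    [0, 0, 0, 0x1154119113ac41154119113ac8c, 0x1132119115ca11512611911aac4], [0, 0,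
    0x669a63acc54618, 0x11511361198c14, 0x11511361198a18]]

noncomputable def n827 : Ent := ⟨e827, noF, [], [], [(14, 15, [360035742630636841211993100915356868655746945586763691011055617, 0])]⟩

def c827 : PLift (Cov.check n827.C.D v827 = true) := ⟨by decide +kernel⟩

def b827 : PLift (entF (fidx ts) 400 827 n827 = true) := ⟨by decide +kernel⟩

theorem g827 : GoodF (fidx ts) 400 827 := GoodF.ofV v827 n827 c827.down b827.down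

/-- 467666:696 -/
noncomputable def e828 : SCfg where
  D := {
    a := 6
    L := 10
    kp := 8
    inn := [(0, 1), (0, 2), (0, 3), (0, 4), (1, 0), (1, 3), (1, 4), (2, 0), (2, 3), (2, 4), (2, 5), (3,
      0), (3, 1), (3, 2), (4, 0), (4, 1), (4, 2), (4, 5), (5, 2), (5, 4)]
    mix := [(1, 0), (1, 1), (1, 2), (2, 3), (2, 4), (2, 5), (3, 0), (3, 5), (3, 6), (4, 2), (4, 7), (5,
      3), (5, 7), (5, 8), (5, 9)]
    cl := [0, 6, 4, 3, 2, 1, 5, 3, 7, 8]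
    chq := [(0, 2), (0, 3), (0, 4), (2, 0), (2, 5), (3, 0), (4, 0), (5, 2)]
    rng := [(0, 1), (0, 6), (1, 0), (1, 2), (2, 1), (2, 7), (3, 4), (3, 9), (4, 3), (4, 5), (5, 4), (5,
      6), (6, 0), (6, 5), (7, 2), (7, 8), (8, 7), (8, 9), (9, 3), (9, 8)]
    lev := [] }
  links := [[1, 4, 2, 3], [4, 0, 3, 6, 7, 8], [3, 0, 4, 5, 9, 10, 11], [6, 1, 0, 2, 11, 12], [5, 2, 0, 1,
    8, 13], [9, 2, 4, 13, 14, 15]]
  P := {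
    a := 6
    N := 16
    nb := [30, 473, 3641, 6215, 8487, 57876, 4234, 322, 8338, 33828, 2564, 5132, 2120, 16688, 40992,
      16928]
    tri := [(0, 1, 3), (0, 1, 4), (0, 2, 3), (0, 2, 4), (1, 3, 6), (1, 4, 8), (1, 6, 7), (1, 7, 8), (2,
      3, 11), (2, 4, 5), (2, 5, 9), (2, 9, 10), (2, 10, 11), (3, 6, 12), (3, 11, 12), (4, 5, 13),
      (4, 8, 13), (5, 9, 15), (5, 13, 14), (5, 14, 15)]
    fin := [0, 0, 2, 2, 0, 5, 0, 7, 8, 5, 2, 11, 12, 5, 14, 15]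
    chd := [(0, 2), (0, 5), (0, 8), (2, 12)]
    steps := [(0, 1), (0, 4), (0, 6), (2, 3), (2, 10), (5, 13), (5, 9)] }
  rep := [0, 11, 2, 5, 8, 12, 7, 14, 15]

noncomputable def v828 : Cov.CovD where
  P := 3
  N := 6
  pl := [1, 5, 8, 9]
  lev := [⟨[], [], [], [], []⟩,
    ⟨[], [(0, 0), (0, 4)], [(0, 4)], [6], [(0, 0, [2, 3, 4]), (2, 4, [0])]⟩,
    ⟨[(0, 1)], [(0, 2), (0, 3)], [(2, 3)], [1], [(3, 3, [0]), (4, 2, [0, 5])]⟩,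
    ⟨[(0, 1), (0, 2), (1, 2)], [(0, 0), (0, 5), (1, 0), (1, 4), (1, 5), (2, 0), (2, 2), (2,
      3), (2, 5)], [(0, 5)], [1], [(0, 0, [2, 3, 4]), (6, 5, [2])]⟩,
    ⟨[(0, 1), (0, 2), (0, 3), (1, 2), (1, 3), (2, 3)], [(0, 3), (0, 4), (1, 0), (1, 3), (1,
      4), (2, 2), (2, 3), (2, 4)], [(3, 4)], [], [(2, 4, [0]), (7, 3, [0])]⟩,
    ⟨[(0, 2), (0, 4), (1, 4), (2, 3), (2, 4)], [(2, 2), (2, 3), (4, 3), (4, 4)], [(3, 3)],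
      [7, 8], [(3, 3, [0]), (7, 3, [0])]⟩]
  Ta := [((3, 4), 3, 2), ((3, 9), 3, 8), ((7, 2), 3, 4), ((7, 8), 3, 7)]
  Tb := [((0, 1, 6), 0, 6, 5), ((1, 0, 2), 6, 0, 4), ((2, 1, 7), 4, 6, 3), ((3, 4, 9), 3, 2, 8),
    ((4, 3, 5), 2, 3, 1), ((5, 4, 6), 1, 2, 5), ((6, 0, 5), 5, 0, 1), ((7, 2, 8), 3, 4, 7),
    ((8, 7, 9), 7, 3, 8), ((9, 3, 8), 8, 3, 7)]
  Tc := [(0, 2, 3), (0, 2, 4), (0, 3, 4), (2, 0, 5)]
  Td := [((0, 2), (0, 1), 6), ((0, 2), (0, 6), 5), ((0, 3), (0, 1), 6), ((0, 3), (0, 6), 5), ((0,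
    4), (0, 1), 6), ((0, 4), (0, 6), 5), ((2, 0), (4, 3), 3), ((2, 0), (4, 5), 1), ((2, 5),
    (4, 3), 3), ((2, 5), (4, 5), 1), ((3, 0), (3, 4), 2), ((3, 0), (3, 9), 8), ((3, 0), (7,
    2), 4), ((3, 0), (7, 8), 7), ((4, 0), (2, 1), 6), ((4, 0), (2, 7), 3), ((5, 2), (6, 0),
    0), ((5, 2), (6, 5), 1)]
  G := [[0, 0x1732471246141a4e1b3281b328b1b161238acec, 0x5414cf898ca46eccd12,
    0xf1b1cb4f46c531f1cfca78c9ffcffcc1e2, 0x799ef41f144b44f78c9f147849e2], [0,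
    0x1f3281f328f1f168e4, 0xf118f118f118e4, 0x1f341f38cf1125f18cf14f18ce2,
    0x1f54841f1cb45891f548e2]]

noncomputable def n828 : Ent := ⟨e828, noF, [], [], []⟩

def c828 : PLift (Cov.check n828.C.D v828 = true) := ⟨by decide +kernel⟩

def b828 : PLift (entF (fidx ts) 400 828 n828 = true) := ⟨by decide +kernel⟩

theorem g828 : GoodF (fidx ts) 400 828 := GoodF.ofV v828 n828 c828.down b828.down

/-- 458644:697/1 -/
noncomputable def e829 : SCfg where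
  D := {
    a := 6
    L := 9
    kp := 6
    inn := [(0, 1), (0, 2), (1, 0), (1, 2), (2, 0), (2, 1), (2, 3), (2, 4), (3, 2), (3, 5), (4, 2), (5,
      3)]
    mix := [(0, 0), (0, 1), (1, 1), (1, 2), (1, 3), (2, 0), (2, 3), (2, 4), (2, 5), (3, 2), (3, 3), (3,
      4), (3, 6), (4, 0), (4, 5), (4, 7), (5, 4), (5, 6), (5, 8)]
    cl := [0, 1, 4, 0, 0, 2, 3, 5, 6]
    chq := [(0, 3), (3, 0)]
    rng := [(0, 1), (0, 7), (1, 0), (1, 2), (2, 1), (2, 3), (2, 6), (3, 2), (4, 5), (4, 8), (5, 4), (5,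
      7), (6, 2), (6, 8), (7, 0), (7, 5), (8, 4), (8, 6)]
    lev := [] }
  links := [[1, 2, 6, 7], [2, 0, 7, 8, 9], [6, 0, 1, 9, 3, 10, 11, 4], [10, 2, 9, 8, 12, 5], [6, 2, 11,
    13], [10, 3, 12, 14]]
  P := {
    a := 6
    N := 15
    nb := [198, 901, 3675, 5924, 10308, 21512, 8341, 323, 4746, 270, 18476, 9236, 16680, 2128, 5152]
    tri := [(0, 1, 2), (0, 1, 7), (0, 2, 6), (0, 6, 7), (1, 2, 9), (1, 7, 8), (1, 8, 9), (2, 3, 9), (2,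
      3, 10), (2, 4, 6), (2, 4, 11), (2, 10, 11), (3, 5, 10), (3, 5, 12), (3, 8, 9), (3, 8, 12),
      (4, 6, 13), (4, 11, 13), (5, 10, 14), (5, 12, 14)]
    fin := [0, 0, 0, 0, 0, 0, 0, 7, 8, 0, 0, 11, 12, 13, 14]
    chd := [(0, 12)]
    steps := [(0, 1), (0, 2), (0, 4), (0, 6), (0, 9), (0, 3), (0, 5), (0, 10)] }
  rep := [0, 7, 11, 12, 8, 13, 14]

noncomputable def v829 : Cov.CovD where
  P := 3
  N := 4
  pl := [1, 2, 5, 7, 8]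
  lev := [⟨[], [], [], [1], [(0, 0, [3])]⟩,
    ⟨[], [(0, 0)], [], [1, 4], [(3, 0, [3])]⟩,
    ⟨[(0, 1)], [(0, 0), (1, 0)], [(0, 0)], [2], [(0, 0, [3]), (3, 0, [3]), (4, 0, [3])]⟩,
    ⟨[(0, 2), (1, 2)], [(1, 0), (2, 0), (2, 3)], [(0, 0), (0, 3)], [4], [(3, 0, [3]), (4,
      0, [3]), (6, 3, [0])]⟩,
    ⟨[(0, 2), (1, 2), (2, 3)], [(0, 0), (2, 0)], [], [2, 5], [(0, 0, [3])]⟩,
    ⟨[(2, 3)], [(2, 0), (3, 0), (3, 3)], [(0, 3)], [6], [(4, 0, [3]), (6, 3, [0])]⟩]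
  Ta := [((0, 1), 0, 1), ((0, 7), 0, 5), ((3, 2), 0, 4), ((4, 5), 0, 2), ((4, 8), 0, 6)]
  Tb := [((0, 1, 7), 0, 1, 5), ((1, 0, 2), 1, 0, 4), ((2, 1, 3), 4, 1, 0), ((2, 1, 6), 4, 1, 3),
    ((2, 3, 6), 4, 0, 3), ((4, 5, 8), 0, 2, 6), ((5, 4, 7), 2, 0, 5), ((6, 2, 8), 3, 4, 6),
    ((7, 0, 5), 5, 0, 2), ((8, 4, 6), 6, 0, 3)]
  Tc := []
  Td := [((0, 3), (0, 1), 1), ((0, 3), (0, 7), 5), ((0, 3), (3, 2), 4), ((0, 3), (4, 5), 2), ((0,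
    3), (4, 8), 6), ((3, 0), (6, 2), 4), ((3, 0), (6, 8), 6)]
  G := [[0, 0x11c8411c4811c24e2, 0, 0x54e9cb3ce188c14, 0x1257a37ae988a14], [0, 0, 0,
    0xe111a411a168c4, 0x9151a2d11162c4], [0, 0, 0xeeaeeaaee64614, 0xe1e16e18c18,
    0xe12e1e1ca18]]

noncomputable def n829 : Ent := ⟨e829, noF, [], [], []⟩

def c829 : PLift (Cov.check n829.C.D v829 = true) := ⟨by decide +kernel⟩

def b829 : PLift (entF (fidx ts) 400 829 n829 = true) := ⟨by decide +kernel⟩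

theorem g829 : GoodF (fidx ts) 400 829 := GoodF.ofV v829 n829 c829.down b829.down

/-- 458644:697 -/
noncomputable def e830 : SCfg where
  D := {
    a := 6
    L := 10
    kp := 7
    inn := [(0, 1), (0, 2), (1, 0), (1, 2), (2, 0), (2, 1), (2, 3), (2, 4), (3, 2), (3, 5), (4, 2), (5,
      3)]
    mix := [(0, 0), (0, 1), (1, 1), (1, 2), (1, 3), (2, 0), (2, 3), (2, 4), (2, 5), (3, 3), (3, 4), (3,
      6), (3, 7), (4, 0), (4, 5), (4, 8), (5, 4), (5, 7), (5, 9)]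
    cl := [0, 1, 4, 0, 0, 2, 5, 3, 6, 7]
    chq := [(0, 3), (3, 0)]
    rng := [(0, 1), (0, 8), (1, 0), (1, 2), (2, 1), (2, 3), (3, 2), (3, 6), (4, 5), (4, 9), (5, 4), (5,
      8), (6, 3), (6, 7), (7, 6), (7, 9), (8, 0), (8, 5), (9, 4), (9, 7)]
    lev := [] }
  links := [[1, 2, 6, 7], [2, 0, 7, 8, 9], [6, 0, 1, 9, 3, 10, 11, 4], [10, 2, 9, 12, 13, 5], [6, 2, 11,
    14], [10, 3, 13, 15]]
  P := {
    a := 6
    N := 16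
    nb := [198, 901, 3675, 13860, 18500, 41992, 16533, 323, 642, 4366, 34860, 17428, 8712, 36904,
      2128, 9248]
    tri := [(0, 1, 2), (0, 1, 7), (0, 2, 6), (0, 6, 7), (1, 2, 9), (1, 7, 8), (1, 8, 9), (2, 3, 9), (2,
      3, 10), (2, 4, 6), (2, 4, 11), (2, 10, 11), (3, 5, 10), (3, 5, 13), (3, 9, 12), (3, 12, 13),
      (4, 6, 14), (4, 11, 14), (5, 10, 15), (5, 13, 15)]
    fin := [0, 0, 0, 0, 0, 0, 0, 7, 8, 0, 0, 11, 12, 13, 14, 15]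
    chd := [(0, 13)]
    steps := [(0, 1), (0, 2), (0, 3), (0, 4), (0, 5), (0, 6), (0, 9), (0, 10)] }
  rep := [0, 7, 11, 13, 8, 12, 14, 15]

noncomputable def v830 : Cov.CovD where
  P := 3
  N := 5
  pl := [1, 2, 5, 6, 8, 9]
  lev := [⟨[], [], [], [1], [(0, 0, [3])]⟩,
    ⟨[], [(0, 0)], [], [1, 4], [(3, 0, [3])]⟩,
    ⟨[(0, 1)], [(0, 0), (1, 0)], [(0, 0)], [2], [(0, 0, [3]), (3, 0, [3]), (4, 0, [3])]⟩,
    ⟨[(0, 2), (1, 2)], [(1, 0), (2, 0), (2, 3)], [(0, 0), (0, 3)], [5], [(3, 0, [3]), (4,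
      0, [3]), (7, 3, [0])]⟩,
    ⟨[(0, 2), (1, 2), (2, 3)], [(0, 0), (2, 0)], [], [2, 6], [(0, 0, [3])]⟩,
    ⟨[(2, 3)], [(2, 0), (3, 0), (3, 3)], [(0, 3)], [7], [(4, 0, [3]), (7, 3, [0])]⟩]
  Ta := [((0, 1), 0, 1), ((0, 8), 0, 6), ((3, 2), 0, 4), ((3, 6), 0, 5), ((4, 5), 0, 2), ((4, 9),
    0, 7)]
  Tb := [((0, 1, 8), 0, 1, 6), ((1, 0, 2), 1, 0, 4), ((2, 1, 3), 4, 1, 0), ((3, 2, 6), 0, 4, 5),
    ((4, 5, 9), 0, 2, 7), ((5, 4, 8), 2, 0, 6), ((6, 3, 7), 5, 0, 3), ((7, 6, 9), 3, 5, 7),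
    ((8, 0, 5), 6, 0, 2), ((9, 4, 7), 7, 0, 3)]
  Tc := []
  Td := [((0, 3), (0, 1), 1), ((0, 3), (0, 8), 6), ((0, 3), (3, 2), 4), ((0, 3), (3, 6), 5), ((0,
    3), (4, 5), 2), ((0, 3), (4, 9), 7), ((3, 0), (7, 6), 5), ((3, 0), (7, 9), 7)]
  G := [[0, 0x18841411c11ce81411c11ce188ce4, 0, 0x143ec57ce988c14, 0x52b7a13aed88a14], [0, 0, 0,
    0x31916e18c513191e8c4, 0x91d151e2e1b111e2c8], [0, 0, 0xee6ee66ee68a18, 0xe1e16e18c14,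
    0xe12e1e1ca18]]

noncomputable def n830 : Ent := ⟨e830, noF, [], [], [(8, 12, [385753029973011613167317188540585705112827479461471962594004993, 0])]⟩

def c830 : PLift (Cov.check n830.C.D v830 = true) := ⟨by decide +kernel⟩

def b830 : PLift (entF (fidx ts) 400 830 n830 = true) := ⟨by decide +kernel⟩

theorem g830 : GoodF (fidx ts) 400 830 := GoodF.ofV v830 n830 c830.down b830.down

/-- 458566:699/1 -/
noncomputable def e831 : SCfg where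
  D := {
    a := 6
    L := 10
    kp := 7
    inn := [(0, 1), (0, 2), (1, 0), (1, 2), (2, 0), (2, 1), (2, 3), (2, 5), (3, 2), (3, 4), (3, 5), (4,
      3), (4, 5), (5, 2), (5, 3), (5, 4)]
    mix := [(0, 0), (0, 1), (1, 1), (1, 2), (1, 3), (2, 0), (2, 3), (2, 4), (2, 5), (3, 5), (3, 6), (4,
      2), (4, 6), (4, 7), (4, 8), (5, 0), (5, 8), (5, 9)]
    cl := [0, 1, 2, 0, 6, 4, 3, 7, 3, 5]
    chq := [(0, 4), (4, 0), (4, 5), (5, 4)]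
    rng := [(0, 1), (0, 9), (1, 0), (1, 2), (2, 1), (2, 3), (2, 6), (2, 7), (3, 2), (3, 4), (4, 3), (4,
      5), (5, 4), (5, 6), (6, 2), (6, 5), (7, 2), (7, 8), (8, 7), (8, 9), (9, 0), (9, 8)]
    lev := [] }
  links := [[1, 2, 6, 7], [2, 0, 7, 8, 9], [6, 0, 1, 9, 10, 11, 3, 5], [5, 2, 11, 12, 4], [5, 3, 12, 8,
    13, 14], [6, 2, 3, 4, 14, 15]]
  P := {
    a := 6
    N := 16
    nb := [198, 901, 3691, 6196, 28968, 49244, 32933, 323, 12946, 1286, 2564, 5132, 2328, 16656,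
      41008, 16480]
    tri := [(0, 1, 2), (0, 1, 7), (0, 2, 6), (0, 6, 7), (1, 2, 9), (1, 7, 8), (1, 8, 9), (2, 3, 5), (2,
      3, 11), (2, 5, 6), (2, 9, 10), (2, 10, 11), (3, 4, 5), (3, 4, 12), (3, 11, 12), (4, 5, 14),
      (4, 8, 12), (4, 8, 13), (4, 13, 14), (5, 6, 15), (5, 14, 15)]
    fin := [0, 0, 0, 3, 4, 3, 0, 7, 8, 0, 10, 3, 4, 13, 4, 15]
    chd := [(0, 3), (3, 15)]
    steps := [(0, 1), (0, 2), (0, 6), (0, 9), (3, 5), (3, 11), (4, 12), (4, 14)] }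
  rep := [0, 7, 8, 4, 3, 15, 10, 13]

noncomputable def v831 : Cov.CovD where
  P := 3
  N := 5
  pl := [1, 2, 4, 7]
  lev := [⟨[], [], [], [1], [(0, 0, [4])]⟩,
    ⟨[], [(0, 0)], [], [1, 2], [(3, 0, [4])]⟩,
    ⟨[(0, 1)], [(0, 0), (0, 4), (1, 0), (1, 4)], [(0, 0), (0, 4)], [6], [(0, 0, [4]), (3,
      0, [4]), (5, 4, [0, 5])]⟩,
    ⟨[(0, 2), (1, 2)], [(2, 0), (2, 3), (2, 4)], [(3, 4)], [], [(5, 4, [0, 5]), (6, 3,
      [])]⟩,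
    ⟨[(2, 3)], [(3, 3), (3, 4)], [(3, 3)], [2, 7], [(6, 3, []), (8, 3, [])]⟩,
    ⟨[(0, 2), (1, 2), (2, 3), (2, 4), (3, 4)], [(0, 0), (2, 0), (2, 3), (2, 4), (2, 5), (3,
      0), (3, 3), (3, 4), (3, 5), (4, 0), (4, 3), (4, 5)], [(0, 3), (0, 5), (3, 5)], [], [(0,
      0, [4]), (8, 3, []), (9, 5, [4])]⟩]
  Ta := [((0, 1), 0, 1), ((0, 9), 0, 5), ((3, 2), 0, 2), ((3, 4), 0, 6), ((6, 2), 3, 2), ((6, 5),
    3, 4), ((8, 7), 3, 7), ((8, 9), 3, 5)]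
  Tb := [((0, 1, 9), 0, 1, 5), ((1, 0, 2), 1, 0, 2), ((2, 1, 3), 2, 1, 0), ((2, 1, 6), 2, 1, 3),
    ((2, 1, 7), 2, 1, 7), ((2, 3, 6), 2, 0, 3), ((2, 3, 7), 2, 0, 7), ((2, 6, 7), 2, 3, 7),
    ((3, 2, 4), 0, 2, 6), ((4, 3, 5), 6, 0, 4), ((5, 4, 6), 4, 6, 3), ((6, 2, 5), 3, 2, 4),
    ((7, 2, 8), 7, 2, 3), ((8, 7, 9), 3, 7, 5), ((9, 0, 8), 5, 0, 3)]
  Tc := [(4, 0, 5)]
  Td := [((0, 4), (0, 1), 1), ((0, 4), (0, 9), 5), ((0, 4), (3, 2), 2), ((0, 4), (3, 4), 6), ((4,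
    0), (5, 4), 6), ((4, 0), (5, 6), 3), ((4, 5), (5, 4), 6), ((4, 5), (5, 6), 3), ((5, 4),
    (9, 0), 0), ((5, 4), (9, 8), 3)]
  G := [[0, 0x242888c22adf422c44c269744c8c8c5bac8, 0, 0x22c464d429722c888d825bcccd2e14,
    0x226b44a249722a88a28abb44a88cb843de14], [0, 0xaaad14666d1a6cd1ac4, 0,
    0x6181aacb4666d1e1a68d9ac8, 0x666b1e1ca8b9e1cc4b5e18], [0, 0, 0x666e1aaae1ccce1e41,
    0x22c46c269722ca8ad225bcccd2e48, 0x223a82b183e44ac8a4c3d68226b44a249788c], [0, 0,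
    0xaaae1411c226e312ce4e5ac4, 0xa14166c7aaad1e1c64d5e41, 0xe1c68b9e1cc4b568666b188c]]

noncomputable def n831 : Ent := ⟨e831, noF, [], [], []⟩

def c831 : PLift (Cov.check n831.C.D v831 = true) := ⟨by decide +kernel⟩

def b831 : PLift (entF (fidx ts) 400 831 n831 = true) := ⟨by decide +kernel⟩

theorem g831 : GoodF (fidx ts) 400 831 := GoodF.ofV v831 n831 c831.down b831.down

/-- 458566:699/2 -/
noncomputable def e832 : SCfg where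
  D := {
    a := 6
    L := 10
    kp := 7
    inn := [(0, 1), (0, 2), (1, 0), (1, 2), (2, 0), (2, 1), (2, 3), (2, 5), (3, 2), (3, 4), (3, 5), (4,
      3), (4, 5), (5, 2), (5, 3), (5, 4)]
    mix := [(0, 0), (0, 1), (1, 1), (1, 2), (1, 3), (2, 0), (2, 3), (2, 4), (2, 5), (3, 5), (3, 6), (4,
      2), (4, 6), (4, 7), (4, 8), (5, 0), (5, 8), (5, 9)]
    cl := [0, 1, 2, 0, 6, 4, 3, 7, 3, 5]
    chq := [(0, 4), (4, 0), (4, 5), (5, 4)]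
    rng := [(0, 1), (0, 9), (1, 0), (1, 2), (2, 1), (2, 3), (2, 7), (2, 8), (3, 2), (3, 4), (4, 3), (4,
      5), (5, 4), (5, 6), (6, 5), (6, 7), (7, 2), (7, 6), (8, 2), (8, 9), (9, 0), (9, 8)]
    lev := [] }
  links := [[1, 2, 6, 7], [2, 0, 7, 8, 9], [6, 0, 1, 9, 10, 11, 3, 5], [5, 2, 11, 12, 4], [5, 3, 12, 13,
    8, 14], [6, 2, 3, 4, 14, 15]]
  P := {
    a := 6
    N := 16
    nb := [198, 901, 3691, 6196, 28968, 49244, 32933, 323, 25234, 1286, 2564, 5132, 10264, 4368,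
      33072, 16480]
    tri := [(0, 1, 2), (0, 1, 7), (0, 2, 6), (0, 6, 7), (1, 2, 9), (1, 7, 8), (1, 8, 9), (2, 3, 5), (2,
      3, 11), (2, 5, 6), (2, 9, 10), (2, 10, 11), (3, 4, 5), (3, 4, 12), (3, 11, 12), (4, 5, 14),
      (4, 8, 13), (4, 8, 14), (4, 12, 13), (5, 6, 15), (5, 14, 15)]
    fin := [0, 0, 0, 3, 4, 3, 0, 7, 8, 0, 10, 3, 4, 13, 4, 15]
    chd := [(0, 3), (3, 15)]
    steps := [(0, 1), (0, 2), (0, 6), (0, 9), (3, 5), (3, 11), (4, 12), (4, 14)] }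
  rep := [0, 7, 8, 4, 3, 15, 10, 13]

noncomputable def v832 : Cov.CovD where
  P := 3
  N := 5
  pl := [1, 2, 4, 7]
  lev := [⟨[], [], [], [1], [(0, 0, [4])]⟩,
    ⟨[], [(0, 0)], [], [1, 2], [(3, 0, [4])]⟩,
    ⟨[(0, 1)], [(0, 0), (0, 4), (1, 0), (1, 4)], [(0, 0), (0, 4)], [6], [(0, 0, [4]), (3,
      0, [4]), (5, 4, [0, 5])]⟩,
    ⟨[(0, 2), (1, 2)], [(2, 0), (2, 3), (2, 4)], [(3, 4)], [], [(5, 4, [0, 5]), (6, 3,
      [])]⟩,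
    ⟨[(2, 3)], [(3, 3), (3, 4)], [(3, 3)], [2, 7], [(6, 3, []), (8, 3, [])]⟩,
    ⟨[(0, 2), (1, 2), (2, 3), (2, 4), (3, 4)], [(0, 0), (2, 0), (2, 3), (2, 4), (2, 5), (3,
      0), (3, 3), (3, 4), (3, 5), (4, 0), (4, 3), (4, 5)], [(0, 3), (0, 5), (3, 5)], [], [(0,
      0, [4]), (8, 3, []), (9, 5, [4])]⟩]
  Ta := [((0, 1), 0, 1), ((0, 9), 0, 5), ((3, 2), 0, 2), ((3, 4), 0, 6), ((6, 5), 3, 4), ((6, 7),
    3, 7), ((8, 2), 3, 2), ((8, 9), 3, 5)]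
  Tb := [((0, 1, 9), 0, 1, 5), ((1, 0, 2), 1, 0, 2), ((2, 1, 3), 2, 1, 0), ((2, 1, 7), 2, 1, 7),
    ((2, 1, 8), 2, 1, 3), ((2, 3, 7), 2, 0, 7), ((2, 3, 8), 2, 0, 3), ((2, 7, 8), 2, 7, 3),
    ((3, 2, 4), 0, 2, 6), ((4, 3, 5), 6, 0, 4), ((5, 4, 6), 4, 6, 3), ((6, 5, 7), 3, 4, 7),
    ((7, 2, 6), 7, 2, 3), ((8, 2, 9), 3, 2, 5), ((9, 0, 8), 5, 0, 3)]
  Tc := [(4, 0, 5)]
  Td := [((0, 4), (0, 1), 1), ((0, 4), (0, 9), 5), ((0, 4), (3, 2), 2), ((0, 4), (3, 4), 6), ((4,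
    0), (5, 4), 6), ((4, 0), (5, 6), 3), ((4, 5), (5, 4), 6), ((4, 5), (5, 6), 3), ((5, 4),
    (9, 0), 0), ((5, 4), (9, 8), 3)]
  G := [[0, 0x22c44c2697cccd2a422c88c2a5b486, 0, 0x222d464d429722ca8c2a5bcccd2e84,
    0x226b44a4497aaab444ac8a8c3de18], [0, 0xaaad14666d1accd1ac8, 0,
    0x214166c7c1a6c3aa1aa2d3454, 0xe1662b3aaab1e1cc8b9e14], [0, 0, 0x666e1aaae1ccce1e41,
    0x22c464d429722ca88d825bcccd2e84, 0x226b44a2497aaab44288a4848cbfe81], [0, 0,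
    0x6e6e1aaae1cece1e41, 0xa14166c7aaad1e1c68d9e41, 0x666b121c1caabe1cc8b9e81]]

noncomputable def n832 : Ent := ⟨e832, noF, [], [], []⟩

def c832 : PLift (Cov.check n832.C.D v832 = true) := ⟨by decide +kernel⟩

def b832 : PLift (entF (fidx ts) 400 832 n832 = true) := ⟨by decide +kernel⟩

theorem g832 : GoodF (fidx ts) 400 832 := GoodF.ofV v832 n832 c832.down b832.down

/-- 458566:699 -/
noncomputable def e833 : SCfg where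
  D := {
    a := 6
    L := 11
    kp := 8
    inn := [(0, 1), (0, 2), (1, 0), (1, 2), (2, 0), (2, 1), (2, 3), (2, 5), (3, 2), (3, 4), (3, 5), (4,
      3), (4, 5), (5, 2), (5, 3), (5, 4)]
    mix := [(0, 0), (0, 1), (1, 1), (1, 2), (1, 3), (2, 0), (2, 3), (2, 4), (2, 5), (3, 5), (3, 6), (4,
      6), (4, 7), (4, 8), (4, 9), (5, 0), (5, 9), (5, 10)]
    cl := [0, 2, 5, 0, 6, 1, 3, 7, 8, 3, 4]
    chq := [(0, 1), (1, 0), (1, 4), (4, 1)]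
    rng := [(0, 1), (0, 10), (1, 0), (1, 2), (2, 1), (2, 3), (3, 2), (3, 4), (4, 3), (4, 5), (5, 4),
      (5, 6), (6, 5), (6, 7), (7, 6), (7, 8), (8, 7), (8, 9), (9, 8), (9, 10), (10, 0), (10, 9)]
    lev := [] }
  links := [[1, 2, 6, 7], [2, 0, 7, 8, 9], [6, 0, 1, 9, 10, 11, 3, 5], [5, 2, 11, 12, 4], [5, 3, 12, 13,
    14, 15], [6, 2, 3, 4, 15, 16]]
  P := {
    a := 6
    N := 17
    nb := [198, 901, 3691, 6196, 61480, 98396, 65701, 323, 642, 1286, 2564, 5132, 10264, 20496, 40976,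
      81968, 32864]
    tri := [(0, 1, 2), (0, 1, 7), (0, 2, 6), (0, 6, 7), (1, 2, 9), (1, 7, 8), (1, 8, 9), (2, 3, 5), (2,
      3, 11), (2, 5, 6), (2, 9, 10), (2, 10, 11), (3, 4, 5), (3, 4, 12), (3, 11, 12), (4, 5, 15),
      (4, 12, 13), (4, 13, 14), (4, 14, 15), (5, 6, 16), (5, 15, 16)]
    fin := [0, 0, 0, 3, 4, 3, 0, 7, 8, 0, 10, 3, 4, 13, 14, 4, 16]
    chd := [(0, 3), (3, 16)]
    steps := [(0, 1), (0, 2), (0, 6), (0, 9), (3, 5), (3, 11), (4, 12), (4, 15)] }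
  rep := [0, 3, 7, 4, 16, 8, 10, 13, 14]

noncomputable def v833 : Cov.CovD where
  P := 3
  N := 6
  pl := [1, 2, 4, 7, 8]
  lev := [⟨[], [], [], [2], [(0, 0, [1])]⟩,
    ⟨[], [(0, 0)], [], [2, 5], [(3, 0, [1])]⟩,
    ⟨[(0, 1)], [(0, 0), (0, 1), (1, 0), (1, 1)], [(0, 0), (0, 1)], [6], [(0, 0, [1]), (3,
      0, [1]), (5, 1, [0, 4])]⟩,
    ⟨[(0, 2), (1, 2)], [(2, 0), (2, 1), (2, 3)], [(1, 3)], [], [(5, 1, [0, 4]), (6, 3,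
      [])]⟩,
    ⟨[(2, 3)], [(3, 1), (3, 3)], [(3, 3)], [7, 8], [(6, 3, []), (9, 3, [])]⟩,
    ⟨[(0, 2), (1, 2), (2, 3), (2, 4), (3, 4)], [(0, 0), (2, 0), (2, 1), (2, 3), (2, 4), (3,
      0), (3, 1), (3, 3), (3, 4), (4, 0), (4, 3), (4, 4)], [(0, 3), (0, 4), (3, 4)], [], [(0,
      0, [1]), (9, 3, []), (10, 4, [1])]⟩]
  Ta := [((0, 1), 0, 2), ((0, 10), 0, 4), ((3, 2), 0, 5), ((3, 4), 0, 6), ((6, 5), 3, 1), ((6,
    7), 3, 7), ((9, 8), 3, 8), ((9, 10), 3, 4)]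
  Tb := [((0, 1, 10), 0, 2, 4), ((1, 0, 2), 2, 0, 5), ((2, 1, 3), 5, 2, 0), ((3, 2, 4), 0, 5, 6),
    ((4, 3, 5), 6, 0, 1), ((5, 4, 6), 1, 6, 3), ((6, 5, 7), 3, 1, 7), ((7, 6, 8), 7, 3, 8),
    ((8, 7, 9), 8, 7, 3), ((9, 8, 10), 3, 8, 4), ((10, 0, 9), 4, 0, 3)]
  Tc := [(1, 0, 4)]
  Td := [((0, 1), (0, 1), 2), ((0, 1), (0, 10), 4), ((0, 1), (3, 2), 5), ((0, 1), (3, 4), 6),
    ((1, 0), (5, 4), 6), ((1, 0), (5, 6), 3), ((1, 4), (5, 4), 6), ((1, 4), (5, 6), 3), ((4,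
    1), (10, 0), 0), ((4, 1), (10, 9), 3)]
  G := [[0, 0x112d1187a144b1187c618, 0x226e242b522ae28279c226e442b522ae82225dc68,
    0x226e242b522ae88279c14, 0x226e442b522ae82225dc12], [0, 0x111ef2111ef8618,
    0x2262f422e2f8c824822e2f422e2f1ce2, 0x22a2f422a2f1424e14, 0x22e2f422e2f8c12], [0,
    0x11c2181a7e114b1187c618, 0, 0x226e242b522ca22a27dc22ae242b522ae28279cc1,
    0x226e242b5225e82225dc226e242b5226e88279ca2], [0, 0x111e2e12111ef4e18, 0,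
    0x2262f12262f1824e22a2f122a2f1424ec1, 0x72222d522e2f1c22e2f422e2f1ca2]]

noncomputable def n833 : Ent := ⟨e833, noF, [], [], [(8, 13, [1685382419725355503238989871268909155780284044704628512909402828801, 0]), (8, 14, [1685382413448253767852309107433119732572617628602273068445368320001, 0])]⟩

def c833 : PLift (Cov.check n833.C.D v833 = true) := ⟨by decide +kernel⟩

def b833 : PLift (entF (fidx ts) 400 833 n833 = true) := ⟨by decide +kernel⟩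

theorem g833 : GoodF (fidx ts) 400 833 := GoodF.ofV v833 n833 c833.down b833.down

/-- 467674:705/1 -/
noncomputable def e834 : SCfg where
  D := {
    a := 6
    L := 10
    kp := 7
    inn := [(0, 1), (0, 2), (0, 3), (1, 0), (1, 3), (2, 0), (2, 3), (2, 4), (3, 0), (3, 1), (3, 2), (3,
      4), (4, 2), (4, 3), (4, 5), (5, 4)]
    mix := [(0, 0), (1, 0), (1, 1), (1, 2), (1, 3), (2, 0), (2, 4), (2, 5), (2, 6), (3, 1), (3, 7), (4,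
      6), (4, 7), (4, 8), (4, 9), (5, 2), (5, 6), (5, 8)]
    cl := [0, 0, 2, 7, 5, 6, 3, 1, 4, 3]
    chq := [(1, 5), (1, 6), (5, 1), (6, 1)]
    rng := [(0, 3), (0, 4), (1, 2), (1, 7), (2, 1), (2, 3), (2, 6), (2, 8), (3, 0), (3, 2), (4, 0), (4,
      5), (5, 4), (5, 6), (6, 2), (6, 5), (7, 1), (7, 9), (8, 2), (8, 9), (9, 7), (9, 8)]
    lev := [] }
  links := [[1, 6, 2, 3], [6, 0, 3, 7, 8, 9], [3, 0, 6, 10, 11, 12, 4], [7, 1, 0, 2, 4, 13], [13, 3, 2,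
    12, 5, 14, 15], [14, 4, 12, 8]]
  P := {
    a := 6
    N := 16
    nb := [78, 969, 7257, 8343, 61484, 20752, 1543, 8458, 21154, 322, 2116, 5124, 2356, 32920, 33072,
      24592]
    tri := [(0, 1, 3), (0, 1, 6), (0, 2, 3), (0, 2, 6), (1, 3, 7), (1, 6, 9), (1, 7, 8), (1, 8, 9), (2,
      3, 4), (2, 4, 12), (2, 6, 10), (2, 10, 11), (2, 11, 12), (3, 4, 13), (3, 7, 13), (4, 5, 12),
      (4, 5, 14), (4, 13, 15), (4, 14, 15), (5, 8, 12), (5, 8, 14)]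
    fin := [0, 0, 2, 2, 4, 4, 0, 0, 8, 9, 10, 11, 4, 2, 14, 4]
    chd := [(10, 2), (11, 2)]
    steps := [(0, 1), (0, 6), (0, 7), (2, 3), (2, 13), (4, 5), (4, 12), (4, 15)] }
  rep := [0, 2, 8, 4, 14, 10, 11, 9]

noncomputable def v834 : Cov.CovD where
  P := 3
  N := 5
  pl := [2, 3, 8]
  lev := [⟨[], [], [], [], [(0, 0, [])]⟩,
    ⟨[], [(0, 0)], [(0, 0)], [2, 7], [(0, 0, []), (1, 0, [])]⟩,
    ⟨[(0, 1)], [(0, 0), (0, 3), (0, 5), (0, 6), (1, 0)], [(0, 3), (0, 5), (0, 6), (3, 5),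
      (3, 6), (5, 6)], [], [(0, 0, []), (4, 5, [1]), (5, 6, [1]), (6, 3, [])]⟩,
    ⟨[(0, 1), (0, 2), (1, 2)], [(0, 0), (0, 1), (1, 0), (1, 1), (2, 0), (2, 1), (2, 3), (2,
      5), (2, 6)], [(0, 1)], [], [(1, 0, []), (7, 1, [5, 6])]⟩,
    ⟨[(0, 2), (0, 3), (1, 3), (2, 3)], [(2, 0), (2, 1), (2, 3), (2, 5), (2, 6), (3, 0), (3,
      1), (3, 3)], [(1, 3), (3, 3)], [4], [(6, 3, []), (7, 1, [5, 6]), (9, 3, [])]⟩,
    ⟨[(2, 4), (3, 4)], [(2, 3), (4, 1), (4, 3)], [], [2, 4], [(6, 3, [])]⟩]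
  Ta := [((0, 3), 0, 7), ((0, 4), 0, 5), ((1, 2), 0, 2), ((1, 7), 0, 1), ((6, 2), 3, 2), ((6, 5),
    3, 6), ((9, 7), 3, 1), ((9, 8), 3, 4)]
  Tb := [((0, 3, 4), 0, 7, 5), ((1, 2, 7), 0, 2, 1), ((2, 1, 3), 2, 0, 7), ((2, 1, 6), 2, 0, 3),
    ((2, 1, 8), 2, 0, 4), ((2, 3, 6), 2, 7, 3), ((2, 3, 8), 2, 7, 4), ((2, 6, 8), 2, 3, 4),
    ((3, 0, 2), 7, 0, 2), ((4, 0, 5), 5, 0, 6), ((5, 4, 6), 6, 5, 3), ((6, 2, 5), 3, 2, 6),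
    ((7, 1, 9), 1, 0, 3), ((8, 2, 9), 4, 2, 3), ((9, 7, 8), 3, 1, 4)]
  Tc := [(1, 5, 6)]
  Td := [((1, 5), (7, 1), 0), ((1, 5), (7, 9), 3), ((1, 6), (7, 1), 0), ((1, 6), (7, 9), 3), ((5,
    1), (4, 0), 0), ((5, 1), (4, 5), 6), ((6, 1), (5, 4), 5), ((6, 1), (5, 6), 3)]
  G := [[0, 0, 0, 0x81944524158892c4, 0x821d42821d42a8], [0, 0, 0, 0x81944521184c92c4,
    0x821d429158892a8], [0, 0x41688a1841e21c4, 0xe142e182a1, 0x41588c241588c2c1,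
    0x821d42821d42a8], [0, 0x18ce4144ce21c8, 0xc182c18261, 0x44819c2541d82c4,
    0x191d42898d42a8]]

noncomputable def n834 : Ent := ⟨e834, noF, [], [], []⟩

def c834 : PLift (Cov.check n834.C.D v834 = true) := ⟨by decide +kernel⟩

def b834 : PLift (entF (fidx ts) 400 834 n834 = true) := ⟨by decide +kernel⟩

theorem g834 : GoodF (fidx ts) 400 834 := GoodF.ofV v834 n834 c834.down b834.down

/-- 467674:705 -/
noncomputable def e835 : SCfg where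
  D := {
    a := 6
    L := 11
    kp := 8
    inn := [(0, 1), (0, 2), (0, 3), (1, 0), (1, 3), (2, 0), (2, 3), (2, 4), (3, 0), (3, 1), (3, 2), (3,
      4), (4, 2), (4, 3), (4, 5), (5, 4)]
    mix := [(0, 0), (1, 0), (1, 1), (1, 2), (1, 3), (2, 0), (2, 4), (2, 5), (2, 6), (3, 1), (3, 7), (4,
      6), (4, 7), (4, 8), (4, 9), (5, 6), (5, 8), (5, 10)]
    cl := [0, 0, 6, 7, 4, 5, 1, 2, 3, 1, 8]
    chq := [(2, 4), (2, 5), (4, 2), (5, 2)]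
    rng := [(0, 3), (0, 4), (1, 2), (1, 7), (2, 1), (2, 3), (3, 0), (3, 2), (4, 0), (4, 5), (5, 4), (5,
      6), (6, 5), (6, 10), (7, 1), (7, 9), (8, 9), (8, 10), (9, 7), (9, 8), (10, 6), (10, 8)]
    lev := [] }
  links := [[1, 6, 2, 3], [6, 0, 3, 7, 8, 9], [3, 0, 6, 10, 11, 12, 4], [7, 1, 0, 2, 4, 13], [13, 3, 2,
    12, 5, 14, 15], [14, 4, 12, 16]]
  P := {
    a := 6
    N := 17
    nb := [78, 969, 7257, 8343, 61484, 86032, 1543, 8458, 642, 322, 2116, 5124, 67636, 32920, 98352,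
      24592, 20512]
    tri := [(0, 1, 3), (0, 1, 6), (0, 2, 3), (0, 2, 6), (1, 3, 7), (1, 6, 9), (1, 7, 8), (1, 8, 9), (2,
      3, 4), (2, 4, 12), (2, 6, 10), (2, 10, 11), (2, 11, 12), (3, 4, 13), (3, 7, 13), (4, 5, 12),
      (4, 5, 14), (4, 13, 15), (4, 14, 15), (5, 12, 16), (5, 14, 16)]
    fin := [0, 0, 2, 2, 4, 4, 0, 0, 8, 9, 10, 11, 4, 2, 14, 4, 16]
    chd := [(10, 2), (11, 2)]
    steps := [(0, 1), (0, 6), (0, 7), (2, 3), (2, 13), (4, 5), (4, 12), (4, 15)] }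
  rep := [0, 4, 2, 14, 10, 11, 8, 9, 16]

noncomputable def v835 : Cov.CovD where
  P := 3
  N := 6
  pl := [2, 3, 8, 10]
  lev := [⟨[], [], [], [], [(0, 0, [])]⟩,
    ⟨[], [(0, 0)], [(0, 0)], [6, 7], [(0, 0, []), (1, 0, [])]⟩,
    ⟨[(0, 1)], [(0, 0), (0, 1), (0, 4), (0, 5), (1, 0)], [(0, 1), (0, 4), (0, 5), (1, 4),
      (1, 5), (4, 5)], [], [(0, 0, []), (4, 4, [2]), (5, 5, [2]), (6, 1, [])]⟩,
    ⟨[(0, 1), (0, 2), (1, 2)], [(0, 0), (0, 2), (1, 0), (1, 2), (2, 0), (2, 1), (2, 2), (2,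
      4), (2, 5)], [(0, 2)], [], [(1, 0, []), (7, 2, [4, 5])]⟩,
    ⟨[(0, 2), (0, 3), (1, 3), (2, 3)], [(2, 0), (2, 1), (2, 2), (2, 4), (2, 5), (3, 0), (3,
      1), (3, 2)], [(1, 1), (1, 2)], [3], [(6, 1, []), (7, 2, [4, 5]), (9, 1, [])]⟩,
    ⟨[(2, 4), (3, 4)], [(2, 1), (4, 1), (4, 2)], [], [3, 8], [(6, 1, [])]⟩]
  Ta := [((0, 3), 0, 7), ((0, 4), 0, 4), ((1, 2), 0, 6), ((1, 7), 0, 2), ((6, 5), 1, 5), ((6,
    10), 1, 8), ((9, 7), 1, 2), ((9, 8), 1, 3)]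
  Tb := [((0, 3, 4), 0, 7, 4), ((1, 2, 7), 0, 6, 2), ((2, 1, 3), 6, 0, 7), ((3, 0, 2), 7, 0, 6),
    ((4, 0, 5), 4, 0, 5), ((5, 4, 6), 5, 4, 1), ((6, 5, 10), 1, 5, 8), ((7, 1, 9), 2, 0, 1),
    ((8, 9, 10), 3, 1, 8), ((9, 7, 8), 1, 2, 3), ((10, 6, 8), 8, 1, 3)]
  Tc := [(2, 4, 5)]
  Td := [((2, 4), (7, 1), 0), ((2, 4), (7, 9), 1), ((2, 5), (7, 1), 0), ((2, 5), (7, 9), 1), ((4,
    2), (4, 0), 0), ((4, 2), (4, 5), 5), ((5, 2), (5, 4), 4), ((5, 2), (5, 6), 1)]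
  G := [[0, 0xa6c12a6c1264a8c2e4, 0, 0, 0xc5924c5924c5924e8], [0, 0x16c1214a892d1c12e8, 0,
    0x95c1295c12c5942e8, 0xc292425924c2924e8], [0, 0x44a2cc264a8c264a8c2e1,
    0x5498a15498a195c21e4, 0, 0x51c8a4c5924c5924e1], [0, 0x93c4216c82a1c42e1,
    0x92c2192c2125c81e4, 0xc5942c9582c9582e4, 0xc29242592425984e2]]

noncomputable def n835 : Ent := ⟨e835, noF, [], [], [(16, 8, [1580044410770988437309982451912114807532205501265773183772023595009, 0])]⟩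

def c835 : PLift (Cov.check n835.C.D v835 = true) := ⟨by decide +kernel⟩

def b835 : PLift (entF (fidx ts) 400 835 n835 = true) := ⟨by decide +kernel⟩

theorem g835 : GoodF (fidx ts) 400 835 := GoodF.ofV v835 n835 c835.down b835.down

/-- 467674:706/1 -/
noncomputable def e836 : SCfg where
  D := {
    a := 6
    L := 10
    kp := 7
    inn := [(0, 1), (0, 2), (0, 3), (1, 0), (1, 3), (2, 0), (2, 3), (2, 4), (3, 0), (3, 1), (3, 2), (3,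
      4), (4, 2), (4, 3), (4, 5), (5, 4)]
    mix := [(0, 0), (1, 0), (1, 1), (1, 2), (1, 3), (2, 0), (2, 4), (2, 5), (2, 6), (3, 1), (3, 7), (4,
      6), (4, 7), (4, 8), (4, 9), (5, 2), (5, 8), (5, 9)]
    cl := [0, 0, 2, 7, 5, 6, 3, 1, 4, 3]
    chq := [(1, 5), (1, 6), (5, 1), (6, 1)]
    rng := [(0, 3), (0, 4), (1, 2), (1, 7), (2, 1), (2, 3), (2, 8), (2, 9), (3, 0), (3, 2), (4, 0), (4,
      5), (5, 4), (5, 6), (6, 5), (6, 8), (7, 1), (7, 9), (8, 2), (8, 6), (9, 2), (9, 7)]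
    lev := [] }
  links := [[1, 6, 2, 3], [6, 0, 3, 7, 8, 9], [3, 0, 6, 10, 11, 12, 4], [7, 1, 0, 2, 4, 13], [13, 3, 2,
    12, 14, 5, 15], [15, 4, 14, 8]]
  P := {
    a := 6
    N := 16
    nb := [78, 969, 7257, 8343, 61484, 49424, 1543, 8458, 49826, 322, 2116, 5124, 18452, 32920, 4400,
      8496]
    tri := [(0, 1, 3), (0, 1, 6), (0, 2, 3), (0, 2, 6), (1, 3, 7), (1, 6, 9), (1, 7, 8), (1, 8, 9), (2,
      3, 4), (2, 4, 12), (2, 6, 10), (2, 10, 11), (2, 11, 12), (3, 4, 13), (3, 7, 13), (4, 5, 14),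
      (4, 5, 15), (4, 12, 14), (4, 13, 15), (5, 8, 14), (5, 8, 15)]
    fin := [0, 0, 2, 2, 4, 4, 0, 0, 8, 9, 10, 11, 4, 2, 14, 4]
    chd := [(10, 2), (11, 2)]
    steps := [(0, 1), (0, 6), (0, 7), (2, 3), (2, 13), (4, 5), (4, 12), (4, 15)] }
  rep := [0, 2, 8, 4, 14, 10, 11, 9]

noncomputable def v836 : Cov.CovD where
  P := 3
  N := 5
  pl := [2, 3, 8]
  lev := [⟨[], [], [], [], [(0, 0, [])]⟩,
    ⟨[], [(0, 0)], [(0, 0)], [2, 7], [(0, 0, []), (1, 0, [])]⟩,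
    ⟨[(0, 1)], [(0, 0), (0, 3), (0, 5), (0, 6), (1, 0)], [(0, 3), (0, 5), (0, 6), (3, 5),
      (3, 6), (5, 6)], [], [(0, 0, []), (4, 5, [1]), (5, 6, [1]), (6, 3, [])]⟩,
    ⟨[(0, 1), (0, 2), (1, 2)], [(0, 0), (0, 1), (1, 0), (1, 1), (2, 0), (2, 1), (2, 3), (2,
      5), (2, 6)], [(0, 1)], [], [(1, 0, []), (7, 1, [5, 6])]⟩,
    ⟨[(0, 2), (0, 3), (1, 3), (2, 3)], [(2, 0), (2, 1), (2, 3), (2, 5), (2, 6), (3, 0), (3,
      1), (3, 3)], [(1, 3), (3, 3)], [4], [(6, 3, []), (7, 1, [5, 6]), (9, 3, [])]⟩,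
    ⟨[(2, 4), (3, 4)], [(4, 1), (4, 3)], [], [2, 4], [(9, 3, [])]⟩]
  Ta := [((0, 3), 0, 7), ((0, 4), 0, 5), ((1, 2), 0, 2), ((1, 7), 0, 1), ((6, 5), 3, 6), ((6, 8),
    3, 4), ((9, 2), 3, 2), ((9, 7), 3, 1)]
  Tb := [((0, 3, 4), 0, 7, 5), ((1, 2, 7), 0, 2, 1), ((2, 1, 3), 2, 0, 7), ((2, 1, 8), 2, 0, 4),
    ((2, 1, 9), 2, 0, 3), ((2, 3, 8), 2, 7, 4), ((2, 3, 9), 2, 7, 3), ((2, 8, 9), 2, 4, 3),
    ((3, 0, 2), 7, 0, 2), ((4, 0, 5), 5, 0, 6), ((5, 4, 6), 6, 5, 3), ((6, 5, 8), 3, 6, 4),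
    ((7, 1, 9), 1, 0, 3), ((8, 2, 6), 4, 2, 3), ((9, 2, 7), 3, 2, 1)]
  Tc := [(1, 5, 6)]
  Td := [((1, 5), (7, 1), 0), ((1, 5), (7, 9), 3), ((1, 6), (7, 1), 0), ((1, 6), (7, 9), 3), ((5,
    1), (4, 0), 0), ((5, 1), (4, 5), 6), ((6, 1), (5, 4), 5), ((6, 1), (5, 6), 3)]
  G := [[0, 0, 0, 0x44819c21184c92c4, 0x9258892298d82a4], [0, 0, 0, 0x44819c21184c92c4,
    0x821d42821d42a8], [0, 0x18ce4144ce21c8, 0xa1826142a4, 0x891d4241588c2c8,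
    0x828d42198d42a1], [0, 0x841e21841e21c4, 0xe182e182a4, 0x41588c241582c884245,
    0x821d4221588c2a1]]

noncomputable def n836 : Ent := ⟨e836, noF, [], [], []⟩

def c836 : PLift (Cov.check n836.C.D v836 = true) := ⟨by decide +kernel⟩

def b836 : PLift (entF (fidx ts) 400 836 n836 = true) := ⟨by decide +kernel⟩

theorem g836 : GoodF (fidx ts) 400 836 := GoodF.ofV v836 n836 c836.down b836.down

/-- 467674:706/2 -/
noncomputable def e837 : SCfg where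
  D := {
    a := 6
    L := 10
    kp := 7
    inn := [(0, 1), (0, 2), (0, 3), (1, 0), (1, 3), (2, 0), (2, 3), (2, 4), (3, 0), (3, 1), (3, 2), (3,
      4), (4, 2), (4, 3), (4, 5), (5, 4)]
    mix := [(0, 0), (1, 0), (1, 1), (1, 2), (1, 3), (2, 0), (2, 4), (2, 5), (2, 6), (3, 1), (3, 7), (4,
      6), (4, 7), (4, 8), (4, 9), (5, 3), (5, 8), (5, 9)]
    cl := [0, 0, 7, 2, 5, 6, 3, 1, 4, 3]
    chq := [(1, 5), (1, 6), (5, 1), (6, 1)]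
    rng := [(0, 3), (0, 4), (1, 2), (1, 7), (2, 1), (2, 3), (3, 0), (3, 2), (3, 8), (3, 9), (4, 0), (4,
      5), (5, 4), (5, 6), (6, 5), (6, 8), (7, 1), (7, 9), (8, 3), (8, 6), (9, 3), (9, 7)]
    lev := [] }
  links := [[1, 6, 2, 3], [6, 0, 3, 7, 8, 9], [3, 0, 6, 10, 11, 12, 4], [7, 1, 0, 2, 4, 13], [13, 3, 2,
    12, 14, 5, 15], [15, 4, 14, 9]]
  P := {
    a := 6
    N := 16
    nb := [78, 969, 7257, 8343, 61484, 49680, 1543, 8458, 642, 49506, 2116, 5124, 18452, 32920, 4656,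
      8752]
    tri := [(0, 1, 3), (0, 1, 6), (0, 2, 3), (0, 2, 6), (1, 3, 7), (1, 6, 9), (1, 7, 8), (1, 8, 9), (2,
      3, 4), (2, 4, 12), (2, 6, 10), (2, 10, 11), (2, 11, 12), (3, 4, 13), (3, 7, 13), (4, 5, 14),
      (4, 5, 15), (4, 12, 14), (4, 13, 15), (5, 9, 14), (5, 9, 15)]
    fin := [0, 0, 2, 2, 4, 4, 0, 0, 8, 9, 10, 11, 4, 2, 14, 4]
    chd := [(10, 2), (11, 2)]
    steps := [(0, 1), (0, 6), (0, 7), (2, 3), (2, 13), (4, 5), (4, 12), (4, 15)] }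
  rep := [0, 2, 9, 4, 14, 10, 11, 8]

noncomputable def v837 : Cov.CovD where
  P := 3
  N := 5
  pl := [2, 3, 8]
  lev := [⟨[], [], [], [], [(0, 0, [])]⟩,
    ⟨[], [(0, 0)], [(0, 0)], [2, 7], [(0, 0, []), (1, 0, [])]⟩,
    ⟨[(0, 1)], [(0, 0), (0, 3), (0, 5), (0, 6), (1, 0)], [(0, 3), (0, 5), (0, 6), (3, 5),
      (3, 6), (5, 6)], [], [(0, 0, []), (4, 5, [1]), (5, 6, [1]), (6, 3, [])]⟩,
    ⟨[(0, 1), (0, 2), (1, 2)], [(0, 0), (0, 1), (1, 0), (1, 1), (2, 0), (2, 1), (2, 3), (2,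
      5), (2, 6)], [(0, 1)], [], [(1, 0, []), (7, 1, [5, 6])]⟩,
    ⟨[(0, 2), (0, 3), (1, 3), (2, 3)], [(2, 0), (2, 1), (2, 3), (2, 5), (2, 6), (3, 0), (3,
      1), (3, 3)], [(1, 3), (3, 3)], [4], [(6, 3, []), (7, 1, [5, 6]), (9, 3, [])]⟩,
    ⟨[(2, 4), (3, 4)], [(4, 1), (4, 3)], [], [2, 4], [(9, 3, [])]⟩]
  Ta := [((0, 3), 0, 2), ((0, 4), 0, 5), ((1, 2), 0, 7), ((1, 7), 0, 1), ((6, 5), 3, 6), ((6, 8),
    3, 4), ((9, 3), 3, 2), ((9, 7), 3, 1)]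
  Tb := [((0, 3, 4), 0, 2, 5), ((1, 2, 7), 0, 7, 1), ((2, 1, 3), 7, 0, 2), ((3, 0, 2), 2, 0, 7),
    ((3, 0, 8), 2, 0, 4), ((3, 0, 9), 2, 0, 3), ((3, 2, 8), 2, 7, 4), ((3, 2, 9), 2, 7, 3),
    ((3, 8, 9), 2, 4, 3), ((4, 0, 5), 5, 0, 6), ((5, 4, 6), 6, 5, 3), ((6, 5, 8), 3, 6, 4),
    ((7, 1, 9), 1, 0, 3), ((8, 3, 6), 4, 2, 3), ((9, 3, 7), 3, 2, 1)]
  Tc := [(1, 5, 6)]
  Td := [((1, 5), (7, 1), 0), ((1, 5), (7, 9), 3), ((1, 6), (7, 1), 0), ((1, 6), (7, 9), 3), ((5,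
    1), (4, 0), 0), ((5, 1), (4, 5), 6), ((6, 1), (5, 4), 5), ((6, 1), (5, 6), 3)]
  G := [[0, 0, 0xc182a182c4, 0x81944528194452c8, 0x128d42828d42a8], [0, 0, 0xe142e142c8,
    0x819445244819c2c8, 0x821d421182c92a8], [0, 0x881e21441e81c4, 0, 0x41588c2541d82c4,
    0x892d422a8d42a8], [0, 0x841e21841e21c8, 0, 0x44819c244819c2c1, 0x821d42821d42a1]]

noncomputable def n837 : Ent := ⟨e837, noF, [], [], []⟩

def c837 : PLift (Cov.check n837.C.D v837 = true) := ⟨by decide +kernel⟩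

def b837 : PLift (entF (fidx ts) 400 837 n837 = true) := ⟨by decide +kernel⟩

theorem g837 : GoodF (fidx ts) 400 837 := GoodF.ofV v837 n837 c837.down b837.down

/-- 467674:706 -/
noncomputable def e838 : SCfg where
  D := {
    a := 6
    L := 11
    kp := 8
    inn := [(0, 1), (0, 2), (0, 3), (1, 0), (1, 3), (2, 0), (2, 3), (2, 4), (3, 0), (3, 1), (3, 2), (3,
      4), (4, 2), (4, 3), (4, 5), (5, 4)]
    mix := [(0, 0), (1, 0), (1, 1), (1, 2), (1, 3), (2, 0), (2, 4), (2, 5), (2, 6), (3, 1), (3, 7), (4,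
      6), (4, 7), (4, 8), (4, 9), (5, 8), (5, 9), (5, 10)]
    cl := [0, 0, 6, 7, 4, 5, 1, 2, 3, 1, 8]
    chq := [(2, 4), (2, 5), (4, 2), (5, 2)]
    rng := [(0, 3), (0, 4), (1, 2), (1, 7), (2, 1), (2, 3), (3, 0), (3, 2), (4, 0), (4, 5), (5, 4), (5,
      6), (6, 5), (6, 8), (7, 1), (7, 9), (8, 6), (8, 10), (9, 7), (9, 10), (10, 8), (10, 9)]
    lev := [] }
  links := [[1, 6, 2, 3], [6, 0, 3, 7, 8, 9], [3, 0, 6, 10, 11, 12, 4], [7, 1, 0, 2, 4, 13], [13, 3, 2,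
    12, 14, 5, 15], [15, 4, 14, 16]]
  P := {
    a := 6
    N := 17
    nb := [78, 969, 7257, 8343, 61484, 114704, 1543, 8458, 642, 322, 2116, 5124, 18452, 32920, 69680,
      73776, 49184]
    tri := [(0, 1, 3), (0, 1, 6), (0, 2, 3), (0, 2, 6), (1, 3, 7), (1, 6, 9), (1, 7, 8), (1, 8, 9), (2,
      3, 4), (2, 4, 12), (2, 6, 10), (2, 10, 11), (2, 11, 12), (3, 4, 13), (3, 7, 13), (4, 5, 14),
      (4, 5, 15), (4, 12, 14), (4, 13, 15), (5, 14, 16), (5, 15, 16)]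
    fin := [0, 0, 2, 2, 4, 4, 0, 0, 8, 9, 10, 11, 4, 2, 14, 4, 16]
    chd := [(10, 2), (11, 2)]
    steps := [(0, 1), (0, 6), (0, 7), (2, 3), (2, 13), (4, 5), (4, 12), (4, 15)] }
  rep := [0, 4, 2, 14, 10, 11, 8, 9, 16]

noncomputable def v838 : Cov.CovD where
  P := 3
  N := 6
  pl := [2, 3, 8, 10]
  lev := [⟨[], [], [], [], [(0, 0, [])]⟩,
    ⟨[], [(0, 0)], [(0, 0)], [6, 7], [(0, 0, []), (1, 0, [])]⟩,
    ⟨[(0, 1)], [(0, 0), (0, 1), (0, 4), (0, 5), (1, 0)], [(0, 1), (0, 4), (0, 5), (1, 4),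
      (1, 5), (4, 5)], [], [(0, 0, []), (4, 4, [2]), (5, 5, [2]), (6, 1, [])]⟩,
    ⟨[(0, 1), (0, 2), (1, 2)], [(0, 0), (0, 2), (1, 0), (1, 2), (2, 0), (2, 1), (2, 2), (2,
      4), (2, 5)], [(0, 2)], [], [(1, 0, []), (7, 2, [4, 5])]⟩,
    ⟨[(0, 2), (0, 3), (1, 3), (2, 3)], [(2, 0), (2, 1), (2, 2), (2, 4), (2, 5), (3, 0), (3,
      1), (3, 2)], [(1, 1), (1, 2)], [3], [(6, 1, []), (7, 2, [4, 5]), (9, 1, [])]⟩,
    ⟨[(2, 4), (3, 4)], [(4, 1), (4, 2)], [], [3, 8], [(9, 1, [])]⟩]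
  Ta := [((0, 3), 0, 7), ((0, 4), 0, 4), ((1, 2), 0, 6), ((1, 7), 0, 2), ((6, 5), 1, 5), ((6, 8),
    1, 3), ((9, 7), 1, 2), ((9, 10), 1, 8)]
  Tb := [((0, 3, 4), 0, 7, 4), ((1, 2, 7), 0, 6, 2), ((2, 1, 3), 6, 0, 7), ((3, 0, 2), 7, 0, 6),
    ((4, 0, 5), 4, 0, 5), ((5, 4, 6), 5, 4, 1), ((6, 5, 8), 1, 5, 3), ((7, 1, 9), 2, 0, 1),
    ((8, 6, 10), 3, 1, 8), ((9, 7, 10), 1, 2, 8), ((10, 8, 9), 8, 3, 1)]
  Tc := [(2, 4, 5)]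
  Td := [((2, 4), (7, 1), 0), ((2, 4), (7, 9), 1), ((2, 5), (7, 1), 0), ((2, 5), (7, 9), 1), ((4,
    2), (4, 0), 0), ((4, 2), (4, 5), 5), ((5, 2), (5, 4), 4), ((5, 2), (5, 6), 1)]
  G := [[0, 0x5498c293c1216c82e4, 0, 0, 0x25924b292425924e8], [0, 0x64a8c2a6c12a6c12e4, 0,
    0x95c12c9582c9582e4, 0xc5924c592451c894e2], [0, 0xd1c421bc8216c82e1, 0x25c2192c213ac81e4,
    0, 0xc292425924c2924e8], [0, 0x64a8c264a8c264a8c2e1, 0x95c2195c215498c1e2,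
    0xc5942c9582c5942e1, 0xc592451c8a451c8a4e8]]

noncomputable def n838 : Ent := ⟨e838, noF, [], [], [(16, 8, [1580044410770988437309982451912114807532205501265773183772023603201, 0]), (16, 9, [1580044410770988437310138513572361556014072927981731971036234403841, 0])]⟩

def c838 : PLift (Cov.check n838.C.D v838 = true) := ⟨by decide +kernel⟩

def b838 : PLift (entF (fidx ts) 400 838 n838 = true) := ⟨by decide +kernel⟩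

theorem g838 : GoodF (fidx ts) 400 838 := GoodF.ofV v838 n838 c838.down b838.down

/-- 467664:714/1 -/
noncomputable def e839 : SCfg where
  D := {
    a := 6
    L := 10
    kp := 8
    inn := [(0, 1), (0, 2), (0, 3), (1, 0), (1, 3), (1, 4), (2, 0), (2, 3), (3, 0), (3, 1), (3, 2), (4,
      1), (4, 5), (5, 4)]
    mix := [(0, 0), (1, 0), (1, 1), (1, 2), (2, 0), (2, 3), (2, 4), (2, 5), (2, 6), (3, 1), (3, 6), (3,
      7), (4, 0), (4, 2), (4, 3), (4, 8), (5, 2), (5, 8), (5, 9)]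
    cl := [0, 1, 0, 2, 5, 6, 3, 7, 4, 8]
    chq := [(0, 4), (1, 2), (1, 3), (1, 5), (1, 6), (2, 1), (3, 1), (4, 0), (5, 1), (6, 1)]
    rng := [(0, 3), (1, 2), (1, 7), (2, 1), (2, 9), (3, 0), (3, 4), (3, 8), (4, 3), (4, 5), (5, 4), (5,
      6), (6, 5), (6, 7), (7, 1), (7, 6), (8, 3), (8, 9), (9, 2), (9, 8)]
    lev := [] }
  links := [[1, 6, 2, 3], [6, 0, 3, 7, 8, 4], [3, 0, 6, 9, 10, 11, 12], [7, 1, 0, 2, 12, 13], [6, 1, 8,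
    5, 14, 9], [14, 4, 8, 15]]
  P := {
    a := 6
    N := 16
    nb := [78, 473, 7753, 12423, 17250, 49424, 535, 8458, 32946, 17492, 2564, 5124, 10252, 4232,
      33328, 16672]
    tri := [(0, 1, 3), (0, 1, 6), (0, 2, 3), (0, 2, 6), (1, 3, 7), (1, 4, 6), (1, 4, 8), (1, 7, 8), (2,
      3, 12), (2, 6, 9), (2, 9, 10), (2, 10, 11), (2, 11, 12), (3, 7, 13), (3, 12, 13), (4, 5, 8),
      (4, 5, 14), (4, 6, 9), (4, 9, 14), (5, 8, 15), (5, 14, 15)]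
    fin := [0, 0, 2, 2, 0, 0, 0, 2, 0, 9, 10, 11, 12, 13, 14, 15]
    chd := [(0, 14), (2, 9), (2, 10), (2, 11), (2, 12)]
    steps := [(0, 1), (0, 4), (0, 5), (0, 6), (0, 8), (2, 3), (2, 7)] }
  rep := [0, 2, 9, 12, 14, 10, 11, 13, 15]

noncomputable def v839 : Cov.CovD where
  P := 3
  N := 6
  pl := [7, 9]
  lev := [⟨[], [], [], [], [(0, 0, [4])]⟩,
    ⟨[], [(0, 0), (0, 1)], [(0, 0), (0, 1)], [], [(0, 0, [4]), (1, 1, [2, 3, 5, 6]), (2, 0,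
      [4])]⟩,
    ⟨[(0, 1)], [(0, 0), (0, 2), (0, 3), (0, 5), (0, 6), (1, 0)], [(0, 2), (0, 3), (0, 5),
      (0, 6), (2, 3), (2, 5), (2, 6), (3, 5), (3, 6), (5, 6)], [], [(0, 0, [4]), (3, 2, [1]),
      (4, 5, [1]), (5, 6, [1]), (6, 3, [1])]⟩,
    ⟨[(0, 1), (0, 2), (1, 2)], [(0, 0), (0, 1), (0, 3), (1, 0), (1, 1), (1, 3), (2, 0), (2,
      1), (2, 2), (2, 3), (2, 5), (2, 6)], [(1, 3)], [7], [(1, 1, [2, 3, 5, 6]), (6, 3,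
      [1])]⟩,
    ⟨[(0, 1), (1, 3)], [(0, 0), (1, 0), (1, 1), (1, 2), (1, 4), (2, 0), (2, 2)], [(0, 0),
      (0, 2), (0, 4), (2, 4)], [], [(0, 0, [4]), (2, 0, [4]), (3, 2, [1]), (8, 4, [0])]⟩,
    ⟨[(1, 4)], [(1, 0), (4, 0), (4, 2), (4, 4)], [(0, 4)], [8], [(2, 0, [4]), (8, 4, [0])]⟩]
  Ta := [((0, 3), 0, 2), ((2, 1), 0, 1), ((2, 9), 0, 8)]
  Tb := [((1, 2, 7), 1, 0, 7), ((2, 1, 9), 0, 1, 8), ((3, 0, 4), 2, 0, 5), ((3, 0, 8), 2, 0, 4),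
    ((3, 4, 8), 2, 5, 4), ((4, 3, 5), 5, 2, 6), ((5, 4, 6), 6, 5, 3), ((6, 5, 7), 3, 6, 7),
    ((7, 1, 6), 7, 1, 3), ((8, 3, 9), 4, 2, 8), ((9, 2, 8), 8, 0, 4)]
  Tc := [(1, 2, 3), (1, 2, 5), (1, 2, 6), (1, 3, 5), (1, 3, 6), (1, 5, 6)]
  Td := [((0, 4), (0, 3), 2), ((0, 4), (2, 1), 1), ((0, 4), (2, 9), 8), ((1, 2), (1, 2), 0), ((1,
    2), (1, 7), 7), ((1, 3), (1, 2), 0), ((1, 3), (1, 7), 7), ((1, 5), (1, 2), 0), ((1, 5),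
    (1, 7), 7), ((1, 6), (1, 2), 0), ((1, 6), (1, 7), 7), ((2, 1), (3, 0), 0), ((2, 1), (3,
    4), 5), ((2, 1), (3, 8), 4), ((3, 1), (6, 5), 6), ((3, 1), (6, 7), 7), ((4, 0), (8, 3),
    2), ((4, 0), (8, 9), 8), ((5, 1), (4, 3), 2), ((5, 1), (4, 5), 6), ((6, 1), (5, 4), 5),
    ((6, 1), (5, 6), 3)]
  G := [[0, 0, 0x11611c11ad284, 0xa1ca1ca1cd224, 0x71a16a52c1a82c4], [0, 0xa6ca6ca6ce124, 0,
    0xa6ca6ca6cd228, 0xc6ac6ac6ad248]]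

noncomputable def n839 : Ent := ⟨e839, noF, [], [], []⟩

def c839 : PLift (Cov.check n839.C.D v839 = true) := ⟨by decide +kernel⟩

def b839 : PLift (entF (fidx ts) 400 839 n839 = true) := ⟨by decide +kernel⟩

theorem g839 : GoodF (fidx ts) 400 839 := GoodF.ofV v839 n839 c839.down b839.down

/-- 467664:714/2 -/
noncomputable def e840 : SCfg where
  D := {
    a := 6
    L := 10
    kp := 8
    inn := [(0, 1), (0, 2), (0, 3), (1, 0), (1, 3), (1, 4), (2, 0), (2, 3), (3, 0), (3, 1), (3, 2), (4,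
      1), (4, 5), (5, 4)]
    mix := [(0, 0), (1, 0), (1, 1), (1, 2), (2, 0), (2, 3), (2, 4), (2, 5), (2, 6), (3, 1), (3, 6), (3,
      7), (4, 0), (4, 2), (4, 8), (4, 9), (5, 2), (5, 4), (5, 8)]
    cl := [0, 1, 0, 5, 3, 6, 2, 7, 4, 8]
    chq := [(0, 4), (1, 2), (1, 3), (1, 5), (1, 6), (2, 1), (3, 1), (4, 0), (5, 1), (6, 1)]
    rng := [(0, 3), (0, 9), (1, 2), (1, 7), (2, 1), (2, 4), (3, 0), (3, 4), (4, 2), (4, 3), (4, 5), (4,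
      8), (5, 4), (5, 6), (6, 5), (6, 7), (7, 1), (7, 6), (8, 4), (8, 9), (9, 0), (9, 8)]
    lev := [] }
  links := [[1, 6, 2, 3], [6, 0, 3, 7, 8, 4], [3, 0, 6, 9, 10, 11, 12], [7, 1, 0, 2, 12, 13], [6, 1, 8,
    5, 14, 15], [14, 4, 8, 10]]
  P := {
    a := 6
    N := 16
    nb := [78, 473, 7753, 12423, 49506, 17680, 33303, 8458, 1202, 1092, 19236, 5124, 10252, 4232,
      33840, 16464]
    tri := [(0, 1, 3), (0, 1, 6), (0, 2, 3), (0, 2, 6), (1, 3, 7), (1, 4, 6), (1, 4, 8), (1, 7, 8), (2,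
      3, 12), (2, 6, 9), (2, 9, 10), (2, 10, 11), (2, 11, 12), (3, 7, 13), (3, 12, 13), (4, 5, 8),
      (4, 5, 14), (4, 6, 15), (4, 14, 15), (5, 8, 10), (5, 10, 14)]
    fin := [0, 0, 0, 3, 4, 4, 4, 0, 4, 9, 10, 11, 3, 13, 14, 15]
    chd := [(0, 3), (0, 9), (0, 10), (0, 11), (4, 14)]
    steps := [(0, 1), (0, 2), (0, 7), (3, 12), (4, 5), (4, 6), (4, 8)] }
  rep := [4, 0, 3, 10, 14, 9, 11, 13, 15]

noncomputable def v840 : Cov.CovD where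
  P := 3
  N := 6
  pl := [7, 9]
  lev := [⟨[], [], [], [], [(0, 0, [4])]⟩,
    ⟨[], [(0, 0), (0, 1)], [(0, 0), (0, 1)], [], [(0, 0, [4]), (1, 1, [2, 3, 5, 6]), (2, 0,
      [4])]⟩,
    ⟨[(0, 1)], [(0, 0), (0, 2), (0, 3), (0, 5), (0, 6), (1, 0)], [(0, 2), (0, 3), (0, 5),
      (0, 6), (2, 3), (2, 5), (2, 6), (3, 5), (3, 6), (5, 6)], [], [(0, 0, [4]), (3, 5, [1]),
      (4, 3, [1]), (5, 6, [1]), (6, 2, [1])]⟩,
    ⟨[(0, 1), (0, 2), (1, 2)], [(0, 0), (0, 1), (0, 2), (1, 0), (1, 1), (1, 2), (2, 0), (2,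
      1), (2, 2), (2, 3), (2, 5), (2, 6)], [(1, 2)], [7], [(1, 1, [2, 3, 5, 6]), (6, 2,
      [1])]⟩,
    ⟨[(0, 1), (1, 3)], [(0, 0), (1, 0), (1, 1), (1, 4), (2, 0)], [(0, 0), (0, 4)], [8],
      [(0, 0, [4]), (2, 0, [4]), (8, 4, [0])]⟩,
    ⟨[(1, 4)], [(1, 0), (2, 3), (4, 0), (4, 3), (4, 4)], [(0, 3), (0, 4), (3, 4)], [], [(2,
      0, [4]), (4, 3, [1]), (8, 4, [0])]⟩]
  Ta := [((0, 3), 0, 5), ((0, 9), 0, 8), ((2, 1), 0, 1), ((2, 4), 0, 3)]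
  Tb := [((0, 3, 9), 0, 5, 8), ((1, 2, 7), 1, 0, 7), ((2, 1, 4), 0, 1, 3), ((3, 0, 4), 5, 0, 3),
    ((4, 2, 3), 3, 0, 5), ((4, 2, 5), 3, 0, 6), ((4, 2, 8), 3, 0, 4), ((4, 3, 5), 3, 5, 6),
    ((4, 3, 8), 3, 5, 4), ((4, 5, 8), 3, 6, 4), ((5, 4, 6), 6, 3, 2), ((6, 5, 7), 2, 6, 7),
    ((7, 1, 6), 7, 1, 2), ((8, 4, 9), 4, 3, 8), ((9, 0, 8), 8, 0, 4)]
  Tc := [(1, 2, 3), (1, 2, 5), (1, 2, 6), (1, 3, 5), (1, 3, 6), (1, 5, 6)]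
  Td := [((0, 4), (0, 3), 5), ((0, 4), (0, 9), 8), ((0, 4), (2, 1), 1), ((0, 4), (2, 4), 3), ((1,
    2), (1, 2), 0), ((1, 2), (1, 7), 7), ((1, 3), (1, 2), 0), ((1, 3), (1, 7), 7), ((1, 5),
    (1, 2), 0), ((1, 5), (1, 7), 7), ((1, 6), (1, 2), 0), ((1, 6), (1, 7), 7), ((2, 1), (6,
    5), 6), ((2, 1), (6, 7), 7), ((3, 1), (4, 2), 0), ((3, 1), (4, 3), 5), ((3, 1), (4, 5),
    6), ((3, 1), (4, 8), 4), ((4, 0), (8, 4), 3), ((4, 0), (8, 9), 8), ((5, 1), (3, 0), 0),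
    ((5, 1), (3, 4), 3), ((6, 1), (5, 4), 3), ((6, 1), (5, 6), 2)]
  G := [[0, 0, 0x14593ec2e7a82c4, 0x312e312e5284, 0x539e1b7e9248], [0, 0xee6e2c1e8eecc1a2,
    0xc4ee6c2e2eee8c2c1, 0xe26e2652e8e8c2c8, 0xee612e8e892cee68285]]

noncomputable def n840 : Ent := ⟨e840, noF, [], [], []⟩

def c840 : PLift (Cov.check n840.C.D v840 = true) := ⟨by decide +kernel⟩

def b840 : PLift (entF (fidx ts) 400 840 n840 = true) := ⟨by decide +kernel⟩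

theorem g840 : GoodF (fidx ts) 400 840 := GoodF.ofV v840 n840 c840.down b840.down

/-- 467664:714/3 -/
noncomputable def e841 : SCfg where
  D := {
    a := 6
    L := 10
    kp := 8
    inn := [(0, 1), (0, 2), (0, 3), (1, 0), (1, 3), (1, 4), (2, 0), (2, 3), (3, 0), (3, 1), (3, 2), (4,
      1), (4, 5), (5, 4)]
    mix := [(0, 0), (1, 0), (1, 1), (1, 2), (2, 0), (2, 3), (2, 4), (2, 5), (2, 6), (3, 1), (3, 6), (3,
      7), (4, 0), (4, 2), (4, 8), (4, 9), (5, 2), (5, 5), (5, 8)]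
    cl := [0, 1, 0, 5, 6, 3, 4, 7, 2, 8]
    chq := [(0, 2), (1, 3), (1, 4), (1, 5), (1, 6), (2, 0), (3, 1), (4, 1), (5, 1), (6, 1)]
    rng := [(0, 3), (0, 9), (1, 2), (1, 7), (2, 1), (2, 5), (3, 0), (3, 4), (4, 3), (4, 5), (5, 2), (5,
      4), (5, 6), (5, 8), (6, 5), (6, 7), (7, 1), (7, 6), (8, 5), (8, 9), (9, 0), (9, 8)]
    lev := [] }
  links := [[1, 6, 2, 3], [6, 0, 3, 7, 8, 4], [3, 0, 6, 9, 10, 11, 12], [7, 1, 0, 2, 12, 13], [6, 1, 8,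
    5, 14, 15], [14, 4, 8, 11]]
  P := {
    a := 6
    N := 16
    nb := [78, 473, 7753, 12423, 49506, 18704, 33303, 8458, 2226, 1092, 2564, 21796, 10252, 4232,
      34864, 16464]
    tri := [(0, 1, 3), (0, 1, 6), (0, 2, 3), (0, 2, 6), (1, 3, 7), (1, 4, 6), (1, 4, 8), (1, 7, 8), (2,
      3, 12), (2, 6, 9), (2, 9, 10), (2, 10, 11), (2, 11, 12), (3, 7, 13), (3, 12, 13), (4, 5, 8),
      (4, 5, 14), (4, 6, 15), (4, 14, 15), (5, 8, 11), (5, 11, 14)]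
    fin := [0, 0, 0, 3, 4, 4, 4, 0, 4, 9, 10, 11, 3, 13, 14, 15]
    chd := [(0, 3), (0, 9), (0, 10), (0, 11), (4, 14)]
    steps := [(0, 1), (0, 2), (0, 7), (3, 12), (4, 5), (4, 6), (4, 8)] }
  rep := [4, 0, 14, 11, 3, 9, 10, 13, 15]

noncomputable def v841 : Cov.CovD where
  P := 3
  N := 6
  pl := [7, 9]
  lev := [⟨[], [], [], [], [(0, 0, [2])]⟩,
    ⟨[], [(0, 0), (0, 1)], [(0, 0), (0, 1)], [], [(0, 0, [2]), (1, 1, [3, 4, 5, 6]), (2, 0,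
      [2])]⟩,
    ⟨[(0, 1)], [(0, 0), (0, 3), (0, 4), (0, 5), (0, 6), (1, 0)], [(0, 3), (0, 4), (0, 5),
      (0, 6), (3, 4), (3, 5), (3, 6), (4, 5), (4, 6), (5, 6)], [], [(0, 0, [2]), (3, 5, [1]),
      (4, 6, [1]), (5, 3, [1]), (6, 4, [1])]⟩,
    ⟨[(0, 1), (0, 2), (1, 2)], [(0, 0), (0, 1), (0, 4), (1, 0), (1, 1), (1, 4), (2, 0), (2,
      1), (2, 3), (2, 4), (2, 5), (2, 6)], [(1, 4)], [7], [(1, 1, [3, 4, 5, 6]), (6, 4,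
      [1])]⟩,
    ⟨[(0, 1), (1, 3)], [(0, 0), (1, 0), (1, 1), (1, 2), (2, 0)], [(0, 0), (0, 2)], [8],
      [(0, 0, [2]), (2, 0, [2]), (8, 2, [0])]⟩,
    ⟨[(1, 4)], [(1, 0), (2, 3), (4, 0), (4, 2), (4, 3)], [(0, 2), (0, 3), (2, 3)], [], [(2,
      0, [2]), (5, 3, [1]), (8, 2, [0])]⟩]
  Ta := [((0, 3), 0, 5), ((0, 9), 0, 8), ((2, 1), 0, 1), ((2, 5), 0, 3)]
  Tb := [((0, 3, 9), 0, 5, 8), ((1, 2, 7), 1, 0, 7), ((2, 1, 5), 0, 1, 3), ((3, 0, 4), 5, 0, 6),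
    ((4, 3, 5), 6, 5, 3), ((5, 2, 4), 3, 0, 6), ((5, 2, 6), 3, 0, 4), ((5, 2, 8), 3, 0, 2),
    ((5, 4, 6), 3, 6, 4), ((5, 4, 8), 3, 6, 2), ((5, 6, 8), 3, 4, 2), ((6, 5, 7), 4, 3, 7),
    ((7, 1, 6), 7, 1, 4), ((8, 5, 9), 2, 3, 8), ((9, 0, 8), 8, 0, 2)]
  Tc := [(1, 3, 4), (1, 3, 5), (1, 3, 6), (1, 4, 5), (1, 4, 6), (1, 5, 6)]
  Td := [((0, 2), (0, 3), 5), ((0, 2), (0, 9), 8), ((0, 2), (2, 1), 1), ((0, 2), (2, 5), 3), ((1,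
    3), (1, 2), 0), ((1, 3), (1, 7), 7), ((1, 4), (1, 2), 0), ((1, 4), (1, 7), 7), ((1, 5),
    (1, 2), 0), ((1, 5), (1, 7), 7), ((1, 6), (1, 2), 0), ((1, 6), (1, 7), 7), ((2, 0), (8,
    5), 3), ((2, 0), (8, 9), 8), ((3, 1), (5, 2), 0), ((3, 1), (5, 4), 6), ((3, 1), (5, 6),
    4), ((3, 1), (5, 8), 2), ((4, 1), (6, 5), 3), ((4, 1), (6, 7), 7), ((5, 1), (3, 0), 0),
    ((5, 1), (3, 4), 6), ((6, 1), (4, 3), 5), ((6, 1), (4, 5), 3)]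
  G := [[0, 0, 0x6c6ac66acd284, 0x1411c11cd21882c4, 0x11a11a11ad248], [0, 0xccccccccce124,
    0x6ac6aaaacd248, 0xc4c44ccd2c88892cc84245, 0xa212aaaaaaa8d2c8]]

noncomputable def n841 : Ent := ⟨e841, noF, [], [], []⟩

def c841 : PLift (Cov.check n841.C.D v841 = true) := ⟨by decide +kernel⟩

def b841 : PLift (entF (fidx ts) 400 841 n841 = true) := ⟨by decide +kernel⟩

theorem g841 : GoodF (fidx ts) 400 841 := GoodF.ofV v841 n841 c841.down b841.down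

/-- 467664:714 -/
noncomputable def e842 : SCfg where
  D := {
    a := 6
    L := 11
    kp := 9
    inn := [(0, 1), (0, 2), (0, 3), (1, 0), (1, 3), (1, 4), (2, 0), (2, 3), (3, 0), (3, 1), (3, 2), (4,
      1), (4, 5), (5, 4)]
    mix := [(0, 0), (1, 0), (1, 1), (1, 2), (2, 0), (2, 3), (2, 4), (2, 5), (2, 6), (3, 1), (3, 6), (3,
      7), (4, 0), (4, 2), (4, 8), (4, 9), (5, 2), (5, 8), (5, 10)]
    cl := [0, 1, 0, 4, 5, 6, 2, 7, 3, 8, 9]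
    chq := [(0, 3), (1, 2), (1, 4), (1, 5), (1, 6), (2, 1), (3, 0), (4, 1), (5, 1), (6, 1)]
    rng := [(0, 3), (0, 9), (1, 2), (1, 7), (2, 1), (2, 10), (3, 0), (3, 4), (4, 3), (4, 5), (5, 4),
      (5, 6), (6, 5), (6, 7), (7, 1), (7, 6), (8, 9), (8, 10), (9, 0), (9, 8), (10, 2), (10, 8)]
    lev := [] }
  links := [[1, 6, 2, 3], [6, 0, 3, 7, 8, 4], [3, 0, 6, 9, 10, 11, 12], [7, 1, 0, 2, 12, 13], [6, 1, 8,
    5, 14, 15], [14, 4, 8, 16]]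
  P := {
    a := 6
    N := 17
    nb := [78, 473, 7753, 12423, 49506, 82192, 33303, 8458, 65714, 1092, 2564, 5124, 10252, 4232,
      98352, 16464, 16672]
    tri := [(0, 1, 3), (0, 1, 6), (0, 2, 3), (0, 2, 6), (1, 3, 7), (1, 4, 6), (1, 4, 8), (1, 7, 8), (2,
      3, 12), (2, 6, 9), (2, 9, 10), (2, 10, 11), (2, 11, 12), (3, 7, 13), (3, 12, 13), (4, 5, 8),
      (4, 5, 14), (4, 6, 15), (4, 14, 15), (5, 8, 16), (5, 14, 16)]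
    fin := [0, 0, 0, 3, 4, 4, 4, 0, 4, 9, 10, 11, 3, 13, 14, 15, 16]
    chd := [(0, 3), (0, 9), (0, 10), (0, 11), (4, 14)]
    steps := [(0, 1), (0, 2), (0, 7), (3, 12), (4, 5), (4, 6), (4, 8)] }
  rep := [4, 0, 3, 14, 9, 10, 11, 13, 15, 16]

noncomputable def v842 : Cov.CovD where
  P := 3
  N := 7
  pl := [7, 9, 10]
  lev := [⟨[], [], [], [], [(0, 0, [3])]⟩,
    ⟨[], [(0, 0), (0, 1)], [(0, 0), (0, 1)], [], [(0, 0, [3]), (1, 1, [2, 4, 5, 6]), (2, 0,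
      [3])]⟩,
    ⟨[(0, 1)], [(0, 0), (0, 2), (0, 4), (0, 5), (0, 6), (1, 0)], [(0, 2), (0, 4), (0, 5),
      (0, 6), (2, 4), (2, 5), (2, 6), (4, 5), (4, 6), (5, 6)], [], [(0, 0, [3]), (3, 4, [1]),
      (4, 5, [1]), (5, 6, [1]), (6, 2, [1])]⟩,
    ⟨[(0, 1), (0, 2), (1, 2)], [(0, 0), (0, 1), (0, 2), (1, 0), (1, 1), (1, 2), (2, 0), (2,
      1), (2, 2), (2, 4), (2, 5), (2, 6)], [(1, 2)], [7], [(1, 1, [2, 4, 5, 6]), (6, 2,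
      [1])]⟩,
    ⟨[(0, 1), (1, 3)], [(0, 0), (1, 0), (1, 1), (1, 3), (2, 0)], [(0, 0), (0, 3)], [8],
      [(0, 0, [3]), (2, 0, [3]), (8, 3, [0])]⟩,
    ⟨[(1, 4)], [(1, 0), (4, 0), (4, 3)], [(0, 3)], [9], [(2, 0, [3]), (8, 3, [0])]⟩]
  Ta := [((0, 3), 0, 4), ((0, 9), 0, 8), ((2, 1), 0, 1), ((2, 10), 0, 9)]
  Tb := [((0, 3, 9), 0, 4, 8), ((1, 2, 7), 1, 0, 7), ((2, 1, 10), 0, 1, 9), ((3, 0, 4), 4, 0, 5),
    ((4, 3, 5), 5, 4, 6), ((5, 4, 6), 6, 5, 2), ((6, 5, 7), 2, 6, 7), ((7, 1, 6), 7, 1, 2),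
    ((8, 9, 10), 3, 8, 9), ((9, 0, 8), 8, 0, 3), ((10, 2, 8), 9, 0, 3)]
  Tc := [(1, 2, 4), (1, 2, 5), (1, 2, 6), (1, 4, 5), (1, 4, 6), (1, 5, 6)]
  Td := [((0, 3), (0, 3), 4), ((0, 3), (0, 9), 8), ((0, 3), (2, 1), 1), ((0, 3), (2, 10), 9),
    ((1, 2), (1, 2), 0), ((1, 2), (1, 7), 7), ((1, 4), (1, 2), 0), ((1, 4), (1, 7), 7), ((1,
    5), (1, 2), 0), ((1, 5), (1, 7), 7), ((1, 6), (1, 2), 0), ((1, 6), (1, 7), 7), ((2, 1),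
    (6, 5), 6), ((2, 1), (6, 7), 7), ((3, 0), (8, 9), 8), ((3, 0), (8, 10), 9), ((4, 1), (3,
    0), 0), ((4, 1), (3, 4), 5), ((5, 1), (4, 3), 4), ((5, 1), (4, 5), 6), ((6, 1), (5, 4),
    5), ((6, 1), (5, 6), 2)]
  G := [[0, 0, 0xd16593ec2b882c4, 0xd17e935e9248, 0xe93e395e9248], [0, 0xeeaeeac1e4e4c162,
    0xee6ee6c2e8e8c2c1, 0xeeaeeac2e4e4c261, 0xee6ee692e8e892c4]]

noncomputable def n842 : Ent := ⟨e842, noF, [], [], [(9, 15, [1685356702439545624007900436039642273970977273354372543760003526657, 0]), (10, 16, [1580044410770988437309982408355971841652082177953823432505692553217, 0]), (11, 16, [1580044410770988437309982408355971841652082177953823432505692557313, 0])]⟩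

def c842 : PLift (Cov.check n842.C.D v842 = true) := ⟨by decide +kernel⟩

def b842 : PLift (entF (fidx ts) 400 842 n842 = true) := ⟨by decide +kernel⟩

theorem g842 : GoodF (fidx ts) 400 842 := GoodF.ofV v842 n842 c842.down b842.down

/-- 467845:721/1 -/
noncomputable def e843 : SCfg where
  D := {
    a := 6
    L := 10
    kp := 7
    inn := [(0, 1), (0, 2), (0, 3), (1, 0), (1, 3), (2, 0), (2, 3), (2, 4), (3, 0), (3, 1), (3, 2), (3,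
      4), (3, 5), (4, 2), (4, 3), (5, 3)]
    mix := [(0, 0), (1, 0), (1, 1), (1, 2), (1, 3), (2, 0), (2, 4), (2, 5), (2, 6), (3, 1), (3, 7), (3,
      8), (4, 6), (4, 7), (5, 1), (5, 2), (5, 8), (5, 9)]
    cl := [0, 1, 3, 4, 5, 6, 0, 2, 1, 7]
    chq := [(2, 3), (2, 4), (3, 2), (4, 2)]
    rng := [(0, 3), (0, 4), (1, 2), (2, 1), (2, 3), (2, 9), (3, 0), (3, 2), (4, 0), (4, 5), (5, 4), (5,
      6), (6, 5), (6, 7), (7, 6), (7, 8), (8, 7), (8, 9), (9, 2), (9, 8)]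
    lev := [] }
  links := [[1, 6, 2, 3], [6, 0, 3, 7, 8, 9], [3, 0, 6, 10, 11, 12, 4], [7, 1, 0, 2, 4, 13, 14, 5], [13,
    3, 2, 12], [7, 3, 14, 15, 8]]
  P := {
    a := 6
    N := 16
    nb := [78, 969, 7257, 24759, 12300, 49544, 1543, 298, 33442, 322, 2116, 5124, 10260, 20504, 41000,
      16672]
    tri := [(0, 1, 3), (0, 1, 6), (0, 2, 3), (0, 2, 6), (1, 3, 7), (1, 6, 9), (1, 7, 8), (1, 8, 9), (2,
      3, 4), (2, 4, 12), (2, 6, 10), (2, 10, 11), (2, 11, 12), (3, 4, 13), (3, 5, 7), (3, 5, 14),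
      (3, 13, 14), (4, 12, 13), (5, 7, 8), (5, 8, 15), (5, 14, 15)]
    fin := [0, 1, 0, 1, 0, 5, 0, 5, 8, 9, 10, 11, 0, 1, 5, 15]
    chd := [(8, 1), (9, 1)]
    steps := [(0, 2), (0, 4), (0, 6), (0, 12), (1, 3), (1, 13), (5, 14), (5, 7)] }
  rep := [0, 5, 1, 8, 9, 10, 11, 15]

noncomputable def v843 : Cov.CovD where
  P := 3
  N := 5
  pl := [4, 5, 9]
  lev := [⟨[], [], [], [], [(0, 0, [])]⟩,
    ⟨[], [(0, 0), (0, 1), (0, 3), (0, 4)], [(0, 1), (0, 3), (0, 4), (1, 3), (1, 4), (3,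
      4)], [], [(0, 0, []), (1, 1, []), (2, 3, [2]), (3, 4, [2])]⟩,
    ⟨[(0, 1)], [(0, 0), (1, 0)], [(0, 0)], [5, 6], [(0, 0, []), (6, 0, [])]⟩,
    ⟨[(0, 1), (0, 2), (1, 2)], [(0, 0), (0, 1), (0, 2), (1, 0), (1, 1), (1, 2), (1, 3), (1,
      4), (2, 0), (2, 1), (2, 2)], [(1, 1), (1, 2)], [], [(1, 1, []), (7, 2, [3, 4]), (8, 1,
      [])]⟩,
    ⟨[(0, 2), (0, 3), (1, 3), (2, 3)], [(2, 0), (2, 2), (3, 0), (3, 1), (3, 2)], [(0, 2)],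
      [], [(6, 0, []), (7, 2, [3, 4])]⟩,
    ⟨[(0, 3), (1, 3), (2, 3), (3, 4)], [(1, 1), (1, 3), (3, 1), (3, 2), (3, 3)], [(1, 1),
      (1, 3)], [7], [(1, 1, []), (2, 3, [2]), (8, 1, [])]⟩]
  Ta := [((0, 3), 0, 4), ((0, 4), 0, 5), ((1, 2), 1, 3), ((6, 5), 0, 6), ((6, 7), 0, 2), ((8, 7),
    1, 2), ((8, 9), 1, 7)]
  Tb := [((0, 3, 4), 0, 4, 5), ((2, 1, 3), 3, 1, 4), ((2, 1, 9), 3, 1, 7), ((2, 3, 9), 3, 4, 7),
    ((3, 0, 2), 4, 0, 3), ((4, 0, 5), 5, 0, 6), ((5, 4, 6), 6, 5, 0), ((6, 5, 7), 0, 6, 2),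
    ((7, 6, 8), 2, 0, 1), ((8, 7, 9), 1, 2, 7), ((9, 2, 8), 7, 3, 1)]
  Tc := [(2, 3, 4)]
  Td := [((2, 3), (7, 6), 0), ((2, 3), (7, 8), 1), ((2, 4), (7, 6), 0), ((2, 4), (7, 8), 1), ((3,
    2), (2, 1), 1), ((3, 2), (2, 3), 4), ((3, 2), (2, 9), 7), ((4, 2), (3, 0), 0), ((4, 2),
    (3, 2), 3)]
  G := [[0, 0x6181c6898e48e24, 0, 0, 0xd21d21d81e48], [0, 0x6188ce18e48e24, 0, 0xd41d81d41e28,
    0xd21d21d81e42], [0, 0x6488c44a8ce48e21, 0xd84d4849c4e12, 0, 0xd21d81d21e48], [0,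
    0xe84c428ce84e21, 0x9464d4858c8e12, 0xd81d8158c8e24, 0x52889d21d81e42]]

noncomputable def n843 : Ent := ⟨e843, noF, [], [], []⟩

def c843 : PLift (Cov.check n843.C.D v843 = true) := ⟨by decide +kernel⟩

def b843 : PLift (entF (fidx ts) 400 843 n843 = true) := ⟨by decide +kernel⟩

theorem g843 : GoodF (fidx ts) 400 843 := GoodF.ofV v843 n843 c843.down b843.down

/-- 467845:721 -/
noncomputable def e844 : SCfg where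
  D := {
    a := 6
    L := 11
    kp := 8
    inn := [(0, 1), (0, 2), (0, 3), (1, 0), (1, 3), (2, 0), (2, 3), (2, 4), (3, 0), (3, 1), (3, 2), (3,
      4), (3, 5), (4, 2), (4, 3), (5, 3)]
    mix := [(0, 0), (1, 0), (1, 1), (1, 2), (1, 3), (2, 0), (2, 4), (2, 5), (2, 6), (3, 1), (3, 7), (3,
      8), (4, 6), (4, 7), (5, 1), (5, 8), (5, 9), (5, 10)]
    cl := [0, 1, 3, 4, 5, 6, 0, 2, 1, 7, 8]
    chq := [(2, 3), (2, 4), (3, 2), (4, 2)]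
    rng := [(0, 3), (0, 4), (1, 2), (1, 10), (2, 1), (2, 3), (3, 0), (3, 2), (4, 0), (4, 5), (5, 4),
      (5, 6), (6, 5), (6, 7), (7, 6), (7, 8), (8, 7), (8, 9), (9, 8), (9, 10), (10, 1), (10, 9)]
    lev := [] }
  links := [[1, 6, 2, 3], [6, 0, 3, 7, 8, 9], [3, 0, 6, 10, 11, 12, 4], [7, 1, 0, 2, 4, 13, 14, 5], [13,
    3, 2, 12], [7, 3, 14, 15, 16]]
  P := {
    a := 6
    N := 17
    nb := [78, 969, 7257, 24759, 12300, 114824, 1543, 65834, 642, 322, 2116, 5124, 10260, 20504,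
      41000, 81952, 32928]
    tri := [(0, 1, 3), (0, 1, 6), (0, 2, 3), (0, 2, 6), (1, 3, 7), (1, 6, 9), (1, 7, 8), (1, 8, 9), (2,
      3, 4), (2, 4, 12), (2, 6, 10), (2, 10, 11), (2, 11, 12), (3, 4, 13), (3, 5, 7), (3, 5, 14),
      (3, 13, 14), (4, 12, 13), (5, 7, 16), (5, 14, 15), (5, 15, 16)]
    fin := [0, 1, 0, 1, 0, 5, 0, 5, 8, 9, 10, 11, 0, 1, 5, 15, 16]
    chd := [(8, 1), (9, 1)]
    steps := [(0, 2), (0, 4), (0, 6), (0, 12), (1, 3), (1, 13), (5, 14), (5, 7)] }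
  rep := [0, 5, 1, 8, 9, 10, 11, 15, 16]

noncomputable def v844 : Cov.CovD where
  P := 3
  N := 6
  pl := [4, 5, 9, 10]
  lev := [⟨[], [], [], [], [(0, 0, [])]⟩,
    ⟨[], [(0, 0), (0, 1), (0, 3), (0, 4)], [(0, 1), (0, 3), (0, 4), (1, 3), (1, 4), (3,
      4)], [], [(0, 0, []), (1, 1, []), (2, 3, [2]), (3, 4, [2])]⟩,
    ⟨[(0, 1)], [(0, 0), (1, 0)], [(0, 0)], [5, 6], [(0, 0, []), (6, 0, [])]⟩,
    ⟨[(0, 1), (0, 2), (1, 2)], [(0, 0), (0, 1), (0, 2), (1, 0), (1, 1), (1, 2), (1, 3), (1,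
      4), (2, 0), (2, 1), (2, 2)], [(1, 1), (1, 2)], [], [(1, 1, []), (7, 2, [3, 4]), (8, 1,
      [])]⟩,
    ⟨[(0, 2), (0, 3), (1, 3), (2, 3)], [(2, 0), (2, 2), (3, 0), (3, 1), (3, 2)], [(0, 2)],
      [], [(6, 0, []), (7, 2, [3, 4])]⟩,
    ⟨[(0, 3), (1, 3), (2, 3), (3, 4)], [(1, 1), (3, 1), (3, 2)], [(1, 1)], [7, 8], [(1, 1,
      []), (8, 1, [])]⟩]
  Ta := [((0, 3), 0, 4), ((0, 4), 0, 5), ((1, 2), 1, 3), ((1, 10), 1, 8), ((6, 5), 0, 6), ((6,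
    7), 0, 2), ((8, 7), 1, 2), ((8, 9), 1, 7)]
  Tb := [((0, 3, 4), 0, 4, 5), ((1, 2, 10), 1, 3, 8), ((2, 1, 3), 3, 1, 4), ((3, 0, 2), 4, 0, 3),
    ((4, 0, 5), 5, 0, 6), ((5, 4, 6), 6, 5, 0), ((6, 5, 7), 0, 6, 2), ((7, 6, 8), 2, 0, 1),
    ((8, 7, 9), 1, 2, 7), ((9, 8, 10), 7, 1, 8), ((10, 1, 9), 8, 1, 7)]
  Tc := [(2, 3, 4)]
  Td := [((2, 3), (7, 6), 0), ((2, 3), (7, 8), 1), ((2, 4), (7, 6), 0), ((2, 4), (7, 8), 1), ((3,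
    2), (2, 1), 1), ((3, 2), (2, 3), 4), ((4, 2), (3, 0), 0), ((4, 2), (3, 2), 3)]
  G := [[0, 0x44a8ce18e18e24, 0, 0, 0xd81d28d18e42], [0, 0x6481ce18e18e24, 0, 0xd81d81d18e24,
    0xd81d21d81e42], [0, 0xa4444a8ce84e2448829, 0x4498cd28d48e14, 0, 0xd2152829d81e48], [0,
    0xe8444a8ce84e21, 0x4492c58a8d48e14, 0xd41d81d48e24, 0xd21d81d21e48]]

noncomputable def n844 : Ent := ⟨e844, noF, [], [], [(16, 8, [1580044410770988437309982451912114807532205501265773183772023631873, 0])]⟩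

def c844 : PLift (Cov.check n844.C.D v844 = true) := ⟨by decide +kernel⟩

def b844 : PLift (entF (fidx ts) 400 844 n844 = true) := ⟨by decide +kernel⟩

theorem g844 : GoodF (fidx ts) 400 844 := GoodF.ofV v844 n844 c844.down b844.down

/-- 458464:722/1 -/
noncomputable def e845 : SCfg where
  D := {
    a := 6
    L := 9
    kp := 6
    inn := [(0, 1), (0, 2), (1, 0), (1, 2), (2, 0), (2, 1), (2, 3), (2, 4), (3, 2), (4, 2), (4, 5), (5,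
      4)]
    mix := [(0, 0), (0, 1), (1, 1), (1, 2), (1, 3), (2, 0), (2, 3), (2, 4), (2, 5), (3, 4), (3, 5), (3,
      6), (4, 0), (4, 5), (4, 7), (4, 8), (5, 5), (5, 6), (5, 7)]
    cl := [0, 1, 5, 0, 2, 0, 4, 3, 6]
    chq := [(0, 3), (3, 0)]
    rng := [(0, 1), (0, 8), (1, 0), (1, 2), (2, 1), (2, 3), (3, 2), (3, 4), (4, 3), (4, 6), (5, 6), (6,
      4), (6, 5), (6, 7), (7, 6), (7, 8), (8, 0), (8, 7)]
    lev := [] }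
  links := [[1, 2, 6, 7], [2, 0, 7, 8, 9], [6, 0, 1, 9, 10, 3, 11, 4], [11, 2, 10, 12], [6, 2, 11, 5, 13,
    14], [13, 4, 11, 12]]
  P := {
    a := 6
    N := 15
    nb := [198, 901, 3675, 7172, 26724, 14352, 16533, 323, 642, 1286, 4620, 4156, 11304, 20528, 8272]
    tri := [(0, 1, 2), (0, 1, 7), (0, 2, 6), (0, 6, 7), (1, 2, 9), (1, 7, 8), (1, 8, 9), (2, 3, 10),
      (2, 3, 11), (2, 4, 6), (2, 4, 11), (2, 9, 10), (3, 10, 12), (3, 11, 12), (4, 5, 11), (4, 5,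
      13), (4, 6, 14), (4, 13, 14), (5, 11, 12), (5, 12, 13)]
    fin := [0, 0, 0, 0, 0, 0, 0, 7, 8, 0, 10, 0, 12, 13, 14]
    chd := [(0, 13)]
    steps := [(0, 1), (0, 2), (0, 3), (0, 4), (0, 6), (0, 9), (0, 11), (0, 5)] }
  rep := [0, 7, 10, 13, 12, 8, 14]

noncomputable def v845 : Cov.CovD where
  P := 3
  N := 4
  pl := [1, 2, 4, 6, 8]
  lev := [⟨[], [], [], [1], [(0, 0, [3])]⟩,
    ⟨[], [(0, 0)], [], [1, 5], [(3, 0, [3])]⟩,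
    ⟨[(0, 1)], [(0, 0), (1, 0)], [(0, 0)], [2], [(0, 0, [3]), (3, 0, [3]), (5, 0, [3])]⟩,
    ⟨[(0, 2), (1, 2)], [(2, 0)], [], [2, 4], [(5, 0, [3])]⟩,
    ⟨[(0, 2), (1, 2), (2, 3)], [(0, 0), (2, 0), (2, 3), (3, 0)], [(0, 0), (0, 3)], [6],
      [(0, 0, [3]), (5, 0, [3]), (7, 3, [0])]⟩,
    ⟨[(2, 4)], [(2, 0), (3, 0), (4, 0), (4, 3)], [(0, 3)], [4], [(5, 0, [3]), (7, 3, [0])]⟩]
  Ta := [((0, 1), 0, 1), ((0, 8), 0, 6), ((3, 2), 0, 5), ((3, 4), 0, 2), ((5, 6), 0, 4)]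
  Tb := [((0, 1, 8), 0, 1, 6), ((1, 0, 2), 1, 0, 5), ((2, 1, 3), 5, 1, 0), ((3, 2, 4), 0, 5, 2),
    ((4, 3, 6), 2, 0, 4), ((6, 4, 5), 4, 2, 0), ((6, 4, 7), 4, 2, 3), ((6, 5, 7), 4, 0, 3),
    ((7, 6, 8), 3, 4, 6), ((8, 0, 7), 6, 0, 3)]
  Tc := []
  Td := [((0, 3), (0, 1), 1), ((0, 3), (0, 8), 6), ((0, 3), (3, 2), 5), ((0, 3), (3, 4), 2), ((0,
    3), (5, 6), 4), ((3, 0), (7, 6), 4), ((3, 0), (7, 8), 6)]
  G := [[0, 0x12e26518885c116449e2a1cc2, 0, 0x44114eea9c18, 0xe21eec1a14], [0, 0,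
    0x812e1211ce4111e111e68c1, 0xee6118885c18e26581a8cc1, 0x12212eec9a18ee63881ac4], [0, 0,
    0, 0x4e648a2e68cc18, 0x662e28cce8a14]]

noncomputable def n845 : Ent := ⟨e845, noF, [], [], []⟩

def c845 : PLift (Cov.check n845.C.D v845 = true) := ⟨by decide +kernel⟩

def b845 : PLift (entF (fidx ts) 400 845 n845 = true) := ⟨by decide +kernel⟩

theorem g845 : GoodF (fidx ts) 400 845 := GoodF.ofV v845 n845 c845.down b845.down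

/-- 458464:722 -/
noncomputable def e846 : SCfg where
  D := {
    a := 6
    L := 10
    kp := 7
    inn := [(0, 1), (0, 2), (1, 0), (1, 2), (2, 0), (2, 1), (2, 3), (2, 4), (3, 2), (4, 2), (4, 5), (5,
      4)]
    mix := [(0, 0), (0, 1), (1, 1), (1, 2), (1, 3), (2, 0), (2, 3), (2, 4), (2, 5), (3, 4), (3, 5), (3,
      6), (4, 0), (4, 5), (4, 7), (4, 8), (5, 5), (5, 7), (5, 9)]
    cl := [0, 1, 4, 0, 2, 0, 5, 3, 6, 7]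
    chq := [(0, 3), (3, 0)]
    rng := [(0, 1), (0, 8), (1, 0), (1, 2), (2, 1), (2, 3), (3, 2), (3, 4), (4, 3), (4, 6), (5, 6), (5,
      9), (6, 4), (6, 5), (7, 8), (7, 9), (8, 0), (8, 7), (9, 5), (9, 7)]
    lev := [] }
  links := [[1, 2, 6, 7], [2, 0, 7, 8, 9], [6, 0, 1, 9, 10, 3, 11, 4], [11, 2, 10, 12], [6, 2, 11, 5, 13,
    14], [13, 4, 11, 15]]
  P := {
    a := 6
    N := 16
    nb := [198, 901, 3675, 7172, 26724, 43024, 16533, 323, 642, 1286, 4620, 36924, 3080, 49200, 8272,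
      10272]
    tri := [(0, 1, 2), (0, 1, 7), (0, 2, 6), (0, 6, 7), (1, 2, 9), (1, 7, 8), (1, 8, 9), (2, 3, 10),
      (2, 3, 11), (2, 4, 6), (2, 4, 11), (2, 9, 10), (3, 10, 12), (3, 11, 12), (4, 5, 11), (4, 5,
      13), (4, 6, 14), (4, 13, 14), (5, 11, 15), (5, 13, 15)]
    fin := [0, 0, 0, 0, 0, 0, 0, 7, 8, 0, 10, 0, 12, 13, 14, 15]
    chd := [(0, 13)]
    steps := [(0, 1), (0, 2), (0, 3), (0, 4), (0, 5), (0, 6), (0, 9), (0, 11)] }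
  rep := [0, 7, 10, 13, 8, 12, 14, 15]

noncomputable def v846 : Cov.CovD where
  P := 3
  N := 5
  pl := [1, 2, 4, 6, 8, 9]
  lev := [⟨[], [], [], [1], [(0, 0, [3])]⟩,
    ⟨[], [(0, 0)], [], [1, 4], [(3, 0, [3])]⟩,
    ⟨[(0, 1)], [(0, 0), (1, 0)], [(0, 0)], [2], [(0, 0, [3]), (3, 0, [3]), (5, 0, [3])]⟩,
    ⟨[(0, 2), (1, 2)], [(2, 0)], [], [2, 5], [(5, 0, [3])]⟩,
    ⟨[(0, 2), (1, 2), (2, 3)], [(0, 0), (2, 0), (2, 3), (3, 0)], [(0, 0), (0, 3)], [6],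
      [(0, 0, [3]), (5, 0, [3]), (7, 3, [0])]⟩,
    ⟨[(2, 4)], [(2, 0), (3, 0), (4, 0), (4, 3)], [(0, 3)], [7], [(5, 0, [3]), (7, 3, [0])]⟩]
  Ta := [((0, 1), 0, 1), ((0, 8), 0, 6), ((3, 2), 0, 4), ((3, 4), 0, 2), ((5, 6), 0, 5), ((5, 9),
    0, 7)]
  Tb := [((0, 1, 8), 0, 1, 6), ((1, 0, 2), 1, 0, 4), ((2, 1, 3), 4, 1, 0), ((3, 2, 4), 0, 4, 2),
    ((4, 3, 6), 2, 0, 5), ((5, 6, 9), 0, 5, 7), ((6, 4, 5), 5, 2, 0), ((7, 8, 9), 3, 6, 7),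
    ((8, 0, 7), 6, 0, 3), ((9, 5, 7), 7, 0, 3)]
  Tc := []
  Td := [((0, 3), (0, 1), 1), ((0, 3), (0, 8), 6), ((0, 3), (3, 2), 4), ((0, 3), (3, 4), 2), ((0,
    3), (5, 6), 5), ((0, 3), (5, 9), 7), ((3, 0), (7, 8), 6), ((3, 0), (7, 9), 7)]
  G := [[0, 0xe41812116ce81c111e11ac4e2, 0, 0xe41eea1c18, 0x221eece1a14], [0, 0,
    0x111e111ea412111e11ce2c1, 0x14414eea9c2eee1c81cc1, 0x1818ec6b2ee61e81ac221889], [0, 0,
    0, 0xe8441e4ee6ceea8c1c, 0xee6ee6ae8e8aa14]]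

noncomputable def n846 : Ent := ⟨e846, noF, [], [], [(12, 15, [360035742630636841211993100915356868655746945586763691011133441, 0])]⟩

def c846 : PLift (Cov.check n846.C.D v846 = true) := ⟨by decide +kernel⟩

def b846 : PLift (entF (fidx ts) 400 846 n846 = true) := ⟨by decide +kernel⟩

theorem g846 : GoodF (fidx ts) 400 846 := GoodF.ofV v846 n846 c846.down b846.down

/-- 458464:723/1 -/
noncomputable def e847 : SCfg where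
  D := {
    a := 6
    L := 9
    kp := 6
    inn := [(0, 1), (0, 2), (1, 0), (1, 2), (2, 0), (2, 1), (2, 3), (2, 4), (3, 2), (4, 2), (4, 5), (5,
      4)]
    mix := [(0, 0), (0, 1), (1, 1), (1, 2), (1, 3), (2, 0), (2, 3), (2, 4), (2, 5), (3, 4), (3, 5), (3,
      6), (4, 0), (4, 5), (4, 7), (4, 8), (5, 2), (5, 7), (5, 8)]
    cl := [0, 1, 2, 0, 5, 0, 6, 3, 4]
    chq := [(3, 4), (4, 3)]
    rng := [(0, 1), (0, 8), (1, 0), (1, 2), (2, 1), (2, 3), (2, 7), (2, 8), (3, 2), (3, 4), (4, 3), (4,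
      6), (5, 6), (5, 7), (6, 4), (6, 5), (7, 2), (7, 5), (8, 0), (8, 2)]
    lev := [] }
  links := [[1, 2, 6, 7], [2, 0, 7, 8, 9], [6, 0, 1, 9, 10, 3, 11, 4], [11, 2, 10, 12], [6, 2, 11, 13, 5,
    14], [14, 4, 13, 8]]
  P := {
    a := 6
    N := 15
    nb := [198, 901, 3675, 7172, 26724, 24848, 16533, 323, 25250, 1286, 4620, 12316, 3080, 2352, 368]
    tri := [(0, 1, 2), (0, 1, 7), (0, 2, 6), (0, 6, 7), (1, 2, 9), (1, 7, 8), (1, 8, 9), (2, 3, 10),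
      (2, 3, 11), (2, 4, 6), (2, 4, 11), (2, 9, 10), (3, 10, 12), (3, 11, 12), (4, 5, 13), (4, 5,
      14), (4, 6, 14), (4, 11, 13), (5, 8, 13), (5, 8, 14)]
    fin := [0, 0, 0, 0, 4, 5, 0, 7, 5, 0, 10, 0, 12, 4, 14]
    chd := [(4, 14)]
    steps := [(0, 1), (0, 2), (0, 3), (0, 6), (0, 9), (0, 11), (4, 13), (5, 8)] }
  rep := [0, 7, 5, 4, 14, 10, 12]

noncomputable def v847 : Cov.CovD where
  P := 3
  N := 4
  pl := [1, 2, 4, 6]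
  lev := [⟨[], [], [], [1], [(0, 0, [])]⟩,
    ⟨[], [(0, 0)], [], [1, 2], [(3, 0, [])]⟩,
    ⟨[(0, 1)], [(0, 0), (1, 0)], [(0, 0)], [5], [(0, 0, []), (3, 0, []), (5, 0, [])]⟩,
    ⟨[(0, 2), (1, 2)], [(2, 0)], [], [5, 6], [(5, 0, [])]⟩,
    ⟨[(0, 2), (1, 2), (2, 3)], [(0, 0), (2, 0), (2, 3), (2, 4), (3, 0)], [(0, 0), (0, 3),
      (0, 4), (3, 4)], [], [(0, 0, []), (5, 0, []), (7, 3, [4]), (8, 4, [3])]⟩,
    ⟨[(2, 4)], [(4, 0), (4, 3), (4, 4)], [(3, 4)], [2], [(7, 3, [4]), (8, 4, [3])]⟩]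
  Ta := [((0, 1), 0, 1), ((0, 8), 0, 4), ((3, 2), 0, 2), ((3, 4), 0, 5), ((5, 6), 0, 6), ((5, 7),
    0, 3)]
  Tb := [((0, 1, 8), 0, 1, 4), ((1, 0, 2), 1, 0, 2), ((2, 1, 3), 2, 1, 0), ((2, 1, 7), 2, 1, 3),
    ((2, 1, 8), 2, 1, 4), ((2, 3, 7), 2, 0, 3), ((2, 3, 8), 2, 0, 4), ((2, 7, 8), 2, 3, 4),
    ((3, 2, 4), 0, 2, 5), ((4, 3, 6), 5, 0, 6), ((5, 6, 7), 0, 6, 3), ((6, 4, 5), 6, 5, 0),
    ((7, 2, 5), 3, 2, 0), ((8, 0, 2), 4, 0, 2)]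
  Tc := []
  Td := [((3, 4), (7, 2), 2), ((3, 4), (7, 5), 0), ((4, 3), (8, 0), 0), ((4, 3), (8, 2), 2)]
  G := [[0, 0x111e1141e1a44, 0, 0xd21d21684, 0x812e1831e1618], [0, 0, 0x426182a184c1e41,
    0x1212c121a44, 0x144112e12ac111e1e81], [0, 0, 0, 0xd22d2d26cd288c1,
    0x8882a22e481261422e881481cea1c]]

noncomputable def n847 : Ent := ⟨e847, noF, [], [], []⟩

def c847 : PLift (Cov.check n847.C.D v847 = true) := ⟨by decide +kernel⟩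

def b847 : PLift (entF (fidx ts) 400 847 n847 = true) := ⟨by decide +kernel⟩

theorem g847 : GoodF (fidx ts) 400 847 := GoodF.ofV v847 n847 c847.down b847.down

/-- 458464:723 -/
noncomputable def e848 : SCfg where
  D := {
    a := 6
    L := 10
    kp := 7
    inn := [(0, 1), (0, 2), (1, 0), (1, 2), (2, 0), (2, 1), (2, 3), (2, 4), (3, 2), (4, 2), (4, 5), (5,
      4)]
    mix := [(0, 0), (0, 1), (1, 1), (1, 2), (1, 3), (2, 0), (2, 3), (2, 4), (2, 5), (3, 4), (3, 5), (3,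
      6), (4, 0), (4, 5), (4, 7), (4, 8), (5, 7), (5, 8), (5, 9)]
    cl := [0, 1, 5, 0, 2, 0, 6, 3, 4, 7]
    chq := [(3, 4), (4, 3)]
    rng := [(0, 1), (0, 8), (1, 0), (1, 2), (2, 1), (2, 3), (3, 2), (3, 4), (4, 3), (4, 6), (5, 6), (5,
      7), (6, 4), (6, 5), (7, 5), (7, 9), (8, 0), (8, 9), (9, 7), (9, 8)]
    lev := [] }
  links := [[1, 2, 6, 7], [2, 0, 7, 8, 9], [6, 0, 1, 9, 10, 3, 11, 4], [11, 2, 10, 12], [6, 2, 11, 13, 5,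
    14], [14, 4, 13, 15]]
  P := {
    a := 6
    N := 16
    nb := [198, 901, 3675, 7172, 26724, 57360, 16533, 323, 642, 1286, 4620, 12316, 3080, 34864, 32880,
      24608]
    tri := [(0, 1, 2), (0, 1, 7), (0, 2, 6), (0, 6, 7), (1, 2, 9), (1, 7, 8), (1, 8, 9), (2, 3, 10),
      (2, 3, 11), (2, 4, 6), (2, 4, 11), (2, 9, 10), (3, 10, 12), (3, 11, 12), (4, 5, 13), (4, 5,
      14), (4, 6, 14), (4, 11, 13), (5, 13, 15), (5, 14, 15)]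
    fin := [0, 0, 0, 0, 0, 5, 0, 7, 8, 0, 10, 0, 12, 5, 14, 15]
    chd := [(5, 14)]
    steps := [(0, 1), (0, 2), (0, 3), (0, 4), (0, 6), (0, 9), (0, 11), (5, 13)] }
  rep := [0, 7, 10, 5, 14, 8, 12, 15]

noncomputable def v848 : Cov.CovD where
  P := 3
  N := 5
  pl := [1, 2, 4, 6, 9]
  lev := [⟨[], [], [], [1], [(0, 0, [])]⟩,
    ⟨[], [(0, 0)], [], [1, 5], [(3, 0, [])]⟩,
    ⟨[(0, 1)], [(0, 0), (1, 0)], [(0, 0)], [2], [(0, 0, []), (3, 0, []), (5, 0, [])]⟩,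
    ⟨[(0, 2), (1, 2)], [(2, 0)], [], [2, 6], [(5, 0, [])]⟩,
    ⟨[(0, 2), (1, 2), (2, 3)], [(0, 0), (2, 0), (2, 3), (2, 4), (3, 0)], [(0, 0), (0, 3),
      (0, 4), (3, 4)], [], [(0, 0, []), (5, 0, []), (7, 3, [4]), (8, 4, [3])]⟩,
    ⟨[(2, 4)], [(4, 0), (4, 3), (4, 4)], [(3, 4)], [7], [(7, 3, [4]), (8, 4, [3])]⟩]
  Ta := [((0, 1), 0, 1), ((0, 8), 0, 4), ((3, 2), 0, 5), ((3, 4), 0, 2), ((5, 6), 0, 6), ((5, 7),
    0, 3)]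
  Tb := [((0, 1, 8), 0, 1, 4), ((1, 0, 2), 1, 0, 5), ((2, 1, 3), 5, 1, 0), ((3, 2, 4), 0, 5, 2),
    ((4, 3, 6), 2, 0, 6), ((5, 6, 7), 0, 6, 3), ((6, 4, 5), 6, 2, 0), ((7, 5, 9), 3, 0, 7),
    ((8, 0, 9), 4, 0, 7), ((9, 7, 8), 7, 3, 4)]
  Tc := []
  Td := [((3, 4), (7, 5), 0), ((3, 4), (7, 9), 7), ((4, 3), (8, 0), 0), ((4, 3), (8, 9), 7)]
  G := [[0, 0x54193a1c441913e1c62, 0, 0x54193a1c14, 0x32195c1a14], [0, 0,
    0x536526691a98ca32536695c98aac4, 0x54193a1c5361981cc1, 0x32195c1a221951e1ac4], [0, 0, 0,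
    0x9893ac4153654c81c, 0x22153ea951e88aa14]]

noncomputable def n848 : Ent := ⟨e848, noF, [], [], [(8, 15, [360035742630636841211993100915356868655746945586763691011141633, 0])]⟩

def c848 : PLift (Cov.check n848.C.D v848 = true) := ⟨by decide +kernel⟩

def b848 : PLift (entF (fidx ts) 400 848 n848 = true) := ⟨by decide +kernel⟩

theorem g848 : GoodF (fidx ts) 400 848 := GoodF.ofV v848 n848 c848.down b848.down

/-- 458464:724/1 -/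
noncomputable def e849 : SCfg where
  D := {
    a := 6
    L := 9
    kp := 6
    inn := [(0, 1), (0, 2), (1, 0), (1, 2), (2, 0), (2, 1), (2, 3), (2, 4), (3, 2), (4, 2), (4, 5), (5,
      4)]
    mix := [(0, 0), (0, 1), (1, 1), (1, 2), (1, 3), (2, 0), (2, 3), (2, 4), (2, 5), (3, 4), (3, 5), (3,
      6), (4, 0), (4, 5), (4, 7), (4, 8), (5, 0), (5, 1), (5, 8)]
    cl := [0, 1, 4, 0, 2, 0, 5, 6, 3]
    chq := [(0, 3), (3, 0)]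
    rng := [(0, 1), (1, 0), (1, 2), (1, 8), (2, 1), (2, 3), (3, 2), (3, 4), (4, 3), (4, 6), (5, 6), (5,
      7), (6, 4), (6, 5), (7, 5), (7, 8), (8, 1), (8, 7)]
    lev := [] }
  links := [[1, 2, 6, 7], [2, 0, 7, 8, 9], [6, 0, 1, 9, 10, 3, 11, 4], [11, 2, 10, 12], [6, 2, 11, 13,
    14, 5], [6, 4, 14, 7]]
  P := {
    a := 6
    N := 15
    nb := [198, 901, 3675, 7172, 26724, 16592, 181, 16739, 642, 1286, 4620, 12316, 3080, 18448, 8368]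
    tri := [(0, 1, 2), (0, 1, 7), (0, 2, 6), (0, 6, 7), (1, 2, 9), (1, 7, 8), (1, 8, 9), (2, 3, 10),
      (2, 3, 11), (2, 4, 6), (2, 4, 11), (2, 9, 10), (3, 10, 12), (3, 11, 12), (4, 5, 6), (4, 5,
      14), (4, 11, 13), (4, 13, 14), (5, 6, 7), (5, 7, 14)]
    fin := [0, 0, 0, 0, 0, 0, 0, 7, 8, 0, 10, 0, 12, 13, 14]
    chd := [(0, 14)]
    steps := [(0, 1), (0, 2), (0, 3), (0, 4), (0, 6), (0, 5), (0, 9), (0, 11)] }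
  rep := [0, 7, 10, 14, 8, 12, 13]

noncomputable def v849 : Cov.CovD where
  P := 3
  N := 4
  pl := [1, 2, 4, 6, 7]
  lev := [⟨[], [], [], [1], [(0, 0, [3])]⟩,
    ⟨[], [(0, 0)], [], [1, 4], [(3, 0, [3])]⟩,
    ⟨[(0, 1)], [(0, 0), (1, 0)], [(0, 0)], [2], [(0, 0, [3]), (3, 0, [3]), (5, 0, [3])]⟩,
    ⟨[(0, 2), (1, 2)], [(2, 0)], [], [2, 5], [(5, 0, [3])]⟩,
    ⟨[(0, 2), (1, 2), (2, 3)], [(0, 0), (2, 0), (2, 3), (3, 0)], [(0, 0), (0, 3)], [6],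
      [(0, 0, [3]), (5, 0, [3]), (8, 3, [0])]⟩,
    ⟨[(2, 4)], [(0, 0), (2, 0), (4, 0), (4, 3)], [(0, 3)], [1], [(0, 0, [3]), (8, 3, [0])]⟩]
  Ta := [((0, 1), 0, 1), ((3, 2), 0, 4), ((3, 4), 0, 2), ((5, 6), 0, 5), ((5, 7), 0, 6)]
  Tb := [((1, 0, 2), 1, 0, 4), ((1, 0, 8), 1, 0, 3), ((1, 2, 8), 1, 4, 3), ((2, 1, 3), 4, 1, 0),
    ((3, 2, 4), 0, 4, 2), ((4, 3, 6), 2, 0, 5), ((5, 6, 7), 0, 5, 6), ((6, 4, 5), 5, 2, 0),
    ((7, 5, 8), 6, 0, 3), ((8, 1, 7), 3, 1, 6)]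
  Tc := []
  Td := [((0, 3), (0, 1), 1), ((0, 3), (3, 2), 4), ((0, 3), (3, 4), 2), ((0, 3), (5, 6), 5), ((0,
    3), (5, 7), 6), ((3, 0), (8, 1), 1), ((3, 0), (8, 7), 6)]
  G := [[0, 0x642e18642e1864, 0, 0x4418ca1c18, 0x84ce1214], [0, 0, 0x111e811ea4841e811ec2c8,
    0x4161881c145e18c4, 0x841e12841e12c8], [0, 0, 0, 0x4164819e88cc18, 0x149e2841e8a14]]

noncomputable def n849 : Ent := ⟨e849, noF, [], [], []⟩

def c849 : PLift (Cov.check n849.C.D v849 = true) := ⟨by decide +kernel⟩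

def b849 : PLift (entF (fidx ts) 400 849 n849 = true) := ⟨by decide +kernel⟩

theorem g849 : GoodF (fidx ts) 400 849 := GoodF.ofV v849 n849 c849.down b849.down

/-- 458464:724 -/
noncomputable def e850 : SCfg where
  D := {
    a := 6
    L := 10
    kp := 7
    inn := [(0, 1), (0, 2), (1, 0), (1, 2), (2, 0), (2, 1), (2, 3), (2, 4), (3, 2), (4, 2), (4, 5), (5,
      4)]
    mix := [(0, 0), (0, 1), (1, 1), (1, 2), (1, 3), (2, 0), (2, 3), (2, 4), (2, 5), (3, 4), (3, 5), (3,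
      6), (4, 0), (4, 5), (4, 7), (4, 8), (5, 0), (5, 8), (5, 9)]
    cl := [0, 1, 4, 0, 2, 0, 5, 6, 3, 7]
    chq := [(0, 3), (3, 0)]
    rng := [(0, 1), (0, 9), (1, 0), (1, 2), (2, 1), (2, 3), (3, 2), (3, 4), (4, 3), (4, 6), (5, 6), (5,
      7), (6, 4), (6, 5), (7, 5), (7, 8), (8, 7), (8, 9), (9, 0), (9, 8)]
    lev := [] }
  links := [[1, 2, 6, 7], [2, 0, 7, 8, 9], [6, 0, 1, 9, 10, 3, 11, 4], [11, 2, 10, 12], [6, 2, 11, 13,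
    14, 5], [6, 4, 14, 15]]
  P := {
    a := 6
    N := 16
    nb := [198, 901, 3675, 7172, 26724, 49232, 32949, 323, 642, 1286, 4620, 12316, 3080, 18448, 41008,
      16480]
    tri := [(0, 1, 2), (0, 1, 7), (0, 2, 6), (0, 6, 7), (1, 2, 9), (1, 7, 8), (1, 8, 9), (2, 3, 10),
      (2, 3, 11), (2, 4, 6), (2, 4, 11), (2, 9, 10), (3, 10, 12), (3, 11, 12), (4, 5, 6), (4, 5,
      14), (4, 11, 13), (4, 13, 14), (5, 6, 15), (5, 14, 15)]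
    fin := [0, 0, 0, 0, 0, 0, 0, 7, 8, 0, 10, 0, 12, 13, 14, 15]
    chd := [(0, 14)]
    steps := [(0, 1), (0, 2), (0, 3), (0, 4), (0, 5), (0, 6), (0, 9), (0, 11)] }
  rep := [0, 7, 10, 14, 8, 12, 13, 15]

noncomputable def v850 : Cov.CovD where
  P := 3
  N := 5
  pl := [1, 2, 4, 6, 7, 9]
  lev := [⟨[], [], [], [1], [(0, 0, [3])]⟩,
    ⟨[], [(0, 0)], [], [1, 4], [(3, 0, [3])]⟩,
    ⟨[(0, 1)], [(0, 0), (1, 0)], [(0, 0)], [2], [(0, 0, [3]), (3, 0, [3]), (5, 0, [3])]⟩,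
    ⟨[(0, 2), (1, 2)], [(2, 0)], [], [2, 5], [(5, 0, [3])]⟩,
    ⟨[(0, 2), (1, 2), (2, 3)], [(0, 0), (2, 0), (2, 3), (3, 0)], [(0, 0), (0, 3)], [6],
      [(0, 0, [3]), (5, 0, [3]), (8, 3, [0])]⟩,
    ⟨[(2, 4)], [(0, 0), (2, 0), (4, 0), (4, 3)], [(0, 3)], [7], [(0, 0, [3]), (8, 3, [0])]⟩]
  Ta := [((0, 1), 0, 1), ((0, 9), 0, 7), ((3, 2), 0, 4), ((3, 4), 0, 2), ((5, 6), 0, 5), ((5, 7),
    0, 6)]
  Tb := [((0, 1, 9), 0, 1, 7), ((1, 0, 2), 1, 0, 4), ((2, 1, 3), 4, 1, 0), ((3, 2, 4), 0, 4, 2),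
    ((4, 3, 6), 2, 0, 5), ((5, 6, 7), 0, 5, 6), ((6, 4, 5), 5, 2, 0), ((7, 5, 8), 6, 0, 3),
    ((8, 7, 9), 3, 6, 7), ((9, 0, 8), 7, 0, 3)]
  Tc := []
  Td := [((0, 3), (0, 1), 1), ((0, 3), (0, 9), 7), ((0, 3), (3, 2), 4), ((0, 3), (3, 4), 2), ((0,
    3), (5, 6), 5), ((0, 3), (5, 7), 6), ((3, 0), (8, 7), 6), ((3, 0), (8, 9), 7)]
  G := [[0, 0xe41eea1cee618e814e4, 0, 0xe41eea1c14, 0xee61e81a14], [0, 0,
    0x111e111ec211a11611ce2c8, 0x39ee145361981cc8, 0x5e9e12395e18c4], [0, 0, 0,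
    0x35641bee98cc18, 0x3561eeea988a14]]

noncomputable def n850 : Ent := ⟨e850, noF, [], [], [(7, 15, [360035742630636841211993100915356868655746945586763691011149825, 0])]⟩

def c850 : PLift (Cov.check n850.C.D v850 = true) := ⟨by decide +kernel⟩

def b850 : PLift (entF (fidx ts) 400 850 n850 = true) := ⟨by decide +kernel⟩

theorem g850 : GoodF (fidx ts) 400 850 := GoodF.ofV v850 n850 c850.down b850.down

/-- 458564:729/1 -/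
noncomputable def e851 : SCfg where
  D := {
    a := 6
    L := 10
    kp := 7
    inn := [(0, 1), (0, 2), (1, 0), (1, 2), (2, 0), (2, 1), (2, 3), (2, 4), (3, 2), (4, 2), (4, 5), (5,
      4)]
    mix := [(0, 0), (0, 1), (1, 1), (1, 2), (1, 3), (2, 0), (2, 3), (2, 4), (2, 5), (3, 4), (3, 5), (3,
      6), (3, 7), (4, 0), (4, 5), (4, 8), (4, 9), (5, 5), (5, 7), (5, 8)]
    cl := [0, 1, 6, 2, 0, 0, 7, 3, 4, 5]
    chq := [(1, 2), (2, 1), (3, 5), (5, 3)]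
    rng := [(0, 1), (0, 9), (1, 0), (1, 2), (2, 1), (2, 3), (3, 2), (3, 4), (4, 3), (4, 6), (5, 7), (6,
      4), (6, 7), (7, 5), (7, 6), (7, 8), (8, 7), (8, 9), (9, 0), (9, 8)]
    lev := [] }
  links := [[1, 2, 6, 7], [2, 0, 7, 8, 9], [6, 0, 1, 9, 10, 3, 11, 4], [11, 2, 10, 12, 13], [6, 2, 11, 5,
    14, 15], [14, 4, 11, 13]]
  P := {
    a := 6
    N := 16
    nb := [198, 901, 3675, 15364, 51300, 26640, 32917, 323, 642, 1286, 4620, 8252, 9224, 22568, 41008,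
      16464]
    tri := [(0, 1, 2), (0, 1, 7), (0, 2, 6), (0, 6, 7), (1, 2, 9), (1, 7, 8), (1, 8, 9), (2, 3, 10),
      (2, 3, 11), (2, 4, 6), (2, 4, 11), (2, 9, 10), (3, 10, 12), (3, 11, 13), (3, 12, 13), (4, 5,
      11), (4, 5, 14), (4, 6, 15), (4, 14, 15), (5, 11, 13), (5, 13, 14)]
    fin := [0, 1, 0, 0, 4, 4, 0, 1, 8, 9, 0, 0, 12, 4, 14, 15]
    chd := [(1, 9), (4, 15)]
    steps := [(0, 2), (0, 3), (0, 6), (0, 10), (0, 11), (1, 7), (4, 5), (4, 13)] }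
  rep := [0, 1, 9, 4, 14, 15, 8, 12]

noncomputable def v851 : Cov.CovD where
  P := 3
  N := 5
  pl := [2, 6, 8]
  lev := [⟨[], [], [(0, 1)], [], [(0, 0, []), (1, 1, [2])]⟩,
    ⟨[], [(0, 0), (0, 1), (0, 2)], [(1, 2)], [6], [(1, 1, [2]), (3, 2, [1])]⟩,
    ⟨[(0, 1)], [(0, 0), (0, 1), (0, 2), (1, 0), (1, 1), (1, 2)], [(0, 0), (0, 2)], [], [(0,
      0, []), (3, 2, [1]), (4, 0, []), (5, 0, [])]⟩,
    ⟨[(0, 2), (1, 2)], [(2, 0), (2, 2), (2, 3)], [(0, 0), (0, 3)], [7], [(4, 0, []), (5, 0,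
      []), (7, 3, [5])]⟩,
    ⟨[(0, 2), (1, 2), (2, 3)], [(0, 0), (2, 0), (2, 2), (2, 5), (3, 0)], [(0, 0), (0, 5)],
      [4], [(0, 0, []), (5, 0, []), (9, 5, [3])]⟩,
    ⟨[(2, 4)], [(2, 0), (3, 0), (3, 3), (4, 0), (4, 3), (4, 5)], [(0, 3)], [4], [(5, 0,
      []), (7, 3, [5])]⟩]
  Ta := [((0, 1), 0, 1), ((0, 9), 0, 5), ((4, 3), 0, 2), ((4, 6), 0, 7), ((5, 7), 0, 3)]
  Tb := [((0, 1, 9), 0, 1, 5), ((1, 0, 2), 1, 0, 6), ((2, 1, 3), 6, 1, 2), ((3, 2, 4), 2, 6, 0),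
    ((4, 3, 6), 0, 2, 7), ((6, 4, 7), 7, 0, 3), ((7, 5, 6), 3, 0, 7), ((7, 5, 8), 3, 0, 4),
    ((7, 6, 8), 3, 7, 4), ((8, 7, 9), 4, 3, 5), ((9, 0, 8), 5, 0, 4)]
  Tc := []
  Td := [((1, 2), (1, 0), 0), ((1, 2), (1, 2), 6), ((2, 1), (3, 2), 6), ((2, 1), (3, 4), 0), ((3,
    5), (7, 5), 0), ((3, 5), (7, 6), 7), ((3, 5), (7, 8), 4), ((5, 3), (9, 0), 0), ((5, 3),
    (9, 8), 4)]
  G := [[0, 0x4164891e68312eec94145ea26e81a18acc2, 0, 0x819e1ca312ee41262aa89c54cc63161468d8,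
    0x122819e145e63cea312e281ce519eca94], [0, 0, 0x222891e315e1ace6916145e1a2ee888ac4,
    0x1448a1e35a132eec916541e1a2ee588cc1, 0x222891e641e31cea19614ce1a2ee888a94], [0, 0, 0,
    0xa464cea4e8ca62aac64ce6a2e68ace8c52, 0x2228ace64ce6acea6a2e28ace64ceca94]]

noncomputable def n851 : Ent := ⟨e851, noF, [], [], []⟩

def c851 : PLift (Cov.check n851.C.D v851 = true) := ⟨by decide +kernel⟩

def b851 : PLift (entF (fidx ts) 400 851 n851 = true) := ⟨by decide +kernel⟩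

theorem g851 : GoodF (fidx ts) 400 851 := GoodF.ofV v851 n851 c851.down b851.down

/-- 458564:729 -/
noncomputable def e852 : SCfg where
  D := {
    a := 6
    L := 11
    kp := 8
    inn := [(0, 1), (0, 2), (1, 0), (1, 2), (2, 0), (2, 1), (2, 3), (2, 4), (3, 2), (4, 2), (4, 5), (5,
      4)]
    mix := [(0, 0), (0, 1), (1, 1), (1, 2), (1, 3), (2, 0), (2, 3), (2, 4), (2, 5), (3, 4), (3, 5), (3,
      6), (3, 7), (4, 0), (4, 5), (4, 8), (4, 9), (5, 5), (5, 8), (5, 10)]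
    cl := [0, 1, 6, 2, 0, 0, 7, 8, 3, 4, 5]
    chq := [(1, 2), (2, 1), (4, 5), (5, 4)]
    rng := [(0, 1), (0, 9), (1, 0), (1, 2), (2, 1), (2, 3), (3, 2), (3, 4), (4, 3), (4, 6), (5, 7), (5,
      10), (6, 4), (6, 7), (7, 5), (7, 6), (8, 9), (8, 10), (9, 0), (9, 8), (10, 5), (10, 8)]
    lev := [] }
  links := [[1, 2, 6, 7], [2, 0, 7, 8, 9], [6, 0, 1, 9, 10, 3, 11, 4], [11, 2, 10, 12, 13], [6, 2, 11, 5,
    14, 15], [14, 4, 11, 16]]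
  P := {
    a := 6
    N := 17
    nb := [198, 901, 3675, 15364, 51300, 83984, 32917, 323, 642, 1286, 4620, 73788, 9224, 6152, 98352,
      16464, 18464]
    tri := [(0, 1, 2), (0, 1, 7), (0, 2, 6), (0, 6, 7), (1, 2, 9), (1, 7, 8), (1, 8, 9), (2, 3, 10),
      (2, 3, 11), (2, 4, 6), (2, 4, 11), (2, 9, 10), (3, 10, 12), (3, 11, 13), (3, 12, 13), (4, 5,
      11), (4, 5, 14), (4, 6, 15), (4, 14, 15), (5, 11, 16), (5, 14, 16)]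
    fin := [0, 1, 0, 0, 4, 4, 0, 1, 8, 9, 0, 0, 12, 13, 14, 15, 4]
    chd := [(1, 9), (15, 4)]
    steps := [(0, 2), (0, 3), (0, 6), (0, 10), (0, 11), (1, 7), (4, 5), (4, 16)] }
  rep := [0, 1, 9, 14, 15, 4, 8, 12, 13]

noncomputable def v852 : Cov.CovD where
  P := 3
  N := 6
  pl := [2, 6, 7, 8]
  lev := [⟨[], [], [(0, 1)], [], [(0, 0, []), (1, 1, [2])]⟩,
    ⟨[], [(0, 0), (0, 1), (0, 2)], [(1, 2)], [6], [(1, 1, [2]), (3, 2, [1])]⟩,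
    ⟨[(0, 1)], [(0, 0), (0, 1), (0, 2), (1, 0), (1, 1), (1, 2)], [(0, 0), (0, 2)], [], [(0,
      0, []), (3, 2, [1]), (4, 0, []), (5, 0, [])]⟩,
    ⟨[(0, 2), (1, 2)], [(2, 0), (2, 2)], [(0, 0)], [7, 8], [(4, 0, []), (5, 0, [])]⟩,
    ⟨[(0, 2), (1, 2), (2, 3)], [(0, 0), (2, 0), (2, 2), (2, 4), (3, 0)], [(0, 0), (0, 4)],
      [3], [(0, 0, []), (5, 0, []), (9, 4, [5])]⟩,
    ⟨[(2, 4)], [(2, 0), (3, 0), (4, 0), (4, 4), (4, 5)], [(0, 5)], [3], [(5, 0, []), (10,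
      5, [4])]⟩]
  Ta := [((0, 1), 0, 1), ((0, 9), 0, 4), ((4, 3), 0, 2), ((4, 6), 0, 7), ((5, 7), 0, 8), ((5,
    10), 0, 5)]
  Tb := [((0, 1, 9), 0, 1, 4), ((1, 0, 2), 1, 0, 6), ((2, 1, 3), 6, 1, 2), ((3, 2, 4), 2, 6, 0),
    ((4, 3, 6), 0, 2, 7), ((5, 7, 10), 0, 8, 5), ((6, 4, 7), 7, 0, 8), ((7, 5, 6), 8, 0, 7),
    ((8, 9, 10), 3, 4, 5), ((9, 0, 8), 4, 0, 3), ((10, 5, 8), 5, 0, 3)]
  Tc := []
  Td := [((1, 2), (1, 0), 0), ((1, 2), (1, 2), 6), ((2, 1), (3, 2), 6), ((2, 1), (3, 4), 0), ((4,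
    5), (9, 0), 0), ((4, 5), (9, 8), 3), ((5, 4), (10, 5), 0), ((5, 4), (10, 8), 3)]
  G := [[0, 0x9441a5e51a319eeca16591e31cee588cc2, 0, 0x1ace15a61cee34469164319e5813ceec98,
    0x52213ce619e1aceaa56691e5a1ee188a94], [0, 0, 0x31ce69a6a1ee1446916213ce31ce68eac8,
    0x14431ce3ca619eec1c6691e591ee388cc2, 0x9163c66319e6818ea196591e1a5ee388a94], [0, 0, 0,
    0xac66ace6acee688aa46aceac6e6ca68ac54, 0xac626ace6ace68ea6ace6ace66ace8a94]]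

noncomputable def n852 : Ent := ⟨e852, noF, [], [], [(13, 16, [1580044410770988437309982408355971841652082177953823432505692598273, 0])]⟩

def c852 : PLift (Cov.check n852.C.D v852 = true) := ⟨by decide +kernel⟩

def b852 : PLift (entF (fidx ts) 400 852 n852 = true) := ⟨by decide +kernel⟩

theorem g852 : GoodF (fidx ts) 400 852 := GoodF.ofV v852 n852 c852.down b852.down

/-- 458564:730/2 -/
noncomputable def e853 : SCfg where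
  D := {
    a := 6
    L := 9
    kp := 6
    inn := [(0, 1), (0, 2), (1, 0), (1, 2), (2, 0), (2, 1), (2, 3), (2, 4), (3, 2), (4, 2), (4, 5), (5,
      4)]
    mix := [(0, 0), (0, 1), (1, 1), (1, 2), (1, 3), (2, 0), (2, 3), (2, 4), (2, 5), (3, 4), (3, 5), (3,
      6), (3, 7), (4, 0), (4, 5), (4, 7), (4, 8), (5, 0), (5, 1), (5, 8)]
    cl := [0, 3, 5, 1, 0, 0, 6, 2, 4]
    chq := [(0, 4), (1, 3), (3, 1), (4, 0)]
    rng := [(0, 1), (1, 0), (1, 2), (1, 8), (2, 1), (2, 3), (3, 2), (3, 4), (4, 3), (4, 6), (5, 7), (6,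
      4), (6, 7), (7, 5), (7, 6), (7, 8), (8, 1), (8, 7)]
    lev := [] }
  links := [[1, 2, 6, 7], [2, 0, 7, 8, 9], [6, 0, 1, 9, 10, 3, 11, 4], [11, 2, 10, 12, 13], [6, 2, 11,
    13, 14, 5], [6, 4, 14, 7]]
  P := {
    a := 6
    N := 15
    nb := [198, 901, 3675, 15364, 26724, 16592, 181, 16739, 642, 1286, 4620, 8220, 9224, 22552, 8368]
    tri := [(0, 1, 2), (0, 1, 7), (0, 2, 6), (0, 6, 7), (1, 2, 9), (1, 7, 8), (1, 8, 9), (2, 3, 10),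
      (2, 3, 11), (2, 4, 6), (2, 4, 11), (2, 9, 10), (3, 10, 12), (3, 11, 13), (3, 12, 13), (4, 5,
      6), (4, 5, 14), (4, 11, 13), (4, 13, 14), (5, 6, 7), (5, 7, 14)]
    fin := [0, 1, 0, 0, 0, 0, 0, 1, 8, 9, 0, 0, 12, 13, 14]
    chd := [(0, 14), (1, 9)]
    steps := [(0, 2), (0, 3), (0, 6), (0, 5), (0, 10), (0, 11), (0, 4), (1, 7)] }
  rep := [0, 9, 13, 1, 14, 8, 12]

noncomputable def v853 : Cov.CovD where
  P := 3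
  N := 4
  pl := [2, 6, 7]
  lev := [⟨[], [], [(0, 3)], [], [(0, 0, [4]), (1, 3, [1])]⟩,
    ⟨[], [(0, 0), (0, 1), (0, 3)], [(1, 3)], [5], [(1, 3, [1]), (3, 1, [3])]⟩,
    ⟨[(0, 1)], [(0, 0), (0, 1), (0, 3), (1, 0), (1, 1), (1, 3)], [(0, 0), (0, 1)], [], [(0,
      0, [4]), (3, 1, [3]), (4, 0, [4]), (5, 0, [4])]⟩,
    ⟨[(0, 2), (1, 2)], [(2, 0), (2, 1)], [(0, 0)], [2, 6], [(4, 0, [4]), (5, 0, [4])]⟩,
    ⟨[(0, 2), (1, 2), (2, 3)], [(0, 0), (2, 0), (2, 1), (2, 4), (3, 0)], [(0, 0), (0, 4)],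
      [2], [(0, 0, [4]), (5, 0, [4]), (8, 4, [0])]⟩,
    ⟨[(2, 4)], [(0, 0), (0, 3), (1, 3), (2, 0), (4, 0), (4, 3), (4, 4)], [(0, 3), (0, 4),
      (3, 4)], [], [(0, 0, [4]), (1, 3, [1]), (8, 4, [0])]⟩]
  Ta := [((0, 1), 0, 3), ((4, 3), 0, 1), ((4, 6), 0, 6), ((5, 7), 0, 2)]
  Tb := [((1, 0, 2), 3, 0, 5), ((1, 0, 8), 3, 0, 4), ((1, 2, 8), 3, 5, 4), ((2, 1, 3), 5, 3, 1),
    ((3, 2, 4), 1, 5, 0), ((4, 3, 6), 0, 1, 6), ((6, 4, 7), 6, 0, 2), ((7, 5, 6), 2, 0, 6),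
    ((7, 5, 8), 2, 0, 4), ((7, 6, 8), 2, 6, 4), ((8, 1, 7), 4, 3, 2)]
  Tc := []
  Td := [((0, 4), (0, 1), 3), ((0, 4), (4, 3), 1), ((0, 4), (4, 6), 6), ((0, 4), (5, 7), 2), ((1,
    3), (3, 2), 5), ((1, 3), (3, 4), 0), ((3, 1), (1, 0), 0), ((3, 1), (1, 2), 5), ((3, 1),
    (1, 8), 4), ((4, 0), (8, 1), 3), ((4, 0), (8, 7), 2)]
  G := [[0, 0, 0, 0x4424cc8424482c88cc2884442ecca2c8cd6, 0x86a82aa442a46aa4c6ac6aa4d2], [0,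
    0x81c18c1446811c14cc2424421c18cc2e, 0, 0x14481c88cc4424cc188c14421c38ccd2,
    0x81a81aa414a14aa412a212a8cd2], [0, 0, 0x141288e41441218ac141218e4d2,
    0x24482c88cc4424cc288c13c4a1c8cd2, 0x81a81aa441a14aa412a12aa4d2]]

noncomputable def n853 : Ent := ⟨e853, noF, [], [], []⟩

def c853 : PLift (Cov.check n853.C.D v853 = true) := ⟨by decide +kernel⟩

def b853 : PLift (entF (fidx ts) 400 853 n853 = true) := ⟨by decide +kernel⟩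

theorem g853 : GoodF (fidx ts) 400 853 := GoodF.ofV v853 n853 c853.down b853.down

/-- 458564:730/1 -/
noncomputable def e854 : SCfg where
  D := {
    a := 6
    L := 10
    kp := 7
    inn := [(0, 1), (0, 2), (1, 0), (1, 2), (2, 0), (2, 1), (2, 3), (2, 4), (3, 2), (4, 2), (4, 5), (5,
      4)]
    mix := [(0, 0), (0, 1), (1, 1), (1, 2), (1, 3), (2, 0), (2, 3), (2, 4), (2, 5), (3, 4), (3, 5), (3,
      6), (3, 7), (4, 0), (4, 5), (4, 8), (4, 9), (5, 0), (5, 1), (5, 9)]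
    cl := [0, 3, 2, 1, 0, 0, 5, 6, 7, 4]
    chq := [(0, 4), (1, 3), (3, 1), (4, 0)]
    rng := [(0, 1), (1, 0), (1, 2), (1, 9), (2, 1), (2, 3), (3, 2), (3, 4), (4, 3), (4, 6), (5, 7), (5,
      8), (6, 4), (6, 7), (7, 5), (7, 6), (8, 5), (8, 9), (9, 1), (9, 8)]
    lev := [] }
  links := [[1, 2, 6, 7], [2, 0, 7, 8, 9], [6, 0, 1, 9, 10, 3, 11, 4], [11, 2, 10, 12, 13], [6, 2, 11,
    14, 15, 5], [6, 4, 15, 7]]
  P := {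
    a := 6
    N := 16
    nb := [198, 901, 3675, 15364, 51300, 32976, 181, 33123, 642, 1286, 4620, 24604, 9224, 6152, 34832,
      16560]
    tri := [(0, 1, 2), (0, 1, 7), (0, 2, 6), (0, 6, 7), (1, 2, 9), (1, 7, 8), (1, 8, 9), (2, 3, 10),
      (2, 3, 11), (2, 4, 6), (2, 4, 11), (2, 9, 10), (3, 10, 12), (3, 11, 13), (3, 12, 13), (4, 5,
      6), (4, 5, 15), (4, 11, 14), (4, 14, 15), (5, 6, 7), (5, 7, 15)]
    fin := [0, 1, 0, 0, 0, 0, 0, 1, 8, 9, 0, 0, 12, 13, 14, 15]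
    chd := [(0, 15), (1, 9)]
    steps := [(0, 2), (0, 3), (0, 4), (0, 6), (0, 5), (0, 10), (0, 11), (1, 7)] }
  rep := [0, 9, 8, 1, 15, 12, 13, 14]

noncomputable def v854 : Cov.CovD where
  P := 3
  N := 5
  pl := [2, 6, 7, 8]
  lev := [⟨[], [], [(0, 3)], [], [(0, 0, [4]), (1, 3, [1])]⟩,
    ⟨[], [(0, 0), (0, 1), (0, 3)], [(1, 3)], [2], [(1, 3, [1]), (3, 1, [3])]⟩,
    ⟨[(0, 1)], [(0, 0), (0, 1), (0, 3), (1, 0), (1, 1), (1, 3)], [(0, 0), (0, 1)], [], [(0,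
      0, [4]), (3, 1, [3]), (4, 0, [4]), (5, 0, [4])]⟩,
    ⟨[(0, 2), (1, 2)], [(2, 0), (2, 1)], [(0, 0)], [5, 6], [(4, 0, [4]), (5, 0, [4])]⟩,
    ⟨[(0, 2), (1, 2), (2, 3)], [(0, 0), (2, 0), (2, 1), (2, 4), (3, 0)], [(0, 0), (0, 4)],
      [7], [(0, 0, [4]), (5, 0, [4]), (9, 4, [0])]⟩,
    ⟨[(2, 4)], [(0, 0), (0, 3), (1, 3), (2, 0), (4, 0), (4, 3), (4, 4)], [(0, 3), (0, 4),
      (3, 4)], [], [(0, 0, [4]), (1, 3, [1]), (9, 4, [0])]⟩]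
  Ta := [((0, 1), 0, 3), ((4, 3), 0, 1), ((4, 6), 0, 5), ((5, 7), 0, 6), ((5, 8), 0, 7)]
  Tb := [((1, 0, 2), 3, 0, 2), ((1, 0, 9), 3, 0, 4), ((1, 2, 9), 3, 2, 4), ((2, 1, 3), 2, 3, 1),
    ((3, 2, 4), 1, 2, 0), ((4, 3, 6), 0, 1, 5), ((5, 7, 8), 0, 6, 7), ((6, 4, 7), 5, 0, 6),
    ((7, 5, 6), 6, 0, 5), ((8, 5, 9), 7, 0, 4), ((9, 1, 8), 4, 3, 7)]
  Tc := []
  Td := [((0, 4), (0, 1), 3), ((0, 4), (4, 3), 1), ((0, 4), (4, 6), 5), ((0, 4), (5, 7), 6), ((0,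
    4), (5, 8), 7), ((1, 3), (3, 2), 2), ((1, 3), (3, 4), 0), ((3, 1), (1, 0), 0), ((3, 1),
    (1, 2), 2), ((3, 1), (1, 9), 4), ((4, 0), (9, 1), 3), ((4, 0), (9, 8), 7)]
  G := [[0, 0, 0xa448aae8ea8aeeec466642e642ee688cc2, 0xa448a2e82a8a2eec426642e642ee688cc2,
    0x4448a2e82a8a2eec4e66eee64eee688c92], [0, 0x111e2811e111ec68122141e141e11cea4c,
    0x141966891e82a88ec426341e142ee188cc2, 0x132e132e6312e8c12, 0x1b6395e359eed88c12], [0, 0,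
    0x144891e82a192eec426541e145ee188cc2, 0x312e4312e312eac12, 0x536537e359ee988c12]]

noncomputable def n854 : Ent := ⟨e854, noF, [], [], [(13, 14, [385746751338780685620664494392815470296102193487288376375988225, 0])]⟩

def c854 : PLift (Cov.check n854.C.D v854 = true) := ⟨by decide +kernel⟩

def b854 : PLift (entF (fidx ts) 400 854 n854 = true) := ⟨by decide +kernel⟩

theorem g854 : GoodF (fidx ts) 400 854 := GoodF.ofV v854 n854 c854.down b854.down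

/-- 458564:730/3 -/
noncomputable def e855 : SCfg where
  D := {
    a := 6
    L := 10
    kp := 7
    inn := [(0, 1), (0, 2), (1, 0), (1, 2), (2, 0), (2, 1), (2, 3), (2, 4), (3, 2), (4, 2), (4, 5), (5,
      4)]
    mix := [(0, 0), (0, 1), (1, 1), (1, 2), (1, 3), (2, 0), (2, 3), (2, 4), (2, 5), (3, 4), (3, 5), (3,
      6), (3, 7), (4, 0), (4, 5), (4, 7), (4, 8), (5, 0), (5, 8), (5, 9)]
    cl := [0, 3, 6, 1, 0, 0, 7, 2, 4, 5]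
    chq := [(1, 3), (2, 5), (3, 1), (5, 2)]
    rng := [(0, 1), (0, 9), (1, 0), (1, 2), (2, 1), (2, 3), (3, 2), (3, 4), (4, 3), (4, 6), (5, 7), (6,
      4), (6, 7), (7, 5), (7, 6), (7, 8), (8, 7), (8, 9), (9, 0), (9, 8)]
    lev := [] }
  links := [[1, 2, 6, 7], [2, 0, 7, 8, 9], [6, 0, 1, 9, 10, 3, 11, 4], [11, 2, 10, 12, 13], [6, 2, 11,
    13, 14, 5], [6, 4, 14, 15]]
  P := {
    a := 6
    N := 16
    nb := [198, 901, 3675, 15364, 26724, 49232, 32949, 323, 642, 1286, 4620, 8220, 9224, 22552, 41008,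
      16480]
    tri := [(0, 1, 2), (0, 1, 7), (0, 2, 6), (0, 6, 7), (1, 2, 9), (1, 7, 8), (1, 8, 9), (2, 3, 10),
      (2, 3, 11), (2, 4, 6), (2, 4, 11), (2, 9, 10), (3, 10, 12), (3, 11, 13), (3, 12, 13), (4, 5,
      6), (4, 5, 14), (4, 11, 13), (4, 13, 14), (5, 6, 15), (5, 14, 15)]
    fin := [0, 1, 0, 0, 4, 4, 0, 1, 8, 9, 0, 0, 12, 4, 14, 15]
    chd := [(1, 9), (4, 15)]
    steps := [(0, 2), (0, 3), (0, 6), (0, 10), (0, 11), (1, 7), (4, 5), (4, 13)] }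
  rep := [0, 9, 4, 1, 14, 15, 8, 12]

noncomputable def v855 : Cov.CovD where
  P := 3
  N := 5
  pl := [2, 6, 8]
  lev := [⟨[], [], [(0, 3)], [], [(0, 0, []), (1, 3, [1])]⟩,
    ⟨[], [(0, 0), (0, 1), (0, 3)], [(1, 3)], [6], [(1, 3, [1]), (3, 1, [3])]⟩,
    ⟨[(0, 1)], [(0, 0), (0, 1), (0, 3), (1, 0), (1, 1), (1, 3)], [(0, 0), (0, 1)], [], [(0,
      0, []), (3, 1, [3]), (4, 0, []), (5, 0, [])]⟩,
    ⟨[(0, 2), (1, 2)], [(2, 0), (2, 1), (2, 2)], [(0, 0), (0, 2)], [7], [(4, 0, []), (5, 0,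
      []), (7, 2, [5])]⟩,
    ⟨[(0, 2), (1, 2), (2, 3)], [(0, 0), (2, 0), (2, 1), (2, 2), (3, 0), (3, 2)], [(0, 0),
      (0, 2)], [4], [(0, 0, []), (5, 0, []), (7, 2, [5])]⟩,
    ⟨[(2, 4)], [(0, 0), (2, 0), (4, 0), (4, 2), (4, 5)], [(0, 5)], [4], [(0, 0, []), (9, 5,
      [2])]⟩]
  Ta := [((0, 1), 0, 3), ((0, 9), 0, 5), ((4, 3), 0, 1), ((4, 6), 0, 7), ((5, 7), 0, 2)]
  Tb := [((0, 1, 9), 0, 3, 5), ((1, 0, 2), 3, 0, 6), ((2, 1, 3), 6, 3, 1), ((3, 2, 4), 1, 6, 0),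
    ((4, 3, 6), 0, 1, 7), ((6, 4, 7), 7, 0, 2), ((7, 5, 6), 2, 0, 7), ((7, 5, 8), 2, 0, 4),
    ((7, 6, 8), 2, 7, 4), ((8, 7, 9), 4, 2, 5), ((9, 0, 8), 5, 0, 4)]
  Tc := []
  Td := [((1, 3), (3, 2), 6), ((1, 3), (3, 4), 0), ((2, 5), (7, 5), 0), ((2, 5), (7, 6), 7), ((2,
    5), (7, 8), 4), ((3, 1), (1, 0), 0), ((3, 1), (1, 2), 6), ((5, 2), (9, 0), 0), ((5, 2),
    (9, 8), 4)]
  G := [[0, 0, 0, 0x644e2ca8cc242ecce88c644e2ca8ccd2, 0xc6a4eaa4e4a4eaa4e4a4eaa4d2], [0,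
    0x21c28c14468e2ca6cc26ac2ecc269, 0, 0x24412c18cc2412cc188c21c412c8cd2,
    0x41a14aa441a14aa414a14aa4d2], [0, 0, 0x141218e411a11aa4116116c8d2,
    0x24421c18cc2412cc188c2421cc188cd2, 0x41a41aa441a14aa441a41aa4d2]]

noncomputable def n855 : Ent := ⟨e855, noF, [], [], [(7, 15, [360035742630636841211993100915356868655746945586763691011166209, 0])]⟩

def c855 : PLift (Cov.check n855.C.D v855 = true) := ⟨by decide +kernel⟩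

def b855 : PLift (entF (fidx ts) 400 855 n855 = true) := ⟨by decide +kernel⟩

theorem g855 : GoodF (fidx ts) 400 855 := GoodF.ofV v855 n855 c855.down b855.down

/-- 458564:730 -/
noncomputable def e856 : SCfg where
  D := {
    a := 6
    L := 11
    kp := 8
    inn := [(0, 1), (0, 2), (1, 0), (1, 2), (2, 0), (2, 1), (2, 3), (2, 4), (3, 2), (4, 2), (4, 5), (5,
      4)]
    mix := [(0, 0), (0, 1), (1, 1), (1, 2), (1, 3), (2, 0), (2, 3), (2, 4), (2, 5), (3, 4), (3, 5), (3,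
      6), (3, 7), (4, 0), (4, 5), (4, 8), (4, 9), (5, 0), (5, 9), (5, 10)]
    cl := [0, 1, 6, 2, 0, 0, 7, 8, 4, 3, 5]
    chq := [(1, 2), (2, 1), (4, 5), (5, 4)]
    rng := [(0, 1), (0, 10), (1, 0), (1, 2), (2, 1), (2, 3), (3, 2), (3, 4), (4, 3), (4, 6), (5, 7),
      (5, 8), (6, 4), (6, 7), (7, 5), (7, 6), (8, 5), (8, 9), (9, 8), (9, 10), (10, 0), (10, 9)]
    lev := [] }
  links := [[1, 2, 6, 7], [2, 0, 7, 8, 9], [6, 0, 1, 9, 10, 3, 11, 4], [11, 2, 10, 12, 13], [6, 2, 11,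
    14, 15, 5], [6, 4, 15, 16]]
  P := {
    a := 6
    N := 17
    nb := [198, 901, 3675, 15364, 51300, 98384, 65717, 323, 642, 1286, 4620, 24604, 9224, 6152, 34832,
      81968, 32864]
    tri := [(0, 1, 2), (0, 1, 7), (0, 2, 6), (0, 6, 7), (1, 2, 9), (1, 7, 8), (1, 8, 9), (2, 3, 10),
      (2, 3, 11), (2, 4, 6), (2, 4, 11), (2, 9, 10), (3, 10, 12), (3, 11, 13), (3, 12, 13), (4, 5,
      6), (4, 5, 15), (4, 11, 14), (4, 14, 15), (5, 6, 16), (5, 15, 16)]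
    fin := [0, 1, 0, 0, 4, 4, 0, 1, 8, 9, 0, 0, 12, 13, 4, 15, 16]
    chd := [(1, 9), (4, 16)]
    steps := [(0, 2), (0, 3), (0, 6), (0, 10), (0, 11), (1, 7), (4, 5), (4, 14)] }
  rep := [0, 1, 9, 15, 4, 16, 8, 12, 13]

noncomputable def v856 : Cov.CovD where
  P := 3
  N := 6
  pl := [2, 6, 7, 9]
  lev := [⟨[], [], [(0, 1)], [], [(0, 0, []), (1, 1, [2])]⟩,
    ⟨[], [(0, 0), (0, 1), (0, 2)], [(1, 2)], [6], [(1, 1, [2]), (3, 2, [1])]⟩,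
    ⟨[(0, 1)], [(0, 0), (0, 1), (0, 2), (1, 0), (1, 1), (1, 2)], [(0, 0), (0, 2)], [], [(0,
      0, []), (3, 2, [1]), (4, 0, []), (5, 0, [])]⟩,
    ⟨[(0, 2), (1, 2)], [(2, 0), (2, 2)], [(0, 0)], [7, 8], [(4, 0, []), (5, 0, [])]⟩,
    ⟨[(0, 2), (1, 2), (2, 3)], [(0, 0), (2, 0), (2, 2), (2, 4), (3, 0)], [(0, 0), (0, 4)],
      [3], [(0, 0, []), (5, 0, []), (8, 4, [5])]⟩,
    ⟨[(2, 4)], [(0, 0), (2, 0), (4, 0), (4, 4), (4, 5)], [(0, 5)], [3], [(0, 0, []), (10,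
      5, [4])]⟩]
  Ta := [((0, 1), 0, 1), ((0, 10), 0, 5), ((4, 3), 0, 2), ((4, 6), 0, 7), ((5, 7), 0, 8), ((5,
    8), 0, 4)]
  Tb := [((0, 1, 10), 0, 1, 5), ((1, 0, 2), 1, 0, 6), ((2, 1, 3), 6, 1, 2), ((3, 2, 4), 2, 6, 0),
    ((4, 3, 6), 0, 2, 7), ((5, 7, 8), 0, 8, 4), ((6, 4, 7), 7, 0, 8), ((7, 5, 6), 8, 0, 7),
    ((8, 5, 9), 4, 0, 3), ((9, 8, 10), 3, 4, 5), ((10, 0, 9), 5, 0, 3)]
  Tc := []
  Td := [((1, 2), (1, 0), 0), ((1, 2), (1, 2), 6), ((2, 1), (3, 2), 6), ((2, 1), (3, 4), 0), ((4,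
    5), (8, 5), 0), ((4, 5), (8, 9), 3), ((5, 4), (10, 0), 0), ((5, 4), (10, 9), 3)]
  G := [[0, 0xa446ace6ca6aceecac66ace6acee688cc2, 0, 0x6acec26acee6ac466ace6ca6aceea44698,
    0xc226ace6ace6aceac26acea6ac6aceca94], [0, 0, 0x1a5e586a1ee9164652231ce135e1aceac8,
    0x12126a1ee69c59cc65a1e39a591ee144698, 0x1961c66691e6838ea12231ce319e69cea94], [0, 0, 0,
    0x1c691663ca68a1438ce619e69a1a5ee144658, 0x591e135e5ace2122619e591e59cea912288c]]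

noncomputable def n856 : Ent := ⟨e856, noF, [], [], [(7, 16, [1580044410770988437309982408355971841652082177953823432505692610561, 0]), (13, 14, [1685382413448253767852309107433119732572617628602273068445368414209, 0])]⟩

def c856 : PLift (Cov.check n856.C.D v856 = true) := ⟨by decide +kernel⟩

def b856 : PLift (entF (fidx ts) 400 856 n856 = true) := ⟨by decide +kernel⟩

theorem g856 : GoodF (fidx ts) 400 856 := GoodF.ofV v856 n856 c856.down b856.down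

/-- 458566:731/2 -/
noncomputable def e857 : SCfg where
  D := {
    a := 6
    L := 9
    kp := 6
    inn := [(0, 1), (0, 2), (1, 0), (1, 2), (2, 0), (2, 1), (2, 3), (2, 5), (3, 2), (3, 4), (3, 5), (4,
      3), (4, 5), (5, 2), (5, 3), (5, 4)]
    mix := [(0, 0), (0, 1), (1, 1), (1, 2), (1, 3), (2, 0), (2, 3), (2, 4), (2, 5), (3, 4), (3, 6), (4,
      1), (4, 2), (4, 6), (4, 7), (5, 5), (5, 7), (5, 8)]
    cl := [0, 1, 5, 0, 4, 2, 3, 3, 6]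
    chq := [(2, 4), (4, 2), (4, 6), (6, 4)]
    rng := [(0, 1), (0, 5), (1, 0), (1, 2), (1, 6), (2, 1), (2, 3), (2, 7), (3, 2), (3, 4), (4, 3), (4,
      6), (5, 0), (5, 8), (6, 1), (6, 4), (7, 2), (7, 8), (8, 5), (8, 7)]
    lev := [] }
  links := [[1, 2, 6, 7], [2, 0, 7, 8, 9], [6, 0, 1, 9, 10, 3, 5, 11], [5, 2, 10, 12, 4], [5, 3, 12, 7,
    8, 13], [11, 2, 3, 4, 13, 14]]
  P := {
    a := 6
    N := 15
    nb := [198, 901, 3691, 5172, 12712, 26652, 2181, 4435, 8850, 1286, 4620, 16484, 1176, 16688,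
      10272]
    tri := [(0, 1, 2), (0, 1, 7), (0, 2, 6), (0, 6, 7), (1, 2, 9), (1, 7, 8), (1, 8, 9), (2, 3, 5), (2,
      3, 10), (2, 5, 11), (2, 6, 11), (2, 9, 10), (3, 4, 5), (3, 4, 12), (3, 10, 12), (4, 5, 13),
      (4, 7, 8), (4, 7, 12), (4, 8, 13), (5, 11, 14), (5, 13, 14)]
    fin := [0, 0, 0, 3, 4, 3, 0, 7, 8, 0, 3, 11, 4, 4, 14]
    chd := [(3, 11), (3, 14)]
    steps := [(0, 1), (0, 2), (0, 6), (0, 9), (3, 5), (3, 10), (4, 12), (4, 13)] }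
  rep := [0, 7, 11, 4, 3, 8, 14]

noncomputable def v857 : Cov.CovD where
  P := 3
  N := 4
  pl := [1, 2]
  lev := [⟨[], [], [], [1], [(0, 0, [])]⟩,
    ⟨[], [(0, 0)], [], [1, 5], [(3, 0, [])]⟩,
    ⟨[(0, 1)], [(0, 0), (0, 2), (0, 4), (1, 0), (1, 2), (1, 4)], [(0, 0), (0, 2), (0, 4),
      (2, 4)], [], [(0, 0, []), (3, 0, []), (4, 4, [2, 6]), (5, 2, [4])]⟩,
    ⟨[(0, 2), (1, 2)], [(2, 0), (2, 2), (2, 3), (2, 4)], [(3, 4)], [], [(4, 4, [2, 6]), (6,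
      3, [])]⟩,
    ⟨[(2, 3)], [(3, 3), (3, 4)], [(3, 3)], [1, 5], [(6, 3, []), (7, 3, [])]⟩,
    ⟨[(0, 2), (1, 2), (2, 3), (2, 4), (3, 4)], [(2, 0), (2, 2), (2, 3), (2, 4), (2, 6), (3,
      2), (3, 3), (3, 4), (3, 6), (4, 2), (4, 3), (4, 6)], [(2, 3), (2, 6), (3, 6)], [], [(5,
      2, [4]), (7, 3, []), (8, 6, [4])]⟩]
  Ta := [((0, 1), 0, 1), ((0, 5), 0, 2), ((3, 2), 0, 5), ((3, 4), 0, 4), ((6, 1), 3, 1), ((6, 4),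
    3, 4), ((7, 2), 3, 5), ((7, 8), 3, 6)]
  Tb := [((0, 1, 5), 0, 1, 2), ((1, 0, 2), 1, 0, 5), ((1, 0, 6), 1, 0, 3), ((1, 2, 6), 1, 5, 3),
    ((2, 1, 3), 5, 1, 0), ((2, 1, 7), 5, 1, 3), ((2, 3, 7), 5, 0, 3), ((3, 2, 4), 0, 5, 4),
    ((4, 3, 6), 4, 0, 3), ((5, 0, 8), 2, 0, 6), ((6, 1, 4), 3, 1, 4), ((7, 2, 8), 3, 5, 6),
    ((8, 5, 7), 6, 2, 3)]
  Tc := [(4, 2, 6)]
  Td := [((2, 4), (5, 0), 0), ((2, 4), (5, 8), 6), ((4, 2), (4, 3), 0), ((4, 2), (4, 6), 3), ((4,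
    6), (4, 3), 0), ((4, 6), (4, 6), 3), ((6, 4), (8, 5), 2), ((6, 4), (8, 7), 3)]
  G := [[0, 0x44c198c1c94618861ca2, 0x242821d4cc413618, 0x41c41318c813c14, 0x11c21511c813a18],
    [0, 0x9824542844a18961ce2, 0x226d1888d1a14, 0x444d1c89d2c18, 0x2a2d1883d4a14], [0, 0, 0,
    0x485453989896c145884813cc1, 0x2294189885a242295195843ac4], [0, 0, 0,
    0x4592d82cd1528851cc1, 0x2394a84a225131945ac4]]

noncomputable def n857 : Ent := ⟨e857, noF, [], [], []⟩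

def c857 : PLift (Cov.check n857.C.D v857 = true) := ⟨by decide +kernel⟩

def b857 : PLift (entF (fidx ts) 400 857 n857 = true) := ⟨by decide +kernel⟩

theorem g857 : GoodF (fidx ts) 400 857 := GoodF.ofV v857 n857 c857.down b857.down

/-- 458566:731/1 -/
noncomputable def e858 : SCfg where
  D := {
    a := 6
    L := 10
    kp := 7
    inn := [(0, 1), (0, 2), (1, 0), (1, 2), (2, 0), (2, 1), (2, 3), (2, 5), (3, 2), (3, 4), (3, 5), (4,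
      3), (4, 5), (5, 2), (5, 3), (5, 4)]
    mix := [(0, 0), (0, 1), (1, 1), (1, 2), (1, 3), (2, 0), (2, 3), (2, 4), (2, 5), (3, 4), (3, 6), (4,
      1), (4, 6), (4, 7), (4, 8), (5, 5), (5, 8), (5, 9)]
    cl := [0, 1, 6, 0, 4, 2, 3, 7, 3, 5]
    chq := [(2, 4), (4, 2), (4, 5), (5, 4)]
    rng := [(0, 1), (0, 5), (1, 0), (1, 2), (1, 6), (1, 7), (2, 1), (2, 3), (3, 2), (3, 4), (4, 3), (4,
      6), (5, 0), (5, 9), (6, 1), (6, 4), (7, 1), (7, 8), (8, 7), (8, 9), (9, 5), (9, 8)]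
    lev := [] }
  links := [[1, 2, 6, 7], [2, 0, 7, 8, 9], [6, 0, 1, 9, 10, 3, 5, 11], [5, 2, 10, 12, 4], [5, 3, 12, 7,
    13, 14], [11, 2, 3, 4, 14, 15]]
  P := {
    a := 6
    N := 16
    nb := [198, 901, 3691, 5172, 28840, 51228, 2181, 12627, 642, 1286, 4620, 32868, 1176, 16528,
      41008, 18464]
    tri := [(0, 1, 2), (0, 1, 7), (0, 2, 6), (0, 6, 7), (1, 2, 9), (1, 7, 8), (1, 8, 9), (2, 3, 5), (2,
      3, 10), (2, 5, 11), (2, 6, 11), (2, 9, 10), (3, 4, 5), (3, 4, 12), (3, 10, 12), (4, 5, 14),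
      (4, 7, 12), (4, 7, 13), (4, 13, 14), (5, 11, 15), (5, 14, 15)]
    fin := [0, 0, 0, 3, 4, 3, 0, 7, 8, 0, 3, 11, 4, 13, 4, 15]
    chd := [(3, 11), (3, 15)]
    steps := [(0, 1), (0, 2), (0, 6), (0, 9), (3, 5), (3, 10), (4, 12), (4, 14)] }
  rep := [0, 7, 11, 4, 3, 15, 8, 13]

noncomputable def v858 : Cov.CovD where
  P := 3
  N := 5
  pl := [1, 2, 7]
  lev := [⟨[], [], [], [1], [(0, 0, [])]⟩,
    ⟨[], [(0, 0)], [], [1, 6], [(3, 0, [])]⟩,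
    ⟨[(0, 1)], [(0, 0), (0, 2), (0, 4), (1, 0), (1, 2), (1, 4)], [(0, 0), (0, 2), (0, 4),
      (2, 4)], [], [(0, 0, []), (3, 0, []), (4, 4, [2, 5]), (5, 2, [4])]⟩,
    ⟨[(0, 2), (1, 2)], [(2, 0), (2, 2), (2, 3), (2, 4)], [(3, 4)], [], [(4, 4, [2, 5]), (6,
      3, [])]⟩,
    ⟨[(2, 3)], [(3, 3), (3, 4)], [(3, 3)], [1, 7], [(6, 3, []), (8, 3, [])]⟩,
    ⟨[(0, 2), (1, 2), (2, 3), (2, 4), (3, 4)], [(2, 0), (2, 2), (2, 3), (2, 4), (2, 5), (3,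
      2), (3, 3), (3, 4), (3, 5), (4, 2), (4, 3), (4, 5)], [(2, 3), (2, 5), (3, 5)], [], [(5,
      2, [4]), (8, 3, []), (9, 5, [4])]⟩]
  Ta := [((0, 1), 0, 1), ((0, 5), 0, 2), ((3, 2), 0, 6), ((3, 4), 0, 4), ((6, 1), 3, 1), ((6, 4),
    3, 4), ((8, 7), 3, 7), ((8, 9), 3, 5)]
  Tb := [((0, 1, 5), 0, 1, 2), ((1, 0, 2), 1, 0, 6), ((1, 0, 6), 1, 0, 3), ((1, 0, 7), 1, 0, 7),
    ((1, 2, 6), 1, 6, 3), ((1, 2, 7), 1, 6, 7), ((1, 6, 7), 1, 3, 7), ((2, 1, 3), 6, 1, 0),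
    ((3, 2, 4), 0, 6, 4), ((4, 3, 6), 4, 0, 3), ((5, 0, 9), 2, 0, 5), ((6, 1, 4), 3, 1, 4),
    ((7, 1, 8), 7, 1, 3), ((8, 7, 9), 3, 7, 5), ((9, 5, 8), 5, 2, 3)]
  Tc := [(4, 2, 5)]
  Td := [((2, 4), (5, 0), 0), ((2, 4), (5, 9), 5), ((4, 2), (4, 3), 0), ((4, 2), (4, 6), 3), ((4,
    5), (4, 3), 0), ((4, 5), (4, 6), 3), ((5, 4), (9, 5), 2), ((5, 4), (9, 8), 3)]
  G := [[0, 0x454e1988e1c454e1888e1ca4, 0x22c8259ccc4493618, 0x45c449318c8893c14,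
    0x12c229519c8893a14], [0, 0x455e1988e1c454e298de1ca2, 0x444d1aaad1c18, 0x5d5d2888d1c14,
    0x226d1898d1a14], [0, 0, 0, 0x114d44c3119849897c54518455de88c8853cc1,
    0x12c2295911d8853a12c2295911d8853ac4], [0, 0, 0, 0x454d2d89d2c4d4d1999d2cc1,
    0x333d4ab8d1a239b45898d4ac4]]

noncomputable def n858 : Ent := ⟨e858, noF, [], [], [(8, 13, [385753028440516072301428330182238677962518295842732840410517505, 0])]⟩

def c858 : PLift (Cov.check n858.C.D v858 = true) := ⟨by decide +kernel⟩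

def b858 : PLift (entF (fidx ts) 400 858 n858 = true) := ⟨by decide +kernel⟩

theorem g858 : GoodF (fidx ts) 400 858 := GoodF.ofV v858 n858 c858.down b858.down

/-- 458566:731/4 -/
noncomputable def e859 : SCfg where
  D := {
    a := 6
    L := 9
    kp := 6
    inn := [(0, 1), (0, 2), (1, 0), (1, 2), (2, 0), (2, 1), (2, 3), (2, 5), (3, 2), (3, 4), (3, 5), (4,
      3), (4, 5), (5, 2), (5, 3), (5, 4)]
    mix := [(0, 0), (0, 1), (1, 1), (1, 2), (1, 3), (2, 0), (2, 3), (2, 4), (2, 5), (3, 4), (3, 6), (4,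
      1), (4, 2), (4, 6), (4, 7), (5, 5), (5, 7), (5, 8)]
    cl := [0, 1, 5, 0, 4, 2, 3, 3, 6]
    chq := [(2, 4), (4, 2), (4, 6), (6, 4)]
    rng := [(0, 1), (0, 5), (1, 0), (1, 2), (1, 7), (2, 1), (2, 3), (2, 6), (3, 2), (3, 4), (4, 3), (4,
      6), (5, 0), (5, 8), (6, 2), (6, 4), (7, 1), (7, 8), (8, 5), (8, 7)]
    lev := [] }
  links := [[1, 2, 6, 7], [2, 0, 7, 8, 9], [6, 0, 1, 9, 10, 3, 5, 11], [5, 2, 10, 12, 4], [5, 3, 12, 8,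
    7, 13], [11, 2, 3, 4, 13, 14]]
  P := {
    a := 6
    N := 15
    nb := [198, 901, 3691, 5172, 12712, 26652, 2181, 8531, 4754, 1286, 4620, 16484, 1304, 16560,
      10272]
    tri := [(0, 1, 2), (0, 1, 7), (0, 2, 6), (0, 6, 7), (1, 2, 9), (1, 7, 8), (1, 8, 9), (2, 3, 5), (2,
      3, 10), (2, 5, 11), (2, 6, 11), (2, 9, 10), (3, 4, 5), (3, 4, 12), (3, 10, 12), (4, 5, 13),
      (4, 7, 8), (4, 7, 13), (4, 8, 12), (5, 11, 14), (5, 13, 14)]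
    fin := [0, 0, 0, 3, 4, 3, 0, 7, 8, 0, 3, 11, 4, 4, 14]
    chd := [(3, 11), (3, 14)]
    steps := [(0, 1), (0, 2), (0, 6), (0, 9), (3, 5), (3, 10), (4, 12), (4, 13)] }
  rep := [0, 7, 11, 4, 3, 8, 14]

noncomputable def v859 : Cov.CovD where
  P := 3
  N := 4
  pl := [1, 2]
  lev := [⟨[], [], [], [1], [(0, 0, [])]⟩,
    ⟨[], [(0, 0)], [], [1, 5], [(3, 0, [])]⟩,
    ⟨[(0, 1)], [(0, 0), (0, 2), (0, 4), (1, 0), (1, 2), (1, 4)], [(0, 0), (0, 2), (0, 4),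
      (2, 4)], [], [(0, 0, []), (3, 0, []), (4, 4, [2, 6]), (5, 2, [4])]⟩,
    ⟨[(0, 2), (1, 2)], [(2, 0), (2, 2), (2, 3), (2, 4)], [(3, 4)], [], [(4, 4, [2, 6]), (6,
      3, [])]⟩,
    ⟨[(2, 3)], [(3, 3), (3, 4)], [(3, 3)], [1, 5], [(6, 3, []), (7, 3, [])]⟩,
    ⟨[(0, 2), (1, 2), (2, 3), (2, 4), (3, 4)], [(2, 0), (2, 2), (2, 3), (2, 4), (2, 6), (3,
      2), (3, 3), (3, 4), (3, 6), (4, 2), (4, 3), (4, 6)], [(2, 3), (2, 6), (3, 6)], [], [(5,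
      2, [4]), (7, 3, []), (8, 6, [4])]⟩]
  Ta := [((0, 1), 0, 1), ((0, 5), 0, 2), ((3, 2), 0, 5), ((3, 4), 0, 4), ((6, 2), 3, 5), ((6, 4),
    3, 4), ((7, 1), 3, 1), ((7, 8), 3, 6)]
  Tb := [((0, 1, 5), 0, 1, 2), ((1, 0, 2), 1, 0, 5), ((1, 0, 7), 1, 0, 3), ((1, 2, 7), 1, 5, 3),
    ((2, 1, 3), 5, 1, 0), ((2, 1, 6), 5, 1, 3), ((2, 3, 6), 5, 0, 3), ((3, 2, 4), 0, 5, 4),
    ((4, 3, 6), 4, 0, 3), ((5, 0, 8), 2, 0, 6), ((6, 2, 4), 3, 5, 4), ((7, 1, 8), 3, 1, 6),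
    ((8, 5, 7), 6, 2, 3)]
  Tc := [(4, 2, 6)]
  Td := [((2, 4), (5, 0), 0), ((2, 4), (5, 8), 6), ((4, 2), (4, 3), 0), ((4, 2), (4, 6), 3), ((4,
    6), (4, 3), 0), ((4, 6), (4, 6), 3), ((6, 4), (8, 5), 2), ((6, 4), (8, 7), 3)]
  G := [[0, 0x45c188c1c44a188a1c62, 0x22c215ccc813a14, 0x414d2118d2c14, 0x11c21581c813a14], [0,
    0x9814542844a18961ce4, 0x226d1888d1a14, 0x4c5d2888d1c14, 0x226d1888d1a14], [0, 0, 0,
    0x44929892c54528852cc1, 0x1822959892a2124c9852ac4], [0, 0, 0, 0x4592d82cd428952cc1,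
    0x2394b84ab2518954ac4]]

noncomputable def n859 : Ent := ⟨e859, noF, [], [], []⟩

def c859 : PLift (Cov.check n859.C.D v859 = true) := ⟨by decide +kernel⟩

def b859 : PLift (entF (fidx ts) 400 859 n859 = true) := ⟨by decide +kernel⟩

theorem g859 : GoodF (fidx ts) 400 859 := GoodF.ofV v859 n859 c859.down b859.down

/-- 458566:731/3 -/
noncomputable def e860 : SCfg where
  D := {
    a := 6
    L := 10
    kp := 7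
    inn := [(0, 1), (0, 2), (1, 0), (1, 2), (2, 0), (2, 1), (2, 3), (2, 5), (3, 2), (3, 4), (3, 5), (4,
      3), (4, 5), (5, 2), (5, 3), (5, 4)]
    mix := [(0, 0), (0, 1), (1, 1), (1, 2), (1, 3), (2, 0), (2, 3), (2, 4), (2, 5), (3, 4), (3, 6), (4,
      1), (4, 6), (4, 7), (4, 8), (5, 5), (5, 8), (5, 9)]
    cl := [0, 1, 6, 0, 4, 2, 3, 7, 3, 5]
    chq := [(2, 4), (4, 2), (4, 5), (5, 4)]
    rng := [(0, 1), (0, 5), (1, 0), (1, 2), (1, 7), (1, 8), (2, 1), (2, 3), (3, 2), (3, 4), (4, 3), (4,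
      6), (5, 0), (5, 9), (6, 4), (6, 7), (7, 1), (7, 6), (8, 1), (8, 9), (9, 5), (9, 8)]
    lev := [] }
  links := [[1, 2, 6, 7], [2, 0, 7, 8, 9], [6, 0, 1, 9, 10, 3, 5, 11], [5, 2, 10, 12, 4], [5, 3, 12, 13,
    7, 14], [11, 2, 3, 4, 14, 15]]
  P := {
    a := 6
    N := 16
    nb := [198, 901, 3691, 5172, 28840, 51228, 2181, 24915, 642, 1286, 4620, 32868, 9240, 4240, 32944,
      18464]
    tri := [(0, 1, 2), (0, 1, 7), (0, 2, 6), (0, 6, 7), (1, 2, 9), (1, 7, 8), (1, 8, 9), (2, 3, 5), (2,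
      3, 10), (2, 5, 11), (2, 6, 11), (2, 9, 10), (3, 4, 5), (3, 4, 12), (3, 10, 12), (4, 5, 14),
      (4, 7, 13), (4, 7, 14), (4, 12, 13), (5, 11, 15), (5, 14, 15)]
    fin := [0, 0, 0, 3, 4, 3, 0, 7, 8, 0, 3, 11, 4, 13, 4, 15]
    chd := [(3, 11), (3, 15)]
    steps := [(0, 1), (0, 2), (0, 6), (0, 9), (3, 5), (3, 10), (4, 12), (4, 14)] }
  rep := [0, 7, 11, 4, 3, 15, 8, 13]

noncomputable def v860 : Cov.CovD where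
  P := 3
  N := 5
  pl := [1, 2, 7]
  lev := [⟨[], [], [], [1], [(0, 0, [])]⟩,
    ⟨[], [(0, 0)], [], [1, 6], [(3, 0, [])]⟩,
    ⟨[(0, 1)], [(0, 0), (0, 2), (0, 4), (1, 0), (1, 2), (1, 4)], [(0, 0), (0, 2), (0, 4),
      (2, 4)], [], [(0, 0, []), (3, 0, []), (4, 4, [2, 5]), (5, 2, [4])]⟩,
    ⟨[(0, 2), (1, 2)], [(2, 0), (2, 2), (2, 3), (2, 4)], [(3, 4)], [], [(4, 4, [2, 5]), (6,
      3, [])]⟩,
    ⟨[(2, 3)], [(3, 3), (3, 4)], [(3, 3)], [1, 7], [(6, 3, []), (8, 3, [])]⟩,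
    ⟨[(0, 2), (1, 2), (2, 3), (2, 4), (3, 4)], [(2, 0), (2, 2), (2, 3), (2, 4), (2, 5), (3,
      2), (3, 3), (3, 4), (3, 5), (4, 2), (4, 3), (4, 5)], [(2, 3), (2, 5), (3, 5)], [], [(5,
      2, [4]), (8, 3, []), (9, 5, [4])]⟩]
  Ta := [((0, 1), 0, 1), ((0, 5), 0, 2), ((3, 2), 0, 6), ((3, 4), 0, 4), ((6, 4), 3, 4), ((6, 7),
    3, 7), ((8, 1), 3, 1), ((8, 9), 3, 5)]
  Tb := [((0, 1, 5), 0, 1, 2), ((1, 0, 2), 1, 0, 6), ((1, 0, 7), 1, 0, 7), ((1, 0, 8), 1, 0, 3),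
    ((1, 2, 7), 1, 6, 7), ((1, 2, 8), 1, 6, 3), ((1, 7, 8), 1, 7, 3), ((2, 1, 3), 6, 1, 0),
    ((3, 2, 4), 0, 6, 4), ((4, 3, 6), 4, 0, 3), ((5, 0, 9), 2, 0, 5), ((6, 4, 7), 3, 4, 7),
    ((7, 1, 6), 7, 1, 3), ((8, 1, 9), 3, 1, 5), ((9, 5, 8), 5, 2, 3)]
  Tc := [(4, 2, 5)]
  Td := [((2, 4), (5, 0), 0), ((2, 4), (5, 9), 5), ((4, 2), (4, 3), 0), ((4, 2), (4, 6), 3), ((4,
    5), (4, 3), 0), ((4, 5), (4, 6), 3), ((5, 4), (9, 5), 2), ((5, 4), (9, 8), 3)]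
  G := [[0, 0x444e1988e1c444e1888e1ca2, 0x22c2295cc8d2a18, 0x454d2888d2c14, 0x12c2295898d2a14],
    [0, 0x45c523988863c44de1998e2c62, 0xaaad1444d8618, 0x444d2d99d2c18, 0x2b6d1888d4a14], [0,
    0, 0, 0x444d2988d2c454d2888d2cc1, 0x22c2295999d2a22c2295191d8893ac1], [0, 0, 0,
    0x444d2d99d2c4d5d2988d2cc1, 0x233d4a8b855a333d48b8d1ac1]]

noncomputable def n860 : Ent := ⟨e860, noF, [], [], [(8, 13, [385753028440516072301428330182238677962518295842732840410525697, 0])]⟩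

def c860 : PLift (Cov.check n860.C.D v860 = true) := ⟨by decide +kernel⟩

def b860 : PLift (entF (fidx ts) 400 860 n860 = true) := ⟨by decide +kernel⟩

theorem g860 : GoodF (fidx ts) 400 860 := GoodF.ofV v860 n860 c860.down b860.down

/-- 458566:731/5 -/
noncomputable def e861 : SCfg where
  D := {
    a := 6
    L := 10
    kp := 7
    inn := [(0, 1), (0, 2), (1, 0), (1, 2), (2, 0), (2, 1), (2, 3), (2, 5), (3, 2), (3, 4), (3, 5), (4,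
      3), (4, 5), (5, 2), (5, 3), (5, 4)]
    mix := [(0, 0), (0, 1), (1, 1), (1, 2), (1, 3), (2, 0), (2, 3), (2, 4), (2, 5), (3, 4), (3, 6), (4,
      2), (4, 6), (4, 7), (4, 8), (5, 5), (5, 8), (5, 9)]
    cl := [0, 2, 5, 0, 1, 4, 3, 7, 3, 6]
    chq := [(1, 4), (1, 6), (4, 1), (6, 1)]
    rng := [(0, 1), (0, 5), (1, 0), (1, 2), (2, 1), (2, 3), (2, 6), (2, 7), (3, 2), (3, 4), (4, 3), (4,
      6), (5, 0), (5, 9), (6, 2), (6, 4), (7, 2), (7, 8), (8, 7), (8, 9), (9, 5), (9, 8)]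
    lev := [] }
  links := [[1, 2, 6, 7], [2, 0, 7, 8, 9], [6, 0, 1, 9, 10, 3, 5, 11], [5, 2, 10, 12, 4], [5, 3, 12, 8,
    13, 14], [11, 2, 3, 4, 14, 15]]
  P := {
    a := 6
    N := 16
    nb := [198, 901, 3691, 5172, 28968, 51228, 2181, 323, 12946, 1286, 4620, 32868, 1304, 16656,
      41008, 18464]
    tri := [(0, 1, 2), (0, 1, 7), (0, 2, 6), (0, 6, 7), (1, 2, 9), (1, 7, 8), (1, 8, 9), (2, 3, 5), (2,
      3, 10), (2, 5, 11), (2, 6, 11), (2, 9, 10), (3, 4, 5), (3, 4, 12), (3, 10, 12), (4, 5, 14),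
      (4, 8, 12), (4, 8, 13), (4, 13, 14), (5, 11, 15), (5, 14, 15)]
    fin := [0, 0, 0, 3, 4, 3, 0, 7, 8, 0, 3, 11, 4, 13, 4, 15]
    chd := [(3, 11), (3, 15)]
    steps := [(0, 1), (0, 2), (0, 6), (0, 9), (3, 5), (3, 10), (4, 12), (4, 14)] }
  rep := [0, 3, 7, 4, 11, 8, 15, 13]

noncomputable def v861 : Cov.CovD where
  P := 3
  N := 5
  pl := [1, 2, 7]
  lev := [⟨[], [], [], [2], [(0, 0, [])]⟩,
    ⟨[], [(0, 0)], [], [2, 5], [(3, 0, [])]⟩,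
    ⟨[(0, 1)], [(0, 0), (0, 1), (0, 4), (1, 0), (1, 1), (1, 4)], [(0, 0), (0, 1), (0, 4),
      (1, 4)], [], [(0, 0, []), (3, 0, []), (4, 1, [4, 6]), (5, 4, [1])]⟩,
    ⟨[(0, 2), (1, 2)], [(2, 0), (2, 1), (2, 3), (2, 4)], [(1, 3)], [], [(4, 1, [4, 6]), (6,
      3, [])]⟩,
    ⟨[(2, 3)], [(3, 1), (3, 3)], [(3, 3)], [5, 7], [(6, 3, []), (8, 3, [])]⟩,
    ⟨[(0, 2), (1, 2), (2, 3), (2, 4), (3, 4)], [(2, 0), (2, 1), (2, 3), (2, 4), (2, 6), (3,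
      1), (3, 3), (3, 4), (3, 6), (4, 3), (4, 4), (4, 6)], [(3, 4), (3, 6), (4, 6)], [], [(5,
      4, [1]), (8, 3, []), (9, 6, [1])]⟩]
  Ta := [((0, 1), 0, 2), ((0, 5), 0, 4), ((3, 2), 0, 5), ((3, 4), 0, 1), ((6, 2), 3, 5), ((6, 4),
    3, 1), ((8, 7), 3, 7), ((8, 9), 3, 6)]
  Tb := [((0, 1, 5), 0, 2, 4), ((1, 0, 2), 2, 0, 5), ((2, 1, 3), 5, 2, 0), ((2, 1, 6), 5, 2, 3),
    ((2, 1, 7), 5, 2, 7), ((2, 3, 6), 5, 0, 3), ((2, 3, 7), 5, 0, 7), ((2, 6, 7), 5, 3, 7),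
    ((3, 2, 4), 0, 5, 1), ((4, 3, 6), 1, 0, 3), ((5, 0, 9), 4, 0, 6), ((6, 2, 4), 3, 5, 1),
    ((7, 2, 8), 7, 5, 3), ((8, 7, 9), 3, 7, 6), ((9, 5, 8), 6, 4, 3)]
  Tc := [(1, 4, 6)]
  Td := [((1, 4), (4, 3), 0), ((1, 4), (4, 6), 3), ((1, 6), (4, 3), 0), ((1, 6), (4, 6), 3), ((4,
    1), (5, 0), 0), ((4, 1), (5, 9), 6), ((6, 1), (9, 5), 4), ((6, 1), (9, 8), 3)]
  G := [[0, 0, 0x21a222b522c2259c322421d8216b2394e4, 0x221e232b522be25279c18,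
    0x225e2a2b5223e23279c12], [0, 0, 0x222d4222d8c2b2b4272b1c62, 0x2232f122f2f8824e18,
    0x22b2f12272f1c12], [0, 0x181112e119113c612511361112a144ec8, 0,
    0x23a22952812423dc216723521622279cc1, 0x22c229521c2259c21672352163239ca2], [0,
    0x111b2111b4611172111786c8, 0, 0x232b12e2b8824e2e27123278428ec1,
    0x222d1222d1c2b27127271ca1]]

noncomputable def n861 : Ent := ⟨e861, noF, [], [], [(7, 13, [385753028440516072301428330182238677962518295842732840410525697, 0])]⟩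

def c861 : PLift (Cov.check n861.C.D v861 = true) := ⟨by decide +kernel⟩

def b861 : PLift (entF (fidx ts) 400 861 n861 = true) := ⟨by decide +kernel⟩

theorem g861 : GoodF (fidx ts) 400 861 := GoodF.ofV v861 n861 c861.down b861.down

/-- 458566:731/6 -/
noncomputable def e862 : SCfg where
  D := {
    a := 6
    L := 10
    kp := 7
    inn := [(0, 1), (0, 2), (1, 0), (1, 2), (2, 0), (2, 1), (2, 3), (2, 5), (3, 2), (3, 4), (3, 5), (4,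
      3), (4, 5), (5, 2), (5, 3), (5, 4)]
    mix := [(0, 0), (0, 1), (1, 1), (1, 2), (1, 3), (2, 0), (2, 3), (2, 4), (2, 5), (3, 4), (3, 6), (4,
      2), (4, 6), (4, 7), (4, 8), (5, 5), (5, 8), (5, 9)]
    cl := [0, 2, 5, 0, 1, 4, 3, 7, 3, 6]
    chq := [(1, 4), (1, 6), (4, 1), (6, 1)]
    rng := [(0, 1), (0, 5), (1, 0), (1, 2), (2, 1), (2, 3), (2, 7), (2, 8), (3, 2), (3, 4), (4, 3), (4,
      6), (5, 0), (5, 9), (6, 4), (6, 7), (7, 2), (7, 6), (8, 2), (8, 9), (9, 5), (9, 8)]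
    lev := [] }
  links := [[1, 2, 6, 7], [2, 0, 7, 8, 9], [6, 0, 1, 9, 10, 3, 5, 11], [5, 2, 10, 12, 4], [5, 3, 12, 13,
    8, 14], [11, 2, 3, 4, 14, 15]]
  P := {
    a := 6
    N := 16
    nb := [198, 901, 3691, 5172, 28968, 51228, 2181, 323, 25234, 1286, 4620, 32868, 9240, 4368, 33072,
      18464]
    tri := [(0, 1, 2), (0, 1, 7), (0, 2, 6), (0, 6, 7), (1, 2, 9), (1, 7, 8), (1, 8, 9), (2, 3, 5), (2,
      3, 10), (2, 5, 11), (2, 6, 11), (2, 9, 10), (3, 4, 5), (3, 4, 12), (3, 10, 12), (4, 5, 14),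
      (4, 8, 13), (4, 8, 14), (4, 12, 13), (5, 11, 15), (5, 14, 15)]
    fin := [0, 0, 0, 3, 4, 3, 0, 7, 8, 0, 3, 11, 4, 13, 4, 15]
    chd := [(3, 11), (3, 15)]
    steps := [(0, 1), (0, 2), (0, 6), (0, 9), (3, 5), (3, 10), (4, 12), (4, 14)] }
  rep := [0, 3, 7, 4, 11, 8, 15, 13]

noncomputable def v862 : Cov.CovD where
  P := 3
  N := 5
  pl := [1, 2, 7]
  lev := [⟨[], [], [], [2], [(0, 0, [])]⟩,
    ⟨[], [(0, 0)], [], [2, 5], [(3, 0, [])]⟩,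
    ⟨[(0, 1)], [(0, 0), (0, 1), (0, 4), (1, 0), (1, 1), (1, 4)], [(0, 0), (0, 1), (0, 4),
      (1, 4)], [], [(0, 0, []), (3, 0, []), (4, 1, [4, 6]), (5, 4, [1])]⟩,
    ⟨[(0, 2), (1, 2)], [(2, 0), (2, 1), (2, 3), (2, 4)], [(1, 3)], [], [(4, 1, [4, 6]), (6,
      3, [])]⟩,
    ⟨[(2, 3)], [(3, 1), (3, 3)], [(3, 3)], [5, 7], [(6, 3, []), (8, 3, [])]⟩,
    ⟨[(0, 2), (1, 2), (2, 3), (2, 4), (3, 4)], [(2, 0), (2, 1), (2, 3), (2, 4), (2, 6), (3,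
      1), (3, 3), (3, 4), (3, 6), (4, 3), (4, 4), (4, 6)], [(3, 4), (3, 6), (4, 6)], [], [(5,
      4, [1]), (8, 3, []), (9, 6, [1])]⟩]
  Ta := [((0, 1), 0, 2), ((0, 5), 0, 4), ((3, 2), 0, 5), ((3, 4), 0, 1), ((6, 4), 3, 1), ((6, 7),
    3, 7), ((8, 2), 3, 5), ((8, 9), 3, 6)]
  Tb := [((0, 1, 5), 0, 2, 4), ((1, 0, 2), 2, 0, 5), ((2, 1, 3), 5, 2, 0), ((2, 1, 7), 5, 2, 7),
    ((2, 1, 8), 5, 2, 3), ((2, 3, 7), 5, 0, 7), ((2, 3, 8), 5, 0, 3), ((2, 7, 8), 5, 7, 3),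
    ((3, 2, 4), 0, 5, 1), ((4, 3, 6), 1, 0, 3), ((5, 0, 9), 4, 0, 6), ((6, 4, 7), 3, 1, 7),
    ((7, 2, 6), 7, 5, 3), ((8, 2, 9), 3, 5, 6), ((9, 5, 8), 6, 4, 3)]
  Tc := [(1, 4, 6)]
  Td := [((1, 4), (4, 3), 0), ((1, 4), (4, 6), 3), ((1, 6), (4, 3), 0), ((1, 6), (4, 6), 3), ((4,
    1), (5, 0), 0), ((4, 1), (5, 9), 6), ((6, 1), (9, 5), 4), ((6, 1), (9, 8), 3)]
  G := [[0, 0, 0x27a229528323cc322421d2b27249cc2, 0x225e2a2b5213e23279c14,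
    0x221e232b522de26279c12], [0, 0, 0x22942298c225421271cb21621ce2, 0x22f2f42232f8421e14,
    0x22b2f42272f8c12], [0, 0x18113c18113c6115413611314cac8, 0,
    0x23a229521a2a275c32324c22b2f8cc1, 0x22c229522c23279c212772923278ca1], [0,
    0x111b4111b8a11178111786c1, 0, 0x232b12e2b8824e2e27423278428ec1,
    0x222d1222d8c2b27427271ca1]]

noncomputable def n862 : Ent := ⟨e862, noF, [], [], [(7, 13, [385753028440516072301428330182238677962518295842732840410517505, 0])]⟩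

def c862 : PLift (Cov.check n862.C.D v862 = true) := ⟨by decide +kernel⟩

def b862 : PLift (entF (fidx ts) 400 862 n862 = true) := ⟨by decide +kernel⟩

theorem g862 : GoodF (fidx ts) 400 862 := GoodF.ofV v862 n862 c862.down b862.down

/-- 458566:731 -/
noncomputable def e863 : SCfg where
  D := {
    a := 6
    L := 11
    kp := 8
    inn := [(0, 1), (0, 2), (1, 0), (1, 2), (2, 0), (2, 1), (2, 3), (2, 5), (3, 2), (3, 4), (3, 5), (4,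
      3), (4, 5), (5, 2), (5, 3), (5, 4)]
    mix := [(0, 0), (0, 1), (1, 1), (1, 2), (1, 3), (2, 0), (2, 3), (2, 4), (2, 5), (3, 4), (3, 6), (4,
      6), (4, 7), (4, 8), (4, 9), (5, 5), (5, 9), (5, 10)]
    cl := [0, 4, 6, 0, 1, 2, 3, 7, 8, 3, 5]
    chq := [(1, 2), (1, 5), (2, 1), (5, 1)]
    rng := [(0, 1), (0, 5), (1, 0), (1, 2), (2, 1), (2, 3), (3, 2), (3, 4), (4, 3), (4, 6), (5, 0), (5,
      10), (6, 4), (6, 7), (7, 6), (7, 8), (8, 7), (8, 9), (9, 8), (9, 10), (10, 5), (10, 9)]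
    lev := [] }
  links := [[1, 2, 6, 7], [2, 0, 7, 8, 9], [6, 0, 1, 9, 10, 3, 5, 11], [5, 2, 10, 12, 4], [5, 3, 12, 13,
    14, 15], [11, 2, 3, 4, 15, 16]]
  P := {
    a := 6
    N := 17
    nb := [198, 901, 3691, 5172, 61480, 100380, 2181, 323, 642, 1286, 4620, 65636, 9240, 20496, 40976,
      81968, 34848]
    tri := [(0, 1, 2), (0, 1, 7), (0, 2, 6), (0, 6, 7), (1, 2, 9), (1, 7, 8), (1, 8, 9), (2, 3, 5), (2,
      3, 10), (2, 5, 11), (2, 6, 11), (2, 9, 10), (3, 4, 5), (3, 4, 12), (3, 10, 12), (4, 5, 15),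
      (4, 12, 13), (4, 13, 14), (4, 14, 15), (5, 11, 16), (5, 15, 16)]
    fin := [0, 0, 0, 3, 4, 3, 0, 7, 8, 0, 3, 11, 4, 13, 14, 4, 16]
    chd := [(3, 11), (3, 16)]
    steps := [(0, 1), (0, 2), (0, 6), (0, 9), (3, 5), (3, 10), (4, 12), (4, 15)] }
  rep := [0, 3, 11, 4, 7, 16, 8, 13, 14]

noncomputable def v863 : Cov.CovD where
  P := 3
  N := 6
  pl := [1, 2, 7, 8]
  lev := [⟨[], [], [], [4], [(0, 0, [])]⟩,
    ⟨[], [(0, 0)], [], [4, 6], [(3, 0, [])]⟩,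
    ⟨[(0, 1)], [(0, 0), (0, 1), (0, 2), (1, 0), (1, 1), (1, 2)], [(0, 0), (0, 1), (0, 2),
      (1, 2)], [], [(0, 0, []), (3, 0, []), (4, 1, [2, 5]), (5, 2, [1])]⟩,
    ⟨[(0, 2), (1, 2)], [(2, 0), (2, 1), (2, 2), (2, 3)], [(1, 3)], [], [(4, 1, [2, 5]), (6,
      3, [])]⟩,
    ⟨[(2, 3)], [(3, 1), (3, 3)], [(3, 3)], [7, 8], [(6, 3, []), (9, 3, [])]⟩,
    ⟨[(0, 2), (1, 2), (2, 3), (2, 4), (3, 4)], [(2, 0), (2, 1), (2, 2), (2, 3), (2, 5), (3,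
      1), (3, 2), (3, 3), (3, 5), (4, 2), (4, 3), (4, 5)], [(2, 3), (2, 5), (3, 5)], [], [(5,
      2, [1]), (9, 3, []), (10, 5, [1])]⟩]
  Ta := [((0, 1), 0, 4), ((0, 5), 0, 2), ((3, 2), 0, 6), ((3, 4), 0, 1), ((6, 4), 3, 1), ((6, 7),
    3, 7), ((9, 8), 3, 8), ((9, 10), 3, 5)]
  Tb := [((0, 1, 5), 0, 4, 2), ((1, 0, 2), 4, 0, 6), ((2, 1, 3), 6, 4, 0), ((3, 2, 4), 0, 6, 1),
    ((4, 3, 6), 1, 0, 3), ((5, 0, 10), 2, 0, 5), ((6, 4, 7), 3, 1, 7), ((7, 6, 8), 7, 3, 8),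
    ((8, 7, 9), 8, 7, 3), ((9, 8, 10), 3, 8, 5), ((10, 5, 9), 5, 2, 3)]
  Tc := [(1, 2, 5)]
  Td := [((1, 2), (4, 3), 0), ((1, 2), (4, 6), 3), ((1, 5), (4, 3), 0), ((1, 5), (4, 6), 3), ((2,
    1), (5, 0), 0), ((2, 1), (5, 10), 5), ((5, 1), (10, 5), 2), ((5, 1), (10, 9), 3)]
  G := [[0, 0, 0x226e242b58142226e429d816, 0x8214121a9421b42165842378c521821a995a43e,
    0x221e232b58221e232b58c221e232b5816], [0, 0, 0x22e2f18122e2f4816,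
    0x22d2f8414212292f1c22d2f186a, 0x2232f1821a122b2f1822b2f486c], [0,
    0x111d8117a481411361198c111d111b6869, 0, 0x21a99582b421a94823b429a829421f4e1,
    0x221e232b58221e232b58221e2a2b58e1], [0, 0x1111f841111f481111f48e1, 0,
    0x22d2f8422d2f4822d2f18e1, 0x2232f1824a22b2f4822b2f18e1]]

noncomputable def n863 : Ent := ⟨e863, noF, [], [], [(7, 13, [1685382419725355503238989871268909155780284044704628512909402939393, 0]), (7, 14, [1685382413448253767852309107433119732572617628602273068445368434689, 0]), (8, 13, [1685382419725355503238989871268909155780284044704628512909402951681, 0]), (8, 14, [1685382413448253767852309107433119732572617628602273068445368442881, 0])]⟩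

def c863 : PLift (Cov.check n863.C.D v863 = true) := ⟨by decide +kernel⟩

def b863 : PLift (entF (fidx ts) 400 863 n863 = true) := ⟨by decide +kernel⟩

theorem g863 : GoodF (fidx ts) 400 863 := GoodF.ofV v863 n863 c863.down b863.down

/-- 485664:732/1 -/
noncomputable def e864 : SCfg where
  D := {
    a := 6
    L := 10
    kp := 7
    inn := [(0, 1), (0, 3), (0, 4), (1, 0), (1, 2), (1, 3), (1, 4), (2, 1), (2, 5), (3, 0), (3, 1), (4,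
      0), (4, 1), (5, 2)]
    mix := [(0, 0), (1, 1), (1, 2), (1, 3), (1, 4), (2, 1), (2, 2), (2, 5), (3, 0), (3, 4), (3, 6), (3,
      7), (4, 0), (4, 1), (4, 8), (4, 9), (5, 1), (5, 5), (5, 9)]
    cl := [0, 1, 1, 2, 0, 4, 6, 7, 5, 3]
    chq := [(2, 3), (2, 5), (3, 2), (5, 2)]
    rng := [(0, 7), (0, 8), (1, 9), (2, 3), (2, 5), (3, 2), (3, 4), (4, 3), (4, 6), (5, 2), (5, 9), (6,
      4), (6, 7), (7, 0), (7, 6), (8, 0), (8, 9), (9, 1), (9, 5), (9, 8)]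
    lev := [] }
  links := [[1, 3, 6, 4], [3, 0, 4, 7, 2, 8, 9, 10], [8, 1, 7, 5, 11], [6, 0, 1, 10, 12, 13], [7, 1, 0,
    6, 14, 15], [11, 2, 7, 15]]
  P := {
    a := 6
    N := 16
    nb := [90, 1949, 2466, 13379, 49347, 34948, 24601, 32822, 2566, 1282, 4618, 33060, 9224, 4168,
      32848, 18608]
    tri := [(0, 1, 3), (0, 1, 4), (0, 3, 6), (0, 4, 6), (1, 2, 7), (1, 2, 8), (1, 3, 10), (1, 4, 7),
      (1, 8, 9), (1, 9, 10), (2, 5, 7), (2, 5, 11), (2, 8, 11), (3, 6, 13), (3, 10, 12), (3, 12,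
      13), (4, 6, 14), (4, 7, 15), (4, 14, 15), (5, 7, 15), (5, 11, 15)]
    fin := [0, 1, 2, 0, 1, 5, 0, 2, 2, 1, 0, 11, 12, 13, 14, 5]
    chd := [(1, 5), (1, 14)]
    steps := [(0, 3), (0, 6), (0, 10), (1, 4), (1, 9), (2, 7), (2, 8), (5, 15)] }
  rep := [0, 2, 1, 5, 11, 14, 12, 13]

noncomputable def v864 : Cov.CovD where
  P := 3
  N := 5
  pl := [5, 6, 7]
  lev := [⟨[], [], [], [], [(0, 0, [])]⟩,
    ⟨[], [(0, 0), (0, 1), (0, 2)], [(0, 1), (0, 2), (1, 1), (1, 2)], [], [(1, 1, []), (2,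
      1, []), (3, 2, [3, 5]), (4, 0, [])]⟩,
    ⟨[(0, 1)], [(1, 0), (1, 1), (1, 2)], [(1, 1)], [4], [(1, 1, []), (2, 1, [])]⟩,
    ⟨[(0, 1), (1, 2)], [(0, 0), (1, 0), (1, 1), (1, 2)], [(0, 0)], [6, 7], [(0, 0, []), (4,
      0, [])]⟩,
    ⟨[(0, 1), (0, 3), (1, 2), (1, 3)], [(0, 0), (0, 1), (0, 3), (0, 5), (1, 0), (1, 1), (1,
      2), (1, 3), (1, 5), (2, 1), (3, 0)], [(0, 1), (0, 3), (0, 5), (1, 3), (1, 5), (3, 5)],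
      [], [(0, 0, []), (1, 1, []), (8, 5, [2]), (9, 3, [2])]⟩,
    ⟨[(1, 2)], [(1, 1), (2, 1), (2, 3), (4, 1), (4, 3)], [(1, 3)], [4], [(1, 1, []), (9, 3,
      [2])]⟩]
  Ta := [((0, 7), 0, 7), ((0, 8), 0, 5), ((1, 9), 1, 3), ((2, 3), 1, 2), ((2, 5), 1, 4), ((4, 3),
    0, 2), ((4, 6), 0, 6)]
  Tb := [((0, 7, 8), 0, 7, 5), ((2, 3, 5), 1, 2, 4), ((3, 2, 4), 2, 1, 0), ((4, 3, 6), 0, 2, 6),
    ((5, 2, 9), 4, 1, 3), ((6, 4, 7), 6, 0, 7), ((7, 0, 6), 7, 0, 6), ((8, 0, 9), 5, 0, 3),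
    ((9, 1, 5), 3, 1, 4), ((9, 1, 8), 3, 1, 5), ((9, 5, 8), 3, 4, 5)]
  Tc := [(2, 3, 5)]
  Td := [((2, 3), (3, 2), 1), ((2, 3), (3, 4), 0), ((2, 5), (3, 2), 1), ((2, 5), (3, 4), 0), ((3,
    2), (9, 1), 1), ((3, 2), (9, 5), 4), ((3, 2), (9, 8), 5), ((5, 2), (8, 0), 0), ((5, 2),
    (8, 9), 3)]
  G := [[0, 0xc2c2c2e626262ea48, 0, 0, 0xc4c4c4e949494e582], [0, 0x1212c2e626212ea48, 0,
    0x929252e1c22c2c2cc94, 0x24c4c4e942424e582], [0, 0xc2c2c2e626262ea41,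
    0xc1c1c1e111111e582, 0, 0xc4c4c4e949494e581], [0, 0x121212ea2a2a2e681,
    0x212121e111111e584, 0xc2c2c2e929292e581, 0x6424c4ea481524e582]]

noncomputable def n864 : Ent := ⟨e864, noF, [], [], []⟩

def c864 : PLift (Cov.check n864.C.D v864 = true) := ⟨by decide +kernel⟩

def b864 : PLift (entF (fidx ts) 400 864 n864 = true) := ⟨by decide +kernel⟩

theorem g864 : GoodF (fidx ts) 400 864 := GoodF.ofV v864 n864 c864.down b864.down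

/-- 485664:732 -/
noncomputable def e865 : SCfg where
  D := {
    a := 6
    L := 11
    kp := 8
    inn := [(0, 1), (0, 3), (0, 4), (1, 0), (1, 2), (1, 3), (1, 4), (2, 1), (2, 5), (3, 0), (3, 1), (4,
      0), (4, 1), (5, 2)]
    mix := [(0, 0), (1, 1), (1, 2), (1, 3), (1, 4), (2, 1), (2, 2), (2, 5), (3, 0), (3, 4), (3, 6), (3,
      7), (4, 0), (4, 1), (4, 8), (4, 9), (5, 1), (5, 5), (5, 10)]
    cl := [0, 1, 1, 2, 0, 3, 6, 7, 4, 5, 8]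
    chq := [(2, 4), (2, 5), (4, 2), (5, 2)]
    rng := [(0, 7), (0, 8), (1, 9), (1, 10), (2, 3), (2, 5), (3, 2), (3, 4), (4, 3), (4, 6), (5, 2),
      (5, 10), (6, 4), (6, 7), (7, 0), (7, 6), (8, 0), (8, 9), (9, 1), (9, 8), (10, 1), (10, 5)]
    lev := [] }
  links := [[1, 3, 6, 4], [3, 0, 4, 7, 2, 8, 9, 10], [8, 1, 7, 5, 11], [6, 0, 1, 10, 12, 13], [7, 1, 0,
    6, 14, 15], [11, 2, 7, 16]]
  P := {
    a := 6
    N := 17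
    nb := [90, 1949, 2466, 13379, 49347, 67716, 24601, 98358, 2566, 1282, 4618, 65828, 9224, 4168,
      32848, 16528, 2208]
    tri := [(0, 1, 3), (0, 1, 4), (0, 3, 6), (0, 4, 6), (1, 2, 7), (1, 2, 8), (1, 3, 10), (1, 4, 7),
      (1, 8, 9), (1, 9, 10), (2, 5, 7), (2, 5, 11), (2, 8, 11), (3, 6, 13), (3, 10, 12), (3, 12,
      13), (4, 6, 14), (4, 7, 15), (4, 14, 15), (5, 7, 16), (5, 11, 16)]
    fin := [0, 1, 2, 0, 1, 2, 0, 2, 2, 1, 0, 11, 12, 13, 14, 15, 16]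
    chd := [(1, 14), (1, 15)]
    steps := [(0, 3), (0, 6), (0, 10), (1, 4), (1, 9), (2, 5), (2, 7), (2, 8)] }
  rep := [0, 2, 1, 11, 14, 15, 12, 13, 16]

noncomputable def v865 : Cov.CovD where
  P := 3
  N := 6
  pl := [5, 6, 7, 10]
  lev := [⟨[], [], [], [], [(0, 0, [])]⟩,
    ⟨[], [(0, 0), (0, 1), (0, 2)], [(0, 1), (0, 2), (1, 1), (1, 2)], [], [(1, 1, []), (2,
      1, []), (3, 2, [4, 5]), (4, 0, [])]⟩,
    ⟨[(0, 1)], [(1, 0), (1, 1), (1, 2)], [(1, 1)], [3], [(1, 1, []), (2, 1, [])]⟩,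
    ⟨[(0, 1), (1, 2)], [(0, 0), (1, 0), (1, 1), (1, 2)], [(0, 0)], [6, 7], [(0, 0, []), (4,
      0, [])]⟩,
    ⟨[(0, 1), (0, 3), (1, 2), (1, 3)], [(0, 0), (0, 1), (0, 4), (0, 5), (1, 0), (1, 1), (1,
      2), (1, 4), (1, 5), (2, 1), (3, 0)], [(0, 1), (0, 4), (0, 5), (1, 4), (1, 5), (4, 5)],
      [], [(0, 0, []), (1, 1, []), (8, 4, [2]), (9, 5, [2])]⟩,
    ⟨[(1, 2)], [(1, 1), (2, 1), (4, 1)], [], [3, 8], [(1, 1, [])]⟩]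
  Ta := [((0, 7), 0, 7), ((0, 8), 0, 4), ((1, 9), 1, 5), ((1, 10), 1, 8), ((2, 3), 1, 2), ((2,
    5), 1, 3), ((4, 3), 0, 2), ((4, 6), 0, 6)]
  Tb := [((0, 7, 8), 0, 7, 4), ((1, 9, 10), 1, 5, 8), ((2, 3, 5), 1, 2, 3), ((3, 2, 4), 2, 1, 0),
    ((4, 3, 6), 0, 2, 6), ((5, 2, 10), 3, 1, 8), ((6, 4, 7), 6, 0, 7), ((7, 0, 6), 7, 0, 6),
    ((8, 0, 9), 4, 0, 5), ((9, 1, 8), 5, 1, 4), ((10, 1, 5), 8, 1, 3)]
  Tc := [(2, 4, 5)]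
  Td := [((2, 4), (3, 2), 1), ((2, 4), (3, 4), 0), ((2, 5), (3, 2), 1), ((2, 5), (3, 4), 0), ((4,
    2), (8, 0), 0), ((4, 2), (8, 9), 5), ((5, 2), (9, 1), 1), ((5, 2), (9, 8), 4)]
  G := [[0, 0xc2c2c2ea2a2a2e684, 0, 0, 0x94419494a54c454ec98], [0, 0xc21212e126262ea48, 0,
    0xc2c2c2e929292e584, 0x249424e542454ec12], [0, 0x62c2ca26266a2c2a8c4,
    0xc1c151e9191c59128c2, 0, 0xc4c4c4e949494e581], [0, 0x12c2c2e621212ea41,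
    0xc121c1e215121e948, 0xc2c2c2e929292e581, 0x246424e94a494e581]]

noncomputable def n865 : Ent := ⟨e865, noF, [], [], [(15, 16, [1580044410770988437309982408355971841652082177953823432505692651521, 0])]⟩

def c865 : PLift (Cov.check n865.C.D v865 = true) := ⟨by decide +kernel⟩

def b865 : PLift (entF (fidx ts) 400 865 n865 = true) := ⟨by decide +kernel⟩

theorem g865 : GoodF (fidx ts) 400 865 := GoodF.ofV v865 n865 c865.down b865.down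

/-- 485664:733/1 -/
noncomputable def e866 : SCfg where
  D := {
    a := 6
    L := 10
    kp := 7
    inn := [(0, 1), (0, 3), (0, 4), (1, 0), (1, 2), (1, 3), (1, 4), (2, 1), (2, 5), (3, 0), (3, 1), (4,
      0), (4, 1), (5, 2)]
    mix := [(0, 0), (1, 1), (1, 2), (1, 3), (1, 4), (2, 1), (2, 2), (2, 5), (3, 0), (3, 4), (3, 6), (3,
      7), (4, 0), (4, 1), (4, 5), (4, 8), (5, 2), (5, 5), (5, 9)]
    cl := [0, 0, 2, 3, 0, 1, 4, 5, 6, 7]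
    chq := [(1, 2), (1, 3), (2, 1), (3, 1)]
    rng := [(0, 7), (0, 8), (1, 5), (2, 3), (2, 9), (3, 2), (3, 4), (4, 3), (4, 6), (5, 1), (5, 8), (5,
      9), (6, 4), (6, 7), (7, 0), (7, 6), (8, 0), (8, 5), (9, 2), (9, 5)]
    lev := [] }
  links := [[1, 3, 6, 4], [3, 0, 4, 7, 2, 8, 9, 10], [8, 1, 7, 11, 5], [6, 0, 1, 10, 12, 13], [7, 1, 0,
    6, 14, 11], [8, 2, 11, 15]]
  P := {
    a := 6
    N := 16
    nb := [90, 1949, 2466, 13379, 18627, 35076, 24601, 2070, 33318, 1282, 4618, 49332, 9224, 4168,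
      2128, 2336]
    tri := [(0, 1, 3), (0, 1, 4), (0, 3, 6), (0, 4, 6), (1, 2, 7), (1, 2, 8), (1, 3, 10), (1, 4, 7),
      (1, 8, 9), (1, 9, 10), (2, 5, 8), (2, 5, 11), (2, 7, 11), (3, 6, 13), (3, 10, 12), (3, 12,
      13), (4, 6, 14), (4, 7, 11), (4, 11, 14), (5, 8, 15), (5, 11, 15)]
    fin := [0, 1, 1, 0, 0, 1, 0, 0, 8, 9, 0, 1, 12, 13, 14, 15]
    chd := [(8, 1), (9, 1)]
    steps := [(0, 3), (0, 4), (0, 6), (0, 7), (0, 10), (1, 2), (1, 5), (1, 11)] }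
  rep := [0, 1, 8, 9, 12, 13, 14, 15]

noncomputable def v866 : Cov.CovD where
  P := 3
  N := 5
  pl := [6, 7, 8, 9]
  lev := [⟨[], [], [], [], [(0, 0, [])]⟩,
    ⟨[], [(0, 0), (0, 2), (0, 3)], [(0, 0), (0, 2), (0, 3), (2, 3)], [], [(1, 0, []), (2,
      2, [1]), (3, 3, [1]), (4, 0, [])]⟩,
    ⟨[(0, 1)], [(1, 0), (1, 1), (1, 2), (1, 3)], [(0, 1), (0, 2), (1, 2)], [], [(1, 0, []),
      (2, 2, [1]), (5, 1, [2, 3])]⟩,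
    ⟨[(0, 1), (1, 2)], [(0, 0), (1, 0), (1, 2), (1, 3)], [(0, 0)], [4, 5], [(0, 0, []), (4,
      0, [])]⟩,
    ⟨[(0, 1), (0, 3), (1, 2), (1, 3)], [(0, 0), (0, 1), (1, 0), (1, 1), (1, 2), (1, 3), (2,
      0), (2, 1), (3, 0)], [(0, 0), (0, 1)], [6], [(0, 0, []), (1, 0, []), (5, 1, [2, 3])]⟩,
    ⟨[(1, 2)], [(1, 2), (2, 0), (2, 1), (2, 2), (4, 1)], [(1, 2)], [7], [(2, 2, [1]), (5,
      1, [2, 3])]⟩]
  Ta := [((0, 7), 0, 5), ((0, 8), 0, 6), ((1, 5), 0, 1), ((4, 3), 0, 3), ((4, 6), 0, 4)]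
  Tb := [((0, 7, 8), 0, 5, 6), ((2, 3, 9), 2, 3, 7), ((3, 2, 4), 3, 2, 0), ((4, 3, 6), 0, 3, 4),
    ((5, 1, 8), 1, 0, 6), ((5, 1, 9), 1, 0, 7), ((5, 8, 9), 1, 6, 7), ((6, 4, 7), 4, 0, 5),
    ((7, 0, 6), 5, 0, 4), ((8, 0, 5), 6, 0, 1), ((9, 2, 5), 7, 2, 1)]
  Tc := [(1, 2, 3)]
  Td := [((1, 2), (5, 1), 0), ((1, 2), (5, 8), 6), ((1, 2), (5, 9), 7), ((1, 3), (5, 1), 0), ((1,
    3), (5, 8), 6), ((1, 3), (5, 9), 7), ((2, 1), (2, 3), 3), ((2, 1), (2, 9), 7), ((3, 1),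
    (3, 2), 2), ((3, 1), (3, 4), 0)]
  G := [[0, 0, 0xcccccc642c228ccc886c, 0x5248452c2649228ccc81ec, 0x99c48222c2199c99ca8ac], [0,
    0xcc6cccccae4cccccaccce8c1, 0xc228ccccccccce861, 0x92249224cccc9cc4e1,
    0x242982a99c99c99ce8a1], [0, 0, 0xc2c24ccccccccce8a1, 0xc2c2c2e1c252c2e8c1,
    0x22c2199c9899ce8a944825]]

noncomputable def n866 : Ent := ⟨e866, noF, [], [], []⟩

def c866 : PLift (Cov.check n866.C.D v866 = true) := ⟨by decide +kernel⟩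

def b866 : PLift (entF (fidx ts) 400 866 n866 = true) := ⟨by decide +kernel⟩

theorem g866 : GoodF (fidx ts) 400 866 := GoodF.ofV v866 n866 c866.down b866.down

/-- 485664:733 -/
noncomputable def e867 : SCfg where
  D := {
    a := 6
    L := 11
    kp := 8
    inn := [(0, 1), (0, 3), (0, 4), (1, 0), (1, 2), (1, 3), (1, 4), (2, 1), (2, 5), (3, 0), (3, 1), (4,
      0), (4, 1), (5, 2)]
    mix := [(0, 0), (1, 1), (1, 2), (1, 3), (1, 4), (2, 1), (2, 2), (2, 5), (3, 0), (3, 4), (3, 6), (3,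
      7), (4, 0), (4, 1), (4, 8), (4, 9), (5, 2), (5, 5), (5, 10)]
    cl := [0, 1, 1, 2, 0, 3, 6, 7, 4, 5, 8]
    chq := [(2, 4), (2, 5), (4, 2), (5, 2)]
    rng := [(0, 7), (0, 8), (1, 5), (1, 9), (2, 3), (2, 10), (3, 2), (3, 4), (4, 3), (4, 6), (5, 1),
      (5, 10), (6, 4), (6, 7), (7, 0), (7, 6), (8, 0), (8, 9), (9, 1), (9, 8), (10, 2), (10, 5)]
    lev := [] }
  links := [[1, 3, 6, 4], [3, 0, 4, 7, 2, 8, 9, 10], [8, 1, 7, 11, 5], [6, 0, 1, 10, 12, 13], [7, 1, 0,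
    6, 14, 15], [8, 2, 11, 16]]
  P := {
    a := 6
    N := 17
    nb := [90, 1949, 2466, 13379, 49347, 67844, 24601, 34838, 66086, 1282, 4618, 65700, 9224, 4168,
      32848, 16528, 2336]
    tri := [(0, 1, 3), (0, 1, 4), (0, 3, 6), (0, 4, 6), (1, 2, 7), (1, 2, 8), (1, 3, 10), (1, 4, 7),
      (1, 8, 9), (1, 9, 10), (2, 5, 8), (2, 5, 11), (2, 7, 11), (3, 6, 13), (3, 10, 12), (3, 12,
      13), (4, 6, 14), (4, 7, 15), (4, 14, 15), (5, 8, 16), (5, 11, 16)]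
    fin := [0, 1, 2, 0, 1, 2, 0, 2, 2, 1, 0, 11, 12, 13, 14, 15, 16]
    chd := [(1, 14), (1, 15)]
    steps := [(0, 3), (0, 6), (0, 10), (1, 4), (1, 9), (2, 5), (2, 7), (2, 8)] }
  rep := [0, 2, 1, 11, 14, 15, 12, 13, 16]

noncomputable def v867 : Cov.CovD where
  P := 3
  N := 6
  pl := [5, 6, 7, 10]
  lev := [⟨[], [], [], [], [(0, 0, [])]⟩,
    ⟨[], [(0, 0), (0, 1), (0, 2)], [(0, 1), (0, 2), (1, 1), (1, 2)], [], [(1, 1, []), (2,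
      1, []), (3, 2, [4, 5]), (4, 0, [])]⟩,
    ⟨[(0, 1)], [(1, 0), (1, 1), (1, 2)], [(1, 1)], [3], [(1, 1, []), (2, 1, [])]⟩,
    ⟨[(0, 1), (1, 2)], [(0, 0), (1, 0), (1, 1), (1, 2)], [(0, 0)], [6, 7], [(0, 0, []), (4,
      0, [])]⟩,
    ⟨[(0, 1), (0, 3), (1, 2), (1, 3)], [(0, 0), (0, 1), (0, 4), (0, 5), (1, 0), (1, 1), (1,
      2), (1, 4), (1, 5), (2, 1), (3, 0)], [(0, 1), (0, 4), (0, 5), (1, 4), (1, 5), (4, 5)],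
      [], [(0, 0, []), (1, 1, []), (8, 4, [2]), (9, 5, [2])]⟩,
    ⟨[(1, 2)], [(1, 1), (2, 1)], [], [3, 8], [(2, 1, [])]⟩]
  Ta := [((0, 7), 0, 7), ((0, 8), 0, 4), ((1, 5), 1, 3), ((1, 9), 1, 5), ((2, 3), 1, 2), ((2,
    10), 1, 8), ((4, 3), 0, 2), ((4, 6), 0, 6)]
  Tb := [((0, 7, 8), 0, 7, 4), ((1, 5, 9), 1, 3, 5), ((2, 3, 10), 1, 2, 8), ((3, 2, 4), 2, 1, 0),
    ((4, 3, 6), 0, 2, 6), ((5, 1, 10), 3, 1, 8), ((6, 4, 7), 6, 0, 7), ((7, 0, 6), 7, 0, 6),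
    ((8, 0, 9), 4, 0, 5), ((9, 1, 8), 5, 1, 4), ((10, 2, 5), 8, 1, 3)]
  Tc := [(2, 4, 5)]
  Td := [((2, 4), (3, 2), 1), ((2, 4), (3, 4), 0), ((2, 5), (3, 2), 1), ((2, 5), (3, 4), 0), ((4,
    2), (8, 0), 0), ((4, 2), (8, 9), 5), ((5, 2), (9, 1), 1), ((5, 2), (9, 8), 4)]
  G := [[0, 0xc2c212e121262ea48, 0, 0, 0x343494e646424ec18], [0, 0xc2c2c2e626262ea48, 0,
    0xc2c26529292e5c288c4, 0xc4c4c4e949494e582], [0, 0xc21232e12a252e684,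
    0xc13121e21a191e584, 0, 0x2424c4e949424e582], [0, 0xc2c2c2e626262ea41,
    0xc1c1c1e919191e584, 0xc2c2c2e525252e941, 0xc4c4c4e949494e581]]

noncomputable def n867 : Ent := ⟨e867, noF, [], [], [(15, 11, [1685356702439547120585577062884230514544245974828184671434927644673, 0])]⟩

def c867 : PLift (Cov.check n867.C.D v867 = true) := ⟨by decide +kernel⟩

def b867 : PLift (entF (fidx ts) 400 867 n867 = true) := ⟨by decide +kernel⟩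

theorem g867 : GoodF (fidx ts) 400 867 := GoodF.ofV v867 n867 c867.down b867.down

/-- 485664:734/1 -/
noncomputable def e868 : SCfg where
  D := {
    a := 6
    L := 9
    kp := 7
    inn := [(0, 1), (0, 3), (0, 4), (1, 0), (1, 2), (1, 3), (1, 4), (1, 5), (2, 1), (3, 0), (3, 1), (3,
      5), (4, 0), (4, 1), (5, 1), (5, 3)]
    mix := [(0, 0), (1, 1), (1, 2), (1, 3), (2, 1), (2, 2), (2, 4), (2, 5), (3, 0), (3, 6), (3, 7), (4,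
      0), (4, 1), (4, 4), (4, 8), (5, 3), (5, 6)]
    cl := [3, 0, 0, 1, 2, 7, 4, 5, 6]
    chq := [(1, 2), (1, 3), (1, 5), (1, 6), (2, 1), (3, 1), (5, 1), (6, 1)]
    rng := [(0, 7), (0, 8), (1, 4), (2, 3), (2, 5), (3, 2), (3, 6), (4, 1), (4, 5), (4, 8), (5, 2), (5,
      4), (6, 3), (6, 7), (7, 0), (7, 6), (8, 0), (8, 4)]
    lev := [] }
  links := [[1, 3, 6, 4], [3, 0, 4, 7, 2, 8, 9, 5], [8, 1, 7, 10, 11], [6, 0, 1, 5, 12, 13], [7, 1, 0, 6,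
    14, 10], [12, 3, 1, 9]]
  P := {
    a := 6
    N := 15
    nb := [90, 957, 3458, 12387, 17603, 4618, 24601, 1046, 2566, 4386, 18580, 1284, 8744, 4168, 1104]
    tri := [(0, 1, 3), (0, 1, 4), (0, 3, 6), (0, 4, 6), (1, 2, 7), (1, 2, 8), (1, 3, 5), (1, 4, 7), (1,
      5, 9), (1, 8, 9), (2, 7, 10), (2, 8, 11), (2, 10, 11), (3, 5, 12), (3, 6, 13), (3, 12, 13),
      (4, 6, 14), (4, 7, 10), (4, 10, 14), (5, 9, 12)]
    fin := [0, 1, 2, 0, 0, 0, 6, 1, 1, 0, 2, 11, 12, 13, 14]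
    chd := [(0, 2), (0, 13), (0, 14), (6, 0)]
    steps := [(0, 3), (0, 4), (0, 5), (0, 9), (1, 7), (1, 8), (2, 10)] }
  rep := [1, 0, 2, 6, 12, 13, 14, 11]

noncomputable def v868 : Cov.CovD where
  P := 3
  N := 5
  pl := [5, 6]
  lev := [⟨[], [], [], [], [(0, 3, [1])]⟩,
    ⟨[], [(0, 0), (0, 1), (0, 3)], [(0, 0), (0, 1)], [], [(1, 0, []), (2, 0, []), (3, 1,
      [2, 3, 5, 6])]⟩,
    ⟨[(0, 1)], [(1, 0), (1, 1), (1, 2)], [(0, 0), (0, 2)], [7], [(1, 0, []), (2, 0, []),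
      (4, 2, [1])]⟩,
    ⟨[(0, 1), (1, 2)], [(0, 3), (0, 5), (1, 0), (1, 1), (1, 3), (1, 5)], [(3, 5)], [4],
      [(0, 3, [1]), (7, 5, [1])]⟩,
    ⟨[(0, 1), (0, 3), (1, 2), (1, 3)], [(0, 0), (0, 2), (0, 3), (0, 6), (1, 0), (1, 1), (1,
      2), (1, 3), (1, 6), (2, 0), (2, 2), (3, 3)], [(0, 2), (0, 3), (0, 6), (2, 3), (2, 6),
      (3, 6)], [], [(0, 3, [1]), (1, 0, []), (4, 2, [1]), (8, 6, [1])]⟩,
    ⟨[(0, 1), (0, 3), (1, 2), (1, 3), (1, 4)], [(1, 0), (1, 1), (3, 1), (3, 3), (3, 5)],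
      [], [4], [(3, 1, [2, 3, 5, 6])]⟩]
  Ta := [((1, 4), 0, 2), ((2, 3), 0, 1), ((2, 5), 0, 7)]
  Tb := [((0, 7, 8), 3, 5, 6), ((2, 3, 5), 0, 1, 7), ((3, 2, 6), 1, 0, 4), ((4, 1, 5), 2, 0, 7),
    ((4, 1, 8), 2, 0, 6), ((4, 5, 8), 2, 7, 6), ((5, 2, 4), 7, 0, 2), ((6, 3, 7), 4, 1, 5),
    ((7, 0, 6), 5, 3, 4), ((8, 0, 4), 6, 3, 2)]
  Tc := [(1, 2, 3), (1, 2, 5), (1, 2, 6), (1, 3, 5), (1, 3, 6), (1, 5, 6)]
  Td := [((1, 2), (3, 2), 0), ((1, 2), (3, 6), 4), ((1, 3), (3, 2), 0), ((1, 3), (3, 6), 4), ((1,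
    5), (3, 2), 0), ((1, 5), (3, 6), 4), ((1, 6), (3, 2), 0), ((1, 6), (3, 6), 4), ((2, 1),
    (4, 1), 0), ((2, 1), (4, 5), 7), ((2, 1), (4, 8), 6), ((3, 1), (0, 7), 5), ((3, 1), (0,
    8), 6), ((5, 1), (7, 0), 3), ((5, 1), (7, 6), 4), ((6, 1), (8, 0), 3), ((6, 1), (8, 4),
    2)]
  G := [[0, 0, 0x1299aa529282b64c8623282127684212588e, 0x59c228c22922c43,
    0x32526129252ea8288c42c2c2b8242c2ba45], [0, 0xa11a11c2611a11c8a, 0, 0xc99d2242,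
    0x528524212ba432526a292127a842c2384d]]

noncomputable def n868 : Ent := ⟨e868, noF, [], [], []⟩

def c868 : PLift (Cov.check n868.C.D v868 = true) := ⟨by decide +kernel⟩

def b868 : PLift (entF (fidx ts) 400 868 n868 = true) := ⟨by decide +kernel⟩

theorem g868 : GoodF (fidx ts) 400 868 := GoodF.ofV v868 n868 c868.down b868.down

/-- 485664:734 -/
noncomputable def e869 : SCfg where
  D := {
    a := 6
    L := 10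
    kp := 8
    inn := [(0, 1), (0, 3), (0, 4), (1, 0), (1, 2), (1, 3), (1, 4), (1, 5), (2, 1), (3, 0), (3, 1), (3,
      5), (4, 0), (4, 1), (5, 1), (5, 3)]
    mix := [(0, 0), (1, 1), (1, 2), (1, 3), (2, 1), (2, 2), (2, 4), (2, 5), (3, 0), (3, 6), (3, 7), (4,
      0), (4, 1), (4, 8), (4, 9), (5, 3), (5, 6)]
    cl := [3, 0, 0, 1, 6, 7, 2, 8, 4, 5]
    chq := [(1, 3), (1, 4), (1, 5), (2, 3), (3, 1), (3, 2), (4, 1), (5, 1)]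
    rng := [(0, 7), (0, 8), (1, 4), (1, 9), (2, 3), (2, 5), (3, 2), (3, 6), (4, 1), (4, 5), (5, 2), (5,
      4), (6, 3), (6, 7), (7, 0), (7, 6), (8, 0), (8, 9), (9, 1), (9, 8)]
    lev := [] }
  links := [[1, 3, 6, 4], [3, 0, 4, 7, 2, 8, 9, 5], [8, 1, 7, 10, 11], [6, 0, 1, 5, 12, 13], [7, 1, 0, 6,
    14, 15], [12, 3, 1, 9]]
  P := {
    a := 6
    N := 16
    nb := [90, 957, 3458, 12387, 49347, 4618, 24601, 33814, 2566, 4386, 2180, 1284, 8744, 4168, 32848,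
      16528]
    tri := [(0, 1, 3), (0, 1, 4), (0, 3, 6), (0, 4, 6), (1, 2, 7), (1, 2, 8), (1, 3, 5), (1, 4, 7), (1,
      5, 9), (1, 8, 9), (2, 7, 10), (2, 8, 11), (2, 10, 11), (3, 5, 12), (3, 6, 13), (3, 12, 13),
      (4, 6, 14), (4, 7, 15), (4, 14, 15), (5, 9, 12)]
    fin := [0, 1, 2, 0, 1, 0, 0, 2, 2, 1, 10, 11, 12, 13, 14, 15]
    chd := [(0, 1), (0, 12), (1, 14), (1, 15)]
    steps := [(0, 3), (0, 5), (0, 6), (1, 4), (1, 9), (2, 7), (2, 8)] }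
  rep := [2, 1, 12, 0, 14, 15, 10, 11, 13]

noncomputable def v869 : Cov.CovD where
  P := 3
  N := 6
  pl := [4, 5, 7]
  lev := [⟨[], [], [], [], [(0, 3, [1, 2])]⟩,
    ⟨[], [(0, 0), (0, 1), (0, 3)], [(0, 0), (0, 1)], [], [(1, 0, []), (2, 0, []), (3, 1,
      [3, 4, 5])]⟩,
    ⟨[(0, 1)], [(1, 0), (1, 1)], [(0, 0)], [6, 7], [(1, 0, []), (2, 0, [])]⟩,
    ⟨[(0, 1), (1, 2)], [(0, 2), (0, 3), (1, 0), (1, 1), (1, 2), (1, 3)], [(2, 3)], [8],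
      [(0, 3, [1, 2]), (6, 2, [3])]⟩,
    ⟨[(0, 1), (0, 3), (1, 2), (1, 3)], [(0, 0), (0, 3), (0, 4), (0, 5), (1, 0), (1, 1), (1,
      3), (1, 4), (1, 5), (2, 0), (3, 3)], [(0, 3), (0, 4), (0, 5), (3, 4), (3, 5), (4, 5)],
      [], [(0, 3, [1, 2]), (1, 0, []), (8, 4, [1]), (9, 5, [1])]⟩,
    ⟨[(0, 1), (0, 3), (1, 2), (1, 3), (1, 4)], [(1, 0), (1, 1), (1, 2), (3, 1), (3, 2), (3,
      3)], [(1, 2)], [], [(3, 1, [3, 4, 5]), (6, 2, [3])]⟩]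
  Ta := [((1, 4), 0, 6), ((1, 9), 0, 5), ((2, 3), 0, 1), ((2, 5), 0, 7)]
  Tb := [((0, 7, 8), 3, 8, 4), ((1, 4, 9), 0, 6, 5), ((2, 3, 5), 0, 1, 7), ((3, 2, 6), 1, 0, 2),
    ((4, 1, 5), 6, 0, 7), ((5, 2, 4), 7, 0, 6), ((6, 3, 7), 2, 1, 8), ((7, 0, 6), 8, 3, 2),
    ((8, 0, 9), 4, 3, 5), ((9, 1, 8), 5, 0, 4)]
  Tc := [(1, 3, 4), (1, 3, 5), (1, 4, 5), (3, 1, 2)]
  Td := [((1, 3), (3, 2), 0), ((1, 3), (3, 6), 2), ((1, 4), (3, 2), 0), ((1, 4), (3, 6), 2), ((1,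
    5), (3, 2), 0), ((1, 5), (3, 6), 2), ((2, 3), (6, 3), 1), ((2, 3), (6, 7), 8), ((3, 1),
    (0, 7), 8), ((3, 1), (0, 8), 4), ((3, 2), (0, 7), 8), ((3, 2), (0, 8), 4), ((4, 1), (8,
    0), 3), ((4, 1), (8, 9), 5), ((5, 1), (9, 1), 0), ((5, 1), (9, 8), 4)]
  G := [[0, 0, 0x8244428282e8282a828242eec1, 0x821254828282d828421282dec2,
    0x12123121282b121282be1288c4], [0, 0x818141d81819818181de414462,
    0x424242e4428242e828282eac1, 0x4244421242d12829121212dec2, 0x12123121212b128282be1288c4]]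

noncomputable def n869 : Ent := ⟨e869, noF, [], [], [(15, 10, [360035742630637297931254766822518807307257169425207333490147329, 0])]⟩

def c869 : PLift (Cov.check n869.C.D v869 = true) := ⟨by decide +kernel⟩

def b869 : PLift (entF (fidx ts) 400 869 n869 = true) := ⟨by decide +kernel⟩

theorem g869 : GoodF (fidx ts) 400 869 := GoodF.ofV v869 n869 c869.down b869.down

/-- 485664:735/1 -/
noncomputable def e870 : SCfg where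
  D := {
    a := 6
    L := 10
    kp := 7
    inn := [(0, 1), (0, 3), (0, 4), (1, 0), (1, 2), (1, 3), (1, 4), (2, 1), (3, 0), (3, 1), (3, 5), (4,
      0), (4, 1), (5, 3)]
    mix := [(0, 0), (1, 1), (1, 2), (1, 3), (1, 4), (2, 1), (2, 2), (2, 5), (2, 6), (3, 0), (3, 4), (3,
      7), (4, 0), (4, 1), (4, 8), (4, 9), (5, 0), (5, 7), (5, 8)]
    cl := [0, 1, 1, 2, 0, 6, 7, 4, 3, 5]
    chq := [(2, 3), (2, 5), (3, 2), (5, 2)]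
    rng := [(0, 8), (1, 5), (1, 9), (2, 3), (2, 6), (3, 2), (3, 4), (4, 3), (4, 7), (5, 1), (5, 6), (6,
      2), (6, 5), (7, 4), (7, 8), (8, 0), (8, 7), (8, 9), (9, 1), (9, 8)]
    lev := [] }
  links := [[1, 3, 6, 4], [3, 0, 4, 7, 2, 8, 9, 10], [8, 1, 7, 11, 12], [6, 0, 1, 10, 13, 5], [7, 1, 0,
    6, 14, 15], [6, 3, 13, 14]]
  P := {
    a := 6
    N := 16
    nb := [90, 1949, 6530, 9315, 49347, 24648, 16441, 34838, 4614, 1282, 8714, 4228, 2308, 17448,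
      41072, 16528]
    tri := [(0, 1, 3), (0, 1, 4), (0, 3, 6), (0, 4, 6), (1, 2, 7), (1, 2, 8), (1, 3, 10), (1, 4, 7),
      (1, 8, 9), (1, 9, 10), (2, 7, 11), (2, 8, 12), (2, 11, 12), (3, 5, 6), (3, 5, 13), (3, 10,
      13), (4, 6, 14), (4, 7, 15), (4, 14, 15), (5, 6, 14), (5, 13, 14)]
    fin := [0, 1, 2, 0, 1, 0, 0, 2, 2, 1, 0, 11, 12, 13, 14, 15]
    chd := [(1, 14), (1, 15)]
    steps := [(0, 3), (0, 5), (0, 6), (0, 10), (1, 4), (1, 9), (2, 7), (2, 8)] }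
  rep := [0, 2, 1, 14, 13, 15, 11, 12]

noncomputable def v870 : Cov.CovD where
  P := 3
  N := 5
  pl := [5, 6, 7]
  lev := [⟨[], [], [], [], [(0, 0, [])]⟩,
    ⟨[], [(0, 0), (0, 1), (0, 2)], [(0, 1), (0, 2), (1, 1), (1, 2)], [], [(1, 1, []), (2,
      1, []), (3, 2, [3, 5]), (4, 0, [])]⟩,
    ⟨[(0, 1)], [(1, 0), (1, 1), (1, 2)], [(1, 1)], [6, 7], [(1, 1, []), (2, 1, [])]⟩,
    ⟨[(0, 1), (1, 2)], [(0, 0), (1, 0), (1, 1), (1, 2)], [(0, 0)], [4], [(0, 0, []), (4, 0,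
      [])]⟩,
    ⟨[(0, 1), (0, 3), (1, 2), (1, 3)], [(0, 0), (0, 1), (0, 3), (0, 5), (1, 0), (1, 1), (1,
      2), (1, 3), (1, 5), (2, 1), (3, 0)], [(0, 1), (0, 3), (0, 5), (1, 3), (1, 5), (3, 5)],
      [], [(0, 0, []), (1, 1, []), (8, 3, [2]), (9, 5, [2])]⟩,
    ⟨[(0, 3), (1, 3)], [(0, 0), (3, 0), (3, 3), (4, 0), (4, 3)], [(0, 3)], [4], [(0, 0,
      []), (8, 3, [2])]⟩]
  Ta := [((0, 8), 0, 3), ((1, 5), 1, 6), ((1, 9), 1, 5), ((2, 3), 1, 2), ((2, 6), 1, 7), ((4, 3),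
    0, 2), ((4, 7), 0, 4)]
  Tb := [((1, 5, 9), 1, 6, 5), ((2, 3, 6), 1, 2, 7), ((3, 2, 4), 2, 1, 0), ((4, 3, 7), 0, 2, 4),
    ((5, 1, 6), 6, 1, 7), ((6, 2, 5), 7, 1, 6), ((7, 4, 8), 4, 0, 3), ((8, 0, 7), 3, 0, 4),
    ((8, 0, 9), 3, 0, 5), ((8, 7, 9), 3, 4, 5), ((9, 1, 8), 5, 1, 3)]
  Tc := [(2, 3, 5)]
  Td := [((2, 3), (3, 2), 1), ((2, 3), (3, 4), 0), ((2, 5), (3, 2), 1), ((2, 5), (3, 4), 0), ((3,
    2), (8, 0), 0), ((3, 2), (8, 7), 4), ((3, 2), (8, 9), 5), ((5, 2), (9, 1), 1), ((5, 2),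
    (9, 8), 3)]
  G := [[0, 0xc2a26c2a2668c262a84c, 0, 0, 0xc4a46c4a465c4a46898], [0, 0xc2a26c2a2668c262a84c, 0,
    0xc222a1c222ac222ac54, 0x24e484e1a464ca464cc92], [0, 0x12a261262a12a26e84,
    0x4181e1e4c161ac161a9c4, 0, 0x74146349467414cd82], [0, 0x12a2612a2612a26e84,
    0x21e181e6145e12141ea189c2, 0x321261222a12226d84, 0xb4146c414658c414688a]]

noncomputable def n870 : Ent := ⟨e870, noF, [], [], []⟩

def c870 : PLift (Cov.check n870.C.D v870 = true) := ⟨by decide +kernel⟩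

def b870 : PLift (entF (fidx ts) 400 870 n870 = true) := ⟨by decide +kernel⟩

theorem g870 : GoodF (fidx ts) 400 870 := GoodF.ofV v870 n870 c870.down b870.down

/-- 485664:735/2 -/
noncomputable def e871 : SCfg where
  D := {
    a := 6
    L := 10
    kp := 7
    inn := [(0, 1), (0, 3), (0, 4), (1, 0), (1, 2), (1, 3), (1, 4), (2, 1), (3, 0), (3, 1), (3, 5), (4,
      0), (4, 1), (5, 3)]
    mix := [(0, 0), (1, 1), (1, 2), (1, 3), (1, 4), (2, 1), (2, 2), (2, 5), (2, 6), (3, 0), (3, 4), (3,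
      7), (4, 0), (4, 1), (4, 8), (4, 9), (5, 0), (5, 6), (5, 7)]
    cl := [0, 1, 1, 2, 0, 7, 3, 4, 5, 6]
    chq := [(2, 5), (2, 6), (5, 2), (6, 2)]
    rng := [(0, 6), (0, 8), (1, 5), (1, 9), (2, 3), (2, 6), (3, 2), (3, 4), (4, 3), (4, 7), (5, 1), (5,
      6), (6, 0), (6, 2), (6, 5), (6, 7), (7, 4), (7, 6), (8, 0), (8, 9), (9, 1), (9, 8)]
    lev := [] }
  links := [[1, 3, 6, 4], [3, 0, 4, 7, 2, 8, 9, 10], [8, 1, 7, 11, 12], [6, 0, 1, 10, 13, 5], [7, 1, 0,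
    6, 14, 15], [6, 3, 13, 12]]
  P := {
    a := 6
    N := 16
    nb := [90, 1949, 6530, 9315, 49347, 12360, 20537, 34838, 4614, 1282, 8714, 4228, 10596, 5160,
      32848, 16528]
    tri := [(0, 1, 3), (0, 1, 4), (0, 3, 6), (0, 4, 6), (1, 2, 7), (1, 2, 8), (1, 3, 10), (1, 4, 7),
      (1, 8, 9), (1, 9, 10), (2, 7, 11), (2, 8, 12), (2, 11, 12), (3, 5, 6), (3, 5, 13), (3, 10,
      13), (4, 6, 14), (4, 7, 15), (4, 14, 15), (5, 6, 12), (5, 12, 13)]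
    fin := [0, 1, 2, 0, 1, 0, 0, 2, 2, 1, 0, 11, 12, 13, 14, 15]
    chd := [(1, 14), (1, 15)]
    steps := [(0, 3), (0, 5), (0, 6), (0, 10), (1, 4), (1, 9), (2, 7), (2, 8)] }
  rep := [0, 2, 1, 12, 13, 14, 15, 11]

noncomputable def v871 : Cov.CovD where
  P := 3
  N := 5
  pl := [5, 6, 7]
  lev := [⟨[], [], [], [], [(0, 0, [])]⟩,
    ⟨[], [(0, 0), (0, 1), (0, 2)], [(0, 1), (0, 2), (1, 1), (1, 2)], [], [(1, 1, []), (2,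
      1, []), (3, 2, [5, 6]), (4, 0, [])]⟩,
    ⟨[(0, 1)], [(1, 0), (1, 1), (1, 2)], [(1, 1)], [3, 7], [(1, 1, []), (2, 1, [])]⟩,
    ⟨[(0, 1), (1, 2)], [(0, 0), (1, 0), (1, 1), (1, 2)], [(0, 0)], [4], [(0, 0, []), (4, 0,
      [])]⟩,
    ⟨[(0, 1), (0, 3), (1, 2), (1, 3)], [(0, 0), (0, 1), (0, 5), (0, 6), (1, 0), (1, 1), (1,
      2), (1, 5), (1, 6), (2, 1), (3, 0)], [(0, 1), (0, 5), (0, 6), (1, 5), (1, 6), (5, 6)],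
      [], [(0, 0, []), (1, 1, []), (8, 5, [2]), (9, 6, [2])]⟩,
    ⟨[(0, 3), (1, 3)], [(0, 0), (3, 0), (4, 0)], [], [3, 4], [(0, 0, [])]⟩]
  Ta := [((0, 6), 0, 3), ((0, 8), 0, 5), ((1, 5), 1, 7), ((1, 9), 1, 6), ((2, 3), 1, 2), ((2, 6),
    1, 3), ((4, 3), 0, 2), ((4, 7), 0, 4)]
  Tb := [((0, 6, 8), 0, 3, 5), ((1, 5, 9), 1, 7, 6), ((2, 3, 6), 1, 2, 3), ((3, 2, 4), 2, 1, 0),
    ((4, 3, 7), 0, 2, 4), ((5, 1, 6), 7, 1, 3), ((6, 0, 2), 3, 0, 1), ((6, 0, 5), 3, 0, 7),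
    ((6, 0, 7), 3, 0, 4), ((6, 2, 5), 3, 1, 7), ((6, 2, 7), 3, 1, 4), ((6, 5, 7), 3, 7, 4),
    ((7, 4, 6), 4, 0, 3), ((8, 0, 9), 5, 0, 6), ((9, 1, 8), 6, 1, 5)]
  Tc := [(2, 5, 6)]
  Td := [((2, 5), (3, 2), 1), ((2, 5), (3, 4), 0), ((2, 6), (3, 2), 1), ((2, 6), (3, 4), 0), ((5,
    2), (8, 0), 0), ((5, 2), (8, 9), 6), ((6, 2), (9, 1), 1), ((6, 2), (9, 8), 5)]
  G := [[0, 0x42a26c2226688262a84c, 0, 0, 0xc4246188424c2444cc1a], [0, 0x42a26488262ac222aa4c,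
    0, 0x42226c2226582226898, 0x44246c4a46584a46898], [0, 0x1252648212a1222aac4,
    0x41216c12165812168c8, 0, 0x44246142465884246889], [0, 0x4212645232c12226ac8,
    0xe14181a1641e1a218dc8, 0x4222a1222658222a8c4, 0x84146441463414ad82]]

noncomputable def n871 : Ent := ⟨e871, noF, [], [], []⟩

def c871 : PLift (Cov.check n871.C.D v871 = true) := ⟨by decide +kernel⟩

def b871 : PLift (entF (fidx ts) 400 871 n871 = true) := ⟨by decide +kernel⟩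

theorem g871 : GoodF (fidx ts) 400 871 := GoodF.ofV v871 n871 c871.down b871.down

/-- 485664:735 -/
noncomputable def e872 : SCfg where
  D := {
    a := 6
    L := 11
    kp := 8
    inn := [(0, 1), (0, 3), (0, 4), (1, 0), (1, 2), (1, 3), (1, 4), (2, 1), (3, 0), (3, 1), (3, 5), (4,
      0), (4, 1), (5, 3)]
    mix := [(0, 0), (1, 1), (1, 2), (1, 3), (1, 4), (2, 1), (2, 2), (2, 5), (2, 6), (3, 0), (3, 4), (3,
      7), (4, 0), (4, 1), (4, 8), (4, 9), (5, 0), (5, 7), (5, 10)]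
    cl := [0, 1, 1, 2, 0, 6, 7, 3, 4, 5, 8]
    chq := [(2, 4), (2, 5), (4, 2), (5, 2)]
    rng := [(0, 8), (0, 10), (1, 5), (1, 9), (2, 3), (2, 6), (3, 2), (3, 4), (4, 3), (4, 7), (5, 1),
      (5, 6), (6, 2), (6, 5), (7, 4), (7, 10), (8, 0), (8, 9), (9, 1), (9, 8), (10, 0), (10, 7)]
    lev := [] }
  links := [[1, 3, 6, 4], [3, 0, 4, 7, 2, 8, 9, 10], [8, 1, 7, 11, 12], [6, 0, 1, 10, 13, 5], [7, 1, 0,
    6, 14, 15], [6, 3, 13, 16]]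
  P := {
    a := 6
    N := 17
    nb := [90, 1949, 6530, 9315, 49347, 73800, 81977, 34838, 4614, 1282, 8714, 4228, 2308, 66600,
      32848, 16528, 8288]
    tri := [(0, 1, 3), (0, 1, 4), (0, 3, 6), (0, 4, 6), (1, 2, 7), (1, 2, 8), (1, 3, 10), (1, 4, 7),
      (1, 8, 9), (1, 9, 10), (2, 7, 11), (2, 8, 12), (2, 11, 12), (3, 5, 6), (3, 5, 13), (3, 10,
      13), (4, 6, 14), (4, 7, 15), (4, 14, 15), (5, 6, 16), (5, 13, 16)]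
    fin := [0, 1, 2, 0, 1, 0, 0, 2, 2, 1, 0, 11, 12, 13, 14, 15, 16]
    chd := [(1, 14), (1, 15)]
    steps := [(0, 3), (0, 5), (0, 6), (0, 10), (1, 4), (1, 9), (2, 7), (2, 8)] }
  rep := [0, 2, 1, 13, 14, 15, 11, 12, 16]

noncomputable def v872 : Cov.CovD where
  P := 3
  N := 6
  pl := [5, 6, 7, 10]
  lev := [⟨[], [], [], [], [(0, 0, [])]⟩,
    ⟨[], [(0, 0), (0, 1), (0, 2)], [(0, 1), (0, 2), (1, 1), (1, 2)], [], [(1, 1, []), (2,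
      1, []), (3, 2, [4, 5]), (4, 0, [])]⟩,
    ⟨[(0, 1)], [(1, 0), (1, 1), (1, 2)], [(1, 1)], [6, 7], [(1, 1, []), (2, 1, [])]⟩,
    ⟨[(0, 1), (1, 2)], [(0, 0), (1, 0), (1, 1), (1, 2)], [(0, 0)], [3], [(0, 0, []), (4, 0,
      [])]⟩,
    ⟨[(0, 1), (0, 3), (1, 2), (1, 3)], [(0, 0), (0, 1), (0, 4), (0, 5), (1, 0), (1, 1), (1,
      2), (1, 4), (1, 5), (2, 1), (3, 0)], [(0, 1), (0, 4), (0, 5), (1, 4), (1, 5), (4, 5)],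
      [], [(0, 0, []), (1, 1, []), (8, 4, [2]), (9, 5, [2])]⟩,
    ⟨[(0, 3), (1, 3)], [(0, 0), (3, 0), (4, 0)], [], [3, 8], [(0, 0, [])]⟩]
  Ta := [((0, 8), 0, 4), ((0, 10), 0, 8), ((1, 5), 1, 6), ((1, 9), 1, 5), ((2, 3), 1, 2), ((2,
    6), 1, 7), ((4, 3), 0, 2), ((4, 7), 0, 3)]
  Tb := [((0, 8, 10), 0, 4, 8), ((1, 5, 9), 1, 6, 5), ((2, 3, 6), 1, 2, 7), ((3, 2, 4), 2, 1, 0),
    ((4, 3, 7), 0, 2, 3), ((5, 1, 6), 6, 1, 7), ((6, 2, 5), 7, 1, 6), ((7, 4, 10), 3, 0, 8),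
    ((8, 0, 9), 4, 0, 5), ((9, 1, 8), 5, 1, 4), ((10, 0, 7), 8, 0, 3)]
  Tc := [(2, 4, 5)]
  Td := [((2, 4), (3, 2), 1), ((2, 4), (3, 4), 0), ((2, 5), (3, 2), 1), ((2, 5), (3, 4), 0), ((4,
    2), (8, 0), 0), ((4, 2), (8, 9), 5), ((5, 2), (9, 1), 1), ((5, 2), (9, 8), 4)]
  G := [[0, 0xc2a2648c262ac262aa4c, 0, 0, 0xc4a46c4a4658a464c81a], [0, 0xc2a26c2a2664282e2e8c8,
    0, 0xc2a26c2a2658c262a84c, 0xc4a461c4a46c4a46c98], [0, 0xc2a26c2a26c2a26e81,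
    0xc1a1648c161ac161a94c, 0, 0xc41465434c3494cd82], [0, 0x7212a12b2a12a26e48,
    0xc1a16c1a16511618e1e8c8, 0xc262ac262ac262ad41, 0xc4146945463494cd82]]

noncomputable def n872 : Ent := ⟨e872, noF, [], [], [(14, 16, [1580044410770988437309982408355971841652082177953823432505692676097, 0]), (12, 16, [1580044410770988437309982408355971841652082177953823432505692680193, 0])]⟩

def c872 : PLift (Cov.check n872.C.D v872 = true) := ⟨by decide +kernel⟩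

def b872 : PLift (entF (fidx ts) 400 872 n872 = true) := ⟨by decide +kernel⟩

theorem g872 : GoodF (fidx ts) 400 872 := GoodF.ofV v872 n872 c872.down b872.down

/-- 485656:742/1 -/
noncomputable def e873 : SCfg where
  D := {
    a := 6
    L := 10
    kp := 8
    inn := [(0, 1), (0, 3), (1, 0), (1, 2), (1, 3), (1, 4), (1, 5), (2, 1), (3, 0), (3, 1), (3, 5), (4,
      1), (4, 5), (5, 1), (5, 3), (5, 4)]
    mix := [(0, 0), (0, 1), (1, 1), (1, 2), (1, 3), (2, 2), (2, 3), (2, 4), (2, 5), (3, 0), (3, 6), (3,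
      7), (4, 3), (4, 5), (4, 8), (5, 6), (5, 8), (5, 9)]
    cl := [1, 2, 0, 0, 7, 4, 5, 8, 3, 6]
    chq := [(1, 3), (1, 5), (1, 6), (2, 3), (2, 4), (3, 1), (3, 2), (4, 2), (5, 1), (6, 1)]
    rng := [(0, 1), (0, 7), (1, 0), (1, 2), (2, 1), (2, 4), (3, 5), (4, 2), (4, 5), (5, 3), (5, 4), (5,
      8), (6, 7), (6, 9), (7, 0), (7, 6), (8, 5), (8, 9), (9, 6), (9, 8)]
    lev := [] }
  links := [[1, 3, 6, 7], [3, 0, 7, 8, 2, 9, 4, 5], [9, 1, 8, 10, 11], [6, 0, 1, 5, 12, 13], [5, 1, 9,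
    11, 14], [12, 3, 1, 4, 14, 15]]
  P := {
    a := 6
    N := 16
    nb := [202, 957, 3842, 12387, 18978, 53274, 8329, 323, 1158, 2070, 2308, 17940, 41000, 4168,
      34864, 20512]
    tri := [(0, 1, 3), (0, 1, 7), (0, 3, 6), (0, 6, 7), (1, 2, 8), (1, 2, 9), (1, 3, 5), (1, 4, 5), (1,
      4, 9), (1, 7, 8), (2, 8, 10), (2, 9, 11), (2, 10, 11), (3, 5, 12), (3, 6, 13), (3, 12, 13),
      (4, 5, 14), (4, 9, 11), (4, 11, 14), (5, 12, 15), (5, 14, 15)]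
    fin := [0, 1, 2, 0, 1, 0, 0, 1, 2, 2, 10, 11, 12, 13, 14, 15]
    chd := [(0, 12), (0, 14), (0, 15), (1, 11), (1, 14)]
    steps := [(0, 3), (0, 5), (0, 6), (1, 4), (1, 7), (2, 8), (2, 9)] }
  rep := [2, 0, 1, 14, 11, 12, 15, 10, 13]

noncomputable def v873 : Cov.CovD where
  P := 3
  N := 6
  pl := [4, 7]
  lev := [⟨[], [], [(1, 2)], [], [(0, 1, [3, 5, 6]), (1, 2, [3, 4])]⟩,
    ⟨[], [(0, 0), (0, 1), (0, 2)], [(0, 0), (0, 2)], [], [(1, 2, [3, 4]), (2, 0, []), (3,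
      0, [])]⟩,
    ⟨[(0, 1)], [(1, 0), (1, 2), (1, 4)], [(0, 0), (0, 4)], [7], [(2, 0, []), (3, 0, []),
      (5, 4, [2])]⟩,
    ⟨[(0, 1), (1, 2)], [(0, 1), (0, 2), (0, 5), (1, 0), (1, 1), (1, 2), (1, 5)], [(1, 5)],
      [8], [(0, 1, [3, 5, 6]), (6, 5, [1])]⟩,
    ⟨[(0, 1), (1, 2), (1, 3)], [(1, 0), (1, 2), (1, 3), (1, 4), (2, 0), (2, 4)], [(0, 3),
      (0, 4), (3, 4)], [], [(3, 0, []), (5, 4, [2]), (8, 3, [1, 2])]⟩,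
    ⟨[(0, 1), (0, 3), (1, 2), (1, 3), (1, 4), (3, 4)], [(1, 0), (1, 2), (1, 3), (1, 5), (1,
      6), (3, 1), (3, 3), (3, 5), (3, 6), (4, 0), (4, 3), (4, 4), (4, 5), (4, 6)], [(3, 5),
      (3, 6), (5, 6)], [], [(6, 5, [1]), (8, 3, [1, 2]), (9, 6, [1])]⟩]
  Ta := [((2, 1), 0, 2), ((2, 4), 0, 7), ((3, 5), 0, 4)]
  Tb := [((0, 1, 7), 1, 2, 8), ((1, 0, 2), 2, 1, 0), ((2, 1, 4), 0, 2, 7), ((4, 2, 5), 7, 0, 4),
    ((5, 3, 4), 4, 0, 7), ((5, 3, 8), 4, 0, 3), ((5, 4, 8), 4, 7, 3), ((6, 7, 9), 5, 8, 6),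
    ((7, 0, 6), 8, 1, 5), ((8, 5, 9), 3, 4, 6), ((9, 6, 8), 6, 5, 3)]
  Tc := [(1, 3, 5), (1, 3, 6), (1, 5, 6), (2, 3, 4), (3, 1, 2)]
  Td := [((1, 3), (0, 1), 2), ((1, 3), (0, 7), 8), ((1, 5), (0, 1), 2), ((1, 5), (0, 7), 8), ((1,
    6), (0, 1), 2), ((1, 6), (0, 7), 8), ((2, 3), (1, 0), 1), ((2, 3), (1, 2), 0), ((2, 4),
    (1, 0), 1), ((2, 4), (1, 2), 0), ((3, 1), (8, 5), 4), ((3, 1), (8, 9), 6), ((3, 2), (8,
    5), 4), ((3, 2), (8, 9), 6), ((4, 2), (5, 3), 0), ((4, 2), (5, 4), 7), ((4, 2), (5, 8),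
    3), ((5, 1), (6, 7), 8), ((5, 1), (6, 9), 6), ((6, 1), (9, 6), 5), ((6, 1), (9, 8), 3)]
  G := [[0, 0x1244121212e1212a121212eec8, 0x21215212121d212121de2188c4,
    0x2222c4222222d221222222dec1, 0x24245242424d242424deb4588a1], [0,
    0x1244121212e1212a121212eec8, 0, 0x22225222222d222222de2288c1,
    0x242452462424d242424def488a1]]

noncomputable def n873 : Ent := ⟨e873, noF, [], [], []⟩

def c873 : PLift (Cov.check n873.C.D v873 = true) := ⟨by decide +kernel⟩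

def b873 : PLift (entF (fidx ts) 400 873 n873 = true) := ⟨by decide +kernel⟩

theorem g873 : GoodF (fidx ts) 400 873 := GoodF.ofV v873 n873 c873.down b873.down

/-- 485656:742 -/
noncomputable def e874 : SCfg where
  D := {
    a := 6
    L := 11
    kp := 9
    inn := [(0, 1), (0, 3), (1, 0), (1, 2), (1, 3), (1, 4), (1, 5), (2, 1), (3, 0), (3, 1), (3, 5), (4,
      1), (4, 5), (5, 1), (5, 3), (5, 4)]
    mix := [(0, 0), (0, 1), (1, 1), (1, 2), (1, 3), (2, 2), (2, 3), (2, 4), (2, 5), (3, 0), (3, 6), (3,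
      7), (4, 3), (4, 8), (4, 9), (5, 6), (5, 9), (5, 10)]
    cl := [1, 2, 0, 0, 7, 8, 4, 9, 5, 3, 6]
    chq := [(1, 3), (1, 4), (1, 6), (2, 3), (2, 5), (3, 1), (3, 2), (4, 1), (5, 2), (6, 1)]
    rng := [(0, 1), (0, 7), (1, 0), (1, 2), (2, 1), (2, 4), (3, 5), (3, 8), (4, 2), (4, 5), (5, 3), (5,
      4), (6, 7), (6, 10), (7, 0), (7, 6), (8, 3), (8, 9), (9, 8), (9, 10), (10, 6), (10, 9)]
    lev := [] }
  links := [[1, 3, 6, 7], [3, 0, 7, 8, 2, 9, 4, 5], [9, 1, 8, 10, 11], [6, 0, 1, 5, 12, 13], [5, 1, 9,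
    14, 15], [12, 3, 1, 4, 15, 16]]
  P := {
    a := 6
    N := 17
    nb := [202, 957, 3842, 12387, 49698, 102426, 8329, 323, 1158, 18454, 2308, 1540, 73768, 4168,
      33296, 81968, 36896]
    tri := [(0, 1, 3), (0, 1, 7), (0, 3, 6), (0, 6, 7), (1, 2, 8), (1, 2, 9), (1, 3, 5), (1, 4, 5), (1,
      4, 9), (1, 7, 8), (2, 8, 10), (2, 9, 11), (2, 10, 11), (3, 5, 12), (3, 6, 13), (3, 12, 13),
      (4, 5, 15), (4, 9, 14), (4, 14, 15), (5, 12, 16), (5, 15, 16)]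
    fin := [0, 1, 2, 0, 1, 0, 0, 1, 2, 2, 10, 11, 12, 13, 14, 15, 16]
    chd := [(0, 12), (0, 15), (0, 16), (1, 14), (1, 15)]
    steps := [(0, 3), (0, 5), (0, 6), (1, 4), (1, 7), (2, 8), (2, 9)] }
  rep := [2, 0, 1, 15, 12, 14, 16, 10, 11, 13]

noncomputable def v874 : Cov.CovD where
  P := 3
  N := 7
  pl := [4, 5, 7]
  lev := [⟨[], [], [(1, 2)], [], [(0, 1, [3, 4, 6]), (1, 2, [3, 5])]⟩,
    ⟨[], [(0, 0), (0, 1), (0, 2)], [(0, 0), (0, 2)], [], [(1, 2, [3, 5]), (2, 0, []), (3,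
      0, [])]⟩,
    ⟨[(0, 1)], [(1, 0), (1, 2)], [(0, 0)], [7, 8], [(2, 0, []), (3, 0, [])]⟩,
    ⟨[(0, 1), (1, 2)], [(0, 1), (0, 2), (0, 4), (1, 0), (1, 1), (1, 2), (1, 4)], [(1, 4)],
      [9], [(0, 1, [3, 4, 6]), (6, 4, [1])]⟩,
    ⟨[(0, 1), (1, 2), (1, 3)], [(1, 0), (1, 2), (1, 3), (1, 5), (2, 0)], [(0, 3), (0, 5),
      (3, 5)], [], [(3, 0, []), (8, 5, [2]), (9, 3, [1, 2])]⟩,
    ⟨[(0, 1), (0, 3), (1, 2), (1, 3), (1, 4), (3, 4)], [(1, 0), (1, 2), (1, 3), (1, 4), (1,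
      6), (3, 1), (3, 3), (3, 4), (3, 6), (4, 0), (4, 3), (4, 4), (4, 5), (4, 6)], [(3, 4),
      (3, 6), (4, 6)], [], [(6, 4, [1]), (9, 3, [1, 2]), (10, 6, [1])]⟩]
  Ta := [((2, 1), 0, 2), ((2, 4), 0, 7), ((3, 5), 0, 8), ((3, 8), 0, 5)]
  Tb := [((0, 1, 7), 1, 2, 9), ((1, 0, 2), 2, 1, 0), ((2, 1, 4), 0, 2, 7), ((3, 5, 8), 0, 8, 5),
    ((4, 2, 5), 7, 0, 8), ((5, 3, 4), 8, 0, 7), ((6, 7, 10), 4, 9, 6), ((7, 0, 6), 9, 1, 4),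
    ((8, 3, 9), 5, 0, 3), ((9, 8, 10), 3, 5, 6), ((10, 6, 9), 6, 4, 3)]
  Tc := [(1, 3, 4), (1, 3, 6), (1, 4, 6), (2, 3, 5), (3, 1, 2)]
  Td := [((1, 3), (0, 1), 2), ((1, 3), (0, 7), 9), ((1, 4), (0, 1), 2), ((1, 4), (0, 7), 9), ((1,
    6), (0, 1), 2), ((1, 6), (0, 7), 9), ((2, 3), (1, 0), 1), ((2, 3), (1, 2), 0), ((2, 5),
    (1, 0), 1), ((2, 5), (1, 2), 0), ((3, 1), (9, 8), 5), ((3, 1), (9, 10), 6), ((3, 2), (9,
    8), 5), ((3, 2), (9, 10), 6), ((4, 1), (6, 7), 9), ((4, 1), (6, 10), 6), ((5, 2), (8, 3),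
    0), ((5, 2), (8, 9), 3), ((6, 1), (10, 6), 4), ((6, 1), (10, 9), 3)]
  G := [[0, 0x12126121212e121212ee1288c4, 0x21215212121d212121de2188c4,
    0x22225222222d222222de2288c1, 0x24245242424d242424deb4588a1], [0,
    0x1244121212e1212a121212eec8, 0, 0x22225222222d222222de2288c4,
    0x2442247242424d242424def488a1]]

noncomputable def n874 : Ent := ⟨e874, noF, [], [], [(11, 14, [1685382413448253767852309107433119732572617628602273068445368487937, 0])]⟩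

def c874 : PLift (Cov.check n874.C.D v874 = true) := ⟨by decide +kernel⟩

def b874 : PLift (entF (fidx ts) 400 874 n874 = true) := ⟨by decide +kernel⟩

theorem g874 : GoodF (fidx ts) 400 874 := GoodF.ofV v874 n874 c874.down b874.down

/-- 485654:743/1 -/
noncomputable def e875 : SCfg where
  D := {
    a := 6
    L := 10
    kp := 7
    inn := [(0, 1), (0, 3), (1, 0), (1, 2), (1, 3), (1, 4), (2, 1), (3, 0), (3, 1), (3, 5), (4, 1), (5,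
      3)]
    mix := [(0, 0), (0, 1), (1, 1), (1, 2), (1, 3), (1, 4), (2, 2), (2, 3), (2, 5), (2, 6), (3, 0), (3,
      4), (3, 7), (4, 3), (4, 4), (4, 8), (4, 9), (5, 0), (5, 5), (5, 7)]
    cl := [0, 2, 1, 1, 0, 3, 7, 4, 5, 6]
    chq := [(2, 5), (2, 6), (5, 2), (6, 2)]
    rng := [(0, 1), (0, 5), (1, 0), (1, 2), (2, 1), (2, 5), (3, 6), (3, 8), (4, 7), (4, 9), (5, 0), (5,
      2), (5, 6), (5, 7), (6, 3), (6, 5), (7, 4), (7, 5), (8, 3), (8, 9), (9, 4), (9, 8)]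
    lev := [] }
  links := [[1, 3, 6, 7], [3, 0, 7, 8, 2, 9, 4, 10], [9, 1, 8, 11, 12], [6, 0, 1, 10, 13, 5], [10, 1, 9,
    14, 15], [6, 3, 13, 11]]
  P := {
    a := 6
    N := 16
    nb := [202, 1949, 6914, 9315, 50690, 10312, 2217, 323, 2182, 20502, 40986, 12644, 2564, 3112,
      33296, 17424]
    tri := [(0, 1, 3), (0, 1, 7), (0, 3, 6), (0, 6, 7), (1, 2, 8), (1, 2, 9), (1, 3, 10), (1, 4, 9),
      (1, 4, 10), (1, 7, 8), (2, 8, 11), (2, 9, 12), (2, 11, 12), (3, 5, 6), (3, 5, 13), (3, 10,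
      13), (4, 9, 14), (4, 10, 15), (4, 14, 15), (5, 6, 11), (5, 11, 13)]
    fin := [0, 1, 2, 0, 1, 0, 0, 1, 2, 2, 0, 11, 12, 13, 14, 15]
    chd := [(1, 14), (1, 15)]
    steps := [(0, 3), (0, 5), (0, 6), (0, 10), (1, 4), (1, 7), (2, 8), (2, 9)] }
  rep := [0, 2, 1, 11, 13, 14, 15, 12]

noncomputable def v875 : Cov.CovD where
  P := 3
  N := 5
  pl := [5, 6, 7]
  lev := [⟨[], [], [(0, 2)], [], [(0, 0, []), (1, 2, [5, 6])]⟩,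
    ⟨[], [(0, 0), (0, 1), (0, 2)], [(0, 1), (0, 2), (1, 1), (1, 2)], [], [(1, 2, [5, 6]),
      (2, 1, []), (3, 1, []), (4, 0, [])]⟩,
    ⟨[(0, 1)], [(1, 0), (1, 1), (1, 2)], [(1, 1)], [3, 7], [(2, 1, []), (3, 1, [])]⟩,
    ⟨[(0, 1), (1, 2)], [(0, 0), (0, 2), (1, 0), (1, 1), (1, 2)], [(0, 0)], [4], [(0, 0,
      []), (4, 0, [])]⟩,
    ⟨[(0, 1), (1, 2), (1, 3)], [(1, 0), (1, 1), (1, 2), (1, 5), (1, 6), (2, 1), (3, 0)],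
      [(0, 1), (0, 5), (0, 6), (1, 5), (1, 6), (5, 6)], [], [(3, 1, []), (4, 0, []), (8, 5,
      [2]), (9, 6, [2])]⟩,
    ⟨[(0, 3), (1, 3)], [(0, 0), (3, 0)], [], [3, 4], [(0, 0, [])]⟩]
  Ta := [((0, 1), 0, 2), ((0, 5), 0, 3), ((2, 1), 1, 2), ((2, 5), 1, 3), ((3, 6), 1, 7), ((3, 8),
    1, 5), ((4, 7), 0, 4), ((4, 9), 0, 6)]
  Tb := [((0, 1, 5), 0, 2, 3), ((1, 0, 2), 2, 0, 1), ((2, 1, 5), 1, 2, 3), ((3, 6, 8), 1, 7, 5),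
    ((4, 7, 9), 0, 4, 6), ((5, 0, 2), 3, 0, 1), ((5, 0, 6), 3, 0, 7), ((5, 0, 7), 3, 0, 4),
    ((5, 2, 6), 3, 1, 7), ((5, 2, 7), 3, 1, 4), ((5, 6, 7), 3, 7, 4), ((6, 3, 5), 7, 1, 3),
    ((7, 4, 5), 4, 0, 3), ((8, 3, 9), 5, 1, 6), ((9, 4, 8), 6, 0, 5)]
  Tc := [(2, 5, 6)]
  Td := [((2, 5), (1, 0), 0), ((2, 5), (1, 2), 1), ((2, 6), (1, 0), 0), ((2, 6), (1, 2), 1), ((5,
    2), (8, 3), 1), ((5, 2), (8, 9), 6), ((6, 2), (9, 4), 0), ((6, 2), (9, 8), 5)]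
  G := [[0, 0x42a26488262ac222aa4c, 0x2141c21e181e58121c8c2, 0x8222ac222a94222a454,
    0xc4a46184a462444cc98], [0, 0x42e2a48262ac222aac4, 0x41216c12165812168c8, 0,
    0x44246c4246584246898], [0, 0x128261242a12226e48, 0, 0x82226122262212cd84,
    0x148464414614d4ad82], [0, 0x821261221222ce8424485, 0, 0, 0x841464414a3414ad82]]

noncomputable def n875 : Ent := ⟨e875, noF, [], [], []⟩

def c875 : PLift (Cov.check n875.C.D v875 = true) := ⟨by decide +kernel⟩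

def b875 : PLift (entF (fidx ts) 400 875 n875 = true) := ⟨by decide +kernel⟩

theorem g875 : GoodF (fidx ts) 400 875 := GoodF.ofV v875 n875 c875.down b875.down

/-- 485654:743/2 -/
noncomputable def e876 : SCfg where
  D := {
    a := 6
    L := 10
    kp := 7
    inn := [(0, 1), (0, 3), (1, 0), (1, 2), (1, 3), (1, 4), (2, 1), (3, 0), (3, 1), (3, 5), (4, 1), (5,
      3)]
    mix := [(0, 0), (0, 1), (1, 1), (1, 2), (1, 3), (1, 4), (2, 2), (2, 3), (2, 5), (2, 6), (3, 0), (3,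
      4), (3, 7), (4, 3), (4, 4), (4, 8), (4, 9), (5, 0), (5, 6), (5, 7)]
    cl := [0, 2, 1, 1, 0, 7, 3, 4, 5, 6]
    chq := [(2, 5), (2, 6), (5, 2), (6, 2)]
    rng := [(0, 1), (0, 6), (1, 0), (1, 2), (2, 1), (2, 5), (3, 6), (3, 8), (4, 7), (4, 9), (5, 2), (5,
      6), (6, 0), (6, 3), (6, 5), (6, 7), (7, 4), (7, 6), (8, 3), (8, 9), (9, 4), (9, 8)]
    lev := [] }
  links := [[1, 3, 6, 7], [3, 0, 7, 8, 2, 9, 4, 10], [9, 1, 8, 11, 12], [6, 0, 1, 10, 13, 5], [10, 1, 9,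
    14, 15], [6, 3, 13, 12]]
  P := {
    a := 6
    N := 16
    nb := [202, 1949, 6914, 9315, 50690, 12360, 4265, 323, 2182, 20502, 40986, 4356, 10852, 5160,
      33296, 17424]
    tri := [(0, 1, 3), (0, 1, 7), (0, 3, 6), (0, 6, 7), (1, 2, 8), (1, 2, 9), (1, 3, 10), (1, 4, 9),
      (1, 4, 10), (1, 7, 8), (2, 8, 11), (2, 9, 12), (2, 11, 12), (3, 5, 6), (3, 5, 13), (3, 10,
      13), (4, 9, 14), (4, 10, 15), (4, 14, 15), (5, 6, 12), (5, 12, 13)]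
    fin := [0, 1, 2, 0, 1, 0, 0, 1, 2, 2, 0, 11, 12, 13, 14, 15]
    chd := [(1, 14), (1, 15)]
    steps := [(0, 3), (0, 5), (0, 6), (0, 10), (1, 4), (1, 7), (2, 8), (2, 9)] }
  rep := [0, 2, 1, 12, 13, 14, 15, 11]

noncomputable def v876 : Cov.CovD where
  P := 3
  N := 5
  pl := [5, 6, 7]
  lev := [⟨[], [], [(0, 2)], [], [(0, 0, []), (1, 2, [5, 6])]⟩,
    ⟨[], [(0, 0), (0, 1), (0, 2)], [(0, 1), (0, 2), (1, 1), (1, 2)], [], [(1, 2, [5, 6]),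
      (2, 1, []), (3, 1, []), (4, 0, [])]⟩,
    ⟨[(0, 1)], [(1, 0), (1, 1), (1, 2)], [(1, 1)], [3, 7], [(2, 1, []), (3, 1, [])]⟩,
    ⟨[(0, 1), (1, 2)], [(0, 0), (0, 2), (1, 0), (1, 1), (1, 2)], [(0, 0)], [4], [(0, 0,
      []), (4, 0, [])]⟩,
    ⟨[(0, 1), (1, 2), (1, 3)], [(1, 0), (1, 1), (1, 2), (1, 5), (1, 6), (2, 1), (3, 0)],
      [(0, 1), (0, 5), (0, 6), (1, 5), (1, 6), (5, 6)], [], [(3, 1, []), (4, 0, []), (8, 5,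
      [2]), (9, 6, [2])]⟩,
    ⟨[(0, 3), (1, 3)], [(0, 0), (3, 0)], [], [3, 4], [(0, 0, [])]⟩]
  Ta := [((0, 1), 0, 2), ((0, 6), 0, 3), ((2, 1), 1, 2), ((2, 5), 1, 7), ((3, 6), 1, 3), ((3, 8),
    1, 5), ((4, 7), 0, 4), ((4, 9), 0, 6)]
  Tb := [((0, 1, 6), 0, 2, 3), ((1, 0, 2), 2, 0, 1), ((2, 1, 5), 1, 2, 7), ((3, 6, 8), 1, 3, 5),
    ((4, 7, 9), 0, 4, 6), ((5, 2, 6), 7, 1, 3), ((6, 0, 3), 3, 0, 1), ((6, 0, 5), 3, 0, 7),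
    ((6, 0, 7), 3, 0, 4), ((6, 3, 5), 3, 1, 7), ((6, 3, 7), 3, 1, 4), ((6, 5, 7), 3, 7, 4),
    ((7, 4, 6), 4, 0, 3), ((8, 3, 9), 5, 1, 6), ((9, 4, 8), 6, 0, 5)]
  Tc := [(2, 5, 6)]
  Td := [((2, 5), (1, 0), 0), ((2, 5), (1, 2), 1), ((2, 6), (1, 0), 0), ((2, 6), (1, 2), 1), ((5,
    2), (8, 3), 1), ((5, 2), (8, 9), 6), ((6, 2), (9, 4), 0), ((6, 2), (9, 8), 5)]
  G := [[0, 0x42a26c22266a2c268c8, 0x2141c21e1c58121c8c2, 0xc222a18222c4222ac54,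
    0xc424618424644246c98], [0, 0x42e2a48262ac222aac4, 0x41a16c1216588121c84a, 0,
    0xc4a46184a462444cc98], [0, 0x12b2c1222a68212a8c4, 0, 0x822261222a12226d48,
    0x842462444cc4246d81], [0, 0x128264212a12226e84, 0, 0, 0x148461444c14d46d82]]

noncomputable def n876 : Ent := ⟨e876, noF, [], [], []⟩

def c876 : PLift (Cov.check n876.C.D v876 = true) := ⟨by decide +kernel⟩

def b876 : PLift (entF (fidx ts) 400 876 n876 = true) := ⟨by decide +kernel⟩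

theorem g876 : GoodF (fidx ts) 400 876 := GoodF.ofV v876 n876 c876.down b876.down

/-- 485654:743 -/
noncomputable def e877 : SCfg where
  D := {
    a := 6
    L := 11
    kp := 8
    inn := [(0, 1), (0, 3), (1, 0), (1, 2), (1, 3), (1, 4), (2, 1), (3, 0), (3, 1), (3, 5), (4, 1), (5,
      3)]
    mix := [(0, 0), (0, 1), (1, 1), (1, 2), (1, 3), (1, 4), (2, 2), (2, 3), (2, 5), (2, 6), (3, 0), (3,
      4), (3, 7), (4, 3), (4, 4), (4, 8), (4, 9), (5, 0), (5, 7), (5, 10)]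
    cl := [0, 2, 1, 1, 0, 6, 7, 3, 4, 5, 8]
    chq := [(2, 4), (2, 5), (4, 2), (5, 2)]
    rng := [(0, 1), (0, 10), (1, 0), (1, 2), (2, 1), (2, 5), (3, 6), (3, 8), (4, 7), (4, 9), (5, 2),
      (5, 6), (6, 3), (6, 5), (7, 4), (7, 10), (8, 3), (8, 9), (9, 4), (9, 8), (10, 0), (10, 7)]
    lev := [] }
  links := [[1, 3, 6, 7], [3, 0, 7, 8, 2, 9, 4, 10], [9, 1, 8, 11, 12], [6, 0, 1, 10, 13, 5], [10, 1, 9,
    14, 15], [6, 3, 13, 16]]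
  P := {
    a := 6
    N := 17
    nb := [202, 1949, 6914, 9315, 50690, 73800, 65705, 323, 2182, 20502, 40986, 4356, 2564, 66600,
      33296, 17424, 8288]
    tri := [(0, 1, 3), (0, 1, 7), (0, 3, 6), (0, 6, 7), (1, 2, 8), (1, 2, 9), (1, 3, 10), (1, 4, 9),
      (1, 4, 10), (1, 7, 8), (2, 8, 11), (2, 9, 12), (2, 11, 12), (3, 5, 6), (3, 5, 13), (3, 10,
      13), (4, 9, 14), (4, 10, 15), (4, 14, 15), (5, 6, 16), (5, 13, 16)]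
    fin := [0, 1, 2, 0, 1, 0, 0, 1, 2, 2, 0, 11, 12, 13, 14, 15, 16]
    chd := [(1, 14), (1, 15)]
    steps := [(0, 3), (0, 5), (0, 6), (0, 10), (1, 4), (1, 7), (2, 8), (2, 9)] }
  rep := [0, 2, 1, 13, 14, 15, 11, 12, 16]

noncomputable def v877 : Cov.CovD where
  P := 3
  N := 6
  pl := [5, 6, 7, 10]
  lev := [⟨[], [], [(0, 2)], [], [(0, 0, []), (1, 2, [4, 5])]⟩,
    ⟨[], [(0, 0), (0, 1), (0, 2)], [(0, 1), (0, 2), (1, 1), (1, 2)], [], [(1, 2, [4, 5]),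
      (2, 1, []), (3, 1, []), (4, 0, [])]⟩,
    ⟨[(0, 1)], [(1, 0), (1, 1), (1, 2)], [(1, 1)], [6, 7], [(2, 1, []), (3, 1, [])]⟩,
    ⟨[(0, 1), (1, 2)], [(0, 0), (0, 2), (1, 0), (1, 1), (1, 2)], [(0, 0)], [3], [(0, 0,
      []), (4, 0, [])]⟩,
    ⟨[(0, 1), (1, 2), (1, 3)], [(1, 0), (1, 1), (1, 2), (1, 4), (1, 5), (2, 1), (3, 0)],
      [(0, 1), (0, 4), (0, 5), (1, 4), (1, 5), (4, 5)], [], [(3, 1, []), (4, 0, []), (8, 4,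
      [2]), (9, 5, [2])]⟩,
    ⟨[(0, 3), (1, 3)], [(0, 0), (3, 0)], [], [3, 8], [(0, 0, [])]⟩]
  Ta := [((0, 1), 0, 2), ((0, 10), 0, 8), ((2, 1), 1, 2), ((2, 5), 1, 6), ((3, 6), 1, 7), ((3,
    8), 1, 4), ((4, 7), 0, 3), ((4, 9), 0, 5)]
  Tb := [((0, 1, 10), 0, 2, 8), ((1, 0, 2), 2, 0, 1), ((2, 1, 5), 1, 2, 6), ((3, 6, 8), 1, 7, 4),
    ((4, 7, 9), 0, 3, 5), ((5, 2, 6), 6, 1, 7), ((6, 3, 5), 7, 1, 6), ((7, 4, 10), 3, 0, 8),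
    ((8, 3, 9), 4, 1, 5), ((9, 4, 8), 5, 0, 4), ((10, 0, 7), 8, 0, 3)]
  Tc := [(2, 4, 5)]
  Td := [((2, 4), (1, 0), 0), ((2, 4), (1, 2), 1), ((2, 5), (1, 0), 0), ((2, 5), (1, 2), 1), ((4,
    2), (8, 3), 1), ((4, 2), (8, 9), 5), ((5, 2), (9, 4), 0), ((5, 2), (9, 8), 4)]
  G := [[0, 0xc2a26c2a2668c262a84c, 0xc1a1661458c161aa1894c, 0xc2a261c2a26c2a26c98,
    0xc4a46c4a4658a464c81a], [0, 0xc2a2648c262ac262aa4c, 0xc1a16c1a16586148a188ca, 0,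
    0xc4a46c4a465c4a46898], [0, 0x1262a4c212a1262aac4, 0, 0x12d26329265232cd84,
    0x945469454694546d82], [0, 0x92526b21265232ce84, 0, 0, 0xc4146c41463494ad82]]

noncomputable def n877 : Ent := ⟨e877, noF, [], [], [(11, 16, [1580044410770988437309982408355971841652082177953823432505692696577, 0]), (12, 16, [1580044410770988437309982408355971841652082177953823432505692700673, 0])]⟩

def c877 : PLift (Cov.check n877.C.D v877 = true) := ⟨by decide +kernel⟩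

def b877 : PLift (entF (fidx ts) 400 877 n877 = true) := ⟨by decide +kernel⟩

theorem g877 : GoodF (fidx ts) 400 877 := GoodF.ofV v877 n877 c877.down b877.down

/-- 458664:744 -/
noncomputable def e878 : SCfg where
  D := {
    a := 6
    L := 11
    kp := 8
    inn := [(0, 1), (0, 2), (1, 0), (1, 2), (2, 0), (2, 1), (2, 3), (2, 4), (3, 2), (3, 4), (3, 5), (4,
      2), (4, 3), (5, 3)]
    mix := [(0, 0), (0, 1), (1, 1), (1, 2), (1, 3), (2, 0), (2, 3), (2, 4), (2, 5), (3, 5), (3, 6), (3,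
      7), (4, 0), (4, 7), (4, 8), (4, 9), (5, 5), (5, 6), (5, 10)]
    cl := [0, 3, 5, 1, 2, 0, 4, 0, 6, 7, 8]
    chq := [(2, 3), (2, 5), (3, 2), (5, 2)]
    rng := [(0, 1), (0, 9), (1, 0), (1, 2), (2, 1), (2, 3), (3, 2), (3, 4), (4, 3), (4, 5), (5, 4), (5,
      10), (6, 7), (6, 10), (7, 6), (7, 8), (8, 7), (8, 9), (9, 0), (9, 8), (10, 5), (10, 6)]
    lev := [] }
  links := [[1, 2, 6, 7], [2, 0, 7, 8, 9], [6, 0, 1, 9, 10, 11, 3, 4], [4, 2, 11, 5, 12, 13], [6, 2, 3,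
    13, 14, 15], [12, 3, 11, 16]]
  P := {
    a := 6
    N := 17
    nb := [198, 901, 3675, 14388, 57420, 71688, 32917, 323, 642, 1286, 2564, 66604, 73768, 20504,
      40976, 16464, 6176]
    tri := [(0, 1, 2), (0, 1, 7), (0, 2, 6), (0, 6, 7), (1, 2, 9), (1, 7, 8), (1, 8, 9), (2, 3, 4), (2,
      3, 11), (2, 4, 6), (2, 9, 10), (2, 10, 11), (3, 4, 13), (3, 5, 11), (3, 5, 12), (3, 12, 13),
      (4, 6, 15), (4, 13, 14), (4, 14, 15), (5, 11, 16), (5, 12, 16)]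
    fin := [0, 1, 1, 0, 0, 0, 0, 7, 8, 9, 1, 0, 12, 0, 14, 15, 16]
    chd := [(7, 1), (8, 1)]
    steps := [(0, 6), (0, 4), (0, 3), (0, 5), (0, 11), (0, 13), (1, 2), (1, 10)] }
  rep := [0, 9, 1, 7, 12, 8, 14, 15, 16]

noncomputable def v878 : Cov.CovD where
  P := 3
  N := 6
  pl := [3, 6, 8, 9, 10]
  lev := [⟨[], [], [(0, 3)], [], [(0, 0, []), (1, 3, [2])]⟩,
    ⟨[], [(0, 0), (0, 3), (0, 5)], [(3, 5)], [1], [(1, 3, [2]), (2, 5, [2])]⟩,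
    ⟨[(0, 1)], [(0, 0), (0, 2), (0, 3), (1, 0), (1, 2), (1, 3), (1, 5)], [(0, 0), (0, 2)],
      [1], [(0, 0, []), (4, 2, [3, 5]), (5, 0, [])]⟩,
    ⟨[(0, 2), (1, 2)], [(2, 0), (2, 2)], [(0, 0)], [4], [(5, 0, []), (7, 0, [])]⟩,
    ⟨[(0, 2), (1, 2), (2, 3)], [(0, 0), (2, 0), (2, 2), (3, 0)], [(0, 0)], [6, 7], [(0, 0,
      []), (7, 0, [])]⟩,
    ⟨[(2, 3), (3, 4)], [(2, 0), (3, 0)], [], [4, 8], [(5, 0, [])]⟩]
  Ta := [((0, 1), 0, 3), ((0, 9), 0, 7), ((5, 4), 0, 2), ((5, 10), 0, 8), ((7, 6), 0, 4), ((7,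
    8), 0, 6)]
  Tb := [((0, 1, 9), 0, 3, 7), ((1, 0, 2), 3, 0, 5), ((2, 1, 3), 5, 3, 1), ((3, 2, 4), 1, 5, 2),
    ((4, 3, 5), 2, 1, 0), ((5, 4, 10), 0, 2, 8), ((6, 7, 10), 4, 0, 8), ((7, 6, 8), 0, 4, 6),
    ((8, 7, 9), 6, 0, 7), ((9, 0, 8), 7, 0, 6), ((10, 5, 6), 8, 0, 4)]
  Tc := [(2, 3, 5)]
  Td := [((2, 3), (4, 3), 1), ((2, 3), (4, 5), 0), ((2, 5), (4, 3), 1), ((2, 5), (4, 5), 0), ((3,
    2), (1, 0), 0), ((3, 2), (1, 2), 5), ((5, 2), (2, 1), 3), ((5, 2), (2, 3), 1)]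
  G := [[0, 0x111e111ea42116111e18e82c, 0, 0x111e111ea4111e111e68111e111e68d2,
    0x1818a411611668c181868411618111ee84e], [0, 0xc6a4ca6a6cac21,
    0x426c8eeae8ee81426c8eeae8ee816, 0x26644eae88e4cec426c8eeae8ee8426c8eecae8e2cd2,
    0x426c8eeae8ee841], [0, 0x1c1e61dea421, 0, 0x3cce911ea4c99e155e68c97e151e68d2,
    0x513e3a9e6841]]

noncomputable def n878 : Ent := ⟨e878, noF, [], [], []⟩

def c878 : PLift (Cov.check n878.C.D v878 = true) := ⟨by decide +kernel⟩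

def b878 : PLift (entF (fidx ts) 400 878 n878 = true) := ⟨by decide +kernel⟩

theorem g878 : GoodF (fidx ts) 400 878 := GoodF.ofV v878 n878 c878.down b878.down

/-- 458664:746 -/
noncomputable def e879 : SCfg where
  D := {
    a := 6
    L := 10
    kp := 8
    inn := [(0, 1), (0, 2), (1, 0), (1, 2), (2, 0), (2, 1), (2, 3), (2, 4), (3, 2), (3, 4), (3, 5), (4,
      2), (4, 3), (4, 5), (5, 3), (5, 4)]
    mix := [(0, 0), (0, 1), (1, 1), (1, 2), (1, 3), (2, 0), (2, 3), (2, 4), (2, 5), (3, 5), (3, 6), (3,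
      7), (4, 0), (4, 8), (4, 9), (5, 7), (5, 8)]
    cl := [0, 1, 7, 0, 5, 2, 6, 3, 4, 8]
    chq := [(0, 3), (0, 4), (3, 0), (3, 5), (4, 0), (5, 3), (5, 6), (6, 5)]
    rng := [(0, 1), (0, 9), (1, 0), (1, 2), (2, 1), (2, 3), (3, 2), (3, 4), (4, 3), (4, 5), (5, 4), (5,
      6), (6, 5), (6, 7), (7, 6), (7, 8), (8, 7), (8, 9), (9, 0), (9, 8)]
    lev := [] }
  links := [[1, 2, 6, 7], [2, 0, 7, 8, 9], [6, 0, 1, 9, 10, 11, 3, 4], [4, 2, 11, 12, 13, 5], [6, 2, 3,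
    5, 14, 15], [14, 4, 3, 13]]
  P := {
    a := 6
    N := 16
    nb := [198, 901, 3675, 14388, 49260, 24600, 32917, 323, 642, 1286, 2564, 5132, 10248, 20520,
      41008, 16464]
    tri := [(0, 1, 2), (0, 1, 7), (0, 2, 6), (0, 6, 7), (1, 2, 9), (1, 7, 8), (1, 8, 9), (2, 3, 4), (2,
      3, 11), (2, 4, 6), (2, 9, 10), (2, 10, 11), (3, 4, 5), (3, 5, 13), (3, 11, 12), (3, 12, 13),
      (4, 5, 14), (4, 6, 15), (4, 14, 15), (5, 13, 14)]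
    fin := [0, 0, 2, 2, 0, 0, 0, 7, 8, 0, 2, 11, 12, 13, 14, 15]
    chd := [(0, 13), (0, 14), (2, 12), (2, 13)]
    steps := [(0, 1), (0, 6), (0, 4), (0, 5), (0, 9), (2, 3), (2, 10)] }
  rep := [0, 7, 11, 13, 14, 2, 12, 8, 15]

noncomputable def v879 : Cov.CovD where
  P := 3
  N := 6
  pl := [1, 2, 5, 9]
  lev := [⟨[], [], [], [1], [(0, 0, [3, 4])]⟩,
    ⟨[], [(0, 0)], [], [1, 7], [(3, 0, [3, 4])]⟩,
    ⟨[(0, 1)], [(0, 0), (0, 5), (1, 0), (1, 5)], [(0, 0), (0, 5)], [2], [(0, 0, [3, 4]),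
      (3, 0, [3, 4]), (4, 5, [3, 6])]⟩,
    ⟨[(0, 2), (1, 2)], [(2, 0), (2, 3), (2, 5), (2, 6)], [(3, 6)], [2], [(6, 6, [5]), (7,
      3, [0, 5])]⟩,
    ⟨[(0, 2), (1, 2), (2, 3)], [(0, 0), (2, 0), (2, 4), (2, 5), (3, 0), (3, 3), (3, 4), (3,
      6)], [(0, 4)], [8], [(0, 0, [3, 4]), (8, 4, [0])]⟩,
    ⟨[(2, 3), (2, 4), (3, 4)], [(3, 3), (3, 4), (3, 6), (4, 0), (4, 3), (4, 4)], [(3, 4)],
      [], [(7, 3, [0, 5]), (8, 4, [0])]⟩]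
  Ta := [((0, 1), 0, 1), ((0, 9), 0, 8), ((3, 2), 0, 7), ((3, 4), 0, 5)]
  Tb := [((0, 1, 9), 0, 1, 8), ((1, 0, 2), 1, 0, 7), ((2, 1, 3), 7, 1, 0), ((3, 2, 4), 0, 7, 5),
    ((4, 3, 5), 5, 0, 2), ((5, 4, 6), 2, 5, 6), ((6, 5, 7), 6, 2, 3), ((7, 6, 8), 3, 6, 4),
    ((8, 7, 9), 4, 3, 8), ((9, 0, 8), 8, 0, 4)]
  Tc := [(0, 3, 4), (3, 0, 5), (5, 3, 6)]
  Td := [((0, 3), (0, 1), 1), ((0, 3), (0, 9), 8), ((0, 3), (3, 2), 7), ((0, 3), (3, 4), 5), ((0,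
    4), (0, 1), 1), ((0, 4), (0, 9), 8), ((0, 4), (3, 2), 7), ((0, 4), (3, 4), 5), ((3, 0),
    (7, 6), 6), ((3, 0), (7, 8), 4), ((3, 5), (7, 6), 6), ((3, 5), (7, 8), 4), ((4, 0), (8,
    7), 3), ((4, 0), (8, 9), 8), ((5, 3), (4, 3), 0), ((5, 3), (4, 5), 2), ((5, 6), (4, 3),
    0), ((5, 6), (4, 5), 2), ((6, 5), (6, 5), 2), ((6, 5), (6, 7), 3)]
  G := [[0x11614611a11aa1418ce14111e116e111e1818eca2,
    0x111e1811ad4814111e116d814111e14d111e1818dc6a, 0x1211614e11a2111e18ce14,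
    0x1161265111e18e8dc11418c81c, 0x12111e12b111e1854cba14], [0, 0,
    0x12116da18511e7c612125618211a711ccec8, 0x1e593a9411e752651e3189c1818c4d11e7545818c18cc,
    0x11e7323411ef94c9a116d523118714c9ac4]]

noncomputable def n879 : Ent := ⟨e879, noF, [], [], []⟩

def c879 : PLift (Cov.check n879.C.D v879 = true) := ⟨by decide +kernel⟩

def b879 : PLift (entF (fidx ts) 400 879 n879 = true) := ⟨by decide +kernel⟩

theorem g879 : GoodF (fidx ts) 400 879 := GoodF.ofV v879 n879 c879.down b879.down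

/-- 458664:747/1 -/
noncomputable def e880 : SCfg where
  D := {
    a := 6
    L := 10
    kp := 7
    inn := [(0, 1), (0, 2), (1, 0), (1, 2), (2, 0), (2, 1), (2, 3), (2, 4), (3, 2), (3, 4), (4, 2), (4,
      3), (4, 5), (5, 4)]
    mix := [(0, 0), (0, 1), (1, 1), (1, 2), (1, 3), (2, 0), (2, 3), (2, 4), (2, 5), (3, 5), (3, 6), (3,
      7), (3, 8), (4, 0), (4, 8), (4, 9), (5, 2), (5, 8), (5, 9)]
    cl := [0, 2, 1, 0, 5, 3, 6, 7, 3, 4]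
    chq := [(1, 5), (4, 5), (5, 1), (5, 4)]
    rng := [(0, 1), (0, 9), (1, 0), (1, 2), (2, 1), (2, 3), (2, 8), (2, 9), (3, 2), (3, 4), (4, 3), (4,
      5), (5, 4), (5, 6), (6, 5), (6, 7), (7, 6), (7, 8), (8, 2), (8, 7), (9, 0), (9, 2)]
    lev := [] }
  links := [[1, 2, 6, 7], [2, 0, 7, 8, 9], [6, 0, 1, 9, 10, 11, 3, 4], [4, 2, 11, 12, 13, 14], [6, 2, 3,
    14, 5, 15], [15, 4, 14, 8]]
  P := {
    a := 6
    N := 16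
    nb := [198, 901, 3675, 30740, 49260, 49424, 32917, 323, 49826, 1286, 2564, 5132, 10248, 20488,
      8504, 368]
    tri := [(0, 1, 2), (0, 1, 7), (0, 2, 6), (0, 6, 7), (1, 2, 9), (1, 7, 8), (1, 8, 9), (2, 3, 4), (2,
      3, 11), (2, 4, 6), (2, 9, 10), (2, 10, 11), (3, 4, 14), (3, 11, 12), (3, 12, 13), (3, 13,
      14), (4, 5, 14), (4, 5, 15), (4, 6, 15), (5, 8, 14), (5, 8, 15)]
    fin := [0, 0, 2, 3, 2, 5, 0, 7, 5, 0, 2, 3, 12, 13, 3, 15]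
    chd := [(2, 15), (5, 2)]
    steps := [(0, 1), (0, 6), (0, 9), (2, 4), (2, 10), (3, 11), (3, 14), (5, 8)] }
  rep := [0, 5, 7, 3, 15, 2, 12, 13]

noncomputable def v880 : Cov.CovD where
  P := 3
  N := 5
  pl := [1, 6, 7]
  lev := [⟨[], [], [], [2], [(0, 0, [])]⟩,
    ⟨[], [(0, 0), (0, 1)], [(0, 1)], [2], [(2, 1, [5]), (3, 0, [])]⟩,
    ⟨[(0, 1)], [(0, 0), (0, 3), (0, 5), (1, 0), (1, 1), (1, 3), (1, 5)], [(0, 0), (0, 3),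
      (0, 5), (3, 5)], [], [(0, 0, []), (3, 0, []), (4, 5, [1, 4]), (5, 3, [])]⟩,
    ⟨[(0, 2), (1, 2)], [(2, 0), (2, 3), (2, 5)], [(3, 3)], [6, 7], [(5, 3, []), (8, 3,
      [])]⟩,
    ⟨[(0, 2), (1, 2), (2, 3)], [(0, 0), (2, 0), (2, 3), (2, 4), (2, 5), (3, 0), (3, 3), (3,
      4)], [(0, 3), (0, 4), (3, 4)], [], [(0, 0, []), (8, 3, []), (9, 4, [5])]⟩,
    ⟨[(2, 4), (3, 4)], [(1, 1), (3, 3), (4, 0), (4, 1), (4, 3), (4, 4)], [(1, 3), (1, 4),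
      (3, 4)], [], [(2, 1, [5]), (8, 3, []), (9, 4, [5])]⟩]
  Ta := [((0, 1), 0, 2), ((0, 9), 0, 4), ((3, 2), 0, 1), ((3, 4), 0, 5), ((5, 4), 3, 5), ((5, 6),
    3, 6), ((8, 2), 3, 1), ((8, 7), 3, 7)]
  Tb := [((0, 1, 9), 0, 2, 4), ((1, 0, 2), 2, 0, 1), ((2, 1, 3), 1, 2, 0), ((2, 1, 8), 1, 2, 3),
    ((2, 1, 9), 1, 2, 4), ((2, 3, 8), 1, 0, 3), ((2, 3, 9), 1, 0, 4), ((2, 8, 9), 1, 3, 4),
    ((3, 2, 4), 0, 1, 5), ((4, 3, 5), 5, 0, 3), ((5, 4, 6), 3, 5, 6), ((6, 5, 7), 6, 3, 7),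
    ((7, 6, 8), 7, 6, 3), ((8, 2, 7), 3, 1, 7), ((9, 0, 2), 4, 0, 1)]
  Tc := [(5, 1, 4)]
  Td := [((1, 5), (2, 1), 2), ((1, 5), (2, 3), 0), ((1, 5), (2, 8), 3), ((1, 5), (2, 9), 4), ((4,
    5), (9, 0), 0), ((4, 5), (9, 2), 1), ((5, 1), (4, 3), 0), ((5, 1), (4, 5), 3), ((5, 4),
    (4, 3), 0), ((5, 4), (4, 5), 3)]
  G := [[0, 0, 0x12212211c11c81c11cfe48, 0xc2c219c92f284, 0x92219c51cc1c51cf6c22898], [0, 0,
    0x19a1285a11af44834e4444f688, 0xc2c295cc2f244, 0x19a1285a12f44834e4484cf618], [0,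
    0x81a12182af8141612acf68614121a86f84c, 0, 0x121211c12f241, 0x12212211c11c11c11cfe81], [0,
    0x2222a182afc1c14144f688, 0, 0x522d2d28812fa44, 0x9285a11ab14c8256f4414f688]]

noncomputable def n880 : Ent := ⟨e880, noF, [], [], []⟩

def c880 : PLift (Cov.check n880.C.D v880 = true) := ⟨by decide +kernel⟩

def b880 : PLift (entF (fidx ts) 400 880 n880 = true) := ⟨by decide +kernel⟩

theorem g880 : GoodF (fidx ts) 400 880 := GoodF.ofV v880 n880 c880.down b880.down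

/-- 458664:747 -/
noncomputable def e881 : SCfg where
  D := {
    a := 6
    L := 11
    kp := 8
    inn := [(0, 1), (0, 2), (1, 0), (1, 2), (2, 0), (2, 1), (2, 3), (2, 4), (3, 2), (3, 4), (4, 2), (4,
      3), (4, 5), (5, 4)]
    mix := [(0, 0), (0, 1), (1, 1), (1, 2), (1, 3), (2, 0), (2, 3), (2, 4), (2, 5), (3, 5), (3, 6), (3,
      7), (3, 8), (4, 0), (4, 8), (4, 9), (5, 8), (5, 9), (5, 10)]
    cl := [0, 3, 5, 1, 2, 0, 6, 7, 0, 4, 8]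
    chq := [(2, 3), (2, 5), (3, 2), (5, 2)]
    rng := [(0, 1), (0, 9), (1, 0), (1, 2), (2, 1), (2, 3), (3, 2), (3, 4), (4, 3), (4, 5), (5, 4), (5,
      6), (6, 5), (6, 7), (7, 6), (7, 8), (8, 7), (8, 10), (9, 0), (9, 10), (10, 8), (10, 9)]
    lev := [] }
  links := [[1, 2, 6, 7], [2, 0, 7, 8, 9], [6, 0, 1, 9, 10, 11, 3, 4], [4, 2, 11, 12, 13, 14], [6, 2, 3,
    14, 5, 15], [15, 4, 14, 16]]
  P := {
    a := 6
    N := 17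
    nb := [198, 901, 3675, 30740, 49260, 114704, 32917, 323, 642, 1286, 2564, 5132, 10248, 20488,
      73784, 65648, 49184]
    tri := [(0, 1, 2), (0, 1, 7), (0, 2, 6), (0, 6, 7), (1, 2, 9), (1, 7, 8), (1, 8, 9), (2, 3, 4), (2,
      3, 11), (2, 4, 6), (2, 9, 10), (2, 10, 11), (3, 4, 14), (3, 11, 12), (3, 12, 13), (3, 13,
      14), (4, 5, 14), (4, 5, 15), (4, 6, 15), (5, 14, 16), (5, 15, 16)]
    fin := [0, 1, 1, 0, 0, 0, 0, 7, 8, 9, 1, 0, 12, 13, 0, 15, 16]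
    chd := [(7, 1), (8, 1)]
    steps := [(0, 6), (0, 4), (0, 3), (0, 5), (0, 11), (0, 14), (1, 2), (1, 10)] }
  rep := [0, 9, 1, 7, 15, 8, 12, 13, 16]

noncomputable def v881 : Cov.CovD where
  P := 3
  N := 6
  pl := [3, 6, 7, 9, 10]
  lev := [⟨[], [], [(0, 3)], [], [(0, 0, []), (1, 3, [2])]⟩,
    ⟨[], [(0, 0), (0, 3), (0, 5)], [(3, 5)], [1], [(1, 3, [2]), (2, 5, [2])]⟩,
    ⟨[(0, 1)], [(0, 0), (0, 2), (0, 3), (1, 0), (1, 2), (1, 3), (1, 5)], [(0, 0), (0, 2)],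
      [1], [(0, 0, []), (4, 2, [3, 5]), (5, 0, [])]⟩,
    ⟨[(0, 2), (1, 2)], [(2, 0), (2, 2)], [(0, 0)], [6, 7], [(5, 0, []), (8, 0, [])]⟩,
    ⟨[(0, 2), (1, 2), (2, 3)], [(0, 0), (2, 0), (2, 2), (3, 0)], [(0, 0)], [4], [(0, 0,
      []), (8, 0, [])]⟩,
    ⟨[(2, 4), (3, 4)], [(3, 0), (4, 0)], [], [4, 8], [(8, 0, [])]⟩]
  Ta := [((0, 1), 0, 3), ((0, 9), 0, 4), ((5, 4), 0, 2), ((5, 6), 0, 6), ((8, 7), 0, 7), ((8,
    10), 0, 8)]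
  Tb := [((0, 1, 9), 0, 3, 4), ((1, 0, 2), 3, 0, 5), ((2, 1, 3), 5, 3, 1), ((3, 2, 4), 1, 5, 2),
    ((4, 3, 5), 2, 1, 0), ((5, 4, 6), 0, 2, 6), ((6, 5, 7), 6, 0, 7), ((7, 6, 8), 7, 6, 0),
    ((8, 7, 10), 0, 7, 8), ((9, 0, 10), 4, 0, 8), ((10, 8, 9), 8, 0, 4)]
  Tc := [(2, 3, 5)]
  Td := [((2, 3), (4, 3), 1), ((2, 3), (4, 5), 0), ((2, 5), (4, 3), 1), ((2, 5), (4, 5), 0), ((3,
    2), (1, 0), 0), ((3, 2), (1, 2), 5), ((5, 2), (2, 1), 3), ((5, 2), (2, 3), 1)]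
  G := [[0, 0x1bcc1a95ae42c1616a596e82c, 0, 0xc161a639ce8493616a95ae471a16ac1ae496,
    0x1a6596684c1688ca68851a639c16ce84e], [0, 0x11611a11ae421, 0x11611a11ae8111611c116e816,
    0x11c11a11ce411611c11ce811a11a11ae4d2, 0x11611c11ae841], [0, 0x48eec6ae24ee421, 0,
    0x6426acec6aa8ec8448ee64e4eaa8acca626cac6a886cd2, 0xca648ee2e8ee841]]

noncomputable def n881 : Ent := ⟨e881, noF, [], [], [(8, 16, [1580044410770988437309982408355971841652082177953823432505692717057, 0])]⟩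

def c881 : PLift (Cov.check n881.C.D v881 = true) := ⟨by decide +kernel⟩

def b881 : PLift (entF (fidx ts) 400 881 n881 = true) := ⟨by decide +kernel⟩

theorem g881 : GoodF (fidx ts) 400 881 := GoodF.ofV v881 n881 c881.down b881.down

/-- 458664:748/1 -/
noncomputable def e882 : SCfg where
  D := {
    a := 6
    L := 10
    kp := 7
    inn := [(0, 1), (0, 2), (1, 0), (1, 2), (2, 0), (2, 1), (2, 3), (2, 4), (3, 2), (3, 4), (4, 2), (4,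
      3), (4, 5), (5, 4)]
    mix := [(0, 0), (0, 1), (1, 1), (1, 2), (1, 3), (2, 0), (2, 3), (2, 4), (2, 5), (3, 5), (3, 6), (3,
      7), (3, 8), (4, 0), (4, 8), (4, 9), (5, 0), (5, 1), (5, 9)]
    cl := [0, 1, 5, 3, 2, 0, 6, 7, 0, 4]
    chq := [(1, 2), (2, 1), (2, 5), (5, 2)]
    rng := [(0, 1), (1, 0), (1, 2), (1, 9), (2, 1), (2, 3), (3, 2), (3, 4), (4, 3), (4, 5), (5, 4), (5,
      6), (6, 5), (6, 7), (7, 6), (7, 8), (8, 7), (8, 9), (9, 1), (9, 8)]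
    lev := [] }
  links := [[1, 2, 6, 7], [2, 0, 7, 8, 9], [6, 0, 1, 9, 10, 11, 3, 4], [4, 2, 11, 12, 13, 14], [6, 2, 3,
    14, 15, 5], [6, 4, 15, 7]]
  P := {
    a := 6
    N := 16
    nb := [198, 901, 3675, 30740, 49260, 32976, 181, 33123, 642, 1286, 2564, 5132, 10248, 20488,
      40984, 16560]
    tri := [(0, 1, 2), (0, 1, 7), (0, 2, 6), (0, 6, 7), (1, 2, 9), (1, 7, 8), (1, 8, 9), (2, 3, 4), (2,
      3, 11), (2, 4, 6), (2, 9, 10), (2, 10, 11), (3, 4, 14), (3, 11, 12), (3, 12, 13), (3, 13,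
      14), (4, 5, 6), (4, 5, 15), (4, 14, 15), (5, 6, 7), (5, 7, 15)]
    fin := [0, 1, 2, 3, 3, 3, 3, 0, 1, 9, 2, 3, 12, 13, 3, 15]
    chd := [(0, 2), (1, 2)]
    steps := [(0, 7), (1, 8), (2, 10), (3, 4), (3, 5), (3, 6), (3, 11), (3, 14)] }
  rep := [3, 0, 2, 9, 15, 1, 12, 13]

noncomputable def v882 : Cov.CovD where
  P := 3
  N := 5
  pl := [3, 6, 7, 9]
  lev := [⟨[], [], [(0, 1)], [], [(0, 0, []), (1, 1, [2])]⟩,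
    ⟨[], [(0, 0), (0, 1), (0, 5)], [(1, 5)], [3], [(1, 1, [2]), (2, 5, [2])]⟩,
    ⟨[(0, 1)], [(0, 0), (0, 1), (0, 2), (1, 0), (1, 1), (1, 2), (1, 5)], [(0, 0), (0, 2)],
      [3], [(0, 0, []), (4, 2, [1, 5]), (5, 0, [])]⟩,
    ⟨[(0, 2), (1, 2)], [(2, 0), (2, 2)], [(0, 0)], [6, 7], [(5, 0, []), (8, 0, [])]⟩,
    ⟨[(0, 2), (1, 2), (2, 3)], [(0, 0), (2, 0), (2, 2), (3, 0)], [(0, 0)], [4], [(0, 0,
      []), (8, 0, [])]⟩,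
    ⟨[(2, 4), (3, 4)], [(0, 0), (0, 1), (1, 1), (2, 0), (4, 0), (4, 1)], [(0, 1)], [4],
      [(0, 0, []), (1, 1, [2])]⟩]
  Ta := [((0, 1), 0, 1), ((5, 4), 0, 2), ((5, 6), 0, 6), ((8, 7), 0, 7), ((8, 9), 0, 4)]
  Tb := [((1, 0, 2), 1, 0, 5), ((1, 0, 9), 1, 0, 4), ((1, 2, 9), 1, 5, 4), ((2, 1, 3), 5, 1, 3),
    ((3, 2, 4), 3, 5, 2), ((4, 3, 5), 2, 3, 0), ((5, 4, 6), 0, 2, 6), ((6, 5, 7), 6, 0, 7),
    ((7, 6, 8), 7, 6, 0), ((8, 7, 9), 0, 7, 4), ((9, 1, 8), 4, 1, 0)]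
  Tc := [(2, 1, 5)]
  Td := [((1, 2), (1, 0), 0), ((1, 2), (1, 2), 5), ((1, 2), (1, 9), 4), ((2, 1), (4, 3), 3), ((2,
    1), (4, 5), 0), ((2, 5), (4, 3), 3), ((2, 5), (4, 5), 0), ((5, 2), (2, 1), 1), ((5, 2),
    (2, 3), 3)]
  G := [[0, 0x82682a84ae484a44a82642a486e848642a24ce42a84aac6c, 0, 0xc2c2642c2c2c2ec28c2c,
    0x48684a84ce248c648664868a486884864ca486e8dc], [0, 0, 0x81641a116e14a11614cea14,
    0x12126121212ec212882c, 0x116816614a8a11611c116e89486848684a84cea45], [0, 0, 0,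
    0x92526929292ec2c28829, 0x816416614c8a48614a816e89486848684a84cea45]]

noncomputable def n882 : Ent := ⟨e882, noF, [], [], []⟩

def c882 : PLift (Cov.check n882.C.D v882 = true) := ⟨by decide +kernel⟩

def b882 : PLift (entF (fidx ts) 400 882 n882 = true) := ⟨by decide +kernel⟩

theorem g882 : GoodF (fidx ts) 400 882 := GoodF.ofV v882 n882 c882.down b882.down

/-- 458664:748 -/
noncomputable def e883 : SCfg where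
  D := {
    a := 6
    L := 11
    kp := 8
    inn := [(0, 1), (0, 2), (1, 0), (1, 2), (2, 0), (2, 1), (2, 3), (2, 4), (3, 2), (3, 4), (4, 2), (4,
      3), (4, 5), (5, 4)]
    mix := [(0, 0), (0, 1), (1, 1), (1, 2), (1, 3), (2, 0), (2, 3), (2, 4), (2, 5), (3, 5), (3, 6), (3,
      7), (3, 8), (4, 0), (4, 8), (4, 9), (5, 0), (5, 9), (5, 10)]
    cl := [0, 3, 5, 1, 2, 0, 6, 7, 0, 4, 8]
    chq := [(2, 3), (2, 5), (3, 2), (5, 2)]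
    rng := [(0, 1), (0, 10), (1, 0), (1, 2), (2, 1), (2, 3), (3, 2), (3, 4), (4, 3), (4, 5), (5, 4),
      (5, 6), (6, 5), (6, 7), (7, 6), (7, 8), (8, 7), (8, 9), (9, 8), (9, 10), (10, 0), (10, 9)]
    lev := [] }
  links := [[1, 2, 6, 7], [2, 0, 7, 8, 9], [6, 0, 1, 9, 10, 11, 3, 4], [4, 2, 11, 12, 13, 14], [6, 2, 3,
    14, 15, 5], [6, 4, 15, 16]]
  P := {
    a := 6
    N := 17
    nb := [198, 901, 3675, 30740, 49260, 98384, 65717, 323, 642, 1286, 2564, 5132, 10248, 20488,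
      40984, 81968, 32864]
    tri := [(0, 1, 2), (0, 1, 7), (0, 2, 6), (0, 6, 7), (1, 2, 9), (1, 7, 8), (1, 8, 9), (2, 3, 4), (2,
      3, 11), (2, 4, 6), (2, 9, 10), (2, 10, 11), (3, 4, 14), (3, 11, 12), (3, 12, 13), (3, 13,
      14), (4, 5, 6), (4, 5, 15), (4, 14, 15), (5, 6, 16), (5, 15, 16)]
    fin := [0, 1, 1, 0, 0, 0, 0, 7, 8, 9, 1, 0, 12, 13, 0, 15, 16]
    chd := [(7, 1), (8, 1)]
    steps := [(0, 6), (0, 4), (0, 3), (0, 5), (0, 11), (0, 14), (1, 2), (1, 10)] }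
  rep := [0, 9, 1, 7, 15, 8, 12, 13, 16]

noncomputable def v883 : Cov.CovD where
  P := 3
  N := 6
  pl := [3, 6, 7, 9, 10]
  lev := [⟨[], [], [(0, 3)], [], [(0, 0, []), (1, 3, [2])]⟩,
    ⟨[], [(0, 0), (0, 3), (0, 5)], [(3, 5)], [1], [(1, 3, [2]), (2, 5, [2])]⟩,
    ⟨[(0, 1)], [(0, 0), (0, 2), (0, 3), (1, 0), (1, 2), (1, 3), (1, 5)], [(0, 0), (0, 2)],
      [1], [(0, 0, []), (4, 2, [3, 5]), (5, 0, [])]⟩,
    ⟨[(0, 2), (1, 2)], [(2, 0), (2, 2)], [(0, 0)], [6, 7], [(5, 0, []), (8, 0, [])]⟩,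
    ⟨[(0, 2), (1, 2), (2, 3)], [(0, 0), (2, 0), (2, 2), (3, 0)], [(0, 0)], [4], [(0, 0,
      []), (8, 0, [])]⟩,
    ⟨[(2, 4), (3, 4)], [(0, 0), (2, 0), (4, 0)], [], [4, 8], [(0, 0, [])]⟩]
  Ta := [((0, 1), 0, 3), ((0, 10), 0, 8), ((5, 4), 0, 2), ((5, 6), 0, 6), ((8, 7), 0, 7), ((8,
    9), 0, 4)]
  Tb := [((0, 1, 10), 0, 3, 8), ((1, 0, 2), 3, 0, 5), ((2, 1, 3), 5, 3, 1), ((3, 2, 4), 1, 5, 2),
    ((4, 3, 5), 2, 1, 0), ((5, 4, 6), 0, 2, 6), ((6, 5, 7), 6, 0, 7), ((7, 6, 8), 7, 6, 0),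
    ((8, 7, 9), 0, 7, 4), ((9, 8, 10), 4, 0, 8), ((10, 0, 9), 8, 0, 4)]
  Tc := [(2, 3, 5)]
  Td := [((2, 3), (4, 3), 1), ((2, 3), (4, 5), 0), ((2, 5), (4, 3), 1), ((2, 5), (4, 5), 0), ((3,
    2), (1, 0), 0), ((3, 2), (1, 2), 5), ((5, 2), (2, 1), 3), ((5, 2), (2, 3), 1)]
  G := [[0, 0x48eec6ae24ee42ca648ee2e8ee82c, 0, 0x48eec6ae24ee4ca648ee64ea82cca62e8eac6a4cd2,
    0x8e6e86684ca64828e8ca64828e85ca648ee2e8ee84e], [0, 0xca62e8eac6a4c21,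
    0x11c11a11ce4111611611ce81a, 0x116116611a8c11611a11ce811611c116e8d2,
    0x1161166841168811688511611a116e84e], [0, 0xca648ee2e8ee821, 0,
    0x93616ac1ae493653c16ce81a6c1ac1ae4d2, 0xca648ee2e8ee841]]

noncomputable def n883 : Ent := ⟨e883, noF, [], [], [(7, 16, [1580044410770988437309982408355971841652082177953823432505692725249, 0])]⟩

def c883 : PLift (Cov.check n883.C.D v883 = true) := ⟨by decide +kernel⟩

def b883 : PLift (entF (fidx ts) 400 883 n883 = true) := ⟨by decide +kernel⟩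

theorem g883 : GoodF (fidx ts) 400 883 := GoodF.ofV v883 n883 c883.down b883.down

/-- 458644:752 -/
noncomputable def e884 : SCfg where
  D := {
    a := 6
    L := 10
    kp := 7
    inn := [(0, 1), (0, 2), (1, 0), (1, 2), (2, 0), (2, 1), (2, 3), (3, 2), (3, 4), (3, 5), (4, 3), (5,
      3)]
    mix := [(0, 0), (0, 1), (1, 1), (1, 2), (1, 3), (2, 0), (2, 3), (2, 4), (2, 5), (2, 6), (3, 5), (3,
      6), (3, 7), (4, 5), (4, 7), (4, 8), (5, 6), (5, 7), (5, 9)]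
    cl := [1, 2, 4, 1, 5, 0, 0, 3, 6, 7]
    chq := [(0, 3), (3, 0)]
    rng := [(0, 1), (0, 6), (1, 0), (1, 2), (2, 1), (2, 3), (3, 2), (3, 4), (4, 3), (4, 5), (5, 4), (5,
      8), (6, 0), (6, 9), (7, 8), (7, 9), (8, 5), (8, 7), (9, 6), (9, 7)]
    lev := [] }
  links := [[1, 2, 6, 7], [2, 0, 7, 8, 9], [6, 0, 1, 9, 10, 11, 3, 12], [12, 2, 11, 4, 13, 5], [13, 3,
    11, 14], [12, 3, 13, 15]]
  P := {
    a := 6
    N := 16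
    nb := [198, 901, 7755, 14388, 26632, 45064, 4229, 323, 642, 1286, 2564, 17436, 32876, 49208,
      10256, 12320]
    tri := [(0, 1, 2), (0, 1, 7), (0, 2, 6), (0, 6, 7), (1, 2, 9), (1, 7, 8), (1, 8, 9), (2, 3, 11),
      (2, 3, 12), (2, 6, 12), (2, 9, 10), (2, 10, 11), (3, 4, 11), (3, 4, 13), (3, 5, 12), (3, 5,
      13), (4, 11, 14), (4, 13, 14), (5, 12, 15), (5, 13, 15)]
    fin := [0, 0, 0, 3, 3, 3, 0, 7, 8, 0, 10, 3, 3, 13, 14, 15]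
    chd := [(3, 13)]
    steps := [(0, 1), (0, 2), (0, 6), (0, 9), (3, 4), (3, 5), (3, 11), (3, 12)] }
  rep := [3, 0, 7, 13, 8, 10, 14, 15]

noncomputable def v884 : Cov.CovD where
  P := 3
  N := 5
  pl := [1, 2, 4, 8, 9]
  lev := [⟨[], [], [], [2], [(0, 1, [])]⟩,
    ⟨[], [(0, 1)], [], [2, 4], [(3, 1, [])]⟩,
    ⟨[(0, 1)], [(0, 0), (0, 1), (1, 0), (1, 1)], [(0, 0), (0, 1), (1, 1)], [5], [(0, 1,
      []), (3, 1, []), (5, 0, [3]), (6, 0, [3])]⟩,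
    ⟨[(0, 2), (1, 2)], [(2, 0), (2, 1), (2, 3)], [(0, 0), (0, 3)], [], [(5, 0, [3]), (6, 0,
      [3]), (7, 3, [0])]⟩,
    ⟨[(2, 3)], [(2, 0), (3, 0), (3, 3)], [(0, 3)], [6], [(5, 0, [3]), (7, 3, [0])]⟩,
    ⟨[(2, 3), (3, 4)], [(2, 0), (3, 0), (3, 3), (4, 3)], [(0, 3)], [7], [(6, 0, [3]), (7,
      3, [0])]⟩]
  Ta := [((0, 1), 1, 2), ((0, 6), 1, 0), ((3, 2), 1, 4), ((3, 4), 1, 5), ((5, 4), 0, 5), ((5, 8),
    0, 6), ((6, 0), 0, 1), ((6, 9), 0, 7)]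
  Tb := [((0, 1, 6), 1, 2, 0), ((1, 0, 2), 2, 1, 4), ((2, 1, 3), 4, 2, 1), ((3, 2, 4), 1, 4, 5),
    ((4, 3, 5), 5, 1, 0), ((5, 4, 8), 0, 5, 6), ((6, 0, 9), 0, 1, 7), ((7, 8, 9), 3, 6, 7),
    ((8, 5, 7), 6, 0, 3), ((9, 6, 7), 7, 0, 3)]
  Tc := []
  Td := [((0, 3), (5, 4), 5), ((0, 3), (5, 8), 6), ((0, 3), (6, 0), 1), ((0, 3), (6, 9), 7), ((3,
    0), (7, 8), 6), ((3, 0), (7, 9), 7)]
  G := [[0, 0, 0xc3c15a653c196ac28, 0x19ca5a65cc196ac53c19a63cc156ac51, 0x13ca5a671c616ac28],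
    [0, 0, 0x19ca5a651c396acc3c19a671c616acc2, 0, 0x3cc196a419ca5a671c616ac993c15a6889], [0,
    0xe14e12e18e18, 0xc1ac2b6668d61ac28, 0xca4da16c1ac6dacc1cc2b642cb865ac94,
    0xca4da16c124c2fac21], [0, 0, 0xaa4da162c54c27ac4ac5ca36668d61ac8a, 0,
    0xac5aa96cc5c63acca4da16c1cc27ac91]]

noncomputable def n884 : Ent := ⟨e884, noF, [], [], []⟩

def c884 : PLift (Cov.check n884.C.D v884 = true) := ⟨by decide +kernel⟩

def b884 : PLift (entF (fidx ts) 400 884 n884 = true) := ⟨by decide +kernel⟩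

theorem g884 : GoodF (fidx ts) 400 884 := GoodF.ofV v884 n884 c884.down b884.down

/-- 485664:753/1 -/
noncomputable def e885 : SCfg where
  D := {
    a := 6
    L := 10
    kp := 7
    inn := [(0, 1), (0, 3), (1, 0), (1, 2), (1, 3), (1, 4), (2, 1), (3, 0), (3, 1), (3, 4), (4, 1), (4,
      3), (4, 5), (5, 4)]
    mix := [(0, 0), (0, 1), (1, 1), (1, 2), (1, 3), (1, 4), (2, 2), (2, 3), (2, 5), (2, 6), (3, 0), (3,
      7), (3, 8), (4, 4), (4, 7), (4, 9), (5, 5), (5, 7), (5, 9)]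
    cl := [3, 2, 1, 1, 0, 4, 6, 0, 7, 5]
    chq := [(0, 3), (1, 3), (3, 0), (3, 1)]
    rng := [(0, 1), (0, 8), (1, 0), (1, 2), (2, 1), (2, 5), (3, 4), (3, 6), (4, 3), (4, 9), (5, 2), (5,
      6), (5, 7), (5, 9), (6, 3), (6, 5), (7, 5), (7, 8), (8, 0), (8, 7), (9, 4), (9, 5)]
    lev := [] }
  links := [[1, 3, 6, 7], [3, 0, 7, 8, 2, 9, 10, 4], [9, 1, 8, 11, 12], [6, 0, 1, 4, 13, 14], [13, 3, 1,
    10, 15, 5], [13, 4, 15, 11]]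
  P := {
    a := 6
    N := 16
    nb := [202, 1949, 6914, 24659, 42026, 43024, 16521, 323, 2182, 5126, 33298, 45348, 2564, 18488,
      8264, 3120]
    tri := [(0, 1, 3), (0, 1, 7), (0, 3, 6), (0, 6, 7), (1, 2, 8), (1, 2, 9), (1, 3, 4), (1, 4, 10),
      (1, 7, 8), (1, 9, 10), (2, 8, 11), (2, 9, 12), (2, 11, 12), (3, 4, 13), (3, 6, 14), (3, 13,
      14), (4, 5, 13), (4, 5, 15), (4, 10, 15), (5, 11, 13), (5, 11, 15)]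
    fin := [0, 0, 2, 0, 4, 5, 0, 7, 2, 2, 4, 5, 12, 4, 14, 15]
    chd := [(0, 2), (0, 4)]
    steps := [(0, 1), (0, 3), (0, 6), (2, 8), (2, 9), (4, 10), (4, 13), (5, 11)] }
  rep := [4, 2, 7, 0, 5, 15, 12, 14]

noncomputable def v885 : Cov.CovD where
  P := 3
  N := 5
  pl := [1, 5, 6, 8, 9]
  lev := [⟨[], [], [], [2], [(0, 3, [0, 1])]⟩,
    ⟨[], [(0, 0), (0, 1), (0, 3)], [(0, 1), (1, 1)], [2], [(2, 1, [3]), (3, 1, [3]), (4, 0,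
      [3])]⟩,
    ⟨[(0, 1)], [(1, 0), (1, 1)], [(1, 1)], [4, 6], [(2, 1, [3]), (3, 1, [3])]⟩,
    ⟨[(0, 1), (1, 2)], [(0, 0), (0, 3), (1, 0), (1, 1), (1, 3)], [(0, 3)], [7], [(0, 3, [0,
      1]), (7, 0, [3])]⟩,
    ⟨[(0, 1), (0, 3), (1, 2), (1, 3)], [(1, 0), (1, 1), (3, 0), (3, 3)], [(0, 0)], [5],
      [(4, 0, [3]), (7, 0, [3])]⟩,
    ⟨[(1, 4), (3, 4)], [(3, 0), (4, 0)], [], [4, 5], [(7, 0, [3])]⟩]
  Ta := [((2, 1), 1, 2), ((2, 5), 1, 4), ((3, 4), 1, 0), ((3, 6), 1, 6), ((4, 3), 0, 1), ((4, 9),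
    0, 5), ((7, 5), 0, 4), ((7, 8), 0, 7)]
  Tb := [((0, 1, 8), 3, 2, 7), ((1, 0, 2), 2, 3, 1), ((2, 1, 5), 1, 2, 4), ((3, 4, 6), 1, 0, 6),
    ((4, 3, 9), 0, 1, 5), ((5, 2, 6), 4, 1, 6), ((5, 2, 7), 4, 1, 0), ((5, 2, 9), 4, 1, 5),
    ((5, 6, 7), 4, 6, 0), ((5, 6, 9), 4, 6, 5), ((5, 7, 9), 4, 0, 5), ((6, 3, 5), 6, 1, 4),
    ((7, 5, 8), 0, 4, 7), ((8, 0, 7), 7, 3, 0), ((9, 4, 5), 5, 0, 4)]
  Tc := [(3, 0, 1)]
  Td := [((0, 3), (4, 3), 1), ((0, 3), (4, 9), 5), ((0, 3), (7, 5), 4), ((0, 3), (7, 8), 7), ((1,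
    3), (2, 1), 2), ((1, 3), (2, 5), 4), ((1, 3), (3, 4), 0), ((1, 3), (3, 6), 6), ((3, 0),
    (0, 1), 2), ((3, 0), (0, 8), 7), ((3, 1), (0, 1), 2), ((3, 1), (0, 8), 7)]
  G := [[0, 0, 0x8a6124c1ca61d82, 0x1264482682a81ae42a14aa12a12a12cedc1,
    0x12148267116221844f1411618a2fd188892], [0, 0x184451822568818c11a12116e11a11aa11c12cae45,
    0x826124c1c261d82, 0, 0x2214826722141842af116181422fd188892], [0, 0,
    0x4a64ea24cec26482e2ece58a686a82ce882cc2, 0x42662c24cec26482e6ace52ac82a82ce8c1,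
    0xca6482e2ece182686a82ce4a6c6aa4cec92], [0, 0, 0x42642a24ce482682a82ce482ec2ae2ce9c2, 0,
    0xc26482e2ece182682a82ce42a42a24cec92]]

noncomputable def n885 : Ent := ⟨e885, noF, [], [], []⟩

def c885 : PLift (Cov.check n885.C.D v885 = true) := ⟨by decide +kernel⟩

def b885 : PLift (entF (fidx ts) 400 885 n885 = true) := ⟨by decide +kernel⟩

theorem g885 : GoodF (fidx ts) 400 885 := GoodF.ofV v885 n885 c885.down b885.down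

/-- 485664:753/2 -/
noncomputable def e886 : SCfg where
  D := {
    a := 6
    L := 10
    kp := 7
    inn := [(0, 1), (0, 3), (1, 0), (1, 2), (1, 3), (1, 4), (2, 1), (3, 0), (3, 1), (3, 4), (4, 1), (4,
      3), (4, 5), (5, 4)]
    mix := [(0, 0), (0, 1), (1, 1), (1, 2), (1, 3), (1, 4), (2, 2), (2, 3), (2, 5), (2, 6), (3, 0), (3,
      7), (3, 8), (4, 4), (4, 7), (4, 9), (5, 6), (5, 7), (5, 9)]
    cl := [3, 2, 1, 1, 0, 6, 4, 0, 7, 5]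
    chq := [(0, 3), (1, 3), (3, 0), (3, 1)]
    rng := [(0, 1), (0, 8), (1, 0), (1, 2), (2, 1), (2, 5), (3, 4), (3, 6), (4, 3), (4, 9), (5, 2), (5,
      6), (6, 3), (6, 5), (6, 7), (6, 9), (7, 6), (7, 8), (8, 0), (8, 7), (9, 4), (9, 6)]
    lev := [] }
  links := [[1, 3, 6, 7], [3, 0, 7, 8, 2, 9, 10, 4], [9, 1, 8, 11, 12], [6, 0, 1, 4, 13, 14], [13, 3, 1,
    10, 15, 5], [13, 4, 15, 12]]
  P := {
    a := 6
    N := 16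
    nb := [202, 1949, 6914, 24659, 42026, 45072, 16521, 323, 2182, 5126, 33298, 4356, 43556, 20536,
      8264, 5168]
    tri := [(0, 1, 3), (0, 1, 7), (0, 3, 6), (0, 6, 7), (1, 2, 8), (1, 2, 9), (1, 3, 4), (1, 4, 10),
      (1, 7, 8), (1, 9, 10), (2, 8, 11), (2, 9, 12), (2, 11, 12), (3, 4, 13), (3, 6, 14), (3, 13,
      14), (4, 5, 13), (4, 5, 15), (4, 10, 15), (5, 12, 13), (5, 12, 15)]
    fin := [0, 0, 2, 0, 4, 5, 0, 7, 2, 2, 4, 11, 5, 4, 14, 15]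
    chd := [(0, 2), (0, 4)]
    steps := [(0, 1), (0, 3), (0, 6), (2, 8), (2, 9), (4, 10), (4, 13), (5, 12)] }
  rep := [4, 2, 7, 0, 5, 15, 11, 14]

noncomputable def v886 : Cov.CovD where
  P := 3
  N := 5
  pl := [1, 5, 6, 8, 9]
  lev := [⟨[], [], [], [2], [(0, 3, [0, 1])]⟩,
    ⟨[], [(0, 0), (0, 1), (0, 3)], [(0, 1), (1, 1)], [2], [(2, 1, [3]), (3, 1, [3]), (4, 0,
      [3])]⟩,
    ⟨[(0, 1)], [(1, 0), (1, 1)], [(1, 1)], [4, 6], [(2, 1, [3]), (3, 1, [3])]⟩,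
    ⟨[(0, 1), (1, 2)], [(0, 0), (0, 3), (1, 0), (1, 1), (1, 3)], [(0, 3)], [7], [(0, 3, [0,
      1]), (7, 0, [3])]⟩,
    ⟨[(0, 1), (0, 3), (1, 2), (1, 3)], [(1, 0), (1, 1), (3, 0), (3, 3)], [(0, 0)], [5],
      [(4, 0, [3]), (7, 0, [3])]⟩,
    ⟨[(1, 4), (3, 4)], [(3, 0), (4, 0)], [], [4, 5], [(7, 0, [3])]⟩]
  Ta := [((2, 1), 1, 2), ((2, 5), 1, 6), ((3, 4), 1, 0), ((3, 6), 1, 4), ((4, 3), 0, 1), ((4, 9),
    0, 5), ((7, 6), 0, 4), ((7, 8), 0, 7)]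
  Tb := [((0, 1, 8), 3, 2, 7), ((1, 0, 2), 2, 3, 1), ((2, 1, 5), 1, 2, 6), ((3, 4, 6), 1, 0, 4),
    ((4, 3, 9), 0, 1, 5), ((5, 2, 6), 6, 1, 4), ((6, 3, 5), 4, 1, 6), ((6, 3, 7), 4, 1, 0),
    ((6, 3, 9), 4, 1, 5), ((6, 5, 7), 4, 6, 0), ((6, 5, 9), 4, 6, 5), ((6, 7, 9), 4, 0, 5),
    ((7, 6, 8), 0, 4, 7), ((8, 0, 7), 7, 3, 0), ((9, 4, 6), 5, 0, 4)]
  Tc := [(3, 0, 1)]
  Td := [((0, 3), (4, 3), 1), ((0, 3), (4, 9), 5), ((0, 3), (7, 6), 4), ((0, 3), (7, 8), 7), ((1,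
    3), (2, 1), 2), ((1, 3), (2, 5), 6), ((1, 3), (3, 4), 0), ((1, 3), (3, 6), 4), ((3, 0),
    (0, 1), 2), ((3, 0), (0, 8), 7), ((3, 1), (0, 1), 2), ((3, 1), (0, 8), 7)]
  G := [[0, 0, 0x826124c1c261d82, 0x42612a14ce12612a31ae582682a82ce8c1,
    0x148263441824c22f126181422fd1812c892], [0, 0x4a61c261686a18c4a61486a1c2a1acc,
    0x82c146a1c6a1d42, 0, 0x1268265416121844f12611cca6bd12a8892], [0, 0,
    0x42642a24ce482682a82ce482ec2ae2ce9c2, 0x42662c24ce482682a82ce482ec2ae2ce9c1,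
    0x42642a24cec26482e2ece582682682ce892], [0, 0, 0x42646a24ce6425a8682a82ce48eec6aa8e9c2,
    0, 0x8a686a82ce814a646a24cec2648ae2e8ee583]]

noncomputable def n886 : Ent := ⟨e886, noF, [], [], []⟩

def c886 : PLift (Cov.check n886.C.D v886 = true) := ⟨by decide +kernel⟩

def b886 : PLift (entF (fidx ts) 400 886 n886 = true) := ⟨by decide +kernel⟩

theorem g886 : GoodF (fidx ts) 400 886 := GoodF.ofV v886 n886 c886.down b886.down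

/-- 485664:753 -/
noncomputable def e887 : SCfg where
  D := {
    a := 6
    L := 11
    kp := 8
    inn := [(0, 1), (0, 3), (1, 0), (1, 2), (1, 3), (1, 4), (2, 1), (3, 0), (3, 1), (3, 4), (4, 1), (4,
      3), (4, 5), (5, 4)]
    mix := [(0, 0), (0, 1), (1, 1), (1, 2), (1, 3), (1, 4), (2, 2), (2, 3), (2, 5), (2, 6), (3, 0), (3,
      7), (3, 8), (4, 4), (4, 7), (4, 9), (5, 7), (5, 9), (5, 10)]
    cl := [3, 2, 1, 1, 0, 5, 6, 0, 7, 4, 8]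
    chq := [(0, 3), (1, 3), (3, 0), (3, 1)]
    rng := [(0, 1), (0, 8), (1, 0), (1, 2), (2, 1), (2, 5), (3, 4), (3, 6), (4, 3), (4, 9), (5, 2), (5,
      6), (6, 3), (6, 5), (7, 8), (7, 10), (8, 0), (8, 7), (9, 4), (9, 10), (10, 7), (10, 9)]
    lev := [] }
  links := [[1, 3, 6, 7], [3, 0, 7, 8, 2, 9, 10, 4], [9, 1, 8, 11, 12], [6, 0, 1, 4, 13, 14], [13, 3, 1,
    10, 15, 5], [13, 4, 15, 16]]
  P := {
    a := 6
    N := 17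
    nb := [202, 1949, 6914, 24659, 42026, 106512, 16521, 323, 2182, 5126, 33298, 4356, 2564, 81976,
      8264, 66608, 40992]
    tri := [(0, 1, 3), (0, 1, 7), (0, 3, 6), (0, 6, 7), (1, 2, 8), (1, 2, 9), (1, 3, 4), (1, 4, 10),
      (1, 7, 8), (1, 9, 10), (2, 8, 11), (2, 9, 12), (2, 11, 12), (3, 4, 13), (3, 6, 14), (3, 13,
      14), (4, 5, 13), (4, 5, 15), (4, 10, 15), (5, 13, 16), (5, 15, 16)]
    fin := [0, 0, 2, 0, 4, 4, 0, 7, 2, 2, 4, 11, 12, 4, 14, 15, 16]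
    chd := [(0, 2), (0, 4)]
    steps := [(0, 1), (0, 3), (0, 6), (2, 8), (2, 9), (4, 5), (4, 10), (4, 13)] }
  rep := [4, 2, 7, 0, 15, 11, 12, 14, 16]

noncomputable def v887 : Cov.CovD where
  P := 3
  N := 6
  pl := [1, 5, 6, 8, 9, 10]
  lev := [⟨[], [], [], [2], [(0, 3, [0, 1])]⟩,
    ⟨[], [(0, 0), (0, 1), (0, 3)], [(0, 1), (1, 1)], [2], [(2, 1, [3]), (3, 1, [3]), (4, 0,
      [3])]⟩,
    ⟨[(0, 1)], [(1, 0), (1, 1)], [(1, 1)], [5, 6], [(2, 1, [3]), (3, 1, [3])]⟩,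
    ⟨[(0, 1), (1, 2)], [(0, 0), (0, 3), (1, 0), (1, 1), (1, 3)], [(0, 3)], [7], [(0, 3, [0,
      1]), (7, 0, [3])]⟩,
    ⟨[(0, 1), (0, 3), (1, 2), (1, 3)], [(1, 0), (1, 1), (3, 0), (3, 3)], [(0, 0)], [4],
      [(4, 0, [3]), (7, 0, [3])]⟩,
    ⟨[(1, 4), (3, 4)], [(3, 0), (4, 0)], [], [4, 8], [(7, 0, [3])]⟩]
  Ta := [((2, 1), 1, 2), ((2, 5), 1, 5), ((3, 4), 1, 0), ((3, 6), 1, 6), ((4, 3), 0, 1), ((4, 9),
    0, 4), ((7, 8), 0, 7), ((7, 10), 0, 8)]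
  Tb := [((0, 1, 8), 3, 2, 7), ((1, 0, 2), 2, 3, 1), ((2, 1, 5), 1, 2, 5), ((3, 4, 6), 1, 0, 6),
    ((4, 3, 9), 0, 1, 4), ((5, 2, 6), 5, 1, 6), ((6, 3, 5), 6, 1, 5), ((7, 8, 10), 0, 7, 8),
    ((8, 0, 7), 7, 3, 0), ((9, 4, 10), 4, 0, 8), ((10, 7, 9), 8, 0, 4)]
  Tc := [(3, 0, 1)]
  Td := [((0, 3), (4, 3), 1), ((0, 3), (4, 9), 4), ((0, 3), (7, 8), 7), ((0, 3), (7, 10), 8),
    ((1, 3), (2, 1), 2), ((1, 3), (2, 5), 5), ((1, 3), (3, 4), 0), ((1, 3), (3, 6), 6), ((3,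
    0), (0, 1), 2), ((3, 0), (0, 8), 7), ((3, 1), (0, 1), 2), ((3, 1), (0, 8), 7)]
  G := [[0, 0, 0xc6a1c6a1c6a1d42, 0x3964416ac1ac1ae35a35aa35a16a356edc1,
    0x1214ca67141811c4a6f121418ca6fd188892], [0, 0x116211611611ae11611611cee11a11ac8c1,
    0xc6a1c6a1c6a1d42, 0, 0x14ca651211618e4f1161814e2fd1218a892], [0, 0,
    0x442ca648ee64eca626cad48eec6aa2cea82c6a886dc2,
    0xca648ee2e8eeca68548eec6ae24eec6ae24e69c1, 0xca648eec1ca6c6aa8eca6c6aa6cec96422e8e2983],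
    [0, 0, 0x642c448ee64eca644ad48eec6aa8ea2a8ac6aa2c6dc2, 0,
    0xca6c6aa6ceca6c6aa6cec1ca648ee2e8ee183]]

noncomputable def n887 : Ent := ⟨e887, noF, [], [], [(11, 16, [1580044410770988437309982408355971841652082177953823432505692737537, 0]), (12, 16, [1580044410770988437309982408355971841652082177953823432505692741633, 0])]⟩

def c887 : PLift (Cov.check n887.C.D v887 = true) := ⟨by decide +kernel⟩

def b887 : PLift (entF (fidx ts) 400 887 n887 = true) := ⟨by decide +kernel⟩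

theorem g887 : GoodF (fidx ts) 400 887 := GoodF.ofV v887 n887 c887.down b887.down

/-- 485646:757 -/
noncomputable def e888 : SCfg where
  D := {
    a := 6
    L := 10
    kp := 8
    inn := [(0, 1), (0, 3), (1, 0), (1, 2), (1, 3), (1, 5), (2, 1), (2, 5), (3, 0), (3, 1), (3, 4), (3,
      5), (4, 3), (5, 1), (5, 2), (5, 3)]
    mix := [(0, 0), (0, 1), (1, 0), (1, 2), (1, 3), (1, 4), (2, 2), (2, 5), (2, 6), (3, 1), (3, 7), (4,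
      1), (4, 7), (4, 8), (5, 5), (5, 7), (5, 9)]
    cl := [0, 2, 0, 5, 6, 3, 4, 1, 7, 8]
    chq := [(0, 1), (1, 0), (1, 2), (1, 3), (1, 4), (2, 1), (3, 1), (4, 1)]
    rng := [(0, 1), (0, 4), (1, 0), (1, 8), (2, 3), (2, 6), (3, 2), (3, 4), (4, 0), (4, 3), (5, 6), (5,
      9), (6, 2), (6, 5), (7, 8), (7, 9), (8, 1), (8, 7), (9, 5), (9, 7)]
    lev := [] }
  links := [[1, 6, 7, 3], [6, 0, 3, 5, 2, 8, 9, 10], [8, 1, 5, 11, 12], [5, 1, 0, 7, 4, 13], [13, 3, 7,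
    14], [11, 2, 1, 3, 13, 15]]
  P := {
    a := 6
    N := 16
    nb := [202, 1901, 6434, 8371, 24712, 43022, 1155, 16473, 4614, 1282, 578, 36900, 2308, 49208,
      8336, 10272]
    tri := [(0, 1, 3), (0, 1, 6), (0, 3, 7), (0, 6, 7), (1, 2, 5), (1, 2, 8), (1, 3, 5), (1, 6, 10),
      (1, 8, 9), (1, 9, 10), (2, 5, 11), (2, 8, 12), (2, 11, 12), (3, 4, 7), (3, 4, 13), (3, 5,
      13), (4, 7, 14), (4, 13, 14), (5, 11, 15), (5, 13, 15)]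
    fin := [0, 0, 2, 0, 4, 2, 0, 4, 0, 9, 10, 11, 12, 2, 14, 15]
    chd := [(0, 2), (4, 2), (11, 2), (12, 2)]
    steps := [(0, 1), (0, 3), (0, 6), (0, 8), (2, 5), (2, 13), (4, 7)] }
  rep := [0, 2, 4, 11, 12, 9, 10, 14, 15]

noncomputable def v888 : Cov.CovD where
  P := 3
  N := 6
  pl := [3, 4, 8, 9]
  lev := [⟨[], [], [(0, 2)], [], [(0, 0, [1]), (1, 2, [1])]⟩,
    ⟨[], [(0, 0), (0, 2)], [(0, 0)], [5, 6], [(0, 0, [1]), (2, 0, [1])]⟩,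
    ⟨[(0, 1)], [(1, 0), (1, 3), (1, 4)], [(0, 3), (0, 4), (3, 4)], [], [(2, 0, [1]), (5, 3,
      [1]), (6, 4, [1])]⟩,
    ⟨[(0, 1), (1, 2)], [(0, 0), (0, 1), (0, 2), (1, 0), (1, 1), (1, 2)], [(1, 2)], [], [(1,
      2, [1]), (7, 1, [0, 2, 3, 4])]⟩,
    ⟨[(0, 3), (1, 3)], [(0, 2), (3, 1), (3, 2)], [(1, 2)], [7], [(1, 2, [1]), (7, 1, [0, 2,
      3, 4])]⟩,
    ⟨[(0, 1), (0, 3), (1, 2), (1, 3), (2, 3), (3, 4)], [(1, 0), (1, 1), (1, 3), (2, 0), (2,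
      1), (2, 3), (2, 4), (3, 1), (3, 2), (3, 3), (4, 1)], [(1, 3)], [8], [(5, 3, [1]), (7,
      1, [0, 2, 3, 4])]⟩]
  Ta := [((0, 1), 0, 2), ((0, 4), 0, 6), ((2, 3), 0, 5), ((2, 6), 0, 4)]
  Tb := [((0, 1, 4), 0, 2, 6), ((1, 0, 8), 2, 0, 7), ((2, 3, 6), 0, 5, 4), ((3, 2, 4), 5, 0, 6),
    ((4, 0, 3), 6, 0, 5), ((5, 6, 9), 3, 4, 8), ((6, 2, 5), 4, 0, 3), ((7, 8, 9), 1, 7, 8),
    ((8, 1, 7), 7, 2, 1), ((9, 5, 7), 8, 3, 1)]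
  Tc := [(1, 0, 2), (1, 0, 3), (1, 0, 4), (1, 2, 3), (1, 2, 4), (1, 3, 4)]
  Td := [((0, 1), (0, 1), 2), ((0, 1), (0, 4), 6), ((0, 1), (2, 3), 5), ((0, 1), (2, 6), 4), ((1,
    0), (7, 8), 7), ((1, 0), (7, 9), 8), ((1, 2), (7, 8), 7), ((1, 2), (7, 9), 8), ((1, 3),
    (7, 8), 7), ((1, 3), (7, 9), 8), ((1, 4), (7, 8), 7), ((1, 4), (7, 9), 8), ((2, 1), (1,
    0), 0), ((2, 1), (1, 8), 7), ((3, 1), (5, 6), 4), ((3, 1), (5, 9), 8), ((4, 1), (6, 2),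
    0), ((4, 1), (6, 5), 3)]
  G := [[0, 0x6181c1e1416e14189, 0x9245284dc98ce244d9cc25dc88c2c6, 0xd1cd12dd582a88c4552258346,
    0x51d8992211dc992d1d8929215598cea], [0, 0x6181c1e181e141e1, 0, 0x51d89c2dd582dd582e1,
    0xc812211dc9928812921528ce5d9821d9826b]]

noncomputable def n888 : Ent := ⟨e888, noF, [], [], []⟩

def c888 : PLift (Cov.check n888.C.D v888 = true) := ⟨by decide +kernel⟩

def b888 : PLift (entF (fidx ts) 400 888 n888 = true) := ⟨by decide +kernel⟩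

theorem g888 : GoodF (fidx ts) 400 888 := GoodF.ofV v888 n888 c888.down b888.down

/-- 458644:758/1 -/
noncomputable def e889 : SCfg where
  D := {
    a := 6
    L := 9
    kp := 6
    inn := [(0, 1), (0, 2), (1, 0), (1, 2), (2, 0), (2, 1), (2, 3), (3, 2), (3, 4), (3, 5), (4, 3), (5,
      3)]
    mix := [(0, 0), (0, 1), (1, 1), (1, 2), (1, 3), (2, 0), (2, 3), (2, 4), (2, 5), (2, 6), (3, 0), (3,
      6), (3, 7), (4, 6), (4, 7), (4, 8), (5, 0), (5, 1), (5, 7)]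
    cl := [0, 2, 3, 0, 4, 5, 0, 1, 6]
    chq := [(0, 1), (1, 0)]
    rng := [(0, 1), (1, 0), (1, 2), (1, 7), (2, 1), (2, 3), (3, 2), (3, 4), (4, 3), (4, 5), (5, 4), (5,
      6), (6, 5), (6, 8), (7, 1), (7, 8), (8, 6), (8, 7)]
    lev := [] }
  links := [[1, 2, 6, 7], [2, 0, 7, 8, 9], [6, 0, 1, 9, 10, 11, 12, 3], [6, 2, 12, 4, 13, 5], [13, 3, 12,
    14], [6, 3, 13, 7]]
  P := {
    a := 6
    N := 15
    nb := [198, 901, 7755, 12404, 28680, 8392, 173, 8547, 642, 1286, 2564, 5124, 18460, 16568, 12304]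
    tri := [(0, 1, 2), (0, 1, 7), (0, 2, 6), (0, 6, 7), (1, 2, 9), (1, 7, 8), (1, 8, 9), (2, 3, 6), (2,
      3, 12), (2, 9, 10), (2, 10, 11), (2, 11, 12), (3, 4, 12), (3, 4, 13), (3, 5, 6), (3, 5, 13),
      (4, 12, 14), (4, 13, 14), (5, 6, 7), (5, 7, 13)]
    fin := [0, 0, 0, 0, 0, 0, 0, 7, 8, 0, 10, 11, 0, 13, 14]
    chd := [(0, 13)]
    steps := [(0, 1), (0, 2), (0, 3), (0, 4), (0, 6), (0, 5), (0, 9), (0, 12)] }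
  rep := [0, 13, 7, 8, 10, 11, 14]

noncomputable def v889 : Cov.CovD where
  P := 3
  N := 4
  pl := [1, 2, 4, 5, 8]
  lev := [⟨[], [], [], [2], [(0, 0, [1])]⟩,
    ⟨[], [(0, 0)], [], [2, 3], [(3, 0, [1])]⟩,
    ⟨[(0, 1)], [(0, 0), (1, 0)], [(0, 0)], [4, 5], [(0, 0, [1]), (3, 0, [1]), (6, 0, [1])]⟩,
    ⟨[(0, 2), (1, 2)], [(0, 0), (2, 0), (2, 1)], [(0, 0), (0, 1)], [], [(0, 0, [1]), (6, 0,
      [1]), (7, 1, [0])]⟩,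
    ⟨[(2, 3)], [(2, 0), (3, 0), (3, 1)], [(0, 1)], [6], [(6, 0, [1]), (7, 1, [0])]⟩,
    ⟨[(2, 3), (3, 4)], [(0, 0), (2, 0), (3, 0), (3, 1), (4, 1)], [(0, 1)], [2], [(0, 0,
      [1]), (7, 1, [0])]⟩]
  Ta := [((0, 1), 0, 2), ((3, 2), 0, 3), ((3, 4), 0, 4), ((6, 5), 0, 5), ((6, 8), 0, 6)]
  Tb := [((1, 0, 2), 2, 0, 3), ((1, 0, 7), 2, 0, 1), ((1, 2, 7), 2, 3, 1), ((2, 1, 3), 3, 2, 0),
    ((3, 2, 4), 0, 3, 4), ((4, 3, 5), 4, 0, 5), ((5, 4, 6), 5, 4, 0), ((6, 5, 8), 0, 5, 6),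
    ((7, 1, 8), 1, 2, 6), ((8, 6, 7), 6, 0, 1)]
  Tc := []
  Td := [((0, 1), (0, 1), 2), ((0, 1), (3, 2), 3), ((0, 1), (3, 4), 4), ((0, 1), (6, 5), 5), ((0,
    1), (6, 8), 6), ((1, 0), (7, 1), 2), ((1, 0), (7, 8), 6)]
  G := [[0, 0x8464446288c2e14, 0x814418818e814418414e68, 0x414418418e18, 0x814814818e18], [0,
    0x846444a848a8e14, 0, 0x814814414e414818418ec1, 0x814818814e814814818ea1], [0,
    0x88c444a28464e14, 0, 0x18c448c811c4e18, 0x11c411c881c4e18]]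

noncomputable def n889 : Ent := ⟨e889, noF, [], [], []⟩

def c889 : PLift (Cov.check n889.C.D v889 = true) := ⟨by decide +kernel⟩

def b889 : PLift (entF (fidx ts) 400 889 n889 = true) := ⟨by decide +kernel⟩

theorem g889 : GoodF (fidx ts) 400 889 := GoodF.ofV v889 n889 c889.down b889.down

/-- 458644:758 -/
noncomputable def e890 : SCfg where
  D := {
    a := 6
    L := 10
    kp := 7
    inn := [(0, 1), (0, 2), (1, 0), (1, 2), (2, 0), (2, 1), (2, 3), (3, 2), (3, 4), (3, 5), (4, 3), (5,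
      3)]
    mix := [(0, 0), (0, 1), (1, 1), (1, 2), (1, 3), (2, 0), (2, 3), (2, 4), (2, 5), (2, 6), (3, 0), (3,
      6), (3, 7), (4, 6), (4, 7), (4, 8), (5, 0), (5, 7), (5, 9)]
    cl := [0, 2, 3, 0, 4, 5, 0, 1, 6, 7]
    chq := [(0, 1), (1, 0)]
    rng := [(0, 1), (0, 9), (1, 0), (1, 2), (2, 1), (2, 3), (3, 2), (3, 4), (4, 3), (4, 5), (5, 4), (5,
      6), (6, 5), (6, 8), (7, 8), (7, 9), (8, 6), (8, 7), (9, 0), (9, 7)]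
    lev := [] }
  links := [[1, 2, 6, 7], [2, 0, 7, 8, 9], [6, 0, 1, 9, 10, 11, 12, 3], [6, 2, 12, 4, 13, 5], [13, 3, 12,
    14], [6, 3, 13, 15]]
  P := {
    a := 6
    N := 16
    nb := [198, 901, 7755, 12404, 28680, 41032, 32941, 323, 642, 1286, 2564, 5124, 18460, 49208,
      12304, 8288]
    tri := [(0, 1, 2), (0, 1, 7), (0, 2, 6), (0, 6, 7), (1, 2, 9), (1, 7, 8), (1, 8, 9), (2, 3, 6), (2,
      3, 12), (2, 9, 10), (2, 10, 11), (2, 11, 12), (3, 4, 12), (3, 4, 13), (3, 5, 6), (3, 5, 13),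
      (4, 12, 14), (4, 13, 14), (5, 6, 15), (5, 13, 15)]
    fin := [0, 0, 0, 0, 0, 0, 0, 7, 8, 0, 10, 11, 0, 13, 14, 15]
    chd := [(0, 13)]
    steps := [(0, 1), (0, 2), (0, 3), (0, 4), (0, 5), (0, 6), (0, 9), (0, 12)] }
  rep := [0, 13, 7, 8, 10, 11, 14, 15]

noncomputable def v890 : Cov.CovD where
  P := 3
  N := 5
  pl := [1, 2, 4, 5, 8, 9]
  lev := [⟨[], [], [], [2], [(0, 0, [1])]⟩,
    ⟨[], [(0, 0)], [], [2, 3], [(3, 0, [1])]⟩,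
    ⟨[(0, 1)], [(0, 0), (1, 0)], [(0, 0)], [4, 5], [(0, 0, [1]), (3, 0, [1]), (6, 0, [1])]⟩,
    ⟨[(0, 2), (1, 2)], [(0, 0), (2, 0), (2, 1)], [(0, 0), (0, 1)], [], [(0, 0, [1]), (6, 0,
      [1]), (7, 1, [0])]⟩,
    ⟨[(2, 3)], [(2, 0), (3, 0), (3, 1)], [(0, 1)], [6], [(6, 0, [1]), (7, 1, [0])]⟩,
    ⟨[(2, 3), (3, 4)], [(0, 0), (2, 0), (3, 0), (3, 1), (4, 1)], [(0, 1)], [7], [(0, 0,
      [1]), (7, 1, [0])]⟩]
  Ta := [((0, 1), 0, 2), ((0, 9), 0, 7), ((3, 2), 0, 3), ((3, 4), 0, 4), ((6, 5), 0, 5), ((6, 8),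
    0, 6)]
  Tb := [((0, 1, 9), 0, 2, 7), ((1, 0, 2), 2, 0, 3), ((2, 1, 3), 3, 2, 0), ((3, 2, 4), 0, 3, 4),
    ((4, 3, 5), 4, 0, 5), ((5, 4, 6), 5, 4, 0), ((6, 5, 8), 0, 5, 6), ((7, 8, 9), 1, 6, 7),
    ((8, 6, 7), 6, 0, 1), ((9, 0, 7), 7, 0, 1)]
  Tc := []
  Td := [((0, 1), (0, 1), 2), ((0, 1), (0, 9), 7), ((0, 1), (3, 2), 3), ((0, 1), (3, 4), 4), ((0,
    1), (6, 5), 5), ((0, 1), (6, 8), 6), ((1, 0), (7, 8), 6), ((1, 0), (7, 9), 7)]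
  G := [[0, 0x6668aca2ccc2e14, 0xc14c18ac18c146c14c18ce2, 0xc14c18c14e18, 0xc14c18c18e12], [0,
    0xac62aaa46ca8e18, 0, 0x11844114118118e114114acc, 0x114114114e2114114118e8a], [0,
    0xa6c26ca2ccc2e14, 0, 0x11c411c811c8e18, 0x1418c11c811c4e12]]

noncomputable def n890 : Ent := ⟨e890, noF, [], [], [(7, 15, [360035742630636841211993100915356868655746945586763691011313665, 0])]⟩

def c890 : PLift (Cov.check n890.C.D v890 = true) := ⟨by decide +kernel⟩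

def b890 : PLift (entF (fidx ts) 400 890 n890 = true) := ⟨by decide +kernel⟩

theorem g890 : GoodF (fidx ts) 400 890 := GoodF.ofV v890 n890 c890.down b890.down

/-- 485664:759 -/
noncomputable def e891 : SCfg where
  D := {
    a := 6
    L := 10
    kp := 8
    inn := [(0, 1), (0, 3), (1, 0), (1, 2), (1, 3), (1, 4), (2, 1), (2, 4), (2, 5), (3, 0), (3, 1), (3,
      4), (4, 1), (4, 2), (4, 3), (5, 2)]
    mix := [(0, 0), (0, 1), (1, 0), (1, 2), (1, 3), (1, 4), (2, 2), (2, 5), (3, 1), (3, 6), (3, 7), (4,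
      5), (4, 7), (4, 8), (5, 2), (5, 5), (5, 9)]
    cl := [0, 2, 0, 6, 7, 1, 4, 3, 5, 8]
    chq := [(0, 1), (0, 3), (0, 4), (0, 5), (1, 0), (3, 0), (4, 0), (5, 0)]
    rng := [(0, 1), (0, 4), (1, 0), (1, 6), (2, 3), (2, 9), (3, 2), (3, 4), (4, 0), (4, 3), (5, 8), (5,
      9), (6, 1), (6, 7), (7, 6), (7, 8), (8, 5), (8, 7), (9, 2), (9, 5)]
    lev := [] }
  links := [[1, 6, 7, 3], [6, 0, 3, 4, 2, 8, 9, 10], [8, 1, 4, 11, 5], [4, 1, 0, 7, 12, 13], [11, 2, 1,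
    3, 13, 14], [8, 2, 11, 15]]
  P := {
    a := 6
    N := 16
    nb := [202, 1885, 2354, 12435, 26638, 35076, 1155, 4169, 33318, 1282, 578, 49204, 8328, 20504,
      10256, 2336]
    tri := [(0, 1, 3), (0, 1, 6), (0, 3, 7), (0, 6, 7), (1, 2, 4), (1, 2, 8), (1, 3, 4), (1, 6, 10),
      (1, 8, 9), (1, 9, 10), (2, 4, 11), (2, 5, 8), (2, 5, 11), (3, 4, 13), (3, 7, 12), (3, 12,
      13), (4, 11, 14), (4, 13, 14), (5, 8, 15), (5, 11, 15)]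
    fin := [0, 0, 0, 0, 0, 0, 0, 7, 0, 9, 10, 11, 12, 13, 14, 15]
    chd := [(0, 11), (0, 12), (0, 13), (0, 14)]
    steps := [(0, 1), (0, 2), (0, 3), (0, 4), (0, 5), (0, 6), (0, 8)] }
  rep := [0, 11, 7, 13, 12, 14, 9, 10, 15]

noncomputable def v891 : Cov.CovD where
  P := 3
  N := 6
  pl := [1, 3, 4, 9]
  lev := [⟨[], [], [], [2], [(0, 0, [1, 3, 4, 5])]⟩,
    ⟨[], [(0, 0)], [(0, 0)], [6, 7], [(0, 0, [1, 3, 4, 5]), (2, 0, [1, 3, 4, 5])]⟩,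
    ⟨[(0, 1)], [(1, 0), (1, 1)], [(0, 1)], [], [(2, 0, [1, 3, 4, 5]), (5, 1, [0])]⟩,
    ⟨[(0, 1), (1, 2)], [(0, 0), (0, 3), (0, 4), (1, 0), (1, 3), (1, 4)], [(3, 4)], [2],
      [(6, 4, [0]), (7, 3, [0])]⟩,
    ⟨[(0, 1), (0, 3), (1, 2), (1, 3), (2, 3)], [(1, 0), (1, 1), (1, 3), (1, 5), (2, 0), (2,
      1), (2, 3), (2, 5), (3, 1), (3, 3), (3, 4), (3, 5)], [(1, 3), (1, 5), (3, 5)], [], [(5,
      1, [0]), (7, 3, [0]), (8, 5, [0])]⟩,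
    ⟨[(1, 2), (2, 4)], [(1, 0), (2, 0), (2, 1), (4, 1)], [(0, 1)], [8], [(2, 0, [1, 3, 4,
      5]), (5, 1, [0])]⟩]
  Ta := [((0, 1), 0, 2), ((0, 4), 0, 7), ((2, 3), 0, 6), ((2, 9), 0, 8)]
  Tb := [((0, 1, 4), 0, 2, 7), ((1, 0, 6), 2, 0, 4), ((2, 3, 9), 0, 6, 8), ((3, 2, 4), 6, 0, 7),
    ((4, 0, 3), 7, 0, 6), ((5, 8, 9), 1, 5, 8), ((6, 1, 7), 4, 2, 3), ((7, 6, 8), 3, 4, 5),
    ((8, 5, 7), 5, 1, 3), ((9, 2, 5), 8, 0, 1)]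
  Tc := [(0, 1, 3), (0, 1, 4), (0, 1, 5), (0, 3, 4), (0, 3, 5), (0, 4, 5)]
  Td := [((0, 1), (0, 1), 2), ((0, 1), (0, 4), 7), ((0, 1), (2, 3), 6), ((0, 1), (2, 9), 8), ((0,
    3), (0, 1), 2), ((0, 3), (0, 4), 7), ((0, 3), (2, 3), 6), ((0, 3), (2, 9), 8), ((0, 4),
    (0, 1), 2), ((0, 4), (0, 4), 7), ((0, 4), (2, 3), 6), ((0, 4), (2, 9), 8), ((0, 5), (0,
    1), 2), ((0, 5), (0, 4), 7), ((0, 5), (2, 3), 6), ((0, 5), (2, 9), 8), ((1, 0), (5, 8),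
    5), ((1, 0), (5, 9), 8), ((3, 0), (7, 6), 4), ((3, 0), (7, 8), 5), ((4, 0), (6, 1), 2),
    ((4, 0), (6, 7), 3), ((5, 0), (8, 5), 1), ((5, 0), (8, 7), 3)]
  G := [[0, 0xa4186cce186ca6e1466a18cc, 0x111111e8111111e86111111e48c,
    0x111155841111111dd41118981111111dd8ec, 0x1151411111d3811111d38e1111a489], [0,
    0x66ce1246661a81caaae14ac, 0, 0x1111c584111111cdd4c1c198111111cdd8ec,
    0x111c534111ccd381111cd38e118489]]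

noncomputable def n891 : Ent := ⟨e891, noF, [], [], []⟩

def c891 : PLift (Cov.check n891.C.D v891 = true) := ⟨by decide +kernel⟩

def b891 : PLift (entF (fidx ts) 400 891 n891 = true) := ⟨by decide +kernel⟩

theorem g891 : GoodF (fidx ts) 400 891 := GoodF.ofV v891 n891 c891.down b891.down

/-- 485666:760 -/
noncomputable def e892 : SCfg where
  D := {
    a := 6
    L := 11
    kp := 9
    inn := [(0, 1), (0, 3), (1, 0), (1, 2), (1, 3), (1, 4), (1, 5), (2, 1), (2, 4), (2, 5), (3, 0), (3,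
      1), (3, 4), (4, 1), (4, 2), (4, 3), (5, 1), (5, 2)]
    mix := [(0, 0), (0, 1), (1, 0), (1, 2), (1, 3), (2, 4), (2, 5), (3, 1), (3, 6), (3, 7), (4, 4), (4,
      7), (4, 8), (5, 2), (5, 5), (5, 9), (5, 10)]
    cl := [1, 4, 0, 5, 2, 0, 6, 3, 7, 8, 9]
    chq := [(0, 3), (0, 7), (3, 0), (3, 5), (4, 5), (5, 3), (5, 4), (5, 6), (6, 5), (7, 0)]
    rng := [(0, 1), (0, 3), (1, 0), (1, 6), (2, 3), (2, 10), (3, 0), (3, 2), (4, 5), (4, 8), (5, 4),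
      (5, 9), (6, 1), (6, 7), (7, 6), (7, 8), (8, 4), (8, 7), (9, 5), (9, 10), (10, 2), (10, 9)]
    lev := [] }
  links := [[1, 6, 7, 3], [6, 0, 3, 4, 2, 5, 8, 9], [5, 1, 4, 10, 11], [4, 1, 0, 7, 12, 13], [10, 2, 1,
    3, 13, 14], [8, 1, 2, 11, 15, 16]]
  P := {
    a := 6
    N := 17
    nb := [202, 893, 3122, 12435, 25614, 100614, 643, 4169, 66082, 322, 18452, 33828, 8328, 20504,
      9232, 67616, 33056]
    tri := [(0, 1, 3), (0, 1, 6), (0, 3, 7), (0, 6, 7), (1, 2, 4), (1, 2, 5), (1, 3, 4), (1, 5, 8), (1,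
      6, 9), (1, 8, 9), (2, 4, 10), (2, 5, 11), (2, 10, 11), (3, 4, 13), (3, 7, 12), (3, 12, 13),
      (4, 10, 14), (4, 13, 14), (5, 8, 16), (5, 11, 15), (5, 15, 16)]
    fin := [0, 1, 2, 1, 2, 2, 0, 7, 2, 1, 10, 2, 12, 13, 14, 15, 16]
    chd := [(1, 12), (1, 13), (2, 13), (2, 14), (7, 1)]
    steps := [(0, 6), (1, 3), (1, 9), (2, 4), (2, 5), (2, 11), (2, 8)] }
  rep := [2, 0, 10, 13, 7, 1, 12, 14, 15, 16]

noncomputable def v892 : Cov.CovD where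
  P := 3
  N := 7
  pl := [0, 4, 9, 10]
  lev := [⟨[], [], [], [1], [(1, 4, [5])]⟩,
    ⟨[], [(0, 0), (0, 4), (0, 5)], [(0, 5)], [1], [(2, 0, [3, 7]), (3, 5, [3, 4, 6])]⟩,
    ⟨[(0, 1)], [(1, 0), (1, 5)], [], [2], [(5, 0, [3, 7])]⟩,
    ⟨[(0, 1), (1, 2)], [(0, 3), (0, 4), (0, 6), (1, 0), (1, 3), (1, 4), (1, 5), (1, 6)],
      [(3, 4), (3, 6), (4, 6)], [], [(1, 4, [5]), (6, 6, [5]), (7, 3, [0, 5])]⟩,
    ⟨[(0, 1), (0, 3), (1, 2), (1, 3), (2, 3)], [(1, 0), (1, 3), (1, 5), (1, 7), (2, 0), (2,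
      3), (2, 7), (3, 3), (3, 4), (3, 6), (3, 7)], [(3, 7)], [2], [(7, 3, [0, 5]), (8, 7,
      [0])]⟩,
    ⟨[(0, 1), (1, 2), (1, 3), (1, 4), (2, 4)], [(1, 0), (1, 5), (2, 0)], [(0, 0)], [8, 9],
      [(2, 0, [3, 7]), (5, 0, [3, 7])]⟩]
  Ta := [((2, 3), 0, 5), ((2, 10), 0, 9), ((5, 4), 0, 2), ((5, 9), 0, 8)]
  Tb := [((0, 1, 3), 1, 4, 5), ((1, 0, 6), 4, 1, 6), ((2, 3, 10), 0, 5, 9), ((3, 0, 2), 5, 1, 0),
    ((4, 5, 8), 2, 0, 7), ((5, 4, 9), 0, 2, 8), ((6, 1, 7), 6, 4, 3), ((7, 6, 8), 3, 6, 7),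
    ((8, 4, 7), 7, 2, 3), ((9, 5, 10), 8, 0, 9), ((10, 2, 9), 9, 0, 8)]
  Tc := [(0, 3, 7), (3, 0, 5), (5, 3, 4), (5, 3, 6), (5, 4, 6)]
  Td := [((0, 3), (2, 3), 5), ((0, 3), (2, 10), 9), ((0, 3), (5, 4), 2), ((0, 3), (5, 9), 8),
    ((0, 7), (2, 3), 5), ((0, 7), (2, 10), 9), ((0, 7), (5, 4), 2), ((0, 7), (5, 9), 8), ((3,
    0), (7, 6), 6), ((3, 0), (7, 8), 7), ((3, 5), (7, 6), 6), ((3, 5), (7, 8), 7), ((4, 5),
    (1, 0), 1), ((4, 5), (1, 6), 6), ((5, 3), (3, 0), 1), ((5, 3), (3, 2), 0), ((5, 4), (3,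
    0), 1), ((5, 4), (3, 2), 0), ((5, 6), (3, 0), 1), ((5, 6), (3, 2), 0), ((6, 5), (6, 1),
    4), ((6, 5), (6, 7), 3), ((7, 0), (8, 4), 2), ((7, 0), (8, 7), 3)]
  G := [[0, 0xe1e12e5bc8194e1e164e1ee598ac, 0, 0xe1e1e1be819441e1e122edfc4158188cc,
    0xe181e1ee9f2441e1e1e1f28e1428d],
    [0xe2ae6e2b68eac3ae4e4c86e2e22276ac6ece36e8e8c4ae4444472e88888b2ce,
    0xe1e1e1b8e4186e12441e1ee9d4ac, 0x64ee6ee6e818e622e2ee8e8e8ea1e44ece528e68e8e89acd,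
    0xe181e1e8441e1e1e48e144e188cd, 0xe181e1e8441e1e1e28e142e182cd]]

noncomputable def n892 : Ent := ⟨e892, noF, [], [], []⟩

def c892 : PLift (Cov.check n892.C.D v892 = true) := ⟨by decide +kernel⟩

def b892 : PLift (entF (fidx ts) 400 892 n892 = true) := ⟨by decide +kernel⟩

theorem g892 : GoodF (fidx ts) 400 892 := GoodF.ofV v892 n892 c892.down b892.down

/-- 485664:761 -/
noncomputable def e893 : SCfg where
  D := {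
    a := 6
    L := 10
    kp := 8
    inn := [(0, 1), (0, 3), (1, 0), (1, 2), (1, 3), (1, 4), (1, 5), (2, 1), (2, 4), (3, 0), (3, 1), (3,
      4), (4, 1), (4, 2), (4, 3), (5, 1)]
    mix := [(0, 0), (0, 1), (1, 0), (1, 2), (1, 3), (2, 2), (2, 4), (2, 5), (3, 1), (3, 6), (3, 7), (4,
      4), (4, 7), (4, 8), (5, 0), (5, 3), (5, 9)]
    cl := [0, 1, 0, 2, 3, 7, 5, 4, 6, 8]
    chq := [(0, 3), (0, 4), (0, 5), (0, 6), (3, 0), (4, 0), (5, 0), (6, 0)]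
    rng := [(0, 1), (0, 9), (1, 0), (1, 6), (2, 3), (2, 5), (3, 2), (3, 9), (4, 5), (4, 8), (5, 2), (5,
      4), (6, 1), (6, 7), (7, 6), (7, 8), (8, 4), (8, 7), (9, 0), (9, 3)]
    lev := [] }
  links := [[1, 6, 7, 3], [6, 0, 3, 4, 2, 8, 9, 5], [8, 1, 4, 10, 11], [4, 1, 0, 7, 12, 13], [10, 2, 1,
    3, 13, 14], [6, 1, 9, 15]]
  P := {
    a := 6
    N := 16
    nb := [202, 893, 3346, 12435, 25614, 33346, 32931, 4169, 2566, 33058, 18452, 1284, 8328, 20504,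
      9232, 608]
    tri := [(0, 1, 3), (0, 1, 6), (0, 3, 7), (0, 6, 7), (1, 2, 4), (1, 2, 8), (1, 3, 4), (1, 5, 6), (1,
      5, 9), (1, 8, 9), (2, 4, 10), (2, 8, 11), (2, 10, 11), (3, 4, 13), (3, 7, 12), (3, 12, 13),
      (4, 10, 14), (4, 13, 14), (5, 6, 15), (5, 9, 15)]
    fin := [0, 0, 0, 0, 0, 0, 0, 7, 0, 9, 10, 11, 12, 13, 14, 15]
    chd := [(0, 10), (0, 12), (0, 13), (0, 14)]
    steps := [(0, 1), (0, 2), (0, 3), (0, 4), (0, 5), (0, 6), (0, 8)] }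
  rep := [0, 7, 9, 10, 13, 12, 14, 11, 15]

noncomputable def v893 : Cov.CovD where
  P := 3
  N := 6
  pl := [1, 3, 5, 9]
  lev := [⟨[], [], [], [1], [(0, 0, [3, 4, 5, 6])]⟩,
    ⟨[], [(0, 0)], [(0, 0)], [2], [(0, 0, [3, 4, 5, 6]), (2, 0, [3, 4, 5, 6])]⟩,
    ⟨[(0, 1)], [(1, 0), (1, 3)], [(0, 3)], [7], [(2, 0, [3, 4, 5, 6]), (4, 3, [0])]⟩,
    ⟨[(0, 1), (1, 2)], [(0, 0), (0, 4), (0, 5), (1, 0), (1, 4), (1, 5)], [(4, 5)], [1],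
      [(6, 5, [0]), (7, 4, [0])]⟩,
    ⟨[(0, 1), (0, 3), (1, 2), (1, 3), (2, 3)], [(1, 0), (1, 3), (1, 4), (1, 6), (2, 0), (2,
      3), (2, 4), (2, 6), (3, 3), (3, 4), (3, 5), (3, 6)], [(3, 4), (3, 6), (4, 6)], [], [(4,
      3, [0]), (7, 4, [0]), (8, 6, [0])]⟩,
    ⟨[(0, 1), (1, 2), (1, 3), (1, 4)], [(0, 0), (1, 0)], [], [2, 8], [(0, 0, [3, 4, 5,
      6])]⟩]
  Ta := [((0, 1), 0, 1), ((0, 9), 0, 8), ((2, 3), 0, 2), ((2, 5), 0, 7)]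
  Tb := [((0, 1, 9), 0, 1, 8), ((1, 0, 6), 1, 0, 5), ((2, 3, 5), 0, 2, 7), ((3, 2, 9), 2, 0, 8),
    ((4, 5, 8), 3, 7, 6), ((5, 2, 4), 7, 0, 3), ((6, 1, 7), 5, 1, 4), ((7, 6, 8), 4, 5, 6),
    ((8, 4, 7), 6, 3, 4), ((9, 0, 3), 8, 0, 2)]
  Tc := [(0, 3, 4), (0, 3, 5), (0, 3, 6), (0, 4, 5), (0, 4, 6), (0, 5, 6)]
  Td := [((0, 3), (0, 1), 1), ((0, 3), (0, 9), 8), ((0, 3), (2, 3), 2), ((0, 3), (2, 5), 7), ((0,
    4), (0, 1), 1), ((0, 4), (0, 9), 8), ((0, 4), (2, 3), 2), ((0, 4), (2, 5), 7), ((0, 5),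
    (0, 1), 1), ((0, 5), (0, 9), 8), ((0, 5), (2, 3), 2), ((0, 5), (2, 5), 7), ((0, 6), (0,
    1), 1), ((0, 6), (0, 9), 8), ((0, 6), (2, 3), 2), ((0, 6), (2, 5), 7), ((3, 0), (4, 5),
    7), ((3, 0), (4, 8), 6), ((4, 0), (7, 6), 5), ((4, 0), (7, 8), 6), ((5, 0), (6, 1), 1),
    ((5, 0), (6, 7), 4), ((6, 0), (8, 4), 3), ((6, 0), (8, 7), 4)]
  G := [[0, 0x41441c1c1e41c1c1eec181c1e818818ec2, 0, 0x111455143161111111cfd111899c11181dc21fc8,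
    0x11123511613a1a11a9d1111111afd111859ea8], [0, 0, 0x611a11c11e24,
    0x1114511111111fd1111113de11111b98c4, 0x1111113d211111111fd11111111fdca4]]

noncomputable def n893 : Ent := ⟨e893, noF, [], [], []⟩

def c893 : PLift (Cov.check n893.C.D v893 = true) := ⟨by decide +kernel⟩

def b893 : PLift (entF (fidx ts) 400 893 n893 = true) := ⟨by decide +kernel⟩

theorem g893 : GoodF (fidx ts) 400 893 := GoodF.ofV v893 n893 c893.down b893.down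

/-- 485665:762 -/
noncomputable def e894 : SCfg where
  D := {
    a := 6
    L := 11
    kp := 9
    inn := [(0, 1), (0, 3), (1, 0), (1, 2), (1, 3), (1, 4), (1, 5), (2, 1), (2, 4), (3, 0), (3, 1), (3,
      4), (4, 1), (4, 2), (4, 3), (5, 1)]
    mix := [(0, 0), (0, 1), (1, 0), (1, 2), (1, 3), (2, 2), (2, 4), (2, 5), (3, 1), (3, 6), (3, 7), (4,
      4), (4, 7), (4, 8), (5, 0), (5, 3), (5, 9), (5, 10)]
    cl := [0, 3, 1, 0, 4, 5, 6, 2, 7, 8, 9]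
    chq := [(1, 2), (1, 3), (1, 6), (2, 1), (2, 4), (2, 5), (3, 1), (4, 2), (5, 2), (6, 1)]
    rng := [(0, 1), (0, 10), (1, 0), (1, 6), (2, 3), (2, 5), (3, 2), (3, 9), (4, 5), (4, 8), (5, 2),
      (5, 4), (6, 1), (6, 7), (7, 6), (7, 8), (8, 4), (8, 7), (9, 3), (9, 10), (10, 0), (10, 9)]
    lev := [] }
  links := [[1, 6, 7, 3], [6, 0, 3, 4, 2, 8, 9, 5], [8, 1, 4, 10, 11], [4, 1, 0, 7, 12, 13], [10, 2, 1,
    3, 13, 14], [6, 1, 9, 15, 16]]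
  P := {
    a := 6
    N := 17
    nb := [202, 893, 3346, 12435, 25614, 98882, 65699, 4169, 2566, 33058, 18452, 1284, 8328, 20504,
      9232, 66080, 32864]
    tri := [(0, 1, 3), (0, 1, 6), (0, 3, 7), (0, 6, 7), (1, 2, 4), (1, 2, 8), (1, 3, 4), (1, 5, 6), (1,
      5, 9), (1, 8, 9), (2, 4, 10), (2, 8, 11), (2, 10, 11), (3, 4, 13), (3, 7, 12), (3, 12, 13),
      (4, 10, 14), (4, 13, 14), (5, 6, 16), (5, 9, 15), (5, 15, 16)]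
    fin := [0, 1, 2, 3, 2, 5, 5, 0, 1, 5, 10, 11, 3, 2, 14, 15, 16]
    chd := [(0, 1), (1, 2), (1, 3), (10, 2), (11, 2)]
    steps := [(0, 7), (1, 8), (2, 4), (2, 13), (3, 12), (5, 6), (5, 9)] }
  rep := [5, 1, 2, 0, 10, 11, 3, 14, 15, 16]

noncomputable def v894 : Cov.CovD where
  P := 3
  N := 7
  pl := [8, 9, 10]
  lev := [⟨[], [], [(0, 3)], [], [(0, 0, []), (1, 3, [1])]⟩,
    ⟨[], [(0, 0), (0, 1), (0, 3)], [(0, 0), (0, 1)], [], [(0, 0, []), (2, 1, [2, 3, 6]),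
      (3, 0, [])]⟩,
    ⟨[(0, 1)], [(1, 0), (1, 1), (1, 4), (1, 5)], [(1, 4), (1, 5), (4, 5)], [], [(2, 1, [2,
      3, 6]), (4, 4, [2]), (5, 5, [2])]⟩,
    ⟨[(0, 1), (1, 2)], [(0, 0), (0, 2), (0, 3), (0, 6), (1, 0), (1, 1), (1, 2), (1, 3), (1,
      6)], [(2, 3), (2, 6), (3, 6)], [], [(1, 3, [1]), (6, 6, [1]), (7, 2, [1, 4, 5])]⟩,
    ⟨[(0, 1), (0, 3), (1, 2), (1, 3), (2, 3)], [(1, 0), (1, 1), (1, 2), (1, 4), (2, 1), (2,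
      2), (2, 4), (2, 5), (3, 2), (3, 3), (3, 4), (3, 6)], [(2, 4)], [7], [(4, 4, [2]), (7,
      2, [1, 4, 5])]⟩,
    ⟨[(0, 1), (1, 2), (1, 3), (1, 4)], [(0, 0), (1, 0), (1, 1)], [(0, 0)], [8, 9], [(0, 0,
      []), (3, 0, [])]⟩]
  Ta := [((0, 1), 0, 3), ((0, 10), 0, 9), ((3, 2), 0, 1), ((3, 9), 0, 8)]
  Tb := [((0, 1, 10), 0, 3, 9), ((1, 0, 6), 3, 0, 6), ((2, 3, 5), 1, 0, 5), ((3, 2, 9), 0, 1, 8),
    ((4, 5, 8), 4, 5, 7), ((5, 2, 4), 5, 1, 4), ((6, 1, 7), 6, 3, 2), ((7, 6, 8), 2, 6, 7),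
    ((8, 4, 7), 7, 4, 2), ((9, 3, 10), 8, 0, 9), ((10, 0, 9), 9, 0, 8)]
  Tc := [(1, 2, 3), (1, 2, 6), (1, 3, 6), (2, 1, 4), (2, 1, 5), (2, 4, 5)]
  Td := [((1, 2), (2, 3), 0), ((1, 2), (2, 5), 5), ((1, 3), (2, 3), 0), ((1, 3), (2, 5), 5), ((1,
    6), (2, 3), 0), ((1, 6), (2, 5), 5), ((2, 1), (7, 6), 6), ((2, 1), (7, 8), 7), ((2, 4),
    (7, 6), 6), ((2, 4), (7, 8), 7), ((2, 5), (7, 6), 6), ((2, 5), (7, 8), 7), ((3, 1), (1,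
    0), 0), ((3, 1), (1, 6), 6), ((4, 2), (4, 5), 5), ((4, 2), (4, 8), 7), ((5, 2), (5, 2),
    1), ((5, 2), (5, 4), 4), ((6, 1), (6, 1), 3), ((6, 1), (6, 7), 2)]
  G := [[0, 0, 0x6421e2e8eea1ce26eee618821cc, 0x4422eaed22c6eed228822cc,
    0xa8a28288a828d46eeb248828c62826e94eebf488a834ce], [0, 0x6eed128812c6eed128812c6,
    0xe2ee661e2e8a1c1, 0x6eed228822c1, 0x82e2548626eeba48828288acc3]]

noncomputable def n894 : Ent := ⟨e894, noF, [], [], []⟩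

def c894 : PLift (Cov.check n894.C.D v894 = true) := ⟨by decide +kernel⟩

def b894 : PLift (entF (fidx ts) 400 894 n894 = true) := ⟨by decide +kernel⟩

theorem g894 : GoodF (fidx ts) 400 894 := GoodF.ofV v894 n894 c894.down b894.down

/-- 485565:763 -/
noncomputable def e895 : SCfg where
  D := {
    a := 6
    L := 11
    kp := 9
    inn := [(0, 1), (0, 3), (1, 0), (1, 2), (1, 4), (1, 5), (2, 1), (2, 4), (3, 0), (4, 1), (4, 2), (4,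
      5), (5, 1), (5, 4)]
    mix := [(0, 0), (0, 1), (1, 0), (1, 1), (1, 2), (1, 3), (2, 2), (2, 4), (2, 5), (3, 0), (3, 1), (3,
      6), (3, 7), (4, 5), (4, 8), (4, 9), (5, 3), (5, 9), (5, 10)]
    cl := [0, 0, 2, 1, 5, 3, 7, 8, 6, 4, 9]
    chq := [(0, 3), (0, 5), (1, 3), (1, 4), (1, 6), (3, 0), (3, 1), (4, 1), (5, 0), (6, 1)]
    rng := [(0, 3), (0, 6), (1, 2), (1, 7), (2, 1), (2, 4), (3, 0), (3, 10), (4, 2), (4, 5), (5, 4),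
      (5, 8), (6, 0), (6, 7), (7, 1), (7, 6), (8, 5), (8, 9), (9, 8), (9, 10), (10, 3), (10, 9)]
    lev := [] }
  links := [[1, 6, 3, 7], [6, 0, 7, 8, 2, 4, 5, 9], [4, 1, 8, 10, 11], [7, 0, 6, 12, 13], [5, 1, 2, 11,
    14, 15], [9, 1, 4, 15, 16]]
  P := {
    a := 6
    N := 17
    nb := [202, 1013, 3346, 12481, 51238, 98834, 4619, 8459, 1158, 65634, 2308, 17428, 8264, 4232,
      34832, 81968, 33312]
    tri := [(0, 1, 6), (0, 1, 7), (0, 3, 6), (0, 3, 7), (1, 2, 4), (1, 2, 8), (1, 4, 5), (1, 5, 9), (1,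
      6, 9), (1, 7, 8), (2, 4, 11), (2, 8, 10), (2, 10, 11), (3, 6, 12), (3, 7, 13), (3, 12, 13),
      (4, 5, 15), (4, 11, 14), (4, 14, 15), (5, 9, 16), (5, 15, 16)]
    fin := [0, 0, 0, 0, 4, 4, 0, 0, 8, 4, 10, 11, 12, 13, 14, 15, 16]
    chd := [(0, 10), (0, 11), (4, 11), (4, 14), (4, 15)]
    steps := [(0, 1), (0, 2), (0, 3), (0, 6), (0, 7), (4, 5), (4, 9)] }
  rep := [0, 4, 8, 11, 15, 10, 14, 12, 13, 16]

noncomputable def v895 : Cov.CovD where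
  P := 3
  N := 7
  pl := [2, 6, 7, 10]
  lev := [⟨[], [], [(0, 0)], [], [(0, 0, [3, 5]), (1, 0, [3, 5])]⟩,
    ⟨[], [(0, 0), (0, 1)], [(0, 0), (0, 1)], [2], [(0, 0, [3, 5]), (1, 0, [3, 5]), (3, 1,
      [3, 4, 6])]⟩,
    ⟨[(0, 1)], [(1, 0), (1, 1), (1, 3), (1, 5)], [(3, 5)], [2], [(4, 5, [0]), (5, 3, [0,
      1])]⟩,
    ⟨[(0, 1)], [(0, 0), (1, 0)], [(0, 0)], [7, 8], [(0, 0, [3, 5]), (1, 0, [3, 5])]⟩,
    ⟨[(0, 1), (1, 2)], [(1, 0), (1, 1), (1, 3), (1, 4), (1, 6), (2, 3), (2, 4), (2, 5), (2,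
      6)], [(3, 4), (3, 6), (4, 6)], [], [(5, 3, [0, 1]), (8, 6, [1]), (9, 4, [1])]⟩,
    ⟨[(0, 1), (1, 2), (1, 4), (2, 4)], [(1, 0), (1, 1), (1, 4), (4, 1), (4, 3), (4, 4), (4,
      6)], [(1, 4)], [9], [(3, 1, [3, 4, 6]), (9, 4, [1])]⟩]
  Ta := [((0, 3), 0, 1), ((0, 6), 0, 7), ((1, 2), 0, 2), ((1, 7), 0, 8)]
  Tb := [((0, 3, 6), 0, 1, 7), ((1, 2, 7), 0, 2, 8), ((2, 1, 4), 2, 0, 5), ((3, 0, 10), 1, 0, 9),
    ((4, 2, 5), 5, 2, 3), ((5, 4, 8), 3, 5, 6), ((6, 0, 7), 7, 0, 8), ((7, 1, 6), 8, 0, 7),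
    ((8, 5, 9), 6, 3, 4), ((9, 8, 10), 4, 6, 9), ((10, 3, 9), 9, 1, 4)]
  Tc := [(0, 3, 5), (1, 3, 4), (1, 3, 6), (1, 4, 6), (3, 0, 1)]
  Td := [((0, 3), (0, 3), 1), ((0, 3), (0, 6), 7), ((0, 3), (1, 2), 2), ((0, 3), (1, 7), 8), ((0,
    5), (0, 3), 1), ((0, 5), (0, 6), 7), ((0, 5), (1, 2), 2), ((0, 5), (1, 7), 8), ((1, 3),
    (3, 0), 0), ((1, 3), (3, 10), 9), ((1, 4), (3, 0), 0), ((1, 4), (3, 10), 9), ((1, 6), (3,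
    0), 0), ((1, 6), (3, 10), 9), ((3, 0), (5, 4), 5), ((3, 0), (5, 8), 6), ((3, 1), (5, 4),
    5), ((3, 1), (5, 8), 6), ((4, 1), (9, 8), 6), ((4, 1), (9, 10), 9), ((5, 0), (4, 2), 2),
    ((5, 0), (4, 5), 3), ((6, 1), (8, 5), 3), ((6, 1), (8, 9), 4)]
  G := [[0, 0xe1e1e1e182, 0, 0xd2d2d2e184, 0xd2d2d2e182], [0, 0,
    0xd2d2d2e4d2d2d2ecbd7fcbdbfcbdbfeac2, 0xd2d2d2e142, 0xd2d2d2e182]]

noncomputable def n895 : Ent := ⟨e895, noF, [], [], []⟩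

def c895 : PLift (Cov.check n895.C.D v895 = true) := ⟨by decide +kernel⟩

def b895 : PLift (entF (fidx ts) 400 895 n895 = true) := ⟨by decide +kernel⟩

theorem g895 : GoodF (fidx ts) 400 895 := GoodF.ofV v895 n895 c895.down b895.down

/-- 485674:764 -/
noncomputable def e896 : SCfg where
  D := {
    a := 6
    L := 11
    kp := 8
    inn := [(0, 1), (0, 3), (1, 0), (1, 2), (1, 3), (1, 4), (1, 5), (2, 1), (2, 4), (3, 0), (3, 1), (3,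
      4), (4, 1), (4, 2), (4, 3), (5, 1)]
    mix := [(0, 0), (0, 1), (1, 0), (1, 2), (1, 3), (2, 2), (2, 4), (2, 5), (3, 1), (3, 6), (3, 7), (4,
      4), (4, 7), (4, 8), (4, 9), (5, 0), (5, 3), (5, 10)]
    cl := [0, 1, 0, 2, 3, 5, 4, 3, 6, 7, 8]
    chq := [(0, 3), (0, 4), (3, 0), (4, 0)]
    rng := [(0, 1), (0, 10), (1, 0), (1, 6), (2, 3), (2, 5), (3, 2), (3, 10), (4, 5), (4, 9), (5, 2),
      (5, 4), (6, 1), (6, 7), (7, 6), (7, 8), (8, 7), (8, 9), (9, 4), (9, 8), (10, 0), (10, 3)]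
    lev := [] }
  links := [[1, 6, 7, 3], [6, 0, 3, 4, 2, 8, 9, 5], [8, 1, 4, 10, 11], [4, 1, 0, 7, 12, 13], [10, 2, 1,
    3, 13, 14, 15], [6, 1, 9, 16]]
  P := {
    a := 6
    N := 17
    nb := [202, 893, 3346, 12435, 58382, 66114, 65699, 4169, 2566, 65826, 34836, 1284, 8328, 20504,
      40976, 17424, 608]
    tri := [(0, 1, 3), (0, 1, 6), (0, 3, 7), (0, 6, 7), (1, 2, 4), (1, 2, 8), (1, 3, 4), (1, 5, 6), (1,
      5, 9), (1, 8, 9), (2, 4, 10), (2, 8, 11), (2, 10, 11), (3, 4, 13), (3, 7, 12), (3, 12, 13),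
      (4, 10, 15), (4, 13, 14), (4, 14, 15), (5, 6, 16), (5, 9, 16)]
    fin := [0, 0, 0, 0, 4, 0, 0, 7, 0, 9, 4, 11, 12, 4, 14, 15, 16]
    chd := [(0, 4), (0, 12)]
    steps := [(0, 1), (0, 2), (0, 3), (0, 5), (0, 6), (0, 8), (4, 13), (4, 10)] }
  rep := [0, 7, 9, 4, 12, 11, 14, 15, 16]

noncomputable def v896 : Cov.CovD where
  P := 3
  N := 6
  pl := [1, 3, 5, 8, 9, 10]
  lev := [⟨[], [], [], [1], [(0, 0, [3, 4])]⟩,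
    ⟨[], [(0, 0)], [(0, 0)], [2], [(0, 0, [3, 4]), (2, 0, [3, 4])]⟩,
    ⟨[(0, 1)], [(1, 0), (1, 3)], [(0, 3)], [5], [(2, 0, [3, 4]), (4, 3, [0])]⟩,
    ⟨[(0, 1), (1, 2)], [(0, 0), (0, 3), (0, 4), (1, 0), (1, 3), (1, 4)], [(3, 4)], [1],
      [(6, 4, [0]), (7, 3, [0])]⟩,
    ⟨[(0, 1), (0, 3), (1, 2), (1, 3), (2, 3)], [(1, 0), (1, 3), (2, 0), (2, 3), (3, 3), (3,
      4)], [(3, 3)], [6, 7], [(4, 3, [0]), (7, 3, [0])]⟩,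
    ⟨[(0, 1), (1, 2), (1, 3), (1, 4)], [(0, 0), (1, 0)], [], [2, 8], [(0, 0, [3, 4])]⟩]
  Ta := [((0, 1), 0, 1), ((0, 10), 0, 8), ((2, 3), 0, 2), ((2, 5), 0, 5), ((4, 5), 3, 5), ((4,
    9), 3, 7), ((7, 6), 3, 4), ((7, 8), 3, 6)]
  Tb := [((0, 1, 10), 0, 1, 8), ((1, 0, 6), 1, 0, 4), ((2, 3, 5), 0, 2, 5), ((3, 2, 10), 2, 0,
    8), ((4, 5, 9), 3, 5, 7), ((5, 2, 4), 5, 0, 3), ((6, 1, 7), 4, 1, 3), ((7, 6, 8), 3, 4,
    6), ((8, 7, 9), 6, 3, 7), ((9, 4, 8), 7, 3, 6), ((10, 0, 3), 8, 0, 2)]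
  Tc := [(0, 3, 4)]
  Td := [((0, 3), (0, 1), 1), ((0, 3), (0, 10), 8), ((0, 3), (2, 3), 2), ((0, 3), (2, 5), 5),
    ((0, 4), (0, 1), 1), ((0, 4), (0, 10), 8), ((0, 4), (2, 3), 2), ((0, 4), (2, 5), 5), ((3,
    0), (4, 5), 5), ((3, 0), (4, 9), 7), ((3, 0), (7, 6), 4), ((3, 0), (7, 8), 6), ((4, 0),
    (6, 1), 1), ((4, 0), (6, 7), 3)]
  G := [[0, 0x412c1c16c42d8128cc1c164cce43c18cca8888e9c6, 0,
    0x11415114441711111cf9811111cf1c8ce1fc8, 0x111af1221311a11af9a1a19118aa8e1fa4], [0,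
    0x443c1cc1c16444ccea784cce4181c1ac18c88e8888ebc6, 0, 0x441111191cf5191cf1cca1bc11848c,
    0xa21111aa1af5a1aa1af9ca4], [0, 0, 0x666712a6caf16accf1c84ea8,
    0x11171111111f51111f1e11189118ac4, 0x111111f51111f16111111f9118aa4], [0, 0,
    0x66acf166caf1684, 0x11111111fd111111f9a48, 0x11111111fd111111f5684]]

noncomputable def n896 : Ent := ⟨e896, noF, [], [], []⟩

def c896 : PLift (Cov.check n896.C.D v896 = true) := ⟨by decide +kernel⟩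

def b896 : PLift (entF (fidx ts) 400 896 n896 = true) := ⟨by decide +kernel⟩

theorem g896 : GoodF (fidx ts) 400 896 := GoodF.ofV v896 n896 c896.down b896.down

/-- 485644:765/1 -/
noncomputable def e897 : SCfg where
  D := {
    a := 6
    L := 9
    kp := 7
    inn := [(0, 1), (0, 3), (1, 0), (1, 2), (1, 3), (1, 5), (2, 1), (2, 4), (3, 0), (3, 1), (4, 2), (5,
      1)]
    mix := [(0, 0), (0, 1), (1, 0), (1, 2), (1, 3), (1, 4), (2, 2), (2, 3), (2, 5), (3, 1), (3, 2), (3,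
      6), (3, 7), (4, 2), (4, 5), (4, 7), (5, 0), (5, 4), (5, 8)]
    cl := [1, 3, 0, 0, 2, 5, 6, 4, 7]
    chq := [(1, 2), (2, 1), (2, 3), (2, 4), (2, 6), (3, 2), (4, 2), (6, 2)]
    rng := [(0, 1), (0, 8), (1, 0), (1, 6), (2, 7), (3, 4), (3, 5), (4, 3), (4, 8), (5, 3), (5, 7), (6,
      1), (6, 7), (7, 2), (7, 5), (7, 6), (8, 0), (8, 4)]
    lev := [] }
  links := [[1, 6, 7, 3], [6, 0, 3, 8, 2, 9, 10, 5], [9, 1, 8, 4, 11], [8, 1, 0, 7, 12, 13], [11, 2, 8,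
    13], [6, 1, 10, 14]]
  P := {
    a := 6
    N := 15
    nb := [202, 1901, 2834, 12675, 10500, 17474, 16547, 4169, 8222, 3078, 16930, 8724, 8328, 6424,
      1120]
    tri := [(0, 1, 3), (0, 1, 6), (0, 3, 7), (0, 6, 7), (1, 2, 8), (1, 2, 9), (1, 3, 8), (1, 5, 6), (1,
      5, 10), (1, 9, 10), (2, 4, 8), (2, 4, 11), (2, 9, 11), (3, 7, 12), (3, 8, 13), (3, 12, 13),
      (4, 8, 13), (4, 11, 13), (5, 6, 14), (5, 10, 14)]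
    fin := [0, 1, 2, 1, 4, 0, 0, 7, 2, 2, 1, 11, 12, 4, 14]
    chd := [(0, 1), (1, 4), (1, 12), (7, 1)]
    steps := [(0, 6), (0, 5), (1, 3), (1, 10), (2, 8), (2, 9), (4, 13)] }
  rep := [2, 0, 1, 7, 4, 11, 12, 14]

noncomputable def v897 : Cov.CovD where
  P := 3
  N := 5
  pl := [5, 8]
  lev := [⟨[], [], [(1, 3)], [], [(0, 1, [2]), (1, 3, [2])]⟩,
    ⟨[], [(0, 0), (0, 1), (0, 2), (0, 3)], [(0, 0), (0, 1), (0, 2), (1, 2)], [], [(0, 1,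
      [2]), (2, 0, []), (3, 0, []), (4, 2, [1, 3, 4, 6])]⟩,
    ⟨[(0, 1)], [(1, 0), (1, 1), (1, 2)], [(0, 0)], [5], [(2, 0, []), (3, 0, [])]⟩,
    ⟨[(0, 1), (1, 2)], [(0, 0), (0, 1), (0, 3), (0, 4), (0, 6), (1, 0), (1, 1), (1, 2), (1,
      3), (1, 4), (1, 6), (2, 0)], [(0, 3), (0, 4), (0, 6), (3, 4), (3, 6), (4, 6)], [], [(1,
      3, [2]), (2, 0, []), (6, 6, [2]), (7, 4, [2])]⟩,
    ⟨[(1, 2)], [(1, 0), (2, 0), (2, 4), (3, 0), (3, 4)], [(0, 4)], [5], [(2, 0, []), (7, 4,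
      [2])]⟩,
    ⟨[(0, 1), (1, 2), (1, 3)], [(0, 1), (1, 0), (1, 1), (1, 2)], [(1, 2)], [7], [(0, 1,
      [2]), (4, 2, [1, 3, 4, 6])]⟩]
  Ta := [((2, 7), 0, 4), ((3, 4), 0, 2), ((3, 5), 0, 5)]
  Tb := [((0, 1, 8), 1, 3, 7), ((1, 0, 6), 3, 1, 6), ((3, 4, 5), 0, 2, 5), ((4, 3, 8), 2, 0, 7),
    ((5, 3, 7), 5, 0, 4), ((6, 1, 7), 6, 3, 4), ((7, 2, 5), 4, 0, 5), ((7, 2, 6), 4, 0, 6),
    ((7, 5, 6), 4, 5, 6), ((8, 0, 4), 7, 1, 2)]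
  Tc := [(2, 1, 3), (2, 1, 4), (2, 1, 6), (2, 3, 4), (2, 3, 6), (2, 4, 6)]
  Td := [((1, 2), (0, 1), 3), ((1, 2), (0, 8), 7), ((2, 1), (4, 3), 0), ((2, 1), (4, 8), 7), ((2,
    3), (4, 3), 0), ((2, 3), (4, 8), 7), ((2, 4), (4, 3), 0), ((2, 4), (4, 8), 7), ((2, 6),
    (4, 3), 0), ((2, 6), (4, 8), 7), ((3, 2), (1, 0), 1), ((3, 2), (1, 6), 6), ((4, 2), (7,
    2), 0), ((4, 2), (7, 5), 5), ((4, 2), (7, 6), 6), ((6, 2), (6, 1), 3), ((6, 2), (6, 7),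
    4)]
  G := [[0, 0xccc22c62a4ccc22ca268c, 0, 0x55c25226899c2922a4c,
    0x45c445a46884498a46899c449a468d], [0, 0xc122c62a4c122ca268c, 0xccc1cc61a4ccc1cca168c,
    0x912922a4c12c22a45, 0x45c4514688448146849c491468d]]

noncomputable def n897 : Ent := ⟨e897, noF, [], [], []⟩

def c897 : PLift (Cov.check n897.C.D v897 = true) := ⟨by decide +kernel⟩

def b897 : PLift (entF (fidx ts) 400 897 n897 = true) := ⟨by decide +kernel⟩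

theorem g897 : GoodF (fidx ts) 400 897 := GoodF.ofV v897 n897 c897.down b897.down

/-- 485644:765 -/
noncomputable def e898 : SCfg where
  D := {
    a := 6
    L := 10
    kp := 8
    inn := [(0, 1), (0, 3), (1, 0), (1, 2), (1, 3), (1, 5), (2, 1), (2, 4), (3, 0), (3, 1), (4, 2), (5,
      1)]
    mix := [(0, 0), (0, 1), (1, 0), (1, 2), (1, 3), (1, 4), (2, 2), (2, 3), (2, 5), (3, 1), (3, 2), (3,
      6), (3, 7), (4, 2), (4, 5), (4, 8), (5, 0), (5, 4), (5, 9)]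
    cl := [1, 3, 0, 0, 2, 4, 5, 6, 7, 8]
    chq := [(1, 2), (2, 1), (2, 3), (2, 5), (2, 6), (3, 2), (5, 2), (6, 2)]
    rng := [(0, 1), (0, 9), (1, 0), (1, 6), (2, 7), (2, 8), (3, 4), (3, 5), (4, 3), (4, 9), (5, 3), (5,
      8), (6, 1), (6, 7), (7, 2), (7, 6), (8, 2), (8, 5), (9, 0), (9, 4)]
    lev := [] }
  links := [[1, 6, 7, 3], [6, 0, 3, 8, 2, 9, 10, 5], [9, 1, 8, 4, 11], [8, 1, 0, 7, 12, 13], [11, 2, 8,
    14], [6, 1, 10, 15]]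
  P := {
    a := 6
    N := 16
    nb := [202, 1901, 2834, 12675, 18692, 33858, 32931, 4169, 24606, 3078, 33314, 16916, 8328, 4360,
      2320, 1120]
    tri := [(0, 1, 3), (0, 1, 6), (0, 3, 7), (0, 6, 7), (1, 2, 8), (1, 2, 9), (1, 3, 8), (1, 5, 6), (1,
      5, 10), (1, 9, 10), (2, 4, 8), (2, 4, 11), (2, 9, 11), (3, 7, 12), (3, 8, 13), (3, 12, 13),
      (4, 8, 14), (4, 11, 14), (5, 6, 15), (5, 10, 15)]
    fin := [0, 1, 2, 1, 2, 0, 0, 7, 2, 2, 1, 11, 12, 13, 14, 15]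
    chd := [(0, 1), (1, 12), (1, 13), (7, 1)]
    steps := [(0, 6), (0, 5), (1, 3), (1, 10), (2, 4), (2, 8), (2, 9)] }
  rep := [2, 0, 1, 7, 11, 12, 13, 14, 15]

noncomputable def v898 : Cov.CovD where
  P := 3
  N := 6
  pl := [5, 8, 9]
  lev := [⟨[], [], [(1, 3)], [], [(0, 1, [2]), (1, 3, [2])]⟩,
    ⟨[], [(0, 0), (0, 1), (0, 2), (0, 3)], [(0, 0), (0, 1), (0, 2), (1, 2)], [], [(0, 1,
      [2]), (2, 0, []), (3, 0, []), (4, 2, [1, 3, 5, 6])]⟩,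
    ⟨[(0, 1)], [(1, 0), (1, 1), (1, 2)], [(0, 0)], [4], [(2, 0, []), (3, 0, [])]⟩,
    ⟨[(0, 1), (1, 2)], [(0, 0), (0, 1), (0, 3), (0, 5), (0, 6), (1, 0), (1, 1), (1, 2), (1,
      3), (1, 5), (1, 6), (2, 0)], [(0, 3), (0, 5), (0, 6), (3, 5), (3, 6), (5, 6)], [], [(1,
      3, [2]), (2, 0, []), (6, 5, [2]), (7, 6, [2])]⟩,
    ⟨[(1, 2)], [(1, 0), (2, 0), (3, 0)], [], [4, 7], [(2, 0, [])]⟩,
    ⟨[(0, 1), (1, 2), (1, 3)], [(0, 1), (1, 0), (1, 1), (1, 2)], [(1, 2)], [8], [(0, 1,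
      [2]), (4, 2, [1, 3, 5, 6])]⟩]
  Ta := [((2, 7), 0, 6), ((2, 8), 0, 7), ((3, 4), 0, 2), ((3, 5), 0, 4)]
  Tb := [((0, 1, 9), 1, 3, 8), ((1, 0, 6), 3, 1, 5), ((2, 7, 8), 0, 6, 7), ((3, 4, 5), 0, 2, 4),
    ((4, 3, 9), 2, 0, 8), ((5, 3, 8), 4, 0, 7), ((6, 1, 7), 5, 3, 6), ((7, 2, 6), 6, 0, 5),
    ((8, 2, 5), 7, 0, 4), ((9, 0, 4), 8, 1, 2)]
  Tc := [(2, 1, 3), (2, 1, 5), (2, 1, 6), (2, 3, 5), (2, 3, 6), (2, 5, 6)]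
  Td := [((1, 2), (0, 1), 3), ((1, 2), (0, 9), 8), ((2, 1), (4, 3), 0), ((2, 1), (4, 9), 8), ((2,
    3), (4, 3), 0), ((2, 3), (4, 9), 8), ((2, 5), (4, 3), 0), ((2, 5), (4, 9), 8), ((2, 6),
    (4, 3), 0), ((2, 6), (4, 9), 8), ((3, 2), (1, 0), 1), ((3, 2), (1, 6), 5), ((5, 2), (6,
    1), 3), ((5, 2), (6, 7), 6), ((6, 2), (7, 2), 0), ((6, 2), (7, 6), 5)]
  G := [[0, 0xccc2cc62a4ccc2cca268c, 0, 0x55c2c962a49cc259a268c,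
    0x55c445a46888c498a46899c449a468d], [0, 0xc12cc62a4ccc2c1268c,
    0x4212ccc1c861acccc1cca168c, 0x91295a26499c291268c, 0x55c44146888c49146899c491468d]]

noncomputable def n898 : Ent := ⟨e898, noF, [], [], [(13, 14, [385746751338780685620664494392815470296102193487288376376168449, 0])]⟩

def c898 : PLift (Cov.check n898.C.D v898 = true) := ⟨by decide +kernel⟩

def b898 : PLift (entF (fidx ts) 400 898 n898 = true) := ⟨by decide +kernel⟩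

theorem g898 : GoodF (fidx ts) 400 898 := GoodF.ofV v898 n898 c898.down b898.down

/-- 485645:768/1 -/
noncomputable def e899 : SCfg where
  D := {
    a := 6
    L := 10
    kp := 7
    inn := [(0, 1), (1, 0), (1, 2), (1, 3), (1, 4), (2, 1), (2, 3), (3, 1), (3, 2), (3, 5), (4, 1), (5,
      3)]
    mix := [(0, 0), (0, 1), (0, 2), (1, 0), (1, 2), (1, 3), (1, 4), (2, 3), (2, 5), (2, 6), (3, 2), (3,
      5), (3, 7), (4, 0), (4, 4), (4, 8), (5, 5), (5, 7), (5, 8), (5, 9)]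
    cl := [2, 5, 0, 0, 4, 1, 6, 1, 3, 7]
    chq := [(0, 2), (0, 3), (2, 0), (3, 0)]
    rng := [(0, 1), (0, 8), (1, 0), (1, 2), (2, 1), (2, 7), (3, 4), (3, 6), (4, 3), (4, 8), (5, 6), (5,
      9), (6, 3), (6, 5), (7, 2), (7, 8), (8, 0), (8, 4), (8, 7), (8, 9), (9, 5), (9, 8)]
    lev := [] }
  links := [[1, 6, 7, 8], [6, 0, 8, 3, 2, 9, 10, 4], [9, 1, 3, 11, 12], [11, 2, 1, 8, 13, 5], [6, 1, 10,
    14], [11, 3, 13, 14, 15]]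
  P := {
    a := 6
    N := 16
    nb := [450, 1885, 6666, 10534, 17474, 59400, 16531, 321, 8331, 5126, 16914, 36908, 2564, 16680,
      42096, 18464]
    tri := [(0, 1, 6), (0, 1, 8), (0, 6, 7), (0, 7, 8), (1, 2, 3), (1, 2, 9), (1, 3, 8), (1, 4, 6), (1,
      4, 10), (1, 9, 10), (2, 3, 11), (2, 9, 12), (2, 11, 12), (3, 5, 11), (3, 5, 13), (3, 8, 13),
      (4, 6, 14), (4, 10, 14), (5, 11, 15), (5, 13, 14), (5, 14, 15)]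
    fin := [0, 1, 1, 1, 1, 5, 0, 7, 1, 1, 10, 5, 12, 5, 14, 15]
    chd := [(0, 1), (1, 14)]
    steps := [(0, 6), (1, 2), (1, 3), (1, 4), (1, 8), (1, 9), (5, 13), (5, 11)] }
  rep := [1, 5, 0, 14, 10, 7, 12, 15]

noncomputable def v899 : Cov.CovD where
  P := 3
  N := 5
  pl := [1, 4, 6, 9]
  lev := [⟨[], [], [(0, 2)], [5], [(0, 2, [0]), (2, 0, [2, 3])]⟩,
    ⟨[], [(0, 0), (0, 2)], [(0, 0), (0, 2)], [4], [(0, 2, [0]), (2, 0, [2, 3]), (3, 0, [2,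
      3])]⟩,
    ⟨[(0, 1)], [(1, 0), (1, 1), (1, 2)], [(0, 1)], [6], [(3, 0, [2, 3]), (5, 1, [])]⟩,
    ⟨[(0, 1), (1, 2)], [(0, 0), (1, 0), (1, 1), (1, 2), (2, 0), (2, 1)], [(0, 1), (1, 1)],
      [], [(2, 0, [2, 3]), (5, 1, []), (7, 1, [])]⟩,
    ⟨[(0, 1), (1, 2), (1, 3)], [(0, 2), (1, 0), (1, 2), (1, 3)], [(2, 3)], [4], [(0, 2,
      [0]), (8, 3, [0])]⟩,
    ⟨[(1, 3), (2, 3)], [(2, 1), (3, 0), (3, 1), (3, 3), (4, 3)], [(1, 1), (1, 3)], [7],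
      [(5, 1, []), (7, 1, []), (8, 3, [0])]⟩]
  Ta := [((2, 1), 0, 5), ((2, 7), 0, 1), ((3, 4), 0, 4), ((3, 6), 0, 6), ((5, 6), 1, 6), ((5, 9),
    1, 7), ((7, 2), 1, 0), ((7, 8), 1, 3)]
  Tb := [((0, 1, 8), 2, 5, 3), ((1, 0, 2), 5, 2, 0), ((2, 1, 7), 0, 5, 1), ((3, 4, 6), 0, 4, 6),
    ((4, 3, 8), 4, 0, 3), ((5, 6, 9), 1, 6, 7), ((6, 3, 5), 6, 0, 1), ((7, 2, 8), 1, 0, 3),
    ((8, 0, 4), 3, 2, 4), ((8, 0, 7), 3, 2, 1), ((8, 0, 9), 3, 2, 7), ((8, 4, 7), 3, 4, 1),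
    ((8, 4, 9), 3, 4, 7), ((8, 7, 9), 3, 1, 7), ((9, 5, 8), 7, 1, 3)]
  Tc := [(0, 2, 3)]
  Td := [((0, 2), (2, 1), 5), ((0, 2), (2, 7), 1), ((0, 2), (3, 4), 4), ((0, 2), (3, 6), 6), ((0,
    3), (2, 1), 5), ((0, 3), (2, 7), 1), ((0, 3), (3, 4), 4), ((0, 3), (3, 6), 6), ((2, 0),
    (0, 1), 5), ((2, 0), (0, 8), 3), ((3, 0), (8, 0), 2), ((3, 0), (8, 4), 4), ((3, 0), (8,
    7), 1), ((3, 0), (8, 9), 7)]
  G := [[0, 0, 0xd1418d1814d1812e, 0xd14149581cd141d181cc, 0xd141d141ad141d181aa], [0,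
    0xe12e146e18a14466ce146181ace12e18acc, 0xd1412d1814d1428e, 0xd14149581cd141d182cc,
    0xd142d141ad142d181aa], [0, 0, 0x495814d1418d1812e, 0xd1445591ccc54999cd18cc1,
    0xd145188ccd244292cca1], [0, 0, 0xd1428d1412d1824e, 0x9594259582c1, 0x955b42d14d18ca1]]

noncomputable def n899 : Ent := ⟨e899, noF, [], [], []⟩

def c899 : PLift (Cov.check n899.C.D v899 = true) := ⟨by decide +kernel⟩

def b899 : PLift (entF (fidx ts) 400 899 n899 = true) := ⟨by decide +kernel⟩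

theorem g899 : GoodF (fidx ts) 400 899 := GoodF.ofV v899 n899 c899.down b899.down

/-- 485645:768/2 -/
noncomputable def e900 : SCfg where
  D := {
    a := 6
    L := 10
    kp := 7
    inn := [(0, 1), (1, 0), (1, 2), (1, 3), (1, 4), (2, 1), (2, 3), (3, 1), (3, 2), (3, 5), (4, 1), (5,
      3)]
    mix := [(0, 0), (0, 1), (0, 2), (1, 0), (1, 2), (1, 3), (1, 4), (2, 3), (2, 5), (2, 6), (3, 2), (3,
      5), (3, 7), (4, 0), (4, 4), (4, 8), (5, 5), (5, 7), (5, 8), (5, 9)]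
    cl := [1, 5, 0, 0, 2, 3, 6, 3, 4, 7]
    chq := [(0, 1), (0, 4), (1, 0), (4, 0)]
    rng := [(0, 1), (0, 8), (1, 0), (1, 2), (2, 1), (2, 7), (3, 4), (3, 6), (4, 3), (4, 8), (5, 6), (5,
      8), (6, 3), (6, 5), (7, 2), (7, 9), (8, 0), (8, 4), (8, 5), (8, 9), (9, 7), (9, 8)]
    lev := [] }
  links := [[1, 6, 7, 8], [6, 0, 8, 3, 2, 9, 10, 4], [9, 1, 3, 11, 12], [11, 2, 1, 8, 13, 5], [6, 1, 10,
    14], [11, 3, 13, 15, 14]]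
  P := {
    a := 6
    N := 16
    nb := [450, 1885, 6666, 10534, 17474, 59400, 16531, 321, 8331, 5126, 16914, 20524, 2564, 33064,
      35952, 24608]
    tri := [(0, 1, 6), (0, 1, 8), (0, 6, 7), (0, 7, 8), (1, 2, 3), (1, 2, 9), (1, 3, 8), (1, 4, 6), (1,
      4, 10), (1, 9, 10), (2, 3, 11), (2, 9, 12), (2, 11, 12), (3, 5, 11), (3, 5, 13), (3, 8, 13),
      (4, 6, 14), (4, 10, 14), (5, 11, 14), (5, 13, 15), (5, 14, 15)]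
    fin := [0, 1, 1, 1, 1, 5, 0, 7, 1, 1, 10, 5, 12, 5, 14, 15]
    chd := [(0, 1), (1, 14)]
    steps := [(0, 6), (1, 2), (1, 3), (1, 4), (1, 8), (1, 9), (5, 13), (5, 11)] }
  rep := [1, 0, 10, 5, 14, 7, 12, 15]

noncomputable def v900 : Cov.CovD where
  P := 3
  N := 5
  pl := [1, 4, 6, 9]
  lev := [⟨[], [], [(0, 1)], [5], [(0, 1, [0]), (2, 0, [1, 4])]⟩,
    ⟨[], [(0, 0), (0, 1)], [(0, 0), (0, 1)], [2], [(0, 1, [0]), (2, 0, [1, 4]), (3, 0, [1,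
      4])]⟩,
    ⟨[(0, 1)], [(1, 0), (1, 1), (1, 3)], [(0, 3)], [6], [(3, 0, [1, 4]), (5, 3, [])]⟩,
    ⟨[(0, 1), (1, 2)], [(0, 0), (1, 0), (1, 1), (1, 3), (2, 0), (2, 3)], [(0, 3), (3, 3)],
      [], [(2, 0, [1, 4]), (5, 3, []), (7, 3, [])]⟩,
    ⟨[(0, 1), (1, 2), (1, 3)], [(0, 1), (1, 0), (1, 1), (1, 4)], [(1, 4)], [2], [(0, 1,
      [0]), (8, 4, [0])]⟩,
    ⟨[(1, 3), (2, 3)], [(2, 3), (3, 0), (3, 3), (3, 4), (4, 4)], [(3, 3), (3, 4)], [7],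
      [(5, 3, []), (7, 3, []), (8, 4, [0])]⟩]
  Ta := [((2, 1), 0, 5), ((2, 7), 0, 3), ((3, 4), 0, 2), ((3, 6), 0, 6), ((5, 6), 3, 6), ((5, 8),
    3, 4), ((7, 2), 3, 0), ((7, 9), 3, 7)]
  Tb := [((0, 1, 8), 1, 5, 4), ((1, 0, 2), 5, 1, 0), ((2, 1, 7), 0, 5, 3), ((3, 4, 6), 0, 2, 6),
    ((4, 3, 8), 2, 0, 4), ((5, 6, 8), 3, 6, 4), ((6, 3, 5), 6, 0, 3), ((7, 2, 9), 3, 0, 7),
    ((8, 0, 4), 4, 1, 2), ((8, 0, 5), 4, 1, 3), ((8, 0, 9), 4, 1, 7), ((8, 4, 5), 4, 2, 3),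
    ((8, 4, 9), 4, 2, 7), ((8, 5, 9), 4, 3, 7), ((9, 7, 8), 7, 3, 4)]
  Tc := [(0, 1, 4)]
  Td := [((0, 1), (2, 1), 5), ((0, 1), (2, 7), 3), ((0, 1), (3, 4), 2), ((0, 1), (3, 6), 6), ((0,
    4), (2, 1), 5), ((0, 4), (2, 7), 3), ((0, 4), (3, 4), 2), ((0, 4), (3, 6), 6), ((1, 0),
    (0, 1), 5), ((1, 0), (0, 8), 4), ((4, 0), (8, 0), 1), ((4, 0), (8, 4), 2), ((4, 0), (8,
    5), 3), ((4, 0), (8, 9), 7)]
  G := [[0, 0xd171a14d1b1618c, 0, 0xd1b161885971a14c, 0xd1b1618d1b1618c], [0, 0xd1b1618d171a14c,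
    0, 0xf12e124b58d4f12f1468c, 0xe12f1411278f12f1468c], [0, 0xd1b1618d1b1618c,
    0x44b3c48e417c8888e242895ceac1, 0x441b5c2121119e617581c8c1, 0xd1b1641b148e2121d1ee81],
    [0, 0xd1b1618d171a14c, 0x7482f3c2988ac1, 0x1392f14681, 0xc392f14681]]

noncomputable def n900 : Ent := ⟨e900, noF, [], [], []⟩

def c900 : PLift (Cov.check n900.C.D v900 = true) := ⟨by decide +kernel⟩

def b900 : PLift (entF (fidx ts) 400 900 n900 = true) := ⟨by decide +kernel⟩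

theorem g900 : GoodF (fidx ts) 400 900 := GoodF.ofV v900 n900 c900.down b900.down

/-- 485645:768 -/
noncomputable def e901 : SCfg where
  D := {
    a := 6
    L := 11
    kp := 8
    inn := [(0, 1), (1, 0), (1, 2), (1, 3), (1, 4), (2, 1), (2, 3), (3, 1), (3, 2), (3, 5), (4, 1), (5,
      3)]
    mix := [(0, 0), (0, 1), (0, 2), (1, 0), (1, 2), (1, 3), (1, 4), (2, 3), (2, 5), (2, 6), (3, 2), (3,
      5), (3, 7), (4, 0), (4, 4), (4, 8), (5, 5), (5, 7), (5, 9), (5, 10)]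
    cl := [2, 5, 0, 0, 3, 1, 6, 1, 4, 7, 8]
    chq := [(0, 2), (0, 4), (2, 0), (4, 0)]
    rng := [(0, 1), (0, 8), (1, 0), (1, 2), (2, 1), (2, 7), (3, 4), (3, 6), (4, 3), (4, 8), (5, 6), (5,
      10), (6, 3), (6, 5), (7, 2), (7, 9), (8, 0), (8, 4), (9, 7), (9, 10), (10, 5), (10, 9)]
    lev := [] }
  links := [[1, 6, 7, 8], [6, 0, 8, 3, 2, 9, 10, 4], [9, 1, 3, 11, 12], [11, 2, 1, 8, 13, 5], [6, 1, 10,
    14], [11, 3, 13, 15, 16]]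
  P := {
    a := 6
    N := 17
    nb := [450, 1885, 6666, 10534, 17474, 108552, 16531, 321, 8331, 5126, 16914, 69676, 2564, 33064,
      1104, 73760, 34848]
    tri := [(0, 1, 6), (0, 1, 8), (0, 6, 7), (0, 7, 8), (1, 2, 3), (1, 2, 9), (1, 3, 8), (1, 4, 6), (1,
      4, 10), (1, 9, 10), (2, 3, 11), (2, 9, 12), (2, 11, 12), (3, 5, 11), (3, 5, 13), (3, 8, 13),
      (4, 6, 14), (4, 10, 14), (5, 11, 16), (5, 13, 15), (5, 15, 16)]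
    fin := [0, 1, 1, 1, 1, 5, 0, 7, 1, 1, 10, 5, 12, 5, 14, 15, 16]
    chd := [(0, 1), (1, 14)]
    steps := [(0, 6), (1, 2), (1, 3), (1, 4), (1, 8), (1, 9), (5, 13), (5, 11)] }
  rep := [1, 5, 0, 10, 14, 7, 12, 15, 16]

noncomputable def v901 : Cov.CovD where
  P := 3
  N := 6
  pl := [1, 4, 6, 9, 10]
  lev := [⟨[], [], [(0, 2)], [5], [(0, 2, [0]), (2, 0, [2, 4])]⟩,
    ⟨[], [(0, 0), (0, 2)], [(0, 0), (0, 2)], [3], [(0, 2, [0]), (2, 0, [2, 4]), (3, 0, [2,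
      4])]⟩,
    ⟨[(0, 1)], [(1, 0), (1, 1), (1, 2)], [(0, 1)], [6], [(3, 0, [2, 4]), (5, 1, [])]⟩,
    ⟨[(0, 1), (1, 2)], [(0, 0), (1, 0), (1, 1), (1, 2), (2, 0), (2, 1)], [(0, 1), (1, 1)],
      [], [(2, 0, [2, 4]), (5, 1, []), (7, 1, [])]⟩,
    ⟨[(0, 1), (1, 2), (1, 3)], [(0, 2), (1, 0), (1, 2), (1, 4)], [(2, 4)], [3], [(0, 2,
      [0]), (8, 4, [0])]⟩,
    ⟨[(1, 3), (2, 3)], [(2, 1), (3, 0), (3, 1)], [(1, 1)], [7, 8], [(5, 1, []), (7, 1,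
      [])]⟩]
  Ta := [((2, 1), 0, 5), ((2, 7), 0, 1), ((3, 4), 0, 3), ((3, 6), 0, 6), ((5, 6), 1, 6), ((5,
    10), 1, 8), ((7, 2), 1, 0), ((7, 9), 1, 7)]
  Tb := [((0, 1, 8), 2, 5, 4), ((1, 0, 2), 5, 2, 0), ((2, 1, 7), 0, 5, 1), ((3, 4, 6), 0, 3, 6),
    ((4, 3, 8), 3, 0, 4), ((5, 6, 10), 1, 6, 8), ((6, 3, 5), 6, 0, 1), ((7, 2, 9), 1, 0, 7),
    ((8, 0, 4), 4, 2, 3), ((9, 7, 10), 7, 1, 8), ((10, 5, 9), 8, 1, 7)]
  Tc := [(0, 2, 4)]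
  Td := [((0, 2), (2, 1), 5), ((0, 2), (2, 7), 1), ((0, 2), (3, 4), 3), ((0, 2), (3, 6), 6), ((0,
    4), (2, 1), 5), ((0, 4), (2, 7), 1), ((0, 4), (3, 4), 3), ((0, 4), (3, 6), 6), ((2, 0),
    (0, 1), 5), ((2, 0), (0, 8), 4), ((4, 0), (8, 0), 2), ((4, 0), (8, 4), 3)]
  G := [[0, 0, 0xd1418d1814d1812e, 0xd141d181cd141d181cc, 0xd141d141ad141d181aa], [0,
    0xe12e14641a1c21c1aace12e146e12e18acc, 0xd1812d1814d1428e, 0xd142d181c5181c1d181cc,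
    0xd142d181ad141d181aa], [0, 0, 0xd141d181ad141d181cc, 0x8d54555188dcc455d989ccd98cc1,
    0xd1441999ccdddb44ddb8ca1], [0, 0, 0x11c1528d1812d1824e, 0xdd942dd582c1,
    0x553d88bc2d14d18ca1]]

noncomputable def n901 : Ent := ⟨e901, noF, [], [], [(15, 14, [1685382413448253767852309107433119732572617628602273068445368594433, 0]), (16, 14, [1580095832788404724998799751142926758855362888449624481876422443009, 0])]⟩

def c901 : PLift (Cov.check n901.C.D v901 = true) := ⟨by decide +kernel⟩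

def b901 : PLift (entF (fidx ts) 400 901 n901 = true) := ⟨by decide +kernel⟩

theorem g901 : GoodF (fidx ts) 400 901 := GoodF.ofV v901 n901 c901.down b901.down

/-- 485646:769/1 -/
noncomputable def e902 : SCfg where
  D := {
    a := 6
    L := 10
    kp := 7
    inn := [(0, 1), (1, 0), (1, 2), (1, 3), (1, 4), (2, 1), (2, 3), (2, 5), (3, 1), (3, 2), (3, 5), (4,
      1), (5, 2), (5, 3)]
    mix := [(0, 0), (0, 1), (0, 2), (1, 0), (1, 2), (1, 3), (1, 4), (2, 3), (2, 5), (3, 2), (3, 6), (3,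
      7), (4, 0), (4, 4), (4, 8), (5, 5), (5, 7), (5, 8), (5, 9)]
    cl := [1, 6, 0, 2, 0, 3, 5, 3, 4, 7]
    chq := [(0, 1), (1, 0), (2, 5), (5, 2)]
    rng := [(0, 1), (0, 8), (1, 0), (1, 2), (2, 1), (2, 6), (3, 4), (3, 5), (4, 3), (4, 8), (5, 3), (5,
      9), (6, 2), (6, 7), (7, 6), (7, 8), (8, 0), (8, 4), (8, 7), (8, 9), (9, 5), (9, 8)]
    lev := [] }
  links := [[1, 6, 7, 8], [6, 0, 8, 3, 2, 9, 10, 4], [9, 1, 3, 5, 11], [5, 2, 1, 8, 12, 13], [6, 1, 10,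
    14], [11, 2, 3, 13, 14, 15]]
  P := {
    a := 6
    N := 16
    nb := [450, 1885, 2602, 12582, 17474, 59404, 16531, 321, 4235, 3078, 16914, 33316, 8456, 20520,
      42096, 18464]
    tri := [(0, 1, 6), (0, 1, 8), (0, 6, 7), (0, 7, 8), (1, 2, 3), (1, 2, 9), (1, 3, 8), (1, 4, 6), (1,
      4, 10), (1, 9, 10), (2, 3, 5), (2, 5, 11), (2, 9, 11), (3, 5, 13), (3, 8, 12), (3, 12, 13),
      (4, 6, 14), (4, 10, 14), (5, 11, 15), (5, 13, 14), (5, 14, 15)]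
    fin := [0, 1, 2, 2, 0, 5, 0, 7, 1, 9, 1, 5, 2, 5, 14, 15]
    chd := [(0, 1), (9, 2)]
    steps := [(0, 6), (0, 4), (1, 8), (1, 10), (2, 3), (2, 12), (5, 13), (5, 11)] }
  rep := [1, 0, 9, 5, 14, 2, 7, 15]

noncomputable def v902 : Cov.CovD where
  P := 3
  N := 5
  pl := [1, 8, 9]
  lev := [⟨[], [], [(0, 1)], [6], [(0, 1, [0]), (2, 0, [1])]⟩,
    ⟨[], [(0, 0), (0, 1), (0, 2)], [(0, 0), (0, 1), (0, 2), (1, 2)], [], [(0, 1, [0]), (2,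
      0, [1]), (3, 2, [5]), (4, 0, [1])]⟩,
    ⟨[(0, 1)], [(1, 0), (1, 1), (1, 2), (1, 3)], [(2, 3)], [], [(3, 2, [5]), (5, 3, [])]⟩,
    ⟨[(0, 1), (1, 2)], [(0, 0), (1, 0), (1, 1), (1, 2), (1, 3), (1, 5), (2, 0), (2, 2), (2,
      3), (2, 5)], [(0, 3), (0, 5), (3, 5)], [], [(2, 0, [1]), (6, 5, [2]), (7, 3, [])]⟩,
    ⟨[(0, 1), (1, 2), (1, 3)], [(0, 1), (1, 0), (1, 1), (1, 2)], [(0, 1)], [4], [(0, 1,
      [0]), (4, 0, [1])]⟩,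
    ⟨[(1, 2), (1, 3), (2, 3)], [(2, 2), (2, 3), (3, 0), (3, 3), (3, 5)], [(3, 3)], [4, 7],
      [(5, 3, []), (7, 3, [])]⟩]
  Ta := [((2, 1), 0, 6), ((2, 6), 0, 5), ((4, 3), 0, 2), ((4, 8), 0, 4), ((5, 3), 3, 2), ((5, 9),
    3, 7), ((7, 6), 3, 5), ((7, 8), 3, 4)]
  Tb := [((0, 1, 8), 1, 6, 4), ((1, 0, 2), 6, 1, 0), ((2, 1, 6), 0, 6, 5), ((3, 4, 5), 2, 0, 3),
    ((4, 3, 8), 0, 2, 4), ((5, 3, 9), 3, 2, 7), ((6, 2, 7), 5, 0, 3), ((7, 6, 8), 3, 5, 4),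
    ((8, 0, 4), 4, 1, 0), ((8, 0, 7), 4, 1, 3), ((8, 0, 9), 4, 1, 7), ((8, 4, 7), 4, 0, 3),
    ((8, 4, 9), 4, 0, 7), ((8, 7, 9), 4, 3, 7), ((9, 5, 8), 7, 3, 4)]
  Tc := []
  Td := [((0, 1), (2, 1), 6), ((0, 1), (2, 6), 5), ((0, 1), (4, 3), 2), ((0, 1), (4, 8), 4), ((1,
    0), (0, 1), 6), ((1, 0), (0, 8), 4), ((2, 5), (3, 4), 0), ((2, 5), (3, 5), 3), ((5, 2),
    (6, 2), 0), ((5, 2), (6, 7), 3)]
  G := [[0, 0x4268143245362c9828cd7a212a8c4e, 0, 0x21879a6118a9421e1a2851a94c,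
    0xf1416d12384152f1416882b8c], [0, 0x2222b7ce1822d7a247846, 0, 0x2421f1e842121f1e18c,
    0xf144624188c44f141e18c], [0, 0x85c2228c4b7c2224583248d821ce, 0x3497ca388c88e41,
    0x24b7ca388488d41, 0x542a7c498446b81], [0, 0x2422d7ae142228853ee14a,
    0xb5c4222c297c95caac1, 0x2428b7ce141, 0x44b7c44e281]]

noncomputable def n902 : Ent := ⟨e902, noF, [], [], []⟩

def c902 : PLift (Cov.check n902.C.D v902 = true) := ⟨by decide +kernel⟩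

def b902 : PLift (entF (fidx ts) 400 902 n902 = true) := ⟨by decide +kernel⟩

theorem g902 : GoodF (fidx ts) 400 902 := GoodF.ofV v902 n902 c902.down b902.down

/-- 485646:769/2 -/
noncomputable def e903 : SCfg where
  D := {
    a := 6
    L := 10
    kp := 7
    inn := [(0, 1), (1, 0), (1, 2), (1, 3), (1, 4), (2, 1), (2, 3), (2, 5), (3, 1), (3, 2), (3, 5), (4,
      1), (5, 2), (5, 3)]
    mix := [(0, 0), (0, 1), (0, 2), (1, 0), (1, 2), (1, 3), (1, 4), (2, 3), (2, 5), (3, 2), (3, 6), (3,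
      7), (4, 0), (4, 4), (4, 8), (5, 5), (5, 7), (5, 8), (5, 9)]
    cl := [1, 6, 0, 2, 0, 3, 5, 3, 4, 7]
    chq := [(0, 1), (1, 0), (2, 5), (5, 2)]
    rng := [(0, 1), (0, 8), (1, 0), (1, 2), (2, 1), (2, 6), (3, 4), (3, 5), (4, 3), (4, 8), (5, 3), (5,
      8), (6, 2), (6, 7), (7, 6), (7, 9), (8, 0), (8, 4), (8, 5), (8, 9), (9, 7), (9, 8)]
    lev := [] }
  links := [[1, 6, 7, 8], [6, 0, 8, 3, 2, 9, 10, 4], [9, 1, 3, 5, 11], [5, 2, 1, 8, 12, 13], [6, 1, 10,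
    14], [11, 2, 3, 13, 15, 14]]
  P := {
    a := 6
    N := 16
    nb := [450, 1885, 2602, 12582, 17474, 59404, 16531, 321, 4235, 3078, 16914, 16932, 8456, 36904,
      35952, 24608]
    tri := [(0, 1, 6), (0, 1, 8), (0, 6, 7), (0, 7, 8), (1, 2, 3), (1, 2, 9), (1, 3, 8), (1, 4, 6), (1,
      4, 10), (1, 9, 10), (2, 3, 5), (2, 5, 11), (2, 9, 11), (3, 5, 13), (3, 8, 12), (3, 12, 13),
      (4, 6, 14), (4, 10, 14), (5, 11, 14), (5, 13, 15), (5, 14, 15)]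
    fin := [0, 1, 2, 2, 0, 5, 0, 7, 1, 9, 1, 5, 2, 5, 14, 15]
    chd := [(0, 1), (9, 2)]
    steps := [(0, 6), (0, 4), (1, 8), (1, 10), (2, 3), (2, 12), (5, 13), (5, 11)] }
  rep := [1, 0, 9, 5, 14, 2, 7, 15]

noncomputable def v903 : Cov.CovD where
  P := 3
  N := 5
  pl := [1, 8, 9]
  lev := [⟨[], [], [(0, 1)], [6], [(0, 1, [0]), (2, 0, [1])]⟩,
    ⟨[], [(0, 0), (0, 1), (0, 2)], [(0, 0), (0, 1), (0, 2), (1, 2)], [], [(0, 1, [0]), (2,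
      0, [1]), (3, 2, [5]), (4, 0, [1])]⟩,
    ⟨[(0, 1)], [(1, 0), (1, 1), (1, 2), (1, 3)], [(2, 3)], [], [(3, 2, [5]), (5, 3, [])]⟩,
    ⟨[(0, 1), (1, 2)], [(0, 0), (1, 0), (1, 1), (1, 2), (1, 3), (1, 5), (2, 0), (2, 2), (2,
      3), (2, 5)], [(0, 3), (0, 5), (3, 5)], [], [(2, 0, [1]), (6, 5, [2]), (7, 3, [])]⟩,
    ⟨[(0, 1), (1, 2), (1, 3)], [(0, 1), (1, 0), (1, 1), (1, 2)], [(0, 1)], [4], [(0, 1,
      [0]), (4, 0, [1])]⟩,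
    ⟨[(1, 2), (1, 3), (2, 3)], [(2, 2), (2, 3), (3, 0), (3, 3), (3, 5)], [(3, 3)], [4, 7],
      [(5, 3, []), (7, 3, [])]⟩]
  Ta := [((2, 1), 0, 6), ((2, 6), 0, 5), ((4, 3), 0, 2), ((4, 8), 0, 4), ((5, 3), 3, 2), ((5, 8),
    3, 4), ((7, 6), 3, 5), ((7, 9), 3, 7)]
  Tb := [((0, 1, 8), 1, 6, 4), ((1, 0, 2), 6, 1, 0), ((2, 1, 6), 0, 6, 5), ((3, 4, 5), 2, 0, 3),
    ((4, 3, 8), 0, 2, 4), ((5, 3, 8), 3, 2, 4), ((6, 2, 7), 5, 0, 3), ((7, 6, 9), 3, 5, 7),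
    ((8, 0, 4), 4, 1, 0), ((8, 0, 5), 4, 1, 3), ((8, 0, 9), 4, 1, 7), ((8, 4, 5), 4, 0, 3),
    ((8, 4, 9), 4, 0, 7), ((8, 5, 9), 4, 3, 7), ((9, 7, 8), 7, 3, 4)]
  Tc := []
  Td := [((0, 1), (2, 1), 6), ((0, 1), (2, 6), 5), ((0, 1), (4, 3), 2), ((0, 1), (4, 8), 4), ((1,
    0), (0, 1), 6), ((1, 0), (0, 8), 4), ((2, 5), (3, 4), 0), ((2, 5), (3, 5), 3), ((5, 2),
    (6, 2), 0), ((5, 2), (6, 7), 3)]
  G := [[0, 0x228842284c693a258cb622281c658e, 0, 0x21e162191658314f12a84d8c,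
    0xe14469141638412f14d12b8c], [0, 0x22d7a28b842422d7ae186, 0, 0x2421f1e842121f1e18c,
    0xf141614188c44f141e18c], [0, 0x853e212a8648d422a6ca22811e658c, 0x97c2b7c8a41,
    0x22cb7c693c4581, 0x442b7c495c2b81], [0, 0x2422db6e4822b7c22b486, 0x544232c297cb8d4eac1,
    0x2428b7ce841, 0x44b7c44e281]]

noncomputable def n903 : Ent := ⟨e903, noF, [], [], []⟩

def c903 : PLift (Cov.check n903.C.D v903 = true) := ⟨by decide +kernel⟩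

def b903 : PLift (entF (fidx ts) 400 903 n903 = true) := ⟨by decide +kernel⟩

theorem g903 : GoodF (fidx ts) 400 903 := GoodF.ofV v903 n903 c903.down b903.down

/-- 485646:769 -/
noncomputable def e904 : SCfg where
  D := {
    a := 6
    L := 11
    kp := 8
    inn := [(0, 1), (1, 0), (1, 2), (1, 3), (1, 4), (2, 1), (2, 3), (2, 5), (3, 1), (3, 2), (3, 5), (4,
      1), (5, 2), (5, 3)]
    mix := [(0, 0), (0, 1), (0, 2), (1, 0), (1, 2), (1, 3), (1, 4), (2, 3), (2, 5), (3, 2), (3, 6), (3,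
      7), (4, 0), (4, 4), (4, 8), (5, 5), (5, 7), (5, 9), (5, 10)]
    cl := [1, 5, 0, 2, 0, 3, 4, 3, 6, 7, 8]
    chq := [(0, 1), (1, 0), (2, 4), (4, 2)]
    rng := [(0, 1), (0, 8), (1, 0), (1, 2), (2, 1), (2, 6), (3, 4), (3, 5), (4, 3), (4, 8), (5, 3), (5,
      10), (6, 2), (6, 7), (7, 6), (7, 9), (8, 0), (8, 4), (9, 7), (9, 10), (10, 5), (10, 9)]
    lev := [] }
  links := [[1, 6, 7, 8], [6, 0, 8, 3, 2, 9, 10, 4], [9, 1, 3, 5, 11], [5, 2, 1, 8, 12, 13], [6, 1, 10,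
    14], [11, 2, 3, 13, 15, 16]]
  P := {
    a := 6
    N := 17
    nb := [450, 1885, 2602, 12582, 17474, 108556, 16531, 321, 4235, 3078, 16914, 66084, 8456, 36904,
      1104, 73760, 34848]
    tri := [(0, 1, 6), (0, 1, 8), (0, 6, 7), (0, 7, 8), (1, 2, 3), (1, 2, 9), (1, 3, 8), (1, 4, 6), (1,
      4, 10), (1, 9, 10), (2, 3, 5), (2, 5, 11), (2, 9, 11), (3, 5, 13), (3, 8, 12), (3, 12, 13),
      (4, 6, 14), (4, 10, 14), (5, 11, 16), (5, 13, 15), (5, 15, 16)]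
    fin := [0, 1, 2, 2, 0, 5, 0, 7, 1, 9, 1, 5, 2, 5, 14, 15, 16]
    chd := [(0, 1), (9, 2)]
    steps := [(0, 6), (0, 4), (1, 8), (1, 10), (2, 3), (2, 12), (5, 13), (5, 11)] }
  rep := [1, 0, 9, 5, 2, 7, 14, 15, 16]

noncomputable def v904 : Cov.CovD where
  P := 3
  N := 6
  pl := [1, 8, 9, 10]
  lev := [⟨[], [], [(0, 1)], [5], [(0, 1, [0]), (2, 0, [1])]⟩,
    ⟨[], [(0, 0), (0, 1), (0, 2)], [(0, 0), (0, 1), (0, 2), (1, 2)], [], [(0, 1, [0]), (2,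
      0, [1]), (3, 2, [4]), (4, 0, [1])]⟩,
    ⟨[(0, 1)], [(1, 0), (1, 1), (1, 2), (1, 3)], [(2, 3)], [], [(3, 2, [4]), (5, 3, [])]⟩,
    ⟨[(0, 1), (1, 2)], [(0, 0), (1, 0), (1, 1), (1, 2), (1, 3), (1, 4), (2, 0), (2, 2), (2,
      3), (2, 4)], [(0, 3), (0, 4), (3, 4)], [], [(2, 0, [1]), (6, 4, [2]), (7, 3, [])]⟩,
    ⟨[(0, 1), (1, 2), (1, 3)], [(0, 1), (1, 0), (1, 1), (1, 2)], [(0, 1)], [6], [(0, 1,
      [0]), (4, 0, [1])]⟩,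
    ⟨[(1, 2), (1, 3), (2, 3)], [(2, 2), (2, 3), (3, 0), (3, 3), (3, 4)], [(3, 3)], [7, 8],
      [(5, 3, []), (7, 3, [])]⟩]
  Ta := [((2, 1), 0, 5), ((2, 6), 0, 4), ((4, 3), 0, 2), ((4, 8), 0, 6), ((5, 3), 3, 2), ((5,
    10), 3, 8), ((7, 6), 3, 4), ((7, 9), 3, 7)]
  Tb := [((0, 1, 8), 1, 5, 6), ((1, 0, 2), 5, 1, 0), ((2, 1, 6), 0, 5, 4), ((3, 4, 5), 2, 0, 3),
    ((4, 3, 8), 0, 2, 6), ((5, 3, 10), 3, 2, 8), ((6, 2, 7), 4, 0, 3), ((7, 6, 9), 3, 4, 7),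
    ((8, 0, 4), 6, 1, 0), ((9, 7, 10), 7, 3, 8), ((10, 5, 9), 8, 3, 7)]
  Tc := []
  Td := [((0, 1), (2, 1), 5), ((0, 1), (2, 6), 4), ((0, 1), (4, 3), 2), ((0, 1), (4, 8), 6), ((1,
    0), (0, 1), 5), ((1, 0), (0, 8), 6), ((2, 4), (3, 4), 0), ((2, 4), (3, 5), 3), ((4, 2),
    (6, 2), 0), ((4, 2), (6, 7), 3)]
  G := [[0, 0x226ff6648a2a5bc6182266268f9c26289ce, 0, 0x21f16b145821e162191658c,
    0xe1416914163841f1cd1238c], [0, 0x226ffca1422c4122261ffa294e, 0, 0x2121f1e842121f1e48c,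
    0xf141624181c41f141e18c], [0, 0xebc276c894336445c2c88da223a8c4e, 0xffc2ffc8a41,
    0x24428ffc6bbc4d81, 0xefc44c618cdc6381], [0, 0x226ff6618ffa22a38422a814e,
    0xffc2ffc46ffc82c1, 0x22c4122cffca1c1, 0x44ffc44ce24882c1]]

noncomputable def n904 : Ent := ⟨e904, noF, [], [], [(15, 14, [1685382413448253767852309107433119732572617628602273068445368606721, 0]), (16, 14, [1580095832788404724998799751142926758855362888449624481876422455297, 0])]⟩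

def c904 : PLift (Cov.check n904.C.D v904 = true) := ⟨by decide +kernel⟩

def b904 : PLift (entF (fidx ts) 400 904 n904 = true) := ⟨by decide +kernel⟩

theorem g904 : GoodF (fidx ts) 400 904 := GoodF.ofV v904 n904 c904.down b904.down

/-- 485644:770 -/
noncomputable def e905 : SCfg where
  D := {
    a := 6
    L := 10
    kp := 8
    inn := [(0, 1), (1, 0), (1, 2), (1, 3), (1, 4), (2, 1), (2, 3), (2, 5), (3, 1), (3, 2), (4, 1), (5,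
      2)]
    mix := [(0, 0), (0, 1), (0, 2), (1, 0), (1, 2), (1, 3), (1, 4), (2, 3), (2, 5), (3, 2), (3, 5), (3,
      6), (3, 7), (4, 0), (4, 4), (4, 8), (5, 3), (5, 5), (5, 9)]
    cl := [2, 6, 0, 1, 0, 3, 4, 5, 7, 8]
    chq := [(0, 2), (1, 3), (1, 4), (1, 5), (2, 0), (3, 1), (4, 1), (5, 1)]
    rng := [(0, 1), (0, 8), (1, 0), (1, 2), (2, 1), (2, 6), (3, 4), (3, 9), (4, 3), (4, 8), (5, 7), (5,
      9), (6, 2), (6, 7), (7, 5), (7, 6), (8, 0), (8, 4), (9, 3), (9, 5)]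
    lev := [] }
  links := [[1, 6, 7, 8], [6, 0, 8, 3, 2, 9, 10, 4], [9, 1, 3, 11, 5], [11, 2, 1, 8, 12, 13], [6, 1, 10,
    14], [9, 2, 11, 15]]
  P := {
    a := 6
    N := 16
    nb := [450, 1885, 2602, 14598, 17474, 35332, 16531, 321, 4235, 33830, 16914, 41004, 8456, 6152,
      1104, 2592]
    tri := [(0, 1, 6), (0, 1, 8), (0, 6, 7), (0, 7, 8), (1, 2, 3), (1, 2, 9), (1, 3, 8), (1, 4, 6), (1,
      4, 10), (1, 9, 10), (2, 3, 11), (2, 5, 9), (2, 5, 11), (3, 8, 12), (3, 11, 13), (3, 12, 13),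
      (4, 6, 14), (4, 10, 14), (5, 9, 15), (5, 11, 15)]
    fin := [0, 1, 2, 2, 0, 5, 0, 7, 1, 2, 1, 5, 12, 13, 14, 15]
    chd := [(0, 1), (2, 5), (2, 12), (2, 13)]
    steps := [(0, 6), (0, 4), (1, 8), (1, 10), (2, 3), (2, 9), (5, 11)] }
  rep := [1, 2, 0, 5, 12, 13, 7, 14, 15]

noncomputable def v905 : Cov.CovD where
  P := 3
  N := 6
  pl := [1, 8, 9]
  lev := [⟨[], [], [(0, 2)], [6], [(0, 2, [0]), (2, 0, [2])]⟩,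
    ⟨[], [(0, 0), (0, 1), (0, 2)], [(0, 0), (0, 1), (0, 2), (1, 2)], [], [(0, 2, [0]), (2,
      0, [2]), (3, 1, [3, 4, 5]), (4, 0, [2])]⟩,
    ⟨[(0, 1)], [(1, 0), (1, 1), (1, 2), (1, 3)], [(1, 3)], [], [(3, 1, [3, 4, 5]), (5, 3,
      [1])]⟩,
    ⟨[(0, 1), (1, 2)], [(0, 0), (1, 0), (1, 1), (1, 2), (1, 3), (1, 4), (1, 5), (2, 0), (2,
      1), (2, 3), (2, 4), (2, 5)], [(0, 3), (0, 4), (0, 5), (3, 4), (3, 5), (4, 5)], [], [(2,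
      0, [2]), (5, 3, [1]), (6, 4, [1]), (7, 5, [1])]⟩,
    ⟨[(0, 1), (1, 2), (1, 3)], [(0, 2), (1, 0), (1, 1), (1, 2)], [(0, 2)], [7], [(0, 2,
      [0]), (4, 0, [2])]⟩,
    ⟨[(1, 2), (2, 3)], [(1, 1), (2, 1), (2, 3), (3, 3)], [(1, 3)], [8], [(3, 1, [3, 4, 5]),
      (5, 3, [1])]⟩]
  Ta := [((2, 1), 0, 6), ((2, 6), 0, 4), ((4, 3), 0, 1), ((4, 8), 0, 7)]
  Tb := [((0, 1, 8), 2, 6, 7), ((1, 0, 2), 6, 2, 0), ((2, 1, 6), 0, 6, 4), ((3, 4, 9), 1, 0, 8),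
    ((4, 3, 8), 0, 1, 7), ((5, 7, 9), 3, 5, 8), ((6, 2, 7), 4, 0, 5), ((7, 5, 6), 5, 3, 4),
    ((8, 0, 4), 7, 2, 0), ((9, 3, 5), 8, 1, 3)]
  Tc := [(1, 3, 4), (1, 3, 5), (1, 4, 5)]
  Td := [((0, 2), (2, 1), 6), ((0, 2), (2, 6), 4), ((0, 2), (4, 3), 1), ((0, 2), (4, 8), 7), ((1,
    3), (3, 4), 0), ((1, 3), (3, 9), 8), ((1, 4), (3, 4), 0), ((1, 4), (3, 9), 8), ((1, 5),
    (3, 4), 0), ((1, 5), (3, 9), 8), ((2, 0), (0, 1), 6), ((2, 0), (0, 8), 7), ((3, 1), (5,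
    7), 5), ((3, 1), (5, 9), 8), ((4, 1), (6, 2), 0), ((4, 1), (6, 7), 5), ((5, 1), (7, 5),
    3), ((5, 1), (7, 6), 4)]
  G := [[0, 0, 0xdd6284dda218ddc248e, 0xc1291258c1291258c, 0xc1291258c1291258a], [0,
    0x6414cac1681acccc1aac168c, 0xcc62996258cca255c294a, 0xccc299c2581, 0xcca299a2581]]

noncomputable def n905 : Ent := ⟨e905, noF, [], [], []⟩

def c905 : PLift (Cov.check n905.C.D v905 = true) := ⟨by decide +kernel⟩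

def b905 : PLift (entF (fidx ts) 400 905 n905 = true) := ⟨by decide +kernel⟩

theorem g905 : GoodF (fidx ts) 400 905 := GoodF.ofV v905 n905 c905.down b905.down

/-- 485665:771 -/
noncomputable def e906 : SCfg where
  D := {
    a := 6
    L := 11
    kp := 9
    inn := [(0, 1), (1, 0), (1, 2), (1, 3), (1, 4), (1, 5), (2, 1), (2, 3), (3, 1), (3, 2), (3, 4), (4,
      1), (4, 3), (4, 5), (5, 1), (5, 4)]
    mix := [(0, 0), (0, 1), (0, 2), (1, 0), (1, 2), (1, 3), (2, 3), (2, 4), (2, 5), (3, 5), (3, 6), (3,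
      7), (4, 7), (4, 8), (4, 9), (5, 0), (5, 9), (5, 10)]
    cl := [0, 7, 2, 0, 8, 1, 5, 3, 6, 4, 9]
    chq := [(0, 1), (0, 3), (0, 4), (0, 5), (0, 6), (1, 0), (3, 0), (4, 0), (5, 0), (6, 0)]
    rng := [(0, 1), (0, 10), (1, 0), (1, 2), (2, 1), (2, 3), (3, 2), (3, 4), (4, 3), (4, 5), (5, 4),
      (5, 6), (6, 5), (6, 7), (7, 6), (7, 8), (8, 7), (8, 9), (9, 8), (9, 10), (10, 0), (10, 9)]
    lev := [] }
  links := [[1, 6, 7, 8], [6, 0, 8, 9, 2, 3, 4, 5], [3, 1, 9, 10, 11], [4, 1, 2, 11, 12, 13], [5, 1, 3,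
    13, 14, 15], [6, 1, 4, 15, 16]]
  P := {
    a := 6
    N := 17
    nb := [450, 893, 3594, 14358, 57386, 98386, 65699, 321, 643, 1286, 2564, 5132, 10248, 20504,
      40976, 81968, 32864]
    tri := [(0, 1, 6), (0, 1, 8), (0, 6, 7), (0, 7, 8), (1, 2, 3), (1, 2, 9), (1, 3, 4), (1, 4, 5), (1,
      5, 6), (1, 8, 9), (2, 3, 11), (2, 9, 10), (2, 10, 11), (3, 4, 13), (3, 11, 12), (3, 12, 13),
      (4, 5, 15), (4, 13, 14), (4, 14, 15), (5, 6, 16), (5, 15, 16)]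
    fin := [0, 0, 0, 0, 0, 0, 0, 7, 8, 0, 10, 11, 12, 13, 14, 15, 16]
    chd := [(0, 11), (0, 12), (0, 13), (0, 14), (0, 15)]
    steps := [(0, 1), (0, 2), (0, 3), (0, 4), (0, 5), (0, 6), (0, 9)] }
  rep := [0, 11, 8, 13, 15, 12, 14, 7, 10, 16]

noncomputable def v906 : Cov.CovD where
  P := 3
  N := 7
  pl := [1, 2, 4, 10]
  lev := [⟨[], [], [], [2, 7], [(0, 0, [1, 3, 4, 5, 6])]⟩,
    ⟨[], [(0, 0)], [(0, 0)], [2], [(0, 0, [1, 3, 4, 5, 6]), (3, 0, [1, 3, 4, 5, 6])]⟩,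
    ⟨[(0, 1)], [(1, 0), (1, 1)], [(0, 1)], [8], [(3, 0, [1, 3, 4, 5, 6]), (5, 1, [0])]⟩,
    ⟨[(0, 1), (1, 2)], [(1, 0), (1, 1), (1, 3), (1, 5), (2, 0), (2, 1), (2, 3), (2, 5)],
      [(1, 3), (1, 5), (3, 5)], [], [(5, 1, [0]), (6, 5, [0]), (7, 3, [0])]⟩,
    ⟨[(0, 1), (1, 2), (1, 3), (2, 3)], [(1, 0), (1, 3), (1, 4), (1, 6), (3, 1), (3, 3), (3,
      4), (3, 5), (3, 6)], [(3, 4), (3, 6), (4, 6)], [], [(7, 3, [0]), (8, 6, [0]), (9, 4,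
      [0])]⟩,
    ⟨[(0, 1), (1, 2), (1, 3), (1, 4), (3, 4)], [(0, 0), (1, 0), (1, 4), (4, 0), (4, 3), (4,
      4), (4, 6)], [(0, 4)], [9], [(0, 0, [1, 3, 4, 5, 6]), (9, 4, [0])]⟩]
  Ta := [((0, 1), 0, 7), ((0, 10), 0, 9), ((3, 2), 0, 2), ((3, 4), 0, 8)]
  Tb := [((0, 1, 10), 0, 7, 9), ((1, 0, 2), 7, 0, 2), ((2, 1, 3), 2, 7, 0), ((3, 2, 4), 0, 2, 8),
    ((4, 3, 5), 8, 0, 1), ((5, 4, 6), 1, 8, 5), ((6, 5, 7), 5, 1, 3), ((7, 6, 8), 3, 5, 6),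
    ((8, 7, 9), 6, 3, 4), ((9, 8, 10), 4, 6, 9), ((10, 0, 9), 9, 0, 4)]
  Tc := [(0, 1, 3), (0, 1, 4), (0, 1, 5), (0, 1, 6), (0, 3, 4), (0, 3, 5), (0, 3, 6), (0, 4, 5),
    (0, 4, 6), (0, 5, 6)]
  Td := [((0, 1), (0, 1), 7), ((0, 1), (0, 10), 9), ((0, 1), (3, 2), 2), ((0, 1), (3, 4), 8),
    ((0, 3), (0, 1), 7), ((0, 3), (0, 10), 9), ((0, 3), (3, 2), 2), ((0, 3), (3, 4), 8), ((0,
    4), (0, 1), 7), ((0, 4), (0, 10), 9), ((0, 4), (3, 2), 2), ((0, 4), (3, 4), 8), ((0, 5),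
    (0, 1), 7), ((0, 5), (0, 10), 9), ((0, 5), (3, 2), 2), ((0, 5), (3, 4), 8), ((0, 6), (0,
    1), 7), ((0, 6), (0, 10), 9), ((0, 6), (3, 2), 2), ((0, 6), (3, 4), 8), ((1, 0), (5, 4),
    8), ((1, 0), (5, 6), 5), ((3, 0), (7, 6), 5), ((3, 0), (7, 8), 6), ((4, 0), (9, 8), 6),
    ((4, 0), (9, 10), 9), ((5, 0), (6, 5), 1), ((5, 0), (6, 7), 3), ((6, 0), (8, 7), 3), ((6,
    0), (8, 9), 4)]
  G := [[0, 0x414e146e1a1e1ee1e1aac1, 0,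
    0x74514145cbeef1bbab1e1a1cdc76517c7ef141e1cdbb8b1a189cc,
    0xccdef1ccdef1e1e1cd272317b7ef161e1cdcccd18189aa], [0, 0x41441e16ae1a1e1ee1a1cac1,
    0xe1184e11e11c2e1148e, 0x4414c44f1e14dc8eef18aab1e18dc1,
    0x66314ceef1e14dcc88f1881e18da1]]

noncomputable def n906 : Ent := ⟨e906, noF, [], [], []⟩

def c906 : PLift (Cov.check n906.C.D v906 = true) := ⟨by decide +kernel⟩

def b906 : PLift (entF (fidx ts) 400 906 n906 = true) := ⟨by decide +kernel⟩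

theorem g906 : GoodF (fidx ts) 400 906 := GoodF.ofV v906 n906 c906.down b906.down

/-- 485664:772/1 -/
noncomputable def e907 : SCfg where
  D := {
    a := 6
    L := 10
    kp := 7
    inn := [(0, 1), (1, 0), (1, 2), (1, 3), (1, 4), (2, 1), (2, 3), (3, 1), (3, 2), (3, 4), (4, 1), (4,
      3), (4, 5), (5, 4)]
    mix := [(0, 0), (0, 1), (0, 2), (1, 0), (1, 2), (1, 3), (1, 4), (2, 3), (2, 5), (2, 6), (3, 6), (3,
      7), (3, 8), (4, 4), (4, 8), (4, 9), (5, 1), (5, 8), (5, 9)]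
    cl := [1, 3, 2, 1, 0, 6, 4, 7, 0, 5]
    chq := [(0, 6), (6, 0), (6, 7), (7, 6)]
    rng := [(0, 1), (0, 4), (1, 0), (1, 2), (1, 8), (1, 9), (2, 1), (2, 3), (3, 2), (3, 5), (4, 0), (4,
      9), (5, 3), (5, 6), (6, 5), (6, 7), (7, 6), (7, 8), (8, 1), (8, 7), (9, 1), (9, 4)]
    lev := [] }
  links := [[1, 6, 7, 8], [6, 0, 8, 9, 2, 3, 4, 10], [3, 1, 9, 11, 12], [4, 1, 2, 12, 13, 14], [10, 1, 3,
    14, 5, 15], [15, 4, 14, 7]]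
  P := {
    a := 6
    N := 16
    nb := [450, 1885, 6666, 28694, 50218, 49296, 1155, 49505, 643, 2310, 32850, 4612, 10252, 20488,
      8376, 1200]
    tri := [(0, 1, 6), (0, 1, 8), (0, 6, 7), (0, 7, 8), (1, 2, 3), (1, 2, 9), (1, 3, 4), (1, 4, 10),
      (1, 6, 10), (1, 8, 9), (2, 3, 12), (2, 9, 11), (2, 11, 12), (3, 4, 14), (3, 12, 13), (3, 13,
      14), (4, 5, 14), (4, 5, 15), (4, 10, 15), (5, 7, 14), (5, 7, 15)]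
    fin := [0, 0, 2, 2, 4, 5, 0, 5, 8, 0, 4, 2, 12, 13, 4, 15]
    chd := [(2, 13), (4, 2)]
    steps := [(0, 1), (0, 6), (0, 9), (2, 3), (2, 11), (4, 14), (4, 10), (5, 7)] }
  rep := [4, 0, 8, 5, 12, 15, 2, 13]

noncomputable def v907 : Cov.CovD where
  P := 3
  N := 5
  pl := [1, 2, 6, 9]
  lev := [⟨[], [], [], [2, 3], [(0, 1, [])]⟩,
    ⟨[], [(0, 0), (0, 1)], [(0, 1), (1, 1)], [2], [(0, 1, []), (3, 1, []), (4, 0, [6])]⟩,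
    ⟨[(0, 1)], [(1, 0), (1, 1), (1, 6)], [(1, 6)], [4], [(3, 1, []), (5, 6, [0, 7])]⟩,
    ⟨[(0, 1), (1, 2)], [(1, 0), (1, 1), (1, 7), (2, 0), (2, 1), (2, 6), (2, 7)], [(0, 7)],
      [4], [(7, 7, [6]), (8, 0, [6])]⟩,
    ⟨[(0, 1), (1, 2), (1, 3), (2, 3)], [(1, 0), (1, 1), (3, 0), (3, 7)], [(0, 0)], [5],
      [(4, 0, [6]), (8, 0, [6])]⟩,
    ⟨[(1, 4), (3, 4)], [(3, 0), (4, 0)], [], [3, 5], [(8, 0, [6])]⟩]
  Ta := [((0, 1), 1, 3), ((0, 4), 1, 0), ((3, 2), 1, 2), ((3, 5), 1, 6), ((4, 0), 0, 1), ((4, 9),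
    0, 5), ((8, 1), 0, 3), ((8, 7), 0, 7)]
  Tb := [((0, 1, 4), 1, 3, 0), ((1, 0, 2), 3, 1, 2), ((1, 0, 8), 3, 1, 0), ((1, 0, 9), 3, 1, 5),
    ((1, 2, 8), 3, 2, 0), ((1, 2, 9), 3, 2, 5), ((1, 8, 9), 3, 0, 5), ((2, 1, 3), 2, 3, 1),
    ((3, 2, 5), 1, 2, 6), ((4, 0, 9), 0, 1, 5), ((5, 3, 6), 6, 1, 4), ((6, 5, 7), 4, 6, 7),
    ((7, 6, 8), 7, 4, 0), ((8, 1, 7), 0, 3, 7), ((9, 1, 4), 5, 3, 0)]
  Tc := [(6, 0, 7)]
  Td := [((0, 6), (4, 0), 1), ((0, 6), (4, 9), 5), ((0, 6), (8, 1), 3), ((0, 6), (8, 7), 7), ((6,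
    0), (5, 3), 1), ((6, 0), (5, 6), 4), ((6, 7), (5, 3), 1), ((6, 7), (5, 6), 4), ((7, 6),
    (7, 6), 4), ((7, 6), (7, 8), 0)]
  G := [[0, 0x11a211c811a12a81ceb4116811611a14ce311a28cc,
    0x1288512a8882cd8168b412641212a44d444269e8c, 0, 0xc16816aca6516a4781], [0, 0,
    0x126412612ac12612c21ced82, 0x126812a21c6512a412689c1, 0x1264221834e12612c31aed81], [0,
    0, 0x82682ac8a682a82ce344a646ac42646a24ce38c, 0,
    0xc862184a482688a684ace942642ac4a642a26ce389], [0, 0, 0xc268c26482e6ace5c2a48c2,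
    0x82a482682a82ce982684542642a24ce142a44268c9c, 0xc26482e2ece1c2a4c268c92]]

noncomputable def n907 : Ent := ⟨e907, noF, [], [], []⟩

def c907 : PLift (Cov.check n907.C.D v907 = true) := ⟨by decide +kernel⟩

def b907 : PLift (entF (fidx ts) 400 907 n907 = true) := ⟨by decide +kernel⟩

theorem g907 : GoodF (fidx ts) 400 907 := GoodF.ofV v907 n907 c907.down b907.down

/-- 485664:772 -/
noncomputable def e908 : SCfg where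
  D := {
    a := 6
    L := 11
    kp := 8
    inn := [(0, 1), (1, 0), (1, 2), (1, 3), (1, 4), (2, 1), (2, 3), (3, 1), (3, 2), (3, 4), (4, 1), (4,
      3), (4, 5), (5, 4)]
    mix := [(0, 0), (0, 1), (0, 2), (1, 0), (1, 2), (1, 3), (1, 4), (2, 3), (2, 5), (2, 6), (3, 6), (3,
      7), (3, 8), (4, 4), (4, 8), (4, 9), (5, 8), (5, 9), (5, 10)]
    cl := [1, 7, 2, 1, 0, 5, 3, 6, 0, 4, 8]
    chq := [(0, 5), (5, 0), (5, 6), (6, 5)]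
    rng := [(0, 1), (0, 4), (1, 0), (1, 2), (2, 1), (2, 3), (3, 2), (3, 5), (4, 0), (4, 9), (5, 3), (5,
      6), (6, 5), (6, 7), (7, 6), (7, 8), (8, 7), (8, 10), (9, 4), (9, 10), (10, 8), (10, 9)]
    lev := [] }
  links := [[1, 6, 7, 8], [6, 0, 8, 9, 2, 3, 4, 10], [3, 1, 9, 11, 12], [4, 1, 2, 12, 13, 14], [10, 1, 3,
    14, 5, 15], [15, 4, 14, 16]]
  P := {
    a := 6
    N := 17
    nb := [450, 1885, 6666, 28694, 50218, 114704, 1155, 321, 643, 2310, 32850, 4612, 10252, 20488,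
      73784, 66608, 49184]
    tri := [(0, 1, 6), (0, 1, 8), (0, 6, 7), (0, 7, 8), (1, 2, 3), (1, 2, 9), (1, 3, 4), (1, 4, 10),
      (1, 6, 10), (1, 8, 9), (2, 3, 12), (2, 9, 11), (2, 11, 12), (3, 4, 14), (3, 12, 13), (3, 13,
      14), (4, 5, 14), (4, 5, 15), (4, 10, 15), (5, 14, 16), (5, 15, 16)]
    fin := [0, 0, 2, 2, 4, 4, 0, 7, 8, 0, 4, 2, 12, 13, 4, 15, 16]
    chd := [(2, 13), (4, 2)]
    steps := [(0, 1), (0, 6), (0, 9), (2, 3), (2, 11), (4, 5), (4, 14), (4, 10)] }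
  rep := [4, 0, 8, 12, 15, 2, 13, 7, 16]

noncomputable def v908 : Cov.CovD where
  P := 3
  N := 6
  pl := [1, 2, 6, 9, 10]
  lev := [⟨[], [], [], [2, 7], [(0, 1, [])]⟩,
    ⟨[], [(0, 0), (0, 1)], [(0, 1), (1, 1)], [2], [(0, 1, []), (3, 1, []), (4, 0, [5])]⟩,
    ⟨[(0, 1)], [(1, 0), (1, 1), (1, 5)], [(1, 5)], [3], [(3, 1, []), (5, 5, [0, 6])]⟩,
    ⟨[(0, 1), (1, 2)], [(1, 0), (1, 1), (1, 6), (2, 0), (2, 1), (2, 5), (2, 6)], [(0, 6)],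
      [3], [(7, 6, [5]), (8, 0, [5])]⟩,
    ⟨[(0, 1), (1, 2), (1, 3), (2, 3)], [(1, 0), (1, 1), (3, 0), (3, 6)], [(0, 0)], [4],
      [(4, 0, [5]), (8, 0, [5])]⟩,
    ⟨[(1, 4), (3, 4)], [(3, 0), (4, 0)], [], [4, 8], [(8, 0, [5])]⟩]
  Ta := [((0, 1), 1, 7), ((0, 4), 1, 0), ((3, 2), 1, 2), ((3, 5), 1, 5), ((4, 0), 0, 1), ((4, 9),
    0, 4), ((8, 7), 0, 6), ((8, 10), 0, 8)]
  Tb := [((0, 1, 4), 1, 7, 0), ((1, 0, 2), 7, 1, 2), ((2, 1, 3), 2, 7, 1), ((3, 2, 5), 1, 2, 5),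
    ((4, 0, 9), 0, 1, 4), ((5, 3, 6), 5, 1, 3), ((6, 5, 7), 3, 5, 6), ((7, 6, 8), 6, 3, 0),
    ((8, 7, 10), 0, 6, 8), ((9, 4, 10), 4, 0, 8), ((10, 8, 9), 8, 0, 4)]
  Tc := [(5, 0, 6)]
  Td := [((0, 5), (4, 0), 1), ((0, 5), (4, 9), 4), ((0, 5), (8, 7), 6), ((0, 5), (8, 10), 8),
    ((5, 0), (5, 3), 1), ((5, 0), (5, 6), 3), ((5, 6), (5, 3), 1), ((5, 6), (5, 6), 3), ((6,
    5), (7, 6), 3), ((6, 5), (7, 8), 0)]
  G := [[0, 0x11c211c811611a11ceb411a211a411611c11ae78c,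
    0x62416a18e2d1bc1814eb41a6853cca6559a478c, 0,
    0x596ca631d6ca659364783561d6cc1616a16ce389], [0, 0, 0xc1aa1c61ba81a616ac1aed42,
    0xc1a41a6b1ac1ae94c1681a616a16ce581a64c161daac8d, 0x9564945238ec1653ac16ed82], [0, 0,
    0x48eec6ac48eec6ae24ee34ca648eecca648ee2e8ee38c, 0,
    0x626461c8a6c6ca6a8aca6c8ce9ca648eecca648ee2e8ee389], [0, 0, 0xca68ca664a5c6a4c6aa869c2,
    0xc6a448eec6aa2ce94c6a446c6aa6c6c1ca68ca648ee2e8ee58d, 0xca68ca648ee2e8ee5c6a4892]]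

noncomputable def n908 : Ent := ⟨e908, noF, [], [], [(7, 16, [1580044410770988437309982408355971841652082177953823432505692827649, 0])]⟩

def c908 : PLift (Cov.check n908.C.D v908 = true) := ⟨by decide +kernel⟩

def b908 : PLift (entF (fidx ts) 400 908 n908 = true) := ⟨by decide +kernel⟩

theorem g908 : GoodF (fidx ts) 400 908 := GoodF.ofV v908 n908 c908.down b908.down

/-- 485664:773 -/
noncomputable def e909 : SCfg where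
  D := {
    a := 6
    L := 11
    kp := 8
    inn := [(0, 1), (1, 0), (1, 2), (1, 3), (1, 4), (2, 1), (2, 3), (3, 1), (3, 2), (3, 4), (4, 1), (4,
      3), (4, 5), (5, 4)]
    mix := [(0, 0), (0, 1), (0, 2), (1, 0), (1, 2), (1, 3), (1, 4), (2, 3), (2, 5), (2, 6), (3, 6), (3,
      7), (3, 8), (4, 4), (4, 8), (4, 9), (5, 4), (5, 9), (5, 10)]
    cl := [1, 5, 2, 1, 0, 6, 3, 7, 0, 4, 8]
    chq := [(0, 3), (1, 3), (3, 0), (3, 1)]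
    rng := [(0, 1), (0, 4), (1, 0), (1, 2), (2, 1), (2, 3), (3, 2), (3, 5), (4, 0), (4, 10), (5, 3),
      (5, 6), (6, 5), (6, 7), (7, 6), (7, 8), (8, 7), (8, 9), (9, 8), (9, 10), (10, 4), (10, 9)]
    lev := [] }
  links := [[1, 6, 7, 8], [6, 0, 8, 9, 2, 3, 4, 10], [3, 1, 9, 11, 12], [4, 1, 2, 12, 13, 14], [10, 1, 3,
    14, 15, 5], [10, 4, 15, 16]]
  P := {
    a := 6
    N := 17
    nb := [450, 1885, 6666, 28694, 50218, 99344, 1155, 321, 643, 2310, 65650, 4612, 10252, 20488,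
      40984, 81968, 33824]
    tri := [(0, 1, 6), (0, 1, 8), (0, 6, 7), (0, 7, 8), (1, 2, 3), (1, 2, 9), (1, 3, 4), (1, 4, 10),
      (1, 6, 10), (1, 8, 9), (2, 3, 12), (2, 9, 11), (2, 11, 12), (3, 4, 14), (3, 12, 13), (3, 13,
      14), (4, 5, 10), (4, 5, 15), (4, 14, 15), (5, 10, 16), (5, 15, 16)]
    fin := [0, 0, 0, 3, 4, 4, 0, 7, 8, 0, 4, 11, 3, 13, 4, 15, 16]
    chd := [(0, 3), (4, 3)]
    steps := [(0, 1), (0, 2), (0, 6), (0, 9), (3, 12), (4, 5), (4, 14), (4, 10)] }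
  rep := [4, 0, 8, 3, 15, 7, 11, 13, 16]

noncomputable def v909 : Cov.CovD where
  P := 3
  N := 6
  pl := [1, 2, 5, 7, 9, 10]
  lev := [⟨[], [], [], [2, 5], [(0, 1, [3])]⟩,
    ⟨[], [(0, 0), (0, 1)], [(0, 1), (1, 1)], [2], [(0, 1, [3]), (3, 1, [3]), (4, 0, [3])]⟩,
    ⟨[(0, 1)], [(1, 0), (1, 1), (1, 3)], [(1, 3)], [6], [(3, 1, [3]), (6, 3, [0, 1])]⟩,
    ⟨[(0, 1), (1, 2)], [(1, 0), (1, 1), (1, 3), (2, 0), (2, 1), (2, 3)], [(0, 3)], [7],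
      [(6, 3, [0, 1]), (8, 0, [3])]⟩,
    ⟨[(0, 1), (1, 2), (1, 3), (2, 3)], [(1, 0), (1, 1), (3, 0), (3, 3)], [(0, 0)], [4],
      [(4, 0, [3]), (8, 0, [3])]⟩,
    ⟨[(1, 4), (3, 4)], [(1, 0), (4, 0)], [], [4, 8], [(4, 0, [3])]⟩]
  Ta := [((0, 1), 1, 5), ((0, 4), 1, 0), ((3, 2), 1, 2), ((3, 5), 1, 6), ((4, 0), 0, 1), ((4,
    10), 0, 8), ((8, 7), 0, 7), ((8, 9), 0, 4)]
  Tb := [((0, 1, 4), 1, 5, 0), ((1, 0, 2), 5, 1, 2), ((2, 1, 3), 2, 5, 1), ((3, 2, 5), 1, 2, 6),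
    ((4, 0, 10), 0, 1, 8), ((5, 3, 6), 6, 1, 3), ((6, 5, 7), 3, 6, 7), ((7, 6, 8), 7, 3, 0),
    ((8, 7, 9), 0, 7, 4), ((9, 8, 10), 4, 0, 8), ((10, 4, 9), 8, 0, 4)]
  Tc := [(3, 0, 1)]
  Td := [((0, 3), (4, 0), 1), ((0, 3), (4, 10), 8), ((0, 3), (8, 7), 7), ((0, 3), (8, 9), 4),
    ((1, 3), (0, 1), 5), ((1, 3), (0, 4), 0), ((1, 3), (3, 2), 2), ((1, 3), (3, 5), 6), ((3,
    0), (6, 5), 6), ((3, 0), (6, 7), 7), ((3, 1), (6, 5), 6), ((3, 1), (6, 7), 7)]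
  G := [[0, 0xca612c6a1c6a1ccca648ee2e8ee18c, 0xe421e21e821218c6adecca6111cca65642ba821cc, 0,
    0xa21ca611a6c16678ca6188ca61ca648eec38b], [0, 0, 0xca61ca648ee2e8ee5c6a18c2,
    0xc6a1c6a148eec6ae24eed4ca61ca61ca648ee2e8eed8c, 0xca61ca61ca648ee2e8eed82], [0, 0,
    0x1a642a1c2c1a21a68a1c2fc35c21a641427c1a253a8a82bcc, 0,
    0x936471623a6c2a6c2ca68e9c16235c21a616ac35c2f89], [0, 0, 0x16a16c6493659aa936c1aa1ce9c2,
    0x12c1661a645176a1ca9361daa9c844d356271a16c6c161a639ced1a688c9,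
    0xc162c1616a16ce9ca68c6aa6c6c92]]

noncomputable def n909 : Ent := ⟨e909, noF, [], [], []⟩

def c909 : PLift (Cov.check n909.C.D v909 = true) := ⟨by decide +kernel⟩

def b909 : PLift (entF (fidx ts) 400 909 n909 = true) := ⟨by decide +kernel⟩

theorem g909 : GoodF (fidx ts) 400 909 := GoodF.ofV v909 n909 c909.down b909.down

/-- 485644:774/1 -/
noncomputable def e910 : SCfg where
  D := {
    a := 6
    L := 9
    kp := 7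
    inn := [(0, 1), (0, 3), (1, 0), (1, 2), (1, 3), (1, 5), (2, 1), (2, 4), (3, 0), (3, 1), (4, 2), (5,
      1)]
    mix := [(0, 0), (0, 1), (1, 0), (1, 2), (1, 3), (1, 4), (2, 2), (2, 3), (2, 5), (3, 1), (3, 2), (3,
      5), (3, 6), (4, 3), (4, 5), (4, 7), (5, 0), (5, 4), (5, 8)]
    cl := [1, 4, 0, 0, 2, 3, 5, 6, 7]
    chq := [(1, 2), (2, 1), (2, 3), (2, 4), (2, 5), (3, 2), (4, 2), (5, 2)]
    rng := [(0, 1), (0, 8), (1, 0), (1, 6), (2, 5), (3, 4), (3, 7), (4, 3), (4, 8), (5, 2), (5, 6), (5,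
      7), (6, 1), (6, 5), (7, 3), (7, 5), (8, 0), (8, 4)]
    lev := [] }
  links := [[1, 6, 7, 3], [6, 0, 3, 8, 2, 9, 10, 5], [9, 1, 8, 11, 4], [8, 1, 0, 7, 12, 11], [9, 2, 11,
    13], [6, 1, 10, 14]]
  P := {
    a := 6
    N := 15
    nb := [202, 1901, 2834, 6531, 10756, 17474, 16547, 4169, 2062, 9238, 16930, 12572, 2184, 2576,
      1120]
    tri := [(0, 1, 3), (0, 1, 6), (0, 3, 7), (0, 6, 7), (1, 2, 8), (1, 2, 9), (1, 3, 8), (1, 5, 6), (1,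
      5, 10), (1, 9, 10), (2, 4, 9), (2, 4, 11), (2, 8, 11), (3, 7, 12), (3, 8, 11), (3, 11, 12),
      (4, 9, 13), (4, 11, 13), (5, 6, 14), (5, 10, 14)]
    fin := [0, 1, 2, 1, 4, 0, 0, 7, 2, 2, 1, 4, 12, 13, 14]
    chd := [(0, 1), (1, 4), (1, 12), (7, 1)]
    steps := [(0, 6), (0, 5), (1, 3), (1, 10), (2, 8), (2, 9), (4, 11)] }
  rep := [2, 0, 1, 4, 7, 12, 13, 14]

noncomputable def v910 : Cov.CovD where
  P := 3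
  N := 5
  pl := [7, 8]
  lev := [⟨[], [], [(1, 4)], [], [(0, 1, [2]), (1, 4, [2])]⟩,
    ⟨[], [(0, 0), (0, 1), (0, 2), (0, 4)], [(0, 0), (0, 1), (0, 2), (1, 2)], [], [(0, 1,
      [2]), (2, 0, []), (3, 0, []), (4, 2, [1, 3, 4, 5])]⟩,
    ⟨[(0, 1)], [(1, 0), (1, 1), (1, 2), (1, 3)], [(0, 0), (0, 3)], [], [(2, 0, []), (3, 0,
      []), (5, 3, [2])]⟩,
    ⟨[(0, 1), (1, 2)], [(0, 0), (0, 1), (0, 3), (0, 4), (0, 5), (1, 0), (1, 1), (1, 2), (1,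
      3), (1, 4), (1, 5), (2, 0), (2, 3)], [(0, 3), (0, 4), (0, 5), (3, 4), (3, 5), (4, 5)],
      [], [(1, 4, [2]), (2, 0, []), (5, 3, [2]), (6, 5, [2])]⟩,
    ⟨[(1, 2)], [(1, 0), (2, 0), (2, 3), (3, 3)], [(0, 3)], [6], [(3, 0, []), (5, 3, [2])]⟩,
    ⟨[(0, 1), (1, 2), (1, 3)], [(0, 1), (1, 0), (1, 1), (1, 2)], [(1, 2)], [7], [(0, 1,
      [2]), (4, 2, [1, 3, 4, 5])]⟩]
  Ta := [((2, 5), 0, 3), ((3, 4), 0, 2), ((3, 7), 0, 6)]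
  Tb := [((0, 1, 8), 1, 4, 7), ((1, 0, 6), 4, 1, 5), ((3, 4, 7), 0, 2, 6), ((4, 3, 8), 2, 0, 7),
    ((5, 2, 6), 3, 0, 5), ((5, 2, 7), 3, 0, 6), ((5, 6, 7), 3, 5, 6), ((6, 1, 5), 5, 4, 3),
    ((7, 3, 5), 6, 0, 3), ((8, 0, 4), 7, 1, 2)]
  Tc := [(2, 1, 3), (2, 1, 4), (2, 1, 5), (2, 3, 4), (2, 3, 5), (2, 4, 5)]
  Td := [((1, 2), (0, 1), 4), ((1, 2), (0, 8), 7), ((2, 1), (4, 3), 0), ((2, 1), (4, 8), 7), ((2,
    3), (4, 3), 0), ((2, 3), (4, 8), 7), ((2, 4), (4, 3), 0), ((2, 4), (4, 8), 7), ((2, 5),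
    (4, 3), 0), ((2, 5), (4, 8), 7), ((3, 2), (5, 2), 0), ((3, 2), (5, 6), 5), ((3, 2), (5,
    7), 6), ((4, 2), (1, 0), 1), ((4, 2), (1, 6), 5), ((5, 2), (6, 1), 4), ((5, 2), (6, 5),
    3)]
  G := [[0, 0xa12cc472a4ccc2c1268c, 0, 0x5557228999b224c, 0x45c44841899b41e4841494a4a8d], [0,
    0x26c24c8ce22c4cce22a2c28cc, 0xccc1cc61a4ccc1cca168c, 0x555e228559e2249,
    0x444e999e944ed4462684]]

noncomputable def n910 : Ent := ⟨e910, noF, [], [], []⟩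

def c910 : PLift (Cov.check n910.C.D v910 = true) := ⟨by decide +kernel⟩

def b910 : PLift (entF (fidx ts) 400 910 n910 = true) := ⟨by decide +kernel⟩

theorem g910 : GoodF (fidx ts) 400 910 := GoodF.ofV v910 n910 c910.down b910.down

/-- 485644:774 -/
noncomputable def e911 : SCfg where
  D := {
    a := 6
    L := 10
    kp := 8
    inn := [(0, 1), (0, 3), (1, 0), (1, 2), (1, 3), (1, 5), (2, 1), (2, 4), (3, 0), (3, 1), (4, 2), (5,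
      1)]
    mix := [(0, 0), (0, 1), (1, 0), (1, 2), (1, 3), (1, 4), (2, 2), (2, 3), (2, 5), (3, 1), (3, 2), (3,
      6), (3, 7), (4, 3), (4, 5), (4, 8), (5, 0), (5, 4), (5, 9)]
    cl := [1, 3, 0, 0, 2, 4, 5, 6, 7, 8]
    chq := [(1, 2), (2, 1), (2, 3), (2, 5), (2, 6), (3, 2), (5, 2), (6, 2)]
    rng := [(0, 1), (0, 9), (1, 0), (1, 6), (2, 5), (2, 7), (3, 4), (3, 8), (4, 3), (4, 9), (5, 2), (5,
      8), (6, 1), (6, 7), (7, 2), (7, 6), (8, 3), (8, 5), (9, 0), (9, 4)]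
    lev := [] }
  links := [[1, 6, 7, 3], [6, 0, 3, 8, 2, 9, 10, 5], [9, 1, 8, 11, 4], [8, 1, 0, 7, 12, 13], [9, 2, 11,
    14], [6, 1, 10, 15]]
  P := {
    a := 6
    N := 16
    nb := [202, 1901, 2834, 12675, 18948, 33858, 32931, 4169, 10254, 17430, 33314, 16660, 8328, 4360,
      2576, 1120]
    tri := [(0, 1, 3), (0, 1, 6), (0, 3, 7), (0, 6, 7), (1, 2, 8), (1, 2, 9), (1, 3, 8), (1, 5, 6), (1,
      5, 10), (1, 9, 10), (2, 4, 9), (2, 4, 11), (2, 8, 11), (3, 7, 12), (3, 8, 13), (3, 12, 13),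
      (4, 9, 14), (4, 11, 14), (5, 6, 15), (5, 10, 15)]
    fin := [0, 1, 2, 1, 2, 0, 0, 7, 2, 2, 1, 11, 12, 13, 14, 15]
    chd := [(0, 1), (1, 12), (1, 13), (7, 1)]
    steps := [(0, 6), (0, 5), (1, 3), (1, 10), (2, 4), (2, 8), (2, 9)] }
  rep := [2, 0, 1, 7, 11, 12, 13, 14, 15]

noncomputable def v911 : Cov.CovD where
  P := 3
  N := 6
  pl := [5, 8, 9]
  lev := [⟨[], [], [(1, 3)], [], [(0, 1, [2]), (1, 3, [2])]⟩,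
    ⟨[], [(0, 0), (0, 1), (0, 2), (0, 3)], [(0, 0), (0, 1), (0, 2), (1, 2)], [], [(0, 1,
      [2]), (2, 0, []), (3, 0, []), (4, 2, [1, 3, 5, 6])]⟩,
    ⟨[(0, 1)], [(1, 0), (1, 1), (1, 2)], [(0, 0)], [4], [(2, 0, []), (3, 0, [])]⟩,
    ⟨[(0, 1), (1, 2)], [(0, 0), (0, 1), (0, 3), (0, 5), (0, 6), (1, 0), (1, 1), (1, 2), (1,
      3), (1, 5), (1, 6), (2, 0)], [(0, 3), (0, 5), (0, 6), (3, 5), (3, 6), (5, 6)], [], [(1,
      3, [2]), (2, 0, []), (6, 5, [2]), (7, 6, [2])]⟩,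
    ⟨[(1, 2)], [(1, 0), (2, 0)], [], [4, 7], [(3, 0, [])]⟩,
    ⟨[(0, 1), (1, 2), (1, 3)], [(0, 1), (1, 0), (1, 1), (1, 2)], [(1, 2)], [8], [(0, 1,
      [2]), (4, 2, [1, 3, 5, 6])]⟩]
  Ta := [((2, 5), 0, 4), ((2, 7), 0, 6), ((3, 4), 0, 2), ((3, 8), 0, 7)]
  Tb := [((0, 1, 9), 1, 3, 8), ((1, 0, 6), 3, 1, 5), ((2, 5, 7), 0, 4, 6), ((3, 4, 8), 0, 2, 7),
    ((4, 3, 9), 2, 0, 8), ((5, 2, 8), 4, 0, 7), ((6, 1, 7), 5, 3, 6), ((7, 2, 6), 6, 0, 5),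
    ((8, 3, 5), 7, 0, 4), ((9, 0, 4), 8, 1, 2)]
  Tc := [(2, 1, 3), (2, 1, 5), (2, 1, 6), (2, 3, 5), (2, 3, 6), (2, 5, 6)]
  Td := [((1, 2), (0, 1), 3), ((1, 2), (0, 9), 8), ((2, 1), (4, 3), 0), ((2, 1), (4, 9), 8), ((2,
    3), (4, 3), 0), ((2, 3), (4, 9), 8), ((2, 5), (4, 3), 0), ((2, 5), (4, 9), 8), ((2, 6),
    (4, 3), 0), ((2, 6), (4, 9), 8), ((3, 2), (1, 0), 1), ((3, 2), (1, 6), 5), ((5, 2), (6,
    1), 3), ((5, 2), (6, 7), 6), ((6, 2), (7, 2), 0), ((6, 2), (7, 6), 5)]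
  G := [[0, 0x448e28128492e4c12cca268c, 0, 0x59c2912a45129962a8c,
    0x45c45146898c48146891499a468d], [0, 0xccc2cc62a4ccc2cca268c, 0xccc1cc61a4ccc1cca168c,
    0xc9c25c62a499c29962a4c, 0x55c455a46888c488a46899c499a468d]]

noncomputable def n911 : Ent := ⟨e911, noF, [], [], [(13, 11, [385753028441264361139741752476358964596869032748796677872738305, 0])]⟩

def c911 : PLift (Cov.check n911.C.D v911 = true) := ⟨by decide +kernel⟩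

def b911 : PLift (entF (fidx ts) 400 911 n911 = true) := ⟨by decide +kernel⟩

theorem g911 : GoodF (fidx ts) 400 911 := GoodF.ofV v911 n911 c911.down b911.down

/-- 485744:776/1 -/
noncomputable def e912 : SCfg where
  D := {
    a := 6
    L := 10
    kp := 8
    inn := [(0, 1), (0, 3), (1, 0), (1, 2), (1, 3), (1, 5), (2, 1), (2, 4), (3, 0), (3, 1), (4, 2), (5,
      1)]
    mix := [(0, 0), (0, 1), (1, 0), (1, 2), (1, 3), (1, 4), (2, 2), (2, 3), (2, 5), (3, 1), (3, 2), (3,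
      6), (3, 7), (3, 8), (4, 2), (4, 5), (4, 8), (5, 0), (5, 4), (5, 9)]
    cl := [1, 3, 0, 0, 2, 5, 6, 7, 4, 8]
    chq := [(1, 2), (2, 1), (2, 3), (2, 4), (2, 6), (2, 7), (3, 2), (4, 2), (6, 2), (7, 2)]
    rng := [(0, 1), (0, 9), (1, 0), (1, 6), (2, 8), (3, 4), (3, 5), (4, 3), (4, 9), (5, 3), (5, 8), (6,
      1), (6, 7), (7, 6), (7, 8), (8, 2), (8, 5), (8, 7), (9, 0), (9, 4)]
    lev := [] }
  links := [[1, 6, 7, 3], [6, 0, 3, 8, 2, 9, 10, 5], [9, 1, 8, 4, 11], [8, 1, 0, 7, 12, 13, 14], [11, 2,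
    8, 14], [6, 1, 10, 15]]
  P := {
    a := 6
    N := 16
    nb := [202, 1901, 2834, 29059, 18692, 33858, 32931, 4169, 16414, 3078, 33314, 16916, 8328, 20488,
      10520, 1120]
    tri := [(0, 1, 3), (0, 1, 6), (0, 3, 7), (0, 6, 7), (1, 2, 8), (1, 2, 9), (1, 3, 8), (1, 5, 6), (1,
      5, 10), (1, 9, 10), (2, 4, 8), (2, 4, 11), (2, 9, 11), (3, 7, 12), (3, 8, 14), (3, 12, 13),
      (3, 13, 14), (4, 8, 14), (4, 11, 14), (5, 6, 15), (5, 10, 15)]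
    fin := [0, 1, 2, 1, 4, 0, 0, 7, 2, 2, 1, 11, 12, 13, 4, 15]
    chd := [(0, 1), (1, 4), (1, 12), (1, 13), (7, 1)]
    steps := [(0, 6), (0, 5), (1, 3), (1, 10), (2, 8), (2, 9), (4, 14)] }
  rep := [2, 0, 1, 7, 4, 11, 12, 13, 15]

noncomputable def v912 : Cov.CovD where
  P := 3
  N := 6
  pl := [5, 9]
  lev := [⟨[], [], [(1, 3)], [], [(0, 1, [2]), (1, 3, [2])]⟩,
    ⟨[], [(0, 0), (0, 1), (0, 2), (0, 3)], [(0, 0), (0, 1), (0, 2), (1, 2)], [], [(0, 1,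
      [2]), (2, 0, []), (3, 0, []), (4, 2, [1, 3, 4, 6, 7])]⟩,
    ⟨[(0, 1)], [(1, 0), (1, 1), (1, 2)], [(0, 0)], [5], [(2, 0, []), (3, 0, [])]⟩,
    ⟨[(0, 1), (1, 2)], [(0, 0), (0, 1), (0, 3), (0, 4), (0, 6), (0, 7), (1, 0), (1, 1), (1,
      2), (1, 3), (1, 4), (1, 6), (1, 7), (2, 0)], [(0, 3), (0, 4), (0, 6), (0, 7), (3, 4),
      (3, 6), (3, 7), (4, 6), (4, 7), (6, 7)], [], [(1, 3, [2]), (2, 0, []), (6, 6, [2]), (7,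
      7, [2]), (8, 4, [2])]⟩,
    ⟨[(1, 2)], [(1, 0), (2, 0), (2, 4), (3, 0), (3, 4)], [(0, 4)], [5], [(2, 0, []), (8, 4,
      [2])]⟩,
    ⟨[(0, 1), (1, 2), (1, 3)], [(0, 1), (1, 0), (1, 1), (1, 2)], [(1, 2)], [8], [(0, 1,
      [2]), (4, 2, [1, 3, 4, 6, 7])]⟩]
  Ta := [((2, 8), 0, 4), ((3, 4), 0, 2), ((3, 5), 0, 5)]
  Tb := [((0, 1, 9), 1, 3, 8), ((1, 0, 6), 3, 1, 6), ((3, 4, 5), 0, 2, 5), ((4, 3, 9), 2, 0, 8),
    ((5, 3, 8), 5, 0, 4), ((6, 1, 7), 6, 3, 7), ((7, 6, 8), 7, 6, 4), ((8, 2, 5), 4, 0, 5),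
    ((8, 2, 7), 4, 0, 7), ((8, 5, 7), 4, 5, 7), ((9, 0, 4), 8, 1, 2)]
  Tc := [(2, 1, 3), (2, 1, 4), (2, 1, 6), (2, 1, 7), (2, 3, 4), (2, 3, 6), (2, 3, 7), (2, 4, 6),
    (2, 4, 7), (2, 6, 7)]
  Td := [((1, 2), (0, 1), 3), ((1, 2), (0, 9), 8), ((2, 1), (4, 3), 0), ((2, 1), (4, 9), 8), ((2,
    3), (4, 3), 0), ((2, 3), (4, 9), 8), ((2, 4), (4, 3), 0), ((2, 4), (4, 9), 8), ((2, 6),
    (4, 3), 0), ((2, 6), (4, 9), 8), ((2, 7), (4, 3), 0), ((2, 7), (4, 9), 8), ((3, 2), (1,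
    0), 1), ((3, 2), (1, 6), 6), ((4, 2), (8, 2), 0), ((4, 2), (8, 5), 5), ((4, 2), (8, 7),
    7), ((6, 2), (6, 1), 3), ((6, 2), (6, 7), 7), ((7, 2), (7, 6), 6), ((7, 2), (7, 8), 4)]
  G := [[0, 0x4222ccc22862acccc2422628a22cc, 0, 0x59c2922a459c252268c,
    0x45c454a46884489a46849c454a468d], [0, 0x412a122ca2e4c122ca268c, 0xccc1cc61a4ccc1cca168c,
    0x912522a4c12922a49, 0x44c451468944814685144464a8d]]

noncomputable def n912 : Ent := ⟨e912, noF, [], [], []⟩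

def c912 : PLift (Cov.check n912.C.D v912 = true) := ⟨by decide +kernel⟩

def b912 : PLift (entF (fidx ts) 400 912 n912 = true) := ⟨by decide +kernel⟩

theorem g912 : GoodF (fidx ts) 400 912 := GoodF.ofV v912 n912 c912.down b912.down

/-- 485744:776 -/
noncomputable def e913 : SCfg where
  D := {
    a := 6
    L := 11
    kp := 9
    inn := [(0, 1), (0, 3), (1, 0), (1, 2), (1, 3), (1, 5), (2, 1), (2, 4), (3, 0), (3, 1), (4, 2), (5,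
      1)]
    mix := [(0, 0), (0, 1), (1, 0), (1, 2), (1, 3), (1, 4), (2, 2), (2, 3), (2, 5), (3, 1), (3, 2), (3,
      6), (3, 7), (3, 8), (4, 2), (4, 5), (4, 9), (5, 0), (5, 4), (5, 10)]
    cl := [1, 3, 0, 0, 2, 4, 5, 6, 7, 8, 9]
    chq := [(1, 2), (2, 1), (2, 3), (2, 5), (2, 6), (2, 7), (3, 2), (5, 2), (6, 2), (7, 2)]
    rng := [(0, 1), (0, 10), (1, 0), (1, 6), (2, 8), (2, 9), (3, 4), (3, 5), (4, 3), (4, 10), (5, 3),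
      (5, 9), (6, 1), (6, 7), (7, 6), (7, 8), (8, 2), (8, 7), (9, 2), (9, 5), (10, 0), (10, 4)]
    lev := [] }
  links := [[1, 6, 7, 3], [6, 0, 3, 8, 2, 9, 10, 5], [9, 1, 8, 4, 11], [8, 1, 0, 7, 12, 13, 14], [11, 2,
    8, 15], [6, 1, 10, 16]]
  P := {
    a := 6
    N := 17
    nb := [202, 1901, 2834, 29059, 35076, 66626, 65699, 4169, 49182, 3078, 66082, 33300, 8328, 20488,
      8456, 2320, 1120]
    tri := [(0, 1, 3), (0, 1, 6), (0, 3, 7), (0, 6, 7), (1, 2, 8), (1, 2, 9), (1, 3, 8), (1, 5, 6), (1,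
      5, 10), (1, 9, 10), (2, 4, 8), (2, 4, 11), (2, 9, 11), (3, 7, 12), (3, 8, 14), (3, 12, 13),
      (3, 13, 14), (4, 8, 15), (4, 11, 15), (5, 6, 16), (5, 10, 16)]
    fin := [0, 1, 2, 1, 2, 0, 0, 7, 2, 2, 1, 11, 12, 13, 14, 15, 16]
    chd := [(0, 1), (1, 12), (1, 13), (1, 14), (7, 1)]
    steps := [(0, 6), (0, 5), (1, 3), (1, 10), (2, 4), (2, 8), (2, 9)] }
  rep := [2, 0, 1, 7, 11, 12, 13, 14, 15, 16]

noncomputable def v913 : Cov.CovD where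
  P := 3
  N := 7
  pl := [5, 9, 10]
  lev := [⟨[], [], [(1, 3)], [], [(0, 1, [2]), (1, 3, [2])]⟩,
    ⟨[], [(0, 0), (0, 1), (0, 2), (0, 3)], [(0, 0), (0, 1), (0, 2), (1, 2)], [], [(0, 1,
      [2]), (2, 0, []), (3, 0, []), (4, 2, [1, 3, 5, 6, 7])]⟩,
    ⟨[(0, 1)], [(1, 0), (1, 1), (1, 2)], [(0, 0)], [4], [(2, 0, []), (3, 0, [])]⟩,
    ⟨[(0, 1), (1, 2)], [(0, 0), (0, 1), (0, 3), (0, 5), (0, 6), (0, 7), (1, 0), (1, 1), (1,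
      2), (1, 3), (1, 5), (1, 6), (1, 7), (2, 0)], [(0, 3), (0, 5), (0, 6), (0, 7), (3, 5),
      (3, 6), (3, 7), (5, 6), (5, 7), (6, 7)], [], [(1, 3, [2]), (2, 0, []), (6, 5, [2]), (7,
      6, [2]), (8, 7, [2])]⟩,
    ⟨[(1, 2)], [(1, 0), (2, 0), (3, 0)], [], [4, 8], [(2, 0, [])]⟩,
    ⟨[(0, 1), (1, 2), (1, 3)], [(0, 1), (1, 0), (1, 1), (1, 2)], [(1, 2)], [9], [(0, 1,
      [2]), (4, 2, [1, 3, 5, 6, 7])]⟩]
  Ta := [((2, 8), 0, 7), ((2, 9), 0, 8), ((3, 4), 0, 2), ((3, 5), 0, 4)]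
  Tb := [((0, 1, 10), 1, 3, 9), ((1, 0, 6), 3, 1, 5), ((2, 8, 9), 0, 7, 8), ((3, 4, 5), 0, 2, 4),
    ((4, 3, 10), 2, 0, 9), ((5, 3, 9), 4, 0, 8), ((6, 1, 7), 5, 3, 6), ((7, 6, 8), 6, 5, 7),
    ((8, 2, 7), 7, 0, 6), ((9, 2, 5), 8, 0, 4), ((10, 0, 4), 9, 1, 2)]
  Tc := [(2, 1, 3), (2, 1, 5), (2, 1, 6), (2, 1, 7), (2, 3, 5), (2, 3, 6), (2, 3, 7), (2, 5, 6),
    (2, 5, 7), (2, 6, 7)]
  Td := [((1, 2), (0, 1), 3), ((1, 2), (0, 10), 9), ((2, 1), (4, 3), 0), ((2, 1), (4, 10), 9),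
    ((2, 3), (4, 3), 0), ((2, 3), (4, 10), 9), ((2, 5), (4, 3), 0), ((2, 5), (4, 10), 9),
    ((2, 6), (4, 3), 0), ((2, 6), (4, 10), 9), ((2, 7), (4, 3), 0), ((2, 7), (4, 10), 9),
    ((3, 2), (1, 0), 1), ((3, 2), (1, 6), 5), ((5, 2), (6, 1), 3), ((5, 2), (6, 7), 6), ((6,
    2), (7, 6), 5), ((6, 2), (7, 8), 7), ((7, 2), (8, 2), 0), ((7, 2), (8, 7), 6)]
  G := [[0, 0xccc2cc62a4ccc2cca268c, 0, 0x5cc259a2689cc25c62a45,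
    0x45c454a46898c489a46849c459a468d], [0, 0xccc2c12a4ccc2c1268c,
    0xccc1cc61a44cc14ca168818cc, 0x51255a26895c2912689, 0x51455a46881488a46899c491468d]]

noncomputable def n913 : Ent := ⟨e913, noF, [], [], [(14, 15, [1685356702439545624007900436039642273970977273354372543760003825665, 0])]⟩

def c913 : PLift (Cov.check n913.C.D v913 = true) := ⟨by decide +kernel⟩

def b913 : PLift (entF (fidx ts) 400 913 n913 = true) := ⟨by decide +kernel⟩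

theorem g913 : GoodF (fidx ts) 400 913 := GoodF.ofV v913 n913 c913.down b913.down

/-- 485744:777/1 -/
noncomputable def e914 : SCfg where
  D := {
    a := 6
    L := 10
    kp := 8
    inn := [(0, 1), (0, 3), (1, 0), (1, 2), (1, 3), (1, 5), (2, 1), (2, 4), (3, 0), (3, 1), (4, 2), (5,
      1)]
    mix := [(0, 0), (0, 1), (1, 0), (1, 2), (1, 3), (1, 4), (2, 2), (2, 3), (2, 5), (3, 1), (3, 2), (3,
      5), (3, 6), (3, 7), (4, 3), (4, 5), (4, 8), (5, 0), (5, 4), (5, 9)]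
    cl := [1, 4, 0, 0, 2, 3, 5, 6, 7, 8]
    chq := [(1, 2), (2, 1), (2, 3), (2, 4), (2, 5), (2, 6), (3, 2), (4, 2), (5, 2), (6, 2)]
    rng := [(0, 1), (0, 9), (1, 0), (1, 6), (2, 5), (3, 4), (3, 8), (4, 3), (4, 9), (5, 2), (5, 7), (5,
      8), (6, 1), (6, 7), (7, 5), (7, 6), (8, 3), (8, 5), (9, 0), (9, 4)]
    lev := [] }
  links := [[1, 6, 7, 3], [6, 0, 3, 8, 2, 9, 10, 5], [9, 1, 8, 11, 4], [8, 1, 0, 7, 12, 13, 11], [9, 2,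
    11, 14], [6, 1, 10, 15]]
  P := {
    a := 6
    N := 16
    nb := [202, 1901, 2834, 14723, 18948, 33858, 32931, 4169, 2062, 17430, 33314, 24860, 8328, 6152,
      2576, 1120]
    tri := [(0, 1, 3), (0, 1, 6), (0, 3, 7), (0, 6, 7), (1, 2, 8), (1, 2, 9), (1, 3, 8), (1, 5, 6), (1,
      5, 10), (1, 9, 10), (2, 4, 9), (2, 4, 11), (2, 8, 11), (3, 7, 12), (3, 8, 11), (3, 11, 13),
      (3, 12, 13), (4, 9, 14), (4, 11, 14), (5, 6, 15), (5, 10, 15)]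
    fin := [0, 1, 2, 1, 4, 0, 0, 7, 2, 2, 1, 4, 12, 13, 14, 15]
    chd := [(0, 1), (1, 4), (1, 12), (1, 13), (7, 1)]
    steps := [(0, 6), (0, 5), (1, 3), (1, 10), (2, 8), (2, 9), (4, 11)] }
  rep := [2, 0, 1, 4, 7, 12, 13, 14, 15]

noncomputable def v914 : Cov.CovD where
  P := 3
  N := 6
  pl := [8, 9]
  lev := [⟨[], [], [(1, 4)], [], [(0, 1, [2]), (1, 4, [2])]⟩,
    ⟨[], [(0, 0), (0, 1), (0, 2), (0, 4)], [(0, 0), (0, 1), (0, 2), (1, 2)], [], [(0, 1,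
      [2]), (2, 0, []), (3, 0, []), (4, 2, [1, 3, 4, 5, 6])]⟩,
    ⟨[(0, 1)], [(1, 0), (1, 1), (1, 2), (1, 3)], [(0, 0), (0, 3)], [], [(2, 0, []), (3, 0,
      []), (5, 3, [2])]⟩,
    ⟨[(0, 1), (1, 2)], [(0, 0), (0, 1), (0, 3), (0, 4), (0, 5), (0, 6), (1, 0), (1, 1), (1,
      2), (1, 3), (1, 4), (1, 5), (1, 6), (2, 0), (2, 3)], [(0, 3), (0, 4), (0, 5), (0, 6),
      (3, 4), (3, 5), (3, 6), (4, 5), (4, 6), (5, 6)], [], [(1, 4, [2]), (2, 0, []), (5, 3,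
      [2]), (6, 5, [2]), (7, 6, [2])]⟩,
    ⟨[(1, 2)], [(1, 0), (2, 0), (2, 3), (3, 3)], [(0, 3)], [7], [(3, 0, []), (5, 3, [2])]⟩,
    ⟨[(0, 1), (1, 2), (1, 3)], [(0, 1), (1, 0), (1, 1), (1, 2)], [(1, 2)], [8], [(0, 1,
      [2]), (4, 2, [1, 3, 4, 5, 6])]⟩]
  Ta := [((2, 5), 0, 3), ((3, 4), 0, 2), ((3, 8), 0, 7)]
  Tb := [((0, 1, 9), 1, 4, 8), ((1, 0, 6), 4, 1, 5), ((3, 4, 8), 0, 2, 7), ((4, 3, 9), 2, 0, 8),
    ((5, 2, 7), 3, 0, 6), ((5, 2, 8), 3, 0, 7), ((5, 7, 8), 3, 6, 7), ((6, 1, 7), 5, 4, 6),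
    ((7, 5, 6), 6, 3, 5), ((8, 3, 5), 7, 0, 3), ((9, 0, 4), 8, 1, 2)]
  Tc := [(2, 1, 3), (2, 1, 4), (2, 1, 5), (2, 1, 6), (2, 3, 4), (2, 3, 5), (2, 3, 6), (2, 4, 5),
    (2, 4, 6), (2, 5, 6)]
  Td := [((1, 2), (0, 1), 4), ((1, 2), (0, 9), 8), ((2, 1), (4, 3), 0), ((2, 1), (4, 9), 8), ((2,
    3), (4, 3), 0), ((2, 3), (4, 9), 8), ((2, 4), (4, 3), 0), ((2, 4), (4, 9), 8), ((2, 5),
    (4, 3), 0), ((2, 5), (4, 9), 8), ((2, 6), (4, 3), 0), ((2, 6), (4, 9), 8), ((3, 2), (5,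
    2), 0), ((3, 2), (5, 7), 6), ((3, 2), (5, 8), 7), ((4, 2), (1, 0), 1), ((4, 2), (1, 6),
    5), ((5, 2), (6, 1), 4), ((5, 2), (6, 7), 6), ((6, 2), (7, 5), 3), ((6, 2), (7, 6), 5)]
  G := [[0, 0xc2c2cc62a4212cccd268c, 0, 0x555d2288149f2289, 0x455b441468988b4484149964c8d], [0,
    0xc2c2cc62a42cc2cca268c, 0xccc1cc61a4ccc1cca168c, 0x59ce2245cce2289,
    0x54c445a468898e44894c449a468d]]

noncomputable def n914 : Ent := ⟨e914, noF, [], [], []⟩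

def c914 : PLift (Cov.check n914.C.D v914 = true) := ⟨by decide +kernel⟩

def b914 : PLift (entF (fidx ts) 400 914 n914 = true) := ⟨by decide +kernel⟩

theorem g914 : GoodF (fidx ts) 400 914 := GoodF.ofV v914 n914 c914.down b914.down

/-- 485744:777 -/
noncomputable def e915 : SCfg where
  D := {
    a := 6
    L := 11
    kp := 9
    inn := [(0, 1), (0, 3), (1, 0), (1, 2), (1, 3), (1, 5), (2, 1), (2, 4), (3, 0), (3, 1), (4, 2), (5,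
      1)]
    mix := [(0, 0), (0, 1), (1, 0), (1, 2), (1, 3), (1, 4), (2, 2), (2, 3), (2, 5), (3, 1), (3, 2), (3,
      6), (3, 7), (3, 8), (4, 3), (4, 5), (4, 9), (5, 0), (5, 4), (5, 10)]
    cl := [1, 3, 0, 0, 2, 4, 5, 6, 7, 8, 9]
    chq := [(1, 2), (2, 1), (2, 3), (2, 5), (2, 6), (2, 7), (3, 2), (5, 2), (6, 2), (7, 2)]
    rng := [(0, 1), (0, 10), (1, 0), (1, 6), (2, 5), (2, 8), (3, 4), (3, 9), (4, 3), (4, 10), (5, 2),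
      (5, 9), (6, 1), (6, 7), (7, 6), (7, 8), (8, 2), (8, 7), (9, 3), (9, 5), (10, 0), (10, 4)]
    lev := [] }
  links := [[1, 6, 7, 3], [6, 0, 3, 8, 2, 9, 10, 5], [9, 1, 8, 11, 4], [8, 1, 0, 7, 12, 13, 14], [9, 2,
    11, 15], [6, 1, 10, 16]]
  P := {
    a := 6
    N := 17
    nb := [202, 1901, 2834, 29059, 35332, 66626, 65699, 4169, 18446, 33814, 66082, 33044, 8328, 20488,
      8456, 2576, 1120]
    tri := [(0, 1, 3), (0, 1, 6), (0, 3, 7), (0, 6, 7), (1, 2, 8), (1, 2, 9), (1, 3, 8), (1, 5, 6), (1,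
      5, 10), (1, 9, 10), (2, 4, 9), (2, 4, 11), (2, 8, 11), (3, 7, 12), (3, 8, 14), (3, 12, 13),
      (3, 13, 14), (4, 9, 15), (4, 11, 15), (5, 6, 16), (5, 10, 16)]
    fin := [0, 1, 2, 1, 2, 0, 0, 7, 2, 2, 1, 11, 12, 13, 14, 15, 16]
    chd := [(0, 1), (1, 12), (1, 13), (1, 14), (7, 1)]
    steps := [(0, 6), (0, 5), (1, 3), (1, 10), (2, 4), (2, 8), (2, 9)] }
  rep := [2, 0, 1, 7, 11, 12, 13, 14, 15, 16]

noncomputable def v915 : Cov.CovD where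
  P := 3
  N := 7
  pl := [5, 9, 10]
  lev := [⟨[], [], [(1, 3)], [], [(0, 1, [2]), (1, 3, [2])]⟩,
    ⟨[], [(0, 0), (0, 1), (0, 2), (0, 3)], [(0, 0), (0, 1), (0, 2), (1, 2)], [], [(0, 1,
      [2]), (2, 0, []), (3, 0, []), (4, 2, [1, 3, 5, 6, 7])]⟩,
    ⟨[(0, 1)], [(1, 0), (1, 1), (1, 2)], [(0, 0)], [4], [(2, 0, []), (3, 0, [])]⟩,
    ⟨[(0, 1), (1, 2)], [(0, 0), (0, 1), (0, 3), (0, 5), (0, 6), (0, 7), (1, 0), (1, 1), (1,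
      2), (1, 3), (1, 5), (1, 6), (1, 7), (2, 0)], [(0, 3), (0, 5), (0, 6), (0, 7), (3, 5),
      (3, 6), (3, 7), (5, 6), (5, 7), (6, 7)], [], [(1, 3, [2]), (2, 0, []), (6, 5, [2]), (7,
      6, [2]), (8, 7, [2])]⟩,
    ⟨[(1, 2)], [(1, 0), (2, 0)], [], [4, 8], [(3, 0, [])]⟩,
    ⟨[(0, 1), (1, 2), (1, 3)], [(0, 1), (1, 0), (1, 1), (1, 2)], [(1, 2)], [9], [(0, 1,
      [2]), (4, 2, [1, 3, 5, 6, 7])]⟩]
  Ta := [((2, 5), 0, 4), ((2, 8), 0, 7), ((3, 4), 0, 2), ((3, 9), 0, 8)]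
  Tb := [((0, 1, 10), 1, 3, 9), ((1, 0, 6), 3, 1, 5), ((2, 5, 8), 0, 4, 7), ((3, 4, 9), 0, 2, 8),
    ((4, 3, 10), 2, 0, 9), ((5, 2, 9), 4, 0, 8), ((6, 1, 7), 5, 3, 6), ((7, 6, 8), 6, 5, 7),
    ((8, 2, 7), 7, 0, 6), ((9, 3, 5), 8, 0, 4), ((10, 0, 4), 9, 1, 2)]
  Tc := [(2, 1, 3), (2, 1, 5), (2, 1, 6), (2, 1, 7), (2, 3, 5), (2, 3, 6), (2, 3, 7), (2, 5, 6),
    (2, 5, 7), (2, 6, 7)]
  Td := [((1, 2), (0, 1), 3), ((1, 2), (0, 10), 9), ((2, 1), (4, 3), 0), ((2, 1), (4, 10), 9),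
    ((2, 3), (4, 3), 0), ((2, 3), (4, 10), 9), ((2, 5), (4, 3), 0), ((2, 5), (4, 10), 9),
    ((2, 6), (4, 3), 0), ((2, 6), (4, 10), 9), ((2, 7), (4, 3), 0), ((2, 7), (4, 10), 9),
    ((3, 2), (1, 0), 1), ((3, 2), (1, 6), 5), ((5, 2), (6, 1), 3), ((5, 2), (6, 7), 6), ((6,
    2), (7, 6), 5), ((6, 2), (7, 8), 7), ((7, 2), (8, 2), 0), ((7, 2), (8, 7), 6)]
  G := [[0, 0xccc2c12a4c12cca268c, 0, 0x198d28932a45129ca2685, 0x41455a46891488a46859c491468d],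
    [0, 0xccc2cc62a4ccc2cca268c, 0xccc1cc61a4ccc1cca168c, 0x5cc259a268c9c25c62a45,
    0x55c454a46888c489a46899c494a468d]]

noncomputable def n915 : Ent := ⟨e915, noF, [], [], [(14, 11, [1685382413448254890285566577566560913002569154707632164201561661441, 0])]⟩

def c915 : PLift (Cov.check n915.C.D v915 = true) := ⟨by decide +kernel⟩

def b915 : PLift (entF (fidx ts) 400 915 n915 = true) := ⟨by decide +kernel⟩

theorem g915 : GoodF (fidx ts) 400 915 := GoodF.ofV v915 n915 c915.down b915.down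

/-- 485644:778/1 -/
noncomputable def e916 : SCfg where
  D := {
    a := 6
    L := 10
    kp := 7
    inn := [(0, 1), (1, 0), (1, 2), (1, 3), (2, 1), (2, 4), (3, 1), (3, 5), (4, 2), (5, 3)]
    mix := [(0, 0), (0, 1), (0, 2), (1, 0), (1, 2), (1, 3), (1, 4), (1, 5), (2, 3), (2, 4), (2, 6), (3,
      4), (3, 5), (3, 7), (3, 8), (4, 4), (4, 6), (4, 9), (5, 4), (5, 7), (5, 9)]
    cl := [1, 6, 2, 0, 0, 0, 4, 5, 7, 3]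
    chq := [(0, 6), (3, 7), (6, 0), (7, 3)]
    rng := [(0, 1), (0, 5), (1, 0), (1, 2), (2, 1), (2, 3), (3, 2), (3, 6), (4, 9), (5, 0), (5, 8), (6,
      3), (6, 9), (7, 8), (7, 9), (8, 5), (8, 7), (9, 4), (9, 6), (9, 7)]
    lev := [] }
  links := [[1, 6, 7, 8], [6, 0, 8, 9, 2, 10, 3, 11], [10, 1, 9, 12, 4], [11, 1, 10, 5, 13, 14], [10, 2,
    12, 15], [13, 3, 10, 15]]
  P := {
    a := 6
    N := 16
    nb := [450, 3917, 5650, 27682, 37892, 41992, 2179, 321, 643, 4358, 32830, 16458, 33300, 49192,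
      10248, 13360]
    tri := [(0, 1, 6), (0, 1, 8), (0, 6, 7), (0, 7, 8), (1, 2, 9), (1, 2, 10), (1, 3, 10), (1, 3, 11),
      (1, 6, 11), (1, 8, 9), (2, 4, 10), (2, 4, 12), (2, 9, 12), (3, 5, 10), (3, 5, 13), (3, 11,
      14), (3, 13, 14), (4, 10, 15), (4, 12, 15), (5, 10, 15), (5, 13, 15)]
    fin := [0, 1, 1, 3, 1, 3, 6, 0, 8, 1, 1, 1, 12, 13, 14, 3]
    chd := [(0, 1), (14, 3)]
    steps := [(0, 7), (1, 2), (1, 4), (1, 9), (1, 10), (1, 11), (3, 5), (3, 15)] }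
  rep := [1, 6, 8, 3, 12, 13, 0, 14]

noncomputable def v916 : Cov.CovD where
  P := 3
  N := 5
  pl := [0, 2, 6, 7]
  lev := [⟨[], [], [], [1, 2], [(1, 6, [0])]⟩,
    ⟨[], [(0, 0), (0, 6)], [(0, 0)], [1, 2], [(3, 0, [6]), (4, 0, [6]), (5, 0, [6])]⟩,
    ⟨[(0, 1)], [(1, 0)], [(0, 0)], [4], [(3, 0, [6]), (4, 0, [6])]⟩,
    ⟨[(0, 1), (1, 2)], [(1, 0), (1, 7), (2, 0)], [(0, 0), (0, 7)], [5], [(4, 0, [6]), (5,
      0, [6]), (8, 7, [3])]⟩,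
    ⟨[(1, 2)], [(1, 0), (2, 0), (2, 3), (3, 0)], [(0, 3)], [4], [(4, 0, [6]), (9, 3, [7])]⟩,
    ⟨[(1, 3)], [(1, 0), (2, 0), (3, 0), (3, 3), (3, 7), (4, 0), (4, 3)], [(0, 3)], [5],
      [(4, 0, [6]), (9, 3, [7])]⟩]
  Ta := [((3, 2), 0, 2), ((3, 6), 0, 4), ((4, 9), 0, 3), ((5, 0), 0, 1), ((5, 8), 0, 7)]
  Tb := [((0, 1, 5), 1, 6, 0), ((1, 0, 2), 6, 1, 2), ((2, 1, 3), 2, 6, 0), ((3, 2, 6), 0, 2, 4),
    ((5, 0, 8), 0, 1, 7), ((6, 3, 9), 4, 0, 3), ((7, 8, 9), 5, 7, 3), ((8, 5, 7), 7, 0, 5),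
    ((9, 4, 6), 3, 0, 4), ((9, 4, 7), 3, 0, 5), ((9, 6, 7), 3, 4, 5)]
  Tc := []
  Td := [((0, 6), (3, 2), 2), ((0, 6), (3, 6), 4), ((0, 6), (4, 9), 3), ((0, 6), (5, 0), 1), ((0,
    6), (5, 8), 7), ((3, 7), (9, 4), 0), ((3, 7), (9, 6), 4), ((3, 7), (9, 7), 5), ((6, 0),
    (1, 0), 1), ((6, 0), (1, 2), 2), ((7, 3), (8, 5), 0), ((7, 3), (8, 7), 5)]
  G := [[0, 0, 0x6112c129e61c1aa14e4a1c16a1c161438e6188cc, 0x6192c11ce526183126ea41,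
    0x425a1125e14381a12ae681], [0, 0, 0, 0x44c46486ca8c8e866a222eac1,
    0x26ca4c2cce46a4aac2ae681], [0, 0xa1c16261829129e1168aca1c1661a1c143c1ae8c, 0,
    0x61a1c61c1a1831496e41, 0x61a1c1e61a114ae681]]

noncomputable def n916 : Ent := ⟨e916, noF, [], [], []⟩

def c916 : PLift (Cov.check n916.C.D v916 = true) := ⟨by decide +kernel⟩

def b916 : PLift (entF (fidx ts) 400 916 n916 = true) := ⟨by decide +kernel⟩

theorem g916 : GoodF (fidx ts) 400 916 := GoodF.ofV v916 n916 c916.down b916.down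

/-- 485644:778 -/
noncomputable def e917 : SCfg where
  D := {
    a := 6
    L := 11
    kp := 8
    inn := [(0, 1), (1, 0), (1, 2), (1, 3), (2, 1), (2, 4), (3, 1), (3, 5), (4, 2), (5, 3)]
    mix := [(0, 0), (0, 1), (0, 2), (1, 0), (1, 2), (1, 3), (1, 4), (1, 5), (2, 3), (2, 4), (2, 6), (3,
      4), (3, 5), (3, 7), (3, 8), (4, 4), (4, 6), (4, 9), (5, 4), (5, 7), (5, 10)]
    cl := [1, 5, 2, 0, 0, 0, 3, 4, 6, 8, 7]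
    chq := [(0, 5), (5, 0), (6, 7), (7, 6)]
    rng := [(0, 1), (0, 5), (1, 0), (1, 2), (2, 1), (2, 3), (3, 2), (3, 6), (4, 9), (4, 10), (5, 0),
      (5, 8), (6, 3), (6, 9), (7, 8), (7, 10), (8, 5), (8, 7), (9, 4), (9, 6), (10, 4), (10, 7)]
    lev := [] }
  links := [[1, 6, 7, 8], [6, 0, 8, 9, 2, 10, 3, 11], [10, 1, 9, 12, 4], [11, 1, 10, 5, 13, 14], [10, 2,
    12, 15], [13, 3, 10, 16]]
  P := {
    a := 6
    N := 17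
    nb := [450, 3917, 5650, 27682, 37892, 74760, 2179, 321, 643, 4358, 98366, 16458, 33300, 81960,
      10248, 5136, 9248]
    tri := [(0, 1, 6), (0, 1, 8), (0, 6, 7), (0, 7, 8), (1, 2, 9), (1, 2, 10), (1, 3, 10), (1, 3, 11),
      (1, 6, 11), (1, 8, 9), (2, 4, 10), (2, 4, 12), (2, 9, 12), (3, 5, 10), (3, 5, 13), (3, 11,
      14), (3, 13, 14), (4, 10, 15), (4, 12, 15), (5, 10, 16), (5, 13, 16)]
    fin := [0, 1, 1, 3, 1, 3, 6, 0, 8, 1, 1, 1, 12, 13, 14, 15, 3]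
    chd := [(0, 1), (14, 3)]
    steps := [(0, 7), (1, 2), (1, 4), (1, 9), (1, 10), (1, 11), (3, 5), (3, 16)] }
  rep := [1, 6, 8, 12, 13, 0, 14, 3, 15]

noncomputable def v917 : Cov.CovD where
  P := 3
  N := 6
  pl := [0, 2, 6, 7, 9]
  lev := [⟨[], [], [], [1, 2], [(1, 5, [0])]⟩,
    ⟨[], [(0, 0), (0, 5)], [(0, 0)], [1, 2], [(3, 0, [5]), (4, 0, [5]), (5, 0, [5])]⟩,
    ⟨[(0, 1)], [(1, 0)], [(0, 0)], [3], [(3, 0, [5]), (4, 0, [5])]⟩,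
    ⟨[(0, 1), (1, 2)], [(1, 0), (1, 6), (2, 0)], [(0, 0), (0, 6)], [4], [(4, 0, [5]), (5,
      0, [5]), (8, 6, [7])]⟩,
    ⟨[(1, 2)], [(1, 0), (2, 0), (3, 0)], [], [3, 8], [(4, 0, [5])]⟩,
    ⟨[(1, 3)], [(1, 0), (2, 0), (3, 0), (3, 6), (3, 7), (4, 0)], [(0, 7)], [4], [(4, 0,
      [5]), (10, 7, [6])]⟩]
  Ta := [((3, 2), 0, 2), ((3, 6), 0, 3), ((4, 9), 0, 8), ((4, 10), 0, 7), ((5, 0), 0, 1), ((5,
    8), 0, 6)]
  Tb := [((0, 1, 5), 1, 5, 0), ((1, 0, 2), 5, 1, 2), ((2, 1, 3), 2, 5, 0), ((3, 2, 6), 0, 2, 3),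
    ((4, 9, 10), 0, 8, 7), ((5, 0, 8), 0, 1, 6), ((6, 3, 9), 3, 0, 8), ((7, 8, 10), 4, 6, 7),
    ((8, 5, 7), 6, 0, 4), ((9, 4, 6), 8, 0, 3), ((10, 4, 7), 7, 0, 4)]
  Tc := []
  Td := [((0, 5), (3, 2), 2), ((0, 5), (3, 6), 3), ((0, 5), (4, 9), 8), ((0, 5), (4, 10), 7),
    ((0, 5), (5, 0), 1), ((0, 5), (5, 8), 6), ((5, 0), (1, 0), 1), ((5, 0), (1, 2), 2), ((6,
    7), (8, 5), 0), ((6, 7), (8, 7), 4), ((7, 6), (10, 4), 0), ((7, 6), (10, 7), 4)]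
  G := [[0, 0, 0xa1c16a1c166618618cc11c461a1c1e661c1a8cc, 0x61ca1c1e61316c96ea41,
    0x16ca151ce61a9a11ae681], [0, 0, 0, 0x64a4c4e468a8c8e62a2c2eac1,
    0x66caacccce66aaaaccae681], [0, 0xa1c1626111cc1e1168ac61a111ce61a111ae68c, 0,
    0xa1c1661811aa1c1ee81, 0x61a1c1e6111ac1e681]]

noncomputable def n917 : Ent := ⟨e917, noF, [], [], [(15, 16, [1580044410770988437309982408355971841652082177953823432505692864513, 0])]⟩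

def c917 : PLift (Cov.check n917.C.D v917 = true) := ⟨by decide +kernel⟩

def b917 : PLift (entF (fidx ts) 400 917 n917 = true) := ⟨by decide +kernel⟩

theorem g917 : GoodF (fidx ts) 400 917 := GoodF.ofV v917 n917 c917.down b917.down

/-- 485644:779/1 -/
noncomputable def e918 : SCfg where
  D := {
    a := 6
    L := 10
    kp := 7
    inn := [(0, 1), (1, 0), (1, 2), (1, 3), (2, 1), (2, 4), (3, 1), (3, 5), (4, 2), (5, 3)]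
    mix := [(0, 0), (0, 1), (0, 2), (1, 0), (1, 2), (1, 3), (1, 4), (1, 5), (2, 3), (2, 4), (2, 6), (3,
      4), (3, 5), (3, 7), (3, 8), (4, 4), (4, 6), (4, 7), (5, 5), (5, 8), (5, 9)]
    cl := [1, 6, 2, 0, 0, 0, 4, 3, 5, 7]
    chq := [(0, 6), (3, 7), (6, 0), (7, 3)]
    rng := [(0, 1), (0, 5), (1, 0), (1, 2), (2, 1), (2, 3), (3, 2), (3, 6), (4, 7), (5, 0), (5, 9), (6,
      3), (6, 7), (7, 4), (7, 6), (7, 8), (8, 7), (8, 9), (9, 5), (9, 8)]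
    lev := [] }
  links := [[1, 6, 7, 8], [6, 0, 8, 9, 2, 10, 3, 11], [10, 1, 9, 12, 4], [11, 1, 10, 13, 14, 5], [10, 2,
    12, 13], [11, 3, 14, 15]]
  P := {
    a := 6
    N := 16
    nb := [450, 3917, 5650, 27682, 13316, 51208, 2179, 321, 643, 4358, 8222, 32874, 8724, 21528,
      41000, 18464]
    tri := [(0, 1, 6), (0, 1, 8), (0, 6, 7), (0, 7, 8), (1, 2, 9), (1, 2, 10), (1, 3, 10), (1, 3, 11),
      (1, 6, 11), (1, 8, 9), (2, 4, 10), (2, 4, 12), (2, 9, 12), (3, 5, 11), (3, 5, 14), (3, 10,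
      13), (3, 13, 14), (4, 10, 13), (4, 12, 13), (5, 11, 15), (5, 14, 15)]
    fin := [0, 1, 1, 3, 1, 3, 6, 0, 8, 1, 1, 1, 12, 3, 14, 15]
    chd := [(0, 1), (3, 15)]
    steps := [(0, 7), (1, 2), (1, 4), (1, 9), (1, 10), (1, 11), (3, 5), (3, 13)] }
  rep := [1, 6, 8, 3, 12, 14, 0, 15]

noncomputable def v918 : Cov.CovD where
  P := 3
  N := 5
  pl := [0, 2, 6, 8]
  lev := [⟨[], [], [], [1, 2], [(1, 6, [0])]⟩,
    ⟨[], [(0, 0), (0, 6)], [(0, 0)], [1, 2], [(3, 0, [6]), (4, 0, [6]), (5, 0, [6])]⟩,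
    ⟨[(0, 1)], [(1, 0)], [(0, 0)], [4], [(3, 0, [6]), (4, 0, [6])]⟩,
    ⟨[(0, 1), (1, 2)], [(1, 0), (1, 3), (2, 0)], [(0, 0), (0, 3)], [5], [(4, 0, [6]), (5,
      0, [6]), (7, 3, [7])]⟩,
    ⟨[(1, 2)], [(1, 0), (2, 0), (2, 3), (3, 0), (3, 3)], [(0, 3)], [4], [(4, 0, [6]), (7,
      3, [7])]⟩,
    ⟨[(1, 3)], [(1, 0), (3, 0), (3, 3), (3, 7)], [(0, 7)], [5], [(5, 0, [6]), (9, 7, [3])]⟩]
  Ta := [((3, 2), 0, 2), ((3, 6), 0, 4), ((4, 7), 0, 3), ((5, 0), 0, 1), ((5, 9), 0, 7)]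
  Tb := [((0, 1, 5), 1, 6, 0), ((1, 0, 2), 6, 1, 2), ((2, 1, 3), 2, 6, 0), ((3, 2, 6), 0, 2, 4),
    ((5, 0, 9), 0, 1, 7), ((6, 3, 7), 4, 0, 3), ((7, 4, 6), 3, 0, 4), ((7, 4, 8), 3, 0, 5),
    ((7, 6, 8), 3, 4, 5), ((8, 7, 9), 5, 3, 7), ((9, 5, 8), 7, 0, 5)]
  Tc := []
  Td := [((0, 6), (3, 2), 2), ((0, 6), (3, 6), 4), ((0, 6), (4, 7), 3), ((0, 6), (5, 0), 1), ((0,
    6), (5, 9), 7), ((3, 7), (7, 4), 0), ((3, 7), (7, 6), 4), ((3, 7), (7, 8), 5), ((6, 0),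
    (1, 0), 1), ((6, 0), (1, 2), 2), ((7, 3), (9, 5), 0), ((7, 3), (9, 8), 5)]
  G := [[0, 0, 0x5191c1121134c1ee461a1c9111665811a8cc, 0x589111e113452ea41,
    0x381491e611192e681], [0, 0, 0, 0xe821c18ce116216c2ea41, 0x54a9411ce35c18a92e681], [0,
    0x61a1c61c1aa1c16e4a1c1661a1c1e618e8c, 0, 0x68a1c1e61a1c1e681, 0x61a4c1e61a1c1e681]]

noncomputable def n918 : Ent := ⟨e918, noF, [], [], []⟩

def c918 : PLift (Cov.check n918.C.D v918 = true) := ⟨by decide +kernel⟩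

def b918 : PLift (entF (fidx ts) 400 918 n918 = true) := ⟨by decide +kernel⟩

theorem g918 : GoodF (fidx ts) 400 918 := GoodF.ofV v918 n918 c918.down b918.down

/-- 485644:779 -/
noncomputable def e919 : SCfg where
  D := {
    a := 6
    L := 11
    kp := 8
    inn := [(0, 1), (1, 0), (1, 2), (1, 3), (2, 1), (2, 4), (3, 1), (3, 5), (4, 2), (5, 3)]
    mix := [(0, 0), (0, 1), (0, 2), (1, 0), (1, 2), (1, 3), (1, 4), (1, 5), (2, 3), (2, 4), (2, 6), (3,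
      4), (3, 5), (3, 7), (3, 8), (4, 4), (4, 6), (4, 9), (5, 5), (5, 8), (5, 10)]
    cl := [1, 5, 2, 0, 0, 0, 3, 6, 4, 8, 7]
    chq := [(0, 5), (5, 0), (6, 7), (7, 6)]
    rng := [(0, 1), (0, 5), (1, 0), (1, 2), (2, 1), (2, 3), (3, 2), (3, 6), (4, 7), (4, 9), (5, 0), (5,
      10), (6, 3), (6, 9), (7, 4), (7, 8), (8, 7), (8, 10), (9, 4), (9, 6), (10, 5), (10, 8)]
    lev := [] }
  links := [[1, 6, 7, 8], [6, 0, 8, 9, 2, 10, 3, 11], [10, 1, 9, 12, 4], [11, 1, 10, 13, 14, 5], [10, 2,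
    12, 15], [11, 3, 14, 16]]
  P := {
    a := 6
    N := 17
    nb := [450, 3917, 5650, 27682, 37892, 83976, 2179, 321, 643, 4358, 40990, 65642, 33300, 17416,
      73768, 5136, 18464]
    tri := [(0, 1, 6), (0, 1, 8), (0, 6, 7), (0, 7, 8), (1, 2, 9), (1, 2, 10), (1, 3, 10), (1, 3, 11),
      (1, 6, 11), (1, 8, 9), (2, 4, 10), (2, 4, 12), (2, 9, 12), (3, 5, 11), (3, 5, 14), (3, 10,
      13), (3, 13, 14), (4, 10, 15), (4, 12, 15), (5, 11, 16), (5, 14, 16)]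
    fin := [0, 1, 1, 3, 1, 3, 6, 0, 8, 1, 1, 1, 12, 3, 14, 15, 16]
    chd := [(0, 1), (3, 16)]
    steps := [(0, 7), (1, 2), (1, 4), (1, 9), (1, 10), (1, 11), (3, 5), (3, 13)] }
  rep := [1, 6, 8, 12, 14, 0, 3, 16, 15]

noncomputable def v919 : Cov.CovD where
  P := 3
  N := 6
  pl := [0, 2, 6, 8, 9]
  lev := [⟨[], [], [], [1, 2], [(1, 5, [0])]⟩,
    ⟨[], [(0, 0), (0, 5)], [(0, 0)], [1, 2], [(3, 0, [5]), (4, 0, [5]), (5, 0, [5])]⟩,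
    ⟨[(0, 1)], [(1, 0)], [(0, 0)], [3], [(3, 0, [5]), (4, 0, [5])]⟩,
    ⟨[(0, 1), (1, 2)], [(1, 0), (1, 6), (2, 0)], [(0, 0), (0, 6)], [4], [(4, 0, [5]), (5,
      0, [5]), (7, 6, [7])]⟩,
    ⟨[(1, 2)], [(1, 0), (2, 0), (3, 0)], [], [3, 8], [(4, 0, [5])]⟩,
    ⟨[(1, 3)], [(1, 0), (3, 0), (3, 6), (3, 7)], [(0, 7)], [4], [(5, 0, [5]), (10, 7,
      [6])]⟩]
  Ta := [((3, 2), 0, 2), ((3, 6), 0, 3), ((4, 7), 0, 6), ((4, 9), 0, 8), ((5, 0), 0, 1), ((5,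
    10), 0, 7)]
  Tb := [((0, 1, 5), 1, 5, 0), ((1, 0, 2), 5, 1, 2), ((2, 1, 3), 2, 5, 0), ((3, 2, 6), 0, 2, 3),
    ((4, 7, 9), 0, 6, 8), ((5, 0, 10), 0, 1, 7), ((6, 3, 9), 3, 0, 8), ((7, 4, 8), 6, 0, 4),
    ((8, 7, 10), 4, 6, 7), ((9, 4, 6), 8, 0, 3), ((10, 5, 8), 7, 0, 4)]
  Tc := []
  Td := [((0, 5), (3, 2), 2), ((0, 5), (3, 6), 3), ((0, 5), (4, 7), 6), ((0, 5), (4, 9), 8), ((0,
    5), (5, 0), 1), ((0, 5), (5, 10), 7), ((5, 0), (1, 0), 1), ((5, 0), (1, 2), 2), ((6, 7),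
    (7, 4), 0), ((6, 7), (7, 8), 4), ((7, 6), (10, 5), 0), ((7, 6), (10, 8), 4)]
  G := [[0, 0, 0x11916a15166318118ac1191631c1a3111ce8c, 0x11a12d51e656911c6ea41,
    0x53c9119ce11a3a51e681], [0, 0, 0, 0x63ca1c19ce1163a65c6ea41, 0x11c33c5cce31a1dac5ae681],
    [0, 0x61a1c1e61a1c1ea461a1c1ea14661c1a8cc, 0, 0xa1c1661861a1c1ee81, 0x61a1c1e61a1c1e681]]

noncomputable def n919 : Ent := ⟨e919, noF, [], [], [(15, 13, [1685356714993749094781261963711221120386310105559083432688072876033, 0])]⟩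

def c919 : PLift (Cov.check n919.C.D v919 = true) := ⟨by decide +kernel⟩

def b919 : PLift (entF (fidx ts) 400 919 n919 = true) := ⟨by decide +kernel⟩

theorem g919 : GoodF (fidx ts) 400 919 := GoodF.ofV v919 n919 c919.down b919.down

/-- 485644:780/1 -/
noncomputable def e920 : SCfg where
  D := {
    a := 6
    L := 10
    kp := 7
    inn := [(0, 1), (1, 0), (1, 2), (1, 3), (2, 1), (3, 1), (3, 4), (3, 5), (4, 3), (5, 3)]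
    mix := [(0, 0), (0, 1), (0, 2), (1, 0), (1, 2), (1, 3), (1, 4), (1, 5), (2, 3), (2, 4), (2, 6), (2,
      7), (3, 4), (3, 5), (3, 8), (4, 4), (4, 7), (4, 8), (5, 5), (5, 8), (5, 9)]
    cl := [1, 5, 2, 0, 0, 0, 6, 4, 3, 7]
    chq := [(0, 3), (0, 5), (3, 0), (5, 0)]
    rng := [(0, 1), (0, 5), (1, 0), (1, 2), (2, 1), (2, 3), (3, 2), (3, 6), (4, 7), (5, 0), (5, 9), (6,
      3), (6, 7), (7, 4), (7, 6), (7, 8), (8, 7), (8, 9), (9, 5), (9, 8)]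
    lev := [] }
  links := [[1, 6, 7, 8], [6, 0, 8, 9, 2, 10, 3, 11], [10, 1, 9, 12, 13], [11, 1, 10, 4, 14, 5], [14, 3,
    10, 13], [11, 3, 14, 15]]
  P := {
    a := 6
    N := 16
    nb := [450, 3917, 13826, 19506, 25608, 51208, 2179, 321, 643, 4358, 8222, 32874, 8708, 21524,
      41016, 18464]
    tri := [(0, 1, 6), (0, 1, 8), (0, 6, 7), (0, 7, 8), (1, 2, 9), (1, 2, 10), (1, 3, 10), (1, 3, 11),
      (1, 6, 11), (1, 8, 9), (2, 9, 12), (2, 10, 13), (2, 12, 13), (3, 4, 10), (3, 4, 14), (3, 5,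
      11), (3, 5, 14), (4, 10, 13), (4, 13, 14), (5, 11, 15), (5, 14, 15)]
    fin := [0, 0, 2, 2, 2, 2, 6, 0, 8, 2, 2, 2, 12, 13, 14, 15]
    chd := [(0, 2), (2, 14)]
    steps := [(0, 1), (0, 7), (2, 9), (2, 10), (2, 3), (2, 4), (2, 5), (2, 11)] }
  rep := [2, 6, 8, 14, 13, 0, 12, 15]

noncomputable def v920 : Cov.CovD where
  P := 3
  N := 5
  pl := [0, 2, 6, 7, 9]
  lev := [⟨[], [], [], [1, 2], [(1, 5, [0])]⟩,
    ⟨[], [(0, 0), (0, 5)], [(0, 0)], [1, 2], [(3, 0, [3, 5]), (4, 0, [3, 5]), (5, 0, [3,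
      5])]⟩,
    ⟨[(0, 1)], [(1, 0)], [(0, 0)], [4, 6], [(3, 0, [3, 5]), (4, 0, [3, 5])]⟩,
    ⟨[(0, 1), (1, 2)], [(1, 0), (1, 3), (2, 0)], [(0, 0), (0, 3)], [], [(4, 0, [3, 5]), (5,
      0, [3, 5]), (8, 3, [0])]⟩,
    ⟨[(1, 3)], [(1, 0), (2, 0), (3, 0), (3, 3)], [(0, 3)], [4], [(4, 0, [3, 5]), (8, 3,
      [0])]⟩,
    ⟨[(1, 3), (3, 4)], [(1, 0), (3, 0), (3, 3), (4, 3)], [(0, 3)], [7], [(5, 0, [3, 5]),
      (8, 3, [0])]⟩]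
  Ta := [((3, 2), 0, 2), ((3, 6), 0, 6), ((4, 7), 0, 4), ((5, 0), 0, 1), ((5, 9), 0, 7)]
  Tb := [((0, 1, 5), 1, 5, 0), ((1, 0, 2), 5, 1, 2), ((2, 1, 3), 2, 5, 0), ((3, 2, 6), 0, 2, 6),
    ((5, 0, 9), 0, 1, 7), ((6, 3, 7), 6, 0, 4), ((7, 4, 6), 4, 0, 6), ((7, 4, 8), 4, 0, 3),
    ((7, 6, 8), 4, 6, 3), ((8, 7, 9), 3, 4, 7), ((9, 5, 8), 7, 0, 3)]
  Tc := [(0, 3, 5)]
  Td := [((0, 3), (3, 2), 2), ((0, 3), (3, 6), 6), ((0, 3), (4, 7), 4), ((0, 3), (5, 0), 1), ((0,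
    3), (5, 9), 7), ((0, 5), (3, 2), 2), ((0, 5), (3, 6), 6), ((0, 5), (4, 7), 4), ((0, 5),
    (5, 0), 1), ((0, 5), (5, 9), 7), ((3, 0), (8, 7), 4), ((3, 0), (8, 9), 7), ((5, 0), (1,
    0), 1), ((5, 0), (1, 2), 2)]
  G := [[0, 0, 0x111161411a1111ce4111161111c11126e8c, 0x11a861164a11d2ae41,
    0xc81161164a1162ce81], [0, 0, 0, 0x34a9a6438656a11cd2aac1, 0x111ea8694a5a6c9c526e81], [0,
    0x48961ac161ac161ae4c1a16c1a16cc161a2cc, 0, 0xc8e16c1c236ae164a4c1,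
    0xc8e16a45a16c1c236e81]]

noncomputable def n920 : Ent := ⟨e920, noF, [], [], []⟩

def c920 : PLift (Cov.check n920.C.D v920 = true) := ⟨by decide +kernel⟩

def b920 : PLift (entF (fidx ts) 400 920 n920 = true) := ⟨by decide +kernel⟩

theorem g920 : GoodF (fidx ts) 400 920 := GoodF.ofV v920 n920 c920.down b920.down

/-- 485644:780 -/
noncomputable def e921 : SCfg where
  D := {
    a := 6
    L := 11
    kp := 8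
    inn := [(0, 1), (1, 0), (1, 2), (1, 3), (2, 1), (3, 1), (3, 4), (3, 5), (4, 3), (5, 3)]
    mix := [(0, 0), (0, 1), (0, 2), (1, 0), (1, 2), (1, 3), (1, 4), (1, 5), (2, 3), (2, 4), (2, 6), (2,
      7), (3, 4), (3, 5), (3, 8), (4, 4), (4, 8), (4, 9), (5, 5), (5, 8), (5, 10)]
    cl := [1, 4, 2, 0, 0, 0, 5, 6, 3, 7, 8]
    chq := [(0, 3), (0, 4), (3, 0), (4, 0)]
    rng := [(0, 1), (0, 5), (1, 0), (1, 2), (2, 1), (2, 3), (3, 2), (3, 6), (4, 7), (4, 9), (5, 0), (5,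
      10), (6, 3), (6, 7), (7, 4), (7, 6), (8, 9), (8, 10), (9, 4), (9, 8), (10, 5), (10, 8)]
    lev := [] }
  links := [[1, 6, 7, 8], [6, 0, 8, 9, 2, 10, 3, 11], [10, 1, 9, 12, 13], [11, 1, 10, 4, 14, 5], [14, 3,
    10, 15], [11, 3, 14, 16]]
  P := {
    a := 6
    N := 17
    nb := [450, 3917, 13826, 19506, 50184, 83976, 2179, 321, 643, 4358, 40990, 65642, 8708, 5124,
      98360, 17424, 18464]
    tri := [(0, 1, 6), (0, 1, 8), (0, 6, 7), (0, 7, 8), (1, 2, 9), (1, 2, 10), (1, 3, 10), (1, 3, 11),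
      (1, 6, 11), (1, 8, 9), (2, 9, 12), (2, 10, 13), (2, 12, 13), (3, 4, 10), (3, 4, 14), (3, 5,
      11), (3, 5, 14), (4, 10, 15), (4, 14, 15), (5, 11, 16), (5, 14, 16)]
    fin := [0, 0, 2, 2, 2, 2, 6, 0, 8, 2, 2, 2, 12, 13, 14, 15, 16]
    chd := [(0, 2), (2, 14)]
    steps := [(0, 1), (0, 7), (2, 9), (2, 10), (2, 3), (2, 4), (2, 5), (2, 11)] }
  rep := [2, 6, 8, 14, 0, 12, 13, 15, 16]

noncomputable def v921 : Cov.CovD where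
  P := 3
  N := 6
  pl := [0, 2, 6, 7, 9, 10]
  lev := [⟨[], [], [], [1, 2], [(1, 4, [0])]⟩,
    ⟨[], [(0, 0), (0, 4)], [(0, 0)], [1, 2], [(3, 0, [3, 4]), (4, 0, [3, 4]), (5, 0, [3,
      4])]⟩,
    ⟨[(0, 1)], [(1, 0)], [(0, 0)], [5, 6], [(3, 0, [3, 4]), (4, 0, [3, 4])]⟩,
    ⟨[(0, 1), (1, 2)], [(1, 0), (1, 3), (2, 0)], [(0, 0), (0, 3)], [], [(4, 0, [3, 4]), (5,
      0, [3, 4]), (8, 3, [0])]⟩,
    ⟨[(1, 3)], [(1, 0), (2, 0), (3, 0), (3, 3)], [(0, 3)], [7], [(4, 0, [3, 4]), (8, 3,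
      [0])]⟩,
    ⟨[(1, 3), (3, 4)], [(1, 0), (3, 0), (3, 3), (4, 3)], [(0, 3)], [8], [(5, 0, [3, 4]),
      (8, 3, [0])]⟩]
  Ta := [((3, 2), 0, 2), ((3, 6), 0, 5), ((4, 7), 0, 6), ((4, 9), 0, 7), ((5, 0), 0, 1), ((5,
    10), 0, 8)]
  Tb := [((0, 1, 5), 1, 4, 0), ((1, 0, 2), 4, 1, 2), ((2, 1, 3), 2, 4, 0), ((3, 2, 6), 0, 2, 5),
    ((4, 7, 9), 0, 6, 7), ((5, 0, 10), 0, 1, 8), ((6, 3, 7), 5, 0, 6), ((7, 4, 6), 6, 0, 5),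
    ((8, 9, 10), 3, 7, 8), ((9, 4, 8), 7, 0, 3), ((10, 5, 8), 8, 0, 3)]
  Tc := [(0, 3, 4)]
  Td := [((0, 3), (3, 2), 2), ((0, 3), (3, 6), 5), ((0, 3), (4, 7), 6), ((0, 3), (4, 9), 7), ((0,
    3), (5, 0), 1), ((0, 3), (5, 10), 8), ((0, 4), (3, 2), 2), ((0, 4), (3, 6), 5), ((0, 4),
    (4, 7), 6), ((0, 4), (4, 9), 7), ((0, 4), (5, 0), 1), ((0, 4), (5, 10), 8), ((3, 0), (8,
    9), 7), ((3, 0), (8, 10), 8), ((4, 0), (1, 0), 1), ((4, 0), (1, 2), 2)]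
  G := [[0, 0, 0x111161111a11116e4111161111c1111ce8c, 0xcbc116cbc116613a15ae81,
    0xaa1d116a19c136613a15ce81], [0, 0, 0, 0x53c19a6cbc11a6c3cc156a2c1,
    0x13c59a613ca9a6c9c15a6e81], [0, 0x6142c161ac161aa18ecc1a164c161ac161aacc, 0,
    0xaa4da16aa4da16a6c7a16e81, 0xcc9ca36ca4da16ac5aa96e81]]

noncomputable def n921 : Ent := ⟨e921, noF, [], [], [(13, 15, [1685356702439545624007900436039642273970977273354372543760003858433, 0])]⟩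

def c921 : PLift (Cov.check n921.C.D v921 = true) := ⟨by decide +kernel⟩

def b921 : PLift (entF (fidx ts) 400 921 n921 = true) := ⟨by decide +kernel⟩

theorem g921 : GoodF (fidx ts) 400 921 := GoodF.ofV v921 n921 c921.down b921.down

/-- 485644:781/1 -/
noncomputable def e922 : SCfg where
  D := {
    a := 6
    L := 10
    kp := 7
    inn := [(0, 1), (1, 0), (1, 2), (1, 3), (2, 1), (2, 5), (3, 1), (3, 4), (4, 3), (5, 2)]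
    mix := [(0, 0), (0, 1), (0, 2), (1, 0), (1, 2), (1, 3), (1, 4), (1, 5), (2, 3), (2, 4), (2, 6), (3,
      4), (3, 5), (3, 7), (3, 8), (4, 4), (4, 6), (4, 7), (5, 3), (5, 6), (5, 9)]
    cl := [1, 5, 2, 0, 0, 0, 3, 4, 6, 7]
    chq := [(0, 5), (3, 6), (5, 0), (6, 3)]
    rng := [(0, 1), (0, 5), (1, 0), (1, 2), (2, 1), (2, 3), (3, 2), (3, 9), (4, 6), (5, 0), (5, 8), (6,
      4), (6, 7), (6, 9), (7, 6), (7, 8), (8, 5), (8, 7), (9, 3), (9, 6)]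
    lev := [] }
  links := [[1, 6, 7, 8], [6, 0, 8, 9, 2, 10, 3, 11], [10, 1, 9, 5, 12], [11, 1, 10, 4, 13, 14], [13, 3,
    10, 12], [12, 2, 9, 15]]
  P := {
    a := 6
    N := 16
    nb := [450, 3917, 5666, 27666, 13320, 37380, 2179, 321, 643, 33062, 4126, 16458, 42036, 20504,
      10248, 4640]
    tri := [(0, 1, 6), (0, 1, 8), (0, 6, 7), (0, 7, 8), (1, 2, 9), (1, 2, 10), (1, 3, 10), (1, 3, 11),
      (1, 6, 11), (1, 8, 9), (2, 5, 9), (2, 5, 12), (2, 10, 12), (3, 4, 10), (3, 4, 13), (3, 11,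
      14), (3, 13, 14), (4, 10, 12), (4, 12, 13), (5, 9, 15), (5, 12, 15)]
    fin := [0, 1, 1, 3, 3, 1, 6, 0, 8, 1, 1, 1, 3, 13, 14, 15]
    chd := [(0, 1), (3, 14)]
    steps := [(0, 7), (1, 2), (1, 5), (1, 9), (1, 10), (1, 11), (3, 4), (3, 12)] }
  rep := [1, 6, 8, 3, 13, 0, 14, 15]

noncomputable def v922 : Cov.CovD where
  P := 3
  N := 5
  pl := [0, 2, 7, 9]
  lev := [⟨[], [], [], [1, 2], [(1, 5, [0])]⟩,
    ⟨[], [(0, 0), (0, 5)], [(0, 0)], [1, 2], [(3, 0, [5]), (4, 0, [5]), (5, 0, [5])]⟩,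
    ⟨[(0, 1)], [(1, 0), (1, 3)], [(0, 0), (0, 3)], [], [(3, 0, [5]), (4, 0, [5]), (6, 3,
      [6])]⟩,
    ⟨[(0, 1), (1, 2)], [(1, 0), (1, 6), (2, 0)], [(0, 0), (0, 6)], [4], [(4, 0, [5]), (5,
      0, [5]), (8, 6, [3])]⟩,
    ⟨[(1, 3)], [(1, 0), (2, 0), (2, 3), (3, 0), (3, 3), (3, 6)], [(0, 3)], [4], [(4, 0,
      [5]), (6, 3, [6])]⟩,
    ⟨[(1, 2)], [(1, 0), (2, 0), (2, 3), (4, 3)], [(0, 3)], [7], [(3, 0, [5]), (6, 3, [6])]⟩]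
  Ta := [((3, 2), 0, 2), ((3, 9), 0, 7), ((4, 6), 0, 3), ((5, 0), 0, 1), ((5, 8), 0, 6)]
  Tb := [((0, 1, 5), 1, 5, 0), ((1, 0, 2), 5, 1, 2), ((2, 1, 3), 2, 5, 0), ((3, 2, 9), 0, 2, 7),
    ((5, 0, 8), 0, 1, 6), ((6, 4, 7), 3, 0, 4), ((6, 4, 9), 3, 0, 7), ((6, 7, 9), 3, 4, 7),
    ((7, 6, 8), 4, 3, 6), ((8, 5, 7), 6, 0, 4), ((9, 3, 6), 7, 0, 3)]
  Tc := []
  Td := [((0, 5), (3, 2), 2), ((0, 5), (3, 9), 7), ((0, 5), (4, 6), 3), ((0, 5), (5, 0), 1), ((0,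
    5), (5, 8), 6), ((3, 6), (6, 4), 0), ((3, 6), (6, 7), 4), ((3, 6), (6, 9), 7), ((5, 0),
    (1, 0), 1), ((5, 0), (1, 2), 2), ((6, 3), (8, 5), 0), ((6, 3), (8, 7), 4)]
  G := [[0, 0, 0xe8c1ccce6656162ea461c44c5e2a3a266a888cc, 0xc8e8c1e61e262ea41,
    0xe4c4c1ee2a1a2e681], [0, 0, 0, 0xd261811ce92161ed2e681, 0xd661411ce12daaa2e681], [0,
    0x181261411a1111ce41111115e121112e68c, 0, 0x1811119e1161112ea41, 0x141411e121118e681]]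

noncomputable def n922 : Ent := ⟨e922, noF, [], [], []⟩

def c922 : PLift (Cov.check n922.C.D v922 = true) := ⟨by decide +kernel⟩

def b922 : PLift (entF (fidx ts) 400 922 n922 = true) := ⟨by decide +kernel⟩

theorem g922 : GoodF (fidx ts) 400 922 := GoodF.ofV v922 n922 c922.down b922.down

/-- 485644:781 -/
noncomputable def e923 : SCfg where
  D := {
    a := 6
    L := 11
    kp := 8
    inn := [(0, 1), (1, 0), (1, 2), (1, 3), (2, 1), (2, 5), (3, 1), (3, 4), (4, 3), (5, 2)]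
    mix := [(0, 0), (0, 1), (0, 2), (1, 0), (1, 2), (1, 3), (1, 4), (1, 5), (2, 3), (2, 4), (2, 6), (3,
      4), (3, 5), (3, 7), (3, 8), (4, 4), (4, 7), (4, 9), (5, 3), (5, 6), (5, 10)]
    cl := [1, 5, 2, 0, 0, 0, 3, 4, 6, 7, 8]
    chq := [(0, 5), (5, 0), (6, 7), (7, 6)]
    rng := [(0, 1), (0, 5), (1, 0), (1, 2), (2, 1), (2, 3), (3, 2), (3, 10), (4, 6), (4, 9), (5, 0),
      (5, 8), (6, 4), (6, 10), (7, 8), (7, 9), (8, 5), (8, 7), (9, 4), (9, 7), (10, 3), (10, 6)]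
    lev := [] }
  links := [[1, 6, 7, 8], [6, 0, 8, 9, 2, 10, 3, 11], [10, 1, 9, 5, 12], [11, 1, 10, 4, 13, 14], [13, 3,
    10, 15], [12, 2, 9, 16]]
  P := {
    a := 6
    N := 17
    nb := [450, 3917, 5666, 27666, 41992, 70148, 2179, 321, 643, 65830, 36894, 16458, 66596, 49176,
      10248, 9232, 4640]
    tri := [(0, 1, 6), (0, 1, 8), (0, 6, 7), (0, 7, 8), (1, 2, 9), (1, 2, 10), (1, 3, 10), (1, 3, 11),
      (1, 6, 11), (1, 8, 9), (2, 5, 9), (2, 5, 12), (2, 10, 12), (3, 4, 10), (3, 4, 13), (3, 11,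
      14), (3, 13, 14), (4, 10, 15), (4, 13, 15), (5, 9, 16), (5, 12, 16)]
    fin := [0, 1, 1, 3, 3, 1, 6, 0, 8, 1, 1, 1, 12, 13, 14, 3, 16]
    chd := [(0, 1), (14, 3)]
    steps := [(0, 7), (1, 2), (1, 5), (1, 9), (1, 10), (1, 11), (3, 4), (3, 15)] }
  rep := [1, 6, 8, 12, 13, 0, 14, 3, 16]

noncomputable def v923 : Cov.CovD where
  P := 3
  N := 6
  pl := [0, 2, 6, 7, 10]
  lev := [⟨[], [], [], [1, 2], [(1, 5, [0])]⟩,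
    ⟨[], [(0, 0), (0, 5)], [(0, 0)], [1, 2], [(3, 0, [5]), (4, 0, [5]), (5, 0, [5])]⟩,
    ⟨[(0, 1)], [(1, 0)], [(0, 0)], [3], [(3, 0, [5]), (4, 0, [5])]⟩,
    ⟨[(0, 1), (1, 2)], [(1, 0), (1, 6), (2, 0)], [(0, 0), (0, 6)], [4], [(4, 0, [5]), (5,
      0, [5]), (8, 6, [7])]⟩,
    ⟨[(1, 3)], [(1, 0), (2, 0), (3, 0), (3, 6), (3, 7)], [(0, 7)], [4], [(4, 0, [5]), (9,
      7, [6])]⟩,
    ⟨[(1, 2)], [(1, 0), (2, 0)], [], [3, 8], [(3, 0, [5])]⟩]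
  Ta := [((3, 2), 0, 2), ((3, 10), 0, 8), ((4, 6), 0, 3), ((4, 9), 0, 7), ((5, 0), 0, 1), ((5,
    8), 0, 6)]
  Tb := [((0, 1, 5), 1, 5, 0), ((1, 0, 2), 5, 1, 2), ((2, 1, 3), 2, 5, 0), ((3, 2, 10), 0, 2, 8),
    ((4, 6, 9), 0, 3, 7), ((5, 0, 8), 0, 1, 6), ((6, 4, 10), 3, 0, 8), ((7, 8, 9), 4, 6, 7),
    ((8, 5, 7), 6, 0, 4), ((9, 4, 7), 7, 0, 4), ((10, 3, 6), 8, 0, 3)]
  Tc := []
  Td := [((0, 5), (3, 2), 2), ((0, 5), (3, 10), 8), ((0, 5), (4, 6), 3), ((0, 5), (4, 9), 7),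
    ((0, 5), (5, 0), 1), ((0, 5), (5, 8), 6), ((5, 0), (1, 0), 1), ((5, 0), (1, 2), 2), ((6,
    7), (8, 5), 0), ((6, 7), (8, 7), 4), ((7, 6), (9, 4), 0), ((7, 6), (9, 7), 4)]
  G := [[0, 0, 0xcc92e63ea566cc6c1c618accc6cc9c1eaa3a1aace68c, 0xcc5ccac1e6166366cea41,
    0xcc3c1ccceaa5aaaa1e681], [0, 0, 0, 0x13a51c615665a36cea368e81,
    0x1c6ccac1cea1611a17ce681], [0, 0x1811641112115e11511cac11a1161111ca11611ce8c, 0,
    0x1161111ce11113115ea41, 0x11511911e11311119e681]]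

noncomputable def n923 : Ent := ⟨e923, noF, [], [], [(12, 15, [1685356702439545624007900436039642273970977273354372543760003866625, 0])]⟩

def c923 : PLift (Cov.check n923.C.D v923 = true) := ⟨by decide +kernel⟩

def b923 : PLift (entF (fidx ts) 400 923 n923 = true) := ⟨by decide +kernel⟩

theorem g923 : GoodF (fidx ts) 400 923 := GoodF.ofV v923 n923 c923.down b923.down

/-- 485646:782/1 -/
noncomputable def e924 : SCfg where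
  D := {
    a := 6
    L := 10
    kp := 7
    inn := [(0, 1), (1, 0), (1, 2), (1, 3), (1, 5), (2, 1), (3, 1), (3, 4), (3, 5), (4, 3), (4, 5), (5,
      1), (5, 3), (5, 4)]
    mix := [(0, 0), (0, 1), (0, 2), (1, 0), (1, 2), (1, 3), (1, 4), (2, 3), (2, 4), (2, 5), (2, 6), (3,
      4), (3, 6), (3, 7), (4, 7), (4, 8), (5, 0), (5, 8), (5, 9)]
    cl := [0, 6, 1, 0, 0, 7, 2, 3, 4, 5]
    chq := [(0, 3), (3, 0), (3, 5), (5, 3)]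
    rng := [(0, 1), (0, 9), (1, 0), (1, 2), (2, 1), (2, 3), (3, 2), (3, 5), (4, 6), (5, 3), (5, 6), (6,
      4), (6, 5), (6, 7), (7, 6), (7, 8), (8, 7), (8, 9), (9, 0), (9, 8)]
    lev := [] }
  links := [[1, 6, 7, 8], [6, 0, 8, 9, 2, 10, 3, 5], [10, 1, 9, 11, 12], [5, 1, 10, 12, 13, 4], [5, 3,
    13, 14], [6, 1, 3, 4, 14, 15]]
  P := {
    a := 6
    N := 16
    nb := [450, 1901, 7682, 13362, 24616, 49242, 32931, 321, 643, 2310, 4110, 4612, 11276, 20504,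
      41008, 16480]
    tri := [(0, 1, 6), (0, 1, 8), (0, 6, 7), (0, 7, 8), (1, 2, 9), (1, 2, 10), (1, 3, 5), (1, 3, 10),
      (1, 5, 6), (1, 8, 9), (2, 9, 11), (2, 10, 12), (2, 11, 12), (3, 4, 5), (3, 4, 13), (3, 10,
      12), (3, 12, 13), (4, 5, 14), (4, 13, 14), (5, 6, 15), (5, 14, 15)]
    fin := [0, 0, 0, 0, 4, 4, 0, 7, 8, 0, 0, 11, 12, 4, 14, 15]
    chd := [(0, 4), (4, 15)]
    steps := [(0, 1), (0, 2), (0, 6), (0, 9), (0, 10), (0, 3), (4, 5), (4, 13)] }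
  rep := [0, 8, 12, 4, 14, 15, 7, 11]

noncomputable def v924 : Cov.CovD where
  P := 3
  N := 5
  pl := [1, 2, 5, 6, 8]
  lev := [⟨[], [], [], [1, 6], [(0, 0, [3])]⟩,
    ⟨[], [(0, 0)], [(0, 0)], [1], [(0, 0, [3]), (3, 0, [3]), (4, 0, [3])]⟩,
    ⟨[(0, 1)], [(1, 0)], [(0, 0)], [2, 7], [(3, 0, [3]), (4, 0, [3])]⟩,
    ⟨[(0, 1), (1, 2)], [(1, 0), (1, 3), (2, 0)], [(0, 3)], [2], [(4, 0, [3]), (7, 3, [0,
      5])]⟩,
    ⟨[(1, 3)], [(3, 0), (3, 3)], [], [4], [(7, 3, [0, 5])]⟩,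
    ⟨[(0, 1), (1, 2), (1, 3), (1, 4), (3, 4)], [(0, 0), (1, 0), (1, 5), (3, 0), (3, 3), (3,
      5), (4, 0), (4, 3), (4, 5)], [(0, 5)], [4], [(0, 0, [3]), (9, 5, [3])]⟩]
  Ta := [((0, 1), 0, 6), ((0, 9), 0, 5), ((3, 2), 0, 1), ((3, 5), 0, 7), ((4, 6), 0, 2)]
  Tb := [((0, 1, 9), 0, 6, 5), ((1, 0, 2), 6, 0, 1), ((2, 1, 3), 1, 6, 0), ((3, 2, 5), 0, 1, 7),
    ((5, 3, 6), 7, 0, 2), ((6, 4, 5), 2, 0, 7), ((6, 4, 7), 2, 0, 3), ((6, 5, 7), 2, 7, 3),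
    ((7, 6, 8), 3, 2, 4), ((8, 7, 9), 4, 3, 5), ((9, 0, 8), 5, 0, 4)]
  Tc := [(3, 0, 5)]
  Td := [((0, 3), (0, 1), 6), ((0, 3), (0, 9), 5), ((0, 3), (3, 2), 1), ((0, 3), (3, 5), 7), ((0,
    3), (4, 6), 2), ((3, 0), (7, 6), 2), ((3, 0), (7, 8), 4), ((3, 5), (7, 6), 2), ((3, 5),
    (7, 8), 4), ((5, 3), (9, 0), 0), ((5, 3), (9, 8), 4)]
  G := [[0, 0, 0, 0x16944a54e1ac698a61cc16944a5412e5a2dc8a618cc,
    0xe16ac34e98e69a46162c3e16ac3a818438cc], [0, 0xac61146ca5c2624e1146ca5c81881c84e, 0,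
    0x2461e16ca5ce181c8c1, 0xe1ac69e16ac3a41], [0, 0, 0x612e9c2e6ac4e36681,
    0x624243ae5cc6e981c828cc1, 0x6a9ac5a2e98e3aa41]]

noncomputable def n924 : Ent := ⟨e924, noF, [], [], []⟩

def c924 : PLift (Cov.check n924.C.D v924 = true) := ⟨by decide +kernel⟩

def b924 : PLift (entF (fidx ts) 400 924 n924 = true) := ⟨by decide +kernel⟩

theorem g924 : GoodF (fidx ts) 400 924 := GoodF.ofV v924 n924 c924.down b924.down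

/-- 485646:782 -/
noncomputable def e925 : SCfg where
  D := {
    a := 6
    L := 11
    kp := 8
    inn := [(0, 1), (1, 0), (1, 2), (1, 3), (1, 5), (2, 1), (3, 1), (3, 4), (3, 5), (4, 3), (4, 5), (5,
      1), (5, 3), (5, 4)]
    mix := [(0, 0), (0, 1), (0, 2), (1, 0), (1, 2), (1, 3), (1, 4), (2, 3), (2, 4), (2, 5), (2, 6), (3,
      4), (3, 7), (3, 8), (4, 8), (4, 9), (5, 0), (5, 9), (5, 10)]
    cl := [0, 5, 2, 0, 0, 6, 7, 8, 1, 3, 4]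
    chq := [(0, 1), (1, 0), (1, 4), (4, 1)]
    rng := [(0, 1), (0, 10), (1, 0), (1, 2), (2, 1), (2, 3), (3, 2), (3, 5), (4, 6), (4, 7), (5, 3),
      (5, 6), (6, 4), (6, 5), (7, 4), (7, 8), (8, 7), (8, 9), (9, 8), (9, 10), (10, 0), (10, 9)]
    lev := [] }
  links := [[1, 6, 7, 8], [6, 0, 8, 9, 2, 10, 3, 5], [10, 1, 9, 11, 12], [5, 1, 10, 13, 14, 4], [5, 3,
    14, 15], [6, 1, 3, 4, 15, 16]]
  P := {
    a := 6
    N := 17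
    nb := [450, 1901, 7682, 25650, 49192, 98394, 65699, 321, 643, 2310, 12302, 4612, 3076, 17416,
      40984, 81968, 32864]
    tri := [(0, 1, 6), (0, 1, 8), (0, 6, 7), (0, 7, 8), (1, 2, 9), (1, 2, 10), (1, 3, 5), (1, 3, 10),
      (1, 5, 6), (1, 8, 9), (2, 9, 11), (2, 10, 12), (2, 11, 12), (3, 4, 5), (3, 4, 14), (3, 10,
      13), (3, 13, 14), (4, 5, 15), (4, 14, 15), (5, 6, 16), (5, 15, 16)]
    fin := [0, 0, 0, 0, 4, 4, 0, 7, 8, 0, 0, 11, 12, 13, 4, 15, 16]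
    chd := [(0, 4), (4, 16)]
    steps := [(0, 1), (0, 2), (0, 3), (0, 6), (0, 9), (0, 10), (4, 5), (4, 14)] }
  rep := [0, 4, 8, 15, 16, 7, 11, 12, 13]

noncomputable def v925 : Cov.CovD where
  P := 3
  N := 6
  pl := [1, 2, 5, 6, 7, 9]
  lev := [⟨[], [], [], [2, 5], [(0, 0, [1])]⟩,
    ⟨[], [(0, 0)], [(0, 0)], [2], [(0, 0, [1]), (3, 0, [1]), (4, 0, [1])]⟩,
    ⟨[(0, 1)], [(1, 0)], [(0, 0)], [6, 7], [(3, 0, [1]), (4, 0, [1])]⟩,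
    ⟨[(0, 1), (1, 2)], [(1, 0), (1, 1), (2, 0)], [(0, 1)], [8], [(4, 0, [1]), (8, 1, [0,
      4])]⟩,
    ⟨[(1, 3)], [(3, 0), (3, 1)], [], [3], [(8, 1, [0, 4])]⟩,
    ⟨[(0, 1), (1, 2), (1, 3), (1, 4), (3, 4)], [(0, 0), (1, 0), (1, 4), (3, 0), (3, 1), (3,
      4), (4, 0), (4, 1), (4, 4)], [(0, 4)], [3], [(0, 0, [1]), (10, 4, [1])]⟩]
  Ta := [((0, 1), 0, 5), ((0, 10), 0, 4), ((3, 2), 0, 2), ((3, 5), 0, 6), ((4, 6), 0, 7), ((4,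
    7), 0, 8)]
  Tb := [((0, 1, 10), 0, 5, 4), ((1, 0, 2), 5, 0, 2), ((2, 1, 3), 2, 5, 0), ((3, 2, 5), 0, 2, 6),
    ((4, 6, 7), 0, 7, 8), ((5, 3, 6), 6, 0, 7), ((6, 4, 5), 7, 0, 6), ((7, 4, 8), 8, 0, 1),
    ((8, 7, 9), 1, 8, 3), ((9, 8, 10), 3, 1, 4), ((10, 0, 9), 4, 0, 3)]
  Tc := [(1, 0, 4)]
  Td := [((0, 1), (0, 1), 5), ((0, 1), (0, 10), 4), ((0, 1), (3, 2), 2), ((0, 1), (3, 5), 6),
    ((0, 1), (4, 6), 7), ((0, 1), (4, 7), 8), ((1, 0), (8, 7), 8), ((1, 0), (8, 9), 3), ((1,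
    4), (8, 7), 8), ((1, 4), (8, 9), 3), ((4, 1), (10, 0), 0), ((4, 1), (10, 9), 3)]
  G := [[0, 0x41e1c42c321c1e2288ae1869aec1, 0, 0x4816416e2c12ac1a81ec26c12ec12ec1e8818cc,
    0x22c12a6c1a6c184c1ea26c12ec12ec1e8818aa], [0,
    0x141218e116116a11a11c6e411a1166121418e121418ee8c,
    0xe2c1a2c16ac1e481466412ec12ec1ea818ac, 0x2ec12ec16e2c18c1, 0x6ac16ac16a6c18a1], [0,
    0x612e1e166181e1eee188a8c1, 0, 0x26544256acc612e9ce2e588c848a48ec1,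
    0x2144252e5c2121ce6a5c8c848c4c8cea1]]

noncomputable def n925 : Ent := ⟨e925, noF, [], [], [(12, 13, [1685382419725355503238989871268909155780284044704628512909403209729, 0])]⟩

def c925 : PLift (Cov.check n925.C.D v925 = true) := ⟨by decide +kernel⟩

def b925 : PLift (entF (fidx ts) 400 925 n925 = true) := ⟨by decide +kernel⟩

theorem g925 : GoodF (fidx ts) 400 925 := GoodF.ofV v925 n925 c925.down b925.down

/-- 485644:783/1 -/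
noncomputable def e926 : SCfg where
  D := {
    a := 6
    L := 10
    kp := 7
    inn := [(0, 1), (1, 0), (1, 2), (1, 3), (2, 1), (2, 5), (3, 1), (3, 4), (4, 3), (5, 2)]
    mix := [(0, 0), (0, 1), (0, 2), (1, 0), (1, 2), (1, 3), (1, 4), (1, 5), (2, 3), (2, 4), (2, 6), (3,
      4), (3, 5), (3, 6), (3, 7), (4, 5), (4, 7), (4, 8), (5, 3), (5, 6), (5, 9)]
    cl := [1, 5, 2, 0, 0, 0, 3, 4, 6, 7]
    chq := [(0, 5), (3, 6), (5, 0), (6, 3)]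
    rng := [(0, 1), (0, 5), (1, 0), (1, 2), (2, 1), (2, 3), (3, 2), (3, 9), (4, 6), (5, 0), (5, 8), (6,
      4), (6, 7), (6, 9), (7, 6), (7, 8), (8, 5), (8, 7), (9, 3), (9, 6)]
    lev := [] }
  links := [[1, 6, 7, 8], [6, 0, 8, 9, 2, 10, 3, 11], [10, 1, 9, 5, 12], [11, 1, 10, 12, 13, 4], [11, 3,
    13, 14], [12, 2, 9, 15]]
  P := {
    a := 6
    N := 16
    nb := [450, 3917, 5666, 15378, 26632, 37380, 2179, 321, 643, 33062, 4110, 16474, 42028, 20504,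
      10256, 4640]
    tri := [(0, 1, 6), (0, 1, 8), (0, 6, 7), (0, 7, 8), (1, 2, 9), (1, 2, 10), (1, 3, 10), (1, 3, 11),
      (1, 6, 11), (1, 8, 9), (2, 5, 9), (2, 5, 12), (2, 10, 12), (3, 4, 11), (3, 4, 13), (3, 10,
      12), (3, 12, 13), (4, 11, 14), (4, 13, 14), (5, 9, 15), (5, 12, 15)]
    fin := [0, 1, 1, 3, 3, 1, 6, 0, 8, 1, 1, 1, 3, 13, 14, 15]
    chd := [(0, 1), (3, 14)]
    steps := [(0, 7), (1, 2), (1, 5), (1, 9), (1, 10), (1, 11), (3, 4), (3, 12)] }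
  rep := [1, 6, 8, 3, 13, 0, 14, 15]

noncomputable def v926 : Cov.CovD where
  P := 3
  N := 5
  pl := [0, 2, 7, 9]
  lev := [⟨[], [], [], [1, 2], [(1, 5, [0])]⟩,
    ⟨[], [(0, 0), (0, 5)], [(0, 0)], [1, 2], [(3, 0, [5]), (4, 0, [5]), (5, 0, [5])]⟩,
    ⟨[(0, 1)], [(1, 0), (1, 3)], [(0, 0), (0, 3)], [], [(3, 0, [5]), (4, 0, [5]), (6, 3,
      [6])]⟩,
    ⟨[(0, 1), (1, 2)], [(1, 0), (1, 3), (2, 0), (2, 3)], [(0, 0), (0, 3)], [4], [(4, 0,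
      [5]), (5, 0, [5]), (6, 3, [6])]⟩,
    ⟨[(1, 3)], [(1, 0), (3, 0), (3, 3), (3, 6)], [(0, 6)], [4], [(5, 0, [5]), (8, 6, [3])]⟩,
    ⟨[(1, 2)], [(1, 0), (2, 0), (2, 3), (3, 3)], [(0, 3)], [7], [(3, 0, [5]), (6, 3, [6])]⟩]
  Ta := [((3, 2), 0, 2), ((3, 9), 0, 7), ((4, 6), 0, 3), ((5, 0), 0, 1), ((5, 8), 0, 6)]
  Tb := [((0, 1, 5), 1, 5, 0), ((1, 0, 2), 5, 1, 2), ((2, 1, 3), 2, 5, 0), ((3, 2, 9), 0, 2, 7),
    ((5, 0, 8), 0, 1, 6), ((6, 4, 7), 3, 0, 4), ((6, 4, 9), 3, 0, 7), ((6, 7, 9), 3, 4, 7),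
    ((7, 6, 8), 4, 3, 6), ((8, 5, 7), 6, 0, 4), ((9, 3, 6), 7, 0, 3)]
  Tc := []
  Td := [((0, 5), (3, 2), 2), ((0, 5), (3, 9), 7), ((0, 5), (4, 6), 3), ((0, 5), (5, 0), 1), ((0,
    5), (5, 8), 6), ((3, 6), (6, 4), 0), ((3, 6), (6, 7), 4), ((3, 6), (6, 9), 7), ((5, 0),
    (1, 0), 1), ((5, 0), (1, 2), 2), ((6, 3), (8, 5), 0), ((6, 3), (8, 7), 4)]
  G := [[0, 0, 0x6ca6164e1a4a8cc2e1ca46a9a68c, 0xe1c2a4e68616a41, 0xc2e1ca46a9a681], [0, 0, 0,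
    0xc111ac1471a681, 0x1271ca111ca681], [0, 0x111e1864111e14a8c11a44116811c2acc, 0,
    0x11a44116811c2ac1, 0x12111ec14111ea681]]

noncomputable def n926 : Ent := ⟨e926, noF, [], [], []⟩

def c926 : PLift (Cov.check n926.C.D v926 = true) := ⟨by decide +kernel⟩

def b926 : PLift (entF (fidx ts) 400 926 n926 = true) := ⟨by decide +kernel⟩

theorem g926 : GoodF (fidx ts) 400 926 := GoodF.ofV v926 n926 c926.down b926.down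

/-- 485644:783 -/
noncomputable def e927 : SCfg where
  D := {
    a := 6
    L := 11
    kp := 8
    inn := [(0, 1), (1, 0), (1, 2), (1, 3), (2, 1), (2, 5), (3, 1), (3, 4), (4, 3), (5, 2)]
    mix := [(0, 0), (0, 1), (0, 2), (1, 0), (1, 2), (1, 3), (1, 4), (1, 5), (2, 3), (2, 4), (2, 6), (3,
      4), (3, 5), (3, 7), (3, 8), (4, 5), (4, 8), (4, 9), (5, 3), (5, 6), (5, 10)]
    cl := [1, 5, 2, 0, 0, 0, 3, 6, 4, 7, 8]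
    chq := [(0, 5), (5, 0), (6, 7), (7, 6)]
    rng := [(0, 1), (0, 5), (1, 0), (1, 2), (2, 1), (2, 3), (3, 2), (3, 10), (4, 6), (4, 7), (5, 0),
      (5, 9), (6, 4), (6, 10), (7, 4), (7, 8), (8, 7), (8, 9), (9, 5), (9, 8), (10, 3), (10, 6)]
    lev := [] }
  links := [[1, 6, 7, 8], [6, 0, 8, 9, 2, 10, 3, 11], [10, 1, 9, 5, 12], [11, 1, 10, 13, 14, 4], [11, 3,
    14, 15], [12, 2, 9, 16]]
  P := {
    a := 6
    N := 17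
    nb := [450, 3917, 5666, 27666, 51208, 70148, 2179, 321, 643, 65830, 12302, 32858, 66596, 17416,
      40984, 18448, 4640]
    tri := [(0, 1, 6), (0, 1, 8), (0, 6, 7), (0, 7, 8), (1, 2, 9), (1, 2, 10), (1, 3, 10), (1, 3, 11),
      (1, 6, 11), (1, 8, 9), (2, 5, 9), (2, 5, 12), (2, 10, 12), (3, 4, 11), (3, 4, 14), (3, 10,
      13), (3, 13, 14), (4, 11, 15), (4, 14, 15), (5, 9, 16), (5, 12, 16)]
    fin := [0, 1, 1, 3, 3, 1, 6, 0, 8, 1, 1, 1, 12, 3, 14, 15, 16]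
    chd := [(0, 1), (3, 15)]
    steps := [(0, 7), (1, 2), (1, 5), (1, 9), (1, 10), (1, 11), (3, 4), (3, 13)] }
  rep := [1, 6, 8, 12, 14, 0, 3, 15, 16]

noncomputable def v927 : Cov.CovD where
  P := 3
  N := 6
  pl := [0, 2, 6, 8, 10]
  lev := [⟨[], [], [], [1, 2], [(1, 5, [0])]⟩,
    ⟨[], [(0, 0), (0, 5)], [(0, 0)], [1, 2], [(3, 0, [5]), (4, 0, [5]), (5, 0, [5])]⟩,
    ⟨[(0, 1)], [(1, 0)], [(0, 0)], [3], [(3, 0, [5]), (4, 0, [5])]⟩,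
    ⟨[(0, 1), (1, 2)], [(1, 0), (1, 6), (2, 0)], [(0, 0), (0, 6)], [4], [(4, 0, [5]), (5,
      0, [5]), (7, 6, [7])]⟩,
    ⟨[(1, 3)], [(1, 0), (3, 0), (3, 6), (3, 7)], [(0, 7)], [4], [(5, 0, [5]), (9, 7, [6])]⟩,
    ⟨[(1, 2)], [(1, 0), (2, 0)], [], [3, 8], [(3, 0, [5])]⟩]
  Ta := [((3, 2), 0, 2), ((3, 10), 0, 8), ((4, 6), 0, 3), ((4, 7), 0, 6), ((5, 0), 0, 1), ((5,
    9), 0, 7)]
  Tb := [((0, 1, 5), 1, 5, 0), ((1, 0, 2), 5, 1, 2), ((2, 1, 3), 2, 5, 0), ((3, 2, 10), 0, 2, 8),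
    ((4, 6, 7), 0, 3, 6), ((5, 0, 9), 0, 1, 7), ((6, 4, 10), 3, 0, 8), ((7, 4, 8), 6, 0, 4),
    ((8, 7, 9), 4, 6, 7), ((9, 5, 8), 7, 0, 4), ((10, 3, 6), 8, 0, 3)]
  Tc := []
  Td := [((0, 5), (3, 2), 2), ((0, 5), (3, 10), 8), ((0, 5), (4, 6), 3), ((0, 5), (4, 7), 6),
    ((0, 5), (5, 0), 1), ((0, 5), (5, 9), 7), ((5, 0), (1, 0), 1), ((5, 0), (1, 2), 2), ((6,
    7), (7, 4), 0), ((6, 7), (7, 8), 4), ((7, 6), (9, 5), 0), ((7, 6), (9, 8), 4)]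
  G := [[0, 0, 0xcc92e63ea566cc6c1c618accc6cc9c1eaa3a1aace68c, 0xcc5ccac1e6166366cea41,
    0xcc3c1ccceaa5aaaa1e681], [0, 0, 0, 0x911cacb5ea551a911e681, 0x1161c9c1ea1a13a15e681],
    [0, 0x11a411611ca11611a11cee411a11c611611ac11611cae8c, 0, 0x11a411611ca11611a11cee41,
    0x11611a11ce11611a11ce681]]

noncomputable def n927 : Ent := ⟨e927, noF, [], [], [(12, 13, [1685382419725355503238989871268909155780284044704628512909403217921, 0])]⟩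

def c927 : PLift (Cov.check n927.C.D v927 = true) := ⟨by decide +kernel⟩

def b927 : PLift (entF (fidx ts) 400 927 n927 = true) := ⟨by decide +kernel⟩

theorem g927 : GoodF (fidx ts) 400 927 := GoodF.ofV v927 n927 c927.down b927.down

/-- 485464:784/2 -/
noncomputable def e928 : SCfg where
  D := {
    a := 6
    L := 9
    kp := 6
    inn := [(0, 1), (1, 0), (1, 2), (1, 4), (2, 1), (2, 3), (3, 2), (4, 1), (4, 5), (5, 4)]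
    mix := [(0, 0), (0, 1), (0, 2), (1, 0), (1, 2), (1, 3), (1, 4), (1, 5), (2, 3), (2, 4), (2, 6), (3,
      4), (3, 6), (3, 7), (4, 0), (4, 5), (4, 7), (4, 8), (5, 6), (5, 7), (5, 8)]
    cl := [0, 6, 2, 1, 1, 0, 3, 4, 5]
    chq := [(0, 3), (1, 6), (3, 0), (6, 1)]
    rng := [(0, 1), (0, 8), (1, 0), (1, 2), (2, 1), (2, 3), (3, 2), (3, 6), (4, 5), (4, 7), (5, 4), (5,
      7), (6, 3), (6, 7), (6, 8), (7, 4), (7, 5), (7, 6), (8, 0), (8, 6)]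
    lev := [] }
  links := [[1, 6, 7, 8], [6, 0, 8, 9, 2, 10, 11, 4], [10, 1, 9, 12, 3], [10, 2, 12, 13], [6, 1, 11, 13,
    5, 14], [14, 4, 13, 12]]
  P := {
    a := 6
    N := 15
    nb := [450, 3925, 5642, 13316, 26722, 28688, 16531, 321, 643, 4358, 10254, 9234, 25132, 7224,
      4208]
    tri := [(0, 1, 6), (0, 1, 8), (0, 6, 7), (0, 7, 8), (1, 2, 9), (1, 2, 10), (1, 4, 6), (1, 4, 11),
      (1, 8, 9), (1, 10, 11), (2, 3, 10), (2, 3, 12), (2, 9, 12), (3, 10, 13), (3, 12, 13), (4, 5,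
      13), (4, 5, 14), (4, 6, 14), (4, 11, 13), (5, 12, 13), (5, 12, 14)]
    fin := [0, 0, 2, 2, 4, 4, 4, 0, 8, 2, 2, 4, 12, 13, 14]
    chd := [(0, 2), (4, 12)]
    steps := [(0, 1), (0, 7), (2, 3), (2, 9), (2, 10), (4, 5), (4, 6), (4, 11)] }
  rep := [4, 2, 8, 12, 13, 14, 0]

noncomputable def v928 : Cov.CovD where
  P := 3
  N := 4
  pl := [2, 7, 8]
  lev := [⟨[], [], [(0, 6)], [2], [(0, 0, [3]), (1, 6, [1])]⟩,
    ⟨[], [(0, 0), (0, 1), (0, 6)], [(0, 0), (0, 1), (1, 1)], [2], [(0, 0, [3]), (3, 1,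
      [6]), (4, 1, [6]), (5, 0, [3])]⟩,
    ⟨[(0, 1)], [(1, 0), (1, 1), (1, 3)], [(1, 1), (1, 3)], [], [(3, 1, [6]), (4, 1, [6]),
      (6, 3, [0])]⟩,
    ⟨[(1, 2)], [(1, 1), (2, 1), (2, 3)], [(1, 3)], [4], [(4, 1, [6]), (6, 3, [0])]⟩,
    ⟨[(0, 1), (1, 2)], [(0, 0), (1, 0), (1, 1)], [(0, 0)], [4, 5], [(0, 0, [3]), (5, 0,
      [3])]⟩,
    ⟨[(1, 4)], [(2, 3), (3, 3), (4, 0), (4, 3)], [], [4, 5], [(6, 3, [0])]⟩]
  Ta := [((0, 1), 0, 6), ((0, 8), 0, 5), ((3, 2), 1, 2), ((3, 6), 1, 3), ((4, 5), 1, 0), ((4, 7),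
    1, 4), ((5, 4), 0, 1), ((5, 7), 0, 4)]
  Tb := [((0, 1, 8), 0, 6, 5), ((1, 0, 2), 6, 0, 2), ((2, 1, 3), 2, 6, 1), ((3, 2, 6), 1, 2, 3),
    ((4, 5, 7), 1, 0, 4), ((5, 4, 7), 0, 1, 4), ((6, 3, 7), 3, 1, 4), ((6, 3, 8), 3, 1, 5),
    ((6, 7, 8), 3, 4, 5), ((7, 4, 5), 4, 1, 0), ((7, 4, 6), 4, 1, 3), ((7, 5, 6), 4, 0, 3),
    ((8, 0, 6), 5, 0, 3)]
  Tc := []
  Td := [((0, 3), (0, 1), 6), ((0, 3), (0, 8), 5), ((0, 3), (5, 4), 1), ((0, 3), (5, 7), 4), ((1,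
    6), (3, 2), 2), ((1, 6), (3, 6), 3), ((1, 6), (4, 5), 0), ((1, 6), (4, 7), 4), ((3, 0),
    (6, 3), 1), ((3, 0), (6, 7), 4), ((3, 0), (6, 8), 5), ((6, 1), (1, 0), 0), ((6, 1), (1,
    2), 2)]
  G := [[0, 0, 0x44112e6181a18c2, 0x526219821c188152e258c, 0x1824412a1967582], [0, 0,
    0x44112e5182a18c2, 0, 0x184269192e1582], [0, 0, 0x52611a3184a81c2, 0x144d12e2941,
    0xc214ca192e123582], [0, 0x111e116c11c111e6a41, 0x426111e5182a81c2, 0,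
    0x188826426111ed581]]

noncomputable def n928 : Ent := ⟨e928, noF, [], [], []⟩

def c928 : PLift (Cov.check n928.C.D v928 = true) := ⟨by decide +kernel⟩

def b928 : PLift (entF (fidx ts) 400 928 n928 = true) := ⟨by decide +kernel⟩

theorem g928 : GoodF (fidx ts) 400 928 := GoodF.ofV v928 n928 c928.down b928.down

/-- 485464:784/1 -/
noncomputable def e929 : SCfg where
  D := {
    a := 6
    L := 10
    kp := 7
    inn := [(0, 1), (1, 0), (1, 2), (1, 4), (2, 1), (2, 3), (3, 2), (4, 1), (4, 5), (5, 4)]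
    mix := [(0, 0), (0, 1), (0, 2), (1, 0), (1, 2), (1, 3), (1, 4), (1, 5), (2, 3), (2, 4), (2, 6), (3,
      4), (3, 6), (3, 7), (4, 0), (4, 5), (4, 8), (4, 9), (5, 6), (5, 8), (5, 9)]
    cl := [0, 6, 2, 1, 1, 0, 3, 7, 4, 5]
    chq := [(0, 3), (1, 6), (3, 0), (6, 1)]
    rng := [(0, 1), (0, 9), (1, 0), (1, 2), (2, 1), (2, 3), (3, 2), (3, 6), (4, 5), (4, 7), (5, 4), (5,
      8), (6, 3), (6, 7), (6, 8), (6, 9), (7, 4), (7, 6), (8, 5), (8, 6), (9, 0), (9, 6)]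
    lev := [] }
  links := [[1, 6, 7, 8], [6, 0, 8, 9, 2, 10, 11, 4], [10, 1, 9, 12, 3], [10, 2, 12, 13], [6, 1, 11, 14,
    5, 15], [15, 4, 14, 12]]
  P := {
    a := 6
    N := 16
    nb := [450, 3925, 5642, 13316, 51298, 53264, 32915, 321, 643, 4358, 10254, 17426, 57900, 5128,
      6192, 4208]
    tri := [(0, 1, 6), (0, 1, 8), (0, 6, 7), (0, 7, 8), (1, 2, 9), (1, 2, 10), (1, 4, 6), (1, 4, 11),
      (1, 8, 9), (1, 10, 11), (2, 3, 10), (2, 3, 12), (2, 9, 12), (3, 10, 13), (3, 12, 13), (4, 5,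
      14), (4, 5, 15), (4, 6, 15), (4, 11, 14), (5, 12, 14), (5, 12, 15)]
    fin := [0, 0, 2, 2, 4, 4, 4, 0, 8, 2, 2, 4, 12, 13, 14, 15]
    chd := [(0, 2), (4, 12)]
    steps := [(0, 1), (0, 7), (2, 3), (2, 9), (2, 10), (4, 5), (4, 6), (4, 11)] }
  rep := [4, 2, 8, 12, 14, 15, 0, 13]

noncomputable def v929 : Cov.CovD where
  P := 3
  N := 5
  pl := [2, 7, 8, 9]
  lev := [⟨[], [], [(0, 6)], [2], [(0, 0, [3]), (1, 6, [1])]⟩,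
    ⟨[], [(0, 0), (0, 1), (0, 6)], [(0, 0), (0, 1), (1, 1)], [2], [(0, 0, [3]), (3, 1,
      [6]), (4, 1, [6]), (5, 0, [3])]⟩,
    ⟨[(0, 1)], [(1, 0), (1, 1), (1, 3)], [(1, 1), (1, 3)], [], [(3, 1, [6]), (4, 1, [6]),
      (6, 3, [0])]⟩,
    ⟨[(1, 2)], [(1, 1), (2, 1), (2, 3)], [(1, 3)], [7], [(4, 1, [6]), (6, 3, [0])]⟩,
    ⟨[(0, 1), (1, 2)], [(0, 0), (1, 0), (1, 1)], [(0, 0)], [4, 5], [(0, 0, [3]), (5, 0,
      [3])]⟩,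
    ⟨[(1, 4)], [(2, 3), (3, 3), (4, 0), (4, 3)], [], [4, 5], [(6, 3, [0])]⟩]
  Ta := [((0, 1), 0, 6), ((0, 9), 0, 5), ((3, 2), 1, 2), ((3, 6), 1, 3), ((4, 5), 1, 0), ((4, 7),
    1, 7), ((5, 4), 0, 1), ((5, 8), 0, 4)]
  Tb := [((0, 1, 9), 0, 6, 5), ((1, 0, 2), 6, 0, 2), ((2, 1, 3), 2, 6, 1), ((3, 2, 6), 1, 2, 3),
    ((4, 5, 7), 1, 0, 7), ((5, 4, 8), 0, 1, 4), ((6, 3, 7), 3, 1, 7), ((6, 3, 8), 3, 1, 4),
    ((6, 3, 9), 3, 1, 5), ((6, 7, 8), 3, 7, 4), ((6, 7, 9), 3, 7, 5), ((6, 8, 9), 3, 4, 5),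
    ((7, 4, 6), 7, 1, 3), ((8, 5, 6), 4, 0, 3), ((9, 0, 6), 5, 0, 3)]
  Tc := []
  Td := [((0, 3), (0, 1), 6), ((0, 3), (0, 9), 5), ((0, 3), (5, 4), 1), ((0, 3), (5, 8), 4), ((1,
    6), (3, 2), 2), ((1, 6), (3, 6), 3), ((1, 6), (4, 5), 0), ((1, 6), (4, 7), 7), ((3, 0),
    (6, 3), 1), ((3, 0), (6, 7), 7), ((3, 0), (6, 8), 4), ((3, 0), (6, 9), 5), ((6, 1), (1,
    0), 0), ((6, 1), (1, 2), 2)]
  G := [[0, 0, 0xd25266198d231c2, 0x142d12e294542192a21cc, 0x182d21d2ed2b582], [0, 0,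
    0x142e44812e8d12e19c2, 0, 0x1818c1d2e426592ed582], [0, 0, 0x81cd23d2512ea942,
    0x142d12e2941, 0xd218d271d2e2581], [0, 0x111e44811e8111e2ac1, 0x142e152e51812e8898c2, 0,
    0x1818c1d2e426592ed582]]

noncomputable def n929 : Ent := ⟨e929, noF, [], [], [(13, 14, [385746751338780685620664494392815470296102193487288376376295425, 0])]⟩

def c929 : PLift (Cov.check n929.C.D v929 = true) := ⟨by decide +kernel⟩

def b929 : PLift (entF (fidx ts) 400 929 n929 = true) := ⟨by decide +kernel⟩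

theorem g929 : GoodF (fidx ts) 400 929 := GoodF.ofV v929 n929 c929.down b929.down

/-- 485464:784/3 -/
noncomputable def e930 : SCfg where
  D := {
    a := 6
    L := 10
    kp := 7
    inn := [(0, 1), (1, 0), (1, 2), (1, 4), (2, 1), (2, 3), (3, 2), (4, 1), (4, 5), (5, 4)]
    mix := [(0, 0), (0, 1), (0, 2), (1, 0), (1, 2), (1, 3), (1, 4), (1, 5), (2, 3), (2, 4), (2, 6), (3,
      4), (3, 6), (3, 7), (4, 0), (4, 5), (4, 7), (4, 8), (5, 7), (5, 8), (5, 9)]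
    cl := [0, 6, 2, 1, 1, 0, 4, 3, 5, 7]
    chq := [(0, 7), (1, 6), (6, 1), (7, 0)]
    rng := [(0, 1), (0, 8), (1, 0), (1, 2), (2, 1), (2, 3), (3, 2), (3, 6), (4, 5), (4, 7), (5, 4), (5,
      7), (6, 3), (6, 7), (7, 4), (7, 5), (7, 6), (7, 9), (8, 0), (8, 9), (9, 7), (9, 8)]
    lev := [] }
  links := [[1, 6, 7, 8], [6, 0, 8, 9, 2, 10, 11, 4], [10, 1, 9, 12, 3], [10, 2, 12, 13], [6, 1, 11, 13,
    5, 14], [14, 4, 13, 15]]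
  P := {
    a := 6
    N := 16
    nb := [450, 3925, 5642, 13316, 26722, 57360, 16531, 321, 643, 4358, 10254, 9234, 8716, 39992,
      32880, 24608]
    tri := [(0, 1, 6), (0, 1, 8), (0, 6, 7), (0, 7, 8), (1, 2, 9), (1, 2, 10), (1, 4, 6), (1, 4, 11),
      (1, 8, 9), (1, 10, 11), (2, 3, 10), (2, 3, 12), (2, 9, 12), (3, 10, 13), (3, 12, 13), (4, 5,
      13), (4, 5, 14), (4, 6, 14), (4, 11, 13), (5, 13, 15), (5, 14, 15)]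
    fin := [0, 0, 2, 2, 4, 4, 4, 0, 8, 2, 2, 4, 12, 13, 14, 15]
    chd := [(0, 2), (4, 15)]
    steps := [(0, 1), (0, 7), (2, 3), (2, 9), (2, 10), (4, 5), (4, 6), (4, 11)] }
  rep := [4, 2, 8, 13, 12, 14, 0, 15]

noncomputable def v930 : Cov.CovD where
  P := 3
  N := 5
  pl := [2, 6, 7, 8]
  lev := [⟨[], [], [(0, 6)], [2], [(0, 0, [7]), (1, 6, [1])]⟩,
    ⟨[], [(0, 0), (0, 1), (0, 6)], [(0, 0), (0, 1), (1, 1)], [2], [(0, 0, [7]), (3, 1,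
      [6]), (4, 1, [6]), (5, 0, [7])]⟩,
    ⟨[(0, 1)], [(1, 0), (1, 1)], [(1, 1)], [4], [(3, 1, [6]), (4, 1, [6])]⟩,
    ⟨[(1, 2)], [(1, 1), (2, 1)], [], [3, 4], [(4, 1, [6])]⟩,
    ⟨[(0, 1), (1, 2)], [(0, 0), (1, 0), (1, 1)], [(0, 0)], [3, 5], [(0, 0, [7]), (5, 0,
      [7])]⟩,
    ⟨[(1, 4)], [(4, 0), (4, 7)], [], [3, 5], [(9, 7, [0])]⟩]
  Ta := [((0, 1), 0, 6), ((0, 8), 0, 5), ((3, 2), 1, 2), ((3, 6), 1, 4), ((4, 5), 1, 0), ((4, 7),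
    1, 3), ((5, 4), 0, 1), ((5, 7), 0, 3)]
  Tb := [((0, 1, 8), 0, 6, 5), ((1, 0, 2), 6, 0, 2), ((2, 1, 3), 2, 6, 1), ((3, 2, 6), 1, 2, 4),
    ((4, 5, 7), 1, 0, 3), ((5, 4, 7), 0, 1, 3), ((6, 3, 7), 4, 1, 3), ((7, 4, 5), 3, 1, 0),
    ((7, 4, 6), 3, 1, 4), ((7, 4, 9), 3, 1, 7), ((7, 5, 6), 3, 0, 4), ((7, 5, 9), 3, 0, 7),
    ((7, 6, 9), 3, 4, 7), ((8, 0, 9), 5, 0, 7), ((9, 7, 8), 7, 3, 5)]
  Tc := []
  Td := [((0, 7), (0, 1), 6), ((0, 7), (0, 8), 5), ((0, 7), (5, 4), 1), ((0, 7), (5, 7), 3), ((1,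
    6), (3, 2), 2), ((1, 6), (3, 6), 4), ((1, 6), (4, 5), 0), ((1, 6), (4, 7), 3), ((6, 1),
    (1, 0), 0), ((6, 1), (1, 2), 2), ((7, 0), (9, 7), 3), ((7, 0), (9, 8), 5)]
  G := [[0, 0, 0x917e2917e1942, 0x11fe2141fa59414111fe2c97a21cc, 0x15be211fe1582], [0, 0,
    0xd3a356cd17e1942, 0, 0x1bad36c1dbe1582], [0, 0, 0xda611a6ca6111e9582, 0x11621821dbe2d81,
    0x19ad36cdb6183581], [0, 0x111e44111e8111e2ac1, 0xd7a116cc6a111e5942, 0,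
    0x11adb6cca6111e9582]]

noncomputable def n930 : Ent := ⟨e930, noF, [], [], [(12, 15, [360035742630636841211993100915356868655746945586763691011473409, 0])]⟩

def c930 : PLift (Cov.check n930.C.D v930 = true) := ⟨by decide +kernel⟩

def b930 : PLift (entF (fidx ts) 400 930 n930 = true) := ⟨by decide +kernel⟩

theorem g930 : GoodF (fidx ts) 400 930 := GoodF.ofV v930 n930 c930.down b930.down

/-- 485464:784/4 -/
noncomputable def e931 : SCfg where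
  D := {
    a := 6
    L := 10
    kp := 7
    inn := [(0, 1), (1, 0), (1, 2), (1, 4), (2, 1), (2, 3), (3, 2), (4, 1), (4, 5), (5, 4)]
    mix := [(0, 0), (0, 1), (0, 2), (1, 0), (1, 2), (1, 3), (1, 4), (1, 5), (2, 3), (2, 4), (2, 6), (3,
      4), (3, 6), (3, 7), (4, 0), (4, 5), (4, 8), (4, 9), (5, 7), (5, 8), (5, 9)]
    cl := [0, 7, 2, 1, 1, 0, 4, 3, 5, 6]
    chq := [(0, 3), (1, 7), (3, 0), (7, 1)]
    rng := [(0, 1), (0, 9), (1, 0), (1, 2), (2, 1), (2, 3), (3, 2), (3, 6), (4, 5), (4, 7), (5, 4), (5,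
      8), (6, 3), (6, 7), (7, 4), (7, 6), (7, 8), (7, 9), (8, 5), (8, 7), (9, 0), (9, 7)]
    lev := [] }
  links := [[1, 6, 7, 8], [6, 0, 8, 9, 2, 10, 11, 4], [10, 1, 9, 12, 3], [10, 2, 12, 13], [6, 1, 11, 14,
    5, 15], [15, 4, 14, 13]]
  P := {
    a := 6
    N := 16
    nb := [450, 3925, 5642, 13316, 51298, 57360, 32915, 321, 643, 4358, 10254, 17426, 8716, 54312,
      10288, 8304]
    tri := [(0, 1, 6), (0, 1, 8), (0, 6, 7), (0, 7, 8), (1, 2, 9), (1, 2, 10), (1, 4, 6), (1, 4, 11),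
      (1, 8, 9), (1, 10, 11), (2, 3, 10), (2, 3, 12), (2, 9, 12), (3, 10, 13), (3, 12, 13), (4, 5,
      14), (4, 5, 15), (4, 6, 15), (4, 11, 14), (5, 13, 14), (5, 13, 15)]
    fin := [0, 0, 2, 2, 4, 4, 4, 0, 8, 2, 2, 4, 12, 13, 14, 15]
    chd := [(0, 2), (4, 13)]
    steps := [(0, 1), (0, 7), (2, 3), (2, 9), (2, 10), (4, 5), (4, 6), (4, 11)] }
  rep := [4, 2, 8, 13, 12, 14, 15, 0]

noncomputable def v931 : Cov.CovD where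
  P := 3
  N := 5
  pl := [2, 6, 8, 9]
  lev := [⟨[], [], [(0, 7)], [2], [(0, 0, [3]), (1, 7, [1])]⟩,
    ⟨[], [(0, 0), (0, 1), (0, 7)], [(0, 0), (0, 1), (1, 1)], [2], [(0, 0, [3]), (3, 1,
      [7]), (4, 1, [7]), (5, 0, [3])]⟩,
    ⟨[(0, 1)], [(1, 0), (1, 1)], [(1, 1)], [4], [(3, 1, [7]), (4, 1, [7])]⟩,
    ⟨[(1, 2)], [(1, 1), (2, 1), (2, 3)], [(1, 3)], [4], [(4, 1, [7]), (7, 3, [0])]⟩,
    ⟨[(0, 1), (1, 2)], [(0, 0), (1, 0), (1, 1)], [(0, 0)], [5, 6], [(0, 0, [3]), (5, 0,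
      [3])]⟩,
    ⟨[(1, 4)], [(3, 3), (4, 0), (4, 3)], [], [5, 6], [(7, 3, [0])]⟩]
  Ta := [((0, 1), 0, 7), ((0, 9), 0, 6), ((3, 2), 1, 2), ((3, 6), 1, 4), ((4, 5), 1, 0), ((4, 7),
    1, 3), ((5, 4), 0, 1), ((5, 8), 0, 5)]
  Tb := [((0, 1, 9), 0, 7, 6), ((1, 0, 2), 7, 0, 2), ((2, 1, 3), 2, 7, 1), ((3, 2, 6), 1, 2, 4),
    ((4, 5, 7), 1, 0, 3), ((5, 4, 8), 0, 1, 5), ((6, 3, 7), 4, 1, 3), ((7, 4, 6), 3, 1, 4),
    ((7, 4, 8), 3, 1, 5), ((7, 4, 9), 3, 1, 6), ((7, 6, 8), 3, 4, 5), ((7, 6, 9), 3, 4, 6),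
    ((7, 8, 9), 3, 5, 6), ((8, 5, 7), 5, 0, 3), ((9, 0, 7), 6, 0, 3)]
  Tc := []
  Td := [((0, 3), (0, 1), 7), ((0, 3), (0, 9), 6), ((0, 3), (5, 4), 1), ((0, 3), (5, 8), 5), ((1,
    7), (3, 2), 2), ((1, 7), (3, 6), 4), ((1, 7), (4, 5), 0), ((1, 7), (4, 7), 3), ((3, 0),
    (7, 4), 1), ((3, 0), (7, 6), 4), ((3, 0), (7, 8), 5), ((3, 0), (7, 9), 6), ((7, 1), (1,
    0), 0), ((7, 1), (1, 2), 2)]
  G := [[0, 0, 0x142e41d2e25812e88c2, 0xd12e2592e2941d2e212625d828cc, 0x1d2e2141e1d2e9582], [0,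
    0, 0x341e44813e8d16e19c2, 0, 0x192e349ec141e1dae9582], [0, 0, 0xd12e2511e192e5942,
    0x1d2e21d2e2581, 0x192e142ec1d2e2582], [0, 0x111e44811e8111e2ac1, 0x341e44817e8d12e19c2,
    0, 0x192e14bec111e1dae9582]]

noncomputable def n931 : Ent := ⟨e931, noF, [], [], []⟩

def c931 : PLift (Cov.check n931.C.D v931 = true) := ⟨by decide +kernel⟩

def b931 : PLift (entF (fidx ts) 400 931 n931 = true) := ⟨by decide +kernel⟩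

theorem g931 : GoodF (fidx ts) 400 931 := GoodF.ofV v931 n931 c931.down b931.down

/-- 485464:784 -/
noncomputable def e932 : SCfg where
  D := {
    a := 6
    L := 11
    kp := 8
    inn := [(0, 1), (1, 0), (1, 2), (1, 4), (2, 1), (2, 3), (3, 2), (4, 1), (4, 5), (5, 4)]
    mix := [(0, 0), (0, 1), (0, 2), (1, 0), (1, 2), (1, 3), (1, 4), (1, 5), (2, 3), (2, 4), (2, 6), (3,
      4), (3, 6), (3, 7), (4, 0), (4, 5), (4, 8), (4, 9), (5, 8), (5, 9), (5, 10)]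
    cl := [0, 6, 2, 1, 1, 0, 3, 8, 4, 5, 7]
    chq := [(0, 7), (1, 6), (6, 1), (7, 0)]
    rng := [(0, 1), (0, 9), (1, 0), (1, 2), (2, 1), (2, 3), (3, 2), (3, 6), (4, 5), (4, 7), (5, 4), (5,
      8), (6, 3), (6, 7), (7, 4), (7, 6), (8, 5), (8, 10), (9, 0), (9, 10), (10, 8), (10, 9)]
    lev := [] }
  links := [[1, 6, 7, 8], [6, 0, 8, 9, 2, 10, 11, 4], [10, 1, 9, 12, 3], [10, 2, 12, 13], [6, 1, 11, 14,
    5, 15], [15, 4, 14, 16]]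
  P := {
    a := 6
    N := 17
    nb := [450, 3925, 5642, 13316, 51298, 114704, 32915, 321, 643, 4358, 10254, 17426, 8716, 5128,
      67632, 65648, 49184]
    tri := [(0, 1, 6), (0, 1, 8), (0, 6, 7), (0, 7, 8), (1, 2, 9), (1, 2, 10), (1, 4, 6), (1, 4, 11),
      (1, 8, 9), (1, 10, 11), (2, 3, 10), (2, 3, 12), (2, 9, 12), (3, 10, 13), (3, 12, 13), (4, 5,
      14), (4, 5, 15), (4, 6, 15), (4, 11, 14), (5, 14, 16), (5, 15, 16)]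
    fin := [0, 0, 2, 2, 4, 4, 4, 0, 8, 2, 2, 4, 12, 13, 14, 15, 16]
    chd := [(0, 2), (4, 16)]
    steps := [(0, 1), (0, 7), (2, 3), (2, 9), (2, 10), (4, 5), (4, 6), (4, 11)] }
  rep := [4, 2, 8, 12, 14, 15, 0, 16, 13]

noncomputable def v932 : Cov.CovD where
  P := 3
  N := 6
  pl := [2, 6, 7, 8, 9]
  lev := [⟨[], [], [(0, 6)], [2], [(0, 0, [7]), (1, 6, [1])]⟩,
    ⟨[], [(0, 0), (0, 1), (0, 6)], [(0, 0), (0, 1), (1, 1)], [2], [(0, 0, [7]), (3, 1,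
      [6]), (4, 1, [6]), (5, 0, [7])]⟩,
    ⟨[(0, 1)], [(1, 0), (1, 1)], [(1, 1)], [3], [(3, 1, [6]), (4, 1, [6])]⟩,
    ⟨[(1, 2)], [(1, 1), (2, 1)], [], [3, 8], [(4, 1, [6])]⟩,
    ⟨[(0, 1), (1, 2)], [(0, 0), (1, 0), (1, 1)], [(0, 0)], [4, 5], [(0, 0, [7]), (5, 0,
      [7])]⟩,
    ⟨[(1, 4)], [(4, 0), (4, 7)], [], [4, 5], [(10, 7, [0])]⟩]
  Ta := [((0, 1), 0, 6), ((0, 9), 0, 5), ((3, 2), 1, 2), ((3, 6), 1, 3), ((4, 5), 1, 0), ((4, 7),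
    1, 8), ((5, 4), 0, 1), ((5, 8), 0, 4)]
  Tb := [((0, 1, 9), 0, 6, 5), ((1, 0, 2), 6, 0, 2), ((2, 1, 3), 2, 6, 1), ((3, 2, 6), 1, 2, 3),
    ((4, 5, 7), 1, 0, 8), ((5, 4, 8), 0, 1, 4), ((6, 3, 7), 3, 1, 8), ((7, 4, 6), 8, 1, 3),
    ((8, 5, 10), 4, 0, 7), ((9, 0, 10), 5, 0, 7), ((10, 8, 9), 7, 4, 5)]
  Tc := []
  Td := [((0, 7), (0, 1), 6), ((0, 7), (0, 9), 5), ((0, 7), (5, 4), 1), ((0, 7), (5, 8), 4), ((1,
    6), (3, 2), 2), ((1, 6), (3, 6), 3), ((1, 6), (4, 5), 0), ((1, 6), (4, 7), 8), ((6, 1),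
    (1, 0), 0), ((6, 1), (1, 2), 2), ((7, 0), (10, 8), 4), ((7, 0), (10, 9), 5)]
  G := [[0, 0, 0x1dbe21dbe1dbe9582, 0x142d7a2d17e2d41dbe21dbe258c, 0x1dbe1dbec1dbe2582], [0, 0,
    0x1dbe44d17e8d17e19c2, 0, 0x1dbe1dbec1dbe1dbe9582], [0, 0, 0x1dbe21dbe1dbe9582,
    0xd17e2d17e2941, 0x1dbe1dbec1dbe2581], [0, 0x111e4111e26111e88c1, 0x1dbe41dbe15d17e88c2,
    0, 0x1dbe1dbec1dbe1dbe9581]]

noncomputable def n932 : Ent := ⟨e932, noF, [], [], [(12, 16, [1580044410770988437309982408355971841652082177953823432505692917761, 0]), (13, 14, [1685382413448253767852309107433119732572617628602273068445368721409, 0]), (13, 16, [1580044410770988437309982408355971841652082177953823432505692925953, 0])]⟩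

def c932 : PLift (Cov.check n932.C.D v932 = true) := ⟨by decide +kernel⟩

def b932 : PLift (entF (fidx ts) 400 932 n932 = true) := ⟨by decide +kernel⟩

theorem g932 : GoodF (fidx ts) 400 932 := GoodF.ofV v932 n932 c932.down b932.down

/-- 485744:785 -/
noncomputable def e933 : SCfg where
  D := {
    a := 6
    L := 11
    kp := 9
    inn := [(0, 1), (1, 0), (1, 2), (1, 3), (1, 5), (2, 1), (2, 3), (2, 4), (3, 1), (3, 2), (4, 2), (5,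
      1)]
    mix := [(0, 0), (0, 1), (0, 2), (1, 0), (1, 2), (1, 3), (1, 4), (2, 3), (2, 5), (3, 2), (3, 5), (3,
      6), (3, 7), (3, 8), (4, 3), (4, 5), (4, 9), (5, 0), (5, 4), (5, 10)]
    cl := [2, 7, 0, 1, 0, 3, 4, 5, 6, 8, 9]
    chq := [(0, 2), (1, 3), (1, 4), (1, 5), (1, 6), (2, 0), (3, 1), (4, 1), (5, 1), (6, 1)]
    rng := [(0, 1), (0, 10), (1, 0), (1, 2), (2, 1), (2, 6), (3, 4), (3, 9), (4, 3), (4, 10), (5, 8),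
      (5, 9), (6, 2), (6, 7), (7, 6), (7, 8), (8, 5), (8, 7), (9, 3), (9, 5), (10, 0), (10, 4)]
    lev := [] }
  links := [[1, 6, 7, 8], [6, 0, 8, 3, 2, 9, 10, 5], [9, 1, 3, 11, 4], [11, 2, 1, 8, 12, 13, 14], [9, 2,
    11, 15], [6, 1, 10, 16]]
  P := {
    a := 6
    N := 17
    nb := [450, 1901, 2586, 30982, 35332, 66626, 65699, 321, 4235, 33814, 66082, 49180, 8456, 20488,
      10248, 2576, 1120]
    tri := [(0, 1, 6), (0, 1, 8), (0, 6, 7), (0, 7, 8), (1, 2, 3), (1, 2, 9), (1, 3, 8), (1, 5, 6), (1,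
      5, 10), (1, 9, 10), (2, 3, 11), (2, 4, 9), (2, 4, 11), (3, 8, 12), (3, 11, 14), (3, 12, 13),
      (3, 13, 14), (4, 9, 15), (4, 11, 15), (5, 6, 16), (5, 10, 16)]
    fin := [0, 1, 2, 2, 4, 0, 0, 7, 1, 2, 1, 4, 12, 13, 14, 15, 16]
    chd := [(0, 1), (2, 4), (2, 12), (2, 13), (2, 14)]
    steps := [(0, 6), (0, 5), (1, 8), (1, 10), (2, 3), (2, 9), (4, 11)] }
  rep := [1, 2, 0, 4, 12, 13, 14, 7, 15, 16]

noncomputable def v933 : Cov.CovD where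
  P := 3
  N := 7
  pl := [1, 9, 10]
  lev := [⟨[], [], [(0, 2)], [7], [(0, 2, [0]), (2, 0, [2])]⟩,
    ⟨[], [(0, 0), (0, 1), (0, 2)], [(0, 0), (0, 1), (0, 2), (1, 2)], [], [(0, 2, [0]), (2,
      0, [2]), (3, 1, [3, 4, 5, 6]), (4, 0, [2])]⟩,
    ⟨[(0, 1)], [(1, 0), (1, 1), (1, 2), (1, 3)], [(1, 3)], [], [(3, 1, [3, 4, 5, 6]), (5,
      3, [1])]⟩,
    ⟨[(0, 1), (1, 2)], [(0, 0), (1, 0), (1, 1), (1, 2), (1, 3), (1, 4), (1, 5), (1, 6), (2,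
      0), (2, 1), (2, 3), (2, 4), (2, 5), (2, 6)], [(0, 3), (0, 4), (0, 5), (0, 6), (3, 4),
      (3, 5), (3, 6), (4, 5), (4, 6), (5, 6)], [], [(2, 0, [2]), (5, 3, [1]), (6, 4, [1]),
      (7, 5, [1]), (8, 6, [1])]⟩,
    ⟨[(1, 2), (2, 3)], [(1, 1), (2, 1), (2, 3), (3, 3)], [(1, 3)], [8], [(3, 1, [3, 4, 5,
      6]), (5, 3, [1])]⟩,
    ⟨[(0, 1), (1, 2), (1, 3)], [(0, 2), (1, 0), (1, 1), (1, 2)], [(0, 2)], [9], [(0, 2,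
      [0]), (4, 0, [2])]⟩]
  Ta := [((2, 1), 0, 7), ((2, 6), 0, 4), ((4, 3), 0, 1), ((4, 10), 0, 9)]
  Tb := [((0, 1, 10), 2, 7, 9), ((1, 0, 2), 7, 2, 0), ((2, 1, 6), 0, 7, 4), ((3, 4, 9), 1, 0, 8),
    ((4, 3, 10), 0, 1, 9), ((5, 8, 9), 3, 6, 8), ((6, 2, 7), 4, 0, 5), ((7, 6, 8), 5, 4, 6),
    ((8, 5, 7), 6, 3, 5), ((9, 3, 5), 8, 1, 3), ((10, 0, 4), 9, 2, 0)]
  Tc := [(1, 3, 4), (1, 3, 5), (1, 3, 6), (1, 4, 5), (1, 4, 6), (1, 5, 6)]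
  Td := [((0, 2), (2, 1), 7), ((0, 2), (2, 6), 4), ((0, 2), (4, 3), 1), ((0, 2), (4, 10), 9),
    ((1, 3), (3, 4), 0), ((1, 3), (3, 9), 8), ((1, 4), (3, 4), 0), ((1, 4), (3, 9), 8), ((1,
    5), (3, 4), 0), ((1, 5), (3, 9), 8), ((1, 6), (3, 4), 0), ((1, 6), (3, 9), 8), ((2, 0),
    (0, 1), 7), ((2, 0), (0, 10), 9), ((3, 1), (5, 8), 6), ((3, 1), (5, 9), 8), ((4, 1), (6,
    2), 0), ((4, 1), (6, 7), 5), ((5, 1), (7, 6), 4), ((5, 1), (7, 8), 6), ((6, 1), (8, 5),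
    3), ((6, 1), (8, 7), 5)]
  G := [[0, 0, 0xc6c2ac9258ccc2a692586, 0x11c211925811c2115294c, 0x11c211925811c2119258a], [0,
    0xccc1cc61a4ccc1cca168c, 0xc6c2ca5294aac2aa5294c, 0xccc2cc92581, 0xaac2aa92581]]

noncomputable def n933 : Ent := ⟨e933, noF, [], [], []⟩

def c933 : PLift (Cov.check n933.C.D v933 = true) := ⟨by decide +kernel⟩

def b933 : PLift (entF (fidx ts) 400 933 n933 = true) := ⟨by decide +kernel⟩

theorem g933 : GoodF (fidx ts) 400 933 := GoodF.ofV v933 n933 c933.down b933.down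

/-- 464784:787 -/
noncomputable def e934 : SCfg where
  D := {
    a := 6
    L := 11
    kp := 9
    inn := [(0, 1), (0, 4), (1, 0), (1, 2), (1, 3), (1, 4), (2, 1), (3, 1), (3, 4), (3, 5), (4, 0), (4,
      1), (4, 3), (5, 3)]
    mix := [(0, 0), (0, 1), (1, 1), (1, 2), (2, 1), (2, 2), (2, 3), (3, 2), (3, 4), (3, 5), (3, 6), (4,
      0), (4, 6), (4, 7), (4, 8), (4, 9), (5, 4), (5, 5), (5, 10)]
    cl := [2, 1, 0, 8, 3, 4, 3, 5, 6, 7, 9]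
    chq := [(0, 1), (0, 2), (0, 5), (0, 6), (0, 7), (1, 0), (2, 0), (5, 0), (6, 0), (7, 0)]
    rng := [(0, 1), (0, 9), (1, 0), (1, 3), (2, 3), (2, 4), (3, 1), (3, 2), (4, 2), (4, 10), (5, 6),
      (5, 10), (6, 5), (6, 7), (7, 6), (7, 8), (8, 7), (8, 9), (9, 0), (9, 8), (10, 4), (10, 5)]
    lev := [] }
  links := [[1, 4, 6, 7], [4, 0, 7, 2, 8, 3], [8, 1, 7, 9], [4, 1, 8, 10, 5, 11, 12], [6, 0, 1, 3, 12,
    13, 14, 15], [11, 3, 10, 16]]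
  P := {
    a := 6
    N := 17
    nb := [210, 413, 898, 7474, 61515, 68616, 32913, 583, 1550, 388, 65832, 69672, 10264, 20496,
      40976, 16464, 3104]
    tri := [(0, 1, 4), (0, 1, 7), (0, 4, 6), (0, 6, 7), (1, 2, 7), (1, 2, 8), (1, 3, 4), (1, 3, 8), (2,
      7, 9), (2, 8, 9), (3, 4, 12), (3, 5, 10), (3, 5, 11), (3, 8, 10), (3, 11, 12), (4, 6, 15),
      (4, 12, 13), (4, 13, 14), (4, 14, 15), (5, 10, 16), (5, 11, 16)]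
    fin := [0, 1, 2, 3, 1, 3, 0, 2, 1, 9, 3, 11, 3, 13, 14, 15, 16]
    chd := [(0, 1), (1, 13), (1, 14), (1, 15), (2, 1)]
    steps := [(0, 6), (1, 4), (1, 8), (2, 7), (3, 5), (3, 10), (3, 12)] }
  rep := [1, 2, 0, 3, 11, 13, 14, 15, 9, 16]

noncomputable def v934 : Cov.CovD where
  P := 3
  N := 7
  pl := [3, 5, 10]
  lev := [⟨[], [], [(1, 2)], [], [(0, 2, [0]), (1, 1, [0])]⟩,
    ⟨[], [(0, 0), (0, 1), (0, 2)], [(0, 1)], [], [(1, 1, [0]), (2, 0, [1, 2, 5, 6, 7])]⟩,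
    ⟨[(0, 1)], [(0, 1), (1, 0), (1, 1)], [(0, 1)], [8], [(1, 1, [0]), (2, 0, [1, 2, 5, 6,
      7])]⟩,
    ⟨[(0, 1), (1, 2)], [(1, 0), (1, 1), (1, 3), (2, 0)], [(0, 3), (3, 3)], [4], [(2, 0, [1,
      2, 5, 6, 7]), (4, 3, []), (6, 3, [])]⟩,
    ⟨[(0, 1), (0, 3), (1, 2), (1, 3)], [(0, 1), (0, 2), (0, 3), (0, 5), (0, 6), (0, 7), (1,
      0), (1, 1), (1, 2), (1, 3), (1, 5), (1, 6), (1, 7), (3, 0), (3, 2), (3, 3), (3, 5), (3,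
      6), (3, 7)], [(2, 3), (2, 5), (2, 6), (2, 7), (3, 5), (3, 6), (3, 7), (5, 6), (5, 7),
      (6, 7)], [], [(0, 2, [0]), (6, 3, []), (7, 5, [0]), (8, 6, [0]), (9, 7, [0])]⟩,
    ⟨[(1, 3), (3, 4)], [(3, 0), (3, 3)], [], [4, 9], [(4, 3, [])]⟩]
  Ta := [((4, 2), 3, 0), ((4, 10), 3, 9), ((6, 5), 3, 4), ((6, 7), 3, 5)]
  Tb := [((0, 1, 9), 2, 1, 7), ((1, 0, 3), 1, 2, 8), ((2, 3, 4), 0, 8, 3), ((3, 1, 2), 8, 1, 0),
    ((4, 2, 10), 3, 0, 9), ((5, 6, 10), 4, 3, 9), ((6, 5, 7), 3, 4, 5), ((7, 6, 8), 5, 3, 6),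
    ((8, 7, 9), 6, 5, 7), ((9, 0, 8), 7, 2, 6), ((10, 4, 5), 9, 3, 4)]
  Tc := [(0, 1, 2), (0, 1, 5), (0, 1, 6), (0, 1, 7), (0, 2, 5), (0, 2, 6), (0, 2, 7), (0, 5, 6),
    (0, 5, 7), (0, 6, 7)]
  Td := [((0, 1), (2, 3), 8), ((0, 1), (2, 4), 3), ((0, 2), (2, 3), 8), ((0, 2), (2, 4), 3), ((0,
    5), (2, 3), 8), ((0, 5), (2, 4), 3), ((0, 6), (2, 3), 8), ((0, 6), (2, 4), 3), ((0, 7),
    (2, 3), 8), ((0, 7), (2, 4), 3), ((1, 0), (1, 0), 2), ((1, 0), (1, 3), 8), ((2, 0), (0,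
    1), 1), ((2, 0), (0, 9), 7), ((5, 0), (7, 6), 3), ((5, 0), (7, 8), 6), ((6, 0), (8, 7),
    5), ((6, 0), (8, 9), 7), ((7, 0), (9, 0), 2), ((7, 0), (9, 8), 6)]
  G := [[0, 0x51316514a9189131aac4, 0x51419131a1c8, 0x51449131a9131acc51488c,
    0x513164145d11171e918cc414889], [0, 0x91a1c1e61a131ea48, 0x91a131e148,
    0x513166151c1ec9188c4, 0x514461a131e6131acc8]]

noncomputable def n934 : Ent := ⟨e934, noF, [], [], []⟩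

def c934 : PLift (Cov.check n934.C.D v934 = true) := ⟨by decide +kernel⟩

def b934 : PLift (entF (fidx ts) 400 934 n934 = true) := ⟨by decide +kernel⟩

theorem g934 : GoodF (fidx ts) 400 934 := GoodF.ofV v934 n934 c934.down b934.down

/-- 464784:788 -/
noncomputable def e935 : SCfg where
  D := {
    a := 6
    L := 11
    kp := 9
    inn := [(0, 1), (0, 4), (1, 0), (1, 2), (1, 3), (1, 4), (2, 1), (3, 1), (3, 4), (3, 5), (4, 0), (4,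
      1), (4, 3), (5, 3)]
    mix := [(0, 0), (0, 1), (1, 1), (1, 2), (2, 1), (2, 2), (2, 3), (3, 2), (3, 4), (3, 5), (3, 6), (4,
      0), (4, 6), (4, 7), (4, 8), (4, 9), (5, 5), (5, 6), (5, 10)]
    cl := [2, 1, 0, 8, 3, 4, 3, 5, 6, 7, 9]
    chq := [(0, 1), (0, 2), (0, 5), (0, 6), (0, 7), (1, 0), (2, 0), (5, 0), (6, 0), (7, 0)]
    rng := [(0, 1), (0, 9), (1, 0), (1, 3), (2, 3), (2, 4), (3, 1), (3, 2), (4, 2), (4, 5), (5, 4), (5,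
      10), (6, 7), (6, 10), (7, 6), (7, 8), (8, 7), (8, 9), (9, 0), (9, 8), (10, 5), (10, 6)]
    lev := [] }
  links := [[1, 4, 6, 7], [4, 0, 7, 2, 8, 3], [8, 1, 7, 9], [4, 1, 8, 10, 11, 5, 12], [6, 0, 1, 3, 12,
    13, 14, 15], [12, 3, 11, 16]]
  P := {
    a := 6
    N := 17
    nb := [210, 413, 898, 7474, 61515, 71688, 32913, 583, 1550, 388, 2312, 66600, 73784, 20496, 40976,
      16464, 6176]
    tri := [(0, 1, 4), (0, 1, 7), (0, 4, 6), (0, 6, 7), (1, 2, 7), (1, 2, 8), (1, 3, 4), (1, 3, 8), (2,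
      7, 9), (2, 8, 9), (3, 4, 12), (3, 5, 11), (3, 5, 12), (3, 8, 10), (3, 10, 11), (4, 6, 15),
      (4, 12, 13), (4, 13, 14), (4, 14, 15), (5, 11, 16), (5, 12, 16)]
    fin := [0, 1, 2, 3, 1, 3, 0, 2, 1, 9, 3, 11, 3, 13, 14, 15, 16]
    chd := [(0, 1), (1, 13), (1, 14), (1, 15), (2, 1)]
    steps := [(0, 6), (1, 4), (1, 8), (2, 7), (3, 5), (3, 10), (3, 12)] }
  rep := [1, 2, 0, 3, 11, 13, 14, 15, 9, 16]

noncomputable def v935 : Cov.CovD where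
  P := 3
  N := 7
  pl := [3, 5, 10]
  lev := [⟨[], [], [(1, 2)], [], [(0, 2, [0]), (1, 1, [0])]⟩,
    ⟨[], [(0, 0), (0, 1), (0, 2)], [(0, 1)], [], [(1, 1, [0]), (2, 0, [1, 2, 5, 6, 7])]⟩,
    ⟨[(0, 1)], [(0, 1), (1, 0), (1, 1)], [(0, 1)], [8], [(1, 1, [0]), (2, 0, [1, 2, 5, 6,
      7])]⟩,
    ⟨[(0, 1), (1, 2)], [(1, 0), (1, 1), (1, 3), (2, 0)], [(0, 3), (3, 3)], [4], [(2, 0, [1,
      2, 5, 6, 7]), (4, 3, []), (6, 3, [])]⟩,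
    ⟨[(0, 1), (0, 3), (1, 2), (1, 3)], [(0, 1), (0, 2), (0, 3), (0, 5), (0, 6), (0, 7), (1,
      0), (1, 1), (1, 2), (1, 3), (1, 5), (1, 6), (1, 7), (3, 0), (3, 2), (3, 3), (3, 5), (3,
      6), (3, 7)], [(2, 3), (2, 5), (2, 6), (2, 7), (3, 5), (3, 6), (3, 7), (5, 6), (5, 7),
      (6, 7)], [], [(0, 2, [0]), (6, 3, []), (7, 5, [0]), (8, 6, [0]), (9, 7, [0])]⟩,
    ⟨[(1, 3), (3, 4)], [(3, 0), (3, 3), (4, 3)], [], [4, 9], [(6, 3, [])]⟩]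
  Ta := [((4, 2), 3, 0), ((4, 5), 3, 4), ((6, 7), 3, 5), ((6, 10), 3, 9)]
  Tb := [((0, 1, 9), 2, 1, 7), ((1, 0, 3), 1, 2, 8), ((2, 3, 4), 0, 8, 3), ((3, 1, 2), 8, 1, 0),
    ((4, 2, 5), 3, 0, 4), ((5, 4, 10), 4, 3, 9), ((6, 7, 10), 3, 5, 9), ((7, 6, 8), 5, 3, 6),
    ((8, 7, 9), 6, 5, 7), ((9, 0, 8), 7, 2, 6), ((10, 5, 6), 9, 4, 3)]
  Tc := [(0, 1, 2), (0, 1, 5), (0, 1, 6), (0, 1, 7), (0, 2, 5), (0, 2, 6), (0, 2, 7), (0, 5, 6),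
    (0, 5, 7), (0, 6, 7)]
  Td := [((0, 1), (2, 3), 8), ((0, 1), (2, 4), 3), ((0, 2), (2, 3), 8), ((0, 2), (2, 4), 3), ((0,
    5), (2, 3), 8), ((0, 5), (2, 4), 3), ((0, 6), (2, 3), 8), ((0, 6), (2, 4), 3), ((0, 7),
    (2, 3), 8), ((0, 7), (2, 4), 3), ((1, 0), (1, 0), 2), ((1, 0), (1, 3), 8), ((2, 0), (0,
    1), 1), ((2, 0), (0, 9), 7), ((5, 0), (7, 6), 3), ((5, 0), (7, 8), 6), ((6, 0), (8, 7),
    5), ((6, 0), (8, 9), 7), ((7, 0), (9, 0), 2), ((7, 0), (9, 8), 6)]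
  G := [[0, 0x5131661a1c661c1a8c4, 0x615131e184, 0x71c164d1a171ee18cc8, 0x513164d1a171e918cc8],
    [0, 0x514514c9131a9131aac4, 0x5131619181c4, 0x9189131ac451316514c8c,
    0x5144145911131e9131acc414889]]

noncomputable def n935 : Ent := ⟨e935, noF, [], [], []⟩

def c935 : PLift (Cov.check n935.C.D v935 = true) := ⟨by decide +kernel⟩

def b935 : PLift (entF (fidx ts) 400 935 n935 = true) := ⟨by decide +kernel⟩

theorem g935 : GoodF (fidx ts) 400 935 := GoodF.ofV v935 n935 c935.down b935.down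

/-- 464664:789/2 -/
noncomputable def e936 : SCfg where
  D := {
    a := 6
    L := 8
    kp := 5
    inn := [(0, 1), (1, 0), (1, 2), (1, 3), (2, 1), (3, 1), (3, 4), (4, 3), (4, 5), (5, 4)]
    mix := [(0, 0), (0, 1), (0, 2), (1, 0), (1, 2), (1, 3), (2, 2), (2, 3), (2, 4), (3, 0), (3, 3), (3,
      5), (3, 6), (4, 3), (4, 4), (4, 5), (4, 7), (5, 1), (5, 4), (5, 7)]
    cl := [0, 3, 2, 0, 1, 1, 5, 4]
    chq := [(0, 2), (2, 0)]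
    rng := [(0, 1), (0, 6), (1, 0), (1, 2), (1, 4), (1, 7), (2, 1), (2, 4), (3, 4), (4, 1), (4, 2), (4,
      3), (5, 6), (5, 7), (6, 0), (6, 5), (7, 1), (7, 5)]
    lev := [] }
  links := [[1, 6, 7, 8], [6, 0, 8, 2, 9, 3], [9, 1, 8, 10], [6, 1, 9, 4, 11, 12], [11, 3, 9, 10, 5, 13],
    [13, 4, 10, 7]]
  P := {
    a := 6
    N := 14
    nb := [450, 845, 1794, 6738, 11816, 9360, 4235, 9569, 1159, 1054, 948, 12312, 2120, 2224]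
    tri := [(0, 1, 6), (0, 1, 8), (0, 6, 7), (0, 7, 8), (1, 2, 8), (1, 2, 9), (1, 3, 6), (1, 3, 9), (2,
      8, 10), (2, 9, 10), (3, 4, 9), (3, 4, 11), (3, 6, 12), (3, 11, 12), (4, 5, 10), (4, 5, 13),
      (4, 9, 10), (4, 11, 13), (5, 7, 10), (5, 7, 13)]
    fin := [0, 0, 0, 0, 4, 5, 0, 5, 8, 0, 4, 4, 12, 13]
    chd := [(0, 8)]
    steps := [(0, 1), (0, 2), (0, 3), (0, 6), (0, 9), (4, 10), (4, 11), (5, 7)] }
  rep := [0, 4, 8, 5, 13, 12]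

noncomputable def v936 : Cov.CovD where
  P := 3
  N := 3
  pl := [1, 6, 7]
  lev := [⟨[], [], [(0, 2)], [3], [(0, 0, [2]), (2, 2, [0])]⟩,
    ⟨[], [(0, 0), (0, 2)], [(0, 0), (0, 2)], [], [(0, 0, [2]), (2, 2, [0]), (3, 0, [2])]⟩,
    ⟨[(0, 1)], [(0, 2), (1, 0), (1, 1), (1, 2)], [(0, 1), (0, 2), (1, 2)], [], [(2, 2,
      [0]), (3, 0, [2]), (4, 1, [])]⟩,
    ⟨[(0, 1), (1, 2)], [(0, 0), (1, 0), (1, 1), (1, 2), (2, 0)], [(0, 0), (0, 1)], [5],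
      [(0, 0, [2]), (3, 0, [2]), (5, 1, [])]⟩,
    ⟨[(1, 3)], [(1, 0), (2, 0), (2, 1), (3, 0), (3, 1)], [(0, 1), (1, 1)], [4], [(3, 0,
      [2]), (4, 1, []), (5, 1, [])]⟩,
    ⟨[(3, 4)], [(2, 1), (4, 0), (4, 1)], [], [3, 4], [(4, 1, [])]⟩]
  Ta := [((0, 1), 0, 3), ((0, 6), 0, 5), ((3, 4), 0, 1), ((4, 1), 1, 3), ((4, 2), 1, 2), ((4, 3),
    1, 0), ((5, 6), 1, 5), ((5, 7), 1, 4)]
  Tb := [((0, 1, 6), 0, 3, 5), ((1, 0, 2), 3, 0, 2), ((1, 0, 4), 3, 0, 1), ((1, 0, 7), 3, 0, 4),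
    ((1, 2, 4), 3, 2, 1), ((1, 2, 7), 3, 2, 4), ((1, 4, 7), 3, 1, 4), ((2, 1, 4), 2, 3, 1),
    ((4, 1, 2), 1, 3, 2), ((4, 1, 3), 1, 3, 0), ((4, 2, 3), 1, 2, 0), ((5, 6, 7), 1, 5, 4),
    ((6, 0, 5), 5, 0, 1), ((7, 1, 5), 4, 3, 1)]
  Tc := []
  Td := [((0, 2), (0, 1), 3), ((0, 2), (0, 6), 5), ((0, 2), (3, 4), 1), ((2, 0), (2, 1), 3), ((2,
    0), (2, 4), 1)]
  G := [[0, 0, 0x81c28414c284c, 0x81c24814c284c, 0x84c21815c288a], [0, 0, 0x32512cc482, 0,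
    0x72ca3cc122], [0, 0xca6a6ca841, 0x81c24814c284a, 0x1dc2841, 0x1dc2881], [0, 0,
    0x12c329c842, 0, 0x21c12cc821]]

noncomputable def n936 : Ent := ⟨e936, noF, [], [], []⟩

def c936 : PLift (Cov.check n936.C.D v936 = true) := ⟨by decide +kernel⟩

def b936 : PLift (entF (fidx ts) 400 936 n936 = true) := ⟨by decide +kernel⟩

theorem g936 : GoodF (fidx ts) 400 936 := GoodF.ofV v936 n936 c936.down b936.down

/-- 464664:789/1 -/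
noncomputable def e937 : SCfg where
  D := {
    a := 6
    L := 9
    kp := 6
    inn := [(0, 1), (1, 0), (1, 2), (1, 3), (2, 1), (3, 1), (3, 4), (4, 3), (4, 5), (5, 4)]
    mix := [(0, 0), (0, 1), (0, 2), (1, 0), (1, 2), (1, 3), (2, 2), (2, 3), (2, 4), (3, 0), (3, 3), (3,
      5), (3, 6), (4, 3), (4, 5), (4, 7), (4, 8), (5, 1), (5, 7), (5, 8)]
    cl := [0, 3, 2, 0, 5, 1, 6, 1, 4]
    chq := [(0, 2), (2, 0)]
    rng := [(0, 1), (0, 6), (1, 0), (1, 2), (1, 7), (1, 8), (2, 1), (2, 4), (3, 4), (3, 7), (4, 2), (4,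
      3), (5, 6), (5, 8), (6, 0), (6, 5), (7, 1), (7, 3), (8, 1), (8, 5)]
    lev := [] }
  links := [[1, 6, 7, 8], [6, 0, 8, 2, 9, 3], [9, 1, 8, 10], [6, 1, 9, 4, 11, 12], [11, 3, 9, 13, 5, 14],
    [14, 4, 13, 7]]
  P := {
    a := 6
    N := 15
    nb := [450, 845, 1794, 6738, 27176, 24720, 4235, 24929, 1159, 9246, 772, 20504, 2120, 688, 2224]
    tri := [(0, 1, 6), (0, 1, 8), (0, 6, 7), (0, 7, 8), (1, 2, 8), (1, 2, 9), (1, 3, 6), (1, 3, 9), (2,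
      8, 10), (2, 9, 10), (3, 4, 9), (3, 4, 11), (3, 6, 12), (3, 11, 12), (4, 5, 13), (4, 5, 14),
      (4, 9, 13), (4, 11, 14), (5, 7, 13), (5, 7, 14)]
    fin := [0, 0, 0, 0, 4, 5, 0, 5, 8, 0, 10, 4, 12, 4, 14]
    chd := [(0, 8)]
    steps := [(0, 1), (0, 2), (0, 3), (0, 6), (0, 9), (4, 13), (4, 11), (5, 7)] }
  rep := [0, 4, 8, 5, 14, 10, 12]

noncomputable def v937 : Cov.CovD where
  P := 3
  N := 4
  pl := [1, 4, 6, 8]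
  lev := [⟨[], [], [(0, 2)], [3], [(0, 0, [2]), (2, 2, [0])]⟩,
    ⟨[], [(0, 0), (0, 2)], [(0, 0), (0, 2)], [], [(0, 0, [2]), (2, 2, [0]), (3, 0, [2])]⟩,
    ⟨[(0, 1)], [(0, 2), (1, 0), (1, 2)], [(0, 2)], [5], [(2, 2, [0]), (3, 0, [2])]⟩,
    ⟨[(0, 1), (1, 2)], [(0, 0), (1, 0), (1, 1), (1, 2), (2, 0)], [(0, 0), (0, 1)], [6],
      [(0, 0, [2]), (3, 0, [2]), (5, 1, [])]⟩,
    ⟨[(1, 3)], [(1, 0), (2, 0), (3, 0), (3, 1)], [(0, 1), (1, 1)], [4], [(3, 0, [2]), (5,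
      1, []), (7, 1, [])]⟩,
    ⟨[(3, 4)], [(4, 0), (4, 1)], [], [3, 4], [(7, 1, [])]⟩]
  Ta := [((0, 1), 0, 3), ((0, 6), 0, 6), ((3, 4), 0, 5), ((3, 7), 0, 1), ((5, 6), 1, 6), ((5, 8),
    1, 4), ((7, 1), 1, 3), ((7, 3), 1, 0)]
  Tb := [((0, 1, 6), 0, 3, 6), ((1, 0, 2), 3, 0, 2), ((1, 0, 7), 3, 0, 1), ((1, 0, 8), 3, 0, 4),
    ((1, 2, 7), 3, 2, 1), ((1, 2, 8), 3, 2, 4), ((1, 7, 8), 3, 1, 4), ((2, 1, 4), 2, 3, 5),
    ((3, 4, 7), 0, 5, 1), ((4, 2, 3), 5, 2, 0), ((5, 6, 8), 1, 6, 4), ((6, 0, 5), 6, 0, 1),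
    ((7, 1, 3), 1, 3, 0), ((8, 1, 5), 4, 3, 1)]
  Tc := []
  Td := [((0, 2), (0, 1), 3), ((0, 2), (0, 6), 6), ((0, 2), (3, 4), 5), ((0, 2), (3, 7), 1), ((2,
    0), (2, 1), 3), ((2, 0), (2, 4), 5)]
  G := [[0, 0, 0x32512ccc2521cc682, 0x82c4121c81c21c4124c81cc, 0x63c63cc122], [0, 0,
    0x81c28414c22859c244e, 0x81c21414c218c, 0x81c21814c218a], [0, 0, 0x32512cc32521cc682,
    0x21c412c4c12c812c8cc1, 0x12c21cc12c12cca21], [0, 0xca6c6acca6a6cac41,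
    0x81c22414c2841dc248e, 0x95c295c2c81, 0x1dc2d1c2a81]]

noncomputable def n937 : Ent := ⟨e937, noF, [], [], [(10, 13, [87897818358406171357428020359653357189577334862559921733633, 0])]⟩

def c937 : PLift (Cov.check n937.C.D v937 = true) := ⟨by decide +kernel⟩

def b937 : PLift (entF (fidx ts) 400 937 n937 = true) := ⟨by decide +kernel⟩

theorem g937 : GoodF (fidx ts) 400 937 := GoodF.ofV v937 n937 c937.down b937.down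

/-- 464664:789/4 -/
noncomputable def e938 : SCfg where
  D := {
    a := 6
    L := 8
    kp := 5
    inn := [(0, 1), (1, 0), (1, 2), (1, 3), (2, 1), (3, 1), (3, 4), (4, 3), (4, 5), (5, 4)]
    mix := [(0, 0), (0, 1), (0, 2), (1, 0), (1, 2), (1, 3), (2, 2), (2, 3), (2, 4), (3, 0), (3, 3), (3,
      5), (3, 6), (4, 3), (4, 4), (4, 5), (4, 7), (5, 2), (5, 4), (5, 7)]
    cl := [0, 4, 2, 0, 1, 1, 5, 3]
    chq := [(0, 2), (2, 0)]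
    rng := [(0, 1), (0, 6), (1, 0), (1, 2), (2, 1), (2, 4), (2, 7), (3, 4), (4, 2), (4, 3), (5, 6), (5,
      7), (6, 0), (6, 5), (7, 2), (7, 5)]
    lev := [] }
  links := [[1, 6, 7, 8], [6, 0, 8, 2, 9, 3], [9, 1, 8, 10], [6, 1, 9, 4, 11, 12], [11, 3, 9, 10, 5, 13],
    [13, 4, 10, 8]]
  P := {
    a := 6
    N := 14
    nb := [450, 845, 1794, 6738, 11816, 9488, 4235, 321, 9383, 1054, 820, 12312, 2120, 2352]
    tri := [(0, 1, 6), (0, 1, 8), (0, 6, 7), (0, 7, 8), (1, 2, 8), (1, 2, 9), (1, 3, 6), (1, 3, 9), (2,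
      8, 10), (2, 9, 10), (3, 4, 9), (3, 4, 11), (3, 6, 12), (3, 11, 12), (4, 5, 10), (4, 5, 13),
      (4, 9, 10), (4, 11, 13), (5, 8, 10), (5, 8, 13)]
    fin := [0, 0, 0, 0, 4, 5, 0, 7, 5, 0, 4, 4, 12, 13]
    chd := [(0, 5)]
    steps := [(0, 1), (0, 2), (0, 3), (0, 6), (0, 9), (4, 10), (4, 11), (5, 8)] }
  rep := [0, 4, 5, 13, 7, 12]

noncomputable def v938 : Cov.CovD where
  P := 3
  N := 3
  pl := [1, 6, 7]
  lev := [⟨[], [], [(0, 2)], [4], [(0, 0, [2]), (2, 2, [0])]⟩,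
    ⟨[], [(0, 0), (0, 2)], [(0, 0), (0, 2)], [], [(0, 0, [2]), (2, 2, [0]), (3, 0, [2])]⟩,
    ⟨[(0, 1)], [(0, 2), (1, 0), (1, 1), (1, 2)], [(0, 1), (0, 2), (1, 2)], [], [(2, 2,
      [0]), (3, 0, [2]), (4, 1, [])]⟩,
    ⟨[(0, 1), (1, 2)], [(0, 0), (1, 0), (1, 1), (1, 2), (2, 0)], [(0, 0), (0, 1)], [5],
      [(0, 0, [2]), (3, 0, [2]), (5, 1, [])]⟩,
    ⟨[(1, 3)], [(1, 0), (2, 0), (2, 1), (3, 0), (3, 1)], [(0, 1), (1, 1)], [3], [(3, 0,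
      [2]), (4, 1, []), (5, 1, [])]⟩,
    ⟨[(3, 4)], [(0, 2), (1, 2), (2, 1), (2, 2), (4, 0), (4, 1), (4, 2)], [(1, 2)], [3],
      [(2, 2, [0]), (4, 1, [])]⟩]
  Ta := [((0, 1), 0, 4), ((0, 6), 0, 5), ((3, 4), 0, 1), ((4, 2), 1, 2), ((4, 3), 1, 0), ((5, 6),
    1, 5), ((5, 7), 1, 3)]
  Tb := [((0, 1, 6), 0, 4, 5), ((1, 0, 2), 4, 0, 2), ((2, 1, 4), 2, 4, 1), ((2, 1, 7), 2, 4, 3),
    ((2, 4, 7), 2, 1, 3), ((4, 2, 3), 1, 2, 0), ((5, 6, 7), 1, 5, 3), ((6, 0, 5), 5, 0, 1),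
    ((7, 2, 5), 3, 2, 1)]
  Tc := []
  Td := [((0, 2), (0, 1), 4), ((0, 2), (0, 6), 5), ((0, 2), (3, 4), 1), ((2, 0), (2, 1), 4), ((2,
    0), (2, 4), 1), ((2, 0), (2, 7), 3)]
  G := [[0, 0, 0xc128484c2846, 0x14c21884c218c, 0x81c21881c288a], [0, 0, 0xc1a1c8461c1c82a, 0,
    0x32981cc828182421cc38a], [0, 0x84a4866841, 0xc1284c12486, 0x81c2881, 0x81c2881], [0, 0,
    0x61c1c42c161c42c, 0, 0x21c82cc821]]

noncomputable def n938 : Ent := ⟨e938, noF, [], [], []⟩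

def c938 : PLift (Cov.check n938.C.D v938 = true) := ⟨by decide +kernel⟩

def b938 : PLift (entF (fidx ts) 400 938 n938 = true) := ⟨by decide +kernel⟩

theorem g938 : GoodF (fidx ts) 400 938 := GoodF.ofV v938 n938 c938.down b938.down

/-- 464664:789/3 -/
noncomputable def e939 : SCfg where
  D := {
    a := 6
    L := 9
    kp := 6
    inn := [(0, 1), (1, 0), (1, 2), (1, 3), (2, 1), (3, 1), (3, 4), (4, 3), (4, 5), (5, 4)]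
    mix := [(0, 0), (0, 1), (0, 2), (1, 0), (1, 2), (1, 3), (2, 2), (2, 3), (2, 4), (3, 0), (3, 3), (3,
      5), (3, 6), (4, 3), (4, 5), (4, 7), (4, 8), (5, 2), (5, 7), (5, 8)]
    cl := [0, 4, 1, 0, 5, 2, 6, 2, 3]
    chq := [(0, 1), (1, 0)]
    rng := [(0, 1), (0, 6), (1, 0), (1, 2), (2, 1), (2, 4), (2, 7), (2, 8), (3, 4), (3, 7), (4, 2), (4,
      3), (5, 6), (5, 8), (6, 0), (6, 5), (7, 2), (7, 3), (8, 2), (8, 5)]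
    lev := [] }
  links := [[1, 6, 7, 8], [6, 0, 8, 2, 9, 3], [9, 1, 8, 10], [6, 1, 9, 4, 11, 12], [11, 3, 9, 13, 5, 14],
    [14, 4, 13, 8]]
  P := {
    a := 6
    N := 15
    nb := [450, 845, 1794, 6738, 27176, 24848, 4235, 321, 25767, 9246, 772, 20504, 2120, 816, 2352]
    tri := [(0, 1, 6), (0, 1, 8), (0, 6, 7), (0, 7, 8), (1, 2, 8), (1, 2, 9), (1, 3, 6), (1, 3, 9), (2,
      8, 10), (2, 9, 10), (3, 4, 9), (3, 4, 11), (3, 6, 12), (3, 11, 12), (4, 5, 13), (4, 5, 14),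
      (4, 9, 13), (4, 11, 14), (5, 8, 13), (5, 8, 14)]
    fin := [0, 0, 0, 0, 4, 5, 0, 7, 5, 0, 10, 4, 12, 4, 14]
    chd := [(0, 5)]
    steps := [(0, 1), (0, 2), (0, 3), (0, 6), (0, 9), (4, 13), (4, 11), (5, 8)] }
  rep := [0, 5, 4, 14, 7, 10, 12]

noncomputable def v939 : Cov.CovD where
  P := 3
  N := 4
  pl := [1, 4, 6, 8]
  lev := [⟨[], [], [(0, 1)], [4], [(0, 0, [1]), (2, 1, [0])]⟩,
    ⟨[], [(0, 0), (0, 1)], [(0, 0), (0, 1)], [], [(0, 0, [1]), (2, 1, [0]), (3, 0, [1])]⟩,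
    ⟨[(0, 1)], [(0, 1), (1, 0), (1, 1)], [(0, 1)], [5], [(2, 1, [0]), (3, 0, [1])]⟩,
    ⟨[(0, 1), (1, 2)], [(0, 0), (1, 0), (1, 1), (1, 2), (2, 0)], [(0, 0), (0, 2)], [6],
      [(0, 0, [1]), (3, 0, [1]), (5, 2, [])]⟩,
    ⟨[(1, 3)], [(1, 0), (2, 0), (3, 0), (3, 2)], [(0, 2), (2, 2)], [3], [(3, 0, [1]), (5,
      2, []), (7, 2, [])]⟩,
    ⟨[(3, 4)], [(0, 1), (1, 1), (2, 1), (4, 0), (4, 1), (4, 2)], [(1, 2)], [3], [(2, 1,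
      [0]), (7, 2, [])]⟩]
  Ta := [((0, 1), 0, 4), ((0, 6), 0, 6), ((3, 4), 0, 5), ((3, 7), 0, 2), ((5, 6), 2, 6), ((5, 8),
    2, 3), ((7, 2), 2, 1), ((7, 3), 2, 0)]
  Tb := [((0, 1, 6), 0, 4, 6), ((1, 0, 2), 4, 0, 1), ((2, 1, 4), 1, 4, 5), ((2, 1, 7), 1, 4, 2),
    ((2, 1, 8), 1, 4, 3), ((2, 4, 7), 1, 5, 2), ((2, 4, 8), 1, 5, 3), ((2, 7, 8), 1, 2, 3),
    ((3, 4, 7), 0, 5, 2), ((4, 2, 3), 5, 1, 0), ((5, 6, 8), 2, 6, 3), ((6, 0, 5), 6, 0, 2),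
    ((7, 2, 3), 2, 1, 0), ((8, 2, 5), 3, 1, 2)]
  Tc := []
  Td := [((0, 1), (0, 1), 4), ((0, 1), (0, 6), 6), ((0, 1), (3, 4), 5), ((0, 1), (3, 7), 2), ((1,
    0), (2, 1), 4), ((1, 0), (2, 4), 5), ((1, 0), (2, 7), 2), ((1, 0), (2, 8), 3)]
  G := [[0, 0x61c1c22c161c42a1c1c82e, 0, 0, 0x41a84aa1414a81aa14c], [0, 0xc1244c122411c288e, 0,
    0x81c21814c218c, 0x81a41881a418c], [0, 0x11c61c84a161c2221c81cc42e, 0, 0,
    0x14a84aa41a14aac41], [0, 0x185224c1284849248e, 0x84a84c648684aac81, 0x84c214c2c81,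
    0x81a481a4c81]]

noncomputable def n939 : Ent := ⟨e939, noF, [], [], [(10, 13, [87897818358406171357428020359653357189577334862559921741825, 0])]⟩

def c939 : PLift (Cov.check n939.C.D v939 = true) := ⟨by decide +kernel⟩

def b939 : PLift (entF (fidx ts) 400 939 n939 = true) := ⟨by decide +kernel⟩

theorem g939 : GoodF (fidx ts) 400 939 := GoodF.ofV v939 n939 c939.down b939.down

/-- 464664:789/5 -/
noncomputable def e940 : SCfg where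
  D := {
    a := 6
    L := 9
    kp := 6
    inn := [(0, 1), (1, 0), (1, 2), (1, 3), (2, 1), (3, 1), (3, 4), (4, 3), (4, 5), (5, 4)]
    mix := [(0, 0), (0, 1), (0, 2), (1, 0), (1, 2), (1, 3), (2, 2), (2, 3), (2, 4), (3, 0), (3, 3), (3,
      5), (3, 6), (4, 3), (4, 4), (4, 5), (4, 7), (5, 4), (5, 7), (5, 8)]
    cl := [0, 4, 2, 0, 1, 1, 5, 3, 6]
    chq := [(0, 2), (2, 0)]
    rng := [(0, 1), (0, 6), (1, 0), (1, 2), (2, 1), (2, 4), (3, 4), (4, 2), (4, 3), (4, 8), (5, 6), (5,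
      7), (6, 0), (6, 5), (7, 5), (7, 8), (8, 4), (8, 7)]
    lev := [] }
  links := [[1, 6, 7, 8], [6, 0, 8, 2, 9, 3], [9, 1, 8, 10], [6, 1, 9, 4, 11, 12], [11, 3, 9, 10, 5, 13],
    [13, 4, 10, 14]]
  P := {
    a := 6
    N := 15
    nb := [450, 845, 1794, 6738, 11816, 25616, 4235, 321, 1159, 1054, 17204, 12312, 2120, 18480, 9248]
    tri := [(0, 1, 6), (0, 1, 8), (0, 6, 7), (0, 7, 8), (1, 2, 8), (1, 2, 9), (1, 3, 6), (1, 3, 9), (2,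
      8, 10), (2, 9, 10), (3, 4, 9), (3, 4, 11), (3, 6, 12), (3, 11, 12), (4, 5, 10), (4, 5, 13),
      (4, 9, 10), (4, 11, 13), (5, 10, 14), (5, 13, 14)]
    fin := [0, 0, 0, 0, 4, 4, 0, 7, 8, 0, 4, 4, 12, 13, 14]
    chd := [(0, 8)]
    steps := [(0, 1), (0, 2), (0, 3), (0, 6), (0, 9), (4, 5), (4, 10), (4, 11)] }
  rep := [0, 4, 8, 13, 7, 12, 14]

noncomputable def v940 : Cov.CovD where
  P := 3
  N := 4
  pl := [1, 6, 7, 8]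
  lev := [⟨[], [], [(0, 2)], [4], [(0, 0, [2]), (2, 2, [0])]⟩,
    ⟨[], [(0, 0), (0, 2)], [(0, 0), (0, 2)], [], [(0, 0, [2]), (2, 2, [0]), (3, 0, [2])]⟩,
    ⟨[(0, 1)], [(0, 2), (1, 0), (1, 1), (1, 2)], [(0, 1), (0, 2), (1, 2)], [], [(2, 2,
      [0]), (3, 0, [2]), (4, 1, [])]⟩,
    ⟨[(0, 1), (1, 2)], [(0, 0), (1, 0), (1, 1), (1, 2), (2, 0)], [(0, 0), (0, 1)], [5],
      [(0, 0, [2]), (3, 0, [2]), (5, 1, [])]⟩,
    ⟨[(1, 3)], [(1, 0), (2, 0), (2, 1), (3, 0), (3, 1)], [(0, 1), (1, 1)], [3], [(3, 0,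
      [2]), (4, 1, []), (5, 1, [])]⟩,
    ⟨[(3, 4)], [(2, 1), (4, 0), (4, 1)], [], [3, 6], [(4, 1, [])]⟩]
  Ta := [((0, 1), 0, 4), ((0, 6), 0, 5), ((3, 4), 0, 1), ((4, 2), 1, 2), ((4, 3), 1, 0), ((4, 8),
    1, 6), ((5, 6), 1, 5), ((5, 7), 1, 3)]
  Tb := [((0, 1, 6), 0, 4, 5), ((1, 0, 2), 4, 0, 2), ((2, 1, 4), 2, 4, 1), ((4, 2, 3), 1, 2, 0),
    ((4, 2, 8), 1, 2, 6), ((4, 3, 8), 1, 0, 6), ((5, 6, 7), 1, 5, 3), ((6, 0, 5), 5, 0, 1),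
    ((7, 5, 8), 3, 1, 6), ((8, 4, 7), 6, 1, 3)]
  Tc := []
  Td := [((0, 2), (0, 1), 4), ((0, 2), (0, 6), 5), ((0, 2), (3, 4), 1), ((2, 0), (2, 1), 4), ((2,
    0), (2, 4), 1)]
  G := [[0, 0, 0x95c28495c2886, 0x95c24895c248c, 0x95c21895c288a], [0, 0,
    0x3a546a58c82e5369c846, 0, 0x36ce2cc122e592cc82a], [0, 0xc6aa6c6881, 0x95c24895c2886,
    0x95c2441, 0x95c2881], [0, 0, 0x6a592cc48c25c29c426, 0, 0x25c6acc821]]

noncomputable def n940 : Ent := ⟨e940, noF, [], [], [(7, 14, [81620716623019490593592230936445690773474979418095887220737, 0]), (8, 14, [81620716623019490593592230936445690773474979418095887228929, 0])]⟩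

def c940 : PLift (Cov.check n940.C.D v940 = true) := ⟨by decide +kernel⟩

def b940 : PLift (entF (fidx ts) 400 940 n940 = true) := ⟨by decide +kernel⟩

theorem g940 : GoodF (fidx ts) 400 940 := GoodF.ofV v940 n940 c940.down b940.down

/-- 464664:789 -/
noncomputable def e941 : SCfg where
  D := {
    a := 6
    L := 10
    kp := 7
    inn := [(0, 1), (1, 0), (1, 2), (1, 3), (2, 1), (3, 1), (3, 4), (4, 3), (4, 5), (5, 4)]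
    mix := [(0, 0), (0, 1), (0, 2), (1, 0), (1, 2), (1, 3), (2, 2), (2, 3), (2, 4), (3, 0), (3, 3), (3,
      5), (3, 6), (4, 3), (4, 5), (4, 7), (4, 8), (5, 7), (5, 8), (5, 9)]
    cl := [0, 4, 2, 0, 5, 1, 6, 1, 3, 7]
    chq := [(0, 2), (2, 0)]
    rng := [(0, 1), (0, 6), (1, 0), (1, 2), (2, 1), (2, 4), (3, 4), (3, 7), (4, 2), (4, 3), (5, 6), (5,
      8), (6, 0), (6, 5), (7, 3), (7, 9), (8, 5), (8, 9), (9, 7), (9, 8)]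
    lev := [] }
  links := [[1, 6, 7, 8], [6, 0, 8, 2, 9, 3], [9, 1, 8, 10], [6, 1, 9, 4, 11, 12], [11, 3, 9, 13, 5, 14],
    [14, 4, 13, 15]]
  P := {
    a := 6
    N := 16
    nb := [450, 845, 1794, 6738, 27176, 57360, 4235, 321, 1159, 9246, 772, 20504, 2120, 33328, 34864,
      24608]
    tri := [(0, 1, 6), (0, 1, 8), (0, 6, 7), (0, 7, 8), (1, 2, 8), (1, 2, 9), (1, 3, 6), (1, 3, 9), (2,
      8, 10), (2, 9, 10), (3, 4, 9), (3, 4, 11), (3, 6, 12), (3, 11, 12), (4, 5, 13), (4, 5, 14),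
      (4, 9, 13), (4, 11, 14), (5, 13, 15), (5, 14, 15)]
    fin := [0, 0, 0, 0, 4, 4, 0, 7, 8, 0, 10, 4, 12, 4, 14, 15]
    chd := [(0, 8)]
    steps := [(0, 1), (0, 2), (0, 3), (0, 6), (0, 9), (4, 5), (4, 13), (4, 11)] }
  rep := [0, 4, 8, 14, 7, 10, 12, 15]

noncomputable def v941 : Cov.CovD where
  P := 3
  N := 5
  pl := [1, 4, 6, 8, 9]
  lev := [⟨[], [], [(0, 2)], [4], [(0, 0, [2]), (2, 2, [0])]⟩,
    ⟨[], [(0, 0), (0, 2)], [(0, 0), (0, 2)], [], [(0, 0, [2]), (2, 2, [0]), (3, 0, [2])]⟩,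
    ⟨[(0, 1)], [(0, 2), (1, 0), (1, 2)], [(0, 2)], [5], [(2, 2, [0]), (3, 0, [2])]⟩,
    ⟨[(0, 1), (1, 2)], [(0, 0), (1, 0), (1, 1), (1, 2), (2, 0)], [(0, 0), (0, 1)], [6],
      [(0, 0, [2]), (3, 0, [2]), (5, 1, [])]⟩,
    ⟨[(1, 3)], [(1, 0), (2, 0), (3, 0), (3, 1)], [(0, 1), (1, 1)], [3], [(3, 0, [2]), (5,
      1, []), (7, 1, [])]⟩,
    ⟨[(3, 4)], [(4, 0), (4, 1)], [], [3, 7], [(7, 1, [])]⟩]
  Ta := [((0, 1), 0, 4), ((0, 6), 0, 6), ((3, 4), 0, 5), ((3, 7), 0, 1), ((5, 6), 1, 6), ((5, 8),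
    1, 3), ((7, 3), 1, 0), ((7, 9), 1, 7)]
  Tb := [((0, 1, 6), 0, 4, 6), ((1, 0, 2), 4, 0, 2), ((2, 1, 4), 2, 4, 5), ((3, 4, 7), 0, 5, 1),
    ((4, 2, 3), 5, 2, 0), ((5, 6, 8), 1, 6, 3), ((6, 0, 5), 6, 0, 1), ((7, 3, 9), 1, 0, 7),
    ((8, 5, 9), 3, 1, 7), ((9, 7, 8), 7, 1, 3)]
  Tc := []
  Td := [((0, 2), (0, 1), 4), ((0, 2), (0, 6), 6), ((0, 2), (3, 4), 5), ((0, 2), (3, 7), 1), ((2,
    0), (2, 1), 4), ((2, 0), (2, 4), 5)]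
  G := [[0, 0, 0x482d2bcc426a592cc2836cb25c82e, 0xa3c4125c81c3492cc16881cc,
    0x36ca3cc1225c92cc12a], [0, 0, 0x95c295c2a495c295c2c46, 0x95c21495c218c,
    0x95c21895c218a], [0, 0, 0xc25b25c25c92cc6225c2bcc2e992ccc2c, 0x92c492c4c25c825c8cc1,
    0x25c92cc72c92cca21], [0, 0xc6aa6c6ca6a6cac81, 0x95c24495c28895c224e, 0x95c295c2c81,
    0x95c295c2a81]]

noncomputable def n941 : Ent := ⟨e941, noF, [], [], [(7, 15, [360035742630636841211993100915356868655746945586763691011510273, 0]), (8, 15, [360035742630636841211993100915356868655746945586763691011518465, 0]), (10, 13, [385753028440516072301428330182238677962518295842732840410857473, 0])]⟩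

def c941 : PLift (Cov.check n941.C.D v941 = true) := ⟨by decide +kernel⟩

def b941 : PLift (entF (fidx ts) 400 941 n941 = true) := ⟨by decide +kernel⟩

theorem g941 : GoodF (fidx ts) 400 941 := GoodF.ofV v941 n941 c941.down b941.down

/-- 464654:792/1 -/
noncomputable def e942 : SCfg where
  D := {
    a := 6
    L := 8
    kp := 6
    inn := [(0, 1), (1, 0), (1, 2), (1, 3), (2, 1), (3, 1), (3, 4), (4, 3), (4, 5), (5, 4)]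
    mix := [(0, 0), (0, 1), (0, 2), (1, 0), (1, 2), (1, 3), (2, 2), (2, 3), (2, 4), (3, 0), (3, 3), (3,
      5), (3, 6), (4, 3), (4, 5), (4, 7), (5, 3), (5, 4), (5, 7)]
    cl := [0, 5, 1, 0, 3, 2, 6, 4]
    chq := [(0, 1), (0, 2), (1, 0), (2, 0), (2, 3), (3, 2)]
    rng := [(0, 1), (0, 6), (1, 0), (1, 2), (2, 1), (2, 4), (3, 4), (4, 2), (4, 3), (4, 7), (5, 6), (5,
      7), (6, 0), (6, 5), (7, 4), (7, 5)]
    lev := [] }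
  links := [[1, 6, 7, 8], [6, 0, 8, 2, 9, 3], [9, 1, 8, 10], [6, 1, 9, 4, 11, 12], [11, 3, 9, 5, 13],
    [13, 4, 9, 10]]
  P := {
    a := 6
    N := 14
    nb := [450, 845, 1794, 6738, 10792, 9744, 4235, 321, 1159, 1086, 8996, 12312, 2120, 3120]
    tri := [(0, 1, 6), (0, 1, 8), (0, 6, 7), (0, 7, 8), (1, 2, 8), (1, 2, 9), (1, 3, 6), (1, 3, 9), (2,
      8, 10), (2, 9, 10), (3, 4, 9), (3, 4, 11), (3, 6, 12), (3, 11, 12), (4, 5, 9), (4, 5, 13),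
      (4, 11, 13), (5, 9, 10), (5, 10, 13)]
    fin := [0, 0, 0, 0, 4, 4, 0, 7, 8, 0, 4, 11, 12, 13]
    chd := [(0, 8), (0, 11), (4, 11)]
    steps := [(0, 1), (0, 2), (0, 3), (0, 6), (0, 9), (4, 5), (4, 10)] }
  rep := [0, 8, 11, 4, 13, 7, 12]

noncomputable def v942 : Cov.CovD where
  P := 3
  N := 4
  pl := [1, 6, 7]
  lev := [⟨[], [], [(0, 1)], [5], [(0, 0, [1, 2]), (2, 1, [0])]⟩,
    ⟨[], [(0, 0), (0, 1)], [(0, 0), (0, 1)], [], [(0, 0, [1, 2]), (2, 1, [0]), (3, 0, [1,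
      2])]⟩,
    ⟨[(0, 1)], [(0, 1), (1, 0), (1, 1), (1, 3)], [(0, 1), (0, 3), (1, 3)], [], [(2, 1,
      [0]), (3, 0, [1, 2]), (4, 3, [2])]⟩,
    ⟨[(0, 1), (1, 2)], [(0, 0), (1, 0), (1, 1), (1, 2), (2, 0)], [(0, 0), (0, 2)], [6],
      [(0, 0, [1, 2]), (3, 0, [1, 2]), (5, 2, [0, 3])]⟩,
    ⟨[(1, 3)], [(1, 0), (2, 0), (3, 0), (3, 2)], [(0, 2)], [4], [(3, 0, [1, 2]), (5, 2, [0,
      3])]⟩,
    ⟨[(3, 4)], [(1, 0), (2, 0), (2, 3), (3, 0), (4, 0), (4, 2), (4, 3)], [(0, 3)], [4],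
      [(3, 0, [1, 2]), (4, 3, [2])]⟩]
  Ta := [((0, 1), 0, 5), ((0, 6), 0, 6), ((3, 4), 0, 3)]
  Tb := [((0, 1, 6), 0, 5, 6), ((1, 0, 2), 5, 0, 1), ((2, 1, 4), 1, 5, 3), ((4, 2, 3), 3, 1, 0),
    ((4, 2, 7), 3, 1, 4), ((4, 3, 7), 3, 0, 4), ((5, 6, 7), 2, 6, 4), ((6, 0, 5), 6, 0, 2),
    ((7, 4, 5), 4, 3, 2)]
  Tc := [(0, 1, 2), (2, 0, 3)]
  Td := [((0, 1), (0, 1), 5), ((0, 1), (0, 6), 6), ((0, 1), (3, 4), 3), ((0, 2), (0, 1), 5), ((0,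
    2), (0, 6), 6), ((0, 2), (3, 4), 3), ((1, 0), (2, 1), 5), ((1, 0), (2, 4), 3), ((2, 0),
    (5, 6), 6), ((2, 0), (5, 7), 4), ((2, 3), (5, 6), 6), ((2, 3), (5, 7), 4), ((3, 2), (4,
    2), 1), ((3, 2), (4, 3), 0), ((3, 2), (4, 7), 4)]
  G := [[0, 0x16ca69c2432513c88e28a, 0xca6a6ca181, 0x24412ece8c1c6ac416ac81cc,
    0x6cae4aa1412244ea48a1cc], [0, 0x21c36988e2416cc69c24a, 0xca6a6ca181,
    0x82c462c4c2ac824c8cc1, 0x8e6e24ea44884c1]]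

noncomputable def n942 : Ent := ⟨e942, noF, [], [], []⟩

def c942 : PLift (Cov.check n942.C.D v942 = true) := ⟨by decide +kernel⟩

def b942 : PLift (entF (fidx ts) 400 942 n942 = true) := ⟨by decide +kernel⟩

theorem g942 : GoodF (fidx ts) 400 942 := GoodF.ofV v942 n942 c942.down b942.down

/-- 464654:792 -/
noncomputable def e943 : SCfg where
  D := {
    a := 6
    L := 9
    kp := 7
    inn := [(0, 1), (1, 0), (1, 2), (1, 3), (2, 1), (3, 1), (3, 4), (4, 3), (4, 5), (5, 4)]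
    mix := [(0, 0), (0, 1), (0, 2), (1, 0), (1, 2), (1, 3), (2, 2), (2, 3), (2, 4), (3, 0), (3, 3), (3,
      5), (3, 6), (4, 3), (4, 5), (4, 7), (5, 3), (5, 7), (5, 8)]
    cl := [0, 5, 1, 0, 6, 2, 7, 3, 4]
    chq := [(0, 1), (0, 2), (1, 0), (2, 0), (2, 4), (4, 2)]
    rng := [(0, 1), (0, 6), (1, 0), (1, 2), (2, 1), (2, 4), (3, 4), (3, 8), (4, 2), (4, 3), (5, 6), (5,
      7), (6, 0), (6, 5), (7, 5), (7, 8), (8, 3), (8, 7)]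
    lev := [] }
  links := [[1, 6, 7, 8], [6, 0, 8, 2, 9, 3], [9, 1, 8, 10], [6, 1, 9, 4, 11, 12], [11, 3, 9, 5, 13],
    [13, 4, 9, 14]]
  P := {
    a := 6
    N := 15
    nb := [450, 845, 1794, 6738, 10792, 25104, 4235, 321, 1159, 17470, 772, 12312, 2120, 18480, 8736]
    tri := [(0, 1, 6), (0, 1, 8), (0, 6, 7), (0, 7, 8), (1, 2, 8), (1, 2, 9), (1, 3, 6), (1, 3, 9), (2,
      8, 10), (2, 9, 10), (3, 4, 9), (3, 4, 11), (3, 6, 12), (3, 11, 12), (4, 5, 9), (4, 5, 13),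
      (4, 11, 13), (5, 9, 14), (5, 13, 14)]
    fin := [0, 0, 0, 0, 4, 4, 0, 7, 8, 0, 10, 11, 12, 13, 4]
    chd := [(0, 8), (0, 11), (11, 4)]
    steps := [(0, 1), (0, 2), (0, 3), (0, 6), (0, 9), (4, 5), (4, 14)] }
  rep := [0, 8, 11, 13, 4, 7, 10, 12]

noncomputable def v943 : Cov.CovD where
  P := 3
  N := 5
  pl := [1, 4, 6, 7]
  lev := [⟨[], [], [(0, 1)], [5], [(0, 0, [1, 2]), (2, 1, [0])]⟩,
    ⟨[], [(0, 0), (0, 1)], [(0, 0), (0, 1)], [], [(0, 0, [1, 2]), (2, 1, [0]), (3, 0, [1,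
      2])]⟩,
    ⟨[(0, 1)], [(0, 1), (1, 0), (1, 1)], [(0, 1)], [6], [(2, 1, [0]), (3, 0, [1, 2])]⟩,
    ⟨[(0, 1), (1, 2)], [(0, 0), (1, 0), (1, 1), (1, 2), (2, 0)], [(0, 0), (0, 2)], [7],
      [(0, 0, [1, 2]), (3, 0, [1, 2]), (5, 2, [0, 4])]⟩,
    ⟨[(1, 3)], [(1, 0), (2, 0), (3, 0), (3, 2)], [(0, 2)], [3], [(3, 0, [1, 2]), (5, 2, [0,
      4])]⟩,
    ⟨[(3, 4)], [(1, 0), (2, 0), (3, 0), (4, 0), (4, 2), (4, 4)], [(0, 4)], [3], [(3, 0, [1,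
      2]), (8, 4, [2])]⟩]
  Ta := [((0, 1), 0, 5), ((0, 6), 0, 7), ((3, 4), 0, 6), ((3, 8), 0, 4)]
  Tb := [((0, 1, 6), 0, 5, 7), ((1, 0, 2), 5, 0, 1), ((2, 1, 4), 1, 5, 6), ((3, 4, 8), 0, 6, 4),
    ((4, 2, 3), 6, 1, 0), ((5, 6, 7), 2, 7, 3), ((6, 0, 5), 7, 0, 2), ((7, 5, 8), 3, 2, 4),
    ((8, 3, 7), 4, 0, 3)]
  Tc := [(0, 1, 2), (2, 0, 4)]
  Td := [((0, 1), (0, 1), 5), ((0, 1), (0, 6), 7), ((0, 1), (3, 4), 6), ((0, 1), (3, 8), 4), ((0,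
    2), (0, 1), 5), ((0, 2), (0, 6), 7), ((0, 2), (3, 4), 6), ((0, 2), (3, 8), 4), ((1, 0),
    (2, 1), 5), ((1, 0), (2, 4), 6), ((2, 0), (5, 6), 7), ((2, 0), (5, 7), 3), ((2, 4), (5,
    6), 7), ((2, 4), (5, 7), 3), ((4, 2), (8, 3), 0), ((4, 2), (8, 7), 3)]
  G := [[0, 0x329329c2421c325c4212c329c84e, 0xca6a6ca141, 0x6ac412ec81ce2c412ec81cc,
    0x4eae4aa146cae4aa14c], [0, 0x21c2e9c84325c29c2232521cc48e, 0xca6c6ac141,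
    0xe2c4e2c4c2ec86ac8cc1, 0x4eae4aa4eae4aac41]]

noncomputable def n943 : Ent := ⟨e943, noF, [], [], [(10, 14, [81620716623019490593592230936445690773474979418095887245313, 0])]⟩

def c943 : PLift (Cov.check n943.C.D v943 = true) := ⟨by decide +kernel⟩

def b943 : PLift (entF (fidx ts) 400 943 n943 = true) := ⟨by decide +kernel⟩

theorem g943 : GoodF (fidx ts) 400 943 := GoodF.ofV v943 n943 c943.down b943.down

/-- 464654:793/2 -/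
noncomputable def e944 : SCfg where
  D := {
    a := 6
    L := 7
    kp := 5
    inn := [(0, 1), (1, 0), (1, 2), (1, 3), (2, 1), (3, 1), (3, 4), (4, 3), (4, 5), (5, 4)]
    mix := [(0, 0), (0, 1), (0, 2), (1, 0), (1, 2), (1, 3), (2, 2), (2, 3), (2, 4), (3, 0), (3, 3), (3,
      5), (3, 6), (4, 3), (4, 4), (4, 5), (5, 1), (5, 4), (5, 5)]
    cl := [0, 4, 3, 0, 2, 1, 5]
    chq := [(0, 1), (0, 3), (1, 0), (1, 2), (2, 1), (3, 0)]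
    rng := [(0, 1), (0, 6), (1, 0), (1, 2), (1, 4), (1, 5), (2, 1), (2, 4), (3, 4), (4, 1), (4, 2), (4,
      3), (5, 1), (5, 6), (6, 0), (6, 5)]
    lev := [] }
  links := [[1, 6, 7, 8], [6, 0, 8, 2, 9, 3], [9, 1, 8, 10], [6, 1, 9, 4, 11, 12], [11, 3, 9, 10, 5],
    [11, 4, 10, 7]]
  P := {
    a := 6
    N := 13
    nb := [450, 845, 1794, 6738, 3624, 3216, 4235, 3425, 1159, 1054, 948, 4280, 2120]
    tri := [(0, 1, 6), (0, 1, 8), (0, 6, 7), (0, 7, 8), (1, 2, 8), (1, 2, 9), (1, 3, 6), (1, 3, 9), (2,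
      8, 10), (2, 9, 10), (3, 4, 9), (3, 4, 11), (3, 6, 12), (3, 11, 12), (4, 5, 10), (4, 5, 11),
      (4, 9, 10), (5, 7, 10), (5, 7, 11)]
    fin := [0, 0, 0, 0, 4, 5, 0, 5, 8, 0, 4, 11, 12]
    chd := [(0, 8), (0, 11), (4, 11)]
    steps := [(0, 1), (0, 2), (0, 3), (0, 6), (0, 9), (4, 10), (5, 7)] }
  rep := [0, 11, 4, 8, 5, 12]

noncomputable def v944 : Cov.CovD where
  P := 3
  N := 3
  pl := [1, 6]
  lev := [⟨[], [], [(0, 3)], [4], [(0, 0, [1, 3]), (2, 3, [0])]⟩,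
    ⟨[], [(0, 0), (0, 3)], [(0, 0), (0, 3)], [], [(0, 0, [1, 3]), (2, 3, [0]), (3, 0, [1,
      3])]⟩,
    ⟨[(0, 1)], [(0, 3), (1, 0), (1, 2), (1, 3)], [(0, 2), (0, 3), (2, 3)], [], [(2, 3,
      [0]), (3, 0, [1, 3]), (4, 2, [1])]⟩,
    ⟨[(0, 1), (1, 2)], [(0, 0), (1, 0), (1, 1), (1, 3), (2, 0)], [(0, 0), (0, 1)], [5],
      [(0, 0, [1, 3]), (3, 0, [1, 3]), (5, 1, [0, 2])]⟩,
    ⟨[(1, 3)], [(1, 0), (2, 0), (2, 2), (3, 0), (3, 1), (3, 2)], [(0, 1), (0, 2), (1, 2)],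
      [], [(3, 0, [1, 3]), (4, 2, [1]), (5, 1, [0, 2])]⟩,
    ⟨[(3, 4)], [(2, 2), (3, 1), (4, 0), (4, 1), (4, 2)], [(1, 2)], [4], [(4, 2, [1]), (5,
      1, [0, 2])]⟩]
  Ta := [((0, 1), 0, 4), ((0, 6), 0, 5), ((3, 4), 0, 2)]
  Tb := [((0, 1, 6), 0, 4, 5), ((1, 0, 2), 4, 0, 3), ((1, 0, 4), 4, 0, 2), ((1, 0, 5), 4, 0, 1),
    ((1, 2, 4), 4, 3, 2), ((1, 2, 5), 4, 3, 1), ((1, 4, 5), 4, 2, 1), ((2, 1, 4), 3, 4, 2),
    ((4, 1, 2), 2, 4, 3), ((4, 1, 3), 2, 4, 0), ((4, 2, 3), 2, 3, 0), ((5, 1, 6), 1, 4, 5),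
    ((6, 0, 5), 5, 0, 1)]
  Tc := [(0, 1, 3), (1, 0, 2)]
  Td := [((0, 1), (0, 1), 4), ((0, 1), (0, 6), 5), ((0, 1), (3, 4), 2), ((0, 3), (0, 1), 4), ((0,
    3), (0, 6), 5), ((0, 3), (3, 4), 2), ((1, 0), (5, 1), 4), ((1, 0), (5, 6), 5), ((1, 2),
    (5, 1), 4), ((1, 2), (5, 6), 5), ((2, 1), (4, 1), 4), ((2, 1), (4, 2), 3), ((2, 1), (4,
    3), 0), ((3, 0), (2, 1), 4), ((3, 0), (2, 4), 2)]
  G := [[0, 0x1414a418186161, 0, 0x5828c122c2, 0x884181888182e184818888188c2e18421818c16e], [0,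
    0x148118411821e1, 0xc84c48cc4c8c2a1, 0x18281424c2, 0x1888c8418481888c1818c22d]]

noncomputable def n944 : Ent := ⟨e944, noF, [], [], []⟩

def c944 : PLift (Cov.check n944.C.D v944 = true) := ⟨by decide +kernel⟩

def b944 : PLift (entF (fidx ts) 400 944 n944 = true) := ⟨by decide +kernel⟩

theorem g944 : GoodF (fidx ts) 400 944 := GoodF.ofV v944 n944 c944.down b944.down

/-- 464654:793/1 -/
noncomputable def e945 : SCfg where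
  D := {
    a := 6
    L := 8
    kp := 6
    inn := [(0, 1), (1, 0), (1, 2), (1, 3), (2, 1), (3, 1), (3, 4), (4, 3), (4, 5), (5, 4)]
    mix := [(0, 0), (0, 1), (0, 2), (1, 0), (1, 2), (1, 3), (2, 2), (2, 3), (2, 4), (3, 0), (3, 3), (3,
      5), (3, 6), (4, 3), (4, 5), (4, 7), (5, 1), (5, 5), (5, 7)]
    cl := [0, 2, 1, 0, 5, 3, 6, 4]
    chq := [(0, 1), (0, 3), (1, 0), (3, 0), (3, 4), (4, 3)]
    rng := [(0, 1), (0, 6), (1, 0), (1, 2), (1, 5), (1, 7), (2, 1), (2, 4), (3, 4), (3, 7), (4, 2), (4,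
      3), (5, 1), (5, 6), (6, 0), (6, 5), (7, 1), (7, 3)]
    lev := [] }
  links := [[1, 6, 7, 8], [6, 0, 8, 2, 9, 3], [9, 1, 8, 10], [6, 1, 9, 4, 11, 12], [11, 3, 9, 13, 5],
    [11, 4, 13, 7]]
  P := {
    a := 6
    N := 14
    nb := [450, 845, 1794, 6738, 10792, 10384, 4235, 10593, 1159, 9246, 772, 4280, 2120, 688]
    tri := [(0, 1, 6), (0, 1, 8), (0, 6, 7), (0, 7, 8), (1, 2, 8), (1, 2, 9), (1, 3, 6), (1, 3, 9), (2,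
      8, 10), (2, 9, 10), (3, 4, 9), (3, 4, 11), (3, 6, 12), (3, 11, 12), (4, 5, 11), (4, 5, 13),
      (4, 9, 13), (5, 7, 11), (5, 7, 13)]
    fin := [0, 0, 0, 0, 4, 5, 0, 5, 8, 0, 10, 11, 12, 4]
    chd := [(0, 8), (0, 11), (11, 4)]
    steps := [(0, 1), (0, 2), (0, 3), (0, 6), (0, 9), (4, 13), (5, 7)] }
  rep := [0, 8, 5, 11, 4, 10, 12]

noncomputable def v945 : Cov.CovD where
  P := 3
  N := 4
  pl := [1, 4, 6]
  lev := [⟨[], [], [(0, 1)], [2], [(0, 0, [1, 3]), (2, 1, [0])]⟩,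
    ⟨[], [(0, 0), (0, 1)], [(0, 0), (0, 1)], [], [(0, 0, [1, 3]), (2, 1, [0]), (3, 0, [1,
      3])]⟩,
    ⟨[(0, 1)], [(0, 1), (1, 0), (1, 1)], [(0, 1)], [5], [(2, 1, [0]), (3, 0, [1, 3])]⟩,
    ⟨[(0, 1), (1, 2)], [(0, 0), (1, 0), (1, 1), (1, 3), (2, 0)], [(0, 0), (0, 3)], [6],
      [(0, 0, [1, 3]), (3, 0, [1, 3]), (5, 3, [0, 4])]⟩,
    ⟨[(1, 3)], [(1, 0), (2, 0), (3, 0), (3, 3), (3, 4)], [(0, 3), (0, 4), (3, 4)], [], [(3,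
      0, [1, 3]), (5, 3, [0, 4]), (7, 4, [3])]⟩,
    ⟨[(3, 4)], [(3, 3), (4, 0), (4, 3), (4, 4)], [(3, 4)], [2], [(5, 3, [0, 4]), (7, 4,
      [3])]⟩]
  Ta := [((0, 1), 0, 2), ((0, 6), 0, 6), ((3, 4), 0, 5), ((3, 7), 0, 4)]
  Tb := [((0, 1, 6), 0, 2, 6), ((1, 0, 2), 2, 0, 1), ((1, 0, 5), 2, 0, 3), ((1, 0, 7), 2, 0, 4),
    ((1, 2, 5), 2, 1, 3), ((1, 2, 7), 2, 1, 4), ((1, 5, 7), 2, 3, 4), ((2, 1, 4), 1, 2, 5),
    ((3, 4, 7), 0, 5, 4), ((4, 2, 3), 5, 1, 0), ((5, 1, 6), 3, 2, 6), ((6, 0, 5), 6, 0, 3),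
    ((7, 1, 3), 4, 2, 0)]
  Tc := [(0, 1, 3), (3, 0, 4)]
  Td := [((0, 1), (0, 1), 2), ((0, 1), (0, 6), 6), ((0, 1), (3, 4), 5), ((0, 1), (3, 7), 4), ((0,
    3), (0, 1), 2), ((0, 3), (0, 6), 6), ((0, 3), (3, 4), 5), ((0, 3), (3, 7), 4), ((1, 0),
    (2, 1), 2), ((1, 0), (2, 4), 5), ((3, 0), (5, 1), 2), ((3, 0), (5, 6), 6), ((3, 4), (5,
    1), 2), ((3, 4), (5, 6), 6), ((4, 3), (7, 1), 2), ((4, 3), (7, 3), 0)]
  G := [[0, 0x1c3118761c31c3ac111e1c3c268, 0xc144c1c1e1ec1e1a2222cdc8, 0x121212e184,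
    0x112e811e61111e81c8], [0, 0x111e1c361c381c31187114bee84, 0, 0x52d269252d2ec9288c1,
    0x812e831e6812e831e6c192e8192e8cc1]]

noncomputable def n945 : Ent := ⟨e945, noF, [], [], [(10, 13, [18394062992640663726968434746027364144358640063421808641, 0])]⟩

def c945 : PLift (Cov.check n945.C.D v945 = true) := ⟨by decide +kernel⟩

def b945 : PLift (entF (fidx ts) 400 945 n945 = true) := ⟨by decide +kernel⟩

theorem g945 : GoodF (fidx ts) 400 945 := GoodF.ofV v945 n945 c945.down b945.down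

/-- 464654:793/3 -/
noncomputable def e946 : SCfg where
  D := {
    a := 6
    L := 8
    kp := 6
    inn := [(0, 1), (1, 0), (1, 2), (1, 3), (2, 1), (3, 1), (3, 4), (4, 3), (4, 5), (5, 4)]
    mix := [(0, 0), (0, 1), (0, 2), (1, 0), (1, 2), (1, 3), (2, 2), (2, 3), (2, 4), (3, 0), (3, 3), (3,
      5), (3, 6), (4, 3), (4, 4), (4, 5), (5, 4), (5, 5), (5, 7)]
    cl := [0, 5, 2, 0, 1, 3, 4, 6]
    chq := [(0, 2), (1, 3), (1, 4), (2, 0), (3, 1), (4, 1)]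
    rng := [(0, 1), (0, 6), (1, 0), (1, 2), (2, 1), (2, 4), (3, 4), (4, 2), (4, 3), (4, 7), (5, 6), (5,
      7), (6, 0), (6, 5), (7, 4), (7, 5)]
    lev := [] }
  links := [[1, 6, 7, 8], [6, 0, 8, 2, 9, 3], [9, 1, 8, 10], [6, 1, 9, 4, 11, 12], [11, 3, 9, 10, 5],
    [11, 4, 10, 13]]
  P := {
    a := 6
    N := 14
    nb := [450, 845, 1794, 6738, 3624, 11280, 4235, 321, 1159, 1054, 9012, 12344, 2120, 3104]
    tri := [(0, 1, 6), (0, 1, 8), (0, 6, 7), (0, 7, 8), (1, 2, 8), (1, 2, 9), (1, 3, 6), (1, 3, 9), (2,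
      8, 10), (2, 9, 10), (3, 4, 9), (3, 4, 11), (3, 6, 12), (3, 11, 12), (4, 5, 10), (4, 5, 11),
      (4, 9, 10), (5, 10, 13), (5, 11, 13)]
    fin := [0, 0, 0, 3, 3, 3, 0, 7, 8, 0, 3, 11, 12, 13]
    chd := [(0, 8), (3, 11), (3, 12)]
    steps := [(0, 1), (0, 2), (0, 6), (0, 9), (3, 4), (3, 5), (3, 10)] }
  rep := [0, 3, 8, 11, 12, 7, 13]

noncomputable def v946 : Cov.CovD where
  P := 3
  N := 4
  pl := [1, 7]
  lev := [⟨[], [], [(0, 2)], [5], [(0, 0, [2]), (2, 2, [0])]⟩,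
    ⟨[], [(0, 0), (0, 2)], [(0, 0), (0, 2)], [], [(0, 0, [2]), (2, 2, [0]), (3, 0, [2])]⟩,
    ⟨[(0, 1)], [(0, 2), (1, 0), (1, 1), (1, 2)], [(0, 1), (0, 2), (1, 2)], [], [(2, 2,
      [0]), (3, 0, [2]), (4, 1, [3, 4])]⟩,
    ⟨[(0, 1), (1, 2)], [(0, 0), (1, 0), (1, 2), (1, 3), (1, 4), (2, 0)], [(0, 0), (0, 3),
      (0, 4), (3, 4)], [], [(0, 0, [2]), (3, 0, [2]), (5, 3, [1]), (6, 4, [1])]⟩,
    ⟨[(1, 3)], [(1, 0), (2, 0), (2, 1), (3, 0), (3, 1), (3, 3), (3, 4)], [(0, 1), (0, 3),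
      (1, 3)], [], [(3, 0, [2]), (4, 1, [3, 4]), (5, 3, [1])]⟩,
    ⟨[(3, 4)], [(2, 1), (3, 3), (4, 0), (4, 1), (4, 3)], [(1, 3)], [6], [(4, 1, [3, 4]),
      (5, 3, [1])]⟩]
  Ta := [((0, 1), 0, 5), ((0, 6), 0, 4), ((3, 4), 0, 1)]
  Tb := [((0, 1, 6), 0, 5, 4), ((1, 0, 2), 5, 0, 2), ((2, 1, 4), 2, 5, 1), ((4, 2, 3), 1, 2, 0),
    ((4, 2, 7), 1, 2, 6), ((4, 3, 7), 1, 0, 6), ((5, 6, 7), 3, 4, 6), ((6, 0, 5), 4, 0, 3),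
    ((7, 4, 5), 6, 1, 3)]
  Tc := [(1, 3, 4)]
  Td := [((0, 2), (0, 1), 5), ((0, 2), (0, 6), 4), ((0, 2), (3, 4), 1), ((1, 3), (4, 2), 2), ((1,
    3), (4, 3), 0), ((1, 3), (4, 7), 6), ((1, 4), (4, 2), 2), ((1, 4), (4, 3), 0), ((1, 4),
    (4, 7), 6), ((2, 0), (2, 1), 5), ((2, 0), (2, 4), 1), ((3, 1), (5, 6), 4), ((3, 1), (5,
    7), 6), ((4, 1), (6, 0), 0), ((4, 1), (6, 5), 3)]
  G := [[0, 0, 0x95c24895c284c, 0x95c24495c218c, 0x95c21895c218a], [0, 0xca64a4ea6ce481,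
    0x95c24895c248c, 0x95c2841, 0x95c2881]]

noncomputable def n946 : Ent := ⟨e946, noF, [], [], [(7, 13, [18394062992640663726968434746027364144358640063421808641, 0])]⟩

def c946 : PLift (Cov.check n946.C.D v946 = true) := ⟨by decide +kernel⟩

def b946 : PLift (entF (fidx ts) 400 946 n946 = true) := ⟨by decide +kernel⟩

theorem g946 : GoodF (fidx ts) 400 946 := GoodF.ofV v946 n946 c946.down b946.down

/-- 464654:793 -/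
noncomputable def e947 : SCfg where
  D := {
    a := 6
    L := 9
    kp := 7
    inn := [(0, 1), (1, 0), (1, 2), (1, 3), (2, 1), (3, 1), (3, 4), (4, 3), (4, 5), (5, 4)]
    mix := [(0, 0), (0, 1), (0, 2), (1, 0), (1, 2), (1, 3), (2, 2), (2, 3), (2, 4), (3, 0), (3, 3), (3,
      5), (3, 6), (4, 3), (4, 5), (4, 7), (5, 5), (5, 7), (5, 8)]
    cl := [0, 5, 1, 0, 6, 3, 4, 2, 7]
    chq := [(0, 1), (1, 0), (2, 3), (2, 4), (3, 2), (4, 2)]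
    rng := [(0, 1), (0, 6), (1, 0), (1, 2), (2, 1), (2, 4), (3, 4), (3, 7), (4, 2), (4, 3), (5, 6), (5,
      8), (6, 0), (6, 5), (7, 3), (7, 8), (8, 5), (8, 7)]
    lev := [] }
  links := [[1, 6, 7, 8], [6, 0, 8, 2, 9, 3], [9, 1, 8, 10], [6, 1, 9, 4, 11, 12], [11, 3, 9, 13, 5],
    [11, 4, 13, 14]]
  P := {
    a := 6
    N := 15
    nb := [450, 845, 1794, 6738, 10792, 26640, 4235, 321, 1159, 9246, 772, 20536, 2120, 16944, 10272]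
    tri := [(0, 1, 6), (0, 1, 8), (0, 6, 7), (0, 7, 8), (1, 2, 8), (1, 2, 9), (1, 3, 6), (1, 3, 9), (2,
      8, 10), (2, 9, 10), (3, 4, 9), (3, 4, 11), (3, 6, 12), (3, 11, 12), (4, 5, 11), (4, 5, 13),
      (4, 9, 13), (5, 11, 14), (5, 13, 14)]
    fin := [0, 0, 0, 3, 3, 3, 0, 7, 8, 0, 10, 11, 12, 3, 14]
    chd := [(0, 8), (11, 3), (12, 3)]
    steps := [(0, 1), (0, 2), (0, 6), (0, 9), (3, 4), (3, 5), (3, 13)] }
  rep := [0, 8, 3, 11, 12, 7, 10, 14]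

noncomputable def v947 : Cov.CovD where
  P := 3
  N := 5
  pl := [1, 4, 8]
  lev := [⟨[], [], [(0, 1)], [5], [(0, 0, [1]), (2, 1, [0])]⟩,
    ⟨[], [(0, 0), (0, 1)], [(0, 0), (0, 1)], [], [(0, 0, [1]), (2, 1, [0]), (3, 0, [1])]⟩,
    ⟨[(0, 1)], [(0, 1), (1, 0), (1, 1)], [(0, 1)], [6], [(2, 1, [0]), (3, 0, [1])]⟩,
    ⟨[(0, 1), (1, 2)], [(0, 0), (1, 0), (1, 1), (1, 3), (1, 4), (2, 0)], [(0, 0), (0, 3),
      (0, 4), (3, 4)], [], [(0, 0, [1]), (3, 0, [1]), (5, 3, [2]), (6, 4, [2])]⟩,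
    ⟨[(1, 3)], [(1, 0), (2, 0), (3, 0), (3, 2), (3, 3), (3, 4)], [(0, 2), (0, 3), (2, 3)],
      [], [(3, 0, [1]), (5, 3, [2]), (7, 2, [3, 4])]⟩,
    ⟨[(3, 4)], [(3, 3), (4, 0), (4, 2), (4, 3)], [(2, 3)], [7], [(5, 3, [2]), (7, 2, [3,
      4])]⟩]
  Ta := [((0, 1), 0, 5), ((0, 6), 0, 4), ((3, 4), 0, 6), ((3, 7), 0, 2)]
  Tb := [((0, 1, 6), 0, 5, 4), ((1, 0, 2), 5, 0, 1), ((2, 1, 4), 1, 5, 6), ((3, 4, 7), 0, 6, 2),
    ((4, 2, 3), 6, 1, 0), ((5, 6, 8), 3, 4, 7), ((6, 0, 5), 4, 0, 3), ((7, 3, 8), 2, 0, 7),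
    ((8, 5, 7), 7, 3, 2)]
  Tc := [(2, 3, 4)]
  Td := [((0, 1), (0, 1), 5), ((0, 1), (0, 6), 4), ((0, 1), (3, 4), 6), ((0, 1), (3, 7), 2), ((1,
    0), (2, 1), 5), ((1, 0), (2, 4), 6), ((2, 3), (7, 3), 0), ((2, 3), (7, 8), 7), ((2, 4),
    (7, 3), 0), ((2, 4), (7, 8), 7), ((3, 2), (5, 6), 4), ((3, 2), (5, 8), 7), ((4, 2), (6,
    0), 0), ((4, 2), (6, 5), 3)]
  G := [[0, 0x95c22495c28495c244e, 0, 0x95c21895c218c, 0x93a41893a418c], [0,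
    0x95c28495c24895c228e, 0x4a4ea6c6ca6c6aa6cec2c8e88c1, 0x95c295c2c41, 0x93a493a4c81]]

noncomputable def n947 : Ent := ⟨e947, noF, [], [], [(7, 14, [81620716623019490593592230936445690773474979418095887257601, 0]), (10, 13, [87897818358406171357428020359653357189577334862559921774593, 0])]⟩

def c947 : PLift (Cov.check n947.C.D v947 = true) := ⟨by decide +kernel⟩

def b947 : PLift (entF (fidx ts) 400 947 n947 = true) := ⟨by decide +kernel⟩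

theorem g947 : GoodF (fidx ts) 400 947 := GoodF.ofV v947 n947 c947.down b947.down

/-- 464664:798/1 -/
noncomputable def e948 : SCfg where
  D := {
    a := 6
    L := 8
    kp := 6
    inn := [(0, 1), (1, 0), (1, 2), (1, 3), (2, 1), (2, 3), (3, 1), (3, 2), (3, 4), (4, 3), (4, 5), (5,
      4)]
    mix := [(0, 0), (0, 1), (0, 2), (1, 0), (1, 2), (1, 3), (2, 2), (2, 4), (3, 3), (3, 4), (3, 5), (4,
      4), (4, 5), (4, 6), (4, 7), (5, 1), (5, 4), (5, 6)]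
    cl := [3, 4, 1, 2, 0, 0, 5, 6]
    chq := [(1, 2), (1, 3), (2, 1), (3, 1), (4, 6), (6, 4)]
    rng := [(0, 1), (0, 3), (1, 0), (1, 2), (1, 4), (1, 6), (2, 1), (2, 4), (3, 0), (3, 5), (4, 1), (4,
      2), (5, 3), (5, 7), (6, 1), (6, 7), (7, 5), (7, 6)]
    lev := [] }
  links := [[1, 6, 7, 8], [6, 0, 8, 2, 3, 9], [3, 1, 8, 10], [9, 1, 2, 10, 4, 11], [11, 3, 10, 5, 12,
    13], [12, 4, 10, 7]]
  P := {
    a := 6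
    N := 14
    nb := [450, 845, 1290, 3606, 15400, 5264, 643, 5473, 1159, 2122, 444, 8728, 8368, 6160]
    tri := [(0, 1, 6), (0, 1, 8), (0, 6, 7), (0, 7, 8), (1, 2, 3), (1, 2, 8), (1, 3, 9), (1, 6, 9), (2,
      3, 10), (2, 8, 10), (3, 4, 10), (3, 4, 11), (3, 9, 11), (4, 5, 10), (4, 5, 12), (4, 11, 13),
      (4, 12, 13), (5, 7, 10), (5, 7, 12)]
    fin := [0, 1, 1, 3, 4, 4, 0, 4, 1, 9, 3, 3, 12, 13]
    chd := [(0, 1), (1, 9), (4, 13)]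
    steps := [(0, 6), (1, 2), (1, 8), (3, 10), (3, 11), (4, 5), (4, 7)] }
  rep := [3, 1, 9, 0, 4, 12, 13]

noncomputable def v948 : Cov.CovD where
  P := 3
  N := 4
  pl := [6]
  lev := [⟨[], [], [(1, 3), (1, 4), (3, 4)], [], [(0, 3, [1]), (1, 4, [6]), (2, 1, [2, 3])]⟩,
    ⟨[], [(0, 1), (0, 2), (0, 3), (0, 4)], [(1, 2), (1, 3), (2, 3)], [], [(0, 3, [1]), (2,
      1, [2, 3]), (3, 2, [1])]⟩,
    ⟨[(0, 1)], [(0, 1), (1, 0), (1, 1), (1, 2), (1, 3)], [(0, 1)], [], [(2, 1, [2, 3]), (4,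
      0, [])]⟩,
    ⟨[(0, 1), (1, 2)], [(1, 0), (1, 1), (1, 2), (1, 3), (2, 0), (2, 1), (2, 2)], [(0, 0),
      (0, 2)], [], [(3, 2, [1]), (4, 0, []), (5, 0, [])]⟩,
    ⟨[(1, 3), (2, 3)], [(2, 0), (3, 0), (3, 2), (3, 6)], [(0, 0), (0, 6)], [5], [(4, 0,
      []), (5, 0, []), (7, 6, [4])]⟩,
    ⟨[(3, 4)], [(0, 4), (2, 0), (3, 0), (4, 0), (4, 4), (4, 6)], [(0, 4)], [5], [(1, 4,
      [6]), (4, 0, [])]⟩]
  Ta := [((4, 1), 0, 4), ((4, 2), 0, 1), ((5, 3), 0, 2), ((5, 7), 0, 6)]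
  Tb := [((0, 1, 3), 3, 4, 2), ((1, 0, 2), 4, 3, 1), ((1, 0, 4), 4, 3, 0), ((1, 0, 6), 4, 3, 5),
    ((1, 2, 4), 4, 1, 0), ((1, 2, 6), 4, 1, 5), ((1, 4, 6), 4, 0, 5), ((2, 1, 4), 1, 4, 0),
    ((3, 0, 5), 2, 3, 0), ((4, 1, 2), 0, 4, 1), ((5, 3, 7), 0, 2, 6), ((6, 1, 7), 5, 4, 6),
    ((7, 5, 6), 6, 0, 5)]
  Tc := [(1, 2, 3)]
  Td := [((1, 2), (2, 1), 4), ((1, 2), (2, 4), 0), ((1, 3), (2, 1), 4), ((1, 3), (2, 4), 0), ((2,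
    1), (3, 0), 3), ((2, 1), (3, 5), 0), ((3, 1), (0, 1), 4), ((3, 1), (0, 3), 2), ((4, 6),
    (1, 0), 3), ((4, 6), (1, 2), 1), ((4, 6), (1, 4), 0), ((4, 6), (1, 6), 5), ((6, 4), (7,
    5), 0), ((6, 4), (7, 6), 5)]
  G := [[0, 0x8ace42864ce824624e482a8e82ce, 0, 0x6a2e486a2e8492,
    0x8ace248644e2884ce2496a2e841d], [0, 0, 0x1439ac4591e28c1, 0x6a2e41318e84c2,
    0x8a1e248644e218591e841d]]

noncomputable def n948 : Ent := ⟨e948, noF, [], [], []⟩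

def c948 : PLift (Cov.check n948.C.D v948 = true) := ⟨by decide +kernel⟩

def b948 : PLift (entF (fidx ts) 400 948 n948 = true) := ⟨by decide +kernel⟩

theorem g948 : GoodF (fidx ts) 400 948 := GoodF.ofV v948 n948 c948.down b948.down

/-- 464664:798/3 -/
noncomputable def e949 : SCfg where
  D := {
    a := 6
    L := 7
    kp := 5
    inn := [(0, 1), (1, 0), (1, 2), (1, 3), (2, 1), (2, 3), (3, 1), (3, 2), (3, 4), (4, 3), (4, 5), (5,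
      4)]
    mix := [(0, 0), (0, 1), (0, 2), (1, 0), (1, 2), (1, 3), (2, 2), (2, 4), (3, 3), (3, 4), (3, 5), (4,
      1), (4, 4), (4, 5), (4, 6), (5, 1), (5, 2), (5, 4)]
    cl := [5, 2, 0, 3, 1, 4, 1]
    chq := [(0, 3), (0, 4), (2, 3), (3, 0), (3, 2), (4, 0)]
    rng := [(0, 1), (0, 3), (1, 0), (1, 2), (1, 6), (2, 1), (2, 4), (3, 0), (3, 5), (4, 2), (5, 3), (5,
      6), (6, 1), (6, 5)]
    lev := [] }
  links := [[1, 6, 7, 8], [6, 0, 8, 2, 3, 9], [3, 1, 8, 10], [9, 1, 2, 10, 4, 11], [11, 3, 10, 5, 7, 12],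
    [7, 4, 10, 8]]
  P := {
    a := 6
    N := 13
    nb := [450, 845, 1290, 3606, 7336, 1424, 643, 4465, 1191, 2122, 316, 4632, 2192]
    tri := [(0, 1, 6), (0, 1, 8), (0, 6, 7), (0, 7, 8), (1, 2, 3), (1, 2, 8), (1, 3, 9), (1, 6, 9), (2,
      3, 10), (2, 8, 10), (3, 4, 10), (3, 4, 11), (3, 9, 11), (4, 5, 7), (4, 5, 10), (4, 7, 12),
      (4, 11, 12), (5, 7, 8), (5, 8, 10)]
    fin := [0, 0, 2, 2, 4, 0, 6, 0, 2, 9, 4, 11, 4]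
    chd := [(0, 9), (2, 9), (2, 11)]
    steps := [(0, 1), (0, 7), (0, 5), (2, 3), (2, 8), (4, 10), (4, 12)] }
  rep := [2, 4, 0, 9, 11, 6]

noncomputable def v949 : Cov.CovD where
  P := 3
  N := 3
  pl := [0]
  lev := [⟨[], [], [(0, 2)], [5], [(1, 2, [3]), (2, 0, [3, 4])]⟩,
    ⟨[], [(0, 0), (0, 2), (0, 3)], [(0, 3)], [5], [(2, 0, [3, 4]), (3, 3, [0, 2])]⟩,
    ⟨[(0, 1)], [(0, 0), (1, 0), (1, 1), (1, 3)], [(0, 1)], [], [(2, 0, [3, 4]), (4, 1,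
      [])]⟩,
    ⟨[(0, 1), (1, 2)], [(1, 0), (1, 1), (1, 3), (1, 4), (2, 0), (2, 1), (2, 3), (2, 4)],
      [(1, 3), (1, 4), (3, 4)], [], [(3, 3, [0, 2]), (4, 1, []), (5, 4, [0])]⟩,
    ⟨[(1, 3), (2, 3)], [(0, 2), (2, 1), (3, 1), (3, 2), (3, 3), (3, 4)], [(1, 1), (1, 2),
      (1, 4), (2, 4)], [], [(1, 2, [3]), (4, 1, []), (5, 4, [0]), (6, 1, [])]⟩,
    ⟨[(3, 4)], [(0, 0), (0, 2), (1, 0), (2, 0), (2, 1), (3, 1), (4, 0), (4, 1), (4, 2), (4,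
      4)], [(0, 1), (0, 2), (1, 2)], [], [(1, 2, [3]), (2, 0, [3, 4]), (4, 1, [])]⟩]
  Ta := [((4, 2), 1, 0), ((6, 1), 1, 2), ((6, 5), 1, 4)]
  Tb := [((0, 1, 3), 5, 2, 3), ((1, 0, 2), 2, 5, 0), ((1, 0, 6), 2, 5, 1), ((1, 2, 6), 2, 0, 1),
    ((2, 1, 4), 0, 2, 1), ((3, 0, 5), 3, 5, 4), ((5, 3, 6), 4, 3, 1), ((6, 1, 5), 1, 2, 4)]
  Tc := [(0, 3, 4), (3, 0, 2)]
  Td := [((0, 3), (2, 1), 2), ((0, 3), (2, 4), 1), ((0, 4), (2, 1), 2), ((0, 4), (2, 4), 1), ((2,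
    3), (1, 0), 5), ((2, 3), (1, 2), 0), ((2, 3), (1, 6), 1), ((3, 0), (3, 0), 5), ((3, 0),
    (3, 5), 4), ((3, 2), (3, 0), 5), ((3, 2), (3, 5), 4), ((4, 0), (5, 3), 3), ((4, 0), (5,
    6), 1)]
  G := [[0, 0x88428488c6488c64488ca244c288444884acec, 0x88c14844c18444c182e, 0,
    0x81885488918c189188188546a], [0, 0, 0x84c12824c18442c182e, 0x88c18288c182c,
    0x81885288912c889128121586a]]

noncomputable def n949 : Ent := ⟨e949, noF, [], [], []⟩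

def c949 : PLift (Cov.check n949.C.D v949 = true) := ⟨by decide +kernel⟩

def b949 : PLift (entF (fidx ts) 400 949 n949 = true) := ⟨by decide +kernel⟩

theorem g949 : GoodF (fidx ts) 400 949 := GoodF.ofV v949 n949 c949.down b949.down

/-- 464664:798/2 -/
noncomputable def e950 : SCfg where
  D := {
    a := 6
    L := 8
    kp := 6
    inn := [(0, 1), (1, 0), (1, 2), (1, 3), (2, 1), (2, 3), (3, 1), (3, 2), (3, 4), (4, 3), (4, 5), (5,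
      4)]
    mix := [(0, 0), (0, 1), (0, 2), (1, 0), (1, 2), (1, 3), (2, 2), (2, 4), (3, 3), (3, 4), (3, 5), (4,
      1), (4, 4), (4, 5), (4, 6), (5, 1), (5, 4), (5, 7)]
    cl := [5, 2, 1, 3, 0, 4, 0, 6]
    chq := [(1, 3), (1, 4), (2, 3), (3, 1), (3, 2), (4, 1)]
    rng := [(0, 1), (0, 3), (1, 0), (1, 2), (1, 6), (1, 7), (2, 1), (2, 4), (3, 0), (3, 5), (4, 2), (4,
      7), (5, 3), (5, 6), (6, 1), (6, 5), (7, 1), (7, 4)]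
    lev := [] }
  links := [[1, 6, 7, 8], [6, 0, 8, 2, 3, 9], [3, 1, 8, 10], [9, 1, 2, 10, 4, 11], [11, 3, 10, 5, 7, 12],
    [7, 4, 10, 13]]
  P := {
    a := 6
    N := 14
    nb := [450, 845, 1290, 3606, 7336, 9360, 643, 12657, 1159, 2122, 8508, 4632, 2192, 1184]
    tri := [(0, 1, 6), (0, 1, 8), (0, 6, 7), (0, 7, 8), (1, 2, 3), (1, 2, 8), (1, 3, 9), (1, 6, 9), (2,
      3, 10), (2, 8, 10), (3, 4, 10), (3, 4, 11), (3, 9, 11), (4, 5, 7), (4, 5, 10), (4, 7, 12),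
      (4, 11, 12), (5, 7, 13), (5, 10, 13)]
    fin := [0, 0, 2, 2, 4, 0, 6, 0, 2, 9, 4, 11, 4, 13]
    chd := [(0, 9), (2, 9), (2, 11)]
    steps := [(0, 1), (0, 7), (0, 5), (2, 3), (2, 8), (4, 10), (4, 12)] }
  rep := [4, 2, 0, 9, 11, 6, 13]

noncomputable def v950 : Cov.CovD where
  P := 3
  N := 4
  pl := [0, 7]
  lev := [⟨[], [], [(1, 2)], [5], [(1, 2, [3]), (2, 1, [3, 4])]⟩,
    ⟨[], [(0, 1), (0, 2), (0, 3)], [(1, 3)], [5], [(2, 1, [3, 4]), (3, 3, [1, 2])]⟩,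
    ⟨[(0, 1)], [(0, 1), (1, 0), (1, 1), (1, 3)], [(0, 1)], [], [(2, 1, [3, 4]), (4, 0,
      [])]⟩,
    ⟨[(0, 1), (1, 2)], [(1, 0), (1, 1), (1, 3), (1, 4), (2, 0), (2, 1), (2, 3), (2, 4)],
      [(0, 3), (0, 4), (3, 4)], [], [(3, 3, [1, 2]), (4, 0, []), (5, 4, [1])]⟩,
    ⟨[(1, 3), (2, 3)], [(0, 2), (2, 0), (3, 0), (3, 2), (3, 3), (3, 4)], [(0, 0), (0, 2),
      (0, 4), (2, 4)], [], [(1, 2, [3]), (4, 0, []), (5, 4, [1]), (6, 0, [])]⟩,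
    ⟨[(3, 4)], [(0, 2), (2, 0), (3, 0), (4, 0), (4, 2), (4, 4)], [(0, 2)], [6], [(1, 2,
      [3]), (4, 0, [])]⟩]
  Ta := [((4, 2), 0, 1), ((4, 7), 0, 6), ((6, 1), 0, 2), ((6, 5), 0, 4)]
  Tb := [((0, 1, 3), 5, 2, 3), ((1, 0, 2), 2, 5, 1), ((1, 0, 6), 2, 5, 0), ((1, 0, 7), 2, 5, 6),
    ((1, 2, 6), 2, 1, 0), ((1, 2, 7), 2, 1, 6), ((1, 6, 7), 2, 0, 6), ((2, 1, 4), 1, 2, 0),
    ((3, 0, 5), 3, 5, 4), ((4, 2, 7), 0, 1, 6), ((5, 3, 6), 4, 3, 0), ((6, 1, 5), 0, 2, 4),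
    ((7, 1, 4), 6, 2, 0)]
  Tc := [(1, 3, 4), (3, 1, 2)]
  Td := [((1, 3), (2, 1), 2), ((1, 3), (2, 4), 0), ((1, 4), (2, 1), 2), ((1, 4), (2, 4), 0), ((2,
    3), (1, 0), 5), ((2, 3), (1, 2), 1), ((2, 3), (1, 6), 0), ((2, 3), (1, 7), 6), ((3, 1),
    (3, 0), 5), ((3, 1), (3, 5), 4), ((3, 2), (3, 0), 5), ((3, 2), (3, 5), 4), ((4, 1), (5,
    3), 3), ((4, 1), (5, 6), 0)]
  G := [[0, 0xccc24c842c448cc4ce8ec484ccc28c448cccce8ec, 0, 0xccc248ccc284ccc241d,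
    0xa2a86422aca68ca228a68a2a86859], [0, 0, 0xcac281ccc241c, 0x11c24811c28411c281d,
    0x12126411a28c12186811a2459]]

noncomputable def n950 : Ent := ⟨e950, noF, [], [], [(8, 13, [18394062992640663726968434746027364144358640063421829121, 0])]⟩

def c950 : PLift (Cov.check n950.C.D v950 = true) := ⟨by decide +kernel⟩

def b950 : PLift (entF (fidx ts) 400 950 n950 = true) := ⟨by decide +kernel⟩

theorem g950 : GoodF (fidx ts) 400 950 := GoodF.ofV v950 n950 c950.down b950.down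

/-- 464664:798/4 -/
noncomputable def e951 : SCfg where
  D := {
    a := 6
    L := 8
    kp := 6
    inn := [(0, 1), (1, 0), (1, 2), (1, 3), (2, 1), (2, 3), (3, 1), (3, 2), (3, 4), (4, 3), (4, 5), (5,
      4)]
    mix := [(0, 0), (0, 1), (0, 2), (1, 0), (1, 2), (1, 3), (2, 2), (2, 4), (3, 3), (3, 4), (3, 5), (4,
      4), (4, 5), (4, 6), (4, 7), (5, 2), (5, 4), (5, 6)]
    cl := [1, 5, 0, 2, 3, 3, 4, 6]
    chq := [(0, 1), (0, 2), (1, 0), (2, 0), (3, 4), (4, 3)]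
    rng := [(0, 1), (0, 3), (1, 0), (1, 2), (2, 1), (2, 4), (2, 6), (3, 0), (3, 5), (4, 2), (5, 3), (5,
      7), (6, 2), (6, 7), (7, 5), (7, 6)]
    lev := [] }
  links := [[1, 6, 7, 8], [6, 0, 8, 2, 3, 9], [3, 1, 8, 10], [9, 1, 2, 10, 4, 11], [11, 3, 10, 5, 12,
    13], [12, 4, 10, 8]]
  P := {
    a := 6
    N := 14
    nb := [450, 845, 1290, 3606, 15400, 5392, 643, 321, 5287, 2122, 316, 8728, 8496, 6160]
    tri := [(0, 1, 6), (0, 1, 8), (0, 6, 7), (0, 7, 8), (1, 2, 3), (1, 2, 8), (1, 3, 9), (1, 6, 9), (2,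
      3, 10), (2, 8, 10), (3, 4, 10), (3, 4, 11), (3, 9, 11), (4, 5, 10), (4, 5, 12), (4, 11, 13),
      (4, 12, 13), (5, 8, 10), (5, 8, 12)]
    fin := [0, 0, 2, 2, 4, 2, 0, 7, 2, 9, 4, 4, 12, 13]
    chd := [(0, 2), (2, 9), (4, 12)]
    steps := [(0, 1), (0, 6), (2, 3), (2, 8), (4, 10), (2, 5), (4, 11)] }
  rep := [2, 0, 9, 4, 12, 7, 13]

noncomputable def v951 : Cov.CovD where
  P := 3
  N := 4
  pl := [1, 7]
  lev := [⟨[], [], [(0, 1)], [5], [(0, 1, [0]), (2, 0, [1, 2])]⟩,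
    ⟨[], [(0, 0), (0, 1), (0, 2)], [(0, 1), (0, 2), (1, 2)], [], [(0, 1, [0]), (2, 0, [1,
      2]), (3, 2, [0])]⟩,
    ⟨[(0, 1)], [(0, 0), (1, 0), (1, 1), (1, 2), (1, 3)], [(0, 3)], [], [(2, 0, [1, 2]), (4,
      3, [4])]⟩,
    ⟨[(0, 1), (1, 2)], [(1, 0), (1, 1), (1, 2), (1, 3), (2, 0), (2, 2), (2, 3)], [(2, 3),
      (3, 3)], [], [(3, 2, [0]), (4, 3, [4]), (5, 3, [4])]⟩,
    ⟨[(1, 3), (2, 3)], [(2, 3), (3, 2), (3, 3), (3, 4)], [(3, 3), (3, 4)], [6], [(4, 3,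
      [4]), (5, 3, [4]), (6, 4, [3])]⟩,
    ⟨[(3, 4)], [(0, 0), (1, 0), (2, 0), (2, 3), (3, 3), (4, 0), (4, 3), (4, 4)], [(0, 3),
      (0, 4), (3, 4)], [], [(2, 0, [1, 2]), (4, 3, [4]), (6, 4, [3])]⟩]
  Ta := [((4, 2), 3, 0), ((5, 3), 3, 2), ((5, 7), 3, 6)]
  Tb := [((0, 1, 3), 1, 5, 2), ((1, 0, 2), 5, 1, 0), ((2, 1, 4), 0, 5, 3), ((2, 1, 6), 0, 5, 4),
    ((2, 4, 6), 0, 3, 4), ((3, 0, 5), 2, 1, 3), ((5, 3, 7), 3, 2, 6), ((6, 2, 7), 4, 0, 6),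
    ((7, 5, 6), 6, 3, 4)]
  Tc := [(0, 1, 2)]
  Td := [((0, 1), (2, 1), 5), ((0, 1), (2, 4), 3), ((0, 1), (2, 6), 4), ((0, 2), (2, 1), 5), ((0,
    2), (2, 4), 3), ((0, 2), (2, 6), 4), ((1, 0), (0, 1), 5), ((1, 0), (0, 3), 2), ((2, 0),
    (3, 0), 1), ((2, 0), (3, 5), 3), ((3, 4), (4, 2), 0), ((3, 4), (5, 3), 2), ((3, 4), (5,
    7), 6), ((4, 3), (6, 2), 0), ((4, 3), (6, 7), 6)]
  G := [[0, 0x841ef124842ef1286, 0xc184c9614263a41, 0x8a2e842ef528642e842ef924c,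
    0x84ce842ef3482284c842efb48c], [0, 0x812cf128141cf124a, 0x4181842ed281,
    0x842af148842cf124c, 0x842cf128842cf128c]]

noncomputable def n951 : Ent := ⟨e951, noF, [], [], [(7, 12, [19926558533506552585326781773177673327977379185605431297, 0])]⟩

def c951 : PLift (Cov.check n951.C.D v951 = true) := ⟨by decide +kernel⟩

def b951 : PLift (entF (fidx ts) 400 951 n951 = true) := ⟨by decide +kernel⟩

theorem g951 : GoodF (fidx ts) 400 951 := GoodF.ofV v951 n951 c951.down b951.down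

/-- 464664:798 -/
noncomputable def e952 : SCfg where
  D := {
    a := 6
    L := 9
    kp := 7
    inn := [(0, 1), (1, 0), (1, 2), (1, 3), (2, 1), (2, 3), (3, 1), (3, 2), (3, 4), (4, 3), (4, 5), (5,
      4)]
    mix := [(0, 0), (0, 1), (0, 2), (1, 0), (1, 2), (1, 3), (2, 2), (2, 4), (3, 3), (3, 4), (3, 5), (4,
      4), (4, 5), (4, 6), (4, 7), (5, 4), (5, 6), (5, 8)]
    cl := [2, 5, 0, 1, 3, 3, 4, 6, 7]
    chq := [(0, 1), (1, 0), (1, 5), (3, 4), (4, 3), (5, 1)]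
    rng := [(0, 1), (0, 3), (1, 0), (1, 2), (2, 1), (2, 4), (3, 0), (3, 5), (4, 2), (4, 8), (5, 3), (5,
      7), (6, 7), (6, 8), (7, 5), (7, 6), (8, 4), (8, 6)]
    lev := [] }
  links := [[1, 6, 7, 8], [6, 0, 8, 2, 3, 9], [3, 1, 8, 10], [9, 1, 2, 10, 4, 11], [11, 3, 10, 5, 12,
    13], [12, 4, 10, 14]]
  P := {
    a := 6
    N := 15
    nb := [450, 845, 1290, 3606, 15400, 21520, 643, 321, 1159, 2122, 16700, 8728, 24624, 6160, 5152]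
    tri := [(0, 1, 6), (0, 1, 8), (0, 6, 7), (0, 7, 8), (1, 2, 3), (1, 2, 8), (1, 3, 9), (1, 6, 9), (2,
      3, 10), (2, 8, 10), (3, 4, 10), (3, 4, 11), (3, 9, 11), (4, 5, 10), (4, 5, 12), (4, 11, 13),
      (4, 12, 13), (5, 10, 14), (5, 12, 14)]
    fin := [0, 0, 2, 2, 4, 4, 6, 0, 2, 9, 4, 4, 12, 13, 14]
    chd := [(0, 9), (2, 9), (4, 12)]
    steps := [(0, 1), (0, 7), (2, 3), (2, 8), (4, 5), (4, 10), (4, 11)] }
  rep := [2, 9, 6, 4, 12, 0, 13, 14]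

noncomputable def v952 : Cov.CovD where
  P := 3
  N := 5
  pl := [0, 7, 8]
  lev := [⟨[], [], [(0, 5)], [2], [(1, 5, [1]), (2, 0, [1])]⟩,
    ⟨[], [(0, 0), (0, 1), (0, 5)], [(0, 1)], [2], [(2, 0, [1]), (3, 1, [0, 5])]⟩,
    ⟨[(0, 1)], [(0, 0), (1, 0), (1, 1), (1, 3)], [(0, 3)], [], [(2, 0, [1]), (4, 3, [4])]⟩,
    ⟨[(0, 1), (1, 2)], [(1, 0), (1, 1), (1, 3), (2, 0), (2, 1), (2, 3)], [(1, 3), (3, 3)],
      [], [(3, 1, [0, 5]), (4, 3, [4]), (5, 3, [4])]⟩,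
    ⟨[(1, 3), (2, 3)], [(2, 3), (3, 1), (3, 3), (3, 4)], [(3, 3), (3, 4)], [6], [(4, 3,
      [4]), (5, 3, [4]), (6, 4, [3])]⟩,
    ⟨[(3, 4)], [(2, 3), (3, 3), (4, 3), (4, 4)], [(3, 4)], [7], [(4, 3, [4]), (6, 4, [3])]⟩]
  Ta := [((4, 2), 3, 0), ((4, 8), 3, 7), ((5, 3), 3, 1), ((5, 7), 3, 6)]
  Tb := [((0, 1, 3), 2, 5, 1), ((1, 0, 2), 5, 2, 0), ((2, 1, 4), 0, 5, 3), ((3, 0, 5), 1, 2, 3),
    ((4, 2, 8), 3, 0, 7), ((5, 3, 7), 3, 1, 6), ((6, 7, 8), 4, 6, 7), ((7, 5, 6), 6, 3, 4),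
    ((8, 4, 6), 7, 3, 4)]
  Tc := [(1, 0, 5)]
  Td := [((0, 1), (2, 1), 5), ((0, 1), (2, 4), 3), ((1, 0), (3, 0), 2), ((1, 0), (3, 5), 3), ((1,
    5), (3, 0), 2), ((1, 5), (3, 5), 3), ((3, 4), (4, 2), 0), ((3, 4), (4, 8), 7), ((3, 4),
    (5, 3), 1), ((3, 4), (5, 7), 6), ((4, 3), (6, 7), 6), ((4, 3), (6, 8), 7), ((5, 1), (1,
    0), 2), ((5, 1), (1, 2), 0)]
  G := [[0, 0xd1fdc57f5f23a41, 0x4e17eb1db47efd282, 0xe15ee5bb7bafd2448b7ea67fb53ed28c,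
    0x4bb7eb77fb4cd282], [0, 0xd141ddbe7241, 0x11dd7cf5242, 0x48eef128487ef124c,
    0x11bebaf9482]]

noncomputable def n952 : Ent := ⟨e952, noF, [], [], [(7, 14, [81620716623019490593592230936445690773474979418095887269889, 0]), (7, 12, [87899350853947037246286378706680507498760953601682105393153, 0]), (8, 14, [81620716623019490593592230936445690773474979418095887282177, 0])]⟩

def c952 : PLift (Cov.check n952.C.D v952 = true) := ⟨by decide +kernel⟩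

def b952 : PLift (entF (fidx ts) 400 952 n952 = true) := ⟨by decide +kernel⟩

theorem g952 : GoodF (fidx ts) 400 952 := GoodF.ofV v952 n952 c952.down b952.down

/-- 464664:801/1 -/
noncomputable def e953 : SCfg where
  D := {
    a := 6
    L := 8
    kp := 6
    inn := [(0, 1), (1, 0), (1, 2), (1, 3), (2, 1), (2, 3), (3, 1), (3, 2), (3, 4), (4, 3), (4, 5), (5,
      4)]
    mix := [(0, 0), (0, 1), (0, 2), (1, 0), (1, 2), (1, 3), (2, 2), (2, 4), (3, 3), (3, 4), (3, 5), (4,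
      1), (4, 4), (4, 5), (4, 6), (5, 5), (5, 6), (5, 7)]
    cl := [1, 4, 3, 2, 0, 0, 5, 6]
    chq := [(0, 1), (1, 0), (1, 3), (3, 1), (4, 6), (6, 4)]
    rng := [(0, 1), (0, 3), (1, 0), (1, 2), (1, 4), (1, 6), (2, 1), (2, 4), (3, 0), (3, 5), (4, 1), (4,
      2), (5, 3), (5, 7), (6, 1), (6, 7), (7, 5), (7, 6)]
    lev := [] }
  links := [[1, 6, 7, 8], [6, 0, 8, 2, 3, 9], [3, 1, 8, 10], [9, 1, 2, 10, 4, 11], [11, 3, 10, 7, 12, 5],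
    [11, 4, 12, 13]]
  P := {
    a := 6
    N := 14
    nb := [450, 845, 1290, 3606, 7336, 14352, 643, 5457, 1159, 2122, 412, 8760, 8368, 6176]
    tri := [(0, 1, 6), (0, 1, 8), (0, 6, 7), (0, 7, 8), (1, 2, 3), (1, 2, 8), (1, 3, 9), (1, 6, 9), (2,
      3, 10), (2, 8, 10), (3, 4, 10), (3, 4, 11), (3, 9, 11), (4, 5, 11), (4, 5, 12), (4, 7, 10),
      (4, 7, 12), (5, 11, 13), (5, 12, 13)]
    fin := [0, 0, 0, 3, 4, 4, 0, 4, 8, 9, 3, 3, 12, 13]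
    chd := [(0, 3), (0, 8), (4, 13)]
    steps := [(0, 1), (0, 2), (0, 6), (3, 10), (3, 11), (4, 5), (4, 7)] }
  rep := [3, 0, 9, 8, 4, 12, 13]

noncomputable def v953 : Cov.CovD where
  P := 3
  N := 4
  pl := [3, 6]
  lev := [⟨[], [], [(1, 3), (1, 4), (3, 4)], [], [(0, 1, [0, 3]), (1, 4, [6]), (2, 3, [1])]⟩,
    ⟨[], [(0, 1), (0, 3), (0, 4)], [(1, 3)], [2], [(0, 1, [0, 3]), (2, 3, [1])]⟩,
    ⟨[(0, 1)], [(0, 3), (1, 0), (1, 1), (1, 3)], [(0, 3)], [], [(2, 3, [1]), (4, 0, [1])]⟩,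
    ⟨[(0, 1), (1, 2)], [(1, 0), (1, 1), (1, 3), (2, 0), (2, 3)], [(0, 0)], [2], [(4, 0,
      [1]), (5, 0, [1])]⟩,
    ⟨[(1, 3), (2, 3)], [(0, 4), (2, 0), (3, 0), (3, 4)], [(0, 0), (0, 4)], [5], [(1, 4,
      [6]), (4, 0, [1]), (5, 0, [1])]⟩,
    ⟨[(3, 4)], [(3, 0), (4, 0), (4, 4), (4, 6)], [(0, 6)], [5], [(5, 0, [1]), (7, 6, [4])]⟩]
  Ta := [((4, 1), 0, 4), ((4, 2), 0, 3), ((5, 3), 0, 2), ((5, 7), 0, 6)]
  Tb := [((0, 1, 3), 1, 4, 2), ((1, 0, 2), 4, 1, 3), ((1, 0, 4), 4, 1, 0), ((1, 0, 6), 4, 1, 5),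
    ((1, 2, 4), 4, 3, 0), ((1, 2, 6), 4, 3, 5), ((1, 4, 6), 4, 0, 5), ((2, 1, 4), 3, 4, 0),
    ((3, 0, 5), 2, 1, 0), ((4, 1, 2), 0, 4, 3), ((5, 3, 7), 0, 2, 6), ((6, 1, 7), 5, 4, 6),
    ((7, 5, 6), 6, 0, 5)]
  Tc := [(1, 0, 3)]
  Td := [((0, 1), (4, 1), 4), ((0, 1), (4, 2), 3), ((0, 1), (5, 3), 2), ((0, 1), (5, 7), 6), ((1,
    0), (0, 1), 4), ((1, 0), (0, 3), 2), ((1, 3), (0, 1), 4), ((1, 3), (0, 3), 2), ((3, 1),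
    (2, 1), 4), ((3, 1), (2, 4), 0), ((4, 6), (1, 0), 1), ((4, 6), (1, 2), 3), ((4, 6), (1,
    4), 0), ((4, 6), (1, 6), 5), ((6, 4), (7, 5), 0), ((6, 4), (7, 6), 5)]
  G := [[0, 0x1ace4831ce84c1, 0, 0x51a428c1682418ee821d, 0x42216c2681868211a2491ace821d], [0,
    0x1ace48135e84c1, 0x6ace486ace24c1, 0x48ee4211, 0x6ace8211]]

noncomputable def n953 : Ent := ⟨e953, noF, [], [], []⟩

def c953 : PLift (Cov.check n953.C.D v953 = true) := ⟨by decide +kernel⟩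

def b953 : PLift (entF (fidx ts) 400 953 n953 = true) := ⟨by decide +kernel⟩

theorem g953 : GoodF (fidx ts) 400 953 := GoodF.ofV v953 n953 c953.down b953.down

/-- 464664:801/2 -/
noncomputable def e954 : SCfg where
  D := {
    a := 6
    L := 8
    kp := 6
    inn := [(0, 1), (1, 0), (1, 2), (1, 3), (2, 1), (2, 3), (3, 1), (3, 2), (3, 4), (4, 3), (4, 5), (5,
      4)]
    mix := [(0, 0), (0, 1), (0, 2), (1, 0), (1, 2), (1, 3), (2, 2), (2, 4), (3, 3), (3, 4), (3, 5), (4,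
      4), (4, 5), (4, 6), (4, 7), (5, 1), (5, 5), (5, 7)]
    cl := [2, 4, 1, 5, 0, 0, 6, 3]
    chq := [(0, 2), (0, 3), (1, 2), (2, 0), (2, 1), (3, 0)]
    rng := [(0, 1), (0, 3), (1, 0), (1, 2), (1, 5), (1, 7), (2, 1), (2, 4), (3, 0), (3, 5), (4, 2), (4,
      6), (5, 1), (5, 3), (6, 4), (6, 7), (7, 1), (7, 6)]
    lev := [] }
  links := [[1, 6, 7, 8], [6, 0, 8, 2, 3, 9], [3, 1, 8, 10], [9, 1, 2, 10, 4, 11], [11, 3, 10, 12, 13,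
    5], [11, 4, 13, 7]]
  P := {
    a := 6
    N := 14
    nb := [450, 845, 1290, 3606, 15400, 10384, 643, 10593, 1159, 2122, 4380, 696, 9232, 4272]
    tri := [(0, 1, 6), (0, 1, 8), (0, 6, 7), (0, 7, 8), (1, 2, 3), (1, 2, 8), (1, 3, 9), (1, 6, 9), (2,
      3, 10), (2, 8, 10), (3, 4, 10), (3, 4, 11), (3, 9, 11), (4, 5, 11), (4, 5, 13), (4, 10, 12),
      (4, 12, 13), (5, 7, 11), (5, 7, 13)]
    fin := [0, 0, 0, 0, 4, 5, 0, 5, 8, 9, 4, 4, 12, 13]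
    chd := [(0, 4), (0, 8), (4, 13)]
    steps := [(0, 1), (0, 2), (0, 3), (0, 6), (4, 10), (4, 11), (5, 7)] }
  rep := [4, 8, 0, 13, 5, 9, 12]

noncomputable def v954 : Cov.CovD where
  P := 3
  N := 4
  pl := [1, 3, 6]
  lev := [⟨[], [], [(1, 2)], [4], [(0, 2, [0, 1]), (2, 1, [2])]⟩,
    ⟨[], [(0, 1), (0, 2)], [(1, 2)], [5], [(0, 2, [0, 1]), (2, 1, [2])]⟩,
    ⟨[(0, 1)], [(0, 1), (1, 0), (1, 1), (1, 2)], [(0, 1)], [], [(2, 1, [2]), (4, 0, [2,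
      3])]⟩,
    ⟨[(0, 1), (1, 2)], [(1, 0), (1, 1), (1, 2), (2, 0), (2, 1)], [(0, 0)], [5], [(4, 0, [2,
      3]), (5, 0, [2, 3])]⟩,
    ⟨[(1, 3), (2, 3)], [(2, 0), (3, 0), (3, 3)], [(0, 0), (0, 3)], [6], [(4, 0, [2, 3]),
      (5, 0, [2, 3]), (7, 3, [0])]⟩,
    ⟨[(3, 4)], [(3, 0), (4, 0), (4, 3)], [(0, 3)], [4], [(5, 0, [2, 3]), (7, 3, [0])]⟩]
  Ta := [((4, 2), 0, 1), ((4, 6), 0, 6), ((5, 1), 0, 4), ((5, 3), 0, 5)]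
  Tb := [((0, 1, 3), 2, 4, 5), ((1, 0, 2), 4, 2, 1), ((1, 0, 5), 4, 2, 0), ((1, 0, 7), 4, 2, 3),
    ((1, 2, 5), 4, 1, 0), ((1, 2, 7), 4, 1, 3), ((1, 5, 7), 4, 0, 3), ((2, 1, 4), 1, 4, 0),
    ((3, 0, 5), 5, 2, 0), ((4, 2, 6), 0, 1, 6), ((5, 1, 3), 0, 4, 5), ((6, 4, 7), 6, 0, 3),
    ((7, 1, 6), 3, 4, 6)]
  Tc := [(0, 2, 3), (2, 0, 1)]
  Td := [((0, 2), (4, 2), 1), ((0, 2), (4, 6), 6), ((0, 2), (5, 1), 4), ((0, 2), (5, 3), 5), ((0,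
    3), (4, 2), 1), ((0, 3), (4, 6), 6), ((0, 3), (5, 1), 4), ((0, 3), (5, 3), 5), ((1, 2),
    (2, 1), 4), ((1, 2), (2, 4), 0), ((2, 0), (0, 1), 4), ((2, 0), (0, 3), 5), ((2, 1), (0,
    1), 4), ((2, 1), (0, 3), 5), ((3, 0), (7, 1), 4), ((3, 0), (7, 6), 6)]
  G := [[0, 0x111e241412a14e8c4161818e2141e28cc, 0x11618a411a1468c1, 0x331e2811,
    0x935e541e6811], [0, 0, 0x11618a411a1468c1, 0x8ace241e4e2ac82264ca859,
    0x4482a8ccee41ee6e8c12266c6499]]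

noncomputable def n954 : Ent := ⟨e954, noF, [], [], []⟩

def c954 : PLift (Cov.check n954.C.D v954 = true) := ⟨by decide +kernel⟩

def b954 : PLift (entF (fidx ts) 400 954 n954 = true) := ⟨by decide +kernel⟩

theorem g954 : GoodF (fidx ts) 400 954 := GoodF.ofV v954 n954 c954.down b954.down

/-- 464664:801 -/
noncomputable def e955 : SCfg where
  D := {
    a := 6
    L := 9
    kp := 7
    inn := [(0, 1), (1, 0), (1, 2), (1, 3), (2, 1), (2, 3), (3, 1), (3, 2), (3, 4), (4, 3), (4, 5), (5,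
      4)]
    mix := [(0, 0), (0, 1), (0, 2), (1, 0), (1, 2), (1, 3), (2, 2), (2, 4), (3, 3), (3, 4), (3, 5), (4,
      4), (4, 5), (4, 6), (4, 7), (5, 5), (5, 7), (5, 8)]
    cl := [3, 5, 1, 2, 0, 0, 6, 4, 7]
    chq := [(0, 3), (0, 4), (1, 3), (3, 0), (3, 1), (4, 0)]
    rng := [(0, 1), (0, 3), (1, 0), (1, 2), (2, 1), (2, 4), (3, 0), (3, 5), (4, 2), (4, 6), (5, 3), (5,
      8), (6, 4), (6, 7), (7, 6), (7, 8), (8, 5), (8, 7)]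
    lev := [] }
  links := [[1, 6, 7, 8], [6, 0, 8, 2, 3, 9], [3, 1, 8, 10], [9, 1, 2, 10, 4, 11], [11, 3, 10, 12, 13,
    5], [11, 4, 13, 14]]
  P := {
    a := 6
    N := 15
    nb := [450, 845, 1290, 3606, 15400, 26640, 643, 321, 1159, 2122, 4380, 16952, 9232, 20528, 10272]
    tri := [(0, 1, 6), (0, 1, 8), (0, 6, 7), (0, 7, 8), (1, 2, 3), (1, 2, 8), (1, 3, 9), (1, 6, 9), (2,
      3, 10), (2, 8, 10), (3, 4, 10), (3, 4, 11), (3, 9, 11), (4, 5, 11), (4, 5, 13), (4, 10, 12),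
      (4, 12, 13), (5, 11, 14), (5, 13, 14)]
    fin := [0, 0, 0, 0, 4, 4, 0, 7, 8, 9, 4, 4, 12, 13, 14]
    chd := [(0, 4), (0, 8), (4, 13)]
    steps := [(0, 1), (0, 2), (0, 3), (0, 6), (4, 5), (4, 10), (4, 11)] }
  rep := [4, 8, 9, 0, 13, 7, 12, 14]

noncomputable def v955 : Cov.CovD where
  P := 3
  N := 5
  pl := [1, 3, 6, 8]
  lev := [⟨[], [], [(1, 3)], [5], [(0, 3, [0, 1]), (2, 1, [3])]⟩,
    ⟨[], [(0, 1), (0, 3)], [(1, 3)], [2], [(0, 3, [0, 1]), (2, 1, [3])]⟩,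
    ⟨[(0, 1)], [(0, 1), (1, 0), (1, 1), (1, 3)], [(0, 1)], [], [(2, 1, [3]), (4, 0, [3,
      4])]⟩,
    ⟨[(0, 1), (1, 2)], [(1, 0), (1, 1), (1, 3), (2, 0), (2, 1)], [(0, 0)], [2], [(4, 0, [3,
      4]), (5, 0, [3, 4])]⟩,
    ⟨[(1, 3), (2, 3)], [(2, 0), (3, 0), (3, 4)], [(0, 0), (0, 4)], [6], [(4, 0, [3, 4]),
      (5, 0, [3, 4]), (7, 4, [0])]⟩,
    ⟨[(3, 4)], [(3, 0), (4, 0), (4, 4)], [(0, 4)], [7], [(5, 0, [3, 4]), (7, 4, [0])]⟩]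
  Ta := [((4, 2), 0, 1), ((4, 6), 0, 6), ((5, 3), 0, 2), ((5, 8), 0, 7)]
  Tb := [((0, 1, 3), 3, 5, 2), ((1, 0, 2), 5, 3, 1), ((2, 1, 4), 1, 5, 0), ((3, 0, 5), 2, 3, 0),
    ((4, 2, 6), 0, 1, 6), ((5, 3, 8), 0, 2, 7), ((6, 4, 7), 6, 0, 4), ((7, 6, 8), 4, 6, 7),
    ((8, 5, 7), 7, 0, 4)]
  Tc := [(0, 3, 4), (3, 0, 1)]
  Td := [((0, 3), (4, 2), 1), ((0, 3), (4, 6), 6), ((0, 3), (5, 3), 2), ((0, 3), (5, 8), 7), ((0,
    4), (4, 2), 1), ((0, 4), (4, 6), 6), ((0, 4), (5, 3), 2), ((0, 4), (5, 8), 7), ((1, 3),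
    (2, 1), 5), ((1, 3), (2, 4), 0), ((3, 0), (0, 1), 5), ((3, 0), (0, 3), 2), ((3, 1), (0,
    1), 5), ((3, 1), (0, 3), 2), ((4, 0), (7, 6), 6), ((4, 0), (7, 8), 7)]
  G := [[0, 0x111e428111e824111e48111e82ce, 0, 0x53698c81935e481935e481d,
    0x935e241bd1e2811d7e841d], [0, 0, 0xe2eec648e2eeca14e2eec686eee88c1cd,
    0xee6e8c81e4eeac416eee88c41d, 0xe2eeca8122eecea41e2eeca81d]]

noncomputable def n955 : Ent := ⟨e955, noF, [], [], [(7, 12, [87899350853947037246286378706680507498760953601682105405441, 0]), (7, 14, [81620716623019490593592230936445690773474979418095887294465, 0])]⟩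

def c955 : PLift (Cov.check n955.C.D v955 = true) := ⟨by decide +kernel⟩

def b955 : PLift (entF (fidx ts) 400 955 n955 = true) := ⟨by decide +kernel⟩

theorem g955 : GoodF (fidx ts) 400 955 := GoodF.ofV v955 n955 c955.down b955.down

/-- 464744:804/2 -/
noncomputable def e956 : SCfg where
  D := {
    a := 6
    L := 7
    kp := 5
    inn := [(0, 1), (1, 0), (1, 2), (1, 3), (2, 1), (3, 1), (3, 4), (3, 5), (4, 3), (5, 3)]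
    mix := [(0, 0), (0, 1), (0, 2), (1, 0), (1, 2), (1, 3), (2, 2), (2, 3), (2, 4), (3, 0), (3, 3), (3,
      5), (3, 6), (4, 3), (4, 4), (4, 5), (5, 0), (5, 1), (5, 6)]
    cl := [0, 2, 1, 0, 5, 3, 4]
    chq := [(0, 1), (0, 3), (0, 4), (1, 0), (3, 0), (4, 0)]
    rng := [(0, 1), (1, 0), (1, 2), (1, 6), (2, 1), (2, 4), (3, 4), (4, 2), (4, 3), (4, 5), (5, 4), (5,
      6), (6, 1), (6, 5)]
    lev := [] }
  links := [[1, 6, 7, 8], [6, 0, 8, 2, 9, 3], [9, 1, 8, 10], [6, 1, 9, 4, 11, 12, 5], [11, 3, 9, 10], [6,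
    3, 12, 7]]
  P := {
    a := 6
    N := 13
    nb := [450, 845, 1794, 6770, 3592, 4296, 171, 4449, 1159, 1054, 2836, 5144, 2216]
    tri := [(0, 1, 6), (0, 1, 8), (0, 6, 7), (0, 7, 8), (1, 2, 8), (1, 2, 9), (1, 3, 6), (1, 3, 9), (2,
      8, 10), (2, 9, 10), (3, 4, 9), (3, 4, 11), (3, 5, 6), (3, 5, 12), (3, 11, 12), (4, 9, 10),
      (4, 10, 11), (5, 6, 7), (5, 7, 12)]
    fin := [0, 0, 0, 0, 0, 0, 0, 7, 8, 0, 10, 11, 12]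
    chd := [(0, 8), (0, 11), (0, 12)]
    steps := [(0, 1), (0, 2), (0, 3), (0, 6), (0, 5), (0, 9), (0, 4)] }
  rep := [0, 8, 7, 11, 12, 10]

noncomputable def v956 : Cov.CovD where
  P := 3
  N := 3
  pl := [1, 4]
  lev := [⟨[], [], [(0, 1)], [2], [(0, 0, [1, 3, 4]), (2, 1, [0])]⟩,
    ⟨[], [(0, 0), (0, 1)], [(0, 0), (0, 1)], [], [(0, 0, [1, 3, 4]), (2, 1, [0]), (3, 0,
      [1, 3, 4])]⟩,
    ⟨[(0, 1)], [(0, 1), (1, 0), (1, 1)], [(0, 1)], [5], [(2, 1, [0]), (3, 0, [1, 3, 4])]⟩,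
    ⟨[(0, 1), (1, 2)], [(0, 0), (1, 0), (1, 1), (1, 3), (1, 4), (2, 0)], [(0, 0), (0, 3),
      (0, 4), (3, 4)], [], [(0, 0, [1, 3, 4]), (3, 0, [1, 3, 4]), (5, 3, [0]), (6, 4, [0])]⟩,
    ⟨[(1, 3)], [(1, 0), (2, 0), (3, 0), (3, 3), (3, 4)], [(0, 3)], [5], [(3, 0, [1, 3, 4]),
      (5, 3, [0])]⟩,
    ⟨[(1, 3), (3, 4)], [(0, 0), (1, 0), (3, 0), (3, 3), (3, 4)], [(0, 4)], [2], [(0, 0, [1,
      3, 4]), (6, 4, [0])]⟩]
  Ta := [((0, 1), 0, 2), ((3, 4), 0, 5)]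
  Tb := [((1, 0, 2), 2, 0, 1), ((1, 0, 6), 2, 0, 4), ((1, 2, 6), 2, 1, 4), ((2, 1, 4), 1, 2, 5),
    ((4, 2, 3), 5, 1, 0), ((4, 2, 5), 5, 1, 3), ((4, 3, 5), 5, 0, 3), ((5, 4, 6), 3, 5, 4),
    ((6, 1, 5), 4, 2, 3)]
  Tc := [(0, 1, 3), (0, 1, 4), (0, 3, 4)]
  Td := [((0, 1), (0, 1), 2), ((0, 1), (3, 4), 5), ((0, 3), (0, 1), 2), ((0, 3), (3, 4), 5), ((0,
    4), (0, 1), 2), ((0, 4), (3, 4), 5), ((1, 0), (2, 1), 2), ((1, 0), (2, 4), 5), ((3, 0),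
    (5, 4), 5), ((3, 0), (5, 6), 4), ((4, 0), (6, 1), 2), ((4, 0), (6, 5), 3)]
  G := [[0, 0x114111e111111ec24, 0x414614121ec8121a8c4, 0x414484581884c2a9c4,
    0x2aae28a618188121acc8], [0, 0x111111e114111ec24, 0, 0x1444581852e8492acc8,
    0x14441828a21ae886216acc8]]

noncomputable def n956 : Ent := ⟨e956, noF, [], [], []⟩

def c956 : PLift (Cov.check n956.C.D v956 = true) := ⟨by decide +kernel⟩

def b956 : PLift (entF (fidx ts) 400 956 n956 = true) := ⟨by decide +kernel⟩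

theorem g956 : GoodF (fidx ts) 400 956 := GoodF.ofV v956 n956 c956.down b956.down

/-- 464744:804/1 -/
noncomputable def e957 : SCfg where
  D := {
    a := 6
    L := 8
    kp := 6
    inn := [(0, 1), (1, 0), (1, 2), (1, 3), (2, 1), (3, 1), (3, 4), (3, 5), (4, 3), (5, 3)]
    mix := [(0, 0), (0, 1), (0, 2), (1, 0), (1, 2), (1, 3), (2, 2), (2, 3), (2, 4), (3, 0), (3, 3), (3,
      5), (3, 6), (4, 3), (4, 5), (4, 7), (5, 0), (5, 1), (5, 6)]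
    cl := [0, 2, 1, 0, 5, 3, 4, 6]
    chq := [(0, 1), (0, 3), (0, 4), (1, 0), (3, 0), (4, 0)]
    rng := [(0, 1), (1, 0), (1, 2), (1, 6), (2, 1), (2, 4), (3, 4), (3, 7), (4, 2), (4, 3), (5, 6), (5,
      7), (6, 1), (6, 5), (7, 3), (7, 5)]
    lev := [] }
  links := [[1, 6, 7, 8], [6, 0, 8, 2, 9, 3], [9, 1, 8, 10], [6, 1, 9, 4, 11, 12, 5], [11, 3, 9, 13], [6,
    3, 12, 7]]
  P := {
    a := 6
    N := 14
    nb := [450, 845, 1794, 6770, 10760, 4296, 171, 4449, 1159, 9246, 772, 12312, 2216, 2576]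
    tri := [(0, 1, 6), (0, 1, 8), (0, 6, 7), (0, 7, 8), (1, 2, 8), (1, 2, 9), (1, 3, 6), (1, 3, 9), (2,
      8, 10), (2, 9, 10), (3, 4, 9), (3, 4, 11), (3, 5, 6), (3, 5, 12), (3, 11, 12), (4, 9, 13),
      (4, 11, 13), (5, 6, 7), (5, 7, 12)]
    fin := [0, 0, 0, 0, 0, 0, 0, 7, 8, 0, 10, 11, 12, 13]
    chd := [(0, 8), (0, 11), (0, 12)]
    steps := [(0, 1), (0, 2), (0, 3), (0, 4), (0, 6), (0, 5), (0, 9)] }
  rep := [0, 8, 7, 11, 12, 10, 13]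

noncomputable def v957 : Cov.CovD where
  P := 3
  N := 4
  pl := [1, 4, 7]
  lev := [⟨[], [], [(0, 1)], [2], [(0, 0, [1, 3, 4]), (2, 1, [0])]⟩,
    ⟨[], [(0, 0), (0, 1)], [(0, 0), (0, 1)], [], [(0, 0, [1, 3, 4]), (2, 1, [0]), (3, 0,
      [1, 3, 4])]⟩,
    ⟨[(0, 1)], [(0, 1), (1, 0), (1, 1)], [(0, 1)], [5], [(2, 1, [0]), (3, 0, [1, 3, 4])]⟩,
    ⟨[(0, 1), (1, 2)], [(0, 0), (1, 0), (1, 1), (1, 3), (1, 4), (2, 0)], [(0, 0), (0, 3),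
      (0, 4), (3, 4)], [], [(0, 0, [1, 3, 4]), (3, 0, [1, 3, 4]), (5, 3, [0]), (6, 4, [0])]⟩,
    ⟨[(1, 3)], [(1, 0), (2, 0), (3, 0), (3, 3), (3, 4)], [(0, 3)], [6], [(3, 0, [1, 3, 4]),
      (5, 3, [0])]⟩,
    ⟨[(1, 3), (3, 4)], [(0, 0), (1, 0), (3, 0), (3, 3), (3, 4)], [(0, 4)], [2], [(0, 0, [1,
      3, 4]), (6, 4, [0])]⟩]
  Ta := [((0, 1), 0, 2), ((3, 4), 0, 5), ((3, 7), 0, 6)]
  Tb := [((1, 0, 2), 2, 0, 1), ((1, 0, 6), 2, 0, 4), ((1, 2, 6), 2, 1, 4), ((2, 1, 4), 1, 2, 5),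
    ((3, 4, 7), 0, 5, 6), ((4, 2, 3), 5, 1, 0), ((5, 6, 7), 3, 4, 6), ((6, 1, 5), 4, 2, 3),
    ((7, 3, 5), 6, 0, 3)]
  Tc := [(0, 1, 3), (0, 1, 4), (0, 3, 4)]
  Td := [((0, 1), (0, 1), 2), ((0, 1), (3, 4), 5), ((0, 1), (3, 7), 6), ((0, 3), (0, 1), 2), ((0,
    3), (3, 4), 5), ((0, 3), (3, 7), 6), ((0, 4), (0, 1), 2), ((0, 4), (3, 4), 5), ((0, 4),
    (3, 7), 6), ((1, 0), (2, 1), 2), ((1, 0), (2, 4), 5), ((3, 0), (5, 6), 4), ((3, 0), (5,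
    7), 6), ((4, 0), (6, 1), 2), ((4, 0), (6, 5), 3)]
  G := [[0, 0x111111e114111ec24, 0x414481a121e8121acc8, 0x414481881848ce2dc41488c,
    0x2a8e22c618121a8121acc8], [0, 0x814111e811111ec28, 0, 0x41c4118f6458c159ea18c8cc41c488c,
    0x218e121e64188e221ea328e8cc2a8e4889]]

noncomputable def n957 : Ent := ⟨e957, noF, [], [], [(10, 13, [18394062992640663726968434746027364144358640063421857793, 0])]⟩

def c957 : PLift (Cov.check n957.C.D v957 = true) := ⟨by decide +kernel⟩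

def b957 : PLift (entF (fidx ts) 400 957 n957 = true) := ⟨by decide +kernel⟩

theorem g957 : GoodF (fidx ts) 400 957 := GoodF.ofV v957 n957 c957.down b957.down

/-- 464744:804/3 -/
noncomputable def e958 : SCfg where
  D := {
    a := 6
    L := 8
    kp := 6
    inn := [(0, 1), (1, 0), (1, 2), (1, 3), (2, 1), (3, 1), (3, 4), (3, 5), (4, 3), (5, 3)]
    mix := [(0, 0), (0, 1), (0, 2), (1, 0), (1, 2), (1, 3), (2, 2), (2, 3), (2, 4), (3, 0), (3, 3), (3,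
      5), (3, 6), (4, 3), (4, 4), (4, 5), (5, 0), (5, 6), (5, 7)]
    cl := [0, 5, 1, 0, 2, 3, 4, 6]
    chq := [(0, 1), (0, 3), (0, 4), (1, 0), (3, 0), (4, 0)]
    rng := [(0, 1), (0, 7), (1, 0), (1, 2), (2, 1), (2, 4), (3, 4), (4, 2), (4, 3), (4, 5), (5, 4), (5,
      6), (6, 5), (6, 7), (7, 0), (7, 6)]
    lev := [] }
  links := [[1, 6, 7, 8], [6, 0, 8, 2, 9, 3], [9, 1, 8, 10], [6, 1, 9, 4, 11, 12, 5], [11, 3, 9, 10], [6,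
    3, 12, 13]]
  P := {
    a := 6
    N := 14
    nb := [450, 845, 1794, 6770, 3592, 12360, 8363, 321, 1159, 1054, 2836, 5144, 10280, 4192]
    tri := [(0, 1, 6), (0, 1, 8), (0, 6, 7), (0, 7, 8), (1, 2, 8), (1, 2, 9), (1, 3, 6), (1, 3, 9), (2,
      8, 10), (2, 9, 10), (3, 4, 9), (3, 4, 11), (3, 5, 6), (3, 5, 12), (3, 11, 12), (4, 9, 10),
      (4, 10, 11), (5, 6, 13), (5, 12, 13)]
    fin := [0, 0, 0, 0, 0, 0, 0, 7, 8, 0, 10, 11, 12, 13]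
    chd := [(0, 8), (0, 11), (0, 12)]
    steps := [(0, 1), (0, 2), (0, 3), (0, 5), (0, 6), (0, 9), (0, 4)] }
  rep := [0, 8, 10, 11, 12, 7, 13]

noncomputable def v958 : Cov.CovD where
  P := 3
  N := 4
  pl := [1, 4, 7]
  lev := [⟨[], [], [(0, 1)], [5], [(0, 0, [1, 3, 4]), (2, 1, [0])]⟩,
    ⟨[], [(0, 0), (0, 1)], [(0, 0), (0, 1)], [], [(0, 0, [1, 3, 4]), (2, 1, [0]), (3, 0,
      [1, 3, 4])]⟩,
    ⟨[(0, 1)], [(0, 1), (1, 0), (1, 1)], [(0, 1)], [2], [(2, 1, [0]), (3, 0, [1, 3, 4])]⟩,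
    ⟨[(0, 1), (1, 2)], [(0, 0), (1, 0), (1, 1), (1, 3), (1, 4), (2, 0)], [(0, 0), (0, 3),
      (0, 4), (3, 4)], [], [(0, 0, [1, 3, 4]), (3, 0, [1, 3, 4]), (5, 3, [0]), (6, 4, [0])]⟩,
    ⟨[(1, 3)], [(1, 0), (2, 0), (3, 0), (3, 3), (3, 4)], [(0, 3)], [2], [(3, 0, [1, 3, 4]),
      (5, 3, [0])]⟩,
    ⟨[(1, 3), (3, 4)], [(0, 0), (1, 0), (3, 0), (3, 3), (3, 4)], [(0, 4)], [6], [(0, 0, [1,
      3, 4]), (6, 4, [0])]⟩]
  Ta := [((0, 1), 0, 5), ((0, 7), 0, 6), ((3, 4), 0, 2)]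
  Tb := [((0, 1, 7), 0, 5, 6), ((1, 0, 2), 5, 0, 1), ((2, 1, 4), 1, 5, 2), ((4, 2, 3), 2, 1, 0),
    ((4, 2, 5), 2, 1, 3), ((4, 3, 5), 2, 0, 3), ((5, 4, 6), 3, 2, 4), ((6, 5, 7), 4, 3, 6),
    ((7, 0, 6), 6, 0, 4)]
  Tc := [(0, 1, 3), (0, 1, 4), (0, 3, 4)]
  Td := [((0, 1), (0, 1), 5), ((0, 1), (0, 7), 6), ((0, 1), (3, 4), 2), ((0, 3), (0, 1), 5), ((0,
    3), (0, 7), 6), ((0, 3), (3, 4), 2), ((0, 4), (0, 1), 5), ((0, 4), (0, 7), 6), ((0, 4),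
    (3, 4), 2), ((1, 0), (2, 1), 5), ((1, 0), (2, 4), 2), ((3, 0), (5, 4), 2), ((3, 0), (5,
    6), 4), ((4, 0), (6, 5), 3), ((4, 0), (6, 7), 6)]
  G := [[0, 0x181411e421141111ac4a, 0, 0x9455a964c184cc11e56858988cc,
    0x64a414a982963e8c1e348e1d23a8cc], [0, 0x111411e48111411e486, 0x1412641888c1161412e48c,
    0x14441888c14441888c6ac288d, 0x3892a847812a846ca488d]]

noncomputable def n958 : Ent := ⟨e958, noF, [], [], [(7, 13, [18394062992640663726968434746027364144358640063421857793, 0])]⟩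

def c958 : PLift (Cov.check n958.C.D v958 = true) := ⟨by decide +kernel⟩

def b958 : PLift (entF (fidx ts) 400 958 n958 = true) := ⟨by decide +kernel⟩

theorem g958 : GoodF (fidx ts) 400 958 := GoodF.ofV v958 n958 c958.down b958.down

/-- 464744:804 -/
noncomputable def e959 : SCfg where
  D := {
    a := 6
    L := 9
    kp := 7
    inn := [(0, 1), (1, 0), (1, 2), (1, 3), (2, 1), (3, 1), (3, 4), (3, 5), (4, 3), (5, 3)]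
    mix := [(0, 0), (0, 1), (0, 2), (1, 0), (1, 2), (1, 3), (2, 2), (2, 3), (2, 4), (3, 0), (3, 3), (3,
      5), (3, 6), (4, 3), (4, 5), (4, 7), (5, 0), (5, 6), (5, 8)]
    cl := [0, 5, 1, 0, 6, 2, 3, 7, 4]
    chq := [(0, 1), (0, 2), (1, 0), (2, 0), (2, 4), (4, 2)]
    rng := [(0, 1), (0, 8), (1, 0), (1, 2), (2, 1), (2, 4), (3, 4), (3, 7), (4, 2), (4, 3), (5, 6), (5,
      7), (6, 5), (6, 8), (7, 3), (7, 5), (8, 0), (8, 6)]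
    lev := [] }
  links := [[1, 6, 7, 8], [6, 0, 8, 2, 9, 3], [9, 1, 8, 10], [6, 1, 9, 4, 11, 12, 5], [11, 3, 9, 13], [6,
    3, 12, 14]]
  P := {
    a := 6
    N := 15
    nb := [450, 845, 1794, 6770, 10760, 20552, 16555, 321, 1159, 9246, 772, 12312, 18472, 2576, 4192]
    tri := [(0, 1, 6), (0, 1, 8), (0, 6, 7), (0, 7, 8), (1, 2, 8), (1, 2, 9), (1, 3, 6), (1, 3, 9), (2,
      8, 10), (2, 9, 10), (3, 4, 9), (3, 4, 11), (3, 5, 6), (3, 5, 12), (3, 11, 12), (4, 9, 13),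
      (4, 11, 13), (5, 6, 14), (5, 12, 14)]
    fin := [0, 0, 0, 3, 0, 3, 0, 7, 8, 0, 10, 3, 12, 13, 14]
    chd := [(0, 3), (0, 8), (3, 14)]
    steps := [(0, 1), (0, 2), (0, 6), (0, 9), (0, 4), (3, 5), (3, 11)] }
  rep := [0, 8, 3, 12, 14, 7, 10, 13]

noncomputable def v959 : Cov.CovD where
  P := 3
  N := 5
  pl := [1, 4, 6, 7]
  lev := [⟨[], [], [(0, 1)], [5], [(0, 0, [1, 2]), (2, 1, [0])]⟩,
    ⟨[], [(0, 0), (0, 1)], [(0, 0), (0, 1)], [], [(0, 0, [1, 2]), (2, 1, [0]), (3, 0, [1,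
      2])]⟩,
    ⟨[(0, 1)], [(0, 1), (1, 0), (1, 1)], [(0, 1)], [6], [(2, 1, [0]), (3, 0, [1, 2])]⟩,
    ⟨[(0, 1), (1, 2)], [(0, 0), (1, 0), (1, 1), (1, 2), (2, 0)], [(0, 0), (0, 2)], [3],
      [(0, 0, [1, 2]), (3, 0, [1, 2]), (5, 2, [0, 4])]⟩,
    ⟨[(1, 3)], [(1, 0), (2, 0), (3, 0), (3, 2)], [(0, 2)], [7], [(3, 0, [1, 2]), (5, 2, [0,
      4])]⟩,
    ⟨[(1, 3), (3, 4)], [(0, 0), (1, 0), (3, 0), (3, 2), (3, 4)], [(0, 4)], [3], [(0, 0, [1,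
      2]), (8, 4, [2])]⟩]
  Ta := [((0, 1), 0, 5), ((0, 8), 0, 4), ((3, 4), 0, 6), ((3, 7), 0, 7)]
  Tb := [((0, 1, 8), 0, 5, 4), ((1, 0, 2), 5, 0, 1), ((2, 1, 4), 1, 5, 6), ((3, 4, 7), 0, 6, 7),
    ((4, 2, 3), 6, 1, 0), ((5, 6, 7), 2, 3, 7), ((6, 5, 8), 3, 2, 4), ((7, 3, 5), 7, 0, 2),
    ((8, 0, 6), 4, 0, 3)]
  Tc := [(0, 1, 2), (2, 0, 4)]
  Td := [((0, 1), (0, 1), 5), ((0, 1), (0, 8), 4), ((0, 1), (3, 4), 6), ((0, 1), (3, 7), 7), ((0,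
    2), (0, 1), 5), ((0, 2), (0, 8), 4), ((0, 2), (3, 4), 6), ((0, 2), (3, 7), 7), ((1, 0),
    (2, 1), 5), ((1, 0), (2, 4), 6), ((2, 0), (5, 6), 3), ((2, 0), (5, 7), 7), ((2, 4), (5,
    6), 3), ((2, 4), (5, 7), 7), ((4, 2), (8, 0), 0), ((4, 2), (8, 6), 3)]
  G := [[0, 0x2111c222111c421121c82e, 0xccaaac6181, 0x24416eca8c1c64aacc16881cc,
    0x66accaa144eae4aa14c], [0, 0x1121c221121c481121c82e, 0xccaaac6181,
    0xe2c4e2c4c2ec82ec8cc1, 0x66accaa66accaac41]]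

noncomputable def n959 : Ent := ⟨e959, noF, [], [], [(7, 14, [81620716623019490593592230936445690773474979418095887306753, 0]), (10, 13, [87897818358406171357428020359653357189577334862559921823745, 0])]⟩

def c959 : PLift (Cov.check n959.C.D v959 = true) := ⟨by decide +kernel⟩

def b959 : PLift (entF (fidx ts) 400 959 n959 = true) := ⟨by decide +kernel⟩

theorem g959 : GoodF (fidx ts) 400 959 := GoodF.ofV v959 n959 c959.down b959.down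

/-- 464764:805/1 -/
noncomputable def e960 : SCfg where
  D := {
    a := 6
    L := 9
    kp := 7
    inn := [(0, 1), (1, 0), (1, 2), (1, 3), (2, 1), (3, 1), (3, 4), (3, 5), (4, 3), (4, 5), (5, 3), (5,
      4)]
    mix := [(0, 0), (0, 1), (0, 2), (1, 0), (1, 2), (1, 3), (2, 2), (2, 3), (2, 4), (3, 0), (3, 3), (3,
      5), (3, 6), (4, 3), (4, 4), (4, 7), (4, 8), (5, 5), (5, 8)]
    cl := [0, 7, 1, 0, 2, 4, 5, 6, 3]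
    chq := [(0, 1), (1, 0), (2, 5), (3, 5), (5, 2), (5, 3), (5, 6), (6, 5)]
    rng := [(0, 1), (0, 6), (1, 0), (1, 2), (2, 1), (2, 4), (3, 4), (4, 2), (4, 3), (4, 7), (5, 6), (5,
      8), (6, 0), (6, 5), (7, 4), (7, 8), (8, 5), (8, 7)]
    lev := [] }
  links := [[1, 6, 7, 8], [6, 0, 8, 2, 9, 3], [9, 1, 8, 10], [6, 1, 9, 4, 5, 11, 12], [5, 3, 9, 10, 13,
    14], [11, 3, 4, 14]]
  P := {
    a := 6
    N := 15
    nb := [450, 845, 1794, 6770, 26152, 18456, 4235, 321, 1159, 1054, 8980, 20520, 2120, 17424, 10288]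
    tri := [(0, 1, 6), (0, 1, 8), (0, 6, 7), (0, 7, 8), (1, 2, 8), (1, 2, 9), (1, 3, 6), (1, 3, 9), (2,
      8, 10), (2, 9, 10), (3, 4, 5), (3, 4, 9), (3, 5, 11), (3, 6, 12), (3, 11, 12), (4, 5, 14),
      (4, 9, 10), (4, 10, 13), (4, 13, 14), (5, 11, 14)]
    fin := [0, 0, 0, 3, 3, 5, 0, 7, 8, 0, 10, 11, 3, 13, 5]
    chd := [(0, 8), (3, 5), (3, 13), (10, 3)]
    steps := [(0, 1), (0, 2), (0, 6), (0, 9), (3, 4), (3, 12), (5, 14)] }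
  rep := [0, 8, 10, 5, 11, 3, 13, 7]

noncomputable def v960 : Cov.CovD where
  P := 3
  N := 5
  pl := [1, 5]
  lev := [⟨[], [], [(0, 1)], [7], [(0, 0, [1]), (2, 1, [0])]⟩,
    ⟨[], [(0, 0), (0, 1)], [(0, 0), (0, 1)], [], [(0, 0, [1]), (2, 1, [0]), (3, 0, [1])]⟩,
    ⟨[(0, 1)], [(0, 1), (1, 0), (1, 1), (1, 2)], [(0, 1), (0, 2), (1, 2)], [], [(2, 1,
      [0]), (3, 0, [1]), (4, 2, [5])]⟩,
    ⟨[(0, 1), (1, 2)], [(0, 0), (1, 0), (1, 1), (1, 5), (2, 0)], [(0, 0), (0, 5)], [4],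
      [(0, 0, [1]), (3, 0, [1]), (6, 5, [2, 3, 6])]⟩,
    ⟨[(1, 3)], [(1, 0), (2, 0), (2, 2), (3, 0), (3, 2), (3, 3), (3, 5), (3, 6)], [(0, 2),
      (0, 3), (0, 6), (2, 3), (2, 6), (3, 6)], [], [(3, 0, [1]), (4, 2, [5]), (7, 6, [5]),
      (8, 3, [5])]⟩,
    ⟨[(1, 3), (3, 4)], [(3, 0), (3, 3), (3, 5), (4, 0), (4, 2), (4, 3), (4, 6)], [], [4],
      [(8, 3, [5])]⟩]
  Ta := [((0, 1), 0, 7), ((0, 6), 0, 5), ((3, 4), 0, 2)]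
  Tb := [((0, 1, 6), 0, 7, 5), ((1, 0, 2), 7, 0, 1), ((2, 1, 4), 1, 7, 2), ((4, 2, 3), 2, 1, 0),
    ((4, 2, 7), 2, 1, 6), ((4, 3, 7), 2, 0, 6), ((5, 6, 8), 4, 5, 3), ((6, 0, 5), 5, 0, 4),
    ((7, 4, 8), 6, 2, 3), ((8, 5, 7), 3, 4, 6)]
  Tc := [(5, 2, 3), (5, 2, 6), (5, 3, 6)]
  Td := [((0, 1), (0, 1), 7), ((0, 1), (0, 6), 5), ((0, 1), (3, 4), 2), ((1, 0), (2, 1), 7), ((1,
    0), (2, 4), 2), ((2, 5), (4, 2), 1), ((2, 5), (4, 3), 0), ((2, 5), (4, 7), 6), ((3, 5),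
    (8, 5), 4), ((3, 5), (8, 7), 6), ((5, 2), (6, 0), 0), ((5, 2), (6, 5), 4), ((5, 3), (6,
    0), 0), ((5, 3), (6, 5), 4), ((5, 6), (6, 0), 0), ((5, 6), (6, 5), 4), ((6, 5), (7, 4),
    2), ((6, 5), (7, 8), 3)]
  G := [[0, 0x525d29acce48525d5aabce486, 0, 0x5c9832d649481c465ca933ce48c,
    0x466b83ae4cbe84ca4bbe96136898c], [0, 0xb294e6596cac4516f299cce48a, 0x42695aa5ce481,
    0xd49836ce841, 0x9d693a73ce841]]

noncomputable def n960 : Ent := ⟨e960, noF, [], [], []⟩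

def c960 : PLift (Cov.check n960.C.D v960 = true) := ⟨by decide +kernel⟩

def b960 : PLift (entF (fidx ts) 400 960 n960 = true) := ⟨by decide +kernel⟩

theorem g960 : GoodF (fidx ts) 400 960 := GoodF.ofV v960 n960 c960.down b960.down

/-- 464764:805 -/
noncomputable def e961 : SCfg where
  D := {
    a := 6
    L := 10
    kp := 8
    inn := [(0, 1), (1, 0), (1, 2), (1, 3), (2, 1), (3, 1), (3, 4), (3, 5), (4, 3), (4, 5), (5, 3), (5,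
      4)]
    mix := [(0, 0), (0, 1), (0, 2), (1, 0), (1, 2), (1, 3), (2, 2), (2, 3), (2, 4), (3, 0), (3, 3), (3,
      5), (3, 6), (4, 3), (4, 7), (4, 8), (4, 9), (5, 5), (5, 9)]
    cl := [0, 7, 1, 0, 8, 4, 2, 5, 6, 3]
    chq := [(0, 1), (1, 0), (2, 3), (2, 5), (2, 6), (3, 2), (5, 2), (6, 2)]
    rng := [(0, 1), (0, 6), (1, 0), (1, 2), (2, 1), (2, 4), (3, 4), (3, 7), (4, 2), (4, 3), (5, 6), (5,
      9), (6, 0), (6, 5), (7, 3), (7, 8), (8, 7), (8, 9), (9, 5), (9, 8)]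
    lev := [] }
  links := [[1, 6, 7, 8], [6, 0, 8, 2, 9, 3], [9, 1, 8, 10], [6, 1, 9, 4, 5, 11, 12], [5, 3, 9, 13, 14,
    15], [11, 3, 4, 15]]
  P := {
    a := 6
    N := 16
    nb := [450, 845, 1794, 6770, 57896, 34840, 4235, 321, 1159, 9246, 772, 36904, 2120, 16912, 40976,
      18480]
    tri := [(0, 1, 6), (0, 1, 8), (0, 6, 7), (0, 7, 8), (1, 2, 8), (1, 2, 9), (1, 3, 6), (1, 3, 9), (2,
      8, 10), (2, 9, 10), (3, 4, 5), (3, 4, 9), (3, 5, 11), (3, 6, 12), (3, 11, 12), (4, 5, 15),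
      (4, 9, 13), (4, 13, 14), (4, 14, 15), (5, 11, 15)]
    fin := [0, 0, 0, 3, 3, 5, 0, 7, 8, 0, 10, 11, 3, 13, 14, 5]
    chd := [(0, 8), (3, 5), (3, 13), (3, 14)]
    steps := [(0, 1), (0, 2), (0, 6), (0, 9), (3, 4), (3, 12), (5, 15)] }
  rep := [0, 8, 3, 5, 11, 13, 14, 7, 10]

noncomputable def v961 : Cov.CovD where
  P := 3
  N := 6
  pl := [1, 4, 5]
  lev := [⟨[], [], [(0, 1)], [7], [(0, 0, [1]), (2, 1, [0])]⟩,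
    ⟨[], [(0, 0), (0, 1)], [(0, 0), (0, 1)], [], [(0, 0, [1]), (2, 1, [0]), (3, 0, [1])]⟩,
    ⟨[(0, 1)], [(0, 1), (1, 0), (1, 1)], [(0, 1)], [8], [(2, 1, [0]), (3, 0, [1])]⟩,
    ⟨[(0, 1), (1, 2)], [(0, 0), (1, 0), (1, 1), (1, 2), (2, 0)], [(0, 0), (0, 2)], [4],
      [(0, 0, [1]), (3, 0, [1]), (6, 2, [3, 5, 6])]⟩,
    ⟨[(1, 3)], [(1, 0), (2, 0), (3, 0), (3, 2), (3, 3), (3, 5), (3, 6)], [(0, 3), (0, 5),
      (0, 6), (3, 5), (3, 6), (5, 6)], [], [(3, 0, [1]), (7, 5, [2]), (8, 6, [2]), (9, 3,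
      [2])]⟩,
    ⟨[(1, 3), (3, 4)], [(3, 0), (3, 2), (3, 3), (4, 0), (4, 3), (4, 5), (4, 6)], [], [4],
      [(9, 3, [2])]⟩]
  Ta := [((0, 1), 0, 7), ((0, 6), 0, 2), ((3, 4), 0, 8), ((3, 7), 0, 5)]
  Tb := [((0, 1, 6), 0, 7, 2), ((1, 0, 2), 7, 0, 1), ((2, 1, 4), 1, 7, 8), ((3, 4, 7), 0, 8, 5),
    ((4, 2, 3), 8, 1, 0), ((5, 6, 9), 4, 2, 3), ((6, 0, 5), 2, 0, 4), ((7, 3, 8), 5, 0, 6),
    ((8, 7, 9), 6, 5, 3), ((9, 5, 8), 3, 4, 6)]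
  Tc := [(2, 3, 5), (2, 3, 6), (2, 5, 6)]
  Td := [((0, 1), (0, 1), 7), ((0, 1), (0, 6), 2), ((0, 1), (3, 4), 8), ((0, 1), (3, 7), 5), ((1,
    0), (2, 1), 7), ((1, 0), (2, 4), 8), ((2, 3), (6, 0), 0), ((2, 3), (6, 5), 4), ((2, 5),
    (6, 0), 0), ((2, 5), (6, 5), 4), ((2, 6), (6, 0), 0), ((2, 6), (6, 5), 4), ((3, 2), (9,
    5), 4), ((3, 2), (9, 8), 6), ((5, 2), (7, 3), 0), ((5, 2), (7, 8), 6), ((6, 2), (8, 7),
    5), ((6, 2), (8, 9), 3)]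
  G := [[0, 0x9252c42928852486236d288e28e, 0xc161ac161ac4c1a16c1a16c8c, 0x52419281c52419281cc,
    0x9434a149434a14c], [0, 0x9252c9252c629252c9252ca2c, 0, 0x524524c928928cc1,
    0x9434a9434ac41]]

noncomputable def n961 : Ent := ⟨e961, noF, [], [], [(10, 13, [385753028440516072301428330182238677962518295842732840410939393, 0])]⟩

def c961 : PLift (Cov.check n961.C.D v961 = true) := ⟨by decide +kernel⟩

def b961 : PLift (entF (fidx ts) 400 961 n961 = true) := ⟨by decide +kernel⟩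

theorem g961 : GoodF (fidx ts) 400 961 := GoodF.ofV v961 n961 c961.down b961.down

/-- 464764:806/1 -/
noncomputable def e962 : SCfg where
  D := {
    a := 6
    L := 10
    kp := 8
    inn := [(0, 1), (1, 0), (1, 2), (1, 3), (2, 1), (3, 1), (3, 4), (3, 5), (4, 3), (5, 3)]
    mix := [(0, 0), (0, 1), (0, 2), (1, 0), (1, 2), (1, 3), (2, 2), (2, 3), (2, 4), (3, 0), (3, 3), (3,
      5), (3, 6), (4, 3), (4, 4), (4, 5), (4, 7), (4, 8), (5, 5), (5, 6), (5, 9)]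
    cl := [0, 7, 1, 0, 4, 3, 2, 5, 6, 8]
    chq := [(0, 1), (1, 0), (2, 3), (2, 4), (2, 5), (2, 6), (3, 2), (4, 2), (5, 2), (6, 2)]
    rng := [(0, 1), (0, 6), (1, 0), (1, 2), (2, 1), (2, 4), (3, 4), (4, 2), (4, 3), (4, 7), (5, 8), (5,
      9), (6, 0), (6, 9), (7, 4), (7, 8), (8, 5), (8, 7), (9, 5), (9, 6)]
    lev := [] }
  links := [[1, 6, 7, 8], [6, 0, 8, 2, 9, 3], [9, 1, 8, 10], [6, 1, 9, 4, 11, 5, 12], [11, 3, 9, 10, 13,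
    14], [12, 3, 11, 15]]
  P := {
    a := 6
    N := 16
    nb := [450, 845, 1794, 6770, 28168, 38920, 4235, 321, 1159, 1054, 8980, 49208, 32872, 17424,
      10256, 6176]
    tri := [(0, 1, 6), (0, 1, 8), (0, 6, 7), (0, 7, 8), (1, 2, 8), (1, 2, 9), (1, 3, 6), (1, 3, 9), (2,
      8, 10), (2, 9, 10), (3, 4, 9), (3, 4, 11), (3, 5, 11), (3, 5, 12), (3, 6, 12), (4, 9, 10),
      (4, 10, 13), (4, 11, 14), (4, 13, 14), (5, 11, 15), (5, 12, 15)]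
    fin := [0, 0, 0, 3, 3, 5, 0, 7, 8, 0, 10, 5, 3, 13, 14, 15]
    chd := [(0, 8), (3, 13), (3, 14), (5, 3), (10, 3)]
    steps := [(0, 1), (0, 2), (0, 6), (0, 9), (3, 4), (3, 12), (5, 11)] }
  rep := [0, 8, 3, 5, 10, 13, 14, 7, 15]

noncomputable def v962 : Cov.CovD where
  P := 3
  N := 6
  pl := [1, 9]
  lev := [⟨[], [], [(0, 1)], [7], [(0, 0, [1]), (2, 1, [0])]⟩,
    ⟨[], [(0, 0), (0, 1)], [(0, 0), (0, 1)], [], [(0, 0, [1]), (2, 1, [0]), (3, 0, [1])]⟩,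
    ⟨[(0, 1)], [(0, 1), (1, 0), (1, 1), (1, 4)], [(0, 1), (0, 4), (1, 4)], [], [(2, 1,
      [0]), (3, 0, [1]), (4, 4, [2])]⟩,
    ⟨[(0, 1), (1, 2)], [(0, 0), (1, 0), (1, 1), (1, 2), (1, 3), (2, 0)], [(0, 0), (0, 2),
      (0, 3), (2, 3)], [], [(0, 0, [1]), (3, 0, [1]), (5, 3, [2]), (6, 2, [3, 4, 5, 6])]⟩,
    ⟨[(1, 3)], [(1, 0), (2, 0), (2, 4), (3, 0), (3, 2), (3, 3), (3, 4), (3, 5), (3, 6)],
      [(0, 3), (0, 4), (0, 5), (0, 6), (3, 4), (3, 5), (3, 6), (4, 5), (4, 6), (5, 6)], [],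
      [(3, 0, [1]), (4, 4, [2]), (5, 3, [2]), (7, 5, [2]), (8, 6, [2])]⟩,
    ⟨[(1, 3), (3, 4)], [(3, 0), (3, 2), (3, 3), (4, 3)], [(2, 3)], [8], [(5, 3, [2]), (6,
      2, [3, 4, 5, 6])]⟩]
  Ta := [((0, 1), 0, 7), ((0, 6), 0, 2), ((3, 4), 0, 4)]
  Tb := [((0, 1, 6), 0, 7, 2), ((1, 0, 2), 7, 0, 1), ((2, 1, 4), 1, 7, 4), ((4, 2, 3), 4, 1, 0),
    ((4, 2, 7), 4, 1, 5), ((4, 3, 7), 4, 0, 5), ((5, 8, 9), 3, 6, 8), ((6, 0, 9), 2, 0, 8),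
    ((7, 4, 8), 5, 4, 6), ((8, 5, 7), 6, 3, 5), ((9, 5, 6), 8, 3, 2)]
  Tc := [(2, 3, 4), (2, 3, 5), (2, 3, 6), (2, 4, 5), (2, 4, 6), (2, 5, 6)]
  Td := [((0, 1), (0, 1), 7), ((0, 1), (0, 6), 2), ((0, 1), (3, 4), 4), ((1, 0), (2, 1), 7), ((1,
    0), (2, 4), 4), ((2, 3), (6, 0), 0), ((2, 3), (6, 9), 8), ((2, 4), (6, 0), 0), ((2, 4),
    (6, 9), 8), ((2, 5), (6, 0), 0), ((2, 5), (6, 9), 8), ((2, 6), (6, 0), 0), ((2, 6), (6,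
    9), 8), ((3, 2), (5, 8), 6), ((3, 2), (5, 9), 8), ((4, 2), (4, 2), 1), ((4, 2), (4, 3),
    0), ((4, 2), (4, 7), 5), ((5, 2), (7, 4), 4), ((5, 2), (7, 8), 6), ((6, 2), (8, 5), 3),
    ((6, 2), (8, 7), 5)]
  G := [[0, 0x9252c2252489288c1252c48284ce, 0xc161ac161ac4c1a16c1a16c8c, 0x52419281c52419281cc,
    0x34219481c9434a14c], [0, 0x2249252ca2928421252c2a222c8ce, 0, 0x524524c928928cc1,
    0x4444a9434ac41]]

noncomputable def n962 : Ent := ⟨e962, noF, [], [], []⟩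

def c962 : PLift (Cov.check n962.C.D v962 = true) := ⟨by decide +kernel⟩

def b962 : PLift (entF (fidx ts) 400 962 n962 = true) := ⟨by decide +kernel⟩

theorem g962 : GoodF (fidx ts) 400 962 := GoodF.ofV v962 n962 c962.down b962.down

/-- 464764:806 -/
noncomputable def e963 : SCfg where
  D := {
    a := 6
    L := 11
    kp := 9
    inn := [(0, 1), (1, 0), (1, 2), (1, 3), (2, 1), (3, 1), (3, 4), (3, 5), (4, 3), (5, 3)]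
    mix := [(0, 0), (0, 1), (0, 2), (1, 0), (1, 2), (1, 3), (2, 2), (2, 3), (2, 4), (3, 0), (3, 3), (3,
      5), (3, 6), (4, 3), (4, 5), (4, 7), (4, 8), (4, 9), (5, 5), (5, 6), (5, 10)]
    cl := [0, 7, 1, 0, 8, 3, 2, 4, 5, 6, 9]
    chq := [(0, 1), (1, 0), (2, 3), (2, 4), (2, 5), (2, 6), (3, 2), (4, 2), (5, 2), (6, 2)]
    rng := [(0, 1), (0, 6), (1, 0), (1, 2), (2, 1), (2, 4), (3, 4), (3, 7), (4, 2), (4, 3), (5, 9), (5,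
      10), (6, 0), (6, 10), (7, 3), (7, 8), (8, 7), (8, 9), (9, 5), (9, 8), (10, 5), (10, 6)]
    lev := [] }
  links := [[1, 6, 7, 8], [6, 0, 8, 2, 9, 3], [9, 1, 8, 10], [6, 1, 9, 4, 11, 5, 12], [11, 3, 9, 13, 14,
    15], [12, 3, 11, 16]]
  P := {
    a := 6
    N := 17
    nb := [450, 845, 1794, 6770, 59912, 71688, 4235, 321, 1159, 9246, 772, 98360, 65640, 16912, 40976,
      18448, 6176]
    tri := [(0, 1, 6), (0, 1, 8), (0, 6, 7), (0, 7, 8), (1, 2, 8), (1, 2, 9), (1, 3, 6), (1, 3, 9), (2,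
      8, 10), (2, 9, 10), (3, 4, 9), (3, 4, 11), (3, 5, 11), (3, 5, 12), (3, 6, 12), (4, 9, 13),
      (4, 11, 15), (4, 13, 14), (4, 14, 15), (5, 11, 16), (5, 12, 16)]
    fin := [0, 0, 0, 3, 3, 5, 0, 7, 8, 0, 10, 5, 3, 13, 14, 15, 16]
    chd := [(0, 8), (3, 13), (3, 14), (3, 15), (5, 3)]
    steps := [(0, 1), (0, 2), (0, 6), (0, 9), (3, 4), (3, 12), (5, 11)] }
  rep := [0, 8, 3, 5, 13, 14, 15, 7, 10, 16]

noncomputable def v963 : Cov.CovD where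
  P := 3
  N := 7
  pl := [1, 4, 10]
  lev := [⟨[], [], [(0, 1)], [7], [(0, 0, [1]), (2, 1, [0])]⟩,
    ⟨[], [(0, 0), (0, 1)], [(0, 0), (0, 1)], [], [(0, 0, [1]), (2, 1, [0]), (3, 0, [1])]⟩,
    ⟨[(0, 1)], [(0, 1), (1, 0), (1, 1)], [(0, 1)], [8], [(2, 1, [0]), (3, 0, [1])]⟩,
    ⟨[(0, 1), (1, 2)], [(0, 0), (1, 0), (1, 1), (1, 2), (1, 3), (2, 0)], [(0, 0), (0, 2),
      (0, 3), (2, 3)], [], [(0, 0, [1]), (3, 0, [1]), (5, 3, [2]), (6, 2, [3, 4, 5, 6])]⟩,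
    ⟨[(1, 3)], [(1, 0), (2, 0), (3, 0), (3, 2), (3, 3), (3, 4), (3, 5), (3, 6)], [(0, 3),
      (0, 4), (0, 5), (0, 6), (3, 4), (3, 5), (3, 6), (4, 5), (4, 6), (5, 6)], [], [(3, 0,
      [1]), (5, 3, [2]), (7, 4, [2]), (8, 5, [2]), (9, 6, [2])]⟩,
    ⟨[(1, 3), (3, 4)], [(3, 0), (3, 2), (3, 3), (4, 3)], [(2, 3)], [9], [(5, 3, [2]), (6,
      2, [3, 4, 5, 6])]⟩]
  Ta := [((0, 1), 0, 7), ((0, 6), 0, 2), ((3, 4), 0, 8), ((3, 7), 0, 4)]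
  Tb := [((0, 1, 6), 0, 7, 2), ((1, 0, 2), 7, 0, 1), ((2, 1, 4), 1, 7, 8), ((3, 4, 7), 0, 8, 4),
    ((4, 2, 3), 8, 1, 0), ((5, 9, 10), 3, 6, 9), ((6, 0, 10), 2, 0, 9), ((7, 3, 8), 4, 0, 5),
    ((8, 7, 9), 5, 4, 6), ((9, 5, 8), 6, 3, 5), ((10, 5, 6), 9, 3, 2)]
  Tc := [(2, 3, 4), (2, 3, 5), (2, 3, 6), (2, 4, 5), (2, 4, 6), (2, 5, 6)]
  Td := [((0, 1), (0, 1), 7), ((0, 1), (0, 6), 2), ((0, 1), (3, 4), 8), ((0, 1), (3, 7), 4), ((1,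
    0), (2, 1), 7), ((1, 0), (2, 4), 8), ((2, 3), (6, 0), 0), ((2, 3), (6, 10), 9), ((2, 4),
    (6, 0), 0), ((2, 4), (6, 10), 9), ((2, 5), (6, 0), 0), ((2, 5), (6, 10), 9), ((2, 6), (6,
    0), 0), ((2, 6), (6, 10), 9), ((3, 2), (5, 9), 6), ((3, 2), (5, 10), 9), ((4, 2), (7, 3),
    0), ((4, 2), (7, 8), 5), ((5, 2), (8, 7), 4), ((5, 2), (8, 9), 6), ((6, 2), (9, 5), 3),
    ((6, 2), (9, 8), 5)]
  G := [[0, 0x9252c2252449288c524928c2e, 0xc161ac161ac4c1a16c1a16c8c, 0x52419281c52419281cc,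
    0x9434a149434a14c], [0, 0x9252c229252c429252c82e, 0, 0x5241252cc928828cc1,
    0x9434a9434ac41]]

noncomputable def n963 : Ent := ⟨e963, noF, [], [], [(10, 13, [1685382419725355503238989871268909155780284044704628512909403365377, 0])]⟩

def c963 : PLift (Cov.check n963.C.D v963 = true) := ⟨by decide +kernel⟩

def b963 : PLift (entF (fidx ts) 400 963 n963 = true) := ⟨by decide +kernel⟩

theorem g963 : GoodF (fidx ts) 400 963 := GoodF.ofV v963 n963 c963.down b963.down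

/-- 464764:807/1 -/
noncomputable def e964 : SCfg where
  D := {
    a := 6
    L := 10
    kp := 7
    inn := [(0, 1), (1, 0), (1, 2), (1, 3), (2, 1), (3, 1), (3, 4), (4, 3), (4, 5), (5, 4)]
    mix := [(0, 0), (0, 1), (0, 2), (1, 0), (1, 2), (1, 3), (2, 2), (2, 3), (2, 4), (3, 0), (3, 3), (3,
      5), (3, 6), (3, 7), (4, 3), (4, 5), (4, 8), (4, 9), (5, 3), (5, 4), (5, 8)]
    cl := [0, 5, 1, 0, 2, 0, 6, 7, 3, 4]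
    chq := [(0, 1), (1, 0), (2, 4), (4, 2)]
    rng := [(0, 1), (0, 7), (1, 0), (1, 2), (2, 1), (2, 4), (3, 4), (4, 2), (4, 3), (4, 8), (5, 6), (5,
      9), (6, 5), (6, 7), (7, 0), (7, 6), (8, 4), (8, 9), (9, 5), (9, 8)]
    lev := [] }
  links := [[1, 6, 7, 8], [6, 0, 8, 2, 9, 3], [9, 1, 8, 10], [6, 1, 9, 4, 11, 12, 13], [11, 3, 9, 5, 14,
    15], [14, 4, 9, 10]]
  P := {
    a := 6
    N := 16
    nb := [450, 845, 1794, 14930, 51752, 17936, 8331, 321, 1159, 1086, 17188, 36888, 10248, 4168,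
      33840, 18448]
    tri := [(0, 1, 6), (0, 1, 8), (0, 6, 7), (0, 7, 8), (1, 2, 8), (1, 2, 9), (1, 3, 6), (1, 3, 9), (2,
      8, 10), (2, 9, 10), (3, 4, 9), (3, 4, 11), (3, 6, 13), (3, 11, 12), (3, 12, 13), (4, 5, 9),
      (4, 5, 14), (4, 11, 15), (4, 14, 15), (5, 9, 10), (5, 10, 14)]
    fin := [0, 0, 0, 0, 4, 4, 0, 7, 8, 0, 4, 0, 12, 13, 14, 15]
    chd := [(0, 8), (4, 15)]
    steps := [(0, 1), (0, 2), (0, 3), (0, 6), (0, 9), (0, 11), (4, 5), (4, 10)] }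
  rep := [0, 8, 4, 14, 15, 7, 12, 13]

noncomputable def v964 : Cov.CovD where
  P := 3
  N := 5
  pl := [1, 6, 7, 8]
  lev := [⟨[], [], [(0, 1)], [5], [(0, 0, [1]), (2, 1, [0])]⟩,
    ⟨[], [(0, 0), (0, 1)], [(0, 0), (0, 1)], [], [(0, 0, [1]), (2, 1, [0]), (3, 0, [1])]⟩,
    ⟨[(0, 1)], [(0, 1), (1, 0), (1, 1), (1, 2)], [(0, 1), (0, 2), (1, 2)], [], [(2, 1,
      [0]), (3, 0, [1]), (4, 2, [4])]⟩,
    ⟨[(0, 1), (1, 2)], [(0, 0), (1, 0), (1, 1), (2, 0)], [(0, 0)], [6, 7], [(0, 0, [1]),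
      (3, 0, [1]), (5, 0, [1])]⟩,
    ⟨[(1, 3)], [(1, 0), (2, 0), (3, 0), (3, 4)], [(0, 0), (0, 4)], [3], [(3, 0, [1]), (5,
      0, [1]), (9, 4, [2])]⟩,
    ⟨[(3, 4)], [(1, 0), (2, 0), (2, 2), (3, 0), (4, 0), (4, 2), (4, 4)], [(0, 2)], [3],
      [(3, 0, [1]), (4, 2, [4])]⟩]
  Ta := [((0, 1), 0, 5), ((0, 7), 0, 7), ((3, 4), 0, 2), ((5, 6), 0, 6), ((5, 9), 0, 4)]
  Tb := [((0, 1, 7), 0, 5, 7), ((1, 0, 2), 5, 0, 1), ((2, 1, 4), 1, 5, 2), ((4, 2, 3), 2, 1, 0),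
    ((4, 2, 8), 2, 1, 3), ((4, 3, 8), 2, 0, 3), ((5, 6, 9), 0, 6, 4), ((6, 5, 7), 6, 0, 7),
    ((7, 0, 6), 7, 0, 6), ((8, 4, 9), 3, 2, 4), ((9, 5, 8), 4, 0, 3)]
  Tc := []
  Td := [((0, 1), (0, 1), 5), ((0, 1), (0, 7), 7), ((0, 1), (3, 4), 2), ((0, 1), (5, 6), 6), ((0,
    1), (5, 9), 4), ((1, 0), (2, 1), 5), ((1, 0), (2, 4), 2), ((2, 4), (4, 2), 1), ((2, 4),
    (4, 3), 0), ((2, 4), (4, 8), 3), ((4, 2), (9, 5), 0), ((4, 2), (9, 8), 3)]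
  G := [[0, 0x122444ce481e84ce4a149e841ea8419e486c, 0, 0x52c2c2e84c25292e48c,
    0x8a2e8a8e61212e88c812e191e682a2e88cc], [0, 0x481e126414ce84ca8a815e48441e841ea8cc,
    0x8a2e48642e84cea8c1, 0xc2c2c2e481, 0x8a2e8a8e682a8e88c1], [0,
    0x122841ce415e84ce46841e2841ce481ec866, 0, 0x929292e481, 0x1448138e82a8a1ee8c1]]

noncomputable def n964 : Ent := ⟨e964, noF, [], [], []⟩

def c964 : PLift (Cov.check n964.C.D v964 = true) := ⟨by decide +kernel⟩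

def b964 : PLift (entF (fidx ts) 400 964 n964 = true) := ⟨by decide +kernel⟩

theorem g964 : GoodF (fidx ts) 400 964 := GoodF.ofV v964 n964 c964.down b964.down

/-- 464764:807 -/
noncomputable def e965 : SCfg where
  D := {
    a := 6
    L := 11
    kp := 8
    inn := [(0, 1), (1, 0), (1, 2), (1, 3), (2, 1), (3, 1), (3, 4), (4, 3), (4, 5), (5, 4)]
    mix := [(0, 0), (0, 1), (0, 2), (1, 0), (1, 2), (1, 3), (2, 2), (2, 3), (2, 4), (3, 0), (3, 3), (3,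
      5), (3, 6), (3, 7), (4, 3), (4, 5), (4, 8), (4, 9), (5, 3), (5, 8), (5, 10)]
    cl := [0, 5, 1, 0, 6, 0, 7, 8, 3, 2, 4]
    chq := [(0, 1), (1, 0), (2, 4), (4, 2)]
    rng := [(0, 1), (0, 7), (1, 0), (1, 2), (2, 1), (2, 4), (3, 4), (3, 10), (4, 2), (4, 3), (5, 6),
      (5, 9), (6, 5), (6, 7), (7, 0), (7, 6), (8, 9), (8, 10), (9, 5), (9, 8), (10, 3), (10, 8)]
    lev := [] }
  links := [[1, 6, 7, 8], [6, 0, 8, 2, 9, 3], [9, 1, 8, 10], [6, 1, 9, 4, 11, 12, 13], [11, 3, 9, 5, 14,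
    15], [14, 4, 9, 16]]
  P := {
    a := 6
    N := 17
    nb := [450, 845, 1794, 14930, 51752, 82448, 8331, 321, 1159, 66622, 772, 36888, 10248, 4168,
      98352, 18448, 16928]
    tri := [(0, 1, 6), (0, 1, 8), (0, 6, 7), (0, 7, 8), (1, 2, 8), (1, 2, 9), (1, 3, 6), (1, 3, 9), (2,
      8, 10), (2, 9, 10), (3, 4, 9), (3, 4, 11), (3, 6, 13), (3, 11, 12), (3, 12, 13), (4, 5, 9),
      (4, 5, 14), (4, 11, 15), (4, 14, 15), (5, 9, 16), (5, 14, 16)]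
    fin := [0, 0, 0, 0, 4, 4, 0, 7, 8, 0, 10, 0, 12, 13, 14, 15, 4]
    chd := [(0, 8), (15, 4)]
    steps := [(0, 1), (0, 2), (0, 3), (0, 6), (0, 9), (0, 11), (4, 5), (4, 16)] }
  rep := [0, 8, 15, 14, 4, 7, 10, 12, 13]

noncomputable def v965 : Cov.CovD where
  P := 3
  N := 6
  pl := [1, 4, 6, 7, 8]
  lev := [⟨[], [], [(0, 1)], [5], [(0, 0, [1]), (2, 1, [0])]⟩,
    ⟨[], [(0, 0), (0, 1)], [(0, 0), (0, 1)], [], [(0, 0, [1]), (2, 1, [0]), (3, 0, [1])]⟩,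
    ⟨[(0, 1)], [(0, 1), (1, 0), (1, 1)], [(0, 1)], [6], [(2, 1, [0]), (3, 0, [1])]⟩,
    ⟨[(0, 1), (1, 2)], [(0, 0), (1, 0), (1, 1), (2, 0)], [(0, 0)], [7, 8], [(0, 0, [1]),
      (3, 0, [1]), (5, 0, [1])]⟩,
    ⟨[(1, 3)], [(1, 0), (2, 0), (3, 0), (3, 2)], [(0, 0), (0, 2)], [3], [(3, 0, [1]), (5,
      0, [1]), (9, 2, [4])]⟩,
    ⟨[(3, 4)], [(1, 0), (2, 0), (3, 0), (4, 0), (4, 2), (4, 4)], [(0, 4)], [3], [(3, 0,
      [1]), (10, 4, [2])]⟩]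
  Ta := [((0, 1), 0, 5), ((0, 7), 0, 8), ((3, 4), 0, 6), ((3, 10), 0, 4), ((5, 6), 0, 7), ((5,
    9), 0, 2)]
  Tb := [((0, 1, 7), 0, 5, 8), ((1, 0, 2), 5, 0, 1), ((2, 1, 4), 1, 5, 6), ((3, 4, 10), 0, 6, 4),
    ((4, 2, 3), 6, 1, 0), ((5, 6, 9), 0, 7, 2), ((6, 5, 7), 7, 0, 8), ((7, 0, 6), 8, 0, 7),
    ((8, 9, 10), 3, 2, 4), ((9, 5, 8), 2, 0, 3), ((10, 3, 8), 4, 0, 3)]
  Tc := []
  Td := [((0, 1), (0, 1), 5), ((0, 1), (0, 7), 8), ((0, 1), (3, 4), 6), ((0, 1), (3, 10), 4),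
    ((0, 1), (5, 6), 7), ((0, 1), (5, 9), 2), ((1, 0), (2, 1), 5), ((1, 0), (2, 4), 6), ((2,
    4), (9, 5), 0), ((2, 4), (9, 8), 3), ((4, 2), (10, 3), 0), ((4, 2), (10, 8), 3)]
  G := [[0, 0x3812c12ce4212c422421ca11c8ac2421ca221c21cc8ae, 0,
    0xe2ca6c616ac81ce46aca6ce12881cc, 0x4ea4eae4ae14c6ae4a616ca81cc], [0,
    0x12c12c21ce188c218812c12c21cec22412c12ce28e, 0, 0xa44e2c4c2ec68a6ce2eca6cacc1,
    0xe4a446cac6ae4ae4eae4aacc1], [0, 0x1821c12ce21c24c622424c12c12c66812c1821ce188a4e,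
    0xca6c6aa6ce141, 0xe4e2ca6ce12881c1, 0x4eac6ae4ae141]]

noncomputable def n965 : Ent := ⟨e965, noF, [], [], [(10, 16, [1580044410770988437309982408355971841652082177953823432505693061121, 0])]⟩

def c965 : PLift (Cov.check n965.C.D v965 = true) := ⟨by decide +kernel⟩

def b965 : PLift (entF (fidx ts) 400 965 n965 = true) := ⟨by decide +kernel⟩

theorem g965 : GoodF (fidx ts) 400 965 := GoodF.ofV v965 n965 c965.down b965.down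

/-- 464764:808/1 -/
noncomputable def e966 : SCfg where
  D := {
    a := 6
    L := 10
    kp := 7
    inn := [(0, 1), (1, 0), (1, 2), (1, 3), (2, 1), (3, 1), (3, 4), (4, 3), (4, 5), (5, 4)]
    mix := [(0, 0), (0, 1), (0, 2), (1, 0), (1, 2), (1, 3), (2, 2), (2, 3), (2, 4), (3, 0), (3, 3), (3,
      5), (3, 6), (3, 7), (4, 3), (4, 4), (4, 5), (4, 8), (5, 5), (5, 8), (5, 9)]
    cl := [0, 5, 1, 0, 2, 0, 6, 7, 3, 4]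
    chq := [(0, 1), (1, 0), (2, 4), (4, 2)]
    rng := [(0, 1), (0, 7), (1, 0), (1, 2), (2, 1), (2, 4), (3, 4), (4, 2), (4, 3), (4, 8), (5, 6), (5,
      9), (6, 5), (6, 7), (7, 0), (7, 6), (8, 4), (8, 9), (9, 5), (9, 8)]
    lev := [] }
  links := [[1, 6, 7, 8], [6, 0, 8, 2, 9, 3], [9, 1, 8, 10], [6, 1, 9, 4, 11, 12, 13], [11, 3, 9, 10, 14,
    5], [11, 4, 14, 15]]
  P := {
    a := 6
    N := 16
    nb := [450, 845, 1794, 14930, 20008, 51216, 8331, 321, 1159, 1054, 17172, 36920, 10248, 4168,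
      33840, 18464]
    tri := [(0, 1, 6), (0, 1, 8), (0, 6, 7), (0, 7, 8), (1, 2, 8), (1, 2, 9), (1, 3, 6), (1, 3, 9), (2,
      8, 10), (2, 9, 10), (3, 4, 9), (3, 4, 11), (3, 6, 13), (3, 11, 12), (3, 12, 13), (4, 5, 11),
      (4, 5, 14), (4, 9, 10), (4, 10, 14), (5, 11, 15), (5, 14, 15)]
    fin := [0, 0, 0, 0, 4, 4, 0, 7, 8, 0, 4, 0, 12, 13, 14, 15]
    chd := [(0, 8), (4, 15)]
    steps := [(0, 1), (0, 2), (0, 3), (0, 6), (0, 9), (0, 11), (4, 5), (4, 10)] }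
  rep := [0, 8, 4, 14, 15, 7, 12, 13]

noncomputable def v966 : Cov.CovD where
  P := 3
  N := 5
  pl := [1, 6, 7, 8]
  lev := [⟨[], [], [(0, 1)], [5], [(0, 0, [1]), (2, 1, [0])]⟩,
    ⟨[], [(0, 0), (0, 1)], [(0, 0), (0, 1)], [], [(0, 0, [1]), (2, 1, [0]), (3, 0, [1])]⟩,
    ⟨[(0, 1)], [(0, 1), (1, 0), (1, 1), (1, 2)], [(0, 1), (0, 2), (1, 2)], [], [(2, 1,
      [0]), (3, 0, [1]), (4, 2, [4])]⟩,
    ⟨[(0, 1), (1, 2)], [(0, 0), (1, 0), (1, 1), (2, 0)], [(0, 0)], [6, 7], [(0, 0, [1]),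
      (3, 0, [1]), (5, 0, [1])]⟩,
    ⟨[(1, 3)], [(1, 0), (2, 0), (2, 2), (3, 0), (3, 2)], [(0, 0), (0, 2)], [3], [(3, 0,
      [1]), (4, 2, [4]), (5, 0, [1])]⟩,
    ⟨[(3, 4)], [(3, 0), (4, 0), (4, 2), (4, 4)], [(0, 4)], [3], [(5, 0, [1]), (9, 4, [2])]⟩]
  Ta := [((0, 1), 0, 5), ((0, 7), 0, 7), ((3, 4), 0, 2), ((5, 6), 0, 6), ((5, 9), 0, 4)]
  Tb := [((0, 1, 7), 0, 5, 7), ((1, 0, 2), 5, 0, 1), ((2, 1, 4), 1, 5, 2), ((4, 2, 3), 2, 1, 0),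
    ((4, 2, 8), 2, 1, 3), ((4, 3, 8), 2, 0, 3), ((5, 6, 9), 0, 6, 4), ((6, 5, 7), 6, 0, 7),
    ((7, 0, 6), 7, 0, 6), ((8, 4, 9), 3, 2, 4), ((9, 5, 8), 4, 0, 3)]
  Tc := []
  Td := [((0, 1), (0, 1), 5), ((0, 1), (0, 7), 7), ((0, 1), (3, 4), 2), ((0, 1), (5, 6), 6), ((0,
    1), (5, 9), 4), ((1, 0), (2, 1), 5), ((1, 0), (2, 4), 2), ((2, 4), (4, 2), 1), ((2, 4),
    (4, 3), 0), ((2, 4), (4, 8), 3), ((4, 2), (9, 5), 0), ((4, 2), (9, 8), 3)]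
  G := [[0, 0x12c21ca812c44612c2812c12cc8aa, 0, 0x21c4121c12ca8c12c4122c22ca1cc,
    0x14a14a41ae8414a4814a41aa1cc], [0, 0x21c12c21ce8221c2421c21cc46a, 0x11611c116e481,
    0x244812c2821ce8c1, 0x41a41a41ae841], [0, 0x12c12c21ce4221c4412c12ca4ca, 0,
    0x22c4422c22ca4c1, 0x4eac6ae4ae141]]

noncomputable def n966 : Ent := ⟨e966, noF, [], [], []⟩

def c966 : PLift (Cov.check n966.C.D v966 = true) := ⟨by decide +kernel⟩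

def b966 : PLift (entF (fidx ts) 400 966 n966 = true) := ⟨by decide +kernel⟩

theorem g966 : GoodF (fidx ts) 400 966 := GoodF.ofV v966 n966 c966.down b966.down

/-- 464764:808 -/
noncomputable def e967 : SCfg where
  D := {
    a := 6
    L := 11
    kp := 8
    inn := [(0, 1), (1, 0), (1, 2), (1, 3), (2, 1), (3, 1), (3, 4), (4, 3), (4, 5), (5, 4)]
    mix := [(0, 0), (0, 1), (0, 2), (1, 0), (1, 2), (1, 3), (2, 2), (2, 3), (2, 4), (3, 0), (3, 3), (3,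
      5), (3, 6), (3, 7), (4, 3), (4, 5), (4, 8), (4, 9), (5, 5), (5, 9), (5, 10)]
    cl := [0, 5, 1, 0, 6, 0, 7, 8, 2, 3, 4]
    chq := [(0, 1), (1, 0), (2, 4), (4, 2)]
    rng := [(0, 1), (0, 7), (1, 0), (1, 2), (2, 1), (2, 4), (3, 4), (3, 8), (4, 2), (4, 3), (5, 6), (5,
      10), (6, 5), (6, 7), (7, 0), (7, 6), (8, 3), (8, 9), (9, 8), (9, 10), (10, 5), (10, 9)]
    lev := [] }
  links := [[1, 6, 7, 8], [6, 0, 8, 2, 9, 3], [9, 1, 8, 10], [6, 1, 9, 4, 11, 12, 13], [11, 3, 9, 14, 15,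
    5], [11, 4, 15, 16]]
  P := {
    a := 6
    N := 17
    nb := [450, 845, 1794, 14930, 51752, 100368, 8331, 321, 1159, 17438, 772, 69688, 10248, 4168,
      33296, 81968, 34848]
    tri := [(0, 1, 6), (0, 1, 8), (0, 6, 7), (0, 7, 8), (1, 2, 8), (1, 2, 9), (1, 3, 6), (1, 3, 9), (2,
      8, 10), (2, 9, 10), (3, 4, 9), (3, 4, 11), (3, 6, 13), (3, 11, 12), (3, 12, 13), (4, 5, 11),
      (4, 5, 15), (4, 9, 14), (4, 14, 15), (5, 11, 16), (5, 15, 16)]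
    fin := [0, 0, 0, 0, 4, 4, 0, 7, 8, 0, 10, 0, 12, 13, 4, 15, 16]
    chd := [(0, 8), (4, 16)]
    steps := [(0, 1), (0, 2), (0, 3), (0, 6), (0, 9), (0, 11), (4, 5), (4, 14)] }
  rep := [0, 8, 4, 15, 16, 7, 10, 12, 13]

noncomputable def v967 : Cov.CovD where
  P := 3
  N := 6
  pl := [1, 4, 6, 7, 9]
  lev := [⟨[], [], [(0, 1)], [5], [(0, 0, [1]), (2, 1, [0])]⟩,
    ⟨[], [(0, 0), (0, 1)], [(0, 0), (0, 1)], [], [(0, 0, [1]), (2, 1, [0]), (3, 0, [1])]⟩,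
    ⟨[(0, 1)], [(0, 1), (1, 0), (1, 1)], [(0, 1)], [6], [(2, 1, [0]), (3, 0, [1])]⟩,
    ⟨[(0, 1), (1, 2)], [(0, 0), (1, 0), (1, 1), (2, 0)], [(0, 0)], [7, 8], [(0, 0, [1]),
      (3, 0, [1]), (5, 0, [1])]⟩,
    ⟨[(1, 3)], [(1, 0), (2, 0), (3, 0), (3, 2)], [(0, 0), (0, 2)], [3], [(3, 0, [1]), (5,
      0, [1]), (8, 2, [4])]⟩,
    ⟨[(3, 4)], [(3, 0), (4, 0), (4, 2), (4, 4)], [(0, 4)], [3], [(5, 0, [1]), (10, 4,
      [2])]⟩]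
  Ta := [((0, 1), 0, 5), ((0, 7), 0, 8), ((3, 4), 0, 6), ((3, 8), 0, 2), ((5, 6), 0, 7), ((5,
    10), 0, 4)]
  Tb := [((0, 1, 7), 0, 5, 8), ((1, 0, 2), 5, 0, 1), ((2, 1, 4), 1, 5, 6), ((3, 4, 8), 0, 6, 2),
    ((4, 2, 3), 6, 1, 0), ((5, 6, 10), 0, 7, 4), ((6, 5, 7), 7, 0, 8), ((7, 0, 6), 8, 0, 7),
    ((8, 3, 9), 2, 0, 3), ((9, 8, 10), 3, 2, 4), ((10, 5, 9), 4, 0, 3)]
  Tc := []
  Td := [((0, 1), (0, 1), 5), ((0, 1), (0, 7), 8), ((0, 1), (3, 4), 6), ((0, 1), (3, 8), 2), ((0,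
    1), (5, 6), 7), ((0, 1), (5, 10), 4), ((1, 0), (2, 1), 5), ((1, 0), (2, 4), 6), ((2, 4),
    (8, 3), 0), ((2, 4), (8, 9), 3), ((4, 2), (10, 5), 0), ((4, 2), (10, 9), 3)]
  G := [[0, 0x3812c12ce4212c422421ca11c8ac2421ca221c21cc8ae, 0, 0x12c12c6112c81c12c4112c21ca1cc,
    0x14a14a41ae1414a4114a14aa1cc], [0, 0x12c12cc21c21cac212c212c4a81421ca212c82821cccae,
    0x1164411c11a11ce11a11cacc1, 0x12c12c62421c21cec21c8188cc1, 0x41a4414a14a41ae41a41aacc1],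
    [0, 0x21c21c64812c12ca21c12cca212c2212c12cc12c8cae, 0, 0x24412ece82ece1c1,
    0x4eac6ae4ae141]]

noncomputable def n967 : Ent := ⟨e967, noF, [], [], [(10, 14, [1685382413448253767852309107433119732572617628602273068445368868865, 0])]⟩

def c967 : PLift (Cov.check n967.C.D v967 = true) := ⟨by decide +kernel⟩

def b967 : PLift (entF (fidx ts) 400 967 n967 = true) := ⟨by decide +kernel⟩

theorem g967 : GoodF (fidx ts) 400 967 := GoodF.ofV v967 n967 c967.down b967.down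

/-- 464746:813/1 -/
noncomputable def e968 : SCfg where
  D := {
    a := 6
    L := 9
    kp := 6
    inn := [(0, 1), (1, 0), (1, 2), (1, 3), (2, 1), (3, 1), (3, 4), (3, 5), (4, 3), (4, 5), (5, 3), (5,
      4)]
    mix := [(0, 0), (0, 1), (0, 2), (1, 0), (1, 2), (1, 3), (2, 2), (2, 3), (2, 4), (3, 0), (3, 3), (3,
      5), (3, 6), (4, 5), (4, 7), (5, 1), (5, 6), (5, 7), (5, 8)]
    cl := [0, 2, 1, 0, 5, 4, 3, 3, 6]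
    chq := [(0, 1), (1, 0)]
    rng := [(0, 1), (0, 6), (1, 0), (1, 2), (1, 6), (1, 8), (2, 1), (2, 4), (3, 4), (3, 5), (4, 2), (4,
      3), (5, 3), (5, 7), (6, 0), (6, 1), (7, 5), (7, 8), (8, 1), (8, 7)]
    lev := [] }
  links := [[1, 6, 7, 8], [6, 0, 8, 2, 9, 3], [9, 1, 8, 10], [6, 1, 9, 11, 4, 5, 12], [5, 3, 11, 13],
    [12, 3, 4, 13, 14, 7]]
  P := {
    a := 6
    N := 15
    nb := [450, 845, 1794, 6770, 10280, 28824, 4235, 20833, 1159, 3086, 772, 8728, 232, 18480, 8352]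
    tri := [(0, 1, 6), (0, 1, 8), (0, 6, 7), (0, 7, 8), (1, 2, 8), (1, 2, 9), (1, 3, 6), (1, 3, 9), (2,
      8, 10), (2, 9, 10), (3, 4, 5), (3, 4, 11), (3, 5, 12), (3, 6, 12), (3, 9, 11), (4, 5, 13),
      (4, 11, 13), (5, 7, 12), (5, 7, 14), (5, 13, 14)]
    fin := [0, 0, 0, 0, 0, 5, 0, 7, 8, 0, 10, 11, 5, 5, 14]
    chd := [(0, 8)]
    steps := [(0, 1), (0, 2), (0, 3), (0, 4), (0, 6), (0, 9), (5, 13), (5, 12)] }
  rep := [0, 8, 7, 5, 11, 10, 14]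

noncomputable def v968 : Cov.CovD where
  P := 3
  N := 4
  pl := [1, 4, 5, 8]
  lev := [⟨[], [], [(0, 1)], [2], [(0, 0, [1]), (2, 1, [0])]⟩,
    ⟨[], [(0, 0), (0, 1)], [(0, 0), (0, 1)], [], [(0, 0, [1]), (2, 1, [0]), (3, 0, [1])]⟩,
    ⟨[(0, 1)], [(0, 1), (1, 0), (1, 1)], [(0, 1)], [5], [(2, 1, [0]), (3, 0, [1])]⟩,
    ⟨[(0, 1), (1, 2)], [(0, 0), (1, 0), (1, 1), (1, 3), (2, 0)], [(0, 0), (0, 3)], [4],
      [(0, 0, [1]), (3, 0, [1]), (6, 3, [])]⟩,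
    ⟨[(1, 3)], [(3, 0), (3, 3)], [], [4], [(7, 3, [])]⟩,
    ⟨[(1, 3), (3, 4)], [(3, 0), (3, 3), (4, 3)], [(3, 3)], [2, 6], [(6, 3, []), (7, 3,
      [])]⟩]
  Ta := [((0, 1), 0, 2), ((0, 6), 0, 3), ((3, 4), 0, 5), ((3, 5), 0, 4), ((6, 0), 3, 0), ((6, 1),
    3, 2), ((7, 5), 3, 4), ((7, 8), 3, 6)]
  Tb := [((0, 1, 6), 0, 2, 3), ((1, 0, 2), 2, 0, 1), ((1, 0, 6), 2, 0, 3), ((1, 0, 8), 2, 0, 6),
    ((1, 2, 6), 2, 1, 3), ((1, 2, 8), 2, 1, 6), ((1, 6, 8), 2, 3, 6), ((2, 1, 4), 1, 2, 5),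
    ((3, 4, 5), 0, 5, 4), ((4, 2, 3), 5, 1, 0), ((5, 3, 7), 4, 0, 3), ((6, 0, 1), 3, 0, 2),
    ((7, 5, 8), 3, 4, 6), ((8, 1, 7), 6, 2, 3)]
  Tc := []
  Td := [((0, 1), (0, 1), 2), ((0, 1), (0, 6), 3), ((0, 1), (3, 4), 5), ((0, 1), (3, 5), 4), ((1,
    0), (2, 1), 2), ((1, 0), (2, 4), 5)]
  G := [[0, 0x49929151d1e58c51ce28, 0xe1e161e181c8, 0x51d2619481c4, 0x91b1123e148], [0,
    0xd12d18d14e28, 0xe1e16188, 0xd1d26188, 0xb4b16188], [0, 0x9151d1e91145d1ec28, 0,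
    0x584491d2a94d2acc58488c, 0xb4221e6438939a123e918cc8], [0, 0xd12d18d14e28, 0,
    0xd1d2ad1d2ac48, 0xb4b16b4b16c81]]

noncomputable def n968 : Ent := ⟨e968, noF, [], [], []⟩

def c968 : PLift (Cov.check n968.C.D v968 = true) := ⟨by decide +kernel⟩

def b968 : PLift (entF (fidx ts) 400 968 n968 = true) := ⟨by decide +kernel⟩

theorem g968 : GoodF (fidx ts) 400 968 := GoodF.ofV v968 n968 c968.down b968.down

/-- 464746:813 -/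
noncomputable def e969 : SCfg where
  D := {
    a := 6
    L := 10
    kp := 7
    inn := [(0, 1), (1, 0), (1, 2), (1, 3), (2, 1), (3, 1), (3, 4), (3, 5), (4, 3), (4, 5), (5, 3), (5,
      4)]
    mix := [(0, 0), (0, 1), (0, 2), (1, 0), (1, 2), (1, 3), (2, 2), (2, 3), (2, 4), (3, 0), (3, 3), (3,
      5), (3, 6), (4, 5), (4, 7), (5, 6), (5, 7), (5, 8), (5, 9)]
    cl := [0, 4, 3, 0, 5, 2, 1, 1, 6, 7]
    chq := [(0, 3), (3, 0)]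
    rng := [(0, 1), (0, 6), (1, 0), (1, 2), (2, 1), (2, 4), (3, 4), (3, 5), (4, 2), (4, 3), (5, 3), (5,
      7), (6, 0), (6, 9), (7, 5), (7, 8), (8, 7), (8, 9), (9, 6), (9, 8)]
    lev := [] }
  links := [[1, 6, 7, 8], [6, 0, 8, 2, 9, 3], [9, 1, 8, 10], [6, 1, 9, 11, 4, 5, 12], [5, 3, 11, 13],
    [12, 3, 4, 13, 14, 15]]
  P := {
    a := 6
    N := 16
    nb := [450, 845, 1794, 6770, 10280, 61464, 4235, 321, 1159, 3086, 772, 8728, 32872, 18480, 40992,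
      20512]
    tri := [(0, 1, 6), (0, 1, 8), (0, 6, 7), (0, 7, 8), (1, 2, 8), (1, 2, 9), (1, 3, 6), (1, 3, 9), (2,
      8, 10), (2, 9, 10), (3, 4, 5), (3, 4, 11), (3, 5, 12), (3, 6, 12), (3, 9, 11), (4, 5, 13),
      (4, 11, 13), (5, 12, 15), (5, 13, 14), (5, 14, 15)]
    fin := [0, 0, 0, 0, 0, 5, 0, 7, 8, 0, 10, 11, 5, 5, 14, 15]
    chd := [(0, 8)]
    steps := [(0, 1), (0, 2), (0, 3), (0, 4), (0, 6), (0, 9), (5, 13), (5, 12)] }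
  rep := [0, 5, 11, 8, 7, 10, 14, 15]

noncomputable def v969 : Cov.CovD where
  P := 3
  N := 5
  pl := [1, 4, 5, 8, 9]
  lev := [⟨[], [], [(0, 3)], [4], [(0, 0, [3]), (2, 3, [0])]⟩,
    ⟨[], [(0, 0), (0, 3)], [(0, 0), (0, 3)], [], [(0, 0, [3]), (2, 3, [0]), (3, 0, [3])]⟩,
    ⟨[(0, 1)], [(0, 3), (1, 0), (1, 3)], [(0, 3)], [5], [(2, 3, [0]), (3, 0, [3])]⟩,
    ⟨[(0, 1), (1, 2)], [(0, 0), (1, 0), (1, 1), (1, 3), (2, 0)], [(0, 0), (0, 1)], [2],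
      [(0, 0, [3]), (3, 0, [3]), (6, 1, [])]⟩,
    ⟨[(1, 3)], [(3, 0), (3, 1)], [], [2], [(7, 1, [])]⟩,
    ⟨[(1, 3), (3, 4)], [(3, 0), (3, 1), (4, 1)], [(1, 1)], [6, 7], [(6, 1, []), (7, 1,
      [])]⟩]
  Ta := [((0, 1), 0, 4), ((0, 6), 0, 1), ((3, 4), 0, 5), ((3, 5), 0, 2), ((6, 0), 1, 0), ((6, 9),
    1, 7), ((7, 5), 1, 2), ((7, 8), 1, 6)]
  Tb := [((0, 1, 6), 0, 4, 1), ((1, 0, 2), 4, 0, 3), ((2, 1, 4), 3, 4, 5), ((3, 4, 5), 0, 5, 2),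
    ((4, 2, 3), 5, 3, 0), ((5, 3, 7), 2, 0, 1), ((6, 0, 9), 1, 0, 7), ((7, 5, 8), 1, 2, 6),
    ((8, 7, 9), 6, 1, 7), ((9, 6, 8), 7, 1, 6)]
  Tc := []
  Td := [((0, 3), (0, 1), 4), ((0, 3), (0, 6), 1), ((0, 3), (3, 4), 5), ((0, 3), (3, 5), 2), ((3,
    0), (2, 1), 4), ((3, 0), (2, 4), 5)]
  G := [[0, 0xe8418e1814e1412e, 0, 0, 0xd18d28cd2816d1858a834d18d1892e], [0, 0, 0,
    0xd14945438d18d1894d84d4852e, 0xd12d1238d18d1894d18589852e], [0, 0, 0x49c48d484d482e1, 0,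
    0xd28d28c4d28d28a4d284d18d18a6d], [0, 0, 0xd848d424d482e1,
    0xd18d18a4d48d18c4d148d184d482e7, 0xd1822d1842d1882d828d184d182ef]]

noncomputable def n969 : Ent := ⟨e969, noF, [], [], [(7, 15, [360035742630636841211993100915356868655746945586763691011637249, 0])]⟩

def c969 : PLift (Cov.check n969.C.D v969 = true) := ⟨by decide +kernel⟩

def b969 : PLift (entF (fidx ts) 400 969 n969 = true) := ⟨by decide +kernel⟩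

theorem g969 : GoodF (fidx ts) 400 969 := GoodF.ofV v969 n969 c969.down b969.down

/-- 464747:814 -/
noncomputable def e970 : SCfg where
  D := {
    a := 6
    L := 10
    kp := 8
    inn := [(0, 1), (0, 5), (1, 0), (1, 2), (1, 3), (1, 5), (2, 1), (3, 1), (3, 4), (3, 5), (4, 3), (5,
      0), (5, 1), (5, 3)]
    mix := [(0, 0), (0, 1), (1, 1), (1, 2), (2, 1), (2, 2), (2, 3), (3, 2), (3, 4), (3, 5), (3, 6), (4,
      4), (4, 5), (4, 7), (5, 0), (5, 6), (5, 8), (5, 9)]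
    cl := [2, 1, 0, 7, 3, 4, 3, 8, 5, 6]
    chq := [(0, 1), (0, 2), (0, 5), (0, 6), (1, 0), (2, 0), (5, 0), (6, 0)]
    rng := [(0, 1), (0, 9), (1, 0), (1, 3), (2, 3), (2, 4), (3, 1), (3, 2), (4, 2), (4, 7), (5, 6), (5,
      7), (6, 5), (6, 8), (7, 4), (7, 5), (8, 6), (8, 9), (9, 0), (9, 8)]
    lev := [] }
  links := [[1, 5, 6, 7], [5, 0, 7, 2, 8, 3], [8, 1, 7, 9], [5, 1, 8, 10, 4, 11, 12], [11, 3, 10, 13],
    [6, 0, 1, 3, 12, 14, 15]]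
  P := {
    a := 6
    N := 16
    nb := [226, 429, 898, 7474, 11272, 53323, 32929, 583, 1550, 388, 8472, 12312, 18472, 3088, 36896,
      16480]
    tri := [(0, 1, 5), (0, 1, 7), (0, 5, 6), (0, 6, 7), (1, 2, 7), (1, 2, 8), (1, 3, 5), (1, 3, 8), (2,
      7, 9), (2, 8, 9), (3, 4, 10), (3, 4, 11), (3, 5, 12), (3, 8, 10), (3, 11, 12), (4, 10, 13),
      (4, 11, 13), (5, 6, 15), (5, 12, 14), (5, 14, 15)]
    fin := [0, 1, 2, 3, 3, 1, 0, 2, 1, 9, 3, 11, 3, 13, 14, 15]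
    chd := [(0, 1), (1, 14), (1, 15), (2, 1)]
    steps := [(0, 6), (1, 5), (1, 8), (2, 7), (3, 4), (3, 10), (3, 12)] }
  rep := [1, 2, 0, 3, 11, 14, 15, 9, 13]

noncomputable def v970 : Cov.CovD where
  P := 3
  N := 6
  pl := [3, 5, 7]
  lev := [⟨[], [], [(1, 2)], [], [(0, 2, [0]), (1, 1, [0])]⟩,
    ⟨[], [(0, 0), (0, 1), (0, 2)], [(0, 1)], [], [(1, 1, [0]), (2, 0, [1, 2, 5, 6])]⟩,
    ⟨[(0, 1)], [(0, 1), (1, 0), (1, 1)], [(0, 1)], [7], [(1, 1, [0]), (2, 0, [1, 2, 5,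
      6])]⟩,
    ⟨[(0, 1), (1, 2)], [(1, 0), (1, 1), (1, 3), (2, 0)], [(0, 3), (3, 3)], [4], [(2, 0, [1,
      2, 5, 6]), (4, 3, []), (6, 3, [])]⟩,
    ⟨[(1, 3)], [(3, 0), (3, 3)], [], [4, 8], [(4, 3, [])]⟩,
    ⟨[(0, 1), (0, 3), (1, 2), (1, 3), (3, 4)], [(0, 1), (0, 2), (0, 3), (0, 5), (0, 6), (1,
      0), (1, 1), (1, 2), (1, 3), (1, 5), (1, 6), (3, 0), (3, 2), (3, 3), (3, 5), (3, 6)],
      [(2, 3), (2, 5), (2, 6), (3, 5), (3, 6), (5, 6)], [], [(0, 2, [0]), (6, 3, []), (8, 5,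
      [0]), (9, 6, [0])]⟩]
  Ta := [((4, 2), 3, 0), ((4, 7), 3, 8), ((6, 5), 3, 4), ((6, 8), 3, 5)]
  Tb := [((0, 1, 9), 2, 1, 6), ((1, 0, 3), 1, 2, 7), ((2, 3, 4), 0, 7, 3), ((3, 1, 2), 7, 1, 0),
    ((4, 2, 7), 3, 0, 8), ((5, 6, 7), 4, 3, 8), ((6, 5, 8), 3, 4, 5), ((7, 4, 5), 8, 3, 4),
    ((8, 6, 9), 5, 3, 6), ((9, 0, 8), 6, 2, 5)]
  Tc := [(0, 1, 2), (0, 1, 5), (0, 1, 6), (0, 2, 5), (0, 2, 6), (0, 5, 6)]
  Td := [((0, 1), (2, 3), 7), ((0, 1), (2, 4), 3), ((0, 2), (2, 3), 7), ((0, 2), (2, 4), 3), ((0,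
    5), (2, 3), 7), ((0, 5), (2, 4), 3), ((0, 6), (2, 3), 7), ((0, 6), (2, 4), 3), ((1, 0),
    (1, 0), 2), ((1, 0), (1, 3), 7), ((2, 0), (0, 1), 1), ((2, 0), (0, 9), 6), ((5, 0), (8,
    6), 3), ((5, 0), (8, 9), 6), ((6, 0), (9, 0), 2), ((6, 0), (9, 8), 5)]
  G := [[0, 0x115113611115113e61881198ca4, 0x1151136111981c8, 0x11981198c411511361151136c8c,
    0x11511361445111d111117e1198cc144889], [0, 0x11611511ce11611511ce684, 0x11611511ce184,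
    0x1154411911a113e119113acc8, 0x1154411611a113e11611cacc8]]

noncomputable def n970 : Ent := ⟨e970, noF, [], [], []⟩

def c970 : PLift (Cov.check n970.C.D v970 = true) := ⟨by decide +kernel⟩

def b970 : PLift (entF (fidx ts) 400 970 n970 = true) := ⟨by decide +kernel⟩

theorem g970 : GoodF (fidx ts) 400 970 := GoodF.ofV v970 n970 c970.down b970.down

/-- 464747:815 -/
noncomputable def e971 : SCfg where
  D := {
    a := 6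
    L := 10
    kp := 8
    inn := [(0, 1), (1, 0), (1, 2), (1, 3), (1, 5), (2, 1), (2, 5), (3, 1), (3, 4), (3, 5), (4, 3), (5,
      1), (5, 2), (5, 3)]
    mix := [(0, 0), (0, 1), (0, 2), (1, 0), (1, 2), (2, 2), (2, 3), (3, 0), (3, 4), (3, 5), (3, 6), (4,
      4), (4, 5), (4, 7), (5, 3), (5, 4), (5, 8), (5, 9)]
    cl := [0, 7, 1, 2, 3, 4, 3, 8, 5, 6]
    chq := [(0, 1), (0, 2), (0, 5), (0, 6), (1, 0), (2, 0), (5, 0), (6, 0)]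
    rng := [(0, 1), (0, 6), (1, 0), (1, 2), (2, 1), (2, 3), (3, 2), (3, 8), (4, 7), (4, 9), (5, 6), (5,
      7), (6, 0), (6, 5), (7, 4), (7, 5), (8, 3), (8, 9), (9, 4), (9, 8)]
    lev := [] }
  links := [[1, 6, 7, 8], [6, 0, 8, 2, 5, 3], [5, 1, 8, 9], [6, 1, 5, 10, 4, 11, 12], [11, 3, 10, 13],
    [10, 3, 1, 2, 9, 14, 15]]
  P := {
    a := 6
    N := 16
    nb := [450, 365, 802, 7282, 11272, 50702, 4235, 321, 647, 16676, 41016, 12312, 2120, 3088, 33312,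
      17440]
    tri := [(0, 1, 6), (0, 1, 8), (0, 6, 7), (0, 7, 8), (1, 2, 5), (1, 2, 8), (1, 3, 5), (1, 3, 6), (2,
      5, 9), (2, 8, 9), (3, 4, 10), (3, 4, 11), (3, 5, 10), (3, 6, 12), (3, 11, 12), (4, 10, 13),
      (4, 11, 13), (5, 9, 14), (5, 10, 15), (5, 14, 15)]
    fin := [0, 0, 0, 3, 3, 0, 0, 7, 8, 9, 3, 11, 3, 13, 14, 15]
    chd := [(0, 8), (0, 9), (0, 14), (0, 15)]
    steps := [(0, 1), (0, 2), (0, 5), (0, 6), (3, 4), (3, 10), (3, 12)] }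
  rep := [0, 8, 9, 3, 11, 14, 15, 7, 13]

noncomputable def v971 : Cov.CovD where
  P := 3
  N := 6
  pl := [1, 5, 7]
  lev := [⟨[], [], [(0, 1)], [7], [(0, 0, [1, 2, 5, 6]), (2, 1, [0])]⟩,
    ⟨[], [(0, 0), (0, 1)], [(0, 1)], [], [(0, 0, [1, 2, 5, 6]), (2, 1, [0])]⟩,
    ⟨[(0, 1)], [(0, 1), (1, 0), (1, 1), (1, 2)], [(1, 2)], [], [(2, 1, [0]), (3, 2, [0])]⟩,
    ⟨[(0, 1), (1, 2)], [(0, 0), (1, 0), (1, 1), (1, 3)], [(0, 3), (3, 3)], [4], [(0, 0, [1,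
      2, 5, 6]), (4, 3, []), (6, 3, [])]⟩,
    ⟨[(1, 3)], [(3, 0), (3, 3)], [], [4, 8], [(4, 3, [])]⟩,
    ⟨[(0, 1), (1, 2), (1, 3), (2, 3), (3, 4)], [(1, 0), (1, 1), (1, 2), (1, 3), (1, 5), (1,
      6), (2, 1), (2, 2), (2, 3), (2, 5), (2, 6), (3, 0), (3, 2), (3, 3), (3, 5), (3, 6), (4,
      3)], [(2, 3), (2, 5), (2, 6), (3, 5), (3, 6), (5, 6)], [], [(3, 2, [0]), (4, 3, []),
      (8, 5, [0]), (9, 6, [0])]⟩]
  Ta := [((4, 7), 3, 8), ((4, 9), 3, 6), ((6, 0), 3, 0), ((6, 5), 3, 4)]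
  Tb := [((0, 1, 6), 0, 7, 3), ((1, 0, 2), 7, 0, 1), ((2, 1, 3), 1, 7, 2), ((3, 2, 8), 2, 1, 5),
    ((4, 7, 9), 3, 8, 6), ((5, 6, 7), 4, 3, 8), ((6, 0, 5), 3, 0, 4), ((7, 4, 5), 8, 3, 4),
    ((8, 3, 9), 5, 2, 6), ((9, 4, 8), 6, 3, 5)]
  Tc := [(0, 1, 2), (0, 1, 5), (0, 1, 6), (0, 2, 5), (0, 2, 6), (0, 5, 6)]
  Td := [((0, 1), (0, 1), 7), ((0, 1), (0, 6), 3), ((0, 2), (0, 1), 7), ((0, 2), (0, 6), 3), ((0,
    5), (0, 1), 7), ((0, 5), (0, 6), 3), ((0, 6), (0, 1), 7), ((0, 6), (0, 6), 3), ((1, 0),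
    (2, 1), 7), ((1, 0), (2, 3), 2), ((2, 0), (3, 2), 1), ((2, 0), (3, 8), 5), ((5, 0), (8,
    3), 2), ((5, 0), (8, 9), 6), ((6, 0), (9, 4), 3), ((6, 0), (9, 8), 5)]
  G := [[0, 0x1151136411984a119113a4115486a, 0x11548119113a8c1, 0x11544119113a8c11548119113a8cc,
    0x144111911113e8c1151136811988c14488d], [0, 0x11611511ce8211911a11ce846,
    0x11a11361168c81, 0x11544119113a8c11544119113a8cc, 0x11611a11ce8411548119113a8cc]]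

noncomputable def n971 : Ent := ⟨e971, noF, [], [], []⟩

def c971 : PLift (Cov.check n971.C.D v971 = true) := ⟨by decide +kernel⟩

def b971 : PLift (entF (fidx ts) 400 971 n971 = true) := ⟨by decide +kernel⟩

theorem g971 : GoodF (fidx ts) 400 971 := GoodF.ofV v971 n971 c971.down b971.down

/-- 464747:816/1 -/
noncomputable def e972 : SCfg where
  D := {
    a := 6
    L := 10
    kp := 8
    inn := [(0, 1), (1, 0), (1, 2), (1, 3), (2, 1), (3, 1), (3, 4), (3, 5), (4, 3), (4, 5), (5, 3), (5,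
      4)]
    mix := [(0, 0), (0, 1), (0, 2), (1, 0), (1, 2), (1, 3), (2, 2), (2, 3), (2, 4), (3, 0), (3, 3), (3,
      5), (3, 6), (4, 5), (4, 7), (5, 3), (5, 4), (5, 7), (5, 8), (5, 9)]
    cl := [0, 8, 1, 0, 2, 4, 5, 3, 6, 7]
    chq := [(0, 1), (1, 0), (2, 5), (3, 5), (5, 2), (5, 3), (5, 6), (5, 7), (6, 5), (7, 5)]
    rng := [(0, 1), (0, 6), (1, 0), (1, 2), (2, 1), (2, 4), (3, 4), (4, 2), (4, 3), (4, 8), (5, 6), (5,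
      7), (6, 0), (6, 5), (7, 5), (7, 9), (8, 4), (8, 9), (9, 7), (9, 8)]
    lev := [] }
  links := [[1, 6, 7, 8], [6, 0, 8, 2, 9, 3], [9, 1, 8, 10], [6, 1, 9, 5, 4, 11, 12], [11, 3, 5, 13],
    [13, 4, 3, 9, 10, 14, 15]]
  P := {
    a := 6
    N := 16
    nb := [450, 845, 1794, 6770, 10280, 58904, 4235, 321, 1159, 1070, 17188, 12312, 2120, 34864,
      33824, 24608]
    tri := [(0, 1, 6), (0, 1, 8), (0, 6, 7), (0, 7, 8), (1, 2, 8), (1, 2, 9), (1, 3, 6), (1, 3, 9), (2,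
      8, 10), (2, 9, 10), (3, 4, 5), (3, 4, 11), (3, 5, 9), (3, 6, 12), (3, 11, 12), (4, 5, 13),
      (4, 11, 13), (5, 9, 10), (5, 10, 14), (5, 13, 15), (5, 14, 15)]
    fin := [0, 0, 0, 3, 4, 3, 0, 7, 8, 0, 10, 11, 3, 4, 14, 15]
    chd := [(0, 8), (3, 4), (3, 14), (3, 15), (10, 3)]
    steps := [(0, 1), (0, 2), (0, 6), (0, 9), (3, 5), (3, 12), (4, 13)] }
  rep := [0, 8, 10, 4, 11, 3, 14, 15, 7]

noncomputable def v972 : Cov.CovD where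
  P := 3
  N := 6
  pl := [1, 5]
  lev := [⟨[], [], [(0, 1)], [8], [(0, 0, [1]), (2, 1, [0])]⟩,
    ⟨[], [(0, 0), (0, 1)], [(0, 0), (0, 1)], [], [(0, 0, [1]), (2, 1, [0]), (3, 0, [1])]⟩,
    ⟨[(0, 1)], [(0, 1), (1, 0), (1, 1), (1, 2)], [(0, 1), (0, 2), (1, 2)], [], [(2, 1,
      [0]), (3, 0, [1]), (4, 2, [5])]⟩,
    ⟨[(0, 1), (1, 2)], [(0, 0), (1, 0), (1, 1), (1, 5), (2, 0)], [(0, 0), (0, 5)], [4],
      [(0, 0, [1]), (3, 0, [1]), (6, 5, [2, 3, 6, 7])]⟩,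
    ⟨[(1, 3)], [(3, 0), (3, 3), (3, 5)], [], [4], [(7, 3, [5])]⟩,
    ⟨[(1, 3), (3, 4)], [(1, 0), (2, 0), (2, 2), (3, 0), (3, 2), (3, 3), (3, 5), (3, 6), (3,
      7), (4, 0), (4, 2), (4, 3), (4, 6), (4, 7)], [(0, 2), (0, 3), (0, 6), (0, 7), (2, 3),
      (2, 6), (2, 7), (3, 6), (3, 7), (6, 7)], [], [(3, 0, [1]), (4, 2, [5]), (7, 3, [5]),
      (8, 6, [5]), (9, 7, [5])]⟩]
  Ta := [((0, 1), 0, 8), ((0, 6), 0, 5), ((3, 4), 0, 2)]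
  Tb := [((0, 1, 6), 0, 8, 5), ((1, 0, 2), 8, 0, 1), ((2, 1, 4), 1, 8, 2), ((4, 2, 3), 2, 1, 0),
    ((4, 2, 8), 2, 1, 6), ((4, 3, 8), 2, 0, 6), ((5, 6, 7), 4, 5, 3), ((6, 0, 5), 5, 0, 4),
    ((7, 5, 9), 3, 4, 7), ((8, 4, 9), 6, 2, 7), ((9, 7, 8), 7, 3, 6)]
  Tc := [(5, 2, 3), (5, 2, 6), (5, 2, 7), (5, 3, 6), (5, 3, 7), (5, 6, 7)]
  Td := [((0, 1), (0, 1), 8), ((0, 1), (0, 6), 5), ((0, 1), (3, 4), 2), ((1, 0), (2, 1), 8), ((1,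
    0), (2, 4), 2), ((2, 5), (4, 2), 1), ((2, 5), (4, 3), 0), ((2, 5), (4, 8), 6), ((3, 5),
    (7, 5), 4), ((3, 5), (7, 9), 7), ((5, 2), (6, 0), 0), ((5, 2), (6, 5), 4), ((5, 3), (6,
    0), 0), ((5, 3), (6, 5), 4), ((5, 6), (6, 0), 0), ((5, 6), (6, 5), 4), ((5, 7), (6, 0),
    0), ((5, 7), (6, 5), 4), ((6, 5), (8, 4), 2), ((6, 5), (8, 9), 7), ((7, 5), (9, 7), 3),
    ((7, 5), (9, 8), 6)]
  G := [[0, 0xaa5cc36466988acc328669aa5c86c, 0, 0x198d1dcb6444981c88541514d1dc7a8cc,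
    0xaa5cc361716d116a8caa541716d1dc7a8cc], [0, 0xc224669aa5c1e46aa5cc36866988aa,
    0xaa5cc36466984c1, 0x88548449cc3a4c1, 0xaa5cc36866988c1]]

noncomputable def n972 : Ent := ⟨e972, noF, [], [], []⟩

def c972 : PLift (Cov.check n972.C.D v972 = true) := ⟨by decide +kernel⟩

def b972 : PLift (entF (fidx ts) 400 972 n972 = true) := ⟨by decide +kernel⟩

theorem g972 : GoodF (fidx ts) 400 972 := GoodF.ofV v972 n972 c972.down b972.down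

/-- 464747:816 -/
noncomputable def e973 : SCfg where
  D := {
    a := 6
    L := 11
    kp := 9
    inn := [(0, 1), (1, 0), (1, 2), (1, 3), (2, 1), (3, 1), (3, 4), (3, 5), (4, 3), (4, 5), (5, 3), (5,
      4)]
    mix := [(0, 0), (0, 1), (0, 2), (1, 0), (1, 2), (1, 3), (2, 2), (2, 3), (2, 4), (3, 0), (3, 3), (3,
      5), (3, 6), (4, 5), (4, 7), (5, 3), (5, 7), (5, 8), (5, 9), (5, 10)]
    cl := [0, 8, 1, 0, 9, 4, 2, 3, 5, 6, 7]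
    chq := [(0, 1), (1, 0), (2, 3), (2, 5), (2, 6), (2, 7), (3, 2), (5, 2), (6, 2), (7, 2)]
    rng := [(0, 1), (0, 6), (1, 0), (1, 2), (2, 1), (2, 4), (3, 4), (3, 8), (4, 2), (4, 3), (5, 6), (5,
      7), (6, 0), (6, 5), (7, 5), (7, 10), (8, 3), (8, 9), (9, 8), (9, 10), (10, 7), (10, 9)]
    lev := [] }
  links := [[1, 6, 7, 8], [6, 0, 8, 2, 9, 3], [9, 1, 8, 10], [6, 1, 9, 5, 4, 11, 12], [11, 3, 5, 13],
    [13, 4, 3, 9, 14, 15, 16]]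
  P := {
    a := 6
    N := 17
    nb := [450, 845, 1794, 6770, 10280, 123416, 4235, 321, 1159, 17454, 772, 12312, 2120, 67632,
      33312, 81952, 40992]
    tri := [(0, 1, 6), (0, 1, 8), (0, 6, 7), (0, 7, 8), (1, 2, 8), (1, 2, 9), (1, 3, 6), (1, 3, 9), (2,
      8, 10), (2, 9, 10), (3, 4, 5), (3, 4, 11), (3, 5, 9), (3, 6, 12), (3, 11, 12), (4, 5, 13),
      (4, 11, 13), (5, 9, 14), (5, 13, 16), (5, 14, 15), (5, 15, 16)]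
    fin := [0, 0, 0, 3, 4, 3, 0, 7, 8, 0, 10, 11, 3, 4, 14, 15, 16]
    chd := [(0, 8), (3, 4), (3, 14), (3, 15), (3, 16)]
    steps := [(0, 1), (0, 2), (0, 6), (0, 9), (3, 5), (3, 12), (4, 13)] }
  rep := [0, 8, 3, 4, 11, 14, 15, 16, 7, 10]

noncomputable def v973 : Cov.CovD where
  P := 3
  N := 7
  pl := [1, 4, 5]
  lev := [⟨[], [], [(0, 1)], [8], [(0, 0, [1]), (2, 1, [0])]⟩,
    ⟨[], [(0, 0), (0, 1)], [(0, 0), (0, 1)], [], [(0, 0, [1]), (2, 1, [0]), (3, 0, [1])]⟩,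
    ⟨[(0, 1)], [(0, 1), (1, 0), (1, 1)], [(0, 1)], [9], [(2, 1, [0]), (3, 0, [1])]⟩,
    ⟨[(0, 1), (1, 2)], [(0, 0), (1, 0), (1, 1), (1, 2), (2, 0)], [(0, 0), (0, 2)], [4],
      [(0, 0, [1]), (3, 0, [1]), (6, 2, [3, 5, 6, 7])]⟩,
    ⟨[(1, 3)], [(3, 0), (3, 2), (3, 3)], [], [4], [(7, 3, [2])]⟩,
    ⟨[(1, 3), (3, 4)], [(1, 0), (2, 0), (3, 0), (3, 2), (3, 3), (3, 5), (3, 6), (3, 7), (4,
      0), (4, 3), (4, 5), (4, 6), (4, 7)], [(0, 3), (0, 5), (0, 6), (0, 7), (3, 5), (3, 6),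
      (3, 7), (5, 6), (5, 7), (6, 7)], [], [(3, 0, [1]), (7, 3, [2]), (8, 5, [2]), (9, 6,
      [2]), (10, 7, [2])]⟩]
  Ta := [((0, 1), 0, 8), ((0, 6), 0, 2), ((3, 4), 0, 9), ((3, 8), 0, 5)]
  Tb := [((0, 1, 6), 0, 8, 2), ((1, 0, 2), 8, 0, 1), ((2, 1, 4), 1, 8, 9), ((3, 4, 8), 0, 9, 5),
    ((4, 2, 3), 9, 1, 0), ((5, 6, 7), 4, 2, 3), ((6, 0, 5), 2, 0, 4), ((7, 5, 10), 3, 4, 7),
    ((8, 3, 9), 5, 0, 6), ((9, 8, 10), 6, 5, 7), ((10, 7, 9), 7, 3, 6)]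
  Tc := [(2, 3, 5), (2, 3, 6), (2, 3, 7), (2, 5, 6), (2, 5, 7), (2, 6, 7)]
  Td := [((0, 1), (0, 1), 8), ((0, 1), (0, 6), 2), ((0, 1), (3, 4), 9), ((0, 1), (3, 8), 5), ((1,
    0), (2, 1), 8), ((1, 0), (2, 4), 9), ((2, 3), (6, 0), 0), ((2, 3), (6, 5), 4), ((2, 5),
    (6, 0), 0), ((2, 5), (6, 5), 4), ((2, 6), (6, 0), 0), ((2, 6), (6, 5), 4), ((2, 7), (6,
    0), 0), ((2, 7), (6, 5), 4), ((3, 2), (7, 5), 4), ((3, 2), (7, 10), 7), ((5, 2), (8, 3),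
    0), ((5, 2), (8, 9), 6), ((6, 2), (9, 8), 5), ((6, 2), (9, 10), 7), ((7, 2), (10, 7), 3),
    ((7, 2), (10, 9), 6)]
  G := [[0, 0x22982254a222542298a2229225c42e, 0x11c116a11c116ac411c11a6411c116a8cc,
    0x2254122981c2254122981cc, 0x449443a14449443a14c], [0,
    0x2298229225cc2225428244822921c2298ace, 0, 0x22542254c22982298cc1, 0x449443a449443ac41]]

noncomputable def n973 : Ent := ⟨e973, noF, [], [], [(10, 14, [1685382413448253767852309107433119732572617628602273068445368893441, 0])]⟩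

def c973 : PLift (Cov.check n973.C.D v973 = true) := ⟨by decide +kernel⟩

def b973 : PLift (entF (fidx ts) 400 973 n973 = true) := ⟨by decide +kernel⟩

theorem g973 : GoodF (fidx ts) 400 973 := GoodF.ofV v973 n973 c973.down b973.down

/-- 464764:817/1 -/
noncomputable def e974 : SCfg where
  D := {
    a := 6
    L := 10
    kp := 7
    inn := [(0, 1), (1, 0), (1, 2), (1, 3), (2, 1), (3, 1), (3, 4), (4, 3), (4, 5), (5, 4)]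
    mix := [(0, 0), (0, 1), (0, 2), (1, 0), (1, 2), (1, 3), (2, 2), (2, 3), (2, 4), (3, 0), (3, 3), (3,
      5), (3, 6), (3, 7), (4, 5), (4, 6), (4, 8), (4, 9), (5, 4), (5, 5), (5, 8)]
    cl := [0, 6, 3, 0, 2, 1, 1, 7, 4, 5]
    chq := [(0, 3), (2, 5), (3, 0), (5, 2)]
    rng := [(0, 1), (0, 7), (1, 0), (1, 2), (2, 1), (2, 4), (3, 4), (3, 5), (4, 2), (4, 3), (4, 5), (4,
      8), (5, 3), (5, 4), (6, 7), (6, 9), (7, 0), (7, 6), (8, 4), (8, 9), (9, 6), (9, 8)]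
    lev := [] }
  links := [[1, 6, 7, 8], [6, 0, 8, 2, 9, 3], [9, 1, 8, 10], [6, 1, 9, 11, 4, 12, 13], [12, 3, 11, 5, 14,
    15], [14, 4, 11, 10]]
  P := {
    a := 6
    N := 16
    nb := [450, 845, 1794, 14930, 55336, 19472, 8331, 321, 1159, 3086, 19236, 1592, 40984, 4168,
      33840, 20496]
    tri := [(0, 1, 6), (0, 1, 8), (0, 6, 7), (0, 7, 8), (1, 2, 8), (1, 2, 9), (1, 3, 6), (1, 3, 9), (2,
      8, 10), (2, 9, 10), (3, 4, 11), (3, 4, 12), (3, 6, 13), (3, 9, 11), (3, 12, 13), (4, 5, 11),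
      (4, 5, 14), (4, 12, 15), (4, 14, 15), (5, 10, 11), (5, 10, 14)]
    fin := [0, 0, 0, 3, 4, 4, 0, 7, 8, 0, 4, 3, 3, 13, 14, 15]
    chd := [(0, 8), (4, 15)]
    steps := [(0, 1), (0, 2), (0, 6), (0, 9), (3, 11), (3, 12), (4, 5), (4, 10)] }
  rep := [0, 3, 4, 8, 14, 15, 7, 13]

noncomputable def v974 : Cov.CovD where
  P := 3
  N := 5
  pl := [1, 7, 8]
  lev := [⟨[], [], [(0, 3)], [6], [(0, 0, [3]), (2, 3, [0])]⟩,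
    ⟨[], [(0, 0), (0, 3)], [(0, 0), (0, 3)], [], [(0, 0, [3]), (2, 3, [0]), (3, 0, [3])]⟩,
    ⟨[(0, 1)], [(0, 3), (1, 0), (1, 2), (1, 3)], [(0, 2), (0, 3), (2, 3)], [], [(2, 3,
      [0]), (3, 0, [3]), (4, 2, [5])]⟩,
    ⟨[(0, 1), (1, 2)], [(0, 0), (1, 0), (1, 1), (1, 3), (2, 0)], [(0, 0), (0, 1), (1, 1)],
      [7], [(0, 0, [3]), (3, 0, [3]), (5, 1, []), (6, 1, [])]⟩,
    ⟨[(1, 3)], [(3, 0), (3, 1), (3, 5)], [(1, 1), (1, 5)], [4], [(5, 1, []), (6, 1, []),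
      (9, 5, [2])]⟩,
    ⟨[(3, 4)], [(2, 2), (3, 1), (4, 1), (4, 2), (4, 5)], [(1, 2)], [4], [(4, 2, [5]), (5,
      1, [])]⟩]
  Ta := [((0, 1), 0, 6), ((0, 7), 0, 7), ((3, 4), 0, 2), ((3, 5), 0, 1), ((5, 3), 1, 0), ((5, 4),
    1, 2), ((6, 7), 1, 7), ((6, 9), 1, 5)]
  Tb := [((0, 1, 7), 0, 6, 7), ((1, 0, 2), 6, 0, 3), ((2, 1, 4), 3, 6, 2), ((3, 4, 5), 0, 2, 1),
    ((4, 2, 3), 2, 3, 0), ((4, 2, 5), 2, 3, 1), ((4, 2, 8), 2, 3, 4), ((4, 3, 5), 2, 0, 1),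
    ((4, 3, 8), 2, 0, 4), ((4, 5, 8), 2, 1, 4), ((5, 3, 4), 1, 0, 2), ((6, 7, 9), 1, 7, 5),
    ((7, 0, 6), 7, 0, 1), ((8, 4, 9), 4, 2, 5), ((9, 6, 8), 5, 1, 4)]
  Tc := []
  Td := [((0, 3), (0, 1), 6), ((0, 3), (0, 7), 7), ((0, 3), (3, 4), 2), ((0, 3), (3, 5), 1), ((2,
    5), (4, 2), 3), ((2, 5), (4, 3), 0), ((2, 5), (4, 5), 1), ((2, 5), (4, 8), 4), ((3, 0),
    (2, 1), 6), ((3, 0), (2, 4), 2), ((5, 2), (9, 6), 1), ((5, 2), (9, 8), 4)]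
  G := [[0, 0, 0, 0x541d891dc82541d891dc42541d891dc12e,
    0x891d41191d889494c8e891d48191d81891d42e191d819c29494c16e], [0, 0, 0, 0,
    0x821d41298d88a424c8e821d412a2d81821d42e191d819c2a4a4c16e], [0, 0x48ce84cea448ce48cec861,
    0xc1c1c4c1c1c2a1, 0x541d891dc82541d891dc42541d891dc541d891dcc2e,
    0x9442191d819c8c891d48198d88c9448198d891dc2ad], [0, 0, 0x61a1c8c161c261, 0,
    0x128d819c84821d48298d88c2448824481a2d821dc2af]]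

noncomputable def n974 : Ent := ⟨e974, noF, [], [], []⟩

def c974 : PLift (Cov.check n974.C.D v974 = true) := ⟨by decide +kernel⟩

def b974 : PLift (entF (fidx ts) 400 974 n974 = true) := ⟨by decide +kernel⟩

theorem g974 : GoodF (fidx ts) 400 974 := GoodF.ofV v974 n974 c974.down b974.down

/-- 464764:817 -/
noncomputable def e975 : SCfg where
  D := {
    a := 6
    L := 11
    kp := 8
    inn := [(0, 1), (1, 0), (1, 2), (1, 3), (2, 1), (3, 1), (3, 4), (4, 3), (4, 5), (5, 4)]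
    mix := [(0, 0), (0, 1), (0, 2), (1, 0), (1, 2), (1, 3), (2, 2), (2, 3), (2, 4), (3, 0), (3, 3), (3,
      5), (3, 6), (3, 7), (4, 5), (4, 6), (4, 8), (4, 9), (5, 5), (5, 8), (5, 10)]
    cl := [0, 6, 2, 0, 7, 1, 1, 8, 3, 4, 5]
    chq := [(0, 2), (2, 0), (4, 5), (5, 4)]
    rng := [(0, 1), (0, 7), (1, 0), (1, 2), (2, 1), (2, 4), (3, 4), (3, 5), (4, 2), (4, 3), (5, 3), (5,
      10), (6, 7), (6, 9), (7, 0), (7, 6), (8, 9), (8, 10), (9, 6), (9, 8), (10, 5), (10, 8)]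
    lev := [] }
  links := [[1, 6, 7, 8], [6, 0, 8, 2, 9, 3], [9, 1, 8, 10], [6, 1, 9, 11, 4, 12, 13], [12, 3, 11, 5, 14,
    15], [14, 4, 11, 16]]
  P := {
    a := 6
    N := 17
    nb := [450, 845, 1794, 14930, 55336, 83984, 8331, 321, 1159, 3086, 772, 66104, 40984, 4168, 98352,
      20496, 18464]
    tri := [(0, 1, 6), (0, 1, 8), (0, 6, 7), (0, 7, 8), (1, 2, 8), (1, 2, 9), (1, 3, 6), (1, 3, 9), (2,
      8, 10), (2, 9, 10), (3, 4, 11), (3, 4, 12), (3, 6, 13), (3, 9, 11), (3, 12, 13), (4, 5, 11),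
      (4, 5, 14), (4, 12, 15), (4, 14, 15), (5, 11, 16), (5, 14, 16)]
    fin := [0, 0, 0, 3, 4, 4, 0, 7, 8, 0, 10, 3, 3, 13, 14, 15, 4]
    chd := [(0, 8), (15, 4)]
    steps := [(0, 1), (0, 2), (0, 6), (0, 9), (3, 11), (3, 12), (4, 5), (4, 16)] }
  rep := [0, 3, 8, 14, 15, 4, 7, 10, 13]

noncomputable def v975 : Cov.CovD where
  P := 3
  N := 6
  pl := [1, 4, 7, 8]
  lev := [⟨[], [], [(0, 2)], [6], [(0, 0, [2]), (2, 2, [0])]⟩,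
    ⟨[], [(0, 0), (0, 2)], [(0, 0), (0, 2)], [], [(0, 0, [2]), (2, 2, [0]), (3, 0, [2])]⟩,
    ⟨[(0, 1)], [(0, 2), (1, 0), (1, 2)], [(0, 2)], [7], [(2, 2, [0]), (3, 0, [2])]⟩,
    ⟨[(0, 1), (1, 2)], [(0, 0), (1, 0), (1, 1), (1, 2), (2, 0)], [(0, 0), (0, 1), (1, 1)],
      [8], [(0, 0, [2]), (3, 0, [2]), (5, 1, []), (6, 1, [])]⟩,
    ⟨[(1, 3)], [(3, 0), (3, 1), (3, 4)], [(1, 1), (1, 4)], [3], [(5, 1, []), (6, 1, []),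
      (9, 4, [5])]⟩,
    ⟨[(3, 4)], [(3, 1), (4, 1), (4, 4), (4, 5)], [(1, 5)], [3], [(5, 1, []), (10, 5, [4])]⟩]
  Ta := [((0, 1), 0, 6), ((0, 7), 0, 8), ((3, 4), 0, 7), ((3, 5), 0, 1), ((5, 3), 1, 0), ((5,
    10), 1, 5), ((6, 7), 1, 8), ((6, 9), 1, 4)]
  Tb := [((0, 1, 7), 0, 6, 8), ((1, 0, 2), 6, 0, 2), ((2, 1, 4), 2, 6, 7), ((3, 4, 5), 0, 7, 1),
    ((4, 2, 3), 7, 2, 0), ((5, 3, 10), 1, 0, 5), ((6, 7, 9), 1, 8, 4), ((7, 0, 6), 8, 0, 1),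
    ((8, 9, 10), 3, 4, 5), ((9, 6, 8), 4, 1, 3), ((10, 5, 8), 5, 1, 3)]
  Tc := []
  Td := [((0, 2), (0, 1), 6), ((0, 2), (0, 7), 8), ((0, 2), (3, 4), 7), ((0, 2), (3, 5), 1), ((2,
    0), (2, 1), 6), ((2, 0), (2, 4), 7), ((4, 5), (9, 6), 1), ((4, 5), (9, 8), 3), ((5, 4),
    (10, 5), 1), ((5, 4), (10, 8), 3)]
  G := [[0, 0, 0x58859cd59cdc6259cd58c589c5cc29c549c558cc8e, 0x944159cd5c9c1c59cd4159cd81cc,
    0x59cd59cdc1259cd59cdc12a], [0, 0, 0x32cd5a2dc32ad6a2dca26a2d692dc692d6a2dcc2a,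
    0x5a2d4132ad81c692d4152ad81cc, 0x52ad32adc12236d23cdc12a], [0, 0x6ace6ace66ace6ace6c81,
    0x59cd59cdc8259cd59cdc4259cd4259cd82ce, 0x59cd459cd4c59cd859cd8cc1,
    0x59cd59cdc59cd59cdca21], [0, 0, 0x28ba2dc52ad8c2236d8288a32ad446965692dc28e,
    0x32cd4296d4c32ad8236d8cc1, 0x32cd29cdc52ad52cdca21]]

noncomputable def n975 : Ent := ⟨e975, noF, [], [], [(10, 16, [1580044410770988437309982408355971841652082177953823432505693102081, 0])]⟩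

def c975 : PLift (Cov.check n975.C.D v975 = true) := ⟨by decide +kernel⟩

def b975 : PLift (entF (fidx ts) 400 975 n975 = true) := ⟨by decide +kernel⟩

theorem g975 : GoodF (fidx ts) 400 975 := GoodF.ofV v975 n975 c975.down b975.down

/-- 464764:818/1 -/
noncomputable def e976 : SCfg where
  D := {
    a := 6
    L := 10
    kp := 7
    inn := [(0, 1), (1, 0), (1, 2), (1, 3), (2, 1), (3, 1), (3, 4), (4, 3), (4, 5), (5, 4)]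
    mix := [(0, 0), (0, 1), (0, 2), (1, 0), (1, 2), (1, 3), (2, 2), (2, 3), (2, 4), (3, 0), (3, 3), (3,
      5), (3, 6), (3, 7), (4, 5), (4, 6), (4, 8), (4, 9), (5, 1), (5, 8), (5, 9)]
    cl := [0, 2, 1, 0, 6, 3, 3, 7, 4, 5]
    chq := [(0, 1), (1, 0), (2, 3), (3, 2)]
    rng := [(0, 1), (0, 7), (1, 0), (1, 2), (1, 8), (1, 9), (2, 1), (2, 4), (3, 4), (3, 5), (4, 2), (4,
      3), (5, 3), (5, 8), (6, 7), (6, 9), (7, 0), (7, 6), (8, 1), (8, 5), (9, 1), (9, 6)]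
    lev := [] }
  links := [[1, 6, 7, 8], [6, 0, 8, 2, 9, 3], [9, 1, 8, 10], [6, 1, 9, 11, 4, 12, 13], [12, 3, 11, 14, 5,
    15], [15, 4, 14, 7]]
  P := {
    a := 6
    N := 16
    nb := [450, 845, 1794, 14930, 55336, 49296, 8331, 49505, 1159, 3086, 772, 16920, 40984, 4168,
      2224, 4272]
    tri := [(0, 1, 6), (0, 1, 8), (0, 6, 7), (0, 7, 8), (1, 2, 8), (1, 2, 9), (1, 3, 6), (1, 3, 9), (2,
      8, 10), (2, 9, 10), (3, 4, 11), (3, 4, 12), (3, 6, 13), (3, 9, 11), (3, 12, 13), (4, 5, 14),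
      (4, 5, 15), (4, 11, 14), (4, 12, 15), (5, 7, 14), (5, 7, 15)]
    fin := [0, 0, 0, 0, 4, 5, 0, 5, 8, 0, 10, 4, 4, 13, 14, 15]
    chd := [(0, 8), (5, 4)]
    steps := [(0, 1), (0, 2), (0, 3), (0, 6), (0, 9), (4, 11), (4, 12), (5, 7)] }
  rep := [0, 8, 5, 4, 14, 15, 10, 13]

noncomputable def v976 : Cov.CovD where
  P := 3
  N := 5
  pl := [4, 7, 8, 9]
  lev := [⟨[], [], [(0, 1), (0, 2), (1, 2)], [], [(0, 0, [1]), (1, 2, [3]), (2, 1, [0])]⟩,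
    ⟨[], [(0, 0), (0, 1), (0, 2)], [(0, 0), (0, 1)], [], [(0, 0, [1]), (2, 1, [0]), (3, 0,
      [1])]⟩,
    ⟨[(0, 1)], [(0, 1), (1, 0), (1, 1)], [(0, 1)], [6], [(2, 1, [0]), (3, 0, [1])]⟩,
    ⟨[(0, 1), (1, 2)], [(0, 0), (1, 0), (1, 1), (1, 3), (2, 0)], [(0, 0), (0, 3), (3, 3)],
      [7], [(0, 0, [1]), (3, 0, [1]), (5, 3, [2]), (6, 3, [2])]⟩,
    ⟨[(1, 3)], [(3, 0), (3, 3)], [(3, 3)], [4, 5], [(5, 3, [2]), (6, 3, [2])]⟩,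
    ⟨[(3, 4)], [(0, 2), (4, 2), (4, 3)], [], [4, 5], [(1, 2, [3])]⟩]
  Ta := [((0, 1), 0, 2), ((0, 7), 0, 7), ((3, 4), 0, 6), ((3, 5), 0, 3), ((5, 3), 3, 0), ((5, 8),
    3, 4), ((6, 7), 3, 7), ((6, 9), 3, 5)]
  Tb := [((0, 1, 7), 0, 2, 7), ((1, 0, 2), 2, 0, 1), ((1, 0, 8), 2, 0, 4), ((1, 0, 9), 2, 0, 5),
    ((1, 2, 8), 2, 1, 4), ((1, 2, 9), 2, 1, 5), ((1, 8, 9), 2, 4, 5), ((2, 1, 4), 1, 2, 6),
    ((3, 4, 5), 0, 6, 3), ((4, 2, 3), 6, 1, 0), ((5, 3, 8), 3, 0, 4), ((6, 7, 9), 3, 7, 5),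
    ((7, 0, 6), 7, 0, 3), ((8, 1, 5), 4, 2, 3), ((9, 1, 6), 5, 2, 3)]
  Tc := []
  Td := [((0, 1), (0, 1), 2), ((0, 1), (0, 7), 7), ((0, 1), (3, 4), 6), ((0, 1), (3, 5), 3), ((1,
    0), (2, 1), 2), ((1, 0), (2, 4), 6), ((2, 3), (1, 0), 0), ((2, 3), (1, 2), 1), ((2, 3),
    (1, 8), 4), ((2, 3), (1, 9), 5), ((3, 2), (5, 3), 0), ((3, 2), (5, 8), 4), ((3, 2), (6,
    7), 7), ((3, 2), (6, 9), 5)]
  G := [[0, 0x61944c1fa84c1f2a2c178ac1fc62ce8ac1fc664, 0xe1e1e1e184, 0xd2d2d2e184,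
    0x8a21f4ac1f616a21f81c8], [0, 0x8ac1f88c1f68ac1f4c62c1f862c1f84c1faac4, 0xe1e1e1e148,
    0xd2d2d2e148, 0x8a21f416a21f4ac1fa1c8], [0, 0xc228ac1f84c1f6662c1f2ac1f841de64c1f8aa8, 0,
    0xd244d2d2d2ed2d2acc8, 0xb48bc1f68a21f4bc1f6c6a21f821bc7b21f8cc1], [0,
    0x62c1f48c1fa64c1f84c1faa2ac1f48ac1f4a64, 0, 0xd244d2d2d2ed2d2acc1,
    0x2a21f4112a81f8ac1fec6a21f4ac1fa6a4e8cc1]]

noncomputable def n976 : Ent := ⟨e976, noF, [], [], []⟩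

def c976 : PLift (Cov.check n976.C.D v976 = true) := ⟨by decide +kernel⟩

def b976 : PLift (entF (fidx ts) 400 976 n976 = true) := ⟨by decide +kernel⟩

theorem g976 : GoodF (fidx ts) 400 976 := GoodF.ofV v976 n976 c976.down b976.down

/-- 464764:818/2 -/
noncomputable def e977 : SCfg where
  D := {
    a := 6
    L := 10
    kp := 7
    inn := [(0, 1), (1, 0), (1, 2), (1, 3), (2, 1), (3, 1), (3, 4), (4, 3), (4, 5), (5, 4)]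
    mix := [(0, 0), (0, 1), (0, 2), (1, 0), (1, 2), (1, 3), (2, 2), (2, 3), (2, 4), (3, 0), (3, 3), (3,
      5), (3, 6), (3, 7), (4, 5), (4, 6), (4, 8), (4, 9), (5, 2), (5, 8), (5, 9)]
    cl := [0, 5, 1, 0, 6, 2, 2, 7, 3, 4]
    chq := [(0, 1), (1, 0), (1, 2), (2, 1)]
    rng := [(0, 1), (0, 7), (1, 0), (1, 2), (2, 1), (2, 4), (2, 8), (2, 9), (3, 4), (3, 5), (4, 2), (4,
      3), (5, 3), (5, 8), (6, 7), (6, 9), (7, 0), (7, 6), (8, 2), (8, 5), (9, 2), (9, 6)]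
    lev := [] }
  links := [[1, 6, 7, 8], [6, 0, 8, 2, 9, 3], [9, 1, 8, 10], [6, 1, 9, 11, 4, 12, 13], [12, 3, 11, 14, 5,
    15], [15, 4, 14, 8]]
  P := {
    a := 6
    N := 16
    nb := [450, 845, 1794, 14930, 55336, 49424, 8331, 321, 50343, 3086, 772, 16920, 40984, 4168, 2352,
      4400]
    tri := [(0, 1, 6), (0, 1, 8), (0, 6, 7), (0, 7, 8), (1, 2, 8), (1, 2, 9), (1, 3, 6), (1, 3, 9), (2,
      8, 10), (2, 9, 10), (3, 4, 11), (3, 4, 12), (3, 6, 13), (3, 9, 11), (3, 12, 13), (4, 5, 14),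
      (4, 5, 15), (4, 11, 14), (4, 12, 15), (5, 8, 14), (5, 8, 15)]
    fin := [0, 0, 0, 0, 4, 5, 0, 7, 5, 0, 10, 4, 4, 13, 14, 15]
    chd := [(0, 5), (5, 4)]
    steps := [(0, 1), (0, 2), (0, 3), (0, 6), (0, 9), (4, 11), (4, 12), (5, 8)] }
  rep := [0, 5, 4, 14, 15, 7, 10, 13]

noncomputable def v977 : Cov.CovD where
  P := 3
  N := 5
  pl := [1, 4, 7, 8, 9]
  lev := [⟨[], [], [(0, 1)], [5], [(0, 0, [1]), (2, 1, [0, 2])]⟩,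
    ⟨[], [(0, 0), (0, 1)], [(0, 0), (0, 1)], [], [(0, 0, [1]), (2, 1, [0, 2]), (3, 0,
      [1])]⟩,
    ⟨[(0, 1)], [(0, 1), (1, 0), (1, 1)], [(0, 1)], [6], [(2, 1, [0, 2]), (3, 0, [1])]⟩,
    ⟨[(0, 1), (1, 2)], [(0, 0), (1, 0), (1, 1), (1, 2), (2, 0)], [(0, 0), (0, 2), (2, 2)],
      [7], [(0, 0, [1]), (3, 0, [1]), (5, 2, [1]), (6, 2, [1])]⟩,
    ⟨[(1, 3)], [(3, 0), (3, 2)], [(2, 2)], [3, 4], [(5, 2, [1]), (6, 2, [1])]⟩,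
    ⟨[(3, 4)], [(0, 1), (1, 1), (2, 1), (4, 1), (4, 2)], [], [3, 4], [(2, 1, [0, 2])]⟩]
  Ta := [((0, 1), 0, 5), ((0, 7), 0, 7), ((3, 4), 0, 6), ((3, 5), 0, 2), ((5, 3), 2, 0), ((5, 8),
    2, 3), ((6, 7), 2, 7), ((6, 9), 2, 4)]
  Tb := [((0, 1, 7), 0, 5, 7), ((1, 0, 2), 5, 0, 1), ((2, 1, 4), 1, 5, 6), ((2, 1, 8), 1, 5, 3),
    ((2, 1, 9), 1, 5, 4), ((2, 4, 8), 1, 6, 3), ((2, 4, 9), 1, 6, 4), ((2, 8, 9), 1, 3, 4),
    ((3, 4, 5), 0, 6, 2), ((4, 2, 3), 6, 1, 0), ((5, 3, 8), 2, 0, 3), ((6, 7, 9), 2, 7, 4),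
    ((7, 0, 6), 7, 0, 2), ((8, 2, 5), 3, 1, 2), ((9, 2, 6), 4, 1, 2)]
  Tc := [(1, 0, 2)]
  Td := [((0, 1), (0, 1), 5), ((0, 1), (0, 7), 7), ((0, 1), (3, 4), 6), ((0, 1), (3, 5), 2), ((1,
    0), (2, 1), 5), ((1, 0), (2, 4), 6), ((1, 0), (2, 8), 3), ((1, 0), (2, 9), 4), ((1, 2),
    (2, 1), 5), ((1, 2), (2, 4), 6), ((1, 2), (2, 8), 3), ((1, 2), (2, 9), 4), ((2, 1), (5,
    3), 0), ((2, 1), (5, 8), 3), ((2, 1), (6, 7), 7), ((2, 1), (6, 9), 4)]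
  G := [[0, 0xe188e1446e1e1c28e14e18c4e, 0, 0x24412881c24412881c415819c18e,
    0x4c1b841ba144c1b841ba14c], [0, 0xe1e1c84e14e1862e18e1464e, 0,
    0x24412881c24412881c415819c14e, 0x4c1b841ba144c1b841ba14c], [0,
    0xe1e1c84e1169c48e1e1c28e, 0x141e141ea141e841eac41, 0x244244415819ce288288cc1,
    0x4c1b841ba4c1b841bac41], [0, 0xe1e1c84e1e1c28e1e1c42e, 0, 0x244244c288288415819cec1,
    0x4c1b841ba4c1b841bac41]]

noncomputable def n977 : Ent := ⟨e977, noF, [], [], []⟩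

def c977 : PLift (Cov.check n977.C.D v977 = true) := ⟨by decide +kernel⟩

def b977 : PLift (entF (fidx ts) 400 977 n977 = true) := ⟨by decide +kernel⟩

theorem g977 : GoodF (fidx ts) 400 977 := GoodF.ofV v977 n977 c977.down b977.down

/-- The entries 826 to 977. -/
theorem rE5 : Rng (GoodF (fidx ts) 400) 826 978 :=
  (((((((((((((((((((((((((((((((((((((((((((((((((((((((((((((((((((((((((((((((((((((((((((((((((((((((((((((((((((((((((((((((((((((((((((((((((((((((((Rng.nil _ 826).snoc g826 rfl).snoc g827 rfl).snoc g828 rfl).snoc g829 rfl).snoc g830 rfl).snoc g831 rfl).snoc g832 rfl).snoc g833 rfl).snoc g834 rfl).snoc g835 rfl).snoc g836 rfl).snoc g837 rfl).snoc g838 rfl).snoc g839 rfl).snoc g840 rfl).snoc g841 rfl).snoc g842 rfl).snoc g843 rfl).snoc g844 rfl).snoc g845 rfl).snoc g846 rfl).snoc g847 rfl).snoc g848 rfl).snoc g849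 rfl).snoc g850 rfl).snoc g851 rfl).snoc g852 rfl).snoc g853 rfl).snoc g854 rfl).snoc g855 rfl).snoc g856 rfl).snoc g857 rfl).snoc g858 rfl).snoc g859 rfl).snoc g860 rfl).snoc g861 rfl).snoc g862 rfl).snoc g863 rfl).snoc g864 rfl).snoc g865 rfl).snoc g866 rfl).snoc g867 rfl).snoc g868 rfl).snoc g869 rfl).snoc g870 rfl).snoc g871 rfl).snoc g872 rfl).snoc g873 rfl).snoc g874 rfl).snoc g875 rfl).snoc g876 rfl).snoc g877 rfl).snoc g878 rfl).snoc g879 rfl).snoc g880 rfl).snoc g881 rfl).snoc g882 rfl).snoc g883 rfl).snoc g884 rfl).snoc g885 rfl).snoc g886 rfl).snoc g887 rfl).snoc g888 rfl).snoc g889 rfl).snoc g890 rfl).snoc g891 rfl).snoc g892 rfl).snoc g893 rfl).snoc g894 rfl).snoc g895 rfl).snoc g896 rfl).snoc g897 rfl).snoc g898 rfl).snoc g899 rfl).snoc g900 rfl).snoc g901 rfl).snoc g902 rfl).snoc g903 rfl).snoc g904 rfl).snoc g905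 rfl).snoc g906 rfl).snoc g907 rfl).snoc g908 rfl).snoc g909 rfl).snoc g910 rfl).snoc g911 rfl).snoc g912 rfl).snoc g913 rfl).snoc g914 rfl).snoc g915 rfl).snoc g916 rfl).snoc g917 rfl).snoc g918 rfl).snoc g919 rfl).snoc g920 rfl).snoc g921 rfl).snoc g922 rfl).snoc g923 rfl).snoc g924 rfl).snoc g925 rfl).snoc g926 rfl).snoc g927 rfl).snoc g928 rfl).snoc g929 rfl).snoc g930 rfl).snoc g931 rfl).snoc g932 rfl).snoc g933 rfl).snoc g934 rfl).snoc g935 rfl).snoc g936 rfl).snoc g937 rfl).snoc g938 rfl).snoc g939 rfl).snoc g940 rfl).snoc g941 rfl).snoc g942 rfl).snoc g943 rfl).snoc g944 rfl).snoc g945 rfl).snoc g946 rfl).snoc g947 rfl).snoc g948 rfl).snoc g949 rfl).snoc g950 rfl).snoc g951 rfl).snoc g952 rfl).snoc g953 rfl).snoc g954 rfl).snoc g955 rfl).snoc g956 rfl).snoc g957 rfl).snoc g958 rfl).snoc g959 rfl).snoc g960 rfl).snoc g961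 rfl).snoc g962 rfl).snoc g963 rfl).snoc g964 rfl).snoc g965 rfl).snoc g966 rfl).snoc g967 rfl).snoc g968 rfl).snoc g969 rfl).snoc g970 rfl).snoc g971 rfl).snoc g972 rfl).snoc g973 rfl).snoc g974 rfl).snoc g975 rfl).snoc g976 rfl).snoc g977 rfl)

end Pool.Agent.W986.ST.Dat
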