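import Pool.Agent.W986.Dat.Tab
import Pool.Agent.W986.SubAltB

/-!
# Entries 978 to 1126 of the table
-/

set_option autoImplicit false

namespace Pool.Agent.W986.ST.Dat

/-- 464764:818/3 -/
noncomputable def e978 : SCfg where
  D := {
    a := 6
    L := 10
    kp := 7
    inn := [(0, 1), (1, 0), (1, 2), (1, 3), (2, 1), (3, 1), (3, 4), (4, 3), (4, 5), (5, 4)]
    mix := [(0, 0), (0, 1), (0, 2), (1, 0), (1, 2), (1, 3), (2, 2), (2, 3), (2, 4), (3, 0), (3, 3), (3,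
      5), (3, 6), (3, 7), (4, 5), (4, 6), (4, 8), (4, 9), (5, 4), (5, 8), (5, 9)]
    cl := [0, 6, 1, 0, 3, 2, 2, 7, 4, 5]
    chq := [(0, 1), (1, 0), (2, 3), (3, 2)]
    rng := [(0, 1), (0, 7), (1, 0), (1, 2), (2, 1), (2, 4), (3, 4), (3, 5), (4, 2), (4, 3), (4, 8), (4,
      9), (5, 3), (5, 8), (6, 7), (6, 9), (7, 0), (7, 6), (8, 4), (8, 5), (9, 4), (9, 6)]
    lev := [] }
  links := [[1, 6, 7, 8], [6, 0, 8, 2, 9, 3], [9, 1, 8, 10], [6, 1, 9, 11, 4, 12, 13], [12, 3, 11, 14, 5,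
    15], [15, 4, 14, 10]]
  P := {
    a := 6
    N := 16
    nb := [450, 845, 1794, 14930, 55336, 50192, 8331, 321, 1159, 3086, 49956, 16920, 40984, 4168,
      3120, 5168]
    tri := [(0, 1, 6), (0, 1, 8), (0, 6, 7), (0, 7, 8), (1, 2, 8), (1, 2, 9), (1, 3, 6), (1, 3, 9), (2,
      8, 10), (2, 9, 10), (3, 4, 11), (3, 4, 12), (3, 6, 13), (3, 9, 11), (3, 12, 13), (4, 5, 14),
      (4, 5, 15), (4, 11, 14), (4, 12, 15), (5, 10, 14), (5, 10, 15)]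
    fin := [0, 0, 0, 0, 4, 5, 0, 7, 8, 0, 5, 4, 4, 13, 14, 15]
    chd := [(0, 8), (5, 4)]
    steps := [(0, 1), (0, 2), (0, 3), (0, 6), (0, 9), (4, 11), (4, 12), (5, 10)] }
  rep := [0, 8, 4, 5, 14, 15, 7, 13]

noncomputable def v978 : Cov.CovD where
  P := 3
  N := 5
  pl := [1, 7, 8, 9]
  lev := [⟨[], [], [(0, 1)], [6], [(0, 0, [1]), (2, 1, [0])]⟩,
    ⟨[], [(0, 0), (0, 1)], [(0, 0), (0, 1)], [], [(0, 0, [1]), (2, 1, [0]), (3, 0, [1])]⟩,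
    ⟨[(0, 1)], [(0, 1), (1, 0), (1, 1), (1, 3)], [(0, 1), (0, 3), (1, 3)], [], [(2, 1,
      [0]), (3, 0, [1]), (4, 3, [2])]⟩,
    ⟨[(0, 1), (1, 2)], [(0, 0), (1, 0), (1, 1), (1, 2), (2, 0)], [(0, 0), (0, 2), (2, 2)],
      [7], [(0, 0, [1]), (3, 0, [1]), (5, 2, [3]), (6, 2, [3])]⟩,
    ⟨[(1, 3)], [(3, 0), (3, 2)], [(2, 2)], [4, 5], [(5, 2, [3]), (6, 2, [3])]⟩,
    ⟨[(3, 4)], [(2, 3), (4, 2), (4, 3)], [], [4, 5], [(4, 3, [2])]⟩]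
  Ta := [((0, 1), 0, 6), ((0, 7), 0, 7), ((3, 4), 0, 3), ((3, 5), 0, 2), ((5, 3), 2, 0), ((5, 8),
    2, 4), ((6, 7), 2, 7), ((6, 9), 2, 5)]
  Tb := [((0, 1, 7), 0, 6, 7), ((1, 0, 2), 6, 0, 1), ((2, 1, 4), 1, 6, 3), ((3, 4, 5), 0, 3, 2),
    ((4, 2, 3), 3, 1, 0), ((4, 2, 8), 3, 1, 4), ((4, 2, 9), 3, 1, 5), ((4, 3, 8), 3, 0, 4),
    ((4, 3, 9), 3, 0, 5), ((4, 8, 9), 3, 4, 5), ((5, 3, 8), 2, 0, 4), ((6, 7, 9), 2, 7, 5),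
    ((7, 0, 6), 7, 0, 2), ((8, 4, 5), 4, 3, 2), ((9, 4, 6), 5, 3, 2)]
  Tc := []
  Td := [((0, 1), (0, 1), 6), ((0, 1), (0, 7), 7), ((0, 1), (3, 4), 3), ((0, 1), (3, 5), 2), ((1,
    0), (2, 1), 6), ((1, 0), (2, 4), 3), ((2, 3), (5, 3), 0), ((2, 3), (5, 8), 4), ((2, 3),
    (6, 7), 7), ((2, 3), (6, 9), 5), ((3, 2), (4, 2), 1), ((3, 2), (4, 3), 0), ((3, 2), (4,
    8), 4), ((3, 2), (4, 9), 5)]
  G := [[0, 0x28844244e15e21dc62882a244e15e21dca2888ae, 0, 0xa4416a1d619c1ce21d412e1d81cc,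
    0xe41b214e1b81c4e1be41ba14c], [0, 0x2824c82e15e21dc22884a2e1de19c224446e, 0,
    0x6a1d416a1d81ce21d412e1d81cc, 0xe41b214e1b81c4e1be41ba14c], [0,
    0xe21d422882e1d8ac244882e1de19c22824c46e, 0x112e111e6111e141e6c81,
    0x825d4623d4c2abd8241d8cc1, 0x444b846ba4a9b641bac41], [0,
    0x28844244e21d462e1d82c244e15e21dca2888ae, 0, 0x823d444625dcc2abd82198cc1,
    0xed3e47ba44842a488cc1]]

noncomputable def n978 : Ent := ⟨e978, noF, [], [], []⟩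

def c978 : PLift (Cov.check n978.C.D v978 = true) := ⟨by decide +kernel⟩

def b978 : PLift (entF (fidx ts) 400 978 n978 = true) := ⟨by decide +kernel⟩

theorem g978 : GoodF (fidx ts) 400 978 := GoodF.ofV v978 n978 c978.down b978.down

/-- 464764:818 -/
noncomputable def e979 : SCfg where
  D := {
    a := 6
    L := 11
    kp := 8
    inn := [(0, 1), (1, 0), (1, 2), (1, 3), (2, 1), (3, 1), (3, 4), (4, 3), (4, 5), (5, 4)]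
    mix := [(0, 0), (0, 1), (0, 2), (1, 0), (1, 2), (1, 3), (2, 2), (2, 3), (2, 4), (3, 0), (3, 3), (3,
      5), (3, 6), (3, 7), (4, 5), (4, 6), (4, 8), (4, 9), (5, 8), (5, 9), (5, 10)]
    cl := [0, 6, 1, 0, 7, 2, 2, 8, 3, 4, 5]
    chq := [(0, 1), (1, 0), (2, 5), (5, 2)]
    rng := [(0, 1), (0, 7), (1, 0), (1, 2), (2, 1), (2, 4), (3, 4), (3, 5), (4, 2), (4, 3), (5, 3), (5,
      8), (6, 7), (6, 9), (7, 0), (7, 6), (8, 5), (8, 10), (9, 6), (9, 10), (10, 8), (10, 9)]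
    lev := [] }
  links := [[1, 6, 7, 8], [6, 0, 8, 2, 9, 3], [9, 1, 8, 10], [6, 1, 9, 11, 4, 12, 13], [12, 3, 11, 14, 5,
    15], [15, 4, 14, 16]]
  P := {
    a := 6
    N := 17
    nb := [450, 845, 1794, 14930, 55336, 114704, 8331, 321, 1159, 3086, 772, 16920, 40984, 4168,
      67632, 69680, 49184]
    tri := [(0, 1, 6), (0, 1, 8), (0, 6, 7), (0, 7, 8), (1, 2, 8), (1, 2, 9), (1, 3, 6), (1, 3, 9), (2,
      8, 10), (2, 9, 10), (3, 4, 11), (3, 4, 12), (3, 6, 13), (3, 9, 11), (3, 12, 13), (4, 5, 14),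
      (4, 5, 15), (4, 11, 14), (4, 12, 15), (5, 14, 16), (5, 15, 16)]
    fin := [0, 0, 0, 0, 4, 4, 0, 7, 8, 0, 10, 4, 4, 13, 14, 15, 16]
    chd := [(0, 8), (4, 16)]
    steps := [(0, 1), (0, 2), (0, 3), (0, 6), (0, 9), (4, 5), (4, 11), (4, 12)] }
  rep := [0, 8, 4, 14, 15, 16, 7, 10, 13]

noncomputable def v979 : Cov.CovD where
  P := 3
  N := 6
  pl := [1, 4, 7, 8, 9]
  lev := [⟨[], [], [(0, 1)], [6], [(0, 0, [1]), (2, 1, [0])]⟩,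
    ⟨[], [(0, 0), (0, 1)], [(0, 0), (0, 1)], [], [(0, 0, [1]), (2, 1, [0]), (3, 0, [1])]⟩,
    ⟨[(0, 1)], [(0, 1), (1, 0), (1, 1)], [(0, 1)], [7], [(2, 1, [0]), (3, 0, [1])]⟩,
    ⟨[(0, 1), (1, 2)], [(0, 0), (1, 0), (1, 1), (1, 2), (2, 0)], [(0, 0), (0, 2), (2, 2)],
      [8], [(0, 0, [1]), (3, 0, [1]), (5, 2, [5]), (6, 2, [5])]⟩,
    ⟨[(1, 3)], [(3, 0), (3, 2)], [(2, 2)], [3, 4], [(5, 2, [5]), (6, 2, [5])]⟩,
    ⟨[(3, 4)], [(4, 2), (4, 5)], [], [3, 4], [(10, 5, [2])]⟩]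
  Ta := [((0, 1), 0, 6), ((0, 7), 0, 8), ((3, 4), 0, 7), ((3, 5), 0, 2), ((5, 3), 2, 0), ((5, 8),
    2, 3), ((6, 7), 2, 8), ((6, 9), 2, 4)]
  Tb := [((0, 1, 7), 0, 6, 8), ((1, 0, 2), 6, 0, 1), ((2, 1, 4), 1, 6, 7), ((3, 4, 5), 0, 7, 2),
    ((4, 2, 3), 7, 1, 0), ((5, 3, 8), 2, 0, 3), ((6, 7, 9), 2, 8, 4), ((7, 0, 6), 8, 0, 2),
    ((8, 5, 10), 3, 2, 5), ((9, 6, 10), 4, 2, 5), ((10, 8, 9), 5, 3, 4)]
  Tc := []
  Td := [((0, 1), (0, 1), 6), ((0, 1), (0, 7), 8), ((0, 1), (3, 4), 7), ((0, 1), (3, 5), 2), ((1,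
    0), (2, 1), 6), ((1, 0), (2, 4), 7), ((2, 5), (5, 3), 0), ((2, 5), (5, 8), 3), ((2, 5),
    (6, 7), 8), ((2, 5), (6, 9), 4), ((5, 2), (10, 8), 3), ((5, 2), (10, 9), 4)]
  G := [[0, 0xe27d422ebd84ae27d42ebd8622ebde27dc82e, 0, 0x24412ebde79c1ce27d412ebd81cc,
    0x4edbe47ba144edbe47ba14c], [0, 0xea5e2cc2ebde27dcc2ea5e2cc219e27dc622ebd71c84e, 0,
    0xe27d412ebd81ceb5e27dc12881cc, 0xe47b214edb81c4edbe47ba14c], [0,
    0x2ebde27dc42eb5e27dc22882a2ebde27dc82e, 0x111e111e6111e111e6c81,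
    0xe27d4e27d4c2ebd82ebd8cc1, 0x4edbe47ba4edbe47bac41], [0,
    0x2ebde27dc422ebde27dc8224422ebde79c2ce, 0, 0xe27d4eb5e27dcc2ebd8288cc1,
    0x4edbe47ba4edbe47bac41]]

noncomputable def n979 : Ent := ⟨e979, noF, [], [], [(7, 16, [1580044410770988437309982408355971841652082177953823432505693110273, 0]), (8, 16, [1580044410770988437309982408355971841652082177953823432505693114369, 0]), (10, 16, [1580044410770988437309982408355971841652082177953823432505693118465, 0])]⟩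

def c979 : PLift (Cov.check n979.C.D v979 = true) := ⟨by decide +kernel⟩

def b979 : PLift (entF (fidx ts) 400 979 n979 = true) := ⟨by decide +kernel⟩

theorem g979 : GoodF (fidx ts) 400 979 := GoodF.ofV v979 n979 c979.down b979.down

/-- 464764:819 -/
noncomputable def e980 : SCfg where
  D := {
    a := 6
    L := 11
    kp := 8
    inn := [(0, 1), (1, 0), (1, 2), (1, 3), (2, 1), (3, 1), (3, 4), (4, 3), (4, 5), (5, 4)]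
    mix := [(0, 0), (0, 1), (0, 2), (1, 0), (1, 2), (1, 3), (2, 2), (2, 3), (2, 4), (3, 0), (3, 3), (3,
      5), (3, 6), (3, 7), (4, 5), (4, 6), (4, 8), (4, 9), (5, 6), (5, 9), (5, 10)]
    cl := [0, 6, 2, 0, 7, 1, 1, 8, 4, 3, 5]
    chq := [(0, 2), (2, 0), (4, 5), (5, 4)]
    rng := [(0, 1), (0, 7), (1, 0), (1, 2), (2, 1), (2, 4), (3, 4), (3, 5), (4, 2), (4, 3), (5, 3), (5,
      8), (6, 7), (6, 10), (7, 0), (7, 6), (8, 5), (8, 9), (9, 8), (9, 10), (10, 6), (10, 9)]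
    lev := [] }
  links := [[1, 6, 7, 8], [6, 0, 8, 2, 9, 3], [9, 1, 8, 10], [6, 1, 9, 11, 4, 12, 13], [12, 3, 11, 14,
    15, 5], [12, 4, 15, 16]]
  P := {
    a := 6
    N := 17
    nb := [450, 845, 1794, 14930, 55336, 102416, 8331, 321, 1159, 3086, 772, 16920, 73784, 4168,
      34832, 81968, 36896]
    tri := [(0, 1, 6), (0, 1, 8), (0, 6, 7), (0, 7, 8), (1, 2, 8), (1, 2, 9), (1, 3, 6), (1, 3, 9), (2,
      8, 10), (2, 9, 10), (3, 4, 11), (3, 4, 12), (3, 6, 13), (3, 9, 11), (3, 12, 13), (4, 5, 12),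
      (4, 5, 15), (4, 11, 14), (4, 14, 15), (5, 12, 16), (5, 15, 16)]
    fin := [0, 0, 0, 3, 4, 4, 0, 7, 8, 0, 10, 3, 3, 13, 4, 15, 16]
    chd := [(0, 8), (4, 16)]
    steps := [(0, 1), (0, 2), (0, 6), (0, 9), (3, 11), (3, 12), (4, 5), (4, 14)] }
  rep := [0, 3, 8, 15, 4, 16, 7, 10, 13]

noncomputable def v980 : Cov.CovD where
  P := 3
  N := 6
  pl := [1, 4, 7, 9]
  lev := [⟨[], [], [(0, 2)], [6], [(0, 0, [2]), (2, 2, [0])]⟩,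
    ⟨[], [(0, 0), (0, 2)], [(0, 0), (0, 2)], [], [(0, 0, [2]), (2, 2, [0]), (3, 0, [2])]⟩,
    ⟨[(0, 1)], [(0, 2), (1, 0), (1, 2)], [(0, 2)], [7], [(2, 2, [0]), (3, 0, [2])]⟩,
    ⟨[(0, 1), (1, 2)], [(0, 0), (1, 0), (1, 1), (1, 2), (2, 0)], [(0, 0), (0, 1), (1, 1)],
      [8], [(0, 0, [2]), (3, 0, [2]), (5, 1, []), (6, 1, [])]⟩,
    ⟨[(1, 3)], [(3, 0), (3, 1), (3, 4)], [(1, 1), (1, 4)], [3], [(5, 1, []), (6, 1, []),
      (8, 4, [5])]⟩,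
    ⟨[(3, 4)], [(3, 1), (4, 1), (4, 4), (4, 5)], [(1, 5)], [3], [(6, 1, []), (10, 5, [4])]⟩]
  Ta := [((0, 1), 0, 6), ((0, 7), 0, 8), ((3, 4), 0, 7), ((3, 5), 0, 1), ((5, 3), 1, 0), ((5, 8),
    1, 4), ((6, 7), 1, 8), ((6, 10), 1, 5)]
  Tb := [((0, 1, 7), 0, 6, 8), ((1, 0, 2), 6, 0, 2), ((2, 1, 4), 2, 6, 7), ((3, 4, 5), 0, 7, 1),
    ((4, 2, 3), 7, 2, 0), ((5, 3, 8), 1, 0, 4), ((6, 7, 10), 1, 8, 5), ((7, 0, 6), 8, 0, 1),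
    ((8, 5, 9), 4, 1, 3), ((9, 8, 10), 3, 4, 5), ((10, 6, 9), 5, 1, 3)]
  Tc := []
  Td := [((0, 2), (0, 1), 6), ((0, 2), (0, 7), 8), ((0, 2), (3, 4), 7), ((0, 2), (3, 5), 1), ((2,
    0), (2, 1), 6), ((2, 0), (2, 4), 7), ((4, 5), (8, 5), 1), ((4, 5), (8, 9), 3), ((5, 4),
    (10, 6), 1), ((5, 4), (10, 9), 3)]
  G := [[0, 0, 0x236d23cdc6298c2946a2dc482442269832cdea9c6ce, 0x24416a2d3a9c1c36523bdc12881cc,
    0x32ad296dc126a2d236dc12a], [0, 0, 0x59cd59cdc59cd59cdc6259cd59cdc59cd59cdcc2c,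
    0x59cd4159cd81c59cd4159cd81cc, 0x59cd59cdc1259cd59cdc12a], [0, 0x591e1ca34e61ce135eac41,
    0x672d829cd4c2236d6a2dc2229cd452cd8c2e, 0x32ad45a2d4c296d832ad8cc1,
    0x32cd5a2dc32cd692dca21], [0, 0, 0x59cd59cdc59cd59cdc6259cd59cdc59cd59cdca2c,
    0x94459cd4c59cd5c9c59cd8cc1, 0x59cd59cdc59cd59cdca21]]

noncomputable def n980 : Ent := ⟨e980, noF, [], [], []⟩

def c980 : PLift (Cov.check n980.C.D v980 = true) := ⟨by decide +kernel⟩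

def b980 : PLift (entF (fidx ts) 400 980 n980 = true) := ⟨by decide +kernel⟩

theorem g980 : GoodF (fidx ts) 400 980 := GoodF.ofV v980 n980 c980.down b980.down

/-- 474854:820/1 -/
noncomputable def e981 : SCfg where
  D := {
    a := 6
    L := 9
    kp := 6
    inn := [(0, 1), (0, 3), (1, 0), (1, 2), (1, 3), (2, 1), (2, 3), (3, 0), (3, 1), (3, 2), (3, 4), (4,
      3), (4, 5), (5, 4)]
    mix := [(0, 0), (0, 1), (1, 0), (1, 2), (1, 3), (1, 4), (2, 2), (2, 5), (3, 1), (3, 5), (3, 6), (3,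
      7), (4, 1), (4, 6), (4, 8), (5, 0), (5, 1), (5, 8)]
    cl := [1, 0, 1, 2, 5, 3, 0, 6, 4]
    chq := [(0, 3), (3, 0)]
    rng := [(0, 1), (0, 4), (0, 8), (1, 0), (2, 3), (2, 5), (3, 2), (3, 4), (4, 0), (4, 3), (5, 2), (5,
      7), (6, 7), (6, 8), (7, 5), (7, 6), (8, 0), (8, 6)]
    lev := [] }
  links := [[1, 6, 7, 3], [6, 0, 3, 2, 8, 9, 10], [8, 1, 3, 11], [11, 2, 1, 0, 7, 4, 12, 13], [12, 3, 7,
    5, 14], [14, 4, 7, 6]]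
  P := {
    a := 6
    N := 15
    nb := [202, 1869, 2314, 14487, 20648, 16592, 17571, 121, 2566, 1282, 578, 8460, 24600, 6152, 4208]
    tri := [(0, 1, 3), (0, 1, 6), (0, 3, 7), (0, 6, 7), (1, 2, 3), (1, 2, 8), (1, 6, 10), (1, 8, 9),
      (1, 9, 10), (2, 3, 11), (2, 8, 11), (3, 4, 7), (3, 4, 12), (3, 11, 13), (3, 12, 13), (4, 5,
      7), (4, 5, 14), (4, 12, 14), (5, 6, 7), (5, 6, 14)]
    fin := [0, 0, 0, 3, 0, 0, 0, 3, 0, 9, 10, 11, 3, 13, 14]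
    chd := [(3, 11)]
    steps := [(0, 1), (0, 2), (0, 6), (0, 5), (0, 8), (3, 7), (0, 4), (3, 12)] }
  rep := [3, 0, 9, 11, 14, 10, 13]

noncomputable def v981 : Cov.CovD where
  P := 3
  N := 4
  pl := [3, 4, 7, 8]
  lev := [⟨[], [], [(0, 1)], [], [(0, 1, []), (1, 0, [3])]⟩,
    ⟨[], [(0, 0), (0, 1)], [(1, 1)], [2, 5], [(0, 1, []), (2, 1, [])]⟩,
    ⟨[(0, 1)], [(1, 1), (1, 3)], [(1, 3)], [], [(2, 1, []), (5, 3, [0])]⟩,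
    ⟨[(0, 1), (0, 2), (1, 2)], [(0, 0), (0, 1), (0, 3), (1, 0), (1, 1), (1, 3), (2, 0), (2,
      1), (2, 3)], [(0, 0), (0, 3)], [6], [(1, 0, [3]), (5, 3, [0]), (6, 0, [3])]⟩,
    ⟨[(0, 3), (1, 3), (2, 3)], [(0, 0), (3, 0), (3, 3)], [(0, 0)], [4], [(1, 0, [3]), (6,
      0, [3])]⟩,
    ⟨[(3, 4)], [(0, 0), (0, 1), (1, 1), (3, 0), (4, 0), (4, 1)], [(0, 1)], [4], [(0, 1,
      []), (1, 0, [3])]⟩]
  Ta := [((0, 1), 1, 0), ((0, 4), 1, 5), ((0, 8), 1, 4), ((1, 0), 0, 1), ((2, 3), 1, 2), ((2, 5),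
    1, 3), ((6, 7), 0, 6), ((6, 8), 0, 4)]
  Tb := [((0, 1, 4), 1, 0, 5), ((0, 1, 8), 1, 0, 4), ((0, 4, 8), 1, 5, 4), ((2, 3, 5), 1, 2, 3),
    ((3, 2, 4), 2, 1, 5), ((4, 0, 3), 5, 1, 2), ((5, 2, 7), 3, 1, 6), ((6, 7, 8), 0, 6, 4),
    ((7, 5, 6), 6, 3, 0), ((8, 0, 6), 4, 1, 0)]
  Tc := []
  Td := [((0, 3), (1, 0), 1), ((0, 3), (6, 7), 6), ((0, 3), (6, 8), 4), ((3, 0), (5, 2), 1), ((3,
    0), (5, 7), 6)]
  G := [[0, 0x42684a24ce148684a84ce1c2, 0x84a42448684a84ce148684ca1cc, 0,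
    0x48684a486e148684ac84c2394], [0, 0, 0xc284c61486c2c2e1cc2818a, 0xc2c224ce1c2c2a1cc24146,
    0xc2c2c2e1c212ac224c6994], [0, 0, 0x41684a14ce1848684a84ce145, 0,
    0x81681a486e148681ac84a2394], [0, 0, 0xc22192c222ce1c92c2c18a, 0x52441c25222ce19252a1cc,
    0x529292e15252a922c24d94]]

noncomputable def n981 : Ent := ⟨e981, noF, [], [], []⟩

def c981 : PLift (Cov.check n981.C.D v981 = true) := ⟨by decide +kernel⟩

def b981 : PLift (entF (fidx ts) 400 981 n981 = true) := ⟨by decide +kernel⟩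

theorem g981 : GoodF (fidx ts) 400 981 := GoodF.ofV v981 n981 c981.down b981.down

/-- 474854:820 -/
noncomputable def e982 : SCfg where
  D := {
    a := 6
    L := 10
    kp := 7
    inn := [(0, 1), (0, 3), (1, 0), (1, 2), (1, 3), (2, 1), (2, 3), (3, 0), (3, 1), (3, 2), (3, 4), (4,
      3), (4, 5), (5, 4)]
    mix := [(0, 0), (0, 1), (1, 0), (1, 2), (1, 3), (1, 4), (2, 2), (2, 5), (3, 1), (3, 5), (3, 6), (3,
      7), (4, 1), (4, 6), (4, 8), (5, 1), (5, 8), (5, 9)]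
    cl := [1, 0, 1, 5, 6, 2, 0, 4, 3, 7]
    chq := [(1, 4), (4, 1)]
    rng := [(0, 1), (0, 4), (1, 0), (1, 9), (2, 3), (2, 5), (3, 2), (3, 4), (4, 0), (4, 3), (5, 2), (5,
      7), (6, 7), (6, 8), (7, 5), (7, 6), (8, 6), (8, 9), (9, 1), (9, 8)]
    lev := [] }
  links := [[1, 6, 7, 3], [6, 0, 3, 2, 8, 9, 10], [8, 1, 3, 11], [11, 2, 1, 0, 7, 4, 12, 13], [12, 3, 7,
    5, 14], [14, 4, 7, 15]]
  P := {
    a := 6
    N := 16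
    nb := [202, 1869, 2314, 14487, 20648, 49296, 1155, 32889, 2566, 1282, 578, 8460, 24600, 6152,
      36912, 16544]
    tri := [(0, 1, 3), (0, 1, 6), (0, 3, 7), (0, 6, 7), (1, 2, 3), (1, 2, 8), (1, 6, 10), (1, 8, 9),
      (1, 9, 10), (2, 3, 11), (2, 8, 11), (3, 4, 7), (3, 4, 12), (3, 11, 13), (3, 12, 13), (4, 5,
      7), (4, 5, 14), (4, 12, 14), (5, 7, 15), (5, 14, 15)]
    fin := [0, 0, 0, 0, 4, 4, 0, 4, 0, 9, 10, 11, 4, 13, 14, 15]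
    chd := [(0, 13)]
    steps := [(0, 1), (0, 2), (0, 3), (0, 6), (0, 8), (4, 5), (4, 7), (4, 12)] }
  rep := [4, 0, 11, 14, 13, 9, 10, 15]

noncomputable def v982 : Cov.CovD where
  P := 3
  N := 5
  pl := [3, 4, 5, 8, 9]
  lev := [⟨[], [], [(0, 1)], [], [(0, 1, [4]), (1, 0, [])]⟩,
    ⟨[], [(0, 0), (0, 1)], [(1, 1)], [5, 6], [(0, 1, [4]), (2, 1, [4])]⟩,
    ⟨[(0, 1)], [(1, 1)], [], [2], [(2, 1, [4])]⟩,
    ⟨[(0, 1), (0, 2), (1, 2)], [(0, 0), (0, 1), (0, 4), (1, 0), (1, 1), (1, 4), (2, 0), (2,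
      1), (2, 4)], [(0, 0), (0, 4)], [2], [(1, 0, []), (6, 0, []), (7, 4, [1])]⟩,
    ⟨[(0, 3), (1, 3), (2, 3)], [(0, 0), (3, 0), (3, 4)], [(0, 0)], [3], [(1, 0, []), (6, 0,
      [])]⟩,
    ⟨[(3, 4)], [(0, 0), (3, 0), (4, 0)], [], [3, 7], [(1, 0, [])]⟩]
  Ta := [((0, 1), 1, 0), ((0, 4), 1, 6), ((1, 0), 0, 1), ((1, 9), 0, 7), ((2, 3), 1, 5), ((2, 5),
    1, 2), ((6, 7), 0, 4), ((6, 8), 0, 3)]
  Tb := [((0, 1, 4), 1, 0, 6), ((1, 0, 9), 0, 1, 7), ((2, 3, 5), 1, 5, 2), ((3, 2, 4), 5, 1, 6),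
    ((4, 0, 3), 6, 1, 5), ((5, 2, 7), 2, 1, 4), ((6, 7, 8), 0, 4, 3), ((7, 5, 6), 4, 2, 0),
    ((8, 6, 9), 3, 0, 7), ((9, 1, 8), 7, 0, 3)]
  Tc := []
  Td := [((1, 4), (0, 1), 0), ((1, 4), (0, 4), 6), ((1, 4), (2, 3), 5), ((1, 4), (2, 5), 2), ((4,
    1), (7, 5), 2), ((4, 1), (7, 6), 0)]
  G := [[0, 0xca6c6ac1ca6c6ac1ca6c6ac8e2, 0xa6c28a6c28a6c28d4, 0, 0xa6c21a6c21a6c21d8], [0, 0,
    0xa6c24a6c28a6c28d4, 0xca6c6ac4ca6c6ac1ca6c6ac8d2, 0xa6c21a6c21a6c21d8], [0, 0,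
    0xa1c24a1c2816c24d8, 0, 0xa1c28a1c2816c28d4], [0, 0, 0xa1c2416c2816c24d8,
    0x16a41a68cc1653cc15c1693ac48a, 0xa1c21a1c28a1c21d8]]

noncomputable def n982 : Ent := ⟨e982, noF, [], [], [(6, 15, [360035742630636841211993100915356868655746945586763691011690497, 0])]⟩

def c982 : PLift (Cov.check n982.C.D v982 = true) := ⟨by decide +kernel⟩

def b982 : PLift (entF (fidx ts) 400 982 n982 = true) := ⟨by decide +kernel⟩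

theorem g982 : GoodF (fidx ts) 400 982 := GoodF.ofV v982 n982 c982.down b982.down

/-- 474854:821 -/
noncomputable def e983 : SCfg where
  D := {
    a := 6
    L := 10
    kp := 7
    inn := [(0, 1), (0, 3), (1, 0), (1, 2), (1, 3), (2, 1), (2, 3), (3, 0), (3, 1), (3, 2), (3, 4), (4,
      3), (4, 5), (5, 4)]
    mix := [(0, 0), (0, 1), (1, 0), (1, 2), (1, 3), (1, 4), (2, 2), (2, 5), (3, 1), (3, 5), (3, 6), (3,
      7), (4, 1), (4, 6), (4, 8), (5, 6), (5, 8), (5, 9)]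
    cl := [1, 0, 1, 5, 6, 2, 0, 4, 3, 7]
    chq := [(1, 4), (4, 1)]
    rng := [(0, 1), (0, 4), (1, 0), (1, 8), (2, 3), (2, 5), (3, 2), (3, 4), (4, 0), (4, 3), (5, 2), (5,
      7), (6, 7), (6, 9), (7, 5), (7, 6), (8, 1), (8, 9), (9, 6), (9, 8)]
    lev := [] }
  links := [[1, 6, 7, 3], [6, 0, 3, 2, 8, 9, 10], [8, 1, 3, 11], [11, 2, 1, 0, 7, 4, 12, 13], [12, 3, 7,
    14, 5], [12, 4, 14, 15]]
  P := {
    a := 6
    N := 16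
    nb := [202, 1869, 2314, 14487, 20648, 53264, 1155, 16473, 2566, 1282, 578, 8460, 41016, 6152,
      32944, 20512]
    tri := [(0, 1, 3), (0, 1, 6), (0, 3, 7), (0, 6, 7), (1, 2, 3), (1, 2, 8), (1, 6, 10), (1, 8, 9),
      (1, 9, 10), (2, 3, 11), (2, 8, 11), (3, 4, 7), (3, 4, 12), (3, 11, 13), (3, 12, 13), (4, 5,
      12), (4, 5, 14), (4, 7, 14), (5, 12, 15), (5, 14, 15)]
    fin := [0, 0, 0, 0, 4, 4, 0, 4, 0, 9, 10, 11, 4, 13, 14, 15]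
    chd := [(0, 13)]
    steps := [(0, 1), (0, 2), (0, 3), (0, 6), (0, 8), (4, 5), (4, 7), (4, 12)] }
  rep := [4, 0, 11, 14, 13, 9, 10, 15]

noncomputable def v983 : Cov.CovD where
  P := 3
  N := 5
  pl := [3, 4, 5, 8, 9]
  lev := [⟨[], [], [(0, 1)], [], [(0, 1, [4]), (1, 0, [])]⟩,
    ⟨[], [(0, 0), (0, 1)], [(1, 1)], [5, 6], [(0, 1, [4]), (2, 1, [4])]⟩,
    ⟨[(0, 1)], [(1, 1)], [], [2], [(2, 1, [4])]⟩,
    ⟨[(0, 1), (0, 2), (1, 2)], [(0, 0), (0, 1), (0, 4), (1, 0), (1, 1), (1, 4), (2, 0), (2,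
      1), (2, 4)], [(0, 0), (0, 4)], [2], [(1, 0, []), (6, 0, []), (7, 4, [1])]⟩,
    ⟨[(0, 3), (1, 3), (2, 3)], [(0, 0), (3, 0), (3, 4)], [(0, 0)], [3], [(1, 0, []), (6, 0,
      [])]⟩,
    ⟨[(3, 4)], [(3, 0), (4, 0)], [], [3, 7], [(6, 0, [])]⟩]
  Ta := [((0, 1), 1, 0), ((0, 4), 1, 6), ((1, 0), 0, 1), ((1, 8), 0, 3), ((2, 3), 1, 5), ((2, 5),
    1, 2), ((6, 7), 0, 4), ((6, 9), 0, 7)]
  Tb := [((0, 1, 4), 1, 0, 6), ((1, 0, 8), 0, 1, 3), ((2, 3, 5), 1, 5, 2), ((3, 2, 4), 5, 1, 6),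
    ((4, 0, 3), 6, 1, 5), ((5, 2, 7), 2, 1, 4), ((6, 7, 9), 0, 4, 7), ((7, 5, 6), 4, 2, 0),
    ((8, 1, 9), 3, 0, 7), ((9, 6, 8), 7, 0, 3)]
  Tc := []
  Td := [((1, 4), (0, 1), 0), ((1, 4), (0, 4), 6), ((1, 4), (2, 3), 5), ((1, 4), (2, 5), 2), ((4,
    1), (7, 5), 2), ((4, 1), (7, 6), 0)]
  G := [[0, 0x11611ac411611ac111c11ac4e2, 0xa1c2495c24a1c24d8, 0, 0x16c2195c2816c28d8], [0, 0,
    0x16c2416c2816c28d4, 0x936c1ac4c16c1ac839c1a6c1d2, 0x95c21a1c2116c21d8], [0, 0,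
    0xa6c24a6c24a6c28d8, 0, 0xa6c28a6c21a6c28d4], [0, 0, 0xa6c24a6c28a6c28d8,
    0xca6c6ac4ca68c6a45ca6c6ac1d2, 0xa6c28a6c21a6c28d4]]

noncomputable def n983 : Ent := ⟨e983, noF, [], [], []⟩

def c983 : PLift (Cov.check n983.C.D v983 = true) := ⟨by decide +kernel⟩

def b983 : PLift (entF (fidx ts) 400 983 n983 = true) := ⟨by decide +kernel⟩

theorem g983 : GoodF (fidx ts) 400 983 := GoodF.ofV v983 n983 c983.down b983.down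

/-- 485464:822/1 -/
noncomputable def e984 : SCfg where
  D := {
    a := 6
    L := 10
    kp := 7
    inn := [(0, 1), (1, 0), (1, 2), (1, 4), (2, 1), (2, 3), (3, 2), (4, 1), (4, 5), (5, 4)]
    mix := [(0, 0), (0, 1), (0, 2), (1, 0), (1, 2), (1, 3), (1, 4), (1, 5), (2, 3), (2, 4), (2, 6), (3,
      3), (3, 6), (3, 7), (4, 0), (4, 5), (4, 8), (4, 9), (5, 7), (5, 8), (5, 9)]
    cl := [0, 7, 2, 1, 1, 0, 4, 3, 5, 6]
    chq := [(0, 3), (1, 7), (3, 0), (7, 1)]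
    rng := [(0, 1), (0, 9), (1, 0), (1, 2), (2, 1), (2, 3), (3, 2), (3, 7), (4, 5), (4, 6), (5, 4), (5,
      8), (6, 4), (6, 7), (7, 3), (7, 6), (7, 8), (7, 9), (8, 5), (8, 7), (9, 0), (9, 7)]
    lev := [] }
  links := [[1, 6, 7, 8], [6, 0, 8, 9, 2, 10, 11, 4], [10, 1, 9, 3, 12], [12, 2, 9, 13], [6, 1, 11, 14,
    5, 15], [15, 4, 14, 13]]
  P := {
    a := 6
    N := 16
    nb := [450, 3925, 5642, 12804, 51298, 57360, 32915, 321, 643, 8462, 6150, 17426, 9228, 53800,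
      10288, 8304]
    tri := [(0, 1, 6), (0, 1, 8), (0, 6, 7), (0, 7, 8), (1, 2, 9), (1, 2, 10), (1, 4, 6), (1, 4, 11),
      (1, 8, 9), (1, 10, 11), (2, 3, 9), (2, 3, 12), (2, 10, 12), (3, 9, 13), (3, 12, 13), (4, 5,
      14), (4, 5, 15), (4, 6, 15), (4, 11, 14), (5, 13, 14), (5, 13, 15)]
    fin := [0, 0, 2, 2, 4, 4, 4, 0, 8, 2, 2, 4, 12, 13, 14, 15]
    chd := [(0, 2), (4, 13)]
    steps := [(0, 1), (0, 7), (2, 3), (2, 9), (2, 10), (4, 5), (4, 6), (4, 11)] }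
  rep := [4, 2, 8, 13, 12, 14, 15, 0]

noncomputable def v984 : Cov.CovD where
  P := 3
  N := 5
  pl := [2, 6, 8, 9]
  lev := [⟨[], [], [(0, 7)], [2], [(0, 0, [3]), (1, 7, [1])]⟩,
    ⟨[], [(0, 0), (0, 1), (0, 7)], [(0, 0), (0, 1), (1, 1)], [2], [(0, 0, [3]), (3, 1,
      [7]), (4, 1, [7]), (5, 0, [3])]⟩,
    ⟨[(0, 1)], [(1, 0), (1, 1)], [(1, 1)], [4], [(3, 1, [7]), (4, 1, [7])]⟩,
    ⟨[(1, 2)], [(1, 1), (2, 1), (2, 3)], [(1, 3)], [4], [(3, 1, [7]), (7, 3, [0])]⟩,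
    ⟨[(0, 1), (1, 2)], [(0, 0), (1, 0), (1, 1)], [(0, 0)], [5, 6], [(0, 0, [3]), (5, 0,
      [3])]⟩,
    ⟨[(1, 4)], [(3, 3), (4, 0), (4, 3)], [], [5, 6], [(7, 3, [0])]⟩]
  Ta := [((0, 1), 0, 7), ((0, 9), 0, 6), ((3, 2), 1, 2), ((3, 7), 1, 3), ((4, 5), 1, 0), ((4, 6),
    1, 4), ((5, 4), 0, 1), ((5, 8), 0, 5)]
  Tb := [((0, 1, 9), 0, 7, 6), ((1, 0, 2), 7, 0, 2), ((2, 1, 3), 2, 7, 1), ((3, 2, 7), 1, 2, 3),
    ((4, 5, 6), 1, 0, 4), ((5, 4, 8), 0, 1, 5), ((6, 4, 7), 4, 1, 3), ((7, 3, 6), 3, 1, 4),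
    ((7, 3, 8), 3, 1, 5), ((7, 3, 9), 3, 1, 6), ((7, 6, 8), 3, 4, 5), ((7, 6, 9), 3, 4, 6),
    ((7, 8, 9), 3, 5, 6), ((8, 5, 7), 5, 0, 3), ((9, 0, 7), 6, 0, 3)]
  Tc := []
  Td := [((0, 3), (0, 1), 7), ((0, 3), (0, 9), 6), ((0, 3), (5, 4), 1), ((0, 3), (5, 8), 5), ((1,
    7), (3, 2), 2), ((1, 7), (3, 7), 3), ((1, 7), (4, 5), 0), ((1, 7), (4, 6), 4), ((3, 0),
    (7, 3), 1), ((3, 0), (7, 6), 4), ((3, 0), (7, 8), 5), ((3, 0), (7, 9), 6), ((7, 1), (1,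
    0), 0), ((7, 1), (1, 2), 2)]
  G := [[0, 0, 0x14ae41d3e15831e88c2, 0x42644812e18c881512e1dc14142ec44592e9582a88cc,
    0x19ae143ec141e59ae9582], [0, 0, 0x812e512ecd12e2942, 0, 0x944412ae12a9452ab582], [0, 0,
    0x349e41d2e15831e88c2, 0x142e44812e8592e19c1, 0x192e14bec141e59ae9582], [0,
    0x111e1111e1a41, 0x142e4592e25812e88c2, 0, 0xd2611d2e218189d81]]

noncomputable def n984 : Ent := ⟨e984, noF, [], [], []⟩

def c984 : PLift (Cov.check n984.C.D v984 = true) := ⟨by decide +kernel⟩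

def b984 : PLift (entF (fidx ts) 400 984 n984 = true) := ⟨by decide +kernel⟩

theorem g984 : GoodF (fidx ts) 400 984 := GoodF.ofV v984 n984 c984.down b984.down

/-- 485464:822/2 -/
noncomputable def e985 : SCfg where
  D := {
    a := 6
    L := 10
    kp := 7
    inn := [(0, 1), (1, 0), (1, 2), (1, 4), (2, 1), (2, 3), (3, 2), (4, 1), (4, 5), (5, 4)]
    mix := [(0, 0), (0, 1), (0, 2), (1, 0), (1, 2), (1, 3), (1, 4), (1, 5), (2, 3), (2, 4), (2, 6), (3,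
      3), (3, 6), (3, 7), (4, 0), (4, 5), (4, 8), (4, 9), (5, 6), (5, 8), (5, 9)]
    cl := [0, 6, 3, 1, 1, 0, 2, 7, 4, 5]
    chq := [(0, 2), (1, 6), (2, 0), (6, 1)]
    rng := [(0, 1), (0, 9), (1, 0), (1, 2), (2, 1), (2, 3), (3, 2), (3, 7), (4, 5), (4, 6), (5, 4), (5,
      8), (6, 4), (6, 7), (6, 8), (6, 9), (7, 3), (7, 6), (8, 5), (8, 6), (9, 0), (9, 6)]
    lev := [] }
  links := [[1, 6, 7, 8], [6, 0, 8, 9, 2, 10, 11, 4], [10, 1, 9, 3, 12], [12, 2, 9, 13], [6, 1, 11, 14,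
    5, 15], [15, 4, 14, 12]]
  P := {
    a := 6
    N := 16
    nb := [450, 3925, 5642, 12804, 51298, 53264, 32915, 321, 643, 8462, 6150, 17426, 58412, 4616,
      6192, 4208]
    tri := [(0, 1, 6), (0, 1, 8), (0, 6, 7), (0, 7, 8), (1, 2, 9), (1, 2, 10), (1, 4, 6), (1, 4, 11),
      (1, 8, 9), (1, 10, 11), (2, 3, 9), (2, 3, 12), (2, 10, 12), (3, 9, 13), (3, 12, 13), (4, 5,
      14), (4, 5, 15), (4, 6, 15), (4, 11, 14), (5, 12, 14), (5, 12, 15)]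
    fin := [0, 0, 2, 2, 4, 4, 4, 0, 8, 2, 2, 4, 12, 13, 14, 15]
    chd := [(0, 2), (4, 12)]
    steps := [(0, 1), (0, 7), (2, 3), (2, 9), (2, 10), (4, 5), (4, 6), (4, 11)] }
  rep := [4, 2, 12, 8, 14, 15, 0, 13]

noncomputable def v985 : Cov.CovD where
  P := 3
  N := 5
  pl := [2, 7, 8, 9]
  lev := [⟨[], [], [(0, 6)], [3], [(0, 0, [2]), (1, 6, [1])]⟩,
    ⟨[], [(0, 0), (0, 1), (0, 6)], [(0, 0), (0, 1), (1, 1)], [3], [(0, 0, [2]), (3, 1,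
      [6]), (4, 1, [6]), (5, 0, [2])]⟩,
    ⟨[(0, 1)], [(1, 0), (1, 1), (1, 2)], [(1, 1), (1, 2)], [], [(3, 1, [6]), (4, 1, [6]),
      (6, 2, [0])]⟩,
    ⟨[(1, 2)], [(1, 1), (2, 1), (2, 2)], [(1, 2)], [7], [(3, 1, [6]), (6, 2, [0])]⟩,
    ⟨[(0, 1), (1, 2)], [(0, 0), (1, 0), (1, 1)], [(0, 0)], [4, 5], [(0, 0, [2]), (5, 0,
      [2])]⟩,
    ⟨[(1, 4)], [(2, 2), (3, 2), (4, 0), (4, 2)], [], [4, 5], [(6, 2, [0])]⟩]
  Ta := [((0, 1), 0, 6), ((0, 9), 0, 5), ((3, 2), 1, 3), ((3, 7), 1, 7), ((4, 5), 1, 0), ((4, 6),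
    1, 2), ((5, 4), 0, 1), ((5, 8), 0, 4)]
  Tb := [((0, 1, 9), 0, 6, 5), ((1, 0, 2), 6, 0, 3), ((2, 1, 3), 3, 6, 1), ((3, 2, 7), 1, 3, 7),
    ((4, 5, 6), 1, 0, 2), ((5, 4, 8), 0, 1, 4), ((6, 4, 7), 2, 1, 7), ((6, 4, 8), 2, 1, 4),
    ((6, 4, 9), 2, 1, 5), ((6, 7, 8), 2, 7, 4), ((6, 7, 9), 2, 7, 5), ((6, 8, 9), 2, 4, 5),
    ((7, 3, 6), 7, 1, 2), ((8, 5, 6), 4, 0, 2), ((9, 0, 6), 5, 0, 2)]
  Tc := []
  Td := [((0, 2), (0, 1), 6), ((0, 2), (0, 9), 5), ((0, 2), (5, 4), 1), ((0, 2), (5, 8), 4), ((1,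
    6), (3, 2), 3), ((1, 6), (3, 7), 7), ((1, 6), (4, 5), 0), ((1, 6), (4, 6), 2), ((2, 0),
    (6, 4), 1), ((2, 0), (6, 7), 7), ((2, 0), (6, 8), 4), ((2, 0), (6, 9), 5), ((6, 1), (1,
    0), 0), ((6, 1), (1, 2), 3)]
  G := [[0, 0, 0x1818c4141422d8c426148814c3, 0,
    0x831e812e91414149182a82a91c192e192e91812e812e98ce], [0, 0, 0x141e24112e28c2,
    0xd2d258d2d251c2, 0x192e21812e21c2], [0, 0, 0x1818426d48141482ad843, 0,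
    0x812e812e984192e192e9183], [0, 0x111e14811e14a1, 0x142e24812e28c2, 0xd2d254d2d291c2,
    0x192e21812e28c2]]

noncomputable def n985 : Ent := ⟨e985, noF, [], [], []⟩

def c985 : PLift (Cov.check n985.C.D v985 = true) := ⟨by decide +kernel⟩

def b985 : PLift (entF (fidx ts) 400 985 n985 = true) := ⟨by decide +kernel⟩

theorem g985 : GoodF (fidx ts) 400 985 := GoodF.ofV v985 n985 c985.down b985.down

/-- 485464:822 -/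
noncomputable def e986 : SCfg where
  D := {
    a := 6
    L := 11
    kp := 8
    inn := [(0, 1), (1, 0), (1, 2), (1, 4), (2, 1), (2, 3), (3, 2), (4, 1), (4, 5), (5, 4)]
    mix := [(0, 0), (0, 1), (0, 2), (1, 0), (1, 2), (1, 3), (1, 4), (1, 5), (2, 3), (2, 4), (2, 6), (3,
      3), (3, 6), (3, 7), (4, 0), (4, 5), (4, 8), (4, 9), (5, 8), (5, 9), (5, 10)]
    cl := [0, 6, 2, 1, 1, 0, 3, 8, 4, 5, 7]
    chq := [(0, 7), (1, 6), (6, 1), (7, 0)]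
    rng := [(0, 1), (0, 9), (1, 0), (1, 2), (2, 1), (2, 3), (3, 2), (3, 7), (4, 5), (4, 6), (5, 4), (5,
      8), (6, 4), (6, 7), (7, 3), (7, 6), (8, 5), (8, 10), (9, 0), (9, 10), (10, 8), (10, 9)]
    lev := [] }
  links := [[1, 6, 7, 8], [6, 0, 8, 9, 2, 10, 11, 4], [10, 1, 9, 3, 12], [12, 2, 9, 13], [6, 1, 11, 14,
    5, 15], [15, 4, 14, 16]]
  P := {
    a := 6
    N := 17
    nb := [450, 3925, 5642, 12804, 51298, 114704, 32915, 321, 643, 8462, 6150, 17426, 9228, 4616,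
      67632, 65648, 49184]
    tri := [(0, 1, 6), (0, 1, 8), (0, 6, 7), (0, 7, 8), (1, 2, 9), (1, 2, 10), (1, 4, 6), (1, 4, 11),
      (1, 8, 9), (1, 10, 11), (2, 3, 9), (2, 3, 12), (2, 10, 12), (3, 9, 13), (3, 12, 13), (4, 5,
      14), (4, 5, 15), (4, 6, 15), (4, 11, 14), (5, 14, 16), (5, 15, 16)]
    fin := [0, 0, 2, 2, 4, 4, 4, 0, 8, 2, 2, 4, 12, 13, 14, 15, 16]
    chd := [(0, 2), (4, 16)]
    steps := [(0, 1), (0, 7), (2, 3), (2, 9), (2, 10), (4, 5), (4, 6), (4, 11)] }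
  rep := [4, 2, 8, 12, 14, 15, 0, 16, 13]

noncomputable def v986 : Cov.CovD where
  P := 3
  N := 6
  pl := [2, 6, 7, 8, 9]
  lev := [⟨[], [], [(0, 6)], [2], [(0, 0, [7]), (1, 6, [1])]⟩,
    ⟨[], [(0, 0), (0, 1), (0, 6)], [(0, 0), (0, 1), (1, 1)], [2], [(0, 0, [7]), (3, 1,
      [6]), (4, 1, [6]), (5, 0, [7])]⟩,
    ⟨[(0, 1)], [(1, 0), (1, 1)], [(1, 1)], [3], [(3, 1, [6]), (4, 1, [6])]⟩,
    ⟨[(1, 2)], [(1, 1), (2, 1)], [], [3, 8], [(3, 1, [6])]⟩,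
    ⟨[(0, 1), (1, 2)], [(0, 0), (1, 0), (1, 1)], [(0, 0)], [4, 5], [(0, 0, [7]), (5, 0,
      [7])]⟩,
    ⟨[(1, 4)], [(4, 0), (4, 7)], [], [4, 5], [(10, 7, [0])]⟩]
  Ta := [((0, 1), 0, 6), ((0, 9), 0, 5), ((3, 2), 1, 2), ((3, 7), 1, 8), ((4, 5), 1, 0), ((4, 6),
    1, 3), ((5, 4), 0, 1), ((5, 8), 0, 4)]
  Tb := [((0, 1, 9), 0, 6, 5), ((1, 0, 2), 6, 0, 2), ((2, 1, 3), 2, 6, 1), ((3, 2, 7), 1, 2, 8),
    ((4, 5, 6), 1, 0, 3), ((5, 4, 8), 0, 1, 4), ((6, 4, 7), 3, 1, 8), ((7, 3, 6), 8, 1, 3),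
    ((8, 5, 10), 4, 0, 7), ((9, 0, 10), 5, 0, 7), ((10, 8, 9), 7, 4, 5)]
  Tc := []
  Td := [((0, 7), (0, 1), 6), ((0, 7), (0, 9), 5), ((0, 7), (5, 4), 1), ((0, 7), (5, 8), 4), ((1,
    6), (3, 2), 2), ((1, 6), (3, 7), 8), ((1, 6), (4, 5), 0), ((1, 6), (4, 6), 3), ((6, 1),
    (1, 0), 0), ((6, 1), (1, 2), 2), ((7, 0), (10, 8), 4), ((7, 0), (10, 9), 5)]
  G := [[0, 0, 0x1dbe41dbe15d17e88c2, 0x53644d17e98c98d17e59c541dbec541dbe9593a88cc,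
    0x1dbe1dbec1dbe1dbe9582], [0, 0, 0xdb6218218db61dbedd82, 0, 0x1dbe21dbe1dbe9582], [0, 0,
    0x1dbe41dbe15d17e88c2, 0x1dbe44d17e8d17e19c1, 0x1dbe1dbec1dbe1dbe9581], [0,
    0x111e1111e1681, 0x1dbe1dbec1dbe2582, 0, 0x1dbe1dbec1dbe2581]]

noncomputable def n986 : Ent := ⟨e986, noF, [], [], [(13, 16, [1580044410770988437309982408355971841652082177953823432505693143041, 0]), (12, 16, [1580044410770988437309982408355971841652082177953823432505693147137, 0])]⟩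

def c986 : PLift (Cov.check n986.C.D v986 = true) := ⟨by decide +kernel⟩

def b986 : PLift (entF (fidx ts) 400 986 n986 = true) := ⟨by decide +kernel⟩

theorem g986 : GoodF (fidx ts) 400 986 := GoodF.ofV v986 n986 c986.down b986.down

/-- 464874:824 -/
noncomputable def e987 : SCfg where
  D := {
    a := 6
    L := 11
    kp := 9
    inn := [(0, 1), (0, 4), (1, 0), (1, 2), (1, 3), (1, 4), (2, 1), (3, 1), (3, 4), (4, 0), (4, 1), (4,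
      3), (4, 5), (5, 4)]
    mix := [(0, 0), (0, 1), (1, 1), (1, 2), (2, 1), (2, 2), (2, 3), (3, 2), (3, 4), (3, 5), (3, 6), (3,
      7), (3, 8), (4, 0), (4, 8), (4, 9), (5, 8), (5, 9), (5, 10)]
    cl := [0, 1, 3, 8, 4, 5, 6, 7, 0, 2, 9]
    chq := [(1, 3), (1, 4), (1, 5), (1, 6), (1, 7), (3, 1), (4, 1), (5, 1), (6, 1), (7, 1)]
    rng := [(0, 1), (0, 9), (1, 0), (1, 3), (2, 3), (2, 4), (3, 1), (3, 2), (4, 2), (4, 5), (5, 4), (5,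
      6), (6, 5), (6, 7), (7, 6), (7, 8), (8, 7), (8, 10), (9, 0), (9, 10), (10, 8), (10, 9)]
    lev := [] }
  links := [[1, 4, 6, 7], [4, 0, 7, 2, 8, 3], [8, 1, 7, 9], [4, 1, 8, 10, 11, 12, 13, 14], [6, 0, 1, 3,
    14, 5, 15], [15, 4, 14, 16]]
  P := {
    a := 6
    N := 17
    nb := [210, 413, 898, 32018, 49259, 114704, 32913, 583, 1550, 388, 2312, 5128, 10248, 20488,
      73784, 65648, 49184]
    tri := [(0, 1, 4), (0, 1, 7), (0, 4, 6), (0, 6, 7), (1, 2, 7), (1, 2, 8), (1, 3, 4), (1, 3, 8), (2,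
      7, 9), (2, 8, 9), (3, 4, 14), (3, 8, 10), (3, 10, 11), (3, 11, 12), (3, 12, 13), (3, 13,
      14), (4, 5, 14), (4, 5, 15), (4, 6, 15), (5, 14, 16), (5, 15, 16)]
    fin := [0, 1, 1, 1, 0, 0, 0, 1, 8, 9, 10, 11, 12, 13, 0, 15, 16]
    chd := [(1, 8), (1, 10), (1, 11), (1, 12), (1, 13)]
    steps := [(0, 4), (0, 5), (0, 6), (0, 14), (1, 2), (1, 3), (1, 7)] }
  rep := [0, 1, 15, 8, 10, 11, 12, 13, 9, 16]

noncomputable def v987 : Cov.CovD where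
  P := 3
  N := 7
  pl := [3, 9, 10]
  lev := [⟨[], [], [(0, 1)], [], [(0, 0, []), (1, 1, [3, 4, 5, 6, 7])]⟩,
    ⟨[], [(0, 0), (0, 1), (0, 3)], [(1, 3)], [], [(1, 1, [3, 4, 5, 6, 7]), (2, 3, [1])]⟩,
    ⟨[(0, 1)], [(0, 1), (1, 1), (1, 3)], [(1, 3)], [8], [(1, 1, [3, 4, 5, 6, 7]), (2, 3,
      [1])]⟩,
    ⟨[(0, 1), (1, 2)], [(1, 0), (1, 1), (1, 3), (1, 4), (1, 5), (1, 6), (1, 7), (2, 3)],
      [(0, 3), (0, 4), (0, 5), (0, 6), (0, 7), (3, 4), (3, 5), (3, 6), (3, 7), (4, 5), (4,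
      6), (4, 7), (5, 6), (5, 7), (6, 7)], [], [(2, 3, [1]), (4, 4, [1]), (5, 5, [1]), (6, 6,
      [1]), (7, 7, [1]), (8, 0, [])]⟩,
    ⟨[(0, 1), (0, 3), (1, 2), (1, 3)], [(0, 0), (0, 1), (1, 0), (1, 1), (1, 3), (3, 0), (3,
      3), (3, 4), (3, 5), (3, 6), (3, 7)], [(0, 0)], [2], [(0, 0, []), (8, 0, [])]⟩,
    ⟨[(0, 4), (1, 4), (3, 4)], [(3, 0), (4, 0)], [], [2, 9], [(8, 0, [])]⟩]
  Ta := [((0, 1), 0, 1), ((0, 9), 0, 2), ((8, 7), 0, 7), ((8, 10), 0, 9)]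
  Tb := [((0, 1, 9), 0, 1, 2), ((1, 0, 3), 1, 0, 8), ((2, 3, 4), 3, 8, 4), ((3, 1, 2), 8, 1, 3),
    ((4, 2, 5), 4, 3, 5), ((5, 4, 6), 5, 4, 6), ((6, 5, 7), 6, 5, 7), ((7, 6, 8), 7, 6, 0),
    ((8, 7, 10), 0, 7, 9), ((9, 0, 10), 2, 0, 9), ((10, 8, 9), 9, 0, 2)]
  Tc := [(1, 3, 4), (1, 3, 5), (1, 3, 6), (1, 3, 7), (1, 4, 5), (1, 4, 6), (1, 4, 7), (1, 5, 6),
    (1, 5, 7), (1, 6, 7)]
  Td := [((1, 3), (1, 0), 0), ((1, 3), (1, 3), 8), ((1, 4), (1, 0), 0), ((1, 4), (1, 3), 8), ((1,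
    5), (1, 0), 0), ((1, 5), (1, 3), 8), ((1, 6), (1, 0), 0), ((1, 6), (1, 3), 8), ((1, 7),
    (1, 0), 0), ((1, 7), (1, 3), 8), ((3, 1), (2, 3), 8), ((3, 1), (2, 4), 4), ((4, 1), (4,
    2), 3), ((4, 1), (4, 5), 5), ((5, 1), (5, 4), 4), ((5, 1), (5, 6), 6), ((6, 1), (6, 5),
    5), ((6, 1), (6, 7), 7), ((7, 1), (7, 6), 6), ((7, 1), (7, 8), 0)]
  G := [[0, 0xc4122c418c814ca, 0x6824a4215a4288c, 0x18244142818219c, 0x182182c182182958], [0, 0,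
    0, 0xc4211c428c824c9, 0xa82a8291a82a82c45]]

noncomputable def n987 : Ent := ⟨e987, noF, [], [], []⟩

def c987 : PLift (Cov.check n987.C.D v987 = true) := ⟨by decide +kernel⟩

def b987 : PLift (entF (fidx ts) 400 987 n987 = true) := ⟨by decide +kernel⟩

theorem g987 : GoodF (fidx ts) 400 987 := GoodF.ofV v987 n987 c987.down b987.down

/-- 464854:825/2 -/
noncomputable def e988 : SCfg where
  D := {
    a := 6
    L := 9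
    kp := 6
    inn := [(0, 1), (1, 0), (1, 2), (1, 3), (2, 1), (3, 1), (3, 4), (3, 5), (4, 3), (5, 3)]
    mix := [(0, 0), (0, 1), (0, 2), (1, 0), (1, 2), (1, 3), (2, 2), (2, 3), (2, 4), (3, 0), (3, 3), (3,
      5), (3, 6), (3, 7), (4, 4), (4, 5), (4, 6), (4, 8), (5, 0), (5, 1), (5, 7)]
    cl := [0, 4, 3, 0, 2, 1, 1, 5, 6]
    chq := [(0, 3), (1, 4), (3, 0), (4, 1)]
    rng := [(0, 1), (1, 0), (1, 2), (1, 7), (2, 1), (2, 4), (3, 4), (3, 5), (4, 2), (4, 3), (4, 5), (4,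
      8), (5, 3), (5, 4), (6, 7), (6, 8), (7, 1), (7, 6), (8, 4), (8, 6)]
    lev := [] }
  links := [[1, 6, 7, 8], [6, 0, 8, 2, 9, 3], [9, 1, 8, 10], [6, 1, 9, 11, 4, 12, 13, 5], [12, 3, 11, 10,
    14], [6, 3, 13, 7]]
  P := {
    a := 6
    N := 15
    nb := [450, 845, 1794, 14962, 23560, 8392, 171, 8545, 1159, 3086, 19220, 1560, 24600, 4264, 5136]
    tri := [(0, 1, 6), (0, 1, 8), (0, 6, 7), (0, 7, 8), (1, 2, 8), (1, 2, 9), (1, 3, 6), (1, 3, 9), (2,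
      8, 10), (2, 9, 10), (3, 4, 11), (3, 4, 12), (3, 5, 6), (3, 5, 13), (3, 9, 11), (3, 12, 13),
      (4, 10, 11), (4, 10, 14), (4, 12, 14), (5, 6, 7), (5, 7, 13)]
    fin := [0, 0, 0, 3, 4, 5, 0, 5, 8, 0, 4, 3, 3, 13, 14]
    chd := [(0, 8), (5, 3)]
    steps := [(0, 1), (0, 2), (0, 6), (0, 9), (3, 11), (3, 12), (4, 10), (5, 7)] }
  rep := [0, 3, 4, 8, 5, 13, 14]

noncomputable def v988 : Cov.CovD where
  P := 3
  N := 4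
  pl := [4, 7, 8]
  lev := [⟨[], [], [(0, 3), (0, 4), (3, 4)], [], [(0, 0, [3]), (1, 4, [1]), (2, 3, [0])]⟩,
    ⟨[], [(0, 0), (0, 3), (0, 4)], [(0, 0), (0, 3)], [], [(0, 0, [3]), (2, 3, [0]), (3, 0,
      [3])]⟩,
    ⟨[(0, 1)], [(0, 3), (1, 0), (1, 3)], [(0, 3)], [2], [(2, 3, [0]), (3, 0, [3])]⟩,
    ⟨[(0, 1), (1, 2)], [(0, 0), (1, 0), (1, 1), (1, 3), (2, 0)], [(0, 0), (0, 1), (1, 1)],
      [5], [(0, 0, [3]), (3, 0, [3]), (5, 1, [4]), (6, 1, [4])]⟩,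
    ⟨[(1, 3)], [(3, 0), (3, 1)], [(1, 1)], [2, 6], [(5, 1, [4]), (6, 1, [4])]⟩,
    ⟨[(1, 3), (3, 4)], [(0, 0), (0, 4), (1, 0), (3, 0), (3, 1), (3, 4)], [(0, 4)], [5],
      [(0, 0, [3]), (1, 4, [1])]⟩]
  Ta := [((0, 1), 0, 4), ((3, 4), 0, 2), ((3, 5), 0, 1), ((5, 3), 1, 0), ((5, 4), 1, 2), ((6, 7),
    1, 5), ((6, 8), 1, 6)]
  Tb := [((1, 0, 2), 4, 0, 3), ((1, 0, 7), 4, 0, 5), ((1, 2, 7), 4, 3, 5), ((2, 1, 4), 3, 4, 2),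
    ((3, 4, 5), 0, 2, 1), ((4, 2, 3), 2, 3, 0), ((4, 2, 5), 2, 3, 1), ((4, 2, 8), 2, 3, 6),
    ((4, 3, 5), 2, 0, 1), ((4, 3, 8), 2, 0, 6), ((4, 5, 8), 2, 1, 6), ((5, 3, 4), 1, 0, 2),
    ((6, 7, 8), 1, 5, 6), ((7, 1, 6), 5, 4, 1), ((8, 4, 6), 6, 2, 1)]
  Tc := []
  Td := [((0, 3), (0, 1), 4), ((0, 3), (3, 4), 2), ((0, 3), (3, 5), 1), ((1, 4), (5, 3), 0), ((1,
    4), (5, 4), 2), ((1, 4), (6, 7), 5), ((1, 4), (6, 8), 6), ((3, 0), (2, 1), 4), ((3, 0),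
    (2, 4), 2), ((4, 1), (1, 0), 0), ((4, 1), (1, 2), 3), ((4, 1), (1, 7), 5)]
  G := [[0, 0, 0, 0x22521c22928c244d22, 0x289229c8229826449482298144942e44942229229c222981ee],
    [0, 0, 0, 0, 0x289a29c82898264494822988229449c1e44948229aa9c1ae], [0,
    0x14882cacacc684cce6ca48844e3, 0x22c4422c8822c22cc2e1, 0x12c225c225225cc22,
    0x2298842298841194242294822982af], [0, 0, 0xaac486ec8426ce2cc2e1, 0,
    0x599339c24e69482a98822982e3]]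

noncomputable def n988 : Ent := ⟨e988, noF, [], [], []⟩

def c988 : PLift (Cov.check n988.C.D v988 = true) := ⟨by decide +kernel⟩

def b988 : PLift (entF (fidx ts) 400 988 n988 = true) := ⟨by decide +kernel⟩

theorem g988 : GoodF (fidx ts) 400 988 := GoodF.ofV v988 n988 c988.down b988.down

/-- 464854:825/1 -/
noncomputable def e989 : SCfg where
  D := {
    a := 6
    L := 10
    kp := 7
    inn := [(0, 1), (1, 0), (1, 2), (1, 3), (2, 1), (3, 1), (3, 4), (3, 5), (4, 3), (5, 3)]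
    mix := [(0, 0), (0, 1), (0, 2), (1, 0), (1, 2), (1, 3), (2, 2), (2, 3), (2, 4), (3, 0), (3, 3), (3,
      5), (3, 6), (3, 7), (4, 5), (4, 6), (4, 8), (4, 9), (5, 0), (5, 1), (5, 7)]
    cl := [0, 3, 1, 0, 5, 2, 2, 4, 6, 7]
    chq := [(0, 1), (1, 0), (2, 3), (3, 2)]
    rng := [(0, 1), (1, 0), (1, 2), (1, 7), (2, 1), (2, 4), (3, 4), (3, 5), (4, 2), (4, 3), (5, 3), (5,
      8), (6, 7), (6, 9), (7, 1), (7, 6), (8, 5), (8, 9), (9, 6), (9, 8)]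
    lev := [] }
  links := [[1, 6, 7, 8], [6, 0, 8, 2, 9, 3], [9, 1, 8, 10], [6, 1, 9, 11, 4, 12, 13, 5], [12, 3, 11, 14,
    15], [6, 3, 13, 7]]
  P := {
    a := 6
    N := 16
    nb := [450, 845, 1794, 14962, 55304, 8392, 171, 8545, 1159, 3086, 772, 16920, 40984, 4264, 34832,
      20496]
    tri := [(0, 1, 6), (0, 1, 8), (0, 6, 7), (0, 7, 8), (1, 2, 8), (1, 2, 9), (1, 3, 6), (1, 3, 9), (2,
      8, 10), (2, 9, 10), (3, 4, 11), (3, 4, 12), (3, 5, 6), (3, 5, 13), (3, 9, 11), (3, 12, 13),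
      (4, 11, 14), (4, 12, 15), (4, 14, 15), (5, 6, 7), (5, 7, 13)]
    fin := [0, 0, 0, 3, 4, 3, 0, 3, 8, 0, 10, 4, 4, 13, 14, 15]
    chd := [(0, 8), (3, 4)]
    steps := [(0, 1), (0, 2), (0, 6), (0, 9), (3, 5), (3, 7), (4, 11), (4, 12)] }
  rep := [0, 8, 4, 3, 13, 10, 14, 15]

noncomputable def v989 : Cov.CovD where
  P := 3
  N := 5
  pl := [4, 7, 8, 9]
  lev := [⟨[], [], [(0, 1), (0, 3), (1, 3)], [], [(0, 0, [1]), (1, 3, [2]), (2, 1, [0])]⟩,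
    ⟨[], [(0, 0), (0, 1), (0, 3)], [(0, 0), (0, 1)], [], [(0, 0, [1]), (2, 1, [0]), (3, 0,
      [1])]⟩,
    ⟨[(0, 1)], [(0, 1), (1, 0), (1, 1)], [(0, 1)], [5], [(2, 1, [0]), (3, 0, [1])]⟩,
    ⟨[(0, 1), (1, 2)], [(0, 0), (1, 0), (1, 1), (1, 2), (2, 0)], [(0, 0), (0, 2), (2, 2)],
      [4], [(0, 0, [1]), (3, 0, [1]), (5, 2, [3]), (6, 2, [3])]⟩,
    ⟨[(1, 3)], [(3, 0), (3, 2)], [(2, 2)], [6, 7], [(5, 2, [3]), (6, 2, [3])]⟩,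
    ⟨[(1, 3), (3, 4)], [(0, 0), (0, 3), (1, 0), (3, 0), (3, 2), (3, 3)], [(0, 3)], [4],
      [(0, 0, [1]), (1, 3, [2])]⟩]
  Ta := [((0, 1), 0, 3), ((3, 4), 0, 5), ((3, 5), 0, 2), ((5, 3), 2, 0), ((5, 8), 2, 6), ((6, 7),
    2, 4), ((6, 9), 2, 7)]
  Tb := [((1, 0, 2), 3, 0, 1), ((1, 0, 7), 3, 0, 4), ((1, 2, 7), 3, 1, 4), ((2, 1, 4), 1, 3, 5),
    ((3, 4, 5), 0, 5, 2), ((4, 2, 3), 5, 1, 0), ((5, 3, 8), 2, 0, 6), ((6, 7, 9), 2, 4, 7),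
    ((7, 1, 6), 4, 3, 2), ((8, 5, 9), 6, 2, 7), ((9, 6, 8), 7, 2, 6)]
  Tc := []
  Td := [((0, 1), (0, 1), 3), ((0, 1), (3, 4), 5), ((0, 1), (3, 5), 2), ((1, 0), (2, 1), 3), ((1,
    0), (2, 4), 5), ((2, 3), (5, 3), 0), ((2, 3), (5, 8), 6), ((2, 3), (6, 7), 4), ((2, 3),
    (6, 9), 7), ((3, 2), (1, 0), 0), ((3, 2), (1, 2), 1), ((3, 2), (1, 7), 4)]
  G := [[0, 0x775611dc1156b6dc6188188ac2, 0, 0x222d41288d81c225222dc12881cc,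
    0x488b244ba14444b444ba14c], [0, 0x4494221442b1d4a1a1db39c119d8cc6, 0,
    0xa22d41288d81c625424dc12881cc, 0x488bc44ba14464b242ba14c], [0,
    0x116b6dc1356b5dc618811c8cc2, 0x116126144c8c8aeaa8e622c8eeaa8eec85,
    0x222d4225222dcc222d8288cc1, 0x444b2443444bac444b8488cc1], [0,
    0x24422144195d4c7aad8511d339cac6, 0, 0xe22d4665eaadcc2eed8288cc1,
    0x116b28844cb84e4be4ebac45]]

noncomputable def n989 : Ent := ⟨e989, noF, [], [], [(10, 14, [385746751338780685620664494392815470296102193487288376376541185, 0])]⟩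

def c989 : PLift (Cov.check n989.C.D v989 = true) := ⟨by decide +kernel⟩

def b989 : PLift (entF (fidx ts) 400 989 n989 = true) := ⟨by decide +kernel⟩

theorem g989 : GoodF (fidx ts) 400 989 := GoodF.ofV v989 n989 c989.down b989.down

/-- 464854:825/3 -/
noncomputable def e990 : SCfg where
  D := {
    a := 6
    L := 10
    kp := 7
    inn := [(0, 1), (1, 0), (1, 2), (1, 3), (2, 1), (3, 1), (3, 4), (3, 5), (4, 3), (5, 3)]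
    mix := [(0, 0), (0, 1), (0, 2), (1, 0), (1, 2), (1, 3), (2, 2), (2, 3), (2, 4), (3, 0), (3, 3), (3,
      5), (3, 6), (3, 7), (4, 4), (4, 5), (4, 6), (4, 8), (5, 0), (5, 7), (5, 9)]
    cl := [0, 6, 3, 0, 2, 1, 1, 4, 7, 5]
    chq := [(0, 3), (1, 5), (3, 0), (5, 1)]
    rng := [(0, 1), (0, 9), (1, 0), (1, 2), (2, 1), (2, 4), (3, 4), (3, 5), (4, 2), (4, 3), (4, 5), (4,
      8), (5, 3), (5, 4), (6, 7), (6, 8), (7, 6), (7, 9), (8, 4), (8, 6), (9, 0), (9, 7)]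
    lev := [] }
  links := [[1, 6, 7, 8], [6, 0, 8, 2, 9, 3], [9, 1, 8, 10], [6, 1, 9, 11, 4, 12, 13, 5], [12, 3, 11, 10,
    14], [6, 3, 13, 15]]
  P := {
    a := 6
    N := 16
    nb := [450, 845, 1794, 14962, 23560, 41032, 32939, 321, 1159, 3086, 19220, 1560, 24600, 36904,
      5136, 8288]
    tri := [(0, 1, 6), (0, 1, 8), (0, 6, 7), (0, 7, 8), (1, 2, 8), (1, 2, 9), (1, 3, 6), (1, 3, 9), (2,
      8, 10), (2, 9, 10), (3, 4, 11), (3, 4, 12), (3, 5, 6), (3, 5, 13), (3, 9, 11), (3, 12, 13),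
      (4, 10, 11), (4, 10, 14), (4, 12, 14), (5, 6, 15), (5, 13, 15)]
    fin := [0, 0, 0, 3, 4, 3, 0, 7, 8, 0, 4, 3, 3, 13, 14, 15]
    chd := [(0, 8), (3, 15)]
    steps := [(0, 1), (0, 2), (0, 6), (0, 9), (3, 5), (3, 11), (3, 12), (4, 10)] }
  rep := [0, 3, 4, 8, 13, 15, 7, 14]

noncomputable def v990 : Cov.CovD where
  P := 3
  N := 5
  pl := [1, 4, 7, 8]
  lev := [⟨[], [], [(0, 3)], [6], [(0, 0, [3]), (2, 3, [0])]⟩,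
    ⟨[], [(0, 0), (0, 3)], [(0, 0), (0, 3)], [], [(0, 0, [3]), (2, 3, [0]), (3, 0, [3])]⟩,
    ⟨[(0, 1)], [(0, 3), (1, 0), (1, 3)], [(0, 3)], [2], [(2, 3, [0]), (3, 0, [3])]⟩,
    ⟨[(0, 1), (1, 2)], [(0, 0), (1, 0), (1, 1), (1, 3), (2, 0)], [(0, 0), (0, 1), (1, 1)],
      [4], [(0, 0, [3]), (3, 0, [3]), (5, 1, [5]), (6, 1, [5])]⟩,
    ⟨[(1, 3)], [(3, 0), (3, 1)], [(1, 1)], [2, 7], [(5, 1, [5]), (6, 1, [5])]⟩,
    ⟨[(1, 3), (3, 4)], [(0, 0), (1, 0), (3, 0), (3, 1), (3, 5)], [(0, 5)], [4], [(0, 0,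
      [3]), (9, 5, [1])]⟩]
  Ta := [((0, 1), 0, 6), ((0, 9), 0, 5), ((3, 4), 0, 2), ((3, 5), 0, 1), ((5, 3), 1, 0), ((5, 4),
    1, 2), ((6, 7), 1, 4), ((6, 8), 1, 7)]
  Tb := [((0, 1, 9), 0, 6, 5), ((1, 0, 2), 6, 0, 3), ((2, 1, 4), 3, 6, 2), ((3, 4, 5), 0, 2, 1),
    ((4, 2, 3), 2, 3, 0), ((4, 2, 5), 2, 3, 1), ((4, 2, 8), 2, 3, 7), ((4, 3, 5), 2, 0, 1),
    ((4, 3, 8), 2, 0, 7), ((4, 5, 8), 2, 1, 7), ((5, 3, 4), 1, 0, 2), ((6, 7, 8), 1, 4, 7),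
    ((7, 6, 9), 4, 1, 5), ((8, 4, 6), 7, 2, 1), ((9, 0, 7), 5, 0, 4)]
  Tc := []
  Td := [((0, 3), (0, 1), 6), ((0, 3), (0, 9), 5), ((0, 3), (3, 4), 2), ((0, 3), (3, 5), 1), ((1,
    5), (5, 3), 0), ((1, 5), (5, 4), 2), ((1, 5), (6, 7), 4), ((1, 5), (6, 8), 7), ((3, 0),
    (2, 1), 6), ((3, 0), (2, 4), 2), ((5, 1), (9, 0), 0), ((5, 1), (9, 7), 4)]
  G := [[0, 0, 0, 0x225229c8222c229c42225225c12e,
    0x229229c8229229c262294822982298922942e229229c12e], [0, 0, 0, 0,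
    0x6e9a29c8269ea9c26a69486a981119a69c2e6a9a69c12e], [0, 0xc8caec68c4a6ca4448c84ce1,
    0x22c4822c8422c22cc2e1, 0x22c229c8221c4822984c2258229229cc2b,
    0x229229c842294822988c229229c22d], [0, 0, 0xeac4826c842ece2cc2e1, 0,
    0x129219c8422988119426ee948669aa9c2ad]]

noncomputable def n990 : Ent := ⟨e990, noF, [], [], [(7, 15, [360035742630636841211993100915356868655746945586763691011719169, 0])]⟩

def c990 : PLift (Cov.check n990.C.D v990 = true) := ⟨by decide +kernel⟩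

def b990 : PLift (entF (fidx ts) 400 990 n990 = true) := ⟨by decide +kernel⟩

theorem g990 : GoodF (fidx ts) 400 990 := GoodF.ofV v990 n990 c990.down b990.down

/-- 464854:825 -/
noncomputable def e991 : SCfg where
  D := {
    a := 6
    L := 11
    kp := 8
    inn := [(0, 1), (1, 0), (1, 2), (1, 3), (2, 1), (3, 1), (3, 4), (3, 5), (4, 3), (5, 3)]
    mix := [(0, 0), (0, 1), (0, 2), (1, 0), (1, 2), (1, 3), (2, 2), (2, 3), (2, 4), (3, 0), (3, 3), (3,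
      5), (3, 6), (3, 7), (4, 5), (4, 6), (4, 8), (4, 9), (5, 0), (5, 7), (5, 10)]
    cl := [0, 5, 1, 0, 6, 2, 2, 3, 7, 8, 4]
    chq := [(0, 1), (1, 0), (2, 4), (4, 2)]
    rng := [(0, 1), (0, 10), (1, 0), (1, 2), (2, 1), (2, 4), (3, 4), (3, 5), (4, 2), (4, 3), (5, 3),
      (5, 8), (6, 7), (6, 9), (7, 6), (7, 10), (8, 5), (8, 9), (9, 6), (9, 8), (10, 0), (10, 7)]
    lev := [] }
  links := [[1, 6, 7, 8], [6, 0, 8, 2, 9, 3], [9, 1, 8, 10], [6, 1, 9, 11, 4, 12, 13, 5], [12, 3, 11, 14,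
    15], [6, 3, 13, 16]]
  P := {
    a := 6
    N := 17
    nb := [450, 845, 1794, 14962, 55304, 73800, 65707, 321, 1159, 3086, 772, 16920, 40984, 69672,
      34832, 20496, 8288]
    tri := [(0, 1, 6), (0, 1, 8), (0, 6, 7), (0, 7, 8), (1, 2, 8), (1, 2, 9), (1, 3, 6), (1, 3, 9), (2,
      8, 10), (2, 9, 10), (3, 4, 11), (3, 4, 12), (3, 5, 6), (3, 5, 13), (3, 9, 11), (3, 12, 13),
      (4, 11, 14), (4, 12, 15), (4, 14, 15), (5, 6, 16), (5, 13, 16)]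
    fin := [0, 0, 0, 3, 3, 3, 0, 7, 8, 0, 10, 3, 3, 13, 14, 15, 16]
    chd := [(0, 8), (3, 16)]
    steps := [(0, 1), (0, 2), (0, 6), (0, 9), (3, 4), (3, 5), (3, 11), (3, 12)] }
  rep := [0, 8, 3, 13, 16, 7, 10, 14, 15]

noncomputable def v991 : Cov.CovD where
  P := 3
  N := 6
  pl := [1, 4, 7, 8, 9]
  lev := [⟨[], [], [(0, 1)], [5], [(0, 0, [1]), (2, 1, [0])]⟩,
    ⟨[], [(0, 0), (0, 1)], [(0, 0), (0, 1)], [], [(0, 0, [1]), (2, 1, [0]), (3, 0, [1])]⟩,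
    ⟨[(0, 1)], [(0, 1), (1, 0), (1, 1)], [(0, 1)], [6], [(2, 1, [0]), (3, 0, [1])]⟩,
    ⟨[(0, 1), (1, 2)], [(0, 0), (1, 0), (1, 1), (1, 2), (2, 0)], [(0, 0), (0, 2), (2, 2)],
      [3], [(0, 0, [1]), (3, 0, [1]), (5, 2, [4]), (6, 2, [4])]⟩,
    ⟨[(1, 3)], [(3, 0), (3, 2)], [(2, 2)], [7, 8], [(5, 2, [4]), (6, 2, [4])]⟩,
    ⟨[(1, 3), (3, 4)], [(0, 0), (1, 0), (3, 0), (3, 2), (3, 4)], [(0, 4)], [3], [(0, 0,
      [1]), (10, 4, [2])]⟩]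
  Ta := [((0, 1), 0, 5), ((0, 10), 0, 4), ((3, 4), 0, 6), ((3, 5), 0, 2), ((5, 3), 2, 0), ((5,
    8), 2, 7), ((6, 7), 2, 3), ((6, 9), 2, 8)]
  Tb := [((0, 1, 10), 0, 5, 4), ((1, 0, 2), 5, 0, 1), ((2, 1, 4), 1, 5, 6), ((3, 4, 5), 0, 6, 2),
    ((4, 2, 3), 6, 1, 0), ((5, 3, 8), 2, 0, 7), ((6, 7, 9), 2, 3, 8), ((7, 6, 10), 3, 2, 4),
    ((8, 5, 9), 7, 2, 8), ((9, 6, 8), 8, 2, 7), ((10, 0, 7), 4, 0, 3)]
  Tc := []
  Td := [((0, 1), (0, 1), 5), ((0, 1), (0, 10), 4), ((0, 1), (3, 4), 6), ((0, 1), (3, 5), 2),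
    ((1, 0), (2, 1), 5), ((1, 0), (2, 4), 6), ((2, 4), (5, 3), 0), ((2, 4), (5, 8), 7), ((2,
    4), (6, 7), 3), ((2, 4), (6, 9), 8), ((4, 2), (10, 0), 0), ((4, 2), (10, 7), 3)]
  G := [[0, 0x122d212dc82222d121dc421442122d229c2ce, 0, 0x222d41222d81c21222dc122c81cc,
    0x444b444ba14444b444ba14c], [0, 0x129211dc12c28ca212c8229111dca2284115225cc8e, 0,
    0xe26d412ead81ca26d416ead81cc, 0x46cbec6ba14cceb21664b81cc], [0,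
    0x18222dc222d8a2225222dc482442122d82882294ece, 0xc6aa6c6c6a4cca68ca6a6cacc1,
    0x222d421222dcc222d822c8cc1, 0x444b444ba444b444bac41], [0,
    0x222d119c214426212d121dc82212d121dc42e, 0, 0xe26d4a26d4c2ead86ead8cc1,
    0x4eebe44ba4ecbe46bac41]]

noncomputable def n991 : Ent := ⟨e991, noF, [], [], [(7, 16, [1580044410770988437309982408355971841652082177953823432505693163521, 0]), (10, 14, [1685382413448253767852309107433119732572617628602273068445368967169, 0])]⟩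

def c991 : PLift (Cov.check n991.C.D v991 = true) := ⟨by decide +kernel⟩

def b991 : PLift (entF (fidx ts) 400 991 n991 = true) := ⟨by decide +kernel⟩

theorem g991 : GoodF (fidx ts) 400 991 := GoodF.ofV v991 n991 c991.down b991.down

/-- 464845:826/1 -/
noncomputable def e992 : SCfg where
  D := {
    a := 6
    L := 10
    kp := 7
    inn := [(0, 1), (1, 0), (1, 2), (1, 3), (2, 1), (3, 1), (3, 4), (3, 5), (4, 3), (5, 3)]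
    mix := [(0, 0), (0, 1), (0, 2), (1, 0), (1, 2), (1, 3), (2, 2), (2, 3), (2, 4), (3, 0), (3, 3), (3,
      5), (3, 6), (3, 7), (4, 3), (4, 4), (4, 5), (5, 5), (5, 6), (5, 8), (5, 9)]
    cl := [0, 5, 1, 0, 2, 3, 3, 4, 6, 7]
    chq := [(0, 1), (1, 0), (2, 4), (4, 2)]
    rng := [(0, 1), (0, 7), (1, 0), (1, 2), (2, 1), (2, 4), (3, 4), (4, 2), (4, 3), (4, 5), (5, 4), (5,
      8), (6, 7), (6, 9), (7, 0), (7, 6), (8, 5), (8, 9), (9, 6), (9, 8)]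
    lev := [] }
  links := [[1, 6, 7, 8], [6, 0, 8, 2, 9, 3], [9, 1, 8, 10], [6, 1, 9, 4, 11, 5, 12, 13], [11, 3, 9, 10],
    [12, 3, 11, 14, 15]]
  P := {
    a := 6
    N := 16
    nb := [450, 845, 1794, 14962, 3592, 55304, 8331, 321, 1159, 1054, 2836, 17464, 41000, 4168, 34848,
      20512]
    tri := [(0, 1, 6), (0, 1, 8), (0, 6, 7), (0, 7, 8), (1, 2, 8), (1, 2, 9), (1, 3, 6), (1, 3, 9), (2,
      8, 10), (2, 9, 10), (3, 4, 9), (3, 4, 11), (3, 5, 11), (3, 5, 12), (3, 6, 13), (3, 12, 13),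
      (4, 9, 10), (4, 10, 11), (5, 11, 14), (5, 12, 15), (5, 14, 15)]
    fin := [0, 0, 0, 3, 3, 5, 0, 7, 8, 0, 3, 5, 5, 13, 14, 15]
    chd := [(0, 8), (3, 13)]
    steps := [(0, 1), (0, 2), (0, 6), (0, 9), (3, 4), (3, 10), (5, 11), (5, 12)] }
  rep := [0, 8, 3, 5, 13, 7, 14, 15]

noncomputable def v992 : Cov.CovD where
  P := 3
  N := 5
  pl := [1, 8, 9]
  lev := [⟨[], [], [(0, 1)], [5], [(0, 0, [1]), (2, 1, [0])]⟩,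
    ⟨[], [(0, 0), (0, 1)], [(0, 0), (0, 1)], [], [(0, 0, [1]), (2, 1, [0]), (3, 0, [1])]⟩,
    ⟨[(0, 1)], [(0, 1), (1, 0), (1, 1), (1, 2)], [(0, 1), (0, 2), (1, 2)], [], [(2, 1,
      [0]), (3, 0, [1]), (4, 2, [4])]⟩,
    ⟨[(0, 1), (1, 2)], [(0, 0), (1, 0), (1, 1), (1, 3), (1, 4), (2, 0)], [(0, 0), (0, 3),
      (0, 4), (3, 3), (3, 4)], [], [(0, 0, [1]), (3, 0, [1]), (5, 3, []), (6, 3, []), (7, 4,
      [2])]⟩,
    ⟨[(1, 3)], [(1, 0), (2, 0), (2, 2), (3, 0), (3, 2), (3, 3), (3, 4)], [(0, 2), (0, 3),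
      (2, 3)], [], [(3, 0, [1]), (4, 2, [4]), (5, 3, [])]⟩,
    ⟨[(1, 3), (3, 4)], [(3, 0), (3, 3), (3, 4), (4, 3)], [(3, 3)], [6, 7], [(5, 3, []), (6,
      3, [])]⟩]
  Ta := [((0, 1), 0, 5), ((0, 7), 0, 4), ((3, 4), 0, 2), ((5, 4), 3, 2), ((5, 8), 3, 6), ((6, 7),
    3, 4), ((6, 9), 3, 7)]
  Tb := [((0, 1, 7), 0, 5, 4), ((1, 0, 2), 5, 0, 1), ((2, 1, 4), 1, 5, 2), ((4, 2, 3), 2, 1, 0),
    ((4, 2, 5), 2, 1, 3), ((4, 3, 5), 2, 0, 3), ((5, 4, 8), 3, 2, 6), ((6, 7, 9), 3, 4, 7),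
    ((7, 0, 6), 4, 0, 3), ((8, 5, 9), 6, 3, 7), ((9, 6, 8), 7, 3, 6)]
  Tc := []
  Td := [((0, 1), (0, 1), 5), ((0, 1), (0, 7), 4), ((0, 1), (3, 4), 2), ((1, 0), (2, 1), 5), ((1,
    0), (2, 4), 2), ((2, 4), (4, 2), 1), ((2, 4), (4, 3), 0), ((2, 4), (4, 5), 3), ((4, 2),
    (7, 0), 0), ((4, 2), (7, 6), 3)]
  G := [[0, 0xf1482d3b7ca8cb45e796718c8488c6, 0, 0xe79248b7c248c,
    0xd7aa5a614ba88cd7ad236878a81cc], [0, 0x24f8a284642221e15e48a, 0, 0xf8244f8284c,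
    0xf8414844a8c42f844e18c], [0, 0x492ee79648f1882f29f1682dc88ae, 0xc34e22de6858ae84c1,
    0xb7c2841, 0xd7a484b6b4ca8c1], [0, 0x2828f8e84244428f4a8cc, 0xf8f864f484c1, 0xf42481,
    0xf8486428c81]]

noncomputable def n992 : Ent := ⟨e992, noF, [], [], []⟩

def c992 : PLift (Cov.check n992.C.D v992 = true) := ⟨by decide +kernel⟩

def b992 : PLift (entF (fidx ts) 400 992 n992 = true) := ⟨by decide +kernel⟩

theorem g992 : GoodF (fidx ts) 400 992 := GoodF.ofV v992 n992 c992.down b992.down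

/-- 464845:826 -/
noncomputable def e993 : SCfg where
  D := {
    a := 6
    L := 11
    kp := 8
    inn := [(0, 1), (1, 0), (1, 2), (1, 3), (2, 1), (3, 1), (3, 4), (3, 5), (4, 3), (5, 3)]
    mix := [(0, 0), (0, 1), (0, 2), (1, 0), (1, 2), (1, 3), (2, 2), (2, 3), (2, 4), (3, 0), (3, 3), (3,
      5), (3, 6), (3, 7), (4, 3), (4, 5), (4, 8), (5, 5), (5, 6), (5, 9), (5, 10)]
    cl := [0, 5, 1, 0, 6, 3, 3, 2, 4, 7, 8]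
    chq := [(0, 1), (1, 0), (2, 4), (4, 2)]
    rng := [(0, 1), (0, 7), (1, 0), (1, 2), (2, 1), (2, 4), (3, 4), (3, 8), (4, 2), (4, 3), (5, 8), (5,
      9), (6, 7), (6, 10), (7, 0), (7, 6), (8, 3), (8, 5), (9, 5), (9, 10), (10, 6), (10, 9)]
    lev := [] }
  links := [[1, 6, 7, 8], [6, 0, 8, 2, 9, 3], [9, 1, 8, 10], [6, 1, 9, 4, 11, 5, 12, 13], [11, 3, 9, 14],
    [12, 3, 11, 15, 16]]
  P := {
    a := 6
    N := 17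
    nb := [450, 845, 1794, 14962, 18952, 104456, 8331, 321, 1159, 17438, 772, 49208, 73768, 4168,
      2576, 67616, 36896]
    tri := [(0, 1, 6), (0, 1, 8), (0, 6, 7), (0, 7, 8), (1, 2, 8), (1, 2, 9), (1, 3, 6), (1, 3, 9), (2,
      8, 10), (2, 9, 10), (3, 4, 9), (3, 4, 11), (3, 5, 11), (3, 5, 12), (3, 6, 13), (3, 12, 13),
      (4, 9, 14), (4, 11, 14), (5, 11, 15), (5, 12, 16), (5, 15, 16)]
    fin := [0, 0, 0, 3, 3, 5, 0, 7, 8, 0, 10, 5, 5, 13, 3, 15, 16]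
    chd := [(0, 8), (13, 3)]
    steps := [(0, 1), (0, 2), (0, 6), (0, 9), (3, 4), (3, 14), (5, 11), (5, 12)] }
  rep := [0, 8, 13, 5, 3, 7, 10, 15, 16]

noncomputable def v993 : Cov.CovD where
  P := 3
  N := 6
  pl := [1, 4, 9, 10]
  lev := [⟨[], [], [(0, 1)], [5], [(0, 0, [1]), (2, 1, [0])]⟩,
    ⟨[], [(0, 0), (0, 1)], [(0, 0), (0, 1)], [], [(0, 0, [1]), (2, 1, [0]), (3, 0, [1])]⟩,
    ⟨[(0, 1)], [(0, 1), (1, 0), (1, 1)], [(0, 1)], [6], [(2, 1, [0]), (3, 0, [1])]⟩,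
    ⟨[(0, 1), (1, 2)], [(0, 0), (1, 0), (1, 1), (1, 2), (1, 3), (2, 0)], [(0, 0), (0, 2),
      (0, 3), (2, 3), (3, 3)], [], [(0, 0, [1]), (3, 0, [1]), (5, 3, []), (6, 3, []), (7, 2,
      [4])]⟩,
    ⟨[(1, 3)], [(1, 0), (2, 0), (3, 0), (3, 2), (3, 3), (3, 4)], [(0, 3), (0, 4), (3, 4)],
      [], [(3, 0, [1]), (5, 3, []), (8, 4, [2])]⟩,
    ⟨[(1, 3), (3, 4)], [(3, 0), (3, 2), (3, 3), (4, 3)], [(3, 3)], [7, 8], [(5, 3, []), (6,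
      3, [])]⟩]
  Ta := [((0, 1), 0, 5), ((0, 7), 0, 2), ((3, 4), 0, 6), ((3, 8), 0, 4), ((5, 8), 3, 4), ((5, 9),
    3, 7), ((6, 7), 3, 2), ((6, 10), 3, 8)]
  Tb := [((0, 1, 7), 0, 5, 2), ((1, 0, 2), 5, 0, 1), ((2, 1, 4), 1, 5, 6), ((3, 4, 8), 0, 6, 4),
    ((4, 2, 3), 6, 1, 0), ((5, 8, 9), 3, 4, 7), ((6, 7, 10), 3, 2, 8), ((7, 0, 6), 2, 0, 3),
    ((8, 3, 5), 4, 0, 3), ((9, 5, 10), 7, 3, 8), ((10, 6, 9), 8, 3, 7)]
  Tc := []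
  Td := [((0, 1), (0, 1), 5), ((0, 1), (0, 7), 2), ((0, 1), (3, 4), 6), ((0, 1), (3, 8), 4), ((1,
    0), (2, 1), 5), ((1, 0), (2, 4), 6), ((2, 4), (7, 0), 0), ((2, 4), (7, 6), 3), ((4, 2),
    (8, 3), 0), ((4, 2), (8, 5), 3)]
  G := [[0, 0x724b272c62b2884724724ab284ae, 0xf13141ed171ac4d1b16d1b16c8c,
    0x7241b281c7241b281cc, 0xd474a14d474a14c], [0, 0x724f2862f2872462b278c82e,
    0xf2f8a14f2f4618c, 0x7241b281c7241b281cc, 0xd474a14d474a14c], [0,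
    0xf271cb272c62b272cb272cc26, 0, 0x724724cb28b28cc1, 0xd474ad474ac41], [0,
    0xb232cf28a4424724a2b242cb271cc2e, 0, 0x724724cb28b28cc1, 0xd474ad474ac41]]

noncomputable def n993 : Ent := ⟨e993, noF, [], [], [(10, 14, [1685382413448253767852309107433119732572617628602273068445368975361, 0])]⟩

def c993 : PLift (Cov.check n993.C.D v993 = true) := ⟨by decide +kernel⟩

def b993 : PLift (entF (fidx ts) 400 993 n993 = true) := ⟨by decide +kernel⟩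

theorem g993 : GoodF (fidx ts) 400 993 := GoodF.ofV v993 n993 c993.down b993.down

/-- 464845:827/2 -/
noncomputable def e994 : SCfg where
  D := {
    a := 6
    L := 9
    kp := 6
    inn := [(0, 1), (1, 0), (1, 2), (1, 3), (2, 1), (3, 1), (3, 4), (3, 5), (4, 3), (5, 3)]
    mix := [(0, 0), (0, 1), (0, 2), (1, 0), (1, 2), (1, 3), (2, 2), (2, 3), (2, 4), (3, 0), (3, 3), (3,
      5), (3, 6), (3, 7), (4, 3), (4, 4), (4, 5), (5, 0), (5, 1), (5, 7), (5, 8)]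
    cl := [0, 3, 1, 0, 2, 4, 5, 0, 6]
    chq := [(0, 1), (1, 0), (2, 5), (5, 2)]
    rng := [(0, 1), (1, 0), (1, 2), (1, 8), (2, 1), (2, 4), (3, 4), (4, 2), (4, 3), (4, 5), (5, 4), (5,
      6), (6, 5), (6, 7), (7, 6), (7, 8), (8, 1), (8, 7)]
    lev := [] }
  links := [[1, 6, 7, 8], [6, 0, 8, 2, 9, 3], [9, 1, 8, 10], [6, 1, 9, 4, 11, 12, 13, 5], [11, 3, 9, 10],
    [6, 3, 13, 14, 7]]
  P := {
    a := 6
    N := 15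
    nb := [450, 845, 1794, 14962, 3592, 24776, 171, 16737, 1159, 1054, 2836, 5144, 10248, 20520, 8352]
    tri := [(0, 1, 6), (0, 1, 8), (0, 6, 7), (0, 7, 8), (1, 2, 8), (1, 2, 9), (1, 3, 6), (1, 3, 9), (2,
      8, 10), (2, 9, 10), (3, 4, 9), (3, 4, 11), (3, 5, 6), (3, 5, 13), (3, 11, 12), (3, 12, 13),
      (4, 9, 10), (4, 10, 11), (5, 6, 7), (5, 7, 14), (5, 13, 14)]
    fin := [0, 0, 0, 3, 3, 0, 0, 7, 8, 0, 3, 11, 12, 0, 14]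
    chd := [(0, 8), (3, 12)]
    steps := [(0, 1), (0, 2), (0, 6), (0, 5), (0, 9), (0, 13), (3, 4), (3, 10)] }
  rep := [0, 8, 3, 7, 11, 12, 14]

noncomputable def v994 : Cov.CovD where
  P := 3
  N := 4
  pl := [1, 5, 8]
  lev := [⟨[], [], [(0, 1)], [3], [(0, 0, [1]), (2, 1, [0])]⟩,
    ⟨[], [(0, 0), (0, 1)], [(0, 0), (0, 1)], [], [(0, 0, [1]), (2, 1, [0]), (3, 0, [1])]⟩,
    ⟨[(0, 1)], [(0, 1), (1, 0), (1, 1), (1, 2)], [(0, 1), (0, 2), (1, 2)], [], [(2, 1,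
      [0]), (3, 0, [1]), (4, 2, [5])]⟩,
    ⟨[(0, 1), (1, 2)], [(0, 0), (1, 0), (1, 1), (1, 5), (2, 0)], [(0, 0), (0, 5)], [4],
      [(0, 0, [1]), (3, 0, [1]), (6, 5, [2]), (7, 0, [1])]⟩,
    ⟨[(1, 3)], [(1, 0), (2, 0), (2, 2), (3, 0), (3, 2), (3, 5)], [(0, 2)], [4], [(3, 0,
      [1]), (4, 2, [5])]⟩,
    ⟨[(1, 3), (3, 4)], [(0, 0), (1, 0), (3, 0), (3, 5)], [(0, 0)], [3, 6], [(0, 0, [1]),
      (7, 0, [1])]⟩]
  Ta := [((0, 1), 0, 3), ((3, 4), 0, 2), ((7, 6), 0, 5), ((7, 8), 0, 6)]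
  Tb := [((1, 0, 2), 3, 0, 1), ((1, 0, 8), 3, 0, 6), ((1, 2, 8), 3, 1, 6), ((2, 1, 4), 1, 3, 2),
    ((4, 2, 3), 2, 1, 0), ((4, 2, 5), 2, 1, 4), ((4, 3, 5), 2, 0, 4), ((5, 4, 6), 4, 2, 5),
    ((6, 5, 7), 5, 4, 0), ((7, 6, 8), 0, 5, 6), ((8, 1, 7), 6, 3, 0)]
  Tc := []
  Td := [((0, 1), (0, 1), 3), ((0, 1), (3, 4), 2), ((0, 1), (7, 6), 5), ((0, 1), (7, 8), 6), ((1,
    0), (2, 1), 3), ((1, 0), (2, 4), 2), ((2, 5), (4, 2), 1), ((2, 5), (4, 3), 0), ((2, 5),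
    (4, 5), 4), ((5, 2), (6, 5), 4), ((5, 2), (6, 7), 0)]
  G := [[0, 0xa1aac648c461a842c44628c844e, 0, 0xaac218665284c, 0xaaaa86128a81c61486824aa8cc],
    [0, 0xc148c1ccca8ca12428ca4c466, 0x4a4e48688e22cea8c1, 0xeec2441, 0xeeaa4a6868a88c1], [0,
    0x2898c5a4468c8c82a461688e, 0, 0xee92881, 0xe14868aa4aa8c1]]

noncomputable def n994 : Ent := ⟨e994, noF, [], [], []⟩

def c994 : PLift (Cov.check n994.C.D v994 = true) := ⟨by decide +kernel⟩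

def b994 : PLift (entF (fidx ts) 400 994 n994 = true) := ⟨by decide +kernel⟩

theorem g994 : GoodF (fidx ts) 400 994 := GoodF.ofV v994 n994 c994.down b994.down

/-- 464845:827/1 -/
noncomputable def e995 : SCfg where
  D := {
    a := 6
    L := 10
    kp := 7
    inn := [(0, 1), (1, 0), (1, 2), (1, 3), (2, 1), (3, 1), (3, 4), (3, 5), (4, 3), (5, 3)]
    mix := [(0, 0), (0, 1), (0, 2), (1, 0), (1, 2), (1, 3), (2, 2), (2, 3), (2, 4), (3, 0), (3, 3), (3,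
      5), (3, 6), (3, 7), (4, 3), (4, 5), (4, 8), (5, 0), (5, 1), (5, 7), (5, 9)]
    cl := [0, 2, 1, 0, 6, 3, 4, 0, 5, 7]
    chq := [(0, 1), (1, 0), (4, 5), (5, 4)]
    rng := [(0, 1), (1, 0), (1, 2), (1, 9), (2, 1), (2, 4), (3, 4), (3, 8), (4, 2), (4, 3), (5, 6), (5,
      8), (6, 5), (6, 7), (7, 6), (7, 9), (8, 3), (8, 5), (9, 1), (9, 7)]
    lev := [] }
  links := [[1, 6, 7, 8], [6, 0, 8, 2, 9, 3], [9, 1, 8, 10], [6, 1, 9, 4, 11, 12, 13, 5], [11, 3, 9, 14],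
    [6, 3, 13, 15, 7]]
  P := {
    a := 6
    N := 16
    nb := [450, 845, 1794, 14962, 18952, 41160, 171, 33121, 1159, 17438, 772, 20504, 10248, 36904,
      2576, 8352]
    tri := [(0, 1, 6), (0, 1, 8), (0, 6, 7), (0, 7, 8), (1, 2, 8), (1, 2, 9), (1, 3, 6), (1, 3, 9), (2,
      8, 10), (2, 9, 10), (3, 4, 9), (3, 4, 11), (3, 5, 6), (3, 5, 13), (3, 11, 12), (3, 12, 13),
      (4, 9, 14), (4, 11, 14), (5, 6, 7), (5, 7, 15), (5, 13, 15)]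
    fin := [0, 0, 0, 3, 3, 0, 0, 7, 8, 0, 10, 11, 12, 0, 3, 15]
    chd := [(0, 8), (12, 3)]
    steps := [(0, 1), (0, 2), (0, 6), (0, 5), (0, 9), (0, 13), (3, 4), (3, 14)] }
  rep := [0, 8, 7, 11, 12, 3, 10, 15]

noncomputable def v995 : Cov.CovD where
  P := 3
  N := 5
  pl := [1, 4, 5, 9]
  lev := [⟨[], [], [(0, 1)], [2], [(0, 0, [1]), (2, 1, [0])]⟩,
    ⟨[], [(0, 0), (0, 1)], [(0, 0), (0, 1)], [], [(0, 0, [1]), (2, 1, [0]), (3, 0, [1])]⟩,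
    ⟨[(0, 1)], [(0, 1), (1, 0), (1, 1)], [(0, 1)], [6], [(2, 1, [0]), (3, 0, [1])]⟩,
    ⟨[(0, 1), (1, 2)], [(0, 0), (1, 0), (1, 1), (1, 4), (2, 0)], [(0, 0), (0, 4)], [3],
      [(0, 0, [1]), (3, 0, [1]), (6, 4, [5]), (7, 0, [1])]⟩,
    ⟨[(1, 3)], [(1, 0), (2, 0), (3, 0), (3, 4), (3, 5)], [(0, 5)], [3], [(3, 0, [1]), (8,
      5, [4])]⟩,
    ⟨[(1, 3), (3, 4)], [(0, 0), (1, 0), (3, 0), (3, 4)], [(0, 0)], [2, 7], [(0, 0, [1]),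
      (7, 0, [1])]⟩]
  Ta := [((0, 1), 0, 2), ((3, 4), 0, 6), ((3, 8), 0, 5), ((7, 6), 0, 4), ((7, 9), 0, 7)]
  Tb := [((1, 0, 2), 2, 0, 1), ((1, 0, 9), 2, 0, 7), ((1, 2, 9), 2, 1, 7), ((2, 1, 4), 1, 2, 6),
    ((3, 4, 8), 0, 6, 5), ((4, 2, 3), 6, 1, 0), ((5, 6, 8), 3, 4, 5), ((6, 5, 7), 4, 3, 0),
    ((7, 6, 9), 0, 4, 7), ((8, 3, 5), 5, 0, 3), ((9, 1, 7), 7, 2, 0)]
  Tc := []
  Td := [((0, 1), (0, 1), 2), ((0, 1), (3, 4), 6), ((0, 1), (3, 8), 5), ((0, 1), (7, 6), 4), ((0,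
    1), (7, 9), 7), ((1, 0), (2, 1), 2), ((1, 0), (2, 4), 6), ((4, 5), (6, 5), 3), ((4, 5),
    (6, 7), 0), ((5, 4), (8, 3), 0), ((5, 4), (8, 5), 3)]
  G := [[0, 0xc1ccca2cc34cc3c1cc9ec64, 0xca6aaaccce148, 0xccaccc61cc681c8, 0xaa6aaaaace148], [0,
    0xc4ccac1ec1cccac2c1ce24, 0, 0xcca4cca4ccc6cccacc6cccacc1, 0xaaaaac64aa6aaaaaceaa68cc8],
    [0, 0xc2c1cc9ec1cc9acc6c1ce28, 0, 0xccaccc61cc681c8, 0xaa6aaaaace148]]

noncomputable def n995 : Ent := ⟨e995, noF, [], [], [(10, 14, [385746751338780685620664494392815470296102193487288376376565761, 0])]⟩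

def c995 : PLift (Cov.check n995.C.D v995 = true) := ⟨by decide +kernel⟩

def b995 : PLift (entF (fidx ts) 400 995 n995 = true) := ⟨by decide +kernel⟩

theorem g995 : GoodF (fidx ts) 400 995 := GoodF.ofV v995 n995 c995.down b995.down

/-- 464845:827/3 -/
noncomputable def e996 : SCfg where
  D := {
    a := 6
    L := 10
    kp := 7
    inn := [(0, 1), (1, 0), (1, 2), (1, 3), (2, 1), (3, 1), (3, 4), (3, 5), (4, 3), (5, 3)]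
    mix := [(0, 0), (0, 1), (0, 2), (1, 0), (1, 2), (1, 3), (2, 2), (2, 3), (2, 4), (3, 0), (3, 3), (3,
      5), (3, 6), (3, 7), (4, 3), (4, 4), (4, 5), (5, 0), (5, 7), (5, 8), (5, 9)]
    cl := [0, 5, 1, 0, 2, 3, 4, 0, 6, 7]
    chq := [(0, 1), (1, 0), (2, 4), (4, 2)]
    rng := [(0, 1), (0, 9), (1, 0), (1, 2), (2, 1), (2, 4), (3, 4), (4, 2), (4, 3), (4, 5), (5, 4), (5,
      6), (6, 5), (6, 7), (7, 6), (7, 8), (8, 7), (8, 9), (9, 0), (9, 8)]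
    lev := [] }
  links := [[1, 6, 7, 8], [6, 0, 8, 2, 9, 3], [9, 1, 8, 10], [6, 1, 9, 4, 11, 12, 13, 5], [11, 3, 9, 10],
    [6, 3, 13, 14, 15]]
  P := {
    a := 6
    N := 16
    nb := [450, 845, 1794, 14962, 3592, 57416, 32939, 321, 1159, 1054, 2836, 5144, 10248, 20520,
      40992, 16480]
    tri := [(0, 1, 6), (0, 1, 8), (0, 6, 7), (0, 7, 8), (1, 2, 8), (1, 2, 9), (1, 3, 6), (1, 3, 9), (2,
      8, 10), (2, 9, 10), (3, 4, 9), (3, 4, 11), (3, 5, 6), (3, 5, 13), (3, 11, 12), (3, 12, 13),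
      (4, 9, 10), (4, 10, 11), (5, 6, 15), (5, 13, 14), (5, 14, 15)]
    fin := [0, 0, 0, 3, 3, 0, 0, 7, 8, 0, 3, 11, 12, 0, 14, 15]
    chd := [(0, 8), (3, 12)]
    steps := [(0, 1), (0, 2), (0, 6), (0, 5), (0, 9), (0, 13), (3, 4), (3, 10)] }
  rep := [0, 8, 3, 11, 12, 7, 14, 15]

noncomputable def v996 : Cov.CovD where
  P := 3
  N := 5
  pl := [1, 5, 8, 9]
  lev := [⟨[], [], [(0, 1)], [5], [(0, 0, [1]), (2, 1, [0])]⟩,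
    ⟨[], [(0, 0), (0, 1)], [(0, 0), (0, 1)], [], [(0, 0, [1]), (2, 1, [0]), (3, 0, [1])]⟩,
    ⟨[(0, 1)], [(0, 1), (1, 0), (1, 1), (1, 2)], [(0, 1), (0, 2), (1, 2)], [], [(2, 1,
      [0]), (3, 0, [1]), (4, 2, [4])]⟩,
    ⟨[(0, 1), (1, 2)], [(0, 0), (1, 0), (1, 1), (1, 4), (2, 0)], [(0, 0), (0, 4)], [3],
      [(0, 0, [1]), (3, 0, [1]), (6, 4, [2]), (7, 0, [1])]⟩,
    ⟨[(1, 3)], [(1, 0), (2, 0), (2, 2), (3, 0), (3, 2), (3, 4)], [(0, 2)], [3], [(3, 0,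
      [1]), (4, 2, [4])]⟩,
    ⟨[(1, 3), (3, 4)], [(0, 0), (1, 0), (3, 0), (3, 4)], [(0, 0)], [6, 7], [(0, 0, [1]),
      (7, 0, [1])]⟩]
  Ta := [((0, 1), 0, 5), ((0, 9), 0, 7), ((3, 4), 0, 2), ((7, 6), 0, 4), ((7, 8), 0, 6)]
  Tb := [((0, 1, 9), 0, 5, 7), ((1, 0, 2), 5, 0, 1), ((2, 1, 4), 1, 5, 2), ((4, 2, 3), 2, 1, 0),
    ((4, 2, 5), 2, 1, 3), ((4, 3, 5), 2, 0, 3), ((5, 4, 6), 3, 2, 4), ((6, 5, 7), 4, 3, 0),
    ((7, 6, 8), 0, 4, 6), ((8, 7, 9), 6, 0, 7), ((9, 0, 8), 7, 0, 6)]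
  Tc := []
  Td := [((0, 1), (0, 1), 5), ((0, 1), (0, 9), 7), ((0, 1), (3, 4), 2), ((0, 1), (7, 6), 4), ((0,
    1), (7, 8), 6), ((1, 0), (2, 1), 5), ((1, 0), (2, 4), 2), ((2, 4), (4, 2), 1), ((2, 4),
    (4, 3), 0), ((2, 4), (4, 5), 3), ((4, 2), (6, 5), 3), ((4, 2), (6, 7), 0)]
  G := [[0, 0xe12468c4acc464ac486898e5a8cc, 0, 0xeec214ee5288c, 0xeea41689e1a8ceea41e1c23a8cc],
    [0, 0xe1ee9a4c2c446a45ee964e188ca, 0xeea22ce64688e88c1, 0xeec2841, 0xeea2ca6868a88c1],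
    [0, 0x4ac4468ce1a8c68ce1a44ac4466, 0, 0xee52441, 0xe12ca6868a81c1]]

noncomputable def n996 : Ent := ⟨e996, noF, [], [], [(7, 15, [360035742630636841211993100915356868655746945586763691011743745, 0])]⟩

def c996 : PLift (Cov.check n996.C.D v996 = true) := ⟨by decide +kernel⟩

def b996 : PLift (entF (fidx ts) 400 996 n996 = true) := ⟨by decide +kernel⟩

theorem g996 : GoodF (fidx ts) 400 996 := GoodF.ofV v996 n996 c996.down b996.down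

/-- 464845:827 -/
noncomputable def e997 : SCfg where
  D := {
    a := 6
    L := 11
    kp := 8
    inn := [(0, 1), (1, 0), (1, 2), (1, 3), (2, 1), (3, 1), (3, 4), (3, 5), (4, 3), (5, 3)]
    mix := [(0, 0), (0, 1), (0, 2), (1, 0), (1, 2), (1, 3), (2, 2), (2, 3), (2, 4), (3, 0), (3, 3), (3,
      5), (3, 6), (3, 7), (4, 3), (4, 5), (4, 8), (5, 0), (5, 7), (5, 9), (5, 10)]
    cl := [0, 5, 1, 0, 6, 3, 2, 0, 4, 7, 8]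
    chq := [(0, 1), (1, 0), (2, 4), (4, 2)]
    rng := [(0, 1), (0, 10), (1, 0), (1, 2), (2, 1), (2, 4), (3, 4), (3, 8), (4, 2), (4, 3), (5, 6),
      (5, 8), (6, 5), (6, 7), (7, 6), (7, 9), (8, 3), (8, 5), (9, 7), (9, 10), (10, 0), (10, 9)]
    lev := [] }
  links := [[1, 6, 7, 8], [6, 0, 8, 2, 9, 3], [9, 1, 8, 10], [6, 1, 9, 4, 11, 12, 13, 5], [11, 3, 9, 14],
    [6, 3, 13, 15, 16]]
  P := {
    a := 6
    N := 17
    nb := [450, 845, 1794, 14962, 18952, 106568, 65707, 321, 1159, 17438, 772, 20504, 10248, 36904,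
      2576, 73760, 32864]
    tri := [(0, 1, 6), (0, 1, 8), (0, 6, 7), (0, 7, 8), (1, 2, 8), (1, 2, 9), (1, 3, 6), (1, 3, 9), (2,
      8, 10), (2, 9, 10), (3, 4, 9), (3, 4, 11), (3, 5, 6), (3, 5, 13), (3, 11, 12), (3, 12, 13),
      (4, 9, 14), (4, 11, 14), (5, 6, 16), (5, 13, 15), (5, 15, 16)]
    fin := [0, 0, 0, 3, 3, 0, 0, 7, 8, 0, 10, 11, 12, 0, 3, 15, 16]
    chd := [(0, 8), (12, 3)]
    steps := [(0, 1), (0, 2), (0, 6), (0, 5), (0, 9), (0, 13), (3, 4), (3, 14)] }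
  rep := [0, 8, 12, 11, 3, 7, 10, 15, 16]

noncomputable def v997 : Cov.CovD where
  P := 3
  N := 6
  pl := [1, 4, 5, 9, 10]
  lev := [⟨[], [], [(0, 1)], [5], [(0, 0, [1]), (2, 1, [0])]⟩,
    ⟨[], [(0, 0), (0, 1)], [(0, 0), (0, 1)], [], [(0, 0, [1]), (2, 1, [0]), (3, 0, [1])]⟩,
    ⟨[(0, 1)], [(0, 1), (1, 0), (1, 1)], [(0, 1)], [6], [(2, 1, [0]), (3, 0, [1])]⟩,
    ⟨[(0, 1), (1, 2)], [(0, 0), (1, 0), (1, 1), (1, 2), (2, 0)], [(0, 0), (0, 2)], [3],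
      [(0, 0, [1]), (3, 0, [1]), (6, 2, [4]), (7, 0, [1])]⟩,
    ⟨[(1, 3)], [(1, 0), (2, 0), (3, 0), (3, 2), (3, 4)], [(0, 4)], [3], [(3, 0, [1]), (8,
      4, [2])]⟩,
    ⟨[(1, 3), (3, 4)], [(0, 0), (1, 0), (3, 0), (3, 2)], [(0, 0)], [7, 8], [(0, 0, [1]),
      (7, 0, [1])]⟩]
  Ta := [((0, 1), 0, 5), ((0, 10), 0, 8), ((3, 4), 0, 6), ((3, 8), 0, 4), ((7, 6), 0, 2), ((7,
    9), 0, 7)]
  Tb := [((0, 1, 10), 0, 5, 8), ((1, 0, 2), 5, 0, 1), ((2, 1, 4), 1, 5, 6), ((3, 4, 8), 0, 6, 4),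
    ((4, 2, 3), 6, 1, 0), ((5, 6, 8), 3, 2, 4), ((6, 5, 7), 2, 3, 0), ((7, 6, 9), 0, 2, 7),
    ((8, 3, 5), 4, 0, 3), ((9, 7, 10), 7, 0, 8), ((10, 0, 9), 8, 0, 7)]
  Tc := []
  Td := [((0, 1), (0, 1), 5), ((0, 1), (0, 10), 8), ((0, 1), (3, 4), 6), ((0, 1), (3, 8), 4),
    ((0, 1), (7, 6), 2), ((0, 1), (7, 9), 7), ((1, 0), (2, 1), 5), ((1, 0), (2, 4), 6), ((2,
    4), (6, 5), 3), ((2, 4), (6, 7), 0), ((4, 2), (8, 3), 0), ((4, 2), (8, 5), 3)]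
  G := [[0, 0xe1e2ce1e2c62e1e2ce1e2cc26, 0, 0x42416eee8aac1ce14e14ce281cc,
    0x6e2e8ecea14e66ee8ea14c], [0, 0xe1e2c22e2e1c82e2e1c42e, 0, 0x8aee4666eeacc64ee88868cc1,
    0xee6eeca6eee8ecac41], [0, 0xe2e1c42e18e24a2e248e182ce, 0x6e2e82a8ecee141,
    0xeea41ee681c1, 0xe26eecea141]]

noncomputable def n997 : Ent := ⟨e997, noF, [], [], [(7, 16, [1580044410770988437309982408355971841652082177953823432505693188097, 0]), (10, 14, [1685382413448253767852309107433119732572617628602273068445368991745, 0])]⟩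

def c997 : PLift (Cov.check n997.C.D v997 = true) := ⟨by decide +kernel⟩

def b997 : PLift (entF (fidx ts) 400 997 n997 = true) := ⟨by decide +kernel⟩

theorem g997 : GoodF (fidx ts) 400 997 := GoodF.ofV v997 n997 c997.down b997.down

/-- 464854:828/1 -/
noncomputable def e998 : SCfg where
  D := {
    a := 6
    L := 10
    kp := 7
    inn := [(0, 1), (1, 0), (1, 2), (1, 3), (2, 1), (3, 1), (3, 4), (3, 5), (4, 3), (5, 3)]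
    mix := [(0, 0), (0, 1), (0, 2), (1, 0), (1, 2), (1, 3), (2, 2), (2, 3), (2, 4), (3, 0), (3, 3), (3,
      5), (3, 6), (3, 7), (4, 3), (4, 4), (4, 5), (4, 8), (5, 5), (5, 6), (5, 9)]
    cl := [0, 6, 1, 0, 2, 0, 3, 4, 7, 5]
    chq := [(0, 1), (1, 0), (4, 5), (5, 4)]
    rng := [(0, 1), (0, 7), (1, 0), (1, 2), (2, 1), (2, 4), (3, 4), (4, 2), (4, 3), (4, 8), (5, 8), (5,
      9), (6, 7), (6, 9), (7, 0), (7, 6), (8, 4), (8, 5), (9, 5), (9, 6)]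
    lev := [] }
  links := [[1, 6, 7, 8], [6, 0, 8, 2, 9, 3], [9, 1, 8, 10], [6, 1, 9, 4, 11, 5, 12, 13], [11, 3, 9, 10,
    14], [12, 3, 11, 15]]
  P := {
    a := 6
    N := 16
    nb := [450, 845, 1794, 14962, 19976, 38920, 8331, 321, 1159, 1054, 17172, 49208, 41000, 4168,
      3088, 6176]
    tri := [(0, 1, 6), (0, 1, 8), (0, 6, 7), (0, 7, 8), (1, 2, 8), (1, 2, 9), (1, 3, 6), (1, 3, 9), (2,
      8, 10), (2, 9, 10), (3, 4, 9), (3, 4, 11), (3, 5, 11), (3, 5, 12), (3, 6, 13), (3, 12, 13),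
      (4, 9, 10), (4, 10, 14), (4, 11, 14), (5, 11, 15), (5, 12, 15)]
    fin := [0, 0, 0, 3, 0, 3, 0, 7, 8, 0, 10, 0, 12, 13, 14, 3]
    chd := [(0, 8), (13, 3)]
    steps := [(0, 1), (0, 2), (0, 6), (0, 9), (0, 4), (0, 11), (3, 5), (3, 15)] }
  rep := [0, 8, 10, 12, 13, 3, 7, 14]

noncomputable def v998 : Cov.CovD where
  P := 3
  N := 5
  pl := [1, 4, 6, 8]
  lev := [⟨[], [], [(0, 1)], [6], [(0, 0, [1]), (2, 1, [0])]⟩,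
    ⟨[], [(0, 0), (0, 1)], [(0, 0), (0, 1)], [], [(0, 0, [1]), (2, 1, [0]), (3, 0, [1])]⟩,
    ⟨[(0, 1)], [(0, 1), (1, 0), (1, 1)], [(0, 1)], [2], [(2, 1, [0]), (3, 0, [1])]⟩,
    ⟨[(0, 1), (1, 2)], [(0, 0), (1, 0), (1, 1), (1, 4), (2, 0)], [(0, 0), (0, 4)], [3],
      [(0, 0, [1]), (3, 0, [1]), (5, 0, [1]), (7, 4, [5])]⟩,
    ⟨[(1, 3)], [(1, 0), (2, 0), (3, 0), (3, 4)], [(0, 0)], [2, 7], [(3, 0, [1]), (5, 0,
      [1])]⟩,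
    ⟨[(1, 3), (3, 4)], [(3, 0), (3, 4), (3, 5), (4, 0)], [(0, 5)], [3], [(5, 0, [1]), (9,
      5, [4])]⟩]
  Ta := [((0, 1), 0, 6), ((0, 7), 0, 4), ((3, 4), 0, 2), ((5, 8), 0, 7), ((5, 9), 0, 5)]
  Tb := [((0, 1, 7), 0, 6, 4), ((1, 0, 2), 6, 0, 1), ((2, 1, 4), 1, 6, 2), ((4, 2, 3), 2, 1, 0),
    ((4, 2, 8), 2, 1, 7), ((4, 3, 8), 2, 0, 7), ((5, 8, 9), 0, 7, 5), ((6, 7, 9), 3, 4, 5),
    ((7, 0, 6), 4, 0, 3), ((8, 4, 5), 7, 2, 0), ((9, 5, 6), 5, 0, 3)]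
  Tc := []
  Td := [((0, 1), (0, 1), 6), ((0, 1), (0, 7), 4), ((0, 1), (3, 4), 2), ((0, 1), (5, 8), 7), ((0,
    1), (5, 9), 5), ((1, 0), (2, 1), 6), ((1, 0), (2, 4), 2), ((4, 5), (7, 0), 0), ((4, 5),
    (7, 6), 3), ((5, 4), (9, 5), 0), ((5, 4), (9, 6), 3)]
  G := [[0, 0x16cc1ca83ac4461cc2851c93cc466, 0, 0x99c445bc11ca8ca9c4156c11ca8cc,
    0x15aaaa51ae1431ac9a6816a88cc], [0, 0x15c3ac51ce82149ac15ce45884a6, 0x566a1a196e481,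
    0x39c51c6816c84c1, 0x61aaaa1cae841], [0, 0x51ca3c15ce4219c2853c91cc4aa, 0,
    0xa44466ca8ccce8c1, 0x66aaaaccae841]]

noncomputable def n998 : Ent := ⟨e998, noF, [], [], []⟩

def c998 : PLift (Cov.check n998.C.D v998 = true) := ⟨by decide +kernel⟩

def b998 : PLift (entF (fidx ts) 400 998 n998 = true) := ⟨by decide +kernel⟩

theorem g998 : GoodF (fidx ts) 400 998 := GoodF.ofV v998 n998 c998.down b998.down

/-- 464854:828 -/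
noncomputable def e999 : SCfg where
  D := {
    a := 6
    L := 11
    kp := 8
    inn := [(0, 1), (1, 0), (1, 2), (1, 3), (2, 1), (3, 1), (3, 4), (3, 5), (4, 3), (5, 3)]
    mix := [(0, 0), (0, 1), (0, 2), (1, 0), (1, 2), (1, 3), (2, 2), (2, 3), (2, 4), (3, 0), (3, 3), (3,
      5), (3, 6), (3, 7), (4, 3), (4, 5), (4, 8), (4, 9), (5, 5), (5, 6), (5, 10)]
    cl := [0, 5, 1, 0, 6, 0, 3, 2, 7, 8, 4]
    chq := [(0, 1), (1, 0), (2, 4), (4, 2)]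
    rng := [(0, 1), (0, 7), (1, 0), (1, 2), (2, 1), (2, 4), (3, 4), (3, 8), (4, 2), (4, 3), (5, 9), (5,
      10), (6, 7), (6, 10), (7, 0), (7, 6), (8, 3), (8, 9), (9, 5), (9, 8), (10, 5), (10, 6)]
    lev := [] }
  links := [[1, 6, 7, 8], [6, 0, 8, 2, 9, 3], [9, 1, 8, 10], [6, 1, 9, 4, 11, 5, 12, 13], [11, 3, 9, 14,
    15], [12, 3, 11, 16]]
  P := {
    a := 6
    N := 17
    nb := [450, 845, 1794, 14962, 51720, 71688, 8331, 321, 1159, 17438, 772, 98360, 73768, 4168,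
      33296, 18448, 6176]
    tri := [(0, 1, 6), (0, 1, 8), (0, 6, 7), (0, 7, 8), (1, 2, 8), (1, 2, 9), (1, 3, 6), (1, 3, 9), (2,
      8, 10), (2, 9, 10), (3, 4, 9), (3, 4, 11), (3, 5, 11), (3, 5, 12), (3, 6, 13), (3, 12, 13),
      (4, 9, 14), (4, 11, 15), (4, 14, 15), (5, 11, 16), (5, 12, 16)]
    fin := [0, 0, 0, 3, 0, 3, 0, 7, 8, 0, 10, 0, 12, 13, 14, 15, 3]
    chd := [(0, 8), (13, 3)]
    steps := [(0, 1), (0, 2), (0, 6), (0, 9), (0, 4), (0, 11), (3, 5), (3, 16)] }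
  rep := [0, 8, 13, 12, 3, 7, 10, 14, 15]

noncomputable def v999 : Cov.CovD where
  P := 3
  N := 6
  pl := [1, 4, 6, 8, 9]
  lev := [⟨[], [], [(0, 1)], [5], [(0, 0, [1]), (2, 1, [0])]⟩,
    ⟨[], [(0, 0), (0, 1)], [(0, 0), (0, 1)], [], [(0, 0, [1]), (2, 1, [0]), (3, 0, [1])]⟩,
    ⟨[(0, 1)], [(0, 1), (1, 0), (1, 1)], [(0, 1)], [6], [(2, 1, [0]), (3, 0, [1])]⟩,
    ⟨[(0, 1), (1, 2)], [(0, 0), (1, 0), (1, 1), (1, 2), (2, 0)], [(0, 0), (0, 2)], [3],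
      [(0, 0, [1]), (3, 0, [1]), (5, 0, [1]), (7, 2, [4])]⟩,
    ⟨[(1, 3)], [(1, 0), (2, 0), (3, 0), (3, 2)], [(0, 0)], [7, 8], [(3, 0, [1]), (5, 0,
      [1])]⟩,
    ⟨[(1, 3), (3, 4)], [(3, 0), (3, 2), (3, 4), (4, 0)], [(0, 4)], [3], [(5, 0, [1]), (10,
      4, [2])]⟩]
  Ta := [((0, 1), 0, 5), ((0, 7), 0, 2), ((3, 4), 0, 6), ((3, 8), 0, 7), ((5, 9), 0, 8), ((5,
    10), 0, 4)]
  Tb := [((0, 1, 7), 0, 5, 2), ((1, 0, 2), 5, 0, 1), ((2, 1, 4), 1, 5, 6), ((3, 4, 8), 0, 6, 7),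
    ((4, 2, 3), 6, 1, 0), ((5, 9, 10), 0, 8, 4), ((6, 7, 10), 3, 2, 4), ((7, 0, 6), 2, 0, 3),
    ((8, 3, 9), 7, 0, 8), ((9, 5, 8), 8, 0, 7), ((10, 5, 6), 4, 0, 3)]
  Tc := []
  Td := [((0, 1), (0, 1), 5), ((0, 1), (0, 7), 2), ((0, 1), (3, 4), 6), ((0, 1), (3, 8), 7), ((0,
    1), (5, 9), 8), ((0, 1), (5, 10), 4), ((1, 0), (2, 1), 5), ((1, 0), (2, 4), 6), ((2, 4),
    (7, 0), 0), ((2, 4), (7, 6), 3), ((4, 2), (10, 5), 0), ((4, 2), (10, 6), 3)]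
  G := [[0, 0x221e112ec22111e88222e486112e221ec42e, 0x111e111e618111e111e618c,
    0x121e41212e81c211e41122e81cc, 0x414e141ea14414e141ea14c], [0,
    0x121e212ec111e222ec62211e122ec222e111ecc2a, 0, 0x144211e4c121e22ac122e8cc1,
    0x144e411ea441e114eac41], [0, 0x12a4233e8c4244122e211eca2221e126c111e4c2e, 0,
    0xa441666eaaac1c1, 0x4ceee64ea141]]

noncomputable def n999 : Ent := ⟨e999, noF, [], [], [(10, 14, [1685382413448253767852309107433119732572617628602273068445368999937, 0])]⟩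

def c999 : PLift (Cov.check n999.C.D v999 = true) := ⟨by decide +kernel⟩

def b999 : PLift (entF (fidx ts) 400 999 n999 = true) := ⟨by decide +kernel⟩

theorem g999 : GoodF (fidx ts) 400 999 := GoodF.ofV v999 n999 c999.down b999.down

/-- 459644:829 -/
noncomputable def e1000 : SCfg where
  D := {
    a := 6
    L := 9
    kp := 7
    inn := [(0, 1), (0, 2), (1, 0), (1, 2), (2, 0), (2, 1), (2, 3), (2, 4), (2, 5), (3, 2), (3, 4), (3,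
      5), (4, 2), (4, 3), (5, 2), (5, 3)]
    mix := [(0, 0), (0, 1), (1, 1), (1, 2), (1, 3), (2, 0), (2, 3), (2, 4), (2, 5), (3, 6), (3, 7), (3,
      8), (4, 4), (4, 8), (5, 3), (5, 6)]
    cl := [3, 1, 5, 0, 0, 6, 4, 7, 2]
    chq := [(0, 7), (3, 5), (5, 3), (5, 6), (6, 5), (7, 0)]
    rng := [(0, 1), (0, 5), (1, 0), (1, 2), (2, 1), (2, 3), (3, 2), (3, 6), (4, 5), (4, 8), (5, 0), (5,
      4), (6, 3), (6, 7), (7, 6), (7, 8), (8, 4), (8, 7)]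
    lev := [] }
  links := [[1, 2, 6, 7], [2, 0, 7, 8, 9], [6, 0, 1, 9, 5, 3, 4, 10, 11], [4, 2, 5, 12, 13, 14], [10, 2,
    3, 14], [12, 3, 2, 9]]
  P := {
    a := 6
    N := 15
    nb := [198, 901, 3707, 28724, 17420, 4620, 2181, 323, 642, 4390, 18452, 1092, 8744, 20488, 9240]
    tri := [(0, 1, 2), (0, 1, 7), (0, 2, 6), (0, 6, 7), (1, 2, 9), (1, 7, 8), (1, 8, 9), (2, 3, 4), (2,
      3, 5), (2, 4, 10), (2, 5, 9), (2, 6, 11), (2, 10, 11), (3, 4, 14), (3, 5, 12), (3, 12, 13),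
      (3, 13, 14), (4, 10, 14), (5, 9, 12)]
    fin := [0, 1, 1, 3, 3, 3, 0, 7, 1, 3, 3, 11, 12, 13, 14]
    chd := [(0, 1), (1, 11), (3, 13)]
    steps := [(0, 6), (1, 2), (1, 8), (3, 4), (3, 5), (3, 9), (3, 10)] }
  rep := [3, 7, 14, 0, 12, 1, 11, 13]

noncomputable def v1000 : Cov.CovD where
  P := 3
  N := 5
  pl := [1, 6, 8]
  lev := [⟨[], [], [], [1], [(0, 3, [5])]⟩,
    ⟨[], [(0, 0), (0, 3), (0, 5)], [(0, 5)], [1], [(2, 5, [3, 6]), (3, 0, [7])]⟩,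
    ⟨[(0, 1)], [(0, 0), (0, 3), (0, 6), (1, 0), (1, 3), (1, 5), (1, 6)], [(0, 0), (0, 3),
      (0, 6), (3, 6)], [], [(0, 3, [5]), (3, 0, [7]), (4, 0, [7]), (5, 6, [5])]⟩,
    ⟨[(0, 2), (1, 2)], [(2, 0), (2, 3), (2, 6), (2, 7)], [], [2, 4], [(7, 7, [0])]⟩,
    ⟨[(0, 2), (1, 2), (2, 3)], [(2, 0), (2, 3), (2, 6), (3, 0), (3, 7)], [], [2], [(4, 0,
      [7])]⟩,
    ⟨[(0, 2), (1, 2), (2, 3), (2, 4), (3, 4)], [(1, 0), (2, 0), (2, 3), (2, 6), (3, 0), (3,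
      7)], [], [4], [(3, 0, [7])]⟩]
  Ta := [((3, 2), 0, 5), ((3, 6), 0, 4), ((4, 5), 0, 6), ((4, 8), 0, 2)]
  Tb := [((0, 1, 5), 3, 1, 6), ((1, 0, 2), 1, 3, 5), ((2, 1, 3), 5, 1, 0), ((3, 2, 6), 0, 5, 4),
    ((4, 5, 8), 0, 6, 2), ((5, 0, 4), 6, 3, 0), ((6, 3, 7), 4, 0, 7), ((7, 6, 8), 7, 4, 2),
    ((8, 4, 7), 2, 0, 7)]
  Tc := [(5, 3, 6)]
  Td := [((0, 7), (3, 2), 5), ((0, 7), (3, 6), 4), ((0, 7), (4, 5), 6), ((0, 7), (4, 8), 2), ((3,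
    5), (0, 1), 1), ((3, 5), (0, 5), 6), ((5, 3), (2, 1), 1), ((5, 3), (2, 3), 0), ((5, 6),
    (2, 1), 1), ((5, 6), (2, 3), 0), ((6, 5), (5, 0), 3), ((6, 5), (5, 4), 0), ((7, 0), (7,
    6), 4), ((7, 0), (7, 8), 2)]
  G := [[0, 0x28442242464d81a89c28144214164d4184c4dace, 0,
    0x416458441481a894128ce4488c8144218844824dacd, 0x21623848288a2b82864288c4888c8b24288cd],
    [0x14146142a181224e46148182a4821818e1814c61488ce, 0x681a81c2641c41a46,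
    0x422468248ca18228a8248c6118418261288cd, 0x641641a1a81a41689, 0x62181a8141a8124d]]

noncomputable def n1000 : Ent := ⟨e1000, noF, [], [], []⟩

def c1000 : PLift (Cov.check n1000.C.D v1000 = true) := ⟨by decide +kernel⟩

def b1000 : PLift (entF (fidx ts) 400 1000 n1000 = true) := ⟨by decide +kernel⟩

theorem g1000 : GoodF (fidx ts) 400 1000 := GoodF.ofV v1000 n1000 c1000.down b1000.down

/-- 459654:830 -/
noncomputable def e1001 : SCfg where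
  D := {
    a := 6
    L := 10
    kp := 8
    inn := [(0, 1), (0, 2), (1, 0), (1, 2), (2, 0), (2, 1), (2, 3), (2, 4), (2, 5), (3, 2), (3, 4), (4,
      2), (4, 3), (4, 5), (5, 2), (5, 4)]
    mix := [(0, 0), (0, 1), (1, 1), (1, 2), (1, 3), (2, 0), (2, 3), (2, 4), (2, 5), (3, 4), (3, 6), (3,
      7), (3, 8), (4, 8), (4, 9), (5, 5), (5, 9)]
    cl := [0, 4, 6, 2, 0, 1, 7, 8, 3, 5]
    chq := [(0, 6), (1, 3), (1, 7), (1, 8), (3, 1), (6, 0), (7, 1), (8, 1)]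
    rng := [(0, 1), (0, 5), (1, 0), (1, 2), (2, 1), (2, 3), (3, 2), (3, 4), (4, 3), (4, 6), (5, 0), (5,
      9), (6, 4), (6, 7), (7, 6), (7, 8), (8, 7), (8, 9), (9, 5), (9, 8)]
    lev := [] }
  links := [[1, 2, 6, 7], [2, 0, 7, 8, 9], [6, 0, 1, 9, 10, 3, 4, 5, 11], [4, 2, 10, 12, 13, 14], [5, 2,
    3, 14, 15], [11, 2, 4, 15]]
  P := {
    a := 6
    N := 16
    nb := [198, 901, 3707, 29716, 49196, 34836, 2181, 323, 642, 1286, 4620, 32868, 9224, 20488, 40984,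
      18480]
    tri := [(0, 1, 2), (0, 1, 7), (0, 2, 6), (0, 6, 7), (1, 2, 9), (1, 7, 8), (1, 8, 9), (2, 3, 4), (2,
      3, 10), (2, 4, 5), (2, 5, 11), (2, 6, 11), (2, 9, 10), (3, 4, 14), (3, 10, 12), (3, 12, 13),
      (3, 13, 14), (4, 5, 15), (4, 14, 15), (5, 11, 15)]
    fin := [0, 0, 0, 3, 3, 3, 0, 7, 8, 9, 0, 3, 12, 13, 14, 15]
    chd := [(0, 8), (3, 12), (3, 13), (3, 14)]
    steps := [(0, 1), (0, 2), (0, 6), (0, 10), (3, 4), (3, 5), (3, 11)] }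
  rep := [0, 3, 9, 14, 7, 15, 8, 12, 13]

noncomputable def v1001 : Cov.CovD where
  P := 3
  N := 6
  pl := [1, 3, 9]
  lev := [⟨[], [], [], [4], [(0, 0, [6])]⟩,
    ⟨[], [(0, 0), (0, 6)], [], [2, 4], [(2, 6, [0])]⟩,
    ⟨[(0, 1)], [(0, 0), (0, 1), (1, 0), (1, 1), (1, 6)], [(0, 0), (0, 1)], [2], [(0, 0,
      [6]), (4, 0, [6]), (5, 1, [3, 7, 8])]⟩,
    ⟨[(0, 2), (1, 2)], [(2, 0), (2, 1), (2, 3), (2, 7), (2, 8)], [(0, 3), (0, 7), (0, 8),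
      (3, 7), (3, 8), (7, 8)], [], [(4, 0, [6]), (6, 7, [1]), (7, 8, [1]), (8, 3, [1])]⟩,
    ⟨[(0, 2), (1, 2), (2, 3)], [(2, 0), (2, 1), (2, 3), (3, 0), (3, 3), (3, 7), (3, 8)],
      [], [5], [(8, 3, [1])]⟩,
    ⟨[(0, 2), (1, 2), (2, 3), (2, 4), (3, 4)], [(2, 0), (2, 1), (4, 1), (4, 3)], [], [5],
      [(5, 1, [3, 7, 8])]⟩]
  Ta := [((0, 1), 0, 4), ((0, 5), 0, 1), ((4, 3), 0, 2), ((4, 6), 0, 7)]
  Tb := [((0, 1, 5), 0, 4, 1), ((1, 0, 2), 4, 0, 6), ((2, 1, 3), 6, 4, 2), ((3, 2, 4), 2, 6, 0),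
    ((4, 3, 6), 0, 2, 7), ((5, 0, 9), 1, 0, 5), ((6, 4, 7), 7, 0, 8), ((7, 6, 8), 8, 7, 3),
    ((8, 7, 9), 3, 8, 5), ((9, 5, 8), 5, 1, 3)]
  Tc := [(1, 3, 7), (1, 3, 8), (1, 7, 8)]
  Td := [((0, 6), (0, 1), 4), ((0, 6), (0, 5), 1), ((0, 6), (4, 3), 2), ((0, 6), (4, 6), 7), ((1,
    3), (5, 0), 0), ((1, 3), (5, 9), 5), ((1, 7), (5, 0), 0), ((1, 7), (5, 9), 5), ((1, 8),
    (5, 0), 0), ((1, 8), (5, 9), 5), ((3, 1), (8, 7), 8), ((3, 1), (8, 9), 5), ((6, 0), (2,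
    1), 4), ((6, 0), (2, 3), 2), ((7, 1), (6, 4), 0), ((7, 1), (6, 7), 8), ((8, 1), (7, 6),
    7), ((8, 1), (7, 8), 3)]
  G := [[0, 0x4261881c18a2e141a, 0, 0x4152882c2481f28c891d2416,
    0x5888928541d28112451768541d28ae], [0, 0, 0x4152882c4428192c891d24e1, 0x8241f241891d241a,
    0x541d281541d2816]]

noncomputable def n1001 : Ent := ⟨e1001, noF, [], [], []⟩

def c1001 : PLift (Cov.check n1001.C.D v1001 = true) := ⟨by decide +kernel⟩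

def b1001 : PLift (entF (fidx ts) 400 1001 n1001 = true) := ⟨by decide +kernel⟩

theorem g1001 : GoodF (fidx ts) 400 1001 := GoodF.ofV v1001 n1001 c1001.down b1001.down

/-- 464766:831 -/
noncomputable def e1002 : SCfg where
  D := {
    a := 6
    L := 9
    kp := 7
    inn := [(0, 1), (0, 4), (1, 0), (1, 2), (1, 3), (1, 4), (1, 5), (2, 1), (2, 5), (3, 1), (3, 4), (3,
      5), (4, 0), (4, 1), (4, 3), (5, 1), (5, 2), (5, 3)]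
    mix := [(0, 0), (0, 1), (1, 1), (2, 1), (2, 2), (3, 3), (3, 4), (3, 5), (3, 6), (4, 0), (4, 6), (4,
      7), (5, 2), (5, 3), (5, 8)]
    cl := [2, 1, 3, 0, 5, 6, 0, 7, 4]
    chq := [(0, 1), (0, 2), (1, 0), (1, 4), (2, 0), (4, 1)]
    rng := [(0, 1), (0, 7), (1, 0), (1, 2), (2, 1), (2, 8), (3, 4), (3, 8), (4, 3), (4, 5), (5, 4), (5,
      6), (6, 5), (6, 7), (7, 0), (7, 6), (8, 2), (8, 3)]
    lev := [] }
  links := [[1, 4, 6, 7], [4, 0, 7, 2, 5, 3], [5, 1, 7, 8], [4, 1, 5, 9, 10, 11, 12], [6, 0, 1, 3, 12,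
    13], [9, 3, 1, 2, 8, 14]]
  P := {
    a := 6
    N := 15
    nb := [210, 189, 418, 7730, 12363, 17166, 8337, 327, 16548, 17448, 2568, 5128, 10264, 4176, 800]
    tri := [(0, 1, 4), (0, 1, 7), (0, 4, 6), (0, 6, 7), (1, 2, 5), (1, 2, 7), (1, 3, 4), (1, 3, 5), (2,
      5, 8), (2, 7, 8), (3, 4, 12), (3, 5, 9), (3, 9, 10), (3, 10, 11), (3, 11, 12), (4, 6, 13),
      (4, 12, 13), (5, 8, 14), (5, 9, 14)]
    fin := [0, 0, 2, 3, 0, 2, 0, 2, 8, 3, 10, 11, 3, 13, 14]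
    chd := [(0, 3), (2, 3), (2, 14)]
    steps := [(0, 1), (0, 4), (0, 6), (2, 5), (2, 7), (3, 9), (3, 12)] }
  rep := [3, 2, 0, 8, 14, 10, 11, 13]

noncomputable def v1002 : Cov.CovD where
  P := 3
  N := 5
  pl := [2, 4, 5, 7]
  lev := [⟨[], [], [(1, 2)], [], [(0, 2, [0]), (1, 1, [0, 4])]⟩,
    ⟨[], [(0, 1), (0, 2)], [], [], [(1, 1, [0, 4])]⟩,
    ⟨[(0, 1)], [(0, 1), (1, 1)], [], [3], [(1, 1, [0, 4])]⟩,
    ⟨[(0, 1), (1, 2)], [(1, 0), (1, 1)], [(0, 0)], [5, 6], [(3, 0, [1, 2]), (6, 0, [1,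
      2])]⟩,
    ⟨[(0, 1), (0, 3), (1, 2), (1, 3)], [(0, 0), (0, 1), (0, 2), (1, 0), (1, 1), (1, 2), (3,
      0), (3, 2)], [(0, 2)], [7], [(0, 2, [0]), (6, 0, [1, 2])]⟩,
    ⟨[(0, 1), (1, 2), (1, 3), (1, 4), (2, 3), (3, 4)], [(1, 0), (1, 1), (1, 4), (2, 0), (2,
      1), (2, 4), (3, 0), (3, 4)], [(0, 4)], [3], [(3, 0, [1, 2]), (8, 4, [1])]⟩]
  Ta := [((3, 4), 0, 5), ((3, 8), 0, 4), ((6, 5), 0, 6), ((6, 7), 0, 7)]
  Tb := [((0, 1, 7), 2, 1, 7), ((1, 0, 2), 1, 2, 3), ((2, 1, 8), 3, 1, 4), ((3, 4, 8), 0, 5, 4),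
    ((4, 3, 5), 5, 0, 6), ((5, 4, 6), 6, 5, 0), ((6, 5, 7), 0, 6, 7), ((7, 0, 6), 7, 2, 0),
    ((8, 2, 3), 4, 3, 0)]
  Tc := [(0, 1, 2), (1, 0, 4)]
  Td := [((0, 1), (3, 4), 5), ((0, 1), (3, 8), 4), ((0, 1), (6, 5), 6), ((0, 1), (6, 7), 7), ((0,
    2), (3, 4), 5), ((0, 2), (3, 8), 4), ((0, 2), (6, 5), 6), ((0, 2), (6, 7), 7), ((1, 0),
    (1, 0), 2), ((1, 0), (1, 2), 3), ((1, 4), (1, 0), 2), ((1, 4), (1, 2), 3), ((2, 0), (0,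
    1), 1), ((2, 0), (0, 7), 7), ((4, 1), (8, 2), 3), ((4, 1), (8, 3), 0)]
  G := [[0, 0x111111e111111e684, 0x126356633621a61ae2268d81, 0x212121e212121e584,
    0x61616121a1a1ee189c8], [0, 0x111111e111111ec24, 0x62aacaac6eea662a66ce914,
    0x22c22c622c22c65122c822c8949, 0x21a33a5dae12a91aa22a4d41]]

noncomputable def n1002 : Ent := ⟨e1002, noF, [], [], []⟩

def c1002 : PLift (Cov.check n1002.C.D v1002 = true) := ⟨by decide +kernel⟩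

def b1002 : PLift (entF (fidx ts) 400 1002 n1002 = true) := ⟨by decide +kernel⟩

theorem g1002 : GoodF (fidx ts) 400 1002 := GoodF.ofV v1002 n1002 c1002.down b1002.down

/-- 459545:833 -/
noncomputable def e1003 : SCfg where
  D := {
    a := 6
    L := 10
    kp := 7
    inn := [(0, 1), (0, 2), (1, 0), (1, 2), (2, 0), (2, 1), (2, 3), (2, 4), (2, 5), (3, 2), (3, 4), (4,
      2), (4, 3), (5, 2)]
    mix := [(0, 0), (0, 1), (1, 1), (1, 2), (1, 3), (2, 0), (2, 3), (2, 4), (2, 5), (3, 4), (3, 6), (3,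
      7), (4, 5), (4, 7), (5, 0), (5, 5), (5, 8), (5, 9)]
    cl := [0, 2, 4, 0, 1, 0, 5, 3, 6, 7]
    chq := [(1, 3), (3, 1)]
    rng := [(0, 1), (0, 9), (1, 0), (1, 2), (2, 1), (2, 3), (3, 2), (3, 4), (4, 3), (4, 6), (5, 7), (5,
      8), (6, 4), (6, 7), (7, 5), (7, 6), (8, 5), (8, 9), (9, 0), (9, 8)]
    lev := [] }
  links := [[1, 2, 6, 7], [2, 0, 7, 8, 9], [6, 0, 1, 9, 10, 3, 4, 11, 5], [4, 2, 10, 12, 13], [11, 2, 3,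
    13], [6, 2, 11, 14, 15]]
  P := {
    a := 6
    N := 16
    nb := [198, 901, 3707, 13332, 10252, 51268, 32933, 323, 642, 1286, 4620, 24628, 9224, 6168, 34848,
      16480]
    tri := [(0, 1, 2), (0, 1, 7), (0, 2, 6), (0, 6, 7), (1, 2, 9), (1, 7, 8), (1, 8, 9), (2, 3, 4), (2,
      3, 10), (2, 4, 11), (2, 5, 6), (2, 5, 11), (2, 9, 10), (3, 4, 13), (3, 10, 12), (3, 12, 13),
      (4, 11, 13), (5, 6, 15), (5, 11, 14), (5, 14, 15)]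
    fin := [0, 0, 0, 3, 0, 0, 0, 7, 8, 0, 3, 0, 12, 13, 14, 15]
    chd := [(3, 13)]
    steps := [(0, 1), (0, 2), (0, 4), (0, 5), (0, 6), (0, 9), (0, 11), (3, 10)] }
  rep := [0, 3, 7, 13, 8, 12, 14, 15]

noncomputable def v1003 : Cov.CovD where
  P := 3
  N := 5
  pl := [1, 2, 6, 8, 9]
  lev := [⟨[], [], [], [2], [(0, 0, [])]⟩,
    ⟨[], [(0, 0)], [], [2, 4], [(3, 0, [])]⟩,
    ⟨[(0, 1)], [(0, 0), (0, 1), (1, 0), (1, 1)], [(0, 0), (0, 1)], [], [(0, 0, []), (3, 0,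
      []), (4, 1, [3]), (5, 0, [])]⟩,
    ⟨[(0, 2), (1, 2)], [(2, 0), (2, 1), (2, 3)], [(1, 3)], [5], [(4, 1, [3]), (7, 3, [1])]⟩,
    ⟨[(0, 2), (1, 2), (2, 3)], [(2, 0), (2, 1), (2, 3), (3, 0), (3, 1), (3, 3)], [(0, 3)],
      [], [(5, 0, []), (7, 3, [1])]⟩,
    ⟨[(0, 2), (1, 2), (2, 3), (2, 4)], [(0, 0), (2, 0), (2, 1), (4, 0)], [(0, 0)], [6, 7],
      [(0, 0, []), (5, 0, [])]⟩]
  Ta := [((0, 1), 0, 2), ((0, 9), 0, 7), ((3, 2), 0, 4), ((3, 4), 0, 1), ((5, 7), 0, 3), ((5, 8),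
    0, 6)]
  Tb := [((0, 1, 9), 0, 2, 7), ((1, 0, 2), 2, 0, 4), ((2, 1, 3), 4, 2, 0), ((3, 2, 4), 0, 4, 1),
    ((4, 3, 6), 1, 0, 5), ((5, 7, 8), 0, 3, 6), ((6, 4, 7), 5, 1, 3), ((7, 5, 6), 3, 0, 5),
    ((8, 5, 9), 6, 0, 7), ((9, 0, 8), 7, 0, 6)]
  Tc := []
  Td := [((1, 3), (4, 3), 0), ((1, 3), (4, 6), 5), ((3, 1), (7, 5), 0), ((3, 1), (7, 6), 5)]
  G := [[0, 0, 0x888461e1e2d861e1e2d888ce4, 0x414e2a1e2dc18, 0xe1e25e18c12], [0,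
    0x222e1e1c1e6e12e8e4cac4, 0, 0x444e2a1e2dc41e1c2da2229cc1, 0x424e2a2e2dc61e2e2d818ca1],
    [0, 0, 0, 0x424e8a2e2dc18, 0xe24e2e29c12]]

noncomputable def n1003 : Ent := ⟨e1003, noF, [], [], []⟩

def c1003 : PLift (Cov.check n1003.C.D v1003 = true) := ⟨by decide +kernel⟩

def b1003 : PLift (entF (fidx ts) 400 1003 n1003 = true) := ⟨by decide +kernel⟩

theorem g1003 : GoodF (fidx ts) 400 1003 := GoodF.ofV v1003 n1003 c1003.down b1003.down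

/-- 459546:834/1 -/
noncomputable def e1004 : SCfg where
  D := {
    a := 6
    L := 9
    kp := 7
    inn := [(0, 1), (0, 2), (1, 0), (1, 2), (1, 5), (2, 0), (2, 1), (2, 3), (2, 4), (2, 5), (3, 2), (3,
      4), (4, 2), (4, 3), (5, 1), (5, 2)]
    mix := [(0, 0), (0, 1), (1, 1), (1, 2), (2, 0), (2, 3), (2, 4), (2, 5), (3, 3), (3, 6), (3, 7), (4,
      4), (4, 7), (5, 2), (5, 3), (5, 6), (5, 8)]
    cl := [1, 2, 3, 0, 0, 6, 4, 5, 7]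
    chq := [(1, 3), (3, 1), (3, 6), (4, 6), (6, 3), (6, 4), (6, 7), (7, 6)]
    rng := [(0, 1), (0, 5), (1, 0), (1, 2), (2, 1), (2, 8), (3, 6), (4, 5), (4, 7), (5, 0), (5, 4), (6,
      3), (6, 7), (6, 8), (7, 4), (7, 6), (8, 2), (8, 6)]
    lev := [] }
  links := [[1, 2, 6, 7], [2, 0, 7, 8, 5], [6, 0, 1, 5, 9, 3, 4, 10, 11], [4, 2, 9, 12, 13], [10, 2, 3,
    13], [9, 2, 1, 8, 14, 12]]
  P := {
    a := 6
    N := 15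
    nb := [198, 421, 3707, 12820, 9228, 21254, 2181, 323, 16546, 4140, 10260, 1092, 25128, 5144, 4384]
    tri := [(0, 1, 2), (0, 1, 7), (0, 2, 6), (0, 6, 7), (1, 2, 5), (1, 5, 8), (1, 7, 8), (2, 3, 4), (2,
      3, 9), (2, 4, 10), (2, 5, 9), (2, 6, 11), (2, 10, 11), (3, 4, 13), (3, 9, 12), (3, 12, 13),
      (4, 10, 13), (5, 8, 14), (5, 9, 12), (5, 12, 14)]
    fin := [0, 0, 2, 3, 3, 2, 0, 7, 8, 3, 3, 2, 12, 13, 14]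
    chd := [(0, 8), (2, 12), (2, 14), (8, 2)]
    steps := [(0, 1), (0, 6), (2, 5), (2, 11), (3, 4), (3, 9), (3, 10)] }
  rep := [3, 0, 7, 8, 12, 13, 2, 14]

noncomputable def v1004 : Cov.CovD where
  P := 3
  N := 5
  pl := [1, 7]
  lev := [⟨[], [], [], [2], [(0, 1, [3])]⟩,
    ⟨[], [(0, 1), (0, 3)], [], [2], [(2, 3, [1, 6])]⟩,
    ⟨[(0, 1)], [(0, 0), (0, 1), (0, 6), (1, 0), (1, 1), (1, 3), (1, 6)], [(0, 0), (0, 1),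
      (0, 6), (1, 6)], [], [(0, 1, [3]), (3, 0, []), (4, 0, []), (5, 6, [3, 4, 7])]⟩,
    ⟨[(0, 2), (1, 2)], [(2, 0), (2, 1), (2, 4), (2, 6)], [(0, 4)], [5], [(3, 0, []), (6, 4,
      [6])]⟩,
    ⟨[(0, 2), (1, 2), (2, 3)], [(2, 0), (2, 1), (2, 6), (3, 0), (3, 4)], [], [5], [(4, 0,
      [])]⟩,
    ⟨[(0, 1), (0, 2), (1, 2), (2, 3), (2, 4)], [(1, 0), (1, 3), (1, 4), (1, 7), (2, 0), (2,
      1), (2, 3), (2, 4), (2, 6), (2, 7), (3, 0), (3, 4)], [(0, 3), (0, 4), (0, 7), (3, 4),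
      (3, 7), (4, 7)], [], [(2, 3, [1, 6]), (3, 0, []), (6, 4, [6]), (8, 7, [6])]⟩]
  Ta := [((3, 6), 0, 4), ((4, 5), 0, 6), ((4, 7), 0, 5)]
  Tb := [((0, 1, 5), 1, 2, 6), ((1, 0, 2), 2, 1, 3), ((2, 1, 8), 3, 2, 7), ((4, 5, 7), 0, 6, 5),
    ((5, 0, 4), 6, 1, 0), ((6, 3, 7), 4, 0, 5), ((6, 3, 8), 4, 0, 7), ((6, 7, 8), 4, 5, 7),
    ((7, 4, 6), 5, 0, 4), ((8, 2, 6), 7, 3, 4)]
  Tc := [(3, 1, 6), (6, 3, 4), (6, 3, 7), (6, 4, 7)]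
  Td := [((1, 3), (0, 1), 2), ((1, 3), (0, 5), 6), ((3, 1), (2, 1), 2), ((3, 1), (2, 8), 7), ((3,
    6), (2, 1), 2), ((3, 6), (2, 8), 7), ((4, 6), (6, 3), 0), ((4, 6), (6, 7), 5), ((4, 6),
    (6, 8), 7), ((6, 3), (5, 0), 1), ((6, 3), (5, 4), 0), ((6, 4), (5, 0), 1), ((6, 4), (5,
    4), 0), ((6, 7), (5, 0), 1), ((6, 7), (5, 4), 0), ((7, 6), (8, 2), 3), ((7, 6), (8, 6),
    4)]
  G := [[0x2462628841485ce212122e888881ea414141e8882a844ee4, 0x216462ec18181ea14,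
    0x614268881a1ec261882c, 0xe18182e441e461e8414142e888181ecd1, 0x416461ea18181ec21],
    [0x985411c48cf2144983228cbc68, 0x22a224bc8c442d618, 0x747268798829c24,
    0x9811a3228af4316541262f8c1, 0x54425b8b2a4bc28]]

noncomputable def n1004 : Ent := ⟨e1004, noF, [], [], []⟩

def c1004 : PLift (Cov.check n1004.C.D v1004 = true) := ⟨by decide +kernel⟩

def b1004 : PLift (entF (fidx ts) 400 1004 n1004 = true) := ⟨by decide +kernel⟩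

theorem g1004 : GoodF (fidx ts) 400 1004 := GoodF.ofV v1004 n1004 c1004.down b1004.down

/-- 459546:834 -/
noncomputable def e1005 : SCfg where
  D := {
    a := 6
    L := 10
    kp := 8
    inn := [(0, 1), (0, 2), (1, 0), (1, 2), (1, 5), (2, 0), (2, 1), (2, 3), (2, 4), (2, 5), (3, 2), (3,
      4), (4, 2), (4, 3), (5, 1), (5, 2)]
    mix := [(0, 0), (0, 1), (1, 1), (1, 2), (2, 0), (2, 3), (2, 4), (2, 5), (3, 3), (3, 6), (3, 7), (4,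
      4), (4, 7), (5, 2), (5, 3), (5, 8), (5, 9)]
    cl := [1, 2, 3, 0, 0, 5, 8, 4, 6, 7]
    chq := [(1, 3), (3, 1), (3, 5), (5, 3), (5, 6), (5, 7), (6, 5), (7, 5)]
    rng := [(0, 1), (0, 5), (1, 0), (1, 2), (2, 1), (2, 8), (3, 6), (3, 9), (4, 5), (4, 7), (5, 0), (5,
      4), (6, 3), (6, 7), (7, 4), (7, 6), (8, 2), (8, 9), (9, 3), (9, 8)]
    lev := [] }
  links := [[1, 2, 6, 7], [2, 0, 7, 8, 5], [6, 0, 1, 5, 9, 3, 4, 10, 11], [4, 2, 9, 12, 13], [10, 2, 3,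
    13], [9, 2, 1, 8, 14, 15]]
  P := {
    a := 6
    N := 16
    nb := [198, 421, 3707, 12820, 9228, 49926, 2181, 323, 16546, 36908, 10260, 1092, 8712, 5144,
      33056, 16928]
    tri := [(0, 1, 2), (0, 1, 7), (0, 2, 6), (0, 6, 7), (1, 2, 5), (1, 5, 8), (1, 7, 8), (2, 3, 4), (2,
      3, 9), (2, 4, 10), (2, 5, 9), (2, 6, 11), (2, 10, 11), (3, 4, 13), (3, 9, 12), (3, 12, 13),
      (4, 10, 13), (5, 8, 14), (5, 9, 15), (5, 14, 15)]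
    fin := [0, 0, 2, 3, 3, 2, 0, 7, 8, 3, 3, 2, 12, 13, 14, 15]
    chd := [(0, 8), (2, 14), (2, 15), (8, 2)]
    steps := [(0, 1), (0, 6), (2, 5), (2, 11), (3, 4), (3, 9), (3, 10)] }
  rep := [3, 0, 7, 8, 13, 2, 14, 15, 12]

noncomputable def v1005 : Cov.CovD where
  P := 3
  N := 6
  pl := [1, 6, 7]
  lev := [⟨[], [], [], [2], [(0, 1, [3])]⟩,
    ⟨[], [(0, 1), (0, 3)], [], [2], [(2, 3, [1, 5])]⟩,
    ⟨[(0, 1)], [(0, 0), (0, 1), (0, 5), (1, 0), (1, 1), (1, 3), (1, 5)], [(0, 0), (0, 1),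
      (0, 5), (1, 5)], [], [(0, 1, [3]), (3, 0, []), (4, 0, []), (5, 5, [3, 6, 7])]⟩,
    ⟨[(0, 2), (1, 2)], [(2, 0), (2, 1), (2, 5)], [], [4, 8], [(3, 0, [])]⟩,
    ⟨[(0, 2), (1, 2), (2, 3)], [(2, 0), (2, 1), (2, 5), (3, 0)], [], [4], [(4, 0, [])]⟩,
    ⟨[(0, 1), (0, 2), (1, 2), (2, 3), (2, 4)], [(1, 0), (1, 3), (1, 6), (1, 7), (2, 0), (2,
      1), (2, 3), (2, 5), (2, 6), (2, 7), (3, 0)], [(0, 3), (0, 6), (0, 7), (3, 6), (3, 7),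
      (6, 7)], [], [(2, 3, [1, 5]), (3, 0, []), (8, 6, [5]), (9, 7, [5])]⟩]
  Ta := [((3, 6), 0, 8), ((3, 9), 0, 7), ((4, 5), 0, 5), ((4, 7), 0, 4)]
  Tb := [((0, 1, 5), 1, 2, 5), ((1, 0, 2), 2, 1, 3), ((2, 1, 8), 3, 2, 6), ((3, 6, 9), 0, 8, 7),
    ((4, 5, 7), 0, 5, 4), ((5, 0, 4), 5, 1, 0), ((6, 3, 7), 8, 0, 4), ((7, 4, 6), 4, 0, 8),
    ((8, 2, 9), 6, 3, 7), ((9, 3, 8), 7, 0, 6)]
  Tc := [(3, 1, 5), (5, 3, 6), (5, 3, 7), (5, 6, 7)]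
  Td := [((1, 3), (0, 1), 2), ((1, 3), (0, 5), 5), ((3, 1), (2, 1), 2), ((3, 1), (2, 8), 6), ((3,
    5), (2, 1), 2), ((3, 5), (2, 8), 6), ((5, 3), (5, 0), 1), ((5, 3), (5, 4), 0), ((5, 6),
    (5, 0), 1), ((5, 6), (5, 4), 0), ((5, 7), (5, 0), 1), ((5, 7), (5, 4), 0), ((6, 5), (8,
    2), 3), ((6, 5), (8, 9), 7), ((7, 5), (9, 3), 0), ((7, 5), (9, 8), 6)]
  G := [[0x422282122e4841ce212122e8128884ce414442e888181ece2, 0xa8a1a1e414141e618,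
    0xa88181e42416162e82c, 0x818182e461e161e888c414441e888181ecd1, 0x416462ea88181ec21],
    [0xf8b2a4b4f4726878144858e2, 0x246422dc884c2da14, 0x7472687988288abc24,
    0x9811ab2a8af474724467188c4461824cd1, 0x447462db89284bc21]]

noncomputable def n1005 : Ent := ⟨e1005, noF, [], [], [(15, 12, [360035747228123463809659675990397950106674496442981057562591233, 0])]⟩

def c1005 : PLift (Cov.check n1005.C.D v1005 = true) := ⟨by decide +kernel⟩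

def b1005 : PLift (entF (fidx ts) 400 1005 n1005 = true) := ⟨by decide +kernel⟩

theorem g1005 : GoodF (fidx ts) 400 1005 := GoodF.ofV v1005 n1005 c1005.down b1005.down

/-- 464774:835 -/
noncomputable def e1006 : SCfg where
  D := {
    a := 6
    L := 10
    kp := 8
    inn := [(0, 1), (0, 4), (1, 0), (1, 2), (1, 3), (1, 4), (2, 1), (3, 1), (3, 4), (4, 0), (4, 1), (4,
      3), (4, 5), (5, 4)]
    mix := [(0, 0), (0, 1), (1, 1), (1, 2), (2, 1), (2, 2), (2, 3), (3, 2), (3, 4), (3, 5), (3, 6), (3,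
      7), (4, 0), (4, 7), (4, 8), (5, 7), (5, 8), (5, 9)]
    cl := [0, 1, 3, 7, 4, 5, 6, 0, 2, 8]
    chq := [(1, 3), (1, 4), (1, 5), (1, 6), (3, 1), (4, 1), (5, 1), (6, 1)]
    rng := [(0, 1), (0, 8), (1, 0), (1, 3), (2, 3), (2, 4), (3, 1), (3, 2), (4, 2), (4, 5), (5, 4), (5,
      6), (6, 5), (6, 7), (7, 6), (7, 9), (8, 0), (8, 9), (9, 7), (9, 8)]
    lev := [] }
  links := [[1, 4, 6, 7], [4, 0, 7, 2, 8, 3], [8, 1, 7, 9], [4, 1, 8, 10, 11, 12, 13], [6, 0, 1, 3, 13,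
    5, 14], [14, 4, 13, 15]]
  P := {
    a := 6
    N := 16
    nb := [210, 413, 898, 15634, 24683, 57360, 16529, 583, 1550, 388, 2312, 5128, 10248, 36920, 32880,
      24608]
    tri := [(0, 1, 4), (0, 1, 7), (0, 4, 6), (0, 6, 7), (1, 2, 7), (1, 2, 8), (1, 3, 4), (1, 3, 8), (2,
      7, 9), (2, 8, 9), (3, 4, 13), (3, 8, 10), (3, 10, 11), (3, 11, 12), (3, 12, 13), (4, 5, 13),
      (4, 5, 14), (4, 6, 14), (5, 13, 15), (5, 14, 15)]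
    fin := [0, 1, 1, 1, 0, 0, 0, 1, 8, 9, 10, 11, 12, 0, 14, 15]
    chd := [(1, 8), (1, 10), (1, 11), (1, 12)]
    steps := [(0, 4), (0, 5), (0, 6), (0, 13), (1, 2), (1, 3), (1, 7)] }
  rep := [0, 1, 14, 8, 10, 11, 12, 9, 15]

noncomputable def v1006 : Cov.CovD where
  P := 3
  N := 6
  pl := [3, 8, 9]
  lev := [⟨[], [], [(0, 1)], [], [(0, 0, []), (1, 1, [3, 4, 5, 6])]⟩,
    ⟨[], [(0, 0), (0, 1), (0, 3)], [(1, 3)], [], [(1, 1, [3, 4, 5, 6]), (2, 3, [1])]⟩,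
    ⟨[(0, 1)], [(0, 1), (1, 1), (1, 3)], [(1, 3)], [7], [(1, 1, [3, 4, 5, 6]), (2, 3,
      [1])]⟩,
    ⟨[(0, 1), (1, 2)], [(1, 0), (1, 1), (1, 3), (1, 4), (1, 5), (1, 6), (2, 3)], [(0, 3),
      (0, 4), (0, 5), (0, 6), (3, 4), (3, 5), (3, 6), (4, 5), (4, 6), (5, 6)], [], [(2, 3,
      [1]), (4, 4, [1]), (5, 5, [1]), (6, 6, [1]), (7, 0, [])]⟩,
    ⟨[(0, 1), (0, 3), (1, 2), (1, 3)], [(0, 0), (0, 1), (1, 0), (1, 1), (1, 3), (3, 0), (3,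
      3), (3, 4), (3, 5), (3, 6)], [(0, 0)], [2], [(0, 0, []), (7, 0, [])]⟩,
    ⟨[(0, 4), (1, 4), (3, 4)], [(3, 0), (4, 0)], [], [2, 8], [(7, 0, [])]⟩]
  Ta := [((0, 1), 0, 1), ((0, 8), 0, 2), ((7, 6), 0, 6), ((7, 9), 0, 8)]
  Tb := [((0, 1, 8), 0, 1, 2), ((1, 0, 3), 1, 0, 7), ((2, 3, 4), 3, 7, 4), ((3, 1, 2), 7, 1, 3),
    ((4, 2, 5), 4, 3, 5), ((5, 4, 6), 5, 4, 6), ((6, 5, 7), 6, 5, 0), ((7, 6, 9), 0, 6, 8),
    ((8, 0, 9), 2, 0, 8), ((9, 7, 8), 8, 0, 2)]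
  Tc := [(1, 3, 4), (1, 3, 5), (1, 3, 6), (1, 4, 5), (1, 4, 6), (1, 5, 6)]
  Td := [((1, 3), (1, 0), 0), ((1, 3), (1, 3), 7), ((1, 4), (1, 0), 0), ((1, 4), (1, 3), 7), ((1,
    5), (1, 0), 0), ((1, 5), (1, 3), 7), ((1, 6), (1, 0), 0), ((1, 6), (1, 3), 7), ((3, 1),
    (2, 3), 7), ((3, 1), (2, 4), 4), ((4, 1), (4, 2), 3), ((4, 1), (4, 5), 5), ((5, 1), (5,
    4), 4), ((5, 1), (5, 6), 6), ((6, 1), (6, 5), 5), ((6, 1), (6, 7), 0)]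
  G := [[0, 0x48c122c418c814ca, 0x6824a4215a4288c, 0x18241821514288c, 0x182182c418218291c], [0,
    0, 0, 0xc8211c428c824c5, 0xa82a8291a82a82c45]]

noncomputable def n1006 : Ent := ⟨e1006, noF, [], [], []⟩

def c1006 : PLift (Cov.check n1006.C.D v1006 = true) := ⟨by decide +kernel⟩

def b1006 : PLift (entF (fidx ts) 400 1006 n1006 = true) := ⟨by decide +kernel⟩

theorem g1006 : GoodF (fidx ts) 400 1006 := GoodF.ofV v1006 n1006 c1006.down b1006.down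

/-- 486654:836 -/
noncomputable def e1007 : SCfg where
  D := {
    a := 6
    L := 10
    kp := 7
    inn := [(0, 1), (0, 3), (1, 0), (1, 2), (1, 3), (1, 4), (1, 5), (2, 1), (2, 4), (3, 0), (3, 1), (3,
      5), (4, 1), (4, 2), (5, 1), (5, 3)]
    mix := [(0, 0), (0, 1), (1, 1), (1, 2), (1, 3), (2, 2), (2, 4), (2, 5), (2, 6), (3, 0), (3, 7), (3,
      8), (4, 1), (4, 4), (4, 9), (5, 3), (5, 7)]
    cl := [3, 0, 1, 0, 1, 4, 5, 2, 6, 7]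
    chq := [(2, 3), (3, 2)]
    rng := [(0, 1), (0, 8), (1, 0), (1, 9), (2, 3), (2, 6), (3, 2), (3, 7), (4, 5), (4, 9), (5, 4), (5,
      6), (6, 2), (6, 5), (7, 3), (7, 8), (8, 0), (8, 7), (9, 1), (9, 4)]
    lev := [] }
  links := [[1, 3, 6, 7], [3, 0, 7, 4, 2, 8, 9, 5], [8, 1, 4, 10, 11, 12], [6, 0, 1, 5, 13, 14], [10, 2,
    1, 7, 15], [13, 3, 1, 9]]
  P := {
    a := 6
    N := 16
    nb := [202, 957, 7442, 24675, 33926, 8714, 16521, 32851, 4614, 8482, 34836, 5124, 2308, 16936,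
      8264, 1168]
    tri := [(0, 1, 3), (0, 1, 7), (0, 3, 6), (0, 6, 7), (1, 2, 4), (1, 2, 8), (1, 3, 5), (1, 4, 7), (1,
      5, 9), (1, 8, 9), (2, 4, 10), (2, 8, 12), (2, 10, 11), (2, 11, 12), (3, 5, 13), (3, 6, 14),
      (3, 13, 14), (4, 7, 15), (4, 10, 15), (5, 9, 13)]
    fin := [0, 1, 2, 0, 1, 0, 0, 1, 2, 1, 2, 11, 12, 13, 14, 15]
    chd := [(0, 13)]
    steps := [(0, 3), (0, 5), (0, 6), (1, 4), (1, 7), (1, 9), (2, 10), (2, 8)] }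
  rep := [1, 2, 13, 0, 11, 12, 14, 15]

noncomputable def v1007 : Cov.CovD where
  P := 3
  N := 5
  pl := [5, 6, 8, 9]
  lev := [⟨[], [], [(0, 3)], [], [(0, 3, [2]), (1, 0, [])]⟩,
    ⟨[], [(0, 0), (0, 1), (0, 3)], [(0, 0), (0, 1)], [], [(1, 0, []), (2, 1, []), (3, 0,
      [])]⟩,
    ⟨[(0, 1)], [(1, 0), (1, 1)], [(1, 1)], [4, 5], [(2, 1, []), (4, 1, [])]⟩,
    ⟨[(0, 1), (1, 2)], [(0, 0), (0, 2), (0, 3), (1, 0), (1, 1), (1, 2), (1, 3)], [(2, 3)],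
      [6], [(0, 3, [2]), (7, 2, [3])]⟩,
    ⟨[(0, 1), (1, 2), (1, 3)], [(0, 0), (1, 0), (1, 1), (2, 0), (2, 1)], [(0, 1)], [7],
      [(1, 0, []), (4, 1, [])]⟩,
    ⟨[(0, 1), (0, 3), (1, 2), (1, 3), (1, 4)], [(1, 0), (1, 1), (1, 2), (3, 0), (3, 2), (3,
      3)], [(0, 2)], [], [(3, 0, []), (7, 2, [3])]⟩]
  Ta := [((1, 0), 0, 3), ((1, 9), 0, 7), ((2, 3), 1, 0), ((2, 6), 1, 5), ((3, 2), 0, 1), ((3, 7),
    0, 2), ((4, 5), 1, 4), ((4, 9), 1, 7)]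
  Tb := [((0, 1, 8), 3, 0, 6), ((1, 0, 9), 0, 3, 7), ((2, 3, 6), 1, 0, 5), ((3, 2, 7), 0, 1, 2),
    ((4, 5, 9), 1, 4, 7), ((5, 4, 6), 4, 1, 5), ((6, 2, 5), 5, 1, 4), ((7, 3, 8), 2, 0, 6),
    ((8, 0, 7), 6, 3, 2), ((9, 1, 4), 7, 0, 1)]
  Tc := []
  Td := [((2, 3), (7, 3), 0), ((2, 3), (7, 8), 6), ((3, 2), (0, 1), 0), ((3, 2), (0, 8), 6)]
  G := [[0, 0, 0, 0x121242d4821242d821282d9c2, 0x22223121222b221282bd1288c4], [0, 0, 0,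
    0x4444411c44cd1441c48cdd88c1848cd888188dc2, 0x2421411c22cb22c22c3d882811c88c988811c8de4],
    [0, 0x446446544644644cd44648a44cde48c88c2, 0x42226428242e422242ed8288c1,
    0x41425414141d424282dd4288c2, 0x22223222281b222282bd2288c4], [0, 0,
    0x41841844c8d221481428c4d841241244c2d8e, 0x41444c45818141d8181988c48c9dc2,
    0x21213218181b28c22c3d81888c89a4]]

noncomputable def n1007 : Ent := ⟨e1007, noF, [], [], []⟩

def c1007 : PLift (Cov.check n1007.C.D v1007 = true) := ⟨by decide +kernel⟩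

def b1007 : PLift (entF (fidx ts) 400 1007 n1007 = true) := ⟨by decide +kernel⟩

theorem g1007 : GoodF (fidx ts) 400 1007 := GoodF.ofV v1007 n1007 c1007.down b1007.down

/-- 459544:837/1 -/
noncomputable def e1008 : SCfg where
  D := {
    a := 6
    L := 9
    kp := 6
    inn := [(0, 1), (0, 2), (1, 0), (1, 2), (2, 0), (2, 1), (2, 3), (2, 4), (3, 2), (3, 5), (4, 2), (5,
      3)]
    mix := [(0, 0), (0, 1), (1, 1), (1, 2), (1, 3), (2, 0), (2, 3), (2, 4), (2, 5), (2, 6), (3, 4), (3,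
      5), (3, 7), (4, 5), (4, 6), (4, 8), (5, 2), (5, 4), (5, 7)]
    cl := [1, 2, 3, 1, 0, 0, 4, 5, 6]
    chq := [(1, 6), (6, 1)]
    rng := [(0, 1), (0, 6), (1, 0), (1, 2), (2, 1), (2, 3), (2, 4), (2, 7), (3, 2), (3, 4), (4, 2), (4,
      3), (5, 7), (5, 8), (6, 0), (6, 8), (7, 2), (7, 5), (8, 5), (8, 6)]
    lev := [] }
  links := [[1, 2, 6, 7], [2, 0, 7, 8, 9], [6, 0, 1, 9, 10, 3, 11, 4, 12], [11, 2, 10, 5, 13], [12, 2,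
    11, 14], [13, 3, 10, 8]]
  P := {
    a := 6
    N := 15
    nb := [198, 901, 7771, 11300, 22532, 9480, 4229, 323, 9890, 1286, 812, 24604, 16468, 2344, 6160]
    tri := [(0, 1, 2), (0, 1, 7), (0, 2, 6), (0, 6, 7), (1, 2, 9), (1, 7, 8), (1, 8, 9), (2, 3, 10),
      (2, 3, 11), (2, 4, 11), (2, 4, 12), (2, 6, 12), (2, 9, 10), (3, 5, 10), (3, 5, 13), (3, 11,
      13), (4, 11, 14), (4, 12, 14), (5, 8, 10), (5, 8, 13)]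
    fin := [0, 0, 0, 3, 0, 5, 0, 7, 5, 0, 3, 3, 12, 13, 14]
    chd := [(0, 14)]
    steps := [(0, 1), (0, 2), (0, 4), (0, 6), (0, 9), (3, 10), (3, 11), (5, 8)] }
  rep := [3, 0, 7, 5, 12, 13, 14]

noncomputable def v1008 : Cov.CovD where
  P := 3
  N := 4
  pl := [1, 2, 6, 7]
  lev := [⟨[], [], [], [2], [(0, 1, [6])]⟩,
    ⟨[], [(0, 1)], [], [2, 3], [(3, 1, [6])]⟩,
    ⟨[(0, 1)], [(0, 0), (0, 1), (1, 0), (1, 1)], [(0, 0), (0, 1), (1, 1)], [4], [(0, 1,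
      [6]), (3, 1, [6]), (4, 0, []), (5, 0, [])]⟩,
    ⟨[(0, 2), (1, 2)], [(2, 0), (2, 1)], [(0, 0)], [5], [(4, 0, []), (5, 0, [])]⟩,
    ⟨[(0, 2), (1, 2), (2, 3)], [(2, 0), (2, 1), (2, 6), (3, 0)], [(0, 6)], [4], [(5, 0,
      []), (8, 6, [1])]⟩,
    ⟨[(2, 3)], [(2, 0), (3, 0)], [], [3, 5], [(4, 0, [])]⟩]
  Ta := [((0, 1), 1, 2), ((0, 6), 1, 4), ((3, 2), 1, 3), ((3, 4), 1, 0), ((4, 2), 0, 3), ((4, 3),
    0, 1), ((5, 7), 0, 5), ((5, 8), 0, 6)]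
  Tb := [((0, 1, 6), 1, 2, 4), ((1, 0, 2), 2, 1, 3), ((2, 1, 3), 3, 2, 1), ((2, 1, 4), 3, 2, 0),
    ((2, 1, 7), 3, 2, 5), ((2, 3, 4), 3, 1, 0), ((2, 3, 7), 3, 1, 5), ((2, 4, 7), 3, 0, 5),
    ((3, 2, 4), 1, 3, 0), ((4, 2, 3), 0, 3, 1), ((5, 7, 8), 0, 5, 6), ((6, 0, 8), 4, 1, 6),
    ((7, 2, 5), 5, 3, 0), ((8, 5, 6), 6, 0, 4)]
  Tc := []
  Td := [((1, 6), (0, 1), 2), ((1, 6), (0, 6), 4), ((1, 6), (3, 2), 3), ((1, 6), (3, 4), 0), ((6,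
    1), (8, 5), 0), ((6, 1), (8, 6), 4)]
  G := [[0, 0, 0xc2226c121ac24, 0x822268242ac422264122ac91, 0xc1216c222ac28], [0,
    0x8121a8121c6412164161acc1, 0x82a268221ac2242c4162acc2, 0, 0x418168242acc22264222ac91],
    [0, 0, 0x116222ea11a22ac24, 0x1222612226c18, 0x122266111e22aac28], [0, 0,
    0x8222682126c1242c4222acc2, 0, 0x3252612a26c18]]

noncomputable def n1008 : Ent := ⟨e1008, noF, [], [], []⟩

def c1008 : PLift (Cov.check n1008.C.D v1008 = true) := ⟨by decide +kernel⟩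

def b1008 : PLift (entF (fidx ts) 400 1008 n1008 = true) := ⟨by decide +kernel⟩

theorem g1008 : GoodF (fidx ts) 400 1008 := GoodF.ofV v1008 n1008 c1008.down b1008.down

/-- 459544:837 -/
noncomputable def e1009 : SCfg where
  D := {
    a := 6
    L := 10
    kp := 7
    inn := [(0, 1), (0, 2), (1, 0), (1, 2), (2, 0), (2, 1), (2, 3), (2, 4), (3, 2), (3, 5), (4, 2), (5,
      3)]
    mix := [(0, 0), (0, 1), (1, 1), (1, 2), (1, 3), (2, 0), (2, 3), (2, 4), (2, 5), (2, 6), (3, 4), (3,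
      5), (3, 7), (4, 5), (4, 6), (4, 8), (5, 4), (5, 7), (5, 9)]
    cl := [1, 3, 6, 1, 0, 0, 2, 4, 5, 7]
    chq := [(1, 5), (5, 1)]
    rng := [(0, 1), (0, 6), (1, 0), (1, 2), (2, 1), (2, 3), (3, 2), (3, 4), (4, 3), (4, 9), (5, 7), (5,
      8), (6, 0), (6, 8), (7, 5), (7, 9), (8, 5), (8, 6), (9, 4), (9, 7)]
    lev := [] }
  links := [[1, 2, 6, 7], [2, 0, 7, 8, 9], [6, 0, 1, 9, 10, 3, 11, 4, 12], [11, 2, 10, 5, 13], [12, 2,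
    11, 14], [13, 3, 10, 15]]
  P := {
    a := 6
    N := 16
    nb := [198, 901, 7771, 11300, 22532, 41992, 4229, 323, 642, 1286, 33324, 24604, 16468, 34856,
      6160, 9248]
    tri := [(0, 1, 2), (0, 1, 7), (0, 2, 6), (0, 6, 7), (1, 2, 9), (1, 7, 8), (1, 8, 9), (2, 3, 10),
      (2, 3, 11), (2, 4, 11), (2, 4, 12), (2, 6, 12), (2, 9, 10), (3, 5, 10), (3, 5, 13), (3, 11,
      13), (4, 11, 14), (4, 12, 14), (5, 10, 15), (5, 13, 15)]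
    fin := [0, 0, 0, 3, 0, 3, 0, 7, 8, 0, 3, 3, 12, 13, 14, 15]
    chd := [(0, 14)]
    steps := [(0, 1), (0, 2), (0, 4), (0, 6), (0, 9), (3, 5), (3, 10), (3, 11)] }
  rep := [3, 0, 12, 7, 13, 14, 8, 15]

noncomputable def v1009 : Cov.CovD where
  P := 3
  N := 5
  pl := [1, 2, 6, 7, 9]
  lev := [⟨[], [], [], [3], [(0, 1, [5])]⟩,
    ⟨[], [(0, 1)], [], [3, 6], [(3, 1, [5])]⟩,
    ⟨[(0, 1)], [(0, 0), (0, 1), (1, 0), (1, 1)], [(0, 0), (0, 1), (1, 1)], [2], [(0, 1,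
      [5]), (3, 1, [5]), (4, 0, []), (5, 0, [])]⟩,
    ⟨[(0, 2), (1, 2)], [(2, 0), (2, 1)], [(0, 0)], [4], [(4, 0, []), (5, 0, [])]⟩,
    ⟨[(0, 2), (1, 2), (2, 3)], [(2, 0), (2, 1), (2, 5), (3, 0)], [(0, 5)], [2], [(5, 0,
      []), (8, 5, [1])]⟩,
    ⟨[(2, 3)], [(2, 0), (3, 0)], [], [4, 7], [(4, 0, [])]⟩]
  Ta := [((0, 1), 1, 3), ((0, 6), 1, 2), ((3, 2), 1, 6), ((3, 4), 1, 0), ((4, 3), 0, 1), ((4, 9),
    0, 7), ((5, 7), 0, 4), ((5, 8), 0, 5)]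
  Tb := [((0, 1, 6), 1, 3, 2), ((1, 0, 2), 3, 1, 6), ((2, 1, 3), 6, 3, 1), ((3, 2, 4), 1, 6, 0),
    ((4, 3, 9), 0, 1, 7), ((5, 7, 8), 0, 4, 5), ((6, 0, 8), 2, 1, 5), ((7, 5, 9), 4, 0, 7),
    ((8, 5, 6), 5, 0, 2), ((9, 4, 7), 7, 0, 4)]
  Tc := []
  Td := [((1, 5), (0, 1), 3), ((1, 5), (0, 6), 2), ((1, 5), (3, 2), 6), ((1, 5), (3, 4), 0), ((5,
    1), (8, 5), 0), ((5, 1), (8, 6), 2)]
  G := [[0, 0, 0xc262a42c262a4c2a26895, 0xc161a42c161a42c, 0xc1a1682c2a168c1a2685c], [0,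
    0xc161a4c161a4c1a168e1, 0xc262a4c2a268c2a268d2, 0, 0xc2a168c2a268c2a268d2], [0, 0,
    0xc2a2682c212681262a859, 0xccc11ca42c1c1ac6829, 0x12a26821262a8c2126859], [0, 0,
    0x12a26812d2a4c21268d2, 0, 0x12a268c212685232c8d2]]

noncomputable def n1009 : Ent := ⟨e1009, noF, [], [], [(8, 15, [360035742630636841211993100915356868655746945586763691011801089, 0])]⟩

def c1009 : PLift (Cov.check n1009.C.D v1009 = true) := ⟨by decide +kernel⟩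

def b1009 : PLift (entF (fidx ts) 400 1009 n1009 = true) := ⟨by decide +kernel⟩

theorem g1009 : GoodF (fidx ts) 400 1009 := GoodF.ofV v1009 n1009 c1009.down b1009.down

/-- 459544:838/1 -/
noncomputable def e1010 : SCfg where
  D := {
    a := 6
    L := 9
    kp := 6
    inn := [(0, 1), (0, 2), (1, 0), (1, 2), (2, 0), (2, 1), (2, 3), (2, 4), (3, 2), (3, 5), (4, 2), (5,
      3)]
    mix := [(0, 0), (0, 1), (1, 1), (1, 2), (1, 3), (2, 0), (2, 3), (2, 4), (2, 5), (2, 6), (3, 4), (3,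
      5), (3, 7), (4, 5), (4, 6), (4, 8), (5, 5), (5, 7), (5, 8)]
    cl := [0, 1, 6, 0, 3, 0, 2, 5, 4]
    chq := [(3, 4), (4, 3)]
    rng := [(0, 1), (0, 6), (1, 0), (1, 2), (2, 1), (2, 3), (3, 2), (3, 4), (4, 3), (4, 7), (5, 8), (6,
      0), (6, 8), (7, 4), (7, 8), (8, 5), (8, 6), (8, 7)]
    lev := [] }
  links := [[1, 2, 6, 7], [2, 0, 7, 8, 9], [6, 0, 1, 9, 10, 3, 11, 4, 12], [11, 2, 10, 13, 5], [12, 2,
    11, 14], [11, 3, 13, 14]]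
  P := {
    a := 6
    N := 15
    nb := [198, 901, 7771, 11300, 22532, 26632, 4229, 323, 642, 1286, 8716, 16444, 16468, 17448,
      14384]
    tri := [(0, 1, 2), (0, 1, 7), (0, 2, 6), (0, 6, 7), (1, 2, 9), (1, 7, 8), (1, 8, 9), (2, 3, 10),
      (2, 3, 11), (2, 4, 11), (2, 4, 12), (2, 6, 12), (2, 9, 10), (3, 5, 11), (3, 5, 13), (3, 10,
      13), (4, 11, 14), (4, 12, 14), (5, 11, 14), (5, 13, 14)]
    fin := [0, 0, 0, 3, 0, 3, 0, 7, 8, 0, 3, 0, 12, 13, 14]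
    chd := [(3, 14)]
    steps := [(0, 1), (0, 2), (0, 4), (0, 6), (0, 9), (0, 11), (3, 5), (3, 10)] }
  rep := [0, 7, 12, 3, 14, 13, 8]

noncomputable def v1010 : Cov.CovD where
  P := 3
  N := 4
  pl := [1, 2, 6, 7]
  lev := [⟨[], [], [], [1], [(0, 0, [])]⟩,
    ⟨[], [(0, 0)], [], [1, 6], [(3, 0, [])]⟩,
    ⟨[(0, 1)], [(0, 0), (0, 3), (1, 0), (1, 3)], [(0, 0), (0, 3)], [2], [(0, 0, []), (3, 0,
      []), (4, 3, [4]), (5, 0, [])]⟩,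
    ⟨[(0, 2), (1, 2)], [(2, 0), (2, 3)], [(0, 3)], [5], [(4, 3, [4]), (5, 0, [])]⟩,
    ⟨[(0, 2), (1, 2), (2, 3)], [(2, 0), (2, 3), (2, 4), (3, 0)], [(0, 4)], [2], [(5, 0,
      []), (8, 4, [3])]⟩,
    ⟨[(2, 3)], [(2, 0), (3, 0), (3, 3), (3, 4), (4, 0), (4, 4)], [(0, 4)], [5], [(5, 0,
      []), (8, 4, [3])]⟩]
  Ta := [((0, 1), 0, 1), ((0, 6), 0, 2), ((3, 2), 0, 6), ((3, 4), 0, 3), ((5, 8), 0, 4)]
  Tb := [((0, 1, 6), 0, 1, 2), ((1, 0, 2), 1, 0, 6), ((2, 1, 3), 6, 1, 0), ((3, 2, 4), 0, 6, 3),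
    ((4, 3, 7), 3, 0, 5), ((6, 0, 8), 2, 0, 4), ((7, 4, 8), 5, 3, 4), ((8, 5, 6), 4, 0, 2),
    ((8, 5, 7), 4, 0, 5), ((8, 6, 7), 4, 2, 5)]
  Tc := []
  Td := [((3, 4), (4, 3), 0), ((3, 4), (4, 7), 5), ((4, 3), (8, 5), 0), ((4, 3), (8, 6), 2), ((4,
    3), (8, 7), 5)]
  G := [[0, 0x412a1c85c61e49814818816ce2, 0xc2a2985c443618, 0x61e49b8a83c14, 0x61a2918c16a14],
    [0, 0, 0, 0x21544471856188bc14a141ec1a83cc1, 0x322256118988ba14322c18c16ac4], [0, 0, 0,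
    0x88a8c8e416444c4e81c, 0x62a222e88a8c8ea14]]

noncomputable def n1010 : Ent := ⟨e1010, noF, [], [], []⟩

def c1010 : PLift (Cov.check n1010.C.D v1010 = true) := ⟨by decide +kernel⟩

def b1010 : PLift (entF (fidx ts) 400 1010 n1010 = true) := ⟨by decide +kernel⟩

theorem g1010 : GoodF (fidx ts) 400 1010 := GoodF.ofV v1010 n1010 c1010.down b1010.down

/-- 459544:838 -/
noncomputable def e1011 : SCfg where
  D := {
    a := 6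
    L := 10
    kp := 7
    inn := [(0, 1), (0, 2), (1, 0), (1, 2), (2, 0), (2, 1), (2, 3), (2, 4), (3, 2), (3, 5), (4, 2), (5,
      3)]
    mix := [(0, 0), (0, 1), (1, 1), (1, 2), (1, 3), (2, 0), (2, 3), (2, 4), (2, 5), (2, 6), (3, 4), (3,
      5), (3, 7), (4, 5), (4, 6), (4, 8), (5, 5), (5, 7), (5, 9)]
    cl := [1, 3, 6, 1, 0, 0, 2, 4, 5, 7]
    chq := [(1, 5), (5, 1)]
    rng := [(0, 1), (0, 6), (1, 0), (1, 2), (2, 1), (2, 3), (3, 2), (3, 4), (4, 3), (4, 7), (5, 8), (5,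
      9), (6, 0), (6, 8), (7, 4), (7, 9), (8, 5), (8, 6), (9, 5), (9, 7)]
    lev := [] }
  links := [[1, 2, 6, 7], [2, 0, 7, 8, 9], [6, 0, 1, 9, 10, 3, 11, 4, 12], [11, 2, 10, 13, 5], [12, 2,
    11, 14], [11, 3, 13, 15]]
  P := {
    a := 6
    N := 16
    nb := [198, 901, 7771, 11300, 22532, 43016, 4229, 323, 642, 1286, 8716, 49212, 16468, 33832, 6160,
      10272]
    tri := [(0, 1, 2), (0, 1, 7), (0, 2, 6), (0, 6, 7), (1, 2, 9), (1, 7, 8), (1, 8, 9), (2, 3, 10),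
      (2, 3, 11), (2, 4, 11), (2, 4, 12), (2, 6, 12), (2, 9, 10), (3, 5, 11), (3, 5, 13), (3, 10,
      13), (4, 11, 14), (4, 12, 14), (5, 11, 15), (5, 13, 15)]
    fin := [0, 0, 0, 3, 0, 3, 0, 7, 8, 0, 3, 3, 12, 13, 14, 15]
    chd := [(0, 14)]
    steps := [(0, 1), (0, 2), (0, 4), (0, 6), (0, 9), (3, 5), (3, 10), (3, 11)] }
  rep := [3, 0, 12, 7, 13, 14, 8, 15]

noncomputable def v1011 : Cov.CovD where
  P := 3
  N := 5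
  pl := [1, 2, 6, 7, 9]
  lev := [⟨[], [], [], [3], [(0, 1, [5])]⟩,
    ⟨[], [(0, 1)], [], [3, 6], [(3, 1, [5])]⟩,
    ⟨[(0, 1)], [(0, 0), (0, 1), (1, 0), (1, 1)], [(0, 0), (0, 1), (1, 1)], [2], [(0, 1,
      [5]), (3, 1, [5]), (4, 0, []), (5, 0, [])]⟩,
    ⟨[(0, 2), (1, 2)], [(2, 0), (2, 1)], [(0, 0)], [4], [(4, 0, []), (5, 0, [])]⟩,
    ⟨[(0, 2), (1, 2), (2, 3)], [(2, 0), (2, 1), (2, 5), (3, 0)], [(0, 5)], [2], [(5, 0,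
      []), (8, 5, [1])]⟩,
    ⟨[(2, 3)], [(2, 0), (3, 0), (4, 0)], [], [4, 7], [(5, 0, [])]⟩]
  Ta := [((0, 1), 1, 3), ((0, 6), 1, 2), ((3, 2), 1, 6), ((3, 4), 1, 0), ((4, 3), 0, 1), ((4, 7),
    0, 4), ((5, 8), 0, 5), ((5, 9), 0, 7)]
  Tb := [((0, 1, 6), 1, 3, 2), ((1, 0, 2), 3, 1, 6), ((2, 1, 3), 6, 3, 1), ((3, 2, 4), 1, 6, 0),
    ((4, 3, 7), 0, 1, 4), ((5, 8, 9), 0, 5, 7), ((6, 0, 8), 2, 1, 5), ((7, 4, 9), 4, 0, 7),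
    ((8, 5, 6), 5, 0, 2), ((9, 5, 7), 7, 0, 4)]
  Tc := []
  Td := [((1, 5), (0, 1), 3), ((1, 5), (0, 6), 2), ((1, 5), (3, 2), 6), ((1, 5), (3, 4), 0), ((5,
    1), (8, 5), 0), ((5, 1), (8, 6), 2)]
  G := [[0, 0, 0x1262a4c21268cc262a429, 0xc161a42c161a42c, 0xc112681262c8c1262c825], [0,
    0xc1a168211c11ca4c1a168c3, 0x12a264c212a47212c8d2, 0, 0x12a1681261a812a168d2], [0, 0,
    0xe224c262a4ae248e228e2847c, 0xcccaac682cccaac6825, 0xc2a2682c2a268c2a2685c], [0, 0,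
    0xc262a48c2a2684c2a2681d, 0, 0xc2a268c2a268c2a268d2]]

noncomputable def n1011 : Ent := ⟨e1011, noF, [], [], [(15, 14, [385746751338780685620664494392815470296102193487288376376631297, 0])]⟩

def c1011 : PLift (Cov.check n1011.C.D v1011 = true) := ⟨by decide +kernel⟩

def b1011 : PLift (entF (fidx ts) 400 1011 n1011 = true) := ⟨by decide +kernel⟩

theorem g1011 : GoodF (fidx ts) 400 1011 := GoodF.ofV v1011 n1011 c1011.down b1011.down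

/-- 459554:839 -/
noncomputable def e1012 : SCfg where
  D := {
    a := 6
    L := 11
    kp := 8
    inn := [(0, 1), (0, 2), (1, 0), (1, 2), (2, 0), (2, 1), (2, 3), (2, 4), (3, 2), (3, 5), (4, 2), (5,
      3)]
    mix := [(0, 0), (0, 1), (1, 1), (1, 2), (1, 3), (2, 0), (2, 3), (2, 4), (2, 5), (2, 6), (3, 4), (3,
      5), (3, 7), (4, 5), (4, 6), (4, 8), (4, 9), (5, 4), (5, 7), (5, 10)]
    cl := [1, 3, 5, 2, 0, 0, 0, 4, 6, 7, 8]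
    chq := [(0, 5), (1, 5), (5, 0), (5, 1)]
    rng := [(0, 1), (0, 6), (1, 0), (1, 2), (2, 1), (2, 3), (3, 2), (3, 4), (4, 3), (4, 10), (5, 7),
      (5, 8), (6, 0), (6, 9), (7, 5), (7, 10), (8, 5), (8, 9), (9, 6), (9, 8), (10, 4), (10, 7)]
    lev := [] }
  links := [[1, 2, 6, 7], [2, 0, 7, 8, 9], [6, 0, 1, 9, 10, 3, 11, 4, 12], [11, 2, 10, 5, 13], [12, 2,
    11, 14, 15], [13, 3, 10, 16]]
  P := {
    a := 6
    N := 17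
    nb := [198, 901, 7771, 11300, 55300, 74760, 4229, 323, 642, 1286, 66092, 24604, 32852, 67624,
      34832, 20496, 9248]
    tri := [(0, 1, 2), (0, 1, 7), (0, 2, 6), (0, 6, 7), (1, 2, 9), (1, 7, 8), (1, 8, 9), (2, 3, 10),
      (2, 3, 11), (2, 4, 11), (2, 4, 12), (2, 6, 12), (2, 9, 10), (3, 5, 10), (3, 5, 13), (3, 11,
      13), (4, 11, 14), (4, 12, 15), (4, 14, 15), (5, 10, 16), (5, 13, 16)]
    fin := [0, 1, 1, 3, 3, 3, 0, 7, 1, 9, 3, 3, 3, 13, 14, 15, 16]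
    chd := [(0, 1), (1, 3)]
    steps := [(0, 6), (1, 2), (1, 8), (3, 5), (3, 10), (3, 11), (3, 4), (3, 12)] }
  rep := [3, 0, 9, 7, 13, 1, 14, 15, 16]

noncomputable def v1012 : Cov.CovD where
  P := 3
  N := 6
  pl := [1, 3, 7, 8, 9, 10]
  lev := [⟨[], [], [], [3], [(0, 1, [5])]⟩,
    ⟨[], [(0, 1), (0, 5)], [], [2, 3], [(2, 5, [0, 1])]⟩,
    ⟨[(0, 1)], [(0, 0), (0, 1), (1, 0), (1, 1), (1, 5)], [(0, 0), (0, 1)], [2], [(0, 1,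
      [5]), (4, 0, [5]), (5, 0, [5]), (6, 0, [5])]⟩,
    ⟨[(0, 2), (1, 2)], [(2, 0), (2, 1)], [(0, 0)], [4], [(4, 0, [5]), (5, 0, [5])]⟩,
    ⟨[(0, 2), (1, 2), (2, 3)], [(2, 0), (2, 1), (3, 0)], [(0, 0)], [6, 7], [(5, 0, [5]),
      (6, 0, [5])]⟩,
    ⟨[(2, 3)], [(2, 0), (3, 0)], [], [4, 8], [(4, 0, [5])]⟩]
  Ta := [((4, 3), 0, 2), ((4, 10), 0, 8), ((5, 7), 0, 4), ((5, 8), 0, 6), ((6, 0), 0, 1), ((6,
    9), 0, 7)]
  Tb := [((0, 1, 6), 1, 3, 0), ((1, 0, 2), 3, 1, 5), ((2, 1, 3), 5, 3, 2), ((3, 2, 4), 2, 5, 0),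
    ((4, 3, 10), 0, 2, 8), ((5, 7, 8), 0, 4, 6), ((6, 0, 9), 0, 1, 7), ((7, 5, 10), 4, 0, 8),
    ((8, 5, 9), 6, 0, 7), ((9, 6, 8), 7, 0, 6), ((10, 4, 7), 8, 0, 4)]
  Tc := [(5, 0, 1)]
  Td := [((0, 5), (4, 3), 2), ((0, 5), (4, 10), 8), ((0, 5), (5, 7), 4), ((0, 5), (5, 8), 6),
    ((0, 5), (6, 0), 1), ((0, 5), (6, 9), 7), ((1, 5), (0, 1), 3), ((1, 5), (0, 6), 0), ((5,
    0), (2, 1), 3), ((5, 0), (2, 3), 2), ((5, 1), (2, 1), 3), ((5, 1), (2, 3), 2)]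
  G := [[0, 0, 0xccc66aea48c248ccceaaae68cccceaaae682d, 0xccce666ea48ccceaaae684ccceaaae681d,
    0xccceaaae68ccceaaae683ccceaaae6825], [0, 0, 0, 0x319e965ea48ccce111e684311e9dae681d,
    0x956536682c81868116c8136ee83c8186844883d], [0, 0x18841111e116681116111ea81e, 0,
    0x111e111ea4811618111ee84111e111e681d, 0x11611668111611a11ce818186831818682d]]

noncomputable def n1012 : Ent := ⟨e1012, noF, [], [], []⟩

def c1012 : PLift (Cov.check n1012.C.D v1012 = true) := ⟨by decide +kernel⟩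

def b1012 : PLift (entF (fidx ts) 400 1012 n1012 = true) := ⟨by decide +kernel⟩

theorem g1012 : GoodF (fidx ts) 400 1012 := GoodF.ofV v1012 n1012 c1012.down b1012.down

/-- 459554:840/1 -/
noncomputable def e1013 : SCfg where
  D := {
    a := 6
    L := 10
    kp := 7
    inn := [(0, 1), (0, 2), (1, 0), (1, 2), (2, 0), (2, 1), (2, 3), (2, 4), (3, 2), (3, 5), (4, 2), (5,
      3)]
    mix := [(0, 0), (0, 1), (1, 1), (1, 2), (1, 3), (2, 0), (2, 3), (2, 4), (2, 5), (2, 6), (3, 4), (3,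
      5), (3, 7), (4, 5), (4, 6), (4, 8), (4, 9), (5, 5), (5, 7), (5, 8)]
    cl := [1, 3, 6, 2, 0, 0, 0, 4, 5, 7]
    chq := [(0, 6), (1, 6), (6, 0), (6, 1)]
    rng := [(0, 1), (0, 6), (1, 0), (1, 2), (2, 1), (2, 3), (3, 2), (3, 4), (4, 3), (4, 7), (5, 8), (6,
      0), (6, 9), (7, 4), (7, 8), (8, 5), (8, 7), (8, 9), (9, 6), (9, 8)]
    lev := [] }
  links := [[1, 2, 6, 7], [2, 0, 7, 8, 9], [6, 0, 1, 9, 10, 3, 11, 4, 12], [11, 2, 10, 13, 5], [12, 2,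
    11, 14, 15], [11, 3, 13, 14]]
  P := {
    a := 6
    N := 16
    nb := [198, 901, 7771, 11300, 55300, 26632, 4229, 323, 642, 1286, 8716, 16444, 32852, 17448,
      43056, 20496]
    tri := [(0, 1, 2), (0, 1, 7), (0, 2, 6), (0, 6, 7), (1, 2, 9), (1, 7, 8), (1, 8, 9), (2, 3, 10),
      (2, 3, 11), (2, 4, 11), (2, 4, 12), (2, 6, 12), (2, 9, 10), (3, 5, 11), (3, 5, 13), (3, 10,
      13), (4, 11, 14), (4, 12, 15), (4, 14, 15), (5, 11, 14), (5, 13, 14)]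
    fin := [0, 1, 1, 3, 3, 3, 0, 7, 1, 9, 3, 3, 3, 13, 14, 15]
    chd := [(0, 1), (1, 3)]
    steps := [(0, 6), (1, 2), (1, 8), (3, 5), (3, 10), (3, 11), (3, 4), (3, 12)] }
  rep := [3, 0, 9, 7, 13, 14, 1, 15]

noncomputable def v1013 : Cov.CovD where
  P := 3
  N := 5
  pl := [1, 3, 7, 8, 9]
  lev := [⟨[], [], [], [3], [(0, 1, [6])]⟩,
    ⟨[], [(0, 1), (0, 6)], [], [2, 3], [(2, 6, [0, 1])]⟩,
    ⟨[(0, 1)], [(0, 0), (0, 1), (1, 0), (1, 1), (1, 6)], [(0, 0), (0, 1)], [2], [(0, 1,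
      [6]), (4, 0, [6]), (5, 0, [6]), (6, 0, [6])]⟩,
    ⟨[(0, 2), (1, 2)], [(2, 0), (2, 1)], [(0, 0)], [4], [(4, 0, [6]), (5, 0, [6])]⟩,
    ⟨[(0, 2), (1, 2), (2, 3)], [(2, 0), (2, 1), (3, 0)], [(0, 0)], [5, 7], [(5, 0, [6]),
      (6, 0, [6])]⟩,
    ⟨[(2, 3)], [(2, 0), (3, 0), (4, 0)], [], [4, 5], [(5, 0, [6])]⟩]
  Ta := [((4, 3), 0, 2), ((4, 7), 0, 4), ((5, 8), 0, 5), ((6, 0), 0, 1), ((6, 9), 0, 7)]
  Tb := [((0, 1, 6), 1, 3, 0), ((1, 0, 2), 3, 1, 6), ((2, 1, 3), 6, 3, 2), ((3, 2, 4), 2, 6, 0),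
    ((4, 3, 7), 0, 2, 4), ((6, 0, 9), 0, 1, 7), ((7, 4, 8), 4, 0, 5), ((8, 5, 7), 5, 0, 4),
    ((8, 5, 9), 5, 0, 7), ((8, 7, 9), 5, 4, 7), ((9, 6, 8), 7, 0, 5)]
  Tc := [(6, 0, 1)]
  Td := [((0, 6), (4, 3), 2), ((0, 6), (4, 7), 4), ((0, 6), (5, 8), 5), ((0, 6), (6, 0), 1), ((0,
    6), (6, 9), 7), ((1, 6), (0, 1), 3), ((1, 6), (0, 6), 0), ((6, 0), (2, 1), 3), ((6, 0),
    (2, 3), 2), ((6, 1), (2, 1), 3), ((6, 1), (2, 3), 2)]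
  G := [[0, 0, 0x4411a112ee4811e111ea4a12142e11ce8111e112e686c,
    0x841e112ea4841618812ee84141e812e681d, 0x416126681141e812e6888186831888682d], [0, 0, 0,
    0x84ce6e2ea48e4ce8a2e68484ceea2e681d, 0x4c6a2668288e86811ce1a2e683181868c4ca8683d], [0,
    0x111e111e681841e111ea416, 0, 0x811e112ea48841e111e684841e111ea41d,
    0x116111e18e8116111e18e83111e811e6825]]

noncomputable def n1013 : Ent := ⟨e1013, noF, [], [], []⟩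

def c1013 : PLift (Cov.check n1013.C.D v1013 = true) := ⟨by decide +kernel⟩

def b1013 : PLift (entF (fidx ts) 400 1013 n1013 = true) := ⟨by decide +kernel⟩

theorem g1013 : GoodF (fidx ts) 400 1013 := GoodF.ofV v1013 n1013 c1013.down b1013.down

/-- 459554:840 -/
noncomputable def e1014 : SCfg where
  D := {
    a := 6
    L := 11
    kp := 8
    inn := [(0, 1), (0, 2), (1, 0), (1, 2), (2, 0), (2, 1), (2, 3), (2, 4), (3, 2), (3, 5), (4, 2), (5,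
      3)]
    mix := [(0, 0), (0, 1), (1, 1), (1, 2), (1, 3), (2, 0), (2, 3), (2, 4), (2, 5), (2, 6), (3, 4), (3,
      5), (3, 7), (4, 5), (4, 6), (4, 8), (4, 9), (5, 5), (5, 7), (5, 10)]
    cl := [1, 3, 5, 2, 0, 0, 0, 4, 6, 7, 8]
    chq := [(0, 5), (1, 5), (5, 0), (5, 1)]
    rng := [(0, 1), (0, 6), (1, 0), (1, 2), (2, 1), (2, 3), (3, 2), (3, 4), (4, 3), (4, 7), (5, 8), (5,
      10), (6, 0), (6, 9), (7, 4), (7, 10), (8, 5), (8, 9), (9, 6), (9, 8), (10, 5), (10, 7)]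
    lev := [] }
  links := [[1, 2, 6, 7], [2, 0, 7, 8, 9], [6, 0, 1, 9, 10, 3, 11, 4, 12], [11, 2, 10, 13, 5], [12, 2,
    11, 14, 15], [11, 3, 13, 16]]
  P := {
    a := 6
    N := 17
    nb := [198, 901, 7771, 11300, 55300, 75784, 4229, 323, 642, 1286, 8716, 81980, 32852, 66600,
      34832, 20496, 10272]
    tri := [(0, 1, 2), (0, 1, 7), (0, 2, 6), (0, 6, 7), (1, 2, 9), (1, 7, 8), (1, 8, 9), (2, 3, 10),
      (2, 3, 11), (2, 4, 11), (2, 4, 12), (2, 6, 12), (2, 9, 10), (3, 5, 11), (3, 5, 13), (3, 10,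
      13), (4, 11, 14), (4, 12, 15), (4, 14, 15), (5, 11, 16), (5, 13, 16)]
    fin := [0, 1, 1, 3, 3, 3, 0, 7, 1, 9, 3, 3, 3, 13, 14, 15, 16]
    chd := [(0, 1), (1, 3)]
    steps := [(0, 6), (1, 2), (1, 8), (3, 5), (3, 10), (3, 11), (3, 4), (3, 12)] }
  rep := [3, 0, 9, 7, 13, 1, 14, 15, 16]

noncomputable def v1014 : Cov.CovD where
  P := 3
  N := 6
  pl := [1, 3, 7, 8, 9, 10]
  lev := [⟨[], [], [], [3], [(0, 1, [5])]⟩,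
    ⟨[], [(0, 1), (0, 5)], [], [2, 3], [(2, 5, [0, 1])]⟩,
    ⟨[(0, 1)], [(0, 0), (0, 1), (1, 0), (1, 1), (1, 5)], [(0, 0), (0, 1)], [2], [(0, 1,
      [5]), (4, 0, [5]), (5, 0, [5]), (6, 0, [5])]⟩,
    ⟨[(0, 2), (1, 2)], [(2, 0), (2, 1)], [(0, 0)], [4], [(4, 0, [5]), (5, 0, [5])]⟩,
    ⟨[(0, 2), (1, 2), (2, 3)], [(2, 0), (2, 1), (3, 0)], [(0, 0)], [6, 7], [(5, 0, [5]),
      (6, 0, [5])]⟩,
    ⟨[(2, 3)], [(2, 0), (3, 0), (4, 0)], [], [4, 8], [(5, 0, [5])]⟩]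
  Ta := [((4, 3), 0, 2), ((4, 7), 0, 4), ((5, 8), 0, 6), ((5, 10), 0, 8), ((6, 0), 0, 1), ((6,
    9), 0, 7)]
  Tb := [((0, 1, 6), 1, 3, 0), ((1, 0, 2), 3, 1, 5), ((2, 1, 3), 5, 3, 2), ((3, 2, 4), 2, 5, 0),
    ((4, 3, 7), 0, 2, 4), ((5, 8, 10), 0, 6, 8), ((6, 0, 9), 0, 1, 7), ((7, 4, 10), 4, 0, 8),
    ((8, 5, 9), 6, 0, 7), ((9, 6, 8), 7, 0, 6), ((10, 5, 7), 8, 0, 4)]
  Tc := [(5, 0, 1)]
  Td := [((0, 5), (4, 3), 2), ((0, 5), (4, 7), 4), ((0, 5), (5, 8), 6), ((0, 5), (5, 10), 8),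
    ((0, 5), (6, 0), 1), ((0, 5), (6, 9), 7), ((1, 5), (0, 1), 3), ((1, 5), (0, 6), 0), ((5,
    0), (2, 1), 3), ((5, 0), (2, 3), 2), ((5, 1), (2, 1), 3), ((5, 1), (2, 3), 2)]
  G := [[0, 0, 0x111e111ea48111e111e684111e4111e8c2d, 0x511e36dea48311e9aae684c11eaaae681d,
    0x1ccea11e68c11e1aae68374618aa11ee825], [0, 0, 0, 0xccce666ea48ccceaaae684ccceaaae681d,
    0x1c6aa6681ccceaaae68c818683c81868c4a8683d], [0, 0x111e111e681111e11a14e416, 0,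
    0x111e111ea48111e111e684111e1211ce41d, 0x111e111e68111e111e683111e111e6825]]

noncomputable def n1014 : Ent := ⟨e1014, noF, [], [], [(16, 14, [1580095832788404724998799751142926758855362888449624481876422905857, 0])]⟩

def c1014 : PLift (Cov.check n1014.C.D v1014 = true) := ⟨by decide +kernel⟩

def b1014 : PLift (entF (fidx ts) 400 1014 n1014 = true) := ⟨by decide +kernel⟩

theorem g1014 : GoodF (fidx ts) 400 1014 := GoodF.ofV v1014 n1014 c1014.down b1014.down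

/-- 459554:841/1 -/
noncomputable def e1015 : SCfg where
  D := {
    a := 6
    L := 10
    kp := 7
    inn := [(0, 1), (0, 2), (1, 0), (1, 2), (2, 0), (2, 1), (2, 3), (2, 4), (3, 2), (4, 2), (4, 5), (5,
      4)]
    mix := [(0, 0), (0, 1), (1, 1), (1, 2), (1, 3), (2, 0), (2, 3), (2, 4), (2, 5), (2, 6), (3, 4), (3,
      5), (3, 7), (3, 8), (4, 5), (4, 6), (4, 9), (5, 5), (5, 8), (5, 9)]
    cl := [1, 3, 6, 2, 0, 0, 0, 7, 4, 5]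
    chq := [(0, 6), (1, 6), (6, 0), (6, 1)]
    rng := [(0, 1), (0, 6), (1, 0), (1, 2), (2, 1), (2, 3), (3, 2), (3, 4), (4, 3), (4, 7), (5, 8), (6,
      0), (6, 9), (7, 4), (7, 8), (8, 5), (8, 7), (8, 9), (9, 6), (9, 8)]
    lev := [] }
  links := [[1, 2, 6, 7], [2, 0, 7, 8, 9], [6, 0, 1, 9, 10, 3, 11, 4, 12], [11, 2, 10, 13, 14], [12, 2,
    11, 5, 15], [15, 4, 11, 14]]
  P := {
    a := 6
    N := 16
    nb := [198, 901, 7771, 27652, 38948, 51216, 4229, 323, 642, 1286, 8716, 16444, 32852, 17416,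
      43048, 20528]
    tri := [(0, 1, 2), (0, 1, 7), (0, 2, 6), (0, 6, 7), (1, 2, 9), (1, 7, 8), (1, 8, 9), (2, 3, 10),
      (2, 3, 11), (2, 4, 11), (2, 4, 12), (2, 6, 12), (2, 9, 10), (3, 10, 13), (3, 11, 14), (3,
      13, 14), (4, 5, 11), (4, 5, 15), (4, 12, 15), (5, 11, 14), (5, 14, 15)]
    fin := [0, 1, 1, 3, 3, 3, 0, 7, 1, 9, 3, 3, 3, 13, 14, 15]
    chd := [(0, 1), (1, 3)]
    steps := [(0, 6), (1, 2), (1, 8), (3, 10), (3, 11), (3, 4), (3, 5), (3, 12)] }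
  rep := [3, 0, 9, 7, 14, 15, 1, 13]

noncomputable def v1015 : Cov.CovD where
  P := 3
  N := 5
  pl := [1, 3, 7, 8, 9]
  lev := [⟨[], [], [], [3], [(0, 1, [6])]⟩,
    ⟨[], [(0, 1), (0, 6)], [], [2, 3], [(2, 6, [0, 1])]⟩,
    ⟨[(0, 1)], [(0, 0), (0, 1), (1, 0), (1, 1), (1, 6)], [(0, 0), (0, 1)], [2], [(0, 1,
      [6]), (4, 0, [6]), (5, 0, [6]), (6, 0, [6])]⟩,
    ⟨[(0, 2), (1, 2)], [(2, 0), (2, 1)], [(0, 0)], [4, 7], [(4, 0, [6]), (5, 0, [6])]⟩,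
    ⟨[(0, 2), (1, 2), (2, 3)], [(2, 0), (2, 1), (3, 0)], [(0, 0)], [5], [(5, 0, [6]), (6,
      0, [6])]⟩,
    ⟨[(2, 4)], [(2, 0), (3, 0), (4, 0)], [], [4, 5], [(5, 0, [6])]⟩]
  Ta := [((4, 3), 0, 2), ((4, 7), 0, 7), ((5, 8), 0, 4), ((6, 0), 0, 1), ((6, 9), 0, 5)]
  Tb := [((0, 1, 6), 1, 3, 0), ((1, 0, 2), 3, 1, 6), ((2, 1, 3), 6, 3, 2), ((3, 2, 4), 2, 6, 0),
    ((4, 3, 7), 0, 2, 7), ((6, 0, 9), 0, 1, 5), ((7, 4, 8), 7, 0, 4), ((8, 5, 7), 4, 0, 7),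
    ((8, 5, 9), 4, 0, 5), ((8, 7, 9), 4, 7, 5), ((9, 6, 8), 5, 0, 4)]
  Tc := [(6, 0, 1)]
  Td := [((0, 6), (4, 3), 2), ((0, 6), (4, 7), 7), ((0, 6), (5, 8), 4), ((0, 6), (6, 0), 1), ((0,
    6), (6, 9), 5), ((1, 6), (0, 1), 3), ((1, 6), (0, 6), 0), ((6, 0), (2, 1), 3), ((6, 0),
    (2, 3), 2), ((6, 1), (2, 1), 3), ((6, 1), (2, 3), 2)]
  G := [[0, 0, 0x11a41a116e4416481a11aacc81611a12ae429, 0x81a41a12ae48816416116e8418614a126e81d,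
    0x116116681116116116e8186883186882d], [0, 0, 0, 0x8e6e4ac2ae48ca64a6c26e84e864a6482ee81d,
    0xc26282e864a6c88e6c26a8311648e86884a648bd], [0, 0x11611a12ae4111614a21ce41a, 0,
    0x81c41a12ae4881614c12ce8481a41a12ae41d, 0x4161266821868818614c126e83186882d]]

noncomputable def n1015 : Ent := ⟨e1015, noF, [], [], []⟩

def c1015 : PLift (Cov.check n1015.C.D v1015 = true) := ⟨by decide +kernel⟩

def b1015 : PLift (entF (fidx ts) 400 1015 n1015 = true) := ⟨by decide +kernel⟩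

theorem g1015 : GoodF (fidx ts) 400 1015 := GoodF.ofV v1015 n1015 c1015.down b1015.down

/-- 459554:841 -/
noncomputable def e1016 : SCfg where
  D := {
    a := 6
    L := 11
    kp := 8
    inn := [(0, 1), (0, 2), (1, 0), (1, 2), (2, 0), (2, 1), (2, 3), (2, 4), (3, 2), (4, 2), (4, 5), (5,
      4)]
    mix := [(0, 0), (0, 1), (1, 1), (1, 2), (1, 3), (2, 0), (2, 3), (2, 4), (2, 5), (2, 6), (3, 4), (3,
      5), (3, 7), (3, 8), (4, 5), (4, 6), (4, 9), (5, 5), (5, 9), (5, 10)]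
    cl := [1, 3, 5, 2, 0, 0, 0, 6, 7, 4, 8]
    chq := [(0, 5), (1, 5), (5, 0), (5, 1)]
    rng := [(0, 1), (0, 6), (1, 0), (1, 2), (2, 1), (2, 3), (3, 2), (3, 4), (4, 3), (4, 7), (5, 8), (5,
      10), (6, 0), (6, 9), (7, 4), (7, 8), (8, 5), (8, 7), (9, 6), (9, 10), (10, 5), (10, 9)]
    lev := [] }
  links := [[1, 2, 6, 7], [2, 0, 7, 8, 9], [6, 0, 1, 9, 10, 3, 11, 4, 12], [11, 2, 10, 13, 14], [12, 2,
    11, 5, 15], [15, 4, 11, 16]]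
  P := {
    a := 6
    N := 17
    nb := [198, 901, 7771, 27652, 38948, 100368, 4229, 323, 642, 1286, 8716, 81980, 32852, 17416,
      10248, 69680, 34848]
    tri := [(0, 1, 2), (0, 1, 7), (0, 2, 6), (0, 6, 7), (1, 2, 9), (1, 7, 8), (1, 8, 9), (2, 3, 10),
      (2, 3, 11), (2, 4, 11), (2, 4, 12), (2, 6, 12), (2, 9, 10), (3, 10, 13), (3, 11, 14), (3,
      13, 14), (4, 5, 11), (4, 5, 15), (4, 12, 15), (5, 11, 16), (5, 15, 16)]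
    fin := [0, 1, 1, 3, 3, 3, 0, 7, 1, 9, 3, 3, 3, 13, 14, 15, 16]
    chd := [(0, 1), (1, 3)]
    steps := [(0, 6), (1, 2), (1, 8), (3, 10), (3, 11), (3, 4), (3, 5), (3, 12)] }
  rep := [3, 0, 9, 7, 15, 1, 13, 14, 16]

noncomputable def v1016 : Cov.CovD where
  P := 3
  N := 6
  pl := [1, 3, 7, 8, 9, 10]
  lev := [⟨[], [], [], [3], [(0, 1, [5])]⟩,
    ⟨[], [(0, 1), (0, 5)], [], [2, 3], [(2, 5, [0, 1])]⟩,
    ⟨[(0, 1)], [(0, 0), (0, 1), (1, 0), (1, 1), (1, 5)], [(0, 0), (0, 1)], [2], [(0, 1,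
      [5]), (4, 0, [5]), (5, 0, [5]), (6, 0, [5])]⟩,
    ⟨[(0, 2), (1, 2)], [(2, 0), (2, 1)], [(0, 0)], [6, 7], [(4, 0, [5]), (5, 0, [5])]⟩,
    ⟨[(0, 2), (1, 2), (2, 3)], [(2, 0), (2, 1), (3, 0)], [(0, 0)], [4], [(5, 0, [5]), (6,
      0, [5])]⟩,
    ⟨[(2, 4)], [(2, 0), (3, 0), (4, 0)], [], [4, 8], [(5, 0, [5])]⟩]
  Ta := [((4, 3), 0, 2), ((4, 7), 0, 6), ((5, 8), 0, 7), ((5, 10), 0, 8), ((6, 0), 0, 1), ((6,
    9), 0, 4)]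
  Tb := [((0, 1, 6), 1, 3, 0), ((1, 0, 2), 3, 1, 5), ((2, 1, 3), 5, 3, 2), ((3, 2, 4), 2, 5, 0),
    ((4, 3, 7), 0, 2, 6), ((5, 8, 10), 0, 7, 8), ((6, 0, 9), 0, 1, 4), ((7, 4, 8), 6, 0, 7),
    ((8, 5, 7), 7, 0, 6), ((9, 6, 10), 4, 0, 8), ((10, 5, 9), 8, 0, 4)]
  Tc := [(5, 0, 1)]
  Td := [((0, 5), (4, 3), 2), ((0, 5), (4, 7), 6), ((0, 5), (5, 8), 7), ((0, 5), (5, 10), 8),
    ((0, 5), (6, 0), 1), ((0, 5), (6, 9), 4), ((1, 5), (0, 1), 3), ((1, 5), (0, 6), 0), ((5,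
    0), (2, 1), 3), ((5, 0), (2, 3), 2), ((5, 1), (2, 1), 3), ((5, 1), (2, 3), 2)]
  G := [[0, 0, 0x11611a11ce4811611611ae8411611a116e82d, 0x11c11a11ae4811611a11ae8411611c11ce81d,
    0x11611668111611a116e8116883116882d], [0, 0, 0, 0xc6ac6ac6ae48ca6ca6ca6e84ca6ca6ca6e81d,
    0xca6516681ca6ca6ca6e8916883c16884a68a6a83d], [0, 0x11a11a11ce4111c11a11ae41a, 0,
    0x16ac1a1bae481a61a61a6e84a1cb1ac1ae41d, 0x1a6281764831a616cc8c1616ca831a6882d]]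

noncomputable def n1016 : Ent := ⟨e1016, noF, [], [], [(14, 16, [1580044410770988437309982408355971841652082177953823432505693270017, 0])]⟩

def c1016 : PLift (Cov.check n1016.C.D v1016 = true) := ⟨by decide +kernel⟩

def b1016 : PLift (entF (fidx ts) 400 1016 n1016 = true) := ⟨by decide +kernel⟩

theorem g1016 : GoodF (fidx ts) 400 1016 := GoodF.ofV v1016 n1016 c1016.down b1016.down

/-- 459544:843/1 -/
noncomputable def e1017 : SCfg where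
  D := {
    a := 6
    L := 9
    kp := 6
    inn := [(0, 1), (0, 2), (1, 0), (1, 2), (2, 0), (2, 1), (2, 3), (2, 4), (3, 2), (3, 5), (4, 2), (5,
      3)]
    mix := [(0, 0), (0, 1), (1, 1), (1, 2), (1, 3), (2, 0), (2, 3), (2, 4), (2, 5), (2, 6), (3, 4), (3,
      5), (3, 7), (4, 0), (4, 6), (4, 8), (5, 2), (5, 4), (5, 7)]
    cl := [0, 3, 4, 0, 1, 1, 2, 5, 6]
    chq := [(0, 2), (2, 0)]
    rng := [(0, 1), (0, 8), (1, 0), (1, 2), (2, 1), (2, 3), (2, 4), (2, 7), (3, 2), (3, 4), (4, 2), (4,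
      3), (5, 6), (5, 7), (6, 5), (6, 8), (7, 2), (7, 5), (8, 0), (8, 6)]
    lev := [] }
  links := [[1, 2, 6, 7], [2, 0, 7, 8, 9], [6, 0, 1, 9, 10, 3, 11, 12, 4], [11, 2, 10, 5, 13], [6, 2, 12,
    14], [13, 3, 10, 8]]
  P := {
    a := 6
    N := 15
    nb := [198, 901, 7771, 11300, 20548, 9480, 16533, 323, 9890, 1286, 812, 12300, 18452, 2344, 4176]
    tri := [(0, 1, 2), (0, 1, 7), (0, 2, 6), (0, 6, 7), (1, 2, 9), (1, 7, 8), (1, 8, 9), (2, 3, 10),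
      (2, 3, 11), (2, 4, 6), (2, 4, 12), (2, 9, 10), (2, 11, 12), (3, 5, 10), (3, 5, 13), (3, 11,
      13), (4, 6, 14), (4, 12, 14), (5, 8, 10), (5, 8, 13)]
    fin := [0, 0, 2, 3, 0, 3, 0, 7, 3, 0, 2, 2, 12, 13, 14]
    chd := [(0, 12)]
    steps := [(0, 1), (0, 6), (0, 4), (0, 9), (2, 10), (2, 11), (3, 5), (3, 8)] }
  rep := [0, 2, 12, 7, 3, 13, 14]

noncomputable def v1017 : Cov.CovD where
  P := 3
  N := 4
  pl := [1, 2, 7, 8]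
  lev := [⟨[], [], [], [3], [(0, 0, [2])]⟩,
    ⟨[], [(0, 0)], [], [3, 4], [(3, 0, [2])]⟩,
    ⟨[(0, 1)], [(0, 0), (0, 1), (0, 2), (1, 0), (1, 1), (1, 2)], [(0, 0), (0, 1), (0, 2),
      (1, 1), (1, 2)], [], [(0, 0, [2]), (3, 0, [2]), (4, 1, []), (5, 1, []), (6, 2, [0])]⟩,
    ⟨[(0, 2), (1, 2)], [(2, 0), (2, 1), (2, 2)], [(1, 1)], [5], [(4, 1, []), (5, 1, [])]⟩,
    ⟨[(0, 2), (1, 2), (2, 3)], [(0, 0), (2, 0), (2, 1), (2, 2)], [(0, 2)], [6], [(0, 0,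
      [2]), (6, 2, [0])]⟩,
    ⟨[(2, 3)], [(2, 1), (3, 1)], [], [4, 5], [(4, 1, [])]⟩]
  Ta := [((0, 1), 0, 3), ((0, 8), 0, 6), ((3, 2), 0, 4), ((3, 4), 0, 1), ((4, 2), 1, 4), ((4, 3),
    1, 0), ((5, 6), 1, 2), ((5, 7), 1, 5)]
  Tb := [((0, 1, 8), 0, 3, 6), ((1, 0, 2), 3, 0, 4), ((2, 1, 3), 4, 3, 0), ((2, 1, 4), 4, 3, 1),
    ((2, 1, 7), 4, 3, 5), ((2, 3, 4), 4, 0, 1), ((2, 3, 7), 4, 0, 5), ((2, 4, 7), 4, 1, 5),
    ((3, 2, 4), 0, 4, 1), ((4, 2, 3), 1, 4, 0), ((5, 6, 7), 1, 2, 5), ((6, 5, 8), 2, 1, 6),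
    ((7, 2, 5), 5, 4, 1), ((8, 0, 6), 6, 0, 2)]
  Tc := []
  Td := [((0, 2), (0, 1), 3), ((0, 2), (0, 8), 6), ((0, 2), (3, 2), 4), ((0, 2), (3, 4), 1), ((2,
    0), (6, 5), 1), ((2, 0), (6, 8), 6)]
  G := [[0, 0, 0xcc6116581ccc11a581a, 0, 0x44a88a5888a11a5888a11a587cca11a5816], [0, 0,
    0x22c11694122a11a941c, 0x22c22c94122c11c582a, 0x22a11a58122a11a5826], [0,
    0x8161a4841a1684c121a42e, 0xcc6116581cc611a941a, 0, 0x8191581141c8c411158c19158a6], [0,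
    0, 0x243218d4122a11a941c, 0x811194212198c21219826, 0x812158411158cc1215826]]

noncomputable def n1017 : Ent := ⟨e1017, noF, [], [], []⟩

def c1017 : PLift (Cov.check n1017.C.D v1017 = true) := ⟨by decide +kernel⟩

def b1017 : PLift (entF (fidx ts) 400 1017 n1017 = true) := ⟨by decide +kernel⟩

theorem g1017 : GoodF (fidx ts) 400 1017 := GoodF.ofV v1017 n1017 c1017.down b1017.down

/-- 459544:843 -/
noncomputable def e1018 : SCfg where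
  D := {
    a := 6
    L := 10
    kp := 7
    inn := [(0, 1), (0, 2), (1, 0), (1, 2), (2, 0), (2, 1), (2, 3), (2, 4), (3, 2), (3, 5), (4, 2), (5,
      3)]
    mix := [(0, 0), (0, 1), (1, 1), (1, 2), (1, 3), (2, 0), (2, 3), (2, 4), (2, 5), (2, 6), (3, 4), (3,
      5), (3, 7), (4, 0), (4, 6), (4, 8), (5, 4), (5, 7), (5, 9)]
    cl := [0, 3, 5, 0, 1, 1, 2, 4, 6, 7]
    chq := [(0, 2), (2, 0)]
    rng := [(0, 1), (0, 8), (1, 0), (1, 2), (2, 1), (2, 3), (3, 2), (3, 4), (4, 3), (4, 9), (5, 6), (5,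
      7), (6, 5), (6, 8), (7, 5), (7, 9), (8, 0), (8, 6), (9, 4), (9, 7)]
    lev := [] }
  links := [[1, 2, 6, 7], [2, 0, 7, 8, 9], [6, 0, 1, 9, 10, 3, 11, 12, 4], [11, 2, 10, 5, 13], [6, 2, 12,
    14], [13, 3, 10, 15]]
  P := {
    a := 6
    N := 16
    nb := [198, 901, 7771, 11300, 20548, 41992, 16533, 323, 642, 1286, 33324, 12300, 18452, 34856,
      4176, 9248]
    tri := [(0, 1, 2), (0, 1, 7), (0, 2, 6), (0, 6, 7), (1, 2, 9), (1, 7, 8), (1, 8, 9), (2, 3, 10),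
      (2, 3, 11), (2, 4, 6), (2, 4, 12), (2, 9, 10), (2, 11, 12), (3, 5, 10), (3, 5, 13), (3, 11,
      13), (4, 6, 14), (4, 12, 14), (5, 10, 15), (5, 13, 15)]
    fin := [0, 0, 0, 3, 0, 3, 0, 7, 8, 0, 3, 3, 12, 13, 14, 15]
    chd := [(0, 12)]
    steps := [(0, 1), (0, 2), (0, 4), (0, 6), (0, 9), (3, 5), (3, 10), (3, 11)] }
  rep := [0, 3, 12, 7, 13, 8, 14, 15]

noncomputable def v1018 : Cov.CovD where
  P := 3
  N := 5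
  pl := [1, 2, 7, 8, 9]
  lev := [⟨[], [], [], [3], [(0, 0, [2])]⟩,
    ⟨[], [(0, 0)], [], [3, 5], [(3, 0, [2])]⟩,
    ⟨[(0, 1)], [(0, 0), (0, 1), (0, 2), (1, 0), (1, 1), (1, 2)], [(0, 0), (0, 1), (0, 2),
      (1, 1), (1, 2)], [], [(0, 0, [2]), (3, 0, [2]), (4, 1, []), (5, 1, []), (6, 2, [0])]⟩,
    ⟨[(0, 2), (1, 2)], [(2, 0), (2, 1), (2, 2)], [(1, 1)], [4], [(4, 1, []), (5, 1, [])]⟩,
    ⟨[(0, 2), (1, 2), (2, 3)], [(0, 0), (2, 0), (2, 1), (2, 2)], [(0, 2)], [6], [(0, 0,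
      [2]), (6, 2, [0])]⟩,
    ⟨[(2, 3)], [(2, 1), (3, 1)], [], [4, 7], [(4, 1, [])]⟩]
  Ta := [((0, 1), 0, 3), ((0, 8), 0, 6), ((3, 2), 0, 5), ((3, 4), 0, 1), ((4, 3), 1, 0), ((4, 9),
    1, 7), ((5, 6), 1, 2), ((5, 7), 1, 4)]
  Tb := [((0, 1, 8), 0, 3, 6), ((1, 0, 2), 3, 0, 5), ((2, 1, 3), 5, 3, 0), ((3, 2, 4), 0, 5, 1),
    ((4, 3, 9), 1, 0, 7), ((5, 6, 7), 1, 2, 4), ((6, 5, 8), 2, 1, 6), ((7, 5, 9), 4, 1, 7),
    ((8, 0, 6), 6, 0, 2), ((9, 4, 7), 7, 1, 4)]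
  Tc := []
  Td := [((0, 2), (0, 1), 3), ((0, 2), (0, 8), 6), ((0, 2), (3, 2), 5), ((0, 2), (3, 4), 1), ((2,
    0), (6, 5), 1), ((2, 0), (6, 8), 6)]
  G := [[0, 0, 0xcca55c941ccc99a581a, 0, 0xcca99a58cca99a585cca99a58cca99a5836], [0, 0,
    0xcc6226581cca25a941c, 0x242822cd8122c22c9422c22c94a6,
    0x62482ca92a58c82aa58da833a58226eaa8d836], [0, 0xc161a48c1a1684c161a42e,
    0xcca556941cc699a581a, 0, 0xc19158c19158cc19158c19158a6], [0, 0, 0xc2629658136652cc81c,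
    0x2121c4821215842121542e, 0xc12158c12158cc121582151c8a6]]

noncomputable def n1018 : Ent := ⟨e1018, noF, [], [], [(8, 15, [360035742630636841211993100915356868655746945586763691011837953, 0])]⟩

def c1018 : PLift (Cov.check n1018.C.D v1018 = true) := ⟨by decide +kernel⟩

def b1018 : PLift (entF (fidx ts) 400 1018 n1018 = true) := ⟨by decide +kernel⟩

theorem g1018 : GoodF (fidx ts) 400 1018 := GoodF.ofV v1018 n1018 c1018.down b1018.down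

/-- 459544:844 -/
noncomputable def e1019 : SCfg where
  D := {
    a := 6
    L := 10
    kp := 7
    inn := [(0, 1), (0, 2), (1, 0), (1, 2), (2, 0), (2, 1), (2, 3), (2, 4), (3, 2), (3, 5), (4, 2), (5,
      3)]
    mix := [(0, 0), (0, 1), (1, 1), (1, 2), (1, 3), (2, 0), (2, 3), (2, 4), (2, 5), (2, 6), (3, 4), (3,
      5), (3, 7), (4, 0), (4, 6), (4, 8), (5, 5), (5, 7), (5, 9)]
    cl := [0, 1, 6, 0, 3, 0, 2, 4, 7, 5]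
    chq := [(3, 5), (5, 3)]
    rng := [(0, 1), (0, 8), (1, 0), (1, 2), (2, 1), (2, 3), (3, 2), (3, 4), (4, 3), (4, 7), (5, 6), (5,
      9), (6, 5), (6, 8), (7, 4), (7, 9), (8, 0), (8, 6), (9, 5), (9, 7)]
    lev := [] }
  links := [[1, 2, 6, 7], [2, 0, 7, 8, 9], [6, 0, 1, 9, 10, 3, 11, 12, 4], [11, 2, 10, 13, 5], [6, 2, 12,
    14], [11, 3, 13, 15]]
  P := {
    a := 6
    N := 16
    nb := [198, 901, 7771, 11300, 20548, 43016, 16533, 323, 642, 1286, 8716, 36908, 18452, 33832,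
      4176, 10272]
    tri := [(0, 1, 2), (0, 1, 7), (0, 2, 6), (0, 6, 7), (1, 2, 9), (1, 7, 8), (1, 8, 9), (2, 3, 10),
      (2, 3, 11), (2, 4, 6), (2, 4, 12), (2, 9, 10), (2, 11, 12), (3, 5, 11), (3, 5, 13), (3, 10,
      13), (4, 6, 14), (4, 12, 14), (5, 11, 15), (5, 13, 15)]
    fin := [0, 0, 0, 3, 0, 3, 0, 7, 8, 0, 3, 0, 12, 13, 14, 15]
    chd := [(3, 15)]
    steps := [(0, 1), (0, 2), (0, 4), (0, 6), (0, 9), (0, 11), (3, 5), (3, 10)] }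
  rep := [0, 7, 12, 3, 13, 15, 8, 14]

noncomputable def v1019 : Cov.CovD where
  P := 3
  N := 5
  pl := [1, 2, 6, 7, 8]
  lev := [⟨[], [], [], [1], [(0, 0, [])]⟩,
    ⟨[], [(0, 0)], [], [1, 6], [(3, 0, [])]⟩,
    ⟨[(0, 1)], [(0, 0), (0, 3), (1, 0), (1, 3)], [(0, 0), (0, 3)], [2], [(0, 0, []), (3, 0,
      []), (4, 3, [5]), (5, 0, [])]⟩,
    ⟨[(0, 2), (1, 2)], [(2, 0), (2, 3)], [(0, 3)], [4], [(4, 3, [5]), (5, 0, [])]⟩,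
    ⟨[(0, 2), (1, 2), (2, 3)], [(0, 0), (2, 0), (2, 3)], [], [2, 7], [(0, 0, [])]⟩,
    ⟨[(2, 3)], [(2, 0), (3, 0), (3, 3), (3, 5)], [(0, 5)], [4], [(5, 0, []), (9, 5, [3])]⟩]
  Ta := [((0, 1), 0, 1), ((0, 8), 0, 7), ((3, 2), 0, 6), ((3, 4), 0, 3), ((5, 6), 0, 2), ((5, 9),
    0, 5)]
  Tb := [((0, 1, 8), 0, 1, 7), ((1, 0, 2), 1, 0, 6), ((2, 1, 3), 6, 1, 0), ((3, 2, 4), 0, 6, 3),
    ((4, 3, 7), 3, 0, 4), ((5, 6, 9), 0, 2, 5), ((6, 5, 8), 2, 0, 7), ((7, 4, 9), 4, 3, 5),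
    ((8, 0, 6), 7, 0, 2), ((9, 5, 7), 5, 0, 4)]
  Tc := []
  Td := [((3, 5), (4, 3), 0), ((3, 5), (4, 7), 4), ((5, 3), (9, 5), 0), ((5, 3), (9, 7), 4)]
  G := [[0, 0x388cca47474c866cb83454c48bb894a8c7ce2, 0, 0x3884e47413444ce8b882c1c,
    0x5232a28d82d8cea7a14], [0, 0, 0, 0x31816451613319181bcca161388c,
    0x21e1511d16a5121c81116ac4], [0, 0, 0x666aaac66accca618, 0xa1c164161c1a81c,
    0x61a1ca1c16a14]]

noncomputable def n1019 : Ent := ⟨e1019, noF, [], [], []⟩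

def c1019 : PLift (Cov.check n1019.C.D v1019 = true) := ⟨by decide +kernel⟩

def b1019 : PLift (entF (fidx ts) 400 1019 n1019 = true) := ⟨by decide +kernel⟩

theorem g1019 : GoodF (fidx ts) 400 1019 := GoodF.ofV v1019 n1019 c1019.down b1019.down

/-- 459554:846 -/
noncomputable def e1020 : SCfg where
  D := {
    a := 6
    L := 11
    kp := 8
    inn := [(0, 1), (0, 2), (1, 0), (1, 2), (2, 0), (2, 1), (2, 3), (2, 4), (3, 2), (3, 5), (4, 2), (5,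
      3)]
    mix := [(0, 0), (0, 1), (1, 1), (1, 2), (1, 3), (2, 0), (2, 3), (2, 4), (2, 5), (2, 6), (3, 4), (3,
      5), (3, 7), (4, 0), (4, 6), (4, 8), (4, 9), (5, 4), (5, 7), (5, 10)]
    cl := [0, 3, 5, 2, 1, 1, 0, 4, 6, 7, 8]
    chq := [(0, 5), (1, 5), (5, 0), (5, 1)]
    rng := [(0, 1), (0, 9), (1, 0), (1, 2), (2, 1), (2, 3), (3, 2), (3, 4), (4, 3), (4, 10), (5, 6),
      (5, 7), (6, 5), (6, 8), (7, 5), (7, 10), (8, 6), (8, 9), (9, 0), (9, 8), (10, 4), (10, 7)]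
    lev := [] }
  links := [[1, 2, 6, 7], [2, 0, 7, 8, 9], [6, 0, 1, 9, 10, 3, 11, 12, 4], [11, 2, 10, 5, 13], [6, 2, 12,
    14, 15], [13, 3, 10, 16]]
  P := {
    a := 6
    N := 17
    nb := [198, 901, 7771, 11300, 53316, 74760, 32917, 323, 642, 1286, 66092, 12300, 18452, 67624,
      36880, 16464, 9248]
    tri := [(0, 1, 2), (0, 1, 7), (0, 2, 6), (0, 6, 7), (1, 2, 9), (1, 7, 8), (1, 8, 9), (2, 3, 10),
      (2, 3, 11), (2, 4, 6), (2, 4, 12), (2, 9, 10), (2, 11, 12), (3, 5, 10), (3, 5, 13), (3, 11,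
      13), (4, 6, 15), (4, 12, 14), (4, 14, 15), (5, 10, 16), (5, 13, 16)]
    fin := [0, 1, 1, 3, 0, 3, 0, 7, 1, 9, 3, 3, 0, 13, 14, 15, 16]
    chd := [(0, 1), (1, 3)]
    steps := [(0, 6), (0, 4), (0, 12), (1, 2), (1, 8), (3, 5), (3, 10), (3, 11)] }
  rep := [0, 3, 9, 7, 13, 1, 14, 15, 16]

noncomputable def v1020 : Cov.CovD where
  P := 3
  N := 6
  pl := [1, 3, 7, 8, 9, 10]
  lev := [⟨[], [], [], [3], [(0, 0, [5])]⟩,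
    ⟨[], [(0, 0), (0, 5)], [], [2, 3], [(2, 5, [0, 1])]⟩,
    ⟨[(0, 1)], [(0, 0), (0, 1), (1, 0), (1, 1), (1, 5)], [(0, 0), (0, 1), (1, 1)], [2],
      [(0, 0, [5]), (4, 1, [5]), (5, 1, [5]), (6, 0, [5])]⟩,
    ⟨[(0, 2), (1, 2)], [(2, 0), (2, 1)], [(1, 1)], [4], [(4, 1, [5]), (5, 1, [5])]⟩,
    ⟨[(0, 2), (1, 2), (2, 3)], [(0, 0), (2, 0), (2, 1)], [(0, 0)], [6, 7], [(0, 0, [5]),
      (6, 0, [5])]⟩,
    ⟨[(2, 3)], [(2, 1), (3, 1)], [], [4, 8], [(4, 1, [5])]⟩]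
  Ta := [((0, 1), 0, 3), ((0, 9), 0, 7), ((4, 3), 1, 2), ((4, 10), 1, 8), ((5, 6), 1, 0), ((5,
    7), 1, 4), ((6, 5), 0, 1), ((6, 8), 0, 6)]
  Tb := [((0, 1, 9), 0, 3, 7), ((1, 0, 2), 3, 0, 5), ((2, 1, 3), 5, 3, 2), ((3, 2, 4), 2, 5, 1),
    ((4, 3, 10), 1, 2, 8), ((5, 6, 7), 1, 0, 4), ((6, 5, 8), 0, 1, 6), ((7, 5, 10), 4, 1, 8),
    ((8, 6, 9), 6, 0, 7), ((9, 0, 8), 7, 0, 6), ((10, 4, 7), 8, 1, 4)]
  Tc := [(5, 0, 1)]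
  Td := [((0, 5), (0, 1), 3), ((0, 5), (0, 9), 7), ((0, 5), (6, 5), 1), ((0, 5), (6, 8), 6), ((1,
    5), (4, 3), 2), ((1, 5), (4, 10), 8), ((1, 5), (5, 6), 0), ((1, 5), (5, 7), 4), ((5, 0),
    (2, 1), 3), ((5, 0), (2, 3), 2), ((5, 1), (2, 1), 3), ((5, 1), (2, 3), 2)]
  G := [[0, 0, 0xccce555e948ccce999e58455a5459c9e8c2e,
    0xccce555e9415c4e916584ccce555e9498a84ccce4999e1cde,
    0xcc61458896183c8989e58ccce91c583c898581e], [0, 0, 0xcc2e225e9482c6e92ae584c22e255e942e,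
    0, 0xc22e299e582cce922e583326c6c25ad816], [0, 0, 0xc469165c8a589cccce999e58ccce555e94e1,
    0xc564c9a59c9c1cc5e99c5928c1c, 0xccce999e581ccce999e5825], [0,
    0x1411a111ee81111e111ea416, 0x46c82a239ed423668356ed82c2e929e58e1, 0,
    0xcc2e229e5816ccea22e5816]]

noncomputable def n1020 : Ent := ⟨e1020, noF, [], [], []⟩

def c1020 : PLift (Cov.check n1020.C.D v1020 = true) := ⟨by decide +kernel⟩

def b1020 : PLift (entF (fidx ts) 400 1020 n1020 = true) := ⟨by decide +kernel⟩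

theorem g1020 : GoodF (fidx ts) 400 1020 := GoodF.ofV v1020 n1020 c1020.down b1020.down

/-- 459554:847 -/
noncomputable def e1021 : SCfg where
  D := {
    a := 6
    L := 11
    kp := 8
    inn := [(0, 1), (0, 2), (1, 0), (1, 2), (2, 0), (2, 1), (2, 3), (2, 4), (3, 2), (3, 5), (4, 2), (5,
      3)]
    mix := [(0, 0), (0, 1), (1, 1), (1, 2), (1, 3), (2, 0), (2, 3), (2, 4), (2, 5), (2, 6), (3, 4), (3,
      5), (3, 7), (4, 0), (4, 6), (4, 8), (4, 9), (5, 5), (5, 7), (5, 10)]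
    cl := [0, 3, 5, 2, 1, 1, 0, 4, 6, 7, 8]
    chq := [(0, 5), (1, 5), (5, 0), (5, 1)]
    rng := [(0, 1), (0, 9), (1, 0), (1, 2), (2, 1), (2, 3), (3, 2), (3, 4), (4, 3), (4, 7), (5, 6), (5,
      10), (6, 5), (6, 8), (7, 4), (7, 10), (8, 6), (8, 9), (9, 0), (9, 8), (10, 5), (10, 7)]
    lev := [] }
  links := [[1, 2, 6, 7], [2, 0, 7, 8, 9], [6, 0, 1, 9, 10, 3, 11, 12, 4], [11, 2, 10, 13, 5], [6, 2, 12,
    14, 15], [11, 3, 13, 16]]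
  P := {
    a := 6
    N := 17
    nb := [198, 901, 7771, 11300, 53316, 75784, 32917, 323, 642, 1286, 8716, 69676, 18452, 66600,
      36880, 16464, 10272]
    tri := [(0, 1, 2), (0, 1, 7), (0, 2, 6), (0, 6, 7), (1, 2, 9), (1, 7, 8), (1, 8, 9), (2, 3, 10),
      (2, 3, 11), (2, 4, 6), (2, 4, 12), (2, 9, 10), (2, 11, 12), (3, 5, 11), (3, 5, 13), (3, 10,
      13), (4, 6, 15), (4, 12, 14), (4, 14, 15), (5, 11, 16), (5, 13, 16)]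
    fin := [0, 1, 1, 3, 0, 3, 0, 7, 1, 9, 3, 3, 0, 13, 14, 15, 16]
    chd := [(0, 1), (1, 3)]
    steps := [(0, 6), (0, 4), (0, 12), (1, 2), (1, 8), (3, 5), (3, 10), (3, 11)] }
  rep := [0, 3, 9, 7, 13, 1, 14, 15, 16]

noncomputable def v1021 : Cov.CovD where
  P := 3
  N := 6
  pl := [1, 3, 7, 8, 9, 10]
  lev := [⟨[], [], [], [3], [(0, 0, [5])]⟩,
    ⟨[], [(0, 0), (0, 5)], [], [2, 3], [(2, 5, [0, 1])]⟩,
    ⟨[(0, 1)], [(0, 0), (0, 1), (1, 0), (1, 1), (1, 5)], [(0, 0), (0, 1), (1, 1)], [2],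
      [(0, 0, [5]), (4, 1, [5]), (5, 1, [5]), (6, 0, [5])]⟩,
    ⟨[(0, 2), (1, 2)], [(2, 0), (2, 1)], [(1, 1)], [4], [(4, 1, [5]), (5, 1, [5])]⟩,
    ⟨[(0, 2), (1, 2), (2, 3)], [(0, 0), (2, 0), (2, 1)], [(0, 0)], [6, 7], [(0, 0, [5]),
      (6, 0, [5])]⟩,
    ⟨[(2, 3)], [(2, 1), (3, 1)], [], [4, 8], [(5, 1, [5])]⟩]
  Ta := [((0, 1), 0, 3), ((0, 9), 0, 7), ((4, 3), 1, 2), ((4, 7), 1, 4), ((5, 6), 1, 0), ((5,
    10), 1, 8), ((6, 5), 0, 1), ((6, 8), 0, 6)]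
  Tb := [((0, 1, 9), 0, 3, 7), ((1, 0, 2), 3, 0, 5), ((2, 1, 3), 5, 3, 2), ((3, 2, 4), 2, 5, 1),
    ((4, 3, 7), 1, 2, 4), ((5, 6, 10), 1, 0, 8), ((6, 5, 8), 0, 1, 6), ((7, 4, 10), 4, 1, 8),
    ((8, 6, 9), 6, 0, 7), ((9, 0, 8), 7, 0, 6), ((10, 5, 7), 8, 1, 4)]
  Tc := [(5, 0, 1)]
  Td := [((0, 5), (0, 1), 3), ((0, 5), (0, 9), 7), ((0, 5), (6, 5), 1), ((0, 5), (6, 8), 6), ((1,
    5), (4, 3), 2), ((1, 5), (4, 7), 4), ((1, 5), (5, 6), 0), ((1, 5), (5, 10), 8), ((5, 0),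
    (2, 1), 3), ((5, 0), (2, 3), 2), ((5, 1), (2, 1), 3), ((5, 1), (2, 3), 2)]
  G := [[0, 0, 0x22ae5b3e948cbce222e58422ce792e582e,
    0x222e222e9428149226222e28d828845226222ec81e, 0x2c6926582c82858c22e279e583a838581e], [0,
    0, 0xccce555e948ccce999e584ccce999e582e, 0, 0xcc6996582282858ccce999e583c898582828583e],
    [0, 0, 0x9c9e22a24d42425ce99ad8cc2e229e58e1, 0x222e22a24d4122222e22cd81a,
    0xacce322e5816ccea22e5816], [0, 0xccce666ea41ccceaaae681a,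
    0xccce555e94ccce999e58555e4999e8ce1, 0, 0xccce999e581ccce999e5816]]

noncomputable def n1021 : Ent := ⟨e1021, noF, [], [], []⟩

def c1021 : PLift (Cov.check n1021.C.D v1021 = true) := ⟨by decide +kernel⟩

def b1021 : PLift (entF (fidx ts) 400 1021 n1021 = true) := ⟨by decide +kernel⟩

theorem g1021 : GoodF (fidx ts) 400 1021 := GoodF.ofV v1021 n1021 c1021.down b1021.down

/-- 459554:848 -/
noncomputable def e1022 : SCfg where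
  D := {
    a := 6
    L := 11
    kp := 8
    inn := [(0, 1), (0, 2), (1, 0), (1, 2), (2, 0), (2, 1), (2, 3), (2, 4), (3, 2), (4, 2), (4, 5), (5,
      4)]
    mix := [(0, 0), (0, 1), (1, 1), (1, 2), (1, 3), (2, 0), (2, 3), (2, 4), (2, 5), (2, 6), (3, 4), (3,
      5), (3, 7), (3, 8), (4, 0), (4, 6), (4, 9), (5, 6), (5, 9), (5, 10)]
    cl := [0, 3, 5, 2, 1, 1, 0, 6, 7, 4, 8]
    chq := [(0, 5), (1, 5), (5, 0), (5, 1)]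
    rng := [(0, 1), (0, 9), (1, 0), (1, 2), (2, 1), (2, 3), (3, 2), (3, 4), (4, 3), (4, 7), (5, 6), (5,
      8), (6, 5), (6, 10), (7, 4), (7, 8), (8, 5), (8, 7), (9, 0), (9, 10), (10, 6), (10, 9)]
    lev := [] }
  links := [[1, 2, 6, 7], [2, 0, 7, 8, 9], [6, 0, 1, 9, 10, 3, 11, 12, 4], [11, 2, 10, 13, 14], [6, 2,
    12, 5, 15], [15, 4, 12, 16]]
  P := {
    a := 6
    N := 17
    nb := [198, 901, 7771, 27652, 36964, 102416, 32917, 323, 642, 1286, 8716, 20492, 67636, 17416,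
      10248, 65648, 36896]
    tri := [(0, 1, 2), (0, 1, 7), (0, 2, 6), (0, 6, 7), (1, 2, 9), (1, 7, 8), (1, 8, 9), (2, 3, 10),
      (2, 3, 11), (2, 4, 6), (2, 4, 12), (2, 9, 10), (2, 11, 12), (3, 10, 13), (3, 11, 14), (3,
      13, 14), (4, 5, 12), (4, 5, 15), (4, 6, 15), (5, 12, 16), (5, 15, 16)]
    fin := [0, 1, 1, 3, 0, 0, 0, 7, 1, 9, 3, 3, 0, 13, 14, 15, 16]
    chd := [(0, 1), (1, 3)]
    steps := [(0, 6), (0, 4), (0, 5), (0, 12), (1, 2), (1, 8), (3, 10), (3, 11)] }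
  rep := [0, 3, 9, 7, 15, 1, 13, 14, 16]

noncomputable def v1022 : Cov.CovD where
  P := 3
  N := 6
  pl := [1, 3, 7, 8, 9, 10]
  lev := [⟨[], [], [], [3], [(0, 0, [5])]⟩,
    ⟨[], [(0, 0), (0, 5)], [], [2, 3], [(2, 5, [0, 1])]⟩,
    ⟨[(0, 1)], [(0, 0), (0, 1), (1, 0), (1, 1), (1, 5)], [(0, 0), (0, 1), (1, 1)], [2],
      [(0, 0, [5]), (4, 1, [5]), (5, 1, [5]), (6, 0, [5])]⟩,
    ⟨[(0, 2), (1, 2)], [(2, 0), (2, 1)], [(1, 1)], [6, 7], [(4, 1, [5]), (5, 1, [5])]⟩,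
    ⟨[(0, 2), (1, 2), (2, 3)], [(0, 0), (2, 0), (2, 1)], [(0, 0)], [4], [(0, 0, [5]), (6,
      0, [5])]⟩,
    ⟨[(2, 4)], [(2, 0), (4, 0)], [], [4, 8], [(6, 0, [5])]⟩]
  Ta := [((0, 1), 0, 3), ((0, 9), 0, 4), ((4, 3), 1, 2), ((4, 7), 1, 6), ((5, 6), 1, 0), ((5, 8),
    1, 7), ((6, 5), 0, 1), ((6, 10), 0, 8)]
  Tb := [((0, 1, 9), 0, 3, 4), ((1, 0, 2), 3, 0, 5), ((2, 1, 3), 5, 3, 2), ((3, 2, 4), 2, 5, 1),
    ((4, 3, 7), 1, 2, 6), ((5, 6, 8), 1, 0, 7), ((6, 5, 10), 0, 1, 8), ((7, 4, 8), 6, 1, 7),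
    ((8, 5, 7), 7, 1, 6), ((9, 0, 10), 4, 0, 8), ((10, 6, 9), 8, 0, 4)]
  Tc := [(5, 0, 1)]
  Td := [((0, 5), (0, 1), 3), ((0, 5), (0, 9), 4), ((0, 5), (6, 5), 1), ((0, 5), (6, 10), 8),
    ((1, 5), (4, 3), 2), ((1, 5), (4, 7), 6), ((1, 5), (5, 6), 0), ((1, 5), (5, 8), 7), ((5,
    0), (2, 1), 3), ((5, 0), (2, 3), 2), ((5, 1), (2, 1), 3), ((5, 1), (2, 3), 2)]
  G := [[0, 0, 0x1bcc1a1a6d481a639671cd8453616c536d82e, 0xa1cc1a16ad41a6439ac1a9ccc1671c596d81a,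
    0xb16c1658211688c161a616ad831a6881e], [0, 0, 0x16ac1a1bcd4817616c1a6d845961a616ad82e, 0,
    0x11611c116d81a616c1a6d83176c161a6d816], [0, 0, 0xca61c6ac6accca6ca65c6a8cca68c6ac6a5ce1,
    0xca6ca6cc6a1c1ca6ca6ca6d816, 0xca6ca6ca6d81ca6ca6ca6d825], [0,
    0xc6ac6ac6ae41ca6ca6ca6e81a, 0xca6645c6aa89cca64c6ac6a9cca6ca6ca6d8e1, 0,
    0xca6ca6ca6d81ca6ca6ca6d825]]

noncomputable def n1022 : Ent := ⟨e1022, noF, [], [], []⟩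

def c1022 : PLift (Cov.check n1022.C.D v1022 = true) := ⟨by decide +kernel⟩

def b1022 : PLift (entF (fidx ts) 400 1022 n1022 = true) := ⟨by decide +kernel⟩

theorem g1022 : GoodF (fidx ts) 400 1022 := GoodF.ofV v1022 n1022 c1022.down b1022.down

/-- 459554:849/1 -/
noncomputable def e1023 : SCfg where
  D := {
    a := 6
    L := 10
    kp := 7
    inn := [(0, 1), (0, 2), (1, 0), (1, 2), (2, 0), (2, 1), (2, 3), (2, 4), (3, 2), (4, 2), (4, 5), (5,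
      4)]
    mix := [(0, 0), (0, 1), (1, 1), (1, 2), (1, 3), (2, 0), (2, 3), (2, 4), (2, 5), (2, 6), (3, 4), (3,
      5), (3, 7), (3, 8), (4, 0), (4, 6), (4, 9), (5, 0), (5, 1), (5, 9)]
    cl := [0, 3, 5, 2, 1, 1, 0, 6, 7, 4]
    chq := [(0, 5), (1, 5), (5, 0), (5, 1)]
    rng := [(0, 1), (1, 0), (1, 2), (1, 9), (2, 1), (2, 3), (3, 2), (3, 4), (4, 3), (4, 7), (5, 6), (5,
      8), (6, 5), (6, 9), (7, 4), (7, 8), (8, 5), (8, 7), (9, 1), (9, 6)]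
    lev := [] }
  links := [[1, 2, 6, 7], [2, 0, 7, 8, 9], [6, 0, 1, 9, 10, 3, 11, 12, 4], [11, 2, 10, 13, 14], [6, 2,
    12, 15, 5], [6, 4, 15, 7]]
  P := {
    a := 6
    N := 16
    nb := [198, 901, 7771, 27652, 36964, 32976, 181, 33123, 642, 1286, 8716, 20492, 34836, 17416,
      10248, 4272]
    tri := [(0, 1, 2), (0, 1, 7), (0, 2, 6), (0, 6, 7), (1, 2, 9), (1, 7, 8), (1, 8, 9), (2, 3, 10),
      (2, 3, 11), (2, 4, 6), (2, 4, 12), (2, 9, 10), (2, 11, 12), (3, 10, 13), (3, 11, 14), (3,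
      13, 14), (4, 5, 6), (4, 5, 15), (4, 12, 15), (5, 6, 7), (5, 7, 15)]
    fin := [0, 1, 1, 3, 0, 0, 0, 7, 1, 9, 3, 3, 0, 13, 14, 15]
    chd := [(0, 1), (1, 3)]
    steps := [(0, 6), (0, 4), (0, 5), (0, 12), (1, 2), (1, 8), (3, 10), (3, 11)] }
  rep := [0, 3, 9, 7, 15, 1, 13, 14]

noncomputable def v1023 : Cov.CovD where
  P := 3
  N := 5
  pl := [1, 3, 7, 8, 9]
  lev := [⟨[], [], [], [3], [(0, 0, [5])]⟩,
    ⟨[], [(0, 0), (0, 5)], [], [2, 3], [(2, 5, [0, 1])]⟩,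
    ⟨[(0, 1)], [(0, 0), (0, 1), (1, 0), (1, 1), (1, 5)], [(0, 0), (0, 1), (1, 1)], [2],
      [(0, 0, [5]), (4, 1, [5]), (5, 1, [5]), (6, 0, [5])]⟩,
    ⟨[(0, 2), (1, 2)], [(2, 0), (2, 1)], [(1, 1)], [6, 7], [(4, 1, [5]), (5, 1, [5])]⟩,
    ⟨[(0, 2), (1, 2), (2, 3)], [(0, 0), (2, 0), (2, 1)], [(0, 0)], [4], [(0, 0, [5]), (6,
      0, [5])]⟩,
    ⟨[(2, 4)], [(0, 0), (2, 0), (4, 0)], [], [3, 4], [(0, 0, [5])]⟩]
  Ta := [((0, 1), 0, 3), ((4, 3), 1, 2), ((4, 7), 1, 6), ((5, 6), 1, 0), ((5, 8), 1, 7), ((6, 5),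
    0, 1), ((6, 9), 0, 4)]
  Tb := [((1, 0, 2), 3, 0, 5), ((1, 0, 9), 3, 0, 4), ((1, 2, 9), 3, 5, 4), ((2, 1, 3), 5, 3, 2),
    ((3, 2, 4), 2, 5, 1), ((4, 3, 7), 1, 2, 6), ((5, 6, 8), 1, 0, 7), ((6, 5, 9), 0, 1, 4),
    ((7, 4, 8), 6, 1, 7), ((8, 5, 7), 7, 1, 6), ((9, 1, 6), 4, 3, 0)]
  Tc := [(5, 0, 1)]
  Td := [((0, 5), (0, 1), 3), ((0, 5), (6, 5), 1), ((0, 5), (6, 9), 4), ((1, 5), (4, 3), 2), ((1,
    5), (4, 7), 6), ((1, 5), (5, 6), 0), ((1, 5), (5, 8), 7), ((5, 0), (2, 1), 3), ((5, 0),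
    (2, 3), 2), ((5, 1), (2, 1), 3), ((5, 1), (2, 3), 2)]
  G := [[0, 0, 0x86a86a86ad48884c4264a64a6d84c2ac2ac2ad42e,
    0x486442a82a9c826486486d84864498d826c26826d816, 0xca68e658142624c426d8486883826881e], [0,
    0, 0x84a84a84ad482c82a82cd4a486486486d842642a426d86c, 0,
    0x8a6ac658182642624cd848644c83826881e], [0, 0, 0x84a84a84ad4486486486d8c2ac2ac2ad4e1,
    0x84a81a186d4112a14a12ad41a, 0x41614c14cd81826826826d825], [0,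
    0x11c11a11ae4111c12a21ce41a, 0x486484a84a9c486486486d8c26c26c26d8e1, 0,
    0x41641614cd8131612a12ad816]]

noncomputable def n1023 : Ent := ⟨e1023, noF, [], [], []⟩

def c1023 : PLift (Cov.check n1023.C.D v1023 = true) := ⟨by decide +kernel⟩

def b1023 : PLift (entF (fidx ts) 400 1023 n1023 = true) := ⟨by decide +kernel⟩

theorem g1023 : GoodF (fidx ts) 400 1023 := GoodF.ofV v1023 n1023 c1023.down b1023.down

/-- 459554:849 -/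
noncomputable def e1024 : SCfg where
  D := {
    a := 6
    L := 11
    kp := 8
    inn := [(0, 1), (0, 2), (1, 0), (1, 2), (2, 0), (2, 1), (2, 3), (2, 4), (3, 2), (4, 2), (4, 5), (5,
      4)]
    mix := [(0, 0), (0, 1), (1, 1), (1, 2), (1, 3), (2, 0), (2, 3), (2, 4), (2, 5), (2, 6), (3, 4), (3,
      5), (3, 7), (3, 8), (4, 0), (4, 6), (4, 9), (5, 0), (5, 9), (5, 10)]
    cl := [0, 3, 5, 2, 1, 1, 0, 6, 7, 4, 8]
    chq := [(0, 5), (1, 5), (5, 0), (5, 1)]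
    rng := [(0, 1), (0, 10), (1, 0), (1, 2), (2, 1), (2, 3), (3, 2), (3, 4), (4, 3), (4, 7), (5, 6),
      (5, 8), (6, 5), (6, 9), (7, 4), (7, 8), (8, 5), (8, 7), (9, 6), (9, 10), (10, 0), (10, 9)]
    lev := [] }
  links := [[1, 2, 6, 7], [2, 0, 7, 8, 9], [6, 0, 1, 9, 10, 3, 11, 12, 4], [11, 2, 10, 13, 14], [6, 2,
    12, 15, 5], [6, 4, 15, 16]]
  P := {
    a := 6
    N := 17
    nb := [198, 901, 7771, 27652, 36964, 98384, 65717, 323, 642, 1286, 8716, 20492, 34836, 17416,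
      10248, 69680, 32864]
    tri := [(0, 1, 2), (0, 1, 7), (0, 2, 6), (0, 6, 7), (1, 2, 9), (1, 7, 8), (1, 8, 9), (2, 3, 10),
      (2, 3, 11), (2, 4, 6), (2, 4, 12), (2, 9, 10), (2, 11, 12), (3, 10, 13), (3, 11, 14), (3,
      13, 14), (4, 5, 6), (4, 5, 15), (4, 12, 15), (5, 6, 16), (5, 15, 16)]
    fin := [0, 1, 1, 3, 0, 0, 0, 7, 1, 9, 3, 3, 0, 13, 14, 15, 16]
    chd := [(0, 1), (1, 3)]
    steps := [(0, 6), (0, 4), (0, 5), (0, 12), (1, 2), (1, 8), (3, 10), (3, 11)] }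
  rep := [0, 3, 9, 7, 15, 1, 13, 14, 16]

noncomputable def v1024 : Cov.CovD where
  P := 3
  N := 6
  pl := [1, 3, 7, 8, 9, 10]
  lev := [⟨[], [], [], [3], [(0, 0, [5])]⟩,
    ⟨[], [(0, 0), (0, 5)], [], [2, 3], [(2, 5, [0, 1])]⟩,
    ⟨[(0, 1)], [(0, 0), (0, 1), (1, 0), (1, 1), (1, 5)], [(0, 0), (0, 1), (1, 1)], [2],
      [(0, 0, [5]), (4, 1, [5]), (5, 1, [5]), (6, 0, [5])]⟩,
    ⟨[(0, 2), (1, 2)], [(2, 0), (2, 1)], [(1, 1)], [6, 7], [(4, 1, [5]), (5, 1, [5])]⟩,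
    ⟨[(0, 2), (1, 2), (2, 3)], [(0, 0), (2, 0), (2, 1)], [(0, 0)], [4], [(0, 0, [5]), (6,
      0, [5])]⟩,
    ⟨[(2, 4)], [(0, 0), (2, 0), (4, 0)], [], [4, 8], [(0, 0, [5])]⟩]
  Ta := [((0, 1), 0, 3), ((0, 10), 0, 8), ((4, 3), 1, 2), ((4, 7), 1, 6), ((5, 6), 1, 0), ((5,
    8), 1, 7), ((6, 5), 0, 1), ((6, 9), 0, 4)]
  Tb := [((0, 1, 10), 0, 3, 8), ((1, 0, 2), 3, 0, 5), ((2, 1, 3), 5, 3, 2), ((3, 2, 4), 2, 5, 1),
    ((4, 3, 7), 1, 2, 6), ((5, 6, 8), 1, 0, 7), ((6, 5, 9), 0, 1, 4), ((7, 4, 8), 6, 1, 7),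
    ((8, 5, 7), 7, 1, 6), ((9, 6, 10), 4, 0, 8), ((10, 0, 9), 8, 0, 4)]
  Tc := [(5, 0, 1)]
  Td := [((0, 5), (0, 1), 3), ((0, 5), (0, 10), 8), ((0, 5), (6, 5), 1), ((0, 5), (6, 9), 4),
    ((1, 5), (4, 3), 2), ((1, 5), (4, 7), 6), ((1, 5), (5, 6), 0), ((1, 5), (5, 8), 7), ((5,
    0), (2, 1), 3), ((5, 0), (2, 3), 2), ((5, 1), (2, 1), 3), ((5, 1), (2, 3), 2)]
  G := [[0, 0, 0xc6ac6ac6ad48ca6ca6ca6d84ca6ca65c6a8c2e,
    0xca6ca65c6a8cca6ca6ca6d8cca6ca6ca6d816, 0xca6ca6582ca688ca6ca6ca6d83ca6881e], [0, 0,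
    0xc6ac6ac6ad48ca6ca6ca6d84c6ac6ac6ad42e, 0, 0xca6ca6582ca688ca6ca6ca6d83ca6881e], [0, 0,
    0xca61c6ac6accca6ca6ca6d8ca6ca6ca6d8e1, 0x16a16a1a6d411a6c16c16d81c,
    0x1a6c1616cd81c161a6c16d816], [0, 0x11c11a11ae4111611a11ae41a,
    0xca64c6ac6a9cca6ca6ca6d8c6ac6ac6ad4e1, 0, 0x1a61dc16ad81c161a653cd816]]

noncomputable def n1024 : Ent := ⟨e1024, noF, [], [], [(7, 16, [1580044410770988437309982408355971841652082177953823432505693302785, 0])]⟩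

def c1024 : PLift (Cov.check n1024.C.D v1024 = true) := ⟨by decide +kernel⟩

def b1024 : PLift (entF (fidx ts) 400 1024 n1024 = true) := ⟨by decide +kernel⟩

theorem g1024 : GoodF (fidx ts) 400 1024 := GoodF.ofV v1024 n1024 c1024.down b1024.down

/-- 459465:850 -/
noncomputable def e1025 : SCfg where
  D := {
    a := 6
    L := 10
    kp := 8
    inn := [(0, 1), (0, 2), (1, 0), (1, 2), (1, 4), (2, 0), (2, 1), (2, 3), (2, 4), (2, 5), (3, 2), (3,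
      5), (4, 1), (4, 2), (5, 2), (5, 3)]
    mix := [(0, 0), (0, 1), (1, 1), (1, 2), (2, 0), (2, 3), (2, 4), (2, 5), (3, 4), (3, 6), (4, 2), (4,
      3), (4, 7), (4, 8), (5, 5), (5, 6), (5, 9)]
    cl := [1, 4, 3, 0, 2, 0, 5, 6, 7, 8]
    chq := [(1, 3), (1, 6), (1, 7), (2, 8), (3, 1), (6, 1), (7, 1), (8, 2)]
    rng := [(0, 1), (0, 5), (1, 0), (1, 2), (2, 1), (2, 7), (3, 4), (3, 8), (4, 3), (4, 6), (5, 0), (5,
      9), (6, 4), (6, 9), (7, 2), (7, 8), (8, 3), (8, 7), (9, 5), (9, 6)]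
    lev := [] }
  links := [[1, 2, 6, 7], [2, 0, 7, 8, 4], [6, 0, 1, 4, 9, 10, 3, 5, 11], [5, 2, 10, 12], [9, 2, 1, 8,
    13, 14], [11, 2, 3, 12, 15]]
  P := {
    a := 6
    N := 16
    nb := [198, 405, 3707, 5156, 25350, 38924, 2181, 323, 8338, 17428, 4620, 32868, 33832, 16656,
      8720, 6176]
    tri := [(0, 1, 2), (0, 1, 7), (0, 2, 6), (0, 6, 7), (1, 2, 4), (1, 4, 8), (1, 7, 8), (2, 3, 5), (2,
      3, 10), (2, 4, 9), (2, 5, 11), (2, 6, 11), (2, 9, 10), (3, 5, 12), (3, 10, 12), (4, 8, 13),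
      (4, 9, 14), (4, 13, 14), (5, 11, 15), (5, 12, 15)]
    fin := [0, 0, 2, 3, 0, 3, 0, 7, 8, 2, 3, 2, 12, 13, 14, 15]
    chd := [(0, 8), (0, 13), (0, 14), (3, 15)]
    steps := [(0, 1), (0, 4), (0, 6), (2, 9), (2, 11), (3, 5), (3, 10)] }
  rep := [2, 0, 3, 8, 7, 12, 13, 14, 15]

noncomputable def v1025 : Cov.CovD where
  P := 3
  N := 6
  pl := [1, 6]
  lev := [⟨[], [], [], [4], [(0, 1, [3, 6, 7])]⟩,
    ⟨[], [(0, 1), (0, 3)], [], [4], [(2, 3, [1])]⟩,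
    ⟨[(0, 1)], [(0, 0), (0, 1), (0, 2), (1, 0), (1, 1), (1, 2), (1, 3)], [(0, 0), (0, 1),
      (0, 2), (1, 2)], [], [(0, 1, [3, 6, 7]), (3, 0, []), (4, 2, [8]), (5, 0, [])]⟩,
    ⟨[(0, 2), (1, 2)], [(2, 0), (2, 1), (2, 2)], [], [5], [(4, 2, [8])]⟩,
    ⟨[(0, 1), (0, 2), (1, 2), (2, 3)], [(1, 0), (1, 3), (1, 6), (1, 7), (2, 0), (2, 1), (2,
      2), (2, 3), (2, 6), (2, 7)], [(0, 3), (0, 6), (0, 7), (3, 6), (3, 7), (6, 7)], [], [(2,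
      3, [1]), (3, 0, []), (7, 6, [1]), (8, 7, [1])]⟩,
    ⟨[(0, 2), (1, 2), (2, 3), (2, 4)], [(2, 0), (2, 1), (2, 2), (2, 8), (3, 0), (3, 2), (3,
      8)], [(0, 8)], [5], [(5, 0, []), (9, 8, [2])]⟩]
  Ta := [((3, 4), 0, 2), ((3, 8), 0, 7), ((5, 0), 0, 1), ((5, 9), 0, 8)]
  Tb := [((0, 1, 5), 1, 4, 0), ((1, 0, 2), 4, 1, 3), ((2, 1, 7), 3, 4, 6), ((3, 4, 8), 0, 2, 7),
    ((4, 3, 6), 2, 0, 5), ((5, 0, 9), 0, 1, 8), ((6, 4, 9), 5, 2, 8), ((7, 2, 8), 6, 3, 7),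
    ((8, 3, 7), 7, 0, 6), ((9, 5, 6), 8, 0, 5)]
  Tc := [(1, 3, 6), (1, 3, 7), (1, 6, 7)]
  Td := [((1, 3), (0, 1), 4), ((1, 3), (0, 5), 0), ((1, 6), (0, 1), 4), ((1, 6), (0, 5), 0), ((1,
    7), (0, 1), 4), ((1, 7), (0, 5), 0), ((2, 8), (4, 3), 0), ((2, 8), (4, 6), 5), ((3, 1),
    (2, 1), 4), ((3, 1), (2, 7), 6), ((6, 1), (7, 2), 3), ((6, 1), (7, 8), 7), ((7, 1), (8,
    3), 0), ((7, 1), (8, 7), 6), ((8, 2), (9, 5), 0), ((8, 2), (9, 6), 5)]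
  G := [[0, 0, 0x1212a4812126841212a41d, 0x322254832229842212c41d,
    0x524238524238c52423862c29895], [0, 0x21e194861a1584c121582e, 0,
    0xc22294822e2984a262541d, 0x62423881a62c29888318e62423881a8861842e2a8b5]]

noncomputable def n1025 : Ent := ⟨e1025, noF, [], [], []⟩

def c1025 : PLift (Cov.check n1025.C.D v1025 = true) := ⟨by decide +kernel⟩

def b1025 : PLift (entF (fidx ts) 400 1025 n1025 = true) := ⟨by decide +kernel⟩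

theorem g1025 : GoodF (fidx ts) 400 1025 := GoodF.ofV v1025 n1025 c1025.down b1025.down

/-- 459455:854/1 -/
noncomputable def e1026 : SCfg where
  D := {
    a := 6
    L := 9
    kp := 6
    inn := [(0, 1), (0, 2), (1, 0), (1, 2), (2, 0), (2, 1), (2, 3), (2, 4), (2, 5), (3, 2), (3, 5), (4,
      2), (5, 2), (5, 3)]
    mix := [(0, 0), (0, 1), (1, 1), (1, 2), (1, 3), (2, 0), (2, 3), (2, 4), (2, 5), (3, 4), (3, 6), (4,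
      2), (4, 3), (4, 4), (4, 7), (5, 5), (5, 6), (5, 8)]
    cl := [0, 2, 4, 0, 0, 1, 3, 5, 6]
    chq := [(1, 3), (3, 1)]
    rng := [(0, 1), (0, 5), (1, 0), (1, 2), (2, 1), (2, 3), (2, 7), (3, 2), (4, 6), (4, 7), (5, 0), (5,
      8), (6, 4), (6, 8), (7, 2), (7, 4), (8, 5), (8, 6)]
    lev := [] }
  links := [[1, 2, 6, 7], [2, 0, 7, 8, 9], [6, 0, 1, 9, 4, 10, 3, 5, 11], [5, 2, 10, 12], [10, 2, 9, 8,
    13], [11, 2, 3, 12, 14]]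
  P := {
    a := 6
    N := 15
    nb := [198, 901, 3707, 5156, 9988, 22540, 2181, 323, 8850, 278, 12316, 16484, 17448, 1296, 6176]
    tri := [(0, 1, 2), (0, 1, 7), (0, 2, 6), (0, 6, 7), (1, 2, 9), (1, 7, 8), (1, 8, 9), (2, 3, 5), (2,
      3, 10), (2, 4, 9), (2, 4, 10), (2, 5, 11), (2, 6, 11), (3, 5, 12), (3, 10, 12), (4, 8, 9),
      (4, 8, 13), (4, 10, 13), (5, 11, 14), (5, 12, 14)]
    fin := [0, 0, 0, 0, 0, 5, 0, 7, 8, 0, 0, 11, 5, 13, 14]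
    chd := [(11, 5)]
    steps := [(0, 1), (0, 2), (0, 3), (0, 6), (0, 9), (0, 4), (0, 10), (5, 12)] }
  rep := [0, 11, 7, 5, 8, 13, 14]

noncomputable def v1026 : Cov.CovD where
  P := 3
  N := 4
  pl := [1, 2, 7, 8]
  lev := [⟨[], [], [], [2], [(0, 0, [])]⟩,
    ⟨[], [(0, 0)], [], [2, 4], [(3, 0, [])]⟩,
    ⟨[(0, 1)], [(0, 0), (0, 1), (1, 0), (1, 1)], [(0, 0), (0, 1)], [], [(0, 0, []), (3, 0,
      []), (4, 0, []), (5, 1, [3])]⟩,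
    ⟨[(0, 2), (1, 2)], [(2, 0), (2, 1), (2, 3)], [(0, 3)], [], [(4, 0, []), (6, 3, [1])]⟩,
    ⟨[(0, 2), (1, 2), (2, 3)], [(1, 0), (2, 0), (2, 1), (3, 0)], [(0, 0)], [4, 5], [(3, 0,
      []), (4, 0, [])]⟩,
    ⟨[(0, 2), (1, 2), (2, 3), (2, 4)], [(2, 0), (2, 1), (2, 3), (3, 0), (3, 1), (3, 3)],
      [(1, 3)], [6], [(5, 1, [3]), (6, 3, [1])]⟩]
  Ta := [((0, 1), 0, 2), ((0, 5), 0, 1), ((3, 2), 0, 4), ((4, 6), 0, 3), ((4, 7), 0, 5)]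
  Tb := [((0, 1, 5), 0, 2, 1), ((1, 0, 2), 2, 0, 4), ((2, 1, 3), 4, 2, 0), ((2, 1, 7), 4, 2, 5),
    ((2, 3, 7), 4, 0, 5), ((4, 6, 7), 0, 3, 5), ((5, 0, 8), 1, 0, 6), ((6, 4, 8), 3, 0, 6),
    ((7, 2, 4), 5, 4, 0), ((8, 5, 6), 6, 1, 3)]
  Tc := []
  Td := [((1, 3), (5, 0), 0), ((1, 3), (5, 8), 6), ((3, 1), (6, 4), 0), ((3, 1), (6, 8), 6)]
  G := [[0, 0xeaee1444618, 0x442d9c2cdd628a2, 0x442d9de2c18, 0x542d8de2c18], [0, 0, 0,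
    0x99a24dd628c44a2485, 0x542d8c2c1d6c438a2], [0, 0, 0, 0x5562d88e2c18, 0x542d8de2c18]]

noncomputable def n1026 : Ent := ⟨e1026, noF, [], [], []⟩

def c1026 : PLift (Cov.check n1026.C.D v1026 = true) := ⟨by decide +kernel⟩

def b1026 : PLift (entF (fidx ts) 400 1026 n1026 = true) := ⟨by decide +kernel⟩

theorem g1026 : GoodF (fidx ts) 400 1026 := GoodF.ofV v1026 n1026 c1026.down b1026.down

/-- 459455:854 -/
noncomputable def e1027 : SCfg where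
  D := {
    a := 6
    L := 10
    kp := 7
    inn := [(0, 1), (0, 2), (1, 0), (1, 2), (2, 0), (2, 1), (2, 3), (2, 4), (2, 5), (3, 2), (3, 5), (4,
      2), (5, 2), (5, 3)]
    mix := [(0, 0), (0, 1), (1, 1), (1, 2), (1, 3), (2, 0), (2, 3), (2, 4), (2, 5), (3, 4), (3, 6), (4,
      3), (4, 4), (4, 7), (4, 8), (5, 5), (5, 6), (5, 9)]
    cl := [0, 2, 4, 0, 0, 1, 3, 5, 6, 7]
    chq := [(1, 3), (3, 1)]
    rng := [(0, 1), (0, 5), (1, 0), (1, 2), (2, 1), (2, 3), (3, 2), (3, 7), (4, 6), (4, 8), (5, 0), (5,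
      9), (6, 4), (6, 9), (7, 3), (7, 8), (8, 4), (8, 7), (9, 5), (9, 6)]
    lev := [] }
  links := [[1, 2, 6, 7], [2, 0, 7, 8, 9], [6, 0, 1, 9, 4, 10, 3, 5, 11], [5, 2, 10, 12], [10, 2, 9, 13,
    14], [11, 2, 3, 12, 15]]
  P := {
    a := 6
    N := 16
    nb := [198, 901, 3707, 5156, 26116, 38924, 2181, 323, 642, 8470, 20508, 32868, 33832, 16912, 9232,
      6176]
    tri := [(0, 1, 2), (0, 1, 7), (0, 2, 6), (0, 6, 7), (1, 2, 9), (1, 7, 8), (1, 8, 9), (2, 3, 5), (2,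
      3, 10), (2, 4, 9), (2, 4, 10), (2, 5, 11), (2, 6, 11), (3, 5, 12), (3, 10, 12), (4, 9, 13),
      (4, 10, 14), (4, 13, 14), (5, 11, 15), (5, 12, 15)]
    fin := [0, 0, 0, 0, 0, 5, 0, 7, 8, 0, 0, 11, 5, 13, 14, 15]
    chd := [(11, 5)]
    steps := [(0, 1), (0, 2), (0, 3), (0, 4), (0, 6), (0, 9), (0, 10), (5, 12)] }
  rep := [0, 11, 7, 5, 8, 13, 14, 15]

noncomputable def v1027 : Cov.CovD where
  P := 3
  N := 5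
  pl := [1, 2, 7, 8, 9]
  lev := [⟨[], [], [], [2], [(0, 0, [])]⟩,
    ⟨[], [(0, 0)], [], [2, 4], [(3, 0, [])]⟩,
    ⟨[(0, 1)], [(0, 0), (0, 1), (1, 0), (1, 1)], [(0, 0), (0, 1)], [], [(0, 0, []), (3, 0,
      []), (4, 0, []), (5, 1, [3])]⟩,
    ⟨[(0, 2), (1, 2)], [(2, 0), (2, 1), (2, 3)], [(0, 3)], [], [(4, 0, []), (6, 3, [1])]⟩,
    ⟨[(0, 2), (1, 2), (2, 3)], [(1, 0), (2, 0), (2, 1), (3, 0)], [(0, 0)], [5, 6], [(3, 0,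
      []), (4, 0, [])]⟩,
    ⟨[(0, 2), (1, 2), (2, 3), (2, 4)], [(2, 0), (2, 1), (2, 3), (3, 0), (3, 1), (3, 3)],
      [(1, 3)], [7], [(5, 1, [3]), (6, 3, [1])]⟩]
  Ta := [((0, 1), 0, 2), ((0, 5), 0, 1), ((3, 2), 0, 4), ((3, 7), 0, 5), ((4, 6), 0, 3), ((4, 8),
    0, 6)]
  Tb := [((0, 1, 5), 0, 2, 1), ((1, 0, 2), 2, 0, 4), ((2, 1, 3), 4, 2, 0), ((3, 2, 7), 0, 4, 5),
    ((4, 6, 8), 0, 3, 6), ((5, 0, 9), 1, 0, 7), ((6, 4, 9), 3, 0, 7), ((7, 3, 8), 5, 0, 6),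
    ((8, 4, 7), 6, 0, 5), ((9, 5, 6), 7, 1, 3)]
  Tc := []
  Td := [((1, 3), (5, 0), 0), ((1, 3), (5, 9), 7), ((3, 1), (6, 4), 0), ((3, 1), (6, 9), 7)]
  G := [[0, 0x621ee8e1a18, 0x442d94e2c99a244dde28e2, 0x5dde2888c14, 0x441d9de2c12], [0, 0, 0,
    0x441d9de2c1d1e4ca3888cc1, 0x441d9de2c5dde2882ca1], [0, 0, 0, 0x444d9de2c18,
    0x542d8de2c18]]

noncomputable def n1027 : Ent := ⟨e1027, noF, [], [], [(8, 13, [385753028440516072301428330182238677962518295842732840411209729, 0])]⟩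

def c1027 : PLift (Cov.check n1027.C.D v1027 = true) := ⟨by decide +kernel⟩

def b1027 : PLift (entF (fidx ts) 400 1027 n1027 = true) := ⟨by decide +kernel⟩

theorem g1027 : GoodF (fidx ts) 400 1027 := GoodF.ofV v1027 n1027 c1027.down b1027.down

/-- 459454:855/1 -/
noncomputable def e1028 : SCfg where
  D := {
    a := 6
    L := 9
    kp := 6
    inn := [(0, 1), (0, 2), (1, 0), (1, 2), (2, 0), (2, 1), (2, 3), (2, 4), (2, 5), (3, 2), (4, 2), (5,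
      2)]
    mix := [(0, 0), (0, 1), (1, 1), (1, 2), (1, 3), (2, 0), (2, 3), (2, 4), (2, 5), (3, 4), (3, 5), (3,
      6), (4, 2), (4, 3), (4, 4), (4, 7), (5, 0), (5, 5), (5, 8)]
    cl := [0, 2, 3, 0, 0, 1, 4, 5, 6]
    chq := [(0, 1), (1, 0)]
    rng := [(0, 1), (0, 8), (1, 0), (1, 2), (2, 1), (2, 3), (2, 7), (3, 2), (4, 6), (4, 7), (5, 6), (5,
      8), (6, 4), (6, 5), (7, 2), (7, 4), (8, 0), (8, 5)]
    lev := [] }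
  links := [[1, 2, 6, 7], [2, 0, 7, 8, 9], [6, 0, 1, 9, 4, 10, 3, 11, 5], [11, 2, 10, 12], [10, 2, 9, 8,
    13], [6, 2, 11, 14]]
  P := {
    a := 6
    N := 15
    nb := [198, 901, 3707, 7172, 9988, 18500, 16549, 323, 8850, 278, 12316, 20524, 3080, 1296, 2144]
    tri := [(0, 1, 2), (0, 1, 7), (0, 2, 6), (0, 6, 7), (1, 2, 9), (1, 7, 8), (1, 8, 9), (2, 3, 10),
      (2, 3, 11), (2, 4, 9), (2, 4, 10), (2, 5, 6), (2, 5, 11), (3, 10, 12), (3, 11, 12), (4, 8,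
      9), (4, 8, 13), (4, 10, 13), (5, 6, 14), (5, 11, 14)]
    fin := [0, 0, 0, 0, 0, 0, 0, 7, 8, 0, 0, 11, 12, 13, 14]
    chd := [(0, 11)]
    steps := [(0, 1), (0, 2), (0, 3), (0, 5), (0, 6), (0, 9), (0, 4), (0, 10)] }
  rep := [0, 11, 7, 8, 12, 13, 14]

noncomputable def v1028 : Cov.CovD where
  P := 3
  N := 4
  pl := [1, 2, 6, 7, 8]
  lev := [⟨[], [], [], [2], [(0, 0, [1])]⟩,
    ⟨[], [(0, 0)], [], [2, 3], [(3, 0, [1])]⟩,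
    ⟨[(0, 1)], [(0, 0), (0, 1), (1, 0), (1, 1)], [(0, 0), (0, 1)], [], [(0, 0, [1]), (3, 0,
      [1]), (4, 0, [1]), (5, 1, [0])]⟩,
    ⟨[(0, 2), (1, 2)], [(2, 0), (2, 1)], [(0, 1)], [4], [(4, 0, [1]), (5, 1, [0])]⟩,
    ⟨[(0, 2), (1, 2), (2, 3)], [(1, 0), (2, 0), (2, 1), (3, 0)], [(0, 0)], [3, 5], [(3, 0,
      [1]), (4, 0, [1])]⟩,
    ⟨[(0, 2), (1, 2), (2, 3), (2, 4)], [(0, 0), (2, 0), (2, 1), (3, 1)], [(0, 1)], [6],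
      [(0, 0, [1]), (5, 1, [0])]⟩]
  Ta := [((0, 1), 0, 2), ((0, 8), 0, 6), ((3, 2), 0, 3), ((4, 6), 0, 4), ((4, 7), 0, 5)]
  Tb := [((0, 1, 8), 0, 2, 6), ((1, 0, 2), 2, 0, 3), ((2, 1, 3), 3, 2, 0), ((2, 1, 7), 3, 2, 5),
    ((2, 3, 7), 3, 0, 5), ((4, 6, 7), 0, 4, 5), ((5, 6, 8), 1, 4, 6), ((6, 4, 5), 4, 0, 1),
    ((7, 2, 4), 5, 3, 0), ((8, 0, 5), 6, 0, 1)]
  Tc := []
  Td := [((0, 1), (0, 1), 2), ((0, 1), (0, 8), 6), ((0, 1), (3, 2), 3), ((0, 1), (4, 6), 4), ((0,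
    1), (4, 7), 5), ((1, 0), (5, 6), 4), ((1, 0), (5, 8), 6)]
  G := [[0, 0x6c6e6c6e6814, 0xc814c418c214e2, 0x441c8ce1c18, 0x4cce1881c12], [0, 0xa6cecccec214,
    0, 0x11a1411618c8, 0x11c1411618a8], [0, 0x6a6e8ccce4618, 0, 0x116111ec188c14,
    0x116111ec188c12]]

noncomputable def n1028 : Ent := ⟨e1028, noF, [], [], []⟩

def c1028 : PLift (Cov.check n1028.C.D v1028 = true) := ⟨by decide +kernel⟩

def b1028 : PLift (entF (fidx ts) 400 1028 n1028 = true) := ⟨by decide +kernel⟩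

theorem g1028 : GoodF (fidx ts) 400 1028 := GoodF.ofV v1028 n1028 c1028.down b1028.down

/-- 459454:855 -/
noncomputable def e1029 : SCfg where
  D := {
    a := 6
    L := 10
    kp := 7
    inn := [(0, 1), (0, 2), (1, 0), (1, 2), (2, 0), (2, 1), (2, 3), (2, 4), (2, 5), (3, 2), (4, 2), (5,
      2)]
    mix := [(0, 0), (0, 1), (1, 1), (1, 2), (1, 3), (2, 0), (2, 3), (2, 4), (2, 5), (3, 4), (3, 5), (3,
      6), (4, 3), (4, 4), (4, 7), (4, 8), (5, 0), (5, 5), (5, 9)]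
    cl := [0, 2, 3, 0, 0, 1, 4, 5, 6, 7]
    chq := [(0, 1), (1, 0)]
    rng := [(0, 1), (0, 9), (1, 0), (1, 2), (2, 1), (2, 3), (3, 2), (3, 7), (4, 6), (4, 8), (5, 6), (5,
      9), (6, 4), (6, 5), (7, 3), (7, 8), (8, 4), (8, 7), (9, 0), (9, 5)]
    lev := [] }
  links := [[1, 2, 6, 7], [2, 0, 7, 8, 9], [6, 0, 1, 9, 4, 10, 3, 11, 5], [11, 2, 10, 12], [10, 2, 9, 13,
    14], [6, 2, 11, 15]]
  P := {
    a := 6
    N := 16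
    nb := [198, 901, 3707, 7172, 26116, 34884, 32933, 323, 642, 8470, 20508, 36908, 3080, 16912, 9232,
      2144]
    tri := [(0, 1, 2), (0, 1, 7), (0, 2, 6), (0, 6, 7), (1, 2, 9), (1, 7, 8), (1, 8, 9), (2, 3, 10),
      (2, 3, 11), (2, 4, 9), (2, 4, 10), (2, 5, 6), (2, 5, 11), (3, 10, 12), (3, 11, 12), (4, 9,
      13), (4, 10, 14), (4, 13, 14), (5, 6, 15), (5, 11, 15)]
    fin := [0, 0, 0, 0, 0, 0, 0, 7, 8, 0, 0, 11, 12, 13, 14, 15]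
    chd := [(0, 11)]
    steps := [(0, 1), (0, 2), (0, 3), (0, 4), (0, 5), (0, 6), (0, 9), (0, 10)] }
  rep := [0, 11, 7, 8, 12, 13, 14, 15]

noncomputable def v1029 : Cov.CovD where
  P := 3
  N := 5
  pl := [1, 2, 6, 7, 8, 9]
  lev := [⟨[], [], [], [2], [(0, 0, [1])]⟩,
    ⟨[], [(0, 0)], [], [2, 3], [(3, 0, [1])]⟩,
    ⟨[(0, 1)], [(0, 0), (0, 1), (1, 0), (1, 1)], [(0, 0), (0, 1)], [], [(0, 0, [1]), (3, 0,
      [1]), (4, 0, [1]), (5, 1, [0])]⟩,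
    ⟨[(0, 2), (1, 2)], [(2, 0), (2, 1)], [(0, 1)], [4], [(4, 0, [1]), (5, 1, [0])]⟩,
    ⟨[(0, 2), (1, 2), (2, 3)], [(1, 0), (2, 0), (2, 1), (3, 0)], [(0, 0)], [5, 6], [(3, 0,
      [1]), (4, 0, [1])]⟩,
    ⟨[(0, 2), (1, 2), (2, 3), (2, 4)], [(0, 0), (2, 0), (2, 1), (3, 1)], [(0, 1)], [7],
      [(0, 0, [1]), (5, 1, [0])]⟩]
  Ta := [((0, 1), 0, 2), ((0, 9), 0, 7), ((3, 2), 0, 3), ((3, 7), 0, 5), ((4, 6), 0, 4), ((4, 8),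
    0, 6)]
  Tb := [((0, 1, 9), 0, 2, 7), ((1, 0, 2), 2, 0, 3), ((2, 1, 3), 3, 2, 0), ((3, 2, 7), 0, 3, 5),
    ((4, 6, 8), 0, 4, 6), ((5, 6, 9), 1, 4, 7), ((6, 4, 5), 4, 0, 1), ((7, 3, 8), 5, 0, 6),
    ((8, 4, 7), 6, 0, 5), ((9, 0, 5), 7, 0, 1)]
  Tc := []
  Td := [((0, 1), (0, 1), 2), ((0, 1), (0, 9), 7), ((0, 1), (3, 2), 3), ((0, 1), (3, 7), 5), ((0,
    1), (4, 6), 4), ((0, 1), (4, 8), 6), ((1, 0), (5, 6), 4), ((1, 0), (5, 9), 7)]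
  G := [[0, 0xa6cea6cec214, 0xc8ce144418441c8ce1ce8, 0x4c4e188a1c14, 0x441c8ce1c12], [0,
    0xcace6ccec218, 0, 0x1161181c111e18c4, 0x111e14111e14a2], [0, 0xaacec6cec214, 0,
    0x116111ec188c14, 0x144111e11acc18]]

noncomputable def n1029 : Ent := ⟨e1029, noF, [], [], [(8, 13, [385753028440516072301428330182238677962518295842732840411217921, 0])]⟩

def c1029 : PLift (Cov.check n1029.C.D v1029 = true) := ⟨by decide +kernel⟩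

def b1029 : PLift (entF (fidx ts) 400 1029 n1029 = true) := ⟨by decide +kernel⟩

theorem g1029 : GoodF (fidx ts) 400 1029 := GoodF.ofV v1029 n1029 c1029.down b1029.down

/-- 459454:857/1 -/
noncomputable def e1030 : SCfg where
  D := {
    a := 6
    L := 9
    kp := 6
    inn := [(0, 1), (0, 2), (1, 0), (1, 2), (2, 0), (2, 1), (2, 3), (2, 4), (3, 2), (4, 2), (4, 5), (5,
      4)]
    mix := [(0, 0), (0, 1), (1, 1), (1, 2), (1, 3), (2, 0), (2, 3), (2, 4), (2, 5), (2, 6), (3, 4), (3,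
      5), (3, 7), (4, 3), (4, 4), (4, 8), (5, 2), (5, 3), (5, 8)]
    cl := [0, 1, 2, 0, 0, 3, 5, 6, 4]
    chq := [(0, 3), (3, 0)]
    rng := [(0, 1), (0, 6), (1, 0), (1, 2), (2, 1), (2, 3), (2, 8), (3, 2), (4, 7), (4, 8), (5, 6), (5,
      7), (6, 0), (6, 5), (7, 4), (7, 5), (8, 2), (8, 4)]
    lev := [] }
  links := [[1, 2, 6, 7], [2, 0, 7, 8, 9], [6, 0, 1, 9, 4, 10, 3, 11, 12], [11, 2, 10, 13], [10, 2, 9, 5,
    14], [14, 4, 9, 8]]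
  P := {
    a := 6
    N := 15
    nb := [198, 901, 7771, 11268, 17956, 17168, 4229, 323, 17058, 310, 24604, 12300, 2116, 3080, 1328]
    tri := [(0, 1, 2), (0, 1, 7), (0, 2, 6), (0, 6, 7), (1, 2, 9), (1, 7, 8), (1, 8, 9), (2, 3, 10),
      (2, 3, 11), (2, 4, 9), (2, 4, 10), (2, 6, 12), (2, 11, 12), (3, 10, 13), (3, 11, 13), (4, 5,
      9), (4, 5, 14), (4, 10, 14), (5, 8, 9), (5, 8, 14)]
    fin := [0, 0, 0, 0, 0, 0, 0, 7, 8, 0, 0, 11, 12, 13, 14]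
    chd := [(0, 11)]
    steps := [(0, 1), (0, 2), (0, 3), (0, 4), (0, 6), (0, 9), (0, 5), (0, 10)] }
  rep := [0, 7, 8, 11, 14, 12, 13]

noncomputable def v1030 : Cov.CovD where
  P := 3
  N := 4
  pl := [1, 2, 6, 7, 8]
  lev := [⟨[], [], [], [1], [(0, 0, [3])]⟩,
    ⟨[], [(0, 0)], [], [1, 2], [(3, 0, [3])]⟩,
    ⟨[(0, 1)], [(0, 0), (0, 3), (1, 0), (1, 3)], [(0, 0), (0, 3)], [5], [(0, 0, [3]), (3,
      0, [3]), (4, 0, [3]), (5, 3, [0])]⟩,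
    ⟨[(0, 2), (1, 2)], [(2, 0), (2, 3)], [(0, 3)], [6], [(4, 0, [3]), (5, 3, [0])]⟩,
    ⟨[(0, 2), (1, 2), (2, 3)], [(1, 0), (2, 0), (2, 3), (3, 0)], [(0, 0)], [4], [(3, 0,
      [3]), (4, 0, [3])]⟩,
    ⟨[(2, 4)], [(1, 0), (2, 0), (4, 0)], [], [2, 4], [(3, 0, [3])]⟩]
  Ta := [((0, 1), 0, 1), ((0, 6), 0, 5), ((3, 2), 0, 2), ((4, 7), 0, 6), ((4, 8), 0, 4)]
  Tb := [((0, 1, 6), 0, 1, 5), ((1, 0, 2), 1, 0, 2), ((2, 1, 3), 2, 1, 0), ((2, 1, 8), 2, 1, 4),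
    ((2, 3, 8), 2, 0, 4), ((4, 7, 8), 0, 6, 4), ((5, 6, 7), 3, 5, 6), ((6, 0, 5), 5, 0, 3),
    ((7, 4, 5), 6, 0, 3), ((8, 2, 4), 4, 2, 0)]
  Tc := []
  Td := [((0, 3), (0, 1), 1), ((0, 3), (0, 6), 5), ((0, 3), (3, 2), 2), ((0, 3), (4, 7), 6), ((0,
    3), (4, 8), 4), ((3, 0), (5, 6), 5), ((3, 0), (5, 7), 6)]
  G := [[0, 0x416181a14161e84, 0, 0x1212341212912125ac4, 0x148165882282ab1218186be84], [0, 0,
    0x426182a184c1e48, 0x12c2512c2312c29e84, 0x186826581a82a92ac82c3e84], [0, 0, 0,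
    0x81a9252e9284c81ce6c248652e8c1, 0x826826826e8181a82a82ce21c18681ce685]]

noncomputable def n1030 : Ent := ⟨e1030, noF, [], [], []⟩

def c1030 : PLift (Cov.check n1030.C.D v1030 = true) := ⟨by decide +kernel⟩

def b1030 : PLift (entF (fidx ts) 400 1030 n1030 = true) := ⟨by decide +kernel⟩

theorem g1030 : GoodF (fidx ts) 400 1030 := GoodF.ofV v1030 n1030 c1030.down b1030.down

/-- 459454:857 -/
noncomputable def e1031 : SCfg where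
  D := {
    a := 6
    L := 10
    kp := 7
    inn := [(0, 1), (0, 2), (1, 0), (1, 2), (2, 0), (2, 1), (2, 3), (2, 4), (3, 2), (4, 2), (4, 5), (5,
      4)]
    mix := [(0, 0), (0, 1), (1, 1), (1, 2), (1, 3), (2, 0), (2, 3), (2, 4), (2, 5), (2, 6), (3, 4), (3,
      5), (3, 7), (4, 3), (4, 4), (4, 8), (5, 3), (5, 8), (5, 9)]
    cl := [0, 2, 4, 0, 0, 1, 5, 6, 3, 7]
    chq := [(0, 1), (1, 0)]
    rng := [(0, 1), (0, 6), (1, 0), (1, 2), (2, 1), (2, 3), (3, 2), (3, 9), (4, 7), (4, 8), (5, 6), (5,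
      7), (6, 0), (6, 5), (7, 4), (7, 5), (8, 4), (8, 9), (9, 3), (9, 8)]
    lev := [] }
  links := [[1, 2, 6, 7], [2, 0, 7, 8, 9], [6, 0, 1, 9, 4, 10, 3, 11, 12], [11, 2, 10, 13], [10, 2, 9, 5,
    14], [14, 4, 9, 15]]
  P := {
    a := 6
    N := 16
    nb := [198, 901, 7771, 11268, 17956, 49680, 4229, 323, 642, 33078, 24604, 12300, 2116, 3080,
      33840, 16928]
    tri := [(0, 1, 2), (0, 1, 7), (0, 2, 6), (0, 6, 7), (1, 2, 9), (1, 7, 8), (1, 8, 9), (2, 3, 10),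
      (2, 3, 11), (2, 4, 9), (2, 4, 10), (2, 6, 12), (2, 11, 12), (3, 10, 13), (3, 11, 13), (4, 5,
      9), (4, 5, 14), (4, 10, 14), (5, 9, 15), (5, 14, 15)]
    fin := [0, 0, 0, 0, 0, 0, 0, 7, 8, 0, 0, 11, 12, 13, 14, 15]
    chd := [(0, 11)]
    steps := [(0, 1), (0, 2), (0, 3), (0, 4), (0, 5), (0, 6), (0, 9), (0, 10)] }
  rep := [0, 11, 7, 14, 8, 12, 13, 15]

noncomputable def v1031 : Cov.CovD where
  P := 3
  N := 5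
  pl := [1, 2, 6, 7, 8, 9]
  lev := [⟨[], [], [], [2], [(0, 0, [1])]⟩,
    ⟨[], [(0, 0)], [], [2, 4], [(3, 0, [1])]⟩,
    ⟨[(0, 1)], [(0, 0), (0, 1), (1, 0), (1, 1)], [(0, 0), (0, 1)], [5], [(0, 0, [1]), (3,
      0, [1]), (4, 0, [1]), (5, 1, [0])]⟩,
    ⟨[(0, 2), (1, 2)], [(2, 0), (2, 1)], [(0, 1)], [6], [(4, 0, [1]), (5, 1, [0])]⟩,
    ⟨[(0, 2), (1, 2), (2, 3)], [(1, 0), (2, 0), (2, 1), (3, 0)], [(0, 0)], [3], [(3, 0,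
      [1]), (4, 0, [1])]⟩,
    ⟨[(2, 4)], [(1, 0), (2, 0), (4, 0)], [], [3, 7], [(3, 0, [1])]⟩]
  Ta := [((0, 1), 0, 2), ((0, 6), 0, 5), ((3, 2), 0, 4), ((3, 9), 0, 7), ((4, 7), 0, 6), ((4, 8),
    0, 3)]
  Tb := [((0, 1, 6), 0, 2, 5), ((1, 0, 2), 2, 0, 4), ((2, 1, 3), 4, 2, 0), ((3, 2, 9), 0, 4, 7),
    ((4, 7, 8), 0, 6, 3), ((5, 6, 7), 1, 5, 6), ((6, 0, 5), 5, 0, 1), ((7, 4, 5), 6, 0, 1),
    ((8, 4, 9), 3, 0, 7), ((9, 3, 8), 7, 0, 3)]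
  Tc := []
  Td := [((0, 1), (0, 1), 2), ((0, 1), (0, 6), 5), ((0, 1), (3, 2), 4), ((0, 1), (3, 9), 7), ((0,
    1), (4, 7), 6), ((0, 1), (4, 8), 3), ((1, 0), (5, 6), 5), ((1, 0), (5, 7), 6)]
  G := [[0, 0xca64c6a8a6c2e18, 0x116111a1c116111c1c68, 0xca61c6a1c18, 0xca61c6a1c12], [0,
    0x14841884ca64e28a6c2ed8, 0, 0xca61c6a1cca61c6a1cc1, 0xca61c6a1cca61c6a1ca1], [0,
    0xca64c6a8a6c2e14, 0, 0xc6ac6ac41ca6ca6c81c, 0xca6ca6cc6ac6acc12]]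

noncomputable def n1031 : Ent := ⟨e1031, noF, [], [], [(8, 15, [360035742630636841211993100915356868655746945586763691011891201, 0])]⟩

def c1031 : PLift (Cov.check n1031.C.D v1031 = true) := ⟨by decide +kernel⟩

def b1031 : PLift (entF (fidx ts) 400 1031 n1031 = true) := ⟨by decide +kernel⟩

theorem g1031 : GoodF (fidx ts) 400 1031 := GoodF.ofV v1031 n1031 c1031.down b1031.down

/-- 459454:858/2 -/
noncomputable def e1032 : SCfg where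
  D := {
    a := 6
    L := 8
    kp := 5
    inn := [(0, 1), (0, 2), (1, 0), (1, 2), (2, 0), (2, 1), (2, 3), (2, 4), (3, 2), (4, 2), (4, 5), (5,
      4)]
    mix := [(0, 0), (0, 1), (1, 1), (1, 2), (1, 3), (2, 0), (2, 3), (2, 4), (2, 5), (2, 6), (3, 4), (3,
      5), (3, 7), (4, 2), (4, 3), (4, 4), (5, 2), (5, 4), (5, 7)]
    cl := [0, 2, 1, 0, 0, 3, 5, 4]
    chq := [(0, 3), (3, 0)]
    rng := [(0, 1), (0, 6), (1, 0), (1, 2), (2, 1), (2, 3), (2, 7), (3, 2), (4, 7), (5, 6), (5, 7), (6,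
      0), (6, 5), (7, 2), (7, 4), (7, 5)]
    lev := [] }
  links := [[1, 2, 6, 7], [2, 0, 7, 8, 9], [6, 0, 1, 9, 4, 10, 3, 11, 12], [11, 2, 10, 13], [10, 2, 9, 8,
    5], [10, 4, 8, 13]]
  P := {
    a := 6
    N := 14
    nb := [198, 901, 7771, 11268, 1828, 9488, 4229, 323, 8882, 278, 8252, 12300, 2116, 3368]
    tri := [(0, 1, 2), (0, 1, 7), (0, 2, 6), (0, 6, 7), (1, 2, 9), (1, 7, 8), (1, 8, 9), (2, 3, 10),
      (2, 3, 11), (2, 4, 9), (2, 4, 10), (2, 6, 12), (2, 11, 12), (3, 10, 13), (3, 11, 13), (4, 5,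
      8), (4, 5, 10), (4, 8, 9), (5, 8, 13), (5, 10, 13)]
    fin := [0, 0, 0, 0, 0, 0, 0, 7, 8, 0, 0, 11, 12, 13]
    chd := [(0, 11)]
    steps := [(0, 1), (0, 2), (0, 3), (0, 6), (0, 9), (0, 4), (0, 10), (0, 5)] }
  rep := [0, 8, 7, 11, 13, 12]

noncomputable def v1032 : Cov.CovD where
  P := 3
  N := 3
  pl := [1, 2, 6, 7]
  lev := [⟨[], [], [], [2], [(0, 0, [3])]⟩,
    ⟨[], [(0, 0)], [], [1, 2], [(3, 0, [3])]⟩,
    ⟨[(0, 1)], [(0, 0), (0, 3), (1, 0), (1, 3)], [(0, 0), (0, 3)], [5], [(0, 0, [3]), (3,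
      0, [3]), (4, 0, [3]), (5, 3, [0])]⟩,
    ⟨[(0, 2), (1, 2)], [(2, 0), (2, 3)], [(0, 3)], [4], [(4, 0, [3]), (5, 3, [0])]⟩,
    ⟨[(0, 2), (1, 2), (2, 3)], [(1, 0), (2, 0), (2, 3), (3, 0)], [(0, 0)], [1], [(3, 0,
      [3]), (4, 0, [3])]⟩,
    ⟨[(2, 4)], [(2, 0), (3, 0), (4, 0)], [], [1, 4], [(4, 0, [3])]⟩]
  Ta := [((0, 1), 0, 2), ((0, 6), 0, 5), ((3, 2), 0, 1), ((4, 7), 0, 4)]
  Tb := [((0, 1, 6), 0, 2, 5), ((1, 0, 2), 2, 0, 1), ((2, 1, 3), 1, 2, 0), ((2, 1, 7), 1, 2, 4),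
    ((2, 3, 7), 1, 0, 4), ((5, 6, 7), 3, 5, 4), ((6, 0, 5), 5, 0, 3), ((7, 2, 4), 4, 1, 0),
    ((7, 2, 5), 4, 1, 3), ((7, 4, 5), 4, 0, 3)]
  Tc := []
  Td := [((0, 3), (0, 1), 2), ((0, 3), (0, 6), 5), ((0, 3), (3, 2), 1), ((0, 3), (4, 7), 4), ((3,
    0), (5, 6), 5), ((3, 0), (5, 7), 4)]
  G := [[0, 0, 0xc41c81c41e42, 0xc4118c83182e84, 0x84c43488451814447e18], [0, 0xc21681641e48, 0,
    0x4818847c81142e41, 0xc41144884e1844c4de82], [0, 0, 0, 0x844444ec42a4844888e485,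
    0x8448a844888ec14444448c4ea83]]

noncomputable def n1032 : Ent := ⟨e1032, noF, [], [], []⟩

def c1032 : PLift (Cov.check n1032.C.D v1032 = true) := ⟨by decide +kernel⟩

def b1032 : PLift (entF (fidx ts) 400 1032 n1032 = true) := ⟨by decide +kernel⟩

theorem g1032 : GoodF (fidx ts) 400 1032 := GoodF.ofV v1032 n1032 c1032.down b1032.down

/-- 459454:858/1 -/
noncomputable def e1033 : SCfg where
  D := {
    a := 6
    L := 9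
    kp := 6
    inn := [(0, 1), (0, 2), (1, 0), (1, 2), (2, 0), (2, 1), (2, 3), (2, 4), (3, 2), (4, 2), (4, 5), (5,
      4)]
    mix := [(0, 0), (0, 1), (1, 1), (1, 2), (1, 3), (2, 0), (2, 3), (2, 4), (2, 5), (2, 6), (3, 4), (3,
      5), (3, 7), (4, 2), (4, 3), (4, 4), (5, 2), (5, 4), (5, 8)]
    cl := [0, 1, 3, 0, 0, 4, 2, 5, 6]
    chq := [(0, 4), (4, 0)]
    rng := [(0, 1), (0, 6), (1, 0), (1, 2), (2, 1), (2, 3), (2, 8), (3, 2), (4, 7), (4, 8), (5, 6), (5,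
      7), (6, 0), (6, 5), (7, 4), (7, 5), (8, 2), (8, 4)]
    lev := [] }
  links := [[1, 2, 6, 7], [2, 0, 7, 8, 9], [6, 0, 1, 9, 4, 10, 3, 11, 12], [11, 2, 10, 13], [10, 2, 9, 8,
    5], [10, 4, 8, 14]]
  P := {
    a := 6
    N := 15
    nb := [198, 901, 7771, 11268, 1828, 17680, 4229, 323, 17074, 278, 24636, 12300, 2116, 3080, 1312]
    tri := [(0, 1, 2), (0, 1, 7), (0, 2, 6), (0, 6, 7), (1, 2, 9), (1, 7, 8), (1, 8, 9), (2, 3, 10),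
      (2, 3, 11), (2, 4, 9), (2, 4, 10), (2, 6, 12), (2, 11, 12), (3, 10, 13), (3, 11, 13), (4, 5,
      8), (4, 5, 10), (4, 8, 9), (5, 8, 14), (5, 10, 14)]
    fin := [0, 0, 0, 0, 0, 0, 0, 7, 8, 0, 0, 11, 12, 13, 14]
    chd := [(0, 11)]
    steps := [(0, 1), (0, 2), (0, 3), (0, 6), (0, 9), (0, 4), (0, 5), (0, 10)] }
  rep := [0, 7, 12, 8, 11, 13, 14]

noncomputable def v1033 : Cov.CovD where
  P := 3
  N := 4
  pl := [1, 2, 6, 7, 8]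
  lev := [⟨[], [], [], [1], [(0, 0, [4])]⟩,
    ⟨[], [(0, 0)], [], [1, 3], [(3, 0, [4])]⟩,
    ⟨[(0, 1)], [(0, 0), (0, 4), (1, 0), (1, 4)], [(0, 0), (0, 4)], [2], [(0, 0, [4]), (3,
      0, [4]), (4, 0, [4]), (5, 4, [0])]⟩,
    ⟨[(0, 2), (1, 2)], [(2, 0), (2, 4)], [(0, 4)], [5], [(4, 0, [4]), (5, 4, [0])]⟩,
    ⟨[(0, 2), (1, 2), (2, 3)], [(1, 0), (2, 0), (2, 4), (3, 0)], [(0, 0)], [3], [(3, 0,
      [4]), (4, 0, [4])]⟩,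
    ⟨[(2, 4)], [(2, 0), (3, 0), (4, 0)], [], [3, 6], [(4, 0, [4])]⟩]
  Ta := [((0, 1), 0, 1), ((0, 6), 0, 2), ((3, 2), 0, 3), ((4, 7), 0, 5), ((4, 8), 0, 6)]
  Tb := [((0, 1, 6), 0, 1, 2), ((1, 0, 2), 1, 0, 3), ((2, 1, 3), 3, 1, 0), ((2, 1, 8), 3, 1, 6),
    ((2, 3, 8), 3, 0, 6), ((4, 7, 8), 0, 5, 6), ((5, 6, 7), 4, 2, 5), ((6, 0, 5), 2, 0, 4),
    ((7, 4, 5), 5, 0, 4), ((8, 2, 4), 6, 3, 0)]
  Tc := []
  Td := [((0, 4), (0, 1), 1), ((0, 4), (0, 6), 2), ((0, 4), (3, 2), 3), ((0, 4), (4, 7), 5), ((0,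
    4), (4, 8), 6), ((4, 0), (5, 6), 2), ((4, 0), (5, 7), 5)]
  G := [[0, 0xa21c81ce4186214e4, 0xca6111a411c2e18, 0x116116ac6a1c14, 0x11611cca6c1a14], [0, 0,
    0, 0xa2118186c1414a621cc1, 0xa2118186a1414c641ac4], [0, 0, 0, 0xc6ac6a641ca6ca6a81c,
    0xca6ca6ca6ca6c6a14]]

noncomputable def n1033 : Ent := ⟨e1033, noF, [], [], [(14, 13, [87897818358406171357428020359653357189577334862559922126849, 0])]⟩

def c1033 : PLift (Cov.check n1033.C.D v1033 = true) := ⟨by decide +kernel⟩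

def b1033 : PLift (entF (fidx ts) 400 1033 n1033 = true) := ⟨by decide +kernel⟩

theorem g1033 : GoodF (fidx ts) 400 1033 := GoodF.ofV v1033 n1033 c1033.down b1033.down

/-- 459454:858/3 -/
noncomputable def e1034 : SCfg where
  D := {
    a := 6
    L := 9
    kp := 6
    inn := [(0, 1), (0, 2), (1, 0), (1, 2), (2, 0), (2, 1), (2, 3), (2, 4), (3, 2), (4, 2), (4, 5), (5,
      4)]
    mix := [(0, 0), (0, 1), (1, 1), (1, 2), (1, 3), (2, 0), (2, 3), (2, 4), (2, 5), (2, 6), (3, 4), (3,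
      5), (3, 7), (4, 3), (4, 4), (4, 8), (5, 4), (5, 7), (5, 8)]
    cl := [0, 2, 5, 0, 0, 1, 6, 3, 4]
    chq := [(0, 1), (1, 0)]
    rng := [(0, 1), (0, 6), (1, 0), (1, 2), (2, 1), (2, 3), (3, 2), (3, 8), (4, 7), (5, 6), (5, 7), (6,
      0), (6, 5), (7, 4), (7, 5), (7, 8), (8, 3), (8, 7)]
    lev := [] }
  links := [[1, 2, 6, 7], [2, 0, 7, 8, 9], [6, 0, 1, 9, 4, 10, 3, 11, 12], [11, 2, 10, 13], [10, 2, 9,
    14, 5], [10, 4, 14, 13]]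
  P := {
    a := 6
    N := 15
    nb := [198, 901, 7771, 11268, 17956, 25616, 4229, 323, 642, 16662, 8252, 12300, 2116, 19496, 8752]
    tri := [(0, 1, 2), (0, 1, 7), (0, 2, 6), (0, 6, 7), (1, 2, 9), (1, 7, 8), (1, 8, 9), (2, 3, 10),
      (2, 3, 11), (2, 4, 9), (2, 4, 10), (2, 6, 12), (2, 11, 12), (3, 10, 13), (3, 11, 13), (4, 5,
      10), (4, 5, 14), (4, 9, 14), (5, 10, 13), (5, 13, 14)]
    fin := [0, 0, 0, 0, 0, 0, 0, 7, 8, 0, 0, 11, 12, 13, 14]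
    chd := [(0, 11)]
    steps := [(0, 1), (0, 2), (0, 3), (0, 4), (0, 6), (0, 9), (0, 10), (0, 5)] }
  rep := [0, 11, 7, 13, 14, 8, 12]

noncomputable def v1034 : Cov.CovD where
  P := 3
  N := 4
  pl := [1, 2, 6, 7, 8]
  lev := [⟨[], [], [], [2], [(0, 0, [1])]⟩,
    ⟨[], [(0, 0)], [], [2, 5], [(3, 0, [1])]⟩,
    ⟨[(0, 1)], [(0, 0), (0, 1), (1, 0), (1, 1)], [(0, 0), (0, 1)], [6], [(0, 0, [1]), (3,
      0, [1]), (4, 0, [1]), (5, 1, [0])]⟩,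
    ⟨[(0, 2), (1, 2)], [(2, 0), (2, 1)], [(0, 1)], [3], [(4, 0, [1]), (5, 1, [0])]⟩,
    ⟨[(0, 2), (1, 2), (2, 3)], [(1, 0), (2, 0), (2, 1), (3, 0)], [(0, 0)], [4], [(3, 0,
      [1]), (4, 0, [1])]⟩,
    ⟨[(2, 4)], [(2, 0), (3, 0), (4, 0)], [], [3, 4], [(4, 0, [1])]⟩]
  Ta := [((0, 1), 0, 2), ((0, 6), 0, 6), ((3, 2), 0, 5), ((3, 8), 0, 4), ((4, 7), 0, 3)]
  Tb := [((0, 1, 6), 0, 2, 6), ((1, 0, 2), 2, 0, 5), ((2, 1, 3), 5, 2, 0), ((3, 2, 8), 0, 5, 4),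
    ((5, 6, 7), 1, 6, 3), ((6, 0, 5), 6, 0, 1), ((7, 4, 5), 3, 0, 1), ((7, 4, 8), 3, 0, 4),
    ((7, 5, 8), 3, 1, 4), ((8, 3, 7), 4, 0, 3)]
  Tc := []
  Td := [((0, 1), (0, 1), 2), ((0, 1), (0, 6), 6), ((0, 1), (3, 2), 5), ((0, 1), (3, 8), 4), ((0,
    1), (4, 7), 3), ((1, 0), (5, 6), 6), ((1, 0), (5, 7), 3)]
  G := [[0, 0x1241811aa1418ae14, 0xca61c6a1c144aa911c41acca2, 0xca61c6a1c14, 0xca61c6a1c12], [0,
    0x8244c12a21418ce14, 0, 0xca61c6a1c4ca618846a9c8c, 0xca61c6a1cca61c6a1ca1], [0,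
    0x126214a41168e18, 0, 0x82c46ac418a6426c81c, 0x8a624cc82c46acc12]]

noncomputable def n1034 : Ent := ⟨e1034, noF, [], [], [(8, 14, [81620716623019490593592230936445690773474979418095887613953, 0])]⟩

def c1034 : PLift (Cov.check n1034.C.D v1034 = true) := ⟨by decide +kernel⟩

def b1034 : PLift (entF (fidx ts) 400 1034 n1034 = true) := ⟨by decide +kernel⟩

theorem g1034 : GoodF (fidx ts) 400 1034 := GoodF.ofV v1034 n1034 c1034.down b1034.down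

/-- 459454:858 -/
noncomputable def e1035 : SCfg where
  D := {
    a := 6
    L := 10
    kp := 7
    inn := [(0, 1), (0, 2), (1, 0), (1, 2), (2, 0), (2, 1), (2, 3), (2, 4), (3, 2), (4, 2), (4, 5), (5,
      4)]
    mix := [(0, 0), (0, 1), (1, 1), (1, 2), (1, 3), (2, 0), (2, 3), (2, 4), (2, 5), (2, 6), (3, 4), (3,
      5), (3, 7), (4, 3), (4, 4), (4, 8), (5, 4), (5, 8), (5, 9)]
    cl := [0, 2, 4, 0, 0, 1, 5, 6, 3, 7]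
    chq := [(0, 1), (1, 0)]
    rng := [(0, 1), (0, 6), (1, 0), (1, 2), (2, 1), (2, 3), (3, 2), (3, 8), (4, 7), (4, 9), (5, 6), (5,
      7), (6, 0), (6, 5), (7, 4), (7, 5), (8, 3), (8, 9), (9, 4), (9, 8)]
    lev := [] }
  links := [[1, 2, 6, 7], [2, 0, 7, 8, 9], [6, 0, 1, 9, 4, 10, 3, 11, 12], [11, 2, 10, 13], [10, 2, 9,
    14, 5], [10, 4, 14, 15]]
  P := {
    a := 6
    N := 16
    nb := [198, 901, 7771, 11268, 17956, 50192, 4229, 323, 642, 16662, 41020, 12300, 2116, 3080,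
      33328, 17440]
    tri := [(0, 1, 2), (0, 1, 7), (0, 2, 6), (0, 6, 7), (1, 2, 9), (1, 7, 8), (1, 8, 9), (2, 3, 10),
      (2, 3, 11), (2, 4, 9), (2, 4, 10), (2, 6, 12), (2, 11, 12), (3, 10, 13), (3, 11, 13), (4, 5,
      10), (4, 5, 14), (4, 9, 14), (5, 10, 15), (5, 14, 15)]
    fin := [0, 0, 0, 0, 0, 0, 0, 7, 8, 0, 0, 11, 12, 13, 14, 15]
    chd := [(0, 11)]
    steps := [(0, 1), (0, 2), (0, 3), (0, 4), (0, 5), (0, 6), (0, 9), (0, 10)] }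
  rep := [0, 11, 7, 14, 8, 12, 13, 15]

noncomputable def v1035 : Cov.CovD where
  P := 3
  N := 5
  pl := [1, 2, 6, 7, 8, 9]
  lev := [⟨[], [], [], [2], [(0, 0, [1])]⟩,
    ⟨[], [(0, 0)], [], [2, 4], [(3, 0, [1])]⟩,
    ⟨[(0, 1)], [(0, 0), (0, 1), (1, 0), (1, 1)], [(0, 0), (0, 1)], [5], [(0, 0, [1]), (3,
      0, [1]), (4, 0, [1]), (5, 1, [0])]⟩,
    ⟨[(0, 2), (1, 2)], [(2, 0), (2, 1)], [(0, 1)], [6], [(4, 0, [1]), (5, 1, [0])]⟩,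
    ⟨[(0, 2), (1, 2), (2, 3)], [(1, 0), (2, 0), (2, 1), (3, 0)], [(0, 0)], [3], [(3, 0,
      [1]), (4, 0, [1])]⟩,
    ⟨[(2, 4)], [(2, 0), (3, 0), (4, 0)], [], [3, 7], [(4, 0, [1])]⟩]
  Ta := [((0, 1), 0, 2), ((0, 6), 0, 5), ((3, 2), 0, 4), ((3, 8), 0, 3), ((4, 7), 0, 6), ((4, 9),
    0, 7)]
  Tb := [((0, 1, 6), 0, 2, 5), ((1, 0, 2), 2, 0, 4), ((2, 1, 3), 4, 2, 0), ((3, 2, 8), 0, 4, 3),
    ((4, 7, 9), 0, 6, 7), ((5, 6, 7), 1, 5, 6), ((6, 0, 5), 5, 0, 1), ((7, 4, 5), 6, 0, 1),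
    ((8, 3, 9), 3, 0, 7), ((9, 4, 8), 7, 0, 3)]
  Tc := []
  Td := [((0, 1), (0, 1), 2), ((0, 1), (0, 6), 5), ((0, 1), (3, 2), 4), ((0, 1), (3, 8), 3), ((0,
    1), (4, 7), 6), ((0, 1), (4, 9), 7), ((1, 0), (5, 6), 5), ((1, 0), (5, 7), 6)]
  G := [[0, 0x11a411a21168e14, 0xca61c6a1cca6111611acc68, 0xca61c6a1c18, 0xca61c6a1c12], [0,
    0x116411621168e18, 0, 0xca61c6a1cca61c6a1cc1, 0xca61c6a1cca61c6a1ca1], [0,
    0x116211c811c4e18, 0, 0xc6a441ca6ca6cc6a8c1c, 0xca6ca6cc6ac6acc12]]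

noncomputable def n1035 : Ent := ⟨e1035, noF, [], [], [(8, 14, [385746751338780685620664494392815470296102193487288376376725505, 0]), (15, 13, [360048296834107614573520772494203283988579150297652619080933377, 0])]⟩

def c1035 : PLift (Cov.check n1035.C.D v1035 = true) := ⟨by decide +kernel⟩

def b1035 : PLift (entF (fidx ts) 400 1035 n1035 = true) := ⟨by decide +kernel⟩

theorem g1035 : GoodF (fidx ts) 400 1035 := GoodF.ofV v1035 n1035 c1035.down b1035.down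

/-- 464686:865 -/
noncomputable def e1036 : SCfg where
  D := {
    a := 6
    L := 10
    kp := 8
    inn := [(0, 1), (0, 3), (0, 4), (1, 0), (1, 2), (1, 4), (2, 1), (2, 4), (3, 0), (3, 4), (3, 5), (4,
      0), (4, 1), (4, 2), (4, 3), (4, 5), (5, 3), (5, 4)]
    mix := [(0, 0), (1, 0), (1, 1), (1, 2), (2, 1), (2, 3), (3, 0), (3, 4), (3, 5), (4, 3), (4, 6), (4,
      7), (5, 5), (5, 6), (5, 8), (5, 9)]
    cl := [0, 1, 5, 2, 6, 3, 3, 4, 7, 8]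
    chq := [(0, 1), (0, 2), (0, 3), (0, 4), (1, 0), (2, 0), (3, 0), (4, 0)]
    rng := [(0, 2), (0, 4), (1, 2), (1, 3), (2, 0), (2, 1), (3, 1), (3, 7), (4, 0), (4, 5), (5, 4), (5,
      8), (6, 7), (6, 9), (7, 3), (7, 6), (8, 5), (8, 9), (9, 6), (9, 8)]
    lev := [] }
  links := [[1, 6, 3, 4], [6, 0, 4, 2, 7, 8], [7, 1, 4, 9], [4, 0, 6, 10, 11, 5], [9, 2, 1, 0, 3, 5, 12,
    13], [12, 4, 3, 11, 14, 15]]
  P := {
    a := 6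
    N := 16
    nb := [90, 469, 658, 3185, 12847, 55320, 1291, 774, 194, 8340, 2120, 17448, 41008, 4624, 34848,
      20512]
    tri := [(0, 1, 4), (0, 1, 6), (0, 3, 4), (0, 3, 6), (1, 2, 4), (1, 2, 7), (1, 6, 8), (1, 7, 8), (2,
      4, 9), (2, 7, 9), (3, 4, 5), (3, 5, 11), (3, 6, 10), (3, 10, 11), (4, 5, 12), (4, 9, 13),
      (4, 12, 13), (5, 11, 14), (5, 12, 15), (5, 14, 15)]
    fin := [0, 0, 0, 0, 0, 5, 0, 7, 8, 9, 10, 5, 5, 13, 14, 15]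
    chd := [(0, 5), (0, 7), (0, 9), (0, 13)]
    steps := [(0, 1), (0, 2), (0, 3), (0, 4), (0, 6), (5, 11), (5, 12)] }
  rep := [0, 7, 9, 5, 13, 8, 10, 14, 15]

noncomputable def v1036 : Cov.CovD where
  P := 3
  N := 6
  pl := [2, 4, 8, 9]
  lev := [⟨[], [], [], [], [(0, 0, [1, 2, 3, 4])]⟩,
    ⟨[], [(0, 0), (0, 1)], [(0, 1)], [5], [(0, 0, [1, 2, 3, 4]), (1, 1, [0])]⟩,
    ⟨[(0, 1)], [(1, 0), (1, 1), (1, 2)], [(1, 2)], [], [(1, 1, [0]), (3, 2, [0])]⟩,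
    ⟨[(0, 1)], [(0, 0), (0, 3), (1, 0)], [(0, 3)], [6], [(0, 0, [1, 2, 3, 4]), (5, 3,
      [0])]⟩,
    ⟨[(0, 1), (0, 2), (0, 3), (1, 2), (1, 3), (2, 3)], [(0, 0), (0, 2), (0, 3), (0, 4), (1,
      0), (1, 1), (1, 2), (1, 3), (1, 4), (2, 1), (2, 2), (2, 3), (2, 4), (3, 0), (3, 2), (3,
      3), (3, 4)], [(2, 3), (2, 4), (3, 4)], [], [(3, 2, [0]), (6, 3, [0]), (7, 4, [0])]⟩,
    ⟨[(0, 3), (0, 4), (1, 4), (2, 4), (3, 4)], [(3, 0), (3, 3), (4, 2), (4, 3), (4, 4)],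
      [(3, 3)], [7, 8], [(5, 3, [0]), (6, 3, [0])]⟩]
  Ta := [((5, 4), 3, 6), ((5, 8), 3, 7), ((6, 7), 3, 4), ((6, 9), 3, 8)]
  Tb := [((0, 2, 4), 0, 5, 6), ((1, 2, 3), 1, 5, 2), ((2, 0, 1), 5, 0, 1), ((3, 1, 7), 2, 1, 4),
    ((4, 0, 5), 6, 0, 3), ((5, 4, 8), 3, 6, 7), ((6, 7, 9), 3, 4, 8), ((7, 3, 6), 4, 2, 3),
    ((8, 5, 9), 7, 3, 8), ((9, 6, 8), 8, 3, 7)]
  Tc := [(0, 1, 2), (0, 1, 3), (0, 1, 4), (0, 2, 3), (0, 2, 4), (0, 3, 4)]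
  Td := [((0, 1), (0, 2), 5), ((0, 1), (0, 4), 6), ((0, 2), (0, 2), 5), ((0, 2), (0, 4), 6), ((0,
    3), (0, 2), 5), ((0, 3), (0, 4), 6), ((0, 4), (0, 2), 5), ((0, 4), (0, 4), 6), ((1, 0),
    (1, 2), 5), ((1, 0), (1, 3), 2), ((2, 0), (3, 1), 1), ((2, 0), (3, 7), 4), ((3, 0), (5,
    4), 6), ((3, 0), (5, 8), 7), ((3, 0), (6, 7), 4), ((3, 0), (6, 9), 8), ((4, 0), (7, 3),
    2), ((4, 0), (7, 6), 3)]
  G := [[0, 0xb124113111e4f8af1d168d4c8146a, 0xee611e211116116116e8de8114a,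
    0x71286128cf1f184e8f1f191e8141414e8d6, 0x1f34841f3921f3e81f31f3a8c71488e], [0,
    0xf1f1a4f1f1a4a4, 0x1a9e1644e11e9c4556116c188c9a, 0xf1f1a8f1f1a81488d184416,
    0x1f3f1a81f3f1a81828d4]]

noncomputable def n1036 : Ent := ⟨e1036, noF, [], [], []⟩

def c1036 : PLift (Cov.check n1036.C.D v1036 = true) := ⟨by decide +kernel⟩

def b1036 : PLift (entF (fidx ts) 400 1036 n1036 = true) := ⟨by decide +kernel⟩

theorem g1036 : GoodF (fidx ts) 400 1036 := GoodF.ofV v1036 n1036 c1036.down b1036.down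

/-- 464685:866 -/
noncomputable def e1037 : SCfg where
  D := {
    a := 6
    L := 10
    kp := 7
    inn := [(0, 1), (0, 3), (0, 4), (1, 0), (1, 2), (1, 4), (2, 1), (2, 4), (3, 0), (3, 4), (4, 0), (4,
      1), (4, 2), (4, 3), (4, 5), (5, 4)]
    mix := [(0, 0), (1, 0), (1, 1), (1, 2), (2, 1), (2, 3), (3, 0), (3, 4), (3, 5), (3, 6), (4, 3), (4,
      6), (4, 7), (5, 3), (5, 7), (5, 8), (5, 9)]
    cl := [0, 2, 3, 1, 4, 5, 0, 1, 6, 7]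
    chq := [(0, 2), (2, 0)]
    rng := [(0, 2), (0, 4), (1, 2), (1, 3), (2, 0), (2, 1), (3, 1), (3, 9), (4, 0), (4, 5), (5, 4), (5,
      6), (6, 5), (6, 7), (7, 6), (7, 8), (8, 7), (8, 9), (9, 3), (9, 8)]
    lev := [] }
  links := [[1, 6, 3, 4], [6, 0, 4, 2, 7, 8], [7, 1, 4, 9], [4, 0, 6, 10, 11, 12], [9, 2, 1, 0, 3, 12,
    13, 5], [9, 4, 13, 14, 15]]
  P := {
    a := 6
    N := 16
    nb := [90, 469, 658, 7249, 12847, 57872, 1291, 774, 194, 32948, 2120, 5128, 10264, 20528, 40992,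
      16928]
    tri := [(0, 1, 4), (0, 1, 6), (0, 3, 4), (0, 3, 6), (1, 2, 4), (1, 2, 7), (1, 6, 8), (1, 7, 8), (2,
      4, 9), (2, 7, 9), (3, 4, 12), (3, 6, 10), (3, 10, 11), (3, 11, 12), (4, 5, 9), (4, 5, 13),
      (4, 12, 13), (5, 9, 15), (5, 13, 14), (5, 14, 15)]
    fin := [0, 0, 0, 0, 0, 5, 0, 7, 8, 5, 10, 11, 0, 5, 14, 15]
    chd := [(0, 7)]
    steps := [(0, 1), (0, 2), (0, 3), (0, 4), (0, 6), (0, 12), (5, 13), (5, 9)] }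
  rep := [0, 5, 7, 8, 10, 11, 14, 15]

noncomputable def v1037 : Cov.CovD where
  P := 3
  N := 5
  pl := [2, 4, 5, 8, 9]
  lev := [⟨[], [], [], [], [(0, 0, [2])]⟩,
    ⟨[], [(0, 0), (0, 2)], [(0, 2)], [3], [(0, 0, [2]), (1, 2, [0])]⟩,
    ⟨[(0, 1)], [(1, 0), (1, 1), (1, 2)], [(1, 2)], [], [(1, 2, [0]), (3, 1, [])]⟩,
    ⟨[(0, 1)], [(0, 0), (1, 0)], [(0, 0)], [4, 5], [(0, 0, [2]), (6, 0, [2])]⟩,
    ⟨[(0, 1), (0, 2), (0, 3), (1, 2), (1, 3), (2, 3)], [(0, 0), (0, 1), (1, 0), (1, 1), (1,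
      2), (2, 0), (2, 1), (2, 2), (3, 0), (3, 1)], [(0, 1), (1, 1)], [], [(3, 1, []), (6, 0,
      [2]), (7, 1, [])]⟩,
    ⟨[(0, 4), (1, 4), (2, 4), (3, 4)], [(2, 1), (4, 0), (4, 1)], [(1, 1)], [6, 7], [(3, 1,
      []), (7, 1, [])]⟩]
  Ta := [((0, 2), 0, 3), ((0, 4), 0, 4), ((3, 1), 1, 2), ((3, 9), 1, 7), ((6, 5), 0, 5), ((6, 7),
    0, 1), ((7, 6), 1, 0), ((7, 8), 1, 6)]
  Tb := [((0, 2, 4), 0, 3, 4), ((1, 2, 3), 2, 3, 1), ((2, 0, 1), 3, 0, 2), ((3, 1, 9), 1, 2, 7),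
    ((4, 0, 5), 4, 0, 5), ((5, 4, 6), 5, 4, 0), ((6, 5, 7), 0, 5, 1), ((7, 6, 8), 1, 0, 6),
    ((8, 7, 9), 6, 1, 7), ((9, 3, 8), 7, 1, 6)]
  Tc := []
  Td := [((0, 2), (0, 2), 3), ((0, 2), (0, 4), 4), ((0, 2), (6, 5), 5), ((0, 2), (6, 7), 1), ((2,
    0), (1, 2), 3), ((2, 0), (1, 3), 1)]
  G := [[0, 0, 0xd458c58ce1d8d861d481e2, 0x1c51c5945e8589d8d8e4c2, 0x9455891c9e82d4945d4e886],
    [0, 0, 0x1c558958ce4589d81c9e4c2, 0, 0x1c5d4682d449cd4e2d481aa], [0, 0,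
    0x49cd849ce1d458cd4e861, 0x58cd8d8e412, 0xd449cd4e812], [0, 0xe2e2e8e414,
    0x5891c962589d8a21c9d8c4e4, 0, 0x49cd8d8e214]]

noncomputable def n1037 : Ent := ⟨e1037, noF, [], [], []⟩

def c1037 : PLift (Cov.check n1037.C.D v1037 = true) := ⟨by decide +kernel⟩

def b1037 : PLift (entF (fidx ts) 400 1037 n1037 = true) := ⟨by decide +kernel⟩

theorem g1037 : GoodF (fidx ts) 400 1037 := GoodF.ofV v1037 n1037 c1037.down b1037.down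

/-- 486646:867 -/
noncomputable def e1038 : SCfg where
  D := {
    a := 6
    L := 11
    kp := 8
    inn := [(0, 1), (0, 3), (1, 0), (1, 2), (1, 3), (1, 4), (1, 5), (2, 1), (2, 5), (3, 0), (3, 1), (3,
      4), (4, 1), (4, 3), (5, 1), (5, 2)]
    mix := [(0, 0), (0, 1), (1, 1), (1, 2), (1, 3), (2, 2), (2, 4), (2, 5), (2, 6), (3, 0), (3, 7), (3,
      8), (4, 3), (4, 7), (5, 1), (5, 4), (5, 9), (5, 10)]
    cl := [1, 0, 0, 2, 0, 4, 5, 3, 6, 7, 8]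
    chq := [(1, 2), (1, 3), (2, 1), (3, 1)]
    rng := [(0, 1), (0, 8), (1, 0), (1, 9), (2, 3), (2, 6), (3, 2), (3, 7), (4, 5), (4, 10), (5, 4),
      (5, 6), (6, 2), (6, 5), (7, 3), (7, 8), (8, 0), (8, 7), (9, 1), (9, 10), (10, 4), (10, 9)]
    lev := [] }
  links := [[1, 3, 6, 7], [3, 0, 7, 5, 2, 8, 9, 4], [8, 1, 5, 10, 11, 12], [6, 0, 1, 4, 13, 14], [13, 3,
    1, 9], [10, 2, 1, 7, 15, 16]]
  P := {
    a := 6
    N := 17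
    nb := [202, 957, 7458, 24659, 8714, 99462, 16521, 32867, 4614, 8466, 67620, 5124, 2308, 16920,
      8264, 65696, 33824]
    tri := [(0, 1, 3), (0, 1, 7), (0, 3, 6), (0, 6, 7), (1, 2, 5), (1, 2, 8), (1, 3, 4), (1, 4, 9), (1,
      5, 7), (1, 8, 9), (2, 5, 10), (2, 8, 12), (2, 10, 11), (2, 11, 12), (3, 4, 13), (3, 6, 14),
      (3, 13, 14), (4, 9, 13), (5, 7, 15), (5, 10, 16), (5, 15, 16)]
    fin := [0, 0, 2, 0, 0, 2, 0, 2, 2, 9, 2, 11, 12, 13, 14, 15, 16]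
    chd := [(0, 9), (0, 13)]
    steps := [(0, 1), (0, 3), (0, 4), (0, 6), (2, 5), (2, 7), (2, 10), (2, 8)] }
  rep := [2, 0, 9, 13, 11, 12, 14, 15, 16]

noncomputable def v1038 : Cov.CovD where
  P := 3
  N := 6
  pl := [5, 6, 8, 9, 10]
  lev := [⟨[], [], [(0, 1)], [], [(0, 1, [2, 3]), (1, 0, [])]⟩,
    ⟨[], [(0, 0), (0, 1), (0, 2)], [(0, 0), (0, 2)], [], [(1, 0, []), (2, 0, []), (3, 2,
      [1])]⟩,
    ⟨[(0, 1)], [(1, 0), (1, 2)], [(0, 0)], [4, 5], [(2, 0, []), (4, 0, [])]⟩,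
    ⟨[(0, 1), (1, 2)], [(0, 0), (0, 1), (0, 3), (1, 0), (1, 1), (1, 2), (1, 3)], [(1, 3)],
      [6], [(0, 1, [2, 3]), (7, 3, [1])]⟩,
    ⟨[(0, 1), (0, 3), (1, 2), (1, 3)], [(1, 0), (1, 2), (1, 3), (3, 1), (3, 2), (3, 3)],
      [(2, 3)], [], [(3, 2, [1]), (7, 3, [1])]⟩,
    ⟨[(0, 1), (1, 2), (1, 3), (1, 4)], [(0, 0), (1, 0), (1, 2), (2, 0)], [(0, 0)], [7, 8],
      [(1, 0, []), (4, 0, [])]⟩]
  Ta := [((1, 0), 0, 1), ((1, 9), 0, 7), ((2, 3), 0, 2), ((2, 6), 0, 5), ((4, 5), 0, 4), ((4,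
    10), 0, 8)]
  Tb := [((0, 1, 8), 1, 0, 6), ((1, 0, 9), 0, 1, 7), ((2, 3, 6), 0, 2, 5), ((3, 2, 7), 2, 0, 3),
    ((4, 5, 10), 0, 4, 8), ((5, 4, 6), 4, 0, 5), ((6, 2, 5), 5, 0, 4), ((7, 3, 8), 3, 2, 6),
    ((8, 0, 7), 6, 1, 3), ((9, 1, 10), 7, 0, 8), ((10, 4, 9), 8, 0, 7)]
  Tc := [(1, 2, 3)]
  Td := [((1, 2), (0, 1), 0), ((1, 2), (0, 8), 6), ((1, 3), (0, 1), 0), ((1, 3), (0, 8), 6), ((2,
    1), (3, 2), 0), ((2, 1), (3, 7), 3), ((3, 1), (7, 3), 2), ((3, 1), (7, 8), 6)]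
  G := [[0, 0xe1a1e1e818e1a1e1ee441461e4e1e414e8a, 0, 0x4652468ed2a892ee92ec8,
    0x22462e2e2d22e2e1dee8c2e1d828c88ea4], [0, 0, 0x6262542e2e2d62e2e2dee882886da88888ea4,
    0xee5268ed268ca6d2845, 0x62462e2e1dae882e1de82c2be1d888ea4], [0, 0, 0,
    0x4652ee52ee52ea8928c4, 0x62e2e1d22e2e2d6e82c2be1d828c88ea4]]

noncomputable def n1038 : Ent := ⟨e1038, noF, [], [], []⟩

def c1038 : PLift (Cov.check n1038.C.D v1038 = true) := ⟨by decide +kernel⟩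

def b1038 : PLift (entF (fidx ts) 400 1038 n1038 = true) := ⟨by decide +kernel⟩

theorem g1038 : GoodF (fidx ts) 400 1038 := GoodF.ofV v1038 n1038 c1038.down b1038.down

/-- 486546:869/1 -/
noncomputable def e1039 : SCfg where
  D := {
    a := 6
    L := 10
    kp := 7
    inn := [(0, 1), (0, 3), (1, 0), (1, 2), (1, 5), (2, 1), (2, 4), (2, 5), (3, 0), (4, 2), (4, 5), (5,
      1), (5, 2), (5, 4)]
    mix := [(0, 0), (0, 1), (1, 0), (1, 1), (1, 2), (1, 3), (1, 4), (2, 2), (2, 5), (2, 6), (3, 0), (3,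
      1), (3, 5), (3, 7), (4, 6), (4, 8), (5, 3), (5, 8), (5, 9)]
    cl := [0, 0, 1, 1, 6, 2, 4, 7, 3, 5]
    chq := [(2, 3), (2, 5), (3, 2), (5, 2)]
    rng := [(0, 4), (0, 7), (1, 2), (1, 5), (2, 1), (2, 5), (3, 4), (3, 9), (4, 0), (4, 3), (5, 1), (5,
      2), (5, 6), (5, 7), (6, 5), (6, 8), (7, 0), (7, 5), (8, 6), (8, 9), (9, 3), (9, 8)]
    lev := [] }
  links := [[1, 6, 3, 7], [6, 0, 7, 8, 2, 5, 9, 10], [5, 1, 8, 11, 12, 4], [7, 0, 6, 13, 11], [5, 2, 12,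
    14], [9, 1, 2, 4, 14, 15]]
  P := {
    a := 6
    N := 16
    nb := [202, 2021, 6450, 10433, 20516, 49686, 9227, 2315, 2182, 33826, 578, 12684, 18452, 2120,
      36912, 16928]
    tri := [(0, 1, 6), (0, 1, 7), (0, 3, 6), (0, 3, 7), (1, 2, 5), (1, 2, 8), (1, 5, 9), (1, 6, 10),
      (1, 7, 8), (1, 9, 10), (2, 4, 5), (2, 4, 12), (2, 8, 11), (2, 11, 12), (3, 6, 13), (3, 7,
      11), (3, 11, 13), (4, 5, 14), (4, 12, 14), (5, 9, 15), (5, 14, 15)]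
    fin := [0, 1, 2, 0, 2, 2, 0, 0, 1, 1, 10, 2, 12, 13, 14, 15]
    chd := [(2, 14), (2, 15)]
    steps := [(0, 3), (0, 6), (0, 7), (1, 8), (1, 9), (2, 4), (2, 5), (2, 11)] }
  rep := [0, 1, 2, 14, 12, 15, 10, 13]

noncomputable def v1039 : Cov.CovD where
  P := 3
  N := 5
  pl := [4, 6, 7]
  lev := [⟨[], [], [(0, 0)], [], [(0, 0, []), (1, 0, [])]⟩,
    ⟨[], [(0, 0), (0, 1)], [(0, 0), (0, 1), (1, 1)], [6], [(0, 0, []), (1, 0, []), (2, 1,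
      []), (3, 1, [])]⟩,
    ⟨[(0, 1)], [(1, 0), (1, 1), (1, 2)], [(1, 2)], [4], [(2, 1, []), (5, 2, [3, 5])]⟩,
    ⟨[(0, 1)], [(0, 0), (0, 2), (1, 0), (2, 2)], [(0, 0), (0, 2)], [7], [(0, 0, []), (1, 0,
      []), (5, 2, [3, 5])]⟩,
    ⟨[(1, 2)], [(2, 1), (2, 2), (2, 3)], [], [4], [(8, 3, [2])]⟩,
    ⟨[(0, 1), (1, 2), (1, 4), (2, 4)], [(1, 0), (1, 1), (1, 3), (1, 5), (2, 1), (2, 2), (2,
      3), (2, 5), (4, 1), (4, 3), (4, 5)], [(1, 3), (1, 5), (3, 5)], [], [(3, 1, []), (8, 3,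
      [2]), (9, 5, [2])]⟩]
  Ta := [((0, 4), 0, 6), ((0, 7), 0, 7), ((1, 2), 0, 1), ((1, 5), 0, 2), ((2, 1), 1, 0), ((2, 5),
    1, 2), ((3, 4), 1, 6), ((3, 9), 1, 5)]
  Tb := [((0, 4, 7), 0, 6, 7), ((1, 2, 5), 0, 1, 2), ((2, 1, 5), 1, 0, 2), ((3, 4, 9), 1, 6, 5),
    ((4, 0, 3), 6, 0, 1), ((5, 1, 2), 2, 0, 1), ((5, 1, 6), 2, 0, 4), ((5, 1, 7), 2, 0, 7),
    ((5, 2, 6), 2, 1, 4), ((5, 2, 7), 2, 1, 7), ((5, 6, 7), 2, 4, 7), ((6, 5, 8), 4, 2, 3),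
    ((7, 0, 5), 7, 0, 2), ((8, 6, 9), 3, 4, 5), ((9, 3, 8), 5, 1, 3)]
  Tc := [(2, 3, 5)]
  Td := [((2, 3), (5, 1), 0), ((2, 3), (5, 2), 1), ((2, 3), (5, 6), 4), ((2, 3), (5, 7), 7), ((2,
    5), (5, 1), 0), ((2, 5), (5, 2), 1), ((2, 5), (5, 6), 4), ((2, 5), (5, 7), 7), ((3, 2),
    (8, 6), 4), ((3, 2), (8, 9), 5), ((5, 2), (9, 3), 1), ((5, 2), (9, 8), 3)]
  G := [[0, 0, 0, 0x296296cd2229c5d222cc225225c9c2, 0x74546a443245a944aa444aeb4b4a9c2], [0, 0,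
    0, 0, 0x4284845cad4c45ab494e485ea1c479447a9c2], [0, 0x62372c216225cc22988252b4d2d2cce4,
    0x1111a11116c111161111ccc2, 0xd222ccd2229c522c22cc225c23c9c2,
    0x74546a443245a9843c43caa452c5a946], [0, 0, 0x112118114e118114112ec2, 0,
    0x546546ac45444ba99465daa4c4b148447e9c2]]

noncomputable def n1039 : Ent := ⟨e1039, noF, [], [], []⟩

def c1039 : PLift (Cov.check n1039.C.D v1039 = true) := ⟨by decide +kernel⟩

def b1039 : PLift (entF (fidx ts) 400 1039 n1039 = true) := ⟨by decide +kernel⟩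

theorem g1039 : GoodF (fidx ts) 400 1039 := GoodF.ofV v1039 n1039 c1039.down b1039.down

/-- 486546:869 -/
noncomputable def e1040 : SCfg where
  D := {
    a := 6
    L := 11
    kp := 8
    inn := [(0, 1), (0, 3), (1, 0), (1, 2), (1, 5), (2, 1), (2, 4), (2, 5), (3, 0), (4, 2), (4, 5), (5,
      1), (5, 2), (5, 4)]
    mix := [(0, 0), (0, 1), (1, 0), (1, 1), (1, 2), (1, 3), (1, 4), (2, 2), (2, 5), (2, 6), (3, 0), (3,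
      1), (3, 7), (3, 8), (4, 6), (4, 9), (5, 3), (5, 9), (5, 10)]
    cl := [1, 1, 0, 0, 5, 6, 2, 7, 8, 3, 4]
    chq := [(0, 2), (2, 0), (2, 4), (4, 2)]
    rng := [(0, 4), (0, 7), (1, 2), (1, 8), (2, 1), (2, 5), (3, 4), (3, 10), (4, 0), (4, 3), (5, 2),
      (5, 6), (6, 5), (6, 9), (7, 0), (7, 8), (8, 1), (8, 7), (9, 6), (9, 10), (10, 3), (10, 9)]
    lev := [] }
  links := [[1, 6, 3, 7], [6, 0, 7, 8, 2, 5, 9, 10], [5, 1, 8, 11, 12, 4], [7, 0, 6, 13, 14], [5, 2, 12,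
    15], [9, 1, 2, 4, 15, 16]]
  P := {
    a := 6
    N := 17
    nb := [202, 2021, 6450, 24769, 36900, 98838, 9227, 16651, 2182, 66594, 578, 4356, 34836, 16456,
      8328, 69680, 33312]
    tri := [(0, 1, 6), (0, 1, 7), (0, 3, 6), (0, 3, 7), (1, 2, 5), (1, 2, 8), (1, 5, 9), (1, 6, 10),
      (1, 7, 8), (1, 9, 10), (2, 4, 5), (2, 4, 12), (2, 8, 11), (2, 11, 12), (3, 6, 13), (3, 7,
      14), (3, 13, 14), (4, 5, 15), (4, 12, 15), (5, 9, 16), (5, 15, 16)]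
    fin := [0, 1, 1, 0, 4, 4, 0, 0, 1, 1, 10, 11, 4, 13, 14, 15, 16]
    chd := [(1, 4), (4, 16)]
    steps := [(0, 3), (0, 6), (0, 7), (1, 2), (1, 8), (1, 9), (4, 5), (4, 12)] }
  rep := [1, 0, 4, 15, 16, 10, 11, 13, 14]

noncomputable def v1040 : Cov.CovD where
  P := 3
  N := 6
  pl := [4, 5, 7, 8, 9]
  lev := [⟨[], [], [(1, 1)], [], [(0, 1, []), (1, 1, [])]⟩,
    ⟨[], [(0, 0), (0, 1)], [(0, 0), (0, 1), (1, 1)], [5], [(0, 1, []), (1, 1, []), (2, 0,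
      [2]), (3, 0, [2])]⟩,
    ⟨[(0, 1)], [(1, 0), (1, 1), (1, 2)], [(0, 2)], [6], [(2, 0, [2]), (6, 2, [0, 4])]⟩,
    ⟨[(0, 1)], [(0, 1), (1, 1)], [(1, 1)], [7, 8], [(0, 1, []), (1, 1, [])]⟩,
    ⟨[(1, 2)], [(2, 0), (2, 2)], [], [3], [(6, 2, [0, 4])]⟩,
    ⟨[(0, 1), (1, 2), (1, 4), (2, 4)], [(1, 0), (1, 1), (1, 4), (2, 0), (2, 2), (2, 4), (4,
      0), (4, 2), (4, 4)], [(0, 4)], [3], [(3, 0, [2]), (10, 4, [2])]⟩]
  Ta := [((0, 4), 1, 5), ((0, 7), 1, 7), ((1, 2), 1, 0), ((1, 8), 1, 8), ((2, 1), 0, 1), ((2, 5),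
    0, 6), ((3, 4), 0, 5), ((3, 10), 0, 4)]
  Tb := [((0, 4, 7), 1, 5, 7), ((1, 2, 8), 1, 0, 8), ((2, 1, 5), 0, 1, 6), ((3, 4, 10), 0, 5, 4),
    ((4, 0, 3), 5, 1, 0), ((5, 2, 6), 6, 0, 2), ((6, 5, 9), 2, 6, 3), ((7, 0, 8), 7, 1, 8),
    ((8, 1, 7), 8, 1, 7), ((9, 6, 10), 3, 2, 4), ((10, 3, 9), 4, 0, 3)]
  Tc := [(2, 0, 4)]
  Td := [((0, 2), (2, 1), 1), ((0, 2), (2, 5), 6), ((0, 2), (3, 4), 5), ((0, 2), (3, 10), 4),
    ((2, 0), (6, 5), 6), ((2, 0), (6, 9), 3), ((2, 4), (6, 5), 6), ((2, 4), (6, 9), 3), ((4,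
    2), (10, 3), 0), ((4, 2), (10, 9), 3)]
  G := [[0, 0, 0x11a11a11ad11c11611ad64116116116d11611c11cdc8c,
    0x325325325d21c12c12cdc32521c12cd329329329dcc1,
    0x543543543d14a41a543da16a16a71ad1da59a39adac1], [0,
    0x325325325e12c21c21cec21c329329e329329329ecc2,
    0x141291811a14d1211c18de181418d121812d141214dec1,
    0x325325325d12c12c12cdc21c12c21cd329329329dcc1,
    0x543543543d54941a14ada16a16a53adc1ac1ac1adac1], [0, 0,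
    0x121214d141812d181418de11a11c116d11611c11cdac1, 0x62c1182ec2ec84d1e2ce2c6acd1c9,
    0xc4ac6ac6ad144ea6ca4ead12281cc], [0, 0,
    0x141214d181418d121812de121491811a18d1411c12dec1, 0x6ac2ec2ecd1e2ce2ce2cd1c1,
    0x4ea4ea4ead1c6ac6ac6ad1c1]]

noncomputable def n1040 : Ent := ⟨e1040, noF, [], [], [(14, 11, [1685382413448254890285566577566560913002569154707632164201562173441, 0])]⟩

def c1040 : PLift (Cov.check n1040.C.D v1040 = true) := ⟨by decide +kernel⟩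

def b1040 : PLift (entF (fidx ts) 400 1040 n1040 = true) := ⟨by decide +kernel⟩

theorem g1040 : GoodF (fidx ts) 400 1040 := GoodF.ofV v1040 n1040 c1040.down b1040.down

/-- 459456:871 -/
noncomputable def e1041 : SCfg where
  D := {
    a := 6
    L := 10
    kp := 8
    inn := [(0, 1), (0, 2), (1, 0), (1, 2), (2, 0), (2, 1), (2, 3), (2, 4), (2, 5), (3, 2), (3, 4), (4,
      2), (4, 3), (4, 5), (5, 2), (5, 4)]
    mix := [(0, 0), (0, 1), (1, 1), (1, 2), (1, 3), (2, 0), (2, 3), (2, 4), (2, 5), (3, 5), (3, 6), (4,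
      6), (4, 7), (5, 0), (5, 7), (5, 8), (5, 9)]
    cl := [0, 1, 8, 0, 5, 4, 2, 3, 6, 7]
    chq := [(3, 4), (3, 5), (4, 3), (5, 3), (5, 6), (5, 7), (6, 5), (7, 5)]
    rng := [(0, 1), (0, 9), (1, 0), (1, 2), (2, 1), (2, 3), (3, 2), (3, 4), (4, 3), (4, 5), (5, 4), (5,
      6), (6, 5), (6, 7), (7, 6), (7, 8), (8, 7), (8, 9), (9, 0), (9, 8)]
    lev := [] }
  links := [[1, 2, 6, 7], [2, 0, 7, 8, 9], [6, 0, 1, 9, 10, 11, 3, 4, 5], [4, 2, 11, 12], [5, 2, 3, 12,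
    13], [6, 2, 4, 13, 14, 15]]
  P := {
    a := 6
    N := 16
    nb := [198, 901, 3707, 6164, 12332, 57428, 32933, 323, 642, 1286, 2564, 5132, 10264, 20528, 40992,
      16480]
    tri := [(0, 1, 2), (0, 1, 7), (0, 2, 6), (0, 6, 7), (1, 2, 9), (1, 7, 8), (1, 8, 9), (2, 3, 4), (2,
      3, 11), (2, 4, 5), (2, 5, 6), (2, 9, 10), (2, 10, 11), (3, 4, 12), (3, 11, 12), (4, 5, 13),
      (4, 12, 13), (5, 6, 15), (5, 13, 14), (5, 14, 15)]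
    fin := [0, 0, 2, 3, 3, 2, 0, 7, 8, 0, 2, 3, 12, 13, 14, 15]
    chd := [(2, 13), (2, 14), (2, 15), (3, 13)]
    steps := [(0, 1), (0, 6), (0, 9), (2, 5), (2, 10), (3, 4), (3, 11)] }
  rep := [0, 7, 12, 13, 3, 2, 14, 15, 8]

noncomputable def v1041 : Cov.CovD where
  P := 3
  N := 6
  pl := [1, 2, 6]
  lev := [⟨[], [], [], [1], [(0, 0, [])]⟩,
    ⟨[], [(0, 0)], [], [1, 8], [(3, 0, [])]⟩,
    ⟨[(0, 1)], [(0, 0), (0, 4), (0, 5), (1, 0), (1, 4), (1, 5)], [(0, 0), (0, 4), (0, 5),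
      (4, 5)], [], [(0, 0, []), (3, 0, []), (4, 5, [3, 6, 7]), (5, 4, [3])]⟩,
    ⟨[(0, 2), (1, 2)], [(2, 0), (2, 4), (2, 5)], [], [2], [(5, 4, [3])]⟩,
    ⟨[(0, 2), (1, 2), (2, 3)], [(2, 0), (2, 3), (2, 4), (2, 5), (3, 3), (3, 4)], [], [2],
      [(7, 3, [4, 5])]⟩,
    ⟨[(0, 2), (1, 2), (2, 3), (2, 4), (3, 4)], [(0, 0), (2, 0), (2, 3), (2, 4), (2, 5), (2,
      6), (2, 7), (4, 0), (4, 3), (4, 6), (4, 7)], [(0, 3), (0, 6), (0, 7), (3, 6), (3, 7),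
      (6, 7)], [], [(0, 0, []), (7, 3, [4, 5]), (8, 6, [5]), (9, 7, [5])]⟩]
  Ta := [((0, 1), 0, 1), ((0, 9), 0, 7), ((3, 2), 0, 8), ((3, 4), 0, 5)]
  Tb := [((0, 1, 9), 0, 1, 7), ((1, 0, 2), 1, 0, 8), ((2, 1, 3), 8, 1, 0), ((3, 2, 4), 0, 8, 5),
    ((4, 3, 5), 5, 0, 4), ((5, 4, 6), 4, 5, 2), ((6, 5, 7), 2, 4, 3), ((7, 6, 8), 3, 2, 6),
    ((8, 7, 9), 6, 3, 7), ((9, 0, 8), 7, 0, 6)]
  Tc := [(3, 4, 5), (5, 3, 6), (5, 3, 7), (5, 6, 7)]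
  Td := [((3, 4), (7, 6), 2), ((3, 4), (7, 8), 6), ((3, 5), (7, 6), 2), ((3, 5), (7, 8), 6), ((4,
    3), (5, 4), 5), ((4, 3), (5, 6), 2), ((5, 3), (4, 3), 0), ((5, 3), (4, 5), 4), ((5, 6),
    (4, 3), 0), ((5, 6), (4, 5), 4), ((5, 7), (4, 3), 0), ((5, 7), (4, 5), 4), ((6, 5), (8,
    7), 3), ((6, 5), (8, 9), 7), ((7, 5), (9, 0), 0), ((7, 5), (9, 8), 6)]
  G := [[0x28a44cc266224684c8ca426462aa4ce8, 0xa89181c89661e45846964581a8948c1ee4,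
    0x626468228cc8c2e18, 0x41645a1e89e891e18, 0x2162328a1c1e89e18], [0, 0,
    0x3aa448228a84d8c6c522464dc2a57688cc, 0x21f85c1c456b81c1f496c741821f458cc,
    0x61723a2181f89e72d2988358aaca81445]]

noncomputable def n1041 : Ent := ⟨e1041, noF, [], [], []⟩

def c1041 : PLift (Cov.check n1041.C.D v1041 = true) := ⟨by decide +kernel⟩

def b1041 : PLift (entF (fidx ts) 400 1041 n1041 = true) := ⟨by decide +kernel⟩

theorem g1041 : GoodF (fidx ts) 400 1041 := GoodF.ofV v1041 n1041 c1041.down b1041.down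

/-- 459464:872 -/
noncomputable def e1042 : SCfg where
  D := {
    a := 6
    L := 9
    kp := 7
    inn := [(0, 1), (0, 2), (1, 0), (1, 2), (2, 0), (2, 1), (2, 3), (2, 4), (2, 5), (3, 2), (3, 4), (4,
      2), (4, 3), (4, 5), (5, 2), (5, 4)]
    mix := [(0, 0), (0, 1), (1, 1), (1, 2), (1, 3), (2, 0), (2, 3), (2, 4), (2, 5), (3, 5), (3, 6), (4,
      6), (4, 7), (4, 8), (5, 0), (5, 8)]
    cl := [0, 2, 6, 0, 7, 1, 3, 5, 4]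
    chq := [(0, 1), (0, 3), (0, 5), (1, 0), (3, 0), (5, 0)]
    rng := [(0, 1), (0, 8), (1, 0), (1, 2), (2, 1), (2, 3), (3, 2), (3, 4), (4, 3), (4, 5), (5, 4), (5,
      6), (6, 5), (6, 7), (7, 6), (7, 8), (8, 0), (8, 7)]
    lev := [] }
  links := [[1, 2, 6, 7], [2, 0, 7, 8, 9], [6, 0, 1, 9, 10, 11, 3, 4, 5], [4, 2, 11, 12], [5, 2, 3, 12,
    13, 14], [6, 2, 4, 14]]
  P := {
    a := 6
    N := 15
    nb := [198, 901, 3707, 6164, 28716, 16468, 16549, 323, 642, 1286, 2564, 5132, 10264, 20496, 8304]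
    tri := [(0, 1, 2), (0, 1, 7), (0, 2, 6), (0, 6, 7), (1, 2, 9), (1, 7, 8), (1, 8, 9), (2, 3, 4), (2,
      3, 11), (2, 4, 5), (2, 5, 6), (2, 9, 10), (2, 10, 11), (3, 4, 12), (3, 11, 12), (4, 5, 14),
      (4, 12, 13), (4, 13, 14), (5, 6, 14)]
    fin := [0, 0, 0, 0, 0, 0, 0, 7, 8, 0, 10, 11, 12, 13, 14]
    chd := [(0, 11), (0, 12), (0, 13)]
    steps := [(0, 1), (0, 2), (0, 3), (0, 4), (0, 5), (0, 6), (0, 9)] }
  rep := [0, 11, 7, 12, 14, 13, 8, 10]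

noncomputable def v1042 : Cov.CovD where
  P := 3
  N := 5
  pl := [1, 2, 4, 8]
  lev := [⟨[], [], [], [2], [(0, 0, [1, 3, 5])]⟩,
    ⟨[], [(0, 0)], [], [2, 6], [(3, 0, [1, 3, 5])]⟩,
    ⟨[(0, 1)], [(0, 0), (0, 1), (1, 0), (1, 1)], [(0, 0), (0, 1)], [7], [(0, 0, [1, 3, 5]),
      (3, 0, [1, 3, 5]), (5, 1, [0])]⟩,
    ⟨[(0, 2), (1, 2)], [(2, 0), (2, 1), (2, 3)], [(1, 3)], [], [(5, 1, [0]), (6, 3, [0])]⟩,
    ⟨[(0, 2), (1, 2), (2, 3)], [(2, 0), (2, 1), (2, 3), (2, 5), (3, 1), (3, 3), (3, 5)],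
      [(3, 5)], [4], [(6, 3, [0]), (7, 5, [0])]⟩,
    ⟨[(0, 2), (1, 2), (2, 3), (2, 4), (3, 4)], [(0, 0), (2, 0), (2, 1), (4, 0), (4, 3), (4,
      5)], [], [4], [(0, 0, [1, 3, 5])]⟩]
  Ta := [((0, 1), 0, 2), ((0, 8), 0, 4), ((3, 2), 0, 6), ((3, 4), 0, 7)]
  Tb := [((0, 1, 8), 0, 2, 4), ((1, 0, 2), 2, 0, 6), ((2, 1, 3), 6, 2, 0), ((3, 2, 4), 0, 6, 7),
    ((4, 3, 5), 7, 0, 1), ((5, 4, 6), 1, 7, 3), ((6, 5, 7), 3, 1, 5), ((7, 6, 8), 5, 3, 4),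
    ((8, 0, 7), 4, 0, 5)]
  Tc := [(0, 1, 3), (0, 1, 5), (0, 3, 5)]
  Td := [((0, 1), (0, 1), 2), ((0, 1), (0, 8), 4), ((0, 1), (3, 2), 6), ((0, 1), (3, 4), 7), ((0,
    3), (0, 1), 2), ((0, 3), (0, 8), 4), ((0, 3), (3, 2), 6), ((0, 3), (3, 4), 7), ((0, 5),
    (0, 1), 2), ((0, 5), (0, 8), 4), ((0, 5), (3, 2), 6), ((0, 5), (3, 4), 7), ((1, 0), (5,
    4), 7), ((1, 0), (5, 6), 3), ((3, 0), (6, 5), 1), ((3, 0), (6, 7), 5), ((5, 0), (7, 6),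
    3), ((5, 0), (7, 8), 4)]
  G := [[0, 0xa14a12618e14, 0xc11a11c611611c62, 0x8926f141542cf181c, 0x412428f9892af1c12], [0,
    0x612a14a18e18, 0, 0x416b14a14491818142671861a1ca1a19ccd,
    0x6188142671c1a1ccc1c1561a1cca3]]

noncomputable def n1042 : Ent := ⟨e1042, noF, [], [], []⟩

def c1042 : PLift (Cov.check n1042.C.D v1042 = true) := ⟨by decide +kernel⟩

def b1042 : PLift (entF (fidx ts) 400 1042 n1042 = true) := ⟨by decide +kernel⟩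

theorem g1042 : GoodF (fidx ts) 400 1042 := GoodF.ofV v1042 n1042 c1042.down b1042.down

/-- 464794:875/1 -/
noncomputable def e1043 : SCfg where
  D := {
    a := 6
    L := 10
    kp := 8
    inn := [(0, 1), (0, 4), (1, 0), (1, 2), (1, 3), (1, 4), (2, 1), (2, 3), (2, 4), (3, 1), (3, 2), (3,
      5), (4, 0), (4, 1), (4, 2), (5, 3)]
    mix := [(0, 0), (0, 1), (1, 0), (1, 2), (2, 3), (3, 2), (3, 3), (3, 4), (3, 5), (4, 1), (4, 3), (4,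
      6), (4, 7), (4, 8), (4, 9), (5, 4), (5, 5), (5, 8)]
    cl := [2, 1, 0, 3, 5, 3, 6, 7, 4, 8]
    chq := [(0, 1), (0, 4), (0, 6), (0, 7), (0, 8), (1, 0), (4, 0), (6, 0), (7, 0), (8, 0)]
    rng := [(0, 1), (0, 2), (1, 0), (1, 6), (2, 0), (2, 5), (3, 4), (3, 9), (4, 3), (4, 8), (5, 2), (5,
      8), (6, 1), (6, 7), (7, 6), (7, 8), (8, 4), (8, 5), (8, 7), (8, 9), (9, 3), (9, 8)]
    lev := [] }
  links := [[1, 6, 7, 4], [6, 0, 4, 2, 3, 8], [3, 1, 4, 9], [8, 1, 2, 9, 10, 5, 11], [9, 2, 1, 0, 7, 12,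
    13, 14, 15], [11, 3, 10, 14]]
  P := {
    a := 6
    N := 16
    nb := [210, 349, 538, 3878, 62087, 19464, 387, 4177, 2122, 33820, 16936, 16680, 8336, 20496,
      44080, 16912]
    tri := [(0, 1, 4), (0, 1, 6), (0, 4, 7), (0, 6, 7), (1, 2, 3), (1, 2, 4), (1, 3, 8), (1, 6, 8), (2,
      3, 9), (2, 4, 9), (3, 5, 10), (3, 5, 11), (3, 8, 11), (3, 9, 10), (4, 7, 12), (4, 9, 15),
      (4, 12, 13), (4, 13, 14), (4, 14, 15), (5, 10, 14), (5, 11, 14)]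
    fin := [0, 1, 2, 2, 1, 5, 0, 7, 1, 2, 10, 2, 12, 13, 5, 15]
    chd := [(1, 5), (1, 12), (1, 13), (1, 15), (7, 1)]
    steps := [(0, 6), (1, 4), (1, 8), (2, 3), (2, 9), (2, 11), (5, 14)] }
  rep := [1, 7, 0, 2, 5, 10, 12, 13, 15]

noncomputable def v1043 : Cov.CovD where
  P := 3
  N := 6
  pl := [0, 4]
  lev := [⟨[], [], [], [2], [(1, 1, [0])]⟩,
    ⟨[], [(0, 0), (0, 1)], [], [2], [(2, 0, [1, 4, 6, 7, 8])]⟩,
    ⟨[(0, 1)], [(1, 0), (1, 3)], [], [], [(3, 3, [])]⟩,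
    ⟨[(0, 1), (1, 2)], [(1, 0), (1, 3), (2, 0), (2, 3)], [(0, 3), (3, 3)], [5], [(2, 0, [1,
      4, 6, 7, 8]), (3, 3, []), (5, 3, [])]⟩,
    ⟨[(0, 1), (0, 2), (1, 2), (1, 3), (2, 3)], [(0, 1), (0, 3), (0, 4), (0, 6), (0, 7), (0,
      8), (1, 0), (1, 1), (1, 3), (1, 4), (1, 6), (1, 7), (1, 8), (2, 1), (2, 3), (2, 4), (2,
      6), (2, 7), (2, 8), (3, 3)], [(1, 3), (1, 4), (1, 6), (1, 7), (1, 8), (3, 4), (3, 6),
      (3, 7), (3, 8), (4, 6), (4, 7), (4, 8), (6, 7), (6, 8), (7, 8)], [], [(1, 1, [0]), (3,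
      3, []), (6, 6, [0]), (7, 7, [0]), (8, 4, [0]), (9, 8, [0])]⟩,
    ⟨[(1, 3), (2, 3)], [(3, 0), (3, 3), (3, 4), (4, 4)], [(3, 4)], [5], [(5, 3, []), (8, 4,
      [0])]⟩]
  Ta := [((3, 4), 3, 5), ((3, 9), 3, 8), ((5, 2), 3, 0), ((5, 8), 3, 4)]
  Tb := [((0, 1, 2), 2, 1, 0), ((1, 0, 6), 1, 2, 6), ((2, 0, 5), 0, 2, 3), ((3, 4, 9), 3, 5, 8),
    ((4, 3, 8), 5, 3, 4), ((5, 2, 8), 3, 0, 4), ((6, 1, 7), 6, 1, 7), ((7, 6, 8), 7, 6, 4),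
    ((8, 4, 5), 4, 5, 3), ((8, 4, 7), 4, 5, 7), ((8, 4, 9), 4, 5, 8), ((8, 5, 7), 4, 3, 7),
    ((8, 5, 9), 4, 3, 8), ((8, 7, 9), 4, 7, 8), ((9, 3, 8), 8, 3, 4)]
  Tc := [(0, 1, 4), (0, 1, 6), (0, 1, 7), (0, 1, 8), (0, 4, 6), (0, 4, 7), (0, 4, 8), (0, 6, 7),
    (0, 6, 8), (0, 7, 8)]
  Td := [((0, 1), (2, 0), 2), ((0, 1), (2, 5), 3), ((0, 4), (2, 0), 2), ((0, 4), (2, 5), 3), ((0,
    6), (2, 0), 2), ((0, 6), (2, 5), 3), ((0, 7), (2, 0), 2), ((0, 7), (2, 5), 3), ((0, 8),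
    (2, 0), 2), ((0, 8), (2, 5), 3), ((1, 0), (1, 0), 2), ((1, 0), (1, 6), 6), ((4, 0), (8,
    4), 5), ((4, 0), (8, 5), 3), ((4, 0), (8, 7), 7), ((4, 0), (8, 9), 8), ((6, 0), (6, 1),
    1), ((6, 0), (6, 7), 7), ((7, 0), (7, 6), 6), ((7, 0), (7, 8), 4), ((8, 0), (9, 3), 3),
    ((8, 0), (9, 8), 4)]
  G := [[0, 0x1144318c12ac4, 0x519111e128, 0xa14c1266188c8, 0xa14c1266188a8], [0, 0x5191f1e484,
    0x31f191e824, 0x31251469182c8, 0x3124514918ca8]]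

noncomputable def n1043 : Ent := ⟨e1043, noF, [], [], []⟩

def c1043 : PLift (Cov.check n1043.C.D v1043 = true) := ⟨by decide +kernel⟩

def b1043 : PLift (entF (fidx ts) 400 1043 n1043 = true) := ⟨by decide +kernel⟩

theorem g1043 : GoodF (fidx ts) 400 1043 := GoodF.ofV v1043 n1043 c1043.down b1043.down

/-- 464794:875 -/
noncomputable def e1044 : SCfg where
  D := {
    a := 6
    L := 11
    kp := 9
    inn := [(0, 1), (0, 4), (1, 0), (1, 2), (1, 3), (1, 4), (2, 1), (2, 3), (2, 4), (3, 1), (3, 2), (3,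
      5), (4, 0), (4, 1), (4, 2), (5, 3)]
    mix := [(0, 0), (0, 1), (1, 0), (1, 2), (2, 3), (3, 2), (3, 3), (3, 4), (3, 5), (4, 1), (4, 3), (4,
      6), (4, 7), (4, 8), (4, 9), (5, 4), (5, 5), (5, 10)]
    cl := [2, 1, 0, 3, 4, 3, 5, 6, 7, 8, 9]
    chq := [(0, 1), (0, 5), (0, 6), (0, 7), (0, 8), (1, 0), (5, 0), (6, 0), (7, 0), (8, 0)]
    rng := [(0, 1), (0, 2), (1, 0), (1, 6), (2, 0), (2, 5), (3, 4), (3, 9), (4, 3), (4, 10), (5, 2),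
      (5, 10), (6, 1), (6, 7), (7, 6), (7, 8), (8, 7), (8, 9), (9, 3), (9, 8), (10, 4), (10, 5)]
    lev := [] }
  links := [[1, 6, 7, 4], [6, 0, 4, 2, 3, 8], [3, 1, 4, 9], [8, 1, 2, 9, 10, 5, 11], [9, 2, 1, 0, 7, 12,
    13, 14, 15], [11, 3, 10, 16]]
  P := {
    a := 6
    N := 17
    nb := [210, 349, 538, 3878, 62087, 68616, 387, 4177, 2122, 33820, 66088, 65832, 8336, 20496,
      40976, 16912, 3104]
    tri := [(0, 1, 4), (0, 1, 6), (0, 4, 7), (0, 6, 7), (1, 2, 3), (1, 2, 4), (1, 3, 8), (1, 6, 8), (2,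
      3, 9), (2, 4, 9), (3, 5, 10), (3, 5, 11), (3, 8, 11), (3, 9, 10), (4, 7, 12), (4, 9, 15),
      (4, 12, 13), (4, 13, 14), (4, 14, 15), (5, 10, 16), (5, 11, 16)]
    fin := [0, 1, 2, 2, 1, 2, 0, 7, 1, 2, 10, 2, 12, 13, 14, 15, 16]
    chd := [(1, 12), (1, 13), (1, 14), (1, 15), (7, 1)]
    steps := [(0, 6), (1, 4), (1, 8), (2, 3), (2, 5), (2, 9), (2, 11)] }
  rep := [1, 7, 0, 2, 10, 12, 13, 14, 15, 16]

noncomputable def v1044 : Cov.CovD where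
  P := 3
  N := 7
  pl := [0, 4, 10]
  lev := [⟨[], [], [], [2], [(1, 1, [0])]⟩,
    ⟨[], [(0, 0), (0, 1)], [], [2], [(2, 0, [1, 5, 6, 7, 8])]⟩,
    ⟨[(0, 1)], [(1, 0), (1, 3)], [], [], [(3, 3, [])]⟩,
    ⟨[(0, 1), (1, 2)], [(1, 0), (1, 3), (2, 0), (2, 3)], [(0, 3), (3, 3)], [4], [(2, 0, [1,
      5, 6, 7, 8]), (3, 3, []), (5, 3, [])]⟩,
    ⟨[(0, 1), (0, 2), (1, 2), (1, 3), (2, 3)], [(0, 1), (0, 3), (0, 5), (0, 6), (0, 7), (0,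
      8), (1, 0), (1, 1), (1, 3), (1, 5), (1, 6), (1, 7), (1, 8), (2, 1), (2, 3), (2, 5), (2,
      6), (2, 7), (2, 8), (3, 3)], [(1, 3), (1, 5), (1, 6), (1, 7), (1, 8), (3, 5), (3, 6),
      (3, 7), (3, 8), (5, 6), (5, 7), (5, 8), (6, 7), (6, 8), (7, 8)], [], [(1, 1, [0]), (3,
      3, []), (6, 5, [0]), (7, 6, [0]), (8, 7, [0]), (9, 8, [0])]⟩,
    ⟨[(1, 3), (2, 3)], [(3, 0), (3, 3)], [], [4, 9], [(5, 3, [])]⟩]
  Ta := [((3, 4), 3, 4), ((3, 9), 3, 8), ((5, 2), 3, 0), ((5, 10), 3, 9)]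
  Tb := [((0, 1, 2), 2, 1, 0), ((1, 0, 6), 1, 2, 5), ((2, 0, 5), 0, 2, 3), ((3, 4, 9), 3, 4, 8),
    ((4, 3, 10), 4, 3, 9), ((5, 2, 10), 3, 0, 9), ((6, 1, 7), 5, 1, 6), ((7, 6, 8), 6, 5, 7),
    ((8, 7, 9), 7, 6, 8), ((9, 3, 8), 8, 3, 7), ((10, 4, 5), 9, 4, 3)]
  Tc := [(0, 1, 5), (0, 1, 6), (0, 1, 7), (0, 1, 8), (0, 5, 6), (0, 5, 7), (0, 5, 8), (0, 6, 7),
    (0, 6, 8), (0, 7, 8)]
  Td := [((0, 1), (2, 0), 2), ((0, 1), (2, 5), 3), ((0, 5), (2, 0), 2), ((0, 5), (2, 5), 3), ((0,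
    6), (2, 0), 2), ((0, 6), (2, 5), 3), ((0, 7), (2, 0), 2), ((0, 7), (2, 5), 3), ((0, 8),
    (2, 0), 2), ((0, 8), (2, 5), 3), ((1, 0), (1, 0), 2), ((1, 0), (1, 6), 5), ((5, 0), (6,
    1), 1), ((5, 0), (6, 7), 6), ((6, 0), (7, 6), 5), ((6, 0), (7, 8), 7), ((7, 0), (8, 7),
    6), ((7, 0), (8, 9), 8), ((8, 0), (9, 3), 3), ((8, 0), (9, 8), 7)]
  G := [[0, 0x21e19d1813a44, 0x615131e184, 0x21b1c51c1a684, 0xa14c1266188a8], [0,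
    0x91f1c1745182c8, 0x51423129189c8, 0x5142312918ac8, 0x31251469184a8]]

noncomputable def n1044 : Ent := ⟨e1044, noF, [], [], [(14, 16, [1580044410770988437309982408355971841652082177953823432505693384705, 0])]⟩

def c1044 : PLift (Cov.check n1044.C.D v1044 = true) := ⟨by decide +kernel⟩

def b1044 : PLift (entF (fidx ts) 400 1044 n1044 = true) := ⟨by decide +kernel⟩

theorem g1044 : GoodF (fidx ts) 400 1044 := GoodF.ofV v1044 n1044 c1044.down b1044.down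

/-- 459454:876/1 -/
noncomputable def e1045 : SCfg where
  D := {
    a := 6
    L := 9
    kp := 6
    inn := [(0, 1), (0, 2), (1, 0), (1, 2), (2, 0), (2, 1), (2, 3), (2, 4), (3, 2), (4, 2), (4, 5), (5,
      4)]
    mix := [(0, 0), (0, 1), (1, 1), (1, 2), (1, 3), (2, 0), (2, 3), (2, 4), (2, 5), (2, 6), (3, 5), (3,
      6), (3, 7), (4, 0), (4, 6), (4, 8), (5, 6), (5, 7), (5, 8)]
    cl := [0, 1, 5, 0, 6, 3, 0, 2, 4]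
    chq := [(0, 3), (3, 0)]
    rng := [(0, 1), (0, 8), (1, 0), (1, 2), (2, 1), (2, 3), (3, 2), (3, 4), (4, 3), (4, 5), (5, 4), (5,
      7), (6, 7), (7, 5), (7, 6), (7, 8), (8, 0), (8, 7)]
    lev := [] }
  links := [[1, 2, 6, 7], [2, 0, 7, 8, 9], [6, 0, 1, 9, 10, 11, 3, 12, 4], [12, 2, 11, 13], [6, 2, 12, 5,
    14], [14, 4, 12, 13]]
  P := {
    a := 6
    N := 15
    nb := [198, 901, 7771, 14340, 20580, 28688, 16533, 323, 642, 1286, 2564, 9228, 8252, 22568, 8304]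
    tri := [(0, 1, 2), (0, 1, 7), (0, 2, 6), (0, 6, 7), (1, 2, 9), (1, 7, 8), (1, 8, 9), (2, 3, 11),
      (2, 3, 12), (2, 4, 6), (2, 4, 12), (2, 9, 10), (2, 10, 11), (3, 11, 13), (3, 12, 13), (4, 5,
      12), (4, 5, 14), (4, 6, 14), (5, 12, 13), (5, 13, 14)]
    fin := [0, 0, 0, 0, 0, 0, 0, 7, 8, 0, 10, 11, 0, 13, 14]
    chd := [(0, 11)]
    steps := [(0, 1), (0, 2), (0, 3), (0, 4), (0, 6), (0, 9), (0, 12), (0, 5)] }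
  rep := [0, 7, 13, 11, 14, 8, 10]

noncomputable def v1045 : Cov.CovD where
  P := 3
  N := 4
  pl := [1, 2, 4, 7, 8]
  lev := [⟨[], [], [], [1], [(0, 0, [3])]⟩,
    ⟨[], [(0, 0)], [], [1, 5], [(3, 0, [3])]⟩,
    ⟨[(0, 1)], [(0, 0), (0, 3), (1, 0), (1, 3)], [(0, 0), (0, 3)], [6], [(0, 0, [3]), (3,
      0, [3]), (5, 3, [0]), (6, 0, [3])]⟩,
    ⟨[(0, 2), (1, 2)], [(2, 0), (2, 3)], [(0, 3)], [2], [(5, 3, [0]), (6, 0, [3])]⟩,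
    ⟨[(0, 2), (1, 2), (2, 3)], [(0, 0), (2, 0), (2, 3), (3, 0)], [(0, 0)], [4], [(0, 0,
      [3]), (6, 0, [3])]⟩,
    ⟨[(2, 4)], [(2, 0), (3, 0), (4, 0)], [], [2, 4], [(6, 0, [3])]⟩]
  Ta := [((0, 1), 0, 1), ((0, 8), 0, 4), ((3, 2), 0, 5), ((3, 4), 0, 6), ((6, 7), 0, 2)]
  Tb := [((0, 1, 8), 0, 1, 4), ((1, 0, 2), 1, 0, 5), ((2, 1, 3), 5, 1, 0), ((3, 2, 4), 0, 5, 6),
    ((4, 3, 5), 6, 0, 3), ((5, 4, 7), 3, 6, 2), ((7, 5, 6), 2, 3, 0), ((7, 5, 8), 2, 3, 4),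
    ((7, 6, 8), 2, 0, 4), ((8, 0, 7), 4, 0, 2)]
  Tc := []
  Td := [((0, 3), (0, 1), 1), ((0, 3), (0, 8), 4), ((0, 3), (3, 2), 5), ((0, 3), (3, 4), 6), ((0,
    3), (6, 7), 2), ((3, 0), (5, 4), 6), ((3, 0), (5, 7), 2)]
  G := [[0, 0x486141a484c1e84c12416811a4ce2, 0, 0x84a484c161486881c, 0x826882a181c2e14], [0, 0,
    0, 0x116486511a484c1e416884a1441288dec1, 0x826112c82c381c2e116882a121c2ec1], [0, 0,
    0x84a484c261486881c, 0x84a441486848684cca1c, 0x826882a82aa82c2e14]]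

noncomputable def n1045 : Ent := ⟨e1045, noF, [], [], []⟩

def c1045 : PLift (Cov.check n1045.C.D v1045 = true) := ⟨by decide +kernel⟩

def b1045 : PLift (entF (fidx ts) 400 1045 n1045 = true) := ⟨by decide +kernel⟩

theorem g1045 : GoodF (fidx ts) 400 1045 := GoodF.ofV v1045 n1045 c1045.down b1045.down

/-- 459454:876 -/
noncomputable def e1046 : SCfg where
  D := {
    a := 6
    L := 10
    kp := 7
    inn := [(0, 1), (0, 2), (1, 0), (1, 2), (2, 0), (2, 1), (2, 3), (2, 4), (3, 2), (4, 2), (4, 5), (5,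
      4)]
    mix := [(0, 0), (0, 1), (1, 1), (1, 2), (1, 3), (2, 0), (2, 3), (2, 4), (2, 5), (2, 6), (3, 5), (3,
      6), (3, 7), (4, 0), (4, 6), (4, 8), (5, 6), (5, 8), (5, 9)]
    cl := [0, 2, 4, 0, 5, 1, 0, 6, 3, 7]
    chq := [(0, 1), (1, 0)]
    rng := [(0, 1), (0, 8), (1, 0), (1, 2), (2, 1), (2, 3), (3, 2), (3, 4), (4, 3), (4, 5), (5, 4), (5,
      7), (6, 7), (6, 9), (7, 5), (7, 6), (8, 0), (8, 9), (9, 6), (9, 8)]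
    lev := [] }
  links := [[1, 2, 6, 7], [2, 0, 7, 8, 9], [6, 0, 1, 9, 10, 11, 3, 12, 4], [12, 2, 11, 13], [6, 2, 12, 5,
    14], [14, 4, 12, 15]]
  P := {
    a := 6
    N := 16
    nb := [198, 901, 7771, 14340, 20580, 53264, 16533, 323, 642, 1286, 2564, 9228, 41020, 6152, 32880,
      20512]
    tri := [(0, 1, 2), (0, 1, 7), (0, 2, 6), (0, 6, 7), (1, 2, 9), (1, 7, 8), (1, 8, 9), (2, 3, 11),
      (2, 3, 12), (2, 4, 6), (2, 4, 12), (2, 9, 10), (2, 10, 11), (3, 11, 13), (3, 12, 13), (4, 5,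
      12), (4, 5, 14), (4, 6, 14), (5, 12, 15), (5, 14, 15)]
    fin := [0, 0, 0, 0, 0, 0, 0, 7, 8, 0, 10, 11, 0, 13, 14, 15]
    chd := [(0, 11)]
    steps := [(0, 1), (0, 2), (0, 3), (0, 4), (0, 5), (0, 6), (0, 9), (0, 12)] }
  rep := [0, 11, 7, 14, 8, 10, 13, 15]

noncomputable def v1046 : Cov.CovD where
  P := 3
  N := 5
  pl := [1, 2, 4, 7, 8, 9]
  lev := [⟨[], [], [], [2], [(0, 0, [1])]⟩,
    ⟨[], [(0, 0)], [], [2, 4], [(3, 0, [1])]⟩,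
    ⟨[(0, 1)], [(0, 0), (0, 1), (1, 0), (1, 1)], [(0, 0), (0, 1)], [5], [(0, 0, [1]), (3,
      0, [1]), (5, 1, [0]), (6, 0, [1])]⟩,
    ⟨[(0, 2), (1, 2)], [(2, 0), (2, 1)], [(0, 1)], [6], [(5, 1, [0]), (6, 0, [1])]⟩,
    ⟨[(0, 2), (1, 2), (2, 3)], [(0, 0), (2, 0), (2, 1), (3, 0)], [(0, 0)], [3], [(0, 0,
      [1]), (6, 0, [1])]⟩,
    ⟨[(2, 4)], [(2, 0), (3, 0), (4, 0)], [], [3, 7], [(6, 0, [1])]⟩]
  Ta := [((0, 1), 0, 2), ((0, 8), 0, 3), ((3, 2), 0, 4), ((3, 4), 0, 5), ((6, 7), 0, 6), ((6, 9),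
    0, 7)]
  Tb := [((0, 1, 8), 0, 2, 3), ((1, 0, 2), 2, 0, 4), ((2, 1, 3), 4, 2, 0), ((3, 2, 4), 0, 4, 5),
    ((4, 3, 5), 5, 0, 1), ((5, 4, 7), 1, 5, 6), ((6, 7, 9), 0, 6, 7), ((7, 5, 6), 6, 1, 0),
    ((8, 0, 9), 3, 0, 7), ((9, 6, 8), 7, 0, 3)]
  Tc := []
  Td := [((0, 1), (0, 1), 2), ((0, 1), (0, 8), 3), ((0, 1), (3, 2), 4), ((0, 1), (3, 4), 5), ((0,
    1), (6, 7), 6), ((0, 1), (6, 9), 7), ((1, 0), (5, 4), 5), ((1, 0), (5, 7), 6)]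
  G := [[0, 0x11a411a21168e14, 0xca61c6a1cca6111611acc68, 0xca61c6a1c18, 0xca61c6a1c12], [0,
    0x116411a811c2e14, 0, 0xc6a14ca61c6a1ccca6188c, 0xca6111c11accca61c6a1ca1], [0,
    0x116811a211c4e14, 0, 0xc6ac6ac41ca6ca6c81c, 0xca6ca6cc6ac6acc12]]

noncomputable def n1046 : Ent := ⟨e1046, noF, [], [], [(13, 15, [360035742630636841211993100915356868655746945586763691011952641, 0])]⟩

def c1046 : PLift (Cov.check n1046.C.D v1046 = true) := ⟨by decide +kernel⟩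

def b1046 : PLift (entF (fidx ts) 400 1046 n1046 = true) := ⟨by decide +kernel⟩

theorem g1046 : GoodF (fidx ts) 400 1046 := GoodF.ofV v1046 n1046 c1046.down b1046.down

/-- 459454:877/1 -/
noncomputable def e1047 : SCfg where
  D := {
    a := 6
    L := 9
    kp := 6
    inn := [(0, 1), (0, 2), (1, 0), (1, 2), (2, 0), (2, 1), (2, 3), (2, 4), (3, 2), (4, 2), (4, 5), (5,
      4)]
    mix := [(0, 0), (0, 1), (1, 1), (1, 2), (1, 3), (2, 0), (2, 3), (2, 4), (2, 5), (2, 6), (3, 5), (3,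
      6), (3, 7), (4, 0), (4, 6), (4, 8), (5, 0), (5, 1), (5, 8)]
    cl := [0, 1, 4, 0, 5, 2, 0, 6, 3]
    chq := [(0, 2), (2, 0)]
    rng := [(0, 1), (1, 0), (1, 2), (1, 8), (2, 1), (2, 3), (3, 2), (3, 4), (4, 3), (4, 5), (5, 4), (5,
      7), (6, 7), (6, 8), (7, 5), (7, 6), (8, 1), (8, 6)]
    lev := [] }
  links := [[1, 2, 6, 7], [2, 0, 7, 8, 9], [6, 0, 1, 9, 10, 11, 3, 12, 4], [12, 2, 11, 13], [6, 2, 12,
    14, 5], [6, 4, 14, 7]]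
  P := {
    a := 6
    N := 15
    nb := [198, 901, 7771, 14340, 20580, 16592, 181, 16739, 642, 1286, 2564, 9228, 24604, 6152, 4272]
    tri := [(0, 1, 2), (0, 1, 7), (0, 2, 6), (0, 6, 7), (1, 2, 9), (1, 7, 8), (1, 8, 9), (2, 3, 11),
      (2, 3, 12), (2, 4, 6), (2, 4, 12), (2, 9, 10), (2, 10, 11), (3, 11, 13), (3, 12, 13), (4, 5,
      6), (4, 5, 14), (4, 12, 14), (5, 6, 7), (5, 7, 14)]
    fin := [0, 0, 0, 0, 0, 0, 0, 7, 8, 0, 10, 11, 0, 13, 14]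
    chd := [(0, 11)]
    steps := [(0, 1), (0, 2), (0, 3), (0, 4), (0, 6), (0, 5), (0, 9), (0, 12)] }
  rep := [0, 7, 11, 14, 8, 10, 13]

noncomputable def v1047 : Cov.CovD where
  P := 3
  N := 4
  pl := [1, 2, 4, 7, 8]
  lev := [⟨[], [], [], [1], [(0, 0, [2])]⟩,
    ⟨[], [(0, 0)], [], [1, 4], [(3, 0, [2])]⟩,
    ⟨[(0, 1)], [(0, 0), (0, 2), (1, 0), (1, 2)], [(0, 0), (0, 2)], [5], [(0, 0, [2]), (3,
      0, [2]), (5, 2, [0]), (6, 0, [2])]⟩,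
    ⟨[(0, 2), (1, 2)], [(2, 0), (2, 2)], [(0, 2)], [6], [(5, 2, [0]), (6, 0, [2])]⟩,
    ⟨[(0, 2), (1, 2), (2, 3)], [(0, 0), (2, 0), (2, 2), (3, 0)], [(0, 0)], [3], [(0, 0,
      [2]), (6, 0, [2])]⟩,
    ⟨[(2, 4)], [(0, 0), (2, 0), (4, 0)], [], [1, 3], [(0, 0, [2])]⟩]
  Ta := [((0, 1), 0, 1), ((3, 2), 0, 4), ((3, 4), 0, 5), ((6, 7), 0, 6), ((6, 8), 0, 3)]
  Tb := [((1, 0, 2), 1, 0, 4), ((1, 0, 8), 1, 0, 3), ((1, 2, 8), 1, 4, 3), ((2, 1, 3), 4, 1, 0),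
    ((3, 2, 4), 0, 4, 5), ((4, 3, 5), 5, 0, 2), ((5, 4, 7), 2, 5, 6), ((6, 7, 8), 0, 6, 3),
    ((7, 5, 6), 6, 2, 0), ((8, 1, 6), 3, 1, 0)]
  Tc := []
  Td := [((0, 2), (0, 1), 1), ((0, 2), (3, 2), 4), ((0, 2), (3, 4), 5), ((0, 2), (6, 7), 6), ((0,
    2), (6, 8), 3), ((2, 0), (5, 4), 5), ((2, 0), (5, 7), 6)]
  G := [[0, 0x826182a1c24c184a1ca4, 0x416211a41168e18, 0x486184a1c18, 0x8c6184c1a14], [0, 0,
    0x416411c211a8e18, 0x816181a1c4816111a1c8c, 0x416141a1a11c114c1ac4], [0, 0,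
    0x416811a211a4e14, 0x81a84ac41416416c81c, 0x41614ca81a84caa14]]

noncomputable def n1047 : Ent := ⟨e1047, noF, [], [], []⟩

def c1047 : PLift (Cov.check n1047.C.D v1047 = true) := ⟨by decide +kernel⟩

def b1047 : PLift (entF (fidx ts) 400 1047 n1047 = true) := ⟨by decide +kernel⟩

theorem g1047 : GoodF (fidx ts) 400 1047 := GoodF.ofV v1047 n1047 c1047.down b1047.down

/-- 459454:877 -/
noncomputable def e1048 : SCfg where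
  D := {
    a := 6
    L := 10
    kp := 7
    inn := [(0, 1), (0, 2), (1, 0), (1, 2), (2, 0), (2, 1), (2, 3), (2, 4), (3, 2), (4, 2), (4, 5), (5,
      4)]
    mix := [(0, 0), (0, 1), (1, 1), (1, 2), (1, 3), (2, 0), (2, 3), (2, 4), (2, 5), (2, 6), (3, 5), (3,
      6), (3, 7), (4, 0), (4, 6), (4, 8), (5, 0), (5, 8), (5, 9)]
    cl := [0, 2, 4, 0, 5, 1, 0, 6, 3, 7]
    chq := [(0, 1), (1, 0)]
    rng := [(0, 1), (0, 9), (1, 0), (1, 2), (2, 1), (2, 3), (3, 2), (3, 4), (4, 3), (4, 5), (5, 4), (5,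
      7), (6, 7), (6, 8), (7, 5), (7, 6), (8, 6), (8, 9), (9, 0), (9, 8)]
    lev := [] }
  links := [[1, 2, 6, 7], [2, 0, 7, 8, 9], [6, 0, 1, 9, 10, 11, 3, 12, 4], [12, 2, 11, 13], [6, 2, 12,
    14, 5], [6, 4, 14, 15]]
  P := {
    a := 6
    N := 16
    nb := [198, 901, 7771, 14340, 20580, 49232, 32949, 323, 642, 1286, 2564, 9228, 24604, 6152, 36912,
      16480]
    tri := [(0, 1, 2), (0, 1, 7), (0, 2, 6), (0, 6, 7), (1, 2, 9), (1, 7, 8), (1, 8, 9), (2, 3, 11),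
      (2, 3, 12), (2, 4, 6), (2, 4, 12), (2, 9, 10), (2, 10, 11), (3, 11, 13), (3, 12, 13), (4, 5,
      6), (4, 5, 14), (4, 12, 14), (5, 6, 15), (5, 14, 15)]
    fin := [0, 0, 0, 0, 0, 0, 0, 7, 8, 0, 10, 11, 0, 13, 14, 15]
    chd := [(0, 11)]
    steps := [(0, 1), (0, 2), (0, 3), (0, 4), (0, 5), (0, 6), (0, 9), (0, 12)] }
  rep := [0, 11, 7, 14, 8, 10, 13, 15]

noncomputable def v1048 : Cov.CovD where
  P := 3
  N := 5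
  pl := [1, 2, 4, 7, 8, 9]
  lev := [⟨[], [], [], [2], [(0, 0, [1])]⟩,
    ⟨[], [(0, 0)], [], [2, 4], [(3, 0, [1])]⟩,
    ⟨[(0, 1)], [(0, 0), (0, 1), (1, 0), (1, 1)], [(0, 0), (0, 1)], [5], [(0, 0, [1]), (3,
      0, [1]), (5, 1, [0]), (6, 0, [1])]⟩,
    ⟨[(0, 2), (1, 2)], [(2, 0), (2, 1)], [(0, 1)], [6], [(5, 1, [0]), (6, 0, [1])]⟩,
    ⟨[(0, 2), (1, 2), (2, 3)], [(0, 0), (2, 0), (2, 1), (3, 0)], [(0, 0)], [3], [(0, 0,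
      [1]), (6, 0, [1])]⟩,
    ⟨[(2, 4)], [(0, 0), (2, 0), (4, 0)], [], [3, 7], [(0, 0, [1])]⟩]
  Ta := [((0, 1), 0, 2), ((0, 9), 0, 7), ((3, 2), 0, 4), ((3, 4), 0, 5), ((6, 7), 0, 6), ((6, 8),
    0, 3)]
  Tb := [((0, 1, 9), 0, 2, 7), ((1, 0, 2), 2, 0, 4), ((2, 1, 3), 4, 2, 0), ((3, 2, 4), 0, 4, 5),
    ((4, 3, 5), 5, 0, 1), ((5, 4, 7), 1, 5, 6), ((6, 7, 8), 0, 6, 3), ((7, 5, 6), 6, 1, 0),
    ((8, 6, 9), 3, 0, 7), ((9, 0, 8), 7, 0, 3)]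
  Tc := []
  Td := [((0, 1), (0, 1), 2), ((0, 1), (0, 9), 7), ((0, 1), (3, 2), 4), ((0, 1), (3, 4), 5), ((0,
    1), (6, 7), 6), ((0, 1), (6, 8), 3), ((1, 0), (5, 4), 5), ((1, 0), (5, 7), 6)]
  G := [[0, 0x11a411a21168e14, 0xca61c6a1cca61c6a1c68, 0xca61c6a1c18, 0xca61c6a1c12], [0,
    0x116411a811c2e14, 0, 0x116111a1c4116111a1c8c, 0x11611161c11c11161ca2], [0,
    0x116411a811c2e14, 0, 0x53641a639acc1596881c, 0x1a616ccc1a1dacc12]]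

noncomputable def n1048 : Ent := ⟨e1048, noF, [], [], [(7, 15, [360035742630636841211993100915356868655746945586763691011960833, 0])]⟩

def c1048 : PLift (Cov.check n1048.C.D v1048 = true) := ⟨by decide +kernel⟩

def b1048 : PLift (entF (fidx ts) 400 1048 n1048 = true) := ⟨by decide +kernel⟩

theorem g1048 : GoodF (fidx ts) 400 1048 := GoodF.ofV v1048 n1048 c1048.down b1048.down

/-- 464854:881/1 -/
noncomputable def e1049 : SCfg where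
  D := {
    a := 6
    L := 9
    kp := 6
    inn := [(0, 1), (1, 0), (1, 2), (1, 3), (2, 1), (2, 3), (3, 1), (3, 2), (3, 4), (3, 5), (4, 3), (5,
      3)]
    mix := [(0, 0), (0, 1), (0, 2), (1, 0), (1, 2), (1, 3), (2, 2), (2, 4), (3, 3), (3, 4), (3, 5), (3,
      6), (4, 1), (4, 4), (4, 5), (4, 7), (5, 5), (5, 6), (5, 8)]
    cl := [2, 3, 1, 0, 0, 0, 4, 5, 6]
    chq := [(1, 2), (2, 1)]
    rng := [(0, 1), (0, 3), (1, 0), (1, 2), (1, 4), (1, 7), (2, 1), (2, 4), (3, 0), (3, 6), (4, 1), (4,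
      2), (5, 7), (5, 8), (6, 3), (6, 8), (7, 1), (7, 5), (8, 5), (8, 6)]
    lev := [] }
  links := [[1, 6, 7, 8], [6, 0, 8, 2, 3, 9], [3, 1, 8, 10], [9, 1, 2, 10, 4, 11, 5, 12], [11, 3, 10, 7,
    13], [12, 3, 11, 14]]
  P := {
    a := 6
    N := 15
    nb := [450, 845, 1290, 7734, 11400, 22536, 643, 9553, 1159, 4170, 412, 24632, 16936, 2192, 6176]
    tri := [(0, 1, 6), (0, 1, 8), (0, 6, 7), (0, 7, 8), (1, 2, 3), (1, 2, 8), (1, 3, 9), (1, 6, 9), (2,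
      3, 10), (2, 8, 10), (3, 4, 10), (3, 4, 11), (3, 5, 11), (3, 5, 12), (3, 9, 12), (4, 7, 10),
      (4, 7, 13), (4, 11, 13), (5, 11, 14), (5, 12, 14)]
    fin := [0, 0, 0, 3, 4, 3, 0, 4, 8, 3, 3, 3, 12, 13, 14]
    chd := [(0, 8)]
    steps := [(0, 1), (0, 2), (0, 6), (3, 5), (3, 10), (3, 11), (3, 9), (4, 7)] }
  rep := [3, 8, 0, 4, 12, 13, 14]

noncomputable def v1049 : Cov.CovD where
  P := 3
  N := 4
  pl := [1, 6, 7, 8]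
  lev := [⟨[], [], [(1, 2)], [3], [(0, 2, [1]), (2, 1, [2])]⟩,
    ⟨[], [(0, 0), (0, 1), (0, 2)], [(0, 1), (0, 2), (1, 2)], [], [(0, 2, [1]), (2, 1, [2]),
      (3, 0, [])]⟩,
    ⟨[(0, 1)], [(0, 1), (1, 0), (1, 1), (1, 2)], [(0, 1)], [], [(2, 1, [2]), (4, 0, [])]⟩,
    ⟨[(0, 1), (1, 2)], [(1, 0), (1, 1), (1, 2), (2, 0), (2, 1)], [(0, 0)], [4], [(3, 0,
      []), (4, 0, []), (5, 0, [])]⟩,
    ⟨[(1, 3), (2, 3)], [(2, 0), (3, 0)], [(0, 0)], [3, 5], [(4, 0, []), (5, 0, [])]⟩,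
    ⟨[(1, 3), (2, 3), (3, 4)], [(3, 0), (4, 0)], [], [4, 6], [(5, 0, [])]⟩]
  Ta := [((3, 0), 0, 2), ((3, 6), 0, 4), ((4, 1), 0, 3), ((4, 2), 0, 1), ((5, 7), 0, 5), ((5, 8),
    0, 6)]
  Tb := [((0, 1, 3), 2, 3, 0), ((1, 0, 2), 3, 2, 1), ((1, 0, 4), 3, 2, 0), ((1, 0, 7), 3, 2, 5),
    ((1, 2, 4), 3, 1, 0), ((1, 2, 7), 3, 1, 5), ((1, 4, 7), 3, 0, 5), ((2, 1, 4), 1, 3, 0),
    ((3, 0, 6), 0, 2, 4), ((4, 1, 2), 0, 3, 1), ((5, 7, 8), 0, 5, 6), ((6, 3, 8), 4, 0, 6),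
    ((7, 1, 5), 5, 3, 0), ((8, 5, 6), 6, 0, 4)]
  Tc := []
  Td := [((1, 2), (2, 1), 3), ((1, 2), (2, 4), 0), ((2, 1), (0, 1), 3), ((2, 1), (0, 3), 0)]
  G := [[0, 0, 0x11a11a684116116a14c, 0x13ce651ea441, 0xc3cea91e6881], [0,
    0x11a11aa44116116a84c, 0, 0x116116a8411a11ac245, 0x11a11c641116116a489], [0, 0, 0,
    0xc6aa6c68ca682c1, 0x426c8eeae8ee181]]

noncomputable def n1049 : Ent := ⟨e1049, noF, [], [], []⟩

def c1049 : PLift (Cov.check n1049.C.D v1049 = true) := ⟨by decide +kernel⟩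

def b1049 : PLift (entF (fidx ts) 400 1049 n1049 = true) := ⟨by decide +kernel⟩

theorem g1049 : GoodF (fidx ts) 400 1049 := GoodF.ofV v1049 n1049 c1049.down b1049.down

/-- 464854:881/2 -/
noncomputable def e1050 : SCfg where
  D := {
    a := 6
    L := 9
    kp := 6
    inn := [(0, 1), (1, 0), (1, 2), (1, 3), (2, 1), (2, 3), (3, 1), (3, 2), (3, 4), (3, 5), (4, 3), (5,
      3)]
    mix := [(0, 0), (0, 1), (0, 2), (1, 0), (1, 2), (1, 3), (2, 2), (2, 4), (3, 3), (3, 4), (3, 5), (3,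
      6), (4, 1), (4, 4), (4, 5), (4, 7), (5, 5), (5, 6), (5, 8)]
    cl := [2, 3, 1, 0, 0, 0, 4, 5, 6]
    chq := [(1, 2), (2, 1)]
    rng := [(0, 1), (0, 3), (1, 0), (1, 2), (1, 5), (1, 7), (2, 1), (2, 4), (3, 0), (3, 6), (4, 2), (4,
      7), (5, 1), (5, 8), (6, 3), (6, 8), (7, 1), (7, 4), (8, 5), (8, 6)]
    lev := [] }
  links := [[1, 6, 7, 8], [6, 0, 8, 2, 3, 9], [3, 1, 8, 10], [9, 1, 2, 10, 4, 11, 5, 12], [11, 3, 10, 13,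
    7], [12, 3, 11, 14]]
  P := {
    a := 6
    N := 15
    nb := [450, 845, 1290, 7734, 11400, 22536, 643, 10577, 1159, 4170, 8476, 16568, 16936, 1168, 6176]
    tri := [(0, 1, 6), (0, 1, 8), (0, 6, 7), (0, 7, 8), (1, 2, 3), (1, 2, 8), (1, 3, 9), (1, 6, 9), (2,
      3, 10), (2, 8, 10), (3, 4, 10), (3, 4, 11), (3, 5, 11), (3, 5, 12), (3, 9, 12), (4, 7, 11),
      (4, 7, 13), (4, 10, 13), (5, 11, 14), (5, 12, 14)]
    fin := [0, 0, 0, 3, 4, 3, 0, 4, 8, 3, 3, 3, 12, 13, 14]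
    chd := [(0, 8)]
    steps := [(0, 1), (0, 2), (0, 6), (3, 5), (3, 10), (3, 11), (3, 9), (4, 7)] }
  rep := [3, 8, 0, 4, 12, 13, 14]

noncomputable def v1050 : Cov.CovD where
  P := 3
  N := 4
  pl := [1, 6, 7, 8]
  lev := [⟨[], [], [(1, 2)], [3], [(0, 2, [1]), (2, 1, [2])]⟩,
    ⟨[], [(0, 0), (0, 1), (0, 2)], [(0, 1), (0, 2), (1, 2)], [], [(0, 2, [1]), (2, 1, [2]),
      (3, 0, [])]⟩,
    ⟨[(0, 1)], [(0, 1), (1, 0), (1, 1), (1, 2)], [(0, 1)], [], [(2, 1, [2]), (4, 0, [])]⟩,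
    ⟨[(0, 1), (1, 2)], [(1, 0), (1, 1), (1, 2), (2, 0), (2, 1)], [(0, 0)], [4], [(3, 0,
      []), (4, 0, []), (5, 0, [])]⟩,
    ⟨[(1, 3), (2, 3)], [(2, 0), (3, 0)], [(0, 0)], [3, 5], [(4, 0, []), (5, 0, [])]⟩,
    ⟨[(1, 3), (2, 3), (3, 4)], [(3, 0), (4, 0)], [], [4, 6], [(5, 0, [])]⟩]
  Ta := [((3, 0), 0, 2), ((3, 6), 0, 4), ((4, 2), 0, 1), ((4, 7), 0, 5), ((5, 1), 0, 3), ((5, 8),
    0, 6)]
  Tb := [((0, 1, 3), 2, 3, 0), ((1, 0, 2), 3, 2, 1), ((1, 0, 5), 3, 2, 0), ((1, 0, 7), 3, 2, 5),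
    ((1, 2, 5), 3, 1, 0), ((1, 2, 7), 3, 1, 5), ((1, 5, 7), 3, 0, 5), ((2, 1, 4), 1, 3, 0),
    ((3, 0, 6), 0, 2, 4), ((4, 2, 7), 0, 1, 5), ((5, 1, 8), 0, 3, 6), ((6, 3, 8), 4, 0, 6),
    ((7, 1, 4), 5, 3, 0), ((8, 5, 6), 6, 0, 4)]
  Tc := []
  Td := [((1, 2), (2, 1), 3), ((1, 2), (2, 4), 0), ((2, 1), (0, 1), 3), ((2, 1), (0, 3), 0)]
  G := [[0, 0, 0x11a11a684116116a14c, 0x13ce651ea441, 0xc3cea91e6881], [0,
    0x11a11aa44116116a84c, 0, 0x11618111ee481, 0x111e111e6881], [0, 0, 0,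
    0x4268e6e86e814eae4aa82a4545, 0xaac2cca4588e6e8664268c89]]

noncomputable def n1050 : Ent := ⟨e1050, noF, [], [], []⟩

def c1050 : PLift (Cov.check n1050.C.D v1050 = true) := ⟨by decide +kernel⟩

def b1050 : PLift (entF (fidx ts) 400 1050 n1050 = true) := ⟨by decide +kernel⟩

theorem g1050 : GoodF (fidx ts) 400 1050 := GoodF.ofV v1050 n1050 c1050.down b1050.down

/-- 464854:881/3 -/
noncomputable def e1051 : SCfg where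
  D := {
    a := 6
    L := 9
    kp := 6
    inn := [(0, 1), (1, 0), (1, 2), (1, 3), (2, 1), (2, 3), (3, 1), (3, 2), (3, 4), (3, 5), (4, 3), (5,
      3)]
    mix := [(0, 0), (0, 1), (0, 2), (1, 0), (1, 2), (1, 3), (2, 2), (2, 4), (3, 3), (3, 4), (3, 5), (3,
      6), (4, 4), (4, 5), (4, 7), (4, 8), (5, 1), (5, 5), (5, 6)]
    cl := [1, 2, 0, 0, 3, 3, 4, 5, 6]
    chq := [(3, 4), (4, 3)]
    rng := [(0, 1), (0, 3), (1, 0), (1, 2), (1, 5), (1, 6), (2, 1), (2, 4), (3, 0), (3, 6), (4, 2), (4,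
      7), (5, 1), (5, 8), (6, 1), (6, 3), (7, 4), (7, 8), (8, 5), (8, 7)]
    lev := [] }
  links := [[1, 6, 7, 8], [6, 0, 8, 2, 3, 9], [3, 1, 8, 10], [9, 1, 2, 10, 4, 11, 5, 12], [11, 3, 10, 13,
    14], [12, 3, 11, 7]]
  P := {
    a := 6
    N := 15
    nb := [450, 845, 1290, 7734, 27656, 6280, 643, 6497, 1159, 4170, 8476, 16568, 680, 17424, 10256]
    tri := [(0, 1, 6), (0, 1, 8), (0, 6, 7), (0, 7, 8), (1, 2, 3), (1, 2, 8), (1, 3, 9), (1, 6, 9), (2,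
      3, 10), (2, 8, 10), (3, 4, 10), (3, 4, 11), (3, 5, 11), (3, 5, 12), (3, 9, 12), (4, 10, 13),
      (4, 11, 14), (4, 13, 14), (5, 7, 11), (5, 7, 12)]
    fin := [0, 0, 2, 2, 4, 4, 0, 7, 2, 2, 4, 4, 12, 13, 14]
    chd := [(4, 12)]
    steps := [(0, 1), (0, 6), (2, 3), (2, 8), (2, 9), (4, 10), (4, 11), (4, 5)] }
  rep := [2, 0, 7, 4, 12, 13, 14]

noncomputable def v1051 : Cov.CovD where
  P := 3
  N := 4
  pl := [0, 1, 7, 8]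
  lev := [⟨[], [], [], [1, 2], [(2, 0, [])]⟩,
    ⟨[], [(0, 0)], [(0, 0)], [1], [(2, 0, []), (3, 0, [])]⟩,
    ⟨[(0, 1)], [(0, 0), (1, 0), (1, 3)], [(0, 3)], [], [(2, 0, []), (4, 3, [4])]⟩,
    ⟨[(0, 1), (1, 2)], [(1, 0), (1, 3), (1, 4), (2, 0), (2, 3), (2, 4)], [(0, 3), (0, 4),
      (3, 3), (3, 4)], [], [(3, 0, []), (4, 3, [4]), (5, 3, [4]), (6, 4, [3])]⟩,
    ⟨[(1, 3), (2, 3)], [(2, 3), (3, 0), (3, 3), (3, 4)], [(3, 3)], [5, 6], [(4, 3, [4]),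
      (5, 3, [4])]⟩,
    ⟨[(1, 3), (2, 3), (3, 4)], [(3, 0), (3, 3), (3, 4), (4, 3)], [(3, 4)], [2], [(5, 3,
      [4]), (6, 4, [3])]⟩]
  Ta := [((2, 1), 0, 2), ((2, 4), 0, 3), ((3, 0), 0, 1), ((3, 6), 0, 4), ((4, 2), 3, 0), ((4, 7),
    3, 5), ((5, 1), 3, 2), ((5, 8), 3, 6)]
  Tb := [((0, 1, 3), 1, 2, 0), ((1, 0, 2), 2, 1, 0), ((1, 0, 5), 2, 1, 3), ((1, 0, 6), 2, 1, 4),
    ((1, 2, 5), 2, 0, 3), ((1, 2, 6), 2, 0, 4), ((1, 5, 6), 2, 3, 4), ((2, 1, 4), 0, 2, 3),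
    ((3, 0, 6), 0, 1, 4), ((4, 2, 7), 3, 0, 5), ((5, 1, 8), 3, 2, 6), ((6, 1, 3), 4, 2, 0),
    ((7, 4, 8), 5, 3, 6), ((8, 5, 7), 6, 3, 5)]
  Tc := []
  Td := [((3, 4), (4, 2), 0), ((3, 4), (4, 7), 5), ((3, 4), (5, 1), 2), ((3, 4), (5, 8), 6), ((4,
    3), (6, 1), 2), ((4, 3), (6, 3), 0)]
  G := [[0, 0, 0x21a126cd41c14cab684, 0x122111d423688, 0x111b1187a474181d84c8], [0, 0,
    0x414221281eeee9ac4, 0x1111f2848, 0xaaae11111f11661188c8], [0, 0x1221148b1447111de1a4, 0,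
    0x955cf2184, 0x2a81f812761112d81c8], [0, 0x1111f1111f6111178188ca8, 0, 0xd2295dd2a41,
    0x9131f421212f23888f8ac1]]

noncomputable def n1051 : Ent := ⟨e1051, noF, [], [], []⟩

def c1051 : PLift (Cov.check n1051.C.D v1051 = true) := ⟨by decide +kernel⟩

def b1051 : PLift (entF (fidx ts) 400 1051 n1051 = true) := ⟨by decide +kernel⟩

theorem g1051 : GoodF (fidx ts) 400 1051 := GoodF.ofV v1051 n1051 c1051.down b1051.down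

/-- 464854:881 -/
noncomputable def e1052 : SCfg where
  D := {
    a := 6
    L := 10
    kp := 7
    inn := [(0, 1), (1, 0), (1, 2), (1, 3), (2, 1), (2, 3), (3, 1), (3, 2), (3, 4), (3, 5), (4, 3), (5,
      3)]
    mix := [(0, 0), (0, 1), (0, 2), (1, 0), (1, 2), (1, 3), (2, 2), (2, 4), (3, 3), (3, 4), (3, 5), (3,
      6), (4, 4), (4, 5), (4, 7), (4, 8), (5, 5), (5, 6), (5, 9)]
    cl := [2, 4, 1, 0, 0, 0, 3, 5, 6, 7]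
    chq := [(1, 2), (2, 1)]
    rng := [(0, 1), (0, 3), (1, 0), (1, 2), (2, 1), (2, 4), (3, 0), (3, 6), (4, 2), (4, 7), (5, 8), (5,
      9), (6, 3), (6, 9), (7, 4), (7, 8), (8, 5), (8, 7), (9, 5), (9, 6)]
    lev := [] }
  links := [[1, 6, 7, 8], [6, 0, 8, 2, 3, 9], [3, 1, 8, 10], [9, 1, 2, 10, 4, 11, 5, 12], [11, 3, 10, 13,
    14], [12, 3, 11, 15]]
  P := {
    a := 6
    N := 16
    nb := [450, 845, 1290, 7734, 27656, 38920, 643, 321, 1159, 4170, 8476, 49208, 33320, 17424, 10256,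
      6176]
    tri := [(0, 1, 6), (0, 1, 8), (0, 6, 7), (0, 7, 8), (1, 2, 3), (1, 2, 8), (1, 3, 9), (1, 6, 9), (2,
      3, 10), (2, 8, 10), (3, 4, 10), (3, 4, 11), (3, 5, 11), (3, 5, 12), (3, 9, 12), (4, 10, 13),
      (4, 11, 14), (4, 13, 14), (5, 11, 15), (5, 12, 15)]
    fin := [0, 0, 0, 3, 3, 3, 0, 7, 8, 3, 3, 3, 12, 13, 14, 15]
    chd := [(0, 8)]
    steps := [(0, 1), (0, 2), (0, 6), (3, 4), (3, 5), (3, 10), (3, 11), (3, 9)] }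
  rep := [3, 8, 0, 12, 7, 13, 14, 15]

noncomputable def v1052 : Cov.CovD where
  P := 3
  N := 5
  pl := [1, 6, 7, 8, 9]
  lev := [⟨[], [], [(1, 2)], [4], [(0, 2, [1]), (2, 1, [2])]⟩,
    ⟨[], [(0, 0), (0, 1), (0, 2)], [(0, 1), (0, 2), (1, 2)], [], [(0, 2, [1]), (2, 1, [2]),
      (3, 0, [])]⟩,
    ⟨[(0, 1)], [(0, 1), (1, 0), (1, 1), (1, 2)], [(0, 1)], [], [(2, 1, [2]), (4, 0, [])]⟩,
    ⟨[(0, 1), (1, 2)], [(1, 0), (1, 1), (1, 2), (2, 0), (2, 1)], [(0, 0)], [3], [(3, 0,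
      []), (4, 0, []), (5, 0, [])]⟩,
    ⟨[(1, 3), (2, 3)], [(2, 0), (3, 0)], [(0, 0)], [5, 6], [(4, 0, []), (5, 0, [])]⟩,
    ⟨[(1, 3), (2, 3), (3, 4)], [(3, 0), (4, 0)], [], [3, 7], [(5, 0, [])]⟩]
  Ta := [((3, 0), 0, 2), ((3, 6), 0, 3), ((4, 2), 0, 1), ((4, 7), 0, 5), ((5, 8), 0, 6), ((5, 9),
    0, 7)]
  Tb := [((0, 1, 3), 2, 4, 0), ((1, 0, 2), 4, 2, 1), ((2, 1, 4), 1, 4, 0), ((3, 0, 6), 0, 2, 3),
    ((4, 2, 7), 0, 1, 5), ((5, 8, 9), 0, 6, 7), ((6, 3, 9), 3, 0, 7), ((7, 4, 8), 5, 0, 6),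
    ((8, 5, 7), 6, 0, 5), ((9, 5, 6), 7, 0, 3)]
  Tc := []
  Td := [((1, 2), (2, 1), 4), ((1, 2), (2, 4), 0), ((2, 1), (0, 1), 4), ((2, 1), (0, 3), 0)]
  G := [[0, 0, 0x111e111e618111e111e688c, 0x55ce331ea14915e3a9e6185, 0x19cea51e618c1ce1a1e6889],
    [0, 0x1411a111ee84111e2111e8a4c, 0, 0x1411a111ee84111e111e688c,
    0x111e111ea41111e111e6889], [0, 0, 0, 0xa6c2ca6c6aca182ae64e64cee8a49,
    0xc26e4ea6a4cac1426c8eeae8ee189]]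

noncomputable def n1052 : Ent := ⟨e1052, noF, [], [], [(7, 13, [385753028440516072301428330182238677962518295842732840411303937, 0]), (7, 14, [385746751338780685620664494392815470296102193487288376376795137, 0]), (7, 15, [360035742630636841211993100915356868655746945586763691011977217, 0])]⟩

def c1052 : PLift (Cov.check n1052.C.D v1052 = true) := ⟨by decide +kernel⟩

def b1052 : PLift (entF (fidx ts) 400 1052 n1052 = true) := ⟨by decide +kernel⟩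

theorem g1052 : GoodF (fidx ts) 400 1052 := GoodF.ofV v1052 n1052 c1052.down b1052.down

/-- 464855:882/1 -/
noncomputable def e1053 : SCfg where
  D := {
    a := 6
    L := 10
    kp := 7
    inn := [(0, 1), (1, 0), (1, 2), (1, 3), (2, 1), (2, 3), (3, 1), (3, 2), (3, 4), (3, 5), (4, 3), (5,
      3)]
    mix := [(0, 0), (0, 1), (0, 2), (1, 0), (1, 2), (1, 3), (2, 2), (2, 4), (3, 3), (3, 4), (3, 5), (3,
      6), (4, 1), (4, 4), (4, 5), (4, 7), (5, 5), (5, 6), (5, 8), (5, 9)]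
    cl := [2, 4, 3, 1, 0, 0, 0, 5, 6, 7]
    chq := [(1, 3), (1, 4), (3, 1), (4, 1)]
    rng := [(0, 1), (0, 3), (1, 0), (1, 2), (1, 4), (1, 7), (2, 1), (2, 4), (3, 0), (3, 6), (4, 1), (4,
      2), (5, 7), (5, 8), (6, 3), (6, 9), (7, 1), (7, 5), (8, 5), (8, 9), (9, 6), (9, 8)]
    lev := [] }
  links := [[1, 6, 7, 8], [6, 0, 8, 2, 3, 9], [3, 1, 8, 10], [9, 1, 2, 10, 4, 11, 5, 12], [11, 3, 10, 7,
    13], [12, 3, 11, 14, 15]]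
  P := {
    a := 6
    N := 16
    nb := [450, 845, 1290, 7734, 11400, 55304, 643, 9553, 1159, 4170, 412, 24632, 33320, 2192, 34848,
      20512]
    tri := [(0, 1, 6), (0, 1, 8), (0, 6, 7), (0, 7, 8), (1, 2, 3), (1, 2, 8), (1, 3, 9), (1, 6, 9), (2,
      3, 10), (2, 8, 10), (3, 4, 10), (3, 4, 11), (3, 5, 11), (3, 5, 12), (3, 9, 12), (4, 7, 10),
      (4, 7, 13), (4, 11, 13), (5, 11, 14), (5, 12, 15), (5, 14, 15)]
    fin := [0, 0, 2, 2, 4, 4, 6, 0, 2, 9, 4, 4, 4, 13, 14, 15]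
    chd := [(0, 9), (2, 9)]
    steps := [(0, 1), (0, 7), (2, 3), (2, 8), (4, 10), (4, 11), (4, 5), (4, 12)] }
  rep := [4, 9, 6, 2, 0, 13, 14, 15]

noncomputable def v1053 : Cov.CovD where
  P := 3
  N := 5
  pl := [0, 7, 8, 9]
  lev := [⟨[], [], [(3, 4)], [2], [(1, 4, [1]), (2, 3, [1])]⟩,
    ⟨[], [(0, 1), (0, 3), (0, 4)], [(1, 3)], [2], [(2, 3, [1]), (3, 1, [3, 4])]⟩,
    ⟨[(0, 1)], [(0, 3), (1, 0), (1, 1), (1, 3)], [(0, 3)], [], [(2, 3, [1]), (4, 0, [])]⟩,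
    ⟨[(0, 1), (1, 2)], [(1, 0), (1, 1), (1, 3), (2, 0), (2, 1), (2, 3)], [(0, 0), (0, 1)],
      [], [(3, 1, [3, 4]), (4, 0, []), (5, 0, []), (6, 0, [])]⟩,
    ⟨[(1, 3), (2, 3)], [(0, 4), (2, 0), (3, 0), (3, 1), (3, 4)], [(0, 0), (0, 4)], [5],
      [(1, 4, [1]), (4, 0, []), (5, 0, [])]⟩,
    ⟨[(1, 3), (2, 3), (3, 4)], [(3, 0), (3, 1), (4, 0)], [(0, 0)], [6, 7], [(5, 0, []), (6,
      0, [])]⟩]
  Ta := [((4, 1), 0, 4), ((4, 2), 0, 3), ((5, 7), 0, 5), ((5, 8), 0, 6), ((6, 3), 0, 1), ((6, 9),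
    0, 7)]
  Tb := [((0, 1, 3), 2, 4, 1), ((1, 0, 2), 4, 2, 3), ((1, 0, 4), 4, 2, 0), ((1, 0, 7), 4, 2, 5),
    ((1, 2, 4), 4, 3, 0), ((1, 2, 7), 4, 3, 5), ((1, 4, 7), 4, 0, 5), ((2, 1, 4), 3, 4, 0),
    ((3, 0, 6), 1, 2, 0), ((4, 1, 2), 0, 4, 3), ((5, 7, 8), 0, 5, 6), ((6, 3, 9), 0, 1, 7),
    ((7, 1, 5), 5, 4, 0), ((8, 5, 9), 6, 0, 7), ((9, 6, 8), 7, 0, 6)]
  Tc := [(1, 3, 4)]
  Td := [((1, 3), (3, 0), 2), ((1, 3), (3, 6), 0), ((1, 4), (3, 0), 2), ((1, 4), (3, 6), 0), ((3,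
    1), (2, 1), 4), ((3, 1), (2, 4), 0), ((4, 1), (1, 0), 2), ((4, 1), (1, 2), 3), ((4, 1),
    (1, 4), 0), ((4, 1), (1, 7), 5)]
  G := [[0, 0, 0xeaee4448a6eee88846c2, 0xeea428ee6824ee6e8c21d, 0xeaee4448a6eee88c492], [0, 0,
    0x44eaeec26eee88c1c2, 0xe4eeac211, 0xe4eeac211], [0, 0x44eaeec1e2eeca1c1,
    0xe8ee464896eee88c1c2, 0xee6e8c211, 0xee6e8c211]]

noncomputable def n1053 : Ent := ⟨e1053, noF, [], [], []⟩

def c1053 : PLift (Cov.check n1053.C.D v1053 = true) := ⟨by decide +kernel⟩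

def b1053 : PLift (entF (fidx ts) 400 1053 n1053 = true) := ⟨by decide +kernel⟩

theorem g1053 : GoodF (fidx ts) 400 1053 := GoodF.ofV v1053 n1053 c1053.down b1053.down

/-- 464855:882/2 -/
noncomputable def e1054 : SCfg where
  D := {
    a := 6
    L := 10
    kp := 7
    inn := [(0, 1), (1, 0), (1, 2), (1, 3), (2, 1), (2, 3), (3, 1), (3, 2), (3, 4), (3, 5), (4, 3), (5,
      3)]
    mix := [(0, 0), (0, 1), (0, 2), (1, 0), (1, 2), (1, 3), (2, 2), (2, 4), (3, 3), (3, 4), (3, 5), (3,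
      6), (4, 4), (4, 5), (4, 7), (4, 8), (5, 1), (5, 5), (5, 6), (5, 9)]
    cl := [4, 3, 1, 2, 0, 0, 0, 5, 6, 7]
    chq := [(1, 2), (2, 1), (2, 3), (3, 2)]
    rng := [(0, 1), (0, 3), (1, 0), (1, 2), (1, 5), (1, 9), (2, 1), (2, 4), (3, 0), (3, 6), (4, 2), (4,
      7), (5, 1), (5, 8), (6, 3), (6, 9), (7, 4), (7, 8), (8, 5), (8, 7), (9, 1), (9, 6)]
    lev := [] }
  links := [[1, 6, 7, 8], [6, 0, 8, 2, 3, 9], [3, 1, 8, 10], [9, 1, 2, 10, 4, 11, 5, 12], [11, 3, 10, 13,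
    14], [12, 3, 11, 7, 15]]
  P := {
    a := 6
    N := 16
    nb := [450, 845, 1290, 7734, 27656, 39048, 643, 35169, 1159, 4170, 8476, 16568, 33320, 17424,
      10256, 4256]
    tri := [(0, 1, 6), (0, 1, 8), (0, 6, 7), (0, 7, 8), (1, 2, 3), (1, 2, 8), (1, 3, 9), (1, 6, 9), (2,
      3, 10), (2, 8, 10), (3, 4, 10), (3, 4, 11), (3, 5, 11), (3, 5, 12), (3, 9, 12), (4, 10, 13),
      (4, 11, 14), (4, 13, 14), (5, 7, 11), (5, 7, 15), (5, 12, 15)]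
    fin := [0, 1, 2, 3, 3, 0, 6, 0, 2, 1, 3, 3, 3, 13, 14, 15]
    chd := [(0, 1), (2, 1)]
    steps := [(0, 7), (0, 5), (1, 9), (2, 8), (3, 4), (3, 10), (3, 11), (3, 12)] }
  rep := [3, 2, 1, 0, 6, 13, 14, 15]

noncomputable def v1054 : Cov.CovD where
  P := 3
  N := 5
  pl := [0, 7, 8, 9]
  lev := [⟨[], [], [(1, 3)], [4], [(1, 3, [2]), (2, 1, [2])]⟩,
    ⟨[], [(0, 1), (0, 2), (0, 3)], [(1, 2)], [4], [(2, 1, [2]), (3, 2, [1, 3])]⟩,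
    ⟨[(0, 1)], [(0, 1), (1, 0), (1, 1), (1, 2)], [(0, 1)], [], [(2, 1, [2]), (4, 0, [])]⟩,
    ⟨[(0, 1), (1, 2)], [(1, 0), (1, 1), (1, 2), (2, 0), (2, 1), (2, 2)], [(0, 0), (0, 2)],
      [], [(3, 2, [1, 3]), (4, 0, []), (5, 0, []), (6, 0, [])]⟩,
    ⟨[(1, 3), (2, 3)], [(2, 0), (3, 0), (3, 2)], [(0, 0)], [5, 6], [(4, 0, []), (5, 0,
      [])]⟩,
    ⟨[(1, 3), (2, 3), (3, 4)], [(0, 3), (3, 0), (3, 2), (3, 3), (4, 0)], [(0, 0), (0, 3)],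
      [7], [(1, 3, [2]), (5, 0, []), (6, 0, [])]⟩]
  Ta := [((4, 2), 0, 1), ((4, 7), 0, 5), ((5, 1), 0, 3), ((5, 8), 0, 6), ((6, 3), 0, 2), ((6, 9),
    0, 7)]
  Tb := [((0, 1, 3), 4, 3, 2), ((1, 0, 2), 3, 4, 1), ((1, 0, 5), 3, 4, 0), ((1, 0, 9), 3, 4, 7),
    ((1, 2, 5), 3, 1, 0), ((1, 2, 9), 3, 1, 7), ((1, 5, 9), 3, 0, 7), ((2, 1, 4), 1, 3, 0),
    ((3, 0, 6), 2, 4, 0), ((4, 2, 7), 0, 1, 5), ((5, 1, 8), 0, 3, 6), ((6, 3, 9), 0, 2, 7),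
    ((7, 4, 8), 5, 0, 6), ((8, 5, 7), 6, 0, 5), ((9, 1, 6), 7, 3, 0)]
  Tc := [(2, 1, 3)]
  Td := [((1, 2), (2, 1), 3), ((1, 2), (2, 4), 0), ((2, 1), (3, 0), 4), ((2, 1), (3, 6), 0), ((2,
    3), (3, 0), 4), ((2, 3), (3, 6), 0), ((3, 2), (1, 0), 4), ((3, 2), (1, 2), 1), ((3, 2),
    (1, 5), 0), ((3, 2), (1, 9), 7)]
  G := [[0, 0xaaae428666e82466668c2aa68a846ce, 0, 0xe2eec4682eeec8a4c2, 0x466ea8ea48e2eeca415],
    [0, 0, 0, 0x2eeec8a16eee88c452, 0xccce24866668a16cce849666e8a81d], [0, 0,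
    0xeeae468ea6e4aa1c1, 0xe2eec4682eeec8a4c2, 0x22eecea1822eecea815]]

noncomputable def n1054 : Ent := ⟨e1054, noF, [], [], []⟩

def c1054 : PLift (Cov.check n1054.C.D v1054 = true) := ⟨by decide +kernel⟩

def b1054 : PLift (entF (fidx ts) 400 1054 n1054 = true) := ⟨by decide +kernel⟩

theorem g1054 : GoodF (fidx ts) 400 1054 := GoodF.ofV v1054 n1054 c1054.down b1054.down

/-- 464855:882/3 -/
noncomputable def e1055 : SCfg where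
  D := {
    a := 6
    L := 10
    kp := 7
    inn := [(0, 1), (1, 0), (1, 2), (1, 3), (2, 1), (2, 3), (3, 1), (3, 2), (3, 4), (3, 5), (4, 3), (5,
      3)]
    mix := [(0, 0), (0, 1), (0, 2), (1, 0), (1, 2), (1, 3), (2, 2), (2, 4), (3, 3), (3, 4), (3, 5), (3,
      6), (4, 4), (4, 5), (4, 7), (4, 8), (5, 1), (5, 5), (5, 6), (5, 9)]
    cl := [2, 4, 3, 1, 0, 0, 0, 5, 6, 7]
    chq := [(1, 3), (1, 4), (3, 1), (4, 1)]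
    rng := [(0, 1), (0, 3), (1, 0), (1, 2), (1, 6), (1, 9), (2, 1), (2, 4), (3, 0), (3, 6), (4, 2), (4,
      7), (5, 8), (5, 9), (6, 1), (6, 3), (7, 4), (7, 8), (8, 5), (8, 7), (9, 1), (9, 5)]
    lev := [] }
  links := [[1, 6, 7, 8], [6, 0, 8, 2, 3, 9], [3, 1, 8, 10], [9, 1, 2, 10, 4, 11, 5, 12], [11, 3, 10, 13,
    14], [12, 3, 11, 15, 7]]
  P := {
    a := 6
    N := 16
    nb := [450, 845, 1290, 7734, 27656, 39048, 643, 37217, 1159, 4170, 8476, 49208, 680, 17424, 10256,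
      2208]
    tri := [(0, 1, 6), (0, 1, 8), (0, 6, 7), (0, 7, 8), (1, 2, 3), (1, 2, 8), (1, 3, 9), (1, 6, 9), (2,
      3, 10), (2, 8, 10), (3, 4, 10), (3, 4, 11), (3, 5, 11), (3, 5, 12), (3, 9, 12), (4, 10, 13),
      (4, 11, 14), (4, 13, 14), (5, 7, 12), (5, 7, 15), (5, 11, 15)]
    fin := [0, 0, 2, 2, 4, 4, 6, 0, 2, 9, 4, 4, 4, 13, 14, 15]
    chd := [(0, 9), (2, 9)]
    steps := [(0, 1), (0, 7), (2, 3), (2, 8), (4, 10), (4, 11), (4, 5), (4, 12)] }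
  rep := [4, 9, 6, 2, 0, 13, 14, 15]

noncomputable def v1055 : Cov.CovD where
  P := 3
  N := 5
  pl := [0, 7, 8, 9]
  lev := [⟨[], [], [(3, 4)], [2], [(1, 4, [1]), (2, 3, [1])]⟩,
    ⟨[], [(0, 1), (0, 3), (0, 4)], [(1, 3)], [2], [(2, 3, [1]), (3, 1, [3, 4])]⟩,
    ⟨[(0, 1)], [(0, 3), (1, 0), (1, 1), (1, 3)], [(0, 3)], [], [(2, 3, [1]), (4, 0, [])]⟩,
    ⟨[(0, 1), (1, 2)], [(1, 0), (1, 1), (1, 3), (2, 0), (2, 1), (2, 3)], [(0, 0), (0, 1)],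
      [], [(3, 1, [3, 4]), (4, 0, []), (5, 0, []), (6, 0, [])]⟩,
    ⟨[(1, 3), (2, 3)], [(2, 0), (3, 0), (3, 1)], [(0, 0)], [5, 6], [(4, 0, []), (5, 0,
      [])]⟩,
    ⟨[(1, 3), (2, 3), (3, 4)], [(0, 4), (3, 0), (3, 1), (3, 4), (4, 0)], [(0, 0), (0, 4)],
      [7], [(1, 4, [1]), (5, 0, []), (6, 0, [])]⟩]
  Ta := [((4, 2), 0, 3), ((4, 7), 0, 5), ((5, 8), 0, 6), ((5, 9), 0, 7), ((6, 1), 0, 4), ((6, 3),
    0, 1)]
  Tb := [((0, 1, 3), 2, 4, 1), ((1, 0, 2), 4, 2, 3), ((1, 0, 6), 4, 2, 0), ((1, 0, 9), 4, 2, 7),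
    ((1, 2, 6), 4, 3, 0), ((1, 2, 9), 4, 3, 7), ((1, 6, 9), 4, 0, 7), ((2, 1, 4), 3, 4, 0),
    ((3, 0, 6), 1, 2, 0), ((4, 2, 7), 0, 3, 5), ((5, 8, 9), 0, 6, 7), ((6, 1, 3), 0, 4, 1),
    ((7, 4, 8), 5, 0, 6), ((8, 5, 7), 6, 0, 5), ((9, 1, 5), 7, 4, 0)]
  Tc := [(1, 3, 4)]
  Td := [((1, 3), (3, 0), 2), ((1, 3), (3, 6), 0), ((1, 4), (3, 0), 2), ((1, 4), (3, 6), 0), ((3,
    1), (2, 1), 4), ((3, 1), (2, 4), 0), ((4, 1), (1, 0), 2), ((4, 1), (1, 2), 3), ((4, 1),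
    (1, 6), 0), ((4, 1), (1, 9), 7)]
  G := [[0, 0, 0xeaee4448a6eee88846c2, 0xaaae428666e82444eaeec21d, 0xeaee4448c8ce6e2cc213], [0,
    0, 0xeaee444896eee88c1c2, 0xee6e8c211, 0x44eaeec211], [0, 0xeaee4468e2eeca1c1,
    0xeaee444894e4eaaac1c2, 0xaa6e41866ae8416eee88c21d, 0xeea486eee8e488c692]]

noncomputable def n1055 : Ent := ⟨e1055, noF, [], [], []⟩

def c1055 : PLift (Cov.check n1055.C.D v1055 = true) := ⟨by decide +kernel⟩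

def b1055 : PLift (entF (fidx ts) 400 1055 n1055 = true) := ⟨by decide +kernel⟩

theorem g1055 : GoodF (fidx ts) 400 1055 := GoodF.ofV v1055 n1055 c1055.down b1055.down

/-- 464855:882 -/
noncomputable def e1056 : SCfg where
  D := {
    a := 6
    L := 11
    kp := 8
    inn := [(0, 1), (1, 0), (1, 2), (1, 3), (2, 1), (2, 3), (3, 1), (3, 2), (3, 4), (3, 5), (4, 3), (5,
      3)]
    mix := [(0, 0), (0, 1), (0, 2), (1, 0), (1, 2), (1, 3), (2, 2), (2, 4), (3, 3), (3, 4), (3, 5), (3,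
      6), (4, 4), (4, 5), (4, 7), (4, 8), (5, 5), (5, 6), (5, 9), (5, 10)]
    cl := [2, 4, 3, 1, 0, 0, 0, 5, 6, 7, 8]
    chq := [(1, 3), (1, 4), (3, 1), (4, 1)]
    rng := [(0, 1), (0, 3), (1, 0), (1, 2), (2, 1), (2, 4), (3, 0), (3, 6), (4, 2), (4, 7), (5, 8), (5,
      9), (6, 3), (6, 10), (7, 4), (7, 8), (8, 5), (8, 7), (9, 5), (9, 10), (10, 6), (10, 9)]
    lev := [] }
  links := [[1, 6, 7, 8], [6, 0, 8, 2, 3, 9], [3, 1, 8, 10], [9, 1, 2, 10, 4, 11, 5, 12], [11, 3, 10, 13,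
    14], [12, 3, 11, 15, 16]]
  P := {
    a := 6
    N := 17
    nb := [450, 845, 1290, 7734, 27656, 104456, 643, 321, 1159, 4170, 8476, 49208, 66088, 17424,
      10256, 67616, 36896]
    tri := [(0, 1, 6), (0, 1, 8), (0, 6, 7), (0, 7, 8), (1, 2, 3), (1, 2, 8), (1, 3, 9), (1, 6, 9), (2,
      3, 10), (2, 8, 10), (3, 4, 10), (3, 4, 11), (3, 5, 11), (3, 5, 12), (3, 9, 12), (4, 10, 13),
      (4, 11, 14), (4, 13, 14), (5, 11, 15), (5, 12, 16), (5, 15, 16)]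
    fin := [0, 0, 2, 2, 4, 4, 6, 0, 2, 9, 4, 4, 4, 13, 14, 15, 16]
    chd := [(0, 9), (2, 9)]
    steps := [(0, 1), (0, 7), (2, 3), (2, 8), (4, 10), (4, 11), (4, 5), (4, 12)] }
  rep := [4, 9, 6, 2, 0, 13, 14, 15, 16]

noncomputable def v1056 : Cov.CovD where
  P := 3
  N := 6
  pl := [0, 7, 8, 9, 10]
  lev := [⟨[], [], [(3, 4)], [2], [(1, 4, [1]), (2, 3, [1])]⟩,
    ⟨[], [(0, 1), (0, 3), (0, 4)], [(1, 3)], [2], [(2, 3, [1]), (3, 1, [3, 4])]⟩,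
    ⟨[(0, 1)], [(0, 3), (1, 0), (1, 1), (1, 3)], [(0, 3)], [], [(2, 3, [1]), (4, 0, [])]⟩,
    ⟨[(0, 1), (1, 2)], [(1, 0), (1, 1), (1, 3), (2, 0), (2, 1), (2, 3)], [(0, 0), (0, 1)],
      [], [(3, 1, [3, 4]), (4, 0, []), (5, 0, []), (6, 0, [])]⟩,
    ⟨[(1, 3), (2, 3)], [(2, 0), (3, 0), (3, 1)], [(0, 0)], [5, 6], [(4, 0, []), (5, 0,
      [])]⟩,
    ⟨[(1, 3), (2, 3), (3, 4)], [(3, 0), (3, 1), (4, 0)], [(0, 0)], [7, 8], [(5, 0, []), (6,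
      0, [])]⟩]
  Ta := [((4, 2), 0, 3), ((4, 7), 0, 5), ((5, 8), 0, 6), ((5, 9), 0, 7), ((6, 3), 0, 1), ((6,
    10), 0, 8)]
  Tb := [((0, 1, 3), 2, 4, 1), ((1, 0, 2), 4, 2, 3), ((2, 1, 4), 3, 4, 0), ((3, 0, 6), 1, 2, 0),
    ((4, 2, 7), 0, 3, 5), ((5, 8, 9), 0, 6, 7), ((6, 3, 10), 0, 1, 8), ((7, 4, 8), 5, 0, 6),
    ((8, 5, 7), 6, 0, 5), ((9, 5, 10), 7, 0, 8), ((10, 6, 9), 8, 0, 7)]
  Tc := [(1, 3, 4)]
  Td := [((1, 3), (3, 0), 2), ((1, 3), (3, 6), 0), ((1, 4), (3, 0), 2), ((1, 4), (3, 6), 0), ((3,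
    1), (2, 1), 4), ((3, 1), (2, 4), 0), ((4, 1), (1, 0), 2), ((4, 1), (1, 2), 3)]
  G := [[0, 0, 0xeaee4448a6eee88846c2, 0xeaee4244844482d88446eee828842dee6e8c21d,
    0xeaee4448cee6e8c292], [0, 0, 0x44eaeec16eee88845c2, 0x44eaeec2144eaeec2144eaeec21d,
    0x6eee88cee6e8c612], [0, 0x22eecea1e2eeca4c1, 0x64e8eec16eee88c1c2,
    0x44eaeec2144eaeec216eee88c21d, 0x6eee88c44eaeec612]]

noncomputable def n1056 : Ent := ⟨e1056, noF, [], [], [(7, 13, [1685382419725355503238989871268909155780284044704628512909403738113, 0]), (7, 15, [1685356702439545624007900436039642273970977273354372543760004407297, 0]), (7, 16, [1580044410770988437309982408355971841652082177953823432505693433857, 0])]⟩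

def c1056 : PLift (Cov.check n1056.C.D v1056 = true) := ⟨by decide +kernel⟩

def b1056 : PLift (entF (fidx ts) 400 1056 n1056 = true) := ⟨by decide +kernel⟩

theorem g1056 : GoodF (fidx ts) 400 1056 := GoodF.ofV v1056 n1056 c1056.down b1056.down

/-- 459544:884/1 -/
noncomputable def e1057 : SCfg where
  D := {
    a := 6
    L := 9
    kp := 6
    inn := [(0, 1), (0, 2), (1, 0), (1, 2), (2, 0), (2, 1), (2, 3), (2, 5), (3, 2), (3, 4), (4, 3), (5,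
      2)]
    mix := [(0, 0), (0, 1), (1, 1), (1, 2), (1, 3), (2, 0), (2, 3), (2, 4), (2, 5), (2, 6), (3, 5), (3,
      6), (3, 7), (4, 6), (4, 7), (4, 8), (5, 0), (5, 6), (5, 8)]
    cl := [0, 2, 5, 0, 6, 1, 1, 3, 4]
    chq := [(0, 1), (1, 0)]
    rng := [(0, 1), (0, 8), (1, 0), (1, 2), (2, 1), (2, 3), (3, 2), (3, 4), (4, 3), (4, 5), (5, 4), (5,
      7), (6, 8), (7, 5), (7, 8), (8, 0), (8, 6), (8, 7)]
    lev := [] }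
  links := [[1, 2, 6, 7], [2, 0, 7, 8, 9], [6, 0, 1, 9, 10, 11, 3, 12, 5], [12, 2, 11, 13, 4], [12, 3,
    13, 14], [6, 2, 12, 14]]
  P := {
    a := 6
    N := 15
    nb := [198, 901, 7787, 14356, 28680, 20548, 16549, 323, 642, 1286, 2564, 9228, 16444, 18456,
      12400]
    tri := [(0, 1, 2), (0, 1, 7), (0, 2, 6), (0, 6, 7), (1, 2, 9), (1, 7, 8), (1, 8, 9), (2, 3, 11),
      (2, 3, 12), (2, 5, 6), (2, 5, 12), (2, 9, 10), (2, 10, 11), (3, 4, 12), (3, 4, 13), (3, 11,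
      13), (4, 12, 14), (4, 13, 14), (5, 6, 14), (5, 12, 14)]
    fin := [0, 0, 0, 3, 3, 0, 0, 7, 8, 0, 10, 3, 3, 13, 14]
    chd := [(0, 3)]
    steps := [(0, 1), (0, 2), (0, 5), (0, 6), (0, 9), (3, 4), (3, 11), (3, 12)] }
  rep := [0, 3, 7, 13, 14, 8, 10]

noncomputable def v1057 : Cov.CovD where
  P := 3
  N := 4
  pl := [1, 2, 4, 7, 8]
  lev := [⟨[], [], [], [2], [(0, 0, [1])]⟩,
    ⟨[], [(0, 0)], [], [2, 5], [(3, 0, [1])]⟩,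
    ⟨[(0, 1)], [(0, 0), (0, 1), (1, 0), (1, 1)], [(0, 0), (0, 1), (1, 1)], [6], [(0, 0,
      [1]), (3, 0, [1]), (5, 1, [0]), (6, 1, [0])]⟩,
    ⟨[(0, 2), (1, 2)], [(2, 0), (2, 1)], [(1, 1)], [3], [(5, 1, [0]), (6, 1, [0])]⟩,
    ⟨[(2, 3)], [(2, 1), (3, 1)], [], [3, 4], [(6, 1, [0])]⟩,
    ⟨[(0, 2), (1, 2), (2, 3)], [(0, 0), (2, 0), (2, 1), (3, 1), (4, 1)], [(0, 1)], [4],
      [(0, 0, [1]), (6, 1, [0])]⟩]
  Ta := [((0, 1), 0, 2), ((0, 8), 0, 4), ((3, 2), 0, 5), ((3, 4), 0, 6), ((5, 4), 1, 6), ((5, 7),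
    1, 3), ((6, 8), 1, 4)]
  Tb := [((0, 1, 8), 0, 2, 4), ((1, 0, 2), 2, 0, 5), ((2, 1, 3), 5, 2, 0), ((3, 2, 4), 0, 5, 6),
    ((4, 3, 5), 6, 0, 1), ((5, 4, 7), 1, 6, 3), ((7, 5, 8), 3, 1, 4), ((8, 0, 6), 4, 0, 1),
    ((8, 0, 7), 4, 0, 3), ((8, 6, 7), 4, 1, 3)]
  Tc := []
  Td := [((0, 1), (0, 1), 2), ((0, 1), (0, 8), 4), ((0, 1), (3, 2), 5), ((0, 1), (3, 4), 6), ((1,
    0), (5, 4), 6), ((1, 0), (5, 7), 3), ((1, 0), (6, 8), 4)]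
  G := [[0, 0x2432c18a14e18, 0x22c21582c219c24c215c2219c68, 0x24c4235c24259c18,
    0x24c423524c2259c18], [0, 0x612c18a14e18, 0x44419484cc1588819c84cc1584cc19ce2,
    0x44484c4c59c1884c9581c, 0x84c4c9584c4c59c12], [0, 0x4254c18c12e18, 0,
    0x12219441221512119c122198cc, 0x1211512115c1211912115ca2], [0, 0xc14a12a18e14, 0,
    0x14c11581c119c414c11581c119c8c, 0x11c11511c119c11c11581c119ca2]]

noncomputable def n1057 : Ent := ⟨e1057, noF, [], [], []⟩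

def c1057 : PLift (Cov.check n1057.C.D v1057 = true) := ⟨by decide +kernel⟩

def b1057 : PLift (entF (fidx ts) 400 1057 n1057 = true) := ⟨by decide +kernel⟩

theorem g1057 : GoodF (fidx ts) 400 1057 := GoodF.ofV v1057 n1057 c1057.down b1057.down

/-- 459544:884 -/
noncomputable def e1058 : SCfg where
  D := {
    a := 6
    L := 10
    kp := 7
    inn := [(0, 1), (0, 2), (1, 0), (1, 2), (2, 0), (2, 1), (2, 3), (2, 5), (3, 2), (3, 4), (4, 3), (5,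
      2)]
    mix := [(0, 0), (0, 1), (1, 1), (1, 2), (1, 3), (2, 0), (2, 3), (2, 4), (2, 5), (2, 6), (3, 5), (3,
      6), (3, 7), (4, 6), (4, 7), (4, 8), (5, 0), (5, 6), (5, 9)]
    cl := [0, 2, 4, 0, 5, 1, 1, 3, 6, 7]
    chq := [(0, 1), (1, 0)]
    rng := [(0, 1), (0, 9), (1, 0), (1, 2), (2, 1), (2, 3), (3, 2), (3, 4), (4, 3), (4, 5), (5, 4), (5,
      7), (6, 8), (6, 9), (7, 5), (7, 8), (8, 6), (8, 7), (9, 0), (9, 6)]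
    lev := [] }
  links := [[1, 2, 6, 7], [2, 0, 7, 8, 9], [6, 0, 1, 9, 10, 11, 3, 12, 5], [12, 2, 11, 13, 4], [12, 3,
    13, 14], [6, 2, 12, 15]]
  P := {
    a := 6
    N := 16
    nb := [198, 901, 7787, 14356, 28680, 36932, 32933, 323, 642, 1286, 2564, 9228, 49212, 18456,
      12304, 4192]
    tri := [(0, 1, 2), (0, 1, 7), (0, 2, 6), (0, 6, 7), (1, 2, 9), (1, 7, 8), (1, 8, 9), (2, 3, 11),
      (2, 3, 12), (2, 5, 6), (2, 5, 12), (2, 9, 10), (2, 10, 11), (3, 4, 12), (3, 4, 13), (3, 11,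
      13), (4, 12, 14), (4, 13, 14), (5, 6, 15), (5, 12, 15)]
    fin := [0, 0, 0, 3, 3, 0, 0, 7, 8, 0, 10, 3, 3, 13, 14, 15]
    chd := [(0, 3)]
    steps := [(0, 1), (0, 2), (0, 5), (0, 6), (0, 9), (3, 4), (3, 11), (3, 12)] }
  rep := [0, 3, 7, 13, 8, 10, 14, 15]

noncomputable def v1058 : Cov.CovD where
  P := 3
  N := 5
  pl := [1, 2, 4, 7, 8, 9]
  lev := [⟨[], [], [], [2], [(0, 0, [1])]⟩,
    ⟨[], [(0, 0)], [], [2, 4], [(3, 0, [1])]⟩,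
    ⟨[(0, 1)], [(0, 0), (0, 1), (1, 0), (1, 1)], [(0, 0), (0, 1), (1, 1)], [5], [(0, 0,
      [1]), (3, 0, [1]), (5, 1, [0]), (6, 1, [0])]⟩,
    ⟨[(0, 2), (1, 2)], [(2, 0), (2, 1)], [(1, 1)], [3], [(5, 1, [0]), (6, 1, [0])]⟩,
    ⟨[(2, 3)], [(2, 1), (3, 1)], [], [3, 6], [(6, 1, [0])]⟩,
    ⟨[(0, 2), (1, 2), (2, 3)], [(0, 0), (2, 0), (2, 1), (3, 1), (4, 1)], [(0, 1)], [7],
      [(0, 0, [1]), (6, 1, [0])]⟩]
  Ta := [((0, 1), 0, 2), ((0, 9), 0, 7), ((3, 2), 0, 4), ((3, 4), 0, 5), ((5, 4), 1, 5), ((5, 7),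
    1, 3), ((6, 8), 1, 6), ((6, 9), 1, 7)]
  Tb := [((0, 1, 9), 0, 2, 7), ((1, 0, 2), 2, 0, 4), ((2, 1, 3), 4, 2, 0), ((3, 2, 4), 0, 4, 5),
    ((4, 3, 5), 5, 0, 1), ((5, 4, 7), 1, 5, 3), ((6, 8, 9), 1, 6, 7), ((7, 5, 8), 3, 1, 6),
    ((8, 6, 7), 6, 1, 3), ((9, 0, 6), 7, 0, 1)]
  Tc := []
  Td := [((0, 1), (0, 1), 2), ((0, 1), (0, 9), 7), ((0, 1), (3, 2), 4), ((0, 1), (3, 4), 5), ((1,
    0), (5, 4), 5), ((1, 0), (5, 7), 3), ((1, 0), (6, 8), 6), ((1, 0), (6, 9), 7)]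
  G := [[0, 0x614a12a18e14, 0x22c229522c2259c22c2295c22259c68, 0xc2229522c2259c14,
    0x22c2295c22259c12], [0, 0x614a18c12e14, 0x4cccc594ccccc9588c8cccccc95c4ccc59ce2,
    0x411ccccc59c1cccc89581c, 0xccccc95ccccc59c12], [0, 0x614c18c12e18, 0,
    0x12219511c129c422c125121259c8c, 0x12229512c129c121259121295ca2], [0, 0x614a12a18e18, 0,
    0x11c11594411c119511c1159c11c11958cc, 0x11c119511c1159c11c119511c1159ca2]]

noncomputable def n1058 : Ent := ⟨e1058, noF, [], [], [(14, 15, [360035742630636841211993100915356868655746945586763691012001793, 0])]⟩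

def c1058 : PLift (Cov.check n1058.C.D v1058 = true) := ⟨by decide +kernel⟩

def b1058 : PLift (entF (fidx ts) 400 1058 n1058 = true) := ⟨by decide +kernel⟩

theorem g1058 : GoodF (fidx ts) 400 1058 := GoodF.ofV v1058 n1058 c1058.down b1058.down

/-- 459545:885/1 -/
noncomputable def e1059 : SCfg where
  D := {
    a := 6
    L := 10
    kp := 7
    inn := [(0, 1), (0, 2), (1, 0), (1, 2), (2, 0), (2, 1), (2, 3), (2, 5), (3, 2), (3, 4), (4, 3), (5,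
      2)]
    mix := [(0, 0), (0, 1), (1, 1), (1, 2), (1, 3), (2, 0), (2, 3), (2, 4), (2, 5), (2, 6), (3, 5), (3,
      6), (3, 7), (4, 6), (4, 7), (4, 8), (5, 0), (5, 6), (5, 8), (5, 9)]
    cl := [0, 2, 6, 0, 5, 3, 0, 4, 1, 7]
    chq := [(1, 3), (1, 5), (3, 1), (5, 1)]
    rng := [(0, 1), (0, 9), (1, 0), (1, 2), (2, 1), (2, 3), (3, 2), (3, 4), (4, 3), (4, 5), (5, 4), (5,
      7), (6, 8), (7, 5), (7, 8), (8, 6), (8, 7), (8, 9), (9, 0), (9, 8)]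
    lev := [] }
  links := [[1, 2, 6, 7], [2, 0, 7, 8, 9], [6, 0, 1, 9, 10, 11, 3, 12, 5], [12, 2, 11, 13, 4], [12, 3,
    13, 14], [6, 2, 12, 14, 15]]
  P := {
    a := 6
    N := 16
    nb := [198, 901, 7787, 14356, 28680, 53316, 32933, 323, 642, 1286, 2564, 9228, 16444, 18456,
      45104, 16480]
    tri := [(0, 1, 2), (0, 1, 7), (0, 2, 6), (0, 6, 7), (1, 2, 9), (1, 7, 8), (1, 8, 9), (2, 3, 11),
      (2, 3, 12), (2, 5, 6), (2, 5, 12), (2, 9, 10), (2, 10, 11), (3, 4, 12), (3, 4, 13), (3, 11,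
      13), (4, 12, 14), (4, 13, 14), (5, 6, 15), (5, 12, 14), (5, 14, 15)]
    fin := [0, 0, 2, 3, 3, 0, 0, 7, 8, 0, 2, 11, 0, 13, 3, 15]
    chd := [(2, 3), (11, 3)]
    steps := [(0, 1), (0, 6), (0, 5), (0, 9), (0, 12), (2, 10), (3, 4), (3, 14)] }
  rep := [0, 3, 7, 11, 13, 2, 8, 15]

noncomputable def v1059 : Cov.CovD where
  P := 3
  N := 5
  pl := [1, 2, 7, 9]
  lev := [⟨[], [], [], [2], [(0, 0, [])]⟩,
    ⟨[], [(0, 0)], [], [2, 6], [(3, 0, [])]⟩,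
    ⟨[(0, 1)], [(0, 0), (0, 3), (0, 5), (1, 0), (1, 3), (1, 5)], [(0, 0), (0, 3), (0, 5),
      (3, 5)], [], [(0, 0, []), (3, 0, []), (4, 5, [1]), (5, 3, [1]), (6, 0, [])]⟩,
    ⟨[(0, 2), (1, 2)], [(2, 0), (2, 3), (2, 5)], [(0, 3)], [4], [(5, 3, [1]), (6, 0, [])]⟩,
    ⟨[(2, 3)], [(2, 0), (3, 0), (3, 1), (3, 3)], [(0, 1)], [4], [(6, 0, []), (8, 1, [3,
      5])]⟩,
    ⟨[(0, 2), (1, 2), (2, 3)], [(0, 0), (2, 0), (2, 1), (2, 3), (2, 5), (3, 0), (4, 0), (4,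
      1)], [(0, 0), (0, 1)], [7], [(0, 0, []), (6, 0, []), (8, 1, [3, 5])]⟩]
  Ta := [((0, 1), 0, 2), ((0, 9), 0, 7), ((3, 2), 0, 6), ((3, 4), 0, 5), ((6, 8), 0, 1)]
  Tb := [((0, 1, 9), 0, 2, 7), ((1, 0, 2), 2, 0, 6), ((2, 1, 3), 6, 2, 0), ((3, 2, 4), 0, 6, 5),
    ((4, 3, 5), 5, 0, 3), ((5, 4, 7), 3, 5, 4), ((7, 5, 8), 4, 3, 1), ((8, 6, 7), 1, 0, 4),
    ((8, 6, 9), 1, 0, 7), ((8, 7, 9), 1, 4, 7), ((9, 0, 8), 7, 0, 1)]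
  Tc := [(1, 3, 5)]
  Td := [((1, 3), (8, 6), 0), ((1, 3), (8, 7), 4), ((1, 3), (8, 9), 7), ((1, 5), (8, 6), 0), ((1,
    5), (8, 7), 4), ((1, 5), (8, 9), 7), ((3, 1), (5, 4), 5), ((3, 1), (5, 7), 4), ((5, 1),
    (4, 3), 0), ((5, 1), (4, 5), 3)]
  G := [[0, 0, 0xc8c4c1c2f2c8c4cccd2c4, 0xc8c4cccd218, 0xc8c4cccd218], [0, 0, 0,
    0xc8c4c1c2f2c8c4cccd2c8, 0xc8c4c1c2f22252c292c8c4cccdea8], [0,
    0xaaa441666c262ea8a2aa8a4cccee1c, 0, 0x242282c8c4cccee18, 0x242282c8c4cccee18]]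

noncomputable def n1059 : Ent := ⟨e1059, noF, [], [], []⟩

def c1059 : PLift (Cov.check n1059.C.D v1059 = true) := ⟨by decide +kernel⟩

def b1059 : PLift (entF (fidx ts) 400 1059 n1059 = true) := ⟨by decide +kernel⟩

theorem g1059 : GoodF (fidx ts) 400 1059 := GoodF.ofV v1059 n1059 c1059.down b1059.down

/-- 459545:885 -/
noncomputable def e1060 : SCfg where
  D := {
    a := 6
    L := 11
    kp := 8
    inn := [(0, 1), (0, 2), (1, 0), (1, 2), (2, 0), (2, 1), (2, 3), (2, 5), (3, 2), (3, 4), (4, 3), (5,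
      2)]
    mix := [(0, 0), (0, 1), (1, 1), (1, 2), (1, 3), (2, 0), (2, 3), (2, 4), (2, 5), (2, 6), (3, 5), (3,
      6), (3, 7), (4, 6), (4, 7), (4, 8), (5, 0), (5, 6), (5, 9), (5, 10)]
    cl := [0, 3, 7, 0, 2, 1, 1, 4, 8, 5, 6]
    chq := [(2, 5), (2, 6), (5, 2), (6, 2)]
    rng := [(0, 1), (0, 10), (1, 0), (1, 2), (2, 1), (2, 3), (3, 2), (3, 4), (4, 3), (4, 5), (5, 4),
      (5, 7), (6, 8), (6, 9), (7, 5), (7, 8), (8, 6), (8, 7), (9, 6), (9, 10), (10, 0), (10, 9)]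
    lev := [] }
  links := [[1, 2, 6, 7], [2, 0, 7, 8, 9], [6, 0, 1, 9, 10, 11, 3, 12, 5], [12, 2, 11, 13, 4], [12, 3,
    13, 14], [6, 2, 12, 15, 16]]
  P := {
    a := 6
    N := 17
    nb := [198, 901, 7787, 14356, 28680, 102468, 65701, 323, 642, 1286, 2564, 9228, 49212, 18456,
      12304, 69664, 32864]
    tri := [(0, 1, 2), (0, 1, 7), (0, 2, 6), (0, 6, 7), (1, 2, 9), (1, 7, 8), (1, 8, 9), (2, 3, 11),
      (2, 3, 12), (2, 5, 6), (2, 5, 12), (2, 9, 10), (2, 10, 11), (3, 4, 12), (3, 4, 13), (3, 11,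
      13), (4, 12, 14), (4, 13, 14), (5, 6, 16), (5, 12, 15), (5, 15, 16)]
    fin := [0, 0, 2, 3, 3, 2, 0, 7, 8, 0, 2, 3, 3, 13, 14, 15, 16]
    chd := [(2, 15), (2, 16)]
    steps := [(0, 1), (0, 6), (0, 9), (2, 5), (2, 10), (3, 4), (3, 11), (3, 12)] }
  rep := [0, 3, 2, 7, 13, 15, 16, 8, 14]

noncomputable def v1060 : Cov.CovD where
  P := 3
  N := 6
  pl := [1, 2, 7, 8]
  lev := [⟨[], [], [], [3], [(0, 0, [])]⟩,
    ⟨[], [(0, 0)], [], [3, 7], [(3, 0, [])]⟩,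
    ⟨[(0, 1)], [(0, 0), (0, 1), (0, 2), (1, 0), (1, 1), (1, 2)], [(0, 0), (0, 1), (0, 2),
      (1, 1), (1, 2)], [], [(0, 0, []), (3, 0, []), (4, 2, [5, 6]), (5, 1, []), (6, 1, [])]⟩,
    ⟨[(0, 2), (1, 2)], [(2, 0), (2, 1), (2, 2)], [(1, 1)], [4], [(5, 1, []), (6, 1, [])]⟩,
    ⟨[(2, 3)], [(2, 1), (3, 1)], [], [4, 8], [(6, 1, [])]⟩,
    ⟨[(0, 2), (1, 2), (2, 3)], [(0, 0), (2, 0), (2, 1), (2, 2), (2, 5), (2, 6), (3, 1), (4,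
      1)], [(0, 1), (0, 5), (0, 6), (1, 5), (1, 6), (5, 6)], [], [(0, 0, []), (6, 1, []), (9,
      5, [2]), (10, 6, [2])]⟩]
  Ta := [((0, 1), 0, 3), ((0, 10), 0, 6), ((3, 2), 0, 7), ((3, 4), 0, 2), ((5, 4), 1, 2), ((5,
    7), 1, 4), ((6, 8), 1, 8), ((6, 9), 1, 5)]
  Tb := [((0, 1, 10), 0, 3, 6), ((1, 0, 2), 3, 0, 7), ((2, 1, 3), 7, 3, 0), ((3, 2, 4), 0, 7, 2),
    ((4, 3, 5), 2, 0, 1), ((5, 4, 7), 1, 2, 4), ((6, 8, 9), 1, 8, 5), ((7, 5, 8), 4, 1, 8),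
    ((8, 6, 7), 8, 1, 4), ((9, 6, 10), 5, 1, 6), ((10, 0, 9), 6, 0, 5)]
  Tc := [(2, 5, 6)]
  Td := [((2, 5), (4, 3), 0), ((2, 5), (4, 5), 1), ((2, 6), (4, 3), 0), ((2, 6), (4, 5), 1), ((5,
    2), (9, 6), 1), ((5, 2), (9, 10), 6), ((6, 2), (10, 0), 0), ((6, 2), (10, 9), 5)]
  G := [[0, 0x22a21c421226a4c2122a641a, 0, 0x22c2259424428219cc24428219c1a,
    0x414248d81424495844644358a6], [0, 0x22c226a424226288ca24226288c1c, 0, 0,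
    0x44c44958144c4495844c44958a6], [0, 0x282122e42442822ac21226a4e1,
    0x121195481211598411c12942e, 0xd222958424215288c22c22594a5, 0x44c425844c42584244958e1],
    [0, 0x22c22a6822c22a6822c226a4e1, 0x11c11594811c11958411c115942e, 0,
    0x44c4495844c4495844c44958e1]]

noncomputable def n1060 : Ent := ⟨e1060, noF, [], [], [(14, 15, [1685356702439545624007900436039642273970977273354372543760004427777, 0])]⟩

def c1060 : PLift (Cov.check n1060.C.D v1060 = true) := ⟨by decide +kernel⟩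

def b1060 : PLift (entF (fidx ts) 400 1060 n1060 = true) := ⟨by decide +kernel⟩

theorem g1060 : GoodF (fidx ts) 400 1060 := GoodF.ofV v1060 n1060 c1060.down b1060.down

/-- 459544:886 -/
noncomputable def e1061 : SCfg where
  D := {
    a := 6
    L := 10
    kp := 7
    inn := [(0, 1), (0, 2), (1, 0), (1, 2), (2, 0), (2, 1), (2, 3), (2, 5), (3, 2), (3, 4), (4, 3), (5,
      2)]
    mix := [(0, 0), (0, 1), (1, 1), (1, 2), (1, 3), (2, 0), (2, 3), (2, 4), (2, 5), (2, 6), (3, 4), (3,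
      5), (3, 7), (4, 5), (4, 7), (4, 8), (5, 3), (5, 4), (5, 9)]
    cl := [0, 3, 6, 0, 1, 1, 2, 4, 7, 5]
    chq := [(2, 5), (5, 2)]
    rng := [(0, 1), (0, 6), (1, 0), (1, 2), (2, 1), (2, 3), (3, 2), (3, 9), (4, 7), (4, 9), (5, 6), (5,
      8), (6, 0), (6, 5), (7, 4), (7, 8), (8, 5), (8, 7), (9, 3), (9, 4)]
    lev := [] }
  links := [[1, 2, 6, 7], [2, 0, 7, 8, 9], [6, 0, 1, 9, 5, 10, 3, 11, 12], [11, 2, 10, 13, 4], [11, 3,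
    13, 14], [10, 2, 9, 15]]
  P := {
    a := 6
    N := 16
    nb := [198, 901, 7787, 11284, 26632, 34308, 4229, 323, 642, 33062, 41004, 20508, 2116, 17432,
      10256, 1568]
    tri := [(0, 1, 2), (0, 1, 7), (0, 2, 6), (0, 6, 7), (1, 2, 9), (1, 7, 8), (1, 8, 9), (2, 3, 10),
      (2, 3, 11), (2, 5, 9), (2, 5, 10), (2, 6, 12), (2, 11, 12), (3, 4, 11), (3, 4, 13), (3, 10,
      13), (4, 11, 14), (4, 13, 14), (5, 9, 15), (5, 10, 15)]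
    fin := [0, 0, 2, 3, 3, 2, 0, 7, 8, 0, 3, 3, 12, 13, 14, 2]
    chd := [(12, 2)]
    steps := [(0, 1), (0, 6), (0, 9), (2, 5), (2, 15), (3, 4), (3, 10), (3, 11)] }
  rep := [0, 3, 12, 7, 13, 2, 8, 14]

noncomputable def v1061 : Cov.CovD where
  P := 3
  N := 5
  pl := [1, 2, 7, 8]
  lev := [⟨[], [], [], [3], [(0, 0, [])]⟩,
    ⟨[], [(0, 0)], [], [3, 6], [(3, 0, [])]⟩,
    ⟨[(0, 1)], [(0, 0), (0, 1), (0, 2), (1, 0), (1, 1), (1, 2)], [(0, 0), (0, 1), (0, 2),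
      (1, 1), (1, 2)], [], [(0, 0, []), (3, 0, []), (4, 1, []), (5, 1, []), (6, 2, [5])]⟩,
    ⟨[(0, 2), (1, 2)], [(2, 0), (2, 1), (2, 2)], [(1, 1)], [4], [(4, 1, []), (5, 1, [])]⟩,
    ⟨[(2, 3)], [(2, 1), (3, 1)], [], [4, 7], [(5, 1, [])]⟩,
    ⟨[(0, 2), (1, 2), (2, 3)], [(1, 0), (2, 0), (2, 1), (2, 2), (2, 5), (3, 1)], [(0, 1),
      (0, 5), (1, 5)], [], [(3, 0, []), (4, 1, []), (9, 5, [2])]⟩]
  Ta := [((0, 1), 0, 3), ((0, 6), 0, 2), ((3, 2), 0, 6), ((3, 9), 0, 5), ((4, 7), 1, 4), ((4, 9),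
    1, 5), ((5, 6), 1, 2), ((5, 8), 1, 7)]
  Tb := [((0, 1, 6), 0, 3, 2), ((1, 0, 2), 3, 0, 6), ((2, 1, 3), 6, 3, 0), ((3, 2, 9), 0, 6, 5),
    ((4, 7, 9), 1, 4, 5), ((5, 6, 8), 1, 2, 7), ((6, 0, 5), 2, 0, 1), ((7, 4, 8), 4, 1, 7),
    ((8, 5, 7), 7, 1, 4), ((9, 3, 4), 5, 0, 1)]
  Tc := []
  Td := [((2, 5), (6, 0), 0), ((2, 5), (6, 5), 1), ((5, 2), (9, 3), 0), ((5, 2), (9, 4), 1)]
  G := [[0, 0x22c21a4212422e8c22c21a416, 0xc2cc5941c2cc9581c, 0, 0x124495814c4258c424459816],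
    [0, 0x22c226a4124226288c2442822aca6, 0x24215288c122c2259416,
    0x24428219c124115288c21c215946a, 0x24c22958122c4495811c21958a6], [0,
    0x22c2168225223c82122a68e1, 0, 0, 0x424495842445c84244958e1], [0,
    0x2442822ac24226288c22c22a68e1, 0, 0x22c22594822c22958422c229582e,
    0x22c2295822c4495842c44958e1]]

noncomputable def n1061 : Ent := ⟨e1061, noF, [], [], []⟩

def c1061 : PLift (Cov.check n1061.C.D v1061 = true) := ⟨by decide +kernel⟩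

def b1061 : PLift (entF (fidx ts) 400 1061 n1061 = true) := ⟨by decide +kernel⟩

theorem g1061 : GoodF (fidx ts) 400 1061 := GoodF.ofV v1061 n1061 c1061.down b1061.down

/-- 464764:890/1 -/
noncomputable def e1062 : SCfg where
  D := {
    a := 6
    L := 9
    kp := 6
    inn := [(0, 1), (1, 0), (1, 2), (1, 3), (2, 1), (2, 3), (3, 1), (3, 2), (3, 4), (4, 3), (4, 5), (5,
      4)]
    mix := [(0, 0), (0, 1), (0, 2), (1, 0), (1, 2), (1, 3), (2, 2), (2, 4), (3, 3), (3, 4), (3, 5), (3,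
      6), (4, 4), (4, 5), (4, 7), (4, 8), (5, 1), (5, 4), (5, 7)]
    cl := [2, 1, 0, 0, 3, 3, 6, 4, 5]
    chq := [(1, 5), (5, 1)]
    rng := [(0, 1), (0, 3), (1, 0), (1, 2), (1, 4), (1, 7), (2, 1), (2, 4), (3, 0), (3, 6), (4, 1), (4,
      2), (5, 6), (5, 8), (6, 3), (6, 5), (7, 1), (7, 8), (8, 5), (8, 7)]
    lev := [] }
  links := [[1, 6, 7, 8], [6, 0, 8, 2, 3, 9], [3, 1, 8, 10], [9, 1, 2, 10, 4, 11, 12], [11, 3, 10, 5, 13,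
    14], [13, 4, 10, 7]]
  P := {
    a := 6
    N := 15
    nb := [450, 845, 1290, 7702, 27688, 9360, 643, 9569, 1159, 4170, 444, 20504, 2568, 16560, 10256]
    tri := [(0, 1, 6), (0, 1, 8), (0, 6, 7), (0, 7, 8), (1, 2, 3), (1, 2, 8), (1, 3, 9), (1, 6, 9), (2,
      3, 10), (2, 8, 10), (3, 4, 10), (3, 4, 11), (3, 9, 12), (3, 11, 12), (4, 5, 10), (4, 5, 13),
      (4, 11, 14), (4, 13, 14), (5, 7, 10), (5, 7, 13)]
    fin := [0, 1, 1, 3, 4, 4, 0, 4, 1, 1, 3, 3, 12, 13, 14]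
    chd := [(4, 14)]
    steps := [(0, 6), (1, 2), (1, 8), (1, 9), (3, 10), (3, 11), (4, 5), (4, 7)] }
  rep := [1, 4, 0, 3, 13, 14, 12]

noncomputable def v1062 : Cov.CovD where
  P := 3
  N := 4
  pl := [0, 6, 7]
  lev := [⟨[], [], [(0, 1)], [2], [(1, 1, [5]), (2, 0, [])]⟩,
    ⟨[], [(0, 0), (0, 1)], [(0, 0)], [2], [(2, 0, []), (3, 0, [])]⟩,
    ⟨[(0, 1)], [(0, 0), (1, 0), (1, 3)], [(0, 3)], [], [(2, 0, []), (4, 3, [])]⟩,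
    ⟨[(0, 1), (1, 2)], [(1, 0), (1, 3), (2, 0), (2, 3)], [(0, 3), (3, 3)], [6], [(3, 0,
      []), (4, 3, []), (5, 3, [])]⟩,
    ⟨[(1, 3), (2, 3)], [(2, 3), (3, 0), (3, 3), (3, 5)], [(3, 3), (3, 5)], [4], [(4, 3,
      []), (5, 3, []), (8, 5, [1])]⟩,
    ⟨[(3, 4)], [(0, 1), (2, 3), (3, 3), (4, 1), (4, 3), (4, 5)], [(1, 3)], [4], [(1, 1,
      [5]), (4, 3, [])]⟩]
  Ta := [((2, 1), 0, 1), ((2, 4), 0, 3), ((3, 0), 0, 2), ((3, 6), 0, 6), ((4, 1), 3, 1), ((4, 2),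
    3, 0), ((5, 6), 3, 6), ((5, 8), 3, 5)]
  Tb := [((0, 1, 3), 2, 1, 0), ((1, 0, 2), 1, 2, 0), ((1, 0, 4), 1, 2, 3), ((1, 0, 7), 1, 2, 4),
    ((1, 2, 4), 1, 0, 3), ((1, 2, 7), 1, 0, 4), ((1, 4, 7), 1, 3, 4), ((2, 1, 4), 0, 1, 3),
    ((3, 0, 6), 0, 2, 6), ((4, 1, 2), 3, 1, 0), ((5, 6, 8), 3, 6, 5), ((6, 3, 5), 6, 0, 3),
    ((7, 1, 8), 4, 1, 5), ((8, 5, 7), 5, 3, 4)]
  Tc := []
  Td := [((1, 5), (1, 0), 2), ((1, 5), (1, 2), 0), ((1, 5), (1, 4), 3), ((1, 5), (1, 7), 4), ((5,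
    1), (8, 5), 3), ((5, 1), (8, 7), 4)]
  G := [[0, 0xc1e1ca1e1a684, 0, 0xc22c2529a44, 0x4c17881d89ab8c1b114567c28], [0, 0xa1a1a1e484,
    0, 0x921248, 0x111111889ef428], [0, 0, 0x8da215491f8951f415e168, 0x52d2619288c8,
    0x8951f84d1f615491f81a8], [0, 0, 0x148b51344c1fe1844168, 0x925252e841,
    0x8138491f64458b14c2a8]]

noncomputable def n1062 : Ent := ⟨e1062, noF, [], [], []⟩

def c1062 : PLift (Cov.check n1062.C.D v1062 = true) := ⟨by decide +kernel⟩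

def b1062 : PLift (entF (fidx ts) 400 1062 n1062 = true) := ⟨by decide +kernel⟩

theorem g1062 : GoodF (fidx ts) 400 1062 := GoodF.ofV v1062 n1062 c1062.down b1062.down

/-- 464764:890/3 -/
noncomputable def e1063 : SCfg where
  D := {
    a := 6
    L := 8
    kp := 5
    inn := [(0, 1), (1, 0), (1, 2), (1, 3), (2, 1), (2, 3), (3, 1), (3, 2), (3, 4), (4, 3), (4, 5), (5,
      4)]
    mix := [(0, 0), (0, 1), (0, 2), (1, 0), (1, 2), (1, 3), (2, 2), (2, 4), (3, 3), (3, 4), (3, 5), (3,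
      6), (4, 1), (4, 4), (4, 5), (4, 7), (5, 1), (5, 2), (5, 4)]
    cl := [2, 3, 0, 0, 1, 1, 4, 5]
    chq := [(1, 3), (3, 1)]
    rng := [(0, 1), (0, 3), (1, 0), (1, 2), (1, 7), (2, 1), (2, 4), (3, 0), (3, 6), (4, 2), (5, 6), (5,
      7), (6, 3), (6, 5), (7, 1), (7, 5)]
    lev := [] }
  links := [[1, 6, 7, 8], [6, 0, 8, 2, 3, 9], [3, 1, 8, 10], [9, 1, 2, 10, 4, 11, 12], [11, 3, 10, 5, 7,
    13], [7, 4, 10, 8]]
  P := {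
    a := 6
    N := 14
    nb := [450, 845, 1290, 7702, 11432, 1424, 643, 8561, 1191, 4170, 316, 12312, 2568, 2192]
    tri := [(0, 1, 6), (0, 1, 8), (0, 6, 7), (0, 7, 8), (1, 2, 3), (1, 2, 8), (1, 3, 9), (1, 6, 9), (2,
      3, 10), (2, 8, 10), (3, 4, 10), (3, 4, 11), (3, 9, 12), (3, 11, 12), (4, 5, 7), (4, 5, 10),
      (4, 7, 13), (4, 11, 13), (5, 7, 8), (5, 8, 10)]
    fin := [0, 0, 2, 2, 4, 5, 0, 5, 2, 2, 4, 4, 12, 13]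
    chd := [(5, 4)]
    steps := [(0, 1), (0, 6), (2, 3), (2, 8), (2, 9), (4, 10), (4, 11), (5, 7)] }
  rep := [2, 4, 0, 5, 12, 13]

noncomputable def v1063 : Cov.CovD where
  P := 3
  N := 3
  pl := [0, 6, 7]
  lev := [⟨[], [], [(0, 3)], [2], [(1, 3, [1]), (2, 0, [])]⟩,
    ⟨[], [(0, 0), (0, 3)], [(0, 0)], [2], [(2, 0, []), (3, 0, [])]⟩,
    ⟨[(0, 1)], [(0, 0), (1, 0), (1, 1)], [(0, 1)], [], [(2, 0, []), (4, 1, [3])]⟩,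
    ⟨[(0, 1), (1, 2)], [(1, 0), (1, 1), (2, 0), (2, 1)], [(0, 1), (1, 1)], [4], [(3, 0,
      []), (4, 1, [3]), (5, 1, [3])]⟩,
    ⟨[(1, 3), (2, 3)], [(0, 3), (2, 1), (3, 0), (3, 1), (3, 3)], [(1, 1), (1, 3)], [5],
      [(1, 3, [1]), (4, 1, [3]), (5, 1, [3])]⟩,
    ⟨[(3, 4)], [(0, 0), (0, 3), (1, 0), (2, 0), (2, 1), (3, 1), (4, 0), (4, 1), (4, 3)],
      [(0, 1), (0, 3), (1, 3)], [], [(1, 3, [1]), (2, 0, []), (4, 1, [3])]⟩]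
  Ta := [((2, 1), 0, 3), ((2, 4), 0, 1), ((3, 0), 0, 2), ((3, 6), 0, 4), ((4, 2), 1, 0), ((5, 6),
    1, 4), ((5, 7), 1, 5)]
  Tb := [((0, 1, 3), 2, 3, 0), ((1, 0, 2), 3, 2, 0), ((1, 0, 7), 3, 2, 5), ((1, 2, 7), 3, 0, 5),
    ((2, 1, 4), 0, 3, 1), ((3, 0, 6), 0, 2, 4), ((5, 6, 7), 1, 4, 5), ((6, 3, 5), 4, 0, 1),
    ((7, 1, 5), 5, 3, 1)]
  Tc := []
  Td := [((1, 3), (4, 2), 0), ((1, 3), (5, 6), 4), ((1, 3), (5, 7), 5), ((3, 1), (1, 0), 2), ((3,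
    1), (1, 2), 0), ((3, 1), (1, 7), 5)]
  G := [[0, 0x82a88a684446446a84c, 0, 0x818188d8441445418c8c, 0xc1c184cd482], [0, 0, 0,
    0x212188d8421445418a8c, 0x212184cd482], [0, 0, 0x8c9414cd8c144862,
    0x18844144884c58c9c48d, 0x81cd44c5891884a2], [0, 0, 0x1442642d829c1c2,
    0x24482294222d8cc1, 0x4658a2dc288c21]]

noncomputable def n1063 : Ent := ⟨e1063, noF, [], [], []⟩

def c1063 : PLift (Cov.check n1063.C.D v1063 = true) := ⟨by decide +kernel⟩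

def b1063 : PLift (entF (fidx ts) 400 1063 n1063 = true) := ⟨by decide +kernel⟩

theorem g1063 : GoodF (fidx ts) 400 1063 := GoodF.ofV v1063 n1063 c1063.down b1063.down

/-- 464764:890/2 -/
noncomputable def e1064 : SCfg where
  D := {
    a := 6
    L := 9
    kp := 6
    inn := [(0, 1), (1, 0), (1, 2), (1, 3), (2, 1), (2, 3), (3, 1), (3, 2), (3, 4), (4, 3), (4, 5), (5,
      4)]
    mix := [(0, 0), (0, 1), (0, 2), (1, 0), (1, 2), (1, 3), (2, 2), (2, 4), (3, 3), (3, 4), (3, 5), (3,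
      6), (4, 1), (4, 4), (4, 5), (4, 7), (5, 1), (5, 4), (5, 8)]
    cl := [2, 3, 0, 0, 1, 1, 6, 4, 5]
    chq := [(4, 5), (5, 4)]
    rng := [(0, 1), (0, 3), (1, 0), (1, 2), (1, 7), (1, 8), (2, 1), (2, 4), (3, 0), (3, 6), (4, 2), (4,
      8), (5, 6), (5, 7), (6, 3), (6, 5), (7, 1), (7, 5), (8, 1), (8, 4)]
    lev := [] }
  links := [[1, 6, 7, 8], [6, 0, 8, 2, 3, 9], [3, 1, 8, 10], [9, 1, 2, 10, 4, 11, 12], [11, 3, 10, 5, 7,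
    13], [7, 4, 10, 14]]
  P := {
    a := 6
    N := 15
    nb := [450, 845, 1290, 7702, 11432, 17552, 643, 24945, 1159, 4170, 16700, 12312, 2568, 2192, 1184]
    tri := [(0, 1, 6), (0, 1, 8), (0, 6, 7), (0, 7, 8), (1, 2, 3), (1, 2, 8), (1, 3, 9), (1, 6, 9), (2,
      3, 10), (2, 8, 10), (3, 4, 10), (3, 4, 11), (3, 9, 12), (3, 11, 12), (4, 5, 7), (4, 5, 10),
      (4, 7, 13), (4, 11, 13), (5, 7, 14), (5, 10, 14)]
    fin := [0, 1, 1, 3, 4, 4, 0, 7, 1, 1, 3, 3, 12, 13, 4]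
    chd := [(13, 4)]
    steps := [(0, 6), (1, 2), (1, 8), (1, 9), (3, 10), (3, 11), (4, 5), (4, 14)] }
  rep := [1, 3, 0, 7, 13, 4, 12]

noncomputable def v1064 : Cov.CovD where
  P := 3
  N := 4
  pl := [0, 1, 6]
  lev := [⟨[], [], [], [2, 3], [(2, 0, [])]⟩,
    ⟨[], [(0, 0)], [(0, 0)], [2], [(2, 0, []), (3, 0, [])]⟩,
    ⟨[(0, 1)], [(0, 0), (1, 0), (1, 1)], [(0, 1)], [], [(2, 0, []), (4, 1, [])]⟩,
    ⟨[(0, 1), (1, 2)], [(1, 0), (1, 1), (2, 0), (2, 1)], [(0, 1), (1, 1)], [6], [(3, 0,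
      []), (4, 1, []), (5, 1, [])]⟩,
    ⟨[(1, 3), (2, 3)], [(2, 1), (3, 0), (3, 1), (3, 4)], [(1, 1), (1, 4)], [3], [(4, 1,
      []), (5, 1, []), (7, 4, [5])]⟩,
    ⟨[(3, 4)], [(2, 1), (3, 1), (4, 1), (4, 4), (4, 5)], [(1, 5)], [3], [(4, 1, []), (8, 5,
      [4])]⟩]
  Ta := [((2, 1), 0, 3), ((2, 4), 0, 1), ((3, 0), 0, 2), ((3, 6), 0, 6), ((4, 2), 1, 0), ((4, 8),
    1, 5), ((5, 6), 1, 6), ((5, 7), 1, 4)]
  Tb := [((0, 1, 3), 2, 3, 0), ((1, 0, 2), 3, 2, 0), ((1, 0, 7), 3, 2, 4), ((1, 0, 8), 3, 2, 5),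
    ((1, 2, 7), 3, 0, 4), ((1, 2, 8), 3, 0, 5), ((1, 7, 8), 3, 4, 5), ((2, 1, 4), 0, 3, 1),
    ((3, 0, 6), 0, 2, 6), ((4, 2, 8), 1, 0, 5), ((5, 6, 7), 1, 6, 4), ((6, 3, 5), 6, 0, 1),
    ((7, 1, 5), 4, 3, 1), ((8, 1, 4), 5, 3, 1)]
  Tc := []
  Td := [((4, 5), (7, 1), 3), ((4, 5), (7, 5), 1), ((5, 4), (8, 1), 3), ((5, 4), (8, 4), 1)]
  G := [[0, 0x68a68a648a46a46a84c, 0, 0x8158548184c414194d48c, 0x58c142c1c114d42a], [0, 0, 0,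
    0x212128d844141c29412cc, 0x68c142212124d42a], [0, 0, 0x189189c14145145c18c,
    0x14481c51c9c188cc1, 0x14411cd1c9cc21], [0, 0, 0x145145c18229229c146, 0x12ad41c58a1882c1,
    0x165116dc188c21]]

noncomputable def n1064 : Ent := ⟨e1064, noF, [], [], [(8, 14, [81620716623019490593592230936445690773474979418095887740929, 0])]⟩

def c1064 : PLift (Cov.check n1064.C.D v1064 = true) := ⟨by decide +kernel⟩

def b1064 : PLift (entF (fidx ts) 400 1064 n1064 = true) := ⟨by decide +kernel⟩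

theorem g1064 : GoodF (fidx ts) 400 1064 := GoodF.ofV v1064 n1064 c1064.down b1064.down

/-- 464764:890/4 -/
noncomputable def e1065 : SCfg where
  D := {
    a := 6
    L := 9
    kp := 6
    inn := [(0, 1), (1, 0), (1, 2), (1, 3), (2, 1), (2, 3), (3, 1), (3, 2), (3, 4), (4, 3), (4, 5), (5,
      4)]
    mix := [(0, 0), (0, 1), (0, 2), (1, 0), (1, 2), (1, 3), (2, 2), (2, 4), (3, 3), (3, 4), (3, 5), (3,
      6), (4, 4), (4, 5), (4, 7), (4, 8), (5, 2), (5, 4), (5, 7)]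
    cl := [2, 5, 0, 0, 1, 1, 6, 3, 4]
    chq := [(0, 4), (4, 0)]
    rng := [(0, 1), (0, 3), (1, 0), (1, 2), (2, 1), (2, 4), (2, 7), (3, 0), (3, 6), (4, 2), (5, 6), (5,
      8), (6, 3), (6, 5), (7, 2), (7, 8), (8, 5), (8, 7)]
    lev := [] }
  links := [[1, 6, 7, 8], [6, 0, 8, 2, 3, 9], [3, 1, 8, 10], [9, 1, 2, 10, 4, 11, 12], [11, 3, 10, 5, 13,
    14], [13, 4, 10, 8]]
  P := {
    a := 6
    N := 15
    nb := [450, 845, 1290, 7702, 27688, 9488, 643, 321, 9383, 4170, 316, 20504, 2568, 16688, 10256]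
    tri := [(0, 1, 6), (0, 1, 8), (0, 6, 7), (0, 7, 8), (1, 2, 3), (1, 2, 8), (1, 3, 9), (1, 6, 9), (2,
      3, 10), (2, 8, 10), (3, 4, 10), (3, 4, 11), (3, 9, 12), (3, 11, 12), (4, 5, 10), (4, 5, 13),
      (4, 11, 14), (4, 13, 14), (5, 8, 10), (5, 8, 13)]
    fin := [0, 1, 1, 3, 1, 1, 0, 7, 1, 1, 3, 3, 12, 13, 14]
    chd := [(1, 14)]
    steps := [(0, 6), (1, 2), (1, 8), (1, 5), (1, 9), (3, 10), (1, 4), (3, 11)] }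
  rep := [1, 3, 0, 13, 14, 7, 12]

noncomputable def v1065 : Cov.CovD where
  P := 3
  N := 4
  pl := [0, 1, 6, 7]
  lev := [⟨[], [], [], [2, 5], [(2, 0, [4])]⟩,
    ⟨[], [(0, 0)], [(0, 0)], [2], [(2, 0, [4]), (3, 0, [4])]⟩,
    ⟨[(0, 1)], [(0, 0), (1, 0), (1, 1)], [(0, 1)], [], [(2, 0, [4]), (4, 1, [])]⟩,
    ⟨[(0, 1), (1, 2)], [(1, 0), (1, 1), (2, 0), (2, 1)], [(0, 1), (1, 1)], [6], [(3, 0,
      [4]), (4, 1, []), (5, 1, [])]⟩,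
    ⟨[(1, 3), (2, 3)], [(2, 1), (3, 0), (3, 1), (3, 4)], [(1, 1), (1, 4)], [3], [(4, 1,
      []), (5, 1, []), (8, 4, [0])]⟩,
    ⟨[(3, 4)], [(0, 0), (1, 0), (2, 0), (2, 1), (3, 1), (4, 0), (4, 1), (4, 4)], [(0, 1)],
      [3], [(2, 0, [4]), (4, 1, [])]⟩]
  Ta := [((2, 1), 0, 5), ((2, 4), 0, 1), ((2, 7), 0, 3), ((3, 0), 0, 2), ((3, 6), 0, 6), ((4, 2),
    1, 0), ((5, 6), 1, 6), ((5, 8), 1, 4)]
  Tb := [((0, 1, 3), 2, 5, 0), ((1, 0, 2), 5, 2, 0), ((2, 1, 4), 0, 5, 1), ((2, 1, 7), 0, 5, 3),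
    ((2, 4, 7), 0, 1, 3), ((3, 0, 6), 0, 2, 6), ((5, 6, 8), 1, 6, 4), ((6, 3, 5), 6, 0, 1),
    ((7, 2, 8), 3, 0, 4), ((8, 5, 7), 4, 1, 3)]
  Tc := []
  Td := [((0, 4), (2, 1), 5), ((0, 4), (2, 4), 1), ((0, 4), (2, 7), 3), ((0, 4), (3, 0), 2), ((0,
    4), (3, 6), 6), ((4, 0), (8, 5), 1), ((4, 0), (8, 7), 3)]
  G := [[0, 0x42682a84ce8442682a84ce28c, 0, 0xc1c188cd84c1c184cd48c, 0xc1c184cd82c1c184cd82a],
    [0, 0, 0, 0x2184c542188c2184c5218c8c, 0x212184cd82212184cd42a], [0, 0, 0xc1c1c84c1c1c82a,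
    0xc1c1c841, 0xc1c1c481], [0, 0, 0x61a1c1461c1c14a, 0xa1a1c841, 0x6161c481]]

noncomputable def n1065 : Ent := ⟨e1065, noF, [], [], [(7, 13, [87897818358406171357428020359653357189577334862559922253825, 0])]⟩

def c1065 : PLift (Cov.check n1065.C.D v1065 = true) := ⟨by decide +kernel⟩

def b1065 : PLift (entF (fidx ts) 400 1065 n1065 = true) := ⟨by decide +kernel⟩

theorem g1065 : GoodF (fidx ts) 400 1065 := GoodF.ofV v1065 n1065 c1065.down b1065.down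

/-- 464764:890 -/
noncomputable def e1066 : SCfg where
  D := {
    a := 6
    L := 10
    kp := 7
    inn := [(0, 1), (1, 0), (1, 2), (1, 3), (2, 1), (2, 3), (3, 1), (3, 2), (3, 4), (4, 3), (4, 5), (5,
      4)]
    mix := [(0, 0), (0, 1), (0, 2), (1, 0), (1, 2), (1, 3), (2, 2), (2, 4), (3, 3), (3, 4), (3, 5), (3,
      6), (4, 4), (4, 5), (4, 7), (4, 8), (5, 4), (5, 7), (5, 9)]
    cl := [2, 6, 0, 0, 1, 1, 7, 3, 4, 5]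
    chq := [(4, 5), (5, 4)]
    rng := [(0, 1), (0, 3), (1, 0), (1, 2), (2, 1), (2, 4), (3, 0), (3, 6), (4, 2), (4, 9), (5, 6), (5,
      8), (6, 3), (6, 5), (7, 8), (7, 9), (8, 5), (8, 7), (9, 4), (9, 7)]
    lev := [] }
  links := [[1, 6, 7, 8], [6, 0, 8, 2, 3, 9], [3, 1, 8, 10], [9, 1, 2, 10, 4, 11, 12], [11, 3, 10, 5, 13,
    14], [13, 4, 10, 15]]
  P := {
    a := 6
    N := 16
    nb := [450, 845, 1290, 7702, 27688, 42000, 643, 321, 1159, 4170, 33084, 20504, 2568, 49200, 10256,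
      9248]
    tri := [(0, 1, 6), (0, 1, 8), (0, 6, 7), (0, 7, 8), (1, 2, 3), (1, 2, 8), (1, 3, 9), (1, 6, 9), (2,
      3, 10), (2, 8, 10), (3, 4, 10), (3, 4, 11), (3, 9, 12), (3, 11, 12), (4, 5, 10), (4, 5, 13),
      (4, 11, 14), (4, 13, 14), (5, 10, 15), (5, 13, 15)]
    fin := [0, 1, 1, 3, 4, 4, 0, 7, 1, 1, 3, 3, 12, 13, 14, 4]
    chd := [(14, 4)]
    steps := [(0, 6), (1, 2), (1, 8), (1, 9), (3, 10), (3, 11), (4, 5), (4, 15)] }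
  rep := [1, 3, 0, 13, 14, 4, 7, 12]

noncomputable def v1066 : Cov.CovD where
  P := 3
  N := 5
  pl := [0, 1, 6, 7]
  lev := [⟨[], [], [], [2, 6], [(2, 0, [])]⟩,
    ⟨[], [(0, 0)], [(0, 0)], [2], [(2, 0, []), (3, 0, [])]⟩,
    ⟨[(0, 1)], [(0, 0), (1, 0), (1, 1)], [(0, 1)], [], [(2, 0, []), (4, 1, [])]⟩,
    ⟨[(0, 1), (1, 2)], [(1, 0), (1, 1), (2, 0), (2, 1)], [(0, 1), (1, 1)], [7], [(3, 0,
      []), (4, 1, []), (5, 1, [])]⟩,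
    ⟨[(1, 3), (2, 3)], [(2, 1), (3, 0), (3, 1), (3, 4)], [(1, 1), (1, 4)], [3], [(4, 1,
      []), (5, 1, []), (8, 4, [5])]⟩,
    ⟨[(3, 4)], [(2, 1), (3, 1), (4, 1), (4, 4), (4, 5)], [(1, 5)], [3], [(4, 1, []), (9, 5,
      [4])]⟩]
  Ta := [((2, 1), 0, 6), ((2, 4), 0, 1), ((3, 0), 0, 2), ((3, 6), 0, 7), ((4, 2), 1, 0), ((4, 9),
    1, 5), ((5, 6), 1, 7), ((5, 8), 1, 4)]
  Tb := [((0, 1, 3), 2, 6, 0), ((1, 0, 2), 6, 2, 0), ((2, 1, 4), 0, 6, 1), ((3, 0, 6), 0, 2, 7),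
    ((4, 2, 9), 1, 0, 5), ((5, 6, 8), 1, 7, 4), ((6, 3, 5), 7, 0, 1), ((7, 8, 9), 3, 4, 5),
    ((8, 5, 7), 4, 1, 3), ((9, 4, 7), 5, 1, 3)]
  Tc := []
  Td := [((4, 5), (8, 5), 1), ((4, 5), (8, 7), 3), ((5, 4), (9, 4), 1), ((5, 4), (9, 7), 3)]
  G := [[0, 0xac66ca6ace24ac626ace68aa4c, 0, 0xc1c159cd8459c1c1c1cc8c, 0xc1c159cd42c1c159cd42a],
    [0, 0, 0, 0x216ac542188c21215acd48c, 0x212169cd826123c5c18a8a], [0, 0,
    0x9c559cdc588c29c559cdc588926, 0x59cd49c58c5884c1, 0x94459cd5c9cc21], [0, 0,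
    0x32cd3a9c24452692d43c58c2881cc, 0x32cd482a58388cc1, 0x6a2d45a2d8c21]]

noncomputable def n1066 : Ent := ⟨e1066, noF, [], [], [(7, 15, [360035742630636841211993100915356868655746945586763691012022273, 0]), (7, 13, [385753028440516072301428330182238677962518295842732840411365377, 0]), (8, 15, [360035742630636841211993100915356868655746945586763691012034561, 0])]⟩

def c1066 : PLift (Cov.check n1066.C.D v1066 = true) := ⟨by decide +kernel⟩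

def b1066 : PLift (entF (fidx ts) 400 1066 n1066 = true) := ⟨by decide +kernel⟩

theorem g1066 : GoodF (fidx ts) 400 1066 := GoodF.ofV v1066 n1066 c1066.down b1066.down

/-- 464764:891/2 -/
noncomputable def e1067 : SCfg where
  D := {
    a := 6
    L := 8
    kp := 5
    inn := [(0, 1), (1, 0), (1, 2), (1, 3), (2, 1), (2, 3), (3, 1), (3, 2), (3, 4), (4, 3), (4, 5), (5,
      4)]
    mix := [(0, 0), (0, 1), (0, 2), (1, 0), (1, 2), (1, 3), (2, 2), (2, 4), (3, 3), (3, 4), (3, 5), (3,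
      6), (4, 1), (4, 4), (4, 5), (4, 7), (5, 0), (5, 1), (5, 7)]
    cl := [3, 0, 2, 1, 1, 0, 5, 4]
    chq := [(2, 3), (3, 2)]
    rng := [(0, 1), (0, 3), (0, 7), (1, 0), (1, 2), (1, 4), (2, 1), (2, 4), (3, 0), (3, 6), (4, 1), (4,
      2), (5, 6), (5, 7), (6, 3), (6, 5), (7, 0), (7, 5)]
    lev := [] }
  links := [[1, 6, 7, 8], [6, 0, 8, 2, 3, 9], [3, 1, 8, 10], [9, 1, 2, 10, 4, 11, 12], [11, 3, 10, 7, 5,
    13], [13, 4, 7, 6]]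
  P := {
    a := 6
    N := 14
    nb := [450, 845, 1290, 7702, 11432, 8400, 8867, 1393, 1159, 4170, 412, 12312, 2568, 2160]
    tri := [(0, 1, 6), (0, 1, 8), (0, 6, 7), (0, 7, 8), (1, 2, 3), (1, 2, 8), (1, 3, 9), (1, 6, 9), (2,
      3, 10), (2, 8, 10), (3, 4, 10), (3, 4, 11), (3, 9, 12), (3, 11, 12), (4, 5, 7), (4, 5, 13),
      (4, 7, 10), (4, 11, 13), (5, 6, 7), (5, 6, 13)]
    fin := [0, 0, 0, 3, 4, 0, 0, 4, 8, 3, 3, 4, 12, 13]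
    chd := [(0, 8)]
    steps := [(0, 1), (0, 2), (0, 6), (0, 5), (3, 10), (3, 9), (4, 7), (4, 11)] }
  rep := [4, 3, 8, 0, 13, 12]

noncomputable def v1067 : Cov.CovD where
  P := 3
  N := 3
  pl := [6, 7]
  lev := [⟨[], [], [(0, 2), (0, 3), (2, 3)], [], [(0, 3, [2]), (1, 0, []), (2, 2, [3])]⟩,
    ⟨[], [(0, 0), (0, 1), (0, 2), (0, 3)], [(1, 2), (1, 3), (2, 3)], [], [(0, 3, [2]), (2,
      2, [3]), (3, 1, [])]⟩,
    ⟨[(0, 1)], [(0, 2), (1, 1), (1, 2), (1, 3)], [(1, 2)], [], [(2, 2, [3]), (4, 1, [])]⟩,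
    ⟨[(0, 1), (1, 2)], [(1, 0), (1, 1), (1, 2), (1, 3), (2, 0), (2, 1), (2, 2)], [(0, 1),
      (1, 1)], [5], [(3, 1, []), (4, 1, []), (5, 0, [])]⟩,
    ⟨[(1, 3), (2, 3)], [(0, 0), (2, 1), (3, 0), (3, 1)], [(0, 0), (0, 1)], [4], [(1, 0,
      []), (4, 1, []), (5, 0, [])]⟩,
    ⟨[(3, 4)], [(0, 0), (0, 3), (1, 3), (4, 0), (4, 1), (4, 3)], [(0, 3)], [4], [(0, 3,
      [2]), (1, 0, [])]⟩]
  Ta := [((1, 0), 0, 3), ((1, 2), 0, 2), ((1, 4), 0, 1), ((3, 0), 1, 3), ((3, 6), 1, 5), ((4, 1),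
    1, 0), ((4, 2), 1, 2), ((5, 6), 0, 5), ((5, 7), 0, 4)]
  Tb := [((0, 1, 3), 3, 0, 1), ((0, 1, 7), 3, 0, 4), ((0, 3, 7), 3, 1, 4), ((1, 0, 2), 0, 3, 2),
    ((1, 0, 4), 0, 3, 1), ((1, 2, 4), 0, 2, 1), ((2, 1, 4), 2, 0, 1), ((3, 0, 6), 1, 3, 5),
    ((4, 1, 2), 1, 0, 2), ((5, 6, 7), 0, 5, 4), ((6, 3, 5), 5, 1, 0), ((7, 0, 5), 4, 3, 0)]
  Tc := []
  Td := [((2, 3), (2, 1), 0), ((2, 3), (2, 4), 1), ((3, 2), (0, 1), 0), ((3, 2), (0, 3), 1), ((3,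
    2), (0, 7), 4)]
  G := [[0, 0, 0x86c14864a144a, 0, 0x86c12824c64ac11a], [0, 0x82682ac4142624ca81c,
    0x82c1424c14c2, 0x82c14824c184c, 0x82c1824c62cc192], [0, 0, 0, 0, 0x9292c1121c21cc21a],
    [0, 0, 0, 0x1481cc2889124c28c14451c, 0x21c12cc112]]

noncomputable def n1067 : Ent := ⟨e1067, noF, [], [], []⟩

def c1067 : PLift (Cov.check n1067.C.D v1067 = true) := ⟨by decide +kernel⟩

def b1067 : PLift (entF (fidx ts) 400 1067 n1067 = true) := ⟨by decide +kernel⟩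

theorem g1067 : GoodF (fidx ts) 400 1067 := GoodF.ofV v1067 n1067 c1067.down b1067.down

/-- 464764:891/1 -/
noncomputable def e1068 : SCfg where
  D := {
    a := 6
    L := 9
    kp := 6
    inn := [(0, 1), (1, 0), (1, 2), (1, 3), (2, 1), (2, 3), (3, 1), (3, 2), (3, 4), (4, 3), (4, 5), (5,
      4)]
    mix := [(0, 0), (0, 1), (0, 2), (1, 0), (1, 2), (1, 3), (2, 2), (2, 4), (3, 3), (3, 4), (3, 5), (3,
      6), (4, 4), (4, 5), (4, 7), (4, 8), (5, 0), (5, 7), (5, 8)]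
    cl := [2, 5, 0, 0, 1, 1, 6, 3, 4]
    chq := [(1, 2), (2, 1)]
    rng := [(0, 1), (0, 3), (0, 7), (0, 8), (1, 0), (1, 2), (2, 1), (2, 4), (3, 0), (3, 6), (4, 2), (4,
      7), (5, 6), (5, 8), (6, 3), (6, 5), (7, 0), (7, 4), (8, 0), (8, 5)]
    lev := [] }
  links := [[1, 6, 7, 8], [6, 0, 8, 2, 3, 9], [3, 1, 8, 10], [9, 1, 2, 10, 4, 11, 12], [11, 3, 10, 13, 5,
    14], [14, 4, 13, 6]]
  P := {
    a := 6
    N := 15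
    nb := [450, 845, 1290, 7702, 27688, 24656, 25251, 321, 1159, 4170, 8476, 20504, 2568, 1136, 2160]
    tri := [(0, 1, 6), (0, 1, 8), (0, 6, 7), (0, 7, 8), (1, 2, 3), (1, 2, 8), (1, 3, 9), (1, 6, 9), (2,
      3, 10), (2, 8, 10), (3, 4, 10), (3, 4, 11), (3, 9, 12), (3, 11, 12), (4, 5, 13), (4, 5, 14),
      (4, 10, 13), (4, 11, 14), (5, 6, 13), (5, 6, 14)]
    fin := [0, 0, 2, 2, 4, 0, 0, 7, 2, 2, 4, 4, 12, 13, 14]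
    chd := [(0, 4)]
    steps := [(0, 1), (0, 6), (0, 5), (2, 3), (2, 8), (2, 9), (4, 10), (4, 11)] }
  rep := [2, 4, 0, 13, 14, 7, 12]

noncomputable def v1068 : Cov.CovD where
  P := 3
  N := 4
  pl := [1, 6, 7, 8]
  lev := [⟨[], [], [(0, 2)], [5], [(0, 2, [1]), (2, 0, [])]⟩,
    ⟨[], [(0, 0), (0, 2)], [(0, 0), (0, 2)], [], [(0, 2, [1]), (2, 0, []), (3, 0, [])]⟩,
    ⟨[(0, 1)], [(0, 0), (1, 0), (1, 1), (1, 2)], [(0, 1)], [], [(2, 0, []), (4, 1, [2])]⟩,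
    ⟨[(0, 1), (1, 2)], [(1, 0), (1, 1), (1, 2), (2, 0), (2, 1)], [(0, 1), (1, 1)], [6],
      [(3, 0, []), (4, 1, [2]), (5, 1, [2])]⟩,
    ⟨[(1, 3), (2, 3)], [(2, 1), (3, 0), (3, 1)], [(1, 1)], [3, 4], [(4, 1, [2]), (5, 1,
      [2])]⟩,
    ⟨[(3, 4)], [(0, 2), (1, 2), (4, 1), (4, 2)], [], [3, 4], [(0, 2, [1])]⟩]
  Ta := [((2, 1), 0, 5), ((2, 4), 0, 1), ((3, 0), 0, 2), ((3, 6), 0, 6), ((4, 2), 1, 0), ((4, 7),
    1, 3), ((5, 6), 1, 6), ((5, 8), 1, 4)]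
  Tb := [((0, 1, 3), 2, 5, 0), ((0, 1, 7), 2, 5, 3), ((0, 1, 8), 2, 5, 4), ((0, 3, 7), 2, 0, 3),
    ((0, 3, 8), 2, 0, 4), ((0, 7, 8), 2, 3, 4), ((1, 0, 2), 5, 2, 0), ((2, 1, 4), 0, 5, 1),
    ((3, 0, 6), 0, 2, 6), ((4, 2, 7), 1, 0, 3), ((5, 6, 8), 1, 6, 4), ((6, 3, 5), 6, 0, 1),
    ((7, 0, 4), 3, 2, 1), ((8, 0, 5), 4, 2, 1)]
  Tc := []
  Td := [((1, 2), (4, 2), 0), ((1, 2), (4, 7), 3), ((1, 2), (5, 6), 6), ((1, 2), (5, 8), 4), ((2,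
    1), (0, 1), 5), ((2, 1), (0, 3), 0), ((2, 1), (0, 7), 3), ((2, 1), (0, 8), 4)]
  G := [[0, 0x141e811ea44841e2141e8a4c, 0, 0x111184cd482, 0x111182cd82111182cd48a], [0, 0, 0,
    0x111184cd842, 0x111182cd42111182cd48a], [0, 0, 0xe1e1c48e1e1c426, 0x225222dc22882c1,
    0x821d42a1d8c21], [0, 0, 0xe1e1c84e1e1c82a, 0x425822dc22882c1, 0xa15821dc288c21]]

noncomputable def n1068 : Ent := ⟨e1068, noF, [], [], [(7, 13, [87897818358406171357428020359653357189577334862559922270209, 0])]⟩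

def c1068 : PLift (Cov.check n1068.C.D v1068 = true) := ⟨by decide +kernel⟩

def b1068 : PLift (entF (fidx ts) 400 1068 n1068 = true) := ⟨by decide +kernel⟩

theorem g1068 : GoodF (fidx ts) 400 1068 := GoodF.ofV v1068 n1068 c1068.down b1068.down

/-- 464764:891/3 -/
noncomputable def e1069 : SCfg where
  D := {
    a := 6
    L := 9
    kp := 6
    inn := [(0, 1), (1, 0), (1, 2), (1, 3), (2, 1), (2, 3), (3, 1), (3, 2), (3, 4), (4, 3), (4, 5), (5,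
      4)]
    mix := [(0, 0), (0, 1), (0, 2), (1, 0), (1, 2), (1, 3), (2, 2), (2, 4), (3, 3), (3, 4), (3, 5), (3,
      6), (4, 1), (4, 4), (4, 5), (4, 7), (5, 1), (5, 7), (5, 8)]
    cl := [3, 2, 0, 0, 1, 1, 6, 4, 5]
    chq := [(1, 5), (5, 1)]
    rng := [(0, 1), (0, 3), (1, 0), (1, 2), (1, 4), (1, 8), (2, 1), (2, 4), (3, 0), (3, 6), (4, 1), (4,
      2), (5, 6), (5, 7), (6, 3), (6, 5), (7, 5), (7, 8), (8, 1), (8, 7)]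
    lev := [] }
  links := [[1, 6, 7, 8], [6, 0, 8, 2, 3, 9], [3, 1, 8, 10], [9, 1, 2, 10, 4, 11, 12], [11, 3, 10, 7, 5,
    13], [13, 4, 7, 14]]
  P := {
    a := 6
    N := 15
    nb := [450, 845, 1290, 7702, 11432, 24720, 643, 17777, 1159, 4170, 412, 12312, 2568, 18480, 8352]
    tri := [(0, 1, 6), (0, 1, 8), (0, 6, 7), (0, 7, 8), (1, 2, 3), (1, 2, 8), (1, 3, 9), (1, 6, 9), (2,
      3, 10), (2, 8, 10), (3, 4, 10), (3, 4, 11), (3, 9, 12), (3, 11, 12), (4, 5, 7), (4, 5, 13),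
      (4, 7, 10), (4, 11, 13), (5, 7, 14), (5, 13, 14)]
    fin := [0, 0, 2, 2, 4, 4, 0, 7, 2, 2, 4, 4, 12, 13, 14]
    chd := [(4, 14)]
    steps := [(0, 1), (0, 6), (2, 3), (2, 8), (2, 9), (4, 5), (4, 10), (4, 11)] }
  rep := [2, 4, 7, 0, 13, 14, 12]

noncomputable def v1069 : Cov.CovD where
  P := 3
  N := 4
  pl := [0, 1, 6, 7]
  lev := [⟨[], [], [], [2, 3], [(2, 0, [])]⟩,
    ⟨[], [(0, 0)], [(0, 0)], [3], [(2, 0, []), (3, 0, [])]⟩,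
    ⟨[(0, 1)], [(0, 0), (1, 0), (1, 1)], [(0, 1)], [], [(2, 0, []), (4, 1, [5])]⟩,
    ⟨[(0, 1), (1, 2)], [(1, 0), (1, 1), (2, 0), (2, 1)], [(0, 1), (1, 1)], [6], [(3, 0,
      []), (4, 1, [5]), (5, 1, [5])]⟩,
    ⟨[(1, 3), (2, 3)], [(2, 1), (3, 0), (3, 1)], [(1, 1)], [2, 4], [(4, 1, [5]), (5, 1,
      [5])]⟩,
    ⟨[(3, 4)], [(4, 1), (4, 5)], [], [2, 4], [(8, 5, [1])]⟩]
  Ta := [((2, 1), 0, 2), ((2, 4), 0, 1), ((3, 0), 0, 3), ((3, 6), 0, 6), ((4, 1), 1, 2), ((4, 2),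
    1, 0), ((5, 6), 1, 6), ((5, 7), 1, 4)]
  Tb := [((0, 1, 3), 3, 2, 0), ((1, 0, 2), 2, 3, 0), ((1, 0, 4), 2, 3, 1), ((1, 0, 8), 2, 3, 5),
    ((1, 2, 4), 2, 0, 1), ((1, 2, 8), 2, 0, 5), ((1, 4, 8), 2, 1, 5), ((2, 1, 4), 0, 2, 1),
    ((3, 0, 6), 0, 3, 6), ((4, 1, 2), 1, 2, 0), ((5, 6, 7), 1, 6, 4), ((6, 3, 5), 6, 0, 1),
    ((7, 5, 8), 4, 1, 5), ((8, 1, 7), 5, 2, 4)]
  Tc := []
  Td := [((1, 5), (4, 1), 2), ((1, 5), (4, 2), 0), ((1, 5), (5, 6), 6), ((1, 5), (5, 7), 4), ((5,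
    1), (8, 1), 2), ((5, 1), (8, 7), 4)]
  G := [[0, 0x11c211c46811c11ca24c, 0x22c14822c182a, 0x95c18295c184c, 0x212128d84212128d82a],
    [0, 0, 0xa6c128a6c1826, 0, 0x2121b8d843131a8d82a], [0, 0, 0, 0xc95c59c42c95c59c425,
    0x229229c4221229c288c43], [0, 0, 0, 0, 0x2b92b9c122b92b9c243]]

noncomputable def n1069 : Ent := ⟨e1069, noF, [], [], [(6, 14, [81620716623019490593592230936445690773474979418095887757313, 0])]⟩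

def c1069 : PLift (Cov.check n1069.C.D v1069 = true) := ⟨by decide +kernel⟩

def b1069 : PLift (entF (fidx ts) 400 1069 n1069 = true) := ⟨by decide +kernel⟩

theorem g1069 : GoodF (fidx ts) 400 1069 := GoodF.ofV v1069 n1069 c1069.down b1069.down

/-- 464764:891/4 -/
noncomputable def e1070 : SCfg where
  D := {
    a := 6
    L := 9
    kp := 6
    inn := [(0, 1), (1, 0), (1, 2), (1, 3), (2, 1), (2, 3), (3, 1), (3, 2), (3, 4), (4, 3), (4, 5), (5,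
      4)]
    mix := [(0, 0), (0, 1), (0, 2), (1, 0), (1, 2), (1, 3), (2, 2), (2, 4), (3, 3), (3, 4), (3, 5), (3,
      6), (4, 4), (4, 5), (4, 7), (4, 8), (5, 1), (5, 7), (5, 8)]
    cl := [2, 1, 0, 0, 3, 3, 6, 4, 5]
    chq := [(1, 3), (3, 1)]
    rng := [(0, 1), (0, 3), (1, 0), (1, 2), (1, 7), (1, 8), (2, 1), (2, 4), (3, 0), (3, 6), (4, 2), (4,
      7), (5, 6), (5, 8), (6, 3), (6, 5), (7, 1), (7, 4), (8, 1), (8, 5)]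
    lev := [] }
  links := [[1, 6, 7, 8], [6, 0, 8, 2, 3, 9], [3, 1, 8, 10], [9, 1, 2, 10, 4, 11, 12], [11, 3, 10, 13, 5,
    14], [14, 4, 13, 7]]
  P := {
    a := 6
    N := 15
    nb := [450, 845, 1290, 7702, 27688, 24720, 643, 24929, 1159, 4170, 8476, 20504, 2568, 1200, 2224]
    tri := [(0, 1, 6), (0, 1, 8), (0, 6, 7), (0, 7, 8), (1, 2, 3), (1, 2, 8), (1, 3, 9), (1, 6, 9), (2,
      3, 10), (2, 8, 10), (3, 4, 10), (3, 4, 11), (3, 9, 12), (3, 11, 12), (4, 5, 13), (4, 5, 14),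
      (4, 10, 13), (4, 11, 14), (5, 7, 13), (5, 7, 14)]
    fin := [0, 0, 2, 2, 4, 5, 0, 5, 2, 2, 4, 4, 12, 13, 14]
    chd := [(5, 4)]
    steps := [(0, 1), (0, 6), (2, 3), (2, 8), (2, 9), (4, 10), (4, 11), (5, 7)] }
  rep := [2, 5, 0, 4, 13, 14, 12]

noncomputable def v1070 : Cov.CovD where
  P := 3
  N := 4
  pl := [0, 6, 7, 8]
  lev := [⟨[], [], [(0, 1)], [2], [(1, 1, [3]), (2, 0, [])]⟩,
    ⟨[], [(0, 0), (0, 1)], [(0, 0)], [2], [(2, 0, []), (3, 0, [])]⟩,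
    ⟨[(0, 1)], [(0, 0), (1, 0), (1, 3)], [(0, 3)], [], [(2, 0, []), (4, 3, [1])]⟩,
    ⟨[(0, 1), (1, 2)], [(1, 0), (1, 3), (2, 0), (2, 3)], [(0, 3), (3, 3)], [6], [(3, 0,
      []), (4, 3, [1]), (5, 3, [1])]⟩,
    ⟨[(1, 3), (2, 3)], [(2, 3), (3, 0), (3, 3)], [(3, 3)], [4, 5], [(4, 3, [1]), (5, 3,
      [1])]⟩,
    ⟨[(3, 4)], [(0, 1), (4, 1), (4, 3)], [], [4, 5], [(1, 1, [3])]⟩]
  Ta := [((2, 1), 0, 1), ((2, 4), 0, 3), ((3, 0), 0, 2), ((3, 6), 0, 6), ((4, 2), 3, 0), ((4, 7),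
    3, 4), ((5, 6), 3, 6), ((5, 8), 3, 5)]
  Tb := [((0, 1, 3), 2, 1, 0), ((1, 0, 2), 1, 2, 0), ((1, 0, 7), 1, 2, 4), ((1, 0, 8), 1, 2, 5),
    ((1, 2, 7), 1, 0, 4), ((1, 2, 8), 1, 0, 5), ((1, 7, 8), 1, 4, 5), ((2, 1, 4), 0, 1, 3),
    ((3, 0, 6), 0, 2, 6), ((4, 2, 7), 3, 0, 4), ((5, 6, 8), 3, 6, 5), ((6, 3, 5), 6, 0, 3),
    ((7, 1, 4), 4, 1, 3), ((8, 1, 5), 5, 1, 3)]
  Tc := []
  Td := [((1, 3), (1, 0), 2), ((1, 3), (1, 2), 0), ((1, 3), (1, 7), 4), ((1, 3), (1, 8), 5), ((3,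
    1), (4, 2), 0), ((3, 1), (4, 7), 4), ((3, 1), (5, 6), 6), ((3, 1), (5, 8), 5)]
  G := [[0, 0x21e1c4c18c1223ac4, 0, 0x1212d2d284, 0x8111f841d84ce7211388a8], [0, 0xe1e1e1e248,
    0, 0xd21248, 0x11111184cef428], [0, 0, 0x8ac1f44c1f6162c1f81a8, 0xd2d2d2e184,
    0x8ac1f484c1f234c6861989a8], [0, 0, 0x64c1f44c1fa12ac1f4868, 0xd2d2d2e841,
    0x84c1f2a44664c1f2c1bc4a1]]

noncomputable def n1070 : Ent := ⟨e1070, noF, [], [], []⟩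

def c1070 : PLift (Cov.check n1070.C.D v1070 = true) := ⟨by decide +kernel⟩

def b1070 : PLift (entF (fidx ts) 400 1070 n1070 = true) := ⟨by decide +kernel⟩

theorem g1070 : GoodF (fidx ts) 400 1070 := GoodF.ofV v1070 n1070 c1070.down b1070.down

/-- 464764:891 -/
noncomputable def e1071 : SCfg where
  D := {
    a := 6
    L := 10
    kp := 7
    inn := [(0, 1), (1, 0), (1, 2), (1, 3), (2, 1), (2, 3), (3, 1), (3, 2), (3, 4), (4, 3), (4, 5), (5,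
      4)]
    mix := [(0, 0), (0, 1), (0, 2), (1, 0), (1, 2), (1, 3), (2, 2), (2, 4), (3, 3), (3, 4), (3, 5), (3,
      6), (4, 4), (4, 5), (4, 7), (4, 8), (5, 7), (5, 8), (5, 9)]
    cl := [2, 6, 0, 0, 1, 1, 7, 3, 4, 5]
    chq := [(1, 5), (5, 1)]
    rng := [(0, 1), (0, 3), (1, 0), (1, 2), (2, 1), (2, 4), (3, 0), (3, 6), (4, 2), (4, 7), (5, 6), (5,
      8), (6, 3), (6, 5), (7, 4), (7, 9), (8, 5), (8, 9), (9, 7), (9, 8)]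
    lev := [] }
  links := [[1, 6, 7, 8], [6, 0, 8, 2, 3, 9], [3, 1, 8, 10], [9, 1, 2, 10, 4, 11, 12], [11, 3, 10, 13, 5,
    14], [14, 4, 13, 15]]
  P := {
    a := 6
    N := 16
    nb := [450, 845, 1290, 7702, 27688, 57360, 643, 321, 1159, 4170, 8476, 20504, 2568, 33840, 34864,
      24608]
    tri := [(0, 1, 6), (0, 1, 8), (0, 6, 7), (0, 7, 8), (1, 2, 3), (1, 2, 8), (1, 3, 9), (1, 6, 9), (2,
      3, 10), (2, 8, 10), (3, 4, 10), (3, 4, 11), (3, 9, 12), (3, 11, 12), (4, 5, 13), (4, 5, 14),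
      (4, 10, 13), (4, 11, 14), (5, 13, 15), (5, 14, 15)]
    fin := [0, 0, 2, 2, 4, 4, 0, 7, 2, 2, 4, 4, 12, 13, 14, 15]
    chd := [(4, 15)]
    steps := [(0, 1), (0, 6), (2, 3), (2, 8), (2, 9), (4, 5), (4, 10), (4, 11)] }
  rep := [2, 4, 0, 13, 14, 15, 7, 12]

noncomputable def v1071 : Cov.CovD where
  P := 3
  N := 5
  pl := [0, 1, 6, 7, 8]
  lev := [⟨[], [], [], [2, 6], [(2, 0, [])]⟩,
    ⟨[], [(0, 0)], [(0, 0)], [2], [(2, 0, []), (3, 0, [])]⟩,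
    ⟨[(0, 1)], [(0, 0), (1, 0), (1, 1)], [(0, 1)], [], [(2, 0, []), (4, 1, [5])]⟩,
    ⟨[(0, 1), (1, 2)], [(1, 0), (1, 1), (2, 0), (2, 1)], [(0, 1), (1, 1)], [7], [(3, 0,
      []), (4, 1, [5]), (5, 1, [5])]⟩,
    ⟨[(1, 3), (2, 3)], [(2, 1), (3, 0), (3, 1)], [(1, 1)], [3, 4], [(4, 1, [5]), (5, 1,
      [5])]⟩,
    ⟨[(3, 4)], [(4, 1), (4, 5)], [], [3, 4], [(9, 5, [1])]⟩]
  Ta := [((2, 1), 0, 6), ((2, 4), 0, 1), ((3, 0), 0, 2), ((3, 6), 0, 7), ((4, 2), 1, 0), ((4, 7),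
    1, 3), ((5, 6), 1, 7), ((5, 8), 1, 4)]
  Tb := [((0, 1, 3), 2, 6, 0), ((1, 0, 2), 6, 2, 0), ((2, 1, 4), 0, 6, 1), ((3, 0, 6), 0, 2, 7),
    ((4, 2, 7), 1, 0, 3), ((5, 6, 8), 1, 7, 4), ((6, 3, 5), 7, 0, 1), ((7, 4, 9), 3, 1, 5),
    ((8, 5, 9), 4, 1, 5), ((9, 7, 8), 5, 3, 4)]
  Tc := []
  Td := [((1, 5), (4, 2), 0), ((1, 5), (4, 7), 3), ((1, 5), (5, 6), 7), ((1, 5), (5, 8), 4), ((5,
    1), (9, 7), 3), ((5, 1), (9, 8), 4)]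
  G := [[0, 0x111e111ea44111e111e688c, 0, 0x2121b7cd843131a6cd48c, 0x2121b7cd423131a6cd42a], [0,
    0, 0, 0x3131a6cd2421b7c5218a8c, 0x3131a6cd823131a6cd82a], [0, 0,
    0x2ebde27dc122442ebde79cc2c, 0x2448e7942ebd8cc1, 0xe2c42ebd71cc21], [0, 0,
    0x24422ebde79c2c2ebde27dc12a, 0xe27d48eb58288ac1, 0xeb5e27dc288c21]]

noncomputable def n1071 : Ent := ⟨e1071, noF, [], [], [(6, 15, [360035742630636841211993100915356868655746945586763691012046849, 0]), (7, 13, [385753028440516072301428330182238677962518295842732840411385857, 0]), (7, 15, [360035742630636841211993100915356868655746945586763691012055041, 0])]⟩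

def c1071 : PLift (Cov.check n1071.C.D v1071 = true) := ⟨by decide +kernel⟩

def b1071 : PLift (entF (fidx ts) 400 1071 n1071 = true) := ⟨by decide +kernel⟩

theorem g1071 : GoodF (fidx ts) 400 1071 := GoodF.ofV v1071 n1071 c1071.down b1071.down

/-- 464764:892/1 -/
noncomputable def e1072 : SCfg where
  D := {
    a := 6
    L := 9
    kp := 6
    inn := [(0, 1), (1, 0), (1, 2), (1, 3), (2, 1), (2, 3), (3, 1), (3, 2), (3, 4), (4, 3), (4, 5), (5,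
      4)]
    mix := [(0, 0), (0, 1), (0, 2), (1, 0), (1, 2), (1, 3), (2, 2), (2, 4), (3, 3), (3, 4), (3, 5), (3,
      6), (4, 1), (4, 4), (4, 5), (4, 7), (5, 5), (5, 7), (5, 8)]
    cl := [3, 2, 0, 0, 1, 1, 6, 4, 5]
    chq := [(2, 5), (5, 2)]
    rng := [(0, 1), (0, 3), (1, 0), (1, 2), (1, 4), (1, 7), (2, 1), (2, 4), (3, 0), (3, 6), (4, 1), (4,
      2), (5, 6), (5, 8), (6, 3), (6, 5), (7, 1), (7, 8), (8, 5), (8, 7)]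
    lev := [] }
  links := [[1, 6, 7, 8], [6, 0, 8, 2, 3, 9], [3, 1, 8, 10], [9, 1, 2, 10, 4, 11, 12], [11, 3, 10, 7, 13,
    5], [11, 4, 13, 14]]
  P := {
    a := 6
    N := 15
    nb := [450, 845, 1290, 7702, 11432, 26640, 643, 9553, 1159, 4170, 412, 20536, 2568, 16560, 10272]
    tri := [(0, 1, 6), (0, 1, 8), (0, 6, 7), (0, 7, 8), (1, 2, 3), (1, 2, 8), (1, 3, 9), (1, 6, 9), (2,
      3, 10), (2, 8, 10), (3, 4, 10), (3, 4, 11), (3, 9, 12), (3, 11, 12), (4, 5, 11), (4, 5, 13),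
      (4, 7, 10), (4, 7, 13), (5, 11, 14), (5, 13, 14)]
    fin := [0, 1, 1, 3, 4, 4, 0, 4, 1, 1, 3, 3, 12, 13, 14]
    chd := [(4, 14)]
    steps := [(0, 6), (1, 2), (1, 8), (1, 9), (3, 10), (3, 11), (4, 5), (4, 7)] }
  rep := [1, 3, 4, 0, 13, 14, 12]

noncomputable def v1072 : Cov.CovD where
  P := 3
  N := 4
  pl := [0, 6, 7]
  lev := [⟨[], [], [(0, 2)], [3], [(1, 2, [5]), (2, 0, [])]⟩,
    ⟨[], [(0, 0), (0, 2)], [(0, 0)], [3], [(2, 0, []), (3, 0, [])]⟩,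
    ⟨[(0, 1)], [(0, 0), (1, 0), (1, 1)], [(0, 1)], [], [(2, 0, []), (4, 1, [])]⟩,
    ⟨[(0, 1), (1, 2)], [(1, 0), (1, 1), (2, 0), (2, 1)], [(0, 1), (1, 1)], [6], [(3, 0,
      []), (4, 1, []), (5, 1, [])]⟩,
    ⟨[(1, 3), (2, 3)], [(0, 2), (2, 1), (3, 0), (3, 1), (3, 2)], [(1, 1), (1, 2)], [4],
      [(1, 2, [5]), (4, 1, []), (5, 1, [])]⟩,
    ⟨[(3, 4)], [(3, 1), (4, 1), (4, 2), (4, 5)], [(1, 5)], [4], [(5, 1, []), (8, 5, [2])]⟩]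
  Ta := [((2, 1), 0, 2), ((2, 4), 0, 1), ((3, 0), 0, 3), ((3, 6), 0, 6), ((4, 1), 1, 2), ((4, 2),
    1, 0), ((5, 6), 1, 6), ((5, 8), 1, 5)]
  Tb := [((0, 1, 3), 3, 2, 0), ((1, 0, 2), 2, 3, 0), ((1, 0, 4), 2, 3, 1), ((1, 0, 7), 2, 3, 4),
    ((1, 2, 4), 2, 0, 1), ((1, 2, 7), 2, 0, 4), ((1, 4, 7), 2, 1, 4), ((2, 1, 4), 0, 2, 1),
    ((3, 0, 6), 0, 3, 6), ((4, 1, 2), 1, 2, 0), ((5, 6, 8), 1, 6, 5), ((6, 3, 5), 6, 0, 1),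
    ((7, 1, 8), 4, 2, 5), ((8, 5, 7), 5, 1, 4)]
  Tc := []
  Td := [((2, 5), (1, 0), 3), ((2, 5), (1, 2), 0), ((2, 5), (1, 4), 1), ((2, 5), (1, 7), 4), ((5,
    2), (8, 5), 1), ((5, 2), (8, 7), 4)]
  G := [[0, 0x21c21c62821c12ca24c, 0x11c18412c1826, 0x22c14822c142c, 0x48142121c8c212148d82a],
    [0, 0, 0x11c18411c1826, 0, 0x41d8524188c4141d8d82a], [0, 0, 0, 0x22922cc12225229c429,
    0x429249c1221249c488c43], [0, 0, 0, 0, 0x5c9c59c12c5945c98c43]]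

noncomputable def n1072 : Ent := ⟨e1072, noF, [], [], []⟩

def c1072 : PLift (Cov.check n1072.C.D v1072 = true) := ⟨by decide +kernel⟩

def b1072 : PLift (entF (fidx ts) 400 1072 n1072 = true) := ⟨by decide +kernel⟩

theorem g1072 : GoodF (fidx ts) 400 1072 := GoodF.ofV v1072 n1072 c1072.down b1072.down

/-- 464764:892/2 -/
noncomputable def e1073 : SCfg where
  D := {
    a := 6
    L := 9
    kp := 6
    inn := [(0, 1), (1, 0), (1, 2), (1, 3), (2, 1), (2, 3), (3, 1), (3, 2), (3, 4), (4, 3), (4, 5), (5,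
      4)]
    mix := [(0, 0), (0, 1), (0, 2), (1, 0), (1, 2), (1, 3), (2, 2), (2, 4), (3, 3), (3, 4), (3, 5), (3,
      6), (4, 1), (4, 4), (4, 5), (4, 7), (5, 1), (5, 5), (5, 8)]
    cl := [2, 1, 0, 0, 3, 3, 6, 4, 5]
    chq := [(4, 5), (5, 4)]
    rng := [(0, 1), (0, 3), (1, 0), (1, 2), (1, 7), (1, 8), (2, 1), (2, 4), (3, 0), (3, 6), (4, 2), (4,
      7), (5, 6), (5, 8), (6, 3), (6, 5), (7, 1), (7, 4), (8, 1), (8, 5)]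
    lev := [] }
  links := [[1, 6, 7, 8], [6, 0, 8, 2, 3, 9], [3, 1, 8, 10], [9, 1, 2, 10, 4, 11, 12], [11, 3, 10, 13, 7,
    5], [11, 4, 7, 14]]
  P := {
    a := 6
    N := 15
    nb := [450, 845, 1290, 7702, 11432, 18576, 643, 24945, 1159, 4170, 8476, 20536, 2568, 1168, 2208]
    tri := [(0, 1, 6), (0, 1, 8), (0, 6, 7), (0, 7, 8), (1, 2, 3), (1, 2, 8), (1, 3, 9), (1, 6, 9), (2,
      3, 10), (2, 8, 10), (3, 4, 10), (3, 4, 11), (3, 9, 12), (3, 11, 12), (4, 5, 7), (4, 5, 11),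
      (4, 7, 13), (4, 10, 13), (5, 7, 14), (5, 11, 14)]
    fin := [0, 1, 1, 3, 4, 4, 0, 7, 1, 1, 3, 3, 12, 4, 14]
    chd := [(4, 14)]
    steps := [(0, 6), (1, 2), (1, 8), (1, 9), (3, 10), (3, 11), (4, 5), (4, 13)] }
  rep := [1, 7, 0, 3, 4, 14, 12]

noncomputable def v1073 : Cov.CovD where
  P := 3
  N := 4
  pl := [0, 1, 6]
  lev := [⟨[], [], [], [1, 2], [(2, 0, [])]⟩,
    ⟨[], [(0, 0)], [(0, 0)], [2], [(2, 0, []), (3, 0, [])]⟩,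
    ⟨[(0, 1)], [(0, 0), (1, 0), (1, 3)], [(0, 3)], [], [(2, 0, []), (4, 3, [])]⟩,
    ⟨[(0, 1), (1, 2)], [(1, 0), (1, 3), (2, 0), (2, 3)], [(0, 3), (3, 3)], [6], [(3, 0,
      []), (4, 3, []), (5, 3, [])]⟩,
    ⟨[(1, 3), (2, 3)], [(2, 3), (3, 0), (3, 3), (3, 4)], [(3, 3), (3, 4)], [1], [(4, 3,
      []), (5, 3, []), (7, 4, [5])]⟩,
    ⟨[(3, 4)], [(3, 3), (4, 3), (4, 4), (4, 5)], [(3, 5)], [1], [(5, 3, []), (8, 5, [4])]⟩]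
  Ta := [((2, 1), 0, 1), ((2, 4), 0, 3), ((3, 0), 0, 2), ((3, 6), 0, 6), ((4, 2), 3, 0), ((4, 7),
    3, 4), ((5, 6), 3, 6), ((5, 8), 3, 5)]
  Tb := [((0, 1, 3), 2, 1, 0), ((1, 0, 2), 1, 2, 0), ((1, 0, 7), 1, 2, 4), ((1, 0, 8), 1, 2, 5),
    ((1, 2, 7), 1, 0, 4), ((1, 2, 8), 1, 0, 5), ((1, 7, 8), 1, 4, 5), ((2, 1, 4), 0, 1, 3),
    ((3, 0, 6), 0, 2, 6), ((4, 2, 7), 3, 0, 4), ((5, 6, 8), 3, 6, 5), ((6, 3, 5), 6, 0, 3),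
    ((7, 1, 4), 4, 1, 3), ((8, 1, 5), 5, 1, 3)]
  Tc := []
  Td := [((4, 5), (7, 1), 1), ((4, 5), (7, 4), 3), ((5, 4), (8, 1), 1), ((5, 4), (8, 5), 3)]
  G := [[0, 0x44a18461c84, 0, 0x4818418984d41488dae84, 0x8454148b189418d147c28], [0, 0x6ace1248,
    0, 0x8141c111cf248, 0x8141c111cf828], [0, 0, 0x189145488de124, 0x81145118de11881c4,
    0x189195414de128], [0, 0, 0x8114511cde11884a4, 0x14421894111cde2c1, 0x8114511cde188c21]]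

noncomputable def n1073 : Ent := ⟨e1073, noF, [], [], []⟩

def c1073 : PLift (Cov.check n1073.C.D v1073 = true) := ⟨by decide +kernel⟩

def b1073 : PLift (entF (fidx ts) 400 1073 n1073 = true) := ⟨by decide +kernel⟩

theorem g1073 : GoodF (fidx ts) 400 1073 := GoodF.ofV v1073 n1073 c1073.down b1073.down

/-- 464764:892/3 -/
noncomputable def e1074 : SCfg where
  D := {
    a := 6
    L := 9
    kp := 6
    inn := [(0, 1), (1, 0), (1, 2), (1, 3), (2, 1), (2, 3), (3, 1), (3, 2), (3, 4), (4, 3), (4, 5), (5,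
      4)]
    mix := [(0, 0), (0, 1), (0, 2), (1, 0), (1, 2), (1, 3), (2, 2), (2, 4), (3, 3), (3, 4), (3, 5), (3,
      6), (4, 4), (4, 5), (4, 7), (4, 8), (5, 1), (5, 5), (5, 8)]
    cl := [2, 1, 0, 0, 3, 3, 6, 5, 4]
    chq := [(1, 5), (5, 1)]
    rng := [(0, 1), (0, 3), (1, 0), (1, 2), (1, 5), (1, 8), (2, 1), (2, 4), (3, 0), (3, 6), (4, 2), (4,
      7), (5, 1), (5, 6), (6, 3), (6, 5), (7, 4), (7, 8), (8, 1), (8, 7)]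
    lev := [] }
  links := [[1, 6, 7, 8], [6, 0, 8, 2, 3, 9], [3, 1, 8, 10], [9, 1, 2, 10, 4, 11, 12], [11, 3, 10, 13,
    14, 5], [11, 4, 14, 7]]
  P := {
    a := 6
    N := 15
    nb := [450, 845, 1290, 7702, 27688, 18576, 643, 18785, 1159, 4170, 8476, 4280, 2568, 17424, 8368]
    tri := [(0, 1, 6), (0, 1, 8), (0, 6, 7), (0, 7, 8), (1, 2, 3), (1, 2, 8), (1, 3, 9), (1, 6, 9), (2,
      3, 10), (2, 8, 10), (3, 4, 10), (3, 4, 11), (3, 9, 12), (3, 11, 12), (4, 5, 11), (4, 5, 14),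
      (4, 10, 13), (4, 13, 14), (5, 7, 11), (5, 7, 14)]
    fin := [0, 1, 1, 3, 4, 4, 0, 4, 1, 1, 3, 3, 12, 13, 14]
    chd := [(4, 13)]
    steps := [(0, 6), (1, 2), (1, 8), (1, 9), (3, 10), (3, 11), (4, 5), (4, 7)] }
  rep := [1, 4, 0, 3, 14, 13, 12]

noncomputable def v1074 : Cov.CovD where
  P := 3
  N := 4
  pl := [0, 6, 8]
  lev := [⟨[], [], [(0, 1)], [2], [(1, 1, [5]), (2, 0, [])]⟩,
    ⟨[], [(0, 0), (0, 1)], [(0, 0)], [2], [(2, 0, []), (3, 0, [])]⟩,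
    ⟨[(0, 1)], [(0, 0), (1, 0), (1, 3)], [(0, 3)], [], [(2, 0, []), (4, 3, [])]⟩,
    ⟨[(0, 1), (1, 2)], [(1, 0), (1, 3), (2, 0), (2, 3)], [(0, 3), (3, 3)], [6], [(3, 0,
      []), (4, 3, []), (5, 3, [])]⟩,
    ⟨[(1, 3), (2, 3)], [(2, 3), (3, 0), (3, 3), (3, 5)], [(3, 3), (3, 5)], [4], [(4, 3,
      []), (5, 3, []), (7, 5, [1])]⟩,
    ⟨[(3, 4)], [(0, 1), (3, 3), (4, 1), (4, 3), (4, 5)], [(1, 3)], [4], [(1, 1, [5]), (5,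
      3, [])]⟩]
  Ta := [((2, 1), 0, 1), ((2, 4), 0, 3), ((3, 0), 0, 2), ((3, 6), 0, 6), ((4, 2), 3, 0), ((4, 7),
    3, 5), ((5, 1), 3, 1), ((5, 6), 3, 6)]
  Tb := [((0, 1, 3), 2, 1, 0), ((1, 0, 2), 1, 2, 0), ((1, 0, 5), 1, 2, 3), ((1, 0, 8), 1, 2, 4),
    ((1, 2, 5), 1, 0, 3), ((1, 2, 8), 1, 0, 4), ((1, 5, 8), 1, 3, 4), ((2, 1, 4), 0, 1, 3),
    ((3, 0, 6), 0, 2, 6), ((4, 2, 7), 3, 0, 5), ((5, 1, 6), 3, 1, 6), ((6, 3, 5), 6, 0, 3),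
    ((7, 4, 8), 5, 3, 4), ((8, 1, 7), 4, 1, 5)]
  Tc := []
  Td := [((1, 5), (1, 0), 2), ((1, 5), (1, 2), 0), ((1, 5), (1, 5), 3), ((1, 5), (1, 8), 4), ((5,
    1), (7, 4), 3), ((5, 1), (7, 8), 4)]
  G := [[0, 0xc144c18a12ac4, 0, 0x929292d284, 0x88924852111b1947c2de28], [0, 0xe1e1e1e484, 0,
    0xd21284, 0x11111184def428], [0, 0, 0x181788c1f61141b81c8, 0xc292615288c8,
    0x8851f211c4b1587c2a8], [0, 0, 0x4d6215491f8951f819e1a8, 0x9252d2e841,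
    0x8951f8d1b615491f44a4a8]]

noncomputable def n1074 : Ent := ⟨e1074, noF, [], [], []⟩

def c1074 : PLift (Cov.check n1074.C.D v1074 = true) := ⟨by decide +kernel⟩

def b1074 : PLift (entF (fidx ts) 400 1074 n1074 = true) := ⟨by decide +kernel⟩

theorem g1074 : GoodF (fidx ts) 400 1074 := GoodF.ofV v1074 n1074 c1074.down b1074.down

/-- 464764:892 -/
noncomputable def e1075 : SCfg where
  D := {
    a := 6
    L := 10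
    kp := 7
    inn := [(0, 1), (1, 0), (1, 2), (1, 3), (2, 1), (2, 3), (3, 1), (3, 2), (3, 4), (4, 3), (4, 5), (5,
      4)]
    mix := [(0, 0), (0, 1), (0, 2), (1, 0), (1, 2), (1, 3), (2, 2), (2, 4), (3, 3), (3, 4), (3, 5), (3,
      6), (4, 4), (4, 5), (4, 7), (4, 8), (5, 5), (5, 8), (5, 9)]
    cl := [2, 6, 0, 0, 1, 1, 7, 4, 3, 5]
    chq := [(4, 5), (5, 4)]
    rng := [(0, 1), (0, 3), (1, 0), (1, 2), (2, 1), (2, 4), (3, 0), (3, 6), (4, 2), (4, 7), (5, 6), (5,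
      9), (6, 3), (6, 5), (7, 4), (7, 8), (8, 7), (8, 9), (9, 5), (9, 8)]
    lev := [] }
  links := [[1, 6, 7, 8], [6, 0, 8, 2, 3, 9], [3, 1, 8, 10], [9, 1, 2, 10, 4, 11, 12], [11, 3, 10, 13,
    14, 5], [11, 4, 14, 15]]
  P := {
    a := 6
    N := 16
    nb := [450, 845, 1290, 7702, 27688, 51216, 643, 321, 1159, 4170, 8476, 36920, 2568, 17424, 41008,
      18464]
    tri := [(0, 1, 6), (0, 1, 8), (0, 6, 7), (0, 7, 8), (1, 2, 3), (1, 2, 8), (1, 3, 9), (1, 6, 9), (2,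
      3, 10), (2, 8, 10), (3, 4, 10), (3, 4, 11), (3, 9, 12), (3, 11, 12), (4, 5, 11), (4, 5, 14),
      (4, 10, 13), (4, 13, 14), (5, 11, 15), (5, 14, 15)]
    fin := [0, 1, 1, 3, 4, 4, 0, 7, 1, 1, 3, 3, 12, 4, 14, 15]
    chd := [(4, 15)]
    steps := [(0, 6), (1, 2), (1, 8), (1, 9), (3, 10), (3, 11), (4, 5), (4, 13)] }
  rep := [1, 3, 0, 14, 4, 15, 7, 12]

noncomputable def v1075 : Cov.CovD where
  P := 3
  N := 5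
  pl := [0, 1, 6, 8]
  lev := [⟨[], [], [], [2, 6], [(2, 0, [])]⟩,
    ⟨[], [(0, 0)], [(0, 0)], [2], [(2, 0, []), (3, 0, [])]⟩,
    ⟨[(0, 1)], [(0, 0), (1, 0), (1, 1)], [(0, 1)], [], [(2, 0, []), (4, 1, [])]⟩,
    ⟨[(0, 1), (1, 2)], [(1, 0), (1, 1), (2, 0), (2, 1)], [(0, 1), (1, 1)], [7], [(3, 0,
      []), (4, 1, []), (5, 1, [])]⟩,
    ⟨[(1, 3), (2, 3)], [(2, 1), (3, 0), (3, 1), (3, 4)], [(1, 1), (1, 4)], [3], [(4, 1,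
      []), (5, 1, []), (7, 4, [5])]⟩,
    ⟨[(3, 4)], [(3, 1), (4, 1), (4, 4), (4, 5)], [(1, 5)], [3], [(5, 1, []), (9, 5, [4])]⟩]
  Ta := [((2, 1), 0, 6), ((2, 4), 0, 1), ((3, 0), 0, 2), ((3, 6), 0, 7), ((4, 2), 1, 0), ((4, 7),
    1, 4), ((5, 6), 1, 7), ((5, 9), 1, 5)]
  Tb := [((0, 1, 3), 2, 6, 0), ((1, 0, 2), 6, 2, 0), ((2, 1, 4), 0, 6, 1), ((3, 0, 6), 0, 2, 7),
    ((4, 2, 7), 1, 0, 4), ((5, 6, 9), 1, 7, 5), ((6, 3, 5), 7, 0, 1), ((7, 4, 8), 4, 1, 3),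
    ((8, 7, 9), 3, 4, 5), ((9, 5, 8), 5, 1, 3)]
  Tc := []
  Td := [((4, 5), (7, 4), 1), ((4, 5), (7, 8), 3), ((5, 4), (9, 5), 1), ((5, 4), (9, 8), 3)]
  G := [[0, 0x591e5a1ea4435661cea188a4c, 0, 0x2121c69c1c4216ac5c18c8c, 0x61c123cd82212169cd42a],
    [0, 0, 0, 0xc1c159cd24c1c159cd48c, 0xc1c159cd82c1c159cd48a], [0, 0,
    0x296d6a2dc12965236dc12884c6, 0x32cd4852cd84c1, 0x9255a2dc688c21], [0, 0,
    0x59cd419c58588cc59cd59cdc12c, 0x59cd4859cd84c1, 0x9c559cdc588c21]]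

noncomputable def n1075 : Ent := ⟨e1075, noF, [], [], [(7, 13, [385753028440516072301428330182238677962518295842732840411398145, 0]), (7, 14, [385746751338780685620664494392815470296102193487288376376889345, 0]), (7, 15, [360035742630636841211993100915356868655746945586763691012071425, 0])]⟩

def c1075 : PLift (Cov.check n1075.C.D v1075 = true) := ⟨by decide +kernel⟩

def b1075 : PLift (entF (fidx ts) 400 1075 n1075 = true) := ⟨by decide +kernel⟩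

theorem g1075 : GoodF (fidx ts) 400 1075 := GoodF.ofV v1075 n1075 c1075.down b1075.down

/-- 464945:893/1 -/
noncomputable def e1076 : SCfg where
  D := {
    a := 6
    L := 9
    kp := 6
    inn := [(0, 1), (1, 0), (1, 2), (1, 3), (1, 4), (2, 1), (2, 3), (3, 1), (3, 2), (3, 4), (3, 5), (4,
      1), (4, 3), (5, 3)]
    mix := [(0, 0), (0, 1), (0, 2), (1, 0), (1, 2), (2, 2), (2, 3), (3, 3), (3, 4), (3, 5), (3, 6), (3,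
      7), (4, 0), (4, 7), (5, 1), (5, 3), (5, 4), (5, 8)]
    cl := [3, 2, 1, 0, 0, 4, 5, 0, 6]
    chq := [(1, 3), (3, 1)]
    rng := [(0, 1), (0, 7), (1, 0), (1, 2), (1, 3), (1, 8), (2, 1), (2, 3), (3, 1), (3, 2), (4, 5), (4,
      8), (5, 4), (5, 6), (6, 5), (6, 7), (7, 0), (7, 6), (8, 1), (8, 4)]
    lev := [] }
  links := [[1, 6, 7, 8], [6, 0, 8, 2, 3, 4], [3, 1, 8, 9], [4, 1, 2, 9, 5, 10, 11, 12, 13], [6, 1, 3,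
    13], [10, 3, 9, 7, 14]]
  P := {
    a := 6
    N := 15
    nb := [450, 349, 778, 15926, 8266, 18056, 8339, 17249, 647, 428, 18472, 5128, 10248, 4184, 1184]
    tri := [(0, 1, 6), (0, 1, 8), (0, 6, 7), (0, 7, 8), (1, 2, 3), (1, 2, 8), (1, 3, 4), (1, 4, 6), (2,
      3, 9), (2, 8, 9), (3, 4, 13), (3, 5, 9), (3, 5, 10), (3, 10, 11), (3, 11, 12), (3, 12, 13),
      (4, 6, 13), (5, 7, 9), (5, 7, 14), (5, 10, 14)]
    fin := [0, 0, 0, 3, 0, 5, 0, 5, 8, 3, 3, 11, 12, 3, 14]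
    chd := [(0, 8)]
    steps := [(0, 1), (0, 2), (0, 4), (0, 6), (3, 9), (3, 10), (3, 13), (5, 7)] }
  rep := [3, 8, 5, 0, 11, 12, 14]

noncomputable def v1076 : Cov.CovD where
  P := 3
  N := 4
  pl := [1, 5, 6, 8]
  lev := [⟨[], [], [(1, 3)], [2], [(0, 3, [1]), (2, 1, [3])]⟩,
    ⟨[], [(0, 1), (0, 3)], [(1, 3)], [], [(0, 3, [1]), (2, 1, [3])]⟩,
    ⟨[(0, 1)], [(0, 1), (1, 0), (1, 1), (1, 3)], [(0, 1)], [], [(2, 1, [3]), (3, 0, [])]⟩,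
    ⟨[(0, 1), (1, 2)], [(1, 0), (1, 1), (1, 3), (2, 0), (2, 1)], [(0, 0)], [4, 5], [(3, 0,
      []), (4, 0, []), (7, 0, [])]⟩,
    ⟨[(0, 1), (1, 2), (1, 3), (2, 3)], [(0, 3), (1, 0), (1, 1), (1, 3), (3, 0), (3, 3)],
      [(0, 3)], [], [(0, 3, [1]), (7, 0, [])]⟩,
    ⟨[(1, 3), (2, 3), (3, 4)], [(2, 0), (3, 0)], [(0, 0)], [2, 6], [(3, 0, []), (4, 0,
      [])]⟩]
  Ta := [((3, 1), 0, 2), ((3, 2), 0, 1), ((4, 5), 0, 4), ((4, 8), 0, 6), ((7, 0), 0, 3), ((7, 6),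
    0, 5)]
  Tb := [((0, 1, 7), 3, 2, 0), ((1, 0, 2), 2, 3, 1), ((1, 0, 3), 2, 3, 0), ((1, 0, 8), 2, 3, 6),
    ((1, 2, 3), 2, 1, 0), ((1, 2, 8), 2, 1, 6), ((1, 3, 8), 2, 0, 6), ((2, 1, 3), 1, 2, 0),
    ((3, 1, 2), 0, 2, 1), ((4, 5, 8), 0, 4, 6), ((5, 4, 6), 4, 0, 5), ((6, 5, 7), 5, 4, 0),
    ((7, 0, 6), 0, 3, 5), ((8, 1, 4), 6, 2, 0)]
  Tc := []
  Td := [((1, 3), (2, 1), 2), ((1, 3), (2, 3), 0), ((3, 1), (0, 1), 2), ((3, 1), (0, 7), 0)]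
  G := [[0, 0xc1c162c284ac1c1a2c1486c, 0x62c2c8e8164a4c2e81c, 0xc2c26c28c11, 0xa2a22a8ee411],
    [0, 0, 0, 0x42c2c2e828c11, 0xa2a2aace411], [0, 0, 0, 0xc241c2c8a1cc24c2c2ac15,
    0xa2a228ae14a2a2aace419]]

noncomputable def n1076 : Ent := ⟨e1076, noF, [], [], []⟩

def c1076 : PLift (Cov.check n1076.C.D v1076 = true) := ⟨by decide +kernel⟩

def b1076 : PLift (entF (fidx ts) 400 1076 n1076 = true) := ⟨by decide +kernel⟩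

theorem g1076 : GoodF (fidx ts) 400 1076 := GoodF.ofV v1076 n1076 c1076.down b1076.down

/-- 464945:893/2 -/
noncomputable def e1077 : SCfg where
  D := {
    a := 6
    L := 9
    kp := 6
    inn := [(0, 1), (1, 0), (1, 2), (1, 3), (1, 4), (2, 1), (2, 3), (3, 1), (3, 2), (3, 4), (3, 5), (4,
      1), (4, 3), (5, 3)]
    mix := [(0, 0), (0, 1), (0, 2), (1, 0), (1, 2), (2, 2), (2, 3), (3, 3), (3, 4), (3, 5), (3, 6), (3,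
      7), (4, 0), (4, 7), (5, 1), (5, 3), (5, 4), (5, 8)]
    cl := [3, 2, 1, 0, 0, 4, 5, 0, 6]
    chq := [(1, 3), (3, 1)]
    rng := [(0, 1), (0, 7), (1, 0), (1, 2), (1, 4), (1, 8), (2, 1), (2, 3), (3, 2), (3, 8), (4, 1), (4,
      5), (5, 4), (5, 6), (6, 5), (6, 7), (7, 0), (7, 6), (8, 1), (8, 3)]
    lev := [] }
  links := [[1, 6, 7, 8], [6, 0, 8, 2, 3, 4], [3, 1, 8, 9], [4, 1, 2, 9, 5, 10, 11, 12, 13], [6, 1, 3,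
    13], [10, 3, 9, 14, 7]]
  P := {
    a := 6
    N := 15
    nb := [450, 349, 778, 15926, 8266, 18056, 8339, 17761, 647, 16684, 2216, 5128, 10248, 4184, 672]
    tri := [(0, 1, 6), (0, 1, 8), (0, 6, 7), (0, 7, 8), (1, 2, 3), (1, 2, 8), (1, 3, 4), (1, 4, 6), (2,
      3, 9), (2, 8, 9), (3, 4, 13), (3, 5, 9), (3, 5, 10), (3, 10, 11), (3, 11, 12), (3, 12, 13),
      (4, 6, 13), (5, 7, 10), (5, 7, 14), (5, 9, 14)]
    fin := [0, 0, 0, 3, 0, 5, 0, 5, 8, 3, 3, 11, 12, 3, 14]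
    chd := [(0, 8)]
    steps := [(0, 1), (0, 2), (0, 4), (0, 6), (3, 9), (3, 10), (3, 13), (5, 7)] }
  rep := [3, 8, 5, 0, 11, 12, 14]

noncomputable def v1077 : Cov.CovD where
  P := 3
  N := 4
  pl := [1, 5, 6, 8]
  lev := [⟨[], [], [(1, 3)], [2], [(0, 3, [1]), (2, 1, [3])]⟩,
    ⟨[], [(0, 1), (0, 3)], [(1, 3)], [], [(0, 3, [1]), (2, 1, [3])]⟩,
    ⟨[(0, 1)], [(0, 1), (1, 0), (1, 1), (1, 3)], [(0, 1)], [], [(2, 1, [3]), (3, 0, [])]⟩,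
    ⟨[(0, 1), (1, 2)], [(1, 0), (1, 1), (1, 3), (2, 0), (2, 1)], [(0, 0)], [4, 5], [(3, 0,
      []), (4, 0, []), (7, 0, [])]⟩,
    ⟨[(0, 1), (1, 2), (1, 3), (2, 3)], [(0, 3), (1, 0), (1, 1), (1, 3), (3, 0), (3, 3)],
      [(0, 3)], [], [(0, 3, [1]), (7, 0, [])]⟩,
    ⟨[(1, 3), (2, 3), (3, 4)], [(2, 0), (3, 0)], [(0, 0)], [2, 6], [(3, 0, []), (4, 0,
      [])]⟩]
  Ta := [((3, 2), 0, 1), ((3, 8), 0, 6), ((4, 1), 0, 2), ((4, 5), 0, 4), ((7, 0), 0, 3), ((7, 6),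
    0, 5)]
  Tb := [((0, 1, 7), 3, 2, 0), ((1, 0, 2), 2, 3, 1), ((1, 0, 4), 2, 3, 0), ((1, 0, 8), 2, 3, 6),
    ((1, 2, 4), 2, 1, 0), ((1, 2, 8), 2, 1, 6), ((1, 4, 8), 2, 0, 6), ((2, 1, 3), 1, 2, 0),
    ((3, 2, 8), 0, 1, 6), ((4, 1, 5), 0, 2, 4), ((5, 4, 6), 4, 0, 5), ((6, 5, 7), 5, 4, 0),
    ((7, 0, 6), 0, 3, 5), ((8, 1, 3), 6, 2, 0)]
  Tc := []
  Td := [((1, 3), (2, 1), 2), ((1, 3), (2, 3), 0), ((3, 1), (0, 1), 2), ((3, 1), (0, 7), 0)]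
  G := [[0, 0xc1c162c284ac1c1a2c1486c, 0, 0xc24c2c2ac11, 0xa2a2aace411], [0, 0,
    0xa2686c28c162a264e81c, 0xc24c2c2ac11, 0xa2a2aace411], [0, 0, 0,
    0xc2418c2c2a14c2c26c28c1d, 0xa4a461a281ca2a2aace419]]

noncomputable def n1077 : Ent := ⟨e1077, noF, [], [], []⟩

def c1077 : PLift (Cov.check n1077.C.D v1077 = true) := ⟨by decide +kernel⟩

def b1077 : PLift (entF (fidx ts) 400 1077 n1077 = true) := ⟨by decide +kernel⟩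

theorem g1077 : GoodF (fidx ts) 400 1077 := GoodF.ofV v1077 n1077 c1077.down b1077.down

/-- 464945:893 -/
noncomputable def e1078 : SCfg where
  D := {
    a := 6
    L := 10
    kp := 7
    inn := [(0, 1), (1, 0), (1, 2), (1, 3), (1, 4), (2, 1), (2, 3), (3, 1), (3, 2), (3, 4), (3, 5), (4,
      1), (4, 3), (5, 3)]
    mix := [(0, 0), (0, 1), (0, 2), (1, 0), (1, 2), (2, 2), (2, 3), (3, 3), (3, 4), (3, 5), (3, 6), (3,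
      7), (4, 0), (4, 7), (5, 3), (5, 4), (5, 8), (5, 9)]
    cl := [3, 2, 1, 0, 0, 4, 5, 0, 6, 7]
    chq := [(1, 3), (3, 1)]
    rng := [(0, 1), (0, 7), (1, 0), (1, 2), (2, 1), (2, 3), (3, 2), (3, 8), (4, 5), (4, 9), (5, 4), (5,
      6), (6, 5), (6, 7), (7, 0), (7, 6), (8, 3), (8, 9), (9, 4), (9, 8)]
    lev := [] }
  links := [[1, 6, 7, 8], [6, 0, 8, 2, 3, 4], [3, 1, 8, 9], [4, 1, 2, 9, 5, 10, 11, 12, 13], [6, 1, 3,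
    13], [10, 3, 9, 14, 15]]
  P := {
    a := 6
    N := 16
    nb := [450, 349, 778, 15926, 8266, 50696, 8339, 321, 647, 16684, 34856, 5128, 10248, 4184, 33312,
      17440]
    tri := [(0, 1, 6), (0, 1, 8), (0, 6, 7), (0, 7, 8), (1, 2, 3), (1, 2, 8), (1, 3, 4), (1, 4, 6), (2,
      3, 9), (2, 8, 9), (3, 4, 13), (3, 5, 9), (3, 5, 10), (3, 10, 11), (3, 11, 12), (3, 12, 13),
      (4, 6, 13), (5, 9, 14), (5, 10, 15), (5, 14, 15)]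
    fin := [0, 0, 0, 3, 0, 3, 0, 7, 8, 3, 3, 11, 12, 3, 14, 15]
    chd := [(0, 8)]
    steps := [(0, 1), (0, 2), (0, 4), (0, 6), (3, 5), (3, 9), (3, 10), (3, 13)] }
  rep := [3, 8, 7, 0, 11, 12, 14, 15]

noncomputable def v1078 : Cov.CovD where
  P := 3
  N := 5
  pl := [1, 5, 6, 8, 9]
  lev := [⟨[], [], [(1, 3)], [2], [(0, 3, [1]), (2, 1, [3])]⟩,
    ⟨[], [(0, 1), (0, 3)], [(1, 3)], [], [(0, 3, [1]), (2, 1, [3])]⟩,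
    ⟨[(0, 1)], [(0, 1), (1, 0), (1, 1), (1, 3)], [(0, 1)], [], [(2, 1, [3]), (3, 0, [])]⟩,
    ⟨[(0, 1), (1, 2)], [(1, 0), (1, 1), (1, 3), (2, 0), (2, 1)], [(0, 0)], [4, 5], [(3, 0,
      []), (4, 0, []), (7, 0, [])]⟩,
    ⟨[(0, 1), (1, 2), (1, 3), (2, 3)], [(0, 3), (1, 0), (1, 1), (1, 3), (3, 0), (3, 3)],
      [(0, 3)], [], [(0, 3, [1]), (7, 0, [])]⟩,
    ⟨[(1, 3), (2, 3), (3, 4)], [(2, 0), (3, 0)], [(0, 0)], [6, 7], [(3, 0, []), (4, 0,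
      [])]⟩]
  Ta := [((3, 2), 0, 1), ((3, 8), 0, 6), ((4, 5), 0, 4), ((4, 9), 0, 7), ((7, 0), 0, 3), ((7, 6),
    0, 5)]
  Tb := [((0, 1, 7), 3, 2, 0), ((1, 0, 2), 2, 3, 1), ((2, 1, 3), 1, 2, 0), ((3, 2, 8), 0, 1, 6),
    ((4, 5, 9), 0, 4, 7), ((5, 4, 6), 4, 0, 5), ((6, 5, 7), 5, 4, 0), ((7, 0, 6), 0, 3, 5),
    ((8, 3, 9), 6, 0, 7), ((9, 4, 8), 7, 0, 6)]
  Tc := []
  Td := [((1, 3), (2, 1), 2), ((1, 3), (2, 3), 0), ((3, 1), (0, 1), 2), ((3, 1), (0, 7), 0)]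
  G := [[0, 0xa1e164146e184a61e1a818ae1426c, 0x22e8e8ec28c162e1a8e24848c5c, 0x424e2a222ceec11,
    0x424e2a2eecec11], [0, 0, 0xe8e86e28c164e22c6e848c1c, 0x424e2a222ceec11,
    0xe26e8e6e28c11], [0, 0, 0xe2e8668a8c1e2e46e28c1c, 0xe2e4618e2814424e2a222ceec1d,
    0xe2e461e481c4222ce6e2a2cc19]]

noncomputable def n1078 : Ent := ⟨e1078, noF, [], [], [(7, 14, [385746751338780685620664494392815470296102193487288376376901633, 0]), (7, 15, [360035742630636841211993100915356868655746945586763691012083713, 0])]⟩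

def c1078 : PLift (Cov.check n1078.C.D v1078 = true) := ⟨by decide +kernel⟩

def b1078 : PLift (entF (fidx ts) 400 1078 n1078 = true) := ⟨by decide +kernel⟩

theorem g1078 : GoodF (fidx ts) 400 1078 := GoodF.ofV v1078 n1078 c1078.down b1078.down

/-- 464945:894/1 -/
noncomputable def e1079 : SCfg where
  D := {
    a := 6
    L := 9
    kp := 6
    inn := [(0, 1), (1, 0), (1, 2), (1, 3), (1, 4), (2, 1), (2, 3), (3, 1), (3, 2), (3, 4), (3, 5), (4,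
      1), (4, 3), (5, 3)]
    mix := [(0, 0), (0, 1), (0, 2), (1, 0), (1, 2), (2, 2), (2, 3), (3, 3), (3, 4), (3, 5), (3, 6), (3,
      7), (4, 0), (4, 7), (5, 1), (5, 4), (5, 5), (5, 8)]
    cl := [1, 4, 2, 0, 3, 3, 5, 0, 6]
    chq := [(1, 2), (2, 1)]
    rng := [(0, 1), (0, 7), (1, 0), (1, 2), (1, 4), (1, 8), (2, 1), (2, 3), (3, 2), (3, 4), (4, 1), (4,
      3), (5, 6), (5, 8), (6, 5), (6, 7), (7, 0), (7, 6), (8, 1), (8, 5)]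
    lev := [] }
  links := [[1, 6, 7, 8], [6, 0, 8, 2, 3, 4], [3, 1, 8, 9], [4, 1, 2, 9, 10, 5, 11, 12, 13], [6, 1, 3,
    13], [11, 3, 10, 7, 14]]
  P := {
    a := 6
    N := 15
    nb := [450, 349, 778, 15926, 8266, 19592, 8339, 17761, 647, 1292, 680, 20520, 10248, 4184, 2208]
    tri := [(0, 1, 6), (0, 1, 8), (0, 6, 7), (0, 7, 8), (1, 2, 3), (1, 2, 8), (1, 3, 4), (1, 4, 6), (2,
      3, 9), (2, 8, 9), (3, 4, 13), (3, 5, 10), (3, 5, 11), (3, 9, 10), (3, 11, 12), (3, 12, 13),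
      (4, 6, 13), (5, 7, 10), (5, 7, 14), (5, 11, 14)]
    fin := [0, 1, 1, 3, 1, 5, 0, 5, 8, 1, 3, 3, 12, 1, 14]
    chd := [(0, 8)]
    steps := [(0, 6), (1, 2), (1, 4), (1, 9), (1, 13), (3, 10), (3, 11), (5, 7)] }
  rep := [1, 0, 8, 3, 5, 12, 14]

noncomputable def v1079 : Cov.CovD where
  P := 3
  N := 4
  pl := [1, 6, 8]
  lev := [⟨[], [], [(1, 2)], [4], [(0, 1, [2]), (2, 2, [1])]⟩,
    ⟨[], [(0, 1), (0, 2)], [(1, 2)], [], [(0, 1, [2]), (2, 2, [1])]⟩,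
    ⟨[(0, 1)], [(0, 2), (1, 0), (1, 1), (1, 2)], [(0, 2)], [], [(2, 2, [1]), (3, 0, [])]⟩,
    ⟨[(0, 1), (1, 2)], [(1, 0), (1, 1), (1, 2), (1, 3), (2, 0), (2, 2), (2, 3)], [(0, 0),
      (0, 3), (3, 3)], [5], [(3, 0, []), (4, 3, []), (5, 3, []), (7, 0, [])]⟩,
    ⟨[(0, 1), (1, 2), (1, 3), (2, 3)], [(0, 1), (1, 0), (1, 1), (1, 2), (3, 0), (3, 1), (3,
      3)], [(0, 1)], [], [(0, 1, [2]), (7, 0, [])]⟩,
    ⟨[(1, 3), (2, 3), (3, 4)], [(3, 0), (3, 3)], [(3, 3)], [4, 6], [(4, 3, []), (5, 3,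
      [])]⟩]
  Ta := [((3, 2), 0, 2), ((3, 4), 0, 3), ((4, 1), 3, 4), ((4, 3), 3, 0), ((5, 6), 3, 5), ((5, 8),
    3, 6), ((7, 0), 0, 1), ((7, 6), 0, 5)]
  Tb := [((0, 1, 7), 1, 4, 0), ((1, 0, 2), 4, 1, 2), ((1, 0, 4), 4, 1, 3), ((1, 0, 8), 4, 1, 6),
    ((1, 2, 4), 4, 2, 3), ((1, 2, 8), 4, 2, 6), ((1, 4, 8), 4, 3, 6), ((2, 1, 3), 2, 4, 0),
    ((3, 2, 4), 0, 2, 3), ((4, 1, 3), 3, 4, 0), ((5, 6, 8), 3, 5, 6), ((6, 5, 7), 5, 3, 0),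
    ((7, 0, 6), 0, 1, 5), ((8, 1, 5), 6, 4, 3)]
  Tc := []
  Td := [((1, 2), (0, 1), 4), ((1, 2), (0, 7), 0), ((2, 1), (2, 1), 4), ((2, 1), (2, 3), 0)]
  G := [[0, 0, 0xb849178ac451b16748c8c, 0x68ab8e4e415848134271868d, 0xe42e4e8ca151346748a89],
    [0, 0, 0x21291b8d8e645134687188cc, 0xb1292b1c647127258ca8c, 0xe8e86e48a151316748a89], [0,
    0x94b8b8e14725878e18c, 0, 0x92b8cb42347478a58458c, 0xe42e4e8ca1745838e189], [0,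
    0x94b834e1452696672898c, 0, 0x92b2f8e413827458c61c, 0xe8e46e48a1745838e819]]

noncomputable def n1079 : Ent := ⟨e1079, noF, [], [], []⟩

def c1079 : PLift (Cov.check n1079.C.D v1079 = true) := ⟨by decide +kernel⟩

def b1079 : PLift (entF (fidx ts) 400 1079 n1079 = true) := ⟨by decide +kernel⟩

theorem g1079 : GoodF (fidx ts) 400 1079 := GoodF.ofV v1079 n1079 c1079.down b1079.down

/-- 464945:894/2 -/
noncomputable def e1080 : SCfg where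
  D := {
    a := 6
    L := 9
    kp := 6
    inn := [(0, 1), (1, 0), (1, 2), (1, 3), (1, 4), (2, 1), (2, 3), (3, 1), (3, 2), (3, 4), (3, 5), (4,
      1), (4, 3), (5, 3)]
    mix := [(0, 0), (0, 1), (0, 2), (1, 0), (1, 2), (2, 2), (2, 3), (3, 3), (3, 4), (3, 5), (3, 6), (3,
      7), (4, 0), (4, 7), (5, 1), (5, 4), (5, 5), (5, 8)]
    cl := [0, 2, 1, 3, 4, 4, 5, 3, 6]
    chq := [(0, 1), (1, 0)]
    rng := [(0, 1), (0, 7), (1, 0), (1, 2), (1, 5), (1, 8), (2, 1), (2, 3), (3, 2), (3, 4), (4, 3), (4,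
      8), (5, 1), (5, 6), (6, 5), (6, 7), (7, 0), (7, 6), (8, 1), (8, 4)]
    lev := [] }
  links := [[1, 6, 7, 8], [6, 0, 8, 2, 3, 4], [3, 1, 8, 9], [4, 1, 2, 9, 10, 5, 11, 12, 13], [6, 1, 3,
    13], [11, 3, 10, 14, 7]]
  P := {
    a := 6
    N := 15
    nb := [450, 349, 778, 15926, 8266, 19592, 8339, 18785, 647, 1292, 16936, 4264, 10248, 4184, 1184]
    tri := [(0, 1, 6), (0, 1, 8), (0, 6, 7), (0, 7, 8), (1, 2, 3), (1, 2, 8), (1, 3, 4), (1, 4, 6), (2,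
      3, 9), (2, 8, 9), (3, 4, 13), (3, 5, 10), (3, 5, 11), (3, 9, 10), (3, 11, 12), (3, 12, 13),
      (4, 6, 13), (5, 7, 11), (5, 7, 14), (5, 10, 14)]
    fin := [0, 1, 1, 3, 1, 5, 0, 5, 8, 1, 3, 3, 12, 1, 14]
    chd := [(0, 8)]
    steps := [(0, 6), (1, 2), (1, 4), (1, 9), (1, 13), (3, 10), (3, 11), (5, 7)] }
  rep := [0, 8, 5, 1, 3, 12, 14]

noncomputable def v1080 : Cov.CovD where
  P := 3
  N := 4
  pl := [1, 6, 8]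
  lev := [⟨[], [], [(0, 1)], [2], [(0, 0, [1]), (2, 1, [0])]⟩,
    ⟨[], [(0, 0), (0, 1)], [(0, 1)], [], [(0, 0, [1]), (2, 1, [0])]⟩,
    ⟨[(0, 1)], [(0, 1), (1, 0), (1, 1), (1, 3)], [(1, 3)], [], [(2, 1, [0]), (3, 3, [])]⟩,
    ⟨[(0, 1), (1, 2)], [(1, 0), (1, 1), (1, 3), (1, 4), (2, 1), (2, 3), (2, 4)], [(3, 3),
      (3, 4), (4, 4)], [5], [(3, 3, []), (4, 4, []), (5, 4, []), (7, 3, [])]⟩,
    ⟨[(0, 1), (1, 2), (1, 3), (2, 3)], [(0, 0), (1, 0), (1, 1), (1, 3), (3, 0), (3, 3), (3,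
      4)], [(0, 3)], [], [(0, 0, [1]), (7, 3, [])]⟩,
    ⟨[(1, 3), (2, 3), (3, 4)], [(3, 3), (3, 4)], [(4, 4)], [2, 6], [(4, 4, []), (5, 4,
      [])]⟩]
  Ta := [((3, 2), 3, 1), ((3, 4), 3, 4), ((4, 3), 4, 3), ((4, 8), 4, 6), ((5, 1), 4, 2), ((5, 6),
    4, 5), ((7, 0), 3, 0), ((7, 6), 3, 5)]
  Tb := [((0, 1, 7), 0, 2, 3), ((1, 0, 2), 2, 0, 1), ((1, 0, 5), 2, 0, 4), ((1, 0, 8), 2, 0, 6),
    ((1, 2, 5), 2, 1, 4), ((1, 2, 8), 2, 1, 6), ((1, 5, 8), 2, 4, 6), ((2, 1, 3), 1, 2, 3),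
    ((3, 2, 4), 3, 1, 4), ((4, 3, 8), 4, 3, 6), ((5, 1, 6), 4, 2, 5), ((6, 5, 7), 5, 4, 3),
    ((7, 0, 6), 3, 0, 5), ((8, 1, 4), 6, 2, 4)]
  Tc := []
  Td := [((0, 1), (0, 1), 2), ((0, 1), (0, 7), 3), ((1, 0), (2, 1), 2), ((1, 0), (2, 3), 3)]
  G := [[0, 0xd81941d4d8d1eb24, 0xe241e2e8e8b1c8, 0xc2d26158198148a8dc8, 0xb81981b2b2b8ed48],
    [0, 0xd41521d1d167d181a4, 0xe241e2e8e2b1c8, 0x141c245181c2d8c2b9c8, 0xb8192138ab2b8ed48],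
    [0, 0xd1d1d567258981a8, 0xc26ace271c281c4, 0xd241d2d23d289c4, 0xb2328eb27b28948], [0,
    0xd1d9a3d1d1c928, 0xc241c26ace2b1c8, 0x921d2d24875d281c4, 0x121b2b2baca2f948]]

noncomputable def n1080 : Ent := ⟨e1080, noF, [], [], []⟩

def c1080 : PLift (Cov.check n1080.C.D v1080 = true) := ⟨by decide +kernel⟩

def b1080 : PLift (entF (fidx ts) 400 1080 n1080 = true) := ⟨by decide +kernel⟩

theorem g1080 : GoodF (fidx ts) 400 1080 := GoodF.ofV v1080 n1080 c1080.down b1080.down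

/-- 464945:894 -/
noncomputable def e1081 : SCfg where
  D := {
    a := 6
    L := 10
    kp := 7
    inn := [(0, 1), (1, 0), (1, 2), (1, 3), (1, 4), (2, 1), (2, 3), (3, 1), (3, 2), (3, 4), (3, 5), (4,
      1), (4, 3), (5, 3)]
    mix := [(0, 0), (0, 1), (0, 2), (1, 0), (1, 2), (2, 2), (2, 3), (3, 3), (3, 4), (3, 5), (3, 6), (3,
      7), (4, 0), (4, 7), (5, 4), (5, 5), (5, 8), (5, 9)]
    cl := [3, 2, 1, 0, 4, 4, 5, 0, 6, 7]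
    chq := [(1, 3), (3, 1)]
    rng := [(0, 1), (0, 7), (1, 0), (1, 2), (2, 1), (2, 3), (3, 2), (3, 4), (4, 3), (4, 8), (5, 6), (5,
      9), (6, 5), (6, 7), (7, 0), (7, 6), (8, 4), (8, 9), (9, 5), (9, 8)]
    lev := [] }
  links := [[1, 6, 7, 8], [6, 0, 8, 2, 3, 4], [3, 1, 8, 9], [4, 1, 2, 9, 10, 5, 11, 12, 13], [6, 1, 3,
    13], [11, 3, 10, 14, 15]]
  P := {
    a := 6
    N := 16
    nb := [450, 349, 778, 15926, 8266, 52232, 8339, 321, 647, 1292, 16936, 36904, 10248, 4184, 33824,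
      18464]
    tri := [(0, 1, 6), (0, 1, 8), (0, 6, 7), (0, 7, 8), (1, 2, 3), (1, 2, 8), (1, 3, 4), (1, 4, 6), (2,
      3, 9), (2, 8, 9), (3, 4, 13), (3, 5, 10), (3, 5, 11), (3, 9, 10), (3, 11, 12), (3, 12, 13),
      (4, 6, 13), (5, 10, 14), (5, 11, 15), (5, 14, 15)]
    fin := [0, 0, 0, 3, 0, 5, 0, 7, 8, 3, 5, 5, 12, 3, 14, 15]
    chd := [(0, 8)]
    steps := [(0, 1), (0, 2), (0, 4), (0, 6), (3, 9), (3, 13), (5, 10), (5, 11)] }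
  rep := [3, 8, 7, 0, 5, 12, 14, 15]

noncomputable def v1081 : Cov.CovD where
  P := 3
  N := 5
  pl := [1, 6, 8, 9]
  lev := [⟨[], [], [(1, 3)], [2], [(0, 3, [1]), (2, 1, [3])]⟩,
    ⟨[], [(0, 1), (0, 3)], [(1, 3)], [], [(0, 3, [1]), (2, 1, [3])]⟩,
    ⟨[(0, 1)], [(0, 1), (1, 0), (1, 1), (1, 3)], [(0, 1)], [], [(2, 1, [3]), (3, 0, [])]⟩,
    ⟨[(0, 1), (1, 2)], [(1, 0), (1, 1), (1, 3), (1, 4), (2, 0), (2, 1), (2, 4)], [(0, 0),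
      (0, 4), (4, 4)], [5], [(3, 0, []), (4, 4, []), (5, 4, []), (7, 0, [])]⟩,
    ⟨[(0, 1), (1, 2), (1, 3), (2, 3)], [(0, 3), (1, 0), (1, 1), (1, 3), (3, 0), (3, 3), (3,
      4)], [(0, 3)], [], [(0, 3, [1]), (7, 0, [])]⟩,
    ⟨[(1, 3), (2, 3), (3, 4)], [(3, 0), (3, 4)], [(4, 4)], [6, 7], [(4, 4, []), (5, 4,
      [])]⟩]
  Ta := [((3, 2), 0, 1), ((3, 4), 0, 4), ((4, 3), 4, 0), ((4, 8), 4, 6), ((5, 6), 4, 5), ((5, 9),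
    4, 7), ((7, 0), 0, 3), ((7, 6), 0, 5)]
  Tb := [((0, 1, 7), 3, 2, 0), ((1, 0, 2), 2, 3, 1), ((2, 1, 3), 1, 2, 0), ((3, 2, 4), 0, 1, 4),
    ((4, 3, 8), 4, 0, 6), ((5, 6, 9), 4, 5, 7), ((6, 5, 7), 5, 4, 0), ((7, 0, 6), 0, 3, 5),
    ((8, 4, 9), 6, 4, 7), ((9, 5, 8), 7, 4, 6)]
  Tc := []
  Td := [((1, 3), (2, 1), 2), ((1, 3), (2, 3), 0), ((3, 1), (0, 1), 2), ((3, 1), (0, 7), 0)]
  G := [[0, 0x31f16c146f182a71f1a818af2486c, 0xf2f86f28c1424f4b2f4ec1c, 0xf222de6f28c11,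
    0xf24f22fdeac11], [0, 0xf12f146f184af12f18af1486c, 0xb1f164484f28c9f2f46f28c1c,
    0xf24f222deac11, 0xf22fde6f28c11], [0, 0, 0xf8f86f28c1e24f412f4ec1c,
    0xf248a5a2f289cf222de6f28c15, 0xf241f4f8a1cf222de6f28c19], [0, 0,
    0xf24f2f8ac1f24f2f4ac1c, 0xf2418f2f8a14f222de6f28c1d, 0xf2413caf8a4cf222de6f28c19]]

noncomputable def n1081 : Ent := ⟨e1081, noF, [], [], [(7, 14, [385746751338780685620664494392815470296102193487288376376913921, 0]), (7, 15, [360035742630636841211993100915356868655746945586763691012096001, 0])]⟩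

def c1081 : PLift (Cov.check n1081.C.D v1081 = true) := ⟨by decide +kernel⟩

def b1081 : PLift (entF (fidx ts) 400 1081 n1081 = true) := ⟨by decide +kernel⟩

theorem g1081 : GoodF (fidx ts) 400 1081 := GoodF.ofV v1081 n1081 c1081.down b1081.down

/-- 464764:897/1 -/
noncomputable def e1082 : SCfg where
  D := {
    a := 6
    L := 9
    kp := 6
    inn := [(0, 1), (1, 0), (1, 2), (1, 3), (2, 1), (2, 3), (3, 1), (3, 2), (3, 4), (4, 3), (4, 5), (5,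
      4)]
    mix := [(0, 0), (0, 1), (0, 2), (1, 0), (1, 2), (1, 3), (2, 2), (2, 4), (3, 3), (3, 4), (3, 5), (3,
      6), (4, 5), (4, 6), (4, 7), (4, 8), (5, 1), (5, 5), (5, 7)]
    cl := [2, 1, 0, 0, 4, 3, 3, 5, 6]
    chq := [(1, 6), (6, 1)]
    rng := [(0, 1), (0, 3), (1, 0), (1, 2), (1, 5), (1, 7), (2, 1), (2, 4), (3, 0), (3, 6), (4, 2), (4,
      5), (5, 1), (5, 4), (6, 3), (6, 8), (7, 1), (7, 8), (8, 6), (8, 7)]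
    lev := [] }
  links := [[1, 6, 7, 8], [6, 0, 8, 2, 3, 9], [3, 1, 8, 10], [9, 1, 2, 10, 11, 4, 12], [12, 3, 11, 5, 13,
    14], [13, 4, 11, 7]]
  P := {
    a := 6
    N := 15
    nb := [450, 845, 1290, 7702, 30760, 10384, 643, 10593, 1159, 4170, 2316, 1208, 16920, 16560,
      12304]
    tri := [(0, 1, 6), (0, 1, 8), (0, 6, 7), (0, 7, 8), (1, 2, 3), (1, 2, 8), (1, 3, 9), (1, 6, 9), (2,
      3, 10), (2, 8, 10), (3, 4, 11), (3, 4, 12), (3, 9, 12), (3, 10, 11), (4, 5, 11), (4, 5, 13),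
      (4, 12, 14), (4, 13, 14), (5, 7, 11), (5, 7, 13)]
    fin := [0, 1, 1, 3, 4, 4, 0, 4, 1, 1, 10, 3, 3, 13, 14]
    chd := [(4, 14)]
    steps := [(0, 6), (1, 2), (1, 8), (1, 9), (3, 11), (3, 12), (4, 5), (4, 7)] }
  rep := [1, 4, 0, 3, 10, 13, 14]

noncomputable def v1082 : Cov.CovD where
  P := 3
  N := 4
  pl := [0, 4, 7]
  lev := [⟨[], [], [(0, 1)], [2], [(1, 1, [6]), (2, 0, [])]⟩,
    ⟨[], [(0, 0), (0, 1)], [(0, 0)], [2], [(2, 0, []), (3, 0, [])]⟩,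
    ⟨[(0, 1)], [(0, 0), (1, 0)], [], [4], [(2, 0, [])]⟩,
    ⟨[(0, 1), (1, 2)], [(1, 0), (1, 3), (2, 0), (2, 3)], [(0, 3), (3, 3)], [4], [(3, 0,
      []), (5, 3, []), (6, 3, [])]⟩,
    ⟨[(1, 3), (2, 3)], [(3, 0), (3, 3), (3, 6)], [(3, 3), (3, 6)], [5], [(5, 3, []), (6, 3,
      []), (8, 6, [1])]⟩,
    ⟨[(3, 4)], [(0, 1), (3, 3), (4, 1), (4, 3), (4, 6)], [(1, 3)], [5], [(1, 1, [6]), (5,
      3, [])]⟩]
  Ta := [((2, 1), 0, 1), ((2, 4), 0, 4), ((3, 0), 0, 2), ((3, 6), 0, 3), ((5, 1), 3, 1), ((5, 4),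
    3, 4), ((6, 3), 3, 0), ((6, 8), 3, 6)]
  Tb := [((0, 1, 3), 2, 1, 0), ((1, 0, 2), 1, 2, 0), ((1, 0, 5), 1, 2, 3), ((1, 0, 7), 1, 2, 5),
    ((1, 2, 5), 1, 0, 3), ((1, 2, 7), 1, 0, 5), ((1, 5, 7), 1, 3, 5), ((2, 1, 4), 0, 1, 4),
    ((3, 0, 6), 0, 2, 3), ((4, 2, 5), 4, 0, 3), ((5, 1, 4), 3, 1, 4), ((6, 3, 8), 3, 0, 6),
    ((7, 1, 8), 5, 1, 6), ((8, 6, 7), 6, 3, 5)]
  Tc := []
  Td := [((1, 6), (1, 0), 2), ((1, 6), (1, 2), 0), ((1, 6), (1, 5), 3), ((1, 6), (1, 7), 5), ((6,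
    1), (8, 6), 3), ((6, 1), (8, 7), 5)]
  G := [[0, 0xe144e18e12ac4, 0, 0xd21d22c48, 0x851b11849e744917841d85ab8a8], [0,
    0xa144c18a12ac8, 0, 0x921922c48, 0xc22441818141cef841d2ca8], [0, 0,
    0x8951f41913854c84d1fa9c4, 0x9252d2e148, 0xd2215491f8951f841de1a8], [0, 0,
    0x494b84c1fa118474868, 0xc29292e148, 0x858744c1f6148381889a8]]

noncomputable def n1082 : Ent := ⟨e1082, noF, [], [], []⟩

def c1082 : PLift (Cov.check n1082.C.D v1082 = true) := ⟨by decide +kernel⟩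

def b1082 : PLift (entF (fidx ts) 400 1082 n1082 = true) := ⟨by decide +kernel⟩

theorem g1082 : GoodF (fidx ts) 400 1082 := GoodF.ofV v1082 n1082 c1082.down b1082.down

/-- 464764:897/2 -/
noncomputable def e1083 : SCfg where
  D := {
    a := 6
    L := 9
    kp := 6
    inn := [(0, 1), (1, 0), (1, 2), (1, 3), (2, 1), (2, 3), (3, 1), (3, 2), (3, 4), (4, 3), (4, 5), (5,
      4)]
    mix := [(0, 0), (0, 1), (0, 2), (1, 0), (1, 2), (1, 3), (2, 2), (2, 4), (3, 3), (3, 4), (3, 5), (3,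
      6), (4, 1), (4, 5), (4, 6), (4, 7), (5, 1), (5, 5), (5, 8)]
    cl := [4, 3, 0, 0, 2, 1, 1, 5, 6]
    chq := [(5, 6), (6, 5)]
    rng := [(0, 1), (0, 3), (1, 0), (1, 2), (1, 7), (1, 8), (2, 1), (2, 4), (3, 0), (3, 6), (4, 2), (4,
      5), (5, 4), (5, 8), (6, 3), (6, 7), (7, 1), (7, 6), (8, 1), (8, 5)]
    lev := [] }
  links := [[1, 6, 7, 8], [6, 0, 8, 2, 3, 9], [3, 1, 8, 10], [9, 1, 2, 10, 11, 4, 12], [12, 3, 11, 5, 7,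
    13], [7, 4, 11, 14]]
  P := {
    a := 6
    N := 15
    nb := [450, 845, 1290, 7702, 14504, 18576, 643, 24945, 1159, 4170, 2316, 17464, 8728, 4240, 2208]
    tri := [(0, 1, 6), (0, 1, 8), (0, 6, 7), (0, 7, 8), (1, 2, 3), (1, 2, 8), (1, 3, 9), (1, 6, 9), (2,
      3, 10), (2, 8, 10), (3, 4, 11), (3, 4, 12), (3, 9, 12), (3, 10, 11), (4, 5, 7), (4, 5, 11),
      (4, 7, 13), (4, 12, 13), (5, 7, 14), (5, 11, 14)]
    fin := [0, 1, 1, 3, 4, 4, 0, 7, 1, 1, 10, 3, 3, 13, 4]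
    chd := [(13, 4)]
    steps := [(0, 6), (1, 2), (1, 8), (1, 9), (3, 11), (3, 12), (4, 5), (4, 14)] }
  rep := [1, 3, 10, 7, 0, 13, 4]

noncomputable def v1083 : Cov.CovD where
  P := 3
  N := 4
  pl := [0, 1, 4]
  lev := [⟨[], [], [], [3, 4], [(2, 0, [])]⟩,
    ⟨[], [(0, 0)], [(0, 0)], [4], [(2, 0, []), (3, 0, [])]⟩,
    ⟨[(0, 1)], [(0, 0), (1, 0)], [], [2], [(2, 0, [])]⟩,
    ⟨[(0, 1), (1, 2)], [(1, 0), (1, 1), (2, 0), (2, 1)], [(0, 1), (1, 1)], [2], [(3, 0,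
      []), (5, 1, []), (6, 1, [])]⟩,
    ⟨[(1, 3), (2, 3)], [(3, 0), (3, 1), (3, 5)], [(1, 1), (1, 5)], [3], [(5, 1, []), (6, 1,
      []), (7, 5, [6])]⟩,
    ⟨[(3, 4)], [(3, 1), (4, 1), (4, 5), (4, 6)], [(1, 6)], [3], [(5, 1, []), (8, 6, [5])]⟩]
  Ta := [((2, 1), 0, 3), ((2, 4), 0, 2), ((3, 0), 0, 4), ((3, 6), 0, 1), ((5, 4), 1, 2), ((5, 8),
    1, 6), ((6, 3), 1, 0), ((6, 7), 1, 5)]
  Tb := [((0, 1, 3), 4, 3, 0), ((1, 0, 2), 3, 4, 0), ((1, 0, 7), 3, 4, 5), ((1, 0, 8), 3, 4, 6),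
    ((1, 2, 7), 3, 0, 5), ((1, 2, 8), 3, 0, 6), ((1, 7, 8), 3, 5, 6), ((2, 1, 4), 0, 3, 2),
    ((3, 0, 6), 0, 4, 1), ((4, 2, 5), 2, 0, 1), ((5, 4, 8), 1, 2, 6), ((6, 3, 7), 1, 0, 5),
    ((7, 1, 6), 5, 3, 1), ((8, 1, 5), 6, 3, 1)]
  Tc := []
  Td := [((5, 6), (7, 1), 3), ((5, 6), (7, 6), 1), ((6, 5), (8, 1), 3), ((6, 5), (8, 5), 1)]
  G := [[0, 0, 0x18944814588411cd842e, 0x58944894588459cd482e, 0x58c128188c945884c151c982e], [0,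
    0, 0x189428145884222d842e, 0, 0xb8c122182c1458242122c982e], [0, 0, 0,
    0x18941814588411cd842d, 0x1898221458821458218982cd], [0, 0x111e481411ac8c1, 0, 0,
    0x145824129812195822882c7]]

noncomputable def n1083 : Ent := ⟨e1083, noF, [], [], []⟩

def c1083 : PLift (Cov.check n1083.C.D v1083 = true) := ⟨by decide +kernel⟩

def b1083 : PLift (entF (fidx ts) 400 1083 n1083 = true) := ⟨by decide +kernel⟩

theorem g1083 : GoodF (fidx ts) 400 1083 := GoodF.ofV v1083 n1083 c1083.down b1083.down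

/-- 464764:897/3 -/
noncomputable def e1084 : SCfg where
  D := {
    a := 6
    L := 9
    kp := 6
    inn := [(0, 1), (1, 0), (1, 2), (1, 3), (2, 1), (2, 3), (3, 1), (3, 2), (3, 4), (4, 3), (4, 5), (5,
      4)]
    mix := [(0, 0), (0, 1), (0, 2), (1, 0), (1, 2), (1, 3), (2, 2), (2, 4), (3, 3), (3, 4), (3, 5), (3,
      6), (4, 1), (4, 5), (4, 6), (4, 7), (5, 5), (5, 7), (5, 8)]
    cl := [3, 2, 0, 0, 4, 1, 1, 5, 6]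
    chq := [(2, 6), (6, 2)]
    rng := [(0, 1), (0, 3), (1, 0), (1, 2), (1, 6), (1, 7), (2, 1), (2, 4), (3, 0), (3, 6), (4, 2), (4,
      5), (5, 4), (5, 8), (6, 1), (6, 3), (7, 1), (7, 8), (8, 5), (8, 7)]
    lev := [] }
  links := [[1, 6, 7, 8], [6, 0, 8, 2, 3, 9], [3, 1, 8, 10], [9, 1, 2, 10, 11, 4, 12], [12, 3, 11, 5, 13,
    7], [13, 4, 11, 14]]
  P := {
    a := 6
    N := 15
    nb := [450, 845, 1290, 7702, 14504, 26640, 643, 12625, 1159, 4170, 2316, 17464, 664, 16560, 10272]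
    tri := [(0, 1, 6), (0, 1, 8), (0, 6, 7), (0, 7, 8), (1, 2, 3), (1, 2, 8), (1, 3, 9), (1, 6, 9), (2,
      3, 10), (2, 8, 10), (3, 4, 11), (3, 4, 12), (3, 9, 12), (3, 10, 11), (4, 5, 11), (4, 5, 13),
      (4, 7, 12), (4, 7, 13), (5, 11, 14), (5, 13, 14)]
    fin := [0, 1, 1, 3, 4, 4, 0, 4, 1, 1, 10, 3, 3, 13, 14]
    chd := [(4, 14)]
    steps := [(0, 6), (1, 2), (1, 8), (1, 9), (3, 11), (3, 12), (4, 5), (4, 7)] }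
  rep := [1, 3, 4, 0, 10, 13, 14]

noncomputable def v1084 : Cov.CovD where
  P := 3
  N := 4
  pl := [0, 4, 7]
  lev := [⟨[], [], [(0, 2)], [3], [(1, 2, [6]), (2, 0, [])]⟩,
    ⟨[], [(0, 0), (0, 2)], [(0, 0)], [3], [(2, 0, []), (3, 0, [])]⟩,
    ⟨[(0, 1)], [(0, 0), (1, 0)], [], [4], [(2, 0, [])]⟩,
    ⟨[(0, 1), (1, 2)], [(1, 0), (1, 1), (2, 0), (2, 1)], [(0, 1), (1, 1)], [4], [(3, 0,
      []), (5, 1, []), (6, 1, [])]⟩,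
    ⟨[(1, 3), (2, 3)], [(0, 2), (3, 0), (3, 1), (3, 2)], [(1, 1), (1, 2)], [5], [(1, 2,
      [6]), (5, 1, []), (6, 1, [])]⟩,
    ⟨[(3, 4)], [(3, 1), (4, 1), (4, 2), (4, 6)], [(1, 6)], [5], [(5, 1, []), (8, 6, [2])]⟩]
  Ta := [((2, 1), 0, 2), ((2, 4), 0, 4), ((3, 0), 0, 3), ((3, 6), 0, 1), ((5, 4), 1, 4), ((5, 8),
    1, 6), ((6, 1), 1, 2), ((6, 3), 1, 0)]
  Tb := [((0, 1, 3), 3, 2, 0), ((1, 0, 2), 2, 3, 0), ((1, 0, 6), 2, 3, 1), ((1, 0, 7), 2, 3, 5),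
    ((1, 2, 6), 2, 0, 1), ((1, 2, 7), 2, 0, 5), ((1, 6, 7), 2, 1, 5), ((2, 1, 4), 0, 2, 4),
    ((3, 0, 6), 0, 3, 1), ((4, 2, 5), 4, 0, 1), ((5, 4, 8), 1, 4, 6), ((6, 1, 3), 1, 2, 0),
    ((7, 1, 8), 5, 2, 6), ((8, 5, 7), 6, 1, 5)]
  Tc := []
  Td := [((2, 6), (1, 0), 3), ((2, 6), (1, 2), 0), ((2, 6), (1, 6), 1), ((2, 6), (1, 7), 5), ((6,
    2), (8, 5), 1), ((6, 2), (8, 7), 5)]
  G := [[0, 0, 0x11c14811c12411c182e, 0, 0xd1489c594a451c89d494c2a], [0, 0, 0x11c12421c1286,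
    0x22c22c52821828245a2c, 0x429429c24412894294c2a], [0, 0, 0, 0, 0x4d9c59c144d95c9c12a],
    [0, 0x21c24a1421c22248184ca5, 0, 0x22c22cc12229225c229, 0x429429c12429429c243]]

noncomputable def n1084 : Ent := ⟨e1084, noF, [], [], []⟩

def c1084 : PLift (Cov.check n1084.C.D v1084 = true) := ⟨by decide +kernel⟩

def b1084 : PLift (entF (fidx ts) 400 1084 n1084 = true) := ⟨by decide +kernel⟩

theorem g1084 : GoodF (fidx ts) 400 1084 := GoodF.ofV v1084 n1084 c1084.down b1084.down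

/-- 464764:897 -/
noncomputable def e1085 : SCfg where
  D := {
    a := 6
    L := 10
    kp := 7
    inn := [(0, 1), (1, 0), (1, 2), (1, 3), (2, 1), (2, 3), (3, 1), (3, 2), (3, 4), (4, 3), (4, 5), (5,
      4)]
    mix := [(0, 0), (0, 1), (0, 2), (1, 0), (1, 2), (1, 3), (2, 2), (2, 4), (3, 3), (3, 4), (3, 5), (3,
      6), (4, 5), (4, 6), (4, 7), (4, 8), (5, 5), (5, 7), (5, 9)]
    cl := [3, 7, 0, 0, 2, 1, 1, 4, 5, 6]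
    chq := [(5, 6), (6, 5)]
    rng := [(0, 1), (0, 3), (1, 0), (1, 2), (2, 1), (2, 4), (3, 0), (3, 6), (4, 2), (4, 5), (5, 4), (5,
      9), (6, 3), (6, 8), (7, 8), (7, 9), (8, 6), (8, 7), (9, 5), (9, 7)]
    lev := [] }
  links := [[1, 6, 7, 8], [6, 0, 8, 2, 3, 9], [3, 1, 8, 10], [9, 1, 2, 10, 11, 4, 12], [12, 3, 11, 5, 13,
    14], [13, 4, 11, 15]]
  P := {
    a := 6
    N := 16
    nb := [450, 845, 1290, 7702, 30760, 43024, 643, 321, 1159, 4170, 2316, 33848, 16920, 49200, 12304,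
      10272]
    tri := [(0, 1, 6), (0, 1, 8), (0, 6, 7), (0, 7, 8), (1, 2, 3), (1, 2, 8), (1, 3, 9), (1, 6, 9), (2,
      3, 10), (2, 8, 10), (3, 4, 11), (3, 4, 12), (3, 9, 12), (3, 10, 11), (4, 5, 11), (4, 5, 13),
      (4, 12, 14), (4, 13, 14), (5, 11, 15), (5, 13, 15)]
    fin := [0, 1, 1, 3, 4, 4, 0, 7, 1, 1, 10, 3, 3, 13, 14, 4]
    chd := [(14, 4)]
    steps := [(0, 6), (1, 2), (1, 8), (1, 9), (3, 11), (3, 12), (4, 5), (4, 15)] }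
  rep := [1, 3, 10, 0, 13, 14, 4, 7]

noncomputable def v1085 : Cov.CovD where
  P := 3
  N := 5
  pl := [0, 1, 4, 7]
  lev := [⟨[], [], [], [3, 7], [(2, 0, [])]⟩,
    ⟨[], [(0, 0)], [(0, 0)], [3], [(2, 0, []), (3, 0, [])]⟩,
    ⟨[(0, 1)], [(0, 0), (1, 0)], [], [2], [(2, 0, [])]⟩,
    ⟨[(0, 1), (1, 2)], [(1, 0), (1, 1), (2, 0), (2, 1)], [(0, 1), (1, 1)], [2], [(3, 0,
      []), (5, 1, []), (6, 1, [])]⟩,
    ⟨[(1, 3), (2, 3)], [(3, 0), (3, 1), (3, 5)], [(1, 1), (1, 5)], [4], [(5, 1, []), (6, 1,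
      []), (8, 5, [6])]⟩,
    ⟨[(3, 4)], [(3, 1), (4, 1), (4, 5), (4, 6)], [(1, 6)], [4], [(5, 1, []), (9, 6, [5])]⟩]
  Ta := [((2, 1), 0, 7), ((2, 4), 0, 2), ((3, 0), 0, 3), ((3, 6), 0, 1), ((5, 4), 1, 2), ((5, 9),
    1, 6), ((6, 3), 1, 0), ((6, 8), 1, 5)]
  Tb := [((0, 1, 3), 3, 7, 0), ((1, 0, 2), 7, 3, 0), ((2, 1, 4), 0, 7, 2), ((3, 0, 6), 0, 3, 1),
    ((4, 2, 5), 2, 0, 1), ((5, 4, 9), 1, 2, 6), ((6, 3, 8), 1, 0, 5), ((7, 8, 9), 4, 5, 6),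
    ((8, 6, 7), 5, 1, 4), ((9, 5, 7), 6, 1, 4)]
  Tc := []
  Td := [((5, 6), (8, 6), 1), ((5, 6), (8, 7), 4), ((6, 5), (9, 5), 1), ((6, 5), (9, 7), 4)]
  G := [[0, 0, 0x59cd42859cd82459cd482e, 0x5c9945489c55898459cd842e,
    0x59c12c188c188e9c558984c159c982e], [0, 0, 0x296d428a1852c8a46a2d842e, 0,
    0x6ac1221822188e296d8249c528982e], [0, 0, 0, 0x59cd41259cd812945c9c487,
    0x59cd81459cd8129c58258825882e7], [0, 0x35618c4619e84a1, 0, 0,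
    0x6358588a45a2d8146a2d822d]]

noncomputable def n1085 : Ent := ⟨e1085, noF, [], [], [(7, 15, [360035742630636841211993100915356868655746945586763691012104193, 0]), (7, 13, [385753028440516072301428330182238677962518295842732840411443201, 0]), (7, 14, [385746751338780685620664494392815470296102193487288376376934401, 0])]⟩

def c1085 : PLift (Cov.check n1085.C.D v1085 = true) := ⟨by decide +kernel⟩

def b1085 : PLift (entF (fidx ts) 400 1085 n1085 = true) := ⟨by decide +kernel⟩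

theorem g1085 : GoodF (fidx ts) 400 1085 := GoodF.ofV v1085 n1085 c1085.down b1085.down

/-- 464764:898/2 -/
noncomputable def e1086 : SCfg where
  D := {
    a := 6
    L := 8
    kp := 5
    inn := [(0, 1), (1, 0), (1, 2), (1, 3), (2, 1), (2, 3), (3, 1), (3, 2), (3, 4), (4, 3), (4, 5), (5,
      4)]
    mix := [(0, 0), (0, 1), (0, 2), (1, 0), (1, 2), (1, 3), (2, 2), (2, 4), (3, 3), (3, 4), (3, 5), (3,
      6), (4, 1), (4, 5), (4, 6), (4, 7), (5, 0), (5, 1), (5, 6)]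
    cl := [2, 3, 0, 0, 4, 1, 1, 5]
    chq := [(2, 5), (5, 2)]
    rng := [(0, 1), (0, 3), (0, 6), (1, 0), (1, 2), (1, 7), (2, 1), (2, 4), (3, 0), (3, 6), (4, 2), (4,
      5), (5, 4), (5, 7), (6, 0), (6, 3), (7, 1), (7, 5)]
    lev := [] }
  links := [[1, 6, 7, 8], [6, 0, 8, 2, 3, 9], [3, 1, 8, 10], [9, 1, 2, 10, 11, 4, 12], [12, 3, 11, 13, 7,
    5], [12, 4, 7, 6]]
  P := {
    a := 6
    N := 14
    nb := [450, 845, 1290, 7702, 14504, 4304, 4771, 8561, 1159, 4170, 2316, 9240, 632, 2192]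
    tri := [(0, 1, 6), (0, 1, 8), (0, 6, 7), (0, 7, 8), (1, 2, 3), (1, 2, 8), (1, 3, 9), (1, 6, 9), (2,
      3, 10), (2, 8, 10), (3, 4, 11), (3, 4, 12), (3, 9, 12), (3, 10, 11), (4, 5, 7), (4, 5, 12),
      (4, 7, 13), (4, 11, 13), (5, 6, 7), (5, 6, 12)]
    fin := [0, 1, 1, 3, 0, 0, 0, 7, 1, 1, 10, 3, 3, 13]
    chd := [(0, 13)]
    steps := [(0, 6), (0, 5), (0, 4), (1, 2), (1, 8), (1, 9), (3, 11), (3, 12)] }
  rep := [1, 3, 0, 7, 10, 13]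

noncomputable def v1086 : Cov.CovD where
  P := 3
  N := 3
  pl := [1, 4]
  lev := [⟨[], [], [(0, 2)], [3], [(0, 2, [5]), (2, 0, [])]⟩,
    ⟨[], [(0, 0), (0, 2)], [(0, 0), (0, 2)], [], [(0, 2, [5]), (2, 0, []), (3, 0, [])]⟩,
    ⟨[(0, 1)], [(0, 0), (1, 0), (1, 2)], [], [4], [(2, 0, [])]⟩,
    ⟨[(0, 1), (1, 2)], [(1, 0), (1, 1), (1, 2), (2, 0), (2, 1)], [(0, 1), (1, 1)], [4],
      [(3, 0, []), (5, 1, []), (6, 1, [])]⟩,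
    ⟨[(1, 3), (2, 3)], [(3, 0), (3, 1), (3, 5)], [(1, 1), (1, 5)], [3], [(5, 1, []), (6, 1,
      []), (7, 5, [2])]⟩,
    ⟨[(3, 4)], [(0, 2), (1, 2), (3, 1), (4, 1), (4, 2), (4, 5)], [(1, 2)], [3], [(0, 2,
      [5]), (6, 1, [])]⟩]
  Ta := [((2, 1), 0, 3), ((2, 4), 0, 4), ((3, 0), 0, 2), ((3, 6), 0, 1), ((5, 4), 1, 4), ((5, 7),
    1, 5), ((6, 0), 1, 2), ((6, 3), 1, 0)]
  Tb := [((0, 1, 3), 2, 3, 0), ((0, 1, 6), 2, 3, 1), ((0, 3, 6), 2, 0, 1), ((1, 0, 2), 3, 2, 0),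
    ((1, 0, 7), 3, 2, 5), ((1, 2, 7), 3, 0, 5), ((2, 1, 4), 0, 3, 4), ((3, 0, 6), 0, 2, 1),
    ((4, 2, 5), 4, 0, 1), ((5, 4, 7), 1, 4, 5), ((6, 0, 3), 1, 2, 0), ((7, 1, 5), 5, 3, 1)]
  Tc := []
  Td := [((2, 5), (0, 1), 3), ((2, 5), (0, 3), 0), ((2, 5), (0, 6), 1), ((5, 2), (7, 1), 3), ((5,
    2), (7, 5), 1)]
  G := [[0, 0, 0, 0, 0x118898194c224824168a], [0, 0, 0, 0x8188988d244451144d28c,
    0x18988c92214115c28a], [0, 0, 0x4181c122121c18a, 0, 0x115888418215ce21], [0,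
    0x44a4484c688284c6a45, 0x8181c144141c22c, 0x415111dc21882c1, 0x111d111dc221]]

noncomputable def n1086 : Ent := ⟨e1086, noF, [], [], []⟩

def c1086 : PLift (Cov.check n1086.C.D v1086 = true) := ⟨by decide +kernel⟩

def b1086 : PLift (entF (fidx ts) 400 1086 n1086 = true) := ⟨by decide +kernel⟩

theorem g1086 : GoodF (fidx ts) 400 1086 := GoodF.ofV v1086 n1086 c1086.down b1086.down

/-- 464764:898/1 -/
noncomputable def e1087 : SCfg where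
  D := {
    a := 6
    L := 9
    kp := 6
    inn := [(0, 1), (1, 0), (1, 2), (1, 3), (2, 1), (2, 3), (3, 1), (3, 2), (3, 4), (4, 3), (4, 5), (5,
      4)]
    mix := [(0, 0), (0, 1), (0, 2), (1, 0), (1, 2), (1, 3), (2, 2), (2, 4), (3, 3), (3, 4), (3, 5), (3,
      6), (4, 5), (4, 6), (4, 7), (4, 8), (5, 0), (5, 6), (5, 8)]
    cl := [2, 6, 0, 0, 3, 1, 1, 5, 4]
    chq := [(2, 5), (5, 2)]
    rng := [(0, 1), (0, 3), (0, 6), (0, 8), (1, 0), (1, 2), (2, 1), (2, 4), (3, 0), (3, 6), (4, 2), (4,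
      5), (5, 4), (5, 7), (6, 0), (6, 3), (7, 5), (7, 8), (8, 0), (8, 7)]
    lev := [] }
  links := [[1, 6, 7, 8], [6, 0, 8, 2, 3, 9], [3, 1, 8, 10], [9, 1, 2, 10, 11, 4, 12], [12, 3, 11, 13,
    14, 5], [12, 4, 14, 6]]
  P := {
    a := 6
    N := 15
    nb := [450, 845, 1290, 7702, 30760, 20560, 21155, 321, 1159, 4170, 2316, 9240, 632, 18448, 8304]
    tri := [(0, 1, 6), (0, 1, 8), (0, 6, 7), (0, 7, 8), (1, 2, 3), (1, 2, 8), (1, 3, 9), (1, 6, 9), (2,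
      3, 10), (2, 8, 10), (3, 4, 11), (3, 4, 12), (3, 9, 12), (3, 10, 11), (4, 5, 12), (4, 5, 14),
      (4, 11, 13), (4, 13, 14), (5, 6, 12), (5, 6, 14)]
    fin := [0, 1, 1, 3, 0, 0, 0, 7, 1, 1, 10, 3, 3, 13, 14]
    chd := [(0, 13)]
    steps := [(0, 6), (0, 5), (0, 4), (1, 2), (1, 8), (1, 9), (3, 11), (3, 12)] }
  rep := [1, 3, 0, 10, 14, 13, 7]

noncomputable def v1087 : Cov.CovD where
  P := 3
  N := 4
  pl := [1, 4, 8]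
  lev := [⟨[], [], [(0, 2)], [6], [(0, 2, [5]), (2, 0, [])]⟩,
    ⟨[], [(0, 0), (0, 2)], [(0, 0), (0, 2)], [], [(0, 2, [5]), (2, 0, []), (3, 0, [])]⟩,
    ⟨[(0, 1)], [(0, 0), (1, 0), (1, 2)], [], [3], [(2, 0, [])]⟩,
    ⟨[(0, 1), (1, 2)], [(1, 0), (1, 1), (1, 2), (2, 0), (2, 1)], [(0, 1), (1, 1)], [3],
      [(3, 0, []), (5, 1, []), (6, 1, [])]⟩,
    ⟨[(1, 3), (2, 3)], [(3, 0), (3, 1), (3, 5)], [(1, 1), (1, 5)], [4], [(5, 1, []), (6, 1,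
      []), (7, 5, [2])]⟩,
    ⟨[(3, 4)], [(0, 2), (1, 2), (3, 1), (4, 1), (4, 2), (4, 5)], [(1, 2)], [4], [(0, 2,
      [5]), (6, 1, [])]⟩]
  Ta := [((2, 1), 0, 6), ((2, 4), 0, 3), ((3, 0), 0, 2), ((3, 6), 0, 1), ((5, 4), 1, 3), ((5, 7),
    1, 5), ((6, 0), 1, 2), ((6, 3), 1, 0)]
  Tb := [((0, 1, 3), 2, 6, 0), ((0, 1, 6), 2, 6, 1), ((0, 1, 8), 2, 6, 4), ((0, 3, 6), 2, 0, 1),
    ((0, 3, 8), 2, 0, 4), ((0, 6, 8), 2, 1, 4), ((1, 0, 2), 6, 2, 0), ((2, 1, 4), 0, 6, 3),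
    ((3, 0, 6), 0, 2, 1), ((4, 2, 5), 3, 0, 1), ((5, 4, 7), 1, 3, 5), ((6, 0, 3), 1, 2, 0),
    ((7, 5, 8), 5, 1, 4), ((8, 0, 7), 4, 2, 5)]
  Tc := []
  Td := [((2, 5), (0, 1), 6), ((2, 5), (0, 3), 0), ((2, 5), (0, 6), 1), ((2, 5), (0, 8), 4), ((5,
    2), (7, 5), 1), ((5, 2), (7, 8), 4)]
  G := [[0, 0, 0, 0, 0xa25889889245c224119c8112c968a], [0, 0, 0, 0x41581984cd2441581984cd28c,
    0x119891d94d2298581989cd28a], [0, 0, 0xa161c126161c14a, 0, 0x215881941824ce21], [0,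
    0x848cacc284ca681, 0xc1c1c24c1c1c12c, 0x9442541d819c2c1, 0x198d891dc221]]

noncomputable def n1087 : Ent := ⟨e1087, noF, [], [], [(7, 14, [81620716623019490593592230936445690773474979418095887835137, 0])]⟩

def c1087 : PLift (Cov.check n1087.C.D v1087 = true) := ⟨by decide +kernel⟩

def b1087 : PLift (entF (fidx ts) 400 1087 n1087 = true) := ⟨by decide +kernel⟩

theorem g1087 : GoodF (fidx ts) 400 1087 := GoodF.ofV v1087 n1087 c1087.down b1087.down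

/-- 464764:898/3 -/
noncomputable def e1088 : SCfg where
  D := {
    a := 6
    L := 9
    kp := 6
    inn := [(0, 1), (1, 0), (1, 2), (1, 3), (2, 1), (2, 3), (3, 1), (3, 2), (3, 4), (4, 3), (4, 5), (5,
      4)]
    mix := [(0, 0), (0, 1), (0, 2), (1, 0), (1, 2), (1, 3), (2, 2), (2, 4), (3, 3), (3, 4), (3, 5), (3,
      6), (4, 1), (4, 5), (4, 6), (4, 7), (5, 6), (5, 7), (5, 8)]
    cl := [4, 3, 0, 0, 2, 1, 1, 5, 6]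
    chq := [(3, 6), (6, 3)]
    rng := [(0, 1), (0, 3), (1, 0), (1, 2), (1, 5), (1, 7), (2, 1), (2, 4), (3, 0), (3, 6), (4, 2), (4,
      5), (5, 1), (5, 4), (6, 3), (6, 8), (7, 1), (7, 8), (8, 6), (8, 7)]
    lev := [] }
  links := [[1, 6, 7, 8], [6, 0, 8, 2, 3, 9], [3, 1, 8, 10], [9, 1, 2, 10, 11, 4, 12], [12, 3, 11, 7, 13,
    5], [12, 4, 13, 14]]
  P := {
    a := 6
    N := 15
    nb := [450, 845, 1290, 7702, 14504, 28688, 643, 10577, 1159, 4170, 2316, 1176, 16952, 16560,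
      12320]
    tri := [(0, 1, 6), (0, 1, 8), (0, 6, 7), (0, 7, 8), (1, 2, 3), (1, 2, 8), (1, 3, 9), (1, 6, 9), (2,
      3, 10), (2, 8, 10), (3, 4, 11), (3, 4, 12), (3, 9, 12), (3, 10, 11), (4, 5, 12), (4, 5, 13),
      (4, 7, 11), (4, 7, 13), (5, 12, 14), (5, 13, 14)]
    fin := [0, 1, 1, 3, 4, 4, 0, 4, 1, 1, 10, 3, 3, 13, 14]
    chd := [(4, 14)]
    steps := [(0, 6), (1, 2), (1, 8), (1, 9), (3, 11), (3, 12), (4, 5), (4, 7)] }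
  rep := [1, 3, 10, 4, 0, 13, 14]

noncomputable def v1088 : Cov.CovD where
  P := 3
  N := 4
  pl := [0, 4, 7]
  lev := [⟨[], [], [(0, 3)], [4], [(1, 3, [6]), (2, 0, [])]⟩,
    ⟨[], [(0, 0), (0, 3)], [(0, 0)], [4], [(2, 0, []), (3, 0, [])]⟩,
    ⟨[(0, 1)], [(0, 0), (1, 0)], [], [2], [(2, 0, [])]⟩,
    ⟨[(0, 1), (1, 2)], [(1, 0), (1, 1), (2, 0), (2, 1)], [(0, 1), (1, 1)], [2], [(3, 0,
      []), (5, 1, []), (6, 1, [])]⟩,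
    ⟨[(1, 3), (2, 3)], [(0, 3), (3, 0), (3, 1), (3, 3)], [(1, 1), (1, 3)], [5], [(1, 3,
      [6]), (5, 1, []), (6, 1, [])]⟩,
    ⟨[(3, 4)], [(3, 1), (4, 1), (4, 3), (4, 6)], [(1, 6)], [5], [(6, 1, []), (8, 6, [3])]⟩]
  Ta := [((2, 1), 0, 3), ((2, 4), 0, 2), ((3, 0), 0, 4), ((3, 6), 0, 1), ((5, 1), 1, 3), ((5, 4),
    1, 2), ((6, 3), 1, 0), ((6, 8), 1, 6)]
  Tb := [((0, 1, 3), 4, 3, 0), ((1, 0, 2), 3, 4, 0), ((1, 0, 5), 3, 4, 1), ((1, 0, 7), 3, 4, 5),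
    ((1, 2, 5), 3, 0, 1), ((1, 2, 7), 3, 0, 5), ((1, 5, 7), 3, 1, 5), ((2, 1, 4), 0, 3, 2),
    ((3, 0, 6), 0, 4, 1), ((4, 2, 5), 2, 0, 1), ((5, 1, 4), 1, 3, 2), ((6, 3, 8), 1, 0, 6),
    ((7, 1, 8), 5, 3, 6), ((8, 6, 7), 6, 1, 5)]
  Tc := []
  Td := [((3, 6), (1, 0), 4), ((3, 6), (1, 2), 0), ((3, 6), (1, 5), 1), ((3, 6), (1, 7), 5), ((6,
    3), (8, 6), 1), ((6, 3), (8, 7), 5)]
  G := [[0, 0, 0x259428c2582442ad482e, 0x2158548285884692d482e, 0x25c124188ca2582482568982e],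
    [0, 0, 0xd49428d8588448dd482e, 0, 0xd8124188cd85824c159c982e], [0, 0, 0,
    0x482d482482d8443, 0x4d981428588421848c8a2d], [0, 0xac668c46ace48a1, 0, 0,
    0xd1848c89248dd8243]]

noncomputable def n1088 : Ent := ⟨e1088, noF, [], [], []⟩

def c1088 : PLift (Cov.check n1088.C.D v1088 = true) := ⟨by decide +kernel⟩

def b1088 : PLift (entF (fidx ts) 400 1088 n1088 = true) := ⟨by decide +kernel⟩

theorem g1088 : GoodF (fidx ts) 400 1088 := GoodF.ofV v1088 n1088 c1088.down b1088.down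

/-- 464764:898/4 -/
noncomputable def e1089 : SCfg where
  D := {
    a := 6
    L := 9
    kp := 6
    inn := [(0, 1), (1, 0), (1, 2), (1, 3), (2, 1), (2, 3), (3, 1), (3, 2), (3, 4), (4, 3), (4, 5), (5,
      4)]
    mix := [(0, 0), (0, 1), (0, 2), (1, 0), (1, 2), (1, 3), (2, 2), (2, 4), (3, 3), (3, 4), (3, 5), (3,
      6), (4, 1), (4, 5), (4, 6), (4, 7), (5, 1), (5, 6), (5, 8)]
    cl := [4, 3, 0, 0, 2, 1, 1, 5, 6]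
    chq := [(5, 6), (6, 5)]
    rng := [(0, 1), (0, 3), (1, 0), (1, 2), (1, 7), (1, 8), (2, 1), (2, 4), (3, 0), (3, 6), (4, 2), (4,
      5), (5, 4), (5, 7), (6, 3), (6, 8), (7, 1), (7, 5), (8, 1), (8, 6)]
    lev := [] }
  links := [[1, 6, 7, 8], [6, 0, 8, 2, 3, 9], [3, 1, 8, 10], [9, 1, 2, 10, 11, 4, 12], [12, 3, 11, 13, 7,
    5], [12, 4, 7, 14]]
  P := {
    a := 6
    N := 15
    nb := [450, 845, 1290, 7702, 14504, 20624, 643, 24945, 1159, 4170, 2316, 9240, 16952, 2192, 4256]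
    tri := [(0, 1, 6), (0, 1, 8), (0, 6, 7), (0, 7, 8), (1, 2, 3), (1, 2, 8), (1, 3, 9), (1, 6, 9), (2,
      3, 10), (2, 8, 10), (3, 4, 11), (3, 4, 12), (3, 9, 12), (3, 10, 11), (4, 5, 7), (4, 5, 12),
      (4, 7, 13), (4, 11, 13), (5, 7, 14), (5, 12, 14)]
    fin := [0, 1, 1, 3, 4, 4, 0, 7, 1, 1, 10, 3, 3, 4, 14]
    chd := [(4, 14)]
    steps := [(0, 6), (1, 2), (1, 8), (1, 9), (3, 11), (3, 12), (4, 5), (4, 13)] }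
  rep := [1, 3, 10, 7, 0, 4, 14]

noncomputable def v1089 : Cov.CovD where
  P := 3
  N := 4
  pl := [0, 1, 4]
  lev := [⟨[], [], [], [3, 4], [(2, 0, [])]⟩,
    ⟨[], [(0, 0)], [(0, 0)], [4], [(2, 0, []), (3, 0, [])]⟩,
    ⟨[(0, 1)], [(0, 0), (1, 0)], [], [2], [(2, 0, [])]⟩,
    ⟨[(0, 1), (1, 2)], [(1, 0), (1, 1), (2, 0), (2, 1)], [(0, 1), (1, 1)], [2], [(3, 0,
      []), (5, 1, []), (6, 1, [])]⟩,
    ⟨[(1, 3), (2, 3)], [(3, 0), (3, 1), (3, 5)], [(1, 1), (1, 5)], [3], [(5, 1, []), (6, 1,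
      []), (7, 5, [6])]⟩,
    ⟨[(3, 4)], [(3, 1), (4, 1), (4, 5), (4, 6)], [(1, 6)], [3], [(6, 1, []), (8, 6, [5])]⟩]
  Ta := [((2, 1), 0, 3), ((2, 4), 0, 2), ((3, 0), 0, 4), ((3, 6), 0, 1), ((5, 4), 1, 2), ((5, 7),
    1, 5), ((6, 3), 1, 0), ((6, 8), 1, 6)]
  Tb := [((0, 1, 3), 4, 3, 0), ((1, 0, 2), 3, 4, 0), ((1, 0, 7), 3, 4, 5), ((1, 0, 8), 3, 4, 6),
    ((1, 2, 7), 3, 0, 5), ((1, 2, 8), 3, 0, 6), ((1, 7, 8), 3, 5, 6), ((2, 1, 4), 0, 3, 2),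
    ((3, 0, 6), 0, 4, 1), ((4, 2, 5), 2, 0, 1), ((5, 4, 7), 1, 2, 5), ((6, 3, 8), 1, 0, 6),
    ((7, 1, 5), 5, 3, 1), ((8, 1, 6), 6, 3, 1)]
  Tc := []
  Td := [((5, 6), (7, 1), 3), ((5, 6), (7, 5), 1), ((6, 5), (8, 1), 3), ((6, 5), (8, 6), 1)]
  G := [[0, 0, 0x18944814582422518c82e, 0x389448945884222d482e, 0xb8c122182c1458242122c982e],
    [0, 0, 0x18942814588411cd842e, 0, 0x58c128188c945824c151c982e], [0, 0, 0,
    0x189448145814212d812e, 0x145884129812195821882c7], [0, 0x6ace486ace84c1, 0, 0,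
    0x1458841898121c5821882c7]]

noncomputable def n1089 : Ent := ⟨e1089, noF, [], [], [(6, 14, [81620716623019490593592230936445690773474979418095887835137, 0])]⟩

def c1089 : PLift (Cov.check n1089.C.D v1089 = true) := ⟨by decide +kernel⟩

def b1089 : PLift (entF (fidx ts) 400 1089 n1089 = true) := ⟨by decide +kernel⟩

theorem g1089 : GoodF (fidx ts) 400 1089 := GoodF.ofV v1089 n1089 c1089.down b1089.down

/-- 464764:898/5 -/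
noncomputable def e1090 : SCfg where
  D := {
    a := 6
    L := 9
    kp := 6
    inn := [(0, 1), (1, 0), (1, 2), (1, 3), (2, 1), (2, 3), (3, 1), (3, 2), (3, 4), (4, 3), (4, 5), (5,
      4)]
    mix := [(0, 0), (0, 1), (0, 2), (1, 0), (1, 2), (1, 3), (2, 2), (2, 4), (3, 3), (3, 4), (3, 5), (3,
      6), (4, 5), (4, 6), (4, 7), (4, 8), (5, 1), (5, 6), (5, 8)]
    cl := [4, 3, 0, 0, 2, 1, 1, 6, 5]
    chq := [(3, 6), (6, 3)]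
    rng := [(0, 1), (0, 3), (1, 0), (1, 2), (1, 6), (1, 8), (2, 1), (2, 4), (3, 0), (3, 6), (4, 2), (4,
      5), (5, 4), (5, 7), (6, 1), (6, 3), (7, 5), (7, 8), (8, 1), (8, 7)]
    lev := [] }
  links := [[1, 6, 7, 8], [6, 0, 8, 2, 3, 9], [3, 1, 8, 10], [9, 1, 2, 10, 11, 4, 12], [12, 3, 11, 13,
    14, 5], [12, 4, 14, 7]]
  P := {
    a := 6
    N := 15
    nb := [450, 845, 1290, 7702, 30760, 20624, 643, 20833, 1159, 4170, 2316, 9240, 696, 18448, 8368]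
    tri := [(0, 1, 6), (0, 1, 8), (0, 6, 7), (0, 7, 8), (1, 2, 3), (1, 2, 8), (1, 3, 9), (1, 6, 9), (2,
      3, 10), (2, 8, 10), (3, 4, 11), (3, 4, 12), (3, 9, 12), (3, 10, 11), (4, 5, 12), (4, 5, 14),
      (4, 11, 13), (4, 13, 14), (5, 7, 12), (5, 7, 14)]
    fin := [0, 1, 1, 3, 4, 4, 0, 4, 1, 1, 10, 3, 3, 13, 14]
    chd := [(4, 13)]
    steps := [(0, 6), (1, 2), (1, 8), (1, 9), (3, 11), (3, 12), (4, 5), (4, 7)] }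
  rep := [1, 3, 10, 4, 0, 14, 13]

noncomputable def v1090 : Cov.CovD where
  P := 3
  N := 4
  pl := [0, 4, 8]
  lev := [⟨[], [], [(0, 3)], [4], [(1, 3, [6]), (2, 0, [])]⟩,
    ⟨[], [(0, 0), (0, 3)], [(0, 0)], [4], [(2, 0, []), (3, 0, [])]⟩,
    ⟨[(0, 1)], [(0, 0), (1, 0)], [], [2], [(2, 0, [])]⟩,
    ⟨[(0, 1), (1, 2)], [(1, 0), (1, 1), (2, 0), (2, 1)], [(0, 1), (1, 1)], [2], [(3, 0,
      []), (5, 1, []), (6, 1, [])]⟩,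
    ⟨[(1, 3), (2, 3)], [(3, 0), (3, 1), (3, 6)], [(1, 1), (1, 6)], [5], [(5, 1, []), (6, 1,
      []), (7, 6, [3])]⟩,
    ⟨[(3, 4)], [(0, 3), (3, 1), (4, 1), (4, 3), (4, 6)], [(1, 3)], [5], [(1, 3, [6]), (6,
      1, [])]⟩]
  Ta := [((2, 1), 0, 3), ((2, 4), 0, 2), ((3, 0), 0, 4), ((3, 6), 0, 1), ((5, 4), 1, 2), ((5, 7),
    1, 6), ((6, 1), 1, 3), ((6, 3), 1, 0)]
  Tb := [((0, 1, 3), 4, 3, 0), ((1, 0, 2), 3, 4, 0), ((1, 0, 6), 3, 4, 1), ((1, 0, 8), 3, 4, 5),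
    ((1, 2, 6), 3, 0, 1), ((1, 2, 8), 3, 0, 5), ((1, 6, 8), 3, 1, 5), ((2, 1, 4), 0, 3, 2),
    ((3, 0, 6), 0, 4, 1), ((4, 2, 5), 2, 0, 1), ((5, 4, 7), 1, 2, 6), ((6, 1, 3), 1, 3, 0),
    ((7, 5, 8), 6, 1, 5), ((8, 1, 7), 5, 3, 6)]
  Tc := []
  Td := [((3, 6), (1, 0), 4), ((3, 6), (1, 2), 0), ((3, 6), (1, 6), 1), ((3, 6), (1, 8), 5), ((6,
    3), (7, 5), 1), ((6, 3), (7, 8), 5)]
  G := [[0, 0, 0x238d428211d488291d482e, 0x829945484124c9842139c542e,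
    0x18924924542d8242169c982e], [0, 0, 0x891d428541d82491558c82e, 0,
    0x89c1281821182ec154c9849c558982e], [0, 0, 0, 0x231d812231d8443, 0x315828892231d8243],
    [0, 0xac668c46ace48a1, 0, 0, 0x189814541d81494882948251982af]]

noncomputable def n1090 : Ent := ⟨e1090, noF, [], [], []⟩

def c1090 : PLift (Cov.check n1090.C.D v1090 = true) := ⟨by decide +kernel⟩

def b1090 : PLift (entF (fidx ts) 400 1090 n1090 = true) := ⟨by decide +kernel⟩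

theorem g1090 : GoodF (fidx ts) 400 1090 := GoodF.ofV v1090 n1090 c1090.down b1090.down

/-- 464764:898 -/
noncomputable def e1091 : SCfg where
  D := {
    a := 6
    L := 10
    kp := 7
    inn := [(0, 1), (1, 0), (1, 2), (1, 3), (2, 1), (2, 3), (3, 1), (3, 2), (3, 4), (4, 3), (4, 5), (5,
      4)]
    mix := [(0, 0), (0, 1), (0, 2), (1, 0), (1, 2), (1, 3), (2, 2), (2, 4), (3, 3), (3, 4), (3, 5), (3,
      6), (4, 5), (4, 6), (4, 7), (4, 8), (5, 6), (5, 8), (5, 9)]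
    cl := [3, 7, 0, 0, 2, 1, 1, 5, 4, 6]
    chq := [(5, 6), (6, 5)]
    rng := [(0, 1), (0, 3), (1, 0), (1, 2), (2, 1), (2, 4), (3, 0), (3, 6), (4, 2), (4, 5), (5, 4), (5,
      7), (6, 3), (6, 9), (7, 5), (7, 8), (8, 7), (8, 9), (9, 6), (9, 8)]
    lev := [] }
  links := [[1, 6, 7, 8], [6, 0, 8, 2, 3, 9], [3, 1, 8, 10], [9, 1, 2, 10, 11, 4, 12], [12, 3, 11, 13,
    14, 5], [12, 4, 14, 15]]
  P := {
    a := 6
    N := 16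
    nb := [450, 845, 1290, 7702, 30760, 53264, 643, 321, 1159, 4170, 2316, 9240, 33336, 18448, 41008,
      20512]
    tri := [(0, 1, 6), (0, 1, 8), (0, 6, 7), (0, 7, 8), (1, 2, 3), (1, 2, 8), (1, 3, 9), (1, 6, 9), (2,
      3, 10), (2, 8, 10), (3, 4, 11), (3, 4, 12), (3, 9, 12), (3, 10, 11), (4, 5, 12), (4, 5, 14),
      (4, 11, 13), (4, 13, 14), (5, 12, 15), (5, 14, 15)]
    fin := [0, 1, 1, 3, 4, 4, 0, 7, 1, 1, 10, 3, 3, 4, 14, 15]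
    chd := [(4, 15)]
    steps := [(0, 6), (1, 2), (1, 8), (1, 9), (3, 11), (3, 12), (4, 5), (4, 13)] }
  rep := [1, 3, 10, 0, 14, 4, 15, 7]

noncomputable def v1091 : Cov.CovD where
  P := 3
  N := 5
  pl := [0, 1, 4, 8]
  lev := [⟨[], [], [], [3, 7], [(2, 0, [])]⟩,
    ⟨[], [(0, 0)], [(0, 0)], [3], [(2, 0, []), (3, 0, [])]⟩,
    ⟨[(0, 1)], [(0, 0), (1, 0)], [], [2], [(2, 0, [])]⟩,
    ⟨[(0, 1), (1, 2)], [(1, 0), (1, 1), (2, 0), (2, 1)], [(0, 1), (1, 1)], [2], [(3, 0,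
      []), (5, 1, []), (6, 1, [])]⟩,
    ⟨[(1, 3), (2, 3)], [(3, 0), (3, 1), (3, 5)], [(1, 1), (1, 5)], [4], [(5, 1, []), (6, 1,
      []), (7, 5, [6])]⟩,
    ⟨[(3, 4)], [(3, 1), (4, 1), (4, 5), (4, 6)], [(1, 6)], [4], [(6, 1, []), (9, 6, [5])]⟩]
  Ta := [((2, 1), 0, 7), ((2, 4), 0, 2), ((3, 0), 0, 3), ((3, 6), 0, 1), ((5, 4), 1, 2), ((5, 7),
    1, 5), ((6, 3), 1, 0), ((6, 9), 1, 6)]
  Tb := [((0, 1, 3), 3, 7, 0), ((1, 0, 2), 7, 3, 0), ((2, 1, 4), 0, 7, 2), ((3, 0, 6), 0, 3, 1),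
    ((4, 2, 5), 2, 0, 1), ((5, 4, 7), 1, 2, 5), ((6, 3, 9), 1, 0, 6), ((7, 5, 8), 5, 1, 4),
    ((8, 7, 9), 4, 5, 6), ((9, 6, 8), 6, 1, 4)]
  Tc := []
  Td := [((5, 6), (7, 5), 1), ((5, 6), (7, 8), 4), ((6, 5), (9, 6), 1), ((6, 5), (9, 8), 4)]
  G := [[0, 0, 0x2c943446823bd824692d842e, 0x26994548a2568984692d842e,
    0x6ac1221822188e32ad8242a558982e], [0, 0, 0x59cd42859cd8249c558c42e, 0,
    0x59c12c182c182e59cd8249c558982e], [0, 0, 0, 0x32cd418692d842243a9c84b,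
    0x2c5838894236d8123658228822882e7], [0, 0xac668c46ace48a1, 0, 0,
    0x59cd81459cd81459cd822d]]

noncomputable def n1091 : Ent := ⟨e1091, noF, [], [], [(6, 15, [360035742630636841211993100915356868655746945586763691012124673, 0]), (7, 13, [385753028440516072301428330182238677962518295842732840411463681, 0]), (7, 14, [385746751338780685620664494392815470296102193487288376376954881, 0]), (7, 15, [360035742630636841211993100915356868655746945586763691012136961, 0])]⟩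

def c1091 : PLift (Cov.check n1091.C.D v1091 = true) := ⟨by decide +kernel⟩

def b1091 : PLift (entF (fidx ts) 400 1091 n1091 = true) := ⟨by decide +kernel⟩

theorem g1091 : GoodF (fidx ts) 400 1091 := GoodF.ofV v1091 n1091 c1091.down b1091.down

/-- 486664:899 -/
noncomputable def e1092 : SCfg where
  D := {
    a := 6
    L := 10
    kp := 9
    inn := [(0, 1), (0, 3), (1, 0), (1, 2), (1, 3), (1, 4), (1, 5), (2, 1), (2, 4), (2, 5), (3, 0), (3,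
      1), (3, 4), (4, 1), (4, 2), (4, 3), (5, 1), (5, 2)]
    mix := [(0, 0), (0, 1), (1, 0), (1, 2), (1, 3), (2, 4), (2, 5), (2, 6), (3, 1), (3, 7), (3, 8), (4,
      4), (4, 8), (4, 9), (5, 2), (5, 6)]
    cl := [1, 2, 4, 7, 5, 8, 3, 9, 0, 6]
    chq := [(0, 1), (0, 2), (0, 3), (0, 4), (0, 7), (1, 0), (2, 0), (3, 0), (3, 6), (4, 0), (6, 3), (6,
      8), (7, 0), (8, 6)]
    rng := [(0, 1), (0, 3), (1, 0), (1, 7), (2, 3), (2, 6), (3, 0), (3, 2), (4, 5), (4, 9), (5, 4), (5,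
      6), (6, 2), (6, 5), (7, 1), (7, 8), (8, 7), (8, 9), (9, 4), (9, 8)]
    lev := [] }
  links := [[1, 6, 7, 3], [6, 0, 3, 4, 2, 5, 8, 9], [5, 1, 4, 10, 11, 12], [4, 1, 0, 7, 13, 14], [10, 2,
    1, 3, 14, 15], [8, 1, 2, 12]]
  P := {
    a := 6
    N := 16
    nb := [202, 893, 7218, 24723, 50190, 4358, 643, 8265, 4642, 322, 34836, 5124, 2340, 16520, 40984,
      17424]
    tri := [(0, 1, 3), (0, 1, 6), (0, 3, 7), (0, 6, 7), (1, 2, 4), (1, 2, 5), (1, 3, 4), (1, 5, 8), (1,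
      6, 9), (1, 8, 9), (2, 4, 10), (2, 5, 12), (2, 10, 11), (2, 11, 12), (3, 4, 14), (3, 7, 13),
      (3, 13, 14), (4, 10, 15), (4, 14, 15), (5, 8, 12)]
    fin := [0, 1, 2, 1, 2, 1, 0, 7, 8, 9, 10, 11, 12, 13, 1, 2]
    chd := [(0, 1), (7, 1), (8, 1), (9, 1), (11, 2), (12, 1), (12, 2)]
    steps := [(0, 6), (1, 3), (1, 5), (1, 14), (2, 4), (2, 15)] }
  rep := [1, 0, 7, 12, 8, 10, 2, 9, 11, 13]

noncomputable def v1092 : Cov.CovD where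
  P := 3
  N := 7
  pl := [4, 7]
  lev := [⟨[], [], [(1, 2)], [], [(0, 1, [0]), (1, 2, [0])]⟩,
    ⟨[], [(0, 1), (0, 2), (0, 4), (0, 7)], [(1, 4), (1, 7), (4, 7)], [], [(0, 1, [0]), (2,
      4, [0]), (3, 7, [0])]⟩,
    ⟨[(0, 1)], [(1, 1), (1, 3), (1, 4), (1, 7), (1, 8)], [(3, 8)], [5], [(5, 8, [6]), (6,
      3, [0, 6])]⟩,
    ⟨[(0, 1), (1, 2)], [(0, 0), (0, 1), (0, 2), (1, 0), (1, 1), (1, 2), (1, 4), (1, 7)],
      [(0, 2)], [9], [(1, 2, [0]), (8, 0, [1, 2, 3, 4, 7])]⟩,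
    ⟨[(0, 1), (0, 3), (1, 2), (1, 3), (2, 3)], [(1, 0), (1, 1), (1, 4), (1, 6), (1, 7), (2,
      0), (2, 3), (2, 6), (2, 8), (3, 0), (3, 2), (3, 6)], [(0, 6)], [5], [(8, 0, [1, 2, 3,
      4, 7]), (9, 6, [3, 8])]⟩,
    ⟨[(0, 1), (1, 2), (1, 3), (1, 4), (2, 4)], [(1, 1), (1, 3), (1, 4), (1, 7), (2, 3), (2,
      4), (2, 8)], [(3, 4)], [], [(2, 4, [0]), (6, 3, [0, 6])]⟩]
  Ta := []
  Tb := [((0, 1, 3), 1, 2, 7), ((1, 0, 7), 2, 1, 9), ((2, 3, 6), 4, 7, 3), ((3, 0, 2), 7, 1, 4),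
    ((4, 5, 9), 5, 8, 6), ((5, 4, 6), 8, 5, 3), ((6, 2, 5), 3, 4, 8), ((7, 1, 8), 9, 2, 0),
    ((8, 7, 9), 0, 9, 6), ((9, 4, 8), 6, 5, 0)]
  Tc := [(0, 1, 2), (0, 1, 3), (0, 1, 4), (0, 1, 7), (0, 2, 3), (0, 2, 4), (0, 2, 7), (0, 3, 4),
    (0, 3, 7), (0, 4, 7), (3, 0, 6), (6, 3, 8)]
  Td := [((0, 1), (8, 7), 9), ((0, 1), (8, 9), 6), ((0, 2), (8, 7), 9), ((0, 2), (8, 9), 6), ((0,
    3), (8, 7), 9), ((0, 3), (8, 9), 6), ((0, 4), (8, 7), 9), ((0, 4), (8, 9), 6), ((0, 7),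
    (8, 7), 9), ((0, 7), (8, 9), 6), ((1, 0), (0, 1), 2), ((1, 0), (0, 3), 7), ((2, 0), (1,
    0), 1), ((2, 0), (1, 7), 9), ((3, 0), (6, 2), 4), ((3, 0), (6, 5), 8), ((3, 6), (6, 2),
    4), ((3, 6), (6, 5), 8), ((4, 0), (2, 3), 7), ((4, 0), (2, 6), 3), ((6, 3), (9, 4), 5),
    ((6, 3), (9, 8), 0), ((6, 8), (9, 4), 5), ((6, 8), (9, 8), 0), ((7, 0), (3, 0), 1), ((7,
    0), (3, 2), 4), ((8, 6), (5, 4), 5), ((8, 6), (5, 6), 3)]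
  G := [[0, 0x11c111a1141e41161111e1111e11161f12111a111a1b111e1111e111c111c1fec,
    0x116116c121811ae11c11c6ee6ee6af18, 0x24611e44e44a535611ee64eaceeaeeaceece8cee6eeacf9c,
    0x3561118129a15ee6ee6ae2eeaae4eecaee6eecafd11811861882e88e886d9]]

noncomputable def n1092 : Ent := ⟨e1092, noF, [], [], []⟩

def c1092 : PLift (Cov.check n1092.C.D v1092 = true) := ⟨by decide +kernel⟩

def b1092 : PLift (entF (fidx ts) 400 1092 n1092 = true) := ⟨by decide +kernel⟩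

theorem g1092 : GoodF (fidx ts) 400 1092 := GoodF.ofV v1092 n1092 c1092.down b1092.down

/-- 459546:900 -/
noncomputable def e1093 : SCfg where
  D := {
    a := 6
    L := 10
    kp := 8
    inn := [(0, 1), (0, 2), (1, 0), (1, 2), (2, 0), (2, 1), (2, 3), (2, 4), (2, 5), (3, 2), (3, 4), (4,
      2), (4, 3), (4, 5), (5, 2), (5, 4)]
    mix := [(0, 0), (0, 1), (1, 1), (1, 2), (1, 3), (2, 0), (2, 3), (2, 4), (2, 5), (3, 5), (3, 6), (3,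
      7), (4, 7), (5, 0), (5, 7), (5, 8), (5, 9)]
    cl := [0, 4, 8, 0, 2, 1, 5, 3, 6, 7]
    chq := [(2, 3), (2, 5), (2, 6), (2, 7), (3, 2), (5, 2), (6, 2), (7, 2)]
    rng := [(0, 1), (0, 9), (1, 0), (1, 2), (2, 1), (2, 3), (3, 2), (3, 4), (4, 3), (4, 5), (5, 4), (5,
      6), (6, 5), (6, 7), (7, 6), (7, 8), (8, 7), (8, 9), (9, 0), (9, 8)]
    lev := [] }
  links := [[1, 2, 6, 7], [2, 0, 7, 8, 9], [6, 0, 1, 9, 10, 11, 3, 4, 5], [4, 2, 11, 12, 13], [5, 2, 3,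
    13], [6, 2, 4, 13, 14, 15]]
  P := {
    a := 6
    N := 16
    nb := [198, 901, 3707, 14356, 8236, 57428, 32933, 323, 642, 1286, 2564, 5132, 10248, 20536, 40992,
      16480]
    tri := [(0, 1, 2), (0, 1, 7), (0, 2, 6), (0, 6, 7), (1, 2, 9), (1, 7, 8), (1, 8, 9), (2, 3, 4), (2,
      3, 11), (2, 4, 5), (2, 5, 6), (2, 9, 10), (2, 10, 11), (3, 4, 13), (3, 11, 12), (3, 12, 13),
      (4, 5, 13), (5, 6, 15), (5, 13, 14), (5, 14, 15)]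
    fin := [0, 0, 2, 2, 2, 2, 0, 7, 8, 0, 2, 11, 12, 13, 14, 15]
    chd := [(2, 12), (2, 13), (2, 14), (2, 15)]
    steps := [(0, 1), (0, 6), (0, 9), (2, 3), (2, 4), (2, 5), (2, 10)] }
  rep := [0, 11, 2, 13, 7, 12, 14, 15, 8]

noncomputable def v1093 : Cov.CovD where
  P := 3
  N := 6
  pl := [1, 2, 5]
  lev := [⟨[], [], [], [4], [(0, 0, [])]⟩,
    ⟨[], [(0, 0)], [], [4, 8], [(3, 0, [])]⟩,
    ⟨[(0, 1)], [(0, 0), (0, 2), (1, 0), (1, 2)], [(0, 0), (0, 2)], [1], [(0, 0, []), (3, 0,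
      []), (4, 2, [3, 5, 6, 7])]⟩,
    ⟨[(0, 2), (1, 2)], [(2, 0), (2, 2), (2, 3), (2, 5)], [(3, 5)], [1], [(6, 5, [2]), (7,
      3, [2])]⟩,
    ⟨[(0, 2), (1, 2), (2, 3)], [(2, 0), (2, 2), (2, 3), (3, 3), (3, 5)], [], [], [(7, 3,
      [2])]⟩,
    ⟨[(0, 2), (1, 2), (2, 3), (2, 4), (3, 4)], [(0, 0), (2, 0), (2, 2), (2, 3), (2, 6), (2,
      7), (3, 3), (4, 0), (4, 3), (4, 6), (4, 7)], [(0, 3), (0, 6), (0, 7), (3, 6), (3, 7),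
      (6, 7)], [], [(0, 0, []), (7, 3, [2]), (8, 6, [2]), (9, 7, [2])]⟩]
  Ta := [((0, 1), 0, 4), ((0, 9), 0, 7), ((3, 2), 0, 8), ((3, 4), 0, 2)]
  Tb := [((0, 1, 9), 0, 4, 7), ((1, 0, 2), 4, 0, 8), ((2, 1, 3), 8, 4, 0), ((3, 2, 4), 0, 8, 2),
    ((4, 3, 5), 2, 0, 1), ((5, 4, 6), 1, 2, 5), ((6, 5, 7), 5, 1, 3), ((7, 6, 8), 3, 5, 6),
    ((8, 7, 9), 6, 3, 7), ((9, 0, 8), 7, 0, 6)]
  Tc := [(2, 3, 5), (2, 3, 6), (2, 3, 7), (2, 5, 6), (2, 5, 7), (2, 6, 7)]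
  Td := [((2, 3), (4, 3), 0), ((2, 3), (4, 5), 1), ((2, 5), (4, 3), 0), ((2, 5), (4, 5), 1), ((2,
    6), (4, 3), 0), ((2, 6), (4, 5), 1), ((2, 7), (4, 3), 0), ((2, 7), (4, 5), 1), ((3, 2),
    (7, 6), 5), ((3, 2), (7, 8), 6), ((5, 2), (6, 5), 1), ((5, 2), (6, 7), 3), ((6, 2), (8,
    7), 3), ((6, 2), (8, 9), 7), ((7, 2), (9, 0), 0), ((7, 2), (9, 8), 6)]
  G := [[0, 0x282122ce41242421e8242422ce86a, 0, 0x282222d4222222d4a22422229c1c,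
    0x4434258141881414241d84144942d841887e], [0, 0x282821e482fc2847ac282e,
    0x11a14811a18411a182e, 0x282222d4222421d8222222d8e1, 0x18a8485ea4826434158414241d8cb]]

noncomputable def n1093 : Ent := ⟨e1093, noF, [], [], []⟩

def c1093 : PLift (Cov.check n1093.C.D v1093 = true) := ⟨by decide +kernel⟩

def b1093 : PLift (entF (fidx ts) 400 1093 n1093 = true) := ⟨by decide +kernel⟩

theorem g1093 : GoodF (fidx ts) 400 1093 := GoodF.ofV v1093 n1093 c1093.down b1093.down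

/-- 459544:901 -/
noncomputable def e1094 : SCfg where
  D := {
    a := 6
    L := 9
    kp := 6
    inn := [(0, 1), (0, 2), (1, 0), (1, 2), (2, 0), (2, 1), (2, 3), (2, 4), (2, 5), (3, 2), (3, 4), (4,
      2), (4, 3), (5, 2)]
    mix := [(0, 0), (0, 1), (1, 1), (1, 2), (1, 3), (2, 0), (2, 3), (2, 4), (2, 5), (3, 4), (3, 6), (3,
      7), (4, 5), (4, 7), (5, 3), (5, 4), (5, 8)]
    cl := [0, 2, 4, 0, 1, 1, 5, 3, 6]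
    chq := []
    rng := [(0, 1), (0, 5), (1, 0), (1, 2), (2, 1), (2, 3), (3, 2), (3, 8), (4, 6), (4, 8), (5, 0), (5,
      7), (6, 4), (6, 7), (7, 5), (7, 6), (8, 3), (8, 4)]
    lev := [] }
  links := [[1, 2, 6, 7], [2, 0, 7, 8, 9], [6, 0, 1, 9, 5, 10, 3, 4, 11], [4, 2, 10, 12, 13], [11, 2, 3,
    13], [10, 2, 9, 14]]
  P := {
    a := 6
    N := 15
    nb := [198, 901, 3707, 13332, 10252, 17924, 2181, 323, 642, 16678, 20524, 8276, 9224, 6168, 1568]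
    tri := [(0, 1, 2), (0, 1, 7), (0, 2, 6), (0, 6, 7), (1, 2, 9), (1, 7, 8), (1, 8, 9), (2, 3, 4), (2,
      3, 10), (2, 4, 11), (2, 5, 9), (2, 5, 10), (2, 6, 11), (3, 4, 13), (3, 10, 12), (3, 12, 13),
      (4, 11, 13), (5, 9, 14), (5, 10, 14)]
    fin := [0, 0, 0, 3, 3, 0, 0, 7, 8, 0, 3, 3, 12, 13, 14]
    chd := []
    steps := [(0, 1), (0, 2), (0, 5), (0, 6), (0, 9), (3, 4), (3, 10), (3, 11)] }
  rep := [0, 3, 7, 13, 8, 12, 14]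

noncomputable def v1094 : Cov.CovD where
  P := 3
  N := 4
  pl := [1, 2, 6, 7, 8]
  lev := [⟨[], [], [], [2], [(0, 0, [])]⟩,
    ⟨[], [(0, 0)], [], [2, 4], [(3, 0, [])]⟩,
    ⟨[(0, 1)], [(0, 0), (0, 1), (1, 0), (1, 1)], [(0, 0), (0, 1), (1, 1)], [], [(0, 0, []),
      (3, 0, []), (4, 1, []), (5, 1, [])]⟩,
    ⟨[(0, 2), (1, 2)], [(2, 0), (2, 1)], [], [3, 5], [(4, 1, [])]⟩,
    ⟨[(0, 2), (1, 2), (2, 3)], [(2, 0), (2, 1), (3, 1)], [], [3], [(5, 1, [])]⟩,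
    ⟨[(0, 2), (1, 2), (2, 3), (2, 4)], [(1, 0), (2, 0), (2, 1), (3, 1)], [(0, 1)], [6],
      [(3, 0, []), (4, 1, [])]⟩]
  Ta := [((0, 1), 0, 2), ((0, 5), 0, 1), ((3, 2), 0, 4), ((3, 8), 0, 6), ((4, 6), 1, 5), ((4, 8),
    1, 6), ((5, 0), 1, 0), ((5, 7), 1, 3)]
  Tb := [((0, 1, 5), 0, 2, 1), ((1, 0, 2), 2, 0, 4), ((2, 1, 3), 4, 2, 0), ((3, 2, 8), 0, 4, 6),
    ((4, 6, 8), 1, 5, 6), ((5, 0, 7), 1, 0, 3), ((6, 4, 7), 5, 1, 3), ((7, 5, 6), 3, 1, 5),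
    ((8, 3, 4), 6, 0, 1)]
  Tc := []
  Td := []
  G := [[0, 0, 0x121412d8121212d462, 0x181212d414418129cc8, 0x181212d4121211d8a2], [0,
    0xaac1418, 0x2884142138141168e8, 0x2822921d418, 0x24428219c18], [0, 0, 0,
    0x444c282c1dc42c4c1d828cc1, 0xc282c2d4444c882c1dca444889], [0, 0, 0,
    0x28484d21b424215288cc8, 0x24428219c24428219ca1]]

noncomputable def n1094 : Ent := ⟨e1094, noF, [], [], []⟩

def c1094 : PLift (Cov.check n1094.C.D v1094 = true) := ⟨by decide +kernel⟩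

def b1094 : PLift (entF (fidx ts) 400 1094 n1094 = true) := ⟨by decide +kernel⟩

theorem g1094 : GoodF (fidx ts) 400 1094 := GoodF.ofV v1094 n1094 c1094.down b1094.down

/-- 459545:902 -/
noncomputable def e1095 : SCfg where
  D := {
    a := 6
    L := 10
    kp := 7
    inn := [(0, 1), (0, 2), (1, 0), (1, 2), (2, 0), (2, 1), (2, 3), (2, 4), (2, 5), (3, 2), (3, 4), (4,
      2), (4, 3), (5, 2)]
    mix := [(0, 0), (0, 1), (1, 1), (1, 2), (1, 3), (2, 0), (2, 3), (2, 4), (2, 5), (3, 4), (3, 6), (3,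
      7), (4, 5), (4, 7), (5, 3), (5, 4), (5, 8), (5, 9)]
    cl := [0, 1, 4, 0, 0, 2, 5, 3, 6, 7]
    chq := [(0, 3), (3, 0)]
    rng := [(0, 1), (0, 5), (1, 0), (1, 2), (2, 1), (2, 3), (3, 2), (3, 8), (4, 6), (4, 9), (5, 0), (5,
      7), (6, 4), (6, 7), (7, 5), (7, 6), (8, 3), (8, 9), (9, 4), (9, 8)]
    lev := [] }
  links := [[1, 2, 6, 7], [2, 0, 7, 8, 9], [6, 0, 1, 9, 5, 10, 3, 4, 11], [4, 2, 10, 12, 13], [11, 2, 3,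
    13], [10, 2, 9, 14, 15]]
  P := {
    a := 6
    N := 16
    nb := [198, 901, 3707, 13332, 10252, 50692, 2181, 323, 642, 16678, 36908, 8276, 9224, 6168, 33312,
      17440]
    tri := [(0, 1, 2), (0, 1, 7), (0, 2, 6), (0, 6, 7), (1, 2, 9), (1, 7, 8), (1, 8, 9), (2, 3, 4), (2,
      3, 10), (2, 4, 11), (2, 5, 9), (2, 5, 10), (2, 6, 11), (3, 4, 13), (3, 10, 12), (3, 12, 13),
      (4, 11, 13), (5, 9, 14), (5, 10, 15), (5, 14, 15)]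
    fin := [0, 0, 0, 0, 0, 0, 0, 7, 8, 0, 0, 11, 12, 13, 14, 15]
    chd := [(0, 13)]
    steps := [(0, 1), (0, 2), (0, 3), (0, 4), (0, 5), (0, 6), (0, 9), (0, 10)] }
  rep := [0, 7, 11, 13, 8, 12, 14, 15]

noncomputable def v1095 : Cov.CovD where
  P := 3
  N := 5
  pl := [1, 2, 5, 6, 8, 9]
  lev := [⟨[], [], [], [1], [(0, 0, [3])]⟩,
    ⟨[], [(0, 0)], [], [1, 4], [(3, 0, [3])]⟩,
    ⟨[(0, 1)], [(0, 0), (1, 0)], [(0, 0)], [2], [(0, 0, [3]), (3, 0, [3]), (4, 0, [3])]⟩,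
    ⟨[(0, 2), (1, 2)], [(2, 0), (2, 3)], [(0, 3)], [5], [(4, 0, [3]), (7, 3, [0])]⟩,
    ⟨[(0, 2), (1, 2), (2, 3)], [(2, 0), (2, 3), (3, 0), (3, 3)], [], [2], [(7, 3, [0])]⟩,
    ⟨[(0, 2), (1, 2), (2, 3), (2, 4)], [(1, 0), (2, 0), (3, 0)], [(0, 0)], [6, 7], [(3, 0,
      [3]), (4, 0, [3])]⟩]
  Ta := [((0, 1), 0, 1), ((0, 5), 0, 2), ((3, 2), 0, 4), ((3, 8), 0, 6), ((4, 6), 0, 5), ((4, 9),
    0, 7)]
  Tb := [((0, 1, 5), 0, 1, 2), ((1, 0, 2), 1, 0, 4), ((2, 1, 3), 4, 1, 0), ((3, 2, 8), 0, 4, 6),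
    ((4, 6, 9), 0, 5, 7), ((5, 0, 7), 2, 0, 3), ((6, 4, 7), 5, 0, 3), ((7, 5, 6), 3, 2, 5),
    ((8, 3, 9), 6, 0, 7), ((9, 4, 8), 7, 0, 6)]
  Tc := []
  Td := [((0, 3), (0, 1), 1), ((0, 3), (0, 5), 2), ((0, 3), (3, 2), 4), ((0, 3), (3, 8), 6), ((0,
    3), (4, 6), 5), ((0, 3), (4, 9), 7), ((3, 0), (7, 5), 2), ((3, 0), (7, 6), 5)]
  G := [[0, 0x641e8c1c4ec1a81cc2, 0xeec1214, 0x441e8e1a4bc18, 0x221e1e1c1ea18], [0, 0, 0,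
    0x64481e1e87ce4e1687881cc1, 0x222c8e12cada61e1a2e84a1ac1], [0, 0, 0, 0x41e4e1ea88c14,
    0x212e8e1c1ea14]]

noncomputable def n1095 : Ent := ⟨e1095, noF, [], [], []⟩

def c1095 : PLift (Cov.check n1095.C.D v1095 = true) := ⟨by decide +kernel⟩

def b1095 : PLift (entF (fidx ts) 400 1095 n1095 = true) := ⟨by decide +kernel⟩

theorem g1095 : GoodF (fidx ts) 400 1095 := GoodF.ofV v1095 n1095 c1095.down b1095.down

/-- 459544:906 -/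
noncomputable def e1096 : SCfg where
  D := {
    a := 6
    L := 10
    kp := 7
    inn := [(0, 1), (0, 2), (1, 0), (1, 2), (2, 0), (2, 1), (2, 3), (2, 4), (3, 2), (3, 5), (4, 2), (5,
      3)]
    mix := [(0, 0), (0, 1), (1, 1), (1, 2), (1, 3), (2, 0), (2, 3), (2, 4), (2, 5), (2, 6), (3, 5), (3,
      6), (3, 7), (4, 0), (4, 6), (4, 8), (5, 5), (5, 7), (5, 9)]
    cl := [0, 2, 4, 0, 5, 1, 1, 3, 6, 7]
    chq := [(0, 1), (1, 0)]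
    rng := [(0, 1), (0, 8), (1, 0), (1, 2), (2, 1), (2, 3), (3, 2), (3, 4), (4, 3), (4, 5), (5, 4), (5,
      9), (6, 7), (6, 8), (7, 6), (7, 9), (8, 0), (8, 6), (9, 5), (9, 7)]
    lev := [] }
  links := [[1, 2, 6, 7], [2, 0, 7, 8, 9], [6, 0, 1, 9, 10, 11, 3, 12, 4], [12, 2, 11, 5, 13], [6, 2, 12,
    14], [13, 3, 11, 15]]
  P := {
    a := 6
    N := 16
    nb := [198, 901, 7771, 14372, 20548, 43016, 16533, 323, 642, 1286, 2564, 33836, 24604, 36904,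
      4176, 10272]
    tri := [(0, 1, 2), (0, 1, 7), (0, 2, 6), (0, 6, 7), (1, 2, 9), (1, 7, 8), (1, 8, 9), (2, 3, 11),
      (2, 3, 12), (2, 4, 6), (2, 4, 12), (2, 9, 10), (2, 10, 11), (3, 5, 11), (3, 5, 13), (3, 12,
      13), (4, 6, 14), (4, 12, 14), (5, 11, 15), (5, 13, 15)]
    fin := [0, 0, 0, 3, 0, 3, 0, 7, 8, 0, 10, 3, 3, 13, 14, 15]
    chd := [(0, 3)]
    steps := [(0, 1), (0, 2), (0, 4), (0, 6), (0, 9), (3, 5), (3, 11), (3, 12)] }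
  rep := [0, 3, 7, 13, 8, 10, 14, 15]

noncomputable def v1096 : Cov.CovD where
  P := 3
  N := 5
  pl := [1, 2, 4, 7, 8, 9]
  lev := [⟨[], [], [], [2], [(0, 0, [1])]⟩,
    ⟨[], [(0, 0)], [], [2, 4], [(3, 0, [1])]⟩,
    ⟨[(0, 1)], [(0, 0), (0, 1), (1, 0), (1, 1)], [(0, 0), (0, 1), (1, 1)], [5], [(0, 0,
      [1]), (3, 0, [1]), (5, 1, [0]), (6, 1, [0])]⟩,
    ⟨[(0, 2), (1, 2)], [(2, 0), (2, 1)], [(1, 1)], [3], [(5, 1, [0]), (6, 1, [0])]⟩,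
    ⟨[(0, 2), (1, 2), (2, 3)], [(0, 0), (2, 0), (2, 1), (3, 1)], [(0, 1)], [6], [(0, 0,
      [1]), (6, 1, [0])]⟩,
    ⟨[(2, 3)], [(2, 1), (3, 1)], [], [3, 7], [(5, 1, [0])]⟩]
  Ta := [((0, 1), 0, 2), ((0, 8), 0, 6), ((3, 2), 0, 4), ((3, 4), 0, 5), ((5, 4), 1, 5), ((5, 9),
    1, 7), ((6, 7), 1, 3), ((6, 8), 1, 6)]
  Tb := [((0, 1, 8), 0, 2, 6), ((1, 0, 2), 2, 0, 4), ((2, 1, 3), 4, 2, 0), ((3, 2, 4), 0, 4, 5),
    ((4, 3, 5), 5, 0, 1), ((5, 4, 9), 1, 5, 7), ((6, 7, 8), 1, 3, 6), ((7, 6, 9), 3, 1, 7),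
    ((8, 0, 6), 6, 0, 1), ((9, 5, 7), 7, 1, 3)]
  Tc := []
  Td := [((0, 1), (0, 1), 2), ((0, 1), (0, 8), 6), ((0, 1), (3, 2), 4), ((0, 1), (3, 4), 5), ((1,
    0), (5, 4), 5), ((1, 0), (5, 9), 7), ((1, 0), (6, 7), 3), ((1, 0), (6, 8), 6)]
  G := [[0, 0x1412618812146e14, 0xc2925c2529cc2925c2529ca4, 0xc2925c2529c14, 0xc2925c2529c12],
    [0, 0x116811a211a4e14, 0xa2c65c94acc62c5822c97c52cc52c9ce2, 0xc452c941c2c29c5288c1c,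
    0xa2c39c592c2854dc12], [0, 0x1164116211c8e18, 0, 0xc1915c1519c4c2915c2519c8c,
    0xc2925c2529cc2925c2529ca1], [0, 0x1418c1221814ce14, 0, 0x316194c1915c1519cc3161588c,
    0x9121c421915a1315cac121588a]]

noncomputable def n1096 : Ent := ⟨e1096, noF, [], [], []⟩

def c1096 : PLift (Cov.check n1096.C.D v1096 = true) := ⟨by decide +kernel⟩

def b1096 : PLift (entF (fidx ts) 400 1096 n1096 = true) := ⟨by decide +kernel⟩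

theorem g1096 : GoodF (fidx ts) 400 1096 := GoodF.ofV v1096 n1096 c1096.down b1096.down

/-- 459554:908/1 -/
noncomputable def e1097 : SCfg where
  D := {
    a := 6
    L := 10
    kp := 7
    inn := [(0, 1), (0, 2), (1, 0), (1, 2), (2, 0), (2, 1), (2, 3), (2, 4), (2, 5), (3, 2), (4, 2), (5,
      2)]
    mix := [(0, 0), (0, 1), (1, 1), (1, 2), (1, 3), (2, 0), (2, 3), (2, 4), (2, 5), (3, 4), (3, 5), (3,
      6), (3, 7), (4, 0), (4, 5), (4, 7), (4, 8), (5, 3), (5, 4), (5, 9)]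
    cl := [0, 1, 4, 3, 0, 0, 5, 2, 6, 7]
    chq := [(0, 3), (0, 4), (3, 0), (4, 0)]
    rng := [(0, 1), (0, 8), (1, 0), (1, 2), (2, 1), (2, 3), (3, 2), (3, 9), (4, 6), (4, 9), (5, 7), (6,
      4), (6, 7), (7, 5), (7, 6), (7, 8), (8, 0), (8, 7), (9, 3), (9, 4)]
    lev := [] }
  links := [[1, 2, 6, 7], [2, 0, 7, 8, 9], [6, 0, 1, 9, 5, 10, 3, 11, 4], [11, 2, 10, 12, 13], [6, 2, 11,
    13, 14], [10, 2, 9, 15]]
  P := {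
    a := 6
    N := 16
    nb := [198, 901, 3707, 15364, 26692, 34308, 16533, 323, 642, 33062, 36908, 8220, 9224, 22552,
      8272, 1568]
    tri := [(0, 1, 2), (0, 1, 7), (0, 2, 6), (0, 6, 7), (1, 2, 9), (1, 7, 8), (1, 8, 9), (2, 3, 10),
      (2, 3, 11), (2, 4, 6), (2, 4, 11), (2, 5, 9), (2, 5, 10), (3, 10, 12), (3, 11, 13), (3, 12,
      13), (4, 6, 14), (4, 11, 13), (4, 13, 14), (5, 9, 15), (5, 10, 15)]
    fin := [0, 0, 0, 0, 0, 0, 0, 7, 8, 9, 0, 0, 12, 13, 14, 15]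
    chd := [(0, 8), (0, 9)]
    steps := [(0, 1), (0, 2), (0, 3), (0, 5), (0, 6), (0, 10), (0, 11), (0, 4)] }
  rep := [0, 7, 13, 9, 8, 12, 14, 15]

noncomputable def v1097 : Cov.CovD where
  P := 3
  N := 5
  pl := [1, 6, 7, 8, 9]
  lev := [⟨[], [], [], [1], [(0, 0, [3, 4])]⟩,
    ⟨[], [(0, 0), (0, 3), (0, 4)], [(3, 4)], [1], [(2, 4, [0]), (3, 3, [0])]⟩,
    ⟨[(0, 1)], [(0, 0), (0, 3), (1, 0), (1, 3), (1, 4)], [(0, 0), (0, 3)], [], [(0, 0, [3,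
      4]), (3, 3, [0]), (4, 0, [3, 4]), (5, 0, [3, 4])]⟩,
    ⟨[(0, 2), (1, 2)], [(2, 0), (2, 3)], [(0, 0)], [2, 5], [(4, 0, [3, 4]), (5, 0, [3,
      4])]⟩,
    ⟨[(0, 2), (1, 2), (2, 3)], [(0, 0), (2, 0), (2, 3), (3, 0)], [(0, 0)], [2, 6], [(0, 0,
      [3, 4]), (5, 0, [3, 4])]⟩,
    ⟨[(0, 2), (1, 2), (2, 3), (2, 4)], [(1, 3), (2, 0), (2, 3), (3, 0)], [(0, 3)], [7],
      [(3, 3, [0]), (4, 0, [3, 4])]⟩]
  Ta := [((0, 1), 0, 1), ((0, 8), 0, 6), ((4, 6), 0, 5), ((4, 9), 0, 7), ((5, 7), 0, 2)]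
  Tb := [((0, 1, 8), 0, 1, 6), ((1, 0, 2), 1, 0, 4), ((2, 1, 3), 4, 1, 3), ((3, 2, 9), 3, 4, 7),
    ((4, 6, 9), 0, 5, 7), ((6, 4, 7), 5, 0, 2), ((7, 5, 6), 2, 0, 5), ((7, 5, 8), 2, 0, 6),
    ((7, 6, 8), 2, 5, 6), ((8, 0, 7), 6, 0, 2), ((9, 3, 4), 7, 3, 0)]
  Tc := [(0, 3, 4)]
  Td := [((0, 3), (0, 1), 1), ((0, 3), (0, 8), 6), ((0, 3), (4, 6), 5), ((0, 3), (4, 9), 7), ((0,
    3), (5, 7), 2), ((0, 4), (0, 1), 1), ((0, 4), (0, 8), 6), ((0, 4), (4, 6), 5), ((0, 4),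
    (4, 9), 7), ((0, 4), (5, 7), 2), ((3, 0), (3, 2), 4), ((3, 0), (3, 9), 7), ((4, 0), (2,
    1), 1), ((4, 0), (2, 3), 3)]
  G := [[0, 0x11c11cc2214411c18c11c18ce1411cc1881411cceca, 0, 0x141ccc98836c61cce14,
    0x55a2b3a39aa19a8e14], [0, 0, 0, 0xc8c88c41444cccaece6cca1c, 0xceae6aaa8a88a61222aaa81c],
    [0, 0, 0x1421812c1218ce18, 0x145ccc98836c31cce14, 0x723aaab1a91aa188e14]]

noncomputable def n1097 : Ent := ⟨e1097, noF, [], [], []⟩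

def c1097 : PLift (Cov.check n1097.C.D v1097 = true) := ⟨by decide +kernel⟩

def b1097 : PLift (entF (fidx ts) 400 1097 n1097 = true) := ⟨by decide +kernel⟩

theorem g1097 : GoodF (fidx ts) 400 1097 := GoodF.ofV v1097 n1097 c1097.down b1097.down

/-- 459554:908 -/
noncomputable def e1098 : SCfg where
  D := {
    a := 6
    L := 11
    kp := 8
    inn := [(0, 1), (0, 2), (1, 0), (1, 2), (2, 0), (2, 1), (2, 3), (2, 4), (2, 5), (3, 2), (4, 2), (5,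
      2)]
    mix := [(0, 0), (0, 1), (1, 1), (1, 2), (1, 3), (2, 0), (2, 3), (2, 4), (2, 5), (3, 4), (3, 5), (3,
      6), (3, 7), (4, 0), (4, 5), (4, 8), (4, 9), (5, 3), (5, 4), (5, 10)]
    cl := [0, 2, 3, 1, 0, 0, 4, 5, 6, 7, 8]
    chq := [(0, 1), (0, 3), (1, 0), (3, 0)]
    rng := [(0, 1), (0, 9), (1, 0), (1, 2), (2, 1), (2, 3), (3, 2), (3, 10), (4, 6), (4, 10), (5, 7),
      (5, 8), (6, 4), (6, 7), (7, 5), (7, 6), (8, 5), (8, 9), (9, 0), (9, 8), (10, 3), (10, 4)]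
    lev := [] }
  links := [[1, 2, 6, 7], [2, 0, 7, 8, 9], [6, 0, 1, 9, 5, 10, 3, 11, 4], [11, 2, 10, 12, 13], [6, 2, 11,
    14, 15], [10, 2, 9, 16]]
  P := {
    a := 6
    N := 17
    nb := [198, 901, 3707, 15364, 51268, 67076, 32917, 323, 642, 65830, 69676, 24604, 9224, 6152,
      34832, 16464, 1568]
    tri := [(0, 1, 2), (0, 1, 7), (0, 2, 6), (0, 6, 7), (1, 2, 9), (1, 7, 8), (1, 8, 9), (2, 3, 10),
      (2, 3, 11), (2, 4, 6), (2, 4, 11), (2, 5, 9), (2, 5, 10), (3, 10, 12), (3, 11, 13), (3, 12,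
      13), (4, 6, 15), (4, 11, 14), (4, 14, 15), (5, 9, 16), (5, 10, 16)]
    fin := [0, 0, 0, 0, 0, 0, 0, 7, 8, 9, 0, 0, 12, 13, 14, 15, 16]
    chd := [(0, 8), (0, 9)]
    steps := [(0, 1), (0, 2), (0, 3), (0, 4), (0, 5), (0, 6), (0, 10), (0, 11)] }
  rep := [0, 9, 7, 8, 12, 13, 14, 15, 16]

noncomputable def v1098 : Cov.CovD where
  P := 3
  N := 6
  pl := [1, 6, 7, 8, 9, 10]
  lev := [⟨[], [], [], [2], [(0, 0, [1, 3])]⟩,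
    ⟨[], [(0, 0), (0, 1), (0, 3)], [(1, 3)], [2], [(2, 3, [0]), (3, 1, [0])]⟩,
    ⟨[(0, 1)], [(0, 0), (0, 1), (1, 0), (1, 1), (1, 3)], [(0, 0), (0, 1)], [], [(0, 0, [1,
      3]), (3, 1, [0]), (4, 0, [1, 3]), (5, 0, [1, 3])]⟩,
    ⟨[(0, 2), (1, 2)], [(2, 0), (2, 1)], [(0, 0)], [4, 5], [(4, 0, [1, 3]), (5, 0, [1,
      3])]⟩,
    ⟨[(0, 2), (1, 2), (2, 3)], [(0, 0), (2, 0), (2, 1), (3, 0)], [(0, 0)], [6, 7], [(0, 0,
      [1, 3]), (5, 0, [1, 3])]⟩,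
    ⟨[(0, 2), (1, 2), (2, 3), (2, 4)], [(1, 1), (2, 0), (2, 1), (3, 0)], [(0, 1)], [8],
      [(3, 1, [0]), (4, 0, [1, 3])]⟩]
  Ta := [((0, 1), 0, 2), ((0, 9), 0, 7), ((4, 6), 0, 4), ((4, 10), 0, 8), ((5, 7), 0, 5), ((5,
    8), 0, 6)]
  Tb := [((0, 1, 9), 0, 2, 7), ((1, 0, 2), 2, 0, 3), ((2, 1, 3), 3, 2, 1), ((3, 2, 10), 1, 3, 8),
    ((4, 6, 10), 0, 4, 8), ((5, 7, 8), 0, 5, 6), ((6, 4, 7), 4, 0, 5), ((7, 5, 6), 5, 0, 4),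
    ((8, 5, 9), 6, 0, 7), ((9, 0, 8), 7, 0, 6), ((10, 3, 4), 8, 1, 0)]
  Tc := [(0, 1, 3)]
  Td := [((0, 1), (0, 1), 2), ((0, 1), (0, 9), 7), ((0, 1), (4, 6), 4), ((0, 1), (4, 10), 8),
    ((0, 1), (5, 7), 5), ((0, 1), (5, 8), 6), ((0, 3), (0, 1), 2), ((0, 3), (0, 9), 7), ((0,
    3), (4, 6), 4), ((0, 3), (4, 10), 8), ((0, 3), (5, 7), 5), ((0, 3), (5, 8), 6), ((1, 0),
    (3, 2), 3), ((1, 0), (3, 10), 8), ((3, 0), (2, 1), 2), ((3, 0), (2, 3), 1)]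
  G := [[0, 0xca6e2accecacec618, 0x144111e11a111eec116111e111ee188cc2, 0x1164111e18111eec18,
    0x116111e111ee188c12], [0, 0x66ae26aceacceca14, 0, 0xc8ce8888e41444cce4ccee81c,
    0x444cce4ccec8ce888caec12], [0, 0x6226acecccecccea14, 0, 0x116111e111ee188c14,
    0x12111e111ee11c8c12]]

noncomputable def n1098 : Ent := ⟨e1098, noF, [], [], [(13, 14, [1685382413448253767852309107433119732572617628602273068445369405441, 0])]⟩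

def c1098 : PLift (Cov.check n1098.C.D v1098 = true) := ⟨by decide +kernel⟩

def b1098 : PLift (entF (fidx ts) 400 1098 n1098 = true) := ⟨by decide +kernel⟩

theorem g1098 : GoodF (fidx ts) 400 1098 := GoodF.ofV v1098 n1098 c1098.down b1098.down

/-- 459554:909/1 -/
noncomputable def e1099 : SCfg where
  D := {
    a := 6
    L := 10
    kp := 7
    inn := [(0, 1), (0, 2), (1, 0), (1, 2), (2, 0), (2, 1), (2, 3), (2, 4), (3, 2), (3, 5), (4, 2), (5,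
      3)]
    mix := [(0, 0), (0, 1), (1, 1), (1, 2), (1, 3), (2, 0), (2, 3), (2, 4), (2, 5), (2, 6), (3, 5), (3,
      6), (3, 7), (4, 0), (4, 6), (4, 7), (4, 8), (5, 5), (5, 7), (5, 9)]
    cl := [0, 2, 5, 0, 4, 3, 0, 1, 6, 7]
    chq := [(1, 3), (1, 4), (3, 1), (4, 1)]
    rng := [(0, 1), (0, 8), (1, 0), (1, 2), (2, 1), (2, 3), (3, 2), (3, 4), (4, 3), (4, 5), (5, 4), (5,
      9), (6, 7), (7, 6), (7, 8), (7, 9), (8, 0), (8, 7), (9, 5), (9, 7)]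
    lev := [] }
  links := [[1, 2, 6, 7], [2, 0, 7, 8, 9], [6, 0, 1, 9, 10, 11, 3, 12, 4], [12, 2, 11, 5, 13], [6, 2, 12,
    13, 14], [13, 3, 11, 15]]
  P := {
    a := 6
    N := 16
    nb := [198, 901, 7771, 14372, 28740, 43016, 16533, 323, 642, 1286, 2564, 33836, 8220, 53304, 8272,
      10272]
    tri := [(0, 1, 2), (0, 1, 7), (0, 2, 6), (0, 6, 7), (1, 2, 9), (1, 7, 8), (1, 8, 9), (2, 3, 11),
      (2, 3, 12), (2, 4, 6), (2, 4, 12), (2, 9, 10), (2, 10, 11), (3, 5, 11), (3, 5, 13), (3, 12,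
      13), (4, 6, 14), (4, 12, 13), (4, 13, 14), (5, 11, 15), (5, 13, 15)]
    fin := [0, 0, 2, 2, 0, 5, 0, 7, 8, 0, 2, 5, 0, 13, 14, 15]
    chd := [(2, 13), (5, 13)]
    steps := [(0, 1), (0, 6), (0, 4), (0, 9), (0, 12), (2, 3), (2, 10), (5, 11)] }
  rep := [0, 13, 7, 5, 2, 8, 14, 15]

noncomputable def v1099 : Cov.CovD where
  P := 3
  N := 5
  pl := [1, 2, 8, 9]
  lev := [⟨[], [], [], [2], [(0, 0, [])]⟩,
    ⟨[], [(0, 0)], [], [2, 5], [(3, 0, [])]⟩,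
    ⟨[(0, 1)], [(0, 0), (0, 3), (0, 4), (1, 0), (1, 3), (1, 4)], [(0, 0), (0, 3), (0, 4),
      (3, 4)], [], [(0, 0, []), (3, 0, []), (4, 4, [1]), (5, 3, [1]), (6, 0, [])]⟩,
    ⟨[(0, 2), (1, 2)], [(2, 0), (2, 1), (2, 3), (2, 4)], [(0, 1), (0, 3), (1, 3)], [], [(5,
      3, [1]), (6, 0, []), (7, 1, [3, 4])]⟩,
    ⟨[(0, 2), (1, 2), (2, 3)], [(0, 0), (2, 0), (2, 1), (2, 3), (2, 4), (3, 0), (3, 1)],
      [(0, 0), (0, 1)], [6], [(0, 0, []), (6, 0, []), (7, 1, [3, 4])]⟩,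
    ⟨[(2, 3)], [(2, 3), (3, 0), (3, 1), (3, 3), (4, 1)], [(1, 3)], [7], [(5, 3, [1]), (7,
      1, [3, 4])]⟩]
  Ta := [((0, 1), 0, 2), ((0, 8), 0, 6), ((3, 2), 0, 5), ((3, 4), 0, 4), ((6, 7), 0, 1)]
  Tb := [((0, 1, 8), 0, 2, 6), ((1, 0, 2), 2, 0, 5), ((2, 1, 3), 5, 2, 0), ((3, 2, 4), 0, 5, 4),
    ((4, 3, 5), 4, 0, 3), ((5, 4, 9), 3, 4, 7), ((7, 6, 8), 1, 0, 6), ((7, 6, 9), 1, 0, 7),
    ((7, 8, 9), 1, 6, 7), ((8, 0, 7), 6, 0, 1), ((9, 5, 7), 7, 3, 1)]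
  Tc := [(1, 3, 4)]
  Td := [((1, 3), (7, 6), 0), ((1, 3), (7, 8), 6), ((1, 3), (7, 9), 7), ((1, 4), (7, 6), 0), ((1,
    4), (7, 8), 6), ((1, 4), (7, 9), 7), ((3, 1), (5, 4), 4), ((3, 1), (5, 9), 7), ((4, 1),
    (4, 3), 0), ((4, 1), (4, 5), 3)]
  G := [[0, 0, 0x99c55cc299c55cc2c4, 0x99c55cc218, 0x99c55cc218], [0, 0, 0,
    0x99c55cc299c55cc2c4, 0x99c55cc225688a1242599c55ccea1], [0, 0xcc6aa66cca666aaaa66cce18,
    0, 0x99c55cc218, 0x99c55cc218]]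

noncomputable def n1099 : Ent := ⟨e1099, noF, [], [], []⟩

def c1099 : PLift (Cov.check n1099.C.D v1099 = true) := ⟨by decide +kernel⟩

def b1099 : PLift (entF (fidx ts) 400 1099 n1099 = true) := ⟨by decide +kernel⟩

theorem g1099 : GoodF (fidx ts) 400 1099 := GoodF.ofV v1099 n1099 c1099.down b1099.down

/-- 459554:909 -/
noncomputable def e1100 : SCfg where
  D := {
    a := 6
    L := 11
    kp := 8
    inn := [(0, 1), (0, 2), (1, 0), (1, 2), (2, 0), (2, 1), (2, 3), (2, 4), (3, 2), (3, 5), (4, 2), (5,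
      3)]
    mix := [(0, 0), (0, 1), (1, 1), (1, 2), (1, 3), (2, 0), (2, 3), (2, 4), (2, 5), (2, 6), (3, 5), (3,
      6), (3, 7), (4, 0), (4, 6), (4, 8), (4, 9), (5, 5), (5, 7), (5, 10)]
    cl := [0, 3, 7, 0, 2, 1, 1, 4, 5, 6, 8]
    chq := [(2, 5), (2, 6), (5, 2), (6, 2)]
    rng := [(0, 1), (0, 9), (1, 0), (1, 2), (2, 1), (2, 3), (3, 2), (3, 4), (4, 3), (4, 5), (5, 4), (5,
      10), (6, 7), (6, 8), (7, 6), (7, 10), (8, 6), (8, 9), (9, 0), (9, 8), (10, 5), (10, 7)]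
    lev := [] }
  links := [[1, 2, 6, 7], [2, 0, 7, 8, 9], [6, 0, 1, 9, 10, 11, 3, 12, 4], [12, 2, 11, 5, 13], [6, 2, 12,
    14, 15], [13, 3, 11, 16]]
  P := {
    a := 6
    N := 17
    nb := [198, 901, 7771, 14372, 53316, 75784, 32917, 323, 642, 1286, 2564, 66604, 24604, 69672,
      36880, 16464, 10272]
    tri := [(0, 1, 2), (0, 1, 7), (0, 2, 6), (0, 6, 7), (1, 2, 9), (1, 7, 8), (1, 8, 9), (2, 3, 11),
      (2, 3, 12), (2, 4, 6), (2, 4, 12), (2, 9, 10), (2, 10, 11), (3, 5, 11), (3, 5, 13), (3, 12,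
      13), (4, 6, 15), (4, 12, 14), (4, 14, 15), (5, 11, 16), (5, 13, 16)]
    fin := [0, 0, 2, 3, 2, 3, 0, 7, 8, 0, 2, 3, 3, 13, 14, 15, 16]
    chd := [(2, 14), (2, 15)]
    steps := [(0, 1), (0, 6), (0, 9), (2, 4), (2, 10), (3, 5), (3, 11), (3, 12)] }
  rep := [0, 3, 2, 7, 13, 14, 15, 8, 16]

noncomputable def v1100 : Cov.CovD where
  P := 3
  N := 6
  pl := [1, 2, 7, 10]
  lev := [⟨[], [], [], [3], [(0, 0, [])]⟩,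
    ⟨[], [(0, 0)], [], [3, 7], [(3, 0, [])]⟩,
    ⟨[(0, 1)], [(0, 0), (0, 1), (0, 2), (1, 0), (1, 1), (1, 2)], [(0, 0), (0, 1), (0, 2),
      (1, 1), (1, 2)], [], [(0, 0, []), (3, 0, []), (4, 2, [5, 6]), (5, 1, []), (6, 1, [])]⟩,
    ⟨[(0, 2), (1, 2)], [(2, 0), (2, 1), (2, 2)], [(1, 1)], [4], [(5, 1, []), (6, 1, [])]⟩,
    ⟨[(0, 2), (1, 2), (2, 3)], [(0, 0), (2, 0), (2, 1), (2, 2), (2, 5), (2, 6), (3, 1)],
      [(0, 1), (0, 5), (0, 6), (1, 5), (1, 6), (5, 6)], [], [(0, 0, []), (6, 1, []), (8, 5,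
      [2]), (9, 6, [2])]⟩,
    ⟨[(2, 3)], [(2, 1), (3, 1)], [], [4, 8], [(5, 1, [])]⟩]
  Ta := [((0, 1), 0, 3), ((0, 9), 0, 6), ((3, 2), 0, 7), ((3, 4), 0, 2), ((5, 4), 1, 2), ((5,
    10), 1, 8), ((6, 7), 1, 4), ((6, 8), 1, 5)]
  Tb := [((0, 1, 9), 0, 3, 6), ((1, 0, 2), 3, 0, 7), ((2, 1, 3), 7, 3, 0), ((3, 2, 4), 0, 7, 2),
    ((4, 3, 5), 2, 0, 1), ((5, 4, 10), 1, 2, 8), ((6, 7, 8), 1, 4, 5), ((7, 6, 10), 4, 1, 8),
    ((8, 6, 9), 5, 1, 6), ((9, 0, 8), 6, 0, 5), ((10, 5, 7), 8, 1, 4)]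
  Tc := [(2, 5, 6)]
  Td := [((2, 5), (4, 3), 0), ((2, 5), (4, 5), 1), ((2, 6), (4, 3), 0), ((2, 6), (4, 5), 1), ((5,
    2), (8, 6), 1), ((5, 2), (8, 9), 6), ((6, 2), (9, 0), 0), ((6, 2), (9, 8), 5)]
  G := [[0, 0xc262a4c2a268cc2a2681a, 0, 0xc292581c29258524928c6a, 0xc494581c49458c494586c], [0,
    0x3252681c212681262c8a6, 0, 0, 0x2494581c424583464c8a6], [0, 0xc262a4c2a268c2a268e1,
    0xc151948c191584c151942e, 0x524928c2c29258c29258c3, 0xc49458c49458c49458e1], [0,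
    0xc21268c212685232a4e1, 0x9121c482151c847121582e, 0, 0xc42458c42458249458e1]]

noncomputable def n1100 : Ent := ⟨e1100, noF, [], [], [(13, 14, [1685382413448253767852309107433119732572617628602273068445369413633, 0])]⟩

def c1100 : PLift (Cov.check n1100.C.D v1100 = true) := ⟨by decide +kernel⟩

def b1100 : PLift (entF (fidx ts) 400 1100 n1100 = true) := ⟨by decide +kernel⟩

theorem g1100 : GoodF (fidx ts) 400 1100 := GoodF.ofV v1100 n1100 c1100.down b1100.down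

/-- 459554:911/1 -/
noncomputable def e1101 : SCfg where
  D := {
    a := 6
    L := 10
    kp := 7
    inn := [(0, 1), (0, 2), (1, 0), (1, 2), (2, 0), (2, 1), (2, 3), (2, 4), (3, 2), (4, 2), (4, 5), (5,
      4)]
    mix := [(0, 0), (0, 1), (1, 1), (1, 2), (1, 3), (2, 0), (2, 3), (2, 4), (2, 5), (2, 6), (3, 5), (3,
      6), (3, 7), (3, 8), (4, 0), (4, 6), (4, 9), (5, 0), (5, 1), (5, 9)]
    cl := [0, 1, 4, 2, 5, 0, 0, 6, 7, 3]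
    chq := [(0, 4), (4, 0), (4, 5), (5, 4)]
    rng := [(0, 1), (1, 0), (1, 2), (1, 9), (2, 1), (2, 3), (3, 2), (3, 4), (4, 3), (4, 5), (5, 4), (5,
      7), (6, 8), (6, 9), (7, 5), (7, 8), (8, 6), (8, 7), (9, 1), (9, 6)]
    lev := [] }
  links := [[1, 2, 6, 7], [2, 0, 7, 8, 9], [6, 0, 1, 9, 10, 11, 3, 12, 4], [12, 2, 11, 13, 14], [6, 2,
    12, 15, 5], [6, 4, 15, 7]]
  P := {
    a := 6
    N := 16
    nb := [198, 901, 7771, 30724, 36964, 32976, 181, 33123, 642, 1286, 2564, 9228, 49180, 18440,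
      12296, 4272]
    tri := [(0, 1, 2), (0, 1, 7), (0, 2, 6), (0, 6, 7), (1, 2, 9), (1, 7, 8), (1, 8, 9), (2, 3, 11),
      (2, 3, 12), (2, 4, 6), (2, 4, 12), (2, 9, 10), (2, 10, 11), (3, 11, 13), (3, 12, 14), (3,
      13, 14), (4, 5, 6), (4, 5, 15), (4, 12, 15), (5, 6, 7), (5, 7, 15)]
    fin := [0, 1, 1, 0, 0, 0, 0, 7, 1, 9, 10, 0, 0, 13, 14, 15]
    chd := [(0, 1), (1, 10)]
    steps := [(0, 6), (0, 4), (0, 5), (0, 12), (0, 3), (0, 11), (1, 2), (1, 8)] }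
  rep := [0, 7, 9, 15, 1, 10, 13, 14]

noncomputable def v1101 : Cov.CovD where
  P := 3
  N := 5
  pl := [1, 3, 7, 8, 9]
  lev := [⟨[], [], [], [1], [(0, 0, [4])]⟩,
    ⟨[], [(0, 0), (0, 4)], [], [1, 2], [(2, 4, [0, 5])]⟩,
    ⟨[(0, 1)], [(0, 0), (0, 5), (1, 0), (1, 4), (1, 5)], [(0, 0), (0, 5)], [2], [(0, 0,
      [4]), (4, 5, [4]), (5, 0, [4]), (6, 0, [4])]⟩,
    ⟨[(0, 2), (1, 2)], [(2, 0), (2, 5)], [(0, 0)], [6, 7], [(5, 0, [4]), (6, 0, [4])]⟩,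
    ⟨[(0, 2), (1, 2), (2, 3)], [(0, 0), (2, 0), (2, 5), (3, 0)], [(0, 0)], [3], [(0, 0,
      [4]), (6, 0, [4])]⟩,
    ⟨[(2, 4)], [(0, 0), (2, 0), (4, 0)], [], [1, 3], [(0, 0, [4])]⟩]
  Ta := [((0, 1), 0, 1), ((5, 4), 0, 5), ((5, 7), 0, 6), ((6, 8), 0, 7), ((6, 9), 0, 3)]
  Tb := [((1, 0, 2), 1, 0, 4), ((1, 0, 9), 1, 0, 3), ((1, 2, 9), 1, 4, 3), ((2, 1, 3), 4, 1, 2),
    ((3, 2, 4), 2, 4, 5), ((4, 3, 5), 5, 2, 0), ((5, 4, 7), 0, 5, 6), ((6, 8, 9), 0, 7, 3),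
    ((7, 5, 8), 6, 0, 7), ((8, 6, 7), 7, 0, 6), ((9, 1, 6), 3, 1, 0)]
  Tc := [(4, 0, 5)]
  Td := [((0, 4), (0, 1), 1), ((0, 4), (5, 4), 5), ((0, 4), (5, 7), 6), ((0, 4), (6, 8), 7), ((0,
    4), (6, 9), 3), ((4, 0), (2, 1), 1), ((4, 0), (2, 3), 2), ((4, 5), (2, 1), 1), ((4, 5),
    (2, 3), 2), ((5, 4), (4, 3), 2), ((5, 4), (4, 5), 0)]
  G := [[0x84c84c84ce242624c426e8a4, 0x84a42a84ae4426486426e8c2,
    0x84a84a64884a848684cc6486486486e8cc, 0x84a84a84ae41486486486e81c,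
    0x8c6486486e84a48684cea14], [0, 0, 0x11641668484a84a84ae448688c9,
    0x11a448416116116e81a41aac1c, 0x416186116e81a84c14cea14], [0, 0,
    0x84a84a84ae44864868c6e8c1, 0x81a84a81ae4141614c14ce81c, 0x81641614ce84a84c84cea14]]

noncomputable def n1101 : Ent := ⟨e1101, noF, [], [], []⟩

def c1101 : PLift (Cov.check n1101.C.D v1101 = true) := ⟨by decide +kernel⟩

def b1101 : PLift (entF (fidx ts) 400 1101 n1101 = true) := ⟨by decide +kernel⟩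

theorem g1101 : GoodF (fidx ts) 400 1101 := GoodF.ofV v1101 n1101 c1101.down b1101.down

/-- 459554:911 -/
noncomputable def e1102 : SCfg where
  D := {
    a := 6
    L := 11
    kp := 8
    inn := [(0, 1), (0, 2), (1, 0), (1, 2), (2, 0), (2, 1), (2, 3), (2, 4), (3, 2), (4, 2), (4, 5), (5,
      4)]
    mix := [(0, 0), (0, 1), (1, 1), (1, 2), (1, 3), (2, 0), (2, 3), (2, 4), (2, 5), (2, 6), (3, 5), (3,
      6), (3, 7), (3, 8), (4, 0), (4, 6), (4, 9), (5, 0), (5, 9), (5, 10)]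
    cl := [0, 1, 4, 2, 5, 0, 0, 6, 7, 3, 8]
    chq := [(0, 4), (4, 0), (4, 5), (5, 4)]
    rng := [(0, 1), (0, 10), (1, 0), (1, 2), (2, 1), (2, 3), (3, 2), (3, 4), (4, 3), (4, 5), (5, 4),
      (5, 7), (6, 8), (6, 9), (7, 5), (7, 8), (8, 6), (8, 7), (9, 6), (9, 10), (10, 0), (10, 9)]
    lev := [] }
  links := [[1, 2, 6, 7], [2, 0, 7, 8, 9], [6, 0, 1, 9, 10, 11, 3, 12, 4], [12, 2, 11, 13, 14], [6, 2,
    12, 15, 5], [6, 4, 15, 16]]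
  P := {
    a := 6
    N := 17
    nb := [198, 901, 7771, 30724, 36964, 98384, 65717, 323, 642, 1286, 2564, 9228, 49180, 18440,
      12296, 69680, 32864]
    tri := [(0, 1, 2), (0, 1, 7), (0, 2, 6), (0, 6, 7), (1, 2, 9), (1, 7, 8), (1, 8, 9), (2, 3, 11),
      (2, 3, 12), (2, 4, 6), (2, 4, 12), (2, 9, 10), (2, 10, 11), (3, 11, 13), (3, 12, 14), (3,
      13, 14), (4, 5, 6), (4, 5, 15), (4, 12, 15), (5, 6, 16), (5, 15, 16)]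
    fin := [0, 1, 1, 0, 0, 0, 0, 7, 1, 9, 10, 0, 0, 13, 14, 15, 16]
    chd := [(0, 1), (1, 10)]
    steps := [(0, 6), (0, 4), (0, 5), (0, 12), (0, 3), (0, 11), (1, 2), (1, 8)] }
  rep := [0, 7, 9, 15, 1, 10, 13, 14, 16]

noncomputable def v1102 : Cov.CovD where
  P := 3
  N := 6
  pl := [1, 3, 7, 8, 9, 10]
  lev := [⟨[], [], [], [1], [(0, 0, [4])]⟩,
    ⟨[], [(0, 0), (0, 4)], [], [1, 2], [(2, 4, [0, 5])]⟩,
    ⟨[(0, 1)], [(0, 0), (0, 5), (1, 0), (1, 4), (1, 5)], [(0, 0), (0, 5)], [2], [(0, 0,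
      [4]), (4, 5, [4]), (5, 0, [4]), (6, 0, [4])]⟩,
    ⟨[(0, 2), (1, 2)], [(2, 0), (2, 5)], [(0, 0)], [6, 7], [(5, 0, [4]), (6, 0, [4])]⟩,
    ⟨[(0, 2), (1, 2), (2, 3)], [(0, 0), (2, 0), (2, 5), (3, 0)], [(0, 0)], [3], [(0, 0,
      [4]), (6, 0, [4])]⟩,
    ⟨[(2, 4)], [(0, 0), (2, 0), (4, 0)], [], [3, 8], [(0, 0, [4])]⟩]
  Ta := [((0, 1), 0, 1), ((0, 10), 0, 8), ((5, 4), 0, 5), ((5, 7), 0, 6), ((6, 8), 0, 7), ((6,
    9), 0, 3)]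
  Tb := [((0, 1, 10), 0, 1, 8), ((1, 0, 2), 1, 0, 4), ((2, 1, 3), 4, 1, 2), ((3, 2, 4), 2, 4, 5),
    ((4, 3, 5), 5, 2, 0), ((5, 4, 7), 0, 5, 6), ((6, 8, 9), 0, 7, 3), ((7, 5, 8), 6, 0, 7),
    ((8, 6, 7), 7, 0, 6), ((9, 6, 10), 3, 0, 8), ((10, 0, 9), 8, 0, 3)]
  Tc := [(4, 0, 5)]
  Td := [((0, 4), (0, 1), 1), ((0, 4), (0, 10), 8), ((0, 4), (5, 4), 5), ((0, 4), (5, 7), 6),
    ((0, 4), (6, 8), 7), ((0, 4), (6, 9), 3), ((4, 0), (2, 1), 1), ((4, 0), (2, 3), 2), ((4,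
    5), (2, 1), 1), ((4, 5), (2, 3), 2), ((5, 4), (4, 3), 2), ((5, 4), (4, 5), 0)]
  G := [[0xa6ca6ca6ce2c6ac6ac6ae468, 0xc6ac6ac6ae4ca6ca6ca6e8c2,
    0xca64c6ac6aaa6ca6ca6ceeca6ca6ca6e8c4, 0xc6ac6ac6ae41ca6ca6ca6e81c,
    0xca6ca6ca6ea6ca6ca6cea14], [0, 0, 0x116411a11aa11a11611cee11611611ae8c4,
    0x11a11a11ae4111611a11ce81c, 0x11611a116e11a11a11cea14], [0, 0,
    0xc6ac6ac6ae4ca6ca6ca6e8c1, 0x16a16aa1ce41b161a6c16e81c, 0x1a6c1616ae1da16ca1cea14]]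

noncomputable def n1102 : Ent := ⟨e1102, noF, [], [], [(7, 16, [1580044410770988437309982408355971841652082177953823432505693622273, 0])]⟩

def c1102 : PLift (Cov.check n1102.C.D v1102 = true) := ⟨by decide +kernel⟩

def b1102 : PLift (entF (fidx ts) 400 1102 n1102 = true) := ⟨by decide +kernel⟩

theorem g1102 : GoodF (fidx ts) 400 1102 := GoodF.ofV v1102 n1102 c1102.down b1102.down

/-- 459544:912/1 -/
noncomputable def e1103 : SCfg where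
  D := {
    a := 6
    L := 9
    kp := 6
    inn := [(0, 1), (0, 2), (1, 0), (1, 2), (2, 0), (2, 1), (2, 3), (2, 4), (3, 2), (3, 5), (4, 2), (5,
      3)]
    mix := [(0, 0), (0, 1), (1, 1), (1, 2), (1, 3), (2, 0), (2, 3), (2, 4), (2, 5), (2, 6), (3, 4), (3,
      5), (3, 7), (4, 3), (4, 4), (4, 8), (5, 4), (5, 7), (5, 8)]
    cl := [0, 2, 6, 0, 3, 3, 5, 4, 1]
    chq := [(1, 5), (5, 1)]
    rng := [(0, 1), (0, 6), (1, 0), (1, 2), (2, 1), (2, 3), (3, 2), (3, 8), (4, 8), (5, 6), (5, 7), (6,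
      0), (6, 5), (7, 5), (7, 8), (8, 3), (8, 4), (8, 7)]
    lev := [] }
  links := [[1, 2, 6, 7], [2, 0, 7, 8, 9], [6, 0, 1, 9, 4, 10, 3, 11, 12], [11, 2, 10, 5, 13], [10, 2, 9,
    14], [13, 3, 10, 14]]
  P := {
    a := 6
    N := 15
    nb := [198, 901, 7771, 11300, 17924, 25608, 4229, 323, 642, 16662, 16444, 12300, 2116, 18472,
      9776]
    tri := [(0, 1, 2), (0, 1, 7), (0, 2, 6), (0, 6, 7), (1, 2, 9), (1, 7, 8), (1, 8, 9), (2, 3, 10),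
      (2, 3, 11), (2, 4, 9), (2, 4, 10), (2, 6, 12), (2, 11, 12), (3, 5, 10), (3, 5, 13), (3, 11,
      13), (4, 9, 14), (4, 10, 14), (5, 10, 14), (5, 13, 14)]
    fin := [0, 0, 2, 3, 2, 2, 0, 7, 8, 0, 3, 3, 12, 13, 2]
    chd := [(12, 2)]
    steps := [(0, 1), (0, 6), (0, 9), (2, 4), (2, 14), (3, 10), (2, 5), (3, 11)] }
  rep := [0, 2, 7, 3, 13, 12, 8]

noncomputable def v1103 : Cov.CovD where
  P := 3
  N := 4
  pl := [1, 2, 7]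
  lev := [⟨[], [], [], [2], [(0, 0, [])]⟩,
    ⟨[], [(0, 0)], [], [2, 6], [(3, 0, [])]⟩,
    ⟨[(0, 1)], [(0, 0), (0, 3), (0, 5), (1, 0), (1, 3), (1, 5)], [(0, 0), (0, 3), (0, 5),
      (3, 3), (3, 5)], [], [(0, 0, []), (3, 0, []), (4, 3, []), (5, 3, []), (6, 5, [1])]⟩,
    ⟨[(0, 2), (1, 2)], [(2, 0), (2, 3), (2, 5)], [(3, 3)], [4], [(4, 3, []), (5, 3, [])]⟩,
    ⟨[(0, 2), (1, 2), (2, 3)], [(1, 0), (2, 0), (2, 1), (2, 3), (2, 5), (3, 3)], [(0, 1),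
      (0, 3), (1, 3)], [], [(3, 0, []), (4, 3, []), (8, 1, [5])]⟩,
    ⟨[(2, 3)], [(2, 3), (3, 1), (3, 3), (4, 1), (4, 3)], [(1, 3)], [4], [(4, 3, []), (8, 1,
      [5])]⟩]
  Ta := [((0, 1), 0, 2), ((0, 6), 0, 5), ((3, 2), 0, 6), ((3, 8), 0, 1), ((4, 8), 3, 1), ((5, 6),
    3, 5), ((5, 7), 3, 4)]
  Tb := [((0, 1, 6), 0, 2, 5), ((1, 0, 2), 2, 0, 6), ((2, 1, 3), 6, 2, 0), ((3, 2, 8), 0, 6, 1),
    ((5, 6, 7), 3, 5, 4), ((6, 0, 5), 5, 0, 3), ((7, 5, 8), 4, 3, 1), ((8, 3, 4), 1, 0, 3),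
    ((8, 3, 7), 1, 0, 4), ((8, 4, 7), 1, 3, 4)]
  Tc := []
  Td := [((1, 5), (8, 3), 0), ((1, 5), (8, 4), 3), ((1, 5), (8, 7), 4), ((5, 1), (6, 0), 0), ((5,
    1), (6, 5), 3)]
  G := [[0, 0, 0x4411548119884411de884411d24414581119ce4, 0x4818588189884411cde14,
    0x4484588145884411cde18], [0, 0, 0x844418d2844814d2c8, 0x844818d214, 0x844818d218], [0,
    0xe41e2168ca618e81c6a1e21ec9, 0, 0x4414548189884411cde84818588489884411cde45,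
    0x4414588145884411cde4488187884414b884411cdea1], [0, 0xa41c21681ea41c21a21ec1, 0,
    0x884818d2844814d2c4, 0x884414d2982542844418dea1]]

noncomputable def n1103 : Ent := ⟨e1103, noF, [], [], []⟩

def c1103 : PLift (Cov.check n1103.C.D v1103 = true) := ⟨by decide +kernel⟩

def b1103 : PLift (entF (fidx ts) 400 1103 n1103 = true) := ⟨by decide +kernel⟩

theorem g1103 : GoodF (fidx ts) 400 1103 := GoodF.ofV v1103 n1103 c1103.down b1103.down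

/-- 459544:912 -/
noncomputable def e1104 : SCfg where
  D := {
    a := 6
    L := 10
    kp := 7
    inn := [(0, 1), (0, 2), (1, 0), (1, 2), (2, 0), (2, 1), (2, 3), (2, 4), (3, 2), (3, 5), (4, 2), (5,
      3)]
    mix := [(0, 0), (0, 1), (1, 1), (1, 2), (1, 3), (2, 0), (2, 3), (2, 4), (2, 5), (2, 6), (3, 4), (3,
      5), (3, 7), (4, 3), (4, 4), (4, 8), (5, 4), (5, 7), (5, 9)]
    cl := [0, 3, 6, 0, 1, 1, 2, 4, 5, 7]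
    chq := [(2, 5), (5, 2)]
    rng := [(0, 1), (0, 6), (1, 0), (1, 2), (2, 1), (2, 3), (3, 2), (3, 8), (4, 8), (4, 9), (5, 6), (5,
      7), (6, 0), (6, 5), (7, 5), (7, 9), (8, 3), (8, 4), (9, 4), (9, 7)]
    lev := [] }
  links := [[1, 2, 6, 7], [2, 0, 7, 8, 9], [6, 0, 1, 9, 4, 10, 3, 11, 12], [11, 2, 10, 5, 13], [10, 2, 9,
    14], [13, 3, 10, 15]]
  P := {
    a := 6
    N := 16
    nb := [198, 901, 7771, 11300, 17924, 41992, 4229, 323, 642, 16662, 49212, 12300, 2116, 34856,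
      1552, 9248]
    tri := [(0, 1, 2), (0, 1, 7), (0, 2, 6), (0, 6, 7), (1, 2, 9), (1, 7, 8), (1, 8, 9), (2, 3, 10),
      (2, 3, 11), (2, 4, 9), (2, 4, 10), (2, 6, 12), (2, 11, 12), (3, 5, 10), (3, 5, 13), (3, 11,
      13), (4, 9, 14), (4, 10, 14), (5, 10, 15), (5, 13, 15)]
    fin := [0, 0, 2, 3, 2, 3, 0, 7, 8, 0, 3, 3, 12, 13, 2, 15]
    chd := [(12, 2)]
    steps := [(0, 1), (0, 6), (0, 9), (2, 4), (2, 14), (3, 5), (3, 10), (3, 11)] }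
  rep := [0, 3, 12, 7, 13, 2, 8, 15]

noncomputable def v1104 : Cov.CovD where
  P := 3
  N := 5
  pl := [1, 2, 7, 9]
  lev := [⟨[], [], [], [3], [(0, 0, [])]⟩,
    ⟨[], [(0, 0)], [], [3, 6], [(3, 0, [])]⟩,
    ⟨[(0, 1)], [(0, 0), (0, 1), (0, 2), (1, 0), (1, 1), (1, 2)], [(0, 0), (0, 1), (0, 2),
      (1, 1), (1, 2)], [], [(0, 0, []), (3, 0, []), (4, 1, []), (5, 1, []), (6, 2, [5])]⟩,
    ⟨[(0, 2), (1, 2)], [(2, 0), (2, 1), (2, 2)], [(1, 1)], [4], [(4, 1, []), (5, 1, [])]⟩,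
    ⟨[(0, 2), (1, 2), (2, 3)], [(1, 0), (2, 0), (2, 1), (2, 2), (2, 5), (3, 1)], [(0, 1),
      (0, 5), (1, 5)], [], [(3, 0, []), (4, 1, []), (8, 5, [2])]⟩,
    ⟨[(2, 3)], [(2, 1), (3, 1), (4, 1)], [], [4, 7], [(4, 1, [])]⟩]
  Ta := [((0, 1), 0, 3), ((0, 6), 0, 2), ((3, 2), 0, 6), ((3, 8), 0, 5), ((4, 8), 1, 5), ((4, 9),
    1, 7), ((5, 6), 1, 2), ((5, 7), 1, 4)]
  Tb := [((0, 1, 6), 0, 3, 2), ((1, 0, 2), 3, 0, 6), ((2, 1, 3), 6, 3, 0), ((3, 2, 8), 0, 6, 5),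
    ((4, 8, 9), 1, 5, 7), ((5, 6, 7), 1, 2, 4), ((6, 0, 5), 2, 0, 1), ((7, 5, 9), 4, 1, 7),
    ((8, 3, 4), 5, 0, 1), ((9, 4, 7), 7, 1, 4)]
  Tc := []
  Td := [((2, 5), (6, 0), 0), ((2, 5), (6, 5), 1), ((5, 2), (8, 3), 0), ((5, 2), (8, 4), 1)]
  G := [[0, 0xc2a268c2a268cc2a26816, 0xc151948c191584c191582e, 0, 0xc494581c19458c191586a], [0,
    0xa212c4925268a12a2681c, 0xc252941524928c1a, 0x2121c4821215842121942e,
    0x2171582454c8c64345816], [0, 0xc2a268c262a4624a28ce1, 0, 0, 0xc49458c49458c49458e1], [0,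
    0xa212c4c212a41262c8e1, 0, 0xc292584c222c942428d2d4a5, 0x64a458249258247458e1]]

noncomputable def n1104 : Ent := ⟨e1104, noF, [], [], [(14, 15, [360035742630636841211993100915356868655746945586763691012190209, 0])]⟩

def c1104 : PLift (Cov.check n1104.C.D v1104 = true) := ⟨by decide +kernel⟩

def b1104 : PLift (entF (fidx ts) 400 1104 n1104 = true) := ⟨by decide +kernel⟩

theorem g1104 : GoodF (fidx ts) 400 1104 := GoodF.ofV v1104 n1104 c1104.down b1104.down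

/-- 459554:913/2 -/
noncomputable def e1105 : SCfg where
  D := {
    a := 6
    L := 9
    kp := 6
    inn := [(0, 1), (0, 2), (1, 0), (1, 2), (2, 0), (2, 1), (2, 3), (2, 4), (3, 2), (3, 5), (4, 2), (5,
      3)]
    mix := [(0, 0), (0, 1), (1, 1), (1, 2), (1, 3), (2, 0), (2, 3), (2, 4), (2, 5), (2, 6), (3, 4), (3,
      5), (3, 7), (4, 2), (4, 3), (4, 4), (4, 8), (5, 4), (5, 7), (5, 8)]
    cl := [0, 2, 4, 0, 0, 3, 6, 5, 1]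
    chq := [(1, 3), (1, 6), (3, 1), (6, 1)]
    rng := [(0, 1), (0, 6), (1, 0), (1, 2), (2, 1), (2, 3), (2, 8), (3, 2), (4, 8), (5, 6), (5, 7), (6,
      0), (6, 5), (7, 5), (7, 8), (8, 2), (8, 4), (8, 7)]
    lev := [] }
  links := [[1, 2, 6, 7], [2, 0, 7, 8, 9], [6, 0, 1, 9, 4, 10, 3, 11, 12], [11, 2, 10, 5, 13], [10, 2, 9,
    8, 14], [13, 3, 10, 14]]
  P := {
    a := 6
    N := 15
    nb := [198, 901, 7771, 11300, 18180, 25608, 4229, 323, 17042, 278, 16444, 12300, 2116, 18472,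
      9520]
    tri := [(0, 1, 2), (0, 1, 7), (0, 2, 6), (0, 6, 7), (1, 2, 9), (1, 7, 8), (1, 8, 9), (2, 3, 10),
      (2, 3, 11), (2, 4, 9), (2, 4, 10), (2, 6, 12), (2, 11, 12), (3, 5, 10), (3, 5, 13), (3, 11,
      13), (4, 8, 9), (4, 8, 14), (4, 10, 14), (5, 10, 14), (5, 13, 14)]
    fin := [0, 0, 2, 2, 0, 2, 0, 7, 8, 0, 0, 11, 12, 13, 2]
    chd := [(11, 2), (12, 2)]
    steps := [(0, 1), (0, 6), (0, 9), (0, 4), (0, 10), (2, 3), (2, 5), (2, 14)] }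
  rep := [0, 2, 7, 11, 8, 13, 12]

noncomputable def v1105 : Cov.CovD where
  P := 3
  N := 4
  pl := [1, 2, 7]
  lev := [⟨[], [], [], [2], [(0, 0, [])]⟩,
    ⟨[], [(0, 0)], [], [2, 4], [(3, 0, [])]⟩,
    ⟨[(0, 1)], [(0, 0), (0, 3), (0, 6), (1, 0), (1, 3), (1, 6)], [(0, 0), (0, 3), (0, 6),
      (3, 6)], [], [(0, 0, []), (3, 0, []), (4, 0, []), (5, 3, [1]), (6, 6, [1])]⟩,
    ⟨[(0, 2), (1, 2)], [(2, 0), (2, 3), (2, 6)], [(0, 3)], [5], [(4, 0, []), (5, 3, [1])]⟩,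
    ⟨[(0, 2), (1, 2), (2, 3)], [(1, 0), (2, 0), (2, 1), (2, 3), (2, 6), (3, 0)], [(0, 0),
      (0, 1)], [4], [(3, 0, []), (4, 0, []), (8, 1, [3, 6])]⟩,
    ⟨[(2, 3)], [(2, 0), (3, 0), (3, 1), (3, 3), (4, 0), (4, 1)], [(0, 1)], [5], [(4, 0,
      []), (8, 1, [3, 6])]⟩]
  Ta := [((0, 1), 0, 2), ((0, 6), 0, 6), ((3, 2), 0, 4), ((4, 8), 0, 1)]
  Tb := [((0, 1, 6), 0, 2, 6), ((1, 0, 2), 2, 0, 4), ((2, 1, 3), 4, 2, 0), ((2, 1, 8), 4, 2, 1),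
    ((2, 3, 8), 4, 0, 1), ((5, 6, 7), 3, 6, 5), ((6, 0, 5), 6, 0, 3), ((7, 5, 8), 5, 3, 1),
    ((8, 2, 4), 1, 4, 0), ((8, 2, 7), 1, 4, 5), ((8, 4, 7), 1, 0, 5)]
  Tc := [(1, 3, 6)]
  Td := [((1, 3), (8, 2), 4), ((1, 3), (8, 4), 0), ((1, 3), (8, 7), 5), ((1, 6), (8, 2), 4), ((1,
    6), (8, 4), 0), ((1, 6), (8, 7), 5), ((3, 1), (5, 6), 6), ((3, 1), (5, 7), 5), ((6, 1),
    (6, 0), 0), ((6, 1), (6, 5), 3)]
  G := [[0, 0, 0x88481828f28444c4d2c4, 0x88c44c182ccf218, 0x88c44ccccd218], [0, 0, 0,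
    0x8848c8d28444c4d2c8, 0x8848c8d2c42c428444c4dea8], [0,
    0xa244166644a226e88a82aa88c446cccee1a8448d, 0, 0x42282288c44ccccee18,
    0x42282288c44ccccee18]]

noncomputable def n1105 : Ent := ⟨e1105, noF, [], [], []⟩

def c1105 : PLift (Cov.check n1105.C.D v1105 = true) := ⟨by decide +kernel⟩

def b1105 : PLift (entF (fidx ts) 400 1105 n1105 = true) := ⟨by decide +kernel⟩

theorem g1105 : GoodF (fidx ts) 400 1105 := GoodF.ofV v1105 n1105 c1105.down b1105.down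

/-- 459554:913/1 -/
noncomputable def e1106 : SCfg where
  D := {
    a := 6
    L := 10
    kp := 7
    inn := [(0, 1), (0, 2), (1, 0), (1, 2), (2, 0), (2, 1), (2, 3), (2, 4), (3, 2), (3, 5), (4, 2), (5,
      3)]
    mix := [(0, 0), (0, 1), (1, 1), (1, 2), (1, 3), (2, 0), (2, 3), (2, 4), (2, 5), (2, 6), (3, 4), (3,
      5), (3, 7), (4, 2), (4, 3), (4, 4), (4, 8), (5, 4), (5, 7), (5, 9)]
    cl := [0, 2, 1, 0, 3, 3, 5, 4, 6, 7]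
    chq := [(1, 5), (5, 1), (5, 6), (6, 5)]
    rng := [(0, 1), (0, 6), (1, 0), (1, 2), (2, 1), (2, 3), (2, 8), (3, 2), (4, 8), (4, 9), (5, 6), (5,
      7), (6, 0), (6, 5), (7, 5), (7, 9), (8, 2), (8, 4), (9, 4), (9, 7)]
    lev := [] }
  links := [[1, 2, 6, 7], [2, 0, 7, 8, 9], [6, 0, 1, 9, 4, 10, 3, 11, 12], [11, 2, 10, 5, 13], [10, 2, 9,
    8, 14], [13, 3, 10, 15]]
  P := {
    a := 6
    N := 16
    nb := [198, 901, 7771, 11300, 18180, 41992, 4229, 323, 17042, 278, 49212, 12300, 2116, 34856,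
      1296, 9248]
    tri := [(0, 1, 2), (0, 1, 7), (0, 2, 6), (0, 6, 7), (1, 2, 9), (1, 7, 8), (1, 8, 9), (2, 3, 10),
      (2, 3, 11), (2, 4, 9), (2, 4, 10), (2, 6, 12), (2, 11, 12), (3, 5, 10), (3, 5, 13), (3, 11,
      13), (4, 8, 9), (4, 8, 14), (4, 10, 14), (5, 10, 15), (5, 13, 15)]
    fin := [0, 0, 2, 3, 2, 3, 0, 7, 8, 0, 3, 3, 2, 13, 14, 15]
    chd := [(2, 14), (8, 2)]
    steps := [(0, 1), (0, 6), (0, 9), (2, 4), (2, 12), (3, 5), (3, 10), (3, 11)] }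
  rep := [0, 8, 7, 3, 13, 2, 14, 15]

noncomputable def v1106 : Cov.CovD where
  P := 3
  N := 5
  pl := [1, 7, 9]
  lev := [⟨[], [], [], [2], [(0, 0, [])]⟩,
    ⟨[], [(0, 0), (0, 1)], [(0, 1)], [2], [(2, 1, [5]), (3, 0, [])]⟩,
    ⟨[(0, 1)], [(0, 0), (0, 3), (0, 5), (1, 0), (1, 1), (1, 3), (1, 5)], [(0, 0), (0, 3),
      (0, 5), (3, 3), (3, 5)], [], [(0, 0, []), (3, 0, []), (4, 3, []), (5, 3, []), (6, 5,
      [1, 6])]⟩,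
    ⟨[(0, 2), (1, 2)], [(2, 0), (2, 3), (2, 5)], [(3, 3)], [4], [(4, 3, []), (5, 3, [])]⟩,
    ⟨[(0, 2), (1, 2), (2, 3)], [(1, 0), (1, 1), (2, 0), (2, 1), (2, 3), (2, 5), (2, 6), (3,
      3)], [(0, 1), (0, 3), (0, 6), (1, 3), (1, 6), (3, 6)], [], [(2, 1, [5]), (3, 0, []),
      (4, 3, []), (8, 6, [5])]⟩,
    ⟨[(2, 3)], [(2, 3), (3, 3), (4, 3)], [], [4, 7], [(4, 3, [])]⟩]
  Ta := [((0, 1), 0, 2), ((0, 6), 0, 5), ((3, 2), 0, 1), ((4, 8), 3, 6), ((4, 9), 3, 7), ((5, 6),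
    3, 5), ((5, 7), 3, 4)]
  Tb := [((0, 1, 6), 0, 2, 5), ((1, 0, 2), 2, 0, 1), ((2, 1, 3), 1, 2, 0), ((2, 1, 8), 1, 2, 6),
    ((2, 3, 8), 1, 0, 6), ((4, 8, 9), 3, 6, 7), ((5, 6, 7), 3, 5, 4), ((6, 0, 5), 5, 0, 3),
    ((7, 5, 9), 4, 3, 7), ((8, 2, 4), 6, 1, 3), ((9, 4, 7), 7, 3, 4)]
  Tc := [(5, 1, 6)]
  Td := [((1, 5), (2, 1), 2), ((1, 5), (2, 3), 0), ((1, 5), (2, 8), 6), ((5, 1), (6, 0), 0), ((5,
    1), (6, 5), 3), ((5, 6), (6, 0), 0), ((5, 6), (6, 5), 3), ((6, 5), (8, 2), 1), ((6, 5),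
    (8, 4), 3)]
  G := [[0, 0, 0xc85894c49995aaad666d333ddac4, 0xc86858b41c4945aaad665333dda4c,
    0xaaad666d333dd28c4945c8589c1a], [0, 0, 0x9828c464345a46838dac8, 0x34b45a838c2448c78be18,
    0xb82199a46834d6d4245898], [0, 0xc4a29967c86255aba86433cde41, 0,
    0xc85894c4945aac66c33cdac1, 0xc4a29967c86255abaac66c33cde81], [0,
    0xc2a4927a86852ba46838de41, 0, 0xa8389464a45a46834dac4, 0x64345d8289a46838de81]]

noncomputable def n1106 : Ent := ⟨e1106, noF, [], [], [(14, 15, [360035742630636841211993100915356868655746945586763691012198401, 0])]⟩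

def c1106 : PLift (Cov.check n1106.C.D v1106 = true) := ⟨by decide +kernel⟩

def b1106 : PLift (entF (fidx ts) 400 1106 n1106 = true) := ⟨by decide +kernel⟩

theorem g1106 : GoodF (fidx ts) 400 1106 := GoodF.ofV v1106 n1106 c1106.down b1106.down

/-- 459554:913/3 -/
noncomputable def e1107 : SCfg where
  D := {
    a := 6
    L := 10
    kp := 7
    inn := [(0, 1), (0, 2), (1, 0), (1, 2), (2, 0), (2, 1), (2, 3), (2, 4), (3, 2), (3, 5), (4, 2), (5,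
      3)]
    mix := [(0, 0), (0, 1), (1, 1), (1, 2), (1, 3), (2, 0), (2, 3), (2, 4), (2, 5), (2, 6), (3, 4), (3,
      5), (3, 7), (4, 3), (4, 4), (4, 8), (4, 9), (5, 4), (5, 7), (5, 9)]
    cl := [0, 2, 6, 0, 0, 3, 5, 4, 7, 1]
    chq := [(1, 3), (1, 5), (3, 1), (5, 1)]
    rng := [(0, 1), (0, 6), (1, 0), (1, 2), (2, 1), (2, 3), (3, 2), (3, 8), (4, 9), (5, 6), (5, 7), (6,
      0), (6, 5), (7, 5), (7, 9), (8, 3), (8, 9), (9, 4), (9, 7), (9, 8)]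
    lev := [] }
  links := [[1, 2, 6, 7], [2, 0, 7, 8, 9], [6, 0, 1, 9, 4, 10, 3, 11, 12], [11, 2, 10, 5, 13], [10, 2, 9,
    14, 15], [13, 3, 10, 15]]
  P := {
    a := 6
    N := 16
    nb := [198, 901, 7771, 11300, 50692, 41992, 4229, 323, 642, 16662, 32828, 12300, 2116, 34856,
      33296, 25648]
    tri := [(0, 1, 2), (0, 1, 7), (0, 2, 6), (0, 6, 7), (1, 2, 9), (1, 7, 8), (1, 8, 9), (2, 3, 10),
      (2, 3, 11), (2, 4, 9), (2, 4, 10), (2, 6, 12), (2, 11, 12), (3, 5, 10), (3, 5, 13), (3, 11,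
      13), (4, 9, 14), (4, 10, 15), (4, 14, 15), (5, 10, 15), (5, 13, 15)]
    fin := [0, 0, 2, 2, 0, 2, 0, 7, 8, 0, 0, 11, 12, 13, 14, 2]
    chd := [(11, 2), (12, 2)]
    steps := [(0, 1), (0, 6), (0, 9), (0, 4), (0, 10), (2, 3), (2, 5), (2, 15)] }
  rep := [0, 2, 7, 11, 13, 12, 8, 14]

noncomputable def v1107 : Cov.CovD where
  P := 3
  N := 5
  pl := [1, 2, 7, 8]
  lev := [⟨[], [], [], [2], [(0, 0, [])]⟩,
    ⟨[], [(0, 0)], [], [2, 6], [(3, 0, [])]⟩,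
    ⟨[(0, 1)], [(0, 0), (0, 3), (0, 5), (1, 0), (1, 3), (1, 5)], [(0, 0), (0, 3), (0, 5),
      (3, 5)], [], [(0, 0, []), (3, 0, []), (4, 0, []), (5, 3, [1]), (6, 5, [1])]⟩,
    ⟨[(0, 2), (1, 2)], [(2, 0), (2, 3), (2, 5)], [(0, 3)], [4], [(4, 0, []), (5, 3, [1])]⟩,
    ⟨[(0, 2), (1, 2), (2, 3)], [(1, 0), (2, 0), (2, 1), (2, 3), (2, 5), (3, 0)], [(0, 0),
      (0, 1)], [7], [(3, 0, []), (4, 0, []), (9, 1, [3, 5])]⟩,
    ⟨[(2, 3)], [(2, 0), (3, 0), (3, 1), (3, 3), (4, 0), (4, 1)], [(0, 1)], [4], [(4, 0,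
      []), (9, 1, [3, 5])]⟩]
  Ta := [((0, 1), 0, 2), ((0, 6), 0, 5), ((3, 2), 0, 6), ((3, 8), 0, 7), ((4, 9), 0, 1)]
  Tb := [((0, 1, 6), 0, 2, 5), ((1, 0, 2), 2, 0, 6), ((2, 1, 3), 6, 2, 0), ((3, 2, 8), 0, 6, 7),
    ((5, 6, 7), 3, 5, 4), ((6, 0, 5), 5, 0, 3), ((7, 5, 9), 4, 3, 1), ((8, 3, 9), 7, 0, 1),
    ((9, 4, 7), 1, 0, 4), ((9, 4, 8), 1, 0, 7), ((9, 7, 8), 1, 4, 7)]
  Tc := [(1, 3, 5)]
  Td := [((1, 3), (9, 4), 0), ((1, 3), (9, 7), 4), ((1, 3), (9, 8), 7), ((1, 5), (9, 4), 0), ((1,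
    5), (9, 7), 4), ((1, 5), (9, 8), 7), ((3, 1), (5, 6), 5), ((3, 1), (5, 7), 4), ((5, 1),
    (6, 0), 0), ((5, 1), (6, 5), 3)]
  G := [[0, 0, 0x88c44ccccd288c44c11c22cf2c8, 0x88c44c182ccf218, 0x88c44c14c2cf218], [0, 0, 0,
    0x88c44c11c22cf288c44ccccd2c4, 0x88c44ccccd259c2ccc248c44ccccdea1], [0,
    0x28aaaa826e48c88cccce6166624c22ae81c, 0, 0x42282288c44ccccee14, 0x42282288c44ccccee18]]

noncomputable def n1107 : Ent := ⟨e1107, noF, [], [], [(8, 14, [385746751338780685620664494392815470296102193487288376377020417, 0])]⟩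

def c1107 : PLift (Cov.check n1107.C.D v1107 = true) := ⟨by decide +kernel⟩

def b1107 : PLift (entF (fidx ts) 400 1107 n1107 = true) := ⟨by decide +kernel⟩

theorem g1107 : GoodF (fidx ts) 400 1107 := GoodF.ofV v1107 n1107 c1107.down b1107.down

/-- 459554:913 -/
noncomputable def e1108 : SCfg where
  D := {
    a := 6
    L := 11
    kp := 8
    inn := [(0, 1), (0, 2), (1, 0), (1, 2), (2, 0), (2, 1), (2, 3), (2, 4), (3, 2), (3, 5), (4, 2), (5,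
      3)]
    mix := [(0, 0), (0, 1), (1, 1), (1, 2), (1, 3), (2, 0), (2, 3), (2, 4), (2, 5), (2, 6), (3, 4), (3,
      5), (3, 7), (4, 3), (4, 4), (4, 8), (4, 9), (5, 4), (5, 7), (5, 10)]
    cl := [0, 3, 7, 0, 1, 1, 2, 4, 5, 6, 8]
    chq := [(2, 5), (2, 6), (5, 2), (6, 2)]
    rng := [(0, 1), (0, 6), (1, 0), (1, 2), (2, 1), (2, 3), (3, 2), (3, 8), (4, 9), (4, 10), (5, 6),
      (5, 7), (6, 0), (6, 5), (7, 5), (7, 10), (8, 3), (8, 9), (9, 4), (9, 8), (10, 4), (10, 7)]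
    lev := [] }
  links := [[1, 2, 6, 7], [2, 0, 7, 8, 9], [6, 0, 1, 9, 4, 10, 3, 11, 12], [11, 2, 10, 5, 13], [10, 2, 9,
    14, 15], [13, 3, 10, 16]]
  P := {
    a := 6
    N := 17
    nb := [198, 901, 7771, 11300, 50692, 74760, 4229, 323, 642, 16662, 98364, 12300, 2116, 67624,
      33296, 17424, 9248]
    tri := [(0, 1, 2), (0, 1, 7), (0, 2, 6), (0, 6, 7), (1, 2, 9), (1, 7, 8), (1, 8, 9), (2, 3, 10),
      (2, 3, 11), (2, 4, 9), (2, 4, 10), (2, 6, 12), (2, 11, 12), (3, 5, 10), (3, 5, 13), (3, 11,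
      13), (4, 9, 14), (4, 10, 15), (4, 14, 15), (5, 10, 16), (5, 13, 16)]
    fin := [0, 0, 2, 3, 2, 3, 0, 7, 8, 0, 3, 3, 2, 13, 14, 15, 16]
    chd := [(2, 14), (2, 15)]
    steps := [(0, 1), (0, 6), (0, 9), (2, 4), (2, 12), (3, 5), (3, 10), (3, 11)] }
  rep := [0, 3, 2, 7, 13, 14, 15, 8, 16]

noncomputable def v1108 : Cov.CovD where
  P := 3
  N := 6
  pl := [1, 2, 7, 10]
  lev := [⟨[], [], [], [3], [(0, 0, [])]⟩,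
    ⟨[], [(0, 0)], [], [3, 7], [(3, 0, [])]⟩,
    ⟨[(0, 1)], [(0, 0), (0, 1), (0, 2), (1, 0), (1, 1), (1, 2)], [(0, 0), (0, 1), (0, 2),
      (1, 1), (1, 2)], [], [(0, 0, []), (3, 0, []), (4, 1, []), (5, 1, []), (6, 2, [5, 6])]⟩,
    ⟨[(0, 2), (1, 2)], [(2, 0), (2, 1), (2, 2)], [(1, 1)], [4], [(4, 1, []), (5, 1, [])]⟩,
    ⟨[(0, 2), (1, 2), (2, 3)], [(1, 0), (2, 0), (2, 1), (2, 2), (2, 5), (2, 6), (3, 1)],
      [(0, 1), (0, 5), (0, 6), (1, 5), (1, 6), (5, 6)], [], [(3, 0, []), (4, 1, []), (8, 5,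
      [2]), (9, 6, [2])]⟩,
    ⟨[(2, 3)], [(2, 1), (3, 1), (4, 1)], [], [4, 8], [(4, 1, [])]⟩]
  Ta := [((0, 1), 0, 3), ((0, 6), 0, 2), ((3, 2), 0, 7), ((3, 8), 0, 5), ((4, 9), 1, 6), ((4,
    10), 1, 8), ((5, 6), 1, 2), ((5, 7), 1, 4)]
  Tb := [((0, 1, 6), 0, 3, 2), ((1, 0, 2), 3, 0, 7), ((2, 1, 3), 7, 3, 0), ((3, 2, 8), 0, 7, 5),
    ((4, 9, 10), 1, 6, 8), ((5, 6, 7), 1, 2, 4), ((6, 0, 5), 2, 0, 1), ((7, 5, 10), 4, 1, 8),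
    ((8, 3, 9), 5, 0, 6), ((9, 4, 8), 6, 1, 5), ((10, 4, 7), 8, 1, 4)]
  Tc := [(2, 5, 6)]
  Td := [((2, 5), (6, 0), 0), ((2, 5), (6, 5), 1), ((2, 6), (6, 0), 0), ((2, 6), (6, 5), 1), ((5,
    2), (8, 3), 0), ((5, 2), (8, 9), 6), ((6, 2), (9, 4), 1), ((6, 2), (9, 8), 5)]
  G := [[0, 0xc262a4c262a4ac262a41c, 0xc151948c191584c151942e, 0, 0xc494581c49458c494586c], [0,
    0x3292a81523268523268a6, 0x21519482151c84a131542e, 0xc25294c29258ac292581c,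
    0x2454c81c424587424c8a6], [0, 0xc2a268c262a4c2a268e1, 0, 0, 0xc49458c49458c49458e1], [0,
    0xa212c4c2126812a264e1, 0, 0xc292584c25294c25294a5, 0xc42458249458c42458e1]]

noncomputable def n1108 : Ent := ⟨e1108, noF, [], [], [(8, 14, [1685382413448253767852309107433119732572617628602273068445369442305, 0]), (15, 16, [1580044410770988437309982408355971841652082177953823432505693646849, 0])]⟩

def c1108 : PLift (Cov.check n1108.C.D v1108 = true) := ⟨by decide +kernel⟩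

def b1108 : PLift (entF (fidx ts) 400 1108 n1108 = true) := ⟨by decide +kernel⟩

theorem g1108 : GoodF (fidx ts) 400 1108 := GoodF.ofV v1108 n1108 c1108.down b1108.down

/-- 486564:916/1 -/
noncomputable def e1109 : SCfg where
  D := {
    a := 6
    L := 10
    kp := 7
    inn := [(0, 1), (1, 0), (1, 2), (1, 3), (1, 5), (2, 1), (2, 3), (2, 4), (3, 1), (3, 2), (3, 4), (4,
      2), (4, 3), (5, 1)]
    mix := [(0, 0), (0, 1), (0, 2), (1, 0), (1, 2), (1, 3), (1, 4), (2, 3), (2, 5), (2, 6), (3, 2), (3,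
      7), (4, 5), (4, 7), (4, 8), (4, 9), (5, 0), (5, 4), (5, 8)]
    cl := [1, 6, 0, 2, 0, 3, 5, 3, 4, 7]
    chq := [(0, 1), (0, 5), (1, 0), (5, 0)]
    rng := [(0, 1), (0, 8), (1, 0), (1, 2), (2, 1), (2, 7), (3, 4), (3, 6), (4, 3), (4, 8), (5, 6), (5,
      9), (6, 3), (6, 5), (7, 2), (7, 8), (8, 0), (8, 4), (8, 7), (8, 9), (9, 5), (9, 8)]
    lev := [] }
  links := [[1, 6, 7, 8], [6, 0, 8, 3, 2, 9, 10, 5], [9, 1, 3, 4, 11, 12], [4, 2, 1, 8, 13], [11, 2, 3,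
    13, 14, 15], [6, 1, 10, 14]]
  P := {
    a := 6
    N := 16
    nb := [450, 1901, 6682, 8470, 59404, 17474, 16547, 321, 8331, 5126, 16930, 36884, 2564, 16664,
      42096, 18448]
    tri := [(0, 1, 6), (0, 1, 8), (0, 6, 7), (0, 7, 8), (1, 2, 3), (1, 2, 9), (1, 3, 8), (1, 5, 6), (1,
      5, 10), (1, 9, 10), (2, 3, 4), (2, 4, 11), (2, 9, 12), (2, 11, 12), (3, 4, 13), (3, 8, 13),
      (4, 11, 15), (4, 13, 14), (4, 14, 15), (5, 6, 14), (5, 10, 14)]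
    fin := [0, 1, 1, 1, 4, 0, 0, 7, 1, 9, 1, 4, 12, 4, 14, 15]
    chd := [(0, 1), (1, 12)]
    steps := [(0, 6), (0, 5), (1, 2), (1, 3), (1, 8), (1, 10), (4, 13), (4, 11)] }
  rep := [1, 0, 9, 4, 14, 12, 7, 15]

noncomputable def v1109 : Cov.CovD where
  P := 3
  N := 5
  pl := [1, 3, 8, 9]
  lev := [⟨[], [], [(0, 1)], [6], [(0, 1, [0]), (2, 0, [1, 5])]⟩,
    ⟨[], [(0, 0), (0, 1)], [(0, 0), (0, 1)], [2], [(0, 1, [0]), (2, 0, [1, 5]), (4, 0, [1,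
      5])]⟩,
    ⟨[(0, 1)], [(1, 0), (1, 1), (1, 3), (1, 5)], [(3, 5)], [2], [(5, 3, []), (6, 5, [0])]⟩,
    ⟨[(0, 1), (1, 2)], [(0, 0), (1, 0), (1, 1), (1, 3), (2, 0), (2, 3), (2, 5)], [(0, 3)],
      [], [(2, 0, [1, 5]), (7, 3, [])]⟩,
    ⟨[(1, 2), (1, 3), (2, 3)], [(2, 3), (2, 5), (3, 0), (3, 3)], [(3, 3)], [4, 7], [(5, 3,
      []), (7, 3, [])]⟩,
    ⟨[(0, 1), (1, 2), (1, 3)], [(0, 1), (1, 0), (1, 1)], [(0, 1)], [4], [(0, 1, [0]), (4,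
      0, [1, 5])]⟩]
  Ta := [((2, 1), 0, 6), ((2, 7), 0, 3), ((4, 3), 0, 2), ((4, 8), 0, 4), ((5, 6), 3, 5), ((5, 9),
    3, 7), ((7, 2), 3, 0), ((7, 8), 3, 4)]
  Tb := [((0, 1, 8), 1, 6, 4), ((1, 0, 2), 6, 1, 0), ((2, 1, 7), 0, 6, 3), ((3, 4, 6), 2, 0, 5),
    ((4, 3, 8), 0, 2, 4), ((5, 6, 9), 3, 5, 7), ((6, 3, 5), 5, 2, 3), ((7, 2, 8), 3, 0, 4),
    ((8, 0, 4), 4, 1, 0), ((8, 0, 7), 4, 1, 3), ((8, 0, 9), 4, 1, 7), ((8, 4, 7), 4, 0, 3),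
    ((8, 4, 9), 4, 0, 7), ((8, 7, 9), 4, 3, 7), ((9, 5, 8), 7, 3, 4)]
  Tc := [(0, 1, 5)]
  Td := [((0, 1), (2, 1), 6), ((0, 1), (2, 7), 3), ((0, 1), (4, 3), 2), ((0, 1), (4, 8), 4), ((0,
    5), (2, 1), 6), ((0, 5), (2, 7), 3), ((0, 5), (4, 3), 2), ((0, 5), (4, 8), 4), ((1, 0),
    (0, 1), 6), ((1, 0), (0, 8), 4), ((5, 0), (6, 3), 2), ((5, 0), (6, 5), 3)]
  G := [[0, 0x842cf218842af2186, 0, 0x1411f8141411f418112112c8d, 0x1411f4181411f218112114a8d],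
    [0, 0x425243618881c84c214247e14a, 0, 0x11411761111f89411811b61411f458c,
    0x11416111d114b63811111dc8111f238c], [0, 0x842cf814842af814a,
    0x4434848cf2c848d288ccf8ac1, 0x11811284ccf2d41, 0x11211484ccf2b81], [0,
    0x24ad824b61841248d82ae186, 0x84ccf2844cf8a41, 0x5111a84cd8ca6581, 0x4181c84c8ccb6381]]

noncomputable def n1109 : Ent := ⟨e1109, noF, [], [], []⟩

def c1109 : PLift (Cov.check n1109.C.D v1109 = true) := ⟨by decide +kernel⟩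

def b1109 : PLift (entF (fidx ts) 400 1109 n1109 = true) := ⟨by decide +kernel⟩

theorem g1109 : GoodF (fidx ts) 400 1109 := GoodF.ofV v1109 n1109 c1109.down b1109.down

/-- 486564:916/2 -/
noncomputable def e1110 : SCfg where
  D := {
    a := 6
    L := 10
    kp := 7
    inn := [(0, 1), (1, 0), (1, 2), (1, 3), (1, 5), (2, 1), (2, 3), (2, 4), (3, 1), (3, 2), (3, 4), (4,
      2), (4, 3), (5, 1)]
    mix := [(0, 0), (0, 1), (0, 2), (1, 0), (1, 2), (1, 3), (1, 4), (2, 3), (2, 5), (2, 6), (3, 2), (3,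
      7), (4, 5), (4, 7), (4, 8), (4, 9), (5, 0), (5, 4), (5, 9)]
    cl := [1, 6, 0, 2, 0, 3, 5, 3, 7, 4]
    chq := [(0, 1), (0, 5), (1, 0), (5, 0)]
    rng := [(0, 1), (0, 9), (1, 0), (1, 2), (2, 1), (2, 7), (3, 4), (3, 6), (4, 3), (4, 9), (5, 6), (5,
      9), (6, 3), (6, 5), (7, 2), (7, 8), (8, 7), (8, 9), (9, 0), (9, 4), (9, 5), (9, 8)]
    lev := [] }
  links := [[1, 6, 7, 8], [6, 0, 8, 3, 2, 9, 10, 5], [9, 1, 3, 4, 11, 12], [4, 2, 1, 8, 13], [11, 2, 3,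
    13, 14, 15], [6, 1, 10, 15]]
  P := {
    a := 6
    N := 16
    nb := [450, 1901, 6682, 8470, 59404, 33858, 32931, 321, 8331, 5126, 33314, 36884, 2564, 16664,
      40976, 19568]
    tri := [(0, 1, 6), (0, 1, 8), (0, 6, 7), (0, 7, 8), (1, 2, 3), (1, 2, 9), (1, 3, 8), (1, 5, 6), (1,
      5, 10), (1, 9, 10), (2, 3, 4), (2, 4, 11), (2, 9, 12), (2, 11, 12), (3, 4, 13), (3, 8, 13),
      (4, 11, 15), (4, 13, 14), (4, 14, 15), (5, 6, 15), (5, 10, 15)]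
    fin := [0, 1, 1, 1, 4, 0, 0, 7, 1, 9, 1, 4, 12, 4, 14, 15]
    chd := [(0, 1), (1, 12)]
    steps := [(0, 6), (0, 5), (1, 2), (1, 3), (1, 8), (1, 10), (4, 13), (4, 11)] }
  rep := [1, 0, 9, 4, 15, 12, 7, 14]

noncomputable def v1110 : Cov.CovD where
  P := 3
  N := 5
  pl := [1, 3, 8, 9]
  lev := [⟨[], [], [(0, 1)], [6], [(0, 1, [0]), (2, 0, [1, 5])]⟩,
    ⟨[], [(0, 0), (0, 1)], [(0, 0), (0, 1)], [2], [(0, 1, [0]), (2, 0, [1, 5]), (4, 0, [1,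
      5])]⟩,
    ⟨[(0, 1)], [(1, 0), (1, 1), (1, 3), (1, 5)], [(3, 5)], [2], [(5, 3, []), (6, 5, [0])]⟩,
    ⟨[(0, 1), (1, 2)], [(0, 0), (1, 0), (1, 1), (1, 3), (2, 0), (2, 3), (2, 5)], [(0, 3)],
      [], [(2, 0, [1, 5]), (7, 3, [])]⟩,
    ⟨[(1, 2), (1, 3), (2, 3)], [(2, 3), (2, 5), (3, 0), (3, 3)], [(3, 3)], [4, 7], [(5, 3,
      []), (7, 3, [])]⟩,
    ⟨[(0, 1), (1, 2), (1, 3)], [(0, 1), (1, 0), (1, 1)], [(0, 1)], [4], [(0, 1, [0]), (4,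
      0, [1, 5])]⟩]
  Ta := [((2, 1), 0, 6), ((2, 7), 0, 3), ((4, 3), 0, 2), ((4, 9), 0, 4), ((5, 6), 3, 5), ((5, 9),
    3, 4), ((7, 2), 3, 0), ((7, 8), 3, 7)]
  Tb := [((0, 1, 9), 1, 6, 4), ((1, 0, 2), 6, 1, 0), ((2, 1, 7), 0, 6, 3), ((3, 4, 6), 2, 0, 5),
    ((4, 3, 9), 0, 2, 4), ((5, 6, 9), 3, 5, 4), ((6, 3, 5), 5, 2, 3), ((7, 2, 8), 3, 0, 7),
    ((8, 7, 9), 7, 3, 4), ((9, 0, 4), 4, 1, 0), ((9, 0, 5), 4, 1, 3), ((9, 0, 8), 4, 1, 7),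
    ((9, 4, 5), 4, 0, 3), ((9, 4, 8), 4, 0, 7), ((9, 5, 8), 4, 3, 7)]
  Tc := [(0, 1, 5)]
  Td := [((0, 1), (2, 1), 6), ((0, 1), (2, 7), 3), ((0, 1), (4, 3), 2), ((0, 1), (4, 9), 4), ((0,
    5), (2, 1), 6), ((0, 5), (2, 7), 3), ((0, 5), (4, 3), 2), ((0, 5), (4, 9), 4), ((1, 0),
    (0, 1), 6), ((1, 0), (0, 9), 4), ((5, 0), (6, 3), 2), ((5, 0), (6, 5), 3)]
  G := [[0, 0x6426f218842af814a, 0, 0x1411f2181111f814112812c8d, 0x1111f4181411f218114112a8d],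
    [0, 0x84c218247e14822d8287a14c, 0, 0x11416141d416a941111c141d81a658c,
    0x1111614c411b638141d4161411f238c], [0, 0x8426f214842af418c, 0x844d24844cf2883284ccf8ec1,
    0x11411284ccf2d81, 0x11481284ccf4b81], [0, 0x822d8287a14242d42ab6186, 0x88ccf2848cf4681,
    0x4181c84cd4c6a941, 0xc111684c8ccb6381]]

noncomputable def n1110 : Ent := ⟨e1110, noF, [], [], []⟩

def c1110 : PLift (Cov.check n1110.C.D v1110 = true) := ⟨by decide +kernel⟩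

def b1110 : PLift (entF (fidx ts) 400 1110 n1110 = true) := ⟨by decide +kernel⟩

theorem g1110 : GoodF (fidx ts) 400 1110 := GoodF.ofV v1110 n1110 c1110.down b1110.down

/-- 486564:916 -/
noncomputable def e1111 : SCfg where
  D := {
    a := 6
    L := 11
    kp := 8
    inn := [(0, 1), (1, 0), (1, 2), (1, 3), (1, 5), (2, 1), (2, 3), (2, 4), (3, 1), (3, 2), (3, 4), (4,
      2), (4, 3), (5, 1)]
    mix := [(0, 0), (0, 1), (0, 2), (1, 0), (1, 2), (1, 3), (1, 4), (2, 3), (2, 5), (2, 6), (3, 2), (3,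
      7), (4, 5), (4, 7), (4, 8), (4, 9), (5, 0), (5, 4), (5, 10)]
    cl := [1, 5, 0, 2, 0, 3, 4, 3, 6, 7, 8]
    chq := [(0, 1), (0, 4), (1, 0), (4, 0)]
    rng := [(0, 1), (0, 10), (1, 0), (1, 2), (2, 1), (2, 7), (3, 4), (3, 6), (4, 3), (4, 10), (5, 6),
      (5, 9), (6, 3), (6, 5), (7, 2), (7, 8), (8, 7), (8, 9), (9, 5), (9, 8), (10, 0), (10, 4)]
    lev := [] }
  links := [[1, 6, 7, 8], [6, 0, 8, 3, 2, 9, 10, 5], [9, 1, 3, 4, 11, 12], [4, 2, 1, 8, 13], [11, 2, 3,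
    13, 14, 15], [6, 1, 10, 16]]
  P := {
    a := 6
    N := 17
    nb := [450, 1901, 6682, 8470, 59404, 66626, 65699, 321, 8331, 5126, 66082, 36884, 2564, 16664,
      40976, 18448, 1120]
    tri := [(0, 1, 6), (0, 1, 8), (0, 6, 7), (0, 7, 8), (1, 2, 3), (1, 2, 9), (1, 3, 8), (1, 5, 6), (1,
      5, 10), (1, 9, 10), (2, 3, 4), (2, 4, 11), (2, 9, 12), (2, 11, 12), (3, 4, 13), (3, 8, 13),
      (4, 11, 15), (4, 13, 14), (4, 14, 15), (5, 6, 16), (5, 10, 16)]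
    fin := [0, 1, 1, 1, 4, 0, 0, 7, 1, 9, 1, 4, 12, 4, 14, 15, 16]
    chd := [(0, 1), (1, 12)]
    steps := [(0, 6), (0, 5), (1, 2), (1, 3), (1, 8), (1, 10), (4, 13), (4, 11)] }
  rep := [1, 0, 9, 4, 12, 7, 14, 15, 16]

noncomputable def v1111 : Cov.CovD where
  P := 3
  N := 6
  pl := [1, 3, 8, 9, 10]
  lev := [⟨[], [], [(0, 1)], [5], [(0, 1, [0]), (2, 0, [1, 4])]⟩,
    ⟨[], [(0, 0), (0, 1)], [(0, 0), (0, 1)], [2], [(0, 1, [0]), (2, 0, [1, 4]), (4, 0, [1,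
      4])]⟩,
    ⟨[(0, 1)], [(1, 0), (1, 1), (1, 3), (1, 4)], [(3, 4)], [2], [(5, 3, []), (6, 4, [0])]⟩,
    ⟨[(0, 1), (1, 2)], [(0, 0), (1, 0), (1, 1), (1, 3), (2, 0), (2, 3), (2, 4)], [(0, 3)],
      [], [(2, 0, [1, 4]), (7, 3, [])]⟩,
    ⟨[(1, 2), (1, 3), (2, 3)], [(2, 3), (2, 4), (3, 0), (3, 3)], [(3, 3)], [6, 7], [(5, 3,
      []), (7, 3, [])]⟩,
    ⟨[(0, 1), (1, 2), (1, 3)], [(0, 1), (1, 0), (1, 1)], [(0, 1)], [8], [(0, 1, [0]), (4,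
      0, [1, 4])]⟩]
  Ta := [((2, 1), 0, 5), ((2, 7), 0, 3), ((4, 3), 0, 2), ((4, 10), 0, 8), ((5, 6), 3, 4), ((5,
    9), 3, 7), ((7, 2), 3, 0), ((7, 8), 3, 6)]
  Tb := [((0, 1, 10), 1, 5, 8), ((1, 0, 2), 5, 1, 0), ((2, 1, 7), 0, 5, 3), ((3, 4, 6), 2, 0, 4),
    ((4, 3, 10), 0, 2, 8), ((5, 6, 9), 3, 4, 7), ((6, 3, 5), 4, 2, 3), ((7, 2, 8), 3, 0, 6),
    ((8, 7, 9), 6, 3, 7), ((9, 5, 8), 7, 3, 6), ((10, 0, 4), 8, 1, 0)]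
  Tc := [(0, 1, 4)]
  Td := [((0, 1), (2, 1), 5), ((0, 1), (2, 7), 3), ((0, 1), (4, 3), 2), ((0, 1), (4, 10), 8),
    ((0, 4), (2, 1), 5), ((0, 4), (2, 7), 3), ((0, 4), (4, 3), 2), ((0, 4), (4, 10), 8), ((1,
    0), (0, 1), 5), ((1, 0), (0, 10), 8), ((4, 0), (6, 3), 2), ((4, 0), (6, 5), 3)]
  G := [[0, 0xaaaaf8146accf2186, 0, 0x1111f4181111f214112114c8d, 0x1111f2181111f218114112a8d],
    [0, 0xa6ad6667a146cadacab618c, 0, 0x114111d116a94118111d11a65811248d,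
    0x111d111b618111d111b6181111a28d], [0, 0x6aa6f214666af814a, 0xcccbc46ccccf46ccccf28c1,
    0x112112ccccf2d41, 0x112114ccccf4b81], [0, 0xcc6dca67a146a6daac7a14a, 0xccccf2ccccf8a41,
    0x11cc56cccdc2a941, 0xc1116ccccccb6381]]

noncomputable def n1111 : Ent := ⟨e1111, noF, [], [], [(14, 16, [1580044410770988437309982408355971841652082177953823432505693655041, 0]), (15, 16, [1580044410770988437309982408355971841652082177953823432505693659137, 0])]⟩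

def c1111 : PLift (Cov.check n1111.C.D v1111 = true) := ⟨by decide +kernel⟩

def b1111 : PLift (entF (fidx ts) 400 1111 n1111 = true) := ⟨by decide +kernel⟩

theorem g1111 : GoodF (fidx ts) 400 1111 := GoodF.ofV v1111 n1111 c1111.down b1111.down

/-- 486554:917/2 -/
noncomputable def e1112 : SCfg where
  D := {
    a := 6
    L := 9
    kp := 6
    inn := [(0, 1), (1, 0), (1, 2), (1, 3), (1, 5), (2, 1), (2, 3), (2, 4), (3, 1), (3, 2), (4, 2), (5,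
      1)]
    mix := [(0, 0), (0, 1), (0, 2), (1, 0), (1, 2), (1, 3), (1, 4), (2, 3), (2, 5), (2, 6), (3, 2), (3,
      5), (3, 7), (4, 1), (4, 5), (4, 6), (4, 8), (5, 0), (5, 4), (5, 8)]
    cl := [4, 2, 0, 1, 0, 3, 3, 6, 5]
    chq := [(0, 4), (1, 6), (4, 0), (6, 1)]
    rng := [(0, 1), (0, 8), (1, 0), (1, 2), (1, 6), (1, 8), (2, 1), (2, 7), (3, 4), (3, 6), (4, 3), (4,
      8), (5, 7), (5, 8), (6, 1), (6, 3), (7, 2), (7, 5), (8, 0), (8, 1), (8, 4), (8, 5)]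
    lev := [] }
  links := [[1, 6, 7, 8], [6, 0, 8, 3, 2, 9, 10, 5], [9, 1, 3, 11, 4, 12], [11, 2, 1, 8, 13], [12, 2, 11,
    14, 7], [6, 1, 10, 14]]
  P := {
    a := 6
    N := 15
    nb := [450, 1901, 6682, 10502, 22660, 17474, 16547, 20817, 8331, 5126, 16930, 24604, 660, 2312,
      3312]
    tri := [(0, 1, 6), (0, 1, 8), (0, 6, 7), (0, 7, 8), (1, 2, 3), (1, 2, 9), (1, 3, 8), (1, 5, 6), (1,
      5, 10), (1, 9, 10), (2, 3, 11), (2, 4, 11), (2, 4, 12), (2, 9, 12), (3, 8, 13), (3, 11, 13),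
      (4, 7, 12), (4, 7, 14), (4, 11, 14), (5, 6, 14), (5, 10, 14)]
    fin := [0, 1, 2, 2, 4, 0, 0, 7, 1, 9, 1, 4, 4, 2, 14]
    chd := [(0, 1), (9, 2)]
    steps := [(0, 6), (0, 5), (1, 8), (1, 10), (2, 3), (2, 13), (4, 11), (4, 12)] }
  rep := [1, 9, 7, 4, 0, 14, 2]

noncomputable def v1112 : Cov.CovD where
  P := 3
  N := 4
  pl := [1, 8]
  lev := [⟨[], [], [(0, 4)], [2], [(0, 4, [0]), (2, 0, [4])]⟩,
    ⟨[], [(0, 0), (0, 1), (0, 4)], [(0, 0), (0, 1), (0, 4), (1, 4)], [], [(0, 4, [0]), (2,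
      0, [4]), (3, 1, [6]), (4, 0, [4])]⟩,
    ⟨[(0, 1)], [(1, 0), (1, 1), (1, 3), (1, 4)], [(1, 3), (3, 3)], [], [(3, 1, [6]), (5, 3,
      []), (6, 3, [])]⟩,
    ⟨[(0, 1), (1, 2)], [(0, 0), (1, 0), (1, 1), (1, 3), (1, 4), (1, 6), (2, 0), (2, 1), (2,
      3), (2, 6)], [(0, 3), (0, 6), (3, 6)], [], [(2, 0, [4]), (5, 3, []), (7, 6, [1])]⟩,
    ⟨[(1, 2), (2, 3)], [(2, 1), (2, 3), (3, 3)], [(3, 3)], [2, 5], [(5, 3, []), (6, 3,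
      [])]⟩,
    ⟨[(0, 1), (1, 2), (1, 3)], [(0, 4), (1, 0), (1, 1), (1, 4)], [(0, 4)], [5], [(0, 4,
      [0]), (4, 0, [4])]⟩]
  Ta := [((2, 1), 0, 2), ((2, 7), 0, 6), ((4, 3), 0, 1), ((4, 8), 0, 5), ((5, 7), 3, 6), ((5, 8),
    3, 5), ((6, 1), 3, 2), ((6, 3), 3, 1)]
  Tb := [((0, 1, 8), 4, 2, 5), ((1, 0, 2), 2, 4, 0), ((1, 0, 6), 2, 4, 3), ((1, 0, 8), 2, 4, 5),
    ((1, 2, 6), 2, 0, 3), ((1, 2, 8), 2, 0, 5), ((1, 6, 8), 2, 3, 5), ((2, 1, 7), 0, 2, 6),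
    ((3, 4, 6), 1, 0, 3), ((4, 3, 8), 0, 1, 5), ((5, 7, 8), 3, 6, 5), ((6, 1, 3), 3, 2, 1),
    ((7, 2, 5), 6, 0, 3), ((8, 0, 1), 5, 4, 2), ((8, 0, 4), 5, 4, 0), ((8, 0, 5), 5, 4, 3),
    ((8, 1, 4), 5, 2, 0), ((8, 1, 5), 5, 2, 3), ((8, 4, 5), 5, 0, 3)]
  Tc := []
  Td := [((0, 4), (2, 1), 2), ((0, 4), (2, 7), 6), ((0, 4), (4, 3), 1), ((0, 4), (4, 8), 5), ((1,
    6), (3, 4), 0), ((1, 6), (3, 6), 3), ((4, 0), (0, 1), 2), ((4, 0), (0, 8), 5), ((6, 1),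
    (7, 2), 0), ((6, 1), (7, 5), 3)]
  G := [[0, 0, 0x111e214112e2186, 0x16c23125892c211294c, 0x135b248911b244a], [0, 0,
    0x111e218111e214c, 0x15c21125891c231294c, 0x11a25125892a211254a], [0,
    0x61128112aa11241126c, 0, 0x62c2612588828892564c242529c9, 0x482222412d4868b2483], [0,
    0xc141a2a14a18c61, 0, 0x26c26125888288c2562c24a529c9, 0x4492228b2c486ab2484921c3]]

noncomputable def n1112 : Ent := ⟨e1112, noF, [], [], []⟩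

def c1112 : PLift (Cov.check n1112.C.D v1112 = true) := ⟨by decide +kernel⟩

def b1112 : PLift (entF (fidx ts) 400 1112 n1112 = true) := ⟨by decide +kernel⟩

theorem g1112 : GoodF (fidx ts) 400 1112 := GoodF.ofV v1112 n1112 c1112.down b1112.down

/-- 486554:917/1 -/
noncomputable def e1113 : SCfg where
  D := {
    a := 6
    L := 10
    kp := 7
    inn := [(0, 1), (1, 0), (1, 2), (1, 3), (1, 5), (2, 1), (2, 3), (2, 4), (3, 1), (3, 2), (4, 2), (5,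
      1)]
    mix := [(0, 0), (0, 1), (0, 2), (1, 0), (1, 2), (1, 3), (1, 4), (2, 3), (2, 5), (2, 6), (3, 2), (3,
      5), (3, 7), (4, 1), (4, 5), (4, 6), (4, 8), (5, 0), (5, 4), (5, 9)]
    cl := [1, 4, 0, 2, 0, 3, 3, 5, 6, 7]
    chq := [(0, 1), (1, 0), (2, 5), (5, 2)]
    rng := [(0, 1), (0, 9), (1, 0), (1, 2), (1, 6), (1, 8), (2, 1), (2, 7), (3, 4), (3, 6), (4, 3), (4,
      9), (5, 7), (5, 8), (6, 1), (6, 3), (7, 2), (7, 5), (8, 1), (8, 5), (9, 0), (9, 4)]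
    lev := [] }
  links := [[1, 6, 7, 8], [6, 0, 8, 3, 2, 9, 10, 5], [9, 1, 3, 11, 4, 12], [11, 2, 1, 8, 13], [12, 2, 11,
    14, 7], [6, 1, 10, 15]]
  P := {
    a := 6
    N := 16
    nb := [450, 1901, 6682, 10502, 22660, 33858, 32931, 20817, 8331, 5126, 33314, 24604, 660, 2312,
      2192, 1120]
    tri := [(0, 1, 6), (0, 1, 8), (0, 6, 7), (0, 7, 8), (1, 2, 3), (1, 2, 9), (1, 3, 8), (1, 5, 6), (1,
      5, 10), (1, 9, 10), (2, 3, 11), (2, 4, 11), (2, 4, 12), (2, 9, 12), (3, 8, 13), (3, 11, 13),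
      (4, 7, 12), (4, 7, 14), (4, 11, 14), (5, 6, 15), (5, 10, 15)]
    fin := [0, 1, 2, 2, 4, 0, 0, 7, 1, 9, 1, 4, 4, 2, 14, 15]
    chd := [(0, 1), (9, 2)]
    steps := [(0, 6), (0, 5), (1, 8), (1, 10), (2, 3), (2, 13), (4, 11), (4, 12)] }
  rep := [1, 0, 9, 4, 7, 2, 14, 15]

noncomputable def v1113 : Cov.CovD where
  P := 3
  N := 5
  pl := [1, 8, 9]
  lev := [⟨[], [], [(0, 1)], [4], [(0, 1, [0]), (2, 0, [1])]⟩,
    ⟨[], [(0, 0), (0, 1), (0, 2)], [(0, 0), (0, 1), (0, 2), (1, 2)], [], [(0, 1, [0]), (2,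
      0, [1]), (3, 2, [5]), (4, 0, [1])]⟩,
    ⟨[(0, 1)], [(1, 0), (1, 1), (1, 2), (1, 3)], [(2, 3), (3, 3)], [], [(3, 2, [5]), (5, 3,
      []), (6, 3, [])]⟩,
    ⟨[(0, 1), (1, 2)], [(0, 0), (1, 0), (1, 1), (1, 2), (1, 3), (1, 5), (2, 0), (2, 2), (2,
      3), (2, 5)], [(0, 3), (0, 5), (3, 5)], [], [(2, 0, [1]), (5, 3, []), (7, 5, [2])]⟩,
    ⟨[(1, 2), (2, 3)], [(2, 2), (2, 3), (3, 3)], [(3, 3)], [4, 6], [(5, 3, []), (6, 3,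
      [])]⟩,
    ⟨[(0, 1), (1, 2), (1, 3)], [(0, 1), (1, 0), (1, 1), (1, 2)], [(0, 1)], [7], [(0, 1,
      [0]), (4, 0, [1])]⟩]
  Ta := [((2, 1), 0, 4), ((2, 7), 0, 5), ((4, 3), 0, 2), ((4, 9), 0, 7), ((5, 7), 3, 5), ((5, 8),
    3, 6), ((6, 1), 3, 4), ((6, 3), 3, 2)]
  Tb := [((0, 1, 9), 1, 4, 7), ((1, 0, 2), 4, 1, 0), ((1, 0, 6), 4, 1, 3), ((1, 0, 8), 4, 1, 6),
    ((1, 2, 6), 4, 0, 3), ((1, 2, 8), 4, 0, 6), ((1, 6, 8), 4, 3, 6), ((2, 1, 7), 0, 4, 5),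
    ((3, 4, 6), 2, 0, 3), ((4, 3, 9), 0, 2, 7), ((5, 7, 8), 3, 5, 6), ((6, 1, 3), 3, 4, 2),
    ((7, 2, 5), 5, 0, 3), ((8, 1, 5), 6, 4, 3), ((9, 0, 4), 7, 1, 0)]
  Tc := []
  Td := [((0, 1), (2, 1), 4), ((0, 1), (2, 7), 5), ((0, 1), (4, 3), 2), ((0, 1), (4, 9), 7), ((1,
    0), (0, 1), 4), ((1, 0), (0, 9), 7), ((2, 5), (3, 4), 0), ((2, 5), (3, 6), 3), ((5, 2),
    (7, 2), 0), ((5, 2), (7, 5), 3)]
  G := [[0, 0x6ac2ac6b258a6ab2486, 0, 0x11a211172941117288c, 0x11a4111d4381117488c], [0,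
    0xacc26c5294a6a72aa32c4a, 0, 0x11a21132941162115294c, 0x11a41194381164115438c], [0,
    0xaac2aa5294622cc6b2c86, 0x44314c818831cc4431c41c88318cc, 0xccce2ccc72941,
    0xccce4cccd4381], [0, 0xa6a26c32946632aa52c8c, 0xccccf2ccccf8a41, 0xccce2cccb2581,
    0xccce4cccd4381]]

noncomputable def n1113 : Ent := ⟨e1113, noF, [], [], [(14, 15, [360035742630636841211993100915356868655746945586763691012227073, 0])]⟩

def c1113 : PLift (Cov.check n1113.C.D v1113 = true) := ⟨by decide +kernel⟩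

def b1113 : PLift (entF (fidx ts) 400 1113 n1113 = true) := ⟨by decide +kernel⟩

theorem g1113 : GoodF (fidx ts) 400 1113 := GoodF.ofV v1113 n1113 c1113.down b1113.down

/-- 486554:917/3 -/
noncomputable def e1114 : SCfg where
  D := {
    a := 6
    L := 10
    kp := 7
    inn := [(0, 1), (1, 0), (1, 2), (1, 3), (1, 5), (2, 1), (2, 3), (2, 4), (3, 1), (3, 2), (4, 2), (5,
      1)]
    mix := [(0, 0), (0, 1), (0, 2), (1, 0), (1, 2), (1, 3), (1, 4), (2, 3), (2, 5), (2, 6), (3, 2), (3,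
      5), (3, 7), (4, 5), (4, 6), (4, 8), (4, 9), (5, 0), (5, 4), (5, 8)]
    cl := [1, 6, 0, 2, 0, 3, 3, 5, 4, 7]
    chq := [(0, 1), (1, 0), (2, 5), (5, 2)]
    rng := [(0, 1), (0, 8), (1, 0), (1, 2), (2, 1), (2, 7), (3, 4), (3, 6), (4, 3), (4, 8), (5, 7), (5,
      8), (6, 3), (6, 9), (7, 2), (7, 5), (8, 0), (8, 4), (8, 5), (8, 9), (9, 6), (9, 8)]
    lev := [] }
  links := [[1, 6, 7, 8], [6, 0, 8, 3, 2, 9, 10, 5], [9, 1, 3, 11, 4, 12], [11, 2, 1, 8, 13], [12, 2, 11,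
    14, 15], [6, 1, 10, 14]]
  P := {
    a := 6
    N := 16
    nb := [450, 1901, 6682, 10502, 55300, 17474, 16547, 321, 8331, 5126, 16930, 24604, 33300, 2312,
      35952, 20496]
    tri := [(0, 1, 6), (0, 1, 8), (0, 6, 7), (0, 7, 8), (1, 2, 3), (1, 2, 9), (1, 3, 8), (1, 5, 6), (1,
      5, 10), (1, 9, 10), (2, 3, 11), (2, 4, 11), (2, 4, 12), (2, 9, 12), (3, 8, 13), (3, 11, 13),
      (4, 11, 14), (4, 12, 15), (4, 14, 15), (5, 6, 14), (5, 10, 14)]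
    fin := [0, 1, 2, 2, 4, 0, 0, 7, 1, 9, 1, 4, 4, 2, 14, 15]
    chd := [(0, 1), (9, 2)]
    steps := [(0, 6), (0, 5), (1, 8), (1, 10), (2, 3), (2, 13), (4, 11), (4, 12)] }
  rep := [1, 0, 9, 4, 14, 2, 7, 15]

noncomputable def v1114 : Cov.CovD where
  P := 3
  N := 5
  pl := [1, 8, 9]
  lev := [⟨[], [], [(0, 1)], [6], [(0, 1, [0]), (2, 0, [1])]⟩,
    ⟨[], [(0, 0), (0, 1), (0, 2)], [(0, 0), (0, 1), (0, 2), (1, 2)], [], [(0, 1, [0]), (2,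
      0, [1]), (3, 2, [5]), (4, 0, [1])]⟩,
    ⟨[(0, 1)], [(1, 0), (1, 1), (1, 2), (1, 3)], [(2, 3), (3, 3)], [], [(3, 2, [5]), (5, 3,
      []), (6, 3, [])]⟩,
    ⟨[(0, 1), (1, 2)], [(0, 0), (1, 0), (1, 1), (1, 2), (1, 3), (1, 5), (2, 0), (2, 2), (2,
      3), (2, 5)], [(0, 3), (0, 5), (3, 5)], [], [(2, 0, [1]), (5, 3, []), (7, 5, [2])]⟩,
    ⟨[(1, 2), (2, 3)], [(2, 2), (2, 3), (3, 3)], [(3, 3)], [4, 7], [(5, 3, []), (6, 3,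
      [])]⟩,
    ⟨[(0, 1), (1, 2), (1, 3)], [(0, 1), (1, 0), (1, 1), (1, 2)], [(0, 1)], [4], [(0, 1,
      [0]), (4, 0, [1])]⟩]
  Ta := [((2, 1), 0, 6), ((2, 7), 0, 5), ((4, 3), 0, 2), ((4, 8), 0, 4), ((5, 7), 3, 5), ((5, 8),
    3, 4), ((6, 3), 3, 2), ((6, 9), 3, 7)]
  Tb := [((0, 1, 8), 1, 6, 4), ((1, 0, 2), 6, 1, 0), ((2, 1, 7), 0, 6, 5), ((3, 4, 6), 2, 0, 3),
    ((4, 3, 8), 0, 2, 4), ((5, 7, 8), 3, 5, 4), ((6, 3, 9), 3, 2, 7), ((7, 2, 5), 5, 0, 3),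
    ((8, 0, 4), 4, 1, 0), ((8, 0, 5), 4, 1, 3), ((8, 0, 9), 4, 1, 7), ((8, 4, 5), 4, 0, 3),
    ((8, 4, 9), 4, 0, 7), ((8, 5, 9), 4, 3, 7), ((9, 6, 8), 7, 3, 4)]
  Tc := []
  Td := [((0, 1), (2, 1), 6), ((0, 1), (2, 7), 5), ((0, 1), (4, 3), 2), ((0, 1), (4, 8), 4), ((1,
    0), (0, 1), 6), ((1, 0), (0, 8), 4), ((2, 5), (3, 4), 0), ((2, 5), (3, 6), 3), ((5, 2),
    (7, 2), 0), ((5, 2), (7, 5), 3)]
  G := [[0, 0x442482a22a329c842e2482cb21c6, 0, 0x141e2111b258111e21117294c,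
    0x111e4141d438841e4811d438c], [0, 0x842e282a7294842e2846b258a, 0,
    0x811e24817294841e2111b258c, 0x111e4111d438811e4111d438c], [0,
    0x426724824b28c842e284ab258a, 0x84cd14c871a484cd18c4b168c, 0x84ce284cb2581,
    0x84ce484cd4381], [0, 0x42872482ab28c842e282c72946, 0x42844cfa82848cd8e41,
    0x84ce244cb2581, 0x84ce484cd4381]]

noncomputable def n1114 : Ent := ⟨e1114, noF, [], [], [(7, 15, [360035742630636841211993100915356868655746945586763691012227073, 0])]⟩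

def c1114 : PLift (Cov.check n1114.C.D v1114 = true) := ⟨by decide +kernel⟩

def b1114 : PLift (entF (fidx ts) 400 1114 n1114 = true) := ⟨by decide +kernel⟩

theorem g1114 : GoodF (fidx ts) 400 1114 := GoodF.ofV v1114 n1114 c1114.down b1114.down

/-- 486554:917/4 -/
noncomputable def e1115 : SCfg where
  D := {
    a := 6
    L := 10
    kp := 7
    inn := [(0, 1), (1, 0), (1, 2), (1, 3), (1, 5), (2, 1), (2, 3), (2, 4), (3, 1), (3, 2), (4, 2), (5,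
      1)]
    mix := [(0, 0), (0, 1), (0, 2), (1, 0), (1, 2), (1, 3), (1, 4), (2, 3), (2, 5), (2, 6), (3, 2), (3,
      5), (3, 7), (4, 5), (4, 6), (4, 8), (4, 9), (5, 0), (5, 4), (5, 9)]
    cl := [1, 6, 0, 2, 0, 3, 3, 5, 7, 4]
    chq := [(0, 1), (1, 0), (2, 5), (5, 2)]
    rng := [(0, 1), (0, 9), (1, 0), (1, 2), (2, 1), (2, 7), (3, 4), (3, 6), (4, 3), (4, 9), (5, 7), (5,
      8), (6, 3), (6, 9), (7, 2), (7, 5), (8, 5), (8, 9), (9, 0), (9, 4), (9, 6), (9, 8)]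
    lev := [] }
  links := [[1, 6, 7, 8], [6, 0, 8, 3, 2, 9, 10, 5], [9, 1, 3, 11, 4, 12], [11, 2, 1, 8, 13], [12, 2, 11,
    14, 15], [6, 1, 10, 15]]
  P := {
    a := 6
    N := 16
    nb := [450, 1901, 6682, 10502, 55300, 33858, 32931, 321, 8331, 5126, 33314, 24604, 33300, 2312,
      34832, 21616]
    tri := [(0, 1, 6), (0, 1, 8), (0, 6, 7), (0, 7, 8), (1, 2, 3), (1, 2, 9), (1, 3, 8), (1, 5, 6), (1,
      5, 10), (1, 9, 10), (2, 3, 11), (2, 4, 11), (2, 4, 12), (2, 9, 12), (3, 8, 13), (3, 11, 13),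
      (4, 11, 14), (4, 12, 15), (4, 14, 15), (5, 6, 15), (5, 10, 15)]
    fin := [0, 1, 2, 2, 4, 0, 0, 7, 1, 9, 1, 4, 4, 2, 14, 15]
    chd := [(0, 1), (9, 2)]
    steps := [(0, 6), (0, 5), (1, 8), (1, 10), (2, 3), (2, 13), (4, 11), (4, 12)] }
  rep := [1, 0, 9, 4, 15, 2, 7, 14]

noncomputable def v1115 : Cov.CovD where
  P := 3
  N := 5
  pl := [1, 8, 9]
  lev := [⟨[], [], [(0, 1)], [6], [(0, 1, [0]), (2, 0, [1])]⟩,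
    ⟨[], [(0, 0), (0, 1), (0, 2)], [(0, 0), (0, 1), (0, 2), (1, 2)], [], [(0, 1, [0]), (2,
      0, [1]), (3, 2, [5]), (4, 0, [1])]⟩,
    ⟨[(0, 1)], [(1, 0), (1, 1), (1, 2), (1, 3)], [(2, 3), (3, 3)], [], [(3, 2, [5]), (5, 3,
      []), (6, 3, [])]⟩,
    ⟨[(0, 1), (1, 2)], [(0, 0), (1, 0), (1, 1), (1, 2), (1, 3), (1, 5), (2, 0), (2, 2), (2,
      3), (2, 5)], [(0, 3), (0, 5), (3, 5)], [], [(2, 0, [1]), (5, 3, []), (7, 5, [2])]⟩,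
    ⟨[(1, 2), (2, 3)], [(2, 2), (2, 3), (3, 3)], [(3, 3)], [4, 7], [(5, 3, []), (6, 3,
      [])]⟩,
    ⟨[(0, 1), (1, 2), (1, 3)], [(0, 1), (1, 0), (1, 1), (1, 2)], [(0, 1)], [4], [(0, 1,
      [0]), (4, 0, [1])]⟩]
  Ta := [((2, 1), 0, 6), ((2, 7), 0, 5), ((4, 3), 0, 2), ((4, 9), 0, 4), ((5, 7), 3, 5), ((5, 8),
    3, 7), ((6, 3), 3, 2), ((6, 9), 3, 4)]
  Tb := [((0, 1, 9), 1, 6, 4), ((1, 0, 2), 6, 1, 0), ((2, 1, 7), 0, 6, 5), ((3, 4, 6), 2, 0, 3),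
    ((4, 3, 9), 0, 2, 4), ((5, 7, 8), 3, 5, 7), ((6, 3, 9), 3, 2, 4), ((7, 2, 5), 5, 0, 3),
    ((8, 5, 9), 7, 3, 4), ((9, 0, 4), 4, 1, 0), ((9, 0, 6), 4, 1, 3), ((9, 0, 8), 4, 1, 7),
    ((9, 4, 6), 4, 0, 3), ((9, 4, 8), 4, 0, 7), ((9, 6, 8), 4, 3, 7)]
  Tc := []
  Td := [((0, 1), (2, 1), 6), ((0, 1), (2, 7), 5), ((0, 1), (4, 3), 2), ((0, 1), (4, 9), 4), ((1,
    0), (0, 1), 6), ((1, 0), (0, 9), 4), ((2, 5), (3, 4), 0), ((2, 5), (3, 6), 3), ((5, 2),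
    (7, 2), 0), ((5, 2), (7, 5), 3)]
  G := [[0, 0x824b284428724884c2482ab21ce, 0, 0x141e2111b258111e21817294c,
    0x141e4111d438811e4811d438c], [0, 0x8426f2824b458842e284cb2586, 0,
    0x111e28117294111e21117294c, 0x141e4141d438811e4811d438c], [0,
    0x426248a7298828c842e242c72946, 0x4414844b18831cc443148871c8818cc, 0x488724844b28c1,
    0x84ce484cd4381], [0, 0x426724824b28c842e282ab258c, 0x848cf248ccf4681, 0x84ce248c72941,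
    0x84ce484cd4381]]

noncomputable def n1115 : Ent := ⟨e1115, noF, [], [], []⟩

def c1115 : PLift (Cov.check n1115.C.D v1115 = true) := ⟨by decide +kernel⟩

def b1115 : PLift (entF (fidx ts) 400 1115 n1115 = true) := ⟨by decide +kernel⟩

theorem g1115 : GoodF (fidx ts) 400 1115 := GoodF.ofV v1115 n1115 c1115.down b1115.down

/-- 486554:917 -/
noncomputable def e1116 : SCfg where
  D := {
    a := 6
    L := 11
    kp := 8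
    inn := [(0, 1), (1, 0), (1, 2), (1, 3), (1, 5), (2, 1), (2, 3), (2, 4), (3, 1), (3, 2), (4, 2), (5,
      1)]
    mix := [(0, 0), (0, 1), (0, 2), (1, 0), (1, 2), (1, 3), (1, 4), (2, 3), (2, 5), (2, 6), (3, 2), (3,
      5), (3, 7), (4, 5), (4, 6), (4, 8), (4, 9), (5, 0), (5, 4), (5, 10)]
    cl := [1, 5, 0, 2, 0, 3, 3, 4, 6, 7, 8]
    chq := [(0, 1), (1, 0), (2, 4), (4, 2)]
    rng := [(0, 1), (0, 10), (1, 0), (1, 2), (2, 1), (2, 7), (3, 4), (3, 6), (4, 3), (4, 10), (5, 7),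
      (5, 8), (6, 3), (6, 9), (7, 2), (7, 5), (8, 5), (8, 9), (9, 6), (9, 8), (10, 0), (10, 4)]
    lev := [] }
  links := [[1, 6, 7, 8], [6, 0, 8, 3, 2, 9, 10, 5], [9, 1, 3, 11, 4, 12], [11, 2, 1, 8, 13], [12, 2, 11,
    14, 15], [6, 1, 10, 16]]
  P := {
    a := 6
    N := 17
    nb := [450, 1901, 6682, 10502, 55300, 66626, 65699, 321, 8331, 5126, 66082, 24604, 33300, 2312,
      34832, 20496, 1120]
    tri := [(0, 1, 6), (0, 1, 8), (0, 6, 7), (0, 7, 8), (1, 2, 3), (1, 2, 9), (1, 3, 8), (1, 5, 6), (1,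
      5, 10), (1, 9, 10), (2, 3, 11), (2, 4, 11), (2, 4, 12), (2, 9, 12), (3, 8, 13), (3, 11, 13),
      (4, 11, 14), (4, 12, 15), (4, 14, 15), (5, 6, 16), (5, 10, 16)]
    fin := [0, 1, 2, 2, 4, 0, 0, 7, 1, 9, 1, 4, 4, 2, 14, 15, 16]
    chd := [(0, 1), (9, 2)]
    steps := [(0, 6), (0, 5), (1, 8), (1, 10), (2, 3), (2, 13), (4, 11), (4, 12)] }
  rep := [1, 0, 9, 4, 2, 7, 14, 15, 16]

noncomputable def v1116 : Cov.CovD where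
  P := 3
  N := 6
  pl := [1, 8, 9, 10]
  lev := [⟨[], [], [(0, 1)], [5], [(0, 1, [0]), (2, 0, [1])]⟩,
    ⟨[], [(0, 0), (0, 1), (0, 2)], [(0, 0), (0, 1), (0, 2), (1, 2)], [], [(0, 1, [0]), (2,
      0, [1]), (3, 2, [4]), (4, 0, [1])]⟩,
    ⟨[(0, 1)], [(1, 0), (1, 1), (1, 2), (1, 3)], [(2, 3), (3, 3)], [], [(3, 2, [4]), (5, 3,
      []), (6, 3, [])]⟩,
    ⟨[(0, 1), (1, 2)], [(0, 0), (1, 0), (1, 1), (1, 2), (1, 3), (1, 4), (2, 0), (2, 2), (2,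
      3), (2, 4)], [(0, 3), (0, 4), (3, 4)], [], [(2, 0, [1]), (5, 3, []), (7, 4, [2])]⟩,
    ⟨[(1, 2), (2, 3)], [(2, 2), (2, 3), (3, 3)], [(3, 3)], [6, 7], [(5, 3, []), (6, 3,
      [])]⟩,
    ⟨[(0, 1), (1, 2), (1, 3)], [(0, 1), (1, 0), (1, 1), (1, 2)], [(0, 1)], [8], [(0, 1,
      [0]), (4, 0, [1])]⟩]
  Ta := [((2, 1), 0, 5), ((2, 7), 0, 4), ((4, 3), 0, 2), ((4, 10), 0, 8), ((5, 7), 3, 4), ((5,
    8), 3, 6), ((6, 3), 3, 2), ((6, 9), 3, 7)]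
  Tb := [((0, 1, 10), 1, 5, 8), ((1, 0, 2), 5, 1, 0), ((2, 1, 7), 0, 5, 4), ((3, 4, 6), 2, 0, 3),
    ((4, 3, 10), 0, 2, 8), ((5, 7, 8), 3, 4, 6), ((6, 3, 9), 3, 2, 7), ((7, 2, 5), 4, 0, 3),
    ((8, 5, 9), 6, 3, 7), ((9, 6, 8), 7, 3, 6), ((10, 0, 4), 8, 1, 0)]
  Tc := []
  Td := [((0, 1), (2, 1), 5), ((0, 1), (2, 7), 4), ((0, 1), (4, 3), 2), ((0, 1), (4, 10), 8),
    ((1, 0), (0, 1), 5), ((1, 0), (0, 10), 8), ((2, 4), (3, 4), 0), ((2, 4), (3, 6), 3), ((4,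
    2), (7, 2), 0), ((4, 2), (7, 5), 3)]
  G := [[0, 0x666e2666b2586aae2c66b258a, 0, 0x111e21117294111e2111b258c,
    0x111e4111d438111e4111d438c], [0, 0x6a6e2ca67294c6ae26aab258c, 0,
    0x111e21117294111e21117294c, 0x111e4111d438111e4111d438c], [0,
    0xaaab2846cc2ca6b2586ca7248e, 0xcccd1ccc71a44ccd14ccb168818cc, 0xccce2cccb2581,
    0xccce4cccd4381], [0, 0x66ce2c6c7294aaae2aaa7294c, 0xccccf2ccccf8a41, 0xccce2cccb2581,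
    0xccce4cccd4381]]

noncomputable def n1116 : Ent := ⟨e1116, noF, [], [], [(7, 15, [1685356702439545624007900436039642273970977273354372543760004648961, 0]), (14, 16, [1580044410770988437309982408355971841652082177953823432505693675521, 0]), (15, 16, [1580044410770988437309982408355971841652082177953823432505693679617, 0])]⟩

def c1116 : PLift (Cov.check n1116.C.D v1116 = true) := ⟨by decide +kernel⟩

def b1116 : PLift (entF (fidx ts) 400 1116 n1116 = true) := ⟨by decide +kernel⟩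

theorem g1116 : GoodF (fidx ts) 400 1116 := GoodF.ofV v1116 n1116 c1116.down b1116.down

/-- 486555:918/1 -/
noncomputable def e1117 : SCfg where
  D := {
    a := 6
    L := 10
    kp := 8
    inn := [(0, 1), (1, 0), (1, 2), (1, 3), (1, 4), (1, 5), (2, 1), (2, 3), (2, 4), (3, 1), (3, 2), (4,
      1), (4, 2), (5, 1)]
    mix := [(0, 0), (0, 1), (0, 2), (1, 0), (1, 2), (1, 3), (2, 4), (2, 5), (2, 6), (3, 2), (3, 4), (3,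
      7), (4, 3), (4, 6), (4, 8), (5, 0), (5, 3), (5, 8), (5, 9)]
    cl := [0, 7, 1, 0, 3, 5, 4, 6, 2, 8]
    chq := [(0, 1), (0, 3), (0, 4), (0, 5), (0, 6), (1, 0), (3, 0), (4, 0), (5, 0), (6, 0)]
    rng := [(0, 1), (0, 9), (1, 0), (1, 2), (2, 1), (2, 7), (3, 8), (4, 5), (4, 7), (5, 4), (5, 6), (6,
      5), (6, 8), (7, 2), (7, 4), (8, 3), (8, 6), (8, 9), (9, 0), (9, 8)]
    lev := [] }
  links := [[1, 6, 7, 8], [6, 0, 8, 3, 2, 4, 9, 5], [4, 1, 3, 10, 11, 12], [10, 2, 1, 8, 13], [9, 1, 2,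
    12, 14], [6, 1, 9, 14, 15]]
  P := {
    a := 6
    N := 16
    nb := [450, 893, 7194, 9478, 20998, 49730, 32931, 321, 8331, 16434, 10252, 5124, 18452, 1288,
      37424, 16480]
    tri := [(0, 1, 6), (0, 1, 8), (0, 6, 7), (0, 7, 8), (1, 2, 3), (1, 2, 4), (1, 3, 8), (1, 4, 9), (1,
      5, 6), (1, 5, 9), (2, 3, 10), (2, 4, 12), (2, 10, 11), (2, 11, 12), (3, 8, 13), (3, 10, 13),
      (4, 9, 14), (4, 12, 14), (5, 6, 15), (5, 9, 14), (5, 14, 15)]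
    fin := [0, 0, 0, 0, 0, 0, 0, 7, 8, 0, 10, 11, 12, 13, 14, 15]
    chd := [(0, 8), (0, 10), (0, 11), (0, 12), (0, 13)]
    steps := [(0, 1), (0, 2), (0, 3), (0, 4), (0, 6), (0, 9), (0, 5)] }
  rep := [0, 8, 14, 10, 12, 11, 13, 7, 15]

noncomputable def v1117 : Cov.CovD where
  P := 3
  N := 6
  pl := [1, 8, 9]
  lev := [⟨[], [], [(0, 1)], [7], [(0, 0, [1, 3, 4, 5, 6]), (2, 1, [0])]⟩,
    ⟨[], [(0, 0), (0, 1)], [(0, 0), (0, 1)], [], [(0, 0, [1, 3, 4, 5, 6]), (2, 1, [0]), (3,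
      0, [1, 3, 4, 5, 6])]⟩,
    ⟨[(0, 1)], [(1, 0), (1, 1), (1, 3), (1, 4), (1, 5)], [(3, 4), (3, 5), (4, 5)], [], [(4,
      3, [0]), (5, 5, [0]), (6, 4, [0])]⟩,
    ⟨[(0, 1), (1, 2)], [(0, 1), (1, 0), (1, 1), (1, 3), (1, 6), (2, 1), (2, 3), (2, 4), (2,
      5), (2, 6)], [(1, 3), (1, 6), (3, 6)], [], [(2, 1, [0]), (4, 3, [0]), (7, 6, [0])]⟩,
    ⟨[(0, 1), (1, 2), (1, 3), (2, 3)], [(1, 0), (1, 1), (1, 4), (2, 0), (2, 3), (2, 4), (2,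
      5)], [(0, 4)], [2], [(3, 0, [1, 3, 4, 5, 6]), (6, 4, [0])]⟩,
    ⟨[(0, 1), (1, 2), (1, 3), (1, 4)], [(0, 0), (1, 0), (1, 1), (4, 0)], [(0, 0)], [2, 8],
      [(0, 0, [1, 3, 4, 5, 6]), (3, 0, [1, 3, 4, 5, 6])]⟩]
  Ta := [((0, 1), 0, 7), ((0, 9), 0, 8), ((3, 8), 0, 2)]
  Tb := [((0, 1, 9), 0, 7, 8), ((1, 0, 2), 7, 0, 1), ((2, 1, 7), 1, 7, 6), ((4, 5, 7), 3, 5, 6),
    ((5, 4, 6), 5, 3, 4), ((6, 5, 8), 4, 5, 2), ((7, 2, 4), 6, 1, 3), ((8, 3, 6), 2, 0, 4),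
    ((8, 3, 9), 2, 0, 8), ((8, 6, 9), 2, 4, 8), ((9, 0, 8), 8, 0, 2)]
  Tc := [(0, 1, 3), (0, 1, 4), (0, 1, 5), (0, 1, 6), (0, 3, 4), (0, 3, 5), (0, 3, 6), (0, 4, 5),
    (0, 4, 6), (0, 5, 6)]
  Td := [((0, 1), (0, 1), 7), ((0, 1), (0, 9), 8), ((0, 1), (3, 8), 2), ((0, 3), (0, 1), 7), ((0,
    3), (0, 9), 8), ((0, 3), (3, 8), 2), ((0, 4), (0, 1), 7), ((0, 4), (0, 9), 8), ((0, 4),
    (3, 8), 2), ((0, 5), (0, 1), 7), ((0, 5), (0, 9), 8), ((0, 5), (3, 8), 2), ((0, 6), (0,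
    1), 7), ((0, 6), (0, 9), 8), ((0, 6), (3, 8), 2), ((1, 0), (2, 1), 7), ((1, 0), (2, 7),
    6), ((3, 0), (4, 5), 5), ((3, 0), (4, 7), 6), ((4, 0), (6, 5), 5), ((4, 0), (6, 8), 2),
    ((5, 0), (5, 4), 3), ((5, 0), (5, 6), 4), ((6, 0), (7, 2), 1), ((6, 0), (7, 4), 3)]
  G := [[0, 0xccccccccce12ccccccccce12c, 0, 0x4411c8c11c4cc118811cc41cc514448c7c818488c9cd,
    0xaaaaaa914aaaaaa914a81a81a21aaa4f4d], [0, 0xccccccccce124421c8c21ccccccc1e6, 0xc6a1141,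
    0xc414448c4d5c81cc918488c8dbc1, 0xa81a81a21aaaaaaaaadf41]]

noncomputable def n1117 : Ent := ⟨e1117, noF, [], [], []⟩

def c1117 : PLift (Cov.check n1117.C.D v1117 = true) := ⟨by decide +kernel⟩

def b1117 : PLift (entF (fidx ts) 400 1117 n1117 = true) := ⟨by decide +kernel⟩

theorem g1117 : GoodF (fidx ts) 400 1117 := GoodF.ofV v1117 n1117 c1117.down b1117.down

/-- 486555:918 -/
noncomputable def e1118 : SCfg where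
  D := {
    a := 6
    L := 11
    kp := 9
    inn := [(0, 1), (1, 0), (1, 2), (1, 3), (1, 4), (1, 5), (2, 1), (2, 3), (2, 4), (3, 1), (3, 2), (4,
      1), (4, 2), (5, 1)]
    mix := [(0, 0), (0, 1), (0, 2), (1, 0), (1, 2), (1, 3), (2, 4), (2, 5), (2, 6), (3, 2), (3, 4), (3,
      7), (4, 3), (4, 6), (4, 8), (5, 0), (5, 3), (5, 9), (5, 10)]
    cl := [0, 6, 1, 0, 3, 4, 2, 5, 7, 8, 9]
    chq := [(0, 1), (0, 2), (0, 3), (0, 4), (0, 5), (1, 0), (2, 0), (3, 0), (4, 0), (5, 0)]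
    rng := [(0, 1), (0, 10), (1, 0), (1, 2), (2, 1), (2, 7), (3, 8), (3, 9), (4, 5), (4, 7), (5, 4),
      (5, 6), (6, 5), (6, 8), (7, 2), (7, 4), (8, 3), (8, 6), (9, 3), (9, 10), (10, 0), (10, 9)]
    lev := [] }
  links := [[1, 6, 7, 8], [6, 0, 8, 3, 2, 4, 9, 5], [4, 1, 3, 10, 11, 12], [10, 2, 1, 8, 13], [9, 1, 2,
    12, 14], [6, 1, 9, 15, 16]]
  P := {
    a := 6
    N := 17
    nb := [450, 893, 7194, 9478, 20998, 98882, 65699, 321, 8331, 49202, 10252, 5124, 18452, 1288,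
      4624, 66080, 32864]
    tri := [(0, 1, 6), (0, 1, 8), (0, 6, 7), (0, 7, 8), (1, 2, 3), (1, 2, 4), (1, 3, 8), (1, 4, 9), (1,
      5, 6), (1, 5, 9), (2, 3, 10), (2, 4, 12), (2, 10, 11), (2, 11, 12), (3, 8, 13), (3, 10, 13),
      (4, 9, 14), (4, 12, 14), (5, 6, 16), (5, 9, 15), (5, 15, 16)]
    fin := [0, 0, 0, 0, 0, 0, 0, 7, 8, 0, 10, 11, 12, 13, 14, 15, 16]
    chd := [(0, 8), (0, 10), (0, 11), (0, 12), (0, 13)]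
    steps := [(0, 1), (0, 2), (0, 3), (0, 4), (0, 5), (0, 6), (0, 9)] }
  rep := [0, 8, 12, 10, 11, 13, 7, 14, 15, 16]

noncomputable def v1118 : Cov.CovD where
  P := 3
  N := 7
  pl := [1, 8, 9, 10]
  lev := [⟨[], [], [(0, 1)], [6], [(0, 0, [1, 2, 3, 4, 5]), (2, 1, [0])]⟩,
    ⟨[], [(0, 0), (0, 1)], [(0, 0), (0, 1)], [], [(0, 0, [1, 2, 3, 4, 5]), (2, 1, [0]), (3,
      0, [1, 2, 3, 4, 5])]⟩,
    ⟨[(0, 1)], [(1, 0), (1, 1), (1, 2), (1, 3), (1, 4)], [(2, 3), (2, 4), (3, 4)], [], [(4,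
      3, [0]), (5, 4, [0]), (6, 2, [0])]⟩,
    ⟨[(0, 1), (1, 2)], [(0, 1), (1, 0), (1, 1), (1, 3), (1, 5), (2, 1), (2, 2), (2, 3), (2,
      4), (2, 5)], [(1, 3), (1, 5), (3, 5)], [], [(2, 1, [0]), (4, 3, [0]), (7, 5, [0])]⟩,
    ⟨[(0, 1), (1, 2), (1, 3), (2, 3)], [(1, 0), (1, 1), (1, 2), (2, 0), (2, 2), (2, 3), (2,
      4)], [(0, 2)], [7], [(3, 0, [1, 2, 3, 4, 5]), (6, 2, [0])]⟩,
    ⟨[(0, 1), (1, 2), (1, 3), (1, 4)], [(0, 0), (1, 0), (1, 1), (4, 0)], [(0, 0)], [8, 9],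
      [(0, 0, [1, 2, 3, 4, 5]), (3, 0, [1, 2, 3, 4, 5])]⟩]
  Ta := [((0, 1), 0, 6), ((0, 10), 0, 9), ((3, 8), 0, 7), ((3, 9), 0, 8)]
  Tb := [((0, 1, 10), 0, 6, 9), ((1, 0, 2), 6, 0, 1), ((2, 1, 7), 1, 6, 5), ((3, 8, 9), 0, 7, 8),
    ((4, 5, 7), 3, 4, 5), ((5, 4, 6), 4, 3, 2), ((6, 5, 8), 2, 4, 7), ((7, 2, 4), 5, 1, 3),
    ((8, 3, 6), 7, 0, 2), ((9, 3, 10), 8, 0, 9), ((10, 0, 9), 9, 0, 8)]
  Tc := [(0, 1, 2), (0, 1, 3), (0, 1, 4), (0, 1, 5), (0, 2, 3), (0, 2, 4), (0, 2, 5), (0, 3, 4),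
    (0, 3, 5), (0, 4, 5)]
  Td := [((0, 1), (0, 1), 6), ((0, 1), (0, 10), 9), ((0, 1), (3, 8), 7), ((0, 1), (3, 9), 8),
    ((0, 2), (0, 1), 6), ((0, 2), (0, 10), 9), ((0, 2), (3, 8), 7), ((0, 2), (3, 9), 8), ((0,
    3), (0, 1), 6), ((0, 3), (0, 10), 9), ((0, 3), (3, 8), 7), ((0, 3), (3, 9), 8), ((0, 4),
    (0, 1), 6), ((0, 4), (0, 10), 9), ((0, 4), (3, 8), 7), ((0, 4), (3, 9), 8), ((0, 5), (0,
    1), 6), ((0, 5), (0, 10), 9), ((0, 5), (3, 8), 7), ((0, 5), (3, 9), 8), ((1, 0), (2, 1),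
    6), ((1, 0), (2, 7), 5), ((2, 0), (6, 5), 4), ((2, 0), (6, 8), 7), ((3, 0), (4, 5), 4),
    ((3, 0), (4, 7), 5), ((4, 0), (5, 4), 3), ((4, 0), (5, 6), 2), ((5, 0), (7, 2), 1), ((5,
    0), (7, 4), 3)]
  G := [[0, 0x2ec21eeceecc8e1a442ec44e1eaceaca1c841e6, 0xee6144aee1eea1ac1,
    0x4116415e11a11e8c1dc611e116ec1d8118819c446ecc1eac88c1cd,
    0x6241e11e1182eea5bc411e11e26ea5ba118819c4841a841cd], [0,
    0x22c21eeceecc4ce16eeceecc4e12eac214e, 0xee614eea1eea1ac1,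
    0x611e11446ece4dd811eac88e8d9c1, 0x6ea41e11eea88eead3c1]]

noncomputable def n1118 : Ent := ⟨e1118, noF, [], [], [(14, 15, [1685356702439545624007900436039642273970977273354372543760004665345, 0])]⟩

def c1118 : PLift (Cov.check n1118.C.D v1118 = true) := ⟨by decide +kernel⟩

def b1118 : PLift (entF (fidx ts) 400 1118 n1118 = true) := ⟨by decide +kernel⟩

theorem g1118 : GoodF (fidx ts) 400 1118 := GoodF.ofV v1118 n1118 c1118.down b1118.down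

/-- 459466:919 -/
noncomputable def e1119 : SCfg where
  D := {
    a := 6
    L := 10
    kp := 8
    inn := [(0, 1), (0, 2), (0, 5), (1, 0), (1, 2), (2, 0), (2, 1), (2, 3), (2, 4), (2, 5), (3, 2), (3,
      4), (4, 2), (4, 3), (4, 5), (5, 0), (5, 2), (5, 4)]
    mix := [(0, 0), (1, 0), (1, 1), (1, 2), (2, 2), (2, 3), (2, 4), (2, 5), (3, 5), (3, 6), (4, 6), (4,
      7), (4, 8), (5, 0), (5, 8), (5, 9)]
    cl := [1, 6, 0, 7, 8, 0, 2, 4, 3, 5]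
    chq := [(0, 1), (0, 3), (0, 4), (0, 5), (1, 0), (3, 0), (4, 0), (5, 0)]
    rng := [(0, 1), (0, 9), (1, 0), (1, 2), (2, 1), (2, 3), (3, 2), (3, 4), (4, 3), (4, 5), (5, 4), (5,
      6), (6, 5), (6, 7), (7, 6), (7, 8), (8, 7), (8, 9), (9, 0), (9, 8)]
    lev := [] }
  links := [[1, 2, 5, 6], [2, 0, 6, 7, 8], [5, 0, 1, 8, 9, 10, 11, 3, 4], [4, 2, 11, 12], [5, 2, 3, 12,
    13, 14], [6, 0, 2, 4, 14, 15]]
  P := {
    a := 6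
    N := 16
    nb := [102, 453, 3899, 6164, 28716, 49237, 32931, 322, 646, 1284, 2564, 5132, 10264, 20496, 41008,
      16480]
    tri := [(0, 1, 2), (0, 1, 6), (0, 2, 5), (0, 5, 6), (1, 2, 8), (1, 6, 7), (1, 7, 8), (2, 3, 4), (2,
      3, 11), (2, 4, 5), (2, 8, 9), (2, 9, 10), (2, 10, 11), (3, 4, 12), (3, 11, 12), (4, 5, 14),
      (4, 12, 13), (4, 13, 14), (5, 6, 15), (5, 14, 15)]
    fin := [0, 0, 2, 2, 2, 2, 0, 7, 2, 9, 10, 2, 12, 13, 14, 15]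
    chd := [(0, 2), (2, 13), (2, 14), (2, 15)]
    steps := [(0, 1), (0, 6), (2, 3), (2, 4), (2, 5), (2, 8), (2, 11)] }
  rep := [2, 0, 12, 14, 13, 15, 7, 9, 10]

noncomputable def v1119 : Cov.CovD where
  P := 3
  N := 6
  pl := [1, 3, 4, 6]
  lev := [⟨[], [], [], [], [(0, 1, [0])]⟩,
    ⟨[], [(0, 0), (0, 1)], [(0, 1)], [6], [(0, 1, [0]), (2, 0, [1, 3, 4, 5])]⟩,
    ⟨[(0, 1)], [(0, 0), (0, 1), (1, 0), (1, 1)], [(0, 0)], [7, 8], [(2, 0, [1, 3, 4, 5]),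
      (5, 0, [1, 3, 4, 5])]⟩,
    ⟨[(0, 2), (1, 2)], [(2, 0)], [], [2], [(5, 0, [1, 3, 4, 5])]⟩,
    ⟨[(0, 2), (1, 2), (2, 3)], [(2, 0), (2, 3), (2, 4), (3, 0), (3, 3), (3, 4)], [(3, 4)],
      [2], [(7, 4, [0]), (8, 3, [0])]⟩,
    ⟨[(0, 1), (0, 2), (0, 4), (1, 2), (2, 3), (2, 4), (3, 4)], [(0, 1), (0, 3), (0, 5), (1,
      1), (2, 0), (2, 1), (2, 3), (2, 5), (4, 1), (4, 3), (4, 4), (4, 5)], [(1, 3), (1, 5),
      (3, 5)], [], [(0, 1, [0]), (8, 3, [0]), (9, 5, [0])]⟩]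
  Ta := [((2, 1), 0, 6), ((2, 3), 0, 7), ((5, 4), 0, 8), ((5, 6), 0, 2)]
  Tb := [((0, 1, 9), 1, 6, 5), ((1, 0, 2), 6, 1, 0), ((2, 1, 3), 0, 6, 7), ((3, 2, 4), 7, 0, 8),
    ((4, 3, 5), 8, 7, 0), ((5, 4, 6), 0, 8, 2), ((6, 5, 7), 2, 0, 4), ((7, 6, 8), 4, 2, 3),
    ((8, 7, 9), 3, 4, 5), ((9, 0, 8), 5, 1, 3)]
  Tc := [(0, 1, 3), (0, 1, 4), (0, 1, 5), (0, 3, 4), (0, 3, 5), (0, 4, 5)]
  Td := [((0, 1), (2, 1), 6), ((0, 1), (2, 3), 7), ((0, 1), (5, 4), 8), ((0, 1), (5, 6), 2), ((0,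
    3), (2, 1), 6), ((0, 3), (2, 3), 7), ((0, 3), (5, 4), 8), ((0, 3), (5, 6), 2), ((0, 4),
    (2, 1), 6), ((0, 4), (2, 3), 7), ((0, 4), (5, 4), 8), ((0, 4), (5, 6), 2), ((0, 5), (2,
    1), 6), ((0, 5), (2, 3), 7), ((0, 5), (5, 4), 8), ((0, 5), (5, 6), 2), ((1, 0), (0, 1),
    6), ((1, 0), (0, 9), 5), ((3, 0), (8, 7), 4), ((3, 0), (8, 9), 5), ((4, 0), (7, 6), 2),
    ((4, 0), (7, 8), 3), ((5, 0), (9, 0), 1), ((5, 0), (9, 8), 3)]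
  G := [[0, 0x414e18e14ea14214ae14e18c18ee1, 0, 0x118155465141181554e11cd84d5148118d41898a9c,
    0x111b2115b8611291129d1123e4124d11281c3289c], [0, 0x41a1ce186e14e14ae14e18ce1,
    0x111e24111618c111e4a1c, 0x145841141d9c199811dd4e1c, 0x1532115b81d38e118181c]]

noncomputable def n1119 : Ent := ⟨e1119, noF, [], [], []⟩

def c1119 : PLift (Cov.check n1119.C.D v1119 = true) := ⟨by decide +kernel⟩

def b1119 : PLift (entF (fidx ts) 400 1119 n1119 = true) := ⟨by decide +kernel⟩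

theorem g1119 : GoodF (fidx ts) 400 1119 := GoodF.ofV v1119 n1119 c1119.down b1119.down

/-- 459474:921 -/
noncomputable def e1120 : SCfg where
  D := {
    a := 6
    L := 10
    kp := 7
    inn := [(0, 1), (0, 2), (1, 0), (1, 2), (1, 4), (2, 0), (2, 1), (2, 3), (2, 4), (2, 5), (3, 2), (4,
      1), (4, 2), (4, 5), (5, 2), (5, 4)]
    mix := [(0, 0), (0, 1), (1, 1), (1, 2), (2, 0), (2, 3), (2, 4), (2, 5), (3, 4), (3, 5), (3, 6), (4,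
      2), (4, 7), (4, 8), (4, 9), (5, 3), (5, 9)]
    cl := [0, 1, 3, 0, 4, 2, 5, 6, 7, 3]
    chq := [(0, 5), (5, 0)]
    rng := [(0, 1), (0, 5), (1, 0), (1, 2), (2, 1), (2, 7), (3, 4), (3, 9), (4, 3), (4, 6), (5, 0), (5,
      6), (6, 4), (6, 5), (7, 2), (7, 8), (8, 7), (8, 9), (9, 3), (9, 8)]
    lev := [] }
  links := [[1, 2, 6, 7], [2, 0, 7, 8, 4], [6, 0, 1, 4, 5, 9, 10, 3, 11], [11, 2, 10, 12], [5, 2, 1, 8,
    13, 14, 15], [9, 2, 4, 15]]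
  P := {
    a := 6
    N := 16
    nb := [198, 405, 3707, 7172, 57638, 33300, 2181, 323, 8338, 33828, 4620, 4172, 3080, 16656, 40976,
      16944]
    tri := [(0, 1, 2), (0, 1, 7), (0, 2, 6), (0, 6, 7), (1, 2, 4), (1, 4, 8), (1, 7, 8), (2, 3, 10),
      (2, 3, 11), (2, 4, 5), (2, 5, 9), (2, 6, 11), (2, 9, 10), (3, 10, 12), (3, 11, 12), (4, 5,
      15), (4, 8, 13), (4, 13, 14), (4, 14, 15), (5, 9, 15)]
    fin := [0, 0, 0, 0, 4, 0, 0, 7, 4, 0, 10, 11, 12, 13, 14, 4]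
    chd := [(0, 12)]
    steps := [(0, 1), (0, 2), (0, 3), (0, 5), (0, 6), (0, 9), (4, 8), (4, 15)] }
  rep := [0, 7, 11, 4, 10, 12, 13, 14]

noncomputable def v1120 : Cov.CovD where
  P := 3
  N := 5
  pl := [1, 4, 5, 7, 8]
  lev := [⟨[], [], [], [1], [(0, 0, [5])]⟩,
    ⟨[], [(0, 0), (0, 3)], [], [1], [(2, 3, [])]⟩,
    ⟨[(0, 1)], [(0, 0), (1, 0), (1, 3)], [(0, 0)], [2, 4], [(0, 0, [5]), (3, 0, [5])]⟩,
    ⟨[(0, 2), (1, 2)], [(2, 0), (2, 5)], [], [2, 4], [(6, 5, [0])]⟩,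
    ⟨[(0, 1), (0, 2), (1, 2), (2, 3)], [(1, 3), (2, 0), (2, 3)], [(3, 3)], [6, 7], [(2, 3,
      []), (9, 3, [])]⟩,
    ⟨[(0, 2), (1, 2), (1, 4), (2, 3), (2, 4)], [(2, 0), (2, 3), (4, 0), (4, 3)], [(0, 3)],
      [], [(3, 0, [5]), (9, 3, [])]⟩]
  Ta := [((0, 1), 0, 1), ((0, 5), 0, 2), ((2, 1), 3, 1), ((2, 7), 3, 6), ((3, 4), 0, 4), ((3, 9),
    0, 3), ((9, 3), 3, 0), ((9, 8), 3, 7)]
  Tb := [((0, 1, 5), 0, 1, 2), ((1, 0, 2), 1, 0, 3), ((2, 1, 7), 3, 1, 6), ((3, 4, 9), 0, 4, 3),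
    ((4, 3, 6), 4, 0, 5), ((5, 0, 6), 2, 0, 5), ((6, 4, 5), 5, 4, 2), ((7, 2, 8), 6, 3, 7),
    ((8, 7, 9), 7, 6, 3), ((9, 3, 8), 3, 0, 7)]
  Tc := []
  Td := [((0, 5), (0, 1), 1), ((0, 5), (0, 5), 2), ((0, 5), (3, 4), 4), ((0, 5), (3, 9), 3), ((5,
    0), (6, 4), 4), ((5, 0), (6, 5), 2)]
  G := [[0, 0x1251811c423188871c612c1428184818ea, 0x18288b82e4142472422e8814148dea1c,
    0x8218f1411122f181c, 0x1224f18448f1a14], [0, 0x141421116f181ab1c2c,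
    0x88222b22e884481cde6112272412e81c, 0x111e1412122f1211c1c, 0x1422f18412f1a14], [0, 0, 0,
    0x288494142474424f4224fd888b1c1c, 0x24272244f2222fb884844f9a14], [0, 0, 0,
    0x282222f9422272222f2222fd8c1, 0x22272222f2222fb8822c2f9a41]]

noncomputable def n1120 : Ent := ⟨e1120, noF, [], [], []⟩

def c1120 : PLift (Cov.check n1120.C.D v1120 = true) := ⟨by decide +kernel⟩

def b1120 : PLift (entF (fidx ts) 400 1120 n1120 = true) := ⟨by decide +kernel⟩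

theorem g1120 : GoodF (fidx ts) 400 1120 := GoodF.ofV v1120 n1120 c1120.down b1120.down

/-- 459644:922 -/
noncomputable def e1121 : SCfg where
  D := {
    a := 6
    L := 9
    kp := 7
    inn := [(0, 1), (0, 2), (1, 0), (1, 2), (2, 0), (2, 1), (2, 3), (2, 4), (2, 5), (3, 2), (3, 4), (3,
      5), (4, 2), (4, 3), (5, 2), (5, 3)]
    mix := [(0, 0), (0, 1), (1, 1), (1, 2), (1, 3), (2, 0), (2, 3), (2, 4), (2, 5), (3, 6), (3, 7), (3,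
      8), (4, 5), (4, 8), (5, 4), (5, 6)]
    cl := [1, 4, 6, 0, 2, 0, 3, 7, 5]
    chq := [(0, 3), (0, 7), (1, 6), (3, 0), (6, 1), (7, 0)]
    rng := [(0, 1), (0, 5), (1, 0), (1, 2), (2, 1), (2, 3), (3, 2), (3, 4), (4, 3), (4, 6), (5, 0), (5,
      8), (6, 4), (6, 7), (7, 6), (7, 8), (8, 5), (8, 7)]
    lev := [] }
  links := [[1, 2, 6, 7], [2, 0, 7, 8, 9], [6, 0, 1, 9, 10, 5, 3, 4, 11], [4, 2, 5, 12, 13, 14], [11, 2,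
    3, 14], [12, 3, 2, 10]]
  P := {
    a := 6
    N := 15
    nb := [198, 901, 3707, 28724, 18444, 5132, 2181, 323, 642, 1286, 4644, 16468, 9256, 20488, 10264]
    tri := [(0, 1, 2), (0, 1, 7), (0, 2, 6), (0, 6, 7), (1, 2, 9), (1, 7, 8), (1, 8, 9), (2, 3, 4), (2,
      3, 5), (2, 4, 11), (2, 5, 10), (2, 6, 11), (2, 9, 10), (3, 4, 14), (3, 5, 12), (3, 12, 13),
      (3, 13, 14), (4, 11, 14), (5, 10, 12)]
    fin := [0, 0, 2, 2, 2, 2, 0, 7, 8, 2, 10, 2, 12, 13, 14]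
    chd := [(0, 8), (2, 12), (2, 13)]
    steps := [(0, 1), (0, 6), (2, 3), (2, 4), (2, 5), (2, 9), (2, 11)] }
  rep := [2, 0, 10, 12, 7, 14, 8, 13]

noncomputable def v1121 : Cov.CovD where
  P := 3
  N := 5
  pl := [1, 4, 8]
  lev := [⟨[], [], [], [4], [(0, 1, [6])]⟩,
    ⟨[], [(0, 0), (0, 1), (0, 6)], [(0, 6)], [4], [(2, 6, [1]), (3, 0, [3, 7])]⟩,
    ⟨[(0, 1)], [(0, 0), (0, 1), (1, 0), (1, 1), (1, 6)], [(0, 0), (0, 1)], [2], [(0, 1,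
      [6]), (3, 0, [3, 7]), (5, 0, [3, 7])]⟩,
    ⟨[(0, 2), (1, 2)], [(2, 0), (2, 1), (2, 3), (2, 7)], [(3, 7)], [5], [(6, 3, [0]), (7,
      7, [0])]⟩,
    ⟨[(0, 2), (1, 2), (2, 3)], [(2, 0), (2, 1), (3, 0), (3, 3), (3, 7)], [], [5], [(5, 0,
      [3, 7])]⟩,
    ⟨[(0, 2), (1, 2), (2, 3), (2, 4), (3, 4)], [(2, 0), (2, 1), (2, 3), (3, 3), (3, 7)],
      [], [2], [(6, 3, [0])]⟩]
  Ta := [((3, 2), 0, 6), ((3, 4), 0, 2), ((5, 0), 0, 1), ((5, 8), 0, 5)]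
  Tb := [((0, 1, 5), 1, 4, 0), ((1, 0, 2), 4, 1, 6), ((2, 1, 3), 6, 4, 0), ((3, 2, 4), 0, 6, 2),
    ((4, 3, 6), 2, 0, 3), ((5, 0, 8), 0, 1, 5), ((6, 4, 7), 3, 2, 7), ((7, 6, 8), 7, 3, 5),
    ((8, 5, 7), 5, 0, 7)]
  Tc := [(0, 3, 7)]
  Td := [((0, 3), (3, 2), 6), ((0, 3), (3, 4), 2), ((0, 3), (5, 0), 1), ((0, 3), (5, 8), 5), ((0,
    7), (3, 2), 6), ((0, 7), (3, 4), 2), ((0, 7), (5, 0), 1), ((0, 7), (5, 8), 5), ((1, 6),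
    (0, 1), 4), ((1, 6), (0, 5), 0), ((3, 0), (6, 4), 2), ((3, 0), (6, 7), 7), ((6, 1), (2,
    1), 4), ((6, 1), (2, 3), 0), ((7, 0), (7, 6), 3), ((7, 0), (7, 8), 5)]
  G := [[0, 0, 0xac6148ca6184cc6182d, 0xcca148cc61844c8e182d, 0x1133658aa61812888218faa61825],
    [0, 0x11c141116181a, 0, 0x18181219cf4212141248cf81c,
    0x141221678112141438cf8116883115882d]]

noncomputable def n1121 : Ent := ⟨e1121, noF, [], [], []⟩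

def c1121 : PLift (Cov.check n1121.C.D v1121 = true) := ⟨by decide +kernel⟩

def b1121 : PLift (entF (fidx ts) 400 1121 n1121 = true) := ⟨by decide +kernel⟩

theorem g1121 : GoodF (fidx ts) 400 1121 := GoodF.ofV v1121 n1121 c1121.down b1121.down

/-- 459445:923 -/
noncomputable def e1122 : SCfg where
  D := {
    a := 6
    L := 10
    kp := 7
    inn := [(0, 1), (0, 2), (1, 0), (1, 2), (2, 0), (2, 1), (2, 3), (2, 4), (3, 2), (3, 5), (4, 2), (5,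
      3)]
    mix := [(0, 0), (0, 1), (1, 1), (1, 2), (1, 3), (2, 0), (2, 3), (2, 4), (2, 5), (2, 6), (3, 5), (3,
      6), (4, 3), (4, 4), (4, 7), (5, 5), (5, 6), (5, 8), (5, 9)]
    cl := [0, 2, 5, 0, 3, 1, 1, 4, 6, 7]
    chq := [(1, 4), (4, 1)]
    rng := [(0, 1), (0, 6), (1, 0), (1, 2), (2, 1), (2, 3), (3, 2), (3, 7), (4, 5), (4, 7), (5, 4), (5,
      8), (6, 0), (6, 9), (7, 3), (7, 4), (8, 5), (8, 9), (9, 6), (9, 8)]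
    lev := [] }
  links := [[1, 2, 6, 7], [2, 0, 7, 8, 9], [6, 0, 1, 9, 4, 10, 11, 3, 12], [12, 2, 11, 5], [10, 2, 9,
    13], [12, 3, 11, 14, 15]]
  P := {
    a := 6
    N := 16
    nb := [198, 901, 7771, 6180, 9732, 55304, 4229, 323, 642, 8470, 10260, 17452, 32876, 1552, 34848,
      20512]
    tri := [(0, 1, 2), (0, 1, 7), (0, 2, 6), (0, 6, 7), (1, 2, 9), (1, 7, 8), (1, 8, 9), (2, 3, 11),
      (2, 3, 12), (2, 4, 9), (2, 4, 10), (2, 6, 12), (2, 10, 11), (3, 5, 11), (3, 5, 12), (4, 9,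
      13), (4, 10, 13), (5, 11, 14), (5, 12, 15), (5, 14, 15)]
    fin := [0, 0, 2, 2, 2, 5, 0, 7, 8, 0, 10, 5, 5, 2, 14, 15]
    chd := [(5, 2)]
    steps := [(0, 1), (0, 6), (0, 9), (2, 3), (2, 4), (2, 13), (5, 11), (5, 12)] }
  rep := [0, 5, 7, 10, 2, 8, 14, 15]

noncomputable def v1122 : Cov.CovD where
  P := 3
  N := 5
  pl := [1, 2, 4, 8, 9]
  lev := [⟨[], [], [], [2], [(0, 0, [])]⟩,
    ⟨[], [(0, 0)], [], [2, 5], [(3, 0, [])]⟩,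
    ⟨[(0, 1)], [(0, 0), (0, 1), (1, 0), (1, 1)], [(0, 0), (0, 1), (1, 1)], [3], [(0, 0,
      []), (3, 0, []), (5, 1, [4]), (6, 1, [4])]⟩,
    ⟨[(0, 2), (1, 2)], [(2, 0), (2, 1)], [(1, 1)], [], [(5, 1, [4]), (6, 1, [4])]⟩,
    ⟨[(0, 2), (1, 2), (2, 3)], [(1, 0), (2, 0), (2, 1), (2, 4)], [(0, 4)], [3], [(3, 0,
      []), (7, 4, [1])]⟩,
    ⟨[(2, 3)], [(2, 1), (3, 1)], [(1, 1)], [6, 7], [(5, 1, [4]), (6, 1, [4])]⟩]
  Ta := [((0, 1), 0, 2), ((0, 6), 0, 1), ((3, 2), 0, 5), ((3, 7), 0, 4), ((5, 4), 1, 3), ((5, 8),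
    1, 6), ((6, 0), 1, 0), ((6, 9), 1, 7)]
  Tb := [((0, 1, 6), 0, 2, 1), ((1, 0, 2), 2, 0, 5), ((2, 1, 3), 5, 2, 0), ((3, 2, 7), 0, 5, 4),
    ((4, 5, 7), 3, 1, 4), ((5, 4, 8), 1, 3, 6), ((6, 0, 9), 1, 0, 7), ((7, 3, 4), 4, 0, 3),
    ((8, 5, 9), 6, 1, 7), ((9, 6, 8), 7, 1, 6)]
  Tc := []
  Td := [((1, 4), (5, 4), 3), ((1, 4), (5, 8), 6), ((1, 4), (6, 0), 0), ((1, 4), (6, 9), 7), ((4,
    1), (7, 3), 0), ((4, 1), (7, 4), 3)]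
  G := [[0, 0, 0xd21d11cd21d18c68, 0xddde1d21c14, 0xdd61dda8c18], [0, 0xeec8eea8618,
    0xd24d21cd218d284e2, 0xd24d21c14, 0xd24d28c12], [0, 0, 0, 0xd21ddde1cdd64dda1cc1,
    0xd21ddde1cdda1dd61ca2], [0, 0, 0, 0xd21d28cd21d28cc1, 0xd21d21c2d24d28c89]]

noncomputable def n1122 : Ent := ⟨e1122, noF, [], [], []⟩

def c1122 : PLift (Cov.check n1122.C.D v1122 = true) := ⟨by decide +kernel⟩

def b1122 : PLift (entF (fidx ts) 400 1122 n1122 = true) := ⟨by decide +kernel⟩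

theorem g1122 : GoodF (fidx ts) 400 1122 := GoodF.ofV v1122 n1122 c1122.down b1122.down

/-- 459445:924/1 -/
noncomputable def e1123 : SCfg where
  D := {
    a := 6
    L := 9
    kp := 6
    inn := [(0, 1), (0, 2), (1, 0), (1, 2), (2, 0), (2, 1), (2, 3), (2, 4), (3, 2), (4, 2), (4, 5), (5,
      4)]
    mix := [(0, 0), (0, 1), (1, 1), (1, 2), (1, 3), (2, 0), (2, 3), (2, 4), (2, 5), (2, 6), (3, 5), (3,
      6), (3, 7), (4, 3), (4, 4), (5, 2), (5, 3), (5, 4), (5, 8)]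
    cl := [0, 1, 3, 0, 0, 4, 2, 5, 6]
    chq := [(0, 5), (5, 0)]
    rng := [(0, 1), (0, 6), (1, 0), (1, 2), (2, 1), (2, 3), (2, 8), (3, 2), (4, 5), (4, 8), (5, 4), (5,
      7), (6, 0), (6, 7), (7, 5), (7, 6), (8, 2), (8, 4)]
    lev := [] }
  links := [[1, 2, 6, 7], [2, 0, 7, 8, 9], [6, 0, 1, 9, 4, 10, 11, 3, 12], [12, 2, 11, 13], [10, 2, 9,
    5], [10, 4, 9, 8, 14]]
  P := {
    a := 6
    N := 15
    nb := [198, 901, 7771, 14340, 1572, 18192, 4229, 323, 17058, 310, 18484, 9228, 8268, 6152, 1312]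
    tri := [(0, 1, 2), (0, 1, 7), (0, 2, 6), (0, 6, 7), (1, 2, 9), (1, 7, 8), (1, 8, 9), (2, 3, 11),
      (2, 3, 12), (2, 4, 9), (2, 4, 10), (2, 6, 12), (2, 10, 11), (3, 11, 13), (3, 12, 13), (4, 5,
      9), (4, 5, 10), (5, 8, 9), (5, 8, 14), (5, 10, 14)]
    fin := [0, 0, 0, 0, 0, 0, 0, 7, 8, 0, 0, 11, 12, 13, 14]
    chd := [(0, 13)]
    steps := [(0, 1), (0, 2), (0, 3), (0, 4), (0, 6), (0, 9), (0, 5), (0, 10)] }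
  rep := [0, 7, 12, 8, 11, 13, 14]

noncomputable def v1123 : Cov.CovD where
  P := 3
  N := 4
  pl := [1, 2, 5, 6, 8]
  lev := [⟨[], [], [], [1], [(0, 0, [5])]⟩,
    ⟨[], [(0, 0)], [], [1, 3], [(3, 0, [5])]⟩,
    ⟨[(0, 1)], [(0, 0), (1, 0)], [(0, 0)], [2, 4], [(0, 0, [5]), (3, 0, [5]), (4, 0, [5])]⟩,
    ⟨[(0, 2), (1, 2)], [(2, 0), (2, 5)], [], [2, 4], [(7, 5, [0])]⟩,
    ⟨[(0, 2), (1, 2), (2, 3)], [(1, 0), (2, 0)], [(0, 0)], [], [(3, 0, [5]), (4, 0, [5])]⟩,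
    ⟨[(2, 4)], [(1, 0), (2, 0), (4, 0)], [(0, 0)], [3, 6], [(3, 0, [5]), (4, 0, [5])]⟩]
  Ta := [((0, 1), 0, 1), ((0, 6), 0, 2), ((3, 2), 0, 3), ((4, 5), 0, 4), ((4, 8), 0, 6)]
  Tb := [((0, 1, 6), 0, 1, 2), ((1, 0, 2), 1, 0, 3), ((2, 1, 3), 3, 1, 0), ((2, 1, 8), 3, 1, 6),
    ((2, 3, 8), 3, 0, 6), ((4, 5, 8), 0, 4, 6), ((5, 4, 7), 4, 0, 5), ((6, 0, 7), 2, 0, 5),
    ((7, 5, 6), 5, 4, 2), ((8, 2, 4), 6, 3, 0)]
  Tc := []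
  Td := [((0, 5), (0, 1), 1), ((0, 5), (0, 6), 2), ((0, 5), (3, 2), 3), ((0, 5), (4, 5), 4), ((0,
    5), (4, 8), 6), ((5, 0), (7, 5), 4), ((5, 0), (7, 6), 2)]
  G := [[0, 0xa21a21c8641621c46, 0xe8e2ce8e8a618, 0xe41e81c18, 0xe41a461a18], [0, 0, 0,
    0xa21a81c621621cc1, 0xa41a41a681641ac1], [0, 0, 0, 0xe21e2e8e8dc18, 0xe21e4e4e8ba14]]

noncomputable def n1123 : Ent := ⟨e1123, noF, [], [], []⟩

def c1123 : PLift (Cov.check n1123.C.D v1123 = true) := ⟨by decide +kernel⟩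

def b1123 : PLift (entF (fidx ts) 400 1123 n1123 = true) := ⟨by decide +kernel⟩

theorem g1123 : GoodF (fidx ts) 400 1123 := GoodF.ofV v1123 n1123 c1123.down b1123.down

/-- 459445:924 -/
noncomputable def e1124 : SCfg where
  D := {
    a := 6
    L := 10
    kp := 7
    inn := [(0, 1), (0, 2), (1, 0), (1, 2), (2, 0), (2, 1), (2, 3), (2, 4), (3, 2), (4, 2), (4, 5), (5,
      4)]
    mix := [(0, 0), (0, 1), (1, 1), (1, 2), (1, 3), (2, 0), (2, 3), (2, 4), (2, 5), (2, 6), (3, 5), (3,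
      6), (3, 7), (4, 3), (4, 4), (5, 3), (5, 4), (5, 8), (5, 9)]
    cl := [0, 1, 5, 0, 0, 3, 2, 4, 6, 7]
    chq := [(0, 4), (4, 0)]
    rng := [(0, 1), (0, 6), (1, 0), (1, 2), (2, 1), (2, 3), (3, 2), (3, 8), (4, 5), (4, 9), (5, 4), (5,
      7), (6, 0), (6, 7), (7, 5), (7, 6), (8, 3), (8, 9), (9, 4), (9, 8)]
    lev := [] }
  links := [[1, 2, 6, 7], [2, 0, 7, 8, 9], [6, 0, 1, 9, 4, 10, 11, 3, 12], [12, 2, 11, 13], [10, 2, 9,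
    5], [10, 4, 9, 14, 15]]
  P := {
    a := 6
    N := 16
    nb := [198, 901, 7771, 14340, 1572, 50704, 4229, 323, 642, 16694, 34868, 9228, 8268, 6152, 33312,
      17440]
    tri := [(0, 1, 2), (0, 1, 7), (0, 2, 6), (0, 6, 7), (1, 2, 9), (1, 7, 8), (1, 8, 9), (2, 3, 11),
      (2, 3, 12), (2, 4, 9), (2, 4, 10), (2, 6, 12), (2, 10, 11), (3, 11, 13), (3, 12, 13), (4, 5,
      9), (4, 5, 10), (5, 9, 14), (5, 10, 15), (5, 14, 15)]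
    fin := [0, 0, 0, 0, 0, 0, 0, 7, 8, 0, 0, 11, 12, 13, 14, 15]
    chd := [(0, 13)]
    steps := [(0, 1), (0, 2), (0, 3), (0, 4), (0, 5), (0, 6), (0, 9), (0, 10)] }
  rep := [0, 7, 12, 11, 13, 8, 14, 15]

noncomputable def v1124 : Cov.CovD where
  P := 3
  N := 5
  pl := [1, 2, 5, 6, 8, 9]
  lev := [⟨[], [], [], [1], [(0, 0, [4])]⟩,
    ⟨[], [(0, 0)], [], [1, 5], [(3, 0, [4])]⟩,
    ⟨[(0, 1)], [(0, 0), (1, 0)], [(0, 0)], [2, 3], [(0, 0, [4]), (3, 0, [4]), (4, 0, [4])]⟩,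
    ⟨[(0, 2), (1, 2)], [(2, 0), (2, 4)], [], [2, 3], [(7, 4, [0])]⟩,
    ⟨[(0, 2), (1, 2), (2, 3)], [(1, 0), (2, 0)], [(0, 0)], [], [(3, 0, [4]), (4, 0, [4])]⟩,
    ⟨[(2, 4)], [(1, 0), (2, 0), (4, 0)], [(0, 0)], [6, 7], [(3, 0, [4]), (4, 0, [4])]⟩]
  Ta := [((0, 1), 0, 1), ((0, 6), 0, 2), ((3, 2), 0, 5), ((3, 8), 0, 6), ((4, 5), 0, 3), ((4, 9),
    0, 7)]
  Tb := [((0, 1, 6), 0, 1, 2), ((1, 0, 2), 1, 0, 5), ((2, 1, 3), 5, 1, 0), ((3, 2, 8), 0, 5, 6),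
    ((4, 5, 9), 0, 3, 7), ((5, 4, 7), 3, 0, 4), ((6, 0, 7), 2, 0, 4), ((7, 5, 6), 4, 3, 2),
    ((8, 3, 9), 6, 0, 7), ((9, 4, 8), 7, 0, 6)]
  Tc := []
  Td := [((0, 4), (0, 1), 1), ((0, 4), (0, 6), 2), ((0, 4), (3, 2), 5), ((0, 4), (3, 8), 6), ((0,
    4), (4, 5), 3), ((0, 4), (4, 9), 7), ((4, 0), (7, 5), 3), ((4, 0), (7, 6), 2)]
  G := [[0, 0xe41e81ce21e81ca4, 0xe8441e48e82a1c, 0xe41e81c18, 0xe41e81a18], [0, 0, 0,
    0xe41e21ce41e21cc1, 0xe21e81ae21e41ac1], [0, 0, 0, 0xe41e2e2e2dc18, 0xe4e29e4e43a14]]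

noncomputable def n1124 : Ent := ⟨e1124, noF, [], [], [(8, 14, [385746751338780685620664494392815470296102193487288376377094145, 0])]⟩

def c1124 : PLift (Cov.check n1124.C.D v1124 = true) := ⟨by decide +kernel⟩

def b1124 : PLift (entF (fidx ts) 400 1124 n1124 = true) := ⟨by decide +kernel⟩

theorem g1124 : GoodF (fidx ts) 400 1124 := GoodF.ofV v1124 n1124 c1124.down b1124.down

/-- 459454:926/1 -/
noncomputable def e1125 : SCfg where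
  D := {
    a := 6
    L := 9
    kp := 6
    inn := [(0, 1), (0, 2), (1, 0), (1, 2), (2, 0), (2, 1), (2, 3), (2, 4), (3, 2), (4, 2), (4, 5), (5,
      4)]
    mix := [(0, 0), (0, 1), (1, 1), (1, 2), (1, 3), (2, 0), (2, 3), (2, 4), (2, 5), (2, 6), (3, 5), (3,
      6), (3, 7), (4, 3), (4, 4), (4, 8), (5, 2), (5, 3), (5, 8)]
    cl := [0, 1, 2, 0, 0, 3, 4, 6, 5]
    chq := [(0, 6), (6, 0)]
    rng := [(0, 1), (0, 6), (1, 0), (1, 2), (2, 1), (2, 3), (2, 8), (3, 2), (4, 5), (4, 8), (5, 4), (5,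
      7), (6, 0), (6, 7), (7, 5), (7, 6), (8, 2), (8, 4)]
    lev := [] }
  links := [[1, 2, 6, 7], [2, 0, 7, 8, 9], [6, 0, 1, 9, 4, 10, 11, 3, 12], [12, 2, 11, 13], [10, 2, 9, 5,
    14], [14, 4, 9, 8]]
  P := {
    a := 6
    N := 15
    nb := [198, 901, 7771, 14340, 17956, 17168, 4229, 323, 17058, 310, 18452, 9228, 8268, 6152, 1328]
    tri := [(0, 1, 2), (0, 1, 7), (0, 2, 6), (0, 6, 7), (1, 2, 9), (1, 7, 8), (1, 8, 9), (2, 3, 11),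
      (2, 3, 12), (2, 4, 9), (2, 4, 10), (2, 6, 12), (2, 10, 11), (3, 11, 13), (3, 12, 13), (4, 5,
      9), (4, 5, 14), (4, 10, 14), (5, 8, 9), (5, 8, 14)]
    fin := [0, 0, 0, 0, 0, 0, 0, 7, 8, 0, 0, 11, 12, 13, 14]
    chd := [(0, 13)]
    steps := [(0, 1), (0, 2), (0, 3), (0, 4), (0, 6), (0, 9), (0, 5), (0, 10)] }
  rep := [0, 7, 8, 11, 12, 14, 13]

noncomputable def v1125 : Cov.CovD where
  P := 3
  N := 4
  pl := [1, 2, 5, 6, 8]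
  lev := [⟨[], [], [], [1], [(0, 0, [6])]⟩,
    ⟨[], [(0, 0)], [], [1, 2], [(3, 0, [6])]⟩,
    ⟨[(0, 1)], [(0, 0), (1, 0)], [(0, 0)], [3, 4], [(0, 0, [6]), (3, 0, [6]), (4, 0, [6])]⟩,
    ⟨[(0, 2), (1, 2)], [(2, 0), (2, 6)], [], [3, 4], [(7, 6, [0])]⟩,
    ⟨[(0, 2), (1, 2), (2, 3)], [(1, 0), (2, 0)], [(0, 0)], [5], [(3, 0, [6]), (4, 0, [6])]⟩,
    ⟨[(2, 4)], [(1, 0), (2, 0), (4, 0)], [], [2, 5], [(3, 0, [6])]⟩]
  Ta := [((0, 1), 0, 1), ((0, 6), 0, 4), ((3, 2), 0, 2), ((4, 5), 0, 3), ((4, 8), 0, 5)]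
  Tb := [((0, 1, 6), 0, 1, 4), ((1, 0, 2), 1, 0, 2), ((2, 1, 3), 2, 1, 0), ((2, 1, 8), 2, 1, 5),
    ((2, 3, 8), 2, 0, 5), ((4, 5, 8), 0, 3, 5), ((5, 4, 7), 3, 0, 6), ((6, 0, 7), 4, 0, 6),
    ((7, 5, 6), 6, 3, 4), ((8, 2, 4), 5, 2, 0)]
  Tc := []
  Td := [((0, 6), (0, 1), 1), ((0, 6), (0, 6), 4), ((0, 6), (3, 2), 2), ((0, 6), (4, 5), 3), ((0,
    6), (4, 8), 5), ((6, 0), (7, 5), 3), ((6, 0), (7, 6), 4)]
  G := [[0, 0x116141a184c1e84, 0, 0x12125481212981c123a4c, 0x82a82c581c12c36826189826881c], [0,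
    0, 0x426142a124c1e48, 0xc21c214861e81, 0x826182a182c1e81], [0, 0, 0,
    0x12441292952114c523ec1, 0x82a82a581c82c368826826981c]]

noncomputable def n1125 : Ent := ⟨e1125, noF, [], [], []⟩

def c1125 : PLift (Cov.check n1125.C.D v1125 = true) := ⟨by decide +kernel⟩

def b1125 : PLift (entF (fidx ts) 400 1125 n1125 = true) := ⟨by decide +kernel⟩

theorem g1125 : GoodF (fidx ts) 400 1125 := GoodF.ofV v1125 n1125 c1125.down b1125.down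

/-- 459454:926 -/
noncomputable def e1126 : SCfg where
  D := {
    a := 6
    L := 10
    kp := 7
    inn := [(0, 1), (0, 2), (1, 0), (1, 2), (2, 0), (2, 1), (2, 3), (2, 4), (3, 2), (4, 2), (4, 5), (5,
      4)]
    mix := [(0, 0), (0, 1), (1, 1), (1, 2), (1, 3), (2, 0), (2, 3), (2, 4), (2, 5), (2, 6), (3, 5), (3,
      6), (3, 7), (4, 3), (4, 4), (4, 8), (5, 3), (5, 8), (5, 9)]
    cl := [0, 3, 6, 0, 0, 1, 2, 5, 4, 7]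
    chq := [(0, 5), (5, 0)]
    rng := [(0, 1), (0, 6), (1, 0), (1, 2), (2, 1), (2, 3), (3, 2), (3, 9), (4, 5), (4, 8), (5, 4), (5,
      7), (6, 0), (6, 7), (7, 5), (7, 6), (8, 4), (8, 9), (9, 3), (9, 8)]
    lev := [] }
  links := [[1, 2, 6, 7], [2, 0, 7, 8, 9], [6, 0, 1, 9, 4, 10, 11, 3, 12], [12, 2, 11, 13], [10, 2, 9, 5,
    14], [14, 4, 9, 15]]
  P := {
    a := 6
    N := 16
    nb := [198, 901, 7771, 14340, 17956, 49680, 4229, 323, 642, 33078, 18452, 9228, 8268, 6152, 33840,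
      16928]
    tri := [(0, 1, 2), (0, 1, 7), (0, 2, 6), (0, 6, 7), (1, 2, 9), (1, 7, 8), (1, 8, 9), (2, 3, 11),
      (2, 3, 12), (2, 4, 9), (2, 4, 10), (2, 6, 12), (2, 10, 11), (3, 11, 13), (3, 12, 13), (4, 5,
      9), (4, 5, 14), (4, 10, 14), (5, 9, 15), (5, 14, 15)]
    fin := [0, 0, 0, 0, 0, 0, 0, 7, 8, 0, 0, 11, 12, 13, 14, 15]
    chd := [(0, 13)]
    steps := [(0, 1), (0, 2), (0, 3), (0, 4), (0, 5), (0, 6), (0, 9), (0, 10)] }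
  rep := [0, 11, 12, 7, 14, 13, 8, 15]

noncomputable def v1126 : Cov.CovD where
  P := 3
  N := 5
  pl := [1, 2, 5, 6, 8, 9]
  lev := [⟨[], [], [], [3], [(0, 0, [5])]⟩,
    ⟨[], [(0, 0)], [], [3, 6], [(3, 0, [5])]⟩,
    ⟨[(0, 1)], [(0, 0), (1, 0)], [(0, 0)], [1, 2], [(0, 0, [5]), (3, 0, [5]), (4, 0, [5])]⟩,
    ⟨[(0, 2), (1, 2)], [(2, 0), (2, 5)], [], [1, 2], [(7, 5, [0])]⟩,
    ⟨[(0, 2), (1, 2), (2, 3)], [(1, 0), (2, 0)], [(0, 0)], [4], [(3, 0, [5]), (4, 0, [5])]⟩,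
    ⟨[(2, 4)], [(1, 0), (2, 0), (4, 0)], [], [4, 7], [(3, 0, [5])]⟩]
  Ta := [((0, 1), 0, 3), ((0, 6), 0, 2), ((3, 2), 0, 6), ((3, 9), 0, 7), ((4, 5), 0, 1), ((4, 8),
    0, 4)]
  Tb := [((0, 1, 6), 0, 3, 2), ((1, 0, 2), 3, 0, 6), ((2, 1, 3), 6, 3, 0), ((3, 2, 9), 0, 6, 7),
    ((4, 5, 8), 0, 1, 4), ((5, 4, 7), 1, 0, 5), ((6, 0, 7), 2, 0, 5), ((7, 5, 6), 5, 1, 2),
    ((8, 4, 9), 4, 0, 7), ((9, 3, 8), 7, 0, 4)]
  Tc := []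
  Td := [((0, 5), (0, 1), 3), ((0, 5), (0, 6), 2), ((0, 5), (3, 2), 6), ((0, 5), (3, 9), 7), ((0,
    5), (4, 5), 1), ((0, 5), (4, 8), 4), ((5, 0), (7, 5), 1), ((5, 0), (7, 6), 2)]
  G := [[0, 0, 0xca6ca6c81c6ac6ac416, 0x11a14811c18411a182e, 0xca61811161811618a6], [0, 0, 0,
    0xc6a14ca618ca618e1, 0xca618ca618ca618e1], [0, 0xc6ac6ac41ca6ca6c81c, 0, 0xc6a141ca61816,
    0xca6181ca6181a]]

noncomputable def n1126 : Ent := ⟨e1126, noF, [], [], [(8, 15, [360035742630636841211993100915356868655746945586763691012280321, 0])]⟩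

def c1126 : PLift (Cov.check n1126.C.D v1126 = true) := ⟨by decide +kernel⟩

def b1126 : PLift (entF (fidx ts) 400 1126 n1126 = true) := ⟨by decide +kernel⟩

theorem g1126 : GoodF (fidx ts) 400 1126 := GoodF.ofV v1126 n1126 c1126.down b1126.down

/-- The entries 978 to 1126. -/
theorem rE6 : Rng (GoodF (fidx ts) 400) 978 1127 :=
  ((((((((((((((((((((((((((((((((((((((((((((((((((((((((((((((((((((((((((((((((((((((((((((((((((((((((((((((((((((((((((((((((((((((((((((((((((((((Rng.nil _ 978).snoc g978 rfl).snoc g979 rfl).snoc g980 rfl).snoc g981 rfl).snoc g982 rfl).snoc g983 rfl).snoc g984 rfl).snoc g985 rfl).snoc g986 rfl).snoc g987 rfl).snoc g988 rfl).snoc g989 rfl).snoc g990 rfl).snoc g991 rfl).snoc g992 rfl).snoc g993 rfl).snoc g994 rfl).snoc g995 rfl).snoc g996 rfl).snoc g997 rfl).snoc g998 rfl).snoc g999 rfl).snoc g1000 rfl).snoc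 g1001 rfl).snoc g1002 rfl).snoc g1003 rfl).snoc g1004 rfl).snoc g1005 rfl).snoc g1006 rfl).snoc g1007 rfl).snoc g1008 rfl).snoc g1009 rfl).snoc g1010 rfl).snoc g1011 rfl).snoc g1012 rfl).snoc g1013 rfl).snoc g1014 rfl).snoc g1015 rfl).snoc g1016 rfl).snoc g1017 rfl).snoc g1018 rfl).snoc g1019 rfl).snoc g1020 rfl).snoc g1021 rfl).snoc g1022 rfl).snoc g1023 rfl).snoc g1024 rfl).snoc g1025 rfl).snoc g1026 rfl).snoc g1027 rfl).snoc g1028 rfl).snoc g1029 rfl).snoc g1030 rfl).snoc g1031 rfl).snoc g1032 rfl).snoc g1033 rfl).snoc g1034 rfl).snoc g1035 rfl).snoc g1036 rfl).snoc g1037 rfl).snoc g1038 rfl).snoc g1039 rfl).snoc g1040 rfl).snoc g1041 rfl).snoc g1042 rfl).snoc g1043 rfl).snoc g1044 rfl).snoc g1045 rfl).snoc g1046 rfl).snoc g1047 rfl).snoc g1048 rfl).snoc g1049 rfl).snoc g1050 rfl).snoc g1051 rfl).snoc g1052 rfl).snoc g1053 rfl).snoc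 g1054 rfl).snoc g1055 rfl).snoc g1056 rfl).snoc g1057 rfl).snoc g1058 rfl).snoc g1059 rfl).snoc g1060 rfl).snoc g1061 rfl).snoc g1062 rfl).snoc g1063 rfl).snoc g1064 rfl).snoc g1065 rfl).snoc g1066 rfl).snoc g1067 rfl).snoc g1068 rfl).snoc g1069 rfl).snoc g1070 rfl).snoc g1071 rfl).snoc g1072 rfl).snoc g1073 rfl).snoc g1074 rfl).snoc g1075 rfl).snoc g1076 rfl).snoc g1077 rfl).snoc g1078 rfl).snoc g1079 rfl).snoc g1080 rfl).snoc g1081 rfl).snoc g1082 rfl).snoc g1083 rfl).snoc g1084 rfl).snoc g1085 rfl).snoc g1086 rfl).snoc g1087 rfl).snoc g1088 rfl).snoc g1089 rfl).snoc g1090 rfl).snoc g1091 rfl).snoc g1092 rfl).snoc g1093 rfl).snoc g1094 rfl).snoc g1095 rfl).snoc g1096 rfl).snoc g1097 rfl).snoc g1098 rfl).snoc g1099 rfl).snoc g1100 rfl).snoc g1101 rfl).snoc g1102 rfl).snoc g1103 rfl).snoc g1104 rfl).snoc g1105 rfl).snoc g1106 rfl).snoc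 g1107 rfl).snoc g1108 rfl).snoc g1109 rfl).snoc g1110 rfl).snoc g1111 rfl).snoc g1112 rfl).snoc g1113 rfl).snoc g1114 rfl).snoc g1115 rfl).snoc g1116 rfl).snoc g1117 rfl).snoc g1118 rfl).snoc g1119 rfl).snoc g1120 rfl).snoc g1121 rfl).snoc g1122 rfl).snoc g1123 rfl).snoc g1124 rfl).snoc g1125 rfl).snoc g1126 rfl)

end Pool.Agent.W986.ST.Dat
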