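import Pool.Agent.W986.Dat.Tab
import Pool.Agent.W986.SubAltB

/-!
# Entries 1127 to 1274 of the table
-/

set_option autoImplicit false

namespace Pool.Agent.W986.ST.Dat

/-- 459454:927/1 -/
noncomputable def e1127 : SCfg where
  D := {
    a := 6
    L := 9
    kp := 6
    inn := [(0, 1), (0, 2), (1, 0), (1, 2), (2, 0), (2, 1), (2, 3), (2, 4), (3, 2), (4, 2), (4, 5), (5,
      4)]
    mix := [(0, 0), (0, 1), (1, 1), (1, 2), (1, 3), (2, 0), (2, 3), (2, 4), (2, 5), (2, 6), (3, 5), (3,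
      6), (3, 7), (4, 2), (4, 3), (4, 4), (5, 2), (5, 4), (5, 8)]
    cl := [0, 1, 3, 0, 0, 2, 4, 5, 6]
    chq := [(0, 5), (5, 0)]
    rng := [(0, 1), (0, 6), (1, 0), (1, 2), (2, 1), (2, 3), (2, 8), (3, 2), (4, 5), (4, 8), (5, 4), (5,
      7), (6, 0), (6, 7), (7, 5), (7, 6), (8, 2), (8, 4)]
    lev := [] }
  links := [[1, 2, 6, 7], [2, 0, 7, 8, 9], [6, 0, 1, 9, 4, 10, 11, 3, 12], [12, 2, 11, 13], [10, 2, 9, 8,
    5], [10, 4, 8, 14]]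
  P := {
    a := 6
    N := 15
    nb := [198, 901, 7771, 14340, 1828, 17680, 4229, 323, 17074, 278, 18484, 9228, 8268, 6152, 1312]
    tri := [(0, 1, 2), (0, 1, 7), (0, 2, 6), (0, 6, 7), (1, 2, 9), (1, 7, 8), (1, 8, 9), (2, 3, 11),
      (2, 3, 12), (2, 4, 9), (2, 4, 10), (2, 6, 12), (2, 10, 11), (3, 11, 13), (3, 12, 13), (4, 5,
      8), (4, 5, 10), (4, 8, 9), (5, 8, 14), (5, 10, 14)]
    fin := [0, 0, 0, 0, 0, 0, 0, 7, 8, 0, 0, 11, 12, 13, 14]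
    chd := [(0, 13)]
    steps := [(0, 1), (0, 2), (0, 3), (0, 6), (0, 9), (0, 4), (0, 5), (0, 10)] }
  rep := [0, 7, 11, 8, 12, 13, 14]

noncomputable def v1127 : Cov.CovD where
  P := 3
  N := 4
  pl := [1, 2, 5, 6, 8]
  lev := [⟨[], [], [], [1], [(0, 0, [5])]⟩,
    ⟨[], [(0, 0)], [], [1, 3], [(3, 0, [5])]⟩,
    ⟨[(0, 1)], [(0, 0), (1, 0)], [(0, 0)], [2, 4], [(0, 0, [5]), (3, 0, [5]), (4, 0, [5])]⟩,
    ⟨[(0, 2), (1, 2)], [(2, 0), (2, 5)], [], [2, 4], [(7, 5, [0])]⟩,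
    ⟨[(0, 2), (1, 2), (2, 3)], [(1, 0), (2, 0)], [(0, 0)], [3], [(3, 0, [5]), (4, 0, [5])]⟩,
    ⟨[(2, 4)], [(2, 0), (4, 0)], [], [3, 6], [(4, 0, [5])]⟩]
  Ta := [((0, 1), 0, 1), ((0, 6), 0, 4), ((3, 2), 0, 3), ((4, 5), 0, 2), ((4, 8), 0, 6)]
  Tb := [((0, 1, 6), 0, 1, 4), ((1, 0, 2), 1, 0, 3), ((2, 1, 3), 3, 1, 0), ((2, 1, 8), 3, 1, 6),
    ((2, 3, 8), 3, 0, 6), ((4, 5, 8), 0, 2, 6), ((5, 4, 7), 2, 0, 5), ((6, 0, 7), 4, 0, 5),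
    ((7, 5, 6), 5, 2, 4), ((8, 2, 4), 6, 3, 0)]
  Tc := []
  Td := [((0, 5), (0, 1), 1), ((0, 5), (0, 6), 4), ((0, 5), (3, 2), 3), ((0, 5), (4, 5), 2), ((0,
    5), (4, 8), 6), ((5, 0), (7, 5), 2), ((5, 0), (7, 6), 4)]
  G := [[0, 0x141181c181121c62, 0, 0x11611a11cd11a1c14, 0x116116911c11a3a14], [0, 0, 0,
    0xa21b81c141121cc1, 0xa21a81a141141ac1], [0, 0, 0xc6a4a6c261ca6881c, 0xca61c6a1c14,
    0xca61a6c1a18]]

noncomputable def n1127 : Ent := ⟨e1127, noF, [], [], []⟩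

def c1127 : PLift (Cov.check n1127.C.D v1127 = true) := ⟨by decide +kernel⟩

def b1127 : PLift (entF (fidx ts) 400 1127 n1127 = true) := ⟨by decide +kernel⟩

theorem g1127 : GoodF (fidx ts) 400 1127 := GoodF.ofV v1127 n1127 c1127.down b1127.down

/-- 459454:927 -/
noncomputable def e1128 : SCfg where
  D := {
    a := 6
    L := 10
    kp := 7
    inn := [(0, 1), (0, 2), (1, 0), (1, 2), (2, 0), (2, 1), (2, 3), (2, 4), (3, 2), (4, 2), (4, 5), (5,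
      4)]
    mix := [(0, 0), (0, 1), (1, 1), (1, 2), (1, 3), (2, 0), (2, 3), (2, 4), (2, 5), (2, 6), (3, 5), (3,
      6), (3, 7), (4, 3), (4, 4), (4, 8), (5, 4), (5, 8), (5, 9)]
    cl := [0, 1, 6, 0, 0, 3, 2, 5, 4, 7]
    chq := [(0, 5), (5, 0)]
    rng := [(0, 1), (0, 6), (1, 0), (1, 2), (2, 1), (2, 3), (3, 2), (3, 8), (4, 5), (4, 9), (5, 4), (5,
      7), (6, 0), (6, 7), (7, 5), (7, 6), (8, 3), (8, 9), (9, 4), (9, 8)]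
    lev := [] }
  links := [[1, 2, 6, 7], [2, 0, 7, 8, 9], [6, 0, 1, 9, 4, 10, 11, 3, 12], [12, 2, 11, 13], [10, 2, 9,
    14, 5], [10, 4, 14, 15]]
  P := {
    a := 6
    N := 16
    nb := [198, 901, 7771, 14340, 17956, 50192, 4229, 323, 642, 16662, 34868, 9228, 8268, 6152, 33328,
      17440]
    tri := [(0, 1, 2), (0, 1, 7), (0, 2, 6), (0, 6, 7), (1, 2, 9), (1, 7, 8), (1, 8, 9), (2, 3, 11),
      (2, 3, 12), (2, 4, 9), (2, 4, 10), (2, 6, 12), (2, 10, 11), (3, 11, 13), (3, 12, 13), (4, 5,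
      10), (4, 5, 14), (4, 9, 14), (5, 10, 15), (5, 14, 15)]
    fin := [0, 0, 0, 0, 0, 0, 0, 7, 8, 0, 0, 11, 12, 13, 14, 15]
    chd := [(0, 13)]
    steps := [(0, 1), (0, 2), (0, 3), (0, 4), (0, 5), (0, 6), (0, 9), (0, 10)] }
  rep := [0, 7, 12, 11, 14, 13, 8, 15]

noncomputable def v1128 : Cov.CovD where
  P := 3
  N := 5
  pl := [1, 2, 5, 6, 8, 9]
  lev := [⟨[], [], [], [1], [(0, 0, [5])]⟩,
    ⟨[], [(0, 0)], [], [1, 6], [(3, 0, [5])]⟩,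
    ⟨[(0, 1)], [(0, 0), (1, 0)], [(0, 0)], [2, 3], [(0, 0, [5]), (3, 0, [5]), (4, 0, [5])]⟩,
    ⟨[(0, 2), (1, 2)], [(2, 0), (2, 5)], [], [2, 3], [(7, 5, [0])]⟩,
    ⟨[(0, 2), (1, 2), (2, 3)], [(1, 0), (2, 0)], [(0, 0)], [4], [(3, 0, [5]), (4, 0, [5])]⟩,
    ⟨[(2, 4)], [(2, 0), (4, 0)], [], [4, 7], [(4, 0, [5])]⟩]
  Ta := [((0, 1), 0, 1), ((0, 6), 0, 2), ((3, 2), 0, 6), ((3, 8), 0, 4), ((4, 5), 0, 3), ((4, 9),
    0, 7)]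
  Tb := [((0, 1, 6), 0, 1, 2), ((1, 0, 2), 1, 0, 6), ((2, 1, 3), 6, 1, 0), ((3, 2, 8), 0, 6, 4),
    ((4, 5, 9), 0, 3, 7), ((5, 4, 7), 3, 0, 5), ((6, 0, 7), 2, 0, 5), ((7, 5, 6), 5, 3, 2),
    ((8, 3, 9), 4, 0, 7), ((9, 4, 8), 7, 0, 4)]
  Tc := []
  Td := [((0, 5), (0, 1), 1), ((0, 5), (0, 6), 2), ((0, 5), (3, 2), 6), ((0, 5), (3, 8), 4), ((0,
    5), (4, 5), 3), ((0, 5), (4, 9), 7), ((5, 0), (7, 5), 3), ((5, 0), (7, 6), 2)]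
  G := [[0, 0x11611161c116111a1cc2, 0x11a411c261116881c, 0x11a111a1c14, 0x116111c1a14], [0, 0,
    0, 0x1a619361c53c1c1a1cc1, 0xc161a1c1a16a19561ac4], [0, 0, 0, 0xca6ca6ca6dc6a1c14,
    0xca6ca69a6ca6c3a14]]

noncomputable def n1128 : Ent := ⟨e1128, noF, [], [], [(8, 14, [385746751338780685620664494392815470296102193487288376377110529, 0])]⟩

def c1128 : PLift (Cov.check n1128.C.D v1128 = true) := ⟨by decide +kernel⟩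

def b1128 : PLift (entF (fidx ts) 400 1128 n1128 = true) := ⟨by decide +kernel⟩

theorem g1128 : GoodF (fidx ts) 400 1128 := GoodF.ofV v1128 n1128 c1128.down b1128.down

/-- 486464:928/1 -/
noncomputable def e1129 : SCfg where
  D := {
    a := 6
    L := 9
    kp := 6
    inn := [(0, 1), (1, 0), (1, 2), (1, 3), (1, 4), (2, 1), (2, 3), (2, 4), (3, 1), (3, 2), (4, 1), (4,
      2), (4, 5), (5, 4)]
    mix := [(0, 0), (0, 1), (0, 2), (1, 0), (1, 2), (1, 3), (1, 4), (2, 5), (2, 6), (2, 7), (3, 2), (3,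
      5), (4, 3), (4, 7), (4, 8), (5, 1), (5, 7), (5, 8)]
    cl := [1, 2, 0, 3, 0, 4, 6, 3, 5]
    chq := [(0, 6), (6, 0)]
    rng := [(0, 1), (0, 4), (1, 0), (1, 2), (1, 7), (1, 8), (2, 1), (2, 5), (3, 4), (3, 8), (4, 0), (4,
      3), (5, 2), (5, 6), (6, 5), (6, 7), (7, 1), (7, 6), (8, 1), (8, 3)]
    lev := [] }
  links := [[1, 6, 7, 8], [6, 0, 8, 3, 2, 4, 9, 10], [4, 1, 3, 11, 12, 13], [11, 2, 1, 8], [9, 1, 2, 13,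
    5, 14], [14, 4, 13, 7]]
  P := {
    a := 6
    N := 15
    nb := [450, 1885, 14362, 2310, 25126, 24720, 1155, 24929, 2187, 17426, 578, 4364, 10244, 4276,
      688]
    tri := [(0, 1, 6), (0, 1, 8), (0, 6, 7), (0, 7, 8), (1, 2, 3), (1, 2, 4), (1, 3, 8), (1, 4, 9), (1,
      6, 10), (1, 9, 10), (2, 3, 11), (2, 4, 13), (2, 11, 12), (2, 12, 13), (3, 8, 11), (4, 5,
      13), (4, 5, 14), (4, 9, 14), (5, 7, 13), (5, 7, 14)]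
    fin := [0, 1, 1, 1, 4, 5, 0, 5, 1, 4, 1, 11, 12, 4, 14]
    chd := [(1, 12)]
    steps := [(0, 6), (1, 2), (1, 3), (1, 8), (1, 10), (4, 13), (4, 9), (5, 7)] }
  rep := [1, 0, 5, 4, 11, 14, 12]

noncomputable def v1129 : Cov.CovD where
  P := 3
  N := 4
  pl := [0, 1, 5, 8]
  lev := [⟨[], [], [], [1, 2], [(2, 0, [6])]⟩,
    ⟨[], [(0, 0), (0, 3)], [(0, 0), (0, 3)], [1], [(2, 0, [6]), (3, 3, []), (4, 0, [6])]⟩,
    ⟨[(0, 1)], [(1, 0), (1, 3), (1, 6)], [(3, 6)], [4], [(6, 6, [0]), (7, 3, [])]⟩,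
    ⟨[(0, 1), (1, 2)], [(0, 0), (1, 0), (1, 3), (2, 0), (2, 3), (2, 6)], [], [4], [(2, 0,
      [6])]⟩,
    ⟨[(0, 1), (1, 2), (1, 3), (2, 3)], [(1, 0), (1, 3), (2, 3), (2, 6)], [(3, 3)], [5],
      [(3, 3, []), (7, 3, [])]⟩,
    ⟨[(1, 4), (2, 4)], [(2, 3), (4, 3)], [], [2, 5], [(7, 3, [])]⟩]
  Ta := [((2, 1), 0, 2), ((2, 5), 0, 4), ((3, 4), 3, 0), ((3, 8), 3, 5), ((4, 0), 0, 1), ((4, 3),
    0, 3), ((7, 1), 3, 2), ((7, 6), 3, 6)]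
  Tb := [((0, 1, 4), 1, 2, 0), ((1, 0, 2), 2, 1, 0), ((1, 0, 7), 2, 1, 3), ((1, 0, 8), 2, 1, 5),
    ((1, 2, 7), 2, 0, 3), ((1, 2, 8), 2, 0, 5), ((1, 7, 8), 2, 3, 5), ((2, 1, 5), 0, 2, 4),
    ((3, 4, 8), 3, 0, 5), ((4, 0, 3), 0, 1, 3), ((5, 2, 6), 4, 0, 6), ((6, 5, 7), 6, 4, 3),
    ((7, 1, 6), 3, 2, 6), ((8, 1, 3), 5, 2, 3)]
  Tc := []
  Td := [((0, 6), (2, 1), 2), ((0, 6), (2, 5), 4), ((0, 6), (4, 0), 1), ((0, 6), (4, 3), 3), ((6,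
    0), (6, 5), 4), ((6, 0), (6, 7), 3)]
  G := [[0, 0, 0x61a1c1a161a1c4, 0x928c2254132c292a9c4, 0x2134819481c186ab48], [0, 0,
    0xe1e16184, 0x924522c134d2d26f84, 0x82178821b2221d2812e812eaf48], [0, 0x843483c128, 0,
    0xc292619252a1c8, 0x8a8e812ea148], [0, 0x841e841ec124, 0, 0xd2d2a141, 0x812e812ea148]]

noncomputable def n1129 : Ent := ⟨e1129, noF, [], [], []⟩

def c1129 : PLift (Cov.check n1129.C.D v1129 = true) := ⟨by decide +kernel⟩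

def b1129 : PLift (entF (fidx ts) 400 1129 n1129 = true) := ⟨by decide +kernel⟩

theorem g1129 : GoodF (fidx ts) 400 1129 := GoodF.ofV v1129 n1129 c1129.down b1129.down

/-- 486464:928 -/
noncomputable def e1130 : SCfg where
  D := {
    a := 6
    L := 10
    kp := 7
    inn := [(0, 1), (1, 0), (1, 2), (1, 3), (1, 4), (2, 1), (2, 3), (2, 4), (3, 1), (3, 2), (4, 1), (4,
      2), (4, 5), (5, 4)]
    mix := [(0, 0), (0, 1), (0, 2), (1, 0), (1, 2), (1, 3), (1, 4), (2, 5), (2, 6), (2, 7), (3, 2), (3,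
      5), (4, 3), (4, 7), (4, 8), (5, 7), (5, 8), (5, 9)]
    cl := [2, 6, 1, 0, 1, 3, 5, 0, 4, 7]
    chq := [(1, 5), (5, 1)]
    rng := [(0, 1), (0, 4), (1, 0), (1, 2), (2, 1), (2, 5), (3, 4), (3, 8), (4, 0), (4, 3), (5, 2), (5,
      6), (6, 5), (6, 7), (7, 6), (7, 9), (8, 3), (8, 9), (9, 7), (9, 8)]
    lev := [] }
  links := [[1, 6, 7, 8], [6, 0, 8, 3, 2, 4, 9, 10], [4, 1, 3, 11, 12, 13], [11, 2, 1, 8], [9, 1, 2, 13,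
    5, 14], [14, 4, 13, 15]]
  P := {
    a := 6
    N := 16
    nb := [450, 1885, 14362, 2310, 25126, 57360, 1155, 321, 2187, 17426, 578, 4364, 10244, 36916,
      33328, 24608]
    tri := [(0, 1, 6), (0, 1, 8), (0, 6, 7), (0, 7, 8), (1, 2, 3), (1, 2, 4), (1, 3, 8), (1, 4, 9), (1,
      6, 10), (1, 9, 10), (2, 3, 11), (2, 4, 13), (2, 11, 12), (2, 12, 13), (3, 8, 11), (4, 5,
      13), (4, 5, 14), (4, 9, 14), (5, 13, 15), (5, 14, 15)]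
    fin := [0, 1, 1, 1, 4, 4, 0, 7, 1, 4, 1, 11, 12, 4, 14, 15]
    chd := [(1, 12)]
    steps := [(0, 6), (1, 2), (1, 3), (1, 8), (1, 10), (4, 5), (4, 13), (4, 9)] }
  rep := [4, 1, 0, 11, 14, 12, 7, 15]

noncomputable def v1130 : Cov.CovD where
  P := 3
  N := 5
  pl := [0, 1, 5, 8, 9]
  lev := [⟨[], [], [], [2, 6], [(2, 1, [5])]⟩,
    ⟨[], [(0, 0), (0, 1)], [(0, 1), (1, 1)], [2], [(2, 1, [5]), (3, 0, []), (4, 1, [5])]⟩,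
    ⟨[(0, 1)], [(1, 0), (1, 1), (1, 5)], [(0, 5)], [3], [(6, 5, [1]), (7, 0, [])]⟩,
    ⟨[(0, 1), (1, 2)], [(0, 1), (1, 0), (1, 1), (2, 0), (2, 1), (2, 5)], [], [3], [(2, 1,
      [5])]⟩,
    ⟨[(0, 1), (1, 2), (1, 3), (2, 3)], [(1, 0), (1, 1), (2, 0), (2, 5)], [(0, 0)], [4],
      [(3, 0, []), (7, 0, [])]⟩,
    ⟨[(1, 4), (2, 4)], [(2, 0), (4, 0)], [], [4, 7], [(7, 0, [])]⟩]
  Ta := [((2, 1), 1, 6), ((2, 5), 1, 3), ((3, 4), 0, 1), ((3, 8), 0, 4), ((4, 0), 1, 2), ((4, 3),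
    1, 0), ((7, 6), 0, 5), ((7, 9), 0, 7)]
  Tb := [((0, 1, 4), 2, 6, 1), ((1, 0, 2), 6, 2, 1), ((2, 1, 5), 1, 6, 3), ((3, 4, 8), 0, 1, 4),
    ((4, 0, 3), 1, 2, 0), ((5, 2, 6), 3, 1, 5), ((6, 5, 7), 5, 3, 0), ((7, 6, 9), 0, 5, 7),
    ((8, 3, 9), 4, 0, 7), ((9, 7, 8), 7, 0, 4)]
  Tc := []
  Td := [((1, 5), (2, 1), 6), ((1, 5), (2, 5), 3), ((1, 5), (4, 0), 2), ((1, 5), (4, 3), 0), ((5,
    1), (6, 5), 3), ((5, 1), (6, 7), 0)]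
  G := [[0, 0, 0x21cc8cc862c3416c4ca6838c, 0, 0xb167165ca64381818528e168ca6438b], [0,
    0xc6ac6a6141, 0x71c16c5282, 0xc1a39a924747812d285, 0x1dc16c5282], [0, 0,
    0x64128e648cc6a8a81ecca64844eac2e8e1e8882cc, 0,
    0xca68c6a4a6ca6cce1ca68258e64882d2e8e1e89], [0, 0, 0x6444c2a8a2c52c2,
    0xa8424e8626c92826c2e8e528d, 0xa6ca6cc212]]

noncomputable def n1130 : Ent := ⟨e1130, noF, [], [], [(7, 15, [360035742630636841211993100915356868655746945586763691012296705, 0])]⟩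

def c1130 : PLift (Cov.check n1130.C.D v1130 = true) := ⟨by decide +kernel⟩

def b1130 : PLift (entF (fidx ts) 400 1130 n1130 = true) := ⟨by decide +kernel⟩

theorem g1130 : GoodF (fidx ts) 400 1130 := GoodF.ofV v1130 n1130 c1130.down b1130.down

/-- 486465:929/1 -/
noncomputable def e1131 : SCfg where
  D := {
    a := 6
    L := 10
    kp := 7
    inn := [(0, 1), (1, 0), (1, 2), (1, 3), (1, 4), (2, 1), (2, 3), (2, 4), (3, 1), (3, 2), (4, 1), (4,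
      2), (4, 5), (5, 4)]
    mix := [(0, 0), (0, 1), (0, 2), (1, 0), (1, 2), (1, 3), (1, 4), (2, 5), (2, 6), (2, 7), (3, 2), (3,
      5), (4, 3), (4, 7), (4, 8), (5, 1), (5, 7), (5, 8), (5, 9)]
    cl := [3, 2, 0, 0, 5, 4, 6, 1, 1, 7]
    chq := [(0, 6), (2, 5), (5, 2), (6, 0)]
    rng := [(0, 1), (0, 4), (1, 0), (1, 2), (1, 7), (1, 9), (2, 1), (2, 5), (3, 4), (3, 8), (4, 0), (4,
      3), (5, 2), (5, 6), (6, 5), (6, 7), (7, 1), (7, 6), (8, 3), (8, 9), (9, 1), (9, 8)]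
    lev := [] }
  links := [[1, 6, 7, 8], [6, 0, 8, 3, 2, 4, 9, 10], [4, 1, 3, 11, 12, 13], [11, 2, 1, 8], [9, 1, 2, 13,
    5, 14], [14, 4, 13, 7, 15]]
  P := {
    a := 6
    N := 16
    nb := [450, 1885, 14362, 2310, 25126, 57488, 1155, 41313, 2187, 17426, 578, 4364, 10244, 4276,
      33328, 16544]
    tri := [(0, 1, 6), (0, 1, 8), (0, 6, 7), (0, 7, 8), (1, 2, 3), (1, 2, 4), (1, 3, 8), (1, 4, 9), (1,
      6, 10), (1, 9, 10), (2, 3, 11), (2, 4, 13), (2, 11, 12), (2, 12, 13), (3, 8, 11), (4, 5,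
      13), (4, 5, 14), (4, 9, 14), (5, 7, 13), (5, 7, 15), (5, 14, 15)]
    fin := [0, 0, 2, 2, 2, 5, 6, 0, 2, 2, 10, 11, 12, 5, 5, 15]
    chd := [(0, 10), (2, 12)]
    steps := [(0, 1), (0, 7), (2, 3), (2, 4), (2, 8), (2, 9), (5, 13), (5, 14)] }
  rep := [2, 5, 0, 6, 11, 10, 12, 15]

noncomputable def v1131 : Cov.CovD where
  P := 3
  N := 5
  pl := [0, 5, 9]
  lev := [⟨[], [], [(0, 2)], [3], [(1, 2, [5]), (2, 0, [6])]⟩,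
    ⟨[], [(0, 0), (0, 2), (0, 5)], [(0, 0), (0, 5)], [3], [(2, 0, [6]), (3, 0, [6]), (4, 5,
      [2])]⟩,
    ⟨[(0, 1)], [(1, 0), (1, 1), (1, 5), (1, 6)], [(1, 6)], [4], [(6, 6, [0]), (7, 1, [])]⟩,
    ⟨[(0, 1), (1, 2)], [(0, 0), (1, 0), (1, 5), (2, 0), (2, 1), (2, 6)], [], [4], [(2, 0,
      [6])]⟩,
    ⟨[(0, 1), (1, 2), (1, 3), (2, 3)], [(1, 0), (1, 1), (1, 5), (2, 0), (2, 1), (2, 6)],
      [(0, 1), (1, 1)], [], [(3, 0, [6]), (7, 1, []), (8, 1, [])]⟩,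
    ⟨[(1, 4), (2, 4)], [(0, 2), (2, 1), (4, 0), (4, 1), (4, 2)], [(1, 1), (1, 2)], [7],
      [(1, 2, [5]), (7, 1, []), (8, 1, [])]⟩]
  Ta := [((2, 1), 0, 2), ((2, 5), 0, 4), ((3, 4), 0, 5), ((3, 8), 0, 1), ((7, 1), 1, 2), ((7, 6),
    1, 6), ((8, 3), 1, 0), ((8, 9), 1, 7)]
  Tb := [((0, 1, 4), 3, 2, 5), ((1, 0, 2), 2, 3, 0), ((1, 0, 7), 2, 3, 1), ((1, 0, 9), 2, 3, 7),
    ((1, 2, 7), 2, 0, 1), ((1, 2, 9), 2, 0, 7), ((1, 7, 9), 2, 1, 7), ((2, 1, 5), 0, 2, 4),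
    ((3, 4, 8), 0, 5, 1), ((4, 0, 3), 5, 3, 0), ((5, 2, 6), 4, 0, 6), ((6, 5, 7), 6, 4, 1),
    ((7, 1, 6), 1, 2, 6), ((8, 3, 9), 1, 0, 7), ((9, 1, 8), 7, 2, 1)]
  Tc := []
  Td := [((0, 6), (2, 1), 2), ((0, 6), (2, 5), 4), ((0, 6), (3, 4), 5), ((0, 6), (3, 8), 1), ((2,
    5), (1, 0), 3), ((2, 5), (1, 2), 0), ((2, 5), (1, 7), 1), ((2, 5), (1, 9), 7), ((5, 2),
    (4, 0), 3), ((5, 2), (4, 3), 0), ((6, 0), (6, 5), 4), ((6, 0), (6, 7), 1)]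
  G := [[0, 0, 0xc4c4618c8c8a14c8c4c12e, 0xc18988982d2c18c84942d2c,
    0x9429494651c589829898cdc94489489829898ad9489849894cdea], [0, 0,
    0xc4c4618c8c8a14c4c8c12e, 0, 0x944118989843c9482988984394818949898cdea], [0, 0, 0,
    0xc8c46125858a125, 0x94946189898c129898614b], [0, 0xc2c461c8c461ac8c2a1c4c4c16c, 0, 0,
    0x9494619898a1a9898a149]]

noncomputable def n1131 : Ent := ⟨e1131, noF, [], [], []⟩

def c1131 : PLift (Cov.check n1131.C.D v1131 = true) := ⟨by decide +kernel⟩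

def b1131 : PLift (entF (fidx ts) 400 1131 n1131 = true) := ⟨by decide +kernel⟩

theorem g1131 : GoodF (fidx ts) 400 1131 := GoodF.ofV v1131 n1131 c1131.down b1131.down

/-- 486465:929/3 -/
noncomputable def e1132 : SCfg where
  D := {
    a := 6
    L := 9
    kp := 6
    inn := [(0, 1), (1, 0), (1, 2), (1, 3), (1, 4), (2, 1), (2, 3), (2, 4), (3, 1), (3, 2), (4, 1), (4,
      2), (4, 5), (5, 4)]
    mix := [(0, 0), (0, 1), (0, 2), (1, 0), (1, 2), (1, 3), (1, 4), (2, 5), (2, 6), (2, 7), (3, 2), (3,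
      5), (4, 3), (4, 7), (4, 8), (5, 1), (5, 6), (5, 7), (5, 8)]
    cl := [4, 2, 0, 0, 6, 5, 3, 1, 1]
    chq := [(0, 3), (2, 6), (3, 0), (6, 2)]
    rng := [(0, 1), (0, 4), (1, 0), (1, 2), (1, 6), (1, 8), (2, 1), (2, 5), (3, 4), (3, 8), (4, 0), (4,
      3), (5, 2), (5, 6), (6, 1), (6, 5), (6, 7), (7, 6), (8, 1), (8, 3)]
    lev := [] }
  links := [[1, 6, 7, 8], [6, 0, 8, 3, 2, 4, 9, 10], [4, 1, 3, 11, 12, 13], [11, 2, 1, 8], [9, 1, 2, 13,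
    5, 14], [14, 4, 13, 12, 7]]
  P := {
    a := 6
    N := 15
    nb := [450, 1885, 14362, 2310, 25126, 28816, 1155, 20833, 2187, 17426, 578, 4364, 10404, 4148,
      688]
    tri := [(0, 1, 6), (0, 1, 8), (0, 6, 7), (0, 7, 8), (1, 2, 3), (1, 2, 4), (1, 3, 8), (1, 4, 9), (1,
      6, 10), (1, 9, 10), (2, 3, 11), (2, 4, 13), (2, 11, 12), (2, 12, 13), (3, 8, 11), (4, 5,
      13), (4, 5, 14), (4, 9, 14), (5, 7, 12), (5, 7, 14), (5, 12, 13)]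
    fin := [0, 0, 2, 2, 2, 5, 6, 0, 2, 2, 10, 11, 12, 5, 5]
    chd := [(0, 10), (2, 12)]
    steps := [(0, 1), (0, 7), (2, 3), (2, 4), (2, 8), (2, 9), (5, 13), (5, 14)] }
  rep := [2, 5, 0, 12, 6, 11, 10]

noncomputable def v1132 : Cov.CovD where
  P := 3
  N := 4
  pl := [0, 5]
  lev := [⟨[], [], [(0, 2)], [4], [(1, 2, [6]), (2, 0, [3])]⟩,
    ⟨[], [(0, 0), (0, 2), (0, 6)], [(0, 0), (0, 6)], [4], [(2, 0, [3]), (3, 0, [3]), (4, 6,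
      [2])]⟩,
    ⟨[(0, 1)], [(1, 0), (1, 1), (1, 3), (1, 6)], [(1, 3)], [5], [(6, 3, [0]), (7, 1, [])]⟩,
    ⟨[(0, 1), (1, 2)], [(0, 0), (1, 0), (1, 6), (2, 0), (2, 1), (2, 3)], [], [5], [(2, 0,
      [3])]⟩,
    ⟨[(0, 1), (1, 2), (1, 3), (2, 3)], [(1, 0), (1, 1), (1, 6), (2, 0), (2, 1), (2, 3)],
      [(0, 1), (1, 1)], [], [(3, 0, [3]), (7, 1, []), (8, 1, [])]⟩,
    ⟨[(1, 4), (2, 4)], [(0, 2), (2, 1), (2, 3), (4, 0), (4, 1), (4, 2), (4, 3)], [(1, 1),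
      (1, 2), (1, 3), (2, 3)], [], [(1, 2, [6]), (6, 3, [0]), (7, 1, []), (8, 1, [])]⟩]
  Ta := [((2, 1), 0, 2), ((2, 5), 0, 5), ((3, 4), 0, 6), ((3, 8), 0, 1), ((7, 6), 1, 3), ((8, 1),
    1, 2), ((8, 3), 1, 0)]
  Tb := [((0, 1, 4), 4, 2, 6), ((1, 0, 2), 2, 4, 0), ((1, 0, 6), 2, 4, 3), ((1, 0, 8), 2, 4, 1),
    ((1, 2, 6), 2, 0, 3), ((1, 2, 8), 2, 0, 1), ((1, 6, 8), 2, 3, 1), ((2, 1, 5), 0, 2, 5),
    ((3, 4, 8), 0, 6, 1), ((4, 0, 3), 6, 4, 0), ((5, 2, 6), 5, 0, 3), ((6, 1, 5), 3, 2, 5),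
    ((6, 1, 7), 3, 2, 1), ((6, 5, 7), 3, 5, 1), ((8, 1, 3), 1, 2, 0)]
  Tc := []
  Td := [((0, 3), (2, 1), 2), ((0, 3), (2, 5), 5), ((0, 3), (3, 4), 6), ((0, 3), (3, 8), 1), ((2,
    6), (1, 0), 4), ((2, 6), (1, 2), 0), ((2, 6), (1, 6), 3), ((2, 6), (1, 8), 1), ((3, 0),
    (6, 1), 2), ((3, 0), (6, 5), 5), ((3, 0), (6, 7), 1), ((6, 2), (4, 0), 4), ((6, 2), (4,
    3), 0)]
  G := [[0, 0, 0xc4c4618c8c8a14c8c4c12e, 0, 0x14248121889898ad9821e9481818188982d1844ea], [0, 0,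
    0xc4c4618c8c8a14c4c8c12e, 0x148414142d2818484142d2c,
    0x14421884898c3c948118898431849885ea], [0, 0, 0, 0, 0x1418494659898a1a9898a149], [0,
    0xc2c261882142c8a94c4c4c12d, 0, 0x5498c1258546129, 0x14114161812c98411819485698814b]]

noncomputable def n1132 : Ent := ⟨e1132, noF, [], [], []⟩

def c1132 : PLift (Cov.check n1132.C.D v1132 = true) := ⟨by decide +kernel⟩

def b1132 : PLift (entF (fidx ts) 400 1132 n1132 = true) := ⟨by decide +kernel⟩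

theorem g1132 : GoodF (fidx ts) 400 1132 := GoodF.ofV v1132 n1132 c1132.down b1132.down

/-- 486465:929/2 -/
noncomputable def e1133 : SCfg where
  D := {
    a := 6
    L := 10
    kp := 7
    inn := [(0, 1), (1, 0), (1, 2), (1, 3), (1, 4), (2, 1), (2, 3), (2, 4), (3, 1), (3, 2), (4, 1), (4,
      2), (4, 5), (5, 4)]
    mix := [(0, 0), (0, 1), (0, 2), (1, 0), (1, 2), (1, 3), (1, 4), (2, 5), (2, 6), (2, 7), (3, 2), (3,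
      5), (4, 3), (4, 7), (4, 8), (5, 1), (5, 7), (5, 8), (5, 9)]
    cl := [3, 2, 0, 0, 5, 4, 6, 1, 1, 7]
    chq := [(0, 6), (2, 5), (5, 2), (6, 0)]
    rng := [(0, 1), (0, 4), (1, 0), (1, 2), (1, 8), (1, 9), (2, 1), (2, 5), (3, 4), (3, 8), (4, 0), (4,
      3), (5, 2), (5, 6), (6, 5), (6, 7), (7, 6), (7, 9), (8, 1), (8, 3), (9, 1), (9, 7)]
    lev := [] }
  links := [[1, 6, 7, 8], [6, 0, 8, 3, 2, 4, 9, 10], [4, 1, 3, 11, 12, 13], [11, 2, 1, 8], [9, 1, 2, 13,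
    5, 14], [14, 4, 13, 15, 7]]
  P := {
    a := 6
    N := 16
    nb := [450, 1885, 14362, 2310, 25126, 57488, 1155, 49505, 2187, 17426, 578, 4364, 10244, 36916,
      688, 8352]
    tri := [(0, 1, 6), (0, 1, 8), (0, 6, 7), (0, 7, 8), (1, 2, 3), (1, 2, 4), (1, 3, 8), (1, 4, 9), (1,
      6, 10), (1, 9, 10), (2, 3, 11), (2, 4, 13), (2, 11, 12), (2, 12, 13), (3, 8, 11), (4, 5,
      13), (4, 5, 14), (4, 9, 14), (5, 7, 14), (5, 7, 15), (5, 13, 15)]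
    fin := [0, 0, 2, 2, 2, 5, 6, 0, 2, 2, 10, 11, 12, 5, 5, 15]
    chd := [(0, 10), (2, 12)]
    steps := [(0, 1), (0, 7), (2, 3), (2, 4), (2, 8), (2, 9), (5, 13), (5, 14)] }
  rep := [2, 5, 0, 6, 11, 10, 12, 15]

noncomputable def v1133 : Cov.CovD where
  P := 3
  N := 5
  pl := [0, 5, 9]
  lev := [⟨[], [], [(0, 2)], [3], [(1, 2, [5]), (2, 0, [6])]⟩,
    ⟨[], [(0, 0), (0, 2), (0, 5)], [(0, 0), (0, 5)], [3], [(2, 0, [6]), (3, 0, [6]), (4, 5,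
      [2])]⟩,
    ⟨[(0, 1)], [(1, 0), (1, 1), (1, 5), (1, 6)], [(1, 6)], [4], [(6, 6, [0]), (7, 1, [])]⟩,
    ⟨[(0, 1), (1, 2)], [(0, 0), (1, 0), (1, 5), (2, 0), (2, 1), (2, 6)], [], [4], [(2, 0,
      [6])]⟩,
    ⟨[(0, 1), (1, 2), (1, 3), (2, 3)], [(1, 0), (1, 1), (1, 5), (2, 0), (2, 1), (2, 6)],
      [(0, 1), (1, 1)], [], [(3, 0, [6]), (7, 1, []), (8, 1, [])]⟩,
    ⟨[(1, 4), (2, 4)], [(0, 2), (2, 1), (4, 0), (4, 1), (4, 2)], [(1, 1), (1, 2)], [7],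
      [(1, 2, [5]), (7, 1, []), (8, 1, [])]⟩]
  Ta := [((2, 1), 0, 2), ((2, 5), 0, 4), ((3, 4), 0, 5), ((3, 8), 0, 1), ((7, 6), 1, 6), ((7, 9),
    1, 7), ((8, 1), 1, 2), ((8, 3), 1, 0)]
  Tb := [((0, 1, 4), 3, 2, 5), ((1, 0, 2), 2, 3, 0), ((1, 0, 8), 2, 3, 1), ((1, 0, 9), 2, 3, 7),
    ((1, 2, 8), 2, 0, 1), ((1, 2, 9), 2, 0, 7), ((1, 8, 9), 2, 1, 7), ((2, 1, 5), 0, 2, 4),
    ((3, 4, 8), 0, 5, 1), ((4, 0, 3), 5, 3, 0), ((5, 2, 6), 4, 0, 6), ((6, 5, 7), 6, 4, 1),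
    ((7, 6, 9), 1, 6, 7), ((8, 1, 3), 1, 2, 0), ((9, 1, 7), 7, 2, 1)]
  Tc := []
  Td := [((0, 6), (2, 1), 2), ((0, 6), (2, 5), 4), ((0, 6), (3, 4), 5), ((0, 6), (3, 8), 1), ((2,
    5), (1, 0), 3), ((2, 5), (1, 2), 0), ((2, 5), (1, 8), 1), ((2, 5), (1, 9), 7), ((5, 2),
    (4, 0), 3), ((5, 2), (4, 3), 0), ((6, 0), (6, 5), 4), ((6, 0), (6, 7), 1)]
  G := [[0, 0, 0xc4c4618c8c8a14c8c8c12e, 0,
    0x9429494651c58988982dc94281858988982d9489849494cdea], [0, 0, 0xc4c4618c8c8a14c8c4c12e,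
    0xc18c84582d2944c829854cd2c, 0x94419889843c948298898439489849498cdea], [0, 0, 0, 0,
    0x9494a19898c1a9898a143], [0, 0xc2c2a1c2c8a1cc4c4c125, 0, 0xc854a1298c8c125,
    0x9494619494c1a9898a149]]

noncomputable def n1133 : Ent := ⟨e1133, noF, [], [], [(12, 15, [360035742630636841211993100915356868655746945586763691012308993, 0])]⟩

def c1133 : PLift (Cov.check n1133.C.D v1133 = true) := ⟨by decide +kernel⟩

def b1133 : PLift (entF (fidx ts) 400 1133 n1133 = true) := ⟨by decide +kernel⟩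

theorem g1133 : GoodF (fidx ts) 400 1133 := GoodF.ofV v1133 n1133 c1133.down b1133.down

/-- 486465:929/4 -/
noncomputable def e1134 : SCfg where
  D := {
    a := 6
    L := 10
    kp := 7
    inn := [(0, 1), (1, 0), (1, 2), (1, 3), (1, 4), (2, 1), (2, 3), (2, 4), (3, 1), (3, 2), (4, 1), (4,
      2), (4, 5), (5, 4)]
    mix := [(0, 0), (0, 1), (0, 2), (1, 0), (1, 2), (1, 3), (1, 4), (2, 5), (2, 6), (2, 7), (3, 2), (3,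
      5), (4, 3), (4, 7), (4, 8), (5, 6), (5, 7), (5, 8), (5, 9)]
    cl := [2, 5, 0, 0, 6, 4, 3, 1, 1, 7]
    chq := [(0, 3), (3, 0), (5, 6), (6, 5)]
    rng := [(0, 1), (0, 4), (1, 0), (1, 2), (2, 1), (2, 5), (3, 4), (3, 8), (4, 0), (4, 3), (5, 2), (5,
      6), (6, 5), (6, 7), (6, 9), (7, 6), (8, 3), (8, 9), (9, 6), (9, 8)]
    lev := [] }
  links := [[1, 6, 7, 8], [6, 0, 8, 3, 2, 4, 9, 10], [4, 1, 3, 11, 12, 13], [11, 2, 1, 8], [9, 1, 2, 13,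
    5, 14], [14, 4, 13, 12, 15]]
  P := {
    a := 6
    N := 16
    nb := [450, 1885, 14362, 2310, 25126, 61456, 1155, 321, 2187, 17426, 578, 4364, 43044, 4148,
      33328, 20512]
    tri := [(0, 1, 6), (0, 1, 8), (0, 6, 7), (0, 7, 8), (1, 2, 3), (1, 2, 4), (1, 3, 8), (1, 4, 9), (1,
      6, 10), (1, 9, 10), (2, 3, 11), (2, 4, 13), (2, 11, 12), (2, 12, 13), (3, 8, 11), (4, 5,
      13), (4, 5, 14), (4, 9, 14), (5, 12, 13), (5, 12, 15), (5, 14, 15)]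
    fin := [0, 0, 2, 2, 2, 5, 6, 0, 2, 2, 10, 11, 12, 5, 5, 15]
    chd := [(0, 10), (2, 12)]
    steps := [(0, 1), (0, 7), (2, 3), (2, 4), (2, 8), (2, 9), (5, 13), (5, 14)] }
  rep := [2, 5, 6, 12, 11, 0, 10, 15]

noncomputable def v1134 : Cov.CovD where
  P := 3
  N := 5
  pl := [0, 5, 9]
  lev := [⟨[], [], [(0, 5)], [2], [(1, 5, [6]), (2, 0, [3])]⟩,
    ⟨[], [(0, 0), (0, 5), (0, 6)], [(0, 0), (0, 6)], [2], [(2, 0, [3]), (3, 0, [3]), (4, 6,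
      [5])]⟩,
    ⟨[(0, 1)], [(1, 0), (1, 1), (1, 3), (1, 6)], [(1, 3)], [4], [(6, 3, [0]), (7, 1, [])]⟩,
    ⟨[(0, 1), (1, 2)], [(0, 0), (1, 0), (1, 6), (2, 0), (2, 1), (2, 3)], [], [4], [(2, 0,
      [3])]⟩,
    ⟨[(0, 1), (1, 2), (1, 3), (2, 3)], [(1, 0), (1, 1), (1, 6), (2, 0), (2, 1), (2, 3)],
      [(0, 1), (1, 1)], [], [(3, 0, [3]), (7, 1, []), (8, 1, [])]⟩,
    ⟨[(1, 4), (2, 4)], [(2, 1), (2, 3), (4, 0), (4, 1), (4, 3)], [(1, 1), (1, 3)], [7],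
      [(6, 3, [0]), (7, 1, []), (8, 1, [])]⟩]
  Ta := [((2, 1), 0, 5), ((2, 5), 0, 4), ((3, 4), 0, 6), ((3, 8), 0, 1), ((7, 6), 1, 3), ((8, 3),
    1, 0), ((8, 9), 1, 7)]
  Tb := [((0, 1, 4), 2, 5, 6), ((1, 0, 2), 5, 2, 0), ((2, 1, 5), 0, 5, 4), ((3, 4, 8), 0, 6, 1),
    ((4, 0, 3), 6, 2, 0), ((5, 2, 6), 4, 0, 3), ((6, 5, 7), 3, 4, 1), ((6, 5, 9), 3, 4, 7),
    ((6, 7, 9), 3, 1, 7), ((8, 3, 9), 1, 0, 7), ((9, 6, 8), 7, 3, 1)]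
  Tc := []
  Td := [((0, 3), (2, 1), 5), ((0, 3), (2, 5), 4), ((0, 3), (3, 4), 6), ((0, 3), (3, 8), 1), ((3,
    0), (6, 5), 4), ((3, 0), (6, 7), 1), ((3, 0), (6, 9), 7), ((5, 6), (1, 0), 2), ((5, 6),
    (1, 2), 0), ((6, 5), (4, 0), 2), ((6, 5), (4, 3), 0)]
  G := [[0, 0, 0x1858584d42d2944584d42d8a, 0x1858588d82d4944584d42d8c,
    0x948584d42d29441494d42d8a], [0, 0, 0x9458d8434d44d4838c, 0xd88d8d8a34d44d4838c,
    0x948584d42d2d44d4838a], [0, 0, 0xd8d8a14d4d4618c, 0xd4d461d8d8a1c1, 0xd4d461d4d4a1a1],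
    [0xe8e4c12e8e8c146, 0xe2e2c1e8e2a1c1, 0xd8d8a12d41d4438a, 0xd4d461d8d8a1c1,
    0xd4d461d4d8a1a1]]

noncomputable def n1134 : Ent := ⟨e1134, noF, [], [], [(7, 15, [360035742630636841211993100915356868655746945586763691012308993, 0])]⟩

def c1134 : PLift (Cov.check n1134.C.D v1134 = true) := ⟨by decide +kernel⟩

def b1134 : PLift (entF (fidx ts) 400 1134 n1134 = true) := ⟨by decide +kernel⟩

theorem g1134 : GoodF (fidx ts) 400 1134 := GoodF.ofV v1134 n1134 c1134.down b1134.down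

/-- 486465:929 -/
noncomputable def e1135 : SCfg where
  D := {
    a := 6
    L := 11
    kp := 8
    inn := [(0, 1), (1, 0), (1, 2), (1, 3), (1, 4), (2, 1), (2, 3), (2, 4), (3, 1), (3, 2), (4, 1), (4,
      2), (4, 5), (5, 4)]
    mix := [(0, 0), (0, 1), (0, 2), (1, 0), (1, 2), (1, 3), (1, 4), (2, 5), (2, 6), (2, 7), (3, 2), (3,
      5), (4, 3), (4, 7), (4, 8), (5, 7), (5, 8), (5, 9), (5, 10)]
    cl := [2, 4, 0, 0, 5, 3, 6, 1, 1, 7, 8]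
    chq := [(0, 6), (4, 5), (5, 4), (6, 0)]
    rng := [(0, 1), (0, 4), (1, 0), (1, 2), (2, 1), (2, 5), (3, 4), (3, 8), (4, 0), (4, 3), (5, 2), (5,
      6), (6, 5), (6, 7), (7, 6), (7, 9), (8, 3), (8, 10), (9, 7), (9, 10), (10, 8), (10, 9)]
    lev := [] }
  links := [[1, 6, 7, 8], [6, 0, 8, 3, 2, 4, 9, 10], [4, 1, 3, 11, 12, 13], [11, 2, 1, 8], [9, 1, 2, 13,
    5, 14], [14, 4, 13, 15, 16]]
  P := {
    a := 6
    N := 17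
    nb := [450, 1885, 14362, 2310, 25126, 122896, 1155, 321, 2187, 17426, 578, 4364, 10244, 36916,
      66096, 73760, 49184]
    tri := [(0, 1, 6), (0, 1, 8), (0, 6, 7), (0, 7, 8), (1, 2, 3), (1, 2, 4), (1, 3, 8), (1, 4, 9), (1,
      6, 10), (1, 9, 10), (2, 3, 11), (2, 4, 13), (2, 11, 12), (2, 12, 13), (3, 8, 11), (4, 5,
      13), (4, 5, 14), (4, 9, 14), (5, 13, 15), (5, 14, 16), (5, 15, 16)]
    fin := [0, 0, 2, 2, 2, 5, 6, 0, 2, 2, 10, 11, 12, 5, 5, 15, 16]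
    chd := [(0, 10), (2, 12)]
    steps := [(0, 1), (0, 7), (2, 3), (2, 4), (2, 8), (2, 9), (5, 13), (5, 14)] }
  rep := [2, 5, 6, 11, 0, 10, 12, 15, 16]

noncomputable def v1135 : Cov.CovD where
  P := 3
  N := 6
  pl := [0, 5, 9, 10]
  lev := [⟨[], [], [(0, 4)], [2], [(1, 4, [5]), (2, 0, [6])]⟩,
    ⟨[], [(0, 0), (0, 4), (0, 5)], [(0, 0), (0, 5)], [2], [(2, 0, [6]), (3, 0, [6]), (4, 5,
      [4])]⟩,
    ⟨[(0, 1)], [(1, 0), (1, 1), (1, 5), (1, 6)], [(1, 6)], [3], [(6, 6, [0]), (7, 1, [])]⟩,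
    ⟨[(0, 1), (1, 2)], [(0, 0), (1, 0), (1, 5), (2, 0), (2, 1), (2, 6)], [], [3], [(2, 0,
      [6])]⟩,
    ⟨[(0, 1), (1, 2), (1, 3), (2, 3)], [(1, 0), (1, 1), (1, 5), (2, 0), (2, 1), (2, 6)],
      [(0, 1), (1, 1)], [], [(3, 0, [6]), (7, 1, []), (8, 1, [])]⟩,
    ⟨[(1, 4), (2, 4)], [(2, 1), (4, 0), (4, 1)], [(1, 1)], [7, 8], [(7, 1, []), (8, 1,
      [])]⟩]
  Ta := [((2, 1), 0, 4), ((2, 5), 0, 3), ((3, 4), 0, 5), ((3, 8), 0, 1), ((7, 6), 1, 6), ((7, 9),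
    1, 7), ((8, 3), 1, 0), ((8, 10), 1, 8)]
  Tb := [((0, 1, 4), 2, 4, 5), ((1, 0, 2), 4, 2, 0), ((2, 1, 5), 0, 4, 3), ((3, 4, 8), 0, 5, 1),
    ((4, 0, 3), 5, 2, 0), ((5, 2, 6), 3, 0, 6), ((6, 5, 7), 6, 3, 1), ((7, 6, 9), 1, 6, 7),
    ((8, 3, 10), 1, 0, 8), ((9, 7, 10), 7, 1, 8), ((10, 8, 9), 8, 1, 7)]
  Tc := []
  Td := [((0, 6), (2, 1), 4), ((0, 6), (2, 5), 3), ((0, 6), (3, 4), 5), ((0, 6), (3, 8), 1), ((4,
    5), (1, 0), 2), ((4, 5), (1, 2), 0), ((5, 4), (4, 0), 2), ((5, 4), (4, 3), 0), ((6, 0),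
    (6, 5), 3), ((6, 0), (6, 7), 1)]
  G := [[0, 0, 0xd48d84d42d21c58d88d82d46, 0x1c52d82d8d8ad458541c94d42d8c,
    0xd48d84d42d2d429458d4d4cd8a], [0, 0, 0x1c58d88d82d4d48d4438c, 0xd88d8434d48d4438c,
    0xd481c94d42d2d48d4438a], [0, 0, 0xd8d4a12d8d86146, 0xd4d461d8d8c1c1, 0xd4d461d8d8c1a1],
    [0xe8e8c12e2e2a18a, 0xe2e261e8e8c1c1, 0xd4d8c12d8d8c146, 0xd4d461d8d8a1c1,
    0xd4d461d4d4a1a1]]

noncomputable def n1135 : Ent := ⟨e1135, noF, [], [], [(7, 15, [1685356702439545624007900436039642273970977273354372543760004722689, 0]), (7, 16, [1580044410770988437309982408355971841652082177953823432505693753345, 0]), (12, 15, [1685356702439545624007900436039642273970977273354372543760004734977, 0])]⟩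

def c1135 : PLift (Cov.check n1135.C.D v1135 = true) := ⟨by decide +kernel⟩

def b1135 : PLift (entF (fidx ts) 400 1135 n1135 = true) := ⟨by decide +kernel⟩

theorem g1135 : GoodF (fidx ts) 400 1135 := GoodF.ofV v1135 n1135 c1135.down b1135.down

/-- 464964:932 -/
noncomputable def e1136 : SCfg where
  D := {
    a := 6
    L := 10
    kp := 8
    inn := [(0, 1), (0, 3), (1, 0), (1, 2), (1, 3), (2, 1), (2, 3), (3, 0), (3, 1), (3, 2), (3, 4), (3,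
      5), (4, 3), (4, 5), (5, 3), (5, 4)]
    mix := [(0, 0), (0, 1), (1, 0), (1, 2), (1, 3), (2, 2), (2, 4), (3, 1), (3, 4), (3, 5), (3, 6), (4,
      1), (4, 7), (4, 8), (4, 9), (5, 5), (5, 9)]
    cl := [1, 0, 2, 6, 0, 4, 5, 7, 8, 3]
    chq := [(0, 6), (3, 5), (5, 3), (5, 7), (5, 8), (6, 0), (7, 5), (8, 5)]
    rng := [(0, 1), (0, 3), (1, 0), (1, 7), (2, 3), (2, 4), (3, 0), (3, 2), (4, 2), (4, 6), (5, 6), (5,
      9), (6, 4), (6, 5), (7, 1), (7, 8), (8, 7), (8, 9), (9, 5), (9, 8)]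
    lev := [] }
  links := [[1, 6, 7, 3], [6, 0, 3, 2, 8, 9], [8, 1, 3, 10], [10, 2, 1, 0, 7, 4, 5, 11, 12], [5, 3, 7,
    13, 14, 15], [11, 3, 4, 15]]
  P := {
    a := 6
    N := 16
    nb := [202, 845, 1290, 7351, 57512, 34840, 643, 8281, 1542, 322, 4364, 36904, 3080, 16528, 40976,
      18480]
    tri := [(0, 1, 3), (0, 1, 6), (0, 3, 7), (0, 6, 7), (1, 2, 3), (1, 2, 8), (1, 6, 9), (1, 8, 9), (2,
      3, 10), (2, 8, 10), (3, 4, 5), (3, 4, 7), (3, 5, 11), (3, 10, 12), (3, 11, 12), (4, 5, 15),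
      (4, 7, 13), (4, 13, 14), (4, 14, 15), (5, 11, 15)]
    fin := [0, 0, 0, 3, 3, 5, 6, 0, 8, 9, 0, 11, 3, 13, 14, 5]
    chd := [(0, 9), (3, 5), (3, 13), (3, 14)]
    steps := [(0, 1), (0, 2), (0, 7), (0, 10), (3, 4), (3, 12), (5, 15)] }
  rep := [0, 6, 8, 5, 11, 3, 9, 13, 14]

noncomputable def v1136 : Cov.CovD where
  P := 3
  N := 6
  pl := [0, 2, 5]
  lev := [⟨[], [], [], [1], [(1, 0, [6])]⟩,
    ⟨[], [(0, 0), (0, 6)], [], [1, 2], [(3, 6, [0])]⟩,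
    ⟨[(0, 1)], [(1, 0), (1, 6)], [], [2], [(4, 0, [6])]⟩,
    ⟨[(0, 1), (0, 2), (1, 2)], [(0, 0), (0, 5), (1, 0), (1, 5), (1, 6), (2, 0), (2, 5)],
      [(0, 0), (0, 5)], [4], [(1, 0, [6]), (4, 0, [6]), (6, 5, [3, 7, 8])]⟩,
    ⟨[(0, 3), (1, 3), (2, 3)], [(0, 0), (3, 0), (3, 3), (3, 5), (3, 7), (3, 8)], [(0, 3),
      (0, 7), (0, 8), (3, 7), (3, 8), (7, 8)], [], [(1, 0, [6]), (7, 7, [5]), (8, 8, [5]),
      (9, 3, [5])]⟩,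
    ⟨[(0, 3), (1, 3), (2, 3), (3, 4)], [(3, 0), (3, 3), (3, 5), (4, 0), (4, 3), (4, 7), (4,
      8)], [], [4], [(9, 3, [5])]⟩]
  Ta := [((1, 0), 0, 1), ((1, 7), 0, 7), ((4, 2), 0, 2), ((4, 6), 0, 5)]
  Tb := [((0, 1, 3), 1, 0, 6), ((1, 0, 7), 0, 1, 7), ((2, 3, 4), 2, 6, 0), ((3, 0, 2), 6, 1, 2),
    ((4, 2, 6), 0, 2, 5), ((5, 6, 9), 4, 5, 3), ((6, 4, 5), 5, 0, 4), ((7, 1, 8), 7, 0, 8),
    ((8, 7, 9), 8, 7, 3), ((9, 5, 8), 3, 4, 8)]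
  Tc := [(5, 3, 7), (5, 3, 8), (5, 7, 8)]
  Td := [((0, 6), (1, 0), 1), ((0, 6), (1, 7), 7), ((0, 6), (4, 2), 2), ((0, 6), (4, 6), 5), ((3,
    5), (9, 5), 4), ((3, 5), (9, 8), 8), ((5, 3), (6, 4), 0), ((5, 3), (6, 5), 4), ((5, 7),
    (6, 4), 0), ((5, 7), (6, 5), 4), ((5, 8), (6, 4), 0), ((5, 8), (6, 5), 4), ((6, 0), (3,
    0), 1), ((6, 0), (3, 2), 2), ((7, 5), (7, 1), 0), ((7, 5), (7, 8), 8), ((8, 5), (8, 7),
    7), ((8, 5), (8, 9), 3)]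
  G := [[0, 0xd84193a77c61cbfc2576b2c5dd681cc, 0, 0x93a4dd677cac14, 0xddabbc65368a18], [0, 0,
    0xddabbc65368c77c2dd693acac1, 0x838b4cd4776edac14, 0xcdcbabad65368a18]]

noncomputable def n1136 : Ent := ⟨e1136, noF, [], [], []⟩

def c1136 : PLift (Cov.check n1136.C.D v1136 = true) := ⟨by decide +kernel⟩

def b1136 : PLift (entF (fidx ts) 400 1136 n1136 = true) := ⟨by decide +kernel⟩

theorem g1136 : GoodF (fidx ts) 400 1136 := GoodF.ofV v1136 n1136 c1136.down b1136.down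

/-- 486645:933 -/
noncomputable def e1137 : SCfg where
  D := {
    a := 6
    L := 11
    kp := 8
    inn := [(0, 1), (1, 0), (1, 2), (1, 3), (1, 5), (2, 1), (2, 3), (2, 4), (3, 1), (3, 2), (3, 4), (4,
      2), (4, 3), (5, 1)]
    mix := [(0, 0), (0, 1), (0, 2), (1, 0), (1, 2), (1, 3), (1, 4), (2, 3), (2, 5), (2, 6), (3, 2), (3,
      7), (3, 8), (4, 5), (4, 8), (5, 0), (5, 4), (5, 9), (5, 10)]
    cl := [1, 5, 0, 0, 1, 2, 6, 4, 3, 7, 8]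
    chq := [(0, 2), (2, 0), (2, 4), (4, 2)]
    rng := [(0, 1), (0, 10), (1, 0), (1, 2), (2, 1), (2, 7), (3, 4), (3, 6), (4, 3), (4, 9), (5, 6),
      (5, 8), (6, 3), (6, 5), (7, 2), (7, 8), (8, 5), (8, 7), (9, 4), (9, 10), (10, 0), (10, 9)]
    lev := [] }
  links := [[1, 6, 7, 8], [6, 0, 8, 3, 2, 9, 10, 5], [9, 1, 3, 4, 11, 12], [4, 2, 1, 8, 13, 14], [11, 2,
    3, 14], [6, 1, 10, 15, 16]]
  P := {
    a := 6
    N := 17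
    nb := [450, 1901, 6682, 24854, 18444, 99394, 65699, 321, 8331, 5126, 33314, 20500, 2564, 16648,
      10264, 66592, 32864]
    tri := [(0, 1, 6), (0, 1, 8), (0, 6, 7), (0, 7, 8), (1, 2, 3), (1, 2, 9), (1, 3, 8), (1, 5, 6), (1,
      5, 10), (1, 9, 10), (2, 3, 4), (2, 4, 11), (2, 9, 12), (2, 11, 12), (3, 4, 14), (3, 8, 13),
      (3, 13, 14), (4, 11, 14), (5, 6, 16), (5, 10, 15), (5, 15, 16)]
    fin := [0, 1, 1, 3, 3, 0, 0, 7, 1, 1, 0, 11, 12, 3, 14, 15, 16]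
    chd := [(1, 11), (11, 3)]
    steps := [(0, 6), (0, 5), (0, 10), (1, 2), (1, 8), (1, 9), (3, 4), (3, 13)] }
  rep := [1, 0, 11, 14, 3, 7, 12, 15, 16]

noncomputable def v1137 : Cov.CovD where
  P := 3
  N := 6
  pl := [1, 6, 8, 9, 10]
  lev := [⟨[], [], [(0, 1)], [5], [(0, 1, []), (2, 0, [2])]⟩,
    ⟨[], [(0, 0), (0, 1)], [(0, 0), (0, 1), (1, 1)], [], [(0, 1, []), (2, 0, [2]), (3, 0,
      [2]), (4, 1, [])]⟩,
    ⟨[(0, 1)], [(1, 0), (1, 1), (1, 2)], [(0, 2)], [6], [(3, 0, [2]), (5, 2, [0, 4])]⟩,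
    ⟨[(0, 1), (1, 2)], [(0, 0), (1, 0), (1, 1), (1, 4), (2, 0), (2, 2), (2, 4)], [(0, 4)],
      [3], [(2, 0, [2]), (7, 4, [2])]⟩,
    ⟨[(1, 2), (1, 3), (2, 3)], [(2, 0), (2, 2), (3, 0), (3, 2), (3, 4)], [], [3], [(5, 2,
      [0, 4])]⟩,
    ⟨[(0, 1), (1, 2), (1, 3)], [(0, 1), (1, 0), (1, 1)], [(1, 1)], [7, 8], [(0, 1, []), (4,
      1, [])]⟩]
  Ta := [((0, 1), 1, 5), ((0, 10), 1, 8), ((2, 1), 0, 5), ((2, 7), 0, 4), ((3, 4), 0, 1), ((3,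
    6), 0, 6), ((4, 3), 1, 0), ((4, 9), 1, 7)]
  Tb := [((0, 1, 10), 1, 5, 8), ((1, 0, 2), 5, 1, 0), ((2, 1, 7), 0, 5, 4), ((3, 4, 6), 0, 1, 6),
    ((4, 3, 9), 1, 0, 7), ((5, 6, 8), 2, 6, 3), ((6, 3, 5), 6, 0, 2), ((7, 2, 8), 4, 0, 3),
    ((8, 5, 7), 3, 2, 4), ((9, 4, 10), 7, 1, 8), ((10, 0, 9), 8, 1, 7)]
  Tc := [(2, 0, 4)]
  Td := [((0, 2), (2, 1), 5), ((0, 2), (2, 7), 4), ((0, 2), (3, 4), 1), ((0, 2), (3, 6), 6), ((2,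
    0), (5, 6), 6), ((2, 0), (5, 8), 3), ((2, 4), (5, 6), 6), ((2, 4), (5, 8), 3), ((4, 2),
    (7, 2), 0), ((4, 2), (7, 8), 3)]
  G := [[0, 0, 0x51d1d1ed4d166d18818ac1, 0x545861d8888dce1c44d4ddce19881cc,
    0x55a41d888ad2e1c52ddad8e18881cc], [0, 0, 0x4d61981d461e42, 0xd4ddc61d881c2,
    0xddad261d281c2], [0, 0, 0x444d14cd1d2ad191d1eac1, 0x44441d1dd5ecd498d1e988cc1,
    0x5434d1d86ad198ad2ed88ac1], [0, 0x486434e4e83a89883cc642e8e43c8484e878ac, 0xdda1dd61682,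
    0xd4d834d8d438c2, 0x524d2d85a848858ad8c2]]

noncomputable def n1137 : Ent := ⟨e1137, noF, [], [], []⟩

def c1137 : PLift (Cov.check n1137.C.D v1137 = true) := ⟨by decide +kernel⟩

def b1137 : PLift (entF (fidx ts) 400 1137 n1137 = true) := ⟨by decide +kernel⟩

theorem g1137 : GoodF (fidx ts) 400 1137 := GoodF.ofV v1137 n1137 c1137.down b1137.down

/-- 464854:934/1 -/
noncomputable def e1138 : SCfg where
  D := {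
    a := 6
    L := 8
    kp := 6
    inn := [(0, 1), (0, 3), (1, 0), (1, 2), (1, 3), (2, 1), (2, 3), (3, 0), (3, 1), (3, 2), (3, 4), (4,
      3), (4, 5), (5, 4)]
    mix := [(0, 0), (0, 1), (1, 0), (1, 2), (1, 3), (2, 2), (2, 4), (3, 1), (3, 4), (3, 5), (3, 6), (4,
      1), (4, 5), (4, 7), (5, 0), (5, 1), (5, 7)]
    cl := [1, 0, 3, 5, 2, 0, 6, 4]
    chq := [(0, 2), (1, 2), (1, 3), (2, 0), (2, 1), (3, 1)]
    rng := [(0, 1), (0, 3), (0, 7), (1, 0), (2, 3), (2, 4), (3, 0), (3, 2), (4, 2), (4, 6), (5, 6), (5,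
      7), (6, 4), (6, 5), (7, 0), (7, 5)]
    lev := [] }
  links := [[1, 6, 7, 3], [6, 0, 3, 2, 8, 9], [8, 1, 3, 10], [10, 2, 1, 0, 7, 4, 11, 12], [11, 3, 7, 5,
    13], [13, 4, 7, 6]]
  P := {
    a := 6
    N := 14
    nb := [202, 845, 1290, 7319, 10408, 8400, 8867, 121, 1542, 322, 4364, 12312, 3080, 2160]
    tri := [(0, 1, 3), (0, 1, 6), (0, 3, 7), (0, 6, 7), (1, 2, 3), (1, 2, 8), (1, 6, 9), (1, 8, 9), (2,
      3, 10), (2, 8, 10), (3, 4, 7), (3, 4, 11), (3, 10, 12), (3, 11, 12), (4, 5, 7), (4, 5, 13),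
      (4, 11, 13), (5, 6, 7), (5, 6, 13)]
    fin := [0, 0, 0, 3, 0, 0, 0, 3, 8, 9, 10, 3, 12, 13]
    chd := [(0, 8), (0, 10), (3, 10)]
    steps := [(0, 1), (0, 2), (0, 6), (0, 5), (3, 7), (0, 4), (3, 11)] }
  rep := [3, 0, 10, 8, 13, 9, 12]

noncomputable def v1138 : Cov.CovD where
  P := 3
  N := 4
  pl := [3, 6, 7]
  lev := [⟨[], [], [(0, 1)], [], [(0, 1, [2, 3]), (1, 0, [2])]⟩,
    ⟨[], [(0, 0), (0, 1), (0, 3)], [(1, 3)], [5], [(0, 1, [2, 3]), (2, 3, [1])]⟩,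
    ⟨[(0, 1)], [(1, 1), (1, 2), (1, 3)], [(2, 3)], [], [(2, 3, [1]), (4, 2, [0, 1])]⟩,
    ⟨[(0, 1), (0, 2), (1, 2)], [(0, 0), (0, 1), (0, 2), (1, 0), (1, 1), (1, 2), (1, 3), (2,
      0), (2, 2), (2, 3)], [(0, 0), (0, 2)], [6], [(1, 0, [2]), (4, 2, [0, 1]), (5, 0, [2])]⟩,
    ⟨[(0, 3), (1, 3), (2, 3)], [(0, 0), (3, 0), (3, 2)], [(0, 0)], [4], [(1, 0, [2]), (5,
      0, [2])]⟩,
    ⟨[(3, 4)], [(0, 0), (0, 1), (1, 1), (3, 0), (4, 0), (4, 1)], [(0, 1)], [4], [(0, 1, [2,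
      3]), (1, 0, [2])]⟩]
  Ta := [((1, 0), 0, 1), ((5, 6), 0, 6), ((5, 7), 0, 4)]
  Tb := [((0, 1, 3), 1, 0, 5), ((0, 1, 7), 1, 0, 4), ((0, 3, 7), 1, 5, 4), ((2, 3, 4), 3, 5, 2),
    ((3, 0, 2), 5, 1, 3), ((4, 2, 6), 2, 3, 6), ((5, 6, 7), 0, 6, 4), ((6, 4, 5), 6, 2, 0),
    ((7, 0, 5), 4, 1, 0)]
  Tc := [(1, 2, 3), (2, 0, 1)]
  Td := [((0, 2), (1, 0), 1), ((0, 2), (5, 6), 6), ((0, 2), (5, 7), 4), ((1, 2), (0, 1), 0), ((1,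
    2), (0, 3), 5), ((1, 2), (0, 7), 4), ((1, 3), (0, 1), 0), ((1, 3), (0, 3), 5), ((1, 3),
    (0, 7), 4), ((2, 0), (4, 2), 3), ((2, 0), (4, 6), 6), ((2, 1), (4, 2), 3), ((2, 1), (4,
    6), 6), ((3, 1), (2, 3), 5), ((3, 1), (2, 4), 2)]
  G := [[0, 0x82682cc148682ac1426826c1e2, 0x11c41a6141614ca211681cc2d8, 0x24c2424c21522c288c,
    0x84c24868a48684ca2486486a1d4], [0, 0, 0x128814e214c41aa181641ac2d4, 0x9292c5292c528,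
    0x84c24168a41a84ca214c816a1d4]]

noncomputable def n1138 : Ent := ⟨e1138, noF, [], [], []⟩

def c1138 : PLift (Cov.check n1138.C.D v1138 = true) := ⟨by decide +kernel⟩

def b1138 : PLift (entF (fidx ts) 400 1138 n1138 = true) := ⟨by decide +kernel⟩

theorem g1138 : GoodF (fidx ts) 400 1138 := GoodF.ofV v1138 n1138 c1138.down b1138.down

/-- 464854:934 -/
noncomputable def e1139 : SCfg where
  D := {
    a := 6
    L := 9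
    kp := 7
    inn := [(0, 1), (0, 3), (1, 0), (1, 2), (1, 3), (2, 1), (2, 3), (3, 0), (3, 1), (3, 2), (3, 4), (4,
      3), (4, 5), (5, 4)]
    mix := [(0, 0), (0, 1), (1, 0), (1, 2), (1, 3), (2, 2), (2, 4), (3, 1), (3, 4), (3, 5), (3, 6), (4,
      1), (4, 5), (4, 7), (5, 1), (5, 7), (5, 8)]
    cl := [1, 0, 2, 6, 3, 0, 5, 4, 7]
    chq := [(1, 2), (1, 3), (1, 5), (2, 1), (3, 1), (5, 1)]
    rng := [(0, 1), (0, 3), (1, 0), (1, 8), (2, 3), (2, 4), (3, 0), (3, 2), (4, 2), (4, 6), (5, 6), (5,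
      7), (6, 4), (6, 5), (7, 5), (7, 8), (8, 1), (8, 7)]
    lev := [] }
  links := [[1, 6, 7, 3], [6, 0, 3, 2, 8, 9], [8, 1, 3, 10], [10, 2, 1, 0, 7, 4, 11, 12], [11, 3, 7, 5,
    13], [13, 4, 7, 14]]
  P := {
    a := 6
    N := 15
    nb := [202, 845, 1290, 7319, 10408, 24720, 643, 16505, 1542, 322, 4364, 12312, 3080, 18480, 8352]
    tri := [(0, 1, 3), (0, 1, 6), (0, 3, 7), (0, 6, 7), (1, 2, 3), (1, 2, 8), (1, 6, 9), (1, 8, 9), (2,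
      3, 10), (2, 8, 10), (3, 4, 7), (3, 4, 11), (3, 10, 12), (3, 11, 12), (4, 5, 7), (4, 5, 13),
      (4, 11, 13), (5, 7, 14), (5, 13, 14)]
    fin := [0, 0, 0, 0, 4, 4, 0, 4, 8, 9, 10, 4, 12, 13, 14]
    chd := [(0, 8), (0, 10), (0, 12)]
    steps := [(0, 1), (0, 2), (0, 3), (0, 6), (4, 5), (4, 7), (4, 11)] }
  rep := [4, 0, 8, 10, 13, 12, 9, 14]

noncomputable def v1139 : Cov.CovD where
  P := 3
  N := 5
  pl := [3, 7, 8]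
  lev := [⟨[], [], [(0, 1)], [], [(0, 1, [2, 3, 5]), (1, 0, [])]⟩,
    ⟨[], [(0, 0), (0, 1), (0, 2)], [(1, 2)], [6], [(0, 1, [2, 3, 5]), (2, 2, [1])]⟩,
    ⟨[(0, 1)], [(1, 1), (1, 2), (1, 3)], [(2, 3)], [], [(2, 2, [1]), (4, 3, [1])]⟩,
    ⟨[(0, 1), (0, 2), (1, 2)], [(0, 0), (0, 1), (0, 3), (0, 5), (1, 0), (1, 1), (1, 2), (1,
      3), (1, 5), (2, 0), (2, 2), (2, 3), (2, 5)], [(0, 0), (0, 3), (0, 5), (3, 5)], [], [(1,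
      0, []), (4, 3, [1]), (5, 0, []), (6, 5, [1])]⟩,
    ⟨[(0, 3), (1, 3), (2, 3)], [(0, 0), (3, 0), (3, 3), (3, 5)], [(0, 0)], [4], [(1, 0,
      []), (5, 0, [])]⟩,
    ⟨[(3, 4)], [(0, 0), (3, 0), (4, 0)], [], [4, 7], [(1, 0, [])]⟩]
  Ta := [((1, 0), 0, 1), ((1, 8), 0, 7), ((5, 6), 0, 5), ((5, 7), 0, 4)]
  Tb := [((0, 1, 3), 1, 0, 6), ((1, 0, 8), 0, 1, 7), ((2, 3, 4), 2, 6, 3), ((3, 0, 2), 6, 1, 2),
    ((4, 2, 6), 3, 2, 5), ((5, 6, 7), 0, 5, 4), ((6, 4, 5), 5, 3, 0), ((7, 5, 8), 4, 0, 7),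
    ((8, 1, 7), 7, 0, 4)]
  Tc := [(1, 2, 3), (1, 2, 5), (1, 3, 5)]
  Td := [((1, 2), (0, 1), 0), ((1, 2), (0, 3), 6), ((1, 3), (0, 1), 0), ((1, 3), (0, 3), 6), ((1,
    5), (0, 1), 0), ((1, 5), (0, 3), 6), ((2, 1), (2, 3), 6), ((2, 1), (2, 4), 3), ((3, 1),
    (4, 2), 2), ((3, 1), (4, 6), 5), ((5, 1), (6, 4), 3), ((5, 1), (6, 5), 0)]
  G := [[0, 0xca6c6aa6ce18ca6c6aa6ce146, 0xa6c244a6c2a6c2ca6c28cc, 0xa6c24a6c21a6c28d8,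
    0xa6c2a6c29a6c2a6c2994], [0, 0, 0x95c216c2c4a1c2d1c2c8c, 0x218e2416c28c1a21d4,
    0xa1c216c29a1c21dc2994]]

noncomputable def n1139 : Ent := ⟨e1139, noF, [], [], [(6, 14, [81620716623019490593592230936445690773474979418095888048129, 0])]⟩

def c1139 : PLift (Cov.check n1139.C.D v1139 = true) := ⟨by decide +kernel⟩

def b1139 : PLift (entF (fidx ts) 400 1139 n1139 = true) := ⟨by decide +kernel⟩

theorem g1139 : GoodF (fidx ts) 400 1139 := GoodF.ofV v1139 n1139 c1139.down b1139.down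

/-- 464854:935 -/
noncomputable def e1140 : SCfg where
  D := {
    a := 6
    L := 9
    kp := 7
    inn := [(0, 1), (0, 3), (1, 0), (1, 2), (1, 3), (2, 1), (2, 3), (3, 0), (3, 1), (3, 2), (3, 4), (4,
      3), (4, 5), (5, 4)]
    mix := [(0, 0), (0, 1), (1, 0), (1, 2), (1, 3), (2, 2), (2, 4), (3, 1), (3, 4), (3, 5), (3, 6), (4,
      1), (4, 5), (4, 7), (5, 5), (5, 7), (5, 8)]
    cl := [1, 0, 2, 6, 3, 0, 5, 4, 7]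
    chq := [(1, 2), (1, 3), (1, 5), (2, 1), (3, 1), (5, 1)]
    rng := [(0, 1), (0, 3), (1, 0), (1, 7), (2, 3), (2, 4), (3, 0), (3, 2), (4, 2), (4, 6), (5, 6), (5,
      8), (6, 4), (6, 5), (7, 1), (7, 8), (8, 5), (8, 7)]
    lev := [] }
  links := [[1, 6, 7, 3], [6, 0, 3, 2, 8, 9], [8, 1, 3, 10], [10, 2, 1, 0, 7, 4, 11, 12], [11, 3, 7, 13,
    5], [11, 4, 13, 14]]
  P := {
    a := 6
    N := 15
    nb := [202, 845, 1290, 7319, 10408, 26640, 643, 8281, 1542, 322, 4364, 20536, 3080, 16560, 10272]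
    tri := [(0, 1, 3), (0, 1, 6), (0, 3, 7), (0, 6, 7), (1, 2, 3), (1, 2, 8), (1, 6, 9), (1, 8, 9), (2,
      3, 10), (2, 8, 10), (3, 4, 7), (3, 4, 11), (3, 10, 12), (3, 11, 12), (4, 5, 11), (4, 5, 13),
      (4, 7, 13), (5, 11, 14), (5, 13, 14)]
    fin := [0, 0, 0, 0, 4, 4, 0, 4, 8, 9, 10, 4, 12, 13, 14]
    chd := [(0, 8), (0, 10), (0, 12)]
    steps := [(0, 1), (0, 2), (0, 3), (0, 6), (4, 5), (4, 7), (4, 11)] }
  rep := [4, 0, 8, 10, 13, 12, 9, 14]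

noncomputable def v1140 : Cov.CovD where
  P := 3
  N := 5
  pl := [3, 7, 8]
  lev := [⟨[], [], [(0, 1)], [], [(0, 1, [2, 3, 5]), (1, 0, [])]⟩,
    ⟨[], [(0, 0), (0, 1), (0, 2)], [(1, 2)], [6], [(0, 1, [2, 3, 5]), (2, 2, [1])]⟩,
    ⟨[(0, 1)], [(1, 1), (1, 2), (1, 3)], [(2, 3)], [], [(2, 2, [1]), (4, 3, [1])]⟩,
    ⟨[(0, 1), (0, 2), (1, 2)], [(0, 0), (0, 1), (0, 3), (0, 5), (1, 0), (1, 1), (1, 2), (1,
      3), (1, 5), (2, 0), (2, 2), (2, 3), (2, 5)], [(0, 0), (0, 3), (0, 5), (3, 5)], [], [(1,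
      0, []), (4, 3, [1]), (5, 0, []), (6, 5, [1])]⟩,
    ⟨[(0, 3), (1, 3), (2, 3)], [(0, 0), (3, 0), (3, 3), (3, 5)], [(0, 0)], [4], [(1, 0,
      []), (5, 0, [])]⟩,
    ⟨[(3, 4)], [(3, 0), (4, 0)], [], [4, 7], [(5, 0, [])]⟩]
  Ta := [((1, 0), 0, 1), ((1, 7), 0, 4), ((5, 6), 0, 5), ((5, 8), 0, 7)]
  Tb := [((0, 1, 3), 1, 0, 6), ((1, 0, 7), 0, 1, 4), ((2, 3, 4), 2, 6, 3), ((3, 0, 2), 6, 1, 2),
    ((4, 2, 6), 3, 2, 5), ((5, 6, 8), 0, 5, 7), ((6, 4, 5), 5, 3, 0), ((7, 1, 8), 4, 0, 7),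
    ((8, 5, 7), 7, 0, 4)]
  Tc := [(1, 2, 3), (1, 2, 5), (1, 3, 5)]
  Td := [((1, 2), (0, 1), 0), ((1, 2), (0, 3), 6), ((1, 3), (0, 1), 0), ((1, 3), (0, 3), 6), ((1,
    5), (0, 1), 0), ((1, 5), (0, 3), 6), ((2, 1), (2, 3), 6), ((2, 1), (2, 4), 3), ((3, 1),
    (4, 2), 2), ((3, 1), (4, 6), 5), ((5, 1), (6, 4), 3), ((5, 1), (6, 5), 0)]
  G := [[0, 0x11611a11ce111611a11ce1c2, 0xa1c2a1c2c416c2a1c2c8c, 0xc1621c1a28c1a24d8,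
    0xa1c216c29a1c2a1c2994], [0, 0, 0xa6c2a6c2ca6c2a6c2cc1, 0xa6c21a6c28a6c24d8,
    0xa6c2a6c291a6c2a6c2985]]

noncomputable def n1140 : Ent := ⟨e1140, noF, [], [], []⟩

def c1140 : PLift (Cov.check n1140.C.D v1140 = true) := ⟨by decide +kernel⟩

def b1140 : PLift (entF (fidx ts) 400 1140 n1140 = true) := ⟨by decide +kernel⟩

theorem g1140 : GoodF (fidx ts) 400 1140 := GoodF.ofV v1140 n1140 c1140.down b1140.down

/-- 459544:936 -/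
noncomputable def e1141 : SCfg where
  D := {
    a := 6
    L := 10
    kp := 7
    inn := [(0, 1), (0, 2), (1, 0), (1, 2), (2, 0), (2, 1), (2, 3), (2, 4), (3, 2), (3, 5), (4, 2), (5,
      3)]
    mix := [(0, 0), (0, 1), (1, 1), (1, 2), (1, 3), (2, 0), (2, 3), (2, 4), (2, 5), (2, 6), (3, 5), (3,
      6), (3, 7), (4, 3), (4, 4), (4, 8), (5, 5), (5, 7), (5, 9)]
    cl := [0, 3, 6, 0, 2, 1, 1, 4, 5, 7]
    chq := [(1, 5), (5, 1)]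
    rng := [(0, 1), (0, 6), (1, 0), (1, 2), (2, 1), (2, 3), (3, 2), (3, 8), (4, 5), (4, 8), (5, 4), (5,
      9), (6, 0), (6, 7), (7, 6), (7, 9), (8, 3), (8, 4), (9, 5), (9, 7)]
    lev := [] }
  links := [[1, 2, 6, 7], [2, 0, 7, 8, 9], [6, 0, 1, 9, 4, 10, 11, 3, 12], [12, 2, 11, 5, 13], [10, 2, 9,
    14], [13, 3, 11, 15]]
  P := {
    a := 6
    N := 16
    nb := [198, 901, 7771, 14372, 17924, 43016, 4229, 323, 642, 16662, 18452, 33836, 8268, 36904,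
      1552, 10272]
    tri := [(0, 1, 2), (0, 1, 7), (0, 2, 6), (0, 6, 7), (1, 2, 9), (1, 7, 8), (1, 8, 9), (2, 3, 11),
      (2, 3, 12), (2, 4, 9), (2, 4, 10), (2, 6, 12), (2, 10, 11), (3, 5, 11), (3, 5, 13), (3, 12,
      13), (4, 9, 14), (4, 10, 14), (5, 11, 15), (5, 13, 15)]
    fin := [0, 0, 2, 3, 2, 3, 0, 7, 8, 0, 10, 3, 3, 13, 2, 15]
    chd := [(3, 2)]
    steps := [(0, 1), (0, 6), (0, 9), (2, 4), (2, 14), (3, 5), (3, 11), (3, 12)] }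
  rep := [0, 3, 10, 7, 13, 2, 8, 15]

noncomputable def v1141 : Cov.CovD where
  P := 3
  N := 5
  pl := [1, 2, 4, 7, 9]
  lev := [⟨[], [], [], [3], [(0, 0, [])]⟩,
    ⟨[], [(0, 0)], [], [3, 6], [(3, 0, [])]⟩,
    ⟨[(0, 1)], [(0, 0), (0, 1), (1, 0), (1, 1)], [(0, 0), (0, 1), (1, 1)], [2], [(0, 0,
      []), (3, 0, []), (5, 1, [5]), (6, 1, [5])]⟩,
    ⟨[(0, 2), (1, 2)], [(2, 0), (2, 1)], [(1, 1)], [4], [(5, 1, [5]), (6, 1, [5])]⟩,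
    ⟨[(0, 2), (1, 2), (2, 3)], [(1, 0), (2, 0), (2, 1), (2, 5)], [(0, 5)], [2], [(3, 0,
      []), (8, 5, [1])]⟩,
    ⟨[(2, 3)], [(2, 1), (3, 1)], [], [4, 7], [(5, 1, [5])]⟩]
  Ta := [((0, 1), 0, 3), ((0, 6), 0, 1), ((3, 2), 0, 6), ((3, 8), 0, 5), ((5, 4), 1, 2), ((5, 9),
    1, 7), ((6, 0), 1, 0), ((6, 7), 1, 4)]
  Tb := [((0, 1, 6), 0, 3, 1), ((1, 0, 2), 3, 0, 6), ((2, 1, 3), 6, 3, 0), ((3, 2, 8), 0, 6, 5),
    ((4, 5, 8), 2, 1, 5), ((5, 4, 9), 1, 2, 7), ((6, 0, 7), 1, 0, 4), ((7, 6, 9), 4, 1, 7),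
    ((8, 3, 4), 5, 0, 2), ((9, 5, 7), 7, 1, 4)]
  Tc := []
  Td := [((1, 5), (5, 4), 2), ((1, 5), (5, 9), 7), ((1, 5), (6, 0), 0), ((1, 5), (6, 7), 4), ((5,
    1), (8, 3), 0), ((5, 1), (8, 4), 2)]
  G := [[0, 0, 0xc25294c29258cc292581a, 0xc151948c191584c151942e, 0xc292581c19158c29158a6], [0,
    0x1111c4811116841111682e, 0x2252948b222941c222582e, 0, 0xa2325812152c8c121586c], [0, 0,
    0xc29258c29258c25294e1, 0xccc55c948ccc99c5855c499c8c69, 0xc292582c29258c29258c3], [0, 0,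
    0xc22258229258c25294e1, 0, 0x229258225298229258e1]]

noncomputable def n1141 : Ent := ⟨e1141, noF, [], [], []⟩

def c1141 : PLift (Cov.check n1141.C.D v1141 = true) := ⟨by decide +kernel⟩

def b1141 : PLift (entF (fidx ts) 400 1141 n1141 = true) := ⟨by decide +kernel⟩

theorem g1141 : GoodF (fidx ts) 400 1141 := GoodF.ofV v1141 n1141 c1141.down b1141.down

/-- 459544:937 -/
noncomputable def e1142 : SCfg where
  D := {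
    a := 6
    L := 10
    kp := 7
    inn := [(0, 1), (0, 2), (1, 0), (1, 2), (2, 0), (2, 1), (2, 3), (2, 4), (3, 2), (3, 5), (4, 2), (5,
      3)]
    mix := [(0, 0), (0, 1), (1, 1), (1, 2), (1, 3), (2, 0), (2, 3), (2, 4), (2, 5), (2, 6), (3, 5), (3,
      6), (3, 7), (4, 3), (4, 4), (4, 8), (5, 6), (5, 7), (5, 9)]
    cl := [0, 3, 6, 0, 2, 1, 1, 4, 5, 7]
    chq := [(1, 5), (5, 1)]
    rng := [(0, 1), (0, 6), (1, 0), (1, 2), (2, 1), (2, 3), (3, 2), (3, 8), (4, 5), (4, 8), (5, 4), (5,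
      7), (6, 0), (6, 9), (7, 5), (7, 9), (8, 3), (8, 4), (9, 6), (9, 7)]
    lev := [] }
  links := [[1, 2, 6, 7], [2, 0, 7, 8, 9], [6, 0, 1, 9, 4, 10, 11, 3, 12], [12, 2, 11, 13, 5], [10, 2, 9,
    14], [12, 3, 13, 15]]
  P := {
    a := 6
    N := 16
    nb := [198, 901, 7771, 14372, 17924, 45064, 4229, 323, 642, 16662, 18452, 9228, 32876, 34856,
      1552, 12320]
    tri := [(0, 1, 2), (0, 1, 7), (0, 2, 6), (0, 6, 7), (1, 2, 9), (1, 7, 8), (1, 8, 9), (2, 3, 11),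
      (2, 3, 12), (2, 4, 9), (2, 4, 10), (2, 6, 12), (2, 10, 11), (3, 5, 12), (3, 5, 13), (3, 11,
      13), (4, 9, 14), (4, 10, 14), (5, 12, 15), (5, 13, 15)]
    fin := [0, 0, 2, 3, 2, 3, 0, 7, 8, 0, 10, 3, 3, 13, 2, 15]
    chd := [(3, 2)]
    steps := [(0, 1), (0, 6), (0, 9), (2, 4), (2, 14), (3, 5), (3, 11), (3, 12)] }
  rep := [0, 3, 10, 7, 13, 2, 8, 15]

noncomputable def v1142 : Cov.CovD where
  P := 3
  N := 5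
  pl := [1, 2, 4, 7, 9]
  lev := [⟨[], [], [], [3], [(0, 0, [])]⟩,
    ⟨[], [(0, 0)], [], [3, 6], [(3, 0, [])]⟩,
    ⟨[(0, 1)], [(0, 0), (0, 1), (1, 0), (1, 1)], [(0, 0), (0, 1), (1, 1)], [2], [(0, 0,
      []), (3, 0, []), (5, 1, [5]), (6, 1, [5])]⟩,
    ⟨[(0, 2), (1, 2)], [(2, 0), (2, 1)], [(1, 1)], [4], [(5, 1, [5]), (6, 1, [5])]⟩,
    ⟨[(0, 2), (1, 2), (2, 3)], [(1, 0), (2, 0), (2, 1), (2, 5)], [(0, 5)], [2], [(3, 0,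
      []), (8, 5, [1])]⟩,
    ⟨[(2, 3)], [(2, 1), (3, 1)], [], [4, 7], [(6, 1, [5])]⟩]
  Ta := [((0, 1), 0, 3), ((0, 6), 0, 1), ((3, 2), 0, 6), ((3, 8), 0, 5), ((5, 4), 1, 2), ((5, 7),
    1, 4), ((6, 0), 1, 0), ((6, 9), 1, 7)]
  Tb := [((0, 1, 6), 0, 3, 1), ((1, 0, 2), 3, 0, 6), ((2, 1, 3), 6, 3, 0), ((3, 2, 8), 0, 6, 5),
    ((4, 5, 8), 2, 1, 5), ((5, 4, 7), 1, 2, 4), ((6, 0, 9), 1, 0, 7), ((7, 5, 9), 4, 1, 7),
    ((8, 3, 4), 5, 0, 2), ((9, 6, 7), 7, 1, 4)]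
  Tc := []
  Td := [((1, 5), (5, 4), 2), ((1, 5), (5, 7), 4), ((1, 5), (6, 0), 0), ((1, 5), (6, 9), 7), ((5,
    1), (8, 3), 0), ((5, 1), (8, 4), 2)]
  G := [[0, 0, 0x62a294c22258c9222c416, 0x2121c4821219842121942e, 0x722258132619842291582e], [0,
    0xcccaac681c1a168c161a4a6, 0xc252941c25294c29258a6, 0, 0xc292581c29158c192586c], [0, 0,
    0x6232c4225294c22294e1, 0x242822cd422c22c5822c22c94e1, 0x2292582252982252c8e1], [0, 0,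
    0xc29258c25294524928ce1, 0, 0xc29258c29258c29258e1]]

noncomputable def n1142 : Ent := ⟨e1142, noF, [], [], []⟩

def c1142 : PLift (Cov.check n1142.C.D v1142 = true) := ⟨by decide +kernel⟩

def b1142 : PLift (entF (fidx ts) 400 1142 n1142 = true) := ⟨by decide +kernel⟩

theorem g1142 : GoodF (fidx ts) 400 1142 := GoodF.ofV v1142 n1142 c1142.down b1142.down

/-- 459554:939/1 -/
noncomputable def e1143 : SCfg where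
  D := {
    a := 6
    L := 9
    kp := 6
    inn := [(0, 1), (0, 2), (1, 0), (1, 2), (2, 0), (2, 1), (2, 3), (2, 4), (2, 5), (3, 2), (4, 2), (4,
      5), (5, 2), (5, 4)]
    mix := [(0, 0), (0, 1), (1, 1), (1, 2), (1, 3), (2, 0), (2, 3), (2, 4), (2, 5), (3, 4), (3, 5), (3,
      6), (3, 7), (4, 2), (4, 3), (4, 8), (5, 4), (5, 8)]
    cl := [0, 2, 4, 0, 1, 1, 5, 6, 3]
    chq := [(0, 3), (3, 0)]
    rng := [(0, 1), (0, 5), (1, 0), (1, 2), (2, 1), (2, 3), (2, 8), (3, 2), (4, 6), (4, 8), (5, 0), (5,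
      7), (6, 4), (6, 7), (7, 5), (7, 6), (8, 2), (8, 4)]
    lev := [] }
  links := [[1, 2, 6, 7], [2, 0, 7, 8, 9], [6, 0, 1, 9, 4, 5, 10, 3, 11], [11, 2, 10, 12, 13], [5, 2, 9,
    8, 14], [10, 2, 4, 14]]
  P := {
    a := 6
    N := 15
    nb := [198, 901, 3707, 15364, 17188, 17428, 2181, 323, 17042, 278, 20524, 8268, 9224, 6152, 1328]
    tri := [(0, 1, 2), (0, 1, 7), (0, 2, 6), (0, 6, 7), (1, 2, 9), (1, 7, 8), (1, 8, 9), (2, 3, 10),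
      (2, 3, 11), (2, 4, 5), (2, 4, 9), (2, 5, 10), (2, 6, 11), (3, 10, 12), (3, 11, 13), (3, 12,
      13), (4, 5, 14), (4, 8, 9), (4, 8, 14), (5, 10, 14)]
    fin := [0, 0, 0, 3, 0, 0, 0, 7, 8, 0, 3, 3, 12, 13, 14]
    chd := [(0, 14)]
    steps := [(0, 1), (0, 2), (0, 5), (0, 6), (0, 9), (0, 4), (3, 10), (3, 11)] }
  rep := [0, 3, 7, 14, 8, 12, 13]

noncomputable def v1143 : Cov.CovD where
  P := 3
  N := 4
  pl := [1, 2, 6, 7]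
  lev := [⟨[], [], [], [2], [(0, 0, [3])]⟩,
    ⟨[], [(0, 0)], [], [2, 4], [(3, 0, [3])]⟩,
    ⟨[(0, 1)], [(0, 0), (0, 1), (1, 0), (1, 1)], [(0, 0), (0, 1), (1, 1)], [], [(0, 0,
      [3]), (3, 0, [3]), (4, 1, []), (5, 1, [])]⟩,
    ⟨[(0, 2), (1, 2)], [(2, 0), (2, 1)], [(1, 1)], [5, 6], [(4, 1, []), (5, 1, [])]⟩,
    ⟨[(0, 2), (1, 2), (2, 3)], [(1, 0), (2, 0), (2, 1), (2, 3)], [(0, 3)], [4], [(3, 0,
      [3]), (8, 3, [0])]⟩,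
    ⟨[(0, 2), (1, 2), (2, 3), (2, 4)], [(2, 0), (2, 1), (2, 3), (3, 1), (4, 0), (4, 1), (4,
      3)], [(1, 3)], [], [(4, 1, []), (8, 3, [0])]⟩]
  Ta := [((0, 1), 0, 2), ((0, 5), 0, 1), ((3, 2), 0, 4), ((4, 6), 1, 5), ((4, 8), 1, 3), ((5, 0),
    1, 0), ((5, 7), 1, 6)]
  Tb := [((0, 1, 5), 0, 2, 1), ((1, 0, 2), 2, 0, 4), ((2, 1, 3), 4, 2, 0), ((2, 1, 8), 4, 2, 3),
    ((2, 3, 8), 4, 0, 3), ((4, 6, 8), 1, 5, 3), ((5, 0, 7), 1, 0, 6), ((6, 4, 7), 5, 1, 6),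
    ((7, 5, 6), 6, 1, 5), ((8, 2, 4), 3, 4, 1)]
  Tc := []
  Td := [((0, 3), (0, 1), 2), ((0, 3), (0, 5), 1), ((0, 3), (3, 2), 4), ((3, 0), (8, 2), 4), ((3,
    0), (8, 4), 1)]
  G := [[0, 0, 0x818441c111cd81241a143d8e4, 0x44141e111ed81a8c14, 0x111e111e5111e8c12], [0,
    0x6161c1e2612116416cac8, 0x212121d4212121d8c2, 0x444121e11a221edc18,
    0x2184216111e111ed892], [0, 0, 0, 0x84a81a14ad4116116116d8c1,
    0x44411c1811cdc416816416d8a1], [0, 0, 0, 0x121e81a21ad42164165128cc8,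
    0x24422c1821cdc121212d8a1]]

noncomputable def n1143 : Ent := ⟨e1143, noF, [], [], []⟩

def c1143 : PLift (Cov.check n1143.C.D v1143 = true) := ⟨by decide +kernel⟩

def b1143 : PLift (entF (fidx ts) 400 1143 n1143 = true) := ⟨by decide +kernel⟩

theorem g1143 : GoodF (fidx ts) 400 1143 := GoodF.ofV v1143 n1143 c1143.down b1143.down

/-- 459554:939 -/
noncomputable def e1144 : SCfg where
  D := {
    a := 6
    L := 10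
    kp := 7
    inn := [(0, 1), (0, 2), (1, 0), (1, 2), (2, 0), (2, 1), (2, 3), (2, 4), (2, 5), (3, 2), (4, 2), (4,
      5), (5, 2), (5, 4)]
    mix := [(0, 0), (0, 1), (1, 1), (1, 2), (1, 3), (2, 0), (2, 3), (2, 4), (2, 5), (3, 4), (3, 5), (3,
      6), (3, 7), (4, 3), (4, 8), (4, 9), (5, 4), (5, 9)]
    cl := [0, 2, 4, 0, 1, 1, 5, 6, 7, 3]
    chq := [(0, 3), (3, 0)]
    rng := [(0, 1), (0, 5), (1, 0), (1, 2), (2, 1), (2, 3), (3, 2), (3, 8), (4, 6), (4, 9), (5, 0), (5,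
      7), (6, 4), (6, 7), (7, 5), (7, 6), (8, 3), (8, 9), (9, 4), (9, 8)]
    lev := [] }
  links := [[1, 2, 6, 7], [2, 0, 7, 8, 9], [6, 0, 1, 9, 4, 5, 10, 3, 11], [11, 2, 10, 12, 13], [5, 2, 9,
    14, 15], [10, 2, 4, 15]]
  P := {
    a := 6
    N := 16
    nb := [198, 901, 3707, 15364, 49700, 33812, 2181, 323, 642, 16662, 36908, 8268, 9224, 6152, 33296,
      17456]
    tri := [(0, 1, 2), (0, 1, 7), (0, 2, 6), (0, 6, 7), (1, 2, 9), (1, 7, 8), (1, 8, 9), (2, 3, 10),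
      (2, 3, 11), (2, 4, 5), (2, 4, 9), (2, 5, 10), (2, 6, 11), (3, 10, 12), (3, 11, 13), (3, 12,
      13), (4, 5, 15), (4, 9, 14), (4, 14, 15), (5, 10, 15)]
    fin := [0, 0, 0, 3, 0, 0, 0, 7, 8, 0, 3, 3, 12, 13, 14, 15]
    chd := [(0, 15)]
    steps := [(0, 1), (0, 2), (0, 4), (0, 5), (0, 6), (0, 9), (3, 10), (3, 11)] }
  rep := [0, 3, 7, 15, 8, 12, 13, 14]

noncomputable def v1144 : Cov.CovD where
  P := 3
  N := 5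
  pl := [1, 2, 6, 7, 8]
  lev := [⟨[], [], [], [2], [(0, 0, [3])]⟩,
    ⟨[], [(0, 0)], [], [2, 4], [(3, 0, [3])]⟩,
    ⟨[(0, 1)], [(0, 0), (0, 1), (1, 0), (1, 1)], [(0, 0), (0, 1), (1, 1)], [], [(0, 0,
      [3]), (3, 0, [3]), (4, 1, []), (5, 1, [])]⟩,
    ⟨[(0, 2), (1, 2)], [(2, 0), (2, 1)], [(1, 1)], [5, 6], [(4, 1, []), (5, 1, [])]⟩,
    ⟨[(0, 2), (1, 2), (2, 3)], [(1, 0), (2, 0), (2, 1), (2, 3)], [(0, 3)], [7], [(3, 0,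
      [3]), (9, 3, [0])]⟩,
    ⟨[(0, 2), (1, 2), (2, 3), (2, 4)], [(2, 0), (2, 1), (2, 3), (3, 1), (4, 0), (4, 1), (4,
      3)], [(1, 3)], [], [(4, 1, []), (9, 3, [0])]⟩]
  Ta := [((0, 1), 0, 2), ((0, 5), 0, 1), ((3, 2), 0, 4), ((3, 8), 0, 7), ((4, 6), 1, 5), ((4, 9),
    1, 3), ((5, 0), 1, 0), ((5, 7), 1, 6)]
  Tb := [((0, 1, 5), 0, 2, 1), ((1, 0, 2), 2, 0, 4), ((2, 1, 3), 4, 2, 0), ((3, 2, 8), 0, 4, 7),
    ((4, 6, 9), 1, 5, 3), ((5, 0, 7), 1, 0, 6), ((6, 4, 7), 5, 1, 6), ((7, 5, 6), 6, 1, 5),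
    ((8, 3, 9), 7, 0, 3), ((9, 4, 8), 3, 1, 7)]
  Tc := []
  Td := [((0, 3), (0, 1), 2), ((0, 3), (0, 5), 1), ((0, 3), (3, 2), 4), ((0, 3), (3, 8), 7), ((3,
    0), (9, 4), 1), ((3, 0), (9, 8), 7)]
  G := [[0, 0, 0x414c181c1dc143c1c1d888cc2, 0x444811e11a811edc18, 0x116141e141ed188c12], [0,
    0xc1a1c1e2c1c1c1e2c8, 0x21215218c212121d8c2, 0x144111e11a221edc18, 0x144221e81a111edc12],
    [0, 0, 0, 0x144811e11a811edc116141e14d8881a9cc1, 0x144111e81a811edc141e141e5111e8ca1],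
    [0, 0, 0, 0x144811e81a821edc14121e12cd81a129cc1, 0x144221e81a811edc116211e121ed288ca2]]

noncomputable def n1144 : Ent := ⟨e1144, noF, [], [], [(8, 14, [385746751338780685620664494392815470296102193487288376377176065, 0])]⟩

def c1144 : PLift (Cov.check n1144.C.D v1144 = true) := ⟨by decide +kernel⟩

def b1144 : PLift (entF (fidx ts) 400 1144 n1144 = true) := ⟨by decide +kernel⟩

theorem g1144 : GoodF (fidx ts) 400 1144 := GoodF.ofV v1144 n1144 c1144.down b1144.down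

/-- 486645:945 -/
noncomputable def e1145 : SCfg where
  D := {
    a := 6
    L := 11
    kp := 8
    inn := [(0, 1), (1, 0), (1, 2), (1, 3), (1, 4), (1, 5), (2, 1), (2, 3), (2, 4), (3, 1), (3, 2), (4,
      1), (4, 2), (5, 1)]
    mix := [(0, 0), (0, 1), (0, 2), (1, 0), (1, 2), (1, 3), (2, 4), (2, 5), (2, 6), (3, 2), (3, 4), (3,
      7), (3, 8), (4, 3), (4, 6), (5, 0), (5, 3), (5, 9), (5, 10)]
    cl := [0, 2, 1, 0, 1, 4, 3, 5, 6, 7, 8]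
    chq := [(0, 1), (0, 4), (1, 0), (4, 0)]
    rng := [(0, 1), (0, 10), (1, 0), (1, 2), (2, 1), (2, 7), (3, 6), (3, 9), (4, 5), (4, 8), (5, 4),
      (5, 6), (6, 3), (6, 5), (7, 2), (7, 8), (8, 4), (8, 7), (9, 3), (9, 10), (10, 0), (10, 9)]
    lev := [] }
  links := [[1, 6, 7, 8], [6, 0, 8, 3, 2, 4, 9, 5], [4, 1, 3, 10, 11, 12], [10, 2, 1, 8, 13, 14], [9, 1,
    2, 12], [6, 1, 9, 15, 16]]
  P := {
    a := 6
    N := 17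
    nb := [450, 893, 7194, 25862, 4614, 98882, 65699, 321, 8331, 36914, 18444, 5124, 2580, 16648,
      9224, 66080, 32864]
    tri := [(0, 1, 6), (0, 1, 8), (0, 6, 7), (0, 7, 8), (1, 2, 3), (1, 2, 4), (1, 3, 8), (1, 4, 9), (1,
      5, 6), (1, 5, 9), (2, 3, 10), (2, 4, 12), (2, 10, 11), (2, 11, 12), (3, 8, 13), (3, 10, 14),
      (3, 13, 14), (4, 9, 12), (5, 6, 16), (5, 9, 15), (5, 15, 16)]
    fin := [0, 0, 0, 3, 0, 0, 0, 7, 3, 0, 3, 11, 12, 13, 14, 15, 16]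
    chd := [(0, 3), (0, 11)]
    steps := [(0, 1), (0, 2), (0, 4), (0, 5), (0, 6), (0, 9), (3, 8), (3, 10)] }
  rep := [0, 3, 7, 12, 11, 13, 14, 15, 16]

noncomputable def v1145 : Cov.CovD where
  P := 3
  N := 6
  pl := [1, 6, 7, 8, 9, 10]
  lev := [⟨[], [], [(0, 1)], [2], [(0, 0, [1, 4]), (2, 1, [0])]⟩,
    ⟨[], [(0, 0), (0, 1)], [(0, 0), (0, 1)], [], [(0, 0, [1, 4]), (2, 1, [0]), (3, 0, [1,
      4])]⟩,
    ⟨[(0, 1)], [(1, 0), (1, 1), (1, 4)], [(1, 4)], [3], [(4, 1, [0]), (5, 4, [0])]⟩,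
    ⟨[(0, 1), (1, 2)], [(0, 1), (1, 0), (1, 1), (2, 1), (2, 4)], [(1, 1)], [5, 6], [(2, 1,
      [0]), (4, 1, [0])]⟩,
    ⟨[(0, 1), (1, 2), (1, 3), (2, 3)], [(1, 0), (1, 1), (2, 0), (2, 1), (2, 4)], [], [3],
      [(3, 0, [1, 4])]⟩,
    ⟨[(0, 1), (1, 2), (1, 3), (1, 4)], [(0, 0), (1, 0), (1, 1), (4, 0)], [(0, 0)], [7, 8],
      [(0, 0, [1, 4]), (3, 0, [1, 4])]⟩]
  Ta := [((0, 1), 0, 2), ((0, 10), 0, 8), ((2, 1), 1, 2), ((2, 7), 1, 5), ((3, 6), 0, 3), ((3,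
    9), 0, 7), ((4, 5), 1, 4), ((4, 8), 1, 6)]
  Tb := [((0, 1, 10), 0, 2, 8), ((1, 0, 2), 2, 0, 1), ((2, 1, 7), 1, 2, 5), ((3, 6, 9), 0, 3, 7),
    ((4, 5, 8), 1, 4, 6), ((5, 4, 6), 4, 1, 3), ((6, 3, 5), 3, 0, 4), ((7, 2, 8), 5, 1, 6),
    ((8, 4, 7), 6, 1, 5), ((9, 3, 10), 7, 0, 8), ((10, 0, 9), 8, 0, 7)]
  Tc := [(0, 1, 4)]
  Td := [((0, 1), (0, 1), 2), ((0, 1), (0, 10), 8), ((0, 1), (3, 6), 3), ((0, 1), (3, 9), 7),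
    ((0, 4), (0, 1), 2), ((0, 4), (0, 10), 8), ((0, 4), (3, 6), 3), ((0, 4), (3, 9), 7), ((1,
    0), (2, 1), 2), ((1, 0), (2, 7), 5), ((1, 0), (4, 5), 4), ((1, 0), (4, 8), 6), ((4, 0),
    (5, 4), 1), ((4, 0), (5, 6), 3)]
  G := [[0, 0x6acea2eeae16cc4168, 0x666ee66e8ed188a81c4, 0xe41e1e15666e4e4d788a81c4,
    0x44641e81e11ea4eaaa4acdbc8], [0, 0x22c21eece2ceccce168, 0x62ee6ee6d1e8a81c2, 0,
    0x41164ee6e2d5e11a11e8a8dc2], [0, 0x46641eeaa8aeeae1c8, 0,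
    0xe4e454843e814aca89e4aa84acdbc1, 0xe414448ce447a4a8e8de84a4e93c1], [0,
    0x666ee6ee6e188a81c4, 0, 0, 0x44464e2e4dee64de2a8e8d828ea4ee29dc1]]

noncomputable def n1145 : Ent := ⟨e1145, noF, [], [], []⟩

def c1145 : PLift (Cov.check n1145.C.D v1145 = true) := ⟨by decide +kernel⟩

def b1145 : PLift (entF (fidx ts) 400 1145 n1145 = true) := ⟨by decide +kernel⟩

theorem g1145 : GoodF (fidx ts) 400 1145 := GoodF.ofV v1145 n1145 c1145.down b1145.down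

/-- 486645:946 -/
noncomputable def e1146 : SCfg where
  D := {
    a := 6
    L := 11
    kp := 8
    inn := [(0, 1), (1, 0), (1, 2), (1, 3), (1, 4), (2, 1), (2, 3), (2, 4), (3, 1), (3, 2), (3, 5), (4,
      1), (4, 2), (5, 3)]
    mix := [(0, 0), (0, 1), (0, 2), (1, 0), (1, 2), (1, 3), (1, 4), (2, 5), (2, 6), (2, 7), (3, 2), (3,
      5), (3, 8), (4, 3), (4, 7), (5, 5), (5, 8), (5, 9), (5, 10)]
    cl := [2, 5, 0, 0, 6, 1, 4, 3, 1, 7, 8]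
    chq := [(0, 2), (0, 4), (2, 0), (4, 0)]
    rng := [(0, 1), (0, 4), (1, 0), (1, 2), (2, 1), (2, 8), (3, 4), (3, 7), (4, 0), (4, 3), (5, 6), (5,
      10), (6, 5), (6, 7), (7, 3), (7, 6), (8, 2), (8, 9), (9, 8), (9, 10), (10, 5), (10, 9)]
    lev := [] }
  links := [[1, 6, 7, 8], [6, 0, 8, 3, 2, 4, 9, 10], [4, 1, 3, 11, 12, 13], [11, 2, 1, 8, 14, 5], [9, 1,
    2, 13], [11, 3, 14, 15, 16]]
  P := {
    a := 6
    N := 17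
    nb := [450, 1885, 14362, 18726, 8710, 116744, 1155, 321, 16523, 9234, 578, 69676, 10244, 4628,
      33064, 81952, 34848]
    tri := [(0, 1, 6), (0, 1, 8), (0, 6, 7), (0, 7, 8), (1, 2, 3), (1, 2, 4), (1, 3, 8), (1, 4, 9), (1,
      6, 10), (1, 9, 10), (2, 3, 11), (2, 4, 13), (2, 11, 12), (2, 12, 13), (3, 5, 11), (3, 5,
      14), (3, 8, 14), (4, 9, 13), (5, 11, 16), (5, 14, 15), (5, 15, 16)]
    fin := [0, 0, 2, 2, 2, 5, 0, 7, 2, 2, 10, 5, 12, 13, 5, 15, 16]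
    chd := [(0, 2), (2, 12)]
    steps := [(0, 1), (0, 6), (2, 3), (2, 4), (2, 8), (2, 9), (5, 14), (5, 11)] }
  rep := [2, 5, 0, 13, 12, 7, 10, 15, 16]

noncomputable def v1146 : Cov.CovD where
  P := 3
  N := 6
  pl := [1, 4, 7, 9, 10]
  lev := [⟨[], [], [(0, 2)], [5], [(0, 2, [0]), (2, 0, [2, 4])]⟩,
    ⟨[], [(0, 0), (0, 2)], [(0, 0), (0, 2)], [6], [(0, 2, [0]), (2, 0, [2, 4]), (3, 0, [2,
      4])]⟩,
    ⟨[(0, 1)], [(1, 0), (1, 1), (1, 2), (1, 4)], [(1, 4)], [3], [(5, 1, []), (6, 4, [0])]⟩,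
    ⟨[(0, 1), (1, 2)], [(0, 0), (1, 0), (1, 1), (1, 2), (2, 0), (2, 1), (2, 4)], [(0, 1),
      (1, 1)], [], [(2, 0, [2, 4]), (5, 1, []), (8, 1, [])]⟩,
    ⟨[(0, 1), (1, 2), (1, 3), (2, 3)], [(1, 0), (1, 2), (2, 0), (2, 1), (2, 4)], [], [3],
      [(3, 0, [2, 4])]⟩,
    ⟨[(1, 3), (2, 3)], [(2, 1), (3, 0), (3, 1)], [(1, 1)], [7, 8], [(5, 1, []), (8, 1,
      [])]⟩]
  Ta := [((2, 1), 0, 5), ((2, 8), 0, 1), ((3, 4), 0, 6), ((3, 7), 0, 3), ((5, 6), 1, 4), ((5,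
    10), 1, 8), ((8, 2), 1, 0), ((8, 9), 1, 7)]
  Tb := [((0, 1, 4), 2, 5, 6), ((1, 0, 2), 5, 2, 0), ((2, 1, 8), 0, 5, 1), ((3, 4, 7), 0, 6, 3),
    ((4, 0, 3), 6, 2, 0), ((5, 6, 10), 1, 4, 8), ((6, 5, 7), 4, 1, 3), ((7, 3, 6), 3, 0, 4),
    ((8, 2, 9), 1, 0, 7), ((9, 8, 10), 7, 1, 8), ((10, 5, 9), 8, 1, 7)]
  Tc := [(0, 2, 4)]
  Td := [((0, 2), (2, 1), 5), ((0, 2), (2, 8), 1), ((0, 2), (3, 4), 6), ((0, 2), (3, 7), 3), ((0,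
    4), (2, 1), 5), ((0, 4), (2, 8), 1), ((0, 4), (3, 4), 6), ((0, 4), (3, 7), 3), ((2, 0),
    (0, 1), 5), ((2, 0), (0, 4), 6), ((4, 0), (6, 5), 1), ((4, 0), (6, 7), 3)]
  G := [[0, 0, 0xdd6812ddc418dda814e, 0xdd641dda81cdda41dda81cc, 0xdd641dda81adda41ddc41aa], [0,
    0xee621eea81cee621eea21cc, 0xddc812dda418dd6814e, 0xdd641d18d483c548dac1dda81cc,
    0xdd641dda81adda41ddc41aa], [0, 0, 0xdd6418dda814ddc412e, 0xd445488cd24d4298c85a85da8dc1,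
    0xd445488cd24dd84d48ddc8da1], [0, 0, 0xdda412ddc418d4c92c14e, 0xd44d843d48d883c1,
    0xd84d443d84d88d28da1]]

noncomputable def n1146 : Ent := ⟨e1146, noF, [], [], []⟩

def c1146 : PLift (Cov.check n1146.C.D v1146 = true) := ⟨by decide +kernel⟩

def b1146 : PLift (entF (fidx ts) 400 1146 n1146 = true) := ⟨by decide +kernel⟩

theorem g1146 : GoodF (fidx ts) 400 1146 := GoodF.ofV v1146 n1146 c1146.down b1146.down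

/-- 464945:947 -/
noncomputable def e1147 : SCfg where
  D := {
    a := 6
    L := 10
    kp := 7
    inn := [(0, 1), (0, 3), (1, 0), (1, 2), (1, 3), (2, 1), (2, 3), (3, 0), (3, 1), (3, 2), (3, 4), (3,
      5), (4, 3), (5, 3)]
    mix := [(0, 0), (0, 1), (1, 0), (1, 2), (1, 3), (2, 2), (2, 4), (3, 1), (3, 4), (3, 5), (3, 6), (4,
      5), (4, 6), (4, 7), (5, 4), (5, 6), (5, 8), (5, 9)]
    cl := [1, 0, 3, 4, 0, 2, 0, 5, 6, 7]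
    chq := [(1, 3), (3, 1)]
    rng := [(0, 1), (0, 3), (1, 0), (1, 5), (2, 3), (2, 4), (3, 0), (3, 2), (4, 2), (4, 9), (5, 1), (5,
      7), (6, 7), (6, 8), (7, 5), (7, 6), (8, 6), (8, 9), (9, 4), (9, 8)]
    lev := [] }
  links := [[1, 6, 7, 3], [6, 0, 3, 2, 8, 9], [8, 1, 3, 10], [10, 2, 1, 0, 7, 11, 4, 12, 5], [12, 3, 11,
    13], [10, 3, 12, 14, 15]]
  P := {
    a := 6
    N := 16
    nb := [202, 845, 1290, 7351, 14344, 54280, 643, 2121, 1542, 322, 33068, 8344, 24632, 6160, 36896,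
      17440]
    tri := [(0, 1, 3), (0, 1, 6), (0, 3, 7), (0, 6, 7), (1, 2, 3), (1, 2, 8), (1, 6, 9), (1, 8, 9), (2,
      3, 10), (2, 8, 10), (3, 4, 11), (3, 4, 12), (3, 5, 10), (3, 5, 12), (3, 7, 11), (4, 11, 13),
      (4, 12, 13), (5, 10, 15), (5, 12, 14), (5, 14, 15)]
    fin := [0, 0, 0, 3, 3, 3, 0, 3, 8, 9, 3, 11, 3, 13, 14, 15]
    chd := [(0, 8)]
    steps := [(0, 1), (0, 2), (0, 6), (3, 4), (3, 5), (3, 7), (3, 12), (3, 10)] }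
  rep := [3, 0, 11, 8, 9, 13, 14, 15]

noncomputable def v1147 : Cov.CovD where
  P := 3
  N := 5
  pl := [3, 5, 7, 8, 9]
  lev := [⟨[], [], [(0, 1)], [], [(0, 1, [3]), (1, 0, [])]⟩,
    ⟨[], [(0, 0), (0, 1), (0, 3)], [(1, 3)], [4], [(0, 1, [3]), (2, 3, [1])]⟩,
    ⟨[(0, 1)], [(1, 0), (1, 1), (1, 3)], [(0, 3)], [], [(2, 3, [1]), (4, 0, [])]⟩,
    ⟨[(0, 1), (0, 2), (1, 2)], [(0, 0), (0, 1), (1, 0), (1, 1), (1, 3), (2, 0), (2, 3)],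
      [(0, 0)], [2], [(1, 0, []), (4, 0, []), (6, 0, [])]⟩,
    ⟨[(0, 3), (1, 3), (2, 3)], [(3, 0)], [], [2, 5], [(6, 0, [])]⟩,
    ⟨[(0, 3), (1, 3), (2, 3), (3, 4)], [(2, 0), (3, 0), (4, 0)], [(0, 0)], [6, 7], [(4, 0,
      []), (6, 0, [])]⟩]
  Ta := [((1, 0), 0, 1), ((1, 5), 0, 2), ((4, 2), 0, 3), ((4, 9), 0, 7), ((6, 7), 0, 5), ((6, 8),
    0, 6)]
  Tb := [((0, 1, 3), 1, 0, 4), ((1, 0, 5), 0, 1, 2), ((2, 3, 4), 3, 4, 0), ((3, 0, 2), 4, 1, 3),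
    ((4, 2, 9), 0, 3, 7), ((5, 1, 7), 2, 0, 5), ((6, 7, 8), 0, 5, 6), ((7, 5, 6), 5, 2, 0),
    ((8, 6, 9), 6, 0, 7), ((9, 4, 8), 7, 0, 6)]
  Tc := []
  Td := [((1, 3), (0, 1), 0), ((1, 3), (0, 3), 4), ((3, 1), (2, 3), 4), ((3, 1), (2, 4), 0)]
  G := [[0, 0x6181c1e181e182e4, 0xeec21ee68264a8aac2d4, 0xe14241a1c1e142d8, 0xe128e181e182d4],
    [0, 0, 0, 0x6181c2e182e182d4, 0x6181a2e182e182d4], [0, 0, 0, 0x44eacc2164e8cc24eca8c1c9,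
    0x62e8aa122ecaa16ea88a2d4]]

noncomputable def n1147 : Ent := ⟨e1147, noF, [], [], []⟩

def c1147 : PLift (Cov.check n1147.C.D v1147 = true) := ⟨by decide +kernel⟩

def b1147 : PLift (entF (fidx ts) 400 1147 n1147 = true) := ⟨by decide +kernel⟩

theorem g1147 : GoodF (fidx ts) 400 1147 := GoodF.ofV v1147 n1147 c1147.down b1147.down

/-- 464945:948 -/
noncomputable def e1148 : SCfg where
  D := {
    a := 6
    L := 10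
    kp := 7
    inn := [(0, 1), (0, 3), (1, 0), (1, 2), (1, 3), (2, 1), (2, 3), (3, 0), (3, 1), (3, 2), (3, 4), (4,
      3), (4, 5), (5, 4)]
    mix := [(0, 0), (0, 1), (1, 0), (1, 2), (1, 3), (2, 2), (2, 4), (3, 1), (3, 4), (3, 5), (3, 6), (3,
      7), (4, 5), (4, 6), (5, 5), (5, 6), (5, 8), (5, 9)]
    cl := [2, 0, 3, 4, 0, 1, 1, 5, 6, 7]
    chq := [(2, 3), (3, 2)]
    rng := [(0, 1), (0, 3), (1, 0), (1, 5), (2, 3), (2, 4), (3, 0), (3, 2), (4, 2), (4, 7), (5, 1), (5,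
      8), (6, 7), (6, 9), (7, 4), (7, 6), (8, 5), (8, 9), (9, 6), (9, 8)]
    lev := [] }
  links := [[1, 6, 7, 3], [6, 0, 3, 2, 8, 9], [8, 1, 3, 10], [10, 2, 1, 0, 7, 11, 4, 12, 13], [12, 3, 11,
    5], [12, 4, 11, 14, 15]]
  P := {
    a := 6
    N := 16
    nb := [202, 845, 1290, 15511, 6184, 55312, 643, 2121, 1542, 322, 8460, 16568, 41016, 5128, 34848,
      20512]
    tri := [(0, 1, 3), (0, 1, 6), (0, 3, 7), (0, 6, 7), (1, 2, 3), (1, 2, 8), (1, 6, 9), (1, 8, 9), (2,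
      3, 10), (2, 8, 10), (3, 4, 11), (3, 4, 12), (3, 7, 11), (3, 10, 13), (3, 12, 13), (4, 5,
      11), (4, 5, 12), (5, 11, 14), (5, 12, 15), (5, 14, 15)]
    fin := [0, 0, 0, 3, 3, 5, 0, 3, 8, 9, 3, 5, 5, 13, 14, 15]
    chd := [(0, 8)]
    steps := [(0, 1), (0, 2), (0, 6), (3, 4), (3, 7), (3, 10), (5, 11), (5, 12)] }
  rep := [3, 5, 0, 8, 9, 13, 14, 15]

noncomputable def v1148 : Cov.CovD where
  P := 3
  N := 5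
  pl := [3, 7, 8, 9]
  lev := [⟨[], [], [(0, 2)], [], [(0, 2, [3]), (1, 0, [])]⟩,
    ⟨[], [(0, 0), (0, 2), (0, 3)], [(2, 3)], [4], [(0, 2, [3]), (2, 3, [2])]⟩,
    ⟨[(0, 1)], [(1, 0), (1, 2), (1, 3)], [(0, 3)], [], [(2, 3, [2]), (4, 0, [])]⟩,
    ⟨[(0, 1), (0, 2), (1, 2)], [(0, 0), (0, 1), (0, 2), (1, 0), (1, 1), (1, 2), (1, 3), (2,
      0), (2, 1), (2, 3)], [(0, 0), (0, 1), (1, 1)], [5], [(1, 0, []), (4, 0, []), (5, 1,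
      []), (6, 1, [])]⟩,
    ⟨[(0, 3), (1, 3), (2, 3)], [(3, 0), (3, 1)], [(1, 1)], [], [(5, 1, []), (6, 1, [])]⟩,
    ⟨[(3, 4)], [(3, 1), (4, 1)], [(1, 1)], [6, 7], [(5, 1, []), (6, 1, [])]⟩]
  Ta := [((1, 0), 0, 2), ((1, 5), 0, 1), ((4, 2), 0, 3), ((4, 7), 0, 5), ((5, 1), 1, 0), ((5, 8),
    1, 6), ((6, 7), 1, 5), ((6, 9), 1, 7)]
  Tb := [((0, 1, 3), 2, 0, 4), ((1, 0, 5), 0, 2, 1), ((2, 3, 4), 3, 4, 0), ((3, 0, 2), 4, 2, 3),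
    ((4, 2, 7), 0, 3, 5), ((5, 1, 8), 1, 0, 6), ((6, 7, 9), 1, 5, 7), ((7, 4, 6), 5, 0, 1),
    ((8, 5, 9), 6, 1, 7), ((9, 6, 8), 7, 1, 6)]
  Tc := []
  Td := [((2, 3), (0, 1), 0), ((2, 3), (0, 3), 4), ((3, 2), (2, 3), 4), ((3, 2), (2, 4), 0)]
  G := [[0, 0xe2e8c1e2e8a1e4e2c2d4, 0xd149cc1d1d8c1d4d8c1e2, 0xd1d1c14d4d8c1d1d1c29c,
    0xd1d8c2d4d1c43d4d1c18a], [0, 0, 0xd4945c1d1d1c1d4d8c1e2, 0xd1d8c14d4d8c2d1d8c29c,
    0xd4945c1d1945c1d1d1c4b2], [0, 0, 0, 0xd18d846d1d1c25d4d1c289, 0xd1d8c41d84d18cd4d1c2a9],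
    [0, 0, 0, 0xd4d8c2d1d8c25d4945c289, 0xd4945c2d1d1c439454d48c8a]]

noncomputable def n1148 : Ent := ⟨e1148, noF, [], [], []⟩

def c1148 : PLift (Cov.check n1148.C.D v1148 = true) := ⟨by decide +kernel⟩

def b1148 : PLift (entF (fidx ts) 400 1148 n1148 = true) := ⟨by decide +kernel⟩

theorem g1148 : GoodF (fidx ts) 400 1148 := GoodF.ofV v1148 n1148 c1148.down b1148.down

/-- 459646:949 -/
noncomputable def e1149 : SCfg where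
  D := {
    a := 6
    L := 11
    kp := 8
    inn := [(0, 1), (0, 2), (1, 0), (1, 2), (2, 0), (2, 1), (2, 3), (2, 5), (3, 2), (3, 4), (3, 5), (4,
      3), (4, 5), (5, 2), (5, 3), (5, 4)]
    mix := [(0, 0), (0, 1), (1, 1), (1, 2), (1, 3), (2, 0), (2, 3), (2, 4), (2, 5), (2, 6), (3, 6), (3,
      7), (3, 8), (4, 8), (4, 9), (5, 0), (5, 9), (5, 10)]
    cl := [0, 1, 6, 0, 7, 8, 0, 2, 4, 3, 5]
    chq := [(2, 3), (2, 5), (3, 2), (5, 2)]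
    rng := [(0, 1), (0, 10), (1, 0), (1, 2), (2, 1), (2, 3), (3, 2), (3, 4), (4, 3), (4, 5), (5, 4),
      (5, 6), (6, 5), (6, 7), (7, 6), (7, 8), (8, 7), (8, 9), (9, 8), (9, 10), (10, 0), (10, 9)]
    lev := [] }
  links := [[1, 2, 6, 7], [2, 0, 7, 8, 9], [6, 0, 1, 9, 10, 11, 12, 3, 5], [5, 2, 12, 13, 14, 4], [5, 3,
    14, 15], [6, 2, 3, 4, 15, 16]]
  P := {
    a := 6
    N := 17
    nb := [198, 901, 7787, 28724, 49192, 98396, 65701, 323, 642, 1286, 2564, 5124, 10252, 20488,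
      40984, 81968, 32864]
    tri := [(0, 1, 2), (0, 1, 7), (0, 2, 6), (0, 6, 7), (1, 2, 9), (1, 7, 8), (1, 8, 9), (2, 3, 5), (2,
      3, 12), (2, 5, 6), (2, 9, 10), (2, 10, 11), (2, 11, 12), (3, 4, 5), (3, 4, 14), (3, 12, 13),
      (3, 13, 14), (4, 5, 15), (4, 14, 15), (5, 6, 16), (5, 15, 16)]
    fin := [0, 0, 0, 3, 3, 3, 0, 7, 8, 0, 10, 11, 0, 3, 14, 15, 16]
    chd := [(3, 15), (3, 16)]
    steps := [(0, 1), (0, 2), (0, 6), (0, 9), (0, 12), (3, 4), (3, 5), (3, 13)] }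
  rep := [0, 7, 3, 15, 14, 16, 8, 10, 11]

noncomputable def v1149 : Cov.CovD where
  P := 3
  N := 6
  pl := [1, 2, 4, 5, 8]
  lev := [⟨[], [], [], [1], [(0, 0, [])]⟩,
    ⟨[], [(0, 0)], [], [1, 6], [(3, 0, [])]⟩,
    ⟨[(0, 1)], [(0, 0), (1, 0)], [(0, 0)], [7, 8], [(0, 0, []), (3, 0, []), (6, 0, [])]⟩,
    ⟨[(0, 2), (1, 2)], [(2, 0), (2, 2)], [(0, 2)], [4], [(6, 0, []), (7, 2, [3, 5])]⟩,
    ⟨[(2, 3)], [(3, 0), (3, 2), (3, 3)], [], [4], [(9, 3, [2])]⟩,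
    ⟨[(0, 2), (1, 2), (2, 3), (2, 4), (3, 4)], [(0, 0), (2, 0), (2, 3), (2, 5), (3, 0), (3,
      2), (3, 3), (3, 5), (4, 0), (4, 3), (4, 5)], [(0, 3), (0, 5), (3, 5)], [], [(0, 0, []),
      (9, 3, [2]), (10, 5, [2])]⟩]
  Ta := [((0, 1), 0, 1), ((0, 10), 0, 5), ((3, 2), 0, 6), ((3, 4), 0, 7), ((6, 5), 0, 8), ((6,
    7), 0, 2)]
  Tb := [((0, 1, 10), 0, 1, 5), ((1, 0, 2), 1, 0, 6), ((2, 1, 3), 6, 1, 0), ((3, 2, 4), 0, 6, 7),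
    ((4, 3, 5), 7, 0, 8), ((5, 4, 6), 8, 7, 0), ((6, 5, 7), 0, 8, 2), ((7, 6, 8), 2, 0, 4),
    ((8, 7, 9), 4, 2, 3), ((9, 8, 10), 3, 4, 5), ((10, 0, 9), 5, 0, 3)]
  Tc := [(2, 3, 5)]
  Td := [((2, 3), (7, 6), 0), ((2, 3), (7, 8), 4), ((2, 5), (7, 6), 0), ((2, 5), (7, 8), 4), ((3,
    2), (9, 8), 4), ((3, 2), (9, 10), 5), ((5, 2), (10, 0), 0), ((5, 2), (10, 9), 3)]
  G := [[0, 0x222d2a692122c2fc66232a6c229225c2da22ce25222d2a69c28ee4, 0,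
    0x222d26a526a2124d2c2b2c27ce18, 0x444b46c34a4dce3a46cc469e18], [0, 0, 0,
    0x229b2c421a2a694c21626a529a296ca623216c25a21c2dacc,
    0x49c346a4399eb4a44ae496c14646c341c4142ba14646c38cc], [0, 0, 0x11c11a611c116a11ae1ce18,
    0x2164229b2c342bd2ce1623881c, 0x645146a39c396a449d4ae14]]

noncomputable def n1149 : Ent := ⟨e1149, noF, [], [], []⟩

def c1149 : PLift (Cov.check n1149.C.D v1149 = true) := ⟨by decide +kernel⟩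

def b1149 : PLift (entF (fidx ts) 400 1149 n1149 = true) := ⟨by decide +kernel⟩

theorem g1149 : GoodF (fidx ts) 400 1149 := GoodF.ofV v1149 n1149 c1149.down b1149.down

/-- 464945:950 -/
noncomputable def e1150 : SCfg where
  D := {
    a := 6
    L := 10
    kp := 7
    inn := [(0, 1), (0, 3), (1, 0), (1, 2), (1, 3), (2, 1), (2, 3), (3, 0), (3, 1), (3, 2), (3, 4), (3,
      5), (4, 3), (5, 3)]
    mix := [(0, 0), (0, 1), (1, 0), (1, 2), (1, 3), (2, 2), (2, 4), (3, 1), (3, 4), (3, 5), (3, 6), (4,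
      1), (4, 5), (4, 7), (5, 5), (5, 6), (5, 8), (5, 9)]
    cl := [2, 0, 3, 4, 0, 1, 1, 5, 6, 7]
    chq := [(2, 3), (3, 2)]
    rng := [(0, 1), (0, 3), (1, 0), (1, 7), (2, 3), (2, 4), (3, 0), (3, 2), (4, 2), (4, 6), (5, 7), (5,
      8), (6, 4), (6, 9), (7, 1), (7, 5), (8, 5), (8, 9), (9, 6), (9, 8)]
    lev := [] }
  links := [[1, 6, 7, 3], [6, 0, 3, 2, 8, 9], [8, 1, 3, 10], [10, 2, 1, 0, 7, 4, 11, 5, 12], [11, 3, 7,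
    13], [12, 3, 11, 14, 15]]
  P := {
    a := 6
    N := 16
    nb := [202, 845, 1290, 7351, 10376, 55304, 643, 8281, 1542, 322, 4364, 24632, 33832, 2192, 34848,
      20512]
    tri := [(0, 1, 3), (0, 1, 6), (0, 3, 7), (0, 6, 7), (1, 2, 3), (1, 2, 8), (1, 6, 9), (1, 8, 9), (2,
      3, 10), (2, 8, 10), (3, 4, 7), (3, 4, 11), (3, 5, 11), (3, 5, 12), (3, 10, 12), (4, 7, 13),
      (4, 11, 13), (5, 11, 14), (5, 12, 15), (5, 14, 15)]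
    fin := [0, 0, 0, 3, 3, 5, 0, 3, 8, 9, 3, 5, 5, 13, 14, 15]
    chd := [(0, 8)]
    steps := [(0, 1), (0, 2), (0, 6), (3, 4), (3, 7), (3, 10), (5, 11), (5, 12)] }
  rep := [3, 5, 0, 8, 9, 13, 14, 15]

noncomputable def v1150 : Cov.CovD where
  P := 3
  N := 5
  pl := [3, 7, 8, 9]
  lev := [⟨[], [], [(0, 2)], [], [(0, 2, [3]), (1, 0, [])]⟩,
    ⟨[], [(0, 0), (0, 2), (0, 3)], [(2, 3)], [4], [(0, 2, [3]), (2, 3, [2])]⟩,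
    ⟨[(0, 1)], [(1, 0), (1, 2), (1, 3)], [(0, 3)], [], [(2, 3, [2]), (4, 0, [])]⟩,
    ⟨[(0, 1), (0, 2), (1, 2)], [(0, 0), (0, 1), (0, 2), (1, 0), (1, 1), (1, 2), (1, 3), (2,
      0), (2, 1), (2, 3)], [(0, 0), (0, 1), (1, 1)], [], [(1, 0, []), (4, 0, []), (5, 1, []),
      (6, 1, [])]⟩,
    ⟨[(0, 3), (1, 3), (2, 3)], [(0, 0), (3, 0), (3, 1)], [(0, 1)], [5], [(1, 0, []), (5, 1,
      [])]⟩,
    ⟨[(0, 3), (1, 3), (2, 3), (3, 4)], [(3, 0), (3, 1), (4, 1)], [(1, 1)], [6, 7], [(5, 1,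
      []), (6, 1, [])]⟩]
  Ta := [((1, 0), 0, 2), ((1, 7), 0, 5), ((4, 2), 0, 3), ((4, 6), 0, 1), ((5, 7), 1, 5), ((5, 8),
    1, 6), ((6, 4), 1, 0), ((6, 9), 1, 7)]
  Tb := [((0, 1, 3), 2, 0, 4), ((1, 0, 7), 0, 2, 5), ((2, 3, 4), 3, 4, 0), ((3, 0, 2), 4, 2, 3),
    ((4, 2, 6), 0, 3, 1), ((5, 7, 8), 1, 5, 6), ((6, 4, 9), 1, 0, 7), ((7, 1, 5), 5, 0, 1),
    ((8, 5, 9), 6, 1, 7), ((9, 6, 8), 7, 1, 6)]
  Tc := []
  Td := [((2, 3), (0, 1), 0), ((2, 3), (0, 3), 4), ((3, 2), (2, 3), 4), ((3, 2), (2, 4), 0)]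
  G := [[0, 0, 0x5dc81444d9cc1884144d9cc1e6, 0xd9c418842c44815dc825dc88c2dc,
    0x44d9cc144d9cc15dc88c4b2], [0, 0, 0xd241d284d281e2, 0xd2415282c2d242d8,
    0xd248d284d284b2], [0, 0, 0, 0x4191c2d182d182d4, 0xd148d184d184b2], [0,
    0xeec28ee682ee682d4, 0, 0xd2424292c2d242d8, 0xd2841d248d284a3]]

noncomputable def n1150 : Ent := ⟨e1150, noF, [], [], []⟩

def c1150 : PLift (Cov.check n1150.C.D v1150 = true) := ⟨by decide +kernel⟩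

def b1150 : PLift (entF (fidx ts) 400 1150 n1150 = true) := ⟨by decide +kernel⟩

theorem g1150 : GoodF (fidx ts) 400 1150 := GoodF.ofV v1150 n1150 c1150.down b1150.down

/-- 464945:951 -/
noncomputable def e1151 : SCfg where
  D := {
    a := 6
    L := 10
    kp := 7
    inn := [(0, 1), (0, 3), (1, 0), (1, 2), (1, 3), (2, 1), (2, 3), (3, 0), (3, 1), (3, 2), (3, 4), (3,
      5), (4, 3), (5, 3)]
    mix := [(0, 0), (0, 1), (1, 0), (1, 2), (1, 3), (2, 2), (2, 4), (3, 1), (3, 4), (3, 5), (3, 6), (4,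
      1), (4, 5), (4, 7), (5, 4), (5, 6), (5, 8), (5, 9)]
    cl := [1, 0, 3, 4, 0, 2, 0, 5, 6, 7]
    chq := [(1, 3), (3, 1)]
    rng := [(0, 1), (0, 3), (1, 0), (1, 7), (2, 3), (2, 4), (3, 0), (3, 2), (4, 2), (4, 9), (5, 6), (5,
      7), (6, 5), (6, 8), (7, 1), (7, 5), (8, 6), (8, 9), (9, 4), (9, 8)]
    lev := [] }
  links := [[1, 6, 7, 3], [6, 0, 3, 2, 8, 9], [8, 1, 3, 10], [10, 2, 1, 0, 7, 4, 11, 12, 5], [11, 3, 7,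
    13], [10, 3, 12, 14, 15]]
  P := {
    a := 6
    N := 16
    nb := [202, 845, 1290, 7351, 10376, 54280, 643, 8281, 1542, 322, 33068, 12312, 18472, 2192, 36896,
      17440]
    tri := [(0, 1, 3), (0, 1, 6), (0, 3, 7), (0, 6, 7), (1, 2, 3), (1, 2, 8), (1, 6, 9), (1, 8, 9), (2,
      3, 10), (2, 8, 10), (3, 4, 7), (3, 4, 11), (3, 5, 10), (3, 5, 12), (3, 11, 12), (4, 7, 13),
      (4, 11, 13), (5, 10, 15), (5, 12, 14), (5, 14, 15)]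
    fin := [0, 0, 0, 3, 3, 3, 0, 3, 8, 9, 3, 11, 3, 13, 14, 15]
    chd := [(0, 8)]
    steps := [(0, 1), (0, 2), (0, 6), (3, 4), (3, 5), (3, 7), (3, 12), (3, 10)] }
  rep := [3, 0, 11, 8, 9, 13, 14, 15]

noncomputable def v1151 : Cov.CovD where
  P := 3
  N := 5
  pl := [3, 5, 7, 8, 9]
  lev := [⟨[], [], [(0, 1)], [], [(0, 1, [3]), (1, 0, [])]⟩,
    ⟨[], [(0, 0), (0, 1), (0, 3)], [(1, 3)], [4], [(0, 1, [3]), (2, 3, [1])]⟩,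
    ⟨[(0, 1)], [(1, 0), (1, 1), (1, 3)], [(0, 3)], [], [(2, 3, [1]), (4, 0, [])]⟩,
    ⟨[(0, 1), (0, 2), (1, 2)], [(0, 0), (0, 1), (1, 0), (1, 1), (1, 3), (2, 0), (2, 3)],
      [(0, 0)], [2], [(1, 0, []), (4, 0, []), (6, 0, [])]⟩,
    ⟨[(0, 3), (1, 3), (2, 3)], [(0, 0), (3, 0)], [], [2, 5], [(1, 0, [])]⟩,
    ⟨[(0, 3), (1, 3), (2, 3), (3, 4)], [(2, 0), (3, 0)], [(0, 0)], [6, 7], [(4, 0, []), (6,
      0, [])]⟩]
  Ta := [((1, 0), 0, 1), ((1, 7), 0, 5), ((4, 2), 0, 3), ((4, 9), 0, 7), ((6, 5), 0, 2), ((6, 8),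
    0, 6)]
  Tb := [((0, 1, 3), 1, 0, 4), ((1, 0, 7), 0, 1, 5), ((2, 3, 4), 3, 4, 0), ((3, 0, 2), 4, 1, 3),
    ((4, 2, 9), 0, 3, 7), ((5, 6, 7), 2, 0, 5), ((6, 5, 8), 0, 2, 6), ((7, 1, 5), 5, 0, 2),
    ((8, 6, 9), 6, 0, 7), ((9, 4, 8), 7, 0, 6)]
  Tc := []
  Td := [((1, 3), (0, 1), 0), ((1, 3), (0, 3), 4), ((3, 1), (2, 3), 4), ((3, 1), (2, 4), 0)]
  G := [[0, 0xeac444896ec88845e4e8c1e2, 0, 0xeac42a84164e8cc2d44814ec82cc,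
    0xeca22289a2e4aa16ea88a2d4], [0, 0, 0, 0x6181c2e182e182d4, 0xe128e182e182d4], [0, 0,
    0xeec2868ee812cee82d4, 0x6181c1e182e182d4, 0xe121e121e182d4]]

noncomputable def n1151 : Ent := ⟨e1151, noF, [], [], []⟩

def c1151 : PLift (Cov.check n1151.C.D v1151 = true) := ⟨by decide +kernel⟩

def b1151 : PLift (entF (fidx ts) 400 1151 n1151 = true) := ⟨by decide +kernel⟩

theorem g1151 : GoodF (fidx ts) 400 1151 := GoodF.ofV v1151 n1151 c1151.down b1151.down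

/-- 464955:952/1 -/
noncomputable def e1152 : SCfg where
  D := {
    a := 6
    L := 10
    kp := 7
    inn := [(0, 1), (0, 3), (1, 0), (1, 2), (1, 3), (2, 1), (2, 3), (3, 0), (3, 1), (3, 2), (3, 4), (3,
      5), (4, 3), (5, 3)]
    mix := [(0, 0), (0, 1), (1, 0), (1, 2), (1, 3), (2, 2), (2, 4), (3, 1), (3, 4), (3, 5), (3, 6), (4,
      5), (4, 6), (4, 7), (4, 8), (5, 4), (5, 6), (5, 8), (5, 9)]
    cl := [3, 2, 1, 5, 0, 0, 0, 6, 4, 7]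
    chq := [(0, 3), (1, 3), (3, 0), (3, 1)]
    rng := [(0, 1), (0, 3), (1, 0), (1, 5), (2, 3), (2, 4), (3, 0), (3, 2), (4, 2), (4, 9), (5, 1), (5,
      7), (6, 8), (7, 5), (7, 8), (8, 6), (8, 7), (8, 9), (9, 4), (9, 8)]
    lev := [] }
  links := [[1, 6, 7, 3], [6, 0, 3, 2, 8, 9], [8, 1, 3, 10], [10, 2, 1, 0, 7, 11, 4, 12, 5], [12, 3, 11,
    13, 14], [10, 3, 12, 14, 15]]
  P := {
    a := 6
    N := 16
    nb := [202, 845, 1290, 7351, 30728, 54280, 643, 2121, 1542, 322, 33068, 8344, 16440, 18448, 45104,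
      17440]
    tri := [(0, 1, 3), (0, 1, 6), (0, 3, 7), (0, 6, 7), (1, 2, 3), (1, 2, 8), (1, 6, 9), (1, 8, 9), (2,
      3, 10), (2, 8, 10), (3, 4, 11), (3, 4, 12), (3, 5, 10), (3, 5, 12), (3, 7, 11), (4, 11, 13),
      (4, 12, 14), (4, 13, 14), (5, 10, 15), (5, 12, 14), (5, 14, 15)]
    fin := [0, 0, 0, 0, 4, 4, 0, 7, 8, 9, 4, 4, 4, 13, 14, 15]
    chd := [(0, 4), (0, 8)]
    steps := [(0, 1), (0, 2), (0, 3), (0, 6), (4, 11), (4, 12), (4, 5), (4, 10)] }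
  rep := [4, 8, 7, 0, 14, 9, 13, 15]

noncomputable def v1152 : Cov.CovD where
  P := 3
  N := 5
  pl := [1, 3, 7, 8, 9]
  lev := [⟨[], [], [], [2], [(0, 3, [0, 1])]⟩,
    ⟨[], [(0, 1), (0, 3)], [(1, 3)], [5], [(0, 3, [0, 1]), (2, 1, [3])]⟩,
    ⟨[(0, 1)], [(1, 0), (1, 1), (1, 3)], [(0, 1)], [], [(2, 1, [3]), (4, 0, [3])]⟩,
    ⟨[(0, 1), (0, 2), (1, 2)], [(0, 0), (0, 3), (1, 0), (1, 1), (1, 3), (2, 0), (2, 1)],
      [(0, 0)], [2], [(4, 0, [3]), (5, 0, [3]), (6, 0, [3])]⟩,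
    ⟨[(0, 3), (1, 3), (2, 3)], [(3, 0)], [(0, 0)], [4, 6], [(5, 0, [3]), (6, 0, [3])]⟩,
    ⟨[(0, 3), (1, 3), (2, 3), (3, 4)], [(2, 0), (3, 0), (4, 0)], [(0, 0)], [4, 7], [(4, 0,
      [3]), (6, 0, [3])]⟩]
  Ta := [((4, 2), 0, 1), ((4, 9), 0, 7), ((5, 1), 0, 2), ((5, 7), 0, 6), ((6, 8), 0, 4)]
  Tb := [((0, 1, 3), 3, 2, 5), ((1, 0, 5), 2, 3, 0), ((2, 3, 4), 1, 5, 0), ((3, 0, 2), 5, 3, 1),
    ((4, 2, 9), 0, 1, 7), ((5, 1, 7), 0, 2, 6), ((7, 5, 8), 6, 0, 4), ((8, 6, 7), 4, 0, 6),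
    ((8, 6, 9), 4, 0, 7), ((8, 7, 9), 4, 6, 7), ((9, 4, 8), 7, 0, 4)]
  Tc := [(3, 0, 1)]
  Td := [((0, 3), (4, 2), 1), ((0, 3), (4, 9), 7), ((0, 3), (5, 1), 2), ((0, 3), (5, 7), 6), ((0,
    3), (6, 8), 4), ((1, 3), (2, 3), 5), ((1, 3), (2, 4), 0), ((3, 0), (0, 1), 2), ((3, 0),
    (0, 3), 5), ((3, 1), (0, 1), 2), ((3, 1), (0, 3), 5)]
  G := [[0, 0xeaee4448c6eee88c2ee6e8c2e1, 0, 0xeaee4448c8846eee8c4eeea8c4d1,
    0xeece2228c22eecea86ea8eca4d1], [0, 0, 0x64e8eec12eeec8a464e8eec8d2,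
    0xeaee4448c6eee88c1666e88ec8d1, 0x22eecea462a8ecea1e2eeca4d1], [0, 0, 0,
    0xeaee41844844e4eaaac14eeea8c4d9, 0xee684122eecea4e2eeca1e828d3]]

noncomputable def n1152 : Ent := ⟨e1152, noF, [], [], []⟩

def c1152 : PLift (Cov.check n1152.C.D v1152 = true) := ⟨by decide +kernel⟩

def b1152 : PLift (entF (fidx ts) 400 1152 n1152 = true) := ⟨by decide +kernel⟩

theorem g1152 : GoodF (fidx ts) 400 1152 := GoodF.ofV v1152 n1152 c1152.down b1152.down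

/-- 464955:952 -/
noncomputable def e1153 : SCfg where
  D := {
    a := 6
    L := 11
    kp := 8
    inn := [(0, 1), (0, 3), (1, 0), (1, 2), (1, 3), (2, 1), (2, 3), (3, 0), (3, 1), (3, 2), (3, 4), (3,
      5), (4, 3), (5, 3)]
    mix := [(0, 0), (0, 1), (1, 0), (1, 2), (1, 3), (2, 2), (2, 4), (3, 1), (3, 4), (3, 5), (3, 6), (4,
      5), (4, 6), (4, 7), (4, 8), (5, 4), (5, 6), (5, 9), (5, 10)]
    cl := [3, 2, 1, 4, 0, 0, 0, 5, 6, 7, 8]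
    chq := [(0, 3), (1, 3), (3, 0), (3, 1)]
    rng := [(0, 1), (0, 3), (1, 0), (1, 5), (2, 3), (2, 4), (3, 0), (3, 2), (4, 2), (4, 10), (5, 1),
      (5, 7), (6, 8), (6, 9), (7, 5), (7, 8), (8, 6), (8, 7), (9, 6), (9, 10), (10, 4), (10, 9)]
    lev := [] }
  links := [[1, 6, 7, 3], [6, 0, 3, 2, 8, 9], [8, 1, 3, 10], [10, 2, 1, 0, 7, 11, 4, 12, 5], [12, 3, 11,
    13, 14], [10, 3, 12, 15, 16]]
  P := {
    a := 6
    N := 17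
    nb := [202, 845, 1290, 7351, 30728, 103432, 643, 2121, 1542, 322, 65836, 8344, 49208, 18448,
      12304, 69664, 33824]
    tri := [(0, 1, 3), (0, 1, 6), (0, 3, 7), (0, 6, 7), (1, 2, 3), (1, 2, 8), (1, 6, 9), (1, 8, 9), (2,
      3, 10), (2, 8, 10), (3, 4, 11), (3, 4, 12), (3, 5, 10), (3, 5, 12), (3, 7, 11), (4, 11, 13),
      (4, 12, 14), (4, 13, 14), (5, 10, 16), (5, 12, 15), (5, 15, 16)]
    fin := [0, 0, 0, 0, 4, 4, 0, 7, 8, 9, 4, 4, 4, 13, 14, 15, 16]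
    chd := [(0, 4), (0, 8)]
    steps := [(0, 1), (0, 2), (0, 3), (0, 6), (4, 11), (4, 12), (4, 5), (4, 10)] }
  rep := [4, 8, 7, 0, 9, 13, 14, 15, 16]

noncomputable def v1153 : Cov.CovD where
  P := 3
  N := 6
  pl := [1, 3, 7, 8, 9, 10]
  lev := [⟨[], [], [], [2], [(0, 3, [0, 1])]⟩,
    ⟨[], [(0, 1), (0, 3)], [(1, 3)], [4], [(0, 3, [0, 1]), (2, 1, [3])]⟩,
    ⟨[(0, 1)], [(1, 0), (1, 1), (1, 3)], [(0, 1)], [], [(2, 1, [3]), (4, 0, [3])]⟩,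
    ⟨[(0, 1), (0, 2), (1, 2)], [(0, 0), (0, 3), (1, 0), (1, 1), (1, 3), (2, 0), (2, 1)],
      [(0, 0)], [2], [(4, 0, [3]), (5, 0, [3]), (6, 0, [3])]⟩,
    ⟨[(0, 3), (1, 3), (2, 3)], [(3, 0)], [(0, 0)], [5, 6], [(5, 0, [3]), (6, 0, [3])]⟩,
    ⟨[(0, 3), (1, 3), (2, 3), (3, 4)], [(2, 0), (3, 0), (4, 0)], [(0, 0)], [7, 8], [(4, 0,
      [3]), (6, 0, [3])]⟩]
  Ta := [((4, 2), 0, 1), ((4, 10), 0, 8), ((5, 1), 0, 2), ((5, 7), 0, 5), ((6, 8), 0, 6), ((6,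
    9), 0, 7)]
  Tb := [((0, 1, 3), 3, 2, 4), ((1, 0, 5), 2, 3, 0), ((2, 3, 4), 1, 4, 0), ((3, 0, 2), 4, 3, 1),
    ((4, 2, 10), 0, 1, 8), ((5, 1, 7), 0, 2, 5), ((6, 8, 9), 0, 6, 7), ((7, 5, 8), 5, 0, 6),
    ((8, 6, 7), 6, 0, 5), ((9, 6, 10), 7, 0, 8), ((10, 4, 9), 8, 0, 7)]
  Tc := [(3, 0, 1)]
  Td := [((0, 3), (4, 2), 1), ((0, 3), (4, 10), 8), ((0, 3), (5, 1), 2), ((0, 3), (5, 7), 5),
    ((0, 3), (6, 8), 6), ((0, 3), (6, 9), 7), ((1, 3), (2, 3), 4), ((1, 3), (2, 4), 0), ((3,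
    0), (0, 1), 2), ((3, 0), (0, 3), 4), ((3, 1), (0, 1), 2), ((3, 1), (0, 3), 4)]
  G := [[0, 0x666e88ec24eeea8c24eeea8c4e1, 0, 0xeaee4448ca844eee8c64e8eec8d1,
    0x6eee88a46eee84522eecea4882893], [0, 0, 0xe8ee4648c6eee88a464e8eec8d2,
    0xe8ae46468c4e4eaaac16eee88c4d1, 0xeece2182281ee6816eee88a4de8284b], [0, 0, 0,
    0x44eaeec16eee88c16eee88c4d1, 0x6eee88a41eece2228922eecea8c3]]

noncomputable def n1153 : Ent := ⟨e1153, noF, [], [], [(14, 15, [1685356702439545624007900436039642273970977273354372543760004808705, 0])]⟩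

def c1153 : PLift (Cov.check n1153.C.D v1153 = true) := ⟨by decide +kernel⟩

def b1153 : PLift (entF (fidx ts) 400 1153 n1153 = true) := ⟨by decide +kernel⟩

theorem g1153 : GoodF (fidx ts) 400 1153 := GoodF.ofV v1153 n1153 c1153.down b1153.down

/-- 464954:953 -/
noncomputable def e1154 : SCfg where
  D := {
    a := 6
    L := 10
    kp := 7
    inn := [(0, 1), (0, 3), (1, 0), (1, 2), (1, 3), (2, 1), (2, 3), (3, 0), (3, 1), (3, 2), (3, 4), (4,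
      3), (4, 5), (5, 4)]
    mix := [(0, 0), (0, 1), (1, 0), (1, 2), (1, 3), (2, 2), (2, 4), (3, 1), (3, 4), (3, 5), (3, 6), (3,
      7), (4, 5), (4, 6), (4, 8), (5, 5), (5, 8), (5, 9)]
    cl := [2, 0, 3, 5, 0, 1, 1, 6, 4, 7]
    chq := [(2, 3), (3, 2)]
    rng := [(0, 1), (0, 3), (1, 0), (1, 5), (2, 3), (2, 4), (3, 0), (3, 2), (4, 2), (4, 7), (5, 1), (5,
      9), (6, 7), (6, 8), (7, 4), (7, 6), (8, 6), (8, 9), (9, 5), (9, 8)]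
    lev := [] }
  links := [[1, 6, 7, 3], [6, 0, 3, 2, 8, 9], [8, 1, 3, 10], [10, 2, 1, 0, 7, 11, 4, 12, 13], [12, 3, 11,
    5, 14], [14, 4, 11, 15]]
  P := {
    a := 6
    N := 16
    nb := [202, 845, 1290, 15511, 22568, 51216, 643, 2121, 1542, 322, 8460, 32952, 24600, 5128, 36912,
      18464]
    tri := [(0, 1, 3), (0, 1, 6), (0, 3, 7), (0, 6, 7), (1, 2, 3), (1, 2, 8), (1, 6, 9), (1, 8, 9), (2,
      3, 10), (2, 8, 10), (3, 4, 11), (3, 4, 12), (3, 7, 11), (3, 10, 13), (3, 12, 13), (4, 5,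
      11), (4, 5, 14), (4, 12, 14), (5, 11, 15), (5, 14, 15)]
    fin := [0, 0, 0, 3, 4, 4, 0, 3, 8, 9, 3, 4, 4, 13, 14, 15]
    chd := [(0, 8)]
    steps := [(0, 1), (0, 2), (0, 6), (3, 7), (3, 10), (4, 5), (4, 11), (4, 12)] }
  rep := [3, 4, 0, 8, 14, 9, 13, 15]

noncomputable def v1154 : Cov.CovD where
  P := 3
  N := 5
  pl := [3, 7, 8, 9]
  lev := [⟨[], [], [(0, 2)], [], [(0, 2, [3]), (1, 0, [])]⟩,
    ⟨[], [(0, 0), (0, 2), (0, 3)], [(2, 3)], [5], [(0, 2, [3]), (2, 3, [2])]⟩,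
    ⟨[(0, 1)], [(1, 0), (1, 2), (1, 3)], [(0, 3)], [], [(2, 3, [2]), (4, 0, [])]⟩,
    ⟨[(0, 1), (0, 2), (1, 2)], [(0, 0), (0, 1), (0, 2), (1, 0), (1, 1), (1, 2), (1, 3), (2,
      0), (2, 1), (2, 3)], [(0, 0), (0, 1), (1, 1)], [6], [(1, 0, []), (4, 0, []), (5, 1,
      []), (6, 1, [])]⟩,
    ⟨[(0, 3), (1, 3), (2, 3)], [(3, 0), (3, 1)], [(1, 1)], [4], [(5, 1, []), (6, 1, [])]⟩,
    ⟨[(3, 4)], [(3, 1), (4, 1)], [], [4, 7], [(5, 1, [])]⟩]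
  Ta := [((1, 0), 0, 2), ((1, 5), 0, 1), ((4, 2), 0, 3), ((4, 7), 0, 6), ((5, 1), 1, 0), ((5, 9),
    1, 7), ((6, 7), 1, 6), ((6, 8), 1, 4)]
  Tb := [((0, 1, 3), 2, 0, 5), ((1, 0, 5), 0, 2, 1), ((2, 3, 4), 3, 5, 0), ((3, 0, 2), 5, 2, 3),
    ((4, 2, 7), 0, 3, 6), ((5, 1, 9), 1, 0, 7), ((6, 7, 8), 1, 6, 4), ((7, 4, 6), 6, 0, 1),
    ((8, 6, 9), 4, 1, 7), ((9, 5, 8), 7, 1, 4)]
  Tc := []
  Td := [((2, 3), (0, 1), 0), ((2, 3), (0, 3), 5), ((3, 2), (2, 3), 5), ((3, 2), (2, 4), 0)]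
  G := [[0, 0xc6aa6c61ca6a6ca4ca6c6ac2d8, 0xc95c59c1c95c59c16c95c59c18a,
    0xc95c59c24c95c59c1c95c59c29c, 0xc95c59c1c95c59c1c95c59c4b2], [0, 0,
    0x295b29c1295259c16a65295c18a, 0x295c29c24c25259c2725a69c29c,
    0xc25b25c1c25a3cc1295259c4b2], [0, 0, 0, 0xc95c59c24c95c59c2c95c59c29c,
    0xc95c59c22c594c958cc95c59c49a], [0, 0, 0, 0x635259c21c2592cc2259259c2c5,
    0x29542958c729259c4936c295c223]]

noncomputable def n1154 : Ent := ⟨e1154, noF, [], [], []⟩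

def c1154 : PLift (Cov.check n1154.C.D v1154 = true) := ⟨by decide +kernel⟩

def b1154 : PLift (entF (fidx ts) 400 1154 n1154 = true) := ⟨by decide +kernel⟩

theorem g1154 : GoodF (fidx ts) 400 1154 := GoodF.ofV v1154 n1154 c1154.down b1154.down

/-- 464954:954 -/
noncomputable def e1155 : SCfg where
  D := {
    a := 6
    L := 10
    kp := 7
    inn := [(0, 1), (0, 3), (1, 0), (1, 2), (1, 3), (2, 1), (2, 3), (3, 0), (3, 1), (3, 2), (3, 4), (4,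
      3), (4, 5), (5, 4)]
    mix := [(0, 0), (0, 1), (1, 0), (1, 2), (1, 3), (2, 2), (2, 4), (3, 1), (3, 4), (3, 5), (3, 6), (3,
      7), (4, 5), (4, 6), (4, 8), (5, 6), (5, 8), (5, 9)]
    cl := [2, 0, 3, 5, 0, 1, 1, 6, 4, 7]
    chq := [(2, 3), (3, 2)]
    rng := [(0, 1), (0, 3), (1, 0), (1, 5), (2, 3), (2, 4), (3, 0), (3, 2), (4, 2), (4, 7), (5, 1), (5,
      8), (6, 7), (6, 9), (7, 4), (7, 6), (8, 5), (8, 9), (9, 6), (9, 8)]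
    lev := [] }
  links := [[1, 6, 7, 3], [6, 0, 3, 2, 8, 9], [8, 1, 3, 10], [10, 2, 1, 0, 7, 11, 4, 12, 13], [12, 3, 11,
    14, 5], [12, 4, 14, 15]]
  P := {
    a := 6
    N := 16
    nb := [202, 845, 1290, 15511, 22568, 53264, 643, 2121, 1542, 322, 8460, 16536, 41016, 5128, 34864,
      20512]
    tri := [(0, 1, 3), (0, 1, 6), (0, 3, 7), (0, 6, 7), (1, 2, 3), (1, 2, 8), (1, 6, 9), (1, 8, 9), (2,
      3, 10), (2, 8, 10), (3, 4, 11), (3, 4, 12), (3, 7, 11), (3, 10, 13), (3, 12, 13), (4, 5,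
      12), (4, 5, 14), (4, 11, 14), (5, 12, 15), (5, 14, 15)]
    fin := [0, 0, 0, 3, 4, 4, 0, 3, 8, 9, 3, 4, 4, 13, 14, 15]
    chd := [(0, 8)]
    steps := [(0, 1), (0, 2), (0, 6), (3, 7), (3, 10), (4, 5), (4, 11), (4, 12)] }
  rep := [3, 4, 0, 8, 14, 9, 13, 15]

noncomputable def v1155 : Cov.CovD where
  P := 3
  N := 5
  pl := [3, 7, 8, 9]
  lev := [⟨[], [], [(0, 2)], [], [(0, 2, [3]), (1, 0, [])]⟩,
    ⟨[], [(0, 0), (0, 2), (0, 3)], [(2, 3)], [5], [(0, 2, [3]), (2, 3, [2])]⟩,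
    ⟨[(0, 1)], [(1, 0), (1, 2), (1, 3)], [(0, 3)], [], [(2, 3, [2]), (4, 0, [])]⟩,
    ⟨[(0, 1), (0, 2), (1, 2)], [(0, 0), (0, 1), (0, 2), (1, 0), (1, 1), (1, 2), (1, 3), (2,
      0), (2, 1), (2, 3)], [(0, 0), (0, 1), (1, 1)], [6], [(1, 0, []), (4, 0, []), (5, 1,
      []), (6, 1, [])]⟩,
    ⟨[(0, 3), (1, 3), (2, 3)], [(3, 0), (3, 1)], [(1, 1)], [4], [(5, 1, []), (6, 1, [])]⟩,
    ⟨[(3, 4)], [(3, 1), (4, 1)], [], [4, 7], [(6, 1, [])]⟩]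
  Ta := [((1, 0), 0, 2), ((1, 5), 0, 1), ((4, 2), 0, 3), ((4, 7), 0, 6), ((5, 1), 1, 0), ((5, 8),
    1, 4), ((6, 7), 1, 6), ((6, 9), 1, 7)]
  Tb := [((0, 1, 3), 2, 0, 5), ((1, 0, 5), 0, 2, 1), ((2, 3, 4), 3, 5, 0), ((3, 0, 2), 5, 2, 3),
    ((4, 2, 7), 0, 3, 6), ((5, 1, 8), 1, 0, 4), ((6, 7, 9), 1, 6, 7), ((7, 4, 6), 6, 0, 1),
    ((8, 5, 9), 4, 1, 7), ((9, 6, 8), 7, 1, 4)]
  Tc := []
  Td := [((2, 3), (0, 1), 0), ((2, 3), (0, 3), 5), ((3, 2), (2, 3), 5), ((3, 2), (2, 4), 0)]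
  G := [[0, 0x141218e111a11ca1141218e2d4, 0x2594c25896a9259c1259259c1e2,
    0x295c29c1a35482dc256a5259c18c, 0xc2592cc1c25c29c1295c29c4b2], [0, 0,
    0xc95c59c1c95c59c1c95c59c1e2, 0xc95c59c14c95c59c1c95c59c29c,
    0xc594c958cc95c59c1c95c59c4b2], [0, 0, 0, 0x295a39c2295639c29259c29c245,
    0x295a3cc2295259c43c294a358c8a], [0, 0, 0, 0xc95c59c2c95c59c29c95c59c245,
    0xc95c59c22c594c958cc95c59c49a]]

noncomputable def n1155 : Ent := ⟨e1155, noF, [], [], []⟩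

def c1155 : PLift (Cov.check n1155.C.D v1155 = true) := ⟨by decide +kernel⟩

def b1155 : PLift (entF (fidx ts) 400 1155 n1155 = true) := ⟨by decide +kernel⟩

theorem g1155 : GoodF (fidx ts) 400 1155 := GoodF.ofV v1155 n1155 c1155.down b1155.down

/-- 464954:956/1 -/
noncomputable def e1156 : SCfg where
  D := {
    a := 6
    L := 9
    kp := 6
    inn := [(0, 1), (0, 3), (1, 0), (1, 2), (1, 3), (2, 1), (2, 3), (3, 0), (3, 1), (3, 2), (3, 4), (4,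
      3), (4, 5), (5, 4)]
    mix := [(0, 0), (0, 1), (1, 0), (1, 2), (1, 3), (2, 2), (2, 4), (3, 1), (3, 4), (3, 5), (3, 6), (3,
      7), (4, 1), (4, 5), (4, 8), (5, 0), (5, 1), (5, 8)]
    cl := [1, 0, 2, 4, 0, 0, 5, 6, 3]
    chq := [(1, 2), (2, 1)]
    rng := [(0, 1), (0, 3), (0, 8), (1, 0), (2, 3), (2, 4), (3, 0), (3, 2), (4, 2), (4, 7), (5, 6), (5,
      8), (6, 5), (6, 7), (7, 4), (7, 6), (8, 0), (8, 5)]
    lev := [] }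
  links := [[1, 6, 7, 3], [6, 0, 3, 2, 8, 9], [8, 1, 3, 10], [10, 2, 1, 0, 7, 4, 11, 12, 13], [11, 3, 7,
    5, 14], [14, 4, 7, 6]]
  P := {
    a := 6
    N := 15
    nb := [202, 845, 1290, 15511, 18600, 16592, 17059, 121, 1542, 322, 8460, 20504, 10248, 5128, 2160]
    tri := [(0, 1, 3), (0, 1, 6), (0, 3, 7), (0, 6, 7), (1, 2, 3), (1, 2, 8), (1, 6, 9), (1, 8, 9), (2,
      3, 10), (2, 8, 10), (3, 4, 7), (3, 4, 11), (3, 10, 13), (3, 11, 12), (3, 12, 13), (4, 5, 7),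
      (4, 5, 14), (4, 11, 14), (5, 6, 7), (5, 6, 14)]
    fin := [0, 0, 0, 3, 0, 0, 0, 3, 8, 9, 3, 3, 12, 13, 14]
    chd := [(0, 8)]
    steps := [(0, 1), (0, 2), (0, 6), (0, 5), (3, 7), (0, 4), (3, 11), (3, 10)] }
  rep := [3, 0, 8, 14, 9, 12, 13]

noncomputable def v1156 : Cov.CovD where
  P := 3
  N := 4
  pl := [3, 6, 7, 8]
  lev := [⟨[], [], [(0, 1)], [], [(0, 1, [2]), (1, 0, [])]⟩,
    ⟨[], [(0, 0), (0, 1), (0, 2)], [(1, 2)], [4], [(0, 1, [2]), (2, 2, [1])]⟩,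
    ⟨[(0, 1)], [(1, 0), (1, 1), (1, 2)], [(0, 2)], [], [(2, 2, [1]), (4, 0, [])]⟩,
    ⟨[(0, 1), (0, 2), (1, 2)], [(0, 0), (0, 1), (1, 0), (1, 1), (1, 2), (2, 0), (2, 2)],
      [(0, 0)], [5, 6], [(1, 0, []), (4, 0, []), (5, 0, [])]⟩,
    ⟨[(0, 3), (1, 3), (2, 3)], [(0, 0), (3, 0)], [(0, 0)], [3], [(1, 0, []), (5, 0, [])]⟩,
    ⟨[(3, 4)], [(0, 0), (0, 1), (1, 1), (3, 0), (4, 0), (4, 1)], [(0, 1)], [3], [(0, 1,
      [2]), (1, 0, [])]⟩]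
  Ta := [((1, 0), 0, 1), ((4, 2), 0, 2), ((4, 7), 0, 6), ((5, 6), 0, 5), ((5, 8), 0, 3)]
  Tb := [((0, 1, 3), 1, 0, 4), ((0, 1, 8), 1, 0, 3), ((0, 3, 8), 1, 4, 3), ((2, 3, 4), 2, 4, 0),
    ((3, 0, 2), 4, 1, 2), ((4, 2, 7), 0, 2, 6), ((5, 6, 8), 0, 5, 3), ((6, 5, 7), 5, 0, 6),
    ((7, 4, 6), 6, 0, 5), ((8, 0, 5), 3, 1, 0)]
  Tc := []
  Td := [((1, 2), (0, 1), 0), ((1, 2), (0, 3), 4), ((1, 2), (0, 8), 3), ((2, 1), (2, 3), 4), ((2,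
    1), (2, 4), 0)]
  G := [[0, 0x82682a24ce448682a82ce1c2, 0, 0xc2c2648689c284ac2e894, 0x48684a84ce148684a84ce294],
    [0, 0, 0x81611a11ce2414a481614aac8c, 0x12126128a121212e894, 0x11611a81ce211681a11ce894],
    [0, 0, 0, 0xc2c2c2e4c224a486e1c1, 0x48614a81ce141681a416e894]]

noncomputable def n1156 : Ent := ⟨e1156, noF, [], [], []⟩

def c1156 : PLift (Cov.check n1156.C.D v1156 = true) := ⟨by decide +kernel⟩

def b1156 : PLift (entF (fidx ts) 400 1156 n1156 = true) := ⟨by decide +kernel⟩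

theorem g1156 : GoodF (fidx ts) 400 1156 := GoodF.ofV v1156 n1156 c1156.down b1156.down

/-- 464954:956 -/
noncomputable def e1157 : SCfg where
  D := {
    a := 6
    L := 10
    kp := 7
    inn := [(0, 1), (0, 3), (1, 0), (1, 2), (1, 3), (2, 1), (2, 3), (3, 0), (3, 1), (3, 2), (3, 4), (4,
      3), (4, 5), (5, 4)]
    mix := [(0, 0), (0, 1), (1, 0), (1, 2), (1, 3), (2, 2), (2, 4), (3, 1), (3, 4), (3, 5), (3, 6), (3,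
      7), (4, 1), (4, 5), (4, 8), (5, 1), (5, 8), (5, 9)]
    cl := [1, 0, 2, 4, 0, 0, 5, 6, 3, 7]
    chq := [(1, 2), (2, 1)]
    rng := [(0, 1), (0, 3), (1, 0), (1, 9), (2, 3), (2, 4), (3, 0), (3, 2), (4, 2), (4, 7), (5, 6), (5,
      8), (6, 5), (6, 7), (7, 4), (7, 6), (8, 5), (8, 9), (9, 1), (9, 8)]
    lev := [] }
  links := [[1, 6, 7, 3], [6, 0, 3, 2, 8, 9], [8, 1, 3, 10], [10, 2, 1, 0, 7, 4, 11, 12, 13], [11, 3, 7,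
    5, 14], [14, 4, 7, 15]]
  P := {
    a := 6
    N := 16
    nb := [202, 845, 1290, 15511, 18600, 49296, 643, 32889, 1542, 322, 8460, 20504, 10248, 5128,
      34864, 16544]
    tri := [(0, 1, 3), (0, 1, 6), (0, 3, 7), (0, 6, 7), (1, 2, 3), (1, 2, 8), (1, 6, 9), (1, 8, 9), (2,
      3, 10), (2, 8, 10), (3, 4, 7), (3, 4, 11), (3, 10, 13), (3, 11, 12), (3, 12, 13), (4, 5, 7),
      (4, 5, 14), (4, 11, 14), (5, 7, 15), (5, 14, 15)]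
    fin := [0, 0, 0, 3, 3, 3, 0, 3, 8, 9, 3, 3, 12, 13, 14, 15]
    chd := [(0, 8)]
    steps := [(0, 1), (0, 2), (0, 6), (3, 4), (3, 5), (3, 7), (3, 11), (3, 10)] }
  rep := [3, 0, 8, 14, 9, 12, 13, 15]

noncomputable def v1157 : Cov.CovD where
  P := 3
  N := 5
  pl := [3, 6, 7, 8, 9]
  lev := [⟨[], [], [(0, 1)], [], [(0, 1, [2]), (1, 0, [])]⟩,
    ⟨[], [(0, 0), (0, 1), (0, 2)], [(1, 2)], [4], [(0, 1, [2]), (2, 2, [1])]⟩,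
    ⟨[(0, 1)], [(1, 0), (1, 1), (1, 2)], [(0, 2)], [], [(2, 2, [1]), (4, 0, [])]⟩,
    ⟨[(0, 1), (0, 2), (1, 2)], [(0, 0), (0, 1), (1, 0), (1, 1), (1, 2), (2, 0), (2, 2)],
      [(0, 0)], [5, 6], [(1, 0, []), (4, 0, []), (5, 0, [])]⟩,
    ⟨[(0, 3), (1, 3), (2, 3)], [(0, 0), (3, 0)], [(0, 0)], [3], [(1, 0, []), (5, 0, [])]⟩,
    ⟨[(3, 4)], [(0, 0), (3, 0), (4, 0)], [], [3, 7], [(1, 0, [])]⟩]
  Ta := [((1, 0), 0, 1), ((1, 9), 0, 7), ((4, 2), 0, 2), ((4, 7), 0, 6), ((5, 6), 0, 5), ((5, 8),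
    0, 3)]
  Tb := [((0, 1, 3), 1, 0, 4), ((1, 0, 9), 0, 1, 7), ((2, 3, 4), 2, 4, 0), ((3, 0, 2), 4, 1, 2),
    ((4, 2, 7), 0, 2, 6), ((5, 6, 8), 0, 5, 3), ((6, 5, 7), 5, 0, 6), ((7, 4, 6), 6, 0, 5),
    ((8, 5, 9), 3, 0, 7), ((9, 1, 8), 7, 0, 3)]
  Tc := []
  Td := [((1, 2), (0, 1), 0), ((1, 2), (0, 3), 4), ((2, 1), (2, 3), 4), ((2, 1), (2, 4), 0)]
  G := [[0, 0xc6aa6c6ca68cca6c6aa6ce1c2, 0, 0xc6aa6c61ca684ca6c6aa6ce4d8,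
    0xca6c6aa6ce1ca6c6aa6ce294], [0, 0, 0x11a48411611a11ce211a11ca2cc,
    0x11a11a641168411a2116116cad8, 0x11611a11ce211611a11ce894], [0, 0, 0,
    0x16ac1a61c16c16a41a61a6c2d8, 0xc1693ad1ce2c16b1aa1ce294]]

noncomputable def n1157 : Ent := ⟨e1157, noF, [], [], [(6, 15, [360035742630636841211993100915356868655746945586763691012407297, 0])]⟩

def c1157 : PLift (Cov.check n1157.C.D v1157 = true) := ⟨by decide +kernel⟩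

def b1157 : PLift (entF (fidx ts) 400 1157 n1157 = true) := ⟨by decide +kernel⟩

theorem g1157 : GoodF (fidx ts) 400 1157 := GoodF.ofV v1157 n1157 c1157.down b1157.down

/-- 464954:957 -/
noncomputable def e1158 : SCfg where
  D := {
    a := 6
    L := 10
    kp := 7
    inn := [(0, 1), (0, 3), (1, 0), (1, 2), (1, 3), (2, 1), (2, 3), (3, 0), (3, 1), (3, 2), (3, 4), (4,
      3), (4, 5), (5, 4)]
    mix := [(0, 0), (0, 1), (1, 0), (1, 2), (1, 3), (2, 2), (2, 4), (3, 1), (3, 4), (3, 5), (3, 6), (3,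
      7), (4, 1), (4, 5), (4, 8), (5, 5), (5, 8), (5, 9)]
    cl := [1, 0, 2, 4, 0, 0, 5, 6, 3, 7]
    chq := [(1, 2), (2, 1)]
    rng := [(0, 1), (0, 3), (1, 0), (1, 8), (2, 3), (2, 4), (3, 0), (3, 2), (4, 2), (4, 7), (5, 6), (5,
      9), (6, 5), (6, 7), (7, 4), (7, 6), (8, 1), (8, 9), (9, 5), (9, 8)]
    lev := [] }
  links := [[1, 6, 7, 3], [6, 0, 3, 2, 8, 9], [8, 1, 3, 10], [10, 2, 1, 0, 7, 4, 11, 12, 13], [11, 3, 7,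
    14, 5], [11, 4, 14, 15]]
  P := {
    a := 6
    N := 16
    nb := [202, 845, 1290, 15511, 18600, 51216, 643, 16473, 1542, 322, 8460, 36920, 10248, 5128,
      32944, 18464]
    tri := [(0, 1, 3), (0, 1, 6), (0, 3, 7), (0, 6, 7), (1, 2, 3), (1, 2, 8), (1, 6, 9), (1, 8, 9), (2,
      3, 10), (2, 8, 10), (3, 4, 7), (3, 4, 11), (3, 10, 13), (3, 11, 12), (3, 12, 13), (4, 5,
      11), (4, 5, 14), (4, 7, 14), (5, 11, 15), (5, 14, 15)]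
    fin := [0, 0, 0, 3, 3, 3, 0, 3, 8, 9, 3, 3, 12, 13, 14, 15]
    chd := [(0, 8)]
    steps := [(0, 1), (0, 2), (0, 6), (3, 4), (3, 5), (3, 7), (3, 11), (3, 10)] }
  rep := [3, 0, 8, 14, 9, 12, 13, 15]

noncomputable def v1158 : Cov.CovD where
  P := 3
  N := 5
  pl := [3, 6, 7, 8, 9]
  lev := [⟨[], [], [(0, 1)], [], [(0, 1, [2]), (1, 0, [])]⟩,
    ⟨[], [(0, 0), (0, 1), (0, 2)], [(1, 2)], [4], [(0, 1, [2]), (2, 2, [1])]⟩,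
    ⟨[(0, 1)], [(1, 0), (1, 1), (1, 2)], [(0, 2)], [], [(2, 2, [1]), (4, 0, [])]⟩,
    ⟨[(0, 1), (0, 2), (1, 2)], [(0, 0), (0, 1), (1, 0), (1, 1), (1, 2), (2, 0), (2, 2)],
      [(0, 0)], [5, 6], [(1, 0, []), (4, 0, []), (5, 0, [])]⟩,
    ⟨[(0, 3), (1, 3), (2, 3)], [(0, 0), (3, 0)], [(0, 0)], [3], [(1, 0, []), (5, 0, [])]⟩,
    ⟨[(3, 4)], [(3, 0), (4, 0)], [], [3, 7], [(5, 0, [])]⟩]
  Ta := [((1, 0), 0, 1), ((1, 8), 0, 3), ((4, 2), 0, 2), ((4, 7), 0, 6), ((5, 6), 0, 5), ((5, 9),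
    0, 7)]
  Tb := [((0, 1, 3), 1, 0, 4), ((1, 0, 8), 0, 1, 3), ((2, 3, 4), 2, 4, 0), ((3, 0, 2), 4, 1, 2),
    ((4, 2, 7), 0, 2, 6), ((5, 6, 9), 0, 5, 7), ((6, 5, 7), 5, 0, 6), ((7, 4, 6), 6, 0, 5),
    ((8, 1, 9), 3, 0, 7), ((9, 5, 8), 7, 0, 3)]
  Tc := []
  Td := [((1, 2), (0, 1), 0), ((1, 2), (0, 3), 4), ((2, 1), (2, 3), 4), ((2, 1), (2, 4), 0)]
  G := [[0, 0x11611a11ce411611a11ce1c2, 0, 0x1a616ac16e11a6a6c61a68a58,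
    0x716c1a16ce21a616a93ce894], [0, 0, 0x11611a11ae4116211a11acac1,
    0x11a11c6411a11a61168c11684d8, 0x11611a11ce211611a11ae894], [0, 0, 0,
    0xca6c6aa6ce1a6c2ca6c6ac658, 0xca6c6aa6ce1ca6c6aa6ce894]]

noncomputable def n1158 : Ent := ⟨e1158, noF, [], [], []⟩

def c1158 : PLift (Cov.check n1158.C.D v1158 = true) := ⟨by decide +kernel⟩

def b1158 : PLift (entF (fidx ts) 400 1158 n1158 = true) := ⟨by decide +kernel⟩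

theorem g1158 : GoodF (fidx ts) 400 1158 := GoodF.ofV v1158 n1158 c1158.down b1158.down

/-- 459544:958/1 -/
noncomputable def e1159 : SCfg where
  D := {
    a := 6
    L := 9
    kp := 6
    inn := [(0, 1), (0, 2), (1, 0), (1, 2), (2, 0), (2, 1), (2, 3), (2, 4), (3, 2), (3, 5), (4, 2), (5,
      3)]
    mix := [(0, 0), (0, 1), (1, 1), (1, 2), (1, 3), (2, 0), (2, 3), (2, 4), (2, 5), (2, 6), (3, 5), (3,
      6), (3, 7), (4, 4), (4, 5), (4, 8), (5, 5), (5, 7), (5, 8)]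
    cl := [0, 2, 6, 0, 4, 0, 1, 5, 3]
    chq := [(1, 3), (3, 1)]
    rng := [(0, 1), (0, 6), (1, 0), (1, 2), (2, 1), (2, 3), (3, 2), (3, 4), (4, 3), (4, 8), (5, 8), (6,
      0), (6, 7), (7, 6), (7, 8), (8, 4), (8, 5), (8, 7)]
    lev := [] }
  links := [[1, 2, 6, 7], [2, 0, 7, 8, 9], [6, 0, 1, 9, 10, 4, 11, 3, 12], [12, 2, 11, 5, 13], [11, 2,
    10, 14], [13, 3, 11, 14]]
  P := {
    a := 6
    N := 15
    nb := [198, 901, 7771, 14372, 19460, 26632, 4229, 323, 642, 1286, 16916, 16444, 8268, 20520,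
      11312]
    tri := [(0, 1, 2), (0, 1, 7), (0, 2, 6), (0, 6, 7), (1, 2, 9), (1, 7, 8), (1, 8, 9), (2, 3, 11),
      (2, 3, 12), (2, 4, 10), (2, 4, 11), (2, 6, 12), (2, 9, 10), (3, 5, 11), (3, 5, 13), (3, 12,
      13), (4, 10, 14), (4, 11, 14), (5, 11, 14), (5, 13, 14)]
    fin := [0, 0, 0, 3, 0, 3, 0, 7, 8, 0, 10, 0, 12, 13, 3]
    chd := [(12, 3)]
    steps := [(0, 1), (0, 2), (0, 4), (0, 6), (0, 9), (0, 11), (3, 5), (3, 14)] }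
  rep := [0, 12, 7, 3, 10, 13, 8]

noncomputable def v1159 : Cov.CovD where
  P := 3
  N := 4
  pl := [1, 2, 4, 7]
  lev := [⟨[], [], [], [2], [(0, 0, [])]⟩,
    ⟨[], [(0, 0)], [], [2, 6], [(3, 0, [])]⟩,
    ⟨[(0, 1)], [(0, 0), (0, 1), (1, 0), (1, 1)], [(0, 0), (0, 1)], [4], [(0, 0, []), (3, 0,
      []), (5, 0, []), (6, 1, [3])]⟩,
    ⟨[(0, 2), (1, 2)], [(2, 0), (2, 1)], [(0, 1)], [5], [(5, 0, []), (6, 1, [3])]⟩,
    ⟨[(0, 2), (1, 2), (2, 3)], [(2, 0), (2, 1), (2, 3), (3, 0)], [(0, 3)], [4], [(5, 0,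
      []), (8, 3, [1])]⟩,
    ⟨[(2, 3)], [(2, 0), (3, 0), (3, 1), (3, 3), (4, 0), (4, 3)], [(0, 3)], [5], [(5, 0,
      []), (8, 3, [1])]⟩]
  Ta := [((0, 1), 0, 2), ((0, 6), 0, 1), ((3, 2), 0, 6), ((3, 4), 0, 4), ((5, 8), 0, 3)]
  Tb := [((0, 1, 6), 0, 2, 1), ((1, 0, 2), 2, 0, 6), ((2, 1, 3), 6, 2, 0), ((3, 2, 4), 0, 6, 4),
    ((4, 3, 8), 4, 0, 3), ((6, 0, 7), 1, 0, 5), ((7, 6, 8), 5, 1, 3), ((8, 4, 5), 3, 4, 0),
    ((8, 4, 7), 3, 4, 5), ((8, 5, 7), 3, 0, 5)]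
  Tc := []
  Td := [((1, 3), (6, 0), 0), ((1, 3), (6, 7), 5), ((3, 1), (8, 4), 4), ((3, 1), (8, 5), 0), ((3,
    1), (8, 7), 5)]
  G := [[0, 0xe1218581434e18, 0xa146112cc618812a1c1221cce2, 0x61a25a112cc18, 0x61a25a112cc18],
    [0, 0, 0, 0xc2a25e121cc52223ce1629cc1, 0xc2a2518521cc1262ce121cca2], [0, 0, 0,
    0x268e2242e4122a44e82e81c, 0x22a44e82e82ce2242ec12]]

noncomputable def n1159 : Ent := ⟨e1159, noF, [], [], []⟩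

def c1159 : PLift (Cov.check n1159.C.D v1159 = true) := ⟨by decide +kernel⟩

def b1159 : PLift (entF (fidx ts) 400 1159 n1159 = true) := ⟨by decide +kernel⟩

theorem g1159 : GoodF (fidx ts) 400 1159 := GoodF.ofV v1159 n1159 c1159.down b1159.down

/-- 459544:958 -/
noncomputable def e1160 : SCfg where
  D := {
    a := 6
    L := 10
    kp := 7
    inn := [(0, 1), (0, 2), (1, 0), (1, 2), (2, 0), (2, 1), (2, 3), (2, 4), (3, 2), (3, 5), (4, 2), (5,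
      3)]
    mix := [(0, 0), (0, 1), (1, 1), (1, 2), (1, 3), (2, 0), (2, 3), (2, 4), (2, 5), (2, 6), (3, 5), (3,
      6), (3, 7), (4, 4), (4, 5), (4, 8), (5, 5), (5, 7), (5, 9)]
    cl := [1, 2, 6, 1, 3, 0, 0, 4, 5, 7]
    chq := [(1, 5), (5, 1)]
    rng := [(0, 1), (0, 6), (1, 0), (1, 2), (2, 1), (2, 3), (3, 2), (3, 4), (4, 3), (4, 8), (5, 8), (5,
      9), (6, 0), (6, 7), (7, 6), (7, 9), (8, 4), (8, 5), (9, 5), (9, 7)]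
    lev := [] }
  links := [[1, 2, 6, 7], [2, 0, 7, 8, 9], [6, 0, 1, 9, 10, 4, 11, 3, 12], [12, 2, 11, 5, 13], [11, 2,
    10, 14], [13, 3, 11, 15]]
  P := {
    a := 6
    N := 16
    nb := [198, 901, 7771, 14372, 19460, 43016, 4229, 323, 642, 1286, 16916, 49212, 8268, 36904, 3088,
      10272]
    tri := [(0, 1, 2), (0, 1, 7), (0, 2, 6), (0, 6, 7), (1, 2, 9), (1, 7, 8), (1, 8, 9), (2, 3, 11),
      (2, 3, 12), (2, 4, 10), (2, 4, 11), (2, 6, 12), (2, 9, 10), (3, 5, 11), (3, 5, 13), (3, 12,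
      13), (4, 10, 14), (4, 11, 14), (5, 11, 15), (5, 13, 15)]
    fin := [0, 0, 0, 3, 0, 3, 0, 7, 8, 0, 10, 3, 3, 13, 14, 15]
    chd := [(0, 14)]
    steps := [(0, 1), (0, 2), (0, 4), (0, 6), (0, 9), (3, 5), (3, 11), (3, 12)] }
  rep := [3, 0, 7, 10, 13, 14, 8, 15]

noncomputable def v1160 : Cov.CovD where
  P := 3
  N := 5
  pl := [1, 2, 4, 7, 9]
  lev := [⟨[], [], [], [2], [(0, 1, [5])]⟩,
    ⟨[], [(0, 1)], [], [2, 6], [(3, 1, [5])]⟩,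
    ⟨[(0, 1)], [(0, 0), (0, 1), (1, 0), (1, 1)], [(0, 0), (0, 1), (1, 1)], [3], [(0, 1,
      [5]), (3, 1, [5]), (5, 0, []), (6, 0, [])]⟩,
    ⟨[(0, 2), (1, 2)], [(2, 0), (2, 1)], [(0, 0)], [4], [(5, 0, []), (6, 0, [])]⟩,
    ⟨[(0, 2), (1, 2), (2, 3)], [(2, 0), (2, 1), (2, 5), (3, 0)], [(0, 5)], [3], [(5, 0,
      []), (8, 5, [1])]⟩,
    ⟨[(2, 3)], [(2, 0), (3, 0), (4, 0)], [], [4, 7], [(5, 0, [])]⟩]
  Ta := [((0, 1), 1, 2), ((0, 6), 1, 0), ((3, 2), 1, 6), ((3, 4), 1, 3), ((5, 8), 0, 5), ((5, 9),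
    0, 7), ((6, 0), 0, 1), ((6, 7), 0, 4)]
  Tb := [((0, 1, 6), 1, 2, 0), ((1, 0, 2), 2, 1, 6), ((2, 1, 3), 6, 2, 1), ((3, 2, 4), 1, 6, 3),
    ((4, 3, 8), 3, 1, 5), ((5, 8, 9), 0, 5, 7), ((6, 0, 7), 0, 1, 4), ((7, 6, 9), 4, 0, 7),
    ((8, 4, 5), 5, 3, 0), ((9, 5, 7), 7, 0, 4)]
  Tc := []
  Td := [((1, 5), (0, 1), 2), ((1, 5), (0, 6), 0), ((1, 5), (3, 2), 6), ((1, 5), (3, 4), 3), ((5,
    1), (8, 4), 3), ((5, 1), (8, 5), 0)]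
  G := [[0, 0, 0xc2a26c262ac24, 0xc262a4c2a268c2a26c262acd8, 0xc2a26c262ac28], [0, 0,
    0x4c6a26c8ce626eacccceaaae6c262acc2, 0, 0x4c6a26c8ce626eacccaa26cc6a66eac92], [0,
    0xe14e12e18e18, 0x12a16c262ac28, 0x1262ac212ac1262a1262ac51, 0x12a265232cc28], [0, 0,
    0x12a26c161ac1261ac162acc2, 0, 0xc1a1692326c12a26c161ac92]]

noncomputable def n1160 : Ent := ⟨e1160, noF, [], [], [(14, 15, [360035742630636841211993100915356868655746945586763691012419585, 0])]⟩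

def c1160 : PLift (Cov.check n1160.C.D v1160 = true) := ⟨by decide +kernel⟩

def b1160 : PLift (entF (fidx ts) 400 1160 n1160 = true) := ⟨by decide +kernel⟩

theorem g1160 : GoodF (fidx ts) 400 1160 := GoodF.ofV v1160 n1160 c1160.down b1160.down

/-- 459544:959 -/
noncomputable def e1161 : SCfg where
  D := {
    a := 6
    L := 10
    kp := 7
    inn := [(0, 1), (0, 2), (1, 0), (1, 2), (2, 0), (2, 1), (2, 3), (2, 4), (3, 2), (3, 5), (4, 2), (5,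
      3)]
    mix := [(0, 0), (0, 1), (1, 1), (1, 2), (1, 3), (2, 0), (2, 3), (2, 4), (2, 5), (2, 6), (3, 5), (3,
      6), (3, 7), (4, 4), (4, 5), (4, 8), (5, 6), (5, 7), (5, 9)]
    cl := [1, 2, 6, 1, 3, 0, 0, 4, 5, 7]
    chq := [(1, 5), (5, 1)]
    rng := [(0, 1), (0, 6), (1, 0), (1, 2), (2, 1), (2, 3), (3, 2), (3, 4), (4, 3), (4, 8), (5, 7), (5,
      8), (6, 0), (6, 9), (7, 5), (7, 9), (8, 4), (8, 5), (9, 6), (9, 7)]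
    lev := [] }
  links := [[1, 2, 6, 7], [2, 0, 7, 8, 9], [6, 0, 1, 9, 10, 4, 11, 3, 12], [12, 2, 11, 13, 5], [11, 2,
    10, 14], [12, 3, 13, 15]]
  P := {
    a := 6
    N := 16
    nb := [198, 901, 7771, 14372, 19460, 45064, 4229, 323, 642, 1286, 16916, 24604, 32876, 34856,
      3088, 12320]
    tri := [(0, 1, 2), (0, 1, 7), (0, 2, 6), (0, 6, 7), (1, 2, 9), (1, 7, 8), (1, 8, 9), (2, 3, 11),
      (2, 3, 12), (2, 4, 10), (2, 4, 11), (2, 6, 12), (2, 9, 10), (3, 5, 12), (3, 5, 13), (3, 11,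
      13), (4, 10, 14), (4, 11, 14), (5, 12, 15), (5, 13, 15)]
    fin := [0, 0, 0, 3, 0, 3, 0, 7, 8, 0, 10, 3, 3, 13, 14, 15]
    chd := [(0, 14)]
    steps := [(0, 1), (0, 2), (0, 4), (0, 6), (0, 9), (3, 5), (3, 11), (3, 12)] }
  rep := [3, 0, 7, 10, 13, 14, 8, 15]

noncomputable def v1161 : Cov.CovD where
  P := 3
  N := 5
  pl := [1, 2, 4, 7, 9]
  lev := [⟨[], [], [], [2], [(0, 1, [5])]⟩,
    ⟨[], [(0, 1)], [], [2, 6], [(3, 1, [5])]⟩,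
    ⟨[(0, 1)], [(0, 0), (0, 1), (1, 0), (1, 1)], [(0, 0), (0, 1), (1, 1)], [3], [(0, 1,
      [5]), (3, 1, [5]), (5, 0, []), (6, 0, [])]⟩,
    ⟨[(0, 2), (1, 2)], [(2, 0), (2, 1)], [(0, 0)], [4], [(5, 0, []), (6, 0, [])]⟩,
    ⟨[(0, 2), (1, 2), (2, 3)], [(2, 0), (2, 1), (2, 5), (3, 0)], [(0, 5)], [3], [(5, 0,
      []), (8, 5, [1])]⟩,
    ⟨[(2, 3)], [(2, 0), (3, 0)], [], [4, 7], [(6, 0, [])]⟩]
  Ta := [((0, 1), 1, 2), ((0, 6), 1, 0), ((3, 2), 1, 6), ((3, 4), 1, 3), ((5, 7), 0, 4), ((5, 8),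
    0, 5), ((6, 0), 0, 1), ((6, 9), 0, 7)]
  Tb := [((0, 1, 6), 1, 2, 0), ((1, 0, 2), 2, 1, 6), ((2, 1, 3), 6, 2, 1), ((3, 2, 4), 1, 6, 3),
    ((4, 3, 8), 3, 1, 5), ((5, 7, 8), 0, 4, 5), ((6, 0, 9), 0, 1, 7), ((7, 5, 9), 4, 0, 7),
    ((8, 4, 5), 5, 3, 0), ((9, 6, 7), 7, 0, 4)]
  Tc := []
  Td := [((1, 5), (0, 1), 2), ((1, 5), (0, 6), 0), ((1, 5), (3, 2), 6), ((1, 5), (3, 4), 3), ((5,
    1), (8, 4), 3), ((5, 1), (8, 5), 0)]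
  G := [[0, 0, 0x92526c212ac24, 0x928472126522c12a26324cd8, 0x12a269232ac28], [0, 0,
    0x526966a11e1bacc5cce911e6c212acc2, 0, 0x12a265cce311eac12336ea59ce12ac91], [0,
    0xe14e12e18e14, 0xc2a26c262ac24, 0xc2a26c262acc2a16c262ac94, 0xc2a26c262ac21], [0, 0,
    0xc262a4c2e16c1e2accc1a1688c, 0, 0xc262a4c1a16c262ac9c1a16889]]

noncomputable def n1161 : Ent := ⟨e1161, noF, [], [], []⟩

def c1161 : PLift (Cov.check n1161.C.D v1161 = true) := ⟨by decide +kernel⟩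

def b1161 : PLift (entF (fidx ts) 400 1161 n1161 = true) := ⟨by decide +kernel⟩

theorem g1161 : GoodF (fidx ts) 400 1161 := GoodF.ofV v1161 n1161 c1161.down b1161.down

/-- 466664:960/1 -/
noncomputable def e1162 : SCfg where
  D := {
    a := 6
    L := 9
    kp := 7
    inn := [(0, 1), (0, 3), (0, 4), (1, 0), (1, 2), (1, 3), (2, 1), (2, 5), (3, 0), (3, 1), (3, 4), (4,
      0), (4, 3), (5, 2)]
    mix := [(0, 0), (1, 0), (1, 1), (1, 2), (2, 0), (2, 1), (2, 3), (2, 4), (3, 2), (3, 5), (3, 6), (4,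
      0), (4, 6), (4, 7), (4, 8), (5, 0), (5, 3), (5, 8)]
    cl := [0, 0, 1, 2, 6, 7, 3, 5, 4]
    chq := [(0, 2), (1, 3), (1, 4), (1, 5), (2, 0), (3, 1), (4, 1), (5, 1)]
    rng := [(0, 8), (1, 2), (1, 4), (2, 1), (2, 5), (3, 4), (3, 8), (4, 1), (4, 3), (5, 2), (5, 6), (6,
      5), (6, 7), (7, 6), (7, 8), (8, 0), (8, 3), (8, 7)]
    lev := [] }
  links := [[1, 3, 4, 6], [3, 0, 6, 2, 7, 8], [7, 1, 6, 5, 9, 10], [4, 0, 1, 8, 11, 12], [6, 0, 3, 12,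
    13, 14], [9, 2, 6, 14]]
  P := {
    a := 6
    N := 15
    nb := [90, 461, 1762, 6419, 28745, 16964, 16439, 1286, 2186, 17444, 644, 4360, 10264, 20496, 8816]
    tri := [(0, 1, 3), (0, 1, 6), (0, 3, 4), (0, 4, 6), (1, 2, 6), (1, 2, 7), (1, 3, 8), (1, 7, 8), (2,
      5, 6), (2, 5, 9), (2, 7, 10), (2, 9, 10), (3, 4, 12), (3, 8, 11), (3, 11, 12), (4, 6, 14),
      (4, 12, 13), (4, 13, 14), (5, 6, 14), (5, 9, 14)]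
    fin := [0, 0, 0, 3, 3, 0, 0, 0, 3, 9, 10, 11, 12, 13, 14]
    chd := [(0, 9), (3, 12), (3, 13), (3, 14)]
    steps := [(0, 1), (0, 2), (0, 5), (0, 6), (0, 7), (3, 4), (3, 8)] }
  rep := [0, 3, 9, 12, 14, 13, 10, 11]

noncomputable def v1162 : Cov.CovD where
  P := 3
  N := 5
  pl := [4, 5]
  lev := [⟨[], [], [], [], [(0, 0, [2])]⟩,
    ⟨[], [(0, 0), (0, 1)], [(0, 0), (0, 1)], [], [(0, 0, [2]), (1, 0, [2]), (2, 1, [3, 4,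
      5])]⟩,
    ⟨[(0, 1)], [(0, 0), (1, 0), (1, 1), (1, 2)], [(0, 0), (0, 2)], [6], [(0, 0, [2]), (1,
      0, [2]), (3, 2, [0])]⟩,
    ⟨[(0, 1), (1, 2)], [(0, 0), (0, 1), (0, 3), (1, 0), (1, 1), (1, 3)], [(1, 3)], [7],
      [(2, 1, [3, 4, 5]), (6, 3, [1])]⟩,
    ⟨[(0, 1), (0, 3), (1, 3)], [(0, 0), (0, 3), (0, 4), (0, 5), (1, 0), (2, 0), (3, 0), (3,
      1), (3, 3), (3, 4), (3, 5)], [(0, 3), (0, 4), (0, 5), (3, 4), (3, 5), (4, 5)], [], [(0,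
      0, [2]), (6, 3, [1]), (7, 5, [1]), (8, 4, [1])]⟩,
    ⟨[(1, 2)], [(0, 0), (1, 0), (2, 0), (2, 2), (2, 4), (4, 0), (4, 4)], [(0, 2), (0, 4),
      (2, 4)], [], [(0, 0, [2]), (3, 2, [0]), (8, 4, [1])]⟩]
  Ta := [((0, 8), 0, 4), ((1, 2), 0, 1), ((1, 4), 0, 6)]
  Tb := [((1, 2, 4), 0, 1, 6), ((2, 1, 5), 1, 0, 7), ((3, 4, 8), 2, 6, 4), ((4, 1, 3), 6, 0, 2),
    ((5, 2, 6), 7, 1, 3), ((6, 5, 7), 3, 7, 5), ((7, 6, 8), 5, 3, 4), ((8, 0, 3), 4, 0, 2),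
    ((8, 0, 7), 4, 0, 5), ((8, 3, 7), 4, 2, 5)]
  Tc := [(1, 3, 4), (1, 3, 5), (1, 4, 5)]
  Td := [((0, 2), (0, 8), 4), ((0, 2), (1, 2), 1), ((0, 2), (1, 4), 6), ((1, 3), (2, 1), 0), ((1,
    3), (2, 5), 7), ((1, 4), (2, 1), 0), ((1, 4), (2, 5), 7), ((1, 5), (2, 1), 0), ((1, 5),
    (2, 5), 7), ((2, 0), (3, 4), 6), ((2, 0), (3, 8), 4), ((3, 1), (6, 5), 7), ((3, 1), (6,
    7), 5), ((4, 1), (8, 0), 0), ((4, 1), (8, 3), 2), ((4, 1), (8, 7), 5), ((5, 1), (7, 6),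
    3), ((5, 1), (7, 8), 4)]
  G := [[0, 0, 0xa2c25c24662862a29ac4, 0xc2c2c84c2c2c2d4c218cc, 0xa2a2a2da2a2a2da48], [0,
    0xc1c1c1ec1c1c1ec24, 0xa2a2a2da2c2a2d684, 0x124121212dc121298c4, 0x121212d121212da48]]

noncomputable def n1162 : Ent := ⟨e1162, noF, [], [], []⟩

def c1162 : PLift (Cov.check n1162.C.D v1162 = true) := ⟨by decide +kernel⟩

def b1162 : PLift (entF (fidx ts) 400 1162 n1162 = true) := ⟨by decide +kernel⟩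

theorem g1162 : GoodF (fidx ts) 400 1162 := GoodF.ofV v1162 n1162 c1162.down b1162.down

/-- 466664:960 -/
noncomputable def e1163 : SCfg where
  D := {
    a := 6
    L := 10
    kp := 8
    inn := [(0, 1), (0, 3), (0, 4), (1, 0), (1, 2), (1, 3), (2, 1), (2, 5), (3, 0), (3, 1), (3, 4), (4,
      0), (4, 3), (5, 2)]
    mix := [(0, 0), (1, 0), (1, 1), (1, 2), (2, 0), (2, 1), (2, 3), (2, 4), (3, 2), (3, 5), (3, 6), (4,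
      0), (4, 6), (4, 7), (4, 8), (5, 0), (5, 3), (5, 9)]
    cl := [0, 0, 1, 2, 6, 7, 3, 4, 5, 8]
    chq := [(0, 2), (1, 3), (1, 4), (1, 5), (2, 0), (3, 1), (4, 1), (5, 1)]
    rng := [(0, 8), (0, 9), (1, 2), (1, 4), (2, 1), (2, 5), (3, 4), (3, 9), (4, 1), (4, 3), (5, 2), (5,
      6), (6, 5), (6, 7), (7, 6), (7, 8), (8, 0), (8, 7), (9, 0), (9, 3)]
    lev := [] }
  links := [[1, 3, 4, 6], [3, 0, 6, 2, 7, 8], [7, 1, 6, 5, 9, 10], [4, 0, 1, 8, 11, 12], [6, 0, 3, 12,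
    13, 14], [9, 2, 6, 15]]
  P := {
    a := 6
    N := 16
    nb := [90, 461, 1762, 6419, 28745, 33348, 49207, 1286, 2186, 33828, 644, 4360, 10264, 20496, 8272,
      608]
    tri := [(0, 1, 3), (0, 1, 6), (0, 3, 4), (0, 4, 6), (1, 2, 6), (1, 2, 7), (1, 3, 8), (1, 7, 8), (2,
      5, 6), (2, 5, 9), (2, 7, 10), (2, 9, 10), (3, 4, 12), (3, 8, 11), (3, 11, 12), (4, 6, 14),
      (4, 12, 13), (4, 13, 14), (5, 6, 15), (5, 9, 15)]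
    fin := [0, 0, 0, 3, 3, 0, 0, 0, 3, 9, 10, 11, 12, 13, 14, 15]
    chd := [(0, 9), (3, 12), (3, 13), (3, 14)]
    steps := [(0, 1), (0, 2), (0, 5), (0, 6), (0, 7), (3, 4), (3, 8)] }
  rep := [0, 3, 9, 12, 13, 14, 10, 11, 15]

noncomputable def v1163 : Cov.CovD where
  P := 3
  N := 6
  pl := [4, 5, 9]
  lev := [⟨[], [], [], [], [(0, 0, [2])]⟩,
    ⟨[], [(0, 0), (0, 1)], [(0, 0), (0, 1)], [], [(0, 0, [2]), (1, 0, [2]), (2, 1, [3, 4,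
      5])]⟩,
    ⟨[(0, 1)], [(0, 0), (1, 0), (1, 1), (1, 2)], [(0, 0), (0, 2)], [6], [(0, 0, [2]), (1,
      0, [2]), (3, 2, [0])]⟩,
    ⟨[(0, 1), (1, 2)], [(0, 0), (0, 1), (0, 3), (1, 0), (1, 1), (1, 3)], [(1, 3)], [7],
      [(2, 1, [3, 4, 5]), (6, 3, [1])]⟩,
    ⟨[(0, 1), (0, 3), (1, 3)], [(0, 0), (0, 3), (0, 4), (0, 5), (1, 0), (2, 0), (3, 0), (3,
      1), (3, 3), (3, 4), (3, 5)], [(0, 3), (0, 4), (0, 5), (3, 4), (3, 5), (4, 5)], [], [(0,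
      0, [2]), (6, 3, [1]), (7, 4, [1]), (8, 5, [1])]⟩,
    ⟨[(1, 2)], [(0, 0), (1, 0), (2, 0), (2, 2), (4, 0)], [(0, 2)], [8], [(0, 0, [2]), (3,
      2, [0])]⟩]
  Ta := [((0, 8), 0, 5), ((0, 9), 0, 8), ((1, 2), 0, 1), ((1, 4), 0, 6)]
  Tb := [((0, 8, 9), 0, 5, 8), ((1, 2, 4), 0, 1, 6), ((2, 1, 5), 1, 0, 7), ((3, 4, 9), 2, 6, 8),
    ((4, 1, 3), 6, 0, 2), ((5, 2, 6), 7, 1, 3), ((6, 5, 7), 3, 7, 4), ((7, 6, 8), 4, 3, 5),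
    ((8, 0, 7), 5, 0, 4), ((9, 0, 3), 8, 0, 2)]
  Tc := [(1, 3, 4), (1, 3, 5), (1, 4, 5)]
  Td := [((0, 2), (0, 8), 5), ((0, 2), (0, 9), 8), ((0, 2), (1, 2), 1), ((0, 2), (1, 4), 6), ((1,
    3), (2, 1), 0), ((1, 3), (2, 5), 7), ((1, 4), (2, 1), 0), ((1, 4), (2, 5), 7), ((1, 5),
    (2, 1), 0), ((1, 5), (2, 5), 7), ((2, 0), (3, 4), 6), ((2, 0), (3, 9), 8), ((3, 1), (6,
    5), 7), ((3, 1), (6, 7), 4), ((4, 1), (7, 6), 3), ((4, 1), (7, 8), 5), ((5, 1), (8, 0),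
    0), ((5, 1), (8, 7), 4)]
  G := [[0, 0, 0xc2c2a2dc26262d684, 0xc2c254c2c2c2d8cc2848c, 0xa2a2a2da2a2a2da48], [0,
    0xc1c1c1ec1c1c1ec24, 0xa2a2a2da2c2c2d684, 0x121254121212d128cc8, 0x121212d121212da48]]

noncomputable def n1163 : Ent := ⟨e1163, noF, [], [], [(15, 14, [385746751338780685620664494392815470296102193487288376377253889, 0])]⟩

def c1163 : PLift (Cov.check n1163.C.D v1163 = true) := ⟨by decide +kernel⟩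

def b1163 : PLift (entF (fidx ts) 400 1163 n1163 = true) := ⟨by decide +kernel⟩

theorem g1163 : GoodF (fidx ts) 400 1163 := GoodF.ofV v1163 n1163 c1163.down b1163.down

/-- 466664:962/1 -/
noncomputable def e1164 : SCfg where
  D := {
    a := 6
    L := 9
    kp := 7
    inn := [(0, 1), (0, 3), (0, 4), (1, 0), (1, 2), (1, 3), (2, 1), (2, 5), (3, 0), (3, 1), (3, 4), (4,
      0), (4, 3), (5, 2)]
    mix := [(0, 0), (1, 0), (1, 1), (1, 2), (2, 0), (2, 1), (2, 3), (2, 4), (3, 2), (3, 5), (3, 6), (4,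
      0), (4, 3), (4, 6), (4, 7), (5, 1), (5, 4), (5, 8)]
    cl := [0, 0, 1, 2, 3, 6, 4, 5, 7]
    chq := [(0, 3), (1, 2), (1, 4), (1, 5), (2, 1), (3, 0), (4, 1), (5, 1)]
    rng := [(0, 3), (1, 2), (1, 8), (2, 1), (2, 5), (3, 0), (3, 4), (3, 7), (4, 3), (4, 8), (5, 2), (5,
      6), (6, 5), (6, 7), (7, 3), (7, 6), (8, 1), (8, 4)]
    lev := [] }
  links := [[1, 3, 4, 6], [3, 0, 6, 2, 7, 8], [7, 1, 6, 9, 10, 5], [4, 0, 1, 8, 11, 12], [6, 0, 3, 12,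
    13, 9], [7, 2, 10, 14]]
  P := {
    a := 6
    N := 15
    nb := [90, 461, 1762, 6419, 12873, 17540, 535, 16678, 2186, 9300, 16932, 4360, 10264, 4624, 1184]
    tri := [(0, 1, 3), (0, 1, 6), (0, 3, 4), (0, 4, 6), (1, 2, 6), (1, 2, 7), (1, 3, 8), (1, 7, 8), (2,
      5, 7), (2, 5, 10), (2, 6, 9), (2, 9, 10), (3, 4, 12), (3, 8, 11), (3, 11, 12), (4, 6, 9),
      (4, 9, 13), (4, 12, 13), (5, 7, 14), (5, 10, 14)]
    fin := [0, 0, 0, 3, 3, 0, 0, 0, 3, 9, 10, 11, 12, 13, 14]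
    chd := [(0, 10), (3, 9), (3, 12), (3, 13)]
    steps := [(0, 1), (0, 2), (0, 5), (0, 6), (0, 7), (3, 4), (3, 8)] }
  rep := [0, 3, 9, 10, 12, 13, 11, 14]

noncomputable def v1164 : Cov.CovD where
  P := 3
  N := 5
  pl := [5, 8]
  lev := [⟨[], [], [], [], [(0, 0, [3])]⟩,
    ⟨[], [(0, 0), (0, 1)], [(0, 0), (0, 1)], [], [(0, 0, [3]), (1, 0, [3]), (2, 1, [2, 4,
      5])]⟩,
    ⟨[(0, 1)], [(0, 0), (1, 0), (1, 1), (1, 2), (1, 3)], [(0, 0), (0, 2), (0, 3), (2, 3)],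
      [], [(0, 0, [3]), (1, 0, [3]), (3, 2, [1]), (4, 3, [0])]⟩,
    ⟨[(0, 1), (1, 2)], [(0, 0), (0, 1), (0, 4), (1, 0), (1, 1), (1, 4)], [(1, 4)], [6],
      [(2, 1, [2, 4, 5]), (6, 4, [1])]⟩,
    ⟨[(0, 1), (0, 3), (1, 3)], [(0, 0), (0, 2), (0, 4), (0, 5), (1, 0), (2, 0), (2, 2), (3,
      0), (3, 1), (3, 2), (3, 4), (3, 5)], [(0, 2), (0, 4), (0, 5), (2, 4), (2, 5), (4, 5)],
      [], [(0, 0, [3]), (3, 2, [1]), (6, 4, [1]), (7, 5, [1])]⟩,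
    ⟨[(1, 2)], [(1, 0), (2, 0), (2, 2), (2, 3)], [(0, 3)], [7], [(1, 0, [3]), (4, 3, [0])]⟩]
  Ta := [((0, 3), 0, 2), ((1, 2), 0, 1), ((1, 8), 0, 7)]
  Tb := [((1, 2, 8), 0, 1, 7), ((2, 1, 5), 1, 0, 6), ((3, 0, 4), 2, 0, 3), ((3, 0, 7), 2, 0, 5),
    ((3, 4, 7), 2, 3, 5), ((4, 3, 8), 3, 2, 7), ((5, 2, 6), 6, 1, 4), ((6, 5, 7), 4, 6, 5),
    ((7, 3, 6), 5, 2, 4), ((8, 1, 4), 7, 0, 3)]
  Tc := [(1, 2, 4), (1, 2, 5), (1, 4, 5)]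
  Td := [((0, 3), (0, 3), 2), ((0, 3), (1, 2), 1), ((0, 3), (1, 8), 7), ((1, 2), (2, 1), 0), ((1,
    2), (2, 5), 6), ((1, 4), (2, 1), 0), ((1, 4), (2, 5), 6), ((1, 5), (2, 1), 0), ((1, 5),
    (2, 5), 6), ((2, 1), (3, 0), 0), ((2, 1), (3, 4), 3), ((2, 1), (3, 7), 5), ((3, 0), (4,
    3), 2), ((3, 0), (4, 8), 7), ((4, 1), (6, 5), 6), ((4, 1), (6, 7), 5), ((5, 1), (7, 3),
    2), ((5, 1), (7, 6), 4)]
  G := [[0, 0, 0x121251212c12129e84, 0xa2a2a2d126212dc24, 0xc2c2c2d621212da48], [0,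
    0xa1a1a1e616161ec28, 0, 0xa2a2a2d626262dc28, 0xc2c2c2d626262da48]]

noncomputable def n1164 : Ent := ⟨e1164, noF, [], [], []⟩

def c1164 : PLift (Cov.check n1164.C.D v1164 = true) := ⟨by decide +kernel⟩

def b1164 : PLift (entF (fidx ts) 400 1164 n1164 = true) := ⟨by decide +kernel⟩

theorem g1164 : GoodF (fidx ts) 400 1164 := GoodF.ofV v1164 n1164 c1164.down b1164.down

/-- 466664:962/2 -/
noncomputable def e1165 : SCfg where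
  D := {
    a := 6
    L := 9
    kp := 6
    inn := [(0, 1), (0, 3), (0, 4), (1, 0), (1, 2), (1, 3), (2, 1), (2, 5), (3, 0), (3, 1), (3, 4), (4,
      0), (4, 3), (5, 2)]
    mix := [(0, 0), (1, 0), (1, 1), (1, 2), (2, 0), (2, 1), (2, 3), (2, 4), (3, 2), (3, 5), (3, 6), (4,
      0), (4, 6), (4, 7), (4, 8), (5, 1), (5, 4), (5, 7)]
    cl := [0, 1, 2, 1, 3, 5, 0, 4, 6]
    chq := [(0, 2), (2, 0)]
    rng := [(0, 3), (0, 8), (1, 2), (1, 7), (2, 1), (2, 5), (3, 0), (3, 4), (4, 3), (4, 7), (5, 2), (5,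
      6), (6, 5), (6, 7), (7, 1), (7, 4), (7, 6), (7, 8), (8, 0), (8, 7)]
    lev := [] }
  links := [[1, 3, 4, 6], [3, 0, 6, 2, 7, 8], [7, 1, 6, 9, 10, 5], [4, 0, 1, 8, 11, 12], [6, 0, 3, 12,
    13, 14], [7, 2, 10, 13]]
  P := {
    a := 6
    N := 15
    nb := [90, 461, 1762, 6419, 28745, 9348, 16919, 8486, 2186, 1092, 8740, 4360, 10264, 21680, 8272]
    tri := [(0, 1, 3), (0, 1, 6), (0, 3, 4), (0, 4, 6), (1, 2, 6), (1, 2, 7), (1, 3, 8), (1, 7, 8), (2,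
      5, 7), (2, 5, 10), (2, 6, 9), (2, 9, 10), (3, 4, 12), (3, 8, 11), (3, 11, 12), (4, 6, 14),
      (4, 12, 13), (4, 13, 14), (5, 7, 13), (5, 10, 13)]
    fin := [0, 0, 2, 0, 0, 2, 0, 2, 8, 2, 10, 11, 0, 13, 14]
    chd := [(0, 8)]
    steps := [(0, 1), (0, 3), (0, 4), (0, 6), (0, 12), (2, 5), (2, 9), (2, 7)] }
  rep := [0, 2, 8, 10, 13, 11, 14]

noncomputable def v1165 : Cov.CovD where
  P := 3
  N := 4
  pl := [4, 5, 7, 8]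
  lev := [⟨[], [], [], [], [(0, 0, [2])]⟩,
    ⟨[], [(0, 0), (0, 1), (0, 2)], [(0, 1), (0, 2), (1, 2)], [], [(0, 0, [2]), (1, 1, []),
      (2, 2, [0])]⟩,
    ⟨[(0, 1)], [(0, 0), (1, 0), (1, 1), (1, 2)], [(0, 1), (1, 1)], [3], [(0, 0, [2]), (1,
      1, []), (3, 1, [])]⟩,
    ⟨[(0, 1), (1, 2)], [(0, 0), (0, 2), (1, 0), (1, 1), (1, 2)], [(0, 2)], [5], [(2, 2,
      [0]), (6, 0, [2])]⟩,
    ⟨[(0, 1), (0, 3), (1, 3)], [(0, 0), (1, 0), (2, 0), (3, 0), (3, 2)], [(0, 0)], [4, 6],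
      [(0, 0, [2]), (6, 0, [2])]⟩,
    ⟨[(1, 2)], [(1, 1), (2, 0), (2, 1)], [], [3, 4], [(1, 1, [])]⟩]
  Ta := [((0, 3), 0, 1), ((0, 8), 0, 6), ((1, 2), 1, 2), ((1, 7), 1, 4), ((3, 0), 1, 0), ((3, 4),
    1, 3), ((6, 5), 0, 5), ((6, 7), 0, 4)]
  Tb := [((0, 3, 8), 0, 1, 6), ((1, 2, 7), 1, 2, 4), ((2, 1, 5), 2, 1, 5), ((3, 0, 4), 1, 0, 3),
    ((4, 3, 7), 3, 1, 4), ((5, 2, 6), 5, 2, 0), ((6, 5, 7), 0, 5, 4), ((7, 1, 4), 4, 1, 3),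
    ((7, 1, 6), 4, 1, 0), ((7, 1, 8), 4, 1, 6), ((7, 4, 6), 4, 3, 0), ((7, 4, 8), 4, 3, 6),
    ((7, 6, 8), 4, 0, 6), ((8, 0, 7), 6, 0, 4)]
  Tc := []
  Td := [((0, 2), (0, 3), 1), ((0, 2), (0, 8), 6), ((0, 2), (6, 5), 5), ((0, 2), (6, 7), 4), ((2,
    0), (2, 1), 1), ((2, 0), (2, 5), 5)]
  G := [[0, 0, 0x1564496149e18ec815e88c8c2, 0x855e1119e1c42, 0x111e194de1c82], [0,
    0x111e1141e1c84, 0x242e142e64811e811ec8a1, 0, 0x819e1145e1c24], [0, 0,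
    0x41649664148da815ee8c1818a449, 0x819e81dec145e541ecc12, 0x12245614deac819e89ca188c94],
    [0, 0, 0x815e81dec149e141ecc21, 0, 0x222e2426a41eac891e8188ca1]]

noncomputable def n1165 : Ent := ⟨e1165, noF, [], [], []⟩

def c1165 : PLift (Cov.check n1165.C.D v1165 = true) := ⟨by decide +kernel⟩

def b1165 : PLift (entF (fidx ts) 400 1165 n1165 = true) := ⟨by decide +kernel⟩

theorem g1165 : GoodF (fidx ts) 400 1165 := GoodF.ofV v1165 n1165 c1165.down b1165.down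

/-- 466664:962 -/
noncomputable def e1166 : SCfg where
  D := {
    a := 6
    L := 10
    kp := 8
    inn := [(0, 1), (0, 3), (0, 4), (1, 0), (1, 2), (1, 3), (2, 1), (2, 5), (3, 0), (3, 1), (3, 4), (4,
      0), (4, 3), (5, 2)]
    mix := [(0, 0), (1, 0), (1, 1), (1, 2), (2, 0), (2, 1), (2, 3), (2, 4), (3, 2), (3, 5), (3, 6), (4,
      0), (4, 6), (4, 7), (4, 8), (5, 1), (5, 4), (5, 9)]
    cl := [0, 0, 1, 6, 2, 7, 3, 4, 5, 8]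
    chq := [(0, 2), (1, 3), (1, 4), (1, 5), (2, 0), (3, 1), (4, 1), (5, 1)]
    rng := [(0, 3), (0, 8), (1, 2), (1, 9), (2, 1), (2, 5), (3, 0), (3, 4), (4, 3), (4, 9), (5, 2), (5,
      6), (6, 5), (6, 7), (7, 6), (7, 8), (8, 0), (8, 7), (9, 1), (9, 4)]
    lev := [] }
  links := [[1, 3, 4, 6], [3, 0, 6, 2, 7, 8], [7, 1, 6, 9, 10, 5], [4, 0, 1, 8, 11, 12], [6, 0, 3, 12,
    13, 14], [7, 2, 10, 15]]
  P := {
    a := 6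
    N := 16
    nb := [90, 461, 1762, 6419, 28745, 33924, 16919, 33062, 2186, 1092, 33316, 4360, 10264, 20496,
      8272, 1184]
    tri := [(0, 1, 3), (0, 1, 6), (0, 3, 4), (0, 4, 6), (1, 2, 6), (1, 2, 7), (1, 3, 8), (1, 7, 8), (2,
      5, 7), (2, 5, 10), (2, 6, 9), (2, 9, 10), (3, 4, 12), (3, 8, 11), (3, 11, 12), (4, 6, 14),
      (4, 12, 13), (4, 13, 14), (5, 7, 15), (5, 10, 15)]
    fin := [0, 0, 0, 3, 3, 0, 0, 0, 3, 9, 10, 11, 12, 13, 14, 15]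
    chd := [(0, 10), (3, 12), (3, 13), (3, 14)]
    steps := [(0, 1), (0, 2), (0, 5), (0, 6), (0, 7), (3, 4), (3, 8)] }
  rep := [0, 3, 10, 12, 13, 14, 9, 11, 15]

noncomputable def v1166 : Cov.CovD where
  P := 3
  N := 6
  pl := [3, 5, 9]
  lev := [⟨[], [], [], [], [(0, 0, [2])]⟩,
    ⟨[], [(0, 0), (0, 1)], [(0, 0), (0, 1)], [], [(0, 0, [2]), (1, 0, [2]), (2, 1, [3, 4,
      5])]⟩,
    ⟨[(0, 1)], [(0, 0), (1, 0), (1, 1), (1, 2)], [(0, 0), (0, 2)], [6], [(0, 0, [2]), (1,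
      0, [2]), (4, 2, [0])]⟩,
    ⟨[(0, 1), (1, 2)], [(0, 0), (0, 1), (0, 3), (1, 0), (1, 1), (1, 3)], [(1, 3)], [7],
      [(2, 1, [3, 4, 5]), (6, 3, [1])]⟩,
    ⟨[(0, 1), (0, 3), (1, 3)], [(0, 0), (0, 3), (0, 4), (0, 5), (1, 0), (2, 0), (3, 0), (3,
      1), (3, 3), (3, 4), (3, 5)], [(0, 3), (0, 4), (0, 5), (3, 4), (3, 5), (4, 5)], [], [(0,
      0, [2]), (6, 3, [1]), (7, 4, [1]), (8, 5, [1])]⟩,
    ⟨[(1, 2)], [(1, 0), (2, 0), (2, 2)], [(0, 2)], [8], [(1, 0, [2]), (4, 2, [0])]⟩]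
  Ta := [((0, 3), 0, 6), ((0, 8), 0, 5), ((1, 2), 0, 1), ((1, 9), 0, 8)]
  Tb := [((0, 3, 8), 0, 6, 5), ((1, 2, 9), 0, 1, 8), ((2, 1, 5), 1, 0, 7), ((3, 0, 4), 6, 0, 2),
    ((4, 3, 9), 2, 6, 8), ((5, 2, 6), 7, 1, 3), ((6, 5, 7), 3, 7, 4), ((7, 6, 8), 4, 3, 5),
    ((8, 0, 7), 5, 0, 4), ((9, 1, 4), 8, 0, 2)]
  Tc := [(1, 3, 4), (1, 3, 5), (1, 4, 5)]
  Td := [((0, 2), (0, 3), 6), ((0, 2), (0, 8), 5), ((0, 2), (1, 2), 1), ((0, 2), (1, 9), 8), ((1,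
    3), (2, 1), 0), ((1, 3), (2, 5), 7), ((1, 4), (2, 1), 0), ((1, 4), (2, 5), 7), ((1, 5),
    (2, 1), 0), ((1, 5), (2, 5), 7), ((2, 0), (4, 3), 6), ((2, 0), (4, 9), 8), ((3, 1), (6,
    5), 7), ((3, 1), (6, 7), 4), ((4, 1), (7, 6), 3), ((4, 1), (7, 8), 5), ((5, 1), (8, 0),
    0), ((5, 1), (8, 7), 4)]
  G := [[0, 0, 0xc2c2a2dc26262d684, 0x12125121212dc1288c4, 0x121212d121212da48], [0,
    0xc1c1c1ec1c1c1ec24, 0x62625c2c2a2dc28e84, 0x424c2c2c2dcc2c298c824845,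
    0xa2a2a2da2a2a2da48]]

noncomputable def n1166 : Ent := ⟨e1166, noF, [], [], [(9, 14, [385746751338780685620664494392815470296102193487288376377262081, 0]), (15, 13, [360048296834107614573520772494203283988579150297652619081469953, 0])]⟩

def c1166 : PLift (Cov.check n1166.C.D v1166 = true) := ⟨by decide +kernel⟩

def b1166 : PLift (entF (fidx ts) 400 1166 n1166 = true) := ⟨by decide +kernel⟩

theorem g1166 : GoodF (fidx ts) 400 1166 := GoodF.ofV v1166 n1166 c1166.down b1166.down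

/-- 466744:964/1 -/
noncomputable def e1167 : SCfg where
  D := {
    a := 6
    L := 9
    kp := 6
    inn := [(0, 1), (0, 3), (1, 0), (1, 2), (1, 3), (2, 1), (2, 4), (3, 0), (3, 1), (3, 5), (4, 2), (5,
      3)]
    mix := [(0, 0), (0, 1), (1, 1), (1, 2), (1, 3), (2, 1), (2, 2), (2, 4), (2, 5), (3, 0), (3, 3), (3,
      6), (3, 7), (4, 2), (4, 5), (4, 8), (5, 3), (5, 6), (5, 8)]
    cl := [2, 0, 0, 1, 6, 3, 4, 1, 5]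
    chq := [(0, 3), (3, 0)]
    rng := [(0, 1), (0, 7), (1, 0), (1, 4), (2, 3), (2, 8), (3, 2), (3, 8), (4, 1), (4, 5), (5, 4), (5,
      8), (6, 7), (6, 8), (7, 0), (7, 6), (8, 2), (8, 3), (8, 5), (8, 6)]
    lev := [] }
  links := [[1, 3, 6, 7], [3, 0, 7, 2, 8, 9], [8, 1, 7, 10, 11, 4], [6, 0, 1, 9, 5, 12, 13], [8, 2, 11,
    14], [12, 3, 9, 14]]
  P := {
    a := 6
    N := 15
    nb := [202, 909, 3474, 12899, 18692, 21000, 8329, 1095, 16918, 16682, 2180, 17428, 24616, 4168,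
      6960]
    tri := [(0, 1, 3), (0, 1, 7), (0, 3, 6), (0, 6, 7), (1, 2, 7), (1, 2, 8), (1, 3, 9), (1, 8, 9), (2,
      4, 8), (2, 4, 11), (2, 7, 10), (2, 10, 11), (3, 5, 9), (3, 5, 12), (3, 6, 13), (3, 12, 13),
      (4, 8, 14), (4, 11, 14), (5, 9, 14), (5, 12, 14)]
    fin := [0, 0, 2, 3, 2, 5, 0, 2, 2, 3, 10, 11, 12, 3, 5]
    chd := [(2, 11)]
    steps := [(0, 1), (0, 6), (2, 4), (2, 7), (2, 8), (3, 9), (3, 13), (5, 14)] }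
  rep := [2, 3, 0, 11, 12, 5, 10]

noncomputable def v1167 : Cov.CovD where
  P := 3
  N := 4
  pl := [0, 4, 6, 8]
  lev := [⟨[], [], [], [2], [(1, 0, [3])]⟩,
    ⟨[], [(0, 0), (0, 1)], [(0, 0), (0, 1)], [], [(1, 0, [3]), (2, 0, [3]), (3, 1, [])]⟩,
    ⟨[(0, 1)], [(0, 0), (1, 0), (1, 1), (1, 3)], [(0, 0), (0, 3)], [6], [(1, 0, [3]), (2,
      0, [3]), (5, 3, [0])]⟩,
    ⟨[(0, 1), (1, 2)], [(0, 0), (0, 1), (1, 0), (1, 1)], [(1, 1)], [2, 4], [(3, 1, []), (7,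
      1, [])]⟩,
    ⟨[(1, 2)], [(1, 0), (2, 0), (2, 3)], [(0, 3)], [5], [(2, 0, [3]), (5, 3, [0])]⟩,
    ⟨[(0, 3), (1, 3)], [(1, 1), (3, 1)], [], [4, 5], [(3, 1, [])]⟩]
  Ta := [((1, 0), 0, 2), ((1, 4), 0, 6), ((2, 3), 0, 1), ((2, 8), 0, 5), ((3, 2), 1, 0), ((3, 8),
    1, 5), ((7, 0), 1, 2), ((7, 6), 1, 4)]
  Tb := [((0, 1, 7), 2, 0, 1), ((1, 0, 4), 0, 2, 6), ((2, 3, 8), 0, 1, 5), ((3, 2, 8), 1, 0, 5),
    ((4, 1, 5), 6, 0, 3), ((5, 4, 8), 3, 6, 5), ((6, 7, 8), 4, 1, 5), ((7, 0, 6), 1, 2, 4),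
    ((8, 2, 3), 5, 0, 1), ((8, 2, 5), 5, 0, 3), ((8, 2, 6), 5, 0, 4), ((8, 3, 5), 5, 1, 3),
    ((8, 3, 6), 5, 1, 4), ((8, 5, 6), 5, 3, 4)]
  Tc := []
  Td := [((0, 3), (1, 0), 2), ((0, 3), (1, 4), 6), ((0, 3), (2, 3), 1), ((0, 3), (2, 8), 5), ((3,
    0), (5, 4), 6), ((3, 0), (5, 8), 5)]
  G := [[0, 0, 0x91411495c11d1ce5188c2, 0, 0x1117128844d111d9c1119848b8e4a], [0, 0,
    0x1121c2182111ce114468, 0x2121522312391222ce84, 0x22311392111922129e48], [0,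
    0x22e2c2822e644ec8a8e242ec88c44ccea1, 0, 0, 0x44151e94844e511e988a888ce441e9ec2], [0, 0,
    0, 0x242e224e922a822229e14c1165468, 0x222e141e94842e221e922529ac2]]

noncomputable def n1167 : Ent := ⟨e1167, noF, [], [], []⟩

def c1167 : PLift (Cov.check n1167.C.D v1167 = true) := ⟨by decide +kernel⟩

def b1167 : PLift (entF (fidx ts) 400 1167 n1167 = true) := ⟨by decide +kernel⟩

theorem g1167 : GoodF (fidx ts) 400 1167 := GoodF.ofV v1167 n1167 c1167.down b1167.down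

/-- 466744:964 -/
noncomputable def e1168 : SCfg where
  D := {
    a := 6
    L := 10
    kp := 7
    inn := [(0, 1), (0, 3), (1, 0), (1, 2), (1, 3), (2, 1), (2, 4), (3, 0), (3, 1), (3, 5), (4, 2), (5,
      3)]
    mix := [(0, 0), (0, 1), (1, 1), (1, 2), (1, 3), (2, 1), (2, 2), (2, 4), (2, 5), (3, 0), (3, 3), (3,
      6), (3, 7), (4, 2), (4, 5), (4, 8), (5, 3), (5, 6), (5, 9)]
    cl := [2, 0, 0, 1, 5, 3, 4, 1, 6, 7]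
    chq := [(5, 6), (6, 5)]
    rng := [(0, 1), (0, 7), (1, 0), (1, 4), (2, 3), (2, 8), (3, 2), (3, 9), (4, 1), (4, 5), (5, 4), (5,
      8), (6, 7), (6, 9), (7, 0), (7, 6), (8, 2), (8, 5), (9, 3), (9, 6)]
    lev := [] }
  links := [[1, 3, 6, 7], [3, 0, 7, 2, 8, 9], [8, 1, 7, 10, 11, 4], [6, 0, 1, 9, 5, 12, 13], [8, 2, 11,
    14], [12, 3, 9, 15]]
  P := {
    a := 6
    N := 16
    nb := [202, 909, 3474, 12899, 18692, 37384, 8329, 1095, 16918, 33066, 2180, 17428, 41000, 4168,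
      2320, 4640]
    tri := [(0, 1, 3), (0, 1, 7), (0, 3, 6), (0, 6, 7), (1, 2, 7), (1, 2, 8), (1, 3, 9), (1, 8, 9), (2,
      4, 8), (2, 4, 11), (2, 7, 10), (2, 10, 11), (3, 5, 9), (3, 5, 12), (3, 6, 13), (3, 12, 13),
      (4, 8, 14), (4, 11, 14), (5, 9, 15), (5, 12, 15)]
    fin := [0, 1, 2, 3, 2, 3, 0, 1, 1, 3, 2, 11, 12, 3, 14, 15]
    chd := [(2, 14)]
    steps := [(0, 6), (1, 7), (1, 8), (2, 4), (2, 10), (3, 5), (3, 9), (3, 13)] }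
  rep := [1, 3, 0, 11, 12, 2, 14, 15]

noncomputable def v1168 : Cov.CovD where
  P := 3
  N := 5
  pl := [0, 5, 6, 9]
  lev := [⟨[], [], [], [2], [(1, 0, [])]⟩,
    ⟨[], [(0, 0), (0, 1)], [(0, 0), (0, 1)], [], [(1, 0, []), (2, 0, []), (3, 1, [])]⟩,
    ⟨[(0, 1)], [(0, 0), (1, 0), (1, 1), (1, 5)], [(0, 0), (0, 5)], [3], [(1, 0, []), (2, 0,
      []), (4, 5, [6])]⟩,
    ⟨[(0, 1), (1, 2)], [(0, 0), (0, 1), (1, 0), (1, 1)], [(1, 1)], [2, 4], [(3, 1, []), (7,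
      1, [])]⟩,
    ⟨[(1, 2)], [(1, 0), (2, 0), (2, 5), (2, 6)], [(0, 6)], [3], [(2, 0, []), (8, 6, [5])]⟩,
    ⟨[(0, 3), (1, 3)], [(1, 1), (3, 1)], [], [4, 7], [(3, 1, [])]⟩]
  Ta := [((1, 0), 0, 2), ((1, 4), 0, 5), ((2, 3), 0, 1), ((2, 8), 0, 6), ((3, 2), 1, 0), ((3, 9),
    1, 7), ((7, 0), 1, 2), ((7, 6), 1, 4)]
  Tb := [((0, 1, 7), 2, 0, 1), ((1, 0, 4), 0, 2, 5), ((2, 3, 8), 0, 1, 6), ((3, 2, 9), 1, 0, 7),
    ((4, 1, 5), 5, 0, 3), ((5, 4, 8), 3, 5, 6), ((6, 7, 9), 4, 1, 7), ((7, 0, 6), 1, 2, 4),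
    ((8, 2, 5), 6, 0, 3), ((9, 3, 6), 7, 1, 4)]
  Tc := []
  Td := [((5, 6), (4, 1), 0), ((5, 6), (4, 5), 3), ((6, 5), (8, 2), 0), ((6, 5), (8, 5), 3)]
  G := [[0, 0, 0x41455a45554e9111c99a89958ec2, 0, 0xcc65569cc9519c15599e42], [0, 0,
    0x22a559c2151c69252b6c8c2, 0x229229c4225226921219ac4, 0x71226922ab5a9cc5219e42], [0,
    0xaa6666caaa66acaac66cce21, 0, 0, 0x556155a1c4cc68cca8ccc55c9e4a], [0, 0, 0,
    0x22a22a54226226c22c22c9ac8, 0x226122ab5a962ca5c9ecc688c2]]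

noncomputable def n1168 : Ent := ⟨e1168, noF, [], [], [(14, 15, [360035742630636841211993100915356868655746945586763691012452353, 0])]⟩

def c1168 : PLift (Cov.check n1168.C.D v1168 = true) := ⟨by decide +kernel⟩

def b1168 : PLift (entF (fidx ts) 400 1168 n1168 = true) := ⟨by decide +kernel⟩

theorem g1168 : GoodF (fidx ts) 400 1168 := GoodF.ofV v1168 n1168 c1168.down b1168.down

/-- 466744:965/1 -/
noncomputable def e1169 : SCfg where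
  D := {
    a := 6
    L := 9
    kp := 6
    inn := [(0, 1), (0, 3), (1, 0), (1, 2), (1, 3), (2, 1), (2, 4), (3, 0), (3, 1), (3, 5), (4, 2), (5,
      3)]
    mix := [(0, 0), (0, 1), (1, 1), (1, 2), (1, 3), (2, 1), (2, 2), (2, 4), (2, 5), (3, 0), (3, 3), (3,
      6), (3, 7), (4, 2), (4, 5), (4, 8), (5, 4), (5, 6), (5, 7)]
    cl := [1, 0, 0, 3, 2, 4, 1, 5, 6]
    chq := [(2, 6), (6, 2)]
    rng := [(0, 1), (0, 7), (1, 0), (1, 4), (2, 3), (2, 8), (3, 2), (3, 6), (4, 1), (4, 5), (4, 6), (4,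
      7), (5, 4), (5, 8), (6, 3), (6, 4), (7, 0), (7, 4), (8, 2), (8, 5)]
    lev := [] }
  links := [[1, 3, 6, 7], [3, 0, 7, 2, 8, 9], [8, 1, 7, 10, 11, 4], [6, 0, 1, 9, 12, 5, 13], [8, 2, 11,
    14], [13, 3, 12, 10]]
  P := {
    a := 6
    N := 15
    nb := [202, 909, 3474, 12899, 18692, 13320, 8329, 1095, 16918, 4362, 14500, 17428, 1576, 1128,
      2320]
    tri := [(0, 1, 3), (0, 1, 7), (0, 3, 6), (0, 6, 7), (1, 2, 7), (1, 2, 8), (1, 3, 9), (1, 8, 9), (2,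
      4, 8), (2, 4, 11), (2, 7, 10), (2, 10, 11), (3, 5, 12), (3, 5, 13), (3, 6, 13), (3, 9, 12),
      (4, 8, 14), (4, 11, 14), (5, 10, 12), (5, 10, 13)]
    fin := [0, 1, 2, 0, 2, 0, 0, 1, 1, 9, 2, 11, 0, 13, 14]
    chd := [(2, 14)]
    steps := [(0, 3), (0, 5), (0, 6), (0, 12), (1, 7), (1, 8), (2, 4), (2, 10)] }
  rep := [1, 0, 2, 9, 11, 13, 14]

noncomputable def v1169 : Cov.CovD where
  P := 3
  N := 4
  pl := [3, 5, 7]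
  lev := [⟨[], [], [(0, 1)], [], [(0, 1, []), (1, 0, [])]⟩,
    ⟨[], [(0, 0), (0, 1)], [(0, 0)], [3], [(1, 0, []), (2, 0, [])]⟩,
    ⟨[(0, 1)], [(0, 0), (1, 0), (1, 2)], [(0, 0), (0, 2)], [4], [(1, 0, []), (2, 0, []),
      (4, 2, [6])]⟩,
    ⟨[(0, 1), (1, 2)], [(0, 0), (0, 1), (1, 0), (1, 1)], [(1, 1)], [3, 5], [(0, 1, []), (6,
      1, [])]⟩,
    ⟨[(1, 2)], [(1, 0), (2, 0), (2, 2), (2, 6)], [(0, 6)], [4], [(2, 0, []), (8, 6, [2])]⟩,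
    ⟨[(0, 3), (1, 3)], [(2, 2), (3, 1), (3, 2)], [(1, 2)], [5], [(4, 2, [6]), (6, 1, [])]⟩]
  Ta := [((0, 1), 1, 0), ((0, 7), 1, 5), ((1, 0), 0, 1), ((1, 4), 0, 2), ((2, 3), 0, 3), ((2, 8),
    0, 6), ((6, 3), 1, 3), ((6, 4), 1, 2)]
  Tb := [((0, 1, 7), 1, 0, 5), ((1, 0, 4), 0, 1, 2), ((2, 3, 8), 0, 3, 6), ((3, 2, 6), 3, 0, 1),
    ((4, 1, 5), 2, 0, 4), ((4, 1, 6), 2, 0, 1), ((4, 1, 7), 2, 0, 5), ((4, 5, 6), 2, 4, 1),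
    ((4, 5, 7), 2, 4, 5), ((4, 6, 7), 2, 1, 5), ((5, 4, 8), 4, 2, 6), ((6, 3, 4), 1, 3, 2),
    ((7, 0, 4), 5, 1, 2), ((8, 2, 5), 6, 0, 4)]
  Tc := []
  Td := [((2, 6), (4, 1), 0), ((2, 6), (4, 5), 4), ((2, 6), (4, 6), 1), ((2, 6), (4, 7), 5), ((6,
    2), (8, 2), 0), ((6, 2), (8, 5), 4)]
  G := [[0, 0x1112a11116c21211c48112c8c6, 0xc11c11a28, 0, 0x848411d212114da24], [0, 0,
    0xc1142c118c112c6, 0x414212d424212dc28, 0x8114584115a1412684119818a2c], [0, 0, 0, 0,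
    0x888e229e116d849411cda24], [0, 0, 0, 0x524212d524212dc28,
    0x886111e988c149a299c84584996ca46]]

noncomputable def n1169 : Ent := ⟨e1169, noF, [], [], []⟩

def c1169 : PLift (Cov.check n1169.C.D v1169 = true) := ⟨by decide +kernel⟩

def b1169 : PLift (entF (fidx ts) 400 1169 n1169 = true) := ⟨by decide +kernel⟩

theorem g1169 : GoodF (fidx ts) 400 1169 := GoodF.ofV v1169 n1169 c1169.down b1169.down

/-- 466744:965/3 -/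
noncomputable def e1170 : SCfg where
  D := {
    a := 6
    L := 8
    kp := 5
    inn := [(0, 1), (0, 3), (1, 0), (1, 2), (1, 3), (2, 1), (2, 4), (3, 0), (3, 1), (3, 5), (4, 2), (5,
      3)]
    mix := [(0, 0), (0, 1), (1, 1), (1, 2), (1, 3), (2, 1), (2, 2), (2, 4), (2, 5), (3, 0), (3, 3), (3,
      6), (3, 7), (4, 2), (4, 5), (4, 6), (5, 5), (5, 6), (5, 7)]
    cl := [2, 0, 0, 1, 5, 3, 4, 1]
    chq := [(0, 3), (3, 0)]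
    rng := [(0, 1), (0, 7), (1, 0), (1, 4), (2, 3), (2, 6), (3, 2), (3, 6), (4, 1), (4, 5), (5, 4), (5,
      6), (5, 7), (6, 2), (6, 3), (6, 5), (7, 0), (7, 5)]
    lev := [] }
  links := [[1, 3, 6, 7], [3, 0, 7, 2, 8, 9], [8, 1, 7, 10, 11, 4], [6, 0, 1, 9, 12, 5, 13], [8, 2, 11,
    12], [13, 3, 12, 11]]
  P := {
    a := 6
    N := 14
    nb := [202, 909, 3474, 12899, 6404, 14344, 8329, 1095, 4630, 4362, 2180, 13364, 2872, 2152]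
    tri := [(0, 1, 3), (0, 1, 7), (0, 3, 6), (0, 6, 7), (1, 2, 7), (1, 2, 8), (1, 3, 9), (1, 8, 9), (2,
      4, 8), (2, 4, 11), (2, 7, 10), (2, 10, 11), (3, 5, 12), (3, 5, 13), (3, 6, 13), (3, 9, 12),
      (4, 8, 12), (4, 11, 12), (5, 11, 12), (5, 11, 13)]
    fin := [0, 0, 2, 3, 2, 5, 0, 2, 2, 3, 10, 5, 12, 3]
    chd := [(2, 5)]
    steps := [(0, 1), (0, 6), (2, 4), (2, 7), (2, 8), (3, 9), (3, 13), (5, 11)] }
  rep := [2, 3, 0, 5, 12, 10]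

noncomputable def v1170 : Cov.CovD where
  P := 3
  N := 3
  pl := [0, 4, 6]
  lev := [⟨[], [], [], [2], [(1, 0, [3])]⟩,
    ⟨[], [(0, 0), (0, 1)], [(0, 0), (0, 1)], [], [(1, 0, [3]), (2, 0, [3]), (3, 1, [])]⟩,
    ⟨[(0, 1)], [(0, 0), (1, 0), (1, 1), (1, 3)], [(0, 0), (0, 3)], [5], [(1, 0, [3]), (2,
      0, [3]), (5, 3, [0])]⟩,
    ⟨[(0, 1), (1, 2)], [(0, 0), (0, 1), (1, 0), (1, 1)], [(1, 1)], [2, 4], [(3, 1, []), (7,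
      1, [])]⟩,
    ⟨[(1, 2)], [(1, 0), (2, 0), (2, 3)], [(0, 3)], [4], [(2, 0, [3]), (5, 3, [0])]⟩,
    ⟨[(0, 3), (1, 3)], [(2, 3), (3, 1), (3, 3), (4, 3)], [(1, 3)], [4], [(5, 3, [0]), (7,
      1, [])]⟩]
  Ta := [((1, 0), 0, 2), ((1, 4), 0, 5), ((2, 3), 0, 1), ((2, 6), 0, 4), ((3, 2), 1, 0), ((3, 6),
    1, 4), ((7, 0), 1, 2), ((7, 5), 1, 3)]
  Tb := [((0, 1, 7), 2, 0, 1), ((1, 0, 4), 0, 2, 5), ((2, 3, 6), 0, 1, 4), ((3, 2, 6), 1, 0, 4),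
    ((4, 1, 5), 5, 0, 3), ((5, 4, 6), 3, 5, 4), ((5, 4, 7), 3, 5, 1), ((5, 6, 7), 3, 4, 1),
    ((6, 2, 3), 4, 0, 1), ((6, 2, 5), 4, 0, 3), ((6, 3, 5), 4, 1, 3), ((7, 0, 5), 1, 2, 3)]
  Tc := []
  Td := [((0, 3), (1, 0), 2), ((0, 3), (1, 4), 5), ((0, 3), (2, 3), 1), ((0, 3), (2, 6), 4), ((3,
    0), (5, 4), 5), ((3, 0), (5, 6), 4), ((3, 0), (5, 7), 1)]
  G := [[0, 0, 0x2142214c1111ce1188c4, 0, 0x829124314151e48], [0, 0, 0x1114c41811c1112cac2,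
    0xc1311211212ce84, 0xc131111d21e82], [0, 0x12a44c418116c12a126cac1, 0, 0,
    0x44848822922184c229ec2], [0, 0, 0, 0x1244c5292c68212c8a1, 0x141e449488416984c129ac2]]

noncomputable def n1170 : Ent := ⟨e1170, noF, [], [], []⟩

def c1170 : PLift (Cov.check n1170.C.D v1170 = true) := ⟨by decide +kernel⟩

def b1170 : PLift (entF (fidx ts) 400 1170 n1170 = true) := ⟨by decide +kernel⟩

theorem g1170 : GoodF (fidx ts) 400 1170 := GoodF.ofV v1170 n1170 c1170.down b1170.down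

/-- 466744:965/2 -/
noncomputable def e1171 : SCfg where
  D := {
    a := 6
    L := 9
    kp := 6
    inn := [(0, 1), (0, 3), (1, 0), (1, 2), (1, 3), (2, 1), (2, 4), (3, 0), (3, 1), (3, 5), (4, 2), (5,
      3)]
    mix := [(0, 0), (0, 1), (1, 1), (1, 2), (1, 3), (2, 1), (2, 2), (2, 4), (2, 5), (3, 0), (3, 3), (3,
      6), (3, 7), (4, 2), (4, 5), (4, 8), (5, 5), (5, 6), (5, 7)]
    cl := [1, 0, 0, 2, 5, 3, 1, 4, 6]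
    chq := [(5, 6), (6, 5)]
    rng := [(0, 1), (0, 7), (1, 0), (1, 4), (2, 3), (2, 8), (3, 2), (3, 6), (4, 1), (4, 5), (5, 4), (5,
      6), (5, 7), (5, 8), (6, 3), (6, 5), (7, 0), (7, 5), (8, 2), (8, 5)]
    lev := [] }
  links := [[1, 3, 6, 7], [3, 0, 7, 2, 8, 9], [8, 1, 7, 10, 11, 4], [6, 0, 1, 9, 12, 5, 13], [8, 2, 11,
    14], [13, 3, 12, 11]]
  P := {
    a := 6
    N := 15
    nb := [202, 909, 3474, 12899, 18692, 14344, 8329, 1095, 16918, 4362, 2180, 29748, 2600, 2152,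
      2320]
    tri := [(0, 1, 3), (0, 1, 7), (0, 3, 6), (0, 6, 7), (1, 2, 7), (1, 2, 8), (1, 3, 9), (1, 8, 9), (2,
      4, 8), (2, 4, 11), (2, 7, 10), (2, 10, 11), (3, 5, 12), (3, 5, 13), (3, 6, 13), (3, 9, 12),
      (4, 8, 14), (4, 11, 14), (5, 11, 12), (5, 11, 13)]
    fin := [0, 1, 2, 0, 2, 0, 0, 1, 1, 9, 2, 11, 0, 13, 14]
    chd := [(2, 14)]
    steps := [(0, 3), (0, 5), (0, 6), (0, 12), (1, 7), (1, 8), (2, 4), (2, 10)] }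
  rep := [1, 0, 9, 11, 13, 2, 14]

noncomputable def v1171 : Cov.CovD where
  P := 3
  N := 4
  pl := [3, 5, 7]
  lev := [⟨[], [], [(0, 1)], [], [(0, 1, []), (1, 0, [])]⟩,
    ⟨[], [(0, 0), (0, 1)], [(0, 0)], [2], [(1, 0, []), (2, 0, [])]⟩,
    ⟨[(0, 1)], [(0, 0), (1, 0), (1, 5)], [(0, 0), (0, 5)], [3], [(1, 0, []), (2, 0, []),
      (4, 5, [6])]⟩,
    ⟨[(0, 1), (1, 2)], [(0, 0), (0, 1), (1, 0), (1, 1)], [(1, 1)], [2, 4], [(0, 1, []), (6,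
      1, [])]⟩,
    ⟨[(1, 2)], [(1, 0), (2, 0), (2, 5), (2, 6)], [(0, 6)], [3], [(2, 0, []), (8, 6, [5])]⟩,
    ⟨[(0, 3), (1, 3)], [(3, 1)], [], [3, 4], [(6, 1, [])]⟩]
  Ta := [((0, 1), 1, 0), ((0, 7), 1, 4), ((1, 0), 0, 1), ((1, 4), 0, 5), ((2, 3), 0, 2), ((2, 8),
    0, 6), ((6, 3), 1, 2), ((6, 5), 1, 3)]
  Tb := [((0, 1, 7), 1, 0, 4), ((1, 0, 4), 0, 1, 5), ((2, 3, 8), 0, 2, 6), ((3, 2, 6), 2, 0, 1),
    ((4, 1, 5), 5, 0, 3), ((5, 4, 6), 3, 5, 1), ((5, 4, 7), 3, 5, 4), ((5, 4, 8), 3, 5, 6),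
    ((5, 6, 7), 3, 1, 4), ((5, 6, 8), 3, 1, 6), ((5, 7, 8), 3, 4, 6), ((6, 3, 5), 1, 2, 3),
    ((7, 0, 5), 4, 1, 3), ((8, 2, 5), 6, 0, 3)]
  Tc := []
  Td := [((5, 6), (4, 1), 0), ((5, 6), (4, 5), 3), ((6, 5), (8, 2), 0), ((6, 5), (8, 5), 3)]
  G := [[0, 0x1141111c2111ce8188c4, 0, 0, 0x82219412298494159e24], [0, 0, 0,
    0x421154411568212c888ac2, 0x88341595144a9849119e24], [0, 0, 0x2242c22c14cc68212c8a1, 0,
    0x822294222982c24c9e24], [0, 0, 0x11a44ac14c46886116c81c8ac2, 0x8212c4252984c15c9e42,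
    0x4411c92886416985a44a9888ea4]]

noncomputable def n1171 : Ent := ⟨e1171, noF, [], [], [(14, 12, [81623781614101222371308947630499991391842216896340255383553, 0])]⟩

def c1171 : PLift (Cov.check n1171.C.D v1171 = true) := ⟨by decide +kernel⟩

def b1171 : PLift (entF (fidx ts) 400 1171 n1171 = true) := ⟨by decide +kernel⟩

theorem g1171 : GoodF (fidx ts) 400 1171 := GoodF.ofV v1171 n1171 c1171.down b1171.down

/-- 466744:965/4 -/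
noncomputable def e1172 : SCfg where
  D := {
    a := 6
    L := 9
    kp := 6
    inn := [(0, 1), (0, 3), (1, 0), (1, 2), (1, 3), (2, 1), (2, 4), (3, 0), (3, 1), (3, 5), (4, 2), (5,
      3)]
    mix := [(0, 0), (0, 1), (1, 1), (1, 2), (1, 3), (2, 1), (2, 2), (2, 4), (2, 5), (3, 0), (3, 3), (3,
      6), (3, 7), (4, 2), (4, 5), (4, 6), (5, 6), (5, 7), (5, 8)]
    cl := [4, 0, 0, 1, 5, 3, 2, 1, 6]
    chq := [(0, 3), (3, 0)]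
    rng := [(0, 1), (0, 7), (1, 0), (1, 4), (2, 3), (2, 6), (3, 2), (3, 6), (4, 1), (4, 5), (5, 4), (5,
      6), (6, 2), (6, 3), (6, 5), (6, 8), (7, 0), (7, 8), (8, 6), (8, 7)]
    lev := [] }
  links := [[1, 3, 6, 7], [3, 0, 7, 2, 8, 9], [8, 1, 7, 10, 11, 4], [6, 0, 1, 9, 12, 5, 13], [8, 2, 11,
    12], [13, 3, 12, 14]]
  P := {
    a := 6
    N := 15
    nb := [202, 909, 3474, 12899, 6404, 28680, 8329, 1095, 4630, 4362, 2180, 5140, 19256, 16488,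
      12320]
    tri := [(0, 1, 3), (0, 1, 7), (0, 3, 6), (0, 6, 7), (1, 2, 7), (1, 2, 8), (1, 3, 9), (1, 8, 9), (2,
      4, 8), (2, 4, 11), (2, 7, 10), (2, 10, 11), (3, 5, 12), (3, 5, 13), (3, 6, 13), (3, 9, 12),
      (4, 8, 12), (4, 11, 12), (5, 12, 14), (5, 13, 14)]
    fin := [0, 0, 2, 3, 2, 5, 0, 2, 2, 3, 10, 11, 5, 3, 14]
    chd := [(2, 11)]
    steps := [(0, 1), (0, 6), (2, 4), (2, 7), (2, 8), (3, 9), (3, 13), (5, 12)] }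
  rep := [2, 3, 5, 11, 0, 10, 14]

noncomputable def v1172 : Cov.CovD where
  P := 3
  N := 4
  pl := [0, 4, 6, 8]
  lev := [⟨[], [], [], [4], [(1, 0, [3])]⟩,
    ⟨[], [(0, 0), (0, 1)], [(0, 0), (0, 1)], [], [(1, 0, [3]), (2, 0, [3]), (3, 1, [])]⟩,
    ⟨[(0, 1)], [(0, 0), (1, 0), (1, 1), (1, 3)], [(0, 0), (0, 3)], [5], [(1, 0, [3]), (2,
      0, [3]), (5, 3, [0])]⟩,
    ⟨[(0, 1), (1, 2)], [(0, 0), (0, 1), (1, 0), (1, 1)], [(1, 1)], [2, 4], [(3, 1, []), (7,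
      1, [])]⟩,
    ⟨[(1, 2)], [(1, 0), (2, 0), (2, 3)], [(0, 3)], [2], [(2, 0, [3]), (5, 3, [0])]⟩,
    ⟨[(0, 3), (1, 3)], [(3, 1)], [], [2, 6], [(7, 1, [])]⟩]
  Ta := [((1, 0), 0, 4), ((1, 4), 0, 5), ((2, 3), 0, 1), ((2, 6), 0, 2), ((3, 2), 1, 0), ((3, 6),
    1, 2), ((7, 0), 1, 4), ((7, 8), 1, 6)]
  Tb := [((0, 1, 7), 4, 0, 1), ((1, 0, 4), 0, 4, 5), ((2, 3, 6), 0, 1, 2), ((3, 2, 6), 1, 0, 2),
    ((4, 1, 5), 5, 0, 3), ((5, 4, 6), 3, 5, 2), ((6, 2, 3), 2, 0, 1), ((6, 2, 5), 2, 0, 3),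
    ((6, 2, 8), 2, 0, 6), ((6, 3, 5), 2, 1, 3), ((6, 3, 8), 2, 1, 6), ((6, 5, 8), 2, 3, 6),
    ((7, 0, 8), 1, 4, 6), ((8, 6, 7), 6, 2, 1)]
  Tc := []
  Td := [((0, 3), (1, 0), 4), ((0, 3), (1, 4), 5), ((0, 3), (2, 3), 1), ((0, 3), (2, 6), 2), ((3,
    0), (5, 4), 5), ((3, 0), (5, 6), 2)]
  G := [[0, 0, 0, 0x51c4991c156985898c2, 0x212892121922229e42], [0, 0, 0, 0,
    0x9114988921ac981918928e46], [0, 0x1818c1414c11c11cce21, 0x2424c2222c62828c8c1,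
    0x541c9c165818c2, 0x28122a1221e42], [0, 0, 0xc44c246c282c8c8cc48ce1, 0,
    0x9212898199a1921e498899a8c27]]

noncomputable def n1172 : Ent := ⟨e1172, noF, [], [], [(11, 14, [81620716623019490593592230936445690773474979418095888179201, 0])]⟩

def c1172 : PLift (Cov.check n1172.C.D v1172 = true) := ⟨by decide +kernel⟩

def b1172 : PLift (entF (fidx ts) 400 1172 n1172 = true) := ⟨by decide +kernel⟩

theorem g1172 : GoodF (fidx ts) 400 1172 := GoodF.ofV v1172 n1172 c1172.down b1172.down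

/-- 466744:965/5 -/
noncomputable def e1173 : SCfg where
  D := {
    a := 6
    L := 9
    kp := 6
    inn := [(0, 1), (0, 3), (1, 0), (1, 2), (1, 3), (2, 1), (2, 4), (3, 0), (3, 1), (3, 5), (4, 2), (5,
      3)]
    mix := [(0, 0), (0, 1), (1, 1), (1, 2), (1, 3), (2, 1), (2, 2), (2, 4), (2, 5), (3, 0), (3, 3), (3,
      6), (3, 7), (4, 2), (4, 5), (4, 8), (5, 6), (5, 7), (5, 8)]
    cl := [2, 0, 0, 1, 6, 3, 4, 1, 5]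
    chq := [(0, 3), (3, 0)]
    rng := [(0, 1), (0, 7), (1, 0), (1, 4), (2, 3), (2, 8), (3, 2), (3, 6), (4, 1), (4, 5), (5, 4), (5,
      8), (6, 3), (6, 8), (7, 0), (7, 8), (8, 2), (8, 5), (8, 6), (8, 7)]
    lev := [] }
  links := [[1, 3, 6, 7], [3, 0, 7, 2, 8, 9], [8, 1, 7, 10, 11, 4], [6, 0, 1, 9, 12, 5, 13], [8, 2, 11,
    14], [13, 3, 12, 14]]
  P := {
    a := 6
    N := 15
    nb := [202, 909, 3474, 12899, 18692, 28680, 8329, 1095, 16918, 4362, 2180, 17428, 16936, 16488,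
      14640]
    tri := [(0, 1, 3), (0, 1, 7), (0, 3, 6), (0, 6, 7), (1, 2, 7), (1, 2, 8), (1, 3, 9), (1, 8, 9), (2,
      4, 8), (2, 4, 11), (2, 7, 10), (2, 10, 11), (3, 5, 12), (3, 5, 13), (3, 6, 13), (3, 9, 12),
      (4, 8, 14), (4, 11, 14), (5, 12, 14), (5, 13, 14)]
    fin := [0, 0, 2, 3, 2, 5, 0, 2, 2, 3, 10, 11, 12, 3, 5]
    chd := [(2, 11)]
    steps := [(0, 1), (0, 6), (2, 4), (2, 7), (2, 8), (3, 9), (3, 13), (5, 14)] }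
  rep := [2, 3, 0, 11, 12, 5, 10]

noncomputable def v1173 : Cov.CovD where
  P := 3
  N := 4
  pl := [0, 4, 6, 8]
  lev := [⟨[], [], [], [2], [(1, 0, [3])]⟩,
    ⟨[], [(0, 0), (0, 1)], [(0, 0), (0, 1)], [], [(1, 0, [3]), (2, 0, [3]), (3, 1, [])]⟩,
    ⟨[(0, 1)], [(0, 0), (1, 0), (1, 1), (1, 3)], [(0, 0), (0, 3)], [6], [(1, 0, [3]), (2,
      0, [3]), (5, 3, [0])]⟩,
    ⟨[(0, 1), (1, 2)], [(0, 0), (0, 1), (1, 0), (1, 1)], [(1, 1)], [2, 4], [(3, 1, []), (7,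
      1, [])]⟩,
    ⟨[(1, 2)], [(1, 0), (2, 0), (2, 3)], [(0, 3)], [5], [(2, 0, [3]), (5, 3, [0])]⟩,
    ⟨[(0, 3), (1, 3)], [(3, 1)], [], [4, 5], [(7, 1, [])]⟩]
  Ta := [((1, 0), 0, 2), ((1, 4), 0, 6), ((2, 3), 0, 1), ((2, 8), 0, 5), ((3, 2), 1, 0), ((3, 6),
    1, 4), ((7, 0), 1, 2), ((7, 8), 1, 5)]
  Tb := [((0, 1, 7), 2, 0, 1), ((1, 0, 4), 0, 2, 6), ((2, 3, 8), 0, 1, 5), ((3, 2, 6), 1, 0, 4),
    ((4, 1, 5), 6, 0, 3), ((5, 4, 8), 3, 6, 5), ((6, 3, 8), 4, 1, 5), ((7, 0, 8), 1, 2, 5),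
    ((8, 2, 5), 5, 0, 3), ((8, 2, 6), 5, 0, 4), ((8, 2, 7), 5, 0, 1), ((8, 5, 6), 5, 3, 4),
    ((8, 5, 7), 5, 3, 1), ((8, 6, 7), 5, 4, 1)]
  Tc := []
  Td := [((0, 3), (1, 0), 2), ((0, 3), (1, 4), 6), ((0, 3), (2, 3), 1), ((0, 3), (2, 8), 5), ((3,
    0), (5, 4), 6), ((3, 0), (5, 8), 5)]
  G := [[0, 0, 0x2141121c2212ce1188c4, 0, 0x21113923321922129e48], [0, 0, 0x5191c211d1c11d1cc68,
    0xc11135c21256cc31158a8, 0x4411594844d11998898c11139ec2], [0,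
    0x211e112ec112e111ec6111e121ec8a4, 0, 0, 0x24212e94222ea14e988a822529ec2], [0, 0, 0,
    0x848e191e5c2925644698c11ed8c8, 0x511e1415e1a444151e94844e888a884ce8eca]]

noncomputable def n1173 : Ent := ⟨e1173, noF, [], [], []⟩

def c1173 : PLift (Cov.check n1173.C.D v1173 = true) := ⟨by decide +kernel⟩

def b1173 : PLift (entF (fidx ts) 400 1173 n1173 = true) := ⟨by decide +kernel⟩

theorem g1173 : GoodF (fidx ts) 400 1173 := GoodF.ofV v1173 n1173 c1173.down b1173.down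

/-- 466744:965 -/
noncomputable def e1174 : SCfg where
  D := {
    a := 6
    L := 10
    kp := 7
    inn := [(0, 1), (0, 3), (1, 0), (1, 2), (1, 3), (2, 1), (2, 4), (3, 0), (3, 1), (3, 5), (4, 2), (5,
      3)]
    mix := [(0, 0), (0, 1), (1, 1), (1, 2), (1, 3), (2, 1), (2, 2), (2, 4), (2, 5), (3, 0), (3, 3), (3,
      6), (3, 7), (4, 2), (4, 5), (4, 8), (5, 6), (5, 7), (5, 9)]
    cl := [2, 0, 0, 1, 5, 3, 4, 1, 6, 7]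
    chq := [(0, 3), (3, 0)]
    rng := [(0, 1), (0, 7), (1, 0), (1, 4), (2, 3), (2, 8), (3, 2), (3, 6), (4, 1), (4, 5), (5, 4), (5,
      8), (6, 3), (6, 9), (7, 0), (7, 9), (8, 2), (8, 5), (9, 6), (9, 7)]
    lev := [] }
  links := [[1, 3, 6, 7], [3, 0, 7, 2, 8, 9], [8, 1, 7, 10, 11, 4], [6, 0, 1, 9, 12, 5, 13], [8, 2, 11,
    14], [13, 3, 12, 15]]
  P := {
    a := 6
    N := 16
    nb := [202, 909, 3474, 12899, 18692, 45064, 8329, 1095, 16918, 4362, 2180, 17428, 33320, 32872,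
      2320, 12320]
    tri := [(0, 1, 3), (0, 1, 7), (0, 3, 6), (0, 6, 7), (1, 2, 7), (1, 2, 8), (1, 3, 9), (1, 8, 9), (2,
      4, 8), (2, 4, 11), (2, 7, 10), (2, 10, 11), (3, 5, 12), (3, 5, 13), (3, 6, 13), (3, 9, 12),
      (4, 8, 14), (4, 11, 14), (5, 12, 15), (5, 13, 15)]
    fin := [0, 0, 2, 3, 2, 3, 0, 2, 2, 3, 10, 11, 12, 3, 14, 15]
    chd := [(2, 11)]
    steps := [(0, 1), (0, 6), (2, 4), (2, 7), (2, 8), (3, 5), (3, 9), (3, 13)] }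
  rep := [2, 3, 0, 11, 12, 10, 14, 15]

noncomputable def v1174 : Cov.CovD where
  P := 3
  N := 5
  pl := [0, 4, 6, 8, 9]
  lev := [⟨[], [], [], [2], [(1, 0, [3])]⟩,
    ⟨[], [(0, 0), (0, 1)], [(0, 0), (0, 1)], [], [(1, 0, [3]), (2, 0, [3]), (3, 1, [])]⟩,
    ⟨[(0, 1)], [(0, 0), (1, 0), (1, 1), (1, 3)], [(0, 0), (0, 3)], [5], [(1, 0, [3]), (2,
      0, [3]), (5, 3, [0])]⟩,
    ⟨[(0, 1), (1, 2)], [(0, 0), (0, 1), (1, 0), (1, 1)], [(1, 1)], [2, 4], [(3, 1, []), (7,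
      1, [])]⟩,
    ⟨[(1, 2)], [(1, 0), (2, 0), (2, 3)], [(0, 3)], [6], [(2, 0, [3]), (5, 3, [0])]⟩,
    ⟨[(0, 3), (1, 3)], [(3, 1)], [], [4, 7], [(7, 1, [])]⟩]
  Ta := [((1, 0), 0, 2), ((1, 4), 0, 5), ((2, 3), 0, 1), ((2, 8), 0, 6), ((3, 2), 1, 0), ((3, 6),
    1, 4), ((7, 0), 1, 2), ((7, 9), 1, 7)]
  Tb := [((0, 1, 7), 2, 0, 1), ((1, 0, 4), 0, 2, 5), ((2, 3, 8), 0, 1, 6), ((3, 2, 6), 1, 0, 4),
    ((4, 1, 5), 5, 0, 3), ((5, 4, 8), 3, 5, 6), ((6, 3, 9), 4, 1, 7), ((7, 0, 9), 1, 2, 7),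
    ((8, 2, 5), 6, 0, 3), ((9, 6, 7), 7, 4, 1)]
  Tc := []
  Td := [((0, 3), (1, 0), 2), ((0, 3), (1, 4), 5), ((0, 3), (2, 3), 1), ((0, 3), (2, 8), 6), ((3,
    0), (5, 4), 5), ((3, 0), (5, 8), 6)]
  G := [[0, 0, 0x21431a1c7121ce9188c4, 0, 0xc29255d9223e19c25525b9e42], [0, 0,
    0x514514514e918918918ec2, 0xccce5599c15539acccb5559464, 0xcc3555b9cc9519cccb55579e42],
    [0, 0x111e111ec111e111eca111e111ec461, 0, 0, 0x262e535e94c22e255e9cc2e225e9ac2], [0, 0,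
    0, 0xccce555e92ccce555e9ccce555e9c64, 0x555e14ccce555e9cca8ccce555e9ecc48423]]

noncomputable def n1174 : Ent := ⟨e1174, noF, [], [], [(10, 15, [360035742630636841211993100915356868655746945586763691012460545, 0]), (11, 15, [360035742630636841211993100915356868655746945586763691012468737, 0]), (14, 12, [385746754403771767352442211109509524596720560724766620744499201, 0]), (14, 15, [360035742630636841211993100915356868655746945586763691012476929, 0])]⟩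

def c1174 : PLift (Cov.check n1174.C.D v1174 = true) := ⟨by decide +kernel⟩

def b1174 : PLift (entF (fidx ts) 400 1174 n1174 = true) := ⟨by decide +kernel⟩

theorem g1174 : GoodF (fidx ts) 400 1174 := GoodF.ofV v1174 n1174 c1174.down b1174.down

/-- 486454:968/1 -/
noncomputable def e1175 : SCfg where
  D := {
    a := 6
    L := 10
    kp := 7
    inn := [(0, 1), (1, 0), (1, 2), (1, 4), (2, 1), (2, 3), (3, 2), (4, 1), (4, 5), (5, 4)]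
    mix := [(0, 0), (0, 1), (0, 2), (1, 0), (1, 2), (1, 3), (1, 4), (1, 5), (2, 3), (2, 4), (2, 6), (2,
      7), (3, 3), (3, 6), (3, 8), (4, 0), (4, 5), (4, 9), (5, 5), (5, 7), (5, 9)]
    cl := [0, 6, 3, 1, 1, 0, 4, 2, 7, 5]
    chq := [(1, 6), (2, 7), (6, 1), (7, 2)]
    rng := [(0, 1), (0, 9), (1, 0), (1, 2), (2, 1), (2, 3), (3, 2), (3, 8), (4, 5), (4, 7), (5, 4), (5,
      7), (6, 7), (6, 8), (7, 4), (7, 5), (7, 6), (7, 9), (8, 3), (8, 6), (9, 0), (9, 7)]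
    lev := [] }
  links := [[1, 6, 7, 8], [6, 0, 8, 9, 2, 10, 11, 4], [10, 1, 9, 3, 12, 13], [12, 2, 9, 14], [6, 1, 11,
    5, 15], [15, 4, 11, 13]]
  P := {
    a := 6
    N := 16
    nb := [450, 3925, 13834, 20996, 34914, 43024, 32915, 321, 643, 16654, 10246, 9266, 24588, 39972,
      4616, 8304]
    tri := [(0, 1, 6), (0, 1, 8), (0, 6, 7), (0, 7, 8), (1, 2, 9), (1, 2, 10), (1, 4, 6), (1, 4, 11),
      (1, 8, 9), (1, 10, 11), (2, 3, 9), (2, 3, 12), (2, 10, 13), (2, 12, 13), (3, 9, 14), (3, 12,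
      14), (4, 5, 11), (4, 5, 15), (4, 6, 15), (5, 11, 13), (5, 13, 15)]
    fin := [0, 1, 2, 2, 4, 4, 4, 0, 8, 1, 1, 4, 12, 13, 2, 15]
    chd := [(0, 1), (13, 2)]
    steps := [(0, 7), (1, 9), (1, 10), (2, 3), (2, 14), (4, 5), (4, 6), (4, 11)] }
  rep := [4, 1, 13, 8, 12, 15, 0, 2]

noncomputable def v1175 : Cov.CovD where
  P := 3
  N := 5
  pl := [2, 6, 9]
  lev := [⟨[], [], [(0, 6)], [3], [(0, 0, []), (1, 6, [1])]⟩,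
    ⟨[], [(0, 0), (0, 1), (0, 6)], [(0, 0), (0, 1), (1, 1)], [3], [(0, 0, []), (3, 1, [6]),
      (4, 1, [6]), (5, 0, [])]⟩,
    ⟨[(0, 1)], [(1, 0), (1, 1), (1, 2)], [(1, 1), (1, 2)], [4], [(3, 1, [6]), (4, 1, [6]),
      (7, 2, [7])]⟩,
    ⟨[(1, 2)], [(1, 1), (2, 1), (2, 2), (2, 7)], [(1, 7)], [4], [(3, 1, [6]), (8, 7, [2])]⟩,
    ⟨[(0, 1), (1, 2)], [(0, 0), (1, 0), (1, 1)], [(0, 0)], [5], [(0, 0, []), (5, 0, [])]⟩,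
    ⟨[(1, 4)], [(1, 0), (2, 2), (4, 0), (4, 2)], [(0, 2)], [5], [(5, 0, []), (7, 2, [7])]⟩]
  Ta := [((0, 1), 0, 6), ((0, 9), 0, 5), ((3, 2), 1, 3), ((3, 8), 1, 7), ((4, 5), 1, 0), ((4, 7),
    1, 2), ((5, 4), 0, 1), ((5, 7), 0, 2)]
  Tb := [((0, 1, 9), 0, 6, 5), ((1, 0, 2), 6, 0, 3), ((2, 1, 3), 3, 6, 1), ((3, 2, 8), 1, 3, 7),
    ((4, 5, 7), 1, 0, 2), ((5, 4, 7), 0, 1, 2), ((6, 7, 8), 4, 2, 7), ((7, 4, 5), 2, 1, 0),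
    ((7, 4, 6), 2, 1, 4), ((7, 4, 9), 2, 1, 5), ((7, 5, 6), 2, 0, 4), ((7, 5, 9), 2, 0, 5),
    ((7, 6, 9), 2, 4, 5), ((8, 3, 6), 7, 1, 4), ((9, 0, 7), 5, 0, 2)]
  Tc := []
  Td := [((1, 6), (3, 2), 3), ((1, 6), (3, 8), 7), ((1, 6), (4, 5), 0), ((1, 6), (4, 7), 2), ((2,
    7), (7, 4), 1), ((2, 7), (7, 5), 0), ((2, 7), (7, 6), 4), ((2, 7), (7, 9), 5), ((6, 1),
    (1, 0), 0), ((6, 1), (1, 2), 3), ((7, 2), (8, 3), 1), ((7, 2), (8, 6), 4)]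
  G := [[0, 0, 0, 0, 0x3482634d182a48c81a82a82ad81a49412643412a94d912a81ac1263459ce], [0, 0, 0,
    0xc2292259225229c2, 0x826221c4912a282c49c2], [0, 0, 0x48618261c882c182a1c43, 0,
    0xa482ca4d8264948264a4826a4d983], [0, 0x84a184a2c84c284c1c61, 0x426142a1c826184a1cc2,
    0xc22c22584a2c225c2, 0x82628264982a482c29c2]]

noncomputable def n1175 : Ent := ⟨e1175, noF, [], [], []⟩

def c1175 : PLift (Cov.check n1175.C.D v1175 = true) := ⟨by decide +kernel⟩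

def b1175 : PLift (entF (fidx ts) 400 1175 n1175 = true) := ⟨by decide +kernel⟩

theorem g1175 : GoodF (fidx ts) 400 1175 := GoodF.ofV v1175 n1175 c1175.down b1175.down

/-- 486454:968 -/
noncomputable def e1176 : SCfg where
  D := {
    a := 6
    L := 11
    kp := 8
    inn := [(0, 1), (1, 0), (1, 2), (1, 4), (2, 1), (2, 3), (3, 2), (4, 1), (4, 5), (5, 4)]
    mix := [(0, 0), (0, 1), (0, 2), (1, 0), (1, 2), (1, 3), (1, 4), (1, 5), (2, 3), (2, 4), (2, 6), (2,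
      7), (3, 3), (3, 6), (3, 8), (4, 0), (4, 5), (4, 9), (5, 5), (5, 9), (5, 10)]
    cl := [0, 5, 2, 1, 1, 0, 3, 6, 7, 4, 8]
    chq := [(1, 5), (5, 1), (6, 7), (7, 6)]
    rng := [(0, 1), (0, 9), (1, 0), (1, 2), (2, 1), (2, 3), (3, 2), (3, 8), (4, 5), (4, 7), (5, 4), (5,
      10), (6, 7), (6, 8), (7, 4), (7, 6), (8, 3), (8, 6), (9, 0), (9, 10), (10, 5), (10, 9)]
    lev := [] }
  links := [[1, 6, 7, 8], [6, 0, 8, 9, 2, 10, 11, 4], [10, 1, 9, 3, 12, 13], [12, 2, 9, 14], [6, 1, 11,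
    5, 15], [15, 4, 11, 16]]
  P := {
    a := 6
    N := 17
    nb := [450, 3925, 13834, 20996, 34914, 100368, 32915, 321, 643, 16654, 10246, 66610, 24588, 5124,
      4616, 65648, 34848]
    tri := [(0, 1, 6), (0, 1, 8), (0, 6, 7), (0, 7, 8), (1, 2, 9), (1, 2, 10), (1, 4, 6), (1, 4, 11),
      (1, 8, 9), (1, 10, 11), (2, 3, 9), (2, 3, 12), (2, 10, 13), (2, 12, 13), (3, 9, 14), (3, 12,
      14), (4, 5, 11), (4, 5, 15), (4, 6, 15), (5, 11, 16), (5, 15, 16)]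
    fin := [0, 1, 2, 2, 4, 4, 4, 0, 8, 1, 1, 4, 12, 13, 2, 15, 16]
    chd := [(0, 1), (13, 2)]
    steps := [(0, 7), (1, 9), (1, 10), (2, 3), (2, 14), (4, 5), (4, 6), (4, 11)] }
  rep := [4, 1, 8, 12, 15, 0, 13, 2, 16]

noncomputable def v1176 : Cov.CovD where
  P := 3
  N := 6
  pl := [2, 6, 9, 10]
  lev := [⟨[], [], [(0, 5)], [2], [(0, 0, []), (1, 5, [1])]⟩,
    ⟨[], [(0, 0), (0, 1), (0, 5)], [(0, 0), (0, 1), (1, 1)], [2], [(0, 0, []), (3, 1, [5]),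
      (4, 1, [5]), (5, 0, [])]⟩,
    ⟨[(0, 1)], [(1, 0), (1, 1), (1, 6)], [(1, 1), (1, 6)], [3], [(3, 1, [5]), (4, 1, [5]),
      (7, 6, [7])]⟩,
    ⟨[(1, 2)], [(1, 1), (2, 1), (2, 6), (2, 7)], [(1, 7)], [3], [(3, 1, [5]), (8, 7, [6])]⟩,
    ⟨[(0, 1), (1, 2)], [(0, 0), (1, 0), (1, 1)], [(0, 0)], [4], [(0, 0, []), (5, 0, [])]⟩,
    ⟨[(1, 4)], [(1, 0), (4, 0)], [], [4, 8], [(5, 0, [])]⟩]
  Ta := [((0, 1), 0, 5), ((0, 9), 0, 4), ((3, 2), 1, 2), ((3, 8), 1, 7), ((4, 5), 1, 0), ((4, 7),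
    1, 6), ((5, 4), 0, 1), ((5, 10), 0, 8)]
  Tb := [((0, 1, 9), 0, 5, 4), ((1, 0, 2), 5, 0, 2), ((2, 1, 3), 2, 5, 1), ((3, 2, 8), 1, 2, 7),
    ((4, 5, 7), 1, 0, 6), ((5, 4, 10), 0, 1, 8), ((6, 7, 8), 3, 6, 7), ((7, 4, 6), 6, 1, 3),
    ((8, 3, 6), 7, 1, 3), ((9, 0, 10), 4, 0, 8), ((10, 5, 9), 8, 0, 4)]
  Tc := []
  Td := [((1, 5), (3, 2), 2), ((1, 5), (3, 8), 7), ((1, 5), (4, 5), 0), ((1, 5), (4, 7), 6), ((5,
    1), (1, 0), 0), ((5, 1), (1, 2), 2), ((6, 7), (7, 4), 1), ((6, 7), (7, 6), 3), ((7, 6),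
    (8, 3), 1), ((7, 6), (8, 6), 3)]
  G := [[0, 0, 0xc16c1651a6c1691a616ccd82, 0x16a53c571a16a91a653acd4c16956539616c916c1a6cd8c,
    0xc16c16516c39a916a16ccd82], [0, 0, 0xc1a216a16a9c1ac1a6d42, 0, 0x1a621a616a3c161a66d82],
    [0, 0, 0xca6ca65ca6ca69ca6ca6cd82, 0xca6ca69ca6ca6c5c6ac6a58c1,
    0xca6ca65ca6ca69ca6ca6cd81], [0, 0xca6ca63ca61ca6ca6ce81, 0xc6ac6a6c6ac6a9c6a2d42, 0,
    0xca6ca63ca62ca6ca6cd81]]

noncomputable def n1176 : Ent := ⟨e1176, noF, [], [], [(13, 16, [1580044410770988437309982408355971841652082177953823432505693925377, 0])]⟩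

def c1176 : PLift (Cov.check n1176.C.D v1176 = true) := ⟨by decide +kernel⟩

def b1176 : PLift (entF (fidx ts) 400 1176 n1176 = true) := ⟨by decide +kernel⟩

theorem g1176 : GoodF (fidx ts) 400 1176 := GoodF.ofV v1176 n1176 c1176.down b1176.down

/-- 486454:969/1 -/
noncomputable def e1177 : SCfg where
  D := {
    a := 6
    L := 10
    kp := 7
    inn := [(0, 1), (1, 0), (1, 2), (1, 4), (2, 1), (2, 3), (3, 2), (4, 1), (4, 5), (5, 4)]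
    mix := [(0, 0), (0, 1), (0, 2), (1, 0), (1, 2), (1, 3), (1, 4), (1, 5), (2, 3), (2, 4), (2, 6), (2,
      7), (3, 3), (3, 6), (3, 8), (4, 0), (4, 5), (4, 9), (5, 0), (5, 1), (5, 9)]
    cl := [0, 3, 2, 1, 1, 0, 4, 6, 7, 5]
    chq := [(1, 3), (3, 1), (6, 7), (7, 6)]
    rng := [(0, 1), (1, 0), (1, 2), (1, 9), (2, 1), (2, 3), (3, 2), (3, 8), (4, 5), (4, 7), (5, 4), (5,
      9), (6, 7), (6, 8), (7, 4), (7, 6), (8, 3), (8, 6), (9, 1), (9, 5)]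
    lev := [] }
  links := [[1, 6, 7, 8], [6, 0, 8, 9, 2, 10, 11, 4], [10, 1, 9, 3, 12, 13], [12, 2, 9, 14], [6, 1, 11,
    15, 5], [6, 4, 15, 7]]
  P := {
    a := 6
    N := 16
    nb := [450, 3925, 13834, 20996, 34914, 32976, 179, 33121, 643, 16654, 10246, 33810, 24588, 5124,
      4616, 2224]
    tri := [(0, 1, 6), (0, 1, 8), (0, 6, 7), (0, 7, 8), (1, 2, 9), (1, 2, 10), (1, 4, 6), (1, 4, 11),
      (1, 8, 9), (1, 10, 11), (2, 3, 9), (2, 3, 12), (2, 10, 13), (2, 12, 13), (3, 9, 14), (3, 12,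
      14), (4, 5, 6), (4, 5, 15), (4, 11, 15), (5, 6, 7), (5, 7, 15)]
    fin := [0, 1, 2, 2, 4, 4, 4, 0, 8, 1, 1, 4, 12, 13, 2, 15]
    chd := [(0, 1), (13, 2)]
    steps := [(0, 7), (1, 9), (1, 10), (2, 3), (2, 14), (4, 5), (4, 6), (4, 11)] }
  rep := [4, 1, 8, 0, 12, 15, 13, 2]

noncomputable def v1177 : Cov.CovD where
  P := 3
  N := 5
  pl := [2, 6, 9]
  lev := [⟨[], [], [(0, 3)], [2], [(0, 0, []), (1, 3, [1])]⟩,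
    ⟨[], [(0, 0), (0, 1), (0, 3)], [(0, 0), (0, 1), (1, 1)], [2], [(0, 0, []), (3, 1, [3]),
      (4, 1, [3]), (5, 0, [])]⟩,
    ⟨[(0, 1)], [(1, 0), (1, 1), (1, 6)], [(1, 1), (1, 6)], [4], [(3, 1, [3]), (4, 1, [3]),
      (7, 6, [7])]⟩,
    ⟨[(1, 2)], [(1, 1), (2, 1), (2, 6), (2, 7)], [(1, 7)], [4], [(3, 1, [3]), (8, 7, [6])]⟩,
    ⟨[(0, 1), (1, 2)], [(0, 0), (1, 0), (1, 1)], [(0, 0)], [5], [(0, 0, []), (5, 0, [])]⟩,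
    ⟨[(1, 4)], [(0, 0), (0, 3), (1, 0), (4, 0), (4, 3)], [(0, 3)], [5], [(0, 0, []), (1, 3,
      [1])]⟩]
  Ta := [((0, 1), 0, 3), ((3, 2), 1, 2), ((3, 8), 1, 7), ((4, 5), 1, 0), ((4, 7), 1, 6), ((5, 4),
    0, 1), ((5, 9), 0, 5)]
  Tb := [((1, 0, 2), 3, 0, 2), ((1, 0, 9), 3, 0, 5), ((1, 2, 9), 3, 2, 5), ((2, 1, 3), 2, 3, 1),
    ((3, 2, 8), 1, 2, 7), ((4, 5, 7), 1, 0, 6), ((5, 4, 9), 0, 1, 5), ((6, 7, 8), 4, 6, 7),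
    ((7, 4, 6), 6, 1, 4), ((8, 3, 6), 7, 1, 4), ((9, 1, 5), 5, 3, 0)]
  Tc := []
  Td := [((1, 3), (3, 2), 2), ((1, 3), (3, 8), 7), ((1, 3), (4, 5), 0), ((1, 3), (4, 7), 6), ((3,
    1), (1, 0), 0), ((3, 1), (1, 2), 2), ((3, 1), (1, 9), 5), ((6, 7), (7, 4), 1), ((6, 7),
    (7, 6), 4), ((7, 6), (8, 3), 1), ((7, 6), (8, 6), 4)]
  G := [[0, 0, 0xca6ca694c6ac6a5c6ac6ac9c2, 0x82a82a582a82a982a82acd44264265426426924c426cd8c,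
    0xca6ca65ca6ca69ca6ca6cd82], [0, 0, 0xca68ca625c6ac6a6c6a2cc2, 0,
    0xca6ca65ca6ca6aca62d82], [0, 0, 0xc1a16a516a93a9a1ca1ccd42, 0xc2a482e5c2ac2a9c2ac2acd41,
    0x1a6c1651881414cd8246ac92828c583], [0, 0x1414862c6a54eac2aac8c6a5e49,
    0x396c1631a621a671ccd82, 0, 0xc1621a616a3c1671c6d82]]

noncomputable def n1177 : Ent := ⟨e1177, noF, [], [], []⟩

def c1177 : PLift (Cov.check n1177.C.D v1177 = true) := ⟨by decide +kernel⟩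

def b1177 : PLift (entF (fidx ts) 400 1177 n1177 = true) := ⟨by decide +kernel⟩

theorem g1177 : GoodF (fidx ts) 400 1177 := GoodF.ofV v1177 n1177 c1177.down b1177.down

/-- 486454:969 -/
noncomputable def e1178 : SCfg where
  D := {
    a := 6
    L := 11
    kp := 8
    inn := [(0, 1), (1, 0), (1, 2), (1, 4), (2, 1), (2, 3), (3, 2), (4, 1), (4, 5), (5, 4)]
    mix := [(0, 0), (0, 1), (0, 2), (1, 0), (1, 2), (1, 3), (1, 4), (1, 5), (2, 3), (2, 4), (2, 6), (2,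
      7), (3, 3), (3, 6), (3, 8), (4, 0), (4, 5), (4, 9), (5, 0), (5, 9), (5, 10)]
    cl := [0, 5, 2, 1, 1, 0, 3, 6, 7, 4, 8]
    chq := [(1, 5), (5, 1), (6, 7), (7, 6)]
    rng := [(0, 1), (0, 10), (1, 0), (1, 2), (2, 1), (2, 3), (3, 2), (3, 8), (4, 5), (4, 7), (5, 4),
      (5, 9), (6, 7), (6, 8), (7, 4), (7, 6), (8, 3), (8, 6), (9, 5), (9, 10), (10, 0), (10, 9)]
    lev := [] }
  links := [[1, 6, 7, 8], [6, 0, 8, 9, 2, 10, 11, 4], [10, 1, 9, 3, 12, 13], [12, 2, 9, 14], [6, 1, 11,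
    15, 5], [6, 4, 15, 16]]
  P := {
    a := 6
    N := 17
    nb := [450, 3925, 13834, 20996, 34914, 98384, 65715, 321, 643, 16654, 10246, 33810, 24588, 5124,
      4616, 67632, 32864]
    tri := [(0, 1, 6), (0, 1, 8), (0, 6, 7), (0, 7, 8), (1, 2, 9), (1, 2, 10), (1, 4, 6), (1, 4, 11),
      (1, 8, 9), (1, 10, 11), (2, 3, 9), (2, 3, 12), (2, 10, 13), (2, 12, 13), (3, 9, 14), (3, 12,
      14), (4, 5, 6), (4, 5, 15), (4, 11, 15), (5, 6, 16), (5, 15, 16)]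
    fin := [0, 1, 2, 2, 4, 4, 4, 0, 8, 1, 1, 4, 12, 13, 2, 15, 16]
    chd := [(0, 1), (13, 2)]
    steps := [(0, 7), (1, 9), (1, 10), (2, 3), (2, 14), (4, 5), (4, 6), (4, 11)] }
  rep := [4, 1, 8, 12, 15, 0, 13, 2, 16]

noncomputable def v1178 : Cov.CovD where
  P := 3
  N := 6
  pl := [2, 6, 9, 10]
  lev := [⟨[], [], [(0, 5)], [2], [(0, 0, []), (1, 5, [1])]⟩,
    ⟨[], [(0, 0), (0, 1), (0, 5)], [(0, 0), (0, 1), (1, 1)], [2], [(0, 0, []), (3, 1, [5]),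
      (4, 1, [5]), (5, 0, [])]⟩,
    ⟨[(0, 1)], [(1, 0), (1, 1), (1, 6)], [(1, 1), (1, 6)], [3], [(3, 1, [5]), (4, 1, [5]),
      (7, 6, [7])]⟩,
    ⟨[(1, 2)], [(1, 1), (2, 1), (2, 6), (2, 7)], [(1, 7)], [3], [(3, 1, [5]), (8, 7, [6])]⟩,
    ⟨[(0, 1), (1, 2)], [(0, 0), (1, 0), (1, 1)], [(0, 0)], [4], [(0, 0, []), (5, 0, [])]⟩,
    ⟨[(1, 4)], [(0, 0), (1, 0), (4, 0)], [], [4, 8], [(0, 0, [])]⟩]
  Ta := [((0, 1), 0, 5), ((0, 10), 0, 8), ((3, 2), 1, 2), ((3, 8), 1, 7), ((4, 5), 1, 0), ((4,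
    7), 1, 6), ((5, 4), 0, 1), ((5, 9), 0, 4)]
  Tb := [((0, 1, 10), 0, 5, 8), ((1, 0, 2), 5, 0, 2), ((2, 1, 3), 2, 5, 1), ((3, 2, 8), 1, 2, 7),
    ((4, 5, 7), 1, 0, 6), ((5, 4, 9), 0, 1, 4), ((6, 7, 8), 3, 6, 7), ((7, 4, 6), 6, 1, 3),
    ((8, 3, 6), 7, 1, 3), ((9, 5, 10), 4, 0, 8), ((10, 0, 9), 8, 0, 4)]
  Tc := []
  Td := [((1, 5), (3, 2), 2), ((1, 5), (3, 8), 7), ((1, 5), (4, 5), 0), ((1, 5), (4, 7), 6), ((5,
    1), (1, 0), 0), ((5, 1), (1, 2), 2), ((6, 7), (7, 4), 1), ((6, 7), (7, 6), 3), ((7, 6),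
    (8, 3), 1), ((7, 6), (8, 6), 3)]
  G := [[0, 0, 0xca61ca645c6ac6a5c6a8c6a8dc2,
    0xc6ac6a5c6ac6a9c6ac6acd4ca6ca69ca6ca6c5c6ac6a58cc, 0xca6ca65ca6ca69ca6ca6cd82], [0, 0,
    0xca6ca694c6ac6a6c6a29c2, 0, 0xca6ca63ca62ca6ca6ad82], [0, 0, 0xa1c35a516a95a9956a1ccd42,
    0xc6ac6a5c6ac6a9c6ac6acd41, 0xc16536516a35a9c1616ccd82], [0, 0xca6ca6a462c6a5c8c6a5ac1,
    0x1d653651a61a6a16c2d82, 0, 0xca6ca66ca6ca6aca62d81]]

noncomputable def n1178 : Ent := ⟨e1178, noF, [], [], [(7, 16, [1580044410770988437309982408355971841652082177953823432505693933569, 0])]⟩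

def c1178 : PLift (Cov.check n1178.C.D v1178 = true) := ⟨by decide +kernel⟩

def b1178 : PLift (entF (fidx ts) 400 1178 n1178 = true) := ⟨by decide +kernel⟩

theorem g1178 : GoodF (fidx ts) 400 1178 := GoodF.ofV v1178 n1178 c1178.down b1178.down

/-- 466744:970/2 -/
noncomputable def e1179 : SCfg where
  D := {
    a := 6
    L := 8
    kp := 5
    inn := [(0, 1), (0, 3), (1, 0), (1, 2), (1, 3), (2, 1), (2, 5), (3, 0), (3, 1), (3, 4), (4, 3), (5,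
      2)]
    mix := [(0, 0), (0, 1), (1, 1), (1, 2), (1, 3), (2, 1), (2, 2), (2, 4), (2, 5), (3, 0), (3, 3), (3,
      6), (3, 7), (4, 3), (4, 5), (4, 6), (5, 0), (5, 1), (5, 4)]
    cl := [2, 0, 0, 1, 4, 3, 5, 1]
    chq := [(2, 3), (3, 2)]
    rng := [(0, 1), (0, 4), (0, 7), (1, 0), (2, 3), (2, 5), (3, 2), (3, 5), (4, 0), (4, 5), (5, 2), (5,
      3), (5, 4), (5, 6), (6, 5), (6, 7), (7, 0), (7, 6)]
    lev := [] }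
  links := [[1, 3, 6, 7], [3, 0, 7, 2, 8, 9], [8, 1, 7, 5, 10, 11], [6, 0, 1, 9, 4, 12, 13], [12, 3, 9,
    11], [10, 2, 7, 6]]
  P := {
    a := 6
    N := 14
    nb := [202, 909, 3490, 12883, 6664, 1220, 9385, 103, 2566, 2330, 2148, 5908, 10264, 4168]
    tri := [(0, 1, 3), (0, 1, 7), (0, 3, 6), (0, 6, 7), (1, 2, 7), (1, 2, 8), (1, 3, 9), (1, 8, 9), (2,
      5, 7), (2, 5, 10), (2, 8, 11), (2, 10, 11), (3, 4, 9), (3, 4, 12), (3, 6, 13), (3, 12, 13),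
      (4, 9, 11), (4, 11, 12), (5, 6, 7), (5, 6, 10)]
    fin := [0, 1, 0, 3, 4, 0, 0, 1, 1, 3, 10, 4, 12, 3]
    chd := [(0, 4)]
    steps := [(0, 6), (0, 5), (1, 7), (0, 2), (1, 8), (3, 9), (3, 13), (4, 11)] }
  rep := [1, 3, 0, 4, 10, 12]

noncomputable def v1179 : Cov.CovD where
  P := 3
  N := 3
  pl := [4, 6]
  lev := [⟨[], [], [(0, 2)], [], [(0, 2, [3]), (1, 0, [])]⟩,
    ⟨[], [(0, 0), (0, 1), (0, 2)], [(0, 0), (0, 1)], [], [(1, 0, []), (2, 0, []), (3, 1,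
      [])]⟩,
    ⟨[(0, 1)], [(0, 0), (1, 0), (1, 1), (1, 3)], [(0, 0), (0, 3)], [4], [(1, 0, []), (2, 0,
      []), (5, 3, [2])]⟩,
    ⟨[(0, 1), (1, 2)], [(0, 0), (0, 1), (0, 2), (1, 0), (1, 1), (1, 2)], [(1, 1), (1, 2)],
      [5], [(0, 2, [3]), (3, 1, []), (7, 1, [])]⟩,
    ⟨[(0, 3), (1, 3)], [(1, 1), (2, 3), (3, 1), (3, 2), (3, 3)], [(1, 3)], [5], [(3, 1,
      []), (5, 3, [2])]⟩,
    ⟨[(1, 2)], [(0, 0), (0, 2), (1, 0), (2, 0), (2, 2), (2, 3), (3, 2)], [(0, 2)], [4],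
      [(0, 2, [3]), (1, 0, [])]⟩]
  Ta := [((1, 0), 0, 2), ((2, 3), 0, 1), ((2, 5), 0, 3), ((3, 2), 1, 0), ((3, 5), 1, 3), ((7, 0),
    1, 2), ((7, 6), 1, 5)]
  Tb := [((0, 1, 4), 2, 0, 4), ((0, 1, 7), 2, 0, 1), ((0, 4, 7), 2, 4, 1), ((2, 3, 5), 0, 1, 3),
    ((3, 2, 5), 1, 0, 3), ((4, 0, 5), 4, 2, 3), ((5, 2, 3), 3, 0, 1), ((5, 2, 4), 3, 0, 4),
    ((5, 2, 6), 3, 0, 5), ((5, 3, 4), 3, 1, 4), ((5, 3, 6), 3, 1, 5), ((5, 4, 6), 3, 4, 5),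
    ((6, 5, 7), 5, 3, 1), ((7, 0, 6), 1, 2, 5)]
  Tc := []
  Td := [((2, 3), (0, 1), 0), ((2, 3), (0, 4), 4), ((2, 3), (0, 7), 1), ((3, 2), (5, 2), 0), ((3,
    2), (5, 3), 1), ((3, 2), (5, 4), 4), ((3, 2), (5, 6), 5)]
  G := [[0, 0, 0x4144c48881c228d21cac2, 0, 0xa4a19242196848198c2], [0, 0, 0x8144c48882c2122cac2,
    0xc2c15288, 0xa281984219682], [0, 0x4244c48882c488ec2cac1, 0, 0,
    0x14221d948884924819ac2], [0, 0, 0, 0x92925248, 0x12115922249682]]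

noncomputable def n1179 : Ent := ⟨e1179, noF, [], [], []⟩

def c1179 : PLift (Cov.check n1179.C.D v1179 = true) := ⟨by decide +kernel⟩

def b1179 : PLift (entF (fidx ts) 400 1179 n1179 = true) := ⟨by decide +kernel⟩

theorem g1179 : GoodF (fidx ts) 400 1179 := GoodF.ofV v1179 n1179 c1179.down b1179.down

/-- 466744:970/1 -/
noncomputable def e1180 : SCfg where
  D := {
    a := 6
    L := 9
    kp := 6
    inn := [(0, 1), (0, 3), (1, 0), (1, 2), (1, 3), (2, 1), (2, 5), (3, 0), (3, 1), (3, 4), (4, 3), (5,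
      2)]
    mix := [(0, 0), (0, 1), (1, 1), (1, 2), (1, 3), (2, 1), (2, 2), (2, 4), (2, 5), (3, 0), (3, 3), (3,
      6), (3, 7), (4, 3), (4, 6), (4, 8), (5, 0), (5, 1), (5, 4)]
    cl := [2, 0, 0, 1, 3, 5, 4, 1, 6]
    chq := [(0, 3), (3, 0)]
    rng := [(0, 1), (0, 4), (0, 7), (1, 0), (2, 3), (2, 5), (3, 2), (3, 8), (4, 0), (4, 5), (5, 2), (5,
      4), (6, 7), (6, 8), (7, 0), (7, 6), (8, 3), (8, 6)]
    lev := [] }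
  links := [[1, 3, 6, 7], [3, 0, 7, 2, 8, 9], [8, 1, 7, 5, 10, 11], [6, 0, 1, 9, 4, 12, 13], [12, 3, 9,
    14], [10, 2, 7, 6]]
  P := {
    a := 6
    N := 15
    nb := [202, 909, 3490, 12883, 21000, 1220, 9385, 103, 2566, 16666, 2148, 1284, 24600, 4168, 4624]
    tri := [(0, 1, 3), (0, 1, 7), (0, 3, 6), (0, 6, 7), (1, 2, 7), (1, 2, 8), (1, 3, 9), (1, 8, 9), (2,
      5, 7), (2, 5, 10), (2, 8, 11), (2, 10, 11), (3, 4, 9), (3, 4, 12), (3, 6, 13), (3, 12, 13),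
      (4, 9, 14), (4, 12, 14), (5, 6, 7), (5, 6, 10)]
    fin := [0, 0, 2, 3, 3, 0, 0, 2, 2, 3, 10, 11, 12, 3, 14]
    chd := [(2, 10)]
    steps := [(0, 1), (0, 6), (2, 7), (0, 5), (2, 8), (3, 4), (3, 9), (3, 13)] }
  rep := [2, 3, 0, 10, 12, 11, 14]

noncomputable def v1180 : Cov.CovD where
  P := 3
  N := 4
  pl := [0, 5, 6, 8]
  lev := [⟨[], [], [], [2], [(1, 0, [3])]⟩,
    ⟨[], [(0, 0), (0, 1)], [(0, 0), (0, 1)], [], [(1, 0, [3]), (2, 0, [3]), (3, 1, [])]⟩,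
    ⟨[(0, 1)], [(0, 0), (1, 0), (1, 1), (1, 3)], [(0, 0), (0, 3)], [5], [(1, 0, [3]), (2,
      0, [3]), (4, 3, [0])]⟩,
    ⟨[(0, 1), (1, 2)], [(0, 0), (0, 1), (1, 0), (1, 1)], [(1, 1)], [2, 4], [(3, 1, []), (7,
      1, [])]⟩,
    ⟨[(0, 3), (1, 3)], [(1, 1), (3, 1)], [], [4, 6], [(3, 1, [])]⟩,
    ⟨[(1, 2)], [(0, 0), (1, 0), (2, 0), (2, 3)], [(0, 3)], [2], [(1, 0, [3]), (4, 3, [0])]⟩]
  Ta := [((1, 0), 0, 2), ((2, 3), 0, 1), ((2, 5), 0, 5), ((3, 2), 1, 0), ((3, 8), 1, 6), ((7, 0),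
    1, 2), ((7, 6), 1, 4)]
  Tb := [((0, 1, 4), 2, 0, 3), ((0, 1, 7), 2, 0, 1), ((0, 4, 7), 2, 3, 1), ((2, 3, 5), 0, 1, 5),
    ((3, 2, 8), 1, 0, 6), ((4, 0, 5), 3, 2, 5), ((5, 2, 4), 5, 0, 3), ((6, 7, 8), 4, 1, 6),
    ((7, 0, 6), 1, 2, 4), ((8, 3, 6), 6, 1, 4)]
  Tc := []
  Td := [((0, 3), (1, 0), 2), ((0, 3), (2, 3), 1), ((0, 3), (2, 5), 5), ((3, 0), (4, 0), 2), ((3,
    0), (4, 5), 5)]
  G := [[0, 0, 0x665441445c244e8898a8822921cec2, 0, 0x88c8859aacaa5922c2259e42], [0, 0,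
    0x42422322ac688984498ca824846, 0x42425482829c2c2cac8, 0x828859a2aa59222259e42], [0,
    0x816444641164e281a811a811a8e2c, 0, 0, 0x88c885911c115922c2259e42], [0, 0, 0,
    0x4242512c2568282c8c8, 0x82885912115922c229e42]]

noncomputable def n1180 : Ent := ⟨e1180, noF, [], [], [(11, 14, [81620716623019490593592230936445690773474979418095888216065, 0])]⟩

def c1180 : PLift (Cov.check n1180.C.D v1180 = true) := ⟨by decide +kernel⟩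

def b1180 : PLift (entF (fidx ts) 400 1180 n1180 = true) := ⟨by decide +kernel⟩

theorem g1180 : GoodF (fidx ts) 400 1180 := GoodF.ofV v1180 n1180 c1180.down b1180.down

/-- 466744:970/3 -/
noncomputable def e1181 : SCfg where
  D := {
    a := 6
    L := 9
    kp := 6
    inn := [(0, 1), (0, 3), (1, 0), (1, 2), (1, 3), (2, 1), (2, 5), (3, 0), (3, 1), (3, 4), (4, 3), (5,
      2)]
    mix := [(0, 0), (0, 1), (1, 1), (1, 2), (1, 3), (2, 1), (2, 2), (2, 4), (2, 5), (3, 0), (3, 3), (3,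
      6), (3, 7), (4, 3), (4, 5), (4, 6), (5, 1), (5, 4), (5, 8)]
    cl := [4, 0, 0, 1, 3, 2, 5, 1, 6]
    chq := [(0, 3), (3, 0)]
    rng := [(0, 1), (0, 7), (1, 0), (1, 8), (2, 3), (2, 5), (3, 2), (3, 5), (4, 5), (4, 8), (5, 2), (5,
      3), (5, 4), (5, 6), (6, 5), (6, 7), (7, 0), (7, 6), (8, 1), (8, 4)]
    lev := [] }
  links := [[1, 3, 6, 7], [3, 0, 7, 2, 8, 9], [8, 1, 7, 5, 10, 11], [6, 0, 1, 9, 4, 12, 13], [12, 3, 9,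
    11], [10, 2, 7, 14]]
  P := {
    a := 6
    N := 15
    nb := [202, 909, 3490, 12883, 6664, 17540, 8329, 16487, 2566, 2330, 18468, 5908, 10264, 4168,
      1184]
    tri := [(0, 1, 3), (0, 1, 7), (0, 3, 6), (0, 6, 7), (1, 2, 7), (1, 2, 8), (1, 3, 9), (1, 8, 9), (2,
      5, 7), (2, 5, 10), (2, 8, 11), (2, 10, 11), (3, 4, 9), (3, 4, 12), (3, 6, 13), (3, 12, 13),
      (4, 9, 11), (4, 11, 12), (5, 7, 14), (5, 10, 14)]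
    fin := [0, 0, 2, 3, 4, 2, 0, 2, 2, 3, 10, 4, 12, 3, 14]
    chd := [(2, 10)]
    steps := [(0, 1), (0, 6), (2, 5), (2, 7), (2, 8), (3, 9), (3, 13), (4, 11)] }
  rep := [2, 3, 4, 10, 0, 12, 14]

noncomputable def v1181 : Cov.CovD where
  P := 3
  N := 4
  pl := [0, 5, 6, 8]
  lev := [⟨[], [], [], [4], [(1, 0, [3])]⟩,
    ⟨[], [(0, 0), (0, 1)], [(0, 0), (0, 1)], [], [(1, 0, [3]), (2, 0, [3]), (3, 1, [])]⟩,
    ⟨[(0, 1)], [(0, 0), (1, 0), (1, 1), (1, 3)], [(0, 0), (0, 3)], [2], [(1, 0, [3]), (2,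
      0, [3]), (4, 3, [0])]⟩,
    ⟨[(0, 1), (1, 2)], [(0, 0), (0, 1), (1, 0), (1, 1)], [(1, 1)], [4, 5], [(3, 1, []), (7,
      1, [])]⟩,
    ⟨[(0, 3), (1, 3)], [(1, 1), (3, 1)], [], [2, 5], [(3, 1, [])]⟩,
    ⟨[(1, 2)], [(0, 0), (1, 0), (2, 0), (2, 3)], [(0, 3)], [6], [(1, 0, [3]), (4, 3, [0])]⟩]
  Ta := [((1, 0), 0, 4), ((1, 8), 0, 6), ((2, 3), 0, 1), ((2, 5), 0, 2), ((3, 2), 1, 0), ((3, 5),
    1, 2), ((7, 0), 1, 4), ((7, 6), 1, 5)]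
  Tb := [((0, 1, 7), 4, 0, 1), ((1, 0, 8), 0, 4, 6), ((2, 3, 5), 0, 1, 2), ((3, 2, 5), 1, 0, 2),
    ((4, 5, 8), 3, 2, 6), ((5, 2, 3), 2, 0, 1), ((5, 2, 4), 2, 0, 3), ((5, 2, 6), 2, 0, 5),
    ((5, 3, 4), 2, 1, 3), ((5, 3, 6), 2, 1, 5), ((5, 4, 6), 2, 3, 5), ((6, 5, 7), 5, 2, 1),
    ((7, 0, 6), 1, 4, 5), ((8, 1, 4), 6, 0, 3)]
  Tc := []
  Td := [((0, 3), (1, 0), 4), ((0, 3), (1, 8), 6), ((0, 3), (2, 3), 1), ((0, 3), (2, 5), 2), ((3,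
    0), (4, 5), 2), ((3, 0), (4, 8), 6)]
  G := [[0, 0, 0, 0x2444456461dca8889a1d288cc2, 0xc8cc9c1d6866961da42], [0, 0, 0, 0,
    0xc2c2c6261ca4c8c1562615a4a], [0, 0x11c211c2c8a8a4c6864cc23, 0x11c111c1c42,
    0x144418a891db8319cc2, 0xc81811d186861da42], [0, 0, 0x1211216811c111c1c4a, 0,
    0x111611a4c8c2c6262ca43]]

noncomputable def n1181 : Ent := ⟨e1181, noF, [], [], [(6, 14, [81620716623019490593592230936445690773474979418095888216065, 0])]⟩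

def c1181 : PLift (Cov.check n1181.C.D v1181 = true) := ⟨by decide +kernel⟩

def b1181 : PLift (entF (fidx ts) 400 1181 n1181 = true) := ⟨by decide +kernel⟩

theorem g1181 : GoodF (fidx ts) 400 1181 := GoodF.ofV v1181 n1181 c1181.down b1181.down

/-- 466744:970 -/
noncomputable def e1182 : SCfg where
  D := {
    a := 6
    L := 10
    kp := 7
    inn := [(0, 1), (0, 3), (1, 0), (1, 2), (1, 3), (2, 1), (2, 5), (3, 0), (3, 1), (3, 4), (4, 3), (5,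
      2)]
    mix := [(0, 0), (0, 1), (1, 1), (1, 2), (1, 3), (2, 1), (2, 2), (2, 4), (2, 5), (3, 0), (3, 3), (3,
      6), (3, 7), (4, 3), (4, 6), (4, 8), (5, 1), (5, 4), (5, 9)]
    cl := [2, 0, 0, 1, 3, 5, 4, 1, 7, 6]
    chq := [(5, 6), (6, 5)]
    rng := [(0, 1), (0, 7), (1, 0), (1, 9), (2, 3), (2, 5), (3, 2), (3, 8), (4, 5), (4, 9), (5, 2), (5,
      4), (6, 7), (6, 8), (7, 0), (7, 6), (8, 3), (8, 6), (9, 1), (9, 4)]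
    lev := [] }
  links := [[1, 3, 6, 7], [3, 0, 7, 2, 8, 9], [8, 1, 7, 5, 10, 11], [6, 0, 1, 9, 4, 12, 13], [12, 3, 9,
    14], [10, 2, 7, 15]]
  P := {
    a := 6
    N := 16
    nb := [202, 909, 3490, 12883, 21000, 33924, 8329, 32871, 2566, 16666, 34852, 1284, 24600, 4168,
      4624, 1184]
    tri := [(0, 1, 3), (0, 1, 7), (0, 3, 6), (0, 6, 7), (1, 2, 7), (1, 2, 8), (1, 3, 9), (1, 8, 9), (2,
      5, 7), (2, 5, 10), (2, 8, 11), (2, 10, 11), (3, 4, 9), (3, 4, 12), (3, 6, 13), (3, 12, 13),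
      (4, 9, 14), (4, 12, 14), (5, 7, 15), (5, 10, 15)]
    fin := [0, 1, 2, 3, 3, 2, 0, 1, 1, 3, 10, 11, 12, 3, 14, 2]
    chd := [(11, 2)]
    steps := [(0, 6), (1, 7), (1, 8), (2, 5), (2, 15), (3, 4), (3, 9), (3, 13)] }
  rep := [1, 3, 0, 10, 12, 11, 2, 14]

noncomputable def v1182 : Cov.CovD where
  P := 3
  N := 5
  pl := [0, 4, 6, 8]
  lev := [⟨[], [], [], [2], [(1, 0, [])]⟩,
    ⟨[], [(0, 0), (0, 1)], [(0, 0), (0, 1)], [], [(1, 0, []), (2, 0, []), (3, 1, [])]⟩,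
    ⟨[(0, 1)], [(0, 0), (1, 0), (1, 1), (1, 5)], [(0, 0), (0, 5)], [3], [(1, 0, []), (2, 0,
      []), (5, 5, [6])]⟩,
    ⟨[(0, 1), (1, 2)], [(0, 0), (0, 1), (1, 0), (1, 1)], [(1, 1)], [2, 4], [(3, 1, []), (7,
      1, [])]⟩,
    ⟨[(0, 3), (1, 3)], [(1, 1), (3, 1)], [], [4, 7], [(3, 1, [])]⟩,
    ⟨[(1, 2)], [(0, 0), (1, 0), (2, 0), (2, 5), (2, 6)], [(0, 6)], [3], [(1, 0, []), (9, 6,
      [5])]⟩]
  Ta := [((1, 0), 0, 2), ((1, 9), 0, 6), ((2, 3), 0, 1), ((2, 5), 0, 5), ((3, 2), 1, 0), ((3, 8),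
    1, 7), ((7, 0), 1, 2), ((7, 6), 1, 4)]
  Tb := [((0, 1, 7), 2, 0, 1), ((1, 0, 9), 0, 2, 6), ((2, 3, 5), 0, 1, 5), ((3, 2, 8), 1, 0, 7),
    ((4, 5, 9), 3, 5, 6), ((5, 2, 4), 5, 0, 3), ((6, 7, 8), 4, 1, 7), ((7, 0, 6), 1, 2, 4),
    ((8, 3, 6), 7, 1, 4), ((9, 1, 4), 6, 0, 3)]
  Tc := []
  Td := [((5, 6), (5, 2), 0), ((5, 6), (5, 4), 3), ((6, 5), (9, 1), 0), ((6, 5), (9, 4), 3)]
  G := [[0, 0, 0x6654aa54cc54e6698aa98cc98ec2, 0, 0xa4aa59cc51666c6659a88ccc8ec2], [0, 0,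
    0x62666bca28c2cccbceaa54468, 0x62625a2a29c2c2ce48, 0xa2aa594626659cccc29ac2], [0,
    0x91641c646811a842cca8266a666c86d, 0, 0, 0x65c1d591ac315991c5c59e42], [0, 0, 0,
    0x92a25121256b262c8c8, 0x116c32b9321159b2c959e48]]

noncomputable def n1182 : Ent := ⟨e1182, noF, [], [], [(6, 15, [360035742630636841211993100915356868655746945586763691012505601, 0]), (11, 14, [385746751338780685620664494392815470296102193487288376377331713, 0])]⟩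

def c1182 : PLift (Cov.check n1182.C.D v1182 = true) := ⟨by decide +kernel⟩

def b1182 : PLift (entF (fidx ts) 400 1182 n1182 = true) := ⟨by decide +kernel⟩

theorem g1182 : GoodF (fidx ts) 400 1182 := GoodF.ofV v1182 n1182 c1182.down b1182.down

/-- 466767:971 -/
noncomputable def e1183 : SCfg where
  D := {
    a := 6
    L := 11
    kp := 8
    inn := [(0, 1), (0, 3), (0, 4), (0, 5), (1, 0), (1, 2), (1, 3), (1, 5), (2, 1), (2, 5), (3, 0), (3,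
      1), (3, 4), (4, 0), (4, 3), (4, 5), (5, 0), (5, 1), (5, 2), (5, 4)]
    mix := [(1, 0), (1, 1), (2, 0), (2, 2), (2, 3), (2, 4), (3, 1), (3, 5), (3, 6), (3, 7), (4, 7), (4,
      8), (4, 9), (5, 2), (5, 9), (5, 10)]
    cl := [1, 0, 1, 2, 5, 6, 7, 0, 8, 3, 4]
    chq := [(0, 3), (0, 4), (3, 0), (4, 0)]
    rng := [(0, 1), (0, 4), (1, 0), (1, 5), (2, 3), (2, 10), (3, 2), (3, 4), (4, 0), (4, 3), (5, 1),
      (5, 6), (6, 5), (6, 7), (7, 6), (7, 8), (8, 7), (8, 9), (9, 8), (9, 10), (10, 2), (10, 9)]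
    lev := [] }
  links := [[1, 3, 4, 5], [3, 0, 5, 2, 6, 7], [6, 1, 5, 8, 9, 10], [4, 0, 1, 7, 11, 12, 13], [5, 0, 3,
    13, 14, 15], [8, 2, 1, 0, 4, 15, 16]]
  P := {
    a := 6
    N := 17
    nb := [58, 237, 1890, 14483, 57385, 98583, 1158, 2122, 66084, 1284, 580, 4232, 10248, 20504,
      40976, 81968, 33056]
    tri := [(0, 1, 3), (0, 1, 5), (0, 3, 4), (0, 4, 5), (1, 2, 5), (1, 2, 6), (1, 3, 7), (1, 6, 7), (2,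
      5, 8), (2, 6, 10), (2, 8, 9), (2, 9, 10), (3, 4, 13), (3, 7, 11), (3, 11, 12), (3, 12, 13),
      (4, 5, 15), (4, 13, 14), (4, 14, 15), (5, 8, 16), (5, 15, 16)]
    fin := [0, 0, 0, 3, 3, 3, 0, 3, 0, 9, 10, 11, 12, 3, 14, 15, 16]
    chd := [(3, 15), (3, 16)]
    steps := [(0, 1), (0, 2), (0, 6), (0, 8), (3, 4), (3, 5), (3, 7), (3, 13)] }
  rep := [3, 0, 9, 15, 16, 10, 11, 12, 14]

noncomputable def v1183 : Cov.CovD where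
  P := 3
  N := 6
  pl := [3, 4, 5, 6, 8]
  lev := [⟨[], [], [], [], []⟩,
    ⟨[], [(0, 0), (0, 1)], [(0, 1)], [], [(0, 1, []), (1, 0, [3, 4])]⟩,
    ⟨[(0, 1)], [(1, 0), (1, 1)], [(1, 1)], [2, 5], [(0, 1, []), (2, 1, [])]⟩,
    ⟨[(0, 1), (1, 2)], [(0, 0), (1, 0), (1, 1)], [(0, 0)], [6, 7], [(1, 0, [3, 4]), (7, 0,
      [3, 4])]⟩,
    ⟨[(0, 1), (0, 3), (1, 3)], [(0, 0), (0, 3), (3, 0), (3, 3)], [(0, 3)], [8], [(7, 0, [3,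
      4]), (9, 3, [0])]⟩,
    ⟨[(0, 1), (0, 2), (0, 3), (0, 4), (1, 2), (1, 3), (1, 4), (2, 4), (3, 4)], [(0, 1), (0,
      3), (0, 4), (1, 0), (1, 1), (1, 3), (1, 4), (2, 1), (2, 3), (2, 4), (4, 0), (4, 1), (4,
      3), (4, 4)], [(1, 3), (1, 4), (3, 4)], [], [(2, 1, []), (9, 3, [0]), (10, 4, [0])]⟩]
  Ta := [((0, 1), 1, 0), ((0, 4), 1, 5), ((1, 0), 0, 1), ((1, 5), 0, 6), ((2, 3), 1, 2), ((2,
    10), 1, 4), ((7, 6), 0, 7), ((7, 8), 0, 8)]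
  Tb := [((0, 1, 4), 1, 0, 5), ((1, 0, 5), 0, 1, 6), ((2, 3, 10), 1, 2, 4), ((3, 2, 4), 2, 1, 5),
    ((4, 0, 3), 5, 1, 2), ((5, 1, 6), 6, 0, 7), ((6, 5, 7), 7, 6, 0), ((7, 6, 8), 0, 7, 8),
    ((8, 7, 9), 8, 0, 3), ((9, 8, 10), 3, 8, 4), ((10, 2, 9), 4, 1, 3)]
  Tc := [(0, 3, 4)]
  Td := [((0, 3), (1, 0), 1), ((0, 3), (1, 5), 6), ((0, 3), (7, 6), 7), ((0, 3), (7, 8), 8), ((0,
    4), (1, 0), 1), ((0, 4), (1, 5), 6), ((0, 4), (7, 6), 7), ((0, 4), (7, 8), 8), ((3, 0),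
    (9, 8), 8), ((3, 0), (9, 10), 4), ((4, 0), (10, 2), 1), ((4, 0), (10, 9), 3)]
  G := [[0, 0x61211612111eec8e111a81e81441811ccc66,
    0x129112d6125129111eec11a88c144144c148188cc6, 0,
    0x34411167129111ee2653a93a6de9c1448818c8389ca], [0, 0,
    0x122122c4144116111e11cec111e11a11ce188cca, 0x111e2122c144111e4c6111e11ac111e11cac4a,
    0x1221229414445659dcfdc5e9111e11a11ce1988fd8a9ca], [0, 0,
    0x11611a111ee111e2c4144111e4c188111e8cca, 0,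
    0x344114111ea356731ab7b12fe9c111e4811a818a89ca], [0, 0,
    0x11611a111ee111e2c4144111e4c188111e8cca, 0x11611a111ee116111eac144111e4c6188188c2c,
    0x11611a111ee1259dcf6914459ccf49618859dcf894a]]

noncomputable def n1183 : Ent := ⟨e1183, noF, [], [], []⟩

def c1183 : PLift (Cov.check n1183.C.D v1183 = true) := ⟨by decide +kernel⟩

def b1183 : PLift (entF (fidx ts) 400 1183 n1183 = true) := ⟨by decide +kernel⟩

theorem g1183 : GoodF (fidx ts) 400 1183 := GoodF.ofV v1183 n1183 c1183.down b1183.down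

/-- 466744:972/2 -/
noncomputable def e1184 : SCfg where
  D := {
    a := 6
    L := 8
    kp := 5
    inn := [(0, 1), (0, 3), (1, 0), (1, 2), (1, 3), (2, 1), (2, 5), (3, 0), (3, 1), (3, 4), (4, 3), (5,
      2)]
    mix := [(0, 0), (0, 1), (1, 1), (1, 2), (1, 3), (2, 1), (2, 2), (2, 4), (2, 5), (3, 0), (3, 3), (3,
      6), (3, 7), (4, 5), (4, 6), (4, 7), (5, 0), (5, 1), (5, 4)]
    cl := [1, 0, 2, 1, 5, 0, 3, 4]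
    chq := [(3, 4), (4, 3)]
    rng := [(0, 1), (0, 4), (0, 7), (1, 0), (2, 3), (2, 5), (3, 2), (3, 6), (4, 0), (4, 5), (5, 2), (5,
      4), (5, 6), (5, 7), (6, 3), (6, 5), (7, 0), (7, 5)]
    lev := [] }
  links := [[1, 3, 6, 7], [3, 0, 7, 2, 8, 9], [8, 1, 7, 5, 10, 11], [6, 0, 1, 9, 12, 4, 13], [13, 3, 12,
    11], [10, 2, 7, 6]]
  P := {
    a := 6
    N := 14
    nb := [202, 909, 3490, 12883, 14344, 1220, 9385, 103, 2566, 4362, 2148, 13588, 2584, 2136]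
    tri := [(0, 1, 3), (0, 1, 7), (0, 3, 6), (0, 6, 7), (1, 2, 7), (1, 2, 8), (1, 3, 9), (1, 8, 9), (2,
      5, 7), (2, 5, 10), (2, 8, 11), (2, 10, 11), (3, 4, 12), (3, 4, 13), (3, 6, 13), (3, 9, 12),
      (4, 11, 12), (4, 11, 13), (5, 6, 7), (5, 6, 10)]
    fin := [0, 0, 2, 0, 4, 0, 0, 2, 8, 0, 10, 2, 4, 13]
    chd := [(4, 13)]
    steps := [(0, 1), (0, 3), (0, 6), (0, 9), (2, 7), (0, 5), (2, 11), (4, 12)] }
  rep := [2, 0, 8, 4, 13, 10]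

noncomputable def v1184 : Cov.CovD where
  P := 3
  N := 3
  pl := [2, 4]
  lev := [⟨[], [], [(0, 1)], [], [(0, 1, []), (1, 0, [])]⟩,
    ⟨[], [(0, 0), (0, 1)], [(0, 1)], [2], [(1, 0, []), (3, 1, [])]⟩,
    ⟨[(0, 1)], [(0, 0), (1, 0), (1, 1)], [(0, 0)], [2, 5], [(1, 0, []), (5, 0, [])]⟩,
    ⟨[(0, 1), (1, 2)], [(0, 0), (0, 1), (0, 3), (0, 4), (1, 0), (1, 1), (1, 3), (1, 4)],
      [(1, 1), (1, 3), (1, 4), (3, 4)], [], [(0, 1, []), (3, 1, []), (6, 3, [4]), (7, 4,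
      [3])]⟩,
    ⟨[(0, 3), (1, 3)], [(2, 0), (3, 0), (3, 1), (3, 3), (3, 4)], [(0, 3), (0, 4), (3, 4)],
      [], [(5, 0, []), (6, 3, [4]), (7, 4, [3])]⟩,
    ⟨[(1, 2)], [(0, 0), (0, 1), (1, 0), (2, 0), (2, 1), (3, 1)], [(0, 1)], [5], [(0, 1,
      []), (1, 0, [])]⟩]
  Ta := [((0, 1), 1, 0), ((0, 4), 1, 5), ((0, 7), 1, 4), ((1, 0), 0, 1), ((3, 2), 1, 2), ((3, 6),
    1, 3), ((5, 2), 0, 2), ((5, 4), 0, 5), ((5, 6), 0, 3), ((5, 7), 0, 4)]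
  Tb := [((0, 1, 4), 1, 0, 5), ((0, 1, 7), 1, 0, 4), ((0, 4, 7), 1, 5, 4), ((2, 3, 5), 2, 1, 0),
    ((3, 2, 6), 1, 2, 3), ((4, 0, 5), 5, 1, 0), ((5, 2, 4), 0, 2, 5), ((5, 2, 6), 0, 2, 3),
    ((5, 2, 7), 0, 2, 4), ((5, 4, 6), 0, 5, 3), ((5, 4, 7), 0, 5, 4), ((5, 6, 7), 0, 3, 4),
    ((6, 3, 5), 3, 1, 0), ((7, 0, 5), 4, 1, 0)]
  Tc := []
  Td := [((3, 4), (6, 3), 1), ((3, 4), (6, 5), 0), ((4, 3), (7, 0), 1), ((4, 3), (7, 5), 0)]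
  G := [[0, 0x414141e4212181e8c2, 0, 0, 0xcc4e128218a4], [0, 0, 0, 0x221421c84, 0xccce1282], [0,
    0, 0x121114e1a84, 0, 0x5442528884282d848823c], [0, 0, 0x111e1284, 0x881282d12129c444452,
    0x125459ad282]]

noncomputable def n1184 : Ent := ⟨e1184, noF, [], [], []⟩

def c1184 : PLift (Cov.check n1184.C.D v1184 = true) := ⟨by decide +kernel⟩

def b1184 : PLift (entF (fidx ts) 400 1184 n1184 = true) := ⟨by decide +kernel⟩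

theorem g1184 : GoodF (fidx ts) 400 1184 := GoodF.ofV v1184 n1184 c1184.down b1184.down

/-- 466744:972/1 -/
noncomputable def e1185 : SCfg where
  D := {
    a := 6
    L := 9
    kp := 6
    inn := [(0, 1), (0, 3), (1, 0), (1, 2), (1, 3), (2, 1), (2, 5), (3, 0), (3, 1), (3, 4), (4, 3), (5,
      2)]
    mix := [(0, 0), (0, 1), (1, 1), (1, 2), (1, 3), (2, 1), (2, 2), (2, 4), (2, 5), (3, 0), (3, 3), (3,
      6), (3, 7), (4, 6), (4, 7), (4, 8), (5, 0), (5, 1), (5, 4)]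
    cl := [2, 0, 0, 1, 3, 5, 4, 1, 6]
    chq := [(0, 3), (3, 0)]
    rng := [(0, 1), (0, 4), (0, 7), (1, 0), (2, 3), (2, 5), (3, 2), (3, 6), (4, 0), (4, 5), (5, 2), (5,
      4), (6, 3), (6, 8), (7, 0), (7, 8), (8, 6), (8, 7)]
    lev := [] }
  links := [[1, 3, 6, 7], [3, 0, 7, 2, 8, 9], [8, 1, 7, 5, 10, 11], [6, 0, 1, 9, 12, 4, 13], [13, 3, 12,
    14], [10, 2, 7, 6]]
  P := {
    a := 6
    N := 15
    nb := [202, 909, 3490, 12883, 28680, 1220, 9385, 103, 2566, 4362, 2148, 1284, 16920, 16472, 12304]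
    tri := [(0, 1, 3), (0, 1, 7), (0, 3, 6), (0, 6, 7), (1, 2, 7), (1, 2, 8), (1, 3, 9), (1, 8, 9), (2,
      5, 7), (2, 5, 10), (2, 8, 11), (2, 10, 11), (3, 4, 12), (3, 4, 13), (3, 6, 13), (3, 9, 12),
      (4, 12, 14), (4, 13, 14), (5, 6, 7), (5, 6, 10)]
    fin := [0, 0, 2, 3, 3, 0, 0, 2, 2, 3, 10, 11, 12, 3, 14]
    chd := [(2, 10)]
    steps := [(0, 1), (0, 6), (2, 7), (0, 5), (2, 8), (3, 4), (3, 9), (3, 13)] }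
  rep := [2, 3, 0, 10, 12, 11, 14]

noncomputable def v1185 : Cov.CovD where
  P := 3
  N := 4
  pl := [0, 5, 6, 8]
  lev := [⟨[], [], [], [2], [(1, 0, [3])]⟩,
    ⟨[], [(0, 0), (0, 1)], [(0, 0), (0, 1)], [], [(1, 0, [3]), (2, 0, [3]), (3, 1, [])]⟩,
    ⟨[(0, 1)], [(0, 0), (1, 0), (1, 1), (1, 3)], [(0, 0), (0, 3)], [5], [(1, 0, [3]), (2,
      0, [3]), (4, 3, [0])]⟩,
    ⟨[(0, 1), (1, 2)], [(0, 0), (0, 1), (1, 0), (1, 1)], [(1, 1)], [2, 4], [(3, 1, []), (7,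
      1, [])]⟩,
    ⟨[(0, 3), (1, 3)], [(3, 1)], [], [4, 6], [(7, 1, [])]⟩,
    ⟨[(1, 2)], [(0, 0), (1, 0), (2, 0), (2, 3)], [(0, 3)], [2], [(1, 0, [3]), (4, 3, [0])]⟩]
  Ta := [((1, 0), 0, 2), ((2, 3), 0, 1), ((2, 5), 0, 5), ((3, 2), 1, 0), ((3, 6), 1, 4), ((7, 0),
    1, 2), ((7, 8), 1, 6)]
  Tb := [((0, 1, 4), 2, 0, 3), ((0, 1, 7), 2, 0, 1), ((0, 4, 7), 2, 3, 1), ((2, 3, 5), 0, 1, 5),
    ((3, 2, 6), 1, 0, 4), ((4, 0, 5), 3, 2, 5), ((5, 2, 4), 5, 0, 3), ((6, 3, 8), 4, 1, 6),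
    ((7, 0, 8), 1, 2, 6), ((8, 6, 7), 6, 4, 1)]
  Tc := []
  Td := [((0, 3), (1, 0), 2), ((0, 3), (2, 3), 1), ((0, 3), (2, 5), 5), ((3, 0), (4, 0), 2), ((3,
    0), (4, 5), 5)]
  G := [[0, 0, 0x88988442445c22225c68248c6, 0, 0x828859aaca29222259e42], [0, 0,
    0x4442254688548a41442298288984498cec, 0xccccc952444154a88c8859488c2c,
    0x88c8859aacaa5922c2259e42], [0, 0x8111c1111c1111ce28, 0, 0, 0x82885912115922622a9e48],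
    [0, 0, 0, 0x14c449591c1195688c88958a8, 0x88c885913c115921c2259e42]]

noncomputable def n1185 : Ent := ⟨e1185, noF, [], [], [(11, 14, [81620716623019490593592230936445690773474979418095888236545, 0])]⟩

def c1185 : PLift (Cov.check n1185.C.D v1185 = true) := ⟨by decide +kernel⟩

def b1185 : PLift (entF (fidx ts) 400 1185 n1185 = true) := ⟨by decide +kernel⟩

theorem g1185 : GoodF (fidx ts) 400 1185 := GoodF.ofV v1185 n1185 c1185.down b1185.down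

/-- 466744:972/3 -/
noncomputable def e1186 : SCfg where
  D := {
    a := 6
    L := 9
    kp := 6
    inn := [(0, 1), (0, 3), (1, 0), (1, 2), (1, 3), (2, 1), (2, 5), (3, 0), (3, 1), (3, 4), (4, 3), (5,
      2)]
    mix := [(0, 0), (0, 1), (1, 1), (1, 2), (1, 3), (2, 1), (2, 2), (2, 4), (2, 5), (3, 0), (3, 3), (3,
      6), (3, 7), (4, 6), (4, 7), (4, 8), (5, 1), (5, 4), (5, 8)]
    cl := [2, 0, 0, 1, 3, 6, 4, 1, 5]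
    chq := [(0, 3), (3, 0)]
    rng := [(0, 1), (0, 7), (1, 0), (1, 8), (2, 3), (2, 5), (3, 2), (3, 6), (4, 5), (4, 8), (5, 2), (5,
      4), (6, 3), (6, 8), (7, 0), (7, 8), (8, 1), (8, 4), (8, 6), (8, 7)]
    lev := [] }
  links := [[1, 3, 6, 7], [3, 0, 7, 2, 8, 9], [8, 1, 7, 5, 10, 11], [6, 0, 1, 9, 12, 4, 13], [13, 3, 12,
    14], [10, 2, 7, 14]]
  P := {
    a := 6
    N := 15
    nb := [202, 909, 3490, 12883, 28680, 17540, 8329, 16487, 2566, 4362, 18468, 1284, 16920, 16472,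
      13488]
    tri := [(0, 1, 3), (0, 1, 7), (0, 3, 6), (0, 6, 7), (1, 2, 7), (1, 2, 8), (1, 3, 9), (1, 8, 9), (2,
      5, 7), (2, 5, 10), (2, 8, 11), (2, 10, 11), (3, 4, 12), (3, 4, 13), (3, 6, 13), (3, 9, 12),
      (4, 12, 14), (4, 13, 14), (5, 7, 14), (5, 10, 14)]
    fin := [0, 0, 2, 3, 4, 2, 0, 2, 2, 3, 10, 11, 12, 3, 4]
    chd := [(2, 10)]
    steps := [(0, 1), (0, 6), (2, 5), (2, 7), (2, 8), (3, 9), (3, 13), (4, 14)] }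
  rep := [2, 3, 0, 10, 12, 4, 11]

noncomputable def v1186 : Cov.CovD where
  P := 3
  N := 4
  pl := [0, 5, 6, 8]
  lev := [⟨[], [], [], [2], [(1, 0, [3])]⟩,
    ⟨[], [(0, 0), (0, 1)], [(0, 0), (0, 1)], [], [(1, 0, [3]), (2, 0, [3]), (3, 1, [])]⟩,
    ⟨[(0, 1)], [(0, 0), (1, 0), (1, 1), (1, 3)], [(0, 0), (0, 3)], [6], [(1, 0, [3]), (2,
      0, [3]), (4, 3, [0])]⟩,
    ⟨[(0, 1), (1, 2)], [(0, 0), (0, 1), (1, 0), (1, 1)], [(1, 1)], [2, 4], [(3, 1, []), (7,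
      1, [])]⟩,
    ⟨[(0, 3), (1, 3)], [(3, 1)], [], [4, 5], [(7, 1, [])]⟩,
    ⟨[(1, 2)], [(0, 0), (1, 0), (2, 0), (2, 3)], [(0, 3)], [5], [(1, 0, [3]), (4, 3, [0])]⟩]
  Ta := [((1, 0), 0, 2), ((1, 8), 0, 5), ((2, 3), 0, 1), ((2, 5), 0, 6), ((3, 2), 1, 0), ((3, 6),
    1, 4), ((7, 0), 1, 2), ((7, 8), 1, 5)]
  Tb := [((0, 1, 7), 2, 0, 1), ((1, 0, 8), 0, 2, 5), ((2, 3, 5), 0, 1, 6), ((3, 2, 6), 1, 0, 4),
    ((4, 5, 8), 3, 6, 5), ((5, 2, 4), 6, 0, 3), ((6, 3, 8), 4, 1, 5), ((7, 0, 8), 1, 2, 5),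
    ((8, 1, 4), 5, 0, 3), ((8, 1, 6), 5, 0, 4), ((8, 1, 7), 5, 0, 1), ((8, 4, 6), 5, 3, 4),
    ((8, 4, 7), 5, 3, 1), ((8, 6, 7), 5, 4, 1)]
  Tc := []
  Td := [((0, 3), (1, 0), 2), ((0, 3), (1, 8), 5), ((0, 3), (2, 3), 1), ((0, 3), (2, 5), 6), ((3,
    0), (4, 5), 6), ((3, 0), (4, 8), 5)]
  G := [[0, 0, 0xe14a6c4869e2c2122cac2, 0, 0x4a64a39486ce29222259ac2], [0, 0,
    0x644414a5ce12e2dce86981ca88cc2, 0xa4c4e9522c2295686c8e958a8,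
    0x444e594286c8e59a88e2cc259e4a], [0, 0x1111c1111c1111ce28, 0, 0, 0x321191231922219e42],
    [0, 0, 0, 0x14c31522c115681c3158a8, 0x86c51911c91992c319e42]]

noncomputable def n1186 : Ent := ⟨e1186, noF, [], [], []⟩

def c1186 : PLift (Cov.check n1186.C.D v1186 = true) := ⟨by decide +kernel⟩

def b1186 : PLift (entF (fidx ts) 400 1186 n1186 = true) := ⟨by decide +kernel⟩

theorem g1186 : GoodF (fidx ts) 400 1186 := GoodF.ofV v1186 n1186 c1186.down b1186.down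

/-- 466744:972/4 -/
noncomputable def e1187 : SCfg where
  D := {
    a := 6
    L := 9
    kp := 6
    inn := [(0, 1), (0, 3), (1, 0), (1, 2), (1, 3), (2, 1), (2, 5), (3, 0), (3, 1), (3, 4), (4, 3), (5,
      2)]
    mix := [(0, 0), (0, 1), (1, 1), (1, 2), (1, 3), (2, 1), (2, 2), (2, 4), (2, 5), (3, 0), (3, 3), (3,
      6), (3, 7), (4, 4), (4, 6), (4, 7), (5, 1), (5, 4), (5, 8)]
    cl := [2, 0, 0, 1, 3, 5, 4, 1, 6]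
    chq := [(0, 3), (3, 0)]
    rng := [(0, 1), (0, 7), (1, 0), (1, 8), (2, 3), (2, 5), (3, 2), (3, 6), (4, 5), (4, 6), (4, 7), (4,
      8), (5, 2), (5, 4), (6, 3), (6, 4), (7, 0), (7, 4), (8, 1), (8, 4)]
    lev := [] }
  links := [[1, 3, 6, 7], [3, 0, 7, 2, 8, 9], [8, 1, 7, 5, 10, 11], [6, 0, 1, 9, 12, 4, 13], [13, 3, 12,
    10], [10, 2, 7, 14]]
  P := {
    a := 6
    N := 15
    nb := [202, 909, 3490, 12883, 13320, 17540, 8329, 16487, 2566, 4362, 30772, 1284, 1560, 1112,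
      1184]
    tri := [(0, 1, 3), (0, 1, 7), (0, 3, 6), (0, 6, 7), (1, 2, 7), (1, 2, 8), (1, 3, 9), (1, 8, 9), (2,
      5, 7), (2, 5, 10), (2, 8, 11), (2, 10, 11), (3, 4, 12), (3, 4, 13), (3, 6, 13), (3, 9, 12),
      (4, 10, 12), (4, 10, 13), (5, 7, 14), (5, 10, 14)]
    fin := [0, 0, 2, 3, 4, 2, 0, 2, 2, 3, 4, 11, 12, 3, 14]
    chd := [(2, 4)]
    steps := [(0, 1), (0, 6), (2, 5), (2, 7), (2, 8), (3, 9), (3, 13), (4, 10)] }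
  rep := [2, 3, 0, 4, 12, 11, 14]

noncomputable def v1187 : Cov.CovD where
  P := 3
  N := 4
  pl := [0, 5, 6, 8]
  lev := [⟨[], [], [], [2], [(1, 0, [3])]⟩,
    ⟨[], [(0, 0), (0, 1)], [(0, 0), (0, 1)], [], [(1, 0, [3]), (2, 0, [3]), (3, 1, [])]⟩,
    ⟨[(0, 1)], [(0, 0), (1, 0), (1, 1), (1, 3)], [(0, 0), (0, 3)], [5], [(1, 0, [3]), (2,
      0, [3]), (4, 3, [0])]⟩,
    ⟨[(0, 1), (1, 2)], [(0, 0), (0, 1), (1, 0), (1, 1)], [(1, 1)], [2, 4], [(3, 1, []), (7,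
      1, [])]⟩,
    ⟨[(0, 3), (1, 3)], [(2, 3), (3, 1), (3, 3)], [(1, 3)], [4], [(4, 3, [0]), (7, 1, [])]⟩,
    ⟨[(1, 2)], [(0, 0), (1, 0), (2, 0), (2, 3), (4, 3)], [(0, 3)], [6], [(1, 0, [3]), (4,
      3, [0])]⟩]
  Ta := [((1, 0), 0, 2), ((1, 8), 0, 6), ((2, 3), 0, 1), ((2, 5), 0, 5), ((3, 2), 1, 0), ((3, 6),
    1, 4), ((7, 0), 1, 2), ((7, 4), 1, 3)]
  Tb := [((0, 1, 7), 2, 0, 1), ((1, 0, 8), 0, 2, 6), ((2, 3, 5), 0, 1, 5), ((3, 2, 6), 1, 0, 4),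
    ((4, 5, 6), 3, 5, 4), ((4, 5, 7), 3, 5, 1), ((4, 5, 8), 3, 5, 6), ((4, 6, 7), 3, 4, 1),
    ((4, 6, 8), 3, 4, 6), ((4, 7, 8), 3, 1, 6), ((5, 2, 4), 5, 0, 3), ((6, 3, 4), 4, 1, 3),
    ((7, 0, 4), 1, 2, 3), ((8, 1, 4), 6, 0, 3)]
  Tc := []
  Td := [((0, 3), (1, 0), 2), ((0, 3), (1, 8), 6), ((0, 3), (2, 3), 1), ((0, 3), (2, 5), 5), ((3,
    0), (4, 5), 5), ((3, 0), (4, 6), 4), ((3, 0), (4, 7), 1), ((3, 0), (4, 8), 6)]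
  G := [[0, 0, 0xa14846162ce1e2c6a888cc, 0, 0x644194a8a29221a6ce29ec2], [0, 0,
    0xe88a66d8a4e1e4c4e14e14ac6, 0x66564964a8e1d6a8a1c8a4, 0xe6568594e8e19a6c6e59ac2], [0,
    0x1811c1111c1111ce24, 0, 0, 0x12415934a1391e3329e48], [0, 0, 0, 0x6411548a8119a1c6159a4c,
    0xb8c15914a159912d119e42]]

noncomputable def n1187 : Ent := ⟨e1187, noF, [], [], []⟩

def c1187 : PLift (Cov.check n1187.C.D v1187 = true) := ⟨by decide +kernel⟩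

def b1187 : PLift (entF (fidx ts) 400 1187 n1187 = true) := ⟨by decide +kernel⟩

theorem g1187 : GoodF (fidx ts) 400 1187 := GoodF.ofV v1187 n1187 c1187.down b1187.down

/-- 466744:972/5 -/
noncomputable def e1188 : SCfg where
  D := {
    a := 6
    L := 9
    kp := 6
    inn := [(0, 1), (0, 3), (1, 0), (1, 2), (1, 3), (2, 1), (2, 5), (3, 0), (3, 1), (3, 4), (4, 3), (5,
      2)]
    mix := [(0, 0), (0, 1), (1, 1), (1, 2), (1, 3), (2, 1), (2, 2), (2, 4), (2, 5), (3, 0), (3, 3), (3,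
      6), (3, 7), (4, 5), (4, 6), (4, 7), (5, 1), (5, 4), (5, 8)]
    cl := [2, 0, 0, 1, 3, 4, 5, 1, 6]
    chq := [(0, 3), (3, 0)]
    rng := [(0, 1), (0, 7), (1, 0), (1, 8), (2, 3), (2, 5), (3, 2), (3, 6), (4, 5), (4, 8), (5, 2), (5,
      4), (5, 6), (5, 7), (6, 3), (6, 5), (7, 0), (7, 5), (8, 1), (8, 4)]
    lev := [] }
  links := [[1, 3, 6, 7], [3, 0, 7, 2, 8, 9], [8, 1, 7, 5, 10, 11], [6, 0, 1, 9, 12, 4, 13], [13, 3, 12,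
    11], [10, 2, 7, 14]]
  P := {
    a := 6
    N := 15
    nb := [202, 909, 3490, 12883, 14344, 17540, 8329, 16487, 2566, 4362, 18468, 13588, 2584, 2136,
      1184]
    tri := [(0, 1, 3), (0, 1, 7), (0, 3, 6), (0, 6, 7), (1, 2, 7), (1, 2, 8), (1, 3, 9), (1, 8, 9), (2,
      5, 7), (2, 5, 10), (2, 8, 11), (2, 10, 11), (3, 4, 12), (3, 4, 13), (3, 6, 13), (3, 9, 12),
      (4, 11, 12), (4, 11, 13), (5, 7, 14), (5, 10, 14)]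
    fin := [0, 0, 2, 3, 4, 2, 0, 2, 2, 3, 10, 4, 12, 3, 14]
    chd := [(2, 10)]
    steps := [(0, 1), (0, 6), (2, 5), (2, 7), (2, 8), (3, 9), (3, 13), (4, 11)] }
  rep := [2, 3, 0, 10, 4, 12, 14]

noncomputable def v1188 : Cov.CovD where
  P := 3
  N := 4
  pl := [0, 5, 6, 8]
  lev := [⟨[], [], [], [2], [(1, 0, [3])]⟩,
    ⟨[], [(0, 0), (0, 1)], [(0, 0), (0, 1)], [], [(1, 0, [3]), (2, 0, [3]), (3, 1, [])]⟩,
    ⟨[(0, 1)], [(0, 0), (1, 0), (1, 1), (1, 3)], [(0, 0), (0, 3)], [4], [(1, 0, [3]), (2,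
      0, [3]), (4, 3, [0])]⟩,
    ⟨[(0, 1), (1, 2)], [(0, 0), (0, 1), (1, 0), (1, 1)], [(1, 1)], [2, 5], [(3, 1, []), (7,
      1, [])]⟩,
    ⟨[(0, 3), (1, 3)], [(3, 1)], [], [4, 5], [(7, 1, [])]⟩,
    ⟨[(1, 2)], [(0, 0), (1, 0), (2, 0), (2, 3)], [(0, 3)], [6], [(1, 0, [3]), (4, 3, [0])]⟩]
  Ta := [((1, 0), 0, 2), ((1, 8), 0, 6), ((2, 3), 0, 1), ((2, 5), 0, 4), ((3, 2), 1, 0), ((3, 6),
    1, 5), ((7, 0), 1, 2), ((7, 5), 1, 4)]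
  Tb := [((0, 1, 7), 2, 0, 1), ((1, 0, 8), 0, 2, 6), ((2, 3, 5), 0, 1, 4), ((3, 2, 6), 1, 0, 5),
    ((4, 5, 8), 3, 4, 6), ((5, 2, 4), 4, 0, 3), ((5, 2, 6), 4, 0, 5), ((5, 2, 7), 4, 0, 1),
    ((5, 4, 6), 4, 3, 5), ((5, 4, 7), 4, 3, 1), ((5, 6, 7), 4, 5, 1), ((6, 3, 5), 5, 1, 4),
    ((7, 0, 5), 1, 2, 4), ((8, 1, 4), 6, 0, 3)]
  Tc := []
  Td := [((0, 3), (1, 0), 2), ((0, 3), (1, 8), 6), ((0, 3), (2, 3), 1), ((0, 3), (2, 5), 4), ((3,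
    0), (4, 5), 4), ((3, 0), (4, 8), 6)]
  G := [[0, 0, 0xc2c1ce14a4c1c2c4e282cc, 0, 0xc2c194c8c29e2e19ac2], [0, 0,
    0xe1e4ce16a6dc6e8e1c8c2, 0xc4c156ace1568c8c1984c, 0xe4e1942e8e196ace19a4a], [0,
    0x1111c1111c1211ce28, 0, 0, 0x1211912149b21659e48], [0, 0, 0, 0x141159418119bac1759ac4,
    0x383159b491951c1b59e42]]

noncomputable def n1188 : Ent := ⟨e1188, noF, [], [], [(6, 14, [81620716623019490593592230936445690773474979418095888236545, 0])]⟩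

def c1188 : PLift (Cov.check n1188.C.D v1188 = true) := ⟨by decide +kernel⟩

def b1188 : PLift (entF (fidx ts) 400 1188 n1188 = true) := ⟨by decide +kernel⟩

theorem g1188 : GoodF (fidx ts) 400 1188 := GoodF.ofV v1188 n1188 c1188.down b1188.down

/-- 466744:972 -/
noncomputable def e1189 : SCfg where
  D := {
    a := 6
    L := 10
    kp := 7
    inn := [(0, 1), (0, 3), (1, 0), (1, 2), (1, 3), (2, 1), (2, 5), (3, 0), (3, 1), (3, 4), (4, 3), (5,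
      2)]
    mix := [(0, 0), (0, 1), (1, 1), (1, 2), (1, 3), (2, 1), (2, 2), (2, 4), (2, 5), (3, 0), (3, 3), (3,
      6), (3, 7), (4, 6), (4, 7), (4, 8), (5, 1), (5, 4), (5, 9)]
    cl := [2, 0, 0, 1, 3, 5, 4, 1, 7, 6]
    chq := [(5, 6), (6, 5)]
    rng := [(0, 1), (0, 7), (1, 0), (1, 9), (2, 3), (2, 5), (3, 2), (3, 6), (4, 5), (4, 9), (5, 2), (5,
      4), (6, 3), (6, 8), (7, 0), (7, 8), (8, 6), (8, 7), (9, 1), (9, 4)]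
    lev := [] }
  links := [[1, 3, 6, 7], [3, 0, 7, 2, 8, 9], [8, 1, 7, 5, 10, 11], [6, 0, 1, 9, 12, 4, 13], [13, 3, 12,
    14], [10, 2, 7, 15]]
  P := {
    a := 6
    N := 16
    nb := [202, 909, 3490, 12883, 28680, 33924, 8329, 32871, 2566, 4362, 34852, 1284, 16920, 16472,
      12304, 1184]
    tri := [(0, 1, 3), (0, 1, 7), (0, 3, 6), (0, 6, 7), (1, 2, 7), (1, 2, 8), (1, 3, 9), (1, 8, 9), (2,
      5, 7), (2, 5, 10), (2, 8, 11), (2, 10, 11), (3, 4, 12), (3, 4, 13), (3, 6, 13), (3, 9, 12),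
      (4, 12, 14), (4, 13, 14), (5, 7, 15), (5, 10, 15)]
    fin := [0, 1, 2, 3, 3, 2, 0, 1, 1, 3, 10, 11, 12, 3, 14, 2]
    chd := [(11, 2)]
    steps := [(0, 6), (1, 7), (1, 8), (2, 5), (2, 15), (3, 4), (3, 9), (3, 13)] }
  rep := [1, 3, 0, 10, 12, 11, 2, 14]

noncomputable def v1189 : Cov.CovD where
  P := 3
  N := 5
  pl := [0, 4, 6, 8]
  lev := [⟨[], [], [], [2], [(1, 0, [])]⟩,
    ⟨[], [(0, 0), (0, 1)], [(0, 0), (0, 1)], [], [(1, 0, []), (2, 0, []), (3, 1, [])]⟩,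
    ⟨[(0, 1)], [(0, 0), (1, 0), (1, 1), (1, 5)], [(0, 0), (0, 5)], [3], [(1, 0, []), (2, 0,
      []), (5, 5, [6])]⟩,
    ⟨[(0, 1), (1, 2)], [(0, 0), (0, 1), (1, 0), (1, 1)], [(1, 1)], [2, 4], [(3, 1, []), (7,
      1, [])]⟩,
    ⟨[(0, 3), (1, 3)], [(3, 1)], [], [4, 7], [(7, 1, [])]⟩,
    ⟨[(1, 2)], [(0, 0), (1, 0), (2, 0), (2, 5), (2, 6)], [(0, 6)], [3], [(1, 0, []), (9, 6,
      [5])]⟩]
  Ta := [((1, 0), 0, 2), ((1, 9), 0, 6), ((2, 3), 0, 1), ((2, 5), 0, 5), ((3, 2), 1, 0), ((3, 6),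
    1, 4), ((7, 0), 1, 2), ((7, 8), 1, 7)]
  Tb := [((0, 1, 7), 2, 0, 1), ((1, 0, 9), 0, 2, 6), ((2, 3, 5), 0, 1, 5), ((3, 2, 6), 1, 0, 4),
    ((4, 5, 9), 3, 5, 6), ((5, 2, 4), 5, 0, 3), ((6, 3, 8), 4, 1, 7), ((7, 0, 8), 1, 2, 7),
    ((8, 6, 7), 7, 4, 1), ((9, 1, 4), 6, 0, 3)]
  Tc := []
  Td := [((5, 6), (5, 2), 0), ((5, 6), (5, 4), 3), ((6, 5), (9, 1), 0), ((6, 5), (9, 4), 3)]
  G := [[0, 0, 0xaa54466962ca28cc9c2cec2, 0, 0x626659aaca29cccc29e42], [0, 0,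
    0xaa54cc54661665c8a688cc98aaa9846c, 0xa4aa59cc516ccc8266c6659a88ce4,
    0x66c6659aacaa59ccccc59e42], [0, 0x6111c1131c91c1ce28, 0, 0, 0x11c2169321359529c59e42],
    [0, 0, 0, 0xc5c1195211c5595a3c9795ca8, 0x31c165913ca15975c5959e42]]

noncomputable def n1189 : Ent := ⟨e1189, noF, [], [], [(6, 15, [360035742630636841211993100915356868655746945586763691012526081, 0]), (15, 14, [385746751338780685620664494392815470296102193487288376377352193, 0]), (10, 14, [385746751338780685620664494392815470296102193487288376377356289, 0]), (11, 14, [385746751338780685620664494392815470296102193487288376377360385, 0])]⟩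

def c1189 : PLift (Cov.check n1189.C.D v1189 = true) := ⟨by decide +kernel⟩

def b1189 : PLift (entF (fidx ts) 400 1189 n1189 = true) := ⟨by decide +kernel⟩

theorem g1189 : GoodF (fidx ts) 400 1189 := GoodF.ofV v1189 n1189 c1189.down b1189.down

/-- 466647:975/2 -/
noncomputable def e1190 : SCfg where
  D := {
    a := 6
    L := 9
    kp := 7
    inn := [(0, 1), (0, 3), (1, 0), (1, 2), (1, 3), (1, 5), (2, 1), (2, 4), (2, 5), (3, 0), (3, 1), (4,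
      2), (5, 1), (5, 2)]
    mix := [(0, 0), (0, 1), (1, 1), (1, 2), (2, 1), (2, 3), (2, 4), (3, 0), (3, 2), (3, 5), (3, 6), (4,
      0), (4, 1), (4, 3), (5, 2), (5, 4), (5, 5), (5, 7), (5, 8)]
    cl := [0, 1, 0, 2, 3, 4, 7, 5, 6]
    chq := [(0, 3), (1, 3), (1, 4), (1, 5), (1, 6), (3, 0), (3, 1), (4, 1), (5, 1), (6, 1)]
    rng := [(0, 1), (0, 3), (0, 6), (1, 0), (2, 5), (3, 0), (3, 4), (4, 3), (4, 7), (5, 2), (5, 6), (5,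
      8), (6, 0), (6, 5), (7, 4), (7, 8), (8, 5), (8, 7)]
    lev := [] }
  links := [[1, 3, 6, 7], [3, 0, 7, 2, 5, 8], [5, 1, 7, 4, 9, 10], [6, 0, 1, 8, 11, 12], [9, 2, 7, 6],
    [8, 1, 2, 10, 13, 14, 11]]
  P := {
    a := 6
    N := 15
    nb := [202, 429, 1714, 6467, 708, 27910, 4761, 87, 2090, 1108, 8740, 20776, 2120, 17440, 10272]
    tri := [(0, 1, 3), (0, 1, 7), (0, 3, 6), (0, 6, 7), (1, 2, 5), (1, 2, 7), (1, 3, 8), (1, 5, 8), (2,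
      4, 7), (2, 4, 9), (2, 5, 10), (2, 9, 10), (3, 6, 12), (3, 8, 11), (3, 11, 12), (4, 6, 7),
      (4, 6, 9), (5, 8, 11), (5, 10, 13), (5, 11, 14), (5, 13, 14)]
    fin := [0, 1, 0, 0, 0, 1, 0, 1, 0, 9, 10, 11, 12, 13, 14]
    chd := [(0, 10), (1, 10), (1, 11), (1, 13), (1, 14)]
    steps := [(0, 3), (0, 6), (0, 4), (0, 8), (1, 5), (1, 7), (0, 2)] }
  rep := [0, 1, 9, 10, 11, 13, 14, 12]

noncomputable def v1190 : Cov.CovD where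
  P := 3
  N := 5
  pl := [3, 6]
  lev := [⟨[], [], [(0, 1)], [], [(0, 0, [3]), (1, 1, [3, 4, 5, 6])]⟩,
    ⟨[], [(0, 0), (0, 1)], [(0, 1)], [], [(1, 1, [3, 4, 5, 6]), (2, 0, [3])]⟩,
    ⟨[(0, 1)], [(0, 1), (1, 0), (1, 1), (1, 3)], [(1, 3)], [2], [(1, 1, [3, 4, 5, 6]), (4,
      3, [0, 1])]⟩,
    ⟨[(0, 1), (1, 2)], [(0, 0), (0, 1), (0, 4), (1, 0), (1, 1), (1, 4)], [(0, 0), (0, 4)],
      [7], [(0, 0, [3]), (2, 0, [3]), (5, 4, [1])]⟩,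
    ⟨[(1, 2)], [(0, 0), (0, 1), (1, 1), (2, 0), (2, 1), (2, 3), (3, 0)], [(0, 1)], [2],
      [(0, 0, [3]), (1, 1, [3, 4, 5, 6])]⟩,
    ⟨[(0, 1), (1, 2), (1, 3), (2, 4)], [(1, 0), (1, 1), (1, 3), (1, 4), (1, 5), (1, 6), (2,
      0), (2, 1), (2, 3), (2, 4), (2, 5), (2, 6), (3, 0), (3, 4)], [(0, 3), (0, 4), (0, 5),
      (0, 6), (3, 4), (3, 5), (3, 6), (4, 5), (4, 6), (5, 6)], [], [(2, 0, [3]), (4, 3, [0,
      1]), (5, 4, [1]), (7, 5, [1]), (8, 6, [1])]⟩]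
  Ta := [((0, 1), 0, 1), ((0, 3), 0, 2), ((0, 6), 0, 7), ((2, 5), 0, 4)]
  Tb := [((0, 1, 3), 0, 1, 2), ((0, 1, 6), 0, 1, 7), ((0, 3, 6), 0, 2, 7), ((3, 0, 4), 2, 0, 3),
    ((4, 3, 7), 3, 2, 5), ((5, 2, 6), 4, 0, 7), ((5, 2, 8), 4, 0, 6), ((5, 6, 8), 4, 7, 6),
    ((6, 0, 5), 7, 0, 4), ((7, 4, 8), 5, 3, 6), ((8, 5, 7), 6, 4, 5)]
  Tc := [(1, 3, 4), (1, 3, 5), (1, 3, 6), (1, 4, 5), (1, 4, 6), (1, 5, 6), (3, 0, 1)]
  Td := [((0, 3), (0, 1), 1), ((0, 3), (0, 3), 2), ((0, 3), (0, 6), 7), ((0, 3), (2, 5), 4), ((1,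
    3), (1, 0), 0), ((1, 4), (1, 0), 0), ((1, 5), (1, 0), 0), ((1, 6), (1, 0), 0), ((3, 0),
    (4, 3), 2), ((3, 0), (4, 7), 5), ((3, 1), (4, 3), 2), ((3, 1), (4, 7), 5), ((4, 1), (5,
    2), 0), ((4, 1), (5, 6), 7), ((4, 1), (5, 8), 6), ((5, 1), (7, 4), 3), ((5, 1), (7, 8),
    6), ((6, 1), (8, 5), 4), ((6, 1), (8, 7), 5)]
  G := [[0, 0x141414e181818ec28, 0x282428e4282424e894, 0x282424e148, 0x282828e184], [0, 0, 0,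
    0x282824e141, 0x282828e181]]

noncomputable def n1190 : Ent := ⟨e1190, noF, [], [], []⟩

def c1190 : PLift (Cov.check n1190.C.D v1190 = true) := ⟨by decide +kernel⟩

def b1190 : PLift (entF (fidx ts) 400 1190 n1190 = true) := ⟨by decide +kernel⟩

theorem g1190 : GoodF (fidx ts) 400 1190 := GoodF.ofV v1190 n1190 c1190.down b1190.down

/-- 466647:975/1 -/
noncomputable def e1191 : SCfg where
  D := {
    a := 6
    L := 10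
    kp := 8
    inn := [(0, 1), (0, 3), (1, 0), (1, 2), (1, 3), (1, 5), (2, 1), (2, 4), (2, 5), (3, 0), (3, 1), (4,
      2), (5, 1), (5, 2)]
    mix := [(0, 0), (0, 1), (1, 1), (1, 2), (2, 1), (2, 3), (2, 4), (3, 0), (3, 2), (3, 5), (3, 6), (4,
      0), (4, 1), (4, 3), (5, 2), (5, 4), (5, 7), (5, 8), (5, 9)]
    cl := [0, 1, 0, 2, 3, 7, 8, 4, 5, 6]
    chq := [(0, 3), (1, 3), (1, 4), (1, 5), (1, 6), (3, 0), (3, 1), (4, 1), (5, 1), (6, 1)]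
    rng := [(0, 1), (0, 3), (0, 6), (1, 0), (2, 5), (2, 9), (3, 0), (3, 4), (4, 3), (4, 7), (5, 2), (5,
      6), (6, 0), (6, 5), (7, 4), (7, 8), (8, 7), (8, 9), (9, 2), (9, 8)]
    lev := [] }
  links := [[1, 3, 6, 7], [3, 0, 7, 2, 5, 8], [5, 1, 7, 4, 9, 10], [6, 0, 1, 8, 11, 12], [9, 2, 7, 6],
    [8, 1, 2, 10, 13, 14, 15]]
  P := {
    a := 6
    N := 16
    nb := [202, 429, 1714, 6467, 708, 58630, 4761, 87, 34858, 1108, 8740, 4360, 2120, 17440, 40992,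
      16672]
    tri := [(0, 1, 3), (0, 1, 7), (0, 3, 6), (0, 6, 7), (1, 2, 5), (1, 2, 7), (1, 3, 8), (1, 5, 8), (2,
      4, 7), (2, 4, 9), (2, 5, 10), (2, 9, 10), (3, 6, 12), (3, 8, 11), (3, 11, 12), (4, 6, 7),
      (4, 6, 9), (5, 8, 15), (5, 10, 13), (5, 13, 14), (5, 14, 15)]
    fin := [0, 1, 0, 0, 0, 1, 0, 1, 0, 9, 10, 11, 12, 13, 14, 15]
    chd := [(0, 10), (1, 10), (1, 13), (1, 14), (1, 15)]
    steps := [(0, 3), (0, 6), (0, 4), (0, 8), (1, 5), (1, 7), (0, 2)] }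
  rep := [0, 1, 9, 10, 13, 14, 15, 11, 12]

noncomputable def v1191 : Cov.CovD where
  P := 3
  N := 6
  pl := [3, 5, 6]
  lev := [⟨[], [], [(0, 1)], [], [(0, 0, [3]), (1, 1, [3, 4, 5, 6])]⟩,
    ⟨[], [(0, 0), (0, 1)], [(0, 1)], [], [(1, 1, [3, 4, 5, 6]), (2, 0, [3])]⟩,
    ⟨[(0, 1)], [(0, 1), (1, 0), (1, 1), (1, 3)], [(1, 3)], [2], [(1, 1, [3, 4, 5, 6]), (4,
      3, [0, 1])]⟩,
    ⟨[(0, 1), (1, 2)], [(0, 0), (0, 1), (1, 0), (1, 1)], [(0, 0)], [7, 8], [(0, 0, [3]),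
      (2, 0, [3])]⟩,
    ⟨[(1, 2)], [(0, 0), (0, 1), (1, 1), (2, 0), (2, 1), (2, 3), (3, 0)], [(0, 1)], [2],
      [(0, 0, [3]), (1, 1, [3, 4, 5, 6])]⟩,
    ⟨[(0, 1), (1, 2), (1, 3), (2, 4)], [(1, 0), (1, 1), (1, 3), (1, 4), (1, 5), (1, 6), (2,
      0), (2, 1), (2, 3), (2, 4), (2, 5), (2, 6), (3, 0)], [(0, 3), (0, 4), (0, 5), (0, 6),
      (3, 4), (3, 5), (3, 6), (4, 5), (4, 6), (5, 6)], [], [(2, 0, [3]), (4, 3, [0, 1]), (7,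
      4, [1]), (8, 5, [1]), (9, 6, [1])]⟩]
  Ta := [((0, 1), 0, 1), ((0, 3), 0, 2), ((0, 6), 0, 8), ((2, 5), 0, 7), ((2, 9), 0, 6)]
  Tb := [((0, 1, 3), 0, 1, 2), ((0, 1, 6), 0, 1, 8), ((0, 3, 6), 0, 2, 8), ((2, 5, 9), 0, 7, 6),
    ((3, 0, 4), 2, 0, 3), ((4, 3, 7), 3, 2, 4), ((5, 2, 6), 7, 0, 8), ((6, 0, 5), 8, 0, 7),
    ((7, 4, 8), 4, 3, 5), ((8, 7, 9), 5, 4, 6), ((9, 2, 8), 6, 0, 5)]
  Tc := [(1, 3, 4), (1, 3, 5), (1, 3, 6), (1, 4, 5), (1, 4, 6), (1, 5, 6), (3, 0, 1)]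
  Td := [((0, 3), (0, 1), 1), ((0, 3), (0, 3), 2), ((0, 3), (0, 6), 8), ((0, 3), (2, 5), 7), ((0,
    3), (2, 9), 6), ((1, 3), (1, 0), 0), ((1, 4), (1, 0), 0), ((1, 5), (1, 0), 0), ((1, 6),
    (1, 0), 0), ((3, 0), (4, 3), 2), ((3, 0), (4, 7), 4), ((3, 1), (4, 3), 2), ((3, 1), (4,
    7), 4), ((4, 1), (7, 4), 3), ((4, 1), (7, 8), 5), ((5, 1), (8, 7), 4), ((5, 1), (8, 9),
    6), ((6, 1), (9, 2), 0), ((6, 1), (9, 8), 5)]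
  G := [[0, 0x144141818ec1814a8c4, 0x242828e242424ec14, 0x282428e148, 0x282828e148], [0, 0, 0,
    0x242424e141, 0x282828e184]]

noncomputable def n1191 : Ent := ⟨e1191, noF, [], [], [(15, 11, [360035742632133418888619945503597441924448419398891365936553985, 0])]⟩

def c1191 : PLift (Cov.check n1191.C.D v1191 = true) := ⟨by decide +kernel⟩

def b1191 : PLift (entF (fidx ts) 400 1191 n1191 = true) := ⟨by decide +kernel⟩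

theorem g1191 : GoodF (fidx ts) 400 1191 := GoodF.ofV v1191 n1191 c1191.down b1191.down

/-- 466647:975/3 -/
noncomputable def e1192 : SCfg where
  D := {
    a := 6
    L := 10
    kp := 8
    inn := [(0, 1), (0, 3), (1, 0), (1, 2), (1, 3), (1, 5), (2, 1), (2, 4), (2, 5), (3, 0), (3, 1), (4,
      2), (5, 1), (5, 2)]
    mix := [(0, 0), (0, 1), (1, 1), (1, 2), (2, 1), (2, 3), (2, 4), (3, 0), (3, 2), (3, 5), (3, 6), (4,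
      1), (4, 3), (4, 7), (5, 2), (5, 4), (5, 5), (5, 8), (5, 9)]
    cl := [0, 1, 0, 3, 2, 4, 7, 8, 5, 6]
    chq := [(1, 2), (1, 3), (1, 4), (1, 5), (1, 6), (2, 1), (3, 1), (4, 1), (5, 1), (6, 1)]
    rng := [(0, 1), (0, 6), (1, 0), (1, 7), (2, 5), (3, 4), (3, 7), (4, 3), (4, 8), (5, 2), (5, 6), (5,
      9), (6, 0), (6, 5), (7, 1), (7, 3), (8, 4), (8, 9), (9, 5), (9, 8)]
    lev := [] }
  links := [[1, 3, 6, 7], [3, 0, 7, 2, 5, 8], [5, 1, 7, 4, 9, 10], [6, 0, 1, 8, 11, 12], [9, 2, 7, 13],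
    [8, 1, 2, 10, 14, 15, 11]]
  P := {
    a := 6
    N := 16
    nb := [202, 429, 1714, 6467, 8836, 52486, 4233, 8279, 2090, 9236, 16932, 37160, 2120, 656, 33824,
      18464]
    tri := [(0, 1, 3), (0, 1, 7), (0, 3, 6), (0, 6, 7), (1, 2, 5), (1, 2, 7), (1, 3, 8), (1, 5, 8), (2,
      4, 7), (2, 4, 9), (2, 5, 10), (2, 9, 10), (3, 6, 12), (3, 8, 11), (3, 11, 12), (4, 7, 13),
      (4, 9, 13), (5, 8, 11), (5, 10, 14), (5, 11, 15), (5, 14, 15)]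
    fin := [0, 0, 2, 0, 2, 2, 0, 2, 0, 9, 10, 11, 12, 13, 14, 15]
    chd := [(2, 9), (2, 10), (2, 11), (2, 14), (2, 15)]
    steps := [(0, 1), (0, 3), (0, 6), (0, 8), (2, 4), (2, 5), (2, 7)] }
  rep := [0, 2, 10, 9, 11, 14, 15, 12, 13]

noncomputable def v1192 : Cov.CovD where
  P := 3
  N := 6
  pl := [6, 7]
  lev := [⟨[], [], [(0, 1)], [], [(0, 0, []), (1, 1, [2, 3, 4, 5, 6])]⟩,
    ⟨[], [(0, 0), (0, 1)], [(0, 1)], [], [(1, 1, [2, 3, 4, 5, 6]), (2, 0, [])]⟩,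
    ⟨[(0, 1)], [(0, 1), (1, 0), (1, 1), (1, 2), (1, 3)], [(1, 2), (1, 3), (2, 3)], [], [(1,
      1, [2, 3, 4, 5, 6]), (3, 3, [1]), (4, 2, [1])]⟩,
    ⟨[(0, 1), (1, 2)], [(0, 0), (0, 1), (0, 4), (1, 0), (1, 1), (1, 4)], [(0, 0), (0, 4)],
      [7], [(0, 0, []), (2, 0, []), (5, 4, [1])]⟩,
    ⟨[(1, 2)], [(0, 1), (1, 1), (2, 1), (2, 2), (2, 3)], [(1, 3)], [8], [(1, 1, [2, 3, 4,
      5, 6]), (3, 3, [1])]⟩,
    ⟨[(0, 1), (1, 2), (1, 3), (2, 4)], [(1, 0), (1, 1), (1, 2), (1, 4), (1, 5), (1, 6), (2,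
      0), (2, 1), (2, 2), (2, 3), (2, 4), (2, 5), (2, 6), (3, 0), (3, 4)], [(0, 2), (0, 4),
      (0, 5), (0, 6), (2, 4), (2, 5), (2, 6), (4, 5), (4, 6), (5, 6)], [], [(2, 0, []), (4,
      2, [1]), (5, 4, [1]), (8, 5, [1]), (9, 6, [1])]⟩]
  Ta := [((0, 1), 0, 1), ((0, 6), 0, 7), ((2, 5), 0, 4)]
  Tb := [((0, 1, 6), 0, 1, 7), ((1, 0, 7), 1, 0, 8), ((3, 4, 7), 3, 2, 8), ((4, 3, 8), 2, 3, 5),
    ((5, 2, 6), 4, 0, 7), ((5, 2, 9), 4, 0, 6), ((5, 6, 9), 4, 7, 6), ((6, 0, 5), 7, 0, 4),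
    ((7, 1, 3), 8, 1, 3), ((8, 4, 9), 5, 2, 6), ((9, 5, 8), 6, 4, 5)]
  Tc := [(1, 2, 3), (1, 2, 4), (1, 2, 5), (1, 2, 6), (1, 3, 4), (1, 3, 5), (1, 3, 6), (1, 4, 5),
    (1, 4, 6), (1, 5, 6)]
  Td := [((1, 2), (1, 0), 0), ((1, 2), (1, 7), 8), ((1, 3), (1, 0), 0), ((1, 3), (1, 7), 8), ((1,
    4), (1, 0), 0), ((1, 4), (1, 7), 8), ((1, 5), (1, 0), 0), ((1, 5), (1, 7), 8), ((1, 6),
    (1, 0), 0), ((1, 6), (1, 7), 8), ((2, 1), (4, 3), 3), ((2, 1), (4, 8), 5), ((3, 1), (3,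
    4), 2), ((3, 1), (3, 7), 8), ((4, 1), (5, 2), 0), ((4, 1), (5, 6), 7), ((4, 1), (5, 9),
    6), ((5, 1), (8, 4), 2), ((5, 1), (8, 9), 6), ((6, 1), (9, 5), 4), ((6, 1), (9, 8), 5)]
  G := [[0, 0x116116116e411a8811a11a68e4, 0x229229229e225225225ec14, 0x222222e222222ec18,
    0x22c22c22ce225225225e948], [0, 0, 0x225225225e4229229229e8c1, 0x222222e222222e948,
    0x22c22c22ce225225225e948]]

noncomputable def n1192 : Ent := ⟨e1192, noF, [], [], [(6, 13, [385753028440516072301428330182238677962518295842732840411881473, 0])]⟩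

def c1192 : PLift (Cov.check n1192.C.D v1192 = true) := ⟨by decide +kernel⟩

def b1192 : PLift (entF (fidx ts) 400 1192 n1192 = true) := ⟨by decide +kernel⟩

theorem g1192 : GoodF (fidx ts) 400 1192 := GoodF.ofV v1192 n1192 c1192.down b1192.down

/-- 466647:975 -/
noncomputable def e1193 : SCfg where
  D := {
    a := 6
    L := 11
    kp := 9
    inn := [(0, 1), (0, 3), (1, 0), (1, 2), (1, 3), (1, 5), (2, 1), (2, 4), (2, 5), (3, 0), (3, 1), (4,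
      2), (5, 1), (5, 2)]
    mix := [(0, 0), (0, 1), (1, 1), (1, 2), (2, 1), (2, 3), (2, 4), (3, 0), (3, 2), (3, 5), (3, 6), (4,
      1), (4, 3), (4, 7), (5, 2), (5, 4), (5, 8), (5, 9), (5, 10)]
    cl := [0, 1, 0, 3, 2, 7, 8, 9, 4, 5, 6]
    chq := [(1, 2), (1, 3), (1, 4), (1, 5), (1, 6), (2, 1), (3, 1), (4, 1), (5, 1), (6, 1)]
    rng := [(0, 1), (0, 6), (1, 0), (1, 7), (2, 5), (2, 10), (3, 4), (3, 7), (4, 3), (4, 8), (5, 2),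
      (5, 6), (6, 0), (6, 5), (7, 1), (7, 3), (8, 4), (8, 9), (9, 8), (9, 10), (10, 2), (10, 9)]
    lev := [] }
  links := [[1, 3, 6, 7], [3, 0, 7, 2, 5, 8], [5, 1, 7, 4, 9, 10], [6, 0, 1, 8, 11, 12], [9, 2, 7, 13],
    [8, 1, 2, 10, 14, 15, 16]]
  P := {
    a := 6
    N := 17
    nb := [202, 429, 1714, 6467, 8836, 115974, 4233, 8279, 67626, 9236, 16932, 4360, 2120, 656, 33824,
      81952, 33056]
    tri := [(0, 1, 3), (0, 1, 7), (0, 3, 6), (0, 6, 7), (1, 2, 5), (1, 2, 7), (1, 3, 8), (1, 5, 8), (2,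
      4, 7), (2, 4, 9), (2, 5, 10), (2, 9, 10), (3, 6, 12), (3, 8, 11), (3, 11, 12), (4, 7, 13),
      (4, 9, 13), (5, 8, 16), (5, 10, 14), (5, 14, 15), (5, 15, 16)]
    fin := [0, 0, 2, 0, 2, 2, 0, 2, 0, 9, 10, 11, 12, 13, 14, 15, 16]
    chd := [(2, 9), (2, 10), (2, 14), (2, 15), (2, 16)]
    steps := [(0, 1), (0, 3), (0, 6), (0, 8), (2, 4), (2, 5), (2, 7)] }
  rep := [0, 2, 10, 9, 14, 15, 16, 11, 12, 13]

noncomputable def v1193 : Cov.CovD where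
  P := 3
  N := 7
  pl := [5, 6, 7]
  lev := [⟨[], [], [(0, 1)], [], [(0, 0, []), (1, 1, [2, 3, 4, 5, 6])]⟩,
    ⟨[], [(0, 0), (0, 1)], [(0, 1)], [], [(1, 1, [2, 3, 4, 5, 6]), (2, 0, [])]⟩,
    ⟨[(0, 1)], [(0, 1), (1, 0), (1, 1), (1, 2), (1, 3)], [(1, 2), (1, 3), (2, 3)], [], [(1,
      1, [2, 3, 4, 5, 6]), (3, 3, [1]), (4, 2, [1])]⟩,
    ⟨[(0, 1), (1, 2)], [(0, 0), (0, 1), (1, 0), (1, 1)], [(0, 0)], [7, 8], [(0, 0, []), (2,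
      0, [])]⟩,
    ⟨[(1, 2)], [(0, 1), (1, 1), (2, 1), (2, 2), (2, 3)], [(1, 3)], [9], [(1, 1, [2, 3, 4,
      5, 6]), (3, 3, [1])]⟩,
    ⟨[(0, 1), (1, 2), (1, 3), (2, 4)], [(1, 0), (1, 1), (1, 2), (1, 4), (1, 5), (1, 6), (2,
      0), (2, 1), (2, 2), (2, 3), (2, 4), (2, 5), (2, 6), (3, 0)], [(0, 2), (0, 4), (0, 5),
      (0, 6), (2, 4), (2, 5), (2, 6), (4, 5), (4, 6), (5, 6)], [], [(2, 0, []), (4, 2, [1]),
      (8, 4, [1]), (9, 5, [1]), (10, 6, [1])]⟩]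
  Ta := [((0, 1), 0, 1), ((0, 6), 0, 8), ((2, 5), 0, 7), ((2, 10), 0, 6)]
  Tb := [((0, 1, 6), 0, 1, 8), ((1, 0, 7), 1, 0, 9), ((2, 5, 10), 0, 7, 6), ((3, 4, 7), 3, 2, 9),
    ((4, 3, 8), 2, 3, 4), ((5, 2, 6), 7, 0, 8), ((6, 0, 5), 8, 0, 7), ((7, 1, 3), 9, 1, 3),
    ((8, 4, 9), 4, 2, 5), ((9, 8, 10), 5, 4, 6), ((10, 2, 9), 6, 0, 5)]
  Tc := [(1, 2, 3), (1, 2, 4), (1, 2, 5), (1, 2, 6), (1, 3, 4), (1, 3, 5), (1, 3, 6), (1, 4, 5),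
    (1, 4, 6), (1, 5, 6)]
  Td := [((1, 2), (1, 0), 0), ((1, 2), (1, 7), 9), ((1, 3), (1, 0), 0), ((1, 3), (1, 7), 9), ((1,
    4), (1, 0), 0), ((1, 4), (1, 7), 9), ((1, 5), (1, 0), 0), ((1, 5), (1, 7), 9), ((1, 6),
    (1, 0), 0), ((1, 6), (1, 7), 9), ((2, 1), (4, 3), 3), ((2, 1), (4, 8), 4), ((3, 1), (3,
    4), 2), ((3, 1), (3, 7), 9), ((4, 1), (8, 4), 2), ((4, 1), (8, 9), 5), ((5, 1), (9, 8),
    4), ((5, 1), (9, 10), 6), ((6, 1), (10, 2), 0), ((6, 1), (10, 9), 5)]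
  G := [[0, 0x11a11a11ae116116116ec28, 0x229229229e225225225ec14, 0x222222e222222ec18,
    0x22c22c22ce225225225e948], [0, 0, 0x225225225e4229229229e8c1, 0x222222e222222e941,
    0x22c22c22ce225225225e948]]

noncomputable def n1193 : Ent := ⟨e1193, noF, [], [], [(6, 13, [1685382419725355503238989871268909155780284044704628512909404303361, 0]), (16, 11, [1580044410770990308032078191911707142368668054796088592099349004289, 0])]⟩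

def c1193 : PLift (Cov.check n1193.C.D v1193 = true) := ⟨by decide +kernel⟩

def b1193 : PLift (entF (fidx ts) 400 1193 n1193 = true) := ⟨by decide +kernel⟩

theorem g1193 : GoodF (fidx ts) 400 1193 := GoodF.ofV v1193 n1193 c1193.down b1193.down

/-- 466647:976/2 -/
noncomputable def e1194 : SCfg where
  D := {
    a := 6
    L := 9
    kp := 7
    inn := [(0, 1), (0, 3), (1, 0), (1, 2), (1, 3), (1, 5), (2, 1), (2, 4), (3, 0), (3, 1), (3, 5), (4,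
      2), (5, 1), (5, 3)]
    mix := [(0, 0), (0, 1), (1, 1), (1, 2), (2, 1), (2, 2), (2, 3), (2, 4), (3, 0), (3, 5), (3, 6), (4,
      0), (4, 1), (4, 3), (5, 2), (5, 4), (5, 5), (5, 7), (5, 8)]
    cl := [1, 0, 0, 3, 2, 4, 7, 5, 6]
    chq := [(0, 3), (1, 2), (1, 4), (1, 5), (1, 6), (2, 1), (3, 0), (4, 1), (5, 1), (6, 1)]
    rng := [(0, 1), (0, 3), (0, 6), (1, 0), (2, 4), (3, 0), (3, 4), (4, 2), (4, 3), (4, 7), (5, 6), (5,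
      8), (6, 0), (6, 5), (7, 4), (7, 8), (8, 5), (8, 7)]
    lev := [] }
  links := [[1, 3, 6, 7], [3, 0, 7, 2, 8, 5], [8, 1, 7, 4, 9, 10], [6, 0, 1, 5, 11, 12], [9, 2, 7, 6],
    [11, 3, 1, 8, 10, 13, 14]]
  P := {
    a := 6
    N := 15
    nb := [202, 429, 1938, 6243, 708, 27914, 4761, 87, 1062, 1108, 8996, 20520, 2120, 17440, 10272]
    tri := [(0, 1, 3), (0, 1, 7), (0, 3, 6), (0, 6, 7), (1, 2, 7), (1, 2, 8), (1, 3, 5), (1, 5, 8), (2,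
      4, 7), (2, 4, 9), (2, 8, 10), (2, 9, 10), (3, 5, 11), (3, 6, 12), (3, 11, 12), (4, 6, 7),
      (4, 6, 9), (5, 8, 10), (5, 10, 13), (5, 11, 14), (5, 13, 14)]
    fin := [0, 0, 2, 0, 0, 0, 0, 2, 2, 9, 10, 11, 12, 13, 14]
    chd := [(0, 10), (0, 11), (0, 13), (0, 14), (2, 9)]
    steps := [(0, 1), (0, 3), (0, 5), (0, 6), (2, 7), (0, 4), (2, 8)] }
  rep := [2, 0, 10, 9, 11, 13, 14, 12]

noncomputable def v1194 : Cov.CovD where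
  P := 3
  N := 5
  pl := [6]
  lev := [⟨[], [], [(0, 1)], [], [(0, 1, [2, 4, 5, 6]), (1, 0, [3])]⟩,
    ⟨[], [(0, 0), (0, 1)], [(0, 0)], [], [(1, 0, [3]), (2, 0, [3])]⟩,
    ⟨[(0, 1)], [(0, 0), (1, 0), (1, 2), (1, 3)], [(0, 0), (0, 2), (0, 3), (2, 3)], [], [(1,
      0, [3]), (2, 0, [3]), (3, 3, [0]), (4, 2, [1])]⟩,
    ⟨[(0, 1), (1, 2)], [(0, 0), (0, 1), (0, 4), (1, 0), (1, 1), (1, 4)], [(1, 4)], [7],
      [(0, 1, [2, 4, 5, 6]), (5, 4, [1])]⟩,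
    ⟨[(1, 2)], [(0, 0), (0, 1), (1, 0), (2, 0), (2, 1), (2, 2), (2, 3), (3, 1)], [(0, 1),
      (0, 3), (1, 3)], [], [(0, 1, [2, 4, 5, 6]), (1, 0, [3]), (3, 3, [0])]⟩,
    ⟨[(0, 1), (0, 3), (1, 2), (1, 3)], [(1, 0), (1, 2), (1, 4), (1, 5), (1, 6), (2, 0), (2,
      2), (3, 0), (3, 1), (3, 2), (3, 4), (3, 5), (3, 6)], [(0, 2), (0, 4), (0, 5), (0, 6),
      (2, 4), (2, 5), (2, 6), (4, 5), (4, 6), (5, 6)], [], [(2, 0, [3]), (4, 2, [1]), (5, 4,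
      [1]), (7, 5, [1]), (8, 6, [1])]⟩]
  Ta := [((1, 0), 0, 1), ((2, 4), 0, 2)]
  Tb := [((0, 1, 3), 1, 0, 3), ((0, 1, 6), 1, 0, 7), ((0, 3, 6), 1, 3, 7), ((3, 0, 4), 3, 1, 2),
    ((4, 2, 3), 2, 0, 3), ((4, 2, 7), 2, 0, 5), ((4, 3, 7), 2, 3, 5), ((5, 6, 8), 4, 7, 6),
    ((6, 0, 5), 7, 1, 4), ((7, 4, 8), 5, 2, 6), ((8, 5, 7), 6, 4, 5)]
  Tc := [(1, 2, 4), (1, 2, 5), (1, 2, 6), (1, 4, 5), (1, 4, 6), (1, 5, 6)]
  Td := [((0, 3), (1, 0), 1), ((0, 3), (2, 4), 2), ((1, 2), (0, 1), 0), ((1, 2), (0, 3), 3), ((1,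
    2), (0, 6), 7), ((1, 4), (0, 1), 0), ((1, 4), (0, 3), 3), ((1, 4), (0, 6), 7), ((1, 5),
    (0, 1), 0), ((1, 5), (0, 3), 3), ((1, 5), (0, 6), 7), ((1, 6), (0, 1), 0), ((1, 6), (0,
    3), 3), ((1, 6), (0, 6), 7), ((2, 1), (4, 2), 0), ((2, 1), (4, 3), 3), ((2, 1), (4, 7),
    5), ((3, 0), (3, 0), 1), ((3, 0), (3, 4), 2), ((4, 1), (5, 6), 7), ((4, 1), (5, 8), 6),
    ((5, 1), (7, 4), 2), ((5, 1), (7, 8), 6), ((6, 1), (8, 5), 4), ((6, 1), (8, 7), 5)]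
  G := [[0, 0x124141412ec1818a8c4, 0, 0x224242422dc222298c4, 0x282828d242424da48], [0, 0,
    0x212824d212121da48, 0x242421d4282828d8c2, 0x282828d212121da48]]

noncomputable def n1194 : Ent := ⟨e1194, noF, [], [], []⟩

def c1194 : PLift (Cov.check n1194.C.D v1194 = true) := ⟨by decide +kernel⟩

def b1194 : PLift (entF (fidx ts) 400 1194 n1194 = true) := ⟨by decide +kernel⟩

theorem g1194 : GoodF (fidx ts) 400 1194 := GoodF.ofV v1194 n1194 c1194.down b1194.down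

/-- 466647:976/1 -/
noncomputable def e1195 : SCfg where
  D := {
    a := 6
    L := 10
    kp := 8
    inn := [(0, 1), (0, 3), (1, 0), (1, 2), (1, 3), (1, 5), (2, 1), (2, 4), (3, 0), (3, 1), (3, 5), (4,
      2), (5, 1), (5, 3)]
    mix := [(0, 0), (0, 1), (1, 1), (1, 2), (2, 1), (2, 2), (2, 3), (2, 4), (3, 0), (3, 5), (3, 6), (4,
      0), (4, 1), (4, 3), (5, 2), (5, 5), (5, 7), (5, 8), (5, 9)]
    cl := [3, 0, 1, 2, 0, 4, 8, 5, 6, 7]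
    chq := [(1, 3), (3, 1), (3, 4), (3, 5), (3, 6), (3, 7), (4, 3), (5, 3), (6, 3), (7, 3)]
    rng := [(0, 1), (0, 3), (0, 6), (1, 0), (2, 4), (2, 7), (3, 0), (3, 4), (4, 2), (4, 3), (5, 6), (5,
      9), (6, 0), (6, 5), (7, 2), (7, 8), (8, 7), (8, 9), (9, 5), (9, 8)]
    lev := [] }
  links := [[1, 3, 6, 7], [3, 0, 7, 2, 8, 5], [8, 1, 7, 4, 9, 10], [6, 0, 1, 5, 11, 12], [9, 2, 7, 6],
    [11, 3, 1, 8, 13, 14, 15]]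
  P := {
    a := 6
    N := 16
    nb := [202, 429, 1938, 6243, 708, 59658, 4761, 87, 9254, 1108, 772, 36904, 2120, 16672, 40992,
      18464]
    tri := [(0, 1, 3), (0, 1, 7), (0, 3, 6), (0, 6, 7), (1, 2, 7), (1, 2, 8), (1, 3, 5), (1, 5, 8), (2,
      4, 7), (2, 4, 9), (2, 8, 10), (2, 9, 10), (3, 5, 11), (3, 6, 12), (3, 11, 12), (4, 6, 7),
      (4, 6, 9), (5, 8, 13), (5, 11, 15), (5, 13, 14), (5, 14, 15)]
    fin := [0, 0, 2, 0, 0, 0, 0, 2, 8, 9, 2, 11, 12, 13, 14, 15]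
    chd := [(0, 8), (0, 11), (0, 13), (0, 14), (0, 15)]
    steps := [(0, 1), (0, 3), (0, 5), (0, 6), (2, 7), (0, 4), (2, 10)] }
  rep := [2, 8, 9, 0, 11, 13, 14, 15, 12]

noncomputable def v1195 : Cov.CovD where
  P := 3
  N := 6
  pl := [3, 6]
  lev := [⟨[], [], [(0, 3)], [], [(0, 3, [1, 4, 5, 6, 7]), (1, 0, [])]⟩,
    ⟨[], [(0, 0), (0, 1), (0, 3)], [(0, 1)], [], [(1, 0, []), (2, 1, [3])]⟩,
    ⟨[(0, 1)], [(0, 0), (1, 0), (1, 1)], [(0, 0), (0, 1)], [2], [(1, 0, []), (2, 1, [3]),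
      (4, 0, [])]⟩,
    ⟨[(0, 1), (1, 2)], [(0, 0), (0, 3), (0, 4), (1, 0), (1, 1), (1, 3), (1, 4)], [(3, 4)],
      [8], [(0, 3, [1, 4, 5, 6, 7]), (5, 4, [3])]⟩,
    ⟨[(1, 2)], [(0, 0), (0, 3), (1, 0), (2, 0), (2, 1), (2, 3), (3, 3)], [(0, 3)], [2],
      [(0, 3, [1, 4, 5, 6, 7]), (1, 0, [])]⟩,
    ⟨[(0, 1), (0, 3), (1, 2), (1, 3)], [(1, 0), (1, 1), (1, 4), (1, 5), (1, 6), (1, 7), (2,
      1), (3, 1), (3, 3), (3, 4), (3, 5), (3, 6), (3, 7)], [(1, 4), (1, 5), (1, 6), (1, 7),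
      (4, 5), (4, 6), (4, 7), (5, 6), (5, 7), (6, 7)], [], [(2, 1, [3]), (5, 4, [3]), (7, 5,
      [3]), (8, 6, [3]), (9, 7, [3])]⟩]
  Ta := [((1, 0), 0, 3), ((4, 2), 0, 1), ((4, 3), 0, 2)]
  Tb := [((0, 1, 3), 3, 0, 2), ((0, 1, 6), 3, 0, 8), ((0, 3, 6), 3, 2, 8), ((2, 4, 7), 1, 0, 5),
    ((3, 0, 4), 2, 3, 0), ((4, 2, 3), 0, 1, 2), ((5, 6, 9), 4, 8, 7), ((6, 0, 5), 8, 3, 4),
    ((7, 2, 8), 5, 1, 6), ((8, 7, 9), 6, 5, 7), ((9, 5, 8), 7, 4, 6)]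
  Tc := [(3, 1, 4), (3, 1, 5), (3, 1, 6), (3, 1, 7), (3, 4, 5), (3, 4, 6), (3, 4, 7), (3, 5, 6),
    (3, 5, 7), (3, 6, 7)]
  Td := [((1, 3), (2, 4), 0), ((1, 3), (2, 7), 5), ((3, 1), (0, 1), 0), ((3, 1), (0, 3), 2), ((3,
    1), (0, 6), 8), ((3, 4), (0, 1), 0), ((3, 4), (0, 3), 2), ((3, 4), (0, 6), 8), ((3, 5),
    (0, 1), 0), ((3, 5), (0, 3), 2), ((3, 5), (0, 6), 8), ((3, 6), (0, 1), 0), ((3, 6), (0,
    3), 2), ((3, 6), (0, 6), 8), ((3, 7), (0, 1), 0), ((3, 7), (0, 3), 2), ((3, 7), (0, 6),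
    8), ((4, 3), (5, 6), 8), ((4, 3), (5, 9), 7), ((5, 3), (7, 2), 1), ((5, 3), (7, 8), 6),
    ((6, 3), (8, 7), 5), ((6, 3), (8, 9), 7), ((7, 3), (9, 5), 4), ((7, 3), (9, 8), 6)]
  G := [[0, 0, 0, 0x585848b494848478c2, 0x7829ad268af842], [0, 0x61284161f82848181784a,
    0x684868b48418ca2846843, 0x484141b484848178c2, 0x611861a1c281f8c2]]

noncomputable def n1195 : Ent := ⟨e1195, noF, [], [], [(10, 13, [385753028440516072301428330182238677962518295842732840411897857, 0])]⟩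

def c1195 : PLift (Cov.check n1195.C.D v1195 = true) := ⟨by decide +kernel⟩

def b1195 : PLift (entF (fidx ts) 400 1195 n1195 = true) := ⟨by decide +kernel⟩

theorem g1195 : GoodF (fidx ts) 400 1195 := GoodF.ofV v1195 n1195 c1195.down b1195.down

/-- 466647:976/3 -/
noncomputable def e1196 : SCfg where
  D := {
    a := 6
    L := 10
    kp := 8
    inn := [(0, 1), (0, 3), (1, 0), (1, 2), (1, 3), (1, 5), (2, 1), (2, 4), (3, 0), (3, 1), (3, 5), (4,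
      2), (5, 1), (5, 3)]
    mix := [(0, 0), (0, 1), (1, 1), (1, 2), (2, 1), (2, 2), (2, 3), (2, 4), (3, 0), (3, 5), (3, 6), (4,
      1), (4, 3), (4, 7), (5, 2), (5, 4), (5, 5), (5, 8), (5, 9)]
    cl := [1, 0, 0, 3, 2, 4, 7, 8, 5, 6]
    chq := [(0, 3), (1, 2), (1, 4), (1, 5), (1, 6), (2, 1), (3, 0), (4, 1), (5, 1), (6, 1)]
    rng := [(0, 1), (0, 6), (1, 0), (1, 7), (2, 4), (3, 4), (3, 7), (4, 2), (4, 3), (4, 8), (5, 6), (5,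
      9), (6, 0), (6, 5), (7, 1), (7, 3), (8, 4), (8, 9), (9, 5), (9, 8)]
    lev := [] }
  links := [[1, 3, 6, 7], [3, 0, 7, 2, 8, 5], [8, 1, 7, 4, 9, 10], [6, 0, 1, 5, 11, 12], [9, 2, 7, 13],
    [11, 3, 1, 8, 10, 14, 15]]
  P := {
    a := 6
    N := 16
    nb := [202, 429, 1938, 6243, 8836, 52490, 4233, 8279, 1062, 9236, 17188, 36904, 2120, 656, 33824,
      18464]
    tri := [(0, 1, 3), (0, 1, 7), (0, 3, 6), (0, 6, 7), (1, 2, 7), (1, 2, 8), (1, 3, 5), (1, 5, 8), (2,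
      4, 7), (2, 4, 9), (2, 8, 10), (2, 9, 10), (3, 5, 11), (3, 6, 12), (3, 11, 12), (4, 7, 13),
      (4, 9, 13), (5, 8, 10), (5, 10, 14), (5, 11, 15), (5, 14, 15)]
    fin := [0, 0, 2, 0, 2, 0, 0, 2, 2, 9, 10, 11, 12, 13, 14, 15]
    chd := [(0, 10), (0, 11), (0, 14), (0, 15), (2, 9)]
    steps := [(0, 1), (0, 3), (0, 5), (0, 6), (2, 4), (2, 7), (2, 8)] }
  rep := [2, 0, 10, 9, 11, 14, 15, 12, 13]

noncomputable def v1196 : Cov.CovD where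
  P := 3
  N := 6
  pl := [6, 7]
  lev := [⟨[], [], [(0, 1)], [], [(0, 1, [2, 4, 5, 6]), (1, 0, [3])]⟩,
    ⟨[], [(0, 0), (0, 1)], [(0, 0)], [], [(1, 0, [3]), (2, 0, [3])]⟩,
    ⟨[(0, 1)], [(0, 0), (1, 0), (1, 2), (1, 3)], [(0, 0), (0, 2), (0, 3), (2, 3)], [], [(1,
      0, [3]), (2, 0, [3]), (3, 3, [0]), (4, 2, [1])]⟩,
    ⟨[(0, 1), (1, 2)], [(0, 0), (0, 1), (0, 4), (1, 0), (1, 1), (1, 4)], [(1, 4)], [7],
      [(0, 1, [2, 4, 5, 6]), (5, 4, [1])]⟩,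
    ⟨[(1, 2)], [(0, 0), (1, 0), (2, 0), (2, 2), (2, 3)], [(0, 3)], [8], [(1, 0, [3]), (3,
      3, [0])]⟩,
    ⟨[(0, 1), (0, 3), (1, 2), (1, 3)], [(1, 0), (1, 2), (1, 4), (1, 5), (1, 6), (2, 0), (2,
      2), (3, 0), (3, 1), (3, 2), (3, 4), (3, 5), (3, 6)], [(0, 2), (0, 4), (0, 5), (0, 6),
      (2, 4), (2, 5), (2, 6), (4, 5), (4, 6), (5, 6)], [], [(2, 0, [3]), (4, 2, [1]), (5, 4,
      [1]), (8, 5, [1]), (9, 6, [1])]⟩]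
  Ta := [((1, 0), 0, 1), ((1, 7), 0, 8), ((2, 4), 0, 2)]
  Tb := [((0, 1, 6), 1, 0, 7), ((1, 0, 7), 0, 1, 8), ((3, 4, 7), 3, 2, 8), ((4, 2, 3), 2, 0, 3),
    ((4, 2, 8), 2, 0, 5), ((4, 3, 8), 2, 3, 5), ((5, 6, 9), 4, 7, 6), ((6, 0, 5), 7, 1, 4),
    ((7, 1, 3), 8, 0, 3), ((8, 4, 9), 5, 2, 6), ((9, 5, 8), 6, 4, 5)]
  Tc := [(1, 2, 4), (1, 2, 5), (1, 2, 6), (1, 4, 5), (1, 4, 6), (1, 5, 6)]
  Td := [((0, 3), (1, 0), 1), ((0, 3), (1, 7), 8), ((0, 3), (2, 4), 2), ((1, 2), (0, 1), 0), ((1,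
    2), (0, 6), 7), ((1, 4), (0, 1), 0), ((1, 4), (0, 6), 7), ((1, 5), (0, 1), 0), ((1, 5),
    (0, 6), 7), ((1, 6), (0, 1), 0), ((1, 6), (0, 6), 7), ((2, 1), (4, 2), 0), ((2, 1), (4,
    3), 3), ((2, 1), (4, 8), 5), ((3, 0), (3, 4), 2), ((3, 0), (3, 7), 8), ((4, 1), (5, 6),
    7), ((4, 1), (5, 9), 6), ((5, 1), (8, 4), 2), ((5, 1), (8, 9), 6), ((6, 1), (9, 5), 4),
    ((6, 1), (9, 8), 5)]
  G := [[0, 0x116116116e411a8811a11a68e4, 0, 0x22225226226226dc22a2828d8c2,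
    0x22c22c22cd226226226da48], [0, 0, 0x212121d212121da48, 0x21226226d422a2121d8c2,
    0x22c22c21d2121226da48]]

noncomputable def n1196 : Ent := ⟨e1196, noF, [], [], [(6, 13, [385753028440516072301428330182238677962518295842732840411897857, 0])]⟩

def c1196 : PLift (Cov.check n1196.C.D v1196 = true) := ⟨by decide +kernel⟩

def b1196 : PLift (entF (fidx ts) 400 1196 n1196 = true) := ⟨by decide +kernel⟩

theorem g1196 : GoodF (fidx ts) 400 1196 := GoodF.ofV v1196 n1196 c1196.down b1196.down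

/-- 466647:976 -/
noncomputable def e1197 : SCfg where
  D := {
    a := 6
    L := 11
    kp := 9
    inn := [(0, 1), (0, 3), (1, 0), (1, 2), (1, 3), (1, 5), (2, 1), (2, 4), (3, 0), (3, 1), (3, 5), (4,
      2), (5, 1), (5, 3)]
    mix := [(0, 0), (0, 1), (1, 1), (1, 2), (2, 1), (2, 2), (2, 3), (2, 4), (3, 0), (3, 5), (3, 6), (4,
      1), (4, 3), (4, 7), (5, 2), (5, 5), (5, 8), (5, 9), (5, 10)]
    cl := [1, 0, 0, 2, 7, 3, 8, 9, 4, 5, 6]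
    chq := [(0, 2), (1, 3), (1, 4), (1, 5), (1, 6), (2, 0), (3, 1), (4, 1), (5, 1), (6, 1)]
    rng := [(0, 1), (0, 6), (1, 0), (1, 7), (2, 4), (2, 8), (3, 4), (3, 7), (4, 2), (4, 3), (5, 6), (5,
      10), (6, 0), (6, 5), (7, 1), (7, 3), (8, 2), (8, 9), (9, 8), (9, 10), (10, 5), (10, 9)]
    lev := [] }
  links := [[1, 3, 6, 7], [3, 0, 7, 2, 8, 5], [8, 1, 7, 4, 9, 10], [6, 0, 1, 5, 11, 12], [9, 2, 7, 13],
    [11, 3, 1, 8, 14, 15, 16]]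
  P := {
    a := 6
    N := 17
    nb := [202, 429, 1938, 6243, 8836, 117002, 4233, 8279, 17446, 9236, 772, 69672, 2120, 656, 33056,
      81952, 34848]
    tri := [(0, 1, 3), (0, 1, 7), (0, 3, 6), (0, 6, 7), (1, 2, 7), (1, 2, 8), (1, 3, 5), (1, 5, 8), (2,
      4, 7), (2, 4, 9), (2, 8, 10), (2, 9, 10), (3, 5, 11), (3, 6, 12), (3, 11, 12), (4, 7, 13),
      (4, 9, 13), (5, 8, 14), (5, 11, 16), (5, 14, 15), (5, 15, 16)]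
    fin := [0, 0, 2, 0, 2, 0, 0, 2, 2, 9, 10, 11, 12, 13, 14, 15, 16]
    chd := [(0, 11), (0, 14), (0, 15), (0, 16), (2, 9)]
    steps := [(0, 1), (0, 3), (0, 5), (0, 6), (2, 4), (2, 7), (2, 8)] }
  rep := [2, 0, 9, 11, 14, 15, 16, 10, 12, 13]

noncomputable def v1197 : Cov.CovD where
  P := 3
  N := 7
  pl := [4, 6, 7]
  lev := [⟨[], [], [(0, 1)], [], [(0, 1, [3, 4, 5, 6]), (1, 0, [2])]⟩,
    ⟨[], [(0, 0), (0, 1)], [(0, 0)], [], [(1, 0, [2]), (2, 0, [2])]⟩,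
    ⟨[(0, 1)], [(0, 0), (1, 0), (1, 2)], [(0, 0), (0, 2)], [7], [(1, 0, [2]), (2, 0, [2]),
      (3, 2, [0])]⟩,
    ⟨[(0, 1), (1, 2)], [(0, 0), (0, 1), (0, 3), (1, 0), (1, 1), (1, 3)], [(1, 3)], [8],
      [(0, 1, [3, 4, 5, 6]), (5, 3, [1])]⟩,
    ⟨[(1, 2)], [(0, 0), (1, 0), (2, 0), (2, 2)], [(0, 2)], [9], [(1, 0, [2]), (3, 2, [0])]⟩,
    ⟨[(0, 1), (0, 3), (1, 2), (1, 3)], [(1, 0), (1, 3), (1, 4), (1, 5), (1, 6), (2, 0), (3,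
      0), (3, 1), (3, 3), (3, 4), (3, 5), (3, 6)], [(0, 3), (0, 4), (0, 5), (0, 6), (3, 4),
      (3, 5), (3, 6), (4, 5), (4, 6), (5, 6)], [], [(2, 0, [2]), (5, 3, [1]), (8, 4, [1]),
      (9, 5, [1]), (10, 6, [1])]⟩]
  Ta := [((1, 0), 0, 1), ((1, 7), 0, 9), ((2, 4), 0, 7), ((2, 8), 0, 4)]
  Tb := [((0, 1, 6), 1, 0, 8), ((1, 0, 7), 0, 1, 9), ((2, 4, 8), 0, 7, 4), ((3, 4, 7), 2, 7, 9),
    ((4, 2, 3), 7, 0, 2), ((5, 6, 10), 3, 8, 6), ((6, 0, 5), 8, 1, 3), ((7, 1, 3), 9, 0, 2),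
    ((8, 2, 9), 4, 0, 5), ((9, 8, 10), 5, 4, 6), ((10, 5, 9), 6, 3, 5)]
  Tc := [(1, 3, 4), (1, 3, 5), (1, 3, 6), (1, 4, 5), (1, 4, 6), (1, 5, 6)]
  Td := [((0, 2), (1, 0), 1), ((0, 2), (1, 7), 9), ((0, 2), (2, 4), 7), ((0, 2), (2, 8), 4), ((1,
    3), (0, 1), 0), ((1, 3), (0, 6), 8), ((1, 4), (0, 1), 0), ((1, 4), (0, 6), 8), ((1, 5),
    (0, 1), 0), ((1, 5), (0, 6), 8), ((1, 6), (0, 1), 0), ((1, 6), (0, 6), 8), ((2, 0), (3,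
    4), 7), ((2, 0), (3, 7), 9), ((3, 1), (5, 6), 8), ((3, 1), (5, 10), 6), ((4, 1), (8, 2),
    0), ((4, 1), (8, 9), 5), ((5, 1), (9, 8), 4), ((5, 1), (9, 10), 6), ((6, 1), (10, 5), 3),
    ((6, 1), (10, 9), 5)]
  G := [[0, 0x11c11c11ce11c11c11cec28, 0x22c22624d22a28922c225e48,
    0x2848424422c22c22cdc22c22c98cc, 0x22a22a5222a22a22ad22a8ac8], [0, 0,
    0x2222c24d282292422c28de48, 0x212154212121d218cc8, 0x212121d212121da48]]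

noncomputable def n1197 : Ent := ⟨e1197, noF, [], [], [(6, 13, [1685382419725355503238989871268909155780284044704628512909404319745, 0]), (10, 14, [1685382413448253767852309107433119732572617628602273068445369810945, 0])]⟩

def c1197 : PLift (Cov.check n1197.C.D v1197 = true) := ⟨by decide +kernel⟩

def b1197 : PLift (entF (fidx ts) 400 1197 n1197 = true) := ⟨by decide +kernel⟩

theorem g1197 : GoodF (fidx ts) 400 1197 := GoodF.ofV v1197 n1197 c1197.down b1197.down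

/-- 459544:977 -/
noncomputable def e1198 : SCfg where
  D := {
    a := 6
    L := 10
    kp := 7
    inn := [(0, 1), (0, 2), (1, 0), (1, 2), (2, 0), (2, 1), (2, 3), (2, 4), (3, 2), (3, 5), (4, 2), (5,
      3)]
    mix := [(0, 0), (0, 1), (1, 1), (1, 2), (1, 3), (2, 0), (2, 3), (2, 4), (2, 5), (2, 6), (3, 0), (3,
      6), (3, 7), (4, 4), (4, 5), (4, 8), (5, 6), (5, 7), (5, 9)]
    cl := [0, 1, 6, 0, 3, 4, 0, 2, 5, 7]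
    chq := [(0, 5), (5, 0)]
    rng := [(0, 1), (0, 7), (1, 0), (1, 2), (2, 1), (2, 3), (3, 2), (3, 4), (4, 3), (4, 8), (5, 6), (5,
      8), (6, 5), (6, 9), (7, 0), (7, 9), (8, 4), (8, 5), (9, 6), (9, 7)]
    lev := [] }
  links := [[1, 2, 6, 7], [2, 0, 7, 8, 9], [6, 0, 1, 9, 10, 4, 11, 12, 3], [6, 2, 12, 5, 13], [11, 2, 10,
    14], [13, 3, 12, 15]]
  P := {
    a := 6
    N := 16
    nb := [198, 901, 7771, 12388, 19460, 45064, 8333, 323, 642, 1286, 16916, 20500, 34860, 32872,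
      3088, 12320]
    tri := [(0, 1, 2), (0, 1, 7), (0, 2, 6), (0, 6, 7), (1, 2, 9), (1, 7, 8), (1, 8, 9), (2, 3, 6), (2,
      3, 12), (2, 4, 10), (2, 4, 11), (2, 9, 10), (2, 11, 12), (3, 5, 12), (3, 5, 13), (3, 6, 13),
      (4, 10, 14), (4, 11, 14), (5, 12, 15), (5, 13, 15)]
    fin := [0, 0, 0, 0, 0, 0, 0, 7, 8, 0, 10, 11, 0, 13, 14, 15]
    chd := [(0, 14)]
    steps := [(0, 1), (0, 2), (0, 3), (0, 4), (0, 5), (0, 6), (0, 9), (0, 12)] }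
  rep := [0, 7, 13, 10, 11, 14, 8, 15]

noncomputable def v1198 : Cov.CovD where
  P := 3
  N := 5
  pl := [1, 2, 4, 5, 7, 9]
  lev := [⟨[], [], [], [1], [(0, 0, [5])]⟩,
    ⟨[], [(0, 0)], [], [1, 6], [(3, 0, [5])]⟩,
    ⟨[(0, 1)], [(0, 0), (1, 0)], [(0, 0)], [3, 4], [(0, 0, [5]), (3, 0, [5]), (6, 0, [5])]⟩,
    ⟨[(0, 2), (1, 2)], [(0, 0), (2, 0)], [(0, 0)], [2], [(0, 0, [5]), (6, 0, [5])]⟩,
    ⟨[(0, 2), (1, 2), (2, 3)], [(2, 0), (2, 5)], [], [3, 4], [(8, 5, [0])]⟩,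
    ⟨[(2, 3)], [(2, 0), (3, 0)], [], [2, 7], [(6, 0, [5])]⟩]
  Ta := [((0, 1), 0, 1), ((0, 7), 0, 2), ((3, 2), 0, 6), ((3, 4), 0, 3), ((6, 5), 0, 4), ((6, 9),
    0, 7)]
  Tb := [((0, 1, 7), 0, 1, 2), ((1, 0, 2), 1, 0, 6), ((2, 1, 3), 6, 1, 0), ((3, 2, 4), 0, 6, 3),
    ((4, 3, 8), 3, 0, 5), ((5, 6, 8), 4, 0, 5), ((6, 5, 9), 0, 4, 7), ((7, 0, 9), 2, 0, 7),
    ((8, 4, 5), 5, 3, 4), ((9, 6, 7), 7, 0, 2)]
  Tc := []
  Td := [((0, 5), (0, 1), 1), ((0, 5), (0, 7), 2), ((0, 5), (3, 2), 6), ((0, 5), (3, 4), 3), ((0,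
    5), (6, 5), 4), ((0, 5), (6, 9), 7), ((5, 0), (8, 4), 3), ((5, 0), (8, 5), 4)]
  G := [[0, 0x114118118e114118118ea4, 0x618c12c12e14, 0x114114114e18, 0x112118112e18], [0, 0, 0,
    0x111d411178a4114111d8111b8e1184c5, 0x112111d8111b8e1111ca11811178ec1], [0, 0, 0,
    0xcccd4c18ccc78e14, 0xaaad2a12aaa78e14]]

noncomputable def n1198 : Ent := ⟨e1198, noF, [], [], []⟩

def c1198 : PLift (Cov.check n1198.C.D v1198 = true) := ⟨by decide +kernel⟩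

def b1198 : PLift (entF (fidx ts) 400 1198 n1198 = true) := ⟨by decide +kernel⟩

theorem g1198 : GoodF (fidx ts) 400 1198 := GoodF.ofV v1198 n1198 c1198.down b1198.down

/-- 459544:978/1 -/
noncomputable def e1199 : SCfg where
  D := {
    a := 6
    L := 9
    kp := 6
    inn := [(0, 1), (0, 2), (1, 0), (1, 2), (2, 0), (2, 1), (2, 3), (2, 4), (3, 2), (3, 5), (4, 2), (5,
      3)]
    mix := [(0, 0), (0, 1), (1, 1), (1, 2), (1, 3), (2, 0), (2, 3), (2, 4), (2, 5), (2, 6), (3, 0), (3,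
      6), (3, 7), (4, 4), (4, 5), (4, 8), (5, 0), (5, 1), (5, 7)]
    cl := [0, 1, 5, 0, 3, 0, 2, 4, 6]
    chq := [(1, 2), (2, 1)]
    rng := [(0, 1), (1, 0), (1, 2), (1, 7), (2, 1), (2, 3), (3, 2), (3, 4), (4, 3), (4, 8), (5, 6), (5,
      8), (6, 5), (6, 7), (7, 1), (7, 6), (8, 4), (8, 5)]
    lev := [] }
  links := [[1, 2, 6, 7], [2, 0, 7, 8, 9], [6, 0, 1, 9, 10, 4, 11, 12, 3], [6, 2, 12, 13, 5], [11, 2, 10,
    14], [6, 3, 13, 7]]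
  P := {
    a := 6
    N := 15
    nb := [198, 901, 7771, 12388, 19460, 8392, 173, 8547, 642, 1286, 16916, 20500, 10252, 4264, 3088]
    tri := [(0, 1, 2), (0, 1, 7), (0, 2, 6), (0, 6, 7), (1, 2, 9), (1, 7, 8), (1, 8, 9), (2, 3, 6), (2,
      3, 12), (2, 4, 10), (2, 4, 11), (2, 9, 10), (2, 11, 12), (3, 5, 6), (3, 5, 13), (3, 12, 13),
      (4, 10, 14), (4, 11, 14), (5, 6, 7), (5, 7, 13)]
    fin := [0, 0, 0, 3, 0, 3, 0, 3, 8, 0, 10, 0, 12, 13, 14]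
    chd := [(3, 12)]
    steps := [(0, 1), (0, 2), (0, 4), (0, 6), (0, 9), (0, 11), (3, 5), (3, 7)] }
  rep := [0, 3, 12, 10, 13, 8, 14]

noncomputable def v1199 : Cov.CovD where
  P := 3
  N := 4
  pl := [2, 4, 7, 8]
  lev := [⟨[], [], [(0, 1)], [], [(0, 0, []), (1, 1, [2])]⟩,
    ⟨[], [(0, 0), (0, 1)], [(0, 1)], [5], [(1, 1, [2]), (3, 0, [])]⟩,
    ⟨[(0, 1)], [(0, 0), (0, 1), (0, 2), (1, 0), (1, 1), (1, 2)], [(0, 0), (0, 2)], [3],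
      [(0, 0, []), (3, 0, []), (5, 0, []), (6, 2, [1])]⟩,
    ⟨[(0, 2), (1, 2)], [(0, 0), (2, 0), (2, 2)], [(0, 2)], [4], [(0, 0, []), (6, 2, [1])]⟩,
    ⟨[(0, 2), (1, 2), (2, 3)], [(2, 0), (2, 2)], [], [3, 6], [(5, 0, [])]⟩,
    ⟨[(2, 3)], [(0, 0), (0, 1), (1, 1), (2, 0), (3, 0), (3, 1), (3, 2)], [(0, 1)], [4],
      [(0, 0, []), (1, 1, [2])]⟩]
  Ta := [((0, 1), 0, 1), ((3, 2), 0, 5), ((3, 4), 0, 3), ((5, 6), 0, 2), ((5, 8), 0, 6)]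
  Tb := [((1, 0, 2), 1, 0, 5), ((1, 0, 7), 1, 0, 4), ((1, 2, 7), 1, 5, 4), ((2, 1, 3), 5, 1, 0),
    ((3, 2, 4), 0, 5, 3), ((4, 3, 8), 3, 0, 6), ((5, 6, 8), 0, 2, 6), ((6, 5, 7), 2, 0, 4),
    ((7, 1, 6), 4, 1, 2), ((8, 4, 5), 6, 3, 0)]
  Tc := []
  Td := [((1, 2), (1, 0), 0), ((1, 2), (1, 2), 5), ((1, 2), (1, 7), 4), ((2, 1), (6, 5), 0), ((2,
    1), (6, 7), 4)]
  G := [[0, 0x8121c42141c82141c8121cce2, 0, 0xc128141ac12, 0x41c1a8141aa14], [0, 0, 0,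
    0xcca2c12c21, 0x886444da2418138864469ac4181388c], [0, 0, 0x44c11c68241614ea14,
    0xcca2cc62c21, 0x48c84c38864469a14]]

noncomputable def n1199 : Ent := ⟨e1199, noF, [], [], []⟩

def c1199 : PLift (Cov.check n1199.C.D v1199 = true) := ⟨by decide +kernel⟩

def b1199 : PLift (entF (fidx ts) 400 1199 n1199 = true) := ⟨by decide +kernel⟩

theorem g1199 : GoodF (fidx ts) 400 1199 := GoodF.ofV v1199 n1199 c1199.down b1199.down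

/-- 459544:978 -/
noncomputable def e1200 : SCfg where
  D := {
    a := 6
    L := 10
    kp := 7
    inn := [(0, 1), (0, 2), (1, 0), (1, 2), (2, 0), (2, 1), (2, 3), (2, 4), (3, 2), (3, 5), (4, 2), (5,
      3)]
    mix := [(0, 0), (0, 1), (1, 1), (1, 2), (1, 3), (2, 0), (2, 3), (2, 4), (2, 5), (2, 6), (3, 0), (3,
      6), (3, 7), (4, 4), (4, 5), (4, 8), (5, 0), (5, 7), (5, 9)]
    cl := [0, 2, 6, 0, 3, 0, 1, 4, 7, 5]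
    chq := [(1, 5), (5, 1)]
    rng := [(0, 1), (0, 9), (1, 0), (1, 2), (2, 1), (2, 3), (3, 2), (3, 4), (4, 3), (4, 8), (5, 6), (5,
      8), (6, 5), (6, 7), (7, 6), (7, 9), (8, 4), (8, 5), (9, 0), (9, 7)]
    lev := [] }
  links := [[1, 2, 6, 7], [2, 0, 7, 8, 9], [6, 0, 1, 9, 10, 4, 11, 12, 3], [6, 2, 12, 13, 5], [11, 2, 10,
    14], [6, 3, 13, 15]]
  P := {
    a := 6
    N := 16
    nb := [198, 901, 7771, 12388, 19460, 41032, 32941, 323, 642, 1286, 16916, 20500, 10252, 36904,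
      3088, 8288]
    tri := [(0, 1, 2), (0, 1, 7), (0, 2, 6), (0, 6, 7), (1, 2, 9), (1, 7, 8), (1, 8, 9), (2, 3, 6), (2,
      3, 12), (2, 4, 10), (2, 4, 11), (2, 9, 10), (2, 11, 12), (3, 5, 6), (3, 5, 13), (3, 12, 13),
      (4, 10, 14), (4, 11, 14), (5, 6, 15), (5, 13, 15)]
    fin := [0, 0, 0, 3, 0, 3, 0, 7, 8, 0, 10, 0, 3, 13, 14, 15]
    chd := [(3, 15)]
    steps := [(0, 1), (0, 2), (0, 4), (0, 6), (0, 9), (0, 11), (3, 5), (3, 12)] }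
  rep := [0, 3, 7, 10, 13, 15, 8, 14]

noncomputable def v1200 : Cov.CovD where
  P := 3
  N := 5
  pl := [1, 2, 4, 7, 8]
  lev := [⟨[], [], [], [2], [(0, 0, [])]⟩,
    ⟨[], [(0, 0)], [], [2, 6], [(3, 0, [])]⟩,
    ⟨[(0, 1)], [(0, 0), (0, 1), (1, 0), (1, 1)], [(0, 0), (0, 1)], [3], [(0, 0, []), (3, 0,
      []), (5, 0, []), (6, 1, [5])]⟩,
    ⟨[(0, 2), (1, 2)], [(0, 0), (2, 0), (2, 1)], [(0, 1)], [4], [(0, 0, []), (6, 1, [5])]⟩,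
    ⟨[(0, 2), (1, 2), (2, 3)], [(2, 0), (2, 1)], [], [3, 7], [(5, 0, [])]⟩,
    ⟨[(2, 3)], [(0, 0), (2, 0), (3, 0), (3, 1), (3, 5)], [(0, 5)], [4], [(0, 0, []), (9, 5,
      [1])]⟩]
  Ta := [((0, 1), 0, 2), ((0, 9), 0, 5), ((3, 2), 0, 6), ((3, 4), 0, 3), ((5, 6), 0, 1), ((5, 8),
    0, 7)]
  Tb := [((0, 1, 9), 0, 2, 5), ((1, 0, 2), 2, 0, 6), ((2, 1, 3), 6, 2, 0), ((3, 2, 4), 0, 6, 3),
    ((4, 3, 8), 3, 0, 7), ((5, 6, 8), 0, 1, 7), ((6, 5, 7), 1, 0, 4), ((7, 6, 9), 4, 1, 5),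
    ((8, 4, 5), 7, 3, 0), ((9, 0, 7), 5, 0, 4)]
  Tc := []
  Td := [((1, 5), (6, 5), 0), ((1, 5), (6, 7), 4), ((5, 1), (9, 0), 0), ((5, 1), (9, 7), 4)]
  G := [[0, 0, 0x618421e1c8ca14421e1c61a1cca6, 0xa144121e1c618c1c, 0x61a1c61a1cc12], [0, 0, 0,
    0xc232e55c292e39c433522353c9219c8c, 0x31215216121bcc2111ac22611cca2], [0,
    0x11c11ca11a11ac618, 0, 0xc36226941c3a22a581c, 0xc3a22a5cc62269c12]]

noncomputable def n1200 : Ent := ⟨e1200, noF, [], [], [(7, 15, [360035742630636841211993100915356868655746945586763691012583425, 0])]⟩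

def c1200 : PLift (Cov.check n1200.C.D v1200 = true) := ⟨by decide +kernel⟩

def b1200 : PLift (entF (fidx ts) 400 1200 n1200 = true) := ⟨by decide +kernel⟩

theorem g1200 : GoodF (fidx ts) 400 1200 := GoodF.ofV v1200 n1200 c1200.down b1200.down

/-- 459545:979 -/
noncomputable def e1201 : SCfg where
  D := {
    a := 6
    L := 11
    kp := 8
    inn := [(0, 1), (0, 2), (1, 0), (1, 2), (2, 0), (2, 1), (2, 3), (2, 4), (3, 2), (4, 2), (4, 5), (5,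
      4)]
    mix := [(0, 0), (0, 1), (1, 1), (1, 2), (1, 3), (2, 0), (2, 3), (2, 4), (2, 5), (2, 6), (3, 0), (3,
      6), (3, 7), (3, 8), (4, 4), (4, 5), (5, 4), (5, 5), (5, 9), (5, 10)]
    cl := [0, 3, 4, 2, 1, 1, 0, 5, 6, 7, 8]
    chq := [(0, 4), (1, 4), (4, 0), (4, 1)]
    rng := [(0, 1), (0, 8), (1, 0), (1, 2), (2, 1), (2, 3), (3, 2), (3, 4), (4, 3), (4, 9), (5, 6), (5,
      10), (6, 5), (6, 7), (7, 6), (7, 8), (8, 0), (8, 7), (9, 4), (9, 10), (10, 5), (10, 9)]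
    lev := [] }
  links := [[1, 2, 6, 7], [2, 0, 7, 8, 9], [6, 0, 1, 9, 10, 4, 11, 12, 3], [6, 2, 12, 13, 14], [11, 2,
    10, 5], [11, 4, 10, 15, 16]]
  P := {
    a := 6
    N := 17
    nb := [198, 901, 7771, 28740, 3108, 101392, 16525, 323, 642, 1286, 33332, 69684, 10252, 20488,
      8264, 66592, 34848]
    tri := [(0, 1, 2), (0, 1, 7), (0, 2, 6), (0, 6, 7), (1, 2, 9), (1, 7, 8), (1, 8, 9), (2, 3, 6), (2,
      3, 12), (2, 4, 10), (2, 4, 11), (2, 9, 10), (2, 11, 12), (3, 6, 14), (3, 12, 13), (3, 13,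
      14), (4, 5, 10), (4, 5, 11), (5, 10, 15), (5, 11, 16), (5, 15, 16)]
    fin := [0, 1, 1, 0, 1, 5, 0, 7, 1, 9, 5, 5, 0, 13, 14, 15, 16]
    chd := [(0, 1), (1, 5)]
    steps := [(0, 6), (0, 3), (0, 12), (1, 2), (1, 4), (1, 8), (5, 10), (5, 11)] }
  rep := [0, 5, 9, 7, 1, 13, 14, 15, 16]

noncomputable def v1201 : Cov.CovD where
  P := 3
  N := 6
  pl := [1, 3, 7, 8, 9, 10]
  lev := [⟨[], [], [], [3], [(0, 0, [4])]⟩,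
    ⟨[], [(0, 0), (0, 4)], [], [2, 3], [(2, 4, [0, 1])]⟩,
    ⟨[(0, 1)], [(0, 0), (0, 1), (1, 0), (1, 1), (1, 4)], [(0, 0), (0, 1), (1, 1)], [2],
      [(0, 0, [4]), (4, 1, [4]), (5, 1, [4]), (6, 0, [4])]⟩,
    ⟨[(0, 2), (1, 2)], [(0, 0), (2, 0), (2, 1)], [(0, 0)], [5, 6], [(0, 0, [4]), (6, 0,
      [4])]⟩,
    ⟨[(0, 2), (1, 2), (2, 3)], [(2, 0), (2, 1)], [(1, 1)], [], [(4, 1, [4]), (5, 1, [4])]⟩,
    ⟨[(2, 4)], [(2, 1), (4, 1)], [(1, 1)], [7, 8], [(4, 1, [4]), (5, 1, [4])]⟩]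
  Ta := [((0, 1), 0, 3), ((0, 8), 0, 6), ((4, 3), 1, 2), ((4, 9), 1, 7), ((5, 6), 1, 0), ((5,
    10), 1, 8), ((6, 5), 0, 1), ((6, 7), 0, 5)]
  Tb := [((0, 1, 8), 0, 3, 6), ((1, 0, 2), 3, 0, 4), ((2, 1, 3), 4, 3, 2), ((3, 2, 4), 2, 4, 1),
    ((4, 3, 9), 1, 2, 7), ((5, 6, 10), 1, 0, 8), ((6, 5, 7), 0, 1, 5), ((7, 6, 8), 5, 0, 6),
    ((8, 0, 7), 6, 0, 5), ((9, 4, 10), 7, 1, 8), ((10, 5, 9), 8, 1, 7)]
  Tc := [(4, 0, 1)]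
  Td := [((0, 4), (0, 1), 3), ((0, 4), (0, 8), 6), ((0, 4), (6, 5), 1), ((0, 4), (6, 7), 5), ((1,
    4), (4, 3), 2), ((1, 4), (4, 9), 7), ((1, 4), (5, 6), 0), ((1, 4), (5, 10), 8), ((4, 0),
    (2, 1), 3), ((4, 0), (2, 3), 2), ((4, 1), (2, 1), 3), ((4, 1), (2, 3), 2)]
  G := [[0, 0, 0xd8d8855e48d4d4d1e84d1d4d1e82e, 0xd8d8d1e4945d8d1e49d4d4d4e8d4d4d1e85c,
    0xd1d4681d1d1d4e8d4883d1881e], [0, 0, 0xd8d8d8e48d1d4d1e84d1d1d1e42e, 0,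
    0xd1d4682d188d4d4d1e83d4881e], [0, 0, 0xd1d8d8e4d1d4d4e8d1d1d1e4e1,
    0xd8d1d1e41d4d4d4e81c, 0xd4d1d1e81d1d1d4e816], [0, 0xe2e2e2e81e2e2e2e416,
    0xd1d1d8e4d4d1d1e8d1d8d8e4e1, 0, 0xd1d4d4e81d1d1d1e816]]

noncomputable def n1201 : Ent := ⟨e1201, noF, [], [], []⟩

def c1201 : PLift (Cov.check n1201.C.D v1201 = true) := ⟨by decide +kernel⟩

def b1201 : PLift (entF (fidx ts) 400 1201 n1201 = true) := ⟨by decide +kernel⟩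

theorem g1201 : GoodF (fidx ts) 400 1201 := GoodF.ofV v1201 n1201 c1201.down b1201.down

/-- 459544:980 -/
noncomputable def e1202 : SCfg where
  D := {
    a := 6
    L := 10
    kp := 7
    inn := [(0, 1), (0, 2), (1, 0), (1, 2), (2, 0), (2, 1), (2, 3), (2, 5), (3, 2), (3, 4), (4, 3), (5,
      2)]
    mix := [(0, 0), (0, 1), (1, 1), (1, 2), (1, 3), (2, 0), (2, 3), (2, 4), (2, 5), (2, 6), (3, 0), (3,
      6), (3, 7), (4, 6), (4, 7), (4, 8), (5, 3), (5, 4), (5, 9)]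
    cl := [0, 1, 6, 0, 3, 4, 0, 2, 7, 5]
    chq := [(4, 5), (5, 4)]
    rng := [(0, 1), (0, 7), (1, 0), (1, 2), (2, 1), (2, 3), (3, 2), (3, 9), (4, 5), (4, 9), (5, 4), (5,
      6), (6, 5), (6, 8), (7, 0), (7, 8), (8, 6), (8, 7), (9, 3), (9, 4)]
    lev := [] }
  links := [[1, 2, 6, 7], [2, 0, 7, 8, 9], [6, 0, 1, 9, 5, 10, 11, 12, 3], [6, 2, 12, 4, 13], [13, 3, 12,
    14], [10, 2, 9, 15]]
  P := {
    a := 6
    N := 16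
    nb := [198, 901, 7787, 12372, 28680, 34308, 8333, 323, 642, 33062, 34852, 5124, 18460, 16472,
      12304, 1568]
    tri := [(0, 1, 2), (0, 1, 7), (0, 2, 6), (0, 6, 7), (1, 2, 9), (1, 7, 8), (1, 8, 9), (2, 3, 6), (2,
      3, 12), (2, 5, 9), (2, 5, 10), (2, 10, 11), (2, 11, 12), (3, 4, 12), (3, 4, 13), (3, 6, 13),
      (4, 12, 14), (4, 13, 14), (5, 9, 15), (5, 10, 15)]
    fin := [0, 0, 2, 0, 0, 2, 0, 7, 8, 0, 10, 11, 0, 13, 14, 2]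
    chd := [(11, 2)]
    steps := [(0, 1), (0, 6), (0, 3), (0, 4), (0, 9), (0, 12), (2, 5), (2, 15)] }
  rep := [0, 7, 13, 10, 11, 2, 8, 14]

noncomputable def v1202 : Cov.CovD where
  P := 3
  N := 5
  pl := [1, 2, 4, 7, 8]
  lev := [⟨[], [], [], [1], [(0, 0, [])]⟩,
    ⟨[], [(0, 0)], [], [1, 6], [(3, 0, [])]⟩,
    ⟨[(0, 1)], [(0, 0), (0, 4), (1, 0), (1, 4)], [(0, 0), (0, 4)], [3], [(0, 0, []), (3, 0,
      []), (5, 4, [5]), (6, 0, [])]⟩,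
    ⟨[(0, 2), (1, 2)], [(0, 0), (2, 0), (2, 4)], [(0, 0)], [2], [(0, 0, []), (6, 0, [])]⟩,
    ⟨[(2, 3)], [(2, 0), (3, 0)], [], [2, 7], [(6, 0, [])]⟩,
    ⟨[(0, 2), (1, 2), (2, 3)], [(1, 0), (2, 0), (2, 4), (2, 5)], [(0, 5)], [3], [(3, 0,
      []), (9, 5, [4])]⟩]
  Ta := [((0, 1), 0, 1), ((0, 7), 0, 2), ((3, 2), 0, 6), ((3, 9), 0, 5), ((6, 5), 0, 4), ((6, 8),
    0, 7)]
  Tb := [((0, 1, 7), 0, 1, 2), ((1, 0, 2), 1, 0, 6), ((2, 1, 3), 6, 1, 0), ((3, 2, 9), 0, 6, 5),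
    ((4, 5, 9), 3, 4, 5), ((5, 4, 6), 4, 3, 0), ((6, 5, 8), 0, 4, 7), ((7, 0, 8), 2, 0, 7),
    ((8, 6, 7), 7, 0, 2), ((9, 3, 4), 5, 0, 3)]
  Tc := []
  Td := [((4, 5), (5, 4), 3), ((4, 5), (5, 6), 0), ((5, 4), (9, 3), 0), ((5, 4), (9, 4), 3)]
  G := [[0, 0x9184614118a514118c14ee4, 0x66c2aa62cc68e14, 0x614a18c14e14, 0x612a18c18e18], [0,
    0, 0, 0x614a18c18e614a18c18ec1, 0x612a18c18e612a12c18ec1], [0, 0, 0, 0x66c4aac8ccc8e18,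
    0x66a2aaa2cca8e18]]

noncomputable def n1202 : Ent := ⟨e1202, noF, [], [], []⟩

def c1202 : PLift (Cov.check n1202.C.D v1202 = true) := ⟨by decide +kernel⟩

def b1202 : PLift (entF (fidx ts) 400 1202 n1202 = true) := ⟨by decide +kernel⟩

theorem g1202 : GoodF (fidx ts) 400 1202 := GoodF.ofV v1202 n1202 c1202.down b1202.down

/-- 459544:982/1 -/
noncomputable def e1203 : SCfg where
  D := {
    a := 6
    L := 9
    kp := 6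
    inn := [(0, 1), (0, 2), (1, 0), (1, 2), (2, 0), (2, 1), (2, 3), (2, 5), (3, 2), (3, 4), (4, 3), (5,
      2)]
    mix := [(0, 0), (0, 1), (1, 1), (1, 2), (1, 3), (2, 0), (2, 3), (2, 4), (2, 5), (2, 6), (3, 0), (3,
      6), (3, 7), (4, 0), (4, 1), (4, 7), (5, 3), (5, 4), (5, 8)]
    cl := [0, 1, 6, 0, 3, 4, 0, 2, 5]
    chq := [(4, 5), (5, 4)]
    rng := [(0, 1), (1, 0), (1, 2), (1, 7), (2, 1), (2, 3), (3, 2), (3, 8), (4, 5), (4, 8), (5, 4), (5,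
      6), (6, 5), (6, 7), (7, 1), (7, 6), (8, 3), (8, 4)]
    lev := [] }
  links := [[1, 2, 6, 7], [2, 0, 7, 8, 9], [6, 0, 1, 9, 5, 10, 11, 12, 3], [6, 2, 12, 13, 4], [6, 3, 13,
    7], [10, 2, 9, 14]]
  P := {
    a := 6
    N := 15
    nb := [198, 901, 7787, 12372, 8392, 17924, 157, 8531, 642, 16678, 18468, 5124, 10252, 4248, 1568]
    tri := [(0, 1, 2), (0, 1, 7), (0, 2, 6), (0, 6, 7), (1, 2, 9), (1, 7, 8), (1, 8, 9), (2, 3, 6), (2,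
      3, 12), (2, 5, 9), (2, 5, 10), (2, 10, 11), (2, 11, 12), (3, 4, 6), (3, 4, 13), (3, 12, 13),
      (4, 6, 7), (4, 7, 13), (5, 9, 14), (5, 10, 14)]
    fin := [0, 0, 2, 0, 0, 2, 0, 7, 8, 0, 10, 11, 0, 13, 2]
    chd := [(11, 2)]
    steps := [(0, 1), (0, 6), (0, 3), (0, 4), (0, 9), (0, 12), (2, 5), (2, 14)] }
  rep := [0, 7, 13, 10, 11, 2, 8]

noncomputable def v1203 : Cov.CovD where
  P := 3
  N := 4
  pl := [1, 2, 4, 7]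
  lev := [⟨[], [], [], [1], [(0, 0, [])]⟩,
    ⟨[], [(0, 0)], [], [1, 6], [(3, 0, [])]⟩,
    ⟨[(0, 1)], [(0, 0), (0, 4), (1, 0), (1, 4)], [(0, 0), (0, 4)], [3], [(0, 0, []), (3, 0,
      []), (5, 4, [5]), (6, 0, [])]⟩,
    ⟨[(0, 2), (1, 2)], [(0, 0), (2, 0), (2, 4)], [(0, 0)], [2], [(0, 0, []), (6, 0, [])]⟩,
    ⟨[(2, 3)], [(0, 0), (2, 0), (3, 0)], [], [1, 2], [(0, 0, [])]⟩,
    ⟨[(0, 2), (1, 2), (2, 3)], [(1, 0), (2, 0), (2, 4), (2, 5)], [(0, 5)], [3], [(3, 0,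
      []), (8, 5, [4])]⟩]
  Ta := [((0, 1), 0, 1), ((3, 2), 0, 6), ((3, 8), 0, 5), ((6, 5), 0, 4), ((6, 7), 0, 2)]
  Tb := [((1, 0, 2), 1, 0, 6), ((1, 0, 7), 1, 0, 2), ((1, 2, 7), 1, 6, 2), ((2, 1, 3), 6, 1, 0),
    ((3, 2, 8), 0, 6, 5), ((4, 5, 8), 3, 4, 5), ((5, 4, 6), 4, 3, 0), ((6, 5, 7), 0, 4, 2),
    ((7, 1, 6), 2, 1, 0), ((8, 3, 4), 5, 0, 3)]
  Tc := []
  Td := [((4, 5), (5, 4), 3), ((4, 5), (5, 6), 0), ((5, 4), (8, 3), 0), ((5, 4), (8, 4), 3)]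
  G := [[0, 0x34858461448144348588ee8, 0, 0x684a88c44e18, 0x682a82c88e18], [0, 0, 0,
    0x684a88c48e644a48c48ec1, 0x682a88c88e682a88c82ec1], [0, 0, 0x644a88c84e14,
    0x644a48c48e14, 0x682a88c18e18]]

noncomputable def n1203 : Ent := ⟨e1203, noF, [], [], []⟩

def c1203 : PLift (Cov.check n1203.C.D v1203 = true) := ⟨by decide +kernel⟩

def b1203 : PLift (entF (fidx ts) 400 1203 n1203 = true) := ⟨by decide +kernel⟩

theorem g1203 : GoodF (fidx ts) 400 1203 := GoodF.ofV v1203 n1203 c1203.down b1203.down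

/-- 459544:982 -/
noncomputable def e1204 : SCfg where
  D := {
    a := 6
    L := 10
    kp := 7
    inn := [(0, 1), (0, 2), (1, 0), (1, 2), (2, 0), (2, 1), (2, 3), (2, 5), (3, 2), (3, 4), (4, 3), (5,
      2)]
    mix := [(0, 0), (0, 1), (1, 1), (1, 2), (1, 3), (2, 0), (2, 3), (2, 4), (2, 5), (2, 6), (3, 0), (3,
      6), (3, 7), (4, 0), (4, 7), (4, 8), (5, 3), (5, 4), (5, 9)]
    cl := [0, 1, 6, 0, 3, 4, 0, 2, 7, 5]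
    chq := [(4, 5), (5, 4)]
    rng := [(0, 1), (0, 8), (1, 0), (1, 2), (2, 1), (2, 3), (3, 2), (3, 9), (4, 5), (4, 9), (5, 4), (5,
      6), (6, 5), (6, 7), (7, 6), (7, 8), (8, 0), (8, 7), (9, 3), (9, 4)]
    lev := [] }
  links := [[1, 2, 6, 7], [2, 0, 7, 8, 9], [6, 0, 1, 9, 5, 10, 11, 12, 3], [6, 2, 12, 13, 4], [6, 3, 13,
    14], [10, 2, 9, 15]]
  P := {
    a := 6
    N := 16
    nb := [198, 901, 7787, 12372, 24648, 34308, 16541, 323, 642, 33062, 34852, 5124, 10252, 20504,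
      8272, 1568]
    tri := [(0, 1, 2), (0, 1, 7), (0, 2, 6), (0, 6, 7), (1, 2, 9), (1, 7, 8), (1, 8, 9), (2, 3, 6), (2,
      3, 12), (2, 5, 9), (2, 5, 10), (2, 10, 11), (2, 11, 12), (3, 4, 6), (3, 4, 13), (3, 12, 13),
      (4, 6, 14), (4, 13, 14), (5, 9, 15), (5, 10, 15)]
    fin := [0, 0, 2, 0, 0, 2, 0, 7, 8, 0, 10, 11, 0, 13, 14, 2]
    chd := [(11, 2)]
    steps := [(0, 1), (0, 6), (0, 3), (0, 4), (0, 9), (0, 12), (2, 5), (2, 15)] }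
  rep := [0, 7, 13, 10, 11, 2, 8, 14]

noncomputable def v1204 : Cov.CovD where
  P := 3
  N := 5
  pl := [1, 2, 4, 7, 8]
  lev := [⟨[], [], [], [1], [(0, 0, [])]⟩,
    ⟨[], [(0, 0)], [], [1, 6], [(3, 0, [])]⟩,
    ⟨[(0, 1)], [(0, 0), (0, 4), (1, 0), (1, 4)], [(0, 0), (0, 4)], [3], [(0, 0, []), (3, 0,
      []), (5, 4, [5]), (6, 0, [])]⟩,
    ⟨[(0, 2), (1, 2)], [(0, 0), (2, 0), (2, 4)], [(0, 0)], [2], [(0, 0, []), (6, 0, [])]⟩,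
    ⟨[(2, 3)], [(0, 0), (2, 0), (3, 0)], [], [2, 7], [(0, 0, [])]⟩,
    ⟨[(0, 2), (1, 2), (2, 3)], [(1, 0), (2, 0), (2, 4), (2, 5)], [(0, 5)], [3], [(3, 0,
      []), (9, 5, [4])]⟩]
  Ta := [((0, 1), 0, 1), ((0, 8), 0, 7), ((3, 2), 0, 6), ((3, 9), 0, 5), ((6, 5), 0, 4), ((6, 7),
    0, 2)]
  Tb := [((0, 1, 8), 0, 1, 7), ((1, 0, 2), 1, 0, 6), ((2, 1, 3), 6, 1, 0), ((3, 2, 9), 0, 6, 5),
    ((4, 5, 9), 3, 4, 5), ((5, 4, 6), 4, 3, 0), ((6, 5, 7), 0, 4, 2), ((7, 6, 8), 2, 0, 7),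
    ((8, 0, 7), 7, 0, 2), ((9, 3, 4), 5, 0, 3)]
  Tc := []
  Td := [((4, 5), (5, 4), 3), ((4, 5), (5, 6), 0), ((5, 4), (9, 3), 0), ((5, 4), (9, 4), 3)]
  G := [[0, 0x31c41ac8c5c4e61c49ac815c8ec2, 0, 0x66c4aac8ccc4e18, 0x66a2aaa8cca8e18], [0, 0, 0,
    0xa1844614a18c18e614c14acc, 0xa12c186612a18c18ec61288c], [0, 0, 0x6664aaa2cca4e14,
    0x614a18c14e18, 0x612a18c18e18]]

noncomputable def n1204 : Ent := ⟨e1204, noF, [], [], [(7, 14, [385746751338780685620664494392815470296102193487288376377421825, 0])]⟩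

def c1204 : PLift (Cov.check n1204.C.D v1204 = true) := ⟨by decide +kernel⟩

def b1204 : PLift (entF (fidx ts) 400 1204 n1204 = true) := ⟨by decide +kernel⟩

theorem g1204 : GoodF (fidx ts) 400 1204 := GoodF.ofV v1204 n1204 c1204.down b1204.down

/-- 466648:984/1 -/
noncomputable def e1205 : SCfg where
  D := {
    a := 6
    L := 10
    kp := 8
    inn := [(0, 1), (0, 3), (1, 0), (1, 2), (1, 3), (1, 5), (2, 1), (2, 4), (2, 5), (3, 0), (3, 1), (4,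
      2), (4, 5), (5, 1), (5, 2), (5, 4)]
    mix := [(0, 0), (0, 1), (1, 1), (1, 2), (2, 1), (2, 3), (2, 4), (3, 0), (3, 2), (3, 5), (3, 6), (4,
      4), (4, 7), (5, 2), (5, 5), (5, 7), (5, 8), (5, 9)]
    cl := [0, 1, 0, 7, 2, 3, 8, 4, 5, 6]
    chq := [(1, 2), (1, 3), (1, 4), (1, 5), (1, 6), (2, 1), (3, 1), (4, 1), (5, 1), (6, 1)]
    rng := [(0, 1), (0, 6), (1, 0), (1, 3), (2, 5), (3, 1), (3, 4), (4, 3), (4, 7), (5, 2), (5, 6), (5,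
      9), (6, 0), (6, 5), (7, 4), (7, 8), (8, 7), (8, 9), (9, 5), (9, 8)]
    lev := [] }
  links := [[1, 3, 6, 7], [3, 0, 7, 2, 5, 8], [5, 1, 7, 9, 10, 4], [6, 0, 1, 8, 11, 12], [5, 2, 10, 13],
    [8, 1, 2, 4, 13, 14, 15, 11]]
  P := {
    a := 6
    N := 16
    nb := [202, 429, 1714, 6467, 9252, 59670, 4233, 583, 2090, 1156, 8724, 37160, 2120, 17456, 40992,
      18464]
    tri := [(0, 1, 3), (0, 1, 7), (0, 3, 6), (0, 6, 7), (1, 2, 5), (1, 2, 7), (1, 3, 8), (1, 5, 8), (2,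
      4, 5), (2, 4, 10), (2, 7, 9), (2, 9, 10), (3, 6, 12), (3, 8, 11), (3, 11, 12), (4, 5, 13),
      (4, 10, 13), (5, 8, 11), (5, 11, 15), (5, 13, 14), (5, 14, 15)]
    fin := [0, 0, 2, 0, 2, 2, 0, 2, 0, 9, 10, 11, 12, 13, 14, 15]
    chd := [(2, 10), (2, 11), (2, 13), (2, 14), (2, 15)]
    steps := [(0, 1), (0, 3), (0, 6), (0, 8), (2, 4), (2, 5), (2, 7)] }
  rep := [0, 2, 10, 11, 13, 14, 15, 9, 12]

noncomputable def v1205 : Cov.CovD where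
  P := 3
  N := 6
  pl := [3, 6]
  lev := [⟨[], [], [(0, 1)], [], [(0, 0, []), (1, 1, [2, 3, 4, 5, 6])]⟩,
    ⟨[], [(0, 0), (0, 1)], [(0, 1)], [], [(1, 1, [2, 3, 4, 5, 6]), (2, 0, [])]⟩,
    ⟨[(0, 1)], [(0, 1), (1, 0), (1, 1), (1, 2)], [(1, 2)], [7], [(1, 1, [2, 3, 4, 5, 6]),
      (4, 2, [1])]⟩,
    ⟨[(0, 1), (1, 2)], [(0, 0), (0, 1), (0, 3), (1, 0), (1, 1), (1, 3)], [(0, 0), (0, 3)],
      [8], [(0, 0, []), (2, 0, []), (5, 3, [1])]⟩,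
    ⟨[(1, 2)], [(2, 1), (2, 2), (2, 4)], [(2, 4)], [], [(4, 2, [1]), (7, 4, [1])]⟩,
    ⟨[(0, 1), (1, 2), (1, 3), (1, 4), (2, 4)], [(1, 0), (1, 1), (1, 3), (1, 4), (1, 5), (1,
      6), (2, 0), (2, 1), (2, 2), (2, 3), (2, 4), (2, 5), (2, 6), (3, 0), (3, 3), (4, 0), (4,
      2), (4, 3), (4, 4), (4, 5), (4, 6)], [(0, 3), (0, 4), (0, 5), (0, 6), (3, 4), (3, 5),
      (3, 6), (4, 5), (4, 6), (5, 6)], [], [(2, 0, []), (5, 3, [1]), (7, 4, [1]), (8, 5,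
      [1]), (9, 6, [1])]⟩]
  Ta := [((0, 1), 0, 1), ((0, 6), 0, 8), ((2, 5), 0, 3)]
  Tb := [((0, 1, 6), 0, 1, 8), ((1, 0, 3), 1, 0, 7), ((3, 1, 4), 7, 1, 2), ((4, 3, 7), 2, 7, 4),
    ((5, 2, 6), 3, 0, 8), ((5, 2, 9), 3, 0, 6), ((5, 6, 9), 3, 8, 6), ((6, 0, 5), 8, 0, 3),
    ((7, 4, 8), 4, 2, 5), ((8, 7, 9), 5, 4, 6), ((9, 5, 8), 6, 3, 5)]
  Tc := [(1, 2, 3), (1, 2, 4), (1, 2, 5), (1, 2, 6), (1, 3, 4), (1, 3, 5), (1, 3, 6), (1, 4, 5),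
    (1, 4, 6), (1, 5, 6)]
  Td := [((1, 2), (1, 0), 0), ((1, 2), (1, 3), 7), ((1, 3), (1, 0), 0), ((1, 3), (1, 3), 7), ((1,
    4), (1, 0), 0), ((1, 4), (1, 3), 7), ((1, 5), (1, 0), 0), ((1, 5), (1, 3), 7), ((1, 6),
    (1, 0), 0), ((1, 6), (1, 3), 7), ((2, 1), (4, 3), 7), ((2, 1), (4, 7), 4), ((3, 1), (5,
    2), 0), ((3, 1), (5, 6), 8), ((3, 1), (5, 9), 6), ((4, 1), (7, 4), 2), ((4, 1), (7, 8),
    5), ((5, 1), (8, 7), 4), ((5, 1), (8, 9), 6), ((6, 1), (9, 5), 3), ((6, 1), (9, 8), 5)]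
  G := [[0, 0x11c11c11ce11c11c11cec24, 0x22c22c22ce22c22c22cec14, 0x229229229e22c225229ec18,
    0x229229229e229229229e948], [0, 0, 0x22c22c22ce422c22c22ce8c1, 0x22522c22ce22522522ce948,
    0x229229229e229229229e948]]

noncomputable def n1205 : Ent := ⟨e1205, noF, [], [], []⟩

def c1205 : PLift (Cov.check n1205.C.D v1205 = true) := ⟨by decide +kernel⟩

def b1205 : PLift (entF (fidx ts) 400 1205 n1205 = true) := ⟨by decide +kernel⟩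

theorem g1205 : GoodF (fidx ts) 400 1205 := GoodF.ofV v1205 n1205 c1205.down b1205.down

/-- 466648:984 -/
noncomputable def e1206 : SCfg where
  D := {
    a := 6
    L := 11
    kp := 9
    inn := [(0, 1), (0, 3), (1, 0), (1, 2), (1, 3), (1, 5), (2, 1), (2, 4), (2, 5), (3, 0), (3, 1), (4,
      2), (4, 5), (5, 1), (5, 2), (5, 4)]
    mix := [(0, 0), (0, 1), (1, 1), (1, 2), (2, 1), (2, 3), (2, 4), (3, 0), (3, 2), (3, 5), (3, 6), (4,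
      4), (4, 7), (5, 2), (5, 7), (5, 8), (5, 9), (5, 10)]
    cl := [0, 1, 0, 7, 2, 8, 9, 3, 4, 5, 6]
    chq := [(1, 2), (1, 3), (1, 4), (1, 5), (1, 6), (2, 1), (3, 1), (4, 1), (5, 1), (6, 1)]
    rng := [(0, 1), (0, 6), (1, 0), (1, 3), (2, 5), (2, 10), (3, 1), (3, 4), (4, 3), (4, 7), (5, 2),
      (5, 6), (6, 0), (6, 5), (7, 4), (7, 8), (8, 7), (8, 9), (9, 8), (9, 10), (10, 2), (10, 9)]
    lev := [] }
  links := [[1, 3, 6, 7], [3, 0, 7, 2, 5, 8], [5, 1, 7, 9, 10, 4], [6, 0, 1, 8, 11, 12], [5, 2, 10, 13],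
    [8, 1, 2, 4, 13, 14, 15, 16]]
  P := {
    a := 6
    N := 17
    nb := [202, 429, 1714, 6467, 9252, 123158, 4233, 583, 67626, 1156, 8724, 4360, 2120, 17456, 40992,
      81952, 33056]
    tri := [(0, 1, 3), (0, 1, 7), (0, 3, 6), (0, 6, 7), (1, 2, 5), (1, 2, 7), (1, 3, 8), (1, 5, 8), (2,
      4, 5), (2, 4, 10), (2, 7, 9), (2, 9, 10), (3, 6, 12), (3, 8, 11), (3, 11, 12), (4, 5, 13),
      (4, 10, 13), (5, 8, 16), (5, 13, 14), (5, 14, 15), (5, 15, 16)]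
    fin := [0, 0, 2, 0, 2, 2, 0, 2, 0, 9, 10, 11, 12, 13, 14, 15, 16]
    chd := [(2, 10), (2, 13), (2, 14), (2, 15), (2, 16)]
    steps := [(0, 1), (0, 3), (0, 6), (0, 8), (2, 4), (2, 5), (2, 7)] }
  rep := [0, 2, 10, 13, 14, 15, 16, 9, 11, 12]

noncomputable def v1206 : Cov.CovD where
  P := 3
  N := 7
  pl := [3, 5, 6]
  lev := [⟨[], [], [(0, 1)], [], [(0, 0, []), (1, 1, [2, 3, 4, 5, 6])]⟩,
    ⟨[], [(0, 0), (0, 1)], [(0, 1)], [], [(1, 1, [2, 3, 4, 5, 6]), (2, 0, [])]⟩,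
    ⟨[(0, 1)], [(0, 1), (1, 0), (1, 1), (1, 2)], [(1, 2)], [7], [(1, 1, [2, 3, 4, 5, 6]),
      (4, 2, [1])]⟩,
    ⟨[(0, 1), (1, 2)], [(0, 0), (0, 1), (1, 0), (1, 1)], [(0, 0)], [8, 9], [(0, 0, []), (2,
      0, [])]⟩,
    ⟨[(1, 2)], [(2, 1), (2, 2), (2, 3)], [(2, 3)], [], [(4, 2, [1]), (7, 3, [1])]⟩,
    ⟨[(0, 1), (1, 2), (1, 3), (1, 4), (2, 4)], [(1, 0), (1, 1), (1, 3), (1, 4), (1, 5), (1,
      6), (2, 0), (2, 1), (2, 2), (2, 3), (2, 4), (2, 5), (2, 6), (3, 0), (4, 0), (4, 2), (4,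
      3), (4, 4), (4, 5), (4, 6)], [(0, 3), (0, 4), (0, 5), (0, 6), (3, 4), (3, 5), (3, 6),
      (4, 5), (4, 6), (5, 6)], [], [(2, 0, []), (7, 3, [1]), (8, 4, [1]), (9, 5, [1]), (10,
      6, [1])]⟩]
  Ta := [((0, 1), 0, 1), ((0, 6), 0, 9), ((2, 5), 0, 8), ((2, 10), 0, 6)]
  Tb := [((0, 1, 6), 0, 1, 9), ((1, 0, 3), 1, 0, 7), ((2, 5, 10), 0, 8, 6), ((3, 1, 4), 7, 1, 2),
    ((4, 3, 7), 2, 7, 3), ((5, 2, 6), 8, 0, 9), ((6, 0, 5), 9, 0, 8), ((7, 4, 8), 3, 2, 4),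
    ((8, 7, 9), 4, 3, 5), ((9, 8, 10), 5, 4, 6), ((10, 2, 9), 6, 0, 5)]
  Tc := [(1, 2, 3), (1, 2, 4), (1, 2, 5), (1, 2, 6), (1, 3, 4), (1, 3, 5), (1, 3, 6), (1, 4, 5),
    (1, 4, 6), (1, 5, 6)]
  Td := [((1, 2), (1, 0), 0), ((1, 2), (1, 3), 7), ((1, 3), (1, 0), 0), ((1, 3), (1, 3), 7), ((1,
    4), (1, 0), 0), ((1, 4), (1, 3), 7), ((1, 5), (1, 0), 0), ((1, 5), (1, 3), 7), ((1, 6),
    (1, 0), 0), ((1, 6), (1, 3), 7), ((2, 1), (4, 3), 7), ((2, 1), (4, 7), 3), ((3, 1), (7,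
    4), 2), ((3, 1), (7, 8), 4), ((4, 1), (8, 7), 3), ((4, 1), (8, 9), 5), ((5, 1), (9, 8),
    4), ((5, 1), (9, 10), 6), ((6, 1), (10, 2), 0), ((6, 1), (10, 9), 5)]
  G := [[0, 0x11c11c11ce11c11c11cec24, 0x22c22c22ce22c22c22cec14, 0x212462292421e22c2828ed84,
    0x229229229e229229229e948], [0, 0, 0x24422c22c22cec22c2822ce8c1,
    0x22522522ce229229225e941, 0x229229229e229229229e941]]

noncomputable def n1206 : Ent := ⟨e1206, noF, [], [], [(16, 11, [1580044410770990308032078191911707142368668054796088592099349057537, 0])]⟩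

def c1206 : PLift (Cov.check n1206.C.D v1206 = true) := ⟨by decide +kernel⟩

def b1206 : PLift (entF (fidx ts) 400 1206 n1206 = true) := ⟨by decide +kernel⟩

theorem g1206 : GoodF (fidx ts) 400 1206 := GoodF.ofV v1206 n1206 c1206.down b1206.down

/-- 466647:985/1 -/
noncomputable def e1207 : SCfg where
  D := {
    a := 6
    L := 10
    kp := 8
    inn := [(0, 1), (0, 3), (1, 0), (1, 2), (1, 3), (1, 5), (2, 1), (2, 4), (3, 0), (3, 1), (3, 5), (4,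
      2), (5, 1), (5, 3)]
    mix := [(0, 0), (0, 1), (1, 1), (1, 2), (2, 1), (2, 2), (2, 3), (2, 4), (3, 0), (3, 5), (3, 6), (4,
      2), (4, 4), (4, 7), (5, 2), (5, 5), (5, 7), (5, 8), (5, 9)]
    cl := [1, 0, 0, 7, 2, 3, 8, 4, 5, 6]
    chq := [(0, 2), (1, 3), (1, 4), (1, 5), (1, 6), (2, 0), (3, 1), (4, 1), (5, 1), (6, 1)]
    rng := [(0, 1), (0, 6), (1, 0), (1, 3), (2, 7), (3, 1), (3, 4), (4, 3), (4, 7), (5, 6), (5, 9), (6,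
      0), (6, 5), (7, 2), (7, 4), (7, 8), (8, 7), (8, 9), (9, 5), (9, 8)]
    lev := [] }
  links := [[1, 3, 6, 7], [3, 0, 7, 2, 8, 5], [8, 1, 7, 9, 10, 4], [6, 0, 1, 5, 11, 12], [8, 2, 10, 13],
    [11, 3, 1, 8, 13, 14, 15]]
  P := {
    a := 6
    N := 16
    nb := [202, 429, 1938, 6243, 9476, 59658, 4233, 583, 8246, 1156, 8724, 36904, 2120, 17712, 40992,
      18464]
    tri := [(0, 1, 3), (0, 1, 7), (0, 3, 6), (0, 6, 7), (1, 2, 7), (1, 2, 8), (1, 3, 5), (1, 5, 8), (2,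
      4, 8), (2, 4, 10), (2, 7, 9), (2, 9, 10), (3, 5, 11), (3, 6, 12), (3, 11, 12), (4, 8, 13),
      (4, 10, 13), (5, 8, 13), (5, 11, 15), (5, 13, 14), (5, 14, 15)]
    fin := [0, 0, 2, 0, 2, 0, 0, 2, 2, 9, 10, 11, 12, 13, 14, 15]
    chd := [(0, 11), (0, 13), (0, 14), (0, 15), (2, 10)]
    steps := [(0, 1), (0, 3), (0, 5), (0, 6), (2, 4), (2, 7), (2, 8)] }
  rep := [2, 0, 10, 11, 13, 14, 15, 9, 12]

noncomputable def v1207 : Cov.CovD where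
  P := 3
  N := 6
  pl := [3, 6]
  lev := [⟨[], [], [(0, 1)], [], [(0, 1, [3, 4, 5, 6]), (1, 0, [2])]⟩,
    ⟨[], [(0, 0), (0, 1)], [(0, 0)], [], [(1, 0, [2]), (2, 0, [2])]⟩,
    ⟨[(0, 1)], [(0, 0), (1, 0), (1, 2)], [(0, 0), (0, 2)], [7], [(1, 0, [2]), (2, 0, [2]),
      (4, 2, [0])]⟩,
    ⟨[(0, 1), (1, 2)], [(0, 0), (0, 1), (0, 3), (1, 0), (1, 1), (1, 3)], [(1, 3)], [8],
      [(0, 1, [3, 4, 5, 6]), (5, 3, [1])]⟩,
    ⟨[(1, 2)], [(1, 0), (2, 0), (2, 2), (2, 4)], [(0, 2), (0, 4), (2, 4)], [], [(2, 0,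
      [2]), (4, 2, [0]), (7, 4, [1])]⟩,
    ⟨[(0, 1), (0, 3), (1, 2), (1, 3)], [(1, 0), (1, 3), (1, 4), (1, 5), (1, 6), (2, 0), (3,
      0), (3, 1), (3, 3), (3, 4), (3, 5), (3, 6), (4, 0), (4, 4)], [(0, 3), (0, 4), (0, 5),
      (0, 6), (3, 4), (3, 5), (3, 6), (4, 5), (4, 6), (5, 6)], [], [(2, 0, [2]), (5, 3, [1]),
      (7, 4, [1]), (8, 5, [1]), (9, 6, [1])]⟩]
  Ta := [((1, 0), 0, 1), ((1, 3), 0, 7), ((2, 7), 0, 4)]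
  Tb := [((0, 1, 6), 1, 0, 8), ((1, 0, 3), 0, 1, 7), ((3, 1, 4), 7, 0, 2), ((4, 3, 7), 2, 7, 4),
    ((5, 6, 9), 3, 8, 6), ((6, 0, 5), 8, 1, 3), ((7, 2, 4), 4, 0, 2), ((7, 2, 8), 4, 0, 5),
    ((7, 4, 8), 4, 2, 5), ((8, 7, 9), 5, 4, 6), ((9, 5, 8), 6, 3, 5)]
  Tc := [(1, 3, 4), (1, 3, 5), (1, 3, 6), (1, 4, 5), (1, 4, 6), (1, 5, 6)]
  Td := [((0, 2), (1, 0), 1), ((0, 2), (1, 3), 7), ((0, 2), (2, 7), 4), ((1, 3), (0, 1), 0), ((1,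
    3), (0, 6), 8), ((1, 4), (0, 1), 0), ((1, 4), (0, 6), 8), ((1, 5), (0, 1), 0), ((1, 5),
    (0, 6), 8), ((1, 6), (0, 1), 0), ((1, 6), (0, 6), 8), ((2, 0), (4, 3), 7), ((2, 0), (4,
    7), 4), ((3, 1), (5, 6), 8), ((3, 1), (5, 9), 6), ((4, 1), (7, 2), 0), ((4, 1), (7, 4),
    2), ((4, 1), (7, 8), 5), ((5, 1), (8, 7), 4), ((5, 1), (8, 9), 6), ((6, 1), (9, 5), 3),
    ((6, 1), (9, 8), 5)]
  G := [[0, 0x11c11c11ce11c11c11cec24, 0x2222522a2424d22a2828de84, 0x212154212121d218cc8,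
    0x214212121da212198c4], [0, 0, 0x2224522a2422d22a2828de84, 0x22c22c22cd281c422c22c24d48c,
    0x22a22a22ad22a22a22ada48]]

noncomputable def n1207 : Ent := ⟨e1207, noF, [], [], []⟩

def c1207 : PLift (Cov.check n1207.C.D v1207 = true) := ⟨by decide +kernel⟩

def b1207 : PLift (entF (fidx ts) 400 1207 n1207 = true) := ⟨by decide +kernel⟩

theorem g1207 : GoodF (fidx ts) 400 1207 := GoodF.ofV v1207 n1207 c1207.down b1207.down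

/-- 466647:985 -/
noncomputable def e1208 : SCfg where
  D := {
    a := 6
    L := 11
    kp := 9
    inn := [(0, 1), (0, 3), (1, 0), (1, 2), (1, 3), (1, 5), (2, 1), (2, 4), (3, 0), (3, 1), (3, 5), (4,
      2), (5, 1), (5, 3)]
    mix := [(0, 0), (0, 1), (1, 1), (1, 2), (2, 1), (2, 2), (2, 3), (2, 4), (3, 0), (3, 5), (3, 6), (4,
      2), (4, 4), (4, 7), (5, 2), (5, 5), (5, 8), (5, 9), (5, 10)]
    cl := [1, 0, 0, 7, 2, 3, 8, 9, 4, 5, 6]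
    chq := [(0, 2), (1, 3), (1, 4), (1, 5), (1, 6), (2, 0), (3, 1), (4, 1), (5, 1), (6, 1)]
    rng := [(0, 1), (0, 6), (1, 0), (1, 3), (2, 7), (2, 8), (3, 1), (3, 4), (4, 3), (4, 7), (5, 6), (5,
      10), (6, 0), (6, 5), (7, 2), (7, 4), (8, 2), (8, 9), (9, 8), (9, 10), (10, 5), (10, 9)]
    lev := [] }
  links := [[1, 3, 6, 7], [3, 0, 7, 2, 8, 5], [8, 1, 7, 9, 10, 4], [6, 0, 1, 5, 11, 12], [8, 2, 10, 13],
    [11, 3, 1, 8, 14, 15, 16]]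
  P := {
    a := 6
    N := 17
    nb := [202, 429, 1938, 6243, 9476, 117002, 4233, 583, 24630, 1156, 8724, 69672, 2120, 1296, 33056,
      81952, 34848]
    tri := [(0, 1, 3), (0, 1, 7), (0, 3, 6), (0, 6, 7), (1, 2, 7), (1, 2, 8), (1, 3, 5), (1, 5, 8), (2,
      4, 8), (2, 4, 10), (2, 7, 9), (2, 9, 10), (3, 5, 11), (3, 6, 12), (3, 11, 12), (4, 8, 13),
      (4, 10, 13), (5, 8, 14), (5, 11, 16), (5, 14, 15), (5, 15, 16)]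
    fin := [0, 0, 2, 0, 2, 0, 0, 2, 2, 9, 10, 11, 12, 13, 14, 15, 16]
    chd := [(0, 11), (0, 14), (0, 15), (0, 16), (2, 10)]
    steps := [(0, 1), (0, 3), (0, 5), (0, 6), (2, 4), (2, 7), (2, 8)] }
  rep := [2, 0, 10, 11, 14, 15, 16, 9, 12, 13]

noncomputable def v1208 : Cov.CovD where
  P := 3
  N := 7
  pl := [3, 6, 7]
  lev := [⟨[], [], [(0, 1)], [], [(0, 1, [3, 4, 5, 6]), (1, 0, [2])]⟩,
    ⟨[], [(0, 0), (0, 1)], [(0, 0)], [], [(1, 0, [2]), (2, 0, [2])]⟩,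
    ⟨[(0, 1)], [(0, 0), (1, 0), (1, 2)], [(0, 0), (0, 2)], [7], [(1, 0, [2]), (2, 0, [2]),
      (4, 2, [0])]⟩,
    ⟨[(0, 1), (1, 2)], [(0, 0), (0, 1), (0, 3), (1, 0), (1, 1), (1, 3)], [(1, 3)], [8],
      [(0, 1, [3, 4, 5, 6]), (5, 3, [1])]⟩,
    ⟨[(1, 2)], [(1, 0), (2, 0), (2, 2)], [(0, 2)], [9], [(2, 0, [2]), (4, 2, [0])]⟩,
    ⟨[(0, 1), (0, 3), (1, 2), (1, 3)], [(1, 0), (1, 3), (1, 4), (1, 5), (1, 6), (2, 0), (3,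
      0), (3, 1), (3, 3), (3, 4), (3, 5), (3, 6), (4, 0)], [(0, 3), (0, 4), (0, 5), (0, 6),
      (3, 4), (3, 5), (3, 6), (4, 5), (4, 6), (5, 6)], [], [(2, 0, [2]), (5, 3, [1]), (8, 4,
      [1]), (9, 5, [1]), (10, 6, [1])]⟩]
  Ta := [((1, 0), 0, 1), ((1, 3), 0, 7), ((2, 7), 0, 9), ((2, 8), 0, 4)]
  Tb := [((0, 1, 6), 1, 0, 8), ((1, 0, 3), 0, 1, 7), ((2, 7, 8), 0, 9, 4), ((3, 1, 4), 7, 0, 2),
    ((4, 3, 7), 2, 7, 9), ((5, 6, 10), 3, 8, 6), ((6, 0, 5), 8, 1, 3), ((7, 2, 4), 9, 0, 2),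
    ((8, 2, 9), 4, 0, 5), ((9, 8, 10), 5, 4, 6), ((10, 5, 9), 6, 3, 5)]
  Tc := [(1, 3, 4), (1, 3, 5), (1, 3, 6), (1, 4, 5), (1, 4, 6), (1, 5, 6)]
  Td := [((0, 2), (1, 0), 1), ((0, 2), (1, 3), 7), ((0, 2), (2, 7), 9), ((0, 2), (2, 8), 4), ((1,
    3), (0, 1), 0), ((1, 3), (0, 6), 8), ((1, 4), (0, 1), 0), ((1, 4), (0, 6), 8), ((1, 5),
    (0, 1), 0), ((1, 5), (0, 6), 8), ((1, 6), (0, 1), 0), ((1, 6), (0, 6), 8), ((2, 0), (4,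
    3), 7), ((2, 0), (4, 7), 9), ((3, 1), (5, 6), 8), ((3, 1), (5, 10), 6), ((4, 1), (8, 2),
    0), ((4, 1), (8, 9), 5), ((5, 1), (9, 8), 4), ((5, 1), (9, 10), 6), ((6, 1), (10, 5), 3),
    ((6, 1), (10, 9), 5)]
  G := [[0, 0x11c11c11ce11c11c11cec28, 0x226422a22622adc22c822a1ac4, 0x214212121dc212198c4,
    0x212121d212121da48], [0, 0, 0x222452262828d2262422de84, 0x22c1422c22c22cd8c22c22cc48c,
    0x22a22a22ad22a22a22ada48]]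

noncomputable def n1208 : Ent := ⟨e1208, noF, [], [], [(13, 14, [1685382413448253767852309107433119732572617628602273068445369856001, 0])]⟩

def c1208 : PLift (Cov.check n1208.C.D v1208 = true) := ⟨by decide +kernel⟩

def b1208 : PLift (entF (fidx ts) 400 1208 n1208 = true) := ⟨by decide +kernel⟩

theorem g1208 : GoodF (fidx ts) 400 1208 := GoodF.ofV v1208 n1208 c1208.down b1208.down

/-- 466574:991/2 -/
noncomputable def e1209 : SCfg where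
  D := {
    a := 6
    L := 9
    kp := 6
    inn := [(0, 1), (0, 3), (1, 0), (1, 2), (1, 4), (2, 1), (2, 4), (3, 0), (4, 1), (4, 2), (4, 5), (5,
      4)]
    mix := [(0, 0), (0, 1), (1, 0), (1, 1), (1, 2), (2, 1), (2, 3), (2, 4), (2, 5), (3, 0), (3, 1), (3,
      3), (3, 6), (4, 2), (4, 5), (4, 7), (4, 8), (5, 6), (5, 7), (5, 8)]
    cl := [0, 0, 1, 4, 6, 3, 2, 5, 3]
    chq := [(1, 4), (1, 6), (4, 1), (6, 1)]
    rng := [(0, 2), (0, 6), (1, 3), (2, 0), (2, 8), (3, 1), (3, 4), (3, 6), (4, 3), (4, 5), (5, 4), (5,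
      7), (6, 0), (6, 3), (6, 7), (6, 8), (7, 5), (7, 6), (8, 2), (8, 6)]
    lev := [] }
  links := [[1, 6, 3, 7], [6, 0, 7, 2, 4, 8], [4, 1, 7, 9, 10, 11], [7, 0, 6, 12, 9], [8, 1, 2, 11, 13,
    5, 14], [14, 4, 13, 12]]
  P := {
    a := 6
    N := 15
    nb := [202, 469, 3730, 4801, 26918, 28688, 4363, 527, 16466, 5260, 2564, 9236, 25192, 6192, 4400]
    tri := [(0, 1, 6), (0, 1, 7), (0, 3, 6), (0, 3, 7), (1, 2, 4), (1, 2, 7), (1, 4, 8), (1, 6, 8), (2,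
      4, 11), (2, 7, 9), (2, 9, 10), (2, 10, 11), (3, 6, 12), (3, 7, 9), (3, 9, 12), (4, 5, 13),
      (4, 5, 14), (4, 8, 14), (4, 11, 13), (5, 12, 13), (5, 12, 14)]
    fin := [0, 1, 1, 0, 4, 5, 0, 0, 1, 9, 10, 4, 5, 13, 4]
    chd := [(1, 9), (1, 10)]
    steps := [(0, 3), (0, 6), (0, 7), (1, 2), (1, 8), (4, 11), (4, 14), (5, 12)] }
  rep := [0, 1, 5, 4, 9, 13, 10]

noncomputable def v1209 : Cov.CovD where
  P := 3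
  N := 4
  pl := [6, 7]
  lev := [⟨[], [], [(0, 0)], [], [(0, 0, []), (1, 0, [])]⟩,
    ⟨[], [(0, 0), (0, 1)], [(0, 0), (0, 1)], [], [(0, 0, []), (1, 0, []), (2, 1, [4, 6])]⟩,
    ⟨[(0, 1)], [(0, 0), (1, 0), (1, 1), (1, 3), (1, 4), (1, 6)], [(0, 3), (0, 4), (0, 6),
      (3, 4), (3, 6), (4, 6)], [], [(1, 0, []), (3, 4, [1]), (4, 6, [1]), (5, 3, [])]⟩,
    ⟨[(0, 1)], [(0, 0), (0, 4), (1, 0), (2, 0), (2, 4)], [(0, 0), (0, 4)], [2], [(0, 0,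
      []), (1, 0, []), (3, 4, [1])]⟩,
    ⟨[(0, 1), (1, 2)], [(1, 0), (1, 1), (1, 3), (2, 0), (2, 1), (2, 3), (2, 4), (2, 6)],
      [(1, 3), (3, 3)], [5], [(2, 1, [4, 6]), (5, 3, []), (8, 3, [])]⟩,
    ⟨[(1, 4), (2, 4)], [(4, 1), (4, 3)], [], [2, 5], [(8, 3, [])]⟩]
  Ta := [((0, 2), 0, 1), ((0, 6), 0, 2), ((1, 3), 0, 4), ((5, 4), 3, 6), ((5, 7), 3, 5), ((8, 2),
    3, 1), ((8, 6), 3, 2)]
  Tb := [((0, 2, 6), 0, 1, 2), ((2, 0, 8), 1, 0, 3), ((3, 1, 4), 4, 0, 6), ((3, 1, 6), 4, 0, 2),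
    ((3, 4, 6), 4, 6, 2), ((4, 3, 5), 6, 4, 3), ((5, 4, 7), 3, 6, 5), ((6, 0, 3), 2, 0, 4),
    ((6, 0, 7), 2, 0, 5), ((6, 0, 8), 2, 0, 3), ((6, 3, 7), 2, 4, 5), ((6, 3, 8), 2, 4, 3),
    ((6, 7, 8), 2, 5, 3), ((7, 5, 6), 5, 3, 2), ((8, 2, 6), 3, 1, 2)]
  Tc := [(1, 4, 6)]
  Td := [((1, 4), (2, 0), 0), ((1, 4), (2, 8), 3), ((1, 6), (2, 0), 0), ((1, 6), (2, 8), 3), ((4,
    1), (3, 1), 0), ((4, 1), (3, 4), 6), ((4, 1), (3, 6), 2), ((6, 1), (4, 3), 4), ((6, 1),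
    (4, 5), 3)]
  G := [[0, 0x88ce185ec128, 0xc161a282, 0x541d541dc282, 0x821d832da242], [0, 0x841e841ec124,
    0xe1e1a244, 0x415415c28888c2c2, 0x821d821da242], [0, 0, 0, 0x541d541dc282,
    0x298d231da284], [0, 0, 0, 0x415415c28888c2c2, 0x832d821da248]]

noncomputable def n1209 : Ent := ⟨e1209, noF, [], [], []⟩

def c1209 : PLift (Cov.check n1209.C.D v1209 = true) := ⟨by decide +kernel⟩

def b1209 : PLift (entF (fidx ts) 400 1209 n1209 = true) := ⟨by decide +kernel⟩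

theorem g1209 : GoodF (fidx ts) 400 1209 := GoodF.ofV v1209 n1209 c1209.down b1209.down

/-- 466574:991/1 -/
noncomputable def e1210 : SCfg where
  D := {
    a := 6
    L := 10
    kp := 7
    inn := [(0, 1), (0, 3), (1, 0), (1, 2), (1, 4), (2, 1), (2, 4), (3, 0), (4, 1), (4, 2), (4, 5), (5,
      4)]
    mix := [(0, 0), (0, 1), (1, 0), (1, 1), (1, 2), (2, 1), (2, 3), (2, 4), (2, 5), (3, 0), (3, 1), (3,
      6), (3, 7), (4, 2), (4, 5), (4, 8), (4, 9), (5, 6), (5, 8), (5, 9)]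
    cl := [0, 0, 1, 5, 6, 3, 2, 7, 4, 3]
    chq := [(1, 5), (1, 6), (5, 1), (6, 1)]
    rng := [(0, 2), (0, 6), (1, 3), (1, 7), (2, 0), (2, 9), (3, 1), (3, 4), (4, 3), (4, 5), (5, 4), (5,
      8), (6, 0), (6, 7), (6, 8), (6, 9), (7, 1), (7, 6), (8, 5), (8, 6), (9, 2), (9, 6)]
    lev := [] }
  links := [[1, 6, 3, 7], [6, 0, 7, 2, 4, 8], [4, 1, 7, 9, 10, 11], [7, 0, 6, 12, 13], [8, 1, 2, 11, 14,
    5, 15], [15, 4, 14, 12]]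
  P := {
    a := 6
    N := 16
    nb := [202, 469, 3730, 12481, 51494, 53264, 4363, 8719, 32850, 1156, 2564, 17428, 57448, 4232,
      6192, 4400]
    tri := [(0, 1, 6), (0, 1, 7), (0, 3, 6), (0, 3, 7), (1, 2, 4), (1, 2, 7), (1, 4, 8), (1, 6, 8), (2,
      4, 11), (2, 7, 9), (2, 9, 10), (2, 10, 11), (3, 6, 12), (3, 7, 13), (3, 12, 13), (4, 5, 14),
      (4, 5, 15), (4, 8, 15), (4, 11, 14), (5, 12, 14), (5, 12, 15)]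
    fin := [0, 1, 1, 0, 4, 5, 0, 0, 1, 9, 10, 4, 5, 13, 14, 4]
    chd := [(1, 9), (1, 10)]
    steps := [(0, 3), (0, 6), (0, 7), (1, 2), (1, 8), (4, 11), (4, 15), (5, 12)] }
  rep := [0, 1, 5, 4, 14, 9, 10, 13]

noncomputable def v1210 : Cov.CovD where
  P := 3
  N := 5
  pl := [6, 7, 8]
  lev := [⟨[], [], [(0, 0)], [], [(0, 0, []), (1, 0, [])]⟩,
    ⟨[], [(0, 0), (0, 1)], [(0, 0), (0, 1)], [], [(0, 0, []), (1, 0, []), (2, 1, [5, 6])]⟩,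
    ⟨[(0, 1)], [(0, 0), (1, 0), (1, 1), (1, 3), (1, 5), (1, 6)], [(0, 3), (0, 5), (0, 6),
      (3, 5), (3, 6), (5, 6)], [], [(1, 0, []), (3, 5, [1]), (4, 6, [1]), (5, 3, [])]⟩,
    ⟨[(0, 1)], [(0, 0), (1, 0), (2, 0)], [(0, 0)], [2, 7], [(0, 0, []), (1, 0, [])]⟩,
    ⟨[(0, 1), (1, 2)], [(1, 0), (1, 1), (1, 3), (2, 0), (2, 1), (2, 3), (2, 5), (2, 6)],
      [(1, 3), (3, 3)], [4], [(2, 1, [5, 6]), (5, 3, []), (9, 3, [])]⟩,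
    ⟨[(1, 4), (2, 4)], [(4, 1), (4, 3)], [], [2, 4], [(9, 3, [])]⟩]
  Ta := [((0, 2), 0, 1), ((0, 6), 0, 2), ((1, 3), 0, 5), ((1, 7), 0, 7), ((5, 4), 3, 6), ((5, 8),
    3, 4), ((9, 2), 3, 1), ((9, 6), 3, 2)]
  Tb := [((0, 2, 6), 0, 1, 2), ((1, 3, 7), 0, 5, 7), ((2, 0, 9), 1, 0, 3), ((3, 1, 4), 5, 0, 6),
    ((4, 3, 5), 6, 5, 3), ((5, 4, 8), 3, 6, 4), ((6, 0, 7), 2, 0, 7), ((6, 0, 8), 2, 0, 4),
    ((6, 0, 9), 2, 0, 3), ((6, 7, 8), 2, 7, 4), ((6, 7, 9), 2, 7, 3), ((6, 8, 9), 2, 4, 3),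
    ((7, 1, 6), 7, 0, 2), ((8, 5, 6), 4, 3, 2), ((9, 2, 6), 3, 1, 2)]
  Tc := [(1, 5, 6)]
  Td := [((1, 5), (2, 0), 0), ((1, 5), (2, 9), 3), ((1, 6), (2, 0), 0), ((1, 6), (2, 9), 3), ((5,
    1), (3, 1), 0), ((5, 1), (3, 4), 6), ((6, 1), (4, 3), 5), ((6, 1), (4, 5), 3)]
  G := [[0, 0x441e44cec184, 0xc1c1c242, 0x891d891dc242, 0x298d898da248], [0, 0x815e81841e4168,
    0xe1e1c248, 0x44415c281988c2c2, 0x832d821da242], [0, 0, 0, 0x891d891dc248,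
    0x291d232da248], [0, 0, 0, 0x88819c2441544c28c, 0x821d821da242]]

noncomputable def n1210 : Ent := ⟨e1210, noF, [], [], [(13, 9, [385753028440516072390631310976361170528661168933326286435880961, 0])]⟩

def c1210 : PLift (Cov.check n1210.C.D v1210 = true) := ⟨by decide +kernel⟩

def b1210 : PLift (entF (fidx ts) 400 1210 n1210 = true) := ⟨by decide +kernel⟩

theorem g1210 : GoodF (fidx ts) 400 1210 := GoodF.ofV v1210 n1210 c1210.down b1210.down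

/-- 466574:991/4 -/
noncomputable def e1211 : SCfg where
  D := {
    a := 6
    L := 9
    kp := 6
    inn := [(0, 1), (0, 3), (1, 0), (1, 2), (1, 4), (2, 1), (2, 4), (3, 0), (4, 1), (4, 2), (4, 5), (5,
      4)]
    mix := [(0, 0), (0, 1), (1, 0), (1, 1), (1, 2), (2, 1), (2, 3), (2, 4), (2, 5), (3, 0), (3, 1), (3,
      6), (3, 7), (4, 2), (4, 5), (4, 6), (4, 8), (5, 6), (5, 7), (5, 8)]
    cl := [0, 0, 2, 5, 6, 1, 1, 3, 4]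
    chq := [(2, 5), (2, 6), (5, 2), (6, 2)]
    rng := [(0, 2), (0, 6), (1, 3), (1, 7), (2, 0), (2, 6), (3, 1), (3, 4), (4, 3), (4, 5), (5, 4), (5,
      8), (6, 0), (6, 2), (6, 7), (7, 1), (7, 6), (7, 8), (8, 5), (8, 7)]
    lev := [] }
  links := [[1, 6, 3, 7], [6, 0, 7, 2, 4, 8], [4, 1, 7, 9, 10, 11], [7, 0, 6, 12, 13], [8, 1, 2, 11, 14,
    5, 12], [12, 4, 14, 13]]
  P := {
    a := 6
    N := 15
    nb := [202, 469, 3730, 12481, 22822, 28688, 4363, 8719, 4178, 1156, 2564, 17428, 8568, 20648,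
      10288]
    tri := [(0, 1, 6), (0, 1, 7), (0, 3, 6), (0, 3, 7), (1, 2, 4), (1, 2, 7), (1, 4, 8), (1, 6, 8), (2,
      4, 11), (2, 7, 9), (2, 9, 10), (2, 10, 11), (3, 6, 12), (3, 7, 13), (3, 12, 13), (4, 5, 12),
      (4, 5, 14), (4, 8, 12), (4, 11, 14), (5, 12, 13), (5, 13, 14)]
    fin := [0, 1, 1, 0, 4, 4, 0, 0, 1, 9, 10, 4, 4, 13, 14]
    chd := [(1, 9), (1, 10)]
    steps := [(0, 3), (0, 6), (0, 7), (1, 2), (1, 8), (4, 5), (4, 12), (4, 11)] }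
  rep := [0, 4, 1, 13, 14, 9, 10]

noncomputable def v1211 : Cov.CovD where
  P := 3
  N := 4
  pl := [7, 8]
  lev := [⟨[], [], [(0, 0)], [], [(0, 0, []), (1, 0, [])]⟩,
    ⟨[], [(0, 0), (0, 2)], [(0, 0), (0, 2)], [], [(0, 0, []), (1, 0, []), (2, 2, [5, 6])]⟩,
    ⟨[(0, 1)], [(0, 0), (1, 0), (1, 1), (1, 2), (1, 5), (1, 6)], [(0, 1), (0, 5), (0, 6),
      (1, 5), (1, 6), (5, 6)], [], [(1, 0, []), (3, 5, [2]), (4, 6, [2]), (5, 1, [])]⟩,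
    ⟨[(0, 1)], [(0, 0), (0, 1), (1, 0), (2, 0)], [(0, 0), (0, 1)], [3], [(0, 0, []), (1, 0,
      []), (6, 1, [])]⟩,
    ⟨[(0, 1), (1, 2)], [(1, 0), (1, 1), (1, 2), (2, 0), (2, 1), (2, 2), (2, 5), (2, 6), (3,
      1)], [(1, 1), (1, 2)], [4], [(2, 2, [5, 6]), (5, 1, []), (6, 1, [])]⟩,
    ⟨[(1, 4), (2, 4)], [(3, 1), (4, 1), (4, 2)], [], [3, 4], [(6, 1, [])]⟩]
  Ta := [((0, 2), 0, 2), ((0, 6), 0, 1), ((1, 3), 0, 5), ((1, 7), 0, 3), ((5, 4), 1, 6), ((5, 8),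
    1, 4), ((6, 0), 1, 0), ((6, 2), 1, 2), ((6, 7), 1, 3)]
  Tb := [((0, 2, 6), 0, 2, 1), ((1, 3, 7), 0, 5, 3), ((2, 0, 6), 2, 0, 1), ((3, 1, 4), 5, 0, 6),
    ((4, 3, 5), 6, 5, 1), ((5, 4, 8), 1, 6, 4), ((6, 0, 2), 1, 0, 2), ((6, 0, 7), 1, 0, 3),
    ((6, 2, 7), 1, 2, 3), ((7, 1, 6), 3, 0, 1), ((7, 1, 8), 3, 0, 4), ((7, 6, 8), 3, 1, 4),
    ((8, 5, 7), 4, 1, 3)]
  Tc := [(2, 5, 6)]
  Td := [((2, 5), (2, 0), 0), ((2, 5), (2, 6), 1), ((2, 6), (2, 0), 0), ((2, 6), (2, 6), 1), ((5,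
    2), (3, 1), 0), ((5, 2), (3, 4), 6), ((6, 2), (4, 3), 5), ((6, 2), (4, 5), 1)]
  G := [[0, 0, 0x2881c6148, 0, 0xc192424], [0, 0x4422c628882c2, 0x81c14cc122, 0x815419c284,
    0x819419c428], [0, 0, 0, 0, 0x28459a484], [0, 0, 0, 0x895415c282, 0x819459c428]]

noncomputable def n1211 : Ent := ⟨e1211, noF, [], [], []⟩

def c1211 : PLift (Cov.check n1211.C.D v1211 = true) := ⟨by decide +kernel⟩

def b1211 : PLift (entF (fidx ts) 400 1211 n1211 = true) := ⟨by decide +kernel⟩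

theorem g1211 : GoodF (fidx ts) 400 1211 := GoodF.ofV v1211 n1211 c1211.down b1211.down

/-- 466574:991/3 -/
noncomputable def e1212 : SCfg where
  D := {
    a := 6
    L := 10
    kp := 7
    inn := [(0, 1), (0, 3), (1, 0), (1, 2), (1, 4), (2, 1), (2, 4), (3, 0), (4, 1), (4, 2), (4, 5), (5,
      4)]
    mix := [(0, 0), (0, 1), (1, 0), (1, 1), (1, 2), (2, 1), (2, 3), (2, 4), (2, 5), (3, 0), (3, 1), (3,
      6), (3, 7), (4, 2), (4, 5), (4, 6), (4, 8), (5, 6), (5, 8), (5, 9)]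
    cl := [0, 0, 2, 4, 5, 1, 1, 6, 3, 7]
    chq := [(2, 4), (2, 5), (4, 2), (5, 2)]
    rng := [(0, 2), (0, 6), (1, 3), (1, 7), (2, 0), (2, 6), (3, 1), (3, 4), (4, 3), (4, 5), (5, 4), (5,
      8), (6, 0), (6, 2), (6, 7), (6, 9), (7, 1), (7, 6), (8, 5), (8, 9), (9, 6), (9, 8)]
    lev := [] }
  links := [[1, 6, 3, 7], [6, 0, 7, 2, 4, 8], [4, 1, 7, 9, 10, 11], [7, 0, 6, 12, 13], [8, 1, 2, 11, 14,
    5, 12], [12, 4, 14, 15]]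
  P := {
    a := 6
    N := 16
    nb := [202, 469, 3730, 12481, 22822, 53264, 4363, 8719, 4178, 1156, 2564, 17428, 41336, 4232,
      34864, 20512]
    tri := [(0, 1, 6), (0, 1, 7), (0, 3, 6), (0, 3, 7), (1, 2, 4), (1, 2, 7), (1, 4, 8), (1, 6, 8), (2,
      4, 11), (2, 7, 9), (2, 9, 10), (2, 10, 11), (3, 6, 12), (3, 7, 13), (3, 12, 13), (4, 5, 12),
      (4, 5, 14), (4, 8, 12), (4, 11, 14), (5, 12, 15), (5, 14, 15)]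
    fin := [0, 1, 1, 0, 4, 4, 0, 0, 1, 9, 10, 4, 4, 13, 14, 15]
    chd := [(1, 9), (1, 10)]
    steps := [(0, 3), (0, 6), (0, 7), (1, 2), (1, 8), (4, 5), (4, 12), (4, 11)] }
  rep := [0, 4, 1, 14, 9, 10, 13, 15]

noncomputable def v1212 : Cov.CovD where
  P := 3
  N := 5
  pl := [7, 8, 9]
  lev := [⟨[], [], [(0, 0)], [], [(0, 0, []), (1, 0, [])]⟩,
    ⟨[], [(0, 0), (0, 2)], [(0, 0), (0, 2)], [], [(0, 0, []), (1, 0, []), (2, 2, [4, 5])]⟩,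
    ⟨[(0, 1)], [(0, 0), (1, 0), (1, 1), (1, 2), (1, 4), (1, 5)], [(0, 1), (0, 4), (0, 5),
      (1, 4), (1, 5), (4, 5)], [], [(1, 0, []), (3, 4, [2]), (4, 5, [2]), (5, 1, [])]⟩,
    ⟨[(0, 1)], [(0, 0), (0, 1), (1, 0), (2, 0)], [(0, 0), (0, 1)], [6], [(0, 0, []), (1, 0,
      []), (6, 1, [])]⟩,
    ⟨[(0, 1), (1, 2)], [(1, 0), (1, 1), (1, 2), (2, 0), (2, 1), (2, 2), (2, 4), (2, 5), (3,
      1)], [(1, 1), (1, 2)], [3], [(2, 2, [4, 5]), (5, 1, []), (6, 1, [])]⟩,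
    ⟨[(1, 4), (2, 4)], [(3, 1), (4, 1), (4, 2)], [], [3, 7], [(6, 1, [])]⟩]
  Ta := [((0, 2), 0, 2), ((0, 6), 0, 1), ((1, 3), 0, 4), ((1, 7), 0, 6), ((5, 4), 1, 5), ((5, 8),
    1, 3), ((6, 0), 1, 0), ((6, 2), 1, 2), ((6, 7), 1, 6), ((6, 9), 1, 7)]
  Tb := [((0, 2, 6), 0, 2, 1), ((1, 3, 7), 0, 4, 6), ((2, 0, 6), 2, 0, 1), ((3, 1, 4), 4, 0, 5),
    ((4, 3, 5), 5, 4, 1), ((5, 4, 8), 1, 5, 3), ((6, 0, 2), 1, 0, 2), ((6, 0, 7), 1, 0, 6),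
    ((6, 0, 9), 1, 0, 7), ((6, 2, 7), 1, 2, 6), ((6, 2, 9), 1, 2, 7), ((6, 7, 9), 1, 6, 7),
    ((7, 1, 6), 6, 0, 1), ((8, 5, 9), 3, 1, 7), ((9, 6, 8), 7, 1, 3)]
  Tc := [(2, 4, 5)]
  Td := [((2, 4), (2, 0), 0), ((2, 4), (2, 6), 1), ((2, 5), (2, 0), 0), ((2, 5), (2, 6), 1), ((4,
    2), (3, 1), 0), ((4, 2), (3, 4), 5), ((5, 2), (4, 3), 4), ((5, 2), (4, 5), 1)]
  G := [[0, 0, 0x282854e184, 0, 0xc592428], [0, 0x6464a2a8a8a2c4, 0x95c95cc122, 0xc95c95c282,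
    0xc59c59c422], [0, 0, 0, 0, 0xc592428], [0, 0, 0, 0xc59c59c248, 0xc59c59c422]]

noncomputable def n1212 : Ent := ⟨e1212, noF, [], [], [(13, 15, [360035742630636841211993100915356868655746945586763691012632577, 0])]⟩

def c1212 : PLift (Cov.check n1212.C.D v1212 = true) := ⟨by decide +kernel⟩

def b1212 : PLift (entF (fidx ts) 400 1212 n1212 = true) := ⟨by decide +kernel⟩

theorem g1212 : GoodF (fidx ts) 400 1212 := GoodF.ofV v1212 n1212 c1212.down b1212.down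

/-- 466574:991/5 -/
noncomputable def e1213 : SCfg where
  D := {
    a := 6
    L := 10
    kp := 7
    inn := [(0, 1), (0, 3), (1, 0), (1, 2), (1, 4), (2, 1), (2, 4), (3, 0), (4, 1), (4, 2), (4, 5), (5,
      4)]
    mix := [(0, 0), (0, 1), (1, 0), (1, 1), (1, 2), (2, 1), (2, 3), (2, 4), (2, 5), (3, 0), (3, 1), (3,
      3), (3, 6), (4, 2), (4, 5), (4, 7), (4, 8), (5, 7), (5, 8), (5, 9)]
    cl := [0, 0, 2, 3, 5, 1, 6, 4, 1, 7]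
    chq := [(2, 3), (2, 5), (3, 2), (5, 2)]
    rng := [(0, 2), (0, 6), (1, 3), (2, 0), (2, 8), (3, 1), (3, 4), (3, 6), (4, 3), (4, 5), (5, 4), (5,
      7), (6, 0), (6, 3), (7, 5), (7, 9), (8, 2), (8, 9), (9, 7), (9, 8)]
    lev := [] }
  links := [[1, 6, 3, 7], [6, 0, 7, 2, 4, 8], [4, 1, 7, 9, 10, 11], [7, 0, 6, 12, 9], [8, 1, 2, 11, 13,
    5, 14], [14, 4, 13, 15]]
  P := {
    a := 6
    N := 16
    nb := [202, 469, 3730, 4801, 26918, 57360, 4363, 527, 16466, 5260, 2564, 9236, 584, 34864, 33072,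
      24608]
    tri := [(0, 1, 6), (0, 1, 7), (0, 3, 6), (0, 3, 7), (1, 2, 4), (1, 2, 7), (1, 4, 8), (1, 6, 8), (2,
      4, 11), (2, 7, 9), (2, 9, 10), (2, 10, 11), (3, 6, 12), (3, 7, 9), (3, 9, 12), (4, 5, 13),
      (4, 5, 14), (4, 8, 14), (4, 11, 13), (5, 13, 15), (5, 14, 15)]
    fin := [0, 1, 1, 0, 4, 4, 0, 0, 1, 9, 10, 4, 12, 13, 4, 15]
    chd := [(1, 9), (1, 10)]
    steps := [(0, 3), (0, 6), (0, 7), (1, 2), (1, 8), (4, 5), (4, 11), (4, 14)] }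
  rep := [0, 4, 1, 9, 13, 10, 12, 15]

noncomputable def v1213 : Cov.CovD where
  P := 3
  N := 5
  pl := [6, 7, 9]
  lev := [⟨[], [], [(0, 0)], [], [(0, 0, []), (1, 0, [])]⟩,
    ⟨[], [(0, 0), (0, 2)], [(0, 0), (0, 2)], [], [(0, 0, []), (1, 0, []), (2, 2, [3, 5])]⟩,
    ⟨[(0, 1)], [(0, 0), (1, 0), (1, 1), (1, 2), (1, 3), (1, 5)], [(0, 1), (0, 3), (0, 5),
      (1, 3), (1, 5), (3, 5)], [], [(1, 0, []), (3, 3, [2]), (4, 5, [2]), (5, 1, [])]⟩,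
    ⟨[(0, 1)], [(0, 0), (0, 3), (1, 0), (2, 0), (2, 3)], [(0, 0), (0, 3)], [6], [(0, 0,
      []), (1, 0, []), (3, 3, [2])]⟩,
    ⟨[(0, 1), (1, 2)], [(1, 0), (1, 1), (1, 2), (2, 0), (2, 1), (2, 2), (2, 3), (2, 5)],
      [(1, 1), (1, 2)], [4], [(2, 2, [3, 5]), (5, 1, []), (8, 1, [])]⟩,
    ⟨[(1, 4), (2, 4)], [(4, 1), (4, 2)], [], [4, 7], [(8, 1, [])]⟩]
  Ta := [((0, 2), 0, 2), ((0, 6), 0, 6), ((1, 3), 0, 3), ((5, 4), 1, 5), ((5, 7), 1, 4), ((8, 2),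
    1, 2), ((8, 9), 1, 7)]
  Tb := [((0, 2, 6), 0, 2, 6), ((2, 0, 8), 2, 0, 1), ((3, 1, 4), 3, 0, 5), ((3, 1, 6), 3, 0, 6),
    ((3, 4, 6), 3, 5, 6), ((4, 3, 5), 5, 3, 1), ((5, 4, 7), 1, 5, 4), ((6, 0, 3), 6, 0, 3),
    ((7, 5, 9), 4, 1, 7), ((8, 2, 9), 1, 2, 7), ((9, 7, 8), 7, 4, 1)]
  Tc := [(2, 3, 5)]
  Td := [((2, 3), (2, 0), 0), ((2, 3), (2, 8), 1), ((2, 5), (2, 0), 0), ((2, 5), (2, 8), 1), ((3,
    2), (3, 1), 0), ((3, 2), (3, 4), 5), ((3, 2), (3, 6), 6), ((5, 2), (4, 3), 3), ((5, 2),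
    (4, 5), 1)]
  G := [[0, 0x71c16c71ce284, 0x2bc25c25ce184, 0, 0xc29369369e428], [0, 0x446444e2a2ca8a2ce2c2,
    0x95c95c95ce124, 0xc59c59c59e248, 0xc59c59c59e424], [0, 0x35c35c16ce284, 0, 0,
    0x259639259e482], [0, 0x644426ce2a8a2c88e2c2, 0, 0xc95c9562c5982c4, 0xc59c59c59e428]]

noncomputable def n1213 : Ent := ⟨e1213, noF, [], [], [(12, 15, [360035742630636841211993100915356868655746945586763691012624385, 0])]⟩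

def c1213 : PLift (Cov.check n1213.C.D v1213 = true) := ⟨by decide +kernel⟩

def b1213 : PLift (entF (fidx ts) 400 1213 n1213 = true) := ⟨by decide +kernel⟩

theorem g1213 : GoodF (fidx ts) 400 1213 := GoodF.ofV v1213 n1213 c1213.down b1213.down

/-- 466574:991/6 -/
noncomputable def e1214 : SCfg where
  D := {
    a := 6
    L := 10
    kp := 7
    inn := [(0, 1), (0, 3), (1, 0), (1, 2), (1, 4), (2, 1), (2, 4), (3, 0), (4, 1), (4, 2), (4, 5), (5,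
      4)]
    mix := [(0, 0), (0, 1), (1, 0), (1, 1), (1, 2), (2, 1), (2, 3), (2, 4), (2, 5), (3, 0), (3, 1), (3,
      6), (3, 7), (4, 2), (4, 5), (4, 8), (4, 9), (5, 7), (5, 8), (5, 9)]
    cl := [0, 0, 1, 5, 6, 3, 7, 2, 4, 3]
    chq := [(1, 5), (1, 6), (5, 1), (6, 1)]
    rng := [(0, 2), (0, 6), (1, 3), (1, 7), (2, 0), (2, 9), (3, 1), (3, 4), (4, 3), (4, 5), (5, 4), (5,
      8), (6, 0), (6, 7), (7, 1), (7, 6), (7, 8), (7, 9), (8, 5), (8, 7), (9, 2), (9, 7)]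
    lev := [] }
  links := [[1, 6, 3, 7], [6, 0, 7, 2, 4, 8], [4, 1, 7, 9, 10, 11], [7, 0, 6, 12, 13], [8, 1, 2, 11, 14,
    5, 15], [15, 4, 14, 13]]
  P := {
    a := 6
    N := 16
    nb := [202, 469, 3730, 12481, 51494, 57360, 4363, 8719, 32850, 1156, 2564, 17428, 8264, 53416,
      10288, 8496]
    tri := [(0, 1, 6), (0, 1, 7), (0, 3, 6), (0, 3, 7), (1, 2, 4), (1, 2, 7), (1, 4, 8), (1, 6, 8), (2,
      4, 11), (2, 7, 9), (2, 9, 10), (2, 10, 11), (3, 6, 12), (3, 7, 13), (3, 12, 13), (4, 5, 14),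
      (4, 5, 15), (4, 8, 15), (4, 11, 14), (5, 13, 14), (5, 13, 15)]
    fin := [0, 1, 1, 0, 4, 5, 0, 0, 1, 9, 10, 4, 12, 5, 14, 4]
    chd := [(1, 9), (1, 10)]
    steps := [(0, 3), (0, 6), (0, 7), (1, 2), (1, 8), (4, 11), (4, 15), (5, 13)] }
  rep := [0, 1, 5, 4, 14, 9, 10, 12]

noncomputable def v1214 : Cov.CovD where
  P := 3
  N := 5
  pl := [6, 7, 8]
  lev := [⟨[], [], [(0, 0)], [], [(0, 0, []), (1, 0, [])]⟩,
    ⟨[], [(0, 0), (0, 1)], [(0, 0), (0, 1)], [], [(0, 0, []), (1, 0, []), (2, 1, [5, 6])]⟩,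
    ⟨[(0, 1)], [(0, 0), (1, 0), (1, 1), (1, 3), (1, 5), (1, 6)], [(0, 3), (0, 5), (0, 6),
      (3, 5), (3, 6), (5, 6)], [], [(1, 0, []), (3, 5, [1]), (4, 6, [1]), (5, 3, [])]⟩,
    ⟨[(0, 1)], [(0, 0), (1, 0), (2, 0)], [(0, 0)], [2, 7], [(0, 0, []), (1, 0, [])]⟩,
    ⟨[(0, 1), (1, 2)], [(1, 0), (1, 1), (1, 3), (2, 0), (2, 1), (2, 3), (2, 5), (2, 6)],
      [(1, 3), (3, 3)], [4], [(2, 1, [5, 6]), (5, 3, []), (9, 3, [])]⟩,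
    ⟨[(1, 4), (2, 4)], [(4, 1), (4, 3)], [], [2, 4], [(9, 3, [])]⟩]
  Ta := [((0, 2), 0, 1), ((0, 6), 0, 7), ((1, 3), 0, 5), ((1, 7), 0, 2), ((5, 4), 3, 6), ((5, 8),
    3, 4), ((9, 2), 3, 1), ((9, 7), 3, 2)]
  Tb := [((0, 2, 6), 0, 1, 7), ((1, 3, 7), 0, 5, 2), ((2, 0, 9), 1, 0, 3), ((3, 1, 4), 5, 0, 6),
    ((4, 3, 5), 6, 5, 3), ((5, 4, 8), 3, 6, 4), ((6, 0, 7), 7, 0, 2), ((7, 1, 6), 2, 0, 7),
    ((7, 1, 8), 2, 0, 4), ((7, 1, 9), 2, 0, 3), ((7, 6, 8), 2, 7, 4), ((7, 6, 9), 2, 7, 3),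
    ((7, 8, 9), 2, 4, 3), ((8, 5, 7), 4, 3, 2), ((9, 2, 7), 3, 1, 2)]
  Tc := [(1, 5, 6)]
  Td := [((1, 5), (2, 0), 0), ((1, 5), (2, 9), 3), ((1, 6), (2, 0), 0), ((1, 6), (2, 9), 3), ((5,
    1), (3, 1), 0), ((5, 1), (3, 4), 6), ((6, 1), (4, 3), 5), ((6, 1), (4, 5), 3)]
  G := [[0, 0x441e44cec184, 0, 0x891d891dc242, 0x821d832da248], [0, 0x149e149ec184, 0,
    0x4154281988c2c44828a, 0x821d2a1da242], [0, 0, 0xc1a1a244, 0x541d541dc282,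
    0x828d298da242], [0, 0, 0xe1e1c242, 0x8888c24415415c28c, 0x821d821da248]]

noncomputable def n1214 : Ent := ⟨e1214, noF, [], [], [(12, 15, [360035742630636841211993100915356868655746945586763691012632577, 0])]⟩

def c1214 : PLift (Cov.check n1214.C.D v1214 = true) := ⟨by decide +kernel⟩

def b1214 : PLift (entF (fidx ts) 400 1214 n1214 = true) := ⟨by decide +kernel⟩

theorem g1214 : GoodF (fidx ts) 400 1214 := GoodF.ofV v1214 n1214 c1214.down b1214.down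

/-- 466574:991 -/
noncomputable def e1215 : SCfg where
  D := {
    a := 6
    L := 11
    kp := 8
    inn := [(0, 1), (0, 3), (1, 0), (1, 2), (1, 4), (2, 1), (2, 4), (3, 0), (4, 1), (4, 2), (4, 5), (5,
      4)]
    mix := [(0, 0), (0, 1), (1, 0), (1, 1), (1, 2), (2, 1), (2, 3), (2, 4), (2, 5), (3, 0), (3, 1), (3,
      6), (3, 7), (4, 2), (4, 5), (4, 8), (4, 9), (5, 8), (5, 9), (5, 10)]
    cl := [0, 0, 2, 4, 5, 1, 6, 7, 3, 1, 8]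
    chq := [(2, 4), (2, 5), (4, 2), (5, 2)]
    rng := [(0, 2), (0, 6), (1, 3), (1, 7), (2, 0), (2, 9), (3, 1), (3, 4), (4, 3), (4, 5), (5, 4), (5,
      8), (6, 0), (6, 7), (7, 1), (7, 6), (8, 5), (8, 10), (9, 2), (9, 10), (10, 8), (10, 9)]
    lev := [] }
  links := [[1, 6, 3, 7], [6, 0, 7, 2, 4, 8], [4, 1, 7, 9, 10, 11], [7, 0, 6, 12, 13], [8, 1, 2, 11, 14,
    5, 15], [15, 4, 14, 16]]
  P := {
    a := 6
    N := 17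
    nb := [202, 469, 3730, 12481, 51494, 114704, 4363, 8719, 32850, 1156, 2564, 17428, 8264, 4232,
      67632, 65840, 49184]
    tri := [(0, 1, 6), (0, 1, 7), (0, 3, 6), (0, 3, 7), (1, 2, 4), (1, 2, 7), (1, 4, 8), (1, 6, 8), (2,
      4, 11), (2, 7, 9), (2, 9, 10), (2, 10, 11), (3, 6, 12), (3, 7, 13), (3, 12, 13), (4, 5, 14),
      (4, 5, 15), (4, 8, 15), (4, 11, 14), (5, 14, 16), (5, 15, 16)]
    fin := [0, 1, 1, 0, 4, 4, 0, 0, 1, 9, 10, 4, 12, 13, 14, 4, 16]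
    chd := [(1, 9), (1, 10)]
    steps := [(0, 3), (0, 6), (0, 7), (1, 2), (1, 8), (4, 5), (4, 11), (4, 15)] }
  rep := [0, 4, 1, 14, 9, 10, 12, 13, 16]

noncomputable def v1215 : Cov.CovD where
  P := 3
  N := 6
  pl := [6, 7, 8, 10]
  lev := [⟨[], [], [(0, 0)], [], [(0, 0, []), (1, 0, [])]⟩,
    ⟨[], [(0, 0), (0, 2)], [(0, 0), (0, 2)], [], [(0, 0, []), (1, 0, []), (2, 2, [4, 5])]⟩,
    ⟨[(0, 1)], [(0, 0), (1, 0), (1, 1), (1, 2), (1, 4), (1, 5)], [(0, 1), (0, 4), (0, 5),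
      (1, 4), (1, 5), (4, 5)], [], [(1, 0, []), (3, 4, [2]), (4, 5, [2]), (5, 1, [])]⟩,
    ⟨[(0, 1)], [(0, 0), (1, 0), (2, 0)], [(0, 0)], [6, 7], [(0, 0, []), (1, 0, [])]⟩,
    ⟨[(0, 1), (1, 2)], [(1, 0), (1, 1), (1, 2), (2, 0), (2, 1), (2, 2), (2, 4), (2, 5)],
      [(1, 1), (1, 2)], [3], [(2, 2, [4, 5]), (5, 1, []), (9, 1, [])]⟩,
    ⟨[(1, 4), (2, 4)], [(4, 1), (4, 2)], [], [3, 8], [(9, 1, [])]⟩]
  Ta := [((0, 2), 0, 2), ((0, 6), 0, 6), ((1, 3), 0, 4), ((1, 7), 0, 7), ((5, 4), 1, 5), ((5, 8),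
    1, 3), ((9, 2), 1, 2), ((9, 10), 1, 8)]
  Tb := [((0, 2, 6), 0, 2, 6), ((1, 3, 7), 0, 4, 7), ((2, 0, 9), 2, 0, 1), ((3, 1, 4), 4, 0, 5),
    ((4, 3, 5), 5, 4, 1), ((5, 4, 8), 1, 5, 3), ((6, 0, 7), 6, 0, 7), ((7, 1, 6), 7, 0, 6),
    ((8, 5, 10), 3, 1, 8), ((9, 2, 10), 1, 2, 8), ((10, 8, 9), 8, 3, 1)]
  Tc := [(2, 4, 5)]
  Td := [((2, 4), (2, 0), 0), ((2, 4), (2, 9), 1), ((2, 5), (2, 0), 0), ((2, 5), (2, 9), 1), ((4,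
    2), (3, 1), 0), ((4, 2), (3, 4), 5), ((5, 2), (4, 3), 4), ((5, 2), (4, 5), 1)]
  G := [[0, 0x71c16c1dce284, 0x92c25c92ce124, 0, 0x259259729e484], [0, 0x646462a2ca8a8e2c44828c,
    0x95c95c95ce128, 0xc95c95c95e282, 0xc59c59c59e428], [0, 0x16c59c1dce282, 0, 0,
    0x259c29a69e428], [0, 0x884246426c64e2a8a8a2cc, 0, 0xc95c9562c5982c2, 0xc59c59c59e424]]

noncomputable def n1215 : Ent := ⟨e1215, noF, [], [], [(12, 16, [1580044410770988437309982408355971841652082177953823432505694068737, 0]), (12, 15, [1685356702439545624007900436039642273970977273354372543760005054465, 0]), (13, 9, [1685382419725355503239079074249703278272850187577719106355428315137, 0]), (13, 16, [1580044410770988437309982408355971841652082177953823432505694085121, 0])]⟩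

def c1215 : PLift (Cov.check n1215.C.D v1215 = true) := ⟨by decide +kernel⟩

def b1215 : PLift (entF (fidx ts) 400 1215 n1215 = true) := ⟨by decide +kernel⟩

theorem g1215 : GoodF (fidx ts) 400 1215 := GoodF.ofV v1215 n1215 c1215.down b1215.down

/-- 459454:993/1 -/
noncomputable def e1216 : SCfg where
  D := {
    a := 6
    L := 9
    kp := 6
    inn := [(0, 1), (0, 2), (1, 0), (1, 2), (2, 0), (2, 1), (2, 3), (2, 4), (3, 2), (4, 2), (4, 5), (5,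
      4)]
    mix := [(0, 0), (0, 1), (1, 1), (1, 2), (1, 3), (2, 0), (2, 3), (2, 4), (2, 5), (2, 6), (3, 0), (3,
      6), (3, 7), (4, 3), (4, 4), (4, 8), (5, 2), (5, 3), (5, 8)]
    cl := [0, 1, 2, 0, 0, 5, 3, 6, 4]
    chq := [(0, 3), (3, 0)]
    rng := [(0, 1), (0, 7), (1, 0), (1, 2), (2, 1), (2, 3), (2, 8), (3, 2), (4, 5), (4, 8), (5, 4), (5,
      6), (6, 5), (6, 7), (7, 0), (7, 6), (8, 2), (8, 4)]
    lev := [] }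
  links := [[1, 2, 6, 7], [2, 0, 7, 8, 9], [6, 0, 1, 9, 4, 10, 11, 12, 3], [6, 2, 12, 13], [10, 2, 9, 5,
    14], [14, 4, 9, 8]]
  P := {
    a := 6
    N := 15
    nb := [198, 901, 7771, 12356, 17956, 17168, 8333, 323, 17058, 310, 18452, 5124, 10252, 4168, 1328]
    tri := [(0, 1, 2), (0, 1, 7), (0, 2, 6), (0, 6, 7), (1, 2, 9), (1, 7, 8), (1, 8, 9), (2, 3, 6), (2,
      3, 12), (2, 4, 9), (2, 4, 10), (2, 10, 11), (2, 11, 12), (3, 6, 13), (3, 12, 13), (4, 5, 9),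
      (4, 5, 14), (4, 10, 14), (5, 8, 9), (5, 8, 14)]
    fin := [0, 0, 0, 0, 0, 0, 0, 7, 8, 0, 0, 11, 12, 13, 14]
    chd := [(0, 12)]
    steps := [(0, 1), (0, 2), (0, 3), (0, 4), (0, 6), (0, 9), (0, 5), (0, 10)] }
  rep := [0, 7, 8, 12, 14, 11, 13]

noncomputable def v1216 : Cov.CovD where
  P := 3
  N := 4
  pl := [1, 2, 5, 7, 8]
  lev := [⟨[], [], [], [1], [(0, 0, [3])]⟩,
    ⟨[], [(0, 0)], [], [1, 2], [(3, 0, [3])]⟩,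
    ⟨[(0, 1)], [(0, 0), (0, 3), (1, 0), (1, 3)], [(0, 0), (0, 3)], [5], [(0, 0, [3]), (3,
      0, [3]), (4, 0, [3]), (6, 3, [0])]⟩,
    ⟨[(0, 2), (1, 2)], [(0, 0), (2, 0), (2, 3)], [(0, 3)], [6], [(0, 0, [3]), (6, 3, [0])]⟩,
    ⟨[(0, 2), (1, 2), (2, 3)], [(1, 0), (2, 0), (2, 3)], [(0, 0)], [4], [(3, 0, [3]), (4,
      0, [3])]⟩,
    ⟨[(2, 4)], [(1, 0), (2, 0), (4, 0)], [], [2, 4], [(3, 0, [3])]⟩]
  Ta := [((0, 1), 0, 1), ((0, 7), 0, 6), ((3, 2), 0, 2), ((4, 5), 0, 5), ((4, 8), 0, 4)]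
  Tb := [((0, 1, 7), 0, 1, 6), ((1, 0, 2), 1, 0, 2), ((2, 1, 3), 2, 1, 0), ((2, 1, 8), 2, 1, 4),
    ((2, 3, 8), 2, 0, 4), ((4, 5, 8), 0, 5, 4), ((5, 4, 6), 5, 0, 3), ((6, 5, 7), 3, 5, 6),
    ((7, 0, 6), 6, 0, 3), ((8, 2, 4), 4, 2, 0)]
  Tc := []
  Td := [((0, 3), (0, 1), 1), ((0, 3), (0, 7), 6), ((0, 3), (3, 2), 2), ((0, 3), (4, 5), 5), ((0,
    3), (4, 8), 4), ((3, 0), (6, 5), 5), ((3, 0), (6, 7), 6)]
  G := [[0, 0x11611611ae18684c11cea418641a81ce486, 0, 0x121212e121281ce68121212e84c,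
    0x82a82a82ae82c82c82ce61826826826e81c], [0, 0, 0x826182a14861e48,
    0x1284a3412c251284c9ac4, 0x128268267882282ab1482c5e84], [0, 0, 0, 0x1252912925ac2c23454,
    0x81c81c3282682658268269c98]]

noncomputable def n1216 : Ent := ⟨e1216, noF, [], [], []⟩

def c1216 : PLift (Cov.check n1216.C.D v1216 = true) := ⟨by decide +kernel⟩

def b1216 : PLift (entF (fidx ts) 400 1216 n1216 = true) := ⟨by decide +kernel⟩

theorem g1216 : GoodF (fidx ts) 400 1216 := GoodF.ofV v1216 n1216 c1216.down b1216.down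

/-- 459454:993 -/
noncomputable def e1217 : SCfg where
  D := {
    a := 6
    L := 10
    kp := 7
    inn := [(0, 1), (0, 2), (1, 0), (1, 2), (2, 0), (2, 1), (2, 3), (2, 4), (3, 2), (4, 2), (4, 5), (5,
      4)]
    mix := [(0, 0), (0, 1), (1, 1), (1, 2), (1, 3), (2, 0), (2, 3), (2, 4), (2, 5), (2, 6), (3, 0), (3,
      6), (3, 7), (4, 3), (4, 4), (4, 8), (5, 3), (5, 8), (5, 9)]
    cl := [0, 1, 2, 0, 0, 5, 3, 6, 4, 7]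
    chq := [(0, 3), (3, 0)]
    rng := [(0, 1), (0, 7), (1, 0), (1, 2), (2, 1), (2, 3), (3, 2), (3, 9), (4, 5), (4, 8), (5, 4), (5,
      6), (6, 5), (6, 7), (7, 0), (7, 6), (8, 4), (8, 9), (9, 3), (9, 8)]
    lev := [] }
  links := [[1, 2, 6, 7], [2, 0, 7, 8, 9], [6, 0, 1, 9, 4, 10, 11, 12, 3], [6, 2, 12, 13], [10, 2, 9, 5,
    14], [14, 4, 9, 15]]
  P := {
    a := 6
    N := 16
    nb := [198, 901, 7771, 12356, 17956, 49680, 8333, 323, 642, 33078, 18452, 5124, 10252, 4168,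
      33840, 16928]
    tri := [(0, 1, 2), (0, 1, 7), (0, 2, 6), (0, 6, 7), (1, 2, 9), (1, 7, 8), (1, 8, 9), (2, 3, 6), (2,
      3, 12), (2, 4, 9), (2, 4, 10), (2, 10, 11), (2, 11, 12), (3, 6, 13), (3, 12, 13), (4, 5, 9),
      (4, 5, 14), (4, 10, 14), (5, 9, 15), (5, 14, 15)]
    fin := [0, 0, 0, 0, 0, 0, 0, 7, 8, 0, 0, 11, 12, 13, 14, 15]
    chd := [(0, 12)]
    steps := [(0, 1), (0, 2), (0, 3), (0, 4), (0, 5), (0, 6), (0, 9), (0, 10)] }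
  rep := [0, 7, 8, 12, 14, 11, 13, 15]

noncomputable def v1217 : Cov.CovD where
  P := 3
  N := 5
  pl := [1, 2, 5, 7, 8, 9]
  lev := [⟨[], [], [], [1], [(0, 0, [3])]⟩,
    ⟨[], [(0, 0)], [], [1, 2], [(3, 0, [3])]⟩,
    ⟨[(0, 1)], [(0, 0), (0, 3), (1, 0), (1, 3)], [(0, 0), (0, 3)], [5], [(0, 0, [3]), (3,
      0, [3]), (4, 0, [3]), (6, 3, [0])]⟩,
    ⟨[(0, 2), (1, 2)], [(0, 0), (2, 0), (2, 3)], [(0, 3)], [6], [(0, 0, [3]), (6, 3, [0])]⟩,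
    ⟨[(0, 2), (1, 2), (2, 3)], [(1, 0), (2, 0), (2, 3)], [(0, 0)], [4], [(3, 0, [3]), (4,
      0, [3])]⟩,
    ⟨[(2, 4)], [(1, 0), (2, 0), (4, 0)], [], [4, 7], [(3, 0, [3])]⟩]
  Ta := [((0, 1), 0, 1), ((0, 7), 0, 6), ((3, 2), 0, 2), ((3, 9), 0, 7), ((4, 5), 0, 5), ((4, 8),
    0, 4)]
  Tb := [((0, 1, 7), 0, 1, 6), ((1, 0, 2), 1, 0, 2), ((2, 1, 3), 2, 1, 0), ((3, 2, 9), 0, 2, 7),
    ((4, 5, 8), 0, 5, 4), ((5, 4, 6), 5, 0, 3), ((6, 5, 7), 3, 5, 6), ((7, 0, 6), 6, 0, 3),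
    ((8, 4, 9), 4, 0, 7), ((9, 3, 8), 7, 0, 4)]
  Tc := []
  Td := [((0, 3), (0, 1), 1), ((0, 3), (0, 7), 6), ((0, 3), (3, 2), 2), ((0, 3), (3, 9), 7), ((0,
    3), (4, 5), 5), ((0, 3), (4, 8), 4), ((3, 0), (6, 5), 5), ((3, 0), (6, 7), 6)]
  G := [[0, 0x11611611ae11611c11cea411611a11ce486, 0, 0x11611a11ae4811611a11ce11a11a11cea4c,
    0x11a11a11ae11a11611ce68ca6ca6ca6e81c], [0, 0, 0xca61c6a1a6c1e84,
    0x116ca6511ac6a911ca6c3e48, 0x1a6ca6311ac6a9116a6c5e84], [0, 0, 0,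
    0x11a16a34121416cd18121874fac4, 0x14c165121816ab18a1c16c7e84]]

noncomputable def n1217 : Ent := ⟨e1217, noF, [], [], [(8, 15, [360035742630636841211993100915356868655746945586763691012653057, 0])]⟩

def c1217 : PLift (Cov.check n1217.C.D v1217 = true) := ⟨by decide +kernel⟩

def b1217 : PLift (entF (fidx ts) 400 1217 n1217 = true) := ⟨by decide +kernel⟩

theorem g1217 : GoodF (fidx ts) 400 1217 := GoodF.ofV v1217 n1217 c1217.down b1217.down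

/-- 459454:994/1 -/
noncomputable def e1218 : SCfg where
  D := {
    a := 6
    L := 9
    kp := 6
    inn := [(0, 1), (0, 2), (1, 0), (1, 2), (2, 0), (2, 1), (2, 3), (2, 4), (3, 2), (4, 2), (4, 5), (5,
      4)]
    mix := [(0, 0), (0, 1), (1, 1), (1, 2), (1, 3), (2, 0), (2, 3), (2, 4), (2, 5), (2, 6), (3, 0), (3,
      6), (3, 7), (4, 2), (4, 3), (4, 4), (5, 2), (5, 4), (5, 8)]
    cl := [0, 1, 3, 0, 0, 2, 4, 5, 6]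
    chq := [(0, 4), (4, 0)]
    rng := [(0, 1), (0, 7), (1, 0), (1, 2), (2, 1), (2, 3), (2, 8), (3, 2), (4, 5), (4, 8), (5, 4), (5,
      6), (6, 5), (6, 7), (7, 0), (7, 6), (8, 2), (8, 4)]
    lev := [] }
  links := [[1, 2, 6, 7], [2, 0, 7, 8, 9], [6, 0, 1, 9, 4, 10, 11, 12, 3], [6, 2, 12, 13], [10, 2, 9, 8,
    5], [10, 4, 8, 14]]
  P := {
    a := 6
    N := 15
    nb := [198, 901, 7771, 12356, 1828, 17680, 8333, 323, 17074, 278, 18484, 5124, 10252, 4168, 1312]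
    tri := [(0, 1, 2), (0, 1, 7), (0, 2, 6), (0, 6, 7), (1, 2, 9), (1, 7, 8), (1, 8, 9), (2, 3, 6), (2,
      3, 12), (2, 4, 9), (2, 4, 10), (2, 10, 11), (2, 11, 12), (3, 6, 13), (3, 12, 13), (4, 5, 8),
      (4, 5, 10), (4, 8, 9), (5, 8, 14), (5, 10, 14)]
    fin := [0, 0, 0, 0, 0, 0, 0, 7, 8, 0, 0, 11, 12, 13, 14]
    chd := [(0, 12)]
    steps := [(0, 1), (0, 2), (0, 3), (0, 6), (0, 9), (0, 4), (0, 5), (0, 10)] }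
  rep := [0, 7, 11, 8, 12, 13, 14]

noncomputable def v1218 : Cov.CovD where
  P := 3
  N := 4
  pl := [1, 2, 5, 7, 8]
  lev := [⟨[], [], [], [1], [(0, 0, [4])]⟩,
    ⟨[], [(0, 0)], [], [1, 3], [(3, 0, [4])]⟩,
    ⟨[(0, 1)], [(0, 0), (0, 4), (1, 0), (1, 4)], [(0, 0), (0, 4)], [2], [(0, 0, [4]), (3,
      0, [4]), (4, 0, [4]), (6, 4, [0])]⟩,
    ⟨[(0, 2), (1, 2)], [(0, 0), (2, 0), (2, 4)], [(0, 4)], [5], [(0, 0, [4]), (6, 4, [0])]⟩,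
    ⟨[(0, 2), (1, 2), (2, 3)], [(1, 0), (2, 0), (2, 4)], [(0, 0)], [3], [(3, 0, [4]), (4,
      0, [4])]⟩,
    ⟨[(2, 4)], [(2, 0), (4, 0)], [], [3, 6], [(4, 0, [4])]⟩]
  Ta := [((0, 1), 0, 1), ((0, 7), 0, 5), ((3, 2), 0, 3), ((4, 5), 0, 2), ((4, 8), 0, 6)]
  Tb := [((0, 1, 7), 0, 1, 5), ((1, 0, 2), 1, 0, 3), ((2, 1, 3), 3, 1, 0), ((2, 1, 8), 3, 1, 6),
    ((2, 3, 8), 3, 0, 6), ((4, 5, 8), 0, 2, 6), ((5, 4, 6), 2, 0, 4), ((6, 5, 7), 4, 2, 5),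
    ((7, 0, 6), 5, 0, 4), ((8, 2, 4), 6, 3, 0)]
  Tc := []
  Td := [((0, 4), (0, 1), 1), ((0, 4), (0, 7), 5), ((0, 4), (3, 2), 3), ((0, 4), (4, 5), 2), ((0,
    4), (4, 8), 6), ((4, 0), (6, 5), 2), ((4, 0), (6, 7), 5)]
  G := [[0, 0x181864121264a1418a81212a86c, 0, 0x11a11c641116116a81c, 0x11611ac11611c6a14], [0,
    0, 0, 0x5214412a2927381c3414a8cc, 0x144141a4a21d8a86a1488cc], [0, 0, 0xc6a1a6c1614,
    0xca61c6ac6a6c18, 0xa8121812ca6714649a94]]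

noncomputable def n1218 : Ent := ⟨e1218, noF, [], [], []⟩

def c1218 : PLift (Cov.check n1218.C.D v1218 = true) := ⟨by decide +kernel⟩

def b1218 : PLift (entF (fidx ts) 400 1218 n1218 = true) := ⟨by decide +kernel⟩

theorem g1218 : GoodF (fidx ts) 400 1218 := GoodF.ofV v1218 n1218 c1218.down b1218.down

/-- 459454:994 -/
noncomputable def e1219 : SCfg where
  D := {
    a := 6
    L := 10
    kp := 7
    inn := [(0, 1), (0, 2), (1, 0), (1, 2), (2, 0), (2, 1), (2, 3), (2, 4), (3, 2), (4, 2), (4, 5), (5,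
      4)]
    mix := [(0, 0), (0, 1), (1, 1), (1, 2), (1, 3), (2, 0), (2, 3), (2, 4), (2, 5), (2, 6), (3, 0), (3,
      6), (3, 7), (4, 3), (4, 4), (4, 8), (5, 4), (5, 8), (5, 9)]
    cl := [0, 2, 4, 0, 0, 5, 1, 6, 3, 7]
    chq := [(0, 1), (1, 0)]
    rng := [(0, 1), (0, 7), (1, 0), (1, 2), (2, 1), (2, 3), (3, 2), (3, 8), (4, 5), (4, 9), (5, 4), (5,
      6), (6, 5), (6, 7), (7, 0), (7, 6), (8, 3), (8, 9), (9, 4), (9, 8)]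
    lev := [] }
  links := [[1, 2, 6, 7], [2, 0, 7, 8, 9], [6, 0, 1, 9, 4, 10, 11, 12, 3], [6, 2, 12, 13], [10, 2, 9, 14,
    5], [10, 4, 14, 15]]
  P := {
    a := 6
    N := 16
    nb := [198, 901, 7771, 12356, 17956, 50192, 8333, 323, 642, 16662, 34868, 5124, 10252, 4168,
      33328, 17440]
    tri := [(0, 1, 2), (0, 1, 7), (0, 2, 6), (0, 6, 7), (1, 2, 9), (1, 7, 8), (1, 8, 9), (2, 3, 6), (2,
      3, 12), (2, 4, 9), (2, 4, 10), (2, 10, 11), (2, 11, 12), (3, 6, 13), (3, 12, 13), (4, 5,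
      10), (4, 5, 14), (4, 9, 14), (5, 10, 15), (5, 14, 15)]
    fin := [0, 0, 0, 0, 0, 0, 0, 7, 8, 0, 0, 11, 12, 13, 14, 15]
    chd := [(0, 12)]
    steps := [(0, 1), (0, 2), (0, 3), (0, 4), (0, 5), (0, 6), (0, 9), (0, 10)] }
  rep := [0, 12, 7, 14, 8, 11, 13, 15]

noncomputable def v1219 : Cov.CovD where
  P := 3
  N := 5
  pl := [1, 2, 5, 7, 8, 9]
  lev := [⟨[], [], [], [2], [(0, 0, [1])]⟩,
    ⟨[], [(0, 0)], [], [2, 4], [(3, 0, [1])]⟩,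
    ⟨[(0, 1)], [(0, 0), (0, 1), (1, 0), (1, 1)], [(0, 0), (0, 1)], [5], [(0, 0, [1]), (3,
      0, [1]), (4, 0, [1]), (6, 1, [0])]⟩,
    ⟨[(0, 2), (1, 2)], [(0, 0), (2, 0), (2, 1)], [(0, 1)], [6], [(0, 0, [1]), (6, 1, [0])]⟩,
    ⟨[(0, 2), (1, 2), (2, 3)], [(1, 0), (2, 0), (2, 1)], [(0, 0)], [3], [(3, 0, [1]), (4,
      0, [1])]⟩,
    ⟨[(2, 4)], [(2, 0), (4, 0)], [], [3, 7], [(4, 0, [1])]⟩]
  Ta := [((0, 1), 0, 2), ((0, 7), 0, 6), ((3, 2), 0, 4), ((3, 8), 0, 3), ((4, 5), 0, 5), ((4, 9),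
    0, 7)]
  Tb := [((0, 1, 7), 0, 2, 6), ((1, 0, 2), 2, 0, 4), ((2, 1, 3), 4, 2, 0), ((3, 2, 8), 0, 4, 3),
    ((4, 5, 9), 0, 5, 7), ((5, 4, 6), 5, 0, 1), ((6, 5, 7), 1, 5, 6), ((7, 0, 6), 6, 0, 1),
    ((8, 3, 9), 3, 0, 7), ((9, 4, 8), 7, 0, 3)]
  Tc := []
  Td := [((0, 1), (0, 1), 2), ((0, 1), (0, 7), 6), ((0, 1), (3, 2), 4), ((0, 1), (3, 8), 3), ((0,
    1), (4, 5), 5), ((0, 1), (4, 9), 7), ((1, 0), (6, 5), 5), ((1, 0), (6, 7), 6)]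
  G := [[0, 0x11a411a21168e14, 0x11a11ac411a84c11611ac8116116c11a4c6a, 0x11a441116116c11a8c1c,
    0x116116c11c11acc12], [0, 0x11a411a211c8e14, 0, 0xc16116a1c4c16116a1c8c,
    0x956116a1c71a116a1ca2], [0, 0x1421218c1812ce18, 0, 0xca61c6a1c18, 0xca61c6a1c12]]

noncomputable def n1219 : Ent := ⟨e1219, noF, [], [], [(8, 14, [385746751338780685620664494392815470296102193487288376377483265, 0])]⟩

def c1219 : PLift (Cov.check n1219.C.D v1219 = true) := ⟨by decide +kernel⟩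

def b1219 : PLift (entF (fidx ts) 400 1219 n1219 = true) := ⟨by decide +kernel⟩

theorem g1219 : GoodF (fidx ts) 400 1219 := GoodF.ofV v1219 n1219 c1219.down b1219.down

/-- 459554:997/1 -/
noncomputable def e1220 : SCfg where
  D := {
    a := 6
    L := 10
    kp := 7
    inn := [(0, 1), (0, 2), (1, 0), (1, 2), (2, 0), (2, 1), (2, 3), (2, 4), (3, 2), (4, 2), (4, 5), (5,
      4)]
    mix := [(0, 0), (0, 1), (1, 1), (1, 2), (1, 3), (2, 0), (2, 3), (2, 4), (2, 5), (2, 6), (3, 0), (3,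
      6), (3, 7), (3, 8), (4, 3), (4, 4), (4, 9), (5, 2), (5, 3), (5, 9)]
    cl := [0, 2, 1, 3, 3, 5, 0, 6, 7, 4]
    chq := [(0, 1), (1, 0), (1, 5), (5, 1)]
    rng := [(0, 1), (0, 8), (1, 0), (1, 2), (2, 1), (2, 3), (2, 9), (3, 2), (4, 5), (4, 9), (5, 4), (5,
      6), (6, 5), (6, 7), (7, 6), (7, 8), (8, 0), (8, 7), (9, 2), (9, 4)]
    lev := [] }
  links := [[1, 2, 6, 7], [2, 0, 7, 8, 9], [6, 0, 1, 9, 4, 10, 11, 12, 3], [6, 2, 12, 13, 14], [10, 2, 9,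
    5, 15], [15, 4, 9, 8]]
  P := {
    a := 6
    N := 16
    nb := [198, 901, 7771, 28740, 34340, 33552, 16525, 323, 33442, 310, 34836, 5124, 10252, 20488,
      8264, 1328]
    tri := [(0, 1, 2), (0, 1, 7), (0, 2, 6), (0, 6, 7), (1, 2, 9), (1, 7, 8), (1, 8, 9), (2, 3, 6), (2,
      3, 12), (2, 4, 9), (2, 4, 10), (2, 10, 11), (2, 11, 12), (3, 6, 14), (3, 12, 13), (3, 13,
      14), (4, 5, 9), (4, 5, 15), (4, 10, 15), (5, 8, 9), (5, 8, 15)]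
    fin := [0, 1, 1, 0, 4, 1, 0, 7, 1, 4, 4, 11, 0, 13, 14, 15]
    chd := [(0, 1), (1, 11)]
    steps := [(0, 6), (0, 3), (0, 12), (1, 2), (1, 8), (4, 9), (1, 5), (4, 10)] }
  rep := [0, 1, 7, 4, 15, 11, 13, 14]

noncomputable def v1220 : Cov.CovD where
  P := 3
  N := 5
  pl := [1, 7, 8, 9]
  lev := [⟨[], [], [], [2], [(0, 0, [1])]⟩,
    ⟨[], [(0, 0), (0, 1), (0, 3)], [(1, 3)], [2], [(2, 1, [0, 5]), (3, 3, [])]⟩,
    ⟨[(0, 1)], [(0, 0), (0, 3), (0, 5), (1, 0), (1, 1), (1, 3), (1, 5)], [(0, 0), (0, 3),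
      (0, 5), (3, 3), (3, 5)], [], [(0, 0, [1]), (3, 3, []), (4, 3, []), (5, 5, [1]), (6, 0,
      [1])]⟩,
    ⟨[(0, 2), (1, 2)], [(0, 0), (2, 0), (2, 3), (2, 5)], [(0, 0)], [6, 7], [(0, 0, [1]),
      (6, 0, [1])]⟩,
    ⟨[(0, 2), (1, 2), (2, 3)], [(1, 3), (2, 0), (2, 3), (2, 5)], [(3, 3)], [4], [(3, 3,
      []), (4, 3, [])]⟩,
    ⟨[(2, 4)], [(1, 1), (1, 3), (2, 3), (4, 1), (4, 3)], [(1, 3)], [4], [(2, 1, [0, 5]),
      (3, 3, [])]⟩]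
  Ta := [((0, 1), 0, 2), ((0, 8), 0, 7), ((3, 2), 3, 1), ((4, 5), 3, 5), ((4, 9), 3, 4), ((6, 5),
    0, 5), ((6, 7), 0, 6)]
  Tb := [((0, 1, 8), 0, 2, 7), ((1, 0, 2), 2, 0, 1), ((2, 1, 3), 1, 2, 3), ((2, 1, 9), 1, 2, 4),
    ((2, 3, 9), 1, 3, 4), ((4, 5, 9), 3, 5, 4), ((5, 4, 6), 5, 3, 0), ((6, 5, 7), 0, 5, 6),
    ((7, 6, 8), 6, 0, 7), ((8, 0, 7), 7, 0, 6), ((9, 2, 4), 4, 1, 3)]
  Tc := [(1, 0, 5)]
  Td := [((0, 1), (0, 1), 2), ((0, 1), (0, 8), 7), ((0, 1), (6, 5), 5), ((0, 1), (6, 7), 6), ((1,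
    0), (2, 1), 2), ((1, 0), (2, 3), 3), ((1, 0), (2, 9), 4), ((1, 5), (2, 1), 2), ((1, 5),
    (2, 3), 3), ((1, 5), (2, 9), 4), ((5, 1), (5, 4), 3), ((5, 1), (5, 6), 0)]
  G := [[0, 0xe1e1e1e41e1e1e1ee1e1e1ea1c,
    0x8194819819819e6849841ba415415415e69228e485419415e84a, 0x81992819e241552415e2c4,
    0x84c84cc24132415415841de694854817681981984aec815889a], [0, 0x614616161e6a1a1a1ec161acc1,
    0x522522841d841d841dee84, 0xc2c2841de214, 0xc22c22841d841d441dee18], [0,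
    0xe14412c3e14a5ee1e1ae1e1e1ee1c, 0, 0x9211a21928862c25244e2c5,
    0x84c84c84ce2419a15a415415415e69815481768494c415889a], [0, 0xc1616616161e616161eea188c1,
    0, 0x5252841de284, 0x922522841d841d841dee81]]

noncomputable def n1220 : Ent := ⟨e1220, noF, [], [], []⟩

def c1220 : PLift (Cov.check n1220.C.D v1220 = true) := ⟨by decide +kernel⟩

def b1220 : PLift (entF (fidx ts) 400 1220 n1220 = true) := ⟨by decide +kernel⟩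

theorem g1220 : GoodF (fidx ts) 400 1220 := GoodF.ofV v1220 n1220 c1220.down b1220.down

/-- 459554:997 -/
noncomputable def e1221 : SCfg where
  D := {
    a := 6
    L := 11
    kp := 8
    inn := [(0, 1), (0, 2), (1, 0), (1, 2), (2, 0), (2, 1), (2, 3), (2, 4), (3, 2), (4, 2), (4, 5), (5,
      4)]
    mix := [(0, 0), (0, 1), (1, 1), (1, 2), (1, 3), (2, 0), (2, 3), (2, 4), (2, 5), (2, 6), (3, 0), (3,
      6), (3, 7), (3, 8), (4, 3), (4, 4), (4, 9), (5, 3), (5, 9), (5, 10)]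
    cl := [1, 2, 4, 0, 0, 5, 1, 6, 7, 3, 8]
    chq := [(1, 4), (4, 1), (4, 5), (5, 4)]
    rng := [(0, 1), (0, 8), (1, 0), (1, 2), (2, 1), (2, 3), (3, 2), (3, 10), (4, 5), (4, 9), (5, 4),
      (5, 6), (6, 5), (6, 7), (7, 6), (7, 8), (8, 0), (8, 7), (9, 4), (9, 10), (10, 3), (10, 9)]
    lev := [] }
  links := [[1, 2, 6, 7], [2, 0, 7, 8, 9], [6, 0, 1, 9, 4, 10, 11, 12, 3], [6, 2, 12, 13, 14], [10, 2, 9,
    5, 15], [15, 4, 9, 16]]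
  P := {
    a := 6
    N := 17
    nb := [198, 901, 7771, 28740, 34340, 98832, 16525, 323, 642, 65846, 34836, 5124, 10252, 20488,
      8264, 66608, 33312]
    tri := [(0, 1, 2), (0, 1, 7), (0, 2, 6), (0, 6, 7), (1, 2, 9), (1, 7, 8), (1, 8, 9), (2, 3, 6), (2,
      3, 12), (2, 4, 9), (2, 4, 10), (2, 10, 11), (2, 11, 12), (3, 6, 14), (3, 12, 13), (3, 13,
      14), (4, 5, 9), (4, 5, 15), (4, 10, 15), (5, 9, 16), (5, 15, 16)]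
    fin := [0, 1, 1, 0, 4, 4, 0, 7, 1, 4, 4, 11, 0, 13, 14, 15, 16]
    chd := [(0, 1), (1, 11)]
    steps := [(0, 6), (0, 3), (0, 12), (1, 2), (1, 8), (4, 5), (4, 9), (4, 10)] }
  rep := [4, 0, 7, 15, 1, 11, 13, 14, 16]

noncomputable def v1221 : Cov.CovD where
  P := 3
  N := 6
  pl := [1, 7, 8, 9, 10]
  lev := [⟨[], [], [], [2], [(0, 1, [4])]⟩,
    ⟨[], [(0, 0), (0, 1), (0, 4)], [(0, 4)], [2], [(2, 4, [1, 5]), (3, 0, [])]⟩,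
    ⟨[(0, 1)], [(0, 0), (0, 1), (0, 5), (1, 0), (1, 1), (1, 4), (1, 5)], [(0, 0), (0, 1),
      (0, 5), (1, 1), (1, 5)], [], [(0, 1, [4]), (3, 0, []), (4, 0, []), (5, 5, [4]), (6, 1,
      [4])]⟩,
    ⟨[(0, 2), (1, 2)], [(0, 1), (2, 0), (2, 1), (2, 5)], [(1, 1)], [6, 7], [(0, 1, [4]),
      (6, 1, [4])]⟩,
    ⟨[(0, 2), (1, 2), (2, 3)], [(1, 0), (2, 0), (2, 1), (2, 5)], [(0, 0)], [3], [(3, 0,
      []), (4, 0, [])]⟩,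
    ⟨[(2, 4)], [(1, 0), (2, 0), (4, 0)], [], [3, 8], [(3, 0, [])]⟩]
  Ta := [((0, 1), 1, 2), ((0, 8), 1, 7), ((3, 2), 0, 4), ((3, 10), 0, 8), ((4, 5), 0, 5), ((4,
    9), 0, 3), ((6, 5), 1, 5), ((6, 7), 1, 6)]
  Tb := [((0, 1, 8), 1, 2, 7), ((1, 0, 2), 2, 1, 4), ((2, 1, 3), 4, 2, 0), ((3, 2, 10), 0, 4, 8),
    ((4, 5, 9), 0, 5, 3), ((5, 4, 6), 5, 0, 1), ((6, 5, 7), 1, 5, 6), ((7, 6, 8), 6, 1, 7),
    ((8, 0, 7), 7, 1, 6), ((9, 4, 10), 3, 0, 8), ((10, 3, 9), 8, 0, 3)]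
  Tc := [(4, 1, 5)]
  Td := [((1, 4), (0, 1), 2), ((1, 4), (0, 8), 7), ((1, 4), (6, 5), 5), ((1, 4), (6, 7), 6), ((4,
    1), (2, 1), 2), ((4, 1), (2, 3), 0), ((4, 5), (2, 1), 2), ((4, 5), (2, 3), 0), ((5, 4),
    (5, 4), 0), ((5, 4), (5, 6), 1)]
  G := [[0xa6ca6ca6ce2ca6ca6ca6e8a4, 0xc6ac6ac6ae4ca6ca66c6a8a6ca6ca6ceec8,
    0xc6ac6ac6ad42ca6ca6ca6d82c, 0xc6ac6ac6ad4ca6ca6ca6d8c1, 0xca6ca6ca6dc6ac6ac6adc21], [0,
    0xc6ac6ac6ae4ca6ca6ca6e8c1, 0xc6a442ca6ca6ca6dc6ac6a9c2c, 0, 0xca6ca6ca6dc6ac6ac6adc21],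
    [0x35ca1c16ce2c16c161a6e8a4, 0xc6ac6a48eeea6ca6ca6ce618, 0xc161a65a1c53ac1adc21a6882c,
    0xc6ac6ac6ad41ca6ca6ca6d81c, 0x1a61a6c16da1c16aa1cdc21], [0, 0xca62c6ac6aca6ca6ca6cee18,
    0xc1ac6ac1ad421a6c16c16d82c, 0, 0x1a635cc16d124e53ac1adc21]]

noncomputable def n1221 : Ent := ⟨e1221, noF, [], [], [(8, 16, [1580044410770988437309982408355971841652082177953823432505694109697, 0])]⟩

def c1221 : PLift (Cov.check n1221.C.D v1221 = true) := ⟨by decide +kernel⟩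

def b1221 : PLift (entF (fidx ts) 400 1221 n1221 = true) := ⟨by decide +kernel⟩

theorem g1221 : GoodF (fidx ts) 400 1221 := GoodF.ofV v1221 n1221 c1221.down b1221.down

/-- 459554:998/1 -/
noncomputable def e1222 : SCfg where
  D := {
    a := 6
    L := 10
    kp := 7
    inn := [(0, 1), (0, 2), (1, 0), (1, 2), (2, 0), (2, 1), (2, 3), (2, 4), (3, 2), (4, 2), (4, 5), (5,
      4)]
    mix := [(0, 0), (0, 1), (1, 1), (1, 2), (1, 3), (2, 0), (2, 3), (2, 4), (2, 5), (2, 6), (3, 0), (3,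
      6), (3, 7), (3, 8), (4, 2), (4, 3), (4, 4), (5, 2), (5, 4), (5, 9)]
    cl := [0, 2, 1, 0, 3, 4, 0, 5, 6, 7]
    chq := [(1, 3), (1, 4), (3, 1), (4, 1)]
    rng := [(0, 1), (0, 8), (1, 0), (1, 2), (2, 1), (2, 3), (2, 9), (3, 2), (4, 5), (4, 9), (5, 4), (5,
      6), (6, 5), (6, 7), (7, 6), (7, 8), (8, 0), (8, 7), (9, 2), (9, 4)]
    lev := [] }
  links := [[1, 2, 6, 7], [2, 0, 7, 8, 9], [6, 0, 1, 9, 4, 10, 11, 12, 3], [6, 2, 12, 13, 14], [10, 2, 9,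
    8, 5], [10, 4, 8, 15]]
  P := {
    a := 6
    N := 16
    nb := [198, 901, 7771, 28740, 1828, 34064, 16525, 323, 33458, 278, 34868, 5124, 10252, 20488,
      8264, 1312]
    tri := [(0, 1, 2), (0, 1, 7), (0, 2, 6), (0, 6, 7), (1, 2, 9), (1, 7, 8), (1, 8, 9), (2, 3, 6), (2,
      3, 12), (2, 4, 9), (2, 4, 10), (2, 10, 11), (2, 11, 12), (3, 6, 14), (3, 12, 13), (3, 13,
      14), (4, 5, 8), (4, 5, 10), (4, 8, 9), (5, 8, 15), (5, 10, 15)]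
    fin := [0, 0, 2, 0, 2, 2, 0, 7, 2, 0, 10, 11, 0, 13, 14, 15]
    chd := [(2, 10), (2, 11)]
    steps := [(0, 1), (0, 6), (0, 3), (0, 9), (0, 12), (2, 4), (2, 5), (2, 8)] }
  rep := [0, 2, 7, 10, 11, 13, 14, 15]

noncomputable def v1222 : Cov.CovD where
  P := 3
  N := 5
  pl := [1, 7, 8, 9]
  lev := [⟨[], [], [], [2], [(0, 0, [])]⟩,
    ⟨[], [(0, 0), (0, 1)], [(0, 1)], [2], [(2, 1, [3, 4]), (3, 0, [])]⟩,
    ⟨[(0, 1)], [(0, 0), (0, 3), (0, 4), (1, 0), (1, 1), (1, 3), (1, 4)], [(0, 0), (0, 3),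
      (0, 4), (3, 4)], [], [(0, 0, []), (3, 0, []), (4, 3, [1]), (5, 4, [1]), (6, 0, [])]⟩,
    ⟨[(0, 2), (1, 2)], [(0, 0), (2, 0), (2, 3), (2, 4)], [(0, 0)], [5, 6], [(0, 0, []), (6,
      0, [])]⟩,
    ⟨[(0, 2), (1, 2), (2, 3)], [(1, 0), (1, 1), (2, 0), (2, 1), (2, 3), (2, 4)], [(0, 1),
      (0, 3), (1, 3)], [], [(2, 1, [3, 4]), (3, 0, []), (4, 3, [1])]⟩,
    ⟨[(2, 4)], [(1, 1), (2, 3), (4, 0), (4, 1), (4, 3)], [(1, 3)], [7], [(2, 1, [3, 4]),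
      (4, 3, [1])]⟩]
  Ta := [((0, 1), 0, 2), ((0, 8), 0, 6), ((3, 2), 0, 1), ((6, 5), 0, 4), ((6, 7), 0, 5)]
  Tb := [((0, 1, 8), 0, 2, 6), ((1, 0, 2), 2, 0, 1), ((2, 1, 3), 1, 2, 0), ((2, 1, 9), 1, 2, 7),
    ((2, 3, 9), 1, 0, 7), ((4, 5, 9), 3, 4, 7), ((5, 4, 6), 4, 3, 0), ((6, 5, 7), 0, 4, 5),
    ((7, 6, 8), 5, 0, 6), ((8, 0, 7), 6, 0, 5), ((9, 2, 4), 7, 1, 3)]
  Tc := [(1, 3, 4)]
  Td := [((1, 3), (2, 1), 2), ((1, 3), (2, 3), 0), ((1, 3), (2, 9), 7), ((1, 4), (2, 1), 2), ((1,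
    4), (2, 3), 0), ((1, 4), (2, 9), 7), ((3, 1), (4, 5), 4), ((3, 1), (4, 9), 7), ((4, 1),
    (5, 4), 3), ((4, 1), (5, 6), 0)]
  G := [[0, 0, 0xb424e1295c95c95ceac8, 0x95c95c95ce244, 0xb4295c95c95ce6178281a], [0,
    0xc6ac6a486ee4ca6ca6ca6ea6ca6ca6ceac1, 0, 0x95c95c95ce281, 0x822b4295c95c95cee5828a1],
    [0, 0, 0, 0x95c95c95ce281, 0xb4295c95c95ce6178281a]]

noncomputable def n1222 : Ent := ⟨e1222, noF, [], [], []⟩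

def c1222 : PLift (Cov.check n1222.C.D v1222 = true) := ⟨by decide +kernel⟩

def b1222 : PLift (entF (fidx ts) 400 1222 n1222 = true) := ⟨by decide +kernel⟩

theorem g1222 : GoodF (fidx ts) 400 1222 := GoodF.ofV v1222 n1222 c1222.down b1222.down

/-- 459554:998 -/
noncomputable def e1223 : SCfg where
  D := {
    a := 6
    L := 11
    kp := 8
    inn := [(0, 1), (0, 2), (1, 0), (1, 2), (2, 0), (2, 1), (2, 3), (2, 4), (3, 2), (4, 2), (4, 5), (5,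
      4)]
    mix := [(0, 0), (0, 1), (1, 1), (1, 2), (1, 3), (2, 0), (2, 3), (2, 4), (2, 5), (2, 6), (3, 0), (3,
      6), (3, 7), (3, 8), (4, 3), (4, 4), (4, 9), (5, 4), (5, 9), (5, 10)]
    cl := [1, 2, 4, 0, 0, 5, 1, 6, 7, 3, 8]
    chq := [(1, 4), (4, 1), (4, 5), (5, 4)]
    rng := [(0, 1), (0, 8), (1, 0), (1, 2), (2, 1), (2, 3), (3, 2), (3, 9), (4, 5), (4, 10), (5, 4),
      (5, 6), (6, 5), (6, 7), (7, 6), (7, 8), (8, 0), (8, 7), (9, 3), (9, 10), (10, 4), (10, 9)]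
    lev := [] }
  links := [[1, 2, 6, 7], [2, 0, 7, 8, 9], [6, 0, 1, 9, 4, 10, 11, 12, 3], [6, 2, 12, 13, 14], [10, 2, 9,
    15, 5], [10, 4, 15, 16]]
  P := {
    a := 6
    N := 17
    nb := [198, 901, 7771, 28740, 34340, 99344, 16525, 323, 642, 33046, 67636, 5124, 10252, 20488,
      8264, 66096, 33824]
    tri := [(0, 1, 2), (0, 1, 7), (0, 2, 6), (0, 6, 7), (1, 2, 9), (1, 7, 8), (1, 8, 9), (2, 3, 6), (2,
      3, 12), (2, 4, 9), (2, 4, 10), (2, 10, 11), (2, 11, 12), (3, 6, 14), (3, 12, 13), (3, 13,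
      14), (4, 5, 10), (4, 5, 15), (4, 9, 15), (5, 10, 16), (5, 15, 16)]
    fin := [0, 1, 1, 0, 4, 4, 0, 7, 1, 4, 4, 11, 0, 13, 14, 15, 16]
    chd := [(0, 1), (1, 11)]
    steps := [(0, 6), (0, 3), (0, 12), (1, 2), (1, 8), (4, 5), (4, 9), (4, 10)] }
  rep := [4, 0, 7, 15, 1, 11, 13, 14, 16]

noncomputable def v1223 : Cov.CovD where
  P := 3
  N := 6
  pl := [1, 7, 8, 9, 10]
  lev := [⟨[], [], [], [2], [(0, 1, [4])]⟩,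
    ⟨[], [(0, 0), (0, 1), (0, 4)], [(0, 4)], [2], [(2, 4, [1, 5]), (3, 0, [])]⟩,
    ⟨[(0, 1)], [(0, 0), (0, 1), (0, 5), (1, 0), (1, 1), (1, 4), (1, 5)], [(0, 0), (0, 1),
      (0, 5), (1, 1), (1, 5)], [], [(0, 1, [4]), (3, 0, []), (4, 0, []), (5, 5, [4]), (6, 1,
      [4])]⟩,
    ⟨[(0, 2), (1, 2)], [(0, 1), (2, 0), (2, 1), (2, 5)], [(1, 1)], [6, 7], [(0, 1, [4]),
      (6, 1, [4])]⟩,
    ⟨[(0, 2), (1, 2), (2, 3)], [(1, 0), (2, 0), (2, 1), (2, 5)], [(0, 0)], [3], [(3, 0,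
      []), (4, 0, [])]⟩,
    ⟨[(2, 4)], [(2, 0), (4, 0)], [], [3, 8], [(4, 0, [])]⟩]
  Ta := [((0, 1), 1, 2), ((0, 8), 1, 7), ((3, 2), 0, 4), ((3, 9), 0, 3), ((4, 5), 0, 5), ((4,
    10), 0, 8), ((6, 5), 1, 5), ((6, 7), 1, 6)]
  Tb := [((0, 1, 8), 1, 2, 7), ((1, 0, 2), 2, 1, 4), ((2, 1, 3), 4, 2, 0), ((3, 2, 9), 0, 4, 3),
    ((4, 5, 10), 0, 5, 8), ((5, 4, 6), 5, 0, 1), ((6, 5, 7), 1, 5, 6), ((7, 6, 8), 6, 1, 7),
    ((8, 0, 7), 7, 1, 6), ((9, 3, 10), 3, 0, 8), ((10, 4, 9), 8, 0, 3)]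
  Tc := [(4, 1, 5)]
  Td := [((1, 4), (0, 1), 2), ((1, 4), (0, 8), 7), ((1, 4), (6, 5), 5), ((1, 4), (6, 7), 6), ((4,
    1), (2, 1), 2), ((4, 1), (2, 3), 0), ((4, 5), (2, 1), 2), ((4, 5), (2, 3), 0), ((5, 4),
    (5, 4), 0), ((5, 4), (5, 6), 1)]
  G := [[0x16ca1c16ce21a61a616ce8a4, 0x956416a16aa16ca1c16cee71616ac16e8c4,
    0xc1ac1a548716c161a6d16a8c2c, 0xc1a16a1a6d4c16c16c16d8c1, 0xc161a6396da1c16a93cdc21], [0,
    0xa1c16aa1ce4c16c16c16e8c1, 0xc1ac1a53ad4253635c1a6d82c, 0, 0x1a6c1616adb1616ac1adc21],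
    [0xc6ac6ac6ae4ca6ca6ca6e8c2, 0xc6ac6ac6aea6ca6ca6ce618, 0xc6ac6ac6ad42ca6ca6ca6d82c,
    0xc6a448ca6ca6ca6dc6ac6a9c1c, 0xca6ca6ca6dc6ac6ac6adc21], [0, 0xca6ca6cc6a2a6ca6ca6cee14,
    0xc6ac6ac6ad42ca6ca6ca6d82c, 0, 0xca6ca6ca6dc6ac6ac6adc12]]

noncomputable def n1223 : Ent := ⟨e1223, noF, [], [], [(8, 15, [1685356702439545624007900436039642273970977273354372543760005095425, 0])]⟩

def c1223 : PLift (Cov.check n1223.C.D v1223 = true) := ⟨by decide +kernel⟩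

def b1223 : PLift (entF (fidx ts) 400 1223 n1223 = true) := ⟨by decide +kernel⟩

theorem g1223 : GoodF (fidx ts) 400 1223 := GoodF.ofV v1223 n1223 c1223.down b1223.down

/-- 466765:999 -/
noncomputable def e1224 : SCfg where
  D := {
    a := 6
    L := 11
    kp := 9
    inn := [(0, 1), (1, 0), (1, 2), (1, 3), (1, 4), (2, 1), (2, 3), (2, 5), (3, 1), (3, 2), (3, 4), (3,
      5), (4, 1), (4, 3), (5, 2), (5, 3)]
    mix := [(0, 0), (0, 1), (0, 2), (1, 0), (1, 2), (2, 2), (2, 3), (2, 4), (3, 5), (3, 6), (3, 7), (4,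
      0), (4, 7), (4, 8), (4, 9), (5, 4), (5, 5), (5, 10)]
    cl := [0, 6, 1, 4, 2, 3, 5, 0, 7, 8, 9]
    chq := [(0, 1), (0, 2), (0, 4), (1, 0), (2, 0), (2, 3), (2, 5), (3, 2), (4, 0), (5, 2)]
    rng := [(0, 1), (0, 9), (1, 0), (1, 2), (2, 1), (2, 3), (3, 2), (3, 4), (4, 3), (4, 10), (5, 6),
      (5, 10), (6, 5), (6, 7), (7, 6), (7, 8), (8, 7), (8, 9), (9, 0), (9, 8), (10, 4), (10, 5)]
    lev := [] }
  links := [[1, 6, 7, 8], [6, 0, 8, 2, 3, 4], [3, 1, 8, 9, 10, 5], [4, 1, 2, 5, 11, 12, 13], [6, 1, 3,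
    13, 14, 15], [11, 3, 2, 10, 16]]
  P := {
    a := 6
    N := 17
    nb := [450, 349, 1834, 14390, 57418, 68620, 32915, 321, 647, 1284, 66084, 69672, 10248, 20504,
      40976, 16464, 3104]
    tri := [(0, 1, 6), (0, 1, 8), (0, 6, 7), (0, 7, 8), (1, 2, 3), (1, 2, 8), (1, 3, 4), (1, 4, 6), (2,
      3, 5), (2, 5, 10), (2, 8, 9), (2, 9, 10), (3, 4, 13), (3, 5, 11), (3, 11, 12), (3, 12, 13),
      (4, 6, 15), (4, 13, 14), (4, 14, 15), (5, 10, 16), (5, 11, 16)]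
    fin := [0, 0, 0, 3, 0, 3, 0, 7, 8, 9, 3, 11, 12, 0, 14, 15, 16]
    chd := [(0, 3), (0, 8), (0, 9), (3, 11), (3, 12)]
    steps := [(0, 1), (0, 2), (0, 4), (0, 6), (0, 13), (3, 5), (3, 10)] }
  rep := [0, 8, 3, 11, 9, 12, 7, 14, 15, 16]

noncomputable def v1224 : Cov.CovD where
  P := 3
  N := 7
  pl := [1, 8, 9, 10]
  lev := [⟨[], [], [(0, 1)], [6], [(0, 0, [1, 2, 4]), (2, 1, [0])]⟩,
    ⟨[], [(0, 0), (0, 1)], [(0, 1)], [], [(0, 0, [1, 2, 4]), (2, 1, [0])]⟩,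
    ⟨[(0, 1)], [(0, 1), (1, 0), (1, 1), (1, 2), (1, 4)], [(1, 2), (1, 4), (2, 4)], [], [(2,
      1, [0]), (3, 4, [0]), (4, 2, [0, 3, 5])]⟩,
    ⟨[(0, 1), (1, 2)], [(1, 0), (1, 1), (1, 3), (1, 5), (2, 0), (2, 1), (2, 2), (2, 3), (2,
      4), (2, 5)], [(0, 3), (0, 5), (3, 5)], [], [(5, 3, [2]), (6, 5, [2]), (7, 0, [1, 2,
      4])]⟩,
    ⟨[(0, 1), (1, 2), (1, 3), (2, 3)], [(0, 0), (1, 0), (1, 1), (3, 0), (3, 3), (3, 5)],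
      [(0, 0)], [7, 8], [(0, 0, [1, 2, 4]), (7, 0, [1, 2, 4])]⟩,
    ⟨[(1, 2), (1, 3), (2, 3), (3, 4)], [(2, 1), (2, 2), (2, 3), (2, 4), (3, 0), (3, 2), (3,
      3), (3, 5)], [(2, 3)], [9], [(4, 2, [0, 3, 5]), (5, 3, [2])]⟩]
  Ta := [((0, 1), 0, 6), ((0, 9), 0, 8), ((7, 6), 0, 5), ((7, 8), 0, 7)]
  Tb := [((0, 1, 9), 0, 6, 8), ((1, 0, 2), 6, 0, 1), ((2, 1, 3), 1, 6, 4), ((3, 2, 4), 4, 1, 2),
    ((4, 3, 10), 2, 4, 9), ((5, 6, 10), 3, 5, 9), ((6, 5, 7), 5, 3, 0), ((7, 6, 8), 0, 5, 7),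
    ((8, 7, 9), 7, 0, 8), ((9, 0, 8), 8, 0, 7), ((10, 4, 5), 9, 2, 3)]
  Tc := [(0, 1, 2), (0, 1, 4), (0, 2, 4), (2, 0, 3), (2, 0, 5), (2, 3, 5)]
  Td := [((0, 1), (0, 1), 6), ((0, 1), (0, 9), 8), ((0, 1), (7, 6), 5), ((0, 1), (7, 8), 7), ((0,
    2), (0, 1), 6), ((0, 2), (0, 9), 8), ((0, 2), (7, 6), 5), ((0, 2), (7, 8), 7), ((0, 4),
    (0, 1), 6), ((0, 4), (0, 9), 8), ((0, 4), (7, 6), 5), ((0, 4), (7, 8), 7), ((1, 0), (2,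
    1), 6), ((1, 0), (2, 3), 4), ((2, 0), (4, 3), 4), ((2, 0), (4, 10), 9), ((2, 3), (4, 3),
    4), ((2, 3), (4, 10), 9), ((2, 5), (4, 3), 4), ((2, 5), (4, 10), 9), ((3, 2), (5, 6), 5),
    ((3, 2), (5, 10), 9), ((4, 0), (3, 2), 1), ((4, 0), (3, 4), 2), ((5, 2), (6, 5), 3), ((5,
    2), (6, 7), 0)]
  G := [[0, 0x1162111e2e2ccc6d182e2c2a9cd1c24d11e212212425a2cc6afc6, 0xeeee14eeee18c1,
    0x111e423e2b2dddee9412111ea72e2dddee58c,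
    0xbb6e4617ecb838e1111e48d144a4144bbbe44ed11a489c], [0,
    0x121464d91ee2311aa23c28dc542dd5e2e24d811a2e2cccea94e, 0x6661eeee1ce88e18c1,
    0x111ea237252dddee581, 0x116414864bbbee4ed184858c1]]

noncomputable def n1224 : Ent := ⟨e1224, noF, [], [], []⟩

def c1224 : PLift (Cov.check n1224.C.D v1224 = true) := ⟨by decide +kernel⟩

def b1224 : PLift (entF (fidx ts) 400 1224 n1224 = true) := ⟨by decide +kernel⟩

theorem g1224 : GoodF (fidx ts) 400 1224 := GoodF.ofV v1224 n1224 c1224.down b1224.down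

/-- 466745:1000/2 -/
noncomputable def e1225 : SCfg where
  D := {
    a := 6
    L := 9
    kp := 6
    inn := [(0, 1), (1, 0), (1, 2), (1, 3), (2, 1), (2, 3), (2, 4), (3, 1), (3, 2), (3, 5), (4, 2), (5,
      3)]
    mix := [(0, 0), (0, 1), (0, 2), (1, 0), (1, 2), (1, 3), (2, 2), (2, 4), (2, 5), (3, 3), (3, 5), (3,
      6), (3, 7), (4, 1), (4, 2), (4, 4), (5, 1), (5, 6), (5, 7), (5, 8)]
    cl := [2, 1, 0, 3, 5, 0, 4, 4, 6]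
    chq := [(0, 3), (1, 3), (3, 0), (3, 1)]
    rng := [(0, 1), (0, 3), (1, 0), (1, 2), (1, 4), (1, 6), (1, 8), (2, 1), (3, 0), (3, 7), (4, 1), (4,
      5), (5, 4), (5, 6), (6, 1), (6, 5), (7, 3), (7, 8), (8, 1), (8, 7)]
    lev := [] }
  links := [[1, 6, 7, 8], [6, 0, 8, 2, 3, 9], [3, 1, 8, 4, 10, 11], [9, 1, 2, 11, 12, 5, 13], [10, 2, 8,
    7], [13, 3, 12, 7, 14]]
  P := {
    a := 6
    N := 15
    nb := [450, 845, 3354, 14886, 1412, 28808, 643, 21873, 151, 8266, 2196, 5132, 2216, 16936, 8352]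
    tri := [(0, 1, 6), (0, 1, 8), (0, 6, 7), (0, 7, 8), (1, 2, 3), (1, 2, 8), (1, 3, 9), (1, 6, 9), (2,
      3, 11), (2, 4, 8), (2, 4, 10), (2, 10, 11), (3, 5, 12), (3, 5, 13), (3, 9, 13), (3, 11, 12),
      (4, 7, 8), (4, 7, 10), (5, 7, 12), (5, 7, 14), (5, 13, 14)]
    fin := [0, 1, 2, 3, 0, 0, 6, 0, 2, 1, 10, 2, 3, 3, 14]
    chd := [(0, 1), (2, 1)]
    steps := [(0, 7), (0, 4), (0, 5), (1, 9), (2, 8), (2, 11), (3, 12), (3, 13)] }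
  rep := [2, 0, 6, 1, 3, 10, 14]

noncomputable def v1225 : Cov.CovD where
  P := 3
  N := 4
  pl := [0, 4, 8]
  lev := [⟨[], [], [(0, 1)], [2], [(1, 1, [3]), (2, 0, [3])]⟩,
    ⟨[], [(0, 0), (0, 1), (0, 3)], [(0, 3)], [2], [(2, 0, [3]), (3, 3, [0, 1])]⟩,
    ⟨[(0, 1)], [(0, 0), (1, 0), (1, 3)], [(0, 0)], [5], [(2, 0, [3]), (5, 0, [3])]⟩,
    ⟨[(0, 1), (1, 2)], [(1, 0), (1, 3), (1, 4), (2, 0), (2, 3), (2, 4)], [(0, 3), (0, 4),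
      (3, 4), (4, 4)], [], [(3, 3, [0, 1]), (5, 0, [3]), (6, 4, []), (7, 4, [])]⟩,
    ⟨[(1, 2), (2, 3)], [(0, 0), (0, 1), (1, 0), (2, 0), (2, 1)], [(0, 1)], [5], [(1, 1,
      [3]), (2, 0, [3])]⟩,
    ⟨[(1, 3), (2, 3)], [(0, 1), (3, 0), (3, 1), (3, 3), (3, 4), (4, 1)], [(1, 4), (4, 4)],
      [6], [(1, 1, [3]), (6, 4, []), (7, 4, [])]⟩]
  Ta := [((2, 1), 0, 1), ((5, 4), 0, 5), ((5, 6), 0, 4), ((6, 1), 4, 1), ((6, 5), 4, 0), ((7, 3),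
    4, 3), ((7, 8), 4, 6)]
  Tb := [((0, 1, 3), 2, 1, 3), ((1, 0, 2), 1, 2, 0), ((1, 0, 4), 1, 2, 5), ((1, 0, 6), 1, 2, 4),
    ((1, 0, 8), 1, 2, 6), ((1, 2, 4), 1, 0, 5), ((1, 2, 6), 1, 0, 4), ((1, 2, 8), 1, 0, 6),
    ((1, 4, 6), 1, 5, 4), ((1, 4, 8), 1, 5, 6), ((1, 6, 8), 1, 4, 6), ((3, 0, 7), 3, 2, 4),
    ((4, 1, 5), 5, 1, 0), ((5, 4, 6), 0, 5, 4), ((6, 1, 5), 4, 1, 0), ((7, 3, 8), 4, 3, 6),
    ((8, 1, 7), 6, 1, 4)]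
  Tc := [(3, 0, 1)]
  Td := [((0, 3), (2, 1), 1), ((0, 3), (5, 4), 5), ((0, 3), (5, 6), 4), ((1, 3), (1, 0), 2), ((1,
    3), (1, 2), 0), ((1, 3), (1, 4), 5), ((1, 3), (1, 6), 4), ((1, 3), (1, 8), 6), ((3, 0),
    (3, 0), 2), ((3, 0), (3, 7), 4), ((3, 1), (3, 0), 2), ((3, 1), (3, 7), 4)]
  G := [[0, 0xe41e21ae81e21ac4, 0x18e8314e43c28, 0x55c2299c22c8, 0xd8e8354e43918e28], [0,
    0xe41e21ae81e21ac4, 0xd828354a43c28, 0xddc22ddc22c4, 0xd8283d4243c28], [0, 0,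
    0x7158d8ee4b1d4ec24, 0x5d5229d522c4, 0x58d865c551cad42288638], [0, 0,
    0xd12d42cd828d424e4, 0xd122ddc2258, 0xd42d126d82d42c98]]

noncomputable def n1225 : Ent := ⟨e1225, noF, [], [], []⟩

def c1225 : PLift (Cov.check n1225.C.D v1225 = true) := ⟨by decide +kernel⟩

def b1225 : PLift (entF (fidx ts) 400 1225 n1225 = true) := ⟨by decide +kernel⟩

theorem g1225 : GoodF (fidx ts) 400 1225 := GoodF.ofV v1225 n1225 c1225.down b1225.down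

/-- 466745:1000/3 -/
noncomputable def e1226 : SCfg where
  D := {
    a := 6
    L := 9
    kp := 6
    inn := [(0, 1), (1, 0), (1, 2), (1, 3), (2, 1), (2, 3), (2, 4), (3, 1), (3, 2), (3, 5), (4, 2), (5,
      3)]
    mix := [(0, 0), (0, 1), (0, 2), (1, 0), (1, 2), (1, 3), (2, 2), (2, 4), (2, 5), (3, 3), (3, 5), (3,
      6), (3, 7), (4, 1), (4, 2), (4, 4), (5, 1), (5, 6), (5, 7), (5, 8)]
    cl := [2, 1, 0, 3, 5, 0, 4, 4, 6]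
    chq := [(0, 3), (1, 3), (3, 0), (3, 1)]
    rng := [(0, 1), (0, 3), (1, 0), (1, 2), (1, 4), (1, 7), (1, 8), (2, 1), (3, 0), (3, 7), (4, 1), (4,
      5), (5, 4), (5, 6), (6, 5), (6, 8), (7, 1), (7, 3), (8, 1), (8, 6)]
    lev := [] }
  links := [[1, 6, 7, 8], [6, 0, 8, 2, 3, 9], [3, 1, 8, 4, 10, 11], [9, 1, 2, 11, 12, 5, 13], [10, 2, 8,
    7], [13, 3, 12, 14, 7]]
  P := {
    a := 6
    N := 15
    nb := [450, 845, 3354, 14886, 1412, 28808, 643, 25969, 151, 8266, 2196, 5132, 18472, 680, 4256]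
    tri := [(0, 1, 6), (0, 1, 8), (0, 6, 7), (0, 7, 8), (1, 2, 3), (1, 2, 8), (1, 3, 9), (1, 6, 9), (2,
      3, 11), (2, 4, 8), (2, 4, 10), (2, 10, 11), (3, 5, 12), (3, 5, 13), (3, 9, 13), (3, 11, 12),
      (4, 7, 8), (4, 7, 10), (5, 7, 13), (5, 7, 14), (5, 12, 14)]
    fin := [0, 0, 2, 2, 0, 5, 6, 0, 2, 9, 10, 2, 5, 5, 14]
    chd := [(0, 9), (2, 9)]
    steps := [(0, 1), (0, 7), (2, 3), (2, 8), (0, 4), (2, 11), (5, 12), (5, 13)] }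
  rep := [2, 0, 6, 9, 5, 10, 14]

noncomputable def v1226 : Cov.CovD where
  P := 3
  N := 4
  pl := [0, 4, 8]
  lev := [⟨[], [], [(0, 1)], [2], [(1, 1, [3]), (2, 0, [3])]⟩,
    ⟨[], [(0, 0), (0, 1), (0, 3)], [(0, 3)], [2], [(2, 0, [3]), (3, 3, [0, 1])]⟩,
    ⟨[(0, 1)], [(0, 0), (1, 0), (1, 3)], [(0, 0)], [5], [(2, 0, [3]), (5, 0, [3])]⟩,
    ⟨[(0, 1), (1, 2)], [(1, 0), (1, 3), (1, 4), (2, 0), (2, 3), (2, 4)], [(0, 3), (0, 4),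
      (3, 4), (4, 4)], [], [(3, 3, [0, 1]), (5, 0, [3]), (6, 4, []), (7, 4, [])]⟩,
    ⟨[(1, 2), (2, 3)], [(0, 0), (0, 1), (1, 0), (2, 0), (2, 1)], [(0, 1)], [5], [(1, 1,
      [3]), (2, 0, [3])]⟩,
    ⟨[(1, 3), (2, 3)], [(0, 1), (3, 0), (3, 1), (3, 3), (3, 4), (4, 1)], [(1, 4), (4, 4)],
      [6], [(1, 1, [3]), (6, 4, []), (7, 4, [])]⟩]
  Ta := [((2, 1), 0, 1), ((5, 4), 0, 5), ((5, 6), 0, 4), ((6, 5), 4, 0), ((6, 8), 4, 6), ((7, 1),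
    4, 1), ((7, 3), 4, 3)]
  Tb := [((0, 1, 3), 2, 1, 3), ((1, 0, 2), 1, 2, 0), ((1, 0, 4), 1, 2, 5), ((1, 0, 7), 1, 2, 4),
    ((1, 0, 8), 1, 2, 6), ((1, 2, 4), 1, 0, 5), ((1, 2, 7), 1, 0, 4), ((1, 2, 8), 1, 0, 6),
    ((1, 4, 7), 1, 5, 4), ((1, 4, 8), 1, 5, 6), ((1, 7, 8), 1, 4, 6), ((3, 0, 7), 3, 2, 4),
    ((4, 1, 5), 5, 1, 0), ((5, 4, 6), 0, 5, 4), ((6, 5, 8), 4, 0, 6), ((7, 1, 3), 4, 1, 3),
    ((8, 1, 6), 6, 1, 4)]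
  Tc := [(3, 0, 1)]
  Td := [((0, 3), (2, 1), 1), ((0, 3), (5, 4), 5), ((0, 3), (5, 6), 4), ((1, 3), (1, 0), 2), ((1,
    3), (1, 2), 0), ((1, 3), (1, 4), 5), ((1, 3), (1, 7), 4), ((1, 3), (1, 8), 6), ((3, 0),
    (3, 0), 2), ((3, 0), (3, 7), 4), ((3, 1), (3, 0), 2), ((3, 1), (3, 7), 4)]
  G := [[0, 0xe41e216e81e41ac4, 0x9868314e43c28, 0x55c2299c22c8, 0xd8283d4243c28], [0,
    0xe41e216e81e21ac8, 0x18e8314e43c28, 0xddc22ddc22c4, 0xd8e8354e43918e28], [0, 0,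
    0xd12d42cd828d424e4, 0xd122ddc2294, 0xd42d826d82d42c98], [0, 0, 0x7158d8e94b1d4ec28,
    0xd122ddc2258, 0xd829451cad429858c638]]

noncomputable def n1226 : Ent := ⟨e1226, noF, [], [], []⟩

def c1226 : PLift (Cov.check n1226.C.D v1226 = true) := ⟨by decide +kernel⟩

def b1226 : PLift (entF (fidx ts) 400 1226 n1226 = true) := ⟨by decide +kernel⟩

theorem g1226 : GoodF (fidx ts) 400 1226 := GoodF.ofV v1226 n1226 c1226.down b1226.down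

/-- 466745:1000/1 -/
noncomputable def e1227 : SCfg where
  D := {
    a := 6
    L := 10
    kp := 7
    inn := [(0, 1), (1, 0), (1, 2), (1, 3), (2, 1), (2, 3), (2, 4), (3, 1), (3, 2), (3, 5), (4, 2), (5,
      3)]
    mix := [(0, 0), (0, 1), (0, 2), (1, 0), (1, 2), (1, 3), (2, 2), (2, 4), (2, 5), (3, 3), (3, 5), (3,
      6), (3, 7), (4, 1), (4, 2), (4, 4), (5, 6), (5, 7), (5, 8), (5, 9)]
    cl := [4, 3, 0, 1, 5, 0, 2, 2, 6, 7]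
    chq := [(0, 1), (1, 0), (1, 3), (3, 1)]
    rng := [(0, 1), (0, 3), (1, 0), (1, 2), (1, 4), (2, 1), (3, 0), (3, 7), (4, 1), (4, 5), (5, 4), (5,
      6), (6, 5), (6, 8), (7, 3), (7, 9), (8, 6), (8, 9), (9, 7), (9, 8)]
    lev := [] }
  links := [[1, 6, 7, 8], [6, 0, 8, 2, 3, 9], [3, 1, 8, 4, 10, 11], [9, 1, 2, 11, 12, 5, 13], [10, 2, 8,
    7], [13, 3, 12, 14, 15]]
  P := {
    a := 6
    N := 16
    nb := [450, 845, 3354, 14886, 1412, 61448, 643, 1361, 151, 8266, 2196, 5132, 18472, 33320, 36896,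
      24608]
    tri := [(0, 1, 6), (0, 1, 8), (0, 6, 7), (0, 7, 8), (1, 2, 3), (1, 2, 8), (1, 3, 9), (1, 6, 9), (2,
      3, 11), (2, 4, 8), (2, 4, 10), (2, 10, 11), (3, 5, 12), (3, 5, 13), (3, 9, 13), (3, 11, 12),
      (4, 7, 8), (4, 7, 10), (5, 12, 14), (5, 13, 15), (5, 14, 15)]
    fin := [0, 0, 2, 2, 0, 5, 6, 0, 2, 9, 10, 2, 5, 5, 14, 15]
    chd := [(0, 9), (2, 9)]
    steps := [(0, 1), (0, 7), (2, 3), (2, 8), (0, 4), (2, 11), (5, 12), (5, 13)] }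
  rep := [2, 9, 5, 0, 6, 10, 14, 15]

noncomputable def v1227 : Cov.CovD where
  P := 3
  N := 5
  pl := [0, 4, 8, 9]
  lev := [⟨[], [], [(0, 3)], [4], [(1, 3, [1]), (2, 0, [1])]⟩,
    ⟨[], [(0, 0), (0, 1), (0, 3)], [(0, 1)], [4], [(2, 0, [1]), (3, 1, [0, 3])]⟩,
    ⟨[(0, 1)], [(0, 0), (1, 0), (1, 1)], [(0, 0)], [5], [(2, 0, [1]), (5, 0, [1])]⟩,
    ⟨[(0, 1), (1, 2)], [(1, 0), (1, 1), (1, 2), (2, 0), (2, 1), (2, 2)], [(0, 1), (0, 2),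
      (1, 2), (2, 2)], [], [(3, 1, [0, 3]), (5, 0, [1]), (6, 2, []), (7, 2, [])]⟩,
    ⟨[(1, 2), (2, 3)], [(0, 0), (0, 3), (1, 0), (2, 0), (2, 3)], [(0, 3)], [5], [(1, 3,
      [1]), (2, 0, [1])]⟩,
    ⟨[(1, 3), (2, 3)], [(3, 0), (3, 1), (3, 2)], [(2, 2)], [6, 7], [(6, 2, []), (7, 2,
      [])]⟩]
  Ta := [((2, 1), 0, 3), ((5, 4), 0, 5), ((5, 6), 0, 2), ((6, 5), 2, 0), ((6, 8), 2, 6), ((7, 3),
    2, 1), ((7, 9), 2, 7)]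
  Tb := [((0, 1, 3), 4, 3, 1), ((1, 0, 2), 3, 4, 0), ((1, 0, 4), 3, 4, 5), ((1, 2, 4), 3, 0, 5),
    ((3, 0, 7), 1, 4, 2), ((4, 1, 5), 5, 3, 0), ((5, 4, 6), 0, 5, 2), ((6, 5, 8), 2, 0, 6),
    ((7, 3, 9), 2, 1, 7), ((8, 6, 9), 6, 2, 7), ((9, 7, 8), 7, 2, 6)]
  Tc := [(1, 0, 3)]
  Td := [((0, 1), (2, 1), 3), ((0, 1), (5, 4), 5), ((0, 1), (5, 6), 2), ((1, 0), (3, 0), 4), ((1,
    0), (3, 7), 2), ((1, 3), (3, 0), 4), ((1, 3), (3, 7), 2), ((3, 1), (1, 0), 4), ((3, 1),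
    (1, 2), 0), ((3, 1), (1, 4), 5)]
  G := [[0, 0x45c8d24698c448de8ad84d48ce1, 0, 0,
    0xaaa12b881286c14a49bb68a411caac913a8296a811881ba8ece], [0,
    0xc182445c8d24698c4924ad84d468ce5, 0, 0x55c88c9d246549848cdd28ac2,
    0xa81188b28e4348491bbe8a411caac933a88a96a81188b28ece], [0,
    0x8144845c845a8698c4d28ad8a4d48ce9, 0xe8481e484141a1c441a1ce18ace2428f, 0,
    0x88841848411b98ab1b868488286582233c833a8e8282cf], [0, 0x81448555e88ac4dda82dda4d48ce5,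
    0, 0x5181cd246d18d286c2, 0xb484133c84888b8b18688c8bba86db88b28647]]

noncomputable def n1227 : Ent := ⟨e1227, noF, [], [], [(7, 14, [385746751338780685620664494392815470296102193487288376377511937, 0]), (7, 15, [360035742630636841211993100915356868655746945586763691012694017, 0])]⟩

def c1227 : PLift (Cov.check n1227.C.D v1227 = true) := ⟨by decide +kernel⟩

def b1227 : PLift (entF (fidx ts) 400 1227 n1227 = true) := ⟨by decide +kernel⟩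

theorem g1227 : GoodF (fidx ts) 400 1227 := GoodF.ofV v1227 n1227 c1227.down b1227.down

/-- 466745:1000/5 -/
noncomputable def e1228 : SCfg where
  D := {
    a := 6
    L := 9
    kp := 6
    inn := [(0, 1), (1, 0), (1, 2), (1, 3), (2, 1), (2, 3), (2, 4), (3, 1), (3, 2), (3, 5), (4, 2), (5,
      3)]
    mix := [(0, 0), (0, 1), (0, 2), (1, 0), (1, 2), (1, 3), (2, 2), (2, 4), (2, 5), (3, 3), (3, 5), (3,
      6), (3, 7), (4, 2), (4, 4), (4, 8), (5, 1), (5, 6), (5, 7), (5, 8)]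
    cl := [4, 3, 0, 1, 5, 0, 2, 2, 6]
    chq := [(0, 1), (1, 0), (1, 3), (3, 1)]
    rng := [(0, 1), (0, 3), (1, 0), (1, 2), (1, 6), (1, 8), (2, 1), (2, 8), (3, 0), (3, 7), (4, 5), (4,
      8), (5, 4), (5, 6), (6, 1), (6, 5), (7, 3), (7, 8), (8, 1), (8, 2), (8, 4), (8, 7)]
    lev := [] }
  links := [[1, 6, 7, 8], [6, 0, 8, 2, 3, 9], [3, 1, 8, 4, 10, 11], [9, 1, 2, 11, 12, 5, 13], [10, 2, 8,
    14], [13, 3, 12, 7, 14]]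
  P := {
    a := 6
    N := 15
    nb := [450, 845, 3354, 14886, 17668, 28808, 643, 20833, 16535, 8266, 18452, 5132, 2216, 16936,
      9648]
    tri := [(0, 1, 6), (0, 1, 8), (0, 6, 7), (0, 7, 8), (1, 2, 3), (1, 2, 8), (1, 3, 9), (1, 6, 9), (2,
      3, 11), (2, 4, 8), (2, 4, 10), (2, 10, 11), (3, 5, 12), (3, 5, 13), (3, 9, 13), (3, 11, 12),
      (4, 8, 14), (4, 10, 14), (5, 7, 12), (5, 7, 14), (5, 13, 14)]
    fin := [0, 0, 2, 2, 2, 5, 6, 0, 2, 9, 10, 2, 5, 5, 14]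
    chd := [(0, 9), (2, 9)]
    steps := [(0, 1), (0, 7), (2, 3), (2, 4), (2, 8), (2, 11), (5, 12), (5, 13)] }
  rep := [2, 9, 5, 0, 6, 10, 14]

noncomputable def v1228 : Cov.CovD where
  P := 3
  N := 4
  pl := [0, 4, 8]
  lev := [⟨[], [], [(0, 3)], [4], [(1, 3, [1]), (2, 0, [1])]⟩,
    ⟨[], [(0, 0), (0, 1), (0, 3)], [(0, 1)], [4], [(2, 0, [1]), (3, 1, [0, 3])]⟩,
    ⟨[(0, 1)], [(0, 0), (1, 0), (1, 1)], [(0, 0)], [5], [(2, 0, [1]), (5, 0, [1])]⟩,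
    ⟨[(0, 1), (1, 2)], [(1, 0), (1, 1), (1, 2), (2, 0), (2, 1), (2, 2)], [(0, 1), (0, 2),
      (1, 2), (2, 2)], [], [(3, 1, [0, 3]), (5, 0, [1]), (6, 2, []), (7, 2, [])]⟩,
    ⟨[(1, 2), (2, 3)], [(0, 0), (1, 0), (2, 0)], [], [5, 6], [(2, 0, [1])]⟩,
    ⟨[(1, 3), (2, 3)], [(0, 3), (3, 0), (3, 1), (3, 2), (3, 3)], [(2, 2), (2, 3)], [6],
      [(1, 3, [1]), (6, 2, []), (7, 2, [])]⟩]
  Ta := [((2, 1), 0, 3), ((2, 8), 0, 6), ((5, 4), 0, 5), ((5, 6), 0, 2), ((6, 1), 2, 3), ((6, 5),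
    2, 0), ((7, 3), 2, 1), ((7, 8), 2, 6)]
  Tb := [((0, 1, 3), 4, 3, 1), ((1, 0, 2), 3, 4, 0), ((1, 0, 6), 3, 4, 2), ((1, 0, 8), 3, 4, 6),
    ((1, 2, 6), 3, 0, 2), ((1, 2, 8), 3, 0, 6), ((1, 6, 8), 3, 2, 6), ((2, 1, 8), 0, 3, 6),
    ((3, 0, 7), 1, 4, 2), ((4, 5, 8), 5, 0, 6), ((5, 4, 6), 0, 5, 2), ((6, 1, 5), 2, 3, 0),
    ((7, 3, 8), 2, 1, 6), ((8, 1, 2), 6, 3, 0), ((8, 1, 4), 6, 3, 5), ((8, 1, 7), 6, 3, 2),
    ((8, 2, 4), 6, 0, 5), ((8, 2, 7), 6, 0, 2), ((8, 4, 7), 6, 5, 2)]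
  Tc := [(1, 0, 3)]
  Td := [((0, 1), (2, 1), 3), ((0, 1), (2, 8), 6), ((0, 1), (5, 4), 5), ((0, 1), (5, 6), 2), ((1,
    0), (3, 0), 4), ((1, 0), (3, 7), 2), ((1, 3), (3, 0), 4), ((1, 3), (3, 7), 2), ((3, 1),
    (1, 0), 4), ((3, 1), (1, 2), 0), ((3, 1), (1, 6), 2), ((3, 1), (1, 8), 6)]
  G := [[0, 0x11c81246148188124ec1, 0, 0, 0xa4182a16814249112e8a434818229682c18268ace], [0,
    0x118114c211c811a8683, 0, 0x15c8895282964491cc12c29ac2, 0x14a2c9192e8a431ca4913a889686],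
    [0, 0x11c8124611c4124ac1, 0xa14a1468243824e184c2a485242e848f, 0, 0x118148a414811a8683],
    [0, 0x11882111e84111e42c3, 0, 0x114124a114124ac2, 0x1181168a411811a8686]]

noncomputable def n1228 : Ent := ⟨e1228, noF, [], [], []⟩

def c1228 : PLift (Cov.check n1228.C.D v1228 = true) := ⟨by decide +kernel⟩

def b1228 : PLift (entF (fidx ts) 400 1228 n1228 = true) := ⟨by decide +kernel⟩

theorem g1228 : GoodF (fidx ts) 400 1228 := GoodF.ofV v1228 n1228 c1228.down b1228.down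

/-- 466745:1000/4 -/
noncomputable def e1229 : SCfg where
  D := {
    a := 6
    L := 10
    kp := 7
    inn := [(0, 1), (1, 0), (1, 2), (1, 3), (2, 1), (2, 3), (2, 4), (3, 1), (3, 2), (3, 5), (4, 2), (5,
      3)]
    mix := [(0, 0), (0, 1), (0, 2), (1, 0), (1, 2), (1, 3), (2, 2), (2, 4), (2, 5), (3, 3), (3, 5), (3,
      6), (3, 7), (4, 2), (4, 4), (4, 8), (5, 1), (5, 6), (5, 7), (5, 9)]
    cl := [2, 1, 0, 3, 5, 0, 4, 4, 6, 7]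
    chq := [(0, 3), (1, 3), (3, 0), (3, 1)]
    rng := [(0, 1), (0, 3), (1, 0), (1, 2), (1, 6), (1, 9), (2, 1), (2, 8), (3, 0), (3, 7), (4, 5), (4,
      8), (5, 4), (5, 6), (6, 1), (6, 5), (7, 3), (7, 9), (8, 2), (8, 4), (9, 1), (9, 7)]
    lev := [] }
  links := [[1, 6, 7, 8], [6, 0, 8, 2, 3, 9], [3, 1, 8, 4, 10, 11], [9, 1, 2, 11, 12, 5, 13], [10, 2, 8,
    14], [13, 3, 12, 7, 15]]
  P := {
    a := 6
    N := 16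
    nb := [450, 845, 3354, 14886, 17668, 45192, 643, 37217, 16535, 8266, 18452, 5132, 2216, 33320,
      1296, 8352]
    tri := [(0, 1, 6), (0, 1, 8), (0, 6, 7), (0, 7, 8), (1, 2, 3), (1, 2, 8), (1, 3, 9), (1, 6, 9), (2,
      3, 11), (2, 4, 8), (2, 4, 10), (2, 10, 11), (3, 5, 12), (3, 5, 13), (3, 9, 13), (3, 11, 12),
      (4, 8, 14), (4, 10, 14), (5, 7, 12), (5, 7, 15), (5, 13, 15)]
    fin := [0, 1, 2, 3, 2, 0, 6, 0, 2, 1, 10, 2, 3, 3, 14, 15]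
    chd := [(0, 1), (2, 1)]
    steps := [(0, 7), (0, 5), (1, 9), (2, 4), (2, 8), (2, 11), (3, 12), (3, 13)] }
  rep := [2, 0, 6, 1, 3, 10, 14, 15]

noncomputable def v1229 : Cov.CovD where
  P := 3
  N := 5
  pl := [0, 4, 8, 9]
  lev := [⟨[], [], [(0, 1)], [2], [(1, 1, [3]), (2, 0, [3])]⟩,
    ⟨[], [(0, 0), (0, 1), (0, 3)], [(0, 3)], [2], [(2, 0, [3]), (3, 3, [0, 1])]⟩,
    ⟨[(0, 1)], [(0, 0), (1, 0), (1, 3)], [(0, 0)], [5], [(2, 0, [3]), (5, 0, [3])]⟩,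
    ⟨[(0, 1), (1, 2)], [(1, 0), (1, 3), (1, 4), (2, 0), (2, 3), (2, 4)], [(0, 3), (0, 4),
      (3, 4), (4, 4)], [], [(3, 3, [0, 1]), (5, 0, [3]), (6, 4, []), (7, 4, [])]⟩,
    ⟨[(1, 2), (2, 3)], [(0, 0), (1, 0), (2, 0)], [], [5, 6], [(2, 0, [3])]⟩,
    ⟨[(1, 3), (2, 3)], [(0, 1), (3, 0), (3, 1), (3, 3), (3, 4)], [(1, 4), (4, 4)], [7],
      [(1, 1, [3]), (6, 4, []), (7, 4, [])]⟩]
  Ta := [((2, 1), 0, 1), ((2, 8), 0, 6), ((5, 4), 0, 5), ((5, 6), 0, 4), ((6, 1), 4, 1), ((6, 5),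
    4, 0), ((7, 3), 4, 3), ((7, 9), 4, 7)]
  Tb := [((0, 1, 3), 2, 1, 3), ((1, 0, 2), 1, 2, 0), ((1, 0, 6), 1, 2, 4), ((1, 0, 9), 1, 2, 7),
    ((1, 2, 6), 1, 0, 4), ((1, 2, 9), 1, 0, 7), ((1, 6, 9), 1, 4, 7), ((2, 1, 8), 0, 1, 6),
    ((3, 0, 7), 3, 2, 4), ((4, 5, 8), 5, 0, 6), ((5, 4, 6), 0, 5, 4), ((6, 1, 5), 4, 1, 0),
    ((7, 3, 9), 4, 3, 7), ((8, 2, 4), 6, 0, 5), ((9, 1, 7), 7, 1, 4)]
  Tc := [(3, 0, 1)]
  Td := [((0, 3), (2, 1), 1), ((0, 3), (2, 8), 6), ((0, 3), (5, 4), 5), ((0, 3), (5, 6), 4), ((1,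
    3), (1, 0), 2), ((1, 3), (1, 2), 0), ((1, 3), (1, 6), 4), ((1, 3), (1, 9), 7), ((3, 0),
    (3, 0), 2), ((3, 0), (3, 7), 4), ((3, 1), (3, 0), 2), ((3, 1), (3, 7), 4)]
  G := [[0, 0xeec1eea16eec1ee61ac4, 0x11aeea3116ee63c28, 0x55de249918f212294823ec522582a8c,
    0x5199aeea791556ee6bc28], [0, 0xeec1eea16eec1ee61ac8, 0x1dae2a3516ae63c24,
    0xddde2d2254843e4122dd1e2d8c23e8c, 0xdda22a3dd62263c28], [0, 0, 0x71568bd1e9968b3dd6ec24,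
    0xd12d12ad128dd624d4, 0x715a9ddae996b33d1e414e28], [0, 0, 0xd42d126d12dd32cd828e8,
    0xd122d128ddde24d4, 0xd122121d1ecdda2838]]

noncomputable def n1229 : Ent := ⟨e1229, noF, [], [], [(7, 14, [385746751338780685620664494392815470296102193487288376377511937, 0]), (14, 15, [360035742630636841211993100915356868655746945586763691012702209, 0])]⟩

def c1229 : PLift (Cov.check n1229.C.D v1229 = true) := ⟨by decide +kernel⟩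

def b1229 : PLift (entF (fidx ts) 400 1229 n1229 = true) := ⟨by decide +kernel⟩

theorem g1229 : GoodF (fidx ts) 400 1229 := GoodF.ofV v1229 n1229 c1229.down b1229.down

/-- 466745:1000/7 -/
noncomputable def e1230 : SCfg where
  D := {
    a := 6
    L := 9
    kp := 6
    inn := [(0, 1), (1, 0), (1, 2), (1, 3), (2, 1), (2, 3), (2, 4), (3, 1), (3, 2), (3, 5), (4, 2), (5,
      3)]
    mix := [(0, 0), (0, 1), (0, 2), (1, 0), (1, 2), (1, 3), (2, 2), (2, 4), (2, 5), (3, 3), (3, 5), (3,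
      6), (3, 7), (4, 2), (4, 4), (4, 8), (5, 1), (5, 6), (5, 7), (5, 8)]
    cl := [4, 3, 0, 1, 5, 0, 2, 2, 6]
    chq := [(0, 1), (1, 0), (1, 3), (3, 1)]
    rng := [(0, 1), (0, 3), (1, 0), (1, 2), (1, 7), (1, 8), (2, 1), (2, 8), (3, 0), (3, 7), (4, 5), (4,
      8), (5, 4), (5, 6), (6, 5), (6, 8), (7, 1), (7, 3), (8, 1), (8, 2), (8, 4), (8, 6)]
    lev := [] }
  links := [[1, 6, 7, 8], [6, 0, 8, 2, 3, 9], [3, 1, 8, 4, 10, 11], [9, 1, 2, 11, 12, 5, 13], [10, 2, 8,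
    14], [13, 3, 12, 14, 7]]
  P := {
    a := 6
    N := 15
    nb := [450, 845, 3354, 14886, 17668, 28808, 643, 24929, 16535, 8266, 18452, 5132, 18472, 680,
      5552]
    tri := [(0, 1, 6), (0, 1, 8), (0, 6, 7), (0, 7, 8), (1, 2, 3), (1, 2, 8), (1, 3, 9), (1, 6, 9), (2,
      3, 11), (2, 4, 8), (2, 4, 10), (2, 10, 11), (3, 5, 12), (3, 5, 13), (3, 9, 13), (3, 11, 12),
      (4, 8, 14), (4, 10, 14), (5, 7, 13), (5, 7, 14), (5, 12, 14)]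
    fin := [0, 0, 2, 2, 2, 5, 6, 0, 2, 9, 10, 2, 5, 5, 14]
    chd := [(0, 9), (2, 9)]
    steps := [(0, 1), (0, 7), (2, 3), (2, 4), (2, 8), (2, 11), (5, 12), (5, 13)] }
  rep := [2, 9, 5, 0, 6, 10, 14]

noncomputable def v1230 : Cov.CovD where
  P := 3
  N := 4
  pl := [0, 4, 8]
  lev := [⟨[], [], [(0, 3)], [4], [(1, 3, [1]), (2, 0, [1])]⟩,
    ⟨[], [(0, 0), (0, 1), (0, 3)], [(0, 1)], [4], [(2, 0, [1]), (3, 1, [0, 3])]⟩,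
    ⟨[(0, 1)], [(0, 0), (1, 0), (1, 1)], [(0, 0)], [5], [(2, 0, [1]), (5, 0, [1])]⟩,
    ⟨[(0, 1), (1, 2)], [(1, 0), (1, 1), (1, 2), (2, 0), (2, 1), (2, 2)], [(0, 1), (0, 2),
      (1, 2), (2, 2)], [], [(3, 1, [0, 3]), (5, 0, [1]), (6, 2, []), (7, 2, [])]⟩,
    ⟨[(1, 2), (2, 3)], [(0, 0), (1, 0), (2, 0)], [], [5, 6], [(2, 0, [1])]⟩,
    ⟨[(1, 3), (2, 3)], [(0, 3), (3, 0), (3, 1), (3, 2), (3, 3)], [(2, 2), (2, 3)], [6],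
      [(1, 3, [1]), (6, 2, []), (7, 2, [])]⟩]
  Ta := [((2, 1), 0, 3), ((2, 8), 0, 6), ((5, 4), 0, 5), ((5, 6), 0, 2), ((6, 5), 2, 0), ((6, 8),
    2, 6), ((7, 1), 2, 3), ((7, 3), 2, 1)]
  Tb := [((0, 1, 3), 4, 3, 1), ((1, 0, 2), 3, 4, 0), ((1, 0, 7), 3, 4, 2), ((1, 0, 8), 3, 4, 6),
    ((1, 2, 7), 3, 0, 2), ((1, 2, 8), 3, 0, 6), ((1, 7, 8), 3, 2, 6), ((2, 1, 8), 0, 3, 6),
    ((3, 0, 7), 1, 4, 2), ((4, 5, 8), 5, 0, 6), ((5, 4, 6), 0, 5, 2), ((6, 5, 8), 2, 0, 6),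
    ((7, 1, 3), 2, 3, 1), ((8, 1, 2), 6, 3, 0), ((8, 1, 4), 6, 3, 5), ((8, 1, 6), 6, 3, 2),
    ((8, 2, 4), 6, 0, 5), ((8, 2, 6), 6, 0, 2), ((8, 4, 6), 6, 5, 2)]
  Tc := [(1, 0, 3)]
  Td := [((0, 1), (2, 1), 3), ((0, 1), (2, 8), 6), ((0, 1), (5, 4), 5), ((0, 1), (5, 6), 2), ((1,
    0), (3, 0), 4), ((1, 0), (3, 7), 2), ((1, 3), (3, 0), 4), ((1, 3), (3, 7), 2), ((3, 1),
    (1, 0), 4), ((3, 1), (1, 2), 0), ((3, 1), (1, 7), 2), ((3, 1), (1, 8), 6)]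
  G := [[0, 0x118114c211c41168a43, 0, 0, 0x14a2c9192e8a414aac913a889686], [0,
    0x11c8124611c4128ac1, 0, 0x4411498cd24e91c44512c25ac2,
    0xa4182a16834811c229a434831a8682c18268ace], [0, 0x114118c211c41164a43,
    0xa14829468618618a4614882c4c264a9e, 0, 0x1181268a411811a8686], [0,
    0x144184128e11c4128ac1, 0, 0x11412861181286c2, 0x14811868148111e8a43]]

noncomputable def n1230 : Ent := ⟨e1230, noF, [], [], []⟩

def c1230 : PLift (Cov.check n1230.C.D v1230 = true) := ⟨by decide +kernel⟩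

def b1230 : PLift (entF (fidx ts) 400 1230 n1230 = true) := ⟨by decide +kernel⟩

theorem g1230 : GoodF (fidx ts) 400 1230 := GoodF.ofV v1230 n1230 c1230.down b1230.down

/-- 466745:1000/6 -/
noncomputable def e1231 : SCfg where
  D := {
    a := 6
    L := 10
    kp := 7
    inn := [(0, 1), (1, 0), (1, 2), (1, 3), (2, 1), (2, 3), (2, 4), (3, 1), (3, 2), (3, 5), (4, 2), (5,
      3)]
    mix := [(0, 0), (0, 1), (0, 2), (1, 0), (1, 2), (1, 3), (2, 2), (2, 4), (2, 5), (3, 3), (3, 5), (3,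
      6), (3, 7), (4, 2), (4, 4), (4, 8), (5, 1), (5, 6), (5, 7), (5, 9)]
    cl := [2, 1, 0, 3, 5, 0, 4, 4, 6, 7]
    chq := [(0, 3), (1, 3), (3, 0), (3, 1)]
    rng := [(0, 1), (0, 3), (1, 0), (1, 2), (1, 7), (1, 9), (2, 1), (2, 8), (3, 0), (3, 7), (4, 5), (4,
      8), (5, 4), (5, 6), (6, 5), (6, 9), (7, 1), (7, 3), (8, 2), (8, 4), (9, 1), (9, 6)]
    lev := [] }
  links := [[1, 6, 7, 8], [6, 0, 8, 2, 3, 9], [3, 1, 8, 4, 10, 11], [9, 1, 2, 11, 12, 5, 13], [10, 2, 8,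
    14], [13, 3, 12, 15, 7]]
  P := {
    a := 6
    N := 16
    nb := [450, 845, 3354, 14886, 17668, 45192, 643, 41313, 16535, 8266, 18452, 5132, 34856, 680,
      1296, 4256]
    tri := [(0, 1, 6), (0, 1, 8), (0, 6, 7), (0, 7, 8), (1, 2, 3), (1, 2, 8), (1, 3, 9), (1, 6, 9), (2,
      3, 11), (2, 4, 8), (2, 4, 10), (2, 10, 11), (3, 5, 12), (3, 5, 13), (3, 9, 13), (3, 11, 12),
      (4, 8, 14), (4, 10, 14), (5, 7, 13), (5, 7, 15), (5, 12, 15)]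
    fin := [0, 0, 2, 2, 2, 5, 6, 0, 2, 9, 10, 2, 5, 5, 14, 15]
    chd := [(0, 9), (2, 9)]
    steps := [(0, 1), (0, 7), (2, 3), (2, 4), (2, 8), (2, 11), (5, 12), (5, 13)] }
  rep := [2, 0, 6, 9, 5, 10, 14, 15]

noncomputable def v1231 : Cov.CovD where
  P := 3
  N := 5
  pl := [0, 4, 8, 9]
  lev := [⟨[], [], [(0, 1)], [2], [(1, 1, [3]), (2, 0, [3])]⟩,
    ⟨[], [(0, 0), (0, 1), (0, 3)], [(0, 3)], [2], [(2, 0, [3]), (3, 3, [0, 1])]⟩,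
    ⟨[(0, 1)], [(0, 0), (1, 0), (1, 3)], [(0, 0)], [5], [(2, 0, [3]), (5, 0, [3])]⟩,
    ⟨[(0, 1), (1, 2)], [(1, 0), (1, 3), (1, 4), (2, 0), (2, 3), (2, 4)], [(0, 3), (0, 4),
      (3, 4), (4, 4)], [], [(3, 3, [0, 1]), (5, 0, [3]), (6, 4, []), (7, 4, [])]⟩,
    ⟨[(1, 2), (2, 3)], [(0, 0), (1, 0), (2, 0)], [], [5, 6], [(2, 0, [3])]⟩,
    ⟨[(1, 3), (2, 3)], [(0, 1), (3, 0), (3, 1), (3, 3), (3, 4)], [(1, 4), (4, 4)], [7],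
      [(1, 1, [3]), (6, 4, []), (7, 4, [])]⟩]
  Ta := [((2, 1), 0, 1), ((2, 8), 0, 6), ((5, 4), 0, 5), ((5, 6), 0, 4), ((6, 5), 4, 0), ((6, 9),
    4, 7), ((7, 1), 4, 1), ((7, 3), 4, 3)]
  Tb := [((0, 1, 3), 2, 1, 3), ((1, 0, 2), 1, 2, 0), ((1, 0, 7), 1, 2, 4), ((1, 0, 9), 1, 2, 7),
    ((1, 2, 7), 1, 0, 4), ((1, 2, 9), 1, 0, 7), ((1, 7, 9), 1, 4, 7), ((2, 1, 8), 0, 1, 6),
    ((3, 0, 7), 3, 2, 4), ((4, 5, 8), 5, 0, 6), ((5, 4, 6), 0, 5, 4), ((6, 5, 9), 4, 0, 7),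
    ((7, 1, 3), 4, 1, 3), ((8, 2, 4), 6, 0, 5), ((9, 1, 6), 7, 1, 4)]
  Tc := [(3, 0, 1)]
  Td := [((0, 3), (2, 1), 1), ((0, 3), (2, 8), 6), ((0, 3), (5, 4), 5), ((0, 3), (5, 6), 4), ((1,
    3), (1, 0), 2), ((1, 3), (1, 2), 0), ((1, 3), (1, 7), 4), ((1, 3), (1, 9), 7), ((3, 0),
    (3, 0), 2), ((3, 0), (3, 7), 4), ((3, 1), (3, 0), 2), ((3, 1), (3, 7), 4)]
  G := [[0, 0xeec1eea16eec1ee61ac4, 0x621299a683196e43ca4, 0x555e25826999e2922942ec52288c,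
    0x2212dda283dd6243ca8], [0, 0xeec1eea16eec1ee61ac8, 0x11aeea3116ee63c24,
    0xddde2d826dd1e2122d4c23ecd2288c, 0x5199aeea7c1556ee6bc28], [0, 0,
    0xddd728dda22121d1eca4, 0xd122d128ddde24d4, 0xd122121d1ecdda2838], [0, 0,
    0x71e5ad1e996b1dd6ec28, 0xd12d12cdda2dd62c58, 0x77355addae995b1d1ec28]]

noncomputable def n1231 : Ent := ⟨e1231, noF, [], [], [(7, 14, [385746751338780685620664494392815470296102193487288376377516033, 0]), (14, 15, [360035742630636841211993100915356868655746945586763691012710401, 0])]⟩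

def c1231 : PLift (Cov.check n1231.C.D v1231 = true) := ⟨by decide +kernel⟩

def b1231 : PLift (entF (fidx ts) 400 1231 n1231 = true) := ⟨by decide +kernel⟩

theorem g1231 : GoodF (fidx ts) 400 1231 := GoodF.ofV v1231 n1231 c1231.down b1231.down

/-- 466745:1000/8 -/
noncomputable def e1232 : SCfg where
  D := {
    a := 6
    L := 10
    kp := 7
    inn := [(0, 1), (1, 0), (1, 2), (1, 3), (2, 1), (2, 3), (2, 4), (3, 1), (3, 2), (3, 5), (4, 2), (5,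
      3)]
    mix := [(0, 0), (0, 1), (0, 2), (1, 0), (1, 2), (1, 3), (2, 2), (2, 4), (2, 5), (3, 3), (3, 5), (3,
      6), (3, 7), (4, 2), (4, 4), (4, 8), (5, 6), (5, 7), (5, 8), (5, 9)]
    cl := [3, 6, 0, 1, 4, 0, 2, 2, 5, 7]
    chq := [(0, 1), (1, 0), (1, 6), (6, 1)]
    rng := [(0, 1), (0, 3), (1, 0), (1, 2), (2, 1), (2, 8), (3, 0), (3, 7), (4, 5), (4, 8), (5, 4), (5,
      6), (6, 5), (6, 8), (7, 3), (7, 9), (8, 2), (8, 4), (8, 6), (8, 9), (9, 7), (9, 8)]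
    lev := [] }
  links := [[1, 6, 7, 8], [6, 0, 8, 2, 3, 9], [3, 1, 8, 4, 10, 11], [9, 1, 2, 11, 12, 5, 13], [10, 2, 8,
    14], [13, 3, 12, 14, 15]]
  P := {
    a := 6
    N := 16
    nb := [450, 845, 3354, 14886, 17668, 61448, 643, 321, 16535, 8266, 18452, 5132, 18472, 33320,
      38192, 24608]
    tri := [(0, 1, 6), (0, 1, 8), (0, 6, 7), (0, 7, 8), (1, 2, 3), (1, 2, 8), (1, 3, 9), (1, 6, 9), (2,
      3, 11), (2, 4, 8), (2, 4, 10), (2, 10, 11), (3, 5, 12), (3, 5, 13), (3, 9, 13), (3, 11, 12),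
      (4, 8, 14), (4, 10, 14), (5, 12, 14), (5, 13, 15), (5, 14, 15)]
    fin := [0, 1, 2, 3, 2, 5, 6, 0, 2, 1, 10, 2, 3, 3, 5, 15]
    chd := [(0, 1), (2, 1)]
    steps := [(0, 7), (1, 9), (2, 4), (2, 8), (2, 11), (3, 12), (3, 13), (5, 14)] }
  rep := [2, 1, 3, 6, 10, 5, 0, 15]

noncomputable def v1232 : Cov.CovD where
  P := 3
  N := 5
  pl := [0, 4, 8, 9]
  lev := [⟨[], [], [(0, 6)], [3], [(1, 6, [1]), (2, 0, [1])]⟩,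
    ⟨[], [(0, 0), (0, 1), (0, 6)], [(0, 1)], [3], [(2, 0, [1]), (3, 1, [0, 6])]⟩,
    ⟨[(0, 1)], [(0, 0), (1, 0), (1, 1)], [(0, 0)], [4], [(2, 0, [1]), (5, 0, [1])]⟩,
    ⟨[(0, 1), (1, 2)], [(1, 0), (1, 1), (1, 2), (2, 0), (2, 1), (2, 2)], [(0, 1), (0, 2),
      (1, 2), (2, 2)], [], [(3, 1, [0, 6]), (5, 0, [1]), (6, 2, []), (7, 2, [])]⟩,
    ⟨[(1, 2), (2, 3)], [(0, 0), (1, 0), (2, 0)], [], [4, 5], [(2, 0, [1])]⟩,
    ⟨[(1, 3), (2, 3)], [(3, 0), (3, 1), (3, 2)], [(2, 2)], [5, 7], [(6, 2, []), (7, 2,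
      [])]⟩]
  Ta := [((2, 1), 0, 6), ((2, 8), 0, 5), ((5, 4), 0, 4), ((5, 6), 0, 2), ((6, 5), 2, 0), ((6, 8),
    2, 5), ((7, 3), 2, 1), ((7, 9), 2, 7)]
  Tb := [((0, 1, 3), 3, 6, 1), ((1, 0, 2), 6, 3, 0), ((2, 1, 8), 0, 6, 5), ((3, 0, 7), 1, 3, 2),
    ((4, 5, 8), 4, 0, 5), ((5, 4, 6), 0, 4, 2), ((6, 5, 8), 2, 0, 5), ((7, 3, 9), 2, 1, 7),
    ((8, 2, 4), 5, 0, 4), ((8, 2, 6), 5, 0, 2), ((8, 2, 9), 5, 0, 7), ((8, 4, 6), 5, 4, 2),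
    ((8, 4, 9), 5, 4, 7), ((8, 6, 9), 5, 2, 7), ((9, 7, 8), 7, 2, 5)]
  Tc := [(1, 0, 6)]
  Td := [((0, 1), (2, 1), 6), ((0, 1), (2, 8), 5), ((0, 1), (5, 4), 4), ((0, 1), (5, 6), 2), ((1,
    0), (3, 0), 3), ((1, 0), (3, 7), 2), ((1, 6), (3, 0), 3), ((1, 6), (3, 7), 2), ((6, 1),
    (1, 0), 3), ((6, 1), (1, 2), 0)]
  G := [[0, 0x914d1468518918a4d14914c2448484a84cf, 0, 0,
    0x14a2c9193e8a434a89193e8a433c84911a82a9634a89193e8ace], [0, 0x5498cd2465498cd28ac1, 0,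
    0x54498452829e91c445d28ac2, 0xa4182a16148111e8ac14a49993e8a414a4913a889634889193e8ace],
    [0, 0x114d1468d1824d14825498c8859e846f, 0xe14e14a844a2cc4cee8a43, 0,
    0x13a82839881868488886d33c84888983e86c3], [0, 0x15c88cd24695a45968ca1, 0,
    0xd18d28695c4d28a52, 0x348318688881868488886d348888993e8e43]]

noncomputable def n1232 : Ent := ⟨e1232, noF, [], [], [(7, 14, [385746751338780685620664494392815470296102193487288376377511937, 0]), (7, 15, [360035742630636841211993100915356868655746945586763691012710401, 0])]⟩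

def c1232 : PLift (Cov.check n1232.C.D v1232 = true) := ⟨by decide +kernel⟩

def b1232 : PLift (entF (fidx ts) 400 1232 n1232 = true) := ⟨by decide +kernel⟩

theorem g1232 : GoodF (fidx ts) 400 1232 := GoodF.ofV v1232 n1232 c1232.down b1232.down

/-- 466745:1000/9 -/
noncomputable def e1233 : SCfg where
  D := {
    a := 6
    L := 10
    kp := 7
    inn := [(0, 1), (1, 0), (1, 2), (1, 3), (2, 1), (2, 3), (2, 4), (3, 1), (3, 2), (3, 5), (4, 2), (5,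
      3)]
    mix := [(0, 0), (0, 1), (0, 2), (1, 0), (1, 2), (1, 3), (2, 2), (2, 4), (2, 5), (3, 3), (3, 5), (3,
      6), (3, 7), (4, 2), (4, 4), (4, 8), (5, 6), (5, 7), (5, 8), (5, 9)]
    cl := [3, 6, 0, 1, 4, 0, 2, 2, 5, 7]
    chq := [(0, 1), (1, 0), (1, 6), (6, 1)]
    rng := [(0, 1), (0, 3), (1, 0), (1, 2), (2, 1), (2, 8), (3, 0), (3, 7), (4, 5), (4, 8), (5, 4), (5,
      6), (6, 5), (6, 9), (7, 3), (7, 8), (8, 2), (8, 4), (8, 7), (8, 9), (9, 6), (9, 8)]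
    lev := [] }
  links := [[1, 6, 7, 8], [6, 0, 8, 2, 3, 9], [3, 1, 8, 4, 10, 11], [9, 1, 2, 11, 12, 5, 13], [10, 2, 8,
    14], [13, 3, 12, 15, 14]]
  P := {
    a := 6
    N := 16
    nb := [450, 845, 3354, 14886, 17668, 61448, 643, 321, 16535, 8266, 18452, 5132, 34856, 16936,
      42288, 20512]
    tri := [(0, 1, 6), (0, 1, 8), (0, 6, 7), (0, 7, 8), (1, 2, 3), (1, 2, 8), (1, 3, 9), (1, 6, 9), (2,
      3, 11), (2, 4, 8), (2, 4, 10), (2, 10, 11), (3, 5, 12), (3, 5, 13), (3, 9, 13), (3, 11, 12),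
      (4, 8, 14), (4, 10, 14), (5, 12, 15), (5, 13, 14), (5, 14, 15)]
    fin := [0, 0, 2, 2, 2, 5, 6, 0, 2, 9, 10, 2, 5, 5, 14, 15]
    chd := [(0, 9), (2, 9)]
    steps := [(0, 1), (0, 7), (2, 3), (2, 4), (2, 8), (2, 11), (5, 12), (5, 13)] }
  rep := [2, 9, 5, 6, 10, 14, 0, 15]

noncomputable def v1233 : Cov.CovD where
  P := 3
  N := 5
  pl := [0, 4, 8, 9]
  lev := [⟨[], [], [(0, 6)], [3], [(1, 6, [1]), (2, 0, [1])]⟩,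
    ⟨[], [(0, 0), (0, 1), (0, 6)], [(0, 1)], [3], [(2, 0, [1]), (3, 1, [0, 6])]⟩,
    ⟨[(0, 1)], [(0, 0), (1, 0), (1, 1)], [(0, 0)], [4], [(2, 0, [1]), (5, 0, [1])]⟩,
    ⟨[(0, 1), (1, 2)], [(1, 0), (1, 1), (1, 2), (2, 0), (2, 1), (2, 2)], [(0, 1), (0, 2),
      (1, 2), (2, 2)], [], [(3, 1, [0, 6]), (5, 0, [1]), (6, 2, []), (7, 2, [])]⟩,
    ⟨[(1, 2), (2, 3)], [(0, 0), (1, 0), (2, 0)], [], [4, 5], [(2, 0, [1])]⟩,
    ⟨[(1, 3), (2, 3)], [(3, 0), (3, 1), (3, 2)], [(2, 2)], [5, 7], [(6, 2, []), (7, 2,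
      [])]⟩]
  Ta := [((2, 1), 0, 6), ((2, 8), 0, 5), ((5, 4), 0, 4), ((5, 6), 0, 2), ((6, 5), 2, 0), ((6, 9),
    2, 7), ((7, 3), 2, 1), ((7, 8), 2, 5)]
  Tb := [((0, 1, 3), 3, 6, 1), ((1, 0, 2), 6, 3, 0), ((2, 1, 8), 0, 6, 5), ((3, 0, 7), 1, 3, 2),
    ((4, 5, 8), 4, 0, 5), ((5, 4, 6), 0, 4, 2), ((6, 5, 9), 2, 0, 7), ((7, 3, 8), 2, 1, 5),
    ((8, 2, 4), 5, 0, 4), ((8, 2, 7), 5, 0, 2), ((8, 2, 9), 5, 0, 7), ((8, 4, 7), 5, 4, 2),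
    ((8, 4, 9), 5, 4, 7), ((8, 7, 9), 5, 2, 7), ((9, 6, 8), 7, 2, 5)]
  Tc := [(1, 0, 6)]
  Td := [((0, 1), (2, 1), 6), ((0, 1), (2, 8), 5), ((0, 1), (5, 4), 4), ((0, 1), (5, 6), 2), ((1,
    0), (3, 0), 3), ((1, 0), (3, 7), 2), ((1, 6), (3, 0), 3), ((1, 6), (3, 7), 2), ((6, 1),
    (1, 0), 3), ((6, 1), (1, 2), 0)]
  G := [[0, 0x4491ccd28a95a45968c61, 0, 0,
    0xa418816136811c8ac14a49493a82c3484913a889631688919c229ace], [0,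
    0x914489144259de425498cd28a5484eb, 0, 0x15c88c5282965498c92425ac2,
    0x1482c9188193e8e433c84911a82a96834a8c911a82a9634a89193e8ace], [0,
    0x15c88cd2464491cc4292cac1, 0x2181ce1466184c6484a8448ee8ac3, 0,
    0x31382939881868488886d3484888983e86c3], [0, 0x5498acc5a4695a45968ca1, 0,
    0x411781c45188c8d282d2, 0x3b38939868488886533c813a8688888c86c3]]

noncomputable def n1233 : Ent := ⟨e1233, noF, [], [], [(7, 14, [385746751338780685620664494392815470296102193487288376377516033, 0]), (7, 15, [360035742630636841211993100915356868655746945586763691012702209, 0])]⟩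

def c1233 : PLift (Cov.check n1233.C.D v1233 = true) := ⟨by decide +kernel⟩

def b1233 : PLift (entF (fidx ts) 400 1233 n1233 = true) := ⟨by decide +kernel⟩

theorem g1233 : GoodF (fidx ts) 400 1233 := GoodF.ofV v1233 n1233 c1233.down b1233.down

/-- 466745:1000 -/
noncomputable def e1234 : SCfg where
  D := {
    a := 6
    L := 11
    kp := 8
    inn := [(0, 1), (1, 0), (1, 2), (1, 3), (2, 1), (2, 3), (2, 4), (3, 1), (3, 2), (3, 5), (4, 2), (5,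
      3)]
    mix := [(0, 0), (0, 1), (0, 2), (1, 0), (1, 2), (1, 3), (2, 2), (2, 4), (2, 5), (3, 3), (3, 5), (3,
      6), (3, 7), (4, 2), (4, 4), (4, 8), (5, 6), (5, 7), (5, 9), (5, 10)]
    cl := [3, 5, 0, 1, 4, 0, 2, 2, 6, 7, 8]
    chq := [(0, 1), (1, 0), (1, 5), (5, 1)]
    rng := [(0, 1), (0, 3), (1, 0), (1, 2), (2, 1), (2, 8), (3, 0), (3, 7), (4, 5), (4, 8), (5, 4), (5,
      6), (6, 5), (6, 9), (7, 3), (7, 10), (8, 2), (8, 4), (9, 6), (9, 10), (10, 7), (10, 9)]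
    lev := [] }
  links := [[1, 6, 7, 8], [6, 0, 8, 2, 3, 9], [3, 1, 8, 4, 10, 11], [9, 1, 2, 11, 12, 5, 13], [10, 2, 8,
    14], [13, 3, 12, 15, 16]]
  P := {
    a := 6
    N := 17
    nb := [450, 845, 3354, 14886, 17668, 110600, 643, 321, 16535, 8266, 18452, 5132, 34856, 66088,
      1296, 69664, 40992]
    tri := [(0, 1, 6), (0, 1, 8), (0, 6, 7), (0, 7, 8), (1, 2, 3), (1, 2, 8), (1, 3, 9), (1, 6, 9), (2,
      3, 11), (2, 4, 8), (2, 4, 10), (2, 10, 11), (3, 5, 12), (3, 5, 13), (3, 9, 13), (3, 11, 12),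
      (4, 8, 14), (4, 10, 14), (5, 12, 15), (5, 13, 16), (5, 15, 16)]
    fin := [0, 0, 2, 2, 2, 5, 6, 0, 2, 9, 10, 2, 5, 5, 14, 15, 16]
    chd := [(0, 9), (2, 9)]
    steps := [(0, 1), (0, 7), (2, 3), (2, 4), (2, 8), (2, 11), (5, 12), (5, 13)] }
  rep := [2, 9, 5, 6, 10, 0, 14, 15, 16]

noncomputable def v1234 : Cov.CovD where
  P := 3
  N := 6
  pl := [0, 4, 8, 9, 10]
  lev := [⟨[], [], [(0, 5)], [3], [(1, 5, [1]), (2, 0, [1])]⟩,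
    ⟨[], [(0, 0), (0, 1), (0, 5)], [(0, 1)], [3], [(2, 0, [1]), (3, 1, [0, 5])]⟩,
    ⟨[(0, 1)], [(0, 0), (1, 0), (1, 1)], [(0, 0)], [4], [(2, 0, [1]), (5, 0, [1])]⟩,
    ⟨[(0, 1), (1, 2)], [(1, 0), (1, 1), (1, 2), (2, 0), (2, 1), (2, 2)], [(0, 1), (0, 2),
      (1, 2), (2, 2)], [], [(3, 1, [0, 5]), (5, 0, [1]), (6, 2, []), (7, 2, [])]⟩,
    ⟨[(1, 2), (2, 3)], [(0, 0), (1, 0), (2, 0)], [], [4, 6], [(2, 0, [1])]⟩,
    ⟨[(1, 3), (2, 3)], [(3, 0), (3, 1), (3, 2)], [(2, 2)], [7, 8], [(6, 2, []), (7, 2,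
      [])]⟩]
  Ta := [((2, 1), 0, 5), ((2, 8), 0, 6), ((5, 4), 0, 4), ((5, 6), 0, 2), ((6, 5), 2, 0), ((6, 9),
    2, 7), ((7, 3), 2, 1), ((7, 10), 2, 8)]
  Tb := [((0, 1, 3), 3, 5, 1), ((1, 0, 2), 5, 3, 0), ((2, 1, 8), 0, 5, 6), ((3, 0, 7), 1, 3, 2),
    ((4, 5, 8), 4, 0, 6), ((5, 4, 6), 0, 4, 2), ((6, 5, 9), 2, 0, 7), ((7, 3, 10), 2, 1, 8),
    ((8, 2, 4), 6, 0, 4), ((9, 6, 10), 7, 2, 8), ((10, 7, 9), 8, 2, 7)]
  Tc := [(1, 0, 5)]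
  Td := [((0, 1), (2, 1), 5), ((0, 1), (2, 8), 6), ((0, 1), (5, 4), 4), ((0, 1), (5, 6), 2), ((1,
    0), (3, 0), 3), ((1, 0), (3, 7), 2), ((1, 5), (3, 0), 3), ((1, 5), (3, 7), 2), ((5, 1),
    (1, 0), 3), ((5, 1), (1, 2), 0)]
  G := [[0, 0x55c8dda4698c448de8acdc84e1, 0, 0,
    0xa41414a8918811be8ec31c8ac94bba82c33c88c913aa8a9614aac91881bbe8ece], [0,
    0x45c8498c448de8adda4dd68ce1, 0, 0x51c8cc9dda4699c44c59964465ac2,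
    0xaac1a216148188b11e8ec33c88c913aa8a96831c8ac933a88a9634a8c91881bbe8ece], [0,
    0x55c858de4688c4d28ad84d48ce1, 0xe146181cc844aacc488444eaa6ce43, 0,
    0xb4841b484133c8318691888a868ac888a86db88bba864f], [0, 0x84455c88cd8de4edda4dd68ca1, 0,
    0xdd342dd984dda4d48cd2, 0x918449484133c8318681888a8689c888a86d248b88b2be8e4f]]

noncomputable def n1234 : Ent := ⟨e1234, noF, [], [], [(7, 14, [1685382413448253767852309107433119732572617628602273068445369937921, 0]), (7, 15, [1685356702439545624007900436039642273970977273354372543760005124097, 0]), (7, 16, [1580044410770988437309982408355971841652082177953823432505694154753, 0]), (14, 15, [1685356702439545624007900436039642273970977273354372543760005136385, 0]), (14, 16, [1580044410770988437309982408355971841652082177953823432505694162945, 0])]⟩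

def c1234 : PLift (Cov.check n1234.C.D v1234 = true) := ⟨by decide +kernel⟩

def b1234 : PLift (entF (fidx ts) 400 1234 n1234 = true) := ⟨by decide +kernel⟩

theorem g1234 : GoodF (fidx ts) 400 1234 := GoodF.ofV v1234 n1234 c1234.down b1234.down

/-- 486465:1001/1 -/
noncomputable def e1235 : SCfg where
  D := {
    a := 6
    L := 10
    kp := 7
    inn := [(0, 1), (1, 0), (1, 2), (1, 4), (1, 5), (2, 1), (2, 3), (2, 4), (3, 2), (3, 4), (4, 1), (4,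
      2), (4, 3), (5, 1)]
    mix := [(0, 0), (0, 1), (0, 2), (1, 0), (1, 2), (1, 3), (1, 4), (2, 3), (2, 5), (2, 6), (3, 6), (3,
      7), (4, 4), (4, 7), (4, 8), (5, 0), (5, 4), (5, 8), (5, 9)]
    cl := [0, 5, 2, 0, 0, 6, 1, 4, 3, 7]
    chq := [(0, 1), (1, 0), (1, 3), (3, 1)]
    rng := [(0, 1), (0, 9), (1, 0), (1, 2), (2, 1), (2, 3), (3, 2), (3, 5), (4, 8), (5, 3), (5, 6), (6,
      5), (6, 7), (7, 6), (7, 8), (8, 4), (8, 7), (8, 9), (9, 0), (9, 8)]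
    lev := [] }
  links := [[1, 6, 7, 8], [6, 0, 8, 9, 2, 4, 10, 5], [4, 1, 9, 11, 12, 3], [4, 2, 12, 13], [10, 1, 2, 3,
    13, 14], [6, 1, 10, 14, 15]]
  P := {
    a := 6
    N := 16
    nb := [450, 1909, 6682, 12308, 25614, 50242, 32931, 321, 643, 2310, 16434, 4612, 10252, 20504,
      42032, 16480]
    tri := [(0, 1, 6), (0, 1, 8), (0, 6, 7), (0, 7, 8), (1, 2, 4), (1, 2, 9), (1, 4, 10), (1, 5, 6),
      (1, 5, 10), (1, 8, 9), (2, 3, 4), (2, 3, 12), (2, 9, 11), (2, 11, 12), (3, 4, 13), (3, 12,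
      13), (4, 10, 14), (4, 13, 14), (5, 6, 15), (5, 10, 14), (5, 14, 15)]
    fin := [0, 0, 0, 3, 3, 0, 0, 7, 8, 0, 0, 11, 3, 13, 14, 15]
    chd := [(0, 3), (3, 14)]
    steps := [(0, 1), (0, 2), (0, 5), (0, 6), (0, 9), (0, 10), (3, 4), (3, 12)] }
  rep := [0, 3, 8, 14, 13, 7, 11, 15]

noncomputable def v1235 : Cov.CovD where
  P := 3
  N := 5
  pl := [1, 2, 5, 7, 9]
  lev := [⟨[], [], [], [2, 5], [(0, 0, [1])]⟩,
    ⟨[], [(0, 0)], [(0, 0)], [2], [(0, 0, [1]), (3, 0, [1]), (4, 0, [1])]⟩,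
    ⟨[(0, 1)], [(1, 0), (1, 1)], [(0, 1)], [6], [(3, 0, [1]), (6, 1, [0, 3])]⟩,
    ⟨[(1, 2)], [(2, 0), (2, 1)], [], [4], [(6, 1, [0, 3])]⟩,
    ⟨[(0, 1), (1, 2), (1, 3), (2, 3)], [(1, 0), (1, 3), (2, 0), (2, 1), (2, 3), (3, 0), (3,
      1), (3, 3)], [(0, 3)], [4], [(4, 0, [1]), (8, 3, [1])]⟩,
    ⟨[(0, 1), (1, 2), (1, 4)], [(0, 0), (1, 0), (1, 3), (4, 0), (4, 3)], [(0, 0), (0, 3)],
      [7], [(0, 0, [1]), (4, 0, [1]), (8, 3, [1])]⟩]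
  Ta := [((0, 1), 0, 5), ((0, 9), 0, 7), ((3, 2), 0, 2), ((3, 5), 0, 6), ((4, 8), 0, 3)]
  Tb := [((0, 1, 9), 0, 5, 7), ((1, 0, 2), 5, 0, 2), ((2, 1, 3), 2, 5, 0), ((3, 2, 5), 0, 2, 6),
    ((5, 3, 6), 6, 0, 1), ((6, 5, 7), 1, 6, 4), ((7, 6, 8), 4, 1, 3), ((8, 4, 7), 3, 0, 4),
    ((8, 4, 9), 3, 0, 7), ((8, 7, 9), 3, 4, 7), ((9, 0, 8), 7, 0, 3)]
  Tc := [(1, 0, 3)]
  Td := [((0, 1), (0, 1), 5), ((0, 1), (0, 9), 7), ((0, 1), (3, 2), 2), ((0, 1), (3, 5), 6), ((0,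
    1), (4, 8), 3), ((1, 0), (6, 5), 6), ((1, 0), (6, 7), 4), ((1, 3), (6, 5), 6), ((1, 3),
    (6, 7), 4), ((3, 1), (8, 4), 0), ((3, 1), (8, 7), 4), ((3, 1), (8, 9), 7)]
  G := [[0, 0xe12e146e188c1, 0, 0x62641a6a82c1c6226aec18881cc, 0x62626c1a882c1ae226aec18841aa],
    [0, 0xe1e1ae1e1c681, 0x243423c4e2e1c88829cce1e2c4e1e2c8ca, 0x614e1e2cce838298c1,
    0xe1a6adce26d4e3cc21], [0, 0xe124e14e18ac1, 0, 0x626a6c1a881c1, 0x626a6c1a881a1]]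

noncomputable def n1235 : Ent := ⟨e1235, noF, [], [], []⟩

def c1235 : PLift (Cov.check n1235.C.D v1235 = true) := ⟨by decide +kernel⟩

def b1235 : PLift (entF (fidx ts) 400 1235 n1235 = true) := ⟨by decide +kernel⟩

theorem g1235 : GoodF (fidx ts) 400 1235 := GoodF.ofV v1235 n1235 c1235.down b1235.down

/-- 486465:1001 -/
noncomputable def e1236 : SCfg where
  D := {
    a := 6
    L := 11
    kp := 8
    inn := [(0, 1), (1, 0), (1, 2), (1, 4), (1, 5), (2, 1), (2, 3), (2, 4), (3, 2), (3, 4), (4, 1), (4,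
      2), (4, 3), (5, 1)]
    mix := [(0, 0), (0, 1), (0, 2), (1, 0), (1, 2), (1, 3), (1, 4), (2, 3), (2, 5), (2, 6), (3, 6), (3,
      7), (4, 4), (4, 7), (4, 8), (5, 0), (5, 4), (5, 9), (5, 10)]
    cl := [0, 5, 2, 0, 0, 6, 1, 3, 4, 7, 8]
    chq := [(0, 1), (1, 0), (1, 4), (4, 1)]
    rng := [(0, 1), (0, 10), (1, 0), (1, 2), (2, 1), (2, 3), (3, 2), (3, 5), (4, 8), (4, 9), (5, 3),
      (5, 6), (6, 5), (6, 7), (7, 6), (7, 8), (8, 4), (8, 7), (9, 4), (9, 10), (10, 0), (10, 9)]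
    lev := [] }
  links := [[1, 6, 7, 8], [6, 0, 8, 9, 2, 4, 10, 5], [4, 1, 9, 11, 12, 3], [4, 2, 12, 13], [10, 1, 2, 3,
    13, 14], [6, 1, 10, 15, 16]]
  P := {
    a := 6
    N := 17
    nb := [450, 1909, 6682, 12308, 25614, 99394, 65699, 321, 643, 2310, 49202, 4612, 10252, 20504,
      9232, 66592, 32864]
    tri := [(0, 1, 6), (0, 1, 8), (0, 6, 7), (0, 7, 8), (1, 2, 4), (1, 2, 9), (1, 4, 10), (1, 5, 6),
      (1, 5, 10), (1, 8, 9), (2, 3, 4), (2, 3, 12), (2, 9, 11), (2, 11, 12), (3, 4, 13), (3, 12,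
      13), (4, 10, 14), (4, 13, 14), (5, 6, 16), (5, 10, 15), (5, 15, 16)]
    fin := [0, 0, 0, 3, 3, 0, 0, 7, 8, 0, 0, 11, 3, 13, 14, 15, 16]
    chd := [(0, 3), (3, 14)]
    steps := [(0, 1), (0, 2), (0, 5), (0, 6), (0, 9), (0, 10), (3, 4), (3, 12)] }
  rep := [0, 3, 8, 13, 14, 7, 11, 15, 16]

noncomputable def v1236 : Cov.CovD where
  P := 3
  N := 6
  pl := [1, 2, 5, 7, 9, 10]
  lev := [⟨[], [], [], [2, 5], [(0, 0, [1])]⟩,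
    ⟨[], [(0, 0)], [(0, 0)], [2], [(0, 0, [1]), (3, 0, [1]), (4, 0, [1])]⟩,
    ⟨[(0, 1)], [(1, 0), (1, 1)], [(0, 1)], [6], [(3, 0, [1]), (6, 1, [0, 4])]⟩,
    ⟨[(1, 2)], [(2, 0), (2, 1)], [], [3], [(6, 1, [0, 4])]⟩,
    ⟨[(0, 1), (1, 2), (1, 3), (2, 3)], [(1, 0), (1, 4), (2, 0), (2, 1), (2, 4), (3, 0), (3,
      1), (3, 4)], [(0, 4)], [3], [(4, 0, [1]), (8, 4, [1])]⟩,
    ⟨[(0, 1), (1, 2), (1, 4)], [(0, 0), (1, 0), (4, 0)], [(0, 0)], [7, 8], [(0, 0, [1]),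
      (4, 0, [1])]⟩]
  Ta := [((0, 1), 0, 5), ((0, 10), 0, 8), ((3, 2), 0, 2), ((3, 5), 0, 6), ((4, 8), 0, 4), ((4,
    9), 0, 7)]
  Tb := [((0, 1, 10), 0, 5, 8), ((1, 0, 2), 5, 0, 2), ((2, 1, 3), 2, 5, 0), ((3, 2, 5), 0, 2, 6),
    ((4, 8, 9), 0, 4, 7), ((5, 3, 6), 6, 0, 1), ((6, 5, 7), 1, 6, 3), ((7, 6, 8), 3, 1, 4),
    ((8, 4, 7), 4, 0, 3), ((9, 4, 10), 7, 0, 8), ((10, 0, 9), 8, 0, 7)]
  Tc := [(1, 0, 4)]
  Td := [((0, 1), (0, 1), 5), ((0, 1), (0, 10), 8), ((0, 1), (3, 2), 2), ((0, 1), (3, 5), 6),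
    ((0, 1), (4, 8), 4), ((0, 1), (4, 9), 7), ((1, 0), (6, 5), 6), ((1, 0), (6, 7), 3), ((1,
    4), (6, 5), 6), ((1, 4), (6, 7), 3), ((4, 1), (8, 4), 0), ((4, 1), (8, 7), 3)]
  G := [[0, 0x614e18e12e8148c1, 0, 0x4481eaeee2c1ce24eeec1a881cc,
    0x2262c1ecae86c1ae22eeec1c881aa], [0, 0xe124e18e14ac1,
    0x4634254ee3e29a83829cc643425e1e2cc82381c8cc, 0x41e2c4e2e1ca18cc1,
    0x221e2e1ccc12ecec8a1], [0, 0xe1e1ae1e1ca41, 0, 0xee641eea81c1, 0xe26eeec18841a1]]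

noncomputable def n1236 : Ent := ⟨e1236, noF, [], [], [(14, 15, [1685356702439545624007900436039642273970977273354372543760005148673, 0])]⟩

def c1236 : PLift (Cov.check n1236.C.D v1236 = true) := ⟨by decide +kernel⟩

def b1236 : PLift (entF (fidx ts) 400 1236 n1236 = true) := ⟨by decide +kernel⟩

theorem g1236 : GoodF (fidx ts) 400 1236 := GoodF.ofV v1236 n1236 c1236.down b1236.down

/-- 466756:1002/1 -/
noncomputable def e1237 : SCfg where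
  D := {
    a := 6
    L := 10
    kp := 7
    inn := [(0, 1), (1, 0), (1, 2), (1, 3), (2, 1), (2, 3), (2, 4), (3, 1), (3, 2), (3, 4), (3, 5), (4,
      2), (4, 3), (4, 5), (5, 3), (5, 4)]
    mix := [(0, 0), (0, 1), (0, 2), (1, 0), (1, 2), (1, 3), (2, 2), (2, 4), (2, 5), (3, 3), (3, 6), (3,
      7), (4, 5), (4, 8), (5, 1), (5, 6), (5, 8), (5, 9)]
    cl := [1, 2, 0, 0, 5, 4, 3, 6, 3, 7]
    chq := [(0, 3), (0, 4), (3, 0), (4, 0)]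
    rng := [(0, 1), (0, 3), (1, 0), (1, 2), (1, 8), (1, 9), (2, 1), (2, 4), (3, 0), (3, 7), (4, 2), (4,
      5), (5, 4), (5, 8), (6, 7), (6, 9), (7, 3), (7, 6), (8, 1), (8, 5), (9, 1), (9, 6)]
    lev := [] }
  links := [[1, 6, 7, 8], [6, 0, 8, 2, 3, 9], [3, 1, 8, 10, 11, 4], [9, 1, 2, 4, 5, 12, 13], [5, 3, 2,
    11, 14], [12, 3, 4, 14, 7, 15]]
  P := {
    a := 6
    N := 16
    nb := [450, 845, 3354, 12854, 18476, 53400, 643, 49505, 1159, 8266, 2308, 17428, 41000, 4616,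
      2224, 4256]
    tri := [(0, 1, 6), (0, 1, 8), (0, 6, 7), (0, 7, 8), (1, 2, 3), (1, 2, 8), (1, 3, 9), (1, 6, 9), (2,
      3, 4), (2, 4, 11), (2, 8, 10), (2, 10, 11), (3, 4, 5), (3, 5, 12), (3, 9, 13), (3, 12, 13),
      (4, 5, 14), (4, 11, 14), (5, 7, 14), (5, 7, 15), (5, 12, 15)]
    fin := [0, 1, 1, 3, 3, 5, 0, 5, 1, 1, 10, 11, 3, 13, 3, 15]
    chd := [(1, 3), (1, 11)]
    steps := [(0, 6), (1, 2), (1, 8), (1, 9), (3, 4), (3, 14), (3, 12), (5, 7)] }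
  rep := [1, 0, 5, 3, 11, 10, 13, 15]

noncomputable def v1237 : Cov.CovD where
  P := 3
  N := 5
  pl := [0, 1, 4, 7, 9]
  lev := [⟨[], [], [], [1, 2], [(2, 0, [3, 4])]⟩,
    ⟨[], [(0, 0)], [(0, 0)], [1], [(2, 0, [3, 4]), (3, 0, [3, 4])]⟩,
    ⟨[(0, 1)], [(0, 0), (1, 0), (1, 4)], [(0, 4)], [5], [(2, 0, [3, 4]), (5, 4, [0])]⟩,
    ⟨[(0, 1), (1, 2)], [(1, 0), (1, 3), (2, 0), (2, 3), (2, 4)], [(0, 3)], [6], [(3, 0, [3,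
      4]), (6, 3, [0])]⟩,
    ⟨[(1, 2), (1, 3), (2, 3)], [(2, 0), (2, 3), (2, 4), (3, 0), (3, 3), (3, 4)], [(3, 4)],
      [], [(5, 4, [0]), (8, 3, [0])]⟩,
    ⟨[(1, 3), (2, 3), (2, 4), (3, 4)], [(3, 0), (3, 3), (4, 3), (4, 4)], [(3, 3)], [2, 7],
      [(6, 3, [0]), (8, 3, [0])]⟩]
  Ta := [((2, 1), 0, 2), ((2, 4), 0, 5), ((3, 0), 0, 1), ((3, 7), 0, 6), ((6, 7), 3, 6), ((6, 9),
    3, 7), ((8, 1), 3, 2), ((8, 5), 3, 4)]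
  Tb := [((0, 1, 3), 1, 2, 0), ((1, 0, 2), 2, 1, 0), ((1, 0, 8), 2, 1, 3), ((1, 0, 9), 2, 1, 7),
    ((1, 2, 8), 2, 0, 3), ((1, 2, 9), 2, 0, 7), ((1, 8, 9), 2, 3, 7), ((2, 1, 4), 0, 2, 5),
    ((3, 0, 7), 0, 1, 6), ((4, 2, 5), 5, 0, 4), ((5, 4, 8), 4, 5, 3), ((6, 7, 9), 3, 6, 7),
    ((7, 3, 6), 6, 0, 3), ((8, 1, 5), 3, 2, 4), ((9, 1, 6), 7, 2, 3)]
  Tc := [(0, 3, 4)]
  Td := [((0, 3), (2, 1), 2), ((0, 3), (2, 4), 5), ((0, 3), (3, 0), 1), ((0, 3), (3, 7), 6), ((0,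
    4), (2, 1), 2), ((0, 4), (2, 4), 5), ((0, 4), (3, 0), 1), ((0, 4), (3, 7), 6), ((3, 0),
    (6, 7), 6), ((3, 0), (6, 9), 7), ((3, 0), (8, 1), 2), ((3, 0), (8, 5), 4), ((4, 0), (5,
    4), 5), ((4, 0), (5, 8), 3)]
  G := [[0, 0, 0xee61eea1eec1e84, 0xd11d584711189d1c8af141c31d982f448f1488c4,
    0xb144121b31b582f9131a1b51b91828fec8], [0, 0, 0xe142e12e1e1ae18ece1488c,
    0xd1d1a441d31d36d21d56a8c, 0x31b11b5e1b3b1a1b51b991ee48], [0, 0x945859ce128, 0,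
    0x1252c47141458c2fd8d46b1489c689c4, 0x141212a4f181818a8fb2bbab8eb48], [0, 0x555e999ec124,
    0, 0xd25269da48669521888bd483c4, 0x1b34239521231b9a3b3ea288edc8]]

noncomputable def n1237 : Ent := ⟨e1237, noF, [], [], []⟩

def c1237 : PLift (Cov.check n1237.C.D v1237 = true) := ⟨by decide +kernel⟩

def b1237 : PLift (entF (fidx ts) 400 1237 n1237 = true) := ⟨by decide +kernel⟩

theorem g1237 : GoodF (fidx ts) 400 1237 := GoodF.ofV v1237 n1237 c1237.down b1237.down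

/-- 466756:1002/2 -/
noncomputable def e1238 : SCfg where
  D := {
    a := 6
    L := 10
    kp := 7
    inn := [(0, 1), (1, 0), (1, 2), (1, 3), (2, 1), (2, 3), (2, 4), (3, 1), (3, 2), (3, 4), (3, 5), (4,
      2), (4, 3), (4, 5), (5, 3), (5, 4)]
    mix := [(0, 0), (0, 1), (0, 2), (1, 0), (1, 2), (1, 3), (2, 2), (2, 4), (2, 5), (3, 3), (3, 6), (3,
      7), (4, 5), (4, 8), (5, 1), (5, 6), (5, 8), (5, 9)]
    cl := [1, 2, 0, 0, 5, 4, 3, 6, 3, 7]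
    chq := [(0, 3), (0, 4), (3, 0), (4, 0)]
    rng := [(0, 1), (0, 3), (1, 0), (1, 2), (1, 6), (1, 9), (2, 1), (2, 4), (3, 0), (3, 7), (4, 2), (4,
      5), (5, 4), (5, 8), (6, 1), (6, 7), (7, 3), (7, 6), (8, 5), (8, 9), (9, 1), (9, 8)]
    lev := [] }
  links := [[1, 6, 7, 8], [6, 0, 8, 2, 3, 9], [3, 1, 8, 10, 11, 4], [9, 1, 2, 4, 5, 12, 13], [5, 3, 2,
    11, 14], [12, 3, 4, 14, 15, 7]]
  P := {
    a := 6
    N := 16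
    nb := [450, 845, 3354, 12854, 18476, 53400, 643, 37217, 1159, 8266, 2308, 17428, 8360, 4616,
      34864, 16544]
    tri := [(0, 1, 6), (0, 1, 8), (0, 6, 7), (0, 7, 8), (1, 2, 3), (1, 2, 8), (1, 3, 9), (1, 6, 9), (2,
      3, 4), (2, 4, 11), (2, 8, 10), (2, 10, 11), (3, 4, 5), (3, 5, 12), (3, 9, 13), (3, 12, 13),
      (4, 5, 14), (4, 11, 14), (5, 7, 12), (5, 7, 15), (5, 14, 15)]
    fin := [0, 1, 1, 3, 3, 5, 0, 5, 1, 1, 10, 11, 3, 13, 3, 15]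
    chd := [(1, 3), (1, 11)]
    steps := [(0, 6), (1, 2), (1, 8), (1, 9), (3, 4), (3, 14), (3, 12), (5, 7)] }
  rep := [1, 0, 5, 3, 11, 10, 13, 15]

noncomputable def v1238 : Cov.CovD where
  P := 3
  N := 5
  pl := [0, 1, 4, 7, 9]
  lev := [⟨[], [], [], [1, 2], [(2, 0, [3, 4])]⟩,
    ⟨[], [(0, 0)], [(0, 0)], [1], [(2, 0, [3, 4]), (3, 0, [3, 4])]⟩,
    ⟨[(0, 1)], [(0, 0), (1, 0), (1, 4)], [(0, 4)], [5], [(2, 0, [3, 4]), (5, 4, [0])]⟩,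
    ⟨[(0, 1), (1, 2)], [(1, 0), (1, 3), (2, 0), (2, 3), (2, 4)], [(0, 3)], [6], [(3, 0, [3,
      4]), (6, 3, [0])]⟩,
    ⟨[(1, 2), (1, 3), (2, 3)], [(2, 0), (2, 3), (2, 4), (3, 0), (3, 3), (3, 4)], [(3, 4)],
      [], [(5, 4, [0]), (8, 3, [0])]⟩,
    ⟨[(1, 3), (2, 3), (2, 4), (3, 4)], [(3, 0), (3, 3), (4, 3), (4, 4)], [(3, 3)], [2, 7],
      [(6, 3, [0]), (8, 3, [0])]⟩]
  Ta := [((2, 1), 0, 2), ((2, 4), 0, 5), ((3, 0), 0, 1), ((3, 7), 0, 6), ((6, 1), 3, 2), ((6, 7),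
    3, 6), ((8, 5), 3, 4), ((8, 9), 3, 7)]
  Tb := [((0, 1, 3), 1, 2, 0), ((1, 0, 2), 2, 1, 0), ((1, 0, 6), 2, 1, 3), ((1, 0, 9), 2, 1, 7),
    ((1, 2, 6), 2, 0, 3), ((1, 2, 9), 2, 0, 7), ((1, 6, 9), 2, 3, 7), ((2, 1, 4), 0, 2, 5),
    ((3, 0, 7), 0, 1, 6), ((4, 2, 5), 5, 0, 4), ((5, 4, 8), 4, 5, 3), ((6, 1, 7), 3, 2, 6),
    ((7, 3, 6), 6, 0, 3), ((8, 5, 9), 3, 4, 7), ((9, 1, 8), 7, 2, 3)]
  Tc := [(0, 3, 4)]
  Td := [((0, 3), (2, 1), 2), ((0, 3), (2, 4), 5), ((0, 3), (3, 0), 1), ((0, 3), (3, 7), 6), ((0,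
    4), (2, 1), 2), ((0, 4), (2, 4), 5), ((0, 4), (3, 0), 1), ((0, 4), (3, 7), 6), ((3, 0),
    (6, 1), 2), ((3, 0), (6, 7), 6), ((3, 0), (8, 5), 4), ((3, 0), (8, 9), 7), ((4, 0), (5,
    4), 5), ((4, 0), (5, 8), 3)]
  G := [[0, 0, 0xee61eea1eec1e48, 0x148d18941d5ae4d11d584718d14871c94e8c,
    0x39344135b1b182fb1382aab1b51b919928fec8], [0, 0, 0xe18e1864e1e16e12e14e8c,
    0x1d3d1a44d11d36d2d16a8c, 0x1b31b561b31b9ab1b1ce48], [0, 0x189e55a59ce128, 0,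
    0x1218943c8f145294c8fd847d4d8a1c4, 0x141212a4f181818a8f9b639a3aceb48], [0, 0x55699ac128,
    0, 0xd25261552d24984fdd6486a1c4, 0x123b4632189abb6bbcad48]]

noncomputable def n1238 : Ent := ⟨e1238, noF, [], [], []⟩

def c1238 : PLift (Cov.check n1238.C.D v1238 = true) := ⟨by decide +kernel⟩

def b1238 : PLift (entF (fidx ts) 400 1238 n1238 = true) := ⟨by decide +kernel⟩

theorem g1238 : GoodF (fidx ts) 400 1238 := GoodF.ofV v1238 n1238 c1238.down b1238.down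

/-- 466756:1002 -/
noncomputable def e1239 : SCfg where
  D := {
    a := 6
    L := 11
    kp := 8
    inn := [(0, 1), (1, 0), (1, 2), (1, 3), (2, 1), (2, 3), (2, 4), (3, 1), (3, 2), (3, 4), (3, 5), (4,
      2), (4, 3), (4, 5), (5, 3), (5, 4)]
    mix := [(0, 0), (0, 1), (0, 2), (1, 0), (1, 2), (1, 3), (2, 2), (2, 4), (2, 5), (3, 3), (3, 6), (3,
      7), (4, 5), (4, 8), (5, 6), (5, 8), (5, 9), (5, 10)]
    cl := [1, 5, 0, 0, 6, 4, 3, 2, 3, 7, 8]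
    chq := [(0, 4), (2, 4), (4, 0), (4, 2)]
    rng := [(0, 1), (0, 3), (1, 0), (1, 2), (2, 1), (2, 4), (3, 0), (3, 7), (4, 2), (4, 5), (5, 4), (5,
      8), (6, 7), (6, 10), (7, 3), (7, 6), (8, 5), (8, 9), (9, 8), (9, 10), (10, 6), (10, 9)]
    lev := [] }
  links := [[1, 6, 7, 8], [6, 0, 8, 2, 3, 9], [3, 1, 8, 10, 11, 4], [9, 1, 2, 4, 5, 12, 13], [5, 3, 2,
    11, 14], [12, 3, 4, 14, 15, 16]]
  P := {
    a := 6
    N := 17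
    nb := [450, 845, 3354, 12854, 18476, 118808, 643, 321, 1159, 8266, 2308, 17428, 73768, 4616,
      34864, 81952, 36896]
    tri := [(0, 1, 6), (0, 1, 8), (0, 6, 7), (0, 7, 8), (1, 2, 3), (1, 2, 8), (1, 3, 9), (1, 6, 9), (2,
      3, 4), (2, 4, 11), (2, 8, 10), (2, 10, 11), (3, 4, 5), (3, 5, 12), (3, 9, 13), (3, 12, 13),
      (4, 5, 14), (4, 11, 14), (5, 12, 16), (5, 14, 15), (5, 15, 16)]
    fin := [0, 1, 1, 3, 3, 5, 0, 7, 1, 1, 10, 3, 5, 13, 5, 15, 16]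
    chd := [(1, 3), (3, 13)]
    steps := [(0, 6), (1, 2), (1, 8), (1, 9), (3, 4), (3, 11), (5, 14), (5, 12)] }
  rep := [1, 0, 13, 5, 3, 7, 10, 15, 16]

noncomputable def v1239 : Cov.CovD where
  P := 3
  N := 6
  pl := [0, 1, 4, 9, 10]
  lev := [⟨[], [], [], [1, 5], [(2, 0, [4])]⟩,
    ⟨[], [(0, 0)], [(0, 0)], [1], [(2, 0, [4]), (3, 0, [4])]⟩,
    ⟨[(0, 1)], [(0, 0), (1, 0), (1, 4)], [(0, 4)], [6], [(2, 0, [4]), (5, 4, [0, 2])]⟩,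
    ⟨[(0, 1), (1, 2)], [(1, 0), (1, 2), (1, 3), (2, 0), (2, 2), (2, 3), (2, 4)], [(0, 2),
      (0, 3), (2, 3)], [], [(3, 0, [4]), (6, 3, []), (7, 2, [4])]⟩,
    ⟨[(1, 2), (1, 3), (2, 3)], [(2, 0), (2, 3), (2, 4), (3, 0), (3, 2), (3, 3), (3, 4)],
      [(3, 4)], [], [(5, 4, [0, 2]), (8, 3, [])]⟩,
    ⟨[(1, 3), (2, 3), (2, 4), (3, 4)], [(3, 0), (3, 2), (3, 3), (4, 3), (4, 4)], [(3, 3)],
      [7, 8], [(6, 3, []), (8, 3, [])]⟩]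
  Ta := [((2, 1), 0, 5), ((2, 4), 0, 6), ((3, 0), 0, 1), ((3, 7), 0, 2), ((6, 7), 3, 2), ((6,
    10), 3, 8), ((8, 5), 3, 4), ((8, 9), 3, 7)]
  Tb := [((0, 1, 3), 1, 5, 0), ((1, 0, 2), 5, 1, 0), ((2, 1, 4), 0, 5, 6), ((3, 0, 7), 0, 1, 2),
    ((4, 2, 5), 6, 0, 4), ((5, 4, 8), 4, 6, 3), ((6, 7, 10), 3, 2, 8), ((7, 3, 6), 2, 0, 3),
    ((8, 5, 9), 3, 4, 7), ((9, 8, 10), 7, 3, 8), ((10, 6, 9), 8, 3, 7)]
  Tc := [(4, 0, 2)]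
  Td := [((0, 4), (2, 1), 5), ((0, 4), (2, 4), 6), ((0, 4), (3, 0), 1), ((0, 4), (3, 7), 2), ((2,
    4), (7, 3), 0), ((2, 4), (7, 6), 3), ((4, 0), (5, 4), 6), ((4, 0), (5, 8), 3), ((4, 2),
    (5, 4), 6), ((4, 2), (5, 8), 3)]
  G := [[0, 0, 0, 0xc14241b242df28b438cecf2452b2e2d524e1f52892cc,
    0x1f5c23412f4a128f18ec1f32521f582bc1e582cc], [0, 0, 0,
    0x72833c2df2822d2f8e4f2472b2c2daa4bf4e8c, 0x4a45f24f42f48ac4b44f24f42f48acc], [0,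
    0x38625ac122ba34ac126, 0xf2f4618f2f4618c, 0x96341534af281b921c6c1,
    0x82452173acf428187858ec1], [0, 0x22fe41222fe412c, 0xf12f12f18e41, 0xf2422c3f4af284c1,
    0x4b44f24f42f48ac1]]

noncomputable def n1239 : Ent := ⟨e1239, noF, [], [], [(7, 15, [1685356702439545624007900436039642273970977273354372543760005156865, 0]), (7, 16, [1580044410770988437309982408355971841652082177953823432505694183425, 0])]⟩

def c1239 : PLift (Cov.check n1239.C.D v1239 = true) := ⟨by decide +kernel⟩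

def b1239 : PLift (entF (fidx ts) 400 1239 n1239 = true) := ⟨by decide +kernel⟩

theorem g1239 : GoodF (fidx ts) 400 1239 := GoodF.ofV v1239 n1239 c1239.down b1239.down

/-- 466755:1003 -/
noncomputable def e1240 : SCfg where
  D := {
    a := 6
    L := 11
    kp := 9
    inn := [(0, 1), (1, 0), (1, 2), (1, 3), (2, 1), (2, 3), (2, 4), (3, 1), (3, 2), (3, 4), (3, 5), (4,
      2), (4, 3), (5, 3)]
    mix := [(0, 0), (0, 1), (0, 2), (1, 0), (1, 2), (1, 3), (2, 2), (2, 4), (2, 5), (3, 3), (3, 6), (3,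
      7), (4, 5), (4, 6), (4, 8), (5, 3), (5, 7), (5, 9), (5, 10)]
    cl := [2, 7, 1, 0, 5, 3, 4, 0, 6, 8, 9]
    chq := [(0, 3), (0, 5), (0, 6), (1, 2), (2, 1), (2, 5), (3, 0), (5, 0), (5, 2), (6, 0)]
    rng := [(0, 1), (0, 3), (1, 0), (1, 2), (2, 1), (2, 4), (3, 0), (3, 10), (4, 2), (4, 5), (5, 4),
      (5, 8), (6, 7), (6, 8), (7, 6), (7, 9), (8, 5), (8, 6), (9, 7), (9, 10), (10, 3), (10, 9)]
    lev := [] }
  links := [[1, 6, 7, 8], [6, 0, 8, 2, 3, 9], [3, 1, 8, 10, 11, 4], [9, 1, 2, 4, 12, 13, 5], [12, 3, 2,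
    11, 14], [9, 3, 13, 15, 16]]
  P := {
    a := 6
    N := 17
    nb := [450, 845, 3354, 12854, 22540, 107016, 643, 321, 1159, 65642, 2308, 17428, 24600, 36904,
      6160, 73760, 33312]
    tri := [(0, 1, 6), (0, 1, 8), (0, 6, 7), (0, 7, 8), (1, 2, 3), (1, 2, 8), (1, 3, 9), (1, 6, 9), (2,
      3, 4), (2, 4, 11), (2, 8, 10), (2, 10, 11), (3, 4, 12), (3, 5, 9), (3, 5, 13), (3, 12, 13),
      (4, 11, 14), (4, 12, 14), (5, 9, 16), (5, 13, 15), (5, 15, 16)]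
    fin := [0, 0, 2, 3, 3, 3, 0, 7, 8, 3, 2, 11, 12, 3, 14, 15, 16]
    chd := [(0, 2), (0, 8), (3, 2), (3, 11), (3, 14)]
    steps := [(0, 1), (0, 6), (2, 10), (3, 4), (3, 5), (3, 13), (3, 9)] }
  rep := [3, 8, 0, 11, 12, 2, 14, 7, 15, 16]

noncomputable def v1240 : Cov.CovD where
  P := 3
  N := 7
  pl := [1, 6, 9, 10]
  lev := [⟨[], [], [(1, 2)], [7], [(0, 2, [1, 5]), (2, 1, [2])]⟩,
    ⟨[], [(0, 0), (0, 1), (0, 2)], [(0, 1), (0, 2), (1, 2)], [], [(0, 2, [1, 5]), (2, 1,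
      [2]), (3, 0, [3, 5, 6])]⟩,
    ⟨[(0, 1)], [(0, 1), (1, 0), (1, 1), (1, 2), (1, 3), (1, 5)], [(1, 3), (1, 5), (3, 5)],
      [], [(2, 1, [2]), (4, 5, [0, 2]), (5, 3, [0])]⟩,
    ⟨[(0, 1), (1, 2)], [(1, 0), (1, 1), (1, 2), (2, 0), (2, 1), (2, 3), (2, 5)], [(0, 0)],
      [4], [(3, 0, [3, 5, 6]), (7, 0, [3, 5, 6])]⟩,
    ⟨[(1, 2), (1, 3), (2, 3)], [(2, 1), (2, 3), (2, 5), (2, 6), (3, 0), (3, 3), (3, 6)],
      [(3, 6)], [4], [(5, 3, [0]), (8, 6, [0])]⟩,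
    ⟨[(1, 3), (2, 3), (3, 4)], [(1, 0), (3, 0)], [(0, 0)], [8, 9], [(3, 0, [3, 5, 6]), (7,
      0, [3, 5, 6])]⟩]
  Ta := [((3, 0), 0, 2), ((3, 10), 0, 9), ((7, 6), 0, 4), ((7, 9), 0, 8)]
  Tb := [((0, 1, 3), 2, 7, 0), ((1, 0, 2), 7, 2, 1), ((2, 1, 4), 1, 7, 5), ((3, 0, 10), 0, 2, 9),
    ((4, 2, 5), 5, 1, 3), ((5, 4, 8), 3, 5, 6), ((6, 7, 8), 4, 0, 6), ((7, 6, 9), 0, 4, 8),
    ((8, 5, 6), 6, 3, 4), ((9, 7, 10), 8, 0, 9), ((10, 3, 9), 9, 0, 8)]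
  Tc := [(0, 3, 5), (0, 3, 6), (0, 5, 6), (2, 1, 5), (5, 0, 2)]
  Td := [((0, 3), (3, 0), 2), ((0, 3), (3, 10), 9), ((0, 3), (7, 6), 4), ((0, 3), (7, 9), 8),
    ((0, 5), (3, 0), 2), ((0, 5), (3, 10), 9), ((0, 5), (7, 6), 4), ((0, 5), (7, 9), 8), ((0,
    6), (3, 0), 2), ((0, 6), (3, 10), 9), ((0, 6), (7, 6), 4), ((0, 6), (7, 9), 8), ((1, 2),
    (2, 1), 7), ((1, 2), (2, 4), 5), ((2, 1), (0, 1), 7), ((2, 1), (0, 3), 0), ((2, 5), (0,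
    1), 7), ((2, 5), (0, 3), 0), ((3, 0), (5, 4), 5), ((3, 0), (5, 8), 6), ((5, 0), (4, 2),
    1), ((5, 0), (4, 5), 3), ((5, 2), (4, 2), 1), ((5, 2), (4, 5), 3), ((6, 0), (8, 5), 3),
    ((6, 0), (8, 6), 4)]
  G := [[0, 0x41a1e1ee1e1ae1a141ee48146181e1ee14e61e1ae18acc, 0xe1e1618e1e1618c,
    0xe12c2ee45e1489e186cc8eeda34a1e16e14aee381cd,
    0xe12e2ebec2b6521e1ce18c9e1461a1c1e22e82efecaed89], [0,
    0xe424665283e8cefe6eeb8e9a664ef8aab845eecaee74e566247a1e8cefe465eaeafc1eee828cc, 0,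
    0xeace4cef6188aee41e12e1864c8bce12e14426878d,
    0xe2ebeec2f61e1216e18c9e14618181e22e82efe6ceed89]]

noncomputable def n1240 : Ent := ⟨e1240, noF, [], [], []⟩

def c1240 : PLift (Cov.check n1240.C.D v1240 = true) := ⟨by decide +kernel⟩

def b1240 : PLift (entF (fidx ts) 400 1240 n1240 = true) := ⟨by decide +kernel⟩

theorem g1240 : GoodF (fidx ts) 400 1240 := GoodF.ofV v1240 n1240 c1240.down b1240.down

/-- 466754:1004/1 -/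
noncomputable def e1241 : SCfg where
  D := {
    a := 6
    L := 9
    kp := 7
    inn := [(0, 1), (1, 0), (1, 2), (1, 3), (2, 1), (2, 3), (2, 4), (3, 1), (3, 2), (3, 4), (4, 2), (4,
      3), (4, 5), (5, 4)]
    mix := [(0, 0), (0, 1), (0, 2), (1, 0), (1, 2), (1, 3), (2, 2), (2, 4), (2, 5), (3, 3), (3, 6), (3,
      7), (3, 8), (4, 5), (4, 6), (5, 1), (5, 5), (5, 6)]
    cl := [2, 4, 0, 0, 7, 1, 3, 5, 6]
    chq := [(0, 1), (1, 0), (1, 3), (1, 5), (1, 6), (3, 1), (5, 1), (6, 1)]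
    rng := [(0, 1), (0, 3), (1, 0), (1, 2), (1, 5), (1, 6), (2, 1), (2, 4), (3, 0), (3, 8), (4, 2), (4,
      5), (5, 1), (5, 4), (6, 1), (6, 7), (7, 6), (7, 8), (8, 3), (8, 7)]
    lev := [] }
  links := [[1, 6, 7, 8], [6, 0, 8, 2, 3, 9], [3, 1, 8, 10, 11, 4], [9, 1, 2, 4, 12, 13, 14], [12, 3, 2,
    11, 5], [12, 4, 11, 7]]
  P := {
    a := 6
    N := 15
    nb := [450, 845, 3354, 29206, 6188, 6288, 643, 6497, 1159, 16458, 2308, 1204, 8376, 20488, 8712]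
    tri := [(0, 1, 6), (0, 1, 8), (0, 6, 7), (0, 7, 8), (1, 2, 3), (1, 2, 8), (1, 3, 9), (1, 6, 9), (2,
      3, 4), (2, 4, 11), (2, 8, 10), (2, 10, 11), (3, 4, 12), (3, 9, 14), (3, 12, 13), (3, 13,
      14), (4, 5, 11), (4, 5, 12), (5, 7, 11), (5, 7, 12)]
    fin := [0, 1, 2, 2, 4, 4, 0, 4, 1, 1, 10, 2, 12, 13, 14]
    chd := [(1, 2), (2, 12), (2, 13), (2, 14)]
    steps := [(0, 6), (1, 8), (1, 9), (2, 3), (2, 11), (4, 5), (4, 7)] }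
  rep := [1, 2, 0, 12, 4, 13, 14, 10]

noncomputable def v1241 : Cov.CovD where
  P := 3
  N := 5
  pl := [0, 1, 4]
  lev := [⟨[], [], [], [2, 4], [(2, 0, [1])]⟩,
    ⟨[], [(0, 0)], [(0, 0)], [2], [(2, 0, [1]), (3, 0, [1])]⟩,
    ⟨[(0, 1)], [(0, 0), (1, 0), (1, 1)], [(0, 1)], [7], [(2, 0, [1]), (5, 1, [0, 3, 5,
      6])]⟩,
    ⟨[(0, 1), (1, 2)], [(1, 0), (1, 3), (1, 5), (1, 6), (2, 0), (2, 1), (2, 3), (2, 5), (2,
      6)], [(0, 3), (0, 5), (0, 6), (3, 5), (3, 6), (5, 6)], [], [(3, 0, [1]), (6, 3, [1]),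
      (7, 5, [1]), (8, 6, [1])]⟩,
    ⟨[(1, 2), (1, 3), (2, 3)], [(2, 0), (2, 1), (2, 3), (3, 0), (3, 1), (3, 3), (3, 5), (3,
      6)], [(1, 3)], [], [(5, 1, [0, 3, 5, 6]), (6, 3, [1])]⟩,
    ⟨[(2, 4), (3, 4)], [(2, 1), (3, 3), (4, 1), (4, 3)], [(1, 3)], [4], [(5, 1, [0, 3, 5,
      6]), (6, 3, [1])]⟩]
  Ta := [((2, 1), 0, 4), ((2, 4), 0, 7), ((3, 0), 0, 2), ((3, 8), 0, 6)]
  Tb := [((0, 1, 3), 2, 4, 0), ((1, 0, 2), 4, 2, 0), ((1, 0, 5), 4, 2, 1), ((1, 0, 6), 4, 2, 3),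
    ((1, 2, 5), 4, 0, 1), ((1, 2, 6), 4, 0, 3), ((1, 5, 6), 4, 1, 3), ((2, 1, 4), 0, 4, 7),
    ((3, 0, 8), 0, 2, 6), ((4, 2, 5), 7, 0, 1), ((5, 1, 4), 1, 4, 7), ((6, 1, 7), 3, 4, 5),
    ((7, 6, 8), 5, 3, 6), ((8, 3, 7), 6, 0, 5)]
  Tc := [(1, 0, 3), (1, 0, 5), (1, 0, 6), (1, 3, 5), (1, 3, 6), (1, 5, 6)]
  Td := [((0, 1), (2, 1), 4), ((0, 1), (2, 4), 7), ((0, 1), (3, 0), 2), ((0, 1), (3, 8), 6), ((1,
    0), (5, 1), 4), ((1, 0), (5, 4), 7), ((1, 3), (5, 1), 4), ((1, 3), (5, 4), 7), ((1, 5),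
    (5, 1), 4), ((1, 5), (5, 4), 7), ((1, 6), (5, 1), 4), ((1, 6), (5, 4), 7), ((3, 1), (6,
    1), 4), ((3, 1), (6, 7), 5), ((5, 1), (7, 6), 3), ((5, 1), (7, 8), 6), ((6, 1), (8, 3),
    0), ((6, 1), (8, 7), 5)]
  G := [[0, 0x11c111a1c41, 0, 0x98528192c441524592c8c, 0x14c28192c2c952c592c8a], [0,
    0x11a111a1a41, 0x81c21414c214a, 0xc152c192c81, 0xc152c192c81]]

noncomputable def n1241 : Ent := ⟨e1241, noF, [], [], []⟩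

def c1241 : PLift (Cov.check n1241.C.D v1241 = true) := ⟨by decide +kernel⟩

def b1241 : PLift (entF (fidx ts) 400 1241 n1241 = true) := ⟨by decide +kernel⟩

theorem g1241 : GoodF (fidx ts) 400 1241 := GoodF.ofV v1241 n1241 c1241.down b1241.down

/-- 466754:1004 -/
noncomputable def e1242 : SCfg where
  D := {
    a := 6
    L := 10
    kp := 8
    inn := [(0, 1), (1, 0), (1, 2), (1, 3), (2, 1), (2, 3), (2, 4), (3, 1), (3, 2), (3, 4), (4, 2), (4,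
      3), (4, 5), (5, 4)]
    mix := [(0, 0), (0, 1), (0, 2), (1, 0), (1, 2), (1, 3), (2, 2), (2, 4), (2, 5), (3, 3), (3, 6), (3,
      7), (3, 8), (4, 5), (4, 6), (5, 5), (5, 6), (5, 9)]
    cl := [2, 6, 0, 0, 7, 1, 3, 4, 5, 8]
    chq := [(0, 1), (1, 0), (1, 3), (1, 4), (1, 5), (3, 1), (4, 1), (5, 1)]
    rng := [(0, 1), (0, 3), (1, 0), (1, 2), (2, 1), (2, 4), (3, 0), (3, 8), (4, 2), (4, 5), (5, 4), (5,
      9), (6, 7), (6, 9), (7, 6), (7, 8), (8, 3), (8, 7), (9, 5), (9, 6)]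
    lev := [] }
  links := [[1, 6, 7, 8], [6, 0, 8, 2, 3, 9], [3, 1, 8, 10, 11, 4], [9, 1, 2, 4, 12, 13, 14], [12, 3, 2,
    11, 5], [12, 4, 11, 15]]
  P := {
    a := 6
    N := 16
    nb := [450, 845, 3354, 29206, 6188, 38928, 643, 321, 1159, 16458, 2308, 33844, 41016, 20488, 8712,
      6176]
    tri := [(0, 1, 6), (0, 1, 8), (0, 6, 7), (0, 7, 8), (1, 2, 3), (1, 2, 8), (1, 3, 9), (1, 6, 9), (2,
      3, 4), (2, 4, 11), (2, 8, 10), (2, 10, 11), (3, 4, 12), (3, 9, 14), (3, 12, 13), (3, 13,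
      14), (4, 5, 11), (4, 5, 12), (5, 11, 15), (5, 12, 15)]
    fin := [0, 1, 1, 3, 3, 3, 0, 7, 1, 1, 10, 3, 12, 13, 14, 15]
    chd := [(1, 3), (3, 12), (3, 13), (3, 14)]
    steps := [(0, 6), (1, 2), (1, 8), (1, 9), (3, 4), (3, 5), (3, 11)] }
  rep := [1, 3, 0, 12, 13, 14, 7, 10, 15]

noncomputable def v1242 : Cov.CovD where
  P := 3
  N := 6
  pl := [0, 1, 4, 9]
  lev := [⟨[], [], [], [2, 6], [(2, 0, [1])]⟩,
    ⟨[], [(0, 0)], [(0, 0)], [2], [(2, 0, [1]), (3, 0, [1])]⟩,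
    ⟨[(0, 1)], [(0, 0), (1, 0), (1, 1)], [(0, 1)], [7], [(2, 0, [1]), (5, 1, [0, 3, 4,
      5])]⟩,
    ⟨[(0, 1), (1, 2)], [(1, 0), (1, 3), (1, 4), (1, 5), (2, 0), (2, 1), (2, 3), (2, 4), (2,
      5)], [(0, 3), (0, 4), (0, 5), (3, 4), (3, 5), (4, 5)], [], [(3, 0, [1]), (6, 3, [1]),
      (7, 4, [1]), (8, 5, [1])]⟩,
    ⟨[(1, 2), (1, 3), (2, 3)], [(2, 0), (2, 1), (2, 3), (3, 0), (3, 1), (3, 3), (3, 4), (3,
      5)], [(1, 3)], [], [(5, 1, [0, 3, 4, 5]), (6, 3, [1])]⟩,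
    ⟨[(2, 4), (3, 4)], [(2, 1), (3, 3), (4, 1), (4, 3)], [(1, 3)], [8], [(5, 1, [0, 3, 4,
      5]), (6, 3, [1])]⟩]
  Ta := [((2, 1), 0, 6), ((2, 4), 0, 7), ((3, 0), 0, 2), ((3, 8), 0, 5)]
  Tb := [((0, 1, 3), 2, 6, 0), ((1, 0, 2), 6, 2, 0), ((2, 1, 4), 0, 6, 7), ((3, 0, 8), 0, 2, 5),
    ((4, 2, 5), 7, 0, 1), ((5, 4, 9), 1, 7, 8), ((6, 7, 9), 3, 4, 8), ((7, 6, 8), 4, 3, 5),
    ((8, 3, 7), 5, 0, 4), ((9, 5, 6), 8, 1, 3)]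
  Tc := [(1, 0, 3), (1, 0, 4), (1, 0, 5), (1, 3, 4), (1, 3, 5), (1, 4, 5)]
  Td := [((0, 1), (2, 1), 6), ((0, 1), (2, 4), 7), ((0, 1), (3, 0), 2), ((0, 1), (3, 8), 5), ((1,
    0), (5, 4), 7), ((1, 0), (5, 9), 8), ((1, 3), (5, 4), 7), ((1, 3), (5, 9), 8), ((1, 4),
    (5, 4), 7), ((1, 4), (5, 9), 8), ((1, 5), (5, 4), 7), ((1, 5), (5, 9), 8), ((3, 1), (6,
    7), 4), ((3, 1), (6, 9), 8), ((4, 1), (7, 6), 3), ((4, 1), (7, 8), 5), ((5, 1), (8, 3),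
    0), ((5, 1), (8, 7), 4)]
  G := [[0, 0x116111a1a41, 0, 0xc952c592c4c952c592c8c, 0xc5924295b4c9525cf8ac952c592c8a], [0,
    0x11611161a81, 0x95c21895c218c, 0xc952c592c41, 0xc952c592c81]]

noncomputable def n1242 : Ent := ⟨e1242, noF, [], [], [(7, 15, [360035742630636841211993100915356868655746945586763691012755457, 0])]⟩

def c1242 : PLift (Cov.check n1242.C.D v1242 = true) := ⟨by decide +kernel⟩

def b1242 : PLift (entF (fidx ts) 400 1242 n1242 = true) := ⟨by decide +kernel⟩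

theorem g1242 : GoodF (fidx ts) 400 1242 := GoodF.ofV v1242 n1242 c1242.down b1242.down

/-- 466764:1006/1 -/
noncomputable def e1243 : SCfg where
  D := {
    a := 6
    L := 10
    kp := 7
    inn := [(0, 1), (1, 0), (1, 2), (1, 3), (2, 1), (2, 3), (2, 4), (3, 1), (3, 2), (3, 4), (4, 2), (4,
      3), (4, 5), (5, 4)]
    mix := [(0, 0), (0, 1), (0, 2), (1, 0), (1, 2), (1, 3), (2, 2), (2, 4), (2, 5), (3, 3), (3, 6), (3,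
      7), (3, 8), (4, 5), (4, 6), (4, 9), (5, 1), (5, 5), (5, 9)]
    cl := [1, 2, 0, 0, 5, 3, 3, 6, 7, 4]
    chq := [(5, 6), (5, 7), (6, 5), (7, 5)]
    rng := [(0, 1), (0, 3), (1, 0), (1, 2), (1, 5), (1, 9), (2, 1), (2, 4), (3, 0), (3, 8), (4, 2), (4,
      5), (5, 1), (5, 4), (6, 7), (6, 9), (7, 6), (7, 8), (8, 3), (8, 7), (9, 1), (9, 6)]
    lev := [] }
  links := [[1, 6, 7, 8], [6, 0, 8, 2, 3, 9], [3, 1, 8, 10, 11, 4], [9, 1, 2, 4, 12, 13, 14], [12, 3, 2,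
    11, 5, 15], [15, 4, 11, 7]]
  P := {
    a := 6
    N := 16
    nb := [450, 845, 3354, 29206, 38956, 34960, 643, 35169, 1159, 16458, 2308, 1204, 40984, 20488,
      8712, 4272]
    tri := [(0, 1, 6), (0, 1, 8), (0, 6, 7), (0, 7, 8), (1, 2, 3), (1, 2, 8), (1, 3, 9), (1, 6, 9), (2,
      3, 4), (2, 4, 11), (2, 8, 10), (2, 10, 11), (3, 4, 12), (3, 9, 14), (3, 12, 13), (3, 13,
      14), (4, 5, 11), (4, 5, 15), (4, 12, 15), (5, 7, 11), (5, 7, 15)]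
    fin := [0, 1, 2, 2, 4, 5, 0, 5, 1, 1, 2, 4, 4, 13, 14, 15]
    chd := [(2, 13), (2, 14)]
    steps := [(0, 6), (1, 8), (1, 9), (2, 3), (2, 10), (4, 11), (4, 12), (5, 7)] }
  rep := [1, 0, 5, 4, 15, 2, 13, 14]

noncomputable def v1243 : Cov.CovD where
  P := 3
  N := 5
  pl := [0, 1, 9]
  lev := [⟨[], [], [], [1, 2], [(2, 0, [])]⟩,
    ⟨[], [(0, 0)], [(0, 0)], [1], [(2, 0, []), (3, 0, [])]⟩,
    ⟨[(0, 1)], [(0, 0), (1, 0), (1, 3), (1, 5)], [(0, 3), (0, 5), (3, 5)], [], [(2, 0, []),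
      (4, 5, [6, 7]), (5, 3, [])]⟩,
    ⟨[(0, 1), (1, 2)], [(1, 0), (1, 3), (1, 6), (1, 7), (2, 0), (2, 3), (2, 5), (2, 6), (2,
      7)], [(0, 3), (0, 6), (0, 7), (3, 6), (3, 7), (6, 7)], [], [(3, 0, []), (6, 3, []), (7,
      6, [5]), (8, 7, [5])]⟩,
    ⟨[(1, 2), (1, 3), (2, 3)], [(2, 0), (2, 3), (2, 5), (3, 0), (3, 3), (3, 6), (3, 7)],
      [(3, 3)], [4], [(5, 3, []), (6, 3, [])]⟩,
    ⟨[(2, 4), (3, 4)], [(2, 3), (4, 3)], [], [2, 4], [(5, 3, [])]⟩]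
  Ta := [((2, 1), 0, 2), ((2, 4), 0, 5), ((3, 0), 0, 1), ((3, 8), 0, 7), ((5, 1), 3, 2), ((5, 4),
    3, 5), ((6, 7), 3, 6), ((6, 9), 3, 4)]
  Tb := [((0, 1, 3), 1, 2, 0), ((1, 0, 2), 2, 1, 0), ((1, 0, 5), 2, 1, 3), ((1, 0, 9), 2, 1, 4),
    ((1, 2, 5), 2, 0, 3), ((1, 2, 9), 2, 0, 4), ((1, 5, 9), 2, 3, 4), ((2, 1, 4), 0, 2, 5),
    ((3, 0, 8), 0, 1, 7), ((4, 2, 5), 5, 0, 3), ((5, 1, 4), 3, 2, 5), ((6, 7, 9), 3, 6, 4),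
    ((7, 6, 8), 6, 3, 7), ((8, 3, 7), 7, 0, 6), ((9, 1, 6), 4, 2, 3)]
  Tc := [(5, 6, 7)]
  Td := [((5, 6), (4, 2), 0), ((5, 6), (4, 5), 3), ((5, 7), (4, 2), 0), ((5, 7), (4, 5), 3), ((6,
    5), (7, 6), 3), ((6, 5), (7, 8), 7), ((7, 5), (8, 3), 0), ((7, 5), (8, 7), 6)]
  G := [[0, 0, 0xa12c18e161ce4e14612c8c, 0x52523841b4692496a4968ac4,
    0x819821d81c7821d2466815281d19cba8178ac8], [0, 0, 0xa12c146c182c4, 0x92529292f924684,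
    0x321b31622719c81c9a48], [0, 0x841b428211486e8c17814c88841eebc8, 0,
    0x85a2d2454962c2c2cd28bc8, 0x24282c246812e811e671188a2a1d89487c8], [0,
    0x12891da194746181b84a4, 0, 0xc242541d2928ac1, 0x8281f42132d298878ac8]]

noncomputable def n1243 : Ent := ⟨e1243, noF, [], [], []⟩

def c1243 : PLift (Cov.check n1243.C.D v1243 = true) := ⟨by decide +kernel⟩

def b1243 : PLift (entF (fidx ts) 400 1243 n1243 = true) := ⟨by decide +kernel⟩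

theorem g1243 : GoodF (fidx ts) 400 1243 := GoodF.ofV v1243 n1243 c1243.down b1243.down

/-- 466764:1006 -/
noncomputable def e1244 : SCfg where
  D := {
    a := 6
    L := 11
    kp := 8
    inn := [(0, 1), (1, 0), (1, 2), (1, 3), (2, 1), (2, 3), (2, 4), (3, 1), (3, 2), (3, 4), (4, 2), (4,
      3), (4, 5), (5, 4)]
    mix := [(0, 0), (0, 1), (0, 2), (1, 0), (1, 2), (1, 3), (2, 2), (2, 4), (2, 5), (3, 3), (3, 6), (3,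
      7), (3, 8), (4, 5), (4, 6), (4, 9), (5, 5), (5, 9), (5, 10)]
    cl := [1, 7, 0, 0, 2, 3, 3, 5, 6, 4, 8]
    chq := [(2, 5), (2, 6), (5, 2), (6, 2)]
    rng := [(0, 1), (0, 3), (1, 0), (1, 2), (2, 1), (2, 4), (3, 0), (3, 8), (4, 2), (4, 5), (5, 4), (5,
      10), (6, 7), (6, 9), (7, 6), (7, 8), (8, 3), (8, 7), (9, 6), (9, 10), (10, 5), (10, 9)]
    lev := [] }
  links := [[1, 6, 7, 8], [6, 0, 8, 2, 3, 9], [3, 1, 8, 10, 11, 4], [9, 1, 2, 4, 12, 13, 14], [12, 3, 2,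
    11, 5, 15], [15, 4, 11, 16]]
  P := {
    a := 6
    N := 17
    nb := [450, 845, 3354, 29206, 38956, 100368, 643, 321, 1159, 16458, 2308, 66612, 40984, 20488,
      8712, 69680, 34848]
    tri := [(0, 1, 6), (0, 1, 8), (0, 6, 7), (0, 7, 8), (1, 2, 3), (1, 2, 8), (1, 3, 9), (1, 6, 9), (2,
      3, 4), (2, 4, 11), (2, 8, 10), (2, 10, 11), (3, 4, 12), (3, 9, 14), (3, 12, 13), (3, 13,
      14), (4, 5, 11), (4, 5, 15), (4, 12, 15), (5, 11, 16), (5, 15, 16)]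
    fin := [0, 1, 2, 2, 4, 4, 0, 7, 1, 1, 2, 4, 4, 13, 14, 15, 16]
    chd := [(2, 13), (2, 14)]
    steps := [(0, 6), (1, 8), (1, 9), (2, 3), (2, 10), (4, 5), (4, 11), (4, 12)] }
  rep := [1, 0, 2, 4, 15, 13, 14, 7, 16]

noncomputable def v1244 : Cov.CovD where
  P := 3
  N := 6
  pl := [0, 1, 9, 10]
  lev := [⟨[], [], [], [1, 7], [(2, 0, [])]⟩,
    ⟨[], [(0, 0)], [(0, 0)], [1], [(2, 0, []), (3, 0, [])]⟩,
    ⟨[(0, 1)], [(0, 0), (1, 0), (1, 2), (1, 3)], [(0, 2), (0, 3), (2, 3)], [], [(2, 0, []),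
      (4, 2, [5, 6]), (5, 3, [])]⟩,
    ⟨[(0, 1), (1, 2)], [(1, 0), (1, 3), (1, 5), (1, 6), (2, 0), (2, 2), (2, 3), (2, 5), (2,
      6)], [(0, 3), (0, 5), (0, 6), (3, 5), (3, 6), (5, 6)], [], [(3, 0, []), (6, 3, []), (7,
      5, [2]), (8, 6, [2])]⟩,
    ⟨[(1, 2), (1, 3), (2, 3)], [(2, 0), (2, 2), (2, 3), (3, 0), (3, 3), (3, 5), (3, 6)],
      [(3, 3)], [4], [(5, 3, []), (6, 3, [])]⟩,
    ⟨[(2, 4), (3, 4)], [(2, 3), (4, 3)], [], [4, 8], [(5, 3, [])]⟩]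
  Ta := [((2, 1), 0, 7), ((2, 4), 0, 2), ((3, 0), 0, 1), ((3, 8), 0, 6), ((5, 4), 3, 2), ((5,
    10), 3, 8), ((6, 7), 3, 5), ((6, 9), 3, 4)]
  Tb := [((0, 1, 3), 1, 7, 0), ((1, 0, 2), 7, 1, 0), ((2, 1, 4), 0, 7, 2), ((3, 0, 8), 0, 1, 6),
    ((4, 2, 5), 2, 0, 3), ((5, 4, 10), 3, 2, 8), ((6, 7, 9), 3, 5, 4), ((7, 6, 8), 5, 3, 6),
    ((8, 3, 7), 6, 0, 5), ((9, 6, 10), 4, 3, 8), ((10, 5, 9), 8, 3, 4)]
  Tc := [(2, 5, 6)]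
  Td := [((2, 5), (4, 2), 0), ((2, 5), (4, 5), 3), ((2, 6), (4, 2), 0), ((2, 6), (4, 5), 3), ((5,
    2), (7, 6), 3), ((5, 2), (7, 8), 6), ((6, 2), (8, 3), 0), ((6, 2), (8, 7), 5)]
  G := [[0, 0, 0x153e183a185c1e44261912e1941e1e8c,
    0x428247f427482248bf82b8c82c8b76422477427c8228a8cc,
    0xe247f242472e9591c95c4f8c8297c4c47c247f24247a4488cc], [0, 0, 0x95ce12895ce124c,
    0xa93d248563d284c, 0xc95b428c95b428c], [0, 0x6352a392a6c2d8263d2839286c2d46, 0,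
    0x422468846822c8bfa42473acc1, 0xc2a418c2a4182534c45b4a8d], [0, 0xa93d248a93d2486, 0,
    0x563d2841, 0xc95b4281]]

noncomputable def n1244 : Ent := ⟨e1244, noF, [], [], [(7, 16, [1580044410770988437309982408355971841652082177953823432505694203905, 0])]⟩

def c1244 : PLift (Cov.check n1244.C.D v1244 = true) := ⟨by decide +kernel⟩

def b1244 : PLift (entF (fidx ts) 400 1244 n1244 = true) := ⟨by decide +kernel⟩

theorem g1244 : GoodF (fidx ts) 400 1244 := GoodF.ofV v1244 n1244 c1244.down b1244.down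

/-- 466764:1007/1 -/
noncomputable def e1245 : SCfg where
  D := {
    a := 6
    L := 10
    kp := 7
    inn := [(0, 1), (1, 0), (1, 2), (1, 3), (2, 1), (2, 3), (2, 4), (3, 1), (3, 2), (3, 4), (4, 2), (4,
      3), (4, 5), (5, 4)]
    mix := [(0, 0), (0, 1), (0, 2), (1, 0), (1, 2), (1, 3), (2, 2), (2, 4), (2, 5), (3, 3), (3, 6), (3,
      7), (3, 8), (4, 5), (4, 6), (4, 9), (5, 1), (5, 6), (5, 9)]
    cl := [1, 2, 0, 0, 5, 3, 3, 6, 7, 4]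
    chq := [(5, 6), (5, 7), (6, 5), (7, 5)]
    rng := [(0, 1), (0, 3), (1, 0), (1, 2), (1, 6), (1, 9), (2, 1), (2, 4), (3, 0), (3, 8), (4, 2), (4,
      5), (5, 4), (5, 9), (6, 1), (6, 7), (7, 6), (7, 8), (8, 3), (8, 7), (9, 1), (9, 5)]
    lev := [] }
  links := [[1, 6, 7, 8], [6, 0, 8, 2, 3, 9], [3, 1, 8, 10, 11, 4], [9, 1, 2, 4, 12, 13, 14], [12, 3, 2,
    11, 15, 5], [12, 4, 15, 7]]
  P := {
    a := 6
    N := 16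
    nb := [450, 845, 3354, 29206, 38956, 37008, 643, 37217, 1159, 16458, 2308, 33812, 8376, 20488,
      8712, 2224]
    tri := [(0, 1, 6), (0, 1, 8), (0, 6, 7), (0, 7, 8), (1, 2, 3), (1, 2, 8), (1, 3, 9), (1, 6, 9), (2,
      3, 4), (2, 4, 11), (2, 8, 10), (2, 10, 11), (3, 4, 12), (3, 9, 14), (3, 12, 13), (3, 13,
      14), (4, 5, 12), (4, 5, 15), (4, 11, 15), (5, 7, 12), (5, 7, 15)]
    fin := [0, 1, 2, 2, 4, 5, 0, 5, 1, 1, 2, 4, 4, 13, 14, 15]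
    chd := [(2, 13), (2, 14)]
    steps := [(0, 6), (1, 8), (1, 9), (2, 3), (2, 10), (4, 11), (4, 12), (5, 7)] }
  rep := [1, 0, 5, 4, 15, 2, 13, 14]

noncomputable def v1245 : Cov.CovD where
  P := 3
  N := 5
  pl := [0, 1, 9]
  lev := [⟨[], [], [], [1, 2], [(2, 0, [])]⟩,
    ⟨[], [(0, 0)], [(0, 0)], [1], [(2, 0, []), (3, 0, [])]⟩,
    ⟨[(0, 1)], [(0, 0), (1, 0), (1, 3), (1, 5)], [(0, 3), (0, 5), (3, 5)], [], [(2, 0, []),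
      (4, 5, [6, 7]), (5, 3, [])]⟩,
    ⟨[(0, 1), (1, 2)], [(1, 0), (1, 3), (1, 6), (1, 7), (2, 0), (2, 3), (2, 5), (2, 6), (2,
      7)], [(0, 3), (0, 6), (0, 7), (3, 6), (3, 7), (6, 7)], [], [(3, 0, []), (6, 3, []), (7,
      6, [5]), (8, 7, [5])]⟩,
    ⟨[(1, 2), (1, 3), (2, 3)], [(2, 0), (2, 3), (2, 5), (3, 0), (3, 3), (3, 6), (3, 7)],
      [(3, 3)], [4], [(5, 3, []), (6, 3, [])]⟩,
    ⟨[(2, 4), (3, 4)], [(3, 3), (4, 3)], [], [2, 4], [(6, 3, [])]⟩]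
  Ta := [((2, 1), 0, 2), ((2, 4), 0, 5), ((3, 0), 0, 1), ((3, 8), 0, 7), ((5, 4), 3, 5), ((5, 9),
    3, 4), ((6, 1), 3, 2), ((6, 7), 3, 6)]
  Tb := [((0, 1, 3), 1, 2, 0), ((1, 0, 2), 2, 1, 0), ((1, 0, 6), 2, 1, 3), ((1, 0, 9), 2, 1, 4),
    ((1, 2, 6), 2, 0, 3), ((1, 2, 9), 2, 0, 4), ((1, 6, 9), 2, 3, 4), ((2, 1, 4), 0, 2, 5),
    ((3, 0, 8), 0, 1, 7), ((4, 2, 5), 5, 0, 3), ((5, 4, 9), 3, 5, 4), ((6, 1, 7), 3, 2, 6),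
    ((7, 6, 8), 6, 3, 7), ((8, 3, 7), 7, 0, 6), ((9, 1, 5), 4, 2, 3)]
  Tc := [(5, 6, 7)]
  Td := [((5, 6), (4, 2), 0), ((5, 6), (4, 5), 3), ((5, 7), (4, 2), 0), ((5, 7), (4, 5), 3), ((6,
    5), (7, 6), 3), ((6, 5), (7, 8), 7), ((7, 5), (8, 3), 0), ((7, 5), (8, 7), 6)]
  G := [[0, 0, 0xc126161ac4a14c1a1ca8c, 0x81329246541d2456849ac4,
    0x821d88319646219145221b8148ec8], [0, 0, 0xe12e146e182c8, 0x82d24817d2fd28a48,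
    0x819812e3821d462423b1e8ac8], [0, 0x9852841b4651a248178ac4, 0, 0x891b424162541b84862bc8,
    0x821d289a41ac4712a83485c8], [0, 0x882841b46415248178ac4, 0, 0x882d2464152d28ac8,
    0x882821d422472152a8178ac8]]

noncomputable def n1245 : Ent := ⟨e1245, noF, [], [], []⟩

def c1245 : PLift (Cov.check n1245.C.D v1245 = true) := ⟨by decide +kernel⟩

def b1245 : PLift (entF (fidx ts) 400 1245 n1245 = true) := ⟨by decide +kernel⟩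

theorem g1245 : GoodF (fidx ts) 400 1245 := GoodF.ofV v1245 n1245 c1245.down b1245.down

/-- 466764:1007 -/
noncomputable def e1246 : SCfg where
  D := {
    a := 6
    L := 11
    kp := 8
    inn := [(0, 1), (1, 0), (1, 2), (1, 3), (2, 1), (2, 3), (2, 4), (3, 1), (3, 2), (3, 4), (4, 2), (4,
      3), (4, 5), (5, 4)]
    mix := [(0, 0), (0, 1), (0, 2), (1, 0), (1, 2), (1, 3), (2, 2), (2, 4), (2, 5), (3, 3), (3, 6), (3,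
      7), (3, 8), (4, 5), (4, 6), (4, 9), (5, 6), (5, 9), (5, 10)]
    cl := [1, 7, 0, 0, 2, 3, 3, 5, 6, 4, 8]
    chq := [(2, 5), (2, 6), (5, 2), (6, 2)]
    rng := [(0, 1), (0, 3), (1, 0), (1, 2), (2, 1), (2, 4), (3, 0), (3, 8), (4, 2), (4, 5), (5, 4), (5,
      9), (6, 7), (6, 10), (7, 6), (7, 8), (8, 3), (8, 7), (9, 5), (9, 10), (10, 6), (10, 9)]
    lev := [] }
  links := [[1, 6, 7, 8], [6, 0, 8, 2, 3, 9], [3, 1, 8, 10, 11, 4], [9, 1, 2, 4, 12, 13, 14], [12, 3, 2,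
    11, 15, 5], [12, 4, 15, 16]]
  P := {
    a := 6
    N := 17
    nb := [450, 845, 3354, 29206, 38956, 102416, 643, 321, 1159, 16458, 2308, 33812, 73784, 20488,
      8712, 67632, 36896]
    tri := [(0, 1, 6), (0, 1, 8), (0, 6, 7), (0, 7, 8), (1, 2, 3), (1, 2, 8), (1, 3, 9), (1, 6, 9), (2,
      3, 4), (2, 4, 11), (2, 8, 10), (2, 10, 11), (3, 4, 12), (3, 9, 14), (3, 12, 13), (3, 13,
      14), (4, 5, 12), (4, 5, 15), (4, 11, 15), (5, 12, 16), (5, 15, 16)]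
    fin := [0, 1, 2, 2, 4, 4, 0, 7, 1, 1, 2, 4, 4, 13, 14, 15, 16]
    chd := [(2, 13), (2, 14)]
    steps := [(0, 6), (1, 8), (1, 9), (2, 3), (2, 10), (4, 5), (4, 11), (4, 12)] }
  rep := [1, 0, 2, 4, 15, 13, 14, 7, 16]

noncomputable def v1246 : Cov.CovD where
  P := 3
  N := 6
  pl := [0, 1, 9, 10]
  lev := [⟨[], [], [], [1, 7], [(2, 0, [])]⟩,
    ⟨[], [(0, 0)], [(0, 0)], [1], [(2, 0, []), (3, 0, [])]⟩,
    ⟨[(0, 1)], [(0, 0), (1, 0), (1, 2), (1, 3)], [(0, 2), (0, 3), (2, 3)], [], [(2, 0, []),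
      (4, 2, [5, 6]), (5, 3, [])]⟩,
    ⟨[(0, 1), (1, 2)], [(1, 0), (1, 3), (1, 5), (1, 6), (2, 0), (2, 2), (2, 3), (2, 5), (2,
      6)], [(0, 3), (0, 5), (0, 6), (3, 5), (3, 6), (5, 6)], [], [(3, 0, []), (6, 3, []), (7,
      5, [2]), (8, 6, [2])]⟩,
    ⟨[(1, 2), (1, 3), (2, 3)], [(2, 0), (2, 2), (2, 3), (3, 0), (3, 3), (3, 5), (3, 6)],
      [(3, 3)], [4], [(5, 3, []), (6, 3, [])]⟩,
    ⟨[(2, 4), (3, 4)], [(3, 3), (4, 3)], [], [4, 8], [(6, 3, [])]⟩]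
  Ta := [((2, 1), 0, 7), ((2, 4), 0, 2), ((3, 0), 0, 1), ((3, 8), 0, 6), ((5, 4), 3, 2), ((5, 9),
    3, 4), ((6, 7), 3, 5), ((6, 10), 3, 8)]
  Tb := [((0, 1, 3), 1, 7, 0), ((1, 0, 2), 7, 1, 0), ((2, 1, 4), 0, 7, 2), ((3, 0, 8), 0, 1, 6),
    ((4, 2, 5), 2, 0, 3), ((5, 4, 9), 3, 2, 4), ((6, 7, 10), 3, 5, 8), ((7, 6, 8), 5, 3, 6),
    ((8, 3, 7), 6, 0, 5), ((9, 5, 10), 4, 3, 8), ((10, 6, 9), 8, 3, 4)]
  Tc := [(2, 5, 6)]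
  Td := [((2, 5), (4, 2), 0), ((2, 5), (4, 5), 3), ((2, 6), (4, 2), 0), ((2, 6), (4, 5), 3), ((5,
    2), (7, 6), 3), ((5, 2), (7, 8), 6), ((6, 2), (8, 3), 0), ((6, 2), (8, 7), 5)]
  G := [[0, 0, 0x72c15c61a465c18d61a4c, 0x9a5245c928c19cd2443928cc,
    0x39ab42a138d462cf8c2297c42471c5b4a8c], [0, 0, 0x93a154168221951e168c,
    0xa23d244428ca39246428cc, 0xe247f2424722488c24e247f2424f28c], [0,
    0x513d28d92842d4b85245c928ca, 0, 0xb852474928c1, 0x2b5c463d8b4a2488c1], [0,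
    0xa39246428ca23d244428ca, 0, 0xa82463528c1, 0x2241822418224c45b4a8d]]

noncomputable def n1246 : Ent := ⟨e1246, noF, [], [], [(7, 16, [1580044410770988437309982408355971841652082177953823432505694212097, 0])]⟩

def c1246 : PLift (Cov.check n1246.C.D v1246 = true) := ⟨by decide +kernel⟩

def b1246 : PLift (entF (fidx ts) 400 1246 n1246 = true) := ⟨by decide +kernel⟩

theorem g1246 : GoodF (fidx ts) 400 1246 := GoodF.ofV v1246 n1246 c1246.down b1246.down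

/-- 486454:1008/1 -/
noncomputable def e1247 : SCfg where
  D := {
    a := 6
    L := 10
    kp := 7
    inn := [(0, 1), (1, 0), (1, 2), (1, 4), (2, 1), (2, 3), (3, 2), (4, 1), (4, 5), (5, 4)]
    mix := [(0, 0), (0, 1), (0, 2), (1, 0), (1, 2), (1, 3), (1, 4), (1, 5), (2, 3), (2, 4), (2, 6), (2,
      7), (3, 4), (3, 7), (3, 8), (4, 0), (4, 5), (4, 9), (5, 5), (5, 8), (5, 9)]
    cl := [0, 6, 2, 1, 1, 0, 7, 4, 3, 5]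
    chq := [(1, 6), (3, 7), (6, 1), (7, 3)]
    rng := [(0, 1), (0, 9), (1, 0), (1, 2), (2, 1), (2, 3), (3, 2), (3, 6), (4, 5), (4, 8), (5, 4), (5,
      8), (6, 3), (6, 7), (7, 6), (7, 8), (8, 4), (8, 5), (8, 7), (8, 9), (9, 0), (9, 8)]
    lev := [] }
  links := [[1, 6, 7, 8], [6, 0, 8, 9, 2, 10, 11, 4], [10, 1, 9, 12, 13, 3], [10, 2, 13, 14], [6, 1, 11,
    5, 15], [15, 4, 11, 14]]
  P := {
    a := 6
    N := 16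
    nb := [450, 3925, 13834, 25604, 34914, 51216, 32915, 321, 643, 4358, 18446, 17458, 8708, 20492,
      44072, 16496]
    tri := [(0, 1, 6), (0, 1, 8), (0, 6, 7), (0, 7, 8), (1, 2, 9), (1, 2, 10), (1, 4, 6), (1, 4, 11),
      (1, 8, 9), (1, 10, 11), (2, 3, 10), (2, 3, 13), (2, 9, 12), (2, 12, 13), (3, 10, 14), (3,
      13, 14), (4, 5, 11), (4, 5, 15), (4, 6, 15), (5, 11, 14), (5, 14, 15)]
    fin := [0, 1, 2, 2, 4, 4, 4, 0, 8, 1, 1, 4, 2, 13, 14, 15]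
    chd := [(0, 1), (2, 14)]
    steps := [(0, 7), (1, 9), (1, 10), (2, 3), (2, 12), (4, 5), (4, 6), (4, 11)] }
  rep := [4, 1, 8, 14, 13, 15, 0, 2]

noncomputable def v1247 : Cov.CovD where
  P := 3
  N := 5
  pl := [2, 7, 9]
  lev := [⟨[], [], [(0, 6)], [2], [(0, 0, []), (1, 6, [1])]⟩,
    ⟨[], [(0, 0), (0, 1), (0, 6)], [(0, 0), (0, 1), (1, 1)], [2], [(0, 0, []), (3, 1, [6]),
      (4, 1, [6]), (5, 0, [])]⟩,
    ⟨[(0, 1)], [(1, 0), (1, 1), (1, 7)], [(1, 1), (1, 7)], [4], [(3, 1, [6]), (4, 1, [6]),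
      (6, 7, [3])]⟩,
    ⟨[(1, 2)], [(1, 1), (2, 1), (2, 3), (2, 7)], [(1, 3)], [4], [(4, 1, [6]), (8, 3, [7])]⟩,
    ⟨[(0, 1), (1, 2)], [(0, 0), (1, 0), (1, 1)], [(0, 0)], [5], [(0, 0, []), (5, 0, [])]⟩,
    ⟨[(1, 4)], [(1, 0), (3, 3), (4, 0), (4, 3)], [(0, 3)], [5], [(5, 0, []), (8, 3, [7])]⟩]
  Ta := [((0, 1), 0, 6), ((0, 9), 0, 5), ((3, 2), 1, 2), ((3, 6), 1, 7), ((4, 5), 1, 0), ((4, 8),
    1, 3), ((5, 4), 0, 1), ((5, 8), 0, 3)]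
  Tb := [((0, 1, 9), 0, 6, 5), ((1, 0, 2), 6, 0, 2), ((2, 1, 3), 2, 6, 1), ((3, 2, 6), 1, 2, 7),
    ((4, 5, 8), 1, 0, 3), ((5, 4, 8), 0, 1, 3), ((6, 3, 7), 7, 1, 4), ((7, 6, 8), 4, 7, 3),
    ((8, 4, 5), 3, 1, 0), ((8, 4, 7), 3, 1, 4), ((8, 4, 9), 3, 1, 5), ((8, 5, 7), 3, 0, 4),
    ((8, 5, 9), 3, 0, 5), ((8, 7, 9), 3, 4, 5), ((9, 0, 8), 5, 0, 3)]
  Tc := []
  Td := [((1, 6), (3, 2), 2), ((1, 6), (3, 6), 7), ((1, 6), (4, 5), 0), ((1, 6), (4, 8), 3), ((3,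
    7), (8, 4), 1), ((3, 7), (8, 5), 0), ((3, 7), (8, 7), 4), ((3, 7), (8, 9), 5), ((6, 1),
    (1, 0), 0), ((6, 1), (1, 2), 2), ((7, 3), (6, 3), 1), ((7, 3), (6, 7), 4)]
  G := [[0, 0, 0x426126312621261d82, 0x12621261521c12638c126126312a212a1d8c,
    0x426126312a212c1d82], [0, 0, 0x88126126d81a16a9d1c1d42, 0, 0x41671651a61a6916c1d82], [0,
    0, 0x426c26344826682642aad82, 0xc2a282ac2a9c2a82a6d41, 0x426c263482e2c26426ad82], [0,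
    0x4a6c266826486826ec8648622ee81, 0x4264448a65c8846a982a886ae4acdc2, 0,
    0x4a6ca65ca6ca69ca64a6cd81]]

noncomputable def n1247 : Ent := ⟨e1247, noF, [], [], []⟩

def c1247 : PLift (Cov.check n1247.C.D v1247 = true) := ⟨by decide +kernel⟩

def b1247 : PLift (entF (fidx ts) 400 1247 n1247 = true) := ⟨by decide +kernel⟩

theorem g1247 : GoodF (fidx ts) 400 1247 := GoodF.ofV v1247 n1247 c1247.down b1247.down

/-- 486454:1008 -/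
noncomputable def e1248 : SCfg where
  D := {
    a := 6
    L := 11
    kp := 8
    inn := [(0, 1), (1, 0), (1, 2), (1, 4), (2, 1), (2, 3), (3, 2), (4, 1), (4, 5), (5, 4)]
    mix := [(0, 0), (0, 1), (0, 2), (1, 0), (1, 2), (1, 3), (1, 4), (1, 5), (2, 3), (2, 4), (2, 6), (2,
      7), (3, 4), (3, 7), (3, 8), (4, 0), (4, 5), (4, 9), (5, 5), (5, 9), (5, 10)]
    cl := [0, 5, 2, 1, 1, 0, 6, 3, 7, 4, 8]
    chq := [(1, 5), (5, 1), (6, 7), (7, 6)]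
    rng := [(0, 1), (0, 9), (1, 0), (1, 2), (2, 1), (2, 3), (3, 2), (3, 6), (4, 5), (4, 8), (5, 4), (5,
      10), (6, 3), (6, 7), (7, 6), (7, 8), (8, 4), (8, 7), (9, 0), (9, 10), (10, 5), (10, 9)]
    lev := [] }
  links := [[1, 6, 7, 8], [6, 0, 8, 9, 2, 10, 11, 4], [10, 1, 9, 12, 13, 3], [10, 2, 13, 14], [6, 1, 11,
    5, 15], [15, 4, 11, 16]]
  P := {
    a := 6
    N := 17
    nb := [450, 3925, 13834, 25604, 34914, 100368, 32915, 321, 643, 4358, 18446, 66610, 8708, 20492,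
      9224, 65648, 34848]
    tri := [(0, 1, 6), (0, 1, 8), (0, 6, 7), (0, 7, 8), (1, 2, 9), (1, 2, 10), (1, 4, 6), (1, 4, 11),
      (1, 8, 9), (1, 10, 11), (2, 3, 10), (2, 3, 13), (2, 9, 12), (2, 12, 13), (3, 10, 14), (3,
      13, 14), (4, 5, 11), (4, 5, 15), (4, 6, 15), (5, 11, 16), (5, 15, 16)]
    fin := [0, 1, 2, 2, 4, 4, 4, 0, 8, 1, 1, 4, 2, 13, 14, 15, 16]
    chd := [(0, 1), (2, 14)]
    steps := [(0, 7), (1, 9), (1, 10), (2, 3), (2, 12), (4, 5), (4, 6), (4, 11)] }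
  rep := [4, 1, 8, 13, 15, 0, 2, 14, 16]

noncomputable def v1248 : Cov.CovD where
  P := 3
  N := 6
  pl := [2, 7, 9, 10]
  lev := [⟨[], [], [(0, 5)], [2], [(0, 0, []), (1, 5, [1])]⟩,
    ⟨[], [(0, 0), (0, 1), (0, 5)], [(0, 0), (0, 1), (1, 1)], [2], [(0, 0, []), (3, 1, [5]),
      (4, 1, [5]), (5, 0, [])]⟩,
    ⟨[(0, 1)], [(1, 0), (1, 1), (1, 6)], [(1, 1), (1, 6)], [3], [(3, 1, [5]), (4, 1, [5]),
      (6, 6, [7])]⟩,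
    ⟨[(1, 2)], [(1, 1), (2, 1), (2, 6), (2, 7)], [(1, 7)], [3], [(4, 1, [5]), (8, 7, [6])]⟩,
    ⟨[(0, 1), (1, 2)], [(0, 0), (1, 0), (1, 1)], [(0, 0)], [4], [(0, 0, []), (5, 0, [])]⟩,
    ⟨[(1, 4)], [(1, 0), (4, 0)], [], [4, 8], [(5, 0, [])]⟩]
  Ta := [((0, 1), 0, 5), ((0, 9), 0, 4), ((3, 2), 1, 2), ((3, 6), 1, 6), ((4, 5), 1, 0), ((4, 8),
    1, 7), ((5, 4), 0, 1), ((5, 10), 0, 8)]
  Tb := [((0, 1, 9), 0, 5, 4), ((1, 0, 2), 5, 0, 2), ((2, 1, 3), 2, 5, 1), ((3, 2, 6), 1, 2, 6),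
    ((4, 5, 8), 1, 0, 7), ((5, 4, 10), 0, 1, 8), ((6, 3, 7), 6, 1, 3), ((7, 6, 8), 3, 6, 7),
    ((8, 4, 7), 7, 1, 3), ((9, 0, 10), 4, 0, 8), ((10, 5, 9), 8, 0, 4)]
  Tc := []
  Td := [((1, 5), (3, 2), 2), ((1, 5), (3, 6), 6), ((1, 5), (4, 5), 0), ((1, 5), (4, 8), 7), ((5,
    1), (1, 0), 0), ((5, 1), (1, 2), 2), ((6, 7), (6, 3), 1), ((6, 7), (6, 7), 3), ((7, 6),
    (8, 4), 1), ((7, 6), (8, 7), 3)]
  G := [[0, 0, 0xc161766536c1691a62d82, 0xc1a253a16a31a6a1ccd4c161a66c16c16959a2d8c,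
    0xc161a651a639aa16a2d82], [0, 0, 0x59a16c916c53ac51a6a1c58c2, 0,
    0xc16c1651a635c9536176cd82], [0, 0, 0xc6ac6a5c6ac6aac6a2d42, 0xc6ac6a6c6ac6a9c6a2d41,
    0xca6ca65ca62ca6ca6ad82], [0, 0xca6ca66ca68ca6ca6cec6a24c1, 0xca6ca69ca685c6ac6a5c6a49c2,
    0, 0xca6ca65ca6ca69ca6ca6cd81]]

noncomputable def n1248 : Ent := ⟨e1248, noF, [], [], [(14, 16, [1580044410770988437309982408355971841652082177953823432505694220289, 0])]⟩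

def c1248 : PLift (Cov.check n1248.C.D v1248 = true) := ⟨by decide +kernel⟩

def b1248 : PLift (entF (fidx ts) 400 1248 n1248 = true) := ⟨by decide +kernel⟩

theorem g1248 : GoodF (fidx ts) 400 1248 := GoodF.ofV v1248 n1248 c1248.down b1248.down

/-- 486454:1009/2 -/
noncomputable def e1249 : SCfg where
  D := {
    a := 6
    L := 9
    kp := 6
    inn := [(0, 1), (1, 0), (1, 2), (1, 4), (2, 1), (2, 3), (3, 2), (4, 1), (4, 5), (5, 4)]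
    mix := [(0, 0), (0, 1), (0, 2), (1, 0), (1, 2), (1, 3), (1, 4), (1, 5), (2, 3), (2, 4), (2, 6), (2,
      7), (3, 4), (3, 7), (3, 8), (4, 0), (4, 5), (4, 8), (5, 0), (5, 1), (5, 8)]
    cl := [0, 3, 4, 1, 1, 0, 6, 5, 2]
    chq := [(1, 3), (2, 6), (3, 1), (6, 2)]
    rng := [(0, 1), (1, 0), (1, 2), (1, 8), (2, 1), (2, 3), (3, 2), (3, 6), (4, 5), (4, 8), (5, 4), (5,
      8), (6, 3), (6, 7), (7, 6), (7, 8), (8, 1), (8, 4), (8, 5), (8, 7)]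
    lev := [] }
  links := [[1, 6, 7, 8], [6, 0, 8, 9, 2, 10, 11, 4], [10, 1, 9, 12, 13, 3], [10, 2, 13, 14], [6, 1, 11,
    14, 5], [6, 4, 14, 7]]
  P := {
    a := 6
    N := 15
    nb := [450, 3925, 13834, 25604, 18530, 16592, 179, 16737, 643, 4358, 18446, 17426, 8708, 20492,
      11448]
    tri := [(0, 1, 6), (0, 1, 8), (0, 6, 7), (0, 7, 8), (1, 2, 9), (1, 2, 10), (1, 4, 6), (1, 4, 11),
      (1, 8, 9), (1, 10, 11), (2, 3, 10), (2, 3, 13), (2, 9, 12), (2, 12, 13), (3, 10, 14), (3,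
      13, 14), (4, 5, 6), (4, 5, 14), (4, 11, 14), (5, 6, 7), (5, 7, 14)]
    fin := [0, 1, 2, 2, 4, 4, 4, 0, 8, 1, 1, 4, 2, 13, 14]
    chd := [(0, 1), (2, 14)]
    steps := [(0, 7), (1, 9), (1, 10), (2, 3), (2, 12), (4, 5), (4, 6), (4, 11)] }
  rep := [4, 1, 14, 0, 8, 13, 2]

noncomputable def v1249 : Cov.CovD where
  P := 3
  N := 4
  pl := [2, 7]
  lev := [⟨[], [], [(0, 3)], [4], [(0, 0, []), (1, 3, [1])]⟩,
    ⟨[], [(0, 0), (0, 1), (0, 3)], [(0, 0), (0, 1), (1, 1)], [4], [(0, 0, []), (3, 1, [3]),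
      (4, 1, [3]), (5, 0, [])]⟩,
    ⟨[(0, 1)], [(1, 0), (1, 1), (1, 6)], [(1, 1), (1, 6)], [5], [(3, 1, [3]), (4, 1, [3]),
      (6, 6, [2])]⟩,
    ⟨[(1, 2)], [(1, 1), (2, 1), (2, 2), (2, 6)], [(1, 2)], [5], [(4, 1, [3]), (8, 2, [6])]⟩,
    ⟨[(0, 1), (1, 2)], [(0, 0), (1, 0), (1, 1), (1, 2), (3, 2)], [(0, 0), (0, 2)], [], [(0,
      0, []), (5, 0, []), (8, 2, [6])]⟩,
    ⟨[(1, 4)], [(0, 0), (0, 3), (1, 0), (3, 2), (4, 0), (4, 2), (4, 3)], [(0, 2), (0, 3),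
      (2, 3)], [], [(0, 0, []), (1, 3, [1]), (8, 2, [6])]⟩]
  Ta := [((0, 1), 0, 3), ((3, 2), 1, 4), ((3, 6), 1, 6), ((4, 5), 1, 0), ((4, 8), 1, 2), ((5, 4),
    0, 1), ((5, 8), 0, 2)]
  Tb := [((1, 0, 2), 3, 0, 4), ((1, 0, 8), 3, 0, 2), ((1, 2, 8), 3, 4, 2), ((2, 1, 3), 4, 3, 1),
    ((3, 2, 6), 1, 4, 6), ((4, 5, 8), 1, 0, 2), ((5, 4, 8), 0, 1, 2), ((6, 3, 7), 6, 1, 5),
    ((7, 6, 8), 5, 6, 2), ((8, 1, 4), 2, 3, 1), ((8, 1, 5), 2, 3, 0), ((8, 1, 7), 2, 3, 5),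
    ((8, 4, 5), 2, 1, 0), ((8, 4, 7), 2, 1, 5), ((8, 5, 7), 2, 0, 5)]
  Tc := []
  Td := [((1, 3), (3, 2), 4), ((1, 3), (3, 6), 6), ((1, 3), (4, 5), 0), ((1, 3), (4, 8), 2), ((2,
    6), (8, 1), 3), ((2, 6), (8, 4), 1), ((2, 6), (8, 5), 0), ((2, 6), (8, 7), 5), ((3, 1),
    (1, 0), 0), ((3, 1), (1, 2), 4), ((3, 1), (1, 8), 2), ((6, 2), (6, 3), 1), ((6, 2), (6,
    7), 5)]
  G := [[0, 0, 0, 0, 0x828234828242882819ca21282a28da28834ce], [0, 0, 0,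
    0xc4c45c44c41dc88c8c89c81dc2, 0x28828194a21a2a29a21da8a294c6], [0, 0, 0x64a26182828a143,
    0, 0x128122181d4a21282288d83], [0, 0x144144c248cc4c2c88c8848cc8cec3, 0xc4c2c1c862c1c2,
    0x14145184141d14818189141dc2, 0x12112189181d18812129181dc2]]

noncomputable def n1249 : Ent := ⟨e1249, noF, [], [], []⟩

def c1249 : PLift (Cov.check n1249.C.D v1249 = true) := ⟨by decide +kernel⟩

def b1249 : PLift (entF (fidx ts) 400 1249 n1249 = true) := ⟨by decide +kernel⟩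

theorem g1249 : GoodF (fidx ts) 400 1249 := GoodF.ofV v1249 n1249 c1249.down b1249.down

/-- 486454:1009/1 -/
noncomputable def e1250 : SCfg where
  D := {
    a := 6
    L := 10
    kp := 7
    inn := [(0, 1), (1, 0), (1, 2), (1, 4), (2, 1), (2, 3), (3, 2), (4, 1), (4, 5), (5, 4)]
    mix := [(0, 0), (0, 1), (0, 2), (1, 0), (1, 2), (1, 3), (1, 4), (1, 5), (2, 3), (2, 4), (2, 6), (2,
      7), (3, 4), (3, 7), (3, 8), (4, 0), (4, 5), (4, 9), (5, 0), (5, 1), (5, 9)]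
    cl := [0, 3, 2, 1, 1, 0, 6, 4, 7, 5]
    chq := [(1, 3), (3, 1), (6, 7), (7, 6)]
    rng := [(0, 1), (1, 0), (1, 2), (1, 9), (2, 1), (2, 3), (3, 2), (3, 6), (4, 5), (4, 8), (5, 4), (5,
      9), (6, 3), (6, 7), (7, 6), (7, 8), (8, 4), (8, 7), (9, 1), (9, 5)]
    lev := [] }
  links := [[1, 6, 7, 8], [6, 0, 8, 9, 2, 10, 11, 4], [10, 1, 9, 12, 13, 3], [10, 2, 13, 14], [6, 1, 11,
    15, 5], [6, 4, 15, 7]]
  P := {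
    a := 6
    N := 16
    nb := [450, 3925, 13834, 25604, 34914, 32976, 179, 33121, 643, 4358, 18446, 33810, 8708, 20492,
      9224, 2224]
    tri := [(0, 1, 6), (0, 1, 8), (0, 6, 7), (0, 7, 8), (1, 2, 9), (1, 2, 10), (1, 4, 6), (1, 4, 11),
      (1, 8, 9), (1, 10, 11), (2, 3, 10), (2, 3, 13), (2, 9, 12), (2, 12, 13), (3, 10, 14), (3,
      13, 14), (4, 5, 6), (4, 5, 15), (4, 11, 15), (5, 6, 7), (5, 7, 15)]
    fin := [0, 1, 2, 2, 4, 4, 4, 0, 8, 1, 1, 4, 2, 13, 14, 15]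
    chd := [(0, 1), (2, 14)]
    steps := [(0, 7), (1, 9), (1, 10), (2, 3), (2, 12), (4, 5), (4, 6), (4, 11)] }
  rep := [4, 1, 8, 0, 13, 15, 2, 14]

noncomputable def v1250 : Cov.CovD where
  P := 3
  N := 5
  pl := [2, 7, 9]
  lev := [⟨[], [], [(0, 3)], [2], [(0, 0, []), (1, 3, [1])]⟩,
    ⟨[], [(0, 0), (0, 1), (0, 3)], [(0, 0), (0, 1), (1, 1)], [2], [(0, 0, []), (3, 1, [3]),
      (4, 1, [3]), (5, 0, [])]⟩,
    ⟨[(0, 1)], [(1, 0), (1, 1), (1, 6)], [(1, 1), (1, 6)], [4], [(3, 1, [3]), (4, 1, [3]),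
      (6, 6, [7])]⟩,
    ⟨[(1, 2)], [(1, 1), (2, 1), (2, 6), (2, 7)], [(1, 7)], [4], [(4, 1, [3]), (8, 7, [6])]⟩,
    ⟨[(0, 1), (1, 2)], [(0, 0), (1, 0), (1, 1)], [(0, 0)], [5], [(0, 0, []), (5, 0, [])]⟩,
    ⟨[(1, 4)], [(0, 0), (0, 3), (1, 0), (4, 0), (4, 3)], [(0, 3)], [5], [(0, 0, []), (1, 3,
      [1])]⟩]
  Ta := [((0, 1), 0, 3), ((3, 2), 1, 2), ((3, 6), 1, 6), ((4, 5), 1, 0), ((4, 8), 1, 7), ((5, 4),
    0, 1), ((5, 9), 0, 5)]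
  Tb := [((1, 0, 2), 3, 0, 2), ((1, 0, 9), 3, 0, 5), ((1, 2, 9), 3, 2, 5), ((2, 1, 3), 2, 3, 1),
    ((3, 2, 6), 1, 2, 6), ((4, 5, 8), 1, 0, 7), ((5, 4, 9), 0, 1, 5), ((6, 3, 7), 6, 1, 4),
    ((7, 6, 8), 4, 6, 7), ((8, 4, 7), 7, 1, 4), ((9, 1, 5), 5, 3, 0)]
  Tc := []
  Td := [((1, 3), (3, 2), 2), ((1, 3), (3, 6), 6), ((1, 3), (4, 5), 0), ((1, 3), (4, 8), 7), ((3,
    1), (1, 0), 0), ((3, 1), (1, 2), 2), ((3, 1), (1, 9), 5), ((6, 7), (6, 3), 1), ((6, 7),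
    (6, 7), 4), ((7, 6), (8, 4), 1), ((7, 6), (8, 7), 4)]
  G := [[0, 0, 0xca684c6ac6a6c6a2c6a2dc2, 0x2282c682a82a98882a6d4426426642a42aa24c2d8c,
    0xca6ca63ca62ca6ca6cd82], [0, 0, 0xc2682c26b4445c6ac6a5c6a82ac9c2, 0,
    0xca6ca65ca6ca69ca6ca6cd82], [0, 0, 0x5961a6553c536a1a62d82, 0xc26c263c262cc2ac2aa1c1,
    0x1a69365c16259c16cad82], [0, 0x1212684ca6ca6a4c2ac2a6c6ac6acac9,
    0x1a616c9c16c16c516a1da58c2, 0, 0x956536518149141bacd824289288583]]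

noncomputable def n1250 : Ent := ⟨e1250, noF, [], [], [(14, 15, [360035742630636841211993100915356868655746945586763691012788225, 0])]⟩

def c1250 : PLift (Cov.check n1250.C.D v1250 = true) := ⟨by decide +kernel⟩

def b1250 : PLift (entF (fidx ts) 400 1250 n1250 = true) := ⟨by decide +kernel⟩

theorem g1250 : GoodF (fidx ts) 400 1250 := GoodF.ofV v1250 n1250 c1250.down b1250.down

/-- 486454:1009/3 -/
noncomputable def e1251 : SCfg where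
  D := {
    a := 6
    L := 10
    kp := 7
    inn := [(0, 1), (1, 0), (1, 2), (1, 4), (2, 1), (2, 3), (3, 2), (4, 1), (4, 5), (5, 4)]
    mix := [(0, 0), (0, 1), (0, 2), (1, 0), (1, 2), (1, 3), (1, 4), (1, 5), (2, 3), (2, 4), (2, 6), (2,
      7), (3, 4), (3, 7), (3, 8), (4, 0), (4, 5), (4, 8), (5, 0), (5, 8), (5, 9)]
    cl := [0, 5, 2, 1, 1, 0, 6, 4, 3, 7]
    chq := [(1, 5), (3, 6), (5, 1), (6, 3)]
    rng := [(0, 1), (0, 9), (1, 0), (1, 2), (2, 1), (2, 3), (3, 2), (3, 6), (4, 5), (4, 8), (5, 4), (5,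
      8), (6, 3), (6, 7), (7, 6), (7, 8), (8, 4), (8, 5), (8, 7), (8, 9), (9, 0), (9, 8)]
    lev := [] }
  links := [[1, 6, 7, 8], [6, 0, 8, 9, 2, 10, 11, 4], [10, 1, 9, 12, 13, 3], [10, 2, 13, 14], [6, 1, 11,
    14, 5], [6, 4, 14, 15]]
  P := {
    a := 6
    N := 16
    nb := [450, 3925, 13834, 25604, 18530, 49232, 32947, 321, 643, 4358, 18446, 17426, 8708, 20492,
      44088, 16480]
    tri := [(0, 1, 6), (0, 1, 8), (0, 6, 7), (0, 7, 8), (1, 2, 9), (1, 2, 10), (1, 4, 6), (1, 4, 11),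
      (1, 8, 9), (1, 10, 11), (2, 3, 10), (2, 3, 13), (2, 9, 12), (2, 12, 13), (3, 10, 14), (3,
      13, 14), (4, 5, 6), (4, 5, 14), (4, 11, 14), (5, 6, 15), (5, 14, 15)]
    fin := [0, 1, 2, 2, 4, 4, 4, 0, 8, 1, 1, 4, 2, 13, 14, 15]
    chd := [(0, 1), (2, 14)]
    steps := [(0, 7), (1, 9), (1, 10), (2, 3), (2, 12), (4, 5), (4, 6), (4, 11)] }
  rep := [4, 1, 8, 14, 13, 0, 2, 15]

noncomputable def v1251 : Cov.CovD where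
  P := 3
  N := 5
  pl := [2, 7, 9]
  lev := [⟨[], [], [(0, 5)], [2], [(0, 0, []), (1, 5, [1])]⟩,
    ⟨[], [(0, 0), (0, 1), (0, 5)], [(0, 0), (0, 1), (1, 1)], [2], [(0, 0, []), (3, 1, [5]),
      (4, 1, [5]), (5, 0, [])]⟩,
    ⟨[(0, 1)], [(1, 0), (1, 1), (1, 6)], [(1, 1), (1, 6)], [4], [(3, 1, [5]), (4, 1, [5]),
      (6, 6, [3])]⟩,
    ⟨[(1, 2)], [(1, 1), (2, 1), (2, 3), (2, 6)], [(1, 3)], [4], [(4, 1, [5]), (8, 3, [6])]⟩,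
    ⟨[(0, 1), (1, 2)], [(0, 0), (1, 0), (1, 1), (1, 3), (3, 3)], [(0, 0), (0, 3)], [], [(0,
      0, []), (5, 0, []), (8, 3, [6])]⟩,
    ⟨[(1, 4)], [(0, 0), (1, 0), (3, 3), (4, 0), (4, 3)], [(0, 3)], [7], [(0, 0, []), (8, 3,
      [6])]⟩]
  Ta := [((0, 1), 0, 5), ((0, 9), 0, 7), ((3, 2), 1, 2), ((3, 6), 1, 6), ((4, 5), 1, 0), ((4, 8),
    1, 3), ((5, 4), 0, 1), ((5, 8), 0, 3)]
  Tb := [((0, 1, 9), 0, 5, 7), ((1, 0, 2), 5, 0, 2), ((2, 1, 3), 2, 5, 1), ((3, 2, 6), 1, 2, 6),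
    ((4, 5, 8), 1, 0, 3), ((5, 4, 8), 0, 1, 3), ((6, 3, 7), 6, 1, 4), ((7, 6, 8), 4, 6, 3),
    ((8, 4, 5), 3, 1, 0), ((8, 4, 7), 3, 1, 4), ((8, 4, 9), 3, 1, 7), ((8, 5, 7), 3, 0, 4),
    ((8, 5, 9), 3, 0, 7), ((8, 7, 9), 3, 4, 7), ((9, 0, 8), 7, 0, 3)]
  Tc := []
  Td := [((1, 5), (3, 2), 2), ((1, 5), (3, 6), 6), ((1, 5), (4, 5), 0), ((1, 5), (4, 8), 3), ((3,
    6), (8, 4), 1), ((3, 6), (8, 5), 0), ((3, 6), (8, 7), 4), ((3, 6), (8, 9), 7), ((5, 1),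
    (1, 0), 0), ((5, 1), (1, 2), 2), ((6, 3), (6, 3), 1), ((6, 3), (6, 7), 4)]
  G := [[0, 0, 0x62e23e22e21d82, 0xe211e22a2e23cc64e25e22e21d8c, 0xe22a2e23e21d82], [0, 0,
    0xc86262de8c6a9c6a1d42, 0, 0xe4ca65a2c4a2dca61d82], [0, 0, 0x12212123a272cd42,
    0xe2e26a2e29e22d41, 0xa2126e212962123d82], [0, 0x1214c41888c11c841888c64646e22ca6e4ce8d,
    0xc81412d1811a9c86218dd42, 0, 0x141165121418d78c412dd82]]

noncomputable def n1251 : Ent := ⟨e1251, noF, [], [], [(7, 15, [360035742630636841211993100915356868655746945586763691012788225, 0])]⟩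

def c1251 : PLift (Cov.check n1251.C.D v1251 = true) := ⟨by decide +kernel⟩

def b1251 : PLift (entF (fidx ts) 400 1251 n1251 = true) := ⟨by decide +kernel⟩

theorem g1251 : GoodF (fidx ts) 400 1251 := GoodF.ofV v1251 n1251 c1251.down b1251.down

/-- 486454:1009 -/
noncomputable def e1252 : SCfg where
  D := {
    a := 6
    L := 11
    kp := 8
    inn := [(0, 1), (1, 0), (1, 2), (1, 4), (2, 1), (2, 3), (3, 2), (4, 1), (4, 5), (5, 4)]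
    mix := [(0, 0), (0, 1), (0, 2), (1, 0), (1, 2), (1, 3), (1, 4), (1, 5), (2, 3), (2, 4), (2, 6), (2,
      7), (3, 4), (3, 7), (3, 8), (4, 0), (4, 5), (4, 9), (5, 0), (5, 9), (5, 10)]
    cl := [0, 5, 2, 1, 1, 0, 6, 3, 7, 4, 8]
    chq := [(1, 5), (5, 1), (6, 7), (7, 6)]
    rng := [(0, 1), (0, 10), (1, 0), (1, 2), (2, 1), (2, 3), (3, 2), (3, 6), (4, 5), (4, 8), (5, 4),
      (5, 9), (6, 3), (6, 7), (7, 6), (7, 8), (8, 4), (8, 7), (9, 5), (9, 10), (10, 0), (10, 9)]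
    lev := [] }
  links := [[1, 6, 7, 8], [6, 0, 8, 9, 2, 10, 11, 4], [10, 1, 9, 12, 13, 3], [10, 2, 13, 14], [6, 1, 11,
    15, 5], [6, 4, 15, 16]]
  P := {
    a := 6
    N := 17
    nb := [450, 3925, 13834, 25604, 34914, 98384, 65715, 321, 643, 4358, 18446, 33810, 8708, 20492,
      9224, 67632, 32864]
    tri := [(0, 1, 6), (0, 1, 8), (0, 6, 7), (0, 7, 8), (1, 2, 9), (1, 2, 10), (1, 4, 6), (1, 4, 11),
      (1, 8, 9), (1, 10, 11), (2, 3, 10), (2, 3, 13), (2, 9, 12), (2, 12, 13), (3, 10, 14), (3,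
      13, 14), (4, 5, 6), (4, 5, 15), (4, 11, 15), (5, 6, 16), (5, 15, 16)]
    fin := [0, 1, 2, 2, 4, 4, 4, 0, 8, 1, 1, 4, 2, 13, 14, 15, 16]
    chd := [(0, 1), (2, 14)]
    steps := [(0, 7), (1, 9), (1, 10), (2, 3), (2, 12), (4, 5), (4, 6), (4, 11)] }
  rep := [4, 1, 8, 13, 15, 0, 2, 14, 16]

noncomputable def v1252 : Cov.CovD where
  P := 3
  N := 6
  pl := [2, 7, 9, 10]
  lev := [⟨[], [], [(0, 5)], [2], [(0, 0, []), (1, 5, [1])]⟩,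
    ⟨[], [(0, 0), (0, 1), (0, 5)], [(0, 0), (0, 1), (1, 1)], [2], [(0, 0, []), (3, 1, [5]),
      (4, 1, [5]), (5, 0, [])]⟩,
    ⟨[(0, 1)], [(1, 0), (1, 1), (1, 6)], [(1, 1), (1, 6)], [3], [(3, 1, [5]), (4, 1, [5]),
      (6, 6, [7])]⟩,
    ⟨[(1, 2)], [(1, 1), (2, 1), (2, 6), (2, 7)], [(1, 7)], [3], [(4, 1, [5]), (8, 7, [6])]⟩,
    ⟨[(0, 1), (1, 2)], [(0, 0), (1, 0), (1, 1)], [(0, 0)], [4], [(0, 0, []), (5, 0, [])]⟩,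
    ⟨[(1, 4)], [(0, 0), (1, 0), (4, 0)], [], [4, 8], [(0, 0, [])]⟩]
  Ta := [((0, 1), 0, 5), ((0, 10), 0, 8), ((3, 2), 1, 2), ((3, 6), 1, 6), ((4, 5), 1, 0), ((4,
    8), 1, 7), ((5, 4), 0, 1), ((5, 9), 0, 4)]
  Tb := [((0, 1, 10), 0, 5, 8), ((1, 0, 2), 5, 0, 2), ((2, 1, 3), 2, 5, 1), ((3, 2, 6), 1, 2, 6),
    ((4, 5, 8), 1, 0, 7), ((5, 4, 9), 0, 1, 4), ((6, 3, 7), 6, 1, 3), ((7, 6, 8), 3, 6, 7),
    ((8, 4, 7), 7, 1, 3), ((9, 5, 10), 4, 0, 8), ((10, 0, 9), 8, 0, 4)]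
  Tc := []
  Td := [((1, 5), (3, 2), 2), ((1, 5), (3, 6), 6), ((1, 5), (4, 5), 0), ((1, 5), (4, 8), 7), ((5,
    1), (1, 0), 0), ((5, 1), (1, 2), 2), ((6, 7), (6, 3), 1), ((6, 7), (6, 7), 3), ((7, 6),
    (8, 4), 1), ((7, 6), (8, 7), 3)]
  G := [[0, 0, 0xca6ca63ca62cc6ac6ac1c2, 0xc6ac6a3c6a2c6ac6acd4ca62ca6ca69ca6ca66d8c,
    0xca6ca65ca6ca6aca62d82], [0, 0, 0xca618c6a4c6ac6a9c6ac6acdc2, 0,
    0xca6ca65ca6ca69ca6ca6cd82], [0, 0, 0xa1c216ac1a3936c1a6d42, 0xc4ca66ca6ca69a2ca66d81,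
    0x596396616cc16ac162d82], [0, 0xca6ca66ca6ca6aca64ec6a82c1, 0xc16c165c1616a916cc16cd82,
    0, 0xc161a65c1616a916c16acd82]]

noncomputable def n1252 : Ent := ⟨e1252, noF, [], [], [(7, 16, [1580044410770988437309982408355971841652082177953823432505694232577, 0]), (14, 15, [1685356702439545624007900436039642273970977273354372543760005214209, 0])]⟩

def c1252 : PLift (Cov.check n1252.C.D v1252 = true) := ⟨by decide +kernel⟩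

def b1252 : PLift (entF (fidx ts) 400 1252 n1252 = true) := ⟨by decide +kernel⟩

theorem g1252 : GoodF (fidx ts) 400 1252 := GoodF.ofV v1252 n1252 c1252.down b1252.down

/-- 466747:1010/1 -/
noncomputable def e1253 : SCfg where
  D := {
    a := 6
    L := 10
    kp := 7
    inn := [(0, 1), (0, 5), (1, 0), (1, 2), (1, 3), (1, 5), (2, 1), (2, 3), (2, 5), (3, 1), (3, 2), (3,
      4), (4, 3), (5, 0), (5, 1), (5, 2)]
    mix := [(0, 0), (0, 1), (1, 0), (1, 2), (2, 3), (2, 4), (2, 5), (3, 2), (3, 5), (3, 6), (3, 7), (4,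
      1), (4, 6), (4, 7), (5, 1), (5, 3), (5, 8), (5, 9)]
    cl := [2, 0, 1, 0, 5, 3, 4, 3, 6, 7]
    chq := [(0, 1), (1, 0), (1, 5), (5, 1)]
    rng := [(0, 1), (0, 2), (1, 0), (1, 6), (1, 7), (1, 8), (2, 0), (2, 7), (3, 4), (3, 9), (4, 3), (4,
      5), (5, 4), (5, 6), (6, 1), (6, 5), (7, 1), (7, 2), (8, 1), (8, 9), (9, 3), (9, 8)]
    lev := [] }
  links := [[1, 6, 7, 5], [6, 0, 5, 2, 3, 8], [3, 1, 5, 9, 10, 11], [8, 1, 2, 11, 12, 4, 13], [13, 3, 12,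
    7], [9, 2, 1, 0, 7, 14, 15]]
  P := {
    a := 6
    N := 16
    nb := [226, 365, 3626, 14614, 12424, 49799, 387, 28785, 8266, 33828, 2564, 5132, 2200, 408, 32928,
      16928]
    tri := [(0, 1, 5), (0, 1, 6), (0, 5, 7), (0, 6, 7), (1, 2, 3), (1, 2, 5), (1, 3, 8), (1, 6, 8), (2,
      3, 11), (2, 5, 9), (2, 9, 10), (2, 10, 11), (3, 4, 12), (3, 4, 13), (3, 8, 13), (3, 11, 12),
      (4, 7, 12), (4, 7, 13), (5, 7, 14), (5, 9, 15), (5, 14, 15)]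
    fin := [0, 1, 2, 3, 4, 4, 0, 4, 1, 4, 2, 3, 12, 3, 14, 15]
    chd := [(1, 2), (4, 1)]
    steps := [(0, 6), (1, 8), (2, 10), (3, 11), (3, 13), (4, 7), (4, 5), (4, 9)] }
  rep := [4, 1, 0, 3, 12, 2, 14, 15]

noncomputable def v1253 : Cov.CovD where
  P := 3
  N := 5
  pl := [0, 6, 8, 9]
  lev := [⟨[], [], [], [2], [(1, 0, [1])]⟩,
    ⟨[], [(0, 0), (0, 1)], [], [2], [(2, 1, [0, 5])]⟩,
    ⟨[(0, 1)], [(1, 0), (1, 1), (1, 3), (1, 5)], [(0, 3), (0, 5), (3, 5)], [], [(3, 0,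
      [1]), (4, 5, [1]), (5, 3, [])]⟩,
    ⟨[(0, 1), (1, 2)], [(1, 1), (1, 3), (2, 0), (2, 1), (2, 3), (2, 5)], [(1, 3), (3, 3)],
      [4], [(2, 1, [0, 5]), (5, 3, []), (7, 3, [])]⟩,
    ⟨[(1, 3), (2, 3)], [(0, 0), (3, 0), (3, 1), (3, 3)], [(0, 3)], [4], [(1, 0, [1]), (7,
      3, [])]⟩,
    ⟨[(0, 1), (0, 2), (1, 2), (1, 3), (2, 3)], [(0, 0), (1, 0), (1, 1), (2, 0), (2, 3), (2,
      5), (4, 0)], [(0, 0)], [6, 7], [(1, 0, [1]), (3, 0, [1])]⟩]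
  Ta := [((1, 0), 0, 2), ((1, 6), 0, 4), ((1, 7), 0, 3), ((1, 8), 0, 6), ((3, 4), 0, 5), ((3, 9),
    0, 7), ((5, 4), 3, 5), ((5, 6), 3, 4), ((7, 1), 3, 0), ((7, 2), 3, 1)]
  Tb := [((0, 1, 2), 2, 0, 1), ((1, 0, 6), 0, 2, 4), ((1, 0, 7), 0, 2, 3), ((1, 0, 8), 0, 2, 6),
    ((1, 6, 7), 0, 4, 3), ((1, 6, 8), 0, 4, 6), ((1, 7, 8), 0, 3, 6), ((2, 0, 7), 1, 2, 3),
    ((3, 4, 9), 0, 5, 7), ((4, 3, 5), 5, 0, 3), ((5, 4, 6), 3, 5, 4), ((6, 1, 5), 4, 0, 3),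
    ((7, 1, 2), 3, 0, 1), ((8, 1, 9), 6, 0, 7), ((9, 3, 8), 7, 0, 6)]
  Tc := [(1, 0, 5)]
  Td := [((0, 1), (1, 0), 2), ((0, 1), (1, 6), 4), ((0, 1), (1, 7), 3), ((0, 1), (1, 8), 6), ((0,
    1), (3, 4), 5), ((0, 1), (3, 9), 7), ((1, 0), (2, 0), 2), ((1, 0), (2, 7), 3), ((1, 5),
    (2, 0), 2), ((1, 5), (2, 7), 3), ((5, 1), (4, 3), 0), ((5, 1), (4, 5), 3)]
  G := [[0, 0xe441e8e2a1c1, 0x241eec124286b84, 0xe8e4e2d214, 0x642861241e488e2da98], [0,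
    0xe4e261e881c1, 0x2441221ce61e88bc8, 0xe8e4e2d214, 0x24285282269e8e4e2de18], [0,
    0xe441e8e2a1c1, 0, 0xeec1241, 0x22c122a1eec1e81], [0, 0xe441e8e2a1c1, 0, 0xeeee1281,
    0x22c1222e1ceee1e81]]

noncomputable def n1253 : Ent := ⟨e1253, noF, [], [], []⟩

def c1253 : PLift (Cov.check n1253.C.D v1253 = true) := ⟨by decide +kernel⟩

def b1253 : PLift (entF (fidx ts) 400 1253 n1253 = true) := ⟨by decide +kernel⟩

theorem g1253 : GoodF (fidx ts) 400 1253 := GoodF.ofV v1253 n1253 c1253.down b1253.down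

/-- 466747:1010/2 -/
noncomputable def e1254 : SCfg where
  D := {
    a := 6
    L := 10
    kp := 7
    inn := [(0, 1), (0, 5), (1, 0), (1, 2), (1, 3), (1, 5), (2, 1), (2, 3), (2, 5), (3, 1), (3, 2), (3,
      4), (4, 3), (5, 0), (5, 1), (5, 2)]
    mix := [(0, 0), (0, 1), (1, 0), (1, 2), (2, 3), (2, 4), (2, 5), (3, 2), (3, 5), (3, 6), (3, 7), (4,
      6), (4, 7), (4, 8), (5, 1), (5, 3), (5, 8), (5, 9)]
    cl := [2, 0, 1, 0, 6, 3, 4, 3, 5, 7]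
    chq := [(0, 1), (1, 0), (1, 6), (6, 1)]
    rng := [(0, 1), (0, 2), (1, 0), (1, 8), (2, 0), (2, 7), (3, 4), (3, 9), (4, 3), (4, 5), (5, 4), (5,
      6), (6, 5), (6, 8), (7, 2), (7, 8), (8, 1), (8, 6), (8, 7), (8, 9), (9, 3), (9, 8)]
    lev := [] }
  links := [[1, 6, 7, 5], [6, 0, 5, 2, 3, 8], [3, 1, 5, 9, 10, 11], [8, 1, 2, 11, 12, 4, 13], [13, 3, 12,
    14], [9, 2, 1, 0, 7, 14, 15]]
  P := {
    a := 6
    N := 16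
    nb := [226, 365, 3626, 14614, 28680, 49799, 387, 16481, 8266, 33828, 2564, 5132, 18456, 16664,
      45232, 16928]
    tri := [(0, 1, 5), (0, 1, 6), (0, 5, 7), (0, 6, 7), (1, 2, 3), (1, 2, 5), (1, 3, 8), (1, 6, 8), (2,
      3, 11), (2, 5, 9), (2, 9, 10), (2, 10, 11), (3, 4, 12), (3, 4, 13), (3, 8, 13), (3, 11, 12),
      (4, 12, 14), (4, 13, 14), (5, 7, 14), (5, 9, 15), (5, 14, 15)]
    fin := [0, 1, 2, 3, 4, 5, 0, 5, 1, 5, 2, 3, 12, 3, 4, 15]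
    chd := [(1, 2), (5, 1)]
    steps := [(0, 6), (1, 8), (2, 10), (3, 11), (3, 13), (4, 14), (5, 7), (5, 9)] }
  rep := [5, 1, 0, 3, 12, 4, 2, 15]

noncomputable def v1254 : Cov.CovD where
  P := 3
  N := 5
  pl := [0, 6, 8, 9]
  lev := [⟨[], [], [], [2], [(1, 0, [1])]⟩,
    ⟨[], [(0, 0), (0, 1)], [], [2], [(2, 1, [0, 6])]⟩,
    ⟨[(0, 1)], [(1, 0), (1, 1), (1, 3), (1, 6)], [(0, 3), (0, 6), (3, 6)], [], [(3, 0,
      [1]), (4, 6, [1]), (5, 3, [])]⟩,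
    ⟨[(0, 1), (1, 2)], [(1, 1), (1, 3), (2, 0), (2, 1), (2, 3), (2, 6)], [(1, 3), (3, 3)],
      [4], [(2, 1, [0, 6]), (5, 3, []), (7, 3, [])]⟩,
    ⟨[(1, 3), (2, 3)], [(3, 1), (3, 3)], [], [4, 5], [(7, 3, [])]⟩,
    ⟨[(0, 1), (0, 2), (1, 2), (1, 3), (2, 3)], [(0, 0), (1, 0), (1, 1), (2, 0), (2, 3), (2,
      6)], [(0, 0)], [5, 7], [(1, 0, [1]), (3, 0, [1])]⟩]
  Ta := [((1, 0), 0, 2), ((1, 8), 0, 5), ((3, 4), 0, 6), ((3, 9), 0, 7), ((5, 4), 3, 6), ((5, 6),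
    3, 4), ((7, 2), 3, 1), ((7, 8), 3, 5)]
  Tb := [((0, 1, 2), 2, 0, 1), ((1, 0, 8), 0, 2, 5), ((2, 0, 7), 1, 2, 3), ((3, 4, 9), 0, 6, 7),
    ((4, 3, 5), 6, 0, 3), ((5, 4, 6), 3, 6, 4), ((6, 5, 8), 4, 3, 5), ((7, 2, 8), 3, 1, 5),
    ((8, 1, 6), 5, 0, 4), ((8, 1, 7), 5, 0, 3), ((8, 1, 9), 5, 0, 7), ((8, 6, 7), 5, 4, 3),
    ((8, 6, 9), 5, 4, 7), ((8, 7, 9), 5, 3, 7), ((9, 3, 8), 7, 0, 5)]
  Tc := [(1, 0, 6)]
  Td := [((0, 1), (1, 0), 2), ((0, 1), (1, 8), 5), ((0, 1), (3, 4), 6), ((0, 1), (3, 9), 7), ((1,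
    0), (2, 0), 2), ((1, 0), (2, 7), 3), ((1, 6), (2, 0), 2), ((1, 6), (2, 7), 3), ((6, 1),
    (4, 3), 0), ((6, 1), (4, 5), 3)]
  G := [[0, 0x666e1eece18881c1, 0x212864264622249866d889e1dac8, 0x866dca6eecd218,
    0x2124a22285c6aa4adce2ede18], [0, 0xea541e69ec3a1c1, 0x2221522c8e6ac1922c8f422219ea6468c,
    0xe6ace392ea64258, 0x22622a21dcc3162232222f22dc4ac86ca92], [0, 0x4441e1aaaeece1c1, 0,
    0xc62be192ca64258, 0x2124ac4a8a12228522a4ade1d683], [0, 0x61ea54ecbe1a881c4, 0,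
    0xe112e6aea6c294, 0x222e22cc6a86122c215211ca6e15e89]]

noncomputable def n1254 : Ent := ⟨e1254, noF, [], [], []⟩

def c1254 : PLift (Cov.check n1254.C.D v1254 = true) := ⟨by decide +kernel⟩

def b1254 : PLift (entF (fidx ts) 400 1254 n1254 = true) := ⟨by decide +kernel⟩

theorem g1254 : GoodF (fidx ts) 400 1254 := GoodF.ofV v1254 n1254 c1254.down b1254.down

/-- 466747:1010/3 -/
noncomputable def e1255 : SCfg where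
  D := {
    a := 6
    L := 10
    kp := 7
    inn := [(0, 1), (0, 5), (1, 0), (1, 2), (1, 3), (1, 5), (2, 1), (2, 3), (2, 5), (3, 1), (3, 2), (3,
      4), (4, 3), (5, 0), (5, 1), (5, 2)]
    mix := [(0, 0), (0, 1), (1, 0), (1, 2), (2, 3), (2, 4), (2, 5), (3, 2), (3, 5), (3, 6), (3, 7), (4,
      6), (4, 7), (4, 8), (5, 1), (5, 3), (5, 8), (5, 9)]
    cl := [2, 3, 1, 3, 6, 0, 4, 0, 5, 7]
    chq := [(1, 3), (1, 6), (3, 1), (6, 1)]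
    rng := [(0, 1), (0, 2), (1, 0), (1, 9), (2, 0), (2, 7), (3, 4), (3, 8), (4, 3), (4, 5), (5, 4), (5,
      6), (6, 5), (6, 8), (7, 2), (7, 8), (8, 3), (8, 6), (8, 7), (8, 9), (9, 1), (9, 8)]
    lev := [] }
  links := [[1, 6, 7, 5], [6, 0, 5, 2, 3, 8], [3, 1, 5, 9, 10, 11], [8, 1, 2, 11, 12, 4, 13], [13, 3, 12,
    14], [9, 2, 1, 0, 7, 15, 14]]
  P := {
    a := 6
    N := 16
    nb := [226, 365, 3626, 14614, 28680, 49799, 387, 32865, 8266, 17444, 2564, 5132, 18456, 16664,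
      45616, 16544]
    tri := [(0, 1, 5), (0, 1, 6), (0, 5, 7), (0, 6, 7), (1, 2, 3), (1, 2, 5), (1, 3, 8), (1, 6, 8), (2,
      3, 11), (2, 5, 9), (2, 9, 10), (2, 10, 11), (3, 4, 12), (3, 4, 13), (3, 8, 13), (3, 11, 12),
      (4, 12, 14), (4, 13, 14), (5, 7, 15), (5, 9, 14), (5, 14, 15)]
    fin := [0, 1, 2, 3, 4, 5, 0, 5, 1, 5, 2, 3, 12, 3, 4, 15]
    chd := [(1, 2), (5, 1)]
    steps := [(0, 6), (1, 8), (2, 10), (3, 11), (3, 13), (4, 14), (5, 7), (5, 9)] }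
  rep := [3, 1, 0, 5, 12, 4, 2, 15]

noncomputable def v1255 : Cov.CovD where
  P := 3
  N := 5
  pl := [0, 6, 8, 9]
  lev := [⟨[], [], [], [2], [(1, 3, [1])]⟩,
    ⟨[], [(0, 1), (0, 3)], [], [2], [(2, 1, [3, 6])]⟩,
    ⟨[(0, 1)], [(1, 0), (1, 1), (1, 3), (1, 6)], [(0, 3), (0, 6), (3, 6)], [], [(3, 3,
      [1]), (4, 6, [1]), (5, 0, [])]⟩,
    ⟨[(0, 1), (1, 2)], [(1, 0), (1, 1), (2, 0), (2, 1), (2, 3), (2, 6)], [(0, 0), (0, 1)],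
      [4], [(2, 1, [3, 6]), (5, 0, []), (7, 0, [])]⟩,
    ⟨[(1, 3), (2, 3)], [(3, 0), (3, 1)], [], [4, 5], [(7, 0, [])]⟩,
    ⟨[(0, 1), (0, 2), (1, 2), (1, 3), (2, 3)], [(0, 3), (1, 1), (1, 3), (2, 0), (2, 3), (2,
      6)], [(3, 3)], [5, 7], [(1, 3, [1]), (3, 3, [1])]⟩]
  Ta := [((1, 0), 3, 2), ((1, 9), 3, 7), ((3, 4), 3, 6), ((3, 8), 3, 5), ((5, 4), 0, 6), ((5, 6),
    0, 4), ((7, 2), 0, 1), ((7, 8), 0, 5)]
  Tb := [((0, 1, 2), 2, 3, 1), ((1, 0, 9), 3, 2, 7), ((2, 0, 7), 1, 2, 0), ((3, 4, 8), 3, 6, 5),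
    ((4, 3, 5), 6, 3, 0), ((5, 4, 6), 0, 6, 4), ((6, 5, 8), 4, 0, 5), ((7, 2, 8), 0, 1, 5),
    ((8, 3, 6), 5, 3, 4), ((8, 3, 7), 5, 3, 0), ((8, 3, 9), 5, 3, 7), ((8, 6, 7), 5, 4, 0),
    ((8, 6, 9), 5, 4, 7), ((8, 7, 9), 5, 0, 7), ((9, 1, 8), 7, 3, 5)]
  Tc := [(1, 3, 6)]
  Td := [((1, 3), (2, 0), 2), ((1, 3), (2, 7), 0), ((1, 6), (2, 0), 2), ((1, 6), (2, 7), 0), ((3,
    1), (1, 0), 2), ((3, 1), (1, 9), 7), ((3, 1), (3, 4), 6), ((3, 1), (3, 8), 5), ((6, 1),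
    (4, 3), 3), ((6, 1), (4, 5), 0)]
  G := [[0, 0, 0x22428328283185954622349498ace, 0x93ab1c2471536c28c,
    0x2221c2122c914b495ce12221c283], [0, 0, 0x71db6c282124a2821a888e46, 0xf1db6c214,
    0x2122cd7a4b5c618], [0, 0x1964e4431438513ee17a8888bc1,
    0x222e82422622cd964244722a4d5a8ac6, 0x97ab4c21785b6c21c,
    0x2222c122222ec222e22cd5ad96ce92], [0, 0x1411a6818116a111e1214ee6cc26a7c1,
    0x52d16c2188e22ea2c3c2, 0xf7afb6c214, 0x222e22cf7afb6c618]]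

noncomputable def n1255 : Ent := ⟨e1255, noF, [], [], []⟩

def c1255 : PLift (Cov.check n1255.C.D v1255 = true) := ⟨by decide +kernel⟩

def b1255 : PLift (entF (fidx ts) 400 1255 n1255 = true) := ⟨by decide +kernel⟩

theorem g1255 : GoodF (fidx ts) 400 1255 := GoodF.ofV v1255 n1255 c1255.down b1255.down

/-- 466747:1010 -/
noncomputable def e1256 : SCfg where
  D := {
    a := 6
    L := 11
    kp := 8
    inn := [(0, 1), (0, 5), (1, 0), (1, 2), (1, 3), (1, 5), (2, 1), (2, 3), (2, 5), (3, 1), (3, 2), (3,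
      4), (4, 3), (5, 0), (5, 1), (5, 2)]
    mix := [(0, 0), (0, 1), (1, 0), (1, 2), (2, 3), (2, 4), (2, 5), (3, 2), (3, 5), (3, 6), (3, 7), (4,
      6), (4, 7), (4, 8), (5, 1), (5, 3), (5, 9), (5, 10)]
    cl := [2, 3, 1, 3, 5, 0, 4, 0, 6, 7, 8]
    chq := [(1, 3), (1, 5), (3, 1), (5, 1)]
    rng := [(0, 1), (0, 2), (1, 0), (1, 9), (2, 0), (2, 7), (3, 4), (3, 10), (4, 3), (4, 5), (5, 4),
      (5, 6), (6, 5), (6, 8), (7, 2), (7, 8), (8, 6), (8, 7), (9, 1), (9, 10), (10, 3), (10, 9)]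
    lev := [] }
  links := [[1, 6, 7, 5], [6, 0, 5, 2, 3, 8], [3, 1, 5, 9, 10, 11], [8, 1, 2, 11, 12, 4, 13], [13, 3, 12,
    14], [9, 2, 1, 0, 7, 15, 16]]
  P := {
    a := 6
    N := 17
    nb := [226, 365, 3626, 14614, 28680, 98951, 387, 32865, 8266, 66596, 2564, 5132, 18456, 16664,
      12304, 65696, 33312]
    tri := [(0, 1, 5), (0, 1, 6), (0, 5, 7), (0, 6, 7), (1, 2, 3), (1, 2, 5), (1, 3, 8), (1, 6, 8), (2,
      3, 11), (2, 5, 9), (2, 9, 10), (2, 10, 11), (3, 4, 12), (3, 4, 13), (3, 8, 13), (3, 11, 12),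
      (4, 12, 14), (4, 13, 14), (5, 7, 15), (5, 9, 16), (5, 15, 16)]
    fin := [0, 1, 2, 3, 3, 5, 0, 5, 1, 5, 2, 3, 12, 3, 14, 15, 16]
    chd := [(1, 2), (5, 1)]
    steps := [(0, 6), (1, 8), (2, 10), (3, 4), (3, 11), (3, 13), (5, 7), (5, 9)] }
  rep := [3, 1, 0, 5, 12, 2, 14, 15, 16]

noncomputable def v1256 : Cov.CovD where
  P := 3
  N := 6
  pl := [0, 6, 8, 9, 10]
  lev := [⟨[], [], [], [2], [(1, 3, [1])]⟩,
    ⟨[], [(0, 1), (0, 3)], [], [2], [(2, 1, [3, 5])]⟩,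
    ⟨[(0, 1)], [(1, 0), (1, 1), (1, 3), (1, 5)], [(0, 3), (0, 5), (3, 5)], [], [(3, 3,
      [1]), (4, 5, [1]), (5, 0, [])]⟩,
    ⟨[(0, 1), (1, 2)], [(1, 0), (1, 1), (2, 0), (2, 1), (2, 3), (2, 5)], [(0, 0), (0, 1)],
      [4], [(2, 1, [3, 5]), (5, 0, []), (7, 0, [])]⟩,
    ⟨[(1, 3), (2, 3)], [(3, 0), (3, 1)], [], [4, 6], [(7, 0, [])]⟩,
    ⟨[(0, 1), (0, 2), (1, 2), (1, 3), (2, 3)], [(0, 3), (1, 1), (1, 3), (2, 0), (2, 3), (2,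
      5)], [(3, 3)], [7, 8], [(1, 3, [1]), (3, 3, [1])]⟩]
  Ta := [((1, 0), 3, 2), ((1, 9), 3, 7), ((3, 4), 3, 5), ((3, 10), 3, 8), ((5, 4), 0, 5), ((5,
    6), 0, 4), ((7, 2), 0, 1), ((7, 8), 0, 6)]
  Tb := [((0, 1, 2), 2, 3, 1), ((1, 0, 9), 3, 2, 7), ((2, 0, 7), 1, 2, 0), ((3, 4, 10), 3, 5, 8),
    ((4, 3, 5), 5, 3, 0), ((5, 4, 6), 0, 5, 4), ((6, 5, 8), 4, 0, 6), ((7, 2, 8), 0, 1, 6),
    ((8, 6, 7), 6, 4, 0), ((9, 1, 10), 7, 3, 8), ((10, 3, 9), 8, 3, 7)]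
  Tc := [(1, 3, 5)]
  Td := [((1, 3), (2, 0), 2), ((1, 3), (2, 7), 0), ((1, 5), (2, 0), 2), ((1, 5), (2, 7), 0), ((3,
    1), (1, 0), 2), ((3, 1), (1, 9), 7), ((3, 1), (3, 4), 5), ((3, 1), (3, 10), 8), ((5, 1),
    (4, 3), 3), ((5, 1), (4, 5), 0)]
  G := [[0, 0, 0x22642821824218dd646222b4d18ace, 0xeeae1c21bbab1c245,
    0x2142821226c22a8ddad1ce121821b], [0, 0, 0x2264223fd27ca821822c21ad18e46, 0xffaf1c218,
    0x22a21cf1ff6c618], [0, 0x14111ea11c461811a6eecee6a9c1,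
    0x2264222a82c2264dd642264b22a8dda822a87ca, 0xbbabb6c2172776c278829c,
    0x22a226c21dd642283226422a8dda8e928821b], [0, 0x11c116a4411c11a612111e18eeeceea6b8c,
    0x116462ee6c3d9a82883c2, 0xffaff6c214, 0x222e2224effaff6c618]]

noncomputable def n1256 : Ent := ⟨e1256, noF, [], [], [(7, 14, [1685382413448253767852309107433119732572617628602273068445370044417, 0]), (15, 14, [1685382413448253767852309107433119732572617628602273068445370048513, 0]), (16, 14, [1580095832788404724998799751142926758855362888449624481876423897089, 0])]⟩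

def c1256 : PLift (Cov.check n1256.C.D v1256 = true) := ⟨by decide +kernel⟩

def b1256 : PLift (entF (fidx ts) 400 1256 n1256 = true) := ⟨by decide +kernel⟩

theorem g1256 : GoodF (fidx ts) 400 1256 := GoodF.ofV v1256 n1256 c1256.down b1256.down

/-- 459664:1011 -/
noncomputable def e1257 : SCfg where
  D := {
    a := 6
    L := 10
    kp := 8
    inn := [(0, 1), (0, 2), (1, 0), (1, 2), (1, 3), (2, 0), (2, 1), (2, 3), (2, 4), (2, 5), (3, 1), (3,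
      2), (3, 4), (4, 2), (4, 3), (4, 5), (5, 2), (5, 4)]
    mix := [(0, 0), (0, 1), (1, 1), (1, 2), (2, 0), (2, 3), (2, 4), (2, 5), (3, 2), (3, 6), (3, 7), (4,
      7), (4, 8), (4, 9), (5, 3), (5, 9)]
    cl := [0, 2, 1, 0, 7, 8, 5, 3, 6, 4]
    chq := [(0, 1), (0, 3), (0, 5), (0, 6), (1, 0), (3, 0), (5, 0), (6, 0)]
    rng := [(0, 1), (0, 5), (1, 0), (1, 2), (2, 1), (2, 6), (3, 4), (3, 9), (4, 3), (4, 5), (5, 0), (5,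
      4), (6, 2), (6, 7), (7, 6), (7, 8), (8, 7), (8, 9), (9, 3), (9, 8)]
    lev := [] }
  links := [[1, 2, 6, 7], [2, 0, 7, 8, 3], [6, 0, 1, 3, 4, 5, 9, 10, 11], [4, 2, 1, 8, 12, 13], [5, 2, 3,
    13, 14, 15], [9, 2, 4, 15]]
  P := {
    a := 6
    N := 16
    nb := [198, 397, 3707, 12566, 57388, 33300, 2181, 323, 4234, 33828, 2564, 1092, 8456, 20504,
      40976, 16944]
    tri := [(0, 1, 2), (0, 1, 7), (0, 2, 6), (0, 6, 7), (1, 2, 3), (1, 3, 8), (1, 7, 8), (2, 3, 4), (2,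
      4, 5), (2, 5, 9), (2, 6, 11), (2, 9, 10), (2, 10, 11), (3, 4, 13), (3, 8, 12), (3, 12, 13),
      (4, 5, 15), (4, 13, 14), (4, 14, 15), (5, 9, 15)]
    fin := [0, 0, 0, 0, 0, 0, 0, 7, 8, 0, 10, 11, 12, 13, 14, 15]
    chd := [(0, 8), (0, 12), (0, 13), (0, 14)]
    steps := [(0, 1), (0, 2), (0, 3), (0, 4), (0, 5), (0, 6), (0, 9)] }
  rep := [0, 8, 7, 13, 15, 12, 14, 10, 11]

noncomputable def v1257 : Cov.CovD where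
  P := 3
  N := 6
  pl := [1, 4, 5, 9]
  lev := [⟨[], [], [], [2], [(0, 0, [1, 3, 5, 6])]⟩,
    ⟨[], [(0, 0), (0, 1)], [], [2], [(2, 1, [0])]⟩,
    ⟨[(0, 1)], [(0, 0), (1, 0), (1, 1)], [(0, 0)], [7, 8], [(0, 0, [1, 3, 5, 6]), (3, 0,
      [1, 3, 5, 6])]⟩,
    ⟨[(0, 1), (0, 2), (1, 2)], [(1, 1), (1, 3), (1, 5), (2, 0), (2, 1), (2, 3), (2, 5)],
      [(1, 3), (1, 5), (3, 5)], [], [(2, 1, [0]), (6, 5, [0]), (7, 3, [0])]⟩,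
    ⟨[(0, 2), (1, 2), (1, 3), (2, 3)], [(2, 0), (2, 3), (2, 6), (3, 1), (3, 3), (3, 5), (3,
      6)], [(3, 6)], [4], [(7, 3, [0]), (8, 6, [0])]⟩,
    ⟨[(0, 2), (1, 2), (2, 3), (2, 4), (3, 4)], [(2, 0), (4, 0), (4, 3), (4, 6)], [], [4],
      [(3, 0, [1, 3, 5, 6])]⟩]
  Ta := [((0, 1), 0, 2), ((0, 5), 0, 8), ((3, 4), 0, 7), ((3, 9), 0, 4)]
  Tb := [((0, 1, 5), 0, 2, 8), ((1, 0, 2), 2, 0, 1), ((2, 1, 6), 1, 2, 5), ((3, 4, 9), 0, 7, 4),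
    ((4, 3, 5), 7, 0, 8), ((5, 0, 4), 8, 0, 7), ((6, 2, 7), 5, 1, 3), ((7, 6, 8), 3, 5, 6),
    ((8, 7, 9), 6, 3, 4), ((9, 3, 8), 4, 0, 6)]
  Tc := [(0, 1, 3), (0, 1, 5), (0, 1, 6), (0, 3, 5), (0, 3, 6), (0, 5, 6)]
  Td := [((0, 1), (0, 1), 2), ((0, 1), (0, 5), 8), ((0, 1), (3, 4), 7), ((0, 1), (3, 9), 4), ((0,
    3), (0, 1), 2), ((0, 3), (0, 5), 8), ((0, 3), (3, 4), 7), ((0, 3), (3, 9), 4), ((0, 5),
    (0, 1), 2), ((0, 5), (0, 5), 8), ((0, 5), (3, 4), 7), ((0, 5), (3, 9), 4), ((0, 6), (0,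
    1), 2), ((0, 6), (0, 5), 8), ((0, 6), (3, 4), 7), ((0, 6), (3, 9), 4), ((1, 0), (2, 1),
    2), ((1, 0), (2, 6), 5), ((3, 0), (7, 6), 5), ((3, 0), (7, 8), 6), ((5, 0), (6, 2), 1),
    ((5, 0), (6, 7), 3), ((6, 0), (8, 7), 3), ((6, 0), (8, 9), 4)]
  G := [[0, 0x61a1c1e4161a1c1ec1a1c1ea49, 0x611a11a11e84,
    0x611267581ab14181141cfde41a114d454118984c, 0x11612812671a181811afd41811c9de618118d89a],
    [0, 0x6161661a1a1e61a1c1ee6188c1, 0, 0x42671a182ab94181845afde4819454418168d8c9,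
    0x618148d81426714181832cfd418184ccfde83]]

noncomputable def n1257 : Ent := ⟨e1257, noF, [], [], []⟩

def c1257 : PLift (Cov.check n1257.C.D v1257 = true) := ⟨by decide +kernel⟩

def b1257 : PLift (entF (fidx ts) 400 1257 n1257 = true) := ⟨by decide +kernel⟩

theorem g1257 : GoodF (fidx ts) 400 1257 := GoodF.ofV v1257 n1257 c1257.down b1257.down

/-- 466764:1018 -/
noncomputable def e1258 : SCfg where
  D := {
    a := 6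
    L := 11
    kp := 8
    inn := [(0, 1), (0, 3), (1, 0), (1, 2), (1, 3), (2, 1), (2, 3), (2, 4), (3, 0), (3, 1), (3, 2), (4,
      2), (4, 5), (5, 4)]
    mix := [(0, 0), (0, 1), (1, 0), (1, 2), (1, 3), (2, 2), (2, 4), (2, 5), (3, 1), (3, 4), (3, 6), (3,
      7), (4, 2), (4, 5), (4, 8), (4, 9), (5, 5), (5, 8), (5, 10)]
    cl := [2, 1, 0, 4, 1, 0, 5, 6, 3, 7, 8]
    chq := [(0, 2), (0, 3), (2, 0), (3, 0)]
    rng := [(0, 1), (0, 3), (1, 0), (1, 6), (2, 3), (2, 9), (3, 0), (3, 2), (4, 5), (4, 7), (5, 4), (5,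
      10), (6, 1), (6, 7), (7, 4), (7, 6), (8, 9), (8, 10), (9, 2), (9, 8), (10, 5), (10, 8)]
    lev := [] }
  links := [[1, 6, 7, 3], [6, 0, 3, 2, 8, 9], [8, 1, 3, 10, 11, 4], [10, 2, 1, 0, 7, 12, 13], [8, 2, 11,
    5, 14, 15], [14, 4, 11, 16]]
  P := {
    a := 6
    N := 17
    nb := [202, 845, 3354, 13447, 51492, 83984, 643, 4169, 33302, 322, 10252, 66612, 8328, 5128,
      98352, 16656, 18464]
    tri := [(0, 1, 3), (0, 1, 6), (0, 3, 7), (0, 6, 7), (1, 2, 3), (1, 2, 8), (1, 6, 9), (1, 8, 9), (2,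
      3, 10), (2, 4, 8), (2, 4, 11), (2, 10, 11), (3, 7, 12), (3, 10, 13), (3, 12, 13), (4, 5,
      11), (4, 5, 14), (4, 8, 15), (4, 14, 15), (5, 11, 16), (5, 14, 16)]
    fin := [0, 0, 0, 3, 4, 4, 0, 3, 4, 9, 3, 4, 12, 13, 14, 15, 16]
    chd := [(0, 4), (4, 14)]
    steps := [(0, 1), (0, 2), (0, 6), (3, 7), (3, 10), (4, 5), (4, 11), (4, 8)] }
  rep := [4, 3, 0, 14, 9, 12, 13, 15, 16]

noncomputable def v1258 : Cov.CovD where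
  P := 3
  N := 6
  pl := [3, 6, 7, 9, 10]
  lev := [⟨[], [], [(1, 2)], [], [(0, 2, [0]), (1, 1, [])]⟩,
    ⟨[], [(0, 0), (0, 1), (0, 2)], [(0, 2)], [4], [(0, 2, [0]), (2, 0, [2, 3])]⟩,
    ⟨[(0, 1)], [(1, 0), (1, 1), (1, 2)], [(0, 0), (0, 1)], [], [(2, 0, [2, 3]), (4, 1, []),
      (5, 0, [2, 3])]⟩,
    ⟨[(0, 1), (0, 2), (1, 2)], [(0, 1), (0, 2), (1, 0), (1, 1), (1, 2), (2, 0), (2, 1)],
      [(1, 1)], [5, 6], [(1, 1, []), (4, 1, [])]⟩,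
    ⟨[(1, 2), (2, 3)], [(1, 0), (2, 0), (2, 1), (2, 3)], [(0, 0), (0, 3)], [7], [(2, 0, [2,
      3]), (5, 0, [2, 3]), (8, 3, [0])]⟩,
    ⟨[(2, 4)], [(2, 0), (4, 0), (4, 3)], [(0, 3)], [8], [(5, 0, [2, 3]), (8, 3, [0])]⟩]
  Ta := [((1, 0), 1, 2), ((1, 6), 1, 5), ((2, 3), 0, 4), ((2, 9), 0, 7), ((4, 5), 1, 0), ((4, 7),
    1, 6), ((5, 4), 0, 1), ((5, 10), 0, 8)]
  Tb := [((0, 1, 3), 2, 1, 4), ((1, 0, 6), 1, 2, 5), ((2, 3, 9), 0, 4, 7), ((3, 0, 2), 4, 2, 0),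
    ((4, 5, 7), 1, 0, 6), ((5, 4, 10), 0, 1, 8), ((6, 1, 7), 5, 1, 6), ((7, 4, 6), 6, 1, 5),
    ((8, 9, 10), 3, 7, 8), ((9, 2, 8), 7, 0, 3), ((10, 5, 8), 8, 0, 3)]
  Tc := [(0, 2, 3)]
  Td := [((0, 2), (2, 3), 4), ((0, 2), (2, 9), 7), ((0, 2), (5, 4), 1), ((0, 2), (5, 10), 8),
    ((0, 3), (2, 3), 4), ((0, 3), (2, 9), 7), ((0, 3), (5, 4), 1), ((0, 3), (5, 10), 8), ((2,
    0), (0, 1), 1), ((2, 0), (0, 3), 4), ((3, 0), (8, 9), 7), ((3, 0), (8, 10), 8)]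
  G := [[0, 0, 0x121165111e18911c4e116111e111ed188ca4,
    0xedce5c525e3e1ede535a8948ec12925539e8c8c, 0x935eb2593ed1ec46544935e93ae1bedca1], [0, 0,
    0x144111e11a111edc14111e111ed11a8cc2, 0, 0x54471ee93a93eedc2544e95e93ae35edc8a], [0, 0,
    0x111e111e511a8148e111e111e5111e8c68, 0xe21eec1ae21eec1ae24e28eeceecced4,
    0xe21eec16e41eea1ce2e2ceeceecc6b8], [0, 0xee64eeeee6ee8e8aa84e14,
    0x116125111e1811cdc14111e14d11a11a9cc2, 0, 0xee61e81c44e4ceaeeeeacc9ee61e81c23]]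

noncomputable def n1258 : Ent := ⟨e1258, noF, [], [], []⟩

def c1258 : PLift (Cov.check n1258.C.D v1258 = true) := ⟨by decide +kernel⟩

def b1258 : PLift (entF (fidx ts) 400 1258 n1258 = true) := ⟨by decide +kernel⟩

theorem g1258 : GoodF (fidx ts) 400 1258 := GoodF.ofV v1258 n1258 c1258.down b1258.down

/-- 466764:1019/1 -/
noncomputable def e1259 : SCfg where
  D := {
    a := 6
    L := 10
    kp := 7
    inn := [(0, 1), (0, 3), (1, 0), (1, 2), (1, 3), (2, 1), (2, 3), (2, 4), (3, 0), (3, 1), (3, 2), (4,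
      2), (4, 5), (5, 4)]
    mix := [(0, 0), (0, 1), (1, 0), (1, 2), (1, 3), (2, 2), (2, 4), (2, 5), (3, 1), (3, 4), (3, 6), (3,
      7), (4, 2), (4, 5), (4, 8), (4, 9), (5, 1), (5, 8), (5, 9)]
    cl := [2, 0, 1, 5, 0, 1, 6, 7, 3, 4]
    chq := [(1, 2), (2, 1), (3, 4), (4, 3)]
    rng := [(0, 1), (0, 3), (1, 0), (1, 6), (1, 8), (1, 9), (2, 3), (2, 9), (3, 0), (3, 2), (4, 5), (4,
      7), (5, 4), (5, 8), (6, 1), (6, 7), (7, 4), (7, 6), (8, 1), (8, 5), (9, 1), (9, 2)]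
    lev := [] }
  links := [[1, 6, 7, 3], [6, 0, 3, 2, 8, 9], [8, 1, 3, 10, 11, 4], [10, 2, 1, 0, 7, 12, 13], [8, 2, 11,
    14, 5, 15], [15, 4, 14, 7]]
  P := {
    a := 6
    N := 16
    nb := [202, 845, 3354, 13447, 51492, 49296, 643, 53353, 33302, 322, 10252, 17428, 8328, 5128,
      2224, 432]
    tri := [(0, 1, 3), (0, 1, 6), (0, 3, 7), (0, 6, 7), (1, 2, 3), (1, 2, 8), (1, 6, 9), (1, 8, 9), (2,
      3, 10), (2, 4, 8), (2, 4, 11), (2, 10, 11), (3, 7, 12), (3, 10, 13), (3, 12, 13), (4, 5,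
      14), (4, 5, 15), (4, 8, 15), (4, 11, 14), (5, 7, 14), (5, 7, 15)]
    fin := [0, 0, 0, 3, 4, 5, 0, 3, 4, 9, 3, 4, 12, 13, 5, 15]
    chd := [(0, 4), (5, 15)]
    steps := [(0, 1), (0, 2), (0, 6), (3, 7), (3, 10), (4, 11), (4, 8), (5, 14)] }
  rep := [3, 4, 0, 5, 15, 9, 12, 13]

noncomputable def v1259 : Cov.CovD where
  P := 3
  N := 5
  pl := [3, 6, 7]
  lev := [⟨[], [], [(0, 2)], [], [(0, 2, [1]), (1, 0, [])]⟩,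
    ⟨[], [(0, 0), (0, 1), (0, 2)], [(1, 2)], [5], [(0, 2, [1]), (2, 1, [2])]⟩,
    ⟨[(0, 1)], [(1, 0), (1, 1), (1, 2)], [(0, 1), (1, 1)], [], [(2, 1, [2]), (4, 0, []),
      (5, 1, [2])]⟩,
    ⟨[(0, 1), (0, 2), (1, 2)], [(0, 0), (0, 2), (1, 0), (1, 1), (1, 2), (2, 0), (2, 1)],
      [(0, 0)], [6, 7], [(1, 0, []), (4, 0, [])]⟩,
    ⟨[(1, 2), (2, 3)], [(1, 1), (2, 0), (2, 1), (2, 3), (2, 4)], [(1, 1), (1, 3), (1, 4),
      (3, 4)], [], [(2, 1, [2]), (5, 1, [2]), (8, 3, [4]), (9, 4, [3])]⟩,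
    ⟨[(2, 4)], [(0, 0), (3, 0), (4, 0), (4, 1), (4, 3), (4, 4)], [(0, 3), (0, 4), (3, 4)],
      [], [(1, 0, []), (8, 3, [4]), (9, 4, [3])]⟩]
  Ta := [((1, 0), 0, 2), ((1, 6), 0, 6), ((1, 8), 0, 3), ((1, 9), 0, 4), ((2, 3), 1, 5), ((2, 9),
    1, 4), ((4, 5), 0, 1), ((4, 7), 0, 7), ((5, 4), 1, 0), ((5, 8), 1, 3)]
  Tb := [((0, 1, 3), 2, 0, 5), ((1, 0, 6), 0, 2, 6), ((1, 0, 8), 0, 2, 3), ((1, 0, 9), 0, 2, 4),
    ((1, 6, 8), 0, 6, 3), ((1, 6, 9), 0, 6, 4), ((1, 8, 9), 0, 3, 4), ((2, 3, 9), 1, 5, 4),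
    ((3, 0, 2), 5, 2, 1), ((4, 5, 7), 0, 1, 7), ((5, 4, 8), 1, 0, 3), ((6, 1, 7), 6, 0, 7),
    ((7, 4, 6), 7, 0, 6), ((8, 1, 5), 3, 0, 1), ((9, 1, 2), 4, 0, 1)]
  Tc := []
  Td := [((1, 2), (2, 3), 5), ((1, 2), (2, 9), 4), ((1, 2), (5, 4), 0), ((1, 2), (5, 8), 3), ((2,
    1), (0, 1), 0), ((2, 1), (0, 3), 5), ((3, 4), (8, 1), 0), ((3, 4), (8, 5), 1), ((4, 3),
    (9, 1), 0), ((4, 3), (9, 2), 1)]
  G := [[0, 0, 0xe1484e1e16e18ce1e1a8cc, 0x2252162849425222da8889242d22c6822d8cd4,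
    0x2186921e84c2484ce542524ad24ade888c92], [0, 0, 0xe124e124e1e1c4e8,
    0x425225621822c8828ed242d4222d822dac94, 0x826d242121c84c84cc524ad28b8], [0, 0, 0,
    0x2142121ac2142121ac94, 0xe1e1e1e41e1e1e1e483], [0, 0x111e811ea841e4614, 0,
    0x212121e4212121e8c1, 0xe124e14e18ce124b8]]

noncomputable def n1259 : Ent := ⟨e1259, noF, [], [], []⟩

def c1259 : PLift (Cov.check n1259.C.D v1259 = true) := ⟨by decide +kernel⟩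

def b1259 : PLift (entF (fidx ts) 400 1259 n1259 = true) := ⟨by decide +kernel⟩

theorem g1259 : GoodF (fidx ts) 400 1259 := GoodF.ofV v1259 n1259 c1259.down b1259.down

/-- 466764:1019/2 -/
noncomputable def e1260 : SCfg where
  D := {
    a := 6
    L := 10
    kp := 7
    inn := [(0, 1), (0, 3), (1, 0), (1, 2), (1, 3), (2, 1), (2, 3), (2, 4), (3, 0), (3, 1), (3, 2), (4,
      2), (4, 5), (5, 4)]
    mix := [(0, 0), (0, 1), (1, 0), (1, 2), (1, 3), (2, 2), (2, 4), (2, 5), (3, 1), (3, 4), (3, 6), (3,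
      7), (4, 2), (4, 5), (4, 8), (4, 9), (5, 6), (5, 8), (5, 9)]
    cl := [3, 1, 0, 6, 1, 0, 2, 7, 4, 5]
    chq := [(0, 2), (0, 3), (2, 0), (3, 0)]
    rng := [(0, 1), (0, 3), (1, 0), (1, 6), (2, 3), (2, 9), (3, 0), (3, 2), (4, 5), (4, 7), (5, 4), (5,
      8), (6, 1), (6, 7), (6, 8), (6, 9), (7, 4), (7, 6), (8, 5), (8, 6), (9, 2), (9, 6)]
    lev := [] }
  links := [[1, 6, 7, 3], [6, 0, 3, 2, 8, 9], [8, 1, 3, 10, 11, 4], [10, 2, 1, 0, 7, 12, 13], [8, 2, 11,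
    14, 5, 15], [15, 4, 14, 12]]
  P := {
    a := 6
    N := 16
    nb := [202, 845, 3354, 13447, 51492, 53264, 643, 4169, 33302, 322, 10252, 17428, 57512, 5128,
      6192, 4400]
    tri := [(0, 1, 3), (0, 1, 6), (0, 3, 7), (0, 6, 7), (1, 2, 3), (1, 2, 8), (1, 6, 9), (1, 8, 9), (2,
      3, 10), (2, 4, 8), (2, 4, 11), (2, 10, 11), (3, 7, 12), (3, 10, 13), (3, 12, 13), (4, 5,
      14), (4, 5, 15), (4, 8, 15), (4, 11, 14), (5, 12, 14), (5, 12, 15)]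
    fin := [0, 0, 2, 3, 4, 4, 0, 3, 2, 9, 3, 2, 4, 13, 14, 15]
    chd := [(0, 2), (2, 4)]
    steps := [(0, 1), (0, 6), (2, 11), (2, 8), (3, 7), (3, 10), (4, 5), (4, 12)] }
  rep := [2, 3, 4, 0, 14, 15, 9, 13]

noncomputable def v1260 : Cov.CovD where
  P := 3
  N := 5
  pl := [3, 7, 8, 9]
  lev := [⟨[], [], [(1, 3)], [], [(0, 3, [0]), (1, 1, [])]⟩,
    ⟨[], [(0, 0), (0, 1), (0, 3)], [(0, 3)], [6], [(0, 3, [0]), (2, 0, [2, 3])]⟩,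
    ⟨[(0, 1)], [(1, 0), (1, 1), (1, 3)], [(0, 0), (0, 1)], [], [(2, 0, [2, 3]), (4, 1, []),
      (5, 0, [2, 3])]⟩,
    ⟨[(0, 1), (0, 2), (1, 2)], [(0, 1), (0, 2), (0, 3), (1, 0), (1, 1), (1, 2), (1, 3), (2,
      0), (2, 1), (2, 2)], [(1, 1), (1, 2)], [7], [(1, 1, []), (4, 1, []), (6, 2, [0])]⟩,
    ⟨[(1, 2), (2, 3)], [(1, 0), (2, 0), (2, 1)], [(0, 0)], [4, 5], [(2, 0, [2, 3]), (5, 0,
      [2, 3])]⟩,
    ⟨[(2, 4)], [(3, 2), (4, 0), (4, 2)], [], [4, 5], [(6, 2, [0])]⟩]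
  Ta := [((1, 0), 1, 3), ((1, 6), 1, 2), ((2, 3), 0, 6), ((2, 9), 0, 5), ((4, 5), 1, 0), ((4, 7),
    1, 7), ((5, 4), 0, 1), ((5, 8), 0, 4)]
  Tb := [((0, 1, 3), 3, 1, 6), ((1, 0, 6), 1, 3, 2), ((2, 3, 9), 0, 6, 5), ((3, 0, 2), 6, 3, 0),
    ((4, 5, 7), 1, 0, 7), ((5, 4, 8), 0, 1, 4), ((6, 1, 7), 2, 1, 7), ((6, 1, 8), 2, 1, 4),
    ((6, 1, 9), 2, 1, 5), ((6, 7, 8), 2, 7, 4), ((6, 7, 9), 2, 7, 5), ((6, 8, 9), 2, 4, 5),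
    ((7, 4, 6), 7, 1, 2), ((8, 5, 6), 4, 0, 2), ((9, 2, 6), 5, 0, 2)]
  Tc := [(0, 2, 3)]
  Td := [((0, 2), (2, 3), 6), ((0, 2), (2, 9), 5), ((0, 2), (5, 4), 1), ((0, 2), (5, 8), 4), ((0,
    3), (2, 3), 6), ((0, 3), (2, 9), 5), ((0, 3), (5, 4), 1), ((0, 3), (5, 8), 4), ((2, 0),
    (6, 1), 1), ((2, 0), (6, 7), 7), ((2, 0), (6, 8), 4), ((2, 0), (6, 9), 5), ((3, 0), (0,
    1), 1), ((3, 0), (0, 3), 6)]
  G := [[0, 0, 0x22184c164261881ca4261881a4261881c6c, 0xd2d2984d2d258d2d2c8a5,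
    0x812e148126192e9888a4812e84812e812e94ad], [0, 0, 0x22142ec11c8c12, 0,
    0x812e812e941261498882a9cc812e812e9423], [0, 0, 0x142e412884c8e12218221884c14cc27c,
    0xd2d2548d2d258d2d2c469, 0x812e1422881c8692222981c81c9a4812e812e942d], [0,
    0x811e141ec21141e841ec21a, 0x112e4111e8c12, 0,
    0x1261811e889c1418882a9c12688d811e812e9423]]

noncomputable def n1260 : Ent := ⟨e1260, noF, [], [], []⟩

def c1260 : PLift (Cov.check n1260.C.D v1260 = true) := ⟨by decide +kernel⟩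

def b1260 : PLift (entF (fidx ts) 400 1260 n1260 = true) := ⟨by decide +kernel⟩

theorem g1260 : GoodF (fidx ts) 400 1260 := GoodF.ofV v1260 n1260 c1260.down b1260.down

/-- 466764:1019/3 -/
noncomputable def e1261 : SCfg where
  D := {
    a := 6
    L := 10
    kp := 7
    inn := [(0, 1), (0, 3), (1, 0), (1, 2), (1, 3), (2, 1), (2, 3), (2, 4), (3, 0), (3, 1), (3, 2), (4,
      2), (4, 5), (5, 4)]
    mix := [(0, 0), (0, 1), (1, 0), (1, 2), (1, 3), (2, 2), (2, 4), (2, 5), (3, 1), (3, 4), (3, 6), (3,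
      7), (4, 2), (4, 5), (4, 8), (4, 9), (5, 7), (5, 8), (5, 9)]
    cl := [3, 1, 0, 6, 1, 0, 7, 2, 4, 5]
    chq := [(0, 2), (0, 3), (2, 0), (3, 0)]
    rng := [(0, 1), (0, 3), (1, 0), (1, 6), (2, 3), (2, 9), (3, 0), (3, 2), (4, 5), (4, 7), (5, 4), (5,
      8), (6, 1), (6, 7), (7, 4), (7, 6), (7, 8), (7, 9), (8, 5), (8, 7), (9, 2), (9, 7)]
    lev := [] }
  links := [[1, 6, 7, 3], [6, 0, 3, 2, 8, 9], [8, 1, 3, 10, 11, 4], [10, 2, 1, 0, 7, 12, 13], [8, 2, 11,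
    14, 5, 15], [15, 4, 14, 13]]
  P := {
    a := 6
    N := 16
    nb := [202, 845, 3354, 13447, 51492, 57360, 643, 4169, 33302, 322, 10252, 17428, 8328, 54312,
      10288, 8496]
    tri := [(0, 1, 3), (0, 1, 6), (0, 3, 7), (0, 6, 7), (1, 2, 3), (1, 2, 8), (1, 6, 9), (1, 8, 9), (2,
      3, 10), (2, 4, 8), (2, 4, 11), (2, 10, 11), (3, 7, 12), (3, 10, 13), (3, 12, 13), (4, 5,
      14), (4, 5, 15), (4, 8, 15), (4, 11, 14), (5, 13, 14), (5, 13, 15)]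
    fin := [0, 0, 2, 3, 4, 4, 0, 3, 2, 9, 3, 2, 12, 4, 14, 15]
    chd := [(0, 2), (2, 4)]
    steps := [(0, 1), (0, 6), (2, 11), (2, 8), (3, 7), (3, 10), (4, 5), (4, 13)] }
  rep := [2, 3, 4, 0, 14, 15, 9, 12]

noncomputable def v1261 : Cov.CovD where
  P := 3
  N := 5
  pl := [3, 6, 8, 9]
  lev := [⟨[], [], [(1, 3)], [], [(0, 3, [0]), (1, 1, [])]⟩,
    ⟨[], [(0, 0), (0, 1), (0, 3)], [(0, 3)], [6], [(0, 3, [0]), (2, 0, [2, 3])]⟩,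
    ⟨[(0, 1)], [(1, 0), (1, 1), (1, 3)], [(0, 0), (0, 1)], [], [(2, 0, [2, 3]), (4, 1, []),
      (5, 0, [2, 3])]⟩,
    ⟨[(0, 1), (0, 2), (1, 2)], [(0, 1), (0, 2), (0, 3), (1, 0), (1, 1), (1, 2), (1, 3), (2,
      0), (2, 1), (2, 2)], [(1, 1), (1, 2)], [7], [(1, 1, []), (4, 1, []), (7, 2, [0])]⟩,
    ⟨[(1, 2), (2, 3)], [(1, 0), (2, 0), (2, 1)], [(0, 0)], [4, 5], [(2, 0, [2, 3]), (5, 0,
      [2, 3])]⟩,
    ⟨[(2, 4)], [(3, 2), (4, 0), (4, 2)], [], [4, 5], [(7, 2, [0])]⟩]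
  Ta := [((1, 0), 1, 3), ((1, 6), 1, 7), ((2, 3), 0, 6), ((2, 9), 0, 5), ((4, 5), 1, 0), ((4, 7),
    1, 2), ((5, 4), 0, 1), ((5, 8), 0, 4)]
  Tb := [((0, 1, 3), 3, 1, 6), ((1, 0, 6), 1, 3, 7), ((2, 3, 9), 0, 6, 5), ((3, 0, 2), 6, 3, 0),
    ((4, 5, 7), 1, 0, 2), ((5, 4, 8), 0, 1, 4), ((6, 1, 7), 7, 1, 2), ((7, 4, 6), 2, 1, 7),
    ((7, 4, 8), 2, 1, 4), ((7, 4, 9), 2, 1, 5), ((7, 6, 8), 2, 7, 4), ((7, 6, 9), 2, 7, 5),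
    ((7, 8, 9), 2, 4, 5), ((8, 5, 7), 4, 0, 2), ((9, 2, 7), 5, 0, 2)]
  Tc := [(0, 2, 3)]
  Td := [((0, 2), (2, 3), 6), ((0, 2), (2, 9), 5), ((0, 2), (5, 4), 1), ((0, 2), (5, 8), 4), ((0,
    3), (2, 3), 6), ((0, 3), (2, 9), 5), ((0, 3), (5, 4), 1), ((0, 3), (5, 8), 4), ((2, 0),
    (7, 4), 1), ((2, 0), (7, 6), 7), ((2, 0), (7, 8), 4), ((2, 0), (7, 9), 5), ((3, 0), (0,
    1), 1), ((3, 0), (0, 3), 6)]
  G := [[0, 0, 0x142e422884c8e1124111e811c4e1c, 0,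
    0x22181c16822126981c889a4812e84126192e9888cad], [0, 0, 0x144111e81acc12,
    0xd2d2c4d2d258d2d2c8e1, 0x126192e984812e812e948884c126888812e9c27], [0, 0,
    0x144112e11acc1112e4112e8c1c, 0, 0x812e1482222981c81c9a4812e84126888812e9cad], [0,
    0x111e141ec21141e111ec216, 0x144812e12acc12, 0xd214d2885d24812d2c4a3,
    0x11c812e94192e112a8c812e84d126812e9423]]

noncomputable def n1261 : Ent := ⟨e1261, noF, [], [], []⟩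

def c1261 : PLift (Cov.check n1261.C.D v1261 = true) := ⟨by decide +kernel⟩

def b1261 : PLift (entF (fidx ts) 400 1261 n1261 = true) := ⟨by decide +kernel⟩

theorem g1261 : GoodF (fidx ts) 400 1261 := GoodF.ofV v1261 n1261 c1261.down b1261.down

/-- 466764:1019 -/
noncomputable def e1262 : SCfg where
  D := {
    a := 6
    L := 11
    kp := 8
    inn := [(0, 1), (0, 3), (1, 0), (1, 2), (1, 3), (2, 1), (2, 3), (2, 4), (3, 0), (3, 1), (3, 2), (4,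
      2), (4, 5), (5, 4)]
    mix := [(0, 0), (0, 1), (1, 0), (1, 2), (1, 3), (2, 2), (2, 4), (2, 5), (3, 1), (3, 4), (3, 6), (3,
      7), (4, 2), (4, 5), (4, 8), (4, 9), (5, 8), (5, 9), (5, 10)]
    cl := [2, 1, 0, 6, 1, 0, 7, 8, 3, 4, 5]
    chq := [(0, 2), (0, 5), (2, 0), (5, 0)]
    rng := [(0, 1), (0, 3), (1, 0), (1, 6), (2, 3), (2, 9), (3, 0), (3, 2), (4, 5), (4, 7), (5, 4), (5,
      8), (6, 1), (6, 7), (7, 4), (7, 6), (8, 5), (8, 10), (9, 2), (9, 10), (10, 8), (10, 9)]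
    lev := [] }
  links := [[1, 6, 7, 3], [6, 0, 3, 2, 8, 9], [8, 1, 3, 10, 11, 4], [10, 2, 1, 0, 7, 12, 13], [8, 2, 11,
    14, 5, 15], [15, 4, 14, 16]]
  P := {
    a := 6
    N := 17
    nb := [202, 845, 3354, 13447, 51492, 114704, 643, 4169, 33302, 322, 10252, 17428, 8328, 5128,
      67632, 65840, 49184]
    tri := [(0, 1, 3), (0, 1, 6), (0, 3, 7), (0, 6, 7), (1, 2, 3), (1, 2, 8), (1, 6, 9), (1, 8, 9), (2,
      3, 10), (2, 4, 8), (2, 4, 11), (2, 10, 11), (3, 7, 12), (3, 10, 13), (3, 12, 13), (4, 5,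
      14), (4, 5, 15), (4, 8, 15), (4, 11, 14), (5, 14, 16), (5, 15, 16)]
    fin := [0, 0, 0, 3, 4, 4, 0, 3, 4, 9, 3, 4, 12, 13, 14, 15, 16]
    chd := [(0, 4), (4, 16)]
    steps := [(0, 1), (0, 2), (0, 6), (3, 7), (3, 10), (4, 5), (4, 11), (4, 8)] }
  rep := [4, 3, 0, 14, 15, 16, 9, 12, 13]

noncomputable def v1262 : Cov.CovD where
  P := 3
  N := 6
  pl := [3, 6, 7, 8, 9]
  lev := [⟨[], [], [(1, 2)], [], [(0, 2, [0]), (1, 1, [])]⟩,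
    ⟨[], [(0, 0), (0, 1), (0, 2)], [(0, 2)], [6], [(0, 2, [0]), (2, 0, [2, 5])]⟩,
    ⟨[(0, 1)], [(1, 0), (1, 1), (1, 2)], [(0, 0), (0, 1)], [], [(2, 0, [2, 5]), (4, 1, []),
      (5, 0, [2, 5])]⟩,
    ⟨[(0, 1), (0, 2), (1, 2)], [(0, 1), (0, 2), (1, 0), (1, 1), (1, 2), (2, 0), (2, 1)],
      [(1, 1)], [7, 8], [(1, 1, []), (4, 1, [])]⟩,
    ⟨[(1, 2), (2, 3)], [(1, 0), (2, 0), (2, 1)], [(0, 0)], [3, 4], [(2, 0, [2, 5]), (5, 0,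
      [2, 5])]⟩,
    ⟨[(2, 4)], [(4, 0), (4, 5)], [], [3, 4], [(10, 5, [0])]⟩]
  Ta := [((1, 0), 1, 2), ((1, 6), 1, 7), ((2, 3), 0, 6), ((2, 9), 0, 4), ((4, 5), 1, 0), ((4, 7),
    1, 8), ((5, 4), 0, 1), ((5, 8), 0, 3)]
  Tb := [((0, 1, 3), 2, 1, 6), ((1, 0, 6), 1, 2, 7), ((2, 3, 9), 0, 6, 4), ((3, 0, 2), 6, 2, 0),
    ((4, 5, 7), 1, 0, 8), ((5, 4, 8), 0, 1, 3), ((6, 1, 7), 7, 1, 8), ((7, 4, 6), 8, 1, 7),
    ((8, 5, 10), 3, 0, 5), ((9, 2, 10), 4, 0, 5), ((10, 8, 9), 5, 3, 4)]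
  Tc := [(0, 2, 5)]
  Td := [((0, 2), (2, 3), 6), ((0, 2), (2, 9), 4), ((0, 2), (5, 4), 1), ((0, 2), (5, 8), 3), ((0,
    5), (2, 3), 6), ((0, 5), (2, 9), 4), ((0, 5), (5, 4), 1), ((0, 5), (5, 8), 3), ((2, 0),
    (0, 1), 1), ((2, 0), (0, 3), 6), ((5, 0), (10, 8), 3), ((5, 0), (10, 9), 4)]
  G := [[0, 0, 0x1164111e111e9184e11688111e111e5188ce4, 0xd17e93ad17ed54463254593a93a95495ccec1,
    0x5364d17e98d17edc5361dbe1dbed988ca1], [0, 0, 0x144111e11a111edc14111e111ed11a8cc2, 0,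
    0x545365d17e93a98dc5361dbe1dbed988ca1], [0, 0, 0x124111e12911c11c5e111e4111e111e9ca4,
    0x54193a1c1dbe181dbe4d17e8cd4, 0xd17e93ac54461d17e141dbe18a9], [0, 0x111e111e6111e8a14,
    0x111e111e584111e84111e4111e111e9cac, 0, 0xd17e14d17e141dbe4d17e8cb8]]

noncomputable def n1262 : Ent := ⟨e1262, noF, [], [], [(7, 16, [1580044410770988437309982408355971841652082177953823432505694269441, 0]), (12, 16, [1580044410770988437309982408355971841652082177953823432505694273537, 0]), (13, 16, [1580044410770988437309982408355971841652082177953823432505694277633, 0])]⟩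

def c1262 : PLift (Cov.check n1262.C.D v1262 = true) := ⟨by decide +kernel⟩

def b1262 : PLift (entF (fidx ts) 400 1262 n1262 = true) := ⟨by decide +kernel⟩

theorem g1262 : GoodF (fidx ts) 400 1262 := GoodF.ofV v1262 n1262 c1262.down b1262.down

/-- 466764:1020/1 -/
noncomputable def e1263 : SCfg where
  D := {
    a := 6
    L := 10
    kp := 7
    inn := [(0, 1), (0, 3), (1, 0), (1, 2), (1, 3), (2, 1), (2, 3), (2, 4), (3, 0), (3, 1), (3, 2), (4,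
      2), (4, 5), (5, 4)]
    mix := [(0, 0), (0, 1), (1, 0), (1, 2), (1, 3), (2, 2), (2, 4), (2, 5), (3, 1), (3, 4), (3, 6), (3,
      7), (4, 2), (4, 5), (4, 8), (4, 9), (5, 2), (5, 3), (5, 9)]
    cl := [2, 1, 0, 3, 1, 0, 5, 6, 7, 4]
    chq := [(0, 4), (1, 3), (3, 1), (4, 0)]
    rng := [(0, 1), (0, 3), (1, 0), (1, 6), (2, 3), (3, 0), (3, 2), (3, 9), (4, 5), (4, 7), (5, 4), (5,
      8), (6, 1), (6, 7), (7, 4), (7, 6), (8, 5), (8, 9), (9, 3), (9, 8)]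
    lev := [] }
  links := [[1, 6, 7, 3], [6, 0, 3, 2, 8, 9], [8, 1, 3, 10, 11, 4], [10, 2, 1, 0, 7, 12, 13], [8, 2, 11,
    14, 15, 5], [8, 4, 15, 9]]
  P := {
    a := 6
    N := 16
    nb := [202, 845, 3354, 13447, 51492, 33552, 643, 4169, 566, 33122, 10252, 17428, 8328, 5128,
      34832, 16944]
    tri := [(0, 1, 3), (0, 1, 6), (0, 3, 7), (0, 6, 7), (1, 2, 3), (1, 2, 8), (1, 6, 9), (1, 8, 9), (2,
      3, 10), (2, 4, 8), (2, 4, 11), (2, 10, 11), (3, 7, 12), (3, 10, 13), (3, 12, 13), (4, 5, 8),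
      (4, 5, 15), (4, 11, 14), (4, 14, 15), (5, 8, 9), (5, 9, 15)]
    fin := [0, 1, 1, 1, 4, 4, 0, 1, 4, 9, 1, 4, 12, 13, 14, 15]
    chd := [(1, 9), (4, 15)]
    steps := [(0, 6), (1, 2), (1, 3), (1, 7), (1, 10), (4, 5), (4, 11), (4, 8)] }
  rep := [4, 1, 0, 9, 15, 12, 13, 14]

noncomputable def v1263 : Cov.CovD where
  P := 3
  N := 5
  pl := [0, 6, 7, 8]
  lev := [⟨[], [], [], [2], [(1, 1, [3])]⟩,
    ⟨[], [(0, 0), (0, 1), (0, 3)], [(0, 3)], [2], [(2, 0, [4]), (3, 3, [1])]⟩,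
    ⟨[(0, 1)], [(1, 0), (1, 1), (1, 3)], [(0, 0), (0, 1)], [], [(2, 0, [4]), (4, 1, [3]),
      (5, 0, [4])]⟩,
    ⟨[(0, 1), (0, 2), (1, 2)], [(0, 1), (1, 0), (1, 1), (1, 3), (2, 0), (2, 1)], [(1, 1)],
      [5, 6], [(1, 1, [3]), (4, 1, [3])]⟩,
    ⟨[(1, 2), (2, 3)], [(1, 0), (2, 0), (2, 1), (2, 4)], [(0, 0), (0, 4)], [7], [(2, 0,
      [4]), (5, 0, [4]), (9, 4, [0])]⟩,
    ⟨[(2, 4)], [(1, 0), (1, 3), (2, 0), (4, 0), (4, 3), (4, 4)], [(0, 3), (0, 4), (3, 4)],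
      [], [(2, 0, [4]), (3, 3, [1]), (9, 4, [0])]⟩]
  Ta := [((1, 0), 1, 2), ((1, 6), 1, 5), ((2, 3), 0, 3), ((4, 5), 1, 0), ((4, 7), 1, 6), ((5, 4),
    0, 1), ((5, 8), 0, 7)]
  Tb := [((0, 1, 3), 2, 1, 3), ((1, 0, 6), 1, 2, 5), ((3, 0, 2), 3, 2, 0), ((3, 0, 9), 3, 2, 4),
    ((3, 2, 9), 3, 0, 4), ((4, 5, 7), 1, 0, 6), ((5, 4, 8), 0, 1, 7), ((6, 1, 7), 5, 1, 6),
    ((7, 4, 6), 6, 1, 5), ((8, 5, 9), 7, 0, 4), ((9, 3, 8), 4, 3, 7)]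
  Tc := []
  Td := [((0, 4), (2, 3), 3), ((0, 4), (5, 4), 1), ((0, 4), (5, 8), 7), ((1, 3), (1, 0), 2), ((1,
    3), (1, 6), 5), ((1, 3), (4, 5), 0), ((1, 3), (4, 7), 6), ((3, 1), (3, 0), 2), ((3, 1),
    (3, 2), 0), ((3, 1), (3, 9), 4), ((4, 0), (9, 3), 3), ((4, 0), (9, 8), 7)]
  G := [[0, 0, 0x8842e46eeeee6deeae89ca4, 0xa264228822d8ac8ac9e44642e642ed62a8cc1,
    0xee66eee6eeede88888dc21], [0, 0, 0xee66eeeee6de8e89c2884486, 0, 0xee6ee6ee6de8e8e8dc21],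
    [0, 0, 0x14493beb7ae1dedc28, 0x1261188888da142e1188ae266e2ec8d4, 0xee6593e5e3ed188c21],
    [0, 0x111e81c11ce2141e826eae264464c6ad4, 0x753e439eedb1e9c28, 0, 0x539e539e5593e8c28]]

noncomputable def n1263 : Ent := ⟨e1263, noF, [], [], []⟩

def c1263 : PLift (Cov.check n1263.C.D v1263 = true) := ⟨by decide +kernel⟩

def b1263 : PLift (entF (fidx ts) 400 1263 n1263 = true) := ⟨by decide +kernel⟩

theorem g1263 : GoodF (fidx ts) 400 1263 := GoodF.ofV v1263 n1263 c1263.down b1263.down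

/-- 466764:1020 -/
noncomputable def e1264 : SCfg where
  D := {
    a := 6
    L := 11
    kp := 8
    inn := [(0, 1), (0, 3), (1, 0), (1, 2), (1, 3), (2, 1), (2, 3), (2, 4), (3, 0), (3, 1), (3, 2), (4,
      2), (4, 5), (5, 4)]
    mix := [(0, 0), (0, 1), (1, 0), (1, 2), (1, 3), (2, 2), (2, 4), (2, 5), (3, 1), (3, 4), (3, 6), (3,
      7), (4, 2), (4, 5), (4, 8), (4, 9), (5, 2), (5, 9), (5, 10)]
    cl := [2, 1, 0, 4, 1, 0, 5, 6, 7, 3, 8]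
    chq := [(0, 3), (1, 4), (3, 0), (4, 1)]
    rng := [(0, 1), (0, 3), (1, 0), (1, 6), (2, 3), (2, 10), (3, 0), (3, 2), (4, 5), (4, 7), (5, 4),
      (5, 8), (6, 1), (6, 7), (7, 4), (7, 6), (8, 5), (8, 9), (9, 8), (9, 10), (10, 2), (10, 9)]
    lev := [] }
  links := [[1, 6, 7, 3], [6, 0, 3, 2, 8, 9], [8, 1, 3, 10, 11, 4], [10, 2, 1, 0, 7, 12, 13], [8, 2, 11,
    14, 15, 5], [8, 4, 15, 16]]
  P := {
    a := 6
    N := 17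
    nb := [202, 845, 3354, 13447, 51492, 98576, 643, 4169, 66102, 322, 10252, 17428, 8328, 5128,
      34832, 81968, 33056]
    tri := [(0, 1, 3), (0, 1, 6), (0, 3, 7), (0, 6, 7), (1, 2, 3), (1, 2, 8), (1, 6, 9), (1, 8, 9), (2,
      3, 10), (2, 4, 8), (2, 4, 11), (2, 10, 11), (3, 7, 12), (3, 10, 13), (3, 12, 13), (4, 5, 8),
      (4, 5, 15), (4, 11, 14), (4, 14, 15), (5, 8, 16), (5, 15, 16)]
    fin := [0, 1, 1, 1, 4, 4, 0, 1, 4, 9, 1, 4, 12, 13, 14, 15, 16]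
    chd := [(1, 9), (4, 15)]
    steps := [(0, 6), (1, 2), (1, 3), (1, 7), (1, 10), (4, 5), (4, 11), (4, 8)] }
  rep := [4, 1, 0, 15, 9, 12, 13, 14, 16]

noncomputable def v1264 : Cov.CovD where
  P := 3
  N := 6
  pl := [0, 6, 7, 8, 10]
  lev := [⟨[], [], [], [2], [(1, 1, [4])]⟩,
    ⟨[], [(0, 0), (0, 1), (0, 4)], [(0, 4)], [2], [(2, 0, [3]), (3, 4, [1])]⟩,
    ⟨[(0, 1)], [(1, 0), (1, 1), (1, 4)], [(0, 0), (0, 1)], [], [(2, 0, [3]), (4, 1, [4]),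
      (5, 0, [3])]⟩,
    ⟨[(0, 1), (0, 2), (1, 2)], [(0, 1), (1, 0), (1, 1), (1, 4), (2, 0), (2, 1)], [(1, 1)],
      [5, 6], [(1, 1, [4]), (4, 1, [4])]⟩,
    ⟨[(1, 2), (2, 3)], [(1, 0), (2, 0), (2, 1), (2, 3)], [(0, 0), (0, 3)], [7], [(2, 0,
      [3]), (5, 0, [3]), (9, 3, [0])]⟩,
    ⟨[(2, 4)], [(1, 0), (2, 0), (4, 0), (4, 3)], [(0, 3)], [8], [(2, 0, [3]), (9, 3, [0])]⟩]
  Ta := [((1, 0), 1, 2), ((1, 6), 1, 5), ((2, 3), 0, 4), ((2, 10), 0, 8), ((4, 5), 1, 0), ((4,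
    7), 1, 6), ((5, 4), 0, 1), ((5, 8), 0, 7)]
  Tb := [((0, 1, 3), 2, 1, 4), ((1, 0, 6), 1, 2, 5), ((2, 3, 10), 0, 4, 8), ((3, 0, 2), 4, 2, 0),
    ((4, 5, 7), 1, 0, 6), ((5, 4, 8), 0, 1, 7), ((6, 1, 7), 5, 1, 6), ((7, 4, 6), 6, 1, 5),
    ((8, 5, 9), 7, 0, 3), ((9, 8, 10), 3, 7, 8), ((10, 2, 9), 8, 0, 3)]
  Tc := []
  Td := [((0, 3), (2, 3), 4), ((0, 3), (2, 10), 8), ((0, 3), (5, 4), 1), ((0, 3), (5, 8), 7),
    ((1, 4), (1, 0), 2), ((1, 4), (1, 6), 5), ((1, 4), (4, 5), 0), ((1, 4), (4, 7), 6), ((3,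
    0), (9, 8), 7), ((3, 0), (9, 10), 8), ((4, 1), (3, 0), 2), ((4, 1), (3, 2), 0)]
  G := [[0, 0, 0x88442ee66eeeee6de8e89c2c, 0xeeaeeaeaeede4e444d6ee66eee6eeede88888dac1,
    0xe4e46eeedeeaeea88dc21], [0, 0, 0xe8442e4ee6ee6deeae89c2c, 0, 0xe4ee66eeedeeae888dc21],
    [0, 0, 0x7e1e375e5e35e8c28, 0x93ee1434195a1ceaeeeeac44e4c6d8, 0x359e4395e593e9c28], [0,
    0x111e11a111ee144611a12a14111e11ce6c1, 0x71ee395e5593e8c24, 0, 0x1dee1dbe5db1e8c28]]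

noncomputable def n1264 : Ent := ⟨e1264, noF, [], [], [(16, 9, [1580044410770988437310138513572361556014072927981731971036236148737, 0])]⟩

def c1264 : PLift (Cov.check n1264.C.D v1264 = true) := ⟨by decide +kernel⟩

def b1264 : PLift (entF (fidx ts) 400 1264 n1264 = true) := ⟨by decide +kernel⟩

theorem g1264 : GoodF (fidx ts) 400 1264 := GoodF.ofV v1264 n1264 c1264.down b1264.down

/-- 466764:1023/1 -/
noncomputable def e1265 : SCfg where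
  D := {
    a := 6
    L := 10
    kp := 7
    inn := [(0, 1), (0, 3), (1, 0), (1, 2), (1, 3), (2, 1), (2, 3), (3, 0), (3, 1), (3, 2), (3, 4), (4,
      3), (4, 5), (5, 4)]
    mix := [(0, 0), (0, 1), (1, 0), (1, 2), (1, 3), (2, 2), (2, 4), (2, 5), (2, 6), (3, 1), (3, 4), (3,
      7), (4, 1), (4, 7), (4, 8), (4, 9), (5, 5), (5, 7), (5, 9)]
    cl := [3, 0, 1, 5, 1, 2, 6, 0, 7, 4]
    chq := [(0, 4), (1, 3), (3, 1), (4, 0)]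
    rng := [(0, 1), (0, 3), (1, 0), (1, 8), (2, 3), (2, 6), (3, 0), (3, 2), (4, 5), (4, 7), (5, 4), (5,
      6), (5, 7), (5, 9), (6, 2), (6, 5), (7, 4), (7, 5), (8, 1), (8, 9), (9, 5), (9, 8)]
    lev := [] }
  links := [[1, 6, 7, 3], [6, 0, 3, 2, 8, 9], [8, 1, 3, 10, 11, 12], [10, 2, 1, 0, 7, 4, 13], [13, 3, 7,
    14, 15, 5], [13, 4, 15, 11]]
  P := {
    a := 6
    N := 16
    nb := [202, 845, 7434, 9367, 57512, 43024, 643, 16473, 4614, 322, 10252, 46116, 2308, 3128, 32912,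
      18480]
    tri := [(0, 1, 3), (0, 1, 6), (0, 3, 7), (0, 6, 7), (1, 2, 3), (1, 2, 8), (1, 6, 9), (1, 8, 9), (2,
      3, 10), (2, 8, 12), (2, 10, 11), (2, 11, 12), (3, 4, 7), (3, 4, 13), (3, 10, 13), (4, 5,
      13), (4, 5, 15), (4, 7, 14), (4, 14, 15), (5, 11, 13), (5, 11, 15)]
    fin := [0, 0, 2, 0, 4, 4, 0, 4, 2, 9, 2, 11, 12, 4, 14, 15]
    chd := [(0, 2), (4, 15)]
    steps := [(0, 1), (0, 3), (0, 6), (2, 10), (2, 8), (4, 5), (4, 7), (4, 13)] }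
  rep := [4, 2, 11, 0, 15, 9, 12, 14]

noncomputable def v1265 : Cov.CovD where
  P := 3
  N := 5
  pl := [3, 5, 6, 8]
  lev := [⟨[], [], [(0, 3)], [], [(0, 3, [1]), (1, 0, [4])]⟩,
    ⟨[], [(0, 0), (0, 1), (0, 3)], [(1, 3)], [5], [(0, 3, [1]), (2, 1, [3])]⟩,
    ⟨[(0, 1)], [(1, 1), (1, 3)], [(1, 1)], [2, 6], [(2, 1, [3]), (4, 1, [3])]⟩,
    ⟨[(0, 1), (0, 2), (1, 2)], [(0, 0), (0, 1), (0, 3), (1, 0), (1, 1), (1, 3), (2, 0), (2,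
      1)], [(0, 0), (0, 1)], [], [(1, 0, [4]), (4, 1, [3]), (7, 0, [4])]⟩,
    ⟨[(0, 3), (1, 3), (2, 3)], [(0, 0), (3, 0), (3, 1), (3, 4)], [(0, 0), (0, 4)], [7],
      [(1, 0, [4]), (7, 0, [4]), (9, 4, [0])]⟩,
    ⟨[(3, 4)], [(3, 0), (4, 0), (4, 4)], [(0, 4)], [2], [(7, 0, [4]), (9, 4, [0])]⟩]
  Ta := [((1, 0), 0, 3), ((1, 8), 0, 7), ((2, 3), 1, 5), ((2, 6), 1, 6), ((4, 5), 1, 2), ((4, 7),
    1, 0), ((7, 4), 0, 1), ((7, 5), 0, 2)]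
  Tb := [((0, 1, 3), 3, 0, 5), ((1, 0, 8), 0, 3, 7), ((2, 3, 6), 1, 5, 6), ((3, 0, 2), 5, 3, 1),
    ((4, 5, 7), 1, 2, 0), ((5, 4, 6), 2, 1, 6), ((5, 4, 7), 2, 1, 0), ((5, 4, 9), 2, 1, 4),
    ((5, 6, 7), 2, 6, 0), ((5, 6, 9), 2, 6, 4), ((5, 7, 9), 2, 0, 4), ((6, 2, 5), 6, 1, 2),
    ((7, 4, 5), 0, 1, 2), ((8, 1, 9), 7, 0, 4), ((9, 5, 8), 4, 2, 7)]
  Tc := []
  Td := [((0, 4), (1, 0), 3), ((0, 4), (1, 8), 7), ((0, 4), (7, 4), 1), ((0, 4), (7, 5), 2), ((1,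
    3), (2, 3), 5), ((1, 3), (2, 6), 6), ((1, 3), (4, 5), 2), ((1, 3), (4, 7), 0), ((3, 1),
    (0, 1), 0), ((3, 1), (0, 3), 5), ((4, 0), (9, 5), 2), ((4, 0), (9, 8), 7)]
  G := [[0, 0, 0, 0, 0x812e4812e4912688c192e89812e4312e89d2], [0, 0, 0,
    0x41688c81ce4524481ac149e892c, 0x812e4812e4912688c312e89812e4812e49d2], [0, 0,
    0x8a2e44482acc4482ac642e8c4482ac4482accd2, 0, 0x8a2e48a2e49a2688ca482ac98a2e48a2e49d2],
    [0, 0x448caa84ce2c1448cac4c688ac16, 0x8a2e442688cc42688c4482acc94482ac42688cc23,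
    0x4c688c4c688c521, 0x8a2e48a2e4918a2e4a2688c98a2e48a2e49a3]]

noncomputable def n1265 : Ent := ⟨e1265, noF, [], [], []⟩

def c1265 : PLift (Cov.check n1265.C.D v1265 = true) := ⟨by decide +kernel⟩

def b1265 : PLift (entF (fidx ts) 400 1265 n1265 = true) := ⟨by decide +kernel⟩

theorem g1265 : GoodF (fidx ts) 400 1265 := GoodF.ofV v1265 n1265 c1265.down b1265.down

/-- 466764:1023 -/
noncomputable def e1266 : SCfg where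
  D := {
    a := 6
    L := 11
    kp := 8
    inn := [(0, 1), (0, 3), (1, 0), (1, 2), (1, 3), (2, 1), (2, 3), (3, 0), (3, 1), (3, 2), (3, 4), (4,
      3), (4, 5), (5, 4)]
    mix := [(0, 0), (0, 1), (1, 0), (1, 2), (1, 3), (2, 2), (2, 4), (2, 5), (2, 6), (3, 1), (3, 4), (3,
      7), (4, 1), (4, 7), (4, 8), (4, 9), (5, 7), (5, 9), (5, 10)]
    cl := [2, 0, 1, 4, 1, 5, 6, 0, 7, 3, 8]
    chq := [(0, 3), (1, 2), (2, 1), (3, 0)]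
    rng := [(0, 1), (0, 3), (1, 0), (1, 8), (2, 3), (2, 6), (3, 0), (3, 2), (4, 5), (4, 7), (5, 4), (5,
      6), (6, 2), (6, 5), (7, 4), (7, 10), (8, 1), (8, 9), (9, 8), (9, 10), (10, 7), (10, 9)]
    lev := [] }
  links := [[1, 6, 7, 3], [6, 0, 3, 2, 8, 9], [8, 1, 3, 10, 11, 12], [10, 2, 1, 0, 7, 4, 13], [13, 3, 7,
    14, 15, 5], [13, 4, 15, 16]]
  P := {
    a := 6
    N := 17
    nb := [202, 845, 7434, 9367, 57512, 106512, 643, 16473, 4614, 322, 10252, 5124, 2308, 66616,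
      32912, 81968, 40992]
    tri := [(0, 1, 3), (0, 1, 6), (0, 3, 7), (0, 6, 7), (1, 2, 3), (1, 2, 8), (1, 6, 9), (1, 8, 9), (2,
      3, 10), (2, 8, 12), (2, 10, 11), (2, 11, 12), (3, 4, 7), (3, 4, 13), (3, 10, 13), (4, 5,
      13), (4, 5, 15), (4, 7, 14), (4, 14, 15), (5, 13, 16), (5, 15, 16)]
    fin := [0, 0, 2, 0, 4, 4, 0, 4, 2, 9, 2, 11, 12, 4, 14, 15, 16]
    chd := [(0, 2), (4, 15)]
    steps := [(0, 1), (0, 3), (0, 6), (2, 10), (2, 8), (4, 5), (4, 7), (4, 13)] }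
  rep := [4, 2, 0, 15, 9, 11, 12, 14, 16]

noncomputable def v1266 : Cov.CovD where
  P := 3
  N := 6
  pl := [3, 5, 6, 8, 10]
  lev := [⟨[], [], [(0, 2)], [], [(0, 2, [1]), (1, 0, [3])]⟩,
    ⟨[], [(0, 0), (0, 1), (0, 2)], [(1, 2)], [4], [(0, 2, [1]), (2, 1, [2])]⟩,
    ⟨[(0, 1)], [(1, 1), (1, 2)], [(1, 1)], [5, 6], [(2, 1, [2]), (4, 1, [2])]⟩,
    ⟨[(0, 1), (0, 2), (1, 2)], [(0, 0), (0, 1), (0, 2), (1, 0), (1, 1), (1, 2), (2, 0), (2,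
      1)], [(0, 0), (0, 1)], [], [(1, 0, [3]), (4, 1, [2]), (7, 0, [3])]⟩,
    ⟨[(0, 3), (1, 3), (2, 3)], [(0, 0), (3, 0), (3, 1), (3, 3)], [(0, 0), (0, 3)], [7],
      [(1, 0, [3]), (7, 0, [3]), (9, 3, [0])]⟩,
    ⟨[(3, 4)], [(3, 0), (4, 0), (4, 3)], [(0, 3)], [8], [(7, 0, [3]), (9, 3, [0])]⟩]
  Ta := [((1, 0), 0, 2), ((1, 8), 0, 7), ((2, 3), 1, 4), ((2, 6), 1, 6), ((4, 5), 1, 5), ((4, 7),
    1, 0), ((7, 4), 0, 1), ((7, 10), 0, 8)]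
  Tb := [((0, 1, 3), 2, 0, 4), ((1, 0, 8), 0, 2, 7), ((2, 3, 6), 1, 4, 6), ((3, 0, 2), 4, 2, 1),
    ((4, 5, 7), 1, 5, 0), ((5, 4, 6), 5, 1, 6), ((6, 2, 5), 6, 1, 5), ((7, 4, 10), 0, 1, 8),
    ((8, 1, 9), 7, 0, 3), ((9, 8, 10), 3, 7, 8), ((10, 7, 9), 8, 0, 3)]
  Tc := []
  Td := [((0, 3), (1, 0), 2), ((0, 3), (1, 8), 7), ((0, 3), (7, 4), 1), ((0, 3), (7, 10), 8),
    ((1, 2), (2, 3), 4), ((1, 2), (2, 6), 6), ((1, 2), (4, 5), 5), ((1, 2), (4, 7), 0), ((2,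
    1), (0, 1), 0), ((2, 1), (0, 3), 4), ((3, 0), (9, 8), 7), ((3, 0), (9, 10), 8)]
  G := [[0, 0, 0x111e411618c111e4d1411ac111e8111e8dc2, 0x935e453698c935e4d53698c359e81ebe8dc2,
    0x1b7e453698c956e8cdd16e8c593e87d1e8d92], [0, 0, 0x111e41411ac111e4d28,
    0x5493ac71be85d9e8d935e474e1acb1be4d52, 0x1bbe4e41dac935e4d28], [0, 0, 0,
    0xe2eec6e2eecaee6e8ade2eeca6eee88ae4eeacdc1,
    0xe24e4eeace4eeacde4eeace4eeacee6e8cd9eec2883], [0, 0xee6e8ae2eecaeeae46e14, 0,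
    0xe2eec6ee6e8ae2eec6de4eeac6eee88ae2eecad94, 0x44eaeecee6e8ce4eeacd21]]

noncomputable def n1266 : Ent := ⟨e1266, noF, [], [], [(16, 11, [1580044410770990308032078191911707142368668054796088592099349303297, 0])]⟩

def c1266 : PLift (Cov.check n1266.C.D v1266 = true) := ⟨by decide +kernel⟩

def b1266 : PLift (entF (fidx ts) 400 1266 n1266 = true) := ⟨by decide +kernel⟩

theorem g1266 : GoodF (fidx ts) 400 1266 := GoodF.ofV v1266 n1266 c1266.down b1266.down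

/-- 466754:1024/2 -/
noncomputable def e1267 : SCfg where
  D := {
    a := 6
    L := 9
    kp := 6
    inn := [(0, 1), (1, 0), (1, 2), (1, 3), (2, 1), (2, 3), (3, 1), (3, 2), (3, 4), (4, 3), (4, 5), (5,
      4)]
    mix := [(0, 0), (0, 1), (0, 2), (1, 0), (1, 2), (1, 3), (2, 2), (2, 4), (2, 5), (2, 6), (3, 3), (3,
      6), (3, 7), (3, 8), (4, 0), (4, 3), (4, 8), (5, 0), (5, 1), (5, 8)]
    cl := [1, 2, 0, 0, 5, 6, 0, 4, 3]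
    chq := [(1, 3), (1, 4), (3, 1), (4, 1)]
    rng := [(0, 1), (0, 3), (1, 0), (1, 2), (1, 8), (2, 1), (2, 4), (3, 0), (4, 2), (4, 5), (5, 4), (5,
      6), (6, 5), (6, 7), (7, 6), (7, 8), (8, 1), (8, 7)]
    lev := [] }
  links := [[1, 6, 7, 8], [6, 0, 8, 2, 3, 9], [3, 1, 8, 10, 11, 12], [9, 1, 2, 12, 13, 14, 4], [9, 3, 14,
    5, 6], [6, 4, 14, 7]]
  P := {
    a := 6
    N := 15
    nb := [450, 845, 7434, 29206, 17000, 16592, 691, 16737, 1159, 90, 2308, 5124, 10252, 20488, 8376]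
    tri := [(0, 1, 6), (0, 1, 8), (0, 6, 7), (0, 7, 8), (1, 2, 3), (1, 2, 8), (1, 3, 9), (1, 6, 9), (2,
      3, 12), (2, 8, 10), (2, 10, 11), (2, 11, 12), (3, 4, 9), (3, 4, 14), (3, 12, 13), (3, 13,
      14), (4, 5, 6), (4, 5, 14), (4, 6, 9), (5, 6, 7), (5, 7, 14)]
    fin := [0, 1, 1, 0, 0, 0, 0, 7, 1, 1, 10, 11, 1, 13, 14]
    chd := [(0, 13), (0, 14)]
    steps := [(0, 6), (0, 4), (0, 5), (1, 2), (1, 8), (1, 12), (1, 9), (0, 3)] }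
  rep := [1, 0, 7, 14, 13, 10, 11]

noncomputable def v1267 : Cov.CovD where
  P := 3
  N := 4
  pl := [1, 4, 5]
  lev := [⟨[], [], [(0, 1)], [2], [(0, 1, [3, 4]), (2, 0, [])]⟩,
    ⟨[], [(0, 0), (0, 1)], [(0, 0), (0, 1)], [], [(0, 1, [3, 4]), (2, 0, []), (3, 0, [])]⟩,
    ⟨[(0, 1)], [(0, 0), (1, 0), (1, 1)], [(0, 0)], [5, 6], [(2, 0, []), (6, 0, [])]⟩,
    ⟨[(0, 1), (1, 2)], [(1, 0), (1, 1), (1, 3), (1, 4), (2, 0), (2, 3), (2, 4)], [(0, 0),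
      (0, 3), (0, 4), (3, 4)], [], [(3, 0, []), (6, 0, []), (7, 4, [1]), (8, 3, [1])]⟩,
    ⟨[(1, 3), (2, 3)], [(0, 1), (1, 0), (1, 1), (3, 0), (3, 1), (3, 3), (3, 4)], [(0, 1),
      (0, 3), (1, 3)], [], [(0, 1, [3, 4]), (3, 0, []), (8, 3, [1])]⟩,
    ⟨[(3, 4)], [(0, 1), (1, 1), (3, 3), (4, 0), (4, 1), (4, 3)], [(1, 3)], [2], [(0, 1, [3,
      4]), (8, 3, [1])]⟩]
  Ta := [((2, 1), 0, 2), ((2, 4), 0, 5), ((3, 0), 0, 1), ((6, 5), 0, 6), ((6, 7), 0, 4)]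
  Tb := [((0, 1, 3), 1, 2, 0), ((1, 0, 2), 2, 1, 0), ((1, 0, 8), 2, 1, 3), ((1, 2, 8), 2, 0, 3),
    ((2, 1, 4), 0, 2, 5), ((4, 2, 5), 5, 0, 6), ((5, 4, 6), 6, 5, 0), ((6, 5, 7), 0, 6, 4),
    ((7, 6, 8), 4, 0, 3), ((8, 1, 7), 3, 2, 4)]
  Tc := [(1, 3, 4)]
  Td := [((1, 3), (0, 1), 2), ((1, 3), (0, 3), 0), ((1, 4), (0, 1), 2), ((1, 4), (0, 3), 0), ((3,
    1), (8, 1), 2), ((3, 1), (8, 7), 4), ((4, 1), (7, 6), 0), ((4, 1), (7, 8), 3)]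
  G := [[0, 0, 0xc1284c2814184cee84, 0x14c281c284c2e48, 0x81c281c2886829185ee48], [0,
    0x88644a84ce48a84a84cea48684a84ce468, 0, 0x14c284c281c2e81, 0x81c281c28861481cee81], [0,
    0, 0, 0x84c281c284c2e41, 0x81c281c21881a81cee48]]

noncomputable def n1267 : Ent := ⟨e1267, noF, [], [], []⟩

def c1267 : PLift (Cov.check n1267.C.D v1267 = true) := ⟨by decide +kernel⟩

def b1267 : PLift (entF (fidx ts) 400 1267 n1267 = true) := ⟨by decide +kernel⟩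

theorem g1267 : GoodF (fidx ts) 400 1267 := GoodF.ofV v1267 n1267 c1267.down b1267.down

/-- 466754:1024/1 -/
noncomputable def e1268 : SCfg where
  D := {
    a := 6
    L := 10
    kp := 7
    inn := [(0, 1), (1, 0), (1, 2), (1, 3), (2, 1), (2, 3), (3, 1), (3, 2), (3, 4), (4, 3), (4, 5), (5,
      4)]
    mix := [(0, 0), (0, 1), (0, 2), (1, 0), (1, 2), (1, 3), (2, 2), (2, 4), (2, 5), (2, 6), (3, 3), (3,
      6), (3, 7), (3, 8), (4, 0), (4, 3), (4, 8), (5, 0), (5, 8), (5, 9)]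
    cl := [1, 2, 0, 0, 5, 6, 0, 4, 3, 7]
    chq := [(1, 3), (1, 4), (3, 1), (4, 1)]
    rng := [(0, 1), (0, 3), (0, 9), (1, 0), (1, 2), (2, 1), (2, 4), (3, 0), (4, 2), (4, 5), (5, 4), (5,
      6), (6, 5), (6, 7), (7, 6), (7, 8), (8, 7), (8, 9), (9, 0), (9, 8)]
    lev := [] }
  links := [[1, 6, 7, 8], [6, 0, 8, 2, 3, 9], [3, 1, 8, 10, 11, 12], [9, 1, 2, 12, 13, 14, 4], [9, 3, 14,
    5, 6], [6, 4, 14, 15]]
  P := {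
    a := 6
    N := 16
    nb := [450, 845, 7434, 29206, 17000, 49232, 33459, 321, 1159, 90, 2308, 5124, 10252, 20488, 41016,
      16480]
    tri := [(0, 1, 6), (0, 1, 8), (0, 6, 7), (0, 7, 8), (1, 2, 3), (1, 2, 8), (1, 3, 9), (1, 6, 9), (2,
      3, 12), (2, 8, 10), (2, 10, 11), (2, 11, 12), (3, 4, 9), (3, 4, 14), (3, 12, 13), (3, 13,
      14), (4, 5, 6), (4, 5, 14), (4, 6, 9), (5, 6, 15), (5, 14, 15)]
    fin := [0, 1, 1, 0, 0, 0, 0, 7, 1, 1, 10, 11, 1, 13, 14, 15]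
    chd := [(0, 13), (0, 14)]
    steps := [(0, 6), (0, 4), (0, 5), (1, 2), (1, 8), (1, 12), (1, 9), (0, 3)] }
  rep := [1, 0, 7, 14, 13, 10, 11, 15]

noncomputable def v1268 : Cov.CovD where
  P := 3
  N := 5
  pl := [1, 4, 5, 9]
  lev := [⟨[], [], [(0, 1)], [2], [(0, 1, [3, 4]), (2, 0, [])]⟩,
    ⟨[], [(0, 0), (0, 1)], [(0, 0), (0, 1)], [], [(0, 1, [3, 4]), (2, 0, []), (3, 0, [])]⟩,
    ⟨[(0, 1)], [(0, 0), (1, 0), (1, 1)], [(0, 0)], [5, 6], [(2, 0, []), (6, 0, [])]⟩,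
    ⟨[(0, 1), (1, 2)], [(1, 0), (1, 1), (1, 3), (1, 4), (2, 0), (2, 3), (2, 4)], [(0, 0),
      (0, 3), (0, 4), (3, 4)], [], [(3, 0, []), (6, 0, []), (7, 4, [1]), (8, 3, [1])]⟩,
    ⟨[(1, 3), (2, 3)], [(0, 1), (1, 0), (1, 1), (3, 0), (3, 1), (3, 3), (3, 4)], [(0, 1),
      (0, 3), (1, 3)], [], [(0, 1, [3, 4]), (3, 0, []), (8, 3, [1])]⟩,
    ⟨[(3, 4)], [(0, 1), (1, 1), (3, 3), (4, 0), (4, 1), (4, 3)], [(1, 3)], [7], [(0, 1, [3,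
      4]), (8, 3, [1])]⟩]
  Ta := [((2, 1), 0, 2), ((2, 4), 0, 5), ((3, 0), 0, 1), ((6, 5), 0, 6), ((6, 7), 0, 4)]
  Tb := [((0, 1, 3), 1, 2, 0), ((0, 1, 9), 1, 2, 7), ((0, 3, 9), 1, 0, 7), ((1, 0, 2), 2, 1, 0),
    ((2, 1, 4), 0, 2, 5), ((4, 2, 5), 5, 0, 6), ((5, 4, 6), 6, 5, 0), ((6, 5, 7), 0, 6, 4),
    ((7, 6, 8), 4, 0, 3), ((8, 7, 9), 3, 4, 7), ((9, 0, 8), 7, 1, 3)]
  Tc := [(1, 3, 4)]
  Td := [((1, 3), (0, 1), 2), ((1, 3), (0, 3), 0), ((1, 3), (0, 9), 7), ((1, 4), (0, 1), 2), ((1,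
    4), (0, 3), 0), ((1, 4), (0, 9), 7), ((3, 1), (8, 7), 4), ((3, 1), (8, 9), 7), ((4, 1),
    (7, 6), 0), ((4, 1), (7, 8), 3)]
  G := [[0, 0, 0x95c295c2e1b495cee84, 0x95c295c295c2e84, 0x95c295c278e195cee48], [0,
    0xca6c6a268eeca6a6caca6c6aa6ceec6a4468, 0, 0x95c295c295c2e84, 0x95c295c278c5a95cee48],
    [0, 0, 0, 0x95c295c295c2e81, 0x95c295c2e1b495cee81]]

noncomputable def n1268 : Ent := ⟨e1268, noF, [], [], [(7, 15, [360035742630636841211993100915356868655746945586763691012861953, 0])]⟩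

def c1268 : PLift (Cov.check n1268.C.D v1268 = true) := ⟨by decide +kernel⟩

def b1268 : PLift (entF (fidx ts) 400 1268 n1268 = true) := ⟨by decide +kernel⟩

theorem g1268 : GoodF (fidx ts) 400 1268 := GoodF.ofV v1268 n1268 c1268.down b1268.down

/-- 466754:1024/3 -/
noncomputable def e1269 : SCfg where
  D := {
    a := 6
    L := 10
    kp := 7
    inn := [(0, 1), (1, 0), (1, 2), (1, 3), (2, 1), (2, 3), (3, 1), (3, 2), (3, 4), (4, 3), (4, 5), (5,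
      4)]
    mix := [(0, 0), (0, 1), (0, 2), (1, 0), (1, 2), (1, 3), (2, 2), (2, 4), (2, 5), (2, 6), (3, 3), (3,
      6), (3, 7), (3, 8), (4, 3), (4, 8), (4, 9), (5, 1), (5, 8), (5, 9)]
    cl := [2, 4, 0, 0, 6, 7, 0, 5, 3, 1]
    chq := [(1, 3), (1, 5), (3, 1), (5, 1)]
    rng := [(0, 1), (0, 3), (1, 0), (1, 2), (1, 8), (1, 9), (2, 1), (2, 4), (3, 0), (3, 9), (4, 2), (4,
      5), (5, 4), (5, 6), (6, 5), (6, 7), (7, 6), (7, 8), (8, 1), (8, 7), (9, 1), (9, 3)]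
    lev := [] }
  links := [[1, 6, 7, 8], [6, 0, 8, 2, 3, 9], [3, 1, 8, 10, 11, 12], [9, 1, 2, 12, 13, 14, 4], [9, 3, 14,
    5, 15], [15, 4, 14, 7]]
  P := {
    a := 6
    N := 16
    nb := [450, 845, 7434, 29206, 49704, 49296, 643, 49505, 1159, 32858, 2308, 5124, 10252, 20488,
      8376, 688]
    tri := [(0, 1, 6), (0, 1, 8), (0, 6, 7), (0, 7, 8), (1, 2, 3), (1, 2, 8), (1, 3, 9), (1, 6, 9), (2,
      3, 12), (2, 8, 10), (2, 10, 11), (2, 11, 12), (3, 4, 9), (3, 4, 14), (3, 12, 13), (3, 13,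
      14), (4, 5, 14), (4, 5, 15), (4, 9, 15), (5, 7, 14), (5, 7, 15)]
    fin := [0, 1, 1, 3, 4, 5, 0, 5, 1, 1, 10, 11, 1, 3, 14, 4]
    chd := [(3, 4), (14, 4)]
    steps := [(0, 6), (1, 2), (1, 8), (1, 12), (1, 9), (3, 13), (4, 15), (5, 7)] }
  rep := [1, 4, 0, 14, 5, 3, 10, 11]

noncomputable def v1269 : Cov.CovD where
  P := 3
  N := 5
  pl := [0, 1, 4, 5]
  lev := [⟨[], [], [], [2, 4], [(2, 0, [])]⟩,
    ⟨[], [(0, 0)], [(0, 0)], [2], [(2, 0, []), (3, 0, [])]⟩,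
    ⟨[(0, 1)], [(0, 0), (1, 0)], [(0, 0)], [6, 7], [(2, 0, []), (6, 0, [])]⟩,
    ⟨[(0, 1), (1, 2)], [(1, 0), (1, 3), (1, 5), (2, 0), (2, 3), (2, 5)], [(0, 0), (0, 3),
      (0, 5), (3, 5)], [], [(3, 0, []), (6, 0, []), (7, 5, [1]), (8, 3, [1])]⟩,
    ⟨[(1, 3), (2, 3)], [(1, 0), (3, 0), (3, 1), (3, 3), (3, 5)], [(0, 1), (0, 3), (1, 3)],
      [], [(3, 0, []), (8, 3, [1]), (9, 1, [3, 5])]⟩,
    ⟨[(3, 4)], [(3, 3), (4, 0), (4, 1), (4, 3)], [(1, 3)], [4], [(8, 3, [1]), (9, 1, [3,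
      5])]⟩]
  Ta := [((2, 1), 0, 4), ((2, 4), 0, 6), ((3, 0), 0, 2), ((3, 9), 0, 1), ((6, 5), 0, 7), ((6, 7),
    0, 5)]
  Tb := [((0, 1, 3), 2, 4, 0), ((1, 0, 2), 4, 2, 0), ((1, 0, 8), 4, 2, 3), ((1, 0, 9), 4, 2, 1),
    ((1, 2, 8), 4, 0, 3), ((1, 2, 9), 4, 0, 1), ((1, 8, 9), 4, 3, 1), ((2, 1, 4), 0, 4, 6),
    ((3, 0, 9), 0, 2, 1), ((4, 2, 5), 6, 0, 7), ((5, 4, 6), 7, 6, 0), ((6, 5, 7), 0, 7, 5),
    ((7, 6, 8), 5, 0, 3), ((8, 1, 7), 3, 4, 5), ((9, 1, 3), 1, 4, 0)]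
  Tc := [(1, 3, 5)]
  Td := [((1, 3), (9, 1), 4), ((1, 3), (9, 3), 0), ((1, 5), (9, 1), 4), ((1, 5), (9, 3), 0), ((3,
    1), (8, 1), 4), ((3, 1), (8, 7), 5), ((5, 1), (7, 6), 0), ((5, 1), (7, 8), 3)]
  G := [[0, 0, 0, 0x81c281c28182981cee414c214c24254114cee8c,
    0x84928492681c28a95c215c2e1b415cee8a], [0, 0xca6c6acca6c6aa6ce6ca6c6aa6cea6c2cc1,
    0x14c214c214c2e81481c6219c281c2388ec6, 0xd1c2d1c23495c6e1882c1, 0x95c21dc295c2e1834c2a1],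
    [0, 0, 0, 0xd1c2d1c2c259451cee81, 0x95c21dc2141dc6e3882a1]]

noncomputable def n1269 : Ent := ⟨e1269, noF, [], [], [(6, 15, [360035742630636841211993100915356868655746945586763691012861953, 0])]⟩

def c1269 : PLift (Cov.check n1269.C.D v1269 = true) := ⟨by decide +kernel⟩

def b1269 : PLift (entF (fidx ts) 400 1269 n1269 = true) := ⟨by decide +kernel⟩

theorem g1269 : GoodF (fidx ts) 400 1269 := GoodF.ofV v1269 n1269 c1269.down b1269.down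

/-- 466754:1024 -/
noncomputable def e1270 : SCfg where
  D := {
    a := 6
    L := 11
    kp := 8
    inn := [(0, 1), (1, 0), (1, 2), (1, 3), (2, 1), (2, 3), (3, 1), (3, 2), (3, 4), (4, 3), (4, 5), (5,
      4)]
    mix := [(0, 0), (0, 1), (0, 2), (1, 0), (1, 2), (1, 3), (2, 2), (2, 4), (2, 5), (2, 6), (3, 3), (3,
      6), (3, 7), (3, 8), (4, 3), (4, 8), (4, 9), (5, 8), (5, 9), (5, 10)]
    cl := [2, 5, 0, 0, 6, 7, 0, 4, 3, 1, 8]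
    chq := [(1, 3), (1, 4), (3, 1), (4, 1)]
    rng := [(0, 1), (0, 3), (1, 0), (1, 2), (2, 1), (2, 4), (3, 0), (3, 9), (4, 2), (4, 5), (5, 4), (5,
      6), (6, 5), (6, 7), (7, 6), (7, 8), (8, 7), (8, 10), (9, 3), (9, 10), (10, 8), (10, 9)]
    lev := [] }
  links := [[1, 6, 7, 8], [6, 0, 8, 2, 3, 9], [3, 1, 8, 10, 11, 12], [9, 1, 2, 12, 13, 14, 4], [9, 3, 14,
    5, 15], [15, 4, 14, 16]]
  P := {
    a := 6
    N := 17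
    nb := [450, 845, 7434, 29206, 49704, 114704, 643, 321, 1159, 32858, 2308, 5124, 10252, 20488,
      73784, 66096, 49184]
    tri := [(0, 1, 6), (0, 1, 8), (0, 6, 7), (0, 7, 8), (1, 2, 3), (1, 2, 8), (1, 3, 9), (1, 6, 9), (2,
      3, 12), (2, 8, 10), (2, 10, 11), (2, 11, 12), (3, 4, 9), (3, 4, 14), (3, 12, 13), (3, 13,
      14), (4, 5, 14), (4, 5, 15), (4, 9, 15), (5, 14, 16), (5, 15, 16)]
    fin := [0, 1, 1, 3, 3, 5, 0, 7, 1, 1, 10, 11, 1, 3, 5, 15, 16]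
    chd := [(3, 15), (5, 15)]
    steps := [(0, 6), (1, 2), (1, 8), (1, 12), (1, 9), (3, 4), (3, 13), (5, 14)] }
  rep := [1, 15, 0, 5, 3, 7, 10, 11, 16]

noncomputable def v1270 : Cov.CovD where
  P := 3
  N := 6
  pl := [0, 1, 4, 5, 10]
  lev := [⟨[], [], [], [2, 5], [(2, 0, [])]⟩,
    ⟨[], [(0, 0)], [(0, 0)], [2], [(2, 0, []), (3, 0, [])]⟩,
    ⟨[(0, 1)], [(0, 0), (1, 0)], [(0, 0)], [6, 7], [(2, 0, []), (6, 0, [])]⟩,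
    ⟨[(0, 1), (1, 2)], [(1, 0), (1, 3), (1, 4), (2, 0), (2, 3), (2, 4)], [(0, 0), (0, 3),
      (0, 4), (3, 4)], [], [(3, 0, []), (6, 0, []), (7, 4, [1]), (8, 3, [1])]⟩,
    ⟨[(1, 3), (2, 3)], [(1, 0), (3, 0), (3, 1), (3, 3), (3, 4)], [(0, 1), (0, 3), (1, 3)],
      [], [(3, 0, []), (8, 3, [1]), (9, 1, [3, 4])]⟩,
    ⟨[(3, 4)], [(3, 3), (4, 0), (4, 1), (4, 3)], [(1, 3)], [8], [(8, 3, [1]), (9, 1, [3,
      4])]⟩]
  Ta := [((2, 1), 0, 5), ((2, 4), 0, 6), ((3, 0), 0, 2), ((3, 9), 0, 1), ((6, 5), 0, 7), ((6, 7),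
    0, 4)]
  Tb := [((0, 1, 3), 2, 5, 0), ((1, 0, 2), 5, 2, 0), ((2, 1, 4), 0, 5, 6), ((3, 0, 9), 0, 2, 1),
    ((4, 2, 5), 6, 0, 7), ((5, 4, 6), 7, 6, 0), ((6, 5, 7), 0, 7, 4), ((7, 6, 8), 4, 0, 3),
    ((8, 7, 10), 3, 4, 8), ((9, 3, 10), 1, 0, 8), ((10, 8, 9), 8, 3, 1)]
  Tc := [(1, 3, 4)]
  Td := [((1, 3), (9, 3), 0), ((1, 3), (9, 10), 8), ((1, 4), (9, 3), 0), ((1, 4), (9, 10), 8),
    ((3, 1), (8, 7), 4), ((3, 1), (8, 10), 8), ((4, 1), (7, 6), 0), ((4, 1), (7, 8), 3)]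
  G := [[0, 0, 0, 0x95c295c278e195cee495c295c2e1b495cee8c,
    0x95c214595c66e1b495ce788aa95c295c2e1b495cee8a], [0,
    0xca6c6ac4ca6c6aa6cea24e2ca6c6aa6ceec1, 0x95c295c278c5a95cee495c295c2c96b495cee8c,
    0x95c295c2c96c2c95cee81, 0x95c295c2996b495cee81], [0, 0, 0, 0x95c295c278e195cee41,
    0x95c295c2e195c6e7882a1]]

noncomputable def n1270 : Ent := ⟨e1270, noF, [], [], [(6, 15, [1685356702439545624007900436039642273970977273354372543760005283841, 0]), (7, 16, [1580044410770988437309982408355971841652082177953823432505694310401, 0])]⟩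

def c1270 : PLift (Cov.check n1270.C.D v1270 = true) := ⟨by decide +kernel⟩

def b1270 : PLift (entF (fidx ts) 400 1270 n1270 = true) := ⟨by decide +kernel⟩

theorem g1270 : GoodF (fidx ts) 400 1270 := GoodF.ofV v1270 n1270 c1270.down b1270.down

/-- 466944:1025 -/
noncomputable def e1271 : SCfg where
  D := {
    a := 6
    L := 10
    kp := 8
    inn := [(0, 1), (0, 3), (1, 0), (1, 2), (1, 3), (2, 1), (2, 3), (2, 4), (3, 0), (3, 1), (3, 2), (3,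
      4), (3, 5), (4, 2), (4, 3), (5, 3)]
    mix := [(0, 0), (0, 1), (1, 0), (1, 2), (1, 3), (2, 2), (2, 4), (2, 5), (3, 1), (3, 6), (3, 7), (3,
      8), (4, 4), (4, 8), (5, 1), (5, 6), (5, 9)]
    cl := [1, 0, 3, 5, 2, 6, 4, 7, 0, 8]
    chq := [(0, 3), (0, 5), (0, 6), (3, 0), (5, 0), (6, 0), (7, 8), (8, 7)]
    rng := [(0, 1), (0, 3), (1, 0), (1, 9), (2, 3), (2, 5), (3, 0), (3, 2), (4, 5), (4, 8), (5, 2), (5,
      4), (6, 7), (6, 9), (7, 6), (7, 8), (8, 4), (8, 7), (9, 1), (9, 6)]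
    lev := [] }
  links := [[1, 6, 7, 3], [6, 0, 3, 2, 8, 9], [8, 1, 3, 4, 10, 11], [4, 2, 1, 0, 7, 5, 12, 13, 14], [10,
    2, 3, 14], [12, 3, 7, 15]]
  P := {
    a := 6
    N := 16
    nb := [202, 845, 3354, 28855, 17420, 37000, 643, 32873, 2566, 322, 18452, 1284, 41000, 20488,
      9240, 4256]
    tri := [(0, 1, 3), (0, 1, 6), (0, 3, 7), (0, 6, 7), (1, 2, 3), (1, 2, 8), (1, 6, 9), (1, 8, 9), (2,
      3, 4), (2, 4, 10), (2, 8, 11), (2, 10, 11), (3, 4, 14), (3, 5, 7), (3, 5, 12), (3, 12, 13),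
      (3, 13, 14), (4, 10, 14), (5, 7, 15), (5, 12, 15)]
    fin := [0, 0, 0, 3, 0, 3, 6, 0, 8, 9, 10, 11, 12, 13, 0, 3]
    chd := [(0, 8), (0, 9), (0, 11), (13, 3)]
    steps := [(0, 1), (0, 2), (0, 4), (0, 7), (0, 14), (3, 5), (3, 15)] }
  rep := [0, 6, 10, 8, 12, 9, 11, 13, 3]

noncomputable def v1271 : Cov.CovD where
  P := 3
  N := 6
  pl := [0, 4, 6]
  lev := [⟨[], [], [], [1], [(1, 0, [3, 5, 6])]⟩,
    ⟨[], [(0, 0), (0, 3), (0, 5)], [(3, 5)], [1], [(2, 3, [0]), (3, 5, [0])]⟩,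
    ⟨[(0, 1)], [(1, 3), (1, 5), (1, 6)], [(3, 6)], [2], [(2, 3, [0]), (5, 6, [0])]⟩,
    ⟨[(0, 1), (0, 2), (1, 2)], [(0, 0), (0, 7), (1, 0), (1, 3), (1, 5), (1, 7), (2, 0), (2,
      3), (2, 6), (2, 7)], [(0, 0), (0, 7)], [4], [(1, 0, [3, 5, 6]), (7, 7, [8]), (8, 0, [3,
      5, 6])]⟩,
    ⟨[(0, 3), (1, 2), (1, 3), (2, 3)], [(2, 0), (2, 3), (2, 6), (3, 0), (3, 7)], [], [2],
      [(8, 0, [3, 5, 6])]⟩,
    ⟨[(0, 3), (1, 3), (2, 3), (3, 4)], [(0, 0), (3, 0), (3, 7), (3, 8)], [(0, 8)], [4],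
      [(1, 0, [3, 5, 6]), (9, 8, [7])]⟩]
  Ta := [((1, 0), 0, 1), ((1, 9), 0, 8), ((8, 4), 0, 2), ((8, 7), 0, 7)]
  Tb := [((0, 1, 3), 1, 0, 5), ((1, 0, 9), 0, 1, 8), ((2, 3, 5), 3, 5, 6), ((3, 0, 2), 5, 1, 3),
    ((4, 5, 8), 2, 6, 0), ((5, 2, 4), 6, 3, 2), ((6, 7, 9), 4, 7, 8), ((7, 6, 8), 7, 4, 0),
    ((8, 4, 7), 0, 2, 7), ((9, 1, 6), 8, 0, 4)]
  Tc := [(0, 3, 5), (0, 3, 6), (0, 5, 6)]
  Td := [((0, 3), (1, 0), 1), ((0, 3), (1, 9), 8), ((0, 3), (8, 4), 2), ((0, 3), (8, 7), 7), ((0,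
    5), (1, 0), 1), ((0, 5), (1, 9), 8), ((0, 5), (8, 4), 2), ((0, 5), (8, 7), 7), ((0, 6),
    (1, 0), 1), ((0, 6), (1, 9), 8), ((0, 6), (8, 4), 2), ((0, 6), (8, 7), 7), ((3, 0), (2,
    3), 5), ((3, 0), (2, 5), 6), ((5, 0), (3, 0), 1), ((5, 0), (3, 2), 3), ((6, 0), (5, 2),
    3), ((6, 0), (5, 4), 2), ((7, 8), (7, 6), 4), ((7, 8), (7, 8), 0), ((8, 7), (9, 1), 0),
    ((8, 7), (9, 6), 4)]
  G := [[0, 0x64c4a164a8c4e1664a8c4e1a841c6, 0, 0x649814e131546311891e64a8c4ed53418c8e111889c,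
    0x123258e1a1586611291e62a8c8eb512818c], [0, 0, 0x124411438c4e6494a341898ee1c,
    0x1438c4e138445143858e13418c8e5494a183858ed9c, 0x529218e1325866212c8e123258eb512818c]]

noncomputable def n1271 : Ent := ⟨e1271, noF, [], [], []⟩

def c1271 : PLift (Cov.check n1271.C.D v1271 = true) := ⟨by decide +kernel⟩

def b1271 : PLift (entF (fidx ts) 400 1271 n1271 = true) := ⟨by decide +kernel⟩

theorem g1271 : GoodF (fidx ts) 400 1271 := GoodF.ofV v1271 n1271 c1271.down b1271.down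

/-- 466944:1026 -/
noncomputable def e1272 : SCfg where
  D := {
    a := 6
    L := 10
    kp := 8
    inn := [(0, 1), (0, 3), (1, 0), (1, 2), (1, 3), (2, 1), (2, 3), (2, 4), (3, 0), (3, 1), (3, 2), (3,
      4), (3, 5), (4, 2), (4, 3), (5, 3)]
    mix := [(0, 0), (0, 1), (1, 0), (1, 2), (1, 3), (2, 2), (2, 4), (2, 5), (3, 1), (3, 6), (3, 7), (3,
      8), (4, 4), (4, 8), (5, 6), (5, 7), (5, 9)]
    cl := [1, 0, 3, 8, 4, 6, 2, 5, 0, 7]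
    chq := [(0, 7), (1, 3), (1, 4), (1, 6), (3, 1), (4, 1), (6, 1), (7, 0)]
    rng := [(0, 1), (0, 3), (1, 0), (1, 6), (2, 3), (2, 5), (3, 0), (3, 2), (4, 5), (4, 8), (5, 2), (5,
      4), (6, 1), (6, 9), (7, 8), (7, 9), (8, 4), (8, 7), (9, 6), (9, 7)]
    lev := [] }
  links := [[1, 6, 7, 3], [6, 0, 3, 2, 8, 9], [8, 1, 3, 4, 10, 11], [4, 2, 1, 0, 7, 12, 5, 13, 14], [10,
    2, 3, 14], [13, 3, 12, 15]]
  P := {
    a := 6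
    N := 16
    nb := [202, 845, 3354, 28855, 17420, 45064, 643, 4169, 2566, 322, 18452, 1284, 32936, 49192, 9240,
      12320]
    tri := [(0, 1, 3), (0, 1, 6), (0, 3, 7), (0, 6, 7), (1, 2, 3), (1, 2, 8), (1, 6, 9), (1, 8, 9), (2,
      3, 4), (2, 4, 10), (2, 8, 11), (2, 10, 11), (3, 4, 14), (3, 5, 12), (3, 5, 13), (3, 7, 12),
      (3, 13, 14), (4, 10, 14), (5, 12, 15), (5, 13, 15)]
    fin := [0, 0, 0, 3, 0, 3, 0, 3, 8, 9, 10, 11, 12, 13, 3, 15]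
    chd := [(0, 8), (0, 10), (0, 11), (3, 15)]
    steps := [(0, 1), (0, 2), (0, 4), (0, 6), (3, 5), (3, 7), (3, 14)] }
  rep := [3, 0, 12, 8, 10, 13, 11, 15, 9]

noncomputable def v1272 : Cov.CovD where
  P := 3
  N := 6
  pl := [3, 6, 7]
  lev := [⟨[], [], [(0, 1)], [], [(0, 1, [3, 4, 6]), (1, 0, [7])]⟩,
    ⟨[], [(0, 0), (0, 1), (0, 3)], [(1, 3)], [8], [(0, 1, [3, 4, 6]), (2, 3, [1])]⟩,
    ⟨[(0, 1)], [(1, 1), (1, 3), (1, 4), (1, 6)], [(3, 4), (3, 6), (4, 6)], [], [(2, 3,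
      [1]), (4, 4, [1]), (5, 6, [1])]⟩,
    ⟨[(0, 1), (0, 2), (1, 2)], [(0, 0), (0, 1), (1, 0), (1, 1), (1, 3), (2, 0), (2, 3), (2,
      4), (2, 6)], [(0, 0)], [2, 5], [(1, 0, [7]), (8, 0, [7])]⟩,
    ⟨[(0, 3), (1, 2), (1, 3), (2, 3)], [(2, 0), (2, 3), (2, 4), (2, 6), (3, 0), (3, 4)],
      [(0, 4)], [], [(4, 4, [1]), (8, 0, [7])]⟩,
    ⟨[(0, 3), (1, 3), (2, 3), (3, 4)], [(3, 0), (3, 7)], [], [2, 5], [(9, 7, [0])]⟩]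
  Ta := [((1, 0), 0, 1), ((1, 6), 0, 2), ((8, 4), 0, 4), ((8, 7), 0, 5)]
  Tb := [((0, 1, 3), 1, 0, 8), ((1, 0, 6), 0, 1, 2), ((2, 3, 5), 3, 8, 6), ((3, 0, 2), 8, 1, 3),
    ((4, 5, 8), 4, 6, 0), ((5, 2, 4), 6, 3, 4), ((6, 1, 9), 2, 0, 7), ((7, 8, 9), 5, 0, 7),
    ((8, 4, 7), 0, 4, 5), ((9, 6, 7), 7, 2, 5)]
  Tc := [(1, 3, 4), (1, 3, 6), (1, 4, 6)]
  Td := [((0, 7), (1, 0), 1), ((0, 7), (1, 6), 2), ((0, 7), (8, 4), 4), ((0, 7), (8, 7), 5), ((1,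
    3), (0, 1), 0), ((1, 3), (0, 3), 8), ((1, 4), (0, 1), 0), ((1, 4), (0, 3), 8), ((1, 6),
    (0, 1), 0), ((1, 6), (0, 3), 8), ((3, 1), (2, 3), 8), ((3, 1), (2, 5), 6), ((4, 1), (4,
    5), 6), ((4, 1), (4, 8), 0), ((6, 1), (5, 2), 3), ((6, 1), (5, 4), 4), ((7, 0), (9, 6),
    2), ((7, 0), (9, 7), 5)]
  G := [[0, 0x11611ac111611cc1611611ac18c,
    0x812e146412412214482f4142d8122181a842be141a2a121c2dc, 0x1111c241111c21111c29c,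
    0x1121121111a182f41121121111a142f1121121111a1162f9c], [0, 0, 0,
    0x12445499cc2358821516d9cc25dc91ac21288ed,
    0x996294233699ca99a2f32881821423bc91ca91a2fb98211a23bc91ca1962f45]]

noncomputable def n1272 : Ent := ⟨e1272, noF, [], [], []⟩

def c1272 : PLift (Cov.check n1272.C.D v1272 = true) := ⟨by decide +kernel⟩

def b1272 : PLift (entF (fidx ts) 400 1272 n1272 = true) := ⟨by decide +kernel⟩

theorem g1272 : GoodF (fidx ts) 400 1272 := GoodF.ofV v1272 n1272 c1272.down b1272.down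

/-- 466574:1027/2 -/
noncomputable def e1273 : SCfg where
  D := {
    a := 6
    L := 9
    kp := 6
    inn := [(0, 1), (1, 0), (1, 2), (2, 1), (2, 3), (2, 4), (3, 2), (3, 4), (4, 2), (4, 3), (4, 5), (5,
      4)]
    mix := [(0, 0), (0, 1), (0, 2), (1, 0), (1, 2), (1, 3), (1, 4), (2, 2), (2, 3), (2, 5), (3, 1), (3,
      2), (3, 6), (4, 5), (4, 6), (4, 7), (4, 8), (5, 0), (5, 6), (5, 7)]
    cl := [3, 2, 0, 0, 6, 1, 1, 4, 5]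
    chq := [(0, 3), (3, 0), (3, 5), (5, 3)]
    rng := [(0, 1), (0, 4), (0, 6), (0, 7), (1, 0), (1, 2), (1, 6), (2, 1), (3, 4), (3, 5), (4, 0), (4,
      3), (5, 3), (5, 8), (6, 0), (6, 1), (7, 0), (7, 8), (8, 5), (8, 7)]
    lev := [] }
  links := [[1, 6, 7, 8], [6, 0, 8, 2, 9, 10], [9, 1, 8, 3, 4, 11], [4, 2, 8, 7, 12], [11, 2, 3, 12, 5,
    13, 14], [13, 4, 12, 6]]
  P := {
    a := 6
    N := 15
    nb := [450, 1861, 2842, 4500, 30764, 12368, 13475, 4425, 143, 3078, 578, 16916, 248, 16496, 10256]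
    tri := [(0, 1, 6), (0, 1, 8), (0, 6, 7), (0, 7, 8), (1, 2, 8), (1, 2, 9), (1, 6, 10), (1, 9, 10),
      (2, 3, 4), (2, 3, 8), (2, 4, 11), (2, 9, 11), (3, 4, 12), (3, 7, 8), (3, 7, 12), (4, 5, 12),
      (4, 5, 13), (4, 11, 14), (4, 13, 14), (5, 6, 12), (5, 6, 13)]
    fin := [0, 1, 2, 2, 0, 0, 0, 7, 1, 1, 10, 2, 2, 13, 14]
    chd := [(0, 1), (0, 14)]
    steps := [(0, 6), (0, 5), (0, 4), (1, 8), (1, 9), (2, 3), (2, 12), (2, 11)] }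
  rep := [1, 2, 7, 0, 13, 14, 10]

noncomputable def v1273 : Cov.CovD where
  P := 3
  N := 4
  pl := [1, 4, 7]
  lev := [⟨[], [], [(0, 3)], [2], [(0, 3, [0, 5]), (2, 0, [3])]⟩,
    ⟨[], [(0, 0), (0, 3)], [(0, 0), (0, 3)], [6], [(0, 3, [0, 5]), (2, 0, [3]), (3, 0,
      [3])]⟩,
    ⟨[(0, 1)], [(0, 0), (1, 0), (1, 1), (1, 3)], [(0, 0), (0, 1)], [], [(2, 0, [3]), (3, 0,
      [3]), (5, 1, [])]⟩,
    ⟨[(1, 2)], [(0, 0), (1, 0), (2, 0), (2, 1)], [(0, 1)], [2], [(2, 0, [3]), (6, 1, [])]⟩,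
    ⟨[(1, 2), (2, 3)], [(2, 0), (2, 1), (2, 5), (3, 0), (3, 1), (3, 5)], [(1, 1), (1, 5)],
      [4], [(5, 1, []), (6, 1, []), (8, 5, [3])]⟩,
    ⟨[(2, 4), (3, 4)], [(0, 3), (1, 3), (3, 1), (4, 1), (4, 3), (4, 5)], [(1, 3)], [4],
      [(0, 3, [0, 5]), (6, 1, [])]⟩]
  Ta := [((2, 1), 0, 2), ((3, 4), 0, 6), ((3, 5), 0, 1), ((5, 3), 1, 0), ((5, 8), 1, 5), ((6, 0),
    1, 3), ((6, 1), 1, 2)]
  Tb := [((0, 1, 4), 3, 2, 6), ((0, 1, 6), 3, 2, 1), ((0, 1, 7), 3, 2, 4), ((0, 4, 6), 3, 6, 1),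
    ((0, 4, 7), 3, 6, 4), ((0, 6, 7), 3, 1, 4), ((1, 0, 2), 2, 3, 0), ((1, 0, 6), 2, 3, 1),
    ((1, 2, 6), 2, 0, 1), ((3, 4, 5), 0, 6, 1), ((4, 0, 3), 6, 3, 0), ((5, 3, 8), 1, 0, 5),
    ((6, 0, 1), 1, 3, 2), ((7, 0, 8), 4, 3, 5), ((8, 5, 7), 5, 1, 4)]
  Tc := [(3, 0, 5)]
  Td := [((0, 3), (2, 1), 2), ((0, 3), (3, 4), 6), ((0, 3), (3, 5), 1), ((3, 0), (0, 1), 2), ((3,
    0), (0, 4), 6), ((3, 0), (0, 6), 1), ((3, 0), (0, 7), 4), ((3, 5), (0, 1), 2), ((3, 5),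
    (0, 4), 6), ((3, 5), (0, 6), 1), ((3, 5), (0, 7), 4), ((5, 3), (8, 5), 1), ((5, 3), (8,
    7), 4)]
  G := [[0, 0, 0x121d84211d4831528c8e2, 0, 0x34842485c92c632d84e2], [0, 0,
    0x91588c28541d82491558c82e, 0x19cd829c518c8a511d4214519c46c,
    0x595d82549d82c514d82599d846a], [0, 0x1489ac4125e4232618c8e1, 0, 0,
    0x34144258581c532d84e2], [0, 0, 0, 0x89cd42851cd42491558c82d,
    0xc189c928c159c982519844864b]]

noncomputable def n1273 : Ent := ⟨e1273, noF, [], [], []⟩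

def c1273 : PLift (Cov.check n1273.C.D v1273 = true) := ⟨by decide +kernel⟩

def b1273 : PLift (entF (fidx ts) 400 1273 n1273 = true) := ⟨by decide +kernel⟩

theorem g1273 : GoodF (fidx ts) 400 1273 := GoodF.ofV v1273 n1273 c1273.down b1273.down

/-- 466574:1027/1 -/
noncomputable def e1274 : SCfg where
  D := {
    a := 6
    L := 10
    kp := 7
    inn := [(0, 1), (1, 0), (1, 2), (2, 1), (2, 3), (2, 4), (3, 2), (3, 4), (4, 2), (4, 3), (4, 5), (5,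
      4)]
    mix := [(0, 0), (0, 1), (0, 2), (1, 0), (1, 2), (1, 3), (1, 4), (2, 2), (2, 3), (2, 5), (3, 2), (3,
      6), (3, 7), (4, 5), (4, 7), (4, 8), (4, 9), (5, 0), (5, 7), (5, 8)]
    cl := [2, 5, 0, 0, 6, 1, 7, 1, 3, 4]
    chq := [(0, 2), (2, 0), (2, 4), (4, 2)]
    rng := [(0, 1), (0, 4), (0, 7), (0, 8), (1, 0), (1, 2), (2, 1), (2, 6), (3, 4), (3, 5), (4, 0), (4,
      3), (5, 3), (5, 9), (6, 2), (6, 7), (7, 0), (7, 6), (8, 0), (8, 9), (9, 5), (9, 8)]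
    lev := [] }
  links := [[1, 6, 7, 8], [6, 0, 8, 2, 9, 10], [9, 1, 8, 3, 4, 11], [4, 2, 8, 12, 13], [11, 2, 3, 13, 5,
    14, 15], [14, 4, 13, 6]]
  P := {
    a := 6
    N := 16
    nb := [450, 1861, 2842, 12564, 59436, 24656, 25763, 321, 4239, 3078, 578, 33300, 8456, 4216,
      32880, 18448]
    tri := [(0, 1, 6), (0, 1, 8), (0, 6, 7), (0, 7, 8), (1, 2, 8), (1, 2, 9), (1, 6, 10), (1, 9, 10),
      (2, 3, 4), (2, 3, 8), (2, 4, 11), (2, 9, 11), (3, 4, 13), (3, 8, 12), (3, 12, 13), (4, 5,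
      13), (4, 5, 14), (4, 11, 15), (4, 14, 15), (5, 6, 13), (5, 6, 14)]
    fin := [0, 1, 2, 2, 0, 0, 0, 7, 1, 1, 10, 2, 12, 2, 14, 15]
    chd := [(0, 1), (0, 15)]
    steps := [(0, 6), (0, 5), (0, 4), (1, 8), (1, 9), (2, 3), (2, 13), (2, 11)] }
  rep := [1, 2, 0, 14, 15, 7, 10, 12]

noncomputable def v1274 : Cov.CovD where
  P := 3
  N := 5
  pl := [1, 4, 6, 8]
  lev := [⟨[], [], [(0, 2)], [5], [(0, 2, [0, 4]), (2, 0, [2])]⟩,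
    ⟨[], [(0, 0), (0, 2)], [(0, 0), (0, 2)], [6], [(0, 2, [0, 4]), (2, 0, [2]), (3, 0,
      [2])]⟩,
    ⟨[(0, 1)], [(0, 0), (1, 0), (1, 1), (1, 2)], [(0, 0), (0, 1)], [], [(2, 0, [2]), (3, 0,
      [2]), (5, 1, [])]⟩,
    ⟨[(1, 2)], [(0, 0), (1, 0), (2, 0), (2, 1)], [(0, 1)], [7], [(2, 0, [2]), (7, 1, [])]⟩,
    ⟨[(1, 2), (2, 3)], [(2, 0), (2, 1), (2, 4), (3, 0), (3, 1), (3, 4)], [(1, 1), (1, 4)],
      [3], [(5, 1, []), (7, 1, []), (9, 4, [2])]⟩,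
    ⟨[(2, 4), (3, 4)], [(0, 2), (1, 2), (3, 1), (4, 1), (4, 2), (4, 4)], [(1, 2)], [3],
      [(0, 2, [0, 4]), (7, 1, [])]⟩]
  Ta := [((2, 1), 0, 5), ((2, 6), 0, 7), ((3, 4), 0, 6), ((3, 5), 0, 1), ((5, 3), 1, 0), ((5, 9),
    1, 4), ((7, 0), 1, 2), ((7, 6), 1, 7)]
  Tb := [((0, 1, 4), 2, 5, 6), ((0, 1, 7), 2, 5, 1), ((0, 1, 8), 2, 5, 3), ((0, 4, 7), 2, 6, 1),
    ((0, 4, 8), 2, 6, 3), ((0, 7, 8), 2, 1, 3), ((1, 0, 2), 5, 2, 0), ((2, 1, 6), 0, 5, 7),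
    ((3, 4, 5), 0, 6, 1), ((4, 0, 3), 6, 2, 0), ((5, 3, 9), 1, 0, 4), ((6, 2, 7), 7, 0, 1),
    ((7, 0, 6), 1, 2, 7), ((8, 0, 9), 3, 2, 4), ((9, 5, 8), 4, 1, 3)]
  Tc := [(2, 0, 4)]
  Td := [((0, 2), (2, 1), 5), ((0, 2), (2, 6), 7), ((0, 2), (3, 4), 6), ((0, 2), (3, 5), 1), ((2,
    0), (0, 1), 5), ((2, 0), (0, 4), 6), ((2, 0), (0, 7), 1), ((2, 0), (0, 8), 3), ((2, 4),
    (0, 1), 5), ((2, 4), (0, 4), 6), ((2, 4), (0, 7), 1), ((2, 4), (0, 8), 3), ((4, 2), (9,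
    5), 1), ((4, 2), (9, 8), 3)]
  G := [[0, 0, 0xc1282c1248c1284e, 0, 0x891d24198d28a9852182c891d24aa], [0, 0,
    0xc1c1c82c1c1c48c1c1c24e, 0x519819c4494c6541d891dc2c541d891dc2541d891dc2cc,
    0x198d891dc2944591d819cca191d891dc2915591dc188caa], [0, 0x115e85a14e449a81aa144466c1,
    0xc1242c1284c1248e, 0, 0x9852182c198d28a1], [0, 0, 0xc1c1c28c1c1c42c1c1c24e,
    0x9154541d88ca541d891dc2c1, 0x198d891dc2915591dc188ca1]]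

noncomputable def n1274 : Ent := ⟨e1274, noF, [], [], [(7, 12, [385753029973011613167317188540585705112827479461471962595823617, 0])]⟩

def c1274 : PLift (Cov.check n1274.C.D v1274 = true) := ⟨by decide +kernel⟩

def b1274 : PLift (entF (fidx ts) 400 1274 n1274 = true) := ⟨by decide +kernel⟩

theorem g1274 : GoodF (fidx ts) 400 1274 := GoodF.ofV v1274 n1274 c1274.down b1274.down

/-- The entries 1127 to 1274. -/
theorem rE7 : Rng (GoodF (fidx ts) 400) 1127 1275 :=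
  (((((((((((((((((((((((((((((((((((((((((((((((((((((((((((((((((((((((((((((((((((((((((((((((((((((((((((((((((((((((((((((((((((((((((((((((((((((Rng.nil _ 1127).snoc g1127 rfl).snoc g1128 rfl).snoc g1129 rfl).snoc g1130 rfl).snoc g1131 rfl).snoc g1132 rfl).snoc g1133 rfl).snoc g1134 rfl).snoc g1135 rfl).snoc g1136 rfl).snoc g1137 rfl).snoc g1138 rfl).snoc g1139 rfl).snoc g1140 rfl).snoc g1141 rfl).snoc g1142 rfl).snoc g1143 rfl).snoc g1144 rfl).snoc g1145 rfl).snoc g1146 rfl).snoc g1147 rfl).snoc g1148 rfl).snoc g1149 rfl).snoc g1150 rfl).snoc g1151 rfl).snoc g1152 rfl).snoc g1153 rfl).snoc g1154 rfl).snoc g1155 rfl).snoc g1156 rfl).snoc g1157 rfl).snoc g1158 rfl).snoc g1159 rfl).snoc g1160 rfl).snoc g1161 rfl).snoc g1162 rfl).snoc g1163 rfl).snoc g1164 rfl).snoc g1165 rfl).snoc g1166 rfl).snoc g1167 rfl).snoc g1168 rfl).snoc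 g1169 rfl).snoc g1170 rfl).snoc g1171 rfl).snoc g1172 rfl).snoc g1173 rfl).snoc g1174 rfl).snoc g1175 rfl).snoc g1176 rfl).snoc g1177 rfl).snoc g1178 rfl).snoc g1179 rfl).snoc g1180 rfl).snoc g1181 rfl).snoc g1182 rfl).snoc g1183 rfl).snoc g1184 rfl).snoc g1185 rfl).snoc g1186 rfl).snoc g1187 rfl).snoc g1188 rfl).snoc g1189 rfl).snoc g1190 rfl).snoc g1191 rfl).snoc g1192 rfl).snoc g1193 rfl).snoc g1194 rfl).snoc g1195 rfl).snoc g1196 rfl).snoc g1197 rfl).snoc g1198 rfl).snoc g1199 rfl).snoc g1200 rfl).snoc g1201 rfl).snoc g1202 rfl).snoc g1203 rfl).snoc g1204 rfl).snoc g1205 rfl).snoc g1206 rfl).snoc g1207 rfl).snoc g1208 rfl).snoc g1209 rfl).snoc g1210 rfl).snoc g1211 rfl).snoc g1212 rfl).snoc g1213 rfl).snoc g1214 rfl).snoc g1215 rfl).snoc g1216 rfl).snoc g1217 rfl).snoc g1218 rfl).snoc g1219 rfl).snoc g1220 rfl).snoc g1221 rfl).snoc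 g1222 rfl).snoc g1223 rfl).snoc g1224 rfl).snoc g1225 rfl).snoc g1226 rfl).snoc g1227 rfl).snoc g1228 rfl).snoc g1229 rfl).snoc g1230 rfl).snoc g1231 rfl).snoc g1232 rfl).snoc g1233 rfl).snoc g1234 rfl).snoc g1235 rfl).snoc g1236 rfl).snoc g1237 rfl).snoc g1238 rfl).snoc g1239 rfl).snoc g1240 rfl).snoc g1241 rfl).snoc g1242 rfl).snoc g1243 rfl).snoc g1244 rfl).snoc g1245 rfl).snoc g1246 rfl).snoc g1247 rfl).snoc g1248 rfl).snoc g1249 rfl).snoc g1250 rfl).snoc g1251 rfl).snoc g1252 rfl).snoc g1253 rfl).snoc g1254 rfl).snoc g1255 rfl).snoc g1256 rfl).snoc g1257 rfl).snoc g1258 rfl).snoc g1259 rfl).snoc g1260 rfl).snoc g1261 rfl).snoc g1262 rfl).snoc g1263 rfl).snoc g1264 rfl).snoc g1265 rfl).snoc g1266 rfl).snoc g1267 rfl).snoc g1268 rfl).snoc g1269 rfl).snoc g1270 rfl).snoc g1271 rfl).snoc g1272 rfl).snoc g1273 rfl).snoc g1274 rfl)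

end Pool.Agent.W986.ST.Dat
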