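import Pool.Agent.W986.Dat.Tab
import Pool.Agent.W986.SubAltB

/-!
# Entries 1275 to 1411 of the table
-/

set_option autoImplicit false

namespace Pool.Agent.W986.ST.Dat

/-- 466574:1027/4 -/
noncomputable def e1275 : SCfg where
  D := {
    a := 6
    L := 9
    kp := 6
    inn := [(0, 1), (1, 0), (1, 2), (2, 1), (2, 3), (2, 4), (3, 2), (3, 4), (4, 2), (4, 3), (4, 5), (5,
      4)]
    mix := [(0, 0), (0, 1), (0, 2), (1, 0), (1, 2), (1, 3), (1, 4), (2, 2), (2, 3), (2, 5), (3, 1), (3,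
      2), (3, 6), (4, 5), (4, 6), (4, 7), (4, 8), (5, 4), (5, 6), (5, 7)]
    cl := [5, 1, 0, 2, 0, 4, 3, 6, 3]
    chq := [(1, 2), (1, 4), (2, 1), (4, 1)]
    rng := [(0, 1), (0, 4), (1, 0), (1, 2), (1, 6), (2, 1), (3, 4), (3, 5), (4, 0), (4, 3), (4, 6), (4,
      7), (5, 3), (5, 8), (6, 1), (6, 4), (7, 4), (7, 8), (8, 5), (8, 7)]
    lev := [] }
  links := [[1, 6, 7, 8], [6, 0, 8, 2, 9, 10], [9, 1, 8, 3, 4, 11], [4, 2, 8, 7, 12], [11, 2, 3, 12, 5,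
    13, 14], [13, 4, 12, 10]]
  P := {
    a := 6
    N := 15
    nb := [450, 1861, 2842, 4500, 30764, 13328, 1155, 4425, 143, 3078, 12898, 16916, 1208, 17456,
      10256]
    tri := [(0, 1, 6), (0, 1, 8), (0, 6, 7), (0, 7, 8), (1, 2, 8), (1, 2, 9), (1, 6, 10), (1, 9, 10),
      (2, 3, 4), (2, 3, 8), (2, 4, 11), (2, 9, 11), (3, 4, 12), (3, 7, 8), (3, 7, 12), (4, 5, 12),
      (4, 5, 13), (4, 11, 14), (4, 13, 14), (5, 10, 12), (5, 10, 13)]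
    fin := [0, 1, 2, 2, 4, 1, 0, 2, 1, 9, 1, 11, 4, 13, 4]
    chd := [(2, 9), (2, 11)]
    steps := [(0, 6), (1, 8), (1, 10), (1, 5), (2, 3), (2, 7), (4, 12), (4, 14)] }
  rep := [1, 2, 9, 4, 11, 0, 13]

noncomputable def v1275 : Cov.CovD where
  P := 3
  N := 4
  pl := [0, 7]
  lev := [⟨[], [], [(0, 1)], [5], [(1, 1, [2, 4]), (2, 0, [])]⟩,
    ⟨[], [(0, 0), (0, 1), (0, 2)], [(0, 0), (0, 2)], [5], [(2, 0, []), (3, 2, [1]), (4, 0,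
      [])]⟩,
    ⟨[(0, 1)], [(0, 0), (1, 0), (1, 2), (1, 4)], [(0, 2), (0, 4), (2, 4)], [], [(2, 0, []),
      (3, 2, [1]), (5, 4, [1])]⟩,
    ⟨[(1, 2)], [(0, 0), (0, 1), (1, 0), (2, 0), (2, 1), (2, 2), (2, 3), (2, 4)], [(0, 1),
      (0, 3), (1, 3)], [], [(1, 1, [2, 4]), (2, 0, []), (6, 3, [])]⟩,
    ⟨[(1, 2), (2, 3)], [(2, 0), (2, 2), (2, 3), (2, 4), (3, 0), (3, 1), (3, 3), (3, 4)],
      [(3, 3), (3, 4)], [6], [(5, 4, [1]), (6, 3, []), (8, 3, [])]⟩,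
    ⟨[(2, 4), (3, 4)], [(1, 0), (3, 3), (4, 0), (4, 3), (4, 4)], [(0, 3)], [6], [(4, 0,
      []), (6, 3, [])]⟩]
  Ta := [((2, 1), 0, 1), ((4, 0), 0, 5), ((4, 3), 0, 2), ((4, 6), 0, 3), ((4, 7), 0, 6), ((6, 1),
    3, 1), ((6, 4), 3, 0), ((8, 5), 3, 4), ((8, 7), 3, 6)]
  Tb := [((0, 1, 4), 5, 1, 0), ((1, 0, 2), 1, 5, 0), ((1, 0, 6), 1, 5, 3), ((1, 2, 6), 1, 0, 3),
    ((3, 4, 5), 2, 0, 4), ((4, 0, 3), 0, 5, 2), ((4, 0, 6), 0, 5, 3), ((4, 0, 7), 0, 5, 6),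
    ((4, 3, 6), 0, 2, 3), ((4, 3, 7), 0, 2, 6), ((4, 6, 7), 0, 3, 6), ((5, 3, 8), 4, 2, 3),
    ((6, 1, 4), 3, 1, 0), ((7, 4, 8), 6, 0, 3), ((8, 5, 7), 3, 4, 6)]
  Tc := [(1, 2, 4)]
  Td := [((1, 2), (1, 0), 5), ((1, 2), (1, 2), 0), ((1, 2), (1, 6), 3), ((1, 4), (1, 0), 5), ((1,
    4), (1, 2), 0), ((1, 4), (1, 6), 3), ((2, 1), (3, 4), 0), ((2, 1), (3, 5), 4), ((4, 1),
    (5, 3), 2), ((4, 1), (5, 8), 3)]
  G := [[0, 0xe1848e1484e148e184ce, 0, 0x12474128b8c212474128b8c4a,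
    0x11ab1167c281831147c1e98a2c], [0, 0xc1248c1284c128c124ce, 0, 0x411e8a14682641a94ac2,
    0x811af428181e4a14a2c], [0, 0, 0xa161c2e14e18ca1, 0x82a1816144d6824344c6828788ac29,
    0x4a96184cd426838221884c18283a224e4ba1e4a58a2d], [0, 0, 0x6182a142c1,
    0x446d822284622489642885ac25, 0x42888afc284142634498824b2c]]

noncomputable def n1275 : Ent := ⟨e1275, noF, [], [], []⟩

def c1275 : PLift (Cov.check n1275.C.D v1275 = true) := ⟨by decide +kernel⟩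

def b1275 : PLift (entF (fidx ts) 400 1275 n1275 = true) := ⟨by decide +kernel⟩

theorem g1275 : GoodF (fidx ts) 400 1275 := GoodF.ofV v1275 n1275 c1275.down b1275.down

/-- 466574:1027/3 -/
noncomputable def e1276 : SCfg where
  D := {
    a := 6
    L := 10
    kp := 7
    inn := [(0, 1), (1, 0), (1, 2), (2, 1), (2, 3), (2, 4), (3, 2), (3, 4), (4, 2), (4, 3), (4, 5), (5,
      4)]
    mix := [(0, 0), (0, 1), (0, 2), (1, 0), (1, 2), (1, 3), (1, 4), (2, 2), (2, 3), (2, 5), (3, 1), (3,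
      2), (3, 6), (4, 5), (4, 6), (4, 7), (4, 8), (5, 6), (5, 7), (5, 9)]
    cl := [3, 2, 0, 0, 7, 1, 1, 4, 5, 6]
    chq := [(0, 3), (3, 0), (5, 6), (6, 5)]
    rng := [(0, 1), (0, 4), (1, 0), (1, 2), (1, 6), (2, 1), (3, 4), (3, 5), (4, 0), (4, 3), (5, 3), (5,
      8), (6, 1), (6, 9), (7, 8), (7, 9), (8, 5), (8, 7), (9, 6), (9, 7)]
    lev := [] }
  links := [[1, 6, 7, 8], [6, 0, 8, 2, 9, 10], [9, 1, 8, 3, 4, 11], [4, 2, 8, 7, 12], [11, 2, 3, 12, 5,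
    13, 14], [13, 4, 12, 15]]
  P := {
    a := 6
    N := 16
    nb := [450, 1861, 2842, 4500, 30764, 45072, 1155, 4425, 143, 3078, 578, 16916, 32952, 49200,
      10256, 12320]
    tri := [(0, 1, 6), (0, 1, 8), (0, 6, 7), (0, 7, 8), (1, 2, 8), (1, 2, 9), (1, 6, 10), (1, 9, 10),
      (2, 3, 4), (2, 3, 8), (2, 4, 11), (2, 9, 11), (3, 4, 12), (3, 7, 8), (3, 7, 12), (4, 5, 12),
      (4, 5, 13), (4, 11, 14), (4, 13, 14), (5, 12, 15), (5, 13, 15)]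
    fin := [0, 1, 2, 2, 4, 4, 0, 7, 1, 1, 10, 2, 2, 13, 14, 4]
    chd := [(0, 1), (14, 4)]
    steps := [(0, 6), (1, 8), (1, 9), (2, 3), (2, 12), (2, 11), (4, 5), (4, 15)] }
  rep := [1, 2, 7, 0, 13, 14, 4, 10]

noncomputable def v1276 : Cov.CovD where
  P := 3
  N := 5
  pl := [1, 4, 7]
  lev := [⟨[], [], [(0, 3)], [2], [(0, 3, [0]), (2, 0, [3])]⟩,
    ⟨[], [(0, 0), (0, 3)], [(0, 0), (0, 3)], [7], [(0, 3, [0]), (2, 0, [3]), (3, 0, [3])]⟩,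
    ⟨[(0, 1)], [(0, 0), (1, 0), (1, 1), (1, 3)], [(0, 0), (0, 1)], [], [(2, 0, [3]), (3, 0,
      [3]), (5, 1, [])]⟩,
    ⟨[(1, 2)], [(0, 0), (1, 0), (2, 0), (2, 1)], [(0, 1)], [2], [(2, 0, [3]), (6, 1, [])]⟩,
    ⟨[(1, 2), (2, 3)], [(2, 0), (2, 1), (2, 5), (3, 0), (3, 1), (3, 5)], [(1, 1), (1, 5)],
      [4], [(5, 1, []), (6, 1, []), (8, 5, [6])]⟩,
    ⟨[(2, 4), (3, 4)], [(3, 1), (4, 1), (4, 5), (4, 6)], [(1, 6)], [4], [(6, 1, []), (9, 6,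
      [5])]⟩]
  Ta := [((2, 1), 0, 2), ((3, 4), 0, 7), ((3, 5), 0, 1), ((5, 3), 1, 0), ((5, 8), 1, 5), ((6, 1),
    1, 2), ((6, 9), 1, 6)]
  Tb := [((0, 1, 4), 3, 2, 7), ((1, 0, 2), 2, 3, 0), ((1, 0, 6), 2, 3, 1), ((1, 2, 6), 2, 0, 1),
    ((3, 4, 5), 0, 7, 1), ((4, 0, 3), 7, 3, 0), ((5, 3, 8), 1, 0, 5), ((6, 1, 9), 1, 2, 6),
    ((7, 8, 9), 4, 5, 6), ((8, 5, 7), 5, 1, 4), ((9, 6, 7), 6, 1, 4)]
  Tc := []
  Td := [((0, 3), (2, 1), 2), ((0, 3), (3, 4), 7), ((0, 3), (3, 5), 1), ((3, 0), (0, 1), 2), ((3,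
    0), (0, 4), 7), ((5, 6), (8, 5), 1), ((5, 6), (8, 7), 4), ((6, 5), (9, 6), 1), ((6, 5),
    (9, 7), 4)]
  G := [[0, 0, 0x236d8486a2d484a4629c42e, 0, 0x32cd842a58388cc92558a8245c9a46a], [0, 0,
    0x9c558c2859cd42459cd842e, 0x59cd82945c9c4a59cd8259cd486c,
    0x59cd829c58588cc5c98948659cd846a], [0, 0x31ce84d19e42319e84e1, 0, 0,
    0x6a2d84859cd2822c558a84b], [0, 0, 0, 0xc159c52859cd424c159cc82d,
    0xc159c928c159c9829c58588a4b]]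

noncomputable def n1276 : Ent := ⟨e1276, noF, [], [], [(6, 15, [360035742630636841211993100915356868655746945586763691012886529, 0]), (15, 10, [360035742630637297931254766822518807307257169425207333491814401, 0])]⟩

def c1276 : PLift (Cov.check n1276.C.D v1276 = true) := ⟨by decide +kernel⟩

def b1276 : PLift (entF (fidx ts) 400 1276 n1276 = true) := ⟨by decide +kernel⟩

theorem g1276 : GoodF (fidx ts) 400 1276 := GoodF.ofV v1276 n1276 c1276.down b1276.down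

/-- 466574:1027/5 -/
noncomputable def e1277 : SCfg where
  D := {
    a := 6
    L := 10
    kp := 7
    inn := [(0, 1), (1, 0), (1, 2), (2, 1), (2, 3), (2, 4), (3, 2), (3, 4), (4, 2), (4, 3), (4, 5), (5,
      4)]
    mix := [(0, 0), (0, 1), (0, 2), (1, 0), (1, 2), (1, 3), (1, 4), (2, 2), (2, 3), (2, 5), (3, 2), (3,
      6), (3, 7), (4, 5), (4, 7), (4, 8), (4, 9), (5, 1), (5, 7), (5, 8)]
    cl := [3, 2, 0, 0, 6, 1, 7, 1, 4, 5]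
    chq := [(0, 3), (2, 5), (3, 0), (5, 2)]
    rng := [(0, 1), (0, 4), (1, 0), (1, 2), (1, 7), (1, 8), (2, 1), (2, 6), (3, 4), (3, 5), (4, 0), (4,
      3), (5, 3), (5, 9), (6, 2), (6, 7), (7, 1), (7, 6), (8, 1), (8, 9), (9, 5), (9, 8)]
    lev := [] }
  links := [[1, 6, 7, 8], [6, 0, 8, 2, 9, 10], [9, 1, 8, 3, 4, 11], [4, 2, 8, 12, 13], [11, 2, 3, 13, 5,
    14, 15], [14, 4, 13, 7]]
  P := {
    a := 6
    N := 16
    nb := [450, 1861, 2842, 12564, 59436, 24720, 1155, 24929, 4239, 3078, 578, 33300, 8456, 4280,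
      32944, 18448]
    tri := [(0, 1, 6), (0, 1, 8), (0, 6, 7), (0, 7, 8), (1, 2, 8), (1, 2, 9), (1, 6, 10), (1, 9, 10),
      (2, 3, 4), (2, 3, 8), (2, 4, 11), (2, 9, 11), (3, 4, 13), (3, 8, 12), (3, 12, 13), (4, 5,
      13), (4, 5, 14), (4, 11, 15), (4, 14, 15), (5, 7, 13), (5, 7, 14)]
    fin := [0, 1, 2, 2, 4, 4, 0, 4, 1, 1, 10, 2, 12, 2, 14, 15]
    chd := [(0, 1), (4, 15)]
    steps := [(0, 6), (1, 8), (1, 9), (2, 3), (2, 13), (2, 11), (4, 5), (4, 7)] }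
  rep := [1, 2, 4, 0, 14, 15, 10, 12]

noncomputable def v1277 : Cov.CovD where
  P := 3
  N := 5
  pl := [4, 6, 8]
  lev := [⟨[], [], [(0, 2), (0, 3), (2, 3)], [], [(0, 3, [0]), (1, 2, [5]), (2, 0, [3])]⟩,
    ⟨[], [(0, 0), (0, 2), (0, 3)], [(0, 0), (0, 3)], [6], [(0, 3, [0]), (2, 0, [3]), (3, 0,
      [3])]⟩,
    ⟨[(0, 1)], [(0, 0), (1, 0), (1, 1), (1, 3)], [(0, 0), (0, 1)], [], [(2, 0, [3]), (3, 0,
      [3]), (5, 1, [])]⟩,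
    ⟨[(1, 2)], [(0, 0), (1, 0), (2, 0), (2, 1)], [(0, 1)], [7], [(2, 0, [3]), (7, 1, [])]⟩,
    ⟨[(1, 2), (2, 3)], [(2, 0), (2, 1), (2, 5), (3, 0), (3, 1), (3, 5)], [(1, 1), (1, 5)],
      [4], [(5, 1, []), (7, 1, []), (9, 5, [2])]⟩,
    ⟨[(2, 4), (3, 4)], [(0, 2), (3, 1), (4, 1), (4, 2), (4, 5)], [(1, 2)], [4], [(1, 2,
      [5]), (7, 1, [])]⟩]
  Ta := [((2, 1), 0, 2), ((2, 6), 0, 7), ((3, 4), 0, 6), ((3, 5), 0, 1), ((5, 3), 1, 0), ((5, 9),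
    1, 5), ((7, 1), 1, 2), ((7, 6), 1, 7)]
  Tb := [((0, 1, 4), 3, 2, 6), ((1, 0, 2), 2, 3, 0), ((1, 0, 7), 2, 3, 1), ((1, 0, 8), 2, 3, 4),
    ((1, 2, 7), 2, 0, 1), ((1, 2, 8), 2, 0, 4), ((1, 7, 8), 2, 1, 4), ((2, 1, 6), 0, 2, 7),
    ((3, 4, 5), 0, 6, 1), ((4, 0, 3), 6, 3, 0), ((5, 3, 9), 1, 0, 5), ((6, 2, 7), 7, 0, 1),
    ((7, 1, 6), 1, 2, 7), ((8, 1, 9), 4, 2, 5), ((9, 5, 8), 5, 1, 4)]
  Tc := []
  Td := [((0, 3), (2, 1), 2), ((0, 3), (2, 6), 7), ((0, 3), (3, 4), 6), ((0, 3), (3, 5), 1), ((2,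
    5), (1, 0), 3), ((2, 5), (1, 2), 0), ((2, 5), (1, 7), 1), ((2, 5), (1, 8), 4), ((3, 0),
    (0, 1), 2), ((3, 0), (0, 4), 6), ((5, 2), (9, 5), 1), ((5, 2), (9, 8), 4)]
  G := [[0, 0, 0xc1248c1284c1242e, 0, 0x891d24191d28c198d28198d286a], [0, 0,
    0xc1c1c28c1c1c84c1c1c42e, 0x541d891dc244915c51988cca541d891dc2415591dc588c6c,
    0x198d891dc2191d891dc2c191d891dc2944591d819cc6a], [0,
    0x419e92c81c46481e145e6811ce1288ce4e1, 0, 0, 0x8192434811924382191d284b], [0, 0, 0,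
    0x111184cd289c14a111154cd889c1461111c82d, 0x118189cd28111119cd82985591dc188c4b]]

noncomputable def n1277 : Ent := ⟨e1277, noF, [], [], []⟩

def c1277 : PLift (Cov.check n1277.C.D v1277 = true) := ⟨by decide +kernel⟩

def b1277 : PLift (entF (fidx ts) 400 1277 n1277 = true) := ⟨by decide +kernel⟩

theorem g1277 : GoodF (fidx ts) 400 1277 := GoodF.ofV v1277 n1277 c1277.down b1277.down

/-- 466574:1027/6 -/
noncomputable def e1278 : SCfg where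
  D := {
    a := 6
    L := 10
    kp := 7
    inn := [(0, 1), (1, 0), (1, 2), (2, 1), (2, 3), (2, 4), (3, 2), (3, 4), (4, 2), (4, 3), (4, 5), (5,
      4)]
    mix := [(0, 0), (0, 1), (0, 2), (1, 0), (1, 2), (1, 3), (1, 4), (2, 2), (2, 3), (2, 5), (3, 2), (3,
      6), (3, 7), (4, 5), (4, 7), (4, 8), (4, 9), (5, 4), (5, 7), (5, 8)]
    cl := [1, 6, 0, 0, 2, 3, 7, 3, 4, 5]
    chq := [(0, 1), (1, 0), (2, 5), (5, 2)]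
    rng := [(0, 1), (0, 4), (1, 0), (1, 2), (2, 1), (2, 6), (3, 4), (3, 5), (4, 0), (4, 3), (4, 7), (4,
      8), (5, 3), (5, 9), (6, 2), (6, 7), (7, 4), (7, 6), (8, 4), (8, 9), (9, 5), (9, 8)]
    lev := [] }
  links := [[1, 6, 7, 8], [6, 0, 8, 2, 9, 10], [9, 1, 8, 3, 4, 11], [4, 2, 8, 12, 13], [11, 2, 3, 13, 5,
    14, 15], [14, 4, 13, 10]]
  P := {
    a := 6
    N := 16
    nb := [450, 1861, 2842, 12564, 59436, 25616, 1155, 321, 4239, 3078, 25186, 33300, 8456, 5176,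
      33840, 18448]
    tri := [(0, 1, 6), (0, 1, 8), (0, 6, 7), (0, 7, 8), (1, 2, 8), (1, 2, 9), (1, 6, 10), (1, 9, 10),
      (2, 3, 4), (2, 3, 8), (2, 4, 11), (2, 9, 11), (3, 4, 13), (3, 8, 12), (3, 12, 13), (4, 5,
      13), (4, 5, 14), (4, 11, 15), (4, 14, 15), (5, 10, 13), (5, 10, 14)]
    fin := [0, 1, 2, 2, 4, 4, 0, 7, 1, 1, 4, 2, 12, 2, 14, 15]
    chd := [(0, 1), (4, 15)]
    steps := [(0, 6), (1, 8), (1, 9), (2, 3), (2, 13), (2, 11), (4, 5), (4, 10)] }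
  rep := [1, 0, 4, 2, 14, 15, 7, 12]

noncomputable def v1278 : Cov.CovD where
  P := 3
  N := 5
  pl := [1, 6, 8]
  lev := [⟨[], [], [(0, 1)], [6], [(0, 1, [0]), (2, 0, [1])]⟩,
    ⟨[], [(0, 0), (0, 1), (0, 2)], [(0, 0), (0, 1), (0, 2), (1, 2)], [], [(0, 1, [0]), (2,
      0, [1]), (3, 0, [1]), (4, 2, [5])]⟩,
    ⟨[(0, 1)], [(0, 0), (1, 0), (1, 1), (1, 2), (1, 3)], [(0, 0), (0, 3)], [], [(2, 0,
      [1]), (3, 0, [1]), (5, 3, [])]⟩,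
    ⟨[(1, 2)], [(0, 0), (1, 0), (2, 0), (2, 3)], [(0, 3)], [7], [(2, 0, [1]), (7, 3, [])]⟩,
    ⟨[(1, 2), (2, 3)], [(2, 0), (2, 3), (2, 5), (3, 0), (3, 3), (3, 5)], [(3, 3), (3, 5)],
      [4], [(5, 3, []), (7, 3, []), (9, 5, [2])]⟩,
    ⟨[(2, 4), (3, 4)], [(1, 2), (3, 3), (4, 2), (4, 3), (4, 5)], [(2, 3)], [4], [(4, 2,
      [5]), (7, 3, [])]⟩]
  Ta := [((2, 1), 0, 6), ((2, 6), 0, 7), ((3, 4), 0, 2), ((3, 5), 0, 3), ((5, 3), 3, 0), ((5, 9),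
    3, 5), ((7, 4), 3, 2), ((7, 6), 3, 7)]
  Tb := [((0, 1, 4), 1, 6, 2), ((1, 0, 2), 6, 1, 0), ((2, 1, 6), 0, 6, 7), ((3, 4, 5), 0, 2, 3),
    ((4, 0, 3), 2, 1, 0), ((4, 0, 7), 2, 1, 3), ((4, 0, 8), 2, 1, 4), ((4, 3, 7), 2, 0, 3),
    ((4, 3, 8), 2, 0, 4), ((4, 7, 8), 2, 3, 4), ((5, 3, 9), 3, 0, 5), ((6, 2, 7), 7, 0, 3),
    ((7, 4, 6), 3, 2, 7), ((8, 4, 9), 4, 2, 5), ((9, 5, 8), 5, 3, 4)]
  Tc := []
  Td := [((0, 1), (2, 1), 6), ((0, 1), (2, 6), 7), ((0, 1), (3, 4), 2), ((0, 1), (3, 5), 3), ((1,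
    0), (0, 1), 6), ((1, 0), (0, 4), 2), ((2, 5), (4, 0), 1), ((2, 5), (4, 3), 0), ((2, 5),
    (4, 7), 3), ((2, 5), (4, 8), 4), ((5, 2), (9, 5), 3), ((5, 2), (9, 8), 4)]
  G := [[0, 0x4517891bc28111184ce7246, 0, 0x5292c245292c28c, 0x3217891da483217891da48c], [0,
    0x11111189def4811111184def246, 0, 0x9252d2e489252d2e84c,
    0x7921f82a83d1feb154687921f821b83d1feb4468c], [0, 0x415819c2d241111849ed28c, 0xc12618a41,
    0x5292c281, 0x8911f21311f8681], [0, 0x11111184def2811111189def48c, 0xe1e1e1e841,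
    0x9252d2e841, 0x8b2e1488b9e128111111e48d]]

noncomputable def n1278 : Ent := ⟨e1278, noF, [], [], [(7, 12, [385753029973011613167317188540585705112827479461471962595831809, 0])]⟩

def c1278 : PLift (Cov.check n1278.C.D v1278 = true) := ⟨by decide +kernel⟩

def b1278 : PLift (entF (fidx ts) 400 1278 n1278 = true) := ⟨by decide +kernel⟩

theorem g1278 : GoodF (fidx ts) 400 1278 := GoodF.ofV v1278 n1278 c1278.down b1278.down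

/-- 466574:1027 -/
noncomputable def e1279 : SCfg where
  D := {
    a := 6
    L := 11
    kp := 8
    inn := [(0, 1), (1, 0), (1, 2), (2, 1), (2, 3), (2, 4), (3, 2), (3, 4), (4, 2), (4, 3), (4, 5), (5,
      4)]
    mix := [(0, 0), (0, 1), (0, 2), (1, 0), (1, 2), (1, 3), (1, 4), (2, 2), (2, 3), (2, 5), (3, 2), (3,
      6), (3, 7), (4, 5), (4, 7), (4, 8), (4, 9), (5, 7), (5, 8), (5, 10)]
    cl := [2, 6, 0, 0, 7, 1, 8, 1, 3, 4, 5]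
    chq := [(0, 2), (2, 0), (4, 5), (5, 4)]
    rng := [(0, 1), (0, 4), (1, 0), (1, 2), (2, 1), (2, 6), (3, 4), (3, 5), (4, 0), (4, 3), (5, 3), (5,
      9), (6, 2), (6, 7), (7, 6), (7, 10), (8, 9), (8, 10), (9, 5), (9, 8), (10, 7), (10, 8)]
    lev := [] }
  links := [[1, 6, 7, 8], [6, 0, 8, 2, 9, 10], [9, 1, 8, 3, 4, 11], [4, 2, 8, 12, 13], [11, 2, 3, 13, 5,
    14, 15], [14, 4, 13, 16]]
  P := {
    a := 6
    N := 17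
    nb := [450, 1861, 2842, 12564, 59436, 90128, 1155, 321, 4239, 3078, 578, 33300, 8456, 69688,
      98352, 18448, 24608]
    tri := [(0, 1, 6), (0, 1, 8), (0, 6, 7), (0, 7, 8), (1, 2, 8), (1, 2, 9), (1, 6, 10), (1, 9, 10),
      (2, 3, 4), (2, 3, 8), (2, 4, 11), (2, 9, 11), (3, 4, 13), (3, 8, 12), (3, 12, 13), (4, 5,
      13), (4, 5, 14), (4, 11, 15), (4, 14, 15), (5, 13, 16), (5, 14, 16)]
    fin := [0, 1, 2, 2, 4, 4, 0, 7, 1, 1, 10, 2, 12, 2, 14, 15, 4]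
    chd := [(0, 1), (15, 4)]
    steps := [(0, 6), (1, 8), (1, 9), (2, 3), (2, 13), (2, 11), (4, 5), (4, 16)] }
  rep := [1, 2, 0, 14, 15, 4, 7, 10, 12]

noncomputable def v1279 : Cov.CovD where
  P := 3
  N := 6
  pl := [1, 4, 6, 8]
  lev := [⟨[], [], [(0, 2)], [6], [(0, 2, [0]), (2, 0, [2])]⟩,
    ⟨[], [(0, 0), (0, 2)], [(0, 0), (0, 2)], [7], [(0, 2, [0]), (2, 0, [2]), (3, 0, [2])]⟩,
    ⟨[(0, 1)], [(0, 0), (1, 0), (1, 1), (1, 2)], [(0, 0), (0, 1)], [], [(2, 0, [2]), (3, 0,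
      [2]), (5, 1, [])]⟩,
    ⟨[(1, 2)], [(0, 0), (1, 0), (2, 0), (2, 1)], [(0, 1)], [8], [(2, 0, [2]), (7, 1, [])]⟩,
    ⟨[(1, 2), (2, 3)], [(2, 0), (2, 1), (2, 4), (3, 0), (3, 1), (3, 4)], [(1, 1), (1, 4)],
      [3], [(5, 1, []), (7, 1, []), (9, 4, [5])]⟩,
    ⟨[(2, 4), (3, 4)], [(3, 1), (4, 1), (4, 4), (4, 5)], [(1, 5)], [3], [(7, 1, []), (10,
      5, [4])]⟩]
  Ta := [((2, 1), 0, 6), ((2, 6), 0, 8), ((3, 4), 0, 7), ((3, 5), 0, 1), ((5, 3), 1, 0), ((5, 9),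
    1, 4), ((7, 6), 1, 8), ((7, 10), 1, 5)]
  Tb := [((0, 1, 4), 2, 6, 7), ((1, 0, 2), 6, 2, 0), ((2, 1, 6), 0, 6, 8), ((3, 4, 5), 0, 7, 1),
    ((4, 0, 3), 7, 2, 0), ((5, 3, 9), 1, 0, 4), ((6, 2, 7), 8, 0, 1), ((7, 6, 10), 1, 8, 5),
    ((8, 9, 10), 3, 4, 5), ((9, 5, 8), 4, 1, 3), ((10, 7, 8), 5, 1, 3)]
  Tc := []
  Td := [((0, 2), (2, 1), 6), ((0, 2), (2, 6), 8), ((0, 2), (3, 4), 7), ((0, 2), (3, 5), 1), ((2,
    0), (0, 1), 6), ((2, 0), (0, 4), 7), ((4, 5), (9, 5), 1), ((4, 5), (9, 8), 3), ((5, 4),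
    (10, 7), 1), ((5, 4), (10, 8), 3)]
  G := [[0, 0, 0x5c924348c123c342c123c384e, 0x59cd2459cd28c59cd2459cd28cc,
    0x59cd2459cd28a9c52582c59cd24aa], [0, 0, 0xc1c159cd82c1c159cd24c1c159cd28e,
    0x59cd59cdc259cd59cdc2c59cd59cdc259cd59cdc2cc,
    0x59cd59cdc294459cd5c9cca9c5459cd58ca9c559cdc588caa], [0, 0x135e1a5ec2a161ca61ce2c1,
    0x9c528382c152c384c123c348e, 0x59cd2459cd28c1, 0x9c52582c59cd24a1], [0, 0,
    0xc1c159cd24c1c159cd42c1c159cd48e, 0x59cd59cdc259cd59cdc2c1, 0x59cd59cdc29c559cdc588ca1]]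

noncomputable def n1279 : Ent := ⟨e1279, noF, [], [], [(6, 16, [1580044410770988437309982408355971841652082177953823432505694330881, 0]), (7, 12, [1685382419726887998779855760127267502807434353888247252031588253697, 0]), (7, 16, [1580044410770988437309982408355971841652082177953823432505694343169, 0]), (16, 10, [1580044410770988437858045522355060435978463990222429564876669050881, 0])]⟩

def c1279 : PLift (Cov.check n1279.C.D v1279 = true) := ⟨by decide +kernel⟩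

def b1279 : PLift (entF (fidx ts) 400 1279 n1279 = true) := ⟨by decide +kernel⟩

theorem g1279 : GoodF (fidx ts) 400 1279 := GoodF.ofV v1279 n1279 c1279.down b1279.down

/-- 466574:1028/2 -/
noncomputable def e1280 : SCfg where
  D := {
    a := 6
    L := 9
    kp := 6
    inn := [(0, 1), (1, 0), (1, 2), (2, 1), (2, 3), (2, 4), (3, 2), (3, 4), (4, 2), (4, 3), (4, 5), (5,
      4)]
    mix := [(0, 0), (0, 1), (0, 2), (1, 0), (1, 2), (1, 3), (1, 4), (2, 2), (2, 3), (2, 5), (3, 1), (3,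
      2), (3, 6), (4, 5), (4, 6), (4, 7), (4, 8), (5, 0), (5, 7), (5, 8)]
    cl := [1, 2, 0, 0, 6, 3, 3, 4, 5]
    chq := [(0, 1), (1, 0), (1, 3), (3, 1)]
    rng := [(0, 1), (0, 4), (0, 7), (0, 8), (1, 0), (1, 2), (1, 6), (2, 1), (3, 4), (3, 5), (4, 0), (4,
      3), (5, 3), (5, 8), (6, 1), (6, 7), (7, 0), (7, 6), (8, 0), (8, 5)]
    lev := [] }
  links := [[1, 6, 7, 8], [6, 0, 8, 2, 9, 10], [9, 1, 8, 3, 4, 11], [4, 2, 8, 7, 12], [11, 2, 3, 12, 13,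
    5, 14], [14, 4, 13, 6]]
  P := {
    a := 6
    N := 15
    nb := [450, 1861, 2842, 4500, 30764, 24656, 25763, 4425, 143, 3078, 578, 16916, 8344, 4208, 2160]
    tri := [(0, 1, 6), (0, 1, 8), (0, 6, 7), (0, 7, 8), (1, 2, 8), (1, 2, 9), (1, 6, 10), (1, 9, 10),
      (2, 3, 4), (2, 3, 8), (2, 4, 11), (2, 9, 11), (3, 4, 12), (3, 7, 8), (3, 7, 12), (4, 5, 13),
      (4, 5, 14), (4, 11, 14), (4, 12, 13), (5, 6, 13), (5, 6, 14)]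
    fin := [0, 0, 2, 3, 4, 0, 0, 3, 2, 2, 10, 4, 4, 13, 14]
    chd := [(0, 2), (0, 4)]
    steps := [(0, 1), (0, 6), (0, 5), (2, 8), (2, 9), (3, 7), (4, 12), (4, 11)] }
  rep := [2, 0, 3, 4, 13, 14, 10]

noncomputable def v1280 : Cov.CovD where
  P := 3
  N := 4
  pl := [1, 4, 7, 8]
  lev := [⟨[], [], [(0, 1)], [2], [(0, 1, [0, 3]), (2, 0, [1])]⟩,
    ⟨[], [(0, 0), (0, 1)], [(0, 0), (0, 1)], [6], [(0, 1, [0, 3]), (2, 0, [1]), (3, 0,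
      [1])]⟩,
    ⟨[(0, 1)], [(0, 0), (1, 0), (1, 1), (1, 3)], [(0, 0), (0, 3)], [], [(2, 0, [1]), (3, 0,
      [1]), (5, 3, [1])]⟩,
    ⟨[(1, 2)], [(0, 0), (1, 0), (2, 0), (2, 3)], [(0, 3)], [2], [(2, 0, [1]), (6, 3, [1])]⟩,
    ⟨[(1, 2), (2, 3)], [(2, 0), (2, 3), (3, 0), (3, 3)], [(3, 3)], [4, 5], [(5, 3, [1]),
      (6, 3, [1])]⟩,
    ⟨[(2, 4), (3, 4)], [(0, 1), (1, 1), (4, 1), (4, 3)], [], [4, 5], [(0, 1, [0, 3])]⟩]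
  Ta := [((2, 1), 0, 2), ((3, 4), 0, 6), ((3, 5), 0, 3), ((5, 3), 3, 0), ((5, 8), 3, 5), ((6, 1),
    3, 2), ((6, 7), 3, 4)]
  Tb := [((0, 1, 4), 1, 2, 6), ((0, 1, 7), 1, 2, 4), ((0, 1, 8), 1, 2, 5), ((0, 4, 7), 1, 6, 4),
    ((0, 4, 8), 1, 6, 5), ((0, 7, 8), 1, 4, 5), ((1, 0, 2), 2, 1, 0), ((1, 0, 6), 2, 1, 3),
    ((1, 2, 6), 2, 0, 3), ((3, 4, 5), 0, 6, 3), ((4, 0, 3), 6, 1, 0), ((5, 3, 8), 3, 0, 5),
    ((6, 1, 7), 3, 2, 4), ((7, 0, 6), 4, 1, 3), ((8, 0, 5), 5, 1, 3)]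
  Tc := [(1, 0, 3)]
  Td := [((0, 1), (2, 1), 2), ((0, 1), (3, 4), 6), ((0, 1), (3, 5), 3), ((1, 0), (0, 1), 2), ((1,
    0), (0, 4), 6), ((1, 0), (0, 7), 4), ((1, 0), (0, 8), 5), ((1, 3), (0, 1), 2), ((1, 3),
    (0, 4), 6), ((1, 3), (0, 7), 4), ((1, 3), (0, 8), 5), ((3, 1), (5, 3), 0), ((3, 1), (5,
    8), 5), ((3, 1), (6, 1), 2), ((3, 1), (6, 7), 4)]
  G := [[0, 0xe142e18264, 0x4158cac2448c1bc2c8, 0xd282d242c4, 0x2481f822481f82c8], [0,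
    0xe1e1c2e1e1c8a8, 0x8ac1f2464c1f28c8, 0xd2d2c2d2d2c2c4, 0x8ac1f2464c1f28c8], [0,
    0xe182e182a4, 0, 0xd242d282c8, 0x3491f823491f82c8], [0, 0xe1e1c861e118d468, 0,
    0xd212d212c8, 0x8ac1f2464c1f28c1]]

noncomputable def n1280 : Ent := ⟨e1280, noF, [], [], []⟩

def c1280 : PLift (Cov.check n1280.C.D v1280 = true) := ⟨by decide +kernel⟩

def b1280 : PLift (entF (fidx ts) 400 1280 n1280 = true) := ⟨by decide +kernel⟩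

theorem g1280 : GoodF (fidx ts) 400 1280 := GoodF.ofV v1280 n1280 c1280.down b1280.down

/-- 466574:1028/1 -/
noncomputable def e1281 : SCfg where
  D := {
    a := 6
    L := 10
    kp := 7
    inn := [(0, 1), (1, 0), (1, 2), (2, 1), (2, 3), (2, 4), (3, 2), (3, 4), (4, 2), (4, 3), (4, 5), (5,
      4)]
    mix := [(0, 0), (0, 1), (0, 2), (1, 0), (1, 2), (1, 3), (1, 4), (2, 2), (2, 3), (2, 5), (3, 2), (3,
      6), (3, 7), (4, 5), (4, 7), (4, 8), (4, 9), (5, 0), (5, 8), (5, 9)]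
    cl := [2, 5, 0, 0, 6, 1, 7, 1, 3, 4]
    chq := [(0, 2), (1, 2), (2, 0), (2, 1)]
    rng := [(0, 1), (0, 4), (0, 8), (0, 9), (1, 0), (1, 2), (2, 1), (2, 6), (3, 4), (3, 5), (4, 0), (4,
      3), (5, 3), (5, 9), (6, 2), (6, 7), (7, 6), (7, 8), (8, 0), (8, 7), (9, 0), (9, 5)]
    lev := [] }
  links := [[1, 6, 7, 8], [6, 0, 8, 2, 9, 10], [9, 1, 8, 3, 4, 11], [4, 2, 8, 12, 13], [11, 2, 3, 13, 14,
    5, 15], [15, 4, 14, 6]]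
  P := {
    a := 6
    N := 16
    nb := [450, 1861, 2842, 12564, 59436, 49232, 50339, 321, 4239, 3078, 578, 33300, 8456, 20504,
      8304, 2160]
    tri := [(0, 1, 6), (0, 1, 8), (0, 6, 7), (0, 7, 8), (1, 2, 8), (1, 2, 9), (1, 6, 10), (1, 9, 10),
      (2, 3, 4), (2, 3, 8), (2, 4, 11), (2, 9, 11), (3, 4, 13), (3, 8, 12), (3, 12, 13), (4, 5,
      14), (4, 5, 15), (4, 11, 15), (4, 13, 14), (5, 6, 14), (5, 6, 15)]
    fin := [0, 0, 2, 2, 4, 0, 0, 7, 2, 2, 10, 4, 12, 4, 14, 15]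
    chd := [(0, 2), (0, 4)]
    steps := [(0, 1), (0, 6), (0, 5), (2, 3), (2, 8), (2, 9), (4, 13), (4, 11)] }
  rep := [2, 4, 0, 14, 15, 7, 10, 12]

noncomputable def v1281 : Cov.CovD where
  P := 3
  N := 5
  pl := [1, 4, 6, 8, 9]
  lev := [⟨[], [], [(0, 2)], [5], [(0, 2, [0, 1]), (2, 0, [2])]⟩,
    ⟨[], [(0, 0), (0, 2)], [(0, 0), (0, 2)], [6], [(0, 2, [0, 1]), (2, 0, [2]), (3, 0,
      [2])]⟩,
    ⟨[(0, 1)], [(0, 0), (1, 0), (1, 1), (1, 2)], [(0, 0), (0, 1)], [], [(2, 0, [2]), (3, 0,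
      [2]), (5, 1, [2])]⟩,
    ⟨[(1, 2)], [(0, 0), (1, 0), (2, 0), (2, 1)], [(0, 1)], [7], [(2, 0, [2]), (7, 1, [2])]⟩,
    ⟨[(1, 2), (2, 3)], [(2, 0), (2, 1), (3, 0), (3, 1)], [(1, 1)], [3, 4], [(5, 1, [2]),
      (7, 1, [2])]⟩,
    ⟨[(2, 4), (3, 4)], [(0, 2), (1, 2), (4, 1), (4, 2)], [], [3, 4], [(0, 2, [0, 1])]⟩]
  Ta := [((2, 1), 0, 5), ((2, 6), 0, 7), ((3, 4), 0, 6), ((3, 5), 0, 1), ((5, 3), 1, 0), ((5, 9),
    1, 4), ((7, 6), 1, 7), ((7, 8), 1, 3)]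
  Tb := [((0, 1, 4), 2, 5, 6), ((0, 1, 8), 2, 5, 3), ((0, 1, 9), 2, 5, 4), ((0, 4, 8), 2, 6, 3),
    ((0, 4, 9), 2, 6, 4), ((0, 8, 9), 2, 3, 4), ((1, 0, 2), 5, 2, 0), ((2, 1, 6), 0, 5, 7),
    ((3, 4, 5), 0, 6, 1), ((4, 0, 3), 6, 2, 0), ((5, 3, 9), 1, 0, 4), ((6, 2, 7), 7, 0, 1),
    ((7, 6, 8), 1, 7, 3), ((8, 0, 7), 3, 2, 1), ((9, 0, 5), 4, 2, 1)]
  Tc := [(2, 0, 1)]
  Td := [((0, 2), (2, 1), 5), ((0, 2), (2, 6), 7), ((0, 2), (3, 4), 6), ((0, 2), (3, 5), 1), ((1,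
    2), (5, 3), 0), ((1, 2), (5, 9), 4), ((1, 2), (7, 6), 7), ((1, 2), (7, 8), 3), ((2, 0),
    (0, 1), 5), ((2, 0), (0, 4), 6), ((2, 0), (0, 8), 3), ((2, 0), (0, 9), 4), ((2, 1), (0,
    1), 5), ((2, 1), (0, 4), 6), ((2, 1), (0, 8), 3), ((2, 1), (0, 9), 4)]
  G := [[0, 0, 0xe1244e1282e1248e, 0x4152882c24428192c2c, 0x821d24821d24a821d24821d24aa], [0, 0,
    0xe1e1c28616188d24e1e1c82e, 0x4152882c24428192c2c,
    0x2a1d821dc22442a1d819cca2a1d821dc22442a1d819ccaa], [0, 0x111e811ec2111e111e68c1,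
    0xe1244e1242e1248e, 0x4152882c21, 0x821d24821d24a1], [0, 0,
    0x212114cd82e1e1c24212181cd28e, 0x4428192c21, 0x2a1d821dc22442a1d819cca1]]

noncomputable def n1281 : Ent := ⟨e1281, noF, [], [], [(7, 12, [385753029973011613167317188540585705112827479461471962595852289, 0])]⟩

def c1281 : PLift (Cov.check n1281.C.D v1281 = true) := ⟨by decide +kernel⟩

def b1281 : PLift (entF (fidx ts) 400 1281 n1281 = true) := ⟨by decide +kernel⟩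

theorem g1281 : GoodF (fidx ts) 400 1281 := GoodF.ofV v1281 n1281 c1281.down b1281.down

/-- 466574:1028/4 -/
noncomputable def e1282 : SCfg where
  D := {
    a := 6
    L := 9
    kp := 6
    inn := [(0, 1), (1, 0), (1, 2), (2, 1), (2, 3), (2, 4), (3, 2), (3, 4), (4, 2), (4, 3), (4, 5), (5,
      4)]
    mix := [(0, 0), (0, 1), (0, 2), (1, 0), (1, 2), (1, 3), (1, 4), (2, 2), (2, 3), (2, 5), (3, 1), (3,
      2), (3, 6), (4, 5), (4, 6), (4, 7), (4, 8), (5, 4), (5, 7), (5, 8)]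
    cl := [5, 1, 0, 2, 0, 4, 3, 6, 3]
    chq := [(1, 2), (1, 4), (2, 1), (4, 1)]
    rng := [(0, 1), (0, 4), (1, 0), (1, 2), (1, 6), (2, 1), (3, 4), (3, 5), (4, 0), (4, 3), (4, 7), (4,
      8), (5, 3), (5, 8), (6, 1), (6, 7), (7, 4), (7, 6), (8, 4), (8, 5)]
    lev := [] }
  links := [[1, 6, 7, 8], [6, 0, 8, 2, 9, 10], [9, 1, 8, 3, 4, 11], [4, 2, 8, 7, 12], [11, 2, 3, 12, 13,
    5, 14], [14, 4, 13, 10]]
  P := {
    a := 6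
    N := 15
    nb := [450, 1861, 2842, 4500, 30764, 25616, 1155, 4425, 143, 3078, 25186, 16916, 8344, 5168, 3120]
    tri := [(0, 1, 6), (0, 1, 8), (0, 6, 7), (0, 7, 8), (1, 2, 8), (1, 2, 9), (1, 6, 10), (1, 9, 10),
      (2, 3, 4), (2, 3, 8), (2, 4, 11), (2, 9, 11), (3, 4, 12), (3, 7, 8), (3, 7, 12), (4, 5, 13),
      (4, 5, 14), (4, 11, 14), (4, 12, 13), (5, 10, 13), (5, 10, 14)]
    fin := [0, 1, 2, 2, 4, 1, 0, 2, 1, 9, 1, 11, 4, 13, 4]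
    chd := [(2, 9), (2, 11)]
    steps := [(0, 6), (1, 8), (1, 10), (1, 5), (2, 3), (2, 7), (4, 12), (4, 14)] }
  rep := [1, 2, 9, 4, 11, 0, 13]

noncomputable def v1282 : Cov.CovD where
  P := 3
  N := 4
  pl := [0, 7]
  lev := [⟨[], [], [(0, 1)], [5], [(1, 1, [2, 4]), (2, 0, [])]⟩,
    ⟨[], [(0, 0), (0, 1), (0, 2)], [(0, 0), (0, 2)], [5], [(2, 0, []), (3, 2, [1]), (4, 0,
      [])]⟩,
    ⟨[(0, 1)], [(0, 0), (1, 0), (1, 2), (1, 4)], [(0, 2), (0, 4), (2, 4)], [], [(2, 0, []),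
      (3, 2, [1]), (5, 4, [1])]⟩,
    ⟨[(1, 2)], [(0, 0), (0, 1), (1, 0), (2, 0), (2, 1), (2, 2), (2, 3), (2, 4)], [(0, 1),
      (0, 3), (1, 3)], [], [(1, 1, [2, 4]), (2, 0, []), (6, 3, [])]⟩,
    ⟨[(1, 2), (2, 3)], [(2, 0), (2, 2), (2, 3), (2, 4), (3, 0), (3, 1), (3, 3), (3, 4)],
      [(3, 3), (3, 4)], [6], [(5, 4, [1]), (6, 3, []), (8, 3, [])]⟩,
    ⟨[(2, 4), (3, 4)], [(1, 0), (4, 0), (4, 3), (4, 4)], [(0, 3)], [6], [(4, 0, []), (8, 3,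
      [])]⟩]
  Ta := [((2, 1), 0, 1), ((4, 0), 0, 5), ((4, 3), 0, 2), ((4, 7), 0, 6), ((4, 8), 0, 3), ((6, 1),
    3, 1), ((6, 7), 3, 6), ((8, 4), 3, 0), ((8, 5), 3, 4)]
  Tb := [((0, 1, 4), 5, 1, 0), ((1, 0, 2), 1, 5, 0), ((1, 0, 6), 1, 5, 3), ((1, 2, 6), 1, 0, 3),
    ((3, 4, 5), 2, 0, 4), ((4, 0, 3), 0, 5, 2), ((4, 0, 7), 0, 5, 6), ((4, 0, 8), 0, 5, 3),
    ((4, 3, 7), 0, 2, 6), ((4, 3, 8), 0, 2, 3), ((4, 7, 8), 0, 6, 3), ((5, 3, 8), 4, 2, 3),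
    ((6, 1, 7), 3, 1, 6), ((7, 4, 6), 6, 0, 3), ((8, 4, 5), 3, 0, 4)]
  Tc := [(1, 2, 4)]
  Td := [((1, 2), (1, 0), 5), ((1, 2), (1, 2), 0), ((1, 2), (1, 6), 3), ((1, 4), (1, 0), 5), ((1,
    4), (1, 2), 0), ((1, 4), (1, 6), 3), ((2, 1), (3, 4), 0), ((2, 1), (3, 5), 4), ((4, 1),
    (5, 3), 2), ((4, 1), (5, 8), 3)]
  G := [[0, 0xc1848c14846148c184ce, 0, 0x81474424b8c82474114b8cc2,
    0x114b1187c281831187c1c98a2c], [0, 0xe1848e1284e148e124ce, 0, 0x12681e98622411ed4ac2,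
    0x811ef428111e4e14a2c], [0, 0, 0xc1a1c2461c1c285, 0x4182341482e3c241442e541229c2c,
    0x418184ced2864ce128541c428b2c], [0, 0, 0xe182e182c1, 0x221448e9ca444588c22242838ca5,
    0x4e588c22838663448588982a4b222488d]]

noncomputable def n1282 : Ent := ⟨e1282, noF, [], [], []⟩

def c1282 : PLift (Cov.check n1282.C.D v1282 = true) := ⟨by decide +kernel⟩

def b1282 : PLift (entF (fidx ts) 400 1282 n1282 = true) := ⟨by decide +kernel⟩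

theorem g1282 : GoodF (fidx ts) 400 1282 := GoodF.ofV v1282 n1282 c1282.down b1282.down

/-- 466574:1028/3 -/
noncomputable def e1283 : SCfg where
  D := {
    a := 6
    L := 10
    kp := 7
    inn := [(0, 1), (1, 0), (1, 2), (2, 1), (2, 3), (2, 4), (3, 2), (3, 4), (4, 2), (4, 3), (4, 5), (5,
      4)]
    mix := [(0, 0), (0, 1), (0, 2), (1, 0), (1, 2), (1, 3), (1, 4), (2, 2), (2, 3), (2, 5), (3, 1), (3,
      2), (3, 6), (4, 5), (4, 6), (4, 7), (4, 8), (5, 7), (5, 8), (5, 9)]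
    cl := [3, 2, 0, 0, 7, 1, 1, 4, 5, 6]
    chq := [(0, 3), (1, 6), (3, 0), (6, 1)]
    rng := [(0, 1), (0, 4), (1, 0), (1, 2), (1, 6), (2, 1), (3, 4), (3, 5), (4, 0), (4, 3), (5, 3), (5,
      8), (6, 1), (6, 7), (7, 6), (7, 9), (8, 5), (8, 9), (9, 7), (9, 8)]
    lev := [] }
  links := [[1, 6, 7, 8], [6, 0, 8, 2, 9, 10], [9, 1, 8, 3, 4, 11], [4, 2, 8, 7, 12], [11, 2, 3, 12, 13,
    5, 14], [14, 4, 13, 15]]
  P := {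
    a := 6
    N := 16
    nb := [450, 1861, 2842, 4500, 30764, 57360, 1155, 4425, 143, 3078, 578, 16916, 8344, 36912, 34864,
      24608]
    tri := [(0, 1, 6), (0, 1, 8), (0, 6, 7), (0, 7, 8), (1, 2, 8), (1, 2, 9), (1, 6, 10), (1, 9, 10),
      (2, 3, 4), (2, 3, 8), (2, 4, 11), (2, 9, 11), (3, 4, 12), (3, 7, 8), (3, 7, 12), (4, 5, 13),
      (4, 5, 14), (4, 11, 14), (4, 12, 13), (5, 13, 15), (5, 14, 15)]
    fin := [0, 1, 2, 2, 4, 4, 0, 2, 1, 1, 10, 4, 4, 13, 14, 15]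
    chd := [(0, 1), (4, 15)]
    steps := [(0, 6), (1, 8), (1, 9), (2, 3), (2, 7), (4, 5), (4, 12), (4, 11)] }
  rep := [1, 4, 2, 0, 13, 14, 15, 10]

noncomputable def v1283 : Cov.CovD where
  P := 3
  N := 5
  pl := [1, 4, 7, 8]
  lev := [⟨[], [], [(0, 3)], [2], [(0, 3, [0]), (2, 0, [3])]⟩,
    ⟨[], [(0, 0), (0, 3)], [(0, 0), (0, 3)], [7], [(0, 3, [0]), (2, 0, [3]), (3, 0, [3])]⟩,
    ⟨[(0, 1)], [(0, 0), (1, 0), (1, 1), (1, 3)], [(0, 0), (0, 1)], [], [(2, 0, [3]), (3, 0,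
      [3]), (5, 1, [6])]⟩,
    ⟨[(1, 2)], [(0, 0), (1, 0), (2, 0), (2, 1)], [(0, 1)], [2], [(2, 0, [3]), (6, 1, [6])]⟩,
    ⟨[(1, 2), (2, 3)], [(2, 0), (2, 1), (3, 0), (3, 1)], [(1, 1)], [4, 5], [(5, 1, [6]),
      (6, 1, [6])]⟩,
    ⟨[(2, 4), (3, 4)], [(4, 1), (4, 6)], [], [4, 5], [(9, 6, [1])]⟩]
  Ta := [((2, 1), 0, 2), ((3, 4), 0, 7), ((3, 5), 0, 1), ((5, 3), 1, 0), ((5, 8), 1, 5), ((6, 1),
    1, 2), ((6, 7), 1, 4)]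
  Tb := [((0, 1, 4), 3, 2, 7), ((1, 0, 2), 2, 3, 0), ((1, 0, 6), 2, 3, 1), ((1, 2, 6), 2, 0, 1),
    ((3, 4, 5), 0, 7, 1), ((4, 0, 3), 7, 3, 0), ((5, 3, 8), 1, 0, 5), ((6, 1, 7), 1, 2, 4),
    ((7, 6, 9), 4, 1, 6), ((8, 5, 9), 5, 1, 6), ((9, 7, 8), 6, 4, 5)]
  Tc := []
  Td := [((0, 3), (2, 1), 2), ((0, 3), (3, 4), 7), ((0, 3), (3, 5), 1), ((1, 6), (5, 3), 0), ((1,
    6), (5, 8), 5), ((1, 6), (6, 1), 2), ((1, 6), (6, 7), 4), ((3, 0), (0, 1), 2), ((3, 0),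
    (0, 4), 7), ((6, 1), (9, 7), 4), ((6, 1), (9, 8), 5)]
  G := [[0, 0, 0xe79246486afd4842ebd282e, 0, 0xe27d242ebd28c2ebd286afd846a], [0, 0,
    0x2ebd8282ebd8246afd482e, 0x222d82222d84a24229c8222d846c,
    0x2ebd822ebd82ceb58288aeb58288c6a], [0, 0x111e484111e82111e84a5, 0, 0,
    0xe27d2482b9e43822ebd284b], [0, 0, 0, 0x222d828222d824222d842d,
    0x275e8948e412b98c22ebd824b]]

noncomputable def n1283 : Ent := ⟨e1283, noF, [], [], [(6, 15, [360035742630636841211993100915356868655746945586763691012915201, 0]), (15, 10, [360035742630637297931254766822518807307257169425207333491843073, 0])]⟩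

def c1283 : PLift (Cov.check n1283.C.D v1283 = true) := ⟨by decide +kernel⟩

def b1283 : PLift (entF (fidx ts) 400 1283 n1283 = true) := ⟨by decide +kernel⟩

theorem g1283 : GoodF (fidx ts) 400 1283 := GoodF.ofV v1283 n1283 c1283.down b1283.down

/-- 466574:1028/5 -/
noncomputable def e1284 : SCfg where
  D := {
    a := 6
    L := 10
    kp := 7
    inn := [(0, 1), (1, 0), (1, 2), (2, 1), (2, 3), (2, 4), (3, 2), (3, 4), (4, 2), (4, 3), (4, 5), (5,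
      4)]
    mix := [(0, 0), (0, 1), (0, 2), (1, 0), (1, 2), (1, 3), (1, 4), (2, 2), (2, 3), (2, 5), (3, 2), (3,
      6), (3, 7), (4, 5), (4, 7), (4, 8), (4, 9), (5, 1), (5, 8), (5, 9)]
    cl := [3, 2, 0, 0, 6, 1, 7, 1, 4, 5]
    chq := [(0, 3), (1, 2), (2, 1), (3, 0)]
    rng := [(0, 1), (0, 4), (1, 0), (1, 2), (1, 8), (1, 9), (2, 1), (2, 6), (3, 4), (3, 5), (4, 0), (4,
      3), (5, 3), (5, 9), (6, 2), (6, 7), (7, 6), (7, 8), (8, 1), (8, 7), (9, 1), (9, 5)]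
    lev := [] }
  links := [[1, 6, 7, 8], [6, 0, 8, 2, 9, 10], [9, 1, 8, 3, 4, 11], [4, 2, 8, 12, 13], [11, 2, 3, 13, 14,
    5, 15], [15, 4, 14, 7]]
  P := {
    a := 6
    N := 16
    nb := [450, 1861, 2842, 12564, 59436, 49296, 1155, 49505, 4239, 3078, 578, 33300, 8456, 20504,
      8368, 2224]
    tri := [(0, 1, 6), (0, 1, 8), (0, 6, 7), (0, 7, 8), (1, 2, 8), (1, 2, 9), (1, 6, 10), (1, 9, 10),
      (2, 3, 4), (2, 3, 8), (2, 4, 11), (2, 9, 11), (3, 4, 13), (3, 8, 12), (3, 12, 13), (4, 5,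
      14), (4, 5, 15), (4, 11, 15), (4, 13, 14), (5, 7, 14), (5, 7, 15)]
    fin := [0, 0, 2, 2, 4, 5, 0, 5, 2, 2, 10, 4, 12, 4, 14, 15]
    chd := [(0, 2), (5, 4)]
    steps := [(0, 1), (0, 6), (2, 3), (2, 8), (2, 9), (4, 13), (4, 11), (5, 7)] }
  rep := [2, 4, 5, 0, 14, 15, 10, 12]

noncomputable def v1284 : Cov.CovD where
  P := 3
  N := 5
  pl := [4, 6, 8, 9]
  lev := [⟨[], [], [(0, 2), (0, 3), (2, 3)], [], [(0, 3, [0]), (1, 2, [1]), (2, 0, [3])]⟩,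
    ⟨[], [(0, 0), (0, 2), (0, 3)], [(0, 0), (0, 3)], [6], [(0, 3, [0]), (2, 0, [3]), (3, 0,
      [3])]⟩,
    ⟨[(0, 1)], [(0, 0), (1, 0), (1, 1), (1, 3)], [(0, 0), (0, 1)], [], [(2, 0, [3]), (3, 0,
      [3]), (5, 1, [2])]⟩,
    ⟨[(1, 2)], [(0, 0), (1, 0), (2, 0), (2, 1)], [(0, 1)], [7], [(2, 0, [3]), (7, 1, [2])]⟩,
    ⟨[(1, 2), (2, 3)], [(2, 0), (2, 1), (3, 0), (3, 1)], [(1, 1)], [4, 5], [(5, 1, [2]),
      (7, 1, [2])]⟩,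
    ⟨[(2, 4), (3, 4)], [(0, 2), (4, 1), (4, 2)], [], [4, 5], [(1, 2, [1])]⟩]
  Ta := [((2, 1), 0, 2), ((2, 6), 0, 7), ((3, 4), 0, 6), ((3, 5), 0, 1), ((5, 3), 1, 0), ((5, 9),
    1, 5), ((7, 6), 1, 7), ((7, 8), 1, 4)]
  Tb := [((0, 1, 4), 3, 2, 6), ((1, 0, 2), 2, 3, 0), ((1, 0, 8), 2, 3, 4), ((1, 0, 9), 2, 3, 5),
    ((1, 2, 8), 2, 0, 4), ((1, 2, 9), 2, 0, 5), ((1, 8, 9), 2, 4, 5), ((2, 1, 6), 0, 2, 7),
    ((3, 4, 5), 0, 6, 1), ((4, 0, 3), 6, 3, 0), ((5, 3, 9), 1, 0, 5), ((6, 2, 7), 7, 0, 1),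
    ((7, 6, 8), 1, 7, 4), ((8, 1, 7), 4, 2, 1), ((9, 1, 5), 5, 2, 1)]
  Tc := []
  Td := [((0, 3), (2, 1), 2), ((0, 3), (2, 6), 7), ((0, 3), (3, 4), 6), ((0, 3), (3, 5), 1), ((1,
    2), (5, 3), 0), ((1, 2), (5, 9), 5), ((1, 2), (7, 6), 7), ((1, 2), (7, 8), 4), ((2, 1),
    (1, 0), 3), ((2, 1), (1, 2), 0), ((2, 1), (1, 8), 4), ((2, 1), (1, 9), 5), ((3, 0), (0,
    1), 2), ((3, 0), (0, 4), 6)]
  G := [[0, 0, 0xe1248e1284e1282e, 0x822d24221d24a222d28821d246c,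
    0x821d242a1d28c2a1d282a1d286a], [0, 0, 0xe1e1c28e1e1c24e1e1c82e,
    0x221d24221d28a242d28222d246c, 0x2a1d821dc22a1d821dc2c2a1d821dc221542a1d88cc6a], [0,
    0x111e111ec2111e1214ce211618111ee8e1, 0, 0x11284c1a11284c1ac221d2823,
    0x821d2482a1d2822152882c4b], [0, 0, 0, 0x81924348241d284221d282d,
    0x111182cd28211183cd422198a4821dc64b]]

noncomputable def n1284 : Ent := ⟨e1284, noF, [], [], []⟩

def c1284 : PLift (Cov.check n1284.C.D v1284 = true) := ⟨by decide +kernel⟩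

def b1284 : PLift (entF (fidx ts) 400 1284 n1284 = true) := ⟨by decide +kernel⟩

theorem g1284 : GoodF (fidx ts) 400 1284 := GoodF.ofV v1284 n1284 c1284.down b1284.down

/-- 466574:1028/6 -/
noncomputable def e1285 : SCfg where
  D := {
    a := 6
    L := 10
    kp := 7
    inn := [(0, 1), (1, 0), (1, 2), (2, 1), (2, 3), (2, 4), (3, 2), (3, 4), (4, 2), (4, 3), (4, 5), (5,
      4)]
    mix := [(0, 0), (0, 1), (0, 2), (1, 0), (1, 2), (1, 3), (1, 4), (2, 2), (2, 3), (2, 5), (3, 2), (3,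
      6), (3, 7), (4, 5), (4, 7), (4, 8), (4, 9), (5, 4), (5, 8), (5, 9)]
    cl := [1, 6, 0, 0, 2, 3, 7, 3, 4, 5]
    chq := [(0, 1), (1, 0), (2, 3), (3, 2)]
    rng := [(0, 1), (0, 4), (1, 0), (1, 2), (2, 1), (2, 6), (3, 4), (3, 5), (4, 0), (4, 3), (4, 8), (4,
      9), (5, 3), (5, 9), (6, 2), (6, 7), (7, 6), (7, 8), (8, 4), (8, 7), (9, 4), (9, 5)]
    lev := [] }
  links := [[1, 6, 7, 8], [6, 0, 8, 2, 9, 10], [9, 1, 8, 3, 4, 11], [4, 2, 8, 12, 13], [11, 2, 3, 13, 14,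
    5, 15], [15, 4, 14, 10]]
  P := {
    a := 6
    N := 16
    nb := [450, 1861, 2842, 12564, 59436, 50192, 1155, 321, 4239, 3078, 49762, 33300, 8456, 20504,
      9264, 3120]
    tri := [(0, 1, 6), (0, 1, 8), (0, 6, 7), (0, 7, 8), (1, 2, 8), (1, 2, 9), (1, 6, 10), (1, 9, 10),
      (2, 3, 4), (2, 3, 8), (2, 4, 11), (2, 9, 11), (3, 4, 13), (3, 8, 12), (3, 12, 13), (4, 5,
      14), (4, 5, 15), (4, 11, 15), (4, 13, 14), (5, 10, 14), (5, 10, 15)]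
    fin := [0, 0, 2, 2, 4, 4, 0, 7, 2, 2, 10, 4, 12, 4, 14, 15]
    chd := [(0, 2), (10, 4)]
    steps := [(0, 1), (0, 6), (2, 3), (2, 8), (2, 9), (4, 5), (4, 13), (4, 11)] }
  rep := [2, 0, 10, 4, 14, 15, 7, 12]

noncomputable def v1285 : Cov.CovD where
  P := 3
  N := 5
  pl := [1, 6, 8, 9]
  lev := [⟨[], [], [(0, 1)], [6], [(0, 1, [0]), (2, 0, [1])]⟩,
    ⟨[], [(0, 0), (0, 1), (0, 2)], [(0, 0), (0, 1), (0, 2), (1, 2)], [], [(0, 1, [0]), (2,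
      0, [1]), (3, 0, [1]), (4, 2, [3])]⟩,
    ⟨[(0, 1)], [(0, 0), (1, 0), (1, 1), (1, 2), (1, 3)], [(0, 0), (0, 3)], [], [(2, 0,
      [1]), (3, 0, [1]), (5, 3, [2])]⟩,
    ⟨[(1, 2)], [(0, 0), (1, 0), (2, 0), (2, 3)], [(0, 3)], [7], [(2, 0, [1]), (7, 3, [2])]⟩,
    ⟨[(1, 2), (2, 3)], [(2, 0), (2, 3), (3, 0), (3, 3)], [(3, 3)], [4, 5], [(5, 3, [2]),
      (7, 3, [2])]⟩,
    ⟨[(2, 4), (3, 4)], [(1, 2), (4, 2), (4, 3)], [], [4, 5], [(4, 2, [3])]⟩]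
  Ta := [((2, 1), 0, 6), ((2, 6), 0, 7), ((3, 4), 0, 2), ((3, 5), 0, 3), ((5, 3), 3, 0), ((5, 9),
    3, 5), ((7, 6), 3, 7), ((7, 8), 3, 4)]
  Tb := [((0, 1, 4), 1, 6, 2), ((1, 0, 2), 6, 1, 0), ((2, 1, 6), 0, 6, 7), ((3, 4, 5), 0, 2, 3),
    ((4, 0, 3), 2, 1, 0), ((4, 0, 8), 2, 1, 4), ((4, 0, 9), 2, 1, 5), ((4, 3, 8), 2, 0, 4),
    ((4, 3, 9), 2, 0, 5), ((4, 8, 9), 2, 4, 5), ((5, 3, 9), 3, 0, 5), ((6, 2, 7), 7, 0, 3),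
    ((7, 6, 8), 3, 7, 4), ((8, 4, 7), 4, 2, 3), ((9, 4, 5), 5, 2, 3)]
  Tc := []
  Td := [((0, 1), (2, 1), 6), ((0, 1), (2, 6), 7), ((0, 1), (3, 4), 2), ((0, 1), (3, 5), 3), ((1,
    0), (0, 1), 6), ((1, 0), (0, 4), 2), ((2, 3), (4, 0), 1), ((2, 3), (4, 3), 0), ((2, 3),
    (4, 8), 4), ((2, 3), (4, 9), 5), ((3, 2), (5, 3), 0), ((3, 2), (5, 9), 5), ((3, 2), (7,
    6), 7), ((3, 2), (7, 8), 4)]
  G := [[0, 0x111184ced28111184ced24c, 0, 0xd2d2c28d2d2c24c, 0x4821f8241fa484821f8241fa48c], [0,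
    0x11111164cef841111a1184ce568a, 0, 0xd2d2d2e84d2d2d2e84c,
    0x8222a1d8ac1fa15e688222a1d8ac1fa15e68c], [0, 0x111184ced28111184ced28c, 0xe14e18c41,
    0xd2d2c281, 0x5921f8351fa481], [0, 0x11111184cef24111161184ce968a, 0xe1e1e1e481,
    0xd2d2d2e841, 0x8222a1d8ac1fa15e681]]

noncomputable def n1285 : Ent := ⟨e1285, noF, [], [], [(7, 12, [385753029973011613167317188540585705112827479461471962595860481, 0])]⟩

def c1285 : PLift (Cov.check n1285.C.D v1285 = true) := ⟨by decide +kernel⟩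

def b1285 : PLift (entF (fidx ts) 400 1285 n1285 = true) := ⟨by decide +kernel⟩

theorem g1285 : GoodF (fidx ts) 400 1285 := GoodF.ofV v1285 n1285 c1285.down b1285.down

/-- 466574:1028 -/
noncomputable def e1286 : SCfg where
  D := {
    a := 6
    L := 11
    kp := 8
    inn := [(0, 1), (1, 0), (1, 2), (2, 1), (2, 3), (2, 4), (3, 2), (3, 4), (4, 2), (4, 3), (4, 5), (5,
      4)]
    mix := [(0, 0), (0, 1), (0, 2), (1, 0), (1, 2), (1, 3), (1, 4), (2, 2), (2, 3), (2, 5), (3, 2), (3,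
      6), (3, 7), (4, 5), (4, 7), (4, 8), (4, 9), (5, 8), (5, 9), (5, 10)]
    cl := [2, 6, 0, 0, 7, 1, 8, 1, 3, 4, 5]
    chq := [(0, 2), (1, 5), (2, 0), (5, 1)]
    rng := [(0, 1), (0, 4), (1, 0), (1, 2), (2, 1), (2, 6), (3, 4), (3, 5), (4, 0), (4, 3), (5, 3), (5,
      9), (6, 2), (6, 7), (7, 6), (7, 8), (8, 7), (8, 10), (9, 5), (9, 10), (10, 8), (10, 9)]
    lev := [] }
  links := [[1, 6, 7, 8], [6, 0, 8, 2, 9, 10], [9, 1, 8, 3, 4, 11], [4, 2, 8, 12, 13], [11, 2, 3, 13, 14,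
    5, 15], [15, 4, 14, 16]]
  P := {
    a := 6
    N := 17
    nb := [450, 1861, 2842, 12564, 59436, 114704, 1155, 321, 4239, 3078, 578, 33300, 8456, 20504,
      73776, 67632, 49184]
    tri := [(0, 1, 6), (0, 1, 8), (0, 6, 7), (0, 7, 8), (1, 2, 8), (1, 2, 9), (1, 6, 10), (1, 9, 10),
      (2, 3, 4), (2, 3, 8), (2, 4, 11), (2, 9, 11), (3, 4, 13), (3, 8, 12), (3, 12, 13), (4, 5,
      14), (4, 5, 15), (4, 11, 15), (4, 13, 14), (5, 14, 16), (5, 15, 16)]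
    fin := [0, 0, 2, 2, 4, 4, 0, 7, 2, 2, 10, 4, 12, 4, 14, 15, 16]
    chd := [(0, 2), (4, 16)]
    steps := [(0, 1), (0, 6), (2, 3), (2, 8), (2, 9), (4, 5), (4, 13), (4, 11)] }
  rep := [2, 4, 0, 14, 15, 16, 7, 10, 12]

noncomputable def v1286 : Cov.CovD where
  P := 3
  N := 6
  pl := [1, 4, 6, 8, 9]
  lev := [⟨[], [], [(0, 2)], [6], [(0, 2, [0]), (2, 0, [2])]⟩,
    ⟨[], [(0, 0), (0, 2)], [(0, 0), (0, 2)], [7], [(0, 2, [0]), (2, 0, [2]), (3, 0, [2])]⟩,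
    ⟨[(0, 1)], [(0, 0), (1, 0), (1, 1), (1, 2)], [(0, 0), (0, 1)], [], [(2, 0, [2]), (3, 0,
      [2]), (5, 1, [5])]⟩,
    ⟨[(1, 2)], [(0, 0), (1, 0), (2, 0), (2, 1)], [(0, 1)], [8], [(2, 0, [2]), (7, 1, [5])]⟩,
    ⟨[(1, 2), (2, 3)], [(2, 0), (2, 1), (3, 0), (3, 1)], [(1, 1)], [3, 4], [(5, 1, [5]),
      (7, 1, [5])]⟩,
    ⟨[(2, 4), (3, 4)], [(4, 1), (4, 5)], [], [3, 4], [(10, 5, [1])]⟩]
  Ta := [((2, 1), 0, 6), ((2, 6), 0, 8), ((3, 4), 0, 7), ((3, 5), 0, 1), ((5, 3), 1, 0), ((5, 9),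
    1, 4), ((7, 6), 1, 8), ((7, 8), 1, 3)]
  Tb := [((0, 1, 4), 2, 6, 7), ((1, 0, 2), 6, 2, 0), ((2, 1, 6), 0, 6, 8), ((3, 4, 5), 0, 7, 1),
    ((4, 0, 3), 7, 2, 0), ((5, 3, 9), 1, 0, 4), ((6, 2, 7), 8, 0, 1), ((7, 6, 8), 1, 8, 3),
    ((8, 7, 10), 3, 1, 5), ((9, 5, 10), 4, 1, 5), ((10, 8, 9), 5, 3, 4)]
  Tc := []
  Td := [((0, 2), (2, 1), 6), ((0, 2), (2, 6), 8), ((0, 2), (3, 4), 7), ((0, 2), (3, 5), 1), ((1,
    5), (5, 3), 0), ((1, 5), (5, 9), 4), ((1, 5), (7, 6), 8), ((1, 5), (7, 8), 3), ((2, 0),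
    (0, 1), 6), ((2, 0), (0, 4), 7), ((5, 1), (10, 8), 3), ((5, 1), (10, 9), 4)]
  G := [[0, 0, 0x2ebd282e27d248642a392c4e, 0xe27d24642a392cce27d242ebd28cc,
    0xe27d24e27d24ae27d242ebd28aa], [0, 0, 0x313164da81c46161f3cd423131a6cd28e,
    0xb182ece27dc62ebde27dc2c2ebde27dc22ebde27dc2cc,
    0x2ebde27dc227546afde8cca2ebde27dc22446afde79ccaa], [0, 0x111e111ea4111e111ec2c1,
    0xe27d2482ebd28471e2c342e, 0xe27d242ebd28c1, 0xe27d242ebd28a1], [0, 0,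
    0x7171e2cd423131a6cd28b1b12ecd84e, 0x2ebde27dc22ebde27dc2c1,
    0x6afd8e27d462446afde79cca1]]

noncomputable def n1286 : Ent := ⟨e1286, noF, [], [], [(6, 16, [1580044410770988437309982408355971841652082177953823432505694359553, 0]), (7, 12, [1685382419726887998779855760127267502807434353888247252031588282369, 0]), (7, 16, [1580044410770988437309982408355971841652082177953823432505694371841, 0]), (16, 10, [1580044410770988437858045522355060435978463990222429564876669079553, 0])]⟩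

def c1286 : PLift (Cov.check n1286.C.D v1286 = true) := ⟨by decide +kernel⟩

def b1286 : PLift (entF (fidx ts) 400 1286 n1286 = true) := ⟨by decide +kernel⟩

theorem g1286 : GoodF (fidx ts) 400 1286 := GoodF.ofV v1286 n1286 c1286.down b1286.down

/-- 466574:1029/2 -/
noncomputable def e1287 : SCfg where
  D := {
    a := 6
    L := 9
    kp := 6
    inn := [(0, 1), (1, 0), (1, 2), (2, 1), (2, 3), (2, 4), (3, 2), (3, 4), (4, 2), (4, 3), (4, 5), (5,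
      4)]
    mix := [(0, 0), (0, 1), (0, 2), (1, 0), (1, 2), (1, 3), (1, 4), (2, 2), (2, 3), (2, 5), (3, 1), (3,
      2), (3, 6), (4, 5), (4, 6), (4, 7), (4, 8), (5, 4), (5, 5), (5, 8)]
    cl := [3, 2, 0, 0, 5, 1, 1, 6, 4]
    chq := [(0, 3), (1, 4), (3, 0), (4, 1)]
    rng := [(0, 1), (0, 4), (1, 0), (1, 2), (1, 6), (2, 1), (3, 4), (3, 5), (4, 0), (4, 3), (4, 5), (4,
      8), (5, 3), (5, 4), (6, 1), (6, 7), (7, 6), (7, 8), (8, 4), (8, 7)]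
    lev := [] }
  links := [[1, 6, 7, 8], [6, 0, 8, 2, 9, 10], [9, 1, 8, 3, 4, 11], [4, 2, 8, 7, 12], [11, 2, 3, 12, 13,
    14, 5], [11, 4, 14, 10]]
  P := {
    a := 6
    N := 15
    nb := [450, 1861, 2842, 4500, 30764, 19472, 1155, 4425, 143, 3078, 19042, 1588, 8344, 20496, 9264]
    tri := [(0, 1, 6), (0, 1, 8), (0, 6, 7), (0, 7, 8), (1, 2, 8), (1, 2, 9), (1, 6, 10), (1, 9, 10),
      (2, 3, 4), (2, 3, 8), (2, 4, 11), (2, 9, 11), (3, 4, 12), (3, 7, 8), (3, 7, 12), (4, 5, 11),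
      (4, 5, 14), (4, 12, 13), (4, 13, 14), (5, 10, 11), (5, 10, 14)]
    fin := [0, 0, 2, 3, 4, 4, 0, 3, 2, 2, 10, 4, 4, 13, 14]
    chd := [(0, 2), (4, 14)]
    steps := [(0, 1), (0, 6), (2, 8), (2, 9), (3, 7), (4, 5), (4, 12), (4, 11)] }
  rep := [2, 4, 3, 0, 14, 10, 13]

noncomputable def v1287 : Cov.CovD where
  P := 3
  N := 4
  pl := [1, 4, 7]
  lev := [⟨[], [], [(0, 3)], [2], [(0, 3, [0]), (2, 0, [3])]⟩,
    ⟨[], [(0, 0), (0, 3)], [(0, 0), (0, 3)], [5], [(0, 3, [0]), (2, 0, [3]), (3, 0, [3])]⟩,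
    ⟨[(0, 1)], [(0, 0), (1, 0), (1, 1), (1, 3)], [(0, 0), (0, 1)], [], [(2, 0, [3]), (3, 0,
      [3]), (5, 1, [4])]⟩,
    ⟨[(1, 2)], [(0, 0), (1, 0), (2, 0), (2, 1)], [(0, 1)], [2], [(2, 0, [3]), (6, 1, [4])]⟩,
    ⟨[(1, 2), (2, 3)], [(2, 0), (2, 1), (2, 4), (3, 0), (3, 1), (3, 4)], [(1, 1), (1, 4)],
      [6], [(5, 1, [4]), (6, 1, [4]), (8, 4, [1])]⟩,
    ⟨[(2, 4), (3, 4)], [(2, 1), (4, 1), (4, 4)], [(1, 4)], [5], [(5, 1, [4]), (8, 4, [1])]⟩]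
  Ta := [((2, 1), 0, 2), ((3, 4), 0, 5), ((3, 5), 0, 1), ((5, 3), 1, 0), ((5, 4), 1, 5), ((6, 1),
    1, 2), ((6, 7), 1, 6)]
  Tb := [((0, 1, 4), 3, 2, 5), ((1, 0, 2), 2, 3, 0), ((1, 0, 6), 2, 3, 1), ((1, 2, 6), 2, 0, 1),
    ((3, 4, 5), 0, 5, 1), ((4, 0, 3), 5, 3, 0), ((4, 0, 5), 5, 3, 1), ((4, 0, 8), 5, 3, 4),
    ((4, 3, 5), 5, 0, 1), ((4, 3, 8), 5, 0, 4), ((4, 5, 8), 5, 1, 4), ((5, 3, 4), 1, 0, 5),
    ((6, 1, 7), 1, 2, 6), ((7, 6, 8), 6, 1, 4), ((8, 4, 7), 4, 5, 6)]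
  Tc := []
  Td := [((0, 3), (2, 1), 2), ((0, 3), (3, 4), 5), ((0, 3), (3, 5), 1), ((1, 4), (5, 3), 0), ((1,
    4), (5, 4), 5), ((1, 4), (6, 1), 2), ((1, 4), (6, 7), 6), ((3, 0), (0, 1), 2), ((3, 0),
    (0, 4), 5), ((4, 1), (8, 4), 5), ((4, 1), (8, 7), 6)]
  G := [[0, 0, 0x81994648541d2841d1d2c82c2e, 0, 0x891d244485192cc541d28442d91d2c6a], [0, 0,
    0x891d42621d48c231d4826, 0x21528c82222d482c, 0x291d8421984486c321d842a], [0,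
    0xa48eac44862284c6e8cae268e84ae1, 0, 0, 0x895d2441558a8a54dd28899d2469], [0, 0, 0,
    0x2122c542222d4825, 0x9d58892541d82c6a3d842a]]

noncomputable def n1287 : Ent := ⟨e1287, noF, [], [], []⟩

def c1287 : PLift (Cov.check n1287.C.D v1287 = true) := ⟨by decide +kernel⟩

def b1287 : PLift (entF (fidx ts) 400 1287 n1287 = true) := ⟨by decide +kernel⟩

theorem g1287 : GoodF (fidx ts) 400 1287 := GoodF.ofV v1287 n1287 c1287.down b1287.down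

/-- 466574:1029/1 -/
noncomputable def e1288 : SCfg where
  D := {
    a := 6
    L := 10
    kp := 7
    inn := [(0, 1), (1, 0), (1, 2), (2, 1), (2, 3), (2, 4), (3, 2), (3, 4), (4, 2), (4, 3), (4, 5), (5,
      4)]
    mix := [(0, 0), (0, 1), (0, 2), (1, 0), (1, 2), (1, 3), (1, 4), (2, 2), (2, 3), (2, 5), (3, 1), (3,
      2), (3, 6), (4, 5), (4, 6), (4, 7), (4, 8), (5, 5), (5, 8), (5, 9)]
    cl := [3, 2, 0, 0, 7, 1, 1, 5, 4, 6]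
    chq := [(0, 3), (3, 0), (5, 6), (6, 5)]
    rng := [(0, 1), (0, 4), (1, 0), (1, 2), (1, 6), (2, 1), (3, 4), (3, 5), (4, 0), (4, 3), (5, 3), (5,
      9), (6, 1), (6, 7), (7, 6), (7, 8), (8, 7), (8, 9), (9, 5), (9, 8)]
    lev := [] }
  links := [[1, 6, 7, 8], [6, 0, 8, 2, 9, 10], [9, 1, 8, 3, 4, 11], [4, 2, 8, 7, 12], [11, 2, 3, 12, 13,
    14, 5], [11, 4, 14, 15]]
  P := {
    a := 6
    N := 16
    nb := [450, 1861, 2842, 4500, 30764, 51216, 1155, 4425, 143, 3078, 578, 33332, 8344, 20496, 41008,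
      18464]
    tri := [(0, 1, 6), (0, 1, 8), (0, 6, 7), (0, 7, 8), (1, 2, 8), (1, 2, 9), (1, 6, 10), (1, 9, 10),
      (2, 3, 4), (2, 3, 8), (2, 4, 11), (2, 9, 11), (3, 4, 12), (3, 7, 8), (3, 7, 12), (4, 5, 11),
      (4, 5, 14), (4, 12, 13), (4, 13, 14), (5, 11, 15), (5, 14, 15)]
    fin := [0, 1, 2, 2, 4, 4, 0, 7, 1, 1, 10, 2, 2, 4, 14, 15]
    chd := [(0, 1), (4, 15)]
    steps := [(0, 6), (1, 8), (1, 9), (2, 3), (2, 12), (2, 11), (4, 5), (4, 13)] }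
  rep := [1, 2, 7, 0, 14, 4, 15, 10]

noncomputable def v1288 : Cov.CovD where
  P := 3
  N := 5
  pl := [1, 4, 8]
  lev := [⟨[], [], [(0, 3)], [2], [(0, 3, [0]), (2, 0, [3])]⟩,
    ⟨[], [(0, 0), (0, 3)], [(0, 0), (0, 3)], [7], [(0, 3, [0]), (2, 0, [3]), (3, 0, [3])]⟩,
    ⟨[(0, 1)], [(0, 0), (1, 0), (1, 1), (1, 3)], [(0, 0), (0, 1)], [], [(2, 0, [3]), (3, 0,
      [3]), (5, 1, [])]⟩,
    ⟨[(1, 2)], [(0, 0), (1, 0), (2, 0), (2, 1)], [(0, 1)], [2], [(2, 0, [3]), (6, 1, [])]⟩,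
    ⟨[(1, 2), (2, 3)], [(2, 0), (2, 1), (2, 5), (3, 0), (3, 1), (3, 5)], [(1, 1), (1, 5)],
      [4], [(5, 1, []), (6, 1, []), (7, 5, [6])]⟩,
    ⟨[(2, 4), (3, 4)], [(2, 1), (4, 1), (4, 5), (4, 6)], [(1, 6)], [4], [(5, 1, []), (9, 6,
      [5])]⟩]
  Ta := [((2, 1), 0, 2), ((3, 4), 0, 7), ((3, 5), 0, 1), ((5, 3), 1, 0), ((5, 9), 1, 6), ((6, 1),
    1, 2), ((6, 7), 1, 5)]
  Tb := [((0, 1, 4), 3, 2, 7), ((1, 0, 2), 2, 3, 0), ((1, 0, 6), 2, 3, 1), ((1, 2, 6), 2, 0, 1),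
    ((3, 4, 5), 0, 7, 1), ((4, 0, 3), 7, 3, 0), ((5, 3, 9), 1, 0, 6), ((6, 1, 7), 1, 2, 5),
    ((7, 6, 8), 5, 1, 4), ((8, 7, 9), 4, 5, 6), ((9, 5, 8), 6, 1, 4)]
  Tc := []
  Td := [((0, 3), (2, 1), 2), ((0, 3), (3, 4), 7), ((0, 3), (3, 5), 1), ((3, 0), (0, 1), 2), ((3,
    0), (0, 4), 7), ((5, 6), (7, 6), 1), ((5, 6), (7, 8), 4), ((6, 5), (9, 5), 1), ((6, 5),
    (9, 8), 4)]
  G := [[0, 0, 0x59cd24859cd484945c9c42e, 0, 0x59cd849485c92cc59cd2859cd246a], [0, 0,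
    0x5a2d848236d48494529c42e, 0x94629c42a558c4a32ad48692d846c,
    0x5a2d842485a98cca258688c692d846a], [0, 0xac668c46ace486ace84e1, 0, 0,
    0x59cd84859cd2829c558a84b], [0, 0, 0, 0x245a9c489c5289845a2d842d,
    0xa132c948236d8422485a98c4b]]

noncomputable def n1288 : Ent := ⟨e1288, noF, [], [], [(15, 10, [360035742630637297931254766822518807307257169425207333491863553, 0])]⟩

def c1288 : PLift (Cov.check n1288.C.D v1288 = true) := ⟨by decide +kernel⟩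

def b1288 : PLift (entF (fidx ts) 400 1288 n1288 = true) := ⟨by decide +kernel⟩

theorem g1288 : GoodF (fidx ts) 400 1288 := GoodF.ofV v1288 n1288 c1288.down b1288.down

/-- 466574:1029/3 -/
noncomputable def e1289 : SCfg where
  D := {
    a := 6
    L := 10
    kp := 7
    inn := [(0, 1), (1, 0), (1, 2), (2, 1), (2, 3), (2, 4), (3, 2), (3, 4), (4, 2), (4, 3), (4, 5), (5,
      4)]
    mix := [(0, 0), (0, 1), (0, 2), (1, 0), (1, 2), (1, 3), (1, 4), (2, 2), (2, 3), (2, 5), (3, 2), (3,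
      6), (3, 7), (4, 5), (4, 7), (4, 8), (4, 9), (5, 4), (5, 5), (5, 9)]
    cl := [3, 5, 0, 0, 2, 1, 6, 1, 7, 4]
    chq := [(0, 3), (1, 4), (3, 0), (4, 1)]
    rng := [(0, 1), (0, 4), (1, 0), (1, 2), (2, 1), (2, 6), (3, 4), (3, 5), (4, 0), (4, 3), (4, 5), (4,
      9), (5, 3), (5, 4), (6, 2), (6, 7), (7, 6), (7, 8), (8, 7), (8, 9), (9, 4), (9, 8)]
    lev := [] }
  links := [[1, 6, 7, 8], [6, 0, 8, 2, 9, 10], [9, 1, 8, 3, 4, 11], [4, 2, 8, 12, 13], [11, 2, 3, 13, 14,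
    15, 5], [11, 4, 15, 10]]
  P := {
    a := 6
    N := 16
    nb := [450, 1861, 2842, 12564, 59436, 35856, 1155, 321, 4239, 3078, 35426, 1588, 8456, 20504,
      40976, 17456]
    tri := [(0, 1, 6), (0, 1, 8), (0, 6, 7), (0, 7, 8), (1, 2, 8), (1, 2, 9), (1, 6, 10), (1, 9, 10),
      (2, 3, 4), (2, 3, 8), (2, 4, 11), (2, 9, 11), (3, 4, 13), (3, 8, 12), (3, 12, 13), (4, 5,
      11), (4, 5, 15), (4, 13, 14), (4, 14, 15), (5, 10, 11), (5, 10, 15)]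
    fin := [0, 0, 2, 2, 4, 4, 0, 7, 2, 2, 10, 4, 12, 4, 14, 15]
    chd := [(0, 2), (4, 15)]
    steps := [(0, 1), (0, 6), (2, 3), (2, 8), (2, 9), (4, 5), (4, 13), (4, 11)] }
  rep := [2, 4, 10, 0, 15, 7, 12, 14]

noncomputable def v1289 : Cov.CovD where
  P := 3
  N := 5
  pl := [1, 4, 6, 8]
  lev := [⟨[], [], [(0, 3)], [5], [(0, 3, [0]), (2, 0, [3])]⟩,
    ⟨[], [(0, 0), (0, 3)], [(0, 0), (0, 3)], [2], [(0, 3, [0]), (2, 0, [3]), (3, 0, [3])]⟩,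
    ⟨[(0, 1)], [(0, 0), (1, 0), (1, 1), (1, 3)], [(0, 0), (0, 1)], [], [(2, 0, [3]), (3, 0,
      [3]), (5, 1, [4])]⟩,
    ⟨[(1, 2)], [(0, 0), (1, 0), (2, 0), (2, 1)], [(0, 1)], [6], [(2, 0, [3]), (7, 1, [4])]⟩,
    ⟨[(1, 2), (2, 3)], [(2, 0), (2, 1), (2, 4), (3, 0), (3, 1), (3, 4)], [(1, 1), (1, 4)],
      [7], [(5, 1, [4]), (7, 1, [4]), (9, 4, [1])]⟩,
    ⟨[(2, 4), (3, 4)], [(2, 1), (4, 1), (4, 4)], [(1, 4)], [2], [(5, 1, [4]), (9, 4, [1])]⟩]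
  Ta := [((2, 1), 0, 5), ((2, 6), 0, 6), ((3, 4), 0, 2), ((3, 5), 0, 1), ((5, 3), 1, 0), ((5, 4),
    1, 2), ((7, 6), 1, 6), ((7, 8), 1, 7)]
  Tb := [((0, 1, 4), 3, 5, 2), ((1, 0, 2), 5, 3, 0), ((2, 1, 6), 0, 5, 6), ((3, 4, 5), 0, 2, 1),
    ((4, 0, 3), 2, 3, 0), ((4, 0, 5), 2, 3, 1), ((4, 0, 9), 2, 3, 4), ((4, 3, 5), 2, 0, 1),
    ((4, 3, 9), 2, 0, 4), ((4, 5, 9), 2, 1, 4), ((5, 3, 4), 1, 0, 2), ((6, 2, 7), 6, 0, 1),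
    ((7, 6, 8), 1, 6, 7), ((8, 7, 9), 7, 1, 4), ((9, 4, 8), 4, 2, 7)]
  Tc := []
  Td := [((0, 3), (2, 1), 5), ((0, 3), (2, 6), 6), ((0, 3), (3, 4), 2), ((0, 3), (3, 5), 1), ((1,
    4), (5, 3), 0), ((1, 4), (5, 4), 2), ((1, 4), (7, 6), 6), ((1, 4), (7, 8), 7), ((3, 0),
    (0, 1), 5), ((3, 0), (0, 4), 2), ((4, 1), (9, 4), 2), ((4, 1), (9, 8), 7)]
  G := [[0, 0, 0, 0x891d248541d2844428192c4428192cce, 0x891d2489152882c891d24a891d242e], [0, 0,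
    0, 0, 0x321d88c9154682442a1d819cca15321dc288ca91542a1d88cc2e], [0,
    0x4c68ca84ce2444c6a8ca886ac1, 0x4428c92c4c52882c61, 0x891d248541d2841189c344418192cce,
    0x9152881c21189c3429152882c87], [0, 0, 0x42524c6888c94e2442acd869cc61, 0,
    0x111182cd4821118acd48244321d819cc2d]]

noncomputable def n1289 : Ent := ⟨e1289, noF, [], [], [(7, 12, [385753029973011613167317188540585705112827479461471962595880961, 0])]⟩

def c1289 : PLift (Cov.check n1289.C.D v1289 = true) := ⟨by decide +kernel⟩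

def b1289 : PLift (entF (fidx ts) 400 1289 n1289 = true) := ⟨by decide +kernel⟩

theorem g1289 : GoodF (fidx ts) 400 1289 := GoodF.ofV v1289 n1289 c1289.down b1289.down

/-- 466574:1029 -/
noncomputable def e1290 : SCfg where
  D := {
    a := 6
    L := 11
    kp := 8
    inn := [(0, 1), (1, 0), (1, 2), (2, 1), (2, 3), (2, 4), (3, 2), (3, 4), (4, 2), (4, 3), (4, 5), (5,
      4)]
    mix := [(0, 0), (0, 1), (0, 2), (1, 0), (1, 2), (1, 3), (1, 4), (2, 2), (2, 3), (2, 5), (3, 2), (3,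
      6), (3, 7), (4, 5), (4, 7), (4, 8), (4, 9), (5, 5), (5, 9), (5, 10)]
    cl := [2, 6, 0, 0, 7, 1, 8, 1, 4, 3, 5]
    chq := [(0, 2), (2, 0), (4, 5), (5, 4)]
    rng := [(0, 1), (0, 4), (1, 0), (1, 2), (2, 1), (2, 6), (3, 4), (3, 5), (4, 0), (4, 3), (5, 3), (5,
      10), (6, 2), (6, 7), (7, 6), (7, 8), (8, 7), (8, 9), (9, 8), (9, 10), (10, 5), (10, 9)]
    lev := [] }
  links := [[1, 6, 7, 8], [6, 0, 8, 2, 9, 10], [9, 1, 8, 3, 4, 11], [4, 2, 8, 12, 13], [11, 2, 3, 13, 14,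
    15, 5], [11, 4, 15, 16]]
  P := {
    a := 6
    N := 17
    nb := [450, 1861, 2842, 12564, 59436, 100368, 1155, 321, 4239, 3078, 578, 66100, 8456, 20504,
      40976, 81968, 34848]
    tri := [(0, 1, 6), (0, 1, 8), (0, 6, 7), (0, 7, 8), (1, 2, 8), (1, 2, 9), (1, 6, 10), (1, 9, 10),
      (2, 3, 4), (2, 3, 8), (2, 4, 11), (2, 9, 11), (3, 4, 13), (3, 8, 12), (3, 12, 13), (4, 5,
      11), (4, 5, 15), (4, 13, 14), (4, 14, 15), (5, 11, 16), (5, 15, 16)]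
    fin := [0, 1, 2, 2, 4, 4, 0, 7, 1, 1, 10, 2, 12, 2, 4, 15, 16]
    chd := [(0, 1), (4, 16)]
    steps := [(0, 6), (1, 8), (1, 9), (2, 3), (2, 13), (2, 11), (4, 5), (4, 14)] }
  rep := [1, 2, 0, 15, 4, 16, 7, 10, 12]

noncomputable def v1290 : Cov.CovD where
  P := 3
  N := 6
  pl := [1, 4, 6, 9]
  lev := [⟨[], [], [(0, 2)], [6], [(0, 2, [0]), (2, 0, [2])]⟩,
    ⟨[], [(0, 0), (0, 2)], [(0, 0), (0, 2)], [7], [(0, 2, [0]), (2, 0, [2]), (3, 0, [2])]⟩,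
    ⟨[(0, 1)], [(0, 0), (1, 0), (1, 1), (1, 2)], [(0, 0), (0, 1)], [], [(2, 0, [2]), (3, 0,
      [2]), (5, 1, [])]⟩,
    ⟨[(1, 2)], [(0, 0), (1, 0), (2, 0), (2, 1)], [(0, 1)], [8], [(2, 0, [2]), (7, 1, [])]⟩,
    ⟨[(1, 2), (2, 3)], [(2, 0), (2, 1), (2, 4), (3, 0), (3, 1), (3, 4)], [(1, 1), (1, 4)],
      [3], [(5, 1, []), (7, 1, []), (8, 4, [5])]⟩,
    ⟨[(2, 4), (3, 4)], [(2, 1), (4, 1), (4, 4), (4, 5)], [(1, 5)], [3], [(5, 1, []), (10,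
      5, [4])]⟩]
  Ta := [((2, 1), 0, 6), ((2, 6), 0, 8), ((3, 4), 0, 7), ((3, 5), 0, 1), ((5, 3), 1, 0), ((5,
    10), 1, 5), ((7, 6), 1, 8), ((7, 8), 1, 4)]
  Tb := [((0, 1, 4), 2, 6, 7), ((1, 0, 2), 6, 2, 0), ((2, 1, 6), 0, 6, 8), ((3, 4, 5), 0, 7, 1),
    ((4, 0, 3), 7, 2, 0), ((5, 3, 10), 1, 0, 5), ((6, 2, 7), 8, 0, 1), ((7, 6, 8), 1, 8, 4),
    ((8, 7, 9), 4, 1, 3), ((9, 8, 10), 3, 4, 5), ((10, 5, 9), 5, 1, 3)]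
  Tc := []
  Td := [((0, 2), (2, 1), 6), ((0, 2), (2, 6), 8), ((0, 2), (3, 4), 7), ((0, 2), (3, 5), 1), ((2,
    0), (0, 1), 6), ((2, 0), (0, 4), 7), ((4, 5), (8, 7), 1), ((4, 5), (8, 9), 3), ((5, 4),
    (10, 5), 1), ((5, 4), (10, 9), 3)]
  G := [[0, 0, 0x59cd282c1943581c859cd284e, 0x59cd2459cd28c9c52582c59cd28cc,
    0x59cd2459cd28a59cd2459cd24aa], [0, 0, 0x2185816219458c2121c6ac1c2219458216894ce,
    0x32ad2c9c94462a56a2dc388cc24432cd3a9cc36532adc588acc,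
    0x692d28c9c546344692d269cca9254236d68cc24452ad3a9ccaa], [0, 0xa46ca6acee4ac6686acee8c1,
    0x59cd284c159c38259cd248e, 0x59cd2459cd28c1, 0x59cd2459cd28a1], [0, 0,
    0xc1a152cd8261c123cd84341c16128dc8e, 0x244296d5a9cca25692dc588ac1,
    0x28459cd9c5c62445a2d3c9cca1]]

noncomputable def n1290 : Ent := ⟨e1290, noF, [], [], [(7, 12, [1685382419726887998779855760127267502807434353888247252031588302849, 0]), (16, 10, [1580044410770988437858045522355060435978463990222429564876669095937, 0])]⟩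

def c1290 : PLift (Cov.check n1290.C.D v1290 = true) := ⟨by decide +kernel⟩

def b1290 : PLift (entF (fidx ts) 400 1290 n1290 = true) := ⟨by decide +kernel⟩

theorem g1290 : GoodF (fidx ts) 400 1290 := GoodF.ofV v1290 n1290 c1290.down b1290.down

/-- 466845:1033/1 -/
noncomputable def e1291 : SCfg where
  D := {
    a := 6
    L := 10
    kp := 7
    inn := [(0, 1), (0, 3), (1, 0), (1, 2), (1, 3), (2, 1), (2, 3), (2, 4), (3, 0), (3, 1), (3, 2), (3,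
      5), (4, 2), (5, 3)]
    mix := [(0, 0), (0, 1), (1, 0), (1, 2), (1, 3), (2, 2), (2, 4), (2, 5), (3, 1), (3, 4), (3, 6), (3,
      7), (4, 2), (4, 5), (4, 8), (5, 1), (5, 6), (5, 8), (5, 9)]
    cl := [1, 3, 0, 6, 0, 2, 3, 5, 4, 7]
    chq := [(0, 1), (1, 0), (1, 5), (5, 1)]
    rng := [(0, 1), (0, 3), (1, 0), (1, 8), (2, 3), (2, 8), (3, 0), (3, 2), (4, 5), (4, 7), (5, 4), (5,
      8), (6, 7), (6, 9), (7, 4), (7, 6), (8, 1), (8, 2), (8, 5), (8, 9), (9, 6), (9, 8)]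
    lev := [] }
  links := [[1, 6, 7, 3], [6, 0, 3, 2, 8, 9], [8, 1, 3, 10, 11, 4], [10, 2, 1, 0, 7, 5, 12, 13], [8, 2,
    11, 14], [12, 3, 7, 14, 15]]
  P := {
    a := 6
    N := 16
    nb := [202, 845, 3354, 13479, 18692, 53384, 643, 16489, 16918, 322, 10252, 17428, 41000, 5128,
      35248, 20512]
    tri := [(0, 1, 3), (0, 1, 6), (0, 3, 7), (0, 6, 7), (1, 2, 3), (1, 2, 8), (1, 6, 9), (1, 8, 9), (2,
      3, 10), (2, 4, 8), (2, 4, 11), (2, 10, 11), (3, 5, 7), (3, 5, 12), (3, 10, 13), (3, 12, 13),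
      (4, 8, 14), (4, 11, 14), (5, 7, 14), (5, 12, 15), (5, 14, 15)]
    fin := [0, 0, 2, 0, 4, 5, 0, 5, 2, 9, 2, 11, 5, 13, 4, 15]
    chd := [(0, 2), (0, 13)]
    steps := [(0, 1), (0, 3), (0, 6), (2, 10), (2, 8), (4, 14), (5, 7), (5, 12)] }
  rep := [2, 0, 11, 5, 4, 13, 9, 15]

noncomputable def v1291 : Cov.CovD where
  P := 3
  N := 5
  pl := [3, 5, 8, 9]
  lev := [⟨[], [], [(1, 3)], [], [(0, 1, [0, 5]), (1, 3, [])]⟩,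
    ⟨[], [(0, 0), (0, 1), (0, 3)], [(0, 1)], [6], [(0, 1, [0, 5]), (2, 0, [1])]⟩,
    ⟨[(0, 1)], [(1, 0), (1, 1)], [(0, 0)], [2], [(2, 0, [1]), (4, 0, [1])]⟩,
    ⟨[(0, 1), (0, 2), (1, 2)], [(0, 0), (0, 1), (0, 3), (0, 5), (1, 0), (1, 1), (1, 3), (1,
      5), (2, 0), (2, 3), (2, 5)], [(0, 3), (0, 5), (3, 3), (3, 5)], [], [(1, 3, []), (4, 0,
      [1]), (6, 3, []), (7, 5, [1])]⟩,
    ⟨[(1, 2), (2, 3)], [(1, 0), (2, 0)], [], [2, 4], [(2, 0, [1])]⟩,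
    ⟨[(0, 3), (1, 3), (2, 3)], [(0, 3), (3, 0), (3, 3), (3, 5)], [(3, 3)], [4, 7], [(1, 3,
      []), (6, 3, [])]⟩]
  Ta := [((1, 0), 3, 1), ((1, 8), 3, 4), ((2, 3), 0, 6), ((2, 8), 0, 4), ((4, 5), 0, 2), ((4, 7),
    0, 5), ((6, 7), 3, 5), ((6, 9), 3, 7)]
  Tb := [((0, 1, 3), 1, 3, 6), ((1, 0, 8), 3, 1, 4), ((2, 3, 8), 0, 6, 4), ((3, 0, 2), 6, 1, 0),
    ((4, 5, 7), 0, 2, 5), ((5, 4, 8), 2, 0, 4), ((6, 7, 9), 3, 5, 7), ((7, 4, 6), 5, 0, 3),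
    ((8, 1, 2), 4, 3, 0), ((8, 1, 5), 4, 3, 2), ((8, 1, 9), 4, 3, 7), ((8, 2, 5), 4, 0, 2),
    ((8, 2, 9), 4, 0, 7), ((8, 5, 9), 4, 2, 7), ((9, 6, 8), 7, 3, 4)]
  Tc := [(1, 0, 5)]
  Td := [((0, 1), (2, 3), 6), ((0, 1), (2, 8), 4), ((0, 1), (4, 5), 2), ((0, 1), (4, 7), 5), ((1,
    0), (0, 1), 3), ((1, 0), (0, 3), 6), ((1, 5), (0, 1), 3), ((1, 5), (0, 3), 6), ((5, 1),
    (7, 4), 0), ((5, 1), (7, 6), 3)]
  G := [[0, 0xe1144414aa1144111131e4b19191e4a7, 0,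
    0xa6c86c3411c14a6c7188cc14b6ca822c48614411c1835cec8d,
    0xc7ac882a72c6ac23228ac6228812215a7858ea123253ae8cd], [0, 0x1141111e1bc1111114a5f8a4, 0,
    0xb7c282428c46742b82c8c, 0x52a98d8e8f2872282222d7ae8c5], [0,
    0xa11424414e118c1131b1e4311111e818ccd, 0x4493a6728c1b25366828c1c,
    0x5447493cac1b849835cac1c, 0xd293a6728a1712871288822c2dc], [0, 0x1141111e1bc111111e1f8a4,
    0x2422db6e814, 0x2428b7ce814, 0x2222d7ae814]]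

noncomputable def n1291 : Ent := ⟨e1291, noF, [], [], []⟩

def c1291 : PLift (Cov.check n1291.C.D v1291 = true) := ⟨by decide +kernel⟩

def b1291 : PLift (entF (fidx ts) 400 1291 n1291 = true) := ⟨by decide +kernel⟩

theorem g1291 : GoodF (fidx ts) 400 1291 := GoodF.ofV v1291 n1291 c1291.down b1291.down

/-- 466845:1033/2 -/
noncomputable def e1292 : SCfg where
  D := {
    a := 6
    L := 10
    kp := 7
    inn := [(0, 1), (0, 3), (1, 0), (1, 2), (1, 3), (2, 1), (2, 3), (2, 4), (3, 0), (3, 1), (3, 2), (3,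
      5), (4, 2), (5, 3)]
    mix := [(0, 0), (0, 1), (1, 0), (1, 2), (1, 3), (2, 2), (2, 4), (2, 5), (3, 1), (3, 4), (3, 6), (3,
      7), (4, 2), (4, 5), (4, 8), (5, 1), (5, 6), (5, 8), (5, 9)]
    cl := [1, 3, 0, 6, 0, 2, 3, 5, 4, 7]
    chq := [(0, 1), (1, 0), (1, 5), (5, 1)]
    rng := [(0, 1), (0, 3), (1, 0), (1, 9), (2, 3), (2, 8), (3, 0), (3, 2), (4, 5), (4, 7), (5, 4), (5,
      8), (6, 7), (6, 8), (7, 4), (7, 6), (8, 2), (8, 5), (8, 6), (8, 9), (9, 1), (9, 8)]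
    lev := [] }
  links := [[1, 6, 7, 3], [6, 0, 3, 2, 8, 9], [8, 1, 3, 10, 11, 4], [10, 2, 1, 0, 7, 5, 12, 13], [8, 2,
    11, 14], [12, 3, 7, 15, 14]]
  P := {
    a := 6
    N := 16
    nb := [202, 845, 3354, 13479, 18692, 53384, 643, 32873, 16918, 322, 10252, 17428, 24616, 5128,
      39216, 16544]
    tri := [(0, 1, 3), (0, 1, 6), (0, 3, 7), (0, 6, 7), (1, 2, 3), (1, 2, 8), (1, 6, 9), (1, 8, 9), (2,
      3, 10), (2, 4, 8), (2, 4, 11), (2, 10, 11), (3, 5, 7), (3, 5, 12), (3, 10, 13), (3, 12, 13),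
      (4, 8, 14), (4, 11, 14), (5, 7, 15), (5, 12, 14), (5, 14, 15)]
    fin := [0, 0, 2, 0, 4, 5, 0, 5, 2, 9, 2, 11, 5, 13, 4, 15]
    chd := [(0, 2), (0, 13)]
    steps := [(0, 1), (0, 3), (0, 6), (2, 10), (2, 8), (4, 14), (5, 7), (5, 12)] }
  rep := [2, 0, 11, 5, 4, 13, 9, 15]

noncomputable def v1292 : Cov.CovD where
  P := 3
  N := 5
  pl := [3, 5, 8, 9]
  lev := [⟨[], [], [(1, 3)], [], [(0, 1, [0, 5]), (1, 3, [])]⟩,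
    ⟨[], [(0, 0), (0, 1), (0, 3)], [(0, 1)], [6], [(0, 1, [0, 5]), (2, 0, [1])]⟩,
    ⟨[(0, 1)], [(1, 0), (1, 1)], [(0, 0)], [2], [(2, 0, [1]), (4, 0, [1])]⟩,
    ⟨[(0, 1), (0, 2), (1, 2)], [(0, 0), (0, 1), (0, 3), (0, 5), (1, 0), (1, 1), (1, 3), (1,
      5), (2, 0), (2, 3), (2, 5)], [(0, 3), (0, 5), (3, 3), (3, 5)], [], [(1, 3, []), (4, 0,
      [1]), (6, 3, []), (7, 5, [1])]⟩,
    ⟨[(1, 2), (2, 3)], [(1, 0), (2, 0)], [], [2, 4], [(2, 0, [1])]⟩,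
    ⟨[(0, 3), (1, 3), (2, 3)], [(0, 3), (3, 0), (3, 3), (3, 5)], [(3, 3)], [4, 7], [(1, 3,
      []), (6, 3, [])]⟩]
  Ta := [((1, 0), 3, 1), ((1, 9), 3, 7), ((2, 3), 0, 6), ((2, 8), 0, 4), ((4, 5), 0, 2), ((4, 7),
    0, 5), ((6, 7), 3, 5), ((6, 8), 3, 4)]
  Tb := [((0, 1, 3), 1, 3, 6), ((1, 0, 9), 3, 1, 7), ((2, 3, 8), 0, 6, 4), ((3, 0, 2), 6, 1, 0),
    ((4, 5, 7), 0, 2, 5), ((5, 4, 8), 2, 0, 4), ((6, 7, 8), 3, 5, 4), ((7, 4, 6), 5, 0, 3),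
    ((8, 2, 5), 4, 0, 2), ((8, 2, 6), 4, 0, 3), ((8, 2, 9), 4, 0, 7), ((8, 5, 6), 4, 2, 3),
    ((8, 5, 9), 4, 2, 7), ((8, 6, 9), 4, 3, 7), ((9, 1, 8), 7, 3, 4)]
  Tc := [(1, 0, 5)]
  Td := [((0, 1), (2, 3), 6), ((0, 1), (2, 8), 4), ((0, 1), (4, 5), 2), ((0, 1), (4, 7), 5), ((1,
    0), (0, 1), 3), ((1, 0), (0, 3), 6), ((1, 5), (0, 1), 3), ((1, 5), (0, 3), 6), ((5, 1),
    (7, 4), 0), ((5, 1), (7, 6), 3)]
  G := [[0, 0xc1184418a11a138a1186111111e4914918cc7, 0,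
    0x18a7c84c7411c7486c7188cc14f8a822c48614413c78ac8d,
    0xc8c886a721297ac27328ac326268582838c12211a5858ea8d], [0, 0x1111e17118c1111e17118c68, 0,
    0x24b7c24782844624b7ca48c, 0x8818272212af8d8ea2222d7ae8c5], [0,
    0x11c15811c198c1111a1b42118a911191e427, 0x42b46248c1b24d2142eac1c,
    0x5483c617c8c1b848834cac1c, 0x6242c21b2c8681a8a1b128b128cd], [0,
    0x1141111e1bc111111e1f468, 0x2222db6e814, 0x2428b7ce418, 0x2228d7ae814]]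

noncomputable def n1292 : Ent := ⟨e1292, noF, [], [], []⟩

def c1292 : PLift (Cov.check n1292.C.D v1292 = true) := ⟨by decide +kernel⟩

def b1292 : PLift (entF (fidx ts) 400 1292 n1292 = true) := ⟨by decide +kernel⟩

theorem g1292 : GoodF (fidx ts) 400 1292 := GoodF.ofV v1292 n1292 c1292.down b1292.down

/-- 466845:1033 -/
noncomputable def e1293 : SCfg where
  D := {
    a := 6
    L := 11
    kp := 8
    inn := [(0, 1), (0, 3), (1, 0), (1, 2), (1, 3), (2, 1), (2, 3), (2, 4), (3, 0), (3, 1), (3, 2), (3,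
      5), (4, 2), (5, 3)]
    mix := [(0, 0), (0, 1), (1, 0), (1, 2), (1, 3), (2, 2), (2, 4), (2, 5), (3, 1), (3, 4), (3, 6), (3,
      7), (4, 2), (4, 5), (4, 8), (5, 1), (5, 6), (5, 9), (5, 10)]
    cl := [4, 3, 0, 5, 0, 1, 3, 2, 6, 7, 8]
    chq := [(0, 4), (2, 4), (4, 0), (4, 2)]
    rng := [(0, 1), (0, 3), (1, 0), (1, 9), (2, 3), (2, 8), (3, 0), (3, 2), (4, 5), (4, 7), (5, 4), (5,
      8), (6, 7), (6, 10), (7, 4), (7, 6), (8, 2), (8, 5), (9, 1), (9, 10), (10, 6), (10, 9)]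
    lev := [] }
  links := [[1, 6, 7, 3], [6, 0, 3, 2, 8, 9], [8, 1, 3, 10, 11, 4], [10, 2, 1, 0, 7, 5, 12, 13], [8, 2,
    11, 14], [12, 3, 7, 15, 16]]
  P := {
    a := 6
    N := 17
    nb := [202, 845, 3354, 13479, 18692, 102536, 643, 32873, 16918, 322, 10252, 17428, 73768, 5128,
      2320, 65696, 36896]
    tri := [(0, 1, 3), (0, 1, 6), (0, 3, 7), (0, 6, 7), (1, 2, 3), (1, 2, 8), (1, 6, 9), (1, 8, 9), (2,
      3, 10), (2, 4, 8), (2, 4, 11), (2, 10, 11), (3, 5, 7), (3, 5, 12), (3, 10, 13), (3, 12, 13),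
      (4, 8, 14), (4, 11, 14), (5, 7, 15), (5, 12, 16), (5, 15, 16)]
    fin := [0, 0, 2, 0, 2, 5, 0, 5, 2, 9, 2, 11, 5, 13, 14, 15, 16]
    chd := [(0, 2), (0, 13)]
    steps := [(0, 1), (0, 3), (0, 6), (2, 4), (2, 10), (2, 8), (5, 7), (5, 12)] }
  rep := [2, 11, 13, 5, 0, 9, 14, 15, 16]

noncomputable def v1293 : Cov.CovD where
  P := 3
  N := 6
  pl := [3, 5, 8, 9, 10]
  lev := [⟨[], [], [(3, 4)], [], [(0, 4, [0, 2]), (1, 3, [])]⟩,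
    ⟨[], [(0, 0), (0, 3), (0, 4)], [(0, 4)], [5], [(0, 4, [0, 2]), (2, 0, [4])]⟩,
    ⟨[(0, 1)], [(1, 0), (1, 4)], [(0, 0)], [1], [(2, 0, [4]), (4, 0, [4])]⟩,
    ⟨[(0, 1), (0, 2), (1, 2)], [(0, 0), (0, 2), (0, 3), (0, 4), (1, 0), (1, 2), (1, 3), (1,
      4), (2, 0), (2, 2), (2, 3)], [(0, 2), (0, 3), (2, 3), (3, 3)], [], [(1, 3, []), (4, 0,
      [4]), (6, 3, []), (7, 2, [4])]⟩,
    ⟨[(1, 2), (2, 3)], [(1, 0), (2, 0)], [], [1, 6], [(2, 0, [4])]⟩,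
    ⟨[(0, 3), (1, 3), (2, 3)], [(0, 3), (3, 0), (3, 2), (3, 3)], [(3, 3)], [7, 8], [(1, 3,
      []), (6, 3, [])]⟩]
  Ta := [((1, 0), 3, 4), ((1, 9), 3, 7), ((2, 3), 0, 5), ((2, 8), 0, 6), ((4, 5), 0, 1), ((4, 7),
    0, 2), ((6, 7), 3, 2), ((6, 10), 3, 8)]
  Tb := [((0, 1, 3), 4, 3, 5), ((1, 0, 9), 3, 4, 7), ((2, 3, 8), 0, 5, 6), ((3, 0, 2), 5, 4, 0),
    ((4, 5, 7), 0, 1, 2), ((5, 4, 8), 1, 0, 6), ((6, 7, 10), 3, 2, 8), ((7, 4, 6), 2, 0, 3),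
    ((8, 2, 5), 6, 0, 1), ((9, 1, 10), 7, 3, 8), ((10, 6, 9), 8, 3, 7)]
  Tc := [(4, 0, 2)]
  Td := [((0, 4), (2, 3), 5), ((0, 4), (2, 8), 6), ((0, 4), (4, 5), 1), ((0, 4), (4, 7), 2), ((2,
    4), (7, 4), 0), ((2, 4), (7, 6), 3), ((4, 0), (0, 1), 3), ((4, 0), (0, 3), 5), ((4, 2),
    (0, 1), 3), ((4, 2), (0, 3), 5)]
  G := [[0, 0, 0, 0xd4473c98eacdc743bc4ccdf88c47c4bbc38cce2,
    0x11cffccccb414ffccccb8ffc51c26cb4e188445], [0, 0, 0,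
    0x48148418cf4448b8cc7484cf88c77c4bbc8ce3, 0xc8c1188c418ffca454ffca8ffc84e3], [0,
    0xbbc77cc212, 0xd1b168712d18c714b18ce1, 0x3131c1d4714b18c77c4bbc8cb2,
    0x1131c1b4ddc77ca49712d18c45], [0, 0xbbc77ac212, 0xffc241ffc841a, 0xf148f1843171c818ce1,
    0x81f1685171a818cf184e1]]

noncomputable def n1293 : Ent := ⟨e1293, noF, [], [], [(15, 14, [1685382413448253767852309107433119732572617628602273068445370200065, 0]), (16, 14, [1580095832788404724998799751142926758855362888449624481876424048641, 0])]⟩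

def c1293 : PLift (Cov.check n1293.C.D v1293 = true) := ⟨by decide +kernel⟩

def b1293 : PLift (entF (fidx ts) 400 1293 n1293 = true) := ⟨by decide +kernel⟩

theorem g1293 : GoodF (fidx ts) 400 1293 := GoodF.ofV v1293 n1293 c1293.down b1293.down

/-- 466854:1034/1 -/
noncomputable def e1294 : SCfg where
  D := {
    a := 6
    L := 10
    kp := 7
    inn := [(0, 1), (0, 3), (1, 0), (1, 2), (1, 3), (2, 1), (2, 3), (3, 0), (3, 1), (3, 2), (3, 4), (4,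
      3), (4, 5), (5, 4)]
    mix := [(0, 0), (0, 1), (1, 0), (1, 2), (1, 3), (2, 2), (2, 4), (2, 5), (2, 6), (3, 1), (3, 4), (3,
      7), (3, 8), (4, 1), (4, 7), (4, 9), (5, 0), (5, 1), (5, 9)]
    cl := [2, 0, 1, 4, 1, 5, 6, 0, 7, 3]
    chq := [(0, 1), (0, 4), (1, 0), (4, 0)]
    rng := [(0, 1), (0, 3), (0, 9), (1, 0), (2, 3), (2, 6), (3, 0), (3, 2), (4, 5), (4, 8), (5, 4), (5,
      6), (6, 2), (6, 5), (7, 8), (7, 9), (8, 4), (8, 7), (9, 0), (9, 7)]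
    lev := [] }
  links := [[1, 6, 7, 3], [6, 0, 3, 2, 8, 9], [8, 1, 3, 10, 11, 12], [10, 2, 1, 0, 7, 4, 13, 14], [13, 3,
    7, 5, 15], [15, 4, 7, 6]]
  P := {
    a := 6
    N := 16
    nb := [202, 845, 7434, 25751, 41128, 32976, 33443, 121, 4614, 322, 18444, 5124, 2308, 49176, 9224,
      8304]
    tri := [(0, 1, 3), (0, 1, 6), (0, 3, 7), (0, 6, 7), (1, 2, 3), (1, 2, 8), (1, 6, 9), (1, 8, 9), (2,
      3, 10), (2, 8, 12), (2, 10, 11), (2, 11, 12), (3, 4, 7), (3, 4, 13), (3, 10, 14), (3, 13,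
      14), (4, 5, 7), (4, 5, 15), (4, 13, 15), (5, 6, 7), (5, 6, 15)]
    fin := [0, 1, 2, 1, 0, 0, 0, 1, 2, 9, 2, 11, 12, 1, 14, 15]
    chd := [(1, 2), (1, 9)]
    steps := [(0, 6), (0, 5), (1, 3), (1, 7), (0, 4), (1, 13), (2, 10), (2, 8)] }
  rep := [1, 2, 0, 15, 9, 11, 12, 14]

noncomputable def v1294 : Cov.CovD where
  P := 3
  N := 5
  pl := [0, 5, 6, 8, 9]
  lev := [⟨[], [], [], [2], [(1, 0, [1, 4])]⟩,
    ⟨[], [(0, 0), (0, 1), (0, 4)], [(1, 4)], [2], [(2, 1, [0]), (3, 4, [0])]⟩,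
    ⟨[(0, 1)], [(1, 1), (1, 4)], [(1, 1)], [5, 6], [(2, 1, [0]), (4, 1, [0])]⟩,
    ⟨[(0, 1), (0, 2), (1, 2)], [(0, 0), (0, 1), (1, 0), (1, 1), (1, 4), (2, 0), (2, 1)],
      [(0, 0), (0, 1)], [7], [(1, 0, [1, 4]), (4, 1, [0]), (7, 0, [1, 4])]⟩,
    ⟨[(0, 3), (1, 3), (2, 3)], [(0, 0), (3, 0), (3, 1)], [(0, 0)], [3], [(1, 0, [1, 4]),
      (7, 0, [1, 4])]⟩,
    ⟨[(3, 4)], [(0, 0), (3, 0), (4, 0)], [], [2, 3], [(1, 0, [1, 4])]⟩]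
  Ta := [((1, 0), 0, 2), ((2, 3), 1, 4), ((2, 6), 1, 6), ((4, 5), 1, 5), ((4, 8), 1, 7), ((7, 8),
    0, 7), ((7, 9), 0, 3)]
  Tb := [((0, 1, 3), 2, 0, 4), ((0, 1, 9), 2, 0, 3), ((0, 3, 9), 2, 4, 3), ((2, 3, 6), 1, 4, 6),
    ((3, 0, 2), 4, 2, 1), ((4, 5, 8), 1, 5, 7), ((5, 4, 6), 5, 1, 6), ((6, 2, 5), 6, 1, 5),
    ((7, 8, 9), 0, 7, 3), ((8, 4, 7), 7, 1, 0), ((9, 0, 7), 3, 2, 0)]
  Tc := [(0, 1, 4)]
  Td := [((0, 1), (1, 0), 2), ((0, 1), (7, 8), 7), ((0, 1), (7, 9), 3), ((0, 4), (1, 0), 2), ((0,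
    4), (7, 8), 7), ((0, 4), (7, 9), 3), ((1, 0), (2, 3), 4), ((1, 0), (2, 6), 6), ((1, 0),
    (4, 5), 5), ((1, 0), (4, 8), 7), ((4, 0), (3, 0), 2), ((4, 0), (3, 2), 1)]
  G := [[0, 0x141218e14c81aa11c81ace14, 0x84c284c2c484c284c224c2d84c21cc,
    0x11c2184c284c284c2d58, 0x81c2182c282c282c2d98], [0, 0x128844e41a14ca11a14ace14,
    0x82a44248682ac826824c84acd2c, 0x84a448684acc148684ac1486848684ac99c,
    0x82682cc1282682ac82682acc1a], [0, 0x448812e41681ca181214ee14, 0, 0x84c2184c281c214c2d98,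
    0x11c2181c281c221c2d98], [0, 0x81611c6141812e81a11c6e18, 0,
    0x81a44141641ac181684ac14c814c14acd9c, 0x81c482681ac18612acd28268829]]

noncomputable def n1294 : Ent := ⟨e1294, noF, [], [], []⟩

def c1294 : PLift (Cov.check n1294.C.D v1294 = true) := ⟨by decide +kernel⟩

def b1294 : PLift (entF (fidx ts) 400 1294 n1294 = true) := ⟨by decide +kernel⟩

theorem g1294 : GoodF (fidx ts) 400 1294 := GoodF.ofV v1294 n1294 c1294.down b1294.down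

/-- 466854:1034 -/
noncomputable def e1295 : SCfg where
  D := {
    a := 6
    L := 11
    kp := 8
    inn := [(0, 1), (0, 3), (1, 0), (1, 2), (1, 3), (2, 1), (2, 3), (3, 0), (3, 1), (3, 2), (3, 4), (4,
      3), (4, 5), (5, 4)]
    mix := [(0, 0), (0, 1), (1, 0), (1, 2), (1, 3), (2, 2), (2, 4), (2, 5), (2, 6), (3, 1), (3, 4), (3,
      7), (3, 8), (4, 1), (4, 7), (4, 9), (5, 1), (5, 9), (5, 10)]
    cl := [2, 0, 1, 5, 1, 6, 7, 0, 4, 3, 8]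
    chq := [(1, 2), (2, 1), (2, 4), (4, 2)]
    rng := [(0, 1), (0, 3), (1, 0), (1, 10), (2, 3), (2, 6), (3, 0), (3, 2), (4, 5), (4, 8), (5, 4),
      (5, 6), (6, 2), (6, 5), (7, 8), (7, 9), (8, 4), (8, 7), (9, 7), (9, 10), (10, 1), (10, 9)]
    lev := [] }
  links := [[1, 6, 7, 3], [6, 0, 3, 2, 8, 9], [8, 1, 3, 10, 11, 12], [10, 2, 1, 0, 7, 4, 13, 14], [13, 3,
    7, 5, 15], [15, 4, 7, 16]]
  P := {
    a := 6
    N := 17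
    nb := [202, 845, 7434, 25751, 41128, 98448, 643, 65657, 4614, 322, 18444, 5124, 2308, 49176, 9224,
      73776, 32928]
    tri := [(0, 1, 3), (0, 1, 6), (0, 3, 7), (0, 6, 7), (1, 2, 3), (1, 2, 8), (1, 6, 9), (1, 8, 9), (2,
      3, 10), (2, 8, 12), (2, 10, 11), (2, 11, 12), (3, 4, 7), (3, 4, 13), (3, 10, 14), (3, 13,
      14), (4, 5, 7), (4, 5, 15), (4, 13, 15), (5, 7, 16), (5, 15, 16)]
    fin := [0, 0, 2, 0, 4, 4, 0, 4, 2, 9, 2, 11, 12, 4, 14, 15, 16]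
    chd := [(0, 2), (0, 14)]
    steps := [(0, 1), (0, 3), (0, 6), (2, 10), (2, 8), (4, 5), (4, 7), (4, 13)] }
  rep := [4, 2, 0, 15, 14, 9, 11, 12, 16]

noncomputable def v1295 : Cov.CovD where
  P := 3
  N := 6
  pl := [3, 5, 6, 9, 10]
  lev := [⟨[], [], [(0, 2)], [], [(0, 2, [1, 4]), (1, 0, [])]⟩,
    ⟨[], [(0, 0), (0, 1), (0, 2)], [(1, 2)], [5], [(0, 2, [1, 4]), (2, 1, [2])]⟩,
    ⟨[(0, 1)], [(1, 1), (1, 2)], [(1, 1)], [6, 7], [(2, 1, [2]), (4, 1, [2])]⟩,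
    ⟨[(0, 1), (0, 2), (1, 2)], [(0, 0), (0, 1), (0, 2), (0, 4), (1, 0), (1, 1), (1, 2), (1,
      4), (2, 0), (2, 1), (2, 4)], [(0, 0), (0, 1), (0, 4), (1, 4)], [], [(1, 0, []), (4, 1,
      [2]), (7, 0, []), (8, 4, [2])]⟩,
    ⟨[(0, 3), (1, 3), (2, 3)], [(0, 0), (3, 0), (3, 1), (3, 4)], [(0, 0)], [3], [(1, 0,
      []), (7, 0, [])]⟩,
    ⟨[(3, 4)], [(0, 0), (3, 0), (4, 0)], [], [3, 8], [(1, 0, [])]⟩]
  Ta := [((1, 0), 0, 2), ((1, 10), 0, 8), ((2, 3), 1, 5), ((2, 6), 1, 7), ((4, 5), 1, 6), ((4,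
    8), 1, 4), ((7, 8), 0, 4), ((7, 9), 0, 3)]
  Tb := [((0, 1, 3), 2, 0, 5), ((1, 0, 10), 0, 2, 8), ((2, 3, 6), 1, 5, 7), ((3, 0, 2), 5, 2, 1),
    ((4, 5, 8), 1, 6, 4), ((5, 4, 6), 6, 1, 7), ((6, 2, 5), 7, 1, 6), ((7, 8, 9), 0, 4, 3),
    ((8, 4, 7), 4, 1, 0), ((9, 7, 10), 3, 0, 8), ((10, 1, 9), 8, 0, 3)]
  Tc := [(2, 1, 4)]
  Td := [((1, 2), (2, 3), 5), ((1, 2), (2, 6), 7), ((1, 2), (4, 5), 6), ((1, 2), (4, 8), 4), ((2,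
    1), (0, 1), 0), ((2, 1), (0, 3), 5), ((2, 4), (0, 1), 0), ((2, 4), (0, 3), 5), ((4, 2),
    (8, 4), 1), ((4, 2), (8, 7), 0)]
  G := [[0, 0xa6c2a6c2ca6c6ace4a6c2a6c2ca6a6cae8c, 0xa6c244a6c2a6c2a6c2da6c2a6c29cc,
    0xa6c2a6c2a6c2da6c2a6c2a6c2d94, 0xa6c2a6c25c6a4a6c2a6c2d9c6a488a], [0,
    0xa6c2a6c2ca6a6cae14, 0xca6c6ac42ca6c6acca6c6ac92c, 0xa6c2a6c2a6c2da6c2a6c2a6c2d58,
    0xc6a4ca6c6acc6a4d28], [0, 0xa1c259c2536a1cae8a6c2a6c2ca6c6ace45, 0,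
    0x16c216c2a1c2da1c2a1c259c2d58, 0x16c24a1c24953a416a49c1a416a499a], [0,
    0xa1c2a1c2945238ee18, 0, 0xa1c235c216c2dd1c216c2a1c2d58, 0x16a459616acc1a4d28]]

noncomputable def n1295 : Ent := ⟨e1295, noF, [], [], [(6, 16, [1580044410770988437309982408355971841652082177953823432505694412801, 0])]⟩

def c1295 : PLift (Cov.check n1295.C.D v1295 = true) := ⟨by decide +kernel⟩

def b1295 : PLift (entF (fidx ts) 400 1295 n1295 = true) := ⟨by decide +kernel⟩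

theorem g1295 : GoodF (fidx ts) 400 1295 := GoodF.ofV v1295 n1295 c1295.down b1295.down

/-- 466854:1035 -/
noncomputable def e1296 : SCfg where
  D := {
    a := 6
    L := 11
    kp := 8
    inn := [(0, 1), (0, 3), (1, 0), (1, 2), (1, 3), (2, 1), (2, 3), (3, 0), (3, 1), (3, 2), (3, 4), (4,
      3), (4, 5), (5, 4)]
    mix := [(0, 0), (0, 1), (1, 0), (1, 2), (1, 3), (2, 2), (2, 4), (2, 5), (2, 6), (3, 1), (3, 4), (3,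
      7), (3, 8), (4, 1), (4, 7), (4, 9), (5, 7), (5, 9), (5, 10)]
    cl := [2, 0, 1, 5, 1, 6, 7, 0, 4, 3, 8]
    chq := [(1, 2), (2, 1), (2, 4), (4, 2)]
    rng := [(0, 1), (0, 3), (1, 0), (1, 9), (2, 3), (2, 6), (3, 0), (3, 2), (4, 5), (4, 8), (5, 4), (5,
      6), (6, 2), (6, 5), (7, 8), (7, 10), (8, 4), (8, 7), (9, 1), (9, 10), (10, 7), (10, 9)]
    lev := [] }
  links := [[1, 6, 7, 3], [6, 0, 3, 2, 8, 9], [8, 1, 3, 10, 11, 12], [10, 2, 1, 0, 7, 4, 13, 14], [13, 3,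
    7, 15, 5], [13, 4, 15, 16]]
  P := {
    a := 6
    N := 17
    nb := [202, 845, 7434, 25751, 41128, 106512, 643, 32857, 4614, 322, 18444, 5124, 2308, 81976,
      9224, 65712, 40992]
    tri := [(0, 1, 3), (0, 1, 6), (0, 3, 7), (0, 6, 7), (1, 2, 3), (1, 2, 8), (1, 6, 9), (1, 8, 9), (2,
      3, 10), (2, 8, 12), (2, 10, 11), (2, 11, 12), (3, 4, 7), (3, 4, 13), (3, 10, 14), (3, 13,
      14), (4, 5, 13), (4, 5, 15), (4, 7, 15), (5, 13, 16), (5, 15, 16)]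
    fin := [0, 0, 2, 0, 4, 4, 0, 4, 2, 9, 2, 11, 12, 4, 14, 15, 16]
    chd := [(0, 2), (0, 14)]
    steps := [(0, 1), (0, 3), (0, 6), (2, 10), (2, 8), (4, 5), (4, 7), (4, 13)] }
  rep := [4, 2, 0, 15, 14, 9, 11, 12, 16]

noncomputable def v1296 : Cov.CovD where
  P := 3
  N := 6
  pl := [3, 5, 6, 9, 10]
  lev := [⟨[], [], [(0, 2)], [], [(0, 2, [1, 4]), (1, 0, [])]⟩,
    ⟨[], [(0, 0), (0, 1), (0, 2)], [(1, 2)], [5], [(0, 2, [1, 4]), (2, 1, [2])]⟩,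
    ⟨[(0, 1)], [(1, 1), (1, 2)], [(1, 1)], [6, 7], [(2, 1, [2]), (4, 1, [2])]⟩,
    ⟨[(0, 1), (0, 2), (1, 2)], [(0, 0), (0, 1), (0, 2), (0, 4), (1, 0), (1, 1), (1, 2), (1,
      4), (2, 0), (2, 1), (2, 4)], [(0, 0), (0, 1), (0, 4), (1, 4)], [], [(1, 0, []), (4, 1,
      [2]), (7, 0, []), (8, 4, [2])]⟩,
    ⟨[(0, 3), (1, 3), (2, 3)], [(0, 0), (3, 0), (3, 1), (3, 4)], [(0, 0)], [3], [(1, 0,
      []), (7, 0, [])]⟩,
    ⟨[(3, 4)], [(3, 0), (4, 0)], [], [3, 8], [(7, 0, [])]⟩]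
  Ta := [((1, 0), 0, 2), ((1, 9), 0, 3), ((2, 3), 1, 5), ((2, 6), 1, 7), ((4, 5), 1, 6), ((4, 8),
    1, 4), ((7, 8), 0, 4), ((7, 10), 0, 8)]
  Tb := [((0, 1, 3), 2, 0, 5), ((1, 0, 9), 0, 2, 3), ((2, 3, 6), 1, 5, 7), ((3, 0, 2), 5, 2, 1),
    ((4, 5, 8), 1, 6, 4), ((5, 4, 6), 6, 1, 7), ((6, 2, 5), 7, 1, 6), ((7, 8, 10), 0, 4, 8),
    ((8, 4, 7), 4, 1, 0), ((9, 1, 10), 3, 0, 8), ((10, 7, 9), 8, 0, 3)]
  Tc := [(2, 1, 4)]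
  Td := [((1, 2), (2, 3), 5), ((1, 2), (2, 6), 7), ((1, 2), (4, 5), 6), ((1, 2), (4, 8), 4), ((2,
    1), (0, 1), 0), ((2, 1), (0, 3), 5), ((2, 4), (0, 1), 0), ((2, 4), (0, 3), 5), ((4, 2),
    (8, 4), 1), ((4, 2), (8, 7), 0)]
  G := [[0, 0xa1c216c21a6a1cae416c293c216a16c6e8c, 0x11c2411c211c211c2dc11c211c298c,
    0xa1c216c216c2d16c216c2a1c2d58, 0x1dc216c2516c253c2c1a4d9c1a488a], [0,
    0x93c2a1c216aa1c6e18, 0x11611ac11611cc5211611ac82c, 0x16c2a1c2a1c2da1c2a1c216c2d94,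
    0x53a4176c1acc1a4d28], [0, 0xa6c2a6c2ca6c6acea6c2a6c2c6aa6c6ec1, 0,
    0xa6c2a6c2a6c2da6c2a6c2a6c2dc1, 0xa6c24a2c46a6c2a2c46d9c6a4c6a498a], [0,
    0xa6c2a6c2c6aa6c6e14, 0, 0xa6c2a6c2a6c2da6c2a6c2a6c2d58, 0xc6a4ca6c6acc6a4d21]]

noncomputable def n1296 : Ent := ⟨e1296, noF, [], [], []⟩

def c1296 : PLift (Cov.check n1296.C.D v1296 = true) := ⟨by decide +kernel⟩

def b1296 : PLift (entF (fidx ts) 400 1296 n1296 = true) := ⟨by decide +kernel⟩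

theorem g1296 : GoodF (fidx ts) 400 1296 := GoodF.ofV v1296 n1296 c1296.down b1296.down

/-- 466644:1038/2 -/
noncomputable def e1297 : SCfg where
  D := {
    a := 6
    L := 8
    kp := 5
    inn := [(0, 1), (1, 0), (1, 2), (1, 3), (2, 1), (2, 4), (3, 1), (3, 5), (4, 2), (5, 3)]
    mix := [(0, 0), (0, 1), (0, 2), (1, 0), (1, 2), (1, 3), (2, 2), (2, 3), (2, 4), (2, 5), (3, 0), (3,
      3), (3, 6), (3, 7), (4, 1), (4, 2), (4, 4), (5, 3), (5, 5), (5, 6)]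
    cl := [0, 2, 1, 0, 4, 1, 3, 5]
    chq := [(0, 3), (3, 0)]
    rng := [(0, 1), (0, 7), (1, 0), (1, 2), (1, 4), (2, 1), (3, 5), (4, 1), (4, 5), (5, 3), (5, 4), (5,
      6), (6, 5), (6, 7), (7, 0), (7, 6)]
    lev := [] }
  links := [[1, 6, 7, 8], [6, 0, 8, 2, 9, 3], [9, 1, 8, 4, 10, 11], [6, 1, 9, 5, 12, 13], [10, 2, 8, 7],
    [12, 3, 9, 11]]
  P := {
    a := 6
    N := 14
    nb := [450, 845, 3858, 12898, 1412, 6664, 8331, 1361, 151, 2094, 2196, 5668, 10280, 4168]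
    tri := [(0, 1, 6), (0, 1, 8), (0, 6, 7), (0, 7, 8), (1, 2, 8), (1, 2, 9), (1, 3, 6), (1, 3, 9), (2,
      4, 8), (2, 4, 10), (2, 9, 11), (2, 10, 11), (3, 5, 9), (3, 5, 12), (3, 6, 13), (3, 12, 13),
      (4, 7, 8), (4, 7, 10), (5, 9, 11), (5, 11, 12)]
    fin := [0, 0, 2, 0, 4, 0, 0, 4, 2, 0, 10, 2, 12, 13]
    chd := [(0, 12)]
    steps := [(0, 1), (0, 3), (0, 5), (0, 6), (0, 9), (2, 8), (2, 11), (4, 7)] }
  rep := [0, 2, 4, 12, 10, 13]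

noncomputable def v1297 : Cov.CovD where
  P := 3
  N := 3
  pl := [1, 4, 7]
  lev := [⟨[], [], [(0, 1)], [2], [(0, 0, [3]), (2, 1, [])]⟩,
    ⟨[], [(0, 0), (0, 1)], [(0, 0), (0, 1)], [], [(0, 0, [3]), (2, 1, []), (3, 0, [3])]⟩,
    ⟨[(0, 1)], [(0, 1), (1, 0), (1, 1)], [(0, 1), (1, 1)], [4], [(2, 1, []), (3, 0, [3]),
      (5, 1, [])]⟩,
    ⟨[(0, 1), (1, 2)], [(0, 0), (1, 0), (1, 1), (1, 3), (2, 0)], [(0, 0), (0, 3)], [5],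
      [(0, 0, [3]), (3, 0, [3]), (6, 3, [0])]⟩,
    ⟨[(1, 2)], [(0, 1), (1, 1), (2, 0), (2, 1)], [], [2, 4], [(2, 1, [])]⟩,
    ⟨[(1, 3)], [(1, 0), (2, 0), (2, 1), (3, 0), (3, 1), (3, 3)], [(0, 1), (0, 3), (1, 3)],
      [], [(3, 0, [3]), (5, 1, []), (6, 3, [0])]⟩]
  Ta := [((0, 1), 0, 2), ((0, 7), 0, 5), ((2, 1), 1, 2), ((3, 5), 0, 1), ((5, 3), 1, 0), ((5, 4),
    1, 4), ((5, 6), 1, 3)]
  Tb := [((0, 1, 7), 0, 2, 5), ((1, 0, 2), 2, 0, 1), ((1, 0, 4), 2, 0, 4), ((1, 2, 4), 2, 1, 4),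
    ((4, 1, 5), 4, 2, 1), ((5, 3, 4), 1, 0, 4), ((5, 3, 6), 1, 0, 3), ((5, 4, 6), 1, 4, 3),
    ((6, 5, 7), 3, 1, 5), ((7, 0, 6), 5, 0, 3)]
  Tc := []
  Td := [((0, 3), (0, 1), 2), ((0, 3), (0, 7), 5), ((0, 3), (3, 5), 1), ((3, 0), (6, 5), 1), ((3,
    0), (6, 7), 5)]
  G := [[0, 0, 0x14222c22cc51828c4, 0x882818e2111a244d48, 0x1144881858e21c1acc8], [0, 0,
    0x1414a44cc8658881c2, 0, 0x1144889818e8191acc2], [0, 0, 0, 0x2121c4e42828c8e8c1,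
    0x2121c1e42828c8e8c1], [0, 0x41216212c8188141cca4, 0, 0, 0x88c8a82c1ac484414c68]]

noncomputable def n1297 : Ent := ⟨e1297, noF, [], [], []⟩

def c1297 : PLift (Cov.check n1297.C.D v1297 = true) := ⟨by decide +kernel⟩

def b1297 : PLift (entF (fidx ts) 400 1297 n1297 = true) := ⟨by decide +kernel⟩

theorem g1297 : GoodF (fidx ts) 400 1297 := GoodF.ofV v1297 n1297 c1297.down b1297.down

/-- 466644:1038/1 -/
noncomputable def e1298 : SCfg where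
  D := {
    a := 6
    L := 9
    kp := 6
    inn := [(0, 1), (1, 0), (1, 2), (1, 3), (2, 1), (2, 4), (3, 1), (3, 5), (4, 2), (5, 3)]
    mix := [(0, 0), (0, 1), (0, 2), (1, 0), (1, 2), (1, 3), (2, 2), (2, 3), (2, 4), (2, 5), (3, 0), (3,
      3), (3, 6), (3, 7), (4, 1), (4, 2), (4, 4), (5, 3), (5, 6), (5, 8)]
    cl := [0, 4, 1, 0, 2, 1, 3, 5, 6]
    chq := [(0, 3), (3, 0)]
    rng := [(0, 1), (0, 7), (1, 0), (1, 2), (1, 4), (2, 1), (3, 5), (3, 8), (4, 1), (4, 5), (5, 3), (5,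
      4), (6, 7), (6, 8), (7, 0), (7, 6), (8, 3), (8, 6)]
    lev := [] }
  links := [[1, 6, 7, 8], [6, 0, 8, 2, 9, 3], [9, 1, 8, 4, 10, 11], [6, 1, 9, 5, 12, 13], [10, 2, 8, 7],
    [12, 3, 9, 14]]
  P := {
    a := 6
    N := 15
    nb := [450, 845, 3858, 12898, 1412, 21000, 8331, 1361, 151, 18478, 2196, 1540, 24616, 4168, 4640]
    tri := [(0, 1, 6), (0, 1, 8), (0, 6, 7), (0, 7, 8), (1, 2, 8), (1, 2, 9), (1, 3, 6), (1, 3, 9), (2,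
      4, 8), (2, 4, 10), (2, 9, 11), (2, 10, 11), (3, 5, 9), (3, 5, 12), (3, 6, 13), (3, 12, 13),
      (4, 7, 8), (4, 7, 10), (5, 9, 14), (5, 12, 14)]
    fin := [0, 0, 2, 0, 4, 0, 0, 4, 2, 0, 10, 2, 12, 13, 14]
    chd := [(0, 12)]
    steps := [(0, 1), (0, 3), (0, 5), (0, 6), (0, 9), (2, 8), (2, 11), (4, 7)] }
  rep := [0, 2, 10, 12, 4, 13, 14]

noncomputable def v1298 : Cov.CovD where
  P := 3
  N := 4
  pl := [1, 4, 7, 8]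
  lev := [⟨[], [], [(0, 1)], [4], [(0, 0, [3]), (2, 1, [])]⟩,
    ⟨[], [(0, 0), (0, 1)], [(0, 0), (0, 1)], [], [(0, 0, [3]), (2, 1, []), (3, 0, [3])]⟩,
    ⟨[(0, 1)], [(0, 1), (1, 0), (1, 1)], [(0, 1), (1, 1)], [2], [(2, 1, []), (3, 0, [3]),
      (5, 1, [])]⟩,
    ⟨[(0, 1), (1, 2)], [(0, 0), (1, 0), (1, 1), (1, 3), (2, 0)], [(0, 0), (0, 3)], [5],
      [(0, 0, [3]), (3, 0, [3]), (6, 3, [0])]⟩,
    ⟨[(1, 2)], [(0, 1), (1, 1), (2, 0), (2, 1)], [], [2, 4], [(2, 1, [])]⟩,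
    ⟨[(1, 3)], [(1, 0), (2, 0), (3, 0), (3, 3)], [(0, 3)], [6], [(3, 0, [3]), (6, 3, [0])]⟩]
  Ta := [((0, 1), 0, 4), ((0, 7), 0, 5), ((2, 1), 1, 4), ((3, 5), 0, 1), ((3, 8), 0, 6), ((5, 3),
    1, 0), ((5, 4), 1, 2)]
  Tb := [((0, 1, 7), 0, 4, 5), ((1, 0, 2), 4, 0, 1), ((1, 0, 4), 4, 0, 2), ((1, 2, 4), 4, 1, 2),
    ((3, 5, 8), 0, 1, 6), ((4, 1, 5), 2, 4, 1), ((5, 3, 4), 1, 0, 2), ((6, 7, 8), 3, 5, 6),
    ((7, 0, 6), 5, 0, 3), ((8, 3, 6), 6, 0, 3)]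
  Tc := []
  Td := [((0, 3), (0, 1), 4), ((0, 3), (0, 7), 5), ((0, 3), (3, 5), 1), ((0, 3), (3, 8), 6), ((3,
    0), (6, 7), 5), ((3, 0), (6, 8), 6)]
  G := [[0, 0, 0x983858e84745434e48c, 0, 0x983858e8491485131a8cc], [0, 0, 0x59c33c95ce842,
    0x1d911c1d9e842, 0x199139159e842], [0, 0, 0x64eeceece4848e88cc1, 0, 0xe148e1e1a8c1], [0,
    0xe8e164e188ae1e4a8e4486c, 0xe2e264e288c1, 0xe128e1e1c4a1, 0xe1e168e188c2]]

noncomputable def n1298 : Ent := ⟨e1298, noF, [], [], [(11, 14, [81620716623019490593592230936445690773474979418095888699393, 0])]⟩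

def c1298 : PLift (Cov.check n1298.C.D v1298 = true) := ⟨by decide +kernel⟩

def b1298 : PLift (entF (fidx ts) 400 1298 n1298 = true) := ⟨by decide +kernel⟩

theorem g1298 : GoodF (fidx ts) 400 1298 := GoodF.ofV v1298 n1298 c1298.down b1298.down

/-- 466644:1038/3 -/
noncomputable def e1299 : SCfg where
  D := {
    a := 6
    L := 9
    kp := 6
    inn := [(0, 1), (1, 0), (1, 2), (1, 3), (2, 1), (2, 4), (3, 1), (3, 5), (4, 2), (5, 3)]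
    mix := [(0, 0), (0, 1), (0, 2), (1, 0), (1, 2), (1, 3), (2, 2), (2, 3), (2, 4), (2, 5), (3, 0), (3,
      3), (3, 6), (3, 7), (4, 2), (4, 4), (4, 8), (5, 3), (5, 5), (5, 6)]
    cl := [0, 4, 1, 0, 2, 1, 3, 5, 6]
    chq := [(0, 3), (3, 0)]
    rng := [(0, 1), (0, 7), (1, 0), (1, 2), (2, 1), (2, 8), (3, 5), (4, 5), (4, 8), (5, 3), (5, 4), (5,
      6), (6, 5), (6, 7), (7, 0), (7, 6), (8, 2), (8, 4)]
    lev := [] }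
  links := [[1, 6, 7, 8], [6, 0, 8, 2, 9, 3], [9, 1, 8, 4, 10, 11], [6, 1, 9, 5, 12, 13], [10, 2, 8, 14],
    [12, 3, 9, 11]]
  P := {
    a := 6
    N := 15
    nb := [450, 845, 3858, 12898, 17668, 6664, 8331, 321, 16535, 2094, 18452, 5668, 10280, 4168, 1296]
    tri := [(0, 1, 6), (0, 1, 8), (0, 6, 7), (0, 7, 8), (1, 2, 8), (1, 2, 9), (1, 3, 6), (1, 3, 9), (2,
      4, 8), (2, 4, 10), (2, 9, 11), (2, 10, 11), (3, 5, 9), (3, 5, 12), (3, 6, 13), (3, 12, 13),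
      (4, 8, 14), (4, 10, 14), (5, 9, 11), (5, 11, 12)]
    fin := [0, 0, 2, 0, 2, 0, 0, 7, 2, 0, 10, 2, 12, 13, 14]
    chd := [(0, 12)]
    steps := [(0, 1), (0, 3), (0, 5), (0, 6), (0, 9), (2, 4), (2, 8), (2, 11)] }
  rep := [0, 2, 10, 12, 7, 13, 14]

noncomputable def v1299 : Cov.CovD where
  P := 3
  N := 4
  pl := [1, 4, 7, 8]
  lev := [⟨[], [], [(0, 1)], [4], [(0, 0, [3]), (2, 1, [])]⟩,
    ⟨[], [(0, 0), (0, 1)], [(0, 0), (0, 1)], [], [(0, 0, [3]), (2, 1, []), (3, 0, [3])]⟩,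
    ⟨[(0, 1)], [(0, 1), (1, 0), (1, 1)], [(0, 1), (1, 1)], [2], [(2, 1, []), (3, 0, [3]),
      (5, 1, [])]⟩,
    ⟨[(0, 1), (1, 2)], [(0, 0), (1, 0), (1, 1), (1, 3), (2, 0)], [(0, 0), (0, 3)], [5],
      [(0, 0, [3]), (3, 0, [3]), (6, 3, [0])]⟩,
    ⟨[(1, 2)], [(0, 1), (1, 1), (2, 0), (2, 1)], [], [2, 6], [(2, 1, [])]⟩,
    ⟨[(1, 3)], [(1, 0), (2, 0), (2, 1), (3, 0), (3, 1), (3, 3)], [(0, 1), (0, 3), (1, 3)],
      [], [(3, 0, [3]), (5, 1, []), (6, 3, [0])]⟩]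
  Ta := [((0, 1), 0, 4), ((0, 7), 0, 5), ((2, 1), 1, 4), ((2, 8), 1, 6), ((3, 5), 0, 1), ((5, 3),
    1, 0), ((5, 4), 1, 2), ((5, 6), 1, 3)]
  Tb := [((0, 1, 7), 0, 4, 5), ((1, 0, 2), 4, 0, 1), ((2, 1, 8), 1, 4, 6), ((4, 5, 8), 2, 1, 6),
    ((5, 3, 4), 1, 0, 2), ((5, 3, 6), 1, 0, 3), ((5, 4, 6), 1, 2, 3), ((6, 5, 7), 3, 1, 5),
    ((7, 0, 6), 5, 0, 3), ((8, 2, 4), 6, 1, 2)]
  Tc := []
  Td := [((0, 3), (0, 1), 4), ((0, 3), (0, 7), 5), ((0, 3), (3, 5), 1), ((3, 0), (6, 5), 1), ((3,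
    0), (6, 7), 5)]
  G := [[0, 0, 0x88c22c11ce8421c4428cc9ca8cc, 0, 0x829229119e844142849889119a8cc], [0, 0,
    0x51c44c19ce482, 0x119488cccca942, 0x889199519e842], [0, 0, 0x28c22cccce841, 0,
    0x889229cc9e841], [0, 0x8141c1e828121a4414866, 0x424882c2a8c1, 0x4454888cccca8c1,
    0x42c2688288c1]]

noncomputable def n1299 : Ent := ⟨e1299, noF, [], [], [(7, 14, [81620716623019490593592230936445690773474979418095888699393, 0])]⟩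

def c1299 : PLift (Cov.check n1299.C.D v1299 = true) := ⟨by decide +kernel⟩

def b1299 : PLift (entF (fidx ts) 400 1299 n1299 = true) := ⟨by decide +kernel⟩

theorem g1299 : GoodF (fidx ts) 400 1299 := GoodF.ofV v1299 n1299 c1299.down b1299.down

/-- 466644:1038 -/
noncomputable def e1300 : SCfg where
  D := {
    a := 6
    L := 10
    kp := 7
    inn := [(0, 1), (1, 0), (1, 2), (1, 3), (2, 1), (2, 4), (3, 1), (3, 5), (4, 2), (5, 3)]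
    mix := [(0, 0), (0, 1), (0, 2), (1, 0), (1, 2), (1, 3), (2, 2), (2, 3), (2, 4), (2, 5), (3, 0), (3,
      3), (3, 6), (3, 7), (4, 2), (4, 4), (4, 8), (5, 3), (5, 6), (5, 9)]
    cl := [0, 6, 1, 0, 2, 1, 3, 4, 7, 5]
    chq := [(4, 5), (5, 4)]
    rng := [(0, 1), (0, 7), (1, 0), (1, 2), (2, 1), (2, 8), (3, 5), (3, 9), (4, 5), (4, 8), (5, 3), (5,
      4), (6, 7), (6, 9), (7, 0), (7, 6), (8, 2), (8, 4), (9, 3), (9, 6)]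
    lev := [] }
  links := [[1, 6, 7, 8], [6, 0, 8, 2, 9, 3], [9, 1, 8, 4, 10, 11], [6, 1, 9, 5, 12, 13], [10, 2, 8, 14],
    [12, 3, 9, 15]]
  P := {
    a := 6
    N := 16
    nb := [450, 845, 3858, 12898, 17668, 37384, 8331, 321, 16535, 34862, 18452, 1540, 41000, 4168,
      1296, 4640]
    tri := [(0, 1, 6), (0, 1, 8), (0, 6, 7), (0, 7, 8), (1, 2, 8), (1, 2, 9), (1, 3, 6), (1, 3, 9), (2,
      4, 8), (2, 4, 10), (2, 9, 11), (2, 10, 11), (3, 5, 9), (3, 5, 12), (3, 6, 13), (3, 12, 13),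
      (4, 8, 14), (4, 10, 14), (5, 9, 15), (5, 12, 15)]
    fin := [0, 0, 2, 3, 2, 3, 0, 7, 2, 0, 10, 2, 12, 13, 14, 3]
    chd := [(13, 3)]
    steps := [(0, 1), (0, 6), (0, 9), (2, 4), (2, 8), (2, 11), (3, 5), (3, 15)] }
  rep := [0, 2, 10, 12, 13, 3, 7, 14]

noncomputable def v1300 : Cov.CovD where
  P := 3
  N := 5
  pl := [1, 4, 6, 8]
  lev := [⟨[], [], [(0, 1)], [6], [(0, 0, []), (2, 1, [])]⟩,
    ⟨[], [(0, 0), (0, 1)], [(0, 0), (0, 1)], [], [(0, 0, []), (2, 1, []), (3, 0, [])]⟩,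
    ⟨[(0, 1)], [(0, 1), (1, 0), (1, 1)], [(0, 1), (1, 1)], [2], [(2, 1, []), (3, 0, []),
      (5, 1, [])]⟩,
    ⟨[(0, 1), (1, 2)], [(0, 0), (1, 0), (1, 1), (1, 4), (2, 0)], [(0, 0), (0, 4)], [3],
      [(0, 0, []), (3, 0, []), (7, 4, [5])]⟩,
    ⟨[(1, 2)], [(0, 1), (1, 1), (2, 0), (2, 1)], [], [2, 7], [(2, 1, [])]⟩,
    ⟨[(1, 3)], [(1, 0), (2, 0), (3, 0), (3, 4), (3, 5)], [(0, 5)], [3], [(3, 0, []), (9, 5,
      [4])]⟩]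
  Ta := [((0, 1), 0, 6), ((0, 7), 0, 4), ((2, 1), 1, 6), ((2, 8), 1, 7), ((3, 5), 0, 1), ((3, 9),
    0, 5), ((5, 3), 1, 0), ((5, 4), 1, 2)]
  Tb := [((0, 1, 7), 0, 6, 4), ((1, 0, 2), 6, 0, 1), ((2, 1, 8), 1, 6, 7), ((3, 5, 9), 0, 1, 5),
    ((4, 5, 8), 2, 1, 7), ((5, 3, 4), 1, 0, 2), ((6, 7, 9), 3, 4, 5), ((7, 0, 6), 4, 0, 3),
    ((8, 2, 4), 7, 1, 2), ((9, 3, 6), 5, 0, 3)]
  Tc := []
  Td := [((4, 5), (7, 0), 0), ((4, 5), (7, 6), 3), ((5, 4), (9, 3), 0), ((5, 4), (9, 6), 3)]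
  G := [[0, 0, 0x35c19cc1ce8436c1ac91ce48c, 0, 0x519a391c9e84a14a849319959a8cc], [0, 0,
    0x53ca1c1cce842, 0x6191a595ce482, 0x539919199e842], [0, 0, 0x66caacccce481, 0,
    0x669aa9cc9e841], [0, 0x61a1c1e42a1461c1ac46, 0x62a2c2e841, 0x66caa5cc5e482,
    0x62a2c2e841]]

noncomputable def n1300 : Ent := ⟨e1300, noF, [], [], [(7, 14, [385746751338780685620664494392815470296102193487288376377810945, 0]), (11, 15, [360035742630636841211993100915356868655746945586763691012993025, 0])]⟩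

def c1300 : PLift (Cov.check n1300.C.D v1300 = true) := ⟨by decide +kernel⟩

def b1300 : PLift (entF (fidx ts) 400 1300 n1300 = true) := ⟨by decide +kernel⟩

theorem g1300 : GoodF (fidx ts) 400 1300 := GoodF.ofV v1300 n1300 c1300.down b1300.down

/-- 466644:1040/2 -/
noncomputable def e1301 : SCfg where
  D := {
    a := 6
    L := 8
    kp := 5
    inn := [(0, 1), (1, 0), (1, 2), (1, 3), (2, 1), (2, 4), (3, 1), (3, 5), (4, 2), (5, 3)]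
    mix := [(0, 0), (0, 1), (0, 2), (1, 0), (1, 2), (1, 3), (2, 2), (2, 3), (2, 4), (2, 5), (3, 0), (3,
      3), (3, 6), (3, 7), (4, 1), (4, 2), (4, 4), (5, 0), (5, 1), (5, 7)]
    cl := [0, 2, 1, 0, 4, 1, 5, 3]
    chq := [(0, 3), (3, 0)]
    rng := [(0, 1), (1, 0), (1, 2), (1, 4), (1, 7), (2, 1), (3, 5), (3, 6), (4, 1), (4, 5), (5, 3), (5,
      4), (6, 3), (6, 7), (7, 1), (7, 6)]
    lev := [] }
  links := [[1, 6, 7, 8], [6, 0, 8, 2, 9, 3], [9, 1, 8, 4, 10, 11], [6, 1, 9, 12, 13, 5], [10, 2, 8, 7],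
    [6, 3, 13, 7]]
  P := {
    a := 6
    N := 14
    nb := [450, 845, 3858, 12898, 1412, 8392, 171, 9585, 151, 6158, 2196, 1540, 8712, 4264]
    tri := [(0, 1, 6), (0, 1, 8), (0, 6, 7), (0, 7, 8), (1, 2, 8), (1, 2, 9), (1, 3, 6), (1, 3, 9), (2,
      4, 8), (2, 4, 10), (2, 9, 11), (2, 10, 11), (3, 5, 6), (3, 5, 13), (3, 9, 12), (3, 12, 13),
      (4, 7, 8), (4, 7, 10), (5, 6, 7), (5, 7, 13)]
    fin := [0, 0, 2, 0, 4, 0, 0, 4, 2, 0, 10, 2, 12, 13]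
    chd := [(0, 13)]
    steps := [(0, 1), (0, 3), (0, 6), (0, 5), (0, 9), (2, 8), (2, 11), (4, 7)] }
  rep := [0, 2, 4, 13, 10, 12]

noncomputable def v1301 : Cov.CovD where
  P := 3
  N := 3
  pl := [1, 4, 6]
  lev := [⟨[], [], [(0, 1)], [2], [(0, 0, [3]), (2, 1, [])]⟩,
    ⟨[], [(0, 0), (0, 1)], [(0, 0), (0, 1)], [], [(0, 0, [3]), (2, 1, []), (3, 0, [3])]⟩,
    ⟨[(0, 1)], [(0, 1), (1, 0), (1, 1)], [(0, 1), (1, 1)], [4], [(2, 1, []), (3, 0, [3]),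
      (5, 1, [])]⟩,
    ⟨[(0, 1), (1, 2)], [(0, 0), (1, 0), (1, 1), (1, 3), (2, 0)], [(0, 0), (0, 3)], [5],
      [(0, 0, [3]), (3, 0, [3]), (7, 3, [0])]⟩,
    ⟨[(1, 2)], [(0, 1), (1, 1), (2, 0), (2, 1)], [], [2, 4], [(2, 1, [])]⟩,
    ⟨[(1, 3)], [(0, 0), (1, 0), (3, 0), (3, 3)], [(0, 3)], [2], [(0, 0, [3]), (7, 3, [0])]⟩]
  Ta := [((0, 1), 0, 2), ((2, 1), 1, 2), ((3, 5), 0, 1), ((3, 6), 0, 5), ((5, 3), 1, 0), ((5, 4),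
    1, 4)]
  Tb := [((1, 0, 2), 2, 0, 1), ((1, 0, 4), 2, 0, 4), ((1, 0, 7), 2, 0, 3), ((1, 2, 4), 2, 1, 4),
    ((1, 2, 7), 2, 1, 3), ((1, 4, 7), 2, 4, 3), ((3, 5, 6), 0, 1, 5), ((4, 1, 5), 4, 2, 1),
    ((5, 3, 4), 1, 0, 4), ((6, 3, 7), 5, 0, 3), ((7, 1, 6), 3, 2, 5)]
  Tc := []
  Td := [((0, 3), (0, 1), 2), ((0, 3), (3, 5), 1), ((0, 3), (3, 6), 5), ((3, 0), (7, 1), 2), ((3,
    0), (7, 6), 5)]
  G := [[0, 0, 0x44c4188c22ca1c4, 0x414444c88c8a84c4a9c4, 0xa14488a828e8121acc8], [0, 0,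
    0x88caac22ce142, 0, 0x88a822e21282a2cd48], [0, 0, 0, 0x414114494ec8818a8c4,
    0xa14488a828e8121acc1], [0, 0x144818e114111e684, 0, 0, 0x119121e4881828e8c2]]

noncomputable def n1301 : Ent := ⟨e1301, noF, [], [], []⟩

def c1301 : PLift (Cov.check n1301.C.D v1301 = true) := ⟨by decide +kernel⟩

def b1301 : PLift (entF (fidx ts) 400 1301 n1301 = true) := ⟨by decide +kernel⟩

theorem g1301 : GoodF (fidx ts) 400 1301 := GoodF.ofV v1301 n1301 c1301.down b1301.down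

/-- 466644:1040/1 -/
noncomputable def e1302 : SCfg where
  D := {
    a := 6
    L := 9
    kp := 6
    inn := [(0, 1), (1, 0), (1, 2), (1, 3), (2, 1), (2, 4), (3, 1), (3, 5), (4, 2), (5, 3)]
    mix := [(0, 0), (0, 1), (0, 2), (1, 0), (1, 2), (1, 3), (2, 2), (2, 3), (2, 4), (2, 5), (3, 0), (3,
      3), (3, 6), (3, 7), (4, 1), (4, 2), (4, 4), (5, 0), (5, 7), (5, 8)]
    cl := [0, 2, 1, 0, 4, 1, 5, 3, 6]
    chq := [(0, 3), (3, 0)]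
    rng := [(0, 1), (0, 8), (1, 0), (1, 2), (1, 4), (2, 1), (3, 5), (3, 6), (4, 1), (4, 5), (5, 3), (5,
      4), (6, 3), (6, 7), (7, 6), (7, 8), (8, 0), (8, 7)]
    lev := [] }
  links := [[1, 6, 7, 8], [6, 0, 8, 2, 9, 3], [9, 1, 8, 4, 10, 11], [6, 1, 9, 12, 13, 5], [10, 2, 8, 7],
    [6, 3, 13, 14]]
  P := {
    a := 6
    N := 15
    nb := [450, 845, 3858, 12898, 1412, 24648, 16555, 1361, 151, 6158, 2196, 1540, 8712, 20520, 8288]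
    tri := [(0, 1, 6), (0, 1, 8), (0, 6, 7), (0, 7, 8), (1, 2, 8), (1, 2, 9), (1, 3, 6), (1, 3, 9), (2,
      4, 8), (2, 4, 10), (2, 9, 11), (2, 10, 11), (3, 5, 6), (3, 5, 13), (3, 9, 12), (3, 12, 13),
      (4, 7, 8), (4, 7, 10), (5, 6, 14), (5, 13, 14)]
    fin := [0, 0, 2, 0, 4, 0, 0, 4, 2, 0, 10, 2, 12, 13, 14]
    chd := [(0, 13)]
    steps := [(0, 1), (0, 3), (0, 5), (0, 6), (0, 9), (2, 8), (2, 11), (4, 7)] }
  rep := [0, 2, 4, 13, 10, 12, 14]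

noncomputable def v1302 : Cov.CovD where
  P := 3
  N := 4
  pl := [1, 4, 6, 8]
  lev := [⟨[], [], [(0, 1)], [2], [(0, 0, [3]), (2, 1, [])]⟩,
    ⟨[], [(0, 0), (0, 1)], [(0, 0), (0, 1)], [], [(0, 0, [3]), (2, 1, []), (3, 0, [3])]⟩,
    ⟨[(0, 1)], [(0, 1), (1, 0), (1, 1)], [(0, 1), (1, 1)], [4], [(2, 1, []), (3, 0, [3]),
      (5, 1, [])]⟩,
    ⟨[(0, 1), (1, 2)], [(0, 0), (1, 0), (1, 1), (1, 3), (2, 0)], [(0, 0), (0, 3)], [5],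
      [(0, 0, [3]), (3, 0, [3]), (7, 3, [0])]⟩,
    ⟨[(1, 2)], [(0, 1), (1, 1), (2, 0), (2, 1)], [], [2, 4], [(2, 1, [])]⟩,
    ⟨[(1, 3)], [(0, 0), (1, 0), (3, 0), (3, 3)], [(0, 3)], [6], [(0, 0, [3]), (7, 3, [0])]⟩]
  Ta := [((0, 1), 0, 2), ((0, 8), 0, 6), ((2, 1), 1, 2), ((3, 5), 0, 1), ((3, 6), 0, 5), ((5, 3),
    1, 0), ((5, 4), 1, 4)]
  Tb := [((0, 1, 8), 0, 2, 6), ((1, 0, 2), 2, 0, 1), ((1, 0, 4), 2, 0, 4), ((1, 2, 4), 2, 1, 4),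
    ((3, 5, 6), 0, 1, 5), ((4, 1, 5), 4, 2, 1), ((5, 3, 4), 1, 0, 4), ((6, 3, 7), 5, 0, 3),
    ((7, 6, 8), 3, 5, 6), ((8, 0, 7), 6, 0, 3)]
  Tc := []
  Td := [((0, 3), (0, 1), 2), ((0, 3), (0, 8), 6), ((0, 3), (3, 5), 1), ((0, 3), (3, 6), 5), ((3,
    0), (7, 6), 5), ((3, 0), (7, 8), 6)]
  G := [[0, 0, 0xeec41eeceeca1c4, 0xe14e44ce8e8ae4e4a9c4, 0x4e944845e8a8e8ee1e1acc8], [0, 0,
    0xee621eeceecc168, 0, 0xe82e22ce8e8ce1e1cc68], [0, 0, 0, 0xe14349454ecb818a8c4,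
    0xd1b164589838e118cc8], [0, 0x181111e111414ea48, 0, 0, 0x1144589838ed1d1acc2]]

noncomputable def n1302 : Ent := ⟨e1302, noF, [], [], [(7, 14, [81620716623019490593592230936445690773474979418095888715777, 0])]⟩

def c1302 : PLift (Cov.check n1302.C.D v1302 = true) := ⟨by decide +kernel⟩

def b1302 : PLift (entF (fidx ts) 400 1302 n1302 = true) := ⟨by decide +kernel⟩

theorem g1302 : GoodF (fidx ts) 400 1302 := GoodF.ofV v1302 n1302 c1302.down b1302.down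

/-- 466644:1040/3 -/
noncomputable def e1303 : SCfg where
  D := {
    a := 6
    L := 9
    kp := 6
    inn := [(0, 1), (1, 0), (1, 2), (1, 3), (2, 1), (2, 4), (3, 1), (3, 5), (4, 2), (5, 3)]
    mix := [(0, 0), (0, 1), (0, 2), (1, 0), (1, 2), (1, 3), (2, 2), (2, 3), (2, 4), (2, 5), (3, 0), (3,
      3), (3, 6), (3, 7), (4, 2), (4, 4), (4, 8), (5, 0), (5, 1), (5, 7)]
    cl := [0, 3, 1, 0, 2, 1, 5, 4, 6]
    chq := [(3, 5), (5, 3)]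
    rng := [(0, 1), (1, 0), (1, 2), (1, 7), (2, 1), (2, 8), (3, 5), (3, 6), (4, 5), (4, 8), (5, 3), (5,
      4), (6, 3), (6, 7), (7, 1), (7, 6), (8, 2), (8, 4)]
    lev := [] }
  links := [[1, 6, 7, 8], [6, 0, 8, 2, 9, 3], [9, 1, 8, 4, 10, 11], [6, 1, 9, 12, 13, 5], [10, 2, 8, 14],
    [6, 3, 13, 7]]
  P := {
    a := 6
    N := 15
    nb := [450, 845, 3858, 12898, 17668, 8392, 171, 8545, 16535, 6158, 18452, 1540, 8712, 4264, 1296]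
    tri := [(0, 1, 6), (0, 1, 8), (0, 6, 7), (0, 7, 8), (1, 2, 8), (1, 2, 9), (1, 3, 6), (1, 3, 9), (2,
      4, 8), (2, 4, 10), (2, 9, 11), (2, 10, 11), (3, 5, 6), (3, 5, 13), (3, 9, 12), (3, 12, 13),
      (4, 8, 14), (4, 10, 14), (5, 6, 7), (5, 7, 13)]
    fin := [0, 0, 2, 3, 2, 3, 0, 3, 2, 0, 10, 2, 12, 13, 14]
    chd := [(3, 12)]
    steps := [(0, 1), (0, 6), (0, 9), (2, 4), (2, 8), (2, 11), (3, 5), (3, 7)] }
  rep := [0, 2, 10, 3, 13, 12, 14]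

noncomputable def v1303 : Cov.CovD where
  P := 3
  N := 4
  pl := [4, 7, 8]
  lev := [⟨[], [], [(0, 1), (0, 3), (1, 3)], [], [(0, 0, []), (1, 3, [5]), (2, 1, [])]⟩,
    ⟨[], [(0, 0), (0, 1), (0, 3)], [(0, 0), (0, 1)], [], [(0, 0, []), (2, 1, []), (3, 0,
      [])]⟩,
    ⟨[(0, 1)], [(0, 1), (1, 0), (1, 1)], [(0, 1), (1, 1)], [2], [(2, 1, []), (3, 0, []),
      (5, 1, [])]⟩,
    ⟨[(0, 1), (1, 2)], [(0, 0), (1, 0), (1, 1), (1, 5), (2, 0)], [(0, 0), (0, 5)], [4],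
      [(0, 0, []), (3, 0, []), (6, 5, [3])]⟩,
    ⟨[(1, 2)], [(0, 1), (1, 1), (2, 0), (2, 1)], [], [2, 6], [(2, 1, [])]⟩,
    ⟨[(1, 3)], [(0, 0), (0, 3), (1, 0), (3, 0), (3, 3), (3, 5)], [(0, 3)], [4], [(0, 0,
      []), (1, 3, [5])]⟩]
  Ta := [((0, 1), 0, 3), ((2, 1), 1, 3), ((2, 8), 1, 6), ((3, 5), 0, 1), ((3, 6), 0, 5), ((5, 3),
    1, 0), ((5, 4), 1, 2)]
  Tb := [((1, 0, 2), 3, 0, 1), ((1, 0, 7), 3, 0, 4), ((1, 2, 7), 3, 1, 4), ((2, 1, 8), 1, 3, 6),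
    ((3, 5, 6), 0, 1, 5), ((4, 5, 8), 2, 1, 6), ((5, 3, 4), 1, 0, 2), ((6, 3, 7), 5, 0, 4),
    ((7, 1, 6), 4, 3, 5), ((8, 2, 4), 6, 1, 2)]
  Tc := []
  Td := [((3, 5), (1, 0), 0), ((3, 5), (1, 2), 1), ((3, 5), (1, 7), 4), ((5, 3), (6, 3), 0), ((5,
    3), (6, 7), 4)]
  G := [[0, 0, 0x88caac8cce8466c44c62ce48c, 0, 0xc89aa98c9e8441216682868e96188cc], [0, 0,
    0x82a282e84624222e48c, 0x66caac22ce142, 0x82a222e84624222e18c], [0, 0, 0x66caacccce841,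
    0, 0x669aa9cc9e841], [0, 0x815111e42112121e84a, 0xa2226628c81, 0x315a1c229e842,
    0x62a222e841]]

noncomputable def n1303 : Ent := ⟨e1303, noF, [], [], [(7, 14, [81620716623019490593592230936445690773474979418095888715777, 0])]⟩

def c1303 : PLift (Cov.check n1303.C.D v1303 = true) := ⟨by decide +kernel⟩

def b1303 : PLift (entF (fidx ts) 400 1303 n1303 = true) := ⟨by decide +kernel⟩

theorem g1303 : GoodF (fidx ts) 400 1303 := GoodF.ofV v1303 n1303 c1303.down b1303.down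

/-- 466644:1040/4 -/
noncomputable def e1304 : SCfg where
  D := {
    a := 6
    L := 9
    kp := 6
    inn := [(0, 1), (1, 0), (1, 2), (1, 3), (2, 1), (2, 4), (3, 1), (3, 5), (4, 2), (5, 3)]
    mix := [(0, 0), (0, 1), (0, 2), (1, 0), (1, 2), (1, 3), (2, 2), (2, 3), (2, 4), (2, 5), (3, 0), (3,
      3), (3, 6), (3, 7), (4, 2), (4, 4), (4, 8), (5, 0), (5, 7), (5, 8)]
    cl := [0, 6, 1, 0, 2, 1, 5, 4, 3]
    chq := [(3, 5), (5, 3)]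
    rng := [(0, 1), (0, 8), (1, 0), (1, 2), (2, 1), (2, 8), (3, 5), (3, 6), (4, 5), (4, 8), (5, 3), (5,
      4), (6, 3), (6, 7), (7, 6), (7, 8), (8, 0), (8, 2), (8, 4), (8, 7)]
    lev := [] }
  links := [[1, 6, 7, 8], [6, 0, 8, 2, 9, 3], [9, 1, 8, 4, 10, 11], [6, 1, 9, 12, 13, 5], [10, 2, 8, 14],
    [6, 3, 13, 14]]
  P := {
    a := 6
    N := 15
    nb := [450, 845, 3858, 12898, 17668, 24648, 16555, 321, 16535, 6158, 18452, 1540, 8712, 20520,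
      9584]
    tri := [(0, 1, 6), (0, 1, 8), (0, 6, 7), (0, 7, 8), (1, 2, 8), (1, 2, 9), (1, 3, 6), (1, 3, 9), (2,
      4, 8), (2, 4, 10), (2, 9, 11), (2, 10, 11), (3, 5, 6), (3, 5, 13), (3, 9, 12), (3, 12, 13),
      (4, 8, 14), (4, 10, 14), (5, 6, 14), (5, 13, 14)]
    fin := [0, 0, 2, 3, 2, 3, 0, 7, 2, 0, 10, 2, 12, 13, 3]
    chd := [(12, 3)]
    steps := [(0, 1), (0, 6), (0, 9), (2, 4), (2, 8), (2, 11), (3, 5), (3, 14)] }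
  rep := [0, 2, 10, 3, 13, 12, 7]

noncomputable def v1304 : Cov.CovD where
  P := 3
  N := 4
  pl := [1, 4, 7]
  lev := [⟨[], [], [(0, 1)], [6], [(0, 0, []), (2, 1, [])]⟩,
    ⟨[], [(0, 0), (0, 1)], [(0, 0), (0, 1)], [], [(0, 0, []), (2, 1, []), (3, 0, [])]⟩,
    ⟨[(0, 1)], [(0, 1), (1, 0), (1, 1)], [(0, 1), (1, 1)], [2], [(2, 1, []), (3, 0, []),
      (5, 1, [])]⟩,
    ⟨[(0, 1), (1, 2)], [(0, 0), (1, 0), (1, 1), (1, 5), (2, 0)], [(0, 0), (0, 5)], [4],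
      [(0, 0, []), (3, 0, []), (6, 5, [3])]⟩,
    ⟨[(1, 2)], [(0, 1), (1, 1), (2, 0), (2, 1), (2, 3)], [(1, 3)], [2], [(2, 1, []), (8, 3,
      [5])]⟩,
    ⟨[(1, 3)], [(0, 0), (1, 0), (3, 0), (3, 3), (3, 5), (4, 3)], [(0, 3)], [4], [(0, 0,
      []), (8, 3, [5])]⟩]
  Ta := [((0, 1), 0, 6), ((0, 8), 0, 3), ((2, 1), 1, 6), ((2, 8), 1, 3), ((3, 5), 0, 1), ((3, 6),
    0, 5), ((5, 3), 1, 0), ((5, 4), 1, 2)]
  Tb := [((0, 1, 8), 0, 6, 3), ((1, 0, 2), 6, 0, 1), ((2, 1, 8), 1, 6, 3), ((3, 5, 6), 0, 1, 5),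
    ((4, 5, 8), 2, 1, 3), ((5, 3, 4), 1, 0, 2), ((6, 3, 7), 5, 0, 4), ((7, 6, 8), 4, 5, 3),
    ((8, 0, 2), 3, 0, 1), ((8, 0, 4), 3, 0, 2), ((8, 0, 7), 3, 0, 4), ((8, 2, 4), 3, 1, 2),
    ((8, 2, 7), 3, 1, 4), ((8, 4, 7), 3, 2, 4)]
  Tc := []
  Td := [((3, 5), (8, 0), 0), ((3, 5), (8, 2), 1), ((3, 5), (8, 4), 2), ((3, 5), (8, 7), 4), ((5,
    3), (6, 3), 0), ((5, 3), (6, 7), 4)]
  G := [[0, 0, 0x86ca2c2cce8426ca4ca4ce48c, 0, 0x869a292c9e84214c849869c49a8cc], [0, 0,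
    0x26ca4c22ce482, 0x2eca2924ce842, 0x869a29249e842], [0, 0, 0x26ca4c86ce481, 0,
    0x61a1c1e841], [0, 0x311191e8211a151e846, 0x62a222e841, 0x61a121e841, 0x11a141e842]]

noncomputable def n1304 : Ent := ⟨e1304, noF, [], [], [(7, 14, [81620716623019490593592230936445690773474979418095888715777, 0])]⟩

def c1304 : PLift (Cov.check n1304.C.D v1304 = true) := ⟨by decide +kernel⟩

def b1304 : PLift (entF (fidx ts) 400 1304 n1304 = true) := ⟨by decide +kernel⟩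

theorem g1304 : GoodF (fidx ts) 400 1304 := GoodF.ofV v1304 n1304 c1304.down b1304.down

/-- 466644:1040 -/
noncomputable def e1305 : SCfg where
  D := {
    a := 6
    L := 10
    kp := 7
    inn := [(0, 1), (1, 0), (1, 2), (1, 3), (2, 1), (2, 4), (3, 1), (3, 5), (4, 2), (5, 3)]
    mix := [(0, 0), (0, 1), (0, 2), (1, 0), (1, 2), (1, 3), (2, 2), (2, 3), (2, 4), (2, 5), (3, 0), (3,
      3), (3, 6), (3, 7), (4, 2), (4, 4), (4, 8), (5, 0), (5, 7), (5, 9)]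
    cl := [0, 6, 1, 0, 2, 1, 4, 3, 7, 5]
    chq := [(4, 5), (5, 4)]
    rng := [(0, 1), (0, 9), (1, 0), (1, 2), (2, 1), (2, 8), (3, 5), (3, 6), (4, 5), (4, 8), (5, 3), (5,
      4), (6, 3), (6, 7), (7, 6), (7, 9), (8, 2), (8, 4), (9, 0), (9, 7)]
    lev := [] }
  links := [[1, 6, 7, 8], [6, 0, 8, 2, 9, 3], [9, 1, 8, 4, 10, 11], [6, 1, 9, 12, 13, 5], [10, 2, 8, 14],
    [6, 3, 13, 15]]
  P := {
    a := 6
    N := 16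
    nb := [450, 845, 3858, 12898, 17668, 41032, 32939, 321, 16535, 6158, 18452, 1540, 8712, 36904,
      1296, 8288]
    tri := [(0, 1, 6), (0, 1, 8), (0, 6, 7), (0, 7, 8), (1, 2, 8), (1, 2, 9), (1, 3, 6), (1, 3, 9), (2,
      4, 8), (2, 4, 10), (2, 9, 11), (2, 10, 11), (3, 5, 6), (3, 5, 13), (3, 9, 12), (3, 12, 13),
      (4, 8, 14), (4, 10, 14), (5, 6, 15), (5, 13, 15)]
    fin := [0, 0, 2, 3, 2, 3, 0, 7, 2, 0, 10, 2, 3, 13, 14, 15]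
    chd := [(3, 15)]
    steps := [(0, 1), (0, 6), (0, 9), (2, 4), (2, 8), (2, 11), (3, 5), (3, 12)] }
  rep := [0, 2, 10, 13, 3, 15, 7, 14]

noncomputable def v1305 : Cov.CovD where
  P := 3
  N := 5
  pl := [1, 4, 7, 8]
  lev := [⟨[], [], [(0, 1)], [6], [(0, 0, []), (2, 1, [])]⟩,
    ⟨[], [(0, 0), (0, 1)], [(0, 0), (0, 1)], [], [(0, 0, []), (2, 1, []), (3, 0, [])]⟩,
    ⟨[(0, 1)], [(0, 1), (1, 0), (1, 1)], [(0, 1), (1, 1)], [2], [(2, 1, []), (3, 0, []),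
      (5, 1, [])]⟩,
    ⟨[(0, 1), (1, 2)], [(0, 0), (1, 0), (1, 1), (1, 4), (2, 0)], [(0, 0), (0, 4)], [3],
      [(0, 0, []), (3, 0, []), (6, 4, [5])]⟩,
    ⟨[(1, 2)], [(0, 1), (1, 1), (2, 0), (2, 1)], [], [2, 7], [(2, 1, [])]⟩,
    ⟨[(1, 3)], [(0, 0), (1, 0), (3, 0), (3, 4), (3, 5)], [(0, 5)], [3], [(0, 0, []), (9, 5,
      [4])]⟩]
  Ta := [((0, 1), 0, 6), ((0, 9), 0, 5), ((2, 1), 1, 6), ((2, 8), 1, 7), ((3, 5), 0, 1), ((3, 6),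
    0, 4), ((5, 3), 1, 0), ((5, 4), 1, 2)]
  Tb := [((0, 1, 9), 0, 6, 5), ((1, 0, 2), 6, 0, 1), ((2, 1, 8), 1, 6, 7), ((3, 5, 6), 0, 1, 4),
    ((4, 5, 8), 2, 1, 7), ((5, 3, 4), 1, 0, 2), ((6, 3, 7), 4, 0, 3), ((7, 6, 9), 3, 4, 5),
    ((8, 2, 4), 7, 1, 2), ((9, 0, 7), 5, 0, 3)]
  Tc := []
  Td := [((4, 5), (6, 3), 0), ((4, 5), (6, 7), 3), ((5, 4), (9, 0), 0), ((5, 4), (9, 7), 3)]
  G := [[0, 0, 0x66caacccce84a4c4666ca8c8ec8c, 0, 0x669aa9cc9e84a14a849669cc9a8cc], [0, 0,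
    0x66caacccce482, 0x665aa9cc5e842, 0x669aa9cc9e842], [0, 0, 0x66caacc4ec82c41, 0,
    0x669aa9cc9e841], [0, 0x113151e429145111ac8a, 0x62a2c2e481, 0xa5553561698c82,
    0xa24862c2a8c1]]

noncomputable def n1305 : Ent := ⟨e1305, noF, [], [], [(7, 14, [385746751338780685620664494392815470296102193487288376377827329, 0]), (7, 15, [360035742630636841211993100915356868655746945586763691013009409, 0]), (14, 15, [360035742630636841211993100915356868655746945586763691013013505, 0])]⟩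

def c1305 : PLift (Cov.check n1305.C.D v1305 = true) := ⟨by decide +kernel⟩

def b1305 : PLift (entF (fidx ts) 400 1305 n1305 = true) := ⟨by decide +kernel⟩

theorem g1305 : GoodF (fidx ts) 400 1305 := GoodF.ofV v1305 n1305 c1305.down b1305.down

/-- 467664:1043/1 -/
noncomputable def e1306 : SCfg where
  D := {
    a := 6
    L := 10
    kp := 7
    inn := [(0, 1), (0, 4), (1, 0), (1, 2), (1, 3), (1, 4), (2, 1), (2, 3), (2, 5), (3, 1), (3, 2), (4,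
      0), (4, 1), (5, 2)]
    mix := [(0, 0), (0, 1), (1, 1), (1, 2), (2, 1), (2, 3), (2, 4), (2, 5), (3, 2), (3, 5), (3, 6), (3,
      7), (4, 0), (4, 2), (4, 8), (4, 9), (5, 3), (5, 4), (5, 8)]
    cl := [0, 1, 0, 2, 3, 2, 5, 6, 4, 7]
    chq := [(1, 5), (1, 6), (5, 1), (6, 1)]
    rng := [(0, 1), (0, 9), (1, 0), (1, 3), (2, 7), (2, 8), (3, 1), (3, 8), (4, 5), (4, 8), (5, 4), (5,
      6), (6, 5), (6, 7), (7, 2), (7, 6), (8, 2), (8, 3), (8, 4), (8, 9), (9, 0), (9, 8)]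
    lev := [] }
  links := [[1, 4, 6, 7], [4, 0, 7, 2, 3, 8], [3, 1, 7, 9, 5, 10, 11], [8, 1, 2, 11, 12, 13], [6, 0, 1,
    8, 14, 15], [10, 2, 9, 14]]
  P := {
    a := 6
    N := 16
    nb := [210, 413, 3754, 14598, 49475, 17924, 32913, 583, 24602, 16548, 18468, 5132, 10248, 4360,
      34608, 16464]
    tri := [(0, 1, 4), (0, 1, 7), (0, 4, 6), (0, 6, 7), (1, 2, 3), (1, 2, 7), (1, 3, 8), (1, 4, 8), (2,
      3, 11), (2, 5, 9), (2, 5, 10), (2, 7, 9), (2, 10, 11), (3, 8, 13), (3, 11, 12), (3, 12, 13),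
      (4, 6, 15), (4, 8, 14), (4, 14, 15), (5, 9, 14), (5, 10, 14)]
    fin := [0, 1, 2, 1, 0, 2, 0, 1, 0, 2, 10, 2, 12, 13, 14, 15]
    chd := [(1, 12), (1, 13)]
    steps := [(0, 4), (0, 6), (0, 8), (1, 3), (1, 7), (2, 5), (2, 9), (2, 11)] }
  rep := [0, 1, 2, 10, 14, 12, 13, 15]

noncomputable def v1306 : Cov.CovD where
  P := 3
  N := 5
  pl := [4, 8, 9]
  lev := [⟨[], [], [(0, 1)], [], [(0, 0, []), (1, 1, [5, 6])]⟩,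
    ⟨[], [(0, 0), (0, 1)], [(0, 1)], [], [(1, 1, [5, 6]), (2, 0, [])]⟩,
    ⟨[(0, 1)], [(0, 1), (1, 0), (1, 1), (1, 2)], [(1, 2), (2, 2)], [3], [(1, 1, [5, 6]),
      (3, 2, []), (5, 2, [])]⟩,
    ⟨[(0, 1), (1, 2)], [(1, 0), (1, 1), (1, 2), (1, 5), (1, 6), (2, 0), (2, 1), (2, 2), (2,
      5), (2, 6)], [(0, 2), (0, 5), (0, 6), (2, 5), (2, 6), (5, 6)], [], [(2, 0, []), (5, 2,
      []), (6, 5, [1]), (7, 6, [1])]⟩,
    ⟨[(0, 1), (1, 2), (1, 3)], [(0, 0), (0, 1), (1, 0), (1, 1), (3, 0)], [(0, 0)], [4, 7],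
      [(0, 0, []), (2, 0, [])]⟩,
    ⟨[(1, 2), (2, 3)], [(2, 1), (2, 2)], [], [3, 4], [(3, 2, [])]⟩]
  Ta := [((0, 1), 0, 1), ((0, 9), 0, 7), ((2, 7), 0, 6), ((2, 8), 0, 4), ((3, 1), 2, 1), ((3, 8),
    2, 4), ((5, 4), 2, 3), ((5, 6), 2, 5)]
  Tb := [((0, 1, 9), 0, 1, 7), ((1, 0, 3), 1, 0, 2), ((2, 7, 8), 0, 6, 4), ((3, 1, 8), 2, 1, 4),
    ((4, 5, 8), 3, 2, 4), ((5, 4, 6), 2, 3, 5), ((6, 5, 7), 5, 2, 6), ((7, 2, 6), 6, 0, 5),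
    ((8, 2, 3), 4, 0, 2), ((8, 2, 4), 4, 0, 3), ((8, 2, 9), 4, 0, 7), ((8, 3, 4), 4, 2, 3),
    ((8, 3, 9), 4, 2, 7), ((8, 4, 9), 4, 3, 7), ((9, 0, 8), 7, 0, 4)]
  Tc := [(1, 5, 6)]
  Td := [((1, 5), (1, 0), 0), ((1, 5), (1, 3), 2), ((1, 6), (1, 0), 0), ((1, 6), (1, 3), 2), ((5,
    1), (6, 5), 2), ((5, 1), (6, 7), 6), ((6, 1), (7, 2), 0), ((6, 1), (7, 6), 5)]
  G := [[0, 0x819e1145e1c28, 0x8aae2646e2c14, 0x84ce2111e2948, 0x111e218a2e2858], [0,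
    0x811e1242e1c24, 0x811e2142e2c14, 0, 0x111e21842e2894], [0, 0, 0x646e248aae28c1,
    0x84ce2991e2581, 0x8a3e2132e2941], [0, 0, 0x41624812e2182cc8, 0, 0x8a2e2441e2941]]

noncomputable def n1306 : Ent := ⟨e1306, noF, [], [], []⟩

def c1306 : PLift (Cov.check n1306.C.D v1306 = true) := ⟨by decide +kernel⟩

def b1306 : PLift (entF (fidx ts) 400 1306 n1306 = true) := ⟨by decide +kernel⟩

theorem g1306 : GoodF (fidx ts) 400 1306 := GoodF.ofV v1306 n1306 c1306.down b1306.down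

/-- 467664:1043/3 -/
noncomputable def e1307 : SCfg where
  D := {
    a := 6
    L := 9
    kp := 6
    inn := [(0, 1), (0, 4), (1, 0), (1, 2), (1, 3), (1, 4), (2, 1), (2, 3), (2, 5), (3, 1), (3, 2), (4,
      0), (4, 1), (5, 2)]
    mix := [(0, 0), (0, 1), (1, 1), (1, 2), (2, 1), (2, 3), (2, 4), (2, 5), (3, 2), (3, 5), (3, 6), (3,
      7), (4, 0), (4, 2), (4, 7), (4, 8), (5, 3), (5, 4), (5, 8)]
    cl := [0, 1, 0, 2, 4, 2, 6, 3, 5]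
    chq := [(1, 3), (1, 6), (3, 1), (6, 1)]
    rng := [(0, 1), (0, 8), (1, 0), (1, 3), (2, 7), (3, 1), (3, 8), (4, 5), (4, 8), (5, 4), (5, 6), (6,
      5), (6, 7), (7, 2), (7, 6), (7, 8), (8, 0), (8, 3), (8, 4), (8, 7)]
    lev := [] }
  links := [[1, 4, 6, 7], [4, 0, 7, 2, 3, 8], [3, 1, 7, 9, 5, 10, 11], [8, 1, 2, 11, 12, 13], [6, 0, 1,
    8, 13, 14], [10, 2, 9, 14]]
  P := {
    a := 6
    N := 15
    nb := [210, 413, 3754, 14598, 24899, 17924, 16529, 583, 8218, 16548, 18468, 5132, 10248, 20760,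
      9840]
    tri := [(0, 1, 4), (0, 1, 7), (0, 4, 6), (0, 6, 7), (1, 2, 3), (1, 2, 7), (1, 3, 8), (1, 4, 8), (2,
      3, 11), (2, 5, 9), (2, 5, 10), (2, 7, 9), (2, 10, 11), (3, 8, 13), (3, 11, 12), (3, 12, 13),
      (4, 6, 14), (4, 8, 13), (4, 13, 14), (5, 9, 14), (5, 10, 14)]
    fin := [0, 1, 2, 1, 0, 2, 0, 1, 0, 2, 10, 2, 12, 13, 14]
    chd := [(1, 12), (1, 13)]
    steps := [(0, 4), (0, 6), (0, 8), (1, 3), (1, 7), (2, 5), (2, 9), (2, 11)] }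
  rep := [0, 1, 2, 13, 10, 14, 12]

noncomputable def v1307 : Cov.CovD where
  P := 3
  N := 4
  pl := [4, 8]
  lev := [⟨[], [], [(0, 1)], [], [(0, 0, []), (1, 1, [3, 6])]⟩,
    ⟨[], [(0, 0), (0, 1)], [(0, 1)], [], [(1, 1, [3, 6]), (2, 0, [])]⟩,
    ⟨[(0, 1)], [(0, 1), (1, 0), (1, 1), (1, 2)], [(1, 2), (2, 2)], [4], [(1, 1, [3, 6]),
      (3, 2, []), (5, 2, [])]⟩,
    ⟨[(0, 1), (1, 2)], [(1, 0), (1, 1), (1, 2), (1, 3), (1, 6), (2, 0), (2, 1), (2, 2), (2,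
      3), (2, 6)], [(0, 2), (0, 3), (0, 6), (2, 3), (2, 6), (3, 6)], [], [(2, 0, []), (5, 2,
      []), (6, 6, [1]), (7, 3, [1])]⟩,
    ⟨[(0, 1), (1, 2), (1, 3)], [(0, 0), (0, 1), (0, 3), (1, 0), (1, 1), (1, 3), (3, 0), (3,
      3)], [(0, 0), (0, 3)], [5], [(0, 0, []), (2, 0, []), (7, 3, [1])]⟩,
    ⟨[(1, 2), (2, 3)], [(2, 1), (2, 2)], [], [4, 5], [(3, 2, [])]⟩]
  Ta := [((0, 1), 0, 1), ((0, 8), 0, 5), ((2, 7), 0, 3), ((3, 1), 2, 1), ((3, 8), 2, 5), ((5, 4),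
    2, 4), ((5, 6), 2, 6)]
  Tb := [((0, 1, 8), 0, 1, 5), ((1, 0, 3), 1, 0, 2), ((3, 1, 8), 2, 1, 5), ((4, 5, 8), 4, 2, 5),
    ((5, 4, 6), 2, 4, 6), ((6, 5, 7), 6, 2, 3), ((7, 2, 6), 3, 0, 6), ((7, 2, 8), 3, 0, 5),
    ((7, 6, 8), 3, 6, 5), ((8, 0, 3), 5, 0, 2), ((8, 0, 4), 5, 0, 4), ((8, 0, 7), 5, 0, 3),
    ((8, 3, 4), 5, 2, 4), ((8, 3, 7), 5, 2, 3), ((8, 4, 7), 5, 4, 3)]
  Tc := [(1, 3, 6)]
  Td := [((1, 3), (1, 0), 0), ((1, 3), (1, 3), 2), ((1, 6), (1, 0), 0), ((1, 6), (1, 3), 2), ((3,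
    1), (7, 2), 0), ((3, 1), (7, 6), 6), ((3, 1), (7, 8), 5), ((6, 1), (6, 5), 2), ((6, 1),
    (6, 7), 3)]
  G := [[0, 0x811e114de1c24, 0x8a6e264ae2c18, 0xc22922588, 0x142133a218a2e28d4], [0,
    0x41614822e1281cc8, 0x812e2141e2c18, 0, 0x844e21e2e2948], [0, 0, 0x646e248aae28c1,
    0xc22122941, 0x111e218a2e28c1], [0, 0, 0x142e24811e28c1, 0, 0x444e2111e2948]]

noncomputable def n1307 : Ent := ⟨e1307, noF, [], [], []⟩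

def c1307 : PLift (Cov.check n1307.C.D v1307 = true) := ⟨by decide +kernel⟩

def b1307 : PLift (entF (fidx ts) 400 1307 n1307 = true) := ⟨by decide +kernel⟩

theorem g1307 : GoodF (fidx ts) 400 1307 := GoodF.ofV v1307 n1307 c1307.down b1307.down

/-- 467664:1043/2 -/
noncomputable def e1308 : SCfg where
  D := {
    a := 6
    L := 10
    kp := 7
    inn := [(0, 1), (0, 4), (1, 0), (1, 2), (1, 3), (1, 4), (2, 1), (2, 3), (2, 5), (3, 1), (3, 2), (4,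
      0), (4, 1), (5, 2)]
    mix := [(0, 0), (0, 1), (1, 1), (1, 2), (2, 1), (2, 3), (2, 4), (2, 5), (3, 2), (3, 5), (3, 6), (3,
      7), (4, 0), (4, 2), (4, 8), (4, 9), (5, 3), (5, 4), (5, 9)]
    cl := [0, 1, 0, 2, 3, 2, 5, 6, 7, 4]
    chq := [(1, 5), (1, 6), (5, 1), (6, 1)]
    rng := [(0, 1), (0, 9), (1, 0), (1, 3), (2, 7), (2, 8), (3, 1), (3, 9), (4, 5), (4, 9), (5, 4), (5,
      6), (6, 5), (6, 7), (7, 2), (7, 6), (8, 2), (8, 9), (9, 0), (9, 3), (9, 4), (9, 8)]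
    lev := [] }
  links := [[1, 4, 6, 7], [4, 0, 7, 2, 3, 8], [3, 1, 7, 9, 5, 10, 11], [8, 1, 2, 11, 12, 13], [6, 0, 1,
    8, 14, 15], [10, 2, 9, 15]]
  P := {
    a := 6
    N := 16
    nb := [210, 413, 3754, 14598, 49475, 34308, 32913, 583, 24602, 32932, 34852, 5132, 10248, 4360,
      33040, 18032]
    tri := [(0, 1, 4), (0, 1, 7), (0, 4, 6), (0, 6, 7), (1, 2, 3), (1, 2, 7), (1, 3, 8), (1, 4, 8), (2,
      3, 11), (2, 5, 9), (2, 5, 10), (2, 7, 9), (2, 10, 11), (3, 8, 13), (3, 11, 12), (3, 12, 13),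
      (4, 6, 15), (4, 8, 14), (4, 14, 15), (5, 9, 15), (5, 10, 15)]
    fin := [0, 1, 2, 1, 0, 2, 0, 1, 0, 2, 10, 2, 12, 13, 14, 15]
    chd := [(1, 12), (1, 13)]
    steps := [(0, 4), (0, 6), (0, 8), (1, 3), (1, 7), (2, 5), (2, 9), (2, 11)] }
  rep := [0, 1, 2, 10, 15, 12, 13, 14]

noncomputable def v1308 : Cov.CovD where
  P := 3
  N := 5
  pl := [4, 8, 9]
  lev := [⟨[], [], [(0, 1)], [], [(0, 0, []), (1, 1, [5, 6])]⟩,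
    ⟨[], [(0, 0), (0, 1)], [(0, 1)], [], [(1, 1, [5, 6]), (2, 0, [])]⟩,
    ⟨[(0, 1)], [(0, 1), (1, 0), (1, 1), (1, 2)], [(1, 2), (2, 2)], [3], [(1, 1, [5, 6]),
      (3, 2, []), (5, 2, [])]⟩,
    ⟨[(0, 1), (1, 2)], [(1, 0), (1, 1), (1, 2), (1, 5), (1, 6), (2, 0), (2, 1), (2, 2), (2,
      5), (2, 6)], [(0, 2), (0, 5), (0, 6), (2, 5), (2, 6), (5, 6)], [], [(2, 0, []), (5, 2,
      []), (6, 5, [1]), (7, 6, [1])]⟩,
    ⟨[(0, 1), (1, 2), (1, 3)], [(0, 0), (0, 1), (1, 0), (1, 1), (3, 0)], [(0, 0)], [4, 7],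
      [(0, 0, []), (2, 0, [])]⟩,
    ⟨[(1, 2), (2, 3)], [(2, 1), (2, 2)], [], [3, 4], [(3, 2, [])]⟩]
  Ta := [((0, 1), 0, 1), ((0, 9), 0, 4), ((2, 7), 0, 6), ((2, 8), 0, 7), ((3, 1), 2, 1), ((3, 9),
    2, 4), ((5, 4), 2, 3), ((5, 6), 2, 5)]
  Tb := [((0, 1, 9), 0, 1, 4), ((1, 0, 3), 1, 0, 2), ((2, 7, 8), 0, 6, 7), ((3, 1, 9), 2, 1, 4),
    ((4, 5, 9), 3, 2, 4), ((5, 4, 6), 2, 3, 5), ((6, 5, 7), 5, 2, 6), ((7, 2, 6), 6, 0, 5),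
    ((8, 2, 9), 7, 0, 4), ((9, 0, 3), 4, 0, 2), ((9, 0, 4), 4, 0, 3), ((9, 0, 8), 4, 0, 7),
    ((9, 3, 4), 4, 2, 3), ((9, 3, 8), 4, 2, 7), ((9, 4, 8), 4, 3, 7)]
  Tc := [(1, 5, 6)]
  Td := [((1, 5), (1, 0), 0), ((1, 5), (1, 3), 2), ((1, 6), (1, 0), 0), ((1, 6), (1, 3), 2), ((5,
    1), (6, 5), 2), ((5, 1), (6, 7), 6), ((6, 1), (7, 2), 0), ((6, 1), (7, 6), 5)]
  G := [[0, 0x819e1145e1c28, 0x8aae2646e2c18, 0x819e2145e2c18, 0x331e218a2e2894], [0,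
    0x812e1241e1c24, 0x812e2141e2c14, 0, 0x852e2441e2948], [0, 0, 0x642e248aee28c1,
    0x84ce2111e2941, 0x8a2e2111e2948], [0, 0, 0x142142e2c81a28c4, 0, 0x842e2111e2941]]

noncomputable def n1308 : Ent := ⟨e1308, noF, [], [], [(13, 14, [385746751338780685620664494392815470296102193487288376377847809, 0])]⟩

def c1308 : PLift (Cov.check n1308.C.D v1308 = true) := ⟨by decide +kernel⟩

def b1308 : PLift (entF (fidx ts) 400 1308 n1308 = true) := ⟨by decide +kernel⟩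

theorem g1308 : GoodF (fidx ts) 400 1308 := GoodF.ofV v1308 n1308 c1308.down b1308.down

/-- 467664:1043/4 -/
noncomputable def e1309 : SCfg where
  D := {
    a := 6
    L := 10
    kp := 7
    inn := [(0, 1), (0, 4), (1, 0), (1, 2), (1, 3), (1, 4), (2, 1), (2, 3), (2, 5), (3, 1), (3, 2), (4,
      0), (4, 1), (5, 2)]
    mix := [(0, 0), (0, 1), (1, 1), (1, 2), (2, 1), (2, 3), (2, 4), (2, 5), (3, 2), (3, 5), (3, 6), (3,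
      7), (4, 0), (4, 2), (4, 7), (4, 8), (5, 3), (5, 4), (5, 9)]
    cl := [0, 1, 0, 2, 4, 2, 5, 3, 6, 7]
    chq := [(1, 3), (1, 5), (3, 1), (5, 1)]
    rng := [(0, 1), (0, 8), (1, 0), (1, 3), (2, 7), (3, 1), (3, 9), (4, 5), (4, 9), (5, 4), (5, 6), (6,
      5), (6, 7), (7, 2), (7, 6), (7, 8), (8, 0), (8, 7), (9, 3), (9, 4)]
    lev := [] }
  links := [[1, 4, 6, 7], [4, 0, 7, 2, 3, 8], [3, 1, 7, 9, 5, 10, 11], [8, 1, 2, 11, 12, 13], [6, 0, 1,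
    8, 13, 14], [10, 2, 9, 15]]
  P := {
    a := 6
    N := 16
    nb := [210, 413, 3754, 14598, 24899, 34308, 16529, 583, 8218, 32932, 34852, 5132, 10248, 20760,
      8272, 1568]
    tri := [(0, 1, 4), (0, 1, 7), (0, 4, 6), (0, 6, 7), (1, 2, 3), (1, 2, 7), (1, 3, 8), (1, 4, 8), (2,
      3, 11), (2, 5, 9), (2, 5, 10), (2, 7, 9), (2, 10, 11), (3, 8, 13), (3, 11, 12), (3, 12, 13),
      (4, 6, 14), (4, 8, 13), (4, 13, 14), (5, 9, 15), (5, 10, 15)]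
    fin := [0, 1, 2, 1, 0, 2, 0, 1, 0, 2, 10, 2, 12, 13, 14, 15]
    chd := [(1, 12), (1, 13)]
    steps := [(0, 4), (0, 6), (0, 8), (1, 3), (1, 7), (2, 5), (2, 9), (2, 11)] }
  rep := [0, 1, 2, 13, 10, 12, 14, 15]

noncomputable def v1309 : Cov.CovD where
  P := 3
  N := 5
  pl := [4, 8, 9]
  lev := [⟨[], [], [(0, 1)], [], [(0, 0, []), (1, 1, [3, 5])]⟩,
    ⟨[], [(0, 0), (0, 1)], [(0, 1)], [], [(1, 1, [3, 5]), (2, 0, [])]⟩,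
    ⟨[(0, 1)], [(0, 1), (1, 0), (1, 1), (1, 2)], [(1, 2), (2, 2)], [4], [(1, 1, [3, 5]),
      (3, 2, []), (5, 2, [])]⟩,
    ⟨[(0, 1), (1, 2)], [(1, 0), (1, 1), (1, 2), (1, 3), (1, 5), (2, 0), (2, 1), (2, 2), (2,
      3), (2, 5)], [(0, 2), (0, 3), (0, 5), (2, 3), (2, 5), (3, 5)], [], [(2, 0, []), (5, 2,
      []), (6, 5, [1]), (7, 3, [1])]⟩,
    ⟨[(0, 1), (1, 2), (1, 3)], [(0, 0), (0, 1), (0, 3), (1, 0), (1, 1), (1, 3), (3, 0), (3,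
      3)], [(0, 0), (0, 3)], [6], [(0, 0, []), (2, 0, []), (7, 3, [1])]⟩,
    ⟨[(1, 2), (2, 3)], [(2, 1), (2, 2)], [], [4, 7], [(3, 2, [])]⟩]
  Ta := [((0, 1), 0, 1), ((0, 8), 0, 6), ((2, 7), 0, 3), ((3, 1), 2, 1), ((3, 9), 2, 7), ((5, 4),
    2, 4), ((5, 6), 2, 5)]
  Tb := [((0, 1, 8), 0, 1, 6), ((1, 0, 3), 1, 0, 2), ((3, 1, 9), 2, 1, 7), ((4, 5, 9), 4, 2, 7),
    ((5, 4, 6), 2, 4, 5), ((6, 5, 7), 5, 2, 3), ((7, 2, 6), 3, 0, 5), ((7, 2, 8), 3, 0, 6),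
    ((7, 6, 8), 3, 5, 6), ((8, 0, 7), 6, 0, 3), ((9, 3, 4), 7, 2, 4)]
  Tc := [(1, 3, 5)]
  Td := [((1, 3), (1, 0), 0), ((1, 3), (1, 3), 2), ((1, 5), (1, 0), 0), ((1, 5), (1, 3), 2), ((3,
    1), (7, 2), 0), ((3, 1), (7, 6), 5), ((3, 1), (7, 8), 6), ((5, 1), (6, 5), 2), ((5, 1),
    (6, 7), 3)]
  G := [[0, 0x555e14999e18a4, 0xaaae2666e2c14, 0x999e21ccce2458, 0x333e21aaae2858], [0,
    0x992e1225e1c28, 0x1a5e2613e2c14, 0, 0x56ae2c54e2948], [0, 0, 0x666e24aaae28c1,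
    0xccce2555e2948, 0xaaae2333e2948], [0, 0, 0x3162156e2ca828c4, 0, 0x764e245ee2941]]

noncomputable def n1309 : Ent := ⟨e1309, noF, [], [], [(15, 14, [385746751338780685620664494392815470296102193487288376377847809, 0])]⟩

def c1309 : PLift (Cov.check n1309.C.D v1309 = true) := ⟨by decide +kernel⟩

def b1309 : PLift (entF (fidx ts) 400 1309 n1309 = true) := ⟨by decide +kernel⟩

theorem g1309 : GoodF (fidx ts) 400 1309 := GoodF.ofV v1309 n1309 c1309.down b1309.down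

/-- 467664:1043 -/
noncomputable def e1310 : SCfg where
  D := {
    a := 6
    L := 11
    kp := 8
    inn := [(0, 1), (0, 4), (1, 0), (1, 2), (1, 3), (1, 4), (2, 1), (2, 3), (2, 5), (3, 1), (3, 2), (4,
      0), (4, 1), (5, 2)]
    mix := [(0, 0), (0, 1), (1, 1), (1, 2), (2, 1), (2, 3), (2, 4), (2, 5), (3, 2), (3, 5), (3, 6), (3,
      7), (4, 0), (4, 2), (4, 8), (4, 9), (5, 3), (5, 4), (5, 10)]
    cl := [0, 1, 0, 2, 3, 2, 4, 5, 6, 7, 8]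
    chq := [(1, 4), (1, 5), (4, 1), (5, 1)]
    rng := [(0, 1), (0, 9), (1, 0), (1, 3), (2, 7), (2, 8), (3, 1), (3, 10), (4, 5), (4, 10), (5, 4),
      (5, 6), (6, 5), (6, 7), (7, 2), (7, 6), (8, 2), (8, 9), (9, 0), (9, 8), (10, 3), (10, 4)]
    lev := [] }
  links := [[1, 4, 6, 7], [4, 0, 7, 2, 3, 8], [3, 1, 7, 9, 5, 10, 11], [8, 1, 2, 11, 12, 13], [6, 0, 1,
    8, 14, 15], [10, 2, 9, 16]]
  P := {
    a := 6
    N := 17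
    nb := [210, 413, 3754, 14598, 49475, 67076, 32913, 583, 24602, 65700, 67620, 5132, 10248, 4360,
      33040, 16464, 1568]
    tri := [(0, 1, 4), (0, 1, 7), (0, 4, 6), (0, 6, 7), (1, 2, 3), (1, 2, 7), (1, 3, 8), (1, 4, 8), (2,
      3, 11), (2, 5, 9), (2, 5, 10), (2, 7, 9), (2, 10, 11), (3, 8, 13), (3, 11, 12), (3, 12, 13),
      (4, 6, 15), (4, 8, 14), (4, 14, 15), (5, 9, 16), (5, 10, 16)]
    fin := [0, 1, 2, 1, 0, 2, 0, 1, 0, 2, 10, 2, 12, 13, 14, 15, 16]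
    chd := [(1, 12), (1, 13)]
    steps := [(0, 4), (0, 6), (0, 8), (1, 3), (1, 7), (2, 5), (2, 9), (2, 11)] }
  rep := [0, 1, 2, 10, 12, 13, 14, 15, 16]

noncomputable def v1310 : Cov.CovD where
  P := 3
  N := 6
  pl := [4, 8, 9, 10]
  lev := [⟨[], [], [(0, 1)], [], [(0, 0, []), (1, 1, [4, 5])]⟩,
    ⟨[], [(0, 0), (0, 1)], [(0, 1)], [], [(1, 1, [4, 5]), (2, 0, [])]⟩,
    ⟨[(0, 1)], [(0, 1), (1, 0), (1, 1), (1, 2)], [(1, 2), (2, 2)], [3], [(1, 1, [4, 5]),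
      (3, 2, []), (5, 2, [])]⟩,
    ⟨[(0, 1), (1, 2)], [(1, 0), (1, 1), (1, 2), (1, 4), (1, 5), (2, 0), (2, 1), (2, 2), (2,
      4), (2, 5)], [(0, 2), (0, 4), (0, 5), (2, 4), (2, 5), (4, 5)], [], [(2, 0, []), (5, 2,
      []), (6, 4, [1]), (7, 5, [1])]⟩,
    ⟨[(0, 1), (1, 2), (1, 3)], [(0, 0), (0, 1), (1, 0), (1, 1), (3, 0)], [(0, 0)], [6, 7],
      [(0, 0, []), (2, 0, [])]⟩,
    ⟨[(1, 2), (2, 3)], [(2, 1), (2, 2)], [], [3, 8], [(3, 2, [])]⟩]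
  Ta := [((0, 1), 0, 1), ((0, 9), 0, 7), ((2, 7), 0, 5), ((2, 8), 0, 6), ((3, 1), 2, 1), ((3,
    10), 2, 8), ((5, 4), 2, 3), ((5, 6), 2, 4)]
  Tb := [((0, 1, 9), 0, 1, 7), ((1, 0, 3), 1, 0, 2), ((2, 7, 8), 0, 5, 6), ((3, 1, 10), 2, 1, 8),
    ((4, 5, 10), 3, 2, 8), ((5, 4, 6), 2, 3, 4), ((6, 5, 7), 4, 2, 5), ((7, 2, 6), 5, 0, 4),
    ((8, 2, 9), 6, 0, 7), ((9, 0, 8), 7, 0, 6), ((10, 3, 4), 8, 2, 3)]
  Tc := [(1, 4, 5)]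
  Td := [((1, 4), (1, 0), 0), ((1, 4), (1, 3), 2), ((1, 5), (1, 0), 0), ((1, 5), (1, 3), 2), ((4,
    1), (6, 5), 2), ((4, 1), (6, 7), 5), ((5, 1), (7, 2), 0), ((5, 1), (7, 6), 4)]
  G := [[0, 0x999e1555e1c28, 0xaaae2666e2c18, 0xccce2555e2948, 0x333e21aaae2858], [0,
    0x926e123a1c541462, 0xa1ae2161e2c18, 0, 0xa44e243de2948], [0, 0, 0x666e24aaae28c1,
    0xccce2555e2941, 0xaaae2333e2941], [0, 0, 0x61c241aae2122cc1, 0, 0xaa4e234de2948]]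

noncomputable def n1310 : Ent := ⟨e1310, noF, [], [], [(16, 14, [1580095832788404724998799751142926758855362888449624481876424105985, 0]), (16, 15, [1685356702439545624007900436039642273970977273354372543760005447681, 0]), (13, 14, [1685382413448253767852309107433119732572617628602273068445370273793, 0])]⟩

def c1310 : PLift (Cov.check n1310.C.D v1310 = true) := ⟨by decide +kernel⟩

def b1310 : PLift (entF (fidx ts) 400 1310 n1310 = true) := ⟨by decide +kernel⟩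

theorem g1310 : GoodF (fidx ts) 400 1310 := GoodF.ofV v1310 n1310 c1310.down b1310.down

/-- 467665:1046 -/
noncomputable def e1311 : SCfg where
  D := {
    a := 6
    L := 10
    kp := 9
    inn := [(0, 1), (0, 4), (1, 0), (1, 2), (1, 3), (1, 4), (2, 1), (2, 3), (2, 4), (2, 5), (3, 1), (3,
      2), (3, 5), (4, 0), (4, 1), (4, 2), (5, 2), (5, 3)]
    mix := [(0, 0), (0, 1), (1, 0), (1, 2), (2, 3), (2, 4), (2, 5), (3, 2), (3, 6), (3, 7), (4, 1), (4,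
      3), (4, 8), (5, 5), (5, 6), (5, 9)]
    cl := [2, 5, 0, 1, 9, 3, 4, 7, 6, 8]
    chq := [(0, 1), (0, 6), (1, 0), (1, 3), (1, 4), (1, 7), (1, 8), (2, 6), (3, 1), (4, 1), (6, 0), (6,
      2), (7, 1), (8, 1)]
    rng := [(0, 1), (0, 2), (1, 0), (1, 8), (2, 0), (2, 7), (3, 4), (3, 8), (4, 3), (4, 5), (5, 4), (5,
      9), (6, 7), (6, 9), (7, 2), (7, 6), (8, 1), (8, 3), (9, 5), (9, 6)]
    lev := [] }
  links := [[1, 6, 7, 4], [6, 0, 4, 2, 3, 8], [3, 1, 4, 9, 10, 11, 5], [8, 1, 2, 5, 12, 13], [9, 2, 1, 0,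
    7, 14], [12, 3, 2, 11, 15]]
  P := {
    a := 6
    N := 16
    nb := [210, 349, 3642, 12582, 17031, 38924, 387, 16465, 8266, 17428, 2564, 33828, 41000, 4360,
      656, 6176]
    tri := [(0, 1, 4), (0, 1, 6), (0, 4, 7), (0, 6, 7), (1, 2, 3), (1, 2, 4), (1, 3, 8), (1, 6, 8), (2,
      3, 5), (2, 4, 9), (2, 5, 11), (2, 9, 10), (2, 10, 11), (3, 5, 12), (3, 8, 13), (3, 12, 13),
      (4, 7, 14), (4, 9, 14), (5, 11, 15), (5, 12, 15)]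
    fin := [0, 1, 2, 2, 1, 2, 0, 7, 8, 2, 10, 11, 12, 13, 1, 15]
    chd := [(0, 1), (2, 11), (2, 12), (2, 13), (2, 15), (8, 1), (8, 2)]
    steps := [(0, 6), (1, 4), (1, 14), (2, 3), (2, 5), (2, 9)] }
  rep := [8, 2, 0, 11, 12, 7, 1, 13, 15, 10]

noncomputable def v1311 : Cov.CovD where
  P := 3
  N := 7
  pl := [1, 4]
  lev := [⟨[], [], [], [5], [(0, 2, [6])]⟩,
    ⟨[], [(0, 0), (0, 2)], [(0, 2)], [], [(0, 2, [6]), (2, 0, [1, 6])]⟩,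
    ⟨[(0, 1)], [(1, 0), (1, 1), (1, 2), (1, 3)], [(1, 3)], [9], [(3, 1, [0, 3, 4, 7, 8]),
      (5, 3, [1])]⟩,
    ⟨[(0, 1), (1, 2)], [(1, 0), (1, 2), (1, 4), (1, 7), (2, 0), (2, 1), (2, 3), (2, 4), (2,
      7)], [(0, 4), (0, 7), (4, 7)], [], [(2, 0, [1, 6]), (6, 4, [1]), (7, 7, [1])]⟩,
    ⟨[(0, 1), (0, 2), (1, 2), (1, 3), (2, 3)], [(0, 1), (0, 2), (0, 6), (1, 0), (1, 1), (1,
      2), (1, 6), (2, 1), (2, 3), (2, 6)], [(1, 6)], [5], [(3, 1, [0, 3, 4, 7, 8]), (8, 6,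
      [0, 2])]⟩,
    ⟨[(1, 2), (1, 3), (2, 3), (2, 4)], [(2, 1), (2, 3), (2, 4), (2, 8), (3, 0), (3, 3), (3,
      4), (3, 7), (3, 8)], [(3, 4), (3, 8), (4, 8)], [], [(5, 3, [1]), (6, 4, [1]), (9, 8,
      [1])]⟩]
  Ta := []
  Tb := [((0, 1, 2), 2, 5, 0), ((1, 0, 8), 5, 2, 6), ((2, 0, 7), 0, 2, 7), ((3, 4, 8), 1, 9, 6),
    ((4, 3, 5), 9, 1, 3), ((5, 4, 9), 3, 9, 8), ((6, 7, 9), 4, 7, 8), ((7, 2, 6), 7, 0, 4),
    ((8, 1, 3), 6, 5, 1), ((9, 5, 6), 8, 3, 4)]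
  Tc := [(0, 1, 6), (1, 0, 3), (1, 0, 4), (1, 0, 7), (1, 0, 8), (1, 3, 4), (1, 3, 7), (1, 3, 8),
    (1, 4, 7), (1, 4, 8), (1, 7, 8), (6, 0, 2)]
  Td := [((0, 1), (2, 0), 2), ((0, 1), (2, 7), 7), ((0, 6), (2, 0), 2), ((0, 6), (2, 7), 7), ((1,
    0), (3, 4), 9), ((1, 0), (3, 8), 6), ((1, 3), (3, 4), 9), ((1, 3), (3, 8), 6), ((1, 4),
    (3, 4), 9), ((1, 4), (3, 8), 6), ((1, 7), (3, 4), 9), ((1, 7), (3, 8), 6), ((1, 8), (3,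
    4), 9), ((1, 8), (3, 8), 6), ((2, 6), (0, 1), 5), ((2, 6), (0, 2), 0), ((3, 1), (5, 4),
    9), ((3, 1), (5, 9), 8), ((4, 1), (6, 7), 7), ((4, 1), (6, 9), 8), ((6, 0), (8, 1), 5),
    ((6, 0), (8, 3), 1), ((6, 2), (8, 1), 5), ((6, 2), (8, 3), 1), ((7, 1), (7, 2), 0), ((7,
    1), (7, 6), 4), ((8, 1), (9, 5), 3), ((8, 1), (9, 6), 4)]
  G := [[0, 0x1144121111e1212a11311111deec12126111211e11511611ee1188cc,
    0x1162182142121f1e2121112bed21f1a8c217162121f1e212121ed2181a8ce,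
    0x21245642222f1e222b9a2292293112fedc212462122d23e22222127ed212d2ba8cc,
    0x223426488522882424cda22577562421bb4de3252d22588a2474621f128b2222231eed2484a8ab]]

noncomputable def n1311 : Ent := ⟨e1311, noF, [], [], []⟩

def c1311 : PLift (Cov.check n1311.C.D v1311 = true) := ⟨by decide +kernel⟩

def b1311 : PLift (entF (fidx ts) 400 1311 n1311 = true) := ⟨by decide +kernel⟩

theorem g1311 : GoodF (fidx ts) 400 1311 := GoodF.ofV v1311 n1311 c1311.down b1311.down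

/-- 467655:1048/1 -/
noncomputable def e1312 : SCfg where
  D := {
    a := 6
    L := 10
    kp := 8
    inn := [(0, 1), (1, 0), (1, 2), (1, 3), (2, 1), (2, 3), (2, 4), (2, 5), (3, 1), (3, 2), (3, 5), (4,
      2), (5, 2), (5, 3)]
    mix := [(0, 0), (0, 1), (0, 2), (1, 0), (1, 2), (1, 3), (2, 2), (2, 4), (2, 5), (3, 3), (3, 6), (3,
      7), (4, 1), (4, 2), (4, 4), (4, 8), (5, 5), (5, 6), (5, 9)]
    cl := [5, 1, 0, 3, 0, 2, 4, 6, 7, 8]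
    chq := [(0, 3), (0, 4), (0, 6), (1, 3), (2, 4), (3, 0), (3, 1), (4, 0), (4, 2), (6, 0)]
    rng := [(0, 1), (0, 3), (1, 0), (1, 2), (1, 8), (2, 1), (3, 0), (3, 7), (4, 5), (4, 8), (5, 4), (5,
      9), (6, 7), (6, 9), (7, 3), (7, 6), (8, 1), (8, 4), (9, 5), (9, 6)]
    lev := [] }
  links := [[1, 6, 7, 8], [6, 0, 8, 2, 3, 9], [3, 1, 8, 4, 10, 11, 5], [9, 1, 2, 5, 12, 13], [10, 2, 8,
    7, 14], [12, 3, 2, 11, 15]]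
  P := {
    a := 6
    N := 16
    nb := [450, 845, 3386, 12838, 17796, 38924, 643, 16721, 151, 8266, 18452, 33828, 41000, 4616,
      1168, 6176]
    tri := [(0, 1, 6), (0, 1, 8), (0, 6, 7), (0, 7, 8), (1, 2, 3), (1, 2, 8), (1, 3, 9), (1, 6, 9), (2,
      3, 5), (2, 4, 8), (2, 4, 10), (2, 5, 11), (2, 10, 11), (3, 5, 12), (3, 9, 13), (3, 12, 13),
      (4, 7, 8), (4, 7, 14), (4, 10, 14), (5, 11, 15), (5, 12, 15)]
    fin := [0, 0, 2, 2, 0, 5, 6, 0, 2, 9, 2, 5, 12, 13, 14, 15]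
    chd := [(0, 9), (2, 9), (2, 12), (2, 13), (5, 12)]
    steps := [(0, 1), (0, 7), (2, 3), (2, 8), (0, 4), (2, 10), (5, 11)] }
  rep := [2, 0, 5, 9, 12, 6, 13, 14, 15]

noncomputable def v1312 : Cov.CovD where
  P := 3
  N := 6
  pl := [0, 8, 9]
  lev := [⟨[], [], [(0, 1)], [5], [(1, 1, [3]), (2, 0, [3, 4, 6])]⟩,
    ⟨[], [(0, 0), (0, 1), (0, 3)], [(0, 3)], [5], [(2, 0, [3, 4, 6]), (3, 3, [0, 1])]⟩,
    ⟨[(0, 1)], [(0, 0), (1, 0), (1, 2), (1, 3)], [(0, 0), (0, 2)], [], [(2, 0, [3, 4, 6]),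
      (4, 0, [3, 4, 6]), (5, 2, [4])]⟩,
    ⟨[(0, 1), (1, 2)], [(1, 0), (1, 3), (1, 4), (1, 6), (2, 0), (2, 2), (2, 3), (2, 4), (2,
      6)], [(3, 4), (3, 6), (4, 6)], [], [(3, 3, [0, 1]), (6, 4, [0, 2]), (7, 6, [0])]⟩,
    ⟨[(1, 2), (2, 3)], [(0, 0), (0, 1), (1, 0), (2, 0), (2, 1), (2, 2)], [(0, 0), (0, 1)],
      [7], [(1, 1, [3]), (2, 0, [3, 4, 6]), (4, 0, [3, 4, 6])]⟩,
    ⟨[(1, 2), (1, 3), (2, 3), (2, 4)], [(2, 0), (2, 2), (2, 4), (3, 2), (3, 3), (3, 4), (3,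
      6)], [(2, 4)], [8], [(5, 2, [4]), (6, 4, [0, 2])]⟩]
  Ta := [((2, 1), 0, 1), ((4, 5), 0, 2), ((4, 8), 0, 7)]
  Tb := [((0, 1, 3), 5, 1, 3), ((1, 0, 2), 1, 5, 0), ((1, 0, 8), 1, 5, 7), ((1, 2, 8), 1, 0, 7),
    ((3, 0, 7), 3, 5, 6), ((4, 5, 8), 0, 2, 7), ((5, 4, 9), 2, 0, 8), ((6, 7, 9), 4, 6, 8),
    ((7, 3, 6), 6, 3, 4), ((8, 1, 4), 7, 1, 0), ((9, 5, 6), 8, 2, 4)]
  Tc := [(0, 3, 4), (0, 3, 6), (0, 4, 6), (3, 0, 1), (4, 0, 2)]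
  Td := [((0, 3), (2, 1), 1), ((0, 3), (4, 5), 2), ((0, 3), (4, 8), 7), ((0, 4), (2, 1), 1), ((0,
    4), (4, 5), 2), ((0, 4), (4, 8), 7), ((0, 6), (2, 1), 1), ((0, 6), (4, 5), 2), ((0, 6),
    (4, 8), 7), ((1, 3), (1, 0), 5), ((1, 3), (1, 2), 0), ((1, 3), (1, 8), 7), ((2, 4), (5,
    4), 0), ((2, 4), (5, 9), 8), ((3, 0), (3, 0), 5), ((3, 0), (3, 7), 6), ((3, 1), (3, 0),
    5), ((3, 1), (3, 7), 6), ((4, 0), (6, 7), 6), ((4, 0), (6, 9), 8), ((4, 2), (6, 7), 6),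
    ((4, 2), (6, 9), 8), ((6, 0), (7, 3), 3), ((6, 0), (7, 6), 4)]
  G := [[0, 0xdda148dd6184dd6182e, 0,
    0x1811cd8c7488144dc1981ce14545811c5dc38d4111cd89ce11c8411c11c68ad,
    0x11c11cbbc723bc1881a11c42b2bc1981a1411c11c3bcf18889a611c828d], [0, 0,
    0xeac144168eec1242ec1c81a2d, 0x11c4881c454111c11cd8cbc11c5dc38c1411cd4d1811cd8bc2d,
    0x11c48411c11cbbcb2bbc12c11c11c3b8e711c889a2d]]

noncomputable def n1312 : Ent := ⟨e1312, noF, [], [], []⟩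

def c1312 : PLift (Cov.check n1312.C.D v1312 = true) := ⟨by decide +kernel⟩

def b1312 : PLift (entF (fidx ts) 400 1312 n1312 = true) := ⟨by decide +kernel⟩

theorem g1312 : GoodF (fidx ts) 400 1312 := GoodF.ofV v1312 n1312 c1312.down b1312.down

/-- 467655:1048 -/
noncomputable def e1313 : SCfg where
  D := {
    a := 6
    L := 11
    kp := 9
    inn := [(0, 1), (1, 0), (1, 2), (1, 3), (2, 1), (2, 3), (2, 4), (2, 5), (3, 1), (3, 2), (3, 5), (4,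
      2), (5, 2), (5, 3)]
    mix := [(0, 0), (0, 1), (0, 2), (1, 0), (1, 2), (1, 3), (2, 2), (2, 4), (2, 5), (3, 3), (3, 6), (3,
      7), (4, 2), (4, 4), (4, 8), (4, 9), (5, 5), (5, 6), (5, 10)]
    cl := [2, 5, 0, 1, 0, 4, 3, 6, 7, 8, 9]
    chq := [(0, 1), (0, 3), (0, 6), (1, 0), (1, 5), (3, 0), (3, 4), (4, 3), (5, 1), (6, 0)]
    rng := [(0, 1), (0, 3), (1, 0), (1, 2), (2, 1), (2, 8), (3, 0), (3, 7), (4, 5), (4, 9), (5, 4), (5,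
      10), (6, 7), (6, 10), (7, 3), (7, 6), (8, 2), (8, 9), (9, 4), (9, 8), (10, 5), (10, 6)]
    lev := [] }
  links := [[1, 6, 7, 8], [6, 0, 8, 2, 3, 9], [3, 1, 8, 4, 10, 11, 5], [9, 1, 2, 5, 12, 13], [10, 2, 8,
    14, 15], [12, 3, 2, 11, 16]]
  P := {
    a := 6
    N := 17
    nb := [450, 845, 3386, 12838, 50436, 71692, 643, 321, 16535, 8266, 34836, 66596, 73768, 4616,
      33040, 17424, 6176]
    tri := [(0, 1, 6), (0, 1, 8), (0, 6, 7), (0, 7, 8), (1, 2, 3), (1, 2, 8), (1, 3, 9), (1, 6, 9), (2,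
      3, 5), (2, 4, 8), (2, 4, 10), (2, 5, 11), (2, 10, 11), (3, 5, 12), (3, 9, 13), (3, 12, 13),
      (4, 8, 14), (4, 10, 15), (4, 14, 15), (5, 11, 16), (5, 12, 16)]
    fin := [0, 0, 2, 2, 2, 5, 6, 0, 2, 9, 2, 5, 12, 13, 14, 15, 16]
    chd := [(0, 9), (2, 9), (2, 12), (2, 13), (5, 12)]
    steps := [(0, 1), (0, 7), (2, 3), (2, 4), (2, 8), (2, 10), (5, 11)] }
  rep := [2, 9, 6, 12, 5, 0, 13, 14, 15, 16]

noncomputable def v1313 : Cov.CovD where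
  P := 3
  N := 7
  pl := [0, 8, 9, 10]
  lev := [⟨[], [], [(0, 5)], [2], [(1, 5, [1]), (2, 0, [1, 3, 6])]⟩,
    ⟨[], [(0, 0), (0, 1), (0, 5)], [(0, 1)], [2], [(2, 0, [1, 3, 6]), (3, 1, [0, 5])]⟩,
    ⟨[(0, 1)], [(0, 0), (1, 0), (1, 1), (1, 4)], [(0, 0), (0, 4)], [], [(2, 0, [1, 3, 6]),
      (4, 0, [1, 3, 6]), (5, 4, [3])]⟩,
    ⟨[(0, 1), (1, 2)], [(1, 0), (1, 1), (1, 3), (1, 6), (2, 0), (2, 1), (2, 3), (2, 4), (2,
      6)], [(1, 3), (1, 6), (3, 6)], [], [(3, 1, [0, 5]), (6, 3, [0, 4]), (7, 6, [0])]⟩,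
    ⟨[(1, 2), (2, 3)], [(0, 0), (1, 0), (2, 0), (2, 4)], [(0, 0)], [7, 8], [(2, 0, [1, 3,
      6]), (4, 0, [1, 3, 6])]⟩,
    ⟨[(1, 2), (1, 3), (2, 3), (2, 4)], [(2, 0), (2, 3), (2, 4), (3, 1), (3, 3), (3, 4), (3,
      6)], [(3, 4)], [9], [(5, 4, [3]), (6, 3, [0, 4])]⟩]
  Ta := [((2, 1), 0, 5), ((2, 8), 0, 7), ((4, 5), 0, 4), ((4, 9), 0, 8)]
  Tb := [((0, 1, 3), 2, 5, 1), ((1, 0, 2), 5, 2, 0), ((2, 1, 8), 0, 5, 7), ((3, 0, 7), 1, 2, 6),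
    ((4, 5, 9), 0, 4, 8), ((5, 4, 10), 4, 0, 9), ((6, 7, 10), 3, 6, 9), ((7, 3, 6), 6, 1, 3),
    ((8, 2, 9), 7, 0, 8), ((9, 4, 8), 8, 0, 7), ((10, 5, 6), 9, 4, 3)]
  Tc := [(0, 1, 3), (0, 1, 6), (0, 3, 6), (1, 0, 5), (3, 0, 4)]
  Td := [((0, 1), (2, 1), 5), ((0, 1), (2, 8), 7), ((0, 1), (4, 5), 4), ((0, 1), (4, 9), 8), ((0,
    3), (2, 1), 5), ((0, 3), (2, 8), 7), ((0, 3), (4, 5), 4), ((0, 3), (4, 9), 8), ((0, 6),
    (2, 1), 5), ((0, 6), (2, 8), 7), ((0, 6), (4, 5), 4), ((0, 6), (4, 9), 8), ((1, 0), (3,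
    0), 2), ((1, 0), (3, 7), 6), ((1, 5), (3, 0), 2), ((1, 5), (3, 7), 6), ((3, 0), (6, 7),
    6), ((3, 0), (6, 10), 9), ((3, 4), (6, 7), 6), ((3, 4), (6, 10), 9), ((4, 3), (5, 4), 0),
    ((4, 3), (5, 10), 9), ((5, 1), (1, 0), 2), ((5, 1), (1, 2), 0), ((6, 0), (7, 3), 1), ((6,
    0), (7, 6), 3)]
  G := [[0, 0x111e111ee6ab4111e111e2cae7111e111e86cdac1, 0x111e92a94111e5dfe5e75e1ac2,
    0x97a1f7c164dbe18c4261d9fe1bf9e1e81484111e411a8ccd, 0x1165265111ed8fe9bf9e1e184892], [0,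
    0x5365366111e18111ec8eef111e111e18ae8efe81, 0x111ed9ee9bf9e16111e43658c2,
    0x111ef7a987c16111e3dbe58c1, 0x1165265111e18d8fed18bf9e5e82]]

noncomputable def n1313 : Ent := ⟨e1313, noF, [], [], [(7, 14, [1685382413448253767852309107433119732572617628602273068445370286081, 0])]⟩

def c1313 : PLift (Cov.check n1313.C.D v1313 = true) := ⟨by decide +kernel⟩

def b1313 : PLift (entF (fidx ts) 400 1313 n1313 = true) := ⟨by decide +kernel⟩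

theorem g1313 : GoodF (fidx ts) 400 1313 := GoodF.ofV v1313 n1313 c1313.down b1313.down

/-- 467656:1050 -/
noncomputable def e1314 : SCfg where
  D := {
    a := 6
    L := 11
    kp := 8
    inn := [(0, 1), (1, 0), (1, 2), (1, 3), (2, 1), (2, 3), (2, 4), (2, 5), (3, 1), (3, 2), (3, 4), (4,
      2), (4, 3), (4, 5), (5, 2), (5, 4)]
    mix := [(0, 0), (0, 1), (0, 2), (1, 0), (1, 2), (1, 3), (2, 2), (2, 4), (2, 5), (3, 3), (3, 6), (3,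
      7), (4, 6), (4, 8), (5, 5), (5, 8), (5, 9), (5, 10)]
    cl := [1, 2, 0, 0, 5, 3, 4, 6, 3, 7, 8]
    chq := [(0, 3), (0, 4), (3, 0), (4, 0)]
    rng := [(0, 1), (0, 3), (1, 0), (1, 2), (2, 1), (2, 4), (3, 0), (3, 7), (4, 2), (4, 5), (5, 4), (5,
      9), (6, 7), (6, 8), (7, 3), (7, 6), (8, 6), (8, 10), (9, 5), (9, 10), (10, 8), (10, 9)]
    lev := [] }
  links := [[1, 6, 7, 8], [6, 0, 8, 2, 3, 9], [3, 1, 8, 10, 11, 5, 4], [9, 1, 2, 4, 12, 13], [12, 3, 2,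
    5, 14], [14, 4, 2, 11, 15, 16]]
  P := {
    a := 6
    N := 17
    nb := [450, 845, 3386, 12822, 20524, 116756, 643, 321, 1159, 8266, 2308, 33828, 24600, 4616,
      69680, 67616, 49184]
    tri := [(0, 1, 6), (0, 1, 8), (0, 6, 7), (0, 7, 8), (1, 2, 3), (1, 2, 8), (1, 3, 9), (1, 6, 9), (2,
      3, 4), (2, 4, 5), (2, 5, 11), (2, 8, 10), (2, 10, 11), (3, 4, 12), (3, 9, 13), (3, 12, 13),
      (4, 5, 14), (4, 12, 14), (5, 11, 15), (5, 14, 16), (5, 15, 16)]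
    fin := [0, 0, 2, 2, 2, 5, 0, 7, 2, 2, 10, 5, 12, 13, 5, 15, 16]
    chd := [(2, 5), (2, 12)]
    steps := [(0, 1), (0, 6), (2, 3), (2, 4), (2, 8), (2, 9), (5, 11), (5, 14)] }
  rep := [2, 0, 7, 5, 12, 10, 13, 15, 16]

noncomputable def v1314 : Cov.CovD where
  P := 3
  N := 6
  pl := [0, 1, 4, 7, 9, 10]
  lev := [⟨[], [], [], [1, 2], [(2, 0, [3, 4])]⟩,
    ⟨[], [(0, 0)], [(0, 0)], [1], [(2, 0, [3, 4]), (3, 0, [3, 4])]⟩,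
    ⟨[(0, 1)], [(0, 0), (1, 0), (1, 3)], [(0, 3)], [5], [(2, 0, [3, 4]), (5, 3, [0])]⟩,
    ⟨[(0, 1), (1, 2)], [(1, 0), (1, 4), (2, 0), (2, 3), (2, 4)], [(0, 4)], [6], [(3, 0, [3,
      4]), (6, 4, [0])]⟩,
    ⟨[(1, 2), (1, 3), (2, 3)], [(2, 0), (2, 3), (2, 4), (3, 0), (3, 3), (3, 4)], [(3, 4)],
      [], [(6, 4, [0]), (8, 3, [0])]⟩,
    ⟨[(1, 2), (2, 3), (2, 4), (3, 4)], [(2, 0), (2, 3), (4, 3), (4, 4)], [(3, 3)], [7, 8],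
      [(5, 3, [0]), (8, 3, [0])]⟩]
  Ta := [((2, 1), 0, 2), ((2, 4), 0, 5), ((3, 0), 0, 1), ((3, 7), 0, 6), ((5, 4), 3, 5), ((5, 9),
    3, 7), ((8, 6), 3, 4), ((8, 10), 3, 8)]
  Tb := [((0, 1, 3), 1, 2, 0), ((1, 0, 2), 2, 1, 0), ((2, 1, 4), 0, 2, 5), ((3, 0, 7), 0, 1, 6),
    ((4, 2, 5), 5, 0, 3), ((5, 4, 9), 3, 5, 7), ((6, 7, 8), 4, 6, 3), ((7, 3, 6), 6, 0, 4),
    ((8, 6, 10), 3, 4, 8), ((9, 5, 10), 7, 3, 8), ((10, 8, 9), 8, 3, 7)]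
  Tc := [(0, 3, 4)]
  Td := [((0, 3), (2, 1), 2), ((0, 3), (2, 4), 5), ((0, 3), (3, 0), 1), ((0, 3), (3, 7), 6), ((0,
    4), (2, 1), 2), ((0, 4), (2, 4), 5), ((0, 4), (3, 0), 1), ((0, 4), (3, 7), 6), ((3, 0),
    (5, 4), 5), ((3, 0), (5, 9), 7), ((3, 0), (8, 6), 4), ((3, 0), (8, 10), 8), ((4, 0), (6,
    7), 6), ((4, 0), (6, 8), 3)]
  G := [[0, 0, 0x7da14bd617bc1ac4, 0x165186dad1261186bcf67414bd6b84e4a9c4,
    0x18d297da71a3547ac7612f41bcebe489c8], [0, 0, 0xbba147761ddc1ac8,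
    0xb43149bbbeb1f51e5c61f34438c4, 0x1f98831f9f8561e3f4377e78c8], [0,
    0x7111a2711111e711111e114886eeaeecef68, 0, 0x1144711f31f9e1b31b9af11f3114decc66ca6ecefc8,
    0xac644a66ce141f5b1c4113f11f9e1b92f11f31d5eec9], [0, 0xf1f1af1f1c6f1f168a4, 0,
    0x11f71f3af11f5c6f11f568c1, 0x1f3f1a4f11f361f51f9cac1]]

noncomputable def n1314 : Ent := ⟨e1314, noF, [], [], []⟩

def c1314 : PLift (Cov.check n1314.C.D v1314 = true) := ⟨by decide +kernel⟩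

def b1314 : PLift (entF (fidx ts) 400 1314 n1314 = true) := ⟨by decide +kernel⟩

theorem g1314 : GoodF (fidx ts) 400 1314 := GoodF.ofV v1314 n1314 c1314.down b1314.down

/-- 467664:1051 -/
noncomputable def e1315 : SCfg where
  D := {
    a := 6
    L := 11
    kp := 8
    inn := [(0, 1), (1, 0), (1, 2), (1, 3), (2, 1), (2, 3), (2, 4), (3, 1), (3, 2), (3, 4), (4, 2), (4,
      3), (4, 5), (5, 4)]
    mix := [(0, 0), (0, 1), (0, 2), (1, 0), (1, 2), (1, 3), (2, 2), (2, 4), (2, 5), (2, 6), (3, 3), (3,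
      7), (3, 8), (4, 6), (4, 7), (4, 9), (5, 6), (5, 9), (5, 10)]
    cl := [1, 7, 0, 0, 5, 6, 3, 3, 2, 4, 8]
    chq := [(2, 5), (2, 6), (5, 2), (6, 2)]
    rng := [(0, 1), (0, 3), (1, 0), (1, 2), (2, 1), (2, 4), (3, 0), (3, 8), (4, 2), (4, 5), (5, 4), (5,
      6), (6, 5), (6, 10), (7, 8), (7, 9), (8, 3), (8, 7), (9, 7), (9, 10), (10, 6), (10, 9)]
    lev := [] }
  links := [[1, 6, 7, 8], [6, 0, 8, 2, 3, 9], [3, 1, 8, 10, 11, 12, 4], [9, 1, 2, 4, 13, 14], [13, 3, 2,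
    12, 5, 15], [15, 4, 12, 16]]
  P := {
    a := 6
    N := 17
    nb := [450, 845, 7450, 25110, 45100, 102416, 643, 321, 1159, 16458, 2308, 5124, 67636, 49176,
      8712, 73776, 36896]
    tri := [(0, 1, 6), (0, 1, 8), (0, 6, 7), (0, 7, 8), (1, 2, 3), (1, 2, 8), (1, 3, 9), (1, 6, 9), (2,
      3, 4), (2, 4, 12), (2, 8, 10), (2, 10, 11), (2, 11, 12), (3, 4, 13), (3, 9, 14), (3, 13,
      14), (4, 5, 12), (4, 5, 15), (4, 13, 15), (5, 12, 16), (5, 15, 16)]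
    fin := [0, 1, 2, 2, 4, 4, 0, 7, 1, 1, 10, 11, 4, 4, 2, 15, 16]
    chd := [(10, 2), (11, 2)]
    steps := [(0, 6), (1, 8), (1, 9), (2, 3), (2, 14), (4, 5), (4, 12), (4, 13)] }
  rep := [1, 0, 2, 4, 15, 10, 11, 7, 16]

noncomputable def v1315 : Cov.CovD where
  P := 3
  N := 6
  pl := [0, 1, 9, 10]
  lev := [⟨[], [], [], [1, 7], [(2, 0, [])]⟩,
    ⟨[], [(0, 0)], [(0, 0)], [1], [(2, 0, []), (3, 0, [])]⟩,
    ⟨[(0, 1)], [(0, 0), (1, 0), (1, 3), (1, 5), (1, 6)], [(0, 3), (0, 5), (0, 6), (3, 5),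
      (3, 6), (5, 6)], [], [(2, 0, []), (4, 5, [2]), (5, 6, [2]), (6, 3, [])]⟩,
    ⟨[(0, 1), (1, 2)], [(1, 0), (1, 2), (1, 3), (2, 0), (2, 2), (2, 3), (2, 5), (2, 6)],
      [(0, 2), (0, 3), (2, 3)], [], [(3, 0, []), (7, 3, []), (8, 2, [5, 6])]⟩,
    ⟨[(1, 2), (1, 3), (2, 3)], [(2, 0), (2, 3), (2, 5), (2, 6), (3, 0), (3, 2), (3, 3)],
      [(3, 3)], [4], [(6, 3, []), (7, 3, [])]⟩,
    ⟨[(2, 4), (3, 4)], [(2, 3), (4, 3)], [], [4, 8], [(6, 3, [])]⟩]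
  Ta := [((2, 1), 0, 7), ((2, 4), 0, 5), ((3, 0), 0, 1), ((3, 8), 0, 2), ((6, 5), 3, 6), ((6,
    10), 3, 8), ((7, 8), 3, 2), ((7, 9), 3, 4)]
  Tb := [((0, 1, 3), 1, 7, 0), ((1, 0, 2), 7, 1, 0), ((2, 1, 4), 0, 7, 5), ((3, 0, 8), 0, 1, 2),
    ((4, 2, 5), 5, 0, 6), ((5, 4, 6), 6, 5, 3), ((6, 5, 10), 3, 6, 8), ((7, 8, 9), 3, 2, 4),
    ((8, 3, 7), 2, 0, 3), ((9, 7, 10), 4, 3, 8), ((10, 6, 9), 8, 3, 4)]
  Tc := [(2, 5, 6)]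
  Td := [((2, 5), (8, 3), 0), ((2, 5), (8, 7), 3), ((2, 6), (8, 3), 0), ((2, 6), (8, 7), 3), ((5,
    2), (4, 2), 0), ((5, 2), (4, 5), 6), ((6, 2), (5, 4), 5), ((6, 2), (5, 6), 3)]
  G := [[0, 0, 0, 0xa39426482ca84263582cc, 0xe245f22324262428c62c5962b48c], [0, 0, 0,
    0x714d81e4d2431a9cd48d28c, 0x1dab72c34248518acb11d8b28b48c], [0,
    0xa39426482c8842263d82cc, 0x3295c6183295ca14c, 0x8842263d82c1,
    0x242142421422c247fa24268d], [0, 0xb854274982c71a9adc24882cc, 0x3ac4da6182bc4da618c,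
    0xc1b85c25882c1, 0x2b539cbac8462488c1]]

noncomputable def n1315 : Ent := ⟨e1315, noF, [], [], []⟩

def c1315 : PLift (Cov.check n1315.C.D v1315 = true) := ⟨by decide +kernel⟩

def b1315 : PLift (entF (fidx ts) 400 1315 n1315 = true) := ⟨by decide +kernel⟩

theorem g1315 : GoodF (fidx ts) 400 1315 := GoodF.ofV v1315 n1315 c1315.down b1315.down

/-- 467765:1054 -/
noncomputable def e1316 : SCfg where
  D := {
    a := 6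
    L := 11
    kp := 9
    inn := [(0, 1), (0, 4), (1, 0), (1, 2), (1, 3), (1, 4), (2, 1), (2, 3), (2, 4), (2, 5), (3, 1), (3,
      2), (3, 5), (4, 0), (4, 1), (4, 2), (5, 2), (5, 3)]
    mix := [(0, 0), (0, 1), (1, 0), (1, 2), (2, 3), (2, 4), (2, 5), (3, 2), (3, 6), (3, 7), (3, 8), (4,
      1), (4, 3), (4, 9), (5, 5), (5, 6), (5, 10)]
    cl := [1, 2, 0, 3, 5, 4, 0, 7, 8, 6, 9]
    chq := [(0, 3), (0, 4), (0, 5), (1, 3), (1, 6), (3, 0), (3, 1), (4, 0), (5, 0), (6, 1)]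
    rng := [(0, 1), (0, 2), (1, 0), (1, 9), (2, 0), (2, 8), (3, 4), (3, 9), (4, 3), (4, 5), (5, 4), (5,
      10), (6, 7), (6, 10), (7, 6), (7, 8), (8, 2), (8, 7), (9, 1), (9, 3), (10, 5), (10, 6)]
    lev := [] }
  links := [[1, 6, 7, 4], [6, 0, 4, 2, 3, 8], [3, 1, 4, 9, 10, 11, 5], [8, 1, 2, 5, 12, 13, 14], [9, 2,
    1, 0, 7, 15], [12, 3, 2, 11, 16]]
  P := {
    a := 6
    N := 17
    nb := [210, 349, 3642, 28966, 33415, 71692, 387, 32849, 16458, 33812, 2564, 66596, 73768, 20488,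
      8456, 656, 6176]
    tri := [(0, 1, 4), (0, 1, 6), (0, 4, 7), (0, 6, 7), (1, 2, 3), (1, 2, 4), (1, 3, 8), (1, 6, 8), (2,
      3, 5), (2, 4, 9), (2, 5, 11), (2, 9, 10), (2, 10, 11), (3, 5, 12), (3, 8, 14), (3, 12, 13),
      (3, 13, 14), (4, 7, 15), (4, 9, 15), (5, 11, 16), (5, 12, 16)]
    fin := [0, 0, 2, 2, 0, 5, 0, 7, 2, 9, 10, 5, 2, 13, 14, 15, 16]
    chd := [(0, 9), (0, 15), (2, 5), (2, 9), (2, 10)]
    steps := [(0, 1), (0, 4), (0, 6), (2, 3), (2, 12), (2, 8), (5, 11)] }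
  rep := [2, 0, 7, 9, 5, 10, 15, 13, 14, 16]

noncomputable def v1316 : Cov.CovD where
  P := 3
  N := 7
  pl := [1, 7, 8, 10]
  lev := [⟨[], [], [], [2], [(0, 1, [3, 6])]⟩,
    ⟨[], [(0, 0), (0, 1)], [(0, 1)], [], [(0, 1, [3, 6]), (2, 0, [3, 4, 5])]⟩,
    ⟨[(0, 1)], [(1, 0), (1, 1), (1, 3), (1, 4), (1, 5)], [(3, 4), (3, 5), (4, 5)], [], [(3,
      3, [0, 1]), (4, 5, [0]), (5, 4, [0])]⟩,
    ⟨[(0, 1), (1, 2)], [(1, 0), (1, 1), (2, 0), (2, 3), (2, 4), (2, 5)], [(0, 0)], [7, 8],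
      [(2, 0, [3, 4, 5]), (6, 0, [3, 4, 5])]⟩,
    ⟨[(0, 1), (0, 2), (1, 2), (1, 3), (2, 3)], [(0, 1), (0, 3), (0, 6), (1, 0), (1, 1), (1,
      3), (1, 6), (2, 3), (2, 4), (2, 5), (2, 6)], [(3, 6)], [2], [(3, 3, [0, 1]), (9, 6,
      [1])]⟩,
    ⟨[(1, 2), (1, 3), (2, 3), (2, 4)], [(2, 0), (2, 3), (2, 4), (2, 5), (3, 0), (3, 4)],
      [(0, 4)], [9], [(5, 4, [0]), (6, 0, [3, 4, 5])]⟩]
  Ta := [((2, 0), 0, 1), ((2, 8), 0, 8), ((6, 7), 0, 7), ((6, 10), 0, 9)]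
  Tb := [((0, 1, 2), 1, 2, 0), ((1, 0, 9), 2, 1, 6), ((2, 0, 8), 0, 1, 8), ((3, 4, 9), 3, 5, 6),
    ((4, 3, 5), 5, 3, 4), ((5, 4, 10), 4, 5, 9), ((6, 7, 10), 0, 7, 9), ((7, 6, 8), 7, 0, 8),
    ((8, 2, 7), 8, 0, 7), ((9, 1, 3), 6, 2, 3), ((10, 5, 6), 9, 4, 0)]
  Tc := [(0, 3, 4), (0, 3, 5), (0, 4, 5), (1, 3, 6), (3, 0, 1)]
  Td := [((0, 3), (2, 0), 1), ((0, 3), (2, 8), 8), ((0, 3), (6, 7), 7), ((0, 3), (6, 10), 9),
    ((0, 4), (2, 0), 1), ((0, 4), (2, 8), 8), ((0, 4), (6, 7), 7), ((0, 4), (6, 10), 9), ((0,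
    5), (2, 0), 1), ((0, 5), (2, 8), 8), ((0, 5), (6, 7), 7), ((0, 5), (6, 10), 9), ((1, 3),
    (0, 1), 2), ((1, 3), (0, 2), 0), ((1, 6), (0, 1), 2), ((1, 6), (0, 2), 0), ((3, 0), (3,
    4), 5), ((3, 0), (3, 9), 6), ((3, 1), (3, 4), 5), ((3, 1), (3, 9), 6), ((4, 0), (5, 4),
    5), ((4, 0), (5, 10), 9), ((5, 0), (4, 3), 3), ((5, 0), (4, 5), 4), ((6, 1), (9, 1), 2),
    ((6, 1), (9, 3), 3)]
  G := [[0, 0xe141e1e1a1c4, 0xe2e261e281c8, 0xb1716ee54571b1b1eb1b1d1eeeeda8eeedebc71848458c,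
    0xe2e261e281c8], [0, 0, 0xe241e2e2a1c4, 0xe454171b1c1eb1b1d1eeeedaa9eeedebc71b1c1e48458c,
    0xe2e261e281c8]]

noncomputable def n1316 : Ent := ⟨e1316, noF, [], [], []⟩

def c1316 : PLift (Cov.check n1316.C.D v1316 = true) := ⟨by decide +kernel⟩

def b1316 : PLift (entF (fidx ts) 400 1316 n1316 = true) := ⟨by decide +kernel⟩

theorem g1316 : GoodF (fidx ts) 400 1316 := GoodF.ofV v1316 n1316 c1316.down b1316.down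

/-- 466745:1056/2 -/
noncomputable def e1317 : SCfg where
  D := {
    a := 6
    L := 9
    kp := 6
    inn := [(0, 1), (1, 0), (1, 2), (2, 1), (2, 3), (2, 5), (3, 2), (3, 4), (3, 5), (4, 3), (5, 2), (5,
      3)]
    mix := [(0, 0), (0, 1), (0, 2), (1, 0), (1, 2), (1, 3), (1, 4), (2, 2), (2, 3), (2, 5), (3, 5), (3,
      6), (3, 7), (3, 8), (4, 1), (4, 5), (4, 6), (5, 3), (5, 4), (5, 8)]
    cl := [3, 2, 0, 0, 5, 1, 4, 6, 1]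
    chq := [(0, 3), (1, 4), (3, 0), (4, 1)]
    rng := [(0, 1), (0, 4), (1, 0), (1, 2), (1, 5), (1, 6), (2, 1), (2, 5), (3, 4), (4, 0), (4, 3), (4,
      8), (5, 1), (5, 2), (6, 1), (6, 7), (7, 6), (7, 8), (8, 4), (8, 7)]
    lev := [] }
  links := [[1, 6, 7, 8], [6, 0, 8, 2, 9, 10], [9, 1, 8, 11, 3, 5], [5, 2, 11, 4, 12, 13, 14], [12, 3,
    11, 7], [9, 2, 3, 14, 10]]
  P := {
    a := 6
    N := 15
    nb := [450, 1861, 2858, 30772, 6280, 17932, 1155, 6481, 2183, 1062, 16994, 412, 8344, 20488, 9256]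
    tri := [(0, 1, 6), (0, 1, 8), (0, 6, 7), (0, 7, 8), (1, 2, 8), (1, 2, 9), (1, 6, 10), (1, 9, 10),
      (2, 3, 5), (2, 3, 11), (2, 5, 9), (2, 8, 11), (3, 4, 11), (3, 4, 12), (3, 5, 14), (3, 12,
      13), (3, 13, 14), (4, 7, 11), (4, 7, 12), (5, 9, 10), (5, 10, 14)]
    fin := [0, 0, 2, 3, 4, 2, 0, 4, 2, 2, 10, 3, 12, 13, 3]
    chd := [(0, 2), (3, 12)]
    steps := [(0, 1), (0, 6), (2, 5), (2, 8), (2, 9), (3, 11), (3, 14), (4, 7)] }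
  rep := [2, 3, 4, 0, 12, 10, 13]

noncomputable def v1317 : Cov.CovD where
  P := 3
  N := 4
  pl := [1, 4, 7]
  lev := [⟨[], [], [(0, 3)], [2], [(0, 3, [0]), (2, 0, [3])]⟩,
    ⟨[], [(0, 0), (0, 3)], [(0, 0), (0, 3)], [5], [(0, 3, [0]), (2, 0, [3]), (3, 0, [3])]⟩,
    ⟨[(0, 1)], [(0, 0), (1, 0), (1, 1), (1, 3)], [(0, 0), (0, 1)], [], [(2, 0, [3]), (3, 0,
      [3]), (5, 1, [4])]⟩,
    ⟨[(1, 2)], [(2, 0), (2, 1), (2, 4)], [(1, 1), (1, 4)], [6], [(5, 1, [4]), (6, 4, [1]),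
      (8, 1, [4])]⟩,
    ⟨[(2, 3)], [(2, 1), (3, 1), (3, 4)], [(1, 4)], [2], [(5, 1, [4]), (6, 4, [1])]⟩,
    ⟨[(1, 2), (2, 3), (3, 4)], [(1, 0), (2, 0), (2, 1), (3, 0), (3, 1), (3, 4)], [(0, 1)],
      [5], [(3, 0, [3]), (8, 1, [4])]⟩]
  Ta := [((2, 1), 0, 2), ((2, 5), 0, 1), ((3, 4), 0, 5), ((5, 1), 1, 2), ((5, 2), 1, 0), ((8, 4),
    1, 5), ((8, 7), 1, 6)]
  Tb := [((0, 1, 4), 3, 2, 5), ((1, 0, 2), 2, 3, 0), ((1, 0, 5), 2, 3, 1), ((1, 0, 6), 2, 3, 4),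
    ((1, 2, 5), 2, 0, 1), ((1, 2, 6), 2, 0, 4), ((1, 5, 6), 2, 1, 4), ((2, 1, 5), 0, 2, 1),
    ((4, 0, 3), 5, 3, 0), ((4, 0, 8), 5, 3, 1), ((4, 3, 8), 5, 0, 1), ((5, 1, 2), 1, 2, 0),
    ((6, 1, 7), 4, 2, 6), ((7, 6, 8), 6, 4, 1), ((8, 4, 7), 1, 5, 6)]
  Tc := []
  Td := [((0, 3), (2, 1), 2), ((0, 3), (2, 5), 1), ((0, 3), (3, 4), 5), ((1, 4), (5, 1), 2), ((1,
    4), (5, 2), 0), ((1, 4), (8, 4), 5), ((1, 4), (8, 7), 6), ((3, 0), (0, 1), 2), ((3, 0),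
    (0, 4), 5), ((4, 1), (6, 1), 2), ((4, 1), (6, 7), 6)]
  G := [[0, 0x688488ce22442842caca48a444ce22442822cac6c, 0x288441422c5188c1422c58c1442822c9c2e,
    0x14215188c214418219c2c, 0x1888981d4219415288cc1821921d42a], [0, 0,
    0x18829144684214246d841812cccd42e, 0, 0x188281d41844941d2c424241d81812c1d46a], [0, 0, 0,
    0x24418219c224428219c29, 0x21128229cc22888981d4249428219cc3], [0, 0, 0, 0,
    0x8288a81d48cc9c15c28c242415488a4b]]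

noncomputable def n1317 : Ent := ⟨e1317, noF, [], [], []⟩

def c1317 : PLift (Cov.check n1317.C.D v1317 = true) := ⟨by decide +kernel⟩

def b1317 : PLift (entF (fidx ts) 400 1317 n1317 = true) := ⟨by decide +kernel⟩

theorem g1317 : GoodF (fidx ts) 400 1317 := GoodF.ofV v1317 n1317 c1317.down b1317.down

/-- 466745:1056/1 -/
noncomputable def e1318 : SCfg where
  D := {
    a := 6
    L := 10
    kp := 7
    inn := [(0, 1), (1, 0), (1, 2), (2, 1), (2, 3), (2, 5), (3, 2), (3, 4), (3, 5), (4, 3), (5, 2), (5,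
      3)]
    mix := [(0, 0), (0, 1), (0, 2), (1, 0), (1, 2), (1, 3), (1, 4), (2, 2), (2, 3), (2, 5), (3, 5), (3,
      6), (3, 7), (3, 8), (4, 1), (4, 5), (4, 6), (5, 3), (5, 8), (5, 9)]
    cl := [3, 2, 0, 0, 5, 1, 4, 6, 1, 7]
    chq := [(0, 3), (1, 4), (3, 0), (4, 1)]
    rng := [(0, 1), (0, 4), (1, 0), (1, 2), (1, 5), (1, 6), (2, 1), (2, 5), (3, 4), (3, 9), (4, 0), (4,
      3), (5, 1), (5, 2), (6, 1), (6, 7), (7, 6), (7, 8), (8, 7), (8, 9), (9, 3), (9, 8)]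
    lev := [] }
  links := [[1, 6, 7, 8], [6, 0, 8, 2, 9, 10], [9, 1, 8, 11, 3, 5], [5, 2, 11, 4, 12, 13, 14], [12, 3,
    11, 7], [9, 2, 3, 14, 15]]
  P := {
    a := 6
    N := 16
    nb := [450, 1861, 2858, 30772, 6280, 49676, 1155, 6481, 2183, 33830, 578, 412, 8344, 20488, 41000,
      16928]
    tri := [(0, 1, 6), (0, 1, 8), (0, 6, 7), (0, 7, 8), (1, 2, 8), (1, 2, 9), (1, 6, 10), (1, 9, 10),
      (2, 3, 5), (2, 3, 11), (2, 5, 9), (2, 8, 11), (3, 4, 11), (3, 4, 12), (3, 5, 14), (3, 12,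
      13), (3, 13, 14), (4, 7, 11), (4, 7, 12), (5, 9, 15), (5, 14, 15)]
    fin := [0, 0, 2, 3, 4, 2, 0, 4, 2, 2, 10, 3, 12, 13, 3, 15]
    chd := [(0, 2), (3, 12)]
    steps := [(0, 1), (0, 6), (2, 5), (2, 8), (2, 9), (3, 11), (3, 14), (4, 7)] }
  rep := [2, 3, 4, 0, 12, 10, 13, 15]

noncomputable def v1318 : Cov.CovD where
  P := 3
  N := 5
  pl := [1, 4, 7, 9]
  lev := [⟨[], [], [(0, 3)], [2], [(0, 3, [0]), (2, 0, [3])]⟩,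
    ⟨[], [(0, 0), (0, 3)], [(0, 0), (0, 3)], [5], [(0, 3, [0]), (2, 0, [3]), (3, 0, [3])]⟩,
    ⟨[(0, 1)], [(0, 0), (1, 0), (1, 1), (1, 3)], [(0, 0), (0, 1)], [], [(2, 0, [3]), (3, 0,
      [3]), (5, 1, [4])]⟩,
    ⟨[(1, 2)], [(2, 0), (2, 1), (2, 4)], [(1, 1), (1, 4)], [6], [(5, 1, [4]), (6, 4, [1]),
      (8, 1, [4])]⟩,
    ⟨[(2, 3)], [(2, 1), (3, 1), (3, 4)], [(1, 4)], [2], [(5, 1, [4]), (6, 4, [1])]⟩,
    ⟨[(1, 2), (2, 3), (3, 4)], [(1, 0), (2, 0), (2, 1), (3, 0), (3, 1), (3, 4)], [(0, 1)],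
      [7], [(3, 0, [3]), (8, 1, [4])]⟩]
  Ta := [((2, 1), 0, 2), ((2, 5), 0, 1), ((3, 4), 0, 5), ((3, 9), 0, 7), ((5, 1), 1, 2), ((5, 2),
    1, 0), ((8, 7), 1, 6), ((8, 9), 1, 7)]
  Tb := [((0, 1, 4), 3, 2, 5), ((1, 0, 2), 2, 3, 0), ((1, 0, 5), 2, 3, 1), ((1, 0, 6), 2, 3, 4),
    ((1, 2, 5), 2, 0, 1), ((1, 2, 6), 2, 0, 4), ((1, 5, 6), 2, 1, 4), ((2, 1, 5), 0, 2, 1),
    ((3, 4, 9), 0, 5, 7), ((4, 0, 3), 5, 3, 0), ((5, 1, 2), 1, 2, 0), ((6, 1, 7), 4, 2, 6),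
    ((7, 6, 8), 6, 4, 1), ((8, 7, 9), 1, 6, 7), ((9, 3, 8), 7, 0, 1)]
  Tc := []
  Td := [((0, 3), (2, 1), 2), ((0, 3), (2, 5), 1), ((0, 3), (3, 4), 5), ((0, 3), (3, 9), 7), ((1,
    4), (5, 1), 2), ((1, 4), (5, 2), 0), ((1, 4), (8, 7), 6), ((1, 4), (8, 9), 7), ((3, 0),
    (0, 1), 2), ((3, 0), (0, 4), 5), ((4, 1), (6, 1), 2), ((4, 1), (6, 7), 6)]
  G := [[0, 0x68accaa446a46ac6688caa46cc6688aa4468c6cac6c,
    0x2822c941884c24482422c58c144818842442822c9cee,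
    0x2821921d424428219ca2151421d824428219c6c, 0x2822921d4119428219cc229418219c1812921d46a],
    [0, 0, 0xc211814c68c211814ca418122cad42e, 0, 0x1812c1d418119c1d2c12c15188a1812c1d46a],
    [0, 0, 0, 0x2821942448a2252421d84244824215288cad, 0x2822921d482822921d42229428219c4b],
    [0, 0, 0, 0, 0x82848cc9c1d6842468a82c1dc2422cac1d828c4b]]

noncomputable def n1318 : Ent := ⟨e1318, noF, [], [], [(15, 10, [360035742630637297931254766822518807307257169425207333491986433, 0])]⟩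

def c1318 : PLift (Cov.check n1318.C.D v1318 = true) := ⟨by decide +kernel⟩

def b1318 : PLift (entF (fidx ts) 400 1318 n1318 = true) := ⟨by decide +kernel⟩

theorem g1318 : GoodF (fidx ts) 400 1318 := GoodF.ofV v1318 n1318 c1318.down b1318.down

/-- 466745:1056/3 -/
noncomputable def e1319 : SCfg where
  D := {
    a := 6
    L := 10
    kp := 7
    inn := [(0, 1), (1, 0), (1, 2), (2, 1), (2, 3), (2, 5), (3, 2), (3, 4), (3, 5), (4, 3), (5, 2), (5,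
      3)]
    mix := [(0, 0), (0, 1), (0, 2), (1, 0), (1, 2), (1, 3), (1, 4), (2, 2), (2, 3), (2, 5), (3, 5), (3,
      6), (3, 7), (3, 8), (4, 5), (4, 6), (4, 9), (5, 3), (5, 4), (5, 8)]
    cl := [3, 7, 0, 0, 2, 1, 4, 5, 1, 6]
    chq := [(0, 3), (3, 0), (5, 6), (6, 5)]
    rng := [(0, 1), (0, 4), (1, 0), (1, 2), (2, 1), (2, 5), (3, 4), (4, 0), (4, 3), (4, 8), (5, 2), (5,
      9), (6, 7), (6, 9), (7, 6), (7, 8), (8, 4), (8, 7), (9, 5), (9, 6)]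
    lev := [] }
  links := [[1, 6, 7, 8], [6, 0, 8, 2, 9, 10], [9, 1, 8, 11, 3, 5], [5, 2, 11, 4, 12, 13, 14], [12, 3,
    11, 15], [9, 2, 3, 14, 10]]
  P := {
    a := 6
    N := 16
    nb := [450, 1861, 2858, 30772, 38920, 17932, 1155, 321, 2183, 1062, 16994, 33052, 40984, 20488,
      9256, 6160]
    tri := [(0, 1, 6), (0, 1, 8), (0, 6, 7), (0, 7, 8), (1, 2, 8), (1, 2, 9), (1, 6, 10), (1, 9, 10),
      (2, 3, 5), (2, 3, 11), (2, 5, 9), (2, 8, 11), (3, 4, 11), (3, 4, 12), (3, 5, 14), (3, 12,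
      13), (3, 13, 14), (4, 11, 15), (4, 12, 15), (5, 9, 10), (5, 10, 14)]
    fin := [0, 1, 2, 3, 3, 2, 0, 7, 1, 1, 10, 2, 12, 13, 2, 3]
    chd := [(0, 1), (13, 3)]
    steps := [(0, 6), (1, 8), (1, 9), (2, 5), (2, 11), (2, 14), (3, 4), (3, 15)] }
  rep := [1, 2, 10, 0, 12, 13, 3, 7]

noncomputable def v1319 : Cov.CovD where
  P := 3
  N := 5
  pl := [1, 4, 6]
  lev := [⟨[], [], [(0, 3)], [7], [(0, 3, [0]), (2, 0, [3])]⟩,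
    ⟨[], [(0, 0), (0, 3)], [(0, 0), (0, 3)], [2], [(0, 3, [0]), (2, 0, [3]), (3, 0, [3])]⟩,
    ⟨[(0, 1)], [(0, 0), (1, 0), (1, 1), (1, 3)], [(0, 0), (0, 1)], [], [(2, 0, [3]), (3, 0,
      [3]), (5, 1, [])]⟩,
    ⟨[(1, 2)], [(2, 0), (2, 1), (2, 5)], [(1, 1), (1, 5)], [4], [(5, 1, []), (7, 5, [6]),
      (8, 1, [])]⟩,
    ⟨[(2, 3)], [(2, 1), (3, 1), (3, 5), (3, 6)], [(1, 6)], [4], [(5, 1, []), (9, 6, [5])]⟩,
    ⟨[(1, 2), (2, 3), (3, 4)], [(1, 0), (2, 0), (2, 1), (3, 0), (3, 1), (3, 5)], [(0, 1)],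
      [2], [(3, 0, [3]), (8, 1, [])]⟩]
  Ta := [((2, 1), 0, 7), ((2, 5), 0, 1), ((3, 4), 0, 2), ((5, 2), 1, 0), ((5, 9), 1, 6), ((8, 4),
    1, 2), ((8, 7), 1, 5)]
  Tb := [((0, 1, 4), 3, 7, 2), ((1, 0, 2), 7, 3, 0), ((2, 1, 5), 0, 7, 1), ((4, 0, 3), 2, 3, 0),
    ((4, 0, 8), 2, 3, 1), ((4, 3, 8), 2, 0, 1), ((5, 2, 9), 1, 0, 6), ((6, 7, 9), 4, 5, 6),
    ((7, 6, 8), 5, 4, 1), ((8, 4, 7), 1, 2, 5), ((9, 5, 6), 6, 1, 4)]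
  Tc := []
  Td := [((0, 3), (2, 1), 7), ((0, 3), (2, 5), 1), ((0, 3), (3, 4), 2), ((3, 0), (0, 1), 7), ((3,
    0), (0, 4), 2), ((5, 6), (7, 6), 4), ((5, 6), (7, 8), 1), ((6, 5), (9, 5), 1), ((6, 5),
    (9, 6), 4)]
  G := [[0, 0x44688a88ce4884648a44ce2444688a48ce244688a88ce8ce, 0, 0,
    0x21581982cd4812922c52858c11522982cd8a22582928cd82e], [0, 0, 0,
    0x4211944cd4814518942d8442113486d41151284ad8ce,
    0x1138288ad4811688a82d412119886d8a1138288cd82e], [0, 0, 0x44522924cd4829428582c9cc1, 0,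
    0x22582982cd8228982c52258c222922c52258c87], [0, 0, 0x44688a82d444688ac821cc1,
    0x4288348cd848288c58458a44284c98894687, 0x8838865828c282883886d428288988cd487]]

noncomputable def n1319 : Ent := ⟨e1319, noF, [], [], [(7, 15, [360035742630636841211993100915356868655746945586763691013066753, 0])]⟩

def c1319 : PLift (Cov.check n1319.C.D v1319 = true) := ⟨by decide +kernel⟩

def b1319 : PLift (entF (fidx ts) 400 1319 n1319 = true) := ⟨by decide +kernel⟩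

theorem g1319 : GoodF (fidx ts) 400 1319 := GoodF.ofV v1319 n1319 c1319.down b1319.down

/-- 466745:1056 -/
noncomputable def e1320 : SCfg where
  D := {
    a := 6
    L := 11
    kp := 8
    inn := [(0, 1), (1, 0), (1, 2), (2, 1), (2, 3), (2, 5), (3, 2), (3, 4), (3, 5), (4, 3), (5, 2), (5,
      3)]
    mix := [(0, 0), (0, 1), (0, 2), (1, 0), (1, 2), (1, 3), (1, 4), (2, 2), (2, 3), (2, 5), (3, 5), (3,
      6), (3, 7), (3, 8), (4, 5), (4, 6), (4, 9), (5, 3), (5, 8), (5, 10)]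
    cl := [2, 6, 0, 0, 7, 1, 3, 4, 1, 5, 8]
    chq := [(0, 2), (2, 0), (4, 5), (5, 4)]
    rng := [(0, 1), (0, 4), (1, 0), (1, 2), (2, 1), (2, 5), (3, 4), (3, 10), (4, 0), (4, 3), (5, 2),
      (5, 9), (6, 7), (6, 9), (7, 6), (7, 8), (8, 7), (8, 10), (9, 5), (9, 6), (10, 3), (10, 8)]
    lev := [] }
  links := [[1, 6, 7, 8], [6, 0, 8, 2, 9, 10], [9, 1, 8, 11, 3, 5], [5, 2, 11, 4, 12, 13, 14], [12, 3,
    11, 15], [9, 2, 3, 14, 16]]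
  P := {
    a := 6
    N := 17
    nb := [450, 1861, 2858, 30772, 38920, 82444, 1155, 321, 2183, 66598, 578, 33052, 40984, 20488,
      73768, 6160, 16928]
    tri := [(0, 1, 6), (0, 1, 8), (0, 6, 7), (0, 7, 8), (1, 2, 8), (1, 2, 9), (1, 6, 10), (1, 9, 10),
      (2, 3, 5), (2, 3, 11), (2, 5, 9), (2, 8, 11), (3, 4, 11), (3, 4, 12), (3, 5, 14), (3, 12,
      13), (3, 13, 14), (4, 11, 15), (4, 12, 15), (5, 9, 16), (5, 14, 16)]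
    fin := [0, 1, 2, 3, 3, 2, 0, 7, 1, 1, 10, 2, 12, 13, 2, 3, 16]
    chd := [(0, 1), (13, 3)]
    steps := [(0, 6), (1, 8), (1, 9), (2, 5), (2, 11), (2, 14), (3, 4), (3, 15)] }
  rep := [1, 2, 0, 12, 13, 3, 7, 10, 16]

noncomputable def v1320 : Cov.CovD where
  P := 3
  N := 6
  pl := [1, 4, 6, 10]
  lev := [⟨[], [], [(0, 2)], [6], [(0, 2, [0]), (2, 0, [2])]⟩,
    ⟨[], [(0, 0), (0, 2)], [(0, 0), (0, 2)], [7], [(0, 2, [0]), (2, 0, [2]), (3, 0, [2])]⟩,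
    ⟨[(0, 1)], [(0, 0), (1, 0), (1, 1), (1, 2)], [(0, 0), (0, 1)], [], [(2, 0, [2]), (3, 0,
      [2]), (5, 1, [])]⟩,
    ⟨[(1, 2)], [(2, 0), (2, 1), (2, 4)], [(1, 1), (1, 4)], [3], [(5, 1, []), (7, 4, [5]),
      (8, 1, [])]⟩,
    ⟨[(2, 3)], [(2, 1), (3, 1), (3, 4), (3, 5)], [(1, 5)], [3], [(5, 1, []), (9, 5, [4])]⟩,
    ⟨[(1, 2), (2, 3), (3, 4)], [(1, 0), (2, 0), (2, 1), (3, 0), (3, 1), (3, 4)], [(0, 1)],
      [8], [(3, 0, [2]), (8, 1, [])]⟩]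
  Ta := [((2, 1), 0, 6), ((2, 5), 0, 1), ((3, 4), 0, 7), ((3, 10), 0, 8), ((5, 2), 1, 0), ((5,
    9), 1, 5), ((8, 7), 1, 4), ((8, 10), 1, 8)]
  Tb := [((0, 1, 4), 2, 6, 7), ((1, 0, 2), 6, 2, 0), ((2, 1, 5), 0, 6, 1), ((3, 4, 10), 0, 7, 8),
    ((4, 0, 3), 7, 2, 0), ((5, 2, 9), 1, 0, 5), ((6, 7, 9), 3, 4, 5), ((7, 6, 8), 4, 3, 1),
    ((8, 7, 10), 1, 4, 8), ((9, 5, 6), 5, 1, 3), ((10, 3, 8), 8, 0, 1)]
  Tc := []
  Td := [((0, 2), (2, 1), 6), ((0, 2), (2, 5), 1), ((0, 2), (3, 4), 7), ((0, 2), (3, 10), 8),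
    ((2, 0), (0, 1), 6), ((2, 0), (0, 4), 7), ((4, 5), (7, 6), 3), ((4, 5), (7, 8), 1), ((5,
    4), (9, 5), 1), ((5, 4), (9, 6), 3)]
  G := [[0, 0xca6aaa6cce46666aa6cce8caa6aaa66ce4666aaaaace8cc,
    0x219422522c9c212522922cd8412511922cd48e,
    0x12522922cd4219421522c9cc22512922cd412522922cd8cc,
    0x22512922cd422521922cd8a21922c52258c21512922cd4aa], [0, 0,
    0x11611ac2d48c21115119ca412119cc6d42e, 0x11611ac2d411611ac2d8c11312ccad412113cc6d8cc,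
    0x11511ac2d412119cc6d4a12113cccd412113cc6d8aa], [0, 0,
    0x21521922cd4211511922cd8422511922cd48e, 0x22922c52258c22522922cd8c1,
    0x22522922cd422522922cd8a1], [0, 0, 0x11512ccad8412113cccd4811312cccd42e,
    0xcc5cc9cccd242cc3cccd828cc1, 0x4434c2889cc6dc44c2ccad8c58ca1]]

noncomputable def n1320 : Ent := ⟨e1320, noF, [], [], [(7, 15, [1685356702439545624007900436039642273970977273354372543760005488641, 0]), (16, 10, [1580044410770988437858045522355060435978463990222429564876669218817, 0])]⟩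

def c1320 : PLift (Cov.check n1320.C.D v1320 = true) := ⟨by decide +kernel⟩

def b1320 : PLift (entF (fidx ts) 400 1320 n1320 = true) := ⟨by decide +kernel⟩

theorem g1320 : GoodF (fidx ts) 400 1320 := GoodF.ofV v1320 n1320 c1320.down b1320.down

/-- 466745:1057/1 -/
noncomputable def e1321 : SCfg where
  D := {
    a := 6
    L := 10
    kp := 7
    inn := [(0, 1), (1, 0), (1, 2), (2, 1), (2, 3), (2, 5), (3, 2), (3, 4), (3, 5), (4, 3), (5, 2), (5,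
      3)]
    mix := [(0, 0), (0, 1), (0, 2), (1, 0), (1, 2), (1, 3), (1, 4), (2, 2), (2, 3), (2, 5), (3, 5), (3,
      6), (3, 7), (3, 8), (4, 0), (4, 6), (4, 7), (5, 3), (5, 8), (5, 9)]
    cl := [2, 5, 0, 0, 6, 1, 3, 4, 1, 7]
    chq := [(0, 2), (1, 2), (2, 0), (2, 1)]
    rng := [(0, 1), (0, 4), (0, 6), (0, 7), (1, 0), (1, 2), (2, 1), (2, 5), (3, 4), (3, 9), (4, 0), (4,
      3), (5, 2), (5, 6), (6, 0), (6, 5), (7, 0), (7, 8), (8, 7), (8, 9), (9, 3), (9, 8)]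
    lev := [] }
  links := [[1, 6, 7, 8], [6, 0, 8, 2, 9, 10], [9, 1, 8, 11, 3, 5], [5, 2, 11, 12, 4, 13, 14], [13, 3,
    12, 6], [9, 2, 3, 14, 15]]
  P := {
    a := 6
    N := 16
    nb := [450, 1861, 2858, 30772, 12360, 49676, 13459, 321, 2183, 33830, 578, 4364, 2136, 16472,
      41000, 16928]
    tri := [(0, 1, 6), (0, 1, 8), (0, 6, 7), (0, 7, 8), (1, 2, 8), (1, 2, 9), (1, 6, 10), (1, 9, 10),
      (2, 3, 5), (2, 3, 11), (2, 5, 9), (2, 8, 11), (3, 4, 12), (3, 4, 13), (3, 5, 14), (3, 11,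
      12), (3, 13, 14), (4, 6, 12), (4, 6, 13), (5, 9, 15), (5, 14, 15)]
    fin := [0, 0, 2, 3, 0, 2, 0, 7, 2, 2, 10, 3, 12, 13, 3, 15]
    chd := [(0, 2), (0, 3)]
    steps := [(0, 1), (0, 6), (0, 4), (2, 5), (2, 8), (2, 9), (3, 11), (3, 14)] }
  rep := [2, 3, 0, 12, 13, 7, 10, 15]

noncomputable def v1321 : Cov.CovD where
  P := 3
  N := 5
  pl := [1, 4, 6, 7, 9]
  lev := [⟨[], [], [(0, 2)], [5], [(0, 2, [0, 1]), (2, 0, [2])]⟩,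
    ⟨[], [(0, 0), (0, 2)], [(0, 0), (0, 2)], [6], [(0, 2, [0, 1]), (2, 0, [2]), (3, 0,
      [2])]⟩,
    ⟨[(0, 1)], [(0, 0), (1, 0), (1, 1), (1, 2)], [(0, 0), (0, 1)], [], [(2, 0, [2]), (3, 0,
      [2]), (5, 1, [2])]⟩,
    ⟨[(1, 2)], [(2, 0), (2, 1)], [(1, 1)], [3, 4], [(5, 1, [2]), (8, 1, [2])]⟩,
    ⟨[(2, 3)], [(0, 2), (1, 2), (3, 1), (3, 2)], [], [3, 4], [(0, 2, [0, 1])]⟩,
    ⟨[(1, 2), (2, 3), (3, 4)], [(1, 0), (2, 0), (2, 1), (3, 0), (3, 1)], [(0, 1)], [7],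
      [(3, 0, [2]), (8, 1, [2])]⟩]
  Ta := [((2, 1), 0, 5), ((2, 5), 0, 1), ((3, 4), 0, 6), ((3, 9), 0, 7), ((5, 2), 1, 0), ((5, 6),
    1, 3), ((8, 7), 1, 4), ((8, 9), 1, 7)]
  Tb := [((0, 1, 4), 2, 5, 6), ((0, 1, 6), 2, 5, 3), ((0, 1, 7), 2, 5, 4), ((0, 4, 6), 2, 6, 3),
    ((0, 4, 7), 2, 6, 4), ((0, 6, 7), 2, 3, 4), ((1, 0, 2), 5, 2, 0), ((2, 1, 5), 0, 5, 1),
    ((3, 4, 9), 0, 6, 7), ((4, 0, 3), 6, 2, 0), ((5, 2, 6), 1, 0, 3), ((6, 0, 5), 3, 2, 1),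
    ((7, 0, 8), 4, 2, 1), ((8, 7, 9), 1, 4, 7), ((9, 3, 8), 7, 0, 1)]
  Tc := [(2, 0, 1)]
  Td := [((0, 2), (2, 1), 5), ((0, 2), (2, 5), 1), ((0, 2), (3, 4), 6), ((0, 2), (3, 9), 7), ((1,
    2), (5, 2), 0), ((1, 2), (5, 6), 3), ((1, 2), (8, 7), 4), ((1, 2), (8, 9), 7), ((2, 0),
    (0, 1), 5), ((2, 0), (0, 4), 6), ((2, 0), (0, 6), 3), ((2, 0), (0, 7), 4), ((2, 1), (0,
    1), 5), ((2, 1), (0, 4), 6), ((2, 1), (0, 6), 3), ((2, 1), (0, 7), 4)]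
  G := [[0, 0x68a4c1e261c1c1e2ca161c1e261c1c1e8cc, 0x222e184222e182222e148e,
    0x24418219c224215188c2c, 0x182221d4281221d4a182221d4181221d4aa], [0, 0,
    0x1111c2d481811c2d241811c2d42e, 0x14215188c214215288c2c,
    0x1812c1d41812c1d4a1812c1d41812c1d4aa], [0, 0, 0x222e184222e148222e182e, 0x24215288c21,
    0x282221d4282221d4a1], [0, 0, 0x1882914425641111c2d421811c2d48e, 0x24215288c21,
    0x48a88ac42c1568cac1548a8ca1]]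

noncomputable def n1321 : Ent := ⟨e1321, noF, [], [], []⟩

def c1321 : PLift (Cov.check n1321.C.D v1321 = true) := ⟨by decide +kernel⟩

def b1321 : PLift (entF (fidx ts) 400 1321 n1321 = true) := ⟨by decide +kernel⟩

theorem g1321 : GoodF (fidx ts) 400 1321 := GoodF.ofV v1321 n1321 c1321.down b1321.down

/-- 466745:1057/2 -/
noncomputable def e1322 : SCfg where
  D := {
    a := 6
    L := 10
    kp := 7
    inn := [(0, 1), (1, 0), (1, 2), (2, 1), (2, 3), (2, 5), (3, 2), (3, 4), (3, 5), (4, 3), (5, 2), (5,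
      3)]
    mix := [(0, 0), (0, 1), (0, 2), (1, 0), (1, 2), (1, 3), (1, 4), (2, 2), (2, 3), (2, 5), (3, 5), (3,
      6), (3, 7), (3, 8), (4, 1), (4, 6), (4, 7), (5, 3), (5, 8), (5, 9)]
    cl := [1, 2, 0, 0, 6, 3, 4, 5, 3, 7]
    chq := [(0, 1), (1, 0), (2, 3), (3, 2)]
    rng := [(0, 1), (0, 4), (1, 0), (1, 2), (1, 6), (1, 7), (2, 1), (2, 5), (3, 4), (3, 9), (4, 0), (4,
      3), (5, 2), (5, 6), (6, 1), (6, 5), (7, 1), (7, 8), (8, 7), (8, 9), (9, 3), (9, 8)]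
    lev := [] }
  links := [[1, 6, 7, 8], [6, 0, 8, 2, 9, 10], [9, 1, 8, 11, 3, 5], [5, 2, 11, 12, 4, 13, 14], [13, 3,
    12, 7], [9, 2, 3, 14, 15]]
  P := {
    a := 6
    N := 16
    nb := [450, 1861, 2858, 30772, 12424, 49676, 1155, 12625, 2183, 33830, 578, 4364, 2200, 16536,
      41000, 16928]
    tri := [(0, 1, 6), (0, 1, 8), (0, 6, 7), (0, 7, 8), (1, 2, 8), (1, 2, 9), (1, 6, 10), (1, 9, 10),
      (2, 3, 5), (2, 3, 11), (2, 5, 9), (2, 8, 11), (3, 4, 12), (3, 4, 13), (3, 5, 14), (3, 11,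
      12), (3, 13, 14), (4, 7, 12), (4, 7, 13), (5, 9, 15), (5, 14, 15)]
    fin := [0, 0, 2, 3, 4, 2, 0, 4, 2, 2, 10, 3, 12, 13, 3, 15]
    chd := [(0, 2), (4, 3)]
    steps := [(0, 1), (0, 6), (2, 5), (2, 8), (2, 9), (3, 11), (3, 14), (4, 7)] }
  rep := [2, 0, 4, 3, 12, 13, 10, 15]

noncomputable def v1322 : Cov.CovD where
  P := 3
  N := 5
  pl := [4, 6, 7, 9]
  lev := [⟨[], [], [(0, 1), (0, 2), (1, 2)], [], [(0, 1, [0]), (1, 2, [3]), (2, 0, [1])]⟩,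
    ⟨[], [(0, 0), (0, 1), (0, 2)], [(0, 0), (0, 1)], [6], [(0, 1, [0]), (2, 0, [1]), (3, 0,
      [1])]⟩,
    ⟨[(0, 1)], [(0, 0), (1, 0), (1, 1), (1, 3)], [(0, 0), (0, 3)], [], [(2, 0, [1]), (3, 0,
      [1]), (5, 3, [2])]⟩,
    ⟨[(1, 2)], [(2, 0), (2, 3)], [(3, 3)], [4, 5], [(5, 3, [2]), (8, 3, [2])]⟩,
    ⟨[(2, 3)], [(0, 2), (3, 2), (3, 3)], [], [4, 5], [(1, 2, [3])]⟩,
    ⟨[(1, 2), (2, 3), (3, 4)], [(1, 0), (2, 0), (2, 3), (3, 0), (3, 3)], [(0, 3)], [7],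
      [(3, 0, [1]), (8, 3, [2])]⟩]
  Ta := [((2, 1), 0, 2), ((2, 5), 0, 3), ((3, 4), 0, 6), ((3, 9), 0, 7), ((5, 2), 3, 0), ((5, 6),
    3, 4), ((8, 7), 3, 5), ((8, 9), 3, 7)]
  Tb := [((0, 1, 4), 1, 2, 6), ((1, 0, 2), 2, 1, 0), ((1, 0, 6), 2, 1, 4), ((1, 0, 7), 2, 1, 5),
    ((1, 2, 6), 2, 0, 4), ((1, 2, 7), 2, 0, 5), ((1, 6, 7), 2, 4, 5), ((2, 1, 5), 0, 2, 3),
    ((3, 4, 9), 0, 6, 7), ((4, 0, 3), 6, 1, 0), ((5, 2, 6), 3, 0, 4), ((6, 1, 5), 4, 2, 3),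
    ((7, 1, 8), 5, 2, 3), ((8, 7, 9), 3, 5, 7), ((9, 3, 8), 7, 0, 3)]
  Tc := []
  Td := [((0, 1), (2, 1), 2), ((0, 1), (2, 5), 3), ((0, 1), (3, 4), 6), ((0, 1), (3, 9), 7), ((1,
    0), (0, 1), 2), ((1, 0), (0, 4), 6), ((2, 3), (1, 0), 1), ((2, 3), (1, 2), 0), ((2, 3),
    (1, 6), 4), ((2, 3), (1, 7), 5), ((3, 2), (5, 2), 0), ((3, 2), (5, 6), 4), ((3, 2), (8,
    7), 5), ((3, 2), (8, 9), 7)]
  G := [[0, 0x181414cc1f2181411cc1f2c4, 0x222e1444e16444e1888e1cc8, 0x11cd2211cd22c8,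
    0x7811abd2a1f42634262882a1b481844dec8], [0, 0x181411ce1f21441811ce1bca4,
    0xeeee12eeee12c4, 0x111d22111d22c8, 0x1811a12e1f411a12e17188ac8], [0,
    0x181414cc1f2181411cc1f2c4, 0, 0xcccd22cccd22c1, 0x28c82a286a1f442622a21d88a84c817ac8],
    [0, 0x181411ce1f21411c618e19c68, 0, 0xeeed24eeed28c8, 0x6ac248aeeae1d6eea24ae1748a8ac8]]

noncomputable def n1322 : Ent := ⟨e1322, noF, [], [], []⟩

def c1322 : PLift (Cov.check n1322.C.D v1322 = true) := ⟨by decide +kernel⟩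

def b1322 : PLift (entF (fidx ts) 400 1322 n1322 = true) := ⟨by decide +kernel⟩

theorem g1322 : GoodF (fidx ts) 400 1322 := GoodF.ofV v1322 n1322 c1322.down b1322.down

/-- 466745:1057/3 -/
noncomputable def e1323 : SCfg where
  D := {
    a := 6
    L := 10
    kp := 7
    inn := [(0, 1), (1, 0), (1, 2), (2, 1), (2, 3), (2, 5), (3, 2), (3, 4), (3, 5), (4, 3), (5, 2), (5,
      3)]
    mix := [(0, 0), (0, 1), (0, 2), (1, 0), (1, 2), (1, 3), (1, 4), (2, 2), (2, 3), (2, 5), (3, 5), (3,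
      6), (3, 7), (3, 8), (4, 4), (4, 6), (4, 7), (5, 3), (5, 8), (5, 9)]
    cl := [1, 6, 0, 0, 2, 3, 4, 5, 3, 7]
    chq := [(0, 1), (1, 0), (2, 3), (3, 2)]
    rng := [(0, 1), (0, 4), (1, 0), (1, 2), (2, 1), (2, 5), (3, 4), (3, 9), (4, 0), (4, 3), (4, 6), (4,
      7), (5, 2), (5, 6), (6, 4), (6, 5), (7, 4), (7, 8), (8, 7), (8, 9), (9, 3), (9, 8)]
    lev := [] }
  links := [[1, 6, 7, 8], [6, 0, 8, 2, 9, 10], [9, 1, 8, 11, 3, 5], [5, 2, 11, 12, 4, 13, 14], [13, 3,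
    12, 10], [9, 2, 3, 14, 15]]
  P := {
    a := 6
    N := 16
    nb := [450, 1861, 2858, 30772, 13320, 49676, 1155, 321, 2183, 33830, 12882, 4364, 3096, 17432,
      41000, 16928]
    tri := [(0, 1, 6), (0, 1, 8), (0, 6, 7), (0, 7, 8), (1, 2, 8), (1, 2, 9), (1, 6, 10), (1, 9, 10),
      (2, 3, 5), (2, 3, 11), (2, 5, 9), (2, 8, 11), (3, 4, 12), (3, 4, 13), (3, 5, 14), (3, 11,
      12), (3, 13, 14), (4, 10, 12), (4, 10, 13), (5, 9, 15), (5, 14, 15)]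
    fin := [0, 0, 2, 3, 3, 2, 0, 7, 2, 2, 10, 3, 12, 13, 3, 15]
    chd := [(0, 2), (10, 3)]
    steps := [(0, 1), (0, 6), (2, 5), (2, 8), (2, 9), (3, 4), (3, 11), (3, 14)] }
  rep := [2, 0, 10, 3, 12, 13, 7, 15]

noncomputable def v1323 : Cov.CovD where
  P := 3
  N := 5
  pl := [1, 6, 7, 9]
  lev := [⟨[], [], [(0, 1)], [6], [(0, 1, [0]), (2, 0, [1])]⟩,
    ⟨[], [(0, 0), (0, 1), (0, 2)], [(0, 0), (0, 1), (0, 2), (1, 2)], [], [(0, 1, [0]), (2,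
      0, [1]), (3, 0, [1]), (4, 2, [3])]⟩,
    ⟨[(0, 1)], [(0, 0), (1, 0), (1, 1), (1, 2), (1, 3)], [(0, 0), (0, 3)], [], [(2, 0,
      [1]), (3, 0, [1]), (5, 3, [2])]⟩,
    ⟨[(1, 2)], [(2, 0), (2, 3)], [(3, 3)], [4, 5], [(5, 3, [2]), (8, 3, [2])]⟩,
    ⟨[(2, 3)], [(1, 2), (3, 2), (3, 3)], [], [4, 5], [(4, 2, [3])]⟩,
    ⟨[(1, 2), (2, 3), (3, 4)], [(1, 0), (2, 0), (2, 3), (3, 0), (3, 3)], [(0, 3)], [7],
      [(3, 0, [1]), (8, 3, [2])]⟩]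
  Ta := [((2, 1), 0, 6), ((2, 5), 0, 3), ((3, 4), 0, 2), ((3, 9), 0, 7), ((5, 2), 3, 0), ((5, 6),
    3, 4), ((8, 7), 3, 5), ((8, 9), 3, 7)]
  Tb := [((0, 1, 4), 1, 6, 2), ((1, 0, 2), 6, 1, 0), ((2, 1, 5), 0, 6, 3), ((3, 4, 9), 0, 2, 7),
    ((4, 0, 3), 2, 1, 0), ((4, 0, 6), 2, 1, 4), ((4, 0, 7), 2, 1, 5), ((4, 3, 6), 2, 0, 4),
    ((4, 3, 7), 2, 0, 5), ((4, 6, 7), 2, 4, 5), ((5, 2, 6), 3, 0, 4), ((6, 4, 5), 4, 2, 3),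
    ((7, 4, 8), 5, 2, 3), ((8, 7, 9), 3, 5, 7), ((9, 3, 8), 7, 0, 3)]
  Tc := []
  Td := [((0, 1), (2, 1), 6), ((0, 1), (2, 5), 3), ((0, 1), (3, 4), 2), ((0, 1), (3, 9), 7), ((1,
    0), (0, 1), 6), ((1, 0), (0, 4), 2), ((2, 3), (4, 0), 1), ((2, 3), (4, 3), 0), ((2, 3),
    (4, 6), 4), ((2, 3), (4, 7), 5), ((3, 2), (5, 2), 0), ((3, 2), (5, 6), 4), ((3, 2), (8,
    7), 5), ((3, 2), (8, 9), 7)]
  G := [[0, 0x181484cc1f24181411cc1f24c, 0, 0x11cd22411cd224c, 0x7882abd2a1f487881abd2a1f48c],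
    [0, 0x1411ce17188a4e11181411cea4a, 0, 0x111d228111d224c, 0x1812a11ae15681811a12ee1168c],
    [0, 0x181411cc1f24181484cc1f24a, 0x222e1a44e1681, 0xcccd2241, 0x28c82a286a1f481], [0,
    0x1811ce1b14468181411ce1f24a, 0xeeee1481, 0xeeed2481, 0x68248aeea44e1f681]]

noncomputable def n1323 : Ent := ⟨e1323, noF, [], [], []⟩

def c1323 : PLift (Cov.check n1323.C.D v1323 = true) := ⟨by decide +kernel⟩

def b1323 : PLift (entF (fidx ts) 400 1323 n1323 = true) := ⟨by decide +kernel⟩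

theorem g1323 : GoodF (fidx ts) 400 1323 := GoodF.ofV v1323 n1323 c1323.down b1323.down

/-- 466745:1057 -/
noncomputable def e1324 : SCfg where
  D := {
    a := 6
    L := 11
    kp := 8
    inn := [(0, 1), (1, 0), (1, 2), (2, 1), (2, 3), (2, 5), (3, 2), (3, 4), (3, 5), (4, 3), (5, 2), (5,
      3)]
    mix := [(0, 0), (0, 1), (0, 2), (1, 0), (1, 2), (1, 3), (1, 4), (2, 2), (2, 3), (2, 5), (3, 5), (3,
      6), (3, 7), (3, 8), (4, 6), (4, 7), (4, 9), (5, 3), (5, 8), (5, 10)]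
    cl := [2, 6, 0, 0, 7, 1, 3, 4, 1, 5, 8]
    chq := [(0, 2), (1, 5), (2, 0), (5, 1)]
    rng := [(0, 1), (0, 4), (1, 0), (1, 2), (2, 1), (2, 5), (3, 4), (3, 10), (4, 0), (4, 3), (5, 2),
      (5, 6), (6, 5), (6, 9), (7, 8), (7, 9), (8, 7), (8, 10), (9, 6), (9, 7), (10, 3), (10, 8)]
    lev := [] }
  links := [[1, 6, 7, 8], [6, 0, 8, 2, 9, 10], [9, 1, 8, 11, 3, 5], [5, 2, 11, 12, 4, 13, 14], [13, 3,
    12, 15], [9, 2, 3, 14, 16]]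
  P := {
    a := 6
    N := 17
    nb := [450, 1861, 2858, 30772, 45064, 82444, 1155, 321, 2183, 66598, 578, 4364, 34840, 49176,
      73768, 12304, 16928]
    tri := [(0, 1, 6), (0, 1, 8), (0, 6, 7), (0, 7, 8), (1, 2, 8), (1, 2, 9), (1, 6, 10), (1, 9, 10),
      (2, 3, 5), (2, 3, 11), (2, 5, 9), (2, 8, 11), (3, 4, 12), (3, 4, 13), (3, 5, 14), (3, 11,
      12), (3, 13, 14), (4, 12, 15), (4, 13, 15), (5, 9, 16), (5, 14, 16)]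
    fin := [0, 0, 2, 3, 3, 2, 0, 7, 2, 2, 10, 3, 12, 13, 3, 15, 16]
    chd := [(0, 2), (3, 15)]
    steps := [(0, 1), (0, 6), (2, 5), (2, 8), (2, 9), (3, 4), (3, 11), (3, 14)] }
  rep := [2, 3, 0, 12, 13, 15, 7, 10, 16]

noncomputable def v1324 : Cov.CovD where
  P := 3
  N := 6
  pl := [1, 4, 6, 7, 10]
  lev := [⟨[], [], [(0, 2)], [6], [(0, 2, [0]), (2, 0, [2])]⟩,
    ⟨[], [(0, 0), (0, 2)], [(0, 0), (0, 2)], [7], [(0, 2, [0]), (2, 0, [2]), (3, 0, [2])]⟩,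
    ⟨[(0, 1)], [(0, 0), (1, 0), (1, 1), (1, 2)], [(0, 0), (0, 1)], [], [(2, 0, [2]), (3, 0,
      [2]), (5, 1, [5])]⟩,
    ⟨[(1, 2)], [(2, 0), (2, 1)], [(1, 1)], [3, 4], [(5, 1, [5]), (8, 1, [5])]⟩,
    ⟨[(2, 3)], [(3, 1), (3, 5)], [], [3, 4], [(9, 5, [1])]⟩,
    ⟨[(1, 2), (2, 3), (3, 4)], [(1, 0), (2, 0), (2, 1), (3, 0), (3, 1)], [(0, 1)], [8],
      [(3, 0, [2]), (8, 1, [5])]⟩]
  Ta := [((2, 1), 0, 6), ((2, 5), 0, 1), ((3, 4), 0, 7), ((3, 10), 0, 8), ((5, 2), 1, 0), ((5,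
    6), 1, 3), ((8, 7), 1, 4), ((8, 10), 1, 8)]
  Tb := [((0, 1, 4), 2, 6, 7), ((1, 0, 2), 6, 2, 0), ((2, 1, 5), 0, 6, 1), ((3, 4, 10), 0, 7, 8),
    ((4, 0, 3), 7, 2, 0), ((5, 2, 6), 1, 0, 3), ((6, 5, 9), 3, 1, 5), ((7, 8, 9), 4, 1, 5),
    ((8, 7, 10), 1, 4, 8), ((9, 6, 7), 5, 3, 4), ((10, 3, 8), 8, 0, 1)]
  Tc := []
  Td := [((0, 2), (2, 1), 6), ((0, 2), (2, 5), 1), ((0, 2), (3, 4), 7), ((0, 2), (3, 10), 8),
    ((1, 5), (5, 2), 0), ((1, 5), (5, 6), 3), ((1, 5), (8, 7), 4), ((1, 5), (8, 10), 8), ((2,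
    0), (0, 1), 6), ((2, 0), (0, 4), 7), ((5, 1), (9, 6), 3), ((5, 1), (9, 7), 4)]
  G := [[0, 0xa1a1a1e461a161e8c61a161e4c161c1e2cc, 0x212e222227d4812216223d288c212111e222bd84e,
    0x121e222227d4216412a2239cc116223521a8c12122e222bd8cc,
    0x122e122227d412111e222bd8a216223522a8c221e222227d4aa], [0, 0,
    0x11a12cc3d1446811a116cc3d2412116cc3d188c2e,
    0x11acc391164611a116cc3d2c116411acc39c111b1117c2d2cc,
    0x11a116cc3d214411a12cc3dca11a8116cc356144111b113c2dcaa], [0, 0,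
    0x12126223d188c212112e222bd84126223511a8c8e, 0x226223522a8c22222e222bd8c1,
    0x226422a2239c222e222227d4a1], [0, 0, 0x111bc29111746814411a12cc3dc2116cc3511a8c4e,
    0xcc6ccaccccfd288ce84ccf544ce8ac1, 0x44ce88ce84ccfd2846444ce88a84ccfdca1]]

noncomputable def n1324 : Ent := ⟨e1324, noF, [], [], [(6, 15, [1685356702439545624007900436039642273970977273354372543760005500929, 0]), (7, 15, [1685356702439545624007900436039642273970977273354372543760005505025, 0]), (15, 10, [1685356702439545624464619697705549435909628783578210987402484428801, 0])]⟩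

def c1324 : PLift (Cov.check n1324.C.D v1324 = true) := ⟨by decide +kernel⟩

def b1324 : PLift (entF (fidx ts) 400 1324 n1324 = true) := ⟨by decide +kernel⟩

theorem g1324 : GoodF (fidx ts) 400 1324 := GoodF.ofV v1324 n1324 c1324.down b1324.down

/-- 466745:1058/1 -/
noncomputable def e1325 : SCfg where
  D := {
    a := 6
    L := 10
    kp := 7
    inn := [(0, 1), (1, 0), (1, 2), (2, 1), (2, 3), (2, 5), (3, 2), (3, 4), (3, 5), (4, 3), (5, 2), (5,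
      3)]
    mix := [(0, 0), (0, 1), (0, 2), (1, 0), (1, 2), (1, 3), (1, 4), (2, 2), (2, 3), (2, 5), (3, 5), (3,
      6), (3, 7), (3, 8), (4, 0), (4, 7), (4, 8), (5, 3), (5, 8), (5, 9)]
    cl := [2, 5, 0, 0, 6, 1, 4, 3, 1, 7]
    chq := [(0, 2), (2, 0), (2, 4), (4, 2)]
    rng := [(0, 1), (0, 4), (0, 7), (0, 8), (1, 0), (1, 2), (2, 1), (2, 5), (3, 4), (3, 9), (4, 0), (4,
      3), (5, 2), (5, 6), (6, 5), (6, 7), (7, 0), (7, 6), (8, 0), (8, 9), (9, 3), (9, 8)]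
    lev := [] }
  links := [[1, 6, 7, 8], [6, 0, 8, 2, 9, 10], [9, 1, 8, 11, 3, 5], [5, 2, 11, 12, 13, 4, 14], [14, 3,
    13, 6], [9, 2, 3, 14, 15]]
  P := {
    a := 6
    N := 16
    nb := [450, 1861, 2858, 30772, 24648, 49676, 25747, 321, 2183, 33830, 578, 4364, 10248, 4184,
      32888, 16928]
    tri := [(0, 1, 6), (0, 1, 8), (0, 6, 7), (0, 7, 8), (1, 2, 8), (1, 2, 9), (1, 6, 10), (1, 9, 10),
      (2, 3, 5), (2, 3, 11), (2, 5, 9), (2, 8, 11), (3, 4, 13), (3, 4, 14), (3, 5, 14), (3, 11,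
      12), (3, 12, 13), (4, 6, 13), (4, 6, 14), (5, 9, 15), (5, 14, 15)]
    fin := [0, 1, 2, 0, 0, 2, 0, 7, 1, 1, 10, 2, 12, 13, 2, 15]
    chd := [(0, 1), (0, 12)]
    steps := [(0, 6), (0, 4), (0, 3), (1, 8), (1, 9), (2, 5), (2, 11), (2, 14)] }
  rep := [1, 2, 0, 13, 12, 7, 10, 15]

noncomputable def v1325 : Cov.CovD where
  P := 3
  N := 5
  pl := [1, 4, 7, 9]
  lev := [⟨[], [], [(0, 2)], [5], [(0, 2, [0, 4]), (2, 0, [2])]⟩,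
    ⟨[], [(0, 0), (0, 2)], [(0, 0), (0, 2)], [6], [(0, 2, [0, 4]), (2, 0, [2]), (3, 0,
      [2])]⟩,
    ⟨[(0, 1)], [(0, 0), (1, 0), (1, 1), (1, 2)], [(0, 0), (0, 1)], [], [(2, 0, [2]), (3, 0,
      [2]), (5, 1, [])]⟩,
    ⟨[(1, 2)], [(2, 0), (2, 1), (2, 4)], [(1, 1), (1, 4)], [3], [(5, 1, []), (6, 4, [2]),
      (8, 1, [])]⟩,
    ⟨[(2, 3)], [(0, 2), (1, 2), (3, 1), (3, 2), (3, 4)], [(1, 2)], [3], [(0, 2, [0, 4]),
      (8, 1, [])]⟩,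
    ⟨[(1, 2), (2, 3), (3, 4)], [(1, 0), (2, 0), (2, 1), (3, 0), (3, 1), (3, 4), (4, 1)],
      [(0, 1)], [7], [(3, 0, [2]), (8, 1, [])]⟩]
  Ta := [((2, 1), 0, 5), ((2, 5), 0, 1), ((3, 4), 0, 6), ((3, 9), 0, 7), ((5, 2), 1, 0), ((5, 6),
    1, 4), ((8, 0), 1, 2), ((8, 9), 1, 7)]
  Tb := [((0, 1, 4), 2, 5, 6), ((0, 1, 7), 2, 5, 3), ((0, 1, 8), 2, 5, 1), ((0, 4, 7), 2, 6, 3),
    ((0, 4, 8), 2, 6, 1), ((0, 7, 8), 2, 3, 1), ((1, 0, 2), 5, 2, 0), ((2, 1, 5), 0, 5, 1),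
    ((3, 4, 9), 0, 6, 7), ((4, 0, 3), 6, 2, 0), ((5, 2, 6), 1, 0, 4), ((6, 5, 7), 4, 1, 3),
    ((7, 0, 6), 3, 2, 4), ((8, 0, 9), 1, 2, 7), ((9, 3, 8), 7, 0, 1)]
  Tc := [(2, 0, 4)]
  Td := [((0, 2), (2, 1), 5), ((0, 2), (2, 5), 1), ((0, 2), (3, 4), 6), ((0, 2), (3, 9), 7), ((2,
    0), (0, 1), 5), ((2, 0), (0, 4), 6), ((2, 0), (0, 7), 3), ((2, 0), (0, 8), 1), ((2, 4),
    (0, 1), 5), ((2, 4), (0, 4), 6), ((2, 4), (0, 7), 3), ((2, 4), (0, 8), 1), ((4, 2), (6,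
    5), 1), ((4, 2), (6, 7), 3)]
  G := [[0, 0x61268a4c664a1cc9e8c68a84a5e468a4c1e2cc, 0x22c14222c14822c184e, 0,
    0x181221d4111221d8a12411219c111221d8aa], [0, 0, 0xccc128ccc142ccc124e,
    0x1814c1d21814c1d2c14418c19c1814c1d2cc, 0x18119c1d4119c15188ca11119c8d218119c1d4aa], [0,
    0, 0x22c14822c18422c182e, 0, 0x229428289c212ca21d8a1], [0, 0, 0xccc128ccc184ccc142e,
    0x488dc19484d46cc5484dc1d2c1, 0x489cc9c1d2cc9c154898ca1]]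

noncomputable def n1325 : Ent := ⟨e1325, noF, [], [], []⟩

def c1325 : PLift (Cov.check n1325.C.D v1325 = true) := ⟨by decide +kernel⟩

def b1325 : PLift (entF (fidx ts) 400 1325 n1325 = true) := ⟨by decide +kernel⟩

theorem g1325 : GoodF (fidx ts) 400 1325 := GoodF.ofV v1325 n1325 c1325.down b1325.down

/-- 466745:1058/2 -/
noncomputable def e1326 : SCfg where
  D := {
    a := 6
    L := 10
    kp := 7
    inn := [(0, 1), (1, 0), (1, 2), (2, 1), (2, 3), (2, 5), (3, 2), (3, 4), (3, 5), (4, 3), (5, 2), (5,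
      3)]
    mix := [(0, 0), (0, 1), (0, 2), (1, 0), (1, 2), (1, 3), (1, 4), (2, 2), (2, 3), (2, 5), (3, 5), (3,
      6), (3, 7), (3, 8), (4, 1), (4, 7), (4, 8), (5, 3), (5, 8), (5, 9)]
    cl := [3, 2, 0, 0, 6, 1, 5, 4, 1, 7]
    chq := [(0, 3), (2, 5), (3, 0), (5, 2)]
    rng := [(0, 1), (0, 4), (1, 0), (1, 2), (1, 7), (1, 8), (2, 1), (2, 5), (3, 4), (3, 9), (4, 0), (4,
      3), (5, 2), (5, 6), (6, 5), (6, 7), (7, 1), (7, 6), (8, 1), (8, 9), (9, 3), (9, 8)]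
    lev := [] }
  links := [[1, 6, 7, 8], [6, 0, 8, 2, 9, 10], [9, 1, 8, 11, 3, 5], [5, 2, 11, 12, 13, 4, 14], [14, 3,
    13, 7], [9, 2, 3, 14, 15]]
  P := {
    a := 6
    N := 16
    nb := [450, 1861, 2858, 30772, 24712, 49676, 1155, 24913, 2183, 33830, 578, 4364, 10248, 4248,
      32952, 16928]
    tri := [(0, 1, 6), (0, 1, 8), (0, 6, 7), (0, 7, 8), (1, 2, 8), (1, 2, 9), (1, 6, 10), (1, 9, 10),
      (2, 3, 5), (2, 3, 11), (2, 5, 9), (2, 8, 11), (3, 4, 13), (3, 4, 14), (3, 5, 14), (3, 11,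
      12), (3, 12, 13), (4, 7, 13), (4, 7, 14), (5, 9, 15), (5, 14, 15)]
    fin := [0, 1, 2, 3, 3, 2, 0, 3, 1, 1, 10, 2, 12, 13, 2, 15]
    chd := [(0, 1), (3, 12)]
    steps := [(0, 6), (1, 8), (1, 9), (2, 5), (2, 11), (2, 14), (3, 4), (3, 7)] }
  rep := [1, 2, 3, 0, 13, 12, 10, 15]

noncomputable def v1326 : Cov.CovD where
  P := 3
  N := 5
  pl := [4, 7, 9]
  lev := [⟨[], [], [(0, 2), (0, 3), (2, 3)], [], [(0, 3, [0]), (1, 2, [5]), (2, 0, [3])]⟩,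
    ⟨[], [(0, 0), (0, 2), (0, 3)], [(0, 0), (0, 3)], [6], [(0, 3, [0]), (2, 0, [3]), (3, 0,
      [3])]⟩,
    ⟨[(0, 1)], [(0, 0), (1, 0), (1, 1), (1, 3)], [(0, 0), (0, 1)], [], [(2, 0, [3]), (3, 0,
      [3]), (5, 1, [])]⟩,
    ⟨[(1, 2)], [(2, 0), (2, 1), (2, 5)], [(1, 1), (1, 5)], [4], [(5, 1, []), (6, 5, [2]),
      (8, 1, [])]⟩,
    ⟨[(2, 3)], [(0, 2), (3, 1), (3, 2), (3, 5)], [(1, 2)], [4], [(1, 2, [5]), (8, 1, [])]⟩,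
    ⟨[(1, 2), (2, 3), (3, 4)], [(1, 0), (2, 0), (2, 1), (3, 0), (3, 1), (3, 5), (4, 1)],
      [(0, 1)], [7], [(3, 0, [3]), (8, 1, [])]⟩]
  Ta := [((2, 1), 0, 2), ((2, 5), 0, 1), ((3, 4), 0, 6), ((3, 9), 0, 7), ((5, 2), 1, 0), ((5, 6),
    1, 5), ((8, 1), 1, 2), ((8, 9), 1, 7)]
  Tb := [((0, 1, 4), 3, 2, 6), ((1, 0, 2), 2, 3, 0), ((1, 0, 7), 2, 3, 4), ((1, 0, 8), 2, 3, 1),
    ((1, 2, 7), 2, 0, 4), ((1, 2, 8), 2, 0, 1), ((1, 7, 8), 2, 4, 1), ((2, 1, 5), 0, 2, 1),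
    ((3, 4, 9), 0, 6, 7), ((4, 0, 3), 6, 3, 0), ((5, 2, 6), 1, 0, 5), ((6, 5, 7), 5, 1, 4),
    ((7, 1, 6), 4, 2, 5), ((8, 1, 9), 1, 2, 7), ((9, 3, 8), 7, 0, 1)]
  Tc := []
  Td := [((0, 3), (2, 1), 2), ((0, 3), (2, 5), 1), ((0, 3), (3, 4), 6), ((0, 3), (3, 9), 7), ((2,
    5), (1, 0), 3), ((2, 5), (1, 2), 0), ((2, 5), (1, 7), 4), ((2, 5), (1, 8), 1), ((3, 0),
    (0, 1), 2), ((3, 0), (0, 4), 6), ((5, 2), (6, 5), 1), ((5, 2), (6, 7), 4)]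
  G := [[0, 0xa4a8c1e468a8c1e4a61a4cc9e8c1268a8cc6c, 0x22c14822c18422c142e, 0,
    0x181221d4111228d8c12418219c111221d86a], [0, 0, 0xccc148ccc124ccc142e,
    0x1814c1d214418c19ca1814c1d214418c19c6c, 0x18119c1d211119c8d8c18119c1d211119c8d86a], [0,
    0, 0, 0, 0x2822921d48c2428219c22122921d84b], [0, 0, 0,
    0x488d484dc1d28488d484dc1d24cc9c15488d8c2d, 0x489cc9c1d28cc94489c19c2489cc9c1d24b]]

noncomputable def n1326 : Ent := ⟨e1326, noF, [], [], []⟩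

def c1326 : PLift (Cov.check n1326.C.D v1326 = true) := ⟨by decide +kernel⟩

def b1326 : PLift (entF (fidx ts) 400 1326 n1326 = true) := ⟨by decide +kernel⟩

theorem g1326 : GoodF (fidx ts) 400 1326 := GoodF.ofV v1326 n1326 c1326.down b1326.down

/-- 466745:1058 -/
noncomputable def e1327 : SCfg where
  D := {
    a := 6
    L := 11
    kp := 8
    inn := [(0, 1), (1, 0), (1, 2), (2, 1), (2, 3), (2, 5), (3, 2), (3, 4), (3, 5), (4, 3), (5, 2), (5,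
      3)]
    mix := [(0, 0), (0, 1), (0, 2), (1, 0), (1, 2), (1, 3), (1, 4), (2, 2), (2, 3), (2, 5), (3, 5), (3,
      6), (3, 7), (3, 8), (4, 7), (4, 8), (4, 9), (5, 3), (5, 8), (5, 10)]
    cl := [2, 6, 0, 0, 7, 1, 4, 3, 1, 5, 8]
    chq := [(0, 2), (2, 0), (4, 5), (5, 4)]
    rng := [(0, 1), (0, 4), (1, 0), (1, 2), (2, 1), (2, 5), (3, 4), (3, 10), (4, 0), (4, 3), (5, 2),
      (5, 6), (6, 5), (6, 7), (7, 6), (7, 9), (8, 9), (8, 10), (9, 7), (9, 8), (10, 3), (10, 8)]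
    lev := [] }
  links := [[1, 6, 7, 8], [6, 0, 8, 2, 9, 10], [9, 1, 8, 11, 3, 5], [5, 2, 11, 12, 13, 4, 14], [14, 3,
    13, 15], [9, 2, 3, 14, 16]]
  P := {
    a := 6
    N := 17
    nb := [450, 1861, 2858, 30772, 57352, 82444, 1155, 321, 2183, 66598, 578, 4364, 10248, 36888,
      98360, 24592, 16928]
    tri := [(0, 1, 6), (0, 1, 8), (0, 6, 7), (0, 7, 8), (1, 2, 8), (1, 2, 9), (1, 6, 10), (1, 9, 10),
      (2, 3, 5), (2, 3, 11), (2, 5, 9), (2, 8, 11), (3, 4, 13), (3, 4, 14), (3, 5, 14), (3, 11,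
      12), (3, 12, 13), (4, 13, 15), (4, 14, 15), (5, 9, 16), (5, 14, 16)]
    fin := [0, 1, 2, 3, 3, 2, 0, 7, 1, 1, 10, 2, 3, 13, 2, 15, 16]
    chd := [(0, 1), (3, 15)]
    steps := [(0, 6), (1, 8), (1, 9), (2, 5), (2, 11), (2, 14), (3, 4), (3, 12)] }
  rep := [1, 2, 0, 13, 3, 15, 7, 10, 16]

noncomputable def v1327 : Cov.CovD where
  P := 3
  N := 6
  pl := [1, 4, 7, 10]
  lev := [⟨[], [], [(0, 2)], [6], [(0, 2, [0]), (2, 0, [2])]⟩,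
    ⟨[], [(0, 0), (0, 2)], [(0, 0), (0, 2)], [7], [(0, 2, [0]), (2, 0, [2]), (3, 0, [2])]⟩,
    ⟨[(0, 1)], [(0, 0), (1, 0), (1, 1), (1, 2)], [(0, 0), (0, 1)], [], [(2, 0, [2]), (3, 0,
      [2]), (5, 1, [])]⟩,
    ⟨[(1, 2)], [(2, 0), (2, 1), (2, 4)], [(1, 1), (1, 4)], [3], [(5, 1, []), (6, 4, [5]),
      (8, 1, [])]⟩,
    ⟨[(2, 3)], [(3, 1), (3, 4), (3, 5)], [(1, 5)], [3], [(8, 1, []), (9, 5, [4])]⟩,
    ⟨[(1, 2), (2, 3), (3, 4)], [(1, 0), (2, 0), (2, 1), (3, 0), (3, 1), (3, 4), (4, 1)],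
      [(0, 1)], [8], [(3, 0, [2]), (8, 1, [])]⟩]
  Ta := [((2, 1), 0, 6), ((2, 5), 0, 1), ((3, 4), 0, 7), ((3, 10), 0, 8), ((5, 2), 1, 0), ((5,
    6), 1, 4), ((8, 9), 1, 5), ((8, 10), 1, 8)]
  Tb := [((0, 1, 4), 2, 6, 7), ((1, 0, 2), 6, 2, 0), ((2, 1, 5), 0, 6, 1), ((3, 4, 10), 0, 7, 8),
    ((4, 0, 3), 7, 2, 0), ((5, 2, 6), 1, 0, 4), ((6, 5, 7), 4, 1, 3), ((7, 6, 9), 3, 4, 5),
    ((8, 9, 10), 1, 5, 8), ((9, 7, 8), 5, 3, 1), ((10, 3, 8), 8, 0, 1)]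
  Tc := []
  Td := [((0, 2), (2, 1), 6), ((0, 2), (2, 5), 1), ((0, 2), (3, 4), 7), ((0, 2), (3, 10), 8),
    ((2, 0), (0, 1), 6), ((2, 0), (0, 4), 7), ((4, 5), (6, 5), 1), ((4, 5), (6, 7), 3), ((5,
    4), (9, 7), 3), ((5, 4), (9, 8), 1)]
  G := [[0, 0x61aaa8c2de4c66a1cc9e2cca5a6ac1e2663a1cc9e8cc,
    0x11941222c9c42251222cd821222c51238c8e, 0x1211322cd41211322cd8c1211322cd41131222cd8cc,
    0x1211322cd41131222cd4a1231222cd41211322cd8aa], [0, 0,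
    0x115119cccd28115119cccd24115119cccd42e,
    0x115119cccd4115119cccd2c1194115ccc9c115119cccd2cc,
    0x115119cccd4115119cccd8a115119cccd2115119cccd8aa], [0, 0,
    0x1251222cd841231222cd821221922cd48e, 0xc222922cd4225229c2d8c1,
    0x22922c5c28c22522922cd4a1], [0, 0, 0x119ccc51158c4115119cccd28115119cccd82e,
    0xcc5cc9cccd2cc5cc9cccd2c1, 0xcc5cc9cccd2c494cc581cccdca1]]

noncomputable def n1327 : Ent := ⟨e1327, noF, [], [], [(6, 15, [1685356702439545624007900436039642273970977273354372543760005517313, 0]), (7, 15, [1685356702439545624007900436039642273970977273354372543760005521409, 0])]⟩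

def c1327 : PLift (Cov.check n1327.C.D v1327 = true) := ⟨by decide +kernel⟩

def b1327 : PLift (entF (fidx ts) 400 1327 n1327 = true) := ⟨by decide +kernel⟩

theorem g1327 : GoodF (fidx ts) 400 1327 := GoodF.ofV v1327 n1327 c1327.down b1327.down

/-- 467664:1059/1 -/
noncomputable def e1328 : SCfg where
  D := {
    a := 6
    L := 9
    kp := 6
    inn := [(0, 1), (0, 3), (0, 4), (1, 0), (1, 2), (1, 3), (1, 4), (2, 1), (2, 4), (2, 5), (3, 0), (3,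
      1), (4, 0), (4, 1), (4, 2), (5, 2)]
    mix := [(0, 0), (1, 1), (1, 2), (2, 1), (2, 3), (2, 4), (2, 5), (3, 0), (3, 2), (3, 6), (3, 7), (4,
      0), (4, 3), (4, 8), (5, 3), (5, 4), (5, 6)]
    cl := [0, 1, 0, 3, 4, 3, 2, 6, 5]
    chq := [(1, 5), (5, 1)]
    rng := [(0, 7), (0, 8), (1, 2), (1, 5), (2, 1), (2, 6), (3, 6), (3, 8), (4, 5), (4, 6), (5, 1), (5,
      4), (6, 2), (6, 3), (6, 4), (6, 7), (7, 0), (7, 6), (8, 0), (8, 3)]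
    lev := [] }
  links := [[1, 3, 6, 4], [3, 0, 4, 2, 7, 8], [7, 1, 4, 9, 5, 10, 11], [6, 0, 1, 8, 12, 13], [9, 2, 1, 0,
    6, 14], [10, 2, 9, 12]]
  P := {
    a := 6
    N := 15
    nb := [90, 413, 3762, 12611, 16967, 5636, 24601, 2310, 4234, 20532, 6180, 1156, 10024, 4168, 592]
    tri := [(0, 1, 3), (0, 1, 4), (0, 3, 6), (0, 4, 6), (1, 2, 4), (1, 2, 7), (1, 3, 8), (1, 7, 8), (2,
      4, 9), (2, 5, 9), (2, 5, 10), (2, 7, 11), (2, 10, 11), (3, 6, 13), (3, 8, 12), (3, 12, 13),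
      (4, 6, 14), (4, 9, 14), (5, 9, 12), (5, 10, 12)]
    fin := [0, 1, 2, 0, 1, 2, 0, 7, 0, 2, 10, 2, 12, 13, 1]
    chd := [(7, 1)]
    steps := [(0, 3), (0, 6), (0, 8), (1, 4), (1, 14), (2, 5), (2, 9), (2, 11)] }
  rep := [0, 7, 12, 2, 10, 1, 13]

noncomputable def v1328 : Cov.CovD where
  P := 3
  N := 4
  pl := [4, 6, 7]
  lev := [⟨[], [], [], [], [(0, 0, [])]⟩,
    ⟨[], [(0, 0), (0, 1)], [(0, 1)], [], [(1, 1, [5]), (2, 0, [])]⟩,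
    ⟨[(0, 1)], [(1, 0), (1, 1), (1, 3)], [(1, 3), (3, 3)], [4], [(1, 1, [5]), (3, 3, []),
      (5, 3, [])]⟩,
    ⟨[(0, 1), (1, 2)], [(0, 0), (1, 0), (1, 1)], [(0, 0)], [2, 6], [(0, 0, []), (2, 0,
      [])]⟩,
    ⟨[(0, 1), (0, 2), (0, 3), (1, 2), (1, 3)], [(0, 0), (0, 3), (0, 5), (1, 0), (1, 1), (1,
      3), (1, 5), (2, 0), (2, 1), (2, 3), (2, 5), (3, 0)], [(0, 3), (0, 5), (3, 5)], [], [(0,
      0, []), (3, 3, []), (8, 5, [1])]⟩,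
    ⟨[(1, 2), (2, 4)], [(2, 1), (2, 3), (4, 3)], [], [2, 4], [(3, 3, [])]⟩]
  Ta := [((0, 7), 0, 6), ((0, 8), 0, 5), ((2, 1), 0, 1), ((2, 6), 0, 2), ((3, 6), 3, 2), ((3, 8),
    3, 5), ((5, 1), 3, 1), ((5, 4), 3, 4)]
  Tb := [((0, 7, 8), 0, 6, 5), ((1, 2, 5), 1, 0, 3), ((2, 1, 6), 0, 1, 2), ((3, 6, 8), 3, 2, 5),
    ((4, 5, 6), 4, 3, 2), ((5, 1, 4), 3, 1, 4), ((6, 2, 3), 2, 0, 3), ((6, 2, 4), 2, 0, 4),
    ((6, 2, 7), 2, 0, 6), ((6, 3, 4), 2, 3, 4), ((6, 3, 7), 2, 3, 6), ((6, 4, 7), 2, 4, 6),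
    ((7, 0, 6), 6, 0, 2), ((8, 0, 3), 5, 0, 3)]
  Tc := []
  Td := [((1, 5), (1, 2), 0), ((1, 5), (1, 5), 3), ((5, 1), (8, 0), 0), ((5, 1), (8, 3), 3)]
  G := [[0, 0, 0, 0x1212c18282c4242cc94, 0x8282a2222a1212ad48], [0, 0, 0, 0x8282c1212c94242c458,
    0x2292a1282a58282a894], [0, 0x8181c4141c1111ce28, 0xe2e2a184, 0x4242c1212c58282c8c1,
    0x8282a2222a1212ad48], [0, 0x4141c11c1c64114c8a2, 0xc2c2c184, 0x4242c1212c58282c8c1,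
    0x1222a9292a1212ad48]]

noncomputable def n1328 : Ent := ⟨e1328, noF, [], [], []⟩

def c1328 : PLift (Cov.check n1328.C.D v1328 = true) := ⟨by decide +kernel⟩

def b1328 : PLift (entF (fidx ts) 400 1328 n1328 = true) := ⟨by decide +kernel⟩

theorem g1328 : GoodF (fidx ts) 400 1328 := GoodF.ofV v1328 n1328 c1328.down b1328.down

/-- 467664:1059/2 -/
noncomputable def e1329 : SCfg where
  D := {
    a := 6
    L := 9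
    kp := 6
    inn := [(0, 1), (0, 3), (0, 4), (1, 0), (1, 2), (1, 3), (1, 4), (2, 1), (2, 4), (2, 5), (3, 0), (3,
      1), (4, 0), (4, 1), (4, 2), (5, 2)]
    mix := [(0, 0), (1, 1), (1, 2), (2, 1), (2, 3), (2, 4), (2, 5), (3, 0), (3, 2), (3, 6), (3, 7), (4,
      0), (4, 3), (4, 8), (5, 3), (5, 4), (5, 7)]
    cl := [0, 1, 0, 3, 4, 3, 6, 2, 5]
    chq := [(1, 5), (5, 1)]
    rng := [(0, 7), (0, 8), (1, 2), (1, 5), (2, 1), (2, 6), (3, 7), (3, 8), (4, 5), (4, 7), (5, 1), (5,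
      4), (6, 2), (6, 7), (7, 0), (7, 3), (7, 4), (7, 6), (8, 0), (8, 3)]
    lev := [] }
  links := [[1, 3, 6, 4], [3, 0, 4, 2, 7, 8], [7, 1, 4, 9, 5, 10, 11], [6, 0, 1, 8, 12, 13], [9, 2, 1, 0,
    6, 14], [10, 2, 9, 13]]
  P := {
    a := 6
    N := 15
    nb := [90, 413, 3762, 12611, 16967, 9732, 24601, 2310, 4234, 24628, 10276, 1156, 8456, 5736, 592]
    tri := [(0, 1, 3), (0, 1, 4), (0, 3, 6), (0, 4, 6), (1, 2, 4), (1, 2, 7), (1, 3, 8), (1, 7, 8), (2,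
      4, 9), (2, 5, 9), (2, 5, 10), (2, 7, 11), (2, 10, 11), (3, 6, 13), (3, 8, 12), (3, 12, 13),
      (4, 6, 14), (4, 9, 14), (5, 9, 13), (5, 10, 13)]
    fin := [0, 1, 2, 0, 1, 2, 0, 7, 0, 2, 10, 2, 12, 13, 1]
    chd := [(7, 1)]
    steps := [(0, 3), (0, 6), (0, 8), (1, 4), (1, 14), (2, 5), (2, 9), (2, 11)] }
  rep := [0, 7, 13, 2, 10, 1, 12]

noncomputable def v1329 : Cov.CovD where
  P := 3
  N := 4
  pl := [4, 6, 7]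
  lev := [⟨[], [], [], [], [(0, 0, [])]⟩,
    ⟨[], [(0, 0), (0, 1)], [(0, 1)], [], [(1, 1, [5]), (2, 0, [])]⟩,
    ⟨[(0, 1)], [(1, 0), (1, 1), (1, 3)], [(1, 3), (3, 3)], [4], [(1, 1, [5]), (3, 3, []),
      (5, 3, [])]⟩,
    ⟨[(0, 1), (1, 2)], [(0, 0), (1, 0), (1, 1)], [(0, 0)], [2, 6], [(0, 0, []), (2, 0,
      [])]⟩,
    ⟨[(0, 1), (0, 2), (0, 3), (1, 2), (1, 3)], [(0, 0), (0, 3), (0, 5), (1, 0), (1, 1), (1,
      3), (1, 5), (2, 0), (2, 1), (2, 3), (2, 5), (3, 0)], [(0, 3), (0, 5), (3, 5)], [], [(0,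
      0, []), (3, 3, []), (8, 5, [1])]⟩,
    ⟨[(1, 2), (2, 4)], [(2, 1), (2, 3), (4, 3)], [], [2, 4], [(3, 3, [])]⟩]
  Ta := [((0, 7), 0, 2), ((0, 8), 0, 5), ((2, 1), 0, 1), ((2, 6), 0, 6), ((3, 7), 3, 2), ((3, 8),
    3, 5), ((5, 1), 3, 1), ((5, 4), 3, 4)]
  Tb := [((0, 7, 8), 0, 2, 5), ((1, 2, 5), 1, 0, 3), ((2, 1, 6), 0, 1, 6), ((3, 7, 8), 3, 2, 5),
    ((4, 5, 7), 4, 3, 2), ((5, 1, 4), 3, 1, 4), ((6, 2, 7), 6, 0, 2), ((7, 0, 3), 2, 0, 3),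
    ((7, 0, 4), 2, 0, 4), ((7, 0, 6), 2, 0, 6), ((7, 3, 4), 2, 3, 4), ((7, 3, 6), 2, 3, 6),
    ((7, 4, 6), 2, 4, 6), ((8, 0, 3), 5, 0, 3)]
  Tc := []
  Td := [((1, 5), (1, 2), 0), ((1, 5), (1, 5), 3), ((5, 1), (8, 0), 0), ((5, 1), (8, 3), 3)]
  G := [[0, 0, 0xe2e2a144, 0x1212c18282c4242cc58, 0x8222a22a2a1212ad48], [0, 0, 0xc2c2a184,
    0x4242c1212c58282c894, 0x1282a11212a9292ac58], [0, 0x8181c4141c1111ce24, 0,
    0x8282c1212c944242c48c, 0x2282aa222a1212ad41], [0, 0x1441c4141c9111ce28, 0,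
    0x4242c48282c1212c9c1, 0x1212a9292a1282ad41]]

noncomputable def n1329 : Ent := ⟨e1329, noF, [], [], []⟩

def c1329 : PLift (Cov.check n1329.C.D v1329 = true) := ⟨by decide +kernel⟩

def b1329 : PLift (entF (fidx ts) 400 1329 n1329 = true) := ⟨by decide +kernel⟩

theorem g1329 : GoodF (fidx ts) 400 1329 := GoodF.ofV v1329 n1329 c1329.down b1329.down

/-- 467664:1059 -/
noncomputable def e1330 : SCfg where
  D := {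
    a := 6
    L := 10
    kp := 7
    inn := [(0, 1), (0, 3), (0, 4), (1, 0), (1, 2), (1, 3), (1, 4), (2, 1), (2, 4), (2, 5), (3, 0), (3,
      1), (4, 0), (4, 1), (4, 2), (5, 2)]
    mix := [(0, 0), (1, 1), (1, 2), (2, 1), (2, 3), (2, 4), (2, 5), (3, 0), (3, 2), (3, 6), (3, 7), (4,
      0), (4, 3), (4, 8), (5, 3), (5, 4), (5, 9)]
    cl := [0, 2, 0, 1, 3, 1, 5, 6, 4, 7]
    chq := [(2, 4), (4, 2)]
    rng := [(0, 7), (0, 8), (1, 2), (1, 5), (2, 1), (2, 6), (3, 8), (3, 9), (4, 5), (4, 9), (5, 1), (5,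
      4), (6, 2), (6, 7), (7, 0), (7, 6), (8, 0), (8, 3), (9, 3), (9, 4)]
    lev := [] }
  links := [[1, 3, 6, 4], [3, 0, 4, 2, 7, 8], [7, 1, 4, 9, 5, 10, 11], [6, 0, 1, 8, 12, 13], [9, 2, 1, 0,
    6, 14], [10, 2, 9, 15]]
  P := {
    a := 6
    N := 16
    nb := [90, 413, 3762, 12611, 16967, 34308, 24601, 2310, 4234, 49204, 34852, 1156, 8456, 4168, 592,
      1568]
    tri := [(0, 1, 3), (0, 1, 4), (0, 3, 6), (0, 4, 6), (1, 2, 4), (1, 2, 7), (1, 3, 8), (1, 7, 8), (2,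
      4, 9), (2, 5, 9), (2, 5, 10), (2, 7, 11), (2, 10, 11), (3, 6, 13), (3, 8, 12), (3, 12, 13),
      (4, 6, 14), (4, 9, 14), (5, 9, 15), (5, 10, 15)]
    fin := [0, 1, 2, 0, 1, 2, 0, 7, 0, 2, 10, 2, 12, 13, 1, 15]
    chd := [(7, 1)]
    steps := [(0, 3), (0, 6), (0, 8), (1, 4), (1, 14), (2, 5), (2, 9), (2, 11)] }
  rep := [0, 2, 7, 10, 1, 12, 13, 15]

noncomputable def v1330 : Cov.CovD where
  P := 3
  N := 5
  pl := [4, 6, 7, 9]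
  lev := [⟨[], [], [], [], [(0, 0, [])]⟩,
    ⟨[], [(0, 0), (0, 2)], [(0, 2)], [], [(1, 2, [4]), (2, 0, [])]⟩,
    ⟨[(0, 1)], [(1, 0), (1, 1), (1, 2)], [(1, 1), (1, 2)], [3], [(1, 2, [4]), (3, 1, []),
      (5, 1, [])]⟩,
    ⟨[(0, 1), (1, 2)], [(0, 0), (1, 0), (1, 2)], [(0, 0)], [5, 6], [(0, 0, []), (2, 0,
      [])]⟩,
    ⟨[(0, 1), (0, 2), (0, 3), (1, 2), (1, 3)], [(0, 0), (0, 1), (0, 4), (1, 0), (1, 1), (1,
      2), (1, 4), (2, 0), (2, 1), (2, 2), (2, 4), (3, 0)], [(0, 1), (0, 4), (1, 4)], [], [(0,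
      0, []), (3, 1, []), (8, 4, [2])]⟩,
    ⟨[(1, 2), (2, 4)], [(2, 1), (2, 2), (4, 1)], [], [3, 7], [(3, 1, [])]⟩]
  Ta := [((0, 7), 0, 6), ((0, 8), 0, 4), ((2, 1), 0, 2), ((2, 6), 0, 5), ((3, 8), 1, 4), ((3, 9),
    1, 7), ((5, 1), 1, 2), ((5, 4), 1, 3)]
  Tb := [((0, 7, 8), 0, 6, 4), ((1, 2, 5), 2, 0, 1), ((2, 1, 6), 0, 2, 5), ((3, 8, 9), 1, 4, 7),
    ((4, 5, 9), 3, 1, 7), ((5, 1, 4), 1, 2, 3), ((6, 2, 7), 5, 0, 6), ((7, 0, 6), 6, 0, 5),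
    ((8, 0, 3), 4, 0, 1), ((9, 3, 4), 7, 1, 3)]
  Tc := []
  Td := [((2, 4), (1, 2), 0), ((2, 4), (1, 5), 1), ((4, 2), (8, 0), 0), ((4, 2), (8, 3), 1)]
  G := [[0, 0xa2a2a2e626262ec18, 0, 0, 0x545454e1c4c4c4e892], [0, 0x526212e43212a2e894, 0,
    0x929222ce525252ec14, 0x542424e12474c4e838], [0, 0x626262e4a2a2a2e8c1,
    0x919191e515151ec28, 0, 0xc4c4c4e545454e921], [0, 0x626212e41212a2e8c1,
    0x219121e512151ec28, 0x212121e4212121e8c2, 0x61c434e342464e928]]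

noncomputable def n1330 : Ent := ⟨e1330, noF, [], [], [(15, 12, [360035747228123463809659675990397950106674496442981057563918337, 0]), (15, 13, [360048296834107614573520772494203283988579150297652619082141697, 0])]⟩

def c1330 : PLift (Cov.check n1330.C.D v1330 = true) := ⟨by decide +kernel⟩

def b1330 : PLift (entF (fidx ts) 400 1330 n1330 = true) := ⟨by decide +kernel⟩

theorem g1330 : GoodF (fidx ts) 400 1330 := GoodF.ofV v1330 n1330 c1330.down b1330.down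

/-- 467664:1062/1 -/
noncomputable def e1331 : SCfg where
  D := {
    a := 6
    L := 9
    kp := 6
    inn := [(0, 1), (0, 3), (0, 4), (1, 0), (1, 2), (1, 3), (1, 4), (2, 1), (2, 4), (2, 5), (3, 0), (3,
      1), (4, 0), (4, 1), (4, 2), (5, 2)]
    mix := [(0, 0), (1, 1), (1, 2), (2, 1), (2, 3), (2, 4), (2, 5), (3, 0), (3, 2), (3, 6), (3, 7), (4,
      0), (4, 3), (4, 8), (5, 1), (5, 5), (5, 6)]
    cl := [1, 0, 1, 0, 4, 3, 2, 5, 6]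
    chq := [(0, 3), (3, 0)]
    rng := [(0, 7), (0, 8), (1, 2), (1, 6), (2, 1), (2, 6), (3, 4), (3, 8), (4, 3), (4, 5), (5, 4), (5,
      6), (6, 1), (6, 2), (6, 5), (6, 7), (7, 0), (7, 6), (8, 0), (8, 3)]
    lev := [] }
  links := [[1, 3, 6, 4], [3, 0, 4, 2, 7, 8], [7, 1, 4, 9, 10, 11, 5], [6, 0, 1, 8, 12, 13], [9, 2, 1, 0,
    6, 14], [7, 2, 11, 12]]
  P := {
    a := 6
    N := 15
    nb := [90, 413, 3762, 12611, 16967, 6276, 24601, 4390, 4234, 17428, 2564, 5156, 10664, 4168, 592]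
    tri := [(0, 1, 3), (0, 1, 4), (0, 3, 6), (0, 4, 6), (1, 2, 4), (1, 2, 7), (1, 3, 8), (1, 7, 8), (2,
      4, 9), (2, 5, 7), (2, 5, 11), (2, 9, 10), (2, 10, 11), (3, 6, 13), (3, 8, 12), (3, 12, 13),
      (4, 6, 14), (4, 9, 14), (5, 7, 12), (5, 11, 12)]
    fin := [0, 0, 2, 0, 0, 2, 0, 2, 0, 2, 10, 11, 12, 13, 14]
    chd := [(2, 11)]
    steps := [(0, 1), (0, 3), (0, 4), (0, 6), (0, 8), (2, 5), (2, 9), (2, 7)] }
  rep := [2, 0, 12, 11, 10, 13, 14]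

noncomputable def v1331 : Cov.CovD where
  P := 3
  N := 4
  pl := [4, 6, 7, 8]
  lev := [⟨[], [], [], [], [(0, 1, [])]⟩,
    ⟨[], [(0, 0), (0, 1)], [(0, 1)], [], [(1, 0, [3]), (2, 1, [])]⟩,
    ⟨[(0, 1)], [(1, 0), (1, 1), (1, 3)], [(0, 0), (0, 3)], [4], [(1, 0, [3]), (3, 0, [3]),
      (5, 3, [0])]⟩,
    ⟨[(0, 1), (1, 2)], [(0, 1), (1, 0), (1, 1)], [(1, 1)], [2, 5], [(0, 1, []), (2, 1,
      [])]⟩,
    ⟨[(0, 1), (0, 2), (0, 3), (1, 2), (1, 3)], [(0, 0), (0, 1), (1, 0), (1, 1), (2, 0), (2,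
      1), (2, 3), (3, 1)], [(0, 1)], [6], [(0, 1, []), (3, 0, [3])]⟩,
    ⟨[(1, 2), (2, 4)], [(1, 0), (2, 0), (2, 3)], [(0, 3)], [2], [(1, 0, [3]), (5, 3, [0])]⟩]
  Ta := [((0, 7), 1, 5), ((0, 8), 1, 6), ((1, 2), 0, 1), ((1, 6), 0, 2), ((2, 1), 1, 0), ((2, 6),
    1, 2), ((3, 4), 0, 4), ((3, 8), 0, 6)]
  Tb := [((0, 7, 8), 1, 5, 6), ((1, 2, 6), 0, 1, 2), ((2, 1, 6), 1, 0, 2), ((3, 4, 8), 0, 4, 6),
    ((4, 3, 5), 4, 0, 3), ((5, 4, 6), 3, 4, 2), ((6, 1, 2), 2, 0, 1), ((6, 1, 5), 2, 0, 3),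
    ((6, 1, 7), 2, 0, 5), ((6, 2, 5), 2, 1, 3), ((6, 2, 7), 2, 1, 5), ((6, 5, 7), 2, 3, 5),
    ((7, 0, 6), 5, 1, 2), ((8, 0, 3), 6, 1, 0)]
  Tc := []
  Td := [((0, 3), (1, 2), 1), ((0, 3), (1, 6), 2), ((0, 3), (3, 4), 4), ((0, 3), (3, 8), 6), ((3,
    0), (5, 4), 4), ((3, 0), (5, 6), 2)]
  G := [[0, 0, 0x4141c2121c68181c8a4, 0, 0x81819a1a1921219e48], [0,
    0x88682c44a44acccc8e2844ccc4a25, 0x4141c48181c2121cac2, 0x42425482829c1c19ac4,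
    0xa1a2948181921219ac4], [0, 0, 0, 0, 0x21c22c9238c38c91ac11c9c61], [0, 0, 0,
    0x141811cd28282c4242cc58, 0x82829a212921c22c9e41]]

noncomputable def n1331 : Ent := ⟨e1331, noF, [], [], []⟩

def c1331 : PLift (Cov.check n1331.C.D v1331 = true) := ⟨by decide +kernel⟩

def b1331 : PLift (entF (fidx ts) 400 1331 n1331 = true) := ⟨by decide +kernel⟩

theorem g1331 : GoodF (fidx ts) 400 1331 := GoodF.ofV v1331 n1331 c1331.down b1331.down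

/-- 467664:1062 -/
noncomputable def e1332 : SCfg where
  D := {
    a := 6
    L := 10
    kp := 7
    inn := [(0, 1), (0, 3), (0, 4), (1, 0), (1, 2), (1, 3), (1, 4), (2, 1), (2, 4), (2, 5), (3, 0), (3,
      1), (4, 0), (4, 1), (4, 2), (5, 2)]
    mix := [(0, 0), (1, 1), (1, 2), (2, 1), (2, 3), (2, 4), (2, 5), (3, 0), (3, 2), (3, 6), (3, 7), (4,
      0), (4, 3), (4, 8), (5, 1), (5, 5), (5, 9)]
    cl := [1, 0, 1, 0, 2, 3, 4, 5, 6, 7]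
    chq := [(0, 3), (3, 0)]
    rng := [(0, 7), (0, 8), (1, 2), (1, 9), (2, 1), (2, 6), (3, 4), (3, 8), (4, 3), (4, 5), (5, 4), (5,
      9), (6, 2), (6, 7), (7, 0), (7, 6), (8, 0), (8, 3), (9, 1), (9, 5)]
    lev := [] }
  links := [[1, 3, 6, 4], [3, 0, 4, 2, 7, 8], [7, 1, 4, 9, 10, 11, 5], [6, 0, 1, 8, 12, 13], [9, 2, 1, 0,
    6, 14], [7, 2, 11, 15]]
  P := {
    a := 6
    N := 16
    nb := [90, 413, 3762, 12611, 16967, 34948, 24601, 33062, 4234, 17428, 2564, 33828, 8456, 4168,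
      592, 2208]
    tri := [(0, 1, 3), (0, 1, 4), (0, 3, 6), (0, 4, 6), (1, 2, 4), (1, 2, 7), (1, 3, 8), (1, 7, 8), (2,
      4, 9), (2, 5, 7), (2, 5, 11), (2, 9, 10), (2, 10, 11), (3, 6, 13), (3, 8, 12), (3, 12, 13),
      (4, 6, 14), (4, 9, 14), (5, 7, 15), (5, 11, 15)]
    fin := [0, 0, 2, 0, 0, 2, 0, 2, 0, 2, 10, 11, 12, 13, 14, 15]
    chd := [(2, 11)]
    steps := [(0, 1), (0, 3), (0, 4), (0, 6), (0, 8), (2, 5), (2, 9), (2, 7)] }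
  rep := [2, 0, 10, 11, 12, 13, 14, 15]

noncomputable def v1332 : Cov.CovD where
  P := 3
  N := 5
  pl := [4, 6, 7, 8, 9]
  lev := [⟨[], [], [], [], [(0, 1, [])]⟩,
    ⟨[], [(0, 0), (0, 1)], [(0, 1)], [], [(1, 0, [3]), (2, 1, [])]⟩,
    ⟨[(0, 1)], [(1, 0), (1, 1), (1, 3)], [(0, 0), (0, 3)], [2], [(1, 0, [3]), (3, 0, [3]),
      (5, 3, [0])]⟩,
    ⟨[(0, 1), (1, 2)], [(0, 1), (1, 0), (1, 1)], [(1, 1)], [4, 5], [(0, 1, []), (2, 1,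
      [])]⟩,
    ⟨[(0, 1), (0, 2), (0, 3), (1, 2), (1, 3)], [(0, 0), (0, 1), (1, 0), (1, 1), (2, 0), (2,
      1), (2, 3), (3, 1)], [(0, 1)], [6], [(0, 1, []), (3, 0, [3])]⟩,
    ⟨[(1, 2), (2, 4)], [(1, 0), (2, 0), (2, 3)], [(0, 3)], [7], [(1, 0, [3]), (5, 3, [0])]⟩]
  Ta := [((0, 7), 1, 5), ((0, 8), 1, 6), ((1, 2), 0, 1), ((1, 9), 0, 7), ((2, 1), 1, 0), ((2, 6),
    1, 4), ((3, 4), 0, 2), ((3, 8), 0, 6)]
  Tb := [((0, 7, 8), 1, 5, 6), ((1, 2, 9), 0, 1, 7), ((2, 1, 6), 1, 0, 4), ((3, 4, 8), 0, 2, 6),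
    ((4, 3, 5), 2, 0, 3), ((5, 4, 9), 3, 2, 7), ((6, 2, 7), 4, 1, 5), ((7, 0, 6), 5, 1, 4),
    ((8, 0, 3), 6, 1, 0), ((9, 1, 5), 7, 0, 3)]
  Tc := []
  Td := [((0, 3), (1, 2), 1), ((0, 3), (1, 9), 7), ((0, 3), (3, 4), 2), ((0, 3), (3, 8), 6), ((3,
    0), (5, 4), 2), ((3, 0), (5, 9), 7)]
  G := [[0, 0, 0, 0xa1a1a1d616161dc28, 0x616152c1c1c1d618ac8], [0,
    0x622482282a8eaa62ace66a66a68ece1, 0, 0x626262d4a2a2a2d8c1, 0xc2c1c1d616161da48], [0, 0,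
    0x11c11c11cd11c11c11cdc21, 0x51c1ac3acd9bc61c51cdc21, 0x1446496c91cda11c385ccd688ac1],
    [0, 0, 0x121212d4121212d8c1, 0x126212d4a212a2d8c1, 0x72c298c24688a51411c11cd286]]

noncomputable def n1332 : Ent := ⟨e1332, noF, [], [], [(15, 12, [360035747228123463809659675990397950106674496442981057563930625, 0])]⟩

def c1332 : PLift (Cov.check n1332.C.D v1332 = true) := ⟨by decide +kernel⟩

def b1332 : PLift (entF (fidx ts) 400 1332 n1332 = true) := ⟨by decide +kernel⟩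

theorem g1332 : GoodF (fidx ts) 400 1332 := GoodF.ofV v1332 n1332 c1332.down b1332.down

/-- 467656:1068/1 -/
noncomputable def e1333 : SCfg where
  D := {
    a := 6
    L := 10
    kp := 8
    inn := [(0, 1), (0, 3), (1, 0), (1, 2), (1, 3), (2, 1), (2, 3), (2, 4), (2, 5), (3, 0), (3, 1), (3,
      2), (4, 2), (4, 5), (5, 2), (5, 4)]
    mix := [(0, 0), (0, 1), (1, 0), (1, 2), (1, 3), (2, 2), (2, 4), (2, 5), (3, 1), (3, 4), (3, 6), (4,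
      5), (4, 7), (4, 8), (5, 2), (5, 3), (5, 8), (5, 9)]
    cl := [1, 5, 0, 3, 0, 2, 6, 8, 4, 7]
    chq := [(0, 1), (1, 0), (1, 6), (2, 3), (2, 4), (2, 7), (3, 2), (4, 2), (6, 1), (7, 2)]
    rng := [(0, 1), (0, 3), (1, 0), (1, 6), (2, 3), (3, 0), (3, 2), (3, 9), (4, 5), (4, 6), (5, 4), (5,
      7), (6, 1), (6, 4), (7, 5), (7, 8), (8, 7), (8, 9), (9, 3), (9, 8)]
    lev := [] }
  links := [[1, 6, 7, 3], [6, 0, 3, 2, 8, 9], [8, 1, 3, 10, 11, 4, 5], [10, 2, 1, 0, 7, 12], [5, 2, 11,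
    13, 14], [8, 2, 4, 14, 15, 9]]
  P := {
    a := 6
    N := 16
    nb := [202, 845, 3386, 5255, 26660, 49940, 643, 4169, 550, 33122, 6156, 9236, 1160, 18448, 41008,
      16928]
    tri := [(0, 1, 3), (0, 1, 6), (0, 3, 7), (0, 6, 7), (1, 2, 3), (1, 2, 8), (1, 6, 9), (1, 8, 9), (2,
      3, 10), (2, 4, 5), (2, 4, 11), (2, 5, 8), (2, 10, 11), (3, 7, 12), (3, 10, 12), (4, 5, 14),
      (4, 11, 13), (4, 13, 14), (5, 8, 9), (5, 9, 15), (5, 14, 15)]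
    fin := [0, 0, 2, 0, 4, 4, 0, 7, 2, 9, 2, 4, 12, 13, 14, 15]
    chd := [(0, 2), (0, 12), (4, 14), (4, 15), (9, 4)]
    steps := [(0, 1), (0, 3), (0, 6), (2, 10), (2, 8), (4, 5), (4, 11)] }
  rep := [2, 0, 4, 9, 14, 7, 12, 15, 13]

noncomputable def v1333 : Cov.CovD where
  P := 3
  N := 6
  pl := [1, 7]
  lev := [⟨[], [], [], [5], [(0, 1, [0, 6])]⟩,
    ⟨[], [(0, 0), (0, 1), (0, 3)], [(0, 1), (0, 3), (1, 3)], [], [(0, 1, [0, 6]), (2, 0,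
      [1]), (3, 3, [2])]⟩,
    ⟨[(0, 1)], [(1, 0), (1, 1), (1, 2), (1, 3)], [(0, 0), (0, 2)], [], [(2, 0, [1]), (4, 0,
      [1]), (5, 2, [3, 4, 7])]⟩,
    ⟨[(0, 1), (0, 2), (1, 2)], [(0, 0), (0, 1), (0, 6), (1, 0), (1, 1), (1, 3), (1, 6), (2,
      0), (2, 2), (2, 6)], [(0, 6)], [5], [(4, 0, [1]), (6, 6, [1])]⟩,
    ⟨[(1, 2), (2, 3)], [(2, 0), (2, 2), (2, 4)], [(2, 4)], [8], [(5, 2, [3, 4, 7]), (8, 4,
      [2])]⟩,
    ⟨[(1, 2), (2, 3), (2, 4)], [(1, 0), (1, 3), (2, 0), (2, 2), (2, 3), (2, 4), (2, 7), (4,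
      0), (4, 2), (4, 3), (4, 4), (4, 7)], [(0, 3), (0, 4), (0, 7), (3, 4), (3, 7), (4, 7)],
      [], [(2, 0, [1]), (3, 3, [2]), (8, 4, [2]), (9, 7, [2])]⟩]
  Ta := [((2, 3), 0, 3), ((4, 5), 0, 2), ((4, 6), 0, 6)]
  Tb := [((0, 1, 3), 1, 5, 3), ((1, 0, 6), 5, 1, 6), ((3, 0, 2), 3, 1, 0), ((3, 0, 9), 3, 1, 7),
    ((3, 2, 9), 3, 0, 7), ((4, 5, 6), 0, 2, 6), ((5, 4, 7), 2, 0, 8), ((6, 1, 4), 6, 5, 0),
    ((7, 5, 8), 8, 2, 4), ((8, 7, 9), 4, 8, 7), ((9, 3, 8), 7, 3, 4)]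
  Tc := [(1, 0, 6), (2, 3, 4), (2, 3, 7), (2, 4, 7)]
  Td := [((0, 1), (2, 3), 3), ((0, 1), (4, 5), 2), ((0, 1), (4, 6), 6), ((1, 0), (0, 1), 5), ((1,
    0), (0, 3), 3), ((1, 6), (0, 1), 5), ((1, 6), (0, 3), 3), ((2, 3), (5, 4), 0), ((2, 3),
    (5, 7), 8), ((2, 4), (5, 4), 0), ((2, 4), (5, 7), 8), ((2, 7), (5, 4), 0), ((2, 7), (5,
    7), 8), ((3, 2), (3, 0), 1), ((3, 2), (3, 2), 0), ((3, 2), (3, 9), 7), ((4, 2), (8, 7),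
    8), ((4, 2), (8, 9), 7), ((6, 1), (6, 1), 5), ((6, 1), (6, 4), 0), ((7, 2), (9, 3), 3),
    ((7, 2), (9, 8), 4)]
  G := [[0, 0x22d2f18222d2f142c, 0, 0x222d24222d28c222d14222d18cc,
    0x444b12444b28c443248486a444b12cc], [0, 0x22d2f182d214222d18aa,
    0x18111e6418111ec2c1161166111e18ac11688c111e284d, 0x222d222da41222d222d681c,
    0x444b2444b8a1444b444b681c]]

noncomputable def n1333 : Ent := ⟨e1333, noF, [], [], []⟩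

def c1333 : PLift (Cov.check n1333.C.D v1333 = true) := ⟨by decide +kernel⟩

def b1333 : PLift (entF (fidx ts) 400 1333 n1333 = true) := ⟨by decide +kernel⟩

theorem g1333 : GoodF (fidx ts) 400 1333 := GoodF.ofV v1333 n1333 c1333.down b1333.down

/-- 467656:1068 -/
noncomputable def e1334 : SCfg where
  D := {
    a := 6
    L := 11
    kp := 9
    inn := [(0, 1), (0, 3), (1, 0), (1, 2), (1, 3), (2, 1), (2, 3), (2, 4), (2, 5), (3, 0), (3, 1), (3,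
      2), (4, 2), (4, 5), (5, 2), (5, 4)]
    mix := [(0, 0), (0, 1), (1, 0), (1, 2), (1, 3), (2, 2), (2, 4), (2, 5), (3, 1), (3, 4), (3, 6), (4,
      5), (4, 7), (4, 8), (5, 2), (5, 8), (5, 9), (5, 10)]
    cl := [1, 4, 0, 8, 0, 2, 5, 9, 3, 6, 7]
    chq := [(0, 1), (1, 0), (1, 5), (2, 3), (2, 6), (2, 7), (3, 2), (5, 1), (6, 2), (7, 2)]
    rng := [(0, 1), (0, 3), (1, 0), (1, 6), (2, 3), (2, 10), (3, 0), (3, 2), (4, 5), (4, 6), (5, 4),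
      (5, 7), (6, 1), (6, 4), (7, 5), (7, 8), (8, 7), (8, 9), (9, 8), (9, 10), (10, 2), (10, 9)]
    lev := [] }
  links := [[1, 6, 7, 3], [6, 0, 3, 2, 8, 9], [8, 1, 3, 10, 11, 4, 5], [10, 2, 1, 0, 7, 12], [5, 2, 11,
    13, 14], [8, 2, 4, 14, 15, 16]]
  P := {
    a := 6
    N := 17
    nb := [202, 845, 3386, 5255, 26660, 114964, 643, 4169, 66086, 322, 6156, 9236, 1160, 18448, 41008,
      81952, 33056]
    tri := [(0, 1, 3), (0, 1, 6), (0, 3, 7), (0, 6, 7), (1, 2, 3), (1, 2, 8), (1, 6, 9), (1, 8, 9), (2,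
      3, 10), (2, 4, 5), (2, 4, 11), (2, 5, 8), (2, 10, 11), (3, 7, 12), (3, 10, 12), (4, 5, 14),
      (4, 11, 13), (4, 13, 14), (5, 8, 16), (5, 14, 15), (5, 15, 16)]
    fin := [0, 0, 2, 0, 4, 4, 0, 7, 2, 9, 2, 4, 12, 13, 14, 15, 16]
    chd := [(0, 2), (0, 12), (4, 14), (4, 15), (4, 16)]
    steps := [(0, 1), (0, 3), (0, 6), (2, 10), (2, 8), (4, 5), (4, 11)] }
  rep := [2, 0, 4, 14, 7, 12, 15, 16, 9, 13]

noncomputable def v1334 : Cov.CovD where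
  P := 3
  N := 7
  pl := [1, 3, 7]
  lev := [⟨[], [], [], [4], [(0, 1, [0, 5])]⟩,
    ⟨[], [(0, 0), (0, 1)], [(0, 1)], [8], [(0, 1, [0, 5]), (2, 0, [1])]⟩,
    ⟨[(0, 1)], [(1, 0), (1, 1), (1, 2)], [(0, 0), (0, 2)], [], [(2, 0, [1]), (4, 0, [1]),
      (5, 2, [3, 6, 7])]⟩,
    ⟨[(0, 1), (0, 2), (1, 2)], [(0, 0), (0, 1), (0, 5), (1, 0), (1, 1), (1, 5), (2, 0), (2,
      2), (2, 5)], [(0, 5)], [4], [(4, 0, [1]), (6, 5, [1])]⟩,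
    ⟨[(1, 2), (2, 3)], [(2, 0), (2, 2), (2, 3)], [(2, 3)], [9], [(5, 2, [3, 6, 7]), (8, 3,
      [2])]⟩,
    ⟨[(1, 2), (2, 3), (2, 4)], [(1, 0), (2, 0), (2, 2), (2, 3), (2, 6), (2, 7), (4, 0), (4,
      2), (4, 3), (4, 6), (4, 7)], [(0, 3), (0, 6), (0, 7), (3, 6), (3, 7), (6, 7)], [], [(2,
      0, [1]), (8, 3, [2]), (9, 6, [2]), (10, 7, [2])]⟩]
  Ta := [((2, 3), 0, 8), ((2, 10), 0, 7), ((4, 5), 0, 2), ((4, 6), 0, 5)]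
  Tb := [((0, 1, 3), 1, 4, 8), ((1, 0, 6), 4, 1, 5), ((2, 3, 10), 0, 8, 7), ((3, 0, 2), 8, 1, 0),
    ((4, 5, 6), 0, 2, 5), ((5, 4, 7), 2, 0, 9), ((6, 1, 4), 5, 4, 0), ((7, 5, 8), 9, 2, 3),
    ((8, 7, 9), 3, 9, 6), ((9, 8, 10), 6, 3, 7), ((10, 2, 9), 7, 0, 6)]
  Tc := [(1, 0, 5), (2, 3, 6), (2, 3, 7), (2, 6, 7)]
  Td := [((0, 1), (2, 3), 8), ((0, 1), (2, 10), 7), ((0, 1), (4, 5), 2), ((0, 1), (4, 6), 5),
    ((1, 0), (0, 1), 4), ((1, 0), (0, 3), 8), ((1, 5), (0, 1), 4), ((1, 5), (0, 3), 8), ((2,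
    3), (5, 4), 0), ((2, 3), (5, 7), 9), ((2, 6), (5, 4), 0), ((2, 6), (5, 7), 9), ((2, 7),
    (5, 4), 0), ((2, 7), (5, 7), 9), ((3, 2), (8, 7), 9), ((3, 2), (8, 9), 6), ((5, 1), (6,
    1), 4), ((5, 1), (6, 4), 0), ((6, 2), (9, 8), 3), ((6, 2), (9, 10), 7), ((7, 2), (10, 2),
    0), ((7, 2), (10, 9), 6)]
  G := [[0, 0x222d184222d142222d148e, 0, 0x2422934222d28c2292434222d18cc,
    0x444b12444b28c443248486a444b18cc], [0, 0x222d182222d148222d184e,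
    0x111e24111e211a8cc111e11a111ee144614111e111ee8c9, 0x222d222da41222d222d681c,
    0x444b2444b8a1444b444b681c]]

noncomputable def n1334 : Ent := ⟨e1334, noF, [], [], [(16, 9, [1580044410770988437310138513572361556014072927981731971036236435457, 0])]⟩

def c1334 : PLift (Cov.check n1334.C.D v1334 = true) := ⟨by decide +kernel⟩

def b1334 : PLift (entF (fidx ts) 400 1334 n1334 = true) := ⟨by decide +kernel⟩

theorem g1334 : GoodF (fidx ts) 400 1334 := GoodF.ofV v1334 n1334 c1334.down b1334.down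

/-- 467665:1069/1 -/
noncomputable def e1335 : SCfg where
  D := {
    a := 6
    L := 10
    kp := 7
    inn := [(0, 1), (0, 3), (1, 0), (1, 2), (1, 3), (2, 1), (2, 3), (2, 4), (2, 5), (3, 0), (3, 1), (3,
      2), (4, 2), (4, 5), (5, 2), (5, 4)]
    mix := [(0, 0), (0, 1), (1, 0), (1, 2), (1, 3), (2, 2), (2, 4), (2, 5), (3, 1), (3, 4), (3, 6), (4,
      5), (4, 7), (4, 8), (4, 9), (5, 2), (5, 3), (5, 9)]
    cl := [1, 2, 0, 4, 0, 3, 5, 6, 7, 3]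
    chq := [(0, 1), (1, 0), (1, 5), (5, 1)]
    rng := [(0, 1), (0, 3), (1, 0), (1, 6), (2, 3), (3, 0), (3, 2), (3, 9), (4, 5), (4, 6), (5, 4), (5,
      7), (6, 1), (6, 4), (7, 5), (7, 8), (8, 7), (8, 9), (9, 3), (9, 8)]
    lev := [] }
  links := [[1, 6, 7, 3], [6, 0, 3, 2, 8, 9], [8, 1, 3, 10, 11, 4, 5], [10, 2, 1, 0, 7, 12], [5, 2, 11,
    13, 14, 15], [8, 2, 4, 15, 9]]
  P := {
    a := 6
    N := 16
    nb := [202, 845, 3386, 5255, 59428, 33556, 643, 4169, 550, 33122, 6156, 9236, 1160, 18448, 40976,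
      16944]
    tri := [(0, 1, 3), (0, 1, 6), (0, 3, 7), (0, 6, 7), (1, 2, 3), (1, 2, 8), (1, 6, 9), (1, 8, 9), (2,
      3, 10), (2, 4, 5), (2, 4, 11), (2, 5, 8), (2, 10, 11), (3, 7, 12), (3, 10, 12), (4, 5, 15),
      (4, 11, 13), (4, 13, 14), (4, 14, 15), (5, 8, 9), (5, 9, 15)]
    fin := [0, 0, 2, 0, 4, 2, 0, 7, 2, 9, 2, 4, 12, 13, 14, 4]
    chd := [(0, 2), (0, 12)]
    steps := [(0, 1), (0, 3), (0, 6), (2, 5), (2, 10), (2, 8), (4, 11), (4, 15)] }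
  rep := [2, 0, 7, 4, 9, 12, 13, 14]

noncomputable def v1335 : Cov.CovD where
  P := 3
  N := 5
  pl := [1, 3, 7, 8]
  lev := [⟨[], [], [], [2], [(0, 1, [0, 5])]⟩,
    ⟨[], [(0, 0), (0, 1)], [(0, 1)], [4], [(0, 1, [0, 5]), (2, 0, [1])]⟩,
    ⟨[(0, 1)], [(1, 0), (1, 1), (1, 3)], [(0, 0), (0, 3)], [], [(2, 0, [1]), (4, 0, [1]),
      (5, 3, [])]⟩,
    ⟨[(0, 1), (0, 2), (1, 2)], [(0, 0), (0, 1), (0, 5), (1, 0), (1, 1), (1, 5), (2, 0), (2,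
      3), (2, 5)], [(0, 5)], [2], [(4, 0, [1]), (6, 5, [1])]⟩,
    ⟨[(1, 2), (2, 3)], [(2, 0), (2, 3)], [(3, 3)], [6, 7], [(5, 3, []), (9, 3, [])]⟩,
    ⟨[(1, 2), (2, 3), (2, 4)], [(1, 0), (2, 0), (2, 3), (4, 0), (4, 3)], [(0, 3)], [4],
      [(2, 0, [1]), (9, 3, [])]⟩]
  Ta := [((2, 3), 0, 4), ((4, 5), 0, 3), ((4, 6), 0, 5), ((5, 4), 3, 0), ((5, 7), 3, 6), ((9, 3),
    3, 4), ((9, 8), 3, 7)]
  Tb := [((0, 1, 3), 1, 2, 4), ((1, 0, 6), 2, 1, 5), ((3, 0, 2), 4, 1, 0), ((3, 0, 9), 4, 1, 3),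
    ((3, 2, 9), 4, 0, 3), ((4, 5, 6), 0, 3, 5), ((5, 4, 7), 3, 0, 6), ((6, 1, 4), 5, 2, 0),
    ((7, 5, 8), 6, 3, 7), ((8, 7, 9), 7, 6, 3), ((9, 3, 8), 3, 4, 7)]
  Tc := [(1, 0, 5)]
  Td := [((0, 1), (2, 3), 4), ((0, 1), (4, 5), 3), ((0, 1), (4, 6), 5), ((1, 0), (0, 1), 2), ((1,
    0), (0, 3), 4), ((1, 5), (0, 1), 2), ((1, 5), (0, 3), 4), ((5, 1), (6, 1), 2), ((5, 1),
    (6, 4), 0)]
  G := [[0, 0x8188f144214f18c8, 0x8888f244244f28c4, 0x2828f142244f18c4, 0x2888f244244f28c1], [0,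
    0x141cf12112af1468, 0x8aeaf246426f28c8, 0x8a2af146426f18c4, 0x8aaaf246466f28c1], [0,
    0x4144f121212f1468, 0x644b2a8872c18, 0x2222f4222d283c4c4b84ce18, 0x644b2a8672c18], [0,
    0x111cf12112af1468, 0xe42eeeb2c18, 0x2e34228eeedeecce14, 0x112af241416f28c1]]

noncomputable def n1335 : Ent := ⟨e1335, noF, [], [], []⟩

def c1335 : PLift (Cov.check n1335.C.D v1335 = true) := ⟨by decide +kernel⟩

def b1335 : PLift (entF (fidx ts) 400 1335 n1335 = true) := ⟨by decide +kernel⟩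

theorem g1335 : GoodF (fidx ts) 400 1335 := GoodF.ofV v1335 n1335 c1335.down b1335.down

/-- 467665:1069 -/
noncomputable def e1336 : SCfg where
  D := {
    a := 6
    L := 11
    kp := 8
    inn := [(0, 1), (0, 3), (1, 0), (1, 2), (1, 3), (2, 1), (2, 3), (2, 4), (2, 5), (3, 0), (3, 1), (3,
      2), (4, 2), (4, 5), (5, 2), (5, 4)]
    mix := [(0, 0), (0, 1), (1, 0), (1, 2), (1, 3), (2, 2), (2, 4), (2, 5), (3, 1), (3, 4), (3, 6), (4,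
      5), (4, 7), (4, 8), (4, 9), (5, 2), (5, 9), (5, 10)]
    cl := [1, 2, 0, 5, 0, 3, 4, 6, 7, 3, 8]
    chq := [(0, 1), (1, 0), (1, 4), (4, 1)]
    rng := [(0, 1), (0, 3), (1, 0), (1, 6), (2, 3), (2, 10), (3, 0), (3, 2), (4, 5), (4, 6), (5, 4),
      (5, 7), (6, 1), (6, 4), (7, 5), (7, 8), (8, 7), (8, 9), (9, 8), (9, 10), (10, 2), (10, 9)]
    lev := [] }
  links := [[1, 6, 7, 3], [6, 0, 3, 2, 8, 9], [8, 1, 3, 10, 11, 4, 5], [10, 2, 1, 0, 7, 12], [5, 2, 11,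
    13, 14, 15], [8, 2, 4, 15, 16]]
  P := {
    a := 6
    N := 17
    nb := [202, 845, 3386, 5255, 59428, 98580, 643, 4169, 66086, 322, 6156, 9236, 1160, 18448, 40976,
      81968, 33056]
    tri := [(0, 1, 3), (0, 1, 6), (0, 3, 7), (0, 6, 7), (1, 2, 3), (1, 2, 8), (1, 6, 9), (1, 8, 9), (2,
      3, 10), (2, 4, 5), (2, 4, 11), (2, 5, 8), (2, 10, 11), (3, 7, 12), (3, 10, 12), (4, 5, 15),
      (4, 11, 13), (4, 13, 14), (4, 14, 15), (5, 8, 16), (5, 15, 16)]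
    fin := [0, 0, 2, 0, 4, 2, 0, 7, 2, 9, 2, 4, 12, 13, 14, 4, 16]
    chd := [(0, 2), (0, 12)]
    steps := [(0, 1), (0, 3), (0, 6), (2, 5), (2, 10), (2, 8), (4, 11), (4, 15)] }
  rep := [2, 0, 7, 4, 12, 9, 13, 14, 16]

noncomputable def v1336 : Cov.CovD where
  P := 3
  N := 6
  pl := [1, 3, 7, 8, 10]
  lev := [⟨[], [], [], [2], [(0, 1, [0, 4])]⟩,
    ⟨[], [(0, 0), (0, 1)], [(0, 1)], [5], [(0, 1, [0, 4]), (2, 0, [1])]⟩,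
    ⟨[(0, 1)], [(1, 0), (1, 1), (1, 3)], [(0, 0), (0, 3)], [], [(2, 0, [1]), (4, 0, [1]),
      (5, 3, [])]⟩,
    ⟨[(0, 1), (0, 2), (1, 2)], [(0, 0), (0, 1), (0, 4), (1, 0), (1, 1), (1, 4), (2, 0), (2,
      3), (2, 4)], [(0, 4)], [2], [(4, 0, [1]), (6, 4, [1])]⟩,
    ⟨[(1, 2), (2, 3)], [(2, 0), (2, 3)], [(3, 3)], [6, 7], [(5, 3, []), (9, 3, [])]⟩,
    ⟨[(1, 2), (2, 3), (2, 4)], [(1, 0), (2, 0), (2, 3), (4, 0), (4, 3)], [(0, 3)], [8],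
      [(2, 0, [1]), (9, 3, [])]⟩]
  Ta := [((2, 3), 0, 5), ((2, 10), 0, 8), ((4, 5), 0, 3), ((4, 6), 0, 4), ((5, 4), 3, 0), ((5,
    7), 3, 6), ((9, 8), 3, 7), ((9, 10), 3, 8)]
  Tb := [((0, 1, 3), 1, 2, 5), ((1, 0, 6), 2, 1, 4), ((2, 3, 10), 0, 5, 8), ((3, 0, 2), 5, 1, 0),
    ((4, 5, 6), 0, 3, 4), ((5, 4, 7), 3, 0, 6), ((6, 1, 4), 4, 2, 0), ((7, 5, 8), 6, 3, 7),
    ((8, 7, 9), 7, 6, 3), ((9, 8, 10), 3, 7, 8), ((10, 2, 9), 8, 0, 3)]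
  Tc := [(1, 0, 4)]
  Td := [((0, 1), (2, 3), 5), ((0, 1), (2, 10), 8), ((0, 1), (4, 5), 3), ((0, 1), (4, 6), 4),
    ((1, 0), (0, 1), 2), ((1, 0), (0, 3), 5), ((1, 4), (0, 1), 2), ((1, 4), (0, 3), 5), ((4,
    1), (6, 1), 2), ((4, 1), (6, 4), 0)]
  G := [[0, 0x11c141cb16116b1811c714e4, 0x8224444322a88f24848ce6242f2885885aacc,
    0x2a2d14c4b1662cd18c871ac8, 0x2a2d24c4b16622d18c871ac8], [0, 0x111ef12111ef1868,
    0xeeeb244eeef2a8a8cace4e4c28c, 0xe21eeed16eee71e81ac4, 0xe22eeed16e22eeed1ac8], [0,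
    0x188714112d181871a144b18e8, 0x64ab2a8872c18, 0x6242f42a2d84c4b8887ce14,
    0x644b2a8872c18], [0, 0x111ef12111ef14a8, 0x111ef24111ef28c4, 0xee34228eecefeecce14,
    0x111ef24111ef28c8]]

noncomputable def n1336 : Ent := ⟨e1336, noF, [], [], [(16, 9, [1580044410770988437310138513572361556014072927981731971036236443649, 0])]⟩

def c1336 : PLift (Cov.check n1336.C.D v1336 = true) := ⟨by decide +kernel⟩

def b1336 : PLift (entF (fidx ts) 400 1336 n1336 = true) := ⟨by decide +kernel⟩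

theorem g1336 : GoodF (fidx ts) 400 1336 := GoodF.ofV v1336 n1336 c1336.down b1336.down

/-- 467764:1070 -/
noncomputable def e1337 : SCfg where
  D := {
    a := 6
    L := 10
    kp := 9
    inn := [(0, 1), (0, 3), (1, 0), (1, 2), (1, 3), (2, 1), (2, 3), (2, 4), (2, 5), (3, 0), (3, 1), (3,
      2), (3, 4), (4, 2), (4, 3), (4, 5), (5, 2), (5, 4)]
    mix := [(0, 0), (0, 1), (1, 0), (1, 2), (1, 3), (2, 2), (2, 4), (2, 5), (3, 1), (3, 6), (3, 7), (4,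
      7), (4, 8), (4, 9), (5, 4), (5, 9)]
    cl := [1, 5, 3, 7, 4, 8, 6, 0, 9, 2]
    chq := [(0, 2), (0, 3), (0, 4), (0, 8), (1, 6), (2, 0), (3, 0), (3, 6), (4, 0), (6, 1), (6, 3), (6,
      7), (7, 6), (8, 0)]
    rng := [(0, 1), (0, 3), (1, 0), (1, 6), (2, 3), (2, 5), (3, 0), (3, 2), (4, 5), (4, 9), (5, 2), (5,
      4), (6, 1), (6, 7), (7, 6), (7, 8), (8, 7), (8, 9), (9, 4), (9, 8)]
    lev := [] }
  links := [[1, 6, 7, 3], [6, 0, 3, 2, 8, 9], [8, 1, 3, 4, 5, 10, 11], [4, 2, 1, 0, 7, 12, 13], [5, 2, 3,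
    13, 14, 15], [10, 2, 4, 15]]
  P := {
    a := 6
    N := 16
    nb := [202, 845, 3386, 12439, 57388, 33812, 643, 4169, 2566, 322, 34852, 1284, 8328, 20504, 40976,
      17456]
    tri := [(0, 1, 3), (0, 1, 6), (0, 3, 7), (0, 6, 7), (1, 2, 3), (1, 2, 8), (1, 6, 9), (1, 8, 9), (2,
      3, 4), (2, 4, 5), (2, 5, 10), (2, 8, 11), (2, 10, 11), (3, 4, 13), (3, 7, 12), (3, 12, 13),
      (4, 5, 15), (4, 13, 14), (4, 14, 15), (5, 10, 15)]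
    fin := [0, 1, 2, 1, 2, 2, 0, 7, 8, 9, 10, 11, 1, 2, 14, 15]
    chd := [(0, 1), (2, 15), (8, 1), (8, 2), (9, 1), (10, 2), (11, 2)]
    steps := [(0, 6), (1, 3), (1, 12), (2, 4), (2, 5), (2, 13)] }
  rep := [2, 0, 15, 8, 10, 7, 1, 9, 11, 14]

noncomputable def v1337 : Cov.CovD where
  P := 3
  N := 7
  pl := [1, 8]
  lev := [⟨[], [], [], [5], [(0, 1, [6])]⟩,
    ⟨[], [(0, 1), (0, 3), (0, 7)], [(1, 3), (1, 7), (3, 7)], [], [(0, 1, [6]), (2, 3, [0,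
      6]), (3, 7, [6])]⟩,
    ⟨[(0, 1)], [(1, 1), (1, 3), (1, 4), (1, 7), (1, 8)], [(3, 4), (3, 8), (4, 8)], [], [(2,
      3, [0, 6]), (4, 4, [0]), (5, 8, [0])]⟩,
    ⟨[(0, 1), (0, 2), (1, 2)], [(0, 0), (0, 1), (0, 6), (1, 0), (1, 1), (1, 3), (1, 6), (1,
      7), (2, 0), (2, 3), (2, 4), (2, 6), (2, 8)], [(0, 6)], [5], [(6, 6, [1, 3, 7]), (7, 0,
      [2, 3, 4, 8])]⟩,
    ⟨[(0, 3), (1, 2), (1, 3), (2, 3)], [(2, 0), (2, 2), (2, 3), (2, 4), (2, 8), (3, 0), (3,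
      2), (3, 6)], [(0, 2)], [9], [(7, 0, [2, 3, 4, 8]), (9, 2, [0])]⟩,
    ⟨[(1, 2), (2, 3), (2, 4), (3, 4)], [(2, 2), (2, 3), (2, 4), (2, 8), (4, 0), (4, 2), (4,
      4)], [(2, 4)], [], [(4, 4, [0]), (9, 2, [0])]⟩]
  Ta := []
  Tb := [((0, 1, 3), 1, 5, 7), ((1, 0, 6), 5, 1, 6), ((2, 3, 5), 3, 7, 8), ((3, 0, 2), 7, 1, 3),
    ((4, 5, 9), 4, 8, 2), ((5, 2, 4), 8, 3, 4), ((6, 1, 7), 6, 5, 0), ((7, 6, 8), 0, 6, 9),
    ((8, 7, 9), 9, 0, 2), ((9, 4, 8), 2, 4, 9)]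
  Tc := [(0, 2, 3), (0, 2, 4), (0, 2, 8), (0, 3, 4), (0, 3, 8), (0, 4, 8), (3, 0, 6), (6, 1, 3),
    (6, 1, 7), (6, 3, 7)]
  Td := [((0, 2), (7, 6), 6), ((0, 2), (7, 8), 9), ((0, 3), (7, 6), 6), ((0, 3), (7, 8), 9), ((0,
    4), (7, 6), 6), ((0, 4), (7, 8), 9), ((0, 8), (7, 6), 6), ((0, 8), (7, 8), 9), ((1, 6),
    (0, 1), 5), ((1, 6), (0, 3), 7), ((2, 0), (9, 4), 4), ((2, 0), (9, 8), 9), ((3, 0), (2,
    3), 7), ((3, 0), (2, 5), 8), ((3, 6), (2, 3), 7), ((3, 6), (2, 5), 8), ((4, 0), (4, 5),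
    8), ((4, 0), (4, 9), 2), ((6, 1), (6, 1), 5), ((6, 1), (6, 7), 0), ((6, 3), (6, 1), 5),
    ((6, 3), (6, 7), 0), ((6, 7), (6, 1), 5), ((6, 7), (6, 7), 0), ((7, 6), (3, 0), 1), ((7,
    6), (3, 2), 3), ((8, 0), (5, 2), 3), ((8, 0), (5, 4), 4)]
  G := [[0xa668166681666a41aaa41aacc216cc21ce,
    0x141c9c5cc65c4c8a1181881ae414c8c4631818185cc94ab1411415ccc8c7ec821ccc215cc94c1ee,
    0x66c21cc681a6c21dcaa41ccc219ccc214d,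
    0x181c4c8a9812418c18c4c8af5141414c8c46741481c2c14c8c46f994ccc6118858ccca3cd,
    0x1212181a2a8a9a281812a2a8a9faaa411212aaa411812aaaa45f12222a9a6581832aa9aa51822186dd]]

noncomputable def n1337 : Ent := ⟨e1337, noF, [], [], []⟩

def c1337 : PLift (Cov.check n1337.C.D v1337 = true) := ⟨by decide +kernel⟩

def b1337 : PLift (entF (fidx ts) 400 1337 n1337 = true) := ⟨by decide +kernel⟩

theorem g1337 : GoodF (fidx ts) 400 1337 := GoodF.ofV v1337 n1337 c1337.down b1337.down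

/-- 467647:1071/1 -/
noncomputable def e1338 : SCfg where
  D := {
    a := 6
    L := 10
    kp := 8
    inn := [(0, 1), (0, 5), (1, 0), (1, 2), (1, 5), (2, 1), (2, 3), (2, 4), (2, 5), (3, 2), (3, 4), (4,
      2), (4, 3), (5, 0), (5, 1), (5, 2)]
    mix := [(0, 0), (0, 1), (1, 0), (1, 2), (1, 3), (2, 2), (2, 4), (2, 5), (3, 4), (3, 6), (3, 7), (3,
      8), (4, 5), (4, 8), (5, 1), (5, 4), (5, 6), (5, 9)]
    cl := [2, 0, 1, 6, 0, 5, 3, 7, 4, 8]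
    chq := [(0, 1), (0, 6), (1, 0), (1, 3), (1, 4), (1, 7), (3, 1), (4, 1), (6, 0), (7, 1)]
    rng := [(0, 1), (0, 3), (1, 0), (1, 9), (2, 3), (2, 5), (3, 0), (3, 2), (4, 6), (5, 2), (5, 8), (6,
      4), (6, 7), (6, 9), (7, 6), (7, 8), (8, 5), (8, 7), (9, 1), (9, 6)]
    lev := [] }
  links := [[1, 6, 7, 5], [6, 0, 5, 2, 8, 9], [8, 1, 5, 10, 3, 4, 11], [4, 2, 10, 12, 13, 14], [11, 2, 3,
    14], [10, 2, 1, 0, 7, 15, 12]]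
  P := {
    a := 6
    N := 16
    nb := [226, 869, 3386, 29716, 18444, 38023, 643, 32865, 2566, 322, 4140, 16660, 42024, 20488,
      10264, 4256]
    tri := [(0, 1, 5), (0, 1, 6), (0, 5, 7), (0, 6, 7), (1, 2, 5), (1, 2, 8), (1, 6, 9), (1, 8, 9), (2,
      3, 4), (2, 3, 10), (2, 4, 11), (2, 5, 10), (2, 8, 11), (3, 4, 14), (3, 10, 12), (3, 12, 13),
      (3, 13, 14), (4, 11, 14), (5, 7, 15), (5, 10, 12), (5, 12, 15)]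
    fin := [0, 1, 2, 2, 4, 1, 0, 1, 2, 9, 1, 11, 12, 13, 4, 15]
    chd := [(1, 2), (1, 9), (2, 4), (2, 12), (2, 13)]
    steps := [(0, 6), (1, 5), (1, 7), (1, 10), (2, 3), (2, 8), (4, 14)] }
  rep := [1, 2, 0, 12, 4, 11, 9, 13, 15]

noncomputable def v1338 : Cov.CovD where
  P := 3
  N := 6
  pl := [0, 5, 9]
  lev := [⟨[], [], [], [2], [(1, 0, [1, 6])]⟩,
    ⟨[], [(0, 0), (0, 1), (0, 6)], [(1, 6)], [2], [(2, 1, [0, 3, 4, 7]), (3, 6, [0])]⟩,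
    ⟨[(0, 1)], [(1, 0), (1, 1), (1, 6)], [(0, 1)], [5], [(2, 1, [0, 3, 4, 7]), (4, 0, [1,
      6])]⟩,
    ⟨[(1, 2)], [(2, 0), (2, 1), (2, 3), (2, 4), (2, 7)], [(0, 3), (0, 4), (0, 7), (3, 4),
      (3, 7), (4, 7)], [], [(4, 0, [1, 6]), (6, 3, [1]), (7, 7, [1]), (8, 4, [1])]⟩,
    ⟨[(1, 2), (2, 3)], [(2, 0), (2, 1), (2, 4), (3, 0), (3, 3), (3, 4), (3, 7)], [], [5],
      [(8, 4, [1])]⟩,
    ⟨[(0, 1), (0, 2), (1, 2), (2, 3), (2, 4)], [(0, 0), (0, 3), (1, 0), (1, 1), (1, 3), (1,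
      6), (2, 0), (2, 1), (2, 3), (3, 0), (3, 3)], [(0, 0), (0, 3)], [8], [(1, 0, [1, 6]),
      (4, 0, [1, 6]), (6, 3, [1])]⟩]
  Ta := [((1, 0), 0, 2), ((1, 9), 0, 8), ((4, 6), 0, 3)]
  Tb := [((0, 1, 3), 2, 0, 6), ((1, 0, 9), 0, 2, 8), ((2, 3, 5), 1, 6, 5), ((3, 0, 2), 6, 2, 1),
    ((5, 2, 8), 5, 1, 4), ((6, 4, 7), 3, 0, 7), ((6, 4, 9), 3, 0, 8), ((6, 7, 9), 3, 7, 8),
    ((7, 6, 8), 7, 3, 4), ((8, 5, 7), 4, 5, 7), ((9, 1, 6), 8, 0, 3)]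
  Tc := [(0, 1, 6), (1, 0, 3), (1, 0, 4), (1, 0, 7), (1, 3, 4), (1, 3, 7), (1, 4, 7)]
  Td := [((0, 1), (1, 0), 2), ((0, 1), (1, 9), 8), ((0, 1), (4, 6), 3), ((0, 6), (1, 0), 2), ((0,
    6), (1, 9), 8), ((0, 6), (4, 6), 3), ((1, 0), (2, 3), 6), ((1, 0), (2, 5), 5), ((1, 3),
    (2, 3), 6), ((1, 3), (2, 5), 5), ((1, 4), (2, 3), 6), ((1, 4), (2, 5), 5), ((1, 7), (2,
    3), 6), ((1, 7), (2, 5), 5), ((3, 1), (6, 4), 0), ((3, 1), (6, 7), 7), ((3, 1), (6, 9),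
    8), ((4, 1), (8, 5), 5), ((4, 1), (8, 7), 7), ((6, 0), (3, 0), 2), ((6, 0), (3, 2), 1),
    ((7, 1), (7, 6), 3), ((7, 1), (7, 8), 4)]
  G := [[0, 0x4261ea2e1e4ce1e18, 0x22624862f82a222baeee2d412466262588218aeaad2e4ee258e,
    0x2268227a4e72c1ac3284c44ca1c, 0x6822324a4e7a8884cce18e3281a], [0, 0x642e18a2e184ce1e14,
    0, 0x228a4efa4122648ef68844ca1c, 0x648ef28a4ef284c84cce12]]

noncomputable def n1338 : Ent := ⟨e1338, noF, [], [], []⟩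

def c1338 : PLift (Cov.check n1338.C.D v1338 = true) := ⟨by decide +kernel⟩

def b1338 : PLift (entF (fidx ts) 400 1338 n1338 = true) := ⟨by decide +kernel⟩

theorem g1338 : GoodF (fidx ts) 400 1338 := GoodF.ofV v1338 n1338 c1338.down b1338.down

/-- 467647:1071 -/
noncomputable def e1339 : SCfg where
  D := {
    a := 6
    L := 11
    kp := 9
    inn := [(0, 1), (0, 5), (1, 0), (1, 2), (1, 5), (2, 1), (2, 3), (2, 4), (2, 5), (3, 2), (3, 4), (4,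
      2), (4, 3), (5, 0), (5, 1), (5, 2)]
    mix := [(0, 0), (0, 1), (1, 0), (1, 2), (1, 3), (2, 2), (2, 4), (2, 5), (3, 4), (3, 6), (3, 7), (3,
      8), (4, 5), (4, 8), (5, 1), (5, 4), (5, 9), (5, 10)]
    cl := [2, 0, 1, 5, 0, 4, 6, 7, 3, 8, 9]
    chq := [(0, 1), (0, 5), (1, 0), (1, 3), (1, 6), (1, 7), (3, 1), (5, 0), (6, 1), (7, 1)]
    rng := [(0, 1), (0, 3), (1, 0), (1, 9), (2, 3), (2, 5), (3, 0), (3, 2), (4, 6), (4, 10), (5, 2),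
      (5, 8), (6, 4), (6, 7), (7, 6), (7, 8), (8, 5), (8, 7), (9, 1), (9, 10), (10, 4), (10, 9)]
    lev := [] }
  links := [[1, 6, 7, 5], [6, 0, 5, 2, 8, 9], [8, 1, 5, 10, 3, 4, 11], [4, 2, 10, 12, 13, 14], [11, 2, 3,
    14], [10, 2, 1, 0, 7, 15, 16]]
  P := {
    a := 6
    N := 17
    nb := [226, 869, 3386, 29716, 18444, 99463, 643, 32865, 2566, 322, 69676, 16660, 9224, 20488,
      10264, 65696, 33824]
    tri := [(0, 1, 5), (0, 1, 6), (0, 5, 7), (0, 6, 7), (1, 2, 5), (1, 2, 8), (1, 6, 9), (1, 8, 9), (2,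
      3, 4), (2, 3, 10), (2, 4, 11), (2, 5, 10), (2, 8, 11), (3, 4, 14), (3, 10, 12), (3, 12, 13),
      (3, 13, 14), (4, 11, 14), (5, 7, 15), (5, 10, 16), (5, 15, 16)]
    fin := [0, 1, 2, 2, 4, 1, 0, 1, 2, 9, 1, 11, 12, 13, 4, 15, 16]
    chd := [(1, 2), (1, 9), (2, 4), (2, 12), (2, 13)]
    steps := [(0, 6), (1, 5), (1, 7), (1, 10), (2, 3), (2, 8), (4, 14)] }
  rep := [1, 2, 0, 4, 11, 9, 12, 13, 15, 16]

noncomputable def v1339 : Cov.CovD where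
  P := 3
  N := 7
  pl := [0, 5, 9, 10]
  lev := [⟨[], [], [], [2], [(1, 0, [1, 5])]⟩,
    ⟨[], [(0, 0), (0, 1), (0, 5)], [(1, 5)], [2], [(2, 1, [0, 3, 6, 7]), (3, 5, [0])]⟩,
    ⟨[(0, 1)], [(1, 0), (1, 1), (1, 5)], [(0, 1)], [4], [(2, 1, [0, 3, 6, 7]), (4, 0, [1,
      5])]⟩,
    ⟨[(1, 2)], [(2, 0), (2, 1), (2, 3), (2, 6), (2, 7)], [(0, 3), (0, 6), (0, 7), (3, 6),
      (3, 7), (6, 7)], [], [(4, 0, [1, 5]), (6, 6, [1]), (7, 7, [1]), (8, 3, [1])]⟩,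
    ⟨[(1, 2), (2, 3)], [(2, 0), (2, 1), (2, 3), (3, 0), (3, 3), (3, 6), (3, 7)], [], [4],
      [(8, 3, [1])]⟩,
    ⟨[(0, 1), (0, 2), (1, 2), (2, 3), (2, 4)], [(0, 0), (1, 0), (1, 1), (1, 5), (2, 0), (2,
      1), (3, 0)], [(0, 0)], [8, 9], [(1, 0, [1, 5]), (4, 0, [1, 5])]⟩]
  Ta := [((1, 0), 0, 2), ((1, 9), 0, 8), ((4, 6), 0, 6), ((4, 10), 0, 9)]
  Tb := [((0, 1, 3), 2, 0, 5), ((1, 0, 9), 0, 2, 8), ((2, 3, 5), 1, 5, 4), ((3, 0, 2), 5, 2, 1),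
    ((4, 6, 10), 0, 6, 9), ((5, 2, 8), 4, 1, 3), ((6, 4, 7), 6, 0, 7), ((7, 6, 8), 7, 6, 3),
    ((8, 5, 7), 3, 4, 7), ((9, 1, 10), 8, 0, 9), ((10, 4, 9), 9, 0, 8)]
  Tc := [(0, 1, 5), (1, 0, 3), (1, 0, 6), (1, 0, 7), (1, 3, 6), (1, 3, 7), (1, 6, 7)]
  Td := [((0, 1), (1, 0), 2), ((0, 1), (1, 9), 8), ((0, 1), (4, 6), 6), ((0, 1), (4, 10), 9),
    ((0, 5), (1, 0), 2), ((0, 5), (1, 9), 8), ((0, 5), (4, 6), 6), ((0, 5), (4, 10), 9), ((1,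
    0), (2, 3), 5), ((1, 0), (2, 5), 4), ((1, 3), (2, 3), 5), ((1, 3), (2, 5), 4), ((1, 6),
    (2, 3), 5), ((1, 6), (2, 5), 4), ((1, 7), (2, 3), 5), ((1, 7), (2, 5), 4), ((3, 1), (8,
    5), 4), ((3, 1), (8, 7), 7), ((5, 0), (3, 0), 2), ((5, 0), (3, 2), 1), ((6, 1), (6, 4),
    0), ((6, 1), (6, 7), 7), ((7, 1), (7, 6), 6), ((7, 1), (7, 8), 3)]
  G := [[0, 0x642e18a2e184ce1e14, 0x41242c2c25824232eaad2e4ce2d62c2f288a23a2ee6adce,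
    0x84c2184924584c2164ed2aa52c9c, 0x648ef28a4ef284c84cce12], [0, 0x642e18a2e184ce1e14, 0,
    0x84eb284c44c6182648ef6a42c1c, 0x82648ef6428a4efa8844ce12]]

noncomputable def n1339 : Ent := ⟨e1339, noF, [], [], [(16, 12, [1580044410777118419473445963789405229760683414688298388994429001729, 0])]⟩

def c1339 : PLift (Cov.check n1339.C.D v1339 = true) := ⟨by decide +kernel⟩

def b1339 : PLift (entF (fidx ts) 400 1339 n1339 = true) := ⟨by decide +kernel⟩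

theorem g1339 : GoodF (fidx ts) 400 1339 := GoodF.ofV v1339 n1339 c1339.down b1339.down

/-- 467655:1072/1 -/
noncomputable def e1340 : SCfg where
  D := {
    a := 6
    L := 10
    kp := 8
    inn := [(0, 1), (1, 0), (1, 2), (2, 1), (2, 3), (2, 4), (2, 5), (3, 2), (3, 4), (3, 5), (4, 2), (4,
      3), (5, 2), (5, 3)]
    mix := [(0, 0), (0, 1), (0, 2), (1, 0), (1, 2), (1, 3), (1, 4), (2, 2), (2, 3), (2, 5), (3, 6), (3,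
      7), (3, 8), (4, 5), (4, 8), (4, 9), (5, 1), (5, 2), (5, 6)]
    cl := [3, 2, 0, 0, 7, 1, 4, 6, 5, 8]
    chq := [(0, 3), (1, 2), (1, 4), (1, 5), (1, 6), (2, 1), (3, 0), (4, 1), (5, 1), (6, 1)]
    rng := [(0, 1), (0, 4), (1, 0), (1, 2), (1, 6), (2, 1), (3, 4), (3, 5), (4, 0), (4, 3), (5, 3), (5,
      9), (6, 1), (6, 7), (7, 6), (7, 8), (8, 7), (8, 9), (9, 5), (9, 8)]
    lev := [] }
  links := [[1, 6, 7, 8], [6, 0, 8, 2, 9, 10], [9, 1, 8, 5, 3, 4, 11], [4, 2, 5, 12, 13, 14], [11, 2, 3,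
    14, 15], [12, 3, 2, 8, 7]]
  P := {
    a := 6
    N := 16
    nb := [450, 1861, 2874, 28724, 51212, 4492, 1155, 4449, 167, 3078, 578, 33300, 8360, 20488, 40984,
      18448]
    tri := [(0, 1, 6), (0, 1, 8), (0, 6, 7), (0, 7, 8), (1, 2, 8), (1, 2, 9), (1, 6, 10), (1, 9, 10),
      (2, 3, 4), (2, 3, 5), (2, 4, 11), (2, 5, 8), (2, 9, 11), (3, 4, 14), (3, 5, 12), (3, 12,
      13), (3, 13, 14), (4, 11, 15), (4, 14, 15), (5, 7, 8), (5, 7, 12)]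
    fin := [0, 0, 2, 3, 3, 5, 0, 5, 2, 2, 10, 3, 12, 13, 14, 15]
    chd := [(0, 2), (3, 12), (3, 13), (3, 14), (5, 3)]
    steps := [(0, 1), (0, 6), (2, 8), (2, 9), (3, 4), (3, 11), (5, 7)] }
  rep := [2, 3, 5, 0, 12, 14, 13, 10, 15]

noncomputable def v1340 : Cov.CovD where
  P := 3
  N := 6
  pl := [4, 9]
  lev := [⟨[], [], [(0, 2), (0, 3), (2, 3)], [], [(0, 3, [0]), (1, 2, [1]), (2, 0, [3])]⟩,
    ⟨[], [(0, 0), (0, 2), (0, 3)], [(0, 0), (0, 3)], [7], [(0, 3, [0]), (2, 0, [3]), (3, 0,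
      [3])]⟩,
    ⟨[(0, 1)], [(0, 0), (1, 0), (1, 1), (1, 3)], [(0, 0), (0, 1)], [], [(2, 0, [3]), (3, 0,
      [3]), (5, 1, [2, 4, 5, 6])]⟩,
    ⟨[(1, 2)], [(2, 0), (2, 1), (2, 4), (2, 5), (2, 6)], [(4, 5), (4, 6), (5, 6)], [], [(6,
      4, [1]), (7, 6, [1]), (8, 5, [1])]⟩,
    ⟨[(1, 2), (2, 3)], [(2, 0), (2, 1), (2, 5), (3, 1), (3, 4), (3, 5), (3, 6)], [(1, 5)],
      [8], [(5, 1, [2, 4, 5, 6]), (8, 5, [1])]⟩,
    ⟨[(1, 2), (2, 3), (2, 4), (3, 4)], [(0, 0), (0, 2), (1, 0), (2, 0), (2, 1), (2, 2), (2,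
      4), (3, 0), (3, 2), (3, 4), (3, 5), (3, 6)], [(0, 2), (0, 4), (2, 4)], [], [(1, 2,
      [1]), (2, 0, [3]), (6, 4, [1])]⟩]
  Ta := [((2, 1), 0, 2), ((3, 4), 0, 7), ((3, 5), 0, 1)]
  Tb := [((0, 1, 4), 3, 2, 7), ((1, 0, 2), 2, 3, 0), ((1, 0, 6), 2, 3, 4), ((1, 2, 6), 2, 0, 4),
    ((3, 4, 5), 0, 7, 1), ((4, 0, 3), 7, 3, 0), ((5, 3, 9), 1, 0, 8), ((6, 1, 7), 4, 2, 6),
    ((7, 6, 8), 6, 4, 5), ((8, 7, 9), 5, 6, 8), ((9, 5, 8), 8, 1, 5)]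
  Tc := [(1, 2, 4), (1, 2, 5), (1, 2, 6), (1, 4, 5), (1, 4, 6), (1, 5, 6)]
  Td := [((0, 3), (2, 1), 2), ((0, 3), (3, 4), 7), ((0, 3), (3, 5), 1), ((1, 2), (5, 3), 0), ((1,
    2), (5, 9), 8), ((1, 4), (5, 3), 0), ((1, 4), (5, 9), 8), ((1, 5), (5, 3), 0), ((1, 5),
    (5, 9), 8), ((1, 6), (5, 3), 0), ((1, 6), (5, 9), 8), ((2, 1), (1, 0), 3), ((2, 1), (1,
    2), 0), ((2, 1), (1, 6), 4), ((3, 0), (0, 1), 2), ((3, 0), (0, 4), 7), ((4, 1), (6, 1),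
    2), ((4, 1), (6, 7), 6), ((5, 1), (8, 7), 6), ((5, 1), (8, 9), 8), ((6, 1), (7, 6), 4),
    ((6, 1), (7, 8), 5)]
  G := [[0, 0, 0x22cacd648226ccda84226ccda82e, 0x442c8cd2c24ccd2882c24452c88d2c4ccd2882cce,
    0x222baaad229742222c2aad229f8c2222c2aad229f8222baaad229746a], [0,
    0xccce12ccce12441c8ce1ce1, 0, 0x59cd24595d28c4ccd2882c23,
    0x999d248999d2422222c2aad229f84b]]

noncomputable def n1340 : Ent := ⟨e1340, noF, [], [], []⟩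

def c1340 : PLift (Cov.check n1340.C.D v1340 = true) := ⟨by decide +kernel⟩

def b1340 : PLift (entF (fidx ts) 400 1340 n1340 = true) := ⟨by decide +kernel⟩

theorem g1340 : GoodF (fidx ts) 400 1340 := GoodF.ofV v1340 n1340 c1340.down b1340.down

/-- 467655:1072 -/
noncomputable def e1341 : SCfg where
  D := {
    a := 6
    L := 11
    kp := 9
    inn := [(0, 1), (1, 0), (1, 2), (2, 1), (2, 3), (2, 4), (2, 5), (3, 2), (3, 4), (3, 5), (4, 2), (4,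
      3), (5, 2), (5, 3)]
    mix := [(0, 0), (0, 1), (0, 2), (1, 0), (1, 2), (1, 3), (1, 4), (2, 2), (2, 3), (2, 5), (3, 6), (3,
      7), (3, 8), (4, 5), (4, 8), (4, 9), (5, 2), (5, 6), (5, 10)]
    cl := [2, 7, 0, 0, 8, 1, 3, 9, 4, 5, 6]
    chq := [(0, 2), (1, 3), (1, 6), (2, 0), (3, 1), (3, 4), (3, 5), (4, 3), (5, 3), (6, 1)]
    rng := [(0, 1), (0, 4), (1, 0), (1, 2), (2, 1), (2, 10), (3, 4), (3, 5), (4, 0), (4, 3), (5, 3),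
      (5, 9), (6, 7), (6, 10), (7, 6), (7, 8), (8, 7), (8, 9), (9, 5), (9, 8), (10, 2), (10, 6)]
    lev := [] }
  links := [[1, 6, 7, 8], [6, 0, 8, 2, 9, 10], [9, 1, 8, 5, 3, 4, 11], [4, 2, 5, 12, 13, 14], [11, 2, 3,
    14, 15], [12, 3, 2, 8, 16]]
  P := {
    a := 6
    N := 17
    nb := [450, 1861, 2874, 28724, 51212, 69900, 1155, 321, 65703, 3078, 578, 33300, 73768, 20488,
      40984, 18448, 4384]
    tri := [(0, 1, 6), (0, 1, 8), (0, 6, 7), (0, 7, 8), (1, 2, 8), (1, 2, 9), (1, 6, 10), (1, 9, 10),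
      (2, 3, 4), (2, 3, 5), (2, 4, 11), (2, 5, 8), (2, 9, 11), (3, 4, 14), (3, 5, 12), (3, 12,
      13), (3, 13, 14), (4, 11, 15), (4, 14, 15), (5, 8, 16), (5, 12, 16)]
    fin := [0, 1, 2, 3, 3, 2, 0, 7, 1, 1, 10, 11, 3, 13, 14, 15, 2]
    chd := [(0, 1), (3, 14), (3, 15), (11, 2), (11, 3)]
    steps := [(0, 6), (1, 8), (1, 9), (2, 5), (2, 16), (3, 4), (3, 12)] }
  rep := [1, 11, 0, 3, 14, 15, 2, 7, 10, 13]

noncomputable def v1341 : Cov.CovD where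
  P := 3
  N := 7
  pl := [1, 4, 7]
  lev := [⟨[], [], [(0, 2)], [7], [(0, 2, [0]), (2, 0, [2])]⟩,
    ⟨[], [(0, 0), (0, 2)], [(0, 0), (0, 2)], [8], [(0, 2, [0]), (2, 0, [2]), (3, 0, [2])]⟩,
    ⟨[(0, 1)], [(0, 0), (1, 0), (1, 1), (1, 2)], [(0, 0), (0, 1)], [], [(2, 0, [2]), (3, 0,
      [2]), (5, 1, [3, 6])]⟩,
    ⟨[(1, 2)], [(2, 0), (2, 1), (2, 3), (2, 4)], [(3, 4)], [9], [(6, 3, [1, 4, 5]), (8, 4,
      [3])]⟩,
    ⟨[(1, 2), (2, 3)], [(2, 0), (2, 1), (2, 4), (2, 5), (3, 1), (3, 3), (3, 4), (3, 5)],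
      [(1, 4), (1, 5), (4, 5)], [], [(5, 1, [3, 6]), (8, 4, [3]), (9, 5, [3])]⟩,
    ⟨[(1, 2), (2, 3), (2, 4), (3, 4)], [(0, 0), (1, 0), (2, 0), (2, 1), (2, 3), (2, 6), (3,
      0), (3, 3), (3, 4), (3, 6)], [(0, 3), (0, 6), (3, 6)], [], [(2, 0, [2]), (6, 3, [1, 4,
      5]), (10, 6, [1])]⟩]
  Ta := [((2, 1), 0, 7), ((2, 10), 0, 6), ((3, 4), 0, 8), ((3, 5), 0, 1)]
  Tb := [((0, 1, 4), 2, 7, 8), ((1, 0, 2), 7, 2, 0), ((2, 1, 10), 0, 7, 6), ((3, 4, 5), 0, 8, 1),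
    ((4, 0, 3), 8, 2, 0), ((5, 3, 9), 1, 0, 5), ((6, 7, 10), 3, 9, 6), ((7, 6, 8), 9, 3, 4),
    ((8, 7, 9), 4, 9, 5), ((9, 5, 8), 5, 1, 4), ((10, 2, 6), 6, 0, 3)]
  Tc := [(1, 3, 6), (3, 1, 4), (3, 1, 5), (3, 4, 5)]
  Td := [((0, 2), (2, 1), 7), ((0, 2), (2, 10), 6), ((0, 2), (3, 4), 8), ((0, 2), (3, 5), 1),
    ((1, 3), (5, 3), 0), ((1, 3), (5, 9), 5), ((1, 6), (5, 3), 0), ((1, 6), (5, 9), 5), ((2,
    0), (0, 1), 7), ((2, 0), (0, 4), 8), ((3, 1), (6, 7), 9), ((3, 1), (6, 10), 6), ((3, 4),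
    (6, 7), 9), ((3, 4), (6, 10), 6), ((3, 5), (6, 7), 9), ((3, 5), (6, 10), 6), ((4, 3), (8,
    7), 9), ((4, 3), (8, 9), 5), ((5, 3), (9, 5), 1), ((5, 3), (9, 8), 4), ((6, 1), (10, 2),
    0), ((6, 1), (10, 6), 3)]
  G := [[0, 0, 0x24212d1422cf211b9ac4129116d222d71258c2112d22911ad222df48e,
    0x222d222beaad222df4225222d4ac222dfaa92cc214222d22aeacd222dfc2227222d6e6d222df8cc,
    0x222d222beaad222df4222d222beaad222df4a2254222d28eaed22cfc2296e6d222d7222d8caa], [0,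
    0x11a1461218ac41211a111ee84624eac6aee3ac6e8acee46ace92cd,
    0x225122d116d222df84222da1222db412911c68a22911c64122da1222db4ae,
    0x6652253222d22968c28fc24222d6eed22cf2298cc1,
    0x223245222d286acd28fc222d222beaad222df4a1]]

noncomputable def n1341 : Ent := ⟨e1341, noF, [], [], [(7, 16, [1580044410770988437309982408355971841652082177953823432505694601217, 0])]⟩

def c1341 : PLift (Cov.check n1341.C.D v1341 = true) := ⟨by decide +kernel⟩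

def b1341 : PLift (entF (fidx ts) 400 1341 n1341 = true) := ⟨by decide +kernel⟩

theorem g1341 : GoodF (fidx ts) 400 1341 := GoodF.ofV v1341 n1341 c1341.down b1341.down

/-- 467644:1074/1 -/
noncomputable def e1342 : SCfg where
  D := {
    a := 6
    L := 10
    kp := 7
    inn := [(0, 1), (1, 0), (1, 2), (2, 1), (2, 3), (2, 4), (3, 2), (3, 5), (4, 2), (5, 3)]
    mix := [(0, 0), (0, 1), (0, 2), (1, 0), (1, 2), (1, 3), (1, 4), (2, 2), (2, 3), (2, 5), (2, 6), (3,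
      5), (3, 6), (3, 7), (3, 8), (4, 3), (4, 6), (4, 9), (5, 1), (5, 5), (5, 7)]
    cl := [3, 2, 0, 0, 5, 1, 1, 4, 6, 7]
    chq := [(0, 3), (1, 4), (3, 0), (4, 1)]
    rng := [(0, 1), (0, 4), (1, 0), (1, 2), (1, 5), (1, 7), (2, 1), (2, 5), (3, 4), (3, 9), (4, 0), (4,
      3), (5, 1), (5, 2), (6, 8), (6, 9), (7, 1), (7, 8), (8, 6), (8, 7), (9, 3), (9, 6)]
    lev := [] }
  links := [[1, 6, 7, 8], [6, 0, 8, 2, 9, 10], [9, 1, 8, 11, 3, 12, 4], [12, 2, 11, 5, 13, 14], [9, 2,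
    12, 15], [13, 3, 11, 7]]
  P := {
    a := 6
    N := 16
    nb := [450, 1861, 6938, 30756, 37380, 10376, 1155, 10593, 2183, 33814, 578, 428, 49180, 16552,
      12296, 4624]
    tri := [(0, 1, 6), (0, 1, 8), (0, 6, 7), (0, 7, 8), (1, 2, 8), (1, 2, 9), (1, 6, 10), (1, 9, 10),
      (2, 3, 11), (2, 3, 12), (2, 4, 9), (2, 4, 12), (2, 8, 11), (3, 5, 11), (3, 5, 13), (3, 12,
      14), (3, 13, 14), (4, 9, 15), (4, 12, 15), (5, 7, 11), (5, 7, 13)]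
    fin := [0, 0, 2, 3, 2, 5, 0, 5, 2, 2, 10, 3, 3, 13, 14, 15]
    chd := [(0, 2), (3, 13)]
    steps := [(0, 1), (0, 6), (2, 4), (2, 8), (2, 9), (3, 11), (3, 12), (5, 7)] }
  rep := [2, 3, 5, 0, 13, 10, 14, 15]

noncomputable def v1342 : Cov.CovD where
  P := 3
  N := 5
  pl := [1, 4, 8, 9]
  lev := [⟨[], [], [(0, 3)], [2], [(0, 3, [0]), (2, 0, [3])]⟩,
    ⟨[], [(0, 0), (0, 3)], [(0, 0), (0, 3)], [5], [(0, 3, [0]), (2, 0, [3]), (3, 0, [3])]⟩,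
    ⟨[(0, 1)], [(0, 0), (1, 0), (1, 1), (1, 3)], [(0, 0), (0, 1), (1, 1)], [], [(2, 0,
      [3]), (3, 0, [3]), (5, 1, [4]), (6, 1, [4])]⟩,
    ⟨[(1, 2)], [(2, 0), (2, 1), (2, 4)], [(1, 1), (1, 4)], [6], [(5, 1, [4]), (6, 1, [4]),
      (7, 4, [1])]⟩,
    ⟨[(1, 2), (2, 3)], [(1, 0), (2, 0), (2, 1), (3, 1)], [(0, 1)], [7], [(3, 0, [3]), (6,
      1, [4])]⟩,
    ⟨[(2, 3)], [(2, 1), (3, 1), (3, 4)], [(1, 4)], [2], [(5, 1, [4]), (7, 4, [1])]⟩]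
  Ta := [((2, 1), 0, 2), ((2, 5), 0, 1), ((3, 4), 0, 5), ((3, 9), 0, 7), ((5, 1), 1, 2), ((5, 2),
    1, 0), ((6, 8), 1, 6), ((6, 9), 1, 7)]
  Tb := [((0, 1, 4), 3, 2, 5), ((1, 0, 2), 2, 3, 0), ((1, 0, 5), 2, 3, 1), ((1, 0, 7), 2, 3, 4),
    ((1, 2, 5), 2, 0, 1), ((1, 2, 7), 2, 0, 4), ((1, 5, 7), 2, 1, 4), ((2, 1, 5), 0, 2, 1),
    ((3, 4, 9), 0, 5, 7), ((4, 0, 3), 5, 3, 0), ((5, 1, 2), 1, 2, 0), ((6, 8, 9), 1, 6, 7),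
    ((7, 1, 8), 4, 2, 6), ((8, 6, 7), 6, 1, 4), ((9, 3, 6), 7, 0, 1)]
  Tc := []
  Td := [((0, 3), (2, 1), 2), ((0, 3), (2, 5), 1), ((0, 3), (3, 4), 5), ((0, 3), (3, 9), 7), ((1,
    4), (5, 1), 2), ((1, 4), (5, 2), 0), ((1, 4), (6, 8), 6), ((1, 4), (6, 9), 7), ((3, 0),
    (0, 1), 2), ((3, 0), (0, 4), 5), ((4, 1), (7, 1), 2), ((4, 1), (7, 8), 6)]
  G := [[0, 0x88c44accce244a488acc6aca886446ccce2446cca68868c6c,
    0x82c1948284c424842c258c4248818441c25828cee, 0x819112d441125818ca514212d842481129c6c,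
    0x819112d491481119cc91482119c829212d46a], [0, 0, 0x812161d48614121d842141c1d82e, 0,
    0x812111d4312111d8c21a111d8812111d46a], [0, 0, 0, 0x829212d48524212d8442482129c2d,
    0x829212d48829212d4292482129c4b], [0, 0, 0, 0,
    0x28c32911cd4824488c2811cdc22448242ac11cd888ccb]]

noncomputable def n1342 : Ent := ⟨e1342, noF, [], [], []⟩

def c1342 : PLift (Cov.check n1342.C.D v1342 = true) := ⟨by decide +kernel⟩

def b1342 : PLift (entF (fidx ts) 400 1342 n1342 = true) := ⟨by decide +kernel⟩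

theorem g1342 : GoodF (fidx ts) 400 1342 := GoodF.ofV v1342 n1342 c1342.down b1342.down

/-- 467644:1074 -/
noncomputable def e1343 : SCfg where
  D := {
    a := 6
    L := 11
    kp := 8
    inn := [(0, 1), (1, 0), (1, 2), (2, 1), (2, 3), (2, 4), (3, 2), (3, 5), (4, 2), (5, 3)]
    mix := [(0, 0), (0, 1), (0, 2), (1, 0), (1, 2), (1, 3), (1, 4), (2, 2), (2, 3), (2, 5), (2, 6), (3,
      5), (3, 6), (3, 7), (3, 8), (4, 3), (4, 6), (4, 9), (5, 5), (5, 7), (5, 10)]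
    cl := [2, 6, 0, 0, 7, 1, 1, 3, 4, 8, 5]
    chq := [(0, 2), (2, 0), (4, 5), (5, 4)]
    rng := [(0, 1), (0, 4), (1, 0), (1, 2), (2, 1), (2, 5), (3, 4), (3, 9), (4, 0), (4, 3), (5, 2), (5,
      10), (6, 8), (6, 9), (7, 8), (7, 10), (8, 6), (8, 7), (9, 3), (9, 6), (10, 5), (10, 7)]
    lev := [] }
  links := [[1, 6, 7, 8], [6, 0, 8, 2, 9, 10], [9, 1, 8, 11, 3, 12, 4], [12, 2, 11, 5, 13, 14], [9, 2,
    12, 15], [13, 3, 11, 16]]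
  P := {
    a := 6
    N := 17
    nb := [450, 1861, 6938, 30756, 37380, 75784, 1155, 321, 2183, 33814, 578, 65836, 49180, 81960,
      12296, 4624, 10272]
    tri := [(0, 1, 6), (0, 1, 8), (0, 6, 7), (0, 7, 8), (1, 2, 8), (1, 2, 9), (1, 6, 10), (1, 9, 10),
      (2, 3, 11), (2, 3, 12), (2, 4, 9), (2, 4, 12), (2, 8, 11), (3, 5, 11), (3, 5, 13), (3, 12,
      14), (3, 13, 14), (4, 9, 15), (4, 12, 15), (5, 11, 16), (5, 13, 16)]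
    fin := [0, 1, 2, 3, 1, 3, 0, 7, 1, 1, 10, 2, 2, 13, 14, 15, 3]
    chd := [(0, 1), (14, 3)]
    steps := [(0, 6), (1, 8), (1, 9), (1, 4), (2, 11), (2, 12), (3, 5), (3, 16)] }
  rep := [1, 2, 0, 13, 14, 3, 7, 10, 15]

noncomputable def v1343 : Cov.CovD where
  P := 3
  N := 6
  pl := [1, 4, 7, 9]
  lev := [⟨[], [], [(0, 2)], [6], [(0, 2, [0]), (2, 0, [2])]⟩,
    ⟨[], [(0, 0), (0, 2)], [(0, 0), (0, 2)], [7], [(0, 2, [0]), (2, 0, [2]), (3, 0, [2])]⟩,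
    ⟨[(0, 1)], [(0, 0), (1, 0), (1, 1), (1, 2)], [(0, 0), (0, 1), (1, 1)], [], [(2, 0,
      [2]), (3, 0, [2]), (5, 1, []), (6, 1, [])]⟩,
    ⟨[(1, 2)], [(2, 0), (2, 1), (2, 4)], [(1, 1), (1, 4)], [3], [(5, 1, []), (6, 1, []),
      (8, 4, [5])]⟩,
    ⟨[(1, 2), (2, 3)], [(1, 0), (2, 0), (2, 1), (3, 1)], [(0, 1)], [8], [(3, 0, [2]), (6,
      1, [])]⟩,
    ⟨[(2, 3)], [(2, 1), (3, 1), (3, 4), (3, 5)], [(1, 5)], [3], [(5, 1, []), (10, 5, [4])]⟩]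
  Ta := [((2, 1), 0, 6), ((2, 5), 0, 1), ((3, 4), 0, 7), ((3, 9), 0, 8), ((5, 2), 1, 0), ((5,
    10), 1, 5), ((6, 8), 1, 4), ((6, 9), 1, 8)]
  Tb := [((0, 1, 4), 2, 6, 7), ((1, 0, 2), 6, 2, 0), ((2, 1, 5), 0, 6, 1), ((3, 4, 9), 0, 7, 8),
    ((4, 0, 3), 7, 2, 0), ((5, 2, 10), 1, 0, 5), ((6, 8, 9), 1, 4, 8), ((7, 8, 10), 3, 4, 5),
    ((8, 6, 7), 4, 1, 3), ((9, 3, 6), 8, 0, 1), ((10, 5, 7), 5, 1, 3)]
  Tc := []
  Td := [((0, 2), (2, 1), 6), ((0, 2), (2, 5), 1), ((0, 2), (3, 4), 7), ((0, 2), (3, 9), 8), ((2,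
    0), (0, 1), 6), ((2, 0), (0, 4), 7), ((4, 5), (8, 6), 1), ((4, 5), (8, 7), 3), ((5, 4),
    (10, 5), 1), ((5, 4), (10, 7), 3)]
  G := [[0, 0x66caa6ccce266aaacccce2c666aaaccae4666aacccce8cc, 0x92c15528c45291c2d4291452c19c8e,
    0x5192c1d492c25518cc5192c1d45192c2d8cc, 0x5291c2d45192c1d8a5291c2d45192c1d4aa], [0, 0,
    0xa1215618c46131a1d8221a15518c8e, 0x61a121d43121c1d8c61a121d4213161d8cc,
    0x3121a1d4619121d4a5121a1d4619121d8aa], [0, 0, 0x5191c2d485291c1d8492c15528c2e,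
    0x5292c2d492452c29cc1, 0x5292c2d45292c2d8a1], [0, 0, 0x61a1c42114a211851a1c8a61a121d84e,
    0xa4426c3862cdc3422caacd588cc1, 0x24433c28aacdc2423cc6cd388ca1]]

noncomputable def n1343 : Ent := ⟨e1343, noF, [], [], [(7, 16, [1580044410770988437309982408355971841652082177953823432505694609409, 0])]⟩

def c1343 : PLift (Cov.check n1343.C.D v1343 = true) := ⟨by decide +kernel⟩

def b1343 : PLift (entF (fidx ts) 400 1343 n1343 = true) := ⟨by decide +kernel⟩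

theorem g1343 : GoodF (fidx ts) 400 1343 := GoodF.ofV v1343 n1343 c1343.down b1343.down

/-- 467644:1075/2 -/
noncomputable def e1344 : SCfg where
  D := {
    a := 6
    L := 9
    kp := 6
    inn := [(0, 1), (1, 0), (1, 2), (2, 1), (2, 3), (2, 4), (3, 2), (3, 5), (4, 2), (5, 3)]
    mix := [(0, 0), (0, 1), (0, 2), (1, 0), (1, 2), (1, 3), (1, 4), (2, 2), (2, 3), (2, 5), (2, 6), (3,
      1), (3, 5), (3, 6), (3, 7), (4, 3), (4, 6), (4, 8), (5, 0), (5, 1), (5, 7)]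
    cl := [3, 2, 0, 0, 5, 1, 1, 4, 6]
    chq := [(0, 3), (1, 3), (3, 0), (3, 1)]
    rng := [(0, 1), (0, 4), (0, 7), (1, 0), (1, 2), (1, 5), (2, 1), (2, 5), (3, 4), (3, 8), (4, 0), (4,
      3), (5, 1), (5, 2), (6, 7), (6, 8), (7, 0), (7, 6), (8, 3), (8, 6)]
    lev := [] }
  links := [[1, 6, 7, 8], [6, 0, 8, 2, 9, 10], [9, 1, 8, 11, 3, 12, 4], [12, 2, 11, 7, 5, 13], [9, 2, 12,
    14], [13, 3, 7, 6]]
  P := {
    a := 6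
    N := 15
    nb := [450, 1861, 6938, 14500, 20996, 8392, 9379, 2409, 2183, 17430, 578, 396, 24604, 4200, 4624]
    tri := [(0, 1, 6), (0, 1, 8), (0, 6, 7), (0, 7, 8), (1, 2, 8), (1, 2, 9), (1, 6, 10), (1, 9, 10),
      (2, 3, 11), (2, 3, 12), (2, 4, 9), (2, 4, 12), (2, 8, 11), (3, 5, 7), (3, 5, 13), (3, 7,
      11), (3, 12, 13), (4, 9, 14), (4, 12, 14), (5, 6, 7), (5, 6, 13)]
    fin := [0, 0, 2, 3, 2, 0, 0, 7, 2, 2, 10, 3, 3, 13, 14]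
    chd := [(0, 2), (0, 3)]
    steps := [(0, 1), (0, 6), (0, 5), (2, 4), (2, 8), (2, 9), (3, 11), (3, 12)] }
  rep := [2, 3, 7, 0, 13, 10, 14]

noncomputable def v1344 : Cov.CovD where
  P := 3
  N := 4
  pl := [1, 4, 7, 8]
  lev := [⟨[], [], [(0, 3)], [2], [(0, 3, [0, 1]), (2, 0, [3])]⟩,
    ⟨[], [(0, 0), (0, 3)], [(0, 0), (0, 3)], [5], [(0, 3, [0, 1]), (2, 0, [3]), (3, 0,
      [3])]⟩,
    ⟨[(0, 1)], [(0, 0), (1, 0), (1, 1), (1, 3)], [(0, 0), (0, 1), (1, 1)], [], [(2, 0,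
      [3]), (3, 0, [3]), (5, 1, [3]), (6, 1, [3])]⟩,
    ⟨[(1, 2)], [(2, 0), (2, 1)], [(1, 1)], [2, 4], [(5, 1, [3]), (6, 1, [3])]⟩,
    ⟨[(1, 2), (2, 3)], [(1, 0), (2, 0), (2, 1), (3, 1)], [(0, 1)], [6], [(3, 0, [3]), (6,
      1, [3])]⟩,
    ⟨[(2, 3)], [(0, 3), (1, 3), (3, 1), (3, 3)], [], [2, 4], [(0, 3, [0, 1])]⟩]
  Ta := [((2, 1), 0, 2), ((2, 5), 0, 1), ((3, 4), 0, 5), ((3, 8), 0, 6), ((5, 1), 1, 2), ((5, 2),
    1, 0), ((6, 7), 1, 4), ((6, 8), 1, 6)]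
  Tb := [((0, 1, 4), 3, 2, 5), ((0, 1, 7), 3, 2, 4), ((0, 4, 7), 3, 5, 4), ((1, 0, 2), 2, 3, 0),
    ((1, 0, 5), 2, 3, 1), ((1, 2, 5), 2, 0, 1), ((2, 1, 5), 0, 2, 1), ((3, 4, 8), 0, 5, 6),
    ((4, 0, 3), 5, 3, 0), ((5, 1, 2), 1, 2, 0), ((6, 7, 8), 1, 4, 6), ((7, 0, 6), 4, 3, 1),
    ((8, 3, 6), 6, 0, 1)]
  Tc := [(3, 0, 1)]
  Td := [((0, 3), (2, 1), 2), ((0, 3), (2, 5), 1), ((0, 3), (3, 4), 5), ((0, 3), (3, 8), 6), ((1,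
    3), (5, 1), 2), ((1, 3), (5, 2), 0), ((1, 3), (6, 7), 4), ((1, 3), (6, 8), 6), ((3, 0),
    (0, 1), 2), ((3, 0), (0, 4), 5), ((3, 0), (0, 7), 4), ((3, 1), (0, 1), 2), ((3, 1), (0,
    4), 5), ((3, 1), (0, 7), 4)]
  G := [[0, 0x81c11ac481c11ac4a11614ac811c44cc26c, 0x2122c482241c842222c82e,
    0x821194821254a1242c81242c86c, 0x8221948a112942222946a], [0, 0,
    0x2141c844248121cc61a1c4a6, 0, 0x813194a11194312198e2], [0, 0, 0,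
    0x8212c481242c84c212942d, 0x2222948a212942222986a], [0, 0, 0, 0,
    0x88c22c94811c18a3c32c946248288c4b]]

noncomputable def n1344 : Ent := ⟨e1344, noF, [], [], []⟩

def c1344 : PLift (Cov.check n1344.C.D v1344 = true) := ⟨by decide +kernel⟩

def b1344 : PLift (entF (fidx ts) 400 1344 n1344 = true) := ⟨by decide +kernel⟩

theorem g1344 : GoodF (fidx ts) 400 1344 := GoodF.ofV v1344 n1344 c1344.down b1344.down

/-- 467644:1075/1 -/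
noncomputable def e1345 : SCfg where
  D := {
    a := 6
    L := 10
    kp := 7
    inn := [(0, 1), (1, 0), (1, 2), (2, 1), (2, 3), (2, 4), (3, 2), (3, 5), (4, 2), (5, 3)]
    mix := [(0, 0), (0, 1), (0, 2), (1, 0), (1, 2), (1, 3), (1, 4), (2, 2), (2, 3), (2, 5), (2, 6), (3,
      5), (3, 6), (3, 7), (3, 8), (4, 3), (4, 6), (4, 9), (5, 0), (5, 7), (5, 8)]
    cl := [2, 5, 0, 0, 6, 1, 1, 3, 4, 7]
    chq := [(0, 2), (1, 2), (2, 0), (2, 1)]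
    rng := [(0, 1), (0, 4), (0, 7), (0, 8), (1, 0), (1, 2), (2, 1), (2, 5), (3, 4), (3, 9), (4, 0), (4,
      3), (5, 2), (5, 7), (6, 8), (6, 9), (7, 0), (7, 5), (8, 0), (8, 6), (9, 3), (9, 6)]
    lev := [] }
  links := [[1, 6, 7, 8], [6, 0, 8, 2, 9, 10], [9, 1, 8, 11, 3, 12, 4], [12, 2, 11, 13, 5, 14], [9, 2,
    12, 15], [14, 3, 13, 6]]
  P := {
    a := 6
    N := 16
    nb := [450, 1861, 6938, 30756, 37380, 24648, 25763, 321, 2183, 33814, 578, 8460, 49180, 2152,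
      4200, 4624]
    tri := [(0, 1, 6), (0, 1, 8), (0, 6, 7), (0, 7, 8), (1, 2, 8), (1, 2, 9), (1, 6, 10), (1, 9, 10),
      (2, 3, 11), (2, 3, 12), (2, 4, 9), (2, 4, 12), (2, 8, 11), (3, 5, 13), (3, 5, 14), (3, 11,
      13), (3, 12, 14), (4, 9, 15), (4, 12, 15), (5, 6, 13), (5, 6, 14)]
    fin := [0, 0, 2, 3, 2, 0, 0, 7, 2, 2, 10, 3, 3, 13, 14, 15]
    chd := [(0, 2), (0, 3)]
    steps := [(0, 1), (0, 6), (0, 5), (2, 4), (2, 8), (2, 9), (3, 11), (3, 12)] }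
  rep := [2, 3, 0, 13, 14, 7, 10, 15]

noncomputable def v1345 : Cov.CovD where
  P := 3
  N := 5
  pl := [1, 4, 7, 8, 9]
  lev := [⟨[], [], [(0, 2)], [5], [(0, 2, [0, 1]), (2, 0, [2])]⟩,
    ⟨[], [(0, 0), (0, 2)], [(0, 0), (0, 2)], [6], [(0, 2, [0, 1]), (2, 0, [2]), (3, 0,
      [2])]⟩,
    ⟨[(0, 1)], [(0, 0), (1, 0), (1, 1), (1, 2)], [(0, 0), (0, 1), (1, 1)], [], [(2, 0,
      [2]), (3, 0, [2]), (5, 1, [2]), (6, 1, [2])]⟩,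
    ⟨[(1, 2)], [(2, 0), (2, 1)], [(1, 1)], [3, 4], [(5, 1, [2]), (6, 1, [2])]⟩,
    ⟨[(1, 2), (2, 3)], [(1, 0), (2, 0), (2, 1), (3, 1)], [(0, 1)], [7], [(3, 0, [2]), (6,
      1, [2])]⟩,
    ⟨[(2, 3)], [(0, 2), (1, 2), (3, 1), (3, 2)], [], [3, 4], [(0, 2, [0, 1])]⟩]
  Ta := [((2, 1), 0, 5), ((2, 5), 0, 1), ((3, 4), 0, 6), ((3, 9), 0, 7), ((5, 2), 1, 0), ((5, 7),
    1, 3), ((6, 8), 1, 4), ((6, 9), 1, 7)]
  Tb := [((0, 1, 4), 2, 5, 6), ((0, 1, 7), 2, 5, 3), ((0, 1, 8), 2, 5, 4), ((0, 4, 7), 2, 6, 3),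
    ((0, 4, 8), 2, 6, 4), ((0, 7, 8), 2, 3, 4), ((1, 0, 2), 5, 2, 0), ((2, 1, 5), 0, 5, 1),
    ((3, 4, 9), 0, 6, 7), ((4, 0, 3), 6, 2, 0), ((5, 2, 7), 1, 0, 3), ((6, 8, 9), 1, 4, 7),
    ((7, 0, 5), 3, 2, 1), ((8, 0, 6), 4, 2, 1), ((9, 3, 6), 7, 0, 1)]
  Tc := [(2, 0, 1)]
  Td := [((0, 2), (2, 1), 5), ((0, 2), (2, 5), 1), ((0, 2), (3, 4), 6), ((0, 2), (3, 9), 7), ((1,
    2), (5, 2), 0), ((1, 2), (5, 7), 3), ((1, 2), (6, 8), 4), ((1, 2), (6, 9), 7), ((2, 0),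
    (0, 1), 5), ((2, 0), (0, 4), 6), ((2, 0), (0, 7), 3), ((2, 0), (0, 8), 4), ((2, 1), (0,
    1), 5), ((2, 1), (0, 4), 6), ((2, 1), (0, 7), 3), ((2, 1), (0, 8), 4)]
  G := [[0, 0x18c11a116e411641c11ce8c18c11c11ce211644a116e8cc, 0xe2144e1142e2188e,
    0x41481119c242125828c2c, 0x822112d4822112d4a812112d422a111d8aa], [0, 0,
    0xe1184e1142e1148e, 0x41115828c241481119c2c, 0x812111d4812111d4a812111d4812111d4aa], [0,
    0, 0xe1148e2182e2184e, 0x42482129c21, 0x822212d4822212d4a1], [0, 0, 0xe1144e1188e1142e,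
    0x42125828c21, 0x24488c2811cdc22c488c11c9ca1]]

noncomputable def n1345 : Ent := ⟨e1345, noF, [], [], [(7, 13, [385753028440516072301428330182238677962518295842732840412512257, 0])]⟩

def c1345 : PLift (Cov.check n1345.C.D v1345 = true) := ⟨by decide +kernel⟩

def b1345 : PLift (entF (fidx ts) 400 1345 n1345 = true) := ⟨by decide +kernel⟩

theorem g1345 : GoodF (fidx ts) 400 1345 := GoodF.ofV v1345 n1345 c1345.down b1345.down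

/-- 467644:1075/3 -/
noncomputable def e1346 : SCfg where
  D := {
    a := 6
    L := 10
    kp := 7
    inn := [(0, 1), (1, 0), (1, 2), (2, 1), (2, 3), (2, 4), (3, 2), (3, 5), (4, 2), (5, 3)]
    mix := [(0, 0), (0, 1), (0, 2), (1, 0), (1, 2), (1, 3), (1, 4), (2, 2), (2, 3), (2, 5), (2, 6), (3,
      1), (3, 5), (3, 6), (3, 7), (4, 3), (4, 6), (4, 8), (5, 1), (5, 7), (5, 9)]
    cl := [3, 2, 0, 0, 6, 1, 1, 4, 7, 5]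
    chq := [(0, 3), (1, 5), (3, 0), (5, 1)]
    rng := [(0, 1), (0, 4), (1, 0), (1, 2), (1, 5), (1, 9), (2, 1), (2, 5), (3, 4), (3, 8), (4, 0), (4,
      3), (5, 1), (5, 2), (6, 7), (6, 8), (7, 6), (7, 9), (8, 3), (8, 6), (9, 1), (9, 7)]
    lev := [] }
  links := [[1, 6, 7, 8], [6, 0, 8, 2, 9, 10], [9, 1, 8, 11, 3, 12, 4], [12, 2, 11, 7, 5, 13], [9, 2, 12,
    14], [13, 3, 7, 15]]
  P := {
    a := 6
    N := 16
    nb := [450, 1861, 6938, 14500, 20996, 41096, 1155, 35177, 2183, 17430, 578, 396, 24604, 36904,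
      4624, 8352]
    tri := [(0, 1, 6), (0, 1, 8), (0, 6, 7), (0, 7, 8), (1, 2, 8), (1, 2, 9), (1, 6, 10), (1, 9, 10),
      (2, 3, 11), (2, 3, 12), (2, 4, 9), (2, 4, 12), (2, 8, 11), (3, 5, 7), (3, 5, 13), (3, 7,
      11), (3, 12, 13), (4, 9, 14), (4, 12, 14), (5, 7, 15), (5, 13, 15)]
    fin := [0, 0, 2, 3, 2, 3, 0, 7, 2, 2, 10, 3, 3, 13, 14, 15]
    chd := [(0, 2), (3, 15)]
    steps := [(0, 1), (0, 6), (2, 4), (2, 8), (2, 9), (3, 5), (3, 11), (3, 12)] }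
  rep := [2, 3, 7, 0, 13, 15, 10, 14]

noncomputable def v1346 : Cov.CovD where
  P := 3
  N := 5
  pl := [1, 4, 7, 8]
  lev := [⟨[], [], [(0, 3)], [2], [(0, 3, [0]), (2, 0, [3])]⟩,
    ⟨[], [(0, 0), (0, 3)], [(0, 0), (0, 3)], [6], [(0, 3, [0]), (2, 0, [3]), (3, 0, [3])]⟩,
    ⟨[(0, 1)], [(0, 0), (1, 0), (1, 1), (1, 3)], [(0, 0), (0, 1), (1, 1)], [], [(2, 0,
      [3]), (3, 0, [3]), (5, 1, [5]), (6, 1, [5])]⟩,
    ⟨[(1, 2)], [(2, 0), (2, 1)], [(1, 1)], [2, 4], [(5, 1, [5]), (6, 1, [5])]⟩,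
    ⟨[(1, 2), (2, 3)], [(1, 0), (2, 0), (2, 1), (3, 1)], [(0, 1)], [7], [(3, 0, [3]), (6,
      1, [5])]⟩,
    ⟨[(2, 3)], [(3, 1), (3, 5)], [], [2, 4], [(9, 5, [1])]⟩]
  Ta := [((2, 1), 0, 2), ((2, 5), 0, 1), ((3, 4), 0, 6), ((3, 8), 0, 7), ((5, 1), 1, 2), ((5, 2),
    1, 0), ((6, 7), 1, 4), ((6, 8), 1, 7)]
  Tb := [((0, 1, 4), 3, 2, 6), ((1, 0, 2), 2, 3, 0), ((1, 0, 5), 2, 3, 1), ((1, 0, 9), 2, 3, 5),
    ((1, 2, 5), 2, 0, 1), ((1, 2, 9), 2, 0, 5), ((1, 5, 9), 2, 1, 5), ((2, 1, 5), 0, 2, 1),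
    ((3, 4, 8), 0, 6, 7), ((4, 0, 3), 6, 3, 0), ((5, 1, 2), 1, 2, 0), ((6, 7, 8), 1, 4, 7),
    ((7, 6, 9), 4, 1, 5), ((8, 3, 6), 7, 0, 1), ((9, 1, 7), 5, 2, 4)]
  Tc := []
  Td := [((0, 3), (2, 1), 2), ((0, 3), (2, 5), 1), ((0, 3), (3, 4), 6), ((0, 3), (3, 8), 7), ((1,
    5), (5, 1), 2), ((1, 5), (5, 2), 0), ((1, 5), (6, 7), 4), ((1, 5), (6, 8), 7), ((3, 0),
    (0, 1), 2), ((3, 0), (0, 4), 6), ((5, 1), (9, 1), 2), ((5, 1), (9, 7), 4)]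
  G := [[0, 0x11c11ac411611cc8a11611ac211c11cc26c, 0x2121c482221c842221c82e,
    0xc15294514918cac29258c151946c, 0x222194222198c2122942122946a], [0, 0,
    0x61a1c4861a1c8461a1c42e, 0, 0xb1219421b194ca1319421b1986a], [0, 0, 0,
    0xc252948c292584c252942d, 0x222294822229422222944b], [0, 0, 0, 0,
    0xa2c3bc9482bcb2c942242bc9b88c4b]]

noncomputable def n1346 : Ent := ⟨e1346, noF, [], [], [(6, 15, [360035742630636841211993100915356868655746945586763691013177345, 0])]⟩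

def c1346 : PLift (Cov.check n1346.C.D v1346 = true) := ⟨by decide +kernel⟩

def b1346 : PLift (entF (fidx ts) 400 1346 n1346 = true) := ⟨by decide +kernel⟩

theorem g1346 : GoodF (fidx ts) 400 1346 := GoodF.ofV v1346 n1346 c1346.down b1346.down

/-- 467644:1075/4 -/
noncomputable def e1347 : SCfg where
  D := {
    a := 6
    L := 10
    kp := 7
    inn := [(0, 1), (1, 0), (1, 2), (2, 1), (2, 3), (2, 4), (3, 2), (3, 5), (4, 2), (5, 3)]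
    mix := [(0, 0), (0, 1), (0, 2), (1, 0), (1, 2), (1, 3), (1, 4), (2, 2), (2, 3), (2, 5), (2, 6), (3,
      5), (3, 6), (3, 7), (3, 8), (4, 3), (4, 6), (4, 9), (5, 1), (5, 7), (5, 8)]
    cl := [3, 2, 0, 0, 6, 1, 1, 4, 5, 7]
    chq := [(0, 3), (1, 2), (2, 1), (3, 0)]
    rng := [(0, 1), (0, 4), (1, 0), (1, 2), (1, 7), (1, 8), (2, 1), (2, 5), (3, 4), (3, 9), (4, 0), (4,
      3), (5, 2), (5, 7), (6, 8), (6, 9), (7, 1), (7, 5), (8, 1), (8, 6), (9, 3), (9, 6)]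
    lev := [] }
  links := [[1, 6, 7, 8], [6, 0, 8, 2, 9, 10], [9, 1, 8, 11, 3, 12, 4], [12, 2, 11, 13, 5, 14], [9, 2,
    12, 15], [14, 3, 13, 7]]
  P := {
    a := 6
    N := 16
    nb := [450, 1861, 6938, 30756, 37380, 24712, 1155, 24929, 2183, 33814, 578, 8460, 49180, 2216,
      4264, 4624]
    tri := [(0, 1, 6), (0, 1, 8), (0, 6, 7), (0, 7, 8), (1, 2, 8), (1, 2, 9), (1, 6, 10), (1, 9, 10),
      (2, 3, 11), (2, 3, 12), (2, 4, 9), (2, 4, 12), (2, 8, 11), (3, 5, 13), (3, 5, 14), (3, 11,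
      13), (3, 12, 14), (4, 9, 15), (4, 12, 15), (5, 7, 13), (5, 7, 14)]
    fin := [0, 1, 2, 3, 1, 3, 0, 3, 1, 1, 10, 2, 2, 13, 14, 15]
    chd := [(0, 1), (3, 2)]
    steps := [(0, 6), (1, 8), (1, 9), (1, 4), (2, 11), (2, 12), (3, 5), (3, 7)] }
  rep := [1, 2, 3, 0, 13, 14, 10, 15]

noncomputable def v1347 : Cov.CovD where
  P := 3
  N := 5
  pl := [4, 7, 8, 9]
  lev := [⟨[], [], [(0, 2), (0, 3), (2, 3)], [], [(0, 3, [0]), (1, 2, [1]), (2, 0, [3])]⟩,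
    ⟨[], [(0, 0), (0, 2), (0, 3)], [(0, 0), (0, 3)], [6], [(0, 3, [0]), (2, 0, [3]), (3, 0,
      [3])]⟩,
    ⟨[(0, 1)], [(0, 0), (1, 0), (1, 1), (1, 3)], [(0, 0), (0, 1), (1, 1)], [], [(2, 0,
      [3]), (3, 0, [3]), (5, 1, [2]), (6, 1, [2])]⟩,
    ⟨[(1, 2)], [(2, 0), (2, 1)], [(1, 1)], [4, 5], [(5, 1, [2]), (6, 1, [2])]⟩,
    ⟨[(1, 2), (2, 3)], [(1, 0), (2, 0), (2, 1), (3, 1)], [(0, 1)], [7], [(3, 0, [3]), (6,
      1, [2])]⟩,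
    ⟨[(2, 3)], [(0, 2), (3, 1), (3, 2)], [], [4, 5], [(1, 2, [1])]⟩]
  Ta := [((2, 1), 0, 2), ((2, 5), 0, 1), ((3, 4), 0, 6), ((3, 9), 0, 7), ((5, 2), 1, 0), ((5, 7),
    1, 4), ((6, 8), 1, 5), ((6, 9), 1, 7)]
  Tb := [((0, 1, 4), 3, 2, 6), ((1, 0, 2), 2, 3, 0), ((1, 0, 7), 2, 3, 4), ((1, 0, 8), 2, 3, 5),
    ((1, 2, 7), 2, 0, 4), ((1, 2, 8), 2, 0, 5), ((1, 7, 8), 2, 4, 5), ((2, 1, 5), 0, 2, 1),
    ((3, 4, 9), 0, 6, 7), ((4, 0, 3), 6, 3, 0), ((5, 2, 7), 1, 0, 4), ((6, 8, 9), 1, 5, 7),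
    ((7, 1, 5), 4, 2, 1), ((8, 1, 6), 5, 2, 1), ((9, 3, 6), 7, 0, 1)]
  Tc := []
  Td := [((0, 3), (2, 1), 2), ((0, 3), (2, 5), 1), ((0, 3), (3, 4), 6), ((0, 3), (3, 9), 7), ((1,
    2), (5, 2), 0), ((1, 2), (5, 7), 4), ((1, 2), (6, 8), 5), ((1, 2), (6, 9), 7), ((2, 1),
    (1, 0), 3), ((2, 1), (1, 2), 0), ((2, 1), (1, 7), 4), ((2, 1), (1, 8), 5), ((3, 0), (0,
    1), 2), ((3, 0), (0, 4), 6)]
  G := [[0, 0x11c11a116e488a11a11ce4a116146116e811641c11ce86c, 0xe2148e2184e1142e,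
    0x812221d4212212d8a212121d8212221d46c, 0x812111d422125818cc22481119c22a212d86a], [0, 0,
    0xe1148e1184e1182e, 0x212122d4812121d4a222211d8212112d46c,
    0x812111d421115818cc21481119c812111d46a], [0, 0, 0, 0x822212d48222222d84222222d42d,
    0x822212d4822a212d8222a212d84b], [0, 0, 0, 0x222222d48222222d84222212d82d,
    0x88c22911cd4822c488c11c9c22448242ac11cd888ccb]]

noncomputable def n1347 : Ent := ⟨e1347, noF, [], [], []⟩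

def c1347 : PLift (Cov.check n1347.C.D v1347 = true) := ⟨by decide +kernel⟩

def b1347 : PLift (entF (fidx ts) 400 1347 n1347 = true) := ⟨by decide +kernel⟩

theorem g1347 : GoodF (fidx ts) 400 1347 := GoodF.ofV v1347 n1347 c1347.down b1347.down

/-- 467644:1075/5 -/
noncomputable def e1348 : SCfg where
  D := {
    a := 6
    L := 10
    kp := 7
    inn := [(0, 1), (1, 0), (1, 2), (2, 1), (2, 3), (2, 4), (3, 2), (3, 5), (4, 2), (5, 3)]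
    mix := [(0, 0), (0, 1), (0, 2), (1, 0), (1, 2), (1, 3), (1, 4), (2, 2), (2, 3), (2, 5), (2, 6), (3,
      5), (3, 6), (3, 7), (3, 8), (4, 3), (4, 6), (4, 9), (5, 4), (5, 7), (5, 8)]
    cl := [1, 6, 0, 0, 2, 3, 3, 4, 5, 7]
    chq := [(0, 1), (1, 0), (2, 3), (3, 2)]
    rng := [(0, 1), (0, 4), (1, 0), (1, 2), (2, 1), (2, 5), (3, 4), (3, 9), (4, 0), (4, 3), (4, 7), (4,
      8), (5, 2), (5, 7), (6, 8), (6, 9), (7, 4), (7, 5), (8, 4), (8, 6), (9, 3), (9, 6)]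
    lev := [] }
  links := [[1, 6, 7, 8], [6, 0, 8, 2, 9, 10], [9, 1, 8, 11, 3, 12, 4], [12, 2, 11, 13, 5, 14], [9, 2,
    12, 15], [14, 3, 13, 10]]
  P := {
    a := 6
    N := 16
    nb := [450, 1861, 6938, 30756, 37380, 25608, 1155, 321, 2183, 33814, 25186, 8460, 49180, 3112,
      5160, 4624]
    tri := [(0, 1, 6), (0, 1, 8), (0, 6, 7), (0, 7, 8), (1, 2, 8), (1, 2, 9), (1, 6, 10), (1, 9, 10),
      (2, 3, 11), (2, 3, 12), (2, 4, 9), (2, 4, 12), (2, 8, 11), (3, 5, 13), (3, 5, 14), (3, 11,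
      13), (3, 12, 14), (4, 9, 15), (4, 12, 15), (5, 10, 13), (5, 10, 14)]
    fin := [0, 0, 2, 3, 2, 3, 0, 7, 2, 2, 10, 3, 3, 13, 14, 15]
    chd := [(0, 2), (10, 3)]
    steps := [(0, 1), (0, 6), (2, 4), (2, 8), (2, 9), (3, 5), (3, 11), (3, 12)] }
  rep := [2, 0, 10, 3, 13, 14, 7, 15]

noncomputable def v1348 : Cov.CovD where
  P := 3
  N := 5
  pl := [1, 7, 8, 9]
  lev := [⟨[], [], [(0, 1)], [6], [(0, 1, [0]), (2, 0, [1])]⟩,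
    ⟨[], [(0, 0), (0, 1), (0, 2)], [(0, 0), (0, 1), (0, 2), (1, 2)], [], [(0, 1, [0]), (2,
      0, [1]), (3, 0, [1]), (4, 2, [3])]⟩,
    ⟨[(0, 1)], [(0, 0), (1, 0), (1, 1), (1, 2), (1, 3)], [(0, 0), (0, 3), (3, 3)], [], [(2,
      0, [1]), (3, 0, [1]), (5, 3, [2]), (6, 3, [2])]⟩,
    ⟨[(1, 2)], [(2, 0), (2, 3)], [(3, 3)], [4, 5], [(5, 3, [2]), (6, 3, [2])]⟩,
    ⟨[(1, 2), (2, 3)], [(1, 0), (2, 0), (2, 3), (3, 3)], [(0, 3)], [7], [(3, 0, [1]), (6,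
      3, [2])]⟩,
    ⟨[(2, 3)], [(1, 2), (3, 2), (3, 3)], [], [4, 5], [(4, 2, [3])]⟩]
  Ta := [((2, 1), 0, 6), ((2, 5), 0, 3), ((3, 4), 0, 2), ((3, 9), 0, 7), ((5, 2), 3, 0), ((5, 7),
    3, 4), ((6, 8), 3, 5), ((6, 9), 3, 7)]
  Tb := [((0, 1, 4), 1, 6, 2), ((1, 0, 2), 6, 1, 0), ((2, 1, 5), 0, 6, 3), ((3, 4, 9), 0, 2, 7),
    ((4, 0, 3), 2, 1, 0), ((4, 0, 7), 2, 1, 4), ((4, 0, 8), 2, 1, 5), ((4, 3, 7), 2, 0, 4),
    ((4, 3, 8), 2, 0, 5), ((4, 7, 8), 2, 4, 5), ((5, 2, 7), 3, 0, 4), ((6, 8, 9), 3, 5, 7),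
    ((7, 4, 5), 4, 2, 3), ((8, 4, 6), 5, 2, 3), ((9, 3, 6), 7, 0, 3)]
  Tc := []
  Td := [((0, 1), (2, 1), 6), ((0, 1), (2, 5), 3), ((0, 1), (3, 4), 2), ((0, 1), (3, 9), 7), ((1,
    0), (0, 1), 6), ((1, 0), (0, 4), 2), ((2, 3), (4, 0), 1), ((2, 3), (4, 3), 0), ((2, 3),
    (4, 7), 4), ((2, 3), (4, 8), 5), ((3, 2), (5, 2), 0), ((3, 2), (5, 7), 4), ((3, 2), (6,
    8), 5), ((3, 2), (6, 9), 7)]
  G := [[0, 0x214221d814884911fa4224111d8441c118fa4c, 0, 0x11cd228ddc224c,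
    0x8293a2811f845411b6824282138b2811f84119e8c], [0, 0x212221d8141c111f68614221d41c1117a4c,
    0, 0xd1228d1228c, 0x81a111d41c111b6881a12111f414441b68c], [0,
    0x21a112d84c111b6811122a1c44c118be8a, 0xe21e81a81, 0xddc2241, 0x8282a2812f844414b681],
    [0, 0x612111d41c1117a42434112d81c1117a4a, 0xeec1ee61a41, 0xd22d22ddc2e81,
    0x242414788c28a226111ef8484ce81]]

noncomputable def n1348 : Ent := ⟨e1348, noF, [], [], []⟩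

def c1348 : PLift (Cov.check n1348.C.D v1348 = true) := ⟨by decide +kernel⟩

def b1348 : PLift (entF (fidx ts) 400 1348 n1348 = true) := ⟨by decide +kernel⟩

theorem g1348 : GoodF (fidx ts) 400 1348 := GoodF.ofV v1348 n1348 c1348.down b1348.down

/-- 467644:1075 -/
noncomputable def e1349 : SCfg where
  D := {
    a := 6
    L := 11
    kp := 8
    inn := [(0, 1), (1, 0), (1, 2), (2, 1), (2, 3), (2, 4), (3, 2), (3, 5), (4, 2), (5, 3)]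
    mix := [(0, 0), (0, 1), (0, 2), (1, 0), (1, 2), (1, 3), (1, 4), (2, 2), (2, 3), (2, 5), (2, 6), (3,
      5), (3, 6), (3, 7), (3, 8), (4, 3), (4, 6), (4, 9), (5, 7), (5, 8), (5, 10)]
    cl := [2, 6, 0, 0, 7, 1, 1, 3, 4, 8, 5]
    chq := [(0, 2), (1, 5), (2, 0), (5, 1)]
    rng := [(0, 1), (0, 4), (1, 0), (1, 2), (2, 1), (2, 5), (3, 4), (3, 9), (4, 0), (4, 3), (5, 2), (5,
      7), (6, 8), (6, 9), (7, 5), (7, 10), (8, 6), (8, 10), (9, 3), (9, 6), (10, 7), (10, 8)]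
    lev := [] }
  links := [[1, 6, 7, 8], [6, 0, 8, 2, 9, 10], [9, 1, 8, 11, 3, 12, 4], [12, 2, 11, 13, 5, 14], [9, 2,
    12, 15], [14, 3, 13, 16]]
  P := {
    a := 6
    N := 17
    nb := [450, 1861, 6938, 30756, 37380, 90120, 1155, 321, 2183, 33814, 578, 8460, 49180, 67624,
      69672, 4624, 24608]
    tri := [(0, 1, 6), (0, 1, 8), (0, 6, 7), (0, 7, 8), (1, 2, 8), (1, 2, 9), (1, 6, 10), (1, 9, 10),
      (2, 3, 11), (2, 3, 12), (2, 4, 9), (2, 4, 12), (2, 8, 11), (3, 5, 13), (3, 5, 14), (3, 11,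
      13), (3, 12, 14), (4, 9, 15), (4, 12, 15), (5, 13, 16), (5, 14, 16)]
    fin := [0, 0, 2, 3, 2, 3, 0, 7, 2, 2, 10, 3, 3, 13, 14, 15, 16]
    chd := [(0, 2), (3, 16)]
    steps := [(0, 1), (0, 6), (2, 4), (2, 8), (2, 9), (3, 5), (3, 11), (3, 12)] }
  rep := [2, 3, 0, 13, 14, 16, 7, 10, 15]

noncomputable def v1349 : Cov.CovD where
  P := 3
  N := 6
  pl := [1, 4, 7, 8, 9]
  lev := [⟨[], [], [(0, 2)], [6], [(0, 2, [0]), (2, 0, [2])]⟩,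
    ⟨[], [(0, 0), (0, 2)], [(0, 0), (0, 2)], [7], [(0, 2, [0]), (2, 0, [2]), (3, 0, [2])]⟩,
    ⟨[(0, 1)], [(0, 0), (1, 0), (1, 1), (1, 2)], [(0, 0), (0, 1), (1, 1)], [], [(2, 0,
      [2]), (3, 0, [2]), (5, 1, [5]), (6, 1, [5])]⟩,
    ⟨[(1, 2)], [(2, 0), (2, 1)], [(1, 1)], [3, 4], [(5, 1, [5]), (6, 1, [5])]⟩,
    ⟨[(1, 2), (2, 3)], [(1, 0), (2, 0), (2, 1), (3, 1)], [(0, 1)], [8], [(3, 0, [2]), (6,
      1, [5])]⟩,
    ⟨[(2, 3)], [(3, 1), (3, 5)], [], [3, 4], [(10, 5, [1])]⟩]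
  Ta := [((2, 1), 0, 6), ((2, 5), 0, 1), ((3, 4), 0, 7), ((3, 9), 0, 8), ((5, 2), 1, 0), ((5, 7),
    1, 3), ((6, 8), 1, 4), ((6, 9), 1, 8)]
  Tb := [((0, 1, 4), 2, 6, 7), ((1, 0, 2), 6, 2, 0), ((2, 1, 5), 0, 6, 1), ((3, 4, 9), 0, 7, 8),
    ((4, 0, 3), 7, 2, 0), ((5, 2, 7), 1, 0, 3), ((6, 8, 9), 1, 4, 8), ((7, 5, 10), 3, 1, 5),
    ((8, 6, 10), 4, 1, 5), ((9, 3, 6), 8, 0, 1), ((10, 7, 8), 5, 3, 4)]
  Tc := []
  Td := [((0, 2), (2, 1), 6), ((0, 2), (2, 5), 1), ((0, 2), (3, 4), 7), ((0, 2), (3, 9), 8), ((1,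
    5), (5, 2), 0), ((1, 5), (5, 7), 3), ((1, 5), (6, 8), 4), ((1, 5), (6, 9), 8), ((2, 0),
    (0, 1), 6), ((2, 0), (0, 4), 7), ((5, 1), (10, 7), 3), ((5, 1), (10, 8), 4)]
  G := [[0, 0x11c11a11ae4116116116e8c11c11a116e411c11a11ce2cc, 0xe12272d4221e1b2d8461325a28c8e,
    0xe22272d422e2b1d8c61325a28c21e2b2d8cc, 0xe22272d4e12272d4a61315a18c22e1b1d8aa], [0, 0,
    0xe12171d4221e1b1d84e12171d48e, 0xe12171d421e1b1d8c61315a18c21e1b1d8cc,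
    0xe12171d421e1b1d8ae12171d4e12171d4aa], [0, 0, 0xa184613158c21e1b2d82623158a284ce,
    0xe22272d4624a2329cc1, 0x62325a28ce22272d4a1], [0, 0, 0xe12171d42e12171d4821e1b1d84e,
    0x644eac2873cdc246ec3bcda88cc1, 0x644eac2873cdc66c33c5aac8ca1]]

noncomputable def n1349 : Ent := ⟨e1349, noF, [], [], [(6, 16, [1580044410770988437309982408355971841652082177953823432505694621697, 0]), (7, 13, [1685382419725355503238989871268909155780284044704628512909404938241, 0]), (7, 16, [1580044410770988437309982408355971841652082177953823432505694629889, 0]), (16, 10, [1580044410770988437858045522355060435978463990222429564876669337601, 0])]⟩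

def c1349 : PLift (Cov.check n1349.C.D v1349 = true) := ⟨by decide +kernel⟩

def b1349 : PLift (entF (fidx ts) 400 1349 n1349 = true) := ⟨by decide +kernel⟩

theorem g1349 : GoodF (fidx ts) 400 1349 := GoodF.ofV v1349 n1349 c1349.down b1349.down

/-- 467644:1076/2 -/
noncomputable def e1350 : SCfg where
  D := {
    a := 6
    L := 9
    kp := 6
    inn := [(0, 1), (1, 0), (1, 2), (2, 1), (2, 3), (2, 4), (3, 2), (3, 5), (4, 2), (5, 3)]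
    mix := [(0, 0), (0, 1), (0, 2), (1, 0), (1, 2), (1, 3), (1, 4), (2, 2), (2, 3), (2, 5), (2, 6), (3,
      1), (3, 5), (3, 6), (3, 7), (4, 3), (4, 6), (4, 8), (5, 6), (5, 7), (5, 8)]
    cl := [3, 2, 0, 0, 6, 1, 1, 4, 5]
    chq := [(0, 3), (1, 4), (3, 0), (4, 1)]
    rng := [(0, 1), (0, 4), (1, 0), (1, 2), (1, 5), (1, 7), (2, 1), (2, 5), (3, 4), (3, 8), (4, 0), (4,
      3), (5, 1), (5, 2), (6, 8), (7, 1), (7, 8), (8, 3), (8, 6), (8, 7)]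
    lev := [] }
  links := [[1, 6, 7, 8], [6, 0, 8, 2, 9, 10], [9, 1, 8, 11, 3, 12, 4], [12, 2, 11, 7, 13, 5], [9, 2, 12,
    14], [12, 3, 13, 14]]
  P := {
    a := 6
    N := 15
    nb := [450, 1861, 6938, 14500, 20996, 28680, 1155, 10569, 2183, 17430, 578, 396, 16444, 16552,
      12848]
    tri := [(0, 1, 6), (0, 1, 8), (0, 6, 7), (0, 7, 8), (1, 2, 8), (1, 2, 9), (1, 6, 10), (1, 9, 10),
      (2, 3, 11), (2, 3, 12), (2, 4, 9), (2, 4, 12), (2, 8, 11), (3, 5, 12), (3, 5, 13), (3, 7,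
      11), (3, 7, 13), (4, 9, 14), (4, 12, 14), (5, 12, 14), (5, 13, 14)]
    fin := [0, 0, 2, 3, 2, 3, 0, 7, 2, 2, 10, 3, 3, 13, 14]
    chd := [(0, 2), (3, 13)]
    steps := [(0, 1), (0, 6), (2, 4), (2, 8), (2, 9), (3, 5), (3, 11), (3, 12)] }
  rep := [2, 3, 7, 0, 13, 14, 10]

noncomputable def v1350 : Cov.CovD where
  P := 3
  N := 4
  pl := [1, 4, 8]
  lev := [⟨[], [], [(0, 3)], [2], [(0, 3, [0]), (2, 0, [3])]⟩,
    ⟨[], [(0, 0), (0, 3)], [(0, 0), (0, 3)], [6], [(0, 3, [0]), (2, 0, [3]), (3, 0, [3])]⟩,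
    ⟨[(0, 1)], [(0, 0), (1, 0), (1, 1), (1, 3)], [(0, 0), (0, 1), (1, 1)], [], [(2, 0,
      [3]), (3, 0, [3]), (5, 1, [4]), (6, 1, [4])]⟩,
    ⟨[(1, 2)], [(2, 0), (2, 1), (2, 4)], [(1, 1), (1, 4)], [2], [(5, 1, [4]), (6, 1, [4]),
      (7, 4, [1])]⟩,
    ⟨[(1, 2), (2, 3)], [(1, 0), (2, 0), (2, 1), (3, 1)], [(0, 1)], [5], [(3, 0, [3]), (6,
      1, [4])]⟩,
    ⟨[(2, 3)], [(2, 1), (3, 1), (3, 4), (4, 1)], [(1, 4)], [5], [(6, 1, [4]), (7, 4, [1])]⟩]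
  Ta := [((2, 1), 0, 2), ((2, 5), 0, 1), ((3, 4), 0, 6), ((3, 8), 0, 5), ((5, 1), 1, 2), ((5, 2),
    1, 0), ((6, 8), 1, 5)]
  Tb := [((0, 1, 4), 3, 2, 6), ((1, 0, 2), 2, 3, 0), ((1, 0, 5), 2, 3, 1), ((1, 0, 7), 2, 3, 4),
    ((1, 2, 5), 2, 0, 1), ((1, 2, 7), 2, 0, 4), ((1, 5, 7), 2, 1, 4), ((2, 1, 5), 0, 2, 1),
    ((3, 4, 8), 0, 6, 5), ((4, 0, 3), 6, 3, 0), ((5, 1, 2), 1, 2, 0), ((7, 1, 8), 4, 2, 5),
    ((8, 3, 6), 5, 0, 1), ((8, 3, 7), 5, 0, 4), ((8, 6, 7), 5, 1, 4)]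
  Tc := []
  Td := [((0, 3), (2, 1), 2), ((0, 3), (2, 5), 1), ((0, 3), (3, 4), 6), ((0, 3), (3, 8), 5), ((1,
    4), (5, 1), 2), ((1, 4), (5, 2), 0), ((1, 4), (6, 8), 5), ((3, 0), (0, 1), 2), ((3, 0),
    (0, 4), 6), ((4, 1), (7, 1), 2), ((4, 1), (7, 8), 5)]
  G := [[0, 0x81a11ac411612cc8a11621cc811c11ac46c, 0x1212c481211c841221c42e,
    0x211254212198a2121982121c86c, 0x211194211198c3121942111986a], [0, 0,
    0x1111c481111c841111c82e, 0, 0x8491194c11194cc11194c111946a], [0, 0, 0,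
    0x84a52948242812d84c221a582d, 0x84c416948c252942521c28c4b], [0, 0, 0, 0,
    0x85c14c94884c15c9424451c9888c4b]]

noncomputable def n1350 : Ent := ⟨e1350, noF, [], [], []⟩

def c1350 : PLift (Cov.check n1350.C.D v1350 = true) := ⟨by decide +kernel⟩

def b1350 : PLift (entF (fidx ts) 400 1350 n1350 = true) := ⟨by decide +kernel⟩

theorem g1350 : GoodF (fidx ts) 400 1350 := GoodF.ofV v1350 n1350 c1350.down b1350.down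

/-- 467644:1076/1 -/
noncomputable def e1351 : SCfg where
  D := {
    a := 6
    L := 10
    kp := 7
    inn := [(0, 1), (1, 0), (1, 2), (2, 1), (2, 3), (2, 4), (3, 2), (3, 5), (4, 2), (5, 3)]
    mix := [(0, 0), (0, 1), (0, 2), (1, 0), (1, 2), (1, 3), (1, 4), (2, 2), (2, 3), (2, 5), (2, 6), (3,
      1), (3, 5), (3, 6), (3, 7), (4, 3), (4, 6), (4, 8), (5, 6), (5, 7), (5, 9)]
    cl := [3, 2, 0, 0, 6, 1, 1, 4, 7, 5]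
    chq := [(0, 3), (2, 5), (3, 0), (5, 2)]
    rng := [(0, 1), (0, 4), (1, 0), (1, 2), (1, 5), (1, 7), (2, 1), (2, 5), (3, 4), (3, 8), (4, 0), (4,
      3), (5, 1), (5, 2), (6, 8), (6, 9), (7, 1), (7, 9), (8, 3), (8, 6), (9, 6), (9, 7)]
    lev := [] }
  links := [[1, 6, 7, 8], [6, 0, 8, 2, 9, 10], [9, 1, 8, 11, 3, 12, 4], [12, 2, 11, 7, 13, 5], [9, 2, 12,
    14], [12, 3, 13, 15]]
  P := {
    a := 6
    N := 16
    nb := [450, 1861, 6938, 14500, 20996, 45064, 1155, 10569, 2183, 17430, 578, 396, 49212, 32936,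
      4624, 12320]
    tri := [(0, 1, 6), (0, 1, 8), (0, 6, 7), (0, 7, 8), (1, 2, 8), (1, 2, 9), (1, 6, 10), (1, 9, 10),
      (2, 3, 11), (2, 3, 12), (2, 4, 9), (2, 4, 12), (2, 8, 11), (3, 5, 12), (3, 5, 13), (3, 7,
      11), (3, 7, 13), (4, 9, 14), (4, 12, 14), (5, 12, 15), (5, 13, 15)]
    fin := [0, 1, 2, 3, 1, 3, 0, 3, 1, 1, 10, 2, 2, 13, 14, 15]
    chd := [(0, 1), (3, 15)]
    steps := [(0, 6), (1, 8), (1, 9), (1, 4), (2, 11), (2, 12), (3, 5), (3, 7)] }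
  rep := [1, 2, 3, 0, 13, 15, 10, 14]

noncomputable def v1351 : Cov.CovD where
  P := 3
  N := 5
  pl := [4, 7, 8]
  lev := [⟨[], [], [(0, 2), (0, 3), (2, 3)], [], [(0, 3, [0]), (1, 2, [5]), (2, 0, [3])]⟩,
    ⟨[], [(0, 0), (0, 2), (0, 3)], [(0, 0), (0, 3)], [6], [(0, 3, [0]), (2, 0, [3]), (3, 0,
      [3])]⟩,
    ⟨[(0, 1)], [(0, 0), (1, 0), (1, 1), (1, 3)], [(0, 0), (0, 1), (1, 1)], [], [(2, 0,
      [3]), (3, 0, [3]), (5, 1, []), (6, 1, [])]⟩,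
    ⟨[(1, 2)], [(0, 2), (2, 0), (2, 1), (2, 2)], [(1, 1), (1, 2)], [4], [(1, 2, [5]), (5,
      1, []), (6, 1, [])]⟩,
    ⟨[(1, 2), (2, 3)], [(1, 0), (2, 0), (2, 1), (3, 1)], [(0, 1)], [7], [(3, 0, [3]), (6,
      1, [])]⟩,
    ⟨[(2, 3)], [(2, 1), (3, 1), (3, 2), (3, 5), (4, 1)], [(1, 5)], [4], [(6, 1, []), (9, 5,
      [2])]⟩]
  Ta := [((2, 1), 0, 2), ((2, 5), 0, 1), ((3, 4), 0, 6), ((3, 8), 0, 7), ((5, 1), 1, 2), ((5, 2),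
    1, 0), ((6, 8), 1, 7), ((6, 9), 1, 5)]
  Tb := [((0, 1, 4), 3, 2, 6), ((1, 0, 2), 2, 3, 0), ((1, 0, 5), 2, 3, 1), ((1, 0, 7), 2, 3, 4),
    ((1, 2, 5), 2, 0, 1), ((1, 2, 7), 2, 0, 4), ((1, 5, 7), 2, 1, 4), ((2, 1, 5), 0, 2, 1),
    ((3, 4, 8), 0, 6, 7), ((4, 0, 3), 6, 3, 0), ((5, 1, 2), 1, 2, 0), ((6, 8, 9), 1, 7, 5),
    ((7, 1, 9), 4, 2, 5), ((8, 3, 6), 7, 0, 1), ((9, 6, 7), 5, 1, 4)]
  Tc := []
  Td := [((0, 3), (2, 1), 2), ((0, 3), (2, 5), 1), ((0, 3), (3, 4), 6), ((0, 3), (3, 8), 7), ((2,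
    5), (1, 0), 3), ((2, 5), (1, 2), 0), ((2, 5), (1, 5), 1), ((2, 5), (1, 7), 4), ((3, 0),
    (0, 1), 2), ((3, 0), (0, 4), 6), ((5, 2), (9, 6), 1), ((5, 2), (9, 7), 4)]
  G := [[0, 0x12c21ac422c11cc2a21621cc821a12ac46c, 0x1212c481112c841212c82e,
    0x212154212194a2121582121546c, 0x214194422194c2141982142986a], [0, 0,
    0x1111c481111c841111c82e, 0, 0xc1519441d198cc15194d141946a], [0, 0, 0,
    0xd21242d48c292584c292582d, 0xd242948d242942d242944b], [0, 0, 0, 0,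
    0xccc55c948ccc55c94244d4958c89c4b]]

noncomputable def n1351 : Ent := ⟨e1351, noF, [], [], [(15, 14, [385746751338780685620664494392815470296102193487288376378023937, 0])]⟩

def c1351 : PLift (Cov.check n1351.C.D v1351 = true) := ⟨by decide +kernel⟩

def b1351 : PLift (entF (fidx ts) 400 1351 n1351 = true) := ⟨by decide +kernel⟩

theorem g1351 : GoodF (fidx ts) 400 1351 := GoodF.ofV v1351 n1351 c1351.down b1351.down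

/-- 467644:1076/3 -/
noncomputable def e1352 : SCfg where
  D := {
    a := 6
    L := 10
    kp := 7
    inn := [(0, 1), (1, 0), (1, 2), (2, 1), (2, 3), (2, 4), (3, 2), (3, 5), (4, 2), (5, 3)]
    mix := [(0, 0), (0, 1), (0, 2), (1, 0), (1, 2), (1, 3), (1, 4), (2, 2), (2, 3), (2, 5), (2, 6), (3,
      5), (3, 6), (3, 7), (3, 8), (4, 3), (4, 6), (4, 9), (5, 6), (5, 8), (5, 9)]
    cl := [2, 6, 0, 0, 7, 1, 1, 5, 4, 3]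
    chq := [(0, 2), (2, 0), (3, 5), (5, 3)]
    rng := [(0, 1), (0, 4), (1, 0), (1, 2), (2, 1), (2, 5), (3, 4), (3, 9), (4, 0), (4, 3), (5, 2), (5,
      7), (6, 9), (7, 5), (7, 8), (8, 7), (8, 9), (9, 3), (9, 6), (9, 8)]
    lev := [] }
  links := [[1, 6, 7, 8], [6, 0, 8, 2, 9, 10], [9, 1, 8, 11, 3, 12, 4], [12, 2, 11, 13, 14, 5], [9, 2,
    12, 15], [12, 3, 14, 15]]
  P := {
    a := 6
    N := 16
    nb := [450, 1861, 6938, 30756, 37380, 53256, 1155, 321, 2183, 33814, 578, 8460, 32828, 18440,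
      41000, 21040]
    tri := [(0, 1, 6), (0, 1, 8), (0, 6, 7), (0, 7, 8), (1, 2, 8), (1, 2, 9), (1, 6, 10), (1, 9, 10),
      (2, 3, 11), (2, 3, 12), (2, 4, 9), (2, 4, 12), (2, 8, 11), (3, 5, 12), (3, 5, 14), (3, 11,
      13), (3, 13, 14), (4, 9, 15), (4, 12, 15), (5, 12, 15), (5, 14, 15)]
    fin := [0, 1, 2, 3, 1, 3, 0, 7, 1, 1, 10, 2, 2, 3, 14, 15]
    chd := [(0, 1), (3, 15)]
    steps := [(0, 6), (1, 8), (1, 9), (1, 4), (2, 11), (2, 12), (3, 5), (3, 13)] }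
  rep := [1, 2, 0, 15, 14, 3, 7, 10]

noncomputable def v1352 : Cov.CovD where
  P := 3
  N := 5
  pl := [1, 4, 8]
  lev := [⟨[], [], [(0, 2)], [6], [(0, 2, [0]), (2, 0, [2])]⟩,
    ⟨[], [(0, 0), (0, 2)], [(0, 0), (0, 2)], [7], [(0, 2, [0]), (2, 0, [2]), (3, 0, [2])]⟩,
    ⟨[(0, 1)], [(0, 0), (1, 0), (1, 1), (1, 2)], [(0, 0), (0, 1), (1, 1)], [], [(2, 0,
      [2]), (3, 0, [2]), (5, 1, []), (6, 1, [])]⟩,
    ⟨[(1, 2)], [(2, 0), (2, 1), (2, 5)], [(1, 1), (1, 5)], [4], [(5, 1, []), (6, 1, []),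
      (7, 5, [3])]⟩,
    ⟨[(1, 2), (2, 3)], [(1, 0), (2, 0), (2, 1), (2, 3), (3, 1)], [(0, 1), (0, 3), (1, 3)],
      [], [(3, 0, [2]), (6, 1, []), (9, 3, [5])]⟩,
    ⟨[(2, 3)], [(2, 1), (3, 1), (3, 3), (3, 5), (4, 1), (4, 3)], [(1, 3)], [4], [(6, 1,
      []), (9, 3, [5])]⟩]
  Ta := [((2, 1), 0, 6), ((2, 5), 0, 1), ((3, 4), 0, 7), ((3, 9), 0, 3), ((5, 2), 1, 0), ((5, 7),
    1, 5), ((6, 9), 1, 3)]
  Tb := [((0, 1, 4), 2, 6, 7), ((1, 0, 2), 6, 2, 0), ((2, 1, 5), 0, 6, 1), ((3, 4, 9), 0, 7, 3),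
    ((4, 0, 3), 7, 2, 0), ((5, 2, 7), 1, 0, 5), ((7, 5, 8), 5, 1, 4), ((8, 7, 9), 4, 5, 3),
    ((9, 3, 6), 3, 0, 1), ((9, 3, 8), 3, 0, 4), ((9, 6, 8), 3, 1, 4)]
  Tc := []
  Td := [((0, 2), (2, 1), 6), ((0, 2), (2, 5), 1), ((0, 2), (3, 4), 7), ((0, 2), (3, 9), 3), ((2,
    0), (0, 1), 6), ((2, 0), (0, 4), 7), ((3, 5), (9, 3), 0), ((3, 5), (9, 6), 1), ((3, 5),
    (9, 8), 4), ((5, 3), (7, 5), 1), ((5, 3), (7, 8), 4)]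
  G := [[0, 0x25c91c14ce21161a6586e8c11a34c14ce2116242692ccacc, 0x213111d82213111d8421115318c8e,
    0x219211d421452119cc312111d4312112d8cc, 0x213112d4312111d4a213111d4522112d8aa], [0, 0,
    0x4159111d8491115518c2519111d48e, 0x519111d491451119cc519111d4519111d8cc,
    0x519111d4519111d8a519111d491115518caa], [0, 0, 0x312111d42522111d84312111d48e,
    0x28692c2d45292216d8c1, 0x922865528c5292c2d8a1], [0, 0, 0x91115518c4519111d8291451119c8e,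
    0x44485c98c4cdc5494c84cd188cc1, 0x44485c9894cdc94c84c585c8ca1]]

noncomputable def n1352 : Ent := ⟨e1352, noF, [], [], [(7, 13, [385753028440516072301428330182238677962518295842732840412536833, 0])]⟩

def c1352 : PLift (Cov.check n1352.C.D v1352 = true) := ⟨by decide +kernel⟩

def b1352 : PLift (entF (fidx ts) 400 1352 n1352 = true) := ⟨by decide +kernel⟩

theorem g1352 : GoodF (fidx ts) 400 1352 := GoodF.ofV v1352 n1352 c1352.down b1352.down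

/-- 467644:1076 -/
noncomputable def e1353 : SCfg where
  D := {
    a := 6
    L := 11
    kp := 8
    inn := [(0, 1), (1, 0), (1, 2), (2, 1), (2, 3), (2, 4), (3, 2), (3, 5), (4, 2), (5, 3)]
    mix := [(0, 0), (0, 1), (0, 2), (1, 0), (1, 2), (1, 3), (1, 4), (2, 2), (2, 3), (2, 5), (2, 6), (3,
      5), (3, 6), (3, 7), (3, 8), (4, 3), (4, 6), (4, 9), (5, 6), (5, 8), (5, 10)]
    cl := [2, 6, 0, 0, 7, 1, 1, 4, 3, 8, 5]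
    chq := [(0, 2), (2, 0), (4, 5), (5, 4)]
    rng := [(0, 1), (0, 4), (1, 0), (1, 2), (2, 1), (2, 5), (3, 4), (3, 9), (4, 0), (4, 3), (5, 2), (5,
      7), (6, 9), (6, 10), (7, 5), (7, 8), (8, 7), (8, 10), (9, 3), (9, 6), (10, 6), (10, 8)]
    lev := [] }
  links := [[1, 6, 7, 8], [6, 0, 8, 2, 9, 10], [9, 1, 8, 11, 3, 12, 4], [12, 2, 11, 13, 14, 5], [9, 2,
    12, 15], [12, 3, 14, 16]]
  P := {
    a := 6
    N := 17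
    nb := [450, 1861, 6938, 30756, 37380, 86024, 1155, 321, 2183, 33814, 578, 8460, 98364, 18440,
      73768, 4624, 20512]
    tri := [(0, 1, 6), (0, 1, 8), (0, 6, 7), (0, 7, 8), (1, 2, 8), (1, 2, 9), (1, 6, 10), (1, 9, 10),
      (2, 3, 11), (2, 3, 12), (2, 4, 9), (2, 4, 12), (2, 8, 11), (3, 5, 12), (3, 5, 14), (3, 11,
      13), (3, 13, 14), (4, 9, 15), (4, 12, 15), (5, 12, 16), (5, 14, 16)]
    fin := [0, 1, 2, 3, 1, 3, 0, 7, 1, 1, 10, 2, 2, 3, 14, 15, 16]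
    chd := [(0, 1), (3, 16)]
    steps := [(0, 6), (1, 8), (1, 9), (1, 4), (2, 11), (2, 12), (3, 5), (3, 13)] }
  rep := [1, 2, 0, 14, 3, 16, 7, 10, 15]

noncomputable def v1353 : Cov.CovD where
  P := 3
  N := 6
  pl := [1, 4, 8, 9]
  lev := [⟨[], [], [(0, 2)], [6], [(0, 2, [0]), (2, 0, [2])]⟩,
    ⟨[], [(0, 0), (0, 2)], [(0, 0), (0, 2)], [7], [(0, 2, [0]), (2, 0, [2]), (3, 0, [2])]⟩,
    ⟨[(0, 1)], [(0, 0), (1, 0), (1, 1), (1, 2)], [(0, 0), (0, 1), (1, 1)], [], [(2, 0,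
      [2]), (3, 0, [2]), (5, 1, []), (6, 1, [])]⟩,
    ⟨[(1, 2)], [(2, 0), (2, 1), (2, 4)], [(1, 1), (1, 4)], [3], [(5, 1, []), (6, 1, []),
      (7, 4, [5])]⟩,
    ⟨[(1, 2), (2, 3)], [(1, 0), (2, 0), (2, 1), (3, 1)], [(0, 1)], [8], [(3, 0, [2]), (6,
      1, [])]⟩,
    ⟨[(2, 3)], [(2, 1), (3, 1), (3, 4), (3, 5), (4, 1)], [(1, 5)], [3], [(6, 1, []), (10,
      5, [4])]⟩]
  Ta := [((2, 1), 0, 6), ((2, 5), 0, 1), ((3, 4), 0, 7), ((3, 9), 0, 8), ((5, 2), 1, 0), ((5, 7),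
    1, 4), ((6, 9), 1, 8), ((6, 10), 1, 5)]
  Tb := [((0, 1, 4), 2, 6, 7), ((1, 0, 2), 6, 2, 0), ((2, 1, 5), 0, 6, 1), ((3, 4, 9), 0, 7, 8),
    ((4, 0, 3), 7, 2, 0), ((5, 2, 7), 1, 0, 4), ((6, 9, 10), 1, 8, 5), ((7, 5, 8), 4, 1, 3),
    ((8, 7, 10), 3, 4, 5), ((9, 3, 6), 8, 0, 1), ((10, 6, 8), 5, 1, 3)]
  Tc := []
  Td := [((0, 2), (2, 1), 6), ((0, 2), (2, 5), 1), ((0, 2), (3, 4), 7), ((0, 2), (3, 9), 8), ((2,
    0), (0, 1), 6), ((2, 0), (0, 4), 7), ((4, 5), (7, 5), 1), ((4, 5), (7, 8), 3), ((5, 4),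
    (10, 6), 1), ((5, 4), (10, 8), 3)]
  G := [[0, 0x11c3aa5cae4616a1cc56e8c15639ac1ce435a19691ce2cc, 0x312171d483121a1d823121a1d84e,
    0x219261d42131c611cc529221d4219261d8cc, 0x5121a1d43121c1d8a3121c1d4219261d4aa], [0, 0,
    0x5191c1d4251c1949148c914851c194ce, 0x5191c1d491451c19cc5191c1d45191c1d8cc,
    0x5191c1d45191c1d4a5191c1d491c15518caa], [0, 0, 0x3121c2d45121c2d8a213161d82192c1d46c,
    0x2445228c2dc5292c2d8c1, 0x5292c2d4529222cd8a1], [0, 0,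
    0x914451c194c51c1949148c5191c1d42e, 0x94455c98cccdc5499ccccd588cc1,
    0x94455c98cccdc99cccc555c8ca1]]

noncomputable def n1353 : Ent := ⟨e1353, noF, [], [], [(7, 13, [1685382419725355503238989871268909155780284044704628512909404958721, 0]), (16, 15, [1685356702439545624007900436039642273970977273354372543760005627905, 0])]⟩

def c1353 : PLift (Cov.check n1353.C.D v1353 = true) := ⟨by decide +kernel⟩

def b1353 : PLift (entF (fidx ts) 400 1353 n1353 = true) := ⟨by decide +kernel⟩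

theorem g1353 : GoodF (fidx ts) 400 1353 := GoodF.ofV v1353 n1353 c1353.down b1353.down

/-- 467745:1077/1 -/
noncomputable def e1354 : SCfg where
  D := {
    a := 6
    L := 10
    kp := 7
    inn := [(0, 1), (0, 3), (1, 0), (1, 2), (1, 3), (2, 1), (2, 3), (2, 4), (3, 0), (3, 1), (3, 2), (3,
      5), (4, 2), (5, 3)]
    mix := [(0, 0), (0, 1), (1, 0), (1, 2), (1, 3), (2, 2), (2, 4), (2, 5), (2, 6), (3, 1), (3, 4), (3,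
      7), (4, 4), (4, 5), (4, 8), (5, 1), (5, 7), (5, 8), (5, 9)]
    cl := [2, 1, 0, 5, 0, 3, 6, 1, 4, 7]
    chq := [(0, 2), (0, 3), (2, 0), (3, 0)]
    rng := [(0, 1), (0, 3), (1, 0), (1, 9), (2, 3), (2, 6), (3, 0), (3, 2), (4, 7), (4, 8), (5, 6), (5,
      8), (6, 2), (6, 5), (7, 4), (7, 8), (8, 4), (8, 5), (8, 7), (8, 9), (9, 1), (9, 8)]
    lev := [] }
  links := [[1, 6, 7, 3], [6, 0, 3, 2, 8, 9], [8, 1, 3, 10, 4, 11, 12], [10, 2, 1, 0, 7, 5, 13], [11, 2,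
    10, 14], [13, 3, 7, 15, 14]]
  P := {
    a := 6
    N := 16
    nb := [202, 845, 7450, 9383, 19460, 57480, 643, 32873, 4614, 322, 24604, 20500, 2308, 17448,
      44080, 16544]
    tri := [(0, 1, 3), (0, 1, 6), (0, 3, 7), (0, 6, 7), (1, 2, 3), (1, 2, 8), (1, 6, 9), (1, 8, 9), (2,
      3, 10), (2, 4, 10), (2, 4, 11), (2, 8, 12), (2, 11, 12), (3, 5, 7), (3, 5, 13), (3, 10, 13),
      (4, 10, 14), (4, 11, 14), (5, 7, 15), (5, 13, 14), (5, 14, 15)]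
    fin := [0, 0, 2, 0, 4, 5, 0, 5, 2, 9, 2, 11, 12, 5, 4, 15]
    chd := [(0, 2), (2, 11)]
    steps := [(0, 1), (0, 3), (0, 6), (2, 10), (2, 8), (4, 14), (5, 7), (5, 13)] }
  rep := [2, 5, 0, 11, 4, 9, 12, 15]

noncomputable def v1354 : Cov.CovD where
  P := 3
  N := 5
  pl := [3, 6, 8, 9]
  lev := [⟨[], [], [(1, 2)], [], [(0, 2, [0]), (1, 1, [])]⟩,
    ⟨[], [(0, 0), (0, 1), (0, 2)], [(0, 2)], [5], [(0, 2, [0]), (2, 0, [2, 3])]⟩,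
    ⟨[(0, 1)], [(1, 0), (1, 2), (1, 3)], [(0, 0), (0, 3)], [6], [(2, 0, [2, 3]), (4, 0, [2,
      3]), (5, 3, [0])]⟩,
    ⟨[(0, 1), (0, 2), (1, 2)], [(0, 0), (0, 1), (0, 2), (1, 0), (1, 1), (1, 2), (2, 0), (2,
      1), (2, 3)], [(0, 1), (1, 1)], [], [(1, 1, []), (4, 0, [2, 3]), (7, 1, [])]⟩,
    ⟨[(1, 2), (2, 3)], [(2, 0), (2, 3), (3, 0)], [(0, 3)], [4], [(4, 0, [2, 3]), (5, 3,
      [0])]⟩,
    ⟨[(0, 3), (1, 3), (2, 3)], [(0, 1), (3, 0), (3, 1)], [(1, 1)], [4, 7], [(1, 1, []), (7,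
      1, [])]⟩]
  Ta := [((1, 0), 1, 2), ((1, 9), 1, 7), ((2, 3), 0, 5), ((2, 6), 0, 6), ((4, 7), 0, 1), ((4, 8),
    0, 4), ((7, 4), 1, 0), ((7, 8), 1, 4)]
  Tb := [((0, 1, 3), 2, 1, 5), ((1, 0, 9), 1, 2, 7), ((2, 3, 6), 0, 5, 6), ((3, 0, 2), 5, 2, 0),
    ((4, 7, 8), 0, 1, 4), ((5, 6, 8), 3, 6, 4), ((6, 2, 5), 6, 0, 3), ((7, 4, 8), 1, 0, 4),
    ((8, 4, 5), 4, 0, 3), ((8, 4, 7), 4, 0, 1), ((8, 4, 9), 4, 0, 7), ((8, 5, 7), 4, 3, 1),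
    ((8, 5, 9), 4, 3, 7), ((8, 7, 9), 4, 1, 7), ((9, 1, 8), 7, 1, 4)]
  Tc := [(0, 2, 3)]
  Td := [((0, 2), (2, 3), 5), ((0, 2), (2, 6), 6), ((0, 2), (4, 7), 1), ((0, 2), (4, 8), 4), ((0,
    3), (2, 3), 5), ((0, 3), (2, 6), 6), ((0, 3), (4, 7), 1), ((0, 3), (4, 8), 4), ((2, 0),
    (0, 1), 1), ((2, 0), (0, 3), 5), ((3, 0), (5, 6), 6), ((3, 0), (5, 8), 4)]
  G := [[0, 0, 0x51889d18a4191cd18d18e6d18445, 0x1d3444899c5282ce451788cd18d28ec1,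
    0x5d345188acd24edd3449978d14ea1], [0, 0, 0xd144491c5182ce5188cd184291cec1, 0,
    0x955b4819b445d14e25d549934459d94e8a], [0, 0, 0xd145181cd14e5188cd18d18ec1,
    0x55698c959e8d28e14, 0x955e45499acd24e18], [0, 0xe66e4aeae2ccee4e18,
    0xd145181c5181ce5188cd18d18ec1, 0, 0x955e4959e89cde8e12]]

noncomputable def n1354 : Ent := ⟨e1354, noF, [], [], []⟩

def c1354 : PLift (Cov.check n1354.C.D v1354 = true) := ⟨by decide +kernel⟩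

def b1354 : PLift (entF (fidx ts) 400 1354 n1354 = true) := ⟨by decide +kernel⟩

theorem g1354 : GoodF (fidx ts) 400 1354 := GoodF.ofV v1354 n1354 c1354.down b1354.down

/-- 467745:1077 -/
noncomputable def e1355 : SCfg where
  D := {
    a := 6
    L := 11
    kp := 8
    inn := [(0, 1), (0, 3), (1, 0), (1, 2), (1, 3), (2, 1), (2, 3), (2, 4), (3, 0), (3, 1), (3, 2), (3,
      5), (4, 2), (5, 3)]
    mix := [(0, 0), (0, 1), (1, 0), (1, 2), (1, 3), (2, 2), (2, 4), (2, 5), (2, 6), (3, 1), (3, 4), (3,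
      7), (4, 4), (4, 5), (4, 8), (5, 1), (5, 7), (5, 9), (5, 10)]
    cl := [2, 1, 0, 4, 0, 3, 5, 1, 6, 7, 8]
    chq := [(0, 3), (1, 4), (3, 0), (4, 1)]
    rng := [(0, 1), (0, 3), (1, 0), (1, 9), (2, 3), (2, 6), (3, 0), (3, 2), (4, 7), (4, 8), (5, 6), (5,
      8), (6, 2), (6, 5), (7, 4), (7, 10), (8, 4), (8, 5), (9, 1), (9, 10), (10, 7), (10, 9)]
    lev := [] }
  links := [[1, 6, 7, 3], [6, 0, 3, 2, 8, 9], [8, 1, 3, 10, 4, 11, 12], [10, 2, 1, 0, 7, 5, 13], [11, 2,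
    10, 14], [13, 3, 7, 15, 16]]
  P := {
    a := 6
    N := 17
    nb := [202, 845, 7450, 9383, 19460, 106632, 643, 32873, 4614, 322, 24604, 20500, 2308, 66600,
      3088, 65696, 40992]
    tri := [(0, 1, 3), (0, 1, 6), (0, 3, 7), (0, 6, 7), (1, 2, 3), (1, 2, 8), (1, 6, 9), (1, 8, 9), (2,
      3, 10), (2, 4, 10), (2, 4, 11), (2, 8, 12), (2, 11, 12), (3, 5, 7), (3, 5, 13), (3, 10, 13),
      (4, 10, 14), (4, 11, 14), (5, 7, 15), (5, 13, 16), (5, 15, 16)]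
    fin := [0, 1, 2, 1, 2, 1, 0, 1, 2, 9, 2, 11, 12, 1, 14, 15, 16]
    chd := [(1, 9), (2, 11)]
    steps := [(0, 6), (1, 3), (1, 5), (1, 7), (1, 13), (2, 4), (2, 10), (2, 8)] }
  rep := [2, 1, 0, 11, 9, 12, 14, 15, 16]

noncomputable def v1355 : Cov.CovD where
  P := 3
  N := 6
  pl := [0, 6, 8, 9, 10]
  lev := [⟨[], [], [], [2], [(1, 1, [4])]⟩,
    ⟨[], [(0, 0), (0, 1), (0, 4)], [(0, 4)], [2], [(2, 0, [3]), (3, 4, [1])]⟩,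
    ⟨[(0, 1)], [(1, 0), (1, 3), (1, 4)], [(0, 0), (0, 3)], [5], [(2, 0, [3]), (4, 0, [3]),
      (5, 3, [0])]⟩,
    ⟨[(0, 1), (0, 2), (1, 2)], [(0, 0), (0, 1), (1, 0), (1, 1), (1, 4), (2, 0), (2, 1), (2,
      3)], [(0, 1), (1, 1)], [], [(1, 1, [4]), (4, 0, [3]), (7, 1, [4])]⟩,
    ⟨[(1, 2), (2, 3)], [(2, 0), (2, 3), (3, 0)], [(0, 3)], [6], [(4, 0, [3]), (5, 3, [0])]⟩,
    ⟨[(0, 3), (1, 3), (2, 3)], [(0, 1), (3, 0), (3, 1)], [(1, 1)], [7, 8], [(1, 1, [4]),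
      (7, 1, [4])]⟩]
  Ta := [((1, 0), 1, 2), ((1, 9), 1, 7), ((2, 3), 0, 4), ((2, 6), 0, 5), ((4, 7), 0, 1), ((4, 8),
    0, 6), ((7, 4), 1, 0), ((7, 10), 1, 8)]
  Tb := [((0, 1, 3), 2, 1, 4), ((1, 0, 9), 1, 2, 7), ((2, 3, 6), 0, 4, 5), ((3, 0, 2), 4, 2, 0),
    ((4, 7, 8), 0, 1, 6), ((5, 6, 8), 3, 5, 6), ((6, 2, 5), 5, 0, 3), ((7, 4, 10), 1, 0, 8),
    ((8, 4, 5), 6, 0, 3), ((9, 1, 10), 7, 1, 8), ((10, 7, 9), 8, 1, 7)]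
  Tc := []
  Td := [((0, 3), (2, 3), 4), ((0, 3), (2, 6), 5), ((0, 3), (4, 7), 1), ((0, 3), (4, 8), 6), ((1,
    4), (1, 0), 2), ((1, 4), (1, 9), 7), ((1, 4), (7, 4), 0), ((1, 4), (7, 10), 8), ((3, 0),
    (5, 6), 5), ((3, 0), (5, 8), 6), ((4, 1), (3, 0), 2), ((4, 1), (3, 2), 0)]
  G := [[0, 0, 0xdd342dd945547889bcdd54ea8, 0x4d34555988bcddd74e41995cd4db84dd78ec1,
    0xdd342dddb4dd58dd94ea1], [0, 0, 0x84db42dddb4555983ccd94ea8, 0, 0xd142dddd4dddb8d18ea1],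
    [0, 0, 0xddde42ddde48addde82ddde846c, 0x44de48199c4ddde8ddde8e1c,
    0x42dd9ec21ddde4ddde8c29], [0, 0xeeee2eeee8eeee8e14, 0xdda424d4e48add68299a4ddde8ddc8e6c,
    0, 0xddde4ddde8ddde8e12]]

noncomputable def n1355 : Ent := ⟨e1355, noF, [], [], [(16, 14, [1580095832788404724998799751142926758855362888449624481876424302593, 0])]⟩

def c1355 : PLift (Cov.check n1355.C.D v1355 = true) := ⟨by decide +kernel⟩

def b1355 : PLift (entF (fidx ts) 400 1355 n1355 = true) := ⟨by decide +kernel⟩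

theorem g1355 : GoodF (fidx ts) 400 1355 := GoodF.ofV v1355 n1355 c1355.down b1355.down

/-- 467745:1079/1 -/
noncomputable def e1356 : SCfg where
  D := {
    a := 6
    L := 10
    kp := 7
    inn := [(0, 1), (0, 3), (1, 0), (1, 2), (1, 3), (2, 1), (2, 3), (2, 4), (3, 0), (3, 1), (3, 2), (3,
      5), (4, 2), (5, 3)]
    mix := [(0, 0), (0, 1), (1, 0), (1, 2), (1, 3), (2, 2), (2, 4), (2, 5), (2, 6), (3, 1), (3, 4), (3,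
      7), (4, 5), (4, 6), (4, 8), (5, 1), (5, 7), (5, 8), (5, 9)]
    cl := [2, 1, 0, 6, 0, 4, 5, 1, 3, 7]
    chq := [(0, 2), (0, 3), (2, 0), (3, 0)]
    rng := [(0, 1), (0, 3), (1, 0), (1, 8), (2, 3), (2, 6), (3, 0), (3, 2), (4, 5), (4, 7), (5, 4), (5,
      8), (6, 2), (6, 8), (7, 4), (7, 9), (8, 1), (8, 5), (8, 6), (8, 9), (9, 7), (9, 8)]
    lev := [] }
  links := [[1, 6, 7, 3], [6, 0, 3, 2, 8, 9], [8, 1, 3, 10, 11, 4, 12], [10, 2, 1, 0, 7, 5, 13], [12, 2,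
    11, 14], [13, 3, 7, 14, 15]]
  P := {
    a := 6
    N := 16
    nb := [202, 845, 7450, 9383, 22532, 57480, 643, 16489, 4614, 322, 10252, 17428, 16660, 33832,
      39088, 24608]
    tri := [(0, 1, 3), (0, 1, 6), (0, 3, 7), (0, 6, 7), (1, 2, 3), (1, 2, 8), (1, 6, 9), (1, 8, 9), (2,
      3, 10), (2, 4, 11), (2, 4, 12), (2, 8, 12), (2, 10, 11), (3, 5, 7), (3, 5, 13), (3, 10, 13),
      (4, 11, 14), (4, 12, 14), (5, 7, 14), (5, 13, 15), (5, 14, 15)]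
    fin := [0, 1, 2, 1, 2, 5, 0, 5, 1, 9, 1, 11, 12, 5, 2, 15]
    chd := [(0, 1), (1, 2)]
    steps := [(0, 6), (1, 3), (1, 10), (1, 8), (2, 4), (2, 14), (5, 7), (5, 13)] }
  rep := [1, 5, 0, 2, 11, 12, 9, 15]

noncomputable def v1356 : Cov.CovD where
  P := 3
  N := 5
  pl := [3, 5, 6, 9]
  lev := [⟨[], [], [(1, 2)], [], [(0, 2, [0]), (1, 1, [])]⟩,
    ⟨[], [(0, 0), (0, 1), (0, 2)], [(0, 2)], [6], [(0, 2, [0]), (2, 0, [2, 3])]⟩,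
    ⟨[(0, 1)], [(1, 0), (1, 2)], [(0, 0)], [4, 5], [(2, 0, [2, 3]), (4, 0, [2, 3])]⟩,
    ⟨[(0, 1), (0, 2), (1, 2)], [(0, 0), (0, 1), (0, 2), (1, 0), (1, 1), (1, 2), (2, 0), (2,
      1)], [(0, 1), (1, 1)], [], [(1, 1, []), (4, 0, [2, 3]), (7, 1, [])]⟩,
    ⟨[(1, 2), (2, 3)], [(2, 0), (2, 3)], [], [4, 5], [(8, 3, [0])]⟩,
    ⟨[(0, 3), (1, 3), (2, 3)], [(0, 1), (3, 0), (3, 1), (3, 3), (4, 3)], [(1, 1), (1, 3)],
      [7], [(1, 1, []), (7, 1, []), (8, 3, [0])]⟩]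
  Ta := [((1, 0), 1, 2), ((1, 8), 1, 3), ((2, 3), 0, 6), ((2, 6), 0, 5), ((4, 5), 0, 4), ((4, 7),
    0, 1), ((7, 4), 1, 0), ((7, 9), 1, 7)]
  Tb := [((0, 1, 3), 2, 1, 6), ((1, 0, 8), 1, 2, 3), ((2, 3, 6), 0, 6, 5), ((3, 0, 2), 6, 2, 0),
    ((4, 5, 7), 0, 4, 1), ((5, 4, 8), 4, 0, 3), ((6, 2, 8), 5, 0, 3), ((7, 4, 9), 1, 0, 7),
    ((8, 1, 5), 3, 1, 4), ((8, 1, 6), 3, 1, 5), ((8, 1, 9), 3, 1, 7), ((8, 5, 6), 3, 4, 5),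
    ((8, 5, 9), 3, 4, 7), ((8, 6, 9), 3, 5, 7), ((9, 7, 8), 7, 1, 3)]
  Tc := [(0, 2, 3)]
  Td := [((0, 2), (2, 3), 6), ((0, 2), (2, 6), 5), ((0, 2), (4, 5), 4), ((0, 2), (4, 7), 1), ((0,
    3), (2, 3), 6), ((0, 3), (2, 6), 5), ((0, 3), (4, 5), 4), ((0, 3), (4, 7), 1), ((2, 0),
    (0, 1), 1), ((2, 0), (0, 3), 6), ((3, 0), (8, 1), 1), ((3, 0), (8, 5), 4), ((3, 0), (8,
    6), 5), ((3, 0), (8, 9), 7)]
  G := [[0, 0, 0xd144191cd14e5188c4958d18ea1, 0xd1454999cd24e545919cd184292cec1,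
    0xd1454999ccd9b4e55398c54993cd14ea1], [0, 0, 0xd14d24ad184d144191cd14ee1, 0,
    0xd14151d889c12c2ce5195ac59978d18ea1], [0, 0, 0xd145181c5182ced144191cd14ea1,
    0x5198c5958d28e14, 0x95945491cd934e18], [0, 0xe14e126181ae18,
    0xd144491cd24e4191cd18d28ec1, 0, 0x95945958d28e12]]

noncomputable def n1356 : Ent := ⟨e1356, noF, [], [], []⟩

def c1356 : PLift (Cov.check n1356.C.D v1356 = true) := ⟨by decide +kernel⟩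

def b1356 : PLift (entF (fidx ts) 400 1356 n1356 = true) := ⟨by decide +kernel⟩

theorem g1356 : GoodF (fidx ts) 400 1356 := GoodF.ofV v1356 n1356 c1356.down b1356.down

/-- 467745:1079/2 -/
noncomputable def e1357 : SCfg where
  D := {
    a := 6
    L := 10
    kp := 7
    inn := [(0, 1), (0, 3), (1, 0), (1, 2), (1, 3), (2, 1), (2, 3), (2, 4), (3, 0), (3, 1), (3, 2), (3,
      5), (4, 2), (5, 3)]
    mix := [(0, 0), (0, 1), (1, 0), (1, 2), (1, 3), (2, 2), (2, 4), (2, 5), (2, 6), (3, 1), (3, 4), (3,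
      7), (4, 5), (4, 6), (4, 8), (5, 1), (5, 7), (5, 8), (5, 9)]
    cl := [2, 1, 0, 6, 0, 4, 5, 1, 3, 7]
    chq := [(0, 2), (0, 3), (2, 0), (3, 0)]
    rng := [(0, 1), (0, 3), (1, 0), (1, 9), (2, 3), (2, 6), (3, 0), (3, 2), (4, 5), (4, 7), (5, 4), (5,
      8), (6, 2), (6, 8), (7, 4), (7, 8), (8, 5), (8, 6), (8, 7), (8, 9), (9, 1), (9, 8)]
    lev := [] }
  links := [[1, 6, 7, 3], [6, 0, 3, 2, 8, 9], [8, 1, 3, 10, 11, 4, 12], [10, 2, 1, 0, 7, 5, 13], [12, 2,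
    11, 14], [13, 3, 7, 15, 14]]
  P := {
    a := 6
    N := 16
    nb := [202, 845, 7450, 9383, 22532, 57480, 643, 32873, 4614, 322, 10252, 17428, 16660, 17448,
      47152, 16544]
    tri := [(0, 1, 3), (0, 1, 6), (0, 3, 7), (0, 6, 7), (1, 2, 3), (1, 2, 8), (1, 6, 9), (1, 8, 9), (2,
      3, 10), (2, 4, 11), (2, 4, 12), (2, 8, 12), (2, 10, 11), (3, 5, 7), (3, 5, 13), (3, 10, 13),
      (4, 11, 14), (4, 12, 14), (5, 7, 15), (5, 13, 14), (5, 14, 15)]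
    fin := [0, 1, 2, 1, 2, 5, 0, 5, 1, 9, 1, 11, 12, 5, 2, 15]
    chd := [(0, 1), (1, 2)]
    steps := [(0, 6), (1, 3), (1, 10), (1, 8), (2, 4), (2, 14), (5, 7), (5, 13)] }
  rep := [1, 5, 0, 2, 11, 12, 9, 15]

noncomputable def v1357 : Cov.CovD where
  P := 3
  N := 5
  pl := [3, 5, 6, 9]
  lev := [⟨[], [], [(1, 2)], [], [(0, 2, [0]), (1, 1, [])]⟩,
    ⟨[], [(0, 0), (0, 1), (0, 2)], [(0, 2)], [6], [(0, 2, [0]), (2, 0, [2, 3])]⟩,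
    ⟨[(0, 1)], [(1, 0), (1, 2)], [(0, 0)], [4, 5], [(2, 0, [2, 3]), (4, 0, [2, 3])]⟩,
    ⟨[(0, 1), (0, 2), (1, 2)], [(0, 0), (0, 1), (0, 2), (1, 0), (1, 1), (1, 2), (2, 0), (2,
      1)], [(0, 1), (1, 1)], [], [(1, 1, []), (4, 0, [2, 3]), (7, 1, [])]⟩,
    ⟨[(1, 2), (2, 3)], [(2, 0), (2, 3)], [], [4, 5], [(8, 3, [0])]⟩,
    ⟨[(0, 3), (1, 3), (2, 3)], [(0, 1), (3, 0), (3, 1), (3, 3), (4, 3)], [(1, 1), (1, 3)],
      [7], [(1, 1, []), (7, 1, []), (8, 3, [0])]⟩]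
  Ta := [((1, 0), 1, 2), ((1, 9), 1, 7), ((2, 3), 0, 6), ((2, 6), 0, 5), ((4, 5), 0, 4), ((4, 7),
    0, 1), ((7, 4), 1, 0), ((7, 8), 1, 3)]
  Tb := [((0, 1, 3), 2, 1, 6), ((1, 0, 9), 1, 2, 7), ((2, 3, 6), 0, 6, 5), ((3, 0, 2), 6, 2, 0),
    ((4, 5, 7), 0, 4, 1), ((5, 4, 8), 4, 0, 3), ((6, 2, 8), 5, 0, 3), ((7, 4, 8), 1, 0, 3),
    ((8, 5, 6), 3, 4, 5), ((8, 5, 7), 3, 4, 1), ((8, 5, 9), 3, 4, 7), ((8, 6, 7), 3, 5, 1),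
    ((8, 6, 9), 3, 5, 7), ((8, 7, 9), 3, 1, 7), ((9, 1, 8), 7, 1, 3)]
  Tc := [(0, 2, 3)]
  Td := [((0, 2), (2, 3), 6), ((0, 2), (2, 6), 5), ((0, 2), (4, 5), 4), ((0, 2), (4, 7), 1), ((0,
    3), (2, 3), 6), ((0, 3), (2, 6), 5), ((0, 3), (4, 5), 4), ((0, 3), (4, 7), 1), ((2, 0),
    (0, 1), 1), ((2, 0), (0, 3), 6), ((3, 0), (8, 5), 4), ((3, 0), (8, 6), 5), ((3, 0), (8,
    7), 1), ((3, 0), (8, 9), 7)]
  G := [[0, 0, 0xd144191cd24e4191cd18d28ec1, 0xd14151d889c5282ce45591ccd18d28ec1,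
    0xd1454999cd24e55398c59978d18ea1], [0, 0, 0xd144191c5181ce4191cd18d18ec1, 0,
    0xd1454999c555b82ce955b459978d18ea1], [0, 0, 0x4191cd184291ced144491cd14e61,
    0x41919c5958d28e14, 0x95945491cd24e18], [0, 0xe12e18e18e14,
    0x4191cd18d18e5188c4191cd14e61, 0, 0x95945958dc34e12]]

noncomputable def n1357 : Ent := ⟨e1357, noF, [], [], []⟩

def c1357 : PLift (Cov.check n1357.C.D v1357 = true) := ⟨by decide +kernel⟩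

def b1357 : PLift (entF (fidx ts) 400 1357 n1357 = true) := ⟨by decide +kernel⟩

theorem g1357 : GoodF (fidx ts) 400 1357 := GoodF.ofV v1357 n1357 c1357.down b1357.down

/-- 467745:1079 -/
noncomputable def e1358 : SCfg where
  D := {
    a := 6
    L := 11
    kp := 8
    inn := [(0, 1), (0, 3), (1, 0), (1, 2), (1, 3), (2, 1), (2, 3), (2, 4), (3, 0), (3, 1), (3, 2), (3,
      5), (4, 2), (5, 3)]
    mix := [(0, 0), (0, 1), (1, 0), (1, 2), (1, 3), (2, 2), (2, 4), (2, 5), (2, 6), (3, 1), (3, 4), (3,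
      7), (4, 5), (4, 6), (4, 8), (5, 1), (5, 7), (5, 9), (5, 10)]
    cl := [2, 1, 0, 6, 0, 3, 4, 1, 5, 7, 8]
    chq := [(0, 2), (0, 5), (2, 0), (5, 0)]
    rng := [(0, 1), (0, 3), (1, 0), (1, 9), (2, 3), (2, 6), (3, 0), (3, 2), (4, 5), (4, 7), (5, 4), (5,
      8), (6, 2), (6, 8), (7, 4), (7, 10), (8, 5), (8, 6), (9, 1), (9, 10), (10, 7), (10, 9)]
    lev := [] }
  links := [[1, 6, 7, 3], [6, 0, 3, 2, 8, 9], [8, 1, 3, 10, 11, 4, 12], [10, 2, 1, 0, 7, 5, 13], [12, 2,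
    11, 14], [13, 3, 7, 15, 16]]
  P := {
    a := 6
    N := 17
    nb := [202, 845, 7450, 9383, 22532, 106632, 643, 32873, 4614, 322, 10252, 17428, 16660, 66600,
      6160, 65696, 40992]
    tri := [(0, 1, 3), (0, 1, 6), (0, 3, 7), (0, 6, 7), (1, 2, 3), (1, 2, 8), (1, 6, 9), (1, 8, 9), (2,
      3, 10), (2, 4, 11), (2, 4, 12), (2, 8, 12), (2, 10, 11), (3, 5, 7), (3, 5, 13), (3, 10, 13),
      (4, 11, 14), (4, 12, 14), (5, 7, 15), (5, 13, 16), (5, 15, 16)]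
    fin := [0, 0, 2, 0, 2, 5, 0, 5, 2, 9, 2, 11, 12, 5, 14, 15, 16]
    chd := [(0, 2), (2, 14)]
    steps := [(0, 1), (0, 3), (0, 6), (2, 4), (2, 10), (2, 8), (5, 7), (5, 13)] }
  rep := [2, 5, 0, 11, 12, 14, 9, 15, 16]

noncomputable def v1358 : Cov.CovD where
  P := 3
  N := 6
  pl := [3, 5, 6, 9, 10]
  lev := [⟨[], [], [(1, 2)], [], [(0, 2, [0]), (1, 1, [])]⟩,
    ⟨[], [(0, 0), (0, 1), (0, 2)], [(0, 2)], [6], [(0, 2, [0]), (2, 0, [2, 5])]⟩,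
    ⟨[(0, 1)], [(1, 0), (1, 2)], [(0, 0)], [3, 4], [(2, 0, [2, 5]), (4, 0, [2, 5])]⟩,
    ⟨[(0, 1), (0, 2), (1, 2)], [(0, 0), (0, 1), (0, 2), (1, 0), (1, 1), (1, 2), (2, 0), (2,
      1)], [(0, 1), (1, 1)], [], [(1, 1, []), (4, 0, [2, 5]), (7, 1, [])]⟩,
    ⟨[(1, 2), (2, 3)], [(2, 0), (2, 5)], [], [3, 4], [(8, 5, [0])]⟩,
    ⟨[(0, 3), (1, 3), (2, 3)], [(0, 1), (3, 0), (3, 1)], [(1, 1)], [7, 8], [(1, 1, []), (7,
      1, [])]⟩]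
  Ta := [((1, 0), 1, 2), ((1, 9), 1, 7), ((2, 3), 0, 6), ((2, 6), 0, 4), ((4, 5), 0, 3), ((4, 7),
    0, 1), ((7, 4), 1, 0), ((7, 10), 1, 8)]
  Tb := [((0, 1, 3), 2, 1, 6), ((1, 0, 9), 1, 2, 7), ((2, 3, 6), 0, 6, 4), ((3, 0, 2), 6, 2, 0),
    ((4, 5, 7), 0, 3, 1), ((5, 4, 8), 3, 0, 5), ((6, 2, 8), 4, 0, 5), ((7, 4, 10), 1, 0, 8),
    ((8, 5, 6), 5, 3, 4), ((9, 1, 10), 7, 1, 8), ((10, 7, 9), 8, 1, 7)]
  Tc := [(0, 2, 5)]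
  Td := [((0, 2), (2, 3), 6), ((0, 2), (2, 6), 4), ((0, 2), (4, 5), 3), ((0, 2), (4, 7), 1), ((0,
    5), (2, 3), 6), ((0, 5), (2, 6), 4), ((0, 5), (4, 5), 3), ((0, 5), (4, 7), 1), ((2, 0),
    (0, 1), 1), ((2, 0), (0, 3), 6), ((5, 0), (8, 5), 3), ((5, 0), (8, 6), 4)]
  G := [[0, 0, 0xd144191cd14ed14d18d18ea1, 0x199cc4d548d14148dddb4e455998dc4d984dddf8ec9,
    0x8d54455d989cd8ddf4edddb4ddd78d18ea1], [0, 0, 0x4191cd18d18ed14d18d18e61, 0,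
    0xd14555d888d9151bc8cb9e8dddb4ddd78d18e23], [0, 0, 0x4191cd18d18e5181cd18d14e61,
    0xd8dd455581c8dd74e18, 0xd8dd454591c8dd74e18], [0, 0xe12e18e18e14,
    0xd144191cd14e4191cd18d18ec1, 0, 0xdd94dd58dd34e12]]

noncomputable def n1358 : Ent := ⟨e1358, noF, [], [], [(15, 14, [1685382413448253767852309107433119732572617628602273068445370466305, 0]), (16, 14, [1580095832788404724998799751142926758855362888449624481876424314881, 0])]⟩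

def c1358 : PLift (Cov.check n1358.C.D v1358 = true) := ⟨by decide +kernel⟩

def b1358 : PLift (entF (fidx ts) 400 1358 n1358 = true) := ⟨by decide +kernel⟩

theorem g1358 : GoodF (fidx ts) 400 1358 := GoodF.ofV v1358 n1358 c1358.down b1358.down

/-- 467744:1080 -/
noncomputable def e1359 : SCfg where
  D := {
    a := 6
    L := 10
    kp := 7
    inn := [(0, 1), (0, 3), (1, 0), (1, 2), (1, 3), (2, 1), (2, 3), (2, 4), (3, 0), (3, 1), (3, 2), (3,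
      5), (4, 2), (5, 3)]
    mix := [(0, 0), (0, 1), (1, 0), (1, 2), (1, 3), (2, 2), (2, 4), (2, 5), (2, 6), (3, 1), (3, 4), (3,
      7), (4, 5), (4, 6), (4, 8), (5, 4), (5, 7), (5, 9)]
    cl := [2, 0, 1, 5, 0, 1, 3, 4, 6, 7]
    chq := [(0, 5), (5, 0)]
    rng := [(0, 1), (0, 3), (1, 0), (1, 7), (2, 3), (2, 6), (3, 0), (3, 2), (4, 5), (4, 9), (5, 4), (5,
      8), (6, 2), (6, 8), (7, 1), (7, 9), (8, 5), (8, 6), (9, 4), (9, 7)]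
    lev := [] }
  links := [[1, 6, 7, 3], [6, 0, 3, 2, 8, 9], [8, 1, 3, 10, 11, 4, 12], [10, 2, 1, 0, 7, 13, 5], [12, 2,
    11, 14], [10, 3, 13, 15]]
  P := {
    a := 6
    N := 16
    nb := [202, 845, 7450, 9383, 22532, 41992, 643, 8265, 4614, 322, 34860, 17428, 16660, 32936, 6160,
      9248]
    tri := [(0, 1, 3), (0, 1, 6), (0, 3, 7), (0, 6, 7), (1, 2, 3), (1, 2, 8), (1, 6, 9), (1, 8, 9), (2,
      3, 10), (2, 4, 11), (2, 4, 12), (2, 8, 12), (2, 10, 11), (3, 5, 10), (3, 5, 13), (3, 7, 13),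
      (4, 11, 14), (4, 12, 14), (5, 10, 15), (5, 13, 15)]
    fin := [0, 1, 2, 1, 2, 1, 0, 1, 2, 9, 1, 2, 12, 13, 14, 15]
    chd := [(1, 9)]
    steps := [(0, 6), (1, 3), (1, 5), (1, 7), (1, 10), (2, 4), (2, 11), (2, 8)] }
  rep := [1, 2, 0, 12, 13, 9, 14, 15]

noncomputable def v1359 : Cov.CovD where
  P := 3
  N := 5
  pl := [0, 6, 7, 8, 9]
  lev := [⟨[], [], [], [2], [(1, 0, [5])]⟩,
    ⟨[], [(0, 0), (0, 1), (0, 5)], [(1, 5)], [2], [(2, 1, []), (3, 5, [0])]⟩,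
    ⟨[(0, 1)], [(1, 0), (1, 1), (1, 5)], [(0, 1), (1, 1)], [3], [(2, 1, []), (4, 0, [5]),
      (5, 1, [])]⟩,
    ⟨[(0, 1), (0, 2), (1, 2)], [(0, 0), (1, 0), (1, 1), (1, 5), (2, 0), (2, 1)], [(0, 0)],
      [4], [(1, 0, [5]), (4, 0, [5])]⟩,
    ⟨[(1, 2), (2, 3)], [(2, 0), (2, 1)], [], [3, 6], [(5, 1, [])]⟩,
    ⟨[(0, 3), (1, 3), (2, 3)], [(2, 0), (3, 0)], [], [4, 7], [(4, 0, [5])]⟩]
  Ta := [((1, 0), 0, 2), ((1, 7), 0, 4), ((2, 3), 1, 5), ((2, 6), 1, 3), ((4, 5), 0, 1), ((4, 9),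
    0, 7), ((5, 4), 1, 0), ((5, 8), 1, 6)]
  Tb := [((0, 1, 3), 2, 0, 5), ((1, 0, 7), 0, 2, 4), ((2, 3, 6), 1, 5, 3), ((3, 0, 2), 5, 2, 1),
    ((4, 5, 9), 0, 1, 7), ((5, 4, 8), 1, 0, 6), ((6, 2, 8), 3, 1, 6), ((7, 1, 9), 4, 0, 7),
    ((8, 5, 6), 6, 1, 3), ((9, 4, 7), 7, 0, 4)]
  Tc := []
  Td := [((0, 5), (1, 0), 2), ((0, 5), (1, 7), 4), ((0, 5), (4, 5), 1), ((0, 5), (4, 9), 7), ((5,
    0), (3, 0), 2), ((5, 0), (3, 2), 1)]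
  G := [[0, 0, 0x12126115115ac811611ac12113ac46, 0xc19d2692a556c18, 0x12669c115b2cc12], [0, 0,
    0x111d4111d11c444d2118a824c92c, 0xc191a96175615ac18, 0x5c99196cc5115ac12], [0, 0, 0,
    0xc2a2681cc5665a41c, 0xcc9a264282ee5ec18], [0, 0x88e6a64cc666a4ca8e14, 0,
    0xcc9aa9681cc5665a41c, 0xcc948aa926652c3cc5841a]]

noncomputable def n1359 : Ent := ⟨e1359, noF, [], [], []⟩

def c1359 : PLift (Cov.check n1359.C.D v1359 = true) := ⟨by decide +kernel⟩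

def b1359 : PLift (entF (fidx ts) 400 1359 n1359 = true) := ⟨by decide +kernel⟩

theorem g1359 : GoodF (fidx ts) 400 1359 := GoodF.ofV v1359 n1359 c1359.down b1359.down

/-- 467745:1081 -/
noncomputable def e1360 : SCfg where
  D := {
    a := 6
    L := 11
    kp := 8
    inn := [(0, 1), (0, 3), (1, 0), (1, 2), (1, 3), (2, 1), (2, 3), (2, 4), (3, 0), (3, 1), (3, 2), (3,
      5), (4, 2), (5, 3)]
    mix := [(0, 0), (0, 1), (1, 0), (1, 2), (1, 3), (2, 2), (2, 4), (2, 5), (2, 6), (3, 1), (3, 4), (3,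
      7), (4, 5), (4, 6), (4, 8), (5, 4), (5, 7), (5, 9), (5, 10)]
    cl := [1, 2, 3, 5, 0, 3, 4, 0, 6, 7, 8]
    chq := [(0, 1), (0, 5), (1, 0), (5, 0)]
    rng := [(0, 1), (0, 3), (1, 0), (1, 7), (2, 3), (2, 6), (3, 0), (3, 2), (4, 5), (4, 10), (5, 4),
      (5, 8), (6, 2), (6, 8), (7, 1), (7, 9), (8, 5), (8, 6), (9, 7), (9, 10), (10, 4), (10, 9)]
    lev := [] }
  links := [[1, 6, 7, 3], [6, 0, 3, 2, 8, 9], [8, 1, 3, 10, 11, 4, 12], [10, 2, 1, 0, 7, 13, 5], [12, 2,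
    11, 14], [10, 3, 13, 15, 16]]
  P := {
    a := 6
    N := 17
    nb := [202, 845, 7450, 9383, 22532, 107528, 643, 8265, 4614, 322, 67628, 17428, 16660, 32936,
      6160, 73760, 33824]
    tri := [(0, 1, 3), (0, 1, 6), (0, 3, 7), (0, 6, 7), (1, 2, 3), (1, 2, 8), (1, 6, 9), (1, 8, 9), (2,
      3, 10), (2, 4, 11), (2, 4, 12), (2, 8, 12), (2, 10, 11), (3, 5, 10), (3, 5, 13), (3, 7, 13),
      (4, 11, 14), (4, 12, 14), (5, 10, 16), (5, 13, 15), (5, 15, 16)]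
    fin := [0, 1, 2, 1, 2, 1, 0, 7, 2, 9, 1, 2, 12, 1, 14, 15, 16]
    chd := [(0, 1), (9, 1)]
    steps := [(0, 6), (1, 3), (1, 5), (1, 13), (1, 10), (2, 4), (2, 11), (2, 8)] }
  rep := [1, 0, 7, 2, 12, 9, 14, 15, 16]

noncomputable def v1360 : Cov.CovD where
  P := 3
  N := 6
  pl := [1, 6, 8, 9, 10]
  lev := [⟨[], [], [], [2], [(0, 1, [0])]⟩,
    ⟨[], [(0, 1), (0, 3), (0, 5)], [(1, 3), (1, 5), (3, 5)], [], [(0, 1, [0]), (2, 3, []),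
      (3, 5, [0])]⟩,
    ⟨[(0, 1)], [(1, 0), (1, 1), (1, 3), (1, 5)], [(0, 3), (3, 3)], [4], [(2, 3, []), (4, 0,
      [1, 5]), (5, 3, [])]⟩,
    ⟨[(0, 1), (0, 2), (1, 2)], [(0, 0), (0, 1), (1, 0), (1, 1), (1, 3), (1, 5), (2, 0), (2,
      3)], [(0, 0)], [2], [(4, 0, [1, 5]), (7, 0, [1, 5])]⟩,
    ⟨[(1, 2), (2, 3)], [(2, 0), (2, 3)], [], [4, 6], [(5, 3, [])]⟩,
    ⟨[(0, 3), (1, 3), (2, 3)], [(2, 0), (3, 0)], [(0, 0)], [7, 8], [(4, 0, [1, 5]), (7, 0,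
      [1, 5])]⟩]
  Ta := [((2, 3), 3, 5), ((2, 6), 3, 4), ((4, 5), 0, 3), ((4, 10), 0, 8), ((5, 4), 3, 0), ((5,
    8), 3, 6), ((7, 1), 0, 2), ((7, 9), 0, 7)]
  Tb := [((0, 1, 3), 1, 2, 5), ((1, 0, 7), 2, 1, 0), ((2, 3, 6), 3, 5, 4), ((3, 0, 2), 5, 1, 3),
    ((4, 5, 10), 0, 3, 8), ((5, 4, 8), 3, 0, 6), ((6, 2, 8), 4, 3, 6), ((7, 1, 9), 0, 2, 7),
    ((8, 5, 6), 6, 3, 4), ((9, 7, 10), 7, 0, 8), ((10, 4, 9), 8, 0, 7)]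
  Tc := [(0, 1, 5)]
  Td := [((0, 1), (4, 5), 3), ((0, 1), (4, 10), 8), ((0, 1), (7, 1), 2), ((0, 1), (7, 9), 7),
    ((0, 5), (4, 5), 3), ((0, 5), (4, 10), 8), ((0, 5), (7, 1), 2), ((0, 5), (7, 9), 7), ((1,
    0), (0, 1), 2), ((1, 0), (0, 3), 5), ((5, 0), (3, 0), 1), ((5, 0), (3, 2), 3)]
  G := [[0, 0x446aa6cee58eec8e14, 0, 0xee94ee34a1ee5841c, 0xee92ee52223cccae18], [0,
    0x4e9481a84ee58ee38e1c, 0, 0xee9481ee58ee3861c, 0xe8eb2e8e72623c1ae18282828259], [0,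
    0x666889ceea8ee38e14, 0xee92ee52ee38e14, 0x446aa9cee58ee38e14, 0xee92ee5266388cae18], [0,
    0x4848161a89cee58ee38e1c, 0xee94ee52ee34e18, 0x4e9481a84ee584e3a2ce1c,
    0xee92ee526638e1883828838259]]

noncomputable def n1360 : Ent := ⟨e1360, noF, [], [], []⟩

def c1360 : PLift (Cov.check n1360.C.D v1360 = true) := ⟨by decide +kernel⟩

def b1360 : PLift (entF (fidx ts) 400 1360 n1360 = true) := ⟨by decide +kernel⟩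

theorem g1360 : GoodF (fidx ts) 400 1360 := GoodF.ofV v1360 n1360 c1360.down b1360.down

/-- 467565:1082 -/
noncomputable def e1361 : SCfg where
  D := {
    a := 6
    L := 11
    kp := 9
    inn := [(0, 1), (1, 0), (1, 2), (2, 1), (2, 3), (2, 4), (2, 5), (3, 2), (3, 4), (4, 2), (4, 3), (4,
      5), (5, 2), (5, 4)]
    mix := [(0, 0), (0, 1), (0, 2), (1, 0), (1, 2), (1, 3), (1, 4), (2, 2), (2, 3), (2, 5), (3, 5), (3,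
      6), (3, 7), (4, 7), (4, 8), (4, 9), (5, 3), (5, 9), (5, 10)]
    cl := [1, 7, 0, 0, 8, 2, 5, 3, 6, 4, 9]
    chq := [(0, 1), (0, 3), (0, 4), (0, 5), (0, 6), (1, 0), (3, 0), (4, 0), (5, 0), (6, 0)]
    rng := [(0, 1), (0, 4), (1, 0), (1, 2), (2, 1), (2, 5), (3, 4), (3, 10), (4, 0), (4, 3), (5, 2),
      (5, 6), (6, 5), (6, 7), (7, 6), (7, 8), (8, 7), (8, 9), (9, 8), (9, 10), (10, 3), (10, 9)]
    lev := [] }
  links := [[1, 6, 7, 8], [6, 0, 8, 2, 9, 10], [9, 1, 8, 11, 3, 4, 5], [4, 2, 11, 12, 13], [5, 2, 3, 13,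
    14, 15], [9, 2, 4, 15, 16]]
  P := {
    a := 6
    N := 17
    nb := [450, 1861, 2874, 14356, 57388, 98836, 1155, 321, 2183, 66598, 578, 4364, 10248, 20504,
      40976, 81968, 33312]
    tri := [(0, 1, 6), (0, 1, 8), (0, 6, 7), (0, 7, 8), (1, 2, 8), (1, 2, 9), (1, 6, 10), (1, 9, 10),
      (2, 3, 4), (2, 3, 11), (2, 4, 5), (2, 5, 9), (2, 8, 11), (3, 4, 13), (3, 11, 12), (3, 12,
      13), (4, 5, 15), (4, 13, 14), (4, 14, 15), (5, 9, 16), (5, 15, 16)]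
    fin := [0, 0, 2, 2, 2, 2, 0, 7, 2, 2, 10, 11, 12, 13, 14, 15, 16]
    chd := [(0, 2), (2, 12), (2, 13), (2, 14), (2, 15)]
    steps := [(0, 1), (0, 6), (2, 3), (2, 4), (2, 5), (2, 8), (2, 9)] }
  rep := [2, 0, 11, 13, 15, 12, 14, 7, 10, 16]

noncomputable def v1361 : Cov.CovD where
  P := 3
  N := 7
  pl := [1, 4, 5, 10]
  lev := [⟨[], [], [(0, 1)], [7], [(0, 1, [0]), (2, 0, [1, 3, 4, 5, 6])]⟩,
    ⟨[], [(0, 0), (0, 1)], [(0, 0), (0, 1)], [8], [(0, 1, [0]), (2, 0, [1, 3, 4, 5, 6]),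
      (3, 0, [1, 3, 4, 5, 6])]⟩,
    ⟨[(0, 1)], [(0, 0), (1, 0), (1, 1)], [(0, 0)], [2], [(2, 0, [1, 3, 4, 5, 6]), (3, 0,
      [1, 3, 4, 5, 6])]⟩,
    ⟨[(1, 2)], [(2, 0), (2, 3), (2, 5)], [(3, 5)], [2], [(6, 5, [0]), (7, 3, [0])]⟩,
    ⟨[(1, 2), (2, 3)], [(2, 0), (2, 3), (2, 4), (2, 6), (3, 3), (3, 4), (3, 5), (3, 6)],
      [(3, 4), (3, 6), (4, 6)], [], [(7, 3, [0]), (8, 6, [0]), (9, 4, [0])]⟩,
    ⟨[(1, 2), (2, 3), (2, 4), (3, 4)], [(1, 0), (2, 0), (2, 4), (4, 0), (4, 3), (4, 4), (4,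
      6)], [(0, 4)], [9], [(3, 0, [1, 3, 4, 5, 6]), (9, 4, [0])]⟩]
  Ta := [((2, 1), 0, 7), ((2, 5), 0, 2), ((3, 4), 0, 8), ((3, 10), 0, 9)]
  Tb := [((0, 1, 4), 1, 7, 8), ((1, 0, 2), 7, 1, 0), ((2, 1, 5), 0, 7, 2), ((3, 4, 10), 0, 8, 9),
    ((4, 0, 3), 8, 1, 0), ((5, 2, 6), 2, 0, 5), ((6, 5, 7), 5, 2, 3), ((7, 6, 8), 3, 5, 6),
    ((8, 7, 9), 6, 3, 4), ((9, 8, 10), 4, 6, 9), ((10, 3, 9), 9, 0, 4)]
  Tc := [(0, 1, 3), (0, 1, 4), (0, 1, 5), (0, 1, 6), (0, 3, 4), (0, 3, 5), (0, 3, 6), (0, 4, 5),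
    (0, 4, 6), (0, 5, 6)]
  Td := [((0, 1), (2, 1), 7), ((0, 1), (2, 5), 2), ((0, 1), (3, 4), 8), ((0, 1), (3, 10), 9),
    ((0, 3), (2, 1), 7), ((0, 3), (2, 5), 2), ((0, 3), (3, 4), 8), ((0, 3), (3, 10), 9), ((0,
    4), (2, 1), 7), ((0, 4), (2, 5), 2), ((0, 4), (3, 4), 8), ((0, 4), (3, 10), 9), ((0, 5),
    (2, 1), 7), ((0, 5), (2, 5), 2), ((0, 5), (3, 4), 8), ((0, 5), (3, 10), 9), ((0, 6), (2,
    1), 7), ((0, 6), (2, 5), 2), ((0, 6), (3, 4), 8), ((0, 6), (3, 10), 9), ((1, 0), (0, 1),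
    7), ((1, 0), (0, 4), 8), ((3, 0), (7, 6), 5), ((3, 0), (7, 8), 6), ((4, 0), (9, 8), 6),
    ((4, 0), (9, 10), 9), ((5, 0), (6, 5), 2), ((5, 0), (6, 7), 3), ((6, 0), (8, 7), 3), ((6,
    0), (8, 9), 4)]
  G := [[0, 0xe1182e1148e1184e, 0xe1a1e1e414661e1e1e818ace1a1e1e4146212e1e1c1eacc,
    0x7bbef1441e17cbefd8ccbeef1441e17cbefd8c614e181cca184cd,
    0xe1c1abdefb23e918ce1c1addefb2ae912c212861e14eaeb818acd], [0, 0xe1148e1184e1142e, 0,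
    0x614e181cbdefdc41e17ceefda18cc1, 0x212e1c1d7defba212e1c1dddefbac1]]

noncomputable def n1361 : Ent := ⟨e1361, noF, [], [], []⟩

def c1361 : PLift (Cov.check n1361.C.D v1361 = true) := ⟨by decide +kernel⟩

def b1361 : PLift (entF (fidx ts) 400 1361 n1361 = true) := ⟨by decide +kernel⟩

theorem g1361 : GoodF (fidx ts) 400 1361 := GoodF.ofV v1361 n1361 c1361.down b1361.down

/-- 467556:1083 -/
noncomputable def e1362 : SCfg where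
  D := {
    a := 6
    L := 11
    kp := 8
    inn := [(0, 1), (0, 5), (1, 0), (1, 2), (1, 5), (2, 1), (2, 3), (2, 4), (2, 5), (3, 2), (4, 2), (5,
      0), (5, 1), (5, 2)]
    mix := [(0, 0), (0, 1), (1, 0), (1, 2), (1, 3), (2, 2), (2, 4), (2, 5), (3, 4), (3, 5), (3, 6), (3,
      7), (4, 2), (4, 5), (4, 8), (4, 9), (5, 1), (5, 4), (5, 10)]
    cl := [1, 2, 0, 4, 0, 0, 5, 6, 7, 8, 3]
    chq := [(0, 1), (1, 0), (1, 3), (3, 1)]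
    rng := [(0, 1), (0, 3), (1, 0), (1, 10), (2, 3), (2, 9), (3, 0), (3, 2), (4, 6), (4, 10), (5, 7),
      (5, 8), (6, 4), (6, 7), (7, 5), (7, 6), (8, 5), (8, 9), (9, 2), (9, 8), (10, 1), (10, 4)]
    lev := [] }
  links := [[1, 6, 7, 5], [6, 0, 5, 2, 8, 9], [8, 1, 5, 10, 3, 11, 4], [11, 2, 10, 12, 13], [8, 2, 11,
    14, 15], [10, 2, 1, 0, 7, 16]]
  P := {
    a := 6
    N := 17
    nb := [226, 869, 3386, 15364, 51460, 66695, 643, 65633, 33302, 322, 69676, 24604, 9224, 6152,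
      34832, 16656, 1184]
    tri := [(0, 1, 5), (0, 1, 6), (0, 5, 7), (0, 6, 7), (1, 2, 5), (1, 2, 8), (1, 6, 9), (1, 8, 9), (2,
      3, 10), (2, 3, 11), (2, 4, 8), (2, 4, 11), (2, 5, 10), (3, 10, 12), (3, 11, 13), (3, 12,
      13), (4, 8, 15), (4, 11, 14), (4, 14, 15), (5, 7, 16), (5, 10, 16)]
    fin := [0, 0, 0, 3, 3, 0, 0, 7, 3, 9, 3, 3, 12, 13, 14, 15, 16]
    chd := [(0, 3), (0, 16)]
    steps := [(0, 1), (0, 2), (0, 5), (0, 6), (3, 10), (3, 11), (3, 4), (3, 8)] }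
  rep := [3, 0, 7, 16, 9, 12, 13, 14, 15]

noncomputable def v1362 : Cov.CovD where
  P := 3
  N := 6
  pl := [1, 3, 6, 7, 8, 9]
  lev := [⟨[], [], [], [2], [(0, 1, [0, 3])]⟩,
    ⟨[], [(0, 0), (0, 1)], [(0, 1)], [4], [(0, 1, [0, 3]), (2, 0, [1])]⟩,
    ⟨[(0, 1)], [(1, 0), (1, 1)], [(0, 0)], [], [(2, 0, [1]), (4, 0, [1]), (5, 0, [1])]⟩,
    ⟨[(1, 2)], [(2, 0)], [(0, 0)], [5, 6], [(4, 0, [1]), (5, 0, [1])]⟩,
    ⟨[(1, 2), (2, 3)], [(1, 0), (2, 0), (3, 0)], [(0, 0)], [7, 8], [(2, 0, [1]), (5, 0,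
      [1])]⟩,
    ⟨[(0, 1), (0, 2), (1, 2), (2, 3), (2, 4)], [(0, 0), (0, 1), (0, 3), (1, 0), (1, 1), (1,
      3), (2, 0), (2, 3), (3, 0)], [(0, 3)], [2], [(4, 0, [1]), (10, 3, [1])]⟩]
  Ta := [((2, 3), 0, 4), ((2, 9), 0, 8), ((4, 6), 0, 5), ((4, 10), 0, 3), ((5, 7), 0, 6), ((5,
    8), 0, 7)]
  Tb := [((0, 1, 3), 1, 2, 4), ((1, 0, 10), 2, 1, 3), ((2, 3, 9), 0, 4, 8), ((3, 0, 2), 4, 1, 0),
    ((4, 6, 10), 0, 5, 3), ((5, 7, 8), 0, 6, 7), ((6, 4, 7), 5, 0, 6), ((7, 5, 6), 6, 0, 5),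
    ((8, 5, 9), 7, 0, 8), ((9, 2, 8), 8, 0, 7), ((10, 1, 4), 3, 2, 0)]
  Tc := [(1, 0, 3)]
  Td := [((0, 1), (2, 3), 4), ((0, 1), (2, 9), 8), ((0, 1), (4, 6), 5), ((0, 1), (4, 10), 3),
    ((0, 1), (5, 7), 6), ((0, 1), (5, 8), 7), ((1, 0), (0, 1), 2), ((1, 0), (0, 3), 4), ((1,
    3), (0, 1), 2), ((1, 3), (0, 3), 4), ((3, 1), (10, 1), 2), ((3, 1), (10, 4), 0)]
  G := [[0, 0x111e82111e111e6188a116111e111ee8e4, 0x222e22a222ee6446226222e222ee288cc8,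
    0x122111e111e11cea122111e111e11ceac4, 0x222e211ea111e4624211e111ee12a8cc8], [0,
    0x111e11a111ee1446144111e11a111eeca8, 0x222e4222e222eac14, 0xc22ccceccceccce618,
    0x222e4222e222eac18], [0, 0x111e111ea111e46122111e111e11ceac8, 0x222e4222e222eac18,
    0xc2288c844cecccecccee14, 0x244222e22a222eec18]]

noncomputable def n1362 : Ent := ⟨e1362, noF, [], [], []⟩

def c1362 : PLift (Cov.check n1362.C.D v1362 = true) := ⟨by decide +kernel⟩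

def b1362 : PLift (entF (fidx ts) 400 1362 n1362 = true) := ⟨by decide +kernel⟩

theorem g1362 : GoodF (fidx ts) 400 1362 := GoodF.ofV v1362 n1362 c1362.down b1362.down

/-- 487445:1084 -/
noncomputable def e1363 : SCfg where
  D := {
    a := 6
    L := 10
    kp := 7
    inn := [(0, 1), (1, 0), (1, 2), (1, 3), (1, 4), (1, 5), (2, 1), (2, 3), (2, 5), (3, 1), (3, 2), (4,
      1), (5, 1), (5, 2)]
    mix := [(0, 0), (0, 1), (0, 2), (1, 0), (1, 2), (1, 3), (2, 4), (2, 5), (2, 6), (2, 7), (3, 3), (3,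
      7), (4, 0), (4, 3), (4, 8), (5, 2), (5, 4), (5, 9)]
    cl := [2, 3, 0, 0, 1, 4, 5, 1, 6, 7]
    chq := [(0, 2), (2, 0)]
    rng := [(0, 1), (0, 8), (1, 0), (1, 2), (2, 1), (2, 9), (3, 7), (3, 8), (4, 5), (4, 9), (5, 4), (5,
      6), (6, 5), (6, 7), (7, 3), (7, 6), (8, 0), (8, 3), (9, 2), (9, 4)]
    lev := [] }
  links := [[1, 6, 7, 8], [6, 0, 8, 5, 2, 3, 9, 4], [3, 1, 5, 10, 11, 12, 13], [9, 1, 2, 13], [6, 1, 9,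
    14], [10, 2, 1, 8, 15]]
  P := {
    a := 6
    N := 16
    nb := [450, 893, 15402, 8710, 16962, 34054, 16531, 321, 32931, 24602, 34852, 5124, 10244, 4620,
      592, 1312]
    tri := [(0, 1, 6), (0, 1, 8), (0, 6, 7), (0, 7, 8), (1, 2, 3), (1, 2, 5), (1, 3, 9), (1, 4, 6), (1,
      4, 9), (1, 5, 8), (2, 3, 13), (2, 5, 10), (2, 10, 11), (2, 11, 12), (2, 12, 13), (3, 9, 13),
      (4, 6, 14), (4, 9, 14), (5, 8, 15), (5, 10, 15)]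
    fin := [0, 1, 2, 1, 0, 1, 0, 7, 1, 1, 2, 11, 12, 2, 14, 15]
    chd := [(0, 1)]
    steps := [(0, 6), (0, 4), (1, 3), (1, 5), (1, 8), (1, 9), (2, 10), (2, 13)] }
  rep := [1, 2, 0, 7, 11, 12, 14, 15]

noncomputable def v1363 : Cov.CovD where
  P := 3
  N := 5
  pl := [1, 5, 6, 8, 9]
  lev := [⟨[], [], [(0, 2)], [3], [(0, 2, [0]), (2, 0, [2])]⟩,
    ⟨[], [(0, 0), (0, 2)], [(0, 0), (0, 2)], [], [(0, 2, [0]), (2, 0, [2]), (3, 0, [2])]⟩,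
    ⟨[(0, 1)], [(1, 0), (1, 1), (1, 2)], [(1, 1)], [4, 5], [(4, 1, []), (7, 1, [])]⟩,
    ⟨[(0, 1), (1, 2)], [(1, 0), (1, 1), (1, 2), (2, 0), (2, 1)], [(0, 1)], [], [(3, 0,
      [2]), (7, 1, [])]⟩,
    ⟨[(0, 1), (1, 2), (1, 3)], [(0, 2), (1, 0), (1, 2), (3, 0)], [(0, 2)], [6], [(0, 2,
      [0]), (3, 0, [2])]⟩,
    ⟨[(0, 1), (1, 2), (1, 3), (1, 4), (2, 3)], [(0, 0), (1, 0), (1, 1), (1, 2), (2, 0), (2,
      1)], [(0, 1)], [7], [(2, 0, [2]), (4, 1, [])]⟩]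
  Ta := [((2, 1), 0, 3), ((2, 9), 0, 7), ((3, 7), 0, 1), ((3, 8), 0, 6), ((4, 5), 1, 4), ((4, 9),
    1, 7), ((7, 3), 1, 0), ((7, 6), 1, 5)]
  Tb := [((0, 1, 8), 2, 3, 6), ((1, 0, 2), 3, 2, 0), ((2, 1, 9), 0, 3, 7), ((3, 7, 8), 0, 1, 6),
    ((4, 5, 9), 1, 4, 7), ((5, 4, 6), 4, 1, 5), ((6, 5, 7), 5, 4, 1), ((7, 3, 6), 1, 0, 5),
    ((8, 0, 3), 6, 2, 0), ((9, 2, 4), 7, 0, 1)]
  Tc := []
  Td := [((0, 2), (2, 1), 3), ((0, 2), (2, 9), 7), ((0, 2), (3, 7), 1), ((0, 2), (3, 8), 6), ((2,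
    0), (0, 1), 3), ((2, 0), (0, 8), 6)]
  G := [[0, 0, 0x116411a4ccc8d2116811a4cca8d2c, 0x4124c12812c12dc4144181ac14d8128cc,
    0xc14c18c14d24181cc18c18d2a], [0, 0, 0x2264111c411c4ca2268111c81164cac,
    0x214218218d4214218218d8c, 0x2142145c148a214214218d8a], [0, 0,
    0x11a811a8cc64d211c411c1ccc4d26, 0x4424cc24cc4dc8c2888882dc1, 0xcca4cca8cca4d21], [0,
    0x642468a4aa82a4a8cec1, 0x126412c12264d8226121c422a4d86, 0x22c4422c822c89c1,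
    0x184821888222422a422a4d8b]]

noncomputable def n1363 : Ent := ⟨e1363, noF, [], [], []⟩

def c1363 : PLift (Cov.check n1363.C.D v1363 = true) := ⟨by decide +kernel⟩

def b1363 : PLift (entF (fidx ts) 400 1363 n1363 = true) := ⟨by decide +kernel⟩

theorem g1363 : GoodF (fidx ts) 400 1363 := GoodF.ofV v1363 n1363 c1363.down b1363.down

/-- 467745:1088/1 -/
noncomputable def e1364 : SCfg where
  D := {
    a := 6
    L := 10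
    kp := 7
    inn := [(0, 1), (0, 3), (1, 0), (1, 2), (1, 3), (2, 1), (2, 3), (2, 4), (3, 0), (3, 1), (3, 2), (3,
      5), (4, 2), (5, 3)]
    mix := [(0, 0), (0, 1), (1, 0), (1, 2), (1, 3), (2, 2), (2, 4), (2, 5), (2, 6), (3, 1), (3, 4), (3,
      7), (4, 2), (4, 6), (4, 8), (5, 1), (5, 7), (5, 8), (5, 9)]
    cl := [3, 1, 0, 6, 0, 5, 4, 1, 2, 7]
    chq := [(0, 3), (2, 5), (3, 0), (5, 2)]
    rng := [(0, 1), (0, 3), (1, 0), (1, 8), (2, 3), (2, 8), (3, 0), (3, 2), (4, 5), (4, 7), (5, 4), (5,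
      6), (6, 5), (6, 8), (7, 4), (7, 9), (8, 1), (8, 2), (8, 6), (8, 9), (9, 7), (9, 8)]
    lev := [] }
  links := [[1, 6, 7, 3], [6, 0, 3, 2, 8, 9], [8, 1, 3, 10, 11, 12, 4], [10, 2, 1, 0, 7, 5, 13], [8, 2,
    12, 14], [13, 3, 7, 14, 15]]
  P := {
    a := 6
    N := 16
    nb := [202, 845, 7450, 9383, 20740, 57480, 643, 16489, 16918, 322, 10252, 5124, 18452, 33832,
      37296, 24608]
    tri := [(0, 1, 3), (0, 1, 6), (0, 3, 7), (0, 6, 7), (1, 2, 3), (1, 2, 8), (1, 6, 9), (1, 8, 9), (2,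
      3, 10), (2, 4, 8), (2, 4, 12), (2, 10, 11), (2, 11, 12), (3, 5, 7), (3, 5, 13), (3, 10, 13),
      (4, 8, 14), (4, 12, 14), (5, 7, 14), (5, 13, 15), (5, 14, 15)]
    fin := [0, 1, 2, 1, 2, 5, 0, 5, 1, 9, 1, 11, 12, 5, 2, 15]
    chd := [(0, 1), (11, 2)]
    steps := [(0, 6), (1, 3), (1, 10), (1, 8), (2, 4), (2, 14), (5, 7), (5, 13)] }
  rep := [1, 5, 2, 0, 12, 11, 9, 15]

noncomputable def v1364 : Cov.CovD where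
  P := 3
  N := 5
  pl := [3, 6, 9]
  lev := [⟨[], [], [(1, 3)], [], [(0, 3, [0]), (1, 1, [])]⟩,
    ⟨[], [(0, 0), (0, 1), (0, 3)], [(0, 3)], [6], [(0, 3, [0]), (2, 0, [3])]⟩,
    ⟨[(0, 1)], [(1, 0), (1, 3), (1, 5)], [(0, 0), (0, 5)], [4], [(2, 0, [3]), (4, 0, [3]),
      (5, 5, [2])]⟩,
    ⟨[(0, 1), (0, 2), (1, 2)], [(0, 0), (0, 1), (0, 3), (1, 0), (1, 1), (1, 3), (2, 0), (2,
      1), (2, 5)], [(0, 1), (1, 1)], [], [(1, 1, []), (4, 0, [3]), (7, 1, [])]⟩,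
    ⟨[(1, 2), (2, 3)], [(1, 0), (2, 0), (2, 2), (2, 5)], [(0, 2)], [4], [(2, 0, [3]), (8,
      2, [5])]⟩,
    ⟨[(0, 3), (1, 3), (2, 3)], [(0, 1), (3, 0), (3, 1), (3, 2), (4, 2)], [(1, 1), (1, 2)],
      [7], [(1, 1, []), (7, 1, []), (8, 2, [5])]⟩]
  Ta := [((1, 0), 1, 3), ((1, 8), 1, 2), ((2, 3), 0, 6), ((2, 8), 0, 2), ((4, 5), 0, 5), ((4, 7),
    0, 1), ((7, 4), 1, 0), ((7, 9), 1, 7)]
  Tb := [((0, 1, 3), 3, 1, 6), ((1, 0, 8), 1, 3, 2), ((2, 3, 8), 0, 6, 2), ((3, 0, 2), 6, 3, 0),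
    ((4, 5, 7), 0, 5, 1), ((5, 4, 6), 5, 0, 4), ((6, 5, 8), 4, 5, 2), ((7, 4, 9), 1, 0, 7),
    ((8, 1, 2), 2, 1, 0), ((8, 1, 6), 2, 1, 4), ((8, 1, 9), 2, 1, 7), ((8, 2, 6), 2, 0, 4),
    ((8, 2, 9), 2, 0, 7), ((8, 6, 9), 2, 4, 7), ((9, 7, 8), 7, 1, 2)]
  Tc := []
  Td := [((0, 3), (2, 3), 6), ((0, 3), (2, 8), 2), ((0, 3), (4, 5), 5), ((0, 3), (4, 7), 1), ((2,
    5), (8, 1), 1), ((2, 5), (8, 2), 0), ((2, 5), (8, 6), 4), ((2, 5), (8, 9), 7), ((3, 0),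
    (0, 1), 1), ((3, 0), (0, 3), 6), ((5, 2), (5, 4), 0), ((5, 2), (5, 6), 4)]
  G := [[0, 0, 0xc4148c81c28a4cc64c24acca84c84c48ccc4eed, 0x55c4299c429cc42e1,
    0x92451a88ac924e98499a8924e92499a8988ee1], [0, 0,
    0x48184cc644488acc24e884cca8c28ec84c48ccc4ee5, 0,
    0x92441a98ac924e98499a8928e92499a8988ee1], [0, 0, 0, 0x55c8295c82c9542e1,
    0x98499a8928e191499941282ce984918988ea5], [0, 0xc84c42ccc4e1c44c48ccc4e1a, 0, 0,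
    0x92411819984e98499a8924e9984918988e23]]

noncomputable def n1364 : Ent := ⟨e1364, noF, [], [], []⟩

def c1364 : PLift (Cov.check n1364.C.D v1364 = true) := ⟨by decide +kernel⟩

def b1364 : PLift (entF (fidx ts) 400 1364 n1364 = true) := ⟨by decide +kernel⟩

theorem g1364 : GoodF (fidx ts) 400 1364 := GoodF.ofV v1364 n1364 c1364.down b1364.down

/-- 467745:1088/2 -/
noncomputable def e1365 : SCfg where
  D := {
    a := 6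
    L := 10
    kp := 7
    inn := [(0, 1), (0, 3), (1, 0), (1, 2), (1, 3), (2, 1), (2, 3), (2, 4), (3, 0), (3, 1), (3, 2), (3,
      5), (4, 2), (5, 3)]
    mix := [(0, 0), (0, 1), (1, 0), (1, 2), (1, 3), (2, 2), (2, 4), (2, 5), (2, 6), (3, 1), (3, 4), (3,
      7), (4, 2), (4, 6), (4, 8), (5, 1), (5, 7), (5, 8), (5, 9)]
    cl := [3, 1, 0, 6, 0, 5, 4, 1, 2, 7]
    chq := [(0, 3), (2, 5), (3, 0), (5, 2)]
    rng := [(0, 1), (0, 3), (1, 0), (1, 9), (2, 3), (2, 8), (3, 0), (3, 2), (4, 5), (4, 7), (5, 4), (5,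
      6), (6, 5), (6, 8), (7, 4), (7, 8), (8, 2), (8, 6), (8, 7), (8, 9), (9, 1), (9, 8)]
    lev := [] }
  links := [[1, 6, 7, 3], [6, 0, 3, 2, 8, 9], [8, 1, 3, 10, 11, 12, 4], [10, 2, 1, 0, 7, 5, 13], [8, 2,
    12, 14], [13, 3, 7, 15, 14]]
  P := {
    a := 6
    N := 16
    nb := [202, 845, 7450, 9383, 20740, 57480, 643, 32873, 16918, 322, 10252, 5124, 18452, 17448,
      45360, 16544]
    tri := [(0, 1, 3), (0, 1, 6), (0, 3, 7), (0, 6, 7), (1, 2, 3), (1, 2, 8), (1, 6, 9), (1, 8, 9), (2,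
      3, 10), (2, 4, 8), (2, 4, 12), (2, 10, 11), (2, 11, 12), (3, 5, 7), (3, 5, 13), (3, 10, 13),
      (4, 8, 14), (4, 12, 14), (5, 7, 15), (5, 13, 14), (5, 14, 15)]
    fin := [0, 1, 2, 1, 2, 5, 0, 5, 1, 9, 1, 11, 12, 5, 2, 15]
    chd := [(0, 1), (11, 2)]
    steps := [(0, 6), (1, 3), (1, 10), (1, 8), (2, 4), (2, 14), (5, 7), (5, 13)] }
  rep := [1, 5, 2, 0, 12, 11, 9, 15]

noncomputable def v1365 : Cov.CovD where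
  P := 3
  N := 5
  pl := [3, 6, 9]
  lev := [⟨[], [], [(1, 3)], [], [(0, 3, [0]), (1, 1, [])]⟩,
    ⟨[], [(0, 0), (0, 1), (0, 3)], [(0, 3)], [6], [(0, 3, [0]), (2, 0, [3])]⟩,
    ⟨[(0, 1)], [(1, 0), (1, 3), (1, 5)], [(0, 0), (0, 5)], [4], [(2, 0, [3]), (4, 0, [3]),
      (5, 5, [2])]⟩,
    ⟨[(0, 1), (0, 2), (1, 2)], [(0, 0), (0, 1), (0, 3), (1, 0), (1, 1), (1, 3), (2, 0), (2,
      1), (2, 5)], [(0, 1), (1, 1)], [], [(1, 1, []), (4, 0, [3]), (7, 1, [])]⟩,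
    ⟨[(1, 2), (2, 3)], [(1, 0), (2, 0), (2, 2), (2, 5)], [(0, 2)], [4], [(2, 0, [3]), (8,
      2, [5])]⟩,
    ⟨[(0, 3), (1, 3), (2, 3)], [(0, 1), (3, 0), (3, 1), (3, 2), (4, 2)], [(1, 1), (1, 2)],
      [7], [(1, 1, []), (7, 1, []), (8, 2, [5])]⟩]
  Ta := [((1, 0), 1, 3), ((1, 9), 1, 7), ((2, 3), 0, 6), ((2, 8), 0, 2), ((4, 5), 0, 5), ((4, 7),
    0, 1), ((7, 4), 1, 0), ((7, 8), 1, 2)]
  Tb := [((0, 1, 3), 3, 1, 6), ((1, 0, 9), 1, 3, 7), ((2, 3, 8), 0, 6, 2), ((3, 0, 2), 6, 3, 0),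
    ((4, 5, 7), 0, 5, 1), ((5, 4, 6), 5, 0, 4), ((6, 5, 8), 4, 5, 2), ((7, 4, 8), 1, 0, 2),
    ((8, 2, 6), 2, 0, 4), ((8, 2, 7), 2, 0, 1), ((8, 2, 9), 2, 0, 7), ((8, 6, 7), 2, 4, 1),
    ((8, 6, 9), 2, 4, 7), ((8, 7, 9), 2, 1, 7), ((9, 1, 8), 7, 1, 2)]
  Tc := []
  Td := [((0, 3), (2, 3), 6), ((0, 3), (2, 8), 2), ((0, 3), (4, 5), 5), ((0, 3), (4, 7), 1), ((2,
    5), (8, 2), 0), ((2, 5), (8, 6), 4), ((2, 5), (8, 7), 1), ((2, 5), (8, 9), 7), ((3, 0),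
    (0, 1), 1), ((3, 0), (0, 3), 6), ((5, 2), (5, 4), 0), ((5, 2), (5, 6), 4)]
  G := [[0, 0, 0xc8184cc644488ac4282cecca8c286c84c48ccc8ee5, 0,
    0x92451a88ac924e98499a8928e98499a8984ee1], [0, 0, 0xcc64c41c24ec81cca1c28ecc84c48ccc4e23,
    0x9cc4259c8255c82e1, 0x92451a88ac924e98499a8928e98499a8988ee1], [0, 0, 0, 0,
    0x9149994924e984918928e1188c9998918ee1], [0, 0xc42c42ccc4e1c84c42ccc4e1a, 0,
    0x9994295c425418d8223, 0x984928a19149246984918914e9849938ce3]]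

noncomputable def n1365 : Ent := ⟨e1365, noF, [], [], []⟩

def c1365 : PLift (Cov.check n1365.C.D v1365 = true) := ⟨by decide +kernel⟩

def b1365 : PLift (entF (fidx ts) 400 1365 n1365 = true) := ⟨by decide +kernel⟩

theorem g1365 : GoodF (fidx ts) 400 1365 := GoodF.ofV v1365 n1365 c1365.down b1365.down

/-- 467745:1088 -/
noncomputable def e1366 : SCfg where
  D := {
    a := 6
    L := 11
    kp := 8
    inn := [(0, 1), (0, 3), (1, 0), (1, 2), (1, 3), (2, 1), (2, 3), (2, 4), (3, 0), (3, 1), (3, 2), (3,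
      5), (4, 2), (5, 3)]
    mix := [(0, 0), (0, 1), (1, 0), (1, 2), (1, 3), (2, 2), (2, 4), (2, 5), (2, 6), (3, 1), (3, 4), (3,
      7), (4, 2), (4, 6), (4, 8), (5, 1), (5, 7), (5, 9), (5, 10)]
    cl := [2, 1, 0, 6, 0, 4, 3, 1, 5, 7, 8]
    chq := [(0, 2), (2, 0), (4, 5), (5, 4)]
    rng := [(0, 1), (0, 3), (1, 0), (1, 9), (2, 3), (2, 8), (3, 0), (3, 2), (4, 5), (4, 7), (5, 4), (5,
      6), (6, 5), (6, 8), (7, 4), (7, 10), (8, 2), (8, 6), (9, 1), (9, 10), (10, 7), (10, 9)]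
    lev := [] }
  links := [[1, 6, 7, 3], [6, 0, 3, 2, 8, 9], [8, 1, 3, 10, 11, 12, 4], [10, 2, 1, 0, 7, 5, 13], [8, 2,
    12, 14], [13, 3, 7, 15, 16]]
  P := {
    a := 6
    N := 17
    nb := [202, 845, 7450, 9383, 20740, 106632, 643, 32873, 16918, 322, 10252, 5124, 18452, 66600,
      4368, 65696, 40992]
    tri := [(0, 1, 3), (0, 1, 6), (0, 3, 7), (0, 6, 7), (1, 2, 3), (1, 2, 8), (1, 6, 9), (1, 8, 9), (2,
      3, 10), (2, 4, 8), (2, 4, 12), (2, 10, 11), (2, 11, 12), (3, 5, 7), (3, 5, 13), (3, 10, 13),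
      (4, 8, 14), (4, 12, 14), (5, 7, 15), (5, 13, 16), (5, 15, 16)]
    fin := [0, 1, 2, 1, 2, 5, 0, 5, 1, 9, 1, 2, 12, 5, 14, 15, 16]
    chd := [(0, 1), (2, 14)]
    steps := [(0, 6), (1, 3), (1, 10), (1, 8), (2, 4), (2, 11), (5, 7), (5, 13)] }
  rep := [1, 5, 0, 12, 2, 14, 9, 15, 16]

noncomputable def v1366 : Cov.CovD where
  P := 3
  N := 6
  pl := [3, 6, 9, 10]
  lev := [⟨[], [], [(1, 2)], [], [(0, 2, [0]), (1, 1, [])]⟩,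
    ⟨[], [(0, 0), (0, 1), (0, 2)], [(0, 2)], [6], [(0, 2, [0]), (2, 0, [2])]⟩,
    ⟨[(0, 1)], [(1, 0), (1, 2), (1, 4)], [(0, 0), (0, 4)], [3], [(2, 0, [2]), (4, 0, [2]),
      (5, 4, [5])]⟩,
    ⟨[(0, 1), (0, 2), (1, 2)], [(0, 0), (0, 1), (0, 2), (1, 0), (1, 1), (1, 2), (2, 0), (2,
      1), (2, 4)], [(0, 1), (1, 1)], [], [(1, 1, []), (4, 0, [2]), (7, 1, [])]⟩,
    ⟨[(1, 2), (2, 3)], [(1, 0), (2, 0), (2, 4), (2, 5)], [(0, 5)], [3], [(2, 0, [2]), (8,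
      5, [4])]⟩,
    ⟨[(0, 3), (1, 3), (2, 3)], [(0, 1), (3, 0), (3, 1)], [(1, 1)], [7, 8], [(1, 1, []), (7,
      1, [])]⟩]
  Ta := [((1, 0), 1, 2), ((1, 9), 1, 7), ((2, 3), 0, 6), ((2, 8), 0, 5), ((4, 5), 0, 4), ((4, 7),
    0, 1), ((7, 4), 1, 0), ((7, 10), 1, 8)]
  Tb := [((0, 1, 3), 2, 1, 6), ((1, 0, 9), 1, 2, 7), ((2, 3, 8), 0, 6, 5), ((3, 0, 2), 6, 2, 0),
    ((4, 5, 7), 0, 4, 1), ((5, 4, 6), 4, 0, 3), ((6, 5, 8), 3, 4, 5), ((7, 4, 10), 1, 0, 8),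
    ((8, 2, 6), 5, 0, 3), ((9, 1, 10), 7, 1, 8), ((10, 7, 9), 8, 1, 7)]
  Tc := []
  Td := [((0, 2), (2, 3), 6), ((0, 2), (2, 8), 5), ((0, 2), (4, 5), 4), ((0, 2), (4, 7), 1), ((2,
    0), (0, 1), 1), ((2, 0), (0, 3), 6), ((4, 5), (5, 4), 0), ((4, 5), (5, 6), 3), ((5, 4),
    (8, 2), 0), ((5, 4), (8, 6), 3)]
  G := [[0, 0, 0x119c1951c8c96155c83984458917ccd981d98ee4,
    0x196c46551a8ca911cccc9e5568869ddc8acdda8445, 0xdd6454a89acddc4edd64dda8ddc8ea1], [0, 0,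
    0x446995cdd98d18ed14dd38dd54e61, 0, 0xdd6455a88acddc4edd64dda8ddc4ea1], [0, 0,
    0x55a889c4455198dcd18acd34d18ddc8ee1, 0xdd6455a88acddc4e18, 0xdd6444a99acddc4e18], [0,
    0xee62eea2eec4e18, 0xdd64459989c5181cecddb4dd981d54ea1, 0, 0xdd64dda8ddc4e12]]

noncomputable def n1366 : Ent := ⟨e1366, noF, [], [], [(15, 14, [1685382413448253767852309107433119732572617628602273068445370499073, 0]), (16, 14, [1580095832788404724998799751142926758855362888449624481876424347649, 0])]⟩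

def c1366 : PLift (Cov.check n1366.C.D v1366 = true) := ⟨by decide +kernel⟩

def b1366 : PLift (entF (fidx ts) 400 1366 n1366 = true) := ⟨by decide +kernel⟩

theorem g1366 : GoodF (fidx ts) 400 1366 := GoodF.ofV v1366 n1366 c1366.down b1366.down

/-- 467744:1089 -/
noncomputable def e1367 : SCfg where
  D := {
    a := 6
    L := 10
    kp := 7
    inn := [(0, 1), (0, 3), (1, 0), (1, 2), (1, 3), (2, 1), (2, 3), (2, 4), (3, 0), (3, 1), (3, 2), (3,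
      5), (4, 2), (5, 3)]
    mix := [(0, 0), (0, 1), (1, 0), (1, 2), (1, 3), (2, 2), (2, 4), (2, 5), (2, 6), (3, 1), (3, 4), (3,
      7), (4, 2), (4, 6), (4, 8), (5, 4), (5, 7), (5, 9)]
    cl := [2, 0, 1, 5, 0, 1, 3, 4, 6, 7]
    chq := [(0, 5), (5, 0)]
    rng := [(0, 1), (0, 3), (1, 0), (1, 7), (2, 3), (2, 8), (3, 0), (3, 2), (4, 5), (4, 9), (5, 4), (5,
      6), (6, 5), (6, 8), (7, 1), (7, 9), (8, 2), (8, 6), (9, 4), (9, 7)]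
    lev := [] }
  links := [[1, 6, 7, 3], [6, 0, 3, 2, 8, 9], [8, 1, 3, 10, 11, 12, 4], [10, 2, 1, 0, 7, 13, 5], [8, 2,
    12, 14], [10, 3, 13, 15]]
  P := {
    a := 6
    N := 16
    nb := [202, 845, 7450, 9383, 20740, 41992, 643, 8265, 16918, 322, 34860, 5124, 18452, 32936, 4368,
      9248]
    tri := [(0, 1, 3), (0, 1, 6), (0, 3, 7), (0, 6, 7), (1, 2, 3), (1, 2, 8), (1, 6, 9), (1, 8, 9), (2,
      3, 10), (2, 4, 8), (2, 4, 12), (2, 10, 11), (2, 11, 12), (3, 5, 10), (3, 5, 13), (3, 7, 13),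
      (4, 8, 14), (4, 12, 14), (5, 10, 15), (5, 13, 15)]
    fin := [0, 1, 2, 1, 2, 1, 0, 1, 2, 9, 1, 2, 12, 13, 14, 15]
    chd := [(1, 9)]
    steps := [(0, 6), (1, 3), (1, 5), (1, 7), (1, 10), (2, 4), (2, 11), (2, 8)] }
  rep := [1, 2, 0, 12, 13, 9, 14, 15]

noncomputable def v1367 : Cov.CovD where
  P := 3
  N := 5
  pl := [0, 6, 7, 8, 9]
  lev := [⟨[], [], [], [2], [(1, 0, [5])]⟩,
    ⟨[], [(0, 0), (0, 1), (0, 5)], [(1, 5)], [2], [(2, 1, []), (3, 5, [0])]⟩,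
    ⟨[(0, 1)], [(1, 0), (1, 1), (1, 5)], [(0, 1), (1, 1)], [3], [(2, 1, []), (4, 0, [5]),
      (5, 1, [])]⟩,
    ⟨[(0, 1), (0, 2), (1, 2)], [(0, 0), (1, 0), (1, 1), (1, 5), (2, 0), (2, 1)], [(0, 0)],
      [4], [(1, 0, [5]), (4, 0, [5])]⟩,
    ⟨[(1, 2), (2, 3)], [(1, 1), (2, 0), (2, 1)], [], [3, 6], [(2, 1, [])]⟩,
    ⟨[(0, 3), (1, 3), (2, 3)], [(2, 0), (3, 0)], [], [4, 7], [(4, 0, [5])]⟩]
  Ta := [((1, 0), 0, 2), ((1, 7), 0, 4), ((2, 3), 1, 5), ((2, 8), 1, 6), ((4, 5), 0, 1), ((4, 9),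
    0, 7), ((5, 4), 1, 0), ((5, 6), 1, 3)]
  Tb := [((0, 1, 3), 2, 0, 5), ((1, 0, 7), 0, 2, 4), ((2, 3, 8), 1, 5, 6), ((3, 0, 2), 5, 2, 1),
    ((4, 5, 9), 0, 1, 7), ((5, 4, 6), 1, 0, 3), ((6, 5, 8), 3, 1, 6), ((7, 1, 9), 4, 0, 7),
    ((8, 2, 6), 6, 1, 3), ((9, 4, 7), 7, 0, 4)]
  Tc := []
  Td := [((0, 5), (1, 0), 2), ((0, 5), (1, 7), 4), ((0, 5), (4, 5), 1), ((0, 5), (4, 9), 7), ((5,
    0), (3, 0), 2), ((5, 0), (3, 2), 1)]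
  G := [[0, 0, 0x119146c8a865111d111d61111acc11116111d8cc464a1cc, 0x119aa963c5515ac14,
    0xbc91196135d55ac12], [0, 0, 0x1228119411511c644d612288c, 0x12669a1c1712ac14,
    0x5c991969232cc12], [0, 0, 0, 0xcc9481aa92cc5665ac1c, 0xcc9aa9641665ac1c85841a], [0,
    0xccca6a6e662c1cc6821c, 0, 0xcc9aa9644582e2ec18, 0xcc9aa9681e22242e41a]]

noncomputable def n1367 : Ent := ⟨e1367, noF, [], [], []⟩

def c1367 : PLift (Cov.check n1367.C.D v1367 = true) := ⟨by decide +kernel⟩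

def b1367 : PLift (entF (fidx ts) 400 1367 n1367 = true) := ⟨by decide +kernel⟩

theorem g1367 : GoodF (fidx ts) 400 1367 := GoodF.ofV v1367 n1367 c1367.down b1367.down

/-- 467745:1090/1 -/
noncomputable def e1368 : SCfg where
  D := {
    a := 6
    L := 10
    kp := 7
    inn := [(0, 1), (0, 3), (1, 0), (1, 2), (1, 3), (2, 1), (2, 3), (2, 4), (3, 0), (3, 1), (3, 2), (3,
      5), (4, 2), (5, 3)]
    mix := [(0, 0), (0, 1), (1, 0), (1, 2), (1, 3), (2, 2), (2, 4), (2, 5), (2, 6), (3, 1), (3, 4), (3,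
      7), (4, 2), (4, 6), (4, 8), (5, 4), (5, 7), (5, 8), (5, 9)]
    cl := [3, 2, 0, 6, 1, 0, 4, 1, 5, 7]
    chq := [(0, 3), (1, 3), (3, 0), (3, 1)]
    rng := [(0, 1), (0, 3), (1, 0), (1, 7), (2, 3), (2, 8), (3, 0), (3, 2), (4, 5), (4, 9), (5, 4), (5,
      6), (6, 5), (6, 8), (7, 1), (7, 8), (8, 2), (8, 6), (8, 7), (8, 9), (9, 4), (9, 8)]
    lev := [] }
  links := [[1, 6, 7, 3], [6, 0, 3, 2, 8, 9], [8, 1, 3, 10, 11, 12, 4], [10, 2, 1, 0, 7, 13, 5], [8, 2,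
    12, 14], [10, 3, 13, 14, 15]]
  P := {
    a := 6
    N := 16
    nb := [202, 845, 7450, 9383, 20740, 58376, 643, 8265, 16918, 322, 34860, 5124, 18452, 16552,
      45360, 17440]
    tri := [(0, 1, 3), (0, 1, 6), (0, 3, 7), (0, 6, 7), (1, 2, 3), (1, 2, 8), (1, 6, 9), (1, 8, 9), (2,
      3, 10), (2, 4, 8), (2, 4, 12), (2, 10, 11), (2, 11, 12), (3, 5, 10), (3, 5, 13), (3, 7, 13),
      (4, 8, 14), (4, 12, 14), (5, 10, 15), (5, 13, 14), (5, 14, 15)]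
    fin := [0, 0, 2, 0, 4, 5, 0, 7, 2, 9, 5, 2, 12, 5, 4, 15]
    chd := [(0, 2), (0, 5)]
    steps := [(0, 1), (0, 3), (0, 6), (2, 11), (2, 8), (4, 14), (5, 13), (5, 10)] }
  rep := [2, 5, 7, 0, 12, 4, 9, 15]

noncomputable def v1368 : Cov.CovD where
  P := 3
  N := 5
  pl := [1, 3, 6, 8, 9]
  lev := [⟨[], [], [], [2], [(0, 3, [0, 1])]⟩,
    ⟨[], [(0, 0), (0, 3)], [(0, 3)], [6], [(0, 3, [0, 1]), (2, 0, [3])]⟩,
    ⟨[(0, 1)], [(1, 0), (1, 1), (1, 3)], [(0, 0), (0, 1)], [4], [(2, 0, [3]), (4, 1, [3]),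
      (5, 0, [3])]⟩,
    ⟨[(0, 1), (0, 2), (1, 2)], [(0, 1), (0, 3), (1, 0), (1, 1), (1, 3), (2, 0), (2, 1)],
      [(1, 1)], [2], [(4, 1, [3]), (7, 1, [3])]⟩,
    ⟨[(1, 2), (2, 3)], [(1, 0), (2, 0), (2, 1)], [], [4, 5], [(2, 0, [3])]⟩,
    ⟨[(0, 3), (1, 3), (2, 3)], [(2, 1), (3, 1)], [(1, 1)], [5, 7], [(4, 1, [3]), (7, 1,
      [3])]⟩]
  Ta := [((2, 3), 0, 6), ((2, 8), 0, 5), ((4, 5), 1, 0), ((4, 9), 1, 7), ((5, 4), 0, 1), ((5, 6),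
    0, 4), ((7, 1), 1, 2), ((7, 8), 1, 5)]
  Tb := [((0, 1, 3), 3, 2, 6), ((1, 0, 7), 2, 3, 1), ((2, 3, 8), 0, 6, 5), ((3, 0, 2), 6, 3, 0),
    ((4, 5, 9), 1, 0, 7), ((5, 4, 6), 0, 1, 4), ((6, 5, 8), 4, 0, 5), ((7, 1, 8), 1, 2, 5),
    ((8, 2, 6), 5, 0, 4), ((8, 2, 7), 5, 0, 1), ((8, 2, 9), 5, 0, 7), ((8, 6, 7), 5, 4, 1),
    ((8, 6, 9), 5, 4, 7), ((8, 7, 9), 5, 1, 7), ((9, 4, 8), 7, 1, 5)]
  Tc := [(3, 0, 1)]
  Td := [((0, 3), (2, 3), 6), ((0, 3), (2, 8), 5), ((0, 3), (5, 4), 1), ((0, 3), (5, 6), 4), ((1,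
    3), (4, 5), 0), ((1, 3), (4, 9), 7), ((1, 3), (7, 1), 2), ((1, 3), (7, 8), 5), ((3, 0),
    (0, 1), 2), ((3, 0), (0, 3), 6), ((3, 1), (0, 1), 2), ((3, 1), (0, 3), 6)]
  G := [[0, 0, 0xd245499acc55698cd28c955e4d28ce2, 0, 0xd21959e1c955e1d21cc52889159e8c23], [0, 0,
    0x5245499ac984e55698cd28948e95a45492cce2, 0xd245499acc55698cd28c85a4159e8ce1,
    0xd21959e1588e955e1921c41e95a18e5968423], [0, 0xe6c462c86ca1a84e4844aa2ce1c,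
    0x955e4d28c12, 0, 0x821d11cd11851889d18c528d28cf2], [0, 0, 0x95a45968c12,
    0xd144492cc4291c9438c5181c4968ce1, 0xd1128591d18a85918959e84f2]]

noncomputable def n1368 : Ent := ⟨e1368, noF, [], [], []⟩

def c1368 : PLift (Cov.check n1368.C.D v1368 = true) := ⟨by decide +kernel⟩

def b1368 : PLift (entF (fidx ts) 400 1368 n1368 = true) := ⟨by decide +kernel⟩

theorem g1368 : GoodF (fidx ts) 400 1368 := GoodF.ofV v1368 n1368 c1368.down b1368.down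

/-- 467745:1090/2 -/
noncomputable def e1369 : SCfg where
  D := {
    a := 6
    L := 10
    kp := 7
    inn := [(0, 1), (0, 3), (1, 0), (1, 2), (1, 3), (2, 1), (2, 3), (2, 4), (3, 0), (3, 1), (3, 2), (3,
      5), (4, 2), (5, 3)]
    mix := [(0, 0), (0, 1), (1, 0), (1, 2), (1, 3), (2, 2), (2, 4), (2, 5), (2, 6), (3, 1), (3, 4), (3,
      7), (4, 2), (4, 6), (4, 8), (5, 4), (5, 5), (5, 7), (5, 9)]
    cl := [3, 2, 0, 5, 1, 0, 4, 1, 6, 7]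
    chq := [(1, 3), (1, 5), (3, 1), (5, 1)]
    rng := [(0, 1), (0, 3), (1, 0), (1, 7), (2, 3), (2, 8), (3, 0), (3, 2), (4, 5), (5, 4), (5, 6), (5,
      9), (6, 5), (6, 8), (7, 1), (7, 9), (8, 2), (8, 6), (9, 5), (9, 7)]
    lev := [] }
  links := [[1, 6, 7, 3], [6, 0, 3, 2, 8, 9], [8, 1, 3, 10, 11, 12, 4], [10, 2, 1, 0, 7, 13, 5], [8, 2,
    12, 14], [10, 3, 13, 15, 11]]
  P := {
    a := 6
    N := 16
    nb := [202, 845, 7450, 9383, 20740, 44040, 643, 8265, 16918, 322, 2092, 37924, 18452, 32936, 4368,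
      10272]
    tri := [(0, 1, 3), (0, 1, 6), (0, 3, 7), (0, 6, 7), (1, 2, 3), (1, 2, 8), (1, 6, 9), (1, 8, 9), (2,
      3, 10), (2, 4, 8), (2, 4, 12), (2, 10, 11), (2, 11, 12), (3, 5, 10), (3, 5, 13), (3, 7, 13),
      (4, 8, 14), (4, 12, 14), (5, 10, 11), (5, 11, 15), (5, 13, 15)]
    fin := [0, 1, 2, 1, 2, 1, 0, 7, 2, 9, 1, 2, 12, 1, 14, 15]
    chd := [(0, 1), (9, 1)]
    steps := [(0, 6), (1, 3), (1, 5), (1, 13), (1, 10), (2, 4), (2, 11), (2, 8)] }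
  rep := [2, 1, 7, 0, 12, 9, 14, 15]

noncomputable def v1369 : Cov.CovD where
  P := 3
  N := 5
  pl := [1, 6, 8, 9]
  lev := [⟨[], [], [], [2], [(0, 3, [1])]⟩,
    ⟨[], [(0, 0), (0, 3), (0, 5)], [(0, 3), (0, 5), (3, 5)], [], [(0, 3, [1]), (2, 0, []),
      (3, 5, [1])]⟩,
    ⟨[(0, 1)], [(1, 0), (1, 1), (1, 3), (1, 5)], [(0, 0), (0, 1)], [4], [(2, 0, []), (4, 1,
      [3, 5]), (5, 0, [])]⟩,
    ⟨[(0, 1), (0, 2), (1, 2)], [(0, 1), (0, 3), (1, 0), (1, 1), (1, 3), (1, 5), (2, 0), (2,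
      1)], [(1, 1)], [2], [(4, 1, [3, 5]), (7, 1, [3, 5])]⟩,
    ⟨[(1, 2), (2, 3)], [(1, 0), (2, 0), (2, 1)], [], [4, 6], [(2, 0, [])]⟩,
    ⟨[(0, 3), (1, 3), (2, 3)], [(2, 0), (2, 1), (3, 0), (3, 1)], [(0, 1), (1, 1)], [7],
      [(4, 1, [3, 5]), (5, 0, []), (7, 1, [3, 5])]⟩]
  Ta := [((2, 3), 0, 5), ((2, 8), 0, 6), ((4, 5), 1, 0), ((5, 4), 0, 1), ((5, 6), 0, 4), ((5, 9),
    0, 7), ((7, 1), 1, 2), ((7, 9), 1, 7)]
  Tb := [((0, 1, 3), 3, 2, 5), ((1, 0, 7), 2, 3, 1), ((2, 3, 8), 0, 5, 6), ((3, 0, 2), 5, 3, 0),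
    ((5, 4, 6), 0, 1, 4), ((5, 4, 9), 0, 1, 7), ((5, 6, 9), 0, 4, 7), ((6, 5, 8), 4, 0, 6),
    ((7, 1, 9), 1, 2, 7), ((8, 2, 6), 6, 0, 4), ((9, 5, 7), 7, 0, 1)]
  Tc := [(1, 3, 5)]
  Td := [((1, 3), (4, 5), 0), ((1, 3), (7, 1), 2), ((1, 3), (7, 9), 7), ((1, 5), (4, 5), 0), ((1,
    5), (7, 1), 2), ((1, 5), (7, 9), 7), ((3, 1), (0, 1), 2), ((3, 1), (0, 3), 5), ((5, 1),
    (3, 0), 3), ((5, 1), (3, 2), 0)]
  G := [[0, 0, 0x11a41168c211a41168c2c, 0, 0xcca11168c212c891168c29], [0, 0,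
    0x11a41168c211a41168c2c, 0x11a41168c211a41168c29, 0xcca11168c2cca11168c29], [0,
    0xa84648628e16cc866a861c, 0xcca44181cc24181ccc68c2c, 0, 0xc11cc61c2cc91cc38c29], [0, 0,
    0x4188ac44cb8c2cca4cc68c16, 0xc14cc61c2cca1c18c29, 0xcca1c11c2cca1c11c29]]

noncomputable def n1369 : Ent := ⟨e1369, noF, [], [], []⟩

def c1369 : PLift (Cov.check n1369.C.D v1369 = true) := ⟨by decide +kernel⟩

def b1369 : PLift (entF (fidx ts) 400 1369 n1369 = true) := ⟨by decide +kernel⟩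

theorem g1369 : GoodF (fidx ts) 400 1369 := GoodF.ofV v1369 n1369 c1369.down b1369.down

/-- 467745:1090 -/
noncomputable def e1370 : SCfg where
  D := {
    a := 6
    L := 11
    kp := 8
    inn := [(0, 1), (0, 3), (1, 0), (1, 2), (1, 3), (2, 1), (2, 3), (2, 4), (3, 0), (3, 1), (3, 2), (3,
      5), (4, 2), (5, 3)]
    mix := [(0, 0), (0, 1), (1, 0), (1, 2), (1, 3), (2, 2), (2, 4), (2, 5), (2, 6), (3, 1), (3, 4), (3,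
      7), (4, 2), (4, 6), (4, 8), (5, 4), (5, 7), (5, 9), (5, 10)]
    cl := [1, 2, 3, 5, 0, 3, 4, 0, 6, 7, 8]
    chq := [(0, 1), (0, 5), (1, 0), (5, 0)]
    rng := [(0, 1), (0, 3), (1, 0), (1, 7), (2, 3), (2, 8), (3, 0), (3, 2), (4, 5), (4, 10), (5, 4),
      (5, 6), (6, 5), (6, 8), (7, 1), (7, 9), (8, 2), (8, 6), (9, 7), (9, 10), (10, 4), (10, 9)]
    lev := [] }
  links := [[1, 6, 7, 3], [6, 0, 3, 2, 8, 9], [8, 1, 3, 10, 11, 12, 4], [10, 2, 1, 0, 7, 13, 5], [8, 2,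
    12, 14], [10, 3, 13, 15, 16]]
  P := {
    a := 6
    N := 17
    nb := [202, 845, 7450, 9383, 20740, 107528, 643, 8265, 16918, 322, 67628, 5124, 18452, 32936,
      4368, 73760, 33824]
    tri := [(0, 1, 3), (0, 1, 6), (0, 3, 7), (0, 6, 7), (1, 2, 3), (1, 2, 8), (1, 6, 9), (1, 8, 9), (2,
      3, 10), (2, 4, 8), (2, 4, 12), (2, 10, 11), (2, 11, 12), (3, 5, 10), (3, 5, 13), (3, 7, 13),
      (4, 8, 14), (4, 12, 14), (5, 10, 16), (5, 13, 15), (5, 15, 16)]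
    fin := [0, 1, 2, 1, 2, 1, 0, 7, 2, 9, 1, 2, 12, 1, 14, 15, 16]
    chd := [(0, 1), (9, 1)]
    steps := [(0, 6), (1, 3), (1, 5), (1, 13), (1, 10), (2, 4), (2, 11), (2, 8)] }
  rep := [1, 0, 7, 2, 12, 9, 14, 15, 16]

noncomputable def v1370 : Cov.CovD where
  P := 3
  N := 6
  pl := [1, 6, 8, 9, 10]
  lev := [⟨[], [], [], [2], [(0, 1, [0])]⟩,
    ⟨[], [(0, 1), (0, 3), (0, 5)], [(1, 3), (1, 5), (3, 5)], [], [(0, 1, [0]), (2, 3, []),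
      (3, 5, [0])]⟩,
    ⟨[(0, 1)], [(1, 0), (1, 1), (1, 3), (1, 5)], [(0, 3), (3, 3)], [4], [(2, 3, []), (4, 0,
      [1, 5]), (5, 3, [])]⟩,
    ⟨[(0, 1), (0, 2), (1, 2)], [(0, 0), (0, 1), (1, 0), (1, 1), (1, 3), (1, 5), (2, 0), (2,
      3)], [(0, 0)], [2], [(4, 0, [1, 5]), (7, 0, [1, 5])]⟩,
    ⟨[(1, 2), (2, 3)], [(1, 3), (2, 0), (2, 3)], [], [4, 6], [(2, 3, [])]⟩,
    ⟨[(0, 3), (1, 3), (2, 3)], [(2, 0), (3, 0)], [(0, 0)], [7, 8], [(4, 0, [1, 5]), (7, 0,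
      [1, 5])]⟩]
  Ta := [((2, 3), 3, 5), ((2, 8), 3, 6), ((4, 5), 0, 3), ((4, 10), 0, 8), ((5, 4), 3, 0), ((5,
    6), 3, 4), ((7, 1), 0, 2), ((7, 9), 0, 7)]
  Tb := [((0, 1, 3), 1, 2, 5), ((1, 0, 7), 2, 1, 0), ((2, 3, 8), 3, 5, 6), ((3, 0, 2), 5, 1, 3),
    ((4, 5, 10), 0, 3, 8), ((5, 4, 6), 3, 0, 4), ((6, 5, 8), 4, 3, 6), ((7, 1, 9), 0, 2, 7),
    ((8, 2, 6), 6, 3, 4), ((9, 7, 10), 7, 0, 8), ((10, 4, 9), 8, 0, 7)]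
  Tc := [(0, 1, 5)]
  Td := [((0, 1), (4, 5), 3), ((0, 1), (4, 10), 8), ((0, 1), (7, 1), 2), ((0, 1), (7, 9), 7),
    ((0, 5), (4, 5), 3), ((0, 5), (4, 10), 8), ((0, 5), (7, 1), 2), ((0, 5), (7, 9), 7), ((1,
    0), (0, 1), 2), ((1, 0), (0, 3), 5), ((5, 0), (3, 0), 1), ((5, 0), (3, 2), 3)]
  G := [[0, 0xe89481618ee58ee38e1c, 0, 0xee9466581cee34e184841c,
    0x8221e8eb2ee52623c1ae98282828259], [0, 0x446aa6cee58ee38e14, 0, 0x446aa9c4eed84eeb8e14,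
    0xeeee2e8e7266388cae18], [0, 0xee9466581cee34e184841c, 0xee92ee58ee38e14,
    0xee946658ee34e1885841c, 0x8221e8eb2ee5266381ae98282828259], [0, 0xee9466588acee34e18,
    0x666889cee52ee38e14, 0xee9446aa8aceec4e18, 0xee62ee5266c88cae18]]

noncomputable def n1370 : Ent := ⟨e1370, noF, [], [], [(15, 14, [1685382413448253767852309107433119732572617628602273068445370515457, 0]), (16, 11, [1580044410770990308032078191911707142368668054796088592099349729281, 0])]⟩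

def c1370 : PLift (Cov.check n1370.C.D v1370 = true) := ⟨by decide +kernel⟩

def b1370 : PLift (entF (fidx ts) 400 1370 n1370 = true) := ⟨by decide +kernel⟩

theorem g1370 : GoodF (fidx ts) 400 1370 := GoodF.ofV v1370 n1370 c1370.down b1370.down

/-- 467754:1093/1 -/
noncomputable def e1371 : SCfg where
  D := {
    a := 6
    L := 10
    kp := 7
    inn := [(0, 1), (0, 3), (1, 0), (1, 2), (1, 3), (2, 1), (2, 3), (2, 4), (3, 0), (3, 1), (3, 2), (3,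
      5), (4, 2), (5, 3)]
    mix := [(0, 0), (0, 1), (1, 0), (1, 2), (1, 3), (2, 2), (2, 4), (2, 5), (2, 6), (3, 1), (3, 4), (3,
      7), (4, 2), (4, 3), (4, 6), (4, 8), (5, 4), (5, 7), (5, 9)]
    cl := [1, 0, 3, 4, 0, 5, 3, 2, 6, 7]
    chq := [(0, 3), (0, 4), (3, 0), (4, 0)]
    rng := [(0, 1), (0, 3), (1, 0), (1, 7), (2, 3), (3, 0), (3, 2), (3, 8), (4, 5), (4, 9), (5, 4), (5,
      6), (6, 5), (6, 8), (7, 1), (7, 9), (8, 3), (8, 6), (9, 4), (9, 7)]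
    lev := [] }
  links := [[1, 6, 7, 3], [6, 0, 3, 2, 8, 9], [8, 1, 3, 10, 11, 12, 4], [10, 2, 1, 0, 7, 13, 5], [8, 2,
    12, 14, 9], [10, 3, 13, 15]]
  P := {
    a := 6
    N := 16
    nb := [202, 845, 7450, 9383, 21252, 41992, 643, 8265, 534, 16722, 34860, 5124, 18452, 32936, 4624,
      9248]
    tri := [(0, 1, 3), (0, 1, 6), (0, 3, 7), (0, 6, 7), (1, 2, 3), (1, 2, 8), (1, 6, 9), (1, 8, 9), (2,
      3, 10), (2, 4, 8), (2, 4, 12), (2, 10, 11), (2, 11, 12), (3, 5, 10), (3, 5, 13), (3, 7, 13),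
      (4, 8, 9), (4, 9, 14), (4, 12, 14), (5, 10, 15), (5, 13, 15)]
    fin := [0, 1, 1, 1, 4, 1, 0, 1, 4, 9, 1, 11, 4, 13, 14, 15]
    chd := [(1, 4), (1, 9)]
    steps := [(0, 6), (1, 2), (1, 3), (1, 5), (1, 7), (1, 10), (4, 12), (4, 8)] }
  rep := [1, 0, 13, 4, 9, 11, 14, 15]

noncomputable def v1371 : Cov.CovD where
  P := 3
  N := 5
  pl := [0, 5, 7, 8, 9]
  lev := [⟨[], [], [], [1], [(1, 0, [3, 4])]⟩,
    ⟨[], [(0, 0), (0, 3), (0, 4)], [(3, 4)], [1], [(2, 3, [0]), (3, 4, [0])]⟩,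
    ⟨[(0, 1)], [(1, 0), (1, 3), (1, 4)], [(0, 3), (3, 3)], [5], [(2, 3, [0]), (4, 0, [3,
      4]), (6, 3, [0])]⟩,
    ⟨[(0, 1), (0, 2), (1, 2)], [(0, 0), (1, 0), (1, 3), (1, 4), (2, 0), (2, 3)], [(0, 0)],
      [2], [(1, 0, [3, 4]), (4, 0, [3, 4])]⟩,
    ⟨[(1, 2), (2, 3)], [(1, 3), (1, 4), (2, 0), (2, 3), (2, 4)], [(3, 3), (3, 4)], [6],
      [(2, 3, [0]), (3, 4, [0]), (6, 3, [0])]⟩,
    ⟨[(0, 3), (1, 3), (2, 3)], [(2, 0), (3, 0)], [], [2, 7], [(4, 0, [3, 4])]⟩]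
  Ta := [((1, 0), 0, 1), ((1, 7), 0, 2), ((2, 3), 3, 4), ((4, 5), 0, 5), ((4, 9), 0, 7), ((6, 5),
    3, 5), ((6, 8), 3, 6)]
  Tb := [((0, 1, 3), 1, 0, 4), ((1, 0, 7), 0, 1, 2), ((3, 0, 2), 4, 1, 3), ((3, 0, 8), 4, 1, 6),
    ((3, 2, 8), 4, 3, 6), ((4, 5, 9), 0, 5, 7), ((5, 4, 6), 5, 0, 3), ((6, 5, 8), 3, 5, 6),
    ((7, 1, 9), 2, 0, 7), ((8, 3, 6), 6, 4, 3), ((9, 4, 7), 7, 0, 2)]
  Tc := [(0, 3, 4)]
  Td := [((0, 3), (1, 0), 1), ((0, 3), (1, 7), 2), ((0, 3), (4, 5), 5), ((0, 3), (4, 9), 7), ((0,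
    4), (1, 0), 1), ((0, 4), (1, 7), 2), ((0, 4), (4, 5), 5), ((0, 4), (4, 9), 7), ((3, 0),
    (2, 3), 4), ((3, 0), (6, 5), 5), ((3, 0), (6, 8), 6), ((4, 0), (3, 0), 1), ((4, 0), (3,
    2), 3), ((4, 0), (3, 8), 6)]
  G := [[0, 0x114114118e21141181144888cf114118114c48fc241ea, 0x68816421aa346a38aa38ed4,
    0x1111f41111f81111f8e18, 0x1111f21111f21111f8e18], [0,
    0x1141134c211411344888c7118118cc68bca, 0xa821a4416c346c326638ed8,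
    0x1111f41111f81111f8e14, 0x1111f21111f81111f8e18], [0, 0, 0,
    0x48c4814447888bcccccf8ccccf8e1c, 0xaaaaf2aaaaf8aaaaf8e14], [0, 0, 0,
    0x4848144478888fcccccf8ccccf8e1c, 0xaaaaf2aaaaf8aaaaf8e14]]

noncomputable def n1371 : Ent := ⟨e1371, noF, [], [], []⟩

def c1371 : PLift (Cov.check n1371.C.D v1371 = true) := ⟨by decide +kernel⟩

def b1371 : PLift (entF (fidx ts) 400 1371 n1371 = true) := ⟨by decide +kernel⟩

theorem g1371 : GoodF (fidx ts) 400 1371 := GoodF.ofV v1371 n1371 c1371.down b1371.down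

/-- 467754:1093 -/
noncomputable def e1372 : SCfg where
  D := {
    a := 6
    L := 11
    kp := 8
    inn := [(0, 1), (0, 3), (1, 0), (1, 2), (1, 3), (2, 1), (2, 3), (2, 4), (3, 0), (3, 1), (3, 2), (3,
      5), (4, 2), (5, 3)]
    mix := [(0, 0), (0, 1), (1, 0), (1, 2), (1, 3), (2, 2), (2, 4), (2, 5), (2, 6), (3, 1), (3, 4), (3,
      7), (4, 2), (4, 6), (4, 8), (4, 9), (5, 4), (5, 7), (5, 10)]
    cl := [1, 0, 3, 4, 0, 5, 3, 2, 6, 7, 8]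
    chq := [(0, 3), (0, 4), (3, 0), (4, 0)]
    rng := [(0, 1), (0, 3), (1, 0), (1, 7), (2, 3), (2, 9), (3, 0), (3, 2), (4, 5), (4, 10), (5, 4),
      (5, 6), (6, 5), (6, 8), (7, 1), (7, 10), (8, 6), (8, 9), (9, 2), (9, 8), (10, 4), (10, 7)]
    lev := [] }
  links := [[1, 6, 7, 3], [6, 0, 3, 2, 8, 9], [8, 1, 3, 10, 11, 12, 4], [10, 2, 1, 0, 7, 13, 5], [8, 2,
    12, 14, 15], [10, 3, 13, 16]]
  P := {
    a := 6
    N := 17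
    nb := [202, 845, 7450, 9383, 53508, 74760, 643, 8265, 33302, 322, 67628, 5124, 18452, 65704,
      36880, 16656, 9248]
    tri := [(0, 1, 3), (0, 1, 6), (0, 3, 7), (0, 6, 7), (1, 2, 3), (1, 2, 8), (1, 6, 9), (1, 8, 9), (2,
      3, 10), (2, 4, 8), (2, 4, 12), (2, 10, 11), (2, 11, 12), (3, 5, 10), (3, 5, 13), (3, 7, 13),
      (4, 8, 15), (4, 12, 14), (4, 14, 15), (5, 10, 16), (5, 13, 16)]
    fin := [0, 1, 1, 1, 4, 1, 0, 1, 4, 9, 1, 11, 4, 13, 14, 15, 16]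
    chd := [(1, 4), (1, 9)]
    steps := [(0, 6), (1, 2), (1, 3), (1, 5), (1, 7), (1, 10), (4, 12), (4, 8)] }
  rep := [1, 0, 13, 4, 9, 11, 14, 15, 16]

noncomputable def v1372 : Cov.CovD where
  P := 3
  N := 6
  pl := [0, 5, 7, 8, 9, 10]
  lev := [⟨[], [], [], [1], [(1, 0, [3, 4])]⟩,
    ⟨[], [(0, 0), (0, 3), (0, 4)], [(3, 4)], [1], [(2, 3, [0]), (3, 4, [0])]⟩,
    ⟨[(0, 1)], [(1, 0), (1, 3), (1, 4)], [(0, 3), (3, 3)], [5], [(2, 3, [0]), (4, 0, [3,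
      4]), (6, 3, [0])]⟩,
    ⟨[(0, 1), (0, 2), (1, 2)], [(0, 0), (1, 0), (1, 3), (1, 4), (2, 0), (2, 3)], [(0, 0)],
      [2], [(1, 0, [3, 4]), (4, 0, [3, 4])]⟩,
    ⟨[(1, 2), (2, 3)], [(1, 3), (2, 0), (2, 3)], [(3, 3)], [6, 7], [(2, 3, [0]), (6, 3,
      [0])]⟩,
    ⟨[(0, 3), (1, 3), (2, 3)], [(2, 0), (3, 0)], [], [2, 8], [(4, 0, [3, 4])]⟩]
  Ta := [((1, 0), 0, 1), ((1, 7), 0, 2), ((2, 3), 3, 4), ((2, 9), 3, 7), ((4, 5), 0, 5), ((4,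
    10), 0, 8), ((6, 5), 3, 5), ((6, 8), 3, 6)]
  Tb := [((0, 1, 3), 1, 0, 4), ((1, 0, 7), 0, 1, 2), ((2, 3, 9), 3, 4, 7), ((3, 0, 2), 4, 1, 3),
    ((4, 5, 10), 0, 5, 8), ((5, 4, 6), 5, 0, 3), ((6, 5, 8), 3, 5, 6), ((7, 1, 10), 2, 0, 8),
    ((8, 6, 9), 6, 3, 7), ((9, 2, 8), 7, 3, 6), ((10, 4, 7), 8, 0, 2)]
  Tc := [(0, 3, 4)]
  Td := [((0, 3), (1, 0), 1), ((0, 3), (1, 7), 2), ((0, 3), (4, 5), 5), ((0, 3), (4, 10), 8),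
    ((0, 4), (1, 0), 1), ((0, 4), (1, 7), 2), ((0, 4), (4, 5), 5), ((0, 4), (4, 10), 8), ((3,
    0), (2, 3), 4), ((3, 0), (2, 9), 7), ((3, 0), (6, 5), 5), ((3, 0), (6, 8), 6), ((4, 0),
    (3, 0), 1), ((4, 0), (3, 2), 3)]
  G := [[0, 0x114118118e2114118114ccce4f114118114ccce8fccce41ea, 0xaaaaf4acaaf86accf8e14,
    0x1111f41111f81111f8e18, 0x1111f21111f81111f8e14], [0,
    0x114114114ccce4f118118118ccce8fc2, 0x66a8166cd26666f866678e58, 0x1111f41111f81111f4e18,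
    0x1111f21111f21111f8e18], [0, 0, 0, 0x4444f4818888f4ccccf8ccccf8e1c,
    0xaaaaf2aaaaf8aaaaf8e14], [0, 0, 0, 0xccccf4ccccf4a1ccccf841c, 0xaaaaf2aaaaf8aaaaf8e14]]

noncomputable def n1372 : Ent := ⟨e1372, noF, [], [], [(15, 9, [1685356702439545624008034240510833457709826487664008433929041588225, 0])]⟩

def c1372 : PLift (Cov.check n1372.C.D v1372 = true) := ⟨by decide +kernel⟩

def b1372 : PLift (entF (fidx ts) 400 1372 n1372 = true) := ⟨by decide +kernel⟩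

theorem g1372 : GoodF (fidx ts) 400 1372 := GoodF.ofV v1372 n1372 c1372.down b1372.down

/-- 467464:1094/2 -/
noncomputable def e1373 : SCfg where
  D := {
    a := 6
    L := 9
    kp := 6
    inn := [(0, 1), (1, 0), (1, 2), (2, 1), (2, 3), (2, 4), (3, 2), (4, 2), (4, 5), (5, 4)]
    mix := [(0, 0), (0, 1), (0, 2), (1, 0), (1, 2), (1, 3), (1, 4), (2, 2), (2, 3), (2, 5), (2, 6), (3,
      1), (3, 2), (3, 5), (4, 3), (4, 4), (4, 6), (4, 7), (5, 6), (5, 7), (5, 8)]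
    cl := [3, 1, 0, 0, 2, 5, 0, 4, 6]
    chq := [(0, 3), (0, 4), (3, 0), (4, 0)]
    rng := [(0, 1), (0, 4), (1, 0), (1, 2), (1, 5), (2, 1), (3, 4), (4, 0), (4, 3), (4, 7), (5, 1), (5,
      6), (6, 5), (6, 8), (7, 4), (7, 8), (8, 6), (8, 7)]
    lev := [] }
  links := [[1, 6, 7, 8], [6, 0, 8, 2, 9, 10], [9, 1, 8, 3, 11, 12, 4], [11, 2, 8, 7], [9, 2, 12, 5, 13,
    10], [13, 4, 12, 14]]
  P := {
    a := 6
    N := 15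
    nb := [450, 1861, 6938, 2436, 13860, 28688, 1155, 2377, 143, 1046, 8786, 4236, 18484, 17456,
      12320]
    tri := [(0, 1, 6), (0, 1, 8), (0, 6, 7), (0, 7, 8), (1, 2, 8), (1, 2, 9), (1, 6, 10), (1, 9, 10),
      (2, 3, 8), (2, 3, 11), (2, 4, 9), (2, 4, 12), (2, 11, 12), (3, 7, 8), (3, 7, 11), (4, 5,
      12), (4, 5, 13), (4, 9, 10), (4, 10, 13), (5, 12, 14), (5, 13, 14)]
    fin := [0, 0, 2, 3, 2, 2, 0, 3, 2, 2, 10, 11, 2, 13, 14]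
    chd := [(0, 2), (2, 13)]
    steps := [(0, 1), (0, 6), (2, 4), (2, 5), (2, 8), (2, 12), (2, 9), (3, 7)] }
  rep := [2, 3, 10, 0, 13, 11, 14]

noncomputable def v1373 : Cov.CovD where
  P := 3
  N := 4
  pl := [1, 4, 5, 8]
  lev := [⟨[], [], [(0, 3)], [1], [(0, 3, [0]), (2, 0, [3, 4])]⟩,
    ⟨[], [(0, 0), (0, 3)], [(0, 0), (0, 3)], [2], [(0, 3, [0]), (2, 0, [3, 4]), (3, 0, [3,
      4])]⟩,
    ⟨[(0, 1)], [(0, 0), (1, 0), (1, 3)], [(0, 0)], [5], [(2, 0, [3, 4]), (3, 0, [3, 4]),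
      (6, 0, [3, 4])]⟩,
    ⟨[(1, 2)], [(0, 0), (1, 0), (2, 0)], [], [1, 5], [(2, 0, [3, 4])]⟩,
    ⟨[(1, 2), (2, 3)], [(1, 0), (2, 0), (2, 4)], [(0, 0), (0, 4)], [2], [(3, 0, [3, 4]),
      (6, 0, [3, 4]), (7, 4, [0])]⟩,
    ⟨[(2, 4)], [(2, 0), (4, 0), (4, 4)], [(0, 4)], [6], [(6, 0, [3, 4]), (7, 4, [0])]⟩]
  Ta := [((2, 1), 0, 1), ((3, 4), 0, 2), ((6, 5), 0, 5), ((6, 8), 0, 6)]
  Tb := [((0, 1, 4), 3, 1, 2), ((1, 0, 2), 1, 3, 0), ((1, 0, 5), 1, 3, 5), ((1, 2, 5), 1, 0, 5),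
    ((4, 0, 3), 2, 3, 0), ((4, 0, 7), 2, 3, 4), ((4, 3, 7), 2, 0, 4), ((5, 1, 6), 5, 1, 0),
    ((6, 5, 8), 0, 5, 6), ((7, 4, 8), 4, 2, 6), ((8, 6, 7), 6, 0, 4)]
  Tc := [(0, 3, 4)]
  Td := [((0, 3), (2, 1), 1), ((0, 3), (3, 4), 2), ((0, 3), (6, 5), 5), ((0, 3), (6, 8), 6), ((0,
    4), (2, 1), 1), ((0, 4), (3, 4), 2), ((0, 4), (6, 5), 5), ((0, 4), (6, 8), 6), ((3, 0),
    (0, 1), 1), ((3, 0), (0, 4), 2), ((4, 0), (7, 4), 2), ((4, 0), (7, 8), 6)]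
  G := [[0, 0x1418c11c26811c411c2a4c, 0, 0x14d8c16c14c68d418c1859cca4c,
    0x93a41da868328c1a4988e2c], [0, 0, 0x11612811a411c8629, 0xa1c116c16816c139c1a4c,
    0x35a1286218982c6a442d], [0, 0, 0, 0xa84a6c168648a6c1a46448a884cd,
    0xc6a4c4a16822188628c6a4c88e2d]]

noncomputable def n1373 : Ent := ⟨e1373, noF, [], [], []⟩

def c1373 : PLift (Cov.check n1373.C.D v1373 = true) := ⟨by decide +kernel⟩

def b1373 : PLift (entF (fidx ts) 400 1373 n1373 = true) := ⟨by decide +kernel⟩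

theorem g1373 : GoodF (fidx ts) 400 1373 := GoodF.ofV v1373 n1373 c1373.down b1373.down

/-- 467464:1094/1 -/
noncomputable def e1374 : SCfg where
  D := {
    a := 6
    L := 10
    kp := 7
    inn := [(0, 1), (1, 0), (1, 2), (2, 1), (2, 3), (2, 4), (3, 2), (4, 2), (4, 5), (5, 4)]
    mix := [(0, 0), (0, 1), (0, 2), (1, 0), (1, 2), (1, 3), (1, 4), (2, 2), (2, 3), (2, 5), (2, 6), (3,
      1), (3, 2), (3, 5), (4, 3), (4, 6), (4, 7), (4, 8), (5, 6), (5, 7), (5, 9)]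
    cl := [4, 1, 0, 0, 5, 2, 0, 3, 6, 7]
    chq := [(0, 3), (1, 5), (3, 0), (5, 1)]
    rng := [(0, 1), (0, 4), (1, 0), (1, 2), (1, 5), (2, 1), (3, 4), (3, 8), (4, 0), (4, 3), (5, 1), (5,
      6), (6, 5), (6, 9), (7, 8), (7, 9), (8, 3), (8, 7), (9, 6), (9, 7)]
    lev := [] }
  links := [[1, 6, 7, 8], [6, 0, 8, 2, 9, 10], [9, 1, 8, 3, 11, 12, 4], [11, 2, 8, 7], [9, 2, 12, 5, 13,
    14], [13, 4, 12, 15]]
  P := {
    a := 6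
    N := 16
    nb := [450, 1861, 6938, 2436, 29220, 45072, 1155, 2377, 143, 17430, 578, 4236, 34868, 49200, 8720,
      12320]
    tri := [(0, 1, 6), (0, 1, 8), (0, 6, 7), (0, 7, 8), (1, 2, 8), (1, 2, 9), (1, 6, 10), (1, 9, 10),
      (2, 3, 8), (2, 3, 11), (2, 4, 9), (2, 4, 12), (2, 11, 12), (3, 7, 8), (3, 7, 11), (4, 5,
      12), (4, 5, 13), (4, 9, 14), (4, 13, 14), (5, 12, 15), (5, 13, 15)]
    fin := [0, 0, 2, 0, 2, 2, 6, 0, 2, 2, 10, 11, 2, 13, 14, 15]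
    chd := [(0, 10), (2, 13)]
    steps := [(0, 1), (0, 7), (2, 4), (2, 5), (2, 8), (0, 3), (2, 12), (2, 9)] }
  rep := [2, 0, 11, 13, 6, 10, 14, 15]

noncomputable def v1374 : Cov.CovD where
  P := 3
  N := 5
  pl := [0, 5, 8, 9]
  lev := [⟨[], [], [(0, 1)], [4], [(1, 1, [5]), (2, 0, [3])]⟩,
    ⟨[], [(0, 0), (0, 1), (0, 5)], [(0, 0), (0, 5)], [4], [(2, 0, [3]), (3, 0, [3]), (4, 5,
      [1])]⟩,
    ⟨[(0, 1)], [(0, 0), (1, 0), (1, 5)], [(0, 0)], [2], [(2, 0, [3]), (3, 0, [3]), (6, 0,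
      [3])]⟩,
    ⟨[(1, 2)], [(0, 0), (0, 1), (1, 0), (2, 0), (2, 1)], [(0, 1)], [2], [(1, 1, [5]), (2,
      0, [3])]⟩,
    ⟨[(1, 2), (2, 3)], [(1, 0), (2, 0), (2, 3)], [(0, 0), (0, 3)], [6], [(3, 0, [3]), (6,
      0, [3]), (7, 3, [0])]⟩,
    ⟨[(2, 4)], [(2, 0), (4, 0), (4, 3)], [(0, 3)], [7], [(6, 0, [3]), (7, 3, [0])]⟩]
  Ta := [((2, 1), 0, 1), ((3, 4), 0, 5), ((3, 8), 0, 6), ((6, 5), 0, 2), ((6, 9), 0, 7)]
  Tb := [((0, 1, 4), 4, 1, 5), ((1, 0, 2), 1, 4, 0), ((1, 0, 5), 1, 4, 2), ((1, 2, 5), 1, 0, 2),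
    ((3, 4, 8), 0, 5, 6), ((4, 0, 3), 5, 4, 0), ((5, 1, 6), 2, 1, 0), ((6, 5, 9), 0, 2, 7),
    ((7, 8, 9), 3, 6, 7), ((8, 3, 7), 6, 0, 3), ((9, 6, 7), 7, 0, 3)]
  Tc := []
  Td := [((0, 3), (2, 1), 1), ((0, 3), (3, 4), 5), ((0, 3), (3, 8), 6), ((0, 3), (6, 5), 2), ((0,
    3), (6, 9), 7), ((1, 5), (1, 0), 4), ((1, 5), (1, 2), 0), ((1, 5), (1, 5), 2), ((3, 0),
    (7, 8), 6), ((3, 0), (7, 9), 7), ((5, 1), (4, 0), 4), ((5, 1), (4, 3), 0)]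
  G := [[0, 0x111e848111e484111e842e, 0, 0x539e482eb1e842c, 0x539e829368588aa395e82128edc8a6c],
    [0, 0, 0, 0x593e482359e4825, 0x359e128935e8245968388a2d], [0, 0,
    0xe24eec4aee68e88ac6eee4884c25, 0x448eaee8c2ee68e84c25,
    0xeec828e2186eee1881acee68e88a2d]]

noncomputable def n1374 : Ent := ⟨e1374, noF, [], [], [(14, 10, [385746751338781050996073827118545021217310372558043290361253889, 0])]⟩

def c1374 : PLift (Cov.check n1374.C.D v1374 = true) := ⟨by decide +kernel⟩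

def b1374 : PLift (entF (fidx ts) 400 1374 n1374 = true) := ⟨by decide +kernel⟩

theorem g1374 : GoodF (fidx ts) 400 1374 := GoodF.ofV v1374 n1374 c1374.down b1374.down

/-- 467464:1094/3 -/
noncomputable def e1375 : SCfg where
  D := {
    a := 6
    L := 10
    kp := 7
    inn := [(0, 1), (1, 0), (1, 2), (2, 1), (2, 3), (2, 4), (3, 2), (4, 2), (4, 5), (5, 4)]
    mix := [(0, 0), (0, 1), (0, 2), (1, 0), (1, 2), (1, 3), (1, 4), (2, 2), (2, 3), (2, 5), (2, 6), (3,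
      2), (3, 5), (3, 7), (4, 3), (4, 4), (4, 6), (4, 8), (5, 6), (5, 8), (5, 9)]
    cl := [4, 5, 0, 0, 1, 2, 0, 6, 3, 7]
    chq := [(0, 3), (1, 5), (3, 0), (5, 1)]
    rng := [(0, 1), (0, 4), (1, 0), (1, 2), (2, 1), (2, 7), (3, 4), (4, 0), (4, 3), (4, 8), (5, 6), (5,
      7), (6, 5), (6, 9), (7, 2), (7, 5), (8, 4), (8, 9), (9, 6), (9, 8)]
    lev := [] }
  links := [[1, 6, 7, 8], [6, 0, 8, 2, 9, 10], [9, 1, 8, 3, 11, 12, 4], [11, 2, 8, 13], [9, 2, 12, 5, 14,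
    10], [14, 4, 12, 15]]
  P := {
    a := 6
    N := 16
    nb := [450, 1861, 6938, 10500, 22052, 53264, 1155, 321, 8335, 1046, 16978, 12300, 34868, 2312,
      33840, 20512]
    tri := [(0, 1, 6), (0, 1, 8), (0, 6, 7), (0, 7, 8), (1, 2, 8), (1, 2, 9), (1, 6, 10), (1, 9, 10),
      (2, 3, 8), (2, 3, 11), (2, 4, 9), (2, 4, 12), (2, 11, 12), (3, 8, 13), (3, 11, 13), (4, 5,
      12), (4, 5, 14), (4, 9, 10), (4, 10, 14), (5, 12, 15), (5, 14, 15)]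
    fin := [0, 0, 2, 2, 2, 2, 6, 0, 2, 2, 10, 11, 2, 13, 14, 15]
    chd := [(0, 10), (2, 14)]
    steps := [(0, 1), (0, 7), (2, 3), (2, 4), (2, 5), (2, 8), (2, 12), (2, 9)] }
  rep := [2, 10, 11, 14, 6, 0, 13, 15]

noncomputable def v1375 : Cov.CovD where
  P := 3
  N := 5
  pl := [0, 5, 7, 9]
  lev := [⟨[], [], [(0, 5)], [4], [(1, 5, [1]), (2, 0, [3])]⟩,
    ⟨[], [(0, 0), (0, 1), (0, 5)], [(0, 0), (0, 1)], [4], [(2, 0, [3]), (3, 0, [3]), (4, 1,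
      [5])]⟩,
    ⟨[(0, 1)], [(0, 0), (1, 0), (1, 1)], [(0, 0)], [2], [(2, 0, [3]), (3, 0, [3]), (6, 0,
      [3])]⟩,
    ⟨[(1, 2)], [(0, 0), (1, 0), (2, 0)], [], [2, 6], [(2, 0, [3])]⟩,
    ⟨[(1, 2), (2, 3)], [(1, 0), (1, 1), (2, 0), (2, 1), (2, 3)], [(0, 0), (0, 1), (0, 3),
      (1, 3)], [], [(3, 0, [3]), (4, 1, [5]), (6, 0, [3]), (8, 3, [0])]⟩,
    ⟨[(2, 4)], [(2, 0), (4, 0), (4, 1), (4, 3)], [(0, 3)], [7], [(6, 0, [3]), (8, 3, [0])]⟩]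
  Ta := [((2, 1), 0, 5), ((2, 7), 0, 6), ((3, 4), 0, 1), ((6, 5), 0, 2), ((6, 9), 0, 7)]
  Tb := [((0, 1, 4), 4, 5, 1), ((1, 0, 2), 5, 4, 0), ((2, 1, 7), 0, 5, 6), ((4, 0, 3), 1, 4, 0),
    ((4, 0, 8), 1, 4, 3), ((4, 3, 8), 1, 0, 3), ((5, 6, 7), 2, 0, 6), ((6, 5, 9), 0, 2, 7),
    ((7, 2, 5), 6, 0, 2), ((8, 4, 9), 3, 1, 7), ((9, 6, 8), 7, 0, 3)]
  Tc := []
  Td := [((0, 3), (2, 1), 5), ((0, 3), (2, 7), 6), ((0, 3), (3, 4), 1), ((0, 3), (6, 5), 2), ((0,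
    3), (6, 9), 7), ((1, 5), (4, 0), 4), ((1, 5), (4, 3), 0), ((1, 5), (4, 8), 3), ((3, 0),
    (8, 4), 1), ((3, 0), (8, 9), 7), ((5, 1), (1, 0), 4), ((5, 1), (1, 2), 0)]
  G := [[0, 0, 0, 0xa1c8416c48ca8841416cc8c144a1cd8cc1416cc788cce,
    0x16ca1ca2816ca6ca2416ca1ca2a1c71ca2ce], [0, 0x11611ac4116116c8a1, 0,
    0x35c18464493c18cc83, 0xa1c12416ca1ca283], [0, 0, 0xa6ca6c624a6ca6c6283,
    0x6418a814ca8a8c46464c8c3, 0xa6c124a6ca6ca283]]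

noncomputable def n1375 : Ent := ⟨e1375, noF, [], [], [(7, 13, [385753028440516072301428330182238677962518295842732840412631041, 0])]⟩

def c1375 : PLift (Cov.check n1375.C.D v1375 = true) := ⟨by decide +kernel⟩

def b1375 : PLift (entF (fidx ts) 400 1375 n1375 = true) := ⟨by decide +kernel⟩

theorem g1375 : GoodF (fidx ts) 400 1375 := GoodF.ofV v1375 n1375 c1375.down b1375.down

/-- 467464:1094 -/
noncomputable def e1376 : SCfg where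
  D := {
    a := 6
    L := 11
    kp := 8
    inn := [(0, 1), (1, 0), (1, 2), (2, 1), (2, 3), (2, 4), (3, 2), (4, 2), (4, 5), (5, 4)]
    mix := [(0, 0), (0, 1), (0, 2), (1, 0), (1, 2), (1, 3), (1, 4), (2, 2), (2, 3), (2, 5), (2, 6), (3,
      2), (3, 5), (3, 7), (4, 3), (4, 6), (4, 8), (4, 9), (5, 6), (5, 8), (5, 10)]
    cl := [1, 4, 0, 0, 5, 2, 0, 6, 3, 7, 8]
    chq := [(0, 3), (3, 0), (4, 5), (5, 4)]
    rng := [(0, 1), (0, 4), (1, 0), (1, 2), (2, 1), (2, 7), (3, 4), (3, 9), (4, 0), (4, 3), (5, 6), (5,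
      7), (6, 5), (6, 10), (7, 2), (7, 5), (8, 9), (8, 10), (9, 3), (9, 8), (10, 6), (10, 8)]
    lev := [] }
  links := [[1, 6, 7, 8], [6, 0, 8, 2, 9, 10], [9, 1, 8, 3, 11, 12, 4], [11, 2, 8, 13], [9, 2, 12, 5, 14,
    15], [14, 4, 12, 16]]
  P := {
    a := 6
    N := 17
    nb := [450, 1861, 6938, 10500, 53796, 86032, 1155, 321, 8335, 33814, 578, 12300, 67636, 2312,
      98352, 16912, 20512]
    tri := [(0, 1, 6), (0, 1, 8), (0, 6, 7), (0, 7, 8), (1, 2, 8), (1, 2, 9), (1, 6, 10), (1, 9, 10),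
      (2, 3, 8), (2, 3, 11), (2, 4, 9), (2, 4, 12), (2, 11, 12), (3, 8, 13), (3, 11, 13), (4, 5,
      12), (4, 5, 14), (4, 9, 15), (4, 14, 15), (5, 12, 16), (5, 14, 16)]
    fin := [0, 0, 2, 2, 2, 2, 6, 0, 2, 2, 10, 11, 2, 13, 14, 15, 16]
    chd := [(0, 10), (2, 14)]
    steps := [(0, 1), (0, 7), (2, 3), (2, 4), (2, 5), (2, 8), (2, 12), (2, 9)] }
  rep := [2, 6, 11, 14, 0, 10, 13, 15, 16]

noncomputable def v1376 : Cov.CovD where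
  P := 3
  N := 6
  pl := [0, 5, 7, 9, 10]
  lev := [⟨[], [], [(0, 4)], [1], [(1, 4, [5]), (2, 0, [3])]⟩,
    ⟨[], [(0, 0), (0, 4), (0, 5)], [(0, 0), (0, 5)], [1], [(2, 0, [3]), (3, 0, [3]), (4, 5,
      [4])]⟩,
    ⟨[(0, 1)], [(0, 0), (1, 0), (1, 5)], [(0, 0)], [2], [(2, 0, [3]), (3, 0, [3]), (6, 0,
      [3])]⟩,
    ⟨[(1, 2)], [(0, 0), (1, 0), (2, 0)], [], [2, 6], [(2, 0, [3])]⟩,
    ⟨[(1, 2), (2, 3)], [(1, 0), (2, 0), (2, 3)], [(0, 0), (0, 3)], [7], [(3, 0, [3]), (6,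
      0, [3]), (8, 3, [0])]⟩,
    ⟨[(2, 4)], [(2, 0), (4, 0), (4, 3)], [(0, 3)], [8], [(6, 0, [3]), (8, 3, [0])]⟩]
  Ta := [((2, 1), 0, 4), ((2, 7), 0, 6), ((3, 4), 0, 5), ((3, 9), 0, 7), ((6, 5), 0, 2), ((6,
    10), 0, 8)]
  Tb := [((0, 1, 4), 1, 4, 5), ((1, 0, 2), 4, 1, 0), ((2, 1, 7), 0, 4, 6), ((3, 4, 9), 0, 5, 7),
    ((4, 0, 3), 5, 1, 0), ((5, 6, 7), 2, 0, 6), ((6, 5, 10), 0, 2, 8), ((7, 2, 5), 6, 0, 2),
    ((8, 9, 10), 3, 7, 8), ((9, 3, 8), 7, 0, 3), ((10, 6, 8), 8, 0, 3)]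
  Tc := []
  Td := [((0, 3), (2, 1), 4), ((0, 3), (2, 7), 6), ((0, 3), (3, 4), 5), ((0, 3), (3, 9), 7), ((0,
    3), (6, 5), 2), ((0, 3), (6, 10), 8), ((3, 0), (8, 9), 7), ((3, 0), (8, 10), 8), ((4, 5),
    (1, 0), 1), ((4, 5), (1, 2), 0), ((5, 4), (4, 0), 1), ((5, 4), (4, 3), 0)]
  G := [[0, 0x57c4537e32cc2536717ec988c46, 0, 0xb4359ec1ba8c4d164593ed8cc8c,
    0x3229e5e59caa45962e59e38aa8c], [0, 0x7e1e184537e148c, 0, 0x359e1843b9e148c,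
    0x539e1849e5e128c], [0x44ee6ceaceeaac2eeaeeace4e4a68a, 0xee61e81c2e41eea1c8a,
    0xe4446eeaeaee6c22e26eeceeeccac1, 0xee61e81c4e41eea1c8c, 0x6eee1881a4ee61e81a8c]]

noncomputable def n1376 : Ent := ⟨e1376, noF, [], [], [(7, 13, [1685382419725355503238989871268909155780284044704628512909405052929, 0]), (15, 10, [1685356702439545624464619697705549435909628783578210987402484641793, 0])]⟩

def c1376 : PLift (Cov.check n1376.C.D v1376 = true) := ⟨by decide +kernel⟩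

def b1376 : PLift (entF (fidx ts) 400 1376 n1376 = true) := ⟨by decide +kernel⟩

theorem g1376 : GoodF (fidx ts) 400 1376 := GoodF.ofV v1376 n1376 c1376.down b1376.down

/-- 467464:1095/2 -/
noncomputable def e1377 : SCfg where
  D := {
    a := 6
    L := 9
    kp := 6
    inn := [(0, 1), (1, 0), (1, 2), (2, 1), (2, 3), (2, 4), (3, 2), (4, 2), (4, 5), (5, 4)]
    mix := [(0, 0), (0, 1), (0, 2), (1, 0), (1, 2), (1, 3), (1, 4), (2, 2), (2, 3), (2, 5), (2, 6), (3,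
      1), (3, 2), (3, 5), (4, 3), (4, 6), (4, 7), (4, 8), (5, 3), (5, 4), (5, 8)]
    cl := [3, 1, 0, 0, 2, 5, 0, 6, 4]
    chq := [(0, 3), (0, 4), (3, 0), (4, 0)]
    rng := [(0, 1), (0, 4), (1, 0), (1, 2), (1, 5), (2, 1), (3, 4), (4, 0), (4, 3), (4, 8), (5, 1), (5,
      6), (6, 5), (6, 7), (7, 6), (7, 8), (8, 4), (8, 7)]
    lev := [] }
  links := [[1, 6, 7, 8], [6, 0, 8, 2, 9, 10], [9, 1, 8, 3, 11, 12, 4], [11, 2, 8, 7], [9, 2, 12, 13, 14,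
    5], [9, 4, 14, 10]]
  P := {
    a := 6
    N := 15
    nb := [450, 1861, 6938, 2436, 29220, 17936, 1155, 2377, 143, 1078, 16994, 4236, 10260, 20496,
      9264]
    tri := [(0, 1, 6), (0, 1, 8), (0, 6, 7), (0, 7, 8), (1, 2, 8), (1, 2, 9), (1, 6, 10), (1, 9, 10),
      (2, 3, 8), (2, 3, 11), (2, 4, 9), (2, 4, 12), (2, 11, 12), (3, 7, 8), (3, 7, 11), (4, 5, 9),
      (4, 5, 14), (4, 12, 13), (4, 13, 14), (5, 9, 10), (5, 10, 14)]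
    fin := [0, 0, 2, 3, 2, 2, 0, 3, 2, 2, 10, 11, 2, 13, 14]
    chd := [(0, 2), (2, 14)]
    steps := [(0, 1), (0, 6), (2, 4), (2, 5), (2, 8), (2, 12), (2, 9), (3, 7)] }
  rep := [2, 3, 10, 0, 14, 11, 13]

noncomputable def v1377 : Cov.CovD where
  P := 3
  N := 4
  pl := [1, 4, 5, 7]
  lev := [⟨[], [], [(0, 3)], [1], [(0, 3, [0]), (2, 0, [3, 4])]⟩,
    ⟨[], [(0, 0), (0, 3)], [(0, 0), (0, 3)], [2], [(0, 3, [0]), (2, 0, [3, 4]), (3, 0, [3,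
      4])]⟩,
    ⟨[(0, 1)], [(0, 0), (1, 0), (1, 3)], [(0, 0)], [5], [(2, 0, [3, 4]), (3, 0, [3, 4]),
      (6, 0, [3, 4])]⟩,
    ⟨[(1, 2)], [(0, 0), (1, 0), (2, 0)], [], [1, 5], [(2, 0, [3, 4])]⟩,
    ⟨[(1, 2), (2, 3)], [(1, 0), (2, 0), (2, 4)], [(0, 0), (0, 4)], [6], [(3, 0, [3, 4]),
      (6, 0, [3, 4]), (8, 4, [0])]⟩,
    ⟨[(2, 4)], [(1, 0), (2, 0), (4, 0), (4, 4)], [(0, 4)], [2], [(3, 0, [3, 4]), (8, 4,
      [0])]⟩]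
  Ta := [((2, 1), 0, 1), ((3, 4), 0, 2), ((6, 5), 0, 5), ((6, 7), 0, 6)]
  Tb := [((0, 1, 4), 3, 1, 2), ((1, 0, 2), 1, 3, 0), ((1, 0, 5), 1, 3, 5), ((1, 2, 5), 1, 0, 5),
    ((4, 0, 3), 2, 3, 0), ((4, 0, 8), 2, 3, 4), ((4, 3, 8), 2, 0, 4), ((5, 1, 6), 5, 1, 0),
    ((6, 5, 7), 0, 5, 6), ((7, 6, 8), 6, 0, 4), ((8, 4, 7), 4, 2, 6)]
  Tc := [(0, 3, 4)]
  Td := [((0, 3), (2, 1), 1), ((0, 3), (3, 4), 2), ((0, 3), (6, 5), 5), ((0, 3), (6, 7), 6), ((0,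
    4), (2, 1), 1), ((0, 4), (3, 4), 2), ((0, 4), (6, 5), 5), ((0, 4), (6, 7), 6), ((3, 0),
    (0, 1), 1), ((3, 0), (0, 4), 2), ((4, 0), (8, 4), 2), ((4, 0), (8, 7), 6)]
  G := [[0, 0x1411ac81a44a6811618c1281c6a4c, 0, 0x1489ac841e44c6849618c88841eca4c,
    0x1482ac819e14c68126882a48814ce2c], [0, 0, 0x84ce128426882a48844ce29,
    0x8ca184ce1684c6184ce1a444488884cd, 0x82a18ac1682218a418886aa26882a4c2d], [0, 0, 0,
    0x85a145841e86845618c841e1a4c, 0x112e88a1e168126882a48814ce29]]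

noncomputable def n1377 : Ent := ⟨e1377, noF, [], [], []⟩

def c1377 : PLift (Cov.check n1377.C.D v1377 = true) := ⟨by decide +kernel⟩

def b1377 : PLift (entF (fidx ts) 400 1377 n1377 = true) := ⟨by decide +kernel⟩

theorem g1377 : GoodF (fidx ts) 400 1377 := GoodF.ofV v1377 n1377 c1377.down b1377.down

/-- 467464:1095/1 -/
noncomputable def e1378 : SCfg where
  D := {
    a := 6
    L := 10
    kp := 7
    inn := [(0, 1), (1, 0), (1, 2), (2, 1), (2, 3), (2, 4), (3, 2), (4, 2), (4, 5), (5, 4)]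
    mix := [(0, 0), (0, 1), (0, 2), (1, 0), (1, 2), (1, 3), (1, 4), (2, 2), (2, 3), (2, 5), (2, 6), (3,
      1), (3, 2), (3, 5), (4, 3), (4, 6), (4, 7), (4, 8), (5, 3), (5, 8), (5, 9)]
    cl := [4, 1, 0, 0, 5, 2, 0, 6, 3, 7]
    chq := [(0, 3), (1, 5), (3, 0), (5, 1)]
    rng := [(0, 1), (0, 4), (1, 0), (1, 2), (1, 5), (2, 1), (3, 4), (3, 9), (4, 0), (4, 3), (5, 1), (5,
      6), (6, 5), (6, 7), (7, 6), (7, 8), (8, 7), (8, 9), (9, 3), (9, 8)]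
    lev := [] }
  links := [[1, 6, 7, 8], [6, 0, 8, 2, 9, 10], [9, 1, 8, 3, 11, 12, 4], [11, 2, 8, 7], [9, 2, 12, 13, 14,
    5], [9, 4, 14, 15]]
  P := {
    a := 6
    N := 16
    nb := [450, 1861, 6938, 2436, 29220, 49680, 1155, 2377, 143, 33846, 578, 4236, 10260, 20496,
      41008, 16928]
    tri := [(0, 1, 6), (0, 1, 8), (0, 6, 7), (0, 7, 8), (1, 2, 8), (1, 2, 9), (1, 6, 10), (1, 9, 10),
      (2, 3, 8), (2, 3, 11), (2, 4, 9), (2, 4, 12), (2, 11, 12), (3, 7, 8), (3, 7, 11), (4, 5, 9),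
      (4, 5, 14), (4, 12, 13), (4, 13, 14), (5, 9, 15), (5, 14, 15)]
    fin := [0, 0, 2, 0, 2, 2, 6, 0, 2, 2, 10, 11, 2, 13, 14, 15]
    chd := [(0, 10), (2, 14)]
    steps := [(0, 1), (0, 7), (2, 4), (2, 5), (2, 8), (0, 3), (2, 12), (2, 9)] }
  rep := [2, 0, 11, 14, 6, 10, 13, 15]

noncomputable def v1378 : Cov.CovD where
  P := 3
  N := 5
  pl := [0, 5, 7, 9]
  lev := [⟨[], [], [(0, 1)], [4], [(1, 1, [5]), (2, 0, [3])]⟩,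
    ⟨[], [(0, 0), (0, 1), (0, 5)], [(0, 0), (0, 5)], [4], [(2, 0, [3]), (3, 0, [3]), (4, 5,
      [1])]⟩,
    ⟨[(0, 1)], [(0, 0), (1, 0), (1, 5)], [(0, 0)], [2], [(2, 0, [3]), (3, 0, [3]), (6, 0,
      [3])]⟩,
    ⟨[(1, 2)], [(0, 0), (0, 1), (1, 0), (2, 0), (2, 1)], [(0, 1)], [2], [(1, 1, [5]), (2,
      0, [3])]⟩,
    ⟨[(1, 2), (2, 3)], [(1, 0), (2, 0), (2, 3)], [(0, 0), (0, 3)], [6], [(3, 0, [3]), (6,
      0, [3]), (8, 3, [0])]⟩,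
    ⟨[(2, 4)], [(1, 0), (2, 0), (4, 0), (4, 3)], [(0, 3)], [7], [(3, 0, [3]), (8, 3, [0])]⟩]
  Ta := [((2, 1), 0, 1), ((3, 4), 0, 5), ((3, 9), 0, 7), ((6, 5), 0, 2), ((6, 7), 0, 6)]
  Tb := [((0, 1, 4), 4, 1, 5), ((1, 0, 2), 1, 4, 0), ((1, 0, 5), 1, 4, 2), ((1, 2, 5), 1, 0, 2),
    ((3, 4, 9), 0, 5, 7), ((4, 0, 3), 5, 4, 0), ((5, 1, 6), 2, 1, 0), ((6, 5, 7), 0, 2, 6),
    ((7, 6, 8), 6, 0, 3), ((8, 7, 9), 3, 6, 7), ((9, 3, 8), 7, 0, 3)]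
  Tc := []
  Td := [((0, 3), (2, 1), 1), ((0, 3), (3, 4), 5), ((0, 3), (3, 9), 7), ((0, 3), (6, 5), 2), ((0,
    3), (6, 7), 6), ((1, 5), (1, 0), 4), ((1, 5), (1, 2), 0), ((1, 5), (1, 5), 2), ((3, 0),
    (8, 7), 6), ((3, 0), (8, 9), 7), ((5, 1), (4, 0), 4), ((5, 1), (4, 3), 0)]
  G := [[0, 0x111e848111e484111e842e, 0, 0x539e482eb1e842c, 0x539e829368588aa395e82128edc8a6c],
    [0, 0, 0, 0x6eee1881c2ee68e88c29, 0xeece1282218a28ee4e1acee68e88a2d], [0, 0,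
    0x111e84111e48c111e4825, 0x359e48293be8425, 0x395e828935e824e281ec8a2d]]

noncomputable def n1378 : Ent := ⟨e1378, noF, [], [], [(15, 10, [360035742630637297931254766822518807307257169425207333492232193, 0])]⟩

def c1378 : PLift (Cov.check n1378.C.D v1378 = true) := ⟨by decide +kernel⟩

def b1378 : PLift (entF (fidx ts) 400 1378 n1378 = true) := ⟨by decide +kernel⟩

theorem g1378 : GoodF (fidx ts) 400 1378 := GoodF.ofV v1378 n1378 c1378.down b1378.down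

/-- 467464:1095/3 -/
noncomputable def e1379 : SCfg where
  D := {
    a := 6
    L := 10
    kp := 7
    inn := [(0, 1), (1, 0), (1, 2), (2, 1), (2, 3), (2, 4), (3, 2), (4, 2), (4, 5), (5, 4)]
    mix := [(0, 0), (0, 1), (0, 2), (1, 0), (1, 2), (1, 3), (1, 4), (2, 2), (2, 3), (2, 5), (2, 6), (3,
      2), (3, 5), (3, 7), (4, 3), (4, 6), (4, 8), (4, 9), (5, 3), (5, 4), (5, 9)]
    cl := [1, 5, 0, 0, 3, 2, 0, 6, 7, 4]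
    chq := [(0, 4), (3, 5), (4, 0), (5, 3)]
    rng := [(0, 1), (0, 4), (1, 0), (1, 2), (2, 1), (2, 7), (3, 4), (4, 0), (4, 3), (4, 9), (5, 6), (5,
      7), (6, 5), (6, 8), (7, 2), (7, 5), (8, 6), (8, 9), (9, 4), (9, 8)]
    lev := [] }
  links := [[1, 6, 7, 8], [6, 0, 8, 2, 9, 10], [9, 1, 8, 3, 11, 12, 4], [11, 2, 8, 13], [9, 2, 12, 14,
    15, 5], [9, 4, 15, 10]]
  P := {
    a := 6
    N := 16
    nb := [450, 1861, 6938, 10500, 53796, 34320, 1155, 321, 8335, 1078, 33378, 12300, 18452, 2312,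
      36880, 17456]
    tri := [(0, 1, 6), (0, 1, 8), (0, 6, 7), (0, 7, 8), (1, 2, 8), (1, 2, 9), (1, 6, 10), (1, 9, 10),
      (2, 3, 8), (2, 3, 11), (2, 4, 9), (2, 4, 12), (2, 11, 12), (3, 8, 13), (3, 11, 13), (4, 5,
      9), (4, 5, 15), (4, 12, 14), (4, 14, 15), (5, 9, 10), (5, 10, 15)]
    fin := [0, 0, 2, 2, 2, 2, 6, 0, 2, 2, 10, 11, 2, 13, 14, 15]
    chd := [(0, 10), (2, 15)]
    steps := [(0, 1), (0, 7), (2, 3), (2, 4), (2, 5), (2, 8), (2, 12), (2, 9)] }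
  rep := [2, 6, 11, 10, 15, 0, 13, 14]

noncomputable def v1379 : Cov.CovD where
  P := 3
  N := 5
  pl := [0, 5, 7, 8]
  lev := [⟨[], [], [(0, 5)], [1], [(1, 5, [3]), (2, 0, [4])]⟩,
    ⟨[], [(0, 0), (0, 3), (0, 5)], [(0, 0), (0, 3)], [1], [(2, 0, [4]), (3, 0, [4]), (4, 3,
      [5])]⟩,
    ⟨[(0, 1)], [(0, 0), (1, 0), (1, 3)], [(0, 0)], [2], [(2, 0, [4]), (3, 0, [4]), (6, 0,
      [4])]⟩,
    ⟨[(1, 2)], [(0, 0), (1, 0), (2, 0)], [], [2, 6], [(2, 0, [4])]⟩,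
    ⟨[(1, 2), (2, 3)], [(1, 0), (2, 0), (2, 4)], [(0, 0), (0, 4)], [7], [(3, 0, [4]), (6,
      0, [4]), (9, 4, [0])]⟩,
    ⟨[(2, 4)], [(1, 0), (1, 3), (2, 0), (4, 0), (4, 3), (4, 4)], [(0, 3), (0, 4), (3, 4)],
      [], [(3, 0, [4]), (4, 3, [5]), (9, 4, [0])]⟩]
  Ta := [((2, 1), 0, 5), ((2, 7), 0, 6), ((3, 4), 0, 3), ((6, 5), 0, 2), ((6, 8), 0, 7)]
  Tb := [((0, 1, 4), 1, 5, 3), ((1, 0, 2), 5, 1, 0), ((2, 1, 7), 0, 5, 6), ((4, 0, 3), 3, 1, 0),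
    ((4, 0, 9), 3, 1, 4), ((4, 3, 9), 3, 0, 4), ((5, 6, 7), 2, 0, 6), ((6, 5, 8), 0, 2, 7),
    ((7, 2, 5), 6, 0, 2), ((8, 6, 9), 7, 0, 4), ((9, 4, 8), 4, 3, 7)]
  Tc := []
  Td := [((0, 4), (2, 1), 5), ((0, 4), (2, 7), 6), ((0, 4), (3, 4), 3), ((0, 4), (6, 5), 2), ((0,
    4), (6, 8), 7), ((3, 5), (4, 0), 1), ((3, 5), (4, 3), 0), ((3, 5), (4, 9), 4), ((4, 0),
    (9, 4), 3), ((4, 0), (9, 8), 7), ((5, 3), (1, 0), 1), ((5, 3), (1, 2), 0)]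
  G := [[0, 0xd261d2ec188c2944819e81acc8a, 0, 0x416145ec588c414481ee89acc8c,
    0x4e6145ea188a4122819e89caa8c], [0, 0x88146e2e18a441eea1c46, 0, 0x441eea1c44418aee1c8c,
    0x64ee1881a4ee61881a8c], [0x112e111ea42811e111ec28a, 0x132e142541e1846,
    0x111e111ea4141e111e68c1, 0x14be184819e148c, 0x541e124871e128c]]

noncomputable def n1379 : Ent := ⟨e1379, noF, [], [], [(7, 13, [385753028440516072301428330182238677962518295842732840412647425, 0])]⟩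

def c1379 : PLift (Cov.check n1379.C.D v1379 = true) := ⟨by decide +kernel⟩

def b1379 : PLift (entF (fidx ts) 400 1379 n1379 = true) := ⟨by decide +kernel⟩

theorem g1379 : GoodF (fidx ts) 400 1379 := GoodF.ofV v1379 n1379 c1379.down b1379.down

/-- 467464:1095 -/
noncomputable def e1380 : SCfg where
  D := {
    a := 6
    L := 11
    kp := 8
    inn := [(0, 1), (1, 0), (1, 2), (2, 1), (2, 3), (2, 4), (3, 2), (4, 2), (4, 5), (5, 4)]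
    mix := [(0, 0), (0, 1), (0, 2), (1, 0), (1, 2), (1, 3), (1, 4), (2, 2), (2, 3), (2, 5), (2, 6), (3,
      2), (3, 5), (3, 7), (4, 3), (4, 6), (4, 8), (4, 9), (5, 3), (5, 9), (5, 10)]
    cl := [1, 4, 0, 0, 5, 2, 0, 6, 7, 3, 8]
    chq := [(0, 3), (3, 0), (4, 5), (5, 4)]
    rng := [(0, 1), (0, 4), (1, 0), (1, 2), (2, 1), (2, 7), (3, 4), (3, 10), (4, 0), (4, 3), (5, 6),
      (5, 7), (6, 5), (6, 8), (7, 2), (7, 5), (8, 6), (8, 9), (9, 8), (9, 10), (10, 3), (10, 9)]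
    lev := [] }
  links := [[1, 6, 7, 8], [6, 0, 8, 2, 9, 10], [9, 1, 8, 3, 11, 12, 4], [11, 2, 8, 13], [9, 2, 12, 14,
    15, 5], [9, 4, 15, 16]]
  P := {
    a := 6
    N := 17
    nb := [450, 1861, 6938, 10500, 53796, 98832, 1155, 321, 8335, 66614, 578, 12300, 18452, 2312,
      36880, 81968, 33312]
    tri := [(0, 1, 6), (0, 1, 8), (0, 6, 7), (0, 7, 8), (1, 2, 8), (1, 2, 9), (1, 6, 10), (1, 9, 10),
      (2, 3, 8), (2, 3, 11), (2, 4, 9), (2, 4, 12), (2, 11, 12), (3, 8, 13), (3, 11, 13), (4, 5,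
      9), (4, 5, 15), (4, 12, 14), (4, 14, 15), (5, 9, 16), (5, 15, 16)]
    fin := [0, 0, 2, 2, 2, 2, 6, 0, 2, 2, 10, 11, 2, 13, 14, 15, 16]
    chd := [(0, 10), (2, 15)]
    steps := [(0, 1), (0, 7), (2, 3), (2, 4), (2, 5), (2, 8), (2, 12), (2, 9)] }
  rep := [2, 6, 11, 15, 0, 10, 13, 14, 16]

noncomputable def v1380 : Cov.CovD where
  P := 3
  N := 6
  pl := [0, 5, 7, 8, 10]
  lev := [⟨[], [], [(0, 4)], [1], [(1, 4, [5]), (2, 0, [3])]⟩,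
    ⟨[], [(0, 0), (0, 4), (0, 5)], [(0, 0), (0, 5)], [1], [(2, 0, [3]), (3, 0, [3]), (4, 5,
      [4])]⟩,
    ⟨[(0, 1)], [(0, 0), (1, 0), (1, 5)], [(0, 0)], [2], [(2, 0, [3]), (3, 0, [3]), (6, 0,
      [3])]⟩,
    ⟨[(1, 2)], [(0, 0), (1, 0), (2, 0)], [], [2, 6], [(2, 0, [3])]⟩,
    ⟨[(1, 2), (2, 3)], [(1, 0), (2, 0), (2, 3)], [(0, 0), (0, 3)], [7], [(3, 0, [3]), (6,
      0, [3]), (9, 3, [0])]⟩,
    ⟨[(2, 4)], [(1, 0), (2, 0), (4, 0), (4, 3)], [(0, 3)], [8], [(3, 0, [3]), (9, 3, [0])]⟩]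
  Ta := [((2, 1), 0, 4), ((2, 7), 0, 6), ((3, 4), 0, 5), ((3, 10), 0, 8), ((6, 5), 0, 2), ((6,
    8), 0, 7)]
  Tb := [((0, 1, 4), 1, 4, 5), ((1, 0, 2), 4, 1, 0), ((2, 1, 7), 0, 4, 6), ((3, 4, 10), 0, 5, 8),
    ((4, 0, 3), 5, 1, 0), ((5, 6, 7), 2, 0, 6), ((6, 5, 8), 0, 2, 7), ((7, 2, 5), 6, 0, 2),
    ((8, 6, 9), 7, 0, 3), ((9, 8, 10), 3, 7, 8), ((10, 3, 9), 8, 0, 3)]
  Tc := []
  Td := [((0, 3), (2, 1), 4), ((0, 3), (2, 7), 6), ((0, 3), (3, 4), 5), ((0, 3), (3, 10), 8),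
    ((0, 3), (6, 5), 2), ((0, 3), (6, 8), 7), ((3, 0), (9, 8), 7), ((3, 0), (9, 10), 8), ((4,
    5), (1, 0), 1), ((4, 5), (1, 2), 0), ((5, 4), (4, 0), 1), ((5, 4), (4, 3), 0)]
  G := [[0, 0x57c4537e32cc2536717ec988c46, 0, 0xb4359ec1ba8c4d164593ed8cc8c,
    0x3229e5e59caa45962e59e38aa8c], [0, 0x6eee1881c4e41eea1c8c, 0, 0xee61e81c4441eaee1c8c,
    0xee61e81a4e21eec1a8c], [0x111e111ea42111e111ec246, 0x1bbe14217ee1846,
    0x111e18116e4111e111e68c1, 0x39ee184bb1e148c, 0x539e124ee1e128c]]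

noncomputable def n1380 : Ent := ⟨e1380, noF, [], [], [(7, 13, [1685382419725355503238989871268909155780284044704628512909405069313, 0]), (16, 10, [1580044410770988437858045522355060435978463990222429564876669464577, 0])]⟩

def c1380 : PLift (Cov.check n1380.C.D v1380 = true) := ⟨by decide +kernel⟩

def b1380 : PLift (entF (fidx ts) 400 1380 n1380 = true) := ⟨by decide +kernel⟩

theorem g1380 : GoodF (fidx ts) 400 1380 := GoodF.ofV v1380 n1380 c1380.down b1380.down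

/-- 467644:1096/1 -/
noncomputable def e1381 : SCfg where
  D := {
    a := 6
    L := 10
    kp := 7
    inn := [(0, 1), (1, 0), (1, 2), (2, 1), (2, 3), (2, 5), (3, 2), (3, 4), (4, 3), (5, 2)]
    mix := [(0, 0), (0, 1), (0, 2), (1, 0), (1, 2), (1, 3), (1, 4), (2, 2), (2, 3), (2, 5), (2, 6), (3,
      1), (3, 2), (3, 5), (3, 7), (4, 5), (4, 7), (4, 8), (5, 3), (5, 6), (5, 9)]
    cl := [3, 1, 0, 0, 6, 0, 2, 4, 5, 7]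
    chq := [(0, 3), (1, 5), (3, 0), (5, 1)]
    rng := [(0, 1), (0, 4), (1, 0), (1, 2), (1, 7), (2, 1), (3, 4), (3, 9), (4, 0), (4, 3), (5, 6), (5,
      8), (6, 5), (6, 9), (7, 1), (7, 8), (8, 5), (8, 7), (9, 3), (9, 6)]
    lev := [] }
  links := [[1, 6, 7, 8], [6, 0, 8, 2, 9, 10], [9, 1, 8, 3, 11, 12, 5], [11, 2, 8, 7, 13, 4], [11, 3, 13,
    14], [9, 2, 12, 15]]
  P := {
    a := 6
    N := 16
    nb := [450, 1861, 6954, 10644, 26632, 37380, 1155, 8521, 143, 33830, 578, 20508, 34852, 16536,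
      10256, 4640]
    tri := [(0, 1, 6), (0, 1, 8), (0, 6, 7), (0, 7, 8), (1, 2, 8), (1, 2, 9), (1, 6, 10), (1, 9, 10),
      (2, 3, 8), (2, 3, 11), (2, 5, 9), (2, 5, 12), (2, 11, 12), (3, 4, 11), (3, 4, 13), (3, 7,
      8), (3, 7, 13), (4, 11, 14), (4, 13, 14), (5, 9, 15), (5, 12, 15)]
    fin := [0, 0, 2, 3, 3, 2, 0, 3, 2, 2, 10, 2, 12, 13, 14, 15]
    chd := [(0, 2), (3, 14)]
    steps := [(0, 1), (0, 6), (2, 5), (2, 8), (2, 11), (2, 9), (3, 4), (3, 7)] }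
  rep := [2, 3, 12, 0, 13, 14, 10, 15]

noncomputable def v1381 : Cov.CovD where
  P := 3
  N := 5
  pl := [4, 6, 7, 9]
  lev := [⟨[], [], [(0, 1), (0, 3), (1, 3)], [], [(0, 3, [0]), (1, 1, [5]), (2, 0, [3])]⟩,
    ⟨[], [(0, 0), (0, 1), (0, 3)], [(0, 0), (0, 3)], [6], [(0, 3, [0]), (2, 0, [3]), (3, 0,
      [3])]⟩,
    ⟨[(0, 1)], [(0, 0), (1, 0), (1, 3)], [(0, 0)], [2], [(2, 0, [3]), (3, 0, [3]), (5, 0,
      [3])]⟩,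
    ⟨[(1, 2)], [(0, 0), (0, 1), (1, 0), (2, 0), (2, 1)], [(0, 0), (0, 1)], [4], [(1, 1,
      [5]), (2, 0, [3]), (5, 0, [3])]⟩,
    ⟨[(2, 3)], [(2, 0), (3, 0), (3, 1), (3, 5)], [(0, 5)], [4], [(5, 0, [3]), (8, 5, [1])]⟩,
    ⟨[(1, 2), (2, 3)], [(1, 0), (2, 0)], [], [2, 7], [(3, 0, [3])]⟩]
  Ta := [((2, 1), 0, 1), ((3, 4), 0, 6), ((3, 9), 0, 7), ((5, 6), 0, 2), ((5, 8), 0, 5)]
  Tb := [((0, 1, 4), 3, 1, 6), ((1, 0, 2), 1, 3, 0), ((1, 0, 7), 1, 3, 4), ((1, 2, 7), 1, 0, 4),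
    ((3, 4, 9), 0, 6, 7), ((4, 0, 3), 6, 3, 0), ((5, 6, 8), 0, 2, 5), ((6, 5, 9), 2, 0, 7),
    ((7, 1, 8), 4, 1, 5), ((8, 5, 7), 5, 0, 4), ((9, 3, 6), 7, 0, 2)]
  Tc := []
  Td := [((0, 3), (2, 1), 1), ((0, 3), (3, 4), 6), ((0, 3), (3, 9), 7), ((0, 3), (5, 6), 2), ((0,
    3), (5, 8), 5), ((1, 5), (1, 0), 3), ((1, 5), (1, 2), 0), ((1, 5), (1, 7), 4), ((3, 0),
    (0, 1), 1), ((3, 0), (0, 4), 6), ((5, 1), (8, 5), 0), ((5, 1), (8, 7), 4)]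
  G := [[0, 0x111164811116841111c82e, 0, 0x1211c41112c4a1211c81112c86c,
    0x1112c21112c2a1112c21211c26c], [0, 0, 0, 0xc291c4852853c8441488184424c182cced,
    0xa2a1c28a2a1c2421a2c818a2d], [0, 0, 0xa66ea2c4a2aacec266aea2c4e1,
    0x11611ac4812111ec84111e12c42d, 0x11a116c28111e12c2411a116c22d]]

noncomputable def n1381 : Ent := ⟨e1381, noF, [], [], []⟩

def c1381 : PLift (Cov.check n1381.C.D v1381 = true) := ⟨by decide +kernel⟩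

def b1381 : PLift (entF (fidx ts) 400 1381 n1381 = true) := ⟨by decide +kernel⟩

theorem g1381 : GoodF (fidx ts) 400 1381 := GoodF.ofV v1381 n1381 c1381.down b1381.down

/-- 467644:1096 -/
noncomputable def e1382 : SCfg where
  D := {
    a := 6
    L := 11
    kp := 8
    inn := [(0, 1), (1, 0), (1, 2), (2, 1), (2, 3), (2, 5), (3, 2), (3, 4), (4, 3), (5, 2)]
    mix := [(0, 0), (0, 1), (0, 2), (1, 0), (1, 2), (1, 3), (1, 4), (2, 2), (2, 3), (2, 5), (2, 6), (3,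
      2), (3, 5), (3, 7), (3, 8), (4, 5), (4, 8), (4, 9), (5, 3), (5, 6), (5, 10)]
    cl := [1, 4, 0, 0, 5, 0, 2, 6, 3, 7, 8]
    chq := [(0, 1), (0, 3), (1, 0), (3, 0)]
    rng := [(0, 1), (0, 4), (1, 0), (1, 2), (2, 1), (2, 7), (3, 4), (3, 10), (4, 0), (4, 3), (5, 6),
      (5, 9), (6, 5), (6, 10), (7, 2), (7, 8), (8, 7), (8, 9), (9, 5), (9, 8), (10, 3), (10, 6)]
    lev := [] }
  links := [[1, 6, 7, 8], [6, 0, 8, 2, 9, 10], [9, 1, 8, 3, 11, 12, 5], [11, 2, 8, 13, 14, 4], [11, 3,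
    14, 15], [9, 2, 12, 16]]
  P := {
    a := 6
    N := 17
    nb := [450, 1861, 6954, 26900, 51208, 70148, 1155, 321, 8335, 66598, 578, 36892, 67620, 16648,
      40984, 18448, 4640]
    tri := [(0, 1, 6), (0, 1, 8), (0, 6, 7), (0, 7, 8), (1, 2, 8), (1, 2, 9), (1, 6, 10), (1, 9, 10),
      (2, 3, 8), (2, 3, 11), (2, 5, 9), (2, 5, 12), (2, 11, 12), (3, 4, 11), (3, 4, 14), (3, 8,
      13), (3, 13, 14), (4, 11, 15), (4, 14, 15), (5, 9, 16), (5, 12, 16)]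
    fin := [0, 0, 2, 2, 2, 2, 0, 7, 2, 2, 10, 2, 12, 13, 14, 15, 16]
    chd := [(0, 2), (2, 14)]
    steps := [(0, 1), (0, 6), (2, 3), (2, 4), (2, 5), (2, 8), (2, 11), (2, 9)] }
  rep := [2, 0, 12, 14, 7, 10, 13, 15, 16]

noncomputable def v1382 : Cov.CovD where
  P := 3
  N := 6
  pl := [1, 4, 6, 7, 9, 10]
  lev := [⟨[], [], [(0, 1)], [4], [(0, 1, [0]), (2, 0, [1, 3])]⟩,
    ⟨[], [(0, 0), (0, 1)], [(0, 0), (0, 1)], [5], [(0, 1, [0]), (2, 0, [1, 3]), (3, 0, [1,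
      3])]⟩,
    ⟨[(0, 1)], [(0, 0), (1, 0), (1, 1)], [(0, 0)], [2], [(2, 0, [1, 3]), (3, 0, [1, 3]),
      (5, 0, [1, 3])]⟩,
    ⟨[(1, 2)], [(0, 0), (1, 0), (2, 0), (2, 3)], [(0, 0), (0, 3)], [6], [(2, 0, [1, 3]),
      (5, 0, [1, 3]), (8, 3, [0])]⟩,
    ⟨[(2, 3)], [(2, 0), (3, 0), (3, 3)], [(0, 3)], [7], [(5, 0, [1, 3]), (8, 3, [0])]⟩,
    ⟨[(1, 2), (2, 3)], [(1, 0), (2, 0)], [], [2, 8], [(3, 0, [1, 3])]⟩]
  Ta := [((2, 1), 0, 4), ((2, 7), 0, 6), ((3, 4), 0, 5), ((3, 10), 0, 8), ((5, 6), 0, 2), ((5,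
    9), 0, 7)]
  Tb := [((0, 1, 4), 1, 4, 5), ((1, 0, 2), 4, 1, 0), ((2, 1, 7), 0, 4, 6), ((3, 4, 10), 0, 5, 8),
    ((4, 0, 3), 5, 1, 0), ((5, 6, 9), 0, 2, 7), ((6, 5, 10), 2, 0, 8), ((7, 2, 8), 6, 0, 3),
    ((8, 7, 9), 3, 6, 7), ((9, 5, 8), 7, 0, 3), ((10, 3, 6), 8, 0, 2)]
  Tc := [(0, 1, 3)]
  Td := [((0, 1), (2, 1), 4), ((0, 1), (2, 7), 6), ((0, 1), (3, 4), 5), ((0, 1), (3, 10), 8),
    ((0, 1), (5, 6), 2), ((0, 1), (5, 9), 7), ((0, 3), (2, 1), 4), ((0, 3), (2, 7), 6), ((0,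
    3), (3, 4), 5), ((0, 3), (3, 10), 8), ((0, 3), (5, 6), 2), ((0, 3), (5, 9), 7), ((1, 0),
    (0, 1), 4), ((1, 0), (0, 4), 5), ((3, 0), (8, 7), 6), ((3, 0), (8, 9), 7)]
  G := [[0, 0x111111e82111111e84111111e48e, 0,
    0x115119113e4113115119e8c11311561198c11111e111ee8cc,
    0x111e115119e2119113115e2c119113115e2113115119e2cc], [0, 0x111111e84111111e48111111e82e,
    0, 0x4141c5189cc3ec411c51c3e1898cc1, 0x12321a9aa581eaaa5aaae61a98ac1], [0,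
    0x111111e48111111e84111111e42e, 0x64666e6accec6acaccae6aae666ae8ac1,
    0x111e4111e111eac111e111e6111e8cc1, 0x111e2111e111eca111e2111e111ecac1]]

noncomputable def n1382 : Ent := ⟨e1382, noF, [], [], [(7, 13, [1685382419725355503238989871268909155780284044704628512909405081601, 0])]⟩

def c1382 : PLift (Cov.check n1382.C.D v1382 = true) := ⟨by decide +kernel⟩

def b1382 : PLift (entF (fidx ts) 400 1382 n1382 = true) := ⟨by decide +kernel⟩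

theorem g1382 : GoodF (fidx ts) 400 1382 := GoodF.ofV v1382 n1382 c1382.down b1382.down

/-- 467464:1097/1 -/
noncomputable def e1383 : SCfg where
  D := {
    a := 6
    L := 10
    kp := 7
    inn := [(0, 1), (1, 0), (1, 2), (2, 1), (2, 3), (2, 4), (3, 2), (4, 2), (4, 5), (5, 4)]
    mix := [(0, 0), (0, 1), (0, 2), (1, 0), (1, 2), (1, 3), (1, 4), (2, 2), (2, 3), (2, 5), (2, 6), (3,
      5), (3, 6), (3, 7), (4, 2), (4, 5), (4, 8), (4, 9), (5, 1), (5, 2), (5, 8)]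
    cl := [3, 1, 0, 0, 6, 0, 2, 7, 4, 5]
    chq := [(0, 3), (1, 5), (3, 0), (5, 1)]
    rng := [(0, 1), (0, 4), (1, 0), (1, 2), (1, 8), (2, 1), (3, 4), (3, 6), (4, 0), (4, 3), (5, 7), (5,
      9), (6, 3), (6, 7), (7, 5), (7, 6), (8, 1), (8, 9), (9, 5), (9, 8)]
    lev := [] }
  links := [[1, 6, 7, 8], [6, 0, 8, 2, 9, 10], [9, 1, 8, 4, 11, 3, 12], [12, 2, 11, 13], [11, 2, 8, 5,
    14, 15], [14, 4, 8, 7]]
  P := {
    a := 6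
    N := 16
    nb := [450, 1861, 6938, 14340, 51492, 16784, 1155, 16737, 183, 5126, 578, 40988, 8716, 6152,
      32944, 18448]
    tri := [(0, 1, 6), (0, 1, 8), (0, 6, 7), (0, 7, 8), (1, 2, 8), (1, 2, 9), (1, 6, 10), (1, 9, 10),
      (2, 3, 11), (2, 3, 12), (2, 4, 8), (2, 4, 11), (2, 9, 12), (3, 11, 13), (3, 12, 13), (4, 5,
      8), (4, 5, 14), (4, 11, 15), (4, 14, 15), (5, 7, 8), (5, 7, 14)]
    fin := [0, 0, 2, 2, 4, 4, 0, 4, 2, 2, 10, 2, 12, 13, 14, 15]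
    chd := [(0, 2), (4, 15)]
    steps := [(0, 1), (0, 6), (2, 3), (2, 8), (2, 11), (2, 9), (4, 5), (4, 7)] }
  rep := [2, 4, 12, 0, 14, 15, 10, 13]

noncomputable def v1383 : Cov.CovD where
  P := 3
  N := 5
  pl := [4, 6, 7, 8]
  lev := [⟨[], [], [(0, 1), (0, 3), (1, 3)], [], [(0, 3, [0]), (1, 1, [5]), (2, 0, [3])]⟩,
    ⟨[], [(0, 0), (0, 1), (0, 3)], [(0, 0), (0, 3)], [6], [(0, 3, [0]), (2, 0, [3]), (3, 0,
      [3])]⟩,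
    ⟨[(0, 1)], [(0, 0), (1, 0), (1, 3)], [(0, 0)], [2], [(2, 0, [3]), (3, 0, [3]), (5, 0,
      [3])]⟩,
    ⟨[(1, 2)], [(2, 0)], [], [2, 7], [(5, 0, [3])]⟩,
    ⟨[(1, 2), (2, 3)], [(0, 0), (1, 0), (2, 0), (2, 5), (3, 0)], [(0, 0), (0, 5)], [4],
      [(2, 0, [3]), (5, 0, [3]), (9, 5, [1])]⟩,
    ⟨[(2, 4)], [(0, 0), (0, 1), (1, 0), (2, 0), (4, 0), (4, 1), (4, 5)], [(0, 1)], [4],
      [(1, 1, [5]), (2, 0, [3])]⟩]
  Ta := [((2, 1), 0, 1), ((3, 4), 0, 6), ((3, 6), 0, 2), ((5, 7), 0, 7), ((5, 9), 0, 5)]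
  Tb := [((0, 1, 4), 3, 1, 6), ((1, 0, 2), 1, 3, 0), ((1, 0, 8), 1, 3, 4), ((1, 2, 8), 1, 0, 4),
    ((3, 4, 6), 0, 6, 2), ((4, 0, 3), 6, 3, 0), ((5, 7, 9), 0, 7, 5), ((6, 3, 7), 2, 0, 7),
    ((7, 5, 6), 7, 0, 2), ((8, 1, 9), 4, 1, 5), ((9, 5, 8), 5, 0, 4)]
  Tc := []
  Td := [((0, 3), (2, 1), 1), ((0, 3), (3, 4), 6), ((0, 3), (3, 6), 2), ((0, 3), (5, 7), 7), ((0,
    3), (5, 9), 5), ((1, 5), (1, 0), 3), ((1, 5), (1, 2), 0), ((1, 5), (1, 8), 4), ((3, 0),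
    (0, 1), 1), ((3, 0), (0, 4), 6), ((5, 1), (9, 5), 0), ((5, 1), (9, 8), 4)]
  G := [[0, 0x8a2e148642e184642e182e, 0, 0x88ce1444ce18a44ce1844ce186c,
    0x84ce1244ce18a44ce1844ce186c], [0, 0, 0x88ce88cea44444c8ca8caac48ce44ce68e1,
    0x881e14818ce18488ce142d, 0x841e128119e18444ce182d], [0, 0, 0,
    0x115e19a14d4815611ce48d848448488444488ce8cacced,
    0x819e84ca21228a816145ea888a4c228c244cea84c8aad]]

noncomputable def n1383 : Ent := ⟨e1383, noF, [], [], []⟩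

def c1383 : PLift (Cov.check n1383.C.D v1383 = true) := ⟨by decide +kernel⟩

def b1383 : PLift (entF (fidx ts) 400 1383 n1383 = true) := ⟨by decide +kernel⟩

theorem g1383 : GoodF (fidx ts) 400 1383 := GoodF.ofV v1383 n1383 c1383.down b1383.down

/-- 467464:1097 -/
noncomputable def e1384 : SCfg where
  D := {
    a := 6
    L := 11
    kp := 8
    inn := [(0, 1), (1, 0), (1, 2), (2, 1), (2, 3), (2, 4), (3, 2), (4, 2), (4, 5), (5, 4)]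
    mix := [(0, 0), (0, 1), (0, 2), (1, 0), (1, 2), (1, 3), (1, 4), (2, 2), (2, 3), (2, 5), (2, 6), (3,
      5), (3, 6), (3, 7), (4, 2), (4, 5), (4, 8), (4, 9), (5, 2), (5, 8), (5, 10)]
    cl := [1, 6, 0, 0, 7, 0, 2, 8, 3, 4, 5]
    chq := [(0, 1), (1, 0), (4, 5), (5, 4)]
    rng := [(0, 1), (0, 4), (1, 0), (1, 2), (2, 1), (2, 10), (3, 4), (3, 6), (4, 0), (4, 3), (5, 7),
      (5, 9), (6, 3), (6, 7), (7, 5), (7, 6), (8, 9), (8, 10), (9, 5), (9, 8), (10, 2), (10, 8)]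
    lev := [] }
  links := [[1, 6, 7, 8], [6, 0, 8, 2, 9, 10], [9, 1, 8, 4, 11, 3, 12], [12, 2, 11, 13], [11, 2, 8, 5,
    14, 15], [14, 4, 8, 16]]
  P := {
    a := 6
    N := 17
    nb := [450, 1861, 6938, 14340, 51492, 82192, 1155, 321, 65719, 5126, 578, 40988, 8716, 6152,
      98352, 18448, 16672]
    tri := [(0, 1, 6), (0, 1, 8), (0, 6, 7), (0, 7, 8), (1, 2, 8), (1, 2, 9), (1, 6, 10), (1, 9, 10),
      (2, 3, 11), (2, 3, 12), (2, 4, 8), (2, 4, 11), (2, 9, 12), (3, 11, 13), (3, 12, 13), (4, 5,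
      8), (4, 5, 14), (4, 11, 15), (4, 14, 15), (5, 8, 16), (5, 14, 16)]
    fin := [0, 0, 2, 2, 4, 4, 0, 7, 2, 2, 10, 2, 12, 13, 14, 15, 4]
    chd := [(0, 2), (15, 4)]
    steps := [(0, 1), (0, 6), (2, 3), (2, 8), (2, 11), (2, 9), (4, 5), (4, 16)] }
  rep := [2, 0, 12, 14, 15, 4, 7, 10, 13]

noncomputable def v1384 : Cov.CovD where
  P := 3
  N := 6
  pl := [1, 4, 6, 7, 8]
  lev := [⟨[], [], [(0, 1)], [6], [(0, 1, [0]), (2, 0, [1])]⟩,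
    ⟨[], [(0, 0), (0, 1)], [(0, 0), (0, 1)], [7], [(0, 1, [0]), (2, 0, [1]), (3, 0, [1])]⟩,
    ⟨[(0, 1)], [(0, 0), (1, 0), (1, 1)], [(0, 0)], [2], [(2, 0, [1]), (3, 0, [1]), (5, 0,
      [1])]⟩,
    ⟨[(1, 2)], [(2, 0)], [], [2, 8], [(5, 0, [1])]⟩,
    ⟨[(1, 2), (2, 3)], [(0, 0), (1, 0), (2, 0), (2, 4), (3, 0)], [(0, 0), (0, 4)], [3],
      [(2, 0, [1]), (5, 0, [1]), (9, 4, [5])]⟩,
    ⟨[(2, 4)], [(0, 0), (1, 0), (2, 0), (4, 0), (4, 4), (4, 5)], [(0, 5)], [3], [(2, 0,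
      [1]), (10, 5, [4])]⟩]
  Ta := [((2, 1), 0, 6), ((2, 10), 0, 5), ((3, 4), 0, 7), ((3, 6), 0, 2), ((5, 7), 0, 8), ((5,
    9), 0, 4)]
  Tb := [((0, 1, 4), 1, 6, 7), ((1, 0, 2), 6, 1, 0), ((2, 1, 10), 0, 6, 5), ((3, 4, 6), 0, 7, 2),
    ((4, 0, 3), 7, 1, 0), ((5, 7, 9), 0, 8, 4), ((6, 3, 7), 2, 0, 8), ((7, 5, 6), 8, 0, 2),
    ((8, 9, 10), 3, 4, 5), ((9, 5, 8), 4, 0, 3), ((10, 2, 8), 5, 0, 3)]
  Tc := []
  Td := [((0, 1), (2, 1), 6), ((0, 1), (2, 10), 5), ((0, 1), (3, 4), 7), ((0, 1), (3, 6), 2),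
    ((0, 1), (5, 7), 8), ((0, 1), (5, 9), 4), ((1, 0), (0, 1), 6), ((1, 0), (0, 4), 7), ((4,
    5), (9, 5), 0), ((4, 5), (9, 8), 3), ((5, 4), (10, 2), 0), ((5, 4), (10, 8), 3)]
  G := [[0, 0x591e184591e142a561181c8e, 0, 0x6ace146ace18c6ace146ace18cc,
    0x6ace126ace18cac61681a6ace12cc], [0, 0x135e1841961381c831ce182e,
    0x6ace6acea46ace6ace68c1, 0x6ace146ace18c1, 0x6ace126ace18c1], [0,
    0x1a5e14831ce184135e182e, 0, 0xa446ace6cacca46acec6ca8cc1, 0xc226ace6acaac226ace6acaac1]]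

noncomputable def n1384 : Ent := ⟨e1384, noF, [], [], [(7, 16, [1580044410770988437309982408355971841652082177953823432505694777345, 0])]⟩

def c1384 : PLift (Cov.check n1384.C.D v1384 = true) := ⟨by decide +kernel⟩

def b1384 : PLift (entF (fidx ts) 400 1384 n1384 = true) := ⟨by decide +kernel⟩

theorem g1384 : GoodF (fidx ts) 400 1384 := GoodF.ofV v1384 n1384 c1384.down b1384.down

/-- 468566:1098 -/
noncomputable def e1385 : SCfg where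
  D := {
    a := 6
    L := 11
    kp := 9
    inn := [(0, 1), (0, 5), (1, 0), (1, 2), (1, 4), (1, 5), (2, 1), (2, 3), (2, 4), (2, 5), (3, 2), (3,
      4), (4, 1), (4, 2), (4, 3), (5, 0), (5, 1), (5, 2)]
    mix := [(0, 0), (0, 1), (1, 0), (1, 2), (2, 3), (2, 4), (2, 5), (2, 6), (3, 6), (3, 7), (3, 8), (4,
      2), (4, 8), (4, 9), (5, 1), (5, 3), (5, 10)]
    cl := [2, 1, 0, 3, 8, 9, 3, 5, 4, 6, 7]
    chq := [(0, 1), (0, 3), (0, 5), (0, 7), (1, 0), (3, 0), (5, 0), (5, 6), (6, 5), (7, 0)]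
    rng := [(0, 1), (0, 2), (1, 0), (1, 10), (2, 0), (2, 9), (3, 4), (3, 10), (4, 3), (4, 5), (5, 4),
      (5, 6), (6, 5), (6, 7), (7, 6), (7, 8), (8, 7), (8, 9), (9, 2), (9, 8), (10, 1), (10, 3)]
    lev := [] }
  links := [[1, 6, 7, 5], [6, 0, 5, 2, 4, 8], [4, 1, 5, 9, 10, 11, 12, 3], [4, 2, 12, 13, 14], [8, 1, 2,
    3, 14, 15], [9, 2, 1, 0, 7, 16]]
  P := {
    a := 6
    N := 17
    nb := [226, 373, 7738, 28692, 49422, 66183, 387, 65633, 32850, 66596, 2564, 5124, 10252, 20488,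
      40984, 16656, 672]
    tri := [(0, 1, 5), (0, 1, 6), (0, 5, 7), (0, 6, 7), (1, 2, 4), (1, 2, 5), (1, 4, 8), (1, 6, 8), (2,
      3, 4), (2, 3, 12), (2, 5, 9), (2, 9, 10), (2, 10, 11), (2, 11, 12), (3, 4, 14), (3, 12, 13),
      (3, 13, 14), (4, 8, 15), (4, 14, 15), (5, 7, 16), (5, 9, 16)]
    fin := [0, 1, 2, 3, 3, 5, 6, 0, 1, 2, 10, 11, 2, 3, 14, 15, 5]
    chd := [(0, 1), (1, 2), (1, 3), (1, 5), (3, 15)]
    steps := [(0, 7), (1, 8), (2, 9), (2, 12), (3, 4), (3, 13), (5, 16)] }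
  rep := [1, 0, 6, 2, 14, 3, 15, 5, 10, 11]

noncomputable def v1385 : Cov.CovD where
  P := 3
  N := 7
  pl := [0, 4, 5, 8]
  lev := [⟨[], [], [], [2], [(1, 1, [0])]⟩,
    ⟨[], [(0, 0), (0, 1)], [], [2], [(2, 0, [1, 3, 5, 7])]⟩,
    ⟨[(0, 1)], [(1, 0), (1, 3)], [(3, 3)], [8, 9], [(3, 3, [0]), (6, 3, [0])]⟩,
    ⟨[(1, 2)], [(2, 3), (2, 5)], [(3, 5)], [4], [(6, 3, [0]), (7, 5, [0, 6])]⟩,
    ⟨[(0, 1), (1, 2), (1, 3), (2, 3)], [(1, 0), (1, 6), (2, 0), (2, 3), (2, 6), (3, 0), (3,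
      3), (3, 5), (3, 6)], [(0, 6)], [4], [(2, 0, [1, 3, 5, 7]), (9, 6, [5])]⟩,
    ⟨[(0, 1), (0, 2), (1, 2), (1, 4), (2, 3), (2, 4)], [(0, 1), (0, 3), (0, 7), (1, 0), (1,
      1), (1, 3), (1, 7), (2, 1), (2, 3), (2, 7)], [(1, 3), (1, 7), (3, 7)], [], [(1, 1,
      [0]), (3, 3, [0]), (10, 7, [0])]⟩]
  Ta := [((3, 4), 3, 8), ((3, 10), 3, 7), ((6, 5), 3, 9), ((6, 7), 3, 5)]
  Tb := [((0, 1, 2), 2, 1, 0), ((1, 0, 10), 1, 2, 7), ((2, 0, 9), 0, 2, 6), ((3, 4, 10), 3, 8,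
    7), ((4, 3, 5), 8, 3, 9), ((5, 4, 6), 9, 8, 3), ((6, 5, 7), 3, 9, 5), ((7, 6, 8), 5, 3,
    4), ((8, 7, 9), 4, 5, 6), ((9, 2, 8), 6, 0, 4), ((10, 1, 3), 7, 1, 3)]
  Tc := [(0, 1, 3), (0, 1, 5), (0, 1, 7), (0, 3, 5), (0, 3, 7), (0, 5, 7), (5, 0, 6)]
  Td := [((0, 1), (2, 0), 2), ((0, 1), (2, 9), 6), ((0, 3), (2, 0), 2), ((0, 3), (2, 9), 6), ((0,
    5), (2, 0), 2), ((0, 5), (2, 9), 6), ((0, 7), (2, 0), 2), ((0, 7), (2, 9), 6), ((1, 0),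
    (1, 0), 2), ((1, 0), (1, 10), 7), ((3, 0), (3, 4), 8), ((3, 0), (3, 10), 7), ((3, 0), (6,
    5), 9), ((3, 0), (6, 7), 5), ((5, 0), (7, 6), 3), ((5, 0), (7, 8), 4), ((5, 6), (7, 6),
    3), ((5, 6), (7, 8), 4), ((6, 5), (9, 2), 0), ((6, 5), (9, 8), 4), ((7, 0), (10, 1), 1),
    ((7, 0), (10, 3), 3)]
  G := [[0, 0x1131151167111711911e11511911ee2486eeebf88a861c4,
    0x12121214111e71218111eb141811cd11611a11cef64,
    0x14144151214111e7121811ab1418111ed9d6ddad9cefc8,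
    0x12121214111e71218111eb141811cddd6ddaddcefa8], [0,
    0x116112611a11c111ef11611611c111ef2a666c2eeedf1221a11a18fa8a88392488d4,
    0x11a11cc44e71211611611c111ef211611c11c111ef11a11a88c111ef11a8869dac,
    0x445414446f111611a116111ef11611a11c111efac11611a11c111ef419a19a89a88af1c48118411cd,
    0x41614116b4162311611611c111ef11611a11c111ef11c185541e515e444edfa482288888e31a9]]

noncomputable def n1385 : Ent := ⟨e1385, noF, [], [], []⟩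

def c1385 : PLift (Cov.check n1385.C.D v1385 = true) := ⟨by decide +kernel⟩

def b1385 : PLift (entF (fidx ts) 400 1385 n1385 = true) := ⟨by decide +kernel⟩

theorem g1385 : GoodF (fidx ts) 400 1385 := GoodF.ofV v1385 n1385 c1385.down b1385.down

/-- 468564:1099/1 -/
noncomputable def e1386 : SCfg where
  D := {
    a := 6
    L := 10
    kp := 7
    inn := [(0, 1), (0, 4), (1, 0), (1, 2), (1, 4), (2, 1), (2, 3), (2, 4), (3, 2), (3, 5), (4, 0), (4,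
      1), (4, 2), (5, 3)]
    mix := [(0, 0), (0, 1), (1, 0), (1, 2), (1, 3), (2, 2), (2, 4), (2, 5), (2, 6), (2, 7), (3, 2), (3,
      3), (3, 7), (4, 1), (4, 4), (4, 8), (5, 3), (5, 7), (5, 9)]
    cl := [2, 3, 0, 1, 0, 5, 6, 0, 4, 7]
    chq := [(0, 2), (2, 0), (2, 4), (4, 2)]
    rng := [(0, 1), (0, 3), (1, 0), (1, 8), (2, 3), (3, 0), (3, 2), (3, 9), (4, 5), (4, 8), (5, 4), (5,
      6), (6, 5), (6, 7), (7, 6), (7, 9), (8, 1), (8, 4), (9, 3), (9, 7)]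
    lev := [] }
  links := [[1, 6, 7, 4], [6, 0, 4, 2, 8, 9], [8, 1, 4, 10, 11, 12, 13, 3], [8, 2, 13, 5, 9], [10, 2, 1,
    0, 7, 14], [9, 3, 13, 15]]
  P := {
    a := 6
    N := 16
    nb := [210, 853, 15642, 8996, 17543, 41480, 643, 16465, 526, 33130, 18452, 5124, 10244, 36908,
      1168, 8736]
    tri := [(0, 1, 4), (0, 1, 6), (0, 4, 7), (0, 6, 7), (1, 2, 4), (1, 2, 8), (1, 6, 9), (1, 8, 9), (2,
      3, 8), (2, 3, 13), (2, 4, 10), (2, 10, 11), (2, 11, 12), (2, 12, 13), (3, 5, 9), (3, 5, 13),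
      (3, 8, 9), (4, 7, 14), (4, 10, 14), (5, 9, 15), (5, 13, 15)]
    fin := [0, 0, 2, 2, 0, 2, 0, 7, 2, 9, 2, 11, 12, 2, 14, 15]
    chd := [(0, 2), (0, 14)]
    steps := [(0, 1), (0, 4), (0, 6), (2, 3), (2, 5), (2, 10), (2, 13), (2, 8)] }
  rep := [2, 9, 0, 7, 14, 11, 12, 15]

noncomputable def v1386 : Cov.CovD where
  P := 3
  N := 5
  pl := [1, 3, 5, 6, 9]
  lev := [⟨[], [], [], [3], [(0, 2, [0, 4])]⟩,
    ⟨[], [(0, 0), (0, 2)], [(0, 2)], [1], [(0, 2, [0, 4]), (2, 0, [2])]⟩,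
    ⟨[(0, 1)], [(1, 0), (1, 2)], [(0, 0)], [5, 6], [(2, 0, [2]), (4, 0, [2]), (7, 0, [2])]⟩,
    ⟨[(1, 2)], [(1, 0), (2, 0)], [(0, 0)], [1], [(2, 0, [2]), (7, 0, [2])]⟩,
    ⟨[(0, 1), (0, 2), (1, 2), (2, 3)], [(0, 0), (0, 2), (0, 4), (1, 0), (1, 2), (1, 4), (2,
      0), (2, 4)], [(0, 4)], [3], [(4, 0, [2]), (8, 4, [2])]⟩,
    ⟨[(2, 3)], [(2, 0), (3, 0)], [], [1, 7], [(7, 0, [2])]⟩]
  Ta := [((2, 3), 0, 1), ((4, 5), 0, 5), ((4, 8), 0, 4), ((7, 6), 0, 6), ((7, 9), 0, 7)]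
  Tb := [((0, 1, 3), 2, 3, 1), ((1, 0, 8), 3, 2, 4), ((3, 0, 2), 1, 2, 0), ((3, 0, 9), 1, 2, 7),
    ((3, 2, 9), 1, 0, 7), ((4, 5, 8), 0, 5, 4), ((5, 4, 6), 5, 0, 6), ((6, 5, 7), 6, 5, 0),
    ((7, 6, 9), 0, 6, 7), ((8, 1, 4), 4, 3, 0), ((9, 3, 7), 7, 1, 0)]
  Tc := [(2, 0, 4)]
  Td := [((0, 2), (2, 3), 1), ((0, 2), (4, 5), 5), ((0, 2), (4, 8), 4), ((0, 2), (7, 6), 6), ((0,
    2), (7, 9), 7), ((2, 0), (0, 1), 3), ((2, 0), (0, 3), 1), ((2, 4), (0, 1), 3), ((2, 4),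
    (0, 3), 1), ((4, 2), (8, 1), 3), ((4, 2), (8, 4), 0)]
  G := [[0, 0x624622a2c86e4a144612614acc, 0x114118118e8114118114e46, 0x128128128e4124128128e49,
    0x115411a81154e814411c8148e83], [0, 0, 0x114118118e4118118114e4a,
    0x124128128e8128128128e45, 0x12811a411a4e1184811441168148e8b], [0, 0,
    0x11411861148c114114114e8a, 0xc284c24c24acc24c28c28e85, 0xc1824484cccc8c9c14c18c48e8a]]

noncomputable def n1386 : Ent := ⟨e1386, noF, [], [], []⟩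

def c1386 : PLift (Cov.check n1386.C.D v1386 = true) := ⟨by decide +kernel⟩

def b1386 : PLift (entF (fidx ts) 400 1386 n1386 = true) := ⟨by decide +kernel⟩

theorem g1386 : GoodF (fidx ts) 400 1386 := GoodF.ofV v1386 n1386 c1386.down b1386.down

/-- 468564:1099 -/
noncomputable def e1387 : SCfg where
  D := {
    a := 6
    L := 11
    kp := 8
    inn := [(0, 1), (0, 4), (1, 0), (1, 2), (1, 4), (2, 1), (2, 3), (2, 4), (3, 2), (3, 5), (4, 0), (4,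
      1), (4, 2), (5, 3)]
    mix := [(0, 0), (0, 1), (1, 0), (1, 2), (1, 3), (2, 2), (2, 4), (2, 5), (2, 6), (2, 7), (3, 2), (3,
      7), (3, 8), (4, 1), (4, 4), (4, 9), (5, 7), (5, 8), (5, 10)]
    cl := [1, 2, 0, 5, 0, 6, 7, 0, 3, 4, 8]
    chq := [(0, 1), (1, 0), (1, 4), (4, 1)]
    rng := [(0, 1), (0, 3), (1, 0), (1, 9), (2, 3), (2, 8), (3, 0), (3, 2), (4, 5), (4, 9), (5, 4), (5,
      6), (6, 5), (6, 7), (7, 6), (7, 10), (8, 2), (8, 10), (9, 1), (9, 4), (10, 7), (10, 8)]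
    lev := [] }
  links := [[1, 6, 7, 4], [6, 0, 4, 2, 8, 9], [8, 1, 4, 10, 11, 12, 13, 3], [8, 2, 13, 5, 14], [10, 2, 1,
    0, 7, 15], [14, 3, 13, 16]]
  P := {
    a := 6
    N := 17
    nb := [210, 853, 15642, 24868, 33927, 90120, 643, 32849, 16910, 322, 34836, 5124, 10244, 69676,
      65832, 1168, 24608]
    tri := [(0, 1, 4), (0, 1, 6), (0, 4, 7), (0, 6, 7), (1, 2, 4), (1, 2, 8), (1, 6, 9), (1, 8, 9), (2,
      3, 8), (2, 3, 13), (2, 4, 10), (2, 10, 11), (2, 11, 12), (2, 12, 13), (3, 5, 13), (3, 5,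
      14), (3, 8, 14), (4, 7, 15), (4, 10, 15), (5, 13, 16), (5, 14, 16)]
    fin := [0, 0, 2, 2, 0, 2, 0, 7, 2, 9, 2, 11, 12, 2, 14, 15, 16]
    chd := [(0, 2), (0, 15)]
    steps := [(0, 1), (0, 4), (0, 6), (2, 3), (2, 5), (2, 10), (2, 13), (2, 8)] }
  rep := [2, 0, 7, 14, 15, 9, 11, 12, 16]

noncomputable def v1387 : Cov.CovD where
  P := 3
  N := 6
  pl := [1, 3, 5, 6, 8, 10]
  lev := [⟨[], [], [], [2], [(0, 1, [0, 4])]⟩,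
    ⟨[], [(0, 0), (0, 1)], [(0, 1)], [5], [(0, 1, [0, 4]), (2, 0, [1])]⟩,
    ⟨[(0, 1)], [(1, 0), (1, 1)], [(0, 0)], [6, 7], [(2, 0, [1]), (4, 0, [1]), (7, 0, [1])]⟩,
    ⟨[(1, 2)], [(1, 0), (2, 0)], [(0, 0)], [3], [(2, 0, [1]), (7, 0, [1])]⟩,
    ⟨[(0, 1), (0, 2), (1, 2), (2, 3)], [(0, 0), (0, 1), (0, 4), (1, 0), (1, 1), (1, 4), (2,
      0), (2, 4)], [(0, 4)], [2], [(4, 0, [1]), (9, 4, [1])]⟩,
    ⟨[(2, 3)], [(2, 0), (3, 0)], [], [3, 8], [(7, 0, [1])]⟩]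
  Ta := [((2, 3), 0, 5), ((2, 8), 0, 3), ((4, 5), 0, 6), ((4, 9), 0, 4), ((7, 6), 0, 7), ((7,
    10), 0, 8)]
  Tb := [((0, 1, 3), 1, 2, 5), ((1, 0, 9), 2, 1, 4), ((2, 3, 8), 0, 5, 3), ((3, 0, 2), 5, 1, 0),
    ((4, 5, 9), 0, 6, 4), ((5, 4, 6), 6, 0, 7), ((6, 5, 7), 7, 6, 0), ((7, 6, 10), 0, 7, 8),
    ((8, 2, 10), 3, 0, 8), ((9, 1, 4), 4, 2, 0), ((10, 7, 8), 8, 0, 3)]
  Tc := [(1, 0, 4)]
  Td := [((0, 1), (2, 3), 5), ((0, 1), (2, 8), 3), ((0, 1), (4, 5), 6), ((0, 1), (4, 9), 4), ((0,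
    1), (7, 6), 7), ((0, 1), (7, 10), 8), ((1, 0), (0, 1), 2), ((1, 0), (0, 3), 5), ((1, 4),
    (0, 1), 2), ((1, 4), (0, 3), 5), ((4, 1), (9, 1), 2), ((4, 1), (9, 4), 0)]
  G := [[0, 0x118112611116112118e1111a114114ee8, 0x12d2a44923265232ca1659acec21261aa61acacc,
    0x1161ac111a1161ce411a1631516c111ae8c, 0x5131aa111c61262c1261ac111aec12a26889], [0,
    0x11411261111c112118e11116118114ee8, 0x1212c12126181214ee18,
    0x1411ca411411c18e18811c11c6e1c, 0x121261212a11a11ace18], [0,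
    0x1141111a112e118114a11211116118ee4, 0xc2a26c262aaaa66ace14,
    0xccc64a41cccaac6682aac66cce1c, 0xc2a26c262aaaa66ace18]]

noncomputable def n1387 : Ent := ⟨e1387, noF, [], [], [(14, 9, [1685382413448253767852420611159112385688325307193636310252900491265, 0])]⟩

def c1387 : PLift (Cov.check n1387.C.D v1387 = true) := ⟨by decide +kernel⟩

def b1387 : PLift (entF (fidx ts) 400 1387 n1387 = true) := ⟨by decide +kernel⟩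

theorem g1387 : GoodF (fidx ts) 400 1387 := GoodF.ofV v1387 n1387 c1387.down b1387.down

/-- 468564:1100/1 -/
noncomputable def e1388 : SCfg where
  D := {
    a := 6
    L := 10
    kp := 7
    inn := [(0, 1), (0, 4), (1, 0), (1, 2), (1, 4), (2, 1), (2, 3), (2, 4), (3, 2), (3, 5), (4, 0), (4,
      1), (4, 2), (5, 3)]
    mix := [(0, 0), (0, 1), (1, 0), (1, 2), (1, 3), (2, 2), (2, 4), (2, 5), (2, 6), (2, 7), (3, 2), (3,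
      7), (3, 8), (4, 1), (4, 4), (4, 9), (5, 2), (5, 3), (5, 8)]
    cl := [1, 3, 0, 2, 0, 6, 7, 0, 4, 5]
    chq := [(0, 1), (1, 0), (1, 5), (5, 1)]
    rng := [(0, 1), (0, 3), (1, 0), (1, 9), (2, 3), (3, 0), (3, 2), (3, 8), (4, 5), (4, 9), (5, 4), (5,
      6), (6, 5), (6, 7), (7, 6), (7, 8), (8, 3), (8, 7), (9, 1), (9, 4)]
    lev := [] }
  links := [[1, 6, 7, 4], [6, 0, 4, 2, 8, 9], [8, 1, 4, 10, 11, 12, 13, 3], [8, 2, 13, 14, 5], [10, 2, 1,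
    0, 7, 15], [8, 3, 14, 9]]
  P := {
    a := 6
    N := 16
    nb := [210, 853, 15642, 24868, 33927, 17160, 643, 32849, 558, 16738, 34836, 5124, 10244, 20492,
      8744, 1168]
    tri := [(0, 1, 4), (0, 1, 6), (0, 4, 7), (0, 6, 7), (1, 2, 4), (1, 2, 8), (1, 6, 9), (1, 8, 9), (2,
      3, 8), (2, 3, 13), (2, 4, 10), (2, 10, 11), (2, 11, 12), (2, 12, 13), (3, 5, 8), (3, 5, 14),
      (3, 13, 14), (4, 7, 15), (4, 10, 15), (5, 8, 9), (5, 9, 14)]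
    fin := [0, 0, 2, 2, 0, 2, 0, 7, 2, 9, 2, 11, 12, 2, 14, 15]
    chd := [(0, 2), (0, 15)]
    steps := [(0, 1), (0, 4), (0, 6), (2, 3), (2, 5), (2, 10), (2, 13), (2, 8)] }
  rep := [2, 0, 9, 7, 14, 15, 11, 12]

noncomputable def v1388 : Cov.CovD where
  P := 3
  N := 5
  pl := [1, 3, 5, 6, 8]
  lev := [⟨[], [], [], [3], [(0, 1, [0, 5])]⟩,
    ⟨[], [(0, 0), (0, 1)], [(0, 1)], [2], [(0, 1, [0, 5]), (2, 0, [1])]⟩,
    ⟨[(0, 1)], [(1, 0), (1, 1)], [(0, 0)], [6, 7], [(2, 0, [1]), (4, 0, [1]), (7, 0, [1])]⟩,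
    ⟨[(1, 2)], [(1, 0), (2, 0)], [(0, 0)], [4], [(2, 0, [1]), (7, 0, [1])]⟩,
    ⟨[(0, 1), (0, 2), (1, 2), (2, 3)], [(0, 0), (0, 1), (0, 5), (1, 0), (1, 1), (1, 5), (2,
      0), (2, 5)], [(0, 5)], [3], [(4, 0, [1]), (9, 5, [1])]⟩,
    ⟨[(2, 3)], [(1, 0), (2, 0), (3, 0)], [], [2, 4], [(2, 0, [1])]⟩]
  Ta := [((2, 3), 0, 2), ((4, 5), 0, 6), ((4, 9), 0, 5), ((7, 6), 0, 7), ((7, 8), 0, 4)]
  Tb := [((0, 1, 3), 1, 3, 2), ((1, 0, 9), 3, 1, 5), ((3, 0, 2), 2, 1, 0), ((3, 0, 8), 2, 1, 4),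
    ((3, 2, 8), 2, 0, 4), ((4, 5, 9), 0, 6, 5), ((5, 4, 6), 6, 0, 7), ((6, 5, 7), 7, 6, 0),
    ((7, 6, 8), 0, 7, 4), ((8, 3, 7), 4, 2, 0), ((9, 1, 4), 5, 3, 0)]
  Tc := [(1, 0, 5)]
  Td := [((0, 1), (2, 3), 2), ((0, 1), (4, 5), 6), ((0, 1), (4, 9), 5), ((0, 1), (7, 6), 7), ((0,
    1), (7, 8), 4), ((1, 0), (0, 1), 3), ((1, 0), (0, 3), 2), ((1, 5), (0, 1), 3), ((1, 5),
    (0, 3), 2), ((5, 1), (9, 1), 3), ((5, 1), (9, 4), 0)]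
  G := [[0, 0x1141c8111a8111ae41141a8111a8141ce4a, 0x422168222a82a41ce4812268141a81446ce8c,
    0xc22c228242ce4c22c228242ce49, 0x8121a888721c6888322368222681226ce88222688d], [0,
    0x1121181141ce411441188c1141121111ae8e, 0, 0x12212211c2e81221228242ce85,
    0x82c116c288c22a688a22ac98221668412111ee28a11ace85], [0,
    0x1111a8111a1141ce41141a1141a4111ae4a, 0, 0x9228212c6421268cc229221242ce89,
    0x1121a8111a68222689812168212a886226ce8c]]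

noncomputable def n1388 : Ent := ⟨e1388, noF, [], [], []⟩

def c1388 : PLift (Cov.check n1388.C.D v1388 = true) := ⟨by decide +kernel⟩

def b1388 : PLift (entF (fidx ts) 400 1388 n1388 = true) := ⟨by decide +kernel⟩

theorem g1388 : GoodF (fidx ts) 400 1388 := GoodF.ofV v1388 n1388 c1388.down b1388.down

/-- 468564:1100 -/
noncomputable def e1389 : SCfg where
  D := {
    a := 6
    L := 11
    kp := 8
    inn := [(0, 1), (0, 4), (1, 0), (1, 2), (1, 4), (2, 1), (2, 3), (2, 4), (3, 2), (3, 5), (4, 0), (4,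
      1), (4, 2), (5, 3)]
    mix := [(0, 0), (0, 1), (1, 0), (1, 2), (1, 3), (2, 2), (2, 4), (2, 5), (2, 6), (2, 7), (3, 2), (3,
      7), (3, 8), (4, 1), (4, 4), (4, 9), (5, 2), (5, 8), (5, 10)]
    cl := [1, 2, 0, 5, 0, 6, 7, 0, 3, 4, 8]
    chq := [(0, 1), (1, 0), (1, 4), (4, 1)]
    rng := [(0, 1), (0, 3), (1, 0), (1, 9), (2, 3), (2, 10), (3, 0), (3, 2), (4, 5), (4, 9), (5, 4),
      (5, 6), (6, 5), (6, 7), (7, 6), (7, 8), (8, 7), (8, 10), (9, 1), (9, 4), (10, 2), (10, 8)]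
    lev := [] }
  links := [[1, 6, 7, 4], [6, 0, 4, 2, 8, 9], [8, 1, 4, 10, 11, 12, 13, 3], [8, 2, 13, 14, 5], [10, 2, 1,
    0, 7, 15], [8, 3, 14, 16]]
  P := {
    a := 6
    N := 17
    nb := [210, 853, 15642, 24868, 33927, 82184, 643, 32849, 66094, 322, 34836, 5124, 10244, 20492,
      73768, 1168, 16672]
    tri := [(0, 1, 4), (0, 1, 6), (0, 4, 7), (0, 6, 7), (1, 2, 4), (1, 2, 8), (1, 6, 9), (1, 8, 9), (2,
      3, 8), (2, 3, 13), (2, 4, 10), (2, 10, 11), (2, 11, 12), (2, 12, 13), (3, 5, 8), (3, 5, 14),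
      (3, 13, 14), (4, 7, 15), (4, 10, 15), (5, 8, 16), (5, 14, 16)]
    fin := [0, 0, 2, 2, 0, 2, 0, 7, 2, 9, 2, 11, 12, 2, 14, 15, 16]
    chd := [(0, 2), (0, 15)]
    steps := [(0, 1), (0, 4), (0, 6), (2, 3), (2, 5), (2, 10), (2, 13), (2, 8)] }
  rep := [2, 0, 7, 14, 15, 9, 11, 12, 16]

noncomputable def v1389 : Cov.CovD where
  P := 3
  N := 6
  pl := [1, 3, 5, 6, 8, 10]
  lev := [⟨[], [], [], [2], [(0, 1, [0, 4])]⟩,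
    ⟨[], [(0, 0), (0, 1)], [(0, 1)], [5], [(0, 1, [0, 4]), (2, 0, [1])]⟩,
    ⟨[(0, 1)], [(1, 0), (1, 1)], [(0, 0)], [6, 7], [(2, 0, [1]), (4, 0, [1]), (7, 0, [1])]⟩,
    ⟨[(1, 2)], [(1, 0), (2, 0)], [(0, 0)], [3], [(2, 0, [1]), (7, 0, [1])]⟩,
    ⟨[(0, 1), (0, 2), (1, 2), (2, 3)], [(0, 0), (0, 1), (0, 4), (1, 0), (1, 1), (1, 4), (2,
      0), (2, 4)], [(0, 4)], [2], [(4, 0, [1]), (9, 4, [1])]⟩,
    ⟨[(2, 3)], [(1, 0), (2, 0), (3, 0)], [], [3, 8], [(2, 0, [1])]⟩]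
  Ta := [((2, 3), 0, 5), ((2, 10), 0, 8), ((4, 5), 0, 6), ((4, 9), 0, 4), ((7, 6), 0, 7), ((7,
    8), 0, 3)]
  Tb := [((0, 1, 3), 1, 2, 5), ((1, 0, 9), 2, 1, 4), ((2, 3, 10), 0, 5, 8), ((3, 0, 2), 5, 1, 0),
    ((4, 5, 9), 0, 6, 4), ((5, 4, 6), 6, 0, 7), ((6, 5, 7), 7, 6, 0), ((7, 6, 8), 0, 7, 3),
    ((8, 7, 10), 3, 0, 8), ((9, 1, 4), 4, 2, 0), ((10, 2, 8), 8, 0, 3)]
  Tc := [(1, 0, 4)]
  Td := [((0, 1), (2, 3), 5), ((0, 1), (2, 10), 8), ((0, 1), (4, 5), 6), ((0, 1), (4, 9), 4),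
    ((0, 1), (7, 6), 7), ((0, 1), (7, 8), 3), ((1, 0), (0, 1), 2), ((1, 0), (0, 3), 5), ((1,
    4), (0, 1), 2), ((1, 4), (0, 3), 5), ((4, 1), (9, 1), 2), ((4, 1), (9, 4), 0)]
  G := [[0, 0x118112611116112118e1111a114114ee8, 0xc2a26c262aaac666ce4c2a26c262aaaa264ece8c,
    0xc161a44c1a16c161aa161cec1a16a161cacc, 0xc261aa161c6c2a16c162aa161cecc2a26889], [0,
    0x112112112e118114114e6114118118e8c, 0xc2a26c262aaaa66cce18,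
    0xccc66ca41cccaac6a2c6ec84ea1c, 0xc2a26c262aaaa66ace18], [0,
    0x114112611116112118e1111c118114ee8, 0xc2a26c262aaa6666ce14,
    0xecc2846ce41513163191ca3191c9151aacc, 0xc2a26c262aaaa66ace18]]

noncomputable def n1389 : Ent := ⟨e1389, noF, [], [], [(16, 9, [1580044410770988437310138513572361556014072927981731971036236660737, 0])]⟩

def c1389 : PLift (Cov.check n1389.C.D v1389 = true) := ⟨by decide +kernel⟩

def b1389 : PLift (entF (fidx ts) 400 1389 n1389 = true) := ⟨by decide +kernel⟩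

theorem g1389 : GoodF (fidx ts) 400 1389 := GoodF.ofV v1389 n1389 c1389.down b1389.down

/-- 468544:1101/2 -/
noncomputable def e1390 : SCfg where
  D := {
    a := 6
    L := 9
    kp := 6
    inn := [(0, 1), (1, 0), (1, 2), (2, 1), (2, 3), (2, 4), (2, 5), (3, 2), (4, 2), (5, 2)]
    mix := [(0, 0), (0, 1), (0, 2), (1, 0), (1, 2), (1, 3), (1, 4), (2, 2), (2, 3), (2, 5), (2, 6), (3,
      3), (3, 4), (3, 6), (3, 7), (4, 1), (4, 2), (4, 5), (5, 5), (5, 6), (5, 8)]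
    cl := [4, 1, 0, 0, 2, 3, 0, 5, 6]
    chq := [(0, 3), (0, 4), (3, 0), (4, 0)]
    rng := [(0, 1), (0, 4), (1, 0), (1, 2), (1, 5), (2, 1), (3, 4), (4, 0), (4, 3), (4, 7), (5, 1), (5,
      8), (6, 7), (6, 8), (7, 4), (7, 6), (8, 5), (8, 6)]
    lev := [] }
  links := [[1, 6, 7, 8], [6, 0, 8, 2, 9, 10], [9, 1, 8, 4, 11, 5, 12, 3], [9, 2, 12, 13, 10], [11, 2, 8,
    7], [12, 2, 11, 14]]
  P := {
    a := 6
    N := 15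
    nb := [450, 1861, 6970, 13828, 2436, 22532, 1155, 2385, 151, 1038, 8778, 16564, 24620, 5128, 6176]
    tri := [(0, 1, 6), (0, 1, 8), (0, 6, 7), (0, 7, 8), (1, 2, 8), (1, 2, 9), (1, 6, 10), (1, 9, 10),
      (2, 3, 9), (2, 3, 12), (2, 4, 8), (2, 4, 11), (2, 5, 11), (2, 5, 12), (3, 9, 10), (3, 10,
      13), (3, 12, 13), (4, 7, 8), (4, 7, 11), (5, 11, 14), (5, 12, 14)]
    fin := [0, 0, 2, 2, 4, 2, 0, 4, 2, 2, 10, 11, 2, 13, 14]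
    chd := [(0, 2), (2, 11)]
    steps := [(0, 1), (0, 6), (2, 3), (2, 5), (2, 8), (2, 12), (2, 9), (4, 7)] }
  rep := [2, 4, 10, 11, 0, 13, 14]

noncomputable def v1390 : Cov.CovD where
  P := 3
  N := 4
  pl := [1, 4, 7, 8]
  lev := [⟨[], [], [(0, 4)], [1], [(0, 4, [0]), (2, 0, [3, 4])]⟩,
    ⟨[], [(0, 0), (0, 4)], [(0, 0), (0, 4)], [2], [(0, 4, [0]), (2, 0, [3, 4]), (3, 0, [3,
      4])]⟩,
    ⟨[(0, 1)], [(0, 0), (1, 0), (1, 3), (1, 4)], [(0, 0), (0, 3)], [], [(2, 0, [3, 4]), (3,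
      0, [3, 4]), (5, 3, [0]), (6, 0, [3, 4])]⟩,
    ⟨[(1, 2)], [(1, 0), (2, 0), (2, 3)], [(0, 0)], [2, 5], [(3, 0, [3, 4]), (6, 0, [3,
      4])]⟩,
    ⟨[(1, 2), (2, 3)], [(0, 0), (1, 0), (2, 0), (2, 3)], [(0, 3)], [1], [(2, 0, [3, 4]),
      (5, 3, [0])]⟩,
    ⟨[(1, 2), (2, 3), (2, 4)], [(2, 0), (2, 3), (3, 0), (4, 3)], [(0, 3)], [6], [(5, 3,
      [0]), (6, 0, [3, 4])]⟩]
  Ta := [((2, 1), 0, 1), ((3, 4), 0, 2), ((6, 7), 0, 5), ((6, 8), 0, 6)]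
  Tb := [((0, 1, 4), 4, 1, 2), ((1, 0, 2), 1, 4, 0), ((1, 0, 5), 1, 4, 3), ((1, 2, 5), 1, 0, 3),
    ((4, 0, 3), 2, 4, 0), ((4, 0, 7), 2, 4, 5), ((4, 3, 7), 2, 0, 5), ((5, 1, 8), 3, 1, 6),
    ((6, 7, 8), 0, 5, 6), ((7, 4, 6), 5, 2, 0), ((8, 5, 6), 6, 3, 0)]
  Tc := [(0, 3, 4)]
  Td := [((0, 3), (2, 1), 1), ((0, 3), (3, 4), 2), ((0, 3), (6, 7), 5), ((0, 3), (6, 8), 6), ((0,
    4), (2, 1), 1), ((0, 4), (3, 4), 2), ((0, 4), (6, 7), 5), ((0, 4), (6, 8), 6), ((3, 0),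
    (5, 1), 1), ((3, 0), (5, 8), 6), ((4, 0), (0, 1), 1), ((4, 0), (0, 4), 2)]
  G := [[0, 0x1418c1212c681414c1212ca4a, 0, 0x3498c5813cc681458c16c94ca4c,
    0x1414aa8d8a6818234b4a988e2c], [0, 0, 0x1111a28181861414ac29,
    0x5811c219a8c681111c64619ca4c, 0xb4c8a1111a6818214b4a94c8e29], [0, 0, 0,
    0xa4588ca84a5c6841c4ca6ce1ca444488884cd, 0xa452c5aa188a62128a212821a1aa45a45a888eac]]

noncomputable def n1390 : Ent := ⟨e1390, noF, [], [], []⟩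

def c1390 : PLift (Cov.check n1390.C.D v1390 = true) := ⟨by decide +kernel⟩

def b1390 : PLift (entF (fidx ts) 400 1390 n1390 = true) := ⟨by decide +kernel⟩

theorem g1390 : GoodF (fidx ts) 400 1390 := GoodF.ofV v1390 n1390 c1390.down b1390.down

/-- 468544:1101/1 -/
noncomputable def e1391 : SCfg where
  D := {
    a := 6
    L := 10
    kp := 7
    inn := [(0, 1), (1, 0), (1, 2), (2, 1), (2, 3), (2, 4), (2, 5), (3, 2), (4, 2), (5, 2)]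
    mix := [(0, 0), (0, 1), (0, 2), (1, 0), (1, 2), (1, 3), (1, 4), (2, 2), (2, 3), (2, 5), (2, 6), (3,
      3), (3, 6), (3, 7), (3, 8), (4, 1), (4, 2), (4, 5), (5, 5), (5, 6), (5, 9)]
    cl := [2, 1, 0, 0, 4, 3, 0, 5, 6, 7]
    chq := [(0, 3), (1, 4), (3, 0), (4, 1)]
    rng := [(0, 1), (0, 4), (1, 0), (1, 2), (1, 5), (2, 1), (3, 4), (3, 8), (4, 0), (4, 3), (5, 1), (5,
      9), (6, 7), (6, 9), (7, 6), (7, 8), (8, 3), (8, 7), (9, 5), (9, 6)]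
    lev := [] }
  links := [[1, 6, 7, 8], [6, 0, 8, 2, 9, 10], [9, 1, 8, 4, 11, 5, 12, 3], [9, 2, 12, 13, 14], [11, 2, 8,
    7], [12, 2, 11, 15]]
  P := {
    a := 6
    N := 16
    nb := [450, 1861, 6970, 29188, 2436, 38916, 1155, 2385, 151, 17422, 578, 32948, 41004, 20488,
      8712, 6176]
    tri := [(0, 1, 6), (0, 1, 8), (0, 6, 7), (0, 7, 8), (1, 2, 8), (1, 2, 9), (1, 6, 10), (1, 9, 10),
      (2, 3, 9), (2, 3, 12), (2, 4, 8), (2, 4, 11), (2, 5, 11), (2, 5, 12), (3, 9, 14), (3, 12,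
      13), (3, 13, 14), (4, 7, 8), (4, 7, 11), (5, 11, 15), (5, 12, 15)]
    fin := [0, 0, 2, 2, 0, 2, 6, 0, 2, 2, 10, 11, 2, 13, 14, 15]
    chd := [(0, 10), (2, 11)]
    steps := [(0, 1), (0, 7), (2, 3), (2, 5), (2, 8), (0, 4), (2, 12), (2, 9)] }
  rep := [2, 0, 6, 11, 10, 13, 14, 15]

noncomputable def v1391 : Cov.CovD where
  P := 3
  N := 5
  pl := [0, 7, 8, 9]
  lev := [⟨[], [], [(0, 1)], [2], [(1, 1, [4]), (2, 0, [3])]⟩,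
    ⟨[], [(0, 0), (0, 1), (0, 4)], [(0, 0), (0, 4)], [2], [(2, 0, [3]), (3, 0, [3]), (4, 4,
      [1])]⟩,
    ⟨[(0, 1)], [(0, 0), (1, 0), (1, 3), (1, 4)], [(0, 0), (0, 3)], [], [(2, 0, [3]), (3, 0,
      [3]), (5, 3, [0]), (6, 0, [3])]⟩,
    ⟨[(1, 2)], [(1, 0), (2, 0), (2, 3)], [(0, 0)], [5, 6], [(3, 0, [3]), (6, 0, [3])]⟩,
    ⟨[(1, 2), (2, 3)], [(0, 0), (0, 1), (1, 0), (2, 0), (2, 1), (2, 3)], [(0, 1), (0, 3),
      (1, 3)], [], [(1, 1, [4]), (2, 0, [3]), (5, 3, [0])]⟩,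
    ⟨[(1, 2), (2, 3), (2, 4)], [(2, 0), (2, 3), (3, 0), (4, 3)], [(0, 3)], [7], [(5, 3,
      [0]), (6, 0, [3])]⟩]
  Ta := [((2, 1), 0, 1), ((3, 4), 0, 4), ((3, 8), 0, 6), ((6, 7), 0, 5), ((6, 9), 0, 7)]
  Tb := [((0, 1, 4), 2, 1, 4), ((1, 0, 2), 1, 2, 0), ((1, 0, 5), 1, 2, 3), ((1, 2, 5), 1, 0, 3),
    ((3, 4, 8), 0, 4, 6), ((4, 0, 3), 4, 2, 0), ((5, 1, 9), 3, 1, 7), ((6, 7, 9), 0, 5, 7),
    ((7, 6, 8), 5, 0, 6), ((8, 3, 7), 6, 0, 5), ((9, 5, 6), 7, 3, 0)]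
  Tc := []
  Td := [((0, 3), (2, 1), 1), ((0, 3), (3, 4), 4), ((0, 3), (3, 8), 6), ((0, 3), (6, 7), 5), ((0,
    3), (6, 9), 7), ((1, 4), (1, 0), 2), ((1, 4), (1, 2), 0), ((1, 4), (1, 5), 3), ((3, 0),
    (5, 1), 1), ((3, 0), (5, 9), 7), ((4, 1), (4, 0), 2), ((4, 1), (4, 3), 0)]
  G := [[0, 0x181814e121218e6141818e121214eac4, 0x127878eb41214e1814ce28,
    0x35c16c95ce2a1ca6c95ce2c8, 0xa854c23818634b4a9854cea8], [0, 0, 0x117818eb411b4ec28,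
    0x615a19c19e2615619c19e2c4, 0x117878eb41114ec28], [0, 0,
    0x8144c221689689ea452161e8841ce64, 0x212ca56a584ce62822126a5a6c84ceec21288c,
    0xc141c221ca5a1ec2c21a45ec144cea8]]

noncomputable def n1391 : Ent := ⟨e1391, noF, [], [], [(14, 10, [385746751338781050996073827118545021217310372558043290361323521, 0])]⟩

def c1391 : PLift (Cov.check n1391.C.D v1391 = true) := ⟨by decide +kernel⟩

def b1391 : PLift (entF (fidx ts) 400 1391 n1391 = true) := ⟨by decide +kernel⟩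

theorem g1391 : GoodF (fidx ts) 400 1391 := GoodF.ofV v1391 n1391 c1391.down b1391.down

/-- 468544:1101/3 -/
noncomputable def e1392 : SCfg where
  D := {
    a := 6
    L := 10
    kp := 7
    inn := [(0, 1), (1, 0), (1, 2), (2, 1), (2, 3), (2, 4), (2, 5), (3, 2), (4, 2), (5, 2)]
    mix := [(0, 0), (0, 1), (0, 2), (1, 0), (1, 2), (1, 3), (1, 4), (2, 2), (2, 3), (2, 5), (2, 6), (3,
      3), (3, 4), (3, 6), (3, 7), (4, 2), (4, 5), (4, 8), (5, 5), (5, 6), (5, 9)]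
    cl := [2, 4, 0, 0, 1, 3, 0, 5, 6, 7]
    chq := [(0, 3), (1, 4), (3, 0), (4, 1)]
    rng := [(0, 1), (0, 4), (1, 0), (1, 2), (2, 1), (2, 8), (3, 4), (4, 0), (4, 3), (4, 7), (5, 8), (5,
      9), (6, 7), (6, 9), (7, 4), (7, 6), (8, 2), (8, 5), (9, 5), (9, 6)]
    lev := [] }
  links := [[1, 6, 7, 8], [6, 0, 8, 2, 9, 10], [9, 1, 8, 4, 11, 5, 12, 3], [9, 2, 12, 13, 10], [11, 2, 8,
    14], [12, 2, 11, 15]]
  P := {
    a := 6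
    N := 16
    nb := [450, 1861, 6970, 13828, 18692, 38916, 1155, 321, 16535, 1038, 8778, 49204, 41004, 5128,
      2320, 6176]
    tri := [(0, 1, 6), (0, 1, 8), (0, 6, 7), (0, 7, 8), (1, 2, 8), (1, 2, 9), (1, 6, 10), (1, 9, 10),
      (2, 3, 9), (2, 3, 12), (2, 4, 8), (2, 4, 11), (2, 5, 11), (2, 5, 12), (3, 9, 10), (3, 10,
      13), (3, 12, 13), (4, 8, 14), (4, 11, 14), (5, 11, 15), (5, 12, 15)]
    fin := [0, 0, 2, 2, 2, 2, 6, 0, 2, 2, 10, 11, 2, 13, 14, 15]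
    chd := [(0, 10), (2, 11)]
    steps := [(0, 1), (0, 7), (2, 3), (2, 4), (2, 5), (2, 8), (2, 12), (2, 9)] }
  rep := [2, 10, 6, 11, 0, 13, 14, 15]

noncomputable def v1392 : Cov.CovD where
  P := 3
  N := 5
  pl := [0, 7, 8, 9]
  lev := [⟨[], [], [(0, 4)], [2], [(1, 4, [1]), (2, 0, [3])]⟩,
    ⟨[], [(0, 0), (0, 1), (0, 4)], [(0, 0), (0, 1)], [2], [(2, 0, [3]), (3, 0, [3]), (4, 1,
      [4])]⟩,
    ⟨[(0, 1)], [(0, 0), (1, 0), (1, 1), (1, 3)], [(0, 0), (0, 3)], [], [(2, 0, [3]), (3, 0,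
      [3]), (5, 3, [0]), (6, 0, [3])]⟩,
    ⟨[(1, 2)], [(1, 0), (1, 1), (2, 0), (2, 1), (2, 3)], [(0, 0), (0, 1)], [5], [(3, 0,
      [3]), (4, 1, [4]), (6, 0, [3])]⟩,
    ⟨[(1, 2), (2, 3)], [(0, 0), (1, 0), (2, 0), (2, 3)], [(0, 3)], [6], [(2, 0, [3]), (5,
      3, [0])]⟩,
    ⟨[(1, 2), (2, 3), (2, 4)], [(2, 0), (2, 3), (3, 0), (4, 3)], [(0, 3)], [7], [(5, 3,
      [0]), (6, 0, [3])]⟩]
  Ta := [((2, 1), 0, 4), ((2, 8), 0, 6), ((3, 4), 0, 1), ((6, 7), 0, 5), ((6, 9), 0, 7)]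
  Tb := [((0, 1, 4), 2, 4, 1), ((1, 0, 2), 4, 2, 0), ((2, 1, 8), 0, 4, 6), ((4, 0, 3), 1, 2, 0),
    ((4, 0, 7), 1, 2, 5), ((4, 3, 7), 1, 0, 5), ((5, 8, 9), 3, 6, 7), ((6, 7, 9), 0, 5, 7),
    ((7, 4, 6), 5, 1, 0), ((8, 2, 5), 6, 0, 3), ((9, 5, 6), 7, 3, 0)]
  Tc := []
  Td := [((0, 3), (2, 1), 4), ((0, 3), (2, 8), 6), ((0, 3), (3, 4), 1), ((0, 3), (6, 7), 5), ((0,
    3), (6, 9), 7), ((1, 4), (4, 0), 2), ((1, 4), (4, 3), 0), ((1, 4), (4, 7), 5), ((3, 0),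
    (5, 8), 6), ((3, 0), (5, 9), 7), ((4, 1), (1, 0), 2), ((4, 1), (1, 2), 0)]
  G := [[0, 0, 0xc3c8451c4a9a696cac2, 0x19c18c35aa61ec61448c13c859a396c651c48cc,
    0x14413c18ca9aa61ece82], [0, 0x118112114e41184112114acc, 0x6156a1dca1911ca42,
    0xc3c8431c415a696cac1, 0x1111cadacc17c682], [0, 0, 0x414c181ccc2bac6bce82,
    0x48c82ac44266caec82a8a6ce864ecec1, 0x414ca4d81ca16ca7ce82]]

noncomputable def n1392 : Ent := ⟨e1392, noF, [], [], [(7, 14, [385746751338780685620664494392815470296102193487288376378187777, 0])]⟩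

def c1392 : PLift (Cov.check n1392.C.D v1392 = true) := ⟨by decide +kernel⟩

def b1392 : PLift (entF (fidx ts) 400 1392 n1392 = true) := ⟨by decide +kernel⟩

theorem g1392 : GoodF (fidx ts) 400 1392 := GoodF.ofV v1392 n1392 c1392.down b1392.down

/-- 468544:1101 -/
noncomputable def e1393 : SCfg where
  D := {
    a := 6
    L := 11
    kp := 8
    inn := [(0, 1), (1, 0), (1, 2), (2, 1), (2, 3), (2, 4), (2, 5), (3, 2), (4, 2), (5, 2)]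
    mix := [(0, 0), (0, 1), (0, 2), (1, 0), (1, 2), (1, 3), (1, 4), (2, 2), (2, 3), (2, 5), (2, 6), (3,
      3), (3, 6), (3, 7), (3, 8), (4, 2), (4, 5), (4, 9), (5, 5), (5, 6), (5, 10)]
    cl := [1, 4, 0, 0, 2, 3, 0, 5, 6, 7, 8]
    chq := [(0, 3), (2, 4), (3, 0), (4, 2)]
    rng := [(0, 1), (0, 4), (1, 0), (1, 2), (2, 1), (2, 9), (3, 4), (3, 8), (4, 0), (4, 3), (5, 9), (5,
      10), (6, 7), (6, 10), (7, 6), (7, 8), (8, 3), (8, 7), (9, 2), (9, 5), (10, 5), (10, 6)]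
    lev := [] }
  links := [[1, 6, 7, 8], [6, 0, 8, 2, 9, 10], [9, 1, 8, 4, 11, 5, 12, 3], [9, 2, 12, 13, 14], [11, 2, 8,
    15], [12, 2, 11, 16]]
  P := {
    a := 6
    N := 17
    nb := [450, 1861, 6970, 29188, 35076, 71684, 1155, 321, 32919, 17422, 578, 98356, 73772, 20488,
      8712, 2320, 6176]
    tri := [(0, 1, 6), (0, 1, 8), (0, 6, 7), (0, 7, 8), (1, 2, 8), (1, 2, 9), (1, 6, 10), (1, 9, 10),
      (2, 3, 9), (2, 3, 12), (2, 4, 8), (2, 4, 11), (2, 5, 11), (2, 5, 12), (3, 9, 14), (3, 12,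
      13), (3, 13, 14), (4, 8, 15), (4, 11, 15), (5, 11, 16), (5, 12, 16)]
    fin := [0, 0, 2, 2, 2, 2, 6, 0, 2, 2, 10, 11, 2, 13, 14, 15, 16]
    chd := [(0, 10), (2, 11)]
    steps := [(0, 1), (0, 7), (2, 3), (2, 4), (2, 5), (2, 8), (2, 12), (2, 9)] }
  rep := [2, 6, 10, 11, 0, 13, 14, 15, 16]

noncomputable def v1393 : Cov.CovD where
  P := 3
  N := 6
  pl := [0, 7, 8, 9, 10]
  lev := [⟨[], [], [(0, 4)], [1], [(1, 4, [2]), (2, 0, [3])]⟩,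
    ⟨[], [(0, 0), (0, 2), (0, 4)], [(0, 0), (0, 2)], [1], [(2, 0, [3]), (3, 0, [3]), (4, 2,
      [4])]⟩,
    ⟨[(0, 1)], [(0, 0), (1, 0), (1, 2), (1, 3)], [(0, 0), (0, 3)], [], [(2, 0, [3]), (3, 0,
      [3]), (5, 3, [0]), (6, 0, [3])]⟩,
    ⟨[(1, 2)], [(1, 0), (2, 0), (2, 3)], [(0, 0)], [5, 6], [(3, 0, [3]), (6, 0, [3])]⟩,
    ⟨[(1, 2), (2, 3)], [(0, 0), (1, 0), (2, 0), (2, 3)], [(0, 3)], [7], [(2, 0, [3]), (5,
      3, [0])]⟩,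
    ⟨[(1, 2), (2, 3), (2, 4)], [(2, 0), (2, 3), (3, 0), (4, 3)], [(0, 3)], [8], [(5, 3,
      [0]), (6, 0, [3])]⟩]
  Ta := [((2, 1), 0, 4), ((2, 9), 0, 7), ((3, 4), 0, 2), ((3, 8), 0, 6), ((6, 7), 0, 5), ((6,
    10), 0, 8)]
  Tb := [((0, 1, 4), 1, 4, 2), ((1, 0, 2), 4, 1, 0), ((2, 1, 9), 0, 4, 7), ((3, 4, 8), 0, 2, 6),
    ((4, 0, 3), 2, 1, 0), ((5, 9, 10), 3, 7, 8), ((6, 7, 10), 0, 5, 8), ((7, 6, 8), 5, 0, 6),
    ((8, 3, 7), 6, 0, 5), ((9, 2, 5), 7, 0, 3), ((10, 5, 6), 8, 3, 0)]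
  Tc := []
  Td := [((0, 3), (2, 1), 4), ((0, 3), (2, 9), 7), ((0, 3), (3, 4), 2), ((0, 3), (3, 8), 6), ((0,
    3), (6, 7), 5), ((0, 3), (6, 10), 8), ((2, 4), (4, 0), 1), ((2, 4), (4, 3), 0), ((3, 0),
    (5, 9), 7), ((3, 0), (5, 10), 8), ((4, 2), (1, 0), 1), ((4, 2), (1, 2), 0)]
  G := [[0, 0x19cb16a431c1aa6a41e596cac2, 0,
    0x11c916a44263cc3aae91a156caccbcb16a11a696c651c1aa68cc, 0x5432613c18c91eea5aa31e18ee84],
    [0, 0x1111a13e6d66d6c19ea42, 0x111111e111111e6811116111111e118e8c,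
    0x19c12a431c1cae6a5a69614eac1, 0x116136118ac1bc61dc15ee84], [0,
    0xa6c7a247a46c98a36a1c63cac2, 0, 0x48c82ac26ee44264cae2caee82a8a6cea64e84ceec1,
    0x42472236c1889e1e6ca7e1848dee84]]

noncomputable def n1393 : Ent := ⟨e1393, noF, [], [], [(7, 15, [1685356702439545624007900436039642273970977273354372543760005787649, 0]), (14, 10, [1685382413448253768217684516765845462123538836781343823359353749505, 0])]⟩

def c1393 : PLift (Cov.check n1393.C.D v1393 = true) := ⟨by decide +kernel⟩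

def b1393 : PLift (entF (fidx ts) 400 1393 n1393 = true) := ⟨by decide +kernel⟩

theorem g1393 : GoodF (fidx ts) 400 1393 := GoodF.ofV v1393 n1393 c1393.down b1393.down

/-- 468454:1103/1 -/
noncomputable def e1394 : SCfg where
  D := {
    a := 6
    L := 10
    kp := 7
    inn := [(0, 1), (1, 0), (1, 2), (2, 1), (2, 3), (2, 4), (2, 5), (3, 2), (4, 2), (5, 2)]
    mix := [(0, 0), (0, 1), (0, 2), (1, 0), (1, 2), (1, 3), (1, 4), (2, 2), (2, 3), (2, 5), (2, 6), (3,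
      3), (3, 6), (3, 7), (4, 1), (4, 2), (4, 5), (4, 8), (5, 5), (5, 6), (5, 9)]
    cl := [1, 4, 0, 0, 2, 0, 3, 5, 6, 7]
    chq := [(0, 1), (0, 3), (1, 0), (3, 0)]
    rng := [(0, 1), (0, 4), (1, 0), (1, 2), (1, 8), (2, 1), (3, 4), (3, 7), (4, 0), (4, 3), (5, 8), (5,
      9), (6, 7), (6, 9), (7, 3), (7, 6), (8, 1), (8, 5), (9, 5), (9, 6)]
    lev := [] }
  links := [[1, 6, 7, 8], [6, 0, 8, 2, 9, 10], [9, 1, 8, 4, 11, 5, 12, 3], [9, 2, 12, 13], [11, 2, 8, 7,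
    14], [12, 2, 11, 15]]
  P := {
    a := 6
    N := 16
    nb := [450, 1861, 6970, 12804, 18820, 38916, 1155, 16721, 151, 9230, 578, 49204, 41004, 4616,
      2192, 6176]
    tri := [(0, 1, 6), (0, 1, 8), (0, 6, 7), (0, 7, 8), (1, 2, 8), (1, 2, 9), (1, 6, 10), (1, 9, 10),
      (2, 3, 9), (2, 3, 12), (2, 4, 8), (2, 4, 11), (2, 5, 11), (2, 5, 12), (3, 9, 13), (3, 12,
      13), (4, 7, 8), (4, 7, 14), (4, 11, 14), (5, 11, 15), (5, 12, 15)]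
    fin := [0, 0, 2, 2, 4, 2, 0, 4, 2, 2, 10, 2, 12, 13, 14, 15]
    chd := [(0, 2), (2, 12)]
    steps := [(0, 1), (0, 6), (2, 3), (2, 5), (2, 8), (2, 11), (2, 9), (4, 7)] }
  rep := [2, 0, 10, 12, 4, 13, 14, 15]

noncomputable def v1394 : Cov.CovD where
  P := 3
  N := 5
  pl := [1, 4, 7, 8, 9]
  lev := [⟨[], [], [(0, 1)], [4], [(0, 1, [0]), (2, 0, [1, 3])]⟩,
    ⟨[], [(0, 0), (0, 1)], [(0, 0), (0, 1)], [2], [(0, 1, [0]), (2, 0, [1, 3]), (3, 0, [1,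
      3])]⟩,
    ⟨[(0, 1)], [(0, 0), (1, 0), (1, 1), (1, 3)], [(0, 0), (0, 3)], [], [(2, 0, [1, 3]), (3,
      0, [1, 3]), (5, 0, [1, 3]), (6, 3, [0])]⟩,
    ⟨[(1, 2)], [(1, 0), (2, 0), (2, 3)], [(0, 3)], [5], [(3, 0, [1, 3]), (6, 3, [0])]⟩,
    ⟨[(1, 2), (2, 3)], [(0, 0), (1, 0), (2, 0), (2, 3)], [(0, 0)], [4, 6], [(2, 0, [1, 3]),
      (5, 0, [1, 3])]⟩,
    ⟨[(1, 2), (2, 3), (2, 4)], [(2, 0), (2, 3), (3, 3), (4, 0)], [(0, 3)], [7], [(5, 0, [1,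
      3]), (6, 3, [0])]⟩]
  Ta := [((2, 1), 0, 4), ((3, 4), 0, 2), ((3, 7), 0, 5), ((5, 8), 0, 6), ((5, 9), 0, 7)]
  Tb := [((0, 1, 4), 1, 4, 2), ((1, 0, 2), 4, 1, 0), ((1, 0, 8), 4, 1, 6), ((1, 2, 8), 4, 0, 6),
    ((3, 4, 7), 0, 2, 5), ((4, 0, 3), 2, 1, 0), ((5, 8, 9), 0, 6, 7), ((6, 7, 9), 3, 5, 7),
    ((7, 3, 6), 5, 0, 3), ((8, 1, 5), 6, 4, 0), ((9, 5, 6), 7, 0, 3)]
  Tc := [(0, 1, 3)]
  Td := [((0, 1), (2, 1), 4), ((0, 1), (3, 4), 2), ((0, 1), (3, 7), 5), ((0, 1), (5, 8), 6), ((0,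
    1), (5, 9), 7), ((0, 3), (2, 1), 4), ((0, 3), (3, 4), 2), ((0, 3), (3, 7), 5), ((0, 3),
    (5, 8), 6), ((0, 3), (5, 9), 7), ((1, 0), (0, 1), 4), ((1, 0), (0, 4), 2), ((3, 0), (6,
    7), 5), ((3, 0), (6, 9), 7)]
  G := [[0, 0x11a111a16811611161a4c, 0, 0xc24b2189a8d812be41161b6626d64e8c,
    0xaca11a3aca11a9681161b6626d64e8c], [0, 0x11c111c16811a111a1a46,
    0x1811a12e41161412e181411ceac1, 0x51611cea2e9812a18661e59cee41,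
    0x54126c15e39a32e131e1499cee81], [0, 0x11c111c1a411a111a1686, 0,
    0xcacaaaa244af4c4ca65a6c1ac1, 0x644665aa8eaaa2248cfaece1e81]]

noncomputable def n1394 : Ent := ⟨e1394, noF, [], [], []⟩

def c1394 : PLift (Cov.check n1394.C.D v1394 = true) := ⟨by decide +kernel⟩

def b1394 : PLift (entF (fidx ts) 400 1394 n1394 = true) := ⟨by decide +kernel⟩

theorem g1394 : GoodF (fidx ts) 400 1394 := GoodF.ofV v1394 n1394 c1394.down b1394.down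

/-- 468454:1103 -/
noncomputable def e1395 : SCfg where
  D := {
    a := 6
    L := 11
    kp := 8
    inn := [(0, 1), (1, 0), (1, 2), (2, 1), (2, 3), (2, 4), (2, 5), (3, 2), (4, 2), (5, 2)]
    mix := [(0, 0), (0, 1), (0, 2), (1, 0), (1, 2), (1, 3), (1, 4), (2, 2), (2, 3), (2, 5), (2, 6), (3,
      3), (3, 6), (3, 7), (4, 2), (4, 5), (4, 8), (4, 9), (5, 5), (5, 6), (5, 10)]
    cl := [2, 3, 0, 0, 4, 0, 1, 5, 6, 7, 8]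
    chq := [(0, 1), (0, 2), (1, 0), (2, 0)]
    rng := [(0, 1), (0, 4), (1, 0), (1, 2), (2, 1), (2, 8), (3, 4), (3, 7), (4, 0), (4, 3), (5, 9), (5,
      10), (6, 7), (6, 10), (7, 3), (7, 6), (8, 2), (8, 9), (9, 5), (9, 8), (10, 5), (10, 6)]
    lev := [] }
  links := [[1, 6, 7, 8], [6, 0, 8, 2, 9, 10], [9, 1, 8, 4, 11, 5, 12, 3], [9, 2, 12, 13], [11, 2, 8, 14,
    15], [12, 2, 11, 16]]
  P := {
    a := 6
    N := 17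
    nb := [450, 1861, 6970, 12804, 51460, 71684, 1155, 321, 16535, 9230, 578, 98356, 73772, 4616,
      33040, 18448, 6176]
    tri := [(0, 1, 6), (0, 1, 8), (0, 6, 7), (0, 7, 8), (1, 2, 8), (1, 2, 9), (1, 6, 10), (1, 9, 10),
      (2, 3, 9), (2, 3, 12), (2, 4, 8), (2, 4, 11), (2, 5, 11), (2, 5, 12), (3, 9, 13), (3, 12,
      13), (4, 8, 14), (4, 11, 15), (4, 14, 15), (5, 11, 16), (5, 12, 16)]
    fin := [0, 0, 2, 2, 2, 2, 0, 7, 2, 2, 10, 2, 12, 13, 14, 15, 16]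
    chd := [(0, 2), (2, 12)]
    steps := [(0, 1), (0, 6), (2, 3), (2, 4), (2, 5), (2, 8), (2, 11), (2, 9)] }
  rep := [2, 12, 0, 7, 10, 13, 14, 15, 16]

noncomputable def v1395 : Cov.CovD where
  P := 3
  N := 6
  pl := [1, 4, 7, 8, 9, 10]
  lev := [⟨[], [], [(0, 2)], [3], [(0, 2, [0]), (2, 0, [1, 2])]⟩,
    ⟨[], [(0, 0), (0, 2)], [(0, 0), (0, 2)], [4], [(0, 2, [0]), (2, 0, [1, 2]), (3, 0, [1,
      2])]⟩,
    ⟨[(0, 1)], [(0, 0), (1, 0), (1, 1), (1, 2)], [(0, 0), (0, 1)], [], [(2, 0, [1, 2]), (3,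
      0, [1, 2]), (5, 0, [1, 2]), (6, 1, [0])]⟩,
    ⟨[(1, 2)], [(1, 0), (2, 0), (2, 1)], [(0, 1)], [5], [(3, 0, [1, 2]), (6, 1, [0])]⟩,
    ⟨[(1, 2), (2, 3)], [(0, 0), (1, 0), (2, 0), (2, 1)], [(0, 0)], [6, 7], [(2, 0, [1, 2]),
      (5, 0, [1, 2])]⟩,
    ⟨[(1, 2), (2, 3), (2, 4)], [(2, 0), (2, 1), (3, 1), (4, 0)], [(0, 1)], [8], [(5, 0, [1,
      2]), (6, 1, [0])]⟩]
  Ta := [((2, 1), 0, 3), ((2, 8), 0, 6), ((3, 4), 0, 4), ((3, 7), 0, 5), ((5, 9), 0, 7), ((5,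
    10), 0, 8)]
  Tb := [((0, 1, 4), 2, 3, 4), ((1, 0, 2), 3, 2, 0), ((2, 1, 8), 0, 3, 6), ((3, 4, 7), 0, 4, 5),
    ((4, 0, 3), 4, 2, 0), ((5, 9, 10), 0, 7, 8), ((6, 7, 10), 1, 5, 8), ((7, 3, 6), 5, 0, 1),
    ((8, 2, 9), 6, 0, 7), ((9, 5, 8), 7, 0, 6), ((10, 5, 6), 8, 0, 1)]
  Tc := [(0, 1, 2)]
  Td := [((0, 1), (2, 1), 3), ((0, 1), (2, 8), 6), ((0, 1), (3, 4), 4), ((0, 1), (3, 7), 5), ((0,
    1), (5, 9), 7), ((0, 1), (5, 10), 8), ((0, 2), (2, 1), 3), ((0, 2), (2, 8), 6), ((0, 2),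
    (3, 4), 4), ((0, 2), (3, 7), 5), ((0, 2), (5, 9), 7), ((0, 2), (5, 10), 8), ((1, 0), (6,
    7), 5), ((1, 0), (6, 10), 8), ((2, 0), (0, 1), 3), ((2, 0), (0, 4), 4)]
  G := [[0, 0xaaaeaacea46cce4c6ce8ac1, 0x111e184111e142111e148e, 0x111e14111e18c111e14111e18cc,
    0x111e14111e18a111e14111e14aa], [0, 0x2a6e8aa4ace46aae66ae68c1, 0x111e182111e184111e148e,
    0x1164111e18cc116111ec188cc1, 0x144111e11acc111e4111e8ca1], [0, 0xccceaccec26acec6cec2c1,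
    0x111e184111e148111e182e, 0x441c8ce1c4cce1881cc1, 0x441c8ce1c441c8ce1ca1]]

noncomputable def n1395 : Ent := ⟨e1395, noF, [], [], [(7, 14, [1685382413448253767852309107433119732572617628602273068445370621953, 0])]⟩

def c1395 : PLift (Cov.check n1395.C.D v1395 = true) := ⟨by decide +kernel⟩

def b1395 : PLift (entF (fidx ts) 400 1395 n1395 = true) := ⟨by decide +kernel⟩

theorem g1395 : GoodF (fidx ts) 400 1395 := GoodF.ofV v1395 n1395 c1395.down b1395.down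

/-- 484454:1104/2 -/
noncomputable def e1396 : SCfg where
  D := {
    a := 6
    L := 7
    kp := 5
    inn := [(0, 1), (0, 4), (1, 0), (1, 2), (1, 3), (1, 5), (2, 1), (3, 1), (4, 0), (5, 1)]
    mix := [(0, 0), (0, 1), (1, 0), (1, 1), (1, 2), (1, 3), (2, 2), (2, 3), (2, 4), (3, 0), (3, 3), (3,
      5), (4, 0), (4, 1), (4, 5), (4, 6), (5, 1), (5, 2), (5, 6)]
    cl := [0, 0, 1, 2, 5, 3, 4]
    chq := [(0, 1), (0, 2), (0, 5), (1, 0), (2, 0), (5, 0)]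
    rng := [(0, 5), (1, 6), (2, 4), (2, 6), (3, 4), (3, 5), (4, 2), (4, 3), (5, 0), (5, 3), (5, 6), (6,
      1), (6, 2), (6, 5)]
    lev := [] }
  links := [[1, 6, 4, 7], [6, 0, 7, 5, 8, 2, 9, 3], [9, 1, 8, 10], [6, 1, 9, 11], [7, 0, 6, 11, 12], [8,
    1, 7, 12]]
  P := {
    a := 6
    N := 13
    nb := [210, 1005, 1794, 2626, 6337, 4482, 2075, 4147, 5158, 3086, 772, 4696, 2480]
    tri := [(0, 1, 6), (0, 1, 7), (0, 4, 6), (0, 4, 7), (1, 2, 8), (1, 2, 9), (1, 3, 6), (1, 3, 9), (1,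
      5, 7), (1, 5, 8), (2, 8, 10), (2, 9, 10), (3, 6, 11), (3, 9, 11), (4, 6, 11), (4, 7, 12),
      (4, 11, 12), (5, 7, 12), (5, 8, 12)]
    fin := [0, 0, 0, 0, 0, 0, 0, 0, 8, 9, 10, 11, 12]
    chd := [(0, 8), (0, 9), (0, 10)]
    steps := [(0, 1), (0, 2), (0, 3), (0, 5), (0, 6), (0, 7), (0, 4)] }
  rep := [0, 8, 9, 11, 12, 10]

noncomputable def v1396 : Cov.CovD where
  P := 3
  N := 3
  pl := [5, 6]
  lev := [⟨[], [], [(0, 0)], [], [(0, 0, [1, 2, 5]), (1, 0, [1, 2, 5])]⟩,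
    ⟨[], [(0, 0), (0, 1), (0, 2)], [(0, 0), (0, 1), (0, 2), (1, 2)], [], [(0, 0, [1, 2,
      5]), (1, 0, [1, 2, 5]), (2, 1, [0]), (3, 2, [0])]⟩,
    ⟨[(0, 1)], [(1, 0), (1, 1), (1, 2), (1, 5)], [(1, 2), (1, 5), (2, 5)], [], [(2, 1,
      [0]), (3, 2, [0]), (4, 5, [0])]⟩,
    ⟨[(0, 1), (1, 2)], [(0, 0), (1, 0), (1, 1), (1, 2), (2, 2)], [(0, 2)], [3], [(0, 0, [1,
      2, 5]), (3, 2, [0])]⟩,
    ⟨[(0, 1)], [(0, 0), (1, 0), (3, 0)], [(0, 0)], [3, 4], [(0, 0, [1, 2, 5]), (1, 0, [1,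
      2, 5])]⟩,
    ⟨[(0, 1), (1, 2), (1, 3)], [(0, 0), (1, 0), (1, 1), (1, 2), (2, 1), (4, 0)], [(0, 1)],
      [4], [(1, 0, [1, 2, 5]), (2, 1, [0])]⟩]
  Ta := [((0, 5), 0, 3), ((1, 6), 0, 4)]
  Tb := [((2, 4, 6), 1, 5, 4), ((3, 4, 5), 2, 5, 3), ((4, 2, 3), 5, 1, 2), ((5, 0, 3), 3, 0, 2),
    ((5, 0, 6), 3, 0, 4), ((5, 3, 6), 3, 2, 4), ((6, 1, 2), 4, 0, 1), ((6, 1, 5), 4, 0, 3),
    ((6, 2, 5), 4, 1, 3)]
  Tc := [(0, 1, 2), (0, 1, 5), (0, 2, 5)]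
  Td := [((0, 1), (0, 5), 3), ((0, 1), (1, 6), 4), ((0, 2), (0, 5), 3), ((0, 2), (1, 6), 4), ((0,
    5), (0, 5), 3), ((0, 5), (1, 6), 4), ((1, 0), (2, 4), 5), ((1, 0), (2, 6), 4), ((2, 0),
    (3, 4), 5), ((2, 0), (3, 5), 3), ((5, 0), (4, 2), 1), ((5, 0), (4, 3), 2)]
  G := [[0, 0x842e1184, 0x881412e142, 0x11a116c142, 0x14c816a184], [0, 0x842e1148, 0x181412e148,
    0x84ce1182, 0x84ce1184]]

noncomputable def n1396 : Ent := ⟨e1396, noF, [], [], []⟩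

def c1396 : PLift (Cov.check n1396.C.D v1396 = true) := ⟨by decide +kernel⟩

def b1396 : PLift (entF (fidx ts) 400 1396 n1396 = true) := ⟨by decide +kernel⟩

theorem g1396 : GoodF (fidx ts) 400 1396 := GoodF.ofV v1396 n1396 c1396.down b1396.down

/-- 484454:1104/1 -/
noncomputable def e1397 : SCfg where
  D := {
    a := 6
    L := 8
    kp := 6
    inn := [(0, 1), (0, 4), (1, 0), (1, 2), (1, 3), (1, 5), (2, 1), (3, 1), (4, 0), (5, 1)]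
    mix := [(0, 0), (0, 1), (1, 0), (1, 1), (1, 2), (1, 3), (2, 2), (2, 3), (2, 4), (3, 0), (3, 3), (3,
      5), (4, 0), (4, 1), (4, 5), (4, 6), (5, 1), (5, 2), (5, 7)]
    cl := [0, 0, 1, 2, 4, 3, 5, 6]
    chq := [(0, 1), (0, 2), (0, 4), (1, 0), (2, 0), (4, 0)]
    rng := [(0, 5), (1, 6), (1, 7), (2, 4), (2, 7), (3, 4), (3, 5), (4, 2), (4, 3), (5, 0), (5, 3), (5,
      6), (6, 1), (6, 5), (7, 1), (7, 2)]
    lev := [] }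
  links := [[1, 6, 4, 7], [6, 0, 7, 5, 8, 2, 9, 3], [9, 1, 8, 10], [6, 1, 9, 11], [7, 0, 6, 11, 12], [8,
    1, 7, 13]]
  P := {
    a := 6
    N := 14
    nb := [210, 1005, 1794, 2626, 6337, 8578, 2075, 12339, 9254, 3086, 772, 4696, 2192, 416]
    tri := [(0, 1, 6), (0, 1, 7), (0, 4, 6), (0, 4, 7), (1, 2, 8), (1, 2, 9), (1, 3, 6), (1, 3, 9), (1,
      5, 7), (1, 5, 8), (2, 8, 10), (2, 9, 10), (3, 6, 11), (3, 9, 11), (4, 6, 11), (4, 7, 12),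
      (4, 11, 12), (5, 7, 13), (5, 8, 13)]
    fin := [0, 0, 0, 0, 0, 0, 0, 0, 8, 9, 10, 11, 12, 13]
    chd := [(0, 8), (0, 9), (0, 10)]
    steps := [(0, 1), (0, 2), (0, 3), (0, 5), (0, 6), (0, 4), (0, 7)] }
  rep := [0, 8, 9, 11, 10, 12, 13]

noncomputable def v1397 : Cov.CovD where
  P := 3
  N := 4
  pl := [5, 6, 7]
  lev := [⟨[], [], [(0, 0)], [], [(0, 0, [1, 2, 4]), (1, 0, [1, 2, 4])]⟩,
    ⟨[], [(0, 0), (0, 1), (0, 2)], [(0, 0), (0, 1), (0, 2), (1, 2)], [], [(0, 0, [1, 2,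
      4]), (1, 0, [1, 2, 4]), (2, 1, [0]), (3, 2, [0])]⟩,
    ⟨[(0, 1)], [(1, 0), (1, 1), (1, 2), (1, 4)], [(1, 2), (1, 4), (2, 4)], [], [(2, 1,
      [0]), (3, 2, [0]), (4, 4, [0])]⟩,
    ⟨[(0, 1), (1, 2)], [(0, 0), (1, 0), (1, 1), (1, 2), (2, 2)], [(0, 2)], [3], [(0, 0, [1,
      2, 4]), (3, 2, [0])]⟩,
    ⟨[(0, 1)], [(0, 0), (1, 0), (3, 0)], [(0, 0)], [3, 5], [(0, 0, [1, 2, 4]), (1, 0, [1,
      2, 4])]⟩,
    ⟨[(0, 1), (1, 2), (1, 3)], [(0, 0), (1, 0), (1, 1), (1, 2), (2, 1), (4, 0)], [(0, 1)],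
      [6], [(1, 0, [1, 2, 4]), (2, 1, [0])]⟩]
  Ta := [((0, 5), 0, 3), ((1, 6), 0, 5), ((1, 7), 0, 6)]
  Tb := [((1, 6, 7), 0, 5, 6), ((2, 4, 7), 1, 4, 6), ((3, 4, 5), 2, 4, 3), ((4, 2, 3), 4, 1, 2),
    ((5, 0, 3), 3, 0, 2), ((5, 0, 6), 3, 0, 5), ((5, 3, 6), 3, 2, 5), ((6, 1, 5), 5, 0, 3),
    ((7, 1, 2), 6, 0, 1)]
  Tc := [(0, 1, 2), (0, 1, 4), (0, 2, 4)]
  Td := [((0, 1), (0, 5), 3), ((0, 1), (1, 6), 5), ((0, 1), (1, 7), 6), ((0, 2), (0, 5), 3), ((0,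
    2), (1, 6), 5), ((0, 2), (1, 7), 6), ((0, 4), (0, 5), 3), ((0, 4), (1, 6), 5), ((0, 4),
    (1, 7), 6), ((1, 0), (2, 4), 4), ((1, 0), (2, 7), 6), ((2, 0), (3, 4), 4), ((2, 0), (3,
    5), 3), ((4, 0), (4, 2), 1), ((4, 0), (4, 3), 2)]
  G := [[0, 0xa66e1184, 0x181412e142, 0x11a116c184, 0x11c116a184], [0, 0xc6ce1142, 0x181412e184,
    0xccce1142, 0xccce1184]]

noncomputable def n1397 : Ent := ⟨e1397, noF, [], [], [(12, 13, [18394062992640663726968434746027364144358640063423660033, 0])]⟩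

def c1397 : PLift (Cov.check n1397.C.D v1397 = true) := ⟨by decide +kernel⟩

def b1397 : PLift (entF (fidx ts) 400 1397 n1397 = true) := ⟨by decide +kernel⟩

theorem g1397 : GoodF (fidx ts) 400 1397 := GoodF.ofV v1397 n1397 c1397.down b1397.down

/-- 484454:1104/3 -/
noncomputable def e1398 : SCfg where
  D := {
    a := 6
    L := 8
    kp := 6
    inn := [(0, 1), (0, 4), (1, 0), (1, 2), (1, 3), (1, 5), (2, 1), (3, 1), (4, 0), (5, 1)]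
    mix := [(0, 0), (0, 1), (1, 0), (1, 1), (1, 2), (1, 3), (2, 2), (2, 3), (2, 4), (3, 0), (3, 3), (3,
      5), (4, 0), (4, 1), (4, 6), (4, 7), (5, 1), (5, 2), (5, 7)]
    cl := [0, 0, 1, 2, 4, 5, 6, 3]
    chq := [(0, 1), (0, 2), (0, 4), (1, 0), (2, 0), (4, 0)]
    rng := [(0, 5), (0, 6), (1, 7), (2, 4), (2, 7), (3, 4), (3, 5), (4, 2), (4, 3), (5, 0), (5, 3), (6,
      0), (6, 7), (7, 1), (7, 2), (7, 6)]
    lev := [] }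
  links := [[1, 6, 4, 7], [6, 0, 7, 5, 8, 2, 9, 3], [9, 1, 8, 10], [6, 1, 9, 11], [7, 0, 6, 12, 13], [8,
    1, 7, 13]]
  P := {
    a := 6
    N := 14
    nb := [210, 1005, 1794, 2626, 12481, 8578, 6171, 8243, 9254, 3086, 772, 584, 8272, 4528]
    tri := [(0, 1, 6), (0, 1, 7), (0, 4, 6), (0, 4, 7), (1, 2, 8), (1, 2, 9), (1, 3, 6), (1, 3, 9), (1,
      5, 7), (1, 5, 8), (2, 8, 10), (2, 9, 10), (3, 6, 11), (3, 9, 11), (4, 6, 12), (4, 7, 13),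
      (4, 12, 13), (5, 7, 13), (5, 8, 13)]
    fin := [0, 0, 0, 0, 0, 0, 0, 0, 8, 9, 10, 11, 12, 13]
    chd := [(0, 8), (0, 9), (0, 10)]
    steps := [(0, 1), (0, 2), (0, 3), (0, 4), (0, 6), (0, 7), (0, 5)] }
  rep := [0, 8, 9, 13, 10, 11, 12]

noncomputable def v1398 : Cov.CovD where
  P := 3
  N := 4
  pl := [5, 6, 7]
  lev := [⟨[], [], [(0, 0)], [], [(0, 0, [1, 2, 4]), (1, 0, [1, 2, 4])]⟩,
    ⟨[], [(0, 0), (0, 1), (0, 2)], [(0, 0), (0, 1), (0, 2), (1, 2)], [], [(0, 0, [1, 2,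
      4]), (1, 0, [1, 2, 4]), (2, 1, [0]), (3, 2, [0])]⟩,
    ⟨[(0, 1)], [(1, 0), (1, 1), (1, 2), (1, 4)], [(1, 2), (1, 4), (2, 4)], [], [(2, 1,
      [0]), (3, 2, [0]), (4, 4, [0])]⟩,
    ⟨[(0, 1), (1, 2)], [(0, 0), (1, 0), (1, 1), (1, 2), (2, 2)], [(0, 2)], [5], [(0, 0, [1,
      2, 4]), (3, 2, [0])]⟩,
    ⟨[(0, 1)], [(0, 0), (1, 0), (3, 0)], [(0, 0)], [3, 6], [(0, 0, [1, 2, 4]), (1, 0, [1,
      2, 4])]⟩,
    ⟨[(0, 1), (1, 2), (1, 3)], [(0, 0), (1, 0), (1, 1), (1, 2), (2, 1), (4, 0)], [(0, 1)],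
      [3], [(1, 0, [1, 2, 4]), (2, 1, [0])]⟩]
  Ta := [((0, 5), 0, 5), ((0, 6), 0, 6), ((1, 7), 0, 3)]
  Tb := [((0, 5, 6), 0, 5, 6), ((2, 4, 7), 1, 4, 3), ((3, 4, 5), 2, 4, 5), ((4, 2, 3), 4, 1, 2),
    ((5, 0, 3), 5, 0, 2), ((6, 0, 7), 6, 0, 3), ((7, 1, 2), 3, 0, 1), ((7, 1, 6), 3, 0, 6),
    ((7, 2, 6), 3, 1, 6)]
  Tc := [(0, 1, 2), (0, 1, 4), (0, 2, 4)]
  Td := [((0, 1), (0, 5), 5), ((0, 1), (0, 6), 6), ((0, 1), (1, 7), 3), ((0, 2), (0, 5), 5), ((0,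
    2), (0, 6), 6), ((0, 2), (1, 7), 3), ((0, 4), (0, 5), 5), ((0, 4), (0, 6), 6), ((0, 4),
    (1, 7), 3), ((1, 0), (2, 4), 4), ((1, 0), (2, 7), 3), ((2, 0), (3, 4), 4), ((2, 0), (3,
    5), 5), ((4, 0), (4, 2), 1), ((4, 0), (4, 3), 2)]
  G := [[0, 0x842e1148, 0x811e811e6148, 0x141e111ec184, 0x111e141ea182], [0, 0x842e1184,
    0x111e811ea184, 0x84ce1184, 0x84ce1182]]

noncomputable def n1398 : Ent := ⟨e1398, noF, [], [], [(12, 11, [19926932677925709296473841916494848696430411104338264065, 0])]⟩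

def c1398 : PLift (Cov.check n1398.C.D v1398 = true) := ⟨by decide +kernel⟩

def b1398 : PLift (entF (fidx ts) 400 1398 n1398 = true) := ⟨by decide +kernel⟩

theorem g1398 : GoodF (fidx ts) 400 1398 := GoodF.ofV v1398 n1398 c1398.down b1398.down

/-- 484454:1104 -/
noncomputable def e1399 : SCfg where
  D := {
    a := 6
    L := 9
    kp := 7
    inn := [(0, 1), (0, 4), (1, 0), (1, 2), (1, 3), (1, 5), (2, 1), (3, 1), (4, 0), (5, 1)]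
    mix := [(0, 0), (0, 1), (1, 0), (1, 1), (1, 2), (1, 3), (2, 2), (2, 3), (2, 4), (3, 0), (3, 3), (3,
      5), (4, 0), (4, 1), (4, 6), (4, 7), (5, 1), (5, 2), (5, 8)]
    cl := [0, 0, 1, 2, 3, 4, 5, 6, 7]
    chq := [(0, 1), (0, 2), (0, 3), (1, 0), (2, 0), (3, 0)]
    rng := [(0, 5), (0, 6), (1, 7), (1, 8), (2, 4), (2, 8), (3, 4), (3, 5), (4, 2), (4, 3), (5, 0), (5,
      3), (6, 0), (6, 7), (7, 1), (7, 6), (8, 1), (8, 2)]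
    lev := [] }
  links := [[1, 6, 4, 7], [6, 0, 7, 5, 8, 2, 9, 3], [9, 1, 8, 10], [6, 1, 9, 11], [7, 0, 6, 12, 13], [8,
    1, 7, 14]]
  P := {
    a := 6
    N := 15
    nb := [210, 1005, 1794, 2626, 12481, 16770, 6171, 24627, 17446, 3086, 772, 584, 8272, 4240, 416]
    tri := [(0, 1, 6), (0, 1, 7), (0, 4, 6), (0, 4, 7), (1, 2, 8), (1, 2, 9), (1, 3, 6), (1, 3, 9), (1,
      5, 7), (1, 5, 8), (2, 8, 10), (2, 9, 10), (3, 6, 11), (3, 9, 11), (4, 6, 12), (4, 7, 13),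
      (4, 12, 13), (5, 7, 14), (5, 8, 14)]
    fin := [0, 0, 0, 0, 0, 0, 0, 0, 8, 9, 10, 11, 12, 13, 14]
    chd := [(0, 8), (0, 9), (0, 10)]
    steps := [(0, 1), (0, 2), (0, 3), (0, 4), (0, 5), (0, 6), (0, 7)] }
  rep := [0, 8, 9, 10, 11, 12, 13, 14]

noncomputable def v1399 : Cov.CovD where
  P := 3
  N := 5
  pl := [5, 6, 7, 8]
  lev := [⟨[], [], [(0, 0)], [], [(0, 0, [1, 2, 3]), (1, 0, [1, 2, 3])]⟩,
    ⟨[], [(0, 0), (0, 1), (0, 2)], [(0, 0), (0, 1), (0, 2), (1, 2)], [], [(0, 0, [1, 2,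
      3]), (1, 0, [1, 2, 3]), (2, 1, [0]), (3, 2, [0])]⟩,
    ⟨[(0, 1)], [(1, 0), (1, 1), (1, 2), (1, 3)], [(1, 2), (1, 3), (2, 3)], [], [(2, 1,
      [0]), (3, 2, [0]), (4, 3, [0])]⟩,
    ⟨[(0, 1), (1, 2)], [(0, 0), (1, 0), (1, 1), (1, 2), (2, 2)], [(0, 2)], [4], [(0, 0, [1,
      2, 3]), (3, 2, [0])]⟩,
    ⟨[(0, 1)], [(0, 0), (1, 0), (3, 0)], [(0, 0)], [5, 6], [(0, 0, [1, 2, 3]), (1, 0, [1,
      2, 3])]⟩,
    ⟨[(0, 1), (1, 2), (1, 3)], [(0, 0), (1, 0), (1, 1), (1, 2), (2, 1), (4, 0)], [(0, 1)],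
      [7], [(1, 0, [1, 2, 3]), (2, 1, [0])]⟩]
  Ta := [((0, 5), 0, 4), ((0, 6), 0, 5), ((1, 7), 0, 6), ((1, 8), 0, 7)]
  Tb := [((0, 5, 6), 0, 4, 5), ((1, 7, 8), 0, 6, 7), ((2, 4, 8), 1, 3, 7), ((3, 4, 5), 2, 3, 4),
    ((4, 2, 3), 3, 1, 2), ((5, 0, 3), 4, 0, 2), ((6, 0, 7), 5, 0, 6), ((7, 1, 6), 6, 0, 5),
    ((8, 1, 2), 7, 0, 1)]
  Tc := [(0, 1, 2), (0, 1, 3), (0, 2, 3)]
  Td := [((0, 1), (0, 5), 4), ((0, 1), (0, 6), 5), ((0, 1), (1, 7), 6), ((0, 1), (1, 8), 7), ((0,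
    2), (0, 5), 4), ((0, 2), (0, 6), 5), ((0, 2), (1, 7), 6), ((0, 2), (1, 8), 7), ((0, 3),
    (0, 5), 4), ((0, 3), (0, 6), 5), ((0, 3), (1, 7), 6), ((0, 3), (1, 8), 7), ((1, 0), (2,
    4), 3), ((1, 0), (2, 8), 7), ((2, 0), (3, 4), 3), ((2, 0), (3, 5), 4), ((3, 0), (4, 2),
    1), ((3, 0), (4, 3), 2)]
  G := [[0, 0x66ae1184, 0x111e111ea184, 0x111e111ec148, 0x111e111ea184], [0, 0xcace1142,
    0x111e111e6148, 0xccce1148, 0xccce1184]]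

noncomputable def n1399 : Ent := ⟨e1399, noF, [], [], [(12, 11, [87899351228091456402997525766823824674129406633600838225921, 0]), (13, 14, [81620716623019490593592230936445690773474979418095889113089, 0])]⟩

def c1399 : PLift (Cov.check n1399.C.D v1399 = true) := ⟨by decide +kernel⟩

def b1399 : PLift (entF (fidx ts) 400 1399 n1399 = true) := ⟨by decide +kernel⟩

theorem g1399 : GoodF (fidx ts) 400 1399 := GoodF.ofV v1399 n1399 c1399.down b1399.down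

/-- 484455:1105/2 -/
noncomputable def e1400 : SCfg where
  D := {
    a := 6
    L := 8
    kp := 5
    inn := [(0, 1), (0, 4), (1, 0), (1, 2), (1, 3), (2, 1), (2, 5), (3, 1), (4, 0), (5, 2)]
    mix := [(0, 0), (0, 1), (1, 0), (1, 1), (1, 2), (1, 3), (1, 4), (2, 3), (2, 4), (3, 0), (3, 4), (3,
      5), (4, 0), (4, 1), (4, 5), (4, 6), (5, 3), (5, 4), (5, 5), (5, 7)]
    cl := [0, 0, 2, 1, 1, 3, 4, 5]
    chq := [(0, 1), (1, 0)]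
    rng := [(0, 5), (1, 2), (1, 6), (2, 1), (2, 3), (3, 2), (3, 7), (4, 5), (5, 0), (5, 4), (5, 6), (5,
      7), (6, 1), (6, 5), (7, 3), (7, 5)]
    lev := [] }
  links := [[1, 6, 4, 7], [6, 0, 7, 8, 9, 2, 10, 3], [10, 1, 9, 5], [6, 1, 10, 11], [7, 0, 6, 11, 12],
    [10, 2, 9, 13, 11]]
  P := {
    a := 6
    N := 14
    nb := [210, 1997, 1570, 3138, 6337, 11780, 2075, 4371, 642, 8486, 2094, 13432, 2192, 2592]
    tri := [(0, 1, 6), (0, 1, 7), (0, 4, 6), (0, 4, 7), (1, 2, 9), (1, 2, 10), (1, 3, 6), (1, 3, 10),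
      (1, 7, 8), (1, 8, 9), (2, 5, 9), (2, 5, 10), (3, 6, 11), (3, 10, 11), (4, 6, 11), (4, 7,
      12), (4, 11, 12), (5, 9, 13), (5, 10, 11), (5, 11, 13)]
    fin := [0, 0, 2, 0, 0, 5, 0, 0, 8, 2, 2, 5, 12, 13]
    chd := [(0, 2)]
    steps := [(0, 1), (0, 3), (0, 6), (0, 4), (0, 7), (2, 9), (2, 10), (5, 11)] }
  rep := [0, 2, 8, 5, 12, 13]

noncomputable def v1400 : Cov.CovD where
  P := 3
  N := 3
  pl := [2, 5, 6, 7]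
  lev := [⟨[], [], [(0, 0)], [], [(0, 0, [1]), (1, 0, [1])]⟩,
    ⟨[], [(0, 0), (0, 1)], [(0, 0), (0, 1), (1, 1)], [2], [(0, 0, [1]), (1, 0, [1]), (3, 1,
      [0]), (4, 1, [0])]⟩,
    ⟨[(0, 1)], [(1, 0), (1, 1)], [(1, 1)], [], [(3, 1, [0]), (4, 1, [0])]⟩,
    ⟨[(0, 1), (1, 2)], [(0, 0), (1, 0), (1, 1), (2, 1)], [(0, 1)], [3], [(0, 0, [1]), (4,
      1, [0])]⟩,
    ⟨[(0, 1)], [(0, 0), (1, 0), (3, 0)], [(0, 0)], [3, 4], [(0, 0, [1]), (1, 0, [1])]⟩,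
    ⟨[(1, 2)], [(1, 1), (2, 1), (3, 1)], [(1, 1)], [3, 5], [(3, 1, [0]), (4, 1, [0])]⟩]
  Ta := [((0, 5), 0, 3), ((1, 2), 0, 2), ((1, 6), 0, 4), ((3, 2), 1, 2), ((3, 7), 1, 5), ((4, 5),
    1, 3)]
  Tb := [((1, 2, 6), 0, 2, 4), ((2, 1, 3), 2, 0, 1), ((3, 2, 7), 1, 2, 5), ((5, 0, 4), 3, 0, 1),
    ((5, 0, 6), 3, 0, 4), ((5, 0, 7), 3, 0, 5), ((5, 4, 6), 3, 1, 4), ((5, 4, 7), 3, 1, 5),
    ((5, 6, 7), 3, 4, 5), ((6, 1, 5), 4, 0, 3), ((7, 3, 5), 5, 1, 3)]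
  Tc := []
  Td := [((0, 1), (0, 5), 3), ((0, 1), (1, 2), 2), ((0, 1), (1, 6), 4), ((1, 0), (3, 2), 2), ((1,
    0), (3, 7), 5), ((1, 0), (4, 5), 3)]
  G := [[0, 0xe8e46a2e282, 0, 0x95de2182, 0x95de2182], [0, 0xe8c646a2e282, 0, 0, 0x99a556c482],
    [0, 0xe8e4e2e848, 0x95de1484, 0x95de2482, 0x95de1182], [0, 0xe8e4e2e848, 0x95de1842, 0,
    0x95de1484]]

noncomputable def n1400 : Ent := ⟨e1400, noF, [], [], []⟩

def c1400 : PLift (Cov.check n1400.C.D v1400 = true) := ⟨by decide +kernel⟩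

def b1400 : PLift (entF (fidx ts) 400 1400 n1400 = true) := ⟨by decide +kernel⟩

theorem g1400 : GoodF (fidx ts) 400 1400 := GoodF.ofV v1400 n1400 c1400.down b1400.down

/-- 484455:1105/1 -/
noncomputable def e1401 : SCfg where
  D := {
    a := 6
    L := 9
    kp := 6
    inn := [(0, 1), (0, 4), (1, 0), (1, 2), (1, 3), (2, 1), (2, 5), (3, 1), (4, 0), (5, 2)]
    mix := [(0, 0), (0, 1), (1, 0), (1, 1), (1, 2), (1, 3), (1, 4), (2, 3), (2, 4), (3, 0), (3, 4), (3,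
      5), (4, 0), (4, 1), (4, 6), (4, 7), (5, 3), (5, 4), (5, 6), (5, 8)]
    cl := [0, 0, 2, 1, 1, 4, 3, 5, 6]
    chq := [(0, 1), (1, 0)]
    rng := [(0, 5), (0, 6), (1, 2), (1, 7), (2, 1), (2, 3), (3, 2), (3, 8), (4, 5), (4, 6), (5, 0), (5,
      4), (6, 0), (6, 4), (6, 7), (6, 8), (7, 1), (7, 6), (8, 3), (8, 6)]
    lev := [] }
  links := [[1, 6, 4, 7], [6, 0, 7, 8, 9, 2, 10, 3], [10, 1, 9, 5], [6, 1, 10, 11], [7, 0, 6, 12, 13],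
    [10, 2, 9, 14, 12]]
  P := {
    a := 6
    N := 15
    nb := [210, 1997, 1570, 3138, 12481, 22020, 6171, 8467, 642, 16678, 6190, 1096, 25712, 4240, 4640]
    tri := [(0, 1, 6), (0, 1, 7), (0, 4, 6), (0, 4, 7), (1, 2, 9), (1, 2, 10), (1, 3, 6), (1, 3, 10),
      (1, 7, 8), (1, 8, 9), (2, 5, 9), (2, 5, 10), (3, 6, 11), (3, 10, 11), (4, 6, 12), (4, 7,
      13), (4, 12, 13), (5, 9, 14), (5, 10, 12), (5, 12, 14)]
    fin := [0, 0, 2, 0, 0, 5, 0, 0, 8, 2, 2, 11, 5, 13, 14]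
    chd := [(0, 2)]
    steps := [(0, 1), (0, 3), (0, 4), (0, 6), (0, 7), (2, 9), (2, 10), (5, 12)] }
  rep := [0, 2, 8, 5, 11, 13, 14]

noncomputable def v1401 : Cov.CovD where
  P := 3
  N := 4
  pl := [2, 5, 6, 7, 8]
  lev := [⟨[], [], [(0, 0)], [], [(0, 0, [1]), (1, 0, [1])]⟩,
    ⟨[], [(0, 0), (0, 1)], [(0, 0), (0, 1), (1, 1)], [2], [(0, 0, [1]), (1, 0, [1]), (3, 1,
      [0]), (4, 1, [0])]⟩,
    ⟨[(0, 1)], [(1, 0), (1, 1)], [(1, 1)], [], [(3, 1, [0]), (4, 1, [0])]⟩,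
    ⟨[(0, 1), (1, 2)], [(0, 0), (1, 0), (1, 1), (2, 1)], [(0, 1)], [4], [(0, 0, [1]), (4,
      1, [0])]⟩,
    ⟨[(0, 1)], [(0, 0), (1, 0), (3, 0)], [(0, 0)], [3, 5], [(0, 0, [1]), (1, 0, [1])]⟩,
    ⟨[(1, 2)], [(1, 1), (2, 1), (3, 1)], [(1, 1)], [3, 6], [(3, 1, [0]), (4, 1, [0])]⟩]
  Ta := [((0, 5), 0, 4), ((0, 6), 0, 3), ((1, 2), 0, 2), ((1, 7), 0, 5), ((3, 2), 1, 2), ((3, 8),
    1, 6), ((4, 5), 1, 4), ((4, 6), 1, 3)]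
  Tb := [((0, 5, 6), 0, 4, 3), ((1, 2, 7), 0, 2, 5), ((2, 1, 3), 2, 0, 1), ((3, 2, 8), 1, 2, 6),
    ((4, 5, 6), 1, 4, 3), ((5, 0, 4), 4, 0, 1), ((6, 0, 4), 3, 0, 1), ((6, 0, 7), 3, 0, 5),
    ((6, 0, 8), 3, 0, 6), ((6, 4, 7), 3, 1, 5), ((6, 4, 8), 3, 1, 6), ((6, 7, 8), 3, 5, 6),
    ((7, 1, 6), 5, 0, 3), ((8, 3, 6), 6, 1, 3)]
  Tc := []
  Td := [((0, 1), (0, 5), 4), ((0, 1), (0, 6), 3), ((0, 1), (1, 2), 2), ((0, 1), (1, 7), 5), ((1,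
    0), (3, 2), 2), ((1, 0), (3, 8), 6), ((1, 0), (4, 5), 4), ((1, 0), (4, 6), 3)]
  G := [[0, 0xeeeeeeee6484, 0, 0x95de2848, 0x95de2184], [0, 0xeeeeeeee6482, 0, 0,
    0x95de95dec482], [0, 0xeeeeeeee6284, 0x95de2184, 0x95de1842, 0x95de1184], [0,
    0xeeeeeeeec248, 0x95de1142, 0, 0x95de1484]]

noncomputable def n1401 : Ent := ⟨e1401, noF, [], [], [(12, 11, [87899351228091456402997525766823824674129406633600838238209, 0])]⟩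

def c1401 : PLift (Cov.check n1401.C.D v1401 = true) := ⟨by decide +kernel⟩

def b1401 : PLift (entF (fidx ts) 400 1401 n1401 = true) := ⟨by decide +kernel⟩

theorem g1401 : GoodF (fidx ts) 400 1401 := GoodF.ofV v1401 n1401 c1401.down b1401.down

/-- 484455:1105/3 -/
noncomputable def e1402 : SCfg where
  D := {
    a := 6
    L := 9
    kp := 6
    inn := [(0, 1), (0, 4), (1, 0), (1, 2), (1, 3), (2, 1), (2, 5), (3, 1), (4, 0), (5, 2)]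
    mix := [(0, 0), (0, 1), (1, 0), (1, 1), (1, 2), (1, 3), (1, 4), (2, 3), (2, 4), (3, 0), (3, 4), (3,
      5), (4, 0), (4, 1), (4, 5), (4, 6), (5, 3), (5, 4), (5, 7), (5, 8)]
    cl := [0, 0, 2, 1, 1, 3, 4, 5, 6]
    chq := [(0, 1), (1, 0)]
    rng := [(0, 5), (1, 2), (1, 6), (2, 1), (2, 3), (3, 2), (3, 7), (4, 5), (4, 8), (5, 0), (5, 4), (5,
      6), (6, 1), (6, 5), (7, 3), (7, 8), (8, 4), (8, 7)]
    lev := [] }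
  links := [[1, 6, 4, 7], [6, 0, 7, 8, 9, 2, 10, 3], [10, 1, 9, 5], [6, 1, 10, 11], [7, 0, 6, 11, 12],
    [10, 2, 9, 13, 14]]
  P := {
    a := 6
    N := 15
    nb := [210, 1997, 1570, 3138, 6337, 26116, 2075, 4371, 642, 8486, 18478, 5208, 2192, 16928, 9248]
    tri := [(0, 1, 6), (0, 1, 7), (0, 4, 6), (0, 4, 7), (1, 2, 9), (1, 2, 10), (1, 3, 6), (1, 3, 10),
      (1, 7, 8), (1, 8, 9), (2, 5, 9), (2, 5, 10), (3, 6, 11), (3, 10, 11), (4, 6, 11), (4, 7,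
      12), (4, 11, 12), (5, 9, 13), (5, 10, 14), (5, 13, 14)]
    fin := [0, 0, 0, 0, 0, 5, 0, 0, 8, 5, 5, 11, 12, 13, 14]
    chd := [(0, 5)]
    steps := [(0, 1), (0, 2), (0, 3), (0, 6), (0, 4), (0, 7), (5, 9), (5, 10)] }
  rep := [0, 5, 8, 11, 12, 13, 14]

noncomputable def v1402 : Cov.CovD where
  P := 3
  N := 4
  pl := [2, 5, 6, 7, 8]
  lev := [⟨[], [], [(0, 0)], [], [(0, 0, [1]), (1, 0, [1])]⟩,
    ⟨[], [(0, 0), (0, 1)], [(0, 0), (0, 1), (1, 1)], [2], [(0, 0, [1]), (1, 0, [1]), (3, 1,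
      [0]), (4, 1, [0])]⟩,
    ⟨[(0, 1)], [(1, 0), (1, 1)], [(1, 1)], [], [(3, 1, [0]), (4, 1, [0])]⟩,
    ⟨[(0, 1), (1, 2)], [(0, 0), (1, 0), (1, 1), (2, 1)], [(0, 1)], [3], [(0, 0, [1]), (4,
      1, [0])]⟩,
    ⟨[(0, 1)], [(0, 0), (1, 0), (3, 0)], [(0, 0)], [3, 4], [(0, 0, [1]), (1, 0, [1])]⟩,
    ⟨[(1, 2)], [(1, 1), (2, 1), (3, 1)], [(1, 1)], [5, 6], [(3, 1, [0]), (4, 1, [0])]⟩]
  Ta := [((0, 5), 0, 3), ((1, 2), 0, 2), ((1, 6), 0, 4), ((3, 2), 1, 2), ((3, 7), 1, 5), ((4, 5),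
    1, 3), ((4, 8), 1, 6)]
  Tb := [((1, 2, 6), 0, 2, 4), ((2, 1, 3), 2, 0, 1), ((3, 2, 7), 1, 2, 5), ((4, 5, 8), 1, 3, 6),
    ((5, 0, 4), 3, 0, 1), ((5, 0, 6), 3, 0, 4), ((5, 4, 6), 3, 1, 4), ((6, 1, 5), 4, 0, 3),
    ((7, 3, 8), 5, 1, 6), ((8, 4, 7), 6, 1, 5)]
  Tc := []
  Td := [((0, 1), (0, 5), 3), ((0, 1), (1, 2), 2), ((0, 1), (1, 6), 4), ((1, 0), (3, 2), 2), ((1,
    0), (3, 7), 5), ((1, 0), (4, 5), 3), ((1, 0), (4, 8), 6)]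
  G := [[0, 0xe8e4e2e284, 0, 0xddde2142, 0xddde2184], [0, 0xe8e4e2e282, 0, 0, 0xddadd6c484], [0,
    0xe4e264e888c8, 0xddde2184, 0xddde2148, 0xddde2484], [0, 0xe8e4e2e482, 0xddde1184, 0,
    0xddde1184]]

noncomputable def n1402 : Ent := ⟨e1402, noF, [], [], [(11, 14, [81620716623019490593592230936445690773474979418095889121281, 0])]⟩

def c1402 : PLift (Cov.check n1402.C.D v1402 = true) := ⟨by decide +kernel⟩

def b1402 : PLift (entF (fidx ts) 400 1402 n1402 = true) := ⟨by decide +kernel⟩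

theorem g1402 : GoodF (fidx ts) 400 1402 := GoodF.ofV v1402 n1402 c1402.down b1402.down

/-- 484455:1105/4 -/
noncomputable def e1403 : SCfg where
  D := {
    a := 6
    L := 9
    kp := 6
    inn := [(0, 1), (0, 4), (1, 0), (1, 2), (1, 3), (2, 1), (2, 5), (3, 1), (4, 0), (5, 2)]
    mix := [(0, 0), (0, 1), (1, 0), (1, 1), (1, 2), (1, 3), (1, 4), (2, 3), (2, 4), (3, 0), (3, 4), (3,
      5), (4, 0), (4, 1), (4, 6), (4, 7), (5, 3), (5, 4), (5, 5), (5, 8)]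
    cl := [0, 0, 2, 1, 1, 3, 4, 5, 6]
    chq := [(0, 1), (1, 0)]
    rng := [(0, 5), (0, 6), (1, 2), (1, 7), (2, 1), (2, 3), (3, 2), (3, 8), (4, 5), (5, 0), (5, 4), (5,
      8), (6, 0), (6, 7), (7, 1), (7, 6), (8, 3), (8, 5)]
    lev := [] }
  links := [[1, 6, 4, 7], [6, 0, 7, 8, 9, 2, 10, 3], [10, 1, 9, 5], [6, 1, 10, 11], [7, 0, 6, 12, 13],
    [10, 2, 9, 14, 11]]
  P := {
    a := 6
    N := 15
    nb := [210, 1997, 1570, 3138, 12481, 19972, 6171, 8467, 642, 16678, 2094, 17512, 8272, 4240, 2592]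
    tri := [(0, 1, 6), (0, 1, 7), (0, 4, 6), (0, 4, 7), (1, 2, 9), (1, 2, 10), (1, 3, 6), (1, 3, 10),
      (1, 7, 8), (1, 8, 9), (2, 5, 9), (2, 5, 10), (3, 6, 11), (3, 10, 11), (4, 6, 12), (4, 7,
      13), (4, 12, 13), (5, 9, 14), (5, 10, 11), (5, 11, 14)]
    fin := [0, 0, 0, 0, 0, 5, 0, 0, 8, 5, 5, 11, 12, 13, 14]
    chd := [(0, 5)]
    steps := [(0, 1), (0, 2), (0, 3), (0, 4), (0, 6), (0, 7), (5, 9), (5, 10)] }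
  rep := [0, 5, 8, 11, 12, 13, 14]

noncomputable def v1403 : Cov.CovD where
  P := 3
  N := 4
  pl := [2, 5, 6, 7, 8]
  lev := [⟨[], [], [(0, 0)], [], [(0, 0, [1]), (1, 0, [1])]⟩,
    ⟨[], [(0, 0), (0, 1)], [(0, 0), (0, 1), (1, 1)], [2], [(0, 0, [1]), (1, 0, [1]), (3, 1,
      [0]), (4, 1, [0])]⟩,
    ⟨[(0, 1)], [(1, 0), (1, 1)], [(1, 1)], [], [(3, 1, [0]), (4, 1, [0])]⟩,
    ⟨[(0, 1), (1, 2)], [(0, 0), (1, 0), (1, 1), (2, 1)], [(0, 1)], [3], [(0, 0, [1]), (4,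
      1, [0])]⟩,
    ⟨[(0, 1)], [(0, 0), (1, 0), (3, 0)], [(0, 0)], [4, 5], [(0, 0, [1]), (1, 0, [1])]⟩,
    ⟨[(1, 2)], [(1, 1), (2, 1), (3, 1)], [(1, 1)], [3, 6], [(3, 1, [0]), (4, 1, [0])]⟩]
  Ta := [((0, 5), 0, 3), ((0, 6), 0, 4), ((1, 2), 0, 2), ((1, 7), 0, 5), ((3, 2), 1, 2), ((3, 8),
    1, 6), ((4, 5), 1, 3)]
  Tb := [((0, 5, 6), 0, 3, 4), ((1, 2, 7), 0, 2, 5), ((2, 1, 3), 2, 0, 1), ((3, 2, 8), 1, 2, 6),
    ((5, 0, 4), 3, 0, 1), ((5, 0, 8), 3, 0, 6), ((5, 4, 8), 3, 1, 6), ((6, 0, 7), 4, 0, 5),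
    ((7, 1, 6), 5, 0, 4), ((8, 3, 5), 6, 1, 3)]
  Tc := []
  Td := [((0, 1), (0, 5), 3), ((0, 1), (0, 6), 4), ((0, 1), (1, 2), 2), ((0, 1), (1, 7), 5), ((1,
    0), (3, 2), 2), ((1, 0), (3, 8), 6), ((1, 0), (4, 5), 3)]
  G := [[0, 0xc4ccaa6aee848, 0, 0xdd624d821c8, 0xddde2484], [0, 0xa8c64ce2a6e282, 0, 0,
    0x999e555ec482], [0, 0x82cc4eaa2ee248, 0xddde2848, 0xddde1182, 0x84d5de9184], [0,
    0xa8c64ce2a6e484, 0xddde1184, 0, 0xddde1484]]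

noncomputable def n1403 : Ent := ⟨e1403, noF, [], [], [(12, 11, [87899351228091456402997525766823824674129406633600838238209, 0])]⟩

def c1403 : PLift (Cov.check n1403.C.D v1403 = true) := ⟨by decide +kernel⟩

def b1403 : PLift (entF (fidx ts) 400 1403 n1403 = true) := ⟨by decide +kernel⟩

theorem g1403 : GoodF (fidx ts) 400 1403 := GoodF.ofV v1403 n1403 c1403.down b1403.down

/-- 484455:1105 -/
noncomputable def e1404 : SCfg where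
  D := {
    a := 6
    L := 10
    kp := 7
    inn := [(0, 1), (0, 4), (1, 0), (1, 2), (1, 3), (2, 1), (2, 5), (3, 1), (4, 0), (5, 2)]
    mix := [(0, 0), (0, 1), (1, 0), (1, 1), (1, 2), (1, 3), (1, 4), (2, 3), (2, 4), (3, 0), (3, 4), (3,
      5), (4, 0), (4, 1), (4, 6), (4, 7), (5, 3), (5, 4), (5, 8), (5, 9)]
    cl := [0, 0, 2, 1, 1, 3, 4, 5, 6, 7]
    chq := [(0, 1), (1, 0)]
    rng := [(0, 5), (0, 6), (1, 2), (1, 7), (2, 1), (2, 3), (3, 2), (3, 8), (4, 5), (4, 9), (5, 0), (5,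
      4), (6, 0), (6, 7), (7, 1), (7, 6), (8, 3), (8, 9), (9, 4), (9, 8)]
    lev := [] }
  links := [[1, 6, 4, 7], [6, 0, 7, 8, 9, 2, 10, 3], [10, 1, 9, 5], [6, 1, 10, 11], [7, 0, 6, 12, 13],
    [10, 2, 9, 14, 15]]
  P := {
    a := 6
    N := 16
    nb := [210, 1997, 1570, 3138, 12481, 50692, 6171, 8467, 642, 16678, 34862, 1096, 8272, 4240,
      33312, 17440]
    tri := [(0, 1, 6), (0, 1, 7), (0, 4, 6), (0, 4, 7), (1, 2, 9), (1, 2, 10), (1, 3, 6), (1, 3, 10),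
      (1, 7, 8), (1, 8, 9), (2, 5, 9), (2, 5, 10), (3, 6, 11), (3, 10, 11), (4, 6, 12), (4, 7,
      13), (4, 12, 13), (5, 9, 14), (5, 10, 15), (5, 14, 15)]
    fin := [0, 0, 0, 0, 0, 5, 0, 0, 8, 5, 5, 11, 12, 13, 14, 15]
    chd := [(0, 5)]
    steps := [(0, 1), (0, 2), (0, 3), (0, 4), (0, 6), (0, 7), (5, 9), (5, 10)] }
  rep := [0, 5, 8, 11, 12, 13, 14, 15]

noncomputable def v1404 : Cov.CovD where
  P := 3
  N := 5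
  pl := [2, 5, 6, 7, 8, 9]
  lev := [⟨[], [], [(0, 0)], [], [(0, 0, [1]), (1, 0, [1])]⟩,
    ⟨[], [(0, 0), (0, 1)], [(0, 0), (0, 1), (1, 1)], [2], [(0, 0, [1]), (1, 0, [1]), (3, 1,
      [0]), (4, 1, [0])]⟩,
    ⟨[(0, 1)], [(1, 0), (1, 1)], [(1, 1)], [], [(3, 1, [0]), (4, 1, [0])]⟩,
    ⟨[(0, 1), (1, 2)], [(0, 0), (1, 0), (1, 1), (2, 1)], [(0, 1)], [3], [(0, 0, [1]), (4,
      1, [0])]⟩,
    ⟨[(0, 1)], [(0, 0), (1, 0), (3, 0)], [(0, 0)], [4, 5], [(0, 0, [1]), (1, 0, [1])]⟩,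
    ⟨[(1, 2)], [(1, 1), (2, 1), (3, 1)], [(1, 1)], [6, 7], [(3, 1, [0]), (4, 1, [0])]⟩]
  Ta := [((0, 5), 0, 3), ((0, 6), 0, 4), ((1, 2), 0, 2), ((1, 7), 0, 5), ((3, 2), 1, 2), ((3, 8),
    1, 6), ((4, 5), 1, 3), ((4, 9), 1, 7)]
  Tb := [((0, 5, 6), 0, 3, 4), ((1, 2, 7), 0, 2, 5), ((2, 1, 3), 2, 0, 1), ((3, 2, 8), 1, 2, 6),
    ((4, 5, 9), 1, 3, 7), ((5, 0, 4), 3, 0, 1), ((6, 0, 7), 4, 0, 5), ((7, 1, 6), 5, 0, 4),
    ((8, 3, 9), 6, 1, 7), ((9, 4, 8), 7, 1, 6)]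
  Tc := []
  Td := [((0, 1), (0, 5), 3), ((0, 1), (0, 6), 4), ((0, 1), (1, 2), 2), ((0, 1), (1, 7), 5), ((1,
    0), (3, 2), 2), ((1, 0), (3, 8), 6), ((1, 0), (4, 5), 3), ((1, 0), (4, 9), 7)]
  G := [[0, 0xe4e4c2eeaeeaa2c4, 0, 0xddde2184, 0xddde2484], [0, 0xeeeeeeee6482, 0, 0,
    0xdddedddec184], [0, 0xeeeeeeeec848, 0xddde2148, 0xddde1184, 0xddde1484], [0,
    0xeeeeeeeea284, 0xddde1148, 0, 0xddde1184]]

noncomputable def n1404 : Ent := ⟨e1404, noF, [], [], [(12, 15, [360035742630636841211993100915356868655746945586763691013410817, 0]), (12, 11, [385753029973385757586473899687645848430002847914503881327353857, 0]), (15, 11, [360035742632133418888619945503597441924448419398891365937426433, 0])]⟩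

def c1404 : PLift (Cov.check n1404.C.D v1404 = true) := ⟨by decide +kernel⟩

def b1404 : PLift (entF (fidx ts) 400 1404 n1404 = true) := ⟨by decide +kernel⟩

theorem g1404 : GoodF (fidx ts) 400 1404 := GoodF.ofV v1404 n1404 c1404.down b1404.down

/-- 468654:1123/1 -/
noncomputable def e1405 : SCfg where
  D := {
    a := 6
    L := 10
    kp := 7
    inn := [(0, 1), (0, 3), (1, 0), (1, 2), (1, 3), (2, 1), (2, 3), (2, 4), (3, 0), (3, 1), (3, 2), (4,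
      2), (4, 5), (5, 4)]
    mix := [(0, 0), (0, 1), (1, 0), (1, 2), (1, 3), (2, 2), (2, 4), (2, 5), (2, 6), (2, 7), (3, 1), (3,
      4), (3, 8), (4, 5), (4, 6), (4, 9), (5, 5), (5, 8), (5, 9)]
    cl := [3, 4, 0, 6, 0, 1, 1, 7, 2, 5]
    chq := [(0, 3), (2, 3), (3, 0), (3, 2)]
    rng := [(0, 1), (0, 3), (1, 0), (1, 8), (2, 3), (2, 7), (3, 0), (3, 2), (4, 5), (4, 8), (5, 4), (5,
      8), (6, 7), (6, 9), (7, 2), (7, 6), (8, 1), (8, 4), (8, 5), (8, 9), (9, 6), (9, 8)]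
    lev := [] }
  links := [[1, 6, 7, 3], [6, 0, 3, 2, 8, 9], [8, 1, 3, 10, 11, 4, 12, 13], [10, 2, 1, 0, 7, 14], [12, 2,
    11, 5, 15], [15, 4, 11, 14]]
  P := {
    a := 6
    N := 16
    nb := [202, 845, 15642, 17543, 38948, 51216, 643, 16457, 8710, 322, 18444, 17460, 40980, 4356,
      36008, 20528]
    tri := [(0, 1, 3), (0, 1, 6), (0, 3, 7), (0, 6, 7), (1, 2, 3), (1, 2, 8), (1, 6, 9), (1, 8, 9), (2,
      3, 10), (2, 4, 11), (2, 4, 12), (2, 8, 13), (2, 10, 11), (2, 12, 13), (3, 7, 14), (3, 10,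
      14), (4, 5, 11), (4, 5, 15), (4, 12, 15), (5, 11, 14), (5, 14, 15)]
    fin := [0, 0, 2, 0, 4, 5, 0, 7, 2, 9, 2, 4, 4, 13, 5, 15]
    chd := [(0, 2), (0, 5)]
    steps := [(0, 1), (0, 3), (0, 6), (2, 10), (2, 8), (4, 11), (4, 12), (5, 14)] }
  rep := [2, 4, 5, 0, 7, 15, 9, 13]

noncomputable def v1405 : Cov.CovD where
  P := 3
  N := 5
  pl := [1, 3, 7, 9]
  lev := [⟨[], [], [], [4], [(0, 3, [0, 2])]⟩,
    ⟨[], [(0, 0), (0, 3)], [(0, 3)], [6], [(0, 3, [0, 2]), (2, 0, [3])]⟩,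
    ⟨[(0, 1)], [(1, 0), (1, 1), (1, 3)], [(0, 0), (0, 1), (1, 1)], [7], [(2, 0, [3]), (4,
      0, [3]), (5, 1, []), (6, 1, [])]⟩,
    ⟨[(0, 1), (0, 2), (1, 2)], [(0, 0), (0, 2), (0, 3), (1, 0), (1, 2), (1, 3), (2, 0), (2,
      1), (2, 2)], [(0, 2)], [4], [(4, 0, [3]), (8, 2, [3])]⟩,
    ⟨[(1, 2), (2, 3)], [(2, 0), (2, 1)], [(1, 1)], [5], [(5, 1, []), (6, 1, [])]⟩,
    ⟨[(2, 4)], [(2, 1), (3, 2), (4, 1), (4, 2)], [(1, 2)], [5], [(5, 1, []), (8, 2, [3])]⟩]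
  Ta := [((2, 3), 0, 6), ((2, 7), 0, 7), ((4, 5), 0, 1), ((4, 8), 0, 2), ((5, 4), 1, 0), ((5, 8),
    1, 2), ((6, 7), 1, 7), ((6, 9), 1, 5)]
  Tb := [((0, 1, 3), 3, 4, 6), ((1, 0, 8), 4, 3, 2), ((2, 3, 7), 0, 6, 7), ((3, 0, 2), 6, 3, 0),
    ((4, 5, 8), 0, 1, 2), ((5, 4, 8), 1, 0, 2), ((6, 7, 9), 1, 7, 5), ((7, 2, 6), 7, 0, 1),
    ((8, 1, 4), 2, 4, 0), ((8, 1, 5), 2, 4, 1), ((8, 1, 9), 2, 4, 5), ((8, 4, 5), 2, 0, 1),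
    ((8, 4, 9), 2, 0, 5), ((8, 5, 9), 2, 1, 5), ((9, 6, 8), 5, 1, 2)]
  Tc := [(3, 0, 2)]
  Td := [((0, 3), (2, 3), 6), ((0, 3), (2, 7), 7), ((0, 3), (4, 5), 1), ((0, 3), (4, 8), 2), ((2,
    3), (8, 1), 4), ((2, 3), (8, 4), 0), ((2, 3), (8, 5), 1), ((2, 3), (8, 9), 5), ((3, 0),
    (0, 1), 4), ((3, 0), (0, 3), 6), ((3, 2), (0, 1), 4), ((3, 2), (0, 3), 6)]
  G := [[0, 0, 0, 0x415415581581c9c485415c8498199c41914c58498199ce2,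
    0x819844815815381c2c8158881588158193ce8192449428198c8152819819ac8152942cef], [0, 0, 0, 0,
    0x21984428582538158c2192881528192ce82924481528192c8158819819ac21588298cef], [0,
    0x84a884c861c244864a184a84ac84c486c61e, 0xc1c168498c1c14c1c1ac1c12c12c1e,
    0x48518191c419181c419cc415415c815849cc72,
    0x815815a88819ac18152948c815815a819819ac81581181cace5], [0, 0,
    0x6124c6a18c1614a1c1ac1a12612c1e, 0,
    0x215215a81981cac12152a42c81512ca82911ac815821988ace5]]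

noncomputable def n1405 : Ent := ⟨e1405, noF, [], [], []⟩

def c1405 : PLift (Cov.check n1405.C.D v1405 = true) := ⟨by decide +kernel⟩

def b1405 : PLift (entF (fidx ts) 400 1405 n1405 = true) := ⟨by decide +kernel⟩

theorem g1405 : GoodF (fidx ts) 400 1405 := GoodF.ofV v1405 n1405 c1405.down b1405.down

/-- 468654:1123 -/
noncomputable def e1406 : SCfg where
  D := {
    a := 6
    L := 11
    kp := 8
    inn := [(0, 1), (0, 3), (1, 0), (1, 2), (1, 3), (2, 1), (2, 3), (2, 4), (3, 0), (3, 1), (3, 2), (4,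
      2), (4, 5), (5, 4)]
    mix := [(0, 0), (0, 1), (1, 0), (1, 2), (1, 3), (2, 2), (2, 4), (2, 5), (2, 6), (2, 7), (3, 1), (3,
      4), (3, 8), (4, 5), (4, 6), (4, 9), (5, 5), (5, 9), (5, 10)]
    cl := [1, 2, 0, 6, 0, 3, 3, 7, 5, 4, 8]
    chq := [(0, 1), (1, 0), (1, 5), (5, 1)]
    rng := [(0, 1), (0, 3), (1, 0), (1, 8), (2, 3), (2, 7), (3, 0), (3, 2), (4, 5), (4, 8), (5, 4), (5,
      10), (6, 7), (6, 9), (7, 2), (7, 6), (8, 1), (8, 4), (9, 6), (9, 10), (10, 5), (10, 9)]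
    lev := [] }
  links := [[1, 6, 7, 3], [6, 0, 3, 2, 8, 9], [8, 1, 3, 10, 11, 4, 12, 13], [10, 2, 1, 0, 7, 14], [12, 2,
    11, 5, 15], [15, 4, 11, 16]]
  P := {
    a := 6
    N := 17
    nb := [202, 845, 15642, 17543, 38948, 100368, 643, 16457, 8710, 322, 18444, 66612, 40980, 4356,
      1160, 69680, 34848]
    tri := [(0, 1, 3), (0, 1, 6), (0, 3, 7), (0, 6, 7), (1, 2, 3), (1, 2, 8), (1, 6, 9), (1, 8, 9), (2,
      3, 10), (2, 4, 11), (2, 4, 12), (2, 8, 13), (2, 10, 11), (2, 12, 13), (3, 7, 14), (3, 10,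
      14), (4, 5, 11), (4, 5, 15), (4, 12, 15), (5, 11, 16), (5, 15, 16)]
    fin := [0, 0, 2, 0, 4, 4, 0, 7, 2, 9, 2, 4, 4, 13, 14, 15, 16]
    chd := [(0, 2), (0, 14)]
    steps := [(0, 1), (0, 3), (0, 6), (2, 10), (2, 8), (4, 5), (4, 11), (4, 12)] }
  rep := [2, 0, 7, 4, 15, 14, 9, 13, 16]

noncomputable def v1406 : Cov.CovD where
  P := 3
  N := 6
  pl := [1, 3, 7, 9, 10]
  lev := [⟨[], [], [], [2], [(0, 1, [0, 5])]⟩,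
    ⟨[], [(0, 0), (0, 1)], [(0, 1)], [6], [(0, 1, [0, 5]), (2, 0, [1])]⟩,
    ⟨[(0, 1)], [(1, 0), (1, 1), (1, 3)], [(0, 0), (0, 3), (3, 3)], [7], [(2, 0, [1]), (4,
      0, [1]), (5, 3, []), (6, 3, [])]⟩,
    ⟨[(0, 1), (0, 2), (1, 2)], [(0, 0), (0, 1), (0, 5), (1, 0), (1, 1), (1, 5), (2, 0), (2,
      3), (2, 5)], [(0, 5)], [2], [(4, 0, [1]), (8, 5, [1])]⟩,
    ⟨[(1, 2), (2, 3)], [(2, 0), (2, 3)], [(3, 3)], [4], [(5, 3, []), (6, 3, [])]⟩,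
    ⟨[(2, 4)], [(2, 3), (4, 3)], [], [4, 8], [(5, 3, [])]⟩]
  Ta := [((2, 3), 0, 6), ((2, 7), 0, 7), ((4, 5), 0, 3), ((4, 8), 0, 5), ((5, 4), 3, 0), ((5,
    10), 3, 8), ((6, 7), 3, 7), ((6, 9), 3, 4)]
  Tb := [((0, 1, 3), 1, 2, 6), ((1, 0, 8), 2, 1, 5), ((2, 3, 7), 0, 6, 7), ((3, 0, 2), 6, 1, 0),
    ((4, 5, 8), 0, 3, 5), ((5, 4, 10), 3, 0, 8), ((6, 7, 9), 3, 7, 4), ((7, 2, 6), 7, 0, 3),
    ((8, 1, 4), 5, 2, 0), ((9, 6, 10), 4, 3, 8), ((10, 5, 9), 8, 3, 4)]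
  Tc := [(1, 0, 5)]
  Td := [((0, 1), (2, 3), 6), ((0, 1), (2, 7), 7), ((0, 1), (4, 5), 3), ((0, 1), (4, 8), 5), ((1,
    0), (0, 1), 2), ((1, 0), (0, 3), 6), ((1, 5), (0, 1), 2), ((1, 5), (0, 3), 6), ((5, 1),
    (8, 1), 2), ((5, 1), (8, 4), 0)]
  G := [[0, 0xca971c65b1a63d1eca971c65b1a63d1e68,
    0xc65b2a63da63d66ca972c65b2a63da63daecca97288c, 0xca971c65b1a63d1e4ca971c65b1a63d1e8c,
    0xa63d12ca972c65b1a63d1ecca972c65b2c89], [0, 0xa951c9316659186391a35146dd1ee8,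
    0x659266ab2c93c53ce424e72a352c9384691ee8c, 0xa951c93166391285b1c931ec24e7188c,
    0xdc3126392285b2c531ec24972a352c89], [0, 0xca971c65b1a63d1eca971c65b1a63d1e68,
    0xca972c65b2a63da63dae18, 0xc65bc65bca63da63dc61ca97ca97c81c, 0xca972c65b2a63da63dae18],
    [0, 0x24971c53166591c931a6391a351ce8, 0x6392a352c93c53ce18,
    0x6594a95265bcc53c53ce12497881c, 0x6592a352c93483dae18]]

noncomputable def n1406 : Ent := ⟨e1406, noF, [], [], [(14, 16, [1580044410770988437309982408355971841652082177953823432505694867457, 0])]⟩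

def c1406 : PLift (Cov.check n1406.C.D v1406 = true) := ⟨by decide +kernel⟩

def b1406 : PLift (entF (fidx ts) 400 1406 n1406 = true) := ⟨by decide +kernel⟩

theorem g1406 : GoodF (fidx ts) 400 1406 := GoodF.ofV v1406 n1406 c1406.down b1406.down

/-- 468654:1124 -/
noncomputable def e1407 : SCfg where
  D := {
    a := 6
    L := 11
    kp := 8
    inn := [(0, 1), (0, 3), (1, 0), (1, 2), (1, 3), (2, 1), (2, 3), (2, 4), (3, 0), (3, 1), (3, 2), (4,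
      2), (4, 5), (5, 4)]
    mix := [(0, 0), (0, 1), (1, 0), (1, 2), (1, 3), (2, 2), (2, 4), (2, 5), (2, 6), (2, 7), (3, 1), (3,
      4), (3, 8), (4, 5), (4, 6), (4, 9), (5, 6), (5, 9), (5, 10)]
    cl := [1, 2, 0, 6, 0, 3, 3, 7, 5, 4, 8]
    chq := [(0, 1), (1, 0), (1, 5), (5, 1)]
    rng := [(0, 1), (0, 3), (1, 0), (1, 8), (2, 3), (2, 7), (3, 0), (3, 2), (4, 5), (4, 8), (5, 4), (5,
      9), (6, 7), (6, 10), (7, 2), (7, 6), (8, 1), (8, 4), (9, 5), (9, 10), (10, 6), (10, 9)]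
    lev := [] }
  links := [[1, 6, 7, 3], [6, 0, 3, 2, 8, 9], [8, 1, 3, 10, 11, 4, 12, 13], [10, 2, 1, 0, 7, 14], [12, 2,
    11, 15, 5], [12, 4, 15, 16]]
  P := {
    a := 6
    N := 17
    nb := [202, 845, 15642, 17543, 38948, 102416, 643, 16457, 8710, 322, 18444, 33812, 73780, 4356,
      1160, 67632, 36896]
    tri := [(0, 1, 3), (0, 1, 6), (0, 3, 7), (0, 6, 7), (1, 2, 3), (1, 2, 8), (1, 6, 9), (1, 8, 9), (2,
      3, 10), (2, 4, 11), (2, 4, 12), (2, 8, 13), (2, 10, 11), (2, 12, 13), (3, 7, 14), (3, 10,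
      14), (4, 5, 12), (4, 5, 15), (4, 11, 15), (5, 12, 16), (5, 15, 16)]
    fin := [0, 0, 2, 0, 4, 4, 0, 7, 2, 9, 2, 4, 4, 13, 14, 15, 16]
    chd := [(0, 2), (0, 14)]
    steps := [(0, 1), (0, 3), (0, 6), (2, 10), (2, 8), (4, 5), (4, 11), (4, 12)] }
  rep := [2, 0, 7, 4, 15, 14, 9, 13, 16]

noncomputable def v1407 : Cov.CovD where
  P := 3
  N := 6
  pl := [1, 3, 7, 9, 10]
  lev := [⟨[], [], [], [2], [(0, 1, [0, 5])]⟩,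
    ⟨[], [(0, 0), (0, 1)], [(0, 1)], [6], [(0, 1, [0, 5]), (2, 0, [1])]⟩,
    ⟨[(0, 1)], [(1, 0), (1, 1), (1, 3)], [(0, 0), (0, 3), (3, 3)], [7], [(2, 0, [1]), (4,
      0, [1]), (5, 3, []), (6, 3, [])]⟩,
    ⟨[(0, 1), (0, 2), (1, 2)], [(0, 0), (0, 1), (0, 5), (1, 0), (1, 1), (1, 5), (2, 0), (2,
      3), (2, 5)], [(0, 5)], [2], [(4, 0, [1]), (8, 5, [1])]⟩,
    ⟨[(1, 2), (2, 3)], [(2, 0), (2, 3)], [(3, 3)], [4], [(5, 3, []), (6, 3, [])]⟩,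
    ⟨[(2, 4)], [(2, 3), (4, 3)], [], [4, 8], [(6, 3, [])]⟩]
  Ta := [((2, 3), 0, 6), ((2, 7), 0, 7), ((4, 5), 0, 3), ((4, 8), 0, 5), ((5, 4), 3, 0), ((5, 9),
    3, 4), ((6, 7), 3, 7), ((6, 10), 3, 8)]
  Tb := [((0, 1, 3), 1, 2, 6), ((1, 0, 8), 2, 1, 5), ((2, 3, 7), 0, 6, 7), ((3, 0, 2), 6, 1, 0),
    ((4, 5, 8), 0, 3, 5), ((5, 4, 9), 3, 0, 4), ((6, 7, 10), 3, 7, 8), ((7, 2, 6), 7, 0, 3),
    ((8, 1, 4), 5, 2, 0), ((9, 5, 10), 4, 3, 8), ((10, 6, 9), 8, 3, 4)]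
  Tc := [(1, 0, 5)]
  Td := [((0, 1), (2, 3), 6), ((0, 1), (2, 7), 7), ((0, 1), (4, 5), 3), ((0, 1), (4, 8), 5), ((1,
    0), (0, 1), 2), ((1, 0), (0, 3), 6), ((1, 5), (0, 1), 2), ((1, 5), (0, 3), 6), ((5, 1),
    (8, 1), 2), ((5, 1), (8, 4), 0)]
  G := [[0, 0xa951c53166591c931a6591a351ce4, 0x6392285b2c93c251ee424972a352c53c93ce8c,
    0xa951dc3167691285b1dc31ec24e7188c, 0xc53126591285b1c531ec24972a952c89], [0,
    0xca971c65b1a63d1eca971c65b1a63d1e68, 0xca972c65b2a63da63dae4ca972c65b2a63da63d6e8c,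
    0xca971c65b1a63d1e4ca971c65b1a63d1e8c, 0xa63d12ca972c65b1a63d1ecca972c65b2c89], [0,
    0xa951c93166391c931a6591a951ce8, 0x73922b8e2d4385691ee14,
    0x265b441cc67523dc1acd8dc31c57ce1c, 0x7592b1272d93463dae18], [0,
    0xca971c65b1a63d1eca971c65b1a63d1ea4, 0xca972c65b2a63da63dae18,
    0xc65bc65bca63da63dc61ca97ca97c81c, 0xca972c65b2a63da63dae18]]

noncomputable def n1407 : Ent := ⟨e1407, noF, [], [], []⟩

def c1407 : PLift (Cov.check n1407.C.D v1407 = true) := ⟨by decide +kernel⟩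

def b1407 : PLift (entF (fidx ts) 400 1407 n1407 = true) := ⟨by decide +kernel⟩

theorem g1407 : GoodF (fidx ts) 400 1407 := GoodF.ofV v1407 n1407 c1407.down b1407.down

/-- 466745:1125/2 -/
noncomputable def e1408 : SCfg where
  D := {
    a := 6
    L := 9
    kp := 6
    inn := [(0, 1), (0, 3), (1, 0), (1, 2), (1, 3), (2, 1), (2, 5), (3, 0), (3, 1), (3, 4), (4, 3), (5,
      2)]
    mix := [(0, 0), (0, 1), (1, 1), (1, 2), (1, 3), (2, 2), (2, 3), (2, 4), (2, 5), (3, 0), (3, 3), (3,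
      6), (3, 7), (4, 6), (4, 7), (4, 8), (5, 2), (5, 4), (5, 7), (5, 8)]
    cl := [0, 2, 3, 0, 3, 6, 5, 1, 4]
    chq := [(0, 4), (2, 6), (4, 0), (6, 2)]
    rng := [(0, 1), (0, 7), (1, 0), (1, 2), (2, 1), (2, 8), (3, 5), (3, 6), (4, 5), (4, 7), (5, 3), (5,
      4), (6, 3), (6, 8), (7, 0), (7, 4), (7, 8), (8, 2), (8, 6), (8, 7)]
    lev := [] }
  links := [[1, 3, 6, 7], [3, 0, 7, 8, 2, 9], [9, 1, 8, 5, 10, 11], [6, 0, 1, 9, 12, 4, 13], [13, 3, 12,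
    14], [10, 2, 8, 14, 13]]
  P := {
    a := 6
    N := 15
    nb := [202, 909, 3874, 12883, 28680, 25860, 8329, 323, 16550, 6158, 10276, 1540, 16920, 17528,
      12592]
    tri := [(0, 1, 3), (0, 1, 7), (0, 3, 6), (0, 6, 7), (1, 2, 8), (1, 2, 9), (1, 3, 9), (1, 7, 8), (2,
      5, 8), (2, 5, 10), (2, 9, 11), (2, 10, 11), (3, 4, 12), (3, 4, 13), (3, 6, 13), (3, 9, 12),
      (4, 12, 14), (4, 13, 14), (5, 8, 14), (5, 10, 13), (5, 13, 14)]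
    fin := [0, 1, 1, 0, 0, 5, 0, 1, 5, 0, 5, 11, 12, 13, 14]
    chd := [(0, 14), (1, 11)]
    steps := [(0, 3), (0, 4), (0, 6), (0, 9), (1, 2), (1, 7), (5, 8), (5, 10)] }
  rep := [0, 13, 1, 5, 14, 12, 11]

noncomputable def v1408 : Cov.CovD where
  P := 3
  N := 4
  pl := [6, 7]
  lev := [⟨[], [], [(0, 2)], [], [(0, 0, [4]), (1, 2, [6])]⟩,
    ⟨[], [(0, 0), (0, 2), (0, 3)], [(0, 2), (0, 3), (2, 3)], [], [(1, 2, [6]), (2, 3, []),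
      (3, 0, [4])]⟩,
    ⟨[(0, 1)], [(1, 0), (1, 2), (1, 3), (1, 6)], [(0, 3), (0, 6), (3, 3), (3, 6)], [], [(2,
      3, []), (3, 0, [4]), (4, 3, []), (5, 6, [2])]⟩,
    ⟨[(0, 1), (1, 2)], [(0, 0), (0, 2), (1, 0), (1, 2), (1, 3), (2, 0)], [(0, 0)], [1, 5],
      [(0, 0, [4]), (3, 0, [4])]⟩,
    ⟨[(0, 3), (1, 3)], [(3, 0), (3, 4)], [], [1, 5], [(8, 4, [0])]⟩,
    ⟨[(1, 2)], [(1, 3), (2, 0), (2, 3), (2, 4), (2, 6), (4, 4)], [(3, 3), (3, 4)], [1],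
      [(2, 3, []), (4, 3, []), (8, 4, [0])]⟩]
  Ta := [((0, 1), 0, 2), ((0, 7), 0, 1), ((2, 1), 3, 2), ((2, 8), 3, 4), ((3, 5), 0, 6), ((3, 6),
    0, 5), ((4, 5), 3, 6), ((4, 7), 3, 1)]
  Tb := [((0, 1, 7), 0, 2, 1), ((1, 0, 2), 2, 0, 3), ((2, 1, 8), 3, 2, 4), ((3, 5, 6), 0, 6, 5),
    ((4, 5, 7), 3, 6, 1), ((5, 3, 4), 6, 0, 3), ((6, 3, 8), 5, 0, 4), ((7, 0, 4), 1, 0, 3),
    ((7, 0, 8), 1, 0, 4), ((7, 4, 8), 1, 3, 4), ((8, 2, 6), 4, 3, 5), ((8, 2, 7), 4, 3, 1),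
    ((8, 6, 7), 4, 5, 1)]
  Tc := []
  Td := [((0, 4), (0, 1), 2), ((0, 4), (0, 7), 1), ((0, 4), (3, 5), 6), ((0, 4), (3, 6), 5), ((2,
    6), (1, 0), 0), ((2, 6), (1, 2), 3), ((4, 0), (8, 2), 3), ((4, 0), (8, 6), 5), ((4, 0),
    (8, 7), 1), ((6, 2), (5, 3), 0), ((6, 2), (5, 4), 3)]
  G := [[0, 0x24e2a1a4c22a1c8c4a2d4, 0x1111c1111c1111ce28, 0xc1c1c291115c258,
    0x9191c51415cd1495ce28], [0, 0xe428cc2ee148, 0x1111c1111c1111ce28, 0xd1d1c21882c4,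
    0xd1d1c4141c6188492], [0, 0, 0, 0x91818dc2144d51c2c1, 0x85914c949495c11954ce21], [0, 0,
    0, 0x5954295982c1, 0x4144c949595cc21]]

noncomputable def n1408 : Ent := ⟨e1408, noF, [], [], []⟩

def c1408 : PLift (Cov.check n1408.C.D v1408 = true) := ⟨by decide +kernel⟩

def b1408 : PLift (entF (fidx ts) 400 1408 n1408 = true) := ⟨by decide +kernel⟩

theorem g1408 : GoodF (fidx ts) 400 1408 := GoodF.ofV v1408 n1408 c1408.down b1408.down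

/-- 466745:1125/1 -/
noncomputable def e1409 : SCfg where
  D := {
    a := 6
    L := 10
    kp := 7
    inn := [(0, 1), (0, 3), (1, 0), (1, 2), (1, 3), (2, 1), (2, 5), (3, 0), (3, 1), (3, 4), (4, 3), (5,
      2)]
    mix := [(0, 0), (0, 1), (1, 1), (1, 2), (1, 3), (2, 2), (2, 3), (2, 4), (2, 5), (3, 0), (3, 3), (3,
      6), (3, 7), (4, 6), (4, 7), (4, 8), (5, 2), (5, 4), (5, 8), (5, 9)]
    cl := [0, 2, 1, 0, 1, 6, 4, 5, 3, 7]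
    chq := [(0, 3), (2, 6), (3, 0), (6, 2)]
    rng := [(0, 1), (0, 7), (1, 0), (1, 2), (2, 1), (2, 8), (3, 5), (3, 6), (4, 5), (4, 9), (5, 3), (5,
      4), (6, 3), (6, 8), (7, 0), (7, 8), (8, 2), (8, 6), (8, 7), (8, 9), (9, 4), (9, 8)]
    lev := [] }
  links := [[1, 3, 6, 7], [3, 0, 7, 8, 2, 9], [9, 1, 8, 5, 10, 11], [6, 0, 1, 9, 12, 4, 13], [13, 3, 12,
    14], [10, 2, 8, 14, 15]]
  P := {
    a := 6
    N := 16
    nb := [202, 909, 3874, 12883, 28680, 50436, 8329, 323, 16550, 6158, 34852, 1540, 16920, 16472,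
      45360, 17440]
    tri := [(0, 1, 3), (0, 1, 7), (0, 3, 6), (0, 6, 7), (1, 2, 8), (1, 2, 9), (1, 3, 9), (1, 7, 8), (2,
      5, 8), (2, 5, 10), (2, 9, 11), (2, 10, 11), (3, 4, 12), (3, 4, 13), (3, 6, 13), (3, 9, 12),
      (4, 12, 14), (4, 13, 14), (5, 8, 14), (5, 10, 15), (5, 14, 15)]
    fin := [0, 1, 1, 0, 0, 5, 0, 1, 5, 0, 5, 11, 12, 13, 14, 15]
    chd := [(0, 14), (1, 11)]
    steps := [(0, 3), (0, 4), (0, 6), (0, 9), (1, 2), (1, 7), (5, 8), (5, 10)] }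
  rep := [0, 5, 1, 14, 12, 13, 11, 15]

noncomputable def v1409 : Cov.CovD where
  P := 3
  N := 5
  pl := [6, 7, 9]
  lev := [⟨[], [], [(0, 2)], [], [(0, 0, [3]), (1, 2, [6])]⟩,
    ⟨[], [(0, 0), (0, 1), (0, 2)], [(0, 1), (0, 2), (1, 2)], [], [(1, 2, [6]), (2, 1, []),
      (3, 0, [3])]⟩,
    ⟨[(0, 1)], [(1, 0), (1, 1), (1, 2), (1, 6)], [(0, 1), (0, 6), (1, 1), (1, 6)], [], [(2,
      1, []), (3, 0, [3]), (4, 1, []), (5, 6, [2])]⟩,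
    ⟨[(0, 1), (1, 2)], [(0, 0), (0, 2), (1, 0), (1, 1), (1, 2), (2, 0)], [(0, 0)], [4, 5],
      [(0, 0, [3]), (3, 0, [3])]⟩,
    ⟨[(0, 3), (1, 3)], [(3, 0), (3, 3)], [], [4, 5], [(8, 3, [0])]⟩,
    ⟨[(1, 2)], [(1, 1), (2, 0), (2, 1), (2, 3), (2, 6), (4, 3)], [(1, 1), (1, 3)], [7],
      [(2, 1, []), (4, 1, []), (8, 3, [0])]⟩]
  Ta := [((0, 1), 0, 2), ((0, 7), 0, 5), ((2, 1), 1, 2), ((2, 8), 1, 3), ((3, 5), 0, 6), ((3, 6),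
    0, 4), ((4, 5), 1, 6), ((4, 9), 1, 7)]
  Tb := [((0, 1, 7), 0, 2, 5), ((1, 0, 2), 2, 0, 1), ((2, 1, 8), 1, 2, 3), ((3, 5, 6), 0, 6, 4),
    ((4, 5, 9), 1, 6, 7), ((5, 3, 4), 6, 0, 1), ((6, 3, 8), 4, 0, 3), ((7, 0, 8), 5, 0, 3),
    ((8, 2, 6), 3, 1, 4), ((8, 2, 7), 3, 1, 5), ((8, 2, 9), 3, 1, 7), ((8, 6, 7), 3, 4, 5),
    ((8, 6, 9), 3, 4, 7), ((8, 7, 9), 3, 5, 7), ((9, 4, 8), 7, 1, 3)]
  Tc := []
  Td := [((0, 3), (0, 1), 2), ((0, 3), (0, 7), 5), ((0, 3), (3, 5), 6), ((0, 3), (3, 6), 4), ((2,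
    6), (1, 0), 0), ((2, 6), (1, 2), 1), ((3, 0), (8, 2), 1), ((3, 0), (8, 6), 4), ((3, 0),
    (8, 7), 5), ((3, 0), (8, 9), 7), ((6, 2), (5, 3), 0), ((6, 2), (5, 4), 1)]
  G := [[0, 0x225226ea5ec36682298e698a4c, 0x114d11112ec1c16dd111a8c4,
    0xc18c9c2e151511912e51511912ec94, 0x195193644c26584189598c1a], [0,
    0x222225229c6e5ae9ccecfee84, 0x4111c4d11111e9111ac1c16dc2, 0, 0x12244c26511919dcc185a8],
    [0, 0xaeadcecb6222522922ee18ac8, 0, 0xd1959dd2e4955dd1d2e8c1,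
    0x444436d1959d9dcbec4188c1], [0, 0xea542222d2122ee69ec3aac1, 0, 0,
    0x44426d22c418959595cca1]]

noncomputable def n1409 : Ent := ⟨e1409, noF, [], [], [(15, 13, [360048296834107614573520772494203283988579150297652619082465281, 0])]⟩

def c1409 : PLift (Cov.check n1409.C.D v1409 = true) := ⟨by decide +kernel⟩

def b1409 : PLift (entF (fidx ts) 400 1409 n1409 = true) := ⟨by decide +kernel⟩

theorem g1409 : GoodF (fidx ts) 400 1409 := GoodF.ofV v1409 n1409 c1409.down b1409.down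

/-- 466745:1125/3 -/
noncomputable def e1410 : SCfg where
  D := {
    a := 6
    L := 10
    kp := 7
    inn := [(0, 1), (0, 3), (1, 0), (1, 2), (1, 3), (2, 1), (2, 5), (3, 0), (3, 1), (3, 4), (4, 3), (5,
      2)]
    mix := [(0, 0), (0, 1), (1, 1), (1, 2), (1, 3), (2, 2), (2, 3), (2, 4), (2, 5), (3, 0), (3, 3), (3,
      6), (3, 7), (4, 6), (4, 7), (4, 8), (5, 2), (5, 4), (5, 8), (5, 9)]
    cl := [0, 2, 1, 0, 1, 6, 4, 5, 3, 7]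
    chq := [(0, 3), (2, 6), (3, 0), (6, 2)]
    rng := [(0, 1), (0, 7), (1, 0), (1, 2), (2, 1), (2, 9), (3, 5), (3, 6), (4, 5), (4, 8), (5, 3), (5,
      4), (6, 3), (6, 8), (7, 0), (7, 8), (8, 4), (8, 6), (8, 7), (8, 9), (9, 2), (9, 8)]
    lev := [] }
  links := [[1, 3, 6, 7], [3, 0, 7, 8, 2, 9], [9, 1, 8, 5, 10, 11], [6, 0, 1, 9, 12, 4, 13], [13, 3, 12,
    14], [10, 2, 8, 15, 14]]
  P := {
    a := 6
    N := 16
    nb := [202, 909, 3874, 12883, 28680, 50436, 8329, 323, 32934, 6158, 18468, 1540, 16920, 16472,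
      46128, 16672]
    tri := [(0, 1, 3), (0, 1, 7), (0, 3, 6), (0, 6, 7), (1, 2, 8), (1, 2, 9), (1, 3, 9), (1, 7, 8), (2,
      5, 8), (2, 5, 10), (2, 9, 11), (2, 10, 11), (3, 4, 12), (3, 4, 13), (3, 6, 13), (3, 9, 12),
      (4, 12, 14), (4, 13, 14), (5, 8, 15), (5, 10, 14), (5, 14, 15)]
    fin := [0, 1, 1, 0, 0, 5, 0, 1, 5, 0, 5, 11, 12, 13, 14, 15]
    chd := [(0, 14), (1, 11)]
    steps := [(0, 3), (0, 4), (0, 6), (0, 9), (1, 2), (1, 7), (5, 8), (5, 10)] }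
  rep := [0, 5, 1, 14, 12, 13, 11, 15]

noncomputable def v1410 : Cov.CovD where
  P := 3
  N := 5
  pl := [6, 7, 9]
  lev := [⟨[], [], [(0, 2)], [], [(0, 0, [3]), (1, 2, [6])]⟩,
    ⟨[], [(0, 0), (0, 1), (0, 2)], [(0, 1), (0, 2), (1, 2)], [], [(1, 2, [6]), (2, 1, []),
      (3, 0, [3])]⟩,
    ⟨[(0, 1)], [(1, 0), (1, 1), (1, 2), (1, 6)], [(0, 1), (0, 6), (1, 1), (1, 6)], [], [(2,
      1, []), (3, 0, [3]), (4, 1, []), (5, 6, [2])]⟩,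
    ⟨[(0, 1), (1, 2)], [(0, 0), (0, 2), (1, 0), (1, 1), (1, 2), (2, 0)], [(0, 0)], [4, 5],
      [(0, 0, [3]), (3, 0, [3])]⟩,
    ⟨[(0, 3), (1, 3)], [(3, 0), (3, 3)], [], [4, 5], [(8, 3, [0])]⟩,
    ⟨[(1, 2)], [(1, 1), (2, 0), (2, 1), (2, 3), (2, 6), (4, 3)], [(1, 1), (1, 3)], [7],
      [(2, 1, []), (4, 1, []), (8, 3, [0])]⟩]
  Ta := [((0, 1), 0, 2), ((0, 7), 0, 5), ((2, 1), 1, 2), ((2, 9), 1, 7), ((3, 5), 0, 6), ((3, 6),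
    0, 4), ((4, 5), 1, 6), ((4, 8), 1, 3)]
  Tb := [((0, 1, 7), 0, 2, 5), ((1, 0, 2), 2, 0, 1), ((2, 1, 9), 1, 2, 7), ((3, 5, 6), 0, 6, 4),
    ((4, 5, 8), 1, 6, 3), ((5, 3, 4), 6, 0, 1), ((6, 3, 8), 4, 0, 3), ((7, 0, 8), 5, 0, 3),
    ((8, 4, 6), 3, 1, 4), ((8, 4, 7), 3, 1, 5), ((8, 4, 9), 3, 1, 7), ((8, 6, 7), 3, 4, 5),
    ((8, 6, 9), 3, 4, 7), ((8, 7, 9), 3, 5, 7), ((9, 2, 8), 7, 1, 3)]
  Tc := []
  Td := [((0, 3), (0, 1), 2), ((0, 3), (0, 7), 5), ((0, 3), (3, 5), 6), ((0, 3), (3, 6), 4), ((2,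
    6), (1, 0), 0), ((2, 6), (1, 2), 1), ((3, 0), (8, 4), 1), ((3, 0), (8, 6), 4), ((3, 0),
    (8, 7), 5), ((3, 0), (8, 9), 7), ((6, 2), (5, 3), 0), ((6, 2), (5, 4), 1)]
  G := [[0, 0x222d226aeadcecb66218e186c8, 0xd1126411d112e118c1c2adc8,
    0x1111ddd2e11159dd2ec1844d814c, 0x919d926444265418d18c98], [0,
    0x2254ea546822922ae69ec3aa4c, 0xd14411d111e1111ac1c1adc2, 0,
    0x195193644c2654181a919841a], [0, 0x2254ea54622922ae69ec3aac1, 0,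
    0x5412641595d2ecd1999c2e9198cc1, 0x444d1959dd2ec4142a8c1], [0,
    0x21222d22eea546e69ec3a2c1, 0, 0, 0x422595d936c4144c9598ca1]]

noncomputable def n1410 : Ent := ⟨e1410, noF, [], [], []⟩

def c1410 : PLift (Cov.check n1410.C.D v1410 = true) := ⟨by decide +kernel⟩

def b1410 : PLift (entF (fidx ts) 400 1410 n1410 = true) := ⟨by decide +kernel⟩

theorem g1410 : GoodF (fidx ts) 400 1410 := GoodF.ofV v1410 n1410 c1410.down b1410.down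

/-- 466745:1125/4 -/
noncomputable def e1411 : SCfg where
  D := {
    a := 6
    L := 10
    kp := 7
    inn := [(0, 1), (0, 3), (1, 0), (1, 2), (1, 3), (2, 1), (2, 5), (3, 0), (3, 1), (3, 4), (4, 3), (5,
      2)]
    mix := [(0, 0), (0, 1), (1, 1), (1, 2), (1, 3), (2, 2), (2, 3), (2, 4), (2, 5), (3, 0), (3, 3), (3,
      6), (3, 7), (4, 6), (4, 7), (4, 8), (5, 2), (5, 4), (5, 7), (5, 9)]
    cl := [0, 2, 3, 0, 3, 5, 4, 1, 6, 7]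
    chq := [(0, 6), (2, 5), (5, 2), (6, 0)]
    rng := [(0, 1), (0, 7), (1, 0), (1, 2), (2, 1), (2, 9), (3, 5), (3, 6), (4, 5), (4, 7), (5, 3), (5,
      4), (6, 3), (6, 8), (7, 0), (7, 4), (7, 8), (7, 9), (8, 6), (8, 7), (9, 2), (9, 7)]
    lev := [] }
  links := [[1, 3, 6, 7], [3, 0, 7, 8, 2, 9], [9, 1, 8, 5, 10, 11], [6, 0, 1, 9, 12, 4, 13], [13, 3, 12,
    14], [10, 2, 8, 15, 13]]
  P := {
    a := 6
    N := 16
    nb := [202, 909, 3874, 12883, 28680, 42244, 8329, 323, 32934, 6158, 10276, 1540, 16920, 50296,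
      12304, 8480]
    tri := [(0, 1, 3), (0, 1, 7), (0, 3, 6), (0, 6, 7), (1, 2, 8), (1, 2, 9), (1, 3, 9), (1, 7, 8), (2,
      5, 8), (2, 5, 10), (2, 9, 11), (2, 10, 11), (3, 4, 12), (3, 4, 13), (3, 6, 13), (3, 9, 12),
      (4, 12, 14), (4, 13, 14), (5, 8, 15), (5, 10, 13), (5, 13, 15)]
    fin := [0, 1, 1, 0, 0, 5, 0, 1, 5, 0, 5, 11, 12, 13, 14, 15]
    chd := [(0, 14), (1, 11)]
    steps := [(0, 3), (0, 4), (0, 6), (0, 9), (1, 2), (1, 7), (5, 8), (5, 10)] }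
  rep := [0, 13, 1, 5, 12, 11, 14, 15]

noncomputable def v1411 : Cov.CovD where
  P := 3
  N := 5
  pl := [6, 7, 9]
  lev := [⟨[], [], [(0, 2)], [], [(0, 0, [6]), (1, 2, [5])]⟩,
    ⟨[], [(0, 0), (0, 2), (0, 3)], [(0, 2), (0, 3), (2, 3)], [], [(1, 2, [5]), (2, 3, []),
      (3, 0, [6])]⟩,
    ⟨[(0, 1)], [(1, 0), (1, 2), (1, 3), (1, 5)], [(0, 3), (0, 5), (3, 3), (3, 5)], [], [(2,
      3, []), (3, 0, [6]), (4, 3, []), (5, 5, [2])]⟩,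
    ⟨[(0, 1), (1, 2)], [(0, 0), (0, 2), (1, 0), (1, 2), (1, 3), (2, 0)], [(0, 0)], [1, 4],
      [(0, 0, [6]), (3, 0, [6])]⟩,
    ⟨[(0, 3), (1, 3)], [(3, 0), (3, 6)], [], [1, 4], [(8, 6, [0])]⟩,
    ⟨[(1, 2)], [(1, 3), (2, 0), (2, 3), (2, 5)], [(3, 3)], [1, 7], [(2, 3, []), (4, 3,
      [])]⟩]
  Ta := [((0, 1), 0, 2), ((0, 7), 0, 1), ((2, 1), 3, 2), ((2, 9), 3, 7), ((3, 5), 0, 5), ((3, 6),
    0, 4), ((4, 5), 3, 5), ((4, 7), 3, 1)]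
  Tb := [((0, 1, 7), 0, 2, 1), ((1, 0, 2), 2, 0, 3), ((2, 1, 9), 3, 2, 7), ((3, 5, 6), 0, 5, 4),
    ((4, 5, 7), 3, 5, 1), ((5, 3, 4), 5, 0, 3), ((6, 3, 8), 4, 0, 6), ((7, 0, 4), 1, 0, 3),
    ((7, 0, 8), 1, 0, 6), ((7, 0, 9), 1, 0, 7), ((7, 4, 8), 1, 3, 6), ((7, 4, 9), 1, 3, 7),
    ((7, 8, 9), 1, 6, 7), ((8, 6, 7), 6, 4, 1), ((9, 2, 7), 7, 3, 1)]
  Tc := []
  Td := [((0, 6), (0, 1), 2), ((0, 6), (0, 7), 1), ((0, 6), (3, 5), 5), ((0, 6), (3, 6), 4), ((2,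
    5), (1, 0), 0), ((2, 5), (1, 2), 3), ((5, 2), (5, 3), 0), ((5, 2), (5, 4), 3), ((6, 0),
    (8, 6), 4), ((6, 0), (8, 7), 1)]
  G := [[0, 0xa4a8aaaee166c666a1c4, 0x1111c1111c1111cc1c1cf24, 0xc1c1c25151c294,
    0x9151c51d1cd111cc14f28], [0, 0xe4421e8e2ee612481ac, 0x1111c1111c1111cc1c1cf24,
    0xc1d1c2518294, 0xd1d1c4141c628], [0, 0, 0, 0x999d42555559c2c91828c,
    0x999995c559555cdd9dd5ce21], [0, 0, 0, 0xd142dddd82c1, 0xd1ddddc41444dc628]]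

noncomputable def n1411 : Ent := ⟨e1411, noF, [], [], [(15, 14, [385746751338780685620664494392815470296102193487288376378261505, 0])]⟩

def c1411 : PLift (Cov.check n1411.C.D v1411 = true) := ⟨by decide +kernel⟩

def b1411 : PLift (entF (fidx ts) 400 1411 n1411 = true) := ⟨by decide +kernel⟩

theorem g1411 : GoodF (fidx ts) 400 1411 := GoodF.ofV v1411 n1411 c1411.down b1411.down

/-- The entries 1275 to 1411. -/
theorem rE8 : Rng (GoodF (fidx ts) 400) 1275 1412 :=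
  ((((((((((((((((((((((((((((((((((((((((((((((((((((((((((((((((((((((((((((((((((((((((((((((((((((((((((((((((((((((((((((((((((((((((((Rng.nil _ 1275).snoc g1275 rfl).snoc g1276 rfl).snoc g1277 rfl).snoc g1278 rfl).snoc g1279 rfl).snoc g1280 rfl).snoc g1281 rfl).snoc g1282 rfl).snoc g1283 rfl).snoc g1284 rfl).snoc g1285 rfl).snoc g1286 rfl).snoc g1287 rfl).snoc g1288 rfl).snoc g1289 rfl).snoc g1290 rfl).snoc g1291 rfl).snoc g1292 rfl).snoc g1293 rfl).snoc g1294 rfl).snoc g1295 rfl).snoc g1296 rfl).snoc g1297 rfl).snoc g1298 rfl).snoc g1299 rfl).snoc g1300 rfl).snoc g1301 rfl).snoc g1302 rfl).snoc g1303 rfl).snoc g1304 rfl).snoc g1305 rfl).snoc g1306 rfl).snoc g1307 rfl).snoc g1308 rfl).snoc g1309 rfl).snoc g1310 rfl).snoc g1311 rfl).snoc g1312 rfl).snoc g1313 rfl).snoc g1314 rfl).snoc g1315 rfl).snoc g1316 rfl).snoc g1317 rfl).snoc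 g1318 rfl).snoc g1319 rfl).snoc g1320 rfl).snoc g1321 rfl).snoc g1322 rfl).snoc g1323 rfl).snoc g1324 rfl).snoc g1325 rfl).snoc g1326 rfl).snoc g1327 rfl).snoc g1328 rfl).snoc g1329 rfl).snoc g1330 rfl).snoc g1331 rfl).snoc g1332 rfl).snoc g1333 rfl).snoc g1334 rfl).snoc g1335 rfl).snoc g1336 rfl).snoc g1337 rfl).snoc g1338 rfl).snoc g1339 rfl).snoc g1340 rfl).snoc g1341 rfl).snoc g1342 rfl).snoc g1343 rfl).snoc g1344 rfl).snoc g1345 rfl).snoc g1346 rfl).snoc g1347 rfl).snoc g1348 rfl).snoc g1349 rfl).snoc g1350 rfl).snoc g1351 rfl).snoc g1352 rfl).snoc g1353 rfl).snoc g1354 rfl).snoc g1355 rfl).snoc g1356 rfl).snoc g1357 rfl).snoc g1358 rfl).snoc g1359 rfl).snoc g1360 rfl).snoc g1361 rfl).snoc g1362 rfl).snoc g1363 rfl).snoc g1364 rfl).snoc g1365 rfl).snoc g1366 rfl).snoc g1367 rfl).snoc g1368 rfl).snoc g1369 rfl).snoc g1370 rfl).snoc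 g1371 rfl).snoc g1372 rfl).snoc g1373 rfl).snoc g1374 rfl).snoc g1375 rfl).snoc g1376 rfl).snoc g1377 rfl).snoc g1378 rfl).snoc g1379 rfl).snoc g1380 rfl).snoc g1381 rfl).snoc g1382 rfl).snoc g1383 rfl).snoc g1384 rfl).snoc g1385 rfl).snoc g1386 rfl).snoc g1387 rfl).snoc g1388 rfl).snoc g1389 rfl).snoc g1390 rfl).snoc g1391 rfl).snoc g1392 rfl).snoc g1393 rfl).snoc g1394 rfl).snoc g1395 rfl).snoc g1396 rfl).snoc g1397 rfl).snoc g1398 rfl).snoc g1399 rfl).snoc g1400 rfl).snoc g1401 rfl).snoc g1402 rfl).snoc g1403 rfl).snoc g1404 rfl).snoc g1405 rfl).snoc g1406 rfl).snoc g1407 rfl).snoc g1408 rfl).snoc g1409 rfl).snoc g1410 rfl).snoc g1411 rfl)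

end Pool.Agent.W986.ST.Dat
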