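import Pool.Agent.W986.SubX
import Pool.Agent.W986.SubBigL
import Pool.Agent.W986.Dat.Chk
import Pool.Agent.W986.Dat.Chk0
import Pool.Agent.W986.Dat.C0
import Pool.Agent.W986.Dat.C1
import Pool.Agent.W986.Dat.C2
import Pool.Agent.W986.Dat.C3
import Pool.Agent.W986.Dat.C4
import Pool.Agent.W986.Dat.C5
import Pool.Agent.W986.Dat.C6
import Pool.Agent.W986.Dat.C7
import Pool.Agent.W986.Dat.C8
import Pool.Agent.W986.Dat.C9
import Pool.Agent.W986.Dat.C10
import Pool.Agent.W986.Dat.C11
import Pool.Agent.W986.Dat.C12
import Pool.Agent.W986.Dat.C13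
import Pool.Agent.W986.Dat.C14
import Pool.Agent.W986.Dat.C15
import Pool.Agent.W986.Dat.C16
import Pool.Agent.W986.Dat.C17
import Pool.Agent.W986.Dat.C18
import Pool.Agent.W986.Dat.C19
import Pool.Agent.W986.Dat.C20
import Pool.Agent.W986.Dat.C21
import Pool.Agent.W986.Dat.C22
import Pool.Agent.W986.Dat.C23
import Pool.Agent.W986.Dat.C24
import Pool.Agent.W986.Dat.C25
import Pool.Agent.W986.Dat.C26
import Pool.Agent.W986.Dat.C27
import Pool.Agent.W986.Dat.C28
import Pool.Agent.W986.Dat.C29
import Pool.Agent.W986.Dat.C30
import Pool.Agent.W986.Dat.C31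
import Pool.Agent.W986.Dat.C32
import Pool.Agent.W986.Dat.C33
import Pool.Agent.W986.Dat.C34
import Pool.Agent.W986.Dat.C35
import Pool.Agent.W986.Dat.C36
import Pool.Agent.W986.Dat.C37
import Pool.Agent.W986.Dat.C38
import Pool.Agent.W986.Dat.C39
import Pool.Agent.W986.Dat.C40
import Pool.Agent.W986.Dat.C41
import Pool.Agent.W986.Dat.C42
import Pool.Agent.W986.Dat.C43
import Pool.Agent.W986.Dat.C44
import Pool.Agent.W986.Dat.C45
import Pool.Agent.W986.Dat.C46
import Pool.Agent.W986.Dat.C47
import Pool.Agent.W986.Dat.C48
import Pool.Agent.W986.Dat.C49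
import Pool.Agent.W986.Dat.C50
import Pool.Agent.W986.Dat.C51
import Pool.Agent.W986.Dat.C52
import Pool.Agent.W986.Dat.C53
import Pool.Agent.W986.Dat.C54
import Pool.Agent.W986.Dat.C55
import Pool.Agent.W986.Dat.C56
import Pool.Agent.W986.Dat.C57
import Pool.Agent.W986.Dat.C58
import Pool.Agent.W986.Dat.C59
import Pool.Agent.W986.Dat.C60
import Pool.Agent.W986.Dat.C61
import Pool.Agent.W986.Dat.C62
import Pool.Agent.W986.Dat.C63
import Pool.Agent.W986.Dat.C64
import Pool.Agent.W986.Dat.C65
import Pool.Agent.W986.Dat.C66
import Pool.Agent.W986.Dat.C67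
import Pool.Agent.W986.Dat.C68
import Pool.Agent.W986.Dat.C69
import Pool.Agent.W986.Dat.C70
import Pool.Agent.W986.Dat.C71
import Pool.Agent.W986.Dat.C72
import Pool.Agent.W986.Dat.C73
import Pool.Agent.W986.Dat.C74
import Pool.Agent.W986.Dat.C75
import Pool.Agent.W986.Dat.E0
import Pool.Agent.W986.Dat.E1
import Pool.Agent.W986.Dat.E2
import Pool.Agent.W986.Dat.E3
import Pool.Agent.W986.Dat.E4
import Pool.Agent.W986.Dat.E5
import Pool.Agent.W986.Dat.E6
import Pool.Agent.W986.Dat.E7
import Pool.Agent.W986.Dat.E8
import Pool.Agent.W986.Dat.E9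
import Pool.Agent.W986.Dat.E10
import Pool.Agent.W986.Dat.E11
import Pool.Agent.W986.Dat.E12
import Pool.Agent.W986.Dat.E13
import Pool.Agent.W986.Dat.E14
import Pool.Agent.W986.Dat.E15
import Pool.Agent.W986.Dat.E16
import Pool.Agent.W986.Dat.E17
import Pool.Agent.W986.Dat.E18
import Pool.Agent.W986.Dat.E19
import Pool.Agent.W986.Dat.E20
import Pool.Agent.W986.Dat.E21
import Pool.Agent.W986.Dat.E22
import Pool.Agent.W986.Dat.E23
import Pool.Agent.W986.Dat.E24
import Pool.Agent.W986.Dat.E25
import Pool.Agent.W986.Dat.E26
import Pool.Agent.W986.Dat.E27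
import Pool.Agent.W986.Dat.E28
import Pool.Agent.W986.Dat.Tab

/-!
# The answer for projective-planar graphs

The data modules together: the configurations (`E`) and the facts with certificates (`C`).
-/

set_option autoImplicit false

namespace Pool.Agent.W986

open Pool.Agent.DC76 Pool.Agent.W986.ST Pool.Agent.W986.ST.Dat

namespace ST.Dat

theorem good0 : Rng (GoodF (fidx ts) 400) 0 2852 :=
  (((((((((((((((((((rE0).cat
    rE1).cat
    rE2).cat
    rE3).cat
    rE4).cat
    rE5).cat
    rE6).cat
    rE7).cat
    rE8).cat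
    rE9).cat
    rE10).cat
    rE11).cat
    rE12).cat
    rE13).cat
    rE14).cat
    rE15).cat
    rE16).cat
    rE17).cat
    rE18).cat
    rE19

theorem good1 : Rng (GoodF (fidx ts) 400) 2852 3878 :=
  ((((((((rE20).cat
    rE21).cat
    rE22).cat
    rE23).cat
    rE24).cat
    rE25).cat
    rE26).cat
    rE27).cat
    rE28

theorem good : Rng (GoodF (fidx ts) 400) 0 3878 :=
  (good0).cat
    good1

theorem run0_0 : RunsF 0 lC lC (fidx ts) 3878 3918 := by
  have h := RunsF.refl (n0 := 0) (leafI := lC) (leafF := lC) (fl := fidx ts) 3878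
  replace h := h.next 400 s0 3918 ok0 (by decide +kernel)
  exact h

theorem run0 : RunsF 0 lC lC (fidx ts) 3878 3918 :=
  run0_0

theorem run1_0 : RunsF 1 lIR lFR (fidx ts) 3918 7100 := by
  have h := RunsF.refl (n0 := 1) (leafI := lIR) (leafF := lFR) (fl := fidx ts) 3918
  replace h := h.next 400 s1 4056 ok1 (by decide +kernel)
  replace h := h.next 400 s2 4252 ok2 (by decide +kernel)
  replace h := h.next 400 s3 4469 ok3 (by decide +kernel)
  replace h := h.next 400 s4 4576 ok4 (by decide +kernel)
  replace h := h.next 400 s5 4765 ok5 (by decide +kernel)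
  replace h := h.next 400 s6 4952 ok6 (by decide +kernel)
  replace h := h.next 400 s7 5072 ok7 (by decide +kernel)
  replace h := h.next 400 s8 5347 ok8 (by decide +kernel)
  replace h := h.next 400 s9 5401 ok9 (by decide +kernel)
  replace h := h.next 400 s10 5530 ok10 (by decide +kernel)
  replace h := h.next 400 s11 5642 ok11 (by decide +kernel)
  replace h := h.next 400 s12 5784 ok12 (by decide +kernel)
  replace h := h.next 400 s13 5940 ok13 (by decide +kernel)
  replace h := h.next 400 s14 6117 ok14 (by decide +kernel)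
  replace h := h.next 400 s15 6253 ok15 (by decide +kernel)
  replace h := h.next 400 s16 6388 ok16 (by decide +kernel)
  replace h := h.next 400 s17 6506 ok17 (by decide +kernel)
  replace h := h.next 400 s18 6742 ok18 (by decide +kernel)
  replace h := h.next 400 s19 6868 ok19 (by decide +kernel)
  replace h := h.next 400 s20 7100 ok20 (by decide +kernel)
  exact h

theorem run1_1 : RunsF 1 lIR lFR (fidx ts) 7100 10127 := by
  have h := RunsF.refl (n0 := 1) (leafI := lIR) (leafF := lFR) (fl := fidx ts) 7100
  replace h := h.next 400 s21 7238 ok21 (by decide +kernel)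
  replace h := h.next 400 s22 7306 ok22 (by decide +kernel)
  replace h := h.next 400 s23 7463 ok23 (by decide +kernel)
  replace h := h.next 400 s24 7633 ok24 (by decide +kernel)
  replace h := h.next 400 s25 7764 ok25 (by decide +kernel)
  replace h := h.next 400 s26 7910 ok26 (by decide +kernel)
  replace h := h.next 400 s27 8027 ok27 (by decide +kernel)
  replace h := h.next 400 s28 8127 ok28 (by decide +kernel)
  replace h := h.next 400 s29 8241 ok29 (by decide +kernel)
  replace h := h.next 400 s30 8365 ok30 (by decide +kernel)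
  replace h := h.next 400 s31 8496 ok31 (by decide +kernel)
  replace h := h.next 400 s32 8694 ok32 (by decide +kernel)
  replace h := h.next 400 s33 8858 ok33 (by decide +kernel)
  replace h := h.next 400 s34 9033 ok34 (by decide +kernel)
  replace h := h.next 400 s35 9169 ok35 (by decide +kernel)
  replace h := h.next 400 s36 9387 ok36 (by decide +kernel)
  replace h := h.next 400 s37 9635 ok37 (by decide +kernel)
  replace h := h.next 400 s38 9796 ok38 (by decide +kernel)
  replace h := h.next 400 s39 9919 ok39 (by decide +kernel)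
  replace h := h.next 400 s40 10127 ok40 (by decide +kernel)
  exact h

theorem run1_2 : RunsF 1 lIR lFR (fidx ts) 10127 13575 := by
  have h := RunsF.refl (n0 := 1) (leafI := lIR) (leafF := lFR) (fl := fidx ts) 10127
  replace h := h.next 400 s41 10334 ok41 (by decide +kernel)
  replace h := h.next 400 s42 10444 ok42 (by decide +kernel)
  replace h := h.next 400 s43 10587 ok43 (by decide +kernel)
  replace h := h.next 400 s44 10735 ok44 (by decide +kernel)
  replace h := h.next 400 s45 10940 ok45 (by decide +kernel)
  replace h := h.next 400 s46 11035 ok46 (by decide +kernel)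
  replace h := h.next 400 s47 11236 ok47 (by decide +kernel)
  replace h := h.next 400 s48 11421 ok48 (by decide +kernel)
  replace h := h.next 400 s49 11644 ok49 (by decide +kernel)
  replace h := h.next 400 s50 11798 ok50 (by decide +kernel)
  replace h := h.next 400 s51 11902 ok51 (by decide +kernel)
  replace h := h.next 400 s52 12056 ok52 (by decide +kernel)
  replace h := h.next 400 s53 12271 ok53 (by decide +kernel)
  replace h := h.next 400 s54 12451 ok54 (by decide +kernel)
  replace h := h.next 400 s55 12571 ok55 (by decide +kernel)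
  replace h := h.next 400 s56 12721 ok56 (by decide +kernel)
  replace h := h.next 400 s57 12894 ok57 (by decide +kernel)
  replace h := h.next 400 s58 13150 ok58 (by decide +kernel)
  replace h := h.next 400 s59 13344 ok59 (by decide +kernel)
  replace h := h.next 400 s60 13575 ok60 (by decide +kernel)
  exact h

theorem run1_3 : RunsF 1 lIR lFR (fidx ts) 13575 15865 := by
  have h := RunsF.refl (n0 := 1) (leafI := lIR) (leafF := lFR) (fl := fidx ts) 13575
  replace h := h.next 400 s61 13748 ok61 (by decide +kernel)
  replace h := h.next 400 s62 13901 ok62 (by decide +kernel)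
  replace h := h.next 400 s63 14065 ok63 (by decide +kernel)
  replace h := h.next 400 s64 14322 ok64 (by decide +kernel)
  replace h := h.next 400 s65 14554 ok65 (by decide +kernel)
  replace h := h.next 400 s66 14751 ok66 (by decide +kernel)
  replace h := h.next 400 s67 14929 ok67 (by decide +kernel)
  replace h := h.next 400 s68 15106 ok68 (by decide +kernel)
  replace h := h.next 400 s69 15290 ok69 (by decide +kernel)
  replace h := h.next 400 s70 15467 ok70 (by decide +kernel)
  replace h := h.next 400 s71 15693 ok71 (by decide +kernel)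
  replace h := h.next 400 s72 15865 ok72 (by decide +kernel)
  exact h

theorem run1 : RunsF 1 lIR lFR (fidx ts) 3918 15865 :=
  (((run1_0).trans
    run1_1).trans
    run1_2).trans
    run1_3

theorem run4_0 : RunsF 4 lI lG (flm (fidx ts) 3918 15865) 15865 15992 := by
  have h := RunsF.refl (n0 := 4) (leafI := lI) (leafF := lG) (fl := (flm (fidx ts) 3918 15865)) 15865
  replace h := h.next 400 s73 15969 ok73 (by decide +kernel)
  replace h := h.next 400 s74 15983 ok74 (by decide +kernel)
  replace h := h.next 400 s75 15992 ok75 (by decide +kernel)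
  exact h

theorem run4 : RunsF 4 lI lG (flm (fidx ts) 3918 15865) 15865 15992 :=
  run4_0

end ST.Dat

/-- **The answer for projective-planar graphs.** -/
theorem projective_answer (k d : ℕ) :
    AllCol @ProjectivePlanar k d ↔ (3 ≤ k ∧ 2 ≤ d) ∨ (4 ≤ k ∧ 1 ≤ d) ∨ 6 ≤ k :=
  projective_of_dataR lG_ok
    [3891, 3892, 3893, 3894, 3895, 3896, 3897, 3898]
    [15864, 15863, 15862, 15861, 15860, 15859, 15858]
    [15958, 15969, 15974, 15978, 15983, 15991]
    rfl small_ok root_ok big_ok good run0 nok_ok run1 run4 k d

end Pool.Agent.W986
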