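import Pool.Agent.W986.Dat.Tab
import Pool.Agent.W986.SubAltB

/-!
# Entries 3712 to 3807 of the table
-/

set_option autoImplicit false

namespace Pool.Agent.W986.ST.Dat

/-- 6768444:2755/1 -/
noncomputable def e3712 : SCfg where
  D := {
    a := 7
    L := 11
    kp := 8
    inn := [(0, 1), (0, 6), (1, 0), (1, 2), (1, 3), (1, 5), (2, 1), (2, 3), (2, 4), (3, 1), (3, 2), (3,
      4), (3, 5), (4, 2), (4, 3), (5, 1), (5, 3), (6, 0)]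
    mix := [(0, 0), (0, 1), (0, 2), (0, 3), (1, 0), (1, 3), (1, 4), (2, 0), (2, 5), (2, 6), (3, 7), (3,
      8), (3, 9), (3, 10), (4, 6), (4, 7), (5, 4), (5, 8), (6, 1), (6, 2), (6, 8)]
    cl := [1, 4, 1, 2, 5, 6, 3, 0, 0, 7, 8]
    chq := [(0, 2), (2, 0), (2, 3), (2, 6), (3, 2), (6, 2)]
    rng := [(0, 1), (0, 5), (1, 0), (1, 8), (2, 3), (2, 8), (3, 2), (3, 4), (4, 3), (4, 8), (5, 0), (5,
      6), (6, 5), (6, 7), (7, 6), (7, 10), (8, 1), (8, 2), (8, 4), (8, 9), (9, 8), (9, 10), (10,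
      7), (10, 9)]
    lev := [] }
  links := [[1, 7, 8, 6, 9, 10], [3, 2, 7, 0, 10, 11, 5], [12, 7, 1, 3, 4, 13], [14, 4, 2, 1, 5, 15, 16,
    17], [2, 3, 14, 13], [1, 11, 15, 3], [0, 8, 15, 9]]
  P := {
    a := 7
    N := 18
    nb := [1986, 3245, 12442, 245814, 24588, 34826, 33537, 4359, 32961, 33857, 2563, 33826, 8324,
      20500, 139288, 68456, 163848, 81928]
    tri := [(0, 1, 7), (0, 1, 10), (0, 6, 8), (0, 6, 9), (0, 7, 8), (0, 9, 10), (1, 2, 3), (1, 2, 7),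
      (1, 3, 5), (1, 5, 11), (1, 10, 11), (2, 3, 4), (2, 4, 13), (2, 7, 12), (2, 12, 13), (3, 4,
      14), (3, 5, 15), (3, 14, 17), (3, 15, 16), (3, 16, 17), (4, 13, 14), (5, 11, 15), (6, 8,
      15), (6, 9, 15)]
    fin := [0, 1, 1, 3, 3, 3, 0, 0, 8, 0, 1, 11, 12, 13, 3, 3, 16, 17]
    chd := [(1, 3), (1, 12), (1, 13)]
    steps := [(0, 6), (0, 7), (0, 9), (1, 2), (1, 10), (3, 4), (3, 5), (3, 15), (3, 14)] }
  rep := [3, 0, 1, 13, 8, 11, 12, 16, 17]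

noncomputable def v3712 : Cov.CovD where
  P := 3
  N := 6
  pl := [1, 4, 9, 10]
  lev := [⟨[], [], [(1, 1), (1, 2)], [4], [(0, 1, []), (2, 1, []), (3, 2, [0, 3, 6])]⟩,
    ⟨[], [(0, 1), (0, 2)], [(1, 2)], [5], [(0, 1, []), (3, 2, [0, 3, 6])]⟩,
    ⟨[(0, 1)], [(0, 1), (1, 1), (1, 2), (1, 3), (1, 6)], [(1, 3), (1, 6), (3, 6)], [], [(0,
      1, []), (5, 6, [2]), (6, 3, [2])]⟩,
    ⟨[(0, 1), (1, 2)], [(1, 0), (1, 1), (1, 2), (2, 0), (2, 1), (2, 3), (2, 6)], [(0, 0)],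
      [7, 8], [(7, 0, [2]), (8, 0, [2])]⟩,
    ⟨[(1, 2), (1, 3), (2, 3)], [(2, 0), (2, 1), (2, 3), (2, 6), (3, 0), (3, 3)], [(0, 3)],
      [], [(6, 3, [2]), (7, 0, [2])]⟩,
    ⟨[(0, 1), (1, 2), (1, 3), (2, 3), (3, 4)], [(1, 0), (1, 1), (1, 2), (3, 0)], [], [5],
      [(8, 0, [2])]⟩,
    ⟨[(0, 1)], [(0, 0), (0, 1), (0, 2), (3, 0), (5, 0)], [(0, 1)], [4], [(2, 1, []), (8, 0,
      [2])]⟩]
  Ta := [((0, 1), 1, 4), ((0, 5), 1, 6), ((2, 3), 1, 2), ((2, 8), 1, 0), ((7, 6), 0, 3), ((7,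
    10), 0, 8), ((8, 1), 0, 4), ((8, 2), 0, 1), ((8, 4), 0, 5), ((8, 9), 0, 7)]
  Tb := [((0, 1, 5), 1, 4, 6), ((1, 0, 8), 4, 1, 0), ((2, 3, 8), 1, 2, 0), ((3, 2, 4), 2, 1, 5),
    ((4, 3, 8), 5, 2, 0), ((5, 0, 6), 6, 1, 3), ((6, 5, 7), 3, 6, 0), ((7, 6, 10), 0, 3, 8),
    ((8, 1, 2), 0, 4, 1), ((8, 1, 4), 0, 4, 5), ((8, 1, 9), 0, 4, 7), ((8, 2, 4), 0, 1, 5),
    ((8, 2, 9), 0, 1, 7), ((8, 4, 9), 0, 5, 7), ((9, 8, 10), 7, 0, 8), ((10, 7, 9), 8, 0, 7)]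
  Tc := [(2, 0, 3), (2, 0, 6), (2, 3, 6)]
  Td := [((0, 2), (7, 6), 3), ((0, 2), (7, 10), 8), ((0, 2), (8, 1), 4), ((0, 2), (8, 2), 1),
    ((0, 2), (8, 4), 5), ((0, 2), (8, 9), 7), ((2, 0), (3, 2), 1), ((2, 0), (3, 4), 5), ((2,
    3), (3, 2), 1), ((2, 3), (3, 4), 5), ((2, 6), (3, 2), 1), ((2, 6), (3, 4), 5), ((3, 2),
    (6, 5), 6), ((3, 2), (6, 7), 0), ((6, 2), (5, 0), 1), ((6, 2), (5, 6), 3)]
  G := [[0, 0, 0x62a26a1c86a2c8ae1c4616a161ac4c4ae1c1, 0,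
    0x842411242411c484a468a4ec6ac6aac448a64eec1d], [0, 0,
    0xc12c2c1ca1c44c8c1ac4c16e1c18c1c1ac1e1, 0xc1221c4221c282c242c2c2cc2c2cced1,
    0xc484c4c2ccca8c4c8c4eec44c4ccacce11], [0, 0, 0xc1626a8c86c1c1ce16161aa1a2aa2a46e1c1, 0,
    0x4484826148a128c1e8424d12224116214a21681681ea824d2484441421421ec9d], [0,
    0x828222428861886188c1ee1421242124461226144c1ee1c,
    0xc88c1c1661c1c46c12c2c4ae1c1c1ac14c1e1,
    0x82828812821821c8422f82128212821881c8822f544224842441421c4822f42124242421421c4422f9c,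
    0x846188a188a1e8414848471c81c816c8146c418c48454414c81441a4414eb9]]

noncomputable def n3712 : Ent := ⟨e3712, noF, [], [], []⟩

def c3712 : PLift (Cov.check n3712.C.D v3712 = true) := ⟨by decide +kernel⟩

def b3712 : PLift (entF (fidx ts) 400 3712 n3712 = true) := ⟨by decide +kernel⟩

theorem g3712 : GoodF (fidx ts) 400 3712 := GoodF.ofV v3712 n3712 c3712.down b3712.down

/-- 6768444:2755/2 -/
noncomputable def e3713 : SCfg where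
  D := {
    a := 7
    L := 11
    kp := 8
    inn := [(0, 1), (0, 6), (1, 0), (1, 2), (1, 3), (1, 5), (2, 1), (2, 3), (2, 4), (3, 1), (3, 2), (3,
      4), (3, 5), (4, 2), (4, 3), (5, 1), (5, 3), (6, 0)]
    mix := [(0, 0), (0, 1), (0, 2), (0, 3), (1, 0), (1, 3), (1, 4), (2, 0), (2, 5), (2, 6), (3, 7), (3,
      8), (3, 9), (3, 10), (4, 6), (4, 7), (5, 4), (5, 8), (6, 1), (6, 2), (6, 9)]
    cl := [0, 4, 5, 0, 6, 7, 3, 1, 1, 2, 8]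
    chq := [(0, 1), (0, 2), (0, 3), (1, 0), (2, 0), (3, 0)]
    rng := [(0, 1), (0, 5), (1, 0), (1, 9), (2, 3), (2, 9), (3, 2), (3, 4), (4, 3), (4, 8), (5, 0), (5,
      6), (6, 5), (6, 7), (7, 6), (7, 10), (8, 4), (8, 9), (9, 1), (9, 2), (9, 8), (9, 10), (10,
      7), (10, 9)]
    lev := [] }
  links := [[1, 7, 8, 6, 9, 10], [3, 2, 7, 0, 10, 11, 5], [12, 7, 1, 3, 4, 13], [14, 4, 2, 1, 5, 15, 16,
    17], [2, 3, 14, 13], [1, 11, 15, 3], [0, 8, 16, 9]]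
  P := {
    a := 7
    N := 18
    nb := [1986, 3245, 12442, 245814, 24588, 34826, 66305, 4359, 65729, 66625, 2563, 33826, 8324,
      20500, 139288, 67624, 164680, 81928]
    tri := [(0, 1, 7), (0, 1, 10), (0, 6, 8), (0, 6, 9), (0, 7, 8), (0, 9, 10), (1, 2, 3), (1, 2, 7),
      (1, 3, 5), (1, 5, 11), (1, 10, 11), (2, 3, 4), (2, 4, 13), (2, 7, 12), (2, 12, 13), (3, 4,
      14), (3, 5, 15), (3, 14, 17), (3, 15, 16), (3, 16, 17), (4, 13, 14), (5, 11, 15), (6, 8,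
      16), (6, 9, 16)]
    fin := [0, 0, 0, 3, 0, 0, 0, 0, 8, 9, 0, 11, 12, 13, 3, 3, 16, 17]
    chd := [(0, 3), (0, 13), (0, 16)]
    steps := [(0, 1), (0, 2), (0, 4), (0, 5), (0, 6), (0, 7), (0, 10), (3, 15), (3, 14)] }
  rep := [0, 3, 16, 13, 8, 9, 11, 12, 17]

noncomputable def v3713 : Cov.CovD where
  P := 3
  N := 6
  pl := [1, 2, 4, 5, 10]
  lev := [⟨[], [], [(0, 0)], [4, 5], [(0, 0, [1, 2, 3]), (3, 0, [1, 2, 3])]⟩,
    ⟨[], [(0, 0)], [(0, 0)], [6], [(0, 0, [1, 2, 3]), (3, 0, [1, 2, 3])]⟩,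
    ⟨[(0, 1)], [(0, 0), (1, 0), (1, 3)], [(0, 3)], [7], [(0, 0, [1, 2, 3]), (6, 3, [0])]⟩,
    ⟨[(0, 1), (1, 2)], [(1, 0), (1, 1), (1, 2), (2, 0), (2, 1), (2, 2), (2, 3)], [(1, 1),
      (1, 2)], [8], [(7, 1, [0]), (8, 1, [0]), (9, 2, [0])]⟩,
    ⟨[(1, 2), (1, 3), (2, 3)], [(2, 0), (2, 1), (2, 3), (3, 1), (3, 2), (3, 3)], [(1, 3)],
      [], [(6, 3, [0]), (7, 1, [0])]⟩,
    ⟨[(0, 1), (1, 2), (1, 3), (2, 3), (3, 4)], [(1, 0), (1, 1), (3, 1), (3, 2)], [], [6],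
      [(8, 1, [0])]⟩,
    ⟨[(0, 1)], [(0, 0), (0, 2), (3, 2)], [], [4, 5], [(9, 2, [0])]⟩]
  Ta := [((0, 1), 0, 4), ((0, 5), 0, 7), ((3, 2), 0, 5), ((3, 4), 0, 6), ((7, 6), 1, 3), ((7,
    10), 1, 8), ((8, 4), 1, 6), ((8, 9), 1, 2)]
  Tb := [((0, 1, 5), 0, 4, 7), ((1, 0, 9), 4, 0, 2), ((2, 3, 9), 5, 0, 2), ((3, 2, 4), 0, 5, 6),
    ((4, 3, 8), 6, 0, 1), ((5, 0, 6), 7, 0, 3), ((6, 5, 7), 3, 7, 1), ((7, 6, 10), 1, 3, 8),
    ((8, 4, 9), 1, 6, 2), ((9, 1, 2), 2, 4, 5), ((9, 1, 8), 2, 4, 1), ((9, 1, 10), 2, 4, 8),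
    ((9, 2, 8), 2, 5, 1), ((9, 2, 10), 2, 5, 8), ((9, 8, 10), 2, 1, 8), ((10, 7, 9), 8, 1,
    2)]
  Tc := [(0, 1, 2), (0, 1, 3), (0, 2, 3)]
  Td := [((0, 1), (0, 1), 4), ((0, 1), (0, 5), 7), ((0, 1), (3, 2), 5), ((0, 1), (3, 4), 6), ((0,
    2), (0, 1), 4), ((0, 2), (0, 5), 7), ((0, 2), (3, 2), 5), ((0, 2), (3, 4), 6), ((0, 3),
    (0, 1), 4), ((0, 3), (0, 5), 7), ((0, 3), (3, 2), 5), ((0, 3), (3, 4), 6), ((1, 0), (7,
    6), 3), ((1, 0), (7, 10), 8), ((1, 0), (8, 4), 6), ((1, 0), (8, 9), 2), ((2, 0), (9, 1),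
    4), ((2, 0), (9, 2), 5), ((2, 0), (9, 8), 1), ((2, 0), (9, 10), 8), ((3, 0), (6, 5), 7),
    ((3, 0), (6, 7), 1)]
  G := [[0, 0x118411484c812c111126114c1e4121811cc11188112411416c1e1111c1118ac11111c1111ac16e,
    0x8181c8111cc121141c4111cc121111c1111cc12e, 0,
    0x811818981481498118181c9e23113189314314931111c19e2221281921112219211111891111149cee],
    [0, 0x148168118ac18212681816c161141418ac1118814121242cc1e111161118ac11111c1411ac1ae,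
    0x112112c1812812c16142182c1112412c1a112112c1142212c1ce,
    0xd11d8152d41d11c2d12d189d11d149ce2,
    0x81288898118819811848459e811818988281498818819e6112111111491411819e11288312142911211293111419ee212121421292112819e212212921121291112419e11188ee],
    [0, 0x8188c8181ac18281c82816c1611211416c1118814144111cc1e112114c1148112c1114118c1ee,
    0x8181c1111cc121141c4141cc121111c1111cc12e, 0,
    0x185818148894981188c1918588c8f21358131113c4911111c1913514c8f222412212219624111422c83111115891141449cee],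
    [0, 0x1118a1111ac18212a1282cc16411161818cc11242611126c1a111161418cc11111c11116c1ae,
    0x812812c1882812c16112482c1142112c1a142242c1112112c1ae, 0x111112c11211251d921d52cd22,
    0x1118429882184184198128f8148129814111888198828f61111829111181961121889811211441141341913928fe212121228492112819e2421211212914112428f11188ee]]

noncomputable def n3713 : Ent := ⟨e3713, noF, [], [], []⟩

def c3713 : PLift (Cov.check n3713.C.D v3713 = true) := ⟨by decide +kernel⟩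

def b3713 : PLift (entF (fidx ts) 400 3713 n3713 = true) := ⟨by decide +kernel⟩

theorem g3713 : GoodF (fidx ts) 400 3713 := GoodF.ofV v3713 n3713 c3713.down b3713.down

/-- 6768444:2755/3 -/
noncomputable def e3714 : SCfg where
  D := {
    a := 7
    L := 11
    kp := 8
    inn := [(0, 1), (0, 6), (1, 0), (1, 2), (1, 3), (1, 5), (2, 1), (2, 3), (2, 4), (3, 1), (3, 2), (3,
      4), (3, 5), (4, 2), (4, 3), (5, 1), (5, 3), (6, 0)]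
    mix := [(0, 0), (0, 1), (0, 2), (0, 3), (1, 0), (1, 3), (1, 4), (2, 0), (2, 5), (2, 6), (3, 7), (3,
      8), (3, 9), (3, 10), (4, 6), (4, 7), (5, 4), (5, 8), (6, 1), (6, 2), (6, 10)]
    cl := [0, 4, 5, 0, 6, 7, 3, 1, 1, 8, 2]
    chq := [(0, 1), (0, 2), (0, 3), (1, 0), (2, 0), (3, 0)]
    rng := [(0, 1), (0, 5), (1, 0), (1, 10), (2, 3), (2, 10), (3, 2), (3, 4), (4, 3), (4, 8), (5, 0),
      (5, 6), (6, 5), (6, 7), (7, 6), (7, 10), (8, 4), (8, 9), (9, 8), (9, 10), (10, 1), (10, 2),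
      (10, 7), (10, 9)]
    lev := [] }
  links := [[1, 7, 8, 6, 9, 10], [3, 2, 7, 0, 10, 11, 5], [12, 7, 1, 3, 4, 13], [14, 4, 2, 1, 5, 15, 16,
    17], [2, 3, 14, 13], [1, 11, 15, 3], [0, 8, 17, 9]]
  P := {
    a := 7
    N := 18
    nb := [1986, 3245, 12442, 245814, 24588, 34826, 131841, 4359, 131265, 132161, 2563, 33826, 8324,
      20500, 139288, 67624, 163848, 82760]
    tri := [(0, 1, 7), (0, 1, 10), (0, 6, 8), (0, 6, 9), (0, 7, 8), (0, 9, 10), (1, 2, 3), (1, 2, 7),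
      (1, 3, 5), (1, 5, 11), (1, 10, 11), (2, 3, 4), (2, 4, 13), (2, 7, 12), (2, 12, 13), (3, 4,
      14), (3, 5, 15), (3, 14, 17), (3, 15, 16), (3, 16, 17), (4, 13, 14), (5, 11, 15), (6, 8,
      17), (6, 9, 17)]
    fin := [0, 0, 0, 3, 0, 0, 0, 0, 8, 9, 0, 11, 12, 13, 3, 3, 16, 17]
    chd := [(0, 3), (0, 13), (0, 17)]
    steps := [(0, 1), (0, 2), (0, 4), (0, 5), (0, 6), (0, 7), (0, 10), (3, 15), (3, 14)] }
  rep := [0, 3, 17, 13, 8, 9, 11, 12, 16]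

noncomputable def v3714 : Cov.CovD where
  P := 3
  N := 6
  pl := [1, 2, 4, 5, 9]
  lev := [⟨[], [], [(0, 0)], [4, 5], [(0, 0, [1, 2, 3]), (3, 0, [1, 2, 3])]⟩,
    ⟨[], [(0, 0)], [(0, 0)], [6], [(0, 0, [1, 2, 3]), (3, 0, [1, 2, 3])]⟩,
    ⟨[(0, 1)], [(0, 0), (1, 0), (1, 3)], [(0, 3)], [7], [(0, 0, [1, 2, 3]), (6, 3, [0])]⟩,
    ⟨[(0, 1), (1, 2)], [(1, 0), (1, 1), (1, 2), (2, 0), (2, 1), (2, 2), (2, 3)], [(1, 1),
      (1, 2)], [8], [(7, 1, [0]), (8, 1, [0]), (10, 2, [0])]⟩,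
    ⟨[(1, 2), (1, 3), (2, 3)], [(2, 0), (2, 1), (2, 3), (3, 1), (3, 2), (3, 3)], [(1, 3)],
      [], [(6, 3, [0]), (7, 1, [0])]⟩,
    ⟨[(0, 1), (1, 2), (1, 3), (2, 3), (3, 4)], [(1, 0), (1, 1), (3, 1), (3, 2)], [], [6],
      [(8, 1, [0])]⟩,
    ⟨[(0, 1)], [(0, 0), (0, 2), (3, 2)], [], [4, 5], [(10, 2, [0])]⟩]
  Ta := [((0, 1), 0, 4), ((0, 5), 0, 7), ((3, 2), 0, 5), ((3, 4), 0, 6), ((7, 6), 1, 3), ((7,
    10), 1, 2), ((8, 4), 1, 6), ((8, 9), 1, 8)]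
  Tb := [((0, 1, 5), 0, 4, 7), ((1, 0, 10), 4, 0, 2), ((2, 3, 10), 5, 0, 2), ((3, 2, 4), 0, 5,
    6), ((4, 3, 8), 6, 0, 1), ((5, 0, 6), 7, 0, 3), ((6, 5, 7), 3, 7, 1), ((7, 6, 10), 1, 3,
    2), ((8, 4, 9), 1, 6, 8), ((9, 8, 10), 8, 1, 2), ((10, 1, 2), 2, 4, 5), ((10, 1, 7), 2,
    4, 1), ((10, 1, 9), 2, 4, 8), ((10, 2, 7), 2, 5, 1), ((10, 2, 9), 2, 5, 8), ((10, 7, 9),
    2, 1, 8)]
  Tc := [(0, 1, 2), (0, 1, 3), (0, 2, 3)]
  Td := [((0, 1), (0, 1), 4), ((0, 1), (0, 5), 7), ((0, 1), (3, 2), 5), ((0, 1), (3, 4), 6), ((0,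
    2), (0, 1), 4), ((0, 2), (0, 5), 7), ((0, 2), (3, 2), 5), ((0, 2), (3, 4), 6), ((0, 3),
    (0, 1), 4), ((0, 3), (0, 5), 7), ((0, 3), (3, 2), 5), ((0, 3), (3, 4), 6), ((1, 0), (7,
    6), 3), ((1, 0), (7, 10), 2), ((1, 0), (8, 4), 6), ((1, 0), (8, 9), 8), ((2, 0), (10, 1),
    4), ((2, 0), (10, 2), 5), ((2, 0), (10, 7), 1), ((2, 0), (10, 9), 8), ((3, 0), (6, 5),
    7), ((3, 0), (6, 7), 1)]
  G := [[0, 0x118411484c812c111126114c1e4121811cc11188112411416c1e1111c1118ac11111c1111ac16e,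
    0x8181c1111cc124111c1141cc121111c1111cc12e, 0xd21d8152d11d4152d11d189d11d149ce2,
    0x811818981181498118181c9e23113189314314931111c19e2121281922412419211111891141149cee],
    [0, 0x114418414c112c11212c828c1e1124144ac11148142842126c1e181461118ac11118a11116c16e,
    0x182182c1812812c16112412c1442412c1a142212c1112112c1ae, 0,
    0x842118981188298418419e812812981181498118819e611411291811611191291118a311112914431291111419ee212121221492112819e242248921111292112421c9e11288ee],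
    [0, 0x1481c8888ac1818268112ac16114464841cc14111a1242ac1a111261118ac1141461111ac1ce,
    0x8181c1111cc121141c1111cc121111c1111cc12e, 0x1214212142111141c115411d51d5cd1c1ccde2,
    0x185188989185418949185188c19e2311139891354111811c1914135c8f22212819222112192211228871111158911411148dee],
    [0, 0x112418414a818c18112c114c1e141464818ac14112c4411cc1a121161818cc11411a1111ac1ce,
    0x882882c1812812c16412482c1142142c1a142212c1112112c16e, 0,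
    0x8118489812184884198428f811818981488491818819e61121849411218191111c11828b1121314191118191128fe212121128192128b2442489282124112428f11211294ee]]

noncomputable def n3714 : Ent := ⟨e3714, noF, [], [], []⟩

def c3714 : PLift (Cov.check n3714.C.D v3714 = true) := ⟨by decide +kernel⟩

def b3714 : PLift (entF (fidx ts) 400 3714 n3714 = true) := ⟨by decide +kernel⟩

theorem g3714 : GoodF (fidx ts) 400 3714 := GoodF.ofV v3714 n3714 c3714.down b3714.down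

/-- 6768444:2755/4 -/
noncomputable def e3715 : SCfg where
  D := {
    a := 7
    L := 11
    kp := 8
    inn := [(0, 1), (0, 6), (1, 0), (1, 2), (1, 3), (1, 5), (2, 1), (2, 3), (2, 4), (3, 1), (3, 2), (3,
      4), (3, 5), (4, 2), (4, 3), (5, 1), (5, 3), (6, 0)]
    mix := [(0, 0), (0, 1), (0, 2), (0, 3), (1, 0), (1, 3), (1, 4), (2, 0), (2, 5), (2, 6), (3, 7), (3,
      8), (3, 9), (3, 10), (4, 6), (4, 7), (5, 4), (5, 8), (6, 1), (6, 2), (6, 7)]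
    cl := [1, 4, 1, 2, 5, 6, 3, 0, 0, 7, 8]
    chq := [(0, 2), (2, 0), (2, 3), (2, 6), (3, 2), (6, 2)]
    rng := [(0, 1), (0, 5), (1, 0), (1, 7), (2, 3), (2, 7), (3, 2), (3, 4), (4, 3), (4, 8), (5, 0), (5,
      6), (6, 5), (6, 7), (7, 1), (7, 2), (7, 6), (7, 10), (8, 4), (8, 9), (9, 8), (9, 10), (10,
      7), (10, 9)]
    lev := [] }
  links := [[1, 7, 8, 6, 9, 10], [3, 2, 7, 0, 10, 11, 5], [12, 7, 1, 3, 4, 13], [14, 4, 2, 1, 5, 15, 16,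
    17], [2, 3, 14, 13], [1, 11, 15, 3], [0, 8, 14, 9]]
  P := {
    a := 7
    N := 18
    nb := [1986, 3245, 12442, 245814, 24588, 34826, 17153, 4359, 16577, 17473, 2563, 33826, 8324,
      20500, 140120, 67624, 163848, 81928]
    tri := [(0, 1, 7), (0, 1, 10), (0, 6, 8), (0, 6, 9), (0, 7, 8), (0, 9, 10), (1, 2, 3), (1, 2, 7),
      (1, 3, 5), (1, 5, 11), (1, 10, 11), (2, 3, 4), (2, 4, 13), (2, 7, 12), (2, 12, 13), (3, 4,
      14), (3, 5, 15), (3, 14, 17), (3, 15, 16), (3, 16, 17), (4, 13, 14), (5, 11, 15), (6, 8,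
      14), (6, 9, 14)]
    fin := [0, 1, 1, 3, 3, 3, 0, 0, 8, 0, 1, 11, 12, 13, 3, 3, 16, 17]
    chd := [(1, 3), (1, 12), (1, 13)]
    steps := [(0, 6), (0, 7), (0, 9), (1, 2), (1, 10), (3, 4), (3, 5), (3, 14), (3, 15)] }
  rep := [3, 0, 1, 13, 8, 11, 12, 16, 17]

noncomputable def v3715 : Cov.CovD where
  P := 3
  N := 6
  pl := [1, 4, 9, 10]
  lev := [⟨[], [], [(1, 1), (1, 2)], [4], [(0, 1, []), (2, 1, []), (3, 2, [0, 3, 6])]⟩,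
    ⟨[], [(0, 1), (0, 2)], [(1, 2)], [5], [(0, 1, []), (3, 2, [0, 3, 6])]⟩,
    ⟨[(0, 1)], [(0, 1), (1, 1), (1, 2), (1, 3), (1, 6)], [(1, 3), (1, 6), (3, 6)], [], [(0,
      1, []), (5, 6, [2]), (6, 3, [2])]⟩,
    ⟨[(0, 1), (1, 2)], [(1, 0), (1, 1), (1, 2), (2, 0), (2, 1), (2, 3), (2, 6)], [(0, 0)],
      [7, 8], [(7, 0, [2]), (8, 0, [2])]⟩,
    ⟨[(1, 2), (1, 3), (2, 3)], [(2, 0), (2, 1), (2, 3), (2, 6), (3, 0), (3, 3)], [(0, 3)],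
      [], [(6, 3, [2]), (7, 0, [2])]⟩,
    ⟨[(0, 1), (1, 2), (1, 3), (2, 3), (3, 4)], [(1, 0), (1, 1), (1, 2), (3, 0)], [], [5],
      [(8, 0, [2])]⟩,
    ⟨[(0, 1)], [(0, 0), (0, 1), (0, 2), (3, 0), (4, 0)], [(0, 1)], [4], [(2, 1, []), (7, 0,
      [2])]⟩]
  Ta := [((0, 1), 1, 4), ((0, 5), 1, 6), ((2, 3), 1, 2), ((2, 7), 1, 0), ((7, 1), 0, 4), ((7, 2),
    0, 1), ((7, 6), 0, 3), ((7, 10), 0, 8), ((8, 4), 0, 5), ((8, 9), 0, 7)]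
  Tb := [((0, 1, 5), 1, 4, 6), ((1, 0, 7), 4, 1, 0), ((2, 3, 7), 1, 2, 0), ((3, 2, 4), 2, 1, 5),
    ((4, 3, 8), 5, 2, 0), ((5, 0, 6), 6, 1, 3), ((6, 5, 7), 3, 6, 0), ((7, 1, 2), 0, 4, 1),
    ((7, 1, 6), 0, 4, 3), ((7, 1, 10), 0, 4, 8), ((7, 2, 6), 0, 1, 3), ((7, 2, 10), 0, 1, 8),
    ((7, 6, 10), 0, 3, 8), ((8, 4, 9), 0, 5, 7), ((9, 8, 10), 7, 0, 8), ((10, 7, 9), 8, 0,
    7)]
  Tc := [(2, 0, 3), (2, 0, 6), (2, 3, 6)]
  Td := [((0, 2), (7, 1), 4), ((0, 2), (7, 2), 1), ((0, 2), (7, 6), 3), ((0, 2), (7, 10), 8),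
    ((0, 2), (8, 4), 5), ((0, 2), (8, 9), 7), ((2, 0), (3, 2), 1), ((2, 0), (3, 4), 5), ((2,
    3), (3, 2), 1), ((2, 3), (3, 4), 5), ((2, 6), (3, 2), 1), ((2, 6), (3, 4), 5), ((3, 2),
    (6, 5), 6), ((3, 2), (6, 7), 0), ((6, 2), (5, 0), 1), ((6, 2), (5, 6), 3)]
  G := [[0, 0, 0xc1c166868ca1616e1c4646c161ac1a2ce1c1, 0,
    0x8484848284e88a84aa844884ee8424d1242411448442642ca24a42aa242824eec1d], [0,
    0x2122221a618428128281ae12288c82d4124241aa121222216a1424228e42dc,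
    0xc12c8c1aa1c18c8c8ac4c1ae1c14c1c1cc1e1,
    0x828282428282c8282cc88c22f1428242424242c4242cc44c22f1c,
    0x8484848884e88a48aa448284ee8424d14484444844e44a8c44844ee44c4ac4e19], [0, 0,
    0xc1a26c8c1ac261ae1c1a46c1a1aa1a16e1c1, 0,
    0x142411142411c414a21c81681ea824d6414641a21a41ec9d], [0, 0,
    0xc114c14c8c1ca3c12c18c4c1ae1c18c14c1e1, 0xc212c242c822dc482c212c41c81cc422fc21c21c2d1,
    0xc21c81c81ec4146c4841c484c41c41ac414eb1]]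

noncomputable def n3715 : Ent := ⟨e3715, noF, [], [], []⟩

def c3715 : PLift (Cov.check n3715.C.D v3715 = true) := ⟨by decide +kernel⟩

def b3715 : PLift (entF (fidx ts) 400 3715 n3715 = true) := ⟨by decide +kernel⟩

theorem g3715 : GoodF (fidx ts) 400 3715 := GoodF.ofV v3715 n3715 c3715.down b3715.down

/-- 6768444:2755 -/
noncomputable def e3716 : SCfg where
  D := {
    a := 7
    L := 12
    kp := 9
    inn := [(0, 1), (0, 6), (1, 0), (1, 2), (1, 3), (1, 5), (2, 1), (2, 3), (2, 4), (3, 1), (3, 2), (3,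
      4), (3, 5), (4, 2), (4, 3), (5, 1), (5, 3), (6, 0)]
    mix := [(0, 0), (0, 1), (0, 2), (0, 3), (1, 0), (1, 3), (1, 4), (2, 0), (2, 5), (2, 6), (3, 7), (3,
      8), (3, 9), (3, 10), (4, 6), (4, 7), (5, 4), (5, 8), (6, 1), (6, 2), (6, 11)]
    cl := [0, 1, 2, 0, 5, 7, 4, 3, 3, 8, 9, 6]
    chq := [(0, 3), (0, 4), (0, 6), (3, 0), (4, 0), (6, 0)]
    rng := [(0, 1), (0, 5), (1, 0), (1, 11), (2, 3), (2, 11), (3, 2), (3, 4), (4, 3), (4, 8), (5, 0),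
      (5, 6), (6, 5), (6, 7), (7, 6), (7, 10), (8, 4), (8, 9), (9, 8), (9, 10), (10, 7), (10, 9),
      (11, 1), (11, 2)]
    lev := [] }
  links := [[1, 7, 8, 6, 9, 10], [3, 2, 7, 0, 10, 11, 5], [12, 7, 1, 3, 4, 13], [14, 4, 2, 1, 5, 15, 16,
    17], [2, 3, 14, 13], [1, 11, 15, 3], [0, 8, 18, 9]]
  P := {
    a := 7
    N := 19
    nb := [1986, 3245, 12442, 245814, 24588, 34826, 262913, 4359, 262337, 263233, 2563, 33826, 8324,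
      20500, 139288, 67624, 163848, 81928, 832]
    tri := [(0, 1, 7), (0, 1, 10), (0, 6, 8), (0, 6, 9), (0, 7, 8), (0, 9, 10), (1, 2, 3), (1, 2, 7),
      (1, 3, 5), (1, 5, 11), (1, 10, 11), (2, 3, 4), (2, 4, 13), (2, 7, 12), (2, 12, 13), (3, 4,
      14), (3, 5, 15), (3, 14, 17), (3, 15, 16), (3, 16, 17), (4, 13, 14), (5, 11, 15), (6, 8,
      18), (6, 9, 18)]
    fin := [0, 0, 0, 3, 0, 0, 0, 0, 8, 9, 0, 11, 12, 13, 3, 3, 16, 17, 18]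
    chd := [(0, 3), (0, 13), (0, 18)]
    steps := [(0, 1), (0, 2), (0, 4), (0, 5), (0, 6), (0, 7), (0, 10), (3, 15), (3, 14)] }
  rep := [0, 8, 9, 3, 13, 11, 18, 12, 16, 17]

noncomputable def v3716 : Cov.CovD where
  P := 3
  N := 7
  pl := [1, 2, 4, 5, 9, 10]
  lev := [⟨[], [], [(0, 0)], [1, 2], [(0, 0, [3, 4, 6]), (3, 0, [3, 4, 6])]⟩,
    ⟨[], [(0, 0)], [(0, 0)], [5], [(0, 0, [3, 4, 6]), (3, 0, [3, 4, 6])]⟩,
    ⟨[(0, 1)], [(0, 0), (1, 0), (1, 4)], [(0, 4)], [7], [(0, 0, [3, 4, 6]), (6, 4, [0])]⟩,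
    ⟨[(0, 1), (1, 2)], [(1, 0), (1, 3), (2, 0), (2, 3), (2, 4)], [(3, 3)], [8, 9], [(7, 3,
      [0]), (8, 3, [0])]⟩,
    ⟨[(1, 2), (1, 3), (2, 3)], [(2, 0), (2, 3), (2, 4), (3, 3), (3, 4)], [(3, 4)], [], [(6,
      4, [0]), (7, 3, [0])]⟩,
    ⟨[(0, 1), (1, 2), (1, 3), (2, 3), (3, 4)], [(1, 0), (1, 3), (3, 3)], [], [5], [(8, 3,
      [0])]⟩,
    ⟨[(0, 1)], [(0, 0), (0, 6)], [], [1, 2], [(11, 6, [0])]⟩]
  Ta := [((0, 1), 0, 1), ((0, 5), 0, 7), ((3, 2), 0, 2), ((3, 4), 0, 5), ((7, 6), 3, 4), ((7,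
    10), 3, 9), ((8, 4), 3, 5), ((8, 9), 3, 8)]
  Tb := [((0, 1, 5), 0, 1, 7), ((1, 0, 11), 1, 0, 6), ((2, 3, 11), 2, 0, 6), ((3, 2, 4), 0, 2,
    5), ((4, 3, 8), 5, 0, 3), ((5, 0, 6), 7, 0, 4), ((6, 5, 7), 4, 7, 3), ((7, 6, 10), 3, 4,
    9), ((8, 4, 9), 3, 5, 8), ((9, 8, 10), 8, 3, 9), ((10, 7, 9), 9, 3, 8), ((11, 1, 2), 6,
    1, 2)]
  Tc := [(0, 3, 4), (0, 3, 6), (0, 4, 6)]
  Td := [((0, 3), (0, 1), 1), ((0, 3), (0, 5), 7), ((0, 3), (3, 2), 2), ((0, 3), (3, 4), 5), ((0,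
    4), (0, 1), 1), ((0, 4), (0, 5), 7), ((0, 4), (3, 2), 2), ((0, 4), (3, 4), 5), ((0, 6),
    (0, 1), 1), ((0, 6), (0, 5), 7), ((0, 6), (3, 2), 2), ((0, 6), (3, 4), 5), ((3, 0), (7,
    6), 4), ((3, 0), (7, 10), 9), ((3, 0), (8, 4), 5), ((3, 0), (8, 9), 8), ((4, 0), (6, 5),
    7), ((4, 0), (6, 7), 3), ((6, 0), (11, 1), 1), ((6, 0), (11, 2), 2)]
  G := [[0,
    0xc11c11c18bc11c11cca1bc11c21c11c1c23fec11c48cc11c11c81c14fc6c11c21cc617c114c11c11c11c21fe8c,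
    0,
    0x1111111114571112611118111111189f181121a111182111112fe111111111181f111111141d1111111111c5dee8,
    0x11111111471111111112376111111111181f1111111a99111111121be11118111111189f114111111e111141cee8],
    [0,
    0xc11c11c21ec11c11c11ccc1fa4c11c1c453c11c11c11ccc1fc112ec11c11c1c29dc11c11c11c1c23fc11c11c1c1cdeac,
    0,
    0x111121111237111111111457611111111111c1f1811111111ab111111ae11111111111129f111111c1111111111cdee8,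
    0x11112161112611111111111145f1111111111ab11111111111c1fe11111111111116f18111111a1d1111111111cdee8],
    [0, 0, 0xc11c1c1c2b9c12c129c18c1c1aa74cc611c141c1c16c1c166dc181ccc11c1c1cc1c1ccbac,
    0x14112111617141141141b111112514211341152ef1111111111cb11229111411111111145b11511411111c9d1158114cfe4,
    0x112111411526311111111111189f18111118183b111181111ee181181181711118118145b1811111111c9d11581194cfe8],
    [0, 0, 0xccc11cc611c4c1cc18c14ebcca11c1c231c1c1ac12c18ed6ccc11cca11c14c12678c,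
    0x14211111146711111811189d1418a1418c6d111111113183b1188311111112116d118111116171111c1119186112118efe4,
    0x11841182611111111146d1121118a31111418c918411921418cef11111111123b1811112391111111c5111861211a114efe8]]

noncomputable def n3716 : Ent := ⟨e3716, noF, [], [], [(18, 15, [30043303743560609943363489672228383201502815964625156830093234214869139457, 0]), (18, 16, [30044166145917083758165358922957084778673075396561391926765295767464185857, 0]), (18, 17, [31810150492402119267275227079217218666319002904815489586567506653228834817, 0]), (18, 14, [30043303427726578972524504956108985724401353414501291620047999193395507201, 0])]⟩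

def c3716 : PLift (Cov.check n3716.C.D v3716 = true) := ⟨by decide +kernel⟩

def b3716 : PLift (entF (fidx ts) 400 3716 n3716 = true) := ⟨by decide +kernel⟩

theorem g3716 : GoodF (fidx ts) 400 3716 := GoodF.ofV v3716 n3716 c3716.down b3716.down

/-- 8566444:2757/1 -/
noncomputable def e3717 : SCfg where
  D := {
    a := 7
    L := 11
    kp := 8
    inn := [(0, 1), (0, 2), (0, 3), (0, 4), (1, 0), (1, 4), (2, 0), (2, 5), (3, 0), (3, 6), (4, 0), (4,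
      1), (5, 2), (6, 3)]
    mix := [(0, 0), (0, 1), (0, 2), (0, 3), (1, 1), (1, 4), (1, 5), (2, 2), (2, 3), (2, 6), (2, 7), (3,
      0), (3, 3), (3, 8), (3, 9), (4, 0), (4, 4), (5, 2), (5, 6), (5, 10), (6, 0), (6, 4), (6, 9)]
    cl := [0, 2, 0, 0, 1, 5, 3, 6, 7, 4, 8]
    chq := [(0, 3), (0, 4), (0, 5), (3, 0), (4, 0), (5, 0)]
    rng := [(0, 4), (1, 2), (1, 5), (2, 1), (2, 10), (3, 7), (3, 8), (4, 0), (4, 5), (4, 9), (5, 1),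
      (5, 4), (6, 7), (6, 10), (7, 3), (7, 6), (8, 3), (8, 9), (9, 4), (9, 8), (10, 2), (10, 6)]
    lev := [] }
  links := [[7, 4, 1, 8, 9, 2, 10, 3], [8, 0, 4, 11, 12], [10, 0, 9, 5, 13, 14], [7, 0, 10, 15, 16, 6],
    [0, 7, 11, 1], [2, 9, 17, 13], [3, 16, 11, 7]]
  P := {
    a := 7
    N := 18
    nb := [1950, 6417, 26145, 99521, 2179, 139780, 67720, 2137, 4611, 131365, 49165, 69842, 2306,
      147492, 9220, 66568, 34888, 8736]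
    tri := [(0, 1, 4), (0, 1, 8), (0, 2, 9), (0, 2, 10), (0, 3, 7), (0, 3, 10), (0, 4, 7), (0, 8, 9),
      (1, 4, 11), (1, 8, 12), (1, 11, 12), (2, 5, 9), (2, 5, 13), (2, 10, 14), (2, 13, 14), (3, 6,
      7), (3, 6, 16), (3, 10, 15), (3, 15, 16), (4, 7, 11), (5, 9, 17), (5, 13, 17), (6, 7, 11),
      (6, 11, 16)]
    fin := [0, 0, 0, 0, 0, 0, 0, 0, 8, 0, 0, 11, 12, 13, 14, 15, 16, 17]
    chd := [(0, 12), (0, 13), (0, 16)]
    steps := [(0, 1), (0, 2), (0, 3), (0, 4), (0, 5), (0, 7), (0, 6), (0, 9), (0, 10)] }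
  rep := [0, 11, 8, 13, 16, 12, 14, 15, 17]

noncomputable def v3717 : Cov.CovD where
  P := 3
  N := 6
  pl := [1, 4, 7, 8, 10]
  lev := [⟨[], [], [(0, 0)], [2], [(0, 0, [3, 4, 5]), (2, 0, [3, 4, 5]), (3, 0, [3, 4, 5])]⟩,
    ⟨[], [(0, 0), (0, 5)], [], [1, 2], [(5, 5, [0])]⟩,
    ⟨[(0, 1)], [(0, 0), (0, 3)], [(0, 0), (0, 3)], [6], [(2, 0, [3, 4, 5]), (3, 0, [3, 4,
      5]), (6, 3, [0])]⟩,
    ⟨[(0, 1), (0, 2)], [(0, 0), (0, 4), (2, 0)], [(0, 0), (0, 4)], [7], [(0, 0, [3, 4, 5]),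
      (3, 0, [3, 4, 5]), (9, 4, [0])]⟩,
    ⟨[(0, 1), (0, 2), (0, 3)], [(0, 0), (1, 0), (1, 5), (3, 0)], [], [1], [(0, 0, [3, 4,
      5])]⟩,
    ⟨[(0, 2)], [(0, 0), (2, 0), (2, 3)], [(0, 3)], [8], [(2, 0, [3, 4, 5]), (6, 3, [0])]⟩,
    ⟨[(0, 3)], [(0, 0), (3, 0), (3, 4), (4, 0)], [(0, 4)], [1], [(0, 0, [3, 4, 5]), (9, 4,
      [0])]⟩]
  Ta := [((0, 4), 0, 1), ((2, 1), 0, 2), ((2, 10), 0, 8), ((3, 7), 0, 6), ((3, 8), 0, 7)]
  Tb := [((1, 2, 5), 2, 0, 5), ((2, 1, 10), 0, 2, 8), ((3, 7, 8), 0, 6, 7), ((4, 0, 5), 1, 0, 5),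
    ((4, 0, 9), 1, 0, 4), ((4, 5, 9), 1, 5, 4), ((5, 1, 4), 5, 2, 1), ((6, 7, 10), 3, 6, 8),
    ((7, 3, 6), 6, 0, 3), ((8, 3, 9), 7, 0, 4), ((9, 4, 8), 4, 1, 7), ((10, 2, 6), 8, 0, 3)]
  Tc := [(0, 3, 4), (0, 3, 5), (0, 4, 5)]
  Td := [((0, 3), (0, 4), 1), ((0, 3), (2, 1), 2), ((0, 3), (2, 10), 8), ((0, 3), (3, 7), 6),
    ((0, 3), (3, 8), 7), ((0, 4), (0, 4), 1), ((0, 4), (2, 1), 2), ((0, 4), (2, 10), 8), ((0,
    4), (3, 7), 6), ((0, 4), (3, 8), 7), ((0, 5), (0, 4), 1), ((0, 5), (2, 1), 2), ((0, 5),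
    (2, 10), 8), ((0, 5), (3, 7), 6), ((0, 5), (3, 8), 7), ((3, 0), (6, 7), 6), ((3, 0), (6,
    10), 8), ((4, 0), (9, 4), 1), ((4, 0), (9, 8), 7), ((5, 0), (5, 1), 2), ((5, 0), (5, 4),
    1)]
  G := [[0, 0x4122146412464122146614418218e4122126ec812a18214e8188812218ae81888188acc, 0,
    0x44341c5464458444981c386e18894818381c98a88548e1c,
    0x1c342218898444d81c94e1834444d8cc54e8858418ce1a], [0, 0,
    0x111e4114e4111e8e24881e4111e8111e4e28888e1444e1111e8e888e1444e1111e4ec818e4444e1111e8e888e1441e8111e4ecce,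
    0x111e4444e41114f8e41888e4111e81114f8e888e81118f8111e8ea1c,
    0x111e4444e4559e8e111e4444e8c114f8e61188e8444e81118f4e81a], [0, 0, 0,
    0x119444541954e44381134661883411981998e88588a1c,
    0x11382211834414b41198e8854444e41154e8898414ce1a]]

noncomputable def n3717 : Ent := ⟨e3717, noF, [], [], []⟩

def c3717 : PLift (Cov.check n3717.C.D v3717 = true) := ⟨by decide +kernel⟩

def b3717 : PLift (entF (fidx ts) 400 3717 n3717 = true) := ⟨by decide +kernel⟩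

theorem g3717 : GoodF (fidx ts) 400 3717 := GoodF.ofV v3717 n3717 c3717.down b3717.down

/-- 8566444:2757 -/
noncomputable def e3718 : SCfg where
  D := {
    a := 7
    L := 12
    kp := 9
    inn := [(0, 1), (0, 2), (0, 3), (0, 4), (1, 0), (1, 4), (2, 0), (2, 5), (3, 0), (3, 6), (4, 0), (4,
      1), (5, 2), (6, 3)]
    mix := [(0, 0), (0, 1), (0, 2), (0, 3), (1, 1), (1, 4), (1, 5), (2, 2), (2, 3), (2, 6), (2, 7), (3,
      0), (3, 3), (3, 8), (3, 9), (4, 0), (4, 4), (5, 2), (5, 6), (5, 10), (6, 0), (6, 9), (6,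
      11)]
    cl := [0, 1, 0, 0, 2, 5, 3, 8, 6, 4, 9, 7]
    chq := [(0, 3), (0, 5), (3, 0), (5, 0), (6, 7), (7, 6)]
    rng := [(0, 4), (0, 11), (1, 2), (1, 5), (2, 1), (2, 10), (3, 7), (3, 8), (4, 0), (4, 5), (5, 1),
      (5, 4), (6, 7), (6, 10), (7, 3), (7, 6), (8, 3), (8, 9), (9, 8), (9, 11), (10, 2), (10, 6),
      (11, 0), (11, 9)]
    lev := [] }
  links := [[7, 4, 1, 8, 9, 2, 10, 3], [8, 0, 4, 11, 12], [10, 0, 9, 5, 13, 14], [7, 0, 10, 15, 16, 6],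
    [0, 7, 11, 1], [2, 9, 17, 13], [3, 16, 18, 7]]
  P := {
    a := 7
    N := 19
    nb := [1950, 6417, 26145, 99521, 2179, 139780, 327816, 264281, 4611, 131365, 49165, 4242, 2306,
      147492, 9220, 66568, 294984, 8736, 65728]
    tri := [(0, 1, 4), (0, 1, 8), (0, 2, 9), (0, 2, 10), (0, 3, 7), (0, 3, 10), (0, 4, 7), (0, 8, 9),
      (1, 4, 11), (1, 8, 12), (1, 11, 12), (2, 5, 9), (2, 5, 13), (2, 10, 14), (2, 13, 14), (3, 6,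
      7), (3, 6, 16), (3, 10, 15), (3, 15, 16), (4, 7, 11), (5, 9, 17), (5, 13, 17), (6, 7, 18),
      (6, 16, 18)]
    fin := [0, 0, 0, 3, 0, 0, 3, 0, 8, 0, 0, 11, 12, 13, 14, 3, 16, 17, 18]
    chd := [(0, 12), (0, 13), (3, 18)]
    steps := [(0, 1), (0, 2), (0, 4), (0, 5), (0, 7), (0, 9), (0, 10), (3, 6), (3, 15)] }
  rep := [0, 8, 11, 13, 16, 12, 3, 18, 14, 17]

noncomputable def v3718 : Cov.CovD where
  P := 3
  N := 7
  pl := [1, 4, 7, 9, 10]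
  lev := [⟨[], [], [(0, 0)], [1], [(0, 0, [3, 5]), (2, 0, [3, 5]), (3, 0, [3, 5])]⟩,
    ⟨[], [(0, 0), (0, 5)], [], [1, 2], [(5, 5, [0])]⟩,
    ⟨[(0, 1)], [(0, 0), (0, 3)], [(0, 0), (0, 3)], [8], [(2, 0, [3, 5]), (3, 0, [3, 5]),
      (6, 3, [0])]⟩,
    ⟨[(0, 1), (0, 2)], [(0, 0), (0, 6), (2, 0)], [(0, 0), (0, 6)], [4], [(0, 0, [3, 5]),
      (3, 0, [3, 5]), (8, 6, [7])]⟩,
    ⟨[(0, 1), (0, 2), (0, 3)], [(0, 0), (1, 0), (1, 5), (3, 0)], [], [2], [(0, 0, [3, 5])]⟩,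
    ⟨[(0, 2)], [(0, 0), (2, 0), (2, 3)], [(0, 3)], [9], [(2, 0, [3, 5]), (6, 3, [0])]⟩,
    ⟨[(0, 3)], [(0, 0), (3, 0), (3, 6), (3, 7), (4, 0)], [(0, 7)], [4], [(0, 0, [3, 5]),
      (11, 7, [6])]⟩]
  Ta := [((0, 4), 0, 2), ((0, 11), 0, 7), ((2, 1), 0, 1), ((2, 10), 0, 9), ((3, 7), 0, 8), ((3,
    8), 0, 6)]
  Tb := [((0, 4, 11), 0, 2, 7), ((1, 2, 5), 1, 0, 5), ((2, 1, 10), 0, 1, 9), ((3, 7, 8), 0, 8,
    6), ((4, 0, 5), 2, 0, 5), ((5, 1, 4), 5, 1, 2), ((6, 7, 10), 3, 8, 9), ((7, 3, 6), 8, 0,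
    3), ((8, 3, 9), 6, 0, 4), ((9, 8, 11), 4, 6, 7), ((10, 2, 6), 9, 0, 3), ((11, 0, 9), 7,
    0, 4)]
  Tc := [(0, 3, 5)]
  Td := [((0, 3), (0, 4), 2), ((0, 3), (0, 11), 7), ((0, 3), (2, 1), 1), ((0, 3), (2, 10), 9),
    ((0, 3), (3, 7), 8), ((0, 3), (3, 8), 6), ((0, 5), (0, 4), 2), ((0, 5), (0, 11), 7), ((0,
    5), (2, 1), 1), ((0, 5), (2, 10), 9), ((0, 5), (3, 7), 8), ((0, 5), (3, 8), 6), ((3, 0),
    (6, 7), 8), ((3, 0), (6, 10), 9), ((5, 0), (5, 1), 1), ((5, 0), (5, 4), 2), ((6, 7), (8,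
    3), 0), ((6, 7), (8, 9), 4), ((7, 6), (11, 0), 0), ((7, 6), (11, 9), 4)]
  G := [[0, 0, 0xa1444a14c126614a18c12e612a12c12eec618a12c14e612c12a612a18c12ee61288cc,
    0x81a7844116942a58cc38e36385c98a165431ab85c54ee1c,
    0x1aad8441d6521a98c1cb8e36381c98a66981a52cc32ee1c], [0,
    0x931e41b9e464666e1191e8c19e8e2c665e411ae8991e4e28161e8aaae1c15e8e516e48c111e83aae8cc5e4e161e8aaae1515e4ecce,
    0, 0x351e41aae8c15e4e41311e413ae895ce8e565e4aa9e8111e8ea1c,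
    0x655e2199e2c11e2e41611e89a3e81cce2e556e89a9e2111e8ea1c], [0, 0, 0,
    0x9154441633781198c998e3181938a555e89a381158ee1c,
    0x91223352a132c99d8e1132a3525cc78ee11392311e8c81c]]

noncomputable def n3718 : Ent := ⟨e3718, noF, [], [], [(11, 18, [30043303427623734937691929578474300150491519007939870628445900451936227329, 0])]⟩

def c3718 : PLift (Cov.check n3718.C.D v3718 = true) := ⟨by decide +kernel⟩

def b3718 : PLift (entF (fidx ts) 400 3718 n3718 = true) := ⟨by decide +kernel⟩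

theorem g3718 : GoodF (fidx ts) 400 3718 := GoodF.ofV v3718 n3718 c3718.down b3718.down

/-- 8566644:2759/2 -/
noncomputable def e3719 : SCfg where
  D := {
    a := 7
    L := 10
    kp := 7
    inn := [(0, 1), (0, 2), (0, 3), (0, 5), (1, 0), (1, 2), (1, 4), (1, 5), (2, 0), (2, 1), (2, 4), (3,
      0), (3, 6), (4, 1), (4, 2), (5, 0), (5, 1), (6, 3)]
    mix := [(0, 0), (0, 1), (0, 2), (0, 3), (1, 4), (2, 1), (2, 5), (2, 6), (3, 1), (3, 2), (3, 7), (3,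
      8), (4, 4), (4, 5), (4, 8), (4, 9), (5, 0), (5, 4), (6, 2), (6, 8), (6, 9)]
    cl := [2, 3, 3, 7, 0, 0, 5, 6, 1, 4]
    chq := [(2, 3), (2, 5), (3, 2), (4, 6), (5, 2), (6, 4)]
    rng := [(0, 3), (0, 4), (1, 6), (1, 7), (2, 3), (2, 9), (3, 0), (3, 2), (4, 0), (4, 8), (5, 6), (5,
      9), (6, 1), (6, 5), (7, 1), (7, 8), (8, 4), (8, 7), (8, 9), (9, 2), (9, 5), (9, 8)]
    lev := [] }
  links := [[7, 5, 1, 2, 8, 3, 9, 10], [2, 0, 5, 11, 4], [8, 0, 1, 4, 12, 13], [9, 0, 8, 14, 15, 6], [12,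
    2, 1, 11, 15, 16], [0, 7, 11, 1], [3, 15, 16, 9]]
  P := {
    a := 7
    N := 17
    nb := [1966, 2101, 12563, 49985, 104454, 2179, 98824, 3105, 24589, 66633, 641, 32946, 73748, 4356,
      33032, 84056, 37456]
    tri := [(0, 1, 2), (0, 1, 5), (0, 2, 8), (0, 3, 8), (0, 3, 9), (0, 5, 7), (0, 7, 10), (0, 9, 10),
      (1, 2, 4), (1, 4, 11), (1, 5, 11), (2, 4, 12), (2, 8, 13), (2, 12, 13), (3, 6, 9), (3, 6,
      15), (3, 8, 14), (3, 14, 15), (4, 11, 15), (4, 12, 16), (4, 15, 16), (5, 7, 11), (6, 9, 16),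
      (6, 15, 16)]
    fin := [0, 1, 1, 3, 4, 1, 3, 1, 0, 0, 10, 4, 4, 13, 14, 15, 3]
    chd := [(1, 0), (1, 13), (14, 3)]
    steps := [(0, 8), (0, 9), (1, 2), (1, 5), (1, 7), (3, 6), (3, 16), (4, 11), (4, 12)] }
  rep := [4, 15, 1, 0, 3, 13, 14, 10]

noncomputable def v3719 : Cov.CovD where
  P := 3
  N := 5
  pl := [3, 8]
  lev := [⟨[], [], [(2, 3), (3, 3)], [7], [(0, 2, [3, 5]), (1, 3, [2]), (2, 3, [2])]⟩,
    ⟨[], [(0, 0), (0, 2), (0, 3)], [], [], [(4, 0, [])]⟩,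
    ⟨[(0, 1)], [(0, 0), (0, 2), (0, 3), (0, 5), (1, 0), (1, 3), (1, 5)], [(0, 3), (0, 5),
      (3, 5)], [], [(1, 3, [2]), (5, 0, []), (6, 5, [2])]⟩,
    ⟨[(0, 1), (0, 2)], [(0, 2), (0, 3), (0, 6), (2, 3)], [(3, 3), (3, 6)], [1], [(1, 3,
      [2]), (2, 3, [2]), (7, 6, [4])]⟩,
    ⟨[(0, 1), (0, 2), (1, 2)], [(1, 0), (1, 4), (2, 0), (2, 3), (2, 4), (2, 5)], [(0, 0),
      (0, 4)], [1], [(4, 0, []), (5, 0, []), (9, 4, [6])]⟩,
    ⟨[(0, 1), (0, 2), (0, 3), (1, 2), (1, 4)], [(0, 0), (0, 2), (0, 3), (1, 0), (1, 2), (4,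
      0)], [(0, 2)], [], [(0, 2, [3, 5]), (4, 0, [])]⟩,
    ⟨[(0, 3)], [(0, 3), (3, 3), (3, 4), (3, 6), (4, 4)], [(3, 4)], [1], [(2, 3, [2]), (9,
      4, [6])]⟩]
  Ta := [((1, 6), 3, 5), ((1, 7), 3, 6), ((2, 3), 3, 7), ((2, 9), 3, 4), ((4, 0), 0, 2), ((4, 8),
    0, 1), ((5, 6), 0, 5), ((5, 9), 0, 4)]
  Tb := [((0, 3, 4), 2, 7, 0), ((1, 6, 7), 3, 5, 6), ((2, 3, 9), 3, 7, 4), ((3, 0, 2), 7, 2, 3),
    ((4, 0, 8), 0, 2, 1), ((5, 6, 9), 0, 5, 4), ((6, 1, 5), 5, 3, 0), ((7, 1, 8), 6, 3, 1),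
    ((8, 4, 7), 1, 0, 6), ((8, 4, 9), 1, 0, 4), ((8, 7, 9), 1, 6, 4), ((9, 2, 5), 4, 3, 0),
    ((9, 2, 8), 4, 3, 1), ((9, 5, 8), 4, 0, 1)]
  Tc := [(2, 3, 5)]
  Td := [((2, 3), (0, 3), 7), ((2, 3), (0, 4), 0), ((2, 5), (0, 3), 7), ((2, 5), (0, 4), 0), ((3,
    2), (1, 6), 5), ((3, 2), (1, 7), 6), ((3, 2), (2, 3), 7), ((3, 2), (2, 9), 4), ((4, 6),
    (9, 2), 3), ((4, 6), (9, 5), 0), ((4, 6), (9, 8), 1), ((5, 2), (6, 1), 3), ((5, 2), (6,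
    5), 0), ((6, 4), (7, 1), 3), ((6, 4), (7, 8), 1)]
  G := [[0, 0x2428c48464428342448288a848e28284848448e24d, 0x1414c1889121812c144512184148184d18e,
    0x124148184d2144826184128848d288842a184148848d24d,
    0x424128c1448521848821848218481881885ca484828428d42f], [0,
    0x4422888488ce2242846244222228e684e288428c2444c8444ce28d,
    0x1212c1889141218c1845128214c1442c1214cd18e,
    0x124c88188d21444c8544866c44828144d288841818c43a1818c1418c8848cd24d,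
    0x424c88c4448444872484484c484988c1841d24848242448451288285cab], [0, 0, 0,
    0x414148484d24184818884d28184148484d24d,
    0x424988c444861414882114881842854848e81248184128488dc2f], [0, 0, 0,
    0x1454cc888814cd21c449818c544d218414c1444c8448cd28d,
    0x414c18c4444823414484184d414918418dc248482124124424d1884885cab]]

noncomputable def n3719 : Ent := ⟨e3719, noF, [], [], []⟩

def c3719 : PLift (Cov.check n3719.C.D v3719 = true) := ⟨by decide +kernel⟩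

def b3719 : PLift (entF (fidx ts) 400 3719 n3719 = true) := ⟨by decide +kernel⟩

theorem g3719 : GoodF (fidx ts) 400 3719 := GoodF.ofV v3719 n3719 c3719.down b3719.down

/-- 8566644:2759/1 -/
noncomputable def e3720 : SCfg where
  D := {
    a := 7
    L := 11
    kp := 8
    inn := [(0, 1), (0, 2), (0, 3), (0, 5), (1, 0), (1, 2), (1, 4), (1, 5), (2, 0), (2, 1), (2, 4), (3,
      0), (3, 6), (4, 1), (4, 2), (5, 0), (5, 1), (6, 3)]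
    mix := [(0, 0), (0, 1), (0, 2), (0, 3), (1, 4), (2, 1), (2, 5), (2, 6), (3, 1), (3, 2), (3, 7), (3,
      8), (4, 4), (4, 5), (4, 8), (4, 9), (5, 0), (5, 4), (6, 2), (6, 8), (6, 10)]
    cl := [2, 3, 3, 7, 0, 0, 4, 5, 1, 8, 6]
    chq := [(2, 3), (2, 4), (3, 2), (4, 2), (5, 6), (6, 5)]
    rng := [(0, 3), (0, 4), (1, 6), (1, 7), (2, 3), (2, 10), (3, 0), (3, 2), (4, 0), (4, 8), (5, 6),
      (5, 9), (6, 1), (6, 5), (7, 1), (7, 8), (8, 4), (8, 7), (8, 9), (8, 10), (9, 5), (9, 8),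
      (10, 2), (10, 8)]
    lev := [] }
  links := [[7, 5, 1, 2, 8, 3, 9, 10], [2, 0, 5, 11, 4], [8, 0, 1, 4, 12, 13], [9, 0, 8, 14, 15, 6], [12,
    2, 1, 11, 15, 16], [0, 7, 11, 1], [3, 15, 17, 9]]
  P := {
    a := 7
    N := 18
    nb := [1966, 2101, 12563, 49985, 104454, 2179, 164360, 3105, 24589, 132169, 641, 32946, 73748,
      4356, 33032, 215128, 36880, 33344]
    tri := [(0, 1, 2), (0, 1, 5), (0, 2, 8), (0, 3, 8), (0, 3, 9), (0, 5, 7), (0, 7, 10), (0, 9, 10),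
      (1, 2, 4), (1, 4, 11), (1, 5, 11), (2, 4, 12), (2, 8, 13), (2, 12, 13), (3, 6, 9), (3, 6,
      15), (3, 8, 14), (3, 14, 15), (4, 11, 15), (4, 12, 16), (4, 15, 16), (5, 7, 11), (6, 9, 17),
      (6, 15, 17)]
    fin := [0, 1, 1, 3, 4, 1, 3, 1, 0, 0, 10, 4, 4, 13, 3, 15, 16, 17]
    chd := [(1, 0), (1, 13), (3, 17)]
    steps := [(0, 8), (0, 9), (1, 2), (1, 5), (1, 7), (3, 6), (3, 14), (4, 11), (4, 12)] }
  rep := [4, 15, 1, 0, 13, 3, 17, 10, 16]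

noncomputable def v3720 : Cov.CovD where
  P := 3
  N := 6
  pl := [3, 8, 9]
  lev := [⟨[], [], [(2, 3), (3, 3)], [7], [(0, 2, [3, 4]), (1, 3, [2]), (2, 3, [2])]⟩,
    ⟨[], [(0, 0), (0, 2), (0, 3)], [], [], [(4, 0, [])]⟩,
    ⟨[(0, 1)], [(0, 0), (0, 2), (0, 3), (0, 4), (1, 0), (1, 3), (1, 4)], [(0, 3), (0, 4),
      (3, 4)], [], [(1, 3, [2]), (5, 0, []), (6, 4, [2])]⟩,
    ⟨[(0, 1), (0, 2)], [(0, 2), (0, 3), (0, 5), (2, 3)], [(3, 3), (3, 5)], [1], [(1, 3,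
      [2]), (2, 3, [2]), (7, 5, [6])]⟩,
    ⟨[(0, 1), (0, 2), (1, 2)], [(1, 0), (2, 0), (2, 3), (2, 4)], [(0, 0)], [1, 8], [(4, 0,
      []), (5, 0, [])]⟩,
    ⟨[(0, 1), (0, 2), (0, 3), (1, 2), (1, 4)], [(0, 0), (0, 2), (0, 3), (1, 0), (1, 2), (4,
      0)], [(0, 2)], [], [(0, 2, [3, 4]), (4, 0, [])]⟩,
    ⟨[(0, 3)], [(0, 3), (3, 3), (3, 5), (3, 6)], [(3, 6)], [1], [(2, 3, [2]), (10, 6,
      [5])]⟩]
  Ta := [((1, 6), 3, 4), ((1, 7), 3, 5), ((2, 3), 3, 7), ((2, 10), 3, 6), ((4, 0), 0, 2), ((4,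
    8), 0, 1), ((5, 6), 0, 4), ((5, 9), 0, 8)]
  Tb := [((0, 3, 4), 2, 7, 0), ((1, 6, 7), 3, 4, 5), ((2, 3, 10), 3, 7, 6), ((3, 0, 2), 7, 2, 3),
    ((4, 0, 8), 0, 2, 1), ((5, 6, 9), 0, 4, 8), ((6, 1, 5), 4, 3, 0), ((7, 1, 8), 5, 3, 1),
    ((8, 4, 7), 1, 0, 5), ((8, 4, 9), 1, 0, 8), ((8, 4, 10), 1, 0, 6), ((8, 7, 9), 1, 5, 8),
    ((8, 7, 10), 1, 5, 6), ((8, 9, 10), 1, 8, 6), ((9, 5, 8), 8, 0, 1), ((10, 2, 8), 6, 3,
    1)]
  Tc := [(2, 3, 4)]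
  Td := [((2, 3), (0, 3), 7), ((2, 3), (0, 4), 0), ((2, 4), (0, 3), 7), ((2, 4), (0, 4), 0), ((3,
    2), (1, 6), 4), ((3, 2), (1, 7), 5), ((3, 2), (2, 3), 7), ((3, 2), (2, 10), 6), ((4, 2),
    (6, 1), 3), ((4, 2), (6, 5), 0), ((5, 6), (7, 1), 3), ((5, 6), (7, 8), 1), ((6, 5), (10,
    2), 3), ((6, 5), (10, 8), 1)]
  G := [[0, 0x2482846448ce2428342424c8484ca888864384428c8488c8448ce24d,
    0x1212c5288c9141812c4244c5124814c8488c4844cd12e,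
    0x4412c1418c8448cd24448261418c1288c8448cd288842a4818c8818c8848cd24d,
    0x4212c8812cc8444144424972124888419212484281218cc184884c4288c1f812c8c4248c5844462f], [0,
    0x242224e8888ca24222828e4444c6282424c2428cc4c8ce28d,
    0x1212c8288c9141218c4248c5121412c1212cc8c2cd14e,
    0x4488488c8488cd21444c844481448764444c9298c4444cd298842a1418c1418cc8c8cd24d,
    0x424884c24242c8288cc46424924c48484842c1b4889888cc4612482492444124484d1284285cab], [0, 0,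
    0, 0x1444c8414c8484cd211448c1188c8484cd284444c8488c4444cd28d,
    0x12442454242c8188cc4148e242481281282c8888cd484184884de1124844912c2c4248c58444845e2b],
    [0, 0, 0, 0x5451c8181c8181cd244141c9198c4444cd281818c1818cc8c8cd24d,
    0x4242c8882cc424884844d6141448492414984484d4889888c488dc6124184484d1818c4248c5c2b]]

noncomputable def n3720 : Ent := ⟨e3720, noF, [], [], [(16, 17, [6903326391201334775872065844685381424292761054348340378595029944922113, 0])]⟩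

def c3720 : PLift (Cov.check n3720.C.D v3720 = true) := ⟨by decide +kernel⟩

def b3720 : PLift (entF (fidx ts) 400 3720 n3720 = true) := ⟨by decide +kernel⟩

theorem g3720 : GoodF (fidx ts) 400 3720 := GoodF.ofV v3720 n3720 c3720.down b3720.down

/-- 8566644:2759/4 -/
noncomputable def e3721 : SCfg where
  D := {
    a := 7
    L := 10
    kp := 7
    inn := [(0, 1), (0, 2), (0, 3), (0, 5), (1, 0), (1, 2), (1, 4), (1, 5), (2, 0), (2, 1), (2, 4), (3,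
      0), (3, 6), (4, 1), (4, 2), (5, 0), (5, 1), (6, 3)]
    mix := [(0, 0), (0, 1), (0, 2), (0, 3), (1, 4), (2, 1), (2, 5), (2, 6), (3, 1), (3, 2), (3, 7), (3,
      8), (4, 4), (4, 5), (4, 8), (4, 9), (5, 0), (5, 4), (6, 2), (6, 8), (6, 9)]
    cl := [2, 3, 3, 7, 0, 0, 5, 6, 1, 4]
    chq := [(2, 3), (2, 5), (3, 2), (4, 6), (5, 2), (6, 4)]
    rng := [(0, 3), (0, 4), (1, 6), (1, 7), (2, 3), (2, 9), (3, 0), (3, 2), (4, 0), (4, 9), (5, 6), (5,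
      8), (6, 1), (6, 5), (7, 1), (7, 8), (8, 5), (8, 7), (8, 9), (9, 2), (9, 4), (9, 8)]
    lev := [] }
  links := [[7, 5, 1, 2, 8, 3, 9, 10], [2, 0, 5, 11, 4], [8, 0, 1, 4, 12, 13], [9, 0, 8, 14, 15, 6], [12,
    2, 1, 11, 16, 15], [0, 7, 11, 1], [3, 15, 16, 9]]
  P := {
    a := 7
    N := 17
    nb := [1966, 2101, 12563, 49985, 104454, 2179, 98824, 3105, 24589, 66633, 641, 65714, 40980, 4356,
      33032, 86104, 35408]
    tri := [(0, 1, 2), (0, 1, 5), (0, 2, 8), (0, 3, 8), (0, 3, 9), (0, 5, 7), (0, 7, 10), (0, 9, 10),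
      (1, 2, 4), (1, 4, 11), (1, 5, 11), (2, 4, 12), (2, 8, 13), (2, 12, 13), (3, 6, 9), (3, 6,
      15), (3, 8, 14), (3, 14, 15), (4, 11, 16), (4, 12, 15), (4, 15, 16), (5, 7, 11), (6, 9, 16),
      (6, 15, 16)]
    fin := [0, 1, 1, 3, 4, 1, 3, 1, 0, 0, 10, 4, 4, 13, 14, 15, 3]
    chd := [(1, 0), (1, 13), (14, 3)]
    steps := [(0, 8), (0, 9), (1, 2), (1, 5), (1, 7), (3, 6), (3, 16), (4, 11), (4, 12)] }
  rep := [4, 15, 1, 0, 3, 13, 14, 10]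

noncomputable def v3721 : Cov.CovD where
  P := 3
  N := 5
  pl := [3, 8]
  lev := [⟨[], [], [(2, 3), (3, 3)], [7], [(0, 2, [3, 5]), (1, 3, [2]), (2, 3, [2])]⟩,
    ⟨[], [(0, 0), (0, 2), (0, 3)], [], [], [(4, 0, [])]⟩,
    ⟨[(0, 1)], [(0, 0), (0, 2), (0, 3), (0, 5), (1, 0), (1, 3), (1, 5)], [(0, 3), (0, 5),
      (3, 5)], [], [(1, 3, [2]), (5, 0, []), (6, 5, [2])]⟩,
    ⟨[(0, 1), (0, 2)], [(0, 2), (0, 3), (0, 6), (2, 3)], [(3, 3), (3, 6)], [1], [(1, 3,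
      [2]), (2, 3, [2]), (7, 6, [4])]⟩,
    ⟨[(0, 1), (0, 2), (1, 2)], [(1, 0), (1, 4), (2, 0), (2, 3), (2, 4), (2, 5)], [(0, 0),
      (0, 4)], [1], [(4, 0, []), (5, 0, []), (9, 4, [6])]⟩,
    ⟨[(0, 1), (0, 2), (0, 3), (1, 2), (1, 4)], [(0, 0), (0, 2), (0, 3), (1, 0), (1, 2), (4,
      0)], [(0, 2)], [], [(0, 2, [3, 5]), (4, 0, [])]⟩,
    ⟨[(0, 3)], [(0, 3), (3, 3), (3, 4), (3, 6), (4, 4)], [(3, 4)], [1], [(2, 3, [2]), (9,
      4, [6])]⟩]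
  Ta := [((1, 6), 3, 5), ((1, 7), 3, 6), ((2, 3), 3, 7), ((2, 9), 3, 4), ((4, 0), 0, 2), ((4, 9),
    0, 4), ((5, 6), 0, 5), ((5, 8), 0, 1)]
  Tb := [((0, 3, 4), 2, 7, 0), ((1, 6, 7), 3, 5, 6), ((2, 3, 9), 3, 7, 4), ((3, 0, 2), 7, 2, 3),
    ((4, 0, 9), 0, 2, 4), ((5, 6, 8), 0, 5, 1), ((6, 1, 5), 5, 3, 0), ((7, 1, 8), 6, 3, 1),
    ((8, 5, 7), 1, 0, 6), ((8, 5, 9), 1, 0, 4), ((8, 7, 9), 1, 6, 4), ((9, 2, 4), 4, 3, 0),
    ((9, 2, 8), 4, 3, 1), ((9, 4, 8), 4, 0, 1)]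
  Tc := [(2, 3, 5)]
  Td := [((2, 3), (0, 3), 7), ((2, 3), (0, 4), 0), ((2, 5), (0, 3), 7), ((2, 5), (0, 4), 0), ((3,
    2), (1, 6), 5), ((3, 2), (1, 7), 6), ((3, 2), (2, 3), 7), ((3, 2), (2, 9), 4), ((4, 6),
    (9, 2), 3), ((4, 6), (9, 4), 0), ((4, 6), (9, 8), 1), ((5, 2), (6, 1), 3), ((5, 2), (6,
    5), 0), ((6, 4), (7, 1), 3), ((6, 4), (7, 8), 1)]
  G := [[0, 0, 0x1444c1489121812c144512484188144d12e,
    0x124188484d2444826144828848d218842a184888484d24d,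
    0x424842483424528c46124882882854848e84448424128488dc2b], [0, 0,
    0x1414c1289121212c1445121218c1412c1812cd14e,
    0x4248848cc244481414c988936c449218c4418cd298842a8418c1448c8848cd24d,
    0x42482424c28c464848484988c1844845d212482444424444d1884242c5c6b], [0,
    0x244288884e21244288488e21484848884e28d, 0, 0x144188188d21184188148d21184148444d28d,
    0x424188c444861114888424818848854848e148481248c4842c5c2f], [0,
    0x2421c288a18e242828c6446218428c8448ca228248cd, 0,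
    0x1451cc48148d24c849818c144d211418c1418c8448cd24d,
    0x424c18828d4424823484484124d484988128dc112482424484424d1284cab]]

noncomputable def n3721 : Ent := ⟨e3721, noF, [], [], []⟩

def c3721 : PLift (Cov.check n3721.C.D v3721 = true) := ⟨by decide +kernel⟩

def b3721 : PLift (entF (fidx ts) 400 3721 n3721 = true) := ⟨by decide +kernel⟩

theorem g3721 : GoodF (fidx ts) 400 3721 := GoodF.ofV v3721 n3721 c3721.down b3721.down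

/-- 8566644:2759/3 -/
noncomputable def e3722 : SCfg where
  D := {
    a := 7
    L := 11
    kp := 8
    inn := [(0, 1), (0, 2), (0, 3), (0, 5), (1, 0), (1, 2), (1, 4), (1, 5), (2, 0), (2, 1), (2, 4), (3,
      0), (3, 6), (4, 1), (4, 2), (5, 0), (5, 1), (6, 3)]
    mix := [(0, 0), (0, 1), (0, 2), (0, 3), (1, 4), (2, 1), (2, 5), (2, 6), (3, 1), (3, 2), (3, 7), (3,
      8), (4, 4), (4, 5), (4, 9), (4, 10), (5, 0), (5, 4), (6, 2), (6, 8), (6, 9)]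
    cl := [3, 0, 0, 7, 1, 1, 5, 6, 4, 2, 8]
    chq := [(0, 3), (2, 6), (3, 0), (3, 5), (5, 3), (6, 2)]
    rng := [(0, 3), (0, 4), (1, 6), (1, 7), (2, 3), (2, 9), (3, 0), (3, 2), (4, 0), (4, 9), (5, 6), (5,
      10), (6, 1), (6, 5), (7, 1), (7, 8), (8, 7), (8, 9), (9, 2), (9, 4), (9, 8), (9, 10), (10,
      5), (10, 9)]
    lev := [] }
  links := [[7, 5, 1, 2, 8, 3, 9, 10], [2, 0, 5, 11, 4], [8, 0, 1, 4, 12, 13], [9, 0, 8, 14, 15, 6], [12,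
    2, 1, 11, 16, 17], [0, 7, 11, 1], [3, 15, 16, 9]]
  P := {
    a := 7
    N := 18
    nb := [1966, 2101, 12563, 49985, 202758, 2179, 98824, 3105, 24589, 66633, 641, 65714, 139284,
      4356, 33032, 81992, 166480, 69648]
    tri := [(0, 1, 2), (0, 1, 5), (0, 2, 8), (0, 3, 8), (0, 3, 9), (0, 5, 7), (0, 7, 10), (0, 9, 10),
      (1, 2, 4), (1, 4, 11), (1, 5, 11), (2, 4, 12), (2, 8, 13), (2, 12, 13), (3, 6, 9), (3, 6,
      15), (3, 8, 14), (3, 14, 15), (4, 11, 16), (4, 12, 17), (4, 16, 17), (5, 7, 11), (6, 9, 16),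
      (6, 15, 16)]
    fin := [0, 1, 1, 3, 4, 1, 3, 1, 0, 0, 10, 4, 4, 13, 14, 15, 3, 17]
    chd := [(1, 0), (1, 13), (14, 3)]
    steps := [(0, 8), (0, 9), (1, 2), (1, 5), (1, 7), (3, 6), (3, 16), (4, 11), (4, 12)] }
  rep := [0, 4, 3, 1, 15, 13, 14, 10, 17]

noncomputable def v3722 : Cov.CovD where
  P := 3
  N := 6
  pl := [3, 8, 10]
  lev := [⟨[], [], [(0, 0), (0, 3)], [7], [(0, 3, [0, 5]), (1, 0, [3]), (2, 0, [3])]⟩,
    ⟨[], [(0, 0), (0, 1), (0, 3)], [], [], [(4, 1, [])]⟩,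
    ⟨[(0, 1)], [(0, 0), (0, 1), (0, 3), (0, 5), (1, 0), (1, 1), (1, 5)], [(0, 1), (0, 5),
      (1, 5)], [], [(1, 0, [3]), (5, 1, []), (6, 5, [3])]⟩,
    ⟨[(0, 1), (0, 2)], [(0, 0), (0, 3), (0, 6), (2, 0)], [(0, 0), (0, 6)], [4], [(1, 0,
      [3]), (2, 0, [3]), (7, 6, [2])]⟩,
    ⟨[(0, 1), (0, 2), (1, 2)], [(1, 1), (1, 2), (2, 0), (2, 1), (2, 2), (2, 5)], [(1, 1),
      (1, 2)], [8], [(4, 1, []), (5, 1, []), (9, 2, [6])]⟩,
    ⟨[(0, 1), (0, 2), (0, 3), (1, 2), (1, 4)], [(0, 0), (0, 1), (0, 3), (1, 1), (1, 3), (4,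
      1)], [(1, 3)], [], [(0, 3, [0, 5]), (4, 1, [])]⟩,
    ⟨[(0, 3)], [(0, 0), (3, 0), (3, 2), (3, 6), (4, 2)], [(0, 2)], [4], [(2, 0, [3]), (9,
      2, [6])]⟩]
  Ta := [((1, 6), 0, 5), ((1, 7), 0, 6), ((2, 3), 0, 7), ((2, 9), 0, 2), ((4, 0), 1, 3), ((4, 9),
    1, 2), ((5, 6), 1, 5), ((5, 10), 1, 8)]
  Tb := [((0, 3, 4), 3, 7, 1), ((1, 6, 7), 0, 5, 6), ((2, 3, 9), 0, 7, 2), ((3, 0, 2), 7, 3, 0),
    ((4, 0, 9), 1, 3, 2), ((5, 6, 10), 1, 5, 8), ((6, 1, 5), 5, 0, 1), ((7, 1, 8), 6, 0, 4),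
    ((8, 7, 9), 4, 6, 2), ((9, 2, 4), 2, 0, 1), ((9, 2, 8), 2, 0, 4), ((9, 2, 10), 2, 0, 8),
    ((9, 4, 8), 2, 1, 4), ((9, 4, 10), 2, 1, 8), ((9, 8, 10), 2, 4, 8), ((10, 5, 9), 8, 1,
    2)]
  Tc := [(3, 0, 5)]
  Td := [((0, 3), (1, 6), 5), ((0, 3), (1, 7), 6), ((0, 3), (2, 3), 7), ((0, 3), (2, 9), 2), ((2,
    6), (9, 2), 0), ((2, 6), (9, 4), 1), ((2, 6), (9, 8), 4), ((2, 6), (9, 10), 8), ((3, 0),
    (0, 3), 7), ((3, 0), (0, 4), 1), ((3, 5), (0, 3), 7), ((3, 5), (0, 4), 1), ((5, 3), (6,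
    1), 0), ((5, 3), (6, 5), 1), ((6, 2), (7, 1), 0), ((6, 2), (7, 8), 4)]
  G := [[0,
    0x1212c8248c5898ce1414c4488c54c4ce628412c1282c9454ce8444c1888c14c18cea214428288c484184ec8482c4242c148e4881886cce,
    0, 0xc151c224c1515228915192c15892c4e,
    0x112199111981219e24818191111921219e282124911a1981819e818191818981819ec4e], [0,
    0x4142c4111c1151ce1111c4118c9154ce628441c8112c1151ce8144c8111c18c1cea211428181c4141c1118cec8482c4242c118e8ce,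
    0, 0, 0x211191131921219e42818191111921219e2188c2811491191984119e818191118981819ec4e], [0,
    0x44642c8848cc8c8ce4444c4888cc4c4ce628488cc44a28284c8282cc4c2ce8888cc886aac442884484c84ec8282c4242cc48e828488c88ecce,
    0x6161c4141c2121ce248181ca1a1c2121ce218181c4141cc1c1ce14e, 0xc1c1c214c1c1c228c1c1c218e,
    0x21219a1a1921219e2481819a1a1924219e28811a11811e811a11881e218a18818ed4e], [0,
    0x4141c4841cc1c1ce4444c4141cc4c8ce624481c8181cc1c1ce8141c8188cc1c4cea28181c4241cc1c1ce48181c4141cc4c1ce8ce,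
    0x6162c4241c2121ce148281ca2a1c2222ce188181c4141cc1c1ce18e, 0,
    0x21219a1a1928819e42821a21211e2218818a28228ed8841a11811e811a81811e218a18818ed4e]]

noncomputable def n3722 : Ent := ⟨e3722, noF, [], [], [(17, 15, [6903537015784671890245461680740748765157398844539141476817538566885377, 0])]⟩

def c3722 : PLift (Cov.check n3722.C.D v3722 = true) := ⟨by decide +kernel⟩

def b3722 : PLift (entF (fidx ts) 400 3722 n3722 = true) := ⟨by decide +kernel⟩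

theorem g3722 : GoodF (fidx ts) 400 3722 := GoodF.ofV v3722 n3722 c3722.down b3722.down

/-- 8566644:2759/5 -/
noncomputable def e3723 : SCfg where
  D := {
    a := 7
    L := 11
    kp := 8
    inn := [(0, 1), (0, 2), (0, 3), (0, 5), (1, 0), (1, 2), (1, 4), (1, 5), (2, 0), (2, 1), (2, 4), (3,
      0), (3, 6), (4, 1), (4, 2), (5, 0), (5, 1), (6, 3)]
    mix := [(0, 0), (0, 1), (0, 2), (0, 3), (1, 4), (2, 1), (2, 5), (2, 6), (3, 1), (3, 2), (3, 7), (3,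
      8), (4, 4), (4, 5), (4, 8), (4, 9), (5, 0), (5, 4), (6, 2), (6, 8), (6, 10)]
    cl := [2, 3, 3, 7, 0, 0, 4, 5, 1, 8, 6]
    chq := [(2, 3), (2, 4), (3, 2), (4, 2), (5, 6), (6, 5)]
    rng := [(0, 3), (0, 4), (1, 6), (1, 7), (2, 3), (2, 10), (3, 0), (3, 2), (4, 0), (4, 9), (5, 6),
      (5, 8), (6, 1), (6, 5), (7, 1), (7, 8), (8, 5), (8, 7), (8, 9), (8, 10), (9, 4), (9, 8),
      (10, 2), (10, 8)]
    lev := [] }
  links := [[7, 5, 1, 2, 8, 3, 9, 10], [2, 0, 5, 11, 4], [8, 0, 1, 4, 12, 13], [9, 0, 8, 14, 15, 6], [12,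
    2, 1, 11, 16, 15], [0, 7, 11, 1], [3, 15, 17, 9]]
  P := {
    a := 7
    N := 18
    nb := [1966, 2101, 12563, 49985, 104454, 2179, 164360, 3105, 24589, 132169, 641, 65714, 40980,
      4356, 33032, 217176, 34832, 33344]
    tri := [(0, 1, 2), (0, 1, 5), (0, 2, 8), (0, 3, 8), (0, 3, 9), (0, 5, 7), (0, 7, 10), (0, 9, 10),
      (1, 2, 4), (1, 4, 11), (1, 5, 11), (2, 4, 12), (2, 8, 13), (2, 12, 13), (3, 6, 9), (3, 6,
      15), (3, 8, 14), (3, 14, 15), (4, 11, 16), (4, 12, 15), (4, 15, 16), (5, 7, 11), (6, 9, 17),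
      (6, 15, 17)]
    fin := [0, 1, 1, 3, 4, 1, 3, 1, 0, 0, 10, 4, 4, 13, 3, 15, 16, 17]
    chd := [(1, 0), (1, 13), (3, 17)]
    steps := [(0, 8), (0, 9), (1, 2), (1, 5), (1, 7), (3, 6), (3, 14), (4, 11), (4, 12)] }
  rep := [4, 15, 1, 0, 13, 3, 17, 10, 16]

noncomputable def v3723 : Cov.CovD where
  P := 3
  N := 6
  pl := [3, 8, 9]
  lev := [⟨[], [], [(2, 3), (3, 3)], [7], [(0, 2, [3, 4]), (1, 3, [2]), (2, 3, [2])]⟩,
    ⟨[], [(0, 0), (0, 2), (0, 3)], [], [], [(4, 0, [])]⟩,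
    ⟨[(0, 1)], [(0, 0), (0, 2), (0, 3), (0, 4), (1, 0), (1, 3), (1, 4)], [(0, 3), (0, 4),
      (3, 4)], [], [(1, 3, [2]), (5, 0, []), (6, 4, [2])]⟩,
    ⟨[(0, 1), (0, 2)], [(0, 2), (0, 3), (0, 5), (2, 3)], [(3, 3), (3, 5)], [1], [(1, 3,
      [2]), (2, 3, [2]), (7, 5, [6])]⟩,
    ⟨[(0, 1), (0, 2), (1, 2)], [(1, 0), (2, 0), (2, 3), (2, 4)], [(0, 0)], [1, 8], [(4, 0,
      []), (5, 0, [])]⟩,
    ⟨[(0, 1), (0, 2), (0, 3), (1, 2), (1, 4)], [(0, 0), (0, 2), (0, 3), (1, 0), (1, 2), (4,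
      0)], [(0, 2)], [], [(0, 2, [3, 4]), (4, 0, [])]⟩,
    ⟨[(0, 3)], [(0, 3), (3, 3), (3, 5), (3, 6)], [(3, 6)], [1], [(2, 3, [2]), (10, 6,
      [5])]⟩]
  Ta := [((1, 6), 3, 4), ((1, 7), 3, 5), ((2, 3), 3, 7), ((2, 10), 3, 6), ((4, 0), 0, 2), ((4,
    9), 0, 8), ((5, 6), 0, 4), ((5, 8), 0, 1)]
  Tb := [((0, 3, 4), 2, 7, 0), ((1, 6, 7), 3, 4, 5), ((2, 3, 10), 3, 7, 6), ((3, 0, 2), 7, 2, 3),
    ((4, 0, 9), 0, 2, 8), ((5, 6, 8), 0, 4, 1), ((6, 1, 5), 4, 3, 0), ((7, 1, 8), 5, 3, 1),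
    ((8, 5, 7), 1, 0, 5), ((8, 5, 9), 1, 0, 8), ((8, 5, 10), 1, 0, 6), ((8, 7, 9), 1, 5, 8),
    ((8, 7, 10), 1, 5, 6), ((8, 9, 10), 1, 8, 6), ((9, 4, 8), 8, 0, 1), ((10, 2, 8), 6, 3,
    1)]
  Tc := [(2, 3, 4)]
  Td := [((2, 3), (0, 3), 7), ((2, 3), (0, 4), 0), ((2, 4), (0, 3), 7), ((2, 4), (0, 4), 0), ((3,
    2), (1, 6), 4), ((3, 2), (1, 7), 5), ((3, 2), (2, 3), 7), ((3, 2), (2, 10), 6), ((4, 2),
    (6, 1), 3), ((4, 2), (6, 5), 0), ((5, 6), (7, 1), 3), ((5, 6), (7, 8), 1), ((6, 5), (10,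
    2), 3), ((6, 5), (10, 8), 1)]
  G := [[0, 0, 0x1412c5482c9141218c9448c5181842c1282c4882cd14e,
    0x4412c8818c8448cd21448261418c8218c8484cd288842a4448c8418c4484cd28d,
    0x1242c8818c888d144444448497212488241984218c8288cc88441248288c9781818c4248c5184462f], [0,
    0, 0x1212c8482c9141212c4448c5181414c1818cc4c4cd12e,
    0x5452c8488c8888cd25448264448c9844448cd2888488841884ba1418c1414cc4c8cd28d,
    0x424824c24242c8282cc444824956484984c4848c9888cc4848c1d21212c4242c5124144484d68b], [0,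
    0x2424c8888ca214488828c8844ce212428c2888c4448ce24d, 0,
    0x1444c8814c8884cd214111c1188c4441cd281418c1888c4488cd24d,
    0x12442451242c1882c888d4448e148484281212c4842cd184184484de1c84844918c2c4242c51448845e2b],
    [0, 0x2121c8888ca242128c4144c6282428c2424cc4c4ce28d, 0,
    0x5151c8888c8888cd244441c9191c4141cd281818c1418cc4c8cd24d,
    0x4242c8882cc424884c6141448494889898c418dc484984484d2312c8c428542416424184484d8cb]]

noncomputable def n3723 : Ent := ⟨e3723, noF, [], [], [(16, 17, [6903326391201334775872065844685381424292761054348340378595029944930305, 0])]⟩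

def c3723 : PLift (Cov.check n3723.C.D v3723 = true) := ⟨by decide +kernel⟩

def b3723 : PLift (entF (fidx ts) 400 3723 n3723 = true) := ⟨by decide +kernel⟩

theorem g3723 : GoodF (fidx ts) 400 3723 := GoodF.ofV v3723 n3723 c3723.down b3723.down

/-- 8566644:2759/6 -/
noncomputable def e3724 : SCfg where
  D := {
    a := 7
    L := 11
    kp := 8
    inn := [(0, 1), (0, 2), (0, 3), (0, 5), (1, 0), (1, 2), (1, 4), (1, 5), (2, 0), (2, 1), (2, 4), (3,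
      0), (3, 6), (4, 1), (4, 2), (5, 0), (5, 1), (6, 3)]
    mix := [(0, 0), (0, 1), (0, 2), (0, 3), (1, 4), (2, 1), (2, 5), (2, 6), (3, 1), (3, 2), (3, 7), (3,
      8), (4, 4), (4, 5), (4, 9), (4, 10), (5, 0), (5, 4), (6, 2), (6, 8), (6, 10)]
    cl := [2, 0, 0, 7, 1, 1, 5, 6, 4, 8, 3]
    chq := [(0, 2), (2, 0), (2, 5), (3, 6), (5, 2), (6, 3)]
    rng := [(0, 3), (0, 4), (1, 6), (1, 7), (2, 3), (2, 10), (3, 0), (3, 2), (4, 0), (4, 9), (5, 6),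
      (5, 10), (6, 1), (6, 5), (7, 1), (7, 8), (8, 7), (8, 10), (9, 4), (9, 10), (10, 2), (10, 5),
      (10, 8), (10, 9)]
    lev := [] }
  links := [[7, 5, 1, 2, 8, 3, 9, 10], [2, 0, 5, 11, 4], [8, 0, 1, 4, 12, 13], [9, 0, 8, 14, 15, 6], [12,
    2, 1, 11, 16, 17], [0, 7, 11, 1], [3, 15, 17, 9]]
  P := {
    a := 7
    N := 18
    nb := [1966, 2101, 12563, 49985, 202758, 2179, 164360, 3105, 24589, 132169, 641, 65714, 139284,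
      4356, 33032, 147528, 133136, 102992]
    tri := [(0, 1, 2), (0, 1, 5), (0, 2, 8), (0, 3, 8), (0, 3, 9), (0, 5, 7), (0, 7, 10), (0, 9, 10),
      (1, 2, 4), (1, 4, 11), (1, 5, 11), (2, 4, 12), (2, 8, 13), (2, 12, 13), (3, 6, 9), (3, 6,
      15), (3, 8, 14), (3, 14, 15), (4, 11, 16), (4, 12, 17), (4, 16, 17), (5, 7, 11), (6, 9, 17),
      (6, 15, 17)]
    fin := [0, 1, 1, 3, 4, 1, 3, 1, 0, 0, 10, 4, 4, 13, 14, 15, 16, 3]
    chd := [(1, 0), (1, 13), (14, 3)]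
    steps := [(0, 8), (0, 9), (1, 2), (1, 5), (1, 7), (3, 6), (3, 17), (4, 11), (4, 12)] }
  rep := [0, 4, 1, 3, 15, 13, 14, 10, 16]

noncomputable def v3724 : Cov.CovD where
  P := 3
  N := 6
  pl := [3, 8, 9]
  lev := [⟨[], [], [(0, 0), (0, 2)], [7], [(0, 2, [0, 5]), (1, 0, [2]), (2, 0, [2])]⟩,
    ⟨[], [(0, 0), (0, 1), (0, 2)], [], [], [(4, 1, [])]⟩,
    ⟨[(0, 1)], [(0, 0), (0, 1), (0, 2), (0, 5), (1, 0), (1, 1), (1, 5)], [(0, 1), (0, 5),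
      (1, 5)], [], [(1, 0, [2]), (5, 1, []), (6, 5, [2])]⟩,
    ⟨[(0, 1), (0, 2)], [(0, 0), (0, 2), (0, 6), (2, 0)], [(0, 0), (0, 6)], [4], [(1, 0,
      [2]), (2, 0, [2]), (7, 6, [3])]⟩,
    ⟨[(0, 1), (0, 2), (1, 2)], [(1, 1), (1, 3), (2, 0), (2, 1), (2, 3), (2, 5)], [(1, 1),
      (1, 3)], [8], [(4, 1, []), (5, 1, []), (10, 3, [6])]⟩,
    ⟨[(0, 1), (0, 2), (0, 3), (1, 2), (1, 4)], [(0, 0), (0, 1), (0, 2), (1, 1), (1, 2), (4,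
      1)], [(1, 2)], [], [(0, 2, [0, 5]), (4, 1, [])]⟩,
    ⟨[(0, 3)], [(0, 0), (3, 0), (3, 3), (3, 6), (4, 3)], [(0, 3)], [4], [(2, 0, [2]), (10,
      3, [6])]⟩]
  Ta := [((1, 6), 0, 5), ((1, 7), 0, 6), ((2, 3), 0, 7), ((2, 10), 0, 3), ((4, 0), 1, 2), ((4,
    9), 1, 8), ((5, 6), 1, 5), ((5, 10), 1, 3)]
  Tb := [((0, 3, 4), 2, 7, 1), ((1, 6, 7), 0, 5, 6), ((2, 3, 10), 0, 7, 3), ((3, 0, 2), 7, 2, 0),
    ((4, 0, 9), 1, 2, 8), ((5, 6, 10), 1, 5, 3), ((6, 1, 5), 5, 0, 1), ((7, 1, 8), 6, 0, 4),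
    ((8, 7, 10), 4, 6, 3), ((9, 4, 10), 8, 1, 3), ((10, 2, 5), 3, 0, 1), ((10, 2, 8), 3, 0,
    4), ((10, 2, 9), 3, 0, 8), ((10, 5, 8), 3, 1, 4), ((10, 5, 9), 3, 1, 8), ((10, 8, 9), 3,
    4, 8)]
  Tc := [(2, 0, 5)]
  Td := [((0, 2), (1, 6), 5), ((0, 2), (1, 7), 6), ((0, 2), (2, 3), 7), ((0, 2), (2, 10), 3),
    ((2, 0), (0, 3), 7), ((2, 0), (0, 4), 1), ((2, 5), (0, 3), 7), ((2, 5), (0, 4), 1), ((3,
    6), (10, 2), 0), ((3, 6), (10, 5), 1), ((3, 6), (10, 8), 4), ((3, 6), (10, 9), 8), ((5,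
    2), (6, 1), 0), ((5, 2), (6, 5), 1), ((6, 3), (7, 1), 0), ((6, 3), (7, 8), 4)]
  G := [[0, 0x1414aa84838e941828ee254646242a544866382282a841818e38a86945428ee618842a1414a448e,
    0x246134d144811d244824de24143461da11111d141421de28c,
    0x211164d112818d282824de21241138d182818d812828de21c,
    0x211111d112131d282821de24384244144e885838d114138d881818dec1a], [0,
    0x112222a146111e984838ec41121ee64815118e919131e111121ee2182582a8c312488e,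
    0x9415416311111611e1112c3848c8252ced4621881141341141e541911141e8434c1414c8141ced8e, 0,
    0x2244111252d9142a8d124112dec1514424a881444181158d984898d184118dec1e], [0,
    0x6228646264ea848a8ec4c828ee6a4224266448a6642a22242e846468ea2a8a8ec4c828eeaa8842ac,
    0x141414d984834d182428de21883838d181818d242428de21c,
    0x616464da441a8d282124de21611a1a8a8d242428de8164c838c,
    0x616161da148a8d282821de24684414c84e181689a1a89c1c89e45a], [0,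
    0x2122c121626616161ea448a4ec18e2c2422846868ea8a8a8ec4c828eea1612a12c88e,
    0x141381c41111311211e22128411ca121c1154ced8641341111e111a41511e8154c1144c8418ced8e, 0,
    0x61619a1a89211e614414c8c1ce5281619a1a19c1c89e684414c14e58a]]

noncomputable def n3724 : Ent := ⟨e3724, noF, [], [], [(16, 15, [7334790850167413569773436004105379185503274260204390087403942019887105, 0])]⟩

def c3724 : PLift (Cov.check n3724.C.D v3724 = true) := ⟨by decide +kernel⟩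

def b3724 : PLift (entF (fidx ts) 400 3724 n3724 = true) := ⟨by decide +kernel⟩

theorem g3724 : GoodF (fidx ts) 400 3724 := GoodF.ofV v3724 n3724 c3724.down b3724.down

/-- 8566644:2759 -/
noncomputable def e3725 : SCfg where
  D := {
    a := 7
    L := 12
    kp := 9
    inn := [(0, 1), (0, 2), (0, 3), (0, 5), (1, 0), (1, 2), (1, 4), (1, 5), (2, 0), (2, 1), (2, 4), (3,
      0), (3, 6), (4, 1), (4, 2), (5, 0), (5, 1), (6, 3)]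
    mix := [(0, 0), (0, 1), (0, 2), (0, 3), (1, 4), (2, 1), (2, 5), (2, 6), (3, 1), (3, 2), (3, 7), (3,
      8), (4, 4), (4, 5), (4, 9), (4, 10), (5, 0), (5, 4), (6, 2), (6, 8), (6, 11)]
    cl := [2, 0, 0, 7, 1, 1, 4, 5, 3, 8, 9, 6]
    chq := [(0, 2), (2, 0), (2, 4), (4, 2), (5, 6), (6, 5)]
    rng := [(0, 3), (0, 4), (1, 6), (1, 7), (2, 3), (2, 11), (3, 0), (3, 2), (4, 0), (4, 9), (5, 6),
      (5, 10), (6, 1), (6, 5), (7, 1), (7, 8), (8, 7), (8, 11), (9, 4), (9, 10), (10, 5), (10, 9),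
      (11, 2), (11, 8)]
    lev := [] }
  links := [[7, 5, 1, 2, 8, 3, 9, 10], [2, 0, 5, 11, 4], [8, 0, 1, 4, 12, 13], [9, 0, 8, 14, 15, 6], [12,
    2, 1, 11, 16, 17], [0, 7, 11, 1], [3, 15, 18, 9]]
  P := {
    a := 7
    N := 19
    nb := [1966, 2101, 12563, 49985, 202758, 2179, 295432, 3105, 24589, 263241, 641, 65714, 139284,
      4356, 33032, 278600, 133136, 69648, 33344]
    tri := [(0, 1, 2), (0, 1, 5), (0, 2, 8), (0, 3, 8), (0, 3, 9), (0, 5, 7), (0, 7, 10), (0, 9, 10),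
      (1, 2, 4), (1, 4, 11), (1, 5, 11), (2, 4, 12), (2, 8, 13), (2, 12, 13), (3, 6, 9), (3, 6,
      15), (3, 8, 14), (3, 14, 15), (4, 11, 16), (4, 12, 17), (4, 16, 17), (5, 7, 11), (6, 9, 18),
      (6, 15, 18)]
    fin := [0, 1, 1, 3, 4, 1, 3, 1, 0, 0, 10, 4, 4, 13, 3, 15, 16, 17, 18]
    chd := [(1, 0), (1, 13), (3, 18)]
    steps := [(0, 8), (0, 9), (1, 2), (1, 5), (1, 7), (3, 6), (3, 14), (4, 11), (4, 12)] }
  rep := [0, 4, 1, 15, 13, 3, 18, 10, 16, 17]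

noncomputable def v3725 : Cov.CovD where
  P := 3
  N := 7
  pl := [3, 8, 9, 10]
  lev := [⟨[], [], [(0, 0), (0, 2)], [7], [(0, 2, [0, 4]), (1, 0, [2]), (2, 0, [2])]⟩,
    ⟨[], [(0, 0), (0, 1), (0, 2)], [], [], [(4, 1, [])]⟩,
    ⟨[(0, 1)], [(0, 0), (0, 1), (0, 2), (0, 4), (1, 0), (1, 1), (1, 4)], [(0, 1), (0, 4),
      (1, 4)], [], [(1, 0, [2]), (5, 1, []), (6, 4, [2])]⟩,
    ⟨[(0, 1), (0, 2)], [(0, 0), (0, 2), (0, 5), (2, 0)], [(0, 0), (0, 5)], [3], [(1, 0,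
      [2]), (2, 0, [2]), (7, 5, [6])]⟩,
    ⟨[(0, 1), (0, 2), (1, 2)], [(1, 1), (2, 0), (2, 1), (2, 4)], [(1, 1)], [8, 9], [(4, 1,
      []), (5, 1, [])]⟩,
    ⟨[(0, 1), (0, 2), (0, 3), (1, 2), (1, 4)], [(0, 0), (0, 1), (0, 2), (1, 1), (1, 2), (4,
      1)], [(1, 2)], [], [(0, 2, [0, 4]), (4, 1, [])]⟩,
    ⟨[(0, 3)], [(0, 0), (3, 0), (3, 5), (3, 6)], [(0, 6)], [3], [(2, 0, [2]), (11, 6,
      [5])]⟩]
  Ta := [((1, 6), 0, 4), ((1, 7), 0, 5), ((2, 3), 0, 7), ((2, 11), 0, 6), ((4, 0), 1, 2), ((4,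
    9), 1, 8), ((5, 6), 1, 4), ((5, 10), 1, 9)]
  Tb := [((0, 3, 4), 2, 7, 1), ((1, 6, 7), 0, 4, 5), ((2, 3, 11), 0, 7, 6), ((3, 0, 2), 7, 2, 0),
    ((4, 0, 9), 1, 2, 8), ((5, 6, 10), 1, 4, 9), ((6, 1, 5), 4, 0, 1), ((7, 1, 8), 5, 0, 3),
    ((8, 7, 11), 3, 5, 6), ((9, 4, 10), 8, 1, 9), ((10, 5, 9), 9, 1, 8), ((11, 2, 8), 6, 0,
    3)]
  Tc := [(2, 0, 4)]
  Td := [((0, 2), (1, 6), 4), ((0, 2), (1, 7), 5), ((0, 2), (2, 3), 7), ((0, 2), (2, 11), 6),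
    ((2, 0), (0, 3), 7), ((2, 0), (0, 4), 1), ((2, 4), (0, 3), 7), ((2, 4), (0, 4), 1), ((4,
    2), (6, 1), 0), ((4, 2), (6, 5), 1), ((5, 6), (7, 1), 0), ((5, 6), (7, 8), 3), ((6, 5),
    (11, 2), 0), ((6, 5), (11, 8), 3)]
  G := [[0, 0x142234346461414aa485458c4ee214482e1422345858ea8986941414eea18842a185461494ac84e,
    0x543161d941118d1498c8de24681438d183818d98c894de21c,
    0x111434d313418dc454c4de21183138d311818d5898c4de21c,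
    0x111151d313191d51c811de24514914144e315861d119191dc11111dec8a], [0,
    0x1222146111e341838ec89851eea41222345464e189838ec41458ee61512a42c88e,
    0x341c216521a81181e6432c9811c11c2ced4681911181e681981a3854c1198cc414ced214181114c8e, 0,
    0x3244113252d381198dc29212dec1184c84a813144183168d311818dc19198dec1e], [0,
    0xc8226464aa4a8a4ec4c8c8ee66448644866646868ea8a86c4c8c4ee2a88c826a884aa682a82c84e,
    0x141134d313111d545191de24646838d189818d981498de21c,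
    0x646464da4a8a4dc1c4c4de21686868da1a1a8dc8c1c4de21c,
    0x616161da8a1a8dc1c1c1de24611a81c81e46868ca1a8cc1c1ce1ca], [0,
    0xc822646464ea8a8a8ec8c4c8ee61c822686864ea8a8a8ec4c4c4ee61682a82c81e,
    0x311442141311511e111511a3851c11a1cc411ced2141341c11e311141911e5468c9194c1411ced8e, 0,
    0x614a24c8c8ce161629a1a29c21e45681a81c1c89e6161ca1a1cc14e58a]]

noncomputable def n3725 : Ent := ⟨e3725, noF, [], [], [(16, 15, [31810581956861085346069128449376638664080213418021345636276315565303824385, 0]), (16, 18, [30043303427623734937691929578474300150491519007939870628445900451936247809, 0]), (17, 15, [31810150703026702604389600475053274033659867542605680387665729161850826753, 0]), (17, 18, [30043303427623734937691929578474300150491519007939870628445900451936256001, 0])]⟩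

def c3725 : PLift (Cov.check n3725.C.D v3725 = true) := ⟨by decide +kernel⟩

def b3725 : PLift (entF (fidx ts) 400 3725 n3725 = true) := ⟨by decide +kernel⟩

theorem g3725 : GoodF (fidx ts) 400 3725 := GoodF.ofV v3725 n3725 c3725.down b3725.down

/-- 766444:2760/2 -/
noncomputable def e3726 : SCfg where
  D := {
    a := 6
    L := 9
    kp := 6
    inn := [(0, 2), (0, 3), (1, 3), (1, 4), (2, 0), (2, 5), (3, 0), (3, 1), (4, 1), (5, 2)]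
    mix := [(0, 0), (0, 1), (0, 2), (0, 3), (0, 4), (1, 0), (1, 1), (1, 5), (1, 6), (2, 1), (2, 2), (2,
      5), (2, 7), (3, 0), (3, 1), (4, 0), (4, 4), (4, 6), (5, 2), (5, 7), (5, 8)]
    cl := [0, 0, 0, 6, 2, 1, 3, 4, 5]
    chq := [(1, 2), (1, 5), (2, 1), (5, 1)]
    rng := [(0, 4), (1, 5), (2, 3), (2, 8), (3, 2), (3, 4), (4, 0), (4, 3), (4, 6), (5, 1), (5, 6), (5,
      7), (6, 4), (6, 5), (7, 5), (7, 8), (8, 2), (8, 7)]
    lev := [] }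
  links := [[6, 3, 7, 2, 8, 9, 10], [11, 7, 3, 6, 4, 12], [0, 7, 11, 13, 5, 8], [7, 0, 6, 1], [1, 6, 10,
    12], [2, 13, 14, 8]]
  P := {
    a := 6
    N := 15
    nb := [1996, 6360, 10657, 195, 5186, 24836, 1051, 2063, 16933, 1281, 4689, 12422, 3090, 18468,
      8480]
    tri := [(0, 2, 7), (0, 2, 8), (0, 3, 6), (0, 3, 7), (0, 6, 10), (0, 8, 9), (0, 9, 10), (1, 3, 6),
      (1, 3, 7), (1, 4, 6), (1, 4, 12), (1, 7, 11), (1, 11, 12), (2, 5, 8), (2, 5, 13), (2, 7,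
      11), (2, 11, 13), (4, 6, 10), (4, 10, 12), (5, 8, 14), (5, 13, 14)]
    fin := [0, 1, 2, 0, 1, 2, 0, 0, 0, 9, 1, 2, 12, 13, 14]
    chd := [(1, 2), (2, 14)]
    steps := [(0, 3), (0, 6), (0, 7), (0, 8), (1, 4), (1, 10), (2, 5), (2, 11)] }
  rep := [0, 2, 1, 12, 13, 14, 9]

noncomputable def v3726 : Cov.CovD where
  P := 3
  N := 4
  pl := [3, 6, 7]
  lev := [⟨[], [], [(0, 0), (0, 2)], [6], [(0, 0, []), (1, 0, []), (2, 0, []), (4, 2, [1])]⟩,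
    ⟨[], [(0, 0)], [(0, 0), (0, 1)], [3], [(0, 0, []), (1, 0, []), (5, 1, [2, 5])]⟩,
    ⟨[], [(0, 0), (0, 1), (0, 2), (1, 0), (1, 1)], [(0, 0), (0, 1)], [4], [(1, 0, []), (2,
      0, []), (5, 1, [2, 5])]⟩,
    ⟨[(0, 1), (0, 2)], [(0, 0), (0, 2), (1, 0), (1, 1), (2, 0)], [(0, 0)], [], [(0, 0, []),
      (1, 0, [])]⟩,
    ⟨[(1, 3)], [(0, 0), (0, 2), (1, 0), (1, 1), (1, 2), (3, 0)], [(0, 2)], [3], [(0, 0,
      []), (4, 2, [1])]⟩,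
    ⟨[(0, 2)], [(0, 0), (2, 0), (2, 1), (2, 5)], [(0, 5)], [4], [(2, 0, []), (8, 5, [1])]⟩]
  Ta := [((0, 4), 0, 2), ((1, 5), 0, 1), ((2, 3), 0, 6), ((2, 8), 0, 5)]
  Tb := [((2, 3, 8), 0, 6, 5), ((3, 2, 4), 6, 0, 2), ((4, 0, 3), 2, 0, 6), ((4, 0, 6), 2, 0, 3),
    ((4, 3, 6), 2, 6, 3), ((5, 1, 6), 1, 0, 3), ((5, 1, 7), 1, 0, 4), ((5, 6, 7), 1, 3, 4),
    ((6, 4, 5), 3, 2, 1), ((7, 5, 8), 4, 1, 5), ((8, 2, 7), 5, 0, 4)]
  Tc := [(1, 2, 5)]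
  Td := [((1, 2), (5, 1), 0), ((1, 2), (5, 6), 3), ((1, 2), (5, 7), 4), ((1, 5), (5, 1), 0), ((1,
    5), (5, 6), 3), ((1, 5), (5, 7), 4), ((2, 1), (4, 0), 0), ((2, 1), (4, 3), 6), ((2, 1),
    (4, 6), 3), ((5, 1), (8, 2), 0), ((5, 1), (8, 7), 4)]
  G := [[0, 0, 0x184282c222142cc182228c148248ccc, 0x22c422c4c22,
    0x284182c222128cc282182c222124cca], [0, 0x112414281122e112811221184ec, 0, 0x22942198c22,
    0x282184c214124cc282118c122224cca], [0, 0, 0, 0x22c82254c22,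
    0x214e82c622a22cc284e84ce22224cca]]

noncomputable def n3726 : Ent := ⟨e3726, noF, [], [], []⟩

def c3726 : PLift (Cov.check n3726.C.D v3726 = true) := ⟨by decide +kernel⟩

def b3726 : PLift (entF (fidx ts) 400 3726 n3726 = true) := ⟨by decide +kernel⟩

theorem g3726 : GoodF (fidx ts) 400 3726 := GoodF.ofV v3726 n3726 c3726.down b3726.down

/-- 766444:2760/1 -/
noncomputable def e3727 : SCfg where
  D := {
    a := 6
    L := 10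
    kp := 7
    inn := [(0, 2), (0, 3), (1, 3), (1, 4), (2, 0), (2, 5), (3, 0), (3, 1), (4, 1), (5, 2)]
    mix := [(0, 0), (0, 1), (0, 2), (0, 3), (0, 4), (1, 0), (1, 1), (1, 5), (1, 6), (2, 1), (2, 2), (2,
      7), (2, 8), (3, 0), (3, 1), (4, 0), (4, 4), (4, 6), (5, 2), (5, 8), (5, 9)]
    cl := [0, 0, 0, 7, 1, 2, 3, 5, 4, 6]
    chq := [(1, 2), (2, 1), (5, 6), (6, 5)]
    rng := [(0, 4), (1, 5), (1, 7), (2, 3), (2, 9), (3, 2), (3, 4), (4, 0), (4, 3), (4, 6), (5, 1), (5,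
      6), (6, 4), (6, 5), (7, 1), (7, 8), (8, 7), (8, 9), (9, 2), (9, 8)]
    lev := [] }
  links := [[6, 3, 7, 2, 8, 9, 10], [11, 7, 3, 6, 4, 12], [0, 7, 13, 14, 5, 8], [7, 0, 6, 1], [1, 6, 10,
    12], [2, 14, 15, 8]]
  P := {
    a := 6
    N := 16
    nb := [1996, 6360, 24993, 195, 5186, 49412, 1051, 10255, 33317, 1281, 4689, 4226, 3090, 16516,
      40996, 16672]
    tri := [(0, 2, 7), (0, 2, 8), (0, 3, 6), (0, 3, 7), (0, 6, 10), (0, 8, 9), (0, 9, 10), (1, 3, 6),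
      (1, 3, 7), (1, 4, 6), (1, 4, 12), (1, 7, 11), (1, 11, 12), (2, 5, 8), (2, 5, 14), (2, 7,
      13), (2, 13, 14), (4, 6, 10), (4, 10, 12), (5, 8, 15), (5, 14, 15)]
    fin := [0, 1, 2, 0, 1, 2, 0, 0, 0, 9, 1, 11, 12, 2, 14, 15]
    chd := [(1, 11), (2, 15)]
    steps := [(0, 3), (0, 6), (0, 7), (0, 8), (1, 4), (1, 10), (2, 5), (2, 13)] }
  rep := [0, 1, 11, 12, 14, 2, 15, 9]

noncomputable def v3727 : Cov.CovD where
  P := 3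
  N := 5
  pl := [3, 6, 8]
  lev := [⟨[], [], [(0, 0), (0, 1)], [7], [(0, 0, []), (1, 0, []), (2, 0, []), (4, 1, [2])]⟩,
    ⟨[], [(0, 0)], [(0, 0), (0, 2)], [3], [(0, 0, []), (1, 0, []), (5, 2, [1])]⟩,
    ⟨[], [(0, 0), (0, 1), (0, 5), (1, 0)], [(0, 0), (0, 5)], [4], [(1, 0, []), (2, 0, []),
      (7, 5, [6])]⟩,
    ⟨[(0, 1), (0, 2)], [(0, 0), (0, 1), (1, 0), (1, 2), (2, 0)], [(0, 0)], [], [(0, 0, []),
      (1, 0, [])]⟩,
    ⟨[(1, 3)], [(0, 0), (0, 1), (1, 0), (1, 1), (1, 2), (3, 0)], [(0, 1)], [3], [(0, 0,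
      []), (4, 1, [2])]⟩,
    ⟨[(0, 2)], [(0, 0), (2, 0), (2, 5), (2, 6)], [(0, 6)], [4], [(2, 0, []), (9, 6, [5])]⟩]
  Ta := [((0, 4), 0, 1), ((1, 5), 0, 2), ((1, 7), 0, 5), ((2, 3), 0, 7), ((2, 9), 0, 6)]
  Tb := [((1, 5, 7), 0, 2, 5), ((2, 3, 9), 0, 7, 6), ((3, 2, 4), 7, 0, 1), ((4, 0, 3), 1, 0, 7),
    ((4, 0, 6), 1, 0, 3), ((4, 3, 6), 1, 7, 3), ((5, 1, 6), 2, 0, 3), ((6, 4, 5), 3, 1, 2),
    ((7, 1, 8), 5, 0, 4), ((8, 7, 9), 4, 5, 6), ((9, 2, 8), 6, 0, 4)]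
  Tc := []
  Td := [((1, 2), (4, 0), 0), ((1, 2), (4, 3), 7), ((1, 2), (4, 6), 3), ((2, 1), (5, 1), 0), ((2,
    1), (5, 6), 3), ((5, 6), (7, 1), 0), ((5, 6), (7, 8), 4), ((6, 5), (9, 2), 0), ((6, 5),
    (9, 8), 4)]
  G := [[0, 0x184384c342942528ec182c8268384c84a348142948ece, 0, 0x1cc82219c82263c891c8c2e,
    0x684182984e544942144ea682982184e342142948eac], [0, 0,
    0x612114914e542912118ea312c126542918c184112aec, 0x12421882611c8225bc89754c2e,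
    0x184a82584e112314514ea682982114e314112942eac], [0, 0, 0, 0xcc9422cc54226488688aa98c6e,
    0x682a84c84e644a12c44ea614a82c84e644a48c14eac]]

noncomputable def n3727 : Ent := ⟨e3727, noF, [], [], [(11, 13, [385753028440516072301428330182238677962518295842732840422268929, 0])]⟩

def c3727 : PLift (Cov.check n3727.C.D v3727 = true) := ⟨by decide +kernel⟩

def b3727 : PLift (entF (fidx ts) 400 3727 n3727 = true) := ⟨by decide +kernel⟩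

theorem g3727 : GoodF (fidx ts) 400 3727 := GoodF.ofV v3727 n3727 c3727.down b3727.down

/-- 766444:2760/3 -/
noncomputable def e3728 : SCfg where
  D := {
    a := 6
    L := 10
    kp := 7
    inn := [(0, 2), (0, 3), (1, 3), (1, 4), (2, 0), (2, 5), (3, 0), (3, 1), (4, 1), (5, 2)]
    mix := [(0, 0), (0, 1), (0, 2), (0, 3), (0, 4), (1, 0), (1, 1), (1, 5), (1, 6), (2, 1), (2, 2), (2,
      7), (2, 8), (3, 0), (3, 1), (4, 0), (4, 6), (4, 9), (5, 2), (5, 6), (5, 8)]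
    cl := [0, 0, 0, 6, 7, 2, 1, 4, 3, 5]
    chq := [(1, 4), (2, 5), (4, 1), (5, 2)]
    rng := [(0, 4), (0, 9), (1, 5), (1, 7), (2, 3), (2, 6), (3, 2), (3, 4), (4, 0), (4, 3), (5, 1), (5,
      6), (6, 2), (6, 5), (6, 8), (6, 9), (7, 1), (7, 8), (8, 6), (8, 7), (9, 0), (9, 6)]
    lev := [] }
  links := [[6, 3, 7, 2, 8, 9, 10], [11, 7, 3, 6, 4, 12], [0, 7, 13, 14, 5, 8], [7, 0, 6, 1], [1, 6, 15,
    12], [2, 14, 12, 8]]
  P := {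
    a := 6
    N := 16
    nb := [1996, 6360, 24993, 195, 36930, 20740, 33819, 10255, 4645, 1281, 577, 4226, 51506, 16516,
      12324, 4176]
    tri := [(0, 2, 7), (0, 2, 8), (0, 3, 6), (0, 3, 7), (0, 6, 10), (0, 8, 9), (0, 9, 10), (1, 3, 6),
      (1, 3, 7), (1, 4, 6), (1, 4, 12), (1, 7, 11), (1, 11, 12), (2, 5, 8), (2, 5, 14), (2, 7,
      13), (2, 13, 14), (4, 6, 15), (4, 12, 15), (5, 8, 12), (5, 12, 14)]
    fin := [0, 1, 2, 0, 1, 2, 0, 0, 0, 9, 10, 11, 2, 13, 14, 1]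
    chd := [(2, 13), (11, 1)]
    steps := [(0, 3), (0, 6), (0, 7), (0, 8), (1, 4), (1, 15), (2, 5), (2, 12)] }
  rep := [0, 2, 11, 14, 13, 1, 9, 10]

noncomputable def v3728 : Cov.CovD where
  P := 3
  N := 5
  pl := [3, 4, 8]
  lev := [⟨[], [], [(0, 0)], [6, 7], [(0, 0, []), (1, 0, []), (2, 0, [])]⟩,
    ⟨[], [(0, 0)], [(0, 0), (0, 1), (0, 2), (1, 2)], [], [(0, 0, []), (1, 0, []), (5, 2,
      [5]), (6, 1, [4])]⟩,
    ⟨[], [(0, 0), (0, 4), (1, 0)], [(0, 0), (0, 4)], [3], [(1, 0, []), (2, 0, []), (7, 4,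
      [1])]⟩,
    ⟨[(0, 1), (0, 2)], [(0, 0), (1, 0), (1, 1), (1, 2), (2, 0)], [(0, 0)], [], [(0, 0, []),
      (1, 0, [])]⟩,
    ⟨[(1, 3)], [(0, 0), (1, 0), (1, 1), (1, 2), (1, 5), (3, 0)], [(0, 1), (0, 5), (1, 5)],
      [], [(0, 0, []), (6, 1, [4]), (9, 5, [2])]⟩,
    ⟨[(0, 2)], [(0, 0), (1, 1), (2, 0), (2, 1), (2, 4), (4, 1)], [(0, 1)], [3], [(2, 0,
      []), (6, 1, [4])]⟩]
  Ta := [((0, 4), 0, 7), ((0, 9), 0, 5), ((1, 5), 0, 2), ((1, 7), 0, 4), ((2, 3), 0, 6), ((2, 6),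
    0, 1)]
  Tb := [((0, 4, 9), 0, 7, 5), ((1, 5, 7), 0, 2, 4), ((2, 3, 6), 0, 6, 1), ((3, 2, 4), 6, 0, 7),
    ((4, 0, 3), 7, 0, 6), ((5, 1, 6), 2, 0, 1), ((6, 2, 5), 1, 0, 2), ((6, 2, 8), 1, 0, 3),
    ((6, 2, 9), 1, 0, 5), ((6, 5, 8), 1, 2, 3), ((6, 5, 9), 1, 2, 5), ((6, 8, 9), 1, 3, 5),
    ((7, 1, 8), 4, 0, 3), ((8, 6, 7), 3, 1, 4), ((9, 0, 6), 5, 0, 1)]
  Tc := []
  Td := [((1, 4), (6, 2), 0), ((1, 4), (6, 5), 2), ((1, 4), (6, 8), 3), ((1, 4), (6, 9), 5), ((2,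
    5), (5, 1), 0), ((2, 5), (5, 6), 1), ((4, 1), (7, 1), 0), ((4, 1), (7, 8), 3), ((5, 2),
    (9, 0), 0), ((5, 2), (9, 6), 1)]
  G := [[0, 0, 0, 0x5cc224c5c8249cc824e, 0x142442544e8842148944e8844442144e8e], [0, 0,
    0x112818c14e4812818118e8812412114e4e, 0x5182491228c1824e,
    0x142142c42e8848148944e8818114544e8e], [0, 0x624424222e8824a22222e8822422c28e4e, 0,
    0xc1824c1224c1424e, 0x444812c12e8812812c44e8844414c18e8e]]

noncomputable def n3728 : Ent := ⟨e3728, noF, [], [], []⟩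

def c3728 : PLift (Cov.check n3728.C.D v3728 = true) := ⟨by decide +kernel⟩

def b3728 : PLift (entF (fidx ts) 400 3728 n3728 = true) := ⟨by decide +kernel⟩

theorem g3728 : GoodF (fidx ts) 400 3728 := GoodF.ofV v3728 n3728 c3728.down b3728.down

/-- 766444:2760/4 -/
noncomputable def e3729 : SCfg where
  D := {
    a := 6
    L := 10
    kp := 7
    inn := [(0, 2), (0, 3), (1, 3), (1, 4), (2, 0), (2, 5), (3, 0), (3, 1), (4, 1), (5, 2)]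
    mix := [(0, 0), (0, 1), (0, 2), (0, 3), (0, 4), (1, 0), (1, 1), (1, 5), (1, 6), (2, 1), (2, 2), (2,
      5), (2, 7), (3, 0), (3, 1), (4, 0), (4, 6), (4, 8), (5, 2), (5, 7), (5, 9)]
    cl := [0, 0, 0, 6, 7, 1, 2, 3, 4, 5]
    chq := [(1, 4), (1, 5), (4, 1), (5, 1)]
    rng := [(0, 4), (0, 8), (1, 5), (2, 3), (2, 9), (3, 2), (3, 4), (4, 0), (4, 3), (5, 1), (5, 6), (5,
      7), (6, 5), (6, 8), (7, 5), (7, 9), (8, 0), (8, 6), (9, 2), (9, 7)]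
    lev := [] }
  links := [[6, 3, 7, 2, 8, 9, 10], [11, 7, 3, 6, 4, 12], [0, 7, 11, 13, 5, 8], [7, 0, 6, 1], [1, 6, 14,
    12], [2, 13, 15, 8]]
  P := {
    a := 6
    N := 16
    nb := [1996, 6360, 10657, 195, 20546, 41220, 17435, 2063, 33317, 1281, 577, 12422, 18450, 34852,
      4176, 8480]
    tri := [(0, 2, 7), (0, 2, 8), (0, 3, 6), (0, 3, 7), (0, 6, 10), (0, 8, 9), (0, 9, 10), (1, 3, 6),
      (1, 3, 7), (1, 4, 6), (1, 4, 12), (1, 7, 11), (1, 11, 12), (2, 5, 8), (2, 5, 13), (2, 7,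
      11), (2, 11, 13), (4, 6, 14), (4, 12, 14), (5, 8, 15), (5, 13, 15)]
    fin := [0, 1, 2, 0, 1, 2, 0, 0, 0, 9, 10, 2, 12, 13, 1, 15]
    chd := [(2, 1), (2, 15)]
    steps := [(0, 3), (0, 6), (0, 7), (0, 8), (1, 4), (1, 14), (2, 5), (2, 11)] }
  rep := [0, 2, 12, 13, 1, 15, 9, 10]

noncomputable def v3729 : Cov.CovD where
  P := 3
  N := 5
  pl := [3, 4, 6, 7]
  lev := [⟨[], [], [(0, 0)], [6, 7], [(0, 0, []), (1, 0, []), (2, 0, [])]⟩,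
    ⟨[], [(0, 0)], [(0, 0), (0, 1)], [2], [(0, 0, []), (1, 0, []), (5, 1, [4, 5])]⟩,
    ⟨[], [(0, 0), (0, 1), (1, 0), (1, 1)], [(0, 0), (0, 1)], [3], [(1, 0, []), (2, 0, []),
      (5, 1, [4, 5])]⟩,
    ⟨[(0, 1), (0, 2)], [(0, 0), (1, 0), (1, 1), (2, 0)], [(0, 0)], [], [(0, 0, []), (1, 0,
      [])]⟩,
    ⟨[(1, 3)], [(0, 0), (1, 0), (1, 1), (1, 4), (3, 0)], [(0, 4)], [2], [(0, 0, []), (8, 4,
      [1])]⟩,
    ⟨[(0, 2)], [(0, 0), (2, 0), (2, 1), (2, 5)], [(0, 5)], [3], [(2, 0, []), (9, 5, [1])]⟩]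
  Ta := [((0, 4), 0, 7), ((0, 8), 0, 4), ((1, 5), 0, 1), ((2, 3), 0, 6), ((2, 9), 0, 5)]
  Tb := [((0, 4, 8), 0, 7, 4), ((2, 3, 9), 0, 6, 5), ((3, 2, 4), 6, 0, 7), ((4, 0, 3), 7, 0, 6),
    ((5, 1, 6), 1, 0, 2), ((5, 1, 7), 1, 0, 3), ((5, 6, 7), 1, 2, 3), ((6, 5, 8), 2, 1, 4),
    ((7, 5, 9), 3, 1, 5), ((8, 0, 6), 4, 0, 2), ((9, 2, 7), 5, 0, 3)]
  Tc := [(1, 4, 5)]
  Td := [((1, 4), (5, 1), 0), ((1, 4), (5, 6), 2), ((1, 4), (5, 7), 3), ((1, 5), (5, 1), 0), ((1,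
    5), (5, 6), 2), ((1, 5), (5, 7), 3), ((4, 1), (8, 0), 0), ((4, 1), (8, 6), 2), ((5, 1),
    (9, 2), 0), ((5, 1), (9, 7), 3)]
  G := [[0, 0, 0x222122c8228122c4122222c8e, 0x22c222c2c422c212c2c422c811c8c4e,
    0x124224c8128222c8122222c8e], [0, 0x11411864112118a4112118a4e,
    0x122222c4222128c4222124c8e, 0x114218c4118218c4214214c4e, 0x222114c8222122c8114212c8e],
    [0, 0, 0x222e22c8e22228c8228e28c8e, 0x214214c4212218c4218218c8e,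
    0x224e14c8e12222c8222e24c8e]]

noncomputable def n3729 : Ent := ⟨e3729, noF, [], [], [(14, 10, [385746751338781050996073827118545021217310372558043290370891777, 0])]⟩

def c3729 : PLift (Cov.check n3729.C.D v3729 = true) := ⟨by decide +kernel⟩

def b3729 : PLift (entF (fidx ts) 400 3729 n3729 = true) := ⟨by decide +kernel⟩

theorem g3729 : GoodF (fidx ts) 400 3729 := GoodF.ofV v3729 n3729 c3729.down b3729.down

/-- 766444:2760 -/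
noncomputable def e3730 : SCfg where
  D := {
    a := 6
    L := 11
    kp := 8
    inn := [(0, 2), (0, 3), (1, 3), (1, 4), (2, 0), (2, 5), (3, 0), (3, 1), (4, 1), (5, 2)]
    mix := [(0, 0), (0, 1), (0, 2), (0, 3), (0, 4), (1, 0), (1, 1), (1, 5), (1, 6), (2, 1), (2, 2), (2,
      7), (2, 8), (3, 0), (3, 1), (4, 0), (4, 6), (4, 9), (5, 2), (5, 8), (5, 10)]
    cl := [0, 0, 0, 7, 8, 2, 1, 4, 3, 5, 6]
    chq := [(2, 5), (4, 6), (5, 2), (6, 4)]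
    rng := [(0, 4), (0, 9), (1, 5), (1, 7), (2, 3), (2, 10), (3, 2), (3, 4), (4, 0), (4, 3), (5, 1),
      (5, 6), (6, 5), (6, 9), (7, 1), (7, 8), (8, 7), (8, 10), (9, 0), (9, 6), (10, 2), (10, 8)]
    lev := [] }
  links := [[6, 3, 7, 2, 8, 9, 10], [11, 7, 3, 6, 4, 12], [0, 7, 13, 14, 5, 8], [7, 0, 6, 1], [1, 6, 15,
    12], [2, 14, 16, 8]]
  P := {
    a := 6
    N := 17
    nb := [1996, 6360, 24993, 195, 36930, 82180, 33819, 10255, 66085, 1281, 577, 4226, 34834, 16516,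
      73764, 4176, 16672]
    tri := [(0, 2, 7), (0, 2, 8), (0, 3, 6), (0, 3, 7), (0, 6, 10), (0, 8, 9), (0, 9, 10), (1, 3, 6),
      (1, 3, 7), (1, 4, 6), (1, 4, 12), (1, 7, 11), (1, 11, 12), (2, 5, 8), (2, 5, 14), (2, 7,
      13), (2, 13, 14), (4, 6, 15), (4, 12, 15), (5, 8, 16), (5, 14, 16)]
    fin := [0, 1, 2, 0, 1, 2, 0, 0, 0, 9, 10, 11, 12, 2, 14, 1, 16]
    chd := [(2, 16), (11, 1)]
    steps := [(0, 3), (0, 6), (0, 7), (0, 8), (1, 4), (1, 15), (2, 5), (2, 13)] }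
  rep := [0, 12, 11, 14, 2, 1, 16, 9, 10]

noncomputable def v3730 : Cov.CovD where
  P := 3
  N := 6
  pl := [3, 4, 6, 8]
  lev := [⟨[], [], [(0, 0)], [7, 8], [(0, 0, []), (1, 0, []), (2, 0, [])]⟩,
    ⟨[], [(0, 0)], [(0, 0), (0, 2)], [1], [(0, 0, []), (1, 0, []), (5, 2, [5])]⟩,
    ⟨[], [(0, 0), (0, 4), (1, 0)], [(0, 0), (0, 4)], [3], [(1, 0, []), (2, 0, []), (7, 4,
      [6])]⟩,
    ⟨[(0, 1), (0, 2)], [(0, 0), (1, 0), (1, 2), (2, 0)], [(0, 0)], [], [(0, 0, []), (1, 0,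
      [])]⟩,
    ⟨[(1, 3)], [(0, 0), (1, 0), (1, 2), (1, 5), (3, 0)], [(0, 5)], [1], [(0, 0, []), (9, 5,
      [2])]⟩,
    ⟨[(0, 2)], [(0, 0), (2, 0), (2, 4), (2, 6)], [(0, 6)], [3], [(2, 0, []), (10, 6, [4])]⟩]
  Ta := [((0, 4), 0, 8), ((0, 9), 0, 5), ((1, 5), 0, 2), ((1, 7), 0, 4), ((2, 3), 0, 7), ((2,
    10), 0, 6)]
  Tb := [((0, 4, 9), 0, 8, 5), ((1, 5, 7), 0, 2, 4), ((2, 3, 10), 0, 7, 6), ((3, 2, 4), 7, 0, 8),
    ((4, 0, 3), 8, 0, 7), ((5, 1, 6), 2, 0, 1), ((6, 5, 9), 1, 2, 5), ((7, 1, 8), 4, 0, 3),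
    ((8, 7, 10), 3, 4, 6), ((9, 0, 6), 5, 0, 1), ((10, 2, 8), 6, 0, 3)]
  Tc := []
  Td := [((2, 5), (5, 1), 0), ((2, 5), (5, 6), 1), ((4, 6), (7, 1), 0), ((4, 6), (7, 8), 3), ((5,
    2), (9, 0), 0), ((5, 2), (9, 6), 1), ((6, 4), (10, 2), 0), ((6, 4), (10, 8), 3)]
  G := [[0, 0x522922124e8522922122e8122324528e4e, 0,
    0x16c231c2ccc2e411c8aac2ccc2e455c29ac211c4e8e, 0x142d42544e8644148948e8148a42544e8e], [0,
    0x624922128e4d28128928e4124d22528e8e, 0x514918114e4618912114e8312112918e8e,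
    0x512914114e8112318b12e4614918118e8e, 0x542942142e8544942142e8144348514e8e], [0,
    0x622a22c24e8628a28c28e8624a24c28e8e, 0, 0x612a14c14e8612a12c18e4614a14c18e8e,
    0x642a42c42e8614a18c14e8644a44c14e8e]]

noncomputable def n3730 : Ent := ⟨e3730, noF, [], [], [(15, 10, [1685356702439545624464619697705549435909628783578210987402494275585, 0]), (12, 16, [1580044410770988437309982408355971841652082177953823432505704382465, 0]), (11, 13, [1685382419725355503238989871268909155780284044704628512909414699009, 0])]⟩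

def c3730 : PLift (Cov.check n3730.C.D v3730 = true) := ⟨by decide +kernel⟩

def b3730 : PLift (entF (fidx ts) 400 3730 n3730 = true) := ⟨by decide +kernel⟩

theorem g3730 : GoodF (fidx ts) 400 3730 := GoodF.ofV v3730 n3730 c3730.down b3730.down

/-- 7684444:2761/2 -/
noncomputable def e3731 : SCfg where
  D := {
    a := 7
    L := 9
    kp := 6
    inn := [(0, 1), (0, 3), (0, 4), (1, 0), (1, 2), (1, 3), (2, 1), (2, 3), (2, 5), (2, 6), (3, 0), (3,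
      1), (3, 2), (4, 0), (5, 2), (6, 2)]
    mix := [(0, 0), (0, 1), (0, 2), (0, 3), (1, 0), (1, 4), (1, 5), (2, 3), (2, 5), (2, 6), (2, 7), (3,
      3), (4, 0), (4, 1), (4, 8), (5, 2), (5, 3), (5, 7), (6, 6), (6, 7), (6, 8)]
    cl := [1, 2, 1, 0, 6, 4, 0, 3, 5]
    chq := [(0, 3), (1, 4), (3, 0), (4, 1)]
    rng := [(0, 4), (0, 8), (1, 2), (1, 8), (2, 1), (2, 3), (2, 7), (3, 2), (4, 0), (4, 5), (5, 4), (5,
      6), (6, 5), (6, 8), (7, 2), (7, 8), (8, 0), (8, 1), (8, 6), (8, 7)]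
    lev := [] }
  links := [[1, 7, 4, 8, 9, 10, 3], [11, 7, 0, 3, 2, 12], [13, 12, 1, 3, 10, 5, 14, 6], [0, 10, 2, 1],
    [7, 15, 8, 0], [2, 10, 9, 14], [2, 14, 15, 13]]
  P := {
    a := 7
    N := 16
    nb := [1946, 6285, 29802, 1031, 33153, 17924, 57348, 34835, 33297, 17697, 557, 4226, 10246, 36932,
      33380, 25040]
    tri := [(0, 1, 3), (0, 1, 7), (0, 3, 10), (0, 4, 7), (0, 4, 8), (0, 8, 9), (0, 9, 10), (1, 2, 3),
      (1, 2, 12), (1, 7, 11), (1, 11, 12), (2, 3, 10), (2, 5, 10), (2, 5, 14), (2, 6, 13), (2, 6,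
      14), (2, 12, 13), (4, 7, 15), (4, 8, 15), (5, 9, 10), (5, 9, 14), (6, 13, 15), (6, 14, 15)]
    fin := [0, 0, 2, 0, 0, 0, 6, 0, 8, 0, 2, 11, 12, 2, 14, 6]
    chd := [(0, 12), (2, 14)]
    steps := [(0, 1), (0, 3), (0, 4), (0, 7), (0, 9), (2, 10), (0, 5), (2, 13), (6, 15)] }
  rep := [2, 0, 8, 14, 12, 6, 11]

noncomputable def v3731 : Cov.CovD where
  P := 3
  N := 4
  pl := [1, 4, 8]
  lev := [⟨[], [], [(0, 1), (1, 1)], [2], [(0, 1, [4]), (2, 1, [4]), (3, 0, [3])]⟩,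
    ⟨[], [(0, 0), (0, 1), (0, 4)], [(1, 4)], [6], [(0, 1, [4]), (5, 4, [1])]⟩,
    ⟨[(0, 1)], [(0, 0), (1, 0), (1, 1), (1, 3), (1, 4)], [(0, 0), (0, 3), (0, 4), (3, 4)],
      [], [(3, 0, [3]), (5, 4, [1]), (6, 0, [3]), (7, 3, [0])]⟩,
    ⟨[(0, 1), (0, 2), (1, 2)], [(0, 0), (0, 1), (1, 0), (1, 1), (1, 4), (2, 0), (2, 3), (2,
      4)], [], [], [(3, 0, [3])]⟩,
    ⟨[(0, 1), (0, 3)], [(0, 0), (0, 1), (1, 1)], [], [2, 5], [(0, 1, [4])]⟩,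
    ⟨[(1, 2), (2, 3)], [(0, 0), (0, 1), (2, 0), (2, 1), (2, 3), (2, 4), (3, 0)], [(0, 1),
      (0, 3), (1, 3)], [], [(2, 1, [4]), (3, 0, [3]), (7, 3, [0])]⟩,
    ⟨[(1, 2), (2, 3), (2, 5)], [(2, 0), (2, 3), (2, 4), (5, 3)], [(0, 3)], [5], [(6, 0,
      [3]), (7, 3, [0])]⟩]
  Ta := [((0, 4), 1, 6), ((0, 8), 1, 5), ((2, 1), 1, 2), ((2, 3), 1, 0), ((2, 7), 1, 3), ((3, 2),
    0, 1), ((6, 5), 0, 4), ((6, 8), 0, 5)]
  Tb := [((0, 4, 8), 1, 6, 5), ((1, 2, 8), 2, 1, 5), ((2, 1, 3), 1, 2, 0), ((2, 1, 7), 1, 2, 3),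
    ((2, 3, 7), 1, 0, 3), ((4, 0, 5), 6, 1, 4), ((5, 4, 6), 4, 6, 0), ((6, 5, 8), 0, 4, 5),
    ((7, 2, 8), 3, 1, 5), ((8, 0, 1), 5, 1, 2), ((8, 0, 6), 5, 1, 0), ((8, 0, 7), 5, 1, 3),
    ((8, 1, 6), 5, 2, 0), ((8, 1, 7), 5, 2, 3), ((8, 6, 7), 5, 0, 3)]
  Tc := []
  Td := [((0, 3), (3, 2), 1), ((0, 3), (6, 5), 4), ((0, 3), (6, 8), 5), ((1, 4), (0, 4), 6), ((1,
    4), (0, 8), 5), ((1, 4), (2, 1), 2), ((1, 4), (2, 3), 0), ((1, 4), (2, 7), 3), ((3, 0),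
    (7, 2), 1), ((3, 0), (7, 8), 5), ((4, 1), (5, 4), 6), ((4, 1), (5, 6), 0)]
  G := [[0, 0, 0x82c14cc4214c481c8c2581c22cc828c, 0, 0x96c142a1c14235c182d8], [0,
    0x1818c21414c81212c8e14, 0x542421c24a1cc2821448c8414281bc24af4, 0x12c14221c14221c182d8,
    0x1414228281818638141418c95c142f8], [0, 0,
    0x224182c425c4a28242224829425c4e5212282c425c868c, 0,
    0x4251422211221184c2891e2212241282c6194ed84c88289], [0, 0,
    0x28212124a8448c18448c1c2428212867212224212124e8c, 0x212295422122554221225582d8,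
    0x86c242221221222128e442cc91884891c222421822124ef8]]

noncomputable def n3731 : Ent := ⟨e3731, noF, [], [], []⟩

def c3731 : PLift (Cov.check n3731.C.D v3731 = true) := ⟨by decide +kernel⟩

def b3731 : PLift (entF (fidx ts) 400 3731 n3731 = true) := ⟨by decide +kernel⟩

theorem g3731 : GoodF (fidx ts) 400 3731 := GoodF.ofV v3731 n3731 c3731.down b3731.down

/-- 7684444:2761/1 -/
noncomputable def e3732 : SCfg where
  D := {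
    a := 7
    L := 10
    kp := 7
    inn := [(0, 1), (0, 3), (0, 4), (1, 0), (1, 2), (1, 3), (2, 1), (2, 3), (2, 5), (2, 6), (3, 0), (3,
      1), (3, 2), (4, 0), (5, 2), (6, 2)]
    mix := [(0, 0), (0, 1), (0, 2), (0, 3), (1, 0), (1, 4), (1, 5), (2, 3), (2, 5), (2, 6), (2, 7), (3,
      3), (4, 0), (4, 1), (4, 8), (5, 3), (5, 7), (5, 9), (6, 6), (6, 7), (6, 8)]
    cl := [1, 2, 1, 0, 6, 4, 0, 3, 5, 7]
    chq := [(0, 3), (0, 6), (3, 0), (6, 0)]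
    rng := [(0, 4), (0, 8), (1, 2), (1, 8), (2, 1), (2, 3), (3, 2), (3, 9), (4, 0), (4, 5), (5, 4), (5,
      6), (6, 5), (6, 8), (7, 8), (7, 9), (8, 0), (8, 1), (8, 6), (8, 7), (9, 3), (9, 7)]
    lev := [] }
  links := [[1, 7, 4, 8, 9, 10, 3], [11, 7, 0, 3, 2, 12], [13, 12, 1, 3, 10, 5, 14, 6], [0, 10, 2, 1],
    [7, 15, 8, 0], [2, 10, 16, 14], [2, 14, 15, 13]]
  P := {
    a := 7
    N := 17
    nb := [1946, 6285, 29802, 1031, 33153, 82948, 57348, 34835, 33297, 1281, 66093, 4226, 10246,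
      36932, 98404, 25040, 17440]
    tri := [(0, 1, 3), (0, 1, 7), (0, 3, 10), (0, 4, 7), (0, 4, 8), (0, 8, 9), (0, 9, 10), (1, 2, 3),
      (1, 2, 12), (1, 7, 11), (1, 11, 12), (2, 3, 10), (2, 5, 10), (2, 5, 14), (2, 6, 13), (2, 6,
      14), (2, 12, 13), (4, 7, 15), (4, 8, 15), (5, 10, 16), (5, 14, 16), (6, 13, 15), (6, 14,
      15)]
    fin := [0, 1, 1, 0, 0, 1, 6, 0, 8, 0, 1, 11, 12, 1, 14, 6, 16]
    chd := [(1, 11), (1, 14)]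
    steps := [(0, 3), (0, 4), (0, 7), (0, 9), (1, 2), (1, 5), (1, 10), (1, 13), (6, 15)] }
  rep := [1, 0, 8, 14, 12, 6, 11, 16]

noncomputable def v3732 : Cov.CovD where
  P := 3
  N := 5
  pl := [1, 5, 8, 9]
  lev := [⟨[], [], [(0, 1), (1, 1)], [2], [(0, 1, []), (2, 1, []), (3, 0, [3, 6])]⟩,
    ⟨[], [(0, 0), (0, 1), (0, 6)], [(1, 6)], [4], [(0, 1, []), (4, 6, [0])]⟩,
    ⟨[(0, 1)], [(0, 0), (1, 0), (1, 1), (1, 3), (1, 6)], [(0, 0), (0, 3)], [4], [(3, 0, [3,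
      6]), (6, 0, [3, 6]), (7, 3, [0])]⟩,
    ⟨[(0, 1), (0, 2), (1, 2)], [(0, 0), (0, 1), (1, 0), (1, 1), (1, 6), (2, 0), (2, 3)],
      [], [], [(3, 0, [3, 6])]⟩,
    ⟨[(0, 1), (0, 3)], [(0, 0), (0, 1), (1, 1)], [], [2, 5], [(0, 1, [])]⟩,
    ⟨[(1, 2), (2, 3)], [(0, 0), (2, 0), (2, 3), (3, 0)], [(0, 3)], [7], [(3, 0, [3, 6]),
      (7, 3, [0])]⟩,
    ⟨[(1, 2), (2, 3), (2, 5)], [(2, 0), (2, 3), (5, 3)], [(0, 3)], [5], [(6, 0, [3, 6]),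
      (7, 3, [0])]⟩]
  Ta := [((0, 4), 1, 6), ((0, 8), 1, 5), ((2, 1), 1, 2), ((2, 3), 1, 0), ((3, 2), 0, 1), ((3, 9),
    0, 7), ((6, 5), 0, 4), ((6, 8), 0, 5)]
  Tb := [((0, 4, 8), 1, 6, 5), ((1, 2, 8), 2, 1, 5), ((2, 1, 3), 1, 2, 0), ((3, 2, 9), 0, 1, 7),
    ((4, 0, 5), 6, 1, 4), ((5, 4, 6), 4, 6, 0), ((6, 5, 8), 0, 4, 5), ((7, 8, 9), 3, 5, 7),
    ((8, 0, 1), 5, 1, 2), ((8, 0, 6), 5, 1, 0), ((8, 0, 7), 5, 1, 3), ((8, 1, 6), 5, 2, 0),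
    ((8, 1, 7), 5, 2, 3), ((8, 6, 7), 5, 0, 3), ((9, 3, 7), 7, 0, 3)]
  Tc := [(0, 3, 6)]
  Td := [((0, 3), (3, 2), 1), ((0, 3), (3, 9), 7), ((0, 3), (6, 5), 4), ((0, 3), (6, 8), 5), ((0,
    6), (3, 2), 1), ((0, 6), (3, 9), 7), ((0, 6), (6, 5), 4), ((0, 6), (6, 8), 5), ((3, 0),
    (7, 8), 5), ((3, 0), (7, 9), 7), ((6, 0), (4, 0), 1), ((6, 0), (4, 5), 4)]
  G := [[0, 0, 0x118e142ec2811e114ec8821e241ec8e14, 0, 0x191e12c31e12a15e14e18], [0,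
    0x182e141ec2111e114ec8811e221ec8e14, 0x1c2e22112e28121e28e18, 0x311e14112e12221e14e18,
    0x312e12112e12121e18e18], [0, 0,
    0x8161c22184146a883224bc4882d41c22254427c8186e58141c221a1c868c, 0,
    0xc112a1146c1126118a8166394a651c18a242d14a38ced8], [0, 0,
    0x21282212828141c8422cb22226282124ef4, 0x6114a114c8122a944122652212194e38,
    0x2114e118c2e9242a32422528e38]]

noncomputable def n3732 : Ent := ⟨e3732, noF, [], [], [(9, 16, [1580044410770988437309982408355971841652082177953823432505704394753, 0])]⟩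

def c3732 : PLift (Cov.check n3732.C.D v3732 = true) := ⟨by decide +kernel⟩

def b3732 : PLift (entF (fidx ts) 400 3732 n3732 = true) := ⟨by decide +kernel⟩

theorem g3732 : GoodF (fidx ts) 400 3732 := GoodF.ofV v3732 n3732 c3732.down b3732.down

/-- 7684444:2761/4 -/
noncomputable def e3733 : SCfg where
  D := {
    a := 7
    L := 9
    kp := 6
    inn := [(0, 1), (0, 3), (0, 4), (1, 0), (1, 2), (1, 3), (2, 1), (2, 3), (2, 5), (2, 6), (3, 0), (3,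
      1), (3, 2), (4, 0), (5, 2), (6, 2)]
    mix := [(0, 0), (0, 1), (0, 2), (0, 3), (1, 0), (1, 4), (1, 5), (2, 3), (2, 5), (2, 6), (2, 7), (3,
      3), (4, 0), (4, 1), (4, 8), (5, 2), (5, 3), (5, 7), (6, 1), (6, 6), (6, 7)]
    cl := [1, 2, 1, 0, 5, 4, 0, 3, 6]
    chq := [(0, 3), (0, 5), (3, 0), (5, 0)]
    rng := [(0, 4), (0, 8), (1, 2), (1, 6), (1, 7), (1, 8), (2, 1), (2, 3), (2, 7), (3, 2), (4, 0), (4,
      5), (5, 4), (5, 6), (6, 1), (6, 5), (7, 1), (7, 2), (8, 0), (8, 1)]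
    lev := [] }
  links := [[1, 7, 4, 8, 9, 10, 3], [11, 7, 0, 3, 2, 12], [13, 12, 1, 3, 10, 5, 14, 6], [0, 10, 2, 1],
    [7, 15, 8, 0], [2, 10, 9, 14], [2, 14, 8, 13]]
  P := {
    a := 7
    N := 16
    nb := [1946, 6285, 29802, 1031, 33153, 17924, 24836, 34835, 57937, 17697, 557, 4226, 10246, 4420,
      868, 400]
    tri := [(0, 1, 3), (0, 1, 7), (0, 3, 10), (0, 4, 7), (0, 4, 8), (0, 8, 9), (0, 9, 10), (1, 2, 3),
      (1, 2, 12), (1, 7, 11), (1, 11, 12), (2, 3, 10), (2, 5, 10), (2, 5, 14), (2, 6, 13), (2, 6,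
      14), (2, 12, 13), (4, 7, 15), (4, 8, 15), (5, 9, 10), (5, 9, 14), (6, 8, 13), (6, 8, 14)]
    fin := [0, 1, 1, 0, 0, 0, 6, 0, 6, 0, 1, 11, 12, 1, 14, 15]
    chd := [(1, 11), (1, 14)]
    steps := [(0, 3), (0, 4), (0, 7), (0, 9), (1, 2), (1, 10), (0, 5), (1, 13), (6, 8)] }
  rep := [1, 0, 6, 14, 12, 11, 15]

noncomputable def v3733 : Cov.CovD where
  P := 3
  N := 4
  pl := [1, 5, 8]
  lev := [⟨[], [], [(0, 1), (1, 1)], [2], [(0, 1, []), (2, 1, []), (3, 0, [3, 5])]⟩,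
    ⟨[], [(0, 0), (0, 1), (0, 5)], [(1, 5)], [4], [(0, 1, []), (4, 5, [0])]⟩,
    ⟨[(0, 1)], [(0, 0), (1, 0), (1, 1), (1, 3), (1, 5)], [(0, 0), (0, 3)], [4], [(3, 0, [3,
      5]), (6, 0, [3, 5]), (7, 3, [0])]⟩,
    ⟨[(0, 1), (0, 2), (1, 2)], [(0, 0), (0, 1), (1, 0), (1, 1), (1, 5), (2, 0), (2, 3)],
      [], [], [(3, 0, [3, 5])]⟩,
    ⟨[(0, 1), (0, 3)], [(0, 0), (0, 1), (1, 1)], [], [2, 6], [(0, 1, [])]⟩,
    ⟨[(1, 2), (2, 3)], [(0, 0), (0, 1), (2, 0), (2, 1), (2, 3), (3, 0)], [(0, 1), (0, 3),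
      (1, 3)], [], [(2, 1, []), (3, 0, [3, 5]), (7, 3, [0])]⟩,
    ⟨[(1, 2), (2, 3), (2, 5)], [(2, 0), (2, 3), (5, 3)], [(0, 3)], [2], [(6, 0, [3, 5]),
      (7, 3, [0])]⟩]
  Ta := [((0, 4), 1, 5), ((0, 8), 1, 6), ((2, 1), 1, 2), ((2, 3), 1, 0), ((2, 7), 1, 3), ((3, 2),
    0, 1), ((6, 1), 0, 2), ((6, 5), 0, 4)]
  Tb := [((0, 4, 8), 1, 5, 6), ((1, 2, 6), 2, 1, 0), ((1, 2, 7), 2, 1, 3), ((1, 2, 8), 2, 1, 6),
    ((1, 6, 7), 2, 0, 3), ((1, 6, 8), 2, 0, 6), ((1, 7, 8), 2, 3, 6), ((2, 1, 3), 1, 2, 0),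
    ((2, 1, 7), 1, 2, 3), ((2, 3, 7), 1, 0, 3), ((4, 0, 5), 5, 1, 4), ((5, 4, 6), 4, 5, 0),
    ((6, 1, 5), 0, 2, 4), ((7, 1, 2), 3, 2, 1), ((8, 0, 1), 6, 1, 2)]
  Tc := [(0, 3, 5)]
  Td := [((0, 3), (3, 2), 1), ((0, 3), (6, 1), 2), ((0, 3), (6, 5), 4), ((0, 5), (3, 2), 1), ((0,
    5), (6, 1), 2), ((0, 5), (6, 5), 4), ((3, 0), (7, 1), 2), ((3, 0), (7, 2), 1), ((5, 0),
    (4, 0), 1), ((5, 0), (4, 5), 4)]
  G := [[0, 0, 0, 0, 0x18829422129482c82c94e18], [0, 0x1818c21414c21212c4e18, 0,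
    0x1818949494c884c84c98e14, 0x3822142821c24e18], [0, 0, 0x2128c22422c82121c8e14, 0,
    0x21142212194222829222249222c2194ed22842488c89], [0, 0, 0x812441282128e14,
    0x8181944141c8c48981944144958849849c8e34, 0x28c28c91212194c8124a4222128e38]]

noncomputable def n3733 : Ent := ⟨e3733, noF, [], [], []⟩

def c3733 : PLift (Cov.check n3733.C.D v3733 = true) := ⟨by decide +kernel⟩

def b3733 : PLift (entF (fidx ts) 400 3733 n3733 = true) := ⟨by decide +kernel⟩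

theorem g3733 : GoodF (fidx ts) 400 3733 := GoodF.ofV v3733 n3733 c3733.down b3733.down

/-- 7684444:2761/3 -/
noncomputable def e3734 : SCfg where
  D := {
    a := 7
    L := 10
    kp := 7
    inn := [(0, 1), (0, 3), (0, 4), (1, 0), (1, 2), (1, 3), (2, 1), (2, 3), (2, 5), (2, 6), (3, 0), (3,
      1), (3, 2), (4, 0), (5, 2), (6, 2)]
    mix := [(0, 0), (0, 1), (0, 2), (0, 3), (1, 0), (1, 4), (1, 5), (2, 3), (2, 5), (2, 6), (2, 7), (3,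
      3), (4, 0), (4, 1), (4, 8), (5, 3), (5, 7), (5, 9), (6, 1), (6, 6), (6, 7)]
    cl := [1, 2, 1, 0, 5, 4, 0, 3, 6, 7]
    chq := [(0, 3), (0, 5), (3, 0), (5, 0)]
    rng := [(0, 4), (0, 8), (1, 2), (1, 6), (1, 7), (1, 8), (2, 1), (2, 3), (3, 2), (3, 9), (4, 0), (4,
      5), (5, 4), (5, 6), (6, 1), (6, 5), (7, 1), (7, 9), (8, 0), (8, 1), (9, 3), (9, 7)]
    lev := [] }
  links := [[1, 7, 4, 8, 9, 10, 3], [11, 7, 0, 3, 2, 12], [13, 12, 1, 3, 10, 5, 14, 6], [0, 10, 2, 1],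
    [7, 15, 8, 0], [2, 10, 16, 14], [2, 14, 8, 13]]
  P := {
    a := 7
    N := 17
    nb := [1946, 6285, 29802, 1031, 33153, 82948, 24836, 34835, 57937, 1281, 66093, 4226, 10246, 4420,
      65892, 400, 17440]
    tri := [(0, 1, 3), (0, 1, 7), (0, 3, 10), (0, 4, 7), (0, 4, 8), (0, 8, 9), (0, 9, 10), (1, 2, 3),
      (1, 2, 12), (1, 7, 11), (1, 11, 12), (2, 3, 10), (2, 5, 10), (2, 5, 14), (2, 6, 13), (2, 6,
      14), (2, 12, 13), (4, 7, 15), (4, 8, 15), (5, 10, 16), (5, 14, 16), (6, 8, 13), (6, 8, 14)]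
    fin := [0, 1, 1, 0, 0, 1, 6, 0, 6, 0, 1, 11, 12, 1, 14, 15, 16]
    chd := [(1, 11), (1, 14)]
    steps := [(0, 3), (0, 4), (0, 7), (0, 9), (1, 2), (1, 5), (1, 10), (1, 13), (6, 8)] }
  rep := [1, 0, 6, 14, 12, 11, 15, 16]

noncomputable def v3734 : Cov.CovD where
  P := 3
  N := 5
  pl := [1, 5, 8, 9]
  lev := [⟨[], [], [(0, 1), (1, 1)], [2], [(0, 1, []), (2, 1, []), (3, 0, [3, 5])]⟩,
    ⟨[], [(0, 0), (0, 1), (0, 5)], [(1, 5)], [4], [(0, 1, []), (4, 5, [0])]⟩,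
    ⟨[(0, 1)], [(0, 0), (1, 0), (1, 1), (1, 3), (1, 5)], [(0, 0), (0, 3)], [4], [(3, 0, [3,
      5]), (6, 0, [3, 5]), (7, 3, [0])]⟩,
    ⟨[(0, 1), (0, 2), (1, 2)], [(0, 0), (0, 1), (1, 0), (1, 1), (1, 5), (2, 0), (2, 3)],
      [], [], [(3, 0, [3, 5])]⟩,
    ⟨[(0, 1), (0, 3)], [(0, 0), (0, 1), (1, 1)], [], [2, 6], [(0, 1, [])]⟩,
    ⟨[(1, 2), (2, 3)], [(0, 0), (2, 0), (2, 3), (3, 0)], [(0, 3)], [7], [(3, 0, [3, 5]),
      (7, 3, [0])]⟩,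
    ⟨[(1, 2), (2, 3), (2, 5)], [(2, 0), (2, 3), (5, 3)], [(0, 3)], [2], [(6, 0, [3, 5]),
      (7, 3, [0])]⟩]
  Ta := [((0, 4), 1, 5), ((0, 8), 1, 6), ((2, 1), 1, 2), ((2, 3), 1, 0), ((3, 2), 0, 1), ((3, 9),
    0, 7), ((6, 1), 0, 2), ((6, 5), 0, 4)]
  Tb := [((0, 4, 8), 1, 5, 6), ((1, 2, 6), 2, 1, 0), ((1, 2, 7), 2, 1, 3), ((1, 2, 8), 2, 1, 6),
    ((1, 6, 7), 2, 0, 3), ((1, 6, 8), 2, 0, 6), ((1, 7, 8), 2, 3, 6), ((2, 1, 3), 1, 2, 0),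
    ((3, 2, 9), 0, 1, 7), ((4, 0, 5), 5, 1, 4), ((5, 4, 6), 4, 5, 0), ((6, 1, 5), 0, 2, 4),
    ((7, 1, 9), 3, 2, 7), ((8, 0, 1), 6, 1, 2), ((9, 3, 7), 7, 0, 3)]
  Tc := [(0, 3, 5)]
  Td := [((0, 3), (3, 2), 1), ((0, 3), (3, 9), 7), ((0, 3), (6, 1), 2), ((0, 3), (6, 5), 4), ((0,
    5), (3, 2), 1), ((0, 5), (3, 9), 7), ((0, 5), (6, 1), 2), ((0, 5), (6, 5), 4), ((3, 0),
    (7, 1), 2), ((3, 0), (7, 9), 7), ((5, 0), (4, 0), 1), ((5, 0), (4, 5), 4)]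
  G := [[0, 0, 0, 0, 0x188e312e94812e1a2e92821e111e94e18], [0,
    0x118e188ec2414e114ec2141e111ec4e18, 0, 0x18a18a9491694658811e841e98e14,
    0x188e24112e22211e24e18], [0, 0, 0x8181c24141c22121c8e14, 0,
    0xa11281126818194212192c2892899288c88c9222582394ed8a2e8228a84689], [0, 0,
    0x812441282128e18, 0x818194414158c4898859441443c84c58c994e34,
    0x81819422622691c888724a1242124e38]]

noncomputable def n3734 : Ent := ⟨e3734, noF, [], [], [(9, 16, [1580044410770988437309982408355971841652082177953823432505704402945, 0])]⟩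

def c3734 : PLift (Cov.check n3734.C.D v3734 = true) := ⟨by decide +kernel⟩

def b3734 : PLift (entF (fidx ts) 400 3734 n3734 = true) := ⟨by decide +kernel⟩

theorem g3734 : GoodF (fidx ts) 400 3734 := GoodF.ofV v3734 n3734 c3734.down b3734.down

/-- 7684444:2761/5 -/
noncomputable def e3735 : SCfg where
  D := {
    a := 7
    L := 10
    kp := 7
    inn := [(0, 1), (0, 3), (0, 4), (1, 0), (1, 2), (1, 3), (2, 1), (2, 3), (2, 5), (2, 6), (3, 0), (3,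
      1), (3, 2), (4, 0), (5, 2), (6, 2)]
    mix := [(0, 0), (0, 1), (0, 2), (0, 3), (1, 0), (1, 4), (1, 5), (2, 3), (2, 5), (2, 6), (2, 7), (3,
      3), (4, 0), (4, 1), (4, 8), (5, 2), (5, 3), (5, 7), (6, 6), (6, 7), (6, 9)]
    cl := [1, 4, 1, 0, 5, 2, 0, 3, 6, 7]
    chq := [(0, 3), (0, 5), (3, 0), (5, 0)]
    rng := [(0, 4), (0, 8), (1, 2), (1, 8), (2, 1), (2, 3), (2, 7), (3, 2), (4, 0), (4, 5), (5, 4), (5,
      6), (6, 5), (6, 9), (7, 2), (7, 9), (8, 0), (8, 1), (9, 6), (9, 7)]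
    lev := [] }
  links := [[1, 7, 4, 8, 9, 10, 3], [11, 7, 0, 3, 2, 12], [13, 12, 1, 3, 10, 5, 14, 6], [0, 10, 2, 1],
    [7, 15, 8, 0], [2, 10, 9, 14], [2, 14, 16, 13]]
  P := {
    a := 7
    N := 17
    nb := [1946, 6285, 29802, 1031, 33153, 17924, 90116, 34835, 33297, 17697, 557, 4226, 10246, 69700,
      66148, 400, 24640]
    tri := [(0, 1, 3), (0, 1, 7), (0, 3, 10), (0, 4, 7), (0, 4, 8), (0, 8, 9), (0, 9, 10), (1, 2, 3),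
      (1, 2, 12), (1, 7, 11), (1, 11, 12), (2, 3, 10), (2, 5, 10), (2, 5, 14), (2, 6, 13), (2, 6,
      14), (2, 12, 13), (4, 7, 15), (4, 8, 15), (5, 9, 10), (5, 9, 14), (6, 13, 16), (6, 14, 16)]
    fin := [0, 1, 1, 0, 0, 0, 1, 0, 8, 0, 1, 11, 12, 1, 14, 15, 16]
    chd := [(1, 11), (1, 14)]
    steps := [(0, 3), (0, 4), (0, 7), (0, 9), (1, 2), (1, 6), (1, 10), (0, 5), (1, 13)] }
  rep := [1, 0, 12, 14, 8, 11, 15, 16]

noncomputable def v3735 : Cov.CovD where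
  P := 3
  N := 5
  pl := [1, 5, 8, 9]
  lev := [⟨[], [], [(0, 1), (1, 1)], [4], [(0, 1, []), (2, 1, []), (3, 0, [3, 5])]⟩,
    ⟨[], [(0, 0), (0, 1), (0, 5)], [(1, 5)], [2], [(0, 1, []), (4, 5, [0])]⟩,
    ⟨[(0, 1)], [(0, 0), (1, 0), (1, 1), (1, 3), (1, 5)], [(0, 0), (0, 3)], [2], [(3, 0, [3,
      5]), (6, 0, [3, 5]), (7, 3, [0])]⟩,
    ⟨[(0, 1), (0, 2), (1, 2)], [(0, 0), (0, 1), (1, 0), (1, 1), (1, 5), (2, 0), (2, 3)],
      [], [], [(3, 0, [3, 5])]⟩,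
    ⟨[(0, 1), (0, 3)], [(0, 0), (0, 1), (1, 1)], [], [4, 6], [(0, 1, [])]⟩,
    ⟨[(1, 2), (2, 3)], [(0, 0), (0, 1), (2, 0), (2, 1), (2, 3), (3, 0)], [(0, 1), (0, 3),
      (1, 3)], [], [(2, 1, []), (3, 0, [3, 5]), (7, 3, [0])]⟩,
    ⟨[(1, 2), (2, 3), (2, 5)], [(2, 0), (2, 3), (5, 3)], [(0, 3)], [7], [(6, 0, [3, 5]),
      (7, 3, [0])]⟩]
  Ta := [((0, 4), 1, 5), ((0, 8), 1, 6), ((2, 1), 1, 4), ((2, 3), 1, 0), ((2, 7), 1, 3), ((3, 2),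
    0, 1), ((6, 5), 0, 2), ((6, 9), 0, 7)]
  Tb := [((0, 4, 8), 1, 5, 6), ((1, 2, 8), 4, 1, 6), ((2, 1, 3), 1, 4, 0), ((2, 1, 7), 1, 4, 3),
    ((2, 3, 7), 1, 0, 3), ((4, 0, 5), 5, 1, 2), ((5, 4, 6), 2, 5, 0), ((6, 5, 9), 0, 2, 7),
    ((7, 2, 9), 3, 1, 7), ((8, 0, 1), 6, 1, 4), ((9, 6, 7), 7, 0, 3)]
  Tc := [(0, 3, 5)]
  Td := [((0, 3), (3, 2), 1), ((0, 3), (6, 5), 2), ((0, 3), (6, 9), 7), ((0, 5), (3, 2), 1), ((0,
    5), (6, 5), 2), ((0, 5), (6, 9), 7), ((3, 0), (7, 2), 1), ((3, 0), (7, 9), 7), ((5, 0),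
    (4, 0), 1), ((5, 0), (4, 5), 2)]
  G := [[0, 0, 0, 0xa2a294121294c1a2a252141258c1c, 0xa1ca1c942116ca1c5821c], [0,
    0x18841282c118421248c112281428c1e, 0, 0x3838949422c15822949452c1c,
    0x1824641834a1182416c6458a1c], [0, 0, 0xe1142e1e1e1d42ce1e1e1d82e1182c228286c84aa6c442cd,
    0xa2a294626292c1a228a526224652c1c, 0xa69842d94216a5c695821c], [0, 0,
    0x6124261282c1c1948e8848281282a11284541615a449cec, 0x689689946128c168924616158c1c,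
    0xc42424e1a4a12c922869a6c58a1c]]

noncomputable def n3735 : Ent := ⟨e3735, noF, [], [], [(15, 16, [1580044410770988437309982408355971841652082177953823432505704394753, 0]), (8, 16, [1580044410770988437309982408355971841652082177953823432505704402945, 0])]⟩

def c3735 : PLift (Cov.check n3735.C.D v3735 = true) := ⟨by decide +kernel⟩

def b3735 : PLift (entF (fidx ts) 400 3735 n3735 = true) := ⟨by decide +kernel⟩

theorem g3735 : GoodF (fidx ts) 400 3735 := GoodF.ofV v3735 n3735 c3735.down b3735.down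

/-- 7684444:2761 -/
noncomputable def e3736 : SCfg where
  D := {
    a := 7
    L := 11
    kp := 8
    inn := [(0, 1), (0, 3), (0, 4), (1, 0), (1, 2), (1, 3), (2, 1), (2, 3), (2, 5), (2, 6), (3, 0), (3,
      1), (3, 2), (4, 0), (5, 2), (6, 2)]
    mix := [(0, 0), (0, 1), (0, 2), (0, 3), (1, 0), (1, 4), (1, 5), (2, 3), (2, 5), (2, 6), (2, 7), (3,
      3), (4, 0), (4, 1), (4, 8), (5, 3), (5, 7), (5, 9), (6, 6), (6, 7), (6, 10)]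
    cl := [1, 2, 1, 0, 5, 4, 0, 3, 6, 7, 8]
    chq := [(0, 3), (0, 5), (3, 0), (5, 0)]
    rng := [(0, 4), (0, 8), (1, 2), (1, 8), (2, 1), (2, 3), (3, 2), (3, 9), (4, 0), (4, 5), (5, 4), (5,
      6), (6, 5), (6, 10), (7, 9), (7, 10), (8, 0), (8, 1), (9, 3), (9, 7), (10, 6), (10, 7)]
    lev := [] }
  links := [[1, 7, 4, 8, 9, 10, 3], [11, 7, 0, 3, 2, 12], [13, 12, 1, 3, 10, 5, 14, 6], [0, 10, 2, 1],
    [7, 15, 8, 0], [2, 10, 16, 14], [2, 14, 17, 13]]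
  P := {
    a := 7
    N := 18
    nb := [1946, 6285, 29802, 1031, 33153, 82948, 155652, 34835, 33297, 1281, 66093, 4226, 10246,
      135236, 196708, 400, 17440, 24640]
    tri := [(0, 1, 3), (0, 1, 7), (0, 3, 10), (0, 4, 7), (0, 4, 8), (0, 8, 9), (0, 9, 10), (1, 2, 3),
      (1, 2, 12), (1, 7, 11), (1, 11, 12), (2, 3, 10), (2, 5, 10), (2, 5, 14), (2, 6, 13), (2, 6,
      14), (2, 12, 13), (4, 7, 15), (4, 8, 15), (5, 10, 16), (5, 14, 16), (6, 13, 17), (6, 14,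
      17)]
    fin := [0, 1, 1, 0, 0, 1, 1, 0, 8, 0, 1, 11, 12, 1, 14, 15, 16, 17]
    chd := [(1, 11), (1, 14)]
    steps := [(0, 3), (0, 4), (0, 7), (0, 9), (1, 2), (1, 5), (1, 6), (1, 10), (1, 13)] }
  rep := [1, 0, 8, 14, 12, 11, 15, 16, 17]

noncomputable def v3736 : Cov.CovD where
  P := 3
  N := 6
  pl := [1, 5, 8, 9, 10]
  lev := [⟨[], [], [(0, 1), (1, 1)], [2], [(0, 1, []), (2, 1, []), (3, 0, [3, 5])]⟩,
    ⟨[], [(0, 0), (0, 1), (0, 5)], [(1, 5)], [4], [(0, 1, []), (4, 5, [0])]⟩,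
    ⟨[(0, 1)], [(0, 0), (1, 0), (1, 1), (1, 3), (1, 5)], [(0, 0), (0, 3)], [4], [(3, 0, [3,
      5]), (6, 0, [3, 5]), (7, 3, [0])]⟩,
    ⟨[(0, 1), (0, 2), (1, 2)], [(0, 0), (0, 1), (1, 0), (1, 1), (1, 5), (2, 0), (2, 3)],
      [], [], [(3, 0, [3, 5])]⟩,
    ⟨[(0, 1), (0, 3)], [(0, 0), (0, 1), (1, 1)], [], [2, 6], [(0, 1, [])]⟩,
    ⟨[(1, 2), (2, 3)], [(0, 0), (2, 0), (2, 3), (3, 0)], [(0, 3)], [7], [(3, 0, [3, 5]),
      (7, 3, [0])]⟩,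
    ⟨[(1, 2), (2, 3), (2, 5)], [(2, 0), (2, 3), (5, 3)], [(0, 3)], [8], [(6, 0, [3, 5]),
      (7, 3, [0])]⟩]
  Ta := [((0, 4), 1, 5), ((0, 8), 1, 6), ((2, 1), 1, 2), ((2, 3), 1, 0), ((3, 2), 0, 1), ((3, 9),
    0, 7), ((6, 5), 0, 4), ((6, 10), 0, 8)]
  Tb := [((0, 4, 8), 1, 5, 6), ((1, 2, 8), 2, 1, 6), ((2, 1, 3), 1, 2, 0), ((3, 2, 9), 0, 1, 7),
    ((4, 0, 5), 5, 1, 4), ((5, 4, 6), 4, 5, 0), ((6, 5, 10), 0, 4, 8), ((7, 9, 10), 3, 7, 8),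
    ((8, 0, 1), 6, 1, 2), ((9, 3, 7), 7, 0, 3), ((10, 6, 7), 8, 0, 3)]
  Tc := [(0, 3, 5)]
  Td := [((0, 3), (3, 2), 1), ((0, 3), (3, 9), 7), ((0, 3), (6, 5), 4), ((0, 3), (6, 10), 8),
    ((0, 5), (3, 2), 1), ((0, 5), (3, 9), 7), ((0, 5), (6, 5), 4), ((0, 5), (6, 10), 8), ((3,
    0), (7, 9), 7), ((3, 0), (7, 10), 8), ((5, 0), (4, 0), 1), ((5, 0), (4, 5), 4)]
  G := [[0, 0, 0x1cae513ec4116e191ec2161ea61ec4e18, 0, 0x519e1c1e94c16e116e92161ea11e94e18], [0,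
    0x111e111ec2111e111ec2111e4111e8ce14, 0x15ae24911e22135e28e14,
    0x51ae1c1e92916e111e58161ea11e94e14, 0x1c9e22c31e22351e24e18], [0, 0,
    0xc1426161c4a4c1c1c8a1a1c86c1828ce586e946ae36e3c26e54ae98cedc, 0,
    0xc112a1146c1c192616194a2e342e79248ed8e9926ca764a794ed42682ca6e88a48e88e89], [0, 0,
    0xa1228bc486e924a2c722ce328e36161c842c, 0xe1e194616158c2a36a8b948a6d6e392c4a7ae994e34,
    0x61224212841286e1e194824ad244128832cc4a728ef8]]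

noncomputable def n3736 : Ent := ⟨e3736, noF, [], [], [(15, 17, [6903326391201334775872065844685381424292761054348340378595029944975361, 0]), (8, 17, [6903326391201334775872065844685381424292761054348340378595029944983553, 0]), (9, 16, [7334685537875745012586738086077695515070955365108989538292687708975105, 0])]⟩

def c3736 : PLift (Cov.check n3736.C.D v3736 = true) := ⟨by decide +kernel⟩

def b3736 : PLift (entF (fidx ts) 400 3736 n3736 = true) := ⟨by decide +kernel⟩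

theorem g3736 : GoodF (fidx ts) 400 3736 := GoodF.ofV v3736 n3736 c3736.down b3736.down

/-- 8766544:2762/1 -/
noncomputable def e3737 : SCfg where
  D := {
    a := 7
    L := 11
    kp := 9
    inn := [(0, 1), (0, 2), (0, 3), (0, 4), (0, 5), (1, 0), (1, 2), (1, 5), (1, 6), (2, 0), (2, 1), (2,
      3), (2, 6), (3, 0), (3, 2), (4, 0), (5, 0), (5, 1), (6, 1), (6, 2)]
    mix := [(0, 0), (0, 1), (0, 2), (1, 3), (1, 4), (1, 5), (2, 6), (2, 7), (3, 1), (3, 7), (3, 8), (3,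
      9), (4, 1), (4, 2), (4, 8), (4, 10), (5, 0), (5, 3), (6, 5), (6, 6)]
    cl := [1, 0, 0, 6, 7, 3, 2, 4, 5, 8, 9]
    chq := [(1, 2), (1, 3), (1, 4), (1, 5), (1, 7), (1, 8), (2, 1), (3, 1), (4, 1), (5, 1), (7, 1), (8,
      1)]
    rng := [(0, 2), (0, 3), (1, 8), (2, 0), (2, 10), (3, 0), (3, 4), (4, 3), (4, 5), (5, 4), (5, 6),
      (6, 5), (6, 7), (7, 6), (7, 9), (8, 1), (8, 9), (8, 10), (9, 7), (9, 8), (10, 2), (10, 8)]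
    lev := [] }
  links := [[7, 5, 1, 2, 3, 8, 4, 9], [2, 0, 5, 10, 11, 12, 6], [3, 0, 1, 6, 13, 14], [15, 8, 0, 2, 14,
    16], [9, 0, 8, 15, 17], [0, 7, 10, 1], [1, 12, 13, 2]]
  P := {
    a := 7
    N := 18
    nb := [958, 7269, 24651, 114949, 164609, 1155, 12294, 1569, 32793, 131217, 2210, 5122, 10306,
      20548, 73740, 196888, 49160, 33296]
    tri := [(0, 1, 2), (0, 1, 5), (0, 2, 3), (0, 3, 8), (0, 4, 8), (0, 4, 9), (0, 5, 7), (0, 7, 9), (1,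
      2, 6), (1, 5, 10), (1, 6, 12), (1, 10, 11), (1, 11, 12), (2, 3, 14), (2, 6, 13), (2, 13,
      14), (3, 8, 15), (3, 14, 16), (3, 15, 16), (4, 8, 15), (4, 9, 17), (4, 15, 17), (5, 7, 10),
      (6, 12, 13)]
    fin := [0, 1, 1, 1, 4, 1, 1, 1, 0, 0, 10, 11, 12, 13, 14, 4, 16, 17]
    chd := [(1, 4), (1, 11), (1, 12), (1, 13), (1, 14), (1, 16)]
    steps := [(0, 8), (0, 9), (1, 2), (1, 3), (1, 5), (1, 6), (1, 7), (4, 15)] }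
  rep := [0, 1, 13, 12, 14, 4, 10, 11, 16, 17]

noncomputable def v3737 : Cov.CovD where
  P := 3
  N := 7
  pl := [3, 10]
  lev := [⟨[], [], [(0, 0), (0, 1)], [], [(0, 1, [2, 3, 4, 5, 7, 8]), (1, 0, []), (2, 0, [])]⟩,
    ⟨[], [(0, 0), (0, 1), (0, 3), (0, 7)], [(3, 7)], [6], [(4, 7, [1]), (5, 3, [1])]⟩,
    ⟨[(0, 1)], [(0, 0), (0, 1), (0, 2), (0, 4), (1, 2), (1, 3), (1, 4), (1, 7)], [(2, 4)],
      [], [(6, 2, [1]), (7, 4, [1])]⟩,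
    ⟨[(0, 1), (0, 2), (1, 2)], [(0, 0), (0, 1), (0, 4), (0, 5), (0, 8), (2, 0), (2, 2), (2,
      4), (2, 5), (2, 8)], [(0, 4), (0, 5), (0, 8), (4, 5), (4, 8), (5, 8)], [], [(1, 0, []),
      (7, 4, [1]), (8, 5, [1]), (9, 8, [1])]⟩,
    ⟨[(0, 1), (0, 2), (0, 3)], [(0, 0), (0, 1), (0, 5), (3, 0), (3, 5)], [(0, 0), (0, 5)],
      [9], [(1, 0, []), (2, 0, []), (8, 5, [1])]⟩,
    ⟨[(0, 1), (0, 2), (0, 3), (0, 4), (1, 2)], [(0, 0), (0, 1), (1, 1), (1, 3), (1, 7)],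
      [], [6], [(0, 1, [2, 3, 4, 5, 7, 8])]⟩,
    ⟨[(0, 1), (0, 2), (1, 2), (1, 5), (2, 3)], [(1, 2), (1, 3), (1, 7), (2, 2), (2, 3), (2,
      4)], [(2, 3)], [], [(5, 3, [1]), (6, 2, [1])]⟩]
  Ta := [((1, 8), 0, 5), ((2, 0), 0, 1), ((2, 10), 0, 9)]
  Tb := [((0, 2, 3), 1, 0, 6), ((2, 0, 10), 0, 1, 9), ((3, 0, 4), 6, 1, 7), ((4, 3, 5), 7, 6, 3),
    ((5, 4, 6), 3, 7, 2), ((6, 5, 7), 2, 3, 4), ((7, 6, 9), 4, 2, 8), ((8, 1, 9), 5, 0, 8),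
    ((8, 1, 10), 5, 0, 9), ((8, 9, 10), 5, 8, 9), ((9, 7, 8), 8, 4, 5), ((10, 2, 8), 9, 0,
    5)]
  Tc := [(1, 2, 3), (1, 2, 4), (1, 2, 5), (1, 2, 7), (1, 2, 8), (1, 3, 4), (1, 3, 5), (1, 3, 7),
    (1, 3, 8), (1, 4, 5), (1, 4, 7), (1, 4, 8), (1, 5, 7), (1, 5, 8), (1, 7, 8)]
  Td := [((1, 2), (0, 2), 0), ((1, 2), (0, 3), 6), ((1, 3), (0, 2), 0), ((1, 3), (0, 3), 6), ((1,
    4), (0, 2), 0), ((1, 4), (0, 3), 6), ((1, 5), (0, 2), 0), ((1, 5), (0, 3), 6), ((1, 7),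
    (0, 2), 0), ((1, 7), (0, 3), 6), ((1, 8), (0, 2), 0), ((1, 8), (0, 3), 6), ((2, 1), (6,
    5), 3), ((2, 1), (6, 7), 4), ((3, 1), (5, 4), 7), ((3, 1), (5, 6), 2), ((4, 1), (7, 6),
    2), ((4, 1), (7, 9), 8), ((5, 1), (8, 1), 0), ((5, 1), (8, 9), 8), ((5, 1), (8, 10), 9),
    ((7, 1), (4, 3), 6), ((7, 1), (4, 5), 3), ((8, 1), (9, 7), 4), ((8, 1), (9, 8), 5)]
  G := [[0, 0, 0x414848e2262526562cc52c9c6ce2c68188384e222cc8282121a22121a2c142ebc,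
    0x955cc95cce29c5c9959ce2924,
    0x242162242424e29141414e225848184e2221828929399995e2299929999e29ec], [0,
    0x11611c11ce111a11611ce1c12,
    0x4434148e22c2c4242182c1c16267818184e22c2cc29ccce2a292a9a2c21828bc,
    0x5142cc5c49c9e29c558481de2d28,
    0x944224848181e222821a22828a299a539939ce299c9a9a99e29181814e22fc]]

noncomputable def n3737 : Ent := ⟨e3737, noF, [], [], []⟩

def c3737 : PLift (Cov.check n3737.C.D v3737 = true) := ⟨by decide +kernel⟩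

def b3737 : PLift (entF (fidx ts) 400 3737 n3737 = true) := ⟨by decide +kernel⟩

theorem g3737 : GoodF (fidx ts) 400 3737 := GoodF.ofV v3737 n3737 c3737.down b3737.down

/-- 8766544:2762 -/
noncomputable def e3738 : SCfg where
  D := {
    a := 7
    L := 12
    kp := 10
    inn := [(0, 1), (0, 2), (0, 3), (0, 4), (0, 5), (1, 0), (1, 2), (1, 5), (1, 6), (2, 0), (2, 1), (2,
      3), (2, 6), (3, 0), (3, 2), (4, 0), (5, 0), (5, 1), (6, 1), (6, 2)]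
    mix := [(0, 0), (0, 1), (0, 2), (1, 3), (1, 4), (1, 5), (2, 6), (2, 7), (3, 1), (3, 7), (3, 8), (3,
      9), (4, 1), (4, 2), (4, 10), (4, 11), (5, 0), (5, 3), (6, 5), (6, 6)]
    cl := [1, 0, 0, 5, 6, 3, 2, 4, 7, 8, 9, 10]
    chq := [(1, 2), (1, 3), (1, 4), (1, 6), (1, 7), (1, 8), (2, 1), (3, 1), (4, 1), (6, 1), (7, 1), (8,
      1)]
    rng := [(0, 2), (0, 3), (1, 8), (1, 10), (2, 0), (2, 11), (3, 0), (3, 4), (4, 3), (4, 5), (5, 4),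
      (5, 6), (6, 5), (6, 7), (7, 6), (7, 9), (8, 1), (8, 9), (9, 7), (9, 8), (10, 1), (10, 11),
      (11, 2), (11, 10)]
    lev := [] }
  links := [[7, 5, 1, 2, 3, 8, 4, 9], [2, 0, 5, 10, 11, 12, 6], [3, 0, 1, 6, 13, 14], [15, 8, 0, 2, 14,
    16], [9, 0, 8, 17, 18], [0, 7, 10, 1], [1, 12, 13, 2]]
  P := {
    a := 7
    N := 19
    nb := [958, 7269, 24651, 114949, 393985, 1155, 12294, 1569, 163865, 262289, 2210, 5122, 10306,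
      20548, 73740, 65800, 49160, 262416, 131600]
    tri := [(0, 1, 2), (0, 1, 5), (0, 2, 3), (0, 3, 8), (0, 4, 8), (0, 4, 9), (0, 5, 7), (0, 7, 9), (1,
      2, 6), (1, 5, 10), (1, 6, 12), (1, 10, 11), (1, 11, 12), (2, 3, 14), (2, 6, 13), (2, 13,
      14), (3, 8, 15), (3, 14, 16), (3, 15, 16), (4, 8, 17), (4, 9, 18), (4, 17, 18), (5, 7, 10),
      (6, 12, 13)]
    fin := [0, 0, 0, 0, 4, 0, 0, 0, 4, 4, 10, 11, 12, 13, 14, 15, 16, 17, 18]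
    chd := [(0, 11), (0, 12), (0, 13), (0, 14), (0, 15), (0, 16)]
    steps := [(0, 1), (0, 2), (0, 3), (0, 5), (0, 6), (0, 7), (4, 8), (4, 9)] }
  rep := [4, 0, 13, 12, 14, 10, 11, 15, 16, 17, 18]

noncomputable def v3738 : Cov.CovD where
  P := 3
  N := 8
  pl := [3, 10, 11]
  lev := [⟨[], [], [(0, 0), (0, 1)], [], [(0, 1, [2, 3, 4, 6, 7, 8]), (1, 0, []), (2, 0, [])]⟩,
    ⟨[], [(0, 0), (0, 1), (0, 3), (0, 6)], [(3, 6)], [5], [(4, 6, [1]), (5, 3, [1])]⟩,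
    ⟨[(0, 1)], [(0, 0), (0, 1), (0, 2), (0, 4), (1, 2), (1, 3), (1, 4), (1, 6)], [(2, 4)],
      [], [(6, 2, [1]), (7, 4, [1])]⟩,
    ⟨[(0, 1), (0, 2), (1, 2)], [(0, 0), (0, 1), (0, 4), (0, 7), (0, 8), (2, 0), (2, 2), (2,
      4), (2, 7), (2, 8)], [(0, 4), (0, 7), (0, 8), (4, 7), (4, 8), (7, 8)], [], [(1, 0, []),
      (7, 4, [1]), (8, 7, [1]), (9, 8, [1])]⟩,
    ⟨[(0, 1), (0, 2), (0, 3)], [(0, 0), (0, 1), (3, 0)], [(0, 0)], [9, 10], [(1, 0, []),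
      (2, 0, [])]⟩,
    ⟨[(0, 1), (0, 2), (0, 3), (0, 4), (1, 2)], [(0, 0), (0, 1), (1, 1), (1, 3), (1, 6)],
      [], [5], [(0, 1, [2, 3, 4, 6, 7, 8])]⟩,
    ⟨[(0, 1), (0, 2), (1, 2), (1, 5), (2, 3)], [(1, 2), (1, 3), (1, 6), (2, 2), (2, 3), (2,
      4)], [(2, 3)], [], [(5, 3, [1]), (6, 2, [1])]⟩]
  Ta := [((1, 8), 0, 7), ((1, 10), 0, 9), ((2, 0), 0, 1), ((2, 11), 0, 10)]
  Tb := [((0, 2, 3), 1, 0, 5), ((1, 8, 10), 0, 7, 9), ((2, 0, 11), 0, 1, 10), ((3, 0, 4), 5, 1,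
    6), ((4, 3, 5), 6, 5, 3), ((5, 4, 6), 3, 6, 2), ((6, 5, 7), 2, 3, 4), ((7, 6, 9), 4, 2,
    8), ((8, 1, 9), 7, 0, 8), ((9, 7, 8), 8, 4, 7), ((10, 1, 11), 9, 0, 10), ((11, 2, 10),
    10, 0, 9)]
  Tc := [(1, 2, 3), (1, 2, 4), (1, 2, 6), (1, 2, 7), (1, 2, 8), (1, 3, 4), (1, 3, 6), (1, 3, 7),
    (1, 3, 8), (1, 4, 6), (1, 4, 7), (1, 4, 8), (1, 6, 7), (1, 6, 8), (1, 7, 8)]
  Td := [((1, 2), (0, 2), 0), ((1, 2), (0, 3), 5), ((1, 3), (0, 2), 0), ((1, 3), (0, 3), 5), ((1,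
    4), (0, 2), 0), ((1, 4), (0, 3), 5), ((1, 6), (0, 2), 0), ((1, 6), (0, 3), 5), ((1, 7),
    (0, 2), 0), ((1, 7), (0, 3), 5), ((1, 8), (0, 2), 0), ((1, 8), (0, 3), 5), ((2, 1), (6,
    5), 3), ((2, 1), (6, 7), 4), ((3, 1), (5, 4), 6), ((3, 1), (5, 6), 2), ((4, 1), (7, 6),
    2), ((4, 1), (7, 9), 8), ((6, 1), (4, 3), 5), ((6, 1), (4, 5), 3), ((7, 1), (8, 1), 0),
    ((7, 1), (8, 9), 8), ((8, 1), (9, 7), 4), ((8, 1), (9, 8), 7)]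
  G := [[0, 0, 0x4434148e222cc4246818181e22c2cc29aa9e2a29aa9a2cc1c1c1e22bc,
    0xcc5555cc5e29c5148dc99e2528,
    0x21229498c22822b4818181e229a939929ce22ac399925e29181818e22bc], [0,
    0x11c11c11ce111a11a11ce1c12,
    0x414148e22cc52ccac9e24212162212462c182e7848181e22cc9c29ccce28ac,
    0x515462c5558c1e25555498e2d28,
    0x242462242424e294818184e2228828395939299e2339999299e29181814e22fc]]

noncomputable def n3738 : Ent := ⟨e3738, noF, [], [], [(15, 17, [31810150492402119267275227079217218666319002904815489586567506653228929025, 0])]⟩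

def c3738 : PLift (Cov.check n3738.C.D v3738 = true) := ⟨by decide +kernel⟩

def b3738 : PLift (entF (fidx ts) 400 3738 n3738 = true) := ⟨by decide +kernel⟩

theorem g3738 : GoodF (fidx ts) 400 3738 := GoodF.ofV v3738 n3738 c3738.down b3738.down

/-- 8567744:2764/1 -/
noncomputable def e3739 : SCfg where
  D := {
    a := 7
    L := 11
    kp := 8
    inn := [(0, 1), (0, 2), (0, 3), (0, 5), (1, 0), (1, 4), (1, 5), (2, 0), (2, 3), (2, 4), (2, 5), (3,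
      0), (3, 2), (3, 6), (4, 1), (4, 2), (4, 5), (5, 0), (5, 1), (5, 2), (5, 4), (6, 3)]
    mix := [(0, 0), (0, 1), (0, 2), (0, 3), (1, 3), (1, 4), (2, 5), (2, 6), (3, 0), (3, 6), (3, 7), (3,
      8), (4, 4), (4, 5), (4, 9), (4, 10), (6, 4), (6, 7), (6, 8)]
    cl := [3, 5, 6, 2, 0, 0, 1, 3, 4, 7, 8]
    chq := [(1, 2), (1, 5), (1, 6), (2, 1), (5, 1), (6, 1)]
    rng := [(0, 1), (0, 8), (1, 0), (1, 2), (2, 1), (2, 3), (3, 2), (3, 4), (4, 3), (4, 7), (4, 8), (4,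
      9), (5, 6), (5, 10), (6, 5), (6, 7), (7, 4), (7, 6), (8, 0), (8, 4), (9, 4), (9, 10), (10,
      5), (10, 9)]
    lev := [] }
  links := [[1, 5, 2, 3, 7, 8, 9, 10], [4, 5, 0, 10, 11], [3, 0, 5, 4, 12, 13], [7, 0, 2, 13, 14, 6, 15],
    [12, 2, 5, 1, 11, 16, 17], [0, 1, 4, 2], [3, 14, 11, 15]]
  P := {
    a := 7
    N := 18
    nb := [1966, 3121, 12345, 57541, 202790, 23, 51208, 33033, 641, 1281, 2563, 115794, 139284, 20492,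
      10312, 2248, 133136, 69648]
    tri := [(0, 1, 5), (0, 1, 10), (0, 2, 3), (0, 2, 5), (0, 3, 7), (0, 7, 8), (0, 8, 9), (0, 9, 10),
      (1, 4, 5), (1, 4, 11), (1, 10, 11), (2, 3, 13), (2, 4, 5), (2, 4, 12), (2, 12, 13), (3, 6,
      14), (3, 6, 15), (3, 7, 15), (3, 13, 14), (4, 11, 16), (4, 12, 17), (4, 16, 17), (6, 11,
      14), (6, 11, 15)]
    fin := [0, 1, 0, 3, 4, 1, 3, 3, 8, 9, 1, 4, 4, 0, 3, 15, 16, 17]
    chd := [(1, 0), (8, 0), (9, 0)]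
    steps := [(0, 2), (0, 13), (1, 5), (1, 10), (3, 6), (3, 7), (3, 14), (4, 11), (4, 12)] }
  rep := [4, 0, 1, 3, 15, 8, 9, 16, 17]

noncomputable def v3739 : Cov.CovD where
  P := 3
  N := 6
  pl := [8, 9, 10]
  lev := [⟨[], [], [(2, 3), (2, 5), (2, 6), (3, 5), (3, 6), (5, 6)], [], [(0, 3, []), (1, 5,
      [1]), (2, 6, [1]), (3, 2, [1])]⟩,
    ⟨[], [(0, 0), (0, 2), (0, 3), (0, 5), (0, 6)], [(0, 2)], [], [(3, 2, [1]), (4, 0, [])]⟩,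
    ⟨[(0, 1)], [(0, 0), (0, 1), (0, 2), (0, 3), (0, 5), (0, 6)], [(0, 1)], [], [(5, 0, []),
      (6, 1, [2, 5, 6])]⟩,
    ⟨[(0, 1), (0, 2)], [(0, 1), (0, 2), (0, 3), (0, 5), (0, 6), (2, 0), (2, 1), (2, 3)],
      [(1, 3), (3, 3)], [4], [(0, 3, []), (6, 1, [2, 5, 6]), (7, 3, [])]⟩,
    ⟨[(0, 1), (0, 2), (1, 2), (2, 3)], [(1, 0), (1, 2), (2, 0), (2, 1)], [(0, 0)], [7, 8],
      [(4, 0, []), (5, 0, [])]⟩,
    ⟨[(0, 1), (0, 2), (0, 3), (0, 4), (1, 2), (1, 4), (2, 3), (2, 4)], [(0, 2), (0, 3), (0,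
      5), (0, 6), (1, 0), (1, 2), (2, 0), (2, 1), (4, 0)], [], [], []⟩,
    ⟨[(0, 3), (2, 3)], [(1, 0), (3, 0), (3, 1), (3, 3), (4, 0)], [(0, 3)], [4], [(4, 0,
      []), (7, 3, [])]⟩]
  Ta := [((0, 1), 3, 5), ((0, 8), 3, 4), ((4, 3), 0, 2), ((4, 7), 0, 3), ((4, 8), 0, 4), ((4, 9),
    0, 7), ((5, 6), 0, 1), ((5, 10), 0, 8), ((7, 4), 3, 0), ((7, 6), 3, 1)]
  Tb := [((0, 1, 8), 3, 5, 4), ((1, 0, 2), 5, 3, 6), ((2, 1, 3), 6, 5, 2), ((3, 2, 4), 2, 6, 0),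
    ((4, 3, 7), 0, 2, 3), ((4, 3, 8), 0, 2, 4), ((4, 3, 9), 0, 2, 7), ((4, 7, 8), 0, 3, 4),
    ((4, 7, 9), 0, 3, 7), ((4, 8, 9), 0, 4, 7), ((5, 6, 10), 0, 1, 8), ((6, 5, 7), 1, 0, 3),
    ((7, 4, 6), 3, 0, 1), ((8, 0, 4), 4, 3, 0), ((9, 4, 10), 7, 0, 8), ((10, 5, 9), 8, 0, 7)]
  Tc := [(1, 2, 5), (1, 2, 6), (1, 5, 6)]
  Td := [((1, 2), (6, 5), 0), ((1, 2), (6, 7), 3), ((1, 5), (6, 5), 0), ((1, 5), (6, 7), 3), ((1,
    6), (6, 5), 0), ((1, 6), (6, 7), 3), ((2, 1), (3, 2), 6), ((2, 1), (3, 4), 0), ((5, 1),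
    (1, 0), 3), ((5, 1), (1, 2), 6), ((6, 1), (2, 1), 5), ((6, 1), (2, 3), 2)]
  G := [[0, 0, 0xc4c8a4e1842, 0x818848e24c828e9448844e4582, 0x242141e8128a6168c8ed4444582], [0,
    0, 0xe1e8e4e1842, 0x244844e642824e5848888e8942, 0x818888e216121e9442448e4582], [0,
    0x848188e1112a112822ee1244681, 0, 0x64c8c1e1482, 0xc4c8c4e1412], [0,
    0x1122811288e141248e1114cea81, 0, 0xe4e8e4e1842, 0xe4e8e8e1812]]

noncomputable def n3739 : Ent := ⟨e3739, noF, [], [], []⟩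

def c3739 : PLift (Cov.check n3739.C.D v3739 = true) := ⟨by decide +kernel⟩

def b3739 : PLift (entF (fidx ts) 400 3739 n3739 = true) := ⟨by decide +kernel⟩

theorem g3739 : GoodF (fidx ts) 400 3739 := GoodF.ofV v3739 n3739 c3739.down b3739.down

/-- 8567744:2764/2 -/
noncomputable def e3740 : SCfg where
  D := {
    a := 7
    L := 11
    kp := 8
    inn := [(0, 1), (0, 2), (0, 3), (0, 5), (1, 0), (1, 4), (1, 5), (2, 0), (2, 3), (2, 4), (2, 5), (3,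
      0), (3, 2), (3, 6), (4, 1), (4, 2), (4, 5), (5, 0), (5, 1), (5, 2), (5, 4), (6, 3)]
    mix := [(0, 0), (0, 1), (0, 2), (0, 3), (1, 3), (1, 4), (2, 5), (2, 6), (3, 0), (3, 6), (3, 7), (3,
      8), (4, 4), (4, 5), (4, 9), (4, 10), (6, 7), (6, 8), (6, 9)]
    cl := [3, 6, 7, 2, 0, 0, 1, 3, 4, 5, 8]
    chq := [(1, 2), (1, 6), (1, 7), (2, 1), (6, 1), (7, 1)]
    rng := [(0, 1), (0, 8), (1, 0), (1, 2), (2, 1), (2, 3), (3, 2), (3, 4), (4, 3), (4, 9), (5, 6), (5,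
      10), (6, 5), (6, 7), (7, 6), (7, 9), (8, 0), (8, 9), (9, 4), (9, 7), (9, 8), (9, 10), (10,
      5), (10, 9)]
    lev := [] }
  links := [[1, 5, 2, 3, 7, 8, 9, 10], [4, 5, 0, 10, 11], [3, 0, 5, 4, 12, 13], [7, 0, 2, 13, 14, 6, 15],
    [12, 2, 5, 1, 11, 16, 17], [0, 1, 4, 2], [3, 14, 16, 15]]
  P := {
    a := 7
    N := 18
    nb := [1966, 3121, 12345, 57541, 202790, 23, 114696, 33033, 641, 1281, 2563, 66578, 139284, 20492,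
      73800, 65736, 182352, 69648]
    tri := [(0, 1, 5), (0, 1, 10), (0, 2, 3), (0, 2, 5), (0, 3, 7), (0, 7, 8), (0, 8, 9), (0, 9, 10),
      (1, 4, 5), (1, 4, 11), (1, 10, 11), (2, 3, 13), (2, 4, 5), (2, 4, 12), (2, 12, 13), (3, 6,
      14), (3, 6, 15), (3, 7, 15), (3, 13, 14), (4, 11, 16), (4, 12, 17), (4, 16, 17), (6, 14,
      16), (6, 15, 16)]
    fin := [0, 1, 0, 3, 4, 1, 3, 3, 8, 9, 1, 4, 4, 0, 3, 15, 16, 17]
    chd := [(1, 0), (8, 0), (9, 0)]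
    steps := [(0, 2), (0, 13), (1, 5), (1, 10), (3, 6), (3, 7), (3, 14), (4, 11), (4, 12)] }
  rep := [4, 0, 1, 3, 15, 16, 8, 9, 17]

noncomputable def v3740 : Cov.CovD where
  P := 3
  N := 6
  pl := [8, 9, 10]
  lev := [⟨[], [], [(2, 3), (2, 6), (2, 7), (3, 6), (3, 7), (6, 7)], [], [(0, 3, []), (1, 6,
      [1]), (2, 7, [1]), (3, 2, [1])]⟩,
    ⟨[], [(0, 0), (0, 2), (0, 3), (0, 6), (0, 7)], [(0, 2)], [], [(3, 2, [1]), (4, 0, [])]⟩,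
    ⟨[(0, 1)], [(0, 0), (0, 1), (0, 2), (0, 3), (0, 6), (0, 7)], [(0, 1)], [], [(5, 0, []),
      (6, 1, [2, 6, 7])]⟩,
    ⟨[(0, 1), (0, 2)], [(0, 1), (0, 2), (0, 3), (0, 6), (0, 7), (2, 0), (2, 1), (2, 3)],
      [(1, 3), (3, 3)], [4], [(0, 3, []), (6, 1, [2, 6, 7]), (7, 3, [])]⟩,
    ⟨[(0, 1), (0, 2), (1, 2), (2, 3)], [(1, 0), (1, 2), (2, 0), (2, 1)], [(0, 0)], [5, 8],
      [(4, 0, []), (5, 0, [])]⟩,
    ⟨[(0, 1), (0, 2), (0, 3), (0, 4), (1, 2), (1, 4), (2, 3), (2, 4)], [(0, 2), (0, 3), (0,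
      6), (0, 7), (1, 0), (1, 2), (2, 0), (2, 1), (4, 0)], [], [], []⟩,
    ⟨[(0, 3), (2, 3)], [(3, 1), (3, 3)], [], [4, 5], [(7, 3, [])]⟩]
  Ta := [((0, 1), 3, 6), ((0, 8), 3, 4), ((4, 3), 0, 2), ((4, 9), 0, 5), ((5, 6), 0, 1), ((5,
    10), 0, 8), ((7, 6), 3, 1), ((7, 9), 3, 5)]
  Tb := [((0, 1, 8), 3, 6, 4), ((1, 0, 2), 6, 3, 7), ((2, 1, 3), 7, 6, 2), ((3, 2, 4), 2, 7, 0),
    ((4, 3, 9), 0, 2, 5), ((5, 6, 10), 0, 1, 8), ((6, 5, 7), 1, 0, 3), ((7, 6, 9), 3, 1, 5),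
    ((8, 0, 9), 4, 3, 5), ((9, 4, 7), 5, 0, 3), ((9, 4, 8), 5, 0, 4), ((9, 4, 10), 5, 0, 8),
    ((9, 7, 8), 5, 3, 4), ((9, 7, 10), 5, 3, 8), ((9, 8, 10), 5, 4, 8), ((10, 5, 9), 8, 0,
    5)]
  Tc := [(1, 2, 6), (1, 2, 7), (1, 6, 7)]
  Td := [((1, 2), (6, 5), 0), ((1, 2), (6, 7), 3), ((1, 6), (6, 5), 0), ((1, 6), (6, 7), 3), ((1,
    7), (6, 5), 0), ((1, 7), (6, 7), 3), ((2, 1), (3, 2), 7), ((2, 1), (3, 4), 0), ((6, 1),
    (1, 0), 3), ((6, 1), (1, 2), 7), ((7, 1), (2, 1), 6), ((7, 1), (2, 3), 2)]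
  G := [[0, 0, 0x111818e1845424e944894ec582, 0x113834e1845824e944838ec942,
    0x341864e184a428e944438ec582], [0, 0, 0x111814e184a824e6848e8ec942,
    0x343118e184a4e8e644824ec582, 0x113831e184a4a4e644464ec582], [0,
    0x124144831e945222ee8118a8a41, 0, 0x944824e141814e5885854e8c12,
    0x4844845828e9838a141818edc12], [0, 0x282281b291e744458e1111ce681, 0,
    0x6444c484a8e8e282181818edc12, 0x644828e484a8e4e181814e9c12]]

noncomputable def n3740 : Ent := ⟨e3740, noF, [], [], []⟩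

def c3740 : PLift (Cov.check n3740.C.D v3740 = true) := ⟨by decide +kernel⟩

def b3740 : PLift (entF (fidx ts) 400 3740 n3740 = true) := ⟨by decide +kernel⟩

theorem g3740 : GoodF (fidx ts) 400 3740 := GoodF.ofV v3740 n3740 c3740.down b3740.down

/-- 8567744:2764/3 -/
noncomputable def e3741 : SCfg where
  D := {
    a := 7
    L := 11
    kp := 8
    inn := [(0, 1), (0, 2), (0, 3), (0, 5), (1, 0), (1, 4), (1, 5), (2, 0), (2, 3), (2, 4), (2, 5), (3,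
      0), (3, 2), (3, 6), (4, 1), (4, 2), (4, 5), (5, 0), (5, 1), (5, 2), (5, 4), (6, 3)]
    mix := [(0, 0), (0, 1), (0, 2), (0, 3), (1, 3), (1, 4), (2, 5), (2, 6), (3, 0), (3, 6), (3, 7), (3,
      8), (4, 4), (4, 5), (4, 9), (4, 10), (6, 7), (6, 8), (6, 10)]
    cl := [3, 6, 7, 2, 0, 0, 1, 3, 4, 8, 5]
    chq := [(1, 2), (1, 6), (1, 7), (2, 1), (6, 1), (7, 1)]
    rng := [(0, 1), (0, 8), (1, 0), (1, 2), (2, 1), (2, 3), (3, 2), (3, 4), (4, 3), (4, 9), (5, 6), (5,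
      10), (6, 5), (6, 7), (7, 6), (7, 10), (8, 0), (8, 10), (9, 4), (9, 10), (10, 5), (10, 7),
      (10, 8), (10, 9)]
    lev := [] }
  links := [[1, 5, 2, 3, 7, 8, 9, 10], [4, 5, 0, 10, 11], [3, 0, 5, 4, 12, 13], [7, 0, 2, 13, 14, 6, 15],
    [12, 2, 5, 1, 11, 16, 17], [0, 1, 4, 2], [3, 14, 17, 15]]
  P := {
    a := 7
    N := 18
    nb := [1966, 3121, 12345, 57541, 202790, 23, 180232, 33033, 641, 1281, 2563, 66578, 139284, 20492,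
      139336, 131272, 133136, 118864]
    tri := [(0, 1, 5), (0, 1, 10), (0, 2, 3), (0, 2, 5), (0, 3, 7), (0, 7, 8), (0, 8, 9), (0, 9, 10),
      (1, 4, 5), (1, 4, 11), (1, 10, 11), (2, 3, 13), (2, 4, 5), (2, 4, 12), (2, 12, 13), (3, 6,
      14), (3, 6, 15), (3, 7, 15), (3, 13, 14), (4, 11, 16), (4, 12, 17), (4, 16, 17), (6, 14,
      17), (6, 15, 17)]
    fin := [0, 1, 0, 3, 4, 1, 3, 3, 8, 9, 1, 4, 4, 0, 3, 15, 16, 17]
    chd := [(1, 0), (8, 0), (9, 0)]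
    steps := [(0, 2), (0, 13), (1, 5), (1, 10), (3, 6), (3, 7), (3, 14), (4, 11), (4, 12)] }
  rep := [4, 0, 1, 3, 15, 17, 8, 9, 16]

noncomputable def v3741 : Cov.CovD where
  P := 3
  N := 6
  pl := [8, 9, 10]
  lev := [⟨[], [], [(2, 3), (2, 6), (2, 7), (3, 6), (3, 7), (6, 7)], [], [(0, 3, []), (1, 6,
      [1]), (2, 7, [1]), (3, 2, [1])]⟩,
    ⟨[], [(0, 0), (0, 2), (0, 3), (0, 6), (0, 7)], [(0, 2)], [], [(3, 2, [1]), (4, 0, [])]⟩,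
    ⟨[(0, 1)], [(0, 0), (0, 1), (0, 2), (0, 3), (0, 6), (0, 7)], [(0, 1)], [], [(5, 0, []),
      (6, 1, [2, 6, 7])]⟩,
    ⟨[(0, 1), (0, 2)], [(0, 1), (0, 2), (0, 3), (0, 6), (0, 7), (2, 0), (2, 1), (2, 3)],
      [(1, 3), (3, 3)], [4], [(0, 3, []), (6, 1, [2, 6, 7]), (7, 3, [])]⟩,
    ⟨[(0, 1), (0, 2), (1, 2), (2, 3)], [(1, 0), (1, 2), (2, 0), (2, 1)], [(0, 0)], [5, 8],
      [(4, 0, []), (5, 0, [])]⟩,
    ⟨[(0, 1), (0, 2), (0, 3), (0, 4), (1, 2), (1, 4), (2, 3), (2, 4)], [(0, 2), (0, 3), (0,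
      6), (0, 7), (1, 0), (1, 2), (2, 0), (2, 1), (4, 0)], [], [], []⟩,
    ⟨[(0, 3), (2, 3)], [(3, 1), (3, 3)], [], [4, 5], [(7, 3, [])]⟩]
  Ta := [((0, 1), 3, 6), ((0, 8), 3, 4), ((4, 3), 0, 2), ((4, 9), 0, 8), ((5, 6), 0, 1), ((5,
    10), 0, 5), ((7, 6), 3, 1), ((7, 10), 3, 5)]
  Tb := [((0, 1, 8), 3, 6, 4), ((1, 0, 2), 6, 3, 7), ((2, 1, 3), 7, 6, 2), ((3, 2, 4), 2, 7, 0),
    ((4, 3, 9), 0, 2, 8), ((5, 6, 10), 0, 1, 5), ((6, 5, 7), 1, 0, 3), ((7, 6, 10), 3, 1, 5),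
    ((8, 0, 10), 4, 3, 5), ((9, 4, 10), 8, 0, 5), ((10, 5, 7), 5, 0, 3), ((10, 5, 8), 5, 0,
    4), ((10, 5, 9), 5, 0, 8), ((10, 7, 8), 5, 3, 4), ((10, 7, 9), 5, 3, 8), ((10, 8, 9), 5,
    4, 8)]
  Tc := [(1, 2, 6), (1, 2, 7), (1, 6, 7)]
  Td := [((1, 2), (6, 5), 0), ((1, 2), (6, 7), 3), ((1, 6), (6, 5), 0), ((1, 6), (6, 7), 3), ((1,
    7), (6, 5), 0), ((1, 7), (6, 7), 3), ((2, 1), (3, 2), 7), ((2, 1), (3, 4), 0), ((6, 1),
    (1, 0), 3), ((6, 1), (1, 2), 7), ((7, 1), (2, 1), 6), ((7, 1), (2, 3), 2)]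
  G := [[0, 0, 0x111818e1845424e944894ec582, 0x614124e111818e588a854e8942,
    0x141111e1845824e944898ec582], [0, 0, 0x2126448e1e111814ed84a8c8942,
    0x644164e111811e584a8a4e8942, 0x111818e184a464e6448a4ec582], [0,
    0x2222885131e944814e1411ce641, 0, 0x944424e14c834e5885834e8c12,
    0x54346944824ec43814ed8888c12], [0, 0x12526114892e71b124ee8288a41, 0,
    0x6448e8e143434e588a828e8c12, 0x6448e4e143834e584a828e8c12]]

noncomputable def n3741 : Ent := ⟨e3741, noF, [], [], []⟩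

def c3741 : PLift (Cov.check n3741.C.D v3741 = true) := ⟨by decide +kernel⟩

def b3741 : PLift (entF (fidx ts) 400 3741 n3741 = true) := ⟨by decide +kernel⟩

theorem g3741 : GoodF (fidx ts) 400 3741 := GoodF.ofV v3741 n3741 c3741.down b3741.down

/-- 8567744:2764 -/
noncomputable def e3742 : SCfg where
  D := {
    a := 7
    L := 12
    kp := 9
    inn := [(0, 1), (0, 2), (0, 3), (0, 5), (1, 0), (1, 4), (1, 5), (2, 0), (2, 3), (2, 4), (2, 5), (3,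
      0), (3, 2), (3, 6), (4, 1), (4, 2), (4, 5), (5, 0), (5, 1), (5, 2), (5, 4), (6, 3)]
    mix := [(0, 0), (0, 1), (0, 2), (0, 3), (1, 3), (1, 4), (2, 5), (2, 6), (3, 0), (3, 6), (3, 7), (3,
      8), (4, 4), (4, 5), (4, 9), (4, 10), (6, 7), (6, 8), (6, 11)]
    cl := [3, 5, 6, 2, 0, 0, 1, 3, 4, 7, 8, 9]
    chq := [(1, 2), (1, 5), (1, 6), (2, 1), (5, 1), (6, 1)]
    rng := [(0, 1), (0, 8), (1, 0), (1, 2), (2, 1), (2, 3), (3, 2), (3, 4), (4, 3), (4, 9), (5, 6), (5,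
      10), (6, 5), (6, 7), (7, 6), (7, 11), (8, 0), (8, 11), (9, 4), (9, 10), (10, 5), (10, 9),
      (11, 7), (11, 8)]
    lev := [] }
  links := [[1, 5, 2, 3, 7, 8, 9, 10], [4, 5, 0, 10, 11], [3, 0, 5, 4, 12, 13], [7, 0, 2, 13, 14, 6, 15],
    [12, 2, 5, 1, 11, 16, 17], [0, 1, 4, 2], [3, 14, 18, 15]]
  P := {
    a := 7
    N := 19
    nb := [1966, 3121, 12345, 57541, 202790, 23, 311304, 33033, 641, 1281, 2563, 66578, 139284, 20492,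
      270408, 262344, 133136, 69648, 49216]
    tri := [(0, 1, 5), (0, 1, 10), (0, 2, 3), (0, 2, 5), (0, 3, 7), (0, 7, 8), (0, 8, 9), (0, 9, 10),
      (1, 4, 5), (1, 4, 11), (1, 10, 11), (2, 3, 13), (2, 4, 5), (2, 4, 12), (2, 12, 13), (3, 6,
      14), (3, 6, 15), (3, 7, 15), (3, 13, 14), (4, 11, 16), (4, 12, 17), (4, 16, 17), (6, 14,
      18), (6, 15, 18)]
    fin := [0, 1, 0, 3, 4, 1, 3, 3, 8, 9, 1, 4, 4, 0, 3, 15, 16, 17, 18]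
    chd := [(1, 0), (8, 0), (9, 0)]
    steps := [(0, 2), (0, 13), (1, 5), (1, 10), (3, 6), (3, 7), (3, 14), (4, 11), (4, 12)] }
  rep := [4, 0, 1, 3, 15, 8, 9, 16, 17, 18]

noncomputable def v3742 : Cov.CovD where
  P := 3
  N := 7
  pl := [8, 9, 10, 11]
  lev := [⟨[], [], [(2, 3), (2, 5), (2, 6), (3, 5), (3, 6), (5, 6)], [], [(0, 3, []), (1, 5,
      [1]), (2, 6, [1]), (3, 2, [1])]⟩,
    ⟨[], [(0, 0), (0, 2), (0, 3), (0, 5), (0, 6)], [(0, 2)], [], [(3, 2, [1]), (4, 0, [])]⟩,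
    ⟨[(0, 1)], [(0, 0), (0, 1), (0, 2), (0, 3), (0, 5), (0, 6)], [(0, 1)], [], [(5, 0, []),
      (6, 1, [2, 5, 6])]⟩,
    ⟨[(0, 1), (0, 2)], [(0, 1), (0, 2), (0, 3), (0, 5), (0, 6), (2, 0), (2, 1), (2, 3)],
      [(1, 3), (3, 3)], [4], [(0, 3, []), (6, 1, [2, 5, 6]), (7, 3, [])]⟩,
    ⟨[(0, 1), (0, 2), (1, 2), (2, 3)], [(1, 0), (1, 2), (2, 0), (2, 1)], [(0, 0)], [7, 8],
      [(4, 0, []), (5, 0, [])]⟩,
    ⟨[(0, 1), (0, 2), (0, 3), (0, 4), (1, 2), (1, 4), (2, 3), (2, 4)], [(0, 2), (0, 3), (0,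
      5), (0, 6), (1, 0), (1, 2), (2, 0), (2, 1), (4, 0)], [], [], []⟩,
    ⟨[(0, 3), (2, 3)], [(3, 1), (3, 3)], [], [4, 9], [(7, 3, [])]⟩]
  Ta := [((0, 1), 3, 5), ((0, 8), 3, 4), ((4, 3), 0, 2), ((4, 9), 0, 7), ((5, 6), 0, 1), ((5,
    10), 0, 8), ((7, 6), 3, 1), ((7, 11), 3, 9)]
  Tb := [((0, 1, 8), 3, 5, 4), ((1, 0, 2), 5, 3, 6), ((2, 1, 3), 6, 5, 2), ((3, 2, 4), 2, 6, 0),
    ((4, 3, 9), 0, 2, 7), ((5, 6, 10), 0, 1, 8), ((6, 5, 7), 1, 0, 3), ((7, 6, 11), 3, 1, 9),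
    ((8, 0, 11), 4, 3, 9), ((9, 4, 10), 7, 0, 8), ((10, 5, 9), 8, 0, 7), ((11, 7, 8), 9, 3,
    4)]
  Tc := [(1, 2, 5), (1, 2, 6), (1, 5, 6)]
  Td := [((1, 2), (6, 5), 0), ((1, 2), (6, 7), 3), ((1, 5), (6, 5), 0), ((1, 5), (6, 7), 3), ((1,
    6), (6, 5), 0), ((1, 6), (6, 7), 3), ((2, 1), (3, 2), 6), ((2, 1), (3, 4), 0), ((5, 1),
    (1, 0), 3), ((5, 1), (1, 2), 6), ((6, 1), (2, 1), 5), ((6, 1), (2, 3), 2)]
  G := [[0, 0, 0xa151a4ec43131e9646464e4582, 0xa1a151e3131c8e9646868e4582,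
    0x616164a1a1a4e918c13831edc82], [0, 0, 0x616168e343838e5a4a8a4e8942,
    0x646161e313134e5a8a8a8e8942, 0xa1a1a8e343134e9646468e4582], [0,
    0x619262e31c2c4ea54a858e4681, 0, 0x949868ec434c8e5a8a8a8e8c12,
    0x6144a451a8e9191a313834edc82], [0, 0x949891e343132ea545854e4681, 0,
    0x646164a1a8a1e343131e9c61848c2, 0xa1a8a8e343134e94646868e4892]]

noncomputable def n3742 : Ent := ⟨e3742, noF, [], [], [(11, 18, [30043303427623734937691929578474300150491519007939870628445900451936317441, 0]), (16, 18, [30043303427623734937691929578474300150491519007939870628445900451936321537, 0]), (17, 18, [30043303427623734937691929578474300150491519007939870628445900451936325633, 0])]⟩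

def c3742 : PLift (Cov.check n3742.C.D v3742 = true) := ⟨by decide +kernel⟩

def b3742 : PLift (entF (fidx ts) 400 3742 n3742 = true) := ⟨by decide +kernel⟩

theorem g3742 : GoodF (fidx ts) 400 3742 := GoodF.ofV v3742 n3742 c3742.down b3742.down

/-- 8566644:2767/2 -/
noncomputable def e3743 : SCfg where
  D := {
    a := 7
    L := 10
    kp := 7
    inn := [(0, 1), (0, 2), (0, 3), (0, 5), (1, 0), (1, 3), (1, 4), (1, 5), (2, 0), (2, 6), (3, 0), (3,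
      1), (3, 4), (4, 1), (4, 3), (5, 0), (5, 1), (6, 2)]
    mix := [(0, 0), (0, 1), (0, 2), (0, 3), (1, 4), (2, 2), (2, 3), (2, 5), (2, 6), (3, 3), (3, 7), (3,
      8), (4, 4), (4, 5), (4, 6), (4, 8), (5, 0), (5, 4), (6, 3), (6, 6), (6, 9)]
    cl := [2, 7, 0, 0, 1, 4, 3, 5, 1, 6]
    chq := [(0, 2), (2, 0), (2, 5), (4, 6), (5, 2), (6, 4)]
    rng := [(0, 1), (0, 4), (1, 0), (1, 2), (2, 1), (2, 5), (3, 7), (3, 9), (4, 0), (4, 6), (5, 2), (5,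
      6), (5, 8), (6, 4), (6, 5), (6, 9), (7, 3), (7, 8), (8, 5), (8, 7), (9, 3), (9, 6)]
    lev := [] }
  links := [[1, 5, 7, 8, 9, 2, 10, 3], [11, 5, 0, 3, 4], [10, 0, 9, 12, 13, 6], [4, 1, 0, 10, 14, 15],
    [11, 1, 3, 15, 12, 13], [0, 1, 11, 7], [2, 13, 16, 10]]
  P := {
    a := 7
    N := 17
    nb := [1966, 2105, 13889, 50195, 47114, 2179, 74756, 2337, 641, 4357, 81997, 8370, 41492, 71764,
      33800, 20504, 9280]
    tri := [(0, 1, 3), (0, 1, 5), (0, 2, 9), (0, 2, 10), (0, 3, 10), (0, 5, 7), (0, 7, 8), (0, 8, 9),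
      (1, 3, 4), (1, 4, 11), (1, 5, 11), (2, 6, 10), (2, 6, 13), (2, 9, 12), (2, 12, 13), (3, 4,
      15), (3, 10, 14), (3, 14, 15), (4, 11, 13), (4, 12, 13), (4, 12, 15), (5, 7, 11), (6, 10,
      16), (6, 13, 16)]
    fin := [0, 1, 2, 1, 4, 1, 2, 1, 8, 0, 0, 4, 2, 13, 14, 4, 16]
    chd := [(1, 0), (1, 14), (2, 16)]
    steps := [(0, 9), (0, 10), (1, 3), (1, 5), (1, 7), (2, 6), (2, 12), (4, 15), (4, 11)] }
  rep := [0, 4, 1, 13, 2, 14, 16, 8]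

noncomputable def v3743 : Cov.CovD where
  P := 3
  N := 5
  pl := [1, 6]
  lev := [⟨[], [], [(0, 0), (0, 2)], [7], [(0, 2, [0, 5]), (2, 0, [2]), (3, 0, [2])]⟩,
    ⟨[], [(0, 0), (0, 1), (0, 2)], [], [], [(4, 1, [])]⟩,
    ⟨[(0, 1)], [(0, 0), (0, 2), (0, 4)], [(0, 0), (0, 4)], [3], [(2, 0, [2]), (3, 0, [2]),
      (5, 4, [6])]⟩,
    ⟨[(0, 1), (0, 2)], [(0, 0), (0, 1), (0, 2), (0, 5), (1, 0), (1, 1), (1, 5), (2, 0)],
      [(0, 1), (0, 5), (1, 5)], [], [(3, 0, [2]), (7, 5, [2]), (8, 1, [])]⟩,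
    ⟨[(0, 1), (0, 3), (1, 3)], [(1, 1), (1, 4), (2, 4), (3, 0), (3, 1), (3, 4), (3, 5)],
      [(1, 1), (1, 4)], [3], [(4, 1, []), (5, 4, [6]), (8, 1, [])]⟩,
    ⟨[(0, 1), (0, 2), (0, 3), (1, 3), (1, 4)], [(0, 0), (0, 1), (0, 2), (1, 1), (1, 2), (4,
      1)], [(1, 2)], [], [(0, 2, [0, 5]), (4, 1, [])]⟩,
    ⟨[(0, 2)], [(0, 0), (2, 0), (2, 4), (2, 6), (3, 0)], [(0, 6)], [3], [(3, 0, [2]), (9,
      6, [4])]⟩]
  Ta := [((2, 1), 0, 7), ((2, 5), 0, 4), ((3, 7), 0, 5), ((3, 9), 0, 6), ((4, 0), 1, 2), ((4, 6),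
    1, 3), ((8, 5), 1, 4), ((8, 7), 1, 5)]
  Tb := [((0, 1, 4), 2, 7, 1), ((1, 0, 2), 7, 2, 0), ((2, 1, 5), 0, 7, 4), ((3, 7, 9), 0, 5, 6),
    ((4, 0, 6), 1, 2, 3), ((5, 2, 6), 4, 0, 3), ((5, 2, 8), 4, 0, 1), ((5, 6, 8), 4, 3, 1),
    ((6, 4, 5), 3, 1, 4), ((6, 4, 9), 3, 1, 6), ((6, 5, 9), 3, 4, 6), ((7, 3, 8), 5, 0, 1),
    ((8, 5, 7), 1, 4, 5), ((9, 3, 6), 6, 0, 3)]
  Tc := [(2, 0, 5)]
  Td := [((0, 2), (2, 1), 7), ((0, 2), (2, 5), 4), ((0, 2), (3, 7), 5), ((0, 2), (3, 9), 6), ((2,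
    0), (0, 1), 7), ((2, 0), (0, 4), 1), ((2, 5), (0, 1), 7), ((2, 5), (0, 4), 1), ((4, 6),
    (5, 2), 0), ((4, 6), (5, 6), 3), ((4, 6), (5, 8), 1), ((5, 2), (7, 3), 0), ((5, 2), (7,
    8), 1), ((6, 4), (9, 3), 0), ((6, 4), (9, 6), 3)]
  G := [[0, 0x5482a842142182ae464829842142182ce8c, 0x844211126448289418281421112e8c,
    0xa19418d221a49414d221c, 0x518298421112e4e141451841814a9a], [0,
    0x148211421121126e411821842142112ce8c, 0xa2414a1818181121c2da4816141141111ce46, 0,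
    0x62411214651848aa18461411814e8a], [0, 0x6482a842c82c426e4a84246882c82c82aacc,
    0x448288421412e1448288421812e1c, 0x4468e8d2214168e4d228c,
    0x41828142e812e46884a84a14cc814e1a], [0, 0x6482a842c12c126e46482a842c82c426e1c,
    0xa281a841121181ce8a1812141141181444de86, 0, 0x2184a24614c41c294e1a184684a84cc814e1a]]

noncomputable def n3743 : Ent := ⟨e3743, noF, [], [], []⟩

def c3743 : PLift (Cov.check n3743.C.D v3743 = true) := ⟨by decide +kernel⟩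

def b3743 : PLift (entF (fidx ts) 400 3743 n3743 = true) := ⟨by decide +kernel⟩

theorem g3743 : GoodF (fidx ts) 400 3743 := GoodF.ofV v3743 n3743 c3743.down b3743.down

/-- 8566644:2767/3 -/
noncomputable def e3744 : SCfg where
  D := {
    a := 7
    L := 10
    kp := 7
    inn := [(0, 1), (0, 2), (0, 3), (0, 5), (1, 0), (1, 3), (1, 4), (1, 5), (2, 0), (2, 6), (3, 0), (3,
      1), (3, 4), (4, 1), (4, 3), (5, 0), (5, 1), (6, 2)]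
    mix := [(0, 0), (0, 1), (0, 2), (0, 3), (1, 4), (2, 2), (2, 3), (2, 5), (2, 6), (3, 3), (3, 7), (3,
      8), (4, 4), (4, 5), (4, 8), (4, 9), (5, 0), (5, 4), (6, 3), (6, 6), (6, 7)]
    cl := [3, 6, 0, 0, 1, 5, 4, 2, 1, 7]
    chq := [(0, 4), (2, 3), (2, 6), (3, 2), (4, 0), (6, 2)]
    rng := [(0, 1), (0, 4), (1, 0), (1, 2), (2, 1), (2, 5), (3, 7), (4, 0), (4, 9), (5, 2), (5, 6), (5,
      8), (5, 9), (6, 5), (6, 7), (7, 3), (7, 6), (7, 8), (8, 5), (8, 7), (9, 4), (9, 5)]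
    lev := [] }
  links := [[1, 5, 7, 8, 9, 2, 10, 3], [11, 5, 0, 3, 4], [10, 0, 9, 12, 13, 6], [4, 1, 0, 10, 14, 15],
    [11, 1, 3, 15, 12, 16], [0, 1, 11, 7], [2, 13, 14, 10]]
  P := {
    a := 7
    N := 17
    nb := [1966, 2105, 13889, 50195, 104458, 2179, 25604, 2337, 641, 4357, 16461, 65714, 107028,
      20548, 42056, 20504, 6160]
    tri := [(0, 1, 3), (0, 1, 5), (0, 2, 9), (0, 2, 10), (0, 3, 10), (0, 5, 7), (0, 7, 8), (0, 8, 9),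
      (1, 3, 4), (1, 4, 11), (1, 5, 11), (2, 6, 10), (2, 6, 13), (2, 9, 12), (2, 12, 13), (3, 4,
      15), (3, 10, 14), (3, 14, 15), (4, 11, 16), (4, 12, 15), (4, 12, 16), (5, 7, 11), (6, 10,
      14), (6, 13, 14)]
    fin := [0, 1, 2, 3, 4, 1, 2, 1, 0, 2, 2, 4, 12, 13, 3, 4, 16]
    chd := [(0, 3), (1, 3), (2, 13)]
    steps := [(0, 8), (1, 5), (1, 7), (2, 6), (2, 9), (2, 10), (3, 14), (4, 15), (4, 11)] }
  rep := [2, 4, 3, 1, 13, 12, 0, 16]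

noncomputable def v3744 : Cov.CovD where
  P := 3
  N := 5
  pl := [5, 9]
  lev := [⟨[], [], [(0, 0), (0, 3), (0, 6), (3, 6)], [], [(0, 3, [2]), (1, 6, [2]), (2, 0, [4]),
      (3, 0, [4])]⟩,
    ⟨[], [(0, 0), (0, 1), (0, 3), (0, 6)], [], [], [(4, 1, [])]⟩,
    ⟨[(0, 1)], [(0, 0), (0, 3), (0, 4), (0, 6)], [(0, 0), (0, 4)], [5], [(2, 0, [4]), (3,
      0, [4]), (6, 4, [0])]⟩,
    ⟨[(0, 1), (0, 2)], [(0, 0), (0, 1), (0, 2), (0, 3), (0, 6), (1, 0), (1, 1), (1, 2), (2,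
      0)], [(0, 1), (0, 2), (1, 2)], [], [(3, 0, [4]), (7, 2, [3, 6]), (8, 1, [])]⟩,
    ⟨[(0, 1), (0, 3), (1, 3)], [(1, 1), (3, 0), (3, 1), (3, 2)], [(1, 1)], [5, 7], [(4, 1,
      []), (8, 1, [])]⟩,
    ⟨[(0, 1), (0, 2), (0, 3), (1, 3), (1, 4)], [(0, 0), (0, 1), (0, 3), (0, 6), (1, 1), (1,
      3), (4, 1)], [(1, 3)], [], [(0, 3, [2]), (4, 1, [])]⟩,
    ⟨[(0, 2)], [(0, 0), (2, 0), (2, 2), (2, 4), (3, 0), (3, 2)], [(0, 2), (0, 4), (2, 4)],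
      [], [(3, 0, [4]), (6, 4, [0]), (7, 2, [3, 6])]⟩]
  Ta := [((2, 1), 0, 6), ((2, 5), 0, 5), ((3, 7), 0, 2), ((4, 0), 1, 3), ((4, 9), 1, 7), ((8, 5),
    1, 5), ((8, 7), 1, 2)]
  Tb := [((0, 1, 4), 3, 6, 1), ((1, 0, 2), 6, 3, 0), ((2, 1, 5), 0, 6, 5), ((4, 0, 9), 1, 3, 7),
    ((5, 2, 6), 5, 0, 4), ((5, 2, 8), 5, 0, 1), ((5, 2, 9), 5, 0, 7), ((5, 6, 8), 5, 4, 1),
    ((5, 6, 9), 5, 4, 7), ((5, 8, 9), 5, 1, 7), ((6, 5, 7), 4, 5, 2), ((7, 3, 6), 2, 0, 4),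
    ((7, 3, 8), 2, 0, 1), ((7, 6, 8), 2, 4, 1), ((8, 5, 7), 1, 5, 2), ((9, 4, 5), 7, 1, 5)]
  Tc := [(2, 3, 6)]
  Td := [((0, 4), (2, 1), 6), ((0, 4), (2, 5), 5), ((0, 4), (3, 7), 2), ((2, 3), (7, 3), 0), ((2,
    3), (7, 6), 4), ((2, 3), (7, 8), 1), ((2, 6), (7, 3), 0), ((2, 6), (7, 6), 4), ((2, 6),
    (7, 8), 1), ((3, 2), (0, 1), 6), ((3, 2), (0, 4), 1), ((4, 0), (6, 5), 5), ((4, 0), (6,
    7), 2), ((6, 2), (1, 0), 3), ((6, 2), (1, 2), 0)]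
  G := [[0, 0x825264218842a84526428c2888c82644444c84ce41418c11ce4e88c8818881888ece, 0, 0,
    0x88885228816481581992111152225229229d2e84888141458c1e], [0,
    0x81116488a24141414e822818181e4414141e481116118ce8e, 0, 0x95599995cd8212,
    0x144121c41828298121258222222d8e114115848e], [0,
    0x228428844888c8e4e24484c4e82288688c84ce444644c82e488cccc64e44c882ce,
    0x21215224141928841522184ec814194818158242424d2e881419441415881c15418ce8e, 0,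
    0xa4845248811281815824225521489ae88988982882a9a4845841e], [0,
    0x4882c8e4214484c1e822818181e4414141e44181c1e4e8e,
    0x626294414254212128d4e1818194a1a158212421d8e28181944141584181c1d4e8e, 0xcc5cc9cccd4212,
    0xa4a25841828298a2a258222222d8e121a484d841e]]

noncomputable def n3744 : Ent := ⟨e3744, noF, [], [], []⟩

def c3744 : PLift (Cov.check n3744.C.D v3744 = true) := ⟨by decide +kernel⟩

def b3744 : PLift (entF (fidx ts) 400 3744 n3744 = true) := ⟨by decide +kernel⟩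

theorem g3744 : GoodF (fidx ts) 400 3744 := GoodF.ofV v3744 n3744 c3744.down b3744.down

/-- 8566644:2767/1 -/
noncomputable def e3745 : SCfg where
  D := {
    a := 7
    L := 11
    kp := 8
    inn := [(0, 1), (0, 2), (0, 3), (0, 5), (1, 0), (1, 3), (1, 4), (1, 5), (2, 0), (2, 6), (3, 0), (3,
      1), (3, 4), (4, 1), (4, 3), (5, 0), (5, 1), (6, 2)]
    mix := [(0, 0), (0, 1), (0, 2), (0, 3), (1, 4), (2, 2), (2, 3), (2, 5), (2, 6), (3, 3), (3, 7), (3,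
      8), (4, 4), (4, 5), (4, 8), (4, 9), (5, 0), (5, 4), (6, 3), (6, 6), (6, 10)]
    cl := [3, 7, 0, 0, 1, 2, 4, 5, 1, 8, 6]
    chq := [(0, 3), (2, 6), (3, 0), (3, 5), (5, 3), (6, 2)]
    rng := [(0, 1), (0, 4), (1, 0), (1, 2), (2, 1), (2, 5), (3, 7), (3, 10), (4, 0), (4, 9), (5, 2),
      (5, 6), (5, 8), (5, 9), (6, 5), (6, 10), (7, 3), (7, 8), (8, 5), (8, 7), (9, 4), (9, 5),
      (10, 3), (10, 6)]
    lev := [] }
  links := [[1, 5, 7, 8, 9, 2, 10, 3], [11, 5, 0, 3, 4], [10, 0, 9, 12, 13, 6], [4, 1, 0, 10, 14, 15],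
    [11, 1, 3, 15, 12, 16], [0, 1, 11, 7], [2, 13, 17, 10]]
  P := {
    a := 7
    N := 18
    nb := [1966, 2105, 13889, 50195, 104458, 2179, 140292, 2337, 641, 4357, 147533, 65714, 107028,
      135236, 33800, 20504, 6160, 9280]
    tri := [(0, 1, 3), (0, 1, 5), (0, 2, 9), (0, 2, 10), (0, 3, 10), (0, 5, 7), (0, 7, 8), (0, 8, 9),
      (1, 3, 4), (1, 4, 11), (1, 5, 11), (2, 6, 10), (2, 6, 13), (2, 9, 12), (2, 12, 13), (3, 4,
      15), (3, 10, 14), (3, 14, 15), (4, 11, 16), (4, 12, 15), (4, 12, 16), (5, 7, 11), (6, 10,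
      17), (6, 13, 17)]
    fin := [0, 1, 2, 1, 4, 1, 2, 1, 8, 0, 0, 4, 2, 13, 14, 4, 16, 17]
    chd := [(1, 0), (1, 14), (2, 17)]
    steps := [(0, 9), (0, 10), (1, 3), (1, 5), (1, 7), (2, 6), (2, 12), (4, 15), (4, 11)] }
  rep := [0, 4, 2, 1, 13, 14, 17, 8, 16]

noncomputable def v3745 : Cov.CovD where
  P := 3
  N := 6
  pl := [1, 6, 9]
  lev := [⟨[], [], [(0, 0), (0, 3)], [7], [(0, 3, [0, 5]), (2, 0, [3]), (3, 0, [3])]⟩,
    ⟨[], [(0, 0), (0, 1), (0, 3)], [], [], [(4, 1, [])]⟩,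
    ⟨[(0, 1)], [(0, 0), (0, 2), (0, 3)], [(0, 0), (0, 2)], [4], [(2, 0, [3]), (3, 0, [3]),
      (5, 2, [6])]⟩,
    ⟨[(0, 1), (0, 2)], [(0, 0), (0, 1), (0, 3), (0, 5), (1, 0), (1, 1), (1, 5), (2, 0)],
      [(0, 1), (0, 5), (1, 5)], [], [(3, 0, [3]), (7, 5, [3]), (8, 1, [])]⟩,
    ⟨[(0, 1), (0, 3), (1, 3)], [(1, 1), (1, 2), (2, 2), (3, 0), (3, 1), (3, 2), (3, 5)],
      [(1, 1), (1, 2)], [8], [(4, 1, []), (5, 2, [6]), (8, 1, [])]⟩,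
    ⟨[(0, 1), (0, 2), (0, 3), (1, 3), (1, 4)], [(0, 0), (0, 1), (0, 3), (1, 1), (1, 3), (4,
      1)], [(1, 3)], [], [(0, 3, [0, 5]), (4, 1, [])]⟩,
    ⟨[(0, 2)], [(0, 0), (2, 0), (2, 2), (2, 6), (3, 0)], [(0, 6)], [4], [(3, 0, [3]), (10,
      6, [2])]⟩]
  Ta := [((2, 1), 0, 7), ((2, 5), 0, 2), ((3, 7), 0, 5), ((3, 10), 0, 6), ((4, 0), 1, 3), ((4,
    9), 1, 8), ((8, 5), 1, 2), ((8, 7), 1, 5)]
  Tb := [((0, 1, 4), 3, 7, 1), ((1, 0, 2), 7, 3, 0), ((2, 1, 5), 0, 7, 2), ((3, 7, 10), 0, 5, 6),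
    ((4, 0, 9), 1, 3, 8), ((5, 2, 6), 2, 0, 4), ((5, 2, 8), 2, 0, 1), ((5, 2, 9), 2, 0, 8),
    ((5, 6, 8), 2, 4, 1), ((5, 6, 9), 2, 4, 8), ((5, 8, 9), 2, 1, 8), ((6, 5, 10), 4, 2, 6),
    ((7, 3, 8), 5, 0, 1), ((8, 5, 7), 1, 2, 5), ((9, 4, 5), 8, 1, 2), ((10, 3, 6), 6, 0, 4)]
  Tc := [(3, 0, 5)]
  Td := [((0, 3), (2, 1), 7), ((0, 3), (2, 5), 2), ((0, 3), (3, 7), 5), ((0, 3), (3, 10), 6),
    ((2, 6), (5, 2), 0), ((2, 6), (5, 6), 4), ((2, 6), (5, 8), 1), ((2, 6), (5, 9), 8), ((3,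
    0), (0, 1), 7), ((3, 0), (0, 4), 1), ((3, 5), (0, 1), 7), ((3, 5), (0, 4), 1), ((5, 3),
    (7, 3), 0), ((5, 3), (7, 8), 1), ((6, 2), (10, 3), 0), ((6, 2), (10, 6), 4)]
  G := [[0, 0x22126c1414c61812c2424c6c21414c1824ca2222c2818cac21441238cc43222c288284e2488cce,
    0x1118c21111c2611411c21111c2a1a1a1c181411c1118cc49e, 0,
    0x411192114192a41114183114492a8441111e18d141411418da8e], [0,
    0x1221c2114c62111c1828c6c22121c1124ca1111c2118cac21131c2421c61242281121cec8e,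
    0x1111c41111c4621111c81111c8a2a141c161c1118188ce4e,
    0x1121942121c1c22121c12121c1c22121c12121c1c4e,
    0x414194111194a212129418c424298a1441411618d111111c18da8e], [0,
    0x6284e24a28e8e8cec2242424c686e462ce8e4ca22a2c2828cac2e2aeace28a84e2262ac288684ec4e, 0,
    0, 0x414192e1e192a461e192c14192a8e1e19e1619c4141941c19ca4e], [0,
    0x2121c2461c6e1e1ce1a8c6c2e1e1c61e4ca2121ca128cac261461e1c218e4e1a1ca821ca8ce, 0,
    0x212194212194c22121582121c8c22124521215c2124521219cc8e,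
    0x416194e1c194a2c1419418c61e198a2e1e1968e19c41449c1419ca4e]]

noncomputable def n3745 : Ent := ⟨e3745, noF, [], [], [(13, 16, [7334685537875745012586738086077695515070955365108989538292687709007873, 0]), (17, 14, [6903326468334360900303599070699561856668565975414084080169086039490561, 0])]⟩

def c3745 : PLift (Cov.check n3745.C.D v3745 = true) := ⟨by decide +kernel⟩

def b3745 : PLift (entF (fidx ts) 400 3745 n3745 = true) := ⟨by decide +kernel⟩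

theorem g3745 : GoodF (fidx ts) 400 3745 := GoodF.ofV v3745 n3745 c3745.down b3745.down

/-- 8566644:2767/6 -/
noncomputable def e3746 : SCfg where
  D := {
    a := 7
    L := 9
    kp := 6
    inn := [(0, 1), (0, 2), (0, 3), (0, 5), (1, 0), (1, 3), (1, 4), (1, 5), (2, 0), (2, 6), (3, 0), (3,
      1), (3, 4), (4, 1), (4, 3), (5, 0), (5, 1), (6, 2)]
    mix := [(0, 0), (0, 1), (0, 2), (0, 3), (1, 4), (2, 2), (2, 3), (2, 5), (2, 6), (3, 3), (3, 7), (3,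
      8), (4, 4), (4, 5), (4, 6), (4, 8), (5, 0), (5, 4), (6, 3), (6, 6), (6, 7)]
    cl := [4, 6, 0, 0, 1, 5, 3, 2, 1]
    chq := [(0, 3), (2, 4), (2, 6), (3, 0), (4, 2), (6, 2)]
    rng := [(0, 1), (0, 4), (1, 0), (1, 2), (2, 1), (2, 5), (3, 7), (4, 0), (4, 5), (5, 2), (5, 4), (5,
      6), (6, 5), (6, 7), (6, 8), (7, 3), (7, 6), (7, 8), (8, 6), (8, 7)]
    lev := [] }
  links := [[1, 5, 7, 8, 9, 2, 10, 3], [11, 5, 0, 3, 4], [10, 0, 9, 12, 13, 6], [4, 1, 0, 10, 14, 15],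
    [11, 1, 3, 15, 13, 12], [0, 1, 11, 7], [2, 13, 14, 10]]
  P := {
    a := 7
    N := 16
    nb := [1966, 2105, 13889, 50195, 47114, 2179, 25604, 2337, 641, 4357, 16461, 4274, 10772, 53332,
      42056, 24600]
    tri := [(0, 1, 3), (0, 1, 5), (0, 2, 9), (0, 2, 10), (0, 3, 10), (0, 5, 7), (0, 7, 8), (0, 8, 9),
      (1, 3, 4), (1, 4, 11), (1, 5, 11), (2, 6, 10), (2, 6, 13), (2, 9, 12), (2, 12, 13), (3, 4,
      15), (3, 10, 14), (3, 14, 15), (4, 11, 12), (4, 12, 13), (4, 13, 15), (5, 7, 11), (6, 10,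
      14), (6, 13, 14)]
    fin := [0, 1, 2, 3, 4, 1, 2, 1, 0, 2, 2, 4, 12, 13, 3, 4]
    chd := [(0, 3), (1, 3), (2, 13)]
    steps := [(0, 8), (1, 5), (1, 7), (2, 6), (2, 9), (2, 10), (3, 14), (4, 15), (4, 11)] }
  rep := [2, 4, 3, 13, 1, 12, 0]

noncomputable def v3746 : Cov.CovD where
  P := 3
  N := 4
  pl := [5]
  lev := [⟨[], [], [(0, 0), (0, 4), (0, 6), (4, 6)], [], [(0, 4, [2]), (1, 6, [2]), (2, 0, [3]),
      (3, 0, [3])]⟩,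
    ⟨[], [(0, 0), (0, 1), (0, 4), (0, 6)], [], [], [(4, 1, [])]⟩,
    ⟨[(0, 1)], [(0, 0), (0, 3), (0, 4), (0, 6)], [(0, 0), (0, 3)], [5], [(2, 0, [3]), (3,
      0, [3]), (6, 3, [0])]⟩,
    ⟨[(0, 1), (0, 2)], [(0, 0), (0, 1), (0, 2), (0, 4), (0, 6), (1, 0), (1, 1), (1, 2), (2,
      0)], [(0, 1), (0, 2), (1, 2)], [], [(3, 0, [3]), (7, 2, [4, 6]), (8, 1, [])]⟩,
    ⟨[(0, 1), (0, 3), (1, 3)], [(1, 1), (1, 3), (2, 3), (3, 0), (3, 1), (3, 2), (3, 3)],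
      [(1, 1), (1, 3)], [5], [(4, 1, []), (6, 3, [0]), (8, 1, [])]⟩,
    ⟨[(0, 1), (0, 2), (0, 3), (1, 3), (1, 4)], [(0, 0), (0, 1), (0, 4), (0, 6), (1, 1), (1,
      4), (4, 1)], [(1, 4)], [], [(0, 4, [2]), (4, 1, [])]⟩,
    ⟨[(0, 2)], [(0, 0), (2, 0), (2, 2), (2, 3), (3, 0), (3, 2), (4, 3)], [(0, 2), (0, 3),
      (2, 3)], [], [(3, 0, [3]), (6, 3, [0]), (7, 2, [4, 6])]⟩]
  Ta := [((2, 1), 0, 6), ((2, 5), 0, 5), ((3, 7), 0, 2), ((4, 0), 1, 4), ((4, 5), 1, 5), ((8, 6),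
    1, 3), ((8, 7), 1, 2)]
  Tb := [((0, 1, 4), 4, 6, 1), ((1, 0, 2), 6, 4, 0), ((2, 1, 5), 0, 6, 5), ((4, 0, 5), 1, 4, 5),
    ((5, 2, 4), 5, 0, 1), ((5, 2, 6), 5, 0, 3), ((5, 4, 6), 5, 1, 3), ((6, 5, 7), 3, 5, 2),
    ((6, 5, 8), 3, 5, 1), ((6, 7, 8), 3, 2, 1), ((7, 3, 6), 2, 0, 3), ((7, 3, 8), 2, 0, 1),
    ((7, 6, 8), 2, 3, 1), ((8, 6, 7), 1, 3, 2)]
  Tc := [(2, 4, 6)]
  Td := [((0, 3), (2, 1), 6), ((0, 3), (2, 5), 5), ((0, 3), (3, 7), 2), ((2, 4), (7, 3), 0), ((2,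
    4), (7, 6), 3), ((2, 4), (7, 8), 1), ((2, 6), (7, 3), 0), ((2, 6), (7, 6), 3), ((2, 6),
    (7, 8), 1), ((3, 0), (6, 5), 5), ((3, 0), (6, 7), 2), ((3, 0), (6, 8), 1), ((4, 2), (0,
    1), 6), ((4, 2), (0, 4), 1), ((6, 2), (1, 0), 4), ((6, 2), (1, 2), 0)]
  G := [[0, 0x1224281228244448488c88184811c28ece, 0, 0, 0x2842448481214822912e8244848e], [0,
    0x122428142822118411441124e8e, 0, 0x11541cc55d4282, 0x12184482811248122258e8141848e], [0,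
    0xc824222248c42862848888c44a48ccc28e4e, 0x218428142814e1211821122112e881184114c118e8e, 0,
    0x2442412412211222912e8244841e], [0, 0xc22428c2282481844148c128e4e,
    0x421482182218e1818482182214e141184148c118e4e, 0xcc914282,
    0x844842821881182218e8844841e]]

noncomputable def n3746 : Ent := ⟨e3746, noF, [], [], []⟩

def c3746 : PLift (Cov.check n3746.C.D v3746 = true) := ⟨by decide +kernel⟩

def b3746 : PLift (entF (fidx ts) 400 3746 n3746 = true) := ⟨by decide +kernel⟩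

theorem g3746 : GoodF (fidx ts) 400 3746 := GoodF.ofV v3746 n3746 c3746.down b3746.down

/-- 8566644:2767/5 -/
noncomputable def e3747 : SCfg where
  D := {
    a := 7
    L := 10
    kp := 7
    inn := [(0, 1), (0, 2), (0, 3), (0, 5), (1, 0), (1, 3), (1, 4), (1, 5), (2, 0), (2, 6), (3, 0), (3,
      1), (3, 4), (4, 1), (4, 3), (5, 0), (5, 1), (6, 2)]
    mix := [(0, 0), (0, 1), (0, 2), (0, 3), (1, 4), (2, 2), (2, 3), (2, 5), (2, 6), (3, 3), (3, 7), (3,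
      8), (4, 4), (4, 5), (4, 6), (4, 8), (5, 0), (5, 4), (6, 3), (6, 6), (6, 9)]
    cl := [2, 7, 0, 0, 1, 4, 3, 5, 1, 6]
    chq := [(0, 2), (2, 0), (2, 5), (4, 6), (5, 2), (6, 4)]
    rng := [(0, 1), (0, 4), (1, 0), (1, 2), (2, 1), (2, 5), (3, 7), (3, 9), (4, 0), (4, 5), (5, 2), (5,
      4), (5, 6), (6, 5), (6, 8), (6, 9), (7, 3), (7, 8), (8, 6), (8, 7), (9, 3), (9, 6)]
    lev := [] }
  links := [[1, 5, 7, 8, 9, 2, 10, 3], [11, 5, 0, 3, 4], [10, 0, 9, 12, 13, 6], [4, 1, 0, 10, 14, 15],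
    [11, 1, 3, 15, 13, 12], [0, 1, 11, 7], [2, 13, 16, 10]]
  P := {
    a := 7
    N := 17
    nb := [1966, 2105, 13889, 50195, 47114, 2179, 74756, 2337, 641, 4357, 81997, 4274, 10772, 102484,
      33800, 24600, 9280]
    tri := [(0, 1, 3), (0, 1, 5), (0, 2, 9), (0, 2, 10), (0, 3, 10), (0, 5, 7), (0, 7, 8), (0, 8, 9),
      (1, 3, 4), (1, 4, 11), (1, 5, 11), (2, 6, 10), (2, 6, 13), (2, 9, 12), (2, 12, 13), (3, 4,
      15), (3, 10, 14), (3, 14, 15), (4, 11, 12), (4, 12, 13), (4, 13, 15), (5, 7, 11), (6, 10,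
      16), (6, 13, 16)]
    fin := [0, 1, 2, 1, 4, 1, 2, 1, 8, 0, 0, 4, 2, 13, 14, 4, 16]
    chd := [(1, 0), (1, 14), (2, 16)]
    steps := [(0, 9), (0, 10), (1, 3), (1, 5), (1, 7), (2, 6), (2, 12), (4, 15), (4, 11)] }
  rep := [0, 4, 1, 13, 2, 14, 16, 8]

noncomputable def v3747 : Cov.CovD where
  P := 3
  N := 5
  pl := [1, 6]
  lev := [⟨[], [], [(0, 0), (0, 2)], [7], [(0, 2, [0, 5]), (2, 0, [2]), (3, 0, [2])]⟩,
    ⟨[], [(0, 0), (0, 1), (0, 2)], [], [], [(4, 1, [])]⟩,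
    ⟨[(0, 1)], [(0, 0), (0, 2), (0, 4)], [(0, 0), (0, 4)], [3], [(2, 0, [2]), (3, 0, [2]),
      (5, 4, [6])]⟩,
    ⟨[(0, 1), (0, 2)], [(0, 0), (0, 1), (0, 2), (0, 5), (1, 0), (1, 1), (1, 5), (2, 0)],
      [(0, 1), (0, 5), (1, 5)], [], [(3, 0, [2]), (7, 5, [2]), (8, 1, [])]⟩,
    ⟨[(0, 1), (0, 3), (1, 3)], [(1, 1), (1, 4), (2, 4), (3, 0), (3, 1), (3, 4), (3, 5)],
      [(1, 1), (1, 4)], [3], [(4, 1, []), (5, 4, [6]), (8, 1, [])]⟩,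
    ⟨[(0, 1), (0, 2), (0, 3), (1, 3), (1, 4)], [(0, 0), (0, 1), (0, 2), (1, 1), (1, 2), (4,
      1)], [(1, 2)], [], [(0, 2, [0, 5]), (4, 1, [])]⟩,
    ⟨[(0, 2)], [(0, 0), (2, 0), (2, 4), (2, 6), (3, 0)], [(0, 6)], [3], [(3, 0, [2]), (9,
      6, [4])]⟩]
  Ta := [((2, 1), 0, 7), ((2, 5), 0, 4), ((3, 7), 0, 5), ((3, 9), 0, 6), ((4, 0), 1, 2), ((4, 5),
    1, 4), ((8, 6), 1, 3), ((8, 7), 1, 5)]
  Tb := [((0, 1, 4), 2, 7, 1), ((1, 0, 2), 7, 2, 0), ((2, 1, 5), 0, 7, 4), ((3, 7, 9), 0, 5, 6),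
    ((4, 0, 5), 1, 2, 4), ((5, 2, 4), 4, 0, 1), ((5, 2, 6), 4, 0, 3), ((5, 4, 6), 4, 1, 3),
    ((6, 5, 8), 3, 4, 1), ((6, 5, 9), 3, 4, 6), ((6, 8, 9), 3, 1, 6), ((7, 3, 8), 5, 0, 1),
    ((8, 6, 7), 1, 3, 5), ((9, 3, 6), 6, 0, 3)]
  Tc := [(2, 0, 5)]
  Td := [((0, 2), (2, 1), 7), ((0, 2), (2, 5), 4), ((0, 2), (3, 7), 5), ((0, 2), (3, 9), 6), ((2,
    0), (0, 1), 7), ((2, 0), (0, 4), 1), ((2, 5), (0, 1), 7), ((2, 5), (0, 4), 1), ((4, 6),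
    (5, 2), 0), ((4, 6), (5, 4), 1), ((4, 6), (5, 6), 3), ((5, 2), (7, 3), 0), ((5, 2), (7,
    8), 1), ((6, 4), (9, 3), 0), ((6, 4), (9, 6), 3)]
  G := [[0, 0x14821842122142ae4148218421821426e8c, 0x2412141261a181881452a8a4816841c8e,
    0xa86118d224a46814d221c, 0x518461421814e118142a1816141cca], [0,
    0x54829842142142ae154829842142182ae1c, 0x41818241141111ce444818841181111ce2c, 0,
    0xe24141284a11294a9e841451841814a9a], [0, 0x6482a842c82c426e46482a842c42c42ae8c,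
    0x61811112a4a1414111926824816141c8e, 0xa881e1d2244481e1d228c,
    0x2184614288c892e1a884614a84cc814e1a], [0, 0x6482a842c42c82ae16182a142c42c82ae8c,
    0x41818141111111ce248818841c141141c256, 0, 0x4184814814ce114e26184a14a14cc814e8a]]

noncomputable def n3747 : Ent := ⟨e3747, noF, [], [], [(16, 14, [1580095832788404724998799751142926758855362888449624481876434100225, 0])]⟩

def c3747 : PLift (Cov.check n3747.C.D v3747 = true) := ⟨by decide +kernel⟩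

def b3747 : PLift (entF (fidx ts) 400 3747 n3747 = true) := ⟨by decide +kernel⟩

theorem g3747 : GoodF (fidx ts) 400 3747 := GoodF.ofV v3747 n3747 c3747.down b3747.down

/-- 8566644:2767/7 -/
noncomputable def e3748 : SCfg where
  D := {
    a := 7
    L := 10
    kp := 7
    inn := [(0, 1), (0, 2), (0, 3), (0, 5), (1, 0), (1, 3), (1, 4), (1, 5), (2, 0), (2, 6), (3, 0), (3,
      1), (3, 4), (4, 1), (4, 3), (5, 0), (5, 1), (6, 2)]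
    mix := [(0, 0), (0, 1), (0, 2), (0, 3), (1, 4), (2, 2), (2, 3), (2, 5), (2, 6), (3, 3), (3, 7), (3,
      8), (4, 4), (4, 5), (4, 8), (4, 9), (5, 0), (5, 4), (6, 3), (6, 6), (6, 7)]
    cl := [3, 6, 0, 0, 1, 2, 5, 4, 1, 7]
    chq := [(0, 1), (0, 3), (1, 0), (2, 4), (3, 0), (4, 2)]
    rng := [(0, 1), (0, 4), (1, 0), (1, 2), (2, 1), (2, 5), (3, 7), (4, 0), (4, 5), (5, 2), (5, 4), (5,
      6), (5, 9), (6, 5), (6, 7), (7, 3), (7, 6), (7, 8), (8, 7), (8, 9), (9, 5), (9, 8)]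
    lev := [] }
  links := [[1, 5, 7, 8, 9, 2, 10, 3], [11, 5, 0, 3, 4], [10, 0, 9, 12, 13, 6], [4, 1, 0, 10, 14, 15],
    [11, 1, 3, 15, 16, 12], [0, 1, 11, 7], [2, 13, 14, 10]]
  P := {
    a := 7
    N := 17
    nb := [1966, 2105, 13889, 50195, 104458, 2179, 25604, 2337, 641, 4357, 16461, 4274, 76308, 20548,
      42056, 81944, 36880]
    tri := [(0, 1, 3), (0, 1, 5), (0, 2, 9), (0, 2, 10), (0, 3, 10), (0, 5, 7), (0, 7, 8), (0, 8, 9),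
      (1, 3, 4), (1, 4, 11), (1, 5, 11), (2, 6, 10), (2, 6, 13), (2, 9, 12), (2, 12, 13), (3, 4,
      15), (3, 10, 14), (3, 14, 15), (4, 11, 12), (4, 12, 16), (4, 15, 16), (5, 7, 11), (6, 10,
      14), (6, 13, 14)]
    fin := [0, 1, 2, 1, 2, 5, 2, 5, 8, 0, 0, 1, 2, 13, 14, 1, 16]
    chd := [(0, 1), (2, 14), (5, 0)]
    steps := [(0, 9), (0, 10), (1, 3), (1, 15), (1, 11), (2, 6), (2, 12), (2, 4), (5, 7)] }
  rep := [0, 1, 2, 5, 14, 13, 8, 16]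

noncomputable def v3748 : Cov.CovD where
  P := 3
  N := 5
  pl := [1, 6, 9]
  lev := [⟨[], [], [(0, 0), (0, 3)], [6], [(0, 3, [0]), (2, 0, [1, 3]), (3, 0, [1, 3])]⟩,
    ⟨[], [(0, 0), (0, 1), (0, 3)], [], [], [(4, 1, [0])]⟩,
    ⟨[(0, 1)], [(0, 0), (0, 2), (0, 3)], [(0, 0), (0, 2)], [5], [(2, 0, [1, 3]), (3, 0, [1,
      3]), (5, 2, [4])]⟩,
    ⟨[(0, 1), (0, 2)], [(0, 0), (0, 1), (0, 3), (0, 4), (1, 0), (1, 1), (1, 4), (2, 0)],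
      [(0, 1), (0, 4), (1, 4)], [], [(3, 0, [1, 3]), (7, 4, [2]), (8, 1, [0])]⟩,
    ⟨[(0, 1), (0, 3), (1, 3)], [(1, 1), (1, 2), (2, 2), (3, 0), (3, 1), (3, 2), (3, 4)],
      [(1, 1), (1, 2)], [7], [(4, 1, [0]), (5, 2, [4]), (8, 1, [0])]⟩,
    ⟨[(0, 1), (0, 2), (0, 3), (1, 3), (1, 4)], [(0, 0), (0, 1), (0, 3), (1, 1), (1, 3), (4,
      1)], [(1, 3)], [], [(0, 3, [0]), (4, 1, [0])]⟩,
    ⟨[(0, 2)], [(0, 0), (2, 0), (2, 2), (2, 4), (3, 0), (3, 4)], [(0, 4)], [5], [(3, 0, [1,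
      3]), (7, 4, [2])]⟩]
  Ta := [((2, 1), 0, 6), ((2, 5), 0, 2), ((3, 7), 0, 4), ((4, 0), 1, 3), ((4, 5), 1, 2), ((8, 7),
    1, 4), ((8, 9), 1, 7)]
  Tb := [((0, 1, 4), 3, 6, 1), ((1, 0, 2), 6, 3, 0), ((2, 1, 5), 0, 6, 2), ((4, 0, 5), 1, 3, 2),
    ((5, 2, 4), 2, 0, 1), ((5, 2, 6), 2, 0, 5), ((5, 2, 9), 2, 0, 7), ((5, 4, 6), 2, 1, 5),
    ((5, 4, 9), 2, 1, 7), ((5, 6, 9), 2, 5, 7), ((6, 5, 7), 5, 2, 4), ((7, 3, 6), 4, 0, 5),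
    ((7, 3, 8), 4, 0, 1), ((7, 6, 8), 4, 5, 1), ((8, 7, 9), 1, 4, 7), ((9, 5, 8), 7, 2, 1)]
  Tc := [(0, 1, 3)]
  Td := [((0, 1), (2, 1), 6), ((0, 1), (2, 5), 2), ((0, 1), (3, 7), 4), ((0, 3), (2, 1), 6), ((0,
    3), (2, 5), 2), ((0, 3), (3, 7), 4), ((1, 0), (4, 0), 3), ((1, 0), (4, 5), 2), ((1, 0),
    (8, 7), 4), ((1, 0), (8, 9), 7), ((2, 4), (5, 2), 0), ((2, 4), (5, 4), 1), ((2, 4), (5,
    6), 5), ((2, 4), (5, 9), 7), ((3, 0), (0, 1), 6), ((3, 0), (0, 4), 1), ((4, 2), (7, 3),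
    0), ((4, 2), (7, 6), 5), ((4, 2), (7, 8), 1)]
  G := [[0, 0x7171c21118c2c421824d1c61111c2c88281c2111ca2221121c6c4e,
    0x1111c21111c2c11414c22121c1c8a161c161a1c1c4e,
    0x2121c1182192c42424921111c2c12121c12121c1c8e,
    0x114192282192a4114492212192a83114185111194a8e], [0,
    0x3111c29168c2c4a111c211b1c2c82122121ca4221111c6c8e,
    0xc1c2c1a2a8c16411841451111c88142121c9e28111c4111cc1111c1111cca1e, 0,
    0x1114185116894a24214481c5111192245a8111194d114185a8e], [0,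
    0x1111c261b8c2c41491c2b131c2c88123121c61211c228114ec4e, 0,
    0x2121c2282152c42424922121c2c88121521215c2121521419cc8e,
    0x414192282892a4444492242492a1e1e19441441419ca8e], [0,
    0x7111c281868c2451111c24844a424ca898181c2121ca1221161c6c4e, 0, 0,
    0x414194888194e8e894e28284942429c4422922629ca1e1e19441441419ca8e]]

noncomputable def n3748 : Ent := ⟨e3748, noF, [], [], [(13, 16, [1580044410770988437309982408355971841652082177953823432505704456193, 0])]⟩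

def c3748 : PLift (Cov.check n3748.C.D v3748 = true) := ⟨by decide +kernel⟩

def b3748 : PLift (entF (fidx ts) 400 3748 n3748 = true) := ⟨by decide +kernel⟩

theorem g3748 : GoodF (fidx ts) 400 3748 := GoodF.ofV v3748 n3748 c3748.down b3748.down

/-- 8566644:2767/4 -/
noncomputable def e3749 : SCfg where
  D := {
    a := 7
    L := 11
    kp := 8
    inn := [(0, 1), (0, 2), (0, 3), (0, 5), (1, 0), (1, 3), (1, 4), (1, 5), (2, 0), (2, 6), (3, 0), (3,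
      1), (3, 4), (4, 1), (4, 3), (5, 0), (5, 1), (6, 2)]
    mix := [(0, 0), (0, 1), (0, 2), (0, 3), (1, 4), (2, 2), (2, 3), (2, 5), (2, 6), (3, 3), (3, 7), (3,
      8), (4, 4), (4, 5), (4, 8), (4, 9), (5, 0), (5, 4), (6, 3), (6, 6), (6, 10)]
    cl := [3, 7, 0, 0, 1, 2, 4, 5, 1, 8, 6]
    chq := [(0, 3), (2, 6), (3, 0), (3, 5), (5, 3), (6, 2)]
    rng := [(0, 1), (0, 4), (1, 0), (1, 2), (2, 1), (2, 5), (3, 7), (3, 10), (4, 0), (4, 5), (5, 2),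
      (5, 4), (5, 6), (5, 9), (6, 5), (6, 10), (7, 3), (7, 8), (8, 7), (8, 9), (9, 5), (9, 8),
      (10, 3), (10, 6)]
    lev := [] }
  links := [[1, 5, 7, 8, 9, 2, 10, 3], [11, 5, 0, 3, 4], [10, 0, 9, 12, 13, 6], [4, 1, 0, 10, 14, 15],
    [11, 1, 3, 15, 16, 12], [0, 1, 11, 7], [2, 13, 17, 10]]
  P := {
    a := 7
    N := 18
    nb := [1966, 2105, 13889, 50195, 104458, 2179, 140292, 2337, 641, 4357, 147533, 4274, 76308,
      135236, 33800, 81944, 36880, 9280]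
    tri := [(0, 1, 3), (0, 1, 5), (0, 2, 9), (0, 2, 10), (0, 3, 10), (0, 5, 7), (0, 7, 8), (0, 8, 9),
      (1, 3, 4), (1, 4, 11), (1, 5, 11), (2, 6, 10), (2, 6, 13), (2, 9, 12), (2, 12, 13), (3, 4,
      15), (3, 10, 14), (3, 14, 15), (4, 11, 12), (4, 12, 16), (4, 15, 16), (5, 7, 11), (6, 10,
      17), (6, 13, 17)]
    fin := [0, 1, 2, 1, 4, 1, 2, 1, 8, 0, 0, 4, 2, 13, 14, 4, 16, 17]
    chd := [(1, 0), (1, 14), (2, 17)]
    steps := [(0, 9), (0, 10), (1, 3), (1, 5), (1, 7), (2, 6), (2, 12), (4, 15), (4, 11)] }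
  rep := [0, 4, 2, 1, 13, 14, 17, 8, 16]

noncomputable def v3749 : Cov.CovD where
  P := 3
  N := 6
  pl := [1, 6, 9]
  lev := [⟨[], [], [(0, 0), (0, 3)], [7], [(0, 3, [0, 5]), (2, 0, [3]), (3, 0, [3])]⟩,
    ⟨[], [(0, 0), (0, 1), (0, 3)], [], [], [(4, 1, [])]⟩,
    ⟨[(0, 1)], [(0, 0), (0, 2), (0, 3)], [(0, 0), (0, 2)], [4], [(2, 0, [3]), (3, 0, [3]),
      (5, 2, [6])]⟩,
    ⟨[(0, 1), (0, 2)], [(0, 0), (0, 1), (0, 3), (0, 5), (1, 0), (1, 1), (1, 5), (2, 0)],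
      [(0, 1), (0, 5), (1, 5)], [], [(3, 0, [3]), (7, 5, [3]), (8, 1, [])]⟩,
    ⟨[(0, 1), (0, 3), (1, 3)], [(1, 1), (1, 2), (2, 2), (3, 0), (3, 1), (3, 2), (3, 5)],
      [(1, 1), (1, 2)], [8], [(4, 1, []), (5, 2, [6]), (8, 1, [])]⟩,
    ⟨[(0, 1), (0, 2), (0, 3), (1, 3), (1, 4)], [(0, 0), (0, 1), (0, 3), (1, 1), (1, 3), (4,
      1)], [(1, 3)], [], [(0, 3, [0, 5]), (4, 1, [])]⟩,
    ⟨[(0, 2)], [(0, 0), (2, 0), (2, 2), (2, 6), (3, 0)], [(0, 6)], [4], [(3, 0, [3]), (10,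
      6, [2])]⟩]
  Ta := [((2, 1), 0, 7), ((2, 5), 0, 2), ((3, 7), 0, 5), ((3, 10), 0, 6), ((4, 0), 1, 3), ((4,
    5), 1, 2), ((8, 7), 1, 5), ((8, 9), 1, 8)]
  Tb := [((0, 1, 4), 3, 7, 1), ((1, 0, 2), 7, 3, 0), ((2, 1, 5), 0, 7, 2), ((3, 7, 10), 0, 5, 6),
    ((4, 0, 5), 1, 3, 2), ((5, 2, 4), 2, 0, 1), ((5, 2, 6), 2, 0, 4), ((5, 2, 9), 2, 0, 8),
    ((5, 4, 6), 2, 1, 4), ((5, 4, 9), 2, 1, 8), ((5, 6, 9), 2, 4, 8), ((6, 5, 10), 4, 2, 6),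
    ((7, 3, 8), 5, 0, 1), ((8, 7, 9), 1, 5, 8), ((9, 5, 8), 8, 2, 1), ((10, 3, 6), 6, 0, 4)]
  Tc := [(3, 0, 5)]
  Td := [((0, 3), (2, 1), 7), ((0, 3), (2, 5), 2), ((0, 3), (3, 7), 5), ((0, 3), (3, 10), 6),
    ((2, 6), (5, 2), 0), ((2, 6), (5, 4), 1), ((2, 6), (5, 6), 4), ((2, 6), (5, 9), 8), ((3,
    0), (0, 1), 7), ((3, 0), (0, 4), 1), ((3, 5), (0, 1), 7), ((3, 5), (0, 4), 1), ((5, 3),
    (7, 3), 0), ((5, 3), (7, 8), 1), ((6, 2), (10, 3), 0), ((6, 2), (10, 6), 4)]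
  G := [[0, 0x11622c1414c62818c2828c6c22414c281212c82222c1828caca1441222c148e2442212ccc34884ce,
    0x1111c21111c2641111c21111c2a1a1a1c16161c1c8e,
    0x111192212192c42121c22121c2c82121c12121c1c4e,
    0x111192414192a4414192111192a8141481618d441111c18da4e], [0,
    0x1112c1121c62121c2411c6c22111c218144e1121c1121cac21111c2114c62242122c148ec8e,
    0x1211c41112c4611111c81111c8a2a1a1c11146168c9c4e, 0,
    0x121294524294a1418181218124298a5411111418d1411911419ca4e], [0,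
    0xe24a28e8e8ce46222c2424c686e2e4ce8e4ca2222c2828cac2a42eac228e84e6222ace88284ec4e, 0,
    0x212152212152c4212192212152c82121521219c2421521219cc8e,
    0x416192e1c192a441e192e14192a8e1e19e1e19c4144941419ca4e], [0,
    0x2121c2e14e18e1e1cec2222c485e461ce1e4ca21a2c2121cac2a1a1ca1a4c66146161c648ec8e, 0, 0,
    0x426294e2c894a141e19418ce14198a261e1948e1619841c19c1419cace]]

noncomputable def n3749 : Ent := ⟨e3749, noF, [], [], [(13, 16, [7334685537875745012586738086077695515070955365108989538292687709024257, 0]), (17, 14, [6903326468334360900303599070699561856668565975414084080169086039506945, 0])]⟩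

def c3749 : PLift (Cov.check n3749.C.D v3749 = true) := ⟨by decide +kernel⟩

def b3749 : PLift (entF (fidx ts) 400 3749 n3749 = true) := ⟨by decide +kernel⟩

theorem g3749 : GoodF (fidx ts) 400 3749 := GoodF.ofV v3749 n3749 c3749.down b3749.down

/-- 8566644:2767/9 -/
noncomputable def e3750 : SCfg where
  D := {
    a := 7
    L := 10
    kp := 7
    inn := [(0, 1), (0, 2), (0, 3), (0, 5), (1, 0), (1, 3), (1, 4), (1, 5), (2, 0), (2, 6), (3, 0), (3,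
      1), (3, 4), (4, 1), (4, 3), (5, 0), (5, 1), (6, 2)]
    mix := [(0, 0), (0, 1), (0, 2), (0, 3), (1, 4), (2, 2), (2, 3), (2, 5), (2, 6), (3, 3), (3, 7), (3,
      8), (4, 4), (4, 6), (4, 8), (4, 9), (5, 0), (5, 4), (6, 3), (6, 6), (6, 7)]
    cl := [4, 5, 0, 0, 3, 6, 1, 2, 3, 7]
    chq := [(0, 1), (1, 0), (2, 4), (2, 5), (4, 2), (5, 2)]
    rng := [(0, 1), (0, 4), (1, 0), (1, 2), (2, 1), (2, 5), (3, 7), (4, 0), (4, 9), (5, 2), (5, 6), (6,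
      5), (6, 7), (6, 8), (6, 9), (7, 3), (7, 6), (7, 8), (8, 6), (8, 7), (9, 4), (9, 6)]
    lev := [] }
  links := [[1, 5, 7, 8, 9, 2, 10, 3], [11, 5, 0, 3, 4], [10, 0, 9, 12, 13, 6], [4, 1, 0, 10, 14, 15],
    [11, 1, 3, 15, 13, 16], [0, 1, 11, 7], [2, 13, 14, 10]]
  P := {
    a := 7
    N := 17
    nb := [1966, 2105, 13889, 50195, 108554, 2179, 25604, 2337, 641, 4357, 16461, 65714, 8708, 118868,
      42056, 24600, 10256]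
    tri := [(0, 1, 3), (0, 1, 5), (0, 2, 9), (0, 2, 10), (0, 3, 10), (0, 5, 7), (0, 7, 8), (0, 8, 9),
      (1, 3, 4), (1, 4, 11), (1, 5, 11), (2, 6, 10), (2, 6, 13), (2, 9, 12), (2, 12, 13), (3, 4,
      15), (3, 10, 14), (3, 14, 15), (4, 11, 16), (4, 13, 15), (4, 13, 16), (5, 7, 11), (6, 10,
      14), (6, 13, 14)]
    fin := [0, 1, 2, 3, 4, 1, 2, 1, 0, 2, 2, 4, 12, 13, 3, 4, 16]
    chd := [(0, 3), (1, 3), (2, 13)]
    steps := [(0, 8), (1, 5), (1, 7), (2, 6), (2, 9), (2, 10), (3, 14), (4, 15), (4, 11)] }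
  rep := [2, 13, 3, 4, 1, 0, 12, 16]

noncomputable def v3750 : Cov.CovD where
  P := 3
  N := 5
  pl := [5, 9]
  lev := [⟨[], [], [(0, 0), (0, 4), (0, 5), (4, 5)], [], [(0, 4, [2]), (1, 5, [2]), (2, 0, [1]),
      (3, 0, [1])]⟩,
    ⟨[], [(0, 0), (0, 3), (0, 4), (0, 5)], [], [], [(4, 3, [])]⟩,
    ⟨[(0, 1)], [(0, 0), (0, 1), (0, 4), (0, 5)], [(0, 0), (0, 1)], [6], [(2, 0, [1]), (3,
      0, [1]), (6, 1, [0])]⟩,
    ⟨[(0, 1), (0, 2)], [(0, 0), (0, 2), (0, 3), (0, 4), (0, 5), (1, 0), (1, 2), (1, 3), (2,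
      0)], [(0, 2), (0, 3), (2, 3)], [], [(3, 0, [1]), (7, 2, [4, 5]), (8, 3, [])]⟩,
    ⟨[(0, 1), (0, 3), (1, 3)], [(1, 1), (1, 3), (2, 1), (3, 0), (3, 1), (3, 2), (3, 3)],
      [(1, 3), (3, 3)], [7], [(4, 3, []), (6, 1, [0]), (8, 3, [])]⟩,
    ⟨[(0, 1), (0, 2), (0, 3), (1, 3), (1, 4)], [(0, 0), (0, 3), (0, 4), (0, 5), (1, 3), (1,
      4), (4, 3)], [(3, 4)], [], [(0, 4, [2]), (4, 3, [])]⟩,
    ⟨[(0, 2)], [(0, 0), (2, 0), (2, 1), (2, 2), (3, 0), (3, 2), (4, 1)], [(0, 1), (0, 2),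
      (1, 2)], [], [(3, 0, [1]), (6, 1, [0]), (7, 2, [4, 5])]⟩]
  Ta := [((2, 1), 0, 5), ((2, 5), 0, 6), ((3, 7), 0, 2), ((4, 0), 3, 4), ((4, 9), 3, 7), ((8, 6),
    3, 1), ((8, 7), 3, 2)]
  Tb := [((0, 1, 4), 4, 5, 3), ((1, 0, 2), 5, 4, 0), ((2, 1, 5), 0, 5, 6), ((4, 0, 9), 3, 4, 7),
    ((5, 2, 6), 6, 0, 1), ((6, 5, 7), 1, 6, 2), ((6, 5, 8), 1, 6, 3), ((6, 5, 9), 1, 6, 7),
    ((6, 7, 8), 1, 2, 3), ((6, 7, 9), 1, 2, 7), ((6, 8, 9), 1, 3, 7), ((7, 3, 6), 2, 0, 1),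
    ((7, 3, 8), 2, 0, 3), ((7, 6, 8), 2, 1, 3), ((8, 6, 7), 3, 1, 2), ((9, 4, 6), 7, 3, 1)]
  Tc := [(2, 4, 5)]
  Td := [((0, 1), (2, 1), 5), ((0, 1), (2, 5), 6), ((0, 1), (3, 7), 2), ((1, 0), (6, 5), 6), ((1,
    0), (6, 7), 2), ((1, 0), (6, 8), 3), ((1, 0), (6, 9), 7), ((2, 4), (7, 3), 0), ((2, 4),
    (7, 6), 1), ((2, 4), (7, 8), 3), ((2, 5), (7, 3), 0), ((2, 5), (7, 6), 1), ((2, 5), (7,
    8), 3), ((4, 2), (0, 1), 5), ((4, 2), (0, 4), 3), ((5, 2), (1, 0), 4), ((5, 2), (1, 2),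
    0)]
  G := [[0, 0x821442849148845188889486883e84da, 0, 0x4284128294c1248121258c42148d2,
    0x848484d24281a181b42d8851a18a181b81d8c2148414d842e], [0, 0x4414851c4414851cc82, 0,
    0x4282942185c8282942485cc12, 0x8418111c84474281a82c1811a5a18a12988a185ac11414c11845a41e],
    [0, 0x8491444851848492827844de88d2,
    0x414141d2414141d4c2814181d8818181d2c2424242d8424242d8c1e,
    0x82848284c42488248c82148218cd2, 0x848484d24288a888b883d888a888b81d8c2828282d844e], [0,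
    0x44184418c88148814cc2,
    0x414154141968181c818196c28184c81815a8181981885ac24141948815a41819811884ec4e,
    0x8242942425c4242942885cc12, 0x8834248484944688a82988a885a88a82c8888a5ac184849814648e]]

noncomputable def n3750 : Ent := ⟨e3750, noF, [], [], [(12, 16, [1580044410770988437309982408355971841652082177953823432505704456193, 0])]⟩

def c3750 : PLift (Cov.check n3750.C.D v3750 = true) := ⟨by decide +kernel⟩

def b3750 : PLift (entF (fidx ts) 400 3750 n3750 = true) := ⟨by decide +kernel⟩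

theorem g3750 : GoodF (fidx ts) 400 3750 := GoodF.ofV v3750 n3750 c3750.down b3750.down

/-- 8566644:2767/8 -/
noncomputable def e3751 : SCfg where
  D := {
    a := 7
    L := 11
    kp := 8
    inn := [(0, 1), (0, 2), (0, 3), (0, 5), (1, 0), (1, 3), (1, 4), (1, 5), (2, 0), (2, 6), (3, 0), (3,
      1), (3, 4), (4, 1), (4, 3), (5, 0), (5, 1), (6, 2)]
    mix := [(0, 0), (0, 1), (0, 2), (0, 3), (1, 4), (2, 2), (2, 3), (2, 5), (2, 6), (3, 3), (3, 7), (3,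
      8), (4, 4), (4, 6), (4, 8), (4, 9), (5, 0), (5, 4), (6, 3), (6, 6), (6, 10)]
    cl := [4, 7, 0, 0, 3, 2, 1, 5, 3, 8, 6]
    chq := [(0, 4), (2, 6), (4, 0), (4, 5), (5, 4), (6, 2)]
    rng := [(0, 1), (0, 4), (1, 0), (1, 2), (2, 1), (2, 5), (3, 7), (3, 10), (4, 0), (4, 9), (5, 2),
      (5, 6), (6, 5), (6, 8), (6, 9), (6, 10), (7, 3), (7, 8), (8, 6), (8, 7), (9, 4), (9, 6),
      (10, 3), (10, 6)]
    lev := [] }
  links := [[1, 5, 7, 8, 9, 2, 10, 3], [11, 5, 0, 3, 4], [10, 0, 9, 12, 13, 6], [4, 1, 0, 10, 14, 15],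
    [11, 1, 3, 15, 13, 16], [0, 1, 11, 7], [2, 13, 17, 10]]
  P := {
    a := 7
    N := 18
    nb := [1966, 2105, 13889, 50195, 108554, 2179, 140292, 2337, 641, 4357, 147533, 65714, 8708,
      233556, 33800, 24600, 10256, 9280]
    tri := [(0, 1, 3), (0, 1, 5), (0, 2, 9), (0, 2, 10), (0, 3, 10), (0, 5, 7), (0, 7, 8), (0, 8, 9),
      (1, 3, 4), (1, 4, 11), (1, 5, 11), (2, 6, 10), (2, 6, 13), (2, 9, 12), (2, 12, 13), (3, 4,
      15), (3, 10, 14), (3, 14, 15), (4, 11, 16), (4, 13, 15), (4, 13, 16), (5, 7, 11), (6, 10,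
      17), (6, 13, 17)]
    fin := [0, 1, 2, 1, 4, 1, 2, 1, 8, 0, 0, 4, 2, 13, 14, 4, 16, 17]
    chd := [(1, 0), (1, 14), (2, 17)]
    steps := [(0, 9), (0, 10), (1, 3), (1, 5), (1, 7), (2, 6), (2, 12), (4, 15), (4, 11)] }
  rep := [0, 13, 2, 4, 1, 14, 17, 8, 16]

noncomputable def v3751 : Cov.CovD where
  P := 3
  N := 6
  pl := [1, 6, 9]
  lev := [⟨[], [], [(0, 0), (0, 4)], [7], [(0, 4, [0, 5]), (2, 0, [4]), (3, 0, [4])]⟩,
    ⟨[], [(0, 0), (0, 3), (0, 4)], [], [], [(4, 3, [])]⟩,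
    ⟨[(0, 1)], [(0, 0), (0, 2), (0, 4)], [(0, 0), (0, 2)], [1], [(2, 0, [4]), (3, 0, [4]),
      (5, 2, [6])]⟩,
    ⟨[(0, 1), (0, 2)], [(0, 0), (0, 3), (0, 4), (0, 5), (1, 0), (1, 3), (1, 5), (2, 0)],
      [(0, 3), (0, 5), (3, 5)], [], [(3, 0, [4]), (7, 5, [4]), (8, 3, [])]⟩,
    ⟨[(0, 1), (0, 3), (1, 3)], [(1, 3), (3, 0), (3, 3), (3, 5)], [(3, 3)], [1, 8], [(4, 3,
      []), (8, 3, [])]⟩,
    ⟨[(0, 1), (0, 2), (0, 3), (1, 3), (1, 4)], [(0, 0), (0, 3), (0, 4), (1, 3), (1, 4), (4,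
      3)], [(3, 4)], [], [(0, 4, [0, 5]), (4, 3, [])]⟩,
    ⟨[(0, 2)], [(0, 0), (2, 0), (2, 2), (2, 6), (3, 0)], [(0, 6)], [1], [(3, 0, [4]), (10,
      6, [2])]⟩]
  Ta := [((2, 1), 0, 7), ((2, 5), 0, 2), ((3, 7), 0, 5), ((3, 10), 0, 6), ((4, 0), 3, 4), ((4,
    9), 3, 8), ((8, 6), 3, 1), ((8, 7), 3, 5)]
  Tb := [((0, 1, 4), 4, 7, 3), ((1, 0, 2), 7, 4, 0), ((2, 1, 5), 0, 7, 2), ((3, 7, 10), 0, 5, 6),
    ((4, 0, 9), 3, 4, 8), ((5, 2, 6), 2, 0, 1), ((6, 5, 8), 1, 2, 3), ((6, 5, 9), 1, 2, 8),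
    ((6, 5, 10), 1, 2, 6), ((6, 8, 9), 1, 3, 8), ((6, 8, 10), 1, 3, 6), ((6, 9, 10), 1, 8,
    6), ((7, 3, 8), 5, 0, 3), ((8, 6, 7), 3, 1, 5), ((9, 4, 6), 8, 3, 1), ((10, 3, 6), 6, 0,
    1)]
  Tc := [(4, 0, 5)]
  Td := [((0, 4), (2, 1), 7), ((0, 4), (2, 5), 2), ((0, 4), (3, 7), 5), ((0, 4), (3, 10), 6),
    ((2, 6), (5, 2), 0), ((2, 6), (5, 6), 1), ((4, 0), (0, 1), 7), ((4, 0), (0, 4), 3), ((4,
    5), (0, 1), 7), ((4, 5), (0, 4), 3), ((5, 4), (7, 3), 0), ((5, 4), (7, 8), 3), ((6, 2),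
    (10, 3), 0), ((6, 2), (10, 6), 1)]
  G := [[0, 0x2121c142121a1462124c182121618a2121a182122618ce,
    0x1811911d141414d64211a1411d181418da82121211d44141211d88ce,
    0x1811611d181411d642121411d181411da821131211d44141211d84ce,
    0x11311641d144444d6824151411d184411da82121841d48144212d88ce], [0,
    0x2121c2821c2127422121c2121c212b822422621216218d88e,
    0x181111d111111d642111111d111111da82111111d48111211d84ce,
    0x111111d24111211d486111411d181111da82111111d181188e4184445e,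
    0x114142d141411d682414411d114111da8241442858414141d11189c8ce], [0,
    0x282124e24282221e445212128e28212121e88a212424e212122ec41e, 0,
    0xc8c2c1dc8c4c4d642ccac2c1dc8c4c8da82c2c8c1d48c4cc3c2d84ce,
    0x44344641d444444d682424441d484841da824434842d48444241d88ce], [0,
    0x21228212121e2121c646212121e28212121e88a212121e48212121e88ce, 0,
    0xc1c1c1d24c2c1c1d446c1c15c1c1c1da8c2888ac1c1c1d44c2c2c2d889e,
    0x424141d414141d682414141d414148da824141541868414141d88ce]]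

noncomputable def n3751 : Ent := ⟨e3751, noF, [], [], [(12, 16, [7334685537875745012586738086077695515070955365108989538292687709024257, 0]), (17, 14, [6903326468334360900303599070699561856668565975414084080169086039515137, 0])]⟩

def c3751 : PLift (Cov.check n3751.C.D v3751 = true) := ⟨by decide +kernel⟩

def b3751 : PLift (entF (fidx ts) 400 3751 n3751 = true) := ⟨by decide +kernel⟩

theorem g3751 : GoodF (fidx ts) 400 3751 := GoodF.ofV v3751 n3751 c3751.down b3751.down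

/-- 8566644:2767/10 -/
noncomputable def e3752 : SCfg where
  D := {
    a := 7
    L := 11
    kp := 8
    inn := [(0, 1), (0, 2), (0, 3), (0, 5), (1, 0), (1, 3), (1, 4), (1, 5), (2, 0), (2, 6), (3, 0), (3,
      1), (3, 4), (4, 1), (4, 3), (5, 0), (5, 1), (6, 2)]
    mix := [(0, 0), (0, 1), (0, 2), (0, 3), (1, 4), (2, 2), (2, 3), (2, 5), (2, 6), (3, 3), (3, 7), (3,
      8), (4, 4), (4, 6), (4, 8), (4, 9), (5, 0), (5, 4), (6, 3), (6, 6), (6, 10)]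
    cl := [4, 7, 0, 0, 3, 2, 1, 5, 3, 8, 6]
    chq := [(0, 4), (2, 6), (4, 0), (4, 5), (5, 4), (6, 2)]
    rng := [(0, 1), (0, 4), (1, 0), (1, 2), (2, 1), (2, 5), (3, 7), (3, 10), (4, 0), (4, 6), (5, 2),
      (5, 6), (6, 4), (6, 5), (6, 9), (6, 10), (7, 3), (7, 8), (8, 7), (8, 9), (9, 6), (9, 8),
      (10, 3), (10, 6)]
    lev := [] }
  links := [[1, 5, 7, 8, 9, 2, 10, 3], [11, 5, 0, 3, 4], [10, 0, 9, 12, 13, 6], [4, 1, 0, 10, 14, 15],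
    [11, 1, 3, 15, 16, 13], [0, 1, 11, 7], [2, 13, 17, 10]]
  P := {
    a := 7
    N := 18
    nb := [1966, 2105, 13889, 50195, 108554, 2179, 140292, 2337, 641, 4357, 147533, 8370, 8708,
      202836, 33800, 81944, 40976, 9280]
    tri := [(0, 1, 3), (0, 1, 5), (0, 2, 9), (0, 2, 10), (0, 3, 10), (0, 5, 7), (0, 7, 8), (0, 8, 9),
      (1, 3, 4), (1, 4, 11), (1, 5, 11), (2, 6, 10), (2, 6, 13), (2, 9, 12), (2, 12, 13), (3, 4,
      15), (3, 10, 14), (3, 14, 15), (4, 11, 13), (4, 13, 16), (4, 15, 16), (5, 7, 11), (6, 10,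
      17), (6, 13, 17)]
    fin := [0, 1, 2, 1, 4, 1, 2, 1, 8, 0, 0, 4, 2, 13, 14, 4, 16, 17]
    chd := [(1, 0), (1, 14), (2, 17)]
    steps := [(0, 9), (0, 10), (1, 3), (1, 5), (1, 7), (2, 6), (2, 12), (4, 15), (4, 11)] }
  rep := [0, 13, 2, 4, 1, 14, 17, 8, 16]

noncomputable def v3752 : Cov.CovD where
  P := 3
  N := 6
  pl := [1, 6, 9]
  lev := [⟨[], [], [(0, 0), (0, 4)], [7], [(0, 4, [0, 5]), (2, 0, [4]), (3, 0, [4])]⟩,
    ⟨[], [(0, 0), (0, 3), (0, 4)], [], [], [(4, 3, [])]⟩,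
    ⟨[(0, 1)], [(0, 0), (0, 2), (0, 4)], [(0, 0), (0, 2)], [1], [(2, 0, [4]), (3, 0, [4]),
      (5, 2, [6])]⟩,
    ⟨[(0, 1), (0, 2)], [(0, 0), (0, 3), (0, 4), (0, 5), (1, 0), (1, 3), (1, 5), (2, 0)],
      [(0, 3), (0, 5), (3, 5)], [], [(3, 0, [4]), (7, 5, [4]), (8, 3, [])]⟩,
    ⟨[(0, 1), (0, 3), (1, 3)], [(1, 3), (3, 0), (3, 3), (3, 5)], [(3, 3)], [1, 8], [(4, 3,
      []), (8, 3, [])]⟩,
    ⟨[(0, 1), (0, 2), (0, 3), (1, 3), (1, 4)], [(0, 0), (0, 3), (0, 4), (1, 3), (1, 4), (4,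
      3)], [(3, 4)], [], [(0, 4, [0, 5]), (4, 3, [])]⟩,
    ⟨[(0, 2)], [(0, 0), (2, 0), (2, 2), (2, 6), (3, 0)], [(0, 6)], [1], [(3, 0, [4]), (10,
      6, [2])]⟩]
  Ta := [((2, 1), 0, 7), ((2, 5), 0, 2), ((3, 7), 0, 5), ((3, 10), 0, 6), ((4, 0), 3, 4), ((4,
    6), 3, 1), ((8, 7), 3, 5), ((8, 9), 3, 8)]
  Tb := [((0, 1, 4), 4, 7, 3), ((1, 0, 2), 7, 4, 0), ((2, 1, 5), 0, 7, 2), ((3, 7, 10), 0, 5, 6),
    ((4, 0, 6), 3, 4, 1), ((5, 2, 6), 2, 0, 1), ((6, 4, 5), 1, 3, 2), ((6, 4, 9), 1, 3, 8),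
    ((6, 4, 10), 1, 3, 6), ((6, 5, 9), 1, 2, 8), ((6, 5, 10), 1, 2, 6), ((6, 9, 10), 1, 8,
    6), ((7, 3, 8), 5, 0, 3), ((8, 7, 9), 3, 5, 8), ((9, 6, 8), 8, 1, 3), ((10, 3, 6), 6, 0,
    1)]
  Tc := [(4, 0, 5)]
  Td := [((0, 4), (2, 1), 7), ((0, 4), (2, 5), 2), ((0, 4), (3, 7), 5), ((0, 4), (3, 10), 6),
    ((2, 6), (5, 2), 0), ((2, 6), (5, 6), 1), ((4, 0), (0, 1), 7), ((4, 0), (0, 4), 3), ((4,
    5), (0, 1), 7), ((4, 5), (0, 4), 3), ((5, 4), (7, 3), 0), ((5, 4), (7, 8), 3), ((6, 2),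
    (10, 3), 0), ((6, 2), (10, 6), 1)]
  G := [[0, 0x2828c242828a2121654622524c282224c21298a2222a442222a2121c94ce,
    0x18119241811611d144646141411dc1838141411d88a1131211d48141211d84ce,
    0x1811911d181411d64211a1411d181418da82121811d48121212d84ce,
    0x411414384431241d1414c686441418d41838144411d88a121841d484444341d88ce], [0,
    0x282121e144212121e188212122e188e,
    0x181112d111111d642111111d28111411d88a121211d48111211d88ce,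
    0x121111d111414d64211115111111da8128889121111d48111111d84ce,
    0x411411111d684242c485411441d414141da82411151141c681211988ce], [0,
    0x282124e24282221e446212428e282224225e88a212822e482122322e88ce, 0,
    0xc8cc6c1dc8c4c1d64248c7c4c1dc8c4c8da82c2c8c2d48c4c2c2d88ce,
    0x444141d284434241d4446864454441d28424441d88a424841d484444341d88ce], [0,
    0x212121e24212121e446212121e28212121e88a242424e282828ec41e, 0,
    0xc18c1c1c1d64c1c25446c1c1c1d28c1c4c2d88ac2c2c4dc2c2c2dc81e,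
    0x424142d414441d682414141d28414141d88a414194114841ce8414486e]]

noncomputable def n3752 : Ent := ⟨e3752, noF, [], [], [(12, 16, [7334685537875745012586738086077695515070955365108989538292687709007873, 0])]⟩

def c3752 : PLift (Cov.check n3752.C.D v3752 = true) := ⟨by decide +kernel⟩

def b3752 : PLift (entF (fidx ts) 400 3752 n3752 = true) := ⟨by decide +kernel⟩

theorem g3752 : GoodF (fidx ts) 400 3752 := GoodF.ofV v3752 n3752 c3752.down b3752.down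

/-- 8566644:2767/11 -/
noncomputable def e3753 : SCfg where
  D := {
    a := 7
    L := 11
    kp := 8
    inn := [(0, 1), (0, 2), (0, 3), (0, 5), (1, 0), (1, 3), (1, 4), (1, 5), (2, 0), (2, 6), (3, 0), (3,
      1), (3, 4), (4, 1), (4, 3), (5, 0), (5, 1), (6, 2)]
    mix := [(0, 0), (0, 1), (0, 2), (0, 3), (1, 4), (2, 2), (2, 3), (2, 5), (2, 6), (3, 3), (3, 7), (3,
      8), (4, 4), (4, 8), (4, 9), (4, 10), (5, 0), (5, 4), (6, 3), (6, 6), (6, 7)]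
    cl := [3, 5, 0, 0, 1, 6, 4, 2, 1, 7, 8]
    chq := [(0, 4), (2, 3), (2, 5), (3, 2), (4, 0), (5, 2)]
    rng := [(0, 1), (0, 4), (1, 0), (1, 2), (2, 1), (2, 5), (3, 7), (4, 0), (4, 10), (5, 2), (5, 6),
      (6, 5), (6, 7), (7, 3), (7, 6), (7, 8), (8, 7), (8, 9), (9, 8), (9, 10), (10, 4), (10, 9)]
    lev := [] }
  links := [[1, 5, 7, 8, 9, 2, 10, 3], [11, 5, 0, 3, 4], [10, 0, 9, 12, 13, 6], [4, 1, 0, 10, 14, 15],
    [11, 1, 3, 15, 16, 17], [0, 1, 11, 7], [2, 13, 14, 10]]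
  P := {
    a := 7
    N := 18
    nb := [1966, 2105, 13889, 50195, 231434, 2179, 25604, 2337, 641, 4357, 16461, 131250, 8708, 20548,
      42056, 81944, 163856, 67600]
    tri := [(0, 1, 3), (0, 1, 5), (0, 2, 9), (0, 2, 10), (0, 3, 10), (0, 5, 7), (0, 7, 8), (0, 8, 9),
      (1, 3, 4), (1, 4, 11), (1, 5, 11), (2, 6, 10), (2, 6, 13), (2, 9, 12), (2, 12, 13), (3, 4,
      15), (3, 10, 14), (3, 14, 15), (4, 11, 17), (4, 15, 16), (4, 16, 17), (5, 7, 11), (6, 10,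
      14), (6, 13, 14)]
    fin := [0, 1, 2, 3, 4, 1, 2, 1, 0, 2, 2, 4, 12, 13, 3, 4, 16, 17]
    chd := [(0, 3), (1, 3), (2, 13)]
    steps := [(0, 8), (1, 5), (1, 7), (2, 6), (2, 9), (2, 10), (3, 14), (4, 15), (4, 11)] }
  rep := [2, 4, 3, 1, 13, 0, 12, 16, 17]

noncomputable def v3753 : Cov.CovD where
  P := 3
  N := 6
  pl := [5, 9, 10]
  lev := [⟨[], [], [(0, 0), (0, 3), (0, 5), (3, 5)], [], [(0, 3, [2]), (1, 5, [2]), (2, 0, [4]),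
      (3, 0, [4])]⟩,
    ⟨[], [(0, 0), (0, 1), (0, 3), (0, 5)], [], [], [(4, 1, [])]⟩,
    ⟨[(0, 1)], [(0, 0), (0, 3), (0, 4), (0, 5)], [(0, 0), (0, 4)], [6], [(2, 0, [4]), (3,
      0, [4]), (6, 4, [0])]⟩,
    ⟨[(0, 1), (0, 2)], [(0, 0), (0, 1), (0, 2), (0, 3), (0, 5), (1, 0), (1, 1), (1, 2), (2,
      0)], [(0, 1), (0, 2), (1, 2)], [], [(3, 0, [4]), (7, 2, [3, 5]), (8, 1, [])]⟩,
    ⟨[(0, 1), (0, 3), (1, 3)], [(1, 1), (3, 0), (3, 1), (3, 2)], [(1, 1)], [7, 8], [(4, 1,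
      []), (8, 1, [])]⟩,
    ⟨[(0, 1), (0, 2), (0, 3), (1, 3), (1, 4)], [(0, 0), (0, 1), (0, 3), (0, 5), (1, 1), (1,
      3), (4, 1)], [(1, 3)], [], [(0, 3, [2]), (4, 1, [])]⟩,
    ⟨[(0, 2)], [(0, 0), (2, 0), (2, 2), (2, 4), (3, 0), (3, 2)], [(0, 2), (0, 4), (2, 4)],
      [], [(3, 0, [4]), (6, 4, [0]), (7, 2, [3, 5])]⟩]
  Ta := [((2, 1), 0, 5), ((2, 5), 0, 6), ((3, 7), 0, 2), ((4, 0), 1, 3), ((4, 10), 1, 8), ((8,
    7), 1, 2), ((8, 9), 1, 7)]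
  Tb := [((0, 1, 4), 3, 5, 1), ((1, 0, 2), 5, 3, 0), ((2, 1, 5), 0, 5, 6), ((4, 0, 10), 1, 3, 8),
    ((5, 2, 6), 6, 0, 4), ((6, 5, 7), 4, 6, 2), ((7, 3, 6), 2, 0, 4), ((7, 3, 8), 2, 0, 1),
    ((7, 6, 8), 2, 4, 1), ((8, 7, 9), 1, 2, 7), ((9, 8, 10), 7, 1, 8), ((10, 4, 9), 8, 1, 7)]
  Tc := [(2, 3, 5)]
  Td := [((0, 4), (2, 1), 5), ((0, 4), (2, 5), 6), ((0, 4), (3, 7), 2), ((2, 3), (7, 3), 0), ((2,
    3), (7, 6), 4), ((2, 3), (7, 8), 1), ((2, 5), (7, 3), 0), ((2, 5), (7, 6), 4), ((2, 5),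
    (7, 8), 1), ((3, 2), (0, 1), 5), ((3, 2), (0, 4), 1), ((4, 0), (6, 5), 6), ((4, 0), (6,
    7), 2), ((5, 2), (1, 0), 3), ((5, 2), (1, 2), 0)]
  G := [[0, 0x22841284981818e4e214146128a2888688c88ce424644c44ce41411c11ce4e18882ce, 0, 0,
    0x1484141818d22882e1885488d889d211115118a225229229d2e8341414d841e], [0,
    0x11126118c24141111e822818181e441416418c111111e4e8e, 0,
    0x88588988cd844944544cd811911c11cd8e12,
    0x12145118c41828282d8121212d8222222d8e111145148c48e], [0,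
    0xc8c8c8e4228448c4c4c4e8a24444c4c468688c88a88ce844c4844ce8cccc8cc82cece,
    0x611486161c4414148d4282828d2e5818184d2a11a1a1ca212192146e881815818c414141d4c1c1c1d4e8e,
    0, 0xa8a8a8d2248264885889889d2a1a1a1d2225229229d2e88484a4a4a4d8c1e], [0,
    0xc24c1c1ac24c2c4c4e82181816818c41416418cc1c1c1e4e8e,
    0x616161d441441419c212828d4e2818181d8a1a1a1d8212124d8e281815818c41415418cc1c1c1d4e8e,
    0x88c88588cd844544944cd8ccccc5cccd8e12,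
    0xa4a45a18c42828282d8a2a2a2d8222222d8e1a4a4a4d841e]]

noncomputable def n3753 : Ent := ⟨e3753, noF, [], [], [(12, 16, [7334685537875745012586738086077695515070955365108989538292687709011969, 0]), (12, 17, [6903326391201334775872065844685381424292761054348340378595029945040897, 0]), (13, 16, [7334685537875745012586738086077695515070955365108989538292687709036545, 0])]⟩

def c3753 : PLift (Cov.check n3753.C.D v3753 = true) := ⟨by decide +kernel⟩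

def b3753 : PLift (entF (fidx ts) 400 3753 n3753 = true) := ⟨by decide +kernel⟩

theorem g3753 : GoodF (fidx ts) 400 3753 := GoodF.ofV v3753 n3753 c3753.down b3753.down

/-- 8566644:2767 -/
noncomputable def e3754 : SCfg where
  D := {
    a := 7
    L := 12
    kp := 9
    inn := [(0, 1), (0, 2), (0, 3), (0, 5), (1, 0), (1, 3), (1, 4), (1, 5), (2, 0), (2, 6), (3, 0), (3,
      1), (3, 4), (4, 1), (4, 3), (5, 0), (5, 1), (6, 2)]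
    mix := [(0, 0), (0, 1), (0, 2), (0, 3), (1, 4), (2, 2), (2, 3), (2, 5), (2, 6), (3, 3), (3, 7), (3,
      8), (4, 4), (4, 8), (4, 9), (4, 10), (5, 0), (5, 4), (6, 3), (6, 6), (6, 11)]
    cl := [2, 7, 0, 0, 1, 4, 3, 5, 1, 8, 9, 6]
    chq := [(0, 2), (2, 0), (2, 5), (4, 6), (5, 2), (6, 4)]
    rng := [(0, 1), (0, 4), (1, 0), (1, 2), (2, 1), (2, 5), (3, 7), (3, 11), (4, 0), (4, 10), (5, 2),
      (5, 6), (6, 5), (6, 11), (7, 3), (7, 8), (8, 7), (8, 9), (9, 8), (9, 10), (10, 4), (10, 9),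
      (11, 3), (11, 6)]
    lev := [] }
  links := [[1, 5, 7, 8, 9, 2, 10, 3], [11, 5, 0, 3, 4], [10, 0, 9, 12, 13, 6], [4, 1, 0, 10, 14, 15],
    [11, 1, 3, 15, 16, 17], [0, 1, 11, 7], [2, 13, 18, 10]]
  P := {
    a := 7
    N := 19
    nb := [1966, 2105, 13889, 50195, 231434, 2179, 271364, 2337, 641, 4357, 278605, 131250, 8708,
      266308, 33800, 81944, 163856, 67600, 9280]
    tri := [(0, 1, 3), (0, 1, 5), (0, 2, 9), (0, 2, 10), (0, 3, 10), (0, 5, 7), (0, 7, 8), (0, 8, 9),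
      (1, 3, 4), (1, 4, 11), (1, 5, 11), (2, 6, 10), (2, 6, 13), (2, 9, 12), (2, 12, 13), (3, 4,
      15), (3, 10, 14), (3, 14, 15), (4, 11, 17), (4, 15, 16), (4, 16, 17), (5, 7, 11), (6, 10,
      18), (6, 13, 18)]
    fin := [0, 1, 2, 1, 4, 1, 2, 1, 8, 0, 0, 4, 2, 13, 14, 4, 16, 17, 18]
    chd := [(1, 0), (1, 14), (2, 18)]
    steps := [(0, 9), (0, 10), (1, 3), (1, 5), (1, 7), (2, 6), (2, 12), (4, 15), (4, 11)] }
  rep := [0, 4, 1, 13, 2, 14, 18, 8, 16, 17]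

noncomputable def v3754 : Cov.CovD where
  P := 3
  N := 7
  pl := [1, 6, 9, 10]
  lev := [⟨[], [], [(0, 0), (0, 2)], [7], [(0, 2, [0, 5]), (2, 0, [2]), (3, 0, [2])]⟩,
    ⟨[], [(0, 0), (0, 1), (0, 2)], [], [], [(4, 1, [])]⟩,
    ⟨[(0, 1)], [(0, 0), (0, 2), (0, 4)], [(0, 0), (0, 4)], [3], [(2, 0, [2]), (3, 0, [2]),
      (5, 4, [6])]⟩,
    ⟨[(0, 1), (0, 2)], [(0, 0), (0, 1), (0, 2), (0, 5), (1, 0), (1, 1), (1, 5), (2, 0)],
      [(0, 1), (0, 5), (1, 5)], [], [(3, 0, [2]), (7, 5, [2]), (8, 1, [])]⟩,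
    ⟨[(0, 1), (0, 3), (1, 3)], [(1, 1), (3, 0), (3, 1), (3, 5)], [(1, 1)], [8, 9], [(4, 1,
      []), (8, 1, [])]⟩,
    ⟨[(0, 1), (0, 2), (0, 3), (1, 3), (1, 4)], [(0, 0), (0, 1), (0, 2), (1, 1), (1, 2), (4,
      1)], [(1, 2)], [], [(0, 2, [0, 5]), (4, 1, [])]⟩,
    ⟨[(0, 2)], [(0, 0), (2, 0), (2, 4), (2, 6), (3, 0)], [(0, 6)], [3], [(3, 0, [2]), (11,
      6, [4])]⟩]
  Ta := [((2, 1), 0, 7), ((2, 5), 0, 4), ((3, 7), 0, 5), ((3, 11), 0, 6), ((4, 0), 1, 2), ((4,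
    10), 1, 9), ((8, 7), 1, 5), ((8, 9), 1, 8)]
  Tb := [((0, 1, 4), 2, 7, 1), ((1, 0, 2), 7, 2, 0), ((2, 1, 5), 0, 7, 4), ((3, 7, 11), 0, 5, 6),
    ((4, 0, 10), 1, 2, 9), ((5, 2, 6), 4, 0, 3), ((6, 5, 11), 3, 4, 6), ((7, 3, 8), 5, 0, 1),
    ((8, 7, 9), 1, 5, 8), ((9, 8, 10), 8, 1, 9), ((10, 4, 9), 9, 1, 8), ((11, 3, 6), 6, 0,
    3)]
  Tc := [(2, 0, 5)]
  Td := [((0, 2), (2, 1), 7), ((0, 2), (2, 5), 4), ((0, 2), (3, 7), 5), ((0, 2), (3, 11), 6),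
    ((2, 0), (0, 1), 7), ((2, 0), (0, 4), 1), ((2, 5), (0, 1), 7), ((2, 5), (0, 4), 1), ((4,
    6), (5, 2), 0), ((4, 6), (5, 6), 3), ((5, 2), (7, 3), 0), ((5, 2), (7, 8), 1), ((6, 4),
    (11, 3), 0), ((6, 4), (11, 6), 3)]
  G := [[0, 0x6414a2a42181838ea142949858eae34546644686b82643414e618a862122c4c4c4e6e1898a188a4ac,
    0x645111d23898a8d2541158d2e4546414d2a818a8d214c858d2e1c,
    0x146134d2343814d2c45194d2e1681464d2983118d2185198d2e1c,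
    0x311131d2183818d2cc15898d22561319614591119a14511989c845e8a], [0,
    0x612116134e6a12311118ea122549894e6e4542511831eaa12a13111ea11214c898eae8c,
    0x3116262c5141111a2a1cd941c81c4c2cde46218883413816461cd1114514145a18d911941c1c4cde8e, 0,
    0x11619614538989a845111c1c8c5e2514115818dca1319a845144511151dce8a], [0,
    0x6464a2a8a8a8e2c82c8c8c4e6e644644686646868e2a8a862c22c4c4c8eaea8824a6824a8a8a8c4e,
    0x143464d2d81418d254c494d2e1143418d2a81838d254c8c4d2e1c,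
    0x616164d2a4a4a8d2c1c4c8d2e1646868d2a1a8a8d2c4c1c8d2e1c,
    0x616161d2a8a8a1d2c8c1c8d2e4684616168dca14a8a8a8dcc14c1c1c8dce1a], [0,
    0x646464e2a42a4a8a8e6c22c8c8c8eae1646868e2a82a8a8a8eac82c8c8c4e6e1682881e,
    0x3114481411816464cd311a8a8c9541c81c4c8cde26115816861cd141181c1c8cda141494d1414a4dc45e,
    0, 0x616162d4a24a8a8a2dcc1c2c8d4e16148c148a8616868d4a44a8a1a8dcc8c1c8d4e1e]]

noncomputable def n3754 : Ent := ⟨e3754, noF, [], [], [(12, 16, [31810581851548793677511941751458610980409781099126250235727204310992949249, 0]), (12, 17, [31810150492402119267275227079217218666319002904815489586567506653228978177, 0]), (13, 16, [31810581851548793677511941751458610980409781099126250235727204310992973825, 0]), (13, 17, [31810150492402119267275227079217218666319002904815489586567506653228990465, 0]), (18, 14, [30043303427726578972524504956108985724401353414501291620047999193395662849,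 0])]⟩

def c3754 : PLift (Cov.check n3754.C.D v3754 = true) := ⟨by decide +kernel⟩

def b3754 : PLift (entF (fidx ts) 400 3754 n3754 = true) := ⟨by decide +kernel⟩

theorem g3754 : GoodF (fidx ts) 400 3754 := GoodF.ofV v3754 n3754 c3754.down b3754.down

/-- 8686444:2768 -/
noncomputable def e3755 : SCfg where
  D := {
    a := 7
    L := 12
    kp := 9
    inn := [(0, 1), (0, 2), (0, 3), (0, 4), (1, 0), (1, 2), (1, 4), (2, 0), (2, 1), (2, 3), (2, 5), (2,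
      6), (3, 0), (3, 2), (3, 5), (4, 0), (4, 1), (5, 2), (5, 3), (6, 2)]
    mix := [(0, 0), (0, 1), (0, 2), (0, 3), (1, 4), (1, 5), (1, 6), (2, 6), (2, 7), (2, 8), (3, 1), (3,
      9), (3, 10), (4, 0), (4, 4), (5, 7), (5, 9), (6, 6), (6, 8), (6, 11)]
    cl := [1, 1, 7, 8, 3, 5, 0, 0, 2, 4, 6, 9]
    chq := [(0, 1), (0, 6), (1, 0), (1, 5), (5, 1), (6, 0)]
    rng := [(0, 3), (0, 4), (1, 2), (1, 10), (2, 1), (2, 3), (3, 0), (3, 2), (4, 0), (4, 5), (5, 4),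
      (5, 6), (6, 5), (6, 11), (7, 8), (7, 9), (8, 7), (8, 11), (9, 7), (9, 10), (10, 1), (10, 9),
      (11, 6), (11, 8)]
    lev := [] }
  links := [[7, 4, 1, 2, 3, 8, 9, 10], [2, 0, 4, 11, 12, 13], [14, 5, 3, 0, 1, 13, 6, 15], [8, 0, 2, 5,
    16, 17], [0, 7, 11, 1], [3, 2, 14, 16], [2, 13, 18, 15]]
  P := {
    a := 7
    N := 19
    nb := [1950, 14357, 57451, 196901, 2179, 81932, 303108, 3089, 131593, 1281, 641, 4242, 10242,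
      266310, 98340, 278596, 147496, 65800, 41024]
    tri := [(0, 1, 2), (0, 1, 4), (0, 2, 3), (0, 3, 8), (0, 4, 7), (0, 7, 10), (0, 8, 9), (0, 9, 10),
      (1, 2, 13), (1, 4, 11), (1, 11, 12), (1, 12, 13), (2, 3, 5), (2, 5, 14), (2, 6, 13), (2, 6,
      15), (2, 14, 15), (3, 5, 16), (3, 8, 17), (3, 16, 17), (4, 7, 11), (5, 14, 16), (6, 13, 18),
      (6, 15, 18)]
    fin := [0, 0, 2, 2, 0, 2, 2, 0, 0, 9, 10, 11, 12, 2, 2, 15, 16, 17, 18]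
    chd := [(0, 2), (0, 12), (2, 17)]
    steps := [(0, 1), (0, 4), (0, 7), (0, 8), (2, 3), (2, 5), (2, 6), (2, 13), (2, 14)] }
  rep := [2, 0, 15, 11, 16, 12, 17, 9, 10, 18]

noncomputable def v3755 : Cov.CovD where
  P := 3
  N := 7
  pl := [2, 3, 4, 8, 9, 11]
  lev := [⟨[], [], [(1, 1)], [7, 8], [(0, 1, [0, 5]), (1, 1, [0, 5])]⟩,
    ⟨[], [(0, 0), (0, 1), (0, 5)], [(0, 5)], [3], [(5, 5, [1]), (6, 0, [1, 6])]⟩,
    ⟨[(0, 1)], [(0, 0), (0, 1), (1, 0), (1, 5)], [(0, 0)], [2], [(6, 0, [1, 6]), (7, 0, [1,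
      6])]⟩,
    ⟨[(0, 1), (0, 2), (1, 2)], [(0, 1), (0, 6), (2, 0), (2, 1), (2, 6)], [(1, 6)], [4],
      [(1, 1, [0, 5]), (10, 6, [0])]⟩,
    ⟨[(0, 1), (0, 2), (0, 3), (1, 2)], [(0, 1), (1, 0), (1, 1), (1, 5)], [], [3], [(0, 1,
      [0, 5])]⟩,
    ⟨[(0, 2), (0, 3), (1, 2), (2, 3)], [(2, 0), (3, 0), (3, 1), (3, 6)], [], [4], [(7, 0,
      [1, 6])]⟩,
    ⟨[(0, 2), (1, 2), (2, 3), (2, 5)], [(1, 0), (2, 0)], [], [2, 9], [(6, 0, [1, 6])]⟩]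
  Ta := [((0, 3), 1, 8), ((0, 4), 1, 3), ((1, 2), 1, 7), ((1, 10), 1, 6), ((6, 5), 0, 5), ((6,
    11), 0, 9), ((7, 8), 0, 2), ((7, 9), 0, 4)]
  Tb := [((0, 3, 4), 1, 8, 3), ((1, 2, 10), 1, 7, 6), ((2, 1, 3), 7, 1, 8), ((3, 0, 2), 8, 1, 7),
    ((4, 0, 5), 3, 1, 5), ((5, 4, 6), 5, 3, 0), ((6, 5, 11), 0, 5, 9), ((7, 8, 9), 0, 2, 4),
    ((8, 7, 11), 2, 0, 9), ((9, 7, 10), 4, 0, 6), ((10, 1, 9), 6, 1, 4), ((11, 6, 8), 9, 0,
    2)]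
  Tc := [(0, 1, 6), (1, 0, 5)]
  Td := [((0, 1), (6, 5), 5), ((0, 1), (6, 11), 9), ((0, 1), (7, 8), 2), ((0, 1), (7, 9), 4),
    ((0, 6), (6, 5), 5), ((0, 6), (6, 11), 9), ((0, 6), (7, 8), 2), ((0, 6), (7, 9), 4), ((1,
    0), (0, 3), 8), ((1, 0), (0, 4), 3), ((1, 0), (1, 2), 7), ((1, 0), (1, 10), 6), ((1, 5),
    (0, 3), 8), ((1, 5), (0, 4), 3), ((1, 5), (1, 2), 7), ((1, 5), (1, 10), 6), ((5, 1), (5,
    4), 3), ((5, 1), (5, 6), 0), ((6, 0), (10, 1), 1), ((6, 0), (10, 9), 4)]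
  G := [[0, 0x48ceccac141cc64c8ea18111c11411a114116114ee, 0,
    0x846c851444641828891cc8cca914e42445188a81ccc6818444c8e918ec18c18c88b4114c14c44b8c41c116c118ced,
    0xaac886512aac4122261188c11aeaac812aa61188a628a86d18e188111aac8d2114a1428c4b8241a11a1a15e8818aed],
    [0, 0xc84eccaa141cc64c8ec1814cac8846e141e, 0,
    0x48cecca91424c8ecc65182c4c49c2c2c5c1c858c2d,
    0xa8a212a8a412222265188c11ae28aeaa651821131c14a4528ae8a6cd82d], [0,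
    0xc4a844cae141cc648ce6181cc64c8ea181e,
    0x666418caa8143aaa814cca4123aac8146aa418cc6248ec18ed,
    0x14411842c48c8c4a834311641811a81818811a13448c428f114188148741441841447818118111c1e4ed,
    0x124421442814145116438a44a28e892f1418511c838a44288e4383188148128d2184144124d214114111c1e8ed],
    [0, 0xcca48ce614111611811c11811a214ec84eccaa141e, 0xaac6aa914268c2a4d1826aa284ec182d,
    0x14145121255141458c21412c18189121169d821414c4181851212c9c2d,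
    0x1414514411612571448aa428231412c1812911c125d821151169141451212cd82d]]

noncomputable def n3755 : Ent := ⟨e3755, noF, [], [], []⟩

def c3755 : PLift (Cov.check n3755.C.D v3755 = true) := ⟨by decide +kernel⟩

def b3755 : PLift (entF (fidx ts) 400 3755 n3755 = true) := ⟨by decide +kernel⟩

theorem g3755 : GoodF (fidx ts) 400 3755 := GoodF.ofV v3755 n3755 c3755.down b3755.down

/-- 85686444:2769/1 -/
noncomputable def e3756 : SCfg where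
  D := {
    a := 8
    L := 11
    kp := 9
    inn := [(0, 1), (0, 2), (0, 3), (0, 4), (0, 5), (1, 0), (1, 5), (2, 0), (2, 3), (2, 5), (3, 0), (3,
      2), (3, 4), (3, 6), (3, 7), (4, 0), (4, 3), (4, 6), (5, 0), (5, 1), (5, 2), (6, 3), (6, 4),
      (7, 3)]
    mix := [(0, 0), (0, 1), (0, 2), (1, 2), (1, 3), (1, 4), (2, 3), (2, 5), (2, 6), (3, 6), (3, 7), (3,
      8), (4, 0), (4, 9), (4, 10), (5, 3), (6, 7), (6, 9), (7, 4), (7, 7), (7, 8)]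
    cl := [2, 8, 3, 1, 4, 9, 0, 0, 5, 6, 7]
    chq := [(0, 1), (0, 2), (0, 7), (1, 0), (1, 2), (2, 0), (2, 1), (2, 3), (2, 4), (3, 2), (4, 2), (7,
      0)]
    rng := [(0, 1), (0, 10), (1, 0), (1, 2), (2, 1), (2, 4), (3, 4), (3, 5), (4, 2), (4, 3), (4, 7),
      (4, 8), (5, 3), (5, 6), (6, 5), (6, 8), (7, 4), (7, 9), (8, 4), (8, 6), (9, 7), (9, 10),
      (10, 0), (10, 9)]
    lev := [] }
  links := [[1, 5, 2, 3, 4, 8, 9, 10], [11, 5, 0, 10, 12], [3, 0, 5, 11, 13, 14], [15, 6, 4, 0, 2, 14,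
    16, 7], [8, 0, 3, 6, 17, 18], [0, 1, 11, 2], [4, 3, 15, 17], [3, 16, 12, 15]]
  P := {
    a := 8
    N := 19
    nb := [1854, 7201, 26665, 114901, 393545, 2055, 163864, 102408, 262673, 1281, 4611, 12326, 101506,
      18436, 73740, 135368, 20616, 294992, 131344]
    tri := [(0, 1, 5), (0, 1, 10), (0, 2, 3), (0, 2, 5), (0, 3, 4), (0, 4, 8), (0, 8, 9), (0, 9, 10),
      (1, 5, 11), (1, 10, 12), (1, 11, 12), (2, 3, 14), (2, 5, 11), (2, 11, 13), (2, 13, 14), (3,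
      4, 6), (3, 6, 15), (3, 7, 15), (3, 7, 16), (3, 14, 16), (4, 6, 17), (4, 8, 18), (4, 17, 18),
      (6, 15, 17), (7, 12, 15), (7, 12, 16)]
    fin := [0, 0, 2, 3, 3, 0, 3, 7, 0, 9, 10, 2, 7, 13, 3, 3, 16, 17, 18]
    chd := [(0, 2), (0, 3), (0, 7), (0, 10), (2, 3), (3, 18)]
    steps := [(0, 1), (0, 5), (0, 8), (2, 11), (3, 4), (3, 6), (3, 14), (3, 15), (7, 12)] }
  rep := [3, 2, 0, 10, 7, 16, 17, 18, 9, 13]

noncomputable def v3756 : Cov.CovD where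
  P := 3
  N := 7
  pl := [1, 5, 8, 9]
  lev := [⟨[], [], [(2, 3)], [8], [(0, 2, [0, 1, 3, 4]), (2, 3, [2])]⟩,
    ⟨[], [(0, 1), (0, 2), (0, 3), (0, 4)], [(1, 3), (1, 4), (3, 4)], [], [(2, 3, [2]), (3,
      1, [0, 2]), (4, 4, [2])]⟩,
    ⟨[(0, 1)], [(0, 0), (0, 1), (0, 2), (0, 3), (1, 1)], [(0, 1)], [9], [(3, 1, [0, 2]),
      (6, 0, [1, 2, 7])]⟩,
    ⟨[(0, 1), (0, 2)], [(0, 0), (0, 2), (0, 3), (2, 0), (2, 1)], [(0, 0)], [5], [(6, 0, [1,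
      2, 7]), (7, 0, [1, 2, 7])]⟩,
    ⟨[(0, 1), (0, 2), (0, 3), (2, 3)], [(0, 2), (0, 3), (0, 7), (3, 0), (3, 2), (3, 7)],
      [(2, 7)], [6], [(0, 2, [0, 1, 3, 4]), (10, 7, [0])]⟩,
    ⟨[(0, 1), (0, 2), (0, 3), (0, 4), (1, 2), (2, 3)], [(0, 1), (0, 2), (0, 3), (1, 1), (1,
      3), (1, 4), (2, 0), (2, 1)], [], [], [(3, 1, [0, 2])]⟩,
    ⟨[(0, 3), (0, 4), (2, 3), (3, 4)], [(3, 0), (4, 0), (4, 2), (4, 7)], [], [6], [(7, 0,
      [1, 2, 7])]⟩,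
    ⟨[(0, 3), (2, 3), (3, 4), (3, 6)], [(1, 4), (3, 0), (3, 4), (6, 0)], [(0, 4)], [5],
      [(4, 4, [2]), (7, 0, [1, 2, 7])]⟩]
  Ta := [((6, 5), 0, 9), ((6, 8), 0, 5), ((7, 4), 0, 4), ((7, 9), 0, 6)]
  Tb := [((0, 1, 10), 2, 8, 7), ((1, 0, 2), 8, 2, 3), ((2, 1, 4), 3, 8, 4), ((3, 4, 5), 1, 4, 9),
    ((4, 2, 3), 4, 3, 1), ((4, 2, 7), 4, 3, 0), ((4, 2, 8), 4, 3, 5), ((4, 3, 7), 4, 1, 0),
    ((4, 3, 8), 4, 1, 5), ((4, 7, 8), 4, 0, 5), ((5, 3, 6), 9, 1, 0), ((6, 5, 8), 0, 9, 5),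
    ((7, 4, 9), 0, 4, 6), ((8, 4, 6), 5, 4, 0), ((9, 7, 10), 6, 0, 7), ((10, 0, 9), 7, 2, 6)]
  Tc := [(0, 1, 2), (0, 1, 7), (0, 2, 7), (1, 0, 2), (2, 0, 1), (2, 0, 3), (2, 0, 4), (2, 1, 3),
    (2, 1, 4), (2, 3, 4)]
  Td := [((0, 1), (6, 5), 9), ((0, 1), (6, 8), 5), ((0, 1), (7, 4), 4), ((0, 1), (7, 9), 6), ((0,
    2), (6, 5), 9), ((0, 2), (6, 8), 5), ((0, 2), (7, 4), 4), ((0, 2), (7, 9), 6), ((0, 7),
    (6, 5), 9), ((0, 7), (6, 8), 5), ((0, 7), (7, 4), 4), ((0, 7), (7, 9), 6), ((1, 0), (3,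
    4), 4), ((1, 0), (3, 5), 9), ((1, 2), (3, 4), 4), ((1, 2), (3, 5), 9), ((2, 0), (0, 1),
    8), ((2, 0), (0, 10), 7), ((2, 1), (0, 1), 8), ((2, 1), (0, 10), 7), ((2, 3), (0, 1), 8),
    ((2, 3), (0, 10), 7), ((2, 4), (0, 1), 8), ((2, 4), (0, 10), 7), ((3, 2), (2, 1), 8),
    ((3, 2), (2, 4), 4), ((4, 2), (4, 2), 3), ((4, 2), (4, 3), 1), ((4, 2), (4, 7), 0), ((4,
    2), (4, 8), 5), ((7, 0), (10, 0), 2), ((7, 0), (10, 9), 6)]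
  G := [[0, 0x11c11411c112116118e211a81411a812116118e211641811a81411c812e2d,
    0x11c4111a816111164111a41a111164111c41611e,
    0x1161122c41611a1122c416c21164122c41a31c1121611ac22264111c41c2168112a11cc1e,
    0x1c611a1a1165161193a11cc43561191c11a13a1159c116c41212181528b48ba1881c89e1281483181128a18166c89ec4b],
    [0, 0x116412116118116114e211a81411611211a818e211681411c41211c418e2d,
    0x11c411168161111c8111a41a1111a4111c81a11e,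
    0xc842244248288d612e4422882c128864142c41c12268144a81c1644e44224da48284e28dc1de,
    0x2442424c2848ce8b2864288848aac8fe144488818228a48aa68be28688424e8b8488e14c88484e89a88aac896cc68166c81ac6242c482a448e28ae88444aac5f]]

noncomputable def n3756 : Ent := ⟨e3756, noF, [], [], []⟩

def c3756 : PLift (Cov.check n3756.C.D v3756 = true) := ⟨by decide +kernel⟩

def b3756 : PLift (entF (fidx ts) 400 3756 n3756 = true) := ⟨by decide +kernel⟩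

theorem g3756 : GoodF (fidx ts) 400 3756 := GoodF.ofV v3756 n3756 c3756.down b3756.down

/-- 85686444:2769 -/
noncomputable def e3757 : SCfg where
  D := {
    a := 8
    L := 12
    kp := 10
    inn := [(0, 1), (0, 2), (0, 3), (0, 4), (0, 5), (1, 0), (1, 5), (2, 0), (2, 3), (2, 5), (3, 0), (3,
      2), (3, 4), (3, 6), (3, 7), (4, 0), (4, 3), (4, 6), (5, 0), (5, 1), (5, 2), (6, 3), (6, 4),
      (7, 3)]
    mix := [(0, 0), (0, 1), (0, 2), (1, 2), (1, 3), (1, 4), (2, 3), (2, 5), (2, 6), (3, 6), (3, 7), (3,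
      8), (4, 0), (4, 9), (4, 10), (5, 3), (6, 7), (6, 9), (7, 7), (7, 8), (7, 11)]
    cl := [3, 6, 4, 1, 8, 9, 0, 0, 2, 5, 7, 10]
    chq := [(0, 1), (0, 3), (0, 7), (1, 0), (1, 3), (1, 4), (1, 6), (3, 0), (3, 1), (4, 1), (6, 1), (7,
      0)]
    rng := [(0, 1), (0, 10), (1, 0), (1, 2), (2, 1), (2, 4), (3, 4), (3, 5), (4, 2), (4, 3), (5, 3),
      (5, 6), (6, 5), (6, 8), (7, 9), (7, 11), (8, 6), (8, 11), (9, 7), (9, 10), (10, 0), (10, 9),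
      (11, 7), (11, 8)]
    lev := [] }
  links := [[1, 5, 2, 3, 4, 8, 9, 10], [11, 5, 0, 10, 12], [3, 0, 5, 11, 13, 14], [15, 6, 4, 0, 2, 14,
    16, 7], [8, 0, 3, 6, 17, 18], [0, 1, 11, 2], [4, 3, 15, 17], [3, 16, 19, 15]]
  P := {
    a := 8
    N := 20
    nb := [1854, 7201, 26665, 114901, 393545, 2055, 163864, 622600, 262673, 1281, 4611, 12326, 3074,
      18436, 73740, 655560, 540808, 294992, 131344, 98432]
    tri := [(0, 1, 5), (0, 1, 10), (0, 2, 3), (0, 2, 5), (0, 3, 4), (0, 4, 8), (0, 8, 9), (0, 9, 10),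
      (1, 5, 11), (1, 10, 12), (1, 11, 12), (2, 3, 14), (2, 5, 11), (2, 11, 13), (2, 13, 14), (3,
      4, 6), (3, 6, 15), (3, 7, 15), (3, 7, 16), (3, 14, 16), (4, 6, 17), (4, 8, 18), (4, 17, 18),
      (6, 15, 17), (7, 15, 19), (7, 16, 19)]
    fin := [0, 1, 0, 3, 3, 1, 3, 3, 8, 9, 1, 0, 12, 13, 3, 3, 16, 17, 18, 19]
    chd := [(0, 3), (1, 0), (3, 18), (8, 0), (8, 3), (9, 0)]
    steps := [(0, 2), (1, 5), (0, 11), (1, 10), (3, 4), (3, 6), (3, 7), (3, 14), (3, 15)] }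
  rep := [3, 0, 16, 8, 1, 17, 9, 18, 12, 13, 19]

noncomputable def v3757 : Cov.CovD where
  P := 3
  N := 8
  pl := [4, 5, 8, 9, 11]
  lev := [⟨[], [], [(3, 4), (3, 6), (4, 6)], [], [(0, 3, [0, 1]), (1, 6, [1]), (2, 4, [1])]⟩,
    ⟨[], [(0, 1), (0, 3), (0, 4), (0, 6)], [(1, 4)], [8], [(2, 4, [1]), (3, 1, [0, 3, 4,
      6])]⟩,
    ⟨[(0, 1)], [(0, 0), (0, 1), (0, 3), (0, 4), (0, 6), (1, 1)], [(0, 1)], [9], [(3, 1, [0,
      3, 4, 6]), (6, 0, [1, 3, 7])]⟩,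
    ⟨[(0, 1), (0, 2)], [(0, 0), (0, 3), (0, 4), (0, 6), (2, 0), (2, 1)], [(0, 0)], [2],
      [(6, 0, [1, 3, 7]), (7, 0, [1, 3, 7])]⟩,
    ⟨[(0, 1), (0, 2), (0, 3), (2, 3)], [(0, 3), (0, 4), (0, 6), (0, 7), (3, 0), (3, 3), (3,
      7)], [(3, 7)], [5], [(0, 3, [0, 1]), (10, 7, [0])]⟩,
    ⟨[(0, 1), (0, 2), (0, 3), (0, 4), (1, 2), (2, 3)], [(0, 1), (0, 3), (0, 4), (0, 6), (1,
      1), (1, 4), (2, 0), (2, 1)], [], [], [(3, 1, [0, 3, 4, 6])]⟩,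
    ⟨[(0, 3), (0, 4), (2, 3), (3, 4)], [(3, 0), (4, 0), (4, 3), (4, 7)], [], [5], [(7, 0,
      [1, 3, 7])]⟩,
    ⟨[(0, 3), (2, 3), (3, 4), (3, 6)], [(3, 0), (6, 0)], [], [2, 10], [(7, 0, [1, 3, 7])]⟩]
  Ta := [((6, 5), 0, 9), ((6, 8), 0, 2), ((7, 9), 0, 5), ((7, 11), 0, 10)]
  Tb := [((0, 1, 10), 3, 6, 7), ((1, 0, 2), 6, 3, 4), ((2, 1, 4), 4, 6, 8), ((3, 4, 5), 1, 8, 9),
    ((4, 2, 3), 8, 4, 1), ((5, 3, 6), 9, 1, 0), ((6, 5, 8), 0, 9, 2), ((7, 9, 11), 0, 5, 10),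
    ((8, 6, 11), 2, 0, 10), ((9, 7, 10), 5, 0, 7), ((10, 0, 9), 7, 3, 5), ((11, 7, 8), 10, 0,
    2)]
  Tc := [(0, 1, 3), (0, 1, 7), (0, 3, 7), (1, 0, 3), (1, 0, 4), (1, 0, 6), (1, 3, 4), (1, 3, 6),
    (1, 4, 6), (3, 0, 1)]
  Td := [((0, 1), (6, 5), 9), ((0, 1), (6, 8), 2), ((0, 1), (7, 9), 5), ((0, 1), (7, 11), 10),
    ((0, 3), (6, 5), 9), ((0, 3), (6, 8), 2), ((0, 3), (7, 9), 5), ((0, 3), (7, 11), 10),
    ((0, 7), (6, 5), 9), ((0, 7), (6, 8), 2), ((0, 7), (7, 9), 5), ((0, 7), (7, 11), 10),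
    ((1, 0), (3, 4), 8), ((1, 0), (3, 5), 9), ((1, 3), (3, 4), 8), ((1, 3), (3, 5), 9), ((1,
    4), (3, 4), 8), ((1, 4), (3, 5), 9), ((1, 6), (3, 4), 8), ((1, 6), (3, 5), 9), ((3, 0),
    (0, 1), 6), ((3, 0), (0, 10), 7), ((3, 1), (0, 1), 6), ((3, 1), (0, 10), 7), ((4, 1), (2,
    1), 6), ((4, 1), (2, 4), 8), ((6, 1), (1, 0), 3), ((6, 1), (1, 2), 4), ((7, 0), (10, 0),
    3), ((7, 0), (10, 9), 5)]
  G := [[0, 0x11621411a814c11c818116818611c41411c414ae1,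
    0x666118ca6118c666118aaa114c66a814a66118cd2, 0x11a114116118c11a81411c118c11611811a814cd2,
    0x11611811c418c11641811c118c116118116118cd2], [0,
    0x11c41411c818c11621811a218a11c414116418ce1, 0,
    0xc84242c84241cc41282c41282c44448a8c48cc64f8288c1c444c8e85c84c88ac144848a8c44cc68f8488c1dc28282c84242c84242df,
    0x2222822884aa12442844844aa12422844888aa17a21282a44281a482817228a4428c4aa64f8888a1248a24a4428ae8f8848a1244a48a44aa68f8848a1da412828418288182a4128e8288282482a4828edf]]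

noncomputable def n3757 : Ent := ⟨e3757, noF, [], [], [(12, 19, [130296143695408343586455050064352370635079224267853574415018227909354224009217, 0])]⟩

def c3757 : PLift (Cov.check n3757.C.D v3757 = true) := ⟨by decide +kernel⟩

def b3757 : PLift (entF (fidx ts) 400 3757 n3757 = true) := ⟨by decide +kernel⟩

theorem g3757 : GoodF (fidx ts) 400 3757 := GoodF.ofV v3757 n3757 c3757.down b3757.down

/-- 856664:2770/1 -/
noncomputable def e3758 : SCfg where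
  D := {
    a := 6
    L := 11
    kp := 8
    inn := [(0, 1), (0, 2), (0, 3), (0, 4), (0, 5), (1, 0), (1, 5), (2, 0), (2, 5), (3, 0), (3, 4), (4,
      0), (4, 3), (5, 0), (5, 1), (5, 2)]
    mix := [(0, 0), (0, 1), (0, 2), (1, 2), (1, 3), (1, 4), (2, 0), (2, 3), (2, 5), (2, 6), (3, 0), (3,
      6), (3, 7), (3, 8), (4, 1), (4, 8), (4, 9), (4, 10), (5, 3)]
    cl := [0, 0, 1, 3, 5, 4, 2, 6, 0, 7, 8]
    chq := [(1, 2), (1, 3), (1, 4), (2, 1), (3, 1), (4, 1)]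
    rng := [(0, 6), (1, 2), (1, 10), (2, 1), (2, 4), (3, 4), (3, 5), (4, 2), (4, 3), (5, 3), (5, 6),
      (6, 0), (6, 5), (6, 7), (7, 6), (7, 8), (8, 7), (8, 9), (9, 8), (9, 10), (10, 1), (10, 9)]
    lev := [] }
  links := [[1, 5, 2, 6, 3, 4, 7, 8], [9, 5, 0, 8, 10], [6, 0, 5, 9, 11, 12], [4, 0, 6, 12, 13, 14], [7,
    0, 3, 14, 15, 16], [0, 1, 9, 2]]
  P := {
    a := 6
    N := 17
    nb := [510, 1825, 6753, 28753, 114825, 519, 4109, 65809, 1155, 3110, 770, 4612, 10316, 20488,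
      40984, 81936, 32912]
    tri := [(0, 1, 5), (0, 1, 8), (0, 2, 5), (0, 2, 6), (0, 3, 4), (0, 3, 6), (0, 4, 7), (0, 7, 8), (1,
      5, 9), (1, 8, 10), (1, 9, 10), (2, 5, 9), (2, 6, 12), (2, 9, 11), (2, 11, 12), (3, 4, 14),
      (3, 6, 12), (3, 12, 13), (3, 13, 14), (4, 7, 16), (4, 14, 15), (4, 15, 16)]
    fin := [0, 1, 1, 0, 0, 1, 0, 0, 1, 9, 10, 11, 12, 13, 0, 15, 16]
    chd := [(1, 9), (1, 11), (1, 12)]
    steps := [(0, 3), (0, 4), (0, 6), (0, 14), (0, 7), (1, 5), (1, 2), (1, 8)] }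
  rep := [0, 1, 12, 9, 11, 10, 13, 15, 16]

noncomputable def v3758 : Cov.CovD where
  P := 3
  N := 6
  pl := [4, 7, 9, 10]
  lev := [⟨[], [], [(0, 0), (0, 1)], [], [(0, 0, []), (1, 0, []), (2, 1, [2, 3, 4])]⟩,
    ⟨[], [(0, 0), (0, 1), (0, 3)], [(1, 3)], [5], [(2, 1, [2, 3, 4]), (3, 3, [1])]⟩,
    ⟨[(0, 1)], [(0, 0), (0, 1), (0, 2), (0, 3), (0, 4), (1, 3)], [(0, 2), (0, 3), (0, 4),
      (2, 3), (2, 4), (3, 4)], [], [(0, 0, []), (3, 3, [1]), (5, 4, [1]), (6, 2, [1])]⟩,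
    ⟨[(0, 1), (0, 2)], [(0, 0), (0, 1), (0, 2), (2, 0), (2, 2)], [(0, 0), (0, 2)], [6],
      [(0, 0, []), (6, 2, [1]), (8, 0, [])]⟩,
    ⟨[(0, 1), (0, 2), (0, 3)], [(0, 0), (0, 1), (3, 0), (3, 2)], [(0, 0)], [7, 8], [(1, 0,
      []), (8, 0, [])]⟩,
    ⟨[(0, 1), (0, 2), (0, 3), (0, 4), (1, 2)], [(0, 0), (0, 1), (0, 3), (1, 1), (1, 3), (2,
      0), (2, 2), (2, 3), (2, 4)], [], [], [(3, 3, [1])]⟩]
  Ta := [((0, 6), 0, 2), ((1, 2), 0, 1), ((1, 10), 0, 8), ((8, 7), 0, 6), ((8, 9), 0, 7)]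
  Tb := [((1, 2, 10), 0, 1, 8), ((2, 1, 4), 1, 0, 5), ((3, 4, 5), 3, 5, 4), ((4, 2, 3), 5, 1, 3),
    ((5, 3, 6), 4, 3, 2), ((6, 0, 5), 2, 0, 4), ((6, 0, 7), 2, 0, 6), ((6, 5, 7), 2, 4, 6),
    ((7, 6, 8), 6, 2, 0), ((8, 7, 9), 0, 6, 7), ((9, 8, 10), 7, 0, 8), ((10, 1, 9), 8, 0, 7)]
  Tc := [(1, 2, 3), (1, 2, 4), (1, 3, 4)]
  Td := [((1, 2), (2, 1), 0), ((1, 2), (2, 4), 5), ((1, 3), (2, 1), 0), ((1, 3), (2, 4), 5), ((1,
    4), (2, 1), 0), ((1, 4), (2, 4), 5), ((2, 1), (6, 0), 0), ((2, 1), (6, 5), 4), ((2, 1),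
    (6, 7), 6), ((3, 1), (3, 4), 5), ((3, 1), (3, 5), 4), ((4, 1), (5, 3), 3), ((4, 1), (5,
    6), 2)]
  G := [[0, 0, 0x444e444e6248488a888ee2111e111ea29c, 0x5565c5ec22c8822c,
    0x44444ea24888e888ea299a82111e111ea2dc], [0, 0x226222ec1228812888e888ec1444e444ec1ce, 0,
    0xc442259ce99ac22c, 0x446444ea24888e888ea29882111e111ea2dc], [0, 0, 0,
    0x5442299ce99ac22c, 0x44444ea24888e888ea299a82111e111ea2dc]]

noncomputable def n3758 : Ent := ⟨e3758, noF, [], [], []⟩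

def c3758 : PLift (Cov.check n3758.C.D v3758 = true) := ⟨by decide +kernel⟩

def b3758 : PLift (entF (fidx ts) 400 3758 n3758 = true) := ⟨by decide +kernel⟩

theorem g3758 : GoodF (fidx ts) 400 3758 := GoodF.ofV v3758 n3758 c3758.down b3758.down

/-- 856664:2770 -/
noncomputable def e3759 : SCfg where
  D := {
    a := 6
    L := 12
    kp := 9
    inn := [(0, 1), (0, 2), (0, 3), (0, 4), (0, 5), (1, 0), (1, 5), (2, 0), (2, 5), (3, 0), (3, 4), (4,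
      0), (4, 3), (5, 0), (5, 1), (5, 2)]
    mix := [(0, 0), (0, 1), (0, 2), (1, 2), (1, 3), (1, 4), (2, 0), (2, 3), (2, 5), (2, 6), (3, 0), (3,
      7), (3, 8), (3, 9), (4, 1), (4, 9), (4, 10), (4, 11), (5, 3)]
    cl := [0, 0, 1, 3, 5, 4, 2, 6, 7, 0, 8, 9]
    chq := [(1, 2), (1, 3), (1, 4), (2, 1), (3, 1), (4, 1)]
    rng := [(0, 6), (0, 7), (1, 2), (1, 11), (2, 1), (2, 4), (3, 4), (3, 5), (4, 2), (4, 3), (5, 3),
      (5, 6), (6, 0), (6, 5), (7, 0), (7, 8), (8, 7), (8, 9), (9, 8), (9, 10), (10, 9), (10, 11),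
      (11, 1), (11, 10)]
    lev := [] }
  links := [[1, 5, 2, 6, 3, 4, 7, 8], [9, 5, 0, 8, 10], [6, 0, 5, 9, 11, 12], [4, 0, 6, 13, 14, 15], [7,
    0, 3, 15, 16, 17], [0, 1, 9, 2]]
  P := {
    a := 6
    N := 18
    nb := [510, 1825, 6753, 57425, 229513, 519, 12301, 131345, 1155, 3110, 770, 4612, 2116, 16456,
      40968, 81944, 163856, 65680]
    tri := [(0, 1, 5), (0, 1, 8), (0, 2, 5), (0, 2, 6), (0, 3, 4), (0, 3, 6), (0, 4, 7), (0, 7, 8), (1,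
      5, 9), (1, 8, 10), (1, 9, 10), (2, 5, 9), (2, 6, 12), (2, 9, 11), (2, 11, 12), (3, 4, 15),
      (3, 6, 13), (3, 13, 14), (3, 14, 15), (4, 7, 17), (4, 15, 16), (4, 16, 17)]
    fin := [0, 1, 1, 0, 0, 1, 0, 0, 1, 9, 10, 11, 12, 13, 14, 0, 16, 17]
    chd := [(1, 9), (1, 11), (1, 12)]
    steps := [(0, 3), (0, 4), (0, 6), (0, 15), (0, 7), (1, 5), (1, 2), (1, 8)] }
  rep := [0, 1, 12, 9, 11, 10, 13, 14, 16, 17]

noncomputable def v3759 : Cov.CovD where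
  P := 3
  N := 7
  pl := [4, 7, 8, 10, 11]
  lev := [⟨[], [], [(0, 0), (0, 1)], [], [(0, 0, []), (1, 0, []), (2, 1, [2, 3, 4])]⟩,
    ⟨[], [(0, 0), (0, 1), (0, 3)], [(1, 3)], [5], [(2, 1, [2, 3, 4]), (3, 3, [1])]⟩,
    ⟨[(0, 1)], [(0, 0), (0, 1), (0, 2), (0, 3), (0, 4), (1, 3)], [(0, 2), (0, 3), (0, 4),
      (2, 3), (2, 4), (3, 4)], [], [(0, 0, []), (3, 3, [1]), (5, 4, [1]), (6, 2, [1])]⟩,
    ⟨[(0, 1), (0, 2)], [(0, 0), (0, 1), (2, 0)], [(0, 0)], [6, 7], [(0, 0, []), (9, 0,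
      [])]⟩,
    ⟨[(0, 1), (0, 2), (0, 3)], [(0, 0), (0, 1), (3, 0)], [(0, 0)], [8, 9], [(1, 0, []), (9,
      0, [])]⟩,
    ⟨[(0, 1), (0, 2), (0, 3), (0, 4), (1, 2)], [(0, 0), (0, 1), (0, 3), (1, 1), (1, 3), (2,
      0), (2, 2), (2, 3), (2, 4)], [], [], [(3, 3, [1])]⟩]
  Ta := [((0, 6), 0, 2), ((0, 7), 0, 6), ((1, 2), 0, 1), ((1, 11), 0, 9), ((9, 8), 0, 7), ((9,
    10), 0, 8)]
  Tb := [((0, 6, 7), 0, 2, 6), ((1, 2, 11), 0, 1, 9), ((2, 1, 4), 1, 0, 5), ((3, 4, 5), 3, 5, 4),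
    ((4, 2, 3), 5, 1, 3), ((5, 3, 6), 4, 3, 2), ((6, 0, 5), 2, 0, 4), ((7, 0, 8), 6, 0, 7),
    ((8, 7, 9), 7, 6, 0), ((9, 8, 10), 0, 7, 8), ((10, 9, 11), 8, 0, 9), ((11, 1, 10), 9, 0,
    8)]
  Tc := [(1, 2, 3), (1, 2, 4), (1, 3, 4)]
  Td := [((1, 2), (2, 1), 0), ((1, 2), (2, 4), 5), ((1, 3), (2, 1), 0), ((1, 3), (2, 4), 5), ((1,
    4), (2, 1), 0), ((1, 4), (2, 4), 5), ((2, 1), (6, 0), 0), ((2, 1), (6, 5), 4), ((3, 1),
    (3, 4), 5), ((3, 1), (3, 5), 4), ((4, 1), (5, 3), 3), ((4, 1), (5, 6), 2)]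
  G := [[0, 0, 0x5442446444e444ee2111e111e62d888e88a888ee29882111e82dc, 0x55ce42259ce59cea22c,
    0x5442446444e444ee2111e111e62d888e88a888ee29882111e82dc], [0,
    0x444e21226222e222ee1682212881a888e888e88ce1444e444ec1ce, 0, 0x55655ce59cee2298822c,
    0x5442446444e444ee2116111e111ee2d888e88a888ee298821882dc], [0, 0, 0,
    0x5c9e55ce622c95e822c, 0x5442446444e444ee2111e42d888e88a888ee29882111e111ea2dc]]

noncomputable def n3759 : Ent := ⟨e3759, noF, [], [], [(13, 12, [7334790875884700912148207959429466810732110717284923962112213602983937, 0])]⟩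

def c3759 : PLift (Cov.check n3759.C.D v3759 = true) := ⟨by decide +kernel⟩

def b3759 : PLift (entF (fidx ts) 400 3759 n3759 = true) := ⟨by decide +kernel⟩

theorem g3759 : GoodF (fidx ts) 400 3759 := GoodF.ofV v3759 n3759 c3759.down b3759.down

/-- 6864444:2771/2 -/
noncomputable def e3760 : SCfg where
  D := {
    a := 7
    L := 10
    kp := 7
    inn := [(0, 1), (0, 3), (1, 0), (1, 2), (1, 5), (1, 6), (2, 1), (2, 4), (3, 0), (4, 2), (5, 1), (6,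
      1)]
    mix := [(0, 0), (0, 1), (0, 2), (0, 3), (1, 0), (1, 3), (1, 4), (1, 5), (2, 0), (2, 4), (2, 6), (2,
      7), (3, 0), (3, 1), (3, 6), (4, 4), (4, 7), (4, 8), (5, 3), (5, 5), (5, 9), (6, 4), (6, 5),
      (6, 8)]
    cl := [0, 3, 6, 0, 0, 1, 2, 5, 4, 7]
    chq := [(0, 1), (0, 3), (1, 0), (2, 4), (3, 0), (4, 2)]
    rng := [(0, 6), (1, 2), (1, 6), (2, 1), (2, 3), (3, 2), (3, 9), (4, 8), (5, 8), (5, 9), (6, 0), (6,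
      1), (6, 7), (7, 6), (7, 8), (8, 4), (8, 5), (8, 7), (9, 3), (9, 5)]
    lev := [] }
  links := [[1, 7, 3, 8, 9, 10], [11, 2, 7, 0, 10, 5, 12, 6], [13, 7, 1, 11, 4, 14], [7, 13, 8, 0], [2,
    11, 15, 14], [1, 10, 16, 12], [1, 12, 15, 11]]
  P := {
    a := 7
    N := 17
    nb := [1930, 7397, 26770, 8577, 51204, 70658, 38914, 8207, 8713, 1281, 66083, 32854, 98402, 16780,
      40980, 22608, 5152]
    tri := [(0, 1, 7), (0, 1, 10), (0, 3, 7), (0, 3, 8), (0, 8, 9), (0, 9, 10), (1, 2, 7), (1, 2, 11),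
      (1, 5, 10), (1, 5, 12), (1, 6, 11), (1, 6, 12), (2, 4, 11), (2, 4, 14), (2, 7, 13), (2, 13,
      14), (3, 7, 13), (3, 8, 13), (4, 11, 15), (4, 14, 15), (5, 10, 16), (5, 12, 16), (6, 11,
      15), (6, 12, 15)]
    fin := [0, 0, 2, 0, 2, 0, 0, 0, 8, 9, 0, 0, 12, 2, 14, 15, 16]
    chd := [(0, 8), (0, 12), (2, 15)]
    steps := [(0, 1), (0, 3), (0, 5), (0, 6), (0, 7), (0, 10), (0, 11), (2, 4), (2, 13)] }
  rep := [0, 12, 2, 8, 15, 14, 9, 16]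

noncomputable def v3760 : Cov.CovD where
  P := 3
  N := 5
  pl := [2, 7, 9]
  lev := [⟨[], [], [(0, 0), (0, 3)], [6], [(0, 0, [1, 3]), (1, 3, [0]), (3, 0, [1, 3])]⟩,
    ⟨[], [(0, 0), (0, 1), (0, 3)], [(0, 0), (0, 1)], [], [(0, 0, [1, 3]), (3, 0, [1, 3]),
      (4, 0, [1, 3]), (5, 1, [0])]⟩,
    ⟨[(0, 1)], [(0, 0), (1, 0), (1, 1), (1, 2)], [(0, 0), (0, 2)], [5], [(0, 0, [1, 3]),
      (4, 0, [1, 3]), (6, 2, [4])]⟩,
    ⟨[(0, 1)], [(0, 0), (0, 2), (0, 3), (1, 0), (2, 0), (2, 2)], [(0, 2), (0, 3), (2, 3)],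
      [], [(0, 0, [1, 3]), (1, 3, [0]), (6, 2, [4])]⟩,
    ⟨[(1, 2)], [(1, 0), (2, 0), (2, 2), (2, 4)], [(0, 4)], [5], [(4, 0, [1, 3]), (8, 4,
      [2])]⟩,
    ⟨[(0, 1), (1, 2)], [(0, 0), (1, 0), (1, 1)], [(0, 1)], [7], [(3, 0, [1, 3]), (5, 1,
      [0])]⟩,
    ⟨[(0, 1), (1, 2), (1, 5)], [(1, 0), (1, 1), (1, 4), (2, 0), (4, 0), (4, 4), (5, 1)],
      [(0, 1), (0, 4), (1, 4)], [], [(4, 0, [1, 3]), (5, 1, [0]), (8, 4, [2])]⟩]
  Ta := [((0, 6), 0, 2), ((3, 2), 0, 6), ((3, 9), 0, 7), ((4, 8), 0, 4)]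
  Tb := [((1, 2, 6), 3, 6, 2), ((2, 1, 3), 6, 3, 0), ((3, 2, 9), 0, 6, 7), ((5, 8, 9), 1, 4, 7),
    ((6, 0, 1), 2, 0, 3), ((6, 0, 7), 2, 0, 5), ((6, 1, 7), 2, 3, 5), ((7, 6, 8), 5, 2, 4),
    ((8, 4, 5), 4, 0, 1), ((8, 4, 7), 4, 0, 5), ((8, 5, 7), 4, 1, 5), ((9, 3, 5), 7, 0, 1)]
  Tc := [(0, 1, 3)]
  Td := [((0, 1), (0, 6), 2), ((0, 1), (3, 2), 6), ((0, 1), (3, 9), 7), ((0, 1), (4, 8), 4), ((0,
    3), (0, 6), 2), ((0, 3), (3, 2), 6), ((0, 3), (3, 9), 7), ((0, 3), (4, 8), 4), ((1, 0),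
    (5, 8), 4), ((1, 0), (5, 9), 7), ((2, 4), (6, 0), 0), ((2, 4), (6, 1), 3), ((2, 4), (6,
    7), 5), ((3, 0), (1, 2), 6), ((3, 0), (1, 6), 2), ((4, 2), (8, 4), 0), ((4, 2), (8, 5),
    1), ((4, 2), (8, 7), 5)]
  G := [[0, 0x6aa2122a18c42261466a21c822c11844c8c6146e, 0xc118118138a4c114c114681141c211413268e,
    0xc1181128c41124c114c841815112c411419c11c8ce, 0x1148114158a4411114a114411aa811424112a8e],
    [0, 0x8242ca86ac18c22261446c6218a2261144c22a61c8e, 0,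
    0x142141414c8c7811928cc11524184818c4f4c18218c11c2141414c8c718ce,
    0x11c146814c8c58a4144144c11a184184a8c44c12211c428ce], [0,
    0x666214226118c2261166a24c8226114228c61c8e, 0,
    0x41414814141b89128cc5124814181e4c81218c41816148141a18ce,
    0x8141c8814168a44141814161a81818c41416228141c28ce]]

noncomputable def n3760 : Ent := ⟨e3760, noF, [], [], []⟩

def c3760 : PLift (Cov.check n3760.C.D v3760 = true) := ⟨by decide +kernel⟩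

def b3760 : PLift (entF (fidx ts) 400 3760 n3760 = true) := ⟨by decide +kernel⟩

theorem g3760 : GoodF (fidx ts) 400 3760 := GoodF.ofV v3760 n3760 c3760.down b3760.down

/-- 6864444:2771/1 -/
noncomputable def e3761 : SCfg where
  D := {
    a := 7
    L := 11
    kp := 8
    inn := [(0, 1), (0, 3), (1, 0), (1, 2), (1, 5), (1, 6), (2, 1), (2, 4), (3, 0), (4, 2), (5, 1), (6,
      1)]
    mix := [(0, 0), (0, 1), (0, 2), (0, 3), (1, 0), (1, 3), (1, 4), (1, 5), (2, 0), (2, 4), (2, 6), (2,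
      7), (3, 0), (3, 1), (3, 6), (4, 4), (4, 7), (4, 8), (5, 3), (5, 5), (5, 9), (6, 4), (6, 5),
      (6, 10)]
    cl := [0, 3, 6, 0, 0, 1, 2, 4, 5, 7, 8]
    chq := [(0, 1), (0, 3), (1, 0), (2, 5), (3, 0), (5, 2)]
    rng := [(0, 6), (1, 2), (1, 6), (2, 1), (2, 3), (3, 2), (3, 9), (4, 8), (4, 10), (5, 9), (5, 10),
      (6, 0), (6, 1), (6, 7), (7, 6), (7, 8), (8, 4), (8, 7), (9, 3), (9, 5), (10, 4), (10, 5)]
    lev := [] }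
  links := [[1, 7, 3, 8, 9, 10], [11, 2, 7, 0, 10, 5, 12, 6], [13, 7, 1, 11, 4, 14], [7, 13, 8, 0], [2,
    11, 15, 14], [1, 10, 16, 12], [1, 12, 17, 11]]
  P := {
    a := 7
    N := 18
    nb := [1930, 7397, 26770, 8577, 51204, 70658, 137218, 8207, 8713, 1281, 66083, 163926, 196706,
      16780, 40980, 18448, 5152, 6208]
    tri := [(0, 1, 7), (0, 1, 10), (0, 3, 7), (0, 3, 8), (0, 8, 9), (0, 9, 10), (1, 2, 7), (1, 2, 11),
      (1, 5, 10), (1, 5, 12), (1, 6, 11), (1, 6, 12), (2, 4, 11), (2, 4, 14), (2, 7, 13), (2, 13,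
      14), (3, 7, 13), (3, 8, 13), (4, 11, 15), (4, 14, 15), (5, 10, 16), (5, 12, 16), (6, 11,
      17), (6, 12, 17)]
    fin := [0, 0, 2, 0, 2, 0, 0, 0, 8, 9, 0, 0, 12, 2, 14, 15, 16, 17]
    chd := [(0, 8), (0, 12), (2, 15)]
    steps := [(0, 1), (0, 3), (0, 5), (0, 6), (0, 7), (0, 10), (0, 11), (2, 4), (2, 13)] }
  rep := [0, 12, 2, 8, 14, 15, 9, 16, 17]

noncomputable def v3761 : Cov.CovD where
  P := 3
  N := 6
  pl := [2, 7, 9, 10]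
  lev := [⟨[], [], [(0, 0), (0, 3)], [6], [(0, 0, [1, 3]), (1, 3, [0]), (3, 0, [1, 3])]⟩,
    ⟨[], [(0, 0), (0, 1), (0, 3)], [(0, 0), (0, 1)], [], [(0, 0, [1, 3]), (3, 0, [1, 3]),
      (4, 0, [1, 3]), (5, 1, [0])]⟩,
    ⟨[(0, 1)], [(0, 0), (1, 0), (1, 1), (1, 2)], [(0, 0), (0, 2)], [4], [(0, 0, [1, 3]),
      (4, 0, [1, 3]), (6, 2, [5])]⟩,
    ⟨[(0, 1)], [(0, 0), (0, 2), (0, 3), (1, 0), (2, 0), (2, 2)], [(0, 2), (0, 3), (2, 3)],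
      [], [(0, 0, [1, 3]), (1, 3, [0]), (6, 2, [5])]⟩,
    ⟨[(1, 2)], [(1, 0), (2, 0), (2, 2), (2, 5)], [(0, 5)], [4], [(4, 0, [1, 3]), (8, 5,
      [2])]⟩,
    ⟨[(0, 1), (1, 2)], [(0, 0), (1, 0), (1, 1)], [(0, 1)], [7], [(3, 0, [1, 3]), (5, 1,
      [0])]⟩,
    ⟨[(0, 1), (1, 2), (1, 5)], [(1, 0), (1, 1), (2, 0), (4, 0), (5, 1)], [(0, 1)], [8],
      [(4, 0, [1, 3]), (5, 1, [0])]⟩]
  Ta := [((0, 6), 0, 2), ((3, 2), 0, 6), ((3, 9), 0, 7), ((4, 8), 0, 5), ((4, 10), 0, 8)]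
  Tb := [((1, 2, 6), 3, 6, 2), ((2, 1, 3), 6, 3, 0), ((3, 2, 9), 0, 6, 7), ((4, 8, 10), 0, 5, 8),
    ((5, 9, 10), 1, 7, 8), ((6, 0, 1), 2, 0, 3), ((6, 0, 7), 2, 0, 4), ((6, 1, 7), 2, 3, 4),
    ((7, 6, 8), 4, 2, 5), ((8, 4, 7), 5, 0, 4), ((9, 3, 5), 7, 0, 1), ((10, 4, 5), 8, 0, 1)]
  Tc := [(0, 1, 3)]
  Td := [((0, 1), (0, 6), 2), ((0, 1), (3, 2), 6), ((0, 1), (3, 9), 7), ((0, 1), (4, 8), 5), ((0,
    1), (4, 10), 8), ((0, 3), (0, 6), 2), ((0, 3), (3, 2), 6), ((0, 3), (3, 9), 7), ((0, 3),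
    (4, 8), 5), ((0, 3), (4, 10), 8), ((1, 0), (5, 9), 7), ((1, 0), (5, 10), 8), ((2, 5), (6,
    0), 0), ((2, 5), (6, 1), 3), ((2, 5), (6, 7), 4), ((3, 0), (1, 2), 6), ((3, 0), (1, 6),
    2), ((5, 2), (8, 4), 0), ((5, 2), (8, 7), 4)]
  G := [[0, 0x6cc11aac21c2ac621248e14c266621a6611c8e,
    0xc118111168a4c1141111a46811421122611828ce,
    0x114138118138c41124c114c811413112c11813c11cc8e,
    0x1148c118a4411411a114114aa811811a8c1142c112a8e], [0,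
    0x824e21aaa18c46ca216ca11c2666116aa21c8e, 0,
    0x144431414c8c381828cc11524184c8d34c1888318cc414cc19411c218811cce,
    0x14c8581411c14e8a41441184cc51a1888518c1411cc21414c872a4e], [0,
    0x6ca28aaa11c4aaa2186c61446aac21aaa11c4e, 0,
    0x41214c1c1c1e89128cc5124c1c1c1e4c81218cc1c1614c1c1a18ce,
    0xc1c1c8c1c168a44141c1c1c1e1a81418cc1c1622c1c1c28ce]]

noncomputable def n3761 : Ent := ⟨e3761, noF, [], [], [(17, 15, [6903537015784671890245461680740748765157398844539141476817538567045121, 0])]⟩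

def c3761 : PLift (Cov.check n3761.C.D v3761 = true) := ⟨by decide +kernel⟩

def b3761 : PLift (entF (fidx ts) 400 3761 n3761 = true) := ⟨by decide +kernel⟩

theorem g3761 : GoodF (fidx ts) 400 3761 := GoodF.ofV v3761 n3761 c3761.down b3761.down

/-- 6864444:2771/3 -/
noncomputable def e3762 : SCfg where
  D := {
    a := 7
    L := 11
    kp := 8
    inn := [(0, 1), (0, 3), (1, 0), (1, 2), (1, 5), (1, 6), (2, 1), (2, 4), (3, 0), (4, 2), (5, 1), (6,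
      1)]
    mix := [(0, 0), (0, 1), (0, 2), (0, 3), (1, 0), (1, 3), (1, 4), (1, 5), (2, 0), (2, 4), (2, 6), (2,
      7), (3, 0), (3, 1), (3, 8), (4, 4), (4, 7), (4, 9), (5, 3), (5, 5), (5, 10), (6, 4), (6, 5),
      (6, 9)]
    cl := [0, 3, 6, 0, 0, 1, 5, 4, 7, 2, 8]
    chq := [(0, 1), (0, 3), (1, 0), (2, 5), (3, 0), (5, 2)]
    rng := [(0, 6), (0, 8), (1, 2), (1, 8), (2, 1), (2, 3), (3, 2), (3, 10), (4, 9), (5, 9), (5, 10),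
      (6, 0), (6, 7), (7, 6), (7, 9), (8, 0), (8, 1), (9, 4), (9, 5), (9, 7), (10, 3), (10, 5)]
    lev := [] }
  links := [[1, 7, 3, 8, 9, 10], [11, 2, 7, 0, 10, 5, 12, 6], [13, 7, 1, 11, 4, 14], [7, 15, 8, 0], [2,
    11, 16, 14], [1, 10, 17, 12], [1, 12, 16, 11]]
  P := {
    a := 7
    N := 18
    nb := [1930, 7397, 26770, 33153, 83972, 136194, 71682, 40975, 33289, 1281, 131619, 65622, 196706,
      16516, 73748, 392, 22608, 5152]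
    tri := [(0, 1, 7), (0, 1, 10), (0, 3, 7), (0, 3, 8), (0, 8, 9), (0, 9, 10), (1, 2, 7), (1, 2, 11),
      (1, 5, 10), (1, 5, 12), (1, 6, 11), (1, 6, 12), (2, 4, 11), (2, 4, 14), (2, 7, 13), (2, 13,
      14), (3, 7, 15), (3, 8, 15), (4, 11, 16), (4, 14, 16), (5, 10, 17), (5, 12, 17), (6, 11,
      16), (6, 12, 16)]
    fin := [0, 0, 2, 0, 2, 0, 0, 0, 8, 9, 0, 0, 12, 13, 14, 15, 2, 17]
    chd := [(0, 8), (0, 12), (13, 2)]
    steps := [(0, 1), (0, 3), (0, 5), (0, 6), (0, 7), (0, 10), (0, 11), (2, 4), (2, 16)] }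
  rep := [0, 12, 2, 8, 14, 13, 9, 15, 17]

noncomputable def v3762 : Cov.CovD where
  P := 3
  N := 6
  pl := [2, 7, 8, 10]
  lev := [⟨[], [], [(0, 0), (0, 3)], [6], [(0, 0, [1, 3]), (1, 3, [0]), (3, 0, [1, 3])]⟩,
    ⟨[], [(0, 0), (0, 1), (0, 3)], [(0, 0), (0, 1)], [], [(0, 0, [1, 3]), (3, 0, [1, 3]),
      (4, 0, [1, 3]), (5, 1, [0])]⟩,
    ⟨[(0, 1)], [(0, 0), (1, 0), (1, 1), (1, 5)], [(0, 0), (0, 5)], [4], [(0, 0, [1, 3]),
      (4, 0, [1, 3]), (6, 5, [2])]⟩,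
    ⟨[(0, 1)], [(0, 0), (0, 3), (1, 0), (2, 0)], [(0, 3)], [7], [(0, 0, [1, 3]), (1, 3,
      [0])]⟩,
    ⟨[(1, 2)], [(1, 0), (2, 0), (2, 2), (2, 5)], [(0, 2)], [4], [(4, 0, [1, 3]), (9, 2,
      [5])]⟩,
    ⟨[(0, 1), (1, 2)], [(0, 0), (1, 0), (1, 1)], [(0, 1)], [8], [(3, 0, [1, 3]), (5, 1,
      [0])]⟩,
    ⟨[(0, 1), (1, 2), (1, 5)], [(1, 0), (1, 1), (1, 2), (2, 0), (4, 0), (4, 2), (5, 1)],
      [(0, 1), (0, 2), (1, 2)], [], [(4, 0, [1, 3]), (5, 1, [0]), (9, 2, [5])]⟩]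
  Ta := [((0, 6), 0, 5), ((0, 8), 0, 7), ((3, 2), 0, 6), ((3, 10), 0, 8), ((4, 9), 0, 2)]
  Tb := [((0, 6, 8), 0, 5, 7), ((1, 2, 8), 3, 6, 7), ((2, 1, 3), 6, 3, 0), ((3, 2, 10), 0, 6, 8),
    ((5, 9, 10), 1, 2, 8), ((6, 0, 7), 5, 0, 4), ((7, 6, 9), 4, 5, 2), ((8, 0, 1), 7, 0, 3),
    ((9, 4, 5), 2, 0, 1), ((9, 4, 7), 2, 0, 4), ((9, 5, 7), 2, 1, 4), ((10, 3, 5), 8, 0, 1)]
  Tc := [(0, 1, 3)]
  Td := [((0, 1), (0, 6), 5), ((0, 1), (0, 8), 7), ((0, 1), (3, 2), 6), ((0, 1), (3, 10), 8),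
    ((0, 1), (4, 9), 2), ((0, 3), (0, 6), 5), ((0, 3), (0, 8), 7), ((0, 3), (3, 2), 6), ((0,
    3), (3, 10), 8), ((0, 3), (4, 9), 2), ((1, 0), (5, 9), 2), ((1, 0), (5, 10), 8), ((2, 5),
    (9, 4), 0), ((2, 5), (9, 5), 1), ((2, 5), (9, 7), 4), ((3, 0), (1, 2), 6), ((3, 0), (1,
    8), 7), ((5, 2), (6, 0), 0), ((5, 2), (6, 7), 4)]
  G := [[0, 0x44641446116846818c4464148611688a818c48a11288c8188c81cae, 0,
    0x81815818194181ce241111c1141541815e28414158141981415e24e,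
    0x818818118e811811811e112812112ee4112112112e8111181a811e112811812ee8112112112e8118111181ae112112118ee8e],
    [0, 0x4464144611648c818a48c41488a8188a11ac4464148a11644a818ce, 0,
    0x81448c48c592441181848c4497288112c41844c114c41cc728e,
    0x4181414a5481811c83811881911c281c29ec1421811181884b511218c85e11888898c1121425811181884b318c211c23e18818ce],
    [0, 0x84a11284a8148a81c64461144a8144a48c51e848c8188a8184611e4e,
    0x41414121681818c8141481818121ac41418121681818ce,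
    0x4188141c9244148114181c7284118144181c728e,
    0x81881838118181a98128129e4818138181a58118123681881298c8118181a348188125818812818bace]]

noncomputable def n3762 : Ent := ⟨e3762, noF, [], [], [(15, 13, [7334790850179967773244209365633050764349689593036594798292870089080833, 0])]⟩

def c3762 : PLift (Cov.check n3762.C.D v3762 = true) := ⟨by decide +kernel⟩

def b3762 : PLift (entF (fidx ts) 400 3762 n3762 = true) := ⟨by decide +kernel⟩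

theorem g3762 : GoodF (fidx ts) 400 3762 := GoodF.ofV v3762 n3762 c3762.down b3762.down

/-- 6864444:2771 -/
noncomputable def e3763 : SCfg where
  D := {
    a := 7
    L := 12
    kp := 9
    inn := [(0, 1), (0, 3), (1, 0), (1, 2), (1, 5), (1, 6), (2, 1), (2, 4), (3, 0), (4, 2), (5, 1), (6,
      1)]
    mix := [(0, 0), (0, 1), (0, 2), (0, 3), (1, 0), (1, 3), (1, 4), (1, 5), (2, 0), (2, 4), (2, 6), (2,
      7), (3, 0), (3, 1), (3, 8), (4, 4), (4, 7), (4, 9), (5, 3), (5, 5), (5, 10), (6, 4), (6, 5),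
      (6, 11)]
    cl := [0, 3, 6, 0, 0, 1, 2, 4, 7, 5, 8, 9]
    chq := [(0, 1), (0, 3), (1, 0), (2, 5), (3, 0), (5, 2)]
    rng := [(0, 6), (0, 8), (1, 2), (1, 8), (2, 1), (2, 3), (3, 2), (3, 10), (4, 9), (4, 11), (5, 10),
      (5, 11), (6, 0), (6, 7), (7, 6), (7, 9), (8, 0), (8, 1), (9, 4), (9, 7), (10, 3), (10, 5),
      (11, 4), (11, 5)]
    lev := [] }
  links := [[1, 7, 3, 8, 9, 10], [11, 2, 7, 0, 10, 5, 12, 6], [13, 7, 1, 11, 4, 14], [7, 15, 8, 0], [2,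
    11, 16, 14], [1, 10, 17, 12], [1, 12, 18, 11]]
  P := {
    a := 7
    N := 19
    nb := [1930, 7397, 26770, 33153, 83972, 136194, 268290, 40975, 33289, 1281, 131619, 327766,
      393314, 16516, 73748, 392, 18448, 5152, 6208]
    tri := [(0, 1, 7), (0, 1, 10), (0, 3, 7), (0, 3, 8), (0, 8, 9), (0, 9, 10), (1, 2, 7), (1, 2, 11),
      (1, 5, 10), (1, 5, 12), (1, 6, 11), (1, 6, 12), (2, 4, 11), (2, 4, 14), (2, 7, 13), (2, 13,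
      14), (3, 7, 15), (3, 8, 15), (4, 11, 16), (4, 14, 16), (5, 10, 17), (5, 12, 17), (6, 11,
      18), (6, 12, 18)]
    fin := [0, 0, 2, 0, 2, 0, 0, 0, 8, 9, 0, 0, 12, 13, 14, 15, 2, 17, 18]
    chd := [(0, 8), (0, 12), (13, 2)]
    steps := [(0, 1), (0, 3), (0, 5), (0, 6), (0, 7), (0, 10), (0, 11), (2, 4), (2, 16)] }
  rep := [0, 12, 13, 8, 14, 2, 9, 15, 17, 18]

noncomputable def v3763 : Cov.CovD where
  P := 3
  N := 7
  pl := [2, 7, 8, 10, 11]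
  lev := [⟨[], [], [(0, 0), (0, 3)], [6], [(0, 0, [1, 3]), (1, 3, [0]), (3, 0, [1, 3])]⟩,
    ⟨[], [(0, 0), (0, 1), (0, 3)], [(0, 0), (0, 1)], [], [(0, 0, [1, 3]), (3, 0, [1, 3]),
      (4, 0, [1, 3]), (5, 1, [0])]⟩,
    ⟨[(0, 1)], [(0, 0), (1, 0), (1, 1), (1, 2)], [(0, 0), (0, 2)], [4], [(0, 0, [1, 3]),
      (4, 0, [1, 3]), (6, 2, [5])]⟩,
    ⟨[(0, 1)], [(0, 0), (0, 3), (1, 0), (2, 0)], [(0, 3)], [7], [(0, 0, [1, 3]), (1, 3,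
      [0])]⟩,
    ⟨[(1, 2)], [(1, 0), (2, 0), (2, 2), (2, 5)], [(0, 5)], [4], [(4, 0, [1, 3]), (9, 5,
      [2])]⟩,
    ⟨[(0, 1), (1, 2)], [(0, 0), (1, 0), (1, 1)], [(0, 1)], [8], [(3, 0, [1, 3]), (5, 1,
      [0])]⟩,
    ⟨[(0, 1), (1, 2), (1, 5)], [(1, 0), (1, 1), (2, 0), (4, 0), (5, 1)], [(0, 1)], [9],
      [(4, 0, [1, 3]), (5, 1, [0])]⟩]
  Ta := [((0, 6), 0, 2), ((0, 8), 0, 7), ((3, 2), 0, 6), ((3, 10), 0, 8), ((4, 9), 0, 5), ((4,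
    11), 0, 9)]
  Tb := [((0, 6, 8), 0, 2, 7), ((1, 2, 8), 3, 6, 7), ((2, 1, 3), 6, 3, 0), ((3, 2, 10), 0, 6, 8),
    ((4, 9, 11), 0, 5, 9), ((5, 10, 11), 1, 8, 9), ((6, 0, 7), 2, 0, 4), ((7, 6, 9), 4, 2,
    5), ((8, 0, 1), 7, 0, 3), ((9, 4, 7), 5, 0, 4), ((10, 3, 5), 8, 0, 1), ((11, 4, 5), 9, 0,
    1)]
  Tc := [(0, 1, 3)]
  Td := [((0, 1), (0, 6), 2), ((0, 1), (0, 8), 7), ((0, 1), (3, 2), 6), ((0, 1), (3, 10), 8),
    ((0, 1), (4, 9), 5), ((0, 1), (4, 11), 9), ((0, 3), (0, 6), 2), ((0, 3), (0, 8), 7), ((0,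
    3), (3, 2), 6), ((0, 3), (3, 10), 8), ((0, 3), (4, 9), 5), ((0, 3), (4, 11), 9), ((1, 0),
    (5, 10), 8), ((1, 0), (5, 11), 9), ((2, 5), (6, 0), 0), ((2, 5), (6, 7), 4), ((3, 0), (1,
    2), 6), ((3, 0), (1, 8), 7), ((5, 2), (9, 4), 0), ((5, 2), (9, 7), 4)]
  G := [[0, 0xaca11aaa21c46661166c21c8caa11aaa21c4e,
    0x1111cc11c11e1111611116c11ea4c111111c1111ce1111a1111ac11e681111c1111c411e8112c11c11c11ee4e,
    0xc11c11c11e112112112ec4112112112ec11c11c11ec81122112112c11ecc11c11c8ce,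
    0xc111111cc11e11411116114ea4114114114ec11c11c11ea8c11c11114e114114c11ea4e], [0,
    0x6c621248e11c266621c6611c8ccc21ccc11c2e, 0,
    0x14146144111121414c8bb118131829cc1121425c111818c475c1818a18cc11184cc33411211c88398ce,
    0x884d11414c8d911411c1469a4411144311c11c6181818c4f5a81118438c441121111c11c4511116c8c13ace],
    [0, 0xaac11aaa21c4a6c11cc621c2246a831a8a231c4e, 0,
    0x4141614c11112c181c1eb1128129cc4121c1141c1c1e5c8181a18cc1116c1234112c111ac1c1c1e78ce,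
    0xc14c1c1c1e9c11c149a41144145c1141c1c1e5a8181c18cc11c1c1c3c14c1c163a4e]]

noncomputable def n3763 : Ent := ⟨e3763, noF, [], [], [(15, 13, [31810581956861097900272599222738166335659059833354177840987204493373018113, 0]), (18, 16, [30044166145917083758165358922957084778673075396561391926765295767464386561, 0])]⟩

def c3763 : PLift (Cov.check n3763.C.D v3763 = true) := ⟨by decide +kernel⟩

def b3763 : PLift (entF (fidx ts) 400 3763 n3763 = true) := ⟨by decide +kernel⟩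

theorem g3763 : GoodF (fidx ts) 400 3763 := GoodF.ofV v3763 n3763 c3763.down b3763.down

/-- 56787444:2772/1 -/
noncomputable def e3764 : SCfg where
  D := {
    a := 8
    L := 11
    kp := 8
    inn := [(0, 2), (0, 5), (1, 2), (1, 3), (1, 4), (1, 5), (2, 0), (2, 1), (2, 3), (2, 5), (3, 1), (3,
      2), (3, 4), (3, 6), (3, 7), (4, 1), (4, 3), (4, 6), (5, 0), (5, 1), (5, 2), (6, 3), (6, 4),
      (7, 3)]
    mix := [(0, 0), (0, 1), (0, 2), (1, 0), (1, 3), (2, 2), (2, 4), (2, 5), (3, 5), (3, 6), (3, 7), (4,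
      3), (4, 8), (4, 9), (4, 10), (5, 0), (6, 6), (6, 9), (7, 1), (7, 6), (7, 7)]
    cl := [0, 2, 1, 4, 6, 3, 3, 5, 7, 4, 8]
    chq := [(0, 1), (0, 3), (0, 6), (1, 0), (3, 0), (6, 0)]
    rng := [(0, 1), (0, 3), (1, 0), (1, 2), (1, 6), (1, 7), (2, 1), (2, 4), (3, 0), (3, 8), (4, 2), (4,
      5), (5, 4), (5, 7), (6, 1), (6, 9), (7, 1), (7, 5), (8, 3), (8, 10), (9, 6), (9, 10), (10,
      8), (10, 9)]
    lev := [] }
  links := [[2, 5, 8, 9, 10], [11, 8, 5, 2, 3, 4], [3, 1, 5, 0, 10, 12, 13], [14, 6, 4, 1, 2, 13, 15, 7],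
    [16, 11, 1, 3, 6, 17, 18], [8, 0, 2, 1], [4, 3, 14, 17], [3, 15, 9, 14]]
  P := {
    a := 8
    N := 19
    nb := [1828, 2364, 13355, 57558, 460874, 263, 147480, 49672, 2595, 50561, 4613, 65810, 9220,
      36876, 131784, 8840, 264208, 278608, 196624]
    tri := [(0, 2, 5), (0, 2, 10), (0, 5, 8), (0, 8, 9), (0, 9, 10), (1, 2, 3), (1, 2, 5), (1, 3, 4),
      (1, 4, 11), (1, 5, 8), (1, 8, 11), (2, 3, 13), (2, 10, 12), (2, 12, 13), (3, 4, 6), (3, 6,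
      14), (3, 7, 14), (3, 7, 15), (3, 13, 15), (4, 6, 17), (4, 11, 16), (4, 16, 18), (4, 17, 18),
      (6, 14, 17), (7, 9, 14), (7, 9, 15)]
    fin := [0, 0, 0, 3, 4, 0, 3, 7, 0, 7, 10, 4, 12, 3, 3, 15, 16, 4, 18]
    chd := [(0, 3), (0, 10), (0, 12)]
    steps := [(0, 2), (0, 5), (0, 1), (0, 8), (3, 6), (3, 13), (3, 14), (4, 17), (4, 11), (7, 9)] }
  rep := [0, 10, 7, 3, 4, 15, 12, 16, 18]

noncomputable def v3764 : Cov.CovD where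
  P := 3
  N := 6
  pl := [1, 7, 8, 10]
  lev := [⟨[], [], [(0, 1)], [2], [(0, 0, [1, 3, 6]), (2, 1, [0])]⟩,
    ⟨[], [(0, 0)], [(0, 4)], [], [(0, 0, [1, 3, 6]), (3, 4, [])]⟩,
    ⟨[(0, 1)], [(0, 0), (0, 1), (0, 3), (0, 6), (1, 0), (1, 1), (1, 3), (1, 4), (1, 6)],
      [(1, 3), (1, 6), (3, 6)], [], [(2, 1, [0]), (4, 6, [0]), (5, 3, [0])]⟩,
    ⟨[(0, 2), (1, 2)], [(1, 0), (1, 3), (1, 4), (2, 1), (2, 3), (2, 6)], [(3, 3)], [5],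
      [(5, 3, [0]), (6, 3, [0])]⟩,
    ⟨[(1, 2), (1, 3), (2, 3)], [(1, 0), (1, 4), (3, 3), (3, 4)], [(4, 4)], [7, 8], [(3, 4,
      []), (9, 4, [])]⟩,
    ⟨[(0, 1), (0, 2), (1, 2), (1, 3), (1, 4), (2, 3)], [(0, 0), (0, 1), (1, 0), (1, 4), (2,
      0), (2, 1), (2, 3), (2, 6)], [], [], [(0, 0, [1, 3, 6])]⟩,
    ⟨[(1, 3), (1, 4), (2, 3), (3, 4)], [(3, 3), (3, 4), (4, 3), (4, 4)], [(3, 4)], [], [(6,
      3, [0]), (9, 4, [])]⟩,
    ⟨[(1, 3), (2, 3), (3, 4), (3, 6)], [(3, 3), (6, 3)], [], [2, 5], [(6, 3, [0])]⟩]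
  Ta := [((3, 0), 4, 0), ((3, 8), 4, 7), ((5, 4), 3, 6), ((5, 7), 3, 5), ((6, 1), 3, 2), ((6, 9),
    3, 4), ((9, 6), 4, 3), ((9, 10), 4, 8)]
  Tb := [((0, 1, 3), 0, 2, 4), ((1, 0, 2), 2, 0, 1), ((1, 0, 6), 2, 0, 3), ((1, 0, 7), 2, 0, 5),
    ((1, 2, 6), 2, 1, 3), ((1, 2, 7), 2, 1, 5), ((1, 6, 7), 2, 3, 5), ((2, 1, 4), 1, 2, 6),
    ((3, 0, 8), 4, 0, 7), ((4, 2, 5), 6, 1, 3), ((5, 4, 7), 3, 6, 5), ((6, 1, 9), 3, 2, 4),
    ((7, 1, 5), 5, 2, 3), ((8, 3, 10), 7, 4, 8), ((9, 6, 10), 4, 3, 8), ((10, 8, 9), 8, 7,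
    4)]
  Tc := [(0, 1, 3), (0, 1, 6), (0, 3, 6)]
  Td := [((0, 1), (0, 1), 2), ((0, 1), (0, 3), 4), ((0, 3), (0, 1), 2), ((0, 3), (0, 3), 4), ((0,
    6), (0, 1), 2), ((0, 6), (0, 3), 4), ((1, 0), (2, 1), 2), ((1, 0), (2, 4), 6), ((3, 0),
    (5, 4), 6), ((3, 0), (5, 7), 5), ((3, 0), (6, 1), 2), ((3, 0), (6, 9), 4), ((6, 0), (4,
    2), 1), ((6, 0), (4, 5), 3)]
  G := [[0, 0x424112422422f142812124b61414812828818f5124141887a1c8,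
    0x242141412141c228f1842142216884b14841a48251e8, 0x944584582b21588c14c82721c8,
    0x122182182d242242112844f61242824844822f2123842447c1a8], [0,
    0x112812482484f512114112c12f61144814414844f81a8,
    0x414412412b21221296ca22ac26718141888891a4, 0xc12c18c185ca8f2148,
    0x912114a1211c2f212214182282f61128818212822f81c8], [0,
    0x14481414124412d912112124b6341841112818828d11815121121187e381481434142c1e4,
    0x414414921421496181812881822c6a2cb181414141882a6c4ad1e4, 0x4954544548b218592982982721c4,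
    0x912114124d212214114214f61122818824d1181186a1114814842b18831418271881e1e8], [0,
    0x118812818812f918518112118fa1418114414418f4168,
    0x8128125212212218d88ae82b1418414414b888448c5164, 0xd18d18d1895de2f2144,
    0x914312314111e2f2121121122252f611188148181898f81a8]]

noncomputable def n3764 : Ent := ⟨e3764, noF, [], [], []⟩

def c3764 : PLift (Cov.check n3764.C.D v3764 = true) := ⟨by decide +kernel⟩

def b3764 : PLift (entF (fidx ts) 400 3764 n3764 = true) := ⟨by decide +kernel⟩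

theorem g3764 : GoodF (fidx ts) 400 3764 := GoodF.ofV v3764 n3764 c3764.down b3764.down

/-- 56787444:2772/2 -/
noncomputable def e3765 : SCfg where
  D := {
    a := 8
    L := 11
    kp := 8
    inn := [(0, 2), (0, 5), (1, 2), (1, 3), (1, 4), (1, 5), (2, 0), (2, 1), (2, 3), (2, 5), (3, 1), (3,
      2), (3, 4), (3, 6), (3, 7), (4, 1), (4, 3), (4, 6), (5, 0), (5, 1), (5, 2), (6, 3), (6, 4),
      (7, 3)]
    mix := [(0, 0), (0, 1), (0, 2), (1, 0), (1, 3), (2, 2), (2, 4), (2, 5), (3, 5), (3, 6), (3, 7), (4,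
      1), (4, 3), (4, 8), (4, 9), (5, 0), (6, 6), (6, 8), (7, 6), (7, 7), (7, 10)]
    cl := [0, 2, 4, 1, 6, 3, 3, 5, 1, 7, 8]
    chq := [(0, 3), (0, 4), (0, 6), (3, 0), (4, 0), (6, 0)]
    rng := [(0, 1), (0, 3), (1, 0), (1, 2), (1, 3), (1, 9), (2, 1), (2, 4), (3, 0), (3, 1), (4, 2), (4,
      5), (5, 4), (5, 7), (6, 8), (6, 10), (7, 5), (7, 10), (8, 6), (8, 9), (9, 1), (9, 8), (10,
      6), (10, 7)]
    lev := [] }
  links := [[2, 5, 8, 9, 10], [11, 8, 5, 2, 3, 4], [3, 1, 5, 0, 10, 12, 13], [14, 6, 4, 1, 2, 13, 15, 7],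
    [9, 11, 1, 3, 6, 16, 17], [8, 0, 2, 1], [4, 3, 14, 16], [3, 15, 18, 14]]
  P := {
    a := 8
    N := 19
    nb := [1828, 2364, 13355, 57558, 199242, 263, 81944, 311304, 2595, 134417, 4613, 786, 9220, 36876,
      327880, 270472, 147536, 66064, 49280]
    tri := [(0, 2, 5), (0, 2, 10), (0, 5, 8), (0, 8, 9), (0, 9, 10), (1, 2, 3), (1, 2, 5), (1, 3, 4),
      (1, 4, 11), (1, 5, 8), (1, 8, 11), (2, 3, 13), (2, 10, 12), (2, 12, 13), (3, 4, 6), (3, 6,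
      14), (3, 7, 14), (3, 7, 15), (3, 13, 15), (4, 6, 16), (4, 9, 11), (4, 9, 17), (4, 16, 17),
      (6, 14, 16), (7, 14, 18), (7, 15, 18)]
    fin := [0, 0, 0, 3, 4, 0, 3, 3, 0, 9, 10, 4, 12, 3, 3, 15, 4, 17, 18]
    chd := [(0, 3), (0, 10), (0, 12)]
    steps := [(0, 2), (0, 5), (0, 1), (0, 8), (3, 6), (3, 7), (3, 13), (3, 14), (4, 16), (4, 11)] }
  rep := [0, 4, 9, 3, 10, 15, 12, 17, 18]

noncomputable def v3765 : Cov.CovD where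
  P := 3
  N := 6
  pl := [1, 7, 9, 10]
  lev := [⟨[], [], [(0, 4)], [2], [(0, 0, [3, 4, 6]), (2, 4, [0])]⟩,
    ⟨[], [(0, 0)], [(0, 1)], [], [(0, 0, [3, 4, 6]), (3, 1, [])]⟩,
    ⟨[(0, 1)], [(0, 0), (0, 3), (0, 4), (0, 6), (1, 0), (1, 1), (1, 3), (1, 4), (1, 6)],
      [(3, 4), (3, 6), (4, 6)], [], [(2, 4, [0]), (4, 6, [0]), (5, 3, [0])]⟩,
    ⟨[(0, 2), (1, 2)], [(1, 0), (1, 1), (1, 3), (2, 3), (2, 4), (2, 6)], [(3, 3)], [5],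
      [(5, 3, [0]), (6, 3, [0])]⟩,
    ⟨[(1, 2), (1, 3), (2, 3)], [(1, 0), (1, 1), (3, 1), (3, 3)], [(1, 1)], [2, 7], [(3, 1,
      []), (8, 1, [])]⟩,
    ⟨[(0, 1), (0, 2), (1, 2), (1, 3), (1, 4), (2, 3)], [(0, 0), (0, 4), (1, 0), (1, 1), (2,
      0), (2, 3), (2, 4), (2, 6)], [], [], [(0, 0, [3, 4, 6])]⟩,
    ⟨[(1, 3), (1, 4), (2, 3), (3, 4)], [(3, 1), (3, 3), (4, 1), (4, 3)], [(1, 3)], [], [(6,
      3, [0]), (8, 1, [])]⟩,
    ⟨[(1, 3), (2, 3), (3, 4), (3, 6)], [(3, 3), (6, 3)], [], [5, 8], [(6, 3, [0])]⟩]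
  Ta := [((3, 0), 1, 0), ((3, 1), 1, 2), ((5, 4), 3, 6), ((5, 7), 3, 5), ((6, 8), 3, 1), ((6,
    10), 3, 8), ((8, 6), 1, 3), ((8, 9), 1, 7)]
  Tb := [((0, 1, 3), 0, 2, 1), ((1, 0, 2), 2, 0, 4), ((1, 0, 3), 2, 0, 1), ((1, 0, 9), 2, 0, 7),
    ((1, 2, 3), 2, 4, 1), ((1, 2, 9), 2, 4, 7), ((1, 3, 9), 2, 1, 7), ((2, 1, 4), 4, 2, 6),
    ((3, 0, 1), 1, 0, 2), ((4, 2, 5), 6, 4, 3), ((5, 4, 7), 3, 6, 5), ((6, 8, 10), 3, 1, 8),
    ((7, 5, 10), 5, 3, 8), ((8, 6, 9), 1, 3, 7), ((9, 1, 8), 7, 2, 1), ((10, 6, 7), 8, 3, 5)]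
  Tc := [(0, 3, 4), (0, 3, 6), (0, 4, 6)]
  Td := [((0, 3), (0, 1), 2), ((0, 3), (0, 3), 1), ((0, 4), (0, 1), 2), ((0, 4), (0, 3), 1), ((0,
    6), (0, 1), 2), ((0, 6), (0, 3), 1), ((3, 0), (5, 4), 6), ((3, 0), (5, 7), 5), ((3, 0),
    (6, 8), 1), ((3, 0), (6, 10), 8), ((4, 0), (2, 1), 2), ((4, 0), (2, 4), 6), ((6, 0), (4,
    2), 4), ((6, 0), (4, 5), 3)]
  G := [[0, 0x6128522288cc18414c68a24f122462212c618818ca4268a8cb14c,
    0x614a12cc28c22c314c14614ce22c28c318c,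
    0x422412c82882293823845e1441252258225845314388ce18c,
    0x41448298188289e183849e14422428981282293423849e14a], [0,
    0x118d18cb12712c8848b1d12114c4484516d14118cb12712c61118d14c882442c91ac,
    0x112922cf12718c84a2422cb141244522128cb14f12cc284f18922814142122c18ce,
    0x12415125249c19288285314318ca1c12445245229312312ce1822928581cc,
    0x14525249822851822811249249b183129a9c9228889112415225249b14b129e58a], [0, 0,
    0xb48a18c2148c848c8c116612c12c48c8682c311884416c, 0,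
    0x4141c149449b143829e1418881a418944981281893483449e14a], [0, 0,
    0xd12114cb12712c444471118d18c884891cb12714c21118d18cd18114c888444cd1ac, 0,
    0x18528118981b143149a998881d1814589456b14139292188881114189491c5851498888d5aa]]

noncomputable def n3765 : Ent := ⟨e3765, noF, [], [], []⟩

def c3765 : PLift (Cov.check n3765.C.D v3765 = true) := ⟨by decide +kernel⟩

def b3765 : PLift (entF (fidx ts) 400 3765 n3765 = true) := ⟨by decide +kernel⟩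

theorem g3765 : GoodF (fidx ts) 400 3765 := GoodF.ofV v3765 n3765 c3765.down b3765.down

/-- 56787444:2772 -/
noncomputable def e3766 : SCfg where
  D := {
    a := 8
    L := 12
    kp := 9
    inn := [(0, 2), (0, 5), (1, 2), (1, 3), (1, 4), (1, 5), (2, 0), (2, 1), (2, 3), (2, 5), (3, 1), (3,
      2), (3, 4), (3, 6), (3, 7), (4, 1), (4, 3), (4, 6), (5, 0), (5, 1), (5, 2), (6, 3), (6, 4),
      (7, 3)]
    mix := [(0, 0), (0, 1), (0, 2), (1, 0), (1, 3), (2, 2), (2, 4), (2, 5), (3, 5), (3, 6), (3, 7), (4,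
      3), (4, 8), (4, 9), (4, 10), (5, 0), (6, 6), (6, 9), (7, 6), (7, 7), (7, 11)]
    cl := [1, 6, 4, 3, 5, 0, 0, 2, 7, 3, 8, 9]
    chq := [(0, 1), (1, 0), (1, 4), (1, 5), (4, 1), (5, 1)]
    rng := [(0, 1), (0, 3), (1, 0), (1, 2), (2, 1), (2, 4), (3, 0), (3, 8), (4, 2), (4, 5), (5, 4), (5,
      7), (6, 9), (6, 11), (7, 5), (7, 11), (8, 3), (8, 10), (9, 6), (9, 10), (10, 8), (10, 9),
      (11, 6), (11, 7)]
    lev := [] }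
  links := [[2, 5, 8, 9, 10], [11, 8, 5, 2, 3, 4], [3, 1, 5, 0, 10, 12, 13], [14, 6, 4, 1, 2, 13, 15, 7],
    [16, 11, 1, 3, 6, 17, 18], [8, 0, 2, 1], [4, 3, 14, 17], [3, 15, 19, 14]]
  P := {
    a := 8
    N := 20
    nb := [1828, 2364, 13355, 57558, 460874, 263, 147480, 573448, 2595, 1281, 4613, 65810, 9220,
      36876, 655560, 532616, 264208, 278608, 196624, 49280]
    tri := [(0, 2, 5), (0, 2, 10), (0, 5, 8), (0, 8, 9), (0, 9, 10), (1, 2, 3), (1, 2, 5), (1, 3, 4),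
      (1, 4, 11), (1, 5, 8), (1, 8, 11), (2, 3, 13), (2, 10, 12), (2, 12, 13), (3, 4, 6), (3, 6,
      14), (3, 7, 14), (3, 7, 15), (3, 13, 15), (4, 6, 17), (4, 11, 16), (4, 16, 18), (4, 17, 18),
      (6, 14, 17), (7, 14, 19), (7, 15, 19)]
    fin := [0, 0, 0, 3, 4, 0, 3, 3, 0, 9, 10, 4, 12, 3, 3, 15, 16, 4, 18, 19]
    chd := [(0, 3), (0, 10), (0, 12)]
    steps := [(0, 2), (0, 5), (0, 1), (0, 8), (3, 6), (3, 7), (3, 13), (3, 14), (4, 17), (4, 11)] }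
  rep := [3, 0, 15, 4, 10, 12, 9, 16, 18, 19]

noncomputable def v3766 : Cov.CovD where
  P := 3
  N := 7
  pl := [1, 7, 8, 10, 11]
  lev := [⟨[], [], [(1, 4)], [6], [(0, 1, [0, 4, 5]), (2, 4, [1])]⟩,
    ⟨[], [(0, 1)], [(1, 3)], [], [(0, 1, [0, 4, 5]), (3, 3, [])]⟩,
    ⟨[(0, 1)], [(0, 0), (0, 1), (0, 4), (0, 5), (1, 0), (1, 1), (1, 3), (1, 4), (1, 5)],
      [(0, 4), (0, 5), (4, 5)], [], [(2, 4, [1]), (4, 5, [1]), (5, 0, [1])]⟩,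
    ⟨[(0, 2), (1, 2)], [(1, 0), (1, 1), (1, 3), (2, 0), (2, 4), (2, 5)], [(0, 0)], [2],
      [(5, 0, [1]), (6, 0, [1])]⟩,
    ⟨[(1, 2), (1, 3), (2, 3)], [(1, 1), (1, 3), (3, 0), (3, 3)], [(3, 3)], [7, 8], [(3, 3,
      []), (9, 3, [])]⟩,
    ⟨[(0, 1), (0, 2), (1, 2), (1, 3), (1, 4), (2, 3)], [(0, 1), (0, 4), (1, 1), (1, 3), (2,
      0), (2, 1), (2, 4), (2, 5)], [], [], [(0, 1, [0, 4, 5])]⟩,
    ⟨[(1, 3), (1, 4), (2, 3), (3, 4)], [(3, 0), (3, 3), (4, 0), (4, 3)], [(0, 3)], [], [(6,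
      0, [1]), (9, 3, [])]⟩,
    ⟨[(1, 3), (2, 3), (3, 4), (3, 6)], [(3, 0), (6, 0)], [], [2, 9], [(6, 0, [1])]⟩]
  Ta := [((3, 0), 3, 1), ((3, 8), 3, 7), ((5, 4), 0, 5), ((5, 7), 0, 2), ((6, 9), 0, 3), ((6,
    11), 0, 9), ((9, 6), 3, 0), ((9, 10), 3, 8)]
  Tb := [((0, 1, 3), 1, 6, 3), ((1, 0, 2), 6, 1, 4), ((2, 1, 4), 4, 6, 5), ((3, 0, 8), 3, 1, 7),
    ((4, 2, 5), 5, 4, 0), ((5, 4, 7), 0, 5, 2), ((6, 9, 11), 0, 3, 9), ((7, 5, 11), 2, 0, 9),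
    ((8, 3, 10), 7, 3, 8), ((9, 6, 10), 3, 0, 8), ((10, 8, 9), 8, 7, 3), ((11, 6, 7), 9, 0,
    2)]
  Tc := [(1, 0, 4), (1, 0, 5), (1, 4, 5)]
  Td := [((0, 1), (5, 4), 5), ((0, 1), (5, 7), 2), ((0, 1), (6, 9), 3), ((0, 1), (6, 11), 9),
    ((1, 0), (0, 1), 6), ((1, 0), (0, 3), 3), ((1, 4), (0, 1), 6), ((1, 4), (0, 3), 3), ((1,
    5), (0, 1), 6), ((1, 5), (0, 3), 3), ((4, 1), (2, 1), 6), ((4, 1), (2, 4), 5), ((5, 1),
    (4, 2), 4), ((5, 1), (4, 5), 0)]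
  G := [[0, 0x12441221829c124124128b4612212251228c12814812878a188184124b412414412278ce1,
    0x624614c618c883c21621a18c21644f821628a44c14a24f821d,
    0x124184181188f421121121188184f421184184124188f421d,
    0x124141121144f821121148141148f821128124128124f821d], [0,
    0x1162c1212811a8f8141444188c1811c4bc12c1411a412211c2f418e,
    0xc21a21c11c21f428611a18c21621f824628c28628a21f824d,
    0x124124124121f428121121128128f824121121121124f428d,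
    0x128121121121f824121128121121f824128124128128f821d], [0,
    0x12441221889c124188184b4612241821229c12814414278a14412231888c12414412878ce1, 0,
    0xc244c21c88c84bc21421c44c48c28f8888c214444c28824c88c88fc21d,
    0x88482224a44a44a28f8448aa188882248a44a48a44f8818a618428284882244a28a44a24f8488ae1d], [0,
    0x1168c1212811c8f821444184c1811a8bc148c1411a471888cc61, 0,
    0xc24821c24c21f424484829c21842c28c21c21782cc48c28c287c288c21d,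
    0x88182221a28a21a28f8818aa482882224a44a24a24f8848a618828288882228a48a24a28f8888ae1d]]

noncomputable def n3766 : Ent := ⟨e3766, noF, [], [], [(9, 19, [130296143695408343586455050064352370635079224267853574415018227909354224041985, 0]), (9, 16, [137534916551164530859168056639568349186738516571547296047091608213707851255809, 0])]⟩

def c3766 : PLift (Cov.check n3766.C.D v3766 = true) := ⟨by decide +kernel⟩

def b3766 : PLift (entF (fidx ts) 400 3766 n3766 = true) := ⟨by decide +kernel⟩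

theorem g3766 : GoodF (fidx ts) 400 3766 := GoodF.ofV v3766 n3766 c3766.down b3766.down

/-- 567744:2773/2 -/
noncomputable def e3767 : SCfg where
  D := {
    a := 6
    L := 10
    kp := 7
    inn := [(0, 4), (1, 2), (1, 3), (1, 4), (2, 1), (2, 3), (3, 1), (3, 2), (3, 5), (4, 0), (4, 1), (5,
      3)]
    mix := [(0, 0), (0, 1), (0, 2), (0, 3), (1, 0), (1, 1), (1, 4), (2, 1), (2, 5), (2, 6), (2, 7), (2,
      8), (3, 3), (3, 4), (3, 7), (3, 9), (4, 0), (4, 1), (5, 2), (5, 3), (5, 9)]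
    cl := [0, 0, 3, 1, 2, 5, 6, 1, 7, 4]
    chq := [(2, 5), (2, 6), (2, 7), (5, 2), (6, 2), (7, 2)]
    rng := [(0, 3), (0, 4), (1, 2), (1, 6), (2, 1), (2, 3), (2, 9), (3, 0), (3, 2), (3, 4), (4, 0), (4,
      3), (5, 6), (5, 8), (6, 1), (6, 5), (7, 8), (7, 9), (8, 5), (8, 7), (9, 2), (9, 7)]
    lev := [] }
  links := [[6, 4, 7, 8, 9], [2, 7, 4, 6, 10, 3], [11, 12, 7, 1, 3, 13, 14], [13, 2, 1, 10, 9, 5, 15],
    [7, 0, 6, 1], [3, 9, 8, 15]]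
  P := {
    a := 6
    N := 16
    nb := [976, 1244, 30858, 42534, 195, 33544, 1555, 4375, 33441, 1385, 586, 20484, 2180, 49164,
      10244, 8488]
    tri := [(0, 4, 6), (0, 4, 7), (0, 6, 9), (0, 7, 8), (0, 8, 9), (1, 2, 3), (1, 2, 7), (1, 3, 10),
      (1, 4, 6), (1, 4, 7), (1, 6, 10), (2, 3, 13), (2, 7, 12), (2, 11, 12), (2, 11, 14), (2, 13,
      14), (3, 5, 9), (3, 5, 15), (3, 9, 10), (3, 13, 15), (5, 8, 9), (5, 8, 15)]
    fin := [0, 1, 1, 3, 0, 3, 0, 0, 8, 3, 1, 11, 12, 3, 14, 15]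
    chd := [(1, 11), (1, 12), (1, 14)]
    steps := [(0, 4), (0, 6), (0, 7), (1, 2), (1, 10), (3, 5), (3, 9), (3, 13)] }
  rep := [0, 3, 1, 8, 15, 11, 12, 14]

noncomputable def v3767 : Cov.CovD where
  P := 3
  N := 5
  pl := [2, 9]
  lev := [⟨[], [], [(0, 0), (0, 1)], [3], [(0, 0, []), (1, 0, []), (3, 1, [])]⟩,
    ⟨[], [(0, 0)], [(0, 0), (0, 2)], [], [(0, 0, []), (1, 0, []), (4, 2, [5, 6, 7])]⟩,
    ⟨[], [(0, 0), (1, 0), (1, 1), (1, 2), (1, 5), (1, 6), (1, 7)], [(0, 1), (0, 5), (0, 6),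
      (0, 7), (1, 5), (1, 6), (1, 7), (5, 6), (5, 7), (6, 7)], [], [(1, 0, []), (5, 5, [2]),
      (6, 6, [2]), (7, 1, []), (8, 7, [2])]⟩,
    ⟨[(1, 2)], [(0, 1), (1, 0), (1, 1), (1, 2), (2, 0), (2, 1), (2, 2), (2, 5), (2, 6), (2,
      7)], [(1, 1), (1, 2)], [4], [(3, 1, []), (4, 2, [5, 6, 7]), (7, 1, [])]⟩,
    ⟨[(0, 1), (1, 2), (1, 3)], [(0, 0), (0, 1), (1, 0), (1, 2), (2, 0)], [(0, 0)], [], [(0,
      0, []), (1, 0, [])]⟩,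
    ⟨[(1, 3), (2, 3)], [(0, 1), (3, 1), (3, 2)], [], [3, 4], [(3, 1, [])]⟩]
  Ta := [((0, 3), 0, 1), ((0, 4), 0, 2), ((1, 2), 0, 3), ((1, 6), 0, 6), ((3, 0), 1, 0), ((3, 2),
    1, 3), ((3, 4), 1, 2), ((7, 8), 1, 7), ((7, 9), 1, 4)]
  Tb := [((0, 3, 4), 0, 1, 2), ((1, 2, 6), 0, 3, 6), ((2, 1, 3), 3, 0, 1), ((2, 1, 9), 3, 0, 4),
    ((2, 3, 9), 3, 1, 4), ((3, 0, 2), 1, 0, 3), ((3, 0, 4), 1, 0, 2), ((3, 2, 4), 1, 3, 2),
    ((4, 0, 3), 2, 0, 1), ((5, 6, 8), 5, 6, 7), ((6, 1, 5), 6, 0, 5), ((7, 8, 9), 1, 7, 4),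
    ((8, 5, 7), 7, 5, 1), ((9, 2, 7), 4, 3, 1)]
  Tc := [(2, 5, 6), (2, 5, 7), (2, 6, 7)]
  Td := [((2, 5), (4, 0), 0), ((2, 5), (4, 3), 1), ((2, 6), (4, 0), 0), ((2, 6), (4, 3), 1), ((2,
    7), (4, 0), 0), ((2, 7), (4, 3), 1), ((5, 2), (5, 6), 6), ((5, 2), (5, 8), 7), ((6, 2),
    (6, 1), 0), ((6, 2), (6, 5), 5), ((7, 2), (8, 5), 5), ((7, 2), (8, 7), 1)]
  G := [[0, 0x8428c242442c28c, 0x1294c181244c12c, 0x84149244812924c, 0x82129424218942c], [0, 0,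
    0x5498c182, 0, 0xc4189422], [0, 0, 0, 0x88189241448c28c, 0x82189424252948c], [0, 0, 0, 0,
    0x5414c484a2]]

noncomputable def n3767 : Ent := ⟨e3767, noF, [], [], []⟩

def c3767 : PLift (Cov.check n3767.C.D v3767 = true) := ⟨by decide +kernel⟩

def b3767 : PLift (entF (fidx ts) 400 3767 n3767 = true) := ⟨by decide +kernel⟩

theorem g3767 : GoodF (fidx ts) 400 3767 := GoodF.ofV v3767 n3767 c3767.down b3767.down

/-- 567744:2773/1 -/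
noncomputable def e3768 : SCfg where
  D := {
    a := 6
    L := 11
    kp := 8
    inn := [(0, 4), (1, 2), (1, 3), (1, 4), (2, 1), (2, 3), (3, 1), (3, 2), (3, 5), (4, 0), (4, 1), (5,
      3)]
    mix := [(0, 0), (0, 1), (0, 2), (0, 3), (1, 0), (1, 1), (1, 4), (2, 1), (2, 5), (2, 6), (2, 7), (2,
      8), (3, 3), (3, 4), (3, 7), (3, 9), (4, 0), (4, 1), (5, 3), (5, 9), (5, 10)]
    cl := [0, 0, 7, 1, 2, 4, 5, 1, 6, 3, 8]
    chq := [(2, 4), (2, 5), (2, 6), (4, 2), (5, 2), (6, 2)]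
    rng := [(0, 3), (0, 4), (1, 2), (1, 6), (2, 1), (2, 3), (3, 0), (3, 2), (3, 4), (3, 10), (4, 0),
      (4, 3), (5, 6), (5, 8), (6, 1), (6, 5), (7, 8), (7, 9), (8, 5), (8, 7), (9, 7), (9, 10),
      (10, 3), (10, 9)]
    lev := [] }
  links := [[6, 4, 7, 8, 9], [2, 7, 4, 6, 10, 3], [11, 12, 7, 1, 3, 13, 14], [13, 2, 1, 10, 9, 5, 15],
    [7, 0, 6, 1], [3, 9, 16, 15]]
  P := {
    a := 6
    N := 17
    nb := [976, 1244, 30858, 42534, 195, 98824, 1555, 4375, 641, 66921, 586, 20484, 2180, 49164,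
      10244, 73768, 33312]
    tri := [(0, 4, 6), (0, 4, 7), (0, 6, 9), (0, 7, 8), (0, 8, 9), (1, 2, 3), (1, 2, 7), (1, 3, 10),
      (1, 4, 6), (1, 4, 7), (1, 6, 10), (2, 3, 13), (2, 7, 12), (2, 11, 12), (2, 11, 14), (2, 13,
      14), (3, 5, 9), (3, 5, 15), (3, 9, 10), (3, 13, 15), (5, 9, 16), (5, 15, 16)]
    fin := [0, 1, 1, 3, 0, 3, 0, 0, 8, 3, 1, 11, 12, 3, 14, 15, 16]
    chd := [(1, 11), (1, 12), (1, 14)]
    steps := [(0, 4), (0, 6), (0, 7), (1, 2), (1, 10), (3, 5), (3, 9), (3, 13)] }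
  rep := [0, 3, 1, 15, 11, 12, 14, 8, 16]

noncomputable def v3768 : Cov.CovD where
  P := 3
  N := 6
  pl := [2, 9, 10]
  lev := [⟨[], [], [(0, 0), (0, 1)], [7], [(0, 0, []), (1, 0, []), (3, 1, [])]⟩,
    ⟨[], [(0, 0)], [(0, 0), (0, 2)], [], [(0, 0, []), (1, 0, []), (4, 2, [4, 5, 6])]⟩,
    ⟨[], [(0, 0), (1, 0), (1, 1), (1, 2), (1, 4), (1, 5), (1, 6)], [(0, 1), (0, 4), (0, 5),
      (0, 6), (1, 4), (1, 5), (1, 6), (4, 5), (4, 6), (5, 6)], [], [(1, 0, []), (5, 4, [2]),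
      (6, 5, [2]), (7, 1, []), (8, 6, [2])]⟩,
    ⟨[(1, 2)], [(0, 1), (1, 0), (1, 1), (1, 2), (2, 0), (2, 1), (2, 2), (2, 4), (2, 5), (2,
      6)], [(1, 1), (1, 2)], [3], [(3, 1, []), (4, 2, [4, 5, 6]), (7, 1, [])]⟩,
    ⟨[(0, 1), (1, 2), (1, 3)], [(0, 0), (0, 1), (1, 0), (1, 2), (2, 0)], [(0, 0)], [], [(0,
      0, []), (1, 0, [])]⟩,
    ⟨[(1, 3), (2, 3)], [(0, 1), (3, 1), (3, 2)], [], [3, 8], [(3, 1, [])]⟩]
  Ta := [((0, 3), 0, 1), ((0, 4), 0, 2), ((1, 2), 0, 7), ((1, 6), 0, 5), ((3, 0), 1, 0), ((3, 2),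
    1, 7), ((3, 4), 1, 2), ((3, 10), 1, 8), ((7, 8), 1, 6), ((7, 9), 1, 3)]
  Tb := [((0, 3, 4), 0, 1, 2), ((1, 2, 6), 0, 7, 5), ((2, 1, 3), 7, 0, 1), ((3, 0, 2), 1, 0, 7),
    ((3, 0, 4), 1, 0, 2), ((3, 0, 10), 1, 0, 8), ((3, 2, 4), 1, 7, 2), ((3, 2, 10), 1, 7, 8),
    ((3, 4, 10), 1, 2, 8), ((4, 0, 3), 2, 0, 1), ((5, 6, 8), 4, 5, 6), ((6, 1, 5), 5, 0, 4),
    ((7, 8, 9), 1, 6, 3), ((8, 5, 7), 6, 4, 1), ((9, 7, 10), 3, 1, 8), ((10, 3, 9), 8, 1, 3)]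
  Tc := [(2, 4, 5), (2, 4, 6), (2, 5, 6)]
  Td := [((2, 4), (4, 0), 0), ((2, 4), (4, 3), 1), ((2, 5), (4, 0), 0), ((2, 5), (4, 3), 1), ((2,
    6), (4, 0), 0), ((2, 6), (4, 3), 1), ((4, 2), (5, 6), 5), ((4, 2), (5, 8), 6), ((5, 2),
    (6, 1), 0), ((5, 2), (6, 5), 4), ((6, 2), (8, 5), 4), ((6, 2), (8, 7), 1)]
  G := [[0, 0x4442a822c2c6242a282c6, 0x9252c1242419218c1cc, 0xc492528c858924c,
    0xc258942c858942c], [0, 0, 0x9854c122, 0, 0xc4589422], [0, 0, 0, 0xc254924c498528c,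
    0xc454942c452942c], [0, 0, 0, 0, 0xc4589422]]

noncomputable def n3768 : Ent := ⟨e3768, noF, [], [], [(16, 8, [1580044410770988437309982451912114807532205501265773183772035608577, 0])]⟩

def c3768 : PLift (Cov.check n3768.C.D v3768 = true) := ⟨by decide +kernel⟩

def b3768 : PLift (entF (fidx ts) 400 3768 n3768 = true) := ⟨by decide +kernel⟩

theorem g3768 : GoodF (fidx ts) 400 3768 := GoodF.ofV v3768 n3768 c3768.down b3768.down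

/-- 567744:2773/3 -/
noncomputable def e3769 : SCfg where
  D := {
    a := 6
    L := 11
    kp := 8
    inn := [(0, 4), (1, 2), (1, 3), (1, 4), (2, 1), (2, 3), (3, 1), (3, 2), (3, 5), (4, 0), (4, 1), (5,
      3)]
    mix := [(0, 0), (0, 1), (0, 2), (0, 3), (1, 0), (1, 1), (1, 4), (2, 1), (2, 5), (2, 6), (2, 7), (2,
      8), (3, 4), (3, 7), (3, 9), (3, 10), (4, 0), (4, 1), (5, 2), (5, 9), (5, 10)]
    cl := [0, 0, 2, 8, 1, 5, 6, 3, 7, 3, 4]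
    chq := [(1, 5), (1, 6), (1, 7), (5, 1), (6, 1), (7, 1)]
    rng := [(0, 3), (0, 4), (1, 2), (1, 6), (2, 1), (2, 3), (2, 9), (2, 10), (3, 0), (3, 2), (4, 0),
      (4, 9), (5, 6), (5, 8), (6, 1), (6, 5), (7, 8), (7, 10), (8, 5), (8, 7), (9, 2), (9, 4),
      (10, 2), (10, 7)]
    lev := [] }
  links := [[6, 4, 7, 8, 9], [2, 7, 4, 6, 10, 3], [11, 12, 7, 1, 3, 13, 14], [13, 2, 1, 10, 15, 5, 16],
    [7, 0, 6, 1], [3, 15, 8, 16]]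
  P := {
    a := 6
    N := 17
    nb := [976, 1244, 30858, 107558, 195, 98568, 1555, 4375, 98977, 321, 32842, 20484, 2180, 81932,
      10244, 1320, 8488]
    tri := [(0, 4, 6), (0, 4, 7), (0, 6, 9), (0, 7, 8), (0, 8, 9), (1, 2, 3), (1, 2, 7), (1, 3, 10),
      (1, 4, 6), (1, 4, 7), (1, 6, 10), (2, 3, 13), (2, 7, 12), (2, 11, 12), (2, 11, 14), (2, 13,
      14), (3, 5, 15), (3, 5, 16), (3, 10, 15), (3, 13, 16), (5, 8, 15), (5, 8, 16)]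
    fin := [0, 1, 1, 3, 0, 3, 0, 0, 8, 9, 1, 11, 12, 3, 14, 3, 16]
    chd := [(1, 11), (1, 12), (1, 14)]
    steps := [(0, 4), (0, 6), (0, 7), (1, 2), (1, 10), (3, 5), (3, 15), (3, 13)] }
  rep := [0, 1, 8, 3, 16, 11, 12, 14, 9]

noncomputable def v3769 : Cov.CovD where
  P := 3
  N := 6
  pl := [2, 3, 10]
  lev := [⟨[], [], [(0, 0)], [2, 8], [(0, 0, []), (1, 0, [])]⟩,
    ⟨[], [(0, 0)], [(0, 0), (0, 1)], [], [(0, 0, []), (1, 0, []), (4, 1, [5, 6, 7])]⟩,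
    ⟨[], [(0, 0), (1, 0), (1, 1), (1, 3), (1, 5), (1, 6), (1, 7)], [(0, 3), (0, 5), (0, 6),
      (0, 7), (3, 5), (3, 6), (3, 7), (5, 6), (5, 7), (6, 7)], [], [(1, 0, []), (5, 5, [1]),
      (6, 6, [1]), (7, 3, []), (8, 7, [1])]⟩,
    ⟨[(1, 2)], [(1, 0), (1, 1), (1, 3), (2, 0), (2, 1), (2, 3), (2, 5), (2, 6), (2, 7)],
      [(1, 3), (3, 3)], [4], [(4, 1, [5, 6, 7]), (7, 3, []), (9, 3, [])]⟩,
    ⟨[(0, 1), (1, 2), (1, 3)], [(0, 0), (1, 0), (1, 1), (2, 0)], [(0, 0)], [], [(0, 0, []),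
      (1, 0, [])]⟩,
    ⟨[(1, 3), (2, 3)], [(3, 1), (3, 3)], [], [2, 4], [(9, 3, [])]⟩]
  Ta := [((0, 3), 0, 8), ((0, 4), 0, 1), ((1, 2), 0, 2), ((1, 6), 0, 6), ((7, 8), 3, 7), ((7,
    10), 3, 4), ((9, 2), 3, 2), ((9, 4), 3, 1)]
  Tb := [((0, 3, 4), 0, 8, 1), ((1, 2, 6), 0, 2, 6), ((2, 1, 3), 2, 0, 8), ((2, 1, 9), 2, 0, 3),
    ((2, 1, 10), 2, 0, 4), ((2, 3, 9), 2, 8, 3), ((2, 3, 10), 2, 8, 4), ((2, 9, 10), 2, 3,
    4), ((3, 0, 2), 8, 0, 2), ((4, 0, 9), 1, 0, 3), ((5, 6, 8), 5, 6, 7), ((6, 1, 5), 6, 0,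
    5), ((7, 8, 10), 3, 7, 4), ((8, 5, 7), 7, 5, 3), ((9, 2, 4), 3, 2, 1), ((10, 2, 7), 4, 2,
    3)]
  Tc := [(1, 5, 6), (1, 5, 7), (1, 6, 7)]
  Td := [((1, 5), (4, 0), 0), ((1, 5), (4, 9), 3), ((1, 6), (4, 0), 0), ((1, 6), (4, 9), 3), ((1,
    7), (4, 0), 0), ((1, 7), (4, 9), 3), ((5, 1), (5, 6), 6), ((5, 1), (5, 8), 7), ((6, 1),
    (6, 1), 0), ((6, 1), (6, 5), 5), ((7, 1), (8, 5), 5), ((7, 1), (8, 7), 3)]
  G := [[0, 0x841858e14448814e12c, 0, 0x4212528282c889218d24c, 0x24a424d28229288d28a], [0,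
    0x124494e18824418e12c, 0, 0x4442821292c4414528282cc, 0x822214d24882212d24a], [0, 0,
    0x62124681286, 0x849812d244842821292cc, 0x289218d24129822d28a], [0, 0, 0xe4124e2124c,
    0x4214528482c4442821292cc, 0x842814d2428a814d24a]]

noncomputable def n3769 : Ent := ⟨e3769, noF, [], [], [(15, 9, [1685356702439545624008034240510833457709826487664008433929051402241, 0])]⟩

def c3769 : PLift (Cov.check n3769.C.D v3769 = true) := ⟨by decide +kernel⟩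

def b3769 : PLift (entF (fidx ts) 400 3769 n3769 = true) := ⟨by decide +kernel⟩

theorem g3769 : GoodF (fidx ts) 400 3769 := GoodF.ofV v3769 n3769 c3769.down b3769.down

/-- 567744:2773/5 -/
noncomputable def e3770 : SCfg where
  D := {
    a := 6
    L := 10
    kp := 7
    inn := [(0, 4), (1, 2), (1, 3), (1, 4), (2, 1), (2, 3), (3, 1), (3, 2), (3, 5), (4, 0), (4, 1), (5,
      3)]
    mix := [(0, 0), (0, 1), (0, 2), (0, 3), (1, 0), (1, 1), (1, 4), (2, 1), (2, 2), (2, 5), (2, 6), (2,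
      7), (3, 4), (3, 6), (3, 8), (3, 9), (4, 0), (4, 1), (5, 3), (5, 8), (5, 9)]
    cl := [0, 0, 4, 2, 1, 6, 3, 7, 3, 5]
    chq := [(1, 4), (1, 6), (1, 7), (4, 1), (6, 1), (7, 1)]
    rng := [(0, 3), (0, 4), (1, 2), (2, 1), (2, 3), (2, 5), (3, 0), (3, 2), (3, 8), (3, 9), (4, 0), (4,
      8), (5, 2), (5, 7), (6, 7), (6, 9), (7, 5), (7, 6), (8, 3), (8, 4), (9, 3), (9, 6)]
    lev := [] }
  links := [[6, 4, 7, 8, 9], [2, 7, 4, 6, 10, 3], [11, 8, 7, 1, 3, 12, 13], [12, 2, 1, 10, 14, 5, 15],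
    [7, 0, 6, 1], [3, 14, 9, 15]]
  P := {
    a := 6
    N := 16
    nb := [976, 1244, 14730, 54310, 195, 49672, 1555, 279, 2693, 49505, 16458, 8452, 40972, 6148,
      1576, 4648]
    tri := [(0, 4, 6), (0, 4, 7), (0, 6, 9), (0, 7, 8), (0, 8, 9), (1, 2, 3), (1, 2, 7), (1, 3, 10),
      (1, 4, 6), (1, 4, 7), (1, 6, 10), (2, 3, 12), (2, 7, 8), (2, 8, 11), (2, 11, 13), (2, 12,
      13), (3, 5, 14), (3, 5, 15), (3, 10, 14), (3, 12, 15), (5, 9, 14), (5, 9, 15)]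
    fin := [0, 1, 1, 3, 0, 3, 0, 0, 8, 9, 1, 11, 3, 13, 3, 15]
    chd := [(1, 11), (1, 13), (8, 1)]
    steps := [(0, 4), (0, 6), (0, 7), (1, 2), (1, 10), (3, 5), (3, 14), (3, 12)] }
  rep := [0, 1, 9, 3, 8, 15, 11, 13]

noncomputable def v3770 : Cov.CovD where
  P := 3
  N := 5
  pl := [3, 9]
  lev := [⟨[], [], [(0, 0), (0, 4)], [2], [(0, 0, []), (1, 0, []), (2, 4, [1])]⟩,
    ⟨[], [(0, 0)], [(0, 0), (0, 1)], [], [(0, 0, []), (1, 0, []), (4, 1, [4, 6, 7])]⟩,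
    ⟨[], [(0, 0), (0, 4), (1, 0), (1, 1), (1, 3), (1, 4), (1, 6), (1, 7)], [(0, 3), (0, 4),
      (0, 6), (0, 7), (3, 4), (3, 6), (3, 7), (4, 6), (4, 7), (6, 7)], [], [(1, 0, []), (2,
      4, [1]), (5, 6, [1]), (6, 3, []), (7, 7, [1])]⟩,
    ⟨[(1, 2)], [(1, 0), (1, 1), (1, 3), (2, 0), (2, 1), (2, 3), (2, 4), (2, 6), (2, 7)],
      [(1, 3), (3, 3)], [5], [(4, 1, [4, 6, 7]), (6, 3, []), (8, 3, [])]⟩,
    ⟨[(0, 1), (1, 2), (1, 3)], [(0, 0), (0, 4), (1, 0), (1, 1), (2, 0)], [(0, 0)], [], [(0,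
      0, []), (1, 0, [])]⟩,
    ⟨[(1, 3), (2, 3)], [(3, 1), (3, 3)], [], [2, 5], [(8, 3, [])]⟩]
  Ta := [((0, 3), 0, 2), ((0, 4), 0, 1), ((1, 2), 0, 4), ((6, 7), 3, 7), ((6, 9), 3, 5), ((8, 3),
    3, 2), ((8, 4), 3, 1)]
  Tb := [((0, 3, 4), 0, 2, 1), ((2, 1, 3), 4, 0, 2), ((2, 1, 5), 4, 0, 6), ((2, 3, 5), 4, 2, 6),
    ((3, 0, 2), 2, 0, 4), ((3, 0, 8), 2, 0, 3), ((3, 0, 9), 2, 0, 5), ((3, 2, 8), 2, 4, 3),
    ((3, 2, 9), 2, 4, 5), ((3, 8, 9), 2, 3, 5), ((4, 0, 8), 1, 0, 3), ((5, 2, 7), 6, 4, 7),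
    ((6, 7, 9), 3, 7, 5), ((7, 5, 6), 7, 6, 3), ((8, 3, 4), 3, 2, 1), ((9, 3, 6), 5, 2, 3)]
  Tc := [(1, 4, 6), (1, 4, 7), (1, 6, 7)]
  Td := [((1, 4), (4, 0), 0), ((1, 4), (4, 8), 3), ((1, 6), (4, 0), 0), ((1, 6), (4, 8), 3), ((1,
    7), (4, 0), 0), ((1, 7), (4, 8), 3), ((4, 1), (2, 1), 0), ((4, 1), (2, 3), 2), ((4, 1),
    (2, 5), 6), ((6, 1), (5, 2), 4), ((6, 1), (5, 7), 7), ((7, 1), (7, 5), 6), ((7, 1), (7,
    6), 3)]
  G := [[0, 0x8818c2e14428818e14c, 0xc412464128a, 0x829818d244412528882cc,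
    0x142482d28149418d28a], [0, 0x4414618481a124892e18c, 0xe2124e41286,
    0x4442821292c4818528282cc, 0x22a218d2424a818d28a], [0, 0, 0, 0x4442841492c544818d28c,
    0x229814d24142488d28a], [0, 0, 0, 0x4414528282c4412528882cc, 0x882212d2424a212d24a]]

noncomputable def n3770 : Ent := ⟨e3770, noF, [], [], []⟩

def c3770 : PLift (Cov.check n3770.C.D v3770 = true) := ⟨by decide +kernel⟩

def b3770 : PLift (entF (fidx ts) 400 3770 n3770 = true) := ⟨by decide +kernel⟩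

theorem g3770 : GoodF (fidx ts) 400 3770 := GoodF.ofV v3770 n3770 c3770.down b3770.down

/-- 567744:2773/4 -/
noncomputable def e3771 : SCfg where
  D := {
    a := 6
    L := 11
    kp := 8
    inn := [(0, 4), (1, 2), (1, 3), (1, 4), (2, 1), (2, 3), (3, 1), (3, 2), (3, 5), (4, 0), (4, 1), (5,
      3)]
    mix := [(0, 0), (0, 1), (0, 2), (0, 3), (1, 0), (1, 1), (1, 4), (2, 1), (2, 5), (2, 6), (2, 7), (2,
      8), (3, 4), (3, 7), (3, 9), (3, 10), (4, 0), (4, 1), (5, 3), (5, 9), (5, 10)]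
    cl := [0, 0, 8, 2, 1, 5, 6, 3, 7, 3, 4]
    chq := [(1, 5), (1, 6), (1, 7), (5, 1), (6, 1), (7, 1)]
    rng := [(0, 3), (0, 4), (1, 2), (1, 6), (2, 1), (2, 3), (3, 0), (3, 2), (3, 9), (3, 10), (4, 0),
      (4, 9), (5, 6), (5, 8), (6, 1), (6, 5), (7, 8), (7, 10), (8, 5), (8, 7), (9, 3), (9, 4),
      (10, 3), (10, 7)]
    lev := [] }
  links := [[6, 4, 7, 8, 9], [2, 7, 4, 6, 10, 3], [11, 12, 7, 1, 3, 13, 14], [13, 2, 1, 10, 15, 5, 16],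
    [7, 0, 6, 1], [3, 15, 9, 16]]
  P := {
    a := 6
    N := 17
    nb := [976, 1244, 30858, 107558, 195, 98824, 1555, 4375, 641, 98657, 32842, 20484, 2180, 81932,
      10244, 1576, 8744]
    tri := [(0, 4, 6), (0, 4, 7), (0, 6, 9), (0, 7, 8), (0, 8, 9), (1, 2, 3), (1, 2, 7), (1, 3, 10),
      (1, 4, 6), (1, 4, 7), (1, 6, 10), (2, 3, 13), (2, 7, 12), (2, 11, 12), (2, 11, 14), (2, 13,
      14), (3, 5, 15), (3, 5, 16), (3, 10, 15), (3, 13, 16), (5, 9, 15), (5, 9, 16)]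
    fin := [0, 1, 1, 3, 0, 3, 0, 0, 8, 9, 1, 11, 12, 3, 14, 3, 16]
    chd := [(1, 11), (1, 12), (1, 14)]
    steps := [(0, 4), (0, 6), (0, 7), (1, 2), (1, 10), (3, 5), (3, 15), (3, 13)] }
  rep := [0, 1, 9, 3, 16, 11, 12, 14, 8]

noncomputable def v3771 : Cov.CovD where
  P := 3
  N := 6
  pl := [2, 3, 10]
  lev := [⟨[], [], [(0, 0)], [2, 8], [(0, 0, []), (1, 0, [])]⟩,
    ⟨[], [(0, 0)], [(0, 0), (0, 1)], [], [(0, 0, []), (1, 0, []), (4, 1, [5, 6, 7])]⟩,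
    ⟨[], [(0, 0), (1, 0), (1, 1), (1, 3), (1, 5), (1, 6), (1, 7)], [(0, 3), (0, 5), (0, 6),
      (0, 7), (3, 5), (3, 6), (3, 7), (5, 6), (5, 7), (6, 7)], [], [(1, 0, []), (5, 5, [1]),
      (6, 6, [1]), (7, 3, []), (8, 7, [1])]⟩,
    ⟨[(1, 2)], [(1, 0), (1, 1), (1, 3), (2, 0), (2, 1), (2, 3), (2, 5), (2, 6), (2, 7)],
      [(1, 3), (3, 3)], [4], [(4, 1, [5, 6, 7]), (7, 3, []), (9, 3, [])]⟩,
    ⟨[(0, 1), (1, 2), (1, 3)], [(0, 0), (1, 0), (1, 1), (2, 0)], [(0, 0)], [], [(0, 0, []),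
      (1, 0, [])]⟩,
    ⟨[(1, 3), (2, 3)], [(3, 1), (3, 3)], [], [2, 4], [(9, 3, [])]⟩]
  Ta := [((0, 3), 0, 2), ((0, 4), 0, 1), ((1, 2), 0, 8), ((1, 6), 0, 6), ((7, 8), 3, 7), ((7,
    10), 3, 4), ((9, 3), 3, 2), ((9, 4), 3, 1)]
  Tb := [((0, 3, 4), 0, 2, 1), ((1, 2, 6), 0, 8, 6), ((2, 1, 3), 8, 0, 2), ((3, 0, 2), 2, 0, 8),
    ((3, 0, 9), 2, 0, 3), ((3, 0, 10), 2, 0, 4), ((3, 2, 9), 2, 8, 3), ((3, 2, 10), 2, 8, 4),
    ((3, 9, 10), 2, 3, 4), ((4, 0, 9), 1, 0, 3), ((5, 6, 8), 5, 6, 7), ((6, 1, 5), 6, 0, 5),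
    ((7, 8, 10), 3, 7, 4), ((8, 5, 7), 7, 5, 3), ((9, 3, 4), 3, 2, 1), ((10, 3, 7), 4, 2, 3)]
  Tc := [(1, 5, 6), (1, 5, 7), (1, 6, 7)]
  Td := [((1, 5), (4, 0), 0), ((1, 5), (4, 9), 3), ((1, 6), (4, 0), 0), ((1, 6), (4, 9), 3), ((1,
    7), (4, 0), 0), ((1, 7), (4, 9), 3), ((5, 1), (5, 6), 6), ((5, 1), (5, 8), 7), ((6, 1),
    (6, 1), 0), ((6, 1), (6, 5), 5), ((7, 1), (8, 5), 5), ((7, 1), (8, 7), 3)]
  G := [[0, 0x841858e14448814e12c, 0xa2128c81286, 0x4414528282c4442821892cc,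
    0x122288d2422a288d28a], [0, 0x884214e124214618881ac, 0xe8128e41286,
    0x4242841292c4214528282cc, 0x882812d24822218d24a], [0, 0, 0, 0x4242841492c544814d28c,
    0x229818d24882884d24a], [0, 0, 0, 0x4442881292c4242821292cc, 0x822214d24822812d24a]]

noncomputable def n3771 : Ent := ⟨e3771, noF, [], [], [(12, 8, [1685382419726887998779855781905338985747496015544222127664764002305, 0])]⟩

def c3771 : PLift (Cov.check n3771.C.D v3771 = true) := ⟨by decide +kernel⟩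

def b3771 : PLift (entF (fidx ts) 400 3771 n3771 = true) := ⟨by decide +kernel⟩

theorem g3771 : GoodF (fidx ts) 400 3771 := GoodF.ofV v3771 n3771 c3771.down b3771.down

/-- 567744:2773/6 -/
noncomputable def e3772 : SCfg where
  D := {
    a := 6
    L := 11
    kp := 8
    inn := [(0, 4), (1, 2), (1, 3), (1, 4), (2, 1), (2, 3), (3, 1), (3, 2), (3, 5), (4, 0), (4, 1), (5,
      3)]
    mix := [(0, 0), (0, 1), (0, 2), (0, 3), (1, 0), (1, 1), (1, 4), (2, 1), (2, 2), (2, 5), (2, 6), (2,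
      7), (3, 4), (3, 6), (3, 8), (3, 9), (4, 0), (4, 1), (5, 8), (5, 9), (5, 10)]
    cl := [0, 0, 2, 7, 1, 5, 3, 6, 3, 4, 8]
    chq := [(1, 2), (1, 5), (1, 6), (2, 1), (5, 1), (6, 1)]
    rng := [(0, 3), (0, 4), (1, 2), (2, 1), (2, 3), (2, 5), (3, 0), (3, 2), (4, 0), (4, 8), (5, 2), (5,
      7), (6, 7), (6, 9), (7, 5), (7, 6), (8, 4), (8, 10), (9, 6), (9, 10), (10, 8), (10, 9)]
    lev := [] }
  links := [[6, 4, 7, 8, 9], [2, 7, 4, 6, 10, 3], [11, 8, 7, 1, 3, 12, 13], [12, 2, 1, 10, 14, 5, 15],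
    [7, 0, 6, 1], [3, 14, 16, 15]]
  P := {
    a := 6
    N := 17
    nb := [976, 1244, 14730, 54310, 195, 114696, 1555, 279, 2693, 321, 16458, 8452, 40972, 6148,
      66600, 69672, 49184]
    tri := [(0, 4, 6), (0, 4, 7), (0, 6, 9), (0, 7, 8), (0, 8, 9), (1, 2, 3), (1, 2, 7), (1, 3, 10),
      (1, 4, 6), (1, 4, 7), (1, 6, 10), (2, 3, 12), (2, 7, 8), (2, 8, 11), (2, 11, 13), (2, 12,
      13), (3, 5, 14), (3, 5, 15), (3, 10, 14), (3, 12, 15), (5, 14, 16), (5, 15, 16)]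
    fin := [0, 1, 1, 3, 0, 3, 0, 0, 8, 9, 1, 11, 3, 13, 3, 15, 16]
    chd := [(1, 11), (1, 13), (8, 1)]
    steps := [(0, 4), (0, 6), (0, 7), (1, 2), (1, 10), (3, 5), (3, 14), (3, 12)] }
  rep := [0, 1, 8, 3, 15, 11, 13, 9, 16]

noncomputable def v3772 : Cov.CovD where
  P := 3
  N := 6
  pl := [3, 9, 10]
  lev := [⟨[], [], [(0, 0), (0, 2)], [7], [(0, 0, []), (1, 0, []), (2, 2, [1])]⟩,
    ⟨[], [(0, 0)], [(0, 0), (0, 1)], [], [(0, 0, []), (1, 0, []), (4, 1, [2, 5, 6])]⟩,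
    ⟨[], [(0, 0), (0, 2), (1, 0), (1, 1), (1, 2), (1, 3), (1, 5), (1, 6)], [(0, 2), (0, 3),
      (0, 5), (0, 6), (2, 3), (2, 5), (2, 6), (3, 5), (3, 6), (5, 6)], [], [(1, 0, []), (2,
      2, [1]), (5, 5, [1]), (6, 3, []), (7, 6, [1])]⟩,
    ⟨[(1, 2)], [(1, 0), (1, 1), (1, 3), (2, 0), (2, 1), (2, 2), (2, 3), (2, 5), (2, 6)],
      [(1, 3), (3, 3)], [4], [(4, 1, [2, 5, 6]), (6, 3, []), (8, 3, [])]⟩,
    ⟨[(0, 1), (1, 2), (1, 3)], [(0, 0), (0, 2), (1, 0), (1, 1), (2, 0)], [(0, 0)], [], [(0,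
      0, []), (1, 0, [])]⟩,
    ⟨[(1, 3), (2, 3)], [(3, 1), (3, 3)], [], [4, 8], [(8, 3, [])]⟩]
  Ta := [((0, 3), 0, 7), ((0, 4), 0, 1), ((1, 2), 0, 2), ((6, 7), 3, 6), ((6, 9), 3, 4), ((8, 4),
    3, 1), ((8, 10), 3, 8)]
  Tb := [((0, 3, 4), 0, 7, 1), ((2, 1, 3), 2, 0, 7), ((2, 1, 5), 2, 0, 5), ((2, 3, 5), 2, 7, 5),
    ((3, 0, 2), 7, 0, 2), ((4, 0, 8), 1, 0, 3), ((5, 2, 7), 5, 2, 6), ((6, 7, 9), 3, 6, 4),
    ((7, 5, 6), 6, 5, 3), ((8, 4, 10), 3, 1, 8), ((9, 6, 10), 4, 3, 8), ((10, 8, 9), 8, 3,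
    4)]
  Tc := [(1, 2, 5), (1, 2, 6), (1, 5, 6)]
  Td := [((1, 2), (4, 0), 0), ((1, 2), (4, 8), 3), ((1, 5), (4, 0), 0), ((1, 5), (4, 8), 3), ((1,
    6), (4, 0), 0), ((1, 6), (4, 8), 3), ((2, 1), (2, 1), 0), ((2, 1), (2, 3), 7), ((2, 1),
    (2, 5), 5), ((5, 1), (5, 2), 2), ((5, 1), (5, 7), 6), ((6, 1), (7, 5), 5), ((6, 1), (7,
    6), 3)]
  G := [[0, 0x68a4c8e1292a832e14c, 0, 0x549232d28a29838d24c, 0x546232d28a89238d24a], [0,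
    0x5234619281a2421985214e1ac, 0, 0x623452a482c246434d28882cc, 0x643452a282c6842a43892ca],
    [0, 0, 0x529234d24546432d28a, 0x546234d28a29238d24c, 0x5292c4d245298c4d28a], [0, 0,
    0x643252a282c6442a23492c6, 0x643252a282c6842a23292cc, 0x6442a83892c6842a83292ca]]

noncomputable def n3772 : Ent := ⟨e3772, noF, [], [], [(16, 9, [1580044410770988437310138513572361556014072927981731971036246417409, 0])]⟩

def c3772 : PLift (Cov.check n3772.C.D v3772 = true) := ⟨by decide +kernel⟩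

def b3772 : PLift (entF (fidx ts) 400 3772 n3772 = true) := ⟨by decide +kernel⟩

theorem g3772 : GoodF (fidx ts) 400 3772 := GoodF.ofV v3772 n3772 c3772.down b3772.down

/-- 567744:2773 -/
noncomputable def e3773 : SCfg where
  D := {
    a := 6
    L := 12
    kp := 9
    inn := [(0, 4), (1, 2), (1, 3), (1, 4), (2, 1), (2, 3), (3, 1), (3, 2), (3, 5), (4, 0), (4, 1), (5,
      3)]
    mix := [(0, 0), (0, 1), (0, 2), (0, 3), (1, 0), (1, 1), (1, 4), (2, 1), (2, 5), (2, 6), (2, 7), (2,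
      8), (3, 4), (3, 7), (3, 9), (3, 10), (4, 0), (4, 1), (5, 9), (5, 10), (5, 11)]
    cl := [0, 0, 7, 8, 2, 4, 5, 1, 6, 1, 3, 9]
    chq := [(2, 4), (2, 5), (2, 6), (4, 2), (5, 2), (6, 2)]
    rng := [(0, 3), (0, 4), (1, 2), (1, 6), (2, 1), (2, 3), (3, 0), (3, 2), (4, 0), (4, 9), (5, 6), (5,
      8), (6, 1), (6, 5), (7, 8), (7, 10), (8, 5), (8, 7), (9, 4), (9, 11), (10, 7), (10, 11),
      (11, 9), (11, 10)]
    lev := [] }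
  links := [[6, 4, 7, 8, 9], [2, 7, 4, 6, 10, 3], [11, 12, 7, 1, 3, 13, 14], [13, 2, 1, 10, 15, 5, 16],
    [7, 0, 6, 1], [3, 15, 17, 16]]
  P := {
    a := 6
    N := 18
    nb := [976, 1244, 30858, 107558, 195, 229384, 1555, 4375, 641, 321, 32842, 20484, 2180, 81932,
      10244, 132136, 139304, 98336]
    tri := [(0, 4, 6), (0, 4, 7), (0, 6, 9), (0, 7, 8), (0, 8, 9), (1, 2, 3), (1, 2, 7), (1, 3, 10),
      (1, 4, 6), (1, 4, 7), (1, 6, 10), (2, 3, 13), (2, 7, 12), (2, 11, 12), (2, 11, 14), (2, 13,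
      14), (3, 5, 15), (3, 5, 16), (3, 10, 15), (3, 13, 16), (5, 15, 17), (5, 16, 17)]
    fin := [0, 1, 1, 3, 0, 3, 0, 0, 8, 9, 1, 11, 12, 3, 14, 3, 16, 17]
    chd := [(1, 11), (1, 12), (1, 14)]
    steps := [(0, 4), (0, 6), (0, 7), (1, 2), (1, 10), (3, 5), (3, 15), (3, 13)] }
  rep := [0, 3, 1, 16, 11, 12, 14, 8, 9, 17]

noncomputable def v3773 : Cov.CovD where
  P := 3
  N := 7
  pl := [2, 3, 10, 11]
  lev := [⟨[], [], [(0, 0)], [7, 8], [(0, 0, []), (1, 0, [])]⟩,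
    ⟨[], [(0, 0)], [(0, 0), (0, 2)], [], [(0, 0, []), (1, 0, []), (4, 2, [4, 5, 6])]⟩,
    ⟨[], [(0, 0), (1, 0), (1, 1), (1, 2), (1, 4), (1, 5), (1, 6)], [(0, 1), (0, 4), (0, 5),
      (0, 6), (1, 4), (1, 5), (1, 6), (4, 5), (4, 6), (5, 6)], [], [(1, 0, []), (5, 4, [2]),
      (6, 5, [2]), (7, 1, []), (8, 6, [2])]⟩,
    ⟨[(1, 2)], [(1, 0), (1, 1), (1, 2), (2, 0), (2, 1), (2, 2), (2, 4), (2, 5), (2, 6)],
      [(1, 1), (1, 2)], [3], [(4, 2, [4, 5, 6]), (7, 1, []), (9, 1, [])]⟩,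
    ⟨[(0, 1), (1, 2), (1, 3)], [(0, 0), (1, 0), (1, 2), (2, 0)], [(0, 0)], [], [(0, 0, []),
      (1, 0, [])]⟩,
    ⟨[(1, 3), (2, 3)], [(3, 1), (3, 2)], [], [3, 9], [(9, 1, [])]⟩]
  Ta := [((0, 3), 0, 8), ((0, 4), 0, 2), ((1, 2), 0, 7), ((1, 6), 0, 5), ((7, 8), 1, 6), ((7,
    10), 1, 3), ((9, 4), 1, 2), ((9, 11), 1, 9)]
  Tb := [((0, 3, 4), 0, 8, 2), ((1, 2, 6), 0, 7, 5), ((2, 1, 3), 7, 0, 8), ((3, 0, 2), 8, 0, 7),
    ((4, 0, 9), 2, 0, 1), ((5, 6, 8), 4, 5, 6), ((6, 1, 5), 5, 0, 4), ((7, 8, 10), 1, 6, 3),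
    ((8, 5, 7), 6, 4, 1), ((9, 4, 11), 1, 2, 9), ((10, 7, 11), 3, 1, 9), ((11, 9, 10), 9, 1,
    3)]
  Tc := [(2, 4, 5), (2, 4, 6), (2, 5, 6)]
  Td := [((2, 4), (4, 0), 0), ((2, 4), (4, 9), 1), ((2, 5), (4, 0), 0), ((2, 5), (4, 9), 1), ((2,
    6), (4, 0), 0), ((2, 6), (4, 9), 1), ((4, 2), (5, 6), 5), ((4, 2), (5, 8), 6), ((5, 2),
    (6, 1), 0), ((5, 2), (6, 5), 4), ((6, 2), (8, 5), 4), ((6, 2), (8, 7), 1)]
  G := [[0, 0xa218c245832c24a212c24e, 0x2254c1822b8c146432c14e, 0, 0x34a494222549482252948e],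
    [0, 0x6442a282c6842a282c2264c28882ce, 0x9454c129252c129458c12e, 0xc292528c858924c492528e,
    0xc452942c252942c454942e], [0, 0x1462c28a812c249238c24e, 0, 0, 0xc22294224529486234948e],
    [0, 0x6442a282c4442a822c2c4442a828c2ce, 0, 0xc292528c852924c854924e,
    0xc454942c452942c454942e]]

noncomputable def n3773 : Ent := ⟨e3773, noF, [], [], [(15, 9, [7334790850167413569773436137909850376687013109418699723294111055970305, 0]), (17, 8, [6903326391201334775872065844734382085129376193087066322065204567576577, 0]), (17, 9, [6903326391201334775872066023091343012537746186634086559781921992978433, 0]), (12, 8, [7334790875884700912148207959451244882215050778946579936987846768574465, 0])]⟩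

def c3773 : PLift (Cov.check n3773.C.D v3773 = true) := ⟨by decide +kernel⟩

def b3773 : PLift (entF (fidx ts) 400 3773 n3773 = true) := ⟨by decide +kernel⟩

theorem g3773 : GoodF (fidx ts) 400 3773 := GoodF.ofV v3773 n3773 c3773.down b3773.down

/-- 567744:2774/1 -/
noncomputable def e3774 : SCfg where
  D := {
    a := 6
    L := 11
    kp := 8
    inn := [(0, 4), (1, 2), (1, 3), (1, 4), (2, 1), (2, 3), (3, 1), (3, 2), (3, 5), (4, 0), (4, 1), (5,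
      3)]
    mix := [(0, 0), (0, 1), (0, 2), (0, 3), (1, 0), (1, 1), (1, 4), (2, 1), (2, 5), (2, 6), (2, 7), (2,
      8), (3, 3), (3, 4), (3, 7), (3, 9), (4, 0), (4, 1), (5, 7), (5, 9), (5, 10)]
    cl := [0, 0, 7, 1, 2, 4, 5, 1, 6, 3, 8]
    chq := [(2, 4), (2, 5), (2, 6), (4, 2), (5, 2), (6, 2)]
    rng := [(0, 3), (0, 4), (1, 2), (1, 6), (2, 1), (2, 3), (3, 0), (3, 2), (3, 4), (3, 9), (4, 0), (4,
      3), (5, 6), (5, 8), (6, 1), (6, 5), (7, 8), (7, 10), (8, 5), (8, 7), (9, 3), (9, 10), (10,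
      7), (10, 9)]
    lev := [] }
  links := [[6, 4, 7, 8, 9], [2, 7, 4, 6, 10, 3], [11, 12, 7, 1, 3, 13, 14], [13, 2, 1, 10, 9, 15, 5],
    [7, 0, 6, 1], [3, 15, 16, 13]]
  P := {
    a := 6
    N := 17
    nb := [976, 1244, 30858, 42534, 195, 106504, 1555, 4375, 641, 34121, 586, 20484, 2180, 81964,
      10244, 66088, 40992]
    tri := [(0, 4, 6), (0, 4, 7), (0, 6, 9), (0, 7, 8), (0, 8, 9), (1, 2, 3), (1, 2, 7), (1, 3, 10),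
      (1, 4, 6), (1, 4, 7), (1, 6, 10), (2, 3, 13), (2, 7, 12), (2, 11, 12), (2, 11, 14), (2, 13,
      14), (3, 5, 13), (3, 5, 15), (3, 9, 10), (3, 9, 15), (5, 13, 16), (5, 15, 16)]
    fin := [0, 1, 1, 3, 0, 3, 0, 0, 8, 3, 1, 11, 12, 3, 14, 15, 16]
    chd := [(1, 11), (1, 12), (1, 14)]
    steps := [(0, 4), (0, 6), (0, 7), (1, 2), (1, 10), (3, 5), (3, 9), (3, 13)] }
  rep := [0, 3, 1, 15, 11, 12, 14, 8, 16]

noncomputable def v3774 : Cov.CovD where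
  P := 3
  N := 6
  pl := [2, 9, 10]
  lev := [⟨[], [], [(0, 0), (0, 1)], [7], [(0, 0, []), (1, 0, []), (3, 1, [])]⟩,
    ⟨[], [(0, 0)], [(0, 0), (0, 2)], [], [(0, 0, []), (1, 0, []), (4, 2, [4, 5, 6])]⟩,
    ⟨[], [(0, 0), (1, 0), (1, 1), (1, 2), (1, 4), (1, 5), (1, 6)], [(0, 1), (0, 4), (0, 5),
      (0, 6), (1, 4), (1, 5), (1, 6), (4, 5), (4, 6), (5, 6)], [], [(1, 0, []), (5, 4, [2]),
      (6, 5, [2]), (7, 1, []), (8, 6, [2])]⟩,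
    ⟨[(1, 2)], [(0, 1), (1, 0), (1, 1), (1, 2), (2, 0), (2, 1), (2, 2), (2, 4), (2, 5), (2,
      6)], [(1, 1), (1, 2)], [3], [(3, 1, []), (4, 2, [4, 5, 6]), (7, 1, [])]⟩,
    ⟨[(0, 1), (1, 2), (1, 3)], [(0, 0), (0, 1), (1, 0), (1, 2), (2, 0)], [(0, 0)], [], [(0,
      0, []), (1, 0, [])]⟩,
    ⟨[(1, 3), (2, 3)], [(2, 1), (3, 1), (3, 2)], [], [3, 8], [(7, 1, [])]⟩]
  Ta := [((0, 3), 0, 1), ((0, 4), 0, 2), ((1, 2), 0, 7), ((1, 6), 0, 5), ((3, 0), 1, 0), ((3, 2),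
    1, 7), ((3, 4), 1, 2), ((3, 9), 1, 3), ((7, 8), 1, 6), ((7, 10), 1, 8)]
  Tb := [((0, 3, 4), 0, 1, 2), ((1, 2, 6), 0, 7, 5), ((2, 1, 3), 7, 0, 1), ((3, 0, 2), 1, 0, 7),
    ((3, 0, 4), 1, 0, 2), ((3, 0, 9), 1, 0, 3), ((3, 2, 4), 1, 7, 2), ((3, 2, 9), 1, 7, 3),
    ((3, 4, 9), 1, 2, 3), ((4, 0, 3), 2, 0, 1), ((5, 6, 8), 4, 5, 6), ((6, 1, 5), 5, 0, 4),
    ((7, 8, 10), 1, 6, 8), ((8, 5, 7), 6, 4, 1), ((9, 3, 10), 3, 1, 8), ((10, 7, 9), 8, 1,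
    3)]
  Tc := [(2, 4, 5), (2, 4, 6), (2, 5, 6)]
  Td := [((2, 4), (4, 0), 0), ((2, 4), (4, 3), 1), ((2, 5), (4, 0), 0), ((2, 5), (4, 3), 1), ((2,
    6), (4, 0), 0), ((2, 6), (4, 3), 1), ((4, 2), (5, 6), 5), ((4, 2), (5, 8), 6), ((5, 2),
    (6, 1), 0), ((5, 2), (6, 5), 4), ((6, 2), (8, 5), 4), ((6, 2), (8, 7), 1)]
  G := [[0, 0x1812c241418c286, 0x9422c146832c14c, 0xc454924c852924c, 0x64a49482454948c], [0, 0,
    0x9458c122, 0, 0xc4549422], [0, 0, 0, 0xc852924c298528c, 0x22529486232948c], [0, 0, 0, 0,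
    0xc4589422]]

noncomputable def n3774 : Ent := ⟨e3774, noF, [], [], []⟩

def c3774 : PLift (Cov.check n3774.C.D v3774 = true) := ⟨by decide +kernel⟩

def b3774 : PLift (entF (fidx ts) 400 3774 n3774 = true) := ⟨by decide +kernel⟩

theorem g3774 : GoodF (fidx ts) 400 3774 := GoodF.ofV v3774 n3774 c3774.down b3774.down

/-- 567744:2774/2 -/
noncomputable def e3775 : SCfg where
  D := {
    a := 6
    L := 11
    kp := 8
    inn := [(0, 4), (1, 2), (1, 3), (1, 4), (2, 1), (2, 3), (3, 1), (3, 2), (3, 5), (4, 0), (4, 1), (5,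
      3)]
    mix := [(0, 0), (0, 1), (0, 2), (0, 3), (1, 0), (1, 1), (1, 4), (2, 1), (2, 5), (2, 6), (2, 7), (2,
      8), (3, 4), (3, 7), (3, 9), (3, 10), (4, 0), (4, 1), (5, 3), (5, 7), (5, 10)]
    cl := [0, 0, 8, 2, 1, 5, 6, 3, 7, 3, 4]
    chq := [(1, 5), (1, 6), (1, 7), (5, 1), (6, 1), (7, 1)]
    rng := [(0, 3), (0, 4), (1, 2), (1, 6), (2, 1), (2, 3), (3, 0), (3, 2), (3, 7), (3, 10), (4, 0),
      (4, 9), (5, 6), (5, 8), (6, 1), (6, 5), (7, 3), (7, 8), (8, 5), (8, 7), (9, 4), (9, 10),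
      (10, 3), (10, 9)]
    lev := [] }
  links := [[6, 4, 7, 8, 9], [2, 7, 4, 6, 10, 3], [11, 12, 7, 1, 3, 13, 14], [13, 2, 1, 10, 15, 16, 5],
    [7, 0, 6, 1], [3, 16, 9, 13]]
  P := {
    a := 6
    N := 17
    nb := [976, 1244, 30858, 107558, 195, 74248, 1555, 4375, 641, 74081, 32842, 20484, 2180, 16940,
      10244, 66568, 33320]
    tri := [(0, 4, 6), (0, 4, 7), (0, 6, 9), (0, 7, 8), (0, 8, 9), (1, 2, 3), (1, 2, 7), (1, 3, 10),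
      (1, 4, 6), (1, 4, 7), (1, 6, 10), (2, 3, 13), (2, 7, 12), (2, 11, 12), (2, 11, 14), (2, 13,
      14), (3, 5, 13), (3, 5, 16), (3, 10, 15), (3, 15, 16), (5, 9, 13), (5, 9, 16)]
    fin := [0, 1, 1, 3, 0, 3, 0, 0, 8, 9, 1, 11, 12, 3, 14, 3, 16]
    chd := [(1, 11), (1, 12), (1, 14)]
    steps := [(0, 4), (0, 6), (0, 7), (1, 2), (1, 10), (3, 5), (3, 15), (3, 13)] }
  rep := [0, 1, 9, 3, 16, 11, 12, 14, 8]

noncomputable def v3775 : Cov.CovD where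
  P := 3
  N := 6
  pl := [2, 3, 10]
  lev := [⟨[], [], [(0, 0)], [2, 8], [(0, 0, []), (1, 0, [])]⟩,
    ⟨[], [(0, 0)], [(0, 0), (0, 1)], [], [(0, 0, []), (1, 0, []), (4, 1, [5, 6, 7])]⟩,
    ⟨[], [(0, 0), (1, 0), (1, 1), (1, 3), (1, 5), (1, 6), (1, 7)], [(0, 3), (0, 5), (0, 6),
      (0, 7), (3, 5), (3, 6), (3, 7), (5, 6), (5, 7), (6, 7)], [], [(1, 0, []), (5, 5, [1]),
      (6, 6, [1]), (7, 3, []), (8, 7, [1])]⟩,
    ⟨[(1, 2)], [(1, 0), (1, 1), (1, 3), (2, 0), (2, 1), (2, 3), (2, 5), (2, 6), (2, 7)],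
      [(1, 3), (3, 3)], [4], [(4, 1, [5, 6, 7]), (7, 3, []), (9, 3, [])]⟩,
    ⟨[(0, 1), (1, 2), (1, 3)], [(0, 0), (1, 0), (1, 1), (2, 0)], [(0, 0)], [], [(0, 0, []),
      (1, 0, [])]⟩,
    ⟨[(1, 3), (2, 3)], [(2, 3), (3, 1), (3, 3)], [], [2, 4], [(7, 3, [])]⟩]
  Ta := [((0, 3), 0, 2), ((0, 4), 0, 1), ((1, 2), 0, 8), ((1, 6), 0, 6), ((7, 3), 3, 2), ((7, 8),
    3, 7), ((9, 4), 3, 1), ((9, 10), 3, 4)]
  Tb := [((0, 3, 4), 0, 2, 1), ((1, 2, 6), 0, 8, 6), ((2, 1, 3), 8, 0, 2), ((3, 0, 2), 2, 0, 8),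
    ((3, 0, 7), 2, 0, 3), ((3, 0, 10), 2, 0, 4), ((3, 2, 7), 2, 8, 3), ((3, 2, 10), 2, 8, 4),
    ((3, 7, 10), 2, 3, 4), ((4, 0, 9), 1, 0, 3), ((5, 6, 8), 5, 6, 7), ((6, 1, 5), 6, 0, 5),
    ((7, 3, 8), 3, 2, 7), ((8, 5, 7), 7, 5, 3), ((9, 4, 10), 3, 1, 4), ((10, 3, 9), 4, 2, 3)]
  Tc := [(1, 5, 6), (1, 5, 7), (1, 6, 7)]
  Td := [((1, 5), (4, 0), 0), ((1, 5), (4, 9), 3), ((1, 6), (4, 0), 0), ((1, 6), (4, 9), 3), ((1,
    7), (4, 0), 0), ((1, 7), (4, 9), 3), ((5, 1), (5, 6), 6), ((5, 1), (5, 8), 7), ((6, 1),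
    (6, 1), 0), ((6, 1), (6, 5), 5), ((7, 1), (8, 5), 5), ((7, 1), (8, 7), 3)]
  G := [[0, 0x884418e12124294e18c, 0xe2124e81246, 0x4242881892c4214528882cc,
    0x842814d24842218d24a], [0, 0x188858e14124258e12c, 0xc2124c8124a,
    0x829218d244842881892cc, 0x842814d24129888d28a], [0, 0, 0, 0x4214528482c4412528882cc,
    0x882214d24842214d24a], [0, 0, 0, 0x4414528482c4242881292cc, 0x229212d2814a214d28a]]

noncomputable def n3775 : Ent := ⟨e3775, noF, [], [], []⟩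

def c3775 : PLift (Cov.check n3775.C.D v3775 = true) := ⟨by decide +kernel⟩

def b3775 : PLift (entF (fidx ts) 400 3775 n3775 = true) := ⟨by decide +kernel⟩

theorem g3775 : GoodF (fidx ts) 400 3775 := GoodF.ofV v3775 n3775 c3775.down b3775.down

/-- 567744:2774/3 -/
noncomputable def e3776 : SCfg where
  D := {
    a := 6
    L := 11
    kp := 8
    inn := [(0, 4), (1, 2), (1, 3), (1, 4), (2, 1), (2, 3), (3, 1), (3, 2), (3, 5), (4, 0), (4, 1), (5,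
      3)]
    mix := [(0, 0), (0, 1), (0, 2), (0, 3), (1, 0), (1, 1), (1, 4), (2, 1), (2, 2), (2, 5), (2, 6), (2,
      7), (3, 4), (3, 6), (3, 8), (3, 9), (4, 0), (4, 1), (5, 6), (5, 9), (5, 10)]
    cl := [0, 0, 2, 7, 1, 5, 3, 6, 3, 4, 8]
    chq := [(1, 2), (1, 5), (1, 6), (2, 1), (5, 1), (6, 1)]
    rng := [(0, 3), (0, 4), (1, 2), (2, 1), (2, 3), (2, 5), (3, 0), (3, 2), (4, 0), (4, 8), (5, 2), (5,
      7), (6, 7), (6, 10), (7, 5), (7, 6), (8, 4), (8, 9), (9, 8), (9, 10), (10, 6), (10, 9)]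
    lev := [] }
  links := [[6, 4, 7, 8, 9], [2, 7, 4, 6, 10, 3], [11, 8, 7, 1, 3, 12, 13], [12, 2, 1, 10, 14, 15, 5],
    [7, 0, 6, 1], [3, 15, 16, 12]]
  P := {
    a := 6
    N := 17
    nb := [976, 1244, 14730, 54310, 195, 102408, 1555, 279, 2693, 321, 16458, 8452, 73772, 6148,
      33800, 81960, 36896]
    tri := [(0, 4, 6), (0, 4, 7), (0, 6, 9), (0, 7, 8), (0, 8, 9), (1, 2, 3), (1, 2, 7), (1, 3, 10),
      (1, 4, 6), (1, 4, 7), (1, 6, 10), (2, 3, 12), (2, 7, 8), (2, 8, 11), (2, 11, 13), (2, 12,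
      13), (3, 5, 12), (3, 5, 15), (3, 10, 14), (3, 14, 15), (5, 12, 16), (5, 15, 16)]
    fin := [0, 1, 1, 3, 0, 3, 0, 0, 8, 9, 1, 11, 3, 13, 3, 15, 16]
    chd := [(1, 11), (1, 13), (8, 1)]
    steps := [(0, 4), (0, 6), (0, 7), (1, 2), (1, 10), (3, 5), (3, 14), (3, 12)] }
  rep := [0, 1, 8, 3, 15, 11, 13, 9, 16]

noncomputable def v3776 : Cov.CovD where
  P := 3
  N := 6
  pl := [3, 9, 10]
  lev := [⟨[], [], [(0, 0), (0, 2)], [7], [(0, 0, []), (1, 0, []), (2, 2, [1])]⟩,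
    ⟨[], [(0, 0)], [(0, 0), (0, 1)], [], [(0, 0, []), (1, 0, []), (4, 1, [2, 5, 6])]⟩,
    ⟨[], [(0, 0), (0, 2), (1, 0), (1, 1), (1, 2), (1, 3), (1, 5), (1, 6)], [(0, 2), (0, 3),
      (0, 5), (0, 6), (2, 3), (2, 5), (2, 6), (3, 5), (3, 6), (5, 6)], [], [(1, 0, []), (2,
      2, [1]), (5, 5, [1]), (6, 3, []), (7, 6, [1])]⟩,
    ⟨[(1, 2)], [(1, 0), (1, 1), (1, 3), (2, 0), (2, 1), (2, 2), (2, 3), (2, 5), (2, 6)],
      [(1, 3), (3, 3)], [4], [(4, 1, [2, 5, 6]), (6, 3, []), (8, 3, [])]⟩,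
    ⟨[(0, 1), (1, 2), (1, 3)], [(0, 0), (0, 2), (1, 0), (1, 1), (2, 0)], [(0, 0)], [], [(0,
      0, []), (1, 0, [])]⟩,
    ⟨[(1, 3), (2, 3)], [(2, 3), (3, 1), (3, 3)], [], [4, 8], [(6, 3, [])]⟩]
  Ta := [((0, 3), 0, 7), ((0, 4), 0, 1), ((1, 2), 0, 2), ((6, 7), 3, 6), ((6, 10), 3, 8), ((8,
    4), 3, 1), ((8, 9), 3, 4)]
  Tb := [((0, 3, 4), 0, 7, 1), ((2, 1, 3), 2, 0, 7), ((2, 1, 5), 2, 0, 5), ((2, 3, 5), 2, 7, 5),
    ((3, 0, 2), 7, 0, 2), ((4, 0, 8), 1, 0, 3), ((5, 2, 7), 5, 2, 6), ((6, 7, 10), 3, 6, 8),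
    ((7, 5, 6), 6, 5, 3), ((8, 4, 9), 3, 1, 4), ((9, 8, 10), 4, 3, 8), ((10, 6, 9), 8, 3, 4)]
  Tc := [(1, 2, 5), (1, 2, 6), (1, 5, 6)]
  Td := [((1, 2), (4, 0), 0), ((1, 2), (4, 8), 3), ((1, 5), (4, 0), 0), ((1, 5), (4, 8), 3), ((1,
    6), (4, 0), 0), ((1, 6), (4, 8), 3), ((2, 1), (2, 1), 0), ((2, 1), (2, 3), 7), ((2, 1),
    (2, 5), 5), ((5, 1), (5, 2), 2), ((5, 1), (5, 7), 6), ((6, 1), (7, 5), 5), ((6, 1), (7,
    6), 3)]
  G := [[0, 0x5432619281c54419232a1cc, 0, 0x6242a83892c6242a83292cc,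
    0x623452a282c246238d28882ca], [0, 0x94a2c2e14645232e18c, 0, 0x549838d24529238d24c,
    0xe29272d2454e4b4d28a], [0, 0, 0x623452a282c6842a43292ca, 0x623452a882c683852a282cc,
    0x226432d28282c643452a282ca], [0, 0, 0xd49272d245498c2d28c, 0x589238d24546238d28c,
    0x52d4b4d285498c2d24a]]

noncomputable def n3776 : Ent := ⟨e3776, noF, [], [], []⟩

def c3776 : PLift (Cov.check n3776.C.D v3776 = true) := ⟨by decide +kernel⟩

def b3776 : PLift (entF (fidx ts) 400 3776 n3776 = true) := ⟨by decide +kernel⟩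

theorem g3776 : GoodF (fidx ts) 400 3776 := GoodF.ofV v3776 n3776 c3776.down b3776.down

/-- 567744:2774 -/
noncomputable def e3777 : SCfg where
  D := {
    a := 6
    L := 12
    kp := 9
    inn := [(0, 4), (1, 2), (1, 3), (1, 4), (2, 1), (2, 3), (3, 1), (3, 2), (3, 5), (4, 0), (4, 1), (5,
      3)]
    mix := [(0, 0), (0, 1), (0, 2), (0, 3), (1, 0), (1, 1), (1, 4), (2, 1), (2, 5), (2, 6), (2, 7), (2,
      8), (3, 4), (3, 7), (3, 9), (3, 10), (4, 0), (4, 1), (5, 7), (5, 10), (5, 11)]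
    cl := [0, 0, 7, 8, 2, 4, 5, 1, 6, 1, 3, 9]
    chq := [(2, 4), (2, 5), (2, 6), (4, 2), (5, 2), (6, 2)]
    rng := [(0, 3), (0, 4), (1, 2), (1, 6), (2, 1), (2, 3), (3, 0), (3, 2), (4, 0), (4, 9), (5, 6), (5,
      8), (6, 1), (6, 5), (7, 8), (7, 11), (8, 5), (8, 7), (9, 4), (9, 10), (10, 9), (10, 11),
      (11, 7), (11, 10)]
    lev := [] }
  links := [[6, 4, 7, 8, 9], [2, 7, 4, 6, 10, 3], [11, 12, 7, 1, 3, 13, 14], [13, 2, 1, 10, 15, 16, 5],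
    [7, 0, 6, 1], [3, 16, 17, 13]]
  P := {
    a := 6
    N := 18
    nb := [976, 1244, 30858, 107558, 195, 204808, 1555, 4375, 641, 321, 32842, 20484, 2180, 147500,
      10244, 66568, 163880, 73760]
    tri := [(0, 4, 6), (0, 4, 7), (0, 6, 9), (0, 7, 8), (0, 8, 9), (1, 2, 3), (1, 2, 7), (1, 3, 10),
      (1, 4, 6), (1, 4, 7), (1, 6, 10), (2, 3, 13), (2, 7, 12), (2, 11, 12), (2, 11, 14), (2, 13,
      14), (3, 5, 13), (3, 5, 16), (3, 10, 15), (3, 15, 16), (5, 13, 17), (5, 16, 17)]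
    fin := [0, 1, 1, 3, 0, 3, 0, 0, 8, 9, 1, 11, 12, 3, 14, 3, 16, 17]
    chd := [(1, 11), (1, 12), (1, 14)]
    steps := [(0, 4), (0, 6), (0, 7), (1, 2), (1, 10), (3, 5), (3, 15), (3, 13)] }
  rep := [0, 3, 1, 16, 11, 12, 14, 8, 9, 17]

noncomputable def v3777 : Cov.CovD where
  P := 3
  N := 7
  pl := [2, 3, 10, 11]
  lev := [⟨[], [], [(0, 0)], [7, 8], [(0, 0, []), (1, 0, [])]⟩,
    ⟨[], [(0, 0)], [(0, 0), (0, 2)], [], [(0, 0, []), (1, 0, []), (4, 2, [4, 5, 6])]⟩,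
    ⟨[], [(0, 0), (1, 0), (1, 1), (1, 2), (1, 4), (1, 5), (1, 6)], [(0, 1), (0, 4), (0, 5),
      (0, 6), (1, 4), (1, 5), (1, 6), (4, 5), (4, 6), (5, 6)], [], [(1, 0, []), (5, 4, [2]),
      (6, 5, [2]), (7, 1, []), (8, 6, [2])]⟩,
    ⟨[(1, 2)], [(1, 0), (1, 1), (1, 2), (2, 0), (2, 1), (2, 2), (2, 4), (2, 5), (2, 6)],
      [(1, 1), (1, 2)], [3], [(4, 2, [4, 5, 6]), (7, 1, []), (9, 1, [])]⟩,
    ⟨[(0, 1), (1, 2), (1, 3)], [(0, 0), (1, 0), (1, 2), (2, 0)], [(0, 0)], [], [(0, 0, []),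
      (1, 0, [])]⟩,
    ⟨[(1, 3), (2, 3)], [(2, 1), (3, 1), (3, 2)], [], [3, 9], [(7, 1, [])]⟩]
  Ta := [((0, 3), 0, 8), ((0, 4), 0, 2), ((1, 2), 0, 7), ((1, 6), 0, 5), ((7, 8), 1, 6), ((7,
    11), 1, 9), ((9, 4), 1, 2), ((9, 10), 1, 3)]
  Tb := [((0, 3, 4), 0, 8, 2), ((1, 2, 6), 0, 7, 5), ((2, 1, 3), 7, 0, 8), ((3, 0, 2), 8, 0, 7),
    ((4, 0, 9), 2, 0, 1), ((5, 6, 8), 4, 5, 6), ((6, 1, 5), 5, 0, 4), ((7, 8, 11), 1, 6, 9),
    ((8, 5, 7), 6, 4, 1), ((9, 4, 10), 1, 2, 3), ((10, 9, 11), 3, 1, 9), ((11, 7, 10), 9, 1,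
    3)]
  Tc := [(2, 4, 5), (2, 4, 6), (2, 5, 6)]
  Td := [((2, 4), (4, 0), 0), ((2, 4), (4, 9), 1), ((2, 5), (4, 0), 0), ((2, 5), (4, 9), 1), ((2,
    6), (4, 0), 0), ((2, 6), (4, 9), 1), ((4, 2), (5, 6), 5), ((4, 2), (5, 8), 6), ((5, 2),
    (6, 1), 0), ((5, 2), (6, 5), 4), ((6, 2), (8, 5), 4), ((6, 2), (8, 7), 1)]
  G := [[0, 0x6442a482c2464c28882c6442a282ce, 0x52419281c9854c129454c12e, 0,
    0xc2549424252948284ac858942e], [0, 0xa412c241464c289832c24e, 0x2452c1834a2c182858c12e,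
    0xc292528c858924c892528e, 0xb82294228549422458948e], [0,
    0x6242a482c4842a822c2c6242a482ce, 0, 0, 0xc454942c252942c454942e], [0,
    0x14d2c2812b8c281268c28e, 0, 0xc854924c898528c454924e, 0x72229483268948c828942e]]

noncomputable def n3777 : Ent := ⟨e3777, noF, [], [], [(15, 9, [7334790850167413569773436137909850376687013109418699723294111055994881, 0]), (17, 9, [6903326391201334775872066023091343012537746186634086559781921992994817, 0]), (12, 8, [7334790875884700912148207959451244882215050778946579936987846768590849, 0])]⟩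

def c3777 : PLift (Cov.check n3777.C.D v3777 = true) := ⟨by decide +kernel⟩

def b3777 : PLift (entF (fidx ts) 400 3777 n3777 = true) := ⟨by decide +kernel⟩

theorem g3777 : GoodF (fidx ts) 400 3777 := GoodF.ofV v3777 n3777 c3777.down b3777.down

/-- 8566744:2775/2 -/
noncomputable def e3778 : SCfg where
  D := {
    a := 7
    L := 10
    kp := 7
    inn := [(0, 1), (0, 2), (0, 3), (0, 5), (1, 0), (1, 4), (1, 5), (2, 0), (2, 4), (2, 5), (3, 0), (3,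
      6), (4, 1), (4, 2), (4, 5), (5, 0), (5, 1), (5, 2), (5, 4), (6, 3)]
    mix := [(0, 0), (0, 1), (0, 2), (0, 3), (1, 3), (1, 4), (2, 0), (2, 5), (2, 6), (3, 0), (3, 1), (3,
      7), (3, 8), (4, 4), (4, 5), (4, 8), (4, 9), (6, 4), (6, 7), (6, 8)]
    cl := [1, 1, 6, 2, 0, 0, 5, 4, 3, 7]
    chq := [(0, 1), (1, 0), (1, 2), (2, 1), (2, 5), (5, 2)]
    rng := [(0, 6), (0, 7), (1, 2), (1, 8), (2, 1), (2, 3), (3, 2), (3, 4), (4, 3), (4, 7), (4, 8), (5,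
      6), (5, 9), (6, 0), (6, 5), (7, 0), (7, 4), (8, 1), (8, 4), (8, 9), (9, 5), (9, 8)]
    lev := [] }
  links := [[1, 5, 2, 7, 3, 8, 9, 10], [4, 5, 0, 10, 11], [7, 0, 5, 4, 12, 13], [8, 0, 7, 14, 6, 15],
    [12, 2, 5, 1, 11, 15, 16], [0, 1, 4, 2], [3, 14, 11, 15]]
  P := {
    a := 7
    N := 17
    nb := [1966, 3121, 12465, 49601, 104486, 23, 51208, 24589, 33289, 1281, 2563, 50258, 73748, 4228,
      2248, 67928, 36880]
    tri := [(0, 1, 5), (0, 1, 10), (0, 2, 5), (0, 2, 7), (0, 3, 7), (0, 3, 8), (0, 8, 9), (0, 9, 10),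
      (1, 4, 5), (1, 4, 11), (1, 10, 11), (2, 4, 5), (2, 4, 12), (2, 7, 13), (2, 12, 13), (3, 6,
      14), (3, 6, 15), (3, 7, 14), (3, 8, 15), (4, 11, 15), (4, 12, 16), (4, 15, 16), (6, 11, 14),
      (6, 11, 15)]
    fin := [0, 1, 1, 0, 4, 1, 0, 0, 0, 9, 1, 4, 4, 13, 14, 15, 16]
    chd := [(0, 1), (0, 4), (1, 13)]
    steps := [(0, 3), (0, 6), (0, 7), (0, 8), (1, 5), (1, 2), (1, 10), (4, 11), (4, 12)] }
  rep := [4, 0, 1, 15, 14, 13, 9, 16]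

noncomputable def v3778 : Cov.CovD where
  P := 3
  N := 5
  pl := [2, 7, 8, 9]
  lev := [⟨[], [], [(1, 1), (1, 2)], [6], [(0, 1, [0, 2]), (1, 1, [0, 2]), (3, 2, [1, 5])]⟩,
    ⟨[], [(0, 0), (0, 1), (0, 2)], [(0, 2)], [], [(3, 2, [1, 5]), (4, 0, [1])]⟩,
    ⟨[(0, 1)], [(0, 0), (0, 1), (0, 2), (0, 5)], [(0, 1), (0, 5), (1, 5)], [], [(0, 1, [0,
      2]), (5, 0, [1]), (6, 5, [2])]⟩,
    ⟨[(0, 1), (0, 2)], [(0, 1), (0, 2), (2, 1)], [(1, 1)], [3, 4], [(0, 1, [0, 2]), (1, 1,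
      [0, 2])]⟩,
    ⟨[(0, 1), (0, 2), (1, 2)], [(1, 0), (1, 2), (2, 0), (2, 1), (2, 5)], [(0, 0)], [3, 7],
      [(4, 0, [1]), (5, 0, [1])]⟩,
    ⟨[(0, 1), (0, 2), (0, 3), (0, 4), (1, 2), (1, 4), (2, 4)], [(0, 1), (0, 2), (1, 0), (1,
      2), (2, 0), (2, 1), (2, 5), (4, 0)], [], [], []⟩,
    ⟨[(0, 3)], [(1, 0), (3, 0), (3, 1), (4, 0)], [], [3, 4], [(4, 0, [1])]⟩]
  Ta := [((0, 6), 1, 5), ((0, 7), 1, 4), ((1, 2), 1, 6), ((1, 8), 1, 3), ((4, 3), 0, 2), ((4, 7),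
    0, 4), ((4, 8), 0, 3), ((5, 6), 0, 5), ((5, 9), 0, 7)]
  Tb := [((0, 6, 7), 1, 5, 4), ((1, 2, 8), 1, 6, 3), ((2, 1, 3), 6, 1, 2), ((3, 2, 4), 2, 6, 0),
    ((4, 3, 7), 0, 2, 4), ((4, 3, 8), 0, 2, 3), ((4, 7, 8), 0, 4, 3), ((5, 6, 9), 0, 5, 7),
    ((6, 0, 5), 5, 1, 0), ((7, 0, 4), 4, 1, 0), ((8, 1, 4), 3, 1, 0), ((8, 1, 9), 3, 1, 7),
    ((8, 4, 9), 3, 0, 7), ((9, 5, 8), 7, 0, 3)]
  Tc := [(1, 0, 2), (2, 1, 5)]
  Td := [((0, 1), (4, 3), 2), ((0, 1), (4, 7), 4), ((0, 1), (4, 8), 3), ((0, 1), (5, 6), 5), ((0,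
    1), (5, 9), 7), ((1, 0), (0, 6), 5), ((1, 0), (0, 7), 4), ((1, 0), (1, 2), 6), ((1, 0),
    (1, 8), 3), ((1, 2), (0, 6), 5), ((1, 2), (0, 7), 4), ((1, 2), (1, 2), 6), ((1, 2), (1,
    8), 3), ((2, 1), (3, 2), 6), ((2, 1), (3, 4), 0), ((2, 5), (3, 2), 6), ((2, 5), (3, 4),
    0), ((5, 2), (6, 0), 1), ((5, 2), (6, 5), 0)]
  G := [[0, 0x1122111114e114141e142828ee641222148184e111811e241814eea8112142c88e,
    0xa264e8e112a268e4e118c, 0x2222a48286242224ed142424a22226242222ed18c,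
    0x2424a48446a222a8ed1241428458888a41416282228edc29], [0,
    0x44211261128141114e411814e141114eee4112112122e118888e111818e141118eea8c,
    0xe4e822e114e4e222e118c, 0x42246412424a222824e91c2484a22226222222ed18c,
    0x6221ae228a948286a445528181a212282d48464a8c5629], [0,
    0x2222111111e444848e241824ee642222141181e111111e211824ee68842142c88e, 0,
    0x222128212421c1e8282128212828c1e45, 0xa262e8e141624181a868e8e142d], [0,
    0x2122141114e111818e212114eea41222141881e111811e141821eea8842112c88e, 0,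
    0x282128212828c1e1222124212424c1e85, 0x2821e4e4c162e828a1e841629]]

noncomputable def n3778 : Ent := ⟨e3778, noF, [], [], []⟩

def c3778 : PLift (Cov.check n3778.C.D v3778 = true) := ⟨by decide +kernel⟩

def b3778 : PLift (entF (fidx ts) 400 3778 n3778 = true) := ⟨by decide +kernel⟩

theorem g3778 : GoodF (fidx ts) 400 3778 := GoodF.ofV v3778 n3778 c3778.down b3778.down

/-- 8566744:2775/1 -/
noncomputable def e3779 : SCfg where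
  D := {
    a := 7
    L := 11
    kp := 8
    inn := [(0, 1), (0, 2), (0, 3), (0, 5), (1, 0), (1, 4), (1, 5), (2, 0), (2, 4), (2, 5), (3, 0), (3,
      6), (4, 1), (4, 2), (4, 5), (5, 0), (5, 1), (5, 2), (5, 4), (6, 3)]
    mix := [(0, 0), (0, 1), (0, 2), (0, 3), (1, 3), (1, 4), (2, 0), (2, 5), (2, 6), (3, 0), (3, 1), (3,
      7), (3, 8), (4, 4), (4, 5), (4, 9), (4, 10), (6, 4), (6, 7), (6, 8)]
    cl := [1, 1, 6, 2, 0, 0, 5, 3, 4, 7, 8]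
    chq := [(0, 1), (1, 0), (1, 2), (2, 1), (2, 5), (5, 2)]
    rng := [(0, 6), (0, 7), (1, 2), (1, 8), (2, 1), (2, 3), (3, 2), (3, 4), (4, 3), (4, 7), (4, 8), (4,
      9), (5, 6), (5, 10), (6, 0), (6, 5), (7, 0), (7, 4), (8, 1), (8, 4), (9, 4), (9, 10), (10,
      5), (10, 9)]
    lev := [] }
  links := [[1, 5, 2, 7, 3, 8, 9, 10], [4, 5, 0, 10, 11], [7, 0, 5, 4, 12, 13], [8, 0, 7, 14, 6, 15],
    [12, 2, 5, 1, 11, 16, 17], [0, 1, 4, 2], [3, 14, 11, 15]]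
  P := {
    a := 7
    N := 18
    nb := [1966, 3121, 12465, 49601, 202790, 23, 51208, 24589, 33289, 1281, 2563, 115794, 139284,
      4228, 2248, 2376, 133136, 69648]
    tri := [(0, 1, 5), (0, 1, 10), (0, 2, 5), (0, 2, 7), (0, 3, 7), (0, 3, 8), (0, 8, 9), (0, 9, 10),
      (1, 4, 5), (1, 4, 11), (1, 10, 11), (2, 4, 5), (2, 4, 12), (2, 7, 13), (2, 12, 13), (3, 6,
      14), (3, 6, 15), (3, 7, 14), (3, 8, 15), (4, 11, 16), (4, 12, 17), (4, 16, 17), (6, 11, 14),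
      (6, 11, 15)]
    fin := [0, 1, 1, 0, 4, 1, 0, 0, 0, 9, 1, 4, 4, 13, 14, 15, 16, 17]
    chd := [(0, 1), (0, 4), (1, 13)]
    steps := [(0, 3), (0, 6), (0, 7), (0, 8), (1, 5), (1, 2), (1, 10), (4, 11), (4, 12)] }
  rep := [4, 0, 1, 14, 15, 13, 9, 16, 17]

noncomputable def v3779 : Cov.CovD where
  P := 3
  N := 6
  pl := [2, 7, 8, 9, 10]
  lev := [⟨[], [], [(1, 1), (1, 2)], [6], [(0, 1, [0, 2]), (1, 1, [0, 2]), (3, 2, [1, 5])]⟩,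
    ⟨[], [(0, 0), (0, 1), (0, 2)], [(0, 2)], [], [(3, 2, [1, 5]), (4, 0, [1])]⟩,
    ⟨[(0, 1)], [(0, 0), (0, 1), (0, 2), (0, 5)], [(0, 1), (0, 5), (1, 5)], [], [(0, 1, [0,
      2]), (5, 0, [1]), (6, 5, [2])]⟩,
    ⟨[(0, 1), (0, 2)], [(0, 1), (0, 2), (2, 1)], [(1, 1)], [3, 4], [(0, 1, [0, 2]), (1, 1,
      [0, 2])]⟩,
    ⟨[(0, 1), (0, 2), (1, 2)], [(1, 0), (1, 2), (2, 0), (2, 1), (2, 5)], [(0, 0)], [7, 8],
      [(4, 0, [1]), (5, 0, [1])]⟩,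
    ⟨[(0, 1), (0, 2), (0, 3), (0, 4), (1, 2), (1, 4), (2, 4)], [(0, 1), (0, 2), (1, 0), (1,
      2), (2, 0), (2, 1), (2, 5), (4, 0)], [], [], []⟩,
    ⟨[(0, 3)], [(1, 0), (3, 0), (3, 1), (4, 0)], [], [3, 4], [(4, 0, [1])]⟩]
  Ta := [((0, 6), 1, 5), ((0, 7), 1, 3), ((1, 2), 1, 6), ((1, 8), 1, 4), ((4, 3), 0, 2), ((4, 7),
    0, 3), ((4, 8), 0, 4), ((4, 9), 0, 7), ((5, 6), 0, 5), ((5, 10), 0, 8)]
  Tb := [((0, 6, 7), 1, 5, 3), ((1, 2, 8), 1, 6, 4), ((2, 1, 3), 6, 1, 2), ((3, 2, 4), 2, 6, 0),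
    ((4, 3, 7), 0, 2, 3), ((4, 3, 8), 0, 2, 4), ((4, 3, 9), 0, 2, 7), ((4, 7, 8), 0, 3, 4),
    ((4, 7, 9), 0, 3, 7), ((4, 8, 9), 0, 4, 7), ((5, 6, 10), 0, 5, 8), ((6, 0, 5), 5, 1, 0),
    ((7, 0, 4), 3, 1, 0), ((8, 1, 4), 4, 1, 0), ((9, 4, 10), 7, 0, 8), ((10, 5, 9), 8, 0, 7)]
  Tc := [(1, 0, 2), (2, 1, 5)]
  Td := [((0, 1), (4, 3), 2), ((0, 1), (4, 7), 3), ((0, 1), (4, 8), 4), ((0, 1), (4, 9), 7), ((0,
    1), (5, 6), 5), ((0, 1), (5, 10), 8), ((1, 0), (0, 6), 5), ((1, 0), (0, 7), 3), ((1, 0),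
    (1, 2), 6), ((1, 0), (1, 8), 4), ((1, 2), (0, 6), 5), ((1, 2), (0, 7), 3), ((1, 2), (1,
    2), 6), ((1, 2), (1, 8), 4), ((2, 1), (3, 2), 6), ((2, 1), (3, 4), 0), ((2, 5), (3, 2),
    6), ((2, 5), (3, 4), 0), ((5, 2), (6, 0), 1), ((5, 2), (6, 5), 0)]
  G := [[0, 0x2122141111e114148e241818eea41122118184e111111e112824eea8882482c81e,
    0xe4e8e8e114e4e2e8e118c, 0x222224e444244e222222ed14828222e222222e224d12822a11cc,
    0x242224e424848ea2a2a8ed12824424224d818188e484241e282228edc29], [0,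
    0x1122826111114e111144e112818ee641221126141184e111811e112118eea8882848e,
    0xe4e2e4e114e2e8e8e118c, 0x22226422848e242824ed148424a282222d182121c4141c2428cd24d,
    0x242424e424244ea2a4a4ed128181a4141a2228ad884444244d629], [0,
    0x122222a111111e444114e141824ee64112212a148888e111111e141828eea8482441e, 0,
    0x212121212428c1e4222122212424c1e89, 0xe2e2e2e141e24181e2e2e8e148d], [0,
    0x1122111114e114811e141821ee641822141818e111818e241814ee68812442c48e, 0,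
    0x212122212121c1e4222128212428c1e89, 0xe2e1a1e44162e821e4e4c1689]]

noncomputable def n3779 : Ent := ⟨e3779, noF, [], [], [(15, 16, [7334685537875745012586738086077695515070955365108989538292687709151233, 0])]⟩

def c3779 : PLift (Cov.check n3779.C.D v3779 = true) := ⟨by decide +kernel⟩

def b3779 : PLift (entF (fidx ts) 400 3779 n3779 = true) := ⟨by decide +kernel⟩

theorem g3779 : GoodF (fidx ts) 400 3779 := GoodF.ofV v3779 n3779 c3779.down b3779.down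

/-- 8566744:2775/4 -/
noncomputable def e3780 : SCfg where
  D := {
    a := 7
    L := 10
    kp := 7
    inn := [(0, 1), (0, 2), (0, 3), (0, 5), (1, 0), (1, 4), (1, 5), (2, 0), (2, 4), (2, 5), (3, 0), (3,
      6), (4, 1), (4, 2), (4, 5), (5, 0), (5, 1), (5, 2), (5, 4), (6, 3)]
    mix := [(0, 0), (0, 1), (0, 2), (0, 3), (1, 3), (1, 4), (2, 0), (2, 5), (2, 6), (3, 0), (3, 1), (3,
      7), (3, 8), (4, 4), (4, 5), (4, 8), (4, 9), (6, 7), (6, 8), (6, 9)]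
    cl := [0, 0, 7, 2, 3, 3, 6, 5, 1, 4]
    chq := [(0, 2), (0, 4), (2, 0), (2, 6), (4, 0), (6, 2)]
    rng := [(0, 6), (0, 7), (1, 2), (1, 8), (2, 1), (2, 3), (3, 2), (3, 4), (4, 3), (4, 9), (5, 6), (5,
      8), (6, 0), (6, 5), (7, 0), (7, 9), (8, 1), (8, 5), (8, 9), (9, 4), (9, 7), (9, 8)]
    lev := [] }
  links := [[1, 5, 2, 7, 3, 8, 9, 10], [4, 5, 0, 10, 11], [7, 0, 5, 4, 12, 13], [8, 0, 7, 14, 6, 15],
    [12, 2, 5, 1, 11, 16, 15], [0, 1, 4, 2], [3, 14, 16, 15]]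
  P := {
    a := 7
    N := 17
    nb := [1966, 3121, 12465, 49601, 104486, 23, 114696, 24589, 33289, 1281, 2563, 66578, 40980, 4228,
      65736, 69976, 51280]
    tri := [(0, 1, 5), (0, 1, 10), (0, 2, 5), (0, 2, 7), (0, 3, 7), (0, 3, 8), (0, 8, 9), (0, 9, 10),
      (1, 4, 5), (1, 4, 11), (1, 10, 11), (2, 4, 5), (2, 4, 12), (2, 7, 13), (2, 12, 13), (3, 6,
      14), (3, 6, 15), (3, 7, 14), (3, 8, 15), (4, 11, 16), (4, 12, 15), (4, 15, 16), (6, 14, 16),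
      (6, 15, 16)]
    fin := [0, 1, 1, 0, 4, 1, 0, 0, 0, 9, 1, 4, 4, 13, 14, 15, 16]
    chd := [(0, 1), (0, 16), (1, 13)]
    steps := [(0, 3), (0, 6), (0, 7), (0, 8), (1, 5), (1, 2), (1, 10), (4, 11), (4, 12)] }
  rep := [0, 15, 1, 4, 16, 14, 13, 9]

noncomputable def v3780 : Cov.CovD where
  P := 3
  N := 5
  pl := [2, 7, 8]
  lev := [⟨[], [], [(0, 0), (0, 2)], [7], [(0, 0, [2, 4]), (1, 0, [2, 4]), (3, 2, [0, 6])]⟩,
    ⟨[], [(0, 0), (0, 2), (0, 3)], [(2, 3)], [], [(3, 2, [0, 6]), (4, 3, [])]⟩,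
    ⟨[(0, 1)], [(0, 0), (0, 2), (0, 3), (0, 6)], [(0, 3), (0, 6), (3, 6)], [], [(0, 0, [2,
      4]), (5, 3, []), (6, 6, [2])]⟩,
    ⟨[(0, 1), (0, 2)], [(0, 0), (0, 2), (2, 0)], [(0, 0)], [1, 5], [(0, 0, [2, 4]), (1, 0,
      [2, 4])]⟩,
    ⟨[(0, 1), (0, 2), (1, 2)], [(1, 2), (1, 3), (1, 4), (2, 0), (2, 3), (2, 4), (2, 6)],
      [(3, 3), (3, 4)], [1], [(4, 3, []), (5, 3, []), (9, 4, [0])]⟩,
    ⟨[(0, 1), (0, 2), (0, 3), (0, 4), (1, 2), (1, 4), (2, 4)], [(0, 0), (0, 2), (1, 2), (1,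
      3), (2, 0), (2, 3), (2, 6), (4, 3), (4, 4)], [], [], []⟩,
    ⟨[(0, 3)], [(3, 0), (3, 4), (4, 4)], [], [1, 5], [(9, 4, [0])]⟩]
  Ta := [((0, 6), 0, 6), ((0, 7), 0, 5), ((1, 2), 0, 7), ((1, 8), 0, 1), ((4, 3), 3, 2), ((4, 9),
    3, 4), ((5, 6), 3, 6), ((5, 8), 3, 1)]
  Tb := [((0, 6, 7), 0, 6, 5), ((1, 2, 8), 0, 7, 1), ((2, 1, 3), 7, 0, 2), ((3, 2, 4), 2, 7, 3),
    ((4, 3, 9), 3, 2, 4), ((5, 6, 8), 3, 6, 1), ((6, 0, 5), 6, 0, 3), ((7, 0, 9), 5, 0, 4),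
    ((8, 1, 5), 1, 0, 3), ((8, 1, 9), 1, 0, 4), ((8, 5, 9), 1, 3, 4), ((9, 4, 7), 4, 3, 5),
    ((9, 4, 8), 4, 3, 1), ((9, 7, 8), 4, 5, 1)]
  Tc := [(0, 2, 4), (2, 0, 6)]
  Td := [((0, 2), (0, 6), 6), ((0, 2), (0, 7), 5), ((0, 2), (1, 2), 7), ((0, 2), (1, 8), 1), ((0,
    4), (0, 6), 6), ((0, 4), (0, 7), 5), ((0, 4), (1, 2), 7), ((0, 4), (1, 8), 1), ((2, 0),
    (3, 2), 7), ((2, 0), (3, 4), 3), ((2, 6), (3, 2), 7), ((2, 6), (3, 4), 3), ((4, 0), (9,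
    4), 3), ((4, 0), (9, 7), 5), ((4, 0), (9, 8), 1), ((6, 2), (6, 0), 0), ((6, 2), (6, 5),
    3)]
  G := [[0, 0, 0x141181c22111121c82181181c42e,
    0x1111c9441cc21154941949c258458c1111cc28154518985c29c,
    0x4144125212d9212d8dcc21848224144881898d184158dcc2e], [0, 0,
    0x111444111121c1118141111ce8121141c121141c111111ce8e,
    0x141414d9448d4dc218451d4d111111dc28c,
    0x121252d924298dc144484c61124444c821182d124252dcc8a], [0,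
    0x8244c2ee4a824e61182e8c8e684222ea11c, 0x111111c22141111c82181181c42e,
    0x1111c1118cc21114941189c258418c1118cc21814511185c29c,
    0x121111d114118dc144114c62114184c811111d114158dcc2a], [0,
    0x4242c2e828828e6148488c8e444224ea11c,
    0x1114121181c111121ce4111111c881218181111c111181ce4e,
    0x141414d141418dc21841818d181818dc21c,
    0x111111d111818dc144484c62821112d114211dc114114c68a]]

noncomputable def n3780 : Ent := ⟨e3780, noF, [], [], []⟩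

def c3780 : PLift (Cov.check n3780.C.D v3780 = true) := ⟨by decide +kernel⟩

def b3780 : PLift (entF (fidx ts) 400 3780 n3780 = true) := ⟨by decide +kernel⟩

theorem g3780 : GoodF (fidx ts) 400 3780 := GoodF.ofV v3780 n3780 c3780.down b3780.down

/-- 8566744:2775/3 -/
noncomputable def e3781 : SCfg where
  D := {
    a := 7
    L := 11
    kp := 8
    inn := [(0, 1), (0, 2), (0, 3), (0, 5), (1, 0), (1, 4), (1, 5), (2, 0), (2, 4), (2, 5), (3, 0), (3,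
      6), (4, 1), (4, 2), (4, 5), (5, 0), (5, 1), (5, 2), (5, 4), (6, 3)]
    mix := [(0, 0), (0, 1), (0, 2), (0, 3), (1, 3), (1, 4), (2, 0), (2, 5), (2, 6), (3, 0), (3, 1), (3,
      7), (3, 8), (4, 4), (4, 5), (4, 9), (4, 10), (6, 7), (6, 8), (6, 9)]
    cl := [0, 0, 7, 2, 1, 1, 6, 4, 5, 3, 8]
    chq := [(0, 2), (0, 3), (2, 0), (2, 6), (3, 0), (6, 2)]
    rng := [(0, 6), (0, 7), (1, 2), (1, 8), (2, 1), (2, 3), (3, 2), (3, 4), (4, 3), (4, 9), (5, 6), (5,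
      10), (6, 0), (6, 5), (7, 0), (7, 9), (8, 1), (8, 9), (9, 4), (9, 7), (9, 8), (9, 10), (10,
      5), (10, 9)]
    lev := [] }
  links := [[1, 5, 2, 7, 3, 8, 9, 10], [4, 5, 0, 10, 11], [7, 0, 5, 4, 12, 13], [8, 0, 7, 14, 6, 15],
    [12, 2, 5, 1, 11, 16, 17], [0, 1, 4, 2], [3, 14, 16, 15]]
  P := {
    a := 7
    N := 18
    nb := [1966, 3121, 12465, 49601, 202790, 23, 114696, 24589, 33289, 1281, 2563, 66578, 139284,
      4228, 65736, 65864, 182352, 69648]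
    tri := [(0, 1, 5), (0, 1, 10), (0, 2, 5), (0, 2, 7), (0, 3, 7), (0, 3, 8), (0, 8, 9), (0, 9, 10),
      (1, 4, 5), (1, 4, 11), (1, 10, 11), (2, 4, 5), (2, 4, 12), (2, 7, 13), (2, 12, 13), (3, 6,
      14), (3, 6, 15), (3, 7, 14), (3, 8, 15), (4, 11, 16), (4, 12, 17), (4, 16, 17), (6, 14, 16),
      (6, 15, 16)]
    fin := [0, 1, 1, 0, 4, 1, 0, 0, 0, 9, 1, 4, 4, 13, 14, 15, 16, 17]
    chd := [(0, 1), (0, 16), (1, 13)]
    steps := [(0, 3), (0, 6), (0, 7), (0, 8), (1, 5), (1, 2), (1, 10), (4, 11), (4, 12)] }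
  rep := [0, 4, 1, 16, 14, 15, 13, 9, 17]

noncomputable def v3781 : Cov.CovD where
  P := 3
  N := 6
  pl := [2, 7, 8, 10]
  lev := [⟨[], [], [(0, 0), (0, 2)], [7], [(0, 0, [2, 3]), (1, 0, [2, 3]), (3, 2, [0, 6])]⟩,
    ⟨[], [(0, 0), (0, 1), (0, 2)], [(1, 2)], [], [(3, 2, [0, 6]), (4, 1, [])]⟩,
    ⟨[(0, 1)], [(0, 0), (0, 1), (0, 2), (0, 6)], [(0, 1), (0, 6), (1, 6)], [], [(0, 0, [2,
      3]), (5, 1, []), (6, 6, [2])]⟩,
    ⟨[(0, 1), (0, 2)], [(0, 0), (0, 2), (2, 0)], [(0, 0)], [4, 5], [(0, 0, [2, 3]), (1, 0,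
      [2, 3])]⟩,
    ⟨[(0, 1), (0, 2), (1, 2)], [(1, 1), (1, 2), (1, 3), (2, 0), (2, 1), (2, 3), (2, 6)],
      [(1, 1), (1, 3)], [8], [(4, 1, []), (5, 1, []), (9, 3, [0])]⟩,
    ⟨[(0, 1), (0, 2), (0, 3), (0, 4), (1, 2), (1, 4), (2, 4)], [(0, 0), (0, 2), (1, 1), (1,
      2), (2, 0), (2, 1), (2, 6), (4, 1), (4, 3)], [], [], []⟩,
    ⟨[(0, 3)], [(3, 0), (3, 3), (4, 3)], [], [4, 5], [(9, 3, [0])]⟩]
  Ta := [((0, 6), 0, 6), ((0, 7), 0, 4), ((1, 2), 0, 7), ((1, 8), 0, 5), ((4, 3), 1, 2), ((4, 9),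
    1, 3), ((5, 6), 1, 6), ((5, 10), 1, 8)]
  Tb := [((0, 6, 7), 0, 6, 4), ((1, 2, 8), 0, 7, 5), ((2, 1, 3), 7, 0, 2), ((3, 2, 4), 2, 7, 1),
    ((4, 3, 9), 1, 2, 3), ((5, 6, 10), 1, 6, 8), ((6, 0, 5), 6, 0, 1), ((7, 0, 9), 4, 0, 3),
    ((8, 1, 9), 5, 0, 3), ((9, 4, 7), 3, 1, 4), ((9, 4, 8), 3, 1, 5), ((9, 4, 10), 3, 1, 8),
    ((9, 7, 8), 3, 4, 5), ((9, 7, 10), 3, 4, 8), ((9, 8, 10), 3, 5, 8), ((10, 5, 9), 8, 1,
    3)]
  Tc := [(0, 2, 3), (2, 0, 6)]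
  Td := [((0, 2), (0, 6), 6), ((0, 2), (0, 7), 4), ((0, 2), (1, 2), 7), ((0, 2), (1, 8), 5), ((0,
    3), (0, 6), 6), ((0, 3), (0, 7), 4), ((0, 3), (1, 2), 7), ((0, 3), (1, 8), 5), ((2, 0),
    (3, 2), 7), ((2, 0), (3, 4), 1), ((2, 6), (3, 2), 7), ((2, 6), (3, 4), 1), ((3, 0), (9,
    4), 1), ((3, 0), (9, 7), 4), ((3, 0), (9, 8), 5), ((3, 0), (9, 10), 8), ((6, 2), (6, 0),
    0), ((6, 2), (6, 5), 1)]
  G := [[0, 0x2122113154ed14898eb49828ee6421228458d8e111111e71f124eea8d42112c88e,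
    0x111114811d28215e24141818d111811d14149e288218c1414ca18e,
    0x141111d9441d4d242828de24845851d111191d242121de28c,
    0x111414d9441d8d24b1b4de21114214a2842448138b2d384878d111118dec1e], [0,
    0x2822111114ed141d1eb1b821ee64222281d154e111191e747128eea8912582c44e,
    0x111111111e1414c1414c2428ce52181181141e82141121141e181121141e1218c1242c1414ced8e, 0,
    0x4144111111d9141d1d212828dec2114214a8844448131f2d314838d111118dec8e], [0,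
    0x1122826113111ed448d1eb19824ee6412221268458d4e111818e71f124eea8d42888e,
    0x1411414562141111d1118c148e2c111118d111818d111111de28c,
    0x44d452424562141414d948248e29845154d111191d242124de28c,
    0x9464522143454d914898db18e2982b293278911119e324444184e58a], [0,
    0x2222141454ed44894eb4b428ee61222288d8d4e381818e547828eea1d42112c84e,
    0x141181181e1414c1444c1424ce52111111141e88181111141e111111181e1212c1812c1818ced4e, 0,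
    0x11191d89281e1414c4442428ce5282b293172911189e384484184e58a]]

noncomputable def n3781 : Ent := ⟨e3781, noF, [], [], [(15, 17, [6903326391201334775872065844685381424292761054348340378595029945171969, 0])]⟩

def c3781 : PLift (Cov.check n3781.C.D v3781 = true) := ⟨by decide +kernel⟩

def b3781 : PLift (entF (fidx ts) 400 3781 n3781 = true) := ⟨by decide +kernel⟩

theorem g3781 : GoodF (fidx ts) 400 3781 := GoodF.ofV v3781 n3781 c3781.down b3781.down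

/-- 8566744:2775/6 -/
noncomputable def e3782 : SCfg where
  D := {
    a := 7
    L := 10
    kp := 7
    inn := [(0, 1), (0, 2), (0, 3), (0, 5), (1, 0), (1, 4), (1, 5), (2, 0), (2, 4), (2, 5), (3, 0), (3,
      6), (4, 1), (4, 2), (4, 5), (5, 0), (5, 1), (5, 2), (5, 4), (6, 3)]
    mix := [(0, 0), (0, 1), (0, 2), (0, 3), (1, 3), (1, 4), (2, 0), (2, 5), (2, 6), (3, 0), (3, 1), (3,
      7), (3, 8), (4, 4), (4, 5), (4, 8), (4, 9), (6, 7), (6, 8), (6, 9)]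
    cl := [0, 0, 7, 2, 3, 3, 6, 5, 1, 4]
    chq := [(0, 2), (0, 4), (2, 0), (2, 6), (4, 0), (6, 2)]
    rng := [(0, 6), (0, 7), (1, 2), (1, 8), (2, 1), (2, 3), (3, 2), (3, 4), (4, 3), (4, 8), (5, 6), (5,
      9), (6, 0), (6, 5), (7, 0), (7, 9), (8, 1), (8, 4), (8, 9), (9, 5), (9, 7), (9, 8)]
    lev := [] }
  links := [[1, 5, 2, 7, 3, 8, 9, 10], [4, 5, 0, 10, 11], [7, 0, 5, 4, 12, 13], [8, 0, 7, 14, 6, 15],
    [12, 2, 5, 1, 11, 15, 16], [0, 1, 4, 2], [3, 14, 16, 15]]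
  P := {
    a := 7
    N := 17
    nb := [1966, 3121, 12465, 49601, 104486, 23, 114696, 24589, 33289, 1281, 2563, 33810, 73748, 4228,
      65736, 67928, 53328]
    tri := [(0, 1, 5), (0, 1, 10), (0, 2, 5), (0, 2, 7), (0, 3, 7), (0, 3, 8), (0, 8, 9), (0, 9, 10),
      (1, 4, 5), (1, 4, 11), (1, 10, 11), (2, 4, 5), (2, 4, 12), (2, 7, 13), (2, 12, 13), (3, 6,
      14), (3, 6, 15), (3, 7, 14), (3, 8, 15), (4, 11, 15), (4, 12, 16), (4, 15, 16), (6, 14, 16),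
      (6, 15, 16)]
    fin := [0, 1, 1, 0, 4, 1, 0, 0, 0, 9, 1, 4, 4, 13, 14, 15, 16]
    chd := [(0, 1), (0, 16), (1, 13)]
    steps := [(0, 3), (0, 6), (0, 7), (0, 8), (1, 5), (1, 2), (1, 10), (4, 11), (4, 12)] }
  rep := [0, 15, 1, 4, 16, 14, 13, 9]

noncomputable def v3782 : Cov.CovD where
  P := 3
  N := 5
  pl := [2, 7, 8]
  lev := [⟨[], [], [(0, 0), (0, 2)], [7], [(0, 0, [2, 4]), (1, 0, [2, 4]), (3, 2, [0, 6])]⟩,
    ⟨[], [(0, 0), (0, 2), (0, 3)], [(2, 3)], [], [(3, 2, [0, 6]), (4, 3, [])]⟩,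
    ⟨[(0, 1)], [(0, 0), (0, 2), (0, 3), (0, 6)], [(0, 3), (0, 6), (3, 6)], [], [(0, 0, [2,
      4]), (5, 3, []), (6, 6, [2])]⟩,
    ⟨[(0, 1), (0, 2)], [(0, 0), (0, 2), (2, 0)], [(0, 0)], [1, 5], [(0, 0, [2, 4]), (1, 0,
      [2, 4])]⟩,
    ⟨[(0, 1), (0, 2), (1, 2)], [(1, 2), (1, 3), (1, 4), (2, 0), (2, 3), (2, 4), (2, 6)],
      [(3, 3), (3, 4)], [1], [(4, 3, []), (5, 3, []), (9, 4, [0])]⟩,
    ⟨[(0, 1), (0, 2), (0, 3), (0, 4), (1, 2), (1, 4), (2, 4)], [(0, 0), (0, 2), (1, 2), (1,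
      3), (2, 0), (2, 3), (2, 6), (4, 3), (4, 4)], [], [], []⟩,
    ⟨[(0, 3)], [(3, 0), (3, 4), (4, 4)], [], [1, 5], [(9, 4, [0])]⟩]
  Ta := [((0, 6), 0, 6), ((0, 7), 0, 5), ((1, 2), 0, 7), ((1, 8), 0, 1), ((4, 3), 3, 2), ((4, 8),
    3, 1), ((5, 6), 3, 6), ((5, 9), 3, 4)]
  Tb := [((0, 6, 7), 0, 6, 5), ((1, 2, 8), 0, 7, 1), ((2, 1, 3), 7, 0, 2), ((3, 2, 4), 2, 7, 3),
    ((4, 3, 8), 3, 2, 1), ((5, 6, 9), 3, 6, 4), ((6, 0, 5), 6, 0, 3), ((7, 0, 9), 5, 0, 4),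
    ((8, 1, 4), 1, 0, 3), ((8, 1, 9), 1, 0, 4), ((8, 4, 9), 1, 3, 4), ((9, 5, 7), 4, 3, 5),
    ((9, 5, 8), 4, 3, 1), ((9, 7, 8), 4, 5, 1)]
  Tc := [(0, 2, 4), (2, 0, 6)]
  Td := [((0, 2), (0, 6), 6), ((0, 2), (0, 7), 5), ((0, 2), (1, 2), 7), ((0, 2), (1, 8), 1), ((0,
    4), (0, 6), 6), ((0, 4), (0, 7), 5), ((0, 4), (1, 2), 7), ((0, 4), (1, 8), 1), ((2, 0),
    (3, 2), 7), ((2, 0), (3, 4), 3), ((2, 6), (3, 2), 7), ((2, 6), (3, 4), 3), ((4, 0), (9,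
    5), 3), ((4, 0), (9, 7), 5), ((4, 0), (9, 8), 1), ((6, 2), (6, 0), 0), ((6, 2), (6, 5),
    3)]
  G := [[0, 0, 0x141141c2111181c46111111c4141141c8ca,
    0x1411c9148cc21114914d49c258151c1111cc281d8511185c29c,
    0x44915421111c9142d2dc41112984b1848228111c1241cc44444881925521c4be], [0, 0,
    0x121111c111181c62181111c82111121c121111c181111ce4e,
    0x111111d9141d8dc248458d4d111111dc28c,
    0x121111d924291dc414462514828881282d184818dc144461e], [0,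
    0xc448c2ea2a422e61188e8c4e624224ea11c, 0x111111c2121111c46181181c2141111c8ac,
    0x1411c1448cc21114944189c258111c1118cc21118511185c29c,
    0x414421111c121142dc1148611129121c4b811818d124242dc41414514115c8aa], [0,
    0x4242c2e848422e6118488c2e444824ea11c,
    0x141111c42111121c141181ca2121121c111111c111111ce8e,
    0x111111d114111dc24881814d181818dc21c,
    0x4444121112d111252dcc2184822181282d184818dc144461e]]

noncomputable def n3782 : Ent := ⟨e3782, noF, [], [], []⟩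

def c3782 : PLift (Cov.check n3782.C.D v3782 = true) := ⟨by decide +kernel⟩

def b3782 : PLift (entF (fidx ts) 400 3782 n3782 = true) := ⟨by decide +kernel⟩

theorem g3782 : GoodF (fidx ts) 400 3782 := GoodF.ofV v3782 n3782 c3782.down b3782.down

/-- 8566744:2775/5 -/
noncomputable def e3783 : SCfg where
  D := {
    a := 7
    L := 11
    kp := 8
    inn := [(0, 1), (0, 2), (0, 3), (0, 5), (1, 0), (1, 4), (1, 5), (2, 0), (2, 4), (2, 5), (3, 0), (3,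
      6), (4, 1), (4, 2), (4, 5), (5, 0), (5, 1), (5, 2), (5, 4), (6, 3)]
    mix := [(0, 0), (0, 1), (0, 2), (0, 3), (1, 3), (1, 4), (2, 0), (2, 5), (2, 6), (3, 0), (3, 1), (3,
      7), (3, 8), (4, 4), (4, 5), (4, 9), (4, 10), (6, 7), (6, 8), (6, 10)]
    cl := [0, 0, 7, 2, 1, 1, 6, 4, 5, 8, 3]
    chq := [(0, 2), (0, 3), (2, 0), (2, 6), (3, 0), (6, 2)]
    rng := [(0, 6), (0, 7), (1, 2), (1, 8), (2, 1), (2, 3), (3, 2), (3, 4), (4, 3), (4, 9), (5, 6), (5,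
      10), (6, 0), (6, 5), (7, 0), (7, 10), (8, 1), (8, 10), (9, 4), (9, 10), (10, 5), (10, 7),
      (10, 8), (10, 9)]
    lev := [] }
  links := [[1, 5, 2, 7, 3, 8, 9, 10], [4, 5, 0, 10, 11], [7, 0, 5, 4, 12, 13], [8, 0, 7, 14, 6, 15],
    [12, 2, 5, 1, 11, 16, 17], [0, 1, 4, 2], [3, 14, 17, 15]]
  P := {
    a := 7
    N := 18
    nb := [1966, 3121, 12465, 49601, 202790, 23, 180232, 24589, 33289, 1281, 2563, 66578, 139284,
      4228, 131272, 131400, 133136, 118864]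
    tri := [(0, 1, 5), (0, 1, 10), (0, 2, 5), (0, 2, 7), (0, 3, 7), (0, 3, 8), (0, 8, 9), (0, 9, 10),
      (1, 4, 5), (1, 4, 11), (1, 10, 11), (2, 4, 5), (2, 4, 12), (2, 7, 13), (2, 12, 13), (3, 6,
      14), (3, 6, 15), (3, 7, 14), (3, 8, 15), (4, 11, 16), (4, 12, 17), (4, 16, 17), (6, 14, 17),
      (6, 15, 17)]
    fin := [0, 1, 1, 0, 4, 1, 0, 0, 0, 9, 1, 4, 4, 13, 14, 15, 16, 17]
    chd := [(0, 1), (0, 17), (1, 13)]
    steps := [(0, 3), (0, 6), (0, 7), (0, 8), (1, 5), (1, 2), (1, 10), (4, 11), (4, 12)] }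
  rep := [0, 4, 1, 17, 14, 15, 13, 9, 16]

noncomputable def v3783 : Cov.CovD where
  P := 3
  N := 6
  pl := [2, 7, 8, 9]
  lev := [⟨[], [], [(0, 0), (0, 2)], [7], [(0, 0, [2, 3]), (1, 0, [2, 3]), (3, 2, [0, 6])]⟩,
    ⟨[], [(0, 0), (0, 1), (0, 2)], [(1, 2)], [], [(3, 2, [0, 6]), (4, 1, [])]⟩,
    ⟨[(0, 1)], [(0, 0), (0, 1), (0, 2), (0, 6)], [(0, 1), (0, 6), (1, 6)], [], [(0, 0, [2,
      3]), (5, 1, []), (6, 6, [2])]⟩,
    ⟨[(0, 1), (0, 2)], [(0, 0), (0, 2), (2, 0)], [(0, 0)], [4, 5], [(0, 0, [2, 3]), (1, 0,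
      [2, 3])]⟩,
    ⟨[(0, 1), (0, 2), (1, 2)], [(1, 1), (1, 2), (1, 3), (2, 0), (2, 1), (2, 3), (2, 6)],
      [(1, 1), (1, 3)], [8], [(4, 1, []), (5, 1, []), (10, 3, [0])]⟩,
    ⟨[(0, 1), (0, 2), (0, 3), (0, 4), (1, 2), (1, 4), (2, 4)], [(0, 0), (0, 2), (1, 1), (1,
      2), (2, 0), (2, 1), (2, 6), (4, 1), (4, 3)], [], [], []⟩,
    ⟨[(0, 3)], [(3, 0), (3, 3), (4, 3)], [], [4, 5], [(10, 3, [0])]⟩]
  Ta := [((0, 6), 0, 6), ((0, 7), 0, 4), ((1, 2), 0, 7), ((1, 8), 0, 5), ((4, 3), 1, 2), ((4, 9),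
    1, 8), ((5, 6), 1, 6), ((5, 10), 1, 3)]
  Tb := [((0, 6, 7), 0, 6, 4), ((1, 2, 8), 0, 7, 5), ((2, 1, 3), 7, 0, 2), ((3, 2, 4), 2, 7, 1),
    ((4, 3, 9), 1, 2, 8), ((5, 6, 10), 1, 6, 3), ((6, 0, 5), 6, 0, 1), ((7, 0, 10), 4, 0, 3),
    ((8, 1, 10), 5, 0, 3), ((9, 4, 10), 8, 1, 3), ((10, 5, 7), 3, 1, 4), ((10, 5, 8), 3, 1,
    5), ((10, 5, 9), 3, 1, 8), ((10, 7, 8), 3, 4, 5), ((10, 7, 9), 3, 4, 8), ((10, 8, 9), 3,
    5, 8)]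
  Tc := [(0, 2, 3), (2, 0, 6)]
  Td := [((0, 2), (0, 6), 6), ((0, 2), (0, 7), 4), ((0, 2), (1, 2), 7), ((0, 2), (1, 8), 5), ((0,
    3), (0, 6), 6), ((0, 3), (0, 7), 4), ((0, 3), (1, 2), 7), ((0, 3), (1, 8), 5), ((2, 0),
    (3, 2), 7), ((2, 0), (3, 4), 1), ((2, 6), (3, 2), 7), ((2, 6), (3, 4), 1), ((3, 0), (10,
    5), 1), ((3, 0), (10, 7), 4), ((3, 0), (10, 8), 5), ((3, 0), (10, 9), 8), ((6, 2), (6,
    0), 0), ((6, 2), (6, 5), 1)]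
  G := [[0, 0x512912222e141114e9148d1ef1b124ee64512922212e84d1d8e111111e717828eea8c,
    0x111114d114818d142828de24111811d111811d241814de28c,
    0x141111d9148d4d242128de248851d4d111118d282824de21c,
    0x141414d9148d4d212424de21314414144e8138f2d324231d111111dec8a], [0,
    0x444422222141151e9494af4b821ee6c22228151d1e111811e74f828eea8d82112c44e,
    0x121111c44141111141e111111a1412c1218c1218ced8141121141e14111168412c1244c1418ced8e, 0,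
    0x4244111112db141d2d9121b2dec1124224a8841448232b8d324178d111118dec8e], [0,
    0x2822111151ed44894eb1b824ee64212281f8d4e111811e715828ee68942582c84e,
    0x111114d144814d242121de24841818d111811d242821de28c,
    0x111151d944891d212828de24815158d111891d212828de28c,
    0x141154d914894d242828de21b2131613911119e8238c484184e58a], [0,
    0x522982282e141414ed448d8eb4b424ee619224522282a84d1d1e111111e747824eee8c,
    0x121121111e1412c1442c1218ce54111111241e181281a8412c1218c1418ced8111141111e1214c4e, 0,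
    0x12129d21381e1249448ca4b2ce51b2131729111e8232c4841414ce58a]]

noncomputable def n3783 : Ent := ⟨e3783, noF, [], [], [(15, 16, [7334685537875745012586738086077695515070955365108989538292687709167617, 0])]⟩

def c3783 : PLift (Cov.check n3783.C.D v3783 = true) := ⟨by decide +kernel⟩

def b3783 : PLift (entF (fidx ts) 400 3783 n3783 = true) := ⟨by decide +kernel⟩

theorem g3783 : GoodF (fidx ts) 400 3783 := GoodF.ofV v3783 n3783 c3783.down b3783.down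

/-- 8566744:2775/7 -/
noncomputable def e3784 : SCfg where
  D := {
    a := 7
    L := 11
    kp := 8
    inn := [(0, 1), (0, 2), (0, 3), (0, 5), (1, 0), (1, 4), (1, 5), (2, 0), (2, 4), (2, 5), (3, 0), (3,
      6), (4, 1), (4, 2), (4, 5), (5, 0), (5, 1), (5, 2), (5, 4), (6, 3)]
    mix := [(0, 0), (0, 1), (0, 2), (0, 3), (1, 3), (1, 4), (2, 0), (2, 5), (2, 6), (3, 0), (3, 1), (3,
      7), (3, 8), (4, 4), (4, 5), (4, 8), (4, 9), (6, 7), (6, 8), (6, 10)]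
    cl := [0, 0, 7, 3, 1, 1, 5, 4, 2, 8, 6]
    chq := [(0, 3), (0, 6), (3, 0), (3, 5), (5, 3), (6, 0)]
    rng := [(0, 6), (0, 7), (1, 2), (1, 8), (2, 1), (2, 3), (3, 2), (3, 4), (4, 3), (4, 8), (5, 6), (5,
      9), (6, 0), (6, 5), (7, 0), (7, 10), (8, 1), (8, 4), (8, 9), (8, 10), (9, 5), (9, 8), (10,
      7), (10, 8)]
    lev := [] }
  links := [[1, 5, 2, 7, 3, 8, 9, 10], [4, 5, 0, 10, 11], [7, 0, 5, 4, 12, 13], [8, 0, 7, 14, 6, 15],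
    [12, 2, 5, 1, 11, 15, 16], [0, 1, 4, 2], [3, 14, 17, 15]]
  P := {
    a := 7
    N := 18
    nb := [1966, 3121, 12465, 49601, 104486, 23, 180232, 24589, 33289, 1281, 2563, 33810, 73748, 4228,
      131272, 199000, 36880, 49216]
    tri := [(0, 1, 5), (0, 1, 10), (0, 2, 5), (0, 2, 7), (0, 3, 7), (0, 3, 8), (0, 8, 9), (0, 9, 10),
      (1, 4, 5), (1, 4, 11), (1, 10, 11), (2, 4, 5), (2, 4, 12), (2, 7, 13), (2, 12, 13), (3, 6,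
      14), (3, 6, 15), (3, 7, 14), (3, 8, 15), (4, 11, 15), (4, 12, 16), (4, 15, 16), (6, 14, 17),
      (6, 15, 17)]
    fin := [0, 1, 1, 0, 4, 1, 0, 0, 0, 9, 1, 4, 4, 13, 14, 15, 16, 17]
    chd := [(0, 1), (0, 17), (1, 13)]
    steps := [(0, 3), (0, 6), (0, 7), (0, 8), (1, 5), (1, 2), (1, 10), (4, 11), (4, 12)] }
  rep := [0, 4, 15, 1, 14, 13, 17, 9, 16]

noncomputable def v3784 : Cov.CovD where
  P := 3
  N := 6
  pl := [2, 7, 8, 9]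
  lev := [⟨[], [], [(0, 0), (0, 3)], [7], [(0, 0, [3, 6]), (1, 0, [3, 6]), (3, 3, [0, 5])]⟩,
    ⟨[], [(0, 0), (0, 1), (0, 3)], [(1, 3)], [], [(3, 3, [0, 5]), (4, 1, [])]⟩,
    ⟨[(0, 1)], [(0, 0), (0, 1), (0, 3), (0, 5)], [(0, 1), (0, 5), (1, 5)], [], [(0, 0, [3,
      6]), (5, 1, []), (6, 5, [3])]⟩,
    ⟨[(0, 1), (0, 2)], [(0, 0), (0, 3), (2, 0)], [(0, 0)], [2, 4], [(0, 0, [3, 6]), (1, 0,
      [3, 6])]⟩,
    ⟨[(0, 1), (0, 2), (1, 2)], [(1, 1), (1, 3), (2, 0), (2, 1), (2, 5)], [(1, 1)], [2, 8],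
      [(4, 1, []), (5, 1, [])]⟩,
    ⟨[(0, 1), (0, 2), (0, 3), (0, 4), (1, 2), (1, 4), (2, 4)], [(0, 0), (0, 3), (1, 1), (1,
      3), (2, 0), (2, 1), (2, 5), (4, 1)], [], [], []⟩,
    ⟨[(0, 3)], [(3, 0), (3, 6)], [], [2, 4], [(10, 6, [0])]⟩]
  Ta := [((0, 6), 0, 5), ((0, 7), 0, 4), ((1, 2), 0, 7), ((1, 8), 0, 2), ((4, 3), 1, 3), ((4, 8),
    1, 2), ((5, 6), 1, 5), ((5, 9), 1, 8)]
  Tb := [((0, 6, 7), 0, 5, 4), ((1, 2, 8), 0, 7, 2), ((2, 1, 3), 7, 0, 3), ((3, 2, 4), 3, 7, 1),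
    ((4, 3, 8), 1, 3, 2), ((5, 6, 9), 1, 5, 8), ((6, 0, 5), 5, 0, 1), ((7, 0, 10), 4, 0, 6),
    ((8, 1, 4), 2, 0, 1), ((8, 1, 9), 2, 0, 8), ((8, 1, 10), 2, 0, 6), ((8, 4, 9), 2, 1, 8),
    ((8, 4, 10), 2, 1, 6), ((8, 9, 10), 2, 8, 6), ((9, 5, 8), 8, 1, 2), ((10, 7, 8), 6, 4,
    2)]
  Tc := [(0, 3, 6), (3, 0, 5)]
  Td := [((0, 3), (0, 6), 5), ((0, 3), (0, 7), 4), ((0, 3), (1, 2), 7), ((0, 3), (1, 8), 2), ((0,
    6), (0, 6), 5), ((0, 6), (0, 7), 4), ((0, 6), (1, 2), 7), ((0, 6), (1, 8), 2), ((3, 0),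
    (3, 2), 7), ((3, 0), (3, 4), 1), ((3, 5), (3, 2), 7), ((3, 5), (3, 4), 1), ((5, 3), (6,
    0), 0), ((5, 3), (6, 5), 1), ((6, 0), (10, 7), 4), ((6, 0), (10, 8), 2)]
  G := [[0, 0xd44421112cd18c21151cd191cc4ed141211cc2d88825158c9198cc8e9491c5451ccd198c1151ccc2e,
    0, 0x1414cd4d4cc21d8d851818cc21d414cd2185c18d2c12d29cc1e,
    0x14149b4b49a21b1b1911189a24b11141a4b1b2911189a8388948a4de], [0,
    0x1252cd292cc5452c9298cc61d452c1292cc58d8c9812cca19454c5494cc9892c5858ccc1e, 0, 0,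
    0x11119b1b19a4234b1991119a1188c2b21111a412114949a8b42498318988acde], [0,
    0x144421211c118c21111c1412cc4e1841111cc2188821211c1111cc8e1414c1114cc1818c1111ccc2e,
    0xc4c2ca2a4c611c2c2c6262ca11a2a8c6468cc11e, 0x1212512189c411212c1818cc111812c1214cc11e,
    0x1414914149a21111111a2188188a25141141a4121181a8148188a1de], [0,
    0x1412c1212cc1214c1214cc611412c1212cc1212c1818cca11414c1418cc1818c1812ccc1e,
    0xc4c4ca4a4c612c8c8c6868ca12a4a2c6262cc11e, 0,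
    0x1411911189a42111111a188188a92141111a4121111a8128188a1de]]

noncomputable def n3784 : Ent := ⟨e3784, noF, [], [], [(17, 11, [6903326391201334778116932359625648306653620957400551096786542331174913, 0]), (17, 16, [7334685537875745012586738086077695515070955365108989538292687709167617, 0])]⟩

def c3784 : PLift (Cov.check n3784.C.D v3784 = true) := ⟨by decide +kernel⟩

def b3784 : PLift (entF (fidx ts) 400 3784 n3784 = true) := ⟨by decide +kernel⟩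

theorem g3784 : GoodF (fidx ts) 400 3784 := GoodF.ofV v3784 n3784 c3784.down b3784.down

/-- 8566744:2775/8 -/
noncomputable def e3785 : SCfg where
  D := {
    a := 7
    L := 11
    kp := 8
    inn := [(0, 1), (0, 2), (0, 3), (0, 5), (1, 0), (1, 4), (1, 5), (2, 0), (2, 4), (2, 5), (3, 0), (3,
      6), (4, 1), (4, 2), (4, 5), (5, 0), (5, 1), (5, 2), (5, 4), (6, 3)]
    mix := [(0, 0), (0, 1), (0, 2), (0, 3), (1, 3), (1, 4), (2, 0), (2, 5), (2, 6), (3, 0), (3, 1), (3,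
      7), (3, 8), (4, 4), (4, 5), (4, 8), (4, 9), (6, 7), (6, 8), (6, 10)]
    cl := [0, 0, 7, 2, 3, 3, 5, 4, 1, 8, 6]
    chq := [(0, 2), (0, 6), (2, 0), (2, 5), (5, 2), (6, 0)]
    rng := [(0, 6), (0, 7), (1, 2), (1, 8), (2, 1), (2, 3), (3, 2), (3, 4), (4, 3), (4, 9), (5, 6), (5,
      8), (6, 0), (6, 5), (7, 0), (7, 10), (8, 1), (8, 5), (8, 9), (8, 10), (9, 4), (9, 8), (10,
      7), (10, 8)]
    lev := [] }
  links := [[1, 5, 2, 7, 3, 8, 9, 10], [4, 5, 0, 10, 11], [7, 0, 5, 4, 12, 13], [8, 0, 7, 14, 6, 15],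
    [12, 2, 5, 1, 11, 16, 15], [0, 1, 4, 2], [3, 14, 17, 15]]
  P := {
    a := 7
    N := 18
    nb := [1966, 3121, 12465, 49601, 104486, 23, 180232, 24589, 33289, 1281, 2563, 66578, 40980, 4228,
      131272, 201048, 34832, 49216]
    tri := [(0, 1, 5), (0, 1, 10), (0, 2, 5), (0, 2, 7), (0, 3, 7), (0, 3, 8), (0, 8, 9), (0, 9, 10),
      (1, 4, 5), (1, 4, 11), (1, 10, 11), (2, 4, 5), (2, 4, 12), (2, 7, 13), (2, 12, 13), (3, 6,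
      14), (3, 6, 15), (3, 7, 14), (3, 8, 15), (4, 11, 16), (4, 12, 15), (4, 15, 16), (6, 14, 17),
      (6, 15, 17)]
    fin := [0, 1, 1, 0, 4, 1, 0, 0, 0, 9, 1, 4, 4, 13, 14, 15, 16, 17]
    chd := [(0, 1), (0, 17), (1, 13)]
    steps := [(0, 3), (0, 6), (0, 7), (0, 8), (1, 5), (1, 2), (1, 10), (4, 11), (4, 12)] }
  rep := [0, 15, 1, 4, 14, 13, 17, 9, 16]

noncomputable def v3785 : Cov.CovD where
  P := 3
  N := 6
  pl := [2, 7, 8, 9]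
  lev := [⟨[], [], [(0, 0), (0, 2)], [7], [(0, 0, [2, 6]), (1, 0, [2, 6]), (3, 2, [0, 5])]⟩,
    ⟨[], [(0, 0), (0, 2), (0, 3)], [(2, 3)], [], [(3, 2, [0, 5]), (4, 3, [])]⟩,
    ⟨[(0, 1)], [(0, 0), (0, 2), (0, 3), (0, 5)], [(0, 3), (0, 5), (3, 5)], [], [(0, 0, [2,
      6]), (5, 3, []), (6, 5, [2])]⟩,
    ⟨[(0, 1), (0, 2)], [(0, 0), (0, 2), (2, 0)], [(0, 0)], [1, 4], [(0, 0, [2, 6]), (1, 0,
      [2, 6])]⟩,
    ⟨[(0, 1), (0, 2), (1, 2)], [(1, 2), (1, 3), (2, 0), (2, 3), (2, 5)], [(3, 3)], [1, 8],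
      [(4, 3, []), (5, 3, [])]⟩,
    ⟨[(0, 1), (0, 2), (0, 3), (0, 4), (1, 2), (1, 4), (2, 4)], [(0, 0), (0, 2), (1, 2), (1,
      3), (2, 0), (2, 3), (2, 5), (4, 3)], [], [], []⟩,
    ⟨[(0, 3)], [(3, 0), (3, 6)], [], [1, 4], [(10, 6, [0])]⟩]
  Ta := [((0, 6), 0, 5), ((0, 7), 0, 4), ((1, 2), 0, 7), ((1, 8), 0, 1), ((4, 3), 3, 2), ((4, 9),
    3, 8), ((5, 6), 3, 5), ((5, 8), 3, 1)]
  Tb := [((0, 6, 7), 0, 5, 4), ((1, 2, 8), 0, 7, 1), ((2, 1, 3), 7, 0, 2), ((3, 2, 4), 2, 7, 3),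
    ((4, 3, 9), 3, 2, 8), ((5, 6, 8), 3, 5, 1), ((6, 0, 5), 5, 0, 3), ((7, 0, 10), 4, 0, 6),
    ((8, 1, 5), 1, 0, 3), ((8, 1, 9), 1, 0, 8), ((8, 1, 10), 1, 0, 6), ((8, 5, 9), 1, 3, 8),
    ((8, 5, 10), 1, 3, 6), ((8, 9, 10), 1, 8, 6), ((9, 4, 8), 8, 3, 1), ((10, 7, 8), 6, 4,
    1)]
  Tc := [(0, 2, 6), (2, 0, 5)]
  Td := [((0, 2), (0, 6), 5), ((0, 2), (0, 7), 4), ((0, 2), (1, 2), 7), ((0, 2), (1, 8), 1), ((0,
    6), (0, 6), 5), ((0, 6), (0, 7), 4), ((0, 6), (1, 2), 7), ((0, 6), (1, 8), 1), ((2, 0),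
    (3, 2), 7), ((2, 0), (3, 4), 3), ((2, 5), (3, 2), 7), ((2, 5), (3, 4), 3), ((5, 2), (6,
    0), 0), ((5, 2), (6, 5), 3), ((6, 0), (10, 7), 4), ((6, 0), (10, 8), 1)]
  G := [[0, 0, 0x1111911129c124124c52141181c221114511115c118188cc2e,
    0x1451cd498cc214149d1d49c25d451c1198cc2d154511985c29c,
    0x111111dd2d1d8dc114d44c62d14144c9158d1d589111dcc2a], [0, 0,
    0x121111c44121111c141111c1412c1212ccb8111121c121111c111181ce1212c1814cc15e,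
    0x111111dd1d8d8dc24d4d154d111191dc28c,
    0x121252dd2d898dc124461d1482292d298d581258dc184461e], [0,
    0xc4c4c4ea2a8a2e611c4c8c2e646862ea11c,
    0x121181c1412c1414cc52111111c221411514115c148188c92e,
    0x1411c1418cc21414914189c251418c1118cc21818518185c29c,
    0x121111d111112dc144184c62114144c181811d111118dcc2a], [0,
    0xc2c8c2ea2a8a2e614c4c2c8e686862ea11c,
    0x111181c121121c1212c1218cc74121121c1118111111c1212c1212ccf8111111c1114c2e,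
    0x111111d111818dc24141114d111111dc28c,
    0x111111d111118dc144184c62111111d121212dc114114c68a]]

noncomputable def n3785 : Ent := ⟨e3785, noF, [], [], [(17, 16, [7334685537875745012586738086077695515070955365108989538292687709159425, 0])]⟩

def c3785 : PLift (Cov.check n3785.C.D v3785 = true) := ⟨by decide +kernel⟩

def b3785 : PLift (entF (fidx ts) 400 3785 n3785 = true) := ⟨by decide +kernel⟩

theorem g3785 : GoodF (fidx ts) 400 3785 := GoodF.ofV v3785 n3785 c3785.down b3785.down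

/-- 8566744:2775 -/
noncomputable def e3786 : SCfg where
  D := {
    a := 7
    L := 12
    kp := 9
    inn := [(0, 1), (0, 2), (0, 3), (0, 5), (1, 0), (1, 4), (1, 5), (2, 0), (2, 4), (2, 5), (3, 0), (3,
      6), (4, 1), (4, 2), (4, 5), (5, 0), (5, 1), (5, 2), (5, 4), (6, 3)]
    mix := [(0, 0), (0, 1), (0, 2), (0, 3), (1, 3), (1, 4), (2, 0), (2, 5), (2, 6), (3, 0), (3, 1), (3,
      7), (3, 8), (4, 4), (4, 5), (4, 9), (4, 10), (6, 7), (6, 8), (6, 11)]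
    cl := [0, 0, 7, 2, 1, 1, 5, 3, 4, 8, 9, 6]
    chq := [(0, 2), (0, 6), (2, 0), (2, 5), (5, 2), (6, 0)]
    rng := [(0, 6), (0, 7), (1, 2), (1, 8), (2, 1), (2, 3), (3, 2), (3, 4), (4, 3), (4, 9), (5, 6), (5,
      10), (6, 0), (6, 5), (7, 0), (7, 11), (8, 1), (8, 11), (9, 4), (9, 10), (10, 5), (10, 9),
      (11, 7), (11, 8)]
    lev := [] }
  links := [[1, 5, 2, 7, 3, 8, 9, 10], [4, 5, 0, 10, 11], [7, 0, 5, 4, 12, 13], [8, 0, 7, 14, 6, 15],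
    [12, 2, 5, 1, 11, 16, 17], [0, 1, 4, 2], [3, 14, 18, 15]]
  P := {
    a := 7
    N := 19
    nb := [1966, 3121, 12465, 49601, 202790, 23, 311304, 24589, 33289, 1281, 2563, 66578, 139284,
      4228, 262344, 262472, 133136, 69648, 49216]
    tri := [(0, 1, 5), (0, 1, 10), (0, 2, 5), (0, 2, 7), (0, 3, 7), (0, 3, 8), (0, 8, 9), (0, 9, 10),
      (1, 4, 5), (1, 4, 11), (1, 10, 11), (2, 4, 5), (2, 4, 12), (2, 7, 13), (2, 12, 13), (3, 6,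
      14), (3, 6, 15), (3, 7, 14), (3, 8, 15), (4, 11, 16), (4, 12, 17), (4, 16, 17), (6, 14, 18),
      (6, 15, 18)]
    fin := [0, 1, 1, 0, 4, 1, 0, 0, 0, 9, 1, 4, 4, 13, 14, 15, 16, 17, 18]
    chd := [(0, 1), (0, 18), (1, 13)]
    steps := [(0, 3), (0, 6), (0, 7), (0, 8), (1, 5), (1, 2), (1, 10), (4, 11), (4, 12)] }
  rep := [0, 4, 1, 14, 15, 13, 18, 9, 16, 17]

noncomputable def v3786 : Cov.CovD where
  P := 3
  N := 7
  pl := [2, 7, 8, 9, 10]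
  lev := [⟨[], [], [(0, 0), (0, 2)], [7], [(0, 0, [2, 6]), (1, 0, [2, 6]), (3, 2, [0, 5])]⟩,
    ⟨[], [(0, 0), (0, 1), (0, 2)], [(1, 2)], [], [(3, 2, [0, 5]), (4, 1, [])]⟩,
    ⟨[(0, 1)], [(0, 0), (0, 1), (0, 2), (0, 5)], [(0, 1), (0, 5), (1, 5)], [], [(0, 0, [2,
      6]), (5, 1, []), (6, 5, [2])]⟩,
    ⟨[(0, 1), (0, 2)], [(0, 0), (0, 2), (2, 0)], [(0, 0)], [3, 4], [(0, 0, [2, 6]), (1, 0,
      [2, 6])]⟩,
    ⟨[(0, 1), (0, 2), (1, 2)], [(1, 1), (1, 2), (2, 0), (2, 1), (2, 5)], [(1, 1)], [8, 9],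
      [(4, 1, []), (5, 1, [])]⟩,
    ⟨[(0, 1), (0, 2), (0, 3), (0, 4), (1, 2), (1, 4), (2, 4)], [(0, 0), (0, 2), (1, 1), (1,
      2), (2, 0), (2, 1), (2, 5), (4, 1)], [], [], []⟩,
    ⟨[(0, 3)], [(3, 0), (3, 6)], [], [3, 4], [(11, 6, [0])]⟩]
  Ta := [((0, 6), 0, 5), ((0, 7), 0, 3), ((1, 2), 0, 7), ((1, 8), 0, 4), ((4, 3), 1, 2), ((4, 9),
    1, 8), ((5, 6), 1, 5), ((5, 10), 1, 9)]
  Tb := [((0, 6, 7), 0, 5, 3), ((1, 2, 8), 0, 7, 4), ((2, 1, 3), 7, 0, 2), ((3, 2, 4), 2, 7, 1),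
    ((4, 3, 9), 1, 2, 8), ((5, 6, 10), 1, 5, 9), ((6, 0, 5), 5, 0, 1), ((7, 0, 11), 3, 0, 6),
    ((8, 1, 11), 4, 0, 6), ((9, 4, 10), 8, 1, 9), ((10, 5, 9), 9, 1, 8), ((11, 7, 8), 6, 3,
    4)]
  Tc := [(0, 2, 6), (2, 0, 5)]
  Td := [((0, 2), (0, 6), 5), ((0, 2), (0, 7), 3), ((0, 2), (1, 2), 7), ((0, 2), (1, 8), 4), ((0,
    6), (0, 6), 5), ((0, 6), (0, 7), 3), ((0, 6), (1, 2), 7), ((0, 6), (1, 8), 4), ((2, 0),
    (3, 2), 7), ((2, 0), (3, 4), 1), ((2, 5), (3, 2), 7), ((2, 5), (3, 4), 1), ((5, 2), (6,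
    0), 0), ((5, 2), (6, 5), 1), ((6, 0), (11, 7), 3), ((6, 0), (11, 8), 4)]
  G := [[0, 0x3222111111ed4d8d1eb1b8b4eea43222d4d8d1e111111e747178ee68912582c48e,
    0x14142111114d1418c111114de2c111114d111818d141118de28c,
    0x141114dd1d4d8db4b1b4de21d8d8d8d111118d717878de21c,
    0x141414dd1d4d4db4b4b8de21b24714114eb1b2b2d787178d111118dec1a], [0,
    0x3822141114ed1d1d8eb4b1b8ee643222d4d1d4e111818e717178eea8942582c81e,
    0x141111648141111181e111111a1418c1818c1418ced2121121111e141141c1218c1212c1414ced8e, 0,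
    0x1244121212dd2d2d8db2b8b2dec1d24714a881244b2b1b2d717878d181818dec1e], [0,
    0x3222141111ed4d1d8eb4b1b4eea43222d4d1d4e111118e747171ee68912542c88e,
    0x111111d111118d141118de2418115111181e21481818c1418ce29c,
    0x111114dd1d1d8db1b4b8de21d1d1d8d111818d747878de28c,
    0x111414dd4d4d8db1b4b8de21b81721181eb2b8c7472c1414ce58a], [0,
    0x1422141414ed4d8d8eb4b4b4eea11222d4d1d4e111818e747871eea8b12712c44e,
    0x1111416111181111e1412c1218c1412ced4181141a1818c1818c1818ce92141141c121111111ec4e, 0,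
    0x11129d2d89b2b29e124d24b24e51b2172789181eb2b8c7241818ce51a]]

noncomputable def n3786 : Ent := ⟨e3786, noF, [], [], [(18, 11, [30043303427623734937694548589408397128520940011160098207617123883053494273, 0]), (18, 16, [30044166145917083758165358922957084778673075396561391926765295767464464385, 0]), (18, 17, [31810150492402119267275227079217218666319002904815489586567506653229117441, 0]), (15, 16, [31810581851548793677511941751458610980409781099126250235727204310993108993, 0]), (15, 17, [31810150492402119267275227079217218666319002904815489586567506653229125633, 0])]⟩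

def c3786 : PLift (Cov.check n3786.C.D v3786 = true) := ⟨by decide +kernel⟩

def b3786 : PLift (entF (fidx ts) 400 3786 n3786 = true) := ⟨by decide +kernel⟩

theorem g3786 : GoodF (fidx ts) 400 3786 := GoodF.ofV v3786 n3786 c3786.down b3786.down

/-- 85684444:2776/1 -/
noncomputable def e3787 : SCfg where
  D := {
    a := 8
    L := 11
    kp := 8
    inn := [(0, 1), (0, 2), (0, 3), (0, 4), (1, 0), (1, 4), (2, 0), (2, 3), (2, 5), (3, 0), (3, 2), (3,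
      5), (3, 6), (3, 7), (4, 0), (4, 1), (5, 2), (5, 3), (6, 3), (7, 3)]
    mix := [(0, 0), (0, 1), (0, 2), (0, 3), (1, 3), (1, 4), (1, 5), (2, 1), (2, 6), (2, 7), (3, 2), (3,
      8), (3, 9), (4, 0), (4, 4), (5, 7), (5, 8), (6, 5), (6, 8), (6, 9), (7, 2), (7, 9), (7, 10)]
    cl := [1, 2, 0, 1, 4, 5, 7, 6, 0, 3, 8]
    chq := [(0, 2), (0, 3), (0, 7), (2, 0), (3, 0), (7, 0)]
    rng := [(0, 1), (0, 4), (1, 0), (1, 6), (2, 3), (2, 10), (3, 2), (3, 5), (4, 0), (4, 5), (5, 3),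
      (5, 4), (5, 8), (5, 9), (6, 1), (6, 7), (7, 6), (7, 8), (8, 5), (8, 7), (9, 5), (9, 10),
      (10, 2), (10, 9)]
    lev := [] }
  links := [[1, 4, 8, 9, 2, 3, 10, 11], [12, 4, 0, 11, 13], [3, 0, 9, 14, 15, 5], [10, 0, 2, 5, 16, 6,
    17, 7], [0, 1, 12, 8], [2, 15, 16, 3], [3, 16, 13, 17], [3, 17, 18, 10]]
  P := {
    a := 8
    N := 19
    nb := [3870, 14353, 49705, 197861, 4355, 98316, 204808, 394248, 4625, 16645, 264329, 9219, 8466,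
      202818, 33284, 81956, 41064, 270536, 132224]
    tri := [(0, 1, 4), (0, 1, 11), (0, 2, 3), (0, 2, 9), (0, 3, 10), (0, 4, 8), (0, 8, 9), (0, 10, 11),
      (1, 4, 12), (1, 11, 13), (1, 12, 13), (2, 3, 5), (2, 5, 15), (2, 9, 14), (2, 14, 15), (3, 5,
      16), (3, 6, 16), (3, 6, 17), (3, 7, 10), (3, 7, 17), (4, 8, 12), (5, 15, 16), (6, 13, 16),
      (6, 13, 17), (7, 10, 18), (7, 17, 18)]
    fin := [0, 1, 2, 3, 1, 2, 3, 3, 1, 0, 3, 1, 12, 13, 2, 15, 3, 17, 18]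
    chd := [(0, 3), (3, 2), (3, 17)]
    steps := [(0, 9), (1, 4), (1, 8), (1, 11), (2, 5), (2, 14), (3, 6), (3, 7), (3, 16), (3, 10)] }
  rep := [3, 1, 0, 17, 12, 13, 15, 2, 18]

noncomputable def v3787 : Cov.CovD where
  P := 3
  N := 6
  pl := [4, 5, 7, 10]
  lev := [⟨[], [], [(0, 1), (0, 2), (1, 1), (1, 2)], [], [(0, 1, []), (1, 2, [0]), (2, 0, [2, 3,
      7]), (3, 1, [])]⟩,
    ⟨[], [(0, 0), (0, 1), (0, 2)], [], [4, 5], [(3, 1, [])]⟩,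
    ⟨[(0, 1)], [(0, 0), (0, 1), (0, 2), (0, 7)], [(2, 7)], [6], [(1, 2, [0]), (6, 7, [0])]⟩,
    ⟨[(0, 1), (0, 2)], [(0, 0), (0, 1), (0, 2), (0, 3), (2, 0), (2, 2), (2, 3), (2, 7)],
      [(0, 0), (0, 3)], [], [(2, 0, [2, 3, 7]), (8, 0, [2, 3, 7]), (9, 3, [0])]⟩,
    ⟨[(0, 1), (0, 2), (0, 3)], [(0, 0), (0, 1), (0, 2), (1, 1)], [], [4], [(0, 1, [])]⟩,
    ⟨[(0, 2), (0, 3), (2, 3)], [(2, 0), (2, 2), (2, 7), (3, 0), (3, 3)], [], [6], [(8, 0,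
      [2, 3, 7])]⟩,
    ⟨[(0, 3), (2, 3), (3, 5)], [(3, 0), (3, 3), (5, 0)], [(0, 3)], [5], [(8, 0, [2, 3, 7]),
      (9, 3, [0])]⟩,
    ⟨[(0, 3), (2, 3), (3, 5), (3, 6)], [(0, 0), (3, 0), (3, 3), (6, 3)], [(0, 3)], [8],
      [(2, 0, [2, 3, 7]), (9, 3, [0])]⟩]
  Ta := [((0, 1), 1, 2), ((0, 4), 1, 4), ((2, 3), 0, 1), ((2, 10), 0, 8), ((3, 2), 1, 0), ((3,
    5), 1, 5), ((8, 5), 0, 5), ((8, 7), 0, 6)]
  Tb := [((0, 1, 4), 1, 2, 4), ((1, 0, 6), 2, 1, 7), ((2, 3, 10), 0, 1, 8), ((3, 2, 5), 1, 0, 5),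
    ((4, 0, 5), 4, 1, 5), ((5, 3, 4), 5, 1, 4), ((5, 3, 8), 5, 1, 0), ((5, 3, 9), 5, 1, 3),
    ((5, 4, 8), 5, 4, 0), ((5, 4, 9), 5, 4, 3), ((5, 8, 9), 5, 0, 3), ((6, 1, 7), 7, 2, 6),
    ((7, 6, 8), 6, 7, 0), ((8, 5, 7), 0, 5, 6), ((9, 5, 10), 3, 5, 8), ((10, 2, 9), 8, 0, 3)]
  Tc := [(0, 2, 3), (0, 2, 7), (0, 3, 7)]
  Td := [((0, 2), (2, 3), 1), ((0, 2), (2, 10), 8), ((0, 2), (8, 5), 5), ((0, 2), (8, 7), 6),
    ((0, 3), (2, 3), 1), ((0, 3), (2, 10), 8), ((0, 3), (8, 5), 5), ((0, 3), (8, 7), 6), ((0,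
    7), (2, 3), 1), ((0, 7), (2, 10), 8), ((0, 7), (8, 5), 5), ((0, 7), (8, 7), 6), ((2, 0),
    (1, 0), 1), ((2, 0), (1, 6), 7), ((3, 0), (9, 5), 5), ((3, 0), (9, 10), 8), ((7, 0), (6,
    1), 2), ((7, 0), (6, 7), 6)]
  G := [[0, 0, 0x114411281284e1118111211241e134, 0x4181ac3ec1c1ac823c23cc23a1c56128,
    0xc1c1a8c23c23c8614181c1e1c23c23c16138], [0,
    0xe1c1a1a8a1c161c1c1a1a1a1c161c1c1a1a12181e161e8,
    0x1111a4111168a11111c81114c2a11111621111a1a1d4, 0,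
    0xc8e1a2869a8c2614254284a45a4e181a4e1c1c1a2c23c23c261d8], [0, 0,
    0x112411481184e1114111811121e138,
    0x1814611c25124124561441425188188c124128ce14112ea11c1814e55292c9252c96d28,
    0x1434a41812c461c1c2412446111e84418146892d2c86b11c21124161164111a81c1418c8e15292c16b7a2248229],
    [0, 0, 0x118211221144e11111c21111a2a1118211221141e1d4, 0,
    0x1da221882611a42a8426314221218646122414881882e72126414b4a2cb13c21124161242116e21c19c51ca221a149ec16bdc2a28a4a826889]]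

noncomputable def n3787 : Ent := ⟨e3787, noF, [], [], []⟩

def c3787 : PLift (Cov.check n3787.C.D v3787 = true) := ⟨by decide +kernel⟩

def b3787 : PLift (entF (fidx ts) 400 3787 n3787 = true) := ⟨by decide +kernel⟩

theorem g3787 : GoodF (fidx ts) 400 3787 := GoodF.ofV v3787 n3787 c3787.down b3787.down

/-- 85684444:2776/3 -/
noncomputable def e3788 : SCfg where
  D := {
    a := 8
    L := 10
    kp := 7
    inn := [(0, 1), (0, 2), (0, 3), (0, 4), (1, 0), (1, 4), (2, 0), (2, 3), (2, 5), (3, 0), (3, 2), (3,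
      5), (3, 6), (3, 7), (4, 0), (4, 1), (5, 2), (5, 3), (6, 3), (7, 3)]
    mix := [(0, 0), (0, 1), (0, 2), (0, 3), (1, 3), (1, 4), (1, 5), (2, 1), (2, 6), (2, 7), (3, 2), (3,
      8), (3, 9), (4, 0), (4, 4), (5, 7), (5, 8), (6, 4), (6, 8), (6, 9), (7, 2), (7, 5), (7, 9)]
    cl := [1, 2, 0, 1, 4, 5, 7, 6, 0, 3]
    chq := [(0, 2), (0, 3), (0, 7), (2, 0), (3, 0), (7, 0)]
    rng := [(0, 1), (0, 4), (1, 0), (1, 6), (2, 3), (2, 5), (3, 2), (3, 5), (4, 0), (4, 5), (4, 8), (4,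
      9), (5, 2), (5, 3), (5, 4), (5, 9), (6, 1), (6, 7), (7, 6), (7, 8), (8, 4), (8, 7), (9, 4),
      (9, 5)]
    lev := [] }
  links := [[1, 4, 8, 9, 2, 3, 10, 11], [12, 4, 0, 11, 13], [3, 0, 9, 14, 15, 5], [10, 0, 2, 5, 16, 6,
    17, 7], [0, 1, 12, 8], [2, 15, 16, 3], [3, 16, 12, 17], [3, 17, 13, 10]]
  P := {
    a := 8
    N := 18
    nb := [3870, 14353, 49705, 197861, 4355, 98316, 200712, 140296, 4625, 16645, 10377, 9219, 205138,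
      138370, 33284, 81956, 36968, 12488]
    tri := [(0, 1, 4), (0, 1, 11), (0, 2, 3), (0, 2, 9), (0, 3, 10), (0, 4, 8), (0, 8, 9), (0, 10, 11),
      (1, 4, 12), (1, 11, 13), (1, 12, 13), (2, 3, 5), (2, 5, 15), (2, 9, 14), (2, 14, 15), (3, 5,
      16), (3, 6, 16), (3, 6, 17), (3, 7, 10), (3, 7, 17), (4, 8, 12), (5, 15, 16), (6, 12, 16),
      (6, 12, 17), (7, 10, 13), (7, 13, 17)]
    fin := [0, 1, 2, 3, 1, 2, 3, 3, 1, 0, 3, 1, 12, 13, 2, 15, 3, 17]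
    chd := [(0, 3), (3, 2), (3, 17)]
    steps := [(0, 9), (1, 4), (1, 8), (1, 11), (2, 5), (2, 14), (3, 6), (3, 7), (3, 16), (3, 10)] }
  rep := [3, 1, 0, 17, 12, 13, 15, 2]

noncomputable def v3788 : Cov.CovD where
  P := 3
  N := 5
  pl := [4, 5, 7]
  lev := [⟨[], [], [(0, 1), (0, 2), (1, 1), (1, 2)], [], [(0, 1, []), (1, 2, [0]), (2, 0, [2, 3,
      7]), (3, 1, [])]⟩,
    ⟨[], [(0, 0), (0, 1), (0, 2)], [], [4, 5], [(3, 1, [])]⟩,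
    ⟨[(0, 1)], [(0, 0), (0, 1), (0, 2), (0, 7)], [(2, 7)], [6], [(1, 2, [0]), (6, 7, [0])]⟩,
    ⟨[(0, 1), (0, 2)], [(0, 0), (0, 1), (0, 2), (0, 3), (2, 0), (2, 2), (2, 3), (2, 7)],
      [(0, 0), (0, 3)], [], [(2, 0, [2, 3, 7]), (8, 0, [2, 3, 7]), (9, 3, [0])]⟩,
    ⟨[(0, 1), (0, 2), (0, 3)], [(0, 0), (0, 1), (0, 2), (1, 1)], [], [4], [(0, 1, [])]⟩,
    ⟨[(0, 2), (0, 3), (2, 3)], [(2, 0), (2, 2), (2, 7), (3, 0), (3, 3)], [], [6], [(8, 0,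
      [2, 3, 7])]⟩,
    ⟨[(0, 3), (2, 3), (3, 5)], [(3, 0), (3, 3), (5, 0)], [(0, 3)], [4], [(8, 0, [2, 3, 7]),
      (9, 3, [0])]⟩,
    ⟨[(0, 3), (2, 3), (3, 5), (3, 6)], [(0, 0), (3, 0), (3, 3), (6, 3)], [(0, 3)], [5],
      [(2, 0, [2, 3, 7]), (9, 3, [0])]⟩]
  Ta := [((0, 1), 1, 2), ((0, 4), 1, 4), ((2, 3), 0, 1), ((2, 5), 0, 5), ((3, 2), 1, 0), ((3, 5),
    1, 5), ((8, 4), 0, 4), ((8, 7), 0, 6)]
  Tb := [((0, 1, 4), 1, 2, 4), ((1, 0, 6), 2, 1, 7), ((2, 3, 5), 0, 1, 5), ((3, 2, 5), 1, 0, 5),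
    ((4, 0, 5), 4, 1, 5), ((4, 0, 8), 4, 1, 0), ((4, 0, 9), 4, 1, 3), ((4, 5, 8), 4, 5, 0),
    ((4, 5, 9), 4, 5, 3), ((4, 8, 9), 4, 0, 3), ((5, 2, 3), 5, 0, 1), ((5, 2, 4), 5, 0, 4),
    ((5, 2, 9), 5, 0, 3), ((5, 3, 4), 5, 1, 4), ((5, 3, 9), 5, 1, 3), ((5, 4, 9), 5, 4, 3),
    ((6, 1, 7), 7, 2, 6), ((7, 6, 8), 6, 7, 0), ((8, 4, 7), 0, 4, 6), ((9, 4, 5), 3, 4, 5)]
  Tc := [(0, 2, 3), (0, 2, 7), (0, 3, 7)]
  Td := [((0, 2), (2, 3), 1), ((0, 2), (2, 5), 5), ((0, 2), (8, 4), 4), ((0, 2), (8, 7), 6), ((0,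
    3), (2, 3), 1), ((0, 3), (2, 5), 5), ((0, 3), (8, 4), 4), ((0, 3), (8, 7), 6), ((0, 7),
    (2, 3), 1), ((0, 7), (2, 5), 5), ((0, 7), (8, 4), 4), ((0, 7), (8, 7), 6), ((2, 0), (1,
    0), 1), ((2, 0), (1, 6), 7), ((3, 0), (9, 4), 4), ((3, 0), (9, 5), 5), ((7, 0), (6, 1),
    2), ((7, 0), (6, 7), 6)]
  G := [[0, 0, 0x1111a12111a16114, 0x21243612c3a1c1c128,
    0x2121c12141812c3e18221c16122c882c4c2178], [0,
    0x4141a12121c81816a6148181616161c8a141c1c281822121c2e1ac, 0x1111a21211616114, 0,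
    0x8841a12188a2614141a481816261848243c1a521c23c161d8], [0, 0, 0x118111212141e114,
    0x11c211241622211414a1812ac5128124ce9218214291281a42c,
    0x2222641841414acc1142182511a4161241112e811841e21a221ec12b38], [0, 0, 0x112111811242e114,
    0, 0x181462128862614444641212c4a111c22124161221116e22c14441848a8d292c2ebd8]]

noncomputable def n3788 : Ent := ⟨e3788, noF, [], [], []⟩

def c3788 : PLift (Cov.check n3788.C.D v3788 = true) := ⟨by decide +kernel⟩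

def b3788 : PLift (entF (fidx ts) 400 3788 n3788 = true) := ⟨by decide +kernel⟩

theorem g3788 : GoodF (fidx ts) 400 3788 := GoodF.ofV v3788 n3788 c3788.down b3788.down

/-- 85684444:2776/2 -/
noncomputable def e3789 : SCfg where
  D := {
    a := 8
    L := 11
    kp := 8
    inn := [(0, 1), (0, 2), (0, 3), (0, 4), (1, 0), (1, 4), (2, 0), (2, 3), (2, 5), (3, 0), (3, 2), (3,
      5), (3, 6), (3, 7), (4, 0), (4, 1), (5, 2), (5, 3), (6, 3), (7, 3)]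
    mix := [(0, 0), (0, 1), (0, 2), (0, 3), (1, 3), (1, 4), (1, 5), (2, 1), (2, 6), (2, 7), (3, 2), (3,
      8), (3, 9), (4, 0), (4, 4), (5, 7), (5, 8), (6, 4), (6, 8), (6, 9), (7, 2), (7, 9), (7, 10)]
    cl := [1, 2, 0, 1, 4, 7, 6, 5, 0, 3, 8]
    chq := [(0, 2), (0, 3), (0, 6), (2, 0), (3, 0), (6, 0)]
    rng := [(0, 1), (0, 4), (1, 0), (1, 6), (2, 3), (2, 10), (3, 2), (3, 5), (4, 0), (4, 5), (4, 8),
      (4, 9), (5, 3), (5, 4), (6, 1), (6, 7), (7, 6), (7, 8), (8, 4), (8, 7), (9, 4), (9, 10),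
      (10, 2), (10, 9)]
    lev := [] }
  links := [[1, 4, 8, 9, 2, 3, 10, 11], [12, 4, 0, 11, 13], [3, 0, 9, 14, 15, 5], [10, 0, 2, 5, 16, 6,
    17, 7], [0, 1, 12, 8], [2, 15, 16, 3], [3, 16, 12, 17], [3, 17, 18, 10]]
  P := {
    a := 8
    N := 19
    nb := [3870, 14353, 49705, 197861, 4355, 98316, 200712, 394248, 4625, 16645, 264329, 9219, 205138,
      6146, 33284, 81956, 36968, 266440, 132224]
    tri := [(0, 1, 4), (0, 1, 11), (0, 2, 3), (0, 2, 9), (0, 3, 10), (0, 4, 8), (0, 8, 9), (0, 10, 11),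
      (1, 4, 12), (1, 11, 13), (1, 12, 13), (2, 3, 5), (2, 5, 15), (2, 9, 14), (2, 14, 15), (3, 5,
      16), (3, 6, 16), (3, 6, 17), (3, 7, 10), (3, 7, 17), (4, 8, 12), (5, 15, 16), (6, 12, 16),
      (6, 12, 17), (7, 10, 18), (7, 17, 18)]
    fin := [0, 1, 2, 3, 1, 2, 3, 3, 1, 0, 3, 1, 12, 13, 2, 15, 3, 17, 18]
    chd := [(0, 3), (3, 2), (3, 17)]
    steps := [(0, 9), (1, 4), (1, 8), (1, 11), (2, 5), (2, 14), (3, 6), (3, 7), (3, 16), (3, 10)] }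
  rep := [3, 1, 0, 17, 12, 15, 2, 13, 18]

noncomputable def v3789 : Cov.CovD where
  P := 3
  N := 6
  pl := [4, 5, 7, 10]
  lev := [⟨[], [], [(0, 1), (0, 2), (1, 1), (1, 2)], [], [(0, 1, []), (1, 2, [0]), (2, 0, [2, 3,
      6]), (3, 1, [])]⟩,
    ⟨[], [(0, 0), (0, 1), (0, 2)], [], [4, 7], [(3, 1, [])]⟩,
    ⟨[(0, 1)], [(0, 0), (0, 1), (0, 2), (0, 6)], [(2, 6)], [5], [(1, 2, [0]), (6, 6, [0])]⟩,
    ⟨[(0, 1), (0, 2)], [(0, 0), (0, 1), (0, 2), (0, 3), (2, 0), (2, 2), (2, 3), (2, 6)],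
      [(0, 0), (0, 3)], [], [(2, 0, [2, 3, 6]), (8, 0, [2, 3, 6]), (9, 3, [0])]⟩,
    ⟨[(0, 1), (0, 2), (0, 3)], [(0, 0), (0, 1), (0, 2), (1, 1)], [], [4], [(0, 1, [])]⟩,
    ⟨[(0, 2), (0, 3), (2, 3)], [(2, 0), (2, 2), (2, 6), (3, 0), (3, 3)], [], [5], [(8, 0,
      [2, 3, 6])]⟩,
    ⟨[(0, 3), (2, 3), (3, 5)], [(3, 0), (3, 3), (5, 0)], [(0, 3)], [4], [(8, 0, [2, 3, 6]),
      (9, 3, [0])]⟩,
    ⟨[(0, 3), (2, 3), (3, 5), (3, 6)], [(0, 0), (3, 0), (3, 3), (6, 3)], [(0, 3)], [8],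
      [(2, 0, [2, 3, 6]), (9, 3, [0])]⟩]
  Ta := [((0, 1), 1, 2), ((0, 4), 1, 4), ((2, 3), 0, 1), ((2, 10), 0, 8), ((3, 2), 1, 0), ((3,
    5), 1, 7), ((8, 4), 0, 4), ((8, 7), 0, 5)]
  Tb := [((0, 1, 4), 1, 2, 4), ((1, 0, 6), 2, 1, 6), ((2, 3, 10), 0, 1, 8), ((3, 2, 5), 1, 0, 7),
    ((4, 0, 5), 4, 1, 7), ((4, 0, 8), 4, 1, 0), ((4, 0, 9), 4, 1, 3), ((4, 5, 8), 4, 7, 0),
    ((4, 5, 9), 4, 7, 3), ((4, 8, 9), 4, 0, 3), ((5, 3, 4), 7, 1, 4), ((6, 1, 7), 6, 2, 5),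
    ((7, 6, 8), 5, 6, 0), ((8, 4, 7), 0, 4, 5), ((9, 4, 10), 3, 4, 8), ((10, 2, 9), 8, 0, 3)]
  Tc := [(0, 2, 3), (0, 2, 6), (0, 3, 6)]
  Td := [((0, 2), (2, 3), 1), ((0, 2), (2, 10), 8), ((0, 2), (8, 4), 4), ((0, 2), (8, 7), 5),
    ((0, 3), (2, 3), 1), ((0, 3), (2, 10), 8), ((0, 3), (8, 4), 4), ((0, 3), (8, 7), 5), ((0,
    6), (2, 3), 1), ((0, 6), (2, 10), 8), ((0, 6), (8, 4), 4), ((0, 6), (8, 7), 5), ((2, 0),
    (1, 0), 1), ((2, 0), (1, 6), 6), ((3, 0), (9, 4), 4), ((3, 0), (9, 10), 8), ((6, 0), (6,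
    1), 2), ((6, 0), (6, 7), 5)]
  G := [[0, 0, 0x111161211111611111a1c11111c121b8, 0x2c3c161c23423c1a124,
    0x216a584ce421c12c3a18234a3c1616a5a6cc12178], [0,
    0xc1c1a121a188e1614181c1e1a1a1c161c1c1a1a1a1c161e8,
    0x1111611111a2c11111c21214a2a11111c11111a1c1d4, 0,
    0x41882c3e2a8823c2614181a45e2a1c23c161c18141e1c23c23c161d8], [0, 0,
    0x1111a82111116121112111811141e1e4, 0x142418811241e11c211281a1818614146c14146d2d2c5ad24,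
    0x11c84218864a1cc52314241844616c5864291821124161221111e81c1414a1845124d2d2c96b942418416342418846af8],
    [0, 0, 0x1111a21111a1611111611114a1a11111c11212a2c1d4, 0,
    0x16a22184261898c21252c263342212426156241441a74429212c2ab114e22124261221116e22c1442184892d2c1ebd4882ac22ca826889]]

noncomputable def n3789 : Ent := ⟨e3789, noF, [], [], [(18, 13, [30043303427623766323200606511878119329438635046271951140223122772109082625, 0])]⟩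

def c3789 : PLift (Cov.check n3789.C.D v3789 = true) := ⟨by decide +kernel⟩

def b3789 : PLift (entF (fidx ts) 400 3789 n3789 = true) := ⟨by decide +kernel⟩

theorem g3789 : GoodF (fidx ts) 400 3789 := GoodF.ofV v3789 n3789 c3789.down b3789.down

/-- 85684444:2776/4 -/
noncomputable def e3790 : SCfg where
  D := {
    a := 8
    L := 11
    kp := 8
    inn := [(0, 1), (0, 2), (0, 3), (0, 4), (1, 0), (1, 4), (2, 0), (2, 3), (2, 5), (3, 0), (3, 2), (3,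
      5), (3, 6), (3, 7), (4, 0), (4, 1), (5, 2), (5, 3), (6, 3), (7, 3)]
    mix := [(0, 0), (0, 1), (0, 2), (0, 3), (1, 3), (1, 4), (1, 5), (2, 1), (2, 6), (2, 7), (3, 2), (3,
      8), (3, 9), (4, 0), (4, 4), (5, 7), (5, 8), (6, 8), (6, 9), (6, 10), (7, 2), (7, 5), (7, 9)]
    cl := [1, 2, 0, 1, 4, 5, 7, 6, 0, 3, 8]
    chq := [(0, 2), (0, 3), (0, 7), (2, 0), (3, 0), (7, 0)]
    rng := [(0, 1), (0, 4), (1, 0), (1, 6), (2, 3), (2, 5), (3, 2), (3, 5), (4, 0), (4, 5), (5, 2), (5,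
      3), (5, 4), (5, 9), (6, 1), (6, 7), (7, 6), (7, 8), (8, 7), (8, 10), (9, 5), (9, 10), (10,
      8), (10, 9)]
    lev := [] }
  links := [[1, 4, 8, 9, 2, 3, 10, 11], [12, 4, 0, 11, 13], [3, 0, 9, 14, 15, 5], [10, 0, 2, 5, 16, 6,
    17, 7], [0, 1, 12, 8], [2, 15, 16, 3], [3, 16, 18, 17], [3, 17, 13, 10]]
  P := {
    a := 8
    N := 19
    nb := [3870, 14353, 49705, 197861, 4355, 98316, 458760, 140296, 4625, 16645, 10377, 9219, 8466,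
      138370, 33284, 81956, 295016, 270536, 196672]
    tri := [(0, 1, 4), (0, 1, 11), (0, 2, 3), (0, 2, 9), (0, 3, 10), (0, 4, 8), (0, 8, 9), (0, 10, 11),
      (1, 4, 12), (1, 11, 13), (1, 12, 13), (2, 3, 5), (2, 5, 15), (2, 9, 14), (2, 14, 15), (3, 5,
      16), (3, 6, 16), (3, 6, 17), (3, 7, 10), (3, 7, 17), (4, 8, 12), (5, 15, 16), (6, 16, 18),
      (6, 17, 18), (7, 10, 13), (7, 13, 17)]
    fin := [0, 1, 2, 3, 1, 2, 3, 3, 1, 0, 3, 1, 12, 13, 2, 15, 3, 17, 18]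
    chd := [(0, 3), (3, 2), (3, 17)]
    steps := [(0, 9), (1, 4), (1, 8), (1, 11), (2, 5), (2, 14), (3, 6), (3, 7), (3, 16), (3, 10)] }
  rep := [3, 1, 0, 17, 12, 13, 15, 2, 18]

noncomputable def v3790 : Cov.CovD where
  P := 3
  N := 6
  pl := [4, 5, 7, 10]
  lev := [⟨[], [], [(0, 1), (0, 2), (1, 1), (1, 2)], [], [(0, 1, []), (1, 2, [0]), (2, 0, [2, 3,
      7]), (3, 1, [])]⟩,
    ⟨[], [(0, 0), (0, 1), (0, 2)], [], [4, 5], [(3, 1, [])]⟩,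
    ⟨[(0, 1)], [(0, 0), (0, 1), (0, 2), (0, 7)], [(2, 7)], [6], [(1, 2, [0]), (6, 7, [0])]⟩,
    ⟨[(0, 1), (0, 2)], [(0, 0), (0, 1), (0, 2), (0, 3), (2, 0), (2, 2), (2, 3), (2, 7)],
      [(0, 0), (0, 3)], [], [(2, 0, [2, 3, 7]), (8, 0, [2, 3, 7]), (9, 3, [0])]⟩,
    ⟨[(0, 1), (0, 2), (0, 3)], [(0, 0), (0, 1), (0, 2), (1, 1)], [], [4], [(0, 1, [])]⟩,
    ⟨[(0, 2), (0, 3), (2, 3)], [(2, 0), (2, 2), (2, 7), (3, 0), (3, 3)], [], [6], [(8, 0,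
      [2, 3, 7])]⟩,
    ⟨[(0, 3), (2, 3), (3, 5)], [(3, 0), (3, 3), (5, 0)], [(0, 3)], [8], [(8, 0, [2, 3, 7]),
      (9, 3, [0])]⟩,
    ⟨[(0, 3), (2, 3), (3, 5), (3, 6)], [(0, 0), (3, 0), (3, 3), (6, 3)], [(0, 3)], [5],
      [(2, 0, [2, 3, 7]), (9, 3, [0])]⟩]
  Ta := [((0, 1), 1, 2), ((0, 4), 1, 4), ((2, 3), 0, 1), ((2, 5), 0, 5), ((3, 2), 1, 0), ((3, 5),
    1, 5), ((8, 7), 0, 6), ((8, 10), 0, 8)]
  Tb := [((0, 1, 4), 1, 2, 4), ((1, 0, 6), 2, 1, 7), ((2, 3, 5), 0, 1, 5), ((3, 2, 5), 1, 0, 5),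
    ((4, 0, 5), 4, 1, 5), ((5, 2, 3), 5, 0, 1), ((5, 2, 4), 5, 0, 4), ((5, 2, 9), 5, 0, 3),
    ((5, 3, 4), 5, 1, 4), ((5, 3, 9), 5, 1, 3), ((5, 4, 9), 5, 4, 3), ((6, 1, 7), 7, 2, 6),
    ((7, 6, 8), 6, 7, 0), ((8, 7, 10), 0, 6, 8), ((9, 5, 10), 3, 5, 8), ((10, 8, 9), 8, 0,
    3)]
  Tc := [(0, 2, 3), (0, 2, 7), (0, 3, 7)]
  Td := [((0, 2), (2, 3), 1), ((0, 2), (2, 5), 5), ((0, 2), (8, 7), 6), ((0, 2), (8, 10), 8),
    ((0, 3), (2, 3), 1), ((0, 3), (2, 5), 5), ((0, 3), (8, 7), 6), ((0, 3), (8, 10), 8), ((0,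
    7), (2, 3), 1), ((0, 7), (2, 5), 5), ((0, 7), (8, 7), 6), ((0, 7), (8, 10), 8), ((2, 0),
    (1, 0), 1), ((2, 0), (1, 6), 7), ((3, 0), (9, 5), 5), ((3, 0), (9, 10), 8), ((7, 0), (6,
    1), 2), ((7, 0), (6, 7), 6)]
  G := [[0, 0, 0x112411482188e1112411811141e138, 0x24381c85ec142c32d21229c22521c5a124,
    0x2121644141a4c12c528922e82121c861812c3a1225229c16178], [0,
    0x818161612141e8a14141a1e1e1c1a14181c1e22121c1a1e4,
    0x1111a81111c8614111c21111a2a11111a11111a161d4, 0,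
    0xa1a1c28882885e26141449a4c234a5c2614c92c5a1829c23c161d8], [0, 0,
    0x112411481184e1114111211181e138,
    0x11c211c25414442164121e49a33c112ea141814e9221e21ac46d211a811a4c211c21829832a218d2c,
    0x11c2421a446112e28413c11ca821a221ec46b11c2121a4162221111e241848e22211412a14e121a28c1eb322a248229],
    [0, 0, 0x114211221184e11141621141c8a11111a21111a1a1d4, 0,
    0x811e224848814e2821e426341c2411a4261242411e241848e41c41ca415a241ec26b11c211218626122211c22a11882e141814e22d6adac16bd882e82828e82628a228a89]]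

noncomputable def n3790 : Ent := ⟨e3790, noF, [], [], [(18, 12, [30043303427623734946886902823669633300641601170841725730158335185038131201, 0])]⟩

def c3790 : PLift (Cov.check n3790.C.D v3790 = true) := ⟨by decide +kernel⟩

def b3790 : PLift (entF (fidx ts) 400 3790 n3790 = true) := ⟨by decide +kernel⟩

theorem g3790 : GoodF (fidx ts) 400 3790 := GoodF.ofV v3790 n3790 c3790.down b3790.down

/-- 85684444:2776 -/
noncomputable def e3791 : SCfg where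
  D := {
    a := 8
    L := 12
    kp := 9
    inn := [(0, 1), (0, 2), (0, 3), (0, 4), (1, 0), (1, 4), (2, 0), (2, 3), (2, 5), (3, 0), (3, 2), (3,
      5), (3, 6), (3, 7), (4, 0), (4, 1), (5, 2), (5, 3), (6, 3), (7, 3)]
    mix := [(0, 0), (0, 1), (0, 2), (0, 3), (1, 3), (1, 4), (1, 5), (2, 1), (2, 6), (2, 7), (3, 2), (3,
      8), (3, 9), (4, 0), (4, 4), (5, 7), (5, 8), (6, 8), (6, 9), (6, 10), (7, 2), (7, 9), (7,
      11)]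
    cl := [1, 2, 0, 1, 4, 7, 6, 5, 0, 3, 8, 9]
    chq := [(0, 2), (0, 3), (0, 6), (2, 0), (3, 0), (6, 0)]
    rng := [(0, 1), (0, 4), (1, 0), (1, 6), (2, 3), (2, 11), (3, 2), (3, 5), (4, 0), (4, 5), (5, 3),
      (5, 4), (6, 1), (6, 7), (7, 6), (7, 8), (8, 7), (8, 10), (9, 10), (9, 11), (10, 8), (10, 9),
      (11, 2), (11, 9)]
    lev := [] }
  links := [[1, 4, 8, 9, 2, 3, 10, 11], [12, 4, 0, 11, 13], [3, 0, 9, 14, 15, 5], [10, 0, 2, 5, 16, 6,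
    17, 7], [0, 1, 12, 8], [2, 15, 16, 3], [3, 16, 18, 17], [3, 17, 19, 10]]
  P := {
    a := 8
    N := 20
    nb := [3870, 14353, 49705, 197861, 4355, 98316, 458760, 656392, 4625, 16645, 526473, 9219, 8466,
      6146, 33284, 81956, 295016, 786632, 196672, 132224]
    tri := [(0, 1, 4), (0, 1, 11), (0, 2, 3), (0, 2, 9), (0, 3, 10), (0, 4, 8), (0, 8, 9), (0, 10, 11),
      (1, 4, 12), (1, 11, 13), (1, 12, 13), (2, 3, 5), (2, 5, 15), (2, 9, 14), (2, 14, 15), (3, 5,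
      16), (3, 6, 16), (3, 6, 17), (3, 7, 10), (3, 7, 17), (4, 8, 12), (5, 15, 16), (6, 16, 18),
      (6, 17, 18), (7, 10, 19), (7, 17, 19)]
    fin := [0, 0, 2, 2, 0, 5, 2, 2, 0, 9, 2, 0, 12, 13, 14, 5, 2, 17, 18, 19]
    chd := [(2, 14), (2, 17), (9, 2)]
    steps := [(0, 1), (0, 4), (0, 8), (0, 11), (2, 3), (2, 6), (2, 7), (2, 10), (5, 15), (2, 16)] }
  rep := [2, 0, 9, 17, 12, 5, 14, 13, 18, 19]

noncomputable def v3791 : Cov.CovD where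
  P := 3
  N := 7
  pl := [4, 5, 7, 10, 11]
  lev := [⟨[], [], [(0, 1), (0, 2), (1, 1), (1, 2)], [], [(0, 1, []), (1, 2, [0]), (2, 0, [2, 3,
      6]), (3, 1, [])]⟩,
    ⟨[], [(0, 0), (0, 1), (0, 2)], [], [4, 7], [(3, 1, [])]⟩,
    ⟨[(0, 1)], [(0, 0), (0, 1), (0, 2), (0, 6)], [(2, 6)], [5], [(1, 2, [0]), (6, 6, [0])]⟩,
    ⟨[(0, 1), (0, 2)], [(0, 0), (0, 1), (0, 2), (0, 3), (2, 0), (2, 2), (2, 3), (2, 6)],
      [(0, 0), (0, 3)], [], [(2, 0, [2, 3, 6]), (8, 0, [2, 3, 6]), (9, 3, [0])]⟩,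
    ⟨[(0, 1), (0, 2), (0, 3)], [(0, 0), (0, 1), (0, 2), (1, 1)], [], [4], [(0, 1, [])]⟩,
    ⟨[(0, 2), (0, 3), (2, 3)], [(2, 0), (2, 2), (2, 6), (3, 0), (3, 3)], [], [5], [(8, 0,
      [2, 3, 6])]⟩,
    ⟨[(0, 3), (2, 3), (3, 5)], [(3, 0), (3, 3), (5, 0)], [(0, 3)], [8], [(8, 0, [2, 3, 6]),
      (9, 3, [0])]⟩,
    ⟨[(0, 3), (2, 3), (3, 5), (3, 6)], [(0, 0), (3, 0), (3, 3), (6, 3)], [(0, 3)], [9],
      [(2, 0, [2, 3, 6]), (9, 3, [0])]⟩]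
  Ta := [((0, 1), 1, 2), ((0, 4), 1, 4), ((2, 3), 0, 1), ((2, 11), 0, 9), ((3, 2), 1, 0), ((3,
    5), 1, 7), ((8, 7), 0, 5), ((8, 10), 0, 8)]
  Tb := [((0, 1, 4), 1, 2, 4), ((1, 0, 6), 2, 1, 6), ((2, 3, 11), 0, 1, 9), ((3, 2, 5), 1, 0, 7),
    ((4, 0, 5), 4, 1, 7), ((5, 3, 4), 7, 1, 4), ((6, 1, 7), 6, 2, 5), ((7, 6, 8), 5, 6, 0),
    ((8, 7, 10), 0, 5, 8), ((9, 10, 11), 3, 8, 9), ((10, 8, 9), 8, 0, 3), ((11, 2, 9), 9, 0,
    3)]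
  Tc := [(0, 2, 3), (0, 2, 6), (0, 3, 6)]
  Td := [((0, 2), (2, 3), 1), ((0, 2), (2, 11), 9), ((0, 2), (8, 7), 5), ((0, 2), (8, 10), 8),
    ((0, 3), (2, 3), 1), ((0, 3), (2, 11), 9), ((0, 3), (8, 7), 5), ((0, 3), (8, 10), 8),
    ((0, 6), (2, 3), 1), ((0, 6), (2, 11), 9), ((0, 6), (8, 7), 5), ((0, 6), (8, 10), 8),
    ((2, 0), (1, 0), 1), ((2, 0), (1, 6), 6), ((3, 0), (9, 10), 8), ((3, 0), (9, 11), 9),
    ((6, 0), (6, 1), 2), ((6, 0), (6, 7), 5)]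
  G := [[0, 0, 0x1111a8811111c8211111a4112118114da11111a141f4,
    0xc1824988341eca4d2d8a342adc4a5a1cc6128,
    0xcc98aaa45e4a1a1c461ac382aa45ec84dc1aca1a1c484961c12c3a824ab482788e16178], [0,
    0xc1c1a1a1a1c1614181c1e1a1a1c461c18141e2a1a1c161e8,
    0x1111621111c2a11111c2111162a11111a21111a2c1d4, 0,
    0xc1ac5a2ca3aa9c2616c3a8a45e421a181e261a45a86c3e1a1a1c261d8], [0, 0,
    0x1111a4411111641111a8c11111c12171111a1818c,
    0x1814611c2541214a1164c2c3c814d211a811a8c211c211c29811c41cae2c116865ec15a116c9ad2c,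
    0x116e214c1c13ca44311c2411a446124111c44a49c1814e411aa5ac46b1814611c251218612186561221162514211a2c1888e242c1c1834e59215a88e86b11c2112186161241111e211881ed2a61ec12bf8],
    [0, 0, 0x1111a211116261114411241182e1112211821141e1d8, 0,
    0x111e2218426341814e298a25ec26311c2412186461162211a8411c42ec12e134ea411a59ac26b13c2111a4163222111e211842e149814e1a9a125ec16bd42628ca2e28a4ce82ea2288a89]]

noncomputable def n3791 : Ent := ⟨e3791, noF, [], [], [(18, 13, [137533149272740605831813745304328768695087545425494441747996104132168967303169, 0]), (18, 12, [137533149272740605800437431600640560209058748391619011522586039344581896359937, 0]), (19, 13, [130296143695408343624117660476672455218093960807099572911632360576138431225857, 0])]⟩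

def c3791 : PLift (Cov.check n3791.C.D v3791 = true) := ⟨by decide +kernel⟩

def b3791 : PLift (entF (fidx ts) 400 3791 n3791 = true) := ⟨by decide +kernel⟩

theorem g3791 : GoodF (fidx ts) 400 3791 := GoodF.ofV v3791 n3791 c3791.down b3791.down

/-- 8566744:2778/2 -/
noncomputable def e3792 : SCfg where
  D := {
    a := 7
    L := 10
    kp := 7
    inn := [(0, 1), (0, 2), (0, 3), (0, 5), (1, 0), (1, 4), (1, 5), (2, 0), (2, 4), (2, 5), (3, 0), (3,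
      6), (4, 1), (4, 2), (4, 5), (5, 0), (5, 1), (5, 2), (5, 4), (6, 3)]
    mix := [(0, 0), (0, 1), (0, 2), (0, 3), (1, 3), (1, 4), (2, 0), (2, 5), (2, 6), (3, 0), (3, 1), (3,
      7), (3, 8), (4, 4), (4, 5), (4, 8), (4, 9), (6, 1), (6, 8), (6, 9)]
    cl := [3, 3, 7, 2, 0, 0, 5, 6, 1, 4]
    chq := [(2, 3), (2, 5), (3, 2), (4, 6), (5, 2), (6, 4)]
    rng := [(0, 6), (0, 7), (1, 2), (1, 9), (2, 1), (2, 3), (3, 2), (3, 4), (4, 3), (4, 8), (5, 6), (5,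
      9), (6, 0), (6, 5), (7, 0), (7, 8), (8, 4), (8, 7), (8, 9), (9, 1), (9, 5), (9, 8)]
    lev := [] }
  links := [[1, 5, 2, 7, 3, 8, 9, 10], [4, 5, 0, 10, 11], [7, 0, 5, 4, 12, 13], [8, 0, 7, 14, 15, 6],
    [12, 2, 5, 1, 11, 15, 16], [0, 1, 4, 2], [3, 15, 16, 8]]
  P := {
    a := 7
    N := 17
    nb := [1966, 3121, 12465, 49601, 104486, 23, 98568, 24589, 66121, 1281, 2563, 33810, 73748, 4228,
      32904, 84056, 37200]
    tri := [(0, 1, 5), (0, 1, 10), (0, 2, 5), (0, 2, 7), (0, 3, 7), (0, 3, 8), (0, 8, 9), (0, 9, 10),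
      (1, 4, 5), (1, 4, 11), (1, 10, 11), (2, 4, 5), (2, 4, 12), (2, 7, 13), (2, 12, 13), (3, 6,
      8), (3, 6, 15), (3, 7, 14), (3, 14, 15), (4, 11, 15), (4, 12, 16), (4, 15, 16), (6, 8, 16),
      (6, 15, 16)]
    fin := [0, 1, 1, 3, 4, 1, 3, 0, 0, 9, 1, 4, 4, 13, 3, 15, 16]
    chd := [(0, 1), (1, 13), (3, 16)]
    steps := [(0, 7), (0, 8), (1, 5), (1, 2), (1, 10), (3, 6), (3, 14), (4, 11), (4, 12)] }
  rep := [4, 15, 1, 0, 16, 13, 3, 9]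

noncomputable def v3792 : Cov.CovD where
  P := 3
  N := 5
  pl := [2, 8]
  lev := [⟨[], [], [(2, 3), (3, 3)], [7], [(0, 3, [2]), (1, 3, [2]), (3, 2, [3, 5])]⟩,
    ⟨[], [(0, 0), (0, 2), (0, 3)], [(0, 2)], [], [(3, 2, [3, 5]), (4, 0, [])]⟩,
    ⟨[(0, 1)], [(0, 0), (0, 2), (0, 3), (0, 5)], [(0, 3), (0, 5), (3, 5)], [], [(0, 3,
      [2]), (5, 0, []), (6, 5, [2])]⟩,
    ⟨[(0, 1), (0, 2)], [(0, 2), (0, 3), (0, 6), (2, 3)], [(3, 3), (3, 6)], [1], [(0, 3,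
      [2]), (1, 3, [2]), (7, 6, [4])]⟩,
    ⟨[(0, 1), (0, 2), (1, 2)], [(1, 0), (1, 2), (1, 4), (2, 0), (2, 3), (2, 4), (2, 5)],
      [(0, 0), (0, 4)], [1], [(4, 0, []), (5, 0, []), (9, 4, [6])]⟩,
    ⟨[(0, 1), (0, 2), (0, 3), (0, 4), (1, 2), (1, 4), (2, 4)], [(0, 2), (0, 3), (1, 0), (1,
      2), (2, 0), (2, 3), (2, 5), (4, 0), (4, 4)], [], [], []⟩,
    ⟨[(0, 3)], [(0, 3), (3, 3), (3, 4), (3, 6), (4, 4)], [(3, 4)], [1], [(1, 3, [2]), (9,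
      4, [6])]⟩]
  Ta := [((0, 6), 3, 5), ((0, 7), 3, 6), ((1, 2), 3, 7), ((1, 9), 3, 4), ((4, 3), 0, 2), ((4, 8),
    0, 1), ((5, 6), 0, 5), ((5, 9), 0, 4)]
  Tb := [((0, 6, 7), 3, 5, 6), ((1, 2, 9), 3, 7, 4), ((2, 1, 3), 7, 3, 2), ((3, 2, 4), 2, 7, 0),
    ((4, 3, 8), 0, 2, 1), ((5, 6, 9), 0, 5, 4), ((6, 0, 5), 5, 3, 0), ((7, 0, 8), 6, 3, 1),
    ((8, 4, 7), 1, 0, 6), ((8, 4, 9), 1, 0, 4), ((8, 7, 9), 1, 6, 4), ((9, 1, 5), 4, 3, 0),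
    ((9, 1, 8), 4, 3, 1), ((9, 5, 8), 4, 0, 1)]
  Tc := [(2, 3, 5)]
  Td := [((2, 3), (3, 2), 7), ((2, 3), (3, 4), 0), ((2, 5), (3, 2), 7), ((2, 5), (3, 4), 0), ((3,
    2), (0, 6), 5), ((3, 2), (0, 7), 6), ((3, 2), (1, 2), 7), ((3, 2), (1, 9), 4), ((4, 6),
    (9, 1), 3), ((4, 6), (9, 5), 0), ((4, 6), (9, 8), 1), ((5, 2), (6, 0), 3), ((5, 2), (6,
    5), 0), ((6, 4), (7, 0), 3), ((6, 4), (7, 8), 1)]
  G := [[0, 0x214248414e24214818818e28214888818e24d, 0x1244c128912184128128d12184848148d12e,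
    0x414148184d24114118184d28414148484d28d,
    0x124118c124852114882114118118d144852484128428d42f], [0,
    0x2121c218a18e242142121c4128ce282124146212828ac4d,
    0x1212c1489121212c1845188418c1214c8412cd18e,
    0x1451cc48118d24c149118cc1241381111c1411c8448cd24d,
    0x414c28c4448624248928441481241845f8184444424d1148c44441e2b], [0, 0, 0,
    0x444148884d21114818448d28484848484d24d,
    0x424528c12486141488818488884185c4848234148424828428dc2f], [0, 0, 0,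
    0x1451cc18918d24c849818c584d211118c1411c8448cd24d,
    0x424c28428d444862484444424d98844448e112442491248c41144845e2b]]

noncomputable def n3792 : Ent := ⟨e3792, noF, [], [], []⟩

def c3792 : PLift (Cov.check n3792.C.D v3792 = true) := ⟨by decide +kernel⟩

def b3792 : PLift (entF (fidx ts) 400 3792 n3792 = true) := ⟨by decide +kernel⟩

theorem g3792 : GoodF (fidx ts) 400 3792 := GoodF.ofV v3792 n3792 c3792.down b3792.down

/-- 8566744:2778/1 -/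
noncomputable def e3793 : SCfg where
  D := {
    a := 7
    L := 11
    kp := 8
    inn := [(0, 1), (0, 2), (0, 3), (0, 5), (1, 0), (1, 4), (1, 5), (2, 0), (2, 4), (2, 5), (3, 0), (3,
      6), (4, 1), (4, 2), (4, 5), (5, 0), (5, 1), (5, 2), (5, 4), (6, 3)]
    mix := [(0, 0), (0, 1), (0, 2), (0, 3), (1, 3), (1, 4), (2, 0), (2, 5), (2, 6), (3, 0), (3, 1), (3,
      7), (3, 8), (4, 4), (4, 5), (4, 8), (4, 9), (6, 1), (6, 8), (6, 10)]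
    cl := [3, 3, 7, 2, 0, 0, 4, 5, 1, 8, 6]
    chq := [(2, 3), (2, 4), (3, 2), (4, 2), (5, 6), (6, 5)]
    rng := [(0, 6), (0, 7), (1, 2), (1, 10), (2, 1), (2, 3), (3, 2), (3, 4), (4, 3), (4, 8), (5, 6),
      (5, 9), (6, 0), (6, 5), (7, 0), (7, 8), (8, 4), (8, 7), (8, 9), (8, 10), (9, 5), (9, 8),
      (10, 1), (10, 8)]
    lev := [] }
  links := [[1, 5, 2, 7, 3, 8, 9, 10], [4, 5, 0, 10, 11], [7, 0, 5, 4, 12, 13], [8, 0, 7, 14, 15, 6],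
    [12, 2, 5, 1, 11, 15, 16], [0, 1, 4, 2], [3, 15, 17, 8]]
  P := {
    a := 7
    N := 18
    nb := [1966, 3121, 12465, 49601, 104486, 23, 164104, 24589, 131657, 1281, 2563, 33810, 73748,
      4228, 32904, 215128, 36880, 33088]
    tri := [(0, 1, 5), (0, 1, 10), (0, 2, 5), (0, 2, 7), (0, 3, 7), (0, 3, 8), (0, 8, 9), (0, 9, 10),
      (1, 4, 5), (1, 4, 11), (1, 10, 11), (2, 4, 5), (2, 4, 12), (2, 7, 13), (2, 12, 13), (3, 6,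
      8), (3, 6, 15), (3, 7, 14), (3, 14, 15), (4, 11, 15), (4, 12, 16), (4, 15, 16), (6, 8, 17),
      (6, 15, 17)]
    fin := [0, 1, 1, 3, 4, 1, 3, 0, 0, 9, 1, 4, 4, 13, 3, 15, 16, 17]
    chd := [(0, 1), (1, 13), (3, 17)]
    steps := [(0, 7), (0, 8), (1, 5), (1, 2), (1, 10), (3, 6), (3, 14), (4, 11), (4, 12)] }
  rep := [4, 15, 1, 0, 13, 3, 17, 9, 16]

noncomputable def v3793 : Cov.CovD where
  P := 3
  N := 6
  pl := [2, 8, 9]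
  lev := [⟨[], [], [(2, 3), (3, 3)], [7], [(0, 3, [2]), (1, 3, [2]), (3, 2, [3, 4])]⟩,
    ⟨[], [(0, 0), (0, 2), (0, 3)], [(0, 2)], [], [(3, 2, [3, 4]), (4, 0, [])]⟩,
    ⟨[(0, 1)], [(0, 0), (0, 2), (0, 3), (0, 4)], [(0, 3), (0, 4), (3, 4)], [], [(0, 3,
      [2]), (5, 0, []), (6, 4, [2])]⟩,
    ⟨[(0, 1), (0, 2)], [(0, 2), (0, 3), (0, 5), (2, 3)], [(3, 3), (3, 5)], [1], [(0, 3,
      [2]), (1, 3, [2]), (7, 5, [6])]⟩,
    ⟨[(0, 1), (0, 2), (1, 2)], [(1, 0), (1, 2), (2, 0), (2, 3), (2, 4)], [(0, 0)], [1, 8],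
      [(4, 0, []), (5, 0, [])]⟩,
    ⟨[(0, 1), (0, 2), (0, 3), (0, 4), (1, 2), (1, 4), (2, 4)], [(0, 2), (0, 3), (1, 0), (1,
      2), (2, 0), (2, 3), (2, 4), (4, 0)], [], [], []⟩,
    ⟨[(0, 3)], [(0, 3), (3, 3), (3, 5), (3, 6)], [(3, 6)], [1], [(1, 3, [2]), (10, 6,
      [5])]⟩]
  Ta := [((0, 6), 3, 4), ((0, 7), 3, 5), ((1, 2), 3, 7), ((1, 10), 3, 6), ((4, 3), 0, 2), ((4,
    8), 0, 1), ((5, 6), 0, 4), ((5, 9), 0, 8)]
  Tb := [((0, 6, 7), 3, 4, 5), ((1, 2, 10), 3, 7, 6), ((2, 1, 3), 7, 3, 2), ((3, 2, 4), 2, 7, 0),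
    ((4, 3, 8), 0, 2, 1), ((5, 6, 9), 0, 4, 8), ((6, 0, 5), 4, 3, 0), ((7, 0, 8), 5, 3, 1),
    ((8, 4, 7), 1, 0, 5), ((8, 4, 9), 1, 0, 8), ((8, 4, 10), 1, 0, 6), ((8, 7, 9), 1, 5, 8),
    ((8, 7, 10), 1, 5, 6), ((8, 9, 10), 1, 8, 6), ((9, 5, 8), 8, 0, 1), ((10, 1, 8), 6, 3,
    1)]
  Tc := [(2, 3, 4)]
  Td := [((2, 3), (3, 2), 7), ((2, 3), (3, 4), 0), ((2, 4), (3, 2), 7), ((2, 4), (3, 4), 0), ((3,
    2), (0, 6), 4), ((3, 2), (0, 7), 5), ((3, 2), (1, 2), 7), ((3, 2), (1, 10), 6), ((4, 2),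
    (6, 0), 3), ((4, 2), (6, 5), 0), ((5, 6), (7, 0), 3), ((5, 6), (7, 8), 1), ((6, 5), (10,
    1), 3), ((6, 5), (10, 8), 1)]
  G := [[0, 0x844222121c848a2c2121c4148c6284121c8181c8848ce24d,
    0x1212c5488c9141218c4242c5121418c1884c8884cd12e,
    0x4111c1481c4188cd241418c1188c8481cd284141c1414c8484cd28d,
    0x4212c8181cc1444424844972184888419211481181182cc144184c4282c1f81112c4248c5844468f], [0,
    0x2121c8488ca242128c4441c6282828c2128cc8c8ce24d,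
    0x1212c8488c9141212c4442c5121212c1812cc8c8cd14e,
    0x5451c8488c8188cd244441c9191c4441cd281818c1811cc4c8cd24d,
    0x4241c8281cc444814c62414914c244484189891c488d4441da124124444d1112c48854841e2b], [0, 0,
    0, 0x4414c1484c8448cd211418c8818c8448cd211418c1181c4488cd24d,
    0x14444454242c8252cc1248e144481888812c8282cd444144444de1184844912c8c4242c51148445e2b],
    [0, 0, 0, 0x5454c8484c8484cd214848c9898c4848cd211418c1418cc4c8cd28d,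
    0x4242c8282cc444884844d61444914424d4241c9181c418dc8444144424d12842851148849e8b]]

noncomputable def n3793 : Ent := ⟨e3793, noF, [], [], [(17, 16, [7334685537875745012586738086077695515070955365108989538292687709208577, 0])]⟩

def c3793 : PLift (Cov.check n3793.C.D v3793 = true) := ⟨by decide +kernel⟩

def b3793 : PLift (entF (fidx ts) 400 3793 n3793 = true) := ⟨by decide +kernel⟩

theorem g3793 : GoodF (fidx ts) 400 3793 := GoodF.ofV v3793 n3793 c3793.down b3793.down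

/-- 8566744:2778/4 -/
noncomputable def e3794 : SCfg where
  D := {
    a := 7
    L := 10
    kp := 7
    inn := [(0, 1), (0, 2), (0, 3), (0, 5), (1, 0), (1, 4), (1, 5), (2, 0), (2, 4), (2, 5), (3, 0), (3,
      6), (4, 1), (4, 2), (4, 5), (5, 0), (5, 1), (5, 2), (5, 4), (6, 3)]
    mix := [(0, 0), (0, 1), (0, 2), (0, 3), (1, 3), (1, 4), (2, 0), (2, 5), (2, 6), (3, 0), (3, 1), (3,
      7), (3, 8), (4, 4), (4, 5), (4, 8), (4, 9), (6, 1), (6, 8), (6, 9)]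
    cl := [3, 3, 7, 2, 0, 0, 5, 6, 1, 4]
    chq := [(2, 3), (2, 5), (3, 2), (4, 6), (5, 2), (6, 4)]
    rng := [(0, 6), (0, 7), (1, 2), (1, 9), (2, 1), (2, 3), (3, 2), (3, 4), (4, 3), (4, 9), (5, 6), (5,
      8), (6, 0), (6, 5), (7, 0), (7, 8), (8, 5), (8, 7), (8, 9), (9, 1), (9, 4), (9, 8)]
    lev := [] }
  links := [[1, 5, 2, 7, 3, 8, 9, 10], [4, 5, 0, 10, 11], [7, 0, 5, 4, 12, 13], [8, 0, 7, 14, 15, 6],
    [12, 2, 5, 1, 11, 16, 15], [0, 1, 4, 2], [3, 15, 16, 8]]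
  P := {
    a := 7
    N := 17
    nb := [1966, 3121, 12465, 49601, 104486, 23, 98568, 24589, 66121, 1281, 2563, 66578, 40980, 4228,
      32904, 86104, 35152]
    tri := [(0, 1, 5), (0, 1, 10), (0, 2, 5), (0, 2, 7), (0, 3, 7), (0, 3, 8), (0, 8, 9), (0, 9, 10),
      (1, 4, 5), (1, 4, 11), (1, 10, 11), (2, 4, 5), (2, 4, 12), (2, 7, 13), (2, 12, 13), (3, 6,
      8), (3, 6, 15), (3, 7, 14), (3, 14, 15), (4, 11, 16), (4, 12, 15), (4, 15, 16), (6, 8, 16),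
      (6, 15, 16)]
    fin := [0, 1, 1, 3, 4, 1, 3, 0, 0, 9, 1, 4, 4, 13, 3, 15, 16]
    chd := [(0, 1), (1, 13), (3, 16)]
    steps := [(0, 7), (0, 8), (1, 5), (1, 2), (1, 10), (3, 6), (3, 14), (4, 11), (4, 12)] }
  rep := [4, 15, 1, 0, 16, 13, 3, 9]

noncomputable def v3794 : Cov.CovD where
  P := 3
  N := 5
  pl := [2, 8]
  lev := [⟨[], [], [(2, 3), (3, 3)], [7], [(0, 3, [2]), (1, 3, [2]), (3, 2, [3, 5])]⟩,
    ⟨[], [(0, 0), (0, 2), (0, 3)], [(0, 2)], [], [(3, 2, [3, 5]), (4, 0, [])]⟩,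
    ⟨[(0, 1)], [(0, 0), (0, 2), (0, 3), (0, 5)], [(0, 3), (0, 5), (3, 5)], [], [(0, 3,
      [2]), (5, 0, []), (6, 5, [2])]⟩,
    ⟨[(0, 1), (0, 2)], [(0, 2), (0, 3), (0, 6), (2, 3)], [(3, 3), (3, 6)], [1], [(0, 3,
      [2]), (1, 3, [2]), (7, 6, [4])]⟩,
    ⟨[(0, 1), (0, 2), (1, 2)], [(1, 0), (1, 2), (1, 4), (2, 0), (2, 3), (2, 4), (2, 5)],
      [(0, 0), (0, 4)], [1], [(4, 0, []), (5, 0, []), (9, 4, [6])]⟩,
    ⟨[(0, 1), (0, 2), (0, 3), (0, 4), (1, 2), (1, 4), (2, 4)], [(0, 2), (0, 3), (1, 0), (1,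
      2), (2, 0), (2, 3), (2, 5), (4, 0), (4, 4)], [], [], []⟩,
    ⟨[(0, 3)], [(0, 3), (3, 3), (3, 4), (3, 6), (4, 4)], [(3, 4)], [1], [(1, 3, [2]), (9,
      4, [6])]⟩]
  Ta := [((0, 6), 3, 5), ((0, 7), 3, 6), ((1, 2), 3, 7), ((1, 9), 3, 4), ((4, 3), 0, 2), ((4, 9),
    0, 4), ((5, 6), 0, 5), ((5, 8), 0, 1)]
  Tb := [((0, 6, 7), 3, 5, 6), ((1, 2, 9), 3, 7, 4), ((2, 1, 3), 7, 3, 2), ((3, 2, 4), 2, 7, 0),
    ((4, 3, 9), 0, 2, 4), ((5, 6, 8), 0, 5, 1), ((6, 0, 5), 5, 3, 0), ((7, 0, 8), 6, 3, 1),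
    ((8, 5, 7), 1, 0, 6), ((8, 5, 9), 1, 0, 4), ((8, 7, 9), 1, 6, 4), ((9, 1, 4), 4, 3, 0),
    ((9, 1, 8), 4, 3, 1), ((9, 4, 8), 4, 0, 1)]
  Tc := [(2, 3, 5)]
  Td := [((2, 3), (3, 2), 7), ((2, 3), (3, 4), 0), ((2, 5), (3, 2), 7), ((2, 5), (3, 4), 0), ((3,
    2), (0, 6), 5), ((3, 2), (0, 7), 6), ((3, 2), (1, 2), 7), ((3, 2), (1, 9), 4), ((4, 6),
    (9, 1), 3), ((4, 6), (9, 4), 0), ((4, 6), (9, 8), 1), ((5, 2), (6, 0), 3), ((5, 2), (6,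
    5), 0), ((6, 4), (7, 0), 3), ((6, 4), (7, 8), 1)]
  G := [[0, 0, 0x1212c1289121212c184518184828128d14e, 0x414148448d24184818884d28414818484d28d,
    0x424118c1444849524148884448218488188185ca114128888d42f], [0, 0,
    0x1214c1489121212c1245181818c1444c8818cd12e,
    0x1451cc48918d24c149118c4111cd281118c1444c8448cd28d,
    0x424c18c444862444144c414918c4441d2144124444d11842854148e2b], [0,
    0x414248448e24284288848e21284248418e24d, 0, 0x144148148d21184188184d21184118848d28d,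
    0x1144145424128c1448e2124818812851848e14148114128428dc2b], [0,
    0x2424c2482488ce212121c61462821244462121c848aa8d, 0,
    0x1454cc48148d21c849818c184d218418c1441c8448cd24d,
    0x414c18c414814962424444124d424988cc1424414444d12882854848e2b]]

noncomputable def n3794 : Ent := ⟨e3794, noF, [], [], []⟩

def c3794 : PLift (Cov.check n3794.C.D v3794 = true) := ⟨by decide +kernel⟩

def b3794 : PLift (entF (fidx ts) 400 3794 n3794 = true) := ⟨by decide +kernel⟩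

theorem g3794 : GoodF (fidx ts) 400 3794 := GoodF.ofV v3794 n3794 c3794.down b3794.down

/-- 8566744:2778/3 -/
noncomputable def e3795 : SCfg where
  D := {
    a := 7
    L := 11
    kp := 8
    inn := [(0, 1), (0, 2), (0, 3), (0, 5), (1, 0), (1, 4), (1, 5), (2, 0), (2, 4), (2, 5), (3, 0), (3,
      6), (4, 1), (4, 2), (4, 5), (5, 0), (5, 1), (5, 2), (5, 4), (6, 3)]
    mix := [(0, 0), (0, 1), (0, 2), (0, 3), (1, 3), (1, 4), (2, 0), (2, 5), (2, 6), (3, 0), (3, 1), (3,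
      7), (3, 8), (4, 4), (4, 5), (4, 8), (4, 9), (6, 1), (6, 8), (6, 10)]
    cl := [3, 3, 7, 2, 0, 0, 4, 5, 1, 8, 6]
    chq := [(2, 3), (2, 4), (3, 2), (4, 2), (5, 6), (6, 5)]
    rng := [(0, 6), (0, 7), (1, 2), (1, 10), (2, 1), (2, 3), (3, 2), (3, 4), (4, 3), (4, 9), (5, 6),
      (5, 8), (6, 0), (6, 5), (7, 0), (7, 8), (8, 5), (8, 7), (8, 9), (8, 10), (9, 4), (9, 8),
      (10, 1), (10, 8)]
    lev := [] }
  links := [[1, 5, 2, 7, 3, 8, 9, 10], [4, 5, 0, 10, 11], [7, 0, 5, 4, 12, 13], [8, 0, 7, 14, 15, 6],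
    [12, 2, 5, 1, 11, 16, 15], [0, 1, 4, 2], [3, 15, 17, 8]]
  P := {
    a := 7
    N := 18
    nb := [1966, 3121, 12465, 49601, 104486, 23, 164104, 24589, 131657, 1281, 2563, 66578, 40980,
      4228, 32904, 217176, 34832, 33088]
    tri := [(0, 1, 5), (0, 1, 10), (0, 2, 5), (0, 2, 7), (0, 3, 7), (0, 3, 8), (0, 8, 9), (0, 9, 10),
      (1, 4, 5), (1, 4, 11), (1, 10, 11), (2, 4, 5), (2, 4, 12), (2, 7, 13), (2, 12, 13), (3, 6,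
      8), (3, 6, 15), (3, 7, 14), (3, 14, 15), (4, 11, 16), (4, 12, 15), (4, 15, 16), (6, 8, 17),
      (6, 15, 17)]
    fin := [0, 1, 1, 3, 4, 1, 3, 0, 0, 9, 1, 4, 4, 13, 3, 15, 16, 17]
    chd := [(0, 1), (1, 13), (3, 17)]
    steps := [(0, 7), (0, 8), (1, 5), (1, 2), (1, 10), (3, 6), (3, 14), (4, 11), (4, 12)] }
  rep := [4, 15, 1, 0, 13, 3, 17, 9, 16]

noncomputable def v3795 : Cov.CovD where
  P := 3
  N := 6
  pl := [2, 8, 9]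
  lev := [⟨[], [], [(2, 3), (3, 3)], [7], [(0, 3, [2]), (1, 3, [2]), (3, 2, [3, 4])]⟩,
    ⟨[], [(0, 0), (0, 2), (0, 3)], [(0, 2)], [], [(3, 2, [3, 4]), (4, 0, [])]⟩,
    ⟨[(0, 1)], [(0, 0), (0, 2), (0, 3), (0, 4)], [(0, 3), (0, 4), (3, 4)], [], [(0, 3,
      [2]), (5, 0, []), (6, 4, [2])]⟩,
    ⟨[(0, 1), (0, 2)], [(0, 2), (0, 3), (0, 5), (2, 3)], [(3, 3), (3, 5)], [1], [(0, 3,
      [2]), (1, 3, [2]), (7, 5, [6])]⟩,
    ⟨[(0, 1), (0, 2), (1, 2)], [(1, 0), (1, 2), (2, 0), (2, 3), (2, 4)], [(0, 0)], [1, 8],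
      [(4, 0, []), (5, 0, [])]⟩,
    ⟨[(0, 1), (0, 2), (0, 3), (0, 4), (1, 2), (1, 4), (2, 4)], [(0, 2), (0, 3), (1, 0), (1,
      2), (2, 0), (2, 3), (2, 4), (4, 0)], [], [], []⟩,
    ⟨[(0, 3)], [(0, 3), (3, 3), (3, 5), (3, 6)], [(3, 6)], [1], [(1, 3, [2]), (10, 6,
      [5])]⟩]
  Ta := [((0, 6), 3, 4), ((0, 7), 3, 5), ((1, 2), 3, 7), ((1, 10), 3, 6), ((4, 3), 0, 2), ((4,
    9), 0, 8), ((5, 6), 0, 4), ((5, 8), 0, 1)]
  Tb := [((0, 6, 7), 3, 4, 5), ((1, 2, 10), 3, 7, 6), ((2, 1, 3), 7, 3, 2), ((3, 2, 4), 2, 7, 0),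
    ((4, 3, 9), 0, 2, 8), ((5, 6, 8), 0, 4, 1), ((6, 0, 5), 4, 3, 0), ((7, 0, 8), 5, 3, 1),
    ((8, 5, 7), 1, 0, 5), ((8, 5, 9), 1, 0, 8), ((8, 5, 10), 1, 0, 6), ((8, 7, 9), 1, 5, 8),
    ((8, 7, 10), 1, 5, 6), ((8, 9, 10), 1, 8, 6), ((9, 4, 8), 8, 0, 1), ((10, 1, 8), 6, 3,
    1)]
  Tc := [(2, 3, 4)]
  Td := [((2, 3), (3, 2), 7), ((2, 3), (3, 4), 0), ((2, 4), (3, 2), 7), ((2, 4), (3, 4), 0), ((3,
    2), (0, 6), 4), ((3, 2), (0, 7), 5), ((3, 2), (1, 2), 7), ((3, 2), (1, 10), 6), ((4, 2),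
    (6, 0), 3), ((4, 2), (6, 5), 0), ((5, 6), (7, 0), 3), ((5, 6), (7, 8), 1), ((6, 5), (10,
    1), 3), ((6, 5), (10, 8), 1)]
  G := [[0, 0, 0x1214c8252c912928111818c4845161418c1282c8882cd14e,
    0x1411c8111c8448cd241141c1181c8181cd284144c8481c8488cd28d,
    0x84444111c5288cc4448d211488214481281112cc114114c4448c1f884411818c4248c58148445e2f], [0,
    0, 0x1214c8482c9121218c4448c5121418c1818cc4c8cd12e,
    0x5451c8188c8188cd244441c9198c4448cd281811c1111cc4c8cd24d,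
    0x4142c8281cc444814c484172444944c4289288c428d41484241f8114144424d1212c4248c5c8b], [0,
    0x2424c8484ca212828ca848c6214128c8488c4484ce28d, 0,
    0x4141c1488c8188cd241448c8888c4488cd214841c8111c8888cd24d,
    0x14444454242c5288cc4448e1144814414d248481881888c8888cdcac1484491812c4848c58144845e2b],
    [0, 0x2421c8488ca242121c4141c6282428c2121cc4c8ce24d, 0,
    0x5454c8484c8484cd214141c9191c4148cd281114c1114cc4c8cd28d,
    0x4141c8181cc414814c62444924444d428918428d484844444de8184114424d1218c42854441e2b]]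

noncomputable def n3795 : Ent := ⟨e3795, noF, [], [], [(17, 16, [7334685537875745012586738086077695515070955365108989538292687709216769, 0])]⟩

def c3795 : PLift (Cov.check n3795.C.D v3795 = true) := ⟨by decide +kernel⟩

def b3795 : PLift (entF (fidx ts) 400 3795 n3795 = true) := ⟨by decide +kernel⟩

theorem g3795 : GoodF (fidx ts) 400 3795 := GoodF.ofV v3795 n3795 c3795.down b3795.down

/-- 8566744:2778/5 -/
noncomputable def e3796 : SCfg where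
  D := {
    a := 7
    L := 11
    kp := 8
    inn := [(0, 1), (0, 2), (0, 3), (0, 5), (1, 0), (1, 4), (1, 5), (2, 0), (2, 4), (2, 5), (3, 0), (3,
      6), (4, 1), (4, 2), (4, 5), (5, 0), (5, 1), (5, 2), (5, 4), (6, 3)]
    mix := [(0, 0), (0, 1), (0, 2), (0, 3), (1, 3), (1, 4), (2, 0), (2, 5), (2, 6), (3, 0), (3, 1), (3,
      7), (3, 8), (4, 4), (4, 5), (4, 9), (4, 10), (6, 1), (6, 8), (6, 9)]
    cl := [0, 0, 7, 2, 1, 1, 5, 6, 4, 3, 8]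
    chq := [(0, 2), (2, 0), (2, 5), (3, 6), (5, 2), (6, 3)]
    rng := [(0, 6), (0, 7), (1, 2), (1, 9), (2, 1), (2, 3), (3, 2), (3, 4), (4, 3), (4, 9), (5, 6), (5,
      10), (6, 0), (6, 5), (7, 0), (7, 8), (8, 7), (8, 9), (9, 1), (9, 4), (9, 8), (9, 10), (10,
      5), (10, 9)]
    lev := [] }
  links := [[1, 5, 2, 7, 3, 8, 9, 10], [4, 5, 0, 10, 11], [7, 0, 5, 4, 12, 13], [8, 0, 7, 14, 15, 6],
    [12, 2, 5, 1, 11, 16, 17], [0, 1, 4, 2], [3, 15, 16, 8]]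
  P := {
    a := 7
    N := 18
    nb := [1966, 3121, 12465, 49601, 202790, 23, 98568, 24589, 66121, 1281, 2563, 66578, 139284, 4228,
      32904, 81992, 166224, 69648]
    tri := [(0, 1, 5), (0, 1, 10), (0, 2, 5), (0, 2, 7), (0, 3, 7), (0, 3, 8), (0, 8, 9), (0, 9, 10),
      (1, 4, 5), (1, 4, 11), (1, 10, 11), (2, 4, 5), (2, 4, 12), (2, 7, 13), (2, 12, 13), (3, 6,
      8), (3, 6, 15), (3, 7, 14), (3, 14, 15), (4, 11, 16), (4, 12, 17), (4, 16, 17), (6, 8, 16),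
      (6, 15, 16)]
    fin := [0, 1, 1, 3, 4, 1, 3, 0, 0, 9, 1, 4, 4, 13, 3, 15, 16, 17]
    chd := [(0, 1), (1, 13), (3, 16)]
    steps := [(0, 7), (0, 8), (1, 5), (1, 2), (1, 10), (3, 6), (3, 14), (4, 11), (4, 12)] }
  rep := [0, 4, 1, 16, 15, 13, 3, 9, 17]

noncomputable def v3796 : Cov.CovD where
  P := 3
  N := 6
  pl := [2, 8, 10]
  lev := [⟨[], [], [(0, 0), (0, 2)], [7], [(0, 0, [2]), (1, 0, [2]), (3, 2, [0, 5])]⟩,
    ⟨[], [(0, 0), (0, 1), (0, 2)], [(1, 2)], [], [(3, 2, [0, 5]), (4, 1, [])]⟩,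
    ⟨[(0, 1)], [(0, 0), (0, 1), (0, 2), (0, 5)], [(0, 1), (0, 5), (1, 5)], [], [(0, 0,
      [2]), (5, 1, []), (6, 5, [2])]⟩,
    ⟨[(0, 1), (0, 2)], [(0, 0), (0, 2), (0, 6), (2, 0)], [(0, 0), (0, 6)], [4], [(0, 0,
      [2]), (1, 0, [2]), (7, 6, [3])]⟩,
    ⟨[(0, 1), (0, 2), (1, 2)], [(1, 1), (1, 2), (1, 3), (2, 0), (2, 1), (2, 3), (2, 5)],
      [(1, 1), (1, 3)], [8], [(4, 1, []), (5, 1, []), (9, 3, [6])]⟩,
    ⟨[(0, 1), (0, 2), (0, 3), (0, 4), (1, 2), (1, 4), (2, 4)], [(0, 0), (0, 2), (1, 1), (1,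
      2), (2, 0), (2, 1), (2, 5), (4, 1), (4, 3)], [], [], []⟩,
    ⟨[(0, 3)], [(0, 0), (3, 0), (3, 3), (3, 6), (4, 3)], [(0, 3)], [4], [(1, 0, [2]), (9,
      3, [6])]⟩]
  Ta := [((0, 6), 0, 5), ((0, 7), 0, 6), ((1, 2), 0, 7), ((1, 9), 0, 3), ((4, 3), 1, 2), ((4, 9),
    1, 3), ((5, 6), 1, 5), ((5, 10), 1, 8)]
  Tb := [((0, 6, 7), 0, 5, 6), ((1, 2, 9), 0, 7, 3), ((2, 1, 3), 7, 0, 2), ((3, 2, 4), 2, 7, 1),
    ((4, 3, 9), 1, 2, 3), ((5, 6, 10), 1, 5, 8), ((6, 0, 5), 5, 0, 1), ((7, 0, 8), 6, 0, 4),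
    ((8, 7, 9), 4, 6, 3), ((9, 1, 4), 3, 0, 1), ((9, 1, 8), 3, 0, 4), ((9, 1, 10), 3, 0, 8),
    ((9, 4, 8), 3, 1, 4), ((9, 4, 10), 3, 1, 8), ((9, 8, 10), 3, 4, 8), ((10, 5, 9), 8, 1,
    3)]
  Tc := [(2, 0, 5)]
  Td := [((0, 2), (0, 6), 5), ((0, 2), (0, 7), 6), ((0, 2), (1, 2), 7), ((0, 2), (1, 9), 3), ((2,
    0), (3, 2), 7), ((2, 0), (3, 4), 1), ((2, 5), (3, 2), 7), ((2, 5), (3, 4), 1), ((3, 6),
    (9, 1), 0), ((3, 6), (9, 4), 1), ((3, 6), (9, 8), 4), ((3, 6), (9, 10), 8), ((5, 2), (6,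
    0), 0), ((5, 2), (6, 5), 1), ((6, 3), (7, 0), 0), ((6, 3), (7, 8), 4)]
  G := [[0, 0x2822111134e944114e545824ee642822813111e111138e915821ee68382182c44e,
    0x146114d314134d111854de24816838d1111a1d344114de28c,
    0x241134d142134d212418de21146111d311838d842124de28c,
    0x111212d3132911a89e4144846611148884144146811168d9121a2d114818dec1e], [0,
    0x1422141434e344414ec45828eea11422883818e981838e14c828eea1382342c81e,
    0x311141111e1428c2424c652611121241e21128212c2412cad8321121941e121381c8262c1442ccd8e, 0,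
    0x4144211112d114838d222828dec1524114a814244821232d9242a1d114118dec8e], [0,
    0x2822616161ea141a8ec4c124ee642122816168ea1a1a1ec1c824ee68642a42c88e,
    0x111943191141a1de24845118d283151411c8de281418ca848cc14e,
    0x616161da141a8d242828de24886864da8a1a8d212128de21c,
    0x616164da141a4d64a1c8de2188689a2a89c1c89e684424c84e51a], [0,
    0x612222a646161ea141a8ec4c821ee64622222a614a1a1a8ec8246e68168ac18a2ca42484e,
    0x641141211e42311111281e28121838c3818c2428ced2541311111e111341c8264c1248c8418ced8e, 0,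
    0x621a81221e6264ca248c2428ce5181689a21c11e624a244cc4c8ce58a]]

noncomputable def n3796 : Ent := ⟨e3796, noF, [], [], [(15, 17, [6903326391201334775872065844685381424292761054348340378595029945229313, 0])]⟩

def c3796 : PLift (Cov.check n3796.C.D v3796 = true) := ⟨by decide +kernel⟩

def b3796 : PLift (entF (fidx ts) 400 3796 n3796 = true) := ⟨by decide +kernel⟩

theorem g3796 : GoodF (fidx ts) 400 3796 := GoodF.ofV v3796 n3796 c3796.down b3796.down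

/-- 8566744:2778/6 -/
noncomputable def e3797 : SCfg where
  D := {
    a := 7
    L := 11
    kp := 8
    inn := [(0, 1), (0, 2), (0, 3), (0, 5), (1, 0), (1, 4), (1, 5), (2, 0), (2, 4), (2, 5), (3, 0), (3,
      6), (4, 1), (4, 2), (4, 5), (5, 0), (5, 1), (5, 2), (5, 4), (6, 3)]
    mix := [(0, 0), (0, 1), (0, 2), (0, 3), (1, 3), (1, 4), (2, 0), (2, 5), (2, 6), (3, 0), (3, 1), (3,
      7), (3, 8), (4, 4), (4, 5), (4, 9), (4, 10), (6, 1), (6, 8), (6, 10)]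
    cl := [0, 0, 7, 2, 1, 1, 5, 6, 4, 8, 3]
    chq := [(0, 2), (2, 0), (2, 5), (3, 6), (5, 2), (6, 3)]
    rng := [(0, 6), (0, 7), (1, 2), (1, 10), (2, 1), (2, 3), (3, 2), (3, 4), (4, 3), (4, 9), (5, 6),
      (5, 10), (6, 0), (6, 5), (7, 0), (7, 8), (8, 7), (8, 10), (9, 4), (9, 10), (10, 1), (10, 5),
      (10, 8), (10, 9)]
    lev := [] }
  links := [[1, 5, 2, 7, 3, 8, 9, 10], [4, 5, 0, 10, 11], [7, 0, 5, 4, 12, 13], [8, 0, 7, 14, 15, 6],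
    [12, 2, 5, 1, 11, 16, 17], [0, 1, 4, 2], [3, 15, 17, 8]]
  P := {
    a := 7
    N := 18
    nb := [1966, 3121, 12465, 49601, 202790, 23, 164104, 24589, 131657, 1281, 2563, 66578, 139284,
      4228, 32904, 147528, 133136, 102736]
    tri := [(0, 1, 5), (0, 1, 10), (0, 2, 5), (0, 2, 7), (0, 3, 7), (0, 3, 8), (0, 8, 9), (0, 9, 10),
      (1, 4, 5), (1, 4, 11), (1, 10, 11), (2, 4, 5), (2, 4, 12), (2, 7, 13), (2, 12, 13), (3, 6,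
      8), (3, 6, 15), (3, 7, 14), (3, 14, 15), (4, 11, 16), (4, 12, 17), (4, 16, 17), (6, 8, 17),
      (6, 15, 17)]
    fin := [0, 1, 1, 3, 4, 1, 3, 0, 0, 9, 1, 4, 4, 13, 3, 15, 16, 17]
    chd := [(0, 1), (1, 13), (3, 17)]
    steps := [(0, 7), (0, 8), (1, 5), (1, 2), (1, 10), (3, 6), (3, 14), (4, 11), (4, 12)] }
  rep := [0, 4, 1, 17, 15, 13, 3, 9, 16]

noncomputable def v3797 : Cov.CovD where
  P := 3
  N := 6
  pl := [2, 8, 9]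
  lev := [⟨[], [], [(0, 0), (0, 2)], [7], [(0, 0, [2]), (1, 0, [2]), (3, 2, [0, 5])]⟩,
    ⟨[], [(0, 0), (0, 1), (0, 2)], [(1, 2)], [], [(3, 2, [0, 5]), (4, 1, [])]⟩,
    ⟨[(0, 1)], [(0, 0), (0, 1), (0, 2), (0, 5)], [(0, 1), (0, 5), (1, 5)], [], [(0, 0,
      [2]), (5, 1, []), (6, 5, [2])]⟩,
    ⟨[(0, 1), (0, 2)], [(0, 0), (0, 2), (0, 6), (2, 0)], [(0, 0), (0, 6)], [4], [(0, 0,
      [2]), (1, 0, [2]), (7, 6, [3])]⟩,
    ⟨[(0, 1), (0, 2), (1, 2)], [(1, 1), (1, 2), (1, 3), (2, 0), (2, 1), (2, 3), (2, 5)],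
      [(1, 1), (1, 3)], [8], [(4, 1, []), (5, 1, []), (10, 3, [6])]⟩,
    ⟨[(0, 1), (0, 2), (0, 3), (0, 4), (1, 2), (1, 4), (2, 4)], [(0, 0), (0, 2), (1, 1), (1,
      2), (2, 0), (2, 1), (2, 5), (4, 1), (4, 3)], [], [], []⟩,
    ⟨[(0, 3)], [(0, 0), (3, 0), (3, 3), (3, 6), (4, 3)], [(0, 3)], [4], [(1, 0, [2]), (10,
      3, [6])]⟩]
  Ta := [((0, 6), 0, 5), ((0, 7), 0, 6), ((1, 2), 0, 7), ((1, 10), 0, 3), ((4, 3), 1, 2), ((4,
    9), 1, 8), ((5, 6), 1, 5), ((5, 10), 1, 3)]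
  Tb := [((0, 6, 7), 0, 5, 6), ((1, 2, 10), 0, 7, 3), ((2, 1, 3), 7, 0, 2), ((3, 2, 4), 2, 7, 1),
    ((4, 3, 9), 1, 2, 8), ((5, 6, 10), 1, 5, 3), ((6, 0, 5), 5, 0, 1), ((7, 0, 8), 6, 0, 4),
    ((8, 7, 10), 4, 6, 3), ((9, 4, 10), 8, 1, 3), ((10, 1, 5), 3, 0, 1), ((10, 1, 8), 3, 0,
    4), ((10, 1, 9), 3, 0, 8), ((10, 5, 8), 3, 1, 4), ((10, 5, 9), 3, 1, 8), ((10, 8, 9), 3,
    4, 8)]
  Tc := [(2, 0, 5)]
  Td := [((0, 2), (0, 6), 5), ((0, 2), (0, 7), 6), ((0, 2), (1, 2), 7), ((0, 2), (1, 10), 3),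
    ((2, 0), (3, 2), 7), ((2, 0), (3, 4), 1), ((2, 5), (3, 2), 7), ((2, 5), (3, 4), 1), ((3,
    6), (10, 1), 0), ((3, 6), (10, 5), 1), ((3, 6), (10, 8), 4), ((3, 6), (10, 9), 8), ((5,
    2), (6, 0), 0), ((5, 2), (6, 5), 1), ((6, 3), (7, 0), 0), ((6, 3), (7, 8), 4)]
  G := [[0, 0x1122111134e314811ec15824ee642222841134e113811e94c828eea8312382c48e,
    0x1412424562113491121cc2c841134d181242124de281243424c188e11e,
    0x211111d114838d242124de24815818d1128a8d211121de28c,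
    0x211134d114814d212824de21114414414e223132d311832d114818dec1a], [0,
    0x9441a4e42322122222e641414e14b824ea6512228263228841864ea83818e145828eee1c,
    0x3212416111a11211e2252c3448c5212ced4121211a84611141c311121981e8418ca848c1458ced4e, 0,
    0x4144121252da14838d114812dec1584184a822844815812d181138d8118c8dec1e], [0,
    0xa422426646164ea448a1ec1c828eea4a222426816861ea1a8a1ec1c121eea8612888e,
    0x111111d3441a4d242128de24811861d112811d842121de28c,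
    0x616164da148a8d212828de21816868da8a8a8d212128de21c,
    0x616164da444a4d212828de21621a1a89c81e8468c424c4c8ce58a], [0,
    0x2222646161ea441a1ec1c821eea42222886864ea8a8a8ec8c824ee61642a42c88e,
    0x141221642412c9444c1448ce19681911141e381a81ac2521a81141e111321cc8458c9244c1414ce15e, 0,
    0x611a1a89a81e6464c444c468ce5282689a21c81e684a242cc4c8ce58a]]

noncomputable def n3797 : Ent := ⟨e3797, noF, [], [], [(15, 16, [7334685537875745012586738086077695515070955365108989538292687709208577, 0])]⟩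

def c3797 : PLift (Cov.check n3797.C.D v3797 = true) := ⟨by decide +kernel⟩

def b3797 : PLift (entF (fidx ts) 400 3797 n3797 = true) := ⟨by decide +kernel⟩

theorem g3797 : GoodF (fidx ts) 400 3797 := GoodF.ofV v3797 n3797 c3797.down b3797.down

/-- 8566744:2778 -/
noncomputable def e3798 : SCfg where
  D := {
    a := 7
    L := 12
    kp := 9
    inn := [(0, 1), (0, 2), (0, 3), (0, 5), (1, 0), (1, 4), (1, 5), (2, 0), (2, 4), (2, 5), (3, 0), (3,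
      6), (4, 1), (4, 2), (4, 5), (5, 0), (5, 1), (5, 2), (5, 4), (6, 3)]
    mix := [(0, 0), (0, 1), (0, 2), (0, 3), (1, 3), (1, 4), (2, 0), (2, 5), (2, 6), (3, 0), (3, 1), (3,
      7), (3, 8), (4, 4), (4, 5), (4, 9), (4, 10), (6, 1), (6, 8), (6, 11)]
    cl := [0, 0, 7, 2, 1, 1, 4, 5, 3, 8, 9, 6]
    chq := [(0, 2), (2, 0), (2, 4), (4, 2), (5, 6), (6, 5)]
    rng := [(0, 6), (0, 7), (1, 2), (1, 11), (2, 1), (2, 3), (3, 2), (3, 4), (4, 3), (4, 9), (5, 6),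
      (5, 10), (6, 0), (6, 5), (7, 0), (7, 8), (8, 7), (8, 11), (9, 4), (9, 10), (10, 5), (10, 9),
      (11, 1), (11, 8)]
    lev := [] }
  links := [[1, 5, 2, 7, 3, 8, 9, 10], [4, 5, 0, 10, 11], [7, 0, 5, 4, 12, 13], [8, 0, 7, 14, 15, 6],
    [12, 2, 5, 1, 11, 16, 17], [0, 1, 4, 2], [3, 15, 18, 8]]
  P := {
    a := 7
    N := 19
    nb := [1966, 3121, 12465, 49601, 202790, 23, 295176, 24589, 262729, 1281, 2563, 66578, 139284,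
      4228, 32904, 278600, 133136, 69648, 33088]
    tri := [(0, 1, 5), (0, 1, 10), (0, 2, 5), (0, 2, 7), (0, 3, 7), (0, 3, 8), (0, 8, 9), (0, 9, 10),
      (1, 4, 5), (1, 4, 11), (1, 10, 11), (2, 4, 5), (2, 4, 12), (2, 7, 13), (2, 12, 13), (3, 6,
      8), (3, 6, 15), (3, 7, 14), (3, 14, 15), (4, 11, 16), (4, 12, 17), (4, 16, 17), (6, 8, 18),
      (6, 15, 18)]
    fin := [0, 1, 1, 3, 4, 1, 3, 0, 0, 9, 1, 4, 4, 13, 3, 15, 16, 17, 18]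
    chd := [(0, 1), (1, 13), (3, 18)]
    steps := [(0, 7), (0, 8), (1, 5), (1, 2), (1, 10), (3, 6), (3, 14), (4, 11), (4, 12)] }
  rep := [0, 4, 1, 15, 13, 3, 18, 9, 16, 17]

noncomputable def v3798 : Cov.CovD where
  P := 3
  N := 7
  pl := [2, 8, 9, 10]
  lev := [⟨[], [], [(0, 0), (0, 2)], [7], [(0, 0, [2]), (1, 0, [2]), (3, 2, [0, 4])]⟩,
    ⟨[], [(0, 0), (0, 1), (0, 2)], [(1, 2)], [], [(3, 2, [0, 4]), (4, 1, [])]⟩,
    ⟨[(0, 1)], [(0, 0), (0, 1), (0, 2), (0, 4)], [(0, 1), (0, 4), (1, 4)], [], [(0, 0,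
      [2]), (5, 1, []), (6, 4, [2])]⟩,
    ⟨[(0, 1), (0, 2)], [(0, 0), (0, 2), (0, 5), (2, 0)], [(0, 0), (0, 5)], [3], [(0, 0,
      [2]), (1, 0, [2]), (7, 5, [6])]⟩,
    ⟨[(0, 1), (0, 2), (1, 2)], [(1, 1), (1, 2), (2, 0), (2, 1), (2, 4)], [(1, 1)], [8, 9],
      [(4, 1, []), (5, 1, [])]⟩,
    ⟨[(0, 1), (0, 2), (0, 3), (0, 4), (1, 2), (1, 4), (2, 4)], [(0, 0), (0, 2), (1, 1), (1,
      2), (2, 0), (2, 1), (2, 4), (4, 1)], [], [], []⟩,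
    ⟨[(0, 3)], [(0, 0), (3, 0), (3, 5), (3, 6)], [(0, 6)], [3], [(1, 0, [2]), (11, 6,
      [5])]⟩]
  Ta := [((0, 6), 0, 4), ((0, 7), 0, 5), ((1, 2), 0, 7), ((1, 11), 0, 6), ((4, 3), 1, 2), ((4,
    9), 1, 8), ((5, 6), 1, 4), ((5, 10), 1, 9)]
  Tb := [((0, 6, 7), 0, 4, 5), ((1, 2, 11), 0, 7, 6), ((2, 1, 3), 7, 0, 2), ((3, 2, 4), 2, 7, 1),
    ((4, 3, 9), 1, 2, 8), ((5, 6, 10), 1, 4, 9), ((6, 0, 5), 4, 0, 1), ((7, 0, 8), 5, 0, 3),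
    ((8, 7, 11), 3, 5, 6), ((9, 4, 10), 8, 1, 9), ((10, 5, 9), 9, 1, 8), ((11, 1, 8), 6, 0,
    3)]
  Tc := [(2, 0, 4)]
  Td := [((0, 2), (0, 6), 4), ((0, 2), (0, 7), 5), ((0, 2), (1, 2), 7), ((0, 2), (1, 11), 6),
    ((2, 0), (3, 2), 7), ((2, 0), (3, 4), 1), ((2, 4), (3, 2), 7), ((2, 4), (3, 4), 1), ((4,
    2), (6, 0), 0), ((4, 2), (6, 5), 1), ((5, 6), (7, 0), 0), ((5, 6), (7, 8), 3), ((6, 5),
    (11, 1), 0), ((6, 5), (11, 8), 3)]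
  G := [[0, 0x1222116154ea43891e545114eea41822141111e313838eb45154ee68542782c48e,
    0x641164d11149941e24113168d11185c49891de2834a2cc458c611e,
    0x146151d349191d511818de24583134d911818d189878de21c,
    0x615464d119894d941418de21514914114eb11252d92a1a2d11c811dec8a], [0,
    0x5422545154ea4a198e111118eea45222515158ea191a1e141818ee68142382c81e,
    0x141c11648381111981e611981a1818ca838c58c8ced2121a21511e381121c5262c7494c1418ced8e, 0,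
    0xa444611232d913212d115198dec1184584a82a144121218da83832d58c858dec1e], [0,
    0xc222646164ea1a1a8ec1c8c1eea4c822616164ea1a8a8ec4c1c1ee68612a42c48e,
    0x346151d14949c49811de24315168d11115941194de2818a8c411e,
    0x616164da1a1a8dc4c1c8de21646868da1a8a8dc4c1c8de21c,
    0x616464da4a8a4dc4c1c4de21621a2a29c1c89e6264ca84c44e58a], [0,
    0xc822646164ea1a1a8ec1c8c8ee64c822686864ea8a8a8ec8c8c4ee61642a42c81e,
    0x1411416521a21181ec4311921a32b8c1298c9418ce98521921c681911111e6218c92a8c14c8ced8e, 0,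
    0x621a1a89c1c29e6262ca44c84e5162629a81c81e644a8a4cc8c8ce51a]]

noncomputable def n3798 : Ent := ⟨e3798, noF, [], [], [(15, 16, [31810581851548793677511941751458610980409781099126250235727204310993145857, 0]), (15, 17, [31810150492402119267275227079217218666319002904815489586567506653229166593, 0]), (18, 16, [30044166145917083758165358922957084778673075396561391926765295767464525825, 0]), (18, 17, [31810150492402119267275227079217218666319002904815489586567506653229174785, 0])]⟩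

def c3798 : PLift (Cov.check n3798.C.D v3798 = true) := ⟨by decide +kernel⟩

def b3798 : PLift (entF (fidx ts) 400 3798 n3798 = true) := ⟨by decide +kernel⟩

theorem g3798 : GoodF (fidx ts) 400 3798 := GoodF.ofV v3798 n3798 c3798.down b3798.down

/-- 866654:2779/1 -/
noncomputable def e3799 : SCfg where
  D := {
    a := 6
    L := 11
    kp := 8
    inn := [(0, 1), (0, 2), (0, 3), (0, 4), (0, 5), (1, 0), (1, 5), (2, 0), (2, 5), (3, 0), (3, 4), (4,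
      0), (4, 3), (5, 0), (5, 1), (5, 2)]
    mix := [(0, 0), (0, 1), (0, 2), (1, 2), (1, 3), (1, 4), (1, 5), (2, 0), (2, 3), (2, 6), (2, 7), (3,
      0), (3, 7), (3, 8), (3, 9), (4, 1), (4, 8), (4, 10), (5, 3)]
    cl := [0, 1, 0, 0, 5, 6, 7, 2, 3, 4, 8]
    chq := [(1, 2), (1, 3), (1, 4), (2, 1), (3, 1), (4, 1)]
    rng := [(0, 7), (1, 2), (1, 10), (2, 1), (2, 4), (3, 5), (3, 6), (4, 2), (4, 5), (5, 3), (5, 4),
      (6, 3), (6, 7), (7, 0), (7, 6), (7, 9), (8, 9), (8, 10), (9, 7), (9, 8), (10, 1), (10, 8)]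
    lev := [] }
  links := [[1, 5, 2, 6, 3, 4, 7, 8], [9, 5, 0, 8, 10, 11], [6, 0, 5, 9, 12, 13], [14, 4, 0, 6, 13, 15],
    [7, 0, 3, 14, 16], [0, 1, 9, 2]]
  P := {
    a := 6
    N := 17
    nb := [510, 3873, 12897, 57425, 82057, 519, 8205, 65809, 1155, 6182, 2306, 1538, 8708, 36940,
      98328, 24584, 16528]
    tri := [(0, 1, 5), (0, 1, 8), (0, 2, 5), (0, 2, 6), (0, 3, 4), (0, 3, 6), (0, 4, 7), (0, 7, 8), (1,
      5, 9), (1, 8, 10), (1, 9, 11), (1, 10, 11), (2, 5, 9), (2, 6, 13), (2, 9, 12), (2, 12, 13),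
      (3, 4, 14), (3, 6, 13), (3, 13, 15), (3, 14, 15), (4, 7, 16), (4, 14, 16)]
    fin := [0, 1, 1, 0, 4, 1, 1, 0, 1, 1, 10, 11, 12, 13, 4, 15, 16]
    chd := [(0, 4), (0, 13), (0, 15)]
    steps := [(0, 3), (0, 7), (1, 5), (1, 2), (1, 6), (1, 8), (1, 9), (4, 14)] }
  rep := [1, 0, 13, 4, 15, 10, 11, 12, 16]

noncomputable def v3799 : Cov.CovD where
  P := 3
  N := 6
  pl := [4, 5, 6, 10]
  lev := [⟨[], [], [(0, 0), (0, 1)], [], [(0, 0, []), (1, 1, [2, 3, 4]), (2, 0, [])]⟩,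
    ⟨[], [(0, 0), (0, 1)], [(0, 0)], [5, 6], [(2, 0, []), (3, 0, [])]⟩,
    ⟨[(0, 1)], [(0, 0), (0, 1), (0, 2), (1, 0)], [(0, 0), (0, 2)], [7], [(0, 0, []), (3, 0,
      []), (7, 2, [1])]⟩,
    ⟨[(0, 1), (0, 2)], [(0, 0), (0, 1), (0, 2), (0, 3), (0, 4), (2, 0), (2, 2)], [(0, 2),
      (0, 3), (0, 4), (2, 3), (2, 4), (3, 4)], [], [(0, 0, []), (7, 2, [1]), (8, 3, [1]), (9,
      4, [1])]⟩,
    ⟨[(0, 1), (0, 2), (0, 3)], [(0, 0), (0, 1), (0, 3), (3, 0), (3, 1), (3, 2), (3, 3), (3,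
      4)], [(1, 3)], [8], [(1, 1, [2, 3, 4]), (8, 3, [1])]⟩,
    ⟨[(0, 1), (0, 2), (0, 3), (0, 4), (1, 2)], [(0, 0), (0, 1), (1, 0), (2, 0), (2, 2)],
      [], [], [(3, 0, [])]⟩]
  Ta := [((0, 7), 0, 2), ((2, 1), 0, 1), ((2, 4), 0, 5), ((3, 5), 0, 6), ((3, 6), 0, 7)]
  Tb := [((1, 2, 10), 1, 0, 8), ((2, 1, 4), 0, 1, 5), ((3, 5, 6), 0, 6, 7), ((4, 2, 5), 5, 0, 6),
    ((5, 3, 4), 6, 0, 5), ((6, 3, 7), 7, 0, 2), ((7, 0, 6), 2, 0, 7), ((7, 0, 9), 2, 0, 4),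
    ((7, 6, 9), 2, 7, 4), ((8, 9, 10), 3, 4, 8), ((9, 7, 8), 4, 2, 3), ((10, 1, 8), 8, 1, 3)]
  Tc := [(1, 2, 3), (1, 2, 4), (1, 3, 4)]
  Td := [((1, 2), (1, 2), 0), ((1, 2), (1, 10), 8), ((1, 3), (1, 2), 0), ((1, 3), (1, 10), 8),
    ((1, 4), (1, 2), 0), ((1, 4), (1, 10), 8), ((2, 1), (7, 0), 0), ((2, 1), (7, 6), 7), ((2,
    1), (7, 9), 4), ((3, 1), (8, 9), 4), ((3, 1), (8, 10), 8), ((4, 1), (9, 7), 2), ((4, 1),
    (9, 8), 3)]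
  G := [[0, 0, 0x4422212d2118d261152429241c2ee424d21292c8c,
    0x215244252112d2c8424e221d2282c8828222d28292cec,
    0x442284d2a4221d2481d2a18928284d2418d2aec], [0,
    0x828e1221c2441e1118e1c288e1121e1c44c14e6, 0, 0x424212d2428242d26128212d28c,
    0x442242a4414d2222d2a22921292a124d2888d2aec], [0, 0, 0, 0x4212428242d2424282d2e8282c28c,
    0x4252484d2a4452448d2a6222d2484d2a88282828ec]]

noncomputable def n3799 : Ent := ⟨e3799, noF, [], [], []⟩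

def c3799 : PLift (Cov.check n3799.C.D v3799 = true) := ⟨by decide +kernel⟩

def b3799 : PLift (entF (fidx ts) 400 3799 n3799 = true) := ⟨by decide +kernel⟩

theorem g3799 : GoodF (fidx ts) 400 3799 := GoodF.ofV v3799 n3799 c3799.down b3799.down

/-- 866654:2779 -/
noncomputable def e3800 : SCfg where
  D := {
    a := 6
    L := 12
    kp := 9
    inn := [(0, 1), (0, 2), (0, 3), (0, 4), (0, 5), (1, 0), (1, 5), (2, 0), (2, 5), (3, 0), (3, 4), (4,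
      0), (4, 3), (5, 0), (5, 1), (5, 2)]
    mix := [(0, 0), (0, 1), (0, 2), (1, 2), (1, 3), (1, 4), (1, 5), (2, 0), (2, 3), (2, 6), (2, 7), (3,
      0), (3, 8), (3, 9), (3, 10), (4, 1), (4, 8), (4, 11), (5, 3)]
    cl := [0, 1, 0, 0, 5, 6, 7, 8, 2, 3, 4, 9]
    chq := [(1, 2), (1, 3), (1, 4), (2, 1), (3, 1), (4, 1)]
    rng := [(0, 7), (0, 9), (1, 2), (1, 11), (2, 1), (2, 4), (3, 5), (3, 6), (4, 2), (4, 5), (5, 3),
      (5, 4), (6, 3), (6, 7), (7, 0), (7, 6), (8, 10), (8, 11), (9, 0), (9, 10), (10, 8), (10, 9),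
      (11, 1), (11, 8)]
    lev := [] }
  links := [[1, 5, 2, 6, 3, 4, 7, 8], [9, 5, 0, 8, 10, 11], [6, 0, 5, 9, 12, 13], [14, 4, 0, 6, 15, 16],
    [7, 0, 3, 14, 17], [0, 1, 9, 2]]
  P := {
    a := 6
    N := 18
    nb := [510, 3873, 12897, 114769, 147593, 519, 40973, 131345, 1155, 6182, 2306, 1538, 8708, 4164,
      196632, 65608, 49160, 16528]
    tri := [(0, 1, 5), (0, 1, 8), (0, 2, 5), (0, 2, 6), (0, 3, 4), (0, 3, 6), (0, 4, 7), (0, 7, 8), (1,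
      5, 9), (1, 8, 10), (1, 9, 11), (1, 10, 11), (2, 5, 9), (2, 6, 13), (2, 9, 12), (2, 12, 13),
      (3, 4, 14), (3, 6, 15), (3, 14, 16), (3, 15, 16), (4, 7, 17), (4, 14, 17)]
    fin := [0, 1, 1, 0, 4, 1, 1, 0, 1, 1, 10, 11, 12, 13, 4, 15, 16, 17]
    chd := [(0, 4), (0, 15), (0, 16)]
    steps := [(0, 3), (0, 7), (1, 5), (1, 2), (1, 6), (1, 8), (1, 9), (4, 14)] }
  rep := [1, 0, 4, 15, 16, 10, 11, 12, 13, 17]

noncomputable def v3800 : Cov.CovD where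
  P := 3
  N := 7
  pl := [4, 5, 6, 7, 11]
  lev := [⟨[], [], [(0, 0), (0, 1)], [], [(0, 0, []), (1, 1, [2, 3, 4]), (2, 0, [])]⟩,
    ⟨[], [(0, 0), (0, 1)], [(0, 0)], [5, 6], [(2, 0, []), (3, 0, [])]⟩,
    ⟨[(0, 1)], [(0, 0), (0, 1), (1, 0)], [(0, 0)], [7, 8], [(0, 0, []), (3, 0, [])]⟩,
    ⟨[(0, 1), (0, 2)], [(0, 0), (0, 1), (0, 2), (0, 3), (0, 4), (2, 0)], [(0, 2), (0, 3),
      (0, 4), (2, 3), (2, 4), (3, 4)], [], [(0, 0, []), (8, 2, [1]), (9, 3, [1]), (10, 4,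
      [1])]⟩,
    ⟨[(0, 1), (0, 2), (0, 3)], [(0, 0), (0, 1), (0, 2), (3, 0), (3, 1), (3, 2), (3, 3), (3,
      4)], [(1, 2)], [9], [(1, 1, [2, 3, 4]), (8, 2, [1])]⟩,
    ⟨[(0, 1), (0, 2), (0, 3), (0, 4), (1, 2)], [(0, 0), (0, 1), (1, 0), (2, 0)], [], [],
      [(3, 0, [])]⟩]
  Ta := [((0, 7), 0, 8), ((0, 9), 0, 3), ((2, 1), 0, 1), ((2, 4), 0, 5), ((3, 5), 0, 6), ((3, 6),
    0, 7)]
  Tb := [((0, 7, 9), 0, 8, 3), ((1, 2, 11), 1, 0, 9), ((2, 1, 4), 0, 1, 5), ((3, 5, 6), 0, 6, 7),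
    ((4, 2, 5), 5, 0, 6), ((5, 3, 4), 6, 0, 5), ((6, 3, 7), 7, 0, 8), ((7, 0, 6), 8, 0, 7),
    ((8, 10, 11), 2, 4, 9), ((9, 0, 10), 3, 0, 4), ((10, 8, 9), 4, 2, 3), ((11, 1, 8), 9, 1,
    2)]
  Tc := [(1, 2, 3), (1, 2, 4), (1, 3, 4)]
  Td := [((1, 2), (1, 2), 0), ((1, 2), (1, 11), 9), ((1, 3), (1, 2), 0), ((1, 3), (1, 11), 9),
    ((1, 4), (1, 2), 0), ((1, 4), (1, 11), 9), ((2, 1), (8, 10), 4), ((2, 1), (8, 11), 9),
    ((3, 1), (9, 0), 0), ((3, 1), (9, 10), 4), ((4, 1), (10, 8), 2), ((4, 1), (10, 9), 3)]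
  G := [[0, 0, 0x242414221c221c2e1424e11c288288c2e282848c228248c2eec,
    0x115211922292e115242924852e6149288928152e8c,
    0x1192449264219211928192e18928849288921192eec], [0,
    0x18c12222c118c144c1e42c188c141c1e14c141c1cea,
    0x242414211c211c2e41c211c26e41c288241c2e882822c28ec,
    0x125221522292e145211c244c2e642c281921852e8c,
    0x229244429228924292e21922192a419222924892eec], [0, 0,
    0x242444228c224c2e24248c248c2ee22c288282c2e88288828ec,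
    0x425288524852e225242524892e64492229222c2e8c,
    0x289244429228922492e82922892a429282924492eec]]

noncomputable def n3800 : Ent := ⟨e3800, noF, [], [], [(15, 13, [7334790850179967773244209365633050764349689593036594798292870089240577, 0])]⟩

def c3800 : PLift (Cov.check n3800.C.D v3800 = true) := ⟨by decide +kernel⟩

def b3800 : PLift (entF (fidx ts) 400 3800 n3800 = true) := ⟨by decide +kernel⟩

theorem g3800 : GoodF (fidx ts) 400 3800 := GoodF.ofV v3800 n3800 c3800.down b3800.down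

/-- 756664:2780/2 -/
noncomputable def e3801 : SCfg where
  D := {
    a := 6
    L := 10
    kp := 7
    inn := [(0, 1), (0, 2), (0, 3), (1, 0), (1, 2), (1, 4), (2, 0), (2, 1), (2, 4), (3, 0), (3, 5), (4,
      1), (4, 2), (5, 3)]
    mix := [(0, 0), (0, 1), (0, 2), (0, 3), (1, 2), (1, 4), (2, 3), (2, 5), (2, 6), (3, 0), (3, 3), (3,
      7), (3, 8), (4, 4), (4, 5), (4, 7), (4, 8), (5, 3), (5, 7), (5, 9)]
    cl := [0, 7, 2, 0, 1, 1, 5, 3, 4, 6]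
    chq := [(0, 2), (2, 0), (2, 5), (4, 6), (5, 2), (6, 4)]
    rng := [(0, 1), (0, 8), (1, 0), (1, 2), (2, 1), (2, 4), (3, 6), (3, 9), (4, 2), (4, 7), (5, 6), (5,
      8), (6, 3), (6, 5), (7, 4), (7, 8), (7, 9), (8, 0), (8, 5), (8, 7), (9, 3), (9, 7)]
    lev := [] }
  links := [[6, 7, 8, 1, 2, 9, 3], [2, 0, 8, 10, 4], [9, 0, 1, 4, 11, 12], [6, 0, 9, 5, 13, 14], [11, 2,
    1, 10, 13, 14], [3, 9, 15, 13]]
  P := {
    a := 6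
    N := 16
    nb := [974, 1301, 6675, 25185, 27654, 41480, 16521, 321, 1155, 36909, 8466, 20500, 2564, 50232,
      10328, 8736]
    tri := [(0, 1, 2), (0, 1, 8), (0, 2, 9), (0, 3, 6), (0, 3, 9), (0, 6, 7), (0, 7, 8), (1, 2, 4), (1,
      4, 10), (1, 8, 10), (2, 4, 11), (2, 9, 12), (2, 11, 12), (3, 5, 9), (3, 5, 13), (3, 6, 14),
      (3, 13, 14), (4, 10, 13), (4, 11, 14), (4, 13, 14), (5, 9, 15), (5, 13, 15)]
    fin := [0, 1, 1, 3, 4, 3, 0, 7, 1, 0, 4, 4, 12, 13, 3, 15]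
    chd := [(0, 1), (1, 12), (3, 15)]
    steps := [(0, 6), (0, 9), (1, 2), (1, 8), (3, 5), (3, 14), (4, 10), (4, 11)] }
  rep := [0, 4, 1, 13, 3, 12, 15, 7]

noncomputable def v3801 : Cov.CovD where
  P := 3
  N := 5
  pl := [1, 7]
  lev := [⟨[], [], [(0, 0), (0, 2)], [7], [(0, 0, [2]), (2, 2, [0, 5]), (3, 0, [2])]⟩,
    ⟨[], [(0, 0), (0, 1), (0, 2)], [(1, 2)], [], [(2, 2, [0, 5]), (4, 1, [])]⟩,
    ⟨[(0, 1)], [(0, 0), (0, 1), (0, 2), (0, 5), (1, 0), (1, 1), (1, 2), (1, 5)], [(0, 1),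
      (0, 5), (1, 5)], [], [(3, 0, [2]), (5, 1, []), (6, 5, [2])]⟩,
    ⟨[(0, 1), (0, 2)], [(0, 0), (0, 2), (0, 4), (2, 0)], [(0, 0), (0, 4)], [3], [(0, 0,
      [2]), (3, 0, [2]), (8, 4, [6])]⟩,
    ⟨[(0, 1), (0, 2), (1, 2)], [(1, 1), (1, 2), (1, 4), (2, 0), (2, 1), (2, 4), (2, 5), (3,
      4)], [(1, 1), (1, 4)], [3], [(4, 1, []), (5, 1, []), (8, 4, [6])]⟩,
    ⟨[(0, 3)], [(0, 0), (2, 0), (3, 0), (3, 4), (3, 6)], [(0, 6)], [3], [(3, 0, [2]), (9,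
      6, [4])]⟩]
  Ta := [((0, 1), 0, 7), ((0, 8), 0, 4), ((3, 6), 0, 5), ((3, 9), 0, 6), ((4, 2), 1, 2), ((4, 7),
    1, 3), ((5, 6), 1, 5), ((5, 8), 1, 4)]
  Tb := [((0, 1, 8), 0, 7, 4), ((1, 0, 2), 7, 0, 2), ((2, 1, 4), 2, 7, 1), ((3, 6, 9), 0, 5, 6),
    ((4, 2, 7), 1, 2, 3), ((5, 6, 8), 1, 5, 4), ((6, 3, 5), 5, 0, 1), ((7, 4, 8), 3, 1, 4),
    ((7, 4, 9), 3, 1, 6), ((7, 8, 9), 3, 4, 6), ((8, 0, 5), 4, 0, 1), ((8, 0, 7), 4, 0, 3),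
    ((8, 5, 7), 4, 1, 3), ((9, 3, 7), 6, 0, 3)]
  Tc := [(2, 0, 5)]
  Td := [((0, 2), (0, 1), 7), ((0, 2), (0, 8), 4), ((0, 2), (3, 6), 5), ((0, 2), (3, 9), 6), ((2,
    0), (2, 1), 7), ((2, 0), (2, 4), 1), ((2, 5), (2, 1), 7), ((2, 5), (2, 4), 1), ((4, 6),
    (8, 0), 0), ((4, 6), (8, 5), 1), ((4, 6), (8, 7), 3), ((5, 2), (6, 3), 0), ((5, 2), (6,
    5), 1), ((6, 4), (9, 3), 0), ((6, 4), (9, 7), 3)]
  G := [[0, 0x122589412e64122689412ea8c, 0x11284434882c488411e28c, 0x112a6c234a61d228c,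
    0x589411e21e4415811a49a], [0, 0x122181412ea1122181412ea1c, 0x1121126864cd211211268a4cd2c,
    0, 0x28819a6445228819a64458a], [0, 0xc2268a4c2e64c2268a4c2ea8c,
    0x11224884c2984414811a2cc, 0x48ed22148ed228c, 0x4884e1e2164468a85c1ec8a], [0,
    0xc2268a4c2ea1c2268a4c2e61c, 0x1121126864cd4112112a8a4cd8c, 0,
    0x68218c5e4284288a8625c1e41e]]

noncomputable def n3801 : Ent := ⟨e3801, noF, [], [], []⟩

def c3801 : PLift (Cov.check n3801.C.D v3801 = true) := ⟨by decide +kernel⟩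

def b3801 : PLift (entF (fidx ts) 400 3801 n3801 = true) := ⟨by decide +kernel⟩

theorem g3801 : GoodF (fidx ts) 400 3801 := GoodF.ofV v3801 n3801 c3801.down b3801.down

/-- 756664:2780/1 -/
noncomputable def e3802 : SCfg where
  D := {
    a := 6
    L := 11
    kp := 8
    inn := [(0, 1), (0, 2), (0, 3), (1, 0), (1, 2), (1, 4), (2, 0), (2, 1), (2, 4), (3, 0), (3, 5), (4,
      1), (4, 2), (5, 3)]
    mix := [(0, 0), (0, 1), (0, 2), (0, 3), (1, 2), (1, 4), (2, 3), (2, 5), (2, 6), (3, 0), (3, 3), (3,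
      7), (3, 8), (4, 4), (4, 5), (4, 7), (4, 9), (5, 3), (5, 7), (5, 10)]
    cl := [3, 7, 2, 3, 0, 0, 4, 1, 5, 8, 6]
    chq := [(2, 3), (2, 4), (3, 2), (4, 2), (5, 6), (6, 5)]
    rng := [(0, 1), (0, 8), (1, 0), (1, 2), (2, 1), (2, 4), (3, 6), (3, 10), (4, 2), (4, 7), (5, 6),
      (5, 9), (6, 3), (6, 5), (7, 4), (7, 8), (7, 9), (7, 10), (8, 0), (8, 7), (9, 5), (9, 7),
      (10, 3), (10, 7)]
    lev := [] }
  links := [[6, 7, 8, 1, 2, 9, 3], [2, 0, 8, 10, 4], [9, 0, 1, 4, 11, 12], [6, 0, 9, 5, 13, 14], [11, 2,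
    1, 10, 13, 15], [3, 9, 16, 13]]
  P := {
    a := 6
    N := 17
    nb := [974, 1301, 6675, 25185, 44038, 74248, 16521, 321, 1155, 69677, 8466, 36884, 2564, 115768,
      8264, 10256, 8736]
    tri := [(0, 1, 2), (0, 1, 8), (0, 2, 9), (0, 3, 6), (0, 3, 9), (0, 6, 7), (0, 7, 8), (1, 2, 4), (1,
      4, 10), (1, 8, 10), (2, 4, 11), (2, 9, 12), (2, 11, 12), (3, 5, 9), (3, 5, 13), (3, 6, 14),
      (3, 13, 14), (4, 10, 13), (4, 11, 15), (4, 13, 15), (5, 9, 16), (5, 13, 16)]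
    fin := [0, 1, 1, 3, 4, 3, 0, 7, 1, 0, 4, 4, 12, 13, 14, 15, 3]
    chd := [(0, 1), (1, 12), (14, 3)]
    steps := [(0, 6), (0, 9), (1, 2), (1, 8), (3, 5), (3, 16), (4, 10), (4, 11)] }
  rep := [4, 13, 1, 0, 12, 14, 3, 7, 15]

noncomputable def v3802 : Cov.CovD where
  P := 3
  N := 6
  pl := [1, 7, 9]
  lev := [⟨[], [], [(2, 3), (3, 3)], [7], [(0, 3, [2]), (2, 2, [3, 4]), (3, 3, [2])]⟩,
    ⟨[], [(0, 0), (0, 2), (0, 3)], [(0, 2)], [], [(2, 2, [3, 4]), (4, 0, [])]⟩,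
    ⟨[(0, 1)], [(0, 0), (0, 2), (0, 3), (0, 4), (1, 0), (1, 2), (1, 3), (1, 4)], [(0, 3),
      (0, 4), (3, 4)], [], [(3, 3, [2]), (5, 0, []), (6, 4, [2])]⟩,
    ⟨[(0, 1), (0, 2)], [(0, 2), (0, 3), (0, 5), (2, 3)], [(3, 3), (3, 5)], [1], [(0, 3,
      [2]), (3, 3, [2]), (8, 5, [6])]⟩,
    ⟨[(0, 1), (0, 2), (1, 2)], [(1, 0), (1, 2), (2, 0), (2, 3), (2, 4)], [(0, 0)], [1, 8],
      [(4, 0, []), (5, 0, [])]⟩,
    ⟨[(0, 3)], [(0, 3), (2, 3), (3, 3), (3, 5), (3, 6)], [(3, 6)], [1], [(3, 3, [2]), (10,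
      6, [5])]⟩]
  Ta := [((0, 1), 3, 7), ((0, 8), 3, 5), ((3, 6), 3, 4), ((3, 10), 3, 6), ((4, 2), 0, 2), ((4,
    7), 0, 1), ((5, 6), 0, 4), ((5, 9), 0, 8)]
  Tb := [((0, 1, 8), 3, 7, 5), ((1, 0, 2), 7, 3, 2), ((2, 1, 4), 2, 7, 0), ((3, 6, 10), 3, 4, 6),
    ((4, 2, 7), 0, 2, 1), ((5, 6, 9), 0, 4, 8), ((6, 3, 5), 4, 3, 0), ((7, 4, 8), 1, 0, 5),
    ((7, 4, 9), 1, 0, 8), ((7, 4, 10), 1, 0, 6), ((7, 8, 9), 1, 5, 8), ((7, 8, 10), 1, 5, 6),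
    ((7, 9, 10), 1, 8, 6), ((8, 0, 7), 5, 3, 1), ((9, 5, 7), 8, 0, 1), ((10, 3, 7), 6, 3, 1)]
  Tc := [(2, 3, 4)]
  Td := [((2, 3), (2, 1), 7), ((2, 3), (2, 4), 0), ((2, 4), (2, 1), 7), ((2, 4), (2, 4), 0), ((3,
    2), (0, 1), 7), ((3, 2), (0, 8), 5), ((3, 2), (3, 6), 4), ((3, 2), (3, 10), 6), ((4, 2),
    (6, 3), 3), ((4, 2), (6, 5), 0), ((5, 6), (8, 0), 3), ((5, 6), (8, 7), 1), ((6, 5), (10,
    3), 3), ((6, 5), (10, 7), 1)]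
  G := [[0, 0x2cc44c62468344882c84ce2844c88c48ce28d, 0x11c85c91211c49c51241c88c84cd14e,
    0x41c11c48cd2414c18c44cd2844c18c88cd24d,
    0x14411c11cc14884c1f21481888cc1414c88c1f8441444d11c44c5c2b], [0,
    0x66c88ca2444aac44ce2862caacccce24d, 0x11c88c91211c44c51811c11ccccd12e,
    0x84845255c8888d2c44c99c44cd2811c11ccccd28d,
    0x84454c88cc44849d2c485419284454c98cc441444cdd211cc4c514468f], [0, 0, 0,
    0x11c18c44cd2411c11c84cd2844c11c48cd28d,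
    0x1444544c51cc44449e1141444d14c88c88dc1188884cd1484964414c8ab], [0, 0, 0,
    0x55c88c88cd2144c99c44cd2811c11ccccd28d,
    0xc444554c88cc448e24485899cc4cd449444de81484911cc4c514445e8b]]

noncomputable def n3802 : Ent := ⟨e3802, noF, [], [], [(15, 14, [1685382413448253767852309107433119732572617628602273068445380481025, 0])]⟩

def c3802 : PLift (Cov.check n3802.C.D v3802 = true) := ⟨by decide +kernel⟩

def b3802 : PLift (entF (fidx ts) 400 3802 n3802 = true) := ⟨by decide +kernel⟩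

theorem g3802 : GoodF (fidx ts) 400 3802 := GoodF.ofV v3802 n3802 c3802.down b3802.down

/-- 756664:2780/5 -/
noncomputable def e3803 : SCfg where
  D := {
    a := 6
    L := 9
    kp := 6
    inn := [(0, 1), (0, 2), (0, 3), (1, 0), (1, 2), (1, 4), (2, 0), (2, 1), (2, 4), (3, 0), (3, 5), (4,
      1), (4, 2), (5, 3)]
    mix := [(0, 0), (0, 1), (0, 2), (0, 3), (1, 2), (1, 4), (2, 3), (2, 5), (2, 6), (3, 0), (3, 3), (3,
      7), (3, 8), (4, 4), (4, 5), (4, 7), (4, 8), (5, 3), (5, 6), (5, 7)]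
    cl := [0, 6, 4, 0, 1, 1, 2, 3, 5]
    chq := [(0, 1), (0, 4), (1, 0), (2, 5), (4, 0), (5, 2)]
    rng := [(0, 1), (0, 8), (1, 0), (1, 2), (2, 1), (2, 4), (3, 6), (4, 2), (4, 8), (5, 6), (5, 7), (6,
      3), (6, 5), (6, 7), (7, 5), (7, 6), (7, 8), (8, 0), (8, 4), (8, 7)]
    lev := [] }
  links := [[6, 7, 8, 1, 2, 9, 3], [2, 0, 8, 10, 4], [9, 0, 1, 4, 11, 12], [6, 0, 9, 5, 13, 14], [11, 2,
    1, 10, 14, 13], [3, 9, 12, 13]]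
  P := {
    a := 6
    N := 15
    nb := [974, 1301, 6675, 25185, 27654, 12808, 16521, 321, 1155, 4141, 16658, 12308, 10788, 22584,
      9304]
    tri := [(0, 1, 2), (0, 1, 8), (0, 2, 9), (0, 3, 6), (0, 3, 9), (0, 6, 7), (0, 7, 8), (1, 2, 4), (1,
      4, 10), (1, 8, 10), (2, 4, 11), (2, 9, 12), (2, 11, 12), (3, 5, 9), (3, 5, 13), (3, 6, 14),
      (3, 13, 14), (4, 10, 14), (4, 11, 13), (4, 13, 14), (5, 9, 12), (5, 12, 13)]
    fin := [0, 0, 0, 3, 4, 3, 0, 7, 8, 0, 4, 4, 12, 13, 3]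
    chd := [(0, 4), (0, 8), (12, 3)]
    steps := [(0, 1), (0, 2), (0, 6), (0, 9), (3, 5), (3, 14), (4, 10), (4, 11)] }
  rep := [0, 4, 12, 13, 8, 3, 7]

noncomputable def v3803 : Cov.CovD where
  P := 3
  N := 4
  pl := [1, 7]
  lev := [⟨[], [], [(0, 0), (0, 4)], [6], [(0, 0, [1, 4]), (2, 4, [0]), (3, 0, [1, 4])]⟩,
    ⟨[], [(0, 0), (0, 1), (0, 4)], [(1, 4)], [], [(2, 4, [0]), (4, 1, [0])]⟩,
    ⟨[(0, 1)], [(0, 0), (0, 1), (0, 2), (0, 4), (1, 0), (1, 1), (1, 2), (1, 4)], [(0, 1),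
      (0, 2), (1, 2)], [], [(3, 0, [1, 4]), (5, 1, [0]), (6, 2, [5])]⟩,
    ⟨[(0, 1), (0, 2)], [(0, 0), (0, 4), (0, 5), (2, 0)], [(0, 0), (0, 5)], [3], [(0, 0, [1,
      4]), (3, 0, [1, 4]), (8, 5, [2])]⟩,
    ⟨[(0, 1), (0, 2), (1, 2)], [(1, 1), (1, 4), (1, 5), (2, 0), (2, 1), (2, 2), (2, 5), (3,
      5)], [(1, 1), (1, 5)], [3], [(4, 1, [0]), (5, 1, [0]), (8, 5, [2])]⟩,
    ⟨[(0, 3)], [(0, 0), (2, 0), (2, 2), (3, 0), (3, 2), (3, 5)], [(0, 2)], [3], [(3, 0, [1,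
      4]), (6, 2, [5])]⟩]
  Ta := [((0, 1), 0, 6), ((0, 8), 0, 5), ((3, 6), 0, 2), ((4, 2), 1, 4), ((4, 8), 1, 5), ((5, 6),
    1, 2), ((5, 7), 1, 3)]
  Tb := [((0, 1, 8), 0, 6, 5), ((1, 0, 2), 6, 0, 4), ((2, 1, 4), 4, 6, 1), ((4, 2, 8), 1, 4, 5),
    ((5, 6, 7), 1, 2, 3), ((6, 3, 5), 2, 0, 1), ((6, 3, 7), 2, 0, 3), ((6, 5, 7), 2, 1, 3),
    ((7, 5, 6), 3, 1, 2), ((7, 5, 8), 3, 1, 5), ((7, 6, 8), 3, 2, 5), ((8, 0, 4), 5, 0, 1),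
    ((8, 0, 7), 5, 0, 3), ((8, 4, 7), 5, 1, 3)]
  Tc := [(0, 1, 4)]
  Td := [((0, 1), (0, 1), 6), ((0, 1), (0, 8), 5), ((0, 1), (3, 6), 2), ((0, 4), (0, 1), 6), ((0,
    4), (0, 8), 5), ((0, 4), (3, 6), 2), ((1, 0), (4, 2), 4), ((1, 0), (4, 8), 5), ((1, 0),
    (5, 6), 2), ((1, 0), (5, 7), 3), ((2, 5), (6, 3), 0), ((2, 5), (6, 5), 1), ((2, 5), (6,
    7), 3), ((4, 0), (2, 1), 6), ((4, 0), (2, 4), 1), ((5, 2), (8, 0), 0), ((5, 2), (8, 4),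
    1), ((5, 2), (8, 7), 3)]
  G := [[0, 0x184412e41181412e81881412e41e, 0, 0, 0x215222814c298821a224485282411e81e], [0,
    0x184412e41881412e81181412e41e, 0, 0x841d2428192844286841d281e,
    0x11521682c2928811215e82915819681e], [0, 0x181412e41181412e81884412e41e,
    0x284121e41282121e818124c1e41e, 0, 0x2421622882921288824c852824c1e81e], [0,
    0x184412e41181412e81884412e81e, 0x84216488c1418421e818141c1e81e,
    0x84cd24244cd282884c5a41e, 0x812256828881225e82882d81681e]]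

noncomputable def n3803 : Ent := ⟨e3803, noF, [], [], []⟩

def c3803 : PLift (Cov.check n3803.C.D v3803 = true) := ⟨by decide +kernel⟩

def b3803 : PLift (entF (fidx ts) 400 3803 n3803 = true) := ⟨by decide +kernel⟩

theorem g3803 : GoodF (fidx ts) 400 3803 := GoodF.ofV v3803 n3803 c3803.down b3803.down

/-- 756664:2780/4 -/
noncomputable def e3804 : SCfg where
  D := {
    a := 6
    L := 10
    kp := 7
    inn := [(0, 1), (0, 2), (0, 3), (1, 0), (1, 2), (1, 4), (2, 0), (2, 1), (2, 4), (3, 0), (3, 5), (4,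
      1), (4, 2), (5, 3)]
    mix := [(0, 0), (0, 1), (0, 2), (0, 3), (1, 2), (1, 4), (2, 3), (2, 5), (2, 6), (3, 0), (3, 3), (3,
      7), (3, 8), (4, 4), (4, 5), (4, 7), (4, 8), (5, 3), (5, 7), (5, 9)]
    cl := [0, 7, 2, 0, 1, 1, 5, 3, 4, 6]
    chq := [(0, 2), (2, 0), (2, 5), (4, 6), (5, 2), (6, 4)]
    rng := [(0, 1), (0, 8), (1, 0), (1, 2), (2, 1), (2, 4), (3, 6), (3, 9), (4, 2), (4, 8), (5, 6), (5,
      7), (6, 3), (6, 5), (7, 5), (7, 8), (7, 9), (8, 0), (8, 4), (8, 7), (9, 3), (9, 7)]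
    lev := [] }
  links := [[6, 7, 8, 1, 2, 9, 3], [2, 0, 8, 10, 4], [9, 0, 1, 4, 11, 12], [6, 0, 9, 5, 13, 14], [11, 2,
    1, 10, 14, 13], [3, 9, 15, 13]]
  P := {
    a := 6
    N := 16
    nb := [974, 1301, 6675, 25185, 27654, 41480, 16521, 321, 1155, 36909, 16658, 12308, 2564, 51256,
      9304, 8736]
    tri := [(0, 1, 2), (0, 1, 8), (0, 2, 9), (0, 3, 6), (0, 3, 9), (0, 6, 7), (0, 7, 8), (1, 2, 4), (1,
      4, 10), (1, 8, 10), (2, 4, 11), (2, 9, 12), (2, 11, 12), (3, 5, 9), (3, 5, 13), (3, 6, 14),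
      (3, 13, 14), (4, 10, 14), (4, 11, 13), (4, 13, 14), (5, 9, 15), (5, 13, 15)]
    fin := [0, 1, 1, 3, 4, 3, 0, 7, 1, 0, 4, 4, 12, 13, 3, 15]
    chd := [(0, 1), (1, 12), (3, 15)]
    steps := [(0, 6), (0, 9), (1, 2), (1, 8), (3, 5), (3, 14), (4, 10), (4, 11)] }
  rep := [0, 4, 1, 13, 3, 12, 15, 7]

noncomputable def v3804 : Cov.CovD where
  P := 3
  N := 5
  pl := [1, 7]
  lev := [⟨[], [], [(0, 0), (0, 2)], [7], [(0, 0, [2]), (2, 2, [0, 5]), (3, 0, [2])]⟩,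
    ⟨[], [(0, 0), (0, 1), (0, 2)], [(1, 2)], [], [(2, 2, [0, 5]), (4, 1, [])]⟩,
    ⟨[(0, 1)], [(0, 0), (0, 1), (0, 2), (0, 5), (1, 0), (1, 1), (1, 2), (1, 5)], [(0, 1),
      (0, 5), (1, 5)], [], [(3, 0, [2]), (5, 1, []), (6, 5, [2])]⟩,
    ⟨[(0, 1), (0, 2)], [(0, 0), (0, 2), (0, 4), (2, 0)], [(0, 0), (0, 4)], [3], [(0, 0,
      [2]), (3, 0, [2]), (8, 4, [6])]⟩,
    ⟨[(0, 1), (0, 2), (1, 2)], [(1, 1), (1, 2), (1, 4), (2, 0), (2, 1), (2, 4), (2, 5), (3,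
      4)], [(1, 1), (1, 4)], [3], [(4, 1, []), (5, 1, []), (8, 4, [6])]⟩,
    ⟨[(0, 3)], [(0, 0), (2, 0), (3, 0), (3, 4), (3, 6)], [(0, 6)], [3], [(3, 0, [2]), (9,
      6, [4])]⟩]
  Ta := [((0, 1), 0, 7), ((0, 8), 0, 4), ((3, 6), 0, 5), ((3, 9), 0, 6), ((4, 2), 1, 2), ((4, 8),
    1, 4), ((5, 6), 1, 5), ((5, 7), 1, 3)]
  Tb := [((0, 1, 8), 0, 7, 4), ((1, 0, 2), 7, 0, 2), ((2, 1, 4), 2, 7, 1), ((3, 6, 9), 0, 5, 6),
    ((4, 2, 8), 1, 2, 4), ((5, 6, 7), 1, 5, 3), ((6, 3, 5), 5, 0, 1), ((7, 5, 8), 3, 1, 4),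
    ((7, 5, 9), 3, 1, 6), ((7, 8, 9), 3, 4, 6), ((8, 0, 4), 4, 0, 1), ((8, 0, 7), 4, 0, 3),
    ((8, 4, 7), 4, 1, 3), ((9, 3, 7), 6, 0, 3)]
  Tc := [(2, 0, 5)]
  Td := [((0, 2), (0, 1), 7), ((0, 2), (0, 8), 4), ((0, 2), (3, 6), 5), ((0, 2), (3, 9), 6), ((2,
    0), (2, 1), 7), ((2, 0), (2, 4), 1), ((2, 5), (2, 1), 7), ((2, 5), (2, 4), 1), ((4, 6),
    (8, 0), 0), ((4, 6), (8, 4), 1), ((4, 6), (8, 7), 3), ((5, 2), (6, 3), 0), ((5, 2), (6,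
    5), 1), ((6, 4), (9, 3), 0), ((6, 4), (9, 7), 3)]
  G := [[0, 0x122181412ea4122181412e68c, 0x686411e24a8a411e28c, 0xa61d224a91d221c,
    0x1864419e216441a811a49a], [0, 0x122689412ea1922681472e68c,
    0x1121124884cd21121124884cd46, 0, 0x5811ae4452e44148119a49a], [0,
    0xc2268a4c2e64c2268a4c2ea8c, 0x6824815e2428419aa4438c, 0x48ed22448ed221c,
    0x68a4c1e21844a8825c1ec8a], [0, 0xc2268a4c2ea4c2268a4c2ea8c,
    0x1121124884cd81121124884cd46, 0, 0x8444884e1ec2a4468a4c1ec1a]]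

noncomputable def n3804 : Ent := ⟨e3804, noF, [], [], [(12, 15, [360035742630636841211993100915356868655746945586763691023249409, 0])]⟩

def c3804 : PLift (Cov.check n3804.C.D v3804 = true) := ⟨by decide +kernel⟩

def b3804 : PLift (entF (fidx ts) 400 3804 n3804 = true) := ⟨by decide +kernel⟩

theorem g3804 : GoodF (fidx ts) 400 3804 := GoodF.ofV v3804 n3804 c3804.down b3804.down

/-- 756664:2780/6 -/
noncomputable def e3805 : SCfg where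
  D := {
    a := 6
    L := 10
    kp := 7
    inn := [(0, 1), (0, 2), (0, 3), (1, 0), (1, 2), (1, 4), (2, 0), (2, 1), (2, 4), (3, 0), (3, 5), (4,
      1), (4, 2), (5, 3)]
    mix := [(0, 0), (0, 1), (0, 2), (0, 3), (1, 2), (1, 4), (2, 3), (2, 5), (2, 6), (3, 0), (3, 3), (3,
      7), (3, 8), (4, 4), (4, 5), (4, 8), (4, 9), (5, 3), (5, 6), (5, 7)]
    cl := [0, 6, 3, 0, 1, 1, 4, 5, 2, 7]
    chq := [(0, 1), (0, 3), (1, 0), (2, 4), (3, 0), (4, 2)]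
    rng := [(0, 1), (0, 8), (1, 0), (1, 2), (2, 1), (2, 4), (3, 6), (4, 2), (4, 8), (5, 6), (5, 9), (6,
      3), (6, 5), (6, 7), (7, 6), (7, 8), (8, 0), (8, 4), (8, 7), (8, 9), (9, 5), (9, 8)]
    lev := [] }
  links := [[6, 7, 8, 1, 2, 9, 3], [2, 0, 8, 10, 4], [9, 0, 1, 4, 11, 12], [6, 0, 9, 5, 13, 14], [11, 2,
    1, 10, 14, 15], [3, 9, 12, 13]]
  P := {
    a := 6
    N := 16
    nb := [974, 1301, 6675, 25185, 52230, 12808, 16521, 321, 1155, 4141, 16658, 36884, 10788, 20520,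
      42072, 18448]
    tri := [(0, 1, 2), (0, 1, 8), (0, 2, 9), (0, 3, 6), (0, 3, 9), (0, 6, 7), (0, 7, 8), (1, 2, 4), (1,
      4, 10), (1, 8, 10), (2, 4, 11), (2, 9, 12), (2, 11, 12), (3, 5, 9), (3, 5, 13), (3, 6, 14),
      (3, 13, 14), (4, 10, 14), (4, 11, 15), (4, 14, 15), (5, 9, 12), (5, 12, 13)]
    fin := [0, 0, 0, 3, 4, 3, 0, 7, 8, 0, 4, 4, 12, 13, 3, 15]
    chd := [(0, 4), (0, 8), (12, 3)]
    steps := [(0, 1), (0, 2), (0, 6), (0, 9), (3, 5), (3, 14), (4, 10), (4, 11)] }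
  rep := [0, 4, 3, 8, 12, 13, 7, 15]

noncomputable def v3805 : Cov.CovD where
  P := 3
  N := 5
  pl := [1, 7, 9]
  lev := [⟨[], [], [(0, 0), (0, 3)], [6], [(0, 0, [1, 3]), (2, 3, [0]), (3, 0, [1, 3])]⟩,
    ⟨[], [(0, 0), (0, 1), (0, 3)], [(1, 3)], [], [(2, 3, [0]), (4, 1, [0])]⟩,
    ⟨[(0, 1)], [(0, 0), (0, 1), (0, 3), (0, 4), (1, 0), (1, 1), (1, 3), (1, 4)], [(0, 1),
      (0, 4), (1, 4)], [], [(3, 0, [1, 3]), (5, 1, [0]), (6, 4, [2])]⟩,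
    ⟨[(0, 1), (0, 2)], [(0, 0), (0, 2), (0, 3), (2, 0)], [(0, 0), (0, 2)], [5], [(0, 0, [1,
      3]), (3, 0, [1, 3]), (8, 2, [4])]⟩,
    ⟨[(0, 1), (0, 2), (1, 2)], [(1, 1), (1, 2), (1, 3), (2, 0), (2, 1), (2, 2), (2, 4), (3,
      2)], [(1, 1), (1, 2)], [7], [(4, 1, [0]), (5, 1, [0]), (8, 2, [4])]⟩,
    ⟨[(0, 3)], [(0, 0), (2, 0), (2, 4), (3, 0), (3, 2), (3, 4)], [(0, 4)], [5], [(3, 0, [1,
      3]), (6, 4, [2])]⟩]
  Ta := [((0, 1), 0, 6), ((0, 8), 0, 2), ((3, 6), 0, 4), ((4, 2), 1, 3), ((4, 8), 1, 2), ((5, 6),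
    1, 4), ((5, 9), 1, 7)]
  Tb := [((0, 1, 8), 0, 6, 2), ((1, 0, 2), 6, 0, 3), ((2, 1, 4), 3, 6, 1), ((4, 2, 8), 1, 3, 2),
    ((5, 6, 9), 1, 4, 7), ((6, 3, 5), 4, 0, 1), ((6, 3, 7), 4, 0, 5), ((6, 5, 7), 4, 1, 5),
    ((7, 6, 8), 5, 4, 2), ((8, 0, 4), 2, 0, 1), ((8, 0, 7), 2, 0, 5), ((8, 0, 9), 2, 0, 7),
    ((8, 4, 7), 2, 1, 5), ((8, 4, 9), 2, 1, 7), ((8, 7, 9), 2, 5, 7), ((9, 5, 8), 7, 1, 2)]
  Tc := [(0, 1, 3)]
  Td := [((0, 1), (0, 1), 6), ((0, 1), (0, 8), 2), ((0, 1), (3, 6), 4), ((0, 3), (0, 1), 6), ((0,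
    3), (0, 8), 2), ((0, 3), (3, 6), 4), ((1, 0), (4, 2), 3), ((1, 0), (4, 8), 2), ((1, 0),
    (5, 6), 4), ((1, 0), (5, 9), 7), ((2, 4), (8, 0), 0), ((2, 4), (8, 4), 1), ((2, 4), (8,
    7), 5), ((2, 4), (8, 9), 7), ((3, 0), (2, 1), 6), ((3, 0), (2, 4), 1), ((4, 2), (6, 3),
    0), ((4, 2), (6, 5), 1), ((4, 2), (6, 7), 5)]
  G := [[0, 0x11c66cc21aac11cc212242c22c11cca1e, 0x11c22c62112c21cc2181c11ca11c11cac1e,
    0x22c12cc21225225c2122c22cc122c22cc1ce, 0x4121a2449129a25149229a24442139419ac1e], [0,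
    0x13c65cc211acb1cc212222c11c22cc61e, 0xcccaac612ccc66ca1218c11ca41c11c6c1e, 0,
    0x11169a488528444a119449ac2c99159a41e], [0, 0x11c66cc211acb1cc2188c12cc12c41ccc1e, 0,
    0x22c225c2122c22cc2128c229c22522ccc1e, 0x649429a21649429a244111a48444a669449ac5e], [0,
    0x31c56cc21aac11cc218241cc11c22cc61e, 0, 0, 0x449889ee9e42849449a4692c9ac2442ee9449ac1e]]

noncomputable def n3805 : Ent := ⟨e3805, noF, [], [], [(15, 13, [360048296834107614573520772494203283988579150297652619092275201, 0])]⟩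

def c3805 : PLift (Cov.check n3805.C.D v3805 = true) := ⟨by decide +kernel⟩

def b3805 : PLift (entF (fidx ts) 400 3805 n3805 = true) := ⟨by decide +kernel⟩

theorem g3805 : GoodF (fidx ts) 400 3805 := GoodF.ofV v3805 n3805 c3805.down b3805.down

/-- 756664:2780/3 -/
noncomputable def e3806 : SCfg where
  D := {
    a := 6
    L := 11
    kp := 8
    inn := [(0, 1), (0, 2), (0, 3), (1, 0), (1, 2), (1, 4), (2, 0), (2, 1), (2, 4), (3, 0), (3, 5), (4,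
      1), (4, 2), (5, 3)]
    mix := [(0, 0), (0, 1), (0, 2), (0, 3), (1, 2), (1, 4), (2, 3), (2, 5), (2, 6), (3, 0), (3, 3), (3,
      7), (3, 8), (4, 4), (4, 5), (4, 8), (4, 9), (5, 3), (5, 7), (5, 10)]
    cl := [3, 7, 1, 3, 0, 0, 5, 4, 2, 8, 6]
    chq := [(1, 3), (1, 5), (2, 6), (3, 1), (5, 1), (6, 2)]
    rng := [(0, 1), (0, 8), (1, 0), (1, 2), (2, 1), (2, 4), (3, 6), (3, 10), (4, 2), (4, 8), (5, 6),
      (5, 9), (6, 3), (6, 5), (7, 8), (7, 10), (8, 0), (8, 4), (8, 7), (8, 9), (9, 5), (9, 8),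
      (10, 3), (10, 7)]
    lev := [] }
  links := [[6, 7, 8, 1, 2, 9, 3], [2, 0, 8, 10, 4], [9, 0, 1, 4, 11, 12], [6, 0, 9, 5, 13, 14], [11, 2,
    1, 10, 14, 15], [3, 9, 16, 13]]
  P := {
    a := 6
    N := 17
    nb := [974, 1301, 6675, 25185, 52230, 74248, 16521, 321, 1155, 69677, 16658, 36884, 2564, 81960,
      42072, 18448, 8736]
    tri := [(0, 1, 2), (0, 1, 8), (0, 2, 9), (0, 3, 6), (0, 3, 9), (0, 6, 7), (0, 7, 8), (1, 2, 4), (1,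
      4, 10), (1, 8, 10), (2, 4, 11), (2, 9, 12), (2, 11, 12), (3, 5, 9), (3, 5, 13), (3, 6, 14),
      (3, 13, 14), (4, 10, 14), (4, 11, 15), (4, 14, 15), (5, 9, 16), (5, 13, 16)]
    fin := [0, 1, 1, 3, 4, 3, 0, 7, 1, 0, 4, 4, 12, 13, 3, 15, 16]
    chd := [(0, 1), (1, 12), (3, 16)]
    steps := [(0, 6), (0, 9), (1, 2), (1, 8), (3, 5), (3, 14), (4, 10), (4, 11)] }
  rep := [4, 1, 3, 0, 13, 12, 16, 7, 15]

noncomputable def v3806 : Cov.CovD where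
  P := 3
  N := 6
  pl := [1, 7, 9]
  lev := [⟨[], [], [(1, 3), (3, 3)], [7], [(0, 3, [1]), (2, 1, [3, 5]), (3, 3, [1])]⟩,
    ⟨[], [(0, 0), (0, 1), (0, 3)], [(0, 1)], [], [(2, 1, [3, 5]), (4, 0, [])]⟩,
    ⟨[(0, 1)], [(0, 0), (0, 1), (0, 3), (0, 5), (1, 0), (1, 1), (1, 3), (1, 5)], [(0, 3),
      (0, 5), (3, 5)], [], [(3, 3, [1]), (5, 0, []), (6, 5, [1])]⟩,
    ⟨[(0, 1), (0, 2)], [(0, 1), (0, 2), (0, 3), (2, 3)], [(2, 3), (3, 3)], [4], [(0, 3,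
      [1]), (3, 3, [1]), (8, 2, [6])]⟩,
    ⟨[(0, 1), (0, 2), (1, 2)], [(1, 0), (1, 1), (1, 2), (2, 0), (2, 2), (2, 3), (2, 5), (3,
      2)], [(0, 0), (0, 2)], [8], [(4, 0, []), (5, 0, []), (8, 2, [6])]⟩,
    ⟨[(0, 3)], [(0, 3), (2, 3), (3, 2), (3, 3), (3, 6)], [(3, 6)], [4], [(3, 3, [1]), (10,
      6, [2])]⟩]
  Ta := [((0, 1), 3, 7), ((0, 8), 3, 2), ((3, 6), 3, 5), ((3, 10), 3, 6), ((4, 2), 0, 1), ((4,
    8), 0, 2), ((5, 6), 0, 5), ((5, 9), 0, 8)]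
  Tb := [((0, 1, 8), 3, 7, 2), ((1, 0, 2), 7, 3, 1), ((2, 1, 4), 1, 7, 0), ((3, 6, 10), 3, 5, 6),
    ((4, 2, 8), 0, 1, 2), ((5, 6, 9), 0, 5, 8), ((6, 3, 5), 5, 3, 0), ((7, 8, 10), 4, 2, 6),
    ((8, 0, 4), 2, 3, 0), ((8, 0, 7), 2, 3, 4), ((8, 0, 9), 2, 3, 8), ((8, 4, 7), 2, 0, 4),
    ((8, 4, 9), 2, 0, 8), ((8, 7, 9), 2, 4, 8), ((9, 5, 8), 8, 0, 2), ((10, 3, 7), 6, 3, 4)]
  Tc := [(1, 3, 5)]
  Td := [((1, 3), (2, 1), 7), ((1, 3), (2, 4), 0), ((1, 5), (2, 1), 7), ((1, 5), (2, 4), 0), ((2,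
    6), (8, 0), 3), ((2, 6), (8, 4), 0), ((2, 6), (8, 7), 4), ((2, 6), (8, 9), 8), ((3, 1),
    (0, 1), 7), ((3, 1), (0, 8), 2), ((3, 1), (3, 6), 5), ((3, 1), (3, 10), 6), ((5, 1), (6,
    3), 3), ((5, 1), (6, 5), 0), ((6, 2), (10, 3), 3), ((6, 2), (10, 7), 4)]
  G := [[0, 0x26c62c914a2c29c51244c82c2acd14e, 0x11a11ca1411c81c62811c11c11ce28d,
    0x52c21c24cd2421c92c28cd2842c88c26cd24d,
    0x42251a44aa42229b472241a54aa22a4a9b41242984a224a8ac4a32cf], [0,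
    0x22cbbc91223c76c518aac62c37cd12e, 0x11a11aa1411c11661811c11c11ce24d,
    0x22ceecbbcd24eec32c67cd283bc77ca2cd28d,
    0x62c2a54aeeaa422297442e2acca66aa424257abb45262357ae4a364d], [0, 0, 0,
    0x62c11c24cd2411c22c88cd2844c88c22cd28d,
    0x6292b2b51a44aa61c26252b51a44ac8ba422429428262ba4acca3e8d], [0, 0, 0,
    0x62caecbbcd21eec32c67cd28bbc77c22cd24d,
    0xc242362854aeeaae1c2229c26252bc866a55abe12287242377ac4a3e4d]]

noncomputable def n3806 : Ent := ⟨e3806, noF, [], [], [(15, 13, [1685356714993749094781261963711221120386310105559083432688084697089, 0]), (12, 16, [1580044410770988437309982408355971841652082177953823432505704697857, 0])]⟩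

def c3806 : PLift (Cov.check n3806.C.D v3806 = true) := ⟨by decide +kernel⟩

def b3806 : PLift (entF (fidx ts) 400 3806 n3806 = true) := ⟨by decide +kernel⟩

theorem g3806 : GoodF (fidx ts) 400 3806 := GoodF.ofV v3806 n3806 c3806.down b3806.down

/-- 756664:2780/8 -/
noncomputable def e3807 : SCfg where
  D := {
    a := 6
    L := 10
    kp := 7
    inn := [(0, 1), (0, 2), (0, 3), (1, 0), (1, 2), (1, 4), (2, 0), (2, 1), (2, 4), (3, 0), (3, 5), (4,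
      1), (4, 2), (5, 3)]
    mix := [(0, 0), (0, 1), (0, 2), (0, 3), (1, 2), (1, 4), (2, 3), (2, 5), (2, 6), (3, 0), (3, 3), (3,
      7), (3, 8), (4, 4), (4, 5), (4, 7), (4, 9), (5, 3), (5, 6), (5, 7)]
    cl := [3, 6, 2, 3, 0, 0, 4, 1, 5, 7]
    chq := [(2, 3), (2, 4), (3, 2), (4, 2), (4, 5), (5, 4)]
    rng := [(0, 1), (0, 8), (1, 0), (1, 2), (2, 1), (2, 4), (3, 6), (4, 2), (4, 9), (5, 6), (5, 7), (6,
      3), (6, 5), (6, 7), (7, 5), (7, 6), (7, 8), (7, 9), (8, 0), (8, 7), (9, 4), (9, 7)]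
    lev := [] }
  links := [[6, 7, 8, 1, 2, 9, 3], [2, 0, 8, 10, 4], [9, 0, 1, 4, 11, 12], [6, 0, 9, 5, 13, 14], [11, 2,
    1, 10, 15, 13], [3, 9, 12, 13]]
  P := {
    a := 6
    N := 16
    nb := [974, 1301, 6675, 25185, 44038, 12808, 16521, 321, 1155, 4141, 33042, 12308, 10788, 55352,
      8264, 9232]
    tri := [(0, 1, 2), (0, 1, 8), (0, 2, 9), (0, 3, 6), (0, 3, 9), (0, 6, 7), (0, 7, 8), (1, 2, 4), (1,
      4, 10), (1, 8, 10), (2, 4, 11), (2, 9, 12), (2, 11, 12), (3, 5, 9), (3, 5, 13), (3, 6, 14),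
      (3, 13, 14), (4, 10, 15), (4, 11, 13), (4, 13, 15), (5, 9, 12), (5, 12, 13)]
    fin := [0, 1, 1, 3, 4, 3, 0, 7, 1, 0, 4, 4, 3, 13, 14, 15]
    chd := [(0, 1), (1, 3), (3, 14)]
    steps := [(0, 6), (0, 9), (1, 2), (1, 8), (3, 5), (3, 12), (4, 10), (4, 11)] }
  rep := [4, 13, 1, 0, 3, 14, 7, 15]

noncomputable def v3807 : Cov.CovD where
  P := 3
  N := 5
  pl := [1, 7, 9]
  lev := [⟨[], [], [(2, 3), (3, 3)], [6], [(0, 3, [2]), (2, 2, [3, 4]), (3, 3, [2])]⟩,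
    ⟨[], [(0, 0), (0, 2), (0, 3)], [(0, 2)], [], [(2, 2, [3, 4]), (4, 0, [])]⟩,
    ⟨[(0, 1)], [(0, 0), (0, 2), (0, 3), (0, 4), (1, 0), (1, 2), (1, 3), (1, 4)], [(0, 3),
      (0, 4), (3, 4)], [], [(3, 3, [2]), (5, 0, []), (6, 4, [2, 5])]⟩,
    ⟨[(0, 1), (0, 2)], [(0, 2), (0, 3), (0, 5), (2, 3)], [(3, 3), (3, 5)], [1], [(0, 3,
      [2]), (3, 3, [2]), (8, 5, [4])]⟩,
    ⟨[(0, 1), (0, 2), (1, 2)], [(1, 0), (1, 2), (2, 0), (2, 3), (2, 4)], [(0, 0)], [1, 7],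
      [(4, 0, []), (5, 0, [])]⟩,
    ⟨[(0, 3)], [(0, 3), (2, 3), (2, 4), (3, 3), (3, 4), (3, 5)], [(3, 4)], [1], [(3, 3,
      [2]), (6, 4, [2, 5])]⟩]
  Ta := [((0, 1), 3, 6), ((0, 8), 3, 5), ((3, 6), 3, 4), ((4, 2), 0, 2), ((4, 9), 0, 7), ((5, 6),
    0, 4), ((5, 7), 0, 1)]
  Tb := [((0, 1, 8), 3, 6, 5), ((1, 0, 2), 6, 3, 2), ((2, 1, 4), 2, 6, 0), ((4, 2, 9), 0, 2, 7),
    ((5, 6, 7), 0, 4, 1), ((6, 3, 5), 4, 3, 0), ((6, 3, 7), 4, 3, 1), ((6, 5, 7), 4, 0, 1),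
    ((7, 5, 6), 1, 0, 4), ((7, 5, 8), 1, 0, 5), ((7, 5, 9), 1, 0, 7), ((7, 6, 8), 1, 4, 5),
    ((7, 6, 9), 1, 4, 7), ((7, 8, 9), 1, 5, 7), ((8, 0, 7), 5, 3, 1), ((9, 4, 7), 7, 0, 1)]
  Tc := [(2, 3, 4), (4, 2, 5)]
  Td := [((2, 3), (2, 1), 6), ((2, 3), (2, 4), 0), ((2, 4), (2, 1), 6), ((2, 4), (2, 4), 0), ((3,
    2), (0, 1), 6), ((3, 2), (0, 8), 5), ((3, 2), (3, 6), 4), ((4, 2), (6, 3), 3), ((4, 2),
    (6, 5), 0), ((4, 2), (6, 7), 1), ((4, 5), (6, 3), 3), ((4, 5), (6, 5), 0), ((4, 5), (6,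
    7), 1), ((5, 4), (8, 0), 3), ((5, 4), (8, 7), 1)]
  G := [[0, 0, 0x11c11c91211c44c51844c18c11cd12e, 0x11c81c14cd2411c18c41cd2841c81cc28d,
    0x14414c88cc448d2481818d1486441444d8a1444514c1888dc2b], [0, 0,
    0x11c11c91411c11c51211c11c11cd18e, 0x55c88c11cd2444c99c11cd2811c11ccccd28d,
    0x84444c84cc448d284c94cc44c94c11c178844491811cc4cd144e2b], [0,
    0x8262266c48a2caac44c62144c88c84ce24d, 0, 0x14c88c48cd2114c88c44cd2144c88c48cd24d,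
    0x14c54cc44c14c61841444d14c1888dc24482141444d18c85cab], [0,
    0x62a88c88ce2444a2a44ce21642e2acccce28d, 0, 0x55c88c88cd2444c99c44cd2811c11ccccd24d,
    0x8484554c84ccc18488894cc4cd44c94ce81484914cc4c51414ce8b]]

noncomputable def n3807 : Ent := ⟨e3807, noF, [], [], [(15, 14, [385746751338780685620664494392815470296102193487288376388071425, 0])]⟩

def c3807 : PLift (Cov.check n3807.C.D v3807 = true) := ⟨by decide +kernel⟩

def b3807 : PLift (entF (fidx ts) 400 3807 n3807 = true) := ⟨by decide +kernel⟩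

theorem g3807 : GoodF (fidx ts) 400 3807 := GoodF.ofV v3807 n3807 c3807.down b3807.down

/-- The entries 3712 to 3807. -/
theorem rE27 : Rng (GoodF (fidx ts) 400) 3712 3808 :=
  (((((((((((((((((((((((((((((((((((((((((((((((((((((((((((((((((((((((((((((((((((((((((((((((((Rng.nil _ 3712).snoc g3712 rfl).snoc g3713 rfl).snoc g3714 rfl).snoc g3715 rfl).snoc g3716 rfl).snoc g3717 rfl).snoc g3718 rfl).snoc g3719 rfl).snoc g3720 rfl).snoc g3721 rfl).snoc g3722 rfl).snoc g3723 rfl).snoc g3724 rfl).snoc g3725 rfl).snoc g3726 rfl).snoc g3727 rfl).snoc g3728 rfl).snoc g3729 rfl).snoc g3730 rfl).snoc g3731 rfl).snoc g3732 rfl).snoc g3733 rfl).snoc g3734 rfl).snoc g3735 rfl).snoc g3736 rfl).snoc g3737 rfl).snoc g3738 rfl).snoc g3739 rfl).snoc g3740 rfl).snoc g3741 rfl).snoc g3742 rfl).snoc g3743 rfl).snoc g3744 rfl).snoc g3745 rfl).snoc g3746 rfl).snoc g3747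 rfl).snoc g3748 rfl).snoc g3749 rfl).snoc g3750 rfl).snoc g3751 rfl).snoc g3752 rfl).snoc g3753 rfl).snoc g3754 rfl).snoc g3755 rfl).snoc g3756 rfl).snoc g3757 rfl).snoc g3758 rfl).snoc g3759 rfl).snoc g3760 rfl).snoc g3761 rfl).snoc g3762 rfl).snoc g3763 rfl).snoc g3764 rfl).snoc g3765 rfl).snoc g3766 rfl).snoc g3767 rfl).snoc g3768 rfl).snoc g3769 rfl).snoc g3770 rfl).snoc g3771 rfl).snoc g3772 rfl).snoc g3773 rfl).snoc g3774 rfl).snoc g3775 rfl).snoc g3776 rfl).snoc g3777 rfl).snoc g3778 rfl).snoc g3779 rfl).snoc g3780 rfl).snoc g3781 rfl).snoc g3782 rfl).snoc g3783 rfl).snoc g3784 rfl).snoc g3785 rfl).snoc g3786 rfl).snoc g3787 rfl).snoc g3788 rfl).snoc g3789 rfl).snoc g3790 rfl).snoc g3791 rfl).snoc g3792 rfl).snoc g3793 rfl).snoc g3794 rfl).snoc g3795 rfl).snoc g3796 rfl).snoc g3797 rfl).snoc g3798 rfl).snoc g3799 rfl).snoc g3800 rfl).snoc g3801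 rfl).snoc g3802 rfl).snoc g3803 rfl).snoc g3804 rfl).snoc g3805 rfl).snoc g3806 rfl).snoc g3807 rfl)

end Pool.Agent.W986.ST.Dat
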