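import Pool.Agent.W986.Dat.Tab
import Pool.Agent.W986.SubAltB

/-!
# Entries 1412 to 1556 of the table
-/

set_option autoImplicit false

namespace Pool.Agent.W986.ST.Dat

/-- 466745:1125 -/
noncomputable def e1412 : SCfg where
  D := {
    a := 6
    L := 11
    kp := 8
    inn := [(0, 1), (0, 3), (1, 0), (1, 2), (1, 3), (2, 1), (2, 5), (3, 0), (3, 1), (3, 4), (4, 3), (5,
      2)]
    mix := [(0, 0), (0, 1), (1, 1), (1, 2), (1, 3), (2, 2), (2, 3), (2, 4), (2, 5), (3, 0), (3, 3), (3,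
      6), (3, 7), (4, 6), (4, 7), (4, 8), (5, 2), (5, 4), (5, 9), (5, 10)]
    cl := [0, 4, 3, 0, 3, 5, 1, 2, 6, 7, 8]
    chq := [(0, 6), (4, 5), (5, 4), (6, 0)]
    rng := [(0, 1), (0, 7), (1, 0), (1, 2), (2, 1), (2, 9), (3, 5), (3, 6), (4, 5), (4, 10), (5, 3),
      (5, 4), (6, 3), (6, 8), (7, 0), (7, 8), (8, 6), (8, 7), (9, 2), (9, 10), (10, 4), (10, 9)]
    lev := [] }
  links := [[1, 3, 6, 7], [3, 0, 7, 8, 2, 9], [9, 1, 8, 5, 10, 11], [6, 0, 1, 9, 12, 4, 13], [13, 3, 12,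
    14], [10, 2, 8, 15, 16]]
  P := {
    a := 6
    N := 17
    nb := [202, 909, 3874, 12883, 28680, 99588, 8329, 323, 32934, 6158, 67620, 1540, 16920, 16472,
      12304, 65824, 33824]
    tri := [(0, 1, 3), (0, 1, 7), (0, 3, 6), (0, 6, 7), (1, 2, 8), (1, 2, 9), (1, 3, 9), (1, 7, 8), (2,
      5, 8), (2, 5, 10), (2, 9, 11), (2, 10, 11), (3, 4, 12), (3, 4, 13), (3, 6, 13), (3, 9, 12),
      (4, 12, 14), (4, 13, 14), (5, 8, 15), (5, 10, 16), (5, 15, 16)]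
    fin := [0, 1, 1, 0, 0, 5, 0, 1, 5, 0, 5, 11, 12, 13, 14, 15, 16]
    chd := [(0, 14), (1, 11)]
    steps := [(0, 3), (0, 4), (0, 6), (0, 9), (1, 2), (1, 7), (5, 8), (5, 10)] }
  rep := [0, 12, 13, 5, 1, 11, 14, 15, 16]

noncomputable def v1412 : Cov.CovD where
  P := 3
  N := 6
  pl := [6, 7, 9, 10]
  lev := [⟨[], [], [(0, 4)], [], [(0, 0, [6]), (1, 4, [5])]⟩,
    ⟨[], [(0, 0), (0, 3), (0, 4)], [(0, 3), (0, 4), (3, 4)], [], [(1, 4, [5]), (2, 3, []),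
      (3, 0, [6])]⟩,
    ⟨[(0, 1)], [(1, 0), (1, 3), (1, 4), (1, 5)], [(0, 3), (0, 5), (3, 3), (3, 5)], [], [(2,
      3, []), (3, 0, [6]), (4, 3, []), (5, 5, [4])]⟩,
    ⟨[(0, 1), (1, 2)], [(0, 0), (0, 4), (1, 0), (1, 3), (1, 4), (2, 0)], [(0, 0)], [1, 2],
      [(0, 0, [6]), (3, 0, [6])]⟩,
    ⟨[(0, 3), (1, 3)], [(3, 0), (3, 6)], [], [1, 2], [(8, 6, [0])]⟩,
    ⟨[(1, 2)], [(1, 3), (2, 0), (2, 3), (2, 5)], [(3, 3)], [7, 8], [(2, 3, []), (4, 3,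
      [])]⟩]
  Ta := [((0, 1), 0, 4), ((0, 7), 0, 2), ((2, 1), 3, 4), ((2, 9), 3, 7), ((3, 5), 0, 5), ((3, 6),
    0, 1), ((4, 5), 3, 5), ((4, 10), 3, 8)]
  Tb := [((0, 1, 7), 0, 4, 2), ((1, 0, 2), 4, 0, 3), ((2, 1, 9), 3, 4, 7), ((3, 5, 6), 0, 5, 1),
    ((4, 5, 10), 3, 5, 8), ((5, 3, 4), 5, 0, 3), ((6, 3, 8), 1, 0, 6), ((7, 0, 8), 2, 0, 6),
    ((8, 6, 7), 6, 1, 2), ((9, 2, 10), 7, 3, 8), ((10, 4, 9), 8, 3, 7)]
  Tc := []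
  Td := [((0, 6), (0, 1), 4), ((0, 6), (0, 7), 2), ((0, 6), (3, 5), 5), ((0, 6), (3, 6), 1), ((4,
    5), (1, 0), 0), ((4, 5), (1, 2), 3), ((5, 4), (5, 3), 0), ((5, 4), (5, 4), 3), ((6, 0),
    (8, 6), 1), ((6, 0), (8, 7), 2)]
  G := [[0, 0, 0xffc4eec4c4c4719c477c4a9eec89498caeec4133c8bbc8c7a,
    0xb1421184c114e1497182ce1446181e148914714cfe,
    0x118118c1f18e183f188f1827118e183118118ce184ee], [0, 0, 0xeec42ffc44affc88ffc823c,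
    0xf1428f144f184189c6, 0xf182f1846f18818818e2c], [0, 0xddc4bbc46ddc877c8abbc877c8ce1, 0,
    0xd14b146d18718ab14718ce1, 0xd18b186d18818718eb18718818ee1], [0, 0xffc4ffc46ffc48a1, 0,
    0xf182f14f14c61, 0xf182f18f18c61]]

noncomputable def n1412 : Ent := ⟨e1412, noF, [], [], [(15, 14, [1685382413448253767852309107433119732572617628602273068445370683393, 0]), (16, 14, [1580095832788404724998799751142926758855362888449624481876424531969, 0]), (16, 13, [1580044429602293643470024699863340111275081426260889765897798430721, 0])]⟩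

def c1412 : PLift (Cov.check n1412.C.D v1412 = true) := ⟨by decide +kernel⟩

def b1412 : PLift (entF (fidx ts) 400 1412 n1412 = true) := ⟨by decide +kernel⟩

theorem g1412 : GoodF (fidx ts) 400 1412 := GoodF.ofV v1412 n1412 c1412.down b1412.down

/-- 467456:1129/1 -/
noncomputable def e1413 : SCfg where
  D := {
    a := 6
    L := 10
    kp := 7
    inn := [(0, 1), (1, 0), (1, 2), (2, 1), (2, 3), (2, 4), (2, 5), (3, 2), (4, 2), (4, 5), (5, 2), (5,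
      4)]
    mix := [(0, 0), (0, 1), (0, 2), (1, 0), (1, 2), (1, 3), (1, 4), (2, 3), (2, 4), (2, 5), (3, 3), (3,
      5), (3, 6), (4, 4), (4, 7), (4, 8), (5, 1), (5, 5), (5, 7), (5, 9)]
    cl := [1, 4, 2, 0, 0, 3, 5, 3, 6, 7]
    chq := [(0, 3), (0, 4), (3, 0), (4, 0)]
    rng := [(0, 1), (0, 4), (1, 0), (1, 2), (1, 5), (1, 9), (2, 1), (2, 3), (3, 2), (3, 6), (4, 0), (4,
      8), (5, 1), (5, 6), (6, 3), (6, 5), (7, 8), (7, 9), (8, 4), (8, 7), (9, 1), (9, 7)]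
    lev := [] }
  links := [[1, 6, 7, 8], [6, 0, 8, 9, 2, 10], [10, 1, 9, 3, 11, 5, 4], [11, 2, 9, 12], [10, 2, 5, 13,
    14], [13, 4, 2, 11, 7, 15]]
  P := {
    a := 6
    N := 16
    nb := [450, 1861, 3642, 6660, 25636, 43156, 1155, 35169, 643, 4366, 16470, 4268, 2568, 49200,
      9232, 8352]
    tri := [(0, 1, 6), (0, 1, 8), (0, 6, 7), (0, 7, 8), (1, 2, 9), (1, 2, 10), (1, 6, 10), (1, 8, 9),
      (2, 3, 9), (2, 3, 11), (2, 4, 5), (2, 4, 10), (2, 5, 11), (3, 9, 12), (3, 11, 12), (4, 5,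
      13), (4, 10, 14), (4, 13, 14), (5, 7, 11), (5, 7, 15), (5, 13, 15)]
    fin := [0, 0, 2, 2, 2, 5, 6, 0, 8, 2, 2, 5, 12, 5, 14, 15]
    chd := [(0, 2), (2, 5)]
    steps := [(0, 1), (0, 7), (2, 3), (2, 4), (2, 9), (2, 10), (5, 11), (5, 13)] }
  rep := [2, 6, 8, 5, 0, 12, 14, 15]

noncomputable def v1413 : Cov.CovD where
  P := 3
  N := 5
  pl := [0, 2, 6, 8, 9]
  lev := [⟨[], [], [], [1, 2], [(1, 4, [0])]⟩,
    ⟨[], [(0, 0), (0, 4)], [(0, 0)], [1, 2], [(3, 0, [3, 4]), (4, 0, [3, 4])]⟩,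
    ⟨[(0, 1)], [(1, 0), (1, 3)], [(0, 0), (0, 3)], [], [(3, 0, [3, 4]), (4, 0, [3, 4]), (5,
      3, [0])]⟩,
    ⟨[(1, 2)], [(1, 0), (2, 0), (2, 3)], [(0, 3)], [5], [(3, 0, [3, 4]), (5, 3, [0])]⟩,
    ⟨[(1, 2), (2, 3)], [(1, 0), (2, 0), (2, 3)], [(0, 3)], [6], [(4, 0, [3, 4]), (7, 3,
      [0])]⟩,
    ⟨[(1, 2), (2, 3), (2, 4)], [(0, 4), (2, 0), (2, 3), (2, 4), (3, 3), (4, 0), (4, 3), (4,
      4)], [(3, 3), (3, 4)], [7], [(1, 4, [0]), (5, 3, [0]), (7, 3, [0])]⟩]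
  Ta := [((3, 2), 0, 2), ((3, 6), 0, 5), ((4, 0), 0, 1), ((4, 8), 0, 6), ((5, 1), 3, 4), ((5, 6),
    3, 5), ((7, 8), 3, 6), ((7, 9), 3, 7)]
  Tb := [((0, 1, 4), 1, 4, 0), ((1, 0, 2), 4, 1, 2), ((1, 0, 5), 4, 1, 3), ((1, 0, 9), 4, 1, 7),
    ((1, 2, 5), 4, 2, 3), ((1, 2, 9), 4, 2, 7), ((1, 5, 9), 4, 3, 7), ((2, 1, 3), 2, 4, 0),
    ((3, 2, 6), 0, 2, 5), ((4, 0, 8), 0, 1, 6), ((5, 1, 6), 3, 4, 5), ((6, 3, 5), 5, 0, 3),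
    ((7, 8, 9), 3, 6, 7), ((8, 4, 7), 6, 0, 3), ((9, 1, 7), 7, 4, 3)]
  Tc := [(0, 3, 4)]
  Td := [((0, 3), (3, 2), 2), ((0, 3), (3, 6), 5), ((0, 3), (4, 0), 1), ((0, 3), (4, 8), 6), ((0,
    4), (3, 2), 2), ((0, 4), (3, 6), 5), ((0, 4), (4, 0), 1), ((0, 4), (4, 8), 6), ((3, 0),
    (5, 1), 4), ((3, 0), (5, 6), 5), ((3, 0), (7, 8), 6), ((3, 0), (7, 9), 7), ((4, 0), (1,
    0), 1), ((4, 0), (1, 2), 2), ((4, 0), (1, 5), 3), ((4, 0), (1, 9), 7)]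
  G := [[0, 0, 0x8139a38e4316a1a8c5235221e9458114dea4c, 0x356d2b481f8228af8586e41,
    0x422236d239a78eb44894ee81], [0, 0, 0x11a7118da48114d1116fc28c, 0x3dfaf5fbcf6841,
    0xbfaf11efaf44681], [0, 0x941b81c434154a1c8c, 0, 0xe2cd23a4e4cc434f681,
    0xa4e2d2be4a48b47681], [0, 0x9bbe148221755e1a4c, 0, 0x2ffeff66d81a41,
    0xf24a2eaeda97c5681]]

noncomputable def n1413 : Ent := ⟨e1413, noF, [], [], []⟩

def c1413 : PLift (Cov.check n1413.C.D v1413 = true) := ⟨by decide +kernel⟩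

def b1413 : PLift (entF (fidx ts) 400 1413 n1413 = true) := ⟨by decide +kernel⟩

theorem g1413 : GoodF (fidx ts) 400 1413 := GoodF.ofV v1413 n1413 c1413.down b1413.down

/-- 467456:1129/2 -/
noncomputable def e1414 : SCfg where
  D := {
    a := 6
    L := 10
    kp := 7
    inn := [(0, 1), (1, 0), (1, 2), (2, 1), (2, 3), (2, 4), (2, 5), (3, 2), (4, 2), (4, 5), (5, 2), (5,
      4)]
    mix := [(0, 0), (0, 1), (0, 2), (1, 0), (1, 2), (1, 3), (1, 4), (2, 3), (2, 4), (2, 5), (3, 3), (3,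
      5), (3, 6), (4, 4), (4, 7), (4, 8), (5, 1), (5, 5), (5, 7), (5, 9)]
    cl := [1, 4, 2, 0, 0, 3, 5, 3, 6, 7]
    chq := [(0, 3), (0, 4), (3, 0), (4, 0)]
    rng := [(0, 1), (0, 4), (1, 0), (1, 2), (1, 7), (1, 9), (2, 1), (2, 3), (3, 2), (3, 6), (4, 0), (4,
      8), (5, 6), (5, 9), (6, 3), (6, 5), (7, 1), (7, 8), (8, 4), (8, 7), (9, 1), (9, 5)]
    lev := [] }
  links := [[1, 6, 7, 8], [6, 0, 8, 9, 2, 10], [10, 1, 9, 3, 11, 5, 4], [11, 2, 9, 12], [10, 2, 5, 13,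
    14], [13, 4, 2, 11, 15, 7]]
  P := {
    a := 6
    N := 16
    nb := [450, 1861, 3642, 6660, 25636, 43156, 1155, 41313, 643, 4366, 16470, 36908, 2568, 16560,
      9232, 2208]
    tri := [(0, 1, 6), (0, 1, 8), (0, 6, 7), (0, 7, 8), (1, 2, 9), (1, 2, 10), (1, 6, 10), (1, 8, 9),
      (2, 3, 9), (2, 3, 11), (2, 4, 5), (2, 4, 10), (2, 5, 11), (3, 9, 12), (3, 11, 12), (4, 5,
      13), (4, 10, 14), (4, 13, 14), (5, 7, 13), (5, 7, 15), (5, 11, 15)]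
    fin := [0, 0, 2, 2, 2, 5, 6, 0, 8, 2, 2, 5, 12, 5, 14, 15]
    chd := [(0, 2), (2, 5)]
    steps := [(0, 1), (0, 7), (2, 3), (2, 4), (2, 9), (2, 10), (5, 11), (5, 13)] }
  rep := [2, 6, 8, 5, 0, 12, 14, 15]

noncomputable def v1414 : Cov.CovD where
  P := 3
  N := 5
  pl := [0, 2, 6, 8, 9]
  lev := [⟨[], [], [], [1, 2], [(1, 4, [0])]⟩,
    ⟨[], [(0, 0), (0, 4)], [(0, 0)], [1, 2], [(3, 0, [3, 4]), (4, 0, [3, 4])]⟩,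
    ⟨[(0, 1)], [(1, 0), (1, 3)], [(0, 0), (0, 3)], [], [(3, 0, [3, 4]), (4, 0, [3, 4]), (5,
      3, [0])]⟩,
    ⟨[(1, 2)], [(1, 0), (2, 0), (2, 3)], [(0, 3)], [5], [(3, 0, [3, 4]), (5, 3, [0])]⟩,
    ⟨[(1, 2), (2, 3)], [(1, 0), (2, 0), (2, 3)], [(0, 3)], [6], [(4, 0, [3, 4]), (7, 3,
      [0])]⟩,
    ⟨[(1, 2), (2, 3), (2, 4)], [(0, 4), (2, 0), (2, 3), (2, 4), (3, 3), (4, 0), (4, 3), (4,
      4)], [(3, 3), (3, 4)], [7], [(1, 4, [0]), (5, 3, [0]), (7, 3, [0])]⟩]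
  Ta := [((3, 2), 0, 2), ((3, 6), 0, 5), ((4, 0), 0, 1), ((4, 8), 0, 6), ((5, 6), 3, 5), ((5, 9),
    3, 7), ((7, 1), 3, 4), ((7, 8), 3, 6)]
  Tb := [((0, 1, 4), 1, 4, 0), ((1, 0, 2), 4, 1, 2), ((1, 0, 7), 4, 1, 3), ((1, 0, 9), 4, 1, 7),
    ((1, 2, 7), 4, 2, 3), ((1, 2, 9), 4, 2, 7), ((1, 7, 9), 4, 3, 7), ((2, 1, 3), 2, 4, 0),
    ((3, 2, 6), 0, 2, 5), ((4, 0, 8), 0, 1, 6), ((5, 6, 9), 3, 5, 7), ((6, 3, 5), 5, 0, 3),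
    ((7, 1, 8), 3, 4, 6), ((8, 4, 7), 6, 0, 3), ((9, 1, 5), 7, 4, 3)]
  Tc := [(0, 3, 4)]
  Td := [((0, 3), (3, 2), 2), ((0, 3), (3, 6), 5), ((0, 3), (4, 0), 1), ((0, 3), (4, 8), 6), ((0,
    4), (3, 2), 2), ((0, 4), (3, 6), 5), ((0, 4), (4, 0), 1), ((0, 4), (4, 8), 6), ((3, 0),
    (5, 6), 5), ((3, 0), (5, 9), 7), ((3, 0), (7, 1), 4), ((3, 0), (7, 8), 6), ((4, 0), (1,
    0), 1), ((4, 0), (1, 2), 2), ((4, 0), (1, 7), 3), ((4, 0), (1, 9), 7)]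
  G := [[0, 0, 0x9239a78e8448c6835652b4e84c, 0x7464174e84b2bbaf841f485,
    0x8458ca2842746d229a28e3458ce89], [0, 0, 0x11a7111af684116b116d684c, 0x5bfeff97cfa481,
    0x79fcf2f796f8681], [0, 0x79a148b56184c, 0, 0x626caa412f828c4789e41,
    0x521e2a228ef4cd8b47e81], [0, 0x9bfe148753e184c, 0, 0xd361f2cef2ceca41,
    0xf8f23f4ffcc681]]

noncomputable def n1414 : Ent := ⟨e1414, noF, [], [], []⟩

def c1414 : PLift (Cov.check n1414.C.D v1414 = true) := ⟨by decide +kernel⟩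

def b1414 : PLift (entF (fidx ts) 400 1414 n1414 = true) := ⟨by decide +kernel⟩

theorem g1414 : GoodF (fidx ts) 400 1414 := GoodF.ofV v1414 n1414 c1414.down b1414.down

/-- 467456:1129 -/
noncomputable def e1415 : SCfg where
  D := {
    a := 6
    L := 11
    kp := 8
    inn := [(0, 1), (1, 0), (1, 2), (2, 1), (2, 3), (2, 4), (2, 5), (3, 2), (4, 2), (4, 5), (5, 2), (5,
      4)]
    mix := [(0, 0), (0, 1), (0, 2), (1, 0), (1, 2), (1, 3), (1, 4), (2, 3), (2, 4), (2, 5), (3, 3), (3,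
      5), (3, 6), (4, 4), (4, 7), (4, 8), (5, 5), (5, 7), (5, 9), (5, 10)]
    cl := [1, 4, 2, 0, 0, 3, 5, 3, 6, 7, 8]
    chq := [(0, 3), (0, 4), (3, 0), (4, 0)]
    rng := [(0, 1), (0, 4), (1, 0), (1, 2), (2, 1), (2, 3), (3, 2), (3, 6), (4, 0), (4, 8), (5, 6), (5,
      9), (6, 3), (6, 5), (7, 8), (7, 10), (8, 4), (8, 7), (9, 5), (9, 10), (10, 7), (10, 9)]
    lev := [] }
  links := [[1, 6, 7, 8], [6, 0, 8, 9, 2, 10], [10, 1, 9, 3, 11, 5, 4], [11, 2, 9, 12], [10, 2, 5, 13,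
    14], [13, 4, 2, 11, 15, 16]]
  P := {
    a := 6
    N := 17
    nb := [450, 1861, 3642, 6660, 25636, 108564, 1155, 321, 643, 4366, 16470, 36908, 2568, 81968,
      9232, 67616, 40992]
    tri := [(0, 1, 6), (0, 1, 8), (0, 6, 7), (0, 7, 8), (1, 2, 9), (1, 2, 10), (1, 6, 10), (1, 8, 9),
      (2, 3, 9), (2, 3, 11), (2, 4, 5), (2, 4, 10), (2, 5, 11), (3, 9, 12), (3, 11, 12), (4, 5,
      13), (4, 10, 14), (4, 13, 14), (5, 11, 15), (5, 13, 16), (5, 15, 16)]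
    fin := [0, 0, 2, 2, 2, 5, 6, 0, 8, 2, 2, 5, 12, 5, 14, 15, 16]
    chd := [(0, 2), (2, 5)]
    steps := [(0, 1), (0, 7), (2, 3), (2, 4), (2, 9), (2, 10), (5, 11), (5, 13)] }
  rep := [2, 6, 8, 5, 0, 12, 14, 15, 16]

noncomputable def v1415 : Cov.CovD where
  P := 3
  N := 6
  pl := [0, 2, 6, 8, 9, 10]
  lev := [⟨[], [], [], [1, 2], [(1, 4, [0])]⟩,
    ⟨[], [(0, 0), (0, 4)], [(0, 0)], [1, 2], [(3, 0, [3, 4]), (4, 0, [3, 4])]⟩,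
    ⟨[(0, 1)], [(1, 0), (1, 3)], [(0, 0), (0, 3)], [], [(3, 0, [3, 4]), (4, 0, [3, 4]), (5,
      3, [0])]⟩,
    ⟨[(1, 2)], [(1, 0), (2, 0), (2, 3)], [(0, 3)], [5], [(3, 0, [3, 4]), (5, 3, [0])]⟩,
    ⟨[(1, 2), (2, 3)], [(1, 0), (2, 0), (2, 3)], [(0, 3)], [6], [(4, 0, [3, 4]), (7, 3,
      [0])]⟩,
    ⟨[(1, 2), (2, 3), (2, 4)], [(2, 0), (2, 3), (3, 3), (4, 0), (4, 3)], [(3, 3)], [7, 8],
      [(5, 3, [0]), (7, 3, [0])]⟩]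
  Ta := [((3, 2), 0, 2), ((3, 6), 0, 5), ((4, 0), 0, 1), ((4, 8), 0, 6), ((5, 6), 3, 5), ((5, 9),
    3, 7), ((7, 8), 3, 6), ((7, 10), 3, 8)]
  Tb := [((0, 1, 4), 1, 4, 0), ((1, 0, 2), 4, 1, 2), ((2, 1, 3), 2, 4, 0), ((3, 2, 6), 0, 2, 5),
    ((4, 0, 8), 0, 1, 6), ((5, 6, 9), 3, 5, 7), ((6, 3, 5), 5, 0, 3), ((7, 8, 10), 3, 6, 8),
    ((8, 4, 7), 6, 0, 3), ((9, 5, 10), 7, 3, 8), ((10, 7, 9), 8, 3, 7)]
  Tc := [(0, 3, 4)]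
  Td := [((0, 3), (3, 2), 2), ((0, 3), (3, 6), 5), ((0, 3), (4, 0), 1), ((0, 3), (4, 8), 6), ((0,
    4), (3, 2), 2), ((0, 4), (3, 6), 5), ((0, 4), (4, 0), 1), ((0, 4), (4, 8), 6), ((3, 0),
    (5, 6), 5), ((3, 0), (5, 9), 7), ((3, 0), (7, 8), 6), ((3, 0), (7, 10), 8), ((4, 0), (1,
    0), 1), ((4, 0), (1, 2), 2)]
  G := [[0, 0, 0x145d221e9238aa178945ee48121a431471c3b4e817858eacc, 0x52d2b4e8238ab47848ee41,
    0x42246d29278eb47894ee81], [0, 0, 0x111ef111ef684111ef111efc28c, 0x79feff97cfa481,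
    0xf1f6ff9f4fa481], [0, 0xf21f4168f21f4168c, 0, 0xe224d27e8c472cba41,
    0x62282d23e4e869cde81], [0, 0xf21ffc168a21ff5e1a4c, 0, 0x721ffcff8ec681,
    0xfac1f63fec44c681]]

noncomputable def n1415 : Ent := ⟨e1415, noF, [], [], [(7, 15, [1685356702439545624007900436039642273970977273354372543760005877761, 0]), (7, 16, [1580044410770988437309982408355971841652082177953823432505694904321, 0])]⟩

def c1415 : PLift (Cov.check n1415.C.D v1415 = true) := ⟨by decide +kernel⟩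

def b1415 : PLift (entF (fidx ts) 400 1415 n1415 = true) := ⟨by decide +kernel⟩

theorem g1415 : GoodF (fidx ts) 400 1415 := GoodF.ofV v1415 n1415 c1415.down b1415.down

/-- 467565:1131/1 -/
noncomputable def e1416 : SCfg where
  D := {
    a := 6
    L := 10
    kp := 8
    inn := [(0, 1), (1, 0), (1, 2), (2, 1), (2, 3), (2, 4), (2, 5), (3, 2), (3, 4), (4, 2), (4, 3), (4,
      5), (5, 2), (5, 4)]
    mix := [(0, 0), (0, 1), (0, 2), (1, 0), (1, 2), (1, 3), (1, 4), (2, 3), (2, 4), (2, 5), (3, 3), (3,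
      6), (3, 7), (4, 1), (4, 7), (4, 8), (5, 5), (5, 8), (5, 9)]
    cl := [1, 4, 2, 0, 0, 5, 7, 6, 3, 8]
    chq := [(0, 3), (0, 4), (0, 6), (1, 2), (2, 1), (3, 0), (3, 5), (4, 0), (5, 3), (6, 0)]
    rng := [(0, 1), (0, 4), (1, 0), (1, 2), (1, 7), (1, 8), (2, 1), (2, 3), (3, 2), (3, 6), (4, 0), (4,
      5), (5, 4), (5, 9), (6, 3), (6, 7), (7, 1), (7, 6), (8, 1), (8, 9), (9, 5), (9, 8)]
    lev := [] }
  links := [[1, 6, 7, 8], [6, 0, 8, 9, 2, 10], [10, 1, 9, 3, 4, 5, 11], [4, 2, 9, 12, 13], [5, 2, 3, 13,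
    7, 14], [11, 2, 4, 14, 15]]
  P := {
    a := 6
    N := 16
    nb := [450, 1861, 3642, 12820, 24748, 51220, 1155, 24913, 643, 4366, 2118, 33828, 8712, 4248,
      32944, 18464]
    tri := [(0, 1, 6), (0, 1, 8), (0, 6, 7), (0, 7, 8), (1, 2, 9), (1, 2, 10), (1, 6, 10), (1, 8, 9),
      (2, 3, 4), (2, 3, 9), (2, 4, 5), (2, 5, 11), (2, 10, 11), (3, 4, 13), (3, 9, 12), (3, 12,
      13), (4, 5, 14), (4, 7, 13), (4, 7, 14), (5, 11, 15), (5, 14, 15)]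
    fin := [0, 0, 2, 2, 4, 5, 0, 4, 8, 2, 2, 11, 12, 13, 5, 15]
    chd := [(0, 8), (2, 5), (2, 13), (4, 2), (11, 5)]
    steps := [(0, 1), (0, 6), (2, 3), (2, 9), (2, 10), (4, 7), (5, 14)] }
  rep := [2, 0, 8, 5, 4, 11, 13, 12, 15]

noncomputable def v1416 : Cov.CovD where
  P := 3
  N := 6
  pl := [6, 9]
  lev := [⟨[], [], [(1, 2), (1, 4), (2, 4)], [], [(0, 1, [2]), (1, 4, [0]), (2, 2, [1])]⟩,
    ⟨[], [(0, 0), (0, 1), (0, 2), (0, 4)], [(0, 0), (0, 1), (0, 2), (1, 2)], [], [(0, 1,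
      [2]), (2, 2, [1]), (3, 0, [3, 4, 6]), (4, 0, [3, 4, 6])]⟩,
    ⟨[(0, 1)], [(1, 0), (1, 1), (1, 2), (1, 5)], [(0, 0), (0, 5)], [], [(3, 0, [3, 4, 6]),
      (4, 0, [3, 4, 6]), (5, 5, [3])]⟩,
    ⟨[(1, 2)], [(1, 0), (2, 0), (2, 5), (2, 6)], [(0, 6)], [7], [(3, 0, [3, 4, 6]), (7, 6,
      [0])]⟩,
    ⟨[(1, 2), (2, 3)], [(0, 4), (2, 0), (2, 3), (2, 4), (2, 5), (2, 6), (3, 0), (3, 3), (3,
      4), (3, 6)], [(3, 4), (3, 6), (4, 6)], [], [(1, 4, [0]), (7, 6, [0]), (8, 3, [0, 5])]⟩,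
    ⟨[(1, 2), (2, 3), (2, 4), (3, 4)], [(2, 0), (2, 3), (2, 5), (4, 3), (4, 4), (4, 5), (4,
      6)], [(3, 5)], [8], [(5, 5, [3]), (8, 3, [0, 5])]⟩]
  Ta := [((3, 2), 0, 2), ((3, 6), 0, 7), ((4, 0), 0, 1), ((4, 5), 0, 5)]
  Tb := [((0, 1, 4), 1, 4, 0), ((1, 0, 2), 4, 1, 2), ((1, 0, 7), 4, 1, 6), ((1, 0, 8), 4, 1, 3),
    ((1, 2, 7), 4, 2, 6), ((1, 2, 8), 4, 2, 3), ((1, 7, 8), 4, 6, 3), ((2, 1, 3), 2, 4, 0),
    ((3, 2, 6), 0, 2, 7), ((4, 0, 5), 0, 1, 5), ((5, 4, 9), 5, 0, 8), ((6, 3, 7), 7, 0, 6),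
    ((7, 1, 6), 6, 4, 7), ((8, 1, 9), 3, 4, 8), ((9, 5, 8), 8, 5, 3)]
  Tc := [(0, 3, 4), (0, 3, 6), (0, 4, 6), (3, 0, 5)]
  Td := [((0, 3), (3, 2), 2), ((0, 3), (3, 6), 7), ((0, 3), (4, 0), 1), ((0, 3), (4, 5), 5), ((0,
    4), (3, 2), 2), ((0, 4), (3, 6), 7), ((0, 4), (4, 0), 1), ((0, 4), (4, 5), 5), ((0, 6),
    (3, 2), 2), ((0, 6), (3, 6), 7), ((0, 6), (4, 0), 1), ((0, 6), (4, 5), 5), ((1, 2), (0,
    1), 4), ((1, 2), (0, 4), 0), ((2, 1), (2, 1), 4), ((2, 1), (2, 3), 0), ((3, 0), (8, 1),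
    4), ((3, 0), (8, 9), 8), ((3, 5), (8, 1), 4), ((3, 5), (8, 9), 8), ((4, 0), (1, 0), 1),
    ((4, 0), (1, 2), 2), ((4, 0), (1, 7), 6), ((4, 0), (1, 8), 3), ((5, 3), (5, 4), 0), ((5,
    3), (5, 9), 8), ((6, 0), (7, 1), 4), ((6, 0), (7, 6), 7)]
  G := [[0, 0, 0x8171af171c651d1b1e8c41216d191f1eb1f191ee8c,
    0x153215367d1811e3deaf11bb19fd995b61efe81, 0x114731476711dd199b9f382af1b31f9118dffcfe81],
    [0, 0x71d1f1e82a17151f87e441216d1b1f1eb191f4be8c, 0,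
    0x511252671d38141bfafb1111ff119dde1efe81, 0x115721426711dd8111fbdfaf11bbf1119daf1efe81]]

noncomputable def n1416 : Ent := ⟨e1416, noF, [], [], []⟩

def c1416 : PLift (Cov.check n1416.C.D v1416 = true) := ⟨by decide +kernel⟩

def b1416 : PLift (entF (fidx ts) 400 1416 n1416 = true) := ⟨by decide +kernel⟩

theorem g1416 : GoodF (fidx ts) 400 1416 := GoodF.ofV v1416 n1416 c1416.down b1416.down

/-- 467565:1131/2 -/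
noncomputable def e1417 : SCfg where
  D := {
    a := 6
    L := 10
    kp := 8
    inn := [(0, 1), (1, 0), (1, 2), (2, 1), (2, 3), (2, 4), (2, 5), (3, 2), (3, 4), (4, 2), (4, 3), (4,
      5), (5, 2), (5, 4)]
    mix := [(0, 0), (0, 1), (0, 2), (1, 0), (1, 2), (1, 3), (1, 4), (2, 3), (2, 4), (2, 5), (3, 3), (3,
      6), (3, 7), (4, 1), (4, 7), (4, 8), (5, 1), (5, 5), (5, 9)]
    cl := [2, 1, 3, 0, 0, 4, 7, 5, 6, 8]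
    chq := [(0, 1), (0, 5), (0, 6), (1, 0), (1, 4), (2, 3), (3, 2), (4, 1), (5, 0), (6, 0)]
    rng := [(0, 1), (0, 4), (1, 0), (1, 2), (1, 8), (1, 9), (2, 1), (2, 3), (3, 2), (3, 6), (4, 0), (4,
      5), (5, 4), (5, 9), (6, 3), (6, 7), (7, 6), (7, 8), (8, 1), (8, 7), (9, 1), (9, 5)]
    lev := [] }
  links := [[1, 6, 7, 8], [6, 0, 8, 9, 2, 10], [10, 1, 9, 3, 4, 5, 11], [4, 2, 9, 12, 13], [5, 2, 3, 13,
    14, 7], [11, 2, 4, 7, 15]]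
  P := {
    a := 6
    N := 16
    nb := [450, 1861, 3642, 12820, 24748, 34964, 1155, 49521, 643, 4366, 2118, 33828, 8712, 20504,
      8336, 2208]
    tri := [(0, 1, 6), (0, 1, 8), (0, 6, 7), (0, 7, 8), (1, 2, 9), (1, 2, 10), (1, 6, 10), (1, 8, 9),
      (2, 3, 4), (2, 3, 9), (2, 4, 5), (2, 5, 11), (2, 10, 11), (3, 4, 13), (3, 9, 12), (3, 12,
      13), (4, 5, 7), (4, 7, 14), (4, 13, 14), (5, 7, 15), (5, 11, 15)]
    fin := [0, 0, 2, 2, 2, 5, 0, 5, 8, 2, 2, 11, 12, 13, 14, 15]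
    chd := [(0, 8), (2, 13), (2, 14), (5, 2), (5, 11)]
    steps := [(0, 1), (0, 6), (2, 3), (2, 4), (2, 9), (2, 10), (5, 7)] }
  rep := [2, 5, 0, 8, 11, 13, 14, 12, 15]

noncomputable def v1417 : Cov.CovD where
  P := 3
  N := 6
  pl := [6, 9]
  lev := [⟨[], [], [(1, 2), (1, 3), (2, 3)], [], [(0, 2, [3]), (1, 1, [0, 4]), (2, 3, [2])]⟩,
    ⟨[], [(0, 0), (0, 1), (0, 2), (0, 3)], [(0, 0), (0, 2), (0, 3), (2, 3)], [], [(0, 2,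
      [3]), (2, 3, [2]), (3, 0, [1, 5, 6]), (4, 0, [1, 5, 6])]⟩,
    ⟨[(0, 1)], [(1, 0), (1, 2), (1, 3), (1, 4)], [(0, 0), (0, 4)], [], [(3, 0, [1, 5, 6]),
      (4, 0, [1, 5, 6]), (5, 4, [1])]⟩,
    ⟨[(1, 2)], [(1, 0), (2, 0), (2, 4), (2, 5)], [(0, 5)], [7], [(3, 0, [1, 5, 6]), (7, 5,
      [0])]⟩,
    ⟨[(1, 2), (2, 3)], [(0, 1), (2, 0), (2, 1), (2, 4), (2, 5), (2, 6), (3, 0), (3, 1), (3,
      5), (3, 6)], [(1, 5), (1, 6), (5, 6)], [], [(1, 1, [0, 4]), (7, 5, [0]), (8, 6, [0])]⟩,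
    ⟨[(1, 2), (2, 3), (2, 4), (3, 4)], [(0, 1), (2, 0), (2, 1), (2, 4), (4, 1), (4, 4), (4,
      5), (4, 6)], [(1, 4)], [8], [(1, 1, [0, 4]), (5, 4, [1])]⟩]
  Ta := [((3, 2), 0, 3), ((3, 6), 0, 7), ((4, 0), 0, 2), ((4, 5), 0, 4)]
  Tb := [((0, 1, 4), 2, 1, 0), ((1, 0, 2), 1, 2, 3), ((1, 0, 8), 1, 2, 6), ((1, 0, 9), 1, 2, 8),
    ((1, 2, 8), 1, 3, 6), ((1, 2, 9), 1, 3, 8), ((1, 8, 9), 1, 6, 8), ((2, 1, 3), 3, 1, 0),
    ((3, 2, 6), 0, 3, 7), ((4, 0, 5), 0, 2, 4), ((5, 4, 9), 4, 0, 8), ((6, 3, 7), 7, 0, 5),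
    ((7, 6, 8), 5, 7, 6), ((8, 1, 7), 6, 1, 5), ((9, 1, 5), 8, 1, 4)]
  Tc := [(0, 1, 5), (0, 1, 6), (0, 5, 6), (1, 0, 4)]
  Td := [((0, 1), (3, 2), 3), ((0, 1), (3, 6), 7), ((0, 1), (4, 0), 2), ((0, 1), (4, 5), 4), ((0,
    5), (3, 2), 3), ((0, 5), (3, 6), 7), ((0, 5), (4, 0), 2), ((0, 5), (4, 5), 4), ((0, 6),
    (3, 2), 3), ((0, 6), (3, 6), 7), ((0, 6), (4, 0), 2), ((0, 6), (4, 5), 4), ((1, 0), (1,
    0), 2), ((1, 0), (1, 2), 3), ((1, 0), (1, 8), 6), ((1, 0), (1, 9), 8), ((1, 4), (1, 0),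
    2), ((1, 4), (1, 2), 3), ((1, 4), (1, 8), 6), ((1, 4), (1, 9), 8), ((2, 3), (0, 1), 1),
    ((2, 3), (0, 4), 0), ((3, 2), (2, 1), 1), ((3, 2), (2, 3), 0), ((4, 1), (5, 4), 0), ((4,
    1), (5, 9), 8), ((5, 0), (7, 6), 7), ((5, 0), (7, 8), 6), ((6, 0), (8, 1), 1), ((6, 0),
    (8, 7), 5)]
  G := [[0, 0x111e1111e168111e1111e1a4c, 0, 0x1d91d511dde281d91d511dde24c,
    0x5121d91d5119de68c1119d6c1115da199155ce29], [0, 0x111e1111e168111e1111e1a4c,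
    0x512d1d191e68921d1d1d1ea4c, 0x1d91d511dde21d911dd1d518f2c1,
    0x1d91d511dde2c1916c151a119d115d11cdea1]]

noncomputable def n1417 : Ent := ⟨e1417, noF, [], [], []⟩

def c1417 : PLift (Cov.check n1417.C.D v1417 = true) := ⟨by decide +kernel⟩

def b1417 : PLift (entF (fidx ts) 400 1417 n1417 = true) := ⟨by decide +kernel⟩

theorem g1417 : GoodF (fidx ts) 400 1417 := GoodF.ofV v1417 n1417 c1417.down b1417.down

/-- 467565:1131/3 -/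
noncomputable def e1418 : SCfg where
  D := {
    a := 6
    L := 10
    kp := 8
    inn := [(0, 1), (1, 0), (1, 2), (2, 1), (2, 3), (2, 4), (2, 5), (3, 2), (3, 4), (4, 2), (4, 3), (4,
      5), (5, 2), (5, 4)]
    mix := [(0, 0), (0, 1), (0, 2), (1, 0), (1, 2), (1, 3), (1, 4), (2, 3), (2, 4), (2, 5), (3, 3), (3,
      6), (3, 7), (4, 7), (4, 8), (4, 9), (5, 1), (5, 5), (5, 9)]
    cl := [1, 3, 2, 0, 0, 6, 8, 4, 7, 5]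
    chq := [(0, 3), (0, 4), (0, 5), (0, 7), (1, 2), (2, 1), (3, 0), (4, 0), (5, 0), (7, 0)]
    rng := [(0, 1), (0, 4), (1, 0), (1, 2), (1, 5), (1, 9), (2, 1), (2, 3), (3, 2), (3, 6), (4, 0), (4,
      5), (5, 1), (5, 4), (6, 3), (6, 7), (7, 6), (7, 8), (8, 7), (8, 9), (9, 1), (9, 8)]
    lev := [] }
  links := [[1, 6, 7, 8], [6, 0, 8, 9, 2, 10], [10, 1, 9, 3, 4, 5, 11], [4, 2, 9, 12, 13], [5, 2, 3, 13,
    14, 15], [11, 2, 4, 15, 7]]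
  P := {
    a := 6
    N := 16
    nb := [450, 1861, 3642, 12820, 57388, 34964, 1155, 35169, 643, 4366, 2118, 1188, 8712, 20504,
      40976, 16560]
    tri := [(0, 1, 6), (0, 1, 8), (0, 6, 7), (0, 7, 8), (1, 2, 9), (1, 2, 10), (1, 6, 10), (1, 8, 9),
      (2, 3, 4), (2, 3, 9), (2, 4, 5), (2, 5, 11), (2, 10, 11), (3, 4, 13), (3, 9, 12), (3, 12,
      13), (4, 5, 15), (4, 13, 14), (4, 14, 15), (5, 7, 11), (5, 7, 15)]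
    fin := [0, 0, 2, 2, 2, 5, 0, 5, 8, 2, 2, 11, 12, 13, 14, 15]
    chd := [(0, 8), (2, 13), (2, 14), (2, 15), (5, 2)]
    steps := [(0, 1), (0, 6), (2, 3), (2, 4), (2, 9), (2, 10), (5, 7)] }
  rep := [2, 0, 8, 5, 13, 15, 11, 14, 12]

noncomputable def v1418 : Cov.CovD where
  P := 3
  N := 6
  pl := [5, 6]
  lev := [⟨[], [], [(1, 2), (1, 3), (2, 3)], [], [(0, 1, [2]), (1, 3, [0]), (2, 2, [1])]⟩,
    ⟨[], [(0, 0), (0, 1), (0, 2), (0, 3)], [(0, 0), (0, 1), (0, 2), (1, 2)], [], [(0, 1,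
      [2]), (2, 2, [1]), (3, 0, [3, 4, 5, 7]), (4, 0, [3, 4, 5, 7])]⟩,
    ⟨[(0, 1)], [(1, 0), (1, 1), (1, 2)], [(0, 0)], [6], [(3, 0, [3, 4, 5, 7]), (4, 0, [3,
      4, 5, 7])]⟩,
    ⟨[(1, 2)], [(1, 0), (2, 0), (2, 4)], [(0, 4)], [8], [(3, 0, [3, 4, 5, 7]), (7, 4,
      [0])]⟩,
    ⟨[(1, 2), (2, 3)], [(2, 0), (2, 4), (2, 5), (2, 7), (3, 0), (3, 4), (3, 5), (3, 7)],
      [(4, 5), (4, 7), (5, 7)], [], [(7, 4, [0]), (8, 7, [0]), (9, 5, [0])]⟩,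
    ⟨[(1, 2), (2, 3), (2, 4), (3, 4)], [(0, 3), (2, 0), (2, 3), (2, 5), (4, 3), (4, 4), (4,
      5), (4, 7)], [(3, 5)], [6], [(1, 3, [0]), (9, 5, [0])]⟩]
  Ta := [((3, 2), 0, 2), ((3, 6), 0, 8), ((4, 0), 0, 1), ((4, 5), 0, 6)]
  Tb := [((0, 1, 4), 1, 3, 0), ((1, 0, 2), 3, 1, 2), ((1, 0, 5), 3, 1, 6), ((1, 0, 9), 3, 1, 5),
    ((1, 2, 5), 3, 2, 6), ((1, 2, 9), 3, 2, 5), ((1, 5, 9), 3, 6, 5), ((2, 1, 3), 2, 3, 0),
    ((3, 2, 6), 0, 2, 8), ((4, 0, 5), 0, 1, 6), ((5, 1, 4), 6, 3, 0), ((6, 3, 7), 8, 0, 4),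
    ((7, 6, 8), 4, 8, 7), ((8, 7, 9), 7, 4, 5), ((9, 1, 8), 5, 3, 7)]
  Tc := [(0, 3, 4), (0, 3, 5), (0, 3, 7), (0, 4, 5), (0, 4, 7), (0, 5, 7)]
  Td := [((0, 3), (3, 2), 2), ((0, 3), (3, 6), 8), ((0, 3), (4, 0), 1), ((0, 3), (4, 5), 6), ((0,
    4), (3, 2), 2), ((0, 4), (3, 6), 8), ((0, 4), (4, 0), 1), ((0, 4), (4, 5), 6), ((0, 5),
    (3, 2), 2), ((0, 5), (3, 6), 8), ((0, 5), (4, 0), 1), ((0, 5), (4, 5), 6), ((0, 7), (3,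
    2), 2), ((0, 7), (3, 6), 8), ((0, 7), (4, 0), 1), ((0, 7), (4, 5), 6), ((1, 2), (0, 1),
    3), ((1, 2), (0, 4), 0), ((2, 1), (2, 1), 3), ((2, 1), (2, 3), 0), ((3, 0), (1, 0), 1),
    ((3, 0), (1, 2), 2), ((3, 0), (1, 5), 6), ((3, 0), (1, 9), 5), ((4, 0), (7, 6), 8), ((4,
    0), (7, 8), 7), ((5, 0), (9, 1), 3), ((5, 0), (9, 8), 7), ((7, 0), (8, 7), 4), ((7, 0),
    (8, 9), 5)]
  G := [[0, 0, 0x111111e111111ea4112111111e1111ce8c, 0x1157316111df1891f3e1b91f5118dee81,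
    0x411127611dd119bf1116f111bf1f5199ee81], [0, 0x111111e111111ea4111111e111111ea4c, 0,
    0x513161d5118b111ef111ef1b91f5119dee81, 0x11572161d918911f7116f11b71f9199111efe81]]

noncomputable def n1418 : Ent := ⟨e1418, noF, [], [], []⟩

def c1418 : PLift (Cov.check n1418.C.D v1418 = true) := ⟨by decide +kernel⟩

def b1418 : PLift (entF (fidx ts) 400 1418 n1418 = true) := ⟨by decide +kernel⟩

theorem g1418 : GoodF (fidx ts) 400 1418 := GoodF.ofV v1418 n1418 c1418.down b1418.down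

/-- 467565:1131 -/
noncomputable def e1419 : SCfg where
  D := {
    a := 6
    L := 11
    kp := 9
    inn := [(0, 1), (1, 0), (1, 2), (2, 1), (2, 3), (2, 4), (2, 5), (3, 2), (3, 4), (4, 2), (4, 3), (4,
      5), (5, 2), (5, 4)]
    mix := [(0, 0), (0, 1), (0, 2), (1, 0), (1, 2), (1, 3), (1, 4), (2, 3), (2, 4), (2, 5), (3, 3), (3,
      6), (3, 7), (4, 7), (4, 8), (4, 9), (5, 5), (5, 9), (5, 10)]
    cl := [2, 8, 4, 0, 0, 1, 6, 3, 9, 5, 7]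
    chq := [(1, 3), (1, 6), (2, 4), (3, 1), (3, 5), (3, 7), (4, 2), (5, 3), (6, 1), (7, 3)]
    rng := [(0, 1), (0, 4), (1, 0), (1, 2), (2, 1), (2, 3), (3, 2), (3, 6), (4, 0), (4, 5), (5, 4), (5,
      10), (6, 3), (6, 7), (7, 6), (7, 8), (8, 7), (8, 9), (9, 8), (9, 10), (10, 5), (10, 9)]
    lev := [] }
  links := [[1, 6, 7, 8], [6, 0, 8, 9, 2, 10], [10, 1, 9, 3, 4, 5, 11], [4, 2, 9, 12, 13], [5, 2, 3, 13,
    14, 15], [11, 2, 4, 15, 16]]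
  P := {
    a := 6
    N := 17
    nb := [450, 1861, 3642, 12820, 57388, 100372, 1155, 321, 643, 4366, 2118, 66596, 8712, 20504,
      40976, 81968, 34848]
    tri := [(0, 1, 6), (0, 1, 8), (0, 6, 7), (0, 7, 8), (1, 2, 9), (1, 2, 10), (1, 6, 10), (1, 8, 9),
      (2, 3, 4), (2, 3, 9), (2, 4, 5), (2, 5, 11), (2, 10, 11), (3, 4, 13), (3, 9, 12), (3, 12,
      13), (4, 5, 15), (4, 13, 14), (4, 14, 15), (5, 11, 16), (5, 15, 16)]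
    fin := [0, 1, 2, 2, 4, 4, 0, 7, 8, 1, 1, 11, 2, 4, 14, 15, 16]
    chd := [(0, 8), (4, 15), (4, 16), (11, 2), (11, 4)]
    steps := [(0, 6), (1, 9), (1, 10), (2, 3), (2, 12), (4, 5), (4, 13)] }
  rep := [1, 11, 0, 4, 8, 15, 2, 16, 7, 14]

noncomputable def v1419 : Cov.CovD where
  P := 3
  N := 7
  pl := [1, 8]
  lev := [⟨[], [], [(2, 4)], [8], [(0, 2, [4]), (2, 4, [2])]⟩,
    ⟨[], [(0, 0), (0, 2), (0, 4)], [(0, 0), (0, 2), (0, 4), (2, 4)], [], [(0, 2, [4]), (2,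
      4, [2]), (3, 0, []), (4, 0, [])]⟩,
    ⟨[(0, 1)], [(1, 0), (1, 1), (1, 2), (1, 4)], [(0, 0), (0, 1)], [], [(3, 0, []), (4, 0,
      []), (5, 1, [3, 6])]⟩,
    ⟨[(1, 2)], [(1, 0), (2, 0), (2, 1), (2, 3), (2, 6)], [(0, 3), (0, 6), (3, 6)], [], [(3,
      0, []), (6, 6, [1]), (7, 3, [1, 5, 7])]⟩,
    ⟨[(1, 2), (2, 3)], [(2, 0), (2, 1), (2, 3), (2, 5), (3, 0), (3, 3), (3, 5), (3, 6)],
      [(3, 5)], [9], [(7, 3, [1, 5, 7]), (9, 5, [3])]⟩,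
    ⟨[(1, 2), (2, 3), (2, 4), (3, 4)], [(2, 0), (2, 1), (2, 5), (2, 7), (4, 1), (4, 3), (4,
      5), (4, 7)], [(1, 5), (1, 7), (5, 7)], [], [(5, 1, [3, 6]), (9, 5, [3]), (10, 7, [3])]⟩]
  Ta := [((3, 2), 0, 4), ((3, 6), 0, 6), ((4, 0), 0, 2), ((4, 5), 0, 1)]
  Tb := [((0, 1, 4), 2, 8, 0), ((1, 0, 2), 8, 2, 4), ((2, 1, 3), 4, 8, 0), ((3, 2, 6), 0, 4, 6),
    ((4, 0, 5), 0, 2, 1), ((5, 4, 10), 1, 0, 7), ((6, 3, 7), 6, 0, 3), ((7, 6, 8), 3, 6, 9),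
    ((8, 7, 9), 9, 3, 5), ((9, 8, 10), 5, 9, 7), ((10, 5, 9), 7, 1, 5)]
  Tc := [(1, 3, 6), (3, 1, 5), (3, 1, 7), (3, 5, 7)]
  Td := [((1, 3), (5, 4), 0), ((1, 3), (5, 10), 7), ((1, 6), (5, 4), 0), ((1, 6), (5, 10), 7),
    ((2, 4), (0, 1), 8), ((2, 4), (0, 4), 0), ((3, 1), (7, 6), 6), ((3, 1), (7, 8), 9), ((3,
    5), (7, 6), 6), ((3, 5), (7, 8), 9), ((3, 7), (7, 6), 6), ((3, 7), (7, 8), 9), ((4, 2),
    (2, 1), 8), ((4, 2), (2, 3), 0), ((5, 3), (9, 8), 9), ((5, 3), (9, 10), 7), ((6, 1), (6,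
    3), 0), ((6, 1), (6, 7), 3), ((7, 3), (10, 5), 1), ((7, 3), (10, 9), 5)]
  G := [[0, 0, 0, 0xd282dbddfe4842d27dddfe84d282dbddfe452c24dd4fe9992ccd,
    0xd282dbddfe4852882dbddf6c2d282dbddfe442d27dddfe8ab], [0,
    0x61a1cc1eece368e1e1c1eecef24e1a1e1eaeef461e1e16eeef8cd,
    0x12d91dfc2b48125d1dfc278412d91dfd2742e,
    0x12d91dfc2b48125d1dfc278412d91dfc2b4125d1dfc278cd,
    0x12d91dfc2b4812d91dfc2b4212d91dfc2b4125dca1c3d23cab]]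

noncomputable def n1419 : Ent := ⟨e1419, noF, [], [], [(7, 14, [1685382413448253767852309107433119732572617628602273068445370712065, 0]), (7, 15, [1685356702439545624007900436039642273970977273354372543760005894145, 0]), (7, 16, [1580044410770988437309982408355971841652082177953823432505694920705, 0])]⟩

def c1419 : PLift (Cov.check n1419.C.D v1419 = true) := ⟨by decide +kernel⟩

def b1419 : PLift (entF (fidx ts) 400 1419 n1419 = true) := ⟨by decide +kernel⟩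

theorem g1419 : GoodF (fidx ts) 400 1419 := GoodF.ofV v1419 n1419 c1419.down b1419.down

/-- 456865:1132 -/
noncomputable def e1420 : SCfg where
  D := {
    a := 6
    L := 11
    kp := 9
    inn := [(0, 1), (1, 0), (1, 2), (1, 3), (2, 1), (2, 3), (2, 4), (3, 1), (3, 2), (3, 4), (3, 5), (4,
      2), (4, 3), (4, 5), (5, 3), (5, 4)]
    mix := [(0, 0), (0, 1), (0, 2), (1, 0), (1, 2), (2, 2), (2, 3), (2, 4), (3, 0), (3, 5), (3, 6), (3,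
      7), (4, 4), (4, 8), (4, 9), (5, 5), (5, 9), (5, 10)]
    cl := [0, 6, 1, 4, 2, 0, 7, 8, 9, 3, 5]
    chq := [(0, 1), (0, 2), (0, 4), (1, 0), (2, 0), (2, 3), (2, 5), (3, 2), (4, 0), (5, 2)]
    rng := [(0, 1), (0, 7), (1, 0), (1, 2), (2, 1), (2, 3), (3, 2), (3, 4), (4, 3), (4, 8), (5, 6), (5,
      10), (6, 5), (6, 7), (7, 0), (7, 6), (8, 4), (8, 9), (9, 8), (9, 10), (10, 5), (10, 9)]
    lev := [] }
  links := [[1, 6, 7, 8], [6, 0, 8, 2, 3], [3, 1, 8, 9, 10, 4], [6, 1, 2, 4, 5, 11, 12, 13], [5, 3, 2,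
    10, 14, 15], [11, 3, 4, 15, 16]]
  P := {
    a := 6
    N := 17
    nb := [450, 333, 1818, 14454, 50220, 100376, 8331, 321, 647, 1284, 16916, 69672, 10248, 4168,
      33808, 81968, 34848]
    tri := [(0, 1, 6), (0, 1, 8), (0, 6, 7), (0, 7, 8), (1, 2, 3), (1, 2, 8), (1, 3, 6), (2, 3, 4), (2,
      4, 10), (2, 8, 9), (2, 9, 10), (3, 4, 5), (3, 5, 11), (3, 6, 13), (3, 11, 12), (3, 12, 13),
      (4, 5, 15), (4, 10, 14), (4, 14, 15), (5, 11, 16), (5, 15, 16)]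
    fin := [0, 0, 0, 0, 4, 4, 0, 7, 8, 9, 4, 0, 12, 13, 14, 15, 16]
    chd := [(0, 4), (0, 8), (0, 9), (4, 15), (4, 16)]
    steps := [(0, 1), (0, 2), (0, 3), (0, 6), (0, 11), (4, 5), (4, 10)] }
  rep := [0, 8, 4, 15, 9, 16, 7, 12, 13, 14]

noncomputable def v1420 : Cov.CovD where
  P := 3
  N := 7
  pl := [1, 6, 7, 8]
  lev := [⟨[], [], [(0, 1)], [6], [(0, 0, [1, 2, 4]), (2, 1, [0])]⟩,
    ⟨[], [(0, 0), (0, 1)], [(0, 1)], [], [(0, 0, [1, 2, 4]), (2, 1, [0])]⟩,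
    ⟨[(0, 1)], [(0, 1), (1, 0), (1, 1), (1, 2), (1, 4)], [(1, 2), (1, 4), (2, 4)], [], [(2,
      1, [0]), (3, 4, [0]), (4, 2, [0, 3, 5])]⟩,
    ⟨[(0, 1), (1, 2)], [(0, 0), (1, 0), (1, 1), (2, 0), (2, 1), (2, 2), (2, 4)], [(0, 0)],
      [7, 8], [(0, 0, [1, 2, 4]), (5, 0, [1, 2, 4])]⟩,
    ⟨[(1, 2), (1, 3), (2, 3)], [(2, 1), (2, 2), (2, 3), (2, 4), (3, 0), (3, 2), (3, 3)],
      [(2, 3)], [9], [(4, 2, [0, 3, 5]), (9, 3, [2])]⟩,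
    ⟨[(1, 3), (2, 3), (2, 4), (3, 4)], [(3, 0), (3, 3), (3, 5), (4, 0), (4, 2), (4, 3), (4,
      5)], [(0, 3), (0, 5), (3, 5)], [], [(5, 0, [1, 2, 4]), (9, 3, [2]), (10, 5, [2])]⟩]
  Ta := [((0, 1), 0, 6), ((0, 7), 0, 8), ((5, 6), 0, 7), ((5, 10), 0, 5)]
  Tb := [((0, 1, 7), 0, 6, 8), ((1, 0, 2), 6, 0, 1), ((2, 1, 3), 1, 6, 4), ((3, 2, 4), 4, 1, 2),
    ((4, 3, 8), 2, 4, 9), ((5, 6, 10), 0, 7, 5), ((6, 5, 7), 7, 0, 8), ((7, 0, 6), 8, 0, 7),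
    ((8, 4, 9), 9, 2, 3), ((9, 8, 10), 3, 9, 5), ((10, 5, 9), 5, 0, 3)]
  Tc := [(0, 1, 2), (0, 1, 4), (0, 2, 4), (2, 0, 3), (2, 0, 5), (2, 3, 5)]
  Td := [((0, 1), (0, 1), 6), ((0, 1), (0, 7), 8), ((0, 1), (5, 6), 7), ((0, 1), (5, 10), 5),
    ((0, 2), (0, 1), 6), ((0, 2), (0, 7), 8), ((0, 2), (5, 6), 7), ((0, 2), (5, 10), 5), ((0,
    4), (0, 1), 6), ((0, 4), (0, 7), 8), ((0, 4), (5, 6), 7), ((0, 4), (5, 10), 5), ((1, 0),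
    (2, 1), 6), ((1, 0), (2, 3), 4), ((2, 0), (4, 3), 4), ((2, 0), (4, 8), 9), ((2, 3), (4,
    3), 4), ((2, 3), (4, 8), 9), ((2, 5), (4, 3), 4), ((2, 5), (4, 8), 9), ((3, 2), (9, 8),
    9), ((3, 2), (9, 10), 5), ((4, 0), (3, 2), 1), ((4, 0), (3, 4), 2), ((5, 2), (10, 5), 0),
    ((5, 2), (10, 9), 3)]
  G := [[0, 0x2142121e1e22ca6c6d21e1a22c89c21e162121e1e22ca6c6d21822c89c6,
    0x14111e61111e11ac1c1, 0x2441222d229a6ede1c21222d7dede122c81c2121e1e48d,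
    0xc6eb41444b444ba1c42c6eb444be144981ce141684188cd], [0,
    0x2122121e1e22c76c6d2121c1e22c89a2121e1e24452121e1e22c28adce9c6, 0x111e41111e111ea1c1,
    0x24412121e1e222d229a6ede9c1, 0xe1416c6eb444b69418444b89c1]]

noncomputable def n1420 : Ent := ⟨e1420, noF, [], [], []⟩

def c1420 : PLift (Cov.check n1420.C.D v1420 = true) := ⟨by decide +kernel⟩

def b1420 : PLift (entF (fidx ts) 400 1420 n1420 = true) := ⟨by decide +kernel⟩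

theorem g1420 : GoodF (fidx ts) 400 1420 := GoodF.ofV v1420 n1420 c1420.down b1420.down

/-- 467544:1136/2 -/
noncomputable def e1421 : SCfg where
  D := {
    a := 6
    L := 8
    kp := 5
    inn := [(0, 1), (1, 0), (1, 2), (2, 1), (2, 3), (2, 4), (3, 2), (3, 5), (4, 2), (5, 3)]
    mix := [(0, 0), (0, 1), (0, 2), (1, 0), (1, 2), (1, 3), (1, 4), (2, 3), (2, 4), (2, 5), (2, 6), (3,
      1), (3, 3), (3, 5), (4, 5), (4, 6), (4, 7), (5, 1), (5, 2), (5, 3)]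
    cl := [2, 3, 1, 0, 1, 0, 4, 5]
    chq := [(0, 4), (4, 0)]
    rng := [(0, 1), (0, 4), (1, 0), (1, 2), (1, 5), (2, 1), (2, 3), (3, 2), (4, 0), (4, 6), (5, 1), (5,
      7), (6, 4), (6, 7), (7, 5), (7, 6)]
    lev := [] }
  links := [[1, 6, 7, 8], [6, 0, 8, 9, 2, 10], [10, 1, 9, 3, 11, 4, 12], [11, 2, 9, 5, 7], [12, 2, 11,
    13], [7, 3, 9, 8]]
  P := {
    a := 6
    N := 14
    nb := [450, 1861, 7706, 2724, 14340, 904, 1155, 2409, 675, 302, 4166, 8348, 9236, 6160]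
    tri := [(0, 1, 6), (0, 1, 8), (0, 6, 7), (0, 7, 8), (1, 2, 9), (1, 2, 10), (1, 6, 10), (1, 8, 9),
      (2, 3, 9), (2, 3, 11), (2, 4, 11), (2, 4, 12), (2, 10, 12), (3, 5, 7), (3, 5, 9), (3, 7,
      11), (4, 11, 13), (4, 12, 13), (5, 7, 8), (5, 8, 9)]
    fin := [0, 1, 1, 3, 3, 5, 0, 5, 1, 3, 1, 3, 12, 13]
    chd := [(3, 12)]
    steps := [(0, 6), (1, 2), (1, 8), (1, 10), (3, 9), (3, 11), (3, 4), (5, 7)] }
  rep := [3, 1, 0, 5, 12, 13]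

noncomputable def v1421 : Cov.CovD where
  P := 3
  N := 3
  pl := [0, 1, 7]
  lev := [⟨[], [], [], [2, 3], [(2, 1, [])]⟩,
    ⟨[], [(0, 0), (0, 1)], [(0, 1), (1, 1)], [2], [(2, 1, []), (3, 0, [4]), (4, 1, [])]⟩,
    ⟨[(0, 1)], [(1, 0), (1, 1), (1, 4)], [(0, 0), (0, 1), (0, 4), (1, 4)], [], [(3, 0,
      [4]), (4, 1, []), (5, 0, [4]), (6, 4, [0])]⟩,
    ⟨[(1, 2)], [(1, 0), (2, 0), (2, 1), (2, 4)], [(0, 0)], [3], [(3, 0, [4]), (5, 0, [4])]⟩,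
    ⟨[(1, 2), (2, 3)], [(2, 0), (2, 1), (2, 4), (3, 0)], [(0, 4)], [5], [(5, 0, [4]), (6,
      4, [0])]⟩,
    ⟨[(2, 3)], [(0, 1), (1, 0), (1, 1), (2, 0), (3, 0), (3, 1)], [(0, 1)], [3], [(2, 1,
      []), (3, 0, [4])]⟩]
  Ta := [((2, 1), 1, 3), ((2, 3), 1, 0), ((3, 2), 0, 1), ((4, 0), 1, 2), ((4, 6), 1, 4), ((5, 1),
    0, 3), ((5, 7), 0, 5)]
  Tb := [((0, 1, 4), 2, 3, 1), ((1, 0, 2), 3, 2, 1), ((1, 0, 5), 3, 2, 0), ((1, 2, 5), 3, 1, 0),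
    ((2, 1, 3), 1, 3, 0), ((4, 0, 6), 1, 2, 4), ((5, 1, 7), 0, 3, 5), ((6, 4, 7), 4, 1, 5),
    ((7, 5, 6), 5, 0, 4)]
  Tc := []
  Td := [((0, 4), (3, 2), 1), ((0, 4), (5, 1), 3), ((0, 4), (5, 7), 5), ((4, 0), (6, 4), 1), ((4,
    0), (6, 7), 5)]
  G := [[0, 0x81881268214414a4c, 0x188d824414d428c, 0, 0x1464118d41ca81], [0, 0, 0x11c72c12c82,
    0xcca2c12c41, 0xc12cc62c81], [0, 0, 0x12882288c8e442212444c4e8c, 0,
    0x886888868228912412411c4e89], [0, 0, 0x1162411a28c2, 0x44a24462c11162411a28c5,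
    0x488ca6844c6ac12]]

noncomputable def n1421 : Ent := ⟨e1421, noF, [], [], []⟩

def c1421 : PLift (Cov.check n1421.C.D v1421 = true) := ⟨by decide +kernel⟩

def b1421 : PLift (entF (fidx ts) 400 1421 n1421 = true) := ⟨by decide +kernel⟩

theorem g1421 : GoodF (fidx ts) 400 1421 := GoodF.ofV v1421 n1421 c1421.down b1421.down

/-- 467544:1136/1 -/
noncomputable def e1422 : SCfg where
  D := {
    a := 6
    L := 9
    kp := 6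
    inn := [(0, 1), (1, 0), (1, 2), (2, 1), (2, 3), (2, 4), (3, 2), (3, 5), (4, 2), (5, 3)]
    mix := [(0, 0), (0, 1), (0, 2), (1, 0), (1, 2), (1, 3), (1, 4), (2, 3), (2, 4), (2, 5), (2, 6), (3,
      1), (3, 3), (3, 5), (4, 5), (4, 6), (4, 7), (5, 1), (5, 3), (5, 8)]
    cl := [2, 3, 1, 0, 1, 0, 4, 5, 6]
    chq := [(0, 4), (4, 0)]
    rng := [(0, 1), (0, 4), (1, 0), (1, 2), (1, 5), (1, 8), (2, 1), (2, 3), (3, 2), (3, 8), (4, 0), (4,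
      6), (5, 1), (5, 7), (6, 4), (6, 7), (7, 5), (7, 6), (8, 1), (8, 3)]
    lev := [] }
  links := [[1, 6, 7, 8], [6, 0, 8, 9, 2, 10], [10, 1, 9, 3, 11, 4, 12], [11, 2, 9, 5, 7], [12, 2, 11,
    13], [7, 3, 9, 14]]
  P := {
    a := 6
    N := 15
    nb := [450, 1861, 7706, 2724, 14340, 17032, 1155, 18793, 643, 16686, 4166, 8348, 9236, 6160, 672]
    tri := [(0, 1, 6), (0, 1, 8), (0, 6, 7), (0, 7, 8), (1, 2, 9), (1, 2, 10), (1, 6, 10), (1, 8, 9),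
      (2, 3, 9), (2, 3, 11), (2, 4, 11), (2, 4, 12), (2, 10, 12), (3, 5, 7), (3, 5, 9), (3, 7,
      11), (4, 11, 13), (4, 12, 13), (5, 7, 14), (5, 9, 14)]
    fin := [0, 1, 1, 3, 3, 5, 0, 5, 1, 3, 1, 3, 12, 13, 14]
    chd := [(3, 12)]
    steps := [(0, 6), (1, 2), (1, 8), (1, 10), (3, 9), (3, 11), (3, 4), (5, 7)] }
  rep := [3, 1, 0, 5, 12, 13, 14]

noncomputable def v1422 : Cov.CovD where
  P := 3
  N := 4
  pl := [0, 1, 7, 8]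
  lev := [⟨[], [], [], [2, 3], [(2, 1, [])]⟩,
    ⟨[], [(0, 0), (0, 1)], [(0, 1), (1, 1)], [2], [(2, 1, []), (3, 0, [4]), (4, 1, [])]⟩,
    ⟨[(0, 1)], [(1, 0), (1, 1), (1, 4)], [(0, 0), (0, 1), (0, 4), (1, 4)], [], [(3, 0,
      [4]), (4, 1, []), (5, 0, [4]), (6, 4, [0])]⟩,
    ⟨[(1, 2)], [(1, 0), (2, 0), (2, 1), (2, 4)], [(0, 0)], [3], [(3, 0, [4]), (5, 0, [4])]⟩,
    ⟨[(1, 2), (2, 3)], [(2, 0), (2, 1), (2, 4), (3, 0)], [(0, 4)], [5], [(5, 0, [4]), (6,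
      4, [0])]⟩,
    ⟨[(2, 3)], [(1, 0), (2, 0), (3, 0)], [], [3, 6], [(3, 0, [4])]⟩]
  Ta := [((2, 1), 1, 3), ((2, 3), 1, 0), ((3, 2), 0, 1), ((3, 8), 0, 6), ((4, 0), 1, 2), ((4, 6),
    1, 4), ((5, 1), 0, 3), ((5, 7), 0, 5)]
  Tb := [((0, 1, 4), 2, 3, 1), ((1, 0, 2), 3, 2, 1), ((1, 0, 5), 3, 2, 0), ((1, 0, 8), 3, 2, 6),
    ((1, 2, 5), 3, 1, 0), ((1, 2, 8), 3, 1, 6), ((1, 5, 8), 3, 0, 6), ((2, 1, 3), 1, 3, 0),
    ((3, 2, 8), 0, 1, 6), ((4, 0, 6), 1, 2, 4), ((5, 1, 7), 0, 3, 5), ((6, 4, 7), 4, 1, 5),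
    ((7, 5, 6), 5, 0, 4), ((8, 1, 3), 6, 3, 0)]
  Tc := []
  Td := [((0, 4), (3, 2), 1), ((0, 4), (3, 8), 6), ((0, 4), (5, 1), 3), ((0, 4), (5, 7), 5), ((4,
    0), (6, 4), 1), ((4, 0), (6, 7), 5)]
  G := [[0, 0xa12a1868e14614a8c, 0x11ad828116d428c, 0, 0x11ad116dc281], [0, 0, 0xe12ee62c82,
    0xe12ee62c81, 0xe12ee62c81], [0, 0, 0x12812211c8e412212411c4e8c, 0,
    0xc2a86cc68c11221162184e89], [0, 0, 0x1162411a28c2, 0x6c624caa48c1162411a28c5,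
    0xd7624eea2892]]

noncomputable def n1422 : Ent := ⟨e1422, noF, [], [], [(8, 14, [81620716623019490593592230936445690773474979418095889207297, 0])]⟩

def c1422 : PLift (Cov.check n1422.C.D v1422 = true) := ⟨by decide +kernel⟩

def b1422 : PLift (entF (fidx ts) 400 1422 n1422 = true) := ⟨by decide +kernel⟩

theorem g1422 : GoodF (fidx ts) 400 1422 := GoodF.ofV v1422 n1422 c1422.down b1422.down

/-- 467544:1136/4 -/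
noncomputable def e1423 : SCfg where
  D := {
    a := 6
    L := 8
    kp := 5
    inn := [(0, 1), (1, 0), (1, 2), (2, 1), (2, 3), (2, 4), (3, 2), (3, 5), (4, 2), (5, 3)]
    mix := [(0, 0), (0, 1), (0, 2), (1, 0), (1, 2), (1, 3), (1, 4), (2, 3), (2, 4), (2, 5), (2, 6), (3,
      3), (3, 5), (3, 7), (4, 1), (4, 5), (4, 6), (5, 2), (5, 3), (5, 7)]
    cl := [0, 3, 2, 0, 1, 1, 4, 5]
    chq := [(1, 2), (2, 1)]
    rng := [(0, 1), (0, 4), (1, 0), (1, 2), (1, 5), (1, 6), (2, 1), (2, 3), (2, 7), (3, 2), (4, 0), (4,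
      6), (5, 1), (5, 7), (6, 1), (6, 4), (7, 2), (7, 5)]
    lev := [] }
  links := [[1, 6, 7, 8], [6, 0, 8, 9, 2, 10], [10, 1, 9, 3, 11, 4, 12], [11, 2, 9, 5, 13], [12, 2, 11,
    7], [13, 3, 9, 8]]
  P := {
    a := 6
    N := 14
    nb := [450, 1861, 7706, 10788, 6276, 8968, 1155, 6481, 8867, 302, 4166, 8348, 1172, 2344]
    tri := [(0, 1, 6), (0, 1, 8), (0, 6, 7), (0, 7, 8), (1, 2, 9), (1, 2, 10), (1, 6, 10), (1, 8, 9),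
      (2, 3, 9), (2, 3, 11), (2, 4, 11), (2, 4, 12), (2, 10, 12), (3, 5, 9), (3, 5, 13), (3, 11,
      13), (4, 7, 11), (4, 7, 12), (5, 8, 9), (5, 8, 13)]
    fin := [0, 0, 2, 3, 4, 3, 0, 4, 3, 0, 2, 2, 12, 13]
    chd := [(3, 2)]
    steps := [(0, 1), (0, 6), (0, 9), (2, 11), (2, 10), (3, 5), (3, 8), (4, 7)] }
  rep := [0, 2, 3, 4, 12, 13]

noncomputable def v1423 : Cov.CovD where
  P := 3
  N := 3
  pl := [1, 6, 7]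
  lev := [⟨[], [], [(0, 2)], [3], [(0, 0, []), (2, 2, [1])]⟩,
    ⟨[], [(0, 0), (0, 1), (0, 2)], [(0, 0), (0, 1), (0, 2), (1, 2)], [], [(0, 0, []), (2,
      2, [1]), (3, 0, []), (4, 1, [2])]⟩,
    ⟨[(0, 1)], [(1, 0), (1, 1), (1, 2)], [(0, 1), (1, 1)], [4], [(3, 0, []), (4, 1, [2]),
      (5, 1, [2])]⟩,
    ⟨[(1, 2)], [(1, 0), (2, 0), (2, 1)], [(0, 1)], [5], [(3, 0, []), (5, 1, [2])]⟩,
    ⟨[(1, 2), (2, 3)], [(2, 0), (2, 1), (3, 1)], [], [3, 4], [(5, 1, [2])]⟩,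
    ⟨[(2, 3)], [(0, 2), (1, 0), (1, 2), (2, 0), (3, 0), (3, 1), (3, 2)], [(0, 2)], [5],
      [(2, 2, [1]), (3, 0, [])]⟩]
  Ta := [((0, 1), 0, 3), ((0, 4), 0, 1), ((3, 2), 0, 2), ((4, 0), 1, 0), ((4, 6), 1, 4), ((5, 1),
    1, 3), ((5, 7), 1, 5)]
  Tb := [((0, 1, 4), 0, 3, 1), ((1, 0, 2), 3, 0, 2), ((1, 0, 5), 3, 0, 1), ((1, 0, 6), 3, 0, 4),
    ((1, 2, 5), 3, 2, 1), ((1, 2, 6), 3, 2, 4), ((1, 5, 6), 3, 1, 4), ((2, 1, 3), 2, 3, 0),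
    ((2, 1, 7), 2, 3, 5), ((2, 3, 7), 2, 0, 5), ((4, 0, 6), 1, 0, 4), ((5, 1, 7), 1, 3, 5),
    ((6, 1, 4), 4, 3, 1), ((7, 2, 5), 5, 2, 1)]
  Tc := []
  Td := [((1, 2), (4, 0), 0), ((1, 2), (4, 6), 4), ((1, 2), (5, 1), 3), ((1, 2), (5, 7), 5), ((2,
    1), (2, 1), 3), ((2, 1), (2, 3), 0), ((2, 1), (2, 7), 5)]
  G := [[0, 0x114818112e4112114818e8c, 0, 0x1242c8242c942, 0x289468222c582], [0, 0, 0,
    0x824298242c542, 0x2888584219c221815885249c8a], [0, 0, 0x2222cc12c42, 0x2222cc12c41,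
    0x2281621846c82], [0, 0, 0x21445c8421cc288921c42148c8c6, 0xc128222cc81,
    0x21a2adc84a1cc21]]

noncomputable def n1423 : Ent := ⟨e1423, noF, [], [], []⟩

def c1423 : PLift (Cov.check n1423.C.D v1423 = true) := ⟨by decide +kernel⟩

def b1423 : PLift (entF (fidx ts) 400 1423 n1423 = true) := ⟨by decide +kernel⟩

theorem g1423 : GoodF (fidx ts) 400 1423 := GoodF.ofV v1423 n1423 c1423.down b1423.down

/-- 467544:1136/3 -/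
noncomputable def e1424 : SCfg where
  D := {
    a := 6
    L := 9
    kp := 6
    inn := [(0, 1), (1, 0), (1, 2), (2, 1), (2, 3), (2, 4), (3, 2), (3, 5), (4, 2), (5, 3)]
    mix := [(0, 0), (0, 1), (0, 2), (1, 0), (1, 2), (1, 3), (1, 4), (2, 3), (2, 4), (2, 5), (2, 6), (3,
      3), (3, 5), (3, 7), (4, 1), (4, 5), (4, 6), (5, 3), (5, 7), (5, 8)]
    cl := [2, 4, 1, 0, 1, 0, 3, 5, 6]
    chq := [(0, 3), (3, 0)]
    rng := [(0, 1), (0, 4), (1, 0), (1, 2), (1, 5), (1, 6), (2, 1), (2, 3), (3, 2), (3, 8), (4, 0), (4,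
      6), (5, 1), (5, 7), (6, 1), (6, 4), (7, 5), (7, 8), (8, 3), (8, 7)]
    lev := [] }
  links := [[1, 6, 7, 8], [6, 0, 8, 9, 2, 10], [10, 1, 9, 3, 11, 4, 12], [11, 2, 9, 5, 13], [12, 2, 11,
    7], [13, 3, 9, 14]]
  P := {
    a := 6
    N := 15
    nb := [450, 1861, 7706, 10788, 6276, 25096, 1155, 6481, 643, 16686, 4166, 8348, 1172, 18472, 8736]
    tri := [(0, 1, 6), (0, 1, 8), (0, 6, 7), (0, 7, 8), (1, 2, 9), (1, 2, 10), (1, 6, 10), (1, 8, 9),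
      (2, 3, 9), (2, 3, 11), (2, 4, 11), (2, 4, 12), (2, 10, 12), (3, 5, 9), (3, 5, 13), (3, 11,
      13), (4, 7, 11), (4, 7, 12), (5, 9, 14), (5, 13, 14)]
    fin := [0, 1, 1, 3, 3, 3, 0, 7, 1, 3, 1, 3, 12, 13, 14]
    chd := [(3, 12)]
    steps := [(0, 6), (1, 2), (1, 8), (1, 10), (3, 5), (3, 9), (3, 11), (3, 4)] }
  rep := [3, 1, 0, 12, 7, 13, 14]

noncomputable def v1424 : Cov.CovD where
  P := 3
  N := 4
  pl := [0, 1, 7, 8]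
  lev := [⟨[], [], [], [2, 4], [(2, 1, [])]⟩,
    ⟨[], [(0, 0), (0, 1)], [(0, 1), (1, 1)], [2], [(2, 1, []), (3, 0, [3]), (4, 1, [])]⟩,
    ⟨[(0, 1)], [(1, 0), (1, 1), (1, 3)], [(0, 0), (0, 1), (0, 3), (1, 3)], [], [(3, 0,
      [3]), (4, 1, []), (5, 0, [3]), (6, 3, [0])]⟩,
    ⟨[(1, 2)], [(1, 0), (2, 0), (2, 1), (2, 3)], [(0, 0)], [5], [(3, 0, [3]), (5, 0, [3])]⟩,
    ⟨[(1, 2), (2, 3)], [(2, 0), (2, 1), (2, 3), (3, 0)], [(0, 3)], [4], [(5, 0, [3]), (6,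
      3, [0])]⟩,
    ⟨[(2, 3)], [(1, 0), (2, 0), (3, 0)], [], [5, 6], [(3, 0, [3])]⟩]
  Ta := [((2, 1), 1, 4), ((2, 3), 1, 0), ((3, 2), 0, 1), ((3, 8), 0, 6), ((4, 0), 1, 2), ((4, 6),
    1, 3), ((5, 1), 0, 4), ((5, 7), 0, 5)]
  Tb := [((0, 1, 4), 2, 4, 1), ((1, 0, 2), 4, 2, 1), ((1, 0, 5), 4, 2, 0), ((1, 0, 6), 4, 2, 3),
    ((1, 2, 5), 4, 1, 0), ((1, 2, 6), 4, 1, 3), ((1, 5, 6), 4, 0, 3), ((2, 1, 3), 1, 4, 0),
    ((3, 2, 8), 0, 1, 6), ((4, 0, 6), 1, 2, 3), ((5, 1, 7), 0, 4, 5), ((6, 1, 4), 3, 4, 1),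
    ((7, 5, 8), 5, 0, 6), ((8, 3, 7), 6, 0, 5)]
  Tc := []
  Td := [((0, 3), (3, 2), 1), ((0, 3), (3, 8), 6), ((0, 3), (5, 1), 4), ((0, 3), (5, 7), 5), ((3,
    0), (6, 1), 4), ((3, 0), (6, 4), 1)]
  G := [[0, 0xe12e286e848cc161aa161c68c, 0x1a9169c24aa5165c24c, 0, 0x11ad116dc281], [0, 0,
    0xc2a26c161ac42, 0xc2a26c261ac41, 0xc28636c162ac82], [0, 0, 0x1262a1868c68c21261464ac8c,
    0, 0x5ac31cc285232692326c89], [0, 0, 0x176661ea11a62ac42, 0x1218c1212ac412a261262ac89,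
    0xb2126111e666eac82]]

noncomputable def n1424 : Ent := ⟨e1424, noF, [], [], [(8, 14, [81620716623019490593592230936445690773474979418095889215489, 0])]⟩

def c1424 : PLift (Cov.check n1424.C.D v1424 = true) := ⟨by decide +kernel⟩

def b1424 : PLift (entF (fidx ts) 400 1424 n1424 = true) := ⟨by decide +kernel⟩

theorem g1424 : GoodF (fidx ts) 400 1424 := GoodF.ofV v1424 n1424 c1424.down b1424.down

/-- 467544:1136/5 -/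
noncomputable def e1425 : SCfg where
  D := {
    a := 6
    L := 9
    kp := 6
    inn := [(0, 1), (1, 0), (1, 2), (2, 1), (2, 3), (2, 4), (3, 2), (3, 5), (4, 2), (5, 3)]
    mix := [(0, 0), (0, 1), (0, 2), (1, 0), (1, 2), (1, 3), (1, 4), (2, 3), (2, 4), (2, 5), (2, 6), (3,
      3), (3, 5), (3, 7), (4, 5), (4, 6), (4, 8), (5, 2), (5, 3), (5, 7)]
    cl := [2, 5, 1, 0, 1, 0, 3, 4, 6]
    chq := [(0, 3), (3, 0)]
    rng := [(0, 1), (0, 4), (1, 0), (1, 2), (2, 1), (2, 3), (2, 7), (3, 2), (4, 0), (4, 6), (5, 7), (5,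
      8), (6, 4), (6, 8), (7, 2), (7, 5), (8, 5), (8, 6)]
    lev := [] }
  links := [[1, 6, 7, 8], [6, 0, 8, 9, 2, 10], [10, 1, 9, 3, 11, 4, 12], [11, 2, 9, 5, 13], [12, 2, 11,
    14], [13, 3, 9, 8]]
  P := {
    a := 6
    N := 15
    nb := [450, 1861, 7706, 10788, 22532, 8968, 1155, 321, 8867, 302, 4166, 24604, 17428, 2344, 6160]
    tri := [(0, 1, 6), (0, 1, 8), (0, 6, 7), (0, 7, 8), (1, 2, 9), (1, 2, 10), (1, 6, 10), (1, 8, 9),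
      (2, 3, 9), (2, 3, 11), (2, 4, 11), (2, 4, 12), (2, 10, 12), (3, 5, 9), (3, 5, 13), (3, 11,
      13), (4, 11, 14), (4, 12, 14), (5, 8, 9), (5, 8, 13)]
    fin := [0, 1, 1, 3, 3, 1, 0, 7, 1, 3, 1, 3, 12, 13, 14]
    chd := [(3, 12)]
    steps := [(0, 6), (1, 2), (1, 8), (1, 10), (3, 9), (1, 5), (3, 11), (3, 4)] }
  rep := [3, 1, 0, 12, 13, 7, 14]

noncomputable def v1425 : Cov.CovD where
  P := 3
  N := 4
  pl := [0, 1, 7, 8]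
  lev := [⟨[], [], [], [2, 5], [(2, 1, [])]⟩,
    ⟨[], [(0, 0), (0, 1)], [(0, 1), (1, 1)], [2], [(2, 1, []), (3, 0, [3]), (4, 1, [])]⟩,
    ⟨[(0, 1)], [(1, 0), (1, 1), (1, 3)], [(0, 0), (0, 1), (0, 3), (1, 3)], [], [(3, 0,
      [3]), (4, 1, []), (5, 0, [3]), (6, 3, [0])]⟩,
    ⟨[(1, 2)], [(1, 0), (2, 0), (2, 1), (2, 3)], [(0, 0)], [4], [(3, 0, [3]), (5, 0, [3])]⟩,
    ⟨[(1, 2), (2, 3)], [(2, 0), (2, 1), (2, 3), (3, 0)], [(0, 3)], [6], [(5, 0, [3]), (6,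
      3, [0])]⟩,
    ⟨[(2, 3)], [(0, 1), (1, 0), (1, 1), (2, 0), (3, 0), (3, 1)], [(0, 1)], [4], [(2, 1,
      []), (3, 0, [3])]⟩]
  Ta := [((2, 1), 1, 5), ((2, 3), 1, 0), ((2, 7), 1, 4), ((3, 2), 0, 1), ((4, 0), 1, 2), ((4, 6),
    1, 3), ((5, 7), 0, 4), ((5, 8), 0, 6)]
  Tb := [((0, 1, 4), 2, 5, 1), ((1, 0, 2), 5, 2, 1), ((2, 1, 3), 1, 5, 0), ((2, 1, 7), 1, 5, 4),
    ((2, 3, 7), 1, 0, 4), ((4, 0, 6), 1, 2, 3), ((5, 7, 8), 0, 4, 6), ((6, 4, 8), 3, 1, 6),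
    ((7, 2, 5), 4, 1, 0), ((8, 5, 6), 6, 0, 3)]
  Tc := []
  Td := [((0, 3), (3, 2), 1), ((0, 3), (5, 7), 4), ((0, 3), (5, 8), 6), ((3, 0), (6, 4), 1), ((3,
    0), (6, 8), 6)]
  G := [[0, 0x414212818e4212818414e8c, 0x122889145ca4188d414dc28c, 0,
    0x122885449c68888d444dc289], [0, 0, 0xc12cc62c82, 0xcca2c12c421223c481cd28cc,
    0xc12cc62c82], [0, 0, 0x421268212a88c44cce48169214e448a11a68cc, 0,
    0x44a88a6886446ac1428268212c88c14cce89], [0, 0, 0x9c624cca28c2,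
    0x5225c62c5828c9962495a28c5, 0xc5624cca2892]]

noncomputable def n1425 : Ent := ⟨e1425, noF, [], [], [(7, 13, [87897818358406171357428020359653357189577334862559923720193, 0]), (7, 14, [81620716623019490593592230936445690773474979418095889215489, 0])]⟩

def c1425 : PLift (Cov.check n1425.C.D v1425 = true) := ⟨by decide +kernel⟩

def b1425 : PLift (entF (fidx ts) 400 1425 n1425 = true) := ⟨by decide +kernel⟩

theorem g1425 : GoodF (fidx ts) 400 1425 := GoodF.ofV v1425 n1425 c1425.down b1425.down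

/-- 467544:1136 -/
noncomputable def e1426 : SCfg where
  D := {
    a := 6
    L := 10
    kp := 7
    inn := [(0, 1), (1, 0), (1, 2), (2, 1), (2, 3), (2, 4), (3, 2), (3, 5), (4, 2), (5, 3)]
    mix := [(0, 0), (0, 1), (0, 2), (1, 0), (1, 2), (1, 3), (1, 4), (2, 3), (2, 4), (2, 5), (2, 6), (3,
      3), (3, 5), (3, 7), (4, 5), (4, 6), (4, 8), (5, 3), (5, 7), (5, 9)]
    cl := [2, 5, 1, 0, 1, 0, 3, 4, 6, 7]
    chq := [(0, 3), (3, 0)]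
    rng := [(0, 1), (0, 4), (1, 0), (1, 2), (2, 1), (2, 3), (3, 2), (3, 9), (4, 0), (4, 6), (5, 7), (5,
      8), (6, 4), (6, 8), (7, 5), (7, 9), (8, 5), (8, 6), (9, 3), (9, 7)]
    lev := [] }
  links := [[1, 6, 7, 8], [6, 0, 8, 9, 2, 10], [10, 1, 9, 3, 11, 4, 12], [11, 2, 9, 5, 13], [12, 2, 11,
    14], [13, 3, 9, 15]]
  P := {
    a := 6
    N := 16
    nb := [450, 1861, 7706, 10788, 22532, 41480, 1155, 321, 643, 33070, 4166, 24604, 17428, 34856,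
      6160, 8736]
    tri := [(0, 1, 6), (0, 1, 8), (0, 6, 7), (0, 7, 8), (1, 2, 9), (1, 2, 10), (1, 6, 10), (1, 8, 9),
      (2, 3, 9), (2, 3, 11), (2, 4, 11), (2, 4, 12), (2, 10, 12), (3, 5, 9), (3, 5, 13), (3, 11,
      13), (4, 11, 14), (4, 12, 14), (5, 9, 15), (5, 13, 15)]
    fin := [0, 1, 1, 3, 3, 3, 0, 7, 1, 3, 1, 3, 12, 13, 14, 15]
    chd := [(3, 12)]
    steps := [(0, 6), (1, 2), (1, 8), (1, 10), (3, 5), (3, 9), (3, 11), (3, 4)] }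
  rep := [3, 1, 0, 12, 13, 7, 14, 15]

noncomputable def v1426 : Cov.CovD where
  P := 3
  N := 5
  pl := [0, 1, 7, 8, 9]
  lev := [⟨[], [], [], [2, 5], [(2, 1, [])]⟩,
    ⟨[], [(0, 0), (0, 1)], [(0, 1), (1, 1)], [2], [(2, 1, []), (3, 0, [3]), (4, 1, [])]⟩,
    ⟨[(0, 1)], [(1, 0), (1, 1), (1, 3)], [(0, 0), (0, 1), (0, 3), (1, 3)], [], [(3, 0,
      [3]), (4, 1, []), (5, 0, [3]), (6, 3, [0])]⟩,
    ⟨[(1, 2)], [(1, 0), (2, 0), (2, 1), (2, 3)], [(0, 0)], [4], [(3, 0, [3]), (5, 0, [3])]⟩,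
    ⟨[(1, 2), (2, 3)], [(2, 0), (2, 1), (2, 3), (3, 0)], [(0, 3)], [6], [(5, 0, [3]), (6,
      3, [0])]⟩,
    ⟨[(2, 3)], [(1, 0), (2, 0), (3, 0)], [], [4, 7], [(3, 0, [3])]⟩]
  Ta := [((2, 1), 1, 5), ((2, 3), 1, 0), ((3, 2), 0, 1), ((3, 9), 0, 7), ((4, 0), 1, 2), ((4, 6),
    1, 3), ((5, 7), 0, 4), ((5, 8), 0, 6)]
  Tb := [((0, 1, 4), 2, 5, 1), ((1, 0, 2), 5, 2, 1), ((2, 1, 3), 1, 5, 0), ((3, 2, 9), 0, 1, 7),
    ((4, 0, 6), 1, 2, 3), ((5, 7, 8), 0, 4, 6), ((6, 4, 8), 3, 1, 6), ((7, 5, 9), 4, 0, 7),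
    ((8, 5, 6), 6, 0, 3), ((9, 3, 7), 7, 0, 4)]
  Tc := []
  Td := [((0, 3), (3, 2), 1), ((0, 3), (3, 9), 7), ((0, 3), (5, 7), 4), ((0, 3), (5, 8), 6), ((3,
    0), (6, 4), 1), ((3, 0), (6, 8), 6)]
  G := [[0, 0x612c18a161ce4c161aa161c68c, 0x11ad666dc281221a5169c68c, 0,
    0x1221a9165c6811ad616dc289], [0, 0, 0x1c5a161c9163ac42, 0xccaaaa6c161ac4c1a16cc6666ac8c,
    0x1c5a161c9163ac82], [0, 0, 0xc2126c212a9ac51cce4c2126a212c9dc31cce8c, 0,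
    0xcc6116a4ccaaaa68912a2612666aa1c18ce89], [0, 0, 0xc16166a471a1aa68c2,
    0xccaaaa6cc6666ac1524c16166acc813a68cc, 0xccaaaa6cc6666ac12]]

noncomputable def n1426 : Ent := ⟨e1426, noF, [], [], [(7, 13, [385753028440516072301428330182238677962518295842732840412831745, 0]), (7, 14, [385746751338780685620664494392815470296102193487288376378327041, 0]), (8, 15, [360035742630636841211993100915356868655746945586763691013509121, 0])]⟩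

def c1426 : PLift (Cov.check n1426.C.D v1426 = true) := ⟨by decide +kernel⟩

def b1426 : PLift (entF (fidx ts) 400 1426 n1426 = true) := ⟨by decide +kernel⟩

theorem g1426 : GoodF (fidx ts) 400 1426 := GoodF.ofV v1426 n1426 c1426.down b1426.down

/-- 467544:1137/2 -/
noncomputable def e1427 : SCfg where
  D := {
    a := 6
    L := 8
    kp := 5
    inn := [(0, 1), (1, 0), (1, 2), (2, 1), (2, 3), (2, 4), (3, 2), (3, 5), (4, 2), (5, 3)]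
    mix := [(0, 0), (0, 1), (0, 2), (1, 0), (1, 2), (1, 3), (1, 4), (2, 3), (2, 4), (2, 5), (2, 6), (3,
      3), (3, 5), (3, 7), (4, 1), (4, 5), (4, 6), (5, 1), (5, 5), (5, 7)]
    cl := [2, 1, 0, 3, 0, 3, 4, 5]
    chq := [(3, 4), (4, 3)]
    rng := [(0, 1), (0, 4), (1, 0), (1, 2), (1, 5), (1, 6), (1, 7), (2, 1), (2, 3), (3, 2), (3, 7), (4,
      0), (4, 6), (5, 1), (6, 1), (6, 4), (7, 1), (7, 3)]
    lev := [] }
  links := [[1, 6, 7, 8], [6, 0, 8, 9, 2, 10], [10, 1, 9, 3, 11, 4, 12], [11, 2, 9, 13, 5], [12, 2, 11,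
    7], [11, 3, 13, 7]]
  P := {
    a := 6
    N := 14
    nb := [450, 1861, 7706, 10788, 6276, 10376, 1155, 14705, 643, 8462, 4166, 188, 1172, 680]
    tri := [(0, 1, 6), (0, 1, 8), (0, 6, 7), (0, 7, 8), (1, 2, 9), (1, 2, 10), (1, 6, 10), (1, 8, 9),
      (2, 3, 9), (2, 3, 11), (2, 4, 11), (2, 4, 12), (2, 10, 12), (3, 5, 11), (3, 5, 13), (3, 9,
      13), (4, 7, 11), (4, 7, 12), (5, 7, 11), (5, 7, 13)]
    fin := [0, 1, 1, 3, 3, 5, 0, 5, 1, 3, 1, 3, 12, 13]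
    chd := [(3, 12)]
    steps := [(0, 6), (1, 2), (1, 8), (1, 10), (3, 9), (3, 11), (3, 4), (5, 7)] }
  rep := [1, 5, 0, 3, 12, 13]

noncomputable def v1427 : Cov.CovD where
  P := 3
  N := 3
  pl := [0, 1, 7]
  lev := [⟨[], [], [], [1, 2], [(2, 0, [])]⟩,
    ⟨[], [(0, 0), (0, 3)], [(0, 0), (0, 3)], [2], [(2, 0, []), (3, 3, [4]), (4, 0, [])]⟩,
    ⟨[(0, 1)], [(1, 0), (1, 3), (1, 4)], [(0, 3), (0, 4), (3, 3), (3, 4)], [], [(3, 3,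
      [4]), (4, 0, []), (5, 3, [4]), (6, 4, [3])]⟩,
    ⟨[(1, 2)], [(1, 3), (2, 0), (2, 3), (2, 4)], [(3, 3)], [5], [(3, 3, [4]), (5, 3, [4])]⟩,
    ⟨[(1, 2), (2, 3)], [(2, 0), (2, 3), (2, 4), (3, 3)], [(3, 4)], [1], [(5, 3, [4]), (6,
      4, [3])]⟩,
    ⟨[(2, 3)], [(2, 3), (3, 3), (4, 3)], [], [1, 5], [(5, 3, [4])]⟩]
  Ta := [((2, 1), 0, 1), ((2, 3), 0, 3), ((3, 2), 3, 0), ((3, 7), 3, 5), ((4, 0), 0, 2), ((4, 6),
    0, 4), ((5, 1), 3, 1)]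
  Tb := [((0, 1, 4), 2, 1, 0), ((1, 0, 2), 1, 2, 0), ((1, 0, 5), 1, 2, 3), ((1, 0, 6), 1, 2, 4),
    ((1, 0, 7), 1, 2, 5), ((1, 2, 5), 1, 0, 3), ((1, 2, 6), 1, 0, 4), ((1, 2, 7), 1, 0, 5),
    ((1, 5, 6), 1, 3, 4), ((1, 5, 7), 1, 3, 5), ((1, 6, 7), 1, 4, 5), ((2, 1, 3), 0, 1, 3),
    ((3, 2, 7), 3, 0, 5), ((4, 0, 6), 0, 2, 4), ((6, 1, 4), 4, 1, 0), ((7, 1, 3), 5, 1, 3)]
  Tc := []
  Td := [((3, 4), (3, 2), 0), ((3, 4), (3, 7), 5), ((3, 4), (5, 1), 1), ((4, 3), (6, 1), 1), ((4,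
    3), (6, 4), 0)]
  G := [[0, 0x2821488c24a144c41cc, 0, 0x9421c122c8, 0xc12814111d582b28], [0, 0xe81886446226e948,
    0, 0xd12284, 0x181814111d88c4414eb28], [0, 0, 0xc82542418111de24, 0x94225822c1,
    0x5829428481115de28], [0, 0, 0x4181117414111bc1113e48, 0x95dd2284,
    0x444414bc11136418818b8a1]]

noncomputable def n1427 : Ent := ⟨e1427, noF, [], [], []⟩

def c1427 : PLift (Cov.check n1427.C.D v1427 = true) := ⟨by decide +kernel⟩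

def b1427 : PLift (entF (fidx ts) 400 1427 n1427 = true) := ⟨by decide +kernel⟩

theorem g1427 : GoodF (fidx ts) 400 1427 := GoodF.ofV v1427 n1427 c1427.down b1427.down

/-- 467544:1137/1 -/
noncomputable def e1428 : SCfg where
  D := {
    a := 6
    L := 9
    kp := 6
    inn := [(0, 1), (1, 0), (1, 2), (2, 1), (2, 3), (2, 4), (3, 2), (3, 5), (4, 2), (5, 3)]
    mix := [(0, 0), (0, 1), (0, 2), (1, 0), (1, 2), (1, 3), (1, 4), (2, 3), (2, 4), (2, 5), (2, 6), (3,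
      3), (3, 5), (3, 7), (4, 5), (4, 6), (4, 8), (5, 1), (5, 5), (5, 7)]
    cl := [2, 4, 1, 0, 1, 0, 3, 5, 6]
    chq := [(0, 3), (3, 0)]
    rng := [(0, 1), (0, 4), (1, 0), (1, 2), (1, 5), (1, 7), (2, 1), (2, 3), (3, 2), (3, 7), (4, 0), (4,
      6), (5, 1), (5, 8), (6, 4), (6, 8), (7, 1), (7, 3), (8, 5), (8, 6)]
    lev := [] }
  links := [[1, 6, 7, 8], [6, 0, 8, 9, 2, 10], [10, 1, 9, 3, 11, 4, 12], [11, 2, 9, 13, 5], [12, 2, 11,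
    14], [11, 3, 13, 7]]
  P := {
    a := 6
    N := 15
    nb := [450, 1861, 7706, 10788, 22532, 10376, 1155, 10593, 643, 8462, 4166, 16572, 17428, 680,
      6160]
    tri := [(0, 1, 6), (0, 1, 8), (0, 6, 7), (0, 7, 8), (1, 2, 9), (1, 2, 10), (1, 6, 10), (1, 8, 9),
      (2, 3, 9), (2, 3, 11), (2, 4, 11), (2, 4, 12), (2, 10, 12), (3, 5, 11), (3, 5, 13), (3, 9,
      13), (4, 11, 14), (4, 12, 14), (5, 7, 11), (5, 7, 13)]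
    fin := [0, 1, 1, 3, 3, 5, 0, 5, 1, 3, 1, 3, 12, 13, 14]
    chd := [(3, 12)]
    steps := [(0, 6), (1, 2), (1, 8), (1, 10), (3, 9), (3, 11), (3, 4), (5, 7)] }
  rep := [3, 1, 0, 12, 5, 13, 14]

noncomputable def v1428 : Cov.CovD where
  P := 3
  N := 4
  pl := [0, 1, 7, 8]
  lev := [⟨[], [], [], [2, 4], [(2, 1, [])]⟩,
    ⟨[], [(0, 0), (0, 1)], [(0, 1), (1, 1)], [2], [(2, 1, []), (3, 0, [3]), (4, 1, [])]⟩,
    ⟨[(0, 1)], [(1, 0), (1, 1), (1, 3)], [(0, 0), (0, 1), (0, 3), (1, 3)], [], [(3, 0,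
      [3]), (4, 1, []), (5, 0, [3]), (6, 3, [0])]⟩,
    ⟨[(1, 2)], [(1, 0), (2, 0), (2, 1), (2, 3)], [(0, 0)], [5], [(3, 0, [3]), (5, 0, [3])]⟩,
    ⟨[(1, 2), (2, 3)], [(2, 0), (2, 1), (2, 3), (3, 0)], [(0, 3)], [6], [(5, 0, [3]), (6,
      3, [0])]⟩,
    ⟨[(2, 3)], [(2, 0), (3, 0), (4, 0)], [], [4, 5], [(5, 0, [3])]⟩]
  Ta := [((2, 1), 1, 4), ((2, 3), 1, 0), ((3, 2), 0, 1), ((3, 7), 0, 5), ((4, 0), 1, 2), ((4, 6),
    1, 3), ((5, 1), 0, 4), ((5, 8), 0, 6)]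
  Tb := [((0, 1, 4), 2, 4, 1), ((1, 0, 2), 4, 2, 1), ((1, 0, 5), 4, 2, 0), ((1, 0, 7), 4, 2, 5),
    ((1, 2, 5), 4, 1, 0), ((1, 2, 7), 4, 1, 5), ((1, 5, 7), 4, 0, 5), ((2, 1, 3), 1, 4, 0),
    ((3, 2, 7), 0, 1, 5), ((4, 0, 6), 1, 2, 3), ((5, 1, 8), 0, 4, 6), ((6, 4, 8), 3, 1, 6),
    ((7, 1, 3), 5, 4, 0), ((8, 5, 6), 6, 0, 3)]
  Tc := []
  Td := [((0, 3), (3, 2), 1), ((0, 3), (3, 7), 5), ((0, 3), (5, 1), 4), ((0, 3), (5, 8), 6), ((3,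
    0), (6, 4), 1), ((3, 0), (6, 8), 6)]
  G := [[0, 0x1292818a14e44121612341ca8c, 0x118d112dc28112d214dc24c, 0, 0x11ad116dc281], [0, 0,
    0x11a22a6c121ac42, 0xc1216116226ac81, 0x21c721611621ac81], [0, 0,
    0x8222a68222a88c24ce442a264262a22c44cce8c, 0, 0x44a28a628642a444e1c222642226aacc48ce89],
    [0, 0, 0xcc6226a4cca22a68c2, 0x88a22a6886226ac144a22a6446226ac1c, 0xcca22a6cc6226ac12]]

noncomputable def n1428 : Ent := ⟨e1428, noF, [], [], [(7, 14, [81620716623019490593592230936445690773474979418095889231873, 0])]⟩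

def c1428 : PLift (Cov.check n1428.C.D v1428 = true) := ⟨by decide +kernel⟩

def b1428 : PLift (entF (fidx ts) 400 1428 n1428 = true) := ⟨by decide +kernel⟩

theorem g1428 : GoodF (fidx ts) 400 1428 := GoodF.ofV v1428 n1428 c1428.down b1428.down

/-- 467544:1137/3 -/
noncomputable def e1429 : SCfg where
  D := {
    a := 6
    L := 9
    kp := 6
    inn := [(0, 1), (1, 0), (1, 2), (2, 1), (2, 3), (2, 4), (3, 2), (3, 5), (4, 2), (5, 3)]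
    mix := [(0, 0), (0, 1), (0, 2), (1, 0), (1, 2), (1, 3), (1, 4), (2, 3), (2, 4), (2, 5), (2, 6), (3,
      3), (3, 5), (3, 7), (4, 1), (4, 5), (4, 6), (5, 5), (5, 7), (5, 8)]
    cl := [2, 4, 1, 0, 1, 0, 3, 5, 6]
    chq := [(0, 3), (3, 0)]
    rng := [(0, 1), (0, 4), (1, 0), (1, 2), (1, 5), (1, 6), (2, 1), (2, 3), (3, 2), (3, 7), (4, 0), (4,
      6), (5, 1), (5, 8), (6, 1), (6, 4), (7, 3), (7, 8), (8, 5), (8, 7)]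
    lev := [] }
  links := [[1, 6, 7, 8], [6, 0, 8, 9, 2, 10], [10, 1, 9, 3, 11, 4, 12], [11, 2, 9, 13, 5], [12, 2, 11,
    7], [11, 3, 13, 14]]
  P := {
    a := 6
    N := 15
    nb := [450, 1861, 7706, 10788, 6276, 26632, 1155, 6481, 643, 8462, 4166, 16572, 1172, 16936,
      10272]
    tri := [(0, 1, 6), (0, 1, 8), (0, 6, 7), (0, 7, 8), (1, 2, 9), (1, 2, 10), (1, 6, 10), (1, 8, 9),
      (2, 3, 9), (2, 3, 11), (2, 4, 11), (2, 4, 12), (2, 10, 12), (3, 5, 11), (3, 5, 13), (3, 9,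
      13), (4, 7, 11), (4, 7, 12), (5, 11, 14), (5, 13, 14)]
    fin := [0, 1, 1, 3, 3, 3, 0, 7, 1, 3, 1, 3, 12, 13, 14]
    chd := [(3, 12)]
    steps := [(0, 6), (1, 2), (1, 8), (1, 10), (3, 5), (3, 9), (3, 11), (3, 4)] }
  rep := [3, 1, 0, 12, 7, 13, 14]

noncomputable def v1429 : Cov.CovD where
  P := 3
  N := 4
  pl := [0, 1, 7, 8]
  lev := [⟨[], [], [], [2, 4], [(2, 1, [])]⟩,
    ⟨[], [(0, 0), (0, 1)], [(0, 1), (1, 1)], [2], [(2, 1, []), (3, 0, [3]), (4, 1, [])]⟩,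
    ⟨[(0, 1)], [(1, 0), (1, 1), (1, 3)], [(0, 0), (0, 1), (0, 3), (1, 3)], [], [(3, 0,
      [3]), (4, 1, []), (5, 0, [3]), (6, 3, [0])]⟩,
    ⟨[(1, 2)], [(1, 0), (2, 0), (2, 1), (2, 3)], [(0, 0)], [5], [(3, 0, [3]), (5, 0, [3])]⟩,
    ⟨[(1, 2), (2, 3)], [(2, 0), (2, 1), (2, 3), (3, 0)], [(0, 3)], [4], [(5, 0, [3]), (6,
      3, [0])]⟩,
    ⟨[(2, 3)], [(2, 0), (3, 0), (4, 0)], [], [5, 6], [(5, 0, [3])]⟩]
  Ta := [((2, 1), 1, 4), ((2, 3), 1, 0), ((3, 2), 0, 1), ((3, 7), 0, 5), ((4, 0), 1, 2), ((4, 6),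
    1, 3), ((5, 1), 0, 4), ((5, 8), 0, 6)]
  Tb := [((0, 1, 4), 2, 4, 1), ((1, 0, 2), 4, 2, 1), ((1, 0, 5), 4, 2, 0), ((1, 0, 6), 4, 2, 3),
    ((1, 2, 5), 4, 1, 0), ((1, 2, 6), 4, 1, 3), ((1, 5, 6), 4, 0, 3), ((2, 1, 3), 1, 4, 0),
    ((3, 2, 7), 0, 1, 5), ((4, 0, 6), 1, 2, 3), ((5, 1, 8), 0, 4, 6), ((6, 1, 4), 3, 4, 1),
    ((7, 3, 8), 5, 0, 6), ((8, 5, 7), 6, 0, 5)]
  Tc := []
  Td := [((0, 3), (3, 2), 1), ((0, 3), (3, 7), 5), ((0, 3), (5, 1), 4), ((0, 3), (5, 8), 6), ((3,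
    0), (6, 1), 4), ((3, 0), (6, 4), 1)]
  G := [[0, 0x18186a112ca41414a1261c68c, 0x1a9169c241a5165c24c, 0, 0x11ad116dc281], [0, 0,
    0xc112612a16c82, 0x1262cc212ac41, 0xc112612a16c81], [0, 0, 0xc8a86c262ac4c2a26a464ca4c,
    0, 0x622a8c64cc61c2a26c264ac89], [0, 0, 0x6cceaa66aca62ac42, 0xc8a86c262ac4c2a26c462ac89,
    0xcc66aa6ccaa66ac12]]

noncomputable def n1429 : Ent := ⟨e1429, noF, [], [], [(7, 14, [81620716623019490593592230936445690773474979418095889231873, 0])]⟩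

def c1429 : PLift (Cov.check n1429.C.D v1429 = true) := ⟨by decide +kernel⟩

def b1429 : PLift (entF (fidx ts) 400 1429 n1429 = true) := ⟨by decide +kernel⟩

theorem g1429 : GoodF (fidx ts) 400 1429 := GoodF.ofV v1429 n1429 c1429.down b1429.down

/-- 467544:1137/4 -/
noncomputable def e1430 : SCfg where
  D := {
    a := 6
    L := 9
    kp := 6
    inn := [(0, 1), (1, 0), (1, 2), (2, 1), (2, 3), (2, 4), (3, 2), (3, 5), (4, 2), (5, 3)]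
    mix := [(0, 0), (0, 1), (0, 2), (1, 0), (1, 2), (1, 3), (1, 4), (2, 3), (2, 4), (2, 5), (2, 6), (3,
      3), (3, 5), (3, 7), (4, 5), (4, 6), (4, 8), (5, 5), (5, 7), (5, 8)]
    cl := [2, 6, 1, 0, 1, 0, 3, 4, 5]
    chq := [(0, 3), (3, 0)]
    rng := [(0, 1), (0, 4), (1, 0), (1, 2), (2, 1), (2, 3), (3, 2), (3, 7), (4, 0), (4, 6), (5, 8), (6,
      4), (6, 8), (7, 3), (7, 8), (8, 5), (8, 6), (8, 7)]
    lev := [] }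
  links := [[1, 6, 7, 8], [6, 0, 8, 9, 2, 10], [10, 1, 9, 3, 11, 4, 12], [11, 2, 9, 13, 5], [12, 2, 11,
    14], [11, 3, 13, 14]]
  P := {
    a := 6
    N := 15
    nb := [450, 1861, 7706, 10788, 22532, 26632, 1155, 321, 643, 8462, 4166, 16444, 17428, 16936,
      14384]
    tri := [(0, 1, 6), (0, 1, 8), (0, 6, 7), (0, 7, 8), (1, 2, 9), (1, 2, 10), (1, 6, 10), (1, 8, 9),
      (2, 3, 9), (2, 3, 11), (2, 4, 11), (2, 4, 12), (2, 10, 12), (3, 5, 11), (3, 5, 13), (3, 9,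
      13), (4, 11, 14), (4, 12, 14), (5, 11, 14), (5, 13, 14)]
    fin := [0, 1, 1, 3, 3, 3, 0, 7, 1, 3, 1, 3, 12, 13, 14]
    chd := [(3, 12)]
    steps := [(0, 6), (1, 2), (1, 8), (1, 10), (3, 5), (3, 9), (3, 11), (3, 4)] }
  rep := [3, 1, 0, 12, 13, 14, 7]

noncomputable def v1430 : Cov.CovD where
  P := 3
  N := 4
  pl := [0, 1, 7, 8]
  lev := [⟨[], [], [], [2, 6], [(2, 1, [])]⟩,
    ⟨[], [(0, 0), (0, 1)], [(0, 1), (1, 1)], [2], [(2, 1, []), (3, 0, [3]), (4, 1, [])]⟩,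
    ⟨[(0, 1)], [(1, 0), (1, 1), (1, 3)], [(0, 0), (0, 1), (0, 3), (1, 3)], [], [(3, 0,
      [3]), (4, 1, []), (5, 0, [3]), (6, 3, [0])]⟩,
    ⟨[(1, 2)], [(1, 0), (2, 0), (2, 1), (2, 3)], [(0, 0)], [4], [(3, 0, [3]), (5, 0, [3])]⟩,
    ⟨[(1, 2), (2, 3)], [(2, 0), (2, 1), (2, 3), (3, 0)], [(0, 3)], [5], [(5, 0, [3]), (6,
      3, [0])]⟩,
    ⟨[(2, 3)], [(2, 0), (3, 0), (4, 0)], [], [4, 5], [(5, 0, [3])]⟩]
  Ta := [((2, 1), 1, 6), ((2, 3), 1, 0), ((3, 2), 0, 1), ((3, 7), 0, 4), ((4, 0), 1, 2), ((4, 6),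
    1, 3), ((5, 8), 0, 5)]
  Tb := [((0, 1, 4), 2, 6, 1), ((1, 0, 2), 6, 2, 1), ((2, 1, 3), 1, 6, 0), ((3, 2, 7), 0, 1, 4),
    ((4, 0, 6), 1, 2, 3), ((6, 4, 8), 3, 1, 5), ((7, 3, 8), 4, 0, 5), ((8, 5, 6), 5, 0, 3),
    ((8, 5, 7), 5, 0, 4), ((8, 6, 7), 5, 3, 4)]
  Tc := []
  Td := [((0, 3), (3, 2), 1), ((0, 3), (3, 7), 4), ((0, 3), (5, 8), 5), ((3, 0), (6, 4), 1), ((3,
    0), (6, 8), 5)]
  G := [[0, 0x1421a4184a141cacc1a16a161ca4c, 0x2221a9165c68812d14edc24c, 0,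
    0x81ad146dc281221a5149c689], [0, 0, 0x41a1296c1243ac42,
    0x186425a4c128368c14a82a6c1243ac49, 0xc1a16416126ac82], [0, 0,
    0x8222a88c44c644a2268cc86426a4c4a82a68cc, 0, 0x4ca82a68c6426ac14222682826a8844cce89], [0,
    0, 0x8e8e426a46ca82a68c2, 0xc4a82a68c6426ac184ac2a6c86426ac1c, 0x84ac2a64862e2eac12]]

noncomputable def n1430 : Ent := ⟨e1430, noF, [], [], [(7, 14, [81620716623019490593592230936445690773474979418095889231873, 0])]⟩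

def c1430 : PLift (Cov.check n1430.C.D v1430 = true) := ⟨by decide +kernel⟩

def b1430 : PLift (entF (fidx ts) 400 1430 n1430 = true) := ⟨by decide +kernel⟩

theorem g1430 : GoodF (fidx ts) 400 1430 := GoodF.ofV v1430 n1430 c1430.down b1430.down

/-- 467544:1137 -/
noncomputable def e1431 : SCfg where
  D := {
    a := 6
    L := 10
    kp := 7
    inn := [(0, 1), (1, 0), (1, 2), (2, 1), (2, 3), (2, 4), (3, 2), (3, 5), (4, 2), (5, 3)]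
    mix := [(0, 0), (0, 1), (0, 2), (1, 0), (1, 2), (1, 3), (1, 4), (2, 3), (2, 4), (2, 5), (2, 6), (3,
      3), (3, 5), (3, 7), (4, 5), (4, 6), (4, 8), (5, 5), (5, 7), (5, 9)]
    cl := [2, 5, 1, 0, 1, 0, 3, 4, 6, 7]
    chq := [(0, 3), (3, 0)]
    rng := [(0, 1), (0, 4), (1, 0), (1, 2), (2, 1), (2, 3), (3, 2), (3, 7), (4, 0), (4, 6), (5, 8), (5,
      9), (6, 4), (6, 8), (7, 3), (7, 9), (8, 5), (8, 6), (9, 5), (9, 7)]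
    lev := [] }
  links := [[1, 6, 7, 8], [6, 0, 8, 9, 2, 10], [10, 1, 9, 3, 11, 4, 12], [11, 2, 9, 13, 5], [12, 2, 11,
    14], [11, 3, 13, 15]]
  P := {
    a := 6
    N := 16
    nb := [450, 1861, 7706, 10788, 22532, 43016, 1155, 321, 643, 8462, 4166, 49212, 17428, 33320,
      6160, 10272]
    tri := [(0, 1, 6), (0, 1, 8), (0, 6, 7), (0, 7, 8), (1, 2, 9), (1, 2, 10), (1, 6, 10), (1, 8, 9),
      (2, 3, 9), (2, 3, 11), (2, 4, 11), (2, 4, 12), (2, 10, 12), (3, 5, 11), (3, 5, 13), (3, 9,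
      13), (4, 11, 14), (4, 12, 14), (5, 11, 15), (5, 13, 15)]
    fin := [0, 1, 1, 3, 3, 3, 0, 7, 1, 3, 1, 3, 12, 13, 14, 15]
    chd := [(3, 12)]
    steps := [(0, 6), (1, 2), (1, 8), (1, 10), (3, 5), (3, 9), (3, 11), (3, 4)] }
  rep := [3, 1, 0, 12, 13, 7, 14, 15]

noncomputable def v1431 : Cov.CovD where
  P := 3
  N := 5
  pl := [0, 1, 7, 8, 9]
  lev := [⟨[], [], [], [2, 5], [(2, 1, [])]⟩,
    ⟨[], [(0, 0), (0, 1)], [(0, 1), (1, 1)], [2], [(2, 1, []), (3, 0, [3]), (4, 1, [])]⟩,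
    ⟨[(0, 1)], [(1, 0), (1, 1), (1, 3)], [(0, 0), (0, 1), (0, 3), (1, 3)], [], [(3, 0,
      [3]), (4, 1, []), (5, 0, [3]), (6, 3, [0])]⟩,
    ⟨[(1, 2)], [(1, 0), (2, 0), (2, 1), (2, 3)], [(0, 0)], [4], [(3, 0, [3]), (5, 0, [3])]⟩,
    ⟨[(1, 2), (2, 3)], [(2, 0), (2, 1), (2, 3), (3, 0)], [(0, 3)], [6], [(5, 0, [3]), (6,
      3, [0])]⟩,
    ⟨[(2, 3)], [(2, 0), (3, 0), (4, 0)], [], [4, 7], [(5, 0, [3])]⟩]
  Ta := [((2, 1), 1, 5), ((2, 3), 1, 0), ((3, 2), 0, 1), ((3, 7), 0, 4), ((4, 0), 1, 2), ((4, 6),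
    1, 3), ((5, 8), 0, 6), ((5, 9), 0, 7)]
  Tb := [((0, 1, 4), 2, 5, 1), ((1, 0, 2), 5, 2, 1), ((2, 1, 3), 1, 5, 0), ((3, 2, 7), 0, 1, 4),
    ((4, 0, 6), 1, 2, 3), ((5, 8, 9), 0, 6, 7), ((6, 4, 8), 3, 1, 6), ((7, 3, 9), 4, 0, 7),
    ((8, 5, 6), 6, 0, 3), ((9, 5, 7), 7, 0, 4)]
  Tc := []
  Td := [((0, 3), (3, 2), 1), ((0, 3), (3, 7), 4), ((0, 3), (5, 8), 6), ((0, 3), (5, 9), 7), ((3,
    0), (6, 4), 1), ((3, 0), (6, 8), 6)]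
  G := [[0, 0x11c61a11a61c68c1a16e12141ec8c, 0x11ad116dc2411ad116dc28c, 0,
    0x11ad116dc2811ad116dc289], [0, 0, 0x121e518ec161ac42,
    0x1a51214e411a1a968cc1a16c36196ac89, 0x1c3a161c5116ac82], [0, 0,
    0xc4666a4ccaaaa6c28ccc2a26c262aaac66cce8c, 0, 0xccaaaa6cc6666ac1c2a26c2266aa8c64cce89],
    [0, 0, 0xcc6666a4ccaaaa68c2, 0xccaaaa6cc6666ac1c24cc6666acc8aaa68c9,
    0xccaaaa6cc6666ac12]]

noncomputable def n1431 : Ent := ⟨e1431, noF, [], [], [(7, 15, [360035742630636841211993100915356868655746945586763691013521409, 0]), (7, 14, [385746751338780685620664494392815470296102193487288376378347521, 0]), (15, 14, [385746751338780685620664494392815470296102193487288376378351617, 0])]⟩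

def c1431 : PLift (Cov.check n1431.C.D v1431 = true) := ⟨by decide +kernel⟩

def b1431 : PLift (entF (fidx ts) 400 1431 n1431 = true) := ⟨by decide +kernel⟩

theorem g1431 : GoodF (fidx ts) 400 1431 := GoodF.ofV v1431 n1431 c1431.down b1431.down

/-- 467547:1138/1 -/
noncomputable def e1432 : SCfg where
  D := {
    a := 6
    L := 10
    kp := 7
    inn := [(0, 1), (1, 0), (1, 2), (2, 1), (2, 3), (2, 4), (2, 5), (3, 2), (3, 5), (4, 2), (4, 5), (5,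
      2), (5, 3), (5, 4)]
    mix := [(0, 0), (0, 1), (0, 2), (1, 0), (1, 2), (1, 3), (1, 4), (2, 3), (2, 4), (2, 5), (3, 3), (3,
      6), (3, 7), (4, 5), (4, 8), (5, 1), (5, 7), (5, 8), (5, 9)]
    cl := [4, 5, 1, 0, 0, 2, 6, 3, 3, 7]
    chq := [(1, 4), (2, 6), (4, 1), (6, 2)]
    rng := [(0, 1), (0, 4), (1, 0), (1, 2), (1, 7), (1, 9), (2, 1), (2, 3), (3, 2), (3, 6), (4, 0), (4,
      5), (5, 4), (5, 8), (6, 3), (6, 7), (7, 1), (7, 6), (8, 5), (8, 9), (9, 1), (9, 8)]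
    lev := [] }
  links := [[1, 6, 7, 8], [6, 0, 8, 9, 2, 10], [10, 1, 9, 3, 5, 4, 11], [5, 2, 9, 12, 13], [11, 2, 5,
    14], [14, 4, 2, 3, 13, 7, 15]]
  P := {
    a := 6
    N := 16
    nb := [450, 1861, 3642, 12836, 18468, 57500, 1155, 41313, 643, 4366, 2118, 17428, 8712, 4264,
      34864, 16544]
    tri := [(0, 1, 6), (0, 1, 8), (0, 6, 7), (0, 7, 8), (1, 2, 9), (1, 2, 10), (1, 6, 10), (1, 8, 9),
      (2, 3, 5), (2, 3, 9), (2, 4, 5), (2, 4, 11), (2, 10, 11), (3, 5, 13), (3, 9, 12), (3, 12,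
      13), (4, 5, 14), (4, 11, 14), (5, 7, 13), (5, 7, 15), (5, 14, 15)]
    fin := [0, 1, 2, 2, 2, 5, 0, 7, 8, 1, 1, 11, 2, 5, 5, 15]
    chd := [(0, 8), (11, 2)]
    steps := [(0, 6), (1, 9), (1, 10), (2, 3), (2, 4), (2, 12), (5, 13), (5, 14)] }
  rep := [1, 8, 11, 5, 0, 7, 2, 15]

noncomputable def v1432 : Cov.CovD where
  P := 3
  N := 5
  pl := [1, 9]
  lev := [⟨[], [], [(1, 4)], [5], [(0, 4, [1]), (2, 1, [4])]⟩,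
    ⟨[], [(0, 0), (0, 1), (0, 4)], [(0, 0), (0, 1), (0, 4), (1, 4)], [], [(0, 4, [1]), (2,
      1, [4]), (3, 0, []), (4, 0, [])]⟩,
    ⟨[(0, 1)], [(1, 0), (1, 1), (1, 2), (1, 4)], [(0, 0), (0, 2)], [], [(3, 0, []), (4, 0,
      []), (5, 2, [6])]⟩,
    ⟨[(1, 2)], [(1, 0), (2, 0), (2, 2), (2, 3), (2, 6)], [(0, 3), (0, 6), (3, 6)], [], [(3,
      0, []), (6, 6, [2]), (7, 3, [])]⟩,
    ⟨[(1, 2), (2, 3)], [(2, 0), (2, 2), (2, 3)], [(2, 3)], [], [(5, 2, [6]), (8, 3, [])]⟩,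
    ⟨[(1, 2), (2, 3), (2, 4), (3, 4)], [(2, 0), (2, 2), (2, 3), (3, 0), (3, 3), (3, 6), (4,
      2), (4, 3)], [(3, 3)], [5, 7], [(7, 3, []), (8, 3, [])]⟩]
  Ta := [((3, 2), 0, 1), ((3, 6), 0, 6), ((4, 0), 0, 4), ((4, 5), 0, 2), ((7, 1), 3, 5), ((7, 6),
    3, 6), ((8, 5), 3, 2), ((8, 9), 3, 7)]
  Tb := [((0, 1, 4), 4, 5, 0), ((1, 0, 2), 5, 4, 1), ((1, 0, 7), 5, 4, 3), ((1, 0, 9), 5, 4, 7),
    ((1, 2, 7), 5, 1, 3), ((1, 2, 9), 5, 1, 7), ((1, 7, 9), 5, 3, 7), ((2, 1, 3), 1, 5, 0),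
    ((3, 2, 6), 0, 1, 6), ((4, 0, 5), 0, 4, 2), ((5, 4, 8), 2, 0, 3), ((6, 3, 7), 6, 0, 3),
    ((7, 1, 6), 3, 5, 6), ((8, 5, 9), 3, 2, 7), ((9, 1, 8), 7, 5, 3)]
  Tc := []
  Td := [((1, 4), (2, 1), 5), ((1, 4), (2, 3), 0), ((2, 6), (5, 4), 0), ((2, 6), (5, 8), 3), ((4,
    1), (0, 1), 5), ((4, 1), (0, 4), 0), ((6, 2), (6, 3), 0), ((6, 2), (6, 7), 3)]
  G := [[0, 0x21f164824f4a842421f4e82e, 0, 0x2128e1e482424e1e842178a424b168cd,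
    0x48e148e2842e242e844178c2b142cd], [0, 0x24e59a4828e95684229e19a42e, 0,
    0x71e8a48214b56842878a424b468cd, 0x41e1c28469e8c2448e19c2a9348cd], [0, 0,
    0xe8148e418418121268f4141412a4f8cd, 0x2121f1e4824f124b842878a4214b82ccd,
    0xb14152841f148d244878c2b248cd], [0, 0, 0xc6a148ca61845478c232b468cd,
    0x229a59a4822c6956842878a424b468cd, 0xa3941528463f8c244878c2a9348cd]]

noncomputable def n1432 : Ent := ⟨e1432, noF, [], [], []⟩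

def c1432 : PLift (Cov.check n1432.C.D v1432 = true) := ⟨by decide +kernel⟩

def b1432 : PLift (entF (fidx ts) 400 1432 n1432 = true) := ⟨by decide +kernel⟩

theorem g1432 : GoodF (fidx ts) 400 1432 := GoodF.ofV v1432 n1432 c1432.down b1432.down

/-- 467547:1138/2 -/
noncomputable def e1433 : SCfg where
  D := {
    a := 6
    L := 10
    kp := 7
    inn := [(0, 1), (1, 0), (1, 2), (2, 1), (2, 3), (2, 4), (2, 5), (3, 2), (3, 5), (4, 2), (4, 5), (5,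
      2), (5, 3), (5, 4)]
    mix := [(0, 0), (0, 1), (0, 2), (1, 0), (1, 2), (1, 3), (1, 4), (2, 3), (2, 4), (2, 5), (3, 3), (3,
      6), (3, 7), (4, 5), (4, 8), (5, 1), (5, 7), (5, 8), (5, 9)]
    cl := [1, 5, 4, 0, 0, 2, 6, 3, 3, 7]
    chq := [(1, 4), (2, 6), (4, 1), (6, 2)]
    rng := [(0, 1), (0, 4), (1, 0), (1, 2), (1, 8), (1, 9), (2, 1), (2, 3), (3, 2), (3, 6), (4, 0), (4,
      5), (5, 4), (5, 8), (6, 3), (6, 7), (7, 6), (7, 9), (8, 1), (8, 5), (9, 1), (9, 7)]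
    lev := [] }
  links := [[1, 6, 7, 8], [6, 0, 8, 9, 2, 10], [10, 1, 9, 3, 5, 4, 11], [5, 2, 9, 12, 13], [11, 2, 5,
    14], [14, 4, 2, 3, 13, 15, 7]]
  P := {
    a := 6
    N := 16
    nb := [450, 1861, 3642, 12836, 18468, 57500, 1155, 49505, 643, 4366, 2118, 17428, 8712, 36904,
      2224, 8352]
    tri := [(0, 1, 6), (0, 1, 8), (0, 6, 7), (0, 7, 8), (1, 2, 9), (1, 2, 10), (1, 6, 10), (1, 8, 9),
      (2, 3, 5), (2, 3, 9), (2, 4, 5), (2, 4, 11), (2, 10, 11), (3, 5, 13), (3, 9, 12), (3, 12,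
      13), (4, 5, 14), (4, 11, 14), (5, 7, 14), (5, 7, 15), (5, 13, 15)]
    fin := [0, 1, 2, 2, 2, 5, 0, 7, 8, 1, 1, 11, 2, 5, 5, 15]
    chd := [(0, 8), (11, 2)]
    steps := [(0, 6), (1, 9), (1, 10), (2, 3), (2, 4), (2, 12), (5, 13), (5, 14)] }
  rep := [1, 0, 11, 5, 8, 7, 2, 15]

noncomputable def v1433 : Cov.CovD where
  P := 3
  N := 5
  pl := [1, 9]
  lev := [⟨[], [], [(1, 4)], [5], [(0, 1, [4]), (2, 4, [1])]⟩,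
    ⟨[], [(0, 0), (0, 1), (0, 4)], [(0, 0), (0, 1), (0, 4), (1, 4)], [], [(0, 1, [4]), (2,
      4, [1]), (3, 0, []), (4, 0, [])]⟩,
    ⟨[(0, 1)], [(1, 0), (1, 1), (1, 2), (1, 4)], [(0, 0), (0, 2)], [], [(3, 0, []), (4, 0,
      []), (5, 2, [6])]⟩,
    ⟨[(1, 2)], [(1, 0), (2, 0), (2, 2), (2, 3), (2, 6)], [(0, 3), (0, 6), (3, 6)], [], [(3,
      0, []), (6, 6, [2]), (7, 3, [])]⟩,
    ⟨[(1, 2), (2, 3)], [(2, 0), (2, 2), (2, 3)], [(2, 3)], [], [(5, 2, [6]), (8, 3, [])]⟩,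
    ⟨[(1, 2), (2, 3), (2, 4), (3, 4)], [(2, 0), (2, 2), (2, 3), (3, 0), (3, 3), (3, 6), (4,
      2), (4, 3)], [(3, 3)], [5, 7], [(7, 3, []), (8, 3, [])]⟩]
  Ta := [((3, 2), 0, 4), ((3, 6), 0, 6), ((4, 0), 0, 1), ((4, 5), 0, 2), ((7, 6), 3, 6), ((7, 9),
    3, 7), ((8, 1), 3, 5), ((8, 5), 3, 2)]
  Tb := [((0, 1, 4), 1, 5, 0), ((1, 0, 2), 5, 1, 4), ((1, 0, 8), 5, 1, 3), ((1, 0, 9), 5, 1, 7),
    ((1, 2, 8), 5, 4, 3), ((1, 2, 9), 5, 4, 7), ((1, 8, 9), 5, 3, 7), ((2, 1, 3), 4, 5, 0),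
    ((3, 2, 6), 0, 4, 6), ((4, 0, 5), 0, 1, 2), ((5, 4, 8), 2, 0, 3), ((6, 3, 7), 6, 0, 3),
    ((7, 6, 9), 3, 6, 7), ((8, 1, 5), 3, 5, 2), ((9, 1, 7), 7, 5, 3)]
  Tc := []
  Td := [((1, 4), (0, 1), 5), ((1, 4), (0, 4), 0), ((2, 6), (5, 4), 0), ((2, 6), (5, 8), 3), ((4,
    1), (2, 1), 5), ((4, 1), (2, 3), 0), ((6, 2), (6, 3), 0), ((6, 2), (6, 7), 3)]
  G := [[0, 0, 0, 0x2128f8e482124f1e842871a421b468cd, 0x48f141e2841f148e244178c2b248cd], [0, 0,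
    0, 0x234df8a483a9f46846352288c24a9568cd, 0x41a79c28463f8c24443619c2a3942cd], [0,
    0x28f864821f1a842124f4e82e, 0xe4128e412412181868f4121414a4f8cd,
    0xe1148e418421f8a424f168cd, 0xe1128e812448f1c241f1c8cd], [0,
    0x24e59a48243dca178428c156248c2e, 0xa21c4168a6c1243278a4129822b4cd,
    0xc861348c4a138422561568244a392ccd, 0xa861528683443684613442419aa9348cd]]

noncomputable def n1433 : Ent := ⟨e1433, noF, [], [], []⟩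

def c1433 : PLift (Cov.check n1433.C.D v1433 = true) := ⟨by decide +kernel⟩

def b1433 : PLift (entF (fidx ts) 400 1433 n1433 = true) := ⟨by decide +kernel⟩

theorem g1433 : GoodF (fidx ts) 400 1433 := GoodF.ofV v1433 n1433 c1433.down b1433.down

/-- 467547:1138/3 -/
noncomputable def e1434 : SCfg where
  D := {
    a := 6
    L := 10
    kp := 7
    inn := [(0, 1), (1, 0), (1, 2), (2, 1), (2, 3), (2, 4), (2, 5), (3, 2), (3, 5), (4, 2), (4, 5), (5,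
      2), (5, 3), (5, 4)]
    mix := [(0, 0), (0, 1), (0, 2), (1, 0), (1, 2), (1, 3), (1, 4), (2, 3), (2, 4), (2, 5), (3, 3), (3,
      6), (3, 7), (4, 1), (4, 5), (5, 1), (5, 7), (5, 8), (5, 9)]
    cl := [1, 0, 2, 1, 3, 4, 5, 0, 6, 7]
    chq := [(0, 3), (3, 0), (3, 5), (5, 3)]
    rng := [(0, 1), (0, 4), (1, 0), (1, 2), (1, 5), (1, 9), (2, 1), (2, 3), (3, 2), (3, 6), (4, 0), (4,
      5), (5, 1), (5, 4), (6, 3), (6, 7), (7, 6), (7, 8), (8, 7), (8, 9), (9, 1), (9, 8)]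
    lev := [] }
  links := [[1, 6, 7, 8], [6, 0, 8, 9, 2, 10], [10, 1, 9, 3, 5, 4, 11], [5, 2, 9, 12, 13], [11, 2, 5, 7],
    [7, 4, 2, 3, 13, 14, 15]]
  P := {
    a := 6
    N := 16
    nb := [450, 1861, 3642, 12836, 2212, 57500, 1155, 35185, 643, 4366, 2118, 1172, 8712, 20520,
      40992, 16544]
    tri := [(0, 1, 6), (0, 1, 8), (0, 6, 7), (0, 7, 8), (1, 2, 9), (1, 2, 10), (1, 6, 10), (1, 8, 9),
      (2, 3, 5), (2, 3, 9), (2, 4, 5), (2, 4, 11), (2, 10, 11), (3, 5, 13), (3, 9, 12), (3, 12,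
      13), (4, 5, 7), (4, 7, 11), (5, 7, 15), (5, 13, 14), (5, 14, 15)]
    fin := [0, 0, 2, 3, 4, 4, 0, 4, 8, 0, 2, 11, 3, 4, 14, 15]
    chd := [(2, 3), (4, 2)]
    steps := [(0, 1), (0, 6), (0, 9), (2, 10), (3, 12), (4, 5), (4, 7), (4, 13)] }
  rep := [4, 0, 8, 2, 11, 3, 14, 15]

noncomputable def v1434 : Cov.CovD where
  P := 3
  N := 5
  pl := [2, 5, 8, 9]
  lev := [⟨[], [], [(0, 1)], [2], [(0, 1, []), (1, 0, [3])]⟩,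
    ⟨[], [(0, 0), (0, 1), (0, 3)], [(1, 1), (1, 3)], [2], [(0, 1, []), (3, 1, []), (4, 3,
      [0, 5])]⟩,
    ⟨[(0, 1)], [(1, 1), (1, 3)], [(1, 3)], [4], [(3, 1, []), (4, 3, [0, 5])]⟩,
    ⟨[(1, 2)], [(1, 1), (2, 0), (2, 1), (2, 3), (2, 5)], [(0, 1), (0, 5), (1, 5)], [], [(3,
      1, []), (6, 5, [3]), (7, 0, [3])]⟩,
    ⟨[(1, 2), (2, 3)], [(0, 0), (2, 0), (2, 1), (2, 3)], [], [4], [(1, 0, [3])]⟩,
    ⟨[(1, 2), (2, 3), (2, 4), (3, 4)], [(0, 0), (2, 0), (2, 1), (2, 3), (3, 0), (3, 1), (3,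
      5), (4, 0)], [(0, 0)], [6, 7], [(1, 0, [3]), (7, 0, [3])]⟩]
  Ta := [((0, 1), 1, 0), ((0, 4), 1, 3), ((1, 0), 0, 1), ((1, 2), 0, 2), ((1, 5), 0, 4), ((1, 9),
    0, 7), ((3, 2), 1, 2), ((3, 6), 1, 5), ((7, 6), 0, 5), ((7, 8), 0, 6)]
  Tb := [((0, 1, 4), 1, 0, 3), ((1, 0, 2), 0, 1, 2), ((1, 0, 5), 0, 1, 4), ((1, 0, 9), 0, 1, 7),
    ((1, 2, 5), 0, 2, 4), ((1, 2, 9), 0, 2, 7), ((1, 5, 9), 0, 4, 7), ((2, 1, 3), 2, 0, 1),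
    ((3, 2, 6), 1, 2, 5), ((4, 0, 5), 3, 1, 4), ((5, 1, 4), 4, 0, 3), ((6, 3, 7), 5, 1, 0),
    ((7, 6, 8), 0, 5, 6), ((8, 7, 9), 6, 0, 7), ((9, 1, 8), 7, 0, 6)]
  Tc := [(3, 0, 5)]
  Td := [((0, 3), (1, 0), 1), ((0, 3), (1, 2), 2), ((0, 3), (1, 5), 4), ((0, 3), (1, 9), 7), ((0,
    3), (7, 6), 5), ((0, 3), (7, 8), 6), ((3, 0), (4, 0), 1), ((3, 0), (4, 5), 4), ((3, 5),
    (4, 0), 1), ((3, 5), (4, 5), 4), ((5, 3), (6, 3), 1), ((5, 3), (6, 7), 0)]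
  G := [[0, 0xeea4461ee681c4, 0xeea412eac8a1c8, 0, 0x68a14a4d122a4c2ed18], [0, 0,
    0xea4e41ee681c2, 0x68a1c2ce1e28e6cd18, 0x68a1a4614ea8eacd18], [0, 0, 0, 0,
    0xa45828c8a5128a264c6e189], [0, 0, 0, 0x6ace416e8e81c1, 0x68eeeeac1ee68192]]

noncomputable def n1434 : Ent := ⟨e1434, noF, [], [], []⟩

def c1434 : PLift (Cov.check n1434.C.D v1434 = true) := ⟨by decide +kernel⟩

def b1434 : PLift (entF (fidx ts) 400 1434 n1434 = true) := ⟨by decide +kernel⟩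

theorem g1434 : GoodF (fidx ts) 400 1434 := GoodF.ofV v1434 n1434 c1434.down b1434.down

/-- 467547:1138 -/
noncomputable def e1435 : SCfg where
  D := {
    a := 6
    L := 11
    kp := 8
    inn := [(0, 1), (1, 0), (1, 2), (2, 1), (2, 3), (2, 4), (2, 5), (3, 2), (3, 5), (4, 2), (4, 5), (5,
      2), (5, 3), (5, 4)]
    mix := [(0, 0), (0, 1), (0, 2), (1, 0), (1, 2), (1, 3), (1, 4), (2, 3), (2, 4), (2, 5), (3, 3), (3,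
      6), (3, 7), (4, 5), (4, 8), (5, 7), (5, 8), (5, 9), (5, 10)]
    cl := [4, 6, 1, 0, 0, 2, 5, 3, 3, 7, 8]
    chq := [(1, 4), (2, 5), (4, 1), (5, 2)]
    rng := [(0, 1), (0, 4), (1, 0), (1, 2), (2, 1), (2, 3), (3, 2), (3, 6), (4, 0), (4, 5), (5, 4), (5,
      8), (6, 3), (6, 7), (7, 6), (7, 9), (8, 5), (8, 10), (9, 7), (9, 10), (10, 8), (10, 9)]
    lev := [] }
  links := [[1, 6, 7, 8], [6, 0, 8, 9, 2, 10], [10, 1, 9, 3, 5, 4, 11], [5, 2, 9, 12, 13], [11, 2, 5,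
    14], [14, 4, 2, 3, 13, 15, 16]]
  P := {
    a := 6
    N := 17
    nb := [450, 1861, 3642, 12836, 18468, 122908, 1155, 321, 643, 4366, 2118, 17428, 8712, 36904,
      67632, 73760, 49184]
    tri := [(0, 1, 6), (0, 1, 8), (0, 6, 7), (0, 7, 8), (1, 2, 9), (1, 2, 10), (1, 6, 10), (1, 8, 9),
      (2, 3, 5), (2, 3, 9), (2, 4, 5), (2, 4, 11), (2, 10, 11), (3, 5, 13), (3, 9, 12), (3, 12,
      13), (4, 5, 14), (4, 11, 14), (5, 13, 15), (5, 14, 16), (5, 15, 16)]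
    fin := [0, 1, 2, 2, 2, 5, 0, 7, 8, 1, 1, 11, 2, 5, 5, 15, 16]
    chd := [(0, 8), (11, 2)]
    steps := [(0, 6), (1, 9), (1, 10), (2, 3), (2, 4), (2, 12), (5, 13), (5, 14)] }
  rep := [1, 8, 11, 5, 0, 2, 7, 15, 16]

noncomputable def v1435 : Cov.CovD where
  P := 3
  N := 6
  pl := [1, 9, 10]
  lev := [⟨[], [], [(1, 4)], [6], [(0, 4, [1]), (2, 1, [4])]⟩,
    ⟨[], [(0, 0), (0, 1), (0, 4)], [(0, 0), (0, 1), (0, 4), (1, 4)], [], [(0, 4, [1]), (2,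
      1, [4]), (3, 0, []), (4, 0, [])]⟩,
    ⟨[(0, 1)], [(1, 0), (1, 1), (1, 2), (1, 4)], [(0, 0), (0, 2)], [], [(3, 0, []), (4, 0,
      []), (5, 2, [5])]⟩,
    ⟨[(1, 2)], [(1, 0), (2, 0), (2, 2), (2, 3), (2, 5)], [(0, 3), (0, 5), (3, 5)], [], [(3,
      0, []), (6, 5, [2]), (7, 3, [])]⟩,
    ⟨[(1, 2), (2, 3)], [(2, 0), (2, 2), (2, 3)], [(2, 3)], [], [(5, 2, [5]), (8, 3, [])]⟩,
    ⟨[(1, 2), (2, 3), (2, 4), (3, 4)], [(2, 0), (2, 2), (2, 3), (3, 0), (3, 3), (3, 5), (4,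
      2), (4, 3)], [(3, 3)], [7, 8], [(7, 3, []), (8, 3, [])]⟩]
  Ta := [((3, 2), 0, 1), ((3, 6), 0, 5), ((4, 0), 0, 4), ((4, 5), 0, 2), ((7, 6), 3, 5), ((7, 9),
    3, 7), ((8, 5), 3, 2), ((8, 10), 3, 8)]
  Tb := [((0, 1, 4), 4, 6, 0), ((1, 0, 2), 6, 4, 1), ((2, 1, 3), 1, 6, 0), ((3, 2, 6), 0, 1, 5),
    ((4, 0, 5), 0, 4, 2), ((5, 4, 8), 2, 0, 3), ((6, 3, 7), 5, 0, 3), ((7, 6, 9), 3, 5, 7),
    ((8, 5, 10), 3, 2, 8), ((9, 7, 10), 7, 3, 8), ((10, 8, 9), 8, 3, 7)]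
  Tc := []
  Td := [((1, 4), (2, 1), 6), ((1, 4), (2, 3), 0), ((2, 5), (5, 4), 0), ((2, 5), (5, 8), 3), ((4,
    1), (0, 1), 6), ((4, 1), (0, 4), 0), ((5, 2), (6, 3), 0), ((5, 2), (6, 7), 3)]
  G := [[0, 0x2821f8e482124f4e842828f8e42e, 0, 0x2821f8e482124f1e842821f8e42124f4e8cd,
    0x48f841e2841f848e2441f141e242f242e8cd], [0, 0x279f8a48229e956842b9f4682e, 0,
    0x279f8a48229e95684235746882c225e9568cd, 0x479f8c28e9344a68444ae39c2543f29c2cd], [0, 0,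
    0x141814e8f28141418e4f24181814e8f2121214e2f8cd, 0x2128f1e4824f421b8421f1287424f124b8cd,
    0xf8414172848f141e2448f141d241f142e8cd], [0, 0,
    0x52d8a2b481418a6cd241422392c45ab234c478cd, 0x28e1961b48229e95684365f8a42454621b8accd,
    0x443e39c28f1a4861724213444ac8ca473f8c2cd]]

noncomputable def n1435 : Ent := ⟨e1435, noF, [], [], [(7, 15, [1685356702439545624007900436039642273970977273354372543760005955585, 0]), (7, 16, [1580044410770988437309982408355971841652082177953823432505694982145, 0]), (7, 14, [1685382413448253767852309107433119732572617628602273068445370785793, 0])]⟩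

def c1435 : PLift (Cov.check n1435.C.D v1435 = true) := ⟨by decide +kernel⟩

def b1435 : PLift (entF (fidx ts) 400 1435 n1435 = true) := ⟨by decide +kernel⟩

theorem g1435 : GoodF (fidx ts) 400 1435 := GoodF.ofV v1435 n1435 c1435.down b1435.down

/-- 466574:1139/2 -/
noncomputable def e1436 : SCfg where
  D := {
    a := 6
    L := 9
    kp := 6
    inn := [(0, 1), (1, 0), (1, 2), (2, 1), (2, 3), (2, 4), (3, 2), (3, 4), (4, 2), (4, 3), (4, 5), (5,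
      4)]
    mix := [(0, 0), (0, 1), (0, 2), (1, 0), (1, 2), (1, 3), (1, 4), (2, 3), (2, 4), (2, 5), (3, 3), (3,
      6), (3, 7), (4, 1), (4, 5), (4, 7), (4, 8), (5, 0), (5, 1), (5, 7)]
    cl := [1, 4, 5, 0, 0, 2, 6, 3, 3]
    chq := [(0, 4), (2, 6), (4, 0), (6, 2)]
    rng := [(0, 1), (0, 4), (0, 7), (1, 0), (1, 2), (1, 8), (2, 1), (2, 3), (3, 2), (3, 6), (4, 0), (4,
      5), (5, 4), (5, 8), (6, 3), (6, 7), (7, 0), (7, 6), (8, 1), (8, 5)]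
    lev := [] }
  links := [[1, 6, 7, 8], [6, 0, 8, 9, 2, 10], [10, 1, 9, 3, 4, 11], [4, 2, 9, 12, 13], [11, 2, 3, 13, 5,
    7, 14], [7, 4, 13, 6]]
  P := {
    a := 6
    N := 15
    nb := [450, 1861, 3610, 12820, 26796, 8400, 9379, 16753, 643, 4366, 2118, 17428, 8712, 4216, 2192]
    tri := [(0, 1, 6), (0, 1, 8), (0, 6, 7), (0, 7, 8), (1, 2, 9), (1, 2, 10), (1, 6, 10), (1, 8, 9),
      (2, 3, 4), (2, 3, 9), (2, 4, 11), (2, 10, 11), (3, 4, 13), (3, 9, 12), (3, 12, 13), (4, 5,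
      7), (4, 5, 13), (4, 7, 14), (4, 11, 14), (5, 6, 7), (5, 6, 13)]
    fin := [0, 1, 2, 2, 4, 5, 5, 0, 8, 1, 1, 11, 2, 4, 4]
    chd := [(0, 1), (11, 2)]
    steps := [(0, 7), (1, 9), (1, 10), (2, 3), (2, 12), (4, 13), (4, 14), (5, 6)] }
  rep := [1, 5, 11, 4, 0, 8, 2]

noncomputable def v1436 : Cov.CovD where
  P := 3
  N := 4
  pl := [0, 2]
  lev := [⟨[], [], [], [1, 5], [(1, 4, [0])]⟩,
    ⟨[], [(0, 0), (0, 4)], [(0, 0)], [1, 5], [(3, 0, [4]), (4, 0, [4])]⟩,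
    ⟨[(0, 1)], [(1, 0), (1, 2)], [(0, 0), (0, 2)], [], [(3, 0, [4]), (4, 0, [4]), (5, 2,
      [6])]⟩,
    ⟨[(1, 2)], [(1, 0), (2, 0), (2, 2), (2, 3), (2, 6)], [(0, 3), (0, 6), (3, 6)], [], [(3,
      0, [4]), (6, 6, [2]), (7, 3, [])]⟩,
    ⟨[(1, 2), (2, 3)], [(0, 4), (2, 0), (2, 2), (2, 3), (2, 4), (3, 0), (3, 2), (3, 3), (3,
      4), (3, 6)], [(2, 3), (2, 4), (3, 3), (3, 4)], [], [(1, 4, [0]), (5, 2, [6]), (7, 3,
      []), (8, 3, [])]⟩,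
    ⟨[(2, 4), (3, 4)], [(0, 4), (3, 3), (4, 2), (4, 3), (4, 4)], [(3, 4)], [1], [(1, 4,
      [0]), (7, 3, [])]⟩]
  Ta := [((3, 2), 0, 5), ((3, 6), 0, 6), ((4, 0), 0, 1), ((4, 5), 0, 2), ((7, 0), 3, 1), ((7, 6),
    3, 6), ((8, 1), 3, 4), ((8, 5), 3, 2)]
  Tb := [((0, 1, 4), 1, 4, 0), ((0, 1, 7), 1, 4, 3), ((0, 4, 7), 1, 0, 3), ((1, 0, 2), 4, 1, 5),
    ((1, 0, 8), 4, 1, 3), ((1, 2, 8), 4, 5, 3), ((2, 1, 3), 5, 4, 0), ((3, 2, 6), 0, 5, 6),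
    ((4, 0, 5), 0, 1, 2), ((5, 4, 8), 2, 0, 3), ((6, 3, 7), 6, 0, 3), ((7, 0, 6), 3, 1, 6),
    ((8, 1, 5), 3, 4, 2)]
  Tc := []
  Td := [((0, 4), (3, 2), 5), ((0, 4), (3, 6), 6), ((0, 4), (4, 0), 1), ((0, 4), (4, 5), 2), ((2,
    6), (5, 4), 0), ((2, 6), (5, 8), 3), ((4, 0), (1, 0), 1), ((4, 0), (1, 2), 5), ((4, 0),
    (1, 8), 3), ((6, 2), (6, 3), 0), ((6, 2), (6, 7), 3)]
  G := [[0, 0, 0, 0x8192484152844152881924cd, 0x8194284434844434281a42cd], [0, 0, 0,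
    0x8892484452841152411928cd, 0x18942811a484124218348cd], [0, 0xe1248e128421282e,
    0x141e12111e18c1, 0x4428192c4428192cc1, 0x841b42841b42c1], [0, 0x8124841284214218c2e,
    0x181e14111e18c1, 0x4152882c4152882cc1, 0x198b42841b42c1]]

noncomputable def n1436 : Ent := ⟨e1436, noF, [], [], []⟩

def c1436 : PLift (Cov.check n1436.C.D v1436 = true) := ⟨by decide +kernel⟩

def b1436 : PLift (entF (fidx ts) 400 1436 n1436 = true) := ⟨by decide +kernel⟩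

theorem g1436 : GoodF (fidx ts) 400 1436 := GoodF.ofV v1436 n1436 c1436.down b1436.down

/-- 466574:1139/1 -/
noncomputable def e1437 : SCfg where
  D := {
    a := 6
    L := 10
    kp := 7
    inn := [(0, 1), (1, 0), (1, 2), (2, 1), (2, 3), (2, 4), (3, 2), (3, 4), (4, 2), (4, 3), (4, 5), (5,
      4)]
    mix := [(0, 0), (0, 1), (0, 2), (1, 0), (1, 2), (1, 3), (1, 4), (2, 3), (2, 4), (2, 5), (3, 3), (3,
      6), (3, 7), (4, 5), (4, 7), (4, 8), (4, 9), (5, 0), (5, 7), (5, 8)]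
    cl := [4, 6, 2, 0, 0, 1, 7, 3, 5, 3]
    chq := [(0, 6), (1, 7), (6, 0), (7, 1)]
    rng := [(0, 1), (0, 4), (0, 7), (0, 8), (1, 0), (1, 2), (2, 1), (2, 3), (3, 2), (3, 6), (4, 0), (4,
      5), (5, 4), (5, 9), (6, 3), (6, 7), (7, 0), (7, 6), (8, 0), (8, 9), (9, 5), (9, 8)]
    lev := [] }
  links := [[1, 6, 7, 8], [6, 0, 8, 9, 2, 10], [10, 1, 9, 3, 4, 11], [4, 2, 9, 12, 13], [11, 2, 3, 13, 5,
    14, 15], [14, 4, 13, 6]]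
  P := {
    a := 6
    N := 16
    nb := [450, 1861, 3610, 12820, 59436, 24656, 25763, 321, 643, 4366, 2118, 33812, 8712, 4216,
      32880, 18448]
    tri := [(0, 1, 6), (0, 1, 8), (0, 6, 7), (0, 7, 8), (1, 2, 9), (1, 2, 10), (1, 6, 10), (1, 8, 9),
      (2, 3, 4), (2, 3, 9), (2, 4, 11), (2, 10, 11), (3, 4, 13), (3, 9, 12), (3, 12, 13), (4, 5,
      13), (4, 5, 14), (4, 11, 15), (4, 14, 15), (5, 6, 13), (5, 6, 14)]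
    fin := [0, 1, 2, 2, 4, 5, 5, 0, 8, 1, 1, 11, 2, 4, 14, 4]
    chd := [(0, 1), (11, 2)]
    steps := [(0, 7), (1, 9), (1, 10), (2, 3), (2, 12), (4, 13), (4, 15), (5, 6)] }
  rep := [1, 11, 8, 4, 5, 14, 0, 2]

noncomputable def v1437 : Cov.CovD where
  P := 3
  N := 5
  pl := [0, 2, 8]
  lev := [⟨[], [], [], [2, 4], [(1, 6, [0])]⟩,
    ⟨[], [(0, 0), (0, 6)], [(0, 0)], [2, 4], [(3, 0, [6]), (4, 0, [6])]⟩,
    ⟨[(0, 1)], [(1, 0), (1, 1)], [(0, 0), (0, 1)], [], [(3, 0, [6]), (4, 0, [6]), (5, 1,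
      [7])]⟩,
    ⟨[(1, 2)], [(1, 0), (2, 0), (2, 1), (2, 3), (2, 7)], [(0, 3), (0, 7), (3, 7)], [], [(3,
      0, [6]), (6, 7, [1]), (7, 3, [])]⟩,
    ⟨[(1, 2), (2, 3)], [(2, 0), (2, 1), (2, 3), (3, 0), (3, 1), (3, 3), (3, 7)], [(1, 3),
      (3, 3)], [5], [(5, 1, [7]), (7, 3, []), (9, 3, [])]⟩,
    ⟨[(2, 4), (3, 4)], [(3, 3), (4, 1), (4, 3)], [], [4, 5], [(7, 3, [])]⟩]
  Ta := [((3, 2), 0, 2), ((3, 6), 0, 7), ((4, 0), 0, 4), ((4, 5), 0, 1), ((7, 0), 3, 4), ((7, 6),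
    3, 7), ((9, 5), 3, 1), ((9, 8), 3, 5)]
  Tb := [((0, 1, 4), 4, 6, 0), ((0, 1, 7), 4, 6, 3), ((0, 1, 8), 4, 6, 5), ((0, 4, 7), 4, 0, 3),
    ((0, 4, 8), 4, 0, 5), ((0, 7, 8), 4, 3, 5), ((1, 0, 2), 6, 4, 2), ((2, 1, 3), 2, 6, 0),
    ((3, 2, 6), 0, 2, 7), ((4, 0, 5), 0, 4, 1), ((5, 4, 9), 1, 0, 3), ((6, 3, 7), 7, 0, 3),
    ((7, 0, 6), 3, 4, 7), ((8, 0, 9), 5, 4, 3), ((9, 5, 8), 3, 1, 5)]
  Tc := []
  Td := [((0, 6), (3, 2), 2), ((0, 6), (3, 6), 7), ((0, 6), (4, 0), 4), ((0, 6), (4, 5), 1), ((1,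
    7), (5, 4), 0), ((1, 7), (5, 9), 3), ((6, 0), (1, 0), 4), ((6, 0), (1, 2), 2), ((7, 1),
    (6, 3), 0), ((7, 1), (6, 7), 3)]
  G := [[0, 0, 0x821d244428c8824241d28c6a1d282e, 0x821d24241d28c1, 0x6428192c241d28a1], [0, 0,
    0x891d248541d284691d242e, 0x892d24241d28c1, 0x891d24524d24a1], [0, 0x831e12142e18c1, 0,
    0xe1244e1284821d24241d28cd, 0xe12484a52826428192c241d28ab], [0, 0x8a1e12144e12c1, 0,
    0xc1248c1284891d24344d28cd, 0xc1242c1282891d24514d24ab]]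

noncomputable def n1437 : Ent := ⟨e1437, noF, [], [], [(7, 14, [385746751338780685620664494392815470296102193487288376378376193, 0])]⟩

def c1437 : PLift (Cov.check n1437.C.D v1437 = true) := ⟨by decide +kernel⟩

def b1437 : PLift (entF (fidx ts) 400 1437 n1437 = true) := ⟨by decide +kernel⟩

theorem g1437 : GoodF (fidx ts) 400 1437 := GoodF.ofV v1437 n1437 c1437.down b1437.down

/-- 466574:1139/3 -/
noncomputable def e1438 : SCfg where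
  D := {
    a := 6
    L := 10
    kp := 7
    inn := [(0, 1), (1, 0), (1, 2), (2, 1), (2, 3), (2, 4), (3, 2), (3, 4), (4, 2), (4, 3), (4, 5), (5,
      4)]
    mix := [(0, 0), (0, 1), (0, 2), (1, 0), (1, 2), (1, 3), (1, 4), (2, 3), (2, 4), (2, 5), (3, 3), (3,
      6), (3, 7), (4, 5), (4, 7), (4, 8), (4, 9), (5, 1), (5, 7), (5, 8)]
    cl := [4, 5, 1, 0, 0, 2, 7, 3, 6, 3]
    chq := [(1, 4), (2, 7), (4, 1), (7, 2)]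
    rng := [(0, 1), (0, 4), (1, 0), (1, 2), (1, 7), (1, 8), (2, 1), (2, 3), (3, 2), (3, 6), (4, 0), (4,
      5), (5, 4), (5, 9), (6, 3), (6, 7), (7, 1), (7, 6), (8, 1), (8, 9), (9, 5), (9, 8)]
    lev := [] }
  links := [[1, 6, 7, 8], [6, 0, 8, 9, 2, 10], [10, 1, 9, 3, 4, 11], [4, 2, 9, 12, 13], [11, 2, 3, 13, 5,
    14, 15], [14, 4, 13, 7]]
  P := {
    a := 6
    N := 16
    nb := [450, 1861, 3610, 12820, 59436, 24720, 1155, 24929, 643, 4366, 2118, 33812, 8712, 4280,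
      32944, 18448]
    tri := [(0, 1, 6), (0, 1, 8), (0, 6, 7), (0, 7, 8), (1, 2, 9), (1, 2, 10), (1, 6, 10), (1, 8, 9),
      (2, 3, 4), (2, 3, 9), (2, 4, 11), (2, 10, 11), (3, 4, 13), (3, 9, 12), (3, 12, 13), (4, 5,
      13), (4, 5, 14), (4, 11, 15), (4, 14, 15), (5, 7, 13), (5, 7, 14)]
    fin := [0, 1, 2, 2, 4, 5, 0, 5, 8, 1, 1, 11, 2, 4, 14, 4]
    chd := [(0, 8), (11, 2)]
    steps := [(0, 6), (1, 9), (1, 10), (2, 3), (2, 12), (4, 13), (4, 15), (5, 7)] }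
  rep := [1, 8, 11, 4, 0, 5, 14, 2]

noncomputable def v1438 : Cov.CovD where
  P := 3
  N := 5
  pl := [1, 8]
  lev := [⟨[], [], [(1, 4)], [5], [(0, 4, [1]), (2, 1, [4])]⟩,
    ⟨[], [(0, 0), (0, 1), (0, 4)], [(0, 0), (0, 1), (0, 4), (1, 4)], [], [(0, 4, [1]), (2,
      1, [4]), (3, 0, []), (4, 0, [])]⟩,
    ⟨[(0, 1)], [(1, 0), (1, 1), (1, 2), (1, 4)], [(0, 0), (0, 2)], [], [(3, 0, []), (4, 0,
      []), (5, 2, [7])]⟩,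
    ⟨[(1, 2)], [(1, 0), (2, 0), (2, 2), (2, 3), (2, 7)], [(0, 3), (0, 7), (3, 7)], [], [(3,
      0, []), (6, 7, [2]), (7, 3, [])]⟩,
    ⟨[(1, 2), (2, 3)], [(2, 0), (2, 2), (2, 3), (3, 0), (3, 2), (3, 3), (3, 7)], [(2, 3),
      (3, 3)], [6], [(5, 2, [7]), (7, 3, []), (9, 3, [])]⟩,
    ⟨[(2, 4), (3, 4)], [(3, 3), (4, 2), (4, 3)], [], [5, 6], [(7, 3, [])]⟩]
  Ta := [((3, 2), 0, 1), ((3, 6), 0, 7), ((4, 0), 0, 4), ((4, 5), 0, 2), ((7, 1), 3, 5), ((7, 6),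
    3, 7), ((9, 5), 3, 2), ((9, 8), 3, 6)]
  Tb := [((0, 1, 4), 4, 5, 0), ((1, 0, 2), 5, 4, 1), ((1, 0, 7), 5, 4, 3), ((1, 0, 8), 5, 4, 6),
    ((1, 2, 7), 5, 1, 3), ((1, 2, 8), 5, 1, 6), ((1, 7, 8), 5, 3, 6), ((2, 1, 3), 1, 5, 0),
    ((3, 2, 6), 0, 1, 7), ((4, 0, 5), 0, 4, 2), ((5, 4, 9), 2, 0, 3), ((6, 3, 7), 7, 0, 3),
    ((7, 1, 6), 3, 5, 7), ((8, 1, 9), 6, 5, 3), ((9, 5, 8), 3, 2, 6)]
  Tc := []
  Td := [((1, 4), (2, 1), 5), ((1, 4), (2, 3), 0), ((2, 7), (5, 4), 0), ((2, 7), (5, 9), 3), ((4,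
    1), (0, 1), 5), ((4, 1), (0, 4), 0), ((7, 2), (6, 3), 0), ((7, 2), (6, 7), 3)]
  G := [[0, 0x821d244428a241d28882462e1d282e, 0, 0x826d24824ad2844422192c2152882ccd,
    0x846b42842cb4842134484a6248194acd], [0, 0x891d248541d2842d1d282e, 0,
    0x896d24844cd284521d241a1d28cd, 0x886b42842cb4841134684a891b42cd], [0, 0,
    0x82a15416822184c1a4341e12193e18cd, 0x827d24824bd2844152282c2428192ccd,
    0x847b422248c52cb4842244194a6134884acd], [0, 0, 0x8a2e148642e184123e14831e12cd,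
    0x8a7d24854ad284511d24291d28cd, 0x89ab42832ab4842134484a891b42cd]]

noncomputable def n1438 : Ent := ⟨e1438, noF, [], [], []⟩

def c1438 : PLift (Cov.check n1438.C.D v1438 = true) := ⟨by decide +kernel⟩

def b1438 : PLift (entF (fidx ts) 400 1438 n1438 = true) := ⟨by decide +kernel⟩

theorem g1438 : GoodF (fidx ts) 400 1438 := GoodF.ofV v1438 n1438 c1438.down b1438.down

/-- 466574:1139/4 -/
noncomputable def e1439 : SCfg where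
  D := {
    a := 6
    L := 10
    kp := 7
    inn := [(0, 1), (1, 0), (1, 2), (2, 1), (2, 3), (2, 4), (3, 2), (3, 4), (4, 2), (4, 3), (4, 5), (5,
      4)]
    mix := [(0, 0), (0, 1), (0, 2), (1, 0), (1, 2), (1, 3), (1, 4), (2, 3), (2, 4), (2, 5), (3, 3), (3,
      6), (3, 7), (4, 1), (4, 5), (4, 7), (4, 8), (5, 1), (5, 7), (5, 9)]
    cl := [2, 4, 5, 0, 0, 1, 6, 3, 3, 7]
    chq := [(0, 4), (1, 6), (4, 0), (6, 1)]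
    rng := [(0, 1), (0, 4), (1, 0), (1, 2), (1, 8), (1, 9), (2, 1), (2, 3), (3, 2), (3, 6), (4, 0), (4,
      5), (5, 4), (5, 8), (6, 3), (6, 7), (7, 6), (7, 9), (8, 1), (8, 5), (9, 1), (9, 7)]
    lev := [] }
  links := [[1, 6, 7, 8], [6, 0, 8, 9, 2, 10], [10, 1, 9, 3, 4, 11], [4, 2, 9, 12, 13], [11, 2, 3, 13, 5,
    7, 14], [7, 4, 13, 15]]
  P := {
    a := 6
    N := 16
    nb := [450, 1861, 3610, 12820, 26796, 41104, 1155, 49521, 643, 4366, 2118, 17428, 8712, 36920,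
      2192, 8352]
    tri := [(0, 1, 6), (0, 1, 8), (0, 6, 7), (0, 7, 8), (1, 2, 9), (1, 2, 10), (1, 6, 10), (1, 8, 9),
      (2, 3, 4), (2, 3, 9), (2, 4, 11), (2, 10, 11), (3, 4, 13), (3, 9, 12), (3, 12, 13), (4, 5,
      7), (4, 5, 13), (4, 7, 14), (4, 11, 14), (5, 7, 15), (5, 13, 15)]
    fin := [0, 1, 2, 2, 4, 0, 6, 0, 8, 1, 1, 11, 2, 4, 4, 15]
    chd := [(0, 1), (11, 2)]
    steps := [(0, 7), (0, 5), (1, 9), (1, 10), (2, 3), (2, 12), (4, 13), (4, 14)] }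
  rep := [1, 11, 6, 4, 0, 8, 2, 15]

noncomputable def v1439 : Cov.CovD where
  P := 3
  N := 5
  pl := [0, 2, 9]
  lev := [⟨[], [], [], [2, 5], [(1, 4, [0])]⟩,
    ⟨[], [(0, 0), (0, 4)], [(0, 0)], [2, 5], [(3, 0, [4]), (4, 0, [4])]⟩,
    ⟨[(0, 1)], [(1, 0), (1, 1)], [(0, 0), (0, 1)], [], [(3, 0, [4]), (4, 0, [4]), (5, 1,
      [6])]⟩,
    ⟨[(1, 2)], [(1, 0), (2, 0), (2, 1), (2, 3), (2, 6)], [(0, 3), (0, 6), (3, 6)], [], [(3,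
      0, [4]), (6, 6, [1]), (7, 3, [])]⟩,
    ⟨[(1, 2), (2, 3)], [(0, 4), (2, 0), (2, 1), (2, 3), (2, 4), (3, 0), (3, 1), (3, 3), (3,
      4), (3, 6)], [(1, 3), (1, 4), (3, 3), (3, 4)], [], [(1, 4, [0]), (5, 1, [6]), (7, 3,
      []), (8, 3, [])]⟩,
    ⟨[(2, 4), (3, 4)], [(0, 4), (3, 3), (4, 1), (4, 3), (4, 4)], [(3, 4)], [7], [(1, 4,
      [0]), (7, 3, [])]⟩]
  Ta := [((3, 2), 0, 5), ((3, 6), 0, 6), ((4, 0), 0, 2), ((4, 5), 0, 1), ((7, 6), 3, 6), ((7, 9),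
    3, 7), ((8, 1), 3, 4), ((8, 5), 3, 1)]
  Tb := [((0, 1, 4), 2, 4, 0), ((1, 0, 2), 4, 2, 5), ((1, 0, 8), 4, 2, 3), ((1, 0, 9), 4, 2, 7),
    ((1, 2, 8), 4, 5, 3), ((1, 2, 9), 4, 5, 7), ((1, 8, 9), 4, 3, 7), ((2, 1, 3), 5, 4, 0),
    ((3, 2, 6), 0, 5, 6), ((4, 0, 5), 0, 2, 1), ((5, 4, 8), 1, 0, 3), ((6, 3, 7), 6, 0, 3),
    ((7, 6, 9), 3, 6, 7), ((8, 1, 5), 3, 4, 1), ((9, 1, 7), 7, 4, 3)]
  Tc := []
  Td := [((0, 4), (3, 2), 5), ((0, 4), (3, 6), 6), ((0, 4), (4, 0), 2), ((0, 4), (4, 5), 1), ((1,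
    6), (5, 4), 0), ((1, 6), (5, 8), 3), ((4, 0), (1, 0), 2), ((4, 0), (1, 2), 5), ((4, 0),
    (1, 8), 3), ((4, 0), (1, 9), 7), ((6, 1), (6, 3), 0), ((6, 1), (6, 7), 3)]
  G := [[0, 0, 0, 0xa3924863528463528a3924cd, 0xe59248635288635286352a82cab], [0, 0, 0,
    0x1892481452841452418928cd, 0x1892481452821452418928ab], [0, 0x221951e1a93a15416c1,
    0xe79248eb52846352a82c2e, 0x642a392c642a392cc1, 0x642a392c6352a82ca1], [0,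
    0x9a3e14653e18c1, 0x189248145284a17d242e, 0x182489c52459cd28c9, 0x59cd2459cd28a1]]

noncomputable def n1439 : Ent := ⟨e1439, noF, [], [], [(6, 15, [360035742630636841211993100915356868655746945586763691013554177, 0])]⟩

def c1439 : PLift (Cov.check n1439.C.D v1439 = true) := ⟨by decide +kernel⟩

def b1439 : PLift (entF (fidx ts) 400 1439 n1439 = true) := ⟨by decide +kernel⟩

theorem g1439 : GoodF (fidx ts) 400 1439 := GoodF.ofV v1439 n1439 c1439.down b1439.down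

/-- 466574:1139/5 -/
noncomputable def e1440 : SCfg where
  D := {
    a := 6
    L := 10
    kp := 7
    inn := [(0, 1), (1, 0), (1, 2), (2, 1), (2, 3), (2, 4), (3, 2), (3, 4), (4, 2), (4, 3), (4, 5), (5,
      4)]
    mix := [(0, 0), (0, 1), (0, 2), (1, 0), (1, 2), (1, 3), (1, 4), (2, 3), (2, 4), (2, 5), (3, 3), (3,
      6), (3, 7), (4, 1), (4, 5), (4, 7), (4, 8), (5, 7), (5, 8), (5, 9)]
    cl := [3, 0, 4, 1, 1, 2, 6, 0, 5, 7]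
    chq := [(2, 6), (3, 4), (4, 3), (6, 2)]
    rng := [(0, 1), (0, 4), (1, 0), (1, 2), (1, 5), (1, 8), (2, 1), (2, 3), (3, 2), (3, 6), (4, 0), (4,
      5), (5, 1), (5, 4), (6, 3), (6, 7), (7, 6), (7, 9), (8, 1), (8, 9), (9, 7), (9, 8)]
    lev := [] }
  links := [[1, 6, 7, 8], [6, 0, 8, 9, 2, 10], [10, 1, 9, 3, 4, 11], [4, 2, 9, 12, 13], [11, 2, 3, 13, 5,
    14, 7], [14, 4, 13, 15]]
  P := {
    a := 6
    N := 16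
    nb := [450, 1861, 3610, 12820, 26796, 57360, 1155, 18769, 643, 4366, 2118, 1172, 8712, 36920,
      32944, 24608]
    tri := [(0, 1, 6), (0, 1, 8), (0, 6, 7), (0, 7, 8), (1, 2, 9), (1, 2, 10), (1, 6, 10), (1, 8, 9),
      (2, 3, 4), (2, 3, 9), (2, 4, 11), (2, 10, 11), (3, 4, 13), (3, 9, 12), (3, 12, 13), (4, 5,
      13), (4, 5, 14), (4, 7, 11), (4, 7, 14), (5, 13, 15), (5, 14, 15)]
    fin := [0, 1, 2, 2, 4, 4, 0, 4, 8, 1, 1, 11, 2, 4, 14, 15]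
    chd := [(0, 8), (11, 2)]
    steps := [(0, 6), (1, 9), (1, 10), (2, 3), (2, 12), (4, 5), (4, 7), (4, 13)] }
  rep := [4, 1, 11, 0, 8, 14, 2, 15]

noncomputable def v1440 : Cov.CovD where
  P := 3
  N := 5
  pl := [8, 9]
  lev := [⟨[], [], [(0, 3), (0, 4), (3, 4)], [], [(0, 3, [4]), (1, 0, []), (2, 4, [3])]⟩,
    ⟨[], [(0, 0), (0, 1), (0, 3), (0, 4)], [(1, 1), (1, 3), (1, 4), (3, 4)], [], [(0, 3,
      [4]), (2, 4, [3]), (3, 1, []), (4, 1, [])]⟩,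
    ⟨[(0, 1)], [(1, 1), (1, 2), (1, 3), (1, 4)], [(1, 1), (1, 2)], [], [(3, 1, []), (4, 1,
      []), (5, 2, [6])]⟩,
    ⟨[(1, 2)], [(1, 1), (2, 0), (2, 1), (2, 2), (2, 6)], [(0, 1), (0, 6), (1, 6)], [], [(3,
      1, []), (6, 6, [2]), (7, 0, [])]⟩,
    ⟨[(1, 2), (2, 3)], [(0, 0), (2, 0), (2, 1), (2, 2), (3, 0), (3, 1), (3, 2), (3, 6)],
      [(0, 0), (0, 2)], [5], [(1, 0, []), (5, 2, [6]), (7, 0, [])]⟩,
    ⟨[(2, 4), (3, 4)], [(3, 0), (4, 0), (4, 2)], [], [5, 7], [(7, 0, [])]⟩]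
  Ta := [((1, 0), 0, 3), ((1, 2), 0, 4), ((1, 5), 0, 2), ((1, 8), 0, 5), ((3, 2), 1, 4), ((3, 6),
    1, 6), ((4, 0), 1, 3), ((4, 5), 1, 2), ((7, 6), 0, 6), ((7, 9), 0, 7)]
  Tb := [((0, 1, 4), 3, 0, 1), ((1, 0, 2), 0, 3, 4), ((1, 0, 5), 0, 3, 2), ((1, 0, 8), 0, 3, 5),
    ((1, 2, 5), 0, 4, 2), ((1, 2, 8), 0, 4, 5), ((1, 5, 8), 0, 2, 5), ((2, 1, 3), 4, 0, 1),
    ((3, 2, 6), 1, 4, 6), ((4, 0, 5), 1, 3, 2), ((5, 1, 4), 2, 0, 1), ((6, 3, 7), 6, 1, 0),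
    ((7, 6, 9), 0, 6, 7), ((8, 1, 9), 5, 0, 7), ((9, 7, 8), 7, 0, 5)]
  Tc := []
  Td := [((2, 6), (5, 1), 0), ((2, 6), (5, 4), 1), ((3, 4), (0, 1), 0), ((3, 4), (0, 4), 1), ((4,
    3), (2, 1), 0), ((4, 3), (2, 3), 1), ((6, 2), (6, 3), 1), ((6, 2), (6, 7), 0)]
  G := [[0, 0x93c24816c28416c282e, 0xc6a148ca618411611ac41e, 0, 0x95a41839a41416a411e], [0,
    0xa1c24839c284a1c242e, 0x11c28111c28411c281e, 0x11c2411c2135c28d2,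
    0x16a41853a484c1a411e], [0, 0x642a82c2442a2c2c642a82cc3, 0, 0, 0xc6a418c6a411c6a411e],
    [0, 0x642a82c642a82c642a82ce1, 0, 0xa6c2112, 0xc6a411c6a41c6a41c3]]

noncomputable def n1440 : Ent := ⟨e1440, noF, [], [], []⟩

def c1440 : PLift (Cov.check n1440.C.D v1440 = true) := ⟨by decide +kernel⟩

def b1440 : PLift (entF (fidx ts) 400 1440 n1440 = true) := ⟨by decide +kernel⟩

theorem g1440 : GoodF (fidx ts) 400 1440 := GoodF.ofV v1440 n1440 c1440.down b1440.down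

/-- 466574:1139 -/
noncomputable def e1441 : SCfg where
  D := {
    a := 6
    L := 11
    kp := 8
    inn := [(0, 1), (1, 0), (1, 2), (2, 1), (2, 3), (2, 4), (3, 2), (3, 4), (4, 2), (4, 3), (4, 5), (5,
      4)]
    mix := [(0, 0), (0, 1), (0, 2), (1, 0), (1, 2), (1, 3), (1, 4), (2, 3), (2, 4), (2, 5), (3, 3), (3,
      6), (3, 7), (4, 5), (4, 7), (4, 8), (4, 9), (5, 7), (5, 8), (5, 10)]
    cl := [2, 6, 4, 0, 0, 1, 7, 3, 5, 3, 8]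
    chq := [(0, 6), (1, 7), (6, 0), (7, 1)]
    rng := [(0, 1), (0, 4), (1, 0), (1, 2), (2, 1), (2, 3), (3, 2), (3, 6), (4, 0), (4, 5), (5, 4), (5,
      9), (6, 3), (6, 7), (7, 6), (7, 10), (8, 9), (8, 10), (9, 5), (9, 8), (10, 7), (10, 8)]
    lev := [] }
  links := [[1, 6, 7, 8], [6, 0, 8, 9, 2, 10], [10, 1, 9, 3, 4, 11], [4, 2, 9, 12, 13], [11, 2, 3, 13, 5,
    14, 15], [14, 4, 13, 16]]
  P := {
    a := 6
    N := 17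
    nb := [450, 1861, 3610, 12820, 59436, 90128, 1155, 321, 643, 4366, 2118, 33812, 8712, 69688,
      98352, 18448, 24608]
    tri := [(0, 1, 6), (0, 1, 8), (0, 6, 7), (0, 7, 8), (1, 2, 9), (1, 2, 10), (1, 6, 10), (1, 8, 9),
      (2, 3, 4), (2, 3, 9), (2, 4, 11), (2, 10, 11), (3, 4, 13), (3, 9, 12), (3, 12, 13), (4, 5,
      13), (4, 5, 14), (4, 11, 15), (4, 14, 15), (5, 13, 16), (5, 14, 16)]
    fin := [0, 1, 2, 2, 4, 4, 6, 0, 8, 1, 1, 11, 2, 4, 14, 4, 16]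
    chd := [(0, 1), (11, 2)]
    steps := [(0, 7), (1, 9), (1, 10), (2, 3), (2, 12), (4, 5), (4, 13), (4, 15)] }
  rep := [1, 11, 6, 4, 8, 14, 0, 2, 16]

noncomputable def v1441 : Cov.CovD where
  P := 3
  N := 6
  pl := [0, 2, 8, 10]
  lev := [⟨[], [], [], [2, 4], [(1, 6, [0])]⟩,
    ⟨[], [(0, 0), (0, 6)], [(0, 0)], [2, 4], [(3, 0, [6]), (4, 0, [6])]⟩,
    ⟨[(0, 1)], [(1, 0), (1, 1)], [(0, 0), (0, 1)], [], [(3, 0, [6]), (4, 0, [6]), (5, 1,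
      [7])]⟩,
    ⟨[(1, 2)], [(1, 0), (2, 0), (2, 1), (2, 3), (2, 7)], [(0, 3), (0, 7), (3, 7)], [], [(3,
      0, [6]), (6, 7, [1]), (7, 3, [])]⟩,
    ⟨[(1, 2), (2, 3)], [(2, 0), (2, 1), (2, 3), (3, 0), (3, 1), (3, 3), (3, 7)], [(1, 3),
      (3, 3)], [5], [(5, 1, [7]), (7, 3, []), (9, 3, [])]⟩,
    ⟨[(2, 4), (3, 4)], [(3, 3), (4, 1), (4, 3)], [], [5, 8], [(7, 3, [])]⟩]
  Ta := [((3, 2), 0, 4), ((3, 6), 0, 7), ((4, 0), 0, 2), ((4, 5), 0, 1), ((7, 6), 3, 7), ((7,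
    10), 3, 8), ((9, 5), 3, 1), ((9, 8), 3, 5)]
  Tb := [((0, 1, 4), 2, 6, 0), ((1, 0, 2), 6, 2, 4), ((2, 1, 3), 4, 6, 0), ((3, 2, 6), 0, 4, 7),
    ((4, 0, 5), 0, 2, 1), ((5, 4, 9), 1, 0, 3), ((6, 3, 7), 7, 0, 3), ((7, 6, 10), 3, 7, 8),
    ((8, 9, 10), 5, 3, 8), ((9, 5, 8), 3, 1, 5), ((10, 7, 8), 8, 3, 5)]
  Tc := []
  Td := [((0, 6), (3, 2), 4), ((0, 6), (3, 6), 7), ((0, 6), (4, 0), 2), ((0, 6), (4, 5), 1), ((1,
    7), (5, 4), 0), ((1, 7), (5, 9), 3), ((6, 0), (1, 0), 2), ((6, 0), (1, 2), 4), ((7, 1),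
    (6, 3), 0), ((7, 1), (6, 7), 3)]
  G := [[0, 0, 0, 0xa39246428ca82463528c642a392c642a392ccd,
    0xa82463528a642a392c26352a82c6352a82cab], [0, 0, 0, 0x59cd2485edd284e97d2459cd28cd,
    0xe9dd24859cd24259cd245edd28ab], [0, 0x32195c1632195c16c1,
    0xa23d2444284428e8824263d288824e642a392c2e, 0x642a392c642a392cc1, 0x642a392c642a392ca1],
    [0, 0x95ce126a3e18c1, 0xd97d24859cd2845dbd282e, 0xe9dd245ebd28c1, 0xe97d2459cd28a1]]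

noncomputable def n1441 : Ent := ⟨e1441, noF, [], [], [(6, 16, [1580044410770988437309982408355971841652082177953823432505694998529, 0]), (7, 16, [1580044410770988437309982408355971841652082177953823432505695002625, 0]), (7, 14, [1685382413448253767852309107433119732572617628602273068445370806273, 0]), (7, 15, [1685356702439545624007900436039642273970977273354372543760005988353, 0])]⟩

def c1441 : PLift (Cov.check n1441.C.D v1441 = true) := ⟨by decide +kernel⟩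

def b1441 : PLift (entF (fidx ts) 400 1441 n1441 = true) := ⟨by decide +kernel⟩

theorem g1441 : GoodF (fidx ts) 400 1441 := GoodF.ofV v1441 n1441 c1441.down b1441.down

/-- 466574:1140/1 -/
noncomputable def e1442 : SCfg where
  D := {
    a := 6
    L := 10
    kp := 7
    inn := [(0, 1), (1, 0), (1, 2), (2, 1), (2, 3), (2, 4), (3, 2), (3, 4), (4, 2), (4, 3), (4, 5), (5,
      4)]
    mix := [(0, 0), (0, 1), (0, 2), (1, 0), (1, 2), (1, 3), (1, 4), (2, 3), (2, 4), (2, 5), (3, 3), (3,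
      6), (3, 7), (4, 1), (4, 5), (4, 7), (4, 8), (5, 5), (5, 8), (5, 9)]
    cl := [3, 2, 4, 1, 1, 0, 7, 0, 5, 6]
    chq := [(2, 6), (3, 4), (4, 3), (6, 2)]
    rng := [(0, 1), (0, 4), (1, 0), (1, 2), (1, 7), (1, 8), (2, 1), (2, 3), (3, 2), (3, 6), (4, 0), (4,
      5), (5, 4), (5, 9), (6, 3), (6, 7), (7, 1), (7, 6), (8, 1), (8, 9), (9, 5), (9, 8)]
    lev := [] }
  links := [[1, 6, 7, 8], [6, 0, 8, 9, 2, 10], [10, 1, 9, 3, 4, 11], [4, 2, 9, 12, 13], [11, 2, 3, 13, 7,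
    14, 5], [11, 4, 14, 15]]
  P := {
    a := 6
    N := 16
    nb := [450, 1861, 3610, 12820, 26796, 51216, 1155, 24913, 643, 4366, 2118, 33844, 8712, 4248,
      32944, 18464]
    tri := [(0, 1, 6), (0, 1, 8), (0, 6, 7), (0, 7, 8), (1, 2, 9), (1, 2, 10), (1, 6, 10), (1, 8, 9),
      (2, 3, 4), (2, 3, 9), (2, 4, 11), (2, 10, 11), (3, 4, 13), (3, 9, 12), (3, 12, 13), (4, 5,
      11), (4, 5, 14), (4, 7, 13), (4, 7, 14), (5, 11, 15), (5, 14, 15)]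
    fin := [0, 1, 2, 2, 4, 4, 0, 4, 8, 1, 1, 2, 12, 2, 14, 15]
    chd := [(0, 8), (4, 15)]
    steps := [(0, 6), (1, 9), (1, 10), (2, 3), (2, 13), (2, 11), (4, 5), (4, 7)] }
  rep := [2, 1, 4, 0, 8, 14, 15, 12]

noncomputable def v1442 : Cov.CovD where
  P := 3
  N := 5
  pl := [6, 8]
  lev := [⟨[], [], [(2, 3), (2, 4), (3, 4)], [], [(0, 3, [4]), (1, 2, [6]), (2, 4, [3])]⟩,
    ⟨[], [(0, 1), (0, 2), (0, 3), (0, 4)], [(1, 1), (1, 3), (1, 4), (3, 4)], [], [(0, 3,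
      [4]), (2, 4, [3]), (3, 1, []), (4, 1, [])]⟩,
    ⟨[(0, 1)], [(1, 0), (1, 1), (1, 3), (1, 4)], [(0, 1), (1, 1)], [], [(3, 1, []), (4, 1,
      []), (5, 0, [])]⟩,
    ⟨[(1, 2)], [(1, 1), (2, 0), (2, 1)], [(0, 1)], [7], [(3, 1, []), (7, 0, [])]⟩,
    ⟨[(1, 2), (2, 3)], [(0, 2), (2, 0), (2, 1), (2, 2), (3, 0), (3, 1), (3, 2)], [(0, 0),
      (0, 2)], [5], [(1, 2, [6]), (5, 0, []), (7, 0, [])]⟩,
    ⟨[(2, 4), (3, 4)], [(2, 0), (4, 0), (4, 2), (4, 6)], [(0, 6)], [5], [(5, 0, []), (9, 6,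
      [2])]⟩]
  Ta := [((3, 2), 1, 4), ((3, 6), 1, 7), ((4, 0), 1, 3), ((4, 5), 1, 0), ((5, 4), 0, 1), ((5, 9),
    0, 6), ((7, 1), 0, 2), ((7, 6), 0, 7)]
  Tb := [((0, 1, 4), 3, 2, 1), ((1, 0, 2), 2, 3, 4), ((1, 0, 7), 2, 3, 0), ((1, 0, 8), 2, 3, 5),
    ((1, 2, 7), 2, 4, 0), ((1, 2, 8), 2, 4, 5), ((1, 7, 8), 2, 0, 5), ((2, 1, 3), 4, 2, 1),
    ((3, 2, 6), 1, 4, 7), ((4, 0, 5), 1, 3, 0), ((5, 4, 9), 0, 1, 6), ((6, 3, 7), 7, 1, 0),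
    ((7, 1, 6), 0, 2, 7), ((8, 1, 9), 5, 2, 6), ((9, 5, 8), 6, 0, 5)]
  Tc := []
  Td := [((2, 6), (1, 0), 3), ((2, 6), (1, 2), 4), ((2, 6), (1, 7), 0), ((2, 6), (1, 8), 5), ((3,
    4), (0, 1), 2), ((3, 4), (0, 4), 1), ((4, 3), (2, 1), 2), ((4, 3), (2, 3), 1), ((6, 2),
    (9, 5), 0), ((6, 2), (9, 8), 5)]
  G := [[0, 0, 0, 0xe2c1482ec184e2c141d, 0xc6a1484ea1846ca141b], [0,
    0x22c22c6222c22cc262ce8a4e4e1, 0, 0xe2c1482ec184e2c241d, 0x4ea148e4a1444ea181b], [0, 0,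
    0x11c11ac4111611cc8411611ac41e, 0x2ece2cc181842ec24c942421cc188c1d,
    0x14a41ac4841a44ea89441a414a8c1b], [0, 0, 0x11c24811c28411c281e, 0x12c24812c28412c281d,
    0x424218e484243298ac4121248e81b]]

noncomputable def n1442 : Ent := ⟨e1442, noF, [], [], []⟩

def c1442 : PLift (Cov.check n1442.C.D v1442 = true) := ⟨by decide +kernel⟩

def b1442 : PLift (entF (fidx ts) 400 1442 n1442 = true) := ⟨by decide +kernel⟩

theorem g1442 : GoodF (fidx ts) 400 1442 := GoodF.ofV v1442 n1442 c1442.down b1442.down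

/-- 466574:1140/2 -/
noncomputable def e1443 : SCfg where
  D := {
    a := 6
    L := 10
    kp := 7
    inn := [(0, 1), (1, 0), (1, 2), (2, 1), (2, 3), (2, 4), (3, 2), (3, 4), (4, 2), (4, 3), (4, 5), (5,
      4)]
    mix := [(0, 0), (0, 1), (0, 2), (1, 0), (1, 2), (1, 3), (1, 4), (2, 3), (2, 4), (2, 5), (3, 3), (3,
      6), (3, 7), (4, 1), (4, 5), (4, 7), (4, 8), (5, 1), (5, 5), (5, 9)]
    cl := [1, 4, 2, 0, 0, 3, 7, 3, 5, 6]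
    chq := [(1, 2), (2, 1), (5, 6), (6, 5)]
    rng := [(0, 1), (0, 4), (1, 0), (1, 2), (1, 8), (1, 9), (2, 1), (2, 3), (3, 2), (3, 6), (4, 0), (4,
      5), (5, 4), (5, 9), (6, 3), (6, 7), (7, 6), (7, 8), (8, 1), (8, 7), (9, 1), (9, 5)]
    lev := [] }
  links := [[1, 6, 7, 8], [6, 0, 8, 9, 2, 10], [10, 1, 9, 3, 4, 11], [4, 2, 9, 12, 13], [11, 2, 3, 13,
    14, 7, 5], [11, 4, 7, 15]]
  P := {
    a := 6
    N := 16
    nb := [450, 1861, 3610, 12820, 26796, 34960, 1155, 49521, 643, 4366, 2118, 33844, 8712, 20504,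
      8336, 2208]
    tri := [(0, 1, 6), (0, 1, 8), (0, 6, 7), (0, 7, 8), (1, 2, 9), (1, 2, 10), (1, 6, 10), (1, 8, 9),
      (2, 3, 4), (2, 3, 9), (2, 4, 11), (2, 10, 11), (3, 4, 13), (3, 9, 12), (3, 12, 13), (4, 5,
      7), (4, 5, 11), (4, 7, 14), (4, 13, 14), (5, 7, 15), (5, 11, 15)]
    fin := [0, 1, 2, 2, 4, 4, 0, 7, 8, 1, 1, 2, 12, 2, 4, 15]
    chd := [(0, 8), (4, 15)]
    steps := [(0, 6), (1, 9), (1, 10), (2, 3), (2, 13), (2, 11), (4, 5), (4, 14)] }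
  rep := [1, 0, 8, 2, 7, 4, 15, 12]

noncomputable def v1443 : Cov.CovD where
  P := 3
  N := 5
  pl := [1, 6]
  lev := [⟨[], [], [(1, 2)], [4], [(0, 1, [2]), (2, 2, [1])]⟩,
    ⟨[], [(0, 0), (0, 1), (0, 2)], [(0, 0), (0, 1), (0, 2), (1, 2)], [], [(0, 1, [2]), (2,
      2, [1]), (3, 0, []), (4, 0, [])]⟩,
    ⟨[(0, 1)], [(1, 0), (1, 1), (1, 2), (1, 3)], [(0, 0), (0, 3)], [], [(3, 0, []), (4, 0,
      []), (5, 3, [])]⟩,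
    ⟨[(1, 2)], [(1, 0), (2, 0), (2, 3)], [(0, 3)], [7], [(3, 0, []), (7, 3, [])]⟩,
    ⟨[(1, 2), (2, 3)], [(2, 0), (2, 3), (2, 5), (3, 0), (3, 3), (3, 5)], [(3, 3), (3, 5)],
      [4], [(5, 3, []), (7, 3, []), (8, 5, [6])]⟩,
    ⟨[(2, 4), (3, 4)], [(2, 3), (4, 3), (4, 5), (4, 6)], [(3, 6)], [4], [(5, 3, []), (9, 6,
      [5])]⟩]
  Ta := [((3, 2), 0, 2), ((3, 6), 0, 7), ((4, 0), 0, 1), ((4, 5), 0, 3), ((5, 4), 3, 0), ((5, 9),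
    3, 6), ((7, 6), 3, 7), ((7, 8), 3, 5)]
  Tb := [((0, 1, 4), 1, 4, 0), ((1, 0, 2), 4, 1, 2), ((1, 0, 8), 4, 1, 5), ((1, 0, 9), 4, 1, 6),
    ((1, 2, 8), 4, 2, 5), ((1, 2, 9), 4, 2, 6), ((1, 8, 9), 4, 5, 6), ((2, 1, 3), 2, 4, 0),
    ((3, 2, 6), 0, 2, 7), ((4, 0, 5), 0, 1, 3), ((5, 4, 9), 3, 0, 6), ((6, 3, 7), 7, 0, 3),
    ((7, 6, 8), 3, 7, 5), ((8, 1, 7), 5, 4, 3), ((9, 1, 5), 6, 4, 3)]
  Tc := []
  Td := [((1, 2), (0, 1), 4), ((1, 2), (0, 4), 0), ((2, 1), (2, 1), 4), ((2, 1), (2, 3), 0), ((5,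
    6), (8, 1), 4), ((5, 6), (8, 7), 3), ((6, 5), (9, 1), 4), ((6, 5), (9, 5), 3)]
  G := [[0, 0, 0x18921e38a414521112f468c, 0x24658ca28a46811e721238a89,
    0x35658ca38a4681e521e34689], [0, 0, 0x11a2189188b81e6814471451147e84c,
    0x246224e224ee488a4139112b12e212685, 0x388e2588e588ec6811a7611a3e144689], [0,
    0x189211ab8a414521167468c, 0, 0x927a9a282b468945242252724ea4c,
    0x78c2bc678ac6834e7224e7125689], [0, 0x81818118af24414141146f84c, 0,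
    0x21818128af48214141246f84c, 0x388e148c1c161146f289]]

noncomputable def n1443 : Ent := ⟨e1443, noF, [], [], []⟩

def c1443 : PLift (Cov.check n1443.C.D v1443 = true) := ⟨by decide +kernel⟩

def b1443 : PLift (entF (fidx ts) 400 1443 n1443 = true) := ⟨by decide +kernel⟩

theorem g1443 : GoodF (fidx ts) 400 1443 := GoodF.ofV v1443 n1443 c1443.down b1443.down

/-- 466574:1140/3 -/
noncomputable def e1444 : SCfg where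
  D := {
    a := 6
    L := 10
    kp := 7
    inn := [(0, 1), (1, 0), (1, 2), (2, 1), (2, 3), (2, 4), (3, 2), (3, 4), (4, 2), (4, 3), (4, 5), (5,
      4)]
    mix := [(0, 0), (0, 1), (0, 2), (1, 0), (1, 2), (1, 3), (1, 4), (2, 3), (2, 4), (2, 5), (3, 3), (3,
      6), (3, 7), (4, 5), (4, 7), (4, 8), (4, 9), (5, 1), (5, 5), (5, 9)]
    cl := [3, 2, 4, 1, 1, 0, 7, 0, 6, 5]
    chq := [(2, 6), (3, 4), (4, 3), (6, 2)]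
    rng := [(0, 1), (0, 4), (1, 0), (1, 2), (1, 5), (1, 9), (2, 1), (2, 3), (3, 2), (3, 6), (4, 0), (4,
      5), (5, 1), (5, 4), (6, 3), (6, 7), (7, 6), (7, 8), (8, 7), (8, 9), (9, 1), (9, 8)]
    lev := [] }
  links := [[1, 6, 7, 8], [6, 0, 8, 9, 2, 10], [10, 1, 9, 3, 4, 11], [4, 2, 9, 12, 13], [11, 2, 3, 13,
    14, 15, 5], [11, 4, 15, 7]]
  P := {
    a := 6
    N := 16
    nb := [450, 1861, 3610, 12820, 59436, 34960, 1155, 35169, 643, 4366, 2118, 1204, 8712, 20504,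
      40976, 16560]
    tri := [(0, 1, 6), (0, 1, 8), (0, 6, 7), (0, 7, 8), (1, 2, 9), (1, 2, 10), (1, 6, 10), (1, 8, 9),
      (2, 3, 4), (2, 3, 9), (2, 4, 11), (2, 10, 11), (3, 4, 13), (3, 9, 12), (3, 12, 13), (4, 5,
      11), (4, 5, 15), (4, 13, 14), (4, 14, 15), (5, 7, 11), (5, 7, 15)]
    fin := [0, 1, 2, 2, 4, 4, 0, 4, 8, 1, 1, 2, 12, 2, 14, 15]
    chd := [(0, 8), (4, 14)]
    steps := [(0, 6), (1, 9), (1, 10), (2, 3), (2, 13), (2, 11), (4, 5), (4, 7)] }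
  rep := [2, 1, 4, 0, 8, 15, 14, 12]

noncomputable def v1444 : Cov.CovD where
  P := 3
  N := 5
  pl := [6, 9]
  lev := [⟨[], [], [(2, 3), (2, 4), (3, 4)], [], [(0, 3, [4]), (1, 2, [6]), (2, 4, [3])]⟩,
    ⟨[], [(0, 1), (0, 2), (0, 3), (0, 4)], [(1, 1), (1, 3), (1, 4), (3, 4)], [], [(0, 3,
      [4]), (2, 4, [3]), (3, 1, []), (4, 1, [])]⟩,
    ⟨[(0, 1)], [(1, 0), (1, 1), (1, 3), (1, 4)], [(0, 1), (1, 1)], [], [(3, 1, []), (4, 1,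
      []), (5, 0, [])]⟩,
    ⟨[(1, 2)], [(1, 1), (2, 0), (2, 1)], [(0, 1)], [7], [(3, 1, []), (7, 0, [])]⟩,
    ⟨[(1, 2), (2, 3)], [(2, 0), (2, 1), (2, 6), (3, 0), (3, 1), (3, 6)], [(0, 0), (0, 6)],
      [5], [(5, 0, []), (7, 0, []), (8, 6, [2])]⟩,
    ⟨[(2, 4), (3, 4)], [(0, 2), (2, 0), (4, 0), (4, 2), (4, 6)], [(0, 2)], [5], [(1, 2,
      [6]), (5, 0, [])]⟩]
  Ta := [((3, 2), 1, 4), ((3, 6), 1, 7), ((4, 0), 1, 3), ((4, 5), 1, 0), ((5, 1), 0, 2), ((5, 4),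
    0, 1), ((7, 6), 0, 7), ((7, 8), 0, 6)]
  Tb := [((0, 1, 4), 3, 2, 1), ((1, 0, 2), 2, 3, 4), ((1, 0, 5), 2, 3, 0), ((1, 0, 9), 2, 3, 5),
    ((1, 2, 5), 2, 4, 0), ((1, 2, 9), 2, 4, 5), ((1, 5, 9), 2, 0, 5), ((2, 1, 3), 4, 2, 1),
    ((3, 2, 6), 1, 4, 7), ((4, 0, 5), 1, 3, 0), ((5, 1, 4), 0, 2, 1), ((6, 3, 7), 7, 1, 0),
    ((7, 6, 8), 0, 7, 6), ((8, 7, 9), 6, 0, 5), ((9, 1, 8), 5, 2, 6)]
  Tc := []
  Td := [((2, 6), (1, 0), 3), ((2, 6), (1, 2), 4), ((2, 6), (1, 5), 0), ((2, 6), (1, 9), 5), ((3,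
    4), (0, 1), 2), ((3, 4), (0, 4), 1), ((4, 3), (2, 1), 2), ((4, 3), (2, 3), 1), ((6, 2),
    (8, 7), 0), ((6, 2), (8, 9), 5)]
  G := [[0, 0, 0x8a2e148642e1848a2e141e, 0x88ce14844ce18444ce181d, 0x8a2e1482a2e1842a2e181b],
    [0, 0xc2c268c2c2688c64ca88ce4e1, 0x642e18144282a1c18a2e141e, 0x88ce14848ce18444ce181d,
    0x8a2e1482a8e1842a8e181b], [0, 0, 0, 0x44ce88cec1848ce88cec1484411ce15acc1d,
    0x2a8e8a2ec18316312ec188c4941a2ec21a8c1b], [0, 0, 0, 0x121288ce48121244ce84121288ce41d,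
    0x82222ace18221223ce84822213ce81b]]

noncomputable def n1444 : Ent := ⟨e1444, noF, [], [], []⟩

def c1444 : PLift (Cov.check n1444.C.D v1444 = true) := ⟨by decide +kernel⟩

def b1444 : PLift (entF (fidx ts) 400 1444 n1444 = true) := ⟨by decide +kernel⟩

theorem g1444 : GoodF (fidx ts) 400 1444 := GoodF.ofV v1444 n1444 c1444.down b1444.down

/-- 466574:1140 -/
noncomputable def e1445 : SCfg where
  D := {
    a := 6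
    L := 11
    kp := 8
    inn := [(0, 1), (1, 0), (1, 2), (2, 1), (2, 3), (2, 4), (3, 2), (3, 4), (4, 2), (4, 3), (4, 5), (5,
      4)]
    mix := [(0, 0), (0, 1), (0, 2), (1, 0), (1, 2), (1, 3), (1, 4), (2, 3), (2, 4), (2, 5), (3, 3), (3,
      6), (3, 7), (4, 5), (4, 7), (4, 8), (4, 9), (5, 5), (5, 9), (5, 10)]
    cl := [2, 7, 3, 1, 1, 0, 8, 0, 5, 4, 6]
    chq := [(2, 3), (3, 2), (5, 6), (6, 5)]
    rng := [(0, 1), (0, 4), (1, 0), (1, 2), (2, 1), (2, 3), (3, 2), (3, 6), (4, 0), (4, 5), (5, 4), (5,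
      10), (6, 3), (6, 7), (7, 6), (7, 8), (8, 7), (8, 9), (9, 8), (9, 10), (10, 5), (10, 9)]
    lev := [] }
  links := [[1, 6, 7, 8], [6, 0, 8, 9, 2, 10], [10, 1, 9, 3, 4, 11], [4, 2, 9, 12, 13], [11, 2, 3, 13,
    14, 15, 5], [11, 4, 15, 16]]
  P := {
    a := 6
    N := 17
    nb := [450, 1861, 3610, 12820, 59436, 100368, 1155, 321, 643, 4366, 2118, 66612, 8712, 20504,
      40976, 81968, 34848]
    tri := [(0, 1, 6), (0, 1, 8), (0, 6, 7), (0, 7, 8), (1, 2, 9), (1, 2, 10), (1, 6, 10), (1, 8, 9),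
      (2, 3, 4), (2, 3, 9), (2, 4, 11), (2, 10, 11), (3, 4, 13), (3, 9, 12), (3, 12, 13), (4, 5,
      11), (4, 5, 15), (4, 13, 14), (4, 14, 15), (5, 11, 16), (5, 15, 16)]
    fin := [0, 1, 2, 2, 4, 4, 0, 7, 8, 1, 1, 2, 12, 2, 4, 15, 16]
    chd := [(0, 8), (4, 16)]
    steps := [(0, 6), (1, 9), (1, 10), (2, 3), (2, 13), (2, 11), (4, 5), (4, 14)] }
  rep := [2, 1, 0, 8, 15, 4, 16, 7, 12]

noncomputable def v1445 : Cov.CovD where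
  P := 3
  N := 6
  pl := [1, 6, 9]
  lev := [⟨[], [], [(2, 3)], [7], [(0, 2, [3]), (2, 3, [2])]⟩,
    ⟨[], [(0, 1), (0, 2), (0, 3)], [(1, 1), (1, 2), (1, 3), (2, 3)], [], [(0, 2, [3]), (2,
      3, [2]), (3, 1, []), (4, 1, [])]⟩,
    ⟨[(0, 1)], [(1, 0), (1, 1), (1, 2), (1, 3)], [(0, 1), (1, 1)], [], [(3, 1, []), (4, 1,
      []), (5, 0, [])]⟩,
    ⟨[(1, 2)], [(1, 1), (2, 0), (2, 1)], [(0, 1)], [8], [(3, 1, []), (7, 0, [])]⟩,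
    ⟨[(1, 2), (2, 3)], [(2, 0), (2, 1), (2, 5), (3, 0), (3, 1), (3, 5)], [(0, 0), (0, 5)],
      [4], [(5, 0, []), (7, 0, []), (8, 5, [6])]⟩,
    ⟨[(2, 4), (3, 4)], [(2, 0), (4, 0), (4, 5), (4, 6)], [(0, 6)], [4], [(5, 0, []), (10,
      6, [5])]⟩]
  Ta := [((3, 2), 1, 3), ((3, 6), 1, 8), ((4, 0), 1, 2), ((4, 5), 1, 0), ((5, 4), 0, 1), ((5,
    10), 0, 6), ((7, 6), 0, 8), ((7, 8), 0, 5)]
  Tb := [((0, 1, 4), 2, 7, 1), ((1, 0, 2), 7, 2, 3), ((2, 1, 3), 3, 7, 1), ((3, 2, 6), 1, 3, 8),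
    ((4, 0, 5), 1, 2, 0), ((5, 4, 10), 0, 1, 6), ((6, 3, 7), 8, 1, 0), ((7, 6, 8), 0, 8, 5),
    ((8, 7, 9), 5, 0, 4), ((9, 8, 10), 4, 5, 6), ((10, 5, 9), 6, 0, 4)]
  Tc := []
  Td := [((2, 3), (0, 1), 7), ((2, 3), (0, 4), 1), ((3, 2), (2, 1), 7), ((3, 2), (2, 3), 1), ((5,
    6), (8, 7), 0), ((5, 6), (8, 9), 4), ((6, 5), (10, 5), 0), ((6, 5), (10, 9), 4)]
  G := [[0, 0, 0x6ace1486ace1846ace146ace18ce, 0, 0x6ace1486ace146ace1896ace141b], [0,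
    0x6ace6acea486ace6ace6846acec26ace2c26ace6ace2cd, 0x6ace1486ace1846acc2346ace18ce,
    0x6ace1486ace1846ace141d, 0x6ace148a4268c23c6ace1496ace141b], [0, 0,
    0x691e1caca44581c6691ec6889414431ce69acc51a8a46acec5ce, 0,
    0x135e15aca445814413ce3cacc94431ce51acc9344135e1cacc1b], [0, 0,
    0xc29231ce481212c6ac2941212b9ce4121259ce8ce, 0x12125ace48121259ce84121259ce41d,
    0x92c231ce48129461258ac121259ce49121259ce41b]]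

noncomputable def n1445 : Ent := ⟨e1445, noF, [], [], [(7, 14, [1685382413448253767852309107433119732572617628602273068445370818561, 0]), (7, 15, [1685356702439545624007900436039642273970977273354372543760006000641, 0]), (7, 16, [1580044410770988437309982408355971841652082177953823432505695027201, 0])]⟩

def c1445 : PLift (Cov.check n1445.C.D v1445 = true) := ⟨by decide +kernel⟩

def b1445 : PLift (entF (fidx ts) 400 1445 n1445 = true) := ⟨by decide +kernel⟩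

theorem g1445 : GoodF (fidx ts) 400 1445 := GoodF.ofV v1445 n1445 c1445.down b1445.down

/-- 456754:1145/1 -/
noncomputable def e1446 : SCfg where
  D := {
    a := 6
    L := 10
    kp := 7
    inn := [(0, 1), (1, 0), (1, 2), (2, 1), (2, 3), (3, 2), (3, 4), (3, 5), (4, 3), (5, 3)]
    mix := [(0, 0), (0, 1), (0, 2), (1, 0), (1, 2), (1, 3), (2, 2), (2, 3), (2, 4), (2, 5), (3, 2), (3,
      4), (3, 6), (3, 7), (4, 2), (4, 6), (4, 8), (4, 9), (5, 0), (5, 6), (5, 7)]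
    cl := [1, 4, 0, 2, 0, 5, 0, 3, 6, 7]
    chq := [(0, 2), (2, 0), (2, 4), (4, 2)]
    rng := [(0, 1), (0, 3), (0, 6), (0, 7), (1, 0), (1, 2), (2, 1), (2, 8), (3, 0), (3, 5), (4, 5), (4,
      7), (5, 3), (5, 4), (6, 0), (6, 9), (7, 0), (7, 4), (8, 2), (8, 9), (9, 6), (9, 8)]
    lev := [] }
  links := [[1, 6, 7, 8], [6, 0, 8, 2, 9], [9, 1, 8, 3, 10, 11], [10, 2, 8, 4, 12, 5, 13], [12, 3, 8, 14,
    15], [13, 3, 12, 6]]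
  P := {
    a := 6
    N := 16
    nb := [450, 837, 3850, 13620, 53512, 12360, 12963, 321, 16543, 2118, 10252, 1540, 32888, 1128,
      33040, 20496]
    tri := [(0, 1, 6), (0, 1, 8), (0, 6, 7), (0, 7, 8), (1, 2, 8), (1, 2, 9), (1, 6, 9), (2, 3, 8), (2,
      3, 10), (2, 9, 11), (2, 10, 11), (3, 4, 8), (3, 4, 12), (3, 5, 12), (3, 5, 13), (3, 10, 13),
      (4, 8, 14), (4, 12, 15), (4, 14, 15), (5, 6, 12), (5, 6, 13)]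
    fin := [0, 0, 2, 3, 2, 3, 3, 0, 2, 9, 2, 11, 2, 13, 14, 15]
    chd := [(0, 9), (2, 9)]
    steps := [(0, 1), (0, 7), (2, 8), (2, 4), (2, 12), (2, 10), (3, 5), (3, 6)] }
  rep := [2, 3, 9, 13, 0, 11, 14, 15]

noncomputable def v1446 : Cov.CovD where
  P := 3
  N := 5
  pl := [0, 5, 7, 8, 9]
  lev := [⟨[], [], [(0, 4)], [1], [(1, 4, [2]), (2, 0, [2])]⟩,
    ⟨[], [(0, 0), (0, 2), (0, 4)], [(0, 2)], [1], [(2, 0, [2]), (3, 2, [0, 4])]⟩,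
    ⟨[(0, 1)], [(0, 0), (1, 0), (1, 2)], [(0, 0), (0, 2)], [5], [(2, 0, [2]), (3, 2, [0,
      4]), (4, 0, [2])]⟩,
    ⟨[(1, 2)], [(0, 0), (1, 0), (2, 0), (2, 2)], [(0, 0)], [3], [(2, 0, [2]), (4, 0, [2]),
      (6, 0, [2])]⟩,
    ⟨[(2, 3)], [(0, 0), (1, 0), (2, 0), (3, 0)], [(0, 0)], [6, 7], [(2, 0, [2]), (6, 0,
      [2])]⟩,
    ⟨[(2, 3), (3, 4)], [(3, 0), (4, 0)], [], [1, 3], [(6, 0, [2])]⟩]
  Ta := [((2, 1), 0, 4), ((2, 8), 0, 6), ((4, 5), 0, 5), ((4, 7), 0, 3), ((6, 0), 0, 1), ((6, 9),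
    0, 7)]
  Tb := [((0, 1, 3), 1, 4, 2), ((0, 1, 6), 1, 4, 0), ((0, 1, 7), 1, 4, 3), ((0, 3, 6), 1, 2, 0),
    ((0, 3, 7), 1, 2, 3), ((0, 6, 7), 1, 0, 3), ((1, 0, 2), 4, 1, 0), ((2, 1, 8), 0, 4, 6),
    ((3, 0, 5), 2, 1, 5), ((4, 5, 7), 0, 5, 3), ((5, 3, 4), 5, 2, 0), ((6, 0, 9), 0, 1, 7),
    ((7, 0, 4), 3, 1, 0), ((8, 2, 9), 6, 0, 7), ((9, 6, 8), 7, 0, 6)]
  Tc := [(2, 0, 4)]
  Td := [((0, 2), (2, 1), 4), ((0, 2), (2, 8), 6), ((0, 2), (4, 5), 5), ((0, 2), (4, 7), 3), ((0,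
    2), (6, 0), 1), ((0, 2), (6, 9), 7), ((2, 0), (3, 0), 1), ((2, 0), (3, 5), 5), ((2, 4),
    (3, 0), 1), ((2, 4), (3, 5), 5), ((4, 2), (1, 0), 1), ((4, 2), (1, 2), 0)]
  G := [[0, 0, 0x11c126181e84211c6e41, 0x111e2111e2c4111e2111e2c8c, 0x114e111e6188e114eca84],
    [0, 0, 0x414e4111e2181e8e41, 0x555e2999e2c41, 0x114e881e6188e414eca81], [0,
    0x484e228e6488e224eac82, 0x114e4111e2111e8e41, 0xccce2ccce2c41,
    0x484e8c8e688644a84cea14]]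

noncomputable def n1446 : Ent := ⟨e1446, noF, [], [], []⟩

def c1446 : PLift (Cov.check n1446.C.D v1446 = true) := ⟨by decide +kernel⟩

def b1446 : PLift (entF (fidx ts) 400 1446 n1446 = true) := ⟨by decide +kernel⟩

theorem g1446 : GoodF (fidx ts) 400 1446 := GoodF.ofV v1446 n1446 c1446.down b1446.down

/-- 456754:1145/2 -/
noncomputable def e1447 : SCfg where
  D := {
    a := 6
    L := 10
    kp := 7
    inn := [(0, 1), (1, 0), (1, 2), (2, 1), (2, 3), (3, 2), (3, 4), (3, 5), (4, 3), (5, 3)]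
    mix := [(0, 0), (0, 1), (0, 2), (1, 0), (1, 2), (1, 3), (2, 2), (2, 3), (2, 4), (2, 5), (3, 2), (3,
      4), (3, 6), (3, 7), (4, 1), (4, 2), (4, 6), (4, 8), (5, 6), (5, 7), (5, 9)]
    cl := [2, 3, 0, 1, 0, 5, 0, 4, 6, 7]
    chq := [(0, 1), (1, 0), (1, 3), (3, 1)]
    rng := [(0, 1), (0, 3), (1, 0), (1, 2), (1, 8), (2, 1), (3, 0), (3, 5), (4, 5), (4, 7), (5, 3), (5,
      4), (6, 8), (6, 9), (7, 4), (7, 9), (8, 1), (8, 6), (9, 6), (9, 7)]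
    lev := [] }
  links := [[1, 6, 7, 8], [6, 0, 8, 2, 9], [9, 1, 8, 3, 10, 11], [10, 2, 8, 4, 12, 5, 13], [12, 3, 8, 7,
    14], [13, 3, 12, 15]]
  P := {
    a := 6
    N := 16
    nb := [450, 837, 3850, 13620, 20872, 45064, 643, 16721, 159, 2118, 10252, 1540, 49208, 33832,
      4240, 12320]
    tri := [(0, 1, 6), (0, 1, 8), (0, 6, 7), (0, 7, 8), (1, 2, 8), (1, 2, 9), (1, 6, 9), (2, 3, 8), (2,
      3, 10), (2, 9, 11), (2, 10, 11), (3, 4, 8), (3, 4, 12), (3, 5, 12), (3, 5, 13), (3, 10, 13),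
      (4, 7, 8), (4, 7, 14), (4, 12, 14), (5, 12, 15), (5, 13, 15)]
    fin := [0, 0, 2, 2, 0, 2, 6, 0, 2, 9, 2, 11, 2, 13, 14, 15]
    chd := [(0, 9), (2, 9)]
    steps := [(0, 1), (0, 7), (0, 4), (2, 8), (2, 3), (2, 5), (2, 12), (2, 10)] }
  rep := [2, 9, 6, 0, 13, 11, 14, 15]

noncomputable def v1447 : Cov.CovD where
  P := 3
  N := 5
  pl := [0, 5, 7, 8, 9]
  lev := [⟨[], [], [(0, 3)], [2], [(1, 3, [1]), (2, 0, [1])]⟩,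
    ⟨[], [(0, 0), (0, 1), (0, 3)], [(0, 1)], [2], [(2, 0, [1]), (3, 1, [0, 3])]⟩,
    ⟨[(0, 1)], [(0, 0), (1, 0), (1, 1)], [(0, 0), (0, 1)], [5], [(2, 0, [1]), (3, 1, [0,
      3]), (4, 0, [1])]⟩,
    ⟨[(1, 2)], [(0, 0), (1, 0), (2, 0), (2, 1)], [(0, 0)], [4], [(2, 0, [1]), (4, 0, [1]),
      (6, 0, [1])]⟩,
    ⟨[(2, 3)], [(0, 0), (0, 3), (1, 0), (2, 0), (3, 0), (3, 3)], [(0, 0), (0, 3)], [6],
      [(1, 3, [1]), (2, 0, [1]), (6, 0, [1])]⟩,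
    ⟨[(2, 3), (3, 4)], [(3, 0), (4, 0)], [], [4, 7], [(6, 0, [1])]⟩]
  Ta := [((2, 1), 0, 3), ((4, 5), 0, 5), ((4, 7), 0, 4), ((6, 8), 0, 6), ((6, 9), 0, 7)]
  Tb := [((0, 1, 3), 2, 3, 1), ((1, 0, 2), 3, 2, 0), ((1, 0, 8), 3, 2, 6), ((1, 2, 8), 3, 0, 6),
    ((3, 0, 5), 1, 2, 5), ((4, 5, 7), 0, 5, 4), ((5, 3, 4), 5, 1, 0), ((6, 8, 9), 0, 6, 7),
    ((7, 4, 9), 4, 0, 7), ((8, 1, 6), 6, 3, 0), ((9, 6, 7), 7, 0, 4)]
  Tc := [(1, 0, 3)]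
  Td := [((0, 1), (2, 1), 3), ((0, 1), (4, 5), 5), ((0, 1), (4, 7), 4), ((0, 1), (6, 8), 6), ((0,
    1), (6, 9), 7), ((1, 0), (3, 0), 2), ((1, 0), (3, 5), 5), ((1, 3), (3, 0), 2), ((1, 3),
    (3, 5), 5), ((3, 1), (1, 0), 2), ((3, 1), (1, 2), 0), ((3, 1), (1, 8), 6)]
  G := [[0, 0x111e4111e2111e8e41, 0x111e111e6111e111eac82, 0x11a11a611a11aac41161166116116ac8c,
    0x111e111e6111e111eac82], [0, 0x111e4111e2111e8e41, 0x913e3a9e6119eb65eac82,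
    0xcbce111e637ae91a14ec81, 0x31ce9a1e671be161eac81], [0, 0x111e4111e2111e8e41,
    0xc8eeae8e64cee82ae64eec42688c2, 0xc8eeae8e64cee82ae64eec42688c1,
    0x626caeeac8ee4cee82ae64eec12]]

noncomputable def n1447 : Ent := ⟨e1447, noF, [], [], []⟩

def c1447 : PLift (Cov.check n1447.C.D v1447 = true) := ⟨by decide +kernel⟩

def b1447 : PLift (entF (fidx ts) 400 1447 n1447 = true) := ⟨by decide +kernel⟩

theorem g1447 : GoodF (fidx ts) 400 1447 := GoodF.ofV v1447 n1447 c1447.down b1447.down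

/-- 456754:1145 -/
noncomputable def e1448 : SCfg where
  D := {
    a := 6
    L := 11
    kp := 8
    inn := [(0, 1), (1, 0), (1, 2), (2, 1), (2, 3), (3, 2), (3, 4), (3, 5), (4, 3), (5, 3)]
    mix := [(0, 0), (0, 1), (0, 2), (1, 0), (1, 2), (1, 3), (2, 2), (2, 3), (2, 4), (2, 5), (3, 2), (3,
      4), (3, 6), (3, 7), (4, 2), (4, 6), (4, 8), (4, 9), (5, 6), (5, 7), (5, 10)]
    cl := [2, 4, 0, 1, 0, 5, 0, 3, 6, 7, 8]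
    chq := [(0, 1), (1, 0), (1, 4), (4, 1)]
    rng := [(0, 1), (0, 3), (1, 0), (1, 2), (2, 1), (2, 8), (3, 0), (3, 5), (4, 5), (4, 7), (5, 3), (5,
      4), (6, 9), (6, 10), (7, 4), (7, 10), (8, 2), (8, 9), (9, 6), (9, 8), (10, 6), (10, 7)]
    lev := [] }
  links := [[1, 6, 7, 8], [6, 0, 8, 2, 9], [9, 1, 8, 3, 10, 11], [10, 2, 8, 4, 12, 5, 13], [12, 3, 8, 14,
    15], [13, 3, 12, 16]]
  P := {
    a := 6
    N := 17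
    nb := [450, 837, 3850, 13620, 53512, 77832, 643, 321, 16543, 2118, 10252, 1540, 98360, 66600,
      33040, 20496, 12320]
    tri := [(0, 1, 6), (0, 1, 8), (0, 6, 7), (0, 7, 8), (1, 2, 8), (1, 2, 9), (1, 6, 9), (2, 3, 8), (2,
      3, 10), (2, 9, 11), (2, 10, 11), (3, 4, 8), (3, 4, 12), (3, 5, 12), (3, 5, 13), (3, 10, 13),
      (4, 8, 14), (4, 12, 15), (4, 14, 15), (5, 12, 16), (5, 13, 16)]
    fin := [0, 0, 2, 2, 2, 2, 6, 0, 2, 9, 2, 11, 2, 13, 14, 15, 16]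
    chd := [(0, 9), (2, 9)]
    steps := [(0, 1), (0, 7), (2, 3), (2, 4), (2, 5), (2, 8), (2, 12), (2, 10)] }
  rep := [2, 9, 6, 13, 0, 11, 14, 15, 16]

noncomputable def v1448 : Cov.CovD where
  P := 3
  N := 6
  pl := [0, 5, 7, 8, 9, 10]
  lev := [⟨[], [], [(0, 4)], [2], [(1, 4, [1]), (2, 0, [1])]⟩,
    ⟨[], [(0, 0), (0, 1), (0, 4)], [(0, 1)], [2], [(2, 0, [1]), (3, 1, [0, 4])]⟩,
    ⟨[(0, 1)], [(0, 0), (1, 0), (1, 1)], [(0, 0), (0, 1)], [5], [(2, 0, [1]), (3, 1, [0,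
      4]), (4, 0, [1])]⟩,
    ⟨[(1, 2)], [(0, 0), (1, 0), (2, 0), (2, 1)], [(0, 0)], [3], [(2, 0, [1]), (4, 0, [1]),
      (6, 0, [1])]⟩,
    ⟨[(2, 3)], [(0, 0), (1, 0), (2, 0), (3, 0)], [(0, 0)], [6, 7], [(2, 0, [1]), (6, 0,
      [1])]⟩,
    ⟨[(2, 3), (3, 4)], [(3, 0), (4, 0)], [], [3, 8], [(6, 0, [1])]⟩]
  Ta := [((2, 1), 0, 4), ((2, 8), 0, 6), ((4, 5), 0, 5), ((4, 7), 0, 3), ((6, 9), 0, 7), ((6,
    10), 0, 8)]
  Tb := [((0, 1, 3), 2, 4, 1), ((1, 0, 2), 4, 2, 0), ((2, 1, 8), 0, 4, 6), ((3, 0, 5), 1, 2, 5),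
    ((4, 5, 7), 0, 5, 3), ((5, 3, 4), 5, 1, 0), ((6, 9, 10), 0, 7, 8), ((7, 4, 10), 3, 0, 8),
    ((8, 2, 9), 6, 0, 7), ((9, 6, 8), 7, 0, 6), ((10, 6, 7), 8, 0, 3)]
  Tc := [(1, 0, 4)]
  Td := [((0, 1), (2, 1), 4), ((0, 1), (2, 8), 6), ((0, 1), (4, 5), 5), ((0, 1), (4, 7), 3), ((0,
    1), (6, 9), 7), ((0, 1), (6, 10), 8), ((1, 0), (3, 0), 2), ((1, 0), (3, 5), 5), ((1, 4),
    (3, 0), 2), ((1, 4), (3, 5), 5), ((4, 1), (1, 0), 2), ((4, 1), (1, 2), 0)]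
  G := [[0, 0x111e2111e8111e4e41, 0x111e111e6111e111eac42,
    0x111e111e6111e111eac4111e111e61411a111eec8c, 0x111e111e6111e111eac82], [0,
    0x111e21411ac11a14ce81, 0x59ce331e615be631eac42, 0xc1ce171e63cce511eac81,
    0xc3ce191e65bce311eac12], [0, 0x111e4111e2111e8e81, 0xc8eeae8e64cee82ae64eec42688c2,
    0x82a44626caeeac8ee4ceee64eacc1, 0x426c8eeae8ee4cee82ae64eec12]]

noncomputable def n1448 : Ent := ⟨e1448, noF, [], [], [(6, 16, [1580044410770988437309982408355971841652082177953823432505695035393, 0]), (7, 14, [1685382413448253767852309107433119732572617628602273068445370839041, 0])]⟩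

def c1448 : PLift (Cov.check n1448.C.D v1448 = true) := ⟨by decide +kernel⟩

def b1448 : PLift (entF (fidx ts) 400 1448 n1448 = true) := ⟨by decide +kernel⟩

theorem g1448 : GoodF (fidx ts) 400 1448 := GoodF.ofV v1448 n1448 c1448.down b1448.down

/-- 456754:1146/1 -/
noncomputable def e1449 : SCfg where
  D := {
    a := 6
    L := 10
    kp := 7
    inn := [(0, 1), (1, 0), (1, 2), (2, 1), (2, 3), (3, 2), (3, 4), (3, 5), (4, 3), (5, 3)]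
    mix := [(0, 0), (0, 1), (0, 2), (1, 0), (1, 2), (1, 3), (2, 2), (2, 3), (2, 4), (2, 5), (3, 2), (3,
      4), (3, 6), (3, 7), (4, 1), (4, 2), (4, 6), (4, 8), (5, 4), (5, 7), (5, 9)]
    cl := [3, 2, 0, 1, 0, 5, 0, 4, 6, 7]
    chq := [(0, 1), (1, 0), (1, 2), (2, 1)]
    rng := [(0, 1), (0, 3), (1, 0), (1, 2), (1, 8), (2, 1), (3, 0), (3, 5), (4, 5), (4, 9), (5, 3), (5,
      4), (6, 7), (6, 8), (7, 6), (7, 9), (8, 1), (8, 6), (9, 4), (9, 7)]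
    lev := [] }
  links := [[1, 6, 7, 8], [6, 0, 8, 2, 9], [9, 1, 8, 3, 10, 11], [10, 2, 8, 4, 12, 13, 5], [12, 3, 8, 7,
    14], [10, 3, 13, 15]]
  P := {
    a := 6
    N := 16
    nb := [450, 837, 3850, 13620, 20872, 41992, 643, 16721, 159, 2118, 34860, 1540, 24600, 36904,
      4240, 9248]
    tri := [(0, 1, 6), (0, 1, 8), (0, 6, 7), (0, 7, 8), (1, 2, 8), (1, 2, 9), (1, 6, 9), (2, 3, 8), (2,
      3, 10), (2, 9, 11), (2, 10, 11), (3, 4, 8), (3, 4, 12), (3, 5, 10), (3, 5, 13), (3, 12, 13),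
      (4, 7, 8), (4, 7, 14), (4, 12, 14), (5, 10, 15), (5, 13, 15)]
    fin := [0, 0, 2, 2, 0, 2, 6, 0, 2, 9, 2, 11, 2, 13, 14, 15]
    chd := [(0, 9), (2, 9)]
    steps := [(0, 1), (0, 7), (0, 4), (2, 8), (2, 3), (2, 5), (2, 12), (2, 10)] }
  rep := [2, 9, 0, 6, 13, 11, 14, 15]

noncomputable def v1449 : Cov.CovD where
  P := 3
  N := 5
  pl := [0, 5, 7, 8, 9]
  lev := [⟨[], [], [(0, 2)], [3], [(1, 2, [1]), (2, 0, [1])]⟩,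
    ⟨[], [(0, 0), (0, 1), (0, 2)], [(0, 1)], [3], [(2, 0, [1]), (3, 1, [0, 2])]⟩,
    ⟨[(0, 1)], [(0, 0), (1, 0), (1, 1)], [(0, 0), (0, 1)], [5], [(2, 0, [1]), (3, 1, [0,
      2]), (4, 0, [1])]⟩,
    ⟨[(1, 2)], [(0, 0), (1, 0), (2, 0), (2, 1)], [(0, 0)], [4], [(2, 0, [1]), (4, 0, [1]),
      (6, 0, [1])]⟩,
    ⟨[(2, 3)], [(0, 0), (0, 2), (1, 0), (2, 0), (3, 0), (3, 2)], [(0, 0), (0, 2)], [6],
      [(1, 2, [1]), (2, 0, [1]), (6, 0, [1])]⟩,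
    ⟨[(2, 3), (3, 4)], [(2, 0), (3, 0)], [], [4, 7], [(4, 0, [1])]⟩]
  Ta := [((2, 1), 0, 2), ((4, 5), 0, 5), ((4, 9), 0, 7), ((6, 7), 0, 4), ((6, 8), 0, 6)]
  Tb := [((0, 1, 3), 3, 2, 1), ((1, 0, 2), 2, 3, 0), ((1, 0, 8), 2, 3, 6), ((1, 2, 8), 2, 0, 6),
    ((3, 0, 5), 1, 3, 5), ((4, 5, 9), 0, 5, 7), ((5, 3, 4), 5, 1, 0), ((6, 7, 8), 0, 4, 6),
    ((7, 6, 9), 4, 0, 7), ((8, 1, 6), 6, 2, 0), ((9, 4, 7), 7, 0, 4)]
  Tc := [(1, 0, 2)]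
  Td := [((0, 1), (2, 1), 2), ((0, 1), (4, 5), 5), ((0, 1), (4, 9), 7), ((0, 1), (6, 7), 4), ((0,
    1), (6, 8), 6), ((1, 0), (3, 0), 3), ((1, 0), (3, 5), 5), ((1, 2), (3, 0), 3), ((1, 2),
    (3, 5), 5), ((2, 1), (1, 0), 3), ((2, 1), (1, 2), 0), ((2, 1), (1, 8), 6)]
  G := [[0, 0x11c411c211c8e11c211c811c4ea1, 0x11611ac48141812e8411c11c6811611aa4ce,
    0x1212c281212c24c, 0x11a11ac411a11a68c11a11a6811a11a611a11aacca], [0,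
    0x11c11cc21411c18e811c1814e4e1, 0, 0xa262c28a262c24c,
    0x4ea82ae4ae422ceaa8ae8922ceaa8ae84ea82ae4ae45a], [0, 0x1814a41418a11c4a11c418211c8ee1,
    0, 0x1262c2812d2c24c, 0xccaa1a657a31aac812c6a18e19a65aac43]]

noncomputable def n1449 : Ent := ⟨e1449, noF, [], [], []⟩

def c1449 : PLift (Cov.check n1449.C.D v1449 = true) := ⟨by decide +kernel⟩

def b1449 : PLift (entF (fidx ts) 400 1449 n1449 = true) := ⟨by decide +kernel⟩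

theorem g1449 : GoodF (fidx ts) 400 1449 := GoodF.ofV v1449 n1449 c1449.down b1449.down

/-- 456754:1146 -/
noncomputable def e1450 : SCfg where
  D := {
    a := 6
    L := 11
    kp := 8
    inn := [(0, 1), (1, 0), (1, 2), (2, 1), (2, 3), (3, 2), (3, 4), (3, 5), (4, 3), (5, 3)]
    mix := [(0, 0), (0, 1), (0, 2), (1, 0), (1, 2), (1, 3), (2, 2), (2, 3), (2, 4), (2, 5), (3, 2), (3,
      4), (3, 6), (3, 7), (4, 2), (4, 6), (4, 8), (4, 9), (5, 4), (5, 7), (5, 10)]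
    cl := [2, 4, 0, 1, 0, 5, 0, 3, 6, 7, 8]
    chq := [(0, 1), (1, 0), (1, 4), (4, 1)]
    rng := [(0, 1), (0, 3), (1, 0), (1, 2), (2, 1), (2, 8), (3, 0), (3, 5), (4, 5), (4, 10), (5, 3),
      (5, 4), (6, 7), (6, 9), (7, 6), (7, 10), (8, 2), (8, 9), (9, 6), (9, 8), (10, 4), (10, 7)]
    lev := [] }
  links := [[1, 6, 7, 8], [6, 0, 8, 2, 9], [9, 1, 8, 3, 10, 11], [10, 2, 8, 4, 12, 13, 5], [12, 3, 8, 14,
    15], [10, 3, 13, 16]]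
  P := {
    a := 6
    N := 17
    nb := [450, 837, 3850, 13620, 53512, 74760, 643, 321, 16543, 2118, 67628, 1540, 40984, 69672,
      33040, 20496, 9248]
    tri := [(0, 1, 6), (0, 1, 8), (0, 6, 7), (0, 7, 8), (1, 2, 8), (1, 2, 9), (1, 6, 9), (2, 3, 8), (2,
      3, 10), (2, 9, 11), (2, 10, 11), (3, 4, 8), (3, 4, 12), (3, 5, 10), (3, 5, 13), (3, 12, 13),
      (4, 8, 14), (4, 12, 15), (4, 14, 15), (5, 10, 16), (5, 13, 16)]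
    fin := [0, 0, 2, 2, 2, 2, 6, 0, 2, 9, 2, 11, 2, 13, 14, 15, 16]
    chd := [(0, 9), (2, 9)]
    steps := [(0, 1), (0, 7), (2, 3), (2, 4), (2, 5), (2, 8), (2, 12), (2, 10)] }
  rep := [2, 9, 6, 13, 0, 11, 14, 15, 16]

noncomputable def v1450 : Cov.CovD where
  P := 3
  N := 6
  pl := [0, 5, 7, 8, 9, 10]
  lev := [⟨[], [], [(0, 4)], [2], [(1, 4, [1]), (2, 0, [1])]⟩,
    ⟨[], [(0, 0), (0, 1), (0, 4)], [(0, 1)], [2], [(2, 0, [1]), (3, 1, [0, 4])]⟩,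
    ⟨[(0, 1)], [(0, 0), (1, 0), (1, 1)], [(0, 0), (0, 1)], [5], [(2, 0, [1]), (3, 1, [0,
      4]), (4, 0, [1])]⟩,
    ⟨[(1, 2)], [(0, 0), (1, 0), (2, 0), (2, 1)], [(0, 0)], [3], [(2, 0, [1]), (4, 0, [1]),
      (6, 0, [1])]⟩,
    ⟨[(2, 3)], [(0, 0), (1, 0), (2, 0), (3, 0)], [(0, 0)], [6, 7], [(2, 0, [1]), (6, 0,
      [1])]⟩,
    ⟨[(2, 3), (3, 4)], [(2, 0), (3, 0)], [], [3, 8], [(4, 0, [1])]⟩]
  Ta := [((2, 1), 0, 4), ((2, 8), 0, 6), ((4, 5), 0, 5), ((4, 10), 0, 8), ((6, 7), 0, 3), ((6,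
    9), 0, 7)]
  Tb := [((0, 1, 3), 2, 4, 1), ((1, 0, 2), 4, 2, 0), ((2, 1, 8), 0, 4, 6), ((3, 0, 5), 1, 2, 5),
    ((4, 5, 10), 0, 5, 8), ((5, 3, 4), 5, 1, 0), ((6, 7, 9), 0, 3, 7), ((7, 6, 10), 3, 0, 8),
    ((8, 2, 9), 6, 0, 7), ((9, 6, 8), 7, 0, 6), ((10, 4, 7), 8, 0, 3)]
  Tc := [(1, 0, 4)]
  Td := [((0, 1), (2, 1), 4), ((0, 1), (2, 8), 6), ((0, 1), (4, 5), 5), ((0, 1), (4, 10), 8),
    ((0, 1), (6, 7), 3), ((0, 1), (6, 9), 7), ((1, 0), (3, 0), 2), ((1, 0), (3, 5), 5), ((1,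
    4), (3, 0), 2), ((1, 4), (3, 5), 5), ((4, 1), (1, 0), 2), ((4, 1), (1, 2), 0)]
  G := [[0, 0x111e2111e8111e4e41, 0x111e111e6111e111eac42,
    0x111e111e6111e111eac4111e111e61411a111eec8c, 0x111e111e6111e111eac82], [0,
    0x111e21411ac11a14ce81, 0x82a44426c8eeae8ee4ceee64eacc2, 0x82a44466c8aeaecee4ceee64eacc1,
    0x426c8eeae8ee4cee82ae64eec12], [0, 0x111e2111e8111e4e41, 0x91ce3a1e611ce661eac42,
    0xcb3e119e671ce161eac81, 0xc37e151e611ceb61eac81]]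

noncomputable def n1450 : Ent := ⟨e1450, noF, [], [], [(7, 14, [1685382413448253767852309107433119732572617628602273068445370847233, 0])]⟩

def c1450 : PLift (Cov.check n1450.C.D v1450 = true) := ⟨by decide +kernel⟩

def b1450 : PLift (entF (fidx ts) 400 1450 n1450 = true) := ⟨by decide +kernel⟩

theorem g1450 : GoodF (fidx ts) 400 1450 := GoodF.ofV v1450 n1450 c1450.down b1450.down

/-- 456656:1147/1 -/
noncomputable def e1451 : SCfg where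
  D := {
    a := 6
    L := 10
    kp := 7
    inn := [(0, 1), (1, 0), (1, 2), (2, 1), (2, 3), (3, 2), (3, 4), (3, 5), (4, 3), (4, 5), (5, 3), (5,
      4)]
    mix := [(0, 0), (0, 1), (0, 2), (1, 0), (1, 2), (1, 3), (2, 2), (2, 3), (2, 4), (2, 5), (3, 2), (3,
      4), (3, 6), (4, 2), (4, 7), (4, 8), (5, 0), (5, 6), (5, 8), (5, 9)]
    cl := [1, 4, 0, 2, 0, 5, 3, 6, 3, 7]
    chq := [(0, 2), (2, 0), (2, 4), (4, 2)]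
    rng := [(0, 1), (0, 3), (0, 8), (0, 9), (1, 0), (1, 2), (2, 1), (2, 7), (3, 0), (3, 5), (4, 5), (4,
      6), (5, 3), (5, 4), (6, 4), (6, 9), (7, 2), (7, 8), (8, 0), (8, 7), (9, 0), (9, 6)]
    lev := [] }
  links := [[1, 6, 7, 8], [6, 0, 8, 2, 9], [9, 1, 8, 3, 10, 11], [10, 2, 8, 4, 5, 12], [5, 3, 8, 13, 14],
    [12, 3, 4, 14, 6, 15]]
  P := {
    a := 6
    N := 16
    nb := [450, 837, 3850, 5428, 24872, 53336, 49827, 321, 8351, 2118, 6156, 1540, 33832, 16656, 8304,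
      4192]
    tri := [(0, 1, 6), (0, 1, 8), (0, 6, 7), (0, 7, 8), (1, 2, 8), (1, 2, 9), (1, 6, 9), (2, 3, 8), (2,
      3, 10), (2, 9, 11), (2, 10, 11), (3, 4, 5), (3, 4, 8), (3, 5, 12), (3, 10, 12), (4, 5, 14),
      (4, 8, 13), (4, 13, 14), (5, 6, 14), (5, 6, 15), (5, 12, 15)]
    fin := [0, 0, 2, 2, 2, 5, 6, 0, 2, 9, 2, 11, 5, 13, 5, 15]
    chd := [(0, 9), (2, 9)]
    steps := [(0, 1), (0, 7), (2, 3), (2, 4), (2, 8), (2, 10), (5, 14), (5, 12)] }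
  rep := [2, 6, 9, 5, 0, 11, 13, 15]

noncomputable def v1451 : Cov.CovD where
  P := 3
  N := 5
  pl := [0, 5, 7, 9]
  lev := [⟨[], [], [(0, 4)], [1], [(1, 4, [2]), (2, 0, [2])]⟩,
    ⟨[], [(0, 0), (0, 2), (0, 4)], [(0, 2)], [1], [(2, 0, [2]), (3, 2, [0, 4])]⟩,
    ⟨[(0, 1)], [(0, 0), (1, 0), (1, 2)], [(0, 0), (0, 2)], [5], [(2, 0, [2]), (3, 2, [0,
      4]), (4, 0, [2])]⟩,
    ⟨[(1, 2)], [(0, 0), (1, 0), (2, 0), (2, 2), (2, 3)], [(0, 0), (0, 3)], [], [(2, 0,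
      [2]), (4, 0, [2]), (6, 3, [])]⟩,
    ⟨[(2, 3)], [(0, 0), (1, 0), (2, 0), (3, 0), (3, 3)], [(0, 3)], [6], [(2, 0, [2]), (8,
      3, [])]⟩,
    ⟨[(2, 3), (3, 4)], [(3, 0), (3, 3), (4, 0), (4, 3)], [(3, 3)], [1, 7], [(6, 3, []), (8,
      3, [])]⟩]
  Ta := [((2, 1), 0, 4), ((2, 7), 0, 6), ((4, 5), 0, 5), ((4, 6), 0, 3), ((6, 4), 3, 0), ((6, 9),
    3, 7), ((8, 0), 3, 1), ((8, 7), 3, 6)]
  Tb := [((0, 1, 3), 1, 4, 2), ((0, 1, 8), 1, 4, 3), ((0, 1, 9), 1, 4, 7), ((0, 3, 8), 1, 2, 3),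
    ((0, 3, 9), 1, 2, 7), ((0, 8, 9), 1, 3, 7), ((1, 0, 2), 4, 1, 0), ((2, 1, 7), 0, 4, 6),
    ((3, 0, 5), 2, 1, 5), ((4, 5, 6), 0, 5, 3), ((5, 3, 4), 5, 2, 0), ((6, 4, 9), 3, 0, 7),
    ((7, 2, 8), 6, 0, 3), ((8, 0, 7), 3, 1, 6), ((9, 0, 6), 7, 1, 3)]
  Tc := [(2, 0, 4)]
  Td := [((0, 2), (2, 1), 4), ((0, 2), (2, 7), 6), ((0, 2), (4, 5), 5), ((0, 2), (4, 6), 3), ((2,
    0), (3, 0), 1), ((2, 0), (3, 5), 5), ((2, 4), (3, 0), 1), ((2, 4), (3, 5), 5), ((4, 2),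
    (1, 0), 1), ((4, 2), (1, 2), 0)]
  G := [[0, 0xe2e46e2e8ac42, 0x59c259c2681, 0x59c2d9a2c459c259c2c8c, 0x59c259c2a84], [0,
    0xe2eec6ee6e8ac82, 0x95de24491dec641, 0x95de295de2c45d698a495de28cc, 0x95de25d698ca84],
    [0, 0xc1a16c161ac42, 0x59c259c2c41, 0xddc2dda2c81, 0xddc2ddc2a81], [0, 0xe14e18c42,
    0x95de295de2c41, 0x95de295de2c41, 0x95de25d698ca81]]

noncomputable def n1451 : Ent := ⟨e1451, noF, [], [], []⟩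

def c1451 : PLift (Cov.check n1451.C.D v1451 = true) := ⟨by decide +kernel⟩

def b1451 : PLift (entF (fidx ts) 400 1451 n1451 = true) := ⟨by decide +kernel⟩

theorem g1451 : GoodF (fidx ts) 400 1451 := GoodF.ofV v1451 n1451 c1451.down b1451.down

/-- 456656:1147/2 -/
noncomputable def e1452 : SCfg where
  D := {
    a := 6
    L := 10
    kp := 7
    inn := [(0, 1), (1, 0), (1, 2), (2, 1), (2, 3), (3, 2), (3, 4), (3, 5), (4, 3), (4, 5), (5, 3), (5,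
      4)]
    mix := [(0, 0), (0, 1), (0, 2), (1, 0), (1, 2), (1, 3), (2, 2), (2, 3), (2, 4), (2, 5), (3, 2), (3,
      4), (3, 6), (4, 2), (4, 7), (4, 8), (5, 0), (5, 6), (5, 8), (5, 9)]
    cl := [1, 4, 0, 2, 0, 5, 3, 6, 3, 7]
    chq := [(0, 2), (2, 0), (2, 4), (4, 2)]
    rng := [(0, 1), (0, 3), (0, 6), (0, 9), (1, 0), (1, 2), (2, 1), (2, 7), (3, 0), (3, 5), (4, 5), (4,
      6), (5, 3), (5, 4), (6, 0), (6, 4), (7, 2), (7, 8), (8, 7), (8, 9), (9, 0), (9, 8)]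
    lev := [] }
  links := [[1, 6, 7, 8], [6, 0, 8, 2, 9], [9, 1, 8, 3, 10, 11], [10, 2, 8, 4, 5, 12], [5, 3, 8, 13, 14],
    [12, 3, 4, 14, 15, 6]]
  P := {
    a := 6
    N := 16
    nb := [450, 837, 3850, 5428, 24872, 53336, 37539, 321, 8351, 2118, 6156, 1540, 1128, 16656, 41008,
      16480]
    tri := [(0, 1, 6), (0, 1, 8), (0, 6, 7), (0, 7, 8), (1, 2, 8), (1, 2, 9), (1, 6, 9), (2, 3, 8), (2,
      3, 10), (2, 9, 11), (2, 10, 11), (3, 4, 5), (3, 4, 8), (3, 5, 12), (3, 10, 12), (4, 5, 14),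
      (4, 8, 13), (4, 13, 14), (5, 6, 12), (5, 6, 15), (5, 14, 15)]
    fin := [0, 0, 2, 2, 2, 5, 6, 0, 2, 9, 2, 11, 5, 13, 5, 15]
    chd := [(0, 9), (2, 9)]
    steps := [(0, 1), (0, 7), (2, 3), (2, 4), (2, 8), (2, 10), (5, 14), (5, 12)] }
  rep := [2, 6, 9, 5, 0, 11, 13, 15]

noncomputable def v1452 : Cov.CovD where
  P := 3
  N := 5
  pl := [0, 5, 7, 9]
  lev := [⟨[], [], [(0, 4)], [1], [(1, 4, [2]), (2, 0, [2])]⟩,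
    ⟨[], [(0, 0), (0, 2), (0, 4)], [(0, 2)], [1], [(2, 0, [2]), (3, 2, [0, 4])]⟩,
    ⟨[(0, 1)], [(0, 0), (1, 0), (1, 2)], [(0, 0), (0, 2)], [5], [(2, 0, [2]), (3, 2, [0,
      4]), (4, 0, [2])]⟩,
    ⟨[(1, 2)], [(0, 0), (1, 0), (2, 0), (2, 2), (2, 3)], [(0, 0), (0, 3)], [], [(2, 0,
      [2]), (4, 0, [2]), (6, 3, [])]⟩,
    ⟨[(2, 3)], [(0, 0), (1, 0), (2, 0), (3, 0), (3, 3)], [(0, 3)], [6], [(2, 0, [2]), (8,
      3, [])]⟩,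
    ⟨[(2, 3), (3, 4)], [(3, 0), (3, 3), (4, 0), (4, 3)], [(3, 3)], [1, 7], [(6, 3, []), (8,
      3, [])]⟩]
  Ta := [((2, 1), 0, 4), ((2, 7), 0, 6), ((4, 5), 0, 5), ((4, 6), 0, 3), ((6, 0), 3, 1), ((6, 4),
    3, 0), ((8, 7), 3, 6), ((8, 9), 3, 7)]
  Tb := [((0, 1, 3), 1, 4, 2), ((0, 1, 6), 1, 4, 3), ((0, 1, 9), 1, 4, 7), ((0, 3, 6), 1, 2, 3),
    ((0, 3, 9), 1, 2, 7), ((0, 6, 9), 1, 3, 7), ((1, 0, 2), 4, 1, 0), ((2, 1, 7), 0, 4, 6),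
    ((3, 0, 5), 2, 1, 5), ((4, 5, 6), 0, 5, 3), ((5, 3, 4), 5, 2, 0), ((6, 0, 4), 3, 1, 0),
    ((7, 2, 8), 6, 0, 3), ((8, 7, 9), 3, 6, 7), ((9, 0, 8), 7, 1, 3)]
  Tc := [(2, 0, 4)]
  Td := [((0, 2), (2, 1), 4), ((0, 2), (2, 7), 6), ((0, 2), (4, 5), 5), ((0, 2), (4, 6), 3), ((2,
    0), (3, 0), 1), ((2, 0), (3, 5), 5), ((2, 4), (3, 0), 1), ((2, 4), (3, 5), 5), ((4, 2),
    (1, 0), 1), ((4, 2), (1, 2), 0)]
  G := [[0, 0xe2e46e2e8ac82, 0x5849489458ce41, 0xd9a2d9a2c459c2d562c8c, 0x52d469458ca84], [0,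
    0xeeae46e2eecac42, 0x95de291de446641, 0x95de2495de28c91de44695de2c8c, 0x95de25d698ca84],
    [0, 0xc1a16c161ac42, 0x9249c69458c681, 0xddc2ddc2c41, 0x4da946d4d8ca81], [0, 0xe14e18c42,
    0x95de291de446a81, 0x95de295de2c81, 0x111cf4111cf8a84]]

noncomputable def n1452 : Ent := ⟨e1452, noF, [], [], []⟩

def c1452 : PLift (Cov.check n1452.C.D v1452 = true) := ⟨by decide +kernel⟩

def b1452 : PLift (entF (fidx ts) 400 1452 n1452 = true) := ⟨by decide +kernel⟩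

theorem g1452 : GoodF (fidx ts) 400 1452 := GoodF.ofV v1452 n1452 c1452.down b1452.down

/-- 456656:1147/3 -/
noncomputable def e1453 : SCfg where
  D := {
    a := 6
    L := 10
    kp := 7
    inn := [(0, 1), (1, 0), (1, 2), (2, 1), (2, 3), (3, 2), (3, 4), (3, 5), (4, 3), (4, 5), (5, 3), (5,
      4)]
    mix := [(0, 0), (0, 1), (0, 2), (1, 0), (1, 2), (1, 3), (2, 2), (2, 3), (2, 4), (2, 5), (3, 2), (3,
      4), (3, 6), (4, 1), (4, 2), (4, 7), (5, 6), (5, 7), (5, 8), (5, 9)]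
    cl := [2, 4, 0, 1, 0, 5, 3, 3, 6, 7]
    chq := [(0, 1), (1, 0), (1, 4), (4, 1)]
    rng := [(0, 1), (0, 3), (1, 0), (1, 2), (1, 7), (2, 1), (3, 0), (3, 5), (4, 5), (4, 6), (5, 3), (5,
      4), (6, 4), (6, 9), (7, 1), (7, 8), (8, 7), (8, 9), (9, 6), (9, 8)]
    lev := [] }
  links := [[1, 6, 7, 8], [6, 0, 8, 2, 9], [9, 1, 8, 3, 10, 11], [10, 2, 8, 4, 5, 12], [5, 3, 8, 7, 13],
    [12, 3, 4, 13, 14, 15]]
  P := {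
    a := 6
    N := 16
    nb := [450, 837, 3850, 5428, 8616, 61464, 643, 8529, 159, 2118, 6156, 1540, 33832, 16560, 40992,
      20512]
    tri := [(0, 1, 6), (0, 1, 8), (0, 6, 7), (0, 7, 8), (1, 2, 8), (1, 2, 9), (1, 6, 9), (2, 3, 8), (2,
      3, 10), (2, 9, 11), (2, 10, 11), (3, 4, 5), (3, 4, 8), (3, 5, 12), (3, 10, 12), (4, 5, 13),
      (4, 7, 8), (4, 7, 13), (5, 12, 15), (5, 13, 14), (5, 14, 15)]
    fin := [0, 0, 2, 0, 0, 5, 6, 0, 2, 9, 2, 11, 5, 5, 14, 15]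
    chd := [(0, 9), (2, 9)]
    steps := [(0, 1), (0, 7), (0, 4), (2, 8), (0, 3), (2, 10), (5, 13), (5, 12)] }
  rep := [2, 9, 6, 5, 0, 11, 14, 15]

noncomputable def v1453 : Cov.CovD where
  P := 3
  N := 5
  pl := [0, 5, 8, 9]
  lev := [⟨[], [], [(0, 4)], [2], [(1, 4, [1]), (2, 0, [1])]⟩,
    ⟨[], [(0, 0), (0, 1), (0, 4)], [(0, 1)], [2], [(2, 0, [1]), (3, 1, [0, 4])]⟩,
    ⟨[(0, 1)], [(0, 0), (1, 0), (1, 1)], [(0, 0), (0, 1)], [5], [(2, 0, [1]), (3, 1, [0,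
      4]), (4, 0, [1])]⟩,
    ⟨[(1, 2)], [(0, 0), (1, 0), (2, 0), (2, 1), (2, 3)], [(0, 0), (0, 3)], [], [(2, 0,
      [1]), (4, 0, [1]), (6, 3, [])]⟩,
    ⟨[(2, 3)], [(0, 0), (0, 4), (1, 0), (2, 0), (3, 0), (3, 3), (3, 4)], [(0, 3), (0, 4),
      (3, 4)], [], [(1, 4, [1]), (2, 0, [1]), (7, 3, [])]⟩,
    ⟨[(2, 3), (3, 4)], [(3, 0), (3, 3), (4, 0), (4, 3), (4, 4)], [(3, 3)], [6, 7], [(6, 3,
      []), (7, 3, [])]⟩]
  Ta := [((2, 1), 0, 4), ((4, 5), 0, 5), ((4, 6), 0, 3), ((6, 4), 3, 0), ((6, 9), 3, 7), ((7, 1),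
    3, 4), ((7, 8), 3, 6)]
  Tb := [((0, 1, 3), 2, 4, 1), ((1, 0, 2), 4, 2, 0), ((1, 0, 7), 4, 2, 3), ((1, 2, 7), 4, 0, 3),
    ((3, 0, 5), 1, 2, 5), ((4, 5, 6), 0, 5, 3), ((5, 3, 4), 5, 1, 0), ((6, 4, 9), 3, 0, 7),
    ((7, 1, 8), 3, 4, 6), ((8, 7, 9), 6, 3, 7), ((9, 6, 8), 7, 3, 6)]
  Tc := [(1, 0, 4)]
  Td := [((0, 1), (2, 1), 4), ((0, 1), (4, 5), 5), ((0, 1), (4, 6), 3), ((1, 0), (3, 0), 2), ((1,
    0), (3, 5), 5), ((1, 4), (3, 0), 2), ((1, 4), (3, 5), 5), ((4, 1), (1, 0), 2), ((4, 1),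
    (1, 2), 0), ((4, 1), (1, 7), 3)]
  G := [[0, 0xf4284f24f2f8ac45, 0xf2f46f2f8ac42, 0xd234aa4f848cf484748484e8cc, 0xf2f46f2f8ac82],
    [0, 0xf2ffc64f6fbcca41, 0xffaf46f2ffcac82, 0xd7a457a88ac4db684b2d468cc,
    0xf2ffc6ff6f8ac82], [0, 0xf2f46f498c684e81, 0xf2f46d27acac42, 0x32f282ef261aac41,
    0xf2b46f278ac81], [0, 0x22ffdeaff6f8c641, 0x111ef4111ef8c42, 0xd9fe446df6d8ac81,
    0x111ef2111ef2c82]]

noncomputable def n1453 : Ent := ⟨e1453, noF, [], [], []⟩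

def c1453 : PLift (Cov.check n1453.C.D v1453 = true) := ⟨by decide +kernel⟩

def b1453 : PLift (entF (fidx ts) 400 1453 n1453 = true) := ⟨by decide +kernel⟩

theorem g1453 : GoodF (fidx ts) 400 1453 := GoodF.ofV v1453 n1453 c1453.down b1453.down

/-- 456656:1147 -/
noncomputable def e1454 : SCfg where
  D := {
    a := 6
    L := 11
    kp := 8
    inn := [(0, 1), (1, 0), (1, 2), (2, 1), (2, 3), (3, 2), (3, 4), (3, 5), (4, 3), (4, 5), (5, 3), (5,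
      4)]
    mix := [(0, 0), (0, 1), (0, 2), (1, 0), (1, 2), (1, 3), (2, 2), (2, 3), (2, 4), (2, 5), (3, 2), (3,
      4), (3, 6), (4, 2), (4, 7), (4, 8), (5, 6), (5, 8), (5, 9), (5, 10)]
    cl := [2, 4, 0, 1, 0, 5, 3, 6, 3, 7, 8]
    chq := [(0, 1), (1, 0), (1, 4), (4, 1)]
    rng := [(0, 1), (0, 3), (1, 0), (1, 2), (2, 1), (2, 7), (3, 0), (3, 5), (4, 5), (4, 6), (5, 3), (5,
      4), (6, 4), (6, 10), (7, 2), (7, 8), (8, 7), (8, 9), (9, 8), (9, 10), (10, 6), (10, 9)]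
    lev := [] }
  links := [[1, 6, 7, 8], [6, 0, 8, 2, 9], [9, 1, 8, 3, 10, 11], [10, 2, 8, 4, 5, 12], [5, 3, 8, 13, 14],
    [12, 3, 4, 14, 15, 16]]
  P := {
    a := 6
    N := 17
    nb := [450, 837, 3850, 5428, 24872, 118808, 643, 321, 8351, 2118, 6156, 1540, 66600, 16656, 41008,
      81952, 36896]
    tri := [(0, 1, 6), (0, 1, 8), (0, 6, 7), (0, 7, 8), (1, 2, 8), (1, 2, 9), (1, 6, 9), (2, 3, 8), (2,
      3, 10), (2, 9, 11), (2, 10, 11), (3, 4, 5), (3, 4, 8), (3, 5, 12), (3, 10, 12), (4, 5, 14),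
      (4, 8, 13), (4, 13, 14), (5, 12, 16), (5, 14, 15), (5, 15, 16)]
    fin := [0, 0, 2, 2, 2, 5, 6, 0, 2, 9, 2, 11, 5, 13, 5, 15, 16]
    chd := [(0, 9), (2, 9)]
    steps := [(0, 1), (0, 7), (2, 3), (2, 4), (2, 8), (2, 10), (5, 14), (5, 12)] }
  rep := [2, 9, 6, 5, 0, 11, 13, 15, 16]

noncomputable def v1454 : Cov.CovD where
  P := 3
  N := 6
  pl := [0, 5, 7, 9, 10]
  lev := [⟨[], [], [(0, 4)], [2], [(1, 4, [1]), (2, 0, [1])]⟩,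
    ⟨[], [(0, 0), (0, 1), (0, 4)], [(0, 1)], [2], [(2, 0, [1]), (3, 1, [0, 4])]⟩,
    ⟨[(0, 1)], [(0, 0), (1, 0), (1, 1)], [(0, 0), (0, 1)], [5], [(2, 0, [1]), (3, 1, [0,
      4]), (4, 0, [1])]⟩,
    ⟨[(1, 2)], [(0, 0), (1, 0), (2, 0), (2, 1), (2, 3)], [(0, 0), (0, 3)], [], [(2, 0,
      [1]), (4, 0, [1]), (6, 3, [])]⟩,
    ⟨[(2, 3)], [(0, 0), (1, 0), (2, 0), (3, 0), (3, 3)], [(0, 3)], [6], [(2, 0, [1]), (8,
      3, [])]⟩,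
    ⟨[(2, 3), (3, 4)], [(3, 0), (3, 3), (4, 0), (4, 3)], [(3, 3)], [7, 8], [(6, 3, []), (8,
      3, [])]⟩]
  Ta := [((2, 1), 0, 4), ((2, 7), 0, 6), ((4, 5), 0, 5), ((4, 6), 0, 3), ((6, 4), 3, 0), ((6,
    10), 3, 8), ((8, 7), 3, 6), ((8, 9), 3, 7)]
  Tb := [((0, 1, 3), 2, 4, 1), ((1, 0, 2), 4, 2, 0), ((2, 1, 7), 0, 4, 6), ((3, 0, 5), 1, 2, 5),
    ((4, 5, 6), 0, 5, 3), ((5, 3, 4), 5, 1, 0), ((6, 4, 10), 3, 0, 8), ((7, 2, 8), 6, 0, 3),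
    ((8, 7, 9), 3, 6, 7), ((9, 8, 10), 7, 3, 8), ((10, 6, 9), 8, 3, 7)]
  Tc := [(1, 0, 4)]
  Td := [((0, 1), (2, 1), 4), ((0, 1), (2, 7), 6), ((0, 1), (4, 5), 5), ((0, 1), (4, 6), 3), ((1,
    0), (3, 0), 2), ((1, 0), (3, 5), 5), ((1, 4), (3, 0), 2), ((1, 4), (3, 5), 5), ((4, 1),
    (1, 0), 2), ((4, 1), (1, 2), 0)]
  G := [[0, 0xd27866bc2b4d2ce41, 0x347ca84ef2f8ac42, 0xf2f46ad678ac4f2f46f2f8ac8c,
    0xf2f46f2f8ac82], [0, 0xfbfe446f4ffaca41, 0xffaf46f2ffcac42,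
    0xfbfe4467ffe88ac422ffde67ffe88ac8c, 0xfbfe446f2ffcac82], [0, 0xf2f46f4f8ca81,
    0xf2f46f2f8ac82, 0xf2f46f2f8ac81, 0xf2f46f2f8ac82], [0, 0xf2ffcaf4ffac641,
    0x111ef2111ef8c42, 0x22ffde6ff6f8ac41, 0x111ef4111ef8c82]]

noncomputable def n1454 : Ent := ⟨e1454, noF, [], [], [(6, 15, [1685356702439545624007900436039642273970977273354372543760006033409, 0]), (6, 16, [1580044410770988437309982408355971841652082177953823432505695059969, 0]), (7, 13, [1685382419725355503238989871268909155780284044704628512909405376513, 0])]⟩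

def c1454 : PLift (Cov.check n1454.C.D v1454 = true) := ⟨by decide +kernel⟩

def b1454 : PLift (entF (fidx ts) 400 1454 n1454 = true) := ⟨by decide +kernel⟩

theorem g1454 : GoodF (fidx ts) 400 1454 := GoodF.ofV v1454 n1454 c1454.down b1454.down

/-- 468454:1155/1 -/
noncomputable def e1455 : SCfg where
  D := {
    a := 6
    L := 10
    kp := 7
    inn := [(0, 1), (1, 0), (1, 2), (2, 1), (2, 3), (2, 4), (3, 2), (4, 2), (4, 5), (5, 4)]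
    mix := [(0, 0), (0, 1), (0, 2), (1, 0), (1, 2), (1, 3), (1, 4), (2, 3), (2, 4), (2, 5), (2, 6), (2,
      7), (3, 3), (3, 5), (3, 8), (4, 5), (4, 6), (4, 9), (5, 1), (5, 5), (5, 9)]
    cl := [1, 4, 2, 0, 0, 3, 3, 6, 7, 5]
    chq := [(0, 4), (4, 0), (6, 7), (7, 6)]
    rng := [(0, 1), (0, 4), (1, 0), (1, 2), (1, 5), (1, 9), (2, 1), (2, 3), (3, 2), (3, 8), (4, 0), (4,
      7), (5, 1), (5, 8), (6, 7), (6, 9), (7, 4), (7, 6), (8, 3), (8, 5), (9, 1), (9, 6)]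
    lev := [] }
  links := [[1, 6, 7, 8], [6, 0, 8, 9, 2, 10], [10, 1, 9, 3, 11, 4, 12, 13], [11, 2, 9, 14], [12, 2, 11,
    5, 15], [15, 4, 11, 7]]
  P := {
    a := 6
    N := 16
    nb := [450, 1861, 15898, 18948, 38948, 34960, 1155, 35169, 643, 16654, 8262, 16572, 40980, 5124,
      2568, 4272]
    tri := [(0, 1, 6), (0, 1, 8), (0, 6, 7), (0, 7, 8), (1, 2, 9), (1, 2, 10), (1, 6, 10), (1, 8, 9),
      (2, 3, 9), (2, 3, 11), (2, 4, 11), (2, 4, 12), (2, 10, 13), (2, 12, 13), (3, 9, 14), (3, 11,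
      14), (4, 5, 11), (4, 5, 15), (4, 12, 15), (5, 7, 11), (5, 7, 15)]
    fin := [0, 1, 2, 2, 4, 0, 6, 0, 8, 1, 1, 4, 4, 13, 2, 15]
    chd := [(0, 1), (13, 2)]
    steps := [(0, 7), (0, 5), (1, 9), (1, 10), (2, 3), (2, 14), (4, 11), (4, 12)] }
  rep := [1, 6, 8, 4, 0, 15, 13, 2]

noncomputable def v1455 : Cov.CovD where
  P := 3
  N := 5
  pl := [0, 2, 9]
  lev := [⟨[], [], [], [1, 2], [(1, 4, [0])]⟩,
    ⟨[], [(0, 0), (0, 4)], [(0, 0)], [1, 2], [(3, 0, [4]), (4, 0, [4])]⟩,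
    ⟨[(0, 1)], [(1, 0), (1, 3), (1, 6)], [(0, 0), (0, 3), (0, 6), (3, 3), (3, 6)], [], [(3,
      0, [4]), (4, 0, [4]), (5, 3, []), (6, 3, []), (7, 6, [7])]⟩,
    ⟨[(1, 2)], [(1, 0), (2, 0), (2, 3), (2, 6), (2, 7)], [(0, 3), (0, 7), (3, 7)], [], [(3,
      0, [4]), (5, 3, []), (8, 7, [6])]⟩,
    ⟨[(1, 2), (2, 3)], [(2, 0), (2, 3), (2, 6), (3, 3)], [(3, 3)], [5], [(5, 3, []), (6, 3,
      [])]⟩,
    ⟨[(2, 4)], [(0, 4), (2, 3), (3, 3), (4, 3), (4, 4)], [(3, 4)], [5], [(1, 4, [0]), (5,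
      3, [])]⟩]
  Ta := [((3, 2), 0, 2), ((3, 8), 0, 7), ((4, 0), 0, 1), ((4, 7), 0, 6), ((5, 1), 3, 4), ((5, 8),
    3, 7), ((6, 7), 3, 6), ((6, 9), 3, 5)]
  Tb := [((0, 1, 4), 1, 4, 0), ((1, 0, 2), 4, 1, 2), ((1, 0, 5), 4, 1, 3), ((1, 0, 9), 4, 1, 5),
    ((1, 2, 5), 4, 2, 3), ((1, 2, 9), 4, 2, 5), ((1, 5, 9), 4, 3, 5), ((2, 1, 3), 2, 4, 0),
    ((3, 2, 8), 0, 2, 7), ((4, 0, 7), 0, 1, 6), ((5, 1, 8), 3, 4, 7), ((6, 7, 9), 3, 6, 5),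
    ((7, 4, 6), 6, 0, 3), ((8, 3, 5), 7, 0, 3), ((9, 1, 6), 5, 4, 3)]
  Tc := []
  Td := [((0, 4), (3, 2), 2), ((0, 4), (3, 8), 7), ((0, 4), (4, 0), 1), ((0, 4), (4, 7), 6), ((4,
    0), (1, 0), 1), ((4, 0), (1, 2), 2), ((4, 0), (1, 5), 3), ((4, 0), (1, 9), 5), ((6, 7),
    (7, 4), 0), ((6, 7), (7, 6), 3), ((7, 6), (8, 3), 0), ((7, 6), (8, 5), 3)]
  G := [[0, 0, 0x8158136819213a829215ce4415213651c413a219415ce8c, 0xc952936c59253aa39635ce41,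
    0xc15a13817c59653aa39635ce81], [0, 0, 0x861b88154612c48c419844517214a8acc,
    0x1228f4325b825982ce41, 0xc497222c9a6aa93d4e81], [0,
    0x8482117882211b882411de44264153484211b284411de8c, 0, 0x2cc22917c2a253964a395e41,
    0xc4a935c6ac593a6ca395e81], [0, 0x82a113a864621c48ca15144517214a8acc, 0,
    0xc297412c81922cd1e81, 0xca972c65b2a6c315e81]]

noncomputable def n1455 : Ent := ⟨e1455, noF, [], [], []⟩

def c1455 : PLift (Cov.check n1455.C.D v1455 = true) := ⟨by decide +kernel⟩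

def b1455 : PLift (entF (fidx ts) 400 1455 n1455 = true) := ⟨by decide +kernel⟩

theorem g1455 : GoodF (fidx ts) 400 1455 := GoodF.ofV v1455 n1455 c1455.down b1455.down

/-- 468454:1155/3 -/
noncomputable def e1456 : SCfg where
  D := {
    a := 6
    L := 9
    kp := 6
    inn := [(0, 1), (1, 0), (1, 2), (2, 1), (2, 3), (2, 4), (3, 2), (4, 2), (4, 5), (5, 4)]
    mix := [(0, 0), (0, 1), (0, 2), (1, 0), (1, 2), (1, 3), (1, 4), (2, 3), (2, 4), (2, 5), (2, 6), (2,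
      7), (3, 3), (3, 5), (3, 8), (4, 1), (4, 5), (4, 6), (5, 1), (5, 5), (5, 8)]
    cl := [4, 2, 5, 1, 1, 0, 0, 6, 3]
    chq := [(1, 2), (2, 1), (3, 6), (6, 3)]
    rng := [(0, 1), (0, 4), (1, 0), (1, 2), (1, 6), (1, 8), (2, 1), (2, 3), (3, 2), (3, 8), (4, 0), (4,
      7), (5, 8), (6, 1), (6, 7), (7, 4), (7, 6), (8, 1), (8, 3), (8, 5)]
    lev := [] }
  links := [[1, 6, 7, 8], [6, 0, 8, 9, 2, 10], [10, 1, 9, 3, 11, 4, 12, 13], [11, 2, 9, 14], [12, 2, 11,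
    5, 7], [7, 4, 11, 14]]
  P := {
    a := 6
    N := 15
    nb := [450, 1861, 15898, 18948, 6308, 18576, 1155, 20849, 643, 16654, 8262, 16444, 8340, 5124,
      2728]
    tri := [(0, 1, 6), (0, 1, 8), (0, 6, 7), (0, 7, 8), (1, 2, 9), (1, 2, 10), (1, 6, 10), (1, 8, 9),
      (2, 3, 9), (2, 3, 11), (2, 4, 11), (2, 4, 12), (2, 10, 13), (2, 12, 13), (3, 9, 14), (3, 11,
      14), (4, 5, 7), (4, 5, 11), (4, 7, 12), (5, 7, 14), (5, 11, 14)]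
    fin := [0, 1, 2, 2, 4, 0, 6, 0, 8, 1, 1, 4, 4, 13, 2]
    chd := [(0, 1), (13, 2)]
    steps := [(0, 7), (0, 5), (1, 9), (1, 10), (2, 3), (2, 14), (4, 11), (4, 12)] }
  rep := [4, 1, 0, 2, 6, 8, 13]

noncomputable def v1456 : Cov.CovD where
  P := 3
  N := 4
  pl := [0, 2]
  lev := [⟨[], [], [], [4, 5], [(1, 2, [1])]⟩,
    ⟨[], [(0, 1), (0, 2)], [(1, 1)], [4, 5], [(3, 1, [2]), (4, 1, [2])]⟩,
    ⟨[(0, 1)], [(1, 0), (1, 1), (1, 6)], [(0, 0), (0, 1), (0, 6), (1, 1), (1, 6)], [], [(3,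
      1, [2]), (4, 1, [2]), (5, 0, []), (6, 0, []), (7, 6, [3])]⟩,
    ⟨[(1, 2)], [(1, 1), (2, 0), (2, 1), (2, 3), (2, 6)], [(0, 1), (0, 3), (1, 3)], [], [(3,
      1, [2]), (5, 0, []), (8, 3, [6])]⟩,
    ⟨[(1, 2), (2, 3)], [(0, 2), (2, 0), (2, 1), (2, 2), (2, 6), (3, 0)], [(0, 0), (0, 2)],
      [], [(1, 2, [1]), (5, 0, []), (6, 0, [])]⟩,
    ⟨[(2, 4)], [(0, 2), (2, 0), (3, 0), (3, 3), (4, 0), (4, 2), (4, 3)], [(0, 2), (0, 3),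
      (2, 3)], [], [(1, 2, [1]), (5, 0, []), (8, 3, [6])]⟩]
  Ta := [((3, 2), 1, 5), ((3, 8), 1, 3), ((4, 0), 1, 4), ((4, 7), 1, 6), ((5, 8), 0, 3), ((6, 1),
    0, 2), ((6, 7), 0, 6)]
  Tb := [((0, 1, 4), 4, 2, 1), ((1, 0, 2), 2, 4, 5), ((1, 0, 6), 2, 4, 0), ((1, 0, 8), 2, 4, 3),
    ((1, 2, 6), 2, 5, 0), ((1, 2, 8), 2, 5, 3), ((1, 6, 8), 2, 0, 3), ((2, 1, 3), 5, 2, 1),
    ((3, 2, 8), 1, 5, 3), ((4, 0, 7), 1, 4, 6), ((6, 1, 7), 0, 2, 6), ((7, 4, 6), 6, 1, 0),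
    ((8, 1, 3), 3, 2, 1), ((8, 1, 5), 3, 2, 0), ((8, 3, 5), 3, 1, 0)]
  Tc := []
  Td := [((1, 2), (3, 2), 5), ((1, 2), (3, 8), 3), ((1, 2), (4, 0), 4), ((1, 2), (4, 7), 6), ((2,
    1), (1, 0), 4), ((2, 1), (1, 2), 5), ((2, 1), (1, 6), 0), ((2, 1), (1, 8), 3), ((3, 6),
    (8, 1), 2), ((3, 6), (8, 3), 1), ((3, 6), (8, 5), 0), ((6, 3), (7, 4), 1), ((6, 3), (7,
    6), 0)]
  G := [[0, 0xc82444688444c888a448c244462d, 0, 0x24284c42842c8824c242288c17,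
    0x2282c42248ca248a24888cca24888c1b], [0, 0x8848a48468c42848a4444888c2d, 0,
    0x444c88c482c82cc244882c13, 0x28242248c2228222822cc224288c1b], [0,
    0x18214468142148a4182188a2d, 0x244241c1424288c1424821c1e, 0x442182c142888c481182cd2,
    0x18842218c1248124128cc124881c1b], [0, 0x18218468142148a418214462d,
    0x422881c1224282c1222222c1e, 0x441182c142188c441182cd2,
    0x22142218c2248224221cc221822c1b]]

noncomputable def n1456 : Ent := ⟨e1456, noF, [], [], []⟩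

def c1456 : PLift (Cov.check n1456.C.D v1456 = true) := ⟨by decide +kernel⟩

def b1456 : PLift (entF (fidx ts) 400 1456 n1456 = true) := ⟨by decide +kernel⟩

theorem g1456 : GoodF (fidx ts) 400 1456 := GoodF.ofV v1456 n1456 c1456.down b1456.down

/-- 468454:1155/2 -/
noncomputable def e1457 : SCfg where
  D := {
    a := 6
    L := 10
    kp := 7
    inn := [(0, 1), (1, 0), (1, 2), (2, 1), (2, 3), (2, 4), (3, 2), (4, 2), (4, 5), (5, 4)]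
    mix := [(0, 0), (0, 1), (0, 2), (1, 0), (1, 2), (1, 3), (1, 4), (2, 3), (2, 4), (2, 5), (2, 6), (2,
      7), (3, 3), (3, 5), (3, 8), (4, 1), (4, 5), (4, 6), (5, 1), (5, 5), (5, 9)]
    cl := [1, 4, 2, 0, 0, 3, 3, 5, 6, 7]
    chq := [(0, 4), (4, 0), (5, 6), (6, 5)]
    rng := [(0, 1), (0, 4), (1, 0), (1, 2), (1, 6), (1, 9), (2, 1), (2, 3), (3, 2), (3, 8), (4, 0), (4,
      7), (5, 8), (5, 9), (6, 1), (6, 7), (7, 4), (7, 6), (8, 3), (8, 5), (9, 1), (9, 5)]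
    lev := [] }
  links := [[1, 6, 7, 8], [6, 0, 8, 9, 2, 10], [10, 1, 9, 3, 11, 4, 12, 13], [11, 2, 9, 14], [12, 2, 11,
    5, 7], [7, 4, 11, 15]]
  P := {
    a := 6
    N := 16
    nb := [450, 1861, 15898, 18948, 6308, 34960, 1155, 37233, 643, 16654, 8262, 49212, 8340, 5124,
      2568, 2208]
    tri := [(0, 1, 6), (0, 1, 8), (0, 6, 7), (0, 7, 8), (1, 2, 9), (1, 2, 10), (1, 6, 10), (1, 8, 9),
      (2, 3, 9), (2, 3, 11), (2, 4, 11), (2, 4, 12), (2, 10, 13), (2, 12, 13), (3, 9, 14), (3, 11,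
      14), (4, 5, 7), (4, 5, 11), (4, 7, 12), (5, 7, 15), (5, 11, 15)]
    fin := [0, 1, 2, 2, 4, 0, 6, 0, 8, 1, 1, 4, 4, 13, 2, 15]
    chd := [(0, 1), (13, 2)]
    steps := [(0, 7), (0, 5), (1, 9), (1, 10), (2, 3), (2, 14), (4, 11), (4, 12)] }
  rep := [1, 6, 8, 4, 0, 13, 2, 15]

noncomputable def v1457 : Cov.CovD where
  P := 3
  N := 5
  pl := [0, 2, 9]
  lev := [⟨[], [], [], [1, 2], [(1, 4, [0])]⟩,
    ⟨[], [(0, 0), (0, 4)], [(0, 0)], [1, 2], [(3, 0, [4]), (4, 0, [4])]⟩,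
    ⟨[(0, 1)], [(1, 0), (1, 3), (1, 5)], [(0, 0), (0, 3), (0, 5), (3, 3), (3, 5)], [], [(3,
      0, [4]), (4, 0, [4]), (5, 3, []), (6, 3, []), (7, 5, [6])]⟩,
    ⟨[(1, 2)], [(1, 0), (2, 0), (2, 3), (2, 5), (2, 6)], [(0, 3), (0, 6), (3, 6)], [], [(3,
      0, [4]), (5, 3, []), (8, 6, [5])]⟩,
    ⟨[(1, 2), (2, 3)], [(0, 4), (2, 0), (2, 3), (2, 4), (2, 5), (3, 3)], [(3, 3), (3, 4)],
      [], [(1, 4, [0]), (5, 3, []), (6, 3, [])]⟩,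
    ⟨[(2, 4)], [(0, 4), (2, 3), (3, 3), (4, 3), (4, 4)], [(3, 4)], [7], [(1, 4, [0]), (5,
      3, [])]⟩]
  Ta := [((3, 2), 0, 2), ((3, 8), 0, 6), ((4, 0), 0, 1), ((4, 7), 0, 5), ((5, 8), 3, 6), ((5, 9),
    3, 7), ((6, 1), 3, 4), ((6, 7), 3, 5)]
  Tb := [((0, 1, 4), 1, 4, 0), ((1, 0, 2), 4, 1, 2), ((1, 0, 6), 4, 1, 3), ((1, 0, 9), 4, 1, 7),
    ((1, 2, 6), 4, 2, 3), ((1, 2, 9), 4, 2, 7), ((1, 6, 9), 4, 3, 7), ((2, 1, 3), 2, 4, 0),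
    ((3, 2, 8), 0, 2, 6), ((4, 0, 7), 0, 1, 5), ((5, 8, 9), 3, 6, 7), ((6, 1, 7), 3, 4, 5),
    ((7, 4, 6), 5, 0, 3), ((8, 3, 5), 6, 0, 3), ((9, 1, 5), 7, 4, 3)]
  Tc := []
  Td := [((0, 4), (3, 2), 2), ((0, 4), (3, 8), 6), ((0, 4), (4, 0), 1), ((0, 4), (4, 7), 5), ((4,
    0), (1, 0), 1), ((4, 0), (1, 2), 2), ((4, 0), (1, 6), 3), ((4, 0), (1, 9), 7), ((5, 6),
    (7, 4), 0), ((5, 6), (7, 6), 3), ((6, 5), (8, 3), 0), ((6, 5), (8, 5), 3)]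
  G := [[0, 0, 0xd8a53a88a79c69148c5184d469366358acc, 0xc95b26c5972aa39635ce81,
    0xc95a936c59653aa39635ce81], [0, 0, 0x18941881a914e451214521354e8c,
    0x2b27422592a25278e81, 0x325443623c583a489a3ce81], [0,
    0xe87194a2915314ac65384e4315f11acc, 0, 0xc4a2917c86251ba86431de81,
    0xc4a2917c86251ba86431de81], [0, 0xa11418921398ac511414521458acc, 0, 0x2b27425278d21e81,
    0xc5972a35151a8421de81]]

noncomputable def n1457 : Ent := ⟨e1457, noF, [], [], [(14, 15, [360035742630636841211993100915356868655746945586763691013636097, 0])]⟩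

def c1457 : PLift (Cov.check n1457.C.D v1457 = true) := ⟨by decide +kernel⟩

def b1457 : PLift (entF (fidx ts) 400 1457 n1457 = true) := ⟨by decide +kernel⟩

theorem g1457 : GoodF (fidx ts) 400 1457 := GoodF.ofV v1457 n1457 c1457.down b1457.down

/-- 468454:1155/4 -/
noncomputable def e1458 : SCfg where
  D := {
    a := 6
    L := 10
    kp := 7
    inn := [(0, 1), (1, 0), (1, 2), (2, 1), (2, 3), (2, 4), (3, 2), (4, 2), (4, 5), (5, 4)]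
    mix := [(0, 0), (0, 1), (0, 2), (1, 0), (1, 2), (1, 3), (1, 4), (2, 3), (2, 4), (2, 5), (2, 6), (2,
      7), (3, 3), (3, 5), (3, 8), (4, 5), (4, 6), (4, 9), (5, 5), (5, 8), (5, 9)]
    cl := [1, 6, 2, 0, 0, 3, 3, 7, 4, 5]
    chq := [(0, 6), (4, 7), (6, 0), (7, 4)]
    rng := [(0, 1), (0, 4), (1, 0), (1, 2), (2, 1), (2, 3), (3, 2), (3, 8), (4, 0), (4, 7), (5, 8), (6,
      7), (6, 9), (7, 4), (7, 6), (8, 3), (8, 5), (8, 9), (9, 6), (9, 8)]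
    lev := [] }
  links := [[1, 6, 7, 8], [6, 0, 8, 9, 2, 10], [10, 1, 9, 3, 11, 4, 12, 13], [11, 2, 9, 14], [12, 2, 11,
    5, 15], [15, 4, 11, 14]]
  P := {
    a := 6
    N := 16
    nb := [450, 1861, 15898, 18948, 38948, 51216, 1155, 321, 643, 16654, 8262, 16444, 40980, 5124,
      35368, 20528]
    tri := [(0, 1, 6), (0, 1, 8), (0, 6, 7), (0, 7, 8), (1, 2, 9), (1, 2, 10), (1, 6, 10), (1, 8, 9),
      (2, 3, 9), (2, 3, 11), (2, 4, 11), (2, 4, 12), (2, 10, 13), (2, 12, 13), (3, 9, 14), (3, 11,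
      14), (4, 5, 11), (4, 5, 15), (4, 12, 15), (5, 11, 14), (5, 14, 15)]
    fin := [0, 1, 2, 2, 4, 2, 6, 0, 8, 1, 1, 4, 4, 13, 2, 15]
    chd := [(0, 1), (13, 2)]
    steps := [(0, 7), (1, 9), (1, 10), (2, 3), (2, 14), (4, 11), (2, 5), (4, 12)] }
  rep := [1, 6, 8, 4, 2, 15, 0, 13]

noncomputable def v1458 : Cov.CovD where
  P := 3
  N := 5
  pl := [0, 2, 9]
  lev := [⟨[], [], [], [1, 2], [(1, 6, [0])]⟩,
    ⟨[], [(0, 0), (0, 6)], [(0, 0)], [1, 2], [(3, 0, [6]), (4, 0, [6])]⟩,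
    ⟨[(0, 1)], [(1, 0), (1, 3), (1, 7)], [(0, 0), (0, 3), (0, 7), (3, 3), (3, 7)], [], [(3,
      0, [6]), (4, 0, [6]), (5, 3, []), (6, 3, []), (7, 7, [4])]⟩,
    ⟨[(1, 2)], [(1, 0), (2, 0), (2, 3), (2, 4), (2, 7)], [(0, 3), (0, 4), (3, 4)], [], [(3,
      0, [6]), (5, 3, []), (8, 4, [7])]⟩,
    ⟨[(1, 2), (2, 3)], [(2, 0), (2, 3), (2, 7), (3, 3)], [(3, 3)], [5], [(5, 3, []), (6, 3,
      [])]⟩,
    ⟨[(2, 4)], [(2, 3), (3, 3), (3, 4), (4, 3), (4, 4)], [(3, 4)], [5], [(5, 3, []), (8, 4,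
      [7])]⟩]
  Ta := [((3, 2), 0, 2), ((3, 8), 0, 4), ((4, 0), 0, 1), ((4, 7), 0, 7), ((5, 8), 3, 4), ((6, 7),
    3, 7), ((6, 9), 3, 5)]
  Tb := [((0, 1, 4), 1, 6, 0), ((1, 0, 2), 6, 1, 2), ((2, 1, 3), 2, 6, 0), ((3, 2, 8), 0, 2, 4),
    ((4, 0, 7), 0, 1, 7), ((6, 7, 9), 3, 7, 5), ((7, 4, 6), 7, 0, 3), ((8, 3, 5), 4, 0, 3),
    ((8, 3, 9), 4, 0, 5), ((8, 5, 9), 4, 3, 5), ((9, 6, 8), 5, 3, 4)]
  Tc := []
  Td := [((0, 6), (3, 2), 2), ((0, 6), (3, 8), 4), ((0, 6), (4, 0), 1), ((0, 6), (4, 7), 7), ((4,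
    7), (8, 3), 0), ((4, 7), (8, 5), 3), ((4, 7), (8, 9), 5), ((6, 0), (1, 0), 1), ((6, 0),
    (1, 2), 2), ((7, 4), (7, 4), 0), ((7, 4), (7, 6), 3)]
  G := [[0, 0, 0xc152136819213a819615ce4819213a414c213681a416cacc, 0x4952936c59253aa39435ce81,
    0x4952936c59253aa39435ce81], [0, 0, 0x552e2881b2154b8e4861b851386241d48cc,
    0x642936825b2863d8e41, 0xc297227589452f8e81], [0,
    0xc422117882211b886411de4224153c2ac193a84411de8c, 0, 0xc422117882211b84c6159e41,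
    0x442135c82211b88442811fe81], [0, 0xc2172861b284a119e4321784211d48134acc, 0,
    0x521b2281b1871e8e41, 0x4a172891d2191b4e81]]

noncomputable def n1458 : Ent := ⟨e1458, noF, [], [], [(7, 15, [360035742630636841211993100915356868655746945586763691013636097, 0])]⟩

def c1458 : PLift (Cov.check n1458.C.D v1458 = true) := ⟨by decide +kernel⟩

def b1458 : PLift (entF (fidx ts) 400 1458 n1458 = true) := ⟨by decide +kernel⟩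

theorem g1458 : GoodF (fidx ts) 400 1458 := GoodF.ofV v1458 n1458 c1458.down b1458.down

/-- 468454:1155 -/
noncomputable def e1459 : SCfg where
  D := {
    a := 6
    L := 11
    kp := 8
    inn := [(0, 1), (1, 0), (1, 2), (2, 1), (2, 3), (2, 4), (3, 2), (4, 2), (4, 5), (5, 4)]
    mix := [(0, 0), (0, 1), (0, 2), (1, 0), (1, 2), (1, 3), (1, 4), (2, 3), (2, 4), (2, 5), (2, 6), (2,
      7), (3, 3), (3, 5), (3, 8), (4, 5), (4, 6), (4, 9), (5, 5), (5, 9), (5, 10)]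
    cl := [1, 5, 2, 0, 0, 3, 3, 6, 7, 4, 8]
    chq := [(0, 5), (5, 0), (6, 7), (7, 6)]
    rng := [(0, 1), (0, 4), (1, 0), (1, 2), (2, 1), (2, 3), (3, 2), (3, 8), (4, 0), (4, 7), (5, 8), (5,
      10), (6, 7), (6, 9), (7, 4), (7, 6), (8, 3), (8, 5), (9, 6), (9, 10), (10, 5), (10, 9)]
    lev := [] }
  links := [[1, 6, 7, 8], [6, 0, 8, 9, 2, 10], [10, 1, 9, 3, 11, 4, 12, 13], [11, 2, 9, 14], [12, 2, 11,
    5, 15], [15, 4, 11, 16]]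
  P := {
    a := 6
    N := 17
    nb := [450, 1861, 15898, 18948, 38948, 100368, 1155, 321, 643, 16654, 8262, 81980, 40980, 5124,
      2568, 69680, 34848]
    tri := [(0, 1, 6), (0, 1, 8), (0, 6, 7), (0, 7, 8), (1, 2, 9), (1, 2, 10), (1, 6, 10), (1, 8, 9),
      (2, 3, 9), (2, 3, 11), (2, 4, 11), (2, 4, 12), (2, 10, 13), (2, 12, 13), (3, 9, 14), (3, 11,
      14), (4, 5, 11), (4, 5, 15), (4, 12, 15), (5, 11, 16), (5, 15, 16)]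
    fin := [0, 1, 2, 2, 4, 4, 6, 0, 8, 1, 1, 4, 4, 13, 2, 15, 16]
    chd := [(0, 1), (13, 2)]
    steps := [(0, 7), (1, 9), (1, 10), (2, 3), (2, 14), (4, 5), (4, 11), (4, 12)] }
  rep := [1, 6, 8, 4, 15, 0, 13, 2, 16]

noncomputable def v1459 : Cov.CovD where
  P := 3
  N := 6
  pl := [0, 2, 9, 10]
  lev := [⟨[], [], [], [1, 2], [(1, 5, [0])]⟩,
    ⟨[], [(0, 0), (0, 5)], [(0, 0)], [1, 2], [(3, 0, [5]), (4, 0, [5])]⟩,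
    ⟨[(0, 1)], [(1, 0), (1, 3), (1, 6)], [(0, 0), (0, 3), (0, 6), (3, 3), (3, 6)], [], [(3,
      0, [5]), (4, 0, [5]), (5, 3, []), (6, 3, []), (7, 6, [7])]⟩,
    ⟨[(1, 2)], [(1, 0), (2, 0), (2, 3), (2, 6), (2, 7)], [(0, 3), (0, 7), (3, 7)], [], [(3,
      0, [5]), (5, 3, []), (8, 7, [6])]⟩,
    ⟨[(1, 2), (2, 3)], [(2, 0), (2, 3), (2, 6), (3, 3)], [(3, 3)], [4], [(5, 3, []), (6, 3,
      [])]⟩,
    ⟨[(2, 4)], [(2, 3), (3, 3), (4, 3)], [], [4, 8], [(5, 3, [])]⟩]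
  Ta := [((3, 2), 0, 2), ((3, 8), 0, 7), ((4, 0), 0, 1), ((4, 7), 0, 6), ((5, 8), 3, 7), ((5,
    10), 3, 8), ((6, 7), 3, 6), ((6, 9), 3, 4)]
  Tb := [((0, 1, 4), 1, 5, 0), ((1, 0, 2), 5, 1, 2), ((2, 1, 3), 2, 5, 0), ((3, 2, 8), 0, 2, 7),
    ((4, 0, 7), 0, 1, 6), ((5, 8, 10), 3, 7, 8), ((6, 7, 9), 3, 6, 4), ((7, 4, 6), 6, 0, 3),
    ((8, 3, 5), 7, 0, 3), ((9, 6, 10), 4, 3, 8), ((10, 5, 9), 8, 3, 4)]
  Tc := []
  Td := [((0, 5), (3, 2), 2), ((0, 5), (3, 8), 7), ((0, 5), (4, 0), 1), ((0, 5), (4, 7), 6), ((5,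
    0), (1, 0), 1), ((5, 0), (1, 2), 2), ((6, 7), (7, 4), 0), ((6, 7), (7, 6), 3), ((7, 6),
    (8, 3), 0), ((7, 6), (8, 5), 3)]
  G := [[0, 0, 0xc95a936c59653aa39635ce4c59653a4c95a936a39635cacc, 0xc95a936c59653aa39635ce81,
    0xc95a936c59653aa39635ce81], [0, 0, 0xca972c65b8a63d8e4c65b84368e416a63d8acc,
    0xca974c65b85128ace41, 0x244936c65b2a63d4e81], [0,
    0xca6c953c65b1a6c6359e4c4a2917c86251ba86431de8c, 0, 0xca971c8c6a51ba6ca395e81,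
    0xc4e2917c86539a6c6359e81], [0, 0xc65b2a93d4628bb48c22a9147aa583f462843958cc, 0,
    0xc4972c65b2a63d4e81, 0xca6613c65b245c923ce81]]

noncomputable def n1459 : Ent := ⟨e1459, noF, [], [], [(7, 16, [1580044410770988437309982408355971841652082177953823432505695072257, 0]), (7, 15, [1685356702439545624007900436039642273970977273354372543760006057985, 0]), (14, 16, [1580044410770988437309982408355971841652082177953823432505695084545, 0])]⟩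

def c1459 : PLift (Cov.check n1459.C.D v1459 = true) := ⟨by decide +kernel⟩

def b1459 : PLift (entF (fidx ts) 400 1459 n1459 = true) := ⟨by decide +kernel⟩

theorem g1459 : GoodF (fidx ts) 400 1459 := GoodF.ofV v1459 n1459 c1459.down b1459.down

/-- 468454:1156/1 -/
noncomputable def e1460 : SCfg where
  D := {
    a := 6
    L := 10
    kp := 7
    inn := [(0, 1), (1, 0), (1, 2), (2, 1), (2, 3), (2, 4), (3, 2), (4, 2), (4, 5), (5, 4)]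
    mix := [(0, 0), (0, 1), (0, 2), (1, 0), (1, 2), (1, 3), (1, 4), (2, 3), (2, 4), (2, 5), (2, 6), (2,
      7), (3, 3), (3, 5), (3, 8), (4, 1), (4, 5), (4, 6), (5, 1), (5, 6), (5, 9)]
    cl := [1, 4, 2, 0, 0, 3, 3, 5, 6, 7]
    chq := [(0, 4), (4, 0), (5, 6), (6, 5)]
    rng := [(0, 1), (0, 4), (1, 0), (1, 2), (1, 5), (1, 9), (2, 1), (2, 3), (3, 2), (3, 8), (4, 0), (4,
      7), (5, 1), (5, 8), (6, 7), (6, 9), (7, 4), (7, 6), (8, 3), (8, 5), (9, 1), (9, 6)]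
    lev := [] }
  links := [[1, 6, 7, 8], [6, 0, 8, 9, 2, 10], [10, 1, 9, 3, 11, 4, 12, 13], [11, 2, 9, 14], [12, 2, 11,
    7, 5], [12, 4, 7, 15]]
  P := {
    a := 6
    N := 16
    nb := [450, 1861, 15898, 18948, 6308, 37008, 1155, 35185, 643, 16654, 8262, 16540, 41012, 5124,
      2568, 4256]
    tri := [(0, 1, 6), (0, 1, 8), (0, 6, 7), (0, 7, 8), (1, 2, 9), (1, 2, 10), (1, 6, 10), (1, 8, 9),
      (2, 3, 9), (2, 3, 11), (2, 4, 11), (2, 4, 12), (2, 10, 13), (2, 12, 13), (3, 9, 14), (3, 11,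
      14), (4, 5, 7), (4, 5, 12), (4, 7, 11), (5, 7, 15), (5, 12, 15)]
    fin := [0, 1, 2, 2, 4, 0, 6, 0, 8, 1, 1, 4, 4, 13, 2, 15]
    chd := [(0, 1), (13, 2)]
    steps := [(0, 7), (0, 5), (1, 9), (1, 10), (2, 3), (2, 14), (4, 11), (4, 12)] }
  rep := [1, 6, 8, 4, 0, 13, 2, 15]

noncomputable def v1460 : Cov.CovD where
  P := 3
  N := 5
  pl := [0, 2, 9]
  lev := [⟨[], [], [], [1, 2], [(1, 4, [0])]⟩,
    ⟨[], [(0, 0), (0, 4)], [(0, 0)], [1, 2], [(3, 0, [4]), (4, 0, [4])]⟩,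
    ⟨[(0, 1)], [(1, 0), (1, 3), (1, 5)], [(0, 0), (0, 3), (0, 5), (3, 3), (3, 5)], [], [(3,
      0, [4]), (4, 0, [4]), (5, 3, []), (6, 3, []), (7, 5, [6])]⟩,
    ⟨[(1, 2)], [(1, 0), (2, 0), (2, 3), (2, 5), (2, 6)], [(0, 3), (0, 6), (3, 6)], [], [(3,
      0, [4]), (5, 3, []), (8, 6, [5])]⟩,
    ⟨[(1, 2), (2, 3)], [(0, 4), (2, 0), (2, 3), (2, 4), (2, 5), (3, 3)], [(3, 3), (3, 4)],
      [], [(1, 4, [0]), (5, 3, []), (6, 3, [])]⟩,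
    ⟨[(2, 4)], [(0, 4), (2, 3), (4, 3), (4, 4)], [(3, 4)], [7], [(1, 4, [0]), (6, 3, [])]⟩]
  Ta := [((3, 2), 0, 2), ((3, 8), 0, 6), ((4, 0), 0, 1), ((4, 7), 0, 5), ((5, 1), 3, 4), ((5, 8),
    3, 6), ((6, 7), 3, 5), ((6, 9), 3, 7)]
  Tb := [((0, 1, 4), 1, 4, 0), ((1, 0, 2), 4, 1, 2), ((1, 0, 5), 4, 1, 3), ((1, 0, 9), 4, 1, 7),
    ((1, 2, 5), 4, 2, 3), ((1, 2, 9), 4, 2, 7), ((1, 5, 9), 4, 3, 7), ((2, 1, 3), 2, 4, 0),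
    ((3, 2, 8), 0, 2, 6), ((4, 0, 7), 0, 1, 5), ((5, 1, 8), 3, 4, 6), ((6, 7, 9), 3, 5, 7),
    ((7, 4, 6), 5, 0, 3), ((8, 3, 5), 6, 0, 3), ((9, 1, 6), 7, 4, 3)]
  Tc := []
  Td := [((0, 4), (3, 2), 2), ((0, 4), (3, 8), 6), ((0, 4), (4, 0), 1), ((0, 4), (4, 7), 5), ((4,
    0), (1, 0), 1), ((4, 0), (1, 2), 2), ((4, 0), (1, 5), 3), ((4, 0), (1, 9), 7), ((5, 6),
    (7, 4), 0), ((5, 6), (7, 6), 3), ((6, 5), (8, 3), 0), ((6, 5), (8, 5), 3)]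
  G := [[0, 0, 0x283862181a9881ce4214162134a4134ce8c, 0x22972622972ad2d2ce41,
    0x2254436229936a449c96ce81], [0, 0, 0x1182aa4914a394ac512453626431cacc,
    0xca972c65b8a63d8e41, 0xca972c65b8a63d4e81], [0, 0x28386a1118819e42432a461114415acc, 0,
    0x2437192225312d25e81, 0x24671916229319c4c95e81], [0, 0x821b2a39469128c14514643136358acc,
    0, 0xca6913c65b8a63d8e41, 0xca972c65b8a6c315e81]]

noncomputable def n1460 : Ent := ⟨e1460, noF, [], [], []⟩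

def c1460 : PLift (Cov.check n1460.C.D v1460 = true) := ⟨by decide +kernel⟩

def b1460 : PLift (entF (fidx ts) 400 1460 n1460 = true) := ⟨by decide +kernel⟩

theorem g1460 : GoodF (fidx ts) 400 1460 := GoodF.ofV v1460 n1460 c1460.down b1460.down

/-- 468454:1156/2 -/
noncomputable def e1461 : SCfg where
  D := {
    a := 6
    L := 10
    kp := 7
    inn := [(0, 1), (1, 0), (1, 2), (2, 1), (2, 3), (2, 4), (3, 2), (4, 2), (4, 5), (5, 4)]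
    mix := [(0, 0), (0, 1), (0, 2), (1, 0), (1, 2), (1, 3), (1, 4), (2, 3), (2, 4), (2, 5), (2, 6), (2,
      7), (3, 3), (3, 5), (3, 8), (4, 5), (4, 6), (4, 9), (5, 1), (5, 6), (5, 9)]
    cl := [1, 4, 2, 0, 0, 3, 3, 6, 7, 5]
    chq := [(0, 4), (4, 0), (6, 7), (7, 6)]
    rng := [(0, 1), (0, 4), (1, 0), (1, 2), (1, 6), (1, 9), (2, 1), (2, 3), (3, 2), (3, 8), (4, 0), (4,
      7), (5, 8), (5, 9), (6, 1), (6, 7), (7, 4), (7, 6), (8, 3), (8, 5), (9, 1), (9, 5)]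
    lev := [] }
  links := [[1, 6, 7, 8], [6, 0, 8, 9, 2, 10], [10, 1, 9, 3, 11, 4, 12, 13], [11, 2, 9, 14], [12, 2, 11,
    15, 5], [12, 4, 15, 7]]
  P := {
    a := 6
    N := 16
    nb := [450, 1861, 15898, 18948, 38948, 37008, 1155, 37217, 643, 16654, 8262, 49180, 8372, 5124,
      2568, 2224]
    tri := [(0, 1, 6), (0, 1, 8), (0, 6, 7), (0, 7, 8), (1, 2, 9), (1, 2, 10), (1, 6, 10), (1, 8, 9),
      (2, 3, 9), (2, 3, 11), (2, 4, 11), (2, 4, 12), (2, 10, 13), (2, 12, 13), (3, 9, 14), (3, 11,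
      14), (4, 5, 12), (4, 5, 15), (4, 11, 15), (5, 7, 12), (5, 7, 15)]
    fin := [0, 1, 2, 2, 4, 0, 6, 0, 8, 1, 1, 4, 4, 13, 2, 15]
    chd := [(0, 1), (13, 2)]
    steps := [(0, 7), (0, 5), (1, 9), (1, 10), (2, 3), (2, 14), (4, 11), (4, 12)] }
  rep := [1, 6, 8, 4, 0, 15, 13, 2]

noncomputable def v1461 : Cov.CovD where
  P := 3
  N := 5
  pl := [0, 2, 9]
  lev := [⟨[], [], [], [1, 2], [(1, 4, [0])]⟩,
    ⟨[], [(0, 0), (0, 4)], [(0, 0)], [1, 2], [(3, 0, [4]), (4, 0, [4])]⟩,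
    ⟨[(0, 1)], [(1, 0), (1, 3), (1, 6)], [(0, 0), (0, 3), (0, 6), (3, 3), (3, 6)], [], [(3,
      0, [4]), (4, 0, [4]), (5, 3, []), (6, 3, []), (7, 6, [7])]⟩,
    ⟨[(1, 2)], [(1, 0), (2, 0), (2, 3), (2, 6), (2, 7)], [(0, 3), (0, 7), (3, 7)], [], [(3,
      0, [4]), (5, 3, []), (8, 7, [6])]⟩,
    ⟨[(1, 2), (2, 3)], [(2, 0), (2, 3), (2, 6), (3, 3)], [(3, 3)], [5], [(5, 3, []), (6, 3,
      [])]⟩,
    ⟨[(2, 4)], [(0, 4), (2, 3), (4, 3), (4, 4)], [(3, 4)], [5], [(1, 4, [0]), (6, 3, [])]⟩]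
  Ta := [((3, 2), 0, 2), ((3, 8), 0, 7), ((4, 0), 0, 1), ((4, 7), 0, 6), ((5, 8), 3, 7), ((5, 9),
    3, 5), ((6, 1), 3, 4), ((6, 7), 3, 6)]
  Tb := [((0, 1, 4), 1, 4, 0), ((1, 0, 2), 4, 1, 2), ((1, 0, 6), 4, 1, 3), ((1, 0, 9), 4, 1, 5),
    ((1, 2, 6), 4, 2, 3), ((1, 2, 9), 4, 2, 5), ((1, 6, 9), 4, 3, 5), ((2, 1, 3), 2, 4, 0),
    ((3, 2, 8), 0, 2, 7), ((4, 0, 7), 0, 1, 6), ((5, 8, 9), 3, 7, 5), ((6, 1, 7), 3, 4, 6),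
    ((7, 4, 6), 6, 0, 3), ((8, 3, 5), 7, 0, 3), ((9, 1, 5), 5, 4, 3)]
  Tc := []
  Td := [((0, 4), (3, 2), 2), ((0, 4), (3, 8), 7), ((0, 4), (4, 0), 1), ((0, 4), (4, 7), 6), ((4,
    0), (1, 0), 1), ((4, 0), (1, 2), 2), ((4, 0), (1, 6), 3), ((4, 0), (1, 9), 5), ((6, 7),
    (7, 4), 0), ((6, 7), (7, 6), 3), ((7, 6), (8, 3), 0), ((7, 6), (8, 5), 3)]
  G := [[0, 0, 0x19c4819913a1864e42198441541a641a8acc, 0x36c42a63a9283a463a25ce41,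
    0x2954936a699a6a94a596ce81], [0, 0, 0x821b2821d46881728c426116461b2241d4e8c,
    0xc2974c25b2a63d4e81, 0xca974c65b8a63d4e81], [0, 0x19a81538164612c48c4452117429841a8e8c,
    0, 0x21c243531a2539482d1e41, 0x716473593c836ac531e81], [0,
    0xa86115821b2821d8e44217146a113241d4e8c, 0, 0xc2974c25b8a63d1e81, 0xca974c65b2a63d4e81]]

noncomputable def n1461 : Ent := ⟨e1461, noF, [], [], []⟩

def c1461 : PLift (Cov.check n1461.C.D v1461 = true) := ⟨by decide +kernel⟩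

def b1461 : PLift (entF (fidx ts) 400 1461 n1461 = true) := ⟨by decide +kernel⟩

theorem g1461 : GoodF (fidx ts) 400 1461 := GoodF.ofV v1461 n1461 c1461.down b1461.down

/-- 468454:1156 -/
noncomputable def e1462 : SCfg where
  D := {
    a := 6
    L := 11
    kp := 8
    inn := [(0, 1), (1, 0), (1, 2), (2, 1), (2, 3), (2, 4), (3, 2), (4, 2), (4, 5), (5, 4)]
    mix := [(0, 0), (0, 1), (0, 2), (1, 0), (1, 2), (1, 3), (1, 4), (2, 3), (2, 4), (2, 5), (2, 6), (2,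
      7), (3, 3), (3, 5), (3, 8), (4, 5), (4, 6), (4, 9), (5, 6), (5, 9), (5, 10)]
    cl := [1, 5, 2, 0, 0, 3, 3, 6, 7, 4, 8]
    chq := [(0, 5), (5, 0), (6, 7), (7, 6)]
    rng := [(0, 1), (0, 4), (1, 0), (1, 2), (2, 1), (2, 3), (3, 2), (3, 8), (4, 0), (4, 7), (5, 8), (5,
      9), (6, 7), (6, 10), (7, 4), (7, 6), (8, 3), (8, 5), (9, 5), (9, 10), (10, 6), (10, 9)]
    lev := [] }
  links := [[1, 6, 7, 8], [6, 0, 8, 9, 2, 10], [10, 1, 9, 3, 11, 4, 12, 13], [11, 2, 9, 14], [12, 2, 11,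
    15, 5], [12, 4, 15, 16]]
  P := {
    a := 6
    N := 17
    nb := [450, 1861, 15898, 18948, 38948, 102416, 1155, 321, 643, 16654, 8262, 49180, 73780, 5124,
      2568, 67632, 36896]
    tri := [(0, 1, 6), (0, 1, 8), (0, 6, 7), (0, 7, 8), (1, 2, 9), (1, 2, 10), (1, 6, 10), (1, 8, 9),
      (2, 3, 9), (2, 3, 11), (2, 4, 11), (2, 4, 12), (2, 10, 13), (2, 12, 13), (3, 9, 14), (3, 11,
      14), (4, 5, 12), (4, 5, 15), (4, 11, 15), (5, 12, 16), (5, 15, 16)]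
    fin := [0, 1, 2, 2, 4, 4, 6, 0, 8, 1, 1, 4, 4, 13, 2, 15, 16]
    chd := [(0, 1), (13, 2)]
    steps := [(0, 7), (1, 9), (1, 10), (2, 3), (2, 14), (4, 5), (4, 11), (4, 12)] }
  rep := [1, 6, 8, 4, 15, 0, 13, 2, 16]

noncomputable def v1462 : Cov.CovD where
  P := 3
  N := 6
  pl := [0, 2, 9, 10]
  lev := [⟨[], [], [], [1, 2], [(1, 5, [0])]⟩,
    ⟨[], [(0, 0), (0, 5)], [(0, 0)], [1, 2], [(3, 0, [5]), (4, 0, [5])]⟩,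
    ⟨[(0, 1)], [(1, 0), (1, 3), (1, 6)], [(0, 0), (0, 3), (0, 6), (3, 3), (3, 6)], [], [(3,
      0, [5]), (4, 0, [5]), (5, 3, []), (6, 3, []), (7, 6, [7])]⟩,
    ⟨[(1, 2)], [(1, 0), (2, 0), (2, 3), (2, 6), (2, 7)], [(0, 3), (0, 7), (3, 7)], [], [(3,
      0, [5]), (5, 3, []), (8, 7, [6])]⟩,
    ⟨[(1, 2), (2, 3)], [(2, 0), (2, 3), (2, 6), (3, 3)], [(3, 3)], [4], [(5, 3, []), (6, 3,
      [])]⟩,
    ⟨[(2, 4)], [(2, 3), (4, 3)], [], [4, 8], [(6, 3, [])]⟩]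
  Ta := [((3, 2), 0, 2), ((3, 8), 0, 7), ((4, 0), 0, 1), ((4, 7), 0, 6), ((5, 8), 3, 7), ((5, 9),
    3, 4), ((6, 7), 3, 6), ((6, 10), 3, 8)]
  Tb := [((0, 1, 4), 1, 5, 0), ((1, 0, 2), 5, 1, 2), ((2, 1, 3), 2, 5, 0), ((3, 2, 8), 0, 2, 7),
    ((4, 0, 7), 0, 1, 6), ((5, 8, 9), 3, 7, 4), ((6, 7, 10), 3, 6, 8), ((7, 4, 6), 6, 0, 3),
    ((8, 3, 5), 7, 0, 3), ((9, 5, 10), 4, 3, 8), ((10, 6, 9), 8, 3, 4)]
  Tc := []
  Td := [((0, 5), (3, 2), 2), ((0, 5), (3, 8), 7), ((0, 5), (4, 0), 1), ((0, 5), (4, 7), 6), ((5,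
    0), (1, 0), 1), ((5, 0), (1, 2), 2), ((6, 7), (7, 4), 0), ((6, 7), (7, 6), 3), ((7, 6),
    (8, 3), 0), ((7, 6), (8, 5), 3)]
  G := [[0, 0, 0x25c43a6b29953aa49685ce492c683a425c43a694a685cacc, 0xc25a4363958d6a94a586ce81,
    0x395a43692c836a569586ce81], [0, 0, 0xca974c65b2a63d4e4c65b8a63d46ca9728cc,
    0xca974c65b8a63d4e41, 0xca974c65b2a63d4e81], [0,
    0xa3c9a6a94a596c665918ca951416a36935da586cacc, 0, 0x52275394295394ac96ce81,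
    0x24c56917a35195a8359e81], [0, 0xc6a519a63d46ca9728cca974c65b8a63d4e8c, 0,
    0xca974c65b2a63d4e81, 0xca972c65b2a63d4e81]]

noncomputable def n1462 : Ent := ⟨e1462, noF, [], [], [(7, 15, [1685356702439545624007900436039642273970977273354372543760006070273, 0]), (7, 16, [1580044410770988437309982408355971841652082177953823432505695096833, 0])]⟩

def c1462 : PLift (Cov.check n1462.C.D v1462 = true) := ⟨by decide +kernel⟩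

def b1462 : PLift (entF (fidx ts) 400 1462 n1462 = true) := ⟨by decide +kernel⟩

theorem g1462 : GoodF (fidx ts) 400 1462 := GoodF.ofV v1462 n1462 c1462.down b1462.down

/-- 494544:1160/1 -/
noncomputable def e1463 : SCfg where
  D := {
    a := 6
    L := 9
    kp := 6
    inn := [(0, 1), (1, 0), (1, 2), (1, 3), (1, 4), (2, 1), (3, 1), (3, 5), (4, 1), (5, 3)]
    mix := [(0, 0), (0, 1), (0, 2), (1, 0), (1, 2), (1, 3), (1, 4), (1, 5), (2, 2), (2, 3), (2, 6), (3,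
      3), (3, 4), (3, 7), (4, 4), (4, 5), (4, 8), (5, 3), (5, 6), (5, 7)]
    cl := [0, 5, 1, 0, 0, 2, 3, 4, 6]
    chq := [(0, 1), (1, 0)]
    rng := [(0, 1), (0, 5), (1, 0), (1, 2), (2, 1), (2, 6), (3, 6), (4, 7), (4, 8), (5, 0), (5, 8), (6,
      2), (6, 3), (6, 7), (7, 4), (7, 6), (8, 4), (8, 5)]
    lev := [] }
  links := [[1, 6, 7, 8], [6, 0, 8, 2, 9, 3, 10, 4, 11], [9, 1, 8, 12], [10, 1, 9, 5, 13], [11, 1, 10,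
    14], [13, 3, 9, 12]]
  P := {
    a := 6
    N := 15
    nb := [450, 3933, 4866, 9762, 19458, 12808, 2179, 321, 4231, 4142, 24602, 16466, 8996, 5160, 3088]
    tri := [(0, 1, 6), (0, 1, 8), (0, 6, 7), (0, 7, 8), (1, 2, 8), (1, 2, 9), (1, 3, 9), (1, 3, 10),
      (1, 4, 10), (1, 4, 11), (1, 6, 11), (2, 8, 12), (2, 9, 12), (3, 5, 9), (3, 5, 13), (3, 10,
      13), (4, 10, 14), (4, 11, 14), (5, 9, 12), (5, 12, 13)]
    fin := [0, 0, 0, 0, 0, 0, 0, 7, 8, 0, 0, 11, 12, 13, 14]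
    chd := [(0, 8)]
    steps := [(0, 1), (0, 2), (0, 3), (0, 4), (0, 6), (0, 9), (0, 5), (0, 10)] }
  rep := [0, 8, 11, 12, 13, 7, 14]

noncomputable def v1463 : Cov.CovD where
  P := 3
  N := 4
  pl := [1, 5, 6, 7, 8]
  lev := [⟨[], [], [(0, 1)], [5], [(0, 0, [1]), (2, 1, [0])]⟩,
    ⟨[], [(0, 0), (0, 1)], [(0, 0), (0, 1)], [2], [(0, 0, [1]), (2, 1, [0]), (3, 0, [1]),
      (4, 0, [1])]⟩,
    ⟨[(0, 1)], [(0, 1), (1, 0), (1, 1)], [(0, 1)], [3], [(2, 1, [0]), (3, 0, [1])]⟩,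
    ⟨[(0, 1), (1, 2)], [(1, 0), (1, 1), (2, 0)], [(0, 0)], [4], [(3, 0, [1]), (4, 0, [1])]⟩,
    ⟨[(0, 1), (1, 2), (1, 3)], [(1, 0), (1, 1), (3, 0)], [], [2, 6], [(4, 0, [1])]⟩,
    ⟨[(1, 3)], [(1, 0), (2, 0), (3, 0)], [], [3, 4], [(3, 0, [1])]⟩]
  Ta := [((0, 1), 0, 5), ((0, 5), 0, 2), ((3, 6), 0, 3), ((4, 7), 0, 4), ((4, 8), 0, 6)]
  Tb := [((0, 1, 5), 0, 5, 2), ((1, 0, 2), 5, 0, 1), ((2, 1, 6), 1, 5, 3), ((4, 7, 8), 0, 4, 6),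
    ((5, 0, 8), 2, 0, 6), ((6, 2, 3), 3, 1, 0), ((6, 2, 7), 3, 1, 4), ((6, 3, 7), 3, 0, 4),
    ((7, 4, 6), 4, 0, 3), ((8, 4, 5), 6, 0, 2)]
  Tc := []
  Td := [((0, 1), (0, 1), 5), ((0, 1), (0, 5), 2), ((0, 1), (3, 6), 3), ((0, 1), (4, 7), 4), ((0,
    1), (4, 8), 6), ((1, 0), (2, 1), 5), ((1, 0), (2, 6), 3)]
  G := [[0, 0x11448112118a421228188ce, 0xccc666a14122128c86a86d8c, 0xc1a1618114118212d8c,
    0xc1a1618811164121698c], [0, 0x114112681121146811884e, 0, 0x8121a4161ac41,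
    0x81a1641216c81], [0, 0x114841182126811211864e, 0, 0xcccaac6181, 0xccaaaa6181]]

noncomputable def n1463 : Ent := ⟨e1463, noF, [], [], []⟩

def c1463 : PLift (Cov.check n1463.C.D v1463 = true) := ⟨by decide +kernel⟩

def b1463 : PLift (entF (fidx ts) 400 1463 n1463 = true) := ⟨by decide +kernel⟩

theorem g1463 : GoodF (fidx ts) 400 1463 := GoodF.ofV v1463 n1463 c1463.down b1463.down

/-- 494544:1160 -/
noncomputable def e1464 : SCfg where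
  D := {
    a := 6
    L := 10
    kp := 7
    inn := [(0, 1), (1, 0), (1, 2), (1, 3), (1, 4), (2, 1), (3, 1), (3, 5), (4, 1), (5, 3)]
    mix := [(0, 0), (0, 1), (0, 2), (1, 0), (1, 2), (1, 3), (1, 4), (1, 5), (2, 2), (2, 3), (2, 6), (3,
      3), (3, 4), (3, 7), (4, 4), (4, 5), (4, 8), (5, 3), (5, 7), (5, 9)]
    cl := [0, 4, 1, 0, 0, 2, 5, 3, 6, 7]
    chq := [(0, 1), (1, 0)]
    rng := [(0, 1), (0, 5), (1, 0), (1, 2), (2, 1), (2, 6), (3, 6), (3, 9), (4, 7), (4, 8), (5, 0), (5,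
      8), (6, 2), (6, 3), (7, 4), (7, 9), (8, 4), (8, 5), (9, 3), (9, 7)]
    lev := [] }
  links := [[1, 6, 7, 8], [6, 0, 8, 2, 9, 3, 10, 4, 11], [9, 1, 8, 12], [10, 1, 9, 5, 13], [11, 1, 10,
    14], [13, 3, 9, 15]]
  P := {
    a := 6
    N := 16
    nb := [450, 3933, 4866, 9762, 19458, 41480, 2179, 321, 4231, 36910, 24602, 16466, 772, 33832,
      3088, 8736]
    tri := [(0, 1, 6), (0, 1, 8), (0, 6, 7), (0, 7, 8), (1, 2, 8), (1, 2, 9), (1, 3, 9), (1, 3, 10),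
      (1, 4, 10), (1, 4, 11), (1, 6, 11), (2, 8, 12), (2, 9, 12), (3, 5, 9), (3, 5, 13), (3, 10,
      13), (4, 10, 14), (4, 11, 14), (5, 9, 15), (5, 13, 15)]
    fin := [0, 0, 0, 0, 0, 0, 0, 7, 8, 0, 0, 11, 12, 13, 14, 15]
    chd := [(0, 8)]
    steps := [(0, 1), (0, 2), (0, 3), (0, 4), (0, 5), (0, 6), (0, 9), (0, 10)] }
  rep := [0, 8, 11, 13, 7, 12, 14, 15]

noncomputable def v1464 : Cov.CovD where
  P := 3
  N := 5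
  pl := [1, 5, 6, 7, 8, 9]
  lev := [⟨[], [], [(0, 1)], [4], [(0, 0, [1]), (2, 1, [0])]⟩,
    ⟨[], [(0, 0), (0, 1)], [(0, 0), (0, 1)], [2], [(0, 0, [1]), (2, 1, [0]), (3, 0, [1]),
      (4, 0, [1])]⟩,
    ⟨[(0, 1)], [(0, 1), (1, 0), (1, 1)], [(0, 1)], [5], [(2, 1, [0]), (3, 0, [1])]⟩,
    ⟨[(0, 1), (1, 2)], [(1, 0), (1, 1), (2, 0)], [(0, 0)], [3], [(3, 0, [1]), (4, 0, [1])]⟩,
    ⟨[(0, 1), (1, 2), (1, 3)], [(1, 0), (1, 1), (3, 0)], [], [2, 6], [(4, 0, [1])]⟩,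
    ⟨[(1, 3)], [(1, 0), (2, 0), (3, 0)], [], [3, 7], [(3, 0, [1])]⟩]
  Ta := [((0, 1), 0, 4), ((0, 5), 0, 2), ((3, 6), 0, 5), ((3, 9), 0, 7), ((4, 7), 0, 3), ((4, 8),
    0, 6)]
  Tb := [((0, 1, 5), 0, 4, 2), ((1, 0, 2), 4, 0, 1), ((2, 1, 6), 1, 4, 5), ((3, 6, 9), 0, 5, 7),
    ((4, 7, 8), 0, 3, 6), ((5, 0, 8), 2, 0, 6), ((6, 2, 3), 5, 1, 0), ((7, 4, 9), 3, 0, 7),
    ((8, 4, 5), 6, 0, 2), ((9, 3, 7), 7, 0, 3)]
  Tc := []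
  Td := [((0, 1), (0, 1), 4), ((0, 1), (0, 5), 2), ((0, 1), (3, 6), 5), ((0, 1), (3, 9), 7), ((0,
    1), (4, 7), 3), ((0, 1), (4, 8), 6), ((1, 0), (2, 1), 4), ((1, 0), (2, 6), 5)]
  G := [[0, 0x11116841111a241111a48e, 0xccc66ca14cc6aaa618c, 0x6141a181cc161a14c,
    0xc1a1618c1a1618c], [0, 0x112118a4118112a411448e, 0, 0xc1a16c1a16c81, 0xc1a16c1a16c81],
    [0, 0x114118112e4112118114e8a, 0, 0xccc66ca141, 0xccaaaa6181]]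

noncomputable def n1464 : Ent := ⟨e1464, noF, [], [], [(12, 15, [360035742630636841211993100915356868655746945586763691013664769, 0])]⟩

def c1464 : PLift (Cov.check n1464.C.D v1464 = true) := ⟨by decide +kernel⟩

def b1464 : PLift (entF (fidx ts) 400 1464 n1464 = true) := ⟨by decide +kernel⟩

theorem g1464 : GoodF (fidx ts) 400 1464 := GoodF.ofV v1464 n1464 c1464.down b1464.down

/-- 494544:1161/1 -/
noncomputable def e1465 : SCfg where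
  D := {
    a := 6
    L := 9
    kp := 6
    inn := [(0, 1), (1, 0), (1, 2), (1, 3), (1, 4), (2, 1), (3, 1), (3, 5), (4, 1), (5, 3)]
    mix := [(0, 0), (0, 1), (0, 2), (1, 0), (1, 2), (1, 3), (1, 4), (1, 5), (2, 2), (2, 3), (2, 6), (3,
      3), (3, 4), (3, 7), (4, 4), (4, 5), (4, 8), (5, 4), (5, 7), (5, 8)]
    cl := [0, 5, 1, 0, 0, 2, 6, 3, 4]
    chq := [(0, 1), (1, 0)]
    rng := [(0, 1), (0, 5), (1, 0), (1, 2), (2, 1), (2, 6), (3, 6), (3, 7), (4, 8), (5, 0), (5, 8), (6,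
      2), (6, 3), (7, 3), (7, 8), (8, 4), (8, 5), (8, 7)]
    lev := [] }
  links := [[1, 6, 7, 8], [6, 0, 8, 2, 9, 3, 10, 4, 11], [9, 1, 8, 12], [10, 1, 9, 13, 5], [11, 1, 10,
    14], [10, 3, 13, 14]]
  P := {
    a := 6
    N := 15
    nb := [450, 3933, 4866, 9762, 19458, 25608, 2179, 321, 4231, 12302, 16442, 16466, 772, 16936,
      11312]
    tri := [(0, 1, 6), (0, 1, 8), (0, 6, 7), (0, 7, 8), (1, 2, 8), (1, 2, 9), (1, 3, 9), (1, 3, 10),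
      (1, 4, 10), (1, 4, 11), (1, 6, 11), (2, 8, 12), (2, 9, 12), (3, 5, 10), (3, 5, 13), (3, 9,
      13), (4, 10, 14), (4, 11, 14), (5, 10, 14), (5, 13, 14)]
    fin := [0, 0, 0, 0, 0, 0, 0, 7, 8, 0, 0, 11, 12, 13, 14]
    chd := [(0, 8)]
    steps := [(0, 1), (0, 2), (0, 3), (0, 4), (0, 6), (0, 9), (0, 10), (0, 5)] }
  rep := [0, 8, 11, 13, 14, 7, 12]

noncomputable def v1465 : Cov.CovD where
  P := 3
  N := 4
  pl := [1, 5, 6, 7, 8]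
  lev := [⟨[], [], [(0, 1)], [5], [(0, 0, [1]), (2, 1, [0])]⟩,
    ⟨[], [(0, 0), (0, 1)], [(0, 0), (0, 1)], [2], [(0, 0, [1]), (2, 1, [0]), (3, 0, [1]),
      (4, 0, [1])]⟩,
    ⟨[(0, 1)], [(0, 1), (1, 0), (1, 1)], [(0, 1)], [6], [(2, 1, [0]), (3, 0, [1])]⟩,
    ⟨[(0, 1), (1, 2)], [(1, 0), (1, 1), (2, 0)], [(0, 0)], [3], [(3, 0, [1]), (4, 0, [1])]⟩,
    ⟨[(0, 1), (1, 2), (1, 3)], [(1, 0), (1, 1), (3, 0)], [], [2, 4], [(4, 0, [1])]⟩,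
    ⟨[(1, 3)], [(1, 0), (3, 0), (4, 0)], [], [3, 4], [(4, 0, [1])]⟩]
  Ta := [((0, 1), 0, 5), ((0, 5), 0, 2), ((3, 6), 0, 6), ((3, 7), 0, 3), ((4, 8), 0, 4)]
  Tb := [((0, 1, 5), 0, 5, 2), ((1, 0, 2), 5, 0, 1), ((2, 1, 6), 1, 5, 6), ((3, 6, 7), 0, 6, 3),
    ((5, 0, 8), 2, 0, 4), ((6, 2, 3), 6, 1, 0), ((7, 3, 8), 3, 0, 4), ((8, 4, 5), 4, 0, 2),
    ((8, 4, 7), 4, 0, 3), ((8, 5, 7), 4, 2, 3)]
  Tc := []
  Td := [((0, 1), (0, 1), 5), ((0, 1), (0, 5), 2), ((0, 1), (3, 6), 6), ((0, 1), (3, 7), 3), ((0,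
    1), (4, 8), 4), ((1, 0), (2, 1), 5), ((1, 0), (2, 6), 6)]
  G := [[0, 0x1252c1468c121a84c14129268e, 0x416116618141822e18c, 0xc1125618c1a1618c,
    0xc1a161841aa1618c], [0, 0x185a164814961a84141821e28e, 0, 0xc1a16125e1cc81,
    0xc1a16126181ec81], [0, 0xc11256481294286988c61211c8a4e, 0, 0x84c26ca141, 0x4ca82a6181]]

noncomputable def n1465 : Ent := ⟨e1465, noF, [], [], []⟩

def c1465 : PLift (Cov.check n1465.C.D v1465 = true) := ⟨by decide +kernel⟩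

def b1465 : PLift (entF (fidx ts) 400 1465 n1465 = true) := ⟨by decide +kernel⟩

theorem g1465 : GoodF (fidx ts) 400 1465 := GoodF.ofV v1465 n1465 c1465.down b1465.down

/-- 494544:1161 -/
noncomputable def e1466 : SCfg where
  D := {
    a := 6
    L := 10
    kp := 7
    inn := [(0, 1), (1, 0), (1, 2), (1, 3), (1, 4), (2, 1), (3, 1), (3, 5), (4, 1), (5, 3)]
    mix := [(0, 0), (0, 1), (0, 2), (1, 0), (1, 2), (1, 3), (1, 4), (1, 5), (2, 2), (2, 3), (2, 6), (3,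
      3), (3, 4), (3, 7), (4, 4), (4, 5), (4, 8), (5, 4), (5, 7), (5, 9)]
    cl := [0, 4, 1, 0, 0, 2, 5, 3, 6, 7]
    chq := [(0, 1), (1, 0)]
    rng := [(0, 1), (0, 5), (1, 0), (1, 2), (2, 1), (2, 6), (3, 6), (3, 7), (4, 8), (4, 9), (5, 0), (5,
      8), (6, 2), (6, 3), (7, 3), (7, 9), (8, 4), (8, 5), (9, 4), (9, 7)]
    lev := [] }
  links := [[1, 6, 7, 8], [6, 0, 8, 2, 9, 3, 10, 4, 11], [9, 1, 8, 12], [10, 1, 9, 13, 5], [11, 1, 10,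
    14], [10, 3, 13, 15]]
  P := {
    a := 6
    N := 16
    nb := [450, 3933, 4866, 9762, 19458, 41992, 2179, 321, 4231, 12302, 49210, 16466, 772, 33320,
      3088, 9248]
    tri := [(0, 1, 6), (0, 1, 8), (0, 6, 7), (0, 7, 8), (1, 2, 8), (1, 2, 9), (1, 3, 9), (1, 3, 10),
      (1, 4, 10), (1, 4, 11), (1, 6, 11), (2, 8, 12), (2, 9, 12), (3, 5, 10), (3, 5, 13), (3, 9,
      13), (4, 10, 14), (4, 11, 14), (5, 10, 15), (5, 13, 15)]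
    fin := [0, 0, 0, 0, 0, 0, 0, 7, 8, 0, 0, 11, 12, 13, 14, 15]
    chd := [(0, 8)]
    steps := [(0, 1), (0, 2), (0, 3), (0, 4), (0, 5), (0, 6), (0, 9), (0, 10)] }
  rep := [0, 8, 11, 13, 7, 12, 14, 15]

noncomputable def v1466 : Cov.CovD where
  P := 3
  N := 5
  pl := [1, 5, 6, 7, 8, 9]
  lev := [⟨[], [], [(0, 1)], [4], [(0, 0, [1]), (2, 1, [0])]⟩,
    ⟨[], [(0, 0), (0, 1)], [(0, 0), (0, 1)], [2], [(0, 0, [1]), (2, 1, [0]), (3, 0, [1]),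
      (4, 0, [1])]⟩,
    ⟨[(0, 1)], [(0, 1), (1, 0), (1, 1)], [(0, 1)], [5], [(2, 1, [0]), (3, 0, [1])]⟩,
    ⟨[(0, 1), (1, 2)], [(1, 0), (1, 1), (2, 0)], [(0, 0)], [3], [(3, 0, [1]), (4, 0, [1])]⟩,
    ⟨[(0, 1), (1, 2), (1, 3)], [(1, 0), (1, 1), (3, 0)], [], [2, 6], [(4, 0, [1])]⟩,
    ⟨[(1, 3)], [(1, 0), (3, 0), (4, 0)], [], [3, 7], [(4, 0, [1])]⟩]
  Ta := [((0, 1), 0, 4), ((0, 5), 0, 2), ((3, 6), 0, 5), ((3, 7), 0, 3), ((4, 8), 0, 6), ((4, 9),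
    0, 7)]
  Tb := [((0, 1, 5), 0, 4, 2), ((1, 0, 2), 4, 0, 1), ((2, 1, 6), 1, 4, 5), ((3, 6, 7), 0, 5, 3),
    ((4, 8, 9), 0, 6, 7), ((5, 0, 8), 2, 0, 6), ((6, 2, 3), 5, 1, 0), ((7, 3, 9), 3, 0, 7),
    ((8, 4, 5), 6, 0, 2), ((9, 4, 7), 7, 0, 3)]
  Tc := []
  Td := [((0, 1), (0, 1), 4), ((0, 1), (0, 5), 2), ((0, 1), (3, 6), 5), ((0, 1), (3, 7), 3), ((0,
    1), (4, 8), 6), ((0, 1), (4, 9), 7), ((1, 0), (2, 1), 4), ((1, 0), (2, 6), 5)]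
  G := [[0, 0xc1a1648c161a24c1a1688e, 0x141218e14141812e18c, 0xc1a1618c161a14c,
    0xc1a1618c111a618c], [0, 0xa12c1468c1411c268c111ca84e, 0, 0xc1a16c1a16c81,
    0xc1a16c1a16c81], [0, 0xc161a11c86411c228c1a1611c4a8e, 0, 0xcccaac6181, 0xccaaaa6181]]

noncomputable def n1466 : Ent := ⟨e1466, noF, [], [], [(15, 14, [385746751338780685620664494392815470296102193487288376378494977, 0])]⟩

def c1466 : PLift (Cov.check n1466.C.D v1466 = true) := ⟨by decide +kernel⟩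

def b1466 : PLift (entF (fidx ts) 400 1466 n1466 = true) := ⟨by decide +kernel⟩

theorem g1466 : GoodF (fidx ts) 400 1466 := GoodF.ofV v1466 n1466 c1466.down b1466.down

/-- 457474:1172/1 -/
noncomputable def e1467 : SCfg where
  D := {
    a := 6
    L := 9
    kp := 6
    inn := [(0, 1), (1, 0), (1, 2), (2, 1), (2, 3), (2, 4), (3, 2), (3, 4), (4, 2), (4, 3), (4, 5), (5,
      4)]
    mix := [(0, 0), (0, 1), (0, 2), (1, 0), (1, 2), (1, 3), (2, 2), (2, 3), (2, 4), (2, 5), (3, 2), (3,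
      6), (4, 4), (4, 6), (4, 7), (4, 8), (5, 0), (5, 7), (5, 8)]
    cl := [2, 5, 0, 0, 1, 6, 1, 3, 4]
    chq := [(1, 2), (2, 1)]
    rng := [(0, 1), (0, 3), (0, 7), (0, 8), (1, 0), (1, 2), (2, 1), (2, 6), (3, 0), (3, 5), (4, 5), (4,
      8), (5, 3), (5, 4), (6, 2), (6, 7), (7, 0), (7, 6), (8, 0), (8, 4)]
    lev := [] }
  links := [[1, 6, 7, 8], [6, 0, 8, 2, 9], [9, 1, 8, 3, 4, 10, 11], [4, 2, 8, 12], [10, 2, 3, 12, 13, 5,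
    14], [14, 4, 13, 6]]
  P := {
    a := 6
    N := 15
    nb := [450, 837, 3866, 4372, 29740, 24656, 25251, 321, 4239, 2118, 18452, 1540, 8472, 4208, 1136]
    tri := [(0, 1, 6), (0, 1, 8), (0, 6, 7), (0, 7, 8), (1, 2, 8), (1, 2, 9), (1, 6, 9), (2, 3, 4), (2,
      3, 8), (2, 4, 10), (2, 9, 11), (2, 10, 11), (3, 4, 12), (3, 8, 12), (4, 5, 13), (4, 5, 14),
      (4, 10, 14), (4, 12, 13), (5, 6, 13), (5, 6, 14)]
    fin := [0, 0, 2, 2, 4, 0, 0, 7, 2, 2, 4, 11, 4, 13, 14]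
    chd := [(0, 4)]
    steps := [(0, 1), (0, 6), (0, 5), (2, 3), (2, 8), (2, 9), (4, 12), (4, 10)] }
  rep := [2, 4, 0, 13, 14, 7, 11]

noncomputable def v1467 : Cov.CovD where
  P := 3
  N := 4
  pl := [1, 5, 7, 8]
  lev := [⟨[], [], [(0, 2)], [5], [(0, 2, [1]), (2, 0, [])]⟩,
    ⟨[], [(0, 0), (0, 2)], [(0, 0), (0, 2)], [], [(0, 2, [1]), (2, 0, []), (3, 0, [])]⟩,
    ⟨[(0, 1)], [(0, 0), (1, 0), (1, 1), (1, 2)], [(0, 0), (0, 1)], [6], [(2, 0, []), (3, 0,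
      []), (4, 1, [2])]⟩,
    ⟨[(1, 2)], [(0, 0), (1, 0), (2, 0), (2, 1)], [(0, 1)], [], [(2, 0, []), (6, 1, [2])]⟩,
    ⟨[(1, 2), (2, 3)], [(2, 0), (2, 1), (3, 0), (3, 1)], [(1, 1)], [3, 4], [(4, 1, [2]),
      (6, 1, [2])]⟩,
    ⟨[(2, 4), (3, 4)], [(0, 2), (1, 2), (4, 1), (4, 2)], [], [3, 4], [(0, 2, [1])]⟩]
  Ta := [((2, 1), 0, 5), ((2, 6), 0, 1), ((3, 0), 0, 2), ((3, 5), 0, 6), ((4, 5), 1, 6), ((4, 8),
    1, 4), ((6, 2), 1, 0), ((6, 7), 1, 3)]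
  Tb := [((0, 1, 3), 2, 5, 0), ((0, 1, 7), 2, 5, 3), ((0, 1, 8), 2, 5, 4), ((0, 3, 7), 2, 0, 3),
    ((0, 3, 8), 2, 0, 4), ((0, 7, 8), 2, 3, 4), ((1, 0, 2), 5, 2, 0), ((2, 1, 6), 0, 5, 1),
    ((3, 0, 5), 0, 2, 6), ((4, 5, 8), 1, 6, 4), ((5, 3, 4), 6, 0, 1), ((6, 2, 7), 1, 0, 3),
    ((7, 0, 6), 3, 2, 1), ((8, 0, 4), 4, 2, 1)]
  Tc := []
  Td := [((1, 2), (4, 5), 6), ((1, 2), (4, 8), 4), ((1, 2), (6, 2), 0), ((1, 2), (6, 7), 3), ((2,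
    1), (0, 1), 5), ((2, 1), (0, 3), 0), ((2, 1), (0, 7), 3), ((2, 1), (0, 8), 4)]
  G := [[0, 0, 0, 0x41588c242, 0xa1528a821d2c22a1d2821d2c2a], [0, 0x111e2111e868811e2111e468c,
    0, 0x41588c242, 0x2a1d8282a1d828a], [0, 0, 0xe18e18c2e18e14c2c, 0x241d8241,
    0x2a1d2821d2c21], [0, 0, 0xe1424e1428a, 0x222d8281, 0x821d4281]]

noncomputable def n1467 : Ent := ⟨e1467, noF, [], [], []⟩

def c1467 : PLift (Cov.check n1467.C.D v1467 = true) := ⟨by decide +kernel⟩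

def b1467 : PLift (entF (fidx ts) 400 1467 n1467 = true) := ⟨by decide +kernel⟩

theorem g1467 : GoodF (fidx ts) 400 1467 := GoodF.ofV v1467 n1467 c1467.down b1467.down

/-- 457474:1172/2 -/
noncomputable def e1468 : SCfg where
  D := {
    a := 6
    L := 9
    kp := 6
    inn := [(0, 1), (1, 0), (1, 2), (2, 1), (2, 3), (2, 4), (3, 2), (3, 4), (4, 2), (4, 3), (4, 5), (5,
      4)]
    mix := [(0, 0), (0, 1), (0, 2), (1, 0), (1, 2), (1, 3), (2, 2), (2, 3), (2, 4), (2, 5), (3, 1), (3,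
      2), (4, 1), (4, 4), (4, 6), (4, 7), (5, 6), (5, 7), (5, 8)]
    cl := [2, 0, 1, 1, 0, 6, 3, 4, 5]
    chq := [(0, 5), (5, 0)]
    rng := [(0, 1), (0, 3), (1, 0), (1, 2), (1, 6), (2, 1), (3, 0), (3, 5), (4, 5), (4, 7), (5, 3), (5,
      4), (6, 1), (6, 8), (7, 4), (7, 8), (8, 6), (8, 7)]
    lev := [] }
  links := [[1, 6, 7, 8], [6, 0, 8, 2, 9], [9, 1, 8, 3, 4, 10, 11], [4, 2, 8, 7], [10, 2, 3, 7, 12, 5,
    13], [13, 4, 12, 14]]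
  P := {
    a := 6
    N := 15
    nb := [450, 837, 3866, 404, 13484, 28688, 643, 4441, 143, 2118, 10260, 1540, 16560, 17456, 12320]
    tri := [(0, 1, 6), (0, 1, 8), (0, 6, 7), (0, 7, 8), (1, 2, 8), (1, 2, 9), (1, 6, 9), (2, 3, 4), (2,
      3, 8), (2, 4, 10), (2, 9, 11), (2, 10, 11), (3, 4, 7), (3, 7, 8), (4, 5, 12), (4, 5, 13),
      (4, 7, 12), (4, 10, 13), (5, 12, 14), (5, 13, 14)]
    fin := [0, 0, 2, 3, 3, 3, 0, 3, 2, 2, 3, 11, 12, 13, 14]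
    chd := [(3, 14)]
    steps := [(0, 1), (0, 6), (2, 8), (2, 9), (3, 4), (3, 5), (3, 7), (3, 10)] }
  rep := [3, 2, 0, 12, 13, 14, 11]

noncomputable def v1468 : Cov.CovD where
  P := 3
  N := 4
  pl := [0, 5, 6, 7]
  lev := [⟨[], [], [(0, 1)], [2], [(1, 0, [5]), (2, 1, [])]⟩,
    ⟨[], [(0, 0), (0, 1)], [(1, 1)], [2], [(2, 1, []), (3, 1, [])]⟩,
    ⟨[(0, 1)], [(0, 1), (1, 0), (1, 1)], [(0, 1), (1, 1)], [6], [(2, 1, []), (3, 1, []),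
      (4, 0, [5])]⟩,
    ⟨[(1, 2)], [(0, 0), (0, 1), (1, 1), (2, 0), (2, 1)], [(0, 1)], [], [(1, 0, [5]), (2, 1,
      [])]⟩,
    ⟨[(1, 2), (2, 3)], [(0, 0), (2, 0), (2, 1), (3, 0), (3, 1)], [(0, 0)], [3, 4], [(1, 0,
      [5]), (4, 0, [5])]⟩,
    ⟨[(2, 4), (3, 4)], [(4, 0), (4, 5)], [], [3, 4], [(8, 5, [0])]⟩]
  Ta := [((1, 0), 0, 2), ((1, 2), 0, 1), ((1, 6), 0, 3), ((2, 1), 1, 0), ((3, 0), 1, 2), ((3, 5),
    1, 6), ((4, 5), 0, 6), ((4, 7), 0, 4)]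
  Tb := [((0, 1, 3), 2, 0, 1), ((1, 0, 2), 0, 2, 1), ((1, 0, 6), 0, 2, 3), ((1, 2, 6), 0, 1, 3),
    ((3, 0, 5), 1, 2, 6), ((4, 5, 7), 0, 6, 4), ((5, 3, 4), 6, 1, 0), ((6, 1, 8), 3, 0, 5),
    ((7, 4, 8), 4, 0, 5), ((8, 6, 7), 5, 3, 4)]
  Tc := []
  Td := [((0, 5), (1, 0), 2), ((0, 5), (1, 2), 1), ((0, 5), (1, 6), 3), ((0, 5), (4, 5), 6), ((0,
    5), (4, 7), 4), ((5, 0), (8, 6), 3), ((5, 0), (8, 7), 4)]
  G := [[0, 0x111e4111e8a44, 0x111e8184, 0, 0x1dbe8188], [0, 0, 0x111e8148, 0xd17e4188,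
    0x1dbe8188], [0, 0, 0, 0, 0x1dbe1d17e1c18], [0, 0, 0, 0x59fe84b21dc68c4,
    0x1dbe1d17e1c18]]

noncomputable def n1468 : Ent := ⟨e1468, noF, [], [], []⟩

def c1468 : PLift (Cov.check n1468.C.D v1468 = true) := ⟨by decide +kernel⟩

def b1468 : PLift (entF (fidx ts) 400 1468 n1468 = true) := ⟨by decide +kernel⟩

theorem g1468 : GoodF (fidx ts) 400 1468 := GoodF.ofV v1468 n1468 c1468.down b1468.down

/-- 457474:1172/3 -/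
noncomputable def e1469 : SCfg where
  D := {
    a := 6
    L := 9
    kp := 6
    inn := [(0, 1), (1, 0), (1, 2), (2, 1), (2, 3), (2, 4), (3, 2), (3, 4), (4, 2), (4, 3), (4, 5), (5,
      4)]
    mix := [(0, 0), (0, 1), (0, 2), (1, 0), (1, 2), (1, 3), (2, 2), (2, 3), (2, 4), (2, 5), (3, 2), (3,
      6), (4, 4), (4, 6), (4, 7), (4, 8), (5, 1), (5, 7), (5, 8)]
    cl := [2, 1, 0, 0, 3, 6, 3, 4, 5]
    chq := [(1, 3), (3, 1)]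
    rng := [(0, 1), (0, 3), (1, 0), (1, 2), (1, 7), (1, 8), (2, 1), (2, 6), (3, 0), (3, 5), (4, 5), (4,
      8), (5, 3), (5, 4), (6, 2), (6, 7), (7, 1), (7, 6), (8, 1), (8, 4)]
    lev := [] }
  links := [[1, 6, 7, 8], [6, 0, 8, 2, 9], [9, 1, 8, 3, 4, 10, 11], [4, 2, 8, 12], [10, 2, 3, 12, 13, 5,
    14], [14, 4, 13, 7]]
  P := {
    a := 6
    N := 15
    nb := [450, 837, 3866, 4372, 29740, 24720, 643, 24929, 4239, 2118, 18452, 1540, 8472, 4272, 1200]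
    tri := [(0, 1, 6), (0, 1, 8), (0, 6, 7), (0, 7, 8), (1, 2, 8), (1, 2, 9), (1, 6, 9), (2, 3, 4), (2,
      3, 8), (2, 4, 10), (2, 9, 11), (2, 10, 11), (3, 4, 12), (3, 8, 12), (4, 5, 13), (4, 5, 14),
      (4, 10, 14), (4, 12, 13), (5, 7, 13), (5, 7, 14)]
    fin := [0, 0, 2, 2, 4, 5, 0, 5, 2, 2, 4, 11, 4, 13, 14]
    chd := [(5, 4)]
    steps := [(0, 1), (0, 6), (2, 3), (2, 8), (2, 9), (4, 12), (4, 10), (5, 7)] }
  rep := [2, 5, 0, 4, 13, 14, 11]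

noncomputable def v1469 : Cov.CovD where
  P := 3
  N := 4
  pl := [0, 5, 7, 8]
  lev := [⟨[], [], [(0, 1)], [2], [(1, 1, [3]), (2, 0, [])]⟩,
    ⟨[], [(0, 0), (0, 1)], [(0, 0)], [2], [(2, 0, []), (3, 0, [])]⟩,
    ⟨[(0, 1)], [(0, 0), (1, 0), (1, 3)], [(0, 0), (0, 3)], [6], [(2, 0, []), (3, 0, []),
      (4, 3, [1])]⟩,
    ⟨[(1, 2)], [(0, 0), (1, 0), (2, 0), (2, 3)], [(0, 3)], [], [(2, 0, []), (6, 3, [1])]⟩,
    ⟨[(1, 2), (2, 3)], [(2, 0), (2, 3), (3, 0), (3, 3)], [(3, 3)], [4, 5], [(4, 3, [1]),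
      (6, 3, [1])]⟩,
    ⟨[(2, 4), (3, 4)], [(0, 1), (4, 1), (4, 3)], [], [4, 5], [(1, 1, [3])]⟩]
  Ta := [((2, 1), 0, 1), ((2, 6), 0, 3), ((3, 0), 0, 2), ((3, 5), 0, 6), ((4, 5), 3, 6), ((4, 8),
    3, 5), ((6, 2), 3, 0), ((6, 7), 3, 4)]
  Tb := [((0, 1, 3), 2, 1, 0), ((1, 0, 2), 1, 2, 0), ((1, 0, 7), 1, 2, 4), ((1, 0, 8), 1, 2, 5),
    ((1, 2, 7), 1, 0, 4), ((1, 2, 8), 1, 0, 5), ((1, 7, 8), 1, 4, 5), ((2, 1, 6), 0, 1, 3),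
    ((3, 0, 5), 0, 2, 6), ((4, 5, 8), 3, 6, 5), ((5, 3, 4), 6, 0, 3), ((6, 2, 7), 3, 0, 4),
    ((7, 1, 6), 4, 1, 3), ((8, 1, 4), 5, 1, 3)]
  Tc := []
  Td := [((1, 3), (1, 0), 2), ((1, 3), (1, 2), 0), ((1, 3), (1, 7), 4), ((1, 3), (1, 8), 5), ((3,
    1), (4, 5), 6), ((3, 1), (4, 8), 5), ((3, 1), (6, 2), 0), ((3, 1), (6, 7), 4)]
  G := [[0, 0xe12e12e14e48, 0, 0xd24d22d24e48, 0x8c1784c1788c64c1b28a8], [0, 0xe12e14688, 0,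
    0xd224d228c4, 0x3491f28351f2c28], [0, 0, 0x8c1781184ce96c1348c8a8, 0xd24d28d21e48,
    0x8c17264c1f86114ca98a8], [0, 0, 0x2481f28241f2c28, 0xd22d28a41, 0x2ac1f48241f2c21]]

noncomputable def n1469 : Ent := ⟨e1469, noF, [], [], []⟩

def c1469 : PLift (Cov.check n1469.C.D v1469 = true) := ⟨by decide +kernel⟩

def b1469 : PLift (entF (fidx ts) 400 1469 n1469 = true) := ⟨by decide +kernel⟩

theorem g1469 : GoodF (fidx ts) 400 1469 := GoodF.ofV v1469 n1469 c1469.down b1469.down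

/-- 457474:1172 -/
noncomputable def e1470 : SCfg where
  D := {
    a := 6
    L := 10
    kp := 7
    inn := [(0, 1), (1, 0), (1, 2), (2, 1), (2, 3), (2, 4), (3, 2), (3, 4), (4, 2), (4, 3), (4, 5), (5,
      4)]
    mix := [(0, 0), (0, 1), (0, 2), (1, 0), (1, 2), (1, 3), (2, 2), (2, 3), (2, 4), (2, 5), (3, 2), (3,
      6), (4, 4), (4, 6), (4, 7), (4, 8), (5, 7), (5, 8), (5, 9)]
    cl := [2, 6, 0, 0, 1, 7, 1, 3, 4, 5]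
    chq := [(1, 5), (5, 1)]
    rng := [(0, 1), (0, 3), (1, 0), (1, 2), (2, 1), (2, 6), (3, 0), (3, 5), (4, 5), (4, 8), (5, 3), (5,
      4), (6, 2), (6, 7), (7, 6), (7, 9), (8, 4), (8, 9), (9, 7), (9, 8)]
    lev := [] }
  links := [[1, 6, 7, 8], [6, 0, 8, 2, 9], [9, 1, 8, 3, 4, 10, 11], [4, 2, 8, 12], [10, 2, 3, 12, 13, 5,
    14], [14, 4, 13, 15]]
  P := {
    a := 6
    N := 16
    nb := [450, 837, 3866, 4372, 29740, 57360, 643, 321, 4239, 2118, 18452, 1540, 8472, 36912, 33840,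
      24608]
    tri := [(0, 1, 6), (0, 1, 8), (0, 6, 7), (0, 7, 8), (1, 2, 8), (1, 2, 9), (1, 6, 9), (2, 3, 4), (2,
      3, 8), (2, 4, 10), (2, 9, 11), (2, 10, 11), (3, 4, 12), (3, 8, 12), (4, 5, 13), (4, 5, 14),
      (4, 10, 14), (4, 12, 13), (5, 13, 15), (5, 14, 15)]
    fin := [0, 0, 2, 2, 4, 4, 0, 7, 2, 2, 4, 11, 4, 13, 14, 15]
    chd := [(4, 15)]
    steps := [(0, 1), (0, 6), (2, 3), (2, 8), (2, 9), (4, 5), (4, 12), (4, 10)] }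
  rep := [2, 4, 0, 13, 14, 15, 7, 11]

noncomputable def v1470 : Cov.CovD where
  P := 3
  N := 5
  pl := [0, 1, 5, 7, 8]
  lev := [⟨[], [], [], [2, 6], [(2, 0, [])]⟩,
    ⟨[], [(0, 0)], [(0, 0)], [2], [(2, 0, []), (3, 0, [])]⟩,
    ⟨[(0, 1)], [(0, 0), (1, 0), (1, 1)], [(0, 0), (0, 1)], [7], [(2, 0, []), (3, 0, []),
      (4, 1, [5])]⟩,
    ⟨[(1, 2)], [(0, 0), (1, 0), (2, 0), (2, 1)], [(0, 1)], [], [(2, 0, []), (6, 1, [5])]⟩,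
    ⟨[(1, 2), (2, 3)], [(2, 0), (2, 1), (3, 0), (3, 1)], [(1, 1)], [3, 4], [(4, 1, [5]),
      (6, 1, [5])]⟩,
    ⟨[(2, 4), (3, 4)], [(4, 1), (4, 5)], [], [3, 4], [(9, 5, [1])]⟩]
  Ta := [((2, 1), 0, 6), ((2, 6), 0, 1), ((3, 0), 0, 2), ((3, 5), 0, 7), ((4, 5), 1, 7), ((4, 8),
    1, 4), ((6, 2), 1, 0), ((6, 7), 1, 3)]
  Tb := [((0, 1, 3), 2, 6, 0), ((1, 0, 2), 6, 2, 0), ((2, 1, 6), 0, 6, 1), ((3, 0, 5), 0, 2, 7),
    ((4, 5, 8), 1, 7, 4), ((5, 3, 4), 7, 0, 1), ((6, 2, 7), 1, 0, 3), ((7, 6, 9), 3, 1, 5),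
    ((8, 4, 9), 4, 1, 5), ((9, 7, 8), 5, 3, 4)]
  Tc := []
  Td := [((1, 5), (4, 5), 7), ((1, 5), (4, 8), 4), ((1, 5), (6, 2), 0), ((1, 5), (6, 7), 3), ((5,
    1), (9, 7), 3), ((5, 1), (9, 8), 4)]
  G := [[0, 0, 0, 0xe27d242ebd28c6afd846afd48cc, 0xeb528c275e8ac22ebd26afd8c2a], [0,
    0x111e2111e468111e2111e8a4c, 0, 0x2ebd828e27d428c, 0xe27d4282ebd828a], [0, 0,
    0x2ebd2e27d2c26afd471e2c5c2a, 0xe27d242ebd28c1, 0x2ebd26afd8c21], [0, 0,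
    0xe27d428e27d4246, 0xe27d4241, 0x2ebd8281]]

noncomputable def n1470 : Ent := ⟨e1470, noF, [], [], [(6, 15, [360035742630636841211993100915356868655746945586763691013681153, 0]), (7, 12, [385753029973011613167317188540585705112827479461471962596622337, 0]), (7, 15, [360035742630636841211993100915356868655746945586763691013689345, 0])]⟩

def c1470 : PLift (Cov.check n1470.C.D v1470 = true) := ⟨by decide +kernel⟩

def b1470 : PLift (entF (fidx ts) 400 1470 n1470 = true) := ⟨by decide +kernel⟩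

theorem g1470 : GoodF (fidx ts) 400 1470 := GoodF.ofV v1470 n1470 c1470.down b1470.down

/-- 457474:1174/1 -/
noncomputable def e1471 : SCfg where
  D := {
    a := 6
    L := 9
    kp := 6
    inn := [(0, 1), (1, 0), (1, 2), (2, 1), (2, 3), (2, 4), (3, 2), (3, 4), (4, 2), (4, 3), (4, 5), (5,
      4)]
    mix := [(0, 0), (0, 1), (0, 2), (1, 0), (1, 2), (1, 3), (2, 2), (2, 3), (2, 4), (2, 5), (3, 1), (3,
      2), (4, 1), (4, 4), (4, 6), (4, 7), (5, 4), (5, 7), (5, 8)]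
    cl := [2, 0, 1, 1, 0, 6, 4, 3, 5]
    chq := [(4, 5), (5, 4)]
    rng := [(0, 1), (0, 3), (1, 0), (1, 2), (1, 6), (2, 1), (3, 0), (3, 5), (4, 5), (4, 8), (5, 3), (5,
      4), (6, 1), (6, 7), (7, 6), (7, 8), (8, 4), (8, 7)]
    lev := [] }
  links := [[1, 6, 7, 8], [6, 0, 8, 2, 9], [9, 1, 8, 3, 4, 10, 11], [4, 2, 8, 7], [10, 2, 3, 7, 12, 13,
    5], [10, 4, 13, 14]]
  P := {
    a := 6
    N := 15
    nb := [450, 837, 3866, 404, 13484, 25616, 643, 4441, 143, 2118, 18484, 1540, 8336, 20528, 9248]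
    tri := [(0, 1, 6), (0, 1, 8), (0, 6, 7), (0, 7, 8), (1, 2, 8), (1, 2, 9), (1, 6, 9), (2, 3, 4), (2,
      3, 8), (2, 4, 10), (2, 9, 11), (2, 10, 11), (3, 4, 7), (3, 7, 8), (4, 5, 10), (4, 5, 13),
      (4, 7, 12), (4, 12, 13), (5, 10, 14), (5, 13, 14)]
    fin := [0, 1, 2, 2, 4, 4, 0, 2, 1, 1, 2, 11, 4, 13, 14]
    chd := [(4, 14)]
    steps := [(0, 6), (1, 8), (1, 9), (2, 3), (2, 7), (2, 10), (4, 5), (4, 12)] }
  rep := [2, 1, 0, 13, 4, 14, 11]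

noncomputable def v1471 : Cov.CovD where
  P := 3
  N := 4
  pl := [0, 5, 7]
  lev := [⟨[], [], [(0, 1)], [2], [(1, 0, []), (2, 1, [])]⟩,
    ⟨[], [(0, 0), (0, 1)], [(1, 1)], [2], [(2, 1, []), (3, 1, [])]⟩,
    ⟨[(0, 1)], [(0, 1), (1, 0), (1, 1)], [(0, 1), (1, 1)], [6], [(2, 1, []), (3, 1, []),
      (4, 0, [])]⟩,
    ⟨[(1, 2)], [(0, 0), (0, 1), (1, 1), (2, 0), (2, 1)], [(0, 1)], [], [(1, 0, []), (2, 1,
      [])]⟩,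
    ⟨[(1, 2), (2, 3)], [(0, 0), (2, 0), (2, 1), (2, 4), (3, 0), (3, 1), (3, 4)], [(0, 0),
      (0, 4)], [3], [(1, 0, []), (4, 0, []), (6, 4, [5])]⟩,
    ⟨[(2, 4), (3, 4)], [(2, 0), (4, 0), (4, 4), (4, 5)], [(0, 5)], [3], [(4, 0, []), (8, 5,
      [4])]⟩]
  Ta := [((1, 0), 0, 2), ((1, 2), 0, 1), ((1, 6), 0, 4), ((2, 1), 1, 0), ((3, 0), 1, 2), ((3, 5),
    1, 6), ((4, 5), 0, 6), ((4, 8), 0, 5)]
  Tb := [((0, 1, 3), 2, 0, 1), ((1, 0, 2), 0, 2, 1), ((1, 0, 6), 0, 2, 4), ((1, 2, 6), 0, 1, 4),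
    ((3, 0, 5), 1, 2, 6), ((4, 5, 8), 0, 6, 5), ((5, 3, 4), 6, 1, 0), ((6, 1, 7), 4, 0, 3),
    ((7, 6, 8), 3, 4, 5), ((8, 4, 7), 5, 0, 3)]
  Tc := []
  Td := [((4, 5), (6, 1), 0), ((4, 5), (6, 7), 3), ((5, 4), (8, 4), 0), ((5, 4), (8, 7), 3)]
  G := [[0, 0x31ce2319e4a44, 0x6ace8188, 0, 0x6ace4188], [0, 0, 0x6ace4144, 0x6ace8188,
    0x6ace8188], [0, 0, 0, 0, 0x6ace1ac668cc18], [0, 0, 0, 0x6acc236ace1c14,
    0xc26ac56ace1c18]]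

noncomputable def n1471 : Ent := ⟨e1471, noF, [], [], []⟩

def c1471 : PLift (Cov.check n1471.C.D v1471 = true) := ⟨by decide +kernel⟩

def b1471 : PLift (entF (fidx ts) 400 1471 n1471 = true) := ⟨by decide +kernel⟩

theorem g1471 : GoodF (fidx ts) 400 1471 := GoodF.ofV v1471 n1471 c1471.down b1471.down

/-- 457474:1174 -/
noncomputable def e1472 : SCfg where
  D := {
    a := 6
    L := 10
    kp := 7
    inn := [(0, 1), (1, 0), (1, 2), (2, 1), (2, 3), (2, 4), (3, 2), (3, 4), (4, 2), (4, 3), (4, 5), (5,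
      4)]
    mix := [(0, 0), (0, 1), (0, 2), (1, 0), (1, 2), (1, 3), (2, 2), (2, 3), (2, 4), (2, 5), (3, 2), (3,
      6), (4, 4), (4, 6), (4, 7), (4, 8), (5, 4), (5, 8), (5, 9)]
    cl := [2, 6, 0, 0, 1, 7, 1, 4, 3, 5]
    chq := [(4, 5), (5, 4)]
    rng := [(0, 1), (0, 3), (1, 0), (1, 2), (2, 1), (2, 6), (3, 0), (3, 5), (4, 5), (4, 9), (5, 3), (5,
      4), (6, 2), (6, 7), (7, 6), (7, 8), (8, 7), (8, 9), (9, 4), (9, 8)]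
    lev := [] }
  links := [[1, 6, 7, 8], [6, 0, 8, 2, 9], [9, 1, 8, 3, 4, 10, 11], [4, 2, 8, 12], [10, 2, 3, 12, 13, 14,
    5], [10, 4, 14, 15]]
  P := {
    a := 6
    N := 16
    nb := [450, 837, 3866, 4372, 29740, 50192, 643, 321, 4239, 2118, 34868, 1540, 8472, 20496, 41008,
      17440]
    tri := [(0, 1, 6), (0, 1, 8), (0, 6, 7), (0, 7, 8), (1, 2, 8), (1, 2, 9), (1, 6, 9), (2, 3, 4), (2,
      3, 8), (2, 4, 10), (2, 9, 11), (2, 10, 11), (3, 4, 12), (3, 8, 12), (4, 5, 10), (4, 5, 14),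
      (4, 12, 13), (4, 13, 14), (5, 10, 15), (5, 14, 15)]
    fin := [0, 1, 2, 2, 4, 4, 0, 7, 1, 1, 2, 11, 2, 4, 14, 15]
    chd := [(4, 15)]
    steps := [(0, 6), (1, 8), (1, 9), (2, 3), (2, 12), (2, 10), (4, 5), (4, 13)] }
  rep := [1, 2, 0, 14, 4, 15, 7, 11]

noncomputable def v1472 : Cov.CovD where
  P := 3
  N := 5
  pl := [0, 1, 5, 8]
  lev := [⟨[], [], [], [2, 6], [(2, 0, [])]⟩,
    ⟨[], [(0, 0)], [(0, 0)], [2], [(2, 0, []), (3, 0, [])]⟩,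
    ⟨[(0, 1)], [(0, 0), (1, 0), (1, 1)], [(0, 0), (0, 1)], [7], [(2, 0, []), (3, 0, []),
      (4, 1, [])]⟩,
    ⟨[(1, 2)], [(0, 0), (1, 0), (2, 0), (2, 1)], [(0, 1)], [], [(2, 0, []), (6, 1, [])]⟩,
    ⟨[(1, 2), (2, 3)], [(2, 0), (2, 1), (2, 4), (3, 0), (3, 1), (3, 4)], [(1, 1), (1, 4)],
      [3], [(4, 1, []), (6, 1, []), (7, 4, [5])]⟩,
    ⟨[(2, 4), (3, 4)], [(2, 1), (4, 1), (4, 4), (4, 5)], [(1, 5)], [3], [(4, 1, []), (9, 5,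
      [4])]⟩]
  Ta := [((2, 1), 0, 6), ((2, 6), 0, 1), ((3, 0), 0, 2), ((3, 5), 0, 7), ((4, 5), 1, 7), ((4, 9),
    1, 5), ((6, 2), 1, 0), ((6, 7), 1, 4)]
  Tb := [((0, 1, 3), 2, 6, 0), ((1, 0, 2), 6, 2, 0), ((2, 1, 6), 0, 6, 1), ((3, 0, 5), 0, 2, 7),
    ((4, 5, 9), 1, 7, 5), ((5, 3, 4), 7, 0, 1), ((6, 2, 7), 1, 0, 4), ((7, 6, 8), 4, 1, 3),
    ((8, 7, 9), 3, 4, 5), ((9, 4, 8), 5, 1, 3)]
  Tc := []
  Td := [((4, 5), (7, 6), 1), ((4, 5), (7, 8), 3), ((5, 4), (9, 4), 1), ((5, 4), (9, 8), 3)]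
  G := [[0, 0, 0, 0x59cd24945c9a8c5c9946459cd48cc, 0x59cd2945c9cc259cd259cd2c2a], [0,
    0x5a1e8691e868591e25a1e8a4c, 0, 0x59cd82859cd424c, 0x59cd82859cd428a], [0, 0,
    0x59cd4829c5259cd2c5848ac159c348e, 0x942459cd25c92cc1, 0x9c558c945c9cc21], [0, 0,
    0x59cd42459cd428a, 0x59cd4241, 0x59cd4281]]

noncomputable def n1472 : Ent := ⟨e1472, noF, [], [], [(7, 12, [385753029973011613167317188540585705112827479461471962596634625, 0])]⟩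

def c1472 : PLift (Cov.check n1472.C.D v1472 = true) := ⟨by decide +kernel⟩

def b1472 : PLift (entF (fidx ts) 400 1472 n1472 = true) := ⟨by decide +kernel⟩

theorem g1472 : GoodF (fidx ts) 400 1472 := GoodF.ofV v1472 n1472 c1472.down b1472.down

/-- 457654:1188/2 -/
noncomputable def e1473 : SCfg where
  D := {
    a := 6
    L := 9
    kp := 6
    inn := [(0, 1), (1, 0), (1, 2), (2, 1), (2, 3), (3, 2), (3, 4), (4, 3), (4, 5), (5, 4)]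
    mix := [(0, 0), (0, 1), (0, 2), (1, 0), (1, 2), (1, 3), (2, 2), (2, 3), (2, 4), (2, 5), (2, 6), (3,
      2), (3, 4), (3, 7), (3, 8), (4, 1), (4, 2), (4, 7), (5, 0), (5, 1), (5, 7)]
    cl := [2, 1, 0, 0, 0, 5, 6, 3, 4]
    chq := [(1, 3), (1, 4), (3, 1), (4, 1)]
    rng := [(0, 1), (0, 3), (0, 7), (1, 0), (1, 2), (2, 1), (3, 0), (3, 6), (4, 5), (4, 8), (5, 4), (5,
      6), (6, 3), (6, 5), (7, 0), (7, 8), (8, 4), (8, 7)]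
    lev := [] }
  links := [[1, 6, 7, 8], [6, 0, 8, 2, 9], [9, 1, 8, 3, 10, 11, 12], [10, 2, 8, 4, 13, 14], [13, 3, 8, 7,
    5], [13, 4, 7, 6]]
  P := {
    a := 6
    N := 15
    nb := [450, 837, 7946, 25876, 8616, 8400, 8867, 369, 159, 4166, 18444, 5124, 2564, 16504, 9224]
    tri := [(0, 1, 6), (0, 1, 8), (0, 6, 7), (0, 7, 8), (1, 2, 8), (1, 2, 9), (1, 6, 9), (2, 3, 8), (2,
      3, 10), (2, 9, 12), (2, 10, 11), (2, 11, 12), (3, 4, 8), (3, 4, 13), (3, 10, 14), (3, 13,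
      14), (4, 5, 7), (4, 5, 13), (4, 7, 8), (5, 6, 7), (5, 6, 13)]
    fin := [0, 0, 2, 3, 3, 0, 0, 3, 2, 2, 2, 11, 12, 13, 14]
    chd := [(3, 13), (3, 14)]
    steps := [(0, 1), (0, 6), (0, 5), (2, 8), (2, 10), (2, 9), (3, 4), (3, 7)] }
  rep := [2, 3, 0, 13, 14, 11, 12]

noncomputable def v1473 : Cov.CovD where
  P := 3
  N := 4
  pl := [0, 5, 6]
  lev := [⟨[], [], [(0, 1)], [2], [(1, 1, [3, 4]), (2, 0, [])]⟩,
    ⟨[], [(0, 0), (0, 1)], [(0, 0)], [2], [(2, 0, []), (3, 0, [])]⟩,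
    ⟨[(0, 1)], [(0, 0), (1, 0)], [(0, 0)], [5, 6], [(2, 0, []), (3, 0, []), (4, 0, [])]⟩,
    ⟨[(1, 2)], [(0, 0), (1, 0), (2, 0), (2, 3), (2, 4)], [(0, 0), (0, 3), (0, 4), (3, 4)],
      [], [(2, 0, []), (4, 0, []), (7, 3, [1]), (8, 4, [1])]⟩,
    ⟨[(2, 3)], [(0, 0), (0, 1), (1, 0), (2, 0), (3, 0), (3, 1), (3, 3), (3, 4)], [(0, 1),
      (0, 3), (1, 3)], [], [(1, 1, [3, 4]), (2, 0, []), (7, 3, [1])]⟩,
    ⟨[(3, 4)], [(0, 1), (3, 3), (4, 0), (4, 1), (4, 3)], [(1, 3)], [2], [(1, 1, [3, 4]),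
      (7, 3, [1])]⟩]
  Ta := [((2, 1), 0, 1), ((3, 0), 0, 2), ((3, 6), 0, 6), ((4, 5), 0, 5), ((4, 8), 0, 4)]
  Tb := [((0, 1, 3), 2, 1, 0), ((0, 1, 7), 2, 1, 3), ((0, 3, 7), 2, 0, 3), ((1, 0, 2), 1, 2, 0),
    ((3, 0, 6), 0, 2, 6), ((4, 5, 8), 0, 5, 4), ((5, 4, 6), 5, 0, 6), ((6, 3, 5), 6, 0, 5),
    ((7, 0, 8), 3, 2, 4), ((8, 4, 7), 4, 0, 3)]
  Tc := [(1, 3, 4)]
  Td := [((1, 3), (1, 0), 2), ((1, 3), (1, 2), 0), ((1, 4), (1, 0), 2), ((1, 4), (1, 2), 0), ((3,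
    1), (7, 0), 2), ((3, 1), (7, 8), 4), ((4, 1), (8, 4), 0), ((4, 1), (8, 7), 3)]
  G := [[0, 0x48a84ac2e448644a486e48644a84ceac4, 0, 0x84c2414c281c2ac4, 0x81c2189481ce681c28a8],
    [0, 0, 0xc12c128141c1ee48, 0x84c214c284c2e41, 0x9852381481ce681c28a8], [0, 0, 0,
    0x81c214c284c2e41, 0x381481ce281c29852ca8]]

noncomputable def n1473 : Ent := ⟨e1473, noF, [], [], []⟩

def c1473 : PLift (Cov.check n1473.C.D v1473 = true) := ⟨by decide +kernel⟩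

def b1473 : PLift (entF (fidx ts) 400 1473 n1473 = true) := ⟨by decide +kernel⟩

theorem g1473 : GoodF (fidx ts) 400 1473 := GoodF.ofV v1473 n1473 c1473.down b1473.down

/-- 457654:1188/1 -/
noncomputable def e1474 : SCfg where
  D := {
    a := 6
    L := 10
    kp := 7
    inn := [(0, 1), (1, 0), (1, 2), (2, 1), (2, 3), (3, 2), (3, 4), (4, 3), (4, 5), (5, 4)]
    mix := [(0, 0), (0, 1), (0, 2), (1, 0), (1, 2), (1, 3), (2, 2), (2, 3), (2, 4), (2, 5), (2, 6), (3,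
      2), (3, 4), (3, 7), (3, 8), (4, 2), (4, 7), (4, 9), (5, 0), (5, 7), (5, 9)]
    cl := [1, 5, 0, 0, 0, 6, 7, 3, 4, 2]
    chq := [(2, 3), (2, 4), (3, 2), (4, 2)]
    rng := [(0, 1), (0, 3), (0, 7), (0, 9), (1, 0), (1, 2), (2, 1), (2, 9), (3, 0), (3, 6), (4, 5), (4,
      8), (5, 4), (5, 6), (6, 3), (6, 5), (7, 0), (7, 8), (8, 4), (8, 7), (9, 0), (9, 2)]
    lev := [] }
  links := [[1, 6, 7, 8], [6, 0, 8, 2, 9], [9, 1, 8, 3, 10, 11, 12], [10, 2, 8, 4, 13, 14], [13, 3, 8,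
    15, 5], [13, 4, 15, 6]]
  P := {
    a := 6
    N := 16
    nb := [450, 837, 7946, 25876, 41256, 41040, 41635, 321, 32927, 4166, 18444, 5124, 2564, 16504,
      9224, 368]
    tri := [(0, 1, 6), (0, 1, 8), (0, 6, 7), (0, 7, 8), (1, 2, 8), (1, 2, 9), (1, 6, 9), (2, 3, 8), (2,
      3, 10), (2, 9, 12), (2, 10, 11), (2, 11, 12), (3, 4, 8), (3, 4, 13), (3, 10, 14), (3, 13,
      14), (4, 5, 13), (4, 5, 15), (4, 8, 15), (5, 6, 13), (5, 6, 15)]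
    fin := [0, 0, 2, 3, 3, 0, 0, 7, 2, 2, 2, 11, 12, 13, 14, 3]
    chd := [(13, 3), (14, 3)]
    steps := [(0, 1), (0, 6), (0, 5), (2, 8), (2, 10), (2, 9), (3, 4), (3, 15)] }
  rep := [2, 0, 3, 13, 14, 7, 11, 12]

noncomputable def v1474 : Cov.CovD where
  P := 3
  N := 5
  pl := [0, 1, 5, 6]
  lev := [⟨[], [], [], [1, 5], [(2, 0, [])]⟩,
    ⟨[], [(0, 0)], [(0, 0)], [1], [(2, 0, []), (3, 0, [])]⟩,
    ⟨[(0, 1)], [(0, 0), (1, 0)], [(0, 0)], [6, 7], [(2, 0, []), (3, 0, []), (4, 0, [])]⟩,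
    ⟨[(1, 2)], [(0, 0), (1, 0), (2, 0), (2, 3), (2, 4)], [(0, 0), (0, 3), (0, 4), (3, 4)],
      [], [(2, 0, []), (4, 0, []), (7, 3, [2]), (8, 4, [2])]⟩,
    ⟨[(2, 3)], [(0, 0), (1, 0), (2, 0), (3, 0), (3, 2), (3, 3), (3, 4)], [(0, 2), (0, 3),
      (2, 3)], [], [(2, 0, []), (7, 3, [2]), (9, 2, [3, 4])]⟩,
    ⟨[(3, 4)], [(3, 3), (4, 0), (4, 2), (4, 3)], [(2, 3)], [1], [(7, 3, [2]), (9, 2, [3,
      4])]⟩]
  Ta := [((2, 1), 0, 5), ((2, 9), 0, 2), ((3, 0), 0, 1), ((3, 6), 0, 7), ((4, 5), 0, 6), ((4, 8),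
    0, 4)]
  Tb := [((0, 1, 3), 1, 5, 0), ((0, 1, 7), 1, 5, 3), ((0, 1, 9), 1, 5, 2), ((0, 3, 7), 1, 0, 3),
    ((0, 3, 9), 1, 0, 2), ((0, 7, 9), 1, 3, 2), ((1, 0, 2), 5, 1, 0), ((2, 1, 9), 0, 5, 2),
    ((3, 0, 6), 0, 1, 7), ((4, 5, 8), 0, 6, 4), ((5, 4, 6), 6, 0, 7), ((6, 3, 5), 7, 0, 6),
    ((7, 0, 8), 3, 1, 4), ((8, 4, 7), 4, 0, 3), ((9, 0, 2), 2, 1, 0)]
  Tc := [(2, 3, 4)]
  Td := [((2, 3), (9, 0), 1), ((2, 3), (9, 2), 0), ((2, 4), (9, 0), 1), ((2, 4), (9, 2), 0), ((3,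
    2), (7, 0), 1), ((3, 2), (7, 8), 4), ((4, 2), (8, 4), 0), ((4, 2), (8, 7), 3)]
  G := [[0, 0, 0x48a44ac2e448684684ce48644a84ceac48a84ac2e488644ac2e48684a84ceacc,
    0x84c284c284c2e484c214c214c2e8c, 0x48a11a92e81a4681a48c81a45881a12e81a4e8c], [0,
    0xc12c128141c1ee484c2c128141c1ee8a, 0, 0x14c284c284c2e41, 0x81a45881a12e19a4e81], [0, 0,
    0, 0x84c281c214c2e41, 0x81a448a81a12e81a4e81]]

noncomputable def n1474 : Ent := ⟨e1474, noF, [], [], [(7, 15, [360035742630636841211993100915356868655746945586763691013705729, 0])]⟩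

def c1474 : PLift (Cov.check n1474.C.D v1474 = true) := ⟨by decide +kernel⟩

def b1474 : PLift (entF (fidx ts) 400 1474 n1474 = true) := ⟨by decide +kernel⟩

theorem g1474 : GoodF (fidx ts) 400 1474 := GoodF.ofV v1474 n1474 c1474.down b1474.down

/-- 457654:1188/3 -/
noncomputable def e1475 : SCfg where
  D := {
    a := 6
    L := 10
    kp := 7
    inn := [(0, 1), (1, 0), (1, 2), (2, 1), (2, 3), (3, 2), (3, 4), (4, 3), (4, 5), (5, 4)]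
    mix := [(0, 0), (0, 1), (0, 2), (1, 0), (1, 2), (1, 3), (2, 2), (2, 3), (2, 4), (2, 5), (2, 6), (3,
      2), (3, 4), (3, 7), (3, 8), (4, 1), (4, 2), (4, 7), (5, 1), (5, 7), (5, 9)]
    cl := [2, 1, 0, 0, 0, 5, 6, 3, 4, 7]
    chq := [(1, 3), (1, 4), (3, 1), (4, 1)]
    rng := [(0, 1), (0, 3), (1, 0), (1, 2), (1, 9), (2, 1), (3, 0), (3, 6), (4, 5), (4, 8), (5, 4), (5,
      6), (6, 3), (6, 5), (7, 8), (7, 9), (8, 4), (8, 7), (9, 1), (9, 7)]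
    lev := [] }
  links := [[1, 6, 7, 8], [6, 0, 8, 2, 9], [9, 1, 8, 3, 10, 11, 12], [10, 2, 8, 4, 13, 14], [13, 3, 8, 7,
    5], [13, 4, 7, 15]]
  P := {
    a := 6
    N := 16
    nb := [450, 837, 7946, 25876, 8616, 41104, 643, 33137, 159, 4166, 18444, 5124, 2564, 49208, 9224,
      8352]
    tri := [(0, 1, 6), (0, 1, 8), (0, 6, 7), (0, 7, 8), (1, 2, 8), (1, 2, 9), (1, 6, 9), (2, 3, 8), (2,
      3, 10), (2, 9, 12), (2, 10, 11), (2, 11, 12), (3, 4, 8), (3, 4, 13), (3, 10, 14), (3, 13,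
      14), (4, 5, 7), (4, 5, 13), (4, 7, 8), (5, 7, 15), (5, 13, 15)]
    fin := [0, 0, 2, 3, 3, 3, 0, 3, 2, 2, 2, 11, 12, 13, 14, 15]
    chd := [(3, 13), (3, 14)]
    steps := [(0, 1), (0, 6), (2, 8), (2, 10), (2, 9), (3, 4), (3, 5), (3, 7)] }
  rep := [2, 3, 0, 13, 14, 11, 12, 15]

noncomputable def v1475 : Cov.CovD where
  P := 3
  N := 5
  pl := [0, 5, 6, 9]
  lev := [⟨[], [], [(0, 1)], [2], [(1, 1, [3, 4]), (2, 0, [])]⟩,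
    ⟨[], [(0, 0), (0, 1)], [(0, 0)], [2], [(2, 0, []), (3, 0, [])]⟩,
    ⟨[(0, 1)], [(0, 0), (1, 0)], [(0, 0)], [5, 6], [(2, 0, []), (3, 0, []), (4, 0, [])]⟩,
    ⟨[(1, 2)], [(0, 0), (1, 0), (2, 0), (2, 3), (2, 4)], [(0, 0), (0, 3), (0, 4), (3, 4)],
      [], [(2, 0, []), (4, 0, []), (7, 3, [1]), (8, 4, [1])]⟩,
    ⟨[(2, 3)], [(0, 0), (0, 1), (1, 0), (2, 0), (3, 0), (3, 1), (3, 3), (3, 4)], [(0, 1),
      (0, 3), (1, 3)], [], [(1, 1, [3, 4]), (2, 0, []), (7, 3, [1])]⟩,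
    ⟨[(3, 4)], [(0, 1), (3, 3), (4, 0), (4, 1), (4, 3)], [(1, 3)], [7], [(1, 1, [3, 4]),
      (7, 3, [1])]⟩]
  Ta := [((2, 1), 0, 1), ((3, 0), 0, 2), ((3, 6), 0, 6), ((4, 5), 0, 5), ((4, 8), 0, 4)]
  Tb := [((0, 1, 3), 2, 1, 0), ((1, 0, 2), 1, 2, 0), ((1, 0, 9), 1, 2, 7), ((1, 2, 9), 1, 0, 7),
    ((3, 0, 6), 0, 2, 6), ((4, 5, 8), 0, 5, 4), ((5, 4, 6), 5, 0, 6), ((6, 3, 5), 6, 0, 5),
    ((7, 8, 9), 3, 4, 7), ((8, 4, 7), 4, 0, 3), ((9, 1, 7), 7, 1, 3)]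
  Tc := [(1, 3, 4)]
  Td := [((1, 3), (1, 0), 2), ((1, 3), (1, 2), 0), ((1, 3), (1, 9), 7), ((1, 4), (1, 0), 2), ((1,
    4), (1, 2), 0), ((1, 4), (1, 9), 7), ((3, 1), (7, 8), 4), ((3, 1), (7, 9), 7), ((4, 1),
    (8, 4), 0), ((4, 1), (8, 7), 3)]
  G := [[0, 0xca6c6aa6ce4ca6c6aa6ce688ec24ea6ceac4, 0, 0x95c295c295c2e48,
    0x78b495ce295c295c2ca8], [0, 0, 0x95c295c2e1b495cee48, 0x95c295c295c2e84,
    0x95c278b495ce695c28a8], [0, 0, 0, 0x95c295c295c2e81, 0x95c295c278b495cee81]]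

noncomputable def n1475 : Ent := ⟨e1475, noF, [], [], [(6, 15, [360035742630636841211993100915356868655746945586763691013705729, 0])]⟩

def c1475 : PLift (Cov.check n1475.C.D v1475 = true) := ⟨by decide +kernel⟩

def b1475 : PLift (entF (fidx ts) 400 1475 n1475 = true) := ⟨by decide +kernel⟩

theorem g1475 : GoodF (fidx ts) 400 1475 := GoodF.ofV v1475 n1475 c1475.down b1475.down

/-- 457654:1188 -/
noncomputable def e1476 : SCfg where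
  D := {
    a := 6
    L := 11
    kp := 8
    inn := [(0, 1), (1, 0), (1, 2), (2, 1), (2, 3), (3, 2), (3, 4), (4, 3), (4, 5), (5, 4)]
    mix := [(0, 0), (0, 1), (0, 2), (1, 0), (1, 2), (1, 3), (2, 2), (2, 3), (2, 4), (2, 5), (2, 6), (3,
      2), (3, 4), (3, 7), (3, 8), (4, 2), (4, 7), (4, 9), (5, 7), (5, 9), (5, 10)]
    cl := [2, 5, 0, 0, 0, 6, 7, 3, 4, 1, 8]
    chq := [(1, 3), (1, 4), (3, 1), (4, 1)]
    rng := [(0, 1), (0, 3), (1, 0), (1, 2), (2, 1), (2, 9), (3, 0), (3, 6), (4, 5), (4, 8), (5, 4), (5,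
      6), (6, 3), (6, 5), (7, 8), (7, 10), (8, 4), (8, 7), (9, 2), (9, 10), (10, 7), (10, 9)]
    lev := [] }
  links := [[1, 6, 7, 8], [6, 0, 8, 2, 9], [9, 1, 8, 3, 10, 11, 12], [10, 2, 8, 4, 13, 14], [13, 3, 8,
    15, 5], [13, 4, 15, 16]]
  P := {
    a := 6
    N := 17
    nb := [450, 837, 7946, 25876, 41256, 106512, 643, 321, 32927, 4166, 18444, 5124, 2564, 81976,
      9224, 65840, 40992]
    tri := [(0, 1, 6), (0, 1, 8), (0, 6, 7), (0, 7, 8), (1, 2, 8), (1, 2, 9), (1, 6, 9), (2, 3, 8), (2,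
      3, 10), (2, 9, 12), (2, 10, 11), (2, 11, 12), (3, 4, 8), (3, 4, 13), (3, 10, 14), (3, 13,
      14), (4, 5, 13), (4, 5, 15), (4, 8, 15), (5, 13, 16), (5, 15, 16)]
    fin := [0, 0, 2, 3, 3, 3, 0, 7, 2, 2, 2, 11, 12, 13, 14, 3, 16]
    chd := [(13, 3), (14, 3)]
    steps := [(0, 1), (0, 6), (2, 8), (2, 10), (2, 9), (3, 4), (3, 5), (3, 15)] }
  rep := [2, 3, 0, 13, 14, 7, 11, 12, 16]

noncomputable def v1476 : Cov.CovD where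
  P := 3
  N := 6
  pl := [0, 1, 5, 6, 10]
  lev := [⟨[], [], [], [2, 5], [(2, 0, [])]⟩,
    ⟨[], [(0, 0)], [(0, 0)], [2], [(2, 0, []), (3, 0, [])]⟩,
    ⟨[(0, 1)], [(0, 0), (1, 0)], [(0, 0)], [6, 7], [(2, 0, []), (3, 0, []), (4, 0, [])]⟩,
    ⟨[(1, 2)], [(0, 0), (1, 0), (2, 0), (2, 3), (2, 4)], [(0, 0), (0, 3), (0, 4), (3, 4)],
      [], [(2, 0, []), (4, 0, []), (7, 3, [1]), (8, 4, [1])]⟩,
    ⟨[(2, 3)], [(0, 0), (1, 0), (2, 0), (3, 0), (3, 1), (3, 3), (3, 4)], [(0, 1), (0, 3),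
      (1, 3)], [], [(2, 0, []), (7, 3, [1]), (9, 1, [3, 4])]⟩,
    ⟨[(3, 4)], [(3, 3), (4, 0), (4, 1), (4, 3)], [(1, 3)], [8], [(7, 3, [1]), (9, 1, [3,
      4])]⟩]
  Ta := [((2, 1), 0, 5), ((2, 9), 0, 1), ((3, 0), 0, 2), ((3, 6), 0, 7), ((4, 5), 0, 6), ((4, 8),
    0, 4)]
  Tb := [((0, 1, 3), 2, 5, 0), ((1, 0, 2), 5, 2, 0), ((2, 1, 9), 0, 5, 1), ((3, 0, 6), 0, 2, 7),
    ((4, 5, 8), 0, 6, 4), ((5, 4, 6), 6, 0, 7), ((6, 3, 5), 7, 0, 6), ((7, 8, 10), 3, 4, 8),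
    ((8, 4, 7), 4, 0, 3), ((9, 2, 10), 1, 0, 8), ((10, 7, 9), 8, 3, 1)]
  Tc := [(1, 3, 4)]
  Td := [((1, 3), (9, 2), 0), ((1, 3), (9, 10), 8), ((1, 4), (9, 2), 0), ((1, 4), (9, 10), 8),
    ((3, 1), (7, 8), 4), ((3, 1), (7, 10), 8), ((4, 1), (8, 4), 0), ((4, 1), (8, 7), 3)]
  G := [[0, 0xca6c6a22ceeca6c6aa6ce6ca6c6aa6ce8cca6c6aa6ce4ca6c24e22cee688ec6aa6ceacc, 0,
    0x95c295c27852c95cee495c2495c278b495ceacc, 0x95c278b495ce695c28a95c295c278b495cee8a], [0,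
    0, 0x95c295c2189b495cee495c295c278b495cee4a, 0x95c295c278b495cee41,
    0x95c295c278b495cee81], [0, 0, 0, 0x95c295c278b495cee81, 0x95c295c278b495cee81]]

noncomputable def n1476 : Ent := ⟨e1476, noF, [], [], [(6, 16, [1580044410770988437309982408355971841652082177953823432505695150081, 0]), (7, 15, [1685356702439545624007900436039642273970977273354372543760006131713, 0])]⟩

def c1476 : PLift (Cov.check n1476.C.D v1476 = true) := ⟨by decide +kernel⟩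

def b1476 : PLift (entF (fidx ts) 400 1476 n1476 = true) := ⟨by decide +kernel⟩

theorem g1476 : GoodF (fidx ts) 400 1476 := GoodF.ofV v1476 n1476 c1476.down b1476.down

/-- 477544:1206/1 -/
noncomputable def e1477 : SCfg where
  D := {
    a := 6
    L := 9
    kp := 6
    inn := [(0, 1), (0, 2), (1, 0), (1, 2), (1, 3), (2, 0), (2, 1), (2, 4), (3, 1), (3, 5), (4, 2), (5,
      3)]
    mix := [(0, 0), (0, 1), (1, 1), (1, 2), (1, 3), (1, 4), (2, 0), (2, 4), (2, 5), (2, 6), (3, 1), (3,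
      2), (3, 7), (4, 4), (4, 5), (4, 8), (5, 2), (5, 7), (5, 8)]
    cl := [0, 1, 1, 6, 0, 3, 5, 4, 2]
    chq := [(2, 5), (5, 2)]
    rng := [(0, 1), (0, 6), (1, 0), (1, 7), (2, 3), (2, 8), (3, 2), (3, 4), (4, 3), (4, 8), (5, 6), (5,
      8), (6, 0), (6, 5), (7, 1), (7, 8), (8, 2), (8, 4), (8, 5), (8, 7)]
    lev := [] }
  links := [[1, 2, 6, 7], [2, 0, 7, 3, 8, 9, 10], [6, 0, 1, 10, 4, 11, 12], [8, 1, 7, 13, 5], [11, 2, 10,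
    14], [8, 3, 13, 14]]
  P := {
    a := 6
    N := 15
    nb := [198, 1933, 7251, 8610, 19460, 24840, 4229, 8267, 16938, 1282, 16918, 20500, 2116, 16552,
      11568]
    tri := [(0, 1, 2), (0, 1, 7), (0, 2, 6), (0, 6, 7), (1, 2, 10), (1, 3, 7), (1, 3, 8), (1, 8, 9),
      (1, 9, 10), (2, 4, 10), (2, 4, 11), (2, 6, 12), (2, 11, 12), (3, 5, 8), (3, 5, 13), (3, 7,
      13), (4, 10, 14), (4, 11, 14), (5, 8, 14), (5, 13, 14)]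
    fin := [0, 0, 2, 3, 2, 3, 0, 3, 3, 9, 0, 11, 12, 13, 2]
    chd := [(12, 2)]
    steps := [(0, 1), (0, 6), (0, 10), (2, 4), (2, 14), (3, 5), (3, 7), (3, 8)] }
  rep := [0, 3, 2, 11, 13, 12, 9]

noncomputable def v1477 : Cov.CovD where
  P := 3
  N := 4
  pl := [3, 5, 7]
  lev := [⟨[], [], [(0, 1)], [], [(0, 0, []), (1, 1, [])]⟩,
    ⟨[], [(0, 0), (0, 1)], [(0, 1), (1, 1)], [6], [(1, 1, []), (2, 1, []), (4, 0, [])]⟩,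
    ⟨[(0, 1)], [(0, 0), (0, 1), (0, 5), (1, 0), (1, 1), (1, 5)], [(0, 0), (0, 5)], [3],
      [(0, 0, []), (4, 0, []), (6, 5, [2])]⟩,
    ⟨[(0, 1), (1, 2)], [(0, 1), (1, 0), (1, 1)], [(1, 1)], [4], [(1, 1, []), (2, 1, [])]⟩,
    ⟨[(0, 2), (1, 2)], [(1, 0), (2, 0), (2, 2), (2, 5)], [(0, 2)], [3], [(4, 0, []), (8, 2,
      [5])]⟩,
    ⟨[(1, 3)], [(1, 1), (3, 1), (3, 2), (4, 2)], [(1, 2)], [4], [(2, 1, []), (8, 2, [5])]⟩]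
  Ta := [((0, 1), 0, 1), ((0, 6), 0, 5), ((1, 0), 1, 0), ((1, 7), 1, 4), ((2, 3), 1, 6), ((2, 8),
    1, 2), ((4, 3), 0, 6), ((4, 8), 0, 2)]
  Tb := [((0, 1, 6), 0, 1, 5), ((1, 0, 7), 1, 0, 4), ((2, 3, 8), 1, 6, 2), ((3, 2, 4), 6, 1, 0),
    ((4, 3, 8), 0, 6, 2), ((5, 6, 8), 3, 5, 2), ((6, 0, 5), 5, 0, 3), ((7, 1, 8), 4, 1, 2),
    ((8, 2, 4), 2, 1, 0), ((8, 2, 5), 2, 1, 3), ((8, 2, 7), 2, 1, 4), ((8, 4, 5), 2, 0, 3),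
    ((8, 4, 7), 2, 0, 4), ((8, 5, 7), 2, 3, 4)]
  Tc := []
  Td := [((2, 5), (8, 2), 1), ((2, 5), (8, 4), 0), ((2, 5), (8, 5), 3), ((2, 5), (8, 7), 4), ((5,
    2), (6, 0), 0), ((5, 2), (6, 5), 3)]
  G := [[0, 0x1421121118ce1428411aa1824146e4, 0, 0, 0x12a21ac324618822c81c], [0, 0, 0,
    0x88c44cc218, 0x92488a11ac924e18], [0, 0, 0x442454cca14cca61a21a681a21acc, 0,
    0x88a21a5324628a11a98222c6c9248a848c9], [0, 0, 0xcc61c41cc818cc212cca1c216c3,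
    0x11c44cc288c14c92c1, 0x88a11a59246996488a11a982129ec924889]]

noncomputable def n1477 : Ent := ⟨e1477, noF, [], [], []⟩

def c1477 : PLift (Cov.check n1477.C.D v1477 = true) := ⟨by decide +kernel⟩

def b1477 : PLift (entF (fidx ts) 400 1477 n1477 = true) := ⟨by decide +kernel⟩

theorem g1477 : GoodF (fidx ts) 400 1477 := GoodF.ofV v1477 n1477 c1477.down b1477.down

/-- 477544:1206 -/
noncomputable def e1478 : SCfg where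
  D := {
    a := 6
    L := 10
    kp := 7
    inn := [(0, 1), (0, 2), (1, 0), (1, 2), (1, 3), (2, 0), (2, 1), (2, 4), (3, 1), (3, 5), (4, 2), (5,
      3)]
    mix := [(0, 0), (0, 1), (1, 1), (1, 2), (1, 3), (1, 4), (2, 0), (2, 4), (2, 5), (2, 6), (3, 1), (3,
      2), (3, 7), (4, 4), (4, 5), (4, 8), (5, 2), (5, 7), (5, 9)]
    cl := [0, 1, 1, 6, 0, 3, 4, 2, 5, 7]
    chq := [(4, 5), (5, 4)]
    rng := [(0, 1), (0, 6), (1, 0), (1, 7), (2, 3), (2, 9), (3, 2), (3, 4), (4, 3), (4, 8), (5, 6), (5,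
      8), (6, 0), (6, 5), (7, 1), (7, 9), (8, 4), (8, 5), (9, 2), (9, 7)]
    lev := [] }
  links := [[1, 2, 6, 7], [2, 0, 7, 3, 8, 9, 10], [6, 0, 1, 10, 4, 11, 12], [8, 1, 7, 13, 5], [11, 2, 10,
    14], [8, 3, 13, 15]]
  P := {
    a := 6
    N := 16
    nb := [198, 1933, 7251, 8610, 19460, 41224, 4229, 8267, 33322, 1282, 16918, 20500, 2116, 32936,
      3088, 8480]
    tri := [(0, 1, 2), (0, 1, 7), (0, 2, 6), (0, 6, 7), (1, 2, 10), (1, 3, 7), (1, 3, 8), (1, 8, 9),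
      (1, 9, 10), (2, 4, 10), (2, 4, 11), (2, 6, 12), (2, 11, 12), (3, 5, 8), (3, 5, 13), (3, 7,
      13), (4, 10, 14), (4, 11, 14), (5, 8, 15), (5, 13, 15)]
    fin := [0, 0, 2, 3, 2, 3, 0, 3, 3, 9, 0, 11, 12, 13, 2, 15]
    chd := [(12, 2)]
    steps := [(0, 1), (0, 6), (0, 10), (2, 4), (2, 14), (3, 5), (3, 7), (3, 8)] }
  rep := [0, 3, 13, 11, 12, 2, 9, 15]

noncomputable def v1478 : Cov.CovD where
  P := 3
  N := 5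
  pl := [3, 5, 7, 9]
  lev := [⟨[], [], [(0, 1)], [], [(0, 0, []), (1, 1, [])]⟩,
    ⟨[], [(0, 0), (0, 1)], [(0, 1), (1, 1)], [6], [(1, 1, []), (2, 1, []), (4, 0, [])]⟩,
    ⟨[(0, 1)], [(0, 0), (0, 1), (0, 4), (1, 0), (1, 1), (1, 4)], [(0, 0), (0, 4)], [3],
      [(0, 0, []), (4, 0, []), (6, 4, [5])]⟩,
    ⟨[(0, 1), (1, 2)], [(0, 1), (1, 0), (1, 1)], [(1, 1)], [2], [(1, 1, []), (2, 1, [])]⟩,
    ⟨[(0, 2), (1, 2)], [(1, 0), (2, 0), (2, 4), (2, 5)], [(0, 5)], [3], [(4, 0, []), (8, 5,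
      [4])]⟩,
    ⟨[(1, 3)], [(1, 1), (3, 1)], [], [2, 7], [(2, 1, [])]⟩]
  Ta := [((0, 1), 0, 1), ((0, 6), 0, 4), ((1, 0), 1, 0), ((1, 7), 1, 2), ((2, 3), 1, 6), ((2, 9),
    1, 7), ((4, 3), 0, 6), ((4, 8), 0, 5)]
  Tb := [((0, 1, 6), 0, 1, 4), ((1, 0, 7), 1, 0, 2), ((2, 3, 9), 1, 6, 7), ((3, 2, 4), 6, 1, 0),
    ((4, 3, 8), 0, 6, 5), ((5, 6, 8), 3, 4, 5), ((6, 0, 5), 4, 0, 3), ((7, 1, 9), 2, 1, 7),
    ((8, 4, 5), 5, 0, 3), ((9, 2, 7), 7, 1, 2)]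
  Tc := []
  Td := [((4, 5), (6, 0), 0), ((4, 5), (6, 5), 3), ((5, 4), (8, 4), 0), ((5, 4), (8, 5), 3)]
  G := [[0, 0x11641181198e11581194114ea4, 0x226822a422c8e14, 0x956495a4c5c4e14,
    0x226822a822c8e14], [0, 0, 0xcc64cca4ccc4e18, 0, 0x996899a899c8e18], [0, 0,
    0x226422a422c4e226822a822c8ec1, 0x5c6455a8c9c4ec568cca19cc1ec1,
    0x226122a122c1e226122a822c1ec1], [0, 0, 0xcc64cca4ccc4ecc68cca8ccc8ec1, 0,
    0x99a199c16996899a899c1ec9961889]]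

noncomputable def n1478 : Ent := ⟨e1478, noF, [], [], [(15, 14, [385746751338780685620664494392815470296102193487288376378544129, 0])]⟩

def c1478 : PLift (Cov.check n1478.C.D v1478 = true) := ⟨by decide +kernel⟩

def b1478 : PLift (entF (fidx ts) 400 1478 n1478 = true) := ⟨by decide +kernel⟩

theorem g1478 : GoodF (fidx ts) 400 1478 := GoodF.ofV v1478 n1478 c1478.down b1478.down

/-- 477744:1208/1 -/
noncomputable def e1479 : SCfg where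
  D := {
    a := 6
    L := 10
    kp := 7
    inn := [(0, 1), (0, 2), (0, 3), (1, 0), (1, 2), (1, 4), (2, 0), (2, 1), (2, 3), (3, 0), (3, 2), (3,
      5), (4, 1), (5, 3)]
    mix := [(0, 0), (1, 0), (1, 1), (1, 2), (1, 3), (2, 3), (2, 4), (2, 5), (2, 6), (3, 0), (3, 6), (3,
      7), (3, 8), (4, 1), (4, 2), (4, 9), (5, 6), (5, 7), (5, 9)]
    cl := [0, 1, 2, 1, 6, 7, 3, 4, 3, 5]
    chq := [(0, 6), (0, 7), (6, 0), (7, 0)]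
    rng := [(0, 1), (0, 8), (1, 0), (1, 9), (2, 3), (2, 9), (3, 2), (3, 4), (4, 3), (4, 5), (5, 4), (5,
      6), (6, 5), (6, 9), (7, 8), (7, 9), (8, 0), (8, 7), (9, 1), (9, 2), (9, 6), (9, 7)]
    lev := [] }
  links := [[1, 2, 3, 6], [2, 0, 6, 7, 4, 8, 9], [3, 0, 1, 9, 10, 11, 12], [6, 0, 2, 12, 5, 13, 14], [8,
    1, 7, 15], [13, 3, 12, 15]]
  P := {
    a := 6
    N := 16
    nb := [78, 981, 7691, 28773, 33154, 45064, 16523, 32850, 33298, 1286, 2564, 5124, 34860, 49192,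
      8264, 12720]
    tri := [(0, 1, 2), (0, 1, 6), (0, 2, 3), (0, 3, 6), (1, 2, 9), (1, 4, 7), (1, 4, 8), (1, 6, 7), (1,
      8, 9), (2, 3, 12), (2, 9, 10), (2, 10, 11), (2, 11, 12), (3, 5, 12), (3, 5, 13), (3, 6, 14),
      (3, 13, 14), (4, 7, 15), (4, 8, 15), (5, 12, 15), (5, 13, 15)]
    fin := [0, 1, 0, 3, 1, 5, 0, 1, 8, 1, 10, 11, 3, 13, 3, 5]
    chd := [(0, 10), (0, 11)]
    steps := [(0, 2), (0, 6), (1, 4), (1, 7), (1, 9), (3, 12), (3, 14), (5, 15)] }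
  rep := [0, 1, 8, 3, 13, 5, 10, 11]

noncomputable def v1479 : Cov.CovD where
  P := 3
  N := 5
  pl := [2, 7, 9]
  lev := [⟨[], [], [], [], [(0, 0, [6, 7])]⟩,
    ⟨[], [(0, 0), (0, 1)], [(0, 1), (1, 1)], [2], [(0, 0, [6, 7]), (1, 1, []), (3, 1, [])]⟩,
    ⟨[(0, 1)], [(0, 0), (0, 1), (0, 3), (0, 6), (0, 7), (1, 0), (1, 1), (1, 3), (1, 6), (1,
      7)], [(1, 3), (1, 6), (1, 7), (3, 6), (3, 7), (6, 7)], [], [(3, 1, []), (4, 6, [0]),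
      (5, 7, [0]), (6, 3, [])]⟩,
    ⟨[(0, 1), (0, 2), (1, 2)], [(0, 0), (0, 3), (1, 0), (2, 0), (2, 1), (2, 3), (2, 6), (2,
      7)], [(0, 3), (3, 3)], [4], [(0, 0, [6, 7]), (6, 3, []), (8, 3, [])]⟩,
    ⟨[(0, 1), (1, 2)], [(1, 0), (1, 1)], [], [2, 5], [(1, 1, [])]⟩,
    ⟨[(0, 3), (2, 3)], [(2, 3), (3, 0), (3, 3)], [], [4, 5], [(6, 3, [])]⟩]
  Ta := [((1, 0), 1, 0), ((1, 9), 1, 5), ((3, 2), 1, 2), ((3, 4), 1, 6), ((6, 5), 3, 7), ((6, 9),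
    3, 5), ((8, 0), 3, 0), ((8, 7), 3, 4)]
  Tb := [((0, 1, 8), 0, 1, 3), ((1, 0, 9), 1, 0, 5), ((2, 3, 9), 2, 1, 5), ((3, 2, 4), 1, 2, 6),
    ((4, 3, 5), 6, 1, 7), ((5, 4, 6), 7, 6, 3), ((6, 5, 9), 3, 7, 5), ((7, 8, 9), 4, 3, 5),
    ((8, 0, 7), 3, 0, 4), ((9, 1, 2), 5, 1, 2), ((9, 1, 6), 5, 1, 3), ((9, 1, 7), 5, 1, 4),
    ((9, 2, 6), 5, 2, 3), ((9, 2, 7), 5, 2, 4), ((9, 6, 7), 5, 3, 4)]
  Tc := [(0, 6, 7)]
  Td := [((0, 6), (0, 1), 1), ((0, 6), (0, 8), 3), ((0, 7), (0, 1), 1), ((0, 7), (0, 8), 3), ((6,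
    0), (4, 3), 1), ((6, 0), (4, 5), 7), ((7, 0), (5, 4), 6), ((7, 0), (5, 6), 3)]
  G := [[0, 0x83c34c11ce182, 0x81c32ca1814c4146, 0, 0x239218819549c186], [0, 0x15ca2c21ce184,
    0x86c34cc1ce142, 0, 0x869a29c49e184], [0, 0, 0x5241881a22a14c, 0x415418819229a14c,
    0x522261892818a], [0, 0, 0xa222616281c8, 0x83c34c84ce182, 0x22218e252c186]]

noncomputable def n1479 : Ent := ⟨e1479, noF, [], [], []⟩

def c1479 : PLift (Cov.check n1479.C.D v1479 = true) := ⟨by decide +kernel⟩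

def b1479 : PLift (entF (fidx ts) 400 1479 n1479 = true) := ⟨by decide +kernel⟩

theorem g1479 : GoodF (fidx ts) 400 1479 := GoodF.ofV v1479 n1479 c1479.down b1479.down

/-- 477744:1208/2 -/
noncomputable def e1480 : SCfg where
  D := {
    a := 6
    L := 10
    kp := 7
    inn := [(0, 1), (0, 2), (0, 3), (1, 0), (1, 2), (1, 4), (2, 0), (2, 1), (2, 3), (3, 0), (3, 2), (3,
      5), (4, 1), (5, 3)]
    mix := [(0, 0), (1, 0), (1, 1), (1, 2), (1, 3), (2, 3), (2, 4), (2, 5), (2, 6), (3, 0), (3, 6), (3,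
      7), (3, 8), (4, 1), (4, 2), (4, 7), (5, 6), (5, 7), (5, 9)]
    cl := [0, 1, 2, 1, 5, 6, 3, 4, 3, 7]
    chq := [(0, 5), (0, 6), (5, 0), (6, 0)]
    rng := [(0, 1), (0, 8), (1, 0), (1, 7), (2, 3), (2, 7), (3, 2), (3, 4), (4, 3), (4, 5), (5, 4), (5,
      6), (6, 5), (6, 9), (7, 1), (7, 2), (7, 8), (7, 9), (8, 0), (8, 7), (9, 6), (9, 7)]
    lev := [] }
  links := [[1, 2, 3, 6], [2, 0, 6, 7, 4, 8, 9], [3, 0, 1, 9, 10, 11, 12], [6, 0, 2, 12, 5, 13, 14], [8,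
    1, 7, 13], [13, 3, 12, 15]]
  P := {
    a := 6
    N := 16
    nb := [78, 981, 7691, 28773, 8578, 45064, 16523, 8274, 8722, 1286, 2564, 5124, 34860, 49592, 8264,
      12320]
    tri := [(0, 1, 2), (0, 1, 6), (0, 2, 3), (0, 3, 6), (1, 2, 9), (1, 4, 7), (1, 4, 8), (1, 6, 7), (1,
      8, 9), (2, 3, 12), (2, 9, 10), (2, 10, 11), (2, 11, 12), (3, 5, 12), (3, 5, 13), (3, 6, 14),
      (3, 13, 14), (4, 7, 13), (4, 8, 13), (5, 12, 15), (5, 13, 15)]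
    fin := [0, 1, 0, 3, 1, 5, 0, 1, 8, 1, 10, 11, 3, 5, 3, 15]
    chd := [(0, 10), (0, 11)]
    steps := [(0, 2), (0, 6), (1, 4), (1, 7), (1, 9), (3, 12), (3, 14), (5, 13)] }
  rep := [0, 1, 8, 3, 5, 10, 11, 15]

noncomputable def v1480 : Cov.CovD where
  P := 3
  N := 5
  pl := [2, 7, 9]
  lev := [⟨[], [], [], [], [(0, 0, [5, 6])]⟩,
    ⟨[], [(0, 0), (0, 1)], [(0, 1), (1, 1)], [2], [(0, 0, [5, 6]), (1, 1, []), (3, 1, [])]⟩,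
    ⟨[(0, 1)], [(0, 0), (0, 1), (0, 3), (0, 5), (0, 6), (1, 0), (1, 1), (1, 3), (1, 5), (1,
      6)], [(1, 3), (1, 5), (1, 6), (3, 5), (3, 6), (5, 6)], [], [(3, 1, []), (4, 5, [0]),
      (5, 6, [0]), (6, 3, [])]⟩,
    ⟨[(0, 1), (0, 2), (1, 2)], [(0, 0), (0, 3), (1, 0), (2, 0), (2, 1), (2, 3), (2, 5), (2,
      6)], [(0, 3), (3, 3)], [4], [(0, 0, [5, 6]), (6, 3, []), (8, 3, [])]⟩,
    ⟨[(0, 1), (1, 2)], [(1, 0), (1, 1)], [], [2, 4], [(1, 1, [])]⟩,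
    ⟨[(0, 3), (2, 3)], [(2, 3), (3, 0), (3, 3)], [], [4, 7], [(6, 3, [])]⟩]
  Ta := [((1, 0), 1, 0), ((1, 7), 1, 4), ((3, 2), 1, 2), ((3, 4), 1, 5), ((6, 5), 3, 6), ((6, 9),
    3, 7), ((8, 0), 3, 0), ((8, 7), 3, 4)]
  Tb := [((0, 1, 8), 0, 1, 3), ((1, 0, 7), 1, 0, 4), ((2, 3, 7), 2, 1, 4), ((3, 2, 4), 1, 2, 5),
    ((4, 3, 5), 5, 1, 6), ((5, 4, 6), 6, 5, 3), ((6, 5, 9), 3, 6, 7), ((7, 1, 2), 4, 1, 2),
    ((7, 1, 8), 4, 1, 3), ((7, 1, 9), 4, 1, 7), ((7, 2, 8), 4, 2, 3), ((7, 2, 9), 4, 2, 7),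
    ((7, 8, 9), 4, 3, 7), ((8, 0, 7), 3, 0, 4), ((9, 6, 7), 7, 3, 4)]
  Tc := [(0, 5, 6)]
  Td := [((0, 5), (0, 1), 1), ((0, 5), (0, 8), 3), ((0, 6), (0, 1), 1), ((0, 6), (0, 8), 3), ((5,
    0), (4, 3), 1), ((5, 0), (4, 5), 6), ((6, 0), (5, 4), 5), ((6, 0), (5, 6), 3)]
  G := [[0, 0x44418981433ce18c, 0x185433ce1488818a, 0, 0x5131618b868c18a], [0, 0x685484ce148,
    0x68a484ce184, 0, 0x68a1849e184], [0, 0, 0x523261498814a, 0x5441498239a14c,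
    0x9232a18524186], [0, 0, 0xa82472e184, 0x212484ce184, 0x2222849e182]]

noncomputable def n1480 : Ent := ⟨e1480, noF, [], [], []⟩

def c1480 : PLift (Cov.check n1480.C.D v1480 = true) := ⟨by decide +kernel⟩

def b1480 : PLift (entF (fidx ts) 400 1480 n1480 = true) := ⟨by decide +kernel⟩

theorem g1480 : GoodF (fidx ts) 400 1480 := GoodF.ofV v1480 n1480 c1480.down b1480.down

/-- 477744:1208 -/
noncomputable def e1481 : SCfg where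
  D := {
    a := 6
    L := 11
    kp := 8
    inn := [(0, 1), (0, 2), (0, 3), (1, 0), (1, 2), (1, 4), (2, 0), (2, 1), (2, 3), (3, 0), (3, 2), (3,
      5), (4, 1), (5, 3)]
    mix := [(0, 0), (1, 0), (1, 1), (1, 2), (1, 3), (2, 3), (2, 4), (2, 5), (2, 6), (3, 0), (3, 6), (3,
      7), (3, 8), (4, 1), (4, 2), (4, 9), (5, 6), (5, 7), (5, 10)]
    cl := [0, 1, 2, 1, 5, 6, 3, 4, 3, 7, 8]
    chq := [(0, 5), (0, 6), (5, 0), (6, 0)]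
    rng := [(0, 1), (0, 8), (1, 0), (1, 9), (2, 3), (2, 9), (3, 2), (3, 4), (4, 3), (4, 5), (5, 4), (5,
      6), (6, 5), (6, 10), (7, 8), (7, 10), (8, 0), (8, 7), (9, 1), (9, 2), (10, 6), (10, 7)]
    lev := [] }
  links := [[1, 2, 3, 6], [2, 0, 6, 7, 4, 8, 9], [3, 0, 1, 9, 10, 11, 12], [6, 0, 2, 12, 5, 13, 14], [8,
    1, 7, 15], [13, 3, 12, 16]]
  P := {
    a := 6
    N := 17
    nb := [78, 981, 7691, 28773, 33154, 77832, 16523, 32850, 33298, 1286, 2564, 5124, 67628, 81960,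
      8264, 400, 12320]
    tri := [(0, 1, 2), (0, 1, 6), (0, 2, 3), (0, 3, 6), (1, 2, 9), (1, 4, 7), (1, 4, 8), (1, 6, 7), (1,
      8, 9), (2, 3, 12), (2, 9, 10), (2, 10, 11), (2, 11, 12), (3, 5, 12), (3, 5, 13), (3, 6, 14),
      (3, 13, 14), (4, 7, 15), (4, 8, 15), (5, 12, 16), (5, 13, 16)]
    fin := [0, 1, 0, 3, 1, 3, 0, 1, 8, 1, 10, 11, 3, 13, 3, 15, 16]
    chd := [(0, 10), (0, 11)]
    steps := [(0, 2), (0, 6), (1, 4), (1, 7), (1, 9), (3, 5), (3, 12), (3, 14)] }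
  rep := [0, 1, 8, 3, 13, 10, 11, 15, 16]

noncomputable def v1481 : Cov.CovD where
  P := 3
  N := 6
  pl := [2, 7, 9, 10]
  lev := [⟨[], [], [], [], [(0, 0, [5, 6])]⟩,
    ⟨[], [(0, 0), (0, 1)], [(0, 1), (1, 1)], [2], [(0, 0, [5, 6]), (1, 1, []), (3, 1, [])]⟩,
    ⟨[(0, 1)], [(0, 0), (0, 1), (0, 3), (0, 5), (0, 6), (1, 0), (1, 1), (1, 3), (1, 5), (1,
      6)], [(1, 3), (1, 5), (1, 6), (3, 5), (3, 6), (5, 6)], [], [(3, 1, []), (4, 5, [0]),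
      (5, 6, [0]), (6, 3, [])]⟩,
    ⟨[(0, 1), (0, 2), (1, 2)], [(0, 0), (0, 3), (1, 0), (2, 0), (2, 1), (2, 3), (2, 5), (2,
      6)], [(0, 3), (3, 3)], [4], [(0, 0, [5, 6]), (6, 3, []), (8, 3, [])]⟩,
    ⟨[(0, 1), (1, 2)], [(1, 0), (1, 1)], [], [2, 7], [(1, 1, [])]⟩,
    ⟨[(0, 3), (2, 3)], [(2, 3), (3, 0), (3, 3)], [], [4, 8], [(6, 3, [])]⟩]
  Ta := [((1, 0), 1, 0), ((1, 9), 1, 7), ((3, 2), 1, 2), ((3, 4), 1, 5), ((6, 5), 3, 6), ((6,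
    10), 3, 8), ((8, 0), 3, 0), ((8, 7), 3, 4)]
  Tb := [((0, 1, 8), 0, 1, 3), ((1, 0, 9), 1, 0, 7), ((2, 3, 9), 2, 1, 7), ((3, 2, 4), 1, 2, 5),
    ((4, 3, 5), 5, 1, 6), ((5, 4, 6), 6, 5, 3), ((6, 5, 10), 3, 6, 8), ((7, 8, 10), 4, 3, 8),
    ((8, 0, 7), 3, 0, 4), ((9, 1, 2), 7, 1, 2), ((10, 6, 7), 8, 3, 4)]
  Tc := [(0, 5, 6)]
  Td := [((0, 5), (0, 1), 1), ((0, 5), (0, 8), 3), ((0, 6), (0, 1), 1), ((0, 6), (0, 8), 3), ((5,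
    0), (4, 3), 1), ((5, 0), (4, 5), 6), ((6, 0), (5, 4), 5), ((6, 0), (5, 6), 3)]
  G := [[0, 0x33c21899c55cc146, 0x33c21499c55cc18a, 0, 0x99911339e185494186], [0,
    0x99c55cccce142, 0x6bcaecccce182, 0, 0xbe9e79cc9e182], [0, 0, 0x523261892814a,
    0x559335614999818c, 0x524189232a18c], [0, 0, 0x62a2c2e142, 0x665de9cbce148,
    0x62a2c2e184]]

noncomputable def n1481 : Ent := ⟨e1481, noF, [], [], [(15, 16, [1580044410770988437309982408355971841652082177953823432505695170561, 0]), (15, 13, [1685356714993749094781261963711221120386310105559083432688075177985, 0])]⟩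

def c1481 : PLift (Cov.check n1481.C.D v1481 = true) := ⟨by decide +kernel⟩

def b1481 : PLift (entF (fidx ts) 400 1481 n1481 = true) := ⟨by decide +kernel⟩

theorem g1481 : GoodF (fidx ts) 400 1481 := GoodF.ofV v1481 n1481 c1481.down b1481.down

/-- 477544:1212/1 -/
noncomputable def e1482 : SCfg where
  D := {
    a := 6
    L := 9
    kp := 6
    inn := [(0, 1), (0, 2), (1, 0), (1, 2), (1, 3), (2, 0), (2, 1), (2, 4), (3, 1), (3, 5), (4, 2), (5,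
      3)]
    mix := [(0, 0), (0, 1), (1, 1), (1, 2), (1, 3), (1, 4), (2, 0), (2, 4), (2, 5), (2, 6), (3, 1), (3,
      2), (3, 7), (4, 5), (4, 6), (4, 7), (5, 2), (5, 7), (5, 8)]
    cl := [1, 0, 0, 5, 1, 3, 4, 2, 6]
    chq := [(1, 2), (2, 1)]
    rng := [(0, 1), (0, 6), (1, 0), (1, 7), (2, 3), (2, 8), (3, 2), (3, 4), (4, 3), (4, 5), (5, 4), (5,
      7), (6, 0), (6, 7), (7, 1), (7, 5), (7, 6), (7, 8), (8, 2), (8, 7)]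
    lev := [] }
  links := [[1, 2, 6, 7], [2, 0, 7, 3, 8, 9, 10], [6, 0, 1, 10, 11, 4, 12], [8, 1, 7, 13, 5], [12, 2, 11,
    13], [8, 3, 13, 14]]
  P := {
    a := 6
    N := 15
    nb := [198, 1933, 7251, 8610, 14340, 24840, 4229, 8267, 16938, 1282, 2566, 9236, 8276, 22712,
      8480]
    tri := [(0, 1, 2), (0, 1, 7), (0, 2, 6), (0, 6, 7), (1, 2, 10), (1, 3, 7), (1, 3, 8), (1, 8, 9),
      (1, 9, 10), (2, 4, 11), (2, 4, 12), (2, 6, 12), (2, 10, 11), (3, 5, 8), (3, 5, 13), (3, 7,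
      13), (4, 11, 13), (4, 12, 13), (5, 8, 14), (5, 13, 14)]
    fin := [0, 0, 0, 3, 0, 3, 0, 3, 3, 9, 0, 11, 12, 13, 14]
    chd := [(0, 13)]
    steps := [(0, 1), (0, 2), (0, 4), (0, 6), (0, 10), (3, 5), (3, 7), (3, 8)] }
  rep := [3, 0, 13, 11, 12, 9, 14]

noncomputable def v1482 : Cov.CovD where
  P := 3
  N := 4
  pl := [3, 5, 6, 8]
  lev := [⟨[], [], [(0, 1)], [], [(0, 1, [2]), (1, 0, [])]⟩,
    ⟨[], [(0, 0), (0, 1)], [(0, 0), (0, 1)], [5], [(1, 0, []), (2, 0, []), (4, 1, [2])]⟩,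
    ⟨[(0, 1)], [(0, 0), (0, 1), (1, 0), (1, 1)], [(1, 1)], [3, 4], [(0, 1, [2]), (4, 1,
      [2])]⟩,
    ⟨[(0, 1), (1, 2)], [(0, 0), (1, 0), (1, 1), (1, 2)], [(0, 0), (0, 2)], [], [(1, 0, []),
      (2, 0, []), (7, 2, [1])]⟩,
    ⟨[(0, 2), (1, 2)], [(2, 1), (2, 2), (3, 2)], [], [3, 4], [(7, 2, [1])]⟩,
    ⟨[(1, 3)], [(1, 0), (3, 0), (3, 2), (4, 2)], [(0, 2)], [6], [(2, 0, []), (7, 2, [1])]⟩]
  Ta := [((0, 1), 1, 0), ((0, 6), 1, 4), ((1, 0), 0, 1), ((1, 7), 0, 2), ((2, 3), 0, 5), ((2, 8),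
    0, 6), ((4, 3), 1, 5), ((4, 5), 1, 3)]
  Tb := [((0, 1, 6), 1, 0, 4), ((1, 0, 7), 0, 1, 2), ((2, 3, 8), 0, 5, 6), ((3, 2, 4), 5, 0, 1),
    ((4, 3, 5), 1, 5, 3), ((5, 4, 7), 3, 1, 2), ((6, 0, 7), 4, 1, 2), ((7, 1, 5), 2, 0, 3),
    ((7, 1, 6), 2, 0, 4), ((7, 1, 8), 2, 0, 6), ((7, 5, 6), 2, 3, 4), ((7, 5, 8), 2, 3, 6),
    ((7, 6, 8), 2, 4, 6), ((8, 2, 7), 6, 0, 2)]
  Tc := []
  Td := [((1, 2), (0, 1), 0), ((1, 2), (0, 6), 4), ((1, 2), (4, 3), 5), ((1, 2), (4, 5), 3), ((2,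
    1), (7, 1), 0), ((2, 1), (7, 5), 3), ((2, 1), (7, 6), 4), ((2, 1), (7, 8), 6)]
  G := [[0, 0x114118114e114114114ea4, 0xac6e8124, 0x128128114d28, 0x188128118d24], [0, 0,
    0xaace416cce81c2, 0x188128124d24, 0x12211a2112d188122112dc2], [0, 0, 0, 0x2444228821892c,
    0xa88a28a18d24], [0, 0, 0, 0x21412288244c25, 0xa22aaa2a12da88a22a12dc2]]

noncomputable def n1482 : Ent := ⟨e1482, noF, [], [], []⟩

def c1482 : PLift (Cov.check n1482.C.D v1482 = true) := ⟨by decide +kernel⟩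

def b1482 : PLift (entF (fidx ts) 400 1482 n1482 = true) := ⟨by decide +kernel⟩

theorem g1482 : GoodF (fidx ts) 400 1482 := GoodF.ofV v1482 n1482 c1482.down b1482.down

/-- 477544:1212/2 -/
noncomputable def e1483 : SCfg where
  D := {
    a := 6
    L := 9
    kp := 6
    inn := [(0, 1), (0, 2), (1, 0), (1, 2), (1, 3), (2, 0), (2, 1), (2, 4), (3, 1), (3, 5), (4, 2), (5,
      3)]
    mix := [(0, 0), (0, 1), (1, 1), (1, 2), (1, 3), (1, 4), (2, 0), (2, 4), (2, 5), (2, 6), (3, 1), (3,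
      2), (3, 7), (4, 5), (4, 6), (4, 8), (5, 2), (5, 7), (5, 8)]
    cl := [1, 0, 0, 6, 1, 4, 2, 5, 3]
    chq := [(1, 3), (3, 1)]
    rng := [(0, 1), (0, 6), (1, 0), (1, 7), (2, 3), (2, 8), (3, 2), (3, 4), (4, 3), (4, 5), (5, 4), (5,
      8), (6, 0), (6, 8), (7, 1), (7, 8), (8, 2), (8, 5), (8, 6), (8, 7)]
    lev := [] }
  links := [[1, 2, 6, 7], [2, 0, 7, 3, 8, 9, 10], [6, 0, 1, 10, 11, 4, 12], [8, 1, 7, 13, 5], [12, 2, 11,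
    14], [8, 3, 13, 14]]
  P := {
    a := 6
    N := 15
    nb := [198, 1933, 7251, 8610, 22532, 24840, 4229, 8267, 16938, 1282, 2566, 17428, 16468, 16552,
      14640]
    tri := [(0, 1, 2), (0, 1, 7), (0, 2, 6), (0, 6, 7), (1, 2, 10), (1, 3, 7), (1, 3, 8), (1, 8, 9),
      (1, 9, 10), (2, 4, 11), (2, 4, 12), (2, 6, 12), (2, 10, 11), (3, 5, 8), (3, 5, 13), (3, 7,
      13), (4, 11, 14), (4, 12, 14), (5, 8, 14), (5, 13, 14)]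
    fin := [0, 0, 0, 3, 0, 3, 0, 3, 3, 9, 0, 11, 12, 13, 14]
    chd := [(0, 14)]
    steps := [(0, 1), (0, 2), (0, 4), (0, 6), (0, 10), (3, 5), (3, 7), (3, 8)] }
  rep := [3, 0, 12, 14, 11, 13, 9]

noncomputable def v1483 : Cov.CovD where
  P := 3
  N := 4
  pl := [3, 5, 6, 7]
  lev := [⟨[], [], [(0, 1)], [], [(0, 1, [3]), (1, 0, [])]⟩,
    ⟨[], [(0, 0), (0, 1)], [(0, 0), (0, 1)], [6], [(1, 0, []), (2, 0, []), (4, 1, [3])]⟩,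
    ⟨[(0, 1)], [(0, 0), (0, 1), (1, 0), (1, 1)], [(1, 1)], [2, 4], [(0, 1, [3]), (4, 1,
      [3])]⟩,
    ⟨[(0, 1), (1, 2)], [(0, 0), (1, 0), (1, 1)], [(0, 0)], [5], [(1, 0, []), (2, 0, [])]⟩,
    ⟨[(0, 2), (1, 2)], [(2, 1), (2, 3)], [], [2, 4], [(8, 3, [1])]⟩,
    ⟨[(1, 3)], [(1, 0), (3, 0), (3, 3), (4, 3)], [(0, 3)], [5], [(2, 0, []), (8, 3, [1])]⟩]
  Ta := [((0, 1), 1, 0), ((0, 6), 1, 2), ((1, 0), 0, 1), ((1, 7), 0, 5), ((2, 3), 0, 6), ((2, 8),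
    0, 3), ((4, 3), 1, 6), ((4, 5), 1, 4)]
  Tb := [((0, 1, 6), 1, 0, 2), ((1, 0, 7), 0, 1, 5), ((2, 3, 8), 0, 6, 3), ((3, 2, 4), 6, 0, 1),
    ((4, 3, 5), 1, 6, 4), ((5, 4, 8), 4, 1, 3), ((6, 0, 8), 2, 1, 3), ((7, 1, 8), 5, 0, 3),
    ((8, 2, 5), 3, 0, 4), ((8, 2, 6), 3, 0, 2), ((8, 2, 7), 3, 0, 5), ((8, 5, 6), 3, 4, 2),
    ((8, 5, 7), 3, 4, 5), ((8, 6, 7), 3, 2, 5)]
  Tc := []
  Td := [((1, 3), (0, 1), 0), ((1, 3), (0, 6), 2), ((1, 3), (4, 3), 6), ((1, 3), (4, 5), 4), ((3,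
    1), (8, 2), 0), ((3, 1), (8, 5), 4), ((3, 1), (8, 6), 2), ((3, 1), (8, 7), 5)]
  G := [[0, 0x112114c118112c114118ce2, 0x1262ca212cc28, 0x82c14cc1121c924, 0xa212c1121c924], [0,
    0, 0x121a6621a142ecc811e122ea1262acc2, 0, 0x12a265131a91262a1161a9c4], [0, 0,
    0xa262ca262cc24, 0x285425c42829249c829, 0xa262ca262c924], [0, 0,
    0xc22a66848e2aa6c4e628246e8ca62acc1, 0, 0xc2a2644cb282b6984a42aa843263a9c2]]

noncomputable def n1483 : Ent := ⟨e1483, noF, [], [], []⟩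

def c1483 : PLift (Cov.check n1483.C.D v1483 = true) := ⟨by decide +kernel⟩

def b1483 : PLift (entF (fidx ts) 400 1483 n1483 = true) := ⟨by decide +kernel⟩

theorem g1483 : GoodF (fidx ts) 400 1483 := GoodF.ofV v1483 n1483 c1483.down b1483.down

/-- 477544:1212 -/
noncomputable def e1484 : SCfg where
  D := {
    a := 6
    L := 10
    kp := 7
    inn := [(0, 1), (0, 2), (1, 0), (1, 2), (1, 3), (2, 0), (2, 1), (2, 4), (3, 1), (3, 5), (4, 2), (5,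
      3)]
    mix := [(0, 0), (0, 1), (1, 1), (1, 2), (1, 3), (1, 4), (2, 0), (2, 4), (2, 5), (2, 6), (3, 1), (3,
      2), (3, 7), (4, 5), (4, 6), (4, 8), (5, 2), (5, 7), (5, 9)]
    cl := [1, 0, 0, 6, 1, 3, 2, 4, 5, 7]
    chq := [(1, 5), (5, 1)]
    rng := [(0, 1), (0, 6), (1, 0), (1, 7), (2, 3), (2, 9), (3, 2), (3, 4), (4, 3), (4, 5), (5, 4), (5,
      8), (6, 0), (6, 8), (7, 1), (7, 9), (8, 5), (8, 6), (9, 2), (9, 7)]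
    lev := [] }
  links := [[1, 2, 6, 7], [2, 0, 7, 3, 8, 9, 10], [6, 0, 1, 10, 11, 4, 12], [8, 1, 7, 13, 5], [12, 2, 11,
    14], [8, 3, 13, 15]]
  P := {
    a := 6
    N := 16
    nb := [198, 1933, 7251, 8610, 22532, 41224, 4229, 8267, 33322, 1282, 2566, 17428, 16468, 32936,
      6160, 8480]
    tri := [(0, 1, 2), (0, 1, 7), (0, 2, 6), (0, 6, 7), (1, 2, 10), (1, 3, 7), (1, 3, 8), (1, 8, 9),
      (1, 9, 10), (2, 4, 11), (2, 4, 12), (2, 6, 12), (2, 10, 11), (3, 5, 8), (3, 5, 13), (3, 7,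
      13), (4, 11, 14), (4, 12, 14), (5, 8, 15), (5, 13, 15)]
    fin := [0, 0, 0, 3, 0, 3, 0, 3, 3, 9, 0, 11, 12, 13, 14, 15]
    chd := [(0, 14)]
    steps := [(0, 1), (0, 2), (0, 4), (0, 6), (0, 10), (3, 5), (3, 7), (3, 8)] }
  rep := [3, 0, 12, 11, 13, 14, 9, 15]

noncomputable def v1484 : Cov.CovD where
  P := 3
  N := 5
  pl := [3, 5, 6, 7, 9]
  lev := [⟨[], [], [(0, 1)], [], [(0, 1, [5]), (1, 0, [])]⟩,
    ⟨[], [(0, 0), (0, 1)], [(0, 0), (0, 1)], [6], [(1, 0, []), (2, 0, []), (4, 1, [5])]⟩,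
    ⟨[(0, 1)], [(0, 0), (0, 1), (1, 0), (1, 1)], [(1, 1)], [2, 3], [(0, 1, [5]), (4, 1,
      [5])]⟩,
    ⟨[(0, 1), (1, 2)], [(0, 0), (1, 0), (1, 1)], [(0, 0)], [4], [(1, 0, []), (2, 0, [])]⟩,
    ⟨[(0, 2), (1, 2)], [(2, 1), (2, 5)], [], [2, 3], [(8, 5, [1])]⟩,
    ⟨[(1, 3)], [(1, 0), (3, 0)], [], [4, 7], [(2, 0, [])]⟩]
  Ta := [((0, 1), 1, 0), ((0, 6), 1, 2), ((1, 0), 0, 1), ((1, 7), 0, 4), ((2, 3), 0, 6), ((2, 9),
    0, 7), ((4, 3), 1, 6), ((4, 5), 1, 3)]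
  Tb := [((0, 1, 6), 1, 0, 2), ((1, 0, 7), 0, 1, 4), ((2, 3, 9), 0, 6, 7), ((3, 2, 4), 6, 0, 1),
    ((4, 3, 5), 1, 6, 3), ((5, 4, 8), 3, 1, 5), ((6, 0, 8), 2, 1, 5), ((7, 1, 9), 4, 0, 7),
    ((8, 5, 6), 5, 3, 2), ((9, 2, 7), 7, 0, 4)]
  Tc := []
  Td := [((1, 5), (0, 1), 0), ((1, 5), (0, 6), 2), ((1, 5), (4, 3), 6), ((1, 5), (4, 5), 3), ((5,
    1), (8, 5), 3), ((5, 1), (8, 6), 2)]
  G := [[0, 0x1141111ac112811811116ce4, 0x1262ca212cc28, 0xa1c16ccaa5115c924, 0xa212ca212c928],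
    [0, 0, 0x593e355e641b6a16679a15aacc12a2688a, 0, 0x52926cc9b115b699aa31ac9a3313c9c2], [0,
    0, 0xa262ca262cc21, 0xaa9669caa5665cc21, 0xa262ca262c928], [0, 0,
    0xc2a26ccceaaae6ccc6666eacca62acc2, 0, 0xc2aa36cccbaaa69cca66aacc3663a9c4]]

noncomputable def n1484 : Ent := ⟨e1484, noF, [], [], [(13, 14, [385746751338780685620664494392815470296102193487288376378564609, 0]), (15, 14, [385746751338780685620664494392815470296102193487288376378568705, 0])]⟩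

def c1484 : PLift (Cov.check n1484.C.D v1484 = true) := ⟨by decide +kernel⟩

def b1484 : PLift (entF (fidx ts) 400 1484 n1484 = true) := ⟨by decide +kernel⟩

theorem g1484 : GoodF (fidx ts) 400 1484 := GoodF.ofV v1484 n1484 c1484.down b1484.down

/-- 477465:1217/2 -/
noncomputable def e1485 : SCfg where
  D := {
    a := 6
    L := 9
    kp := 6
    inn := [(0, 1), (0, 2), (1, 0), (1, 2), (1, 3), (1, 4), (2, 0), (2, 1), (2, 4), (2, 5), (3, 1), (4,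
      1), (4, 2), (5, 2)]
    mix := [(0, 0), (0, 1), (1, 1), (1, 2), (1, 3), (2, 0), (2, 4), (2, 5), (3, 2), (3, 3), (3, 6), (4,
      3), (4, 4), (4, 7), (4, 8), (5, 4), (5, 5), (5, 6), (5, 8)]
    cl := [1, 0, 2, 0, 3, 3, 5, 6, 4]
    chq := [(1, 4), (1, 6), (4, 1), (6, 1)]
    rng := [(0, 1), (0, 5), (1, 0), (1, 2), (2, 1), (2, 6), (3, 6), (3, 7), (4, 8), (5, 0), (5, 6), (6,
      2), (6, 3), (6, 5), (6, 8), (7, 3), (7, 8), (8, 4), (8, 6), (8, 7)]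
    lev := [] }
  links := [[1, 2, 6, 7], [2, 0, 7, 8, 3, 9, 4], [6, 0, 1, 4, 10, 5, 11], [9, 1, 8, 12], [10, 2, 1, 9,
    13, 14], [11, 2, 10, 14, 12]]
  P := {
    a := 6
    N := 15
    nb := [198, 925, 3187, 4866, 26118, 23556, 2181, 323, 4234, 12314, 16436, 4196, 19240, 16912,
      13360]
    tri := [(0, 1, 2), (0, 1, 7), (0, 2, 6), (0, 6, 7), (1, 2, 4), (1, 3, 8), (1, 3, 9), (1, 4, 9), (1,
      7, 8), (2, 4, 10), (2, 5, 10), (2, 5, 11), (2, 6, 11), (3, 8, 12), (3, 9, 12), (4, 9, 13),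
      (4, 10, 14), (4, 13, 14), (5, 10, 14), (5, 11, 12), (5, 12, 14)]
    fin := [0, 1, 0, 1, 0, 5, 0, 1, 8, 1, 5, 5, 12, 13, 14]
    chd := [(0, 13), (0, 14)]
    steps := [(0, 2), (0, 4), (0, 6), (1, 3), (1, 7), (1, 9), (5, 10), (5, 11)] }
  rep := [1, 0, 8, 5, 14, 12, 13]

noncomputable def v1485 : Cov.CovD where
  P := 3
  N := 4
  pl := [2, 6]
  lev := [⟨[], [], [(0, 1)], [], [(0, 1, [4, 6]), (1, 0, [])]⟩,
    ⟨[], [(0, 0), (0, 1)], [(0, 0)], [2], [(1, 0, []), (3, 0, [])]⟩,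
    ⟨[(0, 1)], [(0, 0), (0, 1), (0, 3), (1, 0), (1, 1), (1, 3)], [(1, 3), (3, 3)], [], [(0,
      1, [4, 6]), (4, 3, []), (5, 3, [])]⟩,
    ⟨[(0, 1), (1, 2)], [(1, 0)], [], [2, 5], [(3, 0, [])]⟩,
    ⟨[(0, 1), (0, 2), (1, 2), (1, 3)], [(1, 0), (1, 3), (1, 4), (1, 6), (2, 0), (2, 1), (2,
      3), (2, 4), (2, 6), (3, 0)], [(0, 3), (0, 4), (0, 6), (3, 4), (3, 6), (4, 6)], [], [(3,
      0, []), (4, 3, []), (7, 6, [1]), (8, 4, [1])]⟩,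
    ⟨[(0, 2), (1, 2), (2, 4)], [(2, 1), (2, 3), (2, 4), (4, 3), (4, 4)], [(3, 3), (3, 4)],
      [5], [(4, 3, []), (5, 3, []), (8, 4, [1])]⟩]
  Ta := [((1, 0), 0, 1), ((1, 2), 0, 2), ((3, 6), 0, 5), ((3, 7), 0, 6), ((4, 8), 3, 4), ((5, 0),
    3, 1), ((5, 6), 3, 5)]
  Tb := [((0, 1, 5), 1, 0, 3), ((1, 0, 2), 0, 1, 2), ((2, 1, 6), 2, 0, 5), ((3, 6, 7), 0, 5, 6),
    ((5, 0, 6), 3, 1, 5), ((6, 2, 3), 5, 2, 0), ((6, 2, 5), 5, 2, 3), ((6, 2, 8), 5, 2, 4),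
    ((6, 3, 5), 5, 0, 3), ((6, 3, 8), 5, 0, 4), ((6, 5, 8), 5, 3, 4), ((7, 3, 8), 6, 0, 4),
    ((8, 4, 6), 4, 3, 5), ((8, 4, 7), 4, 3, 6), ((8, 6, 7), 4, 5, 6)]
  Tc := [(1, 4, 6)]
  Td := [((1, 4), (0, 1), 0), ((1, 4), (0, 5), 3), ((1, 6), (0, 1), 0), ((1, 6), (0, 5), 3), ((4,
    1), (8, 4), 3), ((4, 1), (8, 6), 5), ((4, 1), (8, 7), 6), ((6, 1), (7, 3), 0), ((6, 1),
    (7, 8), 4)]
  G := [[0, 0x114118c84, 0xc272a728944, 0x42a25b21588, 0xe21b21588], [0, 0x1111c1111c684,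
    0xc2a2692326588, 0xe21b21588, 0xe21b21588], [0, 0, 0, 0x624b28d24d84, 0x722b2898c28485],
    [0, 0, 0, 0x3262c14a272c849, 0x92818322c262ac85]]

noncomputable def n1485 : Ent := ⟨e1485, noF, [], [], []⟩

def c1485 : PLift (Cov.check n1485.C.D v1485 = true) := ⟨by decide +kernel⟩

def b1485 : PLift (entF (fidx ts) 400 1485 n1485 = true) := ⟨by decide +kernel⟩

theorem g1485 : GoodF (fidx ts) 400 1485 := GoodF.ofV v1485 n1485 c1485.down b1485.down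

/-- 477465:1217/1 -/
noncomputable def e1486 : SCfg where
  D := {
    a := 6
    L := 10
    kp := 7
    inn := [(0, 1), (0, 2), (1, 0), (1, 2), (1, 3), (1, 4), (2, 0), (2, 1), (2, 4), (2, 5), (3, 1), (4,
      1), (4, 2), (5, 2)]
    mix := [(0, 0), (0, 1), (1, 1), (1, 2), (1, 3), (2, 0), (2, 4), (2, 5), (3, 2), (3, 3), (3, 6), (4,
      3), (4, 4), (4, 7), (4, 8), (5, 4), (5, 5), (5, 6), (5, 9)]
    cl := [1, 0, 2, 0, 3, 3, 4, 5, 6, 7]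
    chq := [(1, 5), (1, 6), (5, 1), (6, 1)]
    rng := [(0, 1), (0, 5), (1, 0), (1, 2), (2, 1), (2, 6), (3, 6), (3, 7), (4, 8), (4, 9), (5, 0), (5,
      6), (6, 2), (6, 3), (6, 5), (6, 9), (7, 3), (7, 8), (8, 4), (8, 7), (9, 4), (9, 6)]
    lev := [] }
  links := [[1, 2, 6, 7], [2, 0, 7, 8, 3, 9, 4], [6, 0, 1, 4, 10, 5, 11], [9, 1, 8, 12], [10, 2, 1, 9,
    13, 14], [11, 2, 10, 15, 12]]
  P := {
    a := 6
    N := 16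
    nb := [198, 925, 3187, 4866, 26118, 39940, 2181, 323, 4234, 12314, 49204, 4196, 35624, 16912,
      9232, 5152]
    tri := [(0, 1, 2), (0, 1, 7), (0, 2, 6), (0, 6, 7), (1, 2, 4), (1, 3, 8), (1, 3, 9), (1, 4, 9), (1,
      7, 8), (2, 4, 10), (2, 5, 10), (2, 5, 11), (2, 6, 11), (3, 8, 12), (3, 9, 12), (4, 9, 13),
      (4, 10, 14), (4, 13, 14), (5, 10, 15), (5, 11, 12), (5, 12, 15)]
    fin := [0, 1, 0, 1, 0, 5, 0, 1, 8, 1, 5, 5, 12, 13, 14, 15]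
    chd := [(0, 13), (0, 14)]
    steps := [(0, 2), (0, 4), (0, 6), (1, 3), (1, 7), (1, 9), (5, 10), (5, 11)] }
  rep := [1, 0, 8, 5, 12, 13, 14, 15]

noncomputable def v1486 : Cov.CovD where
  P := 3
  N := 5
  pl := [2, 6, 9]
  lev := [⟨[], [], [(0, 1)], [], [(0, 1, [5, 6]), (1, 0, [])]⟩,
    ⟨[], [(0, 0), (0, 1)], [(0, 0)], [2], [(1, 0, []), (3, 0, [])]⟩,
    ⟨[(0, 1)], [(0, 0), (0, 1), (0, 3), (1, 0), (1, 1), (1, 3)], [(1, 3), (3, 3)], [], [(0,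
      1, [5, 6]), (4, 3, []), (5, 3, [])]⟩,
    ⟨[(0, 1), (1, 2)], [(1, 0)], [], [2, 4], [(3, 0, [])]⟩,
    ⟨[(0, 1), (0, 2), (1, 2), (1, 3)], [(1, 0), (1, 3), (1, 5), (1, 6), (2, 0), (2, 1), (2,
      3), (2, 5), (2, 6), (3, 0)], [(0, 3), (0, 5), (0, 6), (3, 5), (3, 6), (5, 6)], [], [(3,
      0, []), (4, 3, []), (7, 5, [1]), (8, 6, [1])]⟩,
    ⟨[(0, 2), (1, 2), (2, 4)], [(2, 1), (2, 3), (4, 3)], [(3, 3)], [4, 7], [(4, 3, []), (5,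
      3, [])]⟩]
  Ta := [((1, 0), 0, 1), ((1, 2), 0, 2), ((3, 6), 0, 4), ((3, 7), 0, 5), ((4, 8), 3, 6), ((4, 9),
    3, 7), ((5, 0), 3, 1), ((5, 6), 3, 4)]
  Tb := [((0, 1, 5), 1, 0, 3), ((1, 0, 2), 0, 1, 2), ((2, 1, 6), 2, 0, 4), ((3, 6, 7), 0, 4, 5),
    ((4, 8, 9), 3, 6, 7), ((5, 0, 6), 3, 1, 4), ((6, 2, 3), 4, 2, 0), ((6, 2, 5), 4, 2, 3),
    ((6, 2, 9), 4, 2, 7), ((6, 3, 5), 4, 0, 3), ((6, 3, 9), 4, 0, 7), ((6, 5, 9), 4, 3, 7),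
    ((7, 3, 8), 5, 0, 6), ((8, 4, 7), 6, 3, 5), ((9, 4, 6), 7, 3, 4)]
  Tc := [(1, 5, 6)]
  Td := [((1, 5), (0, 1), 0), ((1, 5), (0, 5), 3), ((1, 6), (0, 1), 0), ((1, 6), (0, 5), 3), ((5,
    1), (7, 3), 0), ((5, 1), (7, 8), 6), ((6, 1), (8, 4), 3), ((6, 1), (8, 7), 5)]
  G := [[0, 0xf14b18414e42, 0xc2b26b24588, 0xe21721944, 0xe21b21588], [0, 0x714918a151ce84,
    0xc262a5232a944, 0xe21721944, 0xe21b21588], [0, 0, 0, 0x724a28d28d48, 0x9232a18c262a485],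
    [0, 0, 0, 0x3262c4a232c8c1, 0x9232a18c262a485]]

noncomputable def n1486 : Ent := ⟨e1486, noF, [], [], [(14, 15, [360035742630636841211993100915356868655746945586763691013754881, 0])]⟩

def c1486 : PLift (Cov.check n1486.C.D v1486 = true) := ⟨by decide +kernel⟩

def b1486 : PLift (entF (fidx ts) 400 1486 n1486 = true) := ⟨by decide +kernel⟩

theorem g1486 : GoodF (fidx ts) 400 1486 := GoodF.ofV v1486 n1486 c1486.down b1486.down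

/-- 477465:1217/3 -/
noncomputable def e1487 : SCfg where
  D := {
    a := 6
    L := 10
    kp := 7
    inn := [(0, 1), (0, 2), (1, 0), (1, 2), (1, 3), (1, 4), (2, 0), (2, 1), (2, 4), (2, 5), (3, 1), (4,
      1), (4, 2), (5, 2)]
    mix := [(0, 0), (0, 1), (1, 1), (1, 2), (1, 3), (2, 0), (2, 4), (2, 5), (3, 2), (3, 3), (3, 6), (4,
      3), (4, 4), (4, 7), (4, 8), (5, 4), (5, 5), (5, 8), (5, 9)]
    cl := [1, 0, 2, 0, 3, 3, 6, 5, 4, 7]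
    chq := [(1, 4), (1, 5), (4, 1), (5, 1)]
    rng := [(0, 1), (0, 5), (1, 0), (1, 2), (2, 1), (2, 6), (3, 6), (3, 7), (4, 8), (5, 0), (5, 9), (6,
      2), (6, 3), (7, 3), (7, 8), (8, 4), (8, 7), (8, 9), (9, 5), (9, 8)]
    lev := [] }
  links := [[1, 2, 6, 7], [2, 0, 7, 8, 3, 9, 4], [6, 0, 1, 4, 10, 5, 11], [9, 1, 8, 12], [10, 2, 1, 9,
    13, 14], [11, 2, 10, 14, 15]]
  P := {
    a := 6
    N := 16
    nb := [198, 925, 3187, 4866, 26118, 52228, 2181, 323, 4234, 12314, 16436, 32868, 776, 16912,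
      42032, 18464]
    tri := [(0, 1, 2), (0, 1, 7), (0, 2, 6), (0, 6, 7), (1, 2, 4), (1, 3, 8), (1, 3, 9), (1, 4, 9), (1,
      7, 8), (2, 4, 10), (2, 5, 10), (2, 5, 11), (2, 6, 11), (3, 8, 12), (3, 9, 12), (4, 9, 13),
      (4, 10, 14), (4, 13, 14), (5, 10, 14), (5, 11, 15), (5, 14, 15)]
    fin := [0, 1, 0, 1, 0, 5, 0, 1, 8, 1, 5, 5, 12, 13, 14, 15]
    chd := [(0, 13), (0, 14)]
    steps := [(0, 2), (0, 4), (0, 6), (1, 3), (1, 7), (1, 9), (5, 10), (5, 11)] }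
  rep := [1, 0, 8, 5, 14, 13, 12, 15]

noncomputable def v1487 : Cov.CovD where
  P := 3
  N := 5
  pl := [2, 6, 9]
  lev := [⟨[], [], [(0, 1)], [], [(0, 1, [4, 5]), (1, 0, [])]⟩,
    ⟨[], [(0, 0), (0, 1)], [(0, 0)], [2], [(1, 0, []), (3, 0, [])]⟩,
    ⟨[(0, 1)], [(0, 0), (0, 1), (0, 3), (1, 0), (1, 1), (1, 3)], [(1, 3), (3, 3)], [], [(0,
      1, [4, 5]), (4, 3, []), (5, 3, [])]⟩,
    ⟨[(0, 1), (1, 2)], [(1, 0)], [], [2, 6], [(3, 0, [])]⟩,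
    ⟨[(0, 1), (0, 2), (1, 2), (1, 3)], [(1, 0), (1, 3), (1, 4), (1, 5), (2, 0), (2, 1), (2,
      3), (2, 4), (2, 5), (3, 0)], [(0, 3), (0, 4), (0, 5), (3, 4), (3, 5), (4, 5)], [], [(3,
      0, []), (4, 3, []), (7, 5, [1]), (8, 4, [1])]⟩,
    ⟨[(0, 2), (1, 2), (2, 4)], [(2, 1), (2, 3), (2, 4), (4, 3), (4, 4)], [(3, 3), (3, 4)],
      [7], [(4, 3, []), (5, 3, []), (8, 4, [1])]⟩]
  Ta := [((1, 0), 0, 1), ((1, 2), 0, 2), ((3, 6), 0, 6), ((3, 7), 0, 5), ((4, 8), 3, 4), ((5, 0),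
    3, 1), ((5, 9), 3, 7)]
  Tb := [((0, 1, 5), 1, 0, 3), ((1, 0, 2), 0, 1, 2), ((2, 1, 6), 2, 0, 6), ((3, 6, 7), 0, 6, 5),
    ((5, 0, 9), 3, 1, 7), ((6, 2, 3), 6, 2, 0), ((7, 3, 8), 5, 0, 4), ((8, 4, 7), 4, 3, 5),
    ((8, 4, 9), 4, 3, 7), ((8, 7, 9), 4, 5, 7), ((9, 5, 8), 7, 3, 4)]
  Tc := [(1, 4, 5)]
  Td := [((1, 4), (0, 1), 0), ((1, 4), (0, 5), 3), ((1, 5), (0, 1), 0), ((1, 5), (0, 5), 3), ((4,
    1), (8, 4), 3), ((4, 1), (8, 7), 5), ((4, 1), (8, 9), 7), ((5, 1), (7, 3), 0), ((5, 1),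
    (7, 8), 4)]
  G := [[0, 0xd14b1468d18718a4c, 0xe2e26b2b26588, 0xe21b21588, 0xe21b21588], [0,
    0xf1f1c22a15151ce42, 0xe2e2a7272a944, 0xe21721944, 0xe21b21588], [0, 0, 0,
    0xe24b2458e2872894c, 0x622a282ab2f2ad8428485], [0, 0, 0, 0x4272c4b2b2c328cc1,
    0xb2a2a18322e2d2ac85]]

noncomputable def n1487 : Ent := ⟨e1487, noF, [], [], [(12, 15, [360035742630636841211993100915356868655746945586763691013754881, 0])]⟩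

def c1487 : PLift (Cov.check n1487.C.D v1487 = true) := ⟨by decide +kernel⟩

def b1487 : PLift (entF (fidx ts) 400 1487 n1487 = true) := ⟨by decide +kernel⟩

theorem g1487 : GoodF (fidx ts) 400 1487 := GoodF.ofV v1487 n1487 c1487.down b1487.down

/-- 477465:1217 -/
noncomputable def e1488 : SCfg where
  D := {
    a := 6
    L := 11
    kp := 8
    inn := [(0, 1), (0, 2), (1, 0), (1, 2), (1, 3), (1, 4), (2, 0), (2, 1), (2, 4), (2, 5), (3, 1), (4,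
      1), (4, 2), (5, 2)]
    mix := [(0, 0), (0, 1), (1, 1), (1, 2), (1, 3), (2, 0), (2, 4), (2, 5), (3, 2), (3, 3), (3, 6), (4,
      3), (4, 4), (4, 7), (4, 8), (5, 4), (5, 5), (5, 9), (5, 10)]
    cl := [1, 0, 2, 0, 3, 3, 6, 4, 5, 7, 8]
    chq := [(1, 4), (1, 5), (4, 1), (5, 1)]
    rng := [(0, 1), (0, 5), (1, 0), (1, 2), (2, 1), (2, 6), (3, 6), (3, 7), (4, 8), (4, 9), (5, 0), (5,
      10), (6, 2), (6, 3), (7, 3), (7, 8), (8, 4), (8, 7), (9, 4), (9, 10), (10, 5), (10, 9)]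
    lev := [] }
  links := [[1, 2, 6, 7], [2, 0, 7, 8, 3, 9, 4], [6, 0, 1, 4, 10, 5, 11], [9, 1, 8, 12], [10, 2, 1, 9,
    13, 14], [11, 2, 10, 15, 16]]
  P := {
    a := 6
    N := 17
    nb := [198, 925, 3187, 4866, 26118, 101380, 2181, 323, 4234, 12314, 49204, 65636, 776, 16912,
      9232, 66592, 34848]
    tri := [(0, 1, 2), (0, 1, 7), (0, 2, 6), (0, 6, 7), (1, 2, 4), (1, 3, 8), (1, 3, 9), (1, 4, 9), (1,
      7, 8), (2, 4, 10), (2, 5, 10), (2, 5, 11), (2, 6, 11), (3, 8, 12), (3, 9, 12), (4, 9, 13),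
      (4, 10, 14), (4, 13, 14), (5, 10, 15), (5, 11, 16), (5, 15, 16)]
    fin := [0, 1, 0, 1, 0, 5, 0, 1, 8, 1, 5, 5, 12, 13, 14, 15, 16]
    chd := [(0, 13), (0, 14)]
    steps := [(0, 2), (0, 4), (0, 6), (1, 3), (1, 7), (1, 9), (5, 10), (5, 11)] }
  rep := [1, 0, 8, 5, 13, 14, 12, 15, 16]

noncomputable def v1488 : Cov.CovD where
  P := 3
  N := 6
  pl := [2, 6, 9, 10]
  lev := [⟨[], [], [(0, 1)], [], [(0, 1, [4, 5]), (1, 0, [])]⟩,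
    ⟨[], [(0, 0), (0, 1)], [(0, 0)], [2], [(1, 0, []), (3, 0, [])]⟩,
    ⟨[(0, 1)], [(0, 0), (0, 1), (0, 3), (1, 0), (1, 1), (1, 3)], [(1, 3), (3, 3)], [], [(0,
      1, [4, 5]), (4, 3, []), (5, 3, [])]⟩,
    ⟨[(0, 1), (1, 2)], [(1, 0)], [], [2, 6], [(3, 0, [])]⟩,
    ⟨[(0, 1), (0, 2), (1, 2), (1, 3)], [(1, 0), (1, 3), (1, 4), (1, 5), (2, 0), (2, 1), (2,
      3), (2, 4), (2, 5), (3, 0)], [(0, 3), (0, 4), (0, 5), (3, 4), (3, 5), (4, 5)], [], [(3,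
      0, []), (4, 3, []), (7, 4, [1]), (8, 5, [1])]⟩,
    ⟨[(0, 2), (1, 2), (2, 4)], [(2, 1), (2, 3), (4, 3)], [(3, 3)], [7, 8], [(4, 3, []), (5,
      3, [])]⟩]
  Ta := [((1, 0), 0, 1), ((1, 2), 0, 2), ((3, 6), 0, 6), ((3, 7), 0, 4), ((4, 8), 3, 5), ((4, 9),
    3, 7), ((5, 0), 3, 1), ((5, 10), 3, 8)]
  Tb := [((0, 1, 5), 1, 0, 3), ((1, 0, 2), 0, 1, 2), ((2, 1, 6), 2, 0, 6), ((3, 6, 7), 0, 6, 4),
    ((4, 8, 9), 3, 5, 7), ((5, 0, 10), 3, 1, 8), ((6, 2, 3), 6, 2, 0), ((7, 3, 8), 4, 0, 5),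
    ((8, 4, 7), 5, 3, 4), ((9, 4, 10), 7, 3, 8), ((10, 5, 9), 8, 3, 7)]
  Tc := [(1, 4, 5)]
  Td := [((1, 4), (0, 1), 0), ((1, 4), (0, 5), 3), ((1, 5), (0, 1), 0), ((1, 5), (0, 5), 3), ((4,
    1), (7, 3), 0), ((4, 1), (7, 8), 5), ((5, 1), (8, 4), 3), ((5, 1), (8, 7), 4)]
  G := [[0, 0x7171c4b1b1c8c2, 0xe2e2a7272a944, 0xe21b21588, 0xe21b21588], [0, 0xb1b1c28d1d1c486,
    0xe2e26b2b26588, 0xe21b21588, 0xe21b21588], [0, 0, 0, 0x724487284b2b2c8c9,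
    0xb2b2a18e2e2a485], [0, 0, 0, 0xe24b2458e2872894c, 0xb2b2a18e2e2a485]]

noncomputable def n1488 : Ent := ⟨e1488, noF, [], [], [(12, 16, [1580044410770988437309982408355971841652082177953823432505695199233, 0]), (14, 15, [1685356702439545624007900436039642273970977273354372543760006180865, 0])]⟩

def c1488 : PLift (Cov.check n1488.C.D v1488 = true) := ⟨by decide +kernel⟩

def b1488 : PLift (entF (fidx ts) 400 1488 n1488 = true) := ⟨by decide +kernel⟩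

theorem g1488 : GoodF (fidx ts) 400 1488 := GoodF.ofV v1488 n1488 c1488.down b1488.down

/-- 457654:1231/2 -/
noncomputable def e1489 : SCfg where
  D := {
    a := 6
    L := 9
    kp := 6
    inn := [(0, 1), (1, 0), (1, 2), (2, 1), (2, 3), (3, 2), (3, 4), (4, 3), (4, 5), (5, 4)]
    mix := [(0, 0), (0, 1), (0, 2), (1, 0), (1, 2), (1, 3), (2, 2), (2, 3), (2, 4), (2, 5), (2, 6), (3,
      3), (3, 6), (3, 7), (3, 8), (4, 0), (4, 3), (4, 8), (5, 0), (5, 1), (5, 8)]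
    cl := [1, 2, 0, 0, 5, 6, 0, 4, 3]
    chq := [(1, 3), (1, 4), (3, 1), (4, 1)]
    rng := [(0, 1), (0, 3), (1, 0), (1, 2), (1, 8), (2, 1), (2, 4), (3, 0), (4, 2), (4, 5), (5, 4), (5,
      6), (6, 5), (6, 7), (7, 6), (7, 8), (8, 1), (8, 7)]
    lev := [] }
  links := [[1, 6, 7, 8], [6, 0, 8, 2, 9], [9, 1, 8, 10, 11, 12, 3], [9, 2, 12, 13, 14, 4], [9, 3, 14, 5,
    6], [6, 4, 14, 7]]
  P := {
    a := 6
    N := 15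
    nb := [450, 837, 7946, 29204, 17000, 16592, 691, 16737, 1159, 94, 2308, 5124, 10252, 20488, 8376]
    tri := [(0, 1, 6), (0, 1, 8), (0, 6, 7), (0, 7, 8), (1, 2, 8), (1, 2, 9), (1, 6, 9), (2, 3, 9), (2,
      3, 12), (2, 8, 10), (2, 10, 11), (2, 11, 12), (3, 4, 9), (3, 4, 14), (3, 12, 13), (3, 13,
      14), (4, 5, 6), (4, 5, 14), (4, 6, 9), (5, 6, 7), (5, 7, 14)]
    fin := [0, 0, 2, 0, 0, 0, 0, 7, 2, 2, 10, 11, 2, 13, 14]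
    chd := [(0, 13), (0, 14)]
    steps := [(0, 1), (0, 6), (0, 4), (0, 5), (2, 8), (2, 12), (2, 9), (0, 3)] }
  rep := [2, 0, 7, 14, 13, 10, 11]

noncomputable def v1489 : Cov.CovD where
  P := 3
  N := 4
  pl := [1, 4, 5]
  lev := [⟨[], [], [(0, 1)], [2], [(0, 1, [3, 4]), (2, 0, [])]⟩,
    ⟨[], [(0, 0), (0, 1)], [(0, 0), (0, 1)], [], [(0, 1, [3, 4]), (2, 0, []), (3, 0, [])]⟩,
    ⟨[(0, 1)], [(0, 0), (1, 0), (1, 1)], [(0, 0)], [5, 6], [(2, 0, []), (3, 0, []), (6, 0,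
      [])]⟩,
    ⟨[(1, 2)], [(1, 0), (2, 0), (2, 3), (2, 4)], [(0, 0), (0, 3), (0, 4), (3, 4)], [], [(3,
      0, []), (6, 0, []), (7, 4, [1]), (8, 3, [1])]⟩,
    ⟨[(2, 3)], [(0, 1), (1, 0), (1, 1), (2, 0), (3, 0), (3, 1), (3, 3), (3, 4)], [(0, 1),
      (0, 3), (1, 3)], [], [(0, 1, [3, 4]), (3, 0, []), (8, 3, [1])]⟩,
    ⟨[(3, 4)], [(0, 1), (1, 1), (3, 3), (4, 0), (4, 1), (4, 3)], [(1, 3)], [2], [(0, 1, [3,
      4]), (8, 3, [1])]⟩]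
  Ta := [((2, 1), 0, 2), ((2, 4), 0, 5), ((3, 0), 0, 1), ((6, 5), 0, 6), ((6, 7), 0, 4)]
  Tb := [((0, 1, 3), 1, 2, 0), ((1, 0, 2), 2, 1, 0), ((1, 0, 8), 2, 1, 3), ((1, 2, 8), 2, 0, 3),
    ((2, 1, 4), 0, 2, 5), ((4, 2, 5), 5, 0, 6), ((5, 4, 6), 6, 5, 0), ((6, 5, 7), 0, 6, 4),
    ((7, 6, 8), 4, 0, 3), ((8, 1, 7), 3, 2, 4)]
  Tc := [(1, 3, 4)]
  Td := [((1, 3), (0, 1), 2), ((1, 3), (0, 3), 0), ((1, 4), (0, 1), 2), ((1, 4), (0, 3), 0), ((3,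
    1), (8, 1), 2), ((3, 1), (8, 7), 4), ((4, 1), (7, 6), 0), ((4, 1), (7, 8), 3)]
  G := [[0, 0, 0xc12448528141c1eac4, 0x84c248524852e48, 0x81c281c28259411cee48], [0,
    0x88684ac2e4886846c2e48a84684ceac4, 0, 0x81c281c284c2e84, 0x81c281c2189419cee81], [0, 0,
    0, 0x81c284924852e84, 0x81c281c2819481cee41]]

noncomputable def n1489 : Ent := ⟨e1489, noF, [], [], []⟩

def c1489 : PLift (Cov.check n1489.C.D v1489 = true) := ⟨by decide +kernel⟩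

def b1489 : PLift (entF (fidx ts) 400 1489 n1489 = true) := ⟨by decide +kernel⟩

theorem g1489 : GoodF (fidx ts) 400 1489 := GoodF.ofV v1489 n1489 c1489.down b1489.down

/-- 457654:1231/1 -/
noncomputable def e1490 : SCfg where
  D := {
    a := 6
    L := 10
    kp := 7
    inn := [(0, 1), (1, 0), (1, 2), (2, 1), (2, 3), (3, 2), (3, 4), (4, 3), (4, 5), (5, 4)]
    mix := [(0, 0), (0, 1), (0, 2), (1, 0), (1, 2), (1, 3), (2, 2), (2, 3), (2, 4), (2, 5), (2, 6), (3,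
      3), (3, 6), (3, 7), (3, 8), (4, 0), (4, 3), (4, 8), (5, 0), (5, 8), (5, 9)]
    cl := [1, 2, 0, 0, 5, 6, 0, 4, 3, 7]
    chq := [(1, 3), (1, 4), (3, 1), (4, 1)]
    rng := [(0, 1), (0, 3), (0, 9), (1, 0), (1, 2), (2, 1), (2, 4), (3, 0), (4, 2), (4, 5), (5, 4), (5,
      6), (6, 5), (6, 7), (7, 6), (7, 8), (8, 7), (8, 9), (9, 0), (9, 8)]
    lev := [] }
  links := [[1, 6, 7, 8], [6, 0, 8, 2, 9], [9, 1, 8, 10, 11, 12, 3], [9, 2, 12, 13, 14, 4], [9, 3, 14, 5,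
    6], [6, 4, 14, 15]]
  P := {
    a := 6
    N := 16
    nb := [450, 837, 7946, 29204, 17000, 49232, 33459, 321, 1159, 94, 2308, 5124, 10252, 20488, 41016,
      16480]
    tri := [(0, 1, 6), (0, 1, 8), (0, 6, 7), (0, 7, 8), (1, 2, 8), (1, 2, 9), (1, 6, 9), (2, 3, 9), (2,
      3, 12), (2, 8, 10), (2, 10, 11), (2, 11, 12), (3, 4, 9), (3, 4, 14), (3, 12, 13), (3, 13,
      14), (4, 5, 6), (4, 5, 14), (4, 6, 9), (5, 6, 15), (5, 14, 15)]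
    fin := [0, 0, 2, 0, 0, 0, 0, 7, 2, 2, 10, 11, 2, 13, 14, 15]
    chd := [(0, 13), (0, 14)]
    steps := [(0, 1), (0, 6), (0, 4), (0, 5), (2, 8), (2, 12), (2, 9), (0, 3)] }
  rep := [2, 0, 7, 14, 13, 10, 11, 15]

noncomputable def v1490 : Cov.CovD where
  P := 3
  N := 5
  pl := [1, 4, 5, 9]
  lev := [⟨[], [], [(0, 1)], [2], [(0, 1, [3, 4]), (2, 0, [])]⟩,
    ⟨[], [(0, 0), (0, 1)], [(0, 0), (0, 1)], [], [(0, 1, [3, 4]), (2, 0, []), (3, 0, [])]⟩,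
    ⟨[(0, 1)], [(0, 0), (1, 0), (1, 1)], [(0, 0)], [5, 6], [(2, 0, []), (3, 0, []), (6, 0,
      [])]⟩,
    ⟨[(1, 2)], [(1, 0), (2, 0), (2, 3), (2, 4)], [(0, 0), (0, 3), (0, 4), (3, 4)], [], [(3,
      0, []), (6, 0, []), (7, 4, [1]), (8, 3, [1])]⟩,
    ⟨[(2, 3)], [(0, 1), (1, 0), (1, 1), (2, 0), (3, 0), (3, 1), (3, 3), (3, 4)], [(0, 1),
      (0, 3), (1, 3)], [], [(0, 1, [3, 4]), (3, 0, []), (8, 3, [1])]⟩,
    ⟨[(3, 4)], [(0, 1), (1, 1), (3, 3), (4, 0), (4, 1), (4, 3)], [(1, 3)], [7], [(0, 1, [3,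
      4]), (8, 3, [1])]⟩]
  Ta := [((2, 1), 0, 2), ((2, 4), 0, 5), ((3, 0), 0, 1), ((6, 5), 0, 6), ((6, 7), 0, 4)]
  Tb := [((0, 1, 3), 1, 2, 0), ((0, 1, 9), 1, 2, 7), ((0, 3, 9), 1, 0, 7), ((1, 0, 2), 2, 1, 0),
    ((2, 1, 4), 0, 2, 5), ((4, 2, 5), 5, 0, 6), ((5, 4, 6), 6, 5, 0), ((6, 5, 7), 0, 6, 4),
    ((7, 6, 8), 4, 0, 3), ((8, 7, 9), 3, 4, 7), ((9, 0, 8), 7, 1, 3)]
  Tc := [(1, 3, 4)]
  Td := [((1, 3), (0, 1), 2), ((1, 3), (0, 3), 0), ((1, 3), (0, 9), 7), ((1, 4), (0, 1), 2), ((1,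
    4), (0, 3), 0), ((1, 4), (0, 9), 7), ((3, 1), (8, 7), 4), ((3, 1), (8, 9), 7), ((4, 1),
    (7, 6), 0), ((4, 1), (7, 8), 3)]
  G := [[0, 0, 0x95c295c278e195cee84, 0x95c295c295c2e48, 0x95c295c278b495cee48], [0,
    0xc6aa6c6688ec6aa6ceca6c6aa6ceeca688c4, 0, 0x95c295c295c2e81, 0x95c295c278b495cee41], [0,
    0, 0, 0x95c295c295c2e84, 0x95c295c22ccb495cee81]]

noncomputable def n1490 : Ent := ⟨e1490, noF, [], [], [(7, 15, [360035742630636841211993100915356868655746945586763691013771265, 0])]⟩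

def c1490 : PLift (Cov.check n1490.C.D v1490 = true) := ⟨by decide +kernel⟩

def b1490 : PLift (entF (fidx ts) 400 1490 n1490 = true) := ⟨by decide +kernel⟩

theorem g1490 : GoodF (fidx ts) 400 1490 := GoodF.ofV v1490 n1490 c1490.down b1490.down

/-- 457654:1231/3 -/
noncomputable def e1491 : SCfg where
  D := {
    a := 6
    L := 10
    kp := 7
    inn := [(0, 1), (1, 0), (1, 2), (2, 1), (2, 3), (3, 2), (3, 4), (4, 3), (4, 5), (5, 4)]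
    mix := [(0, 0), (0, 1), (0, 2), (1, 0), (1, 2), (1, 3), (2, 2), (2, 3), (2, 4), (2, 5), (2, 6), (3,
      3), (3, 6), (3, 7), (3, 8), (4, 3), (4, 8), (4, 9), (5, 1), (5, 8), (5, 9)]
    cl := [2, 4, 0, 0, 6, 7, 0, 5, 3, 1]
    chq := [(1, 3), (1, 5), (3, 1), (5, 1)]
    rng := [(0, 1), (0, 3), (1, 0), (1, 2), (1, 8), (1, 9), (2, 1), (2, 4), (3, 0), (3, 9), (4, 2), (4,
      5), (5, 4), (5, 6), (6, 5), (6, 7), (7, 6), (7, 8), (8, 1), (8, 7), (9, 1), (9, 3)]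
    lev := [] }
  links := [[1, 6, 7, 8], [6, 0, 8, 2, 9], [9, 1, 8, 10, 11, 12, 3], [9, 2, 12, 13, 14, 4], [9, 3, 14, 5,
    15], [15, 4, 14, 7]]
  P := {
    a := 6
    N := 16
    nb := [450, 837, 7946, 29204, 49704, 49296, 643, 49505, 1159, 32862, 2308, 5124, 10252, 20488,
      8376, 688]
    tri := [(0, 1, 6), (0, 1, 8), (0, 6, 7), (0, 7, 8), (1, 2, 8), (1, 2, 9), (1, 6, 9), (2, 3, 9), (2,
      3, 12), (2, 8, 10), (2, 10, 11), (2, 11, 12), (3, 4, 9), (3, 4, 14), (3, 12, 13), (3, 13,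
      14), (4, 5, 14), (4, 5, 15), (4, 9, 15), (5, 7, 14), (5, 7, 15)]
    fin := [0, 0, 2, 3, 4, 5, 0, 5, 2, 2, 10, 11, 2, 3, 14, 4]
    chd := [(3, 4), (14, 4)]
    steps := [(0, 1), (0, 6), (2, 8), (2, 12), (2, 9), (3, 13), (4, 15), (5, 7)] }
  rep := [2, 4, 0, 14, 5, 3, 10, 11]

noncomputable def v1491 : Cov.CovD where
  P := 3
  N := 5
  pl := [0, 1, 4, 5]
  lev := [⟨[], [], [], [2, 4], [(2, 0, [])]⟩,
    ⟨[], [(0, 0)], [(0, 0)], [2], [(2, 0, []), (3, 0, [])]⟩,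
    ⟨[(0, 1)], [(0, 0), (1, 0)], [(0, 0)], [6, 7], [(2, 0, []), (3, 0, []), (6, 0, [])]⟩,
    ⟨[(1, 2)], [(1, 0), (2, 0), (2, 3), (2, 5)], [(0, 0), (0, 3), (0, 5), (3, 5)], [], [(3,
      0, []), (6, 0, []), (7, 5, [1]), (8, 3, [1])]⟩,
    ⟨[(2, 3)], [(1, 0), (2, 0), (3, 0), (3, 1), (3, 3), (3, 5)], [(0, 1), (0, 3), (1, 3)],
      [], [(3, 0, []), (8, 3, [1]), (9, 1, [3, 5])]⟩,
    ⟨[(3, 4)], [(3, 3), (4, 0), (4, 1), (4, 3)], [(1, 3)], [4], [(8, 3, [1]), (9, 1, [3,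
      5])]⟩]
  Ta := [((2, 1), 0, 4), ((2, 4), 0, 6), ((3, 0), 0, 2), ((3, 9), 0, 1), ((6, 5), 0, 7), ((6, 7),
    0, 5)]
  Tb := [((0, 1, 3), 2, 4, 0), ((1, 0, 2), 4, 2, 0), ((1, 0, 8), 4, 2, 3), ((1, 0, 9), 4, 2, 1),
    ((1, 2, 8), 4, 0, 3), ((1, 2, 9), 4, 0, 1), ((1, 8, 9), 4, 3, 1), ((2, 1, 4), 0, 4, 6),
    ((3, 0, 9), 0, 2, 1), ((4, 2, 5), 6, 0, 7), ((5, 4, 6), 7, 6, 0), ((6, 5, 7), 0, 7, 5),
    ((7, 6, 8), 5, 0, 3), ((8, 1, 7), 3, 4, 5), ((9, 1, 3), 1, 4, 0)]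
  Tc := [(1, 3, 5)]
  Td := [((1, 3), (9, 1), 4), ((1, 3), (9, 3), 0), ((1, 5), (9, 1), 4), ((1, 5), (9, 3), 0), ((3,
    1), (8, 1), 4), ((3, 1), (8, 7), 5), ((5, 1), (7, 6), 0), ((5, 1), (7, 8), 3)]
  G := [[0, 0, 0, 0x81c281c2813481cee414c214c2584114cee8c,
    0x81c281c2614c28a95c214c2e1b414cee8a], [0, 0x688ec6a22cee48aec6aa6ce6ca6486ea6ce8c1,
    0x81c281c2681c28c14c214c2381414cee4a, 0x59c295c2381495cee81, 0x183495ce2d1c21dc2ca1], [0,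
    0, 0, 0x1dc21dc238141dcee41, 0x59c21dc2381495cee81]]

noncomputable def n1491 : Ent := ⟨e1491, noF, [], [], [(6, 15, [360035742630636841211993100915356868655746945586763691013771265, 0])]⟩

def c1491 : PLift (Cov.check n1491.C.D v1491 = true) := ⟨by decide +kernel⟩

def b1491 : PLift (entF (fidx ts) 400 1491 n1491 = true) := ⟨by decide +kernel⟩

theorem g1491 : GoodF (fidx ts) 400 1491 := GoodF.ofV v1491 n1491 c1491.down b1491.down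

/-- 457654:1231 -/
noncomputable def e1492 : SCfg where
  D := {
    a := 6
    L := 11
    kp := 8
    inn := [(0, 1), (1, 0), (1, 2), (2, 1), (2, 3), (3, 2), (3, 4), (4, 3), (4, 5), (5, 4)]
    mix := [(0, 0), (0, 1), (0, 2), (1, 0), (1, 2), (1, 3), (2, 2), (2, 3), (2, 4), (2, 5), (2, 6), (3,
      3), (3, 6), (3, 7), (3, 8), (4, 3), (4, 8), (4, 9), (5, 8), (5, 9), (5, 10)]
    cl := [2, 5, 0, 0, 6, 7, 0, 4, 3, 1, 8]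
    chq := [(1, 3), (1, 4), (3, 1), (4, 1)]
    rng := [(0, 1), (0, 3), (1, 0), (1, 2), (2, 1), (2, 4), (3, 0), (3, 9), (4, 2), (4, 5), (5, 4), (5,
      6), (6, 5), (6, 7), (7, 6), (7, 8), (8, 7), (8, 10), (9, 3), (9, 10), (10, 8), (10, 9)]
    lev := [] }
  links := [[1, 6, 7, 8], [6, 0, 8, 2, 9], [9, 1, 8, 10, 11, 12, 3], [9, 2, 12, 13, 14, 4], [9, 3, 14, 5,
    15], [15, 4, 14, 16]]
  P := {
    a := 6
    N := 17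
    nb := [450, 837, 7946, 29204, 49704, 114704, 643, 321, 1159, 32862, 2308, 5124, 10252, 20488,
      73784, 66096, 49184]
    tri := [(0, 1, 6), (0, 1, 8), (0, 6, 7), (0, 7, 8), (1, 2, 8), (1, 2, 9), (1, 6, 9), (2, 3, 9), (2,
      3, 12), (2, 8, 10), (2, 10, 11), (2, 11, 12), (3, 4, 9), (3, 4, 14), (3, 12, 13), (3, 13,
      14), (4, 5, 14), (4, 5, 15), (4, 9, 15), (5, 14, 16), (5, 15, 16)]
    fin := [0, 0, 2, 3, 3, 5, 0, 7, 2, 2, 10, 11, 2, 3, 5, 15, 16]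
    chd := [(3, 15), (5, 15)]
    steps := [(0, 1), (0, 6), (2, 8), (2, 12), (2, 9), (3, 4), (3, 13), (5, 14)] }
  rep := [2, 15, 0, 5, 3, 7, 10, 11, 16]

noncomputable def v1492 : Cov.CovD where
  P := 3
  N := 6
  pl := [0, 1, 4, 5, 10]
  lev := [⟨[], [], [], [2, 5], [(2, 0, [])]⟩,
    ⟨[], [(0, 0)], [(0, 0)], [2], [(2, 0, []), (3, 0, [])]⟩,
    ⟨[(0, 1)], [(0, 0), (1, 0)], [(0, 0)], [6, 7], [(2, 0, []), (3, 0, []), (6, 0, [])]⟩,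
    ⟨[(1, 2)], [(1, 0), (2, 0), (2, 3), (2, 4)], [(0, 0), (0, 3), (0, 4), (3, 4)], [], [(3,
      0, []), (6, 0, []), (7, 4, [1]), (8, 3, [1])]⟩,
    ⟨[(2, 3)], [(1, 0), (2, 0), (3, 0), (3, 1), (3, 3), (3, 4)], [(0, 1), (0, 3), (1, 3)],
      [], [(3, 0, []), (8, 3, [1]), (9, 1, [3, 4])]⟩,
    ⟨[(3, 4)], [(3, 3), (4, 0), (4, 1), (4, 3)], [(1, 3)], [8], [(8, 3, [1]), (9, 1, [3,
      4])]⟩]
  Ta := [((2, 1), 0, 5), ((2, 4), 0, 6), ((3, 0), 0, 2), ((3, 9), 0, 1), ((6, 5), 0, 7), ((6, 7),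
    0, 4)]
  Tb := [((0, 1, 3), 2, 5, 0), ((1, 0, 2), 5, 2, 0), ((2, 1, 4), 0, 5, 6), ((3, 0, 9), 0, 2, 1),
    ((4, 2, 5), 6, 0, 7), ((5, 4, 6), 7, 6, 0), ((6, 5, 7), 0, 7, 4), ((7, 6, 8), 4, 0, 3),
    ((8, 7, 10), 3, 4, 8), ((9, 3, 10), 1, 0, 8), ((10, 8, 9), 8, 3, 1)]
  Tc := [(1, 3, 4)]
  Td := [((1, 3), (9, 3), 0), ((1, 3), (9, 10), 8), ((1, 4), (9, 3), 0), ((1, 4), (9, 10), 8),
    ((3, 1), (8, 7), 4), ((3, 1), (8, 10), 8), ((4, 1), (7, 6), 0), ((4, 1), (7, 8), 3)]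
  G := [[0, 0, 0, 0x95c295c278b495cee495c295c234cb495cee8c,
    0xb495c6295c295c2788ea95c295c2189b495cee8a], [0, 0xc6aa6c62c8ec6aa6ceca6c6aa6ceeca688c1,
    0x95c295c27883c95cee878b495ce295c295c2ca6, 0x95c295c278b495cee81, 0x95c295c278b495cee81],
    [0, 0, 0, 0x95c295c2189b495cee41, 0x95c295c278e195cee81]]

noncomputable def n1492 : Ent := ⟨e1492, noF, [], [], [(6, 15, [1685356702439545624007900436039642273970977273354372543760006193153, 0]), (7, 16, [1580044410770988437309982408355971841652082177953823432505695219713, 0])]⟩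

def c1492 : PLift (Cov.check n1492.C.D v1492 = true) := ⟨by decide +kernel⟩

def b1492 : PLift (entF (fidx ts) 400 1492 n1492 = true) := ⟨by decide +kernel⟩

theorem g1492 : GoodF (fidx ts) 400 1492 := GoodF.ofV v1492 n1492 c1492.down b1492.down

/-- 477574:1232 -/
noncomputable def e1493 : SCfg where
  D := {
    a := 6
    L := 10
    kp := 9
    inn := [(0, 1), (0, 2), (1, 0), (1, 2), (1, 3), (1, 4), (2, 0), (2, 1), (2, 4), (2, 5), (3, 1), (3,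
      4), (4, 1), (4, 2), (4, 3), (4, 5), (5, 2), (5, 4)]
    mix := [(0, 0), (0, 1), (1, 1), (1, 2), (1, 3), (2, 0), (2, 4), (2, 5), (3, 3), (3, 6), (3, 7), (4,
      7), (4, 8), (4, 9), (5, 4), (5, 9)]
    cl := [1, 5, 6, 0, 2, 7, 9, 4, 8, 3]
    chq := [(0, 3), (0, 4), (0, 8), (1, 6), (2, 6), (3, 0), (3, 6), (4, 0), (6, 1), (6, 2), (6, 3), (6,
      7), (7, 6), (8, 0)]
    rng := [(0, 1), (0, 5), (1, 0), (1, 2), (2, 1), (2, 3), (3, 2), (3, 6), (4, 5), (4, 9), (5, 0), (5,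
      4), (6, 3), (6, 7), (7, 6), (7, 8), (8, 7), (8, 9), (9, 4), (9, 8)]
    lev := [] }
  links := [[1, 2, 6, 7], [2, 0, 7, 8, 9, 3, 4], [6, 0, 1, 4, 5, 10, 11], [4, 1, 9, 12, 13], [5, 2, 1, 3,
    13, 14, 15], [10, 2, 4, 15]]
  P := {
    a := 6
    N := 16
    nb := [198, 925, 3187, 12818, 57390, 33812, 2181, 323, 642, 4362, 34852, 1092, 8712, 20504, 40976,
      17456]
    tri := [(0, 1, 2), (0, 1, 7), (0, 2, 6), (0, 6, 7), (1, 2, 4), (1, 3, 4), (1, 3, 9), (1, 7, 8), (1,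
      8, 9), (2, 4, 5), (2, 5, 10), (2, 6, 11), (2, 10, 11), (3, 4, 13), (3, 9, 12), (3, 12, 13),
      (4, 5, 15), (4, 13, 14), (4, 14, 15), (5, 10, 15)]
    fin := [0, 1, 1, 3, 3, 1, 0, 7, 1, 3, 10, 11, 12, 13, 14, 15]
    chd := [(0, 1), (1, 10), (1, 11), (1, 15), (3, 13), (3, 14), (3, 15)]
    steps := [(0, 6), (1, 2), (1, 5), (1, 8), (3, 4), (3, 9)] }
  rep := [3, 0, 10, 15, 13, 7, 1, 11, 14, 12]

noncomputable def v1493 : Cov.CovD where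
  P := 3
  N := 7
  pl := [1, 6]
  lev := [⟨[], [], [], [5], [(0, 1, [6])]⟩,
    ⟨[], [(0, 0), (0, 1), (0, 6)], [(0, 6)], [5], [(2, 6, [1, 2, 3, 7]), (3, 0, [3, 4,
      8])]⟩,
    ⟨[(0, 1)], [(0, 1), (0, 2), (0, 7), (1, 0), (1, 1), (1, 2), (1, 6), (1, 7)], [(1, 2),
      (1, 7), (2, 7)], [], [(0, 1, [6]), (4, 2, [6]), (5, 7, [6])]⟩,
    ⟨[(0, 1), (1, 2)], [(1, 0), (1, 4), (1, 6)], [(0, 4)], [9], [(3, 0, [3, 4, 8]), (7, 4,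
      [0])]⟩,
    ⟨[(0, 1), (0, 2), (1, 2), (1, 3), (2, 3)], [(1, 0), (1, 3), (1, 4), (1, 6), (1, 8), (2,
      1), (2, 2), (2, 3), (2, 4), (2, 7), (2, 8), (3, 0), (3, 3), (3, 4), (3, 8)], [(3, 4),
      (3, 8), (4, 8)], [], [(7, 4, [0]), (8, 8, [0]), (9, 3, [0, 6])]⟩,
    ⟨[(0, 2), (1, 2), (1, 4), (2, 4), (3, 4)], [(2, 1), (2, 2), (2, 3), (2, 7), (4, 2), (4,
      3), (4, 4), (4, 8)], [(2, 3)], [], [(4, 2, [6]), (9, 3, [0, 6])]⟩]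
  Ta := []
  Tb := [((0, 1, 5), 1, 5, 7), ((1, 0, 2), 5, 1, 6), ((2, 1, 3), 6, 5, 0), ((3, 2, 6), 0, 6, 9),
    ((4, 5, 9), 2, 7, 3), ((5, 0, 4), 7, 1, 2), ((6, 3, 7), 9, 0, 4), ((7, 6, 8), 4, 9, 8),
    ((8, 7, 9), 8, 4, 3), ((9, 4, 8), 3, 2, 8)]
  Tc := [(0, 3, 4), (0, 3, 8), (0, 4, 8), (3, 0, 6), (6, 1, 2), (6, 1, 3), (6, 1, 7), (6, 2, 3),
    (6, 2, 7), (6, 3, 7)]
  Td := [((0, 3), (3, 2), 6), ((0, 3), (3, 6), 9), ((0, 4), (3, 2), 6), ((0, 4), (3, 6), 9), ((0,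
    8), (3, 2), 6), ((0, 8), (3, 6), 9), ((1, 6), (0, 1), 5), ((1, 6), (0, 5), 7), ((2, 6),
    (4, 5), 7), ((2, 6), (4, 9), 3), ((3, 0), (9, 4), 2), ((3, 0), (9, 8), 8), ((3, 6), (9,
    4), 2), ((3, 6), (9, 8), 8), ((4, 0), (7, 6), 9), ((4, 0), (7, 8), 8), ((6, 1), (2, 1),
    5), ((6, 1), (2, 3), 0), ((6, 2), (2, 1), 5), ((6, 2), (2, 3), 0), ((6, 3), (2, 1), 5),
    ((6, 3), (2, 3), 0), ((6, 7), (2, 1), 5), ((6, 7), (2, 3), 0), ((7, 6), (5, 0), 1), ((7,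
    6), (5, 4), 2), ((8, 0), (8, 7), 4), ((8, 0), (8, 9), 3)]
  G := [[0x412c1a166616161e86161a814aea1a1c4c1c1a221416a12cec181a2c142a1a1c4ee,
    0xd1d114745111c818c216151ec181ace19381c4d1183c191aa1141621916c111e1268f2128c181cc1c1cc122122cbe,
    0xa1a1646161ca181cca61284212a18c6161c212c612a1a1c1eced,
    0x18841c1c1c1e19319391e141412dd2414c1c1c1ecd1c1c1e8d1c1c1e8ed,
    0xa1a162a31a322751498111ad81e18529c51a122a381aba9a1a1c2147a1c9e21281a5a1c2219a1b1b1ea128ac88c5ded]]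

noncomputable def n1493 : Ent := ⟨e1493, noF, [], [], []⟩

def c1493 : PLift (Cov.check n1493.C.D v1493 = true) := ⟨by decide +kernel⟩

def b1493 : PLift (entF (fidx ts) 400 1493 n1493 = true) := ⟨by decide +kernel⟩

theorem g1493 : GoodF (fidx ts) 400 1493 := GoodF.ofV v1493 n1493 c1493.down b1493.down

/-- 477574:1233/1 -/
noncomputable def e1494 : SCfg where
  D := {
    a := 6
    L := 10
    kp := 7
    inn := [(0, 1), (0, 2), (1, 0), (1, 2), (1, 3), (2, 0), (2, 1), (2, 3), (2, 4), (3, 1), (3, 2), (3,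
      4), (4, 2), (4, 3), (4, 5), (5, 4)]
    mix := [(0, 0), (0, 1), (1, 1), (1, 2), (1, 3), (1, 4), (2, 0), (2, 5), (2, 6), (3, 4), (3, 7), (4,
      5), (4, 7), (4, 8), (4, 9), (5, 1), (5, 8), (5, 9)]
    cl := [2, 0, 6, 7, 0, 1, 5, 1, 3, 4]
    chq := [(0, 5), (3, 4), (4, 3), (5, 0)]
    rng := [(0, 1), (0, 6), (1, 0), (1, 2), (1, 8), (1, 9), (2, 1), (2, 3), (3, 2), (3, 4), (4, 3), (4,
      7), (5, 6), (5, 9), (6, 0), (6, 5), (7, 4), (7, 8), (8, 1), (8, 7), (9, 1), (9, 5)]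
    lev := [] }
  links := [[1, 2, 6, 7], [2, 0, 7, 8, 9, 10, 3], [6, 0, 1, 3, 4, 11, 12], [4, 2, 1, 10, 13], [11, 2, 3,
    13, 14, 5, 15], [15, 4, 14, 7]]
  P := {
    a := 6
    N := 16
    nb := [198, 1933, 6235, 9238, 59436, 49296, 4229, 49507, 642, 1282, 8714, 36884, 2116, 17432,
      8368, 2224]
    tri := [(0, 1, 2), (0, 1, 7), (0, 2, 6), (0, 6, 7), (1, 2, 3), (1, 3, 10), (1, 7, 8), (1, 8, 9),
      (1, 9, 10), (2, 3, 4), (2, 4, 11), (2, 6, 12), (2, 11, 12), (3, 4, 13), (3, 10, 13), (4, 5,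
      14), (4, 5, 15), (4, 11, 15), (4, 13, 14), (5, 7, 14), (5, 7, 15)]
    fin := [0, 1, 1, 1, 4, 5, 0, 1, 8, 9, 1, 4, 12, 4, 5, 15]
    chd := [(1, 12), (5, 15)]
    steps := [(0, 6), (1, 2), (1, 3), (1, 7), (1, 10), (4, 13), (4, 11), (5, 14)] }
  rep := [1, 4, 0, 5, 15, 12, 8, 9]

noncomputable def v1494 : Cov.CovD where
  P := 3
  N := 5
  pl := [0, 2, 3]
  lev := [⟨[], [], [], [2], [(1, 0, [5])]⟩,
    ⟨[], [(0, 0)], [(0, 0)], [6, 7], [(1, 0, [5]), (4, 0, [5])]⟩,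
    ⟨[(0, 1)], [(0, 0), (0, 1), (0, 5), (1, 0), (1, 1), (1, 5)], [(1, 5)], [2], [(5, 1,
      []), (6, 5, [0])]⟩,
    ⟨[(0, 1), (0, 2), (1, 2)], [(1, 0), (1, 1), (2, 0), (2, 1), (2, 5)], [(0, 1)], [], [(4,
      0, [5]), (7, 1, [])]⟩,
    ⟨[(0, 2), (1, 2), (1, 3), (2, 3)], [(2, 1), (2, 3), (2, 4), (2, 5), (3, 0), (3, 1), (3,
      3), (3, 4)], [(1, 1), (1, 3), (1, 4), (3, 4)], [], [(5, 1, []), (7, 1, []), (8, 3,
      [4]), (9, 4, [3])]⟩,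
    ⟨[(2, 4), (3, 4)], [(0, 0), (1, 0), (4, 0), (4, 1), (4, 3), (4, 4)], [(0, 3), (0, 4),
      (3, 4)], [], [(1, 0, [5]), (8, 3, [4]), (9, 4, [3])]⟩]
  Ta := [((1, 0), 0, 2), ((1, 2), 0, 6), ((1, 8), 0, 3), ((1, 9), 0, 4), ((4, 3), 0, 7), ((4, 7),
    0, 1), ((5, 6), 1, 5), ((5, 9), 1, 4), ((7, 4), 1, 0), ((7, 8), 1, 3)]
  Tb := [((0, 1, 6), 2, 0, 5), ((1, 0, 2), 0, 2, 6), ((1, 0, 8), 0, 2, 3), ((1, 0, 9), 0, 2, 4),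
    ((1, 2, 8), 0, 6, 3), ((1, 2, 9), 0, 6, 4), ((1, 8, 9), 0, 3, 4), ((2, 1, 3), 6, 0, 7),
    ((3, 2, 4), 7, 6, 0), ((4, 3, 7), 0, 7, 1), ((5, 6, 9), 1, 5, 4), ((6, 0, 5), 5, 2, 1),
    ((7, 4, 8), 1, 0, 3), ((8, 1, 7), 3, 0, 1), ((9, 1, 5), 4, 0, 1)]
  Tc := []
  Td := [((0, 5), (1, 0), 2), ((0, 5), (1, 2), 6), ((0, 5), (1, 8), 3), ((0, 5), (1, 9), 4), ((0,
    5), (4, 3), 7), ((0, 5), (4, 7), 1), ((3, 4), (8, 1), 0), ((3, 4), (8, 7), 1), ((4, 3),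
    (9, 1), 0), ((4, 3), (9, 5), 1), ((5, 0), (6, 0), 2), ((5, 0), (6, 5), 1)]
  G := [[0, 0, 0xe12e12ce18e18cae14e12c46, 0x212842d25218842d2921844829c5e4,
    0x214842d29212842d2921842588c9e2], [0, 0, 0xe142e142e14e14ce8,
    0x21444829c921444829c9621842588c58c, 0x826d42829445221444829c9e8], [0, 0, 0,
    0xe14e125e12e125e14e145e8, 0xe12e129e14e129e14e189e2], [0, 0x112e41141e81112e81e4, 0,
    0x214812d45e14e18ca144a589e8, 0xe142e14261416989e8]]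

noncomputable def n1494 : Ent := ⟨e1494, noF, [], [], []⟩

def c1494 : PLift (Cov.check n1494.C.D v1494 = true) := ⟨by decide +kernel⟩

def b1494 : PLift (entF (fidx ts) 400 1494 n1494 = true) := ⟨by decide +kernel⟩

theorem g1494 : GoodF (fidx ts) 400 1494 := GoodF.ofV v1494 n1494 c1494.down b1494.down

/-- 477574:1233/2 -/
noncomputable def e1495 : SCfg where
  D := {
    a := 6
    L := 10
    kp := 7
    inn := [(0, 1), (0, 2), (1, 0), (1, 2), (1, 3), (2, 0), (2, 1), (2, 3), (2, 4), (3, 1), (3, 2), (3,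
      4), (4, 2), (4, 3), (4, 5), (5, 4)]
    mix := [(0, 0), (0, 1), (1, 1), (1, 2), (1, 3), (1, 4), (2, 0), (2, 5), (2, 6), (3, 4), (3, 7), (4,
      5), (4, 7), (4, 8), (4, 9), (5, 2), (5, 8), (5, 9)]
    cl := [4, 0, 2, 7, 0, 3, 6, 1, 3, 5]
    chq := [(1, 4), (1, 6), (4, 1), (6, 1)]
    rng := [(0, 1), (0, 6), (1, 0), (1, 2), (2, 1), (2, 3), (2, 8), (2, 9), (3, 2), (3, 4), (4, 3), (4,
      7), (5, 6), (5, 9), (6, 0), (6, 5), (7, 4), (7, 8), (8, 2), (8, 7), (9, 2), (9, 5)]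
    lev := [] }
  links := [[1, 2, 6, 7], [2, 0, 7, 8, 9, 10, 3], [6, 0, 1, 3, 4, 11, 12], [4, 2, 1, 10, 13], [11, 2, 3,
    13, 14, 5, 15], [15, 4, 14, 8]]
  P := {
    a := 6
    N := 16
    nb := [198, 1933, 6235, 9238, 59436, 49424, 4229, 323, 49826, 1282, 8714, 36884, 2116, 17432,
      8496, 2352]
    tri := [(0, 1, 2), (0, 1, 7), (0, 2, 6), (0, 6, 7), (1, 2, 3), (1, 3, 10), (1, 7, 8), (1, 8, 9),
      (1, 9, 10), (2, 3, 4), (2, 4, 11), (2, 6, 12), (2, 11, 12), (3, 4, 13), (3, 10, 13), (4, 5,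
      14), (4, 5, 15), (4, 11, 15), (4, 13, 14), (5, 8, 14), (5, 8, 15)]
    fin := [0, 1, 2, 2, 4, 5, 0, 1, 5, 9, 1, 4, 12, 2, 4, 15]
    chd := [(0, 2), (12, 2)]
    steps := [(0, 6), (1, 7), (1, 10), (2, 3), (2, 13), (4, 14), (4, 11), (5, 8)] }
  rep := [1, 2, 5, 4, 0, 15, 12, 9]

noncomputable def v1495 : Cov.CovD where
  P := 3
  N := 5
  pl := [2, 3, 9]
  lev := [⟨[], [], [(0, 4)], [], [(0, 4, [1]), (1, 0, [])]⟩,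
    ⟨[], [(0, 0), (0, 4)], [(0, 0)], [2, 7], [(1, 0, []), (4, 0, [])]⟩,
    ⟨[(0, 1)], [(0, 0), (0, 3), (0, 4), (0, 6), (1, 0), (1, 3), (1, 4), (1, 6)], [(3, 4),
      (3, 6), (4, 6)], [], [(0, 4, [1]), (5, 3, []), (6, 6, [1])]⟩,
    ⟨[(0, 1), (0, 2), (1, 2)], [(1, 0), (1, 1), (2, 0), (2, 1), (2, 3), (2, 4), (2, 6)],
      [(0, 1)], [], [(4, 0, []), (7, 1, [4, 6])]⟩,
    ⟨[(0, 2), (1, 2), (1, 3), (2, 3)], [(2, 1), (2, 3), (2, 4), (2, 6), (3, 0), (3, 1), (3,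
      3)], [(1, 3), (3, 3)], [5], [(5, 3, []), (7, 1, [4, 6]), (8, 3, [])]⟩,
    ⟨[(2, 4), (3, 4)], [(4, 1), (4, 3)], [], [2, 5], [(8, 3, [])]⟩]
  Ta := [((1, 0), 0, 4), ((1, 2), 0, 2), ((4, 3), 0, 7), ((4, 7), 0, 1), ((5, 6), 3, 6), ((5, 9),
    3, 5), ((8, 2), 3, 2), ((8, 7), 3, 1)]
  Tb := [((0, 1, 6), 4, 0, 6), ((1, 0, 2), 0, 4, 2), ((2, 1, 3), 2, 0, 7), ((2, 1, 8), 2, 0, 3),
    ((2, 1, 9), 2, 0, 5), ((2, 3, 8), 2, 7, 3), ((2, 3, 9), 2, 7, 5), ((2, 8, 9), 2, 3, 5),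
    ((3, 2, 4), 7, 2, 0), ((4, 3, 7), 0, 7, 1), ((5, 6, 9), 3, 6, 5), ((6, 0, 5), 6, 4, 3),
    ((7, 4, 8), 1, 0, 3), ((8, 2, 7), 3, 2, 1), ((9, 2, 5), 5, 2, 3)]
  Tc := [(1, 4, 6)]
  Td := [((1, 4), (7, 4), 0), ((1, 4), (7, 8), 3), ((1, 6), (7, 4), 0), ((1, 6), (7, 8), 3), ((4,
    1), (0, 1), 0), ((4, 1), (0, 6), 6), ((6, 1), (6, 0), 4), ((6, 1), (6, 5), 3)]
  G := [[0, 0, 0xa1428c182a1826a142c1416e, 0x1184c5244819c2c1184c524158892cc,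
    0x828d421864821d48258ba8119c521189a9232d86ac], [0, 0, 0xe142e142ce142e182cc,
    0x1184c528194452c44819c24158892cc, 0x821d428821d421122c5822d49a2a1d41182c9832d4d2e], [0,
    0x44ce21419e81c11ce41441e81cc, 0, 0x41588c244819c2c1, 0x285412121d42816418682a1d8ea9],
    [0, 0x841e21841e21c841e21841e21c6, 0, 0x41588c241588c2c1, 0x832d412821d422a1d42a1d8ca3]]

noncomputable def n1495 : Ent := ⟨e1495, noF, [], [], []⟩

def c1495 : PLift (Cov.check n1495.C.D v1495 = true) := ⟨by decide +kernel⟩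

def b1495 : PLift (entF (fidx ts) 400 1495 n1495 = true) := ⟨by decide +kernel⟩

theorem g1495 : GoodF (fidx ts) 400 1495 := GoodF.ofV v1495 n1495 c1495.down b1495.down

/-- 477574:1233/3 -/
noncomputable def e1496 : SCfg where
  D := {
    a := 6
    L := 10
    kp := 7
    inn := [(0, 1), (0, 2), (1, 0), (1, 2), (1, 3), (2, 0), (2, 1), (2, 3), (2, 4), (3, 1), (3, 2), (3,
      4), (4, 2), (4, 3), (4, 5), (5, 4)]
    mix := [(0, 0), (0, 1), (1, 1), (1, 2), (1, 3), (1, 4), (2, 0), (2, 5), (2, 6), (3, 4), (3, 7), (4,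
      5), (4, 7), (4, 8), (4, 9), (5, 3), (5, 8), (5, 9)]
    cl := [4, 0, 7, 2, 0, 3, 6, 1, 3, 5]
    chq := [(1, 4), (1, 6), (4, 1), (6, 1)]
    rng := [(0, 1), (0, 6), (1, 0), (1, 2), (2, 1), (2, 3), (3, 2), (3, 4), (3, 8), (3, 9), (4, 3), (4,
      7), (5, 6), (5, 9), (6, 0), (6, 5), (7, 4), (7, 8), (8, 3), (8, 7), (9, 3), (9, 5)]
    lev := [] }
  links := [[1, 2, 6, 7], [2, 0, 7, 8, 9, 10, 3], [6, 0, 1, 3, 4, 11, 12], [4, 2, 1, 10, 13], [11, 2, 3,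
    13, 14, 5, 15], [15, 4, 14, 9]]
  P := {
    a := 6
    N := 16
    nb := [198, 1933, 6235, 9238, 59436, 49680, 4229, 323, 642, 50466, 8714, 36884, 2116, 17432, 8752,
      2608]
    tri := [(0, 1, 2), (0, 1, 7), (0, 2, 6), (0, 6, 7), (1, 2, 3), (1, 3, 10), (1, 7, 8), (1, 8, 9),
      (1, 9, 10), (2, 3, 4), (2, 4, 11), (2, 6, 12), (2, 11, 12), (3, 4, 13), (3, 10, 13), (4, 5,
      14), (4, 5, 15), (4, 11, 15), (4, 13, 14), (5, 9, 14), (5, 9, 15)]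
    fin := [0, 1, 2, 2, 4, 5, 0, 1, 8, 5, 1, 4, 12, 2, 4, 15]
    chd := [(0, 2), (12, 2)]
    steps := [(0, 6), (1, 7), (1, 10), (2, 3), (2, 13), (4, 14), (4, 11), (5, 9)] }
  rep := [1, 2, 5, 4, 0, 15, 12, 8]

noncomputable def v1496 : Cov.CovD where
  P := 3
  N := 5
  pl := [2, 3, 9]
  lev := [⟨[], [], [(0, 4)], [], [(0, 4, [1]), (1, 0, [])]⟩,
    ⟨[], [(0, 0), (0, 4)], [(0, 0)], [2, 7], [(1, 0, []), (4, 0, [])]⟩,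
    ⟨[(0, 1)], [(0, 0), (0, 3), (0, 4), (0, 6), (1, 0), (1, 3), (1, 4), (1, 6)], [(3, 4),
      (3, 6), (4, 6)], [], [(0, 4, [1]), (5, 3, []), (6, 6, [1])]⟩,
    ⟨[(0, 1), (0, 2), (1, 2)], [(1, 0), (1, 1), (2, 0), (2, 1), (2, 3), (2, 4), (2, 6)],
      [(0, 1)], [], [(4, 0, []), (7, 1, [4, 6])]⟩,
    ⟨[(0, 2), (1, 2), (1, 3), (2, 3)], [(2, 1), (2, 3), (2, 4), (2, 6), (3, 0), (3, 1), (3,
      3)], [(1, 3), (3, 3)], [5], [(5, 3, []), (7, 1, [4, 6]), (8, 3, [])]⟩,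
    ⟨[(2, 4), (3, 4)], [(4, 1), (4, 3)], [], [2, 5], [(8, 3, [])]⟩]
  Ta := [((1, 0), 0, 4), ((1, 2), 0, 7), ((4, 3), 0, 2), ((4, 7), 0, 1), ((5, 6), 3, 6), ((5, 9),
    3, 5), ((8, 3), 3, 2), ((8, 7), 3, 1)]
  Tb := [((0, 1, 6), 4, 0, 6), ((1, 0, 2), 0, 4, 7), ((2, 1, 3), 7, 0, 2), ((3, 2, 4), 2, 7, 0),
    ((3, 2, 8), 2, 7, 3), ((3, 2, 9), 2, 7, 5), ((3, 4, 8), 2, 0, 3), ((3, 4, 9), 2, 0, 5),
    ((3, 8, 9), 2, 3, 5), ((4, 3, 7), 0, 2, 1), ((5, 6, 9), 3, 6, 5), ((6, 0, 5), 6, 4, 3),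
    ((7, 4, 8), 1, 0, 3), ((8, 3, 7), 3, 2, 1), ((9, 3, 5), 5, 2, 3)]
  Tc := [(1, 4, 6)]
  Td := [((1, 4), (7, 4), 0), ((1, 4), (7, 8), 3), ((1, 6), (7, 4), 0), ((1, 6), (7, 8), 3), ((4,
    1), (0, 1), 0), ((4, 1), (0, 6), 6), ((6, 1), (6, 0), 4), ((6, 1), (6, 5), 3)]
  G := [[0, 0, 0, 0x819445244819c2c44819c2541d82cc,
    0x828d421861192d82858ba2151892191b8828d46ac], [0, 0, 0,
    0x1184c528194452c81944521184c92cc, 0x821d428a1528c2221d424829c9a2a1d41182c9832d4d2e], [0,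
    0x48ce4141ce21c115e21145e81cc, 0xc182c182c1, 0x891d4244819c2c1,
    0x186812a2528c212c43168121d4ea9], [0, 0x841e21841e21c841e21841e21c6, 0xe182e182c1,
    0x44819c244819c2c1, 0x832d412821d422a1d42a1d8ca3]]

noncomputable def n1496 : Ent := ⟨e1496, noF, [], [], []⟩

def c1496 : PLift (Cov.check n1496.C.D v1496 = true) := ⟨by decide +kernel⟩

def b1496 : PLift (entF (fidx ts) 400 1496 n1496 = true) := ⟨by decide +kernel⟩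

theorem g1496 : GoodF (fidx ts) 400 1496 := GoodF.ofV v1496 n1496 c1496.down b1496.down

/-- 477574:1233 -/
noncomputable def e1497 : SCfg where
  D := {
    a := 6
    L := 11
    kp := 8
    inn := [(0, 1), (0, 2), (1, 0), (1, 2), (1, 3), (2, 0), (2, 1), (2, 3), (2, 4), (3, 1), (3, 2), (3,
      4), (4, 2), (4, 3), (4, 5), (5, 4)]
    mix := [(0, 0), (0, 1), (1, 1), (1, 2), (1, 3), (1, 4), (2, 0), (2, 5), (2, 6), (3, 4), (3, 7), (4,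
      5), (4, 7), (4, 8), (4, 9), (5, 8), (5, 9), (5, 10)]
    cl := [2, 0, 6, 7, 0, 3, 5, 1, 3, 4, 8]
    chq := [(1, 2), (1, 5), (2, 1), (5, 1)]
    rng := [(0, 1), (0, 6), (1, 0), (1, 2), (2, 1), (2, 3), (3, 2), (3, 4), (4, 3), (4, 7), (5, 6), (5,
      9), (6, 0), (6, 5), (7, 4), (7, 8), (8, 7), (8, 10), (9, 5), (9, 10), (10, 8), (10, 9)]
    lev := [] }
  links := [[1, 2, 6, 7], [2, 0, 7, 8, 9, 10, 3], [6, 0, 1, 3, 4, 11, 12], [4, 2, 1, 10, 13], [11, 2, 3,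
    13, 14, 5, 15], [15, 4, 14, 16]]
  P := {
    a := 6
    N := 17
    nb := [198, 1933, 6235, 9238, 59436, 114704, 4229, 323, 642, 1282, 8714, 36884, 2116, 17432,
      73776, 67632, 49184]
    tri := [(0, 1, 2), (0, 1, 7), (0, 2, 6), (0, 6, 7), (1, 2, 3), (1, 3, 10), (1, 7, 8), (1, 8, 9),
      (1, 9, 10), (2, 3, 4), (2, 4, 11), (2, 6, 12), (2, 11, 12), (3, 4, 13), (3, 10, 13), (4, 5,
      14), (4, 5, 15), (4, 11, 15), (4, 13, 14), (5, 14, 16), (5, 15, 16)]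
    fin := [0, 1, 2, 2, 4, 4, 0, 1, 8, 9, 1, 4, 12, 2, 4, 15, 16]
    chd := [(0, 2), (12, 2)]
    steps := [(0, 6), (1, 7), (1, 10), (2, 3), (2, 13), (4, 5), (4, 14), (4, 11)] }
  rep := [1, 2, 0, 4, 15, 12, 8, 9, 16]

noncomputable def v1497 : Cov.CovD where
  P := 3
  N := 6
  pl := [2, 3, 9, 10]
  lev := [⟨[], [], [(0, 2)], [], [(0, 2, [1]), (1, 0, [])]⟩,
    ⟨[], [(0, 0), (0, 2)], [(0, 0)], [6, 7], [(1, 0, []), (4, 0, [])]⟩,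
    ⟨[(0, 1)], [(0, 0), (0, 2), (0, 3), (0, 5), (1, 0), (1, 2), (1, 3), (1, 5)], [(2, 3),
      (2, 5), (3, 5)], [], [(0, 2, [1]), (5, 3, []), (6, 5, [1])]⟩,
    ⟨[(0, 1), (0, 2), (1, 2)], [(1, 0), (1, 1), (2, 0), (2, 1), (2, 2), (2, 3), (2, 5)],
      [(0, 1)], [], [(4, 0, []), (7, 1, [2, 5])]⟩,
    ⟨[(0, 2), (1, 2), (1, 3), (2, 3)], [(2, 1), (2, 2), (2, 3), (2, 5), (3, 0), (3, 1), (3,
      3)], [(1, 3), (3, 3)], [4], [(5, 3, []), (7, 1, [2, 5]), (8, 3, [])]⟩,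
    ⟨[(2, 4), (3, 4)], [(4, 1), (4, 3)], [], [4, 8], [(8, 3, [])]⟩]
  Ta := [((1, 0), 0, 2), ((1, 2), 0, 6), ((4, 3), 0, 7), ((4, 7), 0, 1), ((5, 6), 3, 5), ((5, 9),
    3, 4), ((8, 7), 3, 1), ((8, 10), 3, 8)]
  Tb := [((0, 1, 6), 2, 0, 5), ((1, 0, 2), 0, 2, 6), ((2, 1, 3), 6, 0, 7), ((3, 2, 4), 7, 6, 0),
    ((4, 3, 7), 0, 7, 1), ((5, 6, 9), 3, 5, 4), ((6, 0, 5), 5, 2, 3), ((7, 4, 8), 1, 0, 3),
    ((8, 7, 10), 3, 1, 8), ((9, 5, 10), 4, 3, 8), ((10, 8, 9), 8, 3, 4)]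
  Tc := [(1, 2, 5)]
  Td := [((1, 2), (7, 4), 0), ((1, 2), (7, 8), 3), ((1, 5), (7, 4), 0), ((1, 5), (7, 8), 3), ((2,
    1), (0, 1), 0), ((2, 1), (0, 6), 5), ((5, 1), (6, 0), 2), ((5, 1), (6, 5), 3)]
  G := [[0, 0, 0x31a6c923159c9274a1d838a9cd4ee4, 0xa9cd42635a89275a4811da9ce34de4,
    0xc156c52593d821d64563d88e38be8], [0, 0, 0x71e8942635a8c2635a892b1e4544a2ccaec,
    0x635a89231a6c922b96865616b29c9e4, 0xa396452635a89281942e2b9e4574b29c92a], [0,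
    0x9ace4195ce21653e81e8, 0, 0xa93d4256cd821d474b968dc38de8,
    0x8e5412a93d42563d8271c4563d8ae9], [0, 0x53698c122951ea193a5461e4, 0,
    0x64a39c22b9864a8c56635a8c22c7748a9, 0x37c88c12635a8c2635a8c26afd444839cae3]]

noncomputable def n1497 : Ent := ⟨e1497, noF, [], [], [(7, 16, [1580044410770988437309982408355971841652082177953823432505695232001, 0]), (8, 16, [1580044410770988437309982408355971841652082177953823432505695236097, 0]), (9, 16, [1580044410770988437309982408355971841652082177953823432505695240193, 0])]⟩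

def c1497 : PLift (Cov.check n1497.C.D v1497 = true) := ⟨by decide +kernel⟩

def b1497 : PLift (entF (fidx ts) 400 1497 n1497 = true) := ⟨by decide +kernel⟩

theorem g1497 : GoodF (fidx ts) 400 1497 := GoodF.ofV v1497 n1497 c1497.down b1497.down

/-- 477574:1234 -/
noncomputable def e1498 : SCfg where
  D := {
    a := 6
    L := 11
    kp := 8
    inn := [(0, 1), (0, 2), (1, 0), (1, 2), (1, 3), (2, 0), (2, 1), (2, 3), (2, 4), (3, 1), (3, 2), (3,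
      4), (4, 2), (4, 3), (4, 5), (5, 4)]
    mix := [(0, 0), (0, 1), (1, 1), (1, 2), (1, 3), (1, 4), (2, 0), (2, 5), (2, 6), (3, 4), (3, 7), (4,
      5), (4, 7), (4, 8), (4, 9), (5, 5), (5, 9), (5, 10)]
    cl := [2, 0, 6, 7, 0, 3, 5, 1, 3, 4, 8]
    chq := [(1, 2), (1, 5), (2, 1), (5, 1)]
    rng := [(0, 1), (0, 6), (1, 0), (1, 2), (2, 1), (2, 3), (3, 2), (3, 4), (4, 3), (4, 7), (5, 6), (5,
      10), (6, 0), (6, 5), (7, 4), (7, 8), (8, 7), (8, 9), (9, 8), (9, 10), (10, 5), (10, 9)]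
    lev := [] }
  links := [[1, 2, 6, 7], [2, 0, 7, 8, 9, 10, 3], [6, 0, 1, 3, 4, 11, 12], [4, 2, 1, 10, 13], [11, 2, 3,
    13, 14, 15, 5], [11, 4, 15, 16]]
  P := {
    a := 6
    N := 17
    nb := [198, 1933, 6235, 9238, 59436, 100368, 4229, 323, 642, 1282, 8714, 69684, 2116, 17432,
      40976, 81968, 34848]
    tri := [(0, 1, 2), (0, 1, 7), (0, 2, 6), (0, 6, 7), (1, 2, 3), (1, 3, 10), (1, 7, 8), (1, 8, 9),
      (1, 9, 10), (2, 3, 4), (2, 4, 11), (2, 6, 12), (2, 11, 12), (3, 4, 13), (3, 10, 13), (4, 5,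
      11), (4, 5, 15), (4, 13, 14), (4, 14, 15), (5, 11, 16), (5, 15, 16)]
    fin := [0, 1, 2, 2, 4, 4, 0, 1, 8, 9, 1, 4, 12, 2, 4, 15, 16]
    chd := [(0, 2), (12, 2)]
    steps := [(0, 6), (1, 7), (1, 10), (2, 3), (2, 13), (4, 5), (4, 14), (4, 11)] }
  rep := [1, 2, 0, 4, 15, 12, 8, 9, 16]

noncomputable def v1498 : Cov.CovD where
  P := 3
  N := 6
  pl := [2, 3, 9, 10]
  lev := [⟨[], [], [(0, 2)], [], [(0, 2, [1]), (1, 0, [])]⟩,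
    ⟨[], [(0, 0), (0, 2)], [(0, 0)], [6, 7], [(1, 0, []), (4, 0, [])]⟩,
    ⟨[(0, 1)], [(0, 0), (0, 2), (0, 3), (0, 5), (1, 0), (1, 2), (1, 3), (1, 5)], [(2, 3),
      (2, 5), (3, 5)], [], [(0, 2, [1]), (5, 3, []), (6, 5, [1])]⟩,
    ⟨[(0, 1), (0, 2), (1, 2)], [(1, 0), (1, 1), (2, 0), (2, 1), (2, 2), (2, 3), (2, 5)],
      [(0, 1)], [], [(4, 0, []), (7, 1, [2, 5])]⟩,
    ⟨[(0, 2), (1, 2), (1, 3), (2, 3)], [(2, 1), (2, 2), (2, 3), (2, 5), (3, 0), (3, 1), (3,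
      3)], [(1, 3), (3, 3)], [4], [(5, 3, []), (7, 1, [2, 5]), (8, 3, [])]⟩,
    ⟨[(2, 4), (3, 4)], [(2, 3), (4, 1), (4, 3)], [], [4, 8], [(5, 3, [])]⟩]
  Ta := [((1, 0), 0, 2), ((1, 2), 0, 6), ((4, 3), 0, 7), ((4, 7), 0, 1), ((5, 6), 3, 5), ((5,
    10), 3, 8), ((8, 7), 3, 1), ((8, 9), 3, 4)]
  Tb := [((0, 1, 6), 2, 0, 5), ((1, 0, 2), 0, 2, 6), ((2, 1, 3), 6, 0, 7), ((3, 2, 4), 7, 6, 0),
    ((4, 3, 7), 0, 7, 1), ((5, 6, 10), 3, 5, 8), ((6, 0, 5), 5, 2, 3), ((7, 4, 8), 1, 0, 3),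
    ((8, 7, 9), 3, 1, 4), ((9, 8, 10), 4, 3, 8), ((10, 5, 9), 8, 3, 4)]
  Tc := [(1, 2, 5)]
  Td := [((1, 2), (7, 4), 0), ((1, 2), (7, 8), 3), ((1, 5), (7, 4), 0), ((1, 5), (7, 8), 3), ((2,
    1), (0, 1), 0), ((2, 1), (0, 6), 5), ((5, 1), (6, 0), 2), ((5, 1), (6, 5), 3)]
  G := [[0, 0, 0xa39645231a6c92b1c86564a39cae28124778c2a,
    0x24142635a8c231a6c92eb528ac71e4a9b356f4dec, 0xa23d4452635a892e86164a39c71a78be38482a],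
    [0, 0, 0x59cd42635a892c3116c5135a89c2a, 0x593d42c1a6c92247746ace89e4,
    0x31d6c5231a6c52c423d44564a49c92a], [0, 0x93a54613295c6153698c1e8, 0,
    0xa842635a8c26ac7f8379af85e635827adaf48a9, 0x716929c12635a8c2635a8c2e8628c435a2ccae3],
    [0, 0x65ce2195ce21153e88c1e8, 0, 0x635a8c256cd8224774e24e49e4,
    0x5edd82844264d88c36635a8c263948a9]]

noncomputable def n1498 : Ent := ⟨e1498, noF, [], [], []⟩

def c1498 : PLift (Cov.check n1498.C.D v1498 = true) := ⟨by decide +kernel⟩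

def b1498 : PLift (entF (fidx ts) 400 1498 n1498 = true) := ⟨by decide +kernel⟩

theorem g1498 : GoodF (fidx ts) 400 1498 := GoodF.ofV v1498 n1498 c1498.down b1498.down

/-- 456745:1236/2 -/
noncomputable def e1499 : SCfg where
  D := {
    a := 6
    L := 9
    kp := 6
    inn := [(0, 1), (1, 0), (1, 2), (2, 1), (2, 3), (3, 2), (3, 4), (3, 5), (4, 3), (5, 3)]
    mix := [(0, 0), (0, 1), (0, 2), (1, 0), (1, 2), (1, 3), (2, 2), (2, 3), (2, 4), (2, 5), (3, 3), (3,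
      5), (3, 6), (3, 7), (4, 1), (4, 5), (4, 6), (5, 0), (5, 3), (5, 7), (5, 8)]
    cl := [0, 2, 1, 3, 5, 3, 4, 3, 6]
    chq := [(0, 1), (0, 5), (1, 0), (5, 0)]
    rng := [(0, 1), (0, 3), (0, 8), (1, 0), (1, 2), (1, 5), (1, 6), (2, 1), (2, 4), (3, 0), (4, 2), (4,
      5), (5, 1), (5, 4), (6, 1), (6, 7), (7, 6), (7, 8), (8, 0), (8, 7)]
    lev := [] }
  links := [[1, 6, 7, 8], [6, 0, 8, 2, 9], [9, 1, 8, 10, 11, 3], [9, 2, 11, 4, 12, 13, 5], [12, 3, 11,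
    7], [9, 3, 13, 14, 6]]
  P := {
    a := 6
    N := 15
    nb := [450, 837, 3850, 14900, 6280, 25160, 17059, 6481, 1159, 110, 2308, 1180, 8344, 20520, 8288]
    tri := [(0, 1, 6), (0, 1, 8), (0, 6, 7), (0, 7, 8), (1, 2, 8), (1, 2, 9), (1, 6, 9), (2, 3, 9), (2,
      3, 11), (2, 8, 10), (2, 10, 11), (3, 4, 11), (3, 4, 12), (3, 5, 9), (3, 5, 13), (3, 12, 13),
      (4, 7, 11), (4, 7, 12), (5, 6, 9), (5, 6, 14), (5, 13, 14)]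
    fin := [0, 0, 0, 3, 4, 0, 0, 4, 8, 3, 10, 3, 12, 3, 14]
    chd := [(0, 8), (0, 10)]
    steps := [(0, 1), (0, 2), (0, 6), (3, 11), (3, 13), (3, 9), (0, 5), (4, 7)] }
  rep := [0, 8, 4, 3, 12, 10, 14]

noncomputable def v1499 : Cov.CovD where
  P := 3
  N := 4
  pl := [1, 6, 8]
  lev := [⟨[], [], [(0, 1)], [2], [(0, 0, [1, 5]), (2, 1, [0])]⟩,
    ⟨[], [(0, 0), (0, 1), (0, 3)], [(0, 1), (0, 3), (1, 3)], [], [(0, 0, [1, 5]), (2, 1,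
      [0]), (3, 3, [])]⟩,
    ⟨[(0, 1)], [(0, 1), (1, 0), (1, 1), (1, 3), (1, 5)], [(1, 3), (1, 5), (3, 3), (3, 5)],
      [], [(2, 1, [0]), (3, 3, []), (4, 5, [0]), (5, 3, [])]⟩,
    ⟨[(1, 2)], [(1, 3), (2, 1), (2, 3), (2, 5)], [(3, 3)], [4], [(3, 3, []), (5, 3, []),
      (7, 3, [])]⟩,
    ⟨[(2, 3)], [(2, 3), (3, 3)], [], [2, 4], [(5, 3, [])]⟩,
    ⟨[(2, 3), (3, 4)], [(0, 0), (1, 0), (1, 3), (2, 3), (3, 0), (3, 3)], [(0, 3), (3, 3)],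
      [6], [(0, 0, [1, 5]), (3, 3, []), (7, 3, [])]⟩]
  Ta := [((3, 0), 3, 0), ((5, 1), 3, 2), ((5, 4), 3, 5), ((7, 6), 3, 4), ((7, 8), 3, 6)]
  Tb := [((0, 1, 3), 0, 2, 3), ((0, 1, 8), 0, 2, 6), ((0, 3, 8), 0, 3, 6), ((1, 0, 2), 2, 0, 1),
    ((1, 0, 5), 2, 0, 3), ((1, 0, 6), 2, 0, 4), ((1, 2, 5), 2, 1, 3), ((1, 2, 6), 2, 1, 4),
    ((1, 5, 6), 2, 3, 4), ((2, 1, 4), 1, 2, 5), ((4, 2, 5), 5, 1, 3), ((5, 1, 4), 3, 2, 5),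
    ((6, 1, 7), 4, 2, 3), ((7, 6, 8), 3, 4, 6), ((8, 0, 7), 6, 0, 3)]
  Tc := [(0, 1, 5)]
  Td := [((0, 1), (0, 1), 2), ((0, 1), (0, 3), 3), ((0, 1), (0, 8), 6), ((0, 5), (0, 1), 2), ((0,
    5), (0, 3), 3), ((0, 5), (0, 8), 6), ((1, 0), (2, 1), 2), ((1, 0), (2, 4), 5), ((5, 0),
    (4, 2), 1), ((5, 0), (4, 5), 3)]
  G := [[0, 0x181811e124, 0xe411e811c4, 0xa421612612682dc8, 0x61c1ca1d2ae8e25d48], [0,
    0x181411e184, 0xeeee1148, 0xa6ed2184, 0x2c9c2ebc23e148], [0, 0x111411ce124, 0xeea1184,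
    0xee52184, 0xe21e8e25548]]

noncomputable def n1499 : Ent := ⟨e1499, noF, [], [], []⟩

def c1499 : PLift (Cov.check n1499.C.D v1499 = true) := ⟨by decide +kernel⟩

def b1499 : PLift (entF (fidx ts) 400 1499 n1499 = true) := ⟨by decide +kernel⟩

theorem g1499 : GoodF (fidx ts) 400 1499 := GoodF.ofV v1499 n1499 c1499.down b1499.down

/-- 456745:1236/3 -/
noncomputable def e1500 : SCfg where
  D := {
    a := 6
    L := 9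
    kp := 6
    inn := [(0, 1), (1, 0), (1, 2), (2, 1), (2, 3), (3, 2), (3, 4), (3, 5), (4, 3), (5, 3)]
    mix := [(0, 0), (0, 1), (0, 2), (1, 0), (1, 2), (1, 3), (2, 2), (2, 3), (2, 4), (2, 5), (3, 3), (3,
      5), (3, 6), (3, 7), (4, 5), (4, 6), (4, 8), (5, 0), (5, 1), (5, 3), (5, 7)]
    cl := [1, 3, 2, 0, 5, 0, 4, 0, 6]
    chq := [(1, 2), (1, 5), (2, 1), (5, 1)]
    rng := [(0, 1), (0, 3), (1, 0), (1, 2), (1, 7), (2, 1), (2, 4), (3, 0), (4, 2), (4, 5), (5, 4), (5,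
      8), (6, 7), (6, 8), (7, 1), (7, 6), (8, 5), (8, 6)]
    lev := [] }
  links := [[1, 6, 7, 8], [6, 0, 8, 2, 9], [9, 1, 8, 10, 11, 3], [9, 2, 11, 4, 12, 13, 5], [12, 3, 11,
    14], [9, 3, 13, 7, 6]]
  P := {
    a := 6
    N := 15
    nb := [450, 837, 3850, 14900, 22536, 8904, 675, 8545, 1159, 110, 2308, 17436, 24600, 4264, 6160]
    tri := [(0, 1, 6), (0, 1, 8), (0, 6, 7), (0, 7, 8), (1, 2, 8), (1, 2, 9), (1, 6, 9), (2, 3, 9), (2,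
      3, 11), (2, 8, 10), (2, 10, 11), (3, 4, 11), (3, 4, 12), (3, 5, 9), (3, 5, 13), (3, 12, 13),
      (4, 11, 14), (4, 12, 14), (5, 6, 7), (5, 6, 9), (5, 7, 13)]
    fin := [0, 0, 0, 3, 3, 0, 0, 7, 8, 3, 10, 3, 12, 3, 14]
    chd := [(0, 8), (0, 10)]
    steps := [(0, 1), (0, 2), (0, 6), (3, 4), (3, 11), (3, 13), (3, 9), (0, 5)] }
  rep := [3, 0, 8, 7, 12, 10, 14]

noncomputable def v1500 : Cov.CovD where
  P := 3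
  N := 4
  pl := [1, 6, 8]
  lev := [⟨[], [], [(1, 2)], [3], [(0, 1, [2, 5]), (2, 2, [1])]⟩,
    ⟨[], [(0, 0), (0, 1), (0, 2)], [(0, 1), (0, 2), (1, 2)], [], [(0, 1, [2, 5]), (2, 2,
      [1]), (3, 0, [])]⟩,
    ⟨[(0, 1)], [(0, 2), (1, 0), (1, 1), (1, 2), (1, 5)], [(0, 0), (0, 2), (0, 5), (2, 5)],
      [], [(2, 2, [1]), (3, 0, []), (4, 5, [1]), (5, 0, [])]⟩,
    ⟨[(1, 2)], [(1, 0), (2, 0), (2, 2), (2, 5)], [(0, 0)], [4], [(3, 0, []), (5, 0, []),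
      (7, 0, [])]⟩,
    ⟨[(2, 3)], [(2, 0), (3, 0)], [], [4, 6], [(5, 0, [])]⟩,
    ⟨[(2, 3), (3, 4)], [(0, 1), (1, 0), (1, 1), (2, 0), (3, 0), (3, 1)], [(0, 0), (0, 1)],
      [3], [(0, 1, [2, 5]), (3, 0, []), (7, 0, [])]⟩]
  Ta := [((3, 0), 0, 1), ((5, 4), 0, 5), ((5, 8), 0, 6), ((7, 1), 0, 3), ((7, 6), 0, 4)]
  Tb := [((0, 1, 3), 1, 3, 0), ((1, 0, 2), 3, 1, 2), ((1, 0, 7), 3, 1, 0), ((1, 2, 7), 3, 2, 0),
    ((2, 1, 4), 2, 3, 5), ((4, 2, 5), 5, 2, 0), ((5, 4, 8), 0, 5, 6), ((6, 7, 8), 4, 0, 6),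
    ((7, 1, 6), 0, 3, 4), ((8, 5, 6), 6, 0, 4)]
  Tc := [(1, 2, 5)]
  Td := [((1, 2), (0, 1), 3), ((1, 2), (0, 3), 0), ((1, 5), (0, 1), 3), ((1, 5), (0, 3), 0), ((2,
    1), (2, 1), 3), ((2, 1), (2, 4), 5), ((5, 1), (4, 2), 2), ((5, 1), (4, 5), 0)]
  G := [[0, 0x2181a8181ac4412162141ac8c, 0x8181c284141c24c, 0x2121c281, 0xc1c1c281], [0, 0,
    0x28a888e88e28444e24644e28c, 0x22a226c241, 0x64ce8ace84ce281], [0, 0,
    0x81886c2444a41c28c, 0x2141c2421226c289, 0x81886c28449443c289]]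

noncomputable def n1500 : Ent := ⟨e1500, noF, [], [], []⟩

def c1500 : PLift (Cov.check n1500.C.D v1500 = true) := ⟨by decide +kernel⟩

def b1500 : PLift (entF (fidx ts) 400 1500 n1500 = true) := ⟨by decide +kernel⟩

theorem g1500 : GoodF (fidx ts) 400 1500 := GoodF.ofV v1500 n1500 c1500.down b1500.down

/-- 456745:1236/1 -/
noncomputable def e1501 : SCfg where
  D := {
    a := 6
    L := 10
    kp := 7
    inn := [(0, 1), (1, 0), (1, 2), (2, 1), (2, 3), (3, 2), (3, 4), (3, 5), (4, 3), (5, 3)]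
    mix := [(0, 0), (0, 1), (0, 2), (1, 0), (1, 2), (1, 3), (2, 2), (2, 3), (2, 4), (2, 5), (3, 3), (3,
      5), (3, 6), (3, 7), (4, 5), (4, 6), (4, 8), (5, 0), (5, 3), (5, 7), (5, 9)]
    cl := [1, 5, 2, 0, 4, 0, 3, 0, 6, 7]
    chq := [(1, 2), (1, 4), (2, 1), (4, 1)]
    rng := [(0, 1), (0, 3), (0, 9), (1, 0), (1, 2), (2, 1), (2, 4), (3, 0), (4, 2), (4, 5), (5, 4), (5,
      8), (6, 7), (6, 8), (7, 6), (7, 9), (8, 5), (8, 6), (9, 0), (9, 7)]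
    lev := [] }
  links := [[1, 6, 7, 8], [6, 0, 8, 2, 9], [9, 1, 8, 10, 11, 3], [9, 2, 11, 4, 12, 13, 5], [12, 3, 11,
    14], [9, 3, 13, 15, 6]]
  P := {
    a := 6
    N := 16
    nb := [450, 837, 3850, 14900, 22536, 41544, 33443, 321, 1159, 110, 2308, 17436, 24600, 36904,
      6160, 8288]
    tri := [(0, 1, 6), (0, 1, 8), (0, 6, 7), (0, 7, 8), (1, 2, 8), (1, 2, 9), (1, 6, 9), (2, 3, 9), (2,
      3, 11), (2, 8, 10), (2, 10, 11), (3, 4, 11), (3, 4, 12), (3, 5, 9), (3, 5, 13), (3, 12, 13),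
      (4, 11, 14), (4, 12, 14), (5, 6, 9), (5, 6, 15), (5, 13, 15)]
    fin := [0, 0, 0, 3, 3, 0, 0, 7, 8, 3, 10, 3, 12, 3, 14, 15]
    chd := [(0, 8), (0, 10)]
    steps := [(0, 1), (0, 2), (0, 6), (3, 4), (3, 11), (3, 13), (3, 9), (0, 5)] }
  rep := [3, 0, 8, 12, 10, 7, 14, 15]

noncomputable def v1501 : Cov.CovD where
  P := 3
  N := 5
  pl := [1, 6, 8, 9]
  lev := [⟨[], [], [(1, 2)], [5], [(0, 1, [2, 4]), (2, 2, [1])]⟩,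
    ⟨[], [(0, 0), (0, 1), (0, 2)], [(0, 1), (0, 2), (1, 2)], [], [(0, 1, [2, 4]), (2, 2,
      [1]), (3, 0, [])]⟩,
    ⟨[(0, 1)], [(0, 2), (1, 0), (1, 1), (1, 2), (1, 4)], [(0, 0), (0, 2), (0, 4), (2, 4)],
      [], [(2, 2, [1]), (3, 0, []), (4, 4, [1]), (5, 0, [])]⟩,
    ⟨[(1, 2)], [(1, 0), (2, 0), (2, 2), (2, 4)], [(0, 0)], [3], [(3, 0, []), (5, 0, []),
      (7, 0, [])]⟩,
    ⟨[(2, 3)], [(2, 0), (3, 0)], [], [3, 6], [(5, 0, [])]⟩,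
    ⟨[(2, 3), (3, 4)], [(0, 1), (1, 0), (1, 1), (2, 0), (3, 0), (3, 1)], [(0, 0), (0, 1)],
      [7], [(0, 1, [2, 4]), (3, 0, []), (7, 0, [])]⟩]
  Ta := [((3, 0), 0, 1), ((5, 4), 0, 4), ((5, 8), 0, 6), ((7, 6), 0, 3), ((7, 9), 0, 7)]
  Tb := [((0, 1, 3), 1, 5, 0), ((0, 1, 9), 1, 5, 7), ((0, 3, 9), 1, 0, 7), ((1, 0, 2), 5, 1, 2),
    ((2, 1, 4), 2, 5, 4), ((4, 2, 5), 4, 2, 0), ((5, 4, 8), 0, 4, 6), ((6, 7, 8), 3, 0, 6),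
    ((7, 6, 9), 0, 3, 7), ((8, 5, 6), 6, 0, 3), ((9, 0, 7), 7, 1, 0)]
  Tc := [(1, 2, 4)]
  Td := [((1, 2), (0, 1), 5), ((1, 2), (0, 3), 0), ((1, 2), (0, 9), 7), ((1, 4), (0, 1), 5), ((1,
    4), (0, 3), 0), ((1, 4), (0, 9), 7), ((2, 1), (2, 1), 5), ((2, 1), (2, 4), 4), ((4, 1),
    (4, 2), 2), ((4, 1), (4, 5), 0)]
  G := [[0, 0x6161a61c1ac461a166161ac8c, 0xc1c1c28c1c1c28c, 0x2121c282121c24c,
    0xc1c1c28c1c1c289], [0, 0, 0x64ce8ace84ce2864ce8ace84ce24c, 0x22a226c2422a226c28c,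
    0x64ce8ace84ce2164ce8ace84ce289], [0, 0, 0xccc7c1c24cc348cdc24c, 0x22a21c2422a21c249,
    0xc148c4fc286cac188e289]]

noncomputable def n1501 : Ent := ⟨e1501, noF, [], [], [(7, 14, [385746751338780685620664494392815470296102193487288376378634241, 0]), (7, 15, [360035742630636841211993100915356868655746945586763691013816321, 0])]⟩

def c1501 : PLift (Cov.check n1501.C.D v1501 = true) := ⟨by decide +kernel⟩

def b1501 : PLift (entF (fidx ts) 400 1501 n1501 = true) := ⟨by decide +kernel⟩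

theorem g1501 : GoodF (fidx ts) 400 1501 := GoodF.ofV v1501 n1501 c1501.down b1501.down

/-- 456745:1236/4 -/
noncomputable def e1502 : SCfg where
  D := {
    a := 6
    L := 10
    kp := 7
    inn := [(0, 1), (1, 0), (1, 2), (2, 1), (2, 3), (3, 2), (3, 4), (3, 5), (4, 3), (5, 3)]
    mix := [(0, 0), (0, 1), (0, 2), (1, 0), (1, 2), (1, 3), (2, 2), (2, 3), (2, 4), (2, 5), (3, 3), (3,
      5), (3, 6), (3, 7), (4, 1), (4, 5), (4, 6), (5, 3), (5, 7), (5, 8), (5, 9)]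
    cl := [2, 3, 1, 0, 5, 0, 4, 0, 6, 7]
    chq := [(1, 2), (2, 1), (2, 5), (5, 2)]
    rng := [(0, 1), (0, 3), (1, 0), (1, 2), (1, 5), (1, 6), (2, 1), (2, 4), (3, 0), (3, 9), (4, 2), (4,
      5), (5, 1), (5, 4), (6, 1), (6, 7), (7, 6), (7, 8), (8, 7), (8, 9), (9, 3), (9, 8)]
    lev := [] }
  links := [[1, 6, 7, 8], [6, 0, 8, 2, 9], [9, 1, 8, 10, 11, 3], [9, 2, 11, 4, 12, 13, 5], [12, 3, 11,
    7], [9, 3, 13, 14, 15]]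
  P := {
    a := 6
    N := 16
    nb := [450, 837, 3850, 14900, 6280, 57864, 643, 6481, 1159, 32878, 2308, 1180, 8344, 20520, 40992,
      16928]
    tri := [(0, 1, 6), (0, 1, 8), (0, 6, 7), (0, 7, 8), (1, 2, 8), (1, 2, 9), (1, 6, 9), (2, 3, 9), (2,
      3, 11), (2, 8, 10), (2, 10, 11), (3, 4, 11), (3, 4, 12), (3, 5, 9), (3, 5, 13), (3, 12, 13),
      (4, 7, 11), (4, 7, 12), (5, 9, 15), (5, 13, 14), (5, 14, 15)]
    fin := [0, 0, 0, 3, 4, 3, 0, 4, 8, 3, 10, 3, 12, 3, 14, 15]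
    chd := [(0, 8), (0, 10)]
    steps := [(0, 1), (0, 2), (0, 6), (3, 5), (3, 11), (3, 13), (3, 9), (4, 7)] }
  rep := [3, 8, 0, 4, 12, 10, 14, 15]

noncomputable def v1502 : Cov.CovD where
  P := 3
  N := 5
  pl := [1, 6, 8, 9]
  lev := [⟨[], [], [(1, 2)], [3], [(0, 2, [1, 5]), (2, 1, [2])]⟩,
    ⟨[], [(0, 0), (0, 1), (0, 2)], [(0, 1), (0, 2), (1, 2)], [], [(0, 2, [1, 5]), (2, 1,
      [2]), (3, 0, [])]⟩,
    ⟨[(0, 1)], [(0, 1), (1, 0), (1, 1), (1, 2), (1, 5)], [(0, 0), (0, 1), (0, 5), (1, 5)],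
      [], [(2, 1, [2]), (3, 0, []), (4, 5, [2]), (5, 0, [])]⟩,
    ⟨[(1, 2)], [(1, 0), (2, 0), (2, 1), (2, 5)], [(0, 0)], [4], [(3, 0, []), (5, 0, []),
      (7, 0, [])]⟩,
    ⟨[(2, 3)], [(2, 0), (3, 0)], [], [3, 4], [(5, 0, [])]⟩,
    ⟨[(2, 3), (3, 4)], [(1, 0), (2, 0), (3, 0)], [(0, 0)], [6, 7], [(3, 0, []), (7, 0,
      [])]⟩]
  Ta := [((3, 0), 0, 2), ((3, 9), 0, 7), ((5, 1), 0, 3), ((5, 4), 0, 5), ((7, 6), 0, 4), ((7, 8),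
    0, 6)]
  Tb := [((0, 1, 3), 2, 3, 0), ((1, 0, 2), 3, 2, 1), ((1, 0, 5), 3, 2, 0), ((1, 0, 6), 3, 2, 4),
    ((1, 2, 5), 3, 1, 0), ((1, 2, 6), 3, 1, 4), ((1, 5, 6), 3, 0, 4), ((2, 1, 4), 1, 3, 5),
    ((3, 0, 9), 0, 2, 7), ((4, 2, 5), 5, 1, 0), ((5, 1, 4), 0, 3, 5), ((6, 1, 7), 4, 3, 0),
    ((7, 6, 8), 0, 4, 6), ((8, 7, 9), 6, 0, 7), ((9, 3, 8), 7, 0, 6)]
  Tc := [(2, 1, 5)]
  Td := [((1, 2), (2, 1), 3), ((1, 2), (2, 4), 5), ((2, 1), (0, 1), 3), ((2, 1), (0, 3), 0), ((2,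
    5), (0, 1), 3), ((2, 5), (0, 3), 0), ((5, 2), (4, 2), 1), ((5, 2), (4, 5), 0)]
  G := [[0, 0xe1e1c24e1e1c24c, 0xe1e16e1e1ac4e1e16e4e1ac8c, 0xe1e2c241, 0xe1e1a481], [0,
    0x68a8ea84ce284e6a46c28c, 0, 0x4e6a46c2468a8eac245, 0x68c82ae86e48e2682cea489], [0,
    0x68ae1c28e1a46c24c, 0, 0xe1e2c241, 0xe12ec2fa481]]

noncomputable def n1502 : Ent := ⟨e1502, noF, [], [], [(6, 15, [360035742630636841211993100915356868655746945586763691013812225, 0])]⟩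

def c1502 : PLift (Cov.check n1502.C.D v1502 = true) := ⟨by decide +kernel⟩

def b1502 : PLift (entF (fidx ts) 400 1502 n1502 = true) := ⟨by decide +kernel⟩

theorem g1502 : GoodF (fidx ts) 400 1502 := GoodF.ofV v1502 n1502 c1502.down b1502.down

/-- 456745:1236/5 -/
noncomputable def e1503 : SCfg where
  D := {
    a := 6
    L := 10
    kp := 7
    inn := [(0, 1), (1, 0), (1, 2), (2, 1), (2, 3), (3, 2), (3, 4), (3, 5), (4, 3), (5, 3)]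
    mix := [(0, 0), (0, 1), (0, 2), (1, 0), (1, 2), (1, 3), (2, 2), (2, 3), (2, 4), (2, 5), (3, 3), (3,
      5), (3, 6), (3, 7), (4, 5), (4, 6), (4, 8), (5, 1), (5, 3), (5, 7), (5, 9)]
    cl := [2, 3, 1, 0, 5, 0, 4, 0, 6, 7]
    chq := [(1, 2), (2, 1), (2, 5), (5, 2)]
    rng := [(0, 1), (0, 3), (1, 0), (1, 2), (1, 7), (1, 9), (2, 1), (2, 4), (3, 0), (3, 9), (4, 2), (4,
      5), (5, 4), (5, 8), (6, 7), (6, 8), (7, 1), (7, 6), (8, 5), (8, 6), (9, 1), (9, 3)]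
    lev := [] }
  links := [[1, 6, 7, 8], [6, 0, 8, 2, 9], [9, 1, 8, 10, 11, 3], [9, 2, 11, 4, 12, 13, 5], [12, 3, 11,
    14], [9, 3, 13, 7, 15]]
  P := {
    a := 6
    N := 16
    nb := [450, 837, 3850, 14900, 22536, 41608, 643, 41313, 1159, 32878, 2308, 17436, 24600, 4264,
      6160, 672]
    tri := [(0, 1, 6), (0, 1, 8), (0, 6, 7), (0, 7, 8), (1, 2, 8), (1, 2, 9), (1, 6, 9), (2, 3, 9), (2,
      3, 11), (2, 8, 10), (2, 10, 11), (3, 4, 11), (3, 4, 12), (3, 5, 9), (3, 5, 13), (3, 12, 13),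
      (4, 11, 14), (4, 12, 14), (5, 7, 13), (5, 7, 15), (5, 9, 15)]
    fin := [0, 0, 0, 3, 3, 5, 0, 5, 8, 3, 10, 3, 12, 3, 14, 15]
    chd := [(0, 8), (0, 10)]
    steps := [(0, 1), (0, 2), (0, 6), (3, 4), (3, 11), (3, 13), (3, 9), (5, 7)] }
  rep := [3, 8, 0, 5, 12, 10, 14, 15]

noncomputable def v1503 : Cov.CovD where
  P := 3
  N := 5
  pl := [1, 6, 8, 9]
  lev := [⟨[], [], [(1, 2)], [3], [(0, 2, [1, 5]), (2, 1, [2])]⟩,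
    ⟨[], [(0, 0), (0, 1), (0, 2)], [(0, 1), (0, 2), (1, 2)], [], [(0, 2, [1, 5]), (2, 1,
      [2]), (3, 0, [])]⟩,
    ⟨[(0, 1)], [(0, 1), (1, 0), (1, 1), (1, 2), (1, 5)], [(0, 0), (0, 1), (0, 5), (1, 5)],
      [], [(2, 1, [2]), (3, 0, []), (4, 5, [2]), (5, 0, [])]⟩,
    ⟨[(1, 2)], [(1, 0), (2, 0), (2, 1), (2, 5)], [(0, 0)], [4], [(3, 0, []), (5, 0, []),
      (7, 0, [])]⟩,
    ⟨[(2, 3)], [(2, 0), (3, 0)], [], [4, 6], [(5, 0, [])]⟩,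
    ⟨[(2, 3), (3, 4)], [(1, 0), (2, 0), (3, 0)], [(0, 0)], [3, 7], [(3, 0, []), (7, 0,
      [])]⟩]
  Ta := [((3, 0), 0, 2), ((3, 9), 0, 7), ((5, 4), 0, 5), ((5, 8), 0, 6), ((7, 1), 0, 3), ((7, 6),
    0, 4)]
  Tb := [((0, 1, 3), 2, 3, 0), ((1, 0, 2), 3, 2, 1), ((1, 0, 7), 3, 2, 0), ((1, 0, 9), 3, 2, 7),
    ((1, 2, 7), 3, 1, 0), ((1, 2, 9), 3, 1, 7), ((1, 7, 9), 3, 0, 7), ((2, 1, 4), 1, 3, 5),
    ((3, 0, 9), 0, 2, 7), ((4, 2, 5), 5, 1, 0), ((5, 4, 8), 0, 5, 6), ((6, 7, 8), 4, 0, 6),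
    ((7, 1, 6), 0, 3, 4), ((8, 5, 6), 6, 0, 4), ((9, 1, 3), 7, 3, 0)]
  Tc := [(2, 1, 5)]
  Td := [((1, 2), (2, 1), 3), ((1, 2), (2, 4), 5), ((2, 1), (0, 1), 3), ((2, 1), (0, 3), 0), ((2,
    5), (0, 1), 3), ((2, 5), (0, 3), 0), ((5, 2), (4, 2), 1), ((5, 2), (4, 5), 0)]
  G := [[0, 0xa1a1c286161c24c, 0xa1a16a1a1ac4616166161ac8c, 0xe1e1c241, 0xe1e1a481], [0,
    0x8822aa8aae88ea4442646e26644e68c, 0, 0x84c284c264ee8aeece81, 0x82a46e2e82a8eceec81], [0,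
    0xa1aa6c2466a61c24c, 0, 0x465c1c24a1ae6c245, 0xc1ac6a4866c61a489]]

noncomputable def n1503 : Ent := ⟨e1503, noF, [], [], [(6, 15, [360035742630636841211993100915356868655746945586763691013816321, 0])]⟩

def c1503 : PLift (Cov.check n1503.C.D v1503 = true) := ⟨by decide +kernel⟩

def b1503 : PLift (entF (fidx ts) 400 1503 n1503 = true) := ⟨by decide +kernel⟩

theorem g1503 : GoodF (fidx ts) 400 1503 := GoodF.ofV v1503 n1503 c1503.down b1503.down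

/-- 456745:1236 -/
noncomputable def e1504 : SCfg where
  D := {
    a := 6
    L := 11
    kp := 8
    inn := [(0, 1), (1, 0), (1, 2), (2, 1), (2, 3), (3, 2), (3, 4), (3, 5), (4, 3), (5, 3)]
    mix := [(0, 0), (0, 1), (0, 2), (1, 0), (1, 2), (1, 3), (2, 2), (2, 3), (2, 4), (2, 5), (3, 3), (3,
      5), (3, 6), (3, 7), (4, 5), (4, 6), (4, 8), (5, 3), (5, 7), (5, 9), (5, 10)]
    cl := [1, 5, 3, 0, 4, 0, 2, 0, 6, 7, 8]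
    chq := [(1, 3), (1, 4), (3, 1), (4, 1)]
    rng := [(0, 1), (0, 3), (1, 0), (1, 2), (2, 1), (2, 4), (3, 0), (3, 10), (4, 2), (4, 5), (5, 4),
      (5, 8), (6, 7), (6, 8), (7, 6), (7, 9), (8, 5), (8, 6), (9, 7), (9, 10), (10, 3), (10, 9)]
    lev := [] }
  links := [[1, 6, 7, 8], [6, 0, 8, 2, 9], [9, 1, 8, 10, 11, 3], [9, 2, 11, 4, 12, 13, 5], [12, 3, 11,
    14], [9, 3, 13, 15, 16]]
  P := {
    a := 6
    N := 17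
    nb := [450, 837, 3850, 14900, 22536, 107016, 643, 321, 1159, 65646, 2308, 17436, 24600, 36904,
      6160, 73760, 33312]
    tri := [(0, 1, 6), (0, 1, 8), (0, 6, 7), (0, 7, 8), (1, 2, 8), (1, 2, 9), (1, 6, 9), (2, 3, 9), (2,
      3, 11), (2, 8, 10), (2, 10, 11), (3, 4, 11), (3, 4, 12), (3, 5, 9), (3, 5, 13), (3, 12, 13),
      (4, 11, 14), (4, 12, 14), (5, 9, 16), (5, 13, 15), (5, 15, 16)]
    fin := [0, 0, 0, 3, 3, 3, 0, 7, 8, 3, 10, 3, 12, 3, 14, 15, 16]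
    chd := [(0, 8), (0, 10)]
    steps := [(0, 1), (0, 2), (0, 6), (3, 4), (3, 5), (3, 11), (3, 13), (3, 9)] }
  rep := [3, 0, 12, 8, 10, 7, 14, 15, 16]

noncomputable def v1504 : Cov.CovD where
  P := 3
  N := 6
  pl := [1, 6, 8, 9, 10]
  lev := [⟨[], [], [(1, 3)], [5], [(0, 1, [3, 4]), (2, 3, [1])]⟩,
    ⟨[], [(0, 0), (0, 1), (0, 3)], [(0, 1), (0, 3), (1, 3)], [], [(0, 1, [3, 4]), (2, 3,
      [1]), (3, 0, [])]⟩,
    ⟨[(0, 1)], [(0, 3), (1, 0), (1, 1), (1, 3), (1, 4)], [(0, 0), (0, 3), (0, 4), (3, 4)],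
      [], [(2, 3, [1]), (3, 0, []), (4, 4, [1]), (5, 0, [])]⟩,
    ⟨[(1, 2)], [(1, 0), (2, 0), (2, 3), (2, 4)], [(0, 0)], [2], [(3, 0, []), (5, 0, []),
      (7, 0, [])]⟩,
    ⟨[(2, 3)], [(2, 0), (3, 0)], [], [2, 6], [(5, 0, [])]⟩,
    ⟨[(2, 3), (3, 4)], [(1, 0), (2, 0), (3, 0)], [(0, 0)], [7, 8], [(3, 0, []), (7, 0,
      [])]⟩]
  Ta := [((3, 0), 0, 1), ((3, 10), 0, 8), ((5, 4), 0, 4), ((5, 8), 0, 6), ((7, 6), 0, 2), ((7,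
    9), 0, 7)]
  Tb := [((0, 1, 3), 1, 5, 0), ((1, 0, 2), 5, 1, 3), ((2, 1, 4), 3, 5, 4), ((3, 0, 10), 0, 1, 8),
    ((4, 2, 5), 4, 3, 0), ((5, 4, 8), 0, 4, 6), ((6, 7, 8), 2, 0, 6), ((7, 6, 9), 0, 2, 7),
    ((8, 5, 6), 6, 0, 2), ((9, 7, 10), 7, 0, 8), ((10, 3, 9), 8, 0, 7)]
  Tc := [(1, 3, 4)]
  Td := [((1, 3), (0, 1), 5), ((1, 3), (0, 3), 0), ((1, 4), (0, 1), 5), ((1, 4), (0, 3), 0), ((3,
    1), (2, 1), 5), ((3, 1), (2, 4), 4), ((4, 1), (4, 2), 3), ((4, 1), (4, 5), 0)]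
  G := [[0, 0xe1426181ce18ce148ee14e18ce18e146ae14e18ae18e186ce, 0, 0xe1428e1424e142e182cd,
    0xe1828e1824e182e182cd], [0, 0, 0, 0x44eacc2844eacc2464e8cc244eacc2cd,
    0x8826ea88a6882896ea88a2882468826ea88aa8826ea88a6cd], [0, 0, 0xee6828ee6824eea426cae82cd,
    0xe1828e1824e142e142cd, 0xe1828e1824e182e182cd]]

noncomputable def n1504 : Ent := ⟨e1504, noF, [], [], [(6, 16, [1580044410770988437309982408355971841652082177953823432505695260673, 0]), (7, 14, [1685382413448253767852309107433119732572617628602273068445371064321, 0]), (7, 15, [1685356702439545624007900436039642273970977273354372543760006246401, 0])]⟩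

def c1504 : PLift (Cov.check n1504.C.D v1504 = true) := ⟨by decide +kernel⟩

def b1504 : PLift (entF (fidx ts) 400 1504 n1504 = true) := ⟨by decide +kernel⟩

theorem g1504 : GoodF (fidx ts) 400 1504 := GoodF.ofV v1504 n1504 c1504.down b1504.down

/-- 456745:1239/2 -/
noncomputable def e1505 : SCfg where
  D := {
    a := 6
    L := 9
    kp := 6
    inn := [(0, 1), (1, 0), (1, 2), (2, 1), (2, 3), (3, 2), (3, 4), (3, 5), (4, 3), (5, 3)]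
    mix := [(0, 0), (0, 1), (0, 2), (1, 0), (1, 2), (1, 3), (2, 2), (2, 3), (2, 4), (2, 5), (3, 3), (3,
      5), (3, 6), (3, 7), (4, 1), (4, 6), (4, 7), (5, 0), (5, 3), (5, 7), (5, 8)]
    cl := [0, 2, 1, 3, 5, 3, 4, 3, 6]
    chq := [(0, 1), (0, 5), (1, 0), (5, 0)]
    rng := [(0, 1), (0, 3), (0, 8), (1, 0), (1, 2), (1, 6), (1, 7), (2, 1), (2, 4), (3, 0), (4, 2), (4,
      5), (5, 4), (5, 6), (6, 1), (6, 5), (7, 1), (7, 8), (8, 0), (8, 7)]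
    lev := [] }
  links := [[1, 6, 7, 8], [6, 0, 8, 2, 9], [9, 1, 8, 10, 11, 3], [9, 2, 11, 12, 4, 13, 5], [13, 3, 12,
    7], [9, 3, 13, 14, 6]]
  P := {
    a := 6
    N := 15
    nb := [450, 837, 3850, 14900, 12424, 25160, 17059, 12625, 1159, 110, 2308, 5132, 2200, 16568,
      8288]
    tri := [(0, 1, 6), (0, 1, 8), (0, 6, 7), (0, 7, 8), (1, 2, 8), (1, 2, 9), (1, 6, 9), (2, 3, 9), (2,
      3, 11), (2, 8, 10), (2, 10, 11), (3, 4, 12), (3, 4, 13), (3, 5, 9), (3, 5, 13), (3, 11, 12),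
      (4, 7, 12), (4, 7, 13), (5, 6, 9), (5, 6, 14), (5, 13, 14)]
    fin := [0, 0, 0, 3, 4, 0, 0, 4, 8, 3, 10, 3, 12, 3, 14]
    chd := [(0, 8), (0, 10)]
    steps := [(0, 1), (0, 2), (0, 6), (3, 11), (3, 13), (3, 9), (0, 5), (4, 7)] }
  rep := [0, 8, 4, 3, 12, 10, 14]

noncomputable def v1505 : Cov.CovD where
  P := 3
  N := 4
  pl := [1, 6, 8]
  lev := [⟨[], [], [(0, 1)], [2], [(0, 0, [1, 5]), (2, 1, [0])]⟩,
    ⟨[], [(0, 0), (0, 1), (0, 3)], [(0, 1), (0, 3), (1, 3)], [], [(0, 0, [1, 5]), (2, 1,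
      [0]), (3, 3, [])]⟩,
    ⟨[(0, 1)], [(0, 1), (1, 0), (1, 1), (1, 3), (1, 5)], [(1, 3), (1, 5), (3, 3), (3, 5)],
      [], [(2, 1, [0]), (3, 3, []), (4, 5, [0]), (5, 3, [])]⟩,
    ⟨[(1, 2)], [(1, 3), (2, 1), (2, 3), (2, 5)], [(3, 3)], [4], [(3, 3, []), (5, 3, []),
      (7, 3, [])]⟩,
    ⟨[(2, 3)], [(3, 3)], [], [2, 4], [(7, 3, [])]⟩,
    ⟨[(2, 3), (3, 4)], [(0, 0), (1, 0), (1, 3), (2, 3), (3, 0), (3, 3), (4, 3)], [(0, 3),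
      (3, 3)], [6], [(0, 0, [1, 5]), (3, 3, []), (7, 3, [])]⟩]
  Ta := [((3, 0), 3, 0), ((5, 4), 3, 5), ((5, 6), 3, 4), ((7, 1), 3, 2), ((7, 8), 3, 6)]
  Tb := [((0, 1, 3), 0, 2, 3), ((0, 1, 8), 0, 2, 6), ((0, 3, 8), 0, 3, 6), ((1, 0, 2), 2, 0, 1),
    ((1, 0, 6), 2, 0, 4), ((1, 0, 7), 2, 0, 3), ((1, 2, 6), 2, 1, 4), ((1, 2, 7), 2, 1, 3),
    ((1, 6, 7), 2, 4, 3), ((2, 1, 4), 1, 2, 5), ((4, 2, 5), 5, 1, 3), ((5, 4, 6), 3, 5, 4),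
    ((6, 1, 5), 4, 2, 3), ((7, 1, 8), 3, 2, 6), ((8, 0, 7), 6, 0, 3)]
  Tc := [(0, 1, 5)]
  Td := [((0, 1), (0, 1), 2), ((0, 1), (0, 3), 3), ((0, 1), (0, 8), 6), ((0, 5), (0, 1), 2), ((0,
    5), (0, 3), 3), ((0, 5), (0, 8), 6), ((1, 0), (2, 1), 2), ((1, 0), (2, 4), 5), ((5, 0),
    (4, 2), 1), ((5, 0), (4, 5), 3)]
  G := [[0, 0x181811e124, 0xe411e811c4, 0xa421612612682dc8, 0x61c1ca1d2ae8e25d48], [0,
    0x141411e128, 0xeec1148, 0xee92184, 0x11e1a12e2f148], [0, 0x181411e124, 0xeeee1184,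
    0xa6ed2184, 0x68982ebc23e148]]

noncomputable def n1505 : Ent := ⟨e1505, noF, [], [], []⟩

def c1505 : PLift (Cov.check n1505.C.D v1505 = true) := ⟨by decide +kernel⟩

def b1505 : PLift (entF (fidx ts) 400 1505 n1505 = true) := ⟨by decide +kernel⟩

theorem g1505 : GoodF (fidx ts) 400 1505 := GoodF.ofV v1505 n1505 c1505.down b1505.down

/-- 456745:1239/3 -/
noncomputable def e1506 : SCfg where
  D := {
    a := 6
    L := 9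
    kp := 6
    inn := [(0, 1), (1, 0), (1, 2), (2, 1), (2, 3), (3, 2), (3, 4), (3, 5), (4, 3), (5, 3)]
    mix := [(0, 0), (0, 1), (0, 2), (1, 0), (1, 2), (1, 3), (2, 2), (2, 3), (2, 4), (2, 5), (3, 3), (3,
      5), (3, 6), (3, 7), (4, 6), (4, 7), (4, 8), (5, 0), (5, 1), (5, 3), (5, 7)]
    cl := [1, 3, 2, 0, 5, 0, 4, 0, 6]
    chq := [(1, 2), (1, 5), (2, 1), (5, 1)]
    rng := [(0, 1), (0, 3), (1, 0), (1, 2), (1, 7), (2, 1), (2, 4), (3, 0), (4, 2), (4, 5), (5, 4), (5,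
      6), (6, 5), (6, 8), (7, 1), (7, 8), (8, 6), (8, 7)]
    lev := [] }
  links := [[1, 6, 7, 8], [6, 0, 8, 2, 9], [9, 1, 8, 10, 11, 3], [9, 2, 11, 12, 4, 13, 5], [13, 3, 12,
    14], [9, 3, 13, 7, 6]]
  P := {
    a := 6
    N := 15
    nb := [450, 837, 3850, 14900, 28680, 8904, 675, 8545, 1159, 110, 2308, 5132, 18456, 16568, 12304]
    tri := [(0, 1, 6), (0, 1, 8), (0, 6, 7), (0, 7, 8), (1, 2, 8), (1, 2, 9), (1, 6, 9), (2, 3, 9), (2,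
      3, 11), (2, 8, 10), (2, 10, 11), (3, 4, 12), (3, 4, 13), (3, 5, 9), (3, 5, 13), (3, 11, 12),
      (4, 12, 14), (4, 13, 14), (5, 6, 7), (5, 6, 9), (5, 7, 13)]
    fin := [0, 0, 0, 3, 3, 0, 0, 7, 8, 3, 10, 3, 12, 3, 14]
    chd := [(0, 8), (0, 10)]
    steps := [(0, 1), (0, 2), (0, 6), (3, 4), (3, 11), (3, 13), (3, 9), (0, 5)] }
  rep := [3, 0, 8, 7, 12, 10, 14]

noncomputable def v1506 : Cov.CovD where
  P := 3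
  N := 4
  pl := [1, 6, 8]
  lev := [⟨[], [], [(1, 2)], [3], [(0, 1, [2, 5]), (2, 2, [1])]⟩,
    ⟨[], [(0, 0), (0, 1), (0, 2)], [(0, 1), (0, 2), (1, 2)], [], [(0, 1, [2, 5]), (2, 2,
      [1]), (3, 0, [])]⟩,
    ⟨[(0, 1)], [(0, 2), (1, 0), (1, 1), (1, 2), (1, 5)], [(0, 0), (0, 2), (0, 5), (2, 5)],
      [], [(2, 2, [1]), (3, 0, []), (4, 5, [1]), (5, 0, [])]⟩,
    ⟨[(1, 2)], [(1, 0), (2, 0), (2, 2), (2, 5)], [(0, 0)], [4], [(3, 0, []), (5, 0, []),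
      (7, 0, [])]⟩,
    ⟨[(2, 3)], [(3, 0)], [], [4, 6], [(7, 0, [])]⟩,
    ⟨[(2, 3), (3, 4)], [(0, 1), (1, 0), (1, 1), (2, 0), (3, 0), (3, 1), (4, 0)], [(0, 0),
      (0, 1)], [3], [(0, 1, [2, 5]), (3, 0, []), (7, 0, [])]⟩]
  Ta := [((3, 0), 0, 1), ((5, 4), 0, 5), ((5, 6), 0, 4), ((7, 1), 0, 3), ((7, 8), 0, 6)]
  Tb := [((0, 1, 3), 1, 3, 0), ((1, 0, 2), 3, 1, 2), ((1, 0, 7), 3, 1, 0), ((1, 2, 7), 3, 2, 0),
    ((2, 1, 4), 2, 3, 5), ((4, 2, 5), 5, 2, 0), ((5, 4, 6), 0, 5, 4), ((6, 5, 8), 4, 0, 6),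
    ((7, 1, 8), 0, 3, 6), ((8, 6, 7), 6, 4, 0)]
  Tc := [(1, 2, 5)]
  Td := [((1, 2), (0, 1), 3), ((1, 2), (0, 3), 0), ((1, 5), (0, 1), 3), ((1, 5), (0, 3), 0), ((2,
    1), (2, 1), 3), ((2, 1), (2, 4), 5), ((5, 1), (4, 2), 2), ((5, 1), (4, 5), 0)]
  G := [[0, 0x2181a8181ac4412162141ac8c, 0x8181c284141c24c, 0x2121c281, 0xc1c1c281], [0, 0,
    0x81886c2444a41c28c, 0x21226c281, 0xc1cccbc281], [0, 0, 0x28a888e88e24442444e4244ea4c,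
    0x42a246c2822a286c285, 0x48a886c21644e824e84ce289]]

noncomputable def n1506 : Ent := ⟨e1506, noF, [], [], []⟩

def c1506 : PLift (Cov.check n1506.C.D v1506 = true) := ⟨by decide +kernel⟩

def b1506 : PLift (entF (fidx ts) 400 1506 n1506 = true) := ⟨by decide +kernel⟩

theorem g1506 : GoodF (fidx ts) 400 1506 := GoodF.ofV v1506 n1506 c1506.down b1506.down

/-- 456745:1239/1 -/
noncomputable def e1507 : SCfg where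
  D := {
    a := 6
    L := 10
    kp := 7
    inn := [(0, 1), (1, 0), (1, 2), (2, 1), (2, 3), (3, 2), (3, 4), (3, 5), (4, 3), (5, 3)]
    mix := [(0, 0), (0, 1), (0, 2), (1, 0), (1, 2), (1, 3), (2, 2), (2, 3), (2, 4), (2, 5), (3, 3), (3,
      5), (3, 6), (3, 7), (4, 6), (4, 7), (4, 8), (5, 0), (5, 3), (5, 7), (5, 9)]
    cl := [1, 5, 2, 0, 4, 0, 3, 0, 6, 7]
    chq := [(1, 2), (1, 4), (2, 1), (4, 1)]
    rng := [(0, 1), (0, 3), (0, 9), (1, 0), (1, 2), (2, 1), (2, 4), (3, 0), (4, 2), (4, 5), (5, 4), (5,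
      6), (6, 5), (6, 8), (7, 8), (7, 9), (8, 6), (8, 7), (9, 0), (9, 7)]
    lev := [] }
  links := [[1, 6, 7, 8], [6, 0, 8, 2, 9], [9, 1, 8, 10, 11, 3], [9, 2, 11, 12, 4, 13, 5], [13, 3, 12,
    14], [9, 3, 13, 15, 6]]
  P := {
    a := 6
    N := 16
    nb := [450, 837, 3850, 14900, 28680, 41544, 33443, 321, 1159, 110, 2308, 5132, 18456, 49208,
      12304, 8288]
    tri := [(0, 1, 6), (0, 1, 8), (0, 6, 7), (0, 7, 8), (1, 2, 8), (1, 2, 9), (1, 6, 9), (2, 3, 9), (2,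
      3, 11), (2, 8, 10), (2, 10, 11), (3, 4, 12), (3, 4, 13), (3, 5, 9), (3, 5, 13), (3, 11, 12),
      (4, 12, 14), (4, 13, 14), (5, 6, 9), (5, 6, 15), (5, 13, 15)]
    fin := [0, 0, 0, 3, 3, 0, 0, 7, 8, 3, 10, 3, 12, 3, 14, 15]
    chd := [(0, 8), (0, 10)]
    steps := [(0, 1), (0, 2), (0, 6), (3, 4), (3, 11), (3, 13), (3, 9), (0, 5)] }
  rep := [3, 0, 8, 12, 10, 7, 14, 15]

noncomputable def v1507 : Cov.CovD where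
  P := 3
  N := 5
  pl := [1, 6, 8, 9]
  lev := [⟨[], [], [(1, 2)], [5], [(0, 1, [2, 4]), (2, 2, [1])]⟩,
    ⟨[], [(0, 0), (0, 1), (0, 2)], [(0, 1), (0, 2), (1, 2)], [], [(0, 1, [2, 4]), (2, 2,
      [1]), (3, 0, [])]⟩,
    ⟨[(0, 1)], [(0, 2), (1, 0), (1, 1), (1, 2), (1, 4)], [(0, 0), (0, 2), (0, 4), (2, 4)],
      [], [(2, 2, [1]), (3, 0, []), (4, 4, [1]), (5, 0, [])]⟩,
    ⟨[(1, 2)], [(1, 0), (2, 0), (2, 2), (2, 4)], [(0, 0)], [3], [(3, 0, []), (5, 0, []),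
      (7, 0, [])]⟩,
    ⟨[(2, 3)], [(3, 0)], [], [3, 6], [(7, 0, [])]⟩,
    ⟨[(2, 3), (3, 4)], [(0, 1), (1, 0), (1, 1), (2, 0), (3, 0), (3, 1), (4, 0)], [(0, 0),
      (0, 1)], [7], [(0, 1, [2, 4]), (3, 0, []), (7, 0, [])]⟩]
  Ta := [((3, 0), 0, 1), ((5, 4), 0, 4), ((5, 6), 0, 3), ((7, 8), 0, 6), ((7, 9), 0, 7)]
  Tb := [((0, 1, 3), 1, 5, 0), ((0, 1, 9), 1, 5, 7), ((0, 3, 9), 1, 0, 7), ((1, 0, 2), 5, 1, 2),
    ((2, 1, 4), 2, 5, 4), ((4, 2, 5), 4, 2, 0), ((5, 4, 6), 0, 4, 3), ((6, 5, 8), 3, 0, 6),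
    ((7, 8, 9), 0, 6, 7), ((8, 6, 7), 6, 3, 0), ((9, 0, 7), 7, 1, 0)]
  Tc := [(1, 2, 4)]
  Td := [((1, 2), (0, 1), 5), ((1, 2), (0, 3), 0), ((1, 2), (0, 9), 7), ((1, 4), (0, 1), 5), ((1,
    4), (0, 3), 0), ((1, 4), (0, 9), 7), ((2, 1), (2, 1), 5), ((2, 1), (2, 4), 4), ((4, 1),
    (4, 2), 2), ((4, 1), (4, 5), 0)]
  G := [[0, 0x6161a61c1ac461a166161ac8c, 0xc1c1c28c1c1c28c, 0x2121c282121c24c,
    0xc1c1c28c1c1c289], [0, 0, 0xc1ac644e28cc5cc9c24c, 0x21226c2822a21c289,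
    0x4c8b8c5c28c12c6c4e289], [0, 0, 0x64ce8ace84ce2464ce8ace84ce28c, 0x22a226c2822a226c285,
    0x64ce8ace84ce2164ce8ace84ce289]]

noncomputable def n1507 : Ent := ⟨e1507, noF, [], [], [(7, 14, [385746751338780685620664494392815470296102193487288376378658817, 0]), (7, 15, [360035742630636841211993100915356868655746945586763691013840897, 0])]⟩

def c1507 : PLift (Cov.check n1507.C.D v1507 = true) := ⟨by decide +kernel⟩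

def b1507 : PLift (entF (fidx ts) 400 1507 n1507 = true) := ⟨by decide +kernel⟩

theorem g1507 : GoodF (fidx ts) 400 1507 := GoodF.ofV v1507 n1507 c1507.down b1507.down

/-- 456745:1239/4 -/
noncomputable def e1508 : SCfg where
  D := {
    a := 6
    L := 10
    kp := 7
    inn := [(0, 1), (1, 0), (1, 2), (2, 1), (2, 3), (3, 2), (3, 4), (3, 5), (4, 3), (5, 3)]
    mix := [(0, 0), (0, 1), (0, 2), (1, 0), (1, 2), (1, 3), (2, 2), (2, 3), (2, 4), (2, 5), (3, 3), (3,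
      5), (3, 6), (3, 7), (4, 1), (4, 6), (4, 7), (5, 3), (5, 7), (5, 8), (5, 9)]
    cl := [2, 3, 1, 0, 5, 0, 4, 0, 6, 7]
    chq := [(1, 2), (2, 1), (2, 5), (5, 2)]
    rng := [(0, 1), (0, 3), (1, 0), (1, 2), (1, 6), (1, 7), (2, 1), (2, 4), (3, 0), (3, 9), (4, 2), (4,
      5), (5, 4), (5, 6), (6, 1), (6, 5), (7, 1), (7, 8), (8, 7), (8, 9), (9, 3), (9, 8)]
    lev := [] }
  links := [[1, 6, 7, 8], [6, 0, 8, 2, 9], [9, 1, 8, 10, 11, 3], [9, 2, 11, 12, 4, 13, 5], [13, 3, 12,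
    7], [9, 3, 13, 14, 15]]
  P := {
    a := 6
    N := 16
    nb := [450, 837, 3850, 14900, 12424, 57864, 643, 12625, 1159, 32878, 2308, 5132, 2200, 16568,
      40992, 16928]
    tri := [(0, 1, 6), (0, 1, 8), (0, 6, 7), (0, 7, 8), (1, 2, 8), (1, 2, 9), (1, 6, 9), (2, 3, 9), (2,
      3, 11), (2, 8, 10), (2, 10, 11), (3, 4, 12), (3, 4, 13), (3, 5, 9), (3, 5, 13), (3, 11, 12),
      (4, 7, 12), (4, 7, 13), (5, 9, 15), (5, 13, 14), (5, 14, 15)]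
    fin := [0, 0, 0, 3, 4, 3, 0, 4, 8, 3, 10, 3, 12, 3, 14, 15]
    chd := [(0, 8), (0, 10)]
    steps := [(0, 1), (0, 2), (0, 6), (3, 5), (3, 11), (3, 13), (3, 9), (4, 7)] }
  rep := [3, 8, 0, 4, 12, 10, 14, 15]

noncomputable def v1508 : Cov.CovD where
  P := 3
  N := 5
  pl := [1, 6, 8, 9]
  lev := [⟨[], [], [(1, 2)], [3], [(0, 2, [1, 5]), (2, 1, [2])]⟩,
    ⟨[], [(0, 0), (0, 1), (0, 2)], [(0, 1), (0, 2), (1, 2)], [], [(0, 2, [1, 5]), (2, 1,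
      [2]), (3, 0, [])]⟩,
    ⟨[(0, 1)], [(0, 1), (1, 0), (1, 1), (1, 2), (1, 5)], [(0, 0), (0, 1), (0, 5), (1, 5)],
      [], [(2, 1, [2]), (3, 0, []), (4, 5, [2]), (5, 0, [])]⟩,
    ⟨[(1, 2)], [(1, 0), (2, 0), (2, 1), (2, 5)], [(0, 0)], [4], [(3, 0, []), (5, 0, []),
      (7, 0, [])]⟩,
    ⟨[(2, 3)], [(3, 0)], [], [3, 4], [(7, 0, [])]⟩,
    ⟨[(2, 3), (3, 4)], [(1, 0), (2, 0), (3, 0), (4, 0)], [(0, 0)], [6, 7], [(3, 0, []), (7,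
      0, [])]⟩]
  Ta := [((3, 0), 0, 2), ((3, 9), 0, 7), ((5, 4), 0, 5), ((5, 6), 0, 4), ((7, 1), 0, 3), ((7, 8),
    0, 6)]
  Tb := [((0, 1, 3), 2, 3, 0), ((1, 0, 2), 3, 2, 1), ((1, 0, 6), 3, 2, 4), ((1, 0, 7), 3, 2, 0),
    ((1, 2, 6), 3, 1, 4), ((1, 2, 7), 3, 1, 0), ((1, 6, 7), 3, 4, 0), ((2, 1, 4), 1, 3, 5),
    ((3, 0, 9), 0, 2, 7), ((4, 2, 5), 5, 1, 0), ((5, 4, 6), 0, 5, 4), ((6, 1, 5), 4, 3, 0),
    ((7, 1, 8), 0, 3, 6), ((8, 7, 9), 6, 0, 7), ((9, 3, 8), 7, 0, 6)]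
  Tc := [(2, 1, 5)]
  Td := [((1, 2), (2, 1), 3), ((1, 2), (2, 4), 5), ((2, 1), (0, 1), 3), ((2, 1), (0, 3), 0), ((2,
    5), (0, 1), 3), ((2, 5), (0, 3), 0), ((5, 2), (4, 2), 1), ((5, 2), (4, 5), 0)]
  G := [[0, 0xe1e1c24e1e1c24c, 0xe1e16e1e1ac4e1e16e4e1ac8c, 0xe1e2c241, 0xe1e1a481], [0,
    0x68ae1c28e1a46c24c, 0, 0xe1e2c281, 0x6ec88e1e481], [0, 0x68a8ea84ce284e6a46c28c, 0,
    0x68a8eac244e6a46c21c, 0x68c82a868ee41e26ac6a489]]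

noncomputable def n1508 : Ent := ⟨e1508, noF, [], [], [(6, 15, [360035742630636841211993100915356868655746945586763691013836801, 0])]⟩

def c1508 : PLift (Cov.check n1508.C.D v1508 = true) := ⟨by decide +kernel⟩

def b1508 : PLift (entF (fidx ts) 400 1508 n1508 = true) := ⟨by decide +kernel⟩

theorem g1508 : GoodF (fidx ts) 400 1508 := GoodF.ofV v1508 n1508 c1508.down b1508.down

/-- 456745:1239/5 -/
noncomputable def e1509 : SCfg where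
  D := {
    a := 6
    L := 10
    kp := 7
    inn := [(0, 1), (1, 0), (1, 2), (2, 1), (2, 3), (3, 2), (3, 4), (3, 5), (4, 3), (5, 3)]
    mix := [(0, 0), (0, 1), (0, 2), (1, 0), (1, 2), (1, 3), (2, 2), (2, 3), (2, 4), (2, 5), (3, 3), (3,
      5), (3, 6), (3, 7), (4, 6), (4, 7), (4, 8), (5, 1), (5, 3), (5, 7), (5, 9)]
    cl := [2, 3, 1, 0, 5, 0, 4, 0, 6, 7]
    chq := [(1, 2), (2, 1), (2, 5), (5, 2)]
    rng := [(0, 1), (0, 3), (1, 0), (1, 2), (1, 7), (1, 9), (2, 1), (2, 4), (3, 0), (3, 9), (4, 2), (4,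
      5), (5, 4), (5, 6), (6, 5), (6, 8), (7, 1), (7, 8), (8, 6), (8, 7), (9, 1), (9, 3)]
    lev := [] }
  links := [[1, 6, 7, 8], [6, 0, 8, 2, 9], [9, 1, 8, 10, 11, 3], [9, 2, 11, 12, 4, 13, 5], [13, 3, 12,
    14], [9, 3, 13, 7, 15]]
  P := {
    a := 6
    N := 16
    nb := [450, 837, 3850, 14900, 28680, 41608, 643, 41313, 1159, 32878, 2308, 5132, 18456, 16568,
      12304, 672]
    tri := [(0, 1, 6), (0, 1, 8), (0, 6, 7), (0, 7, 8), (1, 2, 8), (1, 2, 9), (1, 6, 9), (2, 3, 9), (2,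
      3, 11), (2, 8, 10), (2, 10, 11), (3, 4, 12), (3, 4, 13), (3, 5, 9), (3, 5, 13), (3, 11, 12),
      (4, 12, 14), (4, 13, 14), (5, 7, 13), (5, 7, 15), (5, 9, 15)]
    fin := [0, 0, 0, 3, 3, 5, 0, 5, 8, 3, 10, 3, 12, 3, 14, 15]
    chd := [(0, 8), (0, 10)]
    steps := [(0, 1), (0, 2), (0, 6), (3, 4), (3, 11), (3, 13), (3, 9), (5, 7)] }
  rep := [3, 8, 0, 5, 12, 10, 14, 15]

noncomputable def v1509 : Cov.CovD where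
  P := 3
  N := 5
  pl := [1, 6, 8, 9]
  lev := [⟨[], [], [(1, 2)], [3], [(0, 2, [1, 5]), (2, 1, [2])]⟩,
    ⟨[], [(0, 0), (0, 1), (0, 2)], [(0, 1), (0, 2), (1, 2)], [], [(0, 2, [1, 5]), (2, 1,
      [2]), (3, 0, [])]⟩,
    ⟨[(0, 1)], [(0, 1), (1, 0), (1, 1), (1, 2), (1, 5)], [(0, 0), (0, 1), (0, 5), (1, 5)],
      [], [(2, 1, [2]), (3, 0, []), (4, 5, [2]), (5, 0, [])]⟩,
    ⟨[(1, 2)], [(1, 0), (2, 0), (2, 1), (2, 5)], [(0, 0)], [4], [(3, 0, []), (5, 0, []),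
      (7, 0, [])]⟩,
    ⟨[(2, 3)], [(3, 0)], [], [4, 6], [(7, 0, [])]⟩,
    ⟨[(2, 3), (3, 4)], [(1, 0), (2, 0), (3, 0), (4, 0)], [(0, 0)], [3, 7], [(3, 0, []), (7,
      0, [])]⟩]
  Ta := [((3, 0), 0, 2), ((3, 9), 0, 7), ((5, 4), 0, 5), ((5, 6), 0, 4), ((7, 1), 0, 3), ((7, 8),
    0, 6)]
  Tb := [((0, 1, 3), 2, 3, 0), ((1, 0, 2), 3, 2, 1), ((1, 0, 7), 3, 2, 0), ((1, 0, 9), 3, 2, 7),
    ((1, 2, 7), 3, 1, 0), ((1, 2, 9), 3, 1, 7), ((1, 7, 9), 3, 0, 7), ((2, 1, 4), 1, 3, 5),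
    ((3, 0, 9), 0, 2, 7), ((4, 2, 5), 5, 1, 0), ((5, 4, 6), 0, 5, 4), ((6, 5, 8), 4, 0, 6),
    ((7, 1, 8), 0, 3, 6), ((8, 6, 7), 6, 4, 0), ((9, 1, 3), 7, 3, 0)]
  Tc := [(2, 1, 5)]
  Td := [((1, 2), (2, 1), 3), ((1, 2), (2, 4), 5), ((2, 1), (0, 1), 3), ((2, 1), (0, 3), 0), ((2,
    5), (0, 1), 3), ((2, 5), (0, 3), 0), ((5, 2), (4, 2), 1), ((5, 2), (4, 5), 0)]
  G := [[0, 0xa1a1c286161c24c, 0xa1a16a1a1ac4616166161ac8c, 0xe1e1c241, 0xe1e1a481], [0,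
    0xa1aa6c2466a61c28c, 0, 0x6e8b8e9c281, 0x6e88fe1a481], [0,
    0x8822aa8aae88e64442646e26644ea4c, 0, 0x6ca8aaec2184c284c2646e266ce89,
    0x6cc8acea4882a4662e82a646ec89]]

noncomputable def n1509 : Ent := ⟨e1509, noF, [], [], [(6, 15, [360035742630636841211993100915356868655746945586763691013840897, 0])]⟩

def c1509 : PLift (Cov.check n1509.C.D v1509 = true) := ⟨by decide +kernel⟩

def b1509 : PLift (entF (fidx ts) 400 1509 n1509 = true) := ⟨by decide +kernel⟩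

theorem g1509 : GoodF (fidx ts) 400 1509 := GoodF.ofV v1509 n1509 c1509.down b1509.down

/-- 456745:1239 -/
noncomputable def e1510 : SCfg where
  D := {
    a := 6
    L := 11
    kp := 8
    inn := [(0, 1), (1, 0), (1, 2), (2, 1), (2, 3), (3, 2), (3, 4), (3, 5), (4, 3), (5, 3)]
    mix := [(0, 0), (0, 1), (0, 2), (1, 0), (1, 2), (1, 3), (2, 2), (2, 3), (2, 4), (2, 5), (3, 3), (3,
      5), (3, 6), (3, 7), (4, 6), (4, 7), (4, 8), (5, 3), (5, 7), (5, 9), (5, 10)]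
    cl := [1, 5, 3, 0, 4, 0, 2, 0, 6, 7, 8]
    chq := [(1, 3), (1, 4), (3, 1), (4, 1)]
    rng := [(0, 1), (0, 3), (1, 0), (1, 2), (2, 1), (2, 4), (3, 0), (3, 10), (4, 2), (4, 5), (5, 4),
      (5, 6), (6, 5), (6, 8), (7, 8), (7, 9), (8, 6), (8, 7), (9, 7), (9, 10), (10, 3), (10, 9)]
    lev := [] }
  links := [[1, 6, 7, 8], [6, 0, 8, 2, 9], [9, 1, 8, 10, 11, 3], [9, 2, 11, 12, 4, 13, 5], [13, 3, 12,
    14], [9, 3, 13, 15, 16]]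
  P := {
    a := 6
    N := 17
    nb := [450, 837, 3850, 14900, 28680, 107016, 643, 321, 1159, 65646, 2308, 5132, 18456, 49208,
      12304, 73760, 33312]
    tri := [(0, 1, 6), (0, 1, 8), (0, 6, 7), (0, 7, 8), (1, 2, 8), (1, 2, 9), (1, 6, 9), (2, 3, 9), (2,
      3, 11), (2, 8, 10), (2, 10, 11), (3, 4, 12), (3, 4, 13), (3, 5, 9), (3, 5, 13), (3, 11, 12),
      (4, 12, 14), (4, 13, 14), (5, 9, 16), (5, 13, 15), (5, 15, 16)]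
    fin := [0, 0, 0, 3, 3, 3, 0, 7, 8, 3, 10, 3, 12, 3, 14, 15, 16]
    chd := [(0, 8), (0, 10)]
    steps := [(0, 1), (0, 2), (0, 6), (3, 4), (3, 5), (3, 11), (3, 13), (3, 9)] }
  rep := [3, 0, 12, 8, 10, 7, 14, 15, 16]

noncomputable def v1510 : Cov.CovD where
  P := 3
  N := 6
  pl := [1, 6, 8, 9, 10]
  lev := [⟨[], [], [(1, 3)], [5], [(0, 1, [3, 4]), (2, 3, [1])]⟩,
    ⟨[], [(0, 0), (0, 1), (0, 3)], [(0, 1), (0, 3), (1, 3)], [], [(0, 1, [3, 4]), (2, 3,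
      [1]), (3, 0, [])]⟩,
    ⟨[(0, 1)], [(0, 3), (1, 0), (1, 1), (1, 3), (1, 4)], [(0, 0), (0, 3), (0, 4), (3, 4)],
      [], [(2, 3, [1]), (3, 0, []), (4, 4, [1]), (5, 0, [])]⟩,
    ⟨[(1, 2)], [(1, 0), (2, 0), (2, 3), (2, 4)], [(0, 0)], [2], [(3, 0, []), (5, 0, []),
      (7, 0, [])]⟩,
    ⟨[(2, 3)], [(3, 0)], [], [2, 6], [(7, 0, [])]⟩,
    ⟨[(2, 3), (3, 4)], [(1, 0), (2, 0), (3, 0), (4, 0)], [(0, 0)], [7, 8], [(3, 0, []), (7,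
      0, [])]⟩]
  Ta := [((3, 0), 0, 1), ((3, 10), 0, 8), ((5, 4), 0, 4), ((5, 6), 0, 2), ((7, 8), 0, 6), ((7,
    9), 0, 7)]
  Tb := [((0, 1, 3), 1, 5, 0), ((1, 0, 2), 5, 1, 3), ((2, 1, 4), 3, 5, 4), ((3, 0, 10), 0, 1, 8),
    ((4, 2, 5), 4, 3, 0), ((5, 4, 6), 0, 4, 2), ((6, 5, 8), 2, 0, 6), ((7, 8, 9), 0, 6, 7),
    ((8, 6, 7), 6, 2, 0), ((9, 7, 10), 7, 0, 8), ((10, 3, 9), 8, 0, 7)]
  Tc := [(1, 3, 4)]
  Td := [((1, 3), (0, 1), 5), ((1, 3), (0, 3), 0), ((1, 4), (0, 1), 5), ((1, 4), (0, 3), 0), ((3,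
    1), (2, 1), 5), ((3, 1), (2, 4), 4), ((4, 1), (4, 2), 3), ((4, 1), (4, 5), 0)]
  G := [[0, 0xe1426181ce18ce148ee14e18ce18e146ae14e18ae18e186ce, 0, 0xe1428e1424e142e182cd,
    0xe1828e1824e182e182cd], [0, 0, 0x2ece828ee6824ee682e4e8c2cd, 0xe1428e1824e182e182cd,
    0xe1828e1824e182e182cd], [0, 0, 0, 0xe4e8c286ec88c2444eacc244eacc2cd,
    0x6ea88a28828a8826ea88aa882458826ea88aa8826ea88a6cd]]

noncomputable def n1510 : Ent := ⟨e1510, noF, [], [], [(6, 16, [1580044410770988437309982408355971841652082177953823432505695285249, 0]), (7, 14, [1685382413448253767852309107433119732572617628602273068445371088897, 0]), (7, 15, [1685356702439545624007900436039642273970977273354372543760006270977, 0])]⟩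

def c1510 : PLift (Cov.check n1510.C.D v1510 = true) := ⟨by decide +kernel⟩

def b1510 : PLift (entF (fidx ts) 400 1510 n1510 = true) := ⟨by decide +kernel⟩

theorem g1510 : GoodF (fidx ts) 400 1510 := GoodF.ofV v1510 n1510 c1510.down b1510.down

/-- 458554:1243/2 -/
noncomputable def e1511 : SCfg where
  D := {
    a := 6
    L := 9
    kp := 6
    inn := [(0, 1), (1, 0), (1, 2), (2, 1), (2, 3), (2, 4), (3, 2), (4, 2), (4, 5), (5, 4)]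
    mix := [(0, 0), (0, 1), (0, 2), (1, 0), (1, 2), (1, 3), (2, 2), (2, 3), (2, 4), (2, 5), (2, 6), (3,
      0), (3, 3), (3, 6), (3, 7), (4, 4), (4, 5), (4, 8), (5, 1), (5, 4), (5, 8)]
    cl := [3, 4, 2, 1, 0, 0, 1, 6, 5]
    chq := [(0, 3), (2, 3), (3, 0), (3, 2)]
    rng := [(0, 1), (0, 3), (0, 7), (1, 0), (1, 2), (1, 4), (1, 8), (2, 1), (2, 4), (3, 0), (4, 1), (4,
      2), (5, 6), (5, 8), (6, 5), (6, 7), (7, 0), (7, 6), (8, 1), (8, 5)]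
    lev := [] }
  links := [[1, 6, 7, 8], [6, 0, 8, 2, 9], [9, 1, 8, 10, 4, 11, 12, 3], [9, 2, 12, 13, 6], [11, 2, 10, 5,
    14], [14, 4, 10, 7]]
  P := {
    a := 6
    N := 15
    nb := [450, 837, 7962, 12868, 19492, 17552, 8843, 17761, 1159, 78, 436, 20500, 10252, 4168, 2224]
    tri := [(0, 1, 6), (0, 1, 8), (0, 6, 7), (0, 7, 8), (1, 2, 8), (1, 2, 9), (1, 6, 9), (2, 3, 9), (2,
      3, 12), (2, 4, 10), (2, 4, 11), (2, 8, 10), (2, 11, 12), (3, 6, 9), (3, 6, 13), (3, 12, 13),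
      (4, 5, 10), (4, 5, 14), (4, 11, 14), (5, 7, 10), (5, 7, 14)]
    fin := [0, 0, 0, 3, 4, 5, 0, 5, 8, 3, 4, 4, 3, 13, 14]
    chd := [(0, 4), (0, 8)]
    steps := [(0, 1), (0, 2), (3, 12), (3, 9), (0, 6), (4, 10), (4, 11), (5, 7)] }
  rep := [4, 3, 8, 0, 5, 14, 13]

noncomputable def v1511 : Cov.CovD where
  P := 3
  N := 4
  pl := [1, 7, 8]
  lev := [⟨[], [], [(2, 3)], [4], [(0, 3, [0, 2]), (2, 2, [3])]⟩,
    ⟨[], [(0, 1), (0, 2), (0, 3)], [(1, 2), (1, 3), (2, 3)], [], [(0, 3, [0, 2]), (2, 2,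
      [3]), (3, 1, [])]⟩,
    ⟨[(0, 1)], [(0, 2), (1, 0), (1, 1), (1, 2), (1, 3)], [(0, 0), (0, 1), (0, 2), (1, 1),
      (1, 2)], [], [(2, 2, [3]), (3, 1, []), (4, 0, [3]), (5, 0, [3]), (6, 1, [])]⟩,
    ⟨[(1, 2)], [(0, 3), (1, 1), (1, 3), (2, 0), (2, 1), (2, 2), (2, 3)], [(1, 1), (1, 3)],
      [6], [(0, 3, [0, 2]), (3, 1, []), (6, 1, [])]⟩,
    ⟨[(1, 2), (2, 3)], [(2, 0), (2, 1), (2, 2)], [(0, 0)], [5], [(4, 0, [3]), (5, 0, [3])]⟩,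
    ⟨[(2, 4)], [(2, 0), (4, 0)], [], [4, 5], [(4, 0, [3])]⟩]
  Ta := [((3, 0), 1, 3), ((4, 1), 0, 4), ((4, 2), 0, 2), ((5, 6), 0, 1), ((5, 8), 0, 5), ((6, 5),
    1, 0), ((6, 7), 1, 6)]
  Tb := [((0, 1, 3), 3, 4, 1), ((0, 1, 7), 3, 4, 6), ((0, 3, 7), 3, 1, 6), ((1, 0, 2), 4, 3, 2),
    ((1, 0, 4), 4, 3, 0), ((1, 0, 8), 4, 3, 5), ((1, 2, 4), 4, 2, 0), ((1, 2, 8), 4, 2, 5),
    ((1, 4, 8), 4, 0, 5), ((2, 1, 4), 2, 4, 0), ((4, 1, 2), 0, 4, 2), ((5, 6, 8), 0, 1, 5),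
    ((6, 5, 7), 1, 0, 6), ((7, 0, 6), 6, 3, 1), ((8, 1, 5), 5, 4, 0)]
  Tc := [(3, 0, 2)]
  Td := [((0, 3), (4, 1), 4), ((0, 3), (4, 2), 2), ((0, 3), (5, 6), 1), ((0, 3), (5, 8), 5), ((2,
    3), (2, 1), 4), ((2, 3), (2, 4), 0), ((3, 0), (0, 1), 4), ((3, 0), (0, 3), 1), ((3, 0),
    (0, 7), 6), ((3, 2), (0, 1), 4), ((3, 2), (0, 3), 1), ((3, 2), (0, 7), 6)]
  G := [[0, 0, 0x824e86a9484a64a658442a42a94826482a1cce, 0x82c82a948486496584426826c26d81d,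
    0xc8641a22d81126926426d814a6ca6581b], [0, 0, 0x84a84a948c4ac4a542426142a8c826482a1cce,
    0x84a82a94824c42658442a82ac6ad41d, 0x42a826581116c86486d823], [0, 0, 0,
    0xc1a8416c4816a18d1, 0x1168811261881164835c16a589b], [0, 0x116116a411611a68c1, 0,
    0xb168453c48c1618d1, 0x116c16716d821]]

noncomputable def n1511 : Ent := ⟨e1511, noF, [], [], []⟩

def c1511 : PLift (Cov.check n1511.C.D v1511 = true) := ⟨by decide +kernel⟩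

def b1511 : PLift (entF (fidx ts) 400 1511 n1511 = true) := ⟨by decide +kernel⟩

theorem g1511 : GoodF (fidx ts) 400 1511 := GoodF.ofV v1511 n1511 c1511.down b1511.down

/-- 458554:1243/1 -/
noncomputable def e1512 : SCfg where
  D := {
    a := 6
    L := 10
    kp := 7
    inn := [(0, 1), (1, 0), (1, 2), (2, 1), (2, 3), (2, 4), (3, 2), (4, 2), (4, 5), (5, 4)]
    mix := [(0, 0), (0, 1), (0, 2), (1, 0), (1, 2), (1, 3), (2, 2), (2, 3), (2, 4), (2, 5), (2, 6), (3,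
      0), (3, 3), (3, 6), (3, 7), (4, 4), (4, 5), (4, 8), (5, 4), (5, 8), (5, 9)]
    cl := [3, 5, 2, 1, 0, 0, 1, 6, 4, 7]
    chq := [(0, 3), (2, 3), (3, 0), (3, 2)]
    rng := [(0, 1), (0, 3), (0, 7), (1, 0), (1, 2), (2, 1), (2, 4), (3, 0), (4, 2), (4, 9), (5, 6), (5,
      8), (6, 5), (6, 7), (7, 0), (7, 6), (8, 5), (8, 9), (9, 4), (9, 8)]
    lev := [] }
  links := [[1, 6, 7, 8], [6, 0, 8, 2, 9], [9, 1, 8, 10, 4, 11, 12, 3], [9, 2, 12, 13, 6], [11, 2, 10, 5,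
    14], [14, 4, 10, 15]]
  P := {
    a := 6
    N := 16
    nb := [450, 837, 7962, 12868, 19492, 50192, 8843, 321, 1159, 78, 33076, 20500, 10252, 4168, 34864,
      17440]
    tri := [(0, 1, 6), (0, 1, 8), (0, 6, 7), (0, 7, 8), (1, 2, 8), (1, 2, 9), (1, 6, 9), (2, 3, 9), (2,
      3, 12), (2, 4, 10), (2, 4, 11), (2, 8, 10), (2, 11, 12), (3, 6, 9), (3, 6, 13), (3, 12, 13),
      (4, 5, 10), (4, 5, 14), (4, 11, 14), (5, 10, 15), (5, 14, 15)]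
    fin := [0, 0, 0, 3, 4, 4, 0, 7, 8, 3, 4, 4, 3, 13, 14, 15]
    chd := [(0, 4), (0, 8)]
    steps := [(0, 1), (0, 2), (3, 12), (3, 9), (0, 6), (4, 5), (4, 10), (4, 11)] }
  rep := [4, 3, 8, 0, 14, 7, 13, 15]

noncomputable def v1512 : Cov.CovD where
  P := 3
  N := 5
  pl := [1, 7, 8, 9]
  lev := [⟨[], [], [(2, 3)], [5], [(0, 3, [0, 2]), (2, 2, [3])]⟩,
    ⟨[], [(0, 1), (0, 2), (0, 3)], [(1, 2), (1, 3), (2, 3)], [], [(0, 3, [0, 2]), (2, 2,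
      [3]), (3, 1, [])]⟩,
    ⟨[(0, 1)], [(0, 2), (1, 0), (1, 1), (1, 2), (1, 3)], [(0, 0), (0, 1), (0, 2), (1, 1),
      (1, 2)], [], [(2, 2, [3]), (3, 1, []), (4, 0, [3]), (5, 0, [3]), (6, 1, [])]⟩,
    ⟨[(1, 2)], [(0, 3), (1, 1), (1, 3), (2, 0), (2, 1), (2, 2), (2, 3)], [(1, 1), (1, 3)],
      [6], [(0, 3, [0, 2]), (3, 1, []), (6, 1, [])]⟩,
    ⟨[(1, 2), (2, 3)], [(2, 0), (2, 1), (2, 2)], [(0, 0)], [4], [(4, 0, [3]), (5, 0, [3])]⟩,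
    ⟨[(2, 4)], [(2, 0), (4, 0)], [], [4, 7], [(4, 0, [3])]⟩]
  Ta := [((3, 0), 1, 3), ((4, 2), 0, 2), ((4, 9), 0, 7), ((5, 6), 0, 1), ((5, 8), 0, 4), ((6, 5),
    1, 0), ((6, 7), 1, 6)]
  Tb := [((0, 1, 3), 3, 5, 1), ((0, 1, 7), 3, 5, 6), ((0, 3, 7), 3, 1, 6), ((1, 0, 2), 5, 3, 2),
    ((2, 1, 4), 2, 5, 0), ((4, 2, 9), 0, 2, 7), ((5, 6, 8), 0, 1, 4), ((6, 5, 7), 1, 0, 6),
    ((7, 0, 6), 6, 3, 1), ((8, 5, 9), 4, 0, 7), ((9, 4, 8), 7, 0, 4)]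
  Tc := [(3, 0, 2)]
  Td := [((0, 3), (4, 2), 2), ((0, 3), (4, 9), 7), ((0, 3), (5, 6), 1), ((0, 3), (5, 8), 4), ((2,
    3), (2, 1), 5), ((2, 3), (2, 4), 0), ((3, 0), (0, 1), 5), ((3, 0), (0, 3), 1), ((3, 0),
    (0, 7), 6), ((3, 2), (0, 1), 5), ((3, 2), (0, 3), 1), ((3, 2), (0, 7), 6)]
  G := [[0, 0, 0xc6ac6a948ca6ca6584c6ac6a94ca6ca658ce, 0xca6ca6981ca6ca6584c6a84ca648c6a14dd,
    0xca6ca6c81116ca6ca6d81ca6ca6581b], [0, 0, 0xca61c6a8c2ca6ca6584c6ac6a94ca6ca658ce,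
    0xc6ac6a948ca6ca6584ca64c6ac6a9c1d, 0xca6ca6581116ca6ca6d823], [0, 0, 0,
    0x1a616a94816cc16584c1616ac16d81d, 0x1a671cc8111616cc16d8116a16c581b], [0,
    0x11611aa8111a11668411a11aa411c11668cd, 0, 0xc1a35694835a71658416a16aa1cd41d,
    0x1a639c5811161a6956d823]]

noncomputable def n1512 : Ent := ⟨e1512, noF, [], [], [(7, 15, [360035742630636841211993100915356868655746945586763691013861377, 0])]⟩

def c1512 : PLift (Cov.check n1512.C.D v1512 = true) := ⟨by decide +kernel⟩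

def b1512 : PLift (entF (fidx ts) 400 1512 n1512 = true) := ⟨by decide +kernel⟩

theorem g1512 : GoodF (fidx ts) 400 1512 := GoodF.ofV v1512 n1512 c1512.down b1512.down

/-- 458554:1243/3 -/
noncomputable def e1513 : SCfg where
  D := {
    a := 6
    L := 10
    kp := 7
    inn := [(0, 1), (1, 0), (1, 2), (2, 1), (2, 3), (2, 4), (3, 2), (4, 2), (4, 5), (5, 4)]
    mix := [(0, 0), (0, 1), (0, 2), (1, 0), (1, 2), (1, 3), (2, 2), (2, 3), (2, 4), (2, 5), (2, 6), (3,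
      3), (3, 6), (3, 7), (3, 8), (4, 4), (4, 5), (4, 9), (5, 1), (5, 4), (5, 9)]
    cl := [3, 4, 2, 1, 0, 0, 1, 6, 7, 5]
    chq := [(0, 3), (2, 3), (3, 0), (3, 2)]
    rng := [(0, 1), (0, 3), (1, 0), (1, 2), (1, 4), (1, 9), (2, 1), (2, 4), (3, 0), (3, 8), (4, 1), (4,
      2), (5, 6), (5, 9), (6, 5), (6, 7), (7, 6), (7, 8), (8, 3), (8, 7), (9, 1), (9, 5)]
    lev := [] }
  links := [[1, 6, 7, 8], [6, 0, 8, 2, 9], [9, 1, 8, 10, 4, 11, 12, 3], [9, 2, 12, 13, 14], [11, 2, 10,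
    5, 15], [15, 4, 10, 7]]
  P := {
    a := 6
    N := 16
    nb := [450, 837, 7962, 29188, 35876, 33936, 643, 34145, 1159, 16462, 436, 36884, 10252, 20488,
      8712, 2224]
    tri := [(0, 1, 6), (0, 1, 8), (0, 6, 7), (0, 7, 8), (1, 2, 8), (1, 2, 9), (1, 6, 9), (2, 3, 9), (2,
      3, 12), (2, 4, 10), (2, 4, 11), (2, 8, 10), (2, 11, 12), (3, 9, 14), (3, 12, 13), (3, 13,
      14), (4, 5, 10), (4, 5, 15), (4, 11, 15), (5, 7, 10), (5, 7, 15)]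
    fin := [0, 0, 0, 3, 4, 5, 0, 5, 8, 3, 4, 4, 3, 13, 14, 15]
    chd := [(0, 4), (0, 8)]
    steps := [(0, 1), (0, 2), (0, 6), (3, 12), (3, 9), (4, 10), (4, 11), (5, 7)] }
  rep := [4, 3, 8, 0, 5, 15, 13, 14]

noncomputable def v1513 : Cov.CovD where
  P := 3
  N := 5
  pl := [1, 7, 8, 9]
  lev := [⟨[], [], [(2, 3)], [4], [(0, 3, [0, 2]), (2, 2, [3])]⟩,
    ⟨[], [(0, 1), (0, 2), (0, 3)], [(1, 2), (1, 3), (2, 3)], [], [(0, 3, [0, 2]), (2, 2,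
      [3]), (3, 1, [])]⟩,
    ⟨[(0, 1)], [(0, 2), (1, 0), (1, 1), (1, 2), (1, 3)], [(0, 0), (0, 1), (0, 2), (1, 1),
      (1, 2)], [], [(2, 2, [3]), (3, 1, []), (4, 0, [3]), (5, 0, [3]), (6, 1, [])]⟩,
    ⟨[(1, 2)], [(1, 1), (2, 0), (2, 1), (2, 2)], [(1, 1)], [6, 7], [(3, 1, []), (6, 1,
      [])]⟩,
    ⟨[(1, 2), (2, 3)], [(2, 0), (2, 1), (2, 2)], [(0, 0)], [5], [(4, 0, [3]), (5, 0, [3])]⟩,
    ⟨[(2, 4)], [(2, 0), (4, 0)], [], [4, 5], [(4, 0, [3])]⟩]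
  Ta := [((3, 0), 1, 3), ((3, 8), 1, 7), ((4, 1), 0, 4), ((4, 2), 0, 2), ((5, 6), 0, 1), ((5, 9),
    0, 5), ((6, 5), 1, 0), ((6, 7), 1, 6)]
  Tb := [((0, 1, 3), 3, 4, 1), ((1, 0, 2), 4, 3, 2), ((1, 0, 4), 4, 3, 0), ((1, 0, 9), 4, 3, 5),
    ((1, 2, 4), 4, 2, 0), ((1, 2, 9), 4, 2, 5), ((1, 4, 9), 4, 0, 5), ((2, 1, 4), 2, 4, 0),
    ((3, 0, 8), 1, 3, 7), ((4, 1, 2), 0, 4, 2), ((5, 6, 9), 0, 1, 5), ((6, 5, 7), 1, 0, 6),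
    ((7, 6, 8), 6, 1, 7), ((8, 3, 7), 7, 1, 6), ((9, 1, 5), 5, 4, 0)]
  Tc := [(3, 0, 2)]
  Td := [((0, 3), (4, 1), 4), ((0, 3), (4, 2), 2), ((0, 3), (5, 6), 1), ((0, 3), (5, 9), 5), ((2,
    3), (2, 1), 4), ((2, 3), (2, 4), 0), ((3, 0), (0, 1), 4), ((3, 0), (0, 3), 1), ((3, 2),
    (0, 1), 4), ((3, 2), (0, 3), 1)]
  G := [[0, 0, 0x86a86a86ad484a64a64a6d84426442a42a9c826826c82a1cce,
    0x82c82a82cd4894a4ea94ad41c26c26c26d81d, 0x8c6c86c86d81c2642a42ad814a6ca6ca6d81b], [0, 0,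
    0x486184a84acc2486486486d84426c26542a8c826482a82a9cce,
    0x82a82a82ad414a6496984a4c142648c262ccc26d85d, 0x826826826d81486486486d823], [0, 0, 0,
    0x11611a11cd4a1cc1a1a6d491, 0x416881116881c16116581a635cc16d89b], [0,
    0x116116611c8c11611a11ae8c1, 0, 0x11611c11ad8c16c16536d851, 0xc16c16c16d821]]

noncomputable def n1513 : Ent := ⟨e1513, noF, [], [], [(6, 14, [385746751338780685620664494392815470296102193487288376378683393, 0])]⟩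

def c1513 : PLift (Cov.check n1513.C.D v1513 = true) := ⟨by decide +kernel⟩

def b1513 : PLift (entF (fidx ts) 400 1513 n1513 = true) := ⟨by decide +kernel⟩

theorem g1513 : GoodF (fidx ts) 400 1513 := GoodF.ofV v1513 n1513 c1513.down b1513.down

/-- 458554:1243 -/
noncomputable def e1514 : SCfg where
  D := {
    a := 6
    L := 11
    kp := 8
    inn := [(0, 1), (1, 0), (1, 2), (2, 1), (2, 3), (2, 4), (3, 2), (4, 2), (4, 5), (5, 4)]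
    mix := [(0, 0), (0, 1), (0, 2), (1, 0), (1, 2), (1, 3), (2, 2), (2, 3), (2, 4), (2, 5), (2, 6), (3,
      3), (3, 6), (3, 7), (3, 8), (4, 4), (4, 5), (4, 9), (5, 4), (5, 9), (5, 10)]
    cl := [3, 5, 2, 1, 0, 0, 1, 6, 7, 4, 8]
    chq := [(0, 3), (2, 3), (3, 0), (3, 2)]
    rng := [(0, 1), (0, 3), (1, 0), (1, 2), (2, 1), (2, 4), (3, 0), (3, 8), (4, 2), (4, 10), (5, 6),
      (5, 9), (6, 5), (6, 7), (7, 6), (7, 8), (8, 3), (8, 7), (9, 5), (9, 10), (10, 4), (10, 9)]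
    lev := [] }
  links := [[1, 6, 7, 8], [6, 0, 8, 2, 9], [9, 1, 8, 10, 4, 11, 12, 3], [9, 2, 12, 13, 14], [11, 2, 10,
    5, 15], [15, 4, 10, 16]]
  P := {
    a := 6
    N := 17
    nb := [450, 837, 7962, 29188, 35876, 99344, 643, 321, 1159, 16462, 65844, 36884, 10252, 20488,
      8712, 67632, 33824]
    tri := [(0, 1, 6), (0, 1, 8), (0, 6, 7), (0, 7, 8), (1, 2, 8), (1, 2, 9), (1, 6, 9), (2, 3, 9), (2,
      3, 12), (2, 4, 10), (2, 4, 11), (2, 8, 10), (2, 11, 12), (3, 9, 14), (3, 12, 13), (3, 13,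
      14), (4, 5, 10), (4, 5, 15), (4, 11, 15), (5, 10, 16), (5, 15, 16)]
    fin := [0, 0, 0, 3, 4, 4, 0, 7, 8, 3, 4, 4, 3, 13, 14, 15, 16]
    chd := [(0, 4), (0, 8)]
    steps := [(0, 1), (0, 2), (0, 6), (3, 12), (3, 9), (4, 5), (4, 10), (4, 11)] }
  rep := [4, 3, 8, 0, 15, 7, 13, 14, 16]

noncomputable def v1514 : Cov.CovD where
  P := 3
  N := 6
  pl := [1, 7, 8, 9, 10]
  lev := [⟨[], [], [(2, 3)], [5], [(0, 3, [0, 2]), (2, 2, [3])]⟩,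
    ⟨[], [(0, 1), (0, 2), (0, 3)], [(1, 2), (1, 3), (2, 3)], [], [(0, 3, [0, 2]), (2, 2,
      [3]), (3, 1, [])]⟩,
    ⟨[(0, 1)], [(0, 2), (1, 0), (1, 1), (1, 2), (1, 3)], [(0, 0), (0, 1), (0, 2), (1, 1),
      (1, 2)], [], [(2, 2, [3]), (3, 1, []), (4, 0, [3]), (5, 0, [3]), (6, 1, [])]⟩,
    ⟨[(1, 2)], [(1, 1), (2, 0), (2, 1), (2, 2)], [(1, 1)], [6, 7], [(3, 1, []), (6, 1,
      [])]⟩,
    ⟨[(1, 2), (2, 3)], [(2, 0), (2, 1), (2, 2)], [(0, 0)], [4], [(4, 0, [3]), (5, 0, [3])]⟩,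
    ⟨[(2, 4)], [(2, 0), (4, 0)], [], [4, 8], [(4, 0, [3])]⟩]
  Ta := [((3, 0), 1, 3), ((3, 8), 1, 7), ((4, 2), 0, 2), ((4, 10), 0, 8), ((5, 6), 0, 1), ((5,
    9), 0, 4), ((6, 5), 1, 0), ((6, 7), 1, 6)]
  Tb := [((0, 1, 3), 3, 5, 1), ((1, 0, 2), 5, 3, 2), ((2, 1, 4), 2, 5, 0), ((3, 0, 8), 1, 3, 7),
    ((4, 2, 10), 0, 2, 8), ((5, 6, 9), 0, 1, 4), ((6, 5, 7), 1, 0, 6), ((7, 6, 8), 6, 1, 7),
    ((8, 3, 7), 7, 1, 6), ((9, 5, 10), 4, 0, 8), ((10, 4, 9), 8, 0, 4)]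
  Tc := [(3, 0, 2)]
  Td := [((0, 3), (4, 2), 2), ((0, 3), (4, 10), 8), ((0, 3), (5, 6), 1), ((0, 3), (5, 9), 4),
    ((2, 3), (2, 1), 5), ((2, 3), (2, 4), 0), ((3, 0), (0, 1), 5), ((3, 0), (0, 3), 1), ((3,
    2), (0, 1), 5), ((3, 2), (0, 3), 1)]
  G := [[0, 0, 0xc6ac6ac6ad48ca6ca6ca6d84c6ac6ac6ad4ca64c6ac6a9cce,
    0xca61c6ac6acc1ca6ca6ca6d84ca6ca6cc6a1c1d, 0xca6ca6ca6d81ca6ca6ca6d81ca6ca6ca6d81b], [0,
    0, 0xca6ca6ca6d82ca6ca6ca6d84c6ac6ac6ad4ca6ca6ca6d8ce,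
    0xc6ac6ac6ad41ca6ca6ca6d84ca6ca6ca6d81d, 0xca6ca6ca6d81ca6ca6ca6d823], [0, 0, 0,
    0x17635c16cd811bc95ac1ad41b1616a1a6d41d, 0x1a635a53ad811a616a53ad81c1616c1a6d81b], [0,
    0x11611611ae8111611a116e8411a11a11ae411611c116e8cd, 0,
    0xa1cb1ac1ad41c16ca616ad8416a16a1a6d41d, 0x1a616cc16d811a616cc16d823]]

noncomputable def n1514 : Ent := ⟨e1514, noF, [], [], [(6, 14, [1685382413448253767852309107433119732572617628602273068445371105281, 0]), (7, 16, [1580044410770988437309982408355971841652082177953823432505695309825, 0])]⟩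

def c1514 : PLift (Cov.check n1514.C.D v1514 = true) := ⟨by decide +kernel⟩

def b1514 : PLift (entF (fidx ts) 400 1514 n1514 = true) := ⟨by decide +kernel⟩

theorem g1514 : GoodF (fidx ts) 400 1514 := GoodF.ofV v1514 n1514 c1514.down b1514.down

/-- 458554:1244 -/
noncomputable def e1515 : SCfg where
  D := {
    a := 6
    L := 11
    kp := 8
    inn := [(0, 1), (1, 0), (1, 2), (2, 1), (2, 3), (2, 4), (3, 2), (4, 2), (4, 5), (5, 4)]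
    mix := [(0, 0), (0, 1), (0, 2), (1, 0), (1, 2), (1, 3), (2, 2), (2, 3), (2, 4), (2, 5), (2, 6), (3,
      3), (3, 6), (3, 7), (3, 8), (4, 4), (4, 5), (4, 9), (5, 5), (5, 9), (5, 10)]
    cl := [2, 5, 0, 0, 4, 1, 0, 6, 7, 3, 8]
    chq := [(0, 3), (1, 3), (3, 0), (3, 1)]
    rng := [(0, 1), (0, 3), (1, 0), (1, 2), (2, 1), (2, 4), (3, 0), (3, 8), (4, 2), (4, 9), (5, 6), (5,
      10), (6, 5), (6, 7), (7, 6), (7, 8), (8, 3), (8, 7), (9, 4), (9, 10), (10, 5), (10, 9)]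
    lev := [] }
  links := [[1, 6, 7, 8], [6, 0, 8, 2, 9], [9, 1, 8, 10, 4, 11, 12, 3], [9, 2, 12, 13, 14], [11, 2, 10,
    15, 5], [11, 4, 15, 16]]
  P := {
    a := 6
    N := 17
    nb := [450, 837, 7962, 29188, 35876, 100368, 643, 321, 1159, 16462, 33044, 69684, 10252, 20488,
      8712, 66608, 34848]
    tri := [(0, 1, 6), (0, 1, 8), (0, 6, 7), (0, 7, 8), (1, 2, 8), (1, 2, 9), (1, 6, 9), (2, 3, 9), (2,
      3, 12), (2, 4, 10), (2, 4, 11), (2, 8, 10), (2, 11, 12), (3, 9, 14), (3, 12, 13), (3, 13,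
      14), (4, 5, 11), (4, 5, 15), (4, 10, 15), (5, 11, 16), (5, 15, 16)]
    fin := [0, 0, 2, 2, 2, 5, 0, 7, 2, 2, 10, 11, 2, 13, 14, 5, 16]
    chd := [(2, 5), (11, 5)]
    steps := [(0, 1), (0, 6), (2, 3), (2, 4), (2, 8), (2, 12), (2, 9), (5, 15)] }
  rep := [2, 11, 0, 5, 10, 7, 13, 14, 16]

noncomputable def v1515 : Cov.CovD where
  P := 3
  N := 6
  pl := [0, 1, 4, 7, 8, 10]
  lev := [⟨[], [], [], [2, 5], [(2, 0, [3])]⟩,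
    ⟨[], [(0, 0)], [(0, 0)], [2], [(2, 0, [3]), (3, 0, [3])]⟩,
    ⟨[(0, 1)], [(0, 0), (1, 0), (1, 1)], [(0, 0), (0, 1)], [4], [(2, 0, [3]), (3, 0, [3]),
      (5, 1, [3]), (6, 0, [3])]⟩,
    ⟨[(1, 2)], [(1, 0), (2, 0), (2, 1)], [(0, 0)], [6, 7], [(3, 0, [3]), (6, 0, [3])]⟩,
    ⟨[(1, 2), (2, 3)], [(2, 0), (2, 1), (2, 3)], [(1, 3)], [4], [(5, 1, [3]), (9, 3, [0,
      1])]⟩,
    ⟨[(2, 4)], [(2, 1), (4, 1), (4, 3)], [(1, 3)], [8], [(5, 1, [3]), (9, 3, [0, 1])]⟩]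
  Ta := [((2, 1), 0, 5), ((2, 4), 0, 4), ((3, 0), 0, 2), ((3, 8), 0, 7), ((6, 5), 0, 1), ((6, 7),
    0, 6)]
  Tb := [((0, 1, 3), 2, 5, 0), ((1, 0, 2), 5, 2, 0), ((2, 1, 4), 0, 5, 4), ((3, 0, 8), 0, 2, 7),
    ((4, 2, 9), 4, 0, 3), ((5, 6, 10), 1, 0, 8), ((6, 5, 7), 0, 1, 6), ((7, 6, 8), 6, 0, 7),
    ((8, 3, 7), 7, 0, 6), ((9, 4, 10), 3, 4, 8), ((10, 5, 9), 8, 1, 3)]
  Tc := [(3, 0, 1)]
  Td := [((0, 3), (2, 1), 5), ((0, 3), (2, 4), 4), ((0, 3), (3, 0), 2), ((0, 3), (3, 8), 7), ((0,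
    3), (6, 5), 1), ((0, 3), (6, 7), 6), ((1, 3), (5, 6), 0), ((1, 3), (5, 10), 8), ((3, 0),
    (9, 4), 4), ((3, 0), (9, 10), 8), ((3, 1), (9, 4), 4), ((3, 1), (9, 10), 8)]
  G := [[0, 0, 0, 0x91dd8d9c44d515dd5d5e9d92cc9d98d98d9e45d515dd15dde8cc,
    0x4d515dd14dde91dd8d981ddec25d55d514dde9d99d981ddec2a], [0, 0,
    0xd1d1d1ed1d1d1ec2d1d1d1ed1d1d1ec2c, 0xd1d1d1e4d1d1d1e8c1, 0xd1d1d1ed1d1d1ec21], [0,
    0xaa2eaaaaaaec4cecccccce6426666666e8c1, 0, 0xd144d1d1d1ed1d1acc1, 0xd1d1d1ed1d1d1ec21]]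

noncomputable def n1515 : Ent := ⟨e1515, noF, [], [], []⟩

def c1515 : PLift (Cov.check n1515.C.D v1515 = true) := ⟨by decide +kernel⟩

def b1515 : PLift (entF (fidx ts) 400 1515 n1515 = true) := ⟨by decide +kernel⟩

theorem g1515 : GoodF (fidx ts) 400 1515 := GoodF.ofV v1515 n1515 c1515.down b1515.down

/-- 477644:1246/1 -/
noncomputable def e1516 : SCfg where
  D := {
    a := 6
    L := 9
    kp := 6
    inn := [(0, 1), (0, 2), (0, 3), (1, 0), (1, 3), (1, 4), (2, 0), (2, 3), (2, 5), (3, 0), (3, 1), (3,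
      2), (4, 1), (5, 2)]
    mix := [(0, 0), (1, 0), (1, 1), (1, 2), (1, 3), (2, 0), (2, 4), (2, 5), (2, 6), (3, 1), (3, 6), (3,
      7), (4, 1), (4, 2), (4, 8), (5, 4), (5, 5), (5, 8)]
    cl := [0, 0, 3, 5, 1, 4, 1, 6, 2]
    chq := [(2, 5), (5, 2)]
    rng := [(0, 3), (0, 4), (1, 7), (1, 8), (2, 3), (2, 8), (3, 0), (3, 2), (4, 0), (4, 8), (5, 6), (5,
      8), (6, 5), (6, 7), (7, 1), (7, 6), (8, 1), (8, 2), (8, 4), (8, 5)]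
    lev := [] }
  links := [[1, 6, 2, 3], [6, 0, 3, 7, 4, 8, 9], [3, 0, 6, 10, 5, 11, 12], [7, 1, 0, 2, 12, 13], [8, 1,
    7, 14], [11, 2, 10, 14]]
  P := {
    a := 6
    N := 15
    nb := [78, 985, 7273, 12423, 16770, 19460, 1543, 24602, 16914, 322, 16484, 20516, 10252, 4232,
      3504]
    tri := [(0, 1, 3), (0, 1, 6), (0, 2, 3), (0, 2, 6), (1, 3, 7), (1, 4, 7), (1, 4, 8), (1, 6, 9), (1,
      8, 9), (2, 3, 12), (2, 5, 10), (2, 5, 11), (2, 6, 10), (2, 11, 12), (3, 7, 13), (3, 12, 13),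
      (4, 7, 14), (4, 8, 14), (5, 10, 14), (5, 11, 14)]
    fin := [0, 1, 2, 0, 1, 2, 0, 0, 8, 9, 2, 11, 2, 13, 1]
    chd := [(9, 1)]
    steps := [(0, 3), (0, 6), (0, 7), (1, 4), (1, 14), (2, 5), (2, 10), (2, 12)] }
  rep := [0, 2, 1, 8, 11, 9, 13]

noncomputable def v1516 : Cov.CovD where
  P := 3
  N := 4
  pl := [2, 5, 7]
  lev := [⟨[], [], [], [], [(0, 0, [])]⟩,
    ⟨[], [(0, 0), (0, 5)], [(0, 0), (0, 5)], [3], [(0, 0, []), (1, 0, []), (3, 5, [2])]⟩,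
    ⟨[(0, 1)], [(0, 0), (0, 1), (1, 0)], [(0, 1), (1, 1)], [4], [(0, 0, []), (4, 1, []),
      (6, 1, [])]⟩,
    ⟨[(0, 1), (0, 2), (1, 2)], [(0, 0), (0, 1), (1, 0), (1, 1), (1, 5), (2, 0), (2, 1)],
      [(0, 1)], [6], [(1, 0, []), (6, 1, [])]⟩,
    ⟨[(0, 1), (1, 3)], [(1, 0), (1, 2), (1, 5), (3, 0)], [(0, 2)], [3], [(1, 0, []), (8, 2,
      [5])]⟩,
    ⟨[(0, 2), (2, 3)], [(2, 0), (2, 1), (2, 2), (4, 2)], [(1, 2)], [4], [(4, 1, []), (8, 2,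
      [5])]⟩]
  Ta := [((0, 3), 0, 5), ((0, 4), 0, 1), ((1, 7), 0, 6), ((1, 8), 0, 2), ((4, 0), 1, 0), ((4, 8),
    1, 2), ((6, 5), 1, 4), ((6, 7), 1, 6)]
  Tb := [((0, 3, 4), 0, 5, 1), ((1, 7, 8), 0, 6, 2), ((2, 3, 8), 3, 5, 2), ((3, 0, 2), 5, 0, 3),
    ((4, 0, 8), 1, 0, 2), ((5, 6, 8), 4, 1, 2), ((6, 5, 7), 1, 4, 6), ((7, 1, 6), 6, 0, 1),
    ((8, 1, 2), 2, 0, 3), ((8, 1, 4), 2, 0, 1), ((8, 1, 5), 2, 0, 4), ((8, 2, 4), 2, 3, 1),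
    ((8, 2, 5), 2, 3, 4), ((8, 4, 5), 2, 1, 4)]
  Tc := []
  Td := [((2, 5), (8, 1), 0), ((2, 5), (8, 2), 3), ((2, 5), (8, 4), 1), ((2, 5), (8, 5), 4), ((5,
    2), (3, 0), 0), ((5, 2), (3, 2), 3)]
  G := [[0, 0xc1c86244588144cc66c4c8a288548ac, 0, 0x18c144c1c22, 0x881121c88a111a1c9814e2], [0,
    0, 0, 0, 0x381488a112a1c881181ce2], [0, 0, 0xc2c2c12882482c842442cc9,
    0x11c88cc44c11ccc21, 0x922488a211a2c9892c4e1], [0, 0, 0x6a6a8c162c2c1aa466ac146, 0,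
    0x22a414a2a8c411a88ac22a8ca292c4e9]]

noncomputable def n1516 : Ent := ⟨e1516, noF, [], [], []⟩

def c1516 : PLift (Cov.check n1516.C.D v1516 = true) := ⟨by decide +kernel⟩

def b1516 : PLift (entF (fidx ts) 400 1516 n1516 = true) := ⟨by decide +kernel⟩

theorem g1516 : GoodF (fidx ts) 400 1516 := GoodF.ofV v1516 n1516 c1516.down b1516.down

/-- 477644:1246/2 -/
noncomputable def e1517 : SCfg where
  D := {
    a := 6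
    L := 9
    kp := 6
    inn := [(0, 1), (0, 2), (0, 3), (1, 0), (1, 3), (1, 4), (2, 0), (2, 3), (2, 5), (3, 0), (3, 1), (3,
      2), (4, 1), (5, 2)]
    mix := [(0, 0), (1, 0), (1, 1), (1, 2), (1, 3), (2, 0), (2, 4), (2, 5), (2, 6), (3, 1), (3, 6), (3,
      7), (4, 1), (4, 2), (4, 8), (5, 2), (5, 4), (5, 5)]
    cl := [0, 0, 3, 2, 1, 4, 1, 6, 5]
    chq := [(2, 5), (5, 2)]
    rng := [(0, 3), (0, 4), (1, 7), (1, 8), (2, 3), (2, 4), (2, 5), (2, 8), (3, 0), (3, 2), (4, 0), (4,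
      2), (5, 2), (5, 6), (6, 5), (6, 7), (7, 1), (7, 6), (8, 1), (8, 2)]
    lev := [] }
  links := [[1, 6, 2, 3], [6, 0, 3, 7, 4, 8, 9], [3, 0, 6, 10, 5, 11, 12], [7, 1, 0, 2, 12, 13], [8, 1,
    7, 14], [11, 2, 10, 8]]
  P := {
    a := 6
    N := 15
    nb := [78, 985, 7273, 12423, 16770, 3332, 1543, 24602, 20018, 322, 356, 4388, 10252, 4232, 400]
    tri := [(0, 1, 3), (0, 1, 6), (0, 2, 3), (0, 2, 6), (1, 3, 7), (1, 4, 7), (1, 4, 8), (1, 6, 9), (1,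
      8, 9), (2, 3, 12), (2, 5, 10), (2, 5, 11), (2, 6, 10), (2, 11, 12), (3, 7, 13), (3, 12, 13),
      (4, 7, 14), (4, 8, 14), (5, 8, 10), (5, 8, 11)]
    fin := [0, 1, 2, 0, 1, 2, 0, 0, 8, 9, 2, 11, 2, 13, 1]
    chd := [(9, 1)]
    steps := [(0, 3), (0, 6), (0, 7), (1, 4), (1, 14), (2, 5), (2, 10), (2, 12)] }
  rep := [0, 2, 9, 8, 11, 1, 13]

noncomputable def v1517 : Cov.CovD where
  P := 3
  N := 4
  pl := [2, 5, 7]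
  lev := [⟨[], [], [], [], [(0, 0, [])]⟩,
    ⟨[], [(0, 0), (0, 2)], [(0, 0), (0, 2)], [3], [(0, 0, []), (1, 0, []), (3, 2, [5])]⟩,
    ⟨[(0, 1)], [(0, 0), (0, 1), (1, 0)], [(0, 1), (1, 1)], [4], [(0, 0, []), (4, 1, []),
      (6, 1, [])]⟩,
    ⟨[(0, 1), (0, 2), (1, 2)], [(0, 0), (0, 1), (1, 0), (1, 1), (1, 2), (2, 0), (2, 1)],
      [(0, 1)], [6], [(1, 0, []), (6, 1, [])]⟩,
    ⟨[(0, 1), (1, 3)], [(1, 0), (1, 2), (1, 5), (3, 0)], [(0, 5)], [3], [(1, 0, []), (8, 5,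
      [2])]⟩,
    ⟨[(0, 2), (2, 3)], [(2, 0), (2, 1)], [], [3, 4], [(4, 1, [])]⟩]
  Ta := [((0, 3), 0, 2), ((0, 4), 0, 1), ((1, 7), 0, 6), ((1, 8), 0, 5), ((4, 0), 1, 0), ((4, 2),
    1, 3), ((6, 5), 1, 4), ((6, 7), 1, 6)]
  Tb := [((0, 3, 4), 0, 2, 1), ((1, 7, 8), 0, 6, 5), ((2, 3, 4), 3, 2, 1), ((2, 3, 5), 3, 2, 4),
    ((2, 3, 8), 3, 2, 5), ((2, 4, 5), 3, 1, 4), ((2, 4, 8), 3, 1, 5), ((2, 5, 8), 3, 4, 5),
    ((3, 0, 2), 2, 0, 3), ((4, 0, 2), 1, 0, 3), ((5, 2, 6), 4, 3, 1), ((6, 5, 7), 1, 4, 6),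
    ((7, 1, 6), 6, 0, 1), ((8, 1, 2), 5, 0, 3)]
  Tc := []
  Td := [((2, 5), (3, 0), 0), ((2, 5), (3, 2), 3), ((5, 2), (8, 1), 0), ((5, 2), (8, 2), 3)]
  G := [[0, 0x818162122ac222164141acc2, 0x112412c4812112c8c, 0x821121c121421cc2,
    0x841912c8141441c26], [0, 0, 0x2121c111e1c24, 0x821121c221421cc2, 0x241a4ae1c28], [0, 0,
    0, 0x822122c122422cc1, 0x842949e2c1454c4414cca1], [0, 0, 0, 0x8242222c828d2232c4222c9c2,
    0x349e923ec2464c528]]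

noncomputable def n1517 : Ent := ⟨e1517, noF, [], [], []⟩

def c1517 : PLift (Cov.check n1517.C.D v1517 = true) := ⟨by decide +kernel⟩

def b1517 : PLift (entF (fidx ts) 400 1517 n1517 = true) := ⟨by decide +kernel⟩

theorem g1517 : GoodF (fidx ts) 400 1517 := GoodF.ofV v1517 n1517 c1517.down b1517.down

/-- 477644:1246 -/
noncomputable def e1518 : SCfg where
  D := {
    a := 6
    L := 10
    kp := 7
    inn := [(0, 1), (0, 2), (0, 3), (1, 0), (1, 3), (1, 4), (2, 0), (2, 3), (2, 5), (3, 0), (3, 1), (3,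
      2), (4, 1), (5, 2)]
    mix := [(0, 0), (1, 0), (1, 1), (1, 2), (1, 3), (2, 0), (2, 4), (2, 5), (2, 6), (3, 1), (3, 6), (3,
      7), (4, 1), (4, 2), (4, 8), (5, 4), (5, 5), (5, 9)]
    cl := [0, 0, 3, 4, 1, 2, 1, 6, 5, 7]
    chq := [(4, 5), (5, 4)]
    rng := [(0, 3), (0, 4), (1, 7), (1, 8), (2, 3), (2, 8), (3, 0), (3, 2), (4, 0), (4, 9), (5, 6), (5,
      9), (6, 5), (6, 7), (7, 1), (7, 6), (8, 1), (8, 2), (9, 4), (9, 5)]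
    lev := [] }
  links := [[1, 6, 2, 3], [6, 0, 3, 7, 4, 8, 9], [3, 0, 6, 10, 5, 11, 12], [7, 1, 0, 2, 12, 13], [8, 1,
    7, 14], [11, 2, 10, 15]]
  P := {
    a := 6
    N := 16
    nb := [78, 985, 7273, 12423, 16770, 35844, 1543, 24602, 16914, 322, 32868, 36900, 10252, 4232,
      400, 3104]
    tri := [(0, 1, 3), (0, 1, 6), (0, 2, 3), (0, 2, 6), (1, 3, 7), (1, 4, 7), (1, 4, 8), (1, 6, 9), (1,
      8, 9), (2, 3, 12), (2, 5, 10), (2, 5, 11), (2, 6, 10), (2, 11, 12), (3, 7, 13), (3, 12, 13),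
      (4, 7, 14), (4, 8, 14), (5, 10, 15), (5, 11, 15)]
    fin := [0, 1, 2, 0, 1, 2, 0, 0, 8, 9, 2, 11, 2, 13, 1, 15]
    chd := [(9, 1)]
    steps := [(0, 3), (0, 6), (0, 7), (1, 4), (1, 14), (2, 5), (2, 10), (2, 12)] }
  rep := [0, 2, 11, 8, 9, 1, 13, 15]

noncomputable def v1518 : Cov.CovD where
  P := 3
  N := 5
  pl := [2, 5, 7, 9]
  lev := [⟨[], [], [], [], [(0, 0, [])]⟩,
    ⟨[], [(0, 0), (0, 4)], [(0, 0), (0, 4)], [3], [(0, 0, []), (1, 0, []), (3, 4, [5])]⟩,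
    ⟨[(0, 1)], [(0, 0), (0, 1), (1, 0)], [(0, 1), (1, 1)], [2], [(0, 0, []), (4, 1, []),
      (6, 1, [])]⟩,
    ⟨[(0, 1), (0, 2), (1, 2)], [(0, 0), (0, 1), (1, 0), (1, 1), (1, 4), (2, 0), (2, 1)],
      [(0, 1)], [6], [(1, 0, []), (6, 1, [])]⟩,
    ⟨[(0, 1), (1, 3)], [(1, 0), (1, 4), (1, 5), (3, 0)], [(0, 5)], [3], [(1, 0, []), (8, 5,
      [4])]⟩,
    ⟨[(0, 2), (2, 3)], [(2, 0), (2, 1)], [], [2, 7], [(4, 1, [])]⟩]
  Ta := [((0, 3), 0, 4), ((0, 4), 0, 1), ((1, 7), 0, 6), ((1, 8), 0, 5), ((4, 0), 1, 0), ((4, 9),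
    1, 7), ((6, 5), 1, 2), ((6, 7), 1, 6)]
  Tb := [((0, 3, 4), 0, 4, 1), ((1, 7, 8), 0, 6, 5), ((2, 3, 8), 3, 4, 5), ((3, 0, 2), 4, 0, 3),
    ((4, 0, 9), 1, 0, 7), ((5, 6, 9), 2, 1, 7), ((6, 5, 7), 1, 2, 6), ((7, 1, 6), 6, 0, 1),
    ((8, 1, 2), 5, 0, 3), ((9, 4, 5), 7, 1, 2)]
  Tc := []
  Td := [((4, 5), (3, 0), 0), ((4, 5), (3, 2), 3), ((5, 4), (8, 1), 0), ((5, 4), (8, 2), 3)]
  G := [[0, 0xcc5cc6a4ccac1a4cc94c18ce2, 0xcc328c128ccc18e4, 0, 0x91289932899c18e4], [0, 0,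
    0x22c1422261822a14ca, 0x9c618c5a189cc14e2, 0x2261822a1822c18e2], [0, 0,
    0xcc628cca24ccc4ccc8ce1, 0, 0x9962811c99cc88c89a99a2845], [0, 0,
    0x226226c422a22ac822c22cc4e1, 0xcc6cc6c155accac89cc99cc4e2,
    0x226226c122a22ac1c22c22cc823]]

noncomputable def n1518 : Ent := ⟨e1518, noF, [], [], [(15, 14, [385746751338780685620664494392815470296102193487288376378703873, 0]), (15, 8, [360035742630636841212031212540452013763654843542796049053569025, 0])]⟩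

def c1518 : PLift (Cov.check n1518.C.D v1518 = true) := ⟨by decide +kernel⟩

def b1518 : PLift (entF (fidx ts) 400 1518 n1518 = true) := ⟨by decide +kernel⟩

theorem g1518 : GoodF (fidx ts) 400 1518 := GoodF.ofV v1518 n1518 c1518.down b1518.down

/-- 477645:1247/2 -/
noncomputable def e1519 : SCfg where
  D := {
    a := 6
    L := 9
    kp := 6
    inn := [(0, 1), (0, 2), (0, 3), (1, 0), (1, 3), (1, 4), (2, 0), (2, 3), (2, 5), (3, 0), (3, 1), (3,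
      2), (4, 1), (5, 2)]
    mix := [(0, 0), (1, 0), (1, 1), (1, 2), (1, 3), (2, 0), (2, 4), (2, 5), (2, 6), (3, 1), (3, 6), (3,
      7), (4, 1), (4, 2), (4, 8), (5, 2), (5, 4), (5, 5), (5, 8)]
    cl := [0, 1, 2, 1, 3, 3, 4, 6, 5]
    chq := [(0, 4), (0, 6), (4, 0), (6, 0)]
    rng := [(0, 3), (0, 4), (1, 7), (1, 8), (2, 3), (2, 5), (2, 8), (3, 0), (3, 2), (4, 0), (4, 8), (5,
      2), (5, 6), (6, 5), (6, 7), (7, 1), (7, 6), (8, 1), (8, 2), (8, 4)]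
    lev := [] }
  links := [[1, 6, 2, 3], [6, 0, 3, 7, 4, 8, 9], [3, 0, 6, 10, 5, 11, 12], [7, 1, 0, 2, 12, 13], [8, 1,
    7, 14], [11, 2, 10, 14, 8]]
  P := {
    a := 6
    N := 15
    nb := [78, 985, 7273, 12423, 16770, 19716, 1543, 24602, 18994, 322, 16484, 4388, 10252, 4232,
      1456]
    tri := [(0, 1, 3), (0, 1, 6), (0, 2, 3), (0, 2, 6), (1, 3, 7), (1, 4, 7), (1, 4, 8), (1, 6, 9), (1,
      8, 9), (2, 3, 12), (2, 5, 10), (2, 5, 11), (2, 6, 10), (2, 11, 12), (3, 7, 13), (3, 12, 13),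
      (4, 7, 14), (4, 8, 14), (5, 8, 11), (5, 8, 14), (5, 10, 14)]
    fin := [0, 1, 0, 0, 4, 5, 0, 1, 8, 1, 5, 5, 12, 13, 4]
    chd := [(0, 12), (0, 13)]
    steps := [(0, 2), (0, 3), (0, 6), (1, 7), (1, 9), (4, 14), (5, 10), (5, 11)] }
  rep := [0, 1, 8, 5, 12, 4, 13]

noncomputable def v1519 : Cov.CovD where
  P := 3
  N := 4
  pl := [2, 8]
  lev := [⟨[], [], [], [], [(0, 0, [4, 6])]⟩,
    ⟨[], [(0, 0), (0, 1)], [(0, 1), (1, 1)], [2], [(0, 0, [4, 6]), (1, 1, []), (3, 1, [])]⟩,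
    ⟨[(0, 1)], [(0, 0), (0, 3), (0, 4), (1, 0)], [(0, 3), (0, 4), (3, 3), (3, 4)], [], [(0,
      0, [4, 6]), (4, 3, []), (5, 3, []), (6, 4, [0])]⟩,
    ⟨[(0, 1), (0, 2), (1, 2)], [(0, 0), (0, 1), (0, 4), (0, 6), (1, 0), (1, 1), (1, 4), (1,
      6), (2, 0), (2, 1), (2, 3), (2, 4), (2, 6)], [(1, 4), (1, 6), (4, 6)], [], [(1, 1, []),
      (6, 4, [0]), (7, 6, [0])]⟩,
    ⟨[(0, 1), (1, 3)], [(1, 0), (1, 1), (3, 1)], [], [2, 5], [(1, 1, [])]⟩,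
    ⟨[(0, 2), (2, 3)], [(2, 0), (2, 3), (2, 4)], [(3, 3)], [2, 5], [(4, 3, []), (5, 3,
      [])]⟩]
  Ta := [((1, 7), 1, 6), ((1, 8), 1, 5), ((3, 0), 1, 0), ((3, 2), 1, 2), ((4, 0), 3, 0), ((4, 8),
    3, 5), ((5, 2), 3, 2), ((5, 6), 3, 4)]
  Tb := [((0, 3, 4), 0, 1, 3), ((1, 7, 8), 1, 6, 5), ((2, 3, 5), 2, 1, 3), ((2, 3, 8), 2, 1, 5),
    ((2, 5, 8), 2, 3, 5), ((3, 0, 2), 1, 0, 2), ((4, 0, 8), 3, 0, 5), ((5, 2, 6), 3, 2, 4),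
    ((6, 5, 7), 4, 3, 6), ((7, 1, 6), 6, 1, 4), ((8, 1, 2), 5, 1, 2), ((8, 1, 4), 5, 1, 3),
    ((8, 2, 4), 5, 2, 3)]
  Tc := [(0, 4, 6)]
  Td := [((0, 4), (0, 3), 1), ((0, 4), (0, 4), 3), ((0, 6), (0, 3), 1), ((0, 6), (0, 4), 3), ((4,
    0), (6, 5), 3), ((4, 0), (6, 7), 6), ((6, 0), (7, 1), 1), ((6, 0), (7, 6), 4)]
  G := [[0, 0, 0x6ac12886c1a4c1c46, 0, 0x3291288191a391c86], [0, 0, 0x4414886c1a812ec1e8c, 0,
    0x8191a1912191e84], [0, 0x11c111c111c1e48, 0xe21221a8e21446, 0x81914151c951e82,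
    0x8192b21221e84], [0, 0x11c114c111c1e42, 0x22128e21e21c86, 0x941581c151e42,
    0x921b21221e84]]

noncomputable def n1519 : Ent := ⟨e1519, noF, [], [], []⟩

def c1519 : PLift (Cov.check n1519.C.D v1519 = true) := ⟨by decide +kernel⟩

def b1519 : PLift (entF (fidx ts) 400 1519 n1519 = true) := ⟨by decide +kernel⟩

theorem g1519 : GoodF (fidx ts) 400 1519 := GoodF.ofV v1519 n1519 c1519.down b1519.down

/-- 477645:1247/1 -/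
noncomputable def e1520 : SCfg where
  D := {
    a := 6
    L := 10
    kp := 7
    inn := [(0, 1), (0, 2), (0, 3), (1, 0), (1, 3), (1, 4), (2, 0), (2, 3), (2, 5), (3, 0), (3, 1), (3,
      2), (4, 1), (5, 2)]
    mix := [(0, 0), (1, 0), (1, 1), (1, 2), (1, 3), (2, 0), (2, 4), (2, 5), (2, 6), (3, 1), (3, 6), (3,
      7), (4, 1), (4, 2), (4, 8), (5, 4), (5, 5), (5, 8), (5, 9)]
    cl := [0, 3, 4, 3, 1, 1, 2, 6, 5, 7]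
    chq := [(0, 2), (0, 6), (2, 0), (6, 0)]
    rng := [(0, 3), (0, 4), (1, 7), (1, 8), (2, 3), (2, 8), (3, 0), (3, 2), (4, 0), (4, 8), (5, 6), (5,
      9), (6, 5), (6, 7), (7, 1), (7, 6), (8, 1), (8, 2), (8, 4), (8, 9), (9, 5), (9, 8)]
    lev := [] }
  links := [[1, 6, 2, 3], [6, 0, 3, 7, 4, 8, 9], [3, 0, 6, 10, 5, 11, 12], [7, 1, 0, 2, 12, 13], [8, 1,
    7, 14], [11, 2, 10, 14, 15]]
  P := {
    a := 6
    N := 16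
    nb := [78, 985, 7273, 12423, 16770, 52228, 1543, 24602, 16914, 322, 16484, 36900, 10252, 4232,
      34224, 18464]
    tri := [(0, 1, 3), (0, 1, 6), (0, 2, 3), (0, 2, 6), (1, 3, 7), (1, 4, 7), (1, 4, 8), (1, 6, 9), (1,
      8, 9), (2, 3, 12), (2, 5, 10), (2, 5, 11), (2, 6, 10), (2, 11, 12), (3, 7, 13), (3, 12, 13),
      (4, 7, 14), (4, 8, 14), (5, 10, 14), (5, 11, 15), (5, 14, 15)]
    fin := [0, 1, 0, 0, 4, 5, 0, 1, 8, 1, 5, 5, 12, 13, 4, 15]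
    chd := [(0, 12), (0, 13)]
    steps := [(0, 2), (0, 3), (0, 6), (1, 7), (1, 9), (4, 14), (5, 10), (5, 11)] }
  rep := [0, 5, 12, 1, 8, 4, 13, 15]

noncomputable def v1520 : Cov.CovD where
  P := 3
  N := 5
  pl := [2, 8, 9]
  lev := [⟨[], [], [], [], [(0, 0, [2, 6])]⟩,
    ⟨[], [(0, 0), (0, 3)], [(0, 3), (3, 3)], [4], [(0, 0, [2, 6]), (1, 3, []), (3, 3, [])]⟩,
    ⟨[(0, 1)], [(0, 0), (0, 1), (0, 2), (1, 0)], [(0, 1), (0, 2), (1, 1), (1, 2)], [], [(0,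
      0, [2, 6]), (4, 1, []), (5, 1, []), (6, 2, [0])]⟩,
    ⟨[(0, 1), (0, 2), (1, 2)], [(0, 0), (0, 2), (0, 3), (0, 6), (1, 0), (1, 2), (1, 3), (1,
      6), (2, 0), (2, 1), (2, 2), (2, 3), (2, 6)], [(2, 3), (2, 6), (3, 6)], [], [(1, 3, []),
      (6, 2, [0]), (7, 6, [0])]⟩,
    ⟨[(0, 1), (1, 3)], [(1, 0), (1, 3), (3, 3)], [], [4, 5], [(1, 3, [])]⟩,
    ⟨[(0, 2), (2, 3)], [(2, 0), (2, 1), (2, 2)], [(1, 1)], [5, 7], [(4, 1, []), (5, 1,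
      [])]⟩]
  Ta := [((1, 7), 3, 6), ((1, 8), 3, 5), ((3, 0), 3, 0), ((3, 2), 3, 4), ((4, 0), 1, 0), ((4, 8),
    1, 5), ((5, 6), 1, 2), ((5, 9), 1, 7)]
  Tb := [((0, 3, 4), 0, 3, 1), ((1, 7, 8), 3, 6, 5), ((2, 3, 8), 4, 3, 5), ((3, 0, 2), 3, 0, 4),
    ((4, 0, 8), 1, 0, 5), ((5, 6, 9), 1, 2, 7), ((6, 5, 7), 2, 1, 6), ((7, 1, 6), 6, 3, 2),
    ((8, 1, 2), 5, 3, 4), ((8, 1, 4), 5, 3, 1), ((8, 1, 9), 5, 3, 7), ((8, 2, 4), 5, 4, 1),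
    ((8, 2, 9), 5, 4, 7), ((8, 4, 9), 5, 1, 7), ((9, 5, 8), 7, 1, 5)]
  Tc := [(0, 2, 6)]
  Td := [((0, 2), (0, 3), 3), ((0, 2), (0, 4), 1), ((0, 6), (0, 3), 3), ((0, 6), (0, 4), 1), ((2,
    0), (6, 5), 1), ((2, 0), (6, 7), 6), ((6, 0), (7, 1), 3), ((6, 0), (7, 6), 2)]
  G := [[0, 0xe66d18e118cec718e4, 0xd53182d5914d9518c6, 0, 0xd5918d9318ad951846], [0,
    0xee614e114ee914e2, 0xdd614c9514d9314e8, 0, 0xdd618949e18ddc18e2], [0, 0,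
    0xd2142d5918d9518ca, 0xd2182d5918d9518c6, 0xd5918d218ad951846], [0, 0,
    0xcc1714949e14d214e8, 0xdd6149c9d14d214e8, 0xc59d438dda18d218e4]]

noncomputable def n1520 : Ent := ⟨e1520, noF, [], [], [(15, 8, [360035742630636841212031212540452013763654843542796049053577217, 0])]⟩

def c1520 : PLift (Cov.check n1520.C.D v1520 = true) := ⟨by decide +kernel⟩

def b1520 : PLift (entF (fidx ts) 400 1520 n1520 = true) := ⟨by decide +kernel⟩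

theorem g1520 : GoodF (fidx ts) 400 1520 := GoodF.ofV v1520 n1520 c1520.down b1520.down

/-- 477645:1247/3 -/
noncomputable def e1521 : SCfg where
  D := {
    a := 6
    L := 10
    kp := 7
    inn := [(0, 1), (0, 2), (0, 3), (1, 0), (1, 3), (1, 4), (2, 0), (2, 3), (2, 5), (3, 0), (3, 1), (3,
      2), (4, 1), (5, 2)]
    mix := [(0, 0), (1, 0), (1, 1), (1, 2), (1, 3), (2, 0), (2, 4), (2, 5), (2, 6), (3, 1), (3, 6), (3,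
      7), (4, 1), (4, 2), (4, 8), (5, 4), (5, 5), (5, 8), (5, 9)]
    cl := [0, 1, 2, 1, 3, 3, 4, 6, 5, 7]
    chq := [(0, 4), (0, 6), (4, 0), (6, 0)]
    rng := [(0, 3), (0, 4), (1, 7), (1, 8), (2, 3), (2, 8), (3, 0), (3, 2), (4, 0), (4, 9), (5, 6), (5,
      8), (6, 5), (6, 7), (7, 1), (7, 6), (8, 1), (8, 2), (8, 5), (8, 9), (9, 4), (9, 8)]
    lev := [] }
  links := [[1, 6, 2, 3], [6, 0, 3, 7, 4, 8, 9], [3, 0, 6, 10, 5, 11, 12], [7, 1, 0, 2, 12, 13], [8, 1,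
    7, 14], [11, 2, 10, 15, 14]]
  P := {
    a := 6
    N := 16
    nb := [78, 985, 7273, 12423, 16770, 52228, 1543, 24602, 16914, 322, 32868, 20516, 10252, 4232,
      35248, 17440]
    tri := [(0, 1, 3), (0, 1, 6), (0, 2, 3), (0, 2, 6), (1, 3, 7), (1, 4, 7), (1, 4, 8), (1, 6, 9), (1,
      8, 9), (2, 3, 12), (2, 5, 10), (2, 5, 11), (2, 6, 10), (2, 11, 12), (3, 7, 13), (3, 12, 13),
      (4, 7, 14), (4, 8, 14), (5, 10, 15), (5, 11, 14), (5, 14, 15)]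
    fin := [0, 1, 0, 0, 4, 5, 0, 1, 8, 1, 5, 5, 12, 13, 4, 15]
    chd := [(0, 12), (0, 13)]
    steps := [(0, 2), (0, 3), (0, 6), (1, 7), (1, 9), (4, 14), (5, 10), (5, 11)] }
  rep := [0, 1, 8, 5, 12, 4, 13, 15]

noncomputable def v1521 : Cov.CovD where
  P := 3
  N := 5
  pl := [2, 8, 9]
  lev := [⟨[], [], [], [], [(0, 0, [4, 6])]⟩,
    ⟨[], [(0, 0), (0, 1)], [(0, 1), (1, 1)], [2], [(0, 0, [4, 6]), (1, 1, []), (3, 1, [])]⟩,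
    ⟨[(0, 1)], [(0, 0), (0, 3), (0, 4), (1, 0)], [(0, 3), (0, 4), (3, 3), (3, 4)], [], [(0,
      0, [4, 6]), (4, 3, []), (5, 3, []), (6, 4, [0])]⟩,
    ⟨[(0, 1), (0, 2), (1, 2)], [(0, 0), (0, 1), (0, 4), (0, 6), (1, 0), (1, 1), (1, 4), (1,
      6), (2, 0), (2, 1), (2, 3), (2, 4), (2, 6)], [(1, 4), (1, 6), (4, 6)], [], [(1, 1, []),
      (6, 4, [0]), (7, 6, [0])]⟩,
    ⟨[(0, 1), (1, 3)], [(1, 0), (1, 1), (3, 1)], [], [2, 5], [(1, 1, [])]⟩,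
    ⟨[(0, 2), (2, 3)], [(2, 0), (2, 3), (2, 4)], [(3, 3)], [5, 7], [(4, 3, []), (5, 3,
      [])]⟩]
  Ta := [((1, 7), 1, 6), ((1, 8), 1, 5), ((3, 0), 1, 0), ((3, 2), 1, 2), ((4, 0), 3, 0), ((4, 9),
    3, 7), ((5, 6), 3, 4), ((5, 8), 3, 5)]
  Tb := [((0, 3, 4), 0, 1, 3), ((1, 7, 8), 1, 6, 5), ((2, 3, 8), 2, 1, 5), ((3, 0, 2), 1, 0, 2),
    ((4, 0, 9), 3, 0, 7), ((5, 6, 8), 3, 4, 5), ((6, 5, 7), 4, 3, 6), ((7, 1, 6), 6, 1, 4),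
    ((8, 1, 2), 5, 1, 2), ((8, 1, 5), 5, 1, 3), ((8, 1, 9), 5, 1, 7), ((8, 2, 5), 5, 2, 3),
    ((8, 2, 9), 5, 2, 7), ((8, 5, 9), 5, 3, 7), ((9, 4, 8), 7, 3, 5)]
  Tc := [(0, 4, 6)]
  Td := [((0, 4), (0, 3), 1), ((0, 4), (0, 4), 3), ((0, 6), (0, 3), 1), ((0, 6), (0, 4), 3), ((4,
    0), (6, 5), 3), ((4, 0), (6, 7), 6), ((6, 0), (7, 1), 1), ((6, 0), (7, 6), 4)]
  G := [[0, 0, 0x97c1b7c1a8b5c1446, 0, 0xe791111e391e8e491486], [0, 0, 0x97c1b1c1b7c1e8441486,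
    0, 0xe39128e791e591c86], [0, 0x22c12897c1b5c195c1e46, 0xf2128f21f21c8a,
    0xeb51a61d16497c188a, 0xf21f2168f2188a], [0, 0x741b5c13fc1e498188a, 0xa2124f21f21521e86,
    0xa4c1441114e791e391acc, 0xf21f21a8f21486]]

noncomputable def n1521 : Ent := ⟨e1521, noF, [], [], []⟩

def c1521 : PLift (Cov.check n1521.C.D v1521 = true) := ⟨by decide +kernel⟩

def b1521 : PLift (entF (fidx ts) 400 1521 n1521 = true) := ⟨by decide +kernel⟩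

theorem g1521 : GoodF (fidx ts) 400 1521 := GoodF.ofV v1521 n1521 c1521.down b1521.down

/-- 477645:1247/4 -/
noncomputable def e1522 : SCfg where
  D := {
    a := 6
    L := 10
    kp := 7
    inn := [(0, 1), (0, 2), (0, 3), (1, 0), (1, 3), (1, 4), (2, 0), (2, 3), (2, 5), (3, 0), (3, 1), (3,
      2), (4, 1), (5, 2)]
    mix := [(0, 0), (1, 0), (1, 1), (1, 2), (1, 3), (2, 0), (2, 4), (2, 5), (2, 6), (3, 1), (3, 6), (3,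
      7), (4, 1), (4, 2), (4, 8), (5, 2), (5, 4), (5, 5), (5, 9)]
    cl := [0, 1, 2, 1, 3, 3, 4, 5, 6, 7]
    chq := [(0, 4), (0, 5), (4, 0), (5, 0)]
    rng := [(0, 3), (0, 4), (1, 7), (1, 8), (2, 3), (2, 5), (2, 8), (2, 9), (3, 0), (3, 2), (4, 0), (4,
      9), (5, 2), (5, 6), (6, 5), (6, 7), (7, 1), (7, 6), (8, 1), (8, 2), (9, 2), (9, 4)]
    lev := [] }
  links := [[1, 6, 2, 3], [6, 0, 3, 7, 4, 8, 9], [3, 0, 6, 10, 5, 11, 12], [7, 1, 0, 2, 12, 13], [8, 1,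
    7, 14], [11, 2, 10, 15, 8]]
  P := {
    a := 6
    N := 16
    nb := [78, 985, 7273, 12423, 16770, 36100, 1543, 24602, 51762, 322, 32868, 4388, 10252, 4232, 400,
      1312]
    tri := [(0, 1, 3), (0, 1, 6), (0, 2, 3), (0, 2, 6), (1, 3, 7), (1, 4, 7), (1, 4, 8), (1, 6, 9), (1,
      8, 9), (2, 3, 12), (2, 5, 10), (2, 5, 11), (2, 6, 10), (2, 11, 12), (3, 7, 13), (3, 12, 13),
      (4, 7, 14), (4, 8, 14), (5, 8, 11), (5, 8, 15), (5, 10, 15)]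
    fin := [0, 1, 0, 0, 4, 5, 0, 1, 4, 1, 5, 5, 12, 13, 14, 15]
    chd := [(0, 12), (0, 13)]
    steps := [(0, 2), (0, 3), (0, 6), (1, 7), (1, 9), (4, 8), (5, 10), (5, 11)] }
  rep := [0, 1, 4, 5, 12, 13, 14, 15]

noncomputable def v1522 : Cov.CovD where
  P := 3
  N := 5
  pl := [2, 8, 9]
  lev := [⟨[], [], [], [], [(0, 0, [4, 5])]⟩,
    ⟨[], [(0, 0), (0, 1)], [(0, 1), (1, 1)], [2], [(0, 0, [4, 5]), (1, 1, []), (3, 1, [])]⟩,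
    ⟨[(0, 1)], [(0, 0), (0, 3), (0, 4), (1, 0)], [(0, 3), (0, 4), (3, 3), (3, 4)], [], [(0,
      0, [4, 5]), (4, 3, []), (5, 3, []), (6, 4, [0])]⟩,
    ⟨[(0, 1), (0, 2), (1, 2)], [(0, 0), (0, 1), (0, 4), (0, 5), (1, 0), (1, 1), (1, 4), (1,
      5), (2, 0), (2, 1), (2, 3), (2, 4), (2, 5)], [(1, 4), (1, 5), (4, 5)], [], [(1, 1, []),
      (6, 4, [0]), (7, 5, [0])]⟩,
    ⟨[(0, 1), (1, 3)], [(1, 0), (1, 1), (3, 1)], [], [2, 6], [(1, 1, [])]⟩,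
    ⟨[(0, 2), (2, 3)], [(2, 0), (2, 3), (2, 4)], [(3, 3)], [2, 7], [(4, 3, []), (5, 3,
      [])]⟩]
  Ta := [((1, 7), 1, 5), ((1, 8), 1, 6), ((3, 0), 1, 0), ((3, 2), 1, 2), ((4, 0), 3, 0), ((4, 9),
    3, 7), ((5, 2), 3, 2), ((5, 6), 3, 4)]
  Tb := [((0, 3, 4), 0, 1, 3), ((1, 7, 8), 1, 5, 6), ((2, 3, 5), 2, 1, 3), ((2, 3, 8), 2, 1, 6),
    ((2, 3, 9), 2, 1, 7), ((2, 5, 8), 2, 3, 6), ((2, 5, 9), 2, 3, 7), ((2, 8, 9), 2, 6, 7),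
    ((3, 0, 2), 1, 0, 2), ((4, 0, 9), 3, 0, 7), ((5, 2, 6), 3, 2, 4), ((6, 5, 7), 4, 3, 5),
    ((7, 1, 6), 5, 1, 4), ((8, 1, 2), 6, 1, 2), ((9, 2, 4), 7, 2, 3)]
  Tc := [(0, 4, 5)]
  Td := [((0, 4), (0, 3), 1), ((0, 4), (0, 4), 3), ((0, 5), (0, 3), 1), ((0, 5), (0, 4), 3), ((4,
    0), (6, 5), 3), ((4, 0), (6, 7), 5), ((5, 0), (7, 1), 1), ((5, 0), (7, 6), 4)]
  G := [[0, 0, 0xeec124eec1eec1c4a, 0, 0x9991bb913391e84], [0, 0, 0xe4c144eec1a41eec1e8c, 0,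
    0x9991bb913391e84], [0, 0x55c14499c1ddc1a8c, 0xe2148e21e21a8c, 0x999155c1dd51e82,
    0x921b21321e84], [0, 0x99c155c1ddc1e42, 0xe21e2164e2188a, 0x99915591dd91e42,
    0x921b21321e84]]

noncomputable def n1522 : Ent := ⟨e1522, noF, [], [], [(15, 14, [385746751338780685620664494392815470296102193487288376378716161, 0])]⟩

def c1522 : PLift (Cov.check n1522.C.D v1522 = true) := ⟨by decide +kernel⟩

def b1522 : PLift (entF (fidx ts) 400 1522 n1522 = true) := ⟨by decide +kernel⟩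

theorem g1522 : GoodF (fidx ts) 400 1522 := GoodF.ofV v1522 n1522 c1522.down b1522.down

/-- 477645:1247 -/
noncomputable def e1523 : SCfg where
  D := {
    a := 6
    L := 11
    kp := 8
    inn := [(0, 1), (0, 2), (0, 3), (1, 0), (1, 3), (1, 4), (2, 0), (2, 3), (2, 5), (3, 0), (3, 1), (3,
      2), (4, 1), (5, 2)]
    mix := [(0, 0), (1, 0), (1, 1), (1, 2), (1, 3), (2, 0), (2, 4), (2, 5), (2, 6), (3, 1), (3, 6), (3,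
      7), (4, 1), (4, 2), (4, 8), (5, 4), (5, 5), (5, 9), (5, 10)]
    cl := [0, 1, 2, 1, 3, 3, 4, 5, 6, 7, 8]
    chq := [(0, 4), (0, 5), (4, 0), (5, 0)]
    rng := [(0, 3), (0, 4), (1, 7), (1, 8), (2, 3), (2, 8), (3, 0), (3, 2), (4, 0), (4, 9), (5, 6), (5,
      10), (6, 5), (6, 7), (7, 1), (7, 6), (8, 1), (8, 2), (9, 4), (9, 10), (10, 5), (10, 9)]
    lev := [] }
  links := [[1, 6, 2, 3], [6, 0, 3, 7, 4, 8, 9], [3, 0, 6, 10, 5, 11, 12], [7, 1, 0, 2, 12, 13], [8, 1,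
    7, 14], [11, 2, 10, 15, 16]]
  P := {
    a := 6
    N := 17
    nb := [78, 985, 7273, 12423, 16770, 101380, 1543, 24602, 16914, 322, 32868, 69668, 10252, 4232,
      400, 66592, 34848]
    tri := [(0, 1, 3), (0, 1, 6), (0, 2, 3), (0, 2, 6), (1, 3, 7), (1, 4, 7), (1, 4, 8), (1, 6, 9), (1,
      8, 9), (2, 3, 12), (2, 5, 10), (2, 5, 11), (2, 6, 10), (2, 11, 12), (3, 7, 13), (3, 12, 13),
      (4, 7, 14), (4, 8, 14), (5, 10, 15), (5, 11, 16), (5, 15, 16)]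
    fin := [0, 1, 0, 0, 1, 5, 0, 1, 8, 1, 5, 5, 12, 13, 14, 15, 16]
    chd := [(0, 12), (0, 13)]
    steps := [(0, 2), (0, 3), (0, 6), (1, 4), (1, 7), (1, 9), (5, 10), (5, 11)] }
  rep := [0, 1, 8, 5, 12, 13, 14, 15, 16]

noncomputable def v1523 : Cov.CovD where
  P := 3
  N := 6
  pl := [2, 8, 9, 10]
  lev := [⟨[], [], [], [], [(0, 0, [4, 5])]⟩,
    ⟨[], [(0, 0), (0, 1)], [(0, 1), (1, 1)], [2], [(0, 0, [4, 5]), (1, 1, []), (3, 1, [])]⟩,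
    ⟨[(0, 1)], [(0, 0), (0, 3), (0, 4), (1, 0)], [(0, 3), (0, 4), (3, 3), (3, 4)], [], [(0,
      0, [4, 5]), (4, 3, []), (5, 3, []), (6, 4, [0])]⟩,
    ⟨[(0, 1), (0, 2), (1, 2)], [(0, 0), (0, 1), (0, 4), (0, 5), (1, 0), (1, 1), (1, 4), (1,
      5), (2, 0), (2, 1), (2, 3), (2, 4), (2, 5)], [(1, 4), (1, 5), (4, 5)], [], [(1, 1, []),
      (6, 4, [0]), (7, 5, [0])]⟩,
    ⟨[(0, 1), (1, 3)], [(1, 0), (1, 1), (3, 1)], [], [2, 6], [(1, 1, [])]⟩,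
    ⟨[(0, 2), (2, 3)], [(2, 0), (2, 3), (2, 4)], [(3, 3)], [7, 8], [(4, 3, []), (5, 3,
      [])]⟩]
  Ta := [((1, 7), 1, 5), ((1, 8), 1, 6), ((3, 0), 1, 0), ((3, 2), 1, 2), ((4, 0), 3, 0), ((4, 9),
    3, 7), ((5, 6), 3, 4), ((5, 10), 3, 8)]
  Tb := [((0, 3, 4), 0, 1, 3), ((1, 7, 8), 1, 5, 6), ((2, 3, 8), 2, 1, 6), ((3, 0, 2), 1, 0, 2),
    ((4, 0, 9), 3, 0, 7), ((5, 6, 10), 3, 4, 8), ((6, 5, 7), 4, 3, 5), ((7, 1, 6), 5, 1, 4),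
    ((8, 1, 2), 6, 1, 2), ((9, 4, 10), 7, 3, 8), ((10, 5, 9), 8, 3, 7)]
  Tc := [(0, 4, 5)]
  Td := [((0, 4), (0, 3), 1), ((0, 4), (0, 4), 3), ((0, 5), (0, 3), 1), ((0, 5), (0, 4), 3), ((4,
    0), (6, 5), 3), ((4, 0), (6, 7), 5), ((5, 0), (7, 1), 1), ((5, 0), (7, 6), 4)]
  G := [[0, 0, 0xffc1b81ffc1e84fc1486, 0, 0x229128ff91ff91dd91e86], [0, 0, 0xffc128ffc1ffc1c86,
    0, 0xff91b81ff91e84f91486], [0, 0xffc1341ffc1e8fcc1446, 0xf2148f21f21a8c,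
    0xff5128ffc1ff91c46, 0x22128f21f21d21e8a], [0, 0xffc1b41ffc1e8f4c1446, 0xf21f2168f2184c,
    0xff91b41ff91e8f491446, 0xf2128f21f21c8a]]

noncomputable def n1523 : Ent := ⟨e1523, noF, [], [], [(15, 14, [1685382413448253767852309107433119732572617628602273068445371138049, 0]), (16, 14, [1580095832788404724998799751142926758855362888449624481876424986625, 0]), (16, 8, [1580044410770988437309982451912114807532205501265773183772026413057, 0])]⟩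

def c1523 : PLift (Cov.check n1523.C.D v1523 = true) := ⟨by decide +kernel⟩

def b1523 : PLift (entF (fidx ts) 400 1523 n1523 = true) := ⟨by decide +kernel⟩

theorem g1523 : GoodF (fidx ts) 400 1523 := GoodF.ofV v1523 n1523 c1523.down b1523.down

/-- 477644:1248/1 -/
noncomputable def e1524 : SCfg where
  D := {
    a := 6
    L := 9
    kp := 6
    inn := [(0, 1), (0, 2), (0, 3), (1, 0), (1, 3), (1, 4), (2, 0), (2, 3), (2, 5), (3, 0), (3, 1), (3,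
      2), (4, 1), (5, 2)]
    mix := [(0, 0), (1, 0), (1, 1), (1, 2), (1, 3), (2, 0), (2, 4), (2, 5), (2, 6), (3, 1), (3, 6), (3,
      7), (4, 1), (4, 2), (4, 8), (5, 5), (5, 6), (5, 8)]
    cl := [1, 0, 2, 0, 3, 4, 3, 6, 5]
    chq := [(1, 6), (6, 1)]
    rng := [(0, 3), (0, 4), (1, 7), (1, 8), (2, 3), (2, 8), (3, 0), (3, 2), (4, 0), (4, 5), (5, 4), (5,
      8), (6, 7), (6, 8), (7, 1), (7, 6), (8, 1), (8, 2), (8, 5), (8, 6)]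
    lev := [] }
  links := [[1, 6, 2, 3], [6, 0, 3, 7, 4, 8, 9], [3, 0, 6, 10, 11, 5, 12], [7, 1, 0, 2, 12, 13], [8, 1,
    7, 14], [12, 2, 11, 14]]
  P := {
    a := 6
    N := 15
    nb := [78, 985, 7273, 12423, 16770, 22532, 1543, 24602, 16914, 322, 2116, 17444, 24620, 4232,
      6576]
    tri := [(0, 1, 3), (0, 1, 6), (0, 2, 3), (0, 2, 6), (1, 3, 7), (1, 4, 7), (1, 4, 8), (1, 6, 9), (1,
      8, 9), (2, 3, 12), (2, 5, 11), (2, 5, 12), (2, 6, 10), (2, 10, 11), (3, 7, 13), (3, 12, 13),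
      (4, 7, 14), (4, 8, 14), (5, 11, 14), (5, 12, 14)]
    fin := [0, 1, 2, 0, 4, 2, 0, 1, 8, 1, 2, 11, 2, 13, 4]
    chd := [(0, 13)]
    steps := [(0, 3), (0, 6), (1, 7), (1, 9), (2, 5), (2, 10), (2, 12), (4, 14)] }
  rep := [1, 0, 8, 2, 11, 4, 13]

noncomputable def v1524 : Cov.CovD where
  P := 3
  N := 4
  pl := [2, 5, 8]
  lev := [⟨[], [], [], [], [(0, 1, [6])]⟩,
    ⟨[], [(0, 0), (0, 1)], [(0, 0), (0, 1)], [2], [(0, 1, [6]), (1, 0, []), (3, 0, [])]⟩,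
    ⟨[(0, 1)], [(0, 1), (0, 3), (1, 1)], [(1, 3), (3, 3)], [4], [(0, 1, [6]), (4, 3, []),
      (6, 3, [])]⟩,
    ⟨[(0, 1), (0, 2), (1, 2)], [(0, 0), (0, 1), (0, 3), (0, 6), (1, 0), (1, 1), (1, 3), (1,
      6), (2, 0), (2, 1), (2, 3), (2, 6)], [(0, 3), (0, 6), (3, 6)], [], [(1, 0, []), (6, 3,
      []), (7, 6, [1])]⟩,
    ⟨[(0, 1), (1, 3)], [(1, 0), (1, 1), (3, 0)], [], [2, 5], [(1, 0, [])]⟩,
    ⟨[(0, 2), (2, 3)], [(2, 1), (2, 3), (3, 3)], [], [4, 5], [(6, 3, [])]⟩]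
  Ta := [((1, 7), 0, 6), ((1, 8), 0, 5), ((3, 0), 0, 1), ((3, 2), 0, 2), ((4, 0), 3, 1), ((4, 5),
    3, 4), ((6, 7), 3, 6), ((6, 8), 3, 5)]
  Tb := [((0, 3, 4), 1, 0, 3), ((1, 7, 8), 0, 6, 5), ((2, 3, 8), 2, 0, 5), ((3, 0, 2), 0, 1, 2),
    ((4, 0, 5), 3, 1, 4), ((5, 4, 8), 4, 3, 5), ((6, 7, 8), 3, 6, 5), ((7, 1, 6), 6, 0, 3),
    ((8, 1, 2), 5, 0, 2), ((8, 1, 5), 5, 0, 4), ((8, 1, 6), 5, 0, 3), ((8, 2, 5), 5, 2, 4),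
    ((8, 2, 6), 5, 2, 3), ((8, 5, 6), 5, 4, 3)]
  Tc := []
  Td := [((1, 6), (0, 3), 0), ((1, 6), (0, 4), 3), ((6, 1), (7, 1), 0), ((6, 1), (7, 6), 3)]
  G := [[0, 0, 0, 0x85c291c284c2d84, 0x85a291a2c1a2d84], [0, 0, 0, 0x83c212c29824c2445,
    0x1821883a246a2222d85], [0, 0x86c112c181c1e84, 0x42624882a211a294c, 0x512912112d48,
    0x512912112d84], [0, 0x83c134c111c1e42, 0x11621482c24262c89, 0x11214a12612c49,
    0x11218a12612c85]]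

noncomputable def n1524 : Ent := ⟨e1524, noF, [], [], []⟩

def c1524 : PLift (Cov.check n1524.C.D v1524 = true) := ⟨by decide +kernel⟩

def b1524 : PLift (entF (fidx ts) 400 1524 n1524 = true) := ⟨by decide +kernel⟩

theorem g1524 : GoodF (fidx ts) 400 1524 := GoodF.ofV v1524 n1524 c1524.down b1524.down

/-- 477644:1248 -/
noncomputable def e1525 : SCfg where
  D := {
    a := 6
    L := 10
    kp := 7
    inn := [(0, 1), (0, 2), (0, 3), (1, 0), (1, 3), (1, 4), (2, 0), (2, 3), (2, 5), (3, 0), (3, 1), (3,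
      2), (4, 1), (5, 2)]
    mix := [(0, 0), (1, 0), (1, 1), (1, 2), (1, 3), (2, 0), (2, 4), (2, 5), (2, 6), (3, 1), (3, 6), (3,
      7), (4, 1), (4, 2), (4, 8), (5, 5), (5, 6), (5, 9)]
    cl := [1, 0, 2, 0, 3, 4, 3, 5, 6, 7]
    chq := [(1, 5), (5, 1)]
    rng := [(0, 3), (0, 4), (1, 7), (1, 8), (2, 3), (2, 8), (3, 0), (3, 2), (4, 0), (4, 5), (5, 4), (5,
      9), (6, 7), (6, 9), (7, 1), (7, 6), (8, 1), (8, 2), (9, 5), (9, 6)]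
    lev := [] }
  links := [[1, 6, 2, 3], [6, 0, 3, 7, 4, 8, 9], [3, 0, 6, 10, 11, 5, 12], [7, 1, 0, 2, 12, 13], [8, 1,
    7, 14], [12, 2, 11, 15]]
  P := {
    a := 6
    N := 16
    nb := [78, 985, 7273, 12423, 16770, 38916, 1543, 24602, 16914, 322, 2116, 33828, 41004, 4232, 400,
      6176]
    tri := [(0, 1, 3), (0, 1, 6), (0, 2, 3), (0, 2, 6), (1, 3, 7), (1, 4, 7), (1, 4, 8), (1, 6, 9), (1,
      8, 9), (2, 3, 12), (2, 5, 11), (2, 5, 12), (2, 6, 10), (2, 10, 11), (3, 7, 13), (3, 12, 13),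
      (4, 7, 14), (4, 8, 14), (5, 11, 15), (5, 12, 15)]
    fin := [0, 1, 2, 0, 1, 2, 0, 1, 8, 1, 2, 11, 2, 13, 14, 15]
    chd := [(0, 13)]
    steps := [(0, 3), (0, 6), (1, 4), (1, 7), (1, 9), (2, 5), (2, 10), (2, 12)] }
  rep := [1, 0, 8, 2, 11, 13, 14, 15]

noncomputable def v1525 : Cov.CovD where
  P := 3
  N := 5
  pl := [2, 5, 8, 9]
  lev := [⟨[], [], [], [], [(0, 1, [5])]⟩,
    ⟨[], [(0, 0), (0, 1)], [(0, 0), (0, 1)], [2], [(0, 1, [5]), (1, 0, []), (3, 0, [])]⟩,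
    ⟨[(0, 1)], [(0, 1), (0, 3), (1, 1)], [(1, 3), (3, 3)], [4], [(0, 1, [5]), (4, 3, []),
      (6, 3, [])]⟩,
    ⟨[(0, 1), (0, 2), (1, 2)], [(0, 0), (0, 1), (0, 3), (0, 5), (1, 0), (1, 1), (1, 3), (1,
      5), (2, 0), (2, 1), (2, 3), (2, 5)], [(0, 3), (0, 5), (3, 5)], [], [(1, 0, []), (6, 3,
      []), (7, 5, [1])]⟩,
    ⟨[(0, 1), (1, 3)], [(1, 0), (1, 1), (3, 0)], [], [2, 6], [(1, 0, [])]⟩,
    ⟨[(0, 2), (2, 3)], [(2, 1), (2, 3), (3, 3)], [], [4, 7], [(6, 3, [])]⟩]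
  Ta := [((1, 7), 0, 5), ((1, 8), 0, 6), ((3, 0), 0, 1), ((3, 2), 0, 2), ((4, 0), 3, 1), ((4, 5),
    3, 4), ((6, 7), 3, 5), ((6, 9), 3, 7)]
  Tb := [((0, 3, 4), 1, 0, 3), ((1, 7, 8), 0, 5, 6), ((2, 3, 8), 2, 0, 6), ((3, 0, 2), 0, 1, 2),
    ((4, 0, 5), 3, 1, 4), ((5, 4, 9), 4, 3, 7), ((6, 7, 9), 3, 5, 7), ((7, 1, 6), 5, 0, 3),
    ((8, 1, 2), 6, 0, 2), ((9, 5, 6), 7, 4, 3)]
  Tc := []
  Td := [((1, 5), (0, 3), 0), ((1, 5), (0, 4), 3), ((5, 1), (7, 1), 0), ((5, 1), (7, 6), 3)]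
  G := [[0, 0, 0, 0xeec299c277c2d84, 0x5da297a2cca2d81], [0, 0, 0, 0x66c233c254aac2849,
    0x33a218aaa266a2c85], [0, 0x96c1512ac9ccc1e42, 0xb5a27962ccc2d81, 0xd12912712d84,
    0x512912c12d84], [0, 0x55c133c16499c188c, 0x666248aaa2336298c, 0x61231258a12889,
    0xa1231298612485]]

noncomputable def n1525 : Ent := ⟨e1525, noF, [], [], [(15, 14, [385746751338780685620664494392815470296102193487288376378736641, 0])]⟩

def c1525 : PLift (Cov.check n1525.C.D v1525 = true) := ⟨by decide +kernel⟩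

def b1525 : PLift (entF (fidx ts) 400 1525 n1525 = true) := ⟨by decide +kernel⟩

theorem g1525 : GoodF (fidx ts) 400 1525 := GoodF.ofV v1525 n1525 c1525.down b1525.down

/-- 477644:1249/1 -/
noncomputable def e1526 : SCfg where
  D := {
    a := 6
    L := 9
    kp := 6
    inn := [(0, 1), (0, 2), (0, 3), (1, 0), (1, 3), (1, 4), (2, 0), (2, 3), (2, 5), (3, 0), (3, 1), (3,
      2), (4, 1), (5, 2)]
    mix := [(0, 0), (1, 0), (1, 1), (1, 2), (1, 3), (2, 0), (2, 4), (2, 5), (2, 6), (3, 1), (3, 6), (3,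
      7), (4, 2), (4, 3), (4, 8), (5, 4), (5, 5), (5, 8)]
    cl := [0, 1, 2, 1, 4, 5, 0, 6, 3]
    chq := [(0, 3), (3, 0)]
    rng := [(0, 3), (0, 4), (1, 2), (1, 7), (2, 1), (2, 8), (3, 0), (3, 8), (4, 0), (4, 8), (5, 6), (5,
      8), (6, 5), (6, 7), (7, 1), (7, 6), (8, 2), (8, 3), (8, 4), (8, 5)]
    lev := [] }
  links := [[1, 6, 2, 3], [6, 0, 3, 7, 8, 4, 9], [3, 0, 6, 10, 5, 11, 12], [7, 1, 0, 2, 12, 13], [9, 1,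
    8, 14], [11, 2, 10, 14]]
  P := {
    a := 6
    N := 15
    nb := [78, 985, 7273, 12423, 17154, 19460, 1543, 8458, 16530, 16466, 16484, 20516, 10252, 4232,
      3888]
    tri := [(0, 1, 3), (0, 1, 6), (0, 2, 3), (0, 2, 6), (1, 3, 7), (1, 4, 8), (1, 4, 9), (1, 6, 9), (1,
      7, 8), (2, 3, 12), (2, 5, 10), (2, 5, 11), (2, 6, 10), (2, 11, 12), (3, 7, 13), (3, 12, 13),
      (4, 8, 14), (4, 9, 14), (5, 10, 14), (5, 11, 14)]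
    fin := [0, 1, 0, 0, 4, 0, 0, 1, 8, 1, 10, 11, 0, 13, 4]
    chd := [(0, 4)]
    steps := [(0, 2), (0, 3), (0, 5), (0, 6), (0, 12), (1, 7), (1, 9), (4, 14)] }
  rep := [0, 1, 8, 4, 10, 11, 13]

noncomputable def v1526 : Cov.CovD where
  P := 3
  N := 4
  pl := [2, 4, 5, 7]
  lev := [⟨[], [], [], [], [(0, 0, [3])]⟩,
    ⟨[], [(0, 0), (0, 1)], [(0, 1), (1, 1)], [2], [(0, 0, [3]), (1, 1, []), (3, 1, [])]⟩,
    ⟨[(0, 1)], [(0, 0), (1, 0)], [(0, 0)], [4, 5], [(0, 0, [3]), (6, 0, [3])]⟩,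
    ⟨[(0, 1), (0, 2), (1, 2)], [(0, 0), (0, 1), (1, 0), (1, 1), (2, 0), (2, 1)], [(0, 1)],
      [6], [(1, 1, []), (6, 0, [3])]⟩,
    ⟨[(0, 1), (1, 3)], [(1, 0), (1, 1), (1, 3)], [(1, 3)], [2], [(3, 1, []), (8, 3, [0])]⟩,
    ⟨[(0, 2), (2, 3)], [(2, 0), (2, 3), (4, 3)], [], [4, 5], [(8, 3, [0])]⟩]
  Ta := [((0, 3), 0, 1), ((0, 4), 0, 4), ((1, 2), 1, 2), ((1, 7), 1, 6), ((3, 0), 1, 0), ((3, 8),
    1, 3), ((6, 5), 0, 5), ((6, 7), 0, 6)]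
  Tb := [((0, 3, 4), 0, 1, 4), ((1, 2, 7), 1, 2, 6), ((2, 1, 8), 2, 1, 3), ((3, 0, 8), 1, 0, 3),
    ((4, 0, 8), 4, 0, 3), ((5, 6, 8), 5, 0, 3), ((6, 5, 7), 0, 5, 6), ((7, 1, 6), 6, 1, 0),
    ((8, 2, 3), 3, 2, 1), ((8, 2, 4), 3, 2, 4), ((8, 2, 5), 3, 2, 5), ((8, 3, 4), 3, 1, 4),
    ((8, 3, 5), 3, 1, 5), ((8, 4, 5), 3, 4, 5)]
  Tc := []
  Td := [((0, 3), (0, 3), 1), ((0, 3), (0, 4), 4), ((0, 3), (6, 5), 5), ((0, 3), (6, 7), 6), ((3,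
    0), (8, 2), 2), ((3, 0), (8, 3), 1), ((3, 0), (8, 4), 4), ((3, 0), (8, 5), 5)]
  G := [[0, 0, 0x121d21221e48, 0xd1111c1211e84, 0x521921211e84], [0,
    0x11c4211c8814e11c14ca11c8ec2, 0x83c134c111c1e42, 0, 0x912311a8511486], [0, 0,
    0x124452d2c9282222cec1, 0x1141549182121c6c159d1c849, 0x1252cd292cc12221c283], [0, 0,
    0x85c231c22416cce5882c4, 0, 0x9125123131ce81]]

noncomputable def n1526 : Ent := ⟨e1526, noF, [], [], []⟩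

def c1526 : PLift (Cov.check n1526.C.D v1526 = true) := ⟨by decide +kernel⟩

def b1526 : PLift (entF (fidx ts) 400 1526 n1526 = true) := ⟨by decide +kernel⟩

theorem g1526 : GoodF (fidx ts) 400 1526 := GoodF.ofV v1526 n1526 c1526.down b1526.down

/-- 477644:1249 -/
noncomputable def e1527 : SCfg where
  D := {
    a := 6
    L := 10
    kp := 7
    inn := [(0, 1), (0, 2), (0, 3), (1, 0), (1, 3), (1, 4), (2, 0), (2, 3), (2, 5), (3, 0), (3, 1), (3,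
      2), (4, 1), (5, 2)]
    mix := [(0, 0), (1, 0), (1, 1), (1, 2), (1, 3), (2, 0), (2, 4), (2, 5), (2, 6), (3, 1), (3, 6), (3,
      7), (4, 2), (4, 3), (4, 8), (5, 4), (5, 5), (5, 9)]
    cl := [0, 1, 2, 1, 3, 4, 0, 6, 7, 5]
    chq := [(0, 5), (5, 0)]
    rng := [(0, 3), (0, 4), (1, 2), (1, 7), (2, 1), (2, 8), (3, 0), (3, 8), (4, 0), (4, 9), (5, 6), (5,
      9), (6, 5), (6, 7), (7, 1), (7, 6), (8, 2), (8, 3), (9, 4), (9, 5)]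
    lev := [] }
  links := [[1, 6, 2, 3], [6, 0, 3, 7, 8, 4, 9], [3, 0, 6, 10, 5, 11, 12], [7, 1, 0, 2, 12, 13], [9, 1,
    8, 14], [11, 2, 10, 15]]
  P := {
    a := 6
    N := 16
    nb := [78, 985, 7273, 12423, 17154, 35844, 1543, 8458, 16530, 16466, 32868, 36900, 10252, 4232,
      784, 3104]
    tri := [(0, 1, 3), (0, 1, 6), (0, 2, 3), (0, 2, 6), (1, 3, 7), (1, 4, 8), (1, 4, 9), (1, 6, 9), (1,
      7, 8), (2, 3, 12), (2, 5, 10), (2, 5, 11), (2, 6, 10), (2, 11, 12), (3, 7, 13), (3, 12, 13),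
      (4, 8, 14), (4, 9, 14), (5, 10, 15), (5, 11, 15)]
    fin := [0, 1, 0, 0, 1, 0, 0, 1, 8, 1, 10, 11, 0, 13, 14, 15]
    chd := [(0, 15)]
    steps := [(0, 2), (0, 3), (0, 5), (0, 6), (0, 12), (1, 4), (1, 7), (1, 9)] }
  rep := [0, 1, 8, 10, 11, 15, 13, 14]

noncomputable def v1527 : Cov.CovD where
  P := 3
  N := 5
  pl := [2, 4, 5, 7, 8]
  lev := [⟨[], [], [], [], [(0, 0, [5])]⟩,
    ⟨[], [(0, 0), (0, 1)], [(0, 1), (1, 1)], [2], [(0, 0, [5]), (1, 1, []), (3, 1, [])]⟩,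
    ⟨[(0, 1)], [(0, 0), (1, 0)], [(0, 0)], [3, 4], [(0, 0, [5]), (6, 0, [5])]⟩,
    ⟨[(0, 1), (0, 2), (1, 2)], [(0, 0), (0, 1), (1, 0), (1, 1), (2, 0), (2, 1)], [(0, 1)],
      [6], [(1, 1, []), (6, 0, [5])]⟩,
    ⟨[(0, 1), (1, 3)], [(1, 0), (1, 1)], [], [2, 7], [(3, 1, [])]⟩,
    ⟨[(0, 2), (2, 3)], [(2, 0), (2, 5)], [], [3, 4], [(9, 5, [0])]⟩]
  Ta := [((0, 3), 0, 1), ((0, 4), 0, 3), ((1, 2), 1, 2), ((1, 7), 1, 6), ((3, 0), 1, 0), ((3, 8),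
    1, 7), ((6, 5), 0, 4), ((6, 7), 0, 6)]
  Tb := [((0, 3, 4), 0, 1, 3), ((1, 2, 7), 1, 2, 6), ((2, 1, 8), 2, 1, 7), ((3, 0, 8), 1, 0, 7),
    ((4, 0, 9), 3, 0, 5), ((5, 6, 9), 4, 0, 5), ((6, 5, 7), 0, 4, 6), ((7, 1, 6), 6, 1, 0),
    ((8, 2, 3), 7, 2, 1), ((9, 4, 5), 5, 3, 4)]
  Tc := []
  Td := [((0, 5), (0, 3), 1), ((0, 5), (0, 4), 3), ((0, 5), (6, 5), 4), ((0, 5), (6, 7), 6), ((5,
    0), (9, 4), 3), ((5, 0), (9, 5), 4)]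
  G := [[0, 0, 0xd21121721e84, 0xddc111917751e84, 0xd21121721e84], [0,
    0x1811c611c11ca11c11cae414488c, 0xddc211c177c1e84, 0, 0xdd9111917791e84], [0, 0,
    0xd212c412d2cb272cac1, 0xdd54dd511ccbb5779ce11988c1, 0x12881d24d212cb272ce85], [0, 0,
    0x344299c255c233c38cec1, 0, 0x388219992559231339ce85]]

noncomputable def n1527 : Ent := ⟨e1527, noF, [], [], [(15, 14, [385746751338780685620664494392815470296102193487288376378744833, 0])]⟩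

def c1527 : PLift (Cov.check n1527.C.D v1527 = true) := ⟨by decide +kernel⟩

def b1527 : PLift (entF (fidx ts) 400 1527 n1527 = true) := ⟨by decide +kernel⟩

theorem g1527 : GoodF (fidx ts) 400 1527 := GoodF.ofV v1527 n1527 c1527.down b1527.down

/-- 477645:1250/2 -/
noncomputable def e1528 : SCfg where
  D := {
    a := 6
    L := 9
    kp := 6
    inn := [(0, 1), (0, 2), (0, 3), (1, 0), (1, 3), (1, 4), (2, 0), (2, 3), (2, 5), (3, 0), (3, 1), (3,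
      2), (4, 1), (5, 2)]
    mix := [(0, 0), (1, 0), (1, 1), (1, 2), (1, 3), (2, 0), (2, 4), (2, 5), (2, 6), (3, 1), (3, 6), (3,
      7), (4, 2), (4, 3), (4, 8), (5, 2), (5, 4), (5, 5), (5, 8)]
    cl := [0, 1, 2, 1, 3, 3, 4, 6, 5]
    chq := [(0, 4), (0, 6), (4, 0), (6, 0)]
    rng := [(0, 3), (0, 4), (1, 2), (1, 7), (2, 1), (2, 5), (2, 8), (3, 0), (3, 8), (4, 0), (4, 8), (5,
      2), (5, 6), (6, 5), (6, 7), (7, 1), (7, 6), (8, 2), (8, 3), (8, 4)]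
    lev := [] }
  links := [[1, 6, 2, 3], [6, 0, 3, 7, 8, 4, 9], [3, 0, 6, 10, 5, 11, 12], [7, 1, 0, 2, 12, 13], [9, 1,
    8, 14], [11, 2, 10, 14, 8]]
  P := {
    a := 6
    N := 15
    nb := [78, 985, 7273, 12423, 17154, 19716, 1543, 8458, 18610, 16466, 16484, 4388, 10252, 4232,
      1840]
    tri := [(0, 1, 3), (0, 1, 6), (0, 2, 3), (0, 2, 6), (1, 3, 7), (1, 4, 8), (1, 4, 9), (1, 6, 9), (1,
      7, 8), (2, 3, 12), (2, 5, 10), (2, 5, 11), (2, 6, 10), (2, 11, 12), (3, 7, 13), (3, 12, 13),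
      (4, 8, 14), (4, 9, 14), (5, 8, 11), (5, 8, 14), (5, 10, 14)]
    fin := [0, 1, 0, 0, 4, 5, 0, 1, 8, 1, 5, 5, 12, 13, 4]
    chd := [(0, 12), (0, 13)]
    steps := [(0, 2), (0, 3), (0, 6), (1, 7), (1, 9), (4, 14), (5, 10), (5, 11)] }
  rep := [0, 1, 8, 5, 12, 4, 13]

noncomputable def v1528 : Cov.CovD where
  P := 3
  N := 4
  pl := [2, 8]
  lev := [⟨[], [], [], [], [(0, 0, [4, 6])]⟩,
    ⟨[], [(0, 0), (0, 1)], [(0, 1), (1, 1)], [2], [(0, 0, [4, 6]), (1, 1, []), (3, 1, [])]⟩,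
    ⟨[(0, 1)], [(0, 0), (0, 3), (0, 4), (1, 0)], [(0, 3), (0, 4), (3, 3), (3, 4)], [], [(0,
      0, [4, 6]), (4, 3, []), (5, 3, []), (6, 4, [0])]⟩,
    ⟨[(0, 1), (0, 2), (1, 2)], [(0, 0), (0, 1), (0, 4), (0, 6), (1, 0), (1, 1), (1, 4), (1,
      6), (2, 0), (2, 1), (2, 3), (2, 4), (2, 6)], [(1, 4), (1, 6), (4, 6)], [], [(1, 1, []),
      (6, 4, [0]), (7, 6, [0])]⟩,
    ⟨[(0, 1), (1, 3)], [(1, 0), (1, 1)], [], [2, 5], [(3, 1, [])]⟩,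
    ⟨[(0, 2), (2, 3)], [(2, 0), (2, 3), (2, 4)], [(3, 3)], [2, 5], [(4, 3, []), (5, 3,
      [])]⟩]
  Ta := [((1, 2), 1, 2), ((1, 7), 1, 6), ((3, 0), 1, 0), ((3, 8), 1, 5), ((4, 0), 3, 0), ((4, 8),
    3, 5), ((5, 2), 3, 2), ((5, 6), 3, 4)]
  Tb := [((0, 3, 4), 0, 1, 3), ((1, 2, 7), 1, 2, 6), ((2, 1, 5), 2, 1, 3), ((2, 1, 8), 2, 1, 5),
    ((2, 5, 8), 2, 3, 5), ((3, 0, 8), 1, 0, 5), ((4, 0, 8), 3, 0, 5), ((5, 2, 6), 3, 2, 4),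
    ((6, 5, 7), 4, 3, 6), ((7, 1, 6), 6, 1, 4), ((8, 2, 3), 5, 2, 1), ((8, 2, 4), 5, 2, 3),
    ((8, 3, 4), 5, 1, 3)]
  Tc := [(0, 4, 6)]
  Td := [((0, 4), (0, 3), 1), ((0, 4), (0, 4), 3), ((0, 6), (0, 3), 1), ((0, 6), (0, 4), 3), ((4,
    0), (6, 5), 3), ((4, 0), (6, 7), 6), ((6, 0), (7, 1), 1), ((6, 0), (7, 6), 4)]
  G := [[0, 0, 0x22128e21e21c4a, 0x81c114c195c1e42, 0x81a1b21221e84], [0, 0, 0xe21486861221a8c,
    0x81c114c1c151e82, 0x8191a191221e84], [0, 0x81c111c111c1e42, 0xa4c12ec16486c188a, 0,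
    0x8191a3912391e84], [0, 0x81c111c111c1e84, 0xa6c12886c1a4c1c86, 0, 0x8191a1913291e84]]

noncomputable def n1528 : Ent := ⟨e1528, noF, [], [], []⟩

def c1528 : PLift (Cov.check n1528.C.D v1528 = true) := ⟨by decide +kernel⟩

def b1528 : PLift (entF (fidx ts) 400 1528 n1528 = true) := ⟨by decide +kernel⟩

theorem g1528 : GoodF (fidx ts) 400 1528 := GoodF.ofV v1528 n1528 c1528.down b1528.down

/-- 477645:1250/1 -/
noncomputable def e1529 : SCfg where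
  D := {
    a := 6
    L := 10
    kp := 7
    inn := [(0, 1), (0, 2), (0, 3), (1, 0), (1, 3), (1, 4), (2, 0), (2, 3), (2, 5), (3, 0), (3, 1), (3,
      2), (4, 1), (5, 2)]
    mix := [(0, 0), (1, 0), (1, 1), (1, 2), (1, 3), (2, 0), (2, 4), (2, 5), (2, 6), (3, 1), (3, 6), (3,
      7), (4, 2), (4, 3), (4, 8), (5, 4), (5, 5), (5, 8), (5, 9)]
    cl := [0, 1, 2, 1, 3, 3, 4, 6, 5, 7]
    chq := [(0, 4), (0, 6), (4, 0), (6, 0)]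
    rng := [(0, 3), (0, 4), (1, 2), (1, 7), (2, 1), (2, 8), (3, 0), (3, 8), (4, 0), (4, 8), (5, 6), (5,
      9), (6, 5), (6, 7), (7, 1), (7, 6), (8, 2), (8, 3), (8, 4), (8, 9), (9, 5), (9, 8)]
    lev := [] }
  links := [[1, 6, 2, 3], [6, 0, 3, 7, 8, 4, 9], [3, 0, 6, 10, 5, 11, 12], [7, 1, 0, 2, 12, 13], [9, 1,
    8, 14], [11, 2, 10, 14, 15]]
  P := {
    a := 6
    N := 16
    nb := [78, 985, 7273, 12423, 17154, 52228, 1543, 8458, 16530, 16466, 16484, 36900, 10252, 4232,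
      34608, 18464]
    tri := [(0, 1, 3), (0, 1, 6), (0, 2, 3), (0, 2, 6), (1, 3, 7), (1, 4, 8), (1, 4, 9), (1, 6, 9), (1,
      7, 8), (2, 3, 12), (2, 5, 10), (2, 5, 11), (2, 6, 10), (2, 11, 12), (3, 7, 13), (3, 12, 13),
      (4, 8, 14), (4, 9, 14), (5, 10, 14), (5, 11, 15), (5, 14, 15)]
    fin := [0, 1, 0, 0, 4, 5, 0, 1, 8, 1, 5, 5, 12, 13, 4, 15]
    chd := [(0, 12), (0, 13)]
    steps := [(0, 2), (0, 3), (0, 6), (1, 7), (1, 9), (4, 14), (5, 10), (5, 11)] }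
  rep := [0, 1, 8, 5, 12, 4, 13, 15]

noncomputable def v1529 : Cov.CovD where
  P := 3
  N := 5
  pl := [2, 8, 9]
  lev := [⟨[], [], [], [], [(0, 0, [4, 6])]⟩,
    ⟨[], [(0, 0), (0, 1)], [(0, 1), (1, 1)], [2], [(0, 0, [4, 6]), (1, 1, []), (3, 1, [])]⟩,
    ⟨[(0, 1)], [(0, 0), (0, 3), (0, 4), (1, 0)], [(0, 3), (0, 4), (3, 3), (3, 4)], [], [(0,
      0, [4, 6]), (4, 3, []), (5, 3, []), (6, 4, [0])]⟩,
    ⟨[(0, 1), (0, 2), (1, 2)], [(0, 0), (0, 1), (0, 4), (0, 6), (1, 0), (1, 1), (1, 4), (1,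
      6), (2, 0), (2, 1), (2, 3), (2, 4), (2, 6)], [(1, 4), (1, 6), (4, 6)], [], [(1, 1, []),
      (6, 4, [0]), (7, 6, [0])]⟩,
    ⟨[(0, 1), (1, 3)], [(1, 0), (1, 1)], [], [2, 5], [(3, 1, [])]⟩,
    ⟨[(0, 2), (2, 3)], [(2, 0), (2, 3), (2, 4)], [(3, 3)], [5, 7], [(4, 3, []), (5, 3,
      [])]⟩]
  Ta := [((1, 2), 1, 2), ((1, 7), 1, 6), ((3, 0), 1, 0), ((3, 8), 1, 5), ((4, 0), 3, 0), ((4, 8),
    3, 5), ((5, 6), 3, 4), ((5, 9), 3, 7)]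
  Tb := [((0, 3, 4), 0, 1, 3), ((1, 2, 7), 1, 2, 6), ((2, 1, 8), 2, 1, 5), ((3, 0, 8), 1, 0, 5),
    ((4, 0, 8), 3, 0, 5), ((5, 6, 9), 3, 4, 7), ((6, 5, 7), 4, 3, 6), ((7, 1, 6), 6, 1, 4),
    ((8, 2, 3), 5, 2, 1), ((8, 2, 4), 5, 2, 3), ((8, 2, 9), 5, 2, 7), ((8, 3, 4), 5, 1, 3),
    ((8, 3, 9), 5, 1, 7), ((8, 4, 9), 5, 3, 7), ((9, 5, 8), 7, 3, 5)]
  Tc := [(0, 4, 6)]
  Td := [((0, 4), (0, 3), 1), ((0, 4), (0, 4), 3), ((0, 6), (0, 3), 1), ((0, 6), (0, 4), 3), ((4,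
    0), (6, 5), 3), ((4, 0), (6, 7), 6), ((6, 0), (7, 1), 1), ((6, 0), (7, 6), 4)]
  G := [[0, 0, 0xf2128f21f21c8a, 0xe4144e951b11e351e8c, 0xf21f2168f2188c], [0, 0,
    0x22128f21f21d21e4a, 0xe35128e791b5c1c86, 0xf21f2168f2188a], [0, 0x5414497c1b81b7c1e8c,
    0xb5c1b7c16497c188c, 0, 0xe39128e791e591c86], [0, 0x32c12897c1b5c1d41e46,
    0x97c1b1c1b7c1e8441446, 0, 0xe39128e791e591c86]]

noncomputable def n1529 : Ent := ⟨e1529, noF, [], [], [(15, 8, [360035742630636841212031212540452013763654843542796049053614081, 0])]⟩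

def c1529 : PLift (Cov.check n1529.C.D v1529 = true) := ⟨by decide +kernel⟩

def b1529 : PLift (entF (fidx ts) 400 1529 n1529 = true) := ⟨by decide +kernel⟩

theorem g1529 : GoodF (fidx ts) 400 1529 := GoodF.ofV v1529 n1529 c1529.down b1529.down

/-- 477645:1250/4 -/
noncomputable def e1530 : SCfg where
  D := {
    a := 6
    L := 9
    kp := 6
    inn := [(0, 1), (0, 2), (0, 3), (1, 0), (1, 3), (1, 4), (2, 0), (2, 3), (2, 5), (3, 0), (3, 1), (3,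
      2), (4, 1), (5, 2)]
    mix := [(0, 0), (1, 0), (1, 1), (1, 2), (1, 3), (2, 0), (2, 4), (2, 5), (2, 6), (3, 1), (3, 6), (3,
      7), (4, 2), (4, 3), (4, 8), (5, 3), (5, 4), (5, 5), (5, 8)]
    cl := [1, 0, 2, 0, 3, 3, 4, 6, 5]
    chq := [(1, 4), (1, 6), (4, 1), (6, 1)]
    rng := [(0, 3), (0, 4), (1, 2), (1, 7), (2, 1), (2, 8), (3, 0), (3, 4), (3, 8), (4, 0), (4, 3), (5,
      6), (5, 8), (6, 5), (6, 7), (7, 1), (7, 6), (8, 2), (8, 3), (8, 5)]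
    lev := [] }
  links := [[1, 6, 2, 3], [6, 0, 3, 7, 8, 4, 9], [3, 0, 6, 10, 5, 11, 12], [7, 1, 0, 2, 12, 13], [9, 1,
    8, 14], [11, 2, 10, 9, 14]]
  P := {
    a := 6
    N := 15
    nb := [78, 985, 7273, 12423, 17154, 19972, 1543, 8458, 16530, 17522, 612, 20516, 10252, 4232,
      2864]
    tri := [(0, 1, 3), (0, 1, 6), (0, 2, 3), (0, 2, 6), (1, 3, 7), (1, 4, 8), (1, 4, 9), (1, 6, 9), (1,
      7, 8), (2, 3, 12), (2, 5, 10), (2, 5, 11), (2, 6, 10), (2, 11, 12), (3, 7, 13), (3, 12, 13),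
      (4, 8, 14), (4, 9, 14), (5, 9, 10), (5, 9, 14), (5, 11, 14)]
    fin := [0, 1, 0, 0, 1, 5, 0, 1, 8, 1, 5, 5, 12, 13, 14]
    chd := [(0, 12), (0, 13)]
    steps := [(0, 2), (0, 3), (0, 6), (1, 4), (1, 9), (1, 7), (5, 10), (5, 11)] }
  rep := [1, 0, 8, 5, 12, 14, 13]

noncomputable def v1530 : Cov.CovD where
  P := 3
  N := 4
  pl := [2, 8]
  lev := [⟨[], [], [], [], [(0, 1, [4, 6])]⟩,
    ⟨[], [(0, 0), (0, 1)], [(0, 0), (0, 1)], [2], [(0, 1, [4, 6]), (1, 0, []), (3, 0, [])]⟩,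
    ⟨[(0, 1)], [(0, 1), (0, 3), (0, 4), (1, 1)], [(1, 3), (1, 4), (3, 3), (3, 4)], [], [(0,
      1, [4, 6]), (4, 3, []), (5, 3, []), (6, 4, [1])]⟩,
    ⟨[(0, 1), (0, 2), (1, 2)], [(0, 0), (0, 1), (0, 4), (0, 6), (1, 0), (1, 1), (1, 4), (1,
      6), (2, 0), (2, 1), (2, 3), (2, 4), (2, 6)], [(0, 4), (0, 6), (4, 6)], [], [(1, 0, []),
      (6, 4, [1]), (7, 6, [1])]⟩,
    ⟨[(0, 1), (1, 3)], [(1, 0), (1, 1)], [], [2, 5], [(3, 0, [])]⟩,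
    ⟨[(0, 2), (2, 3)], [(1, 0), (2, 0), (2, 1), (2, 3), (2, 4), (4, 0)], [(0, 3), (3, 3)],
      [5], [(3, 0, []), (4, 3, []), (5, 3, [])]⟩]
  Ta := [((1, 2), 0, 2), ((1, 7), 0, 6), ((3, 0), 0, 1), ((3, 4), 0, 3), ((3, 8), 0, 5), ((4, 0),
    3, 1), ((4, 3), 3, 0), ((5, 6), 3, 4), ((5, 8), 3, 5)]
  Tb := [((0, 3, 4), 1, 0, 3), ((1, 2, 7), 0, 2, 6), ((2, 1, 8), 2, 0, 5), ((3, 0, 4), 0, 1, 3),
    ((3, 0, 8), 0, 1, 5), ((3, 4, 8), 0, 3, 5), ((4, 0, 3), 3, 1, 0), ((5, 6, 8), 3, 4, 5),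
    ((6, 5, 7), 4, 3, 6), ((7, 1, 6), 6, 0, 4), ((8, 2, 3), 5, 2, 0), ((8, 2, 5), 5, 2, 3),
    ((8, 3, 5), 5, 0, 3)]
  Tc := [(1, 4, 6)]
  Td := [((1, 4), (0, 3), 0), ((1, 4), (0, 4), 3), ((1, 6), (0, 3), 0), ((1, 6), (0, 4), 3), ((4,
    1), (6, 5), 3), ((4, 1), (6, 7), 6), ((6, 1), (7, 1), 0), ((6, 1), (7, 6), 4)]
  G := [[0, 0, 0x142182c6a2d41, 0x142182e12d48, 0x1832182e12d84], [0, 0, 0x81c211a2c262d81,
    0x1252612e12d41, 0xa121292e12d84], [0, 0xa4c14486c1e2c1a8c, 0, 0x24c2e2c25486c2849,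
    0x82a264a2c6a2d81], [0, 0xe2c12886c1a4c1c46, 0, 0x82c224c2a6c2d41, 0x82a264a2c2a2d81]]

noncomputable def n1530 : Ent := ⟨e1530, noF, [], [], []⟩

def c1530 : PLift (Cov.check n1530.C.D v1530 = true) := ⟨by decide +kernel⟩

def b1530 : PLift (entF (fidx ts) 400 1530 n1530 = true) := ⟨by decide +kernel⟩

theorem g1530 : GoodF (fidx ts) 400 1530 := GoodF.ofV v1530 n1530 c1530.down b1530.down

/-- 477645:1250/3 -/
noncomputable def e1531 : SCfg where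
  D := {
    a := 6
    L := 10
    kp := 7
    inn := [(0, 1), (0, 2), (0, 3), (1, 0), (1, 3), (1, 4), (2, 0), (2, 3), (2, 5), (3, 0), (3, 1), (3,
      2), (4, 1), (5, 2)]
    mix := [(0, 0), (1, 0), (1, 1), (1, 2), (1, 3), (2, 0), (2, 4), (2, 5), (2, 6), (3, 1), (3, 6), (3,
      7), (4, 2), (4, 3), (4, 8), (5, 3), (5, 4), (5, 5), (5, 9)]
    cl := [1, 0, 4, 0, 2, 2, 3, 5, 6, 7]
    chq := [(1, 3), (1, 5), (3, 1), (5, 1)]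
    rng := [(0, 3), (0, 4), (1, 2), (1, 7), (2, 1), (2, 8), (3, 0), (3, 4), (3, 8), (3, 9), (4, 0), (4,
      3), (5, 6), (5, 9), (6, 5), (6, 7), (7, 1), (7, 6), (8, 2), (8, 3), (9, 3), (9, 5)]
    lev := [] }
  links := [[1, 6, 2, 3], [6, 0, 3, 7, 8, 4, 9], [3, 0, 6, 10, 5, 11, 12], [7, 1, 0, 2, 12, 13], [9, 1,
    8, 14], [11, 2, 10, 9, 15]]
  P := {
    a := 6
    N := 16
    nb := [78, 985, 7273, 12423, 17154, 36356, 1543, 8458, 16530, 50290, 612, 36900, 10252, 4232, 784,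
      2592]
    tri := [(0, 1, 3), (0, 1, 6), (0, 2, 3), (0, 2, 6), (1, 3, 7), (1, 4, 8), (1, 4, 9), (1, 6, 9), (1,
      7, 8), (2, 3, 12), (2, 5, 10), (2, 5, 11), (2, 6, 10), (2, 11, 12), (3, 7, 13), (3, 12, 13),
      (4, 8, 14), (4, 9, 14), (5, 9, 10), (5, 9, 15), (5, 11, 15)]
    fin := [0, 1, 0, 0, 1, 5, 0, 1, 8, 1, 5, 5, 12, 13, 14, 15]
    chd := [(0, 12), (0, 13)]
    steps := [(0, 2), (0, 3), (0, 6), (1, 4), (1, 9), (1, 7), (5, 10), (5, 11)] }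
  rep := [1, 0, 5, 12, 8, 13, 14, 15]

noncomputable def v1531 : Cov.CovD where
  P := 3
  N := 5
  pl := [2, 8, 9]
  lev := [⟨[], [], [], [], [(0, 1, [3, 5])]⟩,
    ⟨[], [(0, 0), (0, 1)], [(0, 0), (0, 1)], [4], [(0, 1, [3, 5]), (1, 0, []), (3, 0, [])]⟩,
    ⟨[(0, 1)], [(0, 1), (0, 2), (0, 3), (1, 1)], [(1, 2), (1, 3), (2, 2), (2, 3)], [], [(0,
      1, [3, 5]), (4, 2, []), (5, 2, []), (6, 3, [1])]⟩,
    ⟨[(0, 1), (0, 2), (1, 2)], [(0, 0), (0, 1), (0, 3), (0, 5), (1, 0), (1, 1), (1, 3), (1,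
      5), (2, 0), (2, 1), (2, 2), (2, 3), (2, 5)], [(0, 3), (0, 5), (3, 5)], [], [(1, 0, []),
      (6, 3, [1]), (7, 5, [1])]⟩,
    ⟨[(0, 1), (1, 3)], [(1, 0), (1, 1)], [], [4, 6], [(3, 0, [])]⟩,
    ⟨[(0, 2), (2, 3)], [(1, 0), (2, 0), (2, 1), (2, 2), (2, 3), (4, 0)], [(0, 2), (2, 2)],
      [7], [(3, 0, []), (4, 2, []), (5, 2, [])]⟩]
  Ta := [((1, 2), 0, 4), ((1, 7), 0, 5), ((3, 0), 0, 1), ((3, 4), 0, 2), ((3, 8), 0, 6), ((3, 9),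
    0, 7), ((4, 0), 2, 1), ((4, 3), 2, 0), ((5, 6), 2, 3), ((5, 9), 2, 7)]
  Tb := [((0, 3, 4), 1, 0, 2), ((1, 2, 7), 0, 4, 5), ((2, 1, 8), 4, 0, 6), ((3, 0, 4), 0, 1, 2),
    ((3, 0, 8), 0, 1, 6), ((3, 0, 9), 0, 1, 7), ((3, 4, 8), 0, 2, 6), ((3, 4, 9), 0, 2, 7),
    ((3, 8, 9), 0, 6, 7), ((4, 0, 3), 2, 1, 0), ((5, 6, 9), 2, 3, 7), ((6, 5, 7), 3, 2, 5),
    ((7, 1, 6), 5, 0, 3), ((8, 2, 3), 6, 4, 0), ((9, 3, 5), 7, 0, 2)]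
  Tc := [(1, 3, 5)]
  Td := [((1, 3), (0, 3), 0), ((1, 3), (0, 4), 2), ((1, 5), (0, 3), 0), ((1, 5), (0, 4), 2), ((3,
    1), (6, 5), 2), ((3, 1), (6, 7), 5), ((5, 1), (7, 1), 0), ((5, 1), (7, 6), 3)]
  G := [[0, 0, 0, 0xc12c12511621162cc8, 0x11a2aaa291162a129c1], [0, 0, 0, 0,
    0x11a2aaa29a12a129c4], [0, 0xcc6182ccc1cca1ccc614c6, 0xcca2aca2cca62a662cc1,
    0xcca2cca2ccc62cc625c1, 0xaaa2aaa298aa62aa62945], [0, 0xcc6142cca1ccc1ccc618ca, 0, 0,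
    0xaaa2aaa29aa62aa629c1]]

noncomputable def n1531 : Ent := ⟨e1531, noF, [], [], [(15, 14, [385746751338780685620664494392815470296102193487288376378761217, 0])]⟩

def c1531 : PLift (Cov.check n1531.C.D v1531 = true) := ⟨by decide +kernel⟩

def b1531 : PLift (entF (fidx ts) 400 1531 n1531 = true) := ⟨by decide +kernel⟩

theorem g1531 : GoodF (fidx ts) 400 1531 := GoodF.ofV v1531 n1531 c1531.down b1531.down

/-- 477645:1250/5 -/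
noncomputable def e1532 : SCfg where
  D := {
    a := 6
    L := 10
    kp := 7
    inn := [(0, 1), (0, 2), (0, 3), (1, 0), (1, 3), (1, 4), (2, 0), (2, 3), (2, 5), (3, 0), (3, 1), (3,
      2), (4, 1), (5, 2)]
    mix := [(0, 0), (1, 0), (1, 1), (1, 2), (1, 3), (2, 0), (2, 4), (2, 5), (2, 6), (3, 1), (3, 6), (3,
      7), (4, 2), (4, 3), (4, 8), (5, 2), (5, 4), (5, 5), (5, 9)]
    cl := [0, 1, 2, 1, 3, 3, 4, 5, 6, 7]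
    chq := [(0, 4), (0, 5), (4, 0), (5, 0)]
    rng := [(0, 3), (0, 4), (1, 2), (1, 7), (2, 1), (2, 5), (2, 8), (2, 9), (3, 0), (3, 8), (4, 0), (4,
      9), (5, 2), (5, 6), (6, 5), (6, 7), (7, 1), (7, 6), (8, 2), (8, 3), (9, 2), (9, 4)]
    lev := [] }
  links := [[1, 6, 2, 3], [6, 0, 3, 7, 8, 4, 9], [3, 0, 6, 10, 5, 11, 12], [7, 1, 0, 2, 12, 13], [9, 1,
    8, 14], [11, 2, 10, 15, 8]]
  P := {
    a := 6
    N := 16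
    nb := [78, 985, 7273, 12423, 17154, 36100, 1543, 8458, 51378, 16466, 32868, 4388, 10252, 4232,
      784, 1312]
    tri := [(0, 1, 3), (0, 1, 6), (0, 2, 3), (0, 2, 6), (1, 3, 7), (1, 4, 8), (1, 4, 9), (1, 6, 9), (1,
      7, 8), (2, 3, 12), (2, 5, 10), (2, 5, 11), (2, 6, 10), (2, 11, 12), (3, 7, 13), (3, 12, 13),
      (4, 8, 14), (4, 9, 14), (5, 8, 11), (5, 8, 15), (5, 10, 15)]
    fin := [0, 1, 0, 0, 4, 5, 0, 1, 4, 1, 5, 5, 12, 13, 14, 15]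
    chd := [(0, 12), (0, 13)]
    steps := [(0, 2), (0, 3), (0, 6), (1, 7), (1, 9), (4, 8), (5, 10), (5, 11)] }
  rep := [0, 1, 4, 5, 12, 13, 14, 15]

noncomputable def v1532 : Cov.CovD where
  P := 3
  N := 5
  pl := [2, 8, 9]
  lev := [⟨[], [], [], [], [(0, 0, [4, 5])]⟩,
    ⟨[], [(0, 0), (0, 1)], [(0, 1), (1, 1)], [2], [(0, 0, [4, 5]), (1, 1, []), (3, 1, [])]⟩,
    ⟨[(0, 1)], [(0, 0), (0, 3), (0, 4), (1, 0)], [(0, 3), (0, 4), (3, 3), (3, 4)], [], [(0,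
      0, [4, 5]), (4, 3, []), (5, 3, []), (6, 4, [0])]⟩,
    ⟨[(0, 1), (0, 2), (1, 2)], [(0, 0), (0, 1), (0, 4), (0, 5), (1, 0), (1, 1), (1, 4), (1,
      5), (2, 0), (2, 1), (2, 3), (2, 4), (2, 5)], [(1, 4), (1, 5), (4, 5)], [], [(1, 1, []),
      (6, 4, [0]), (7, 5, [0])]⟩,
    ⟨[(0, 1), (1, 3)], [(1, 0), (1, 1)], [], [2, 6], [(3, 1, [])]⟩,
    ⟨[(0, 2), (2, 3)], [(2, 0), (2, 3), (2, 4)], [(3, 3)], [2, 7], [(4, 3, []), (5, 3,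
      [])]⟩]
  Ta := [((1, 2), 1, 2), ((1, 7), 1, 5), ((3, 0), 1, 0), ((3, 8), 1, 6), ((4, 0), 3, 0), ((4, 9),
    3, 7), ((5, 2), 3, 2), ((5, 6), 3, 4)]
  Tb := [((0, 3, 4), 0, 1, 3), ((1, 2, 7), 1, 2, 5), ((2, 1, 5), 2, 1, 3), ((2, 1, 8), 2, 1, 6),
    ((2, 1, 9), 2, 1, 7), ((2, 5, 8), 2, 3, 6), ((2, 5, 9), 2, 3, 7), ((2, 8, 9), 2, 6, 7),
    ((3, 0, 8), 1, 0, 6), ((4, 0, 9), 3, 0, 7), ((5, 2, 6), 3, 2, 4), ((6, 5, 7), 4, 3, 5),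
    ((7, 1, 6), 5, 1, 4), ((8, 2, 3), 6, 2, 1), ((9, 2, 4), 7, 2, 3)]
  Tc := [(0, 4, 5)]
  Td := [((0, 4), (0, 3), 1), ((0, 4), (0, 4), 3), ((0, 5), (0, 3), 1), ((0, 5), (0, 4), 3), ((4,
    0), (6, 5), 3), ((4, 0), (6, 7), 5), ((5, 0), (7, 1), 1), ((5, 0), (7, 6), 4)]
  G := [[0, 0, 0xe21e21a4e21486, 0x5551dd5168999184c, 0xb213216892188a], [0, 0,
    0xe2124e21e21c4a, 0x999155c1ddc1e42, 0x921b21321e84], [0, 0x99c1141ddc1e854c1486,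
    0xeec1eec1a8eec1486, 0, 0x9991bb913391e84], [0, 0x18155c1ddc1e489c188c,
    0xeec144eec1eec1a8c, 0, 0x9991bb913391e84]]

noncomputable def n1532 : Ent := ⟨e1532, noF, [], [], [(15, 14, [385746751338780685620664494392815470296102193487288376378753025, 0])]⟩

def c1532 : PLift (Cov.check n1532.C.D v1532 = true) := ⟨by decide +kernel⟩

def b1532 : PLift (entF (fidx ts) 400 1532 n1532 = true) := ⟨by decide +kernel⟩

theorem g1532 : GoodF (fidx ts) 400 1532 := GoodF.ofV v1532 n1532 c1532.down b1532.down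

/-- 477645:1250/6 -/
noncomputable def e1533 : SCfg where
  D := {
    a := 6
    L := 10
    kp := 7
    inn := [(0, 1), (0, 2), (0, 3), (1, 0), (1, 3), (1, 4), (2, 0), (2, 3), (2, 5), (3, 0), (3, 1), (3,
      2), (4, 1), (5, 2)]
    mix := [(0, 0), (1, 0), (1, 1), (1, 2), (1, 3), (2, 0), (2, 4), (2, 5), (2, 6), (3, 1), (3, 6), (3,
      7), (4, 2), (4, 3), (4, 8), (5, 4), (5, 5), (5, 8), (5, 9)]
    cl := [0, 1, 2, 1, 3, 3, 4, 6, 5, 7]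
    chq := [(0, 4), (0, 6), (4, 0), (6, 0)]
    rng := [(0, 3), (0, 4), (1, 2), (1, 7), (2, 1), (2, 8), (3, 0), (3, 8), (4, 0), (4, 9), (5, 6), (5,
      8), (6, 5), (6, 7), (7, 1), (7, 6), (8, 2), (8, 3), (8, 5), (8, 9), (9, 4), (9, 8)]
    lev := [] }
  links := [[1, 6, 2, 3], [6, 0, 3, 7, 8, 4, 9], [3, 0, 6, 10, 5, 11, 12], [7, 1, 0, 2, 12, 13], [9, 1,
    8, 14], [11, 2, 10, 15, 14]]
  P := {
    a := 6
    N := 16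
    nb := [78, 985, 7273, 12423, 17154, 52228, 1543, 8458, 16530, 16466, 32868, 20516, 10252, 4232,
      35632, 17440]
    tri := [(0, 1, 3), (0, 1, 6), (0, 2, 3), (0, 2, 6), (1, 3, 7), (1, 4, 8), (1, 4, 9), (1, 6, 9), (1,
      7, 8), (2, 3, 12), (2, 5, 10), (2, 5, 11), (2, 6, 10), (2, 11, 12), (3, 7, 13), (3, 12, 13),
      (4, 8, 14), (4, 9, 14), (5, 10, 15), (5, 11, 14), (5, 14, 15)]
    fin := [0, 1, 0, 0, 4, 5, 0, 1, 8, 1, 5, 5, 12, 13, 4, 15]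
    chd := [(0, 12), (0, 13)]
    steps := [(0, 2), (0, 3), (0, 6), (1, 7), (1, 9), (4, 14), (5, 10), (5, 11)] }
  rep := [0, 1, 8, 5, 12, 4, 13, 15]

noncomputable def v1533 : Cov.CovD where
  P := 3
  N := 5
  pl := [2, 8, 9]
  lev := [⟨[], [], [], [], [(0, 0, [4, 6])]⟩,
    ⟨[], [(0, 0), (0, 1)], [(0, 1), (1, 1)], [2], [(0, 0, [4, 6]), (1, 1, []), (3, 1, [])]⟩,
    ⟨[(0, 1)], [(0, 0), (0, 3), (0, 4), (1, 0)], [(0, 3), (0, 4), (3, 3), (3, 4)], [], [(0,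
      0, [4, 6]), (4, 3, []), (5, 3, []), (6, 4, [0])]⟩,
    ⟨[(0, 1), (0, 2), (1, 2)], [(0, 0), (0, 1), (0, 4), (0, 6), (1, 0), (1, 1), (1, 4), (1,
      6), (2, 0), (2, 1), (2, 3), (2, 4), (2, 6)], [(1, 4), (1, 6), (4, 6)], [], [(1, 1, []),
      (6, 4, [0]), (7, 6, [0])]⟩,
    ⟨[(0, 1), (1, 3)], [(1, 0), (1, 1)], [], [2, 5], [(3, 1, [])]⟩,
    ⟨[(0, 2), (2, 3)], [(2, 0), (2, 3), (2, 4)], [(3, 3)], [5, 7], [(4, 3, []), (5, 3,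
      [])]⟩]
  Ta := [((1, 2), 1, 2), ((1, 7), 1, 6), ((3, 0), 1, 0), ((3, 8), 1, 5), ((4, 0), 3, 0), ((4, 9),
    3, 7), ((5, 6), 3, 4), ((5, 8), 3, 5)]
  Tb := [((0, 3, 4), 0, 1, 3), ((1, 2, 7), 1, 2, 6), ((2, 1, 8), 2, 1, 5), ((3, 0, 8), 1, 0, 5),
    ((4, 0, 9), 3, 0, 7), ((5, 6, 8), 3, 4, 5), ((6, 5, 7), 4, 3, 6), ((7, 1, 6), 6, 1, 4),
    ((8, 2, 3), 5, 2, 1), ((8, 2, 5), 5, 2, 3), ((8, 2, 9), 5, 2, 7), ((8, 3, 5), 5, 1, 3),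
    ((8, 3, 9), 5, 1, 7), ((8, 5, 9), 5, 3, 7), ((9, 4, 8), 7, 3, 5)]
  Tc := [(0, 4, 6)]
  Td := [((0, 4), (0, 3), 1), ((0, 4), (0, 4), 3), ((0, 6), (0, 3), 1), ((0, 6), (0, 4), 3), ((4,
    0), (6, 5), 3), ((4, 0), (6, 7), 6), ((6, 0), (7, 1), 1), ((6, 0), (7, 6), 4)]
  G := [[0, 0, 0xf2128f214b61c8a, 0x111e3916897c1a4c1c46, 0xe131f2168e13188a], [0, 0,
    0xf2124f21f21c4a, 0xe35128e791b5c1c8a, 0xf2128f21f21c8a], [0, 0x97c1b81b7c1e8541486,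
    0xf3c12497c1b5c1c8a, 0, 0xe39128e791e591c86], [0, 0x32c12497c1b5c1d41e4a,
    0x741b5c17bc1e498184c, 0, 0xe39128e791e591c86]]

noncomputable def n1533 : Ent := ⟨e1533, noF, [], [], [(15, 9, [360035742630636841345797572106540607504961255222653860049821697, 0])]⟩

def c1533 : PLift (Cov.check n1533.C.D v1533 = true) := ⟨by decide +kernel⟩

def b1533 : PLift (entF (fidx ts) 400 1533 n1533 = true) := ⟨by decide +kernel⟩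

theorem g1533 : GoodF (fidx ts) 400 1533 := GoodF.ofV v1533 n1533 c1533.down b1533.down

/-- 477645:1250 -/
noncomputable def e1534 : SCfg where
  D := {
    a := 6
    L := 11
    kp := 8
    inn := [(0, 1), (0, 2), (0, 3), (1, 0), (1, 3), (1, 4), (2, 0), (2, 3), (2, 5), (3, 0), (3, 1), (3,
      2), (4, 1), (5, 2)]
    mix := [(0, 0), (1, 0), (1, 1), (1, 2), (1, 3), (2, 0), (2, 4), (2, 5), (2, 6), (3, 1), (3, 6), (3,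
      7), (4, 2), (4, 3), (4, 8), (5, 4), (5, 5), (5, 9), (5, 10)]
    cl := [0, 1, 2, 1, 3, 3, 4, 5, 6, 7, 8]
    chq := [(0, 4), (0, 5), (4, 0), (5, 0)]
    rng := [(0, 3), (0, 4), (1, 2), (1, 7), (2, 1), (2, 8), (3, 0), (3, 8), (4, 0), (4, 9), (5, 6), (5,
      10), (6, 5), (6, 7), (7, 1), (7, 6), (8, 2), (8, 3), (9, 4), (9, 10), (10, 5), (10, 9)]
    lev := [] }
  links := [[1, 6, 2, 3], [6, 0, 3, 7, 8, 4, 9], [3, 0, 6, 10, 5, 11, 12], [7, 1, 0, 2, 12, 13], [9, 1,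
    8, 14], [11, 2, 10, 15, 16]]
  P := {
    a := 6
    N := 17
    nb := [78, 985, 7273, 12423, 17154, 101380, 1543, 8458, 16530, 16466, 32868, 69668, 10252, 4232,
      784, 66592, 34848]
    tri := [(0, 1, 3), (0, 1, 6), (0, 2, 3), (0, 2, 6), (1, 3, 7), (1, 4, 8), (1, 4, 9), (1, 6, 9), (1,
      7, 8), (2, 3, 12), (2, 5, 10), (2, 5, 11), (2, 6, 10), (2, 11, 12), (3, 7, 13), (3, 12, 13),
      (4, 8, 14), (4, 9, 14), (5, 10, 15), (5, 11, 16), (5, 15, 16)]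
    fin := [0, 1, 0, 0, 1, 5, 0, 1, 8, 1, 5, 5, 12, 13, 14, 15, 16]
    chd := [(0, 12), (0, 13)]
    steps := [(0, 2), (0, 3), (0, 6), (1, 4), (1, 7), (1, 9), (5, 10), (5, 11)] }
  rep := [0, 1, 8, 5, 12, 13, 14, 15, 16]

noncomputable def v1534 : Cov.CovD where
  P := 3
  N := 6
  pl := [2, 8, 9, 10]
  lev := [⟨[], [], [], [], [(0, 0, [4, 5])]⟩,
    ⟨[], [(0, 0), (0, 1)], [(0, 1), (1, 1)], [2], [(0, 0, [4, 5]), (1, 1, []), (3, 1, [])]⟩,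
    ⟨[(0, 1)], [(0, 0), (0, 3), (0, 4), (1, 0)], [(0, 3), (0, 4), (3, 3), (3, 4)], [], [(0,
      0, [4, 5]), (4, 3, []), (5, 3, []), (6, 4, [0])]⟩,
    ⟨[(0, 1), (0, 2), (1, 2)], [(0, 0), (0, 1), (0, 4), (0, 5), (1, 0), (1, 1), (1, 4), (1,
      5), (2, 0), (2, 1), (2, 3), (2, 4), (2, 5)], [(1, 4), (1, 5), (4, 5)], [], [(1, 1, []),
      (6, 4, [0]), (7, 5, [0])]⟩,
    ⟨[(0, 1), (1, 3)], [(1, 0), (1, 1)], [], [2, 6], [(3, 1, [])]⟩,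
    ⟨[(0, 2), (2, 3)], [(2, 0), (2, 3), (2, 4)], [(3, 3)], [7, 8], [(4, 3, []), (5, 3,
      [])]⟩]
  Ta := [((1, 2), 1, 2), ((1, 7), 1, 5), ((3, 0), 1, 0), ((3, 8), 1, 6), ((4, 0), 3, 0), ((4, 9),
    3, 7), ((5, 6), 3, 4), ((5, 10), 3, 8)]
  Tb := [((0, 3, 4), 0, 1, 3), ((1, 2, 7), 1, 2, 5), ((2, 1, 8), 2, 1, 6), ((3, 0, 8), 1, 0, 6),
    ((4, 0, 9), 3, 0, 7), ((5, 6, 10), 3, 4, 8), ((6, 5, 7), 4, 3, 5), ((7, 1, 6), 5, 1, 4),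
    ((8, 2, 3), 6, 2, 1), ((9, 4, 10), 7, 3, 8), ((10, 5, 9), 8, 3, 7)]
  Tc := [(0, 4, 5)]
  Td := [((0, 4), (0, 3), 1), ((0, 4), (0, 4), 3), ((0, 5), (0, 3), 1), ((0, 5), (0, 4), 3), ((4,
    0), (6, 5), 3), ((4, 0), (6, 7), 5), ((5, 0), (7, 1), 1), ((5, 0), (7, 6), 4)]
  G := [[0, 0, 0xf2148f21f21a4c, 0x781ff51ff51e48fc188a, 0xf21f2168f2188c], [0, 0,
    0xf21221a4f21d21686, 0xff51ff9164ff9184c, 0xf21f2168f2188a], [0, 0xffc144ffc1ffc1a8c,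
    0xffc128ffc1ffc1c86, 0, 0xf29128ff91ff91d11e86], [0, 0x781ffc1ffc1e48fc188c,
    0x6fc144ffc1981ffc1e8c, 0, 0xff91ff91a8ff91486]]

noncomputable def n1534 : Ent := ⟨e1534, noF, [], [], [(15, 14, [1685382413448253767852309107433119732572617628602273068445371174913, 0]), (15, 9, [1685356702439545624008034240510833457709826487664008433929042243585, 0]), (16, 8, [1580044410770988437309982451912114807532205501265773183772026454017, 0]), (16, 14, [1580095832788404724998799751142926758855362888449624481876425035777, 0])]⟩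

def c1534 : PLift (Cov.check n1534.C.D v1534 = true) := ⟨by decide +kernel⟩

def b1534 : PLift (entF (fidx ts) 400 1534 n1534 = true) := ⟨by decide +kernel⟩

theorem g1534 : GoodF (fidx ts) 400 1534 := GoodF.ofV v1534 n1534 c1534.down b1534.down

/-- 477474:1251 -/
noncomputable def e1535 : SCfg where
  D := {
    a := 6
    L := 9
    kp := 8
    inn := [(0, 1), (0, 2), (1, 0), (1, 2), (1, 3), (1, 4), (2, 0), (2, 1), (2, 4), (2, 5), (3, 1), (3,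
      4), (4, 1), (4, 2), (4, 3), (4, 5), (5, 2), (5, 4)]
    mix := [(0, 0), (0, 1), (1, 1), (1, 2), (1, 3), (2, 0), (2, 4), (2, 5), (3, 3), (3, 6), (4, 6), (4,
      7), (4, 8), (5, 4), (5, 8)]
    cl := [0, 2, 6, 1, 3, 7, 5, 8, 4]
    chq := [(0, 1), (0, 6), (1, 0), (1, 3), (1, 4), (1, 7), (1, 8), (3, 1), (4, 1), (6, 0), (7, 1), (8,
      1)]
    rng := [(0, 1), (0, 5), (1, 0), (1, 2), (2, 1), (2, 3), (3, 2), (3, 6), (4, 5), (4, 8), (5, 0), (5,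
      4), (6, 3), (6, 7), (7, 6), (7, 8), (8, 4), (8, 7)]
    lev := [] }
  links := [[1, 2, 6, 7], [2, 0, 7, 8, 9, 3, 4], [6, 0, 1, 4, 5, 10, 11], [4, 1, 9, 12], [5, 2, 1, 3, 12,
    13, 14], [10, 2, 4, 14]]
  P := {
    a := 6
    N := 15
    nb := [198, 925, 3187, 4626, 28718, 17428, 2181, 323, 642, 4362, 18468, 1092, 8728, 20496, 9264]
    tri := [(0, 1, 2), (0, 1, 7), (0, 2, 6), (0, 6, 7), (1, 2, 4), (1, 3, 4), (1, 3, 9), (1, 7, 8), (1,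
      8, 9), (2, 4, 5), (2, 5, 10), (2, 6, 11), (2, 10, 11), (3, 4, 12), (3, 9, 12), (4, 5, 14),
      (4, 12, 13), (4, 13, 14), (5, 10, 14)]
    fin := [0, 0, 2, 2, 2, 2, 0, 7, 8, 2, 10, 11, 12, 13, 14]
    chd := [(0, 2), (0, 8), (2, 10), (2, 11), (2, 13), (2, 14)]
    steps := [(0, 1), (0, 6), (2, 4), (2, 3), (2, 5), (2, 9)] }
  rep := [0, 2, 7, 10, 14, 12, 8, 11, 13]

noncomputable def v1535 : Cov.CovD where
  P := 3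
  N := 6
  pl := [1, 6]
  lev := [⟨[], [], [], [2], [(0, 0, [1, 6])]⟩,
    ⟨[], [(0, 0), (0, 1), (0, 6)], [(1, 6)], [2], [(2, 6, [0]), (3, 1, [0, 3, 4, 7, 8])]⟩,
    ⟨[(0, 1)], [(0, 0), (0, 3), (0, 7), (1, 0), (1, 1), (1, 3), (1, 6), (1, 7)], [(0, 3),
      (0, 7), (3, 7)], [], [(0, 0, [1, 6]), (4, 3, [1]), (5, 7, [1])]⟩,
    ⟨[(0, 1), (1, 2)], [(1, 1), (1, 6)], [], [5], [(3, 1, [0, 3, 4, 7, 8])]⟩,
    ⟨[(0, 1), (0, 2), (1, 2), (1, 3), (2, 3)], [(1, 1), (1, 4), (1, 6), (1, 8), (2, 0), (2,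
      3), (2, 4), (2, 7), (2, 8), (3, 1), (3, 4), (3, 8)], [(4, 8)], [5], [(7, 8, [1]), (8,
      4, [1])]⟩,
    ⟨[(0, 2), (1, 2), (1, 4), (2, 4), (3, 4)], [(2, 0), (2, 3), (2, 4), (2, 7), (4, 3), (4,
      4), (4, 8)], [(3, 4)], [], [(4, 3, [1]), (8, 4, [1])]⟩]
  Ta := []
  Tb := [((0, 1, 5), 0, 2, 7), ((1, 0, 2), 2, 0, 6), ((2, 1, 3), 6, 2, 1), ((3, 2, 6), 1, 6, 5),
    ((4, 5, 8), 3, 7, 4), ((5, 0, 4), 7, 0, 3), ((6, 3, 7), 5, 1, 8), ((7, 6, 8), 8, 5, 4),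
    ((8, 4, 7), 4, 3, 8)]
  Tc := [(0, 1, 6), (1, 0, 3), (1, 0, 4), (1, 0, 7), (1, 0, 8), (1, 3, 4), (1, 3, 7), (1, 3, 8),
    (1, 4, 7), (1, 4, 8), (1, 7, 8)]
  Td := [((0, 1), (0, 1), 2), ((0, 1), (0, 5), 7), ((0, 6), (0, 1), 2), ((0, 6), (0, 5), 7), ((1,
    0), (3, 2), 6), ((1, 0), (3, 6), 5), ((1, 3), (3, 2), 6), ((1, 3), (3, 6), 5), ((1, 4),
    (3, 2), 6), ((1, 4), (3, 6), 5), ((1, 7), (3, 2), 6), ((1, 7), (3, 6), 5), ((1, 8), (3,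
    2), 6), ((1, 8), (3, 6), 5), ((3, 1), (4, 5), 7), ((3, 1), (4, 8), 4), ((4, 1), (8, 4),
    3), ((4, 1), (8, 7), 8), ((6, 0), (2, 1), 2), ((6, 0), (2, 3), 1), ((7, 1), (5, 0), 0),
    ((7, 1), (5, 4), 3), ((8, 1), (7, 6), 5), ((8, 1), (7, 8), 4)]
  G := [[0, 0x111161111c1111ce1111a1111a1111aec1,
    0xb2a29321e142de7b6472625b2a2c331e3deb5ee29298cc, 0xe11292a2cb2a2c3deb3de7ce94,
    0xe1126272c52a2c3deb3de7ce98]]

noncomputable def n1535 : Ent := ⟨e1535, noF, [], [], []⟩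

def c1535 : PLift (Cov.check n1535.C.D v1535 = true) := ⟨by decide +kernel⟩

def b1535 : PLift (entF (fidx ts) 400 1535 n1535 = true) := ⟨by decide +kernel⟩

theorem g1535 : GoodF (fidx ts) 400 1535 := GoodF.ofV v1535 n1535 c1535.down b1535.down

/-- 577645:1254/1 -/
noncomputable def e1536 : SCfg where
  D := {
    a := 6
    L := 10
    kp := 8
    inn := [(0, 1), (0, 2), (0, 3), (1, 0), (1, 2), (1, 4), (2, 0), (2, 1), (2, 3), (2, 5), (3, 0), (3,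
      2), (3, 5), (4, 1), (5, 2), (5, 3)]
    mix := [(0, 0), (0, 1), (1, 1), (1, 2), (1, 3), (1, 4), (2, 4), (2, 5), (2, 6), (3, 0), (3, 7), (3,
      8), (4, 2), (4, 3), (4, 9), (5, 6), (5, 7), (5, 9)]
    cl := [1, 2, 0, 6, 0, 7, 3, 4, 8, 5]
    chq := [(1, 3), (1, 4), (1, 5), (2, 3), (2, 7), (3, 1), (3, 2), (4, 1), (5, 1), (7, 2)]
    rng := [(0, 1), (0, 8), (1, 0), (1, 2), (2, 1), (2, 9), (3, 4), (3, 9), (4, 3), (4, 5), (5, 4), (5,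
      6), (6, 5), (6, 9), (7, 8), (7, 9), (8, 0), (8, 7), (9, 2), (9, 3), (9, 6), (9, 7)]
    lev := [] }
  links := [[1, 2, 3, 6, 7], [2, 0, 7, 8, 4, 9, 10], [3, 0, 1, 10, 11, 12, 5], [6, 0, 2, 5, 13, 14], [9,
    1, 8, 15], [13, 3, 2, 12, 15]]
  P := {
    a := 6
    N := 16
    nb := [206, 1941, 7211, 24677, 33538, 45068, 16521, 323, 32914, 33810, 2566, 5124, 34852, 49192,
      8264, 13104]
    tri := [(0, 1, 2), (0, 1, 7), (0, 2, 3), (0, 3, 6), (0, 6, 7), (1, 2, 10), (1, 4, 8), (1, 4, 9),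
      (1, 7, 8), (1, 9, 10), (2, 3, 5), (2, 5, 12), (2, 10, 11), (2, 11, 12), (3, 5, 13), (3, 6,
      14), (3, 13, 14), (4, 8, 15), (4, 9, 15), (5, 12, 15), (5, 13, 15)]
    fin := [0, 1, 0, 3, 1, 3, 3, 0, 1, 9, 1, 11, 12, 13, 14, 15]
    chd := [(0, 11), (0, 12), (3, 12), (3, 13), (3, 15)]
    steps := [(0, 2), (0, 7), (1, 4), (1, 8), (1, 10), (3, 5), (3, 6)] }
  rep := [1, 3, 0, 12, 13, 15, 9, 11, 14]

noncomputable def v1536 : Cov.CovD where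
  P := 3
  N := 6
  pl := [3, 8]
  lev := [⟨[], [], [(1, 2)], [], [(0, 1, [3, 4, 5]), (1, 2, [3, 7])]⟩,
    ⟨[], [(0, 0), (0, 1), (0, 2)], [(0, 0), (0, 2)], [6], [(1, 2, [3, 7]), (2, 0, []), (4,
      0, [])]⟩,
    ⟨[(0, 1)], [(0, 0), (0, 1), (0, 2), (0, 3), (0, 7), (1, 0), (1, 2), (1, 3), (1, 7)],
      [(0, 3), (0, 7), (3, 7)], [], [(4, 0, []), (5, 7, [2]), (6, 3, [1, 2])]⟩,
    ⟨[(0, 1), (0, 2), (1, 2)], [(0, 1), (0, 2), (0, 4), (2, 0), (2, 1), (2, 3), (2, 4), (2,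
      7)], [(1, 4)], [8], [(0, 1, [3, 4, 5]), (7, 4, [1])]⟩,
    ⟨[(0, 1), (1, 2)], [(1, 0), (1, 2), (1, 5)], [(0, 5)], [6], [(2, 0, []), (9, 5, [1])]⟩,
    ⟨[(0, 2), (0, 3), (1, 2), (2, 3)], [(2, 0), (2, 3), (2, 4), (2, 5), (2, 7), (3, 1), (3,
      3), (3, 4), (3, 5), (4, 5)], [(3, 4), (3, 5), (4, 5)], [], [(6, 3, [1, 2]), (7, 4,
      [1]), (9, 5, [1])]⟩]
  Ta := [((2, 1), 0, 2), ((2, 9), 0, 5), ((4, 3), 0, 6), ((4, 5), 0, 7)]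
  Tb := [((0, 1, 8), 1, 2, 8), ((1, 0, 2), 2, 1, 0), ((2, 1, 9), 0, 2, 5), ((3, 4, 9), 6, 0, 5),
    ((4, 3, 5), 0, 6, 7), ((5, 4, 6), 7, 0, 3), ((6, 5, 9), 3, 7, 5), ((7, 8, 9), 4, 8, 5),
    ((8, 0, 7), 8, 1, 4), ((9, 2, 3), 5, 0, 6), ((9, 2, 6), 5, 0, 3), ((9, 2, 7), 5, 0, 4),
    ((9, 3, 6), 5, 6, 3), ((9, 3, 7), 5, 6, 4), ((9, 6, 7), 5, 3, 4)]
  Tc := [(1, 3, 4), (1, 3, 5), (1, 4, 5), (2, 3, 7), (3, 1, 2)]
  Td := [((1, 3), (0, 1), 2), ((1, 3), (0, 8), 8), ((1, 4), (0, 1), 2), ((1, 4), (0, 8), 8), ((1,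
    5), (0, 1), 2), ((1, 5), (0, 8), 8), ((2, 3), (1, 0), 1), ((2, 3), (1, 2), 0), ((2, 7),
    (1, 0), 1), ((2, 7), (1, 2), 0), ((3, 1), (6, 5), 7), ((3, 1), (6, 9), 5), ((3, 2), (6,
    5), 7), ((3, 2), (6, 9), 5), ((4, 1), (7, 8), 8), ((4, 1), (7, 9), 5), ((5, 1), (9, 2),
    0), ((5, 1), (9, 3), 6), ((5, 1), (9, 6), 3), ((5, 1), (9, 7), 4), ((7, 2), (5, 4), 0),
    ((7, 2), (5, 6), 3)]
  G := [[0, 0x111e2122116116116ee4122111e211a11a11aee182142cac,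
    0x211e11211161226226cf4121111e111a122a22acf8c, 0x22a2222ad2226222e226d2c1,
    0x2264222e49224422c22c22cdf2c4e2262244226f4a9], [0,
    0x1132113211611115ee4115211921111a119ee8c, 0, 0x212122d2222221d2c1,
    0x2142122c21d614e624222422621995226fce1]]

noncomputable def n1536 : Ent := ⟨e1536, noF, [], [], []⟩

def c1536 : PLift (Cov.check n1536.C.D v1536 = true) := ⟨by decide +kernel⟩

def b1536 : PLift (entF (fidx ts) 400 1536 n1536 = true) := ⟨by decide +kernel⟩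

theorem g1536 : GoodF (fidx ts) 400 1536 := GoodF.ofV v1536 n1536 c1536.down b1536.down

/-- 577645:1254/2 -/
noncomputable def e1537 : SCfg where
  D := {
    a := 6
    L := 10
    kp := 8
    inn := [(0, 1), (0, 2), (0, 3), (1, 0), (1, 2), (1, 4), (2, 0), (2, 1), (2, 3), (2, 5), (3, 0), (3,
      2), (3, 5), (4, 1), (5, 2), (5, 3)]
    mix := [(0, 0), (0, 1), (1, 1), (1, 2), (1, 3), (1, 4), (2, 4), (2, 5), (2, 6), (3, 0), (3, 7), (3,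
      8), (4, 2), (4, 3), (4, 7), (5, 6), (5, 7), (5, 9)]
    cl := [2, 0, 4, 5, 0, 6, 3, 1, 7, 8]
    chq := [(0, 1), (1, 0), (1, 2), (1, 3), (1, 6), (2, 1), (2, 6), (3, 1), (6, 1), (6, 2)]
    rng := [(0, 1), (0, 8), (1, 0), (1, 2), (2, 1), (2, 7), (3, 4), (3, 7), (4, 3), (4, 5), (5, 4), (5,
      6), (6, 5), (6, 9), (7, 2), (7, 3), (7, 8), (7, 9), (8, 0), (8, 7), (9, 6), (9, 7)]
    lev := [] }
  links := [[1, 2, 3, 6, 7], [2, 0, 7, 8, 4, 9, 10], [3, 0, 1, 10, 11, 12, 5], [6, 0, 2, 5, 13, 14], [9,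
    1, 8, 13], [13, 3, 2, 12, 15]]
  P := {
    a := 6
    N := 16
    nb := [206, 1941, 7211, 24677, 8962, 45068, 16521, 323, 8338, 9234, 2566, 5124, 34852, 49976,
      8264, 12320]
    tri := [(0, 1, 2), (0, 1, 7), (0, 2, 3), (0, 3, 6), (0, 6, 7), (1, 2, 10), (1, 4, 8), (1, 4, 9),
      (1, 7, 8), (1, 9, 10), (2, 3, 5), (2, 5, 12), (2, 10, 11), (2, 11, 12), (3, 5, 13), (3, 6,
      14), (3, 13, 14), (4, 8, 13), (4, 9, 13), (5, 12, 15), (5, 13, 15)]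
    fin := [0, 1, 2, 0, 1, 5, 0, 1, 8, 9, 1, 2, 12, 5, 14, 15]
    chd := [(0, 2), (0, 5), (1, 5), (2, 5), (12, 5)]
    steps := [(0, 3), (0, 6), (1, 4), (1, 7), (1, 10), (2, 11), (5, 13)] }
  rep := [1, 5, 0, 12, 8, 9, 2, 14, 15]

noncomputable def v1537 : Cov.CovD where
  P := 3
  N := 6
  pl := [2, 3, 8, 9]
  lev := [⟨[], [], [(0, 2)], [], [(0, 2, [1, 6]), (1, 0, [1])]⟩,
    ⟨[], [(0, 0), (0, 2)], [(0, 0)], [4, 5], [(1, 0, [1]), (4, 0, [1])]⟩,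
    ⟨[(0, 1)], [(0, 0), (0, 2), (0, 3), (0, 6), (1, 0), (1, 3), (1, 6)], [(0, 3), (0, 6),
      (3, 6)], [], [(4, 0, [1]), (5, 6, [1, 2]), (6, 3, [1])]⟩,
    ⟨[(0, 1), (0, 2), (1, 2)], [(0, 0), (0, 1), (0, 2), (2, 0), (2, 1), (2, 2), (2, 3), (2,
      6)], [(1, 2)], [7], [(0, 2, [1, 6]), (7, 1, [0, 2, 3, 6])]⟩,
    ⟨[(0, 1), (1, 2)], [(1, 0), (1, 1), (3, 1)], [], [4, 5], [(7, 1, [0, 2, 3, 6])]⟩,
    ⟨[(0, 2), (0, 3), (1, 2), (2, 3)], [(2, 0), (2, 1), (2, 3), (2, 6), (3, 1), (3, 2), (3,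
      3), (4, 1)], [(1, 3)], [8], [(6, 3, [1]), (7, 1, [0, 2, 3, 6])]⟩]
  Ta := [((1, 0), 0, 2), ((1, 2), 0, 4), ((4, 3), 0, 5), ((4, 5), 0, 6)]
  Tb := [((0, 1, 8), 2, 0, 7), ((1, 0, 2), 0, 2, 4), ((2, 1, 7), 4, 0, 1), ((3, 4, 7), 5, 0, 1),
    ((4, 3, 5), 0, 5, 6), ((5, 4, 6), 6, 0, 3), ((6, 5, 9), 3, 6, 8), ((7, 2, 3), 1, 4, 5),
    ((7, 2, 8), 1, 4, 7), ((7, 2, 9), 1, 4, 8), ((7, 3, 8), 1, 5, 7), ((7, 3, 9), 1, 5, 8),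
    ((7, 8, 9), 1, 7, 8), ((8, 0, 7), 7, 2, 1), ((9, 6, 7), 8, 3, 1)]
  Tc := [(1, 0, 2), (1, 0, 3), (1, 0, 6), (1, 2, 3), (1, 2, 6), (1, 3, 6), (2, 1, 6), (6, 1, 2)]
  Td := [((0, 1), (1, 0), 2), ((0, 1), (1, 2), 4), ((0, 1), (4, 3), 5), ((0, 1), (4, 5), 6), ((1,
    0), (7, 2), 4), ((1, 0), (7, 3), 5), ((1, 0), (7, 8), 7), ((1, 0), (7, 9), 8), ((1, 2),
    (7, 2), 4), ((1, 2), (7, 3), 5), ((1, 2), (7, 8), 7), ((1, 2), (7, 9), 8), ((1, 3), (7,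
    2), 4), ((1, 3), (7, 3), 5), ((1, 3), (7, 8), 7), ((1, 3), (7, 9), 8), ((1, 6), (7, 2),
    4), ((1, 6), (7, 3), 5), ((1, 6), (7, 8), 7), ((1, 6), (7, 9), 8), ((2, 1), (0, 1), 0),
    ((2, 1), (0, 8), 7), ((2, 6), (0, 1), 0), ((2, 6), (0, 8), 7), ((3, 1), (6, 5), 6), ((3,
    1), (6, 9), 8), ((6, 1), (5, 4), 0), ((6, 1), (5, 6), 3), ((6, 2), (5, 4), 0), ((6, 2),
    (5, 6), 3)]
  G := [[0, 0x41411414cc44361e2c1ee188c1c1818181e18428d,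
    0xc142d14241251d1c6ed811c2d182912112818eec, 0xcccddddd922528c324,
    0x54d492229151c81d9b51d19e6d8d892248848a8186a985ea], [0,
    0xc141144c143c241e184e183e181e221c1ec, 0, 0xddddddddc221,
    0xdd31254d492512dd916ed8828482912d18ae9]]

noncomputable def n1537 : Ent := ⟨e1537, noF, [], [], []⟩

def c1537 : PLift (Cov.check n1537.C.D v1537 = true) := ⟨by decide +kernel⟩

def b1537 : PLift (entF (fidx ts) 400 1537 n1537 = true) := ⟨by decide +kernel⟩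

theorem g1537 : GoodF (fidx ts) 400 1537 := GoodF.ofV v1537 n1537 c1537.down b1537.down

/-- 577645:1254/3 -/
noncomputable def e1538 : SCfg where
  D := {
    a := 6
    L := 10
    kp := 8
    inn := [(0, 1), (0, 2), (0, 3), (1, 0), (1, 2), (1, 4), (2, 0), (2, 1), (2, 3), (2, 5), (3, 0), (3,
      2), (3, 5), (4, 1), (5, 2), (5, 3)]
    mix := [(0, 0), (0, 1), (1, 1), (1, 2), (1, 3), (1, 4), (2, 4), (2, 5), (2, 6), (3, 0), (3, 7), (3,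
      8), (4, 2), (4, 3), (4, 8), (5, 6), (5, 7), (5, 9)]
    cl := [1, 3, 5, 6, 3, 7, 4, 0, 2, 8]
    chq := [(0, 1), (0, 3), (0, 4), (0, 7), (1, 0), (2, 3), (3, 0), (3, 2), (4, 0), (7, 0)]
    rng := [(0, 1), (0, 8), (1, 0), (1, 2), (2, 1), (2, 8), (3, 4), (3, 8), (4, 3), (4, 5), (5, 4), (5,
      6), (6, 5), (6, 9), (7, 8), (7, 9), (8, 0), (8, 2), (8, 3), (8, 7), (9, 6), (9, 7)]
    lev := [] }
  links := [[1, 2, 3, 6, 7], [2, 0, 7, 8, 4, 9, 10], [3, 0, 1, 10, 11, 12, 5], [6, 0, 2, 5, 13, 14], [9,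
    1, 8, 14], [13, 3, 2, 12, 15]]
  P := {
    a := 6
    N := 16
    nb := [206, 1941, 7211, 24677, 17154, 45068, 16521, 323, 16530, 17426, 2566, 5124, 34852, 49192,
      9048, 12320]
    tri := [(0, 1, 2), (0, 1, 7), (0, 2, 3), (0, 3, 6), (0, 6, 7), (1, 2, 10), (1, 4, 8), (1, 4, 9),
      (1, 7, 8), (1, 9, 10), (2, 3, 5), (2, 5, 12), (2, 10, 11), (2, 11, 12), (3, 5, 13), (3, 6,
      14), (3, 13, 14), (4, 8, 14), (4, 9, 14), (5, 12, 15), (5, 13, 15)]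
    fin := [0, 1, 2, 2, 1, 5, 0, 1, 8, 9, 1, 11, 5, 2, 14, 15]
    chd := [(0, 2), (1, 2), (1, 14), (5, 2), (11, 2)]
    steps := [(0, 6), (1, 4), (1, 7), (1, 10), (2, 3), (2, 13), (5, 12)] }
  rep := [2, 0, 14, 1, 5, 8, 9, 11, 15]

noncomputable def v1538 : Cov.CovD where
  P := 3
  N := 6
  pl := [2, 3, 9]
  lev := [⟨[], [], [(1, 3)], [], [(0, 1, [0]), (1, 3, [0, 2])]⟩,
    ⟨[], [(0, 1), (0, 3)], [(3, 3)], [5, 6], [(1, 3, [0, 2]), (4, 3, [0, 2])]⟩,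
    ⟨[(0, 1)], [(0, 1), (0, 3), (0, 4), (0, 7), (1, 3), (1, 4), (1, 7)], [(3, 4), (3, 7),
      (4, 7)], [], [(4, 3, [0, 2]), (5, 7, [0]), (6, 4, [0])]⟩,
    ⟨[(0, 1), (0, 2), (1, 2)], [(0, 0), (0, 1), (0, 2), (0, 3), (2, 0), (2, 1), (2, 2), (2,
      3), (2, 4), (2, 7)], [(0, 1), (0, 2), (1, 2)], [], [(0, 1, [0]), (7, 0, [1, 3, 4, 7]),
      (8, 2, [3])]⟩,
    ⟨[(0, 1), (1, 2)], [(1, 2), (1, 3), (3, 2)], [], [5, 6], [(8, 2, [3])]⟩,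
    ⟨[(0, 2), (0, 3), (1, 2), (2, 3)], [(2, 0), (2, 3), (2, 4), (2, 7), (3, 0), (3, 1), (3,
      2), (3, 4)], [(0, 4)], [8], [(6, 4, [0]), (7, 0, [1, 3, 4, 7])]⟩]
  Ta := [((1, 0), 3, 1), ((1, 2), 3, 5), ((4, 3), 3, 6), ((4, 5), 3, 7)]
  Tb := [((0, 1, 8), 1, 3, 2), ((1, 0, 2), 3, 1, 5), ((2, 1, 8), 5, 3, 2), ((3, 4, 8), 6, 3, 2),
    ((4, 3, 5), 3, 6, 7), ((5, 4, 6), 7, 3, 4), ((6, 5, 9), 4, 7, 8), ((7, 8, 9), 0, 2, 8),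
    ((8, 0, 2), 2, 1, 5), ((8, 0, 3), 2, 1, 6), ((8, 0, 7), 2, 1, 0), ((8, 2, 3), 2, 5, 6),
    ((8, 2, 7), 2, 5, 0), ((8, 3, 7), 2, 6, 0), ((9, 6, 7), 8, 4, 0)]
  Tc := [(0, 1, 3), (0, 1, 4), (0, 1, 7), (0, 3, 4), (0, 3, 7), (0, 4, 7), (3, 0, 2)]
  Td := [((0, 1), (7, 8), 2), ((0, 1), (7, 9), 8), ((0, 3), (7, 8), 2), ((0, 3), (7, 9), 8), ((0,
    4), (7, 8), 2), ((0, 4), (7, 9), 8), ((0, 7), (7, 8), 2), ((0, 7), (7, 9), 8), ((1, 0),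
    (0, 1), 3), ((1, 0), (0, 8), 2), ((2, 3), (8, 0), 1), ((2, 3), (8, 2), 5), ((2, 3), (8,
    3), 6), ((2, 3), (8, 7), 0), ((3, 0), (1, 0), 1), ((3, 0), (1, 2), 5), ((3, 0), (4, 3),
    6), ((3, 0), (4, 5), 7), ((3, 2), (1, 0), 1), ((3, 2), (1, 2), 5), ((3, 2), (4, 3), 6),
    ((3, 2), (4, 5), 7), ((4, 0), (6, 5), 7), ((4, 0), (6, 9), 8), ((7, 0), (5, 4), 3), ((7,
    0), (5, 6), 4)]
  G := [[0, 0xe841e481eec41114118114e28ff2, 0xeeee411eeee811c, 0xeeed412eeed812c,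
    0xe881eeeb81e281c11811718eeee8ff4], [0, 0xe4414e881eeed81118eece83bc, 0xeeee8114,
    0xeeed8124, 0xe881ee981e281c41b18e18eec8ff4]]

noncomputable def n1538 : Ent := ⟨e1538, noF, [], [], []⟩

def c1538 : PLift (Cov.check n1538.C.D v1538 = true) := ⟨by decide +kernel⟩

def b1538 : PLift (entF (fidx ts) 400 1538 n1538 = true) := ⟨by decide +kernel⟩

theorem g1538 : GoodF (fidx ts) 400 1538 := GoodF.ofV v1538 n1538 c1538.down b1538.down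

/-- 577645:1254 -/
noncomputable def e1539 : SCfg where
  D := {
    a := 6
    L := 11
    kp := 9
    inn := [(0, 1), (0, 2), (0, 3), (1, 0), (1, 2), (1, 4), (2, 0), (2, 1), (2, 3), (2, 5), (3, 0), (3,
      2), (3, 5), (4, 1), (5, 2), (5, 3)]
    mix := [(0, 0), (0, 1), (1, 1), (1, 2), (1, 3), (1, 4), (2, 4), (2, 5), (2, 6), (3, 0), (3, 7), (3,
      8), (4, 2), (4, 3), (4, 9), (5, 6), (5, 7), (5, 10)]
    cl := [1, 2, 0, 5, 0, 6, 3, 4, 8, 9, 7]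
    chq := [(1, 3), (1, 4), (1, 7), (2, 3), (2, 6), (3, 1), (3, 2), (4, 1), (6, 2), (7, 1)]
    rng := [(0, 1), (0, 8), (1, 0), (1, 2), (2, 1), (2, 9), (3, 4), (3, 9), (4, 3), (4, 5), (5, 4), (5,
      6), (6, 5), (6, 10), (7, 8), (7, 10), (8, 0), (8, 7), (9, 2), (9, 3), (10, 6), (10, 7)]
    lev := [] }
  links := [[1, 2, 3, 6, 7], [2, 0, 7, 8, 4, 9, 10], [3, 0, 1, 10, 11, 12, 5], [6, 0, 2, 5, 13, 14], [9,
    1, 8, 15], [13, 3, 2, 12, 16]]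
  P := {
    a := 6
    N := 17
    nb := [206, 1941, 7211, 24677, 33538, 77836, 16521, 323, 32914, 33810, 2566, 5124, 67620, 81960,
      8264, 784, 12320]
    tri := [(0, 1, 2), (0, 1, 7), (0, 2, 3), (0, 3, 6), (0, 6, 7), (1, 2, 10), (1, 4, 8), (1, 4, 9),
      (1, 7, 8), (1, 9, 10), (2, 3, 5), (2, 5, 12), (2, 10, 11), (2, 11, 12), (3, 5, 13), (3, 6,
      14), (3, 13, 14), (4, 8, 15), (4, 9, 15), (5, 12, 16), (5, 13, 16)]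
    fin := [0, 1, 0, 3, 1, 3, 3, 0, 1, 9, 1, 11, 12, 13, 14, 15, 16]
    chd := [(0, 11), (0, 12), (3, 12), (3, 13), (3, 16)]
    steps := [(0, 2), (0, 7), (1, 4), (1, 8), (1, 10), (3, 5), (3, 6)] }
  rep := [1, 3, 0, 12, 13, 9, 11, 16, 14, 15]

noncomputable def v1539 : Cov.CovD where
  P := 3
  N := 7
  pl := [3, 8, 9]
  lev := [⟨[], [], [(1, 2)], [], [(0, 1, [3, 4, 7]), (1, 2, [3, 6])]⟩,
    ⟨[], [(0, 0), (0, 1), (0, 2)], [(0, 0), (0, 2)], [5], [(1, 2, [3, 6]), (2, 0, []), (4,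
      0, [])]⟩,
    ⟨[(0, 1)], [(0, 0), (0, 1), (0, 2), (0, 3), (0, 6), (1, 0), (1, 2), (1, 3), (1, 6)],
      [(0, 3), (0, 6), (3, 6)], [], [(4, 0, []), (5, 6, [2]), (6, 3, [1, 2])]⟩,
    ⟨[(0, 1), (0, 2), (1, 2)], [(0, 1), (0, 2), (0, 4), (2, 0), (2, 1), (2, 3), (2, 4), (2,
      6)], [(1, 4)], [8], [(0, 1, [3, 4, 7]), (7, 4, [1])]⟩,
    ⟨[(0, 1), (1, 2)], [(1, 0), (1, 2)], [], [5, 9], [(2, 0, [])]⟩,
    ⟨[(0, 2), (0, 3), (1, 2), (2, 3)], [(2, 0), (2, 3), (2, 4), (2, 6), (2, 7), (3, 1), (3,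
      3), (3, 4), (3, 7)], [(3, 4), (3, 7), (4, 7)], [], [(6, 3, [1, 2]), (7, 4, [1]), (10,
      7, [1])]⟩]
  Ta := [((2, 1), 0, 2), ((2, 9), 0, 9), ((4, 3), 0, 5), ((4, 5), 0, 6)]
  Tb := [((0, 1, 8), 1, 2, 8), ((1, 0, 2), 2, 1, 0), ((2, 1, 9), 0, 2, 9), ((3, 4, 9), 5, 0, 9),
    ((4, 3, 5), 0, 5, 6), ((5, 4, 6), 6, 0, 3), ((6, 5, 10), 3, 6, 7), ((7, 8, 10), 4, 8, 7),
    ((8, 0, 7), 8, 1, 4), ((9, 2, 3), 9, 0, 5), ((10, 6, 7), 7, 3, 4)]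
  Tc := [(1, 3, 4), (1, 3, 7), (1, 4, 7), (2, 3, 6), (3, 1, 2)]
  Td := [((1, 3), (0, 1), 2), ((1, 3), (0, 8), 8), ((1, 4), (0, 1), 2), ((1, 4), (0, 8), 8), ((1,
    7), (0, 1), 2), ((1, 7), (0, 8), 8), ((2, 3), (1, 0), 1), ((2, 3), (1, 2), 0), ((2, 6),
    (1, 0), 1), ((2, 6), (1, 2), 0), ((3, 1), (6, 5), 6), ((3, 1), (6, 10), 7), ((3, 2), (6,
    5), 6), ((3, 2), (6, 10), 7), ((4, 1), (7, 8), 8), ((4, 1), (7, 10), 7), ((6, 2), (5, 4),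
    0), ((6, 2), (5, 6), 3), ((7, 1), (10, 6), 3), ((7, 1), (10, 7), 4)]
  G := [[0, 0x111e2122116116116ee4122111e211a11a11aee182142cac,
    0x22c13361a422c133a122c22cc722a12261226226cdac, 0x22a22a22ad2226226226d2c1,
    0x244128412264226226226d222e4de22c22c22cd66c4689], [0,
    0x116211211611116ee411211a21111a11ee8c, 0, 0x22a2122ad22122621d2c1,
    0x21422c22c21dff94eff342222d42121226dce1]]

noncomputable def n1539 : Ent := ⟨e1539, noF, [], [], [(15, 16, [1580044410770988437309982408355971841652082177953823432505695404033, 0]), (15, 13, [1685356714993749094781261963711221120386310105559083432688075411457, 0]), (15, 14, [1685382413448253767852309107433119732572617628602273068445371211777, 0])]⟩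

def c1539 : PLift (Cov.check n1539.C.D v1539 = true) := ⟨by decide +kernel⟩

def b1539 : PLift (entF (fidx ts) 400 1539 n1539 = true) := ⟨by decide +kernel⟩

theorem g1539 : GoodF (fidx ts) 400 1539 := GoodF.ofV v1539 n1539 c1539.down b1539.down

/-- 456665:1255/2 -/
noncomputable def e1540 : SCfg where
  D := {
    a := 6
    L := 9
    kp := 6
    inn := [(0, 1), (1, 0), (1, 2), (2, 1), (2, 3), (3, 2), (3, 4), (3, 5), (4, 3), (4, 5), (5, 3), (5,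
      4)]
    mix := [(0, 0), (0, 1), (0, 2), (1, 0), (1, 2), (1, 3), (2, 2), (2, 3), (2, 4), (2, 5), (3, 3), (3,
      5), (3, 6), (4, 1), (4, 6), (4, 7), (4, 8), (5, 0), (5, 3), (5, 8)]
    cl := [1, 4, 2, 0, 5, 0, 3, 6, 3]
    chq := [(1, 2), (1, 5), (2, 1), (5, 1)]
    rng := [(0, 1), (0, 3), (0, 8), (1, 0), (1, 2), (1, 7), (1, 8), (2, 1), (2, 4), (3, 0), (4, 2), (4,
      5), (5, 4), (5, 6), (6, 5), (6, 7), (7, 1), (7, 6), (8, 0), (8, 1)]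
    lev := [] }
  links := [[1, 6, 7, 8], [6, 0, 8, 2, 9], [9, 1, 8, 10, 11, 3], [9, 2, 11, 12, 4, 5], [5, 3, 12, 13, 7,
    14], [9, 3, 4, 14, 6]]
  P := {
    a := 6
    N := 15
    nb := [450, 837, 3850, 6708, 28840, 16984, 17059, 24913, 1159, 110, 2308, 5132, 10264, 4240, 240]
    tri := [(0, 1, 6), (0, 1, 8), (0, 6, 7), (0, 7, 8), (1, 2, 8), (1, 2, 9), (1, 6, 9), (2, 3, 9), (2,
      3, 11), (2, 8, 10), (2, 10, 11), (3, 4, 5), (3, 4, 12), (3, 5, 9), (3, 11, 12), (4, 5, 14),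
      (4, 7, 13), (4, 7, 14), (4, 12, 13), (5, 6, 9), (5, 6, 14)]
    fin := [0, 0, 0, 3, 4, 0, 0, 7, 8, 3, 10, 3, 4, 13, 4]
    chd := [(0, 8), (0, 10)]
    steps := [(0, 1), (0, 2), (0, 6), (3, 11), (3, 9), (0, 5), (4, 12), (4, 14)] }
  rep := [3, 0, 8, 4, 7, 10, 13]

noncomputable def v1540 : Cov.CovD where
  P := 3
  N := 4
  pl := [1, 7]
  lev := [⟨[], [], [(1, 2)], [4], [(0, 1, [2, 5]), (2, 2, [1])]⟩,
    ⟨[], [(0, 0), (0, 1), (0, 2)], [(0, 1), (0, 2), (1, 2)], [], [(0, 1, [2, 5]), (2, 2,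
      [1]), (3, 0, [])]⟩,
    ⟨[(0, 1)], [(0, 2), (1, 0), (1, 1), (1, 2), (1, 5)], [(0, 0), (0, 2), (0, 5), (2, 5)],
      [], [(2, 2, [1]), (3, 0, []), (4, 5, [1]), (5, 0, [])]⟩,
    ⟨[(1, 2)], [(1, 0), (2, 0), (2, 2), (2, 3), (2, 5)], [(0, 0), (0, 3)], [], [(3, 0, []),
      (5, 0, []), (6, 3, [])]⟩,
    ⟨[(2, 3)], [(3, 0), (3, 3)], [(3, 3)], [4, 6], [(6, 3, []), (8, 3, [])]⟩,
    ⟨[(2, 3), (3, 4)], [(0, 1), (1, 0), (1, 1), (2, 0), (3, 0), (3, 1), (3, 3), (4, 0), (4,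
      1), (4, 3)], [(0, 1), (0, 3), (1, 3)], [], [(0, 1, [2, 5]), (3, 0, []), (8, 3, [])]⟩]
  Ta := [((3, 0), 0, 1), ((5, 4), 0, 5), ((5, 6), 0, 3), ((6, 5), 3, 0), ((6, 7), 3, 6), ((8, 0),
    3, 1), ((8, 1), 3, 4)]
  Tb := [((0, 1, 3), 1, 4, 0), ((0, 1, 8), 1, 4, 3), ((0, 3, 8), 1, 0, 3), ((1, 0, 2), 4, 1, 2),
    ((1, 0, 7), 4, 1, 6), ((1, 0, 8), 4, 1, 3), ((1, 2, 7), 4, 2, 6), ((1, 2, 8), 4, 2, 3),
    ((1, 7, 8), 4, 6, 3), ((2, 1, 4), 2, 4, 5), ((4, 2, 5), 5, 2, 0), ((5, 4, 6), 0, 5, 3),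
    ((6, 5, 7), 3, 0, 6), ((7, 1, 6), 6, 4, 3), ((8, 0, 1), 3, 1, 4)]
  Tc := [(1, 2, 5)]
  Td := [((1, 2), (0, 1), 4), ((1, 2), (0, 3), 0), ((1, 2), (0, 8), 3), ((1, 5), (0, 1), 4), ((1,
    5), (0, 3), 0), ((1, 5), (0, 8), 3), ((2, 1), (2, 1), 4), ((2, 1), (2, 4), 5), ((5, 1),
    (4, 2), 2), ((5, 1), (4, 5), 0)]
  G := [[0, 0x484b44498447ac4245844b628878c8c, 0x8487428488b828c, 0x8887428488b828c,
    0x48a8847c284438289], [0, 0x824b4846b2c448a7248678c8c, 0x84cb42848c7828c,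
    0x24ce828c238285, 0x4c688c2848c78289], [0, 0, 0x48843c2448384c28c, 0x28423c2184384c24c,
    0x41a116c2844382541e289], [0, 0, 0x114b8241187424c, 0x241e8281234289, 0x141e82811c74289]]

noncomputable def n1540 : Ent := ⟨e1540, noF, [], [], []⟩

def c1540 : PLift (Cov.check n1540.C.D v1540 = true) := ⟨by decide +kernel⟩

def b1540 : PLift (entF (fidx ts) 400 1540 n1540 = true) := ⟨by decide +kernel⟩

theorem g1540 : GoodF (fidx ts) 400 1540 := GoodF.ofV v1540 n1540 c1540.down b1540.down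

/-- 456665:1255/3 -/
noncomputable def e1541 : SCfg where
  D := {
    a := 6
    L := 9
    kp := 6
    inn := [(0, 1), (1, 0), (1, 2), (2, 1), (2, 3), (3, 2), (3, 4), (3, 5), (4, 3), (4, 5), (5, 3), (5,
      4)]
    mix := [(0, 0), (0, 1), (0, 2), (1, 0), (1, 2), (1, 3), (2, 2), (2, 3), (2, 4), (2, 5), (3, 3), (3,
      5), (3, 6), (4, 1), (4, 6), (4, 7), (4, 8), (5, 0), (5, 1), (5, 3)]
    cl := [1, 0, 2, 3, 4, 3, 0, 5, 6]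
    chq := [(1, 2), (1, 4), (2, 1), (4, 1)]
    rng := [(0, 1), (0, 3), (1, 0), (1, 2), (1, 8), (2, 1), (2, 4), (3, 0), (4, 2), (4, 5), (5, 4), (5,
      6), (6, 5), (6, 7), (7, 6), (7, 8), (8, 1), (8, 7)]
    lev := [] }
  links := [[1, 6, 7, 8], [6, 0, 8, 2, 9], [9, 1, 8, 10, 11, 3], [9, 2, 11, 12, 4, 5], [5, 3, 12, 13, 14,
    7], [9, 3, 4, 7, 6]]
  P := {
    a := 6
    N := 15
    nb := [450, 837, 3850, 6708, 28840, 728, 675, 16753, 1159, 110, 2308, 5132, 10264, 20496, 8336]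
    tri := [(0, 1, 6), (0, 1, 8), (0, 6, 7), (0, 7, 8), (1, 2, 8), (1, 2, 9), (1, 6, 9), (2, 3, 9), (2,
      3, 11), (2, 8, 10), (2, 10, 11), (3, 4, 5), (3, 4, 12), (3, 5, 9), (3, 11, 12), (4, 5, 7),
      (4, 7, 14), (4, 12, 13), (4, 13, 14), (5, 6, 7), (5, 6, 9)]
    fin := [0, 0, 0, 3, 4, 0, 0, 4, 8, 3, 10, 3, 4, 13, 14]
    chd := [(0, 8), (0, 10)]
    steps := [(0, 1), (0, 2), (0, 6), (3, 11), (3, 9), (0, 5), (4, 7), (4, 12)] }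
  rep := [4, 0, 8, 3, 10, 13, 14]

noncomputable def v1541 : Cov.CovD where
  P := 3
  N := 4
  pl := [7, 8]
  lev := [⟨[], [], [(0, 1), (0, 2), (1, 2)], [], [(0, 1, [2, 4]), (1, 0, []), (2, 2, [1])]⟩,
    ⟨[], [(0, 0), (0, 1), (0, 2), (0, 3)], [(1, 2), (1, 3), (2, 3)], [], [(0, 1, [2, 4]),
      (2, 2, [1]), (3, 3, [])]⟩,
    ⟨[(0, 1)], [(0, 2), (1, 1), (1, 2), (1, 3), (1, 4)], [(2, 3), (2, 4), (3, 3), (3, 4)],
      [], [(2, 2, [1]), (3, 3, []), (4, 4, [1]), (5, 3, [])]⟩,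
    ⟨[(1, 2)], [(1, 3), (2, 0), (2, 2), (2, 3), (2, 4)], [(0, 3), (3, 3)], [], [(3, 3, []),
      (5, 3, []), (6, 0, [])]⟩,
    ⟨[(2, 3)], [(0, 0), (3, 0), (3, 3)], [(0, 0)], [5, 6], [(1, 0, []), (6, 0, [])]⟩,
    ⟨[(2, 3), (3, 4)], [(0, 0), (0, 1), (1, 1), (1, 3), (2, 3), (3, 0), (3, 1), (3, 3), (4,
      0), (4, 1), (4, 3)], [(0, 1), (0, 3), (1, 3)], [], [(0, 1, [2, 4]), (1, 0, []), (3, 3,
      [])]⟩]
  Ta := [((1, 0), 0, 1), ((1, 2), 0, 2), ((1, 8), 0, 6), ((3, 0), 3, 1), ((5, 4), 3, 4), ((5, 6),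
    3, 0), ((6, 5), 0, 3), ((6, 7), 0, 5)]
  Tb := [((0, 1, 3), 1, 0, 3), ((1, 0, 2), 0, 1, 2), ((1, 0, 8), 0, 1, 6), ((1, 2, 8), 0, 2, 6),
    ((2, 1, 4), 2, 0, 4), ((4, 2, 5), 4, 2, 3), ((5, 4, 6), 3, 4, 0), ((6, 5, 7), 0, 3, 5),
    ((7, 6, 8), 5, 0, 6), ((8, 1, 7), 6, 0, 5)]
  Tc := [(1, 2, 4)]
  Td := [((1, 2), (0, 1), 0), ((1, 2), (0, 3), 3), ((1, 4), (0, 1), 0), ((1, 4), (0, 3), 3), ((2,
    1), (2, 1), 0), ((2, 1), (2, 4), 4), ((4, 1), (4, 2), 2), ((4, 1), (4, 5), 3)]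
  G := [[0, 0x228e814a4e41c4, 0x888e12484e4444e1444e1ec8, 0x22ce1214, 0x848e1cc4e1488e8b18], [0,
    0x224e424e6184, 0x4c4e1284, 0x424e1218, 0x488e1218], [0, 0, 0, 0x281e224ec218,
    0x11618c1211c618a41ccb18], [0, 0, 0, 0x228e488ec241, 0x418e488ec218]]

noncomputable def n1541 : Ent := ⟨e1541, noF, [], [], []⟩

def c1541 : PLift (Cov.check n1541.C.D v1541 = true) := ⟨by decide +kernel⟩

def b1541 : PLift (entF (fidx ts) 400 1541 n1541 = true) := ⟨by decide +kernel⟩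

theorem g1541 : GoodF (fidx ts) 400 1541 := GoodF.ofV v1541 n1541 c1541.down b1541.down

/-- 456665:1255/1 -/
noncomputable def e1542 : SCfg where
  D := {
    a := 6
    L := 10
    kp := 7
    inn := [(0, 1), (1, 0), (1, 2), (2, 1), (2, 3), (3, 2), (3, 4), (3, 5), (4, 3), (4, 5), (5, 3), (5,
      4)]
    mix := [(0, 0), (0, 1), (0, 2), (1, 0), (1, 2), (1, 3), (2, 2), (2, 3), (2, 4), (2, 5), (3, 3), (3,
      5), (3, 6), (4, 6), (4, 7), (4, 8), (4, 9), (5, 0), (5, 3), (5, 9)]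
    cl := [1, 5, 2, 0, 4, 0, 3, 6, 7, 3]
    chq := [(1, 2), (1, 4), (2, 1), (4, 1)]
    rng := [(0, 1), (0, 3), (0, 9), (1, 0), (1, 2), (2, 1), (2, 4), (3, 0), (4, 2), (4, 5), (5, 4), (5,
      6), (6, 5), (6, 7), (7, 6), (7, 8), (8, 7), (8, 9), (9, 0), (9, 8)]
    lev := [] }
  links := [[1, 6, 7, 8], [6, 0, 8, 2, 9], [9, 1, 8, 10, 11, 3], [9, 2, 11, 12, 4, 5], [5, 3, 12, 13, 14,
    15], [9, 3, 4, 15, 6]]
  P := {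
    a := 6
    N := 16
    nb := [450, 837, 3850, 6708, 61480, 33368, 33443, 321, 1159, 110, 2308, 5132, 10264, 20496, 40976,
      16496]
    tri := [(0, 1, 6), (0, 1, 8), (0, 6, 7), (0, 7, 8), (1, 2, 8), (1, 2, 9), (1, 6, 9), (2, 3, 9), (2,
      3, 11), (2, 8, 10), (2, 10, 11), (3, 4, 5), (3, 4, 12), (3, 5, 9), (3, 11, 12), (4, 5, 15),
      (4, 12, 13), (4, 13, 14), (4, 14, 15), (5, 6, 9), (5, 6, 15)]
    fin := [0, 0, 0, 3, 4, 0, 0, 7, 8, 3, 10, 3, 4, 13, 14, 4]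
    chd := [(0, 8), (0, 10)]
    steps := [(0, 1), (0, 2), (0, 6), (3, 11), (3, 9), (0, 5), (4, 12), (4, 15)] }
  rep := [3, 0, 8, 4, 10, 7, 13, 14]

noncomputable def v1542 : Cov.CovD where
  P := 3
  N := 5
  pl := [1, 7, 8]
  lev := [⟨[], [], [(1, 2)], [5], [(0, 1, [2, 4]), (2, 2, [1])]⟩,
    ⟨[], [(0, 0), (0, 1), (0, 2)], [(0, 1), (0, 2), (1, 2)], [], [(0, 1, [2, 4]), (2, 2,
      [1]), (3, 0, [])]⟩,
    ⟨[(0, 1)], [(0, 2), (1, 0), (1, 1), (1, 2), (1, 4)], [(0, 0), (0, 2), (0, 4), (2, 4)],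
      [], [(2, 2, [1]), (3, 0, []), (4, 4, [1]), (5, 0, [])]⟩,
    ⟨[(1, 2)], [(1, 0), (2, 0), (2, 2), (2, 3), (2, 4)], [(0, 0), (0, 3)], [], [(3, 0, []),
      (5, 0, []), (6, 3, [])]⟩,
    ⟨[(2, 3)], [(3, 0), (3, 3)], [(3, 3)], [6, 7], [(6, 3, []), (9, 3, [])]⟩,
    ⟨[(2, 3), (3, 4)], [(0, 1), (1, 0), (1, 1), (2, 0), (3, 0), (3, 1), (3, 3), (4, 0), (4,
      1), (4, 3)], [(0, 1), (0, 3), (1, 3)], [], [(0, 1, [2, 4]), (3, 0, []), (9, 3, [])]⟩]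
  Ta := [((3, 0), 0, 1), ((5, 4), 0, 4), ((5, 6), 0, 3), ((6, 5), 3, 0), ((6, 7), 3, 6), ((9, 0),
    3, 1), ((9, 8), 3, 7)]
  Tb := [((0, 1, 3), 1, 5, 0), ((0, 1, 9), 1, 5, 3), ((0, 3, 9), 1, 0, 3), ((1, 0, 2), 5, 1, 2),
    ((2, 1, 4), 2, 5, 4), ((4, 2, 5), 4, 2, 0), ((5, 4, 6), 0, 4, 3), ((6, 5, 7), 3, 0, 6),
    ((7, 6, 8), 6, 3, 7), ((8, 7, 9), 7, 6, 3), ((9, 0, 8), 3, 1, 7)]
  Tc := [(1, 2, 4)]
  Td := [((1, 2), (0, 1), 5), ((1, 2), (0, 3), 0), ((1, 2), (0, 9), 3), ((1, 4), (0, 1), 5), ((1,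
    4), (0, 3), 0), ((1, 4), (0, 9), 3), ((2, 1), (2, 1), 5), ((2, 1), (2, 4), 4), ((4, 1),
    (4, 2), 2), ((4, 1), (4, 5), 0)]
  G := [[0, 0x824d888b6282d4447ac4882d242b6484d8847ac8c, 0x41244a88681e64484b8847c24c,
    0x244b8827c28442b8487c289, 0x444b8847c28448b8447c289], [0,
    0x2c384c684c6f2c4826b446426788ac8c, 0x448ccbc24448ccbc28c, 0x22c2f82824c2f8289,
    0x448ccbc284cc788c289], [0, 0, 0x444b8447c28448b8847c24c, 0x488b2447c21482b8887c289,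
    0x488b8487c21849212846849ea89], [0, 0, 0x811cf424111cf424c, 0x2112f4241412f828c,
    0x111cf828111cf4289]]

noncomputable def n1542 : Ent := ⟨e1542, noF, [], [], [(7, 14, [385746751338780685620664494392815470296102193487288376378802177, 0]), (7, 15, [360035742630636841211993100915356868655746945586763691013984257, 0])]⟩

def c1542 : PLift (Cov.check n1542.C.D v1542 = true) := ⟨by decide +kernel⟩

def b1542 : PLift (entF (fidx ts) 400 1542 n1542 = true) := ⟨by decide +kernel⟩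

theorem g1542 : GoodF (fidx ts) 400 1542 := GoodF.ofV v1542 n1542 c1542.down b1542.down

/-- 456665:1255/4 -/
noncomputable def e1543 : SCfg where
  D := {
    a := 6
    L := 10
    kp := 7
    inn := [(0, 1), (1, 0), (1, 2), (2, 1), (2, 3), (3, 2), (3, 4), (3, 5), (4, 3), (4, 5), (5, 3), (5,
      4)]
    mix := [(0, 0), (0, 1), (0, 2), (1, 0), (1, 2), (1, 3), (2, 2), (2, 3), (2, 4), (2, 5), (3, 3), (3,
      5), (3, 6), (4, 1), (4, 6), (4, 7), (4, 8), (5, 3), (5, 8), (5, 9)]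
    cl := [2, 4, 1, 0, 5, 0, 3, 6, 3, 7]
    chq := [(1, 2), (2, 1), (2, 5), (5, 2)]
    rng := [(0, 1), (0, 3), (1, 0), (1, 2), (1, 6), (1, 7), (2, 1), (2, 4), (3, 0), (3, 9), (4, 2), (4,
      5), (5, 4), (5, 6), (6, 1), (6, 5), (7, 1), (7, 8), (8, 7), (8, 9), (9, 3), (9, 8)]
    lev := [] }
  links := [[1, 6, 7, 8], [6, 0, 8, 2, 9], [9, 1, 8, 10, 11, 3], [9, 2, 11, 12, 4, 5], [5, 3, 12, 7, 13,
    14], [9, 3, 4, 14, 15]]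
  P := {
    a := 6
    N := 16
    nb := [450, 837, 3850, 6708, 28840, 49688, 643, 12625, 1159, 32878, 2308, 5132, 2200, 16528,
      41008, 16928]
    tri := [(0, 1, 6), (0, 1, 8), (0, 6, 7), (0, 7, 8), (1, 2, 8), (1, 2, 9), (1, 6, 9), (2, 3, 9), (2,
      3, 11), (2, 8, 10), (2, 10, 11), (3, 4, 5), (3, 4, 12), (3, 5, 9), (3, 11, 12), (4, 5, 14),
      (4, 7, 12), (4, 7, 13), (4, 13, 14), (5, 9, 15), (5, 14, 15)]
    fin := [0, 0, 0, 3, 4, 3, 0, 7, 8, 3, 10, 3, 4, 13, 4, 15]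
    chd := [(0, 8), (0, 10)]
    steps := [(0, 1), (0, 2), (0, 6), (3, 5), (3, 11), (3, 9), (4, 12), (4, 14)] }
  rep := [3, 8, 0, 4, 7, 10, 13, 15]

noncomputable def v1543 : Cov.CovD where
  P := 3
  N := 5
  pl := [1, 7, 9]
  lev := [⟨[], [], [(1, 2)], [4], [(0, 2, [1, 5]), (2, 1, [2])]⟩,
    ⟨[], [(0, 0), (0, 1), (0, 2)], [(0, 1), (0, 2), (1, 2)], [], [(0, 2, [1, 5]), (2, 1,
      [2]), (3, 0, [])]⟩,
    ⟨[(0, 1)], [(0, 1), (1, 0), (1, 1), (1, 2), (1, 5)], [(0, 0), (0, 1), (0, 5), (1, 5)],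
      [], [(2, 1, [2]), (3, 0, []), (4, 5, [2]), (5, 0, [])]⟩,
    ⟨[(1, 2)], [(1, 0), (2, 0), (2, 1), (2, 3), (2, 5)], [(0, 0), (0, 3)], [], [(3, 0, []),
      (5, 0, []), (6, 3, [])]⟩,
    ⟨[(2, 3)], [(3, 0), (3, 3)], [(3, 3)], [4, 6], [(6, 3, []), (8, 3, [])]⟩,
    ⟨[(2, 3), (3, 4)], [(1, 0), (2, 0), (3, 0), (3, 3), (4, 0), (4, 3)], [(0, 3)], [7],
      [(3, 0, []), (8, 3, [])]⟩]
  Ta := [((3, 0), 0, 2), ((3, 9), 0, 7), ((5, 4), 0, 5), ((5, 6), 0, 3), ((6, 1), 3, 4), ((6, 5),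
    3, 0), ((8, 7), 3, 6), ((8, 9), 3, 7)]
  Tb := [((0, 1, 3), 2, 4, 0), ((1, 0, 2), 4, 2, 1), ((1, 0, 6), 4, 2, 3), ((1, 0, 7), 4, 2, 6),
    ((1, 2, 6), 4, 1, 3), ((1, 2, 7), 4, 1, 6), ((1, 6, 7), 4, 3, 6), ((2, 1, 4), 1, 4, 5),
    ((3, 0, 9), 0, 2, 7), ((4, 2, 5), 5, 1, 0), ((5, 4, 6), 0, 5, 3), ((6, 1, 5), 3, 4, 0),
    ((7, 1, 8), 6, 4, 3), ((8, 7, 9), 3, 6, 7), ((9, 3, 8), 7, 0, 3)]
  Tc := [(2, 1, 5)]
  Td := [((1, 2), (2, 1), 4), ((1, 2), (2, 4), 5), ((2, 1), (0, 1), 4), ((2, 1), (0, 3), 0), ((2,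
    5), (0, 1), 4), ((2, 5), (0, 3), 0), ((5, 2), (4, 2), 1), ((5, 2), (4, 5), 0)]
  G := [[0, 0x649883c24443a85c24c, 0x2a94ca6629883ac424218447e4a2544368cc,
    0x64a863c24463a86c28c, 0x62c8c6a48225c63a489], [0, 0xe6eb428eae7824c,
    0xe6eb46e3e8ac4a2ee56eae78c8c, 0xee6e8c28c6eb4285, 0xee6e8a48cae78489], [0,
    0x649c83c24463a86c24c, 0, 0x649a83c244a3a86c24c, 0x62c816a48625c83a489], [0,
    0x11eb42411e7824c, 0, 0x111e42811eb8285, 0x111e84811e72489]]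

noncomputable def n1543 : Ent := ⟨e1543, noF, [], [], []⟩

def c1543 : PLift (Cov.check n1543.C.D v1543 = true) := ⟨by decide +kernel⟩

def b1543 : PLift (entF (fidx ts) 400 1543 n1543 = true) := ⟨by decide +kernel⟩

theorem g1543 : GoodF (fidx ts) 400 1543 := GoodF.ofV v1543 n1543 c1543.down b1543.down

/-- 456665:1255/5 -/
noncomputable def e1544 : SCfg where
  D := {
    a := 6
    L := 10
    kp := 7
    inn := [(0, 1), (1, 0), (1, 2), (2, 1), (2, 3), (3, 2), (3, 4), (3, 5), (4, 3), (4, 5), (5, 3), (5,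
      4)]
    mix := [(0, 0), (0, 1), (0, 2), (1, 0), (1, 2), (1, 3), (2, 2), (2, 3), (2, 4), (2, 5), (3, 3), (3,
      5), (3, 6), (4, 1), (4, 6), (4, 7), (4, 8), (5, 3), (5, 8), (5, 9)]
    cl := [2, 4, 1, 0, 5, 0, 3, 6, 3, 7]
    chq := [(0, 1), (0, 4), (1, 0), (4, 0)]
    rng := [(0, 1), (0, 3), (1, 0), (1, 2), (1, 7), (1, 8), (2, 1), (2, 4), (3, 0), (3, 9), (4, 2), (4,
      5), (5, 4), (5, 6), (6, 5), (6, 7), (7, 1), (7, 6), (8, 1), (8, 9), (9, 3), (9, 8)]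
    lev := [] }
  links := [[1, 6, 7, 8], [6, 0, 8, 2, 9], [9, 1, 8, 10, 11, 3], [9, 2, 11, 12, 4, 5], [5, 3, 12, 13, 7,
    14], [9, 3, 4, 14, 15]]
  P := {
    a := 6
    N := 16
    nb := [450, 837, 3850, 6708, 28840, 49688, 643, 24913, 1159, 32878, 2308, 5132, 10264, 4240,
      32944, 16928]
    tri := [(0, 1, 6), (0, 1, 8), (0, 6, 7), (0, 7, 8), (1, 2, 8), (1, 2, 9), (1, 6, 9), (2, 3, 9), (2,
      3, 11), (2, 8, 10), (2, 10, 11), (3, 4, 5), (3, 4, 12), (3, 5, 9), (3, 11, 12), (4, 5, 14),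
      (4, 7, 13), (4, 7, 14), (4, 12, 13), (5, 9, 15), (5, 14, 15)]
    fin := [0, 0, 2, 3, 0, 3, 6, 0, 8, 2, 10, 2, 3, 13, 3, 15]
    chd := [(0, 2), (8, 2)]
    steps := [(0, 1), (0, 7), (0, 4), (2, 11), (2, 9), (3, 5), (3, 12), (3, 14)] }
  rep := [2, 8, 6, 3, 0, 10, 13, 15]

noncomputable def v1544 : Cov.CovD where
  P := 3
  N := 5
  pl := [0, 4, 7, 9]
  lev := [⟨[], [], [(1, 4)], [2], [(1, 4, [0]), (2, 1, [0])]⟩,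
    ⟨[], [(0, 0), (0, 1), (0, 4)], [(0, 1)], [2], [(2, 1, [0]), (3, 0, [1, 4])]⟩,
    ⟨[(0, 1)], [(0, 1), (1, 0), (1, 1)], [(0, 0), (0, 1)], [5], [(2, 1, [0]), (3, 0, [1,
      4]), (5, 0, [1, 4])]⟩,
    ⟨[(1, 2)], [(1, 0), (2, 0), (2, 1), (2, 3)], [(0, 0), (0, 3)], [], [(3, 0, [1, 4]), (5,
      0, [1, 4]), (6, 3, [])]⟩,
    ⟨[(2, 3)], [(0, 4), (3, 0), (3, 3), (3, 4)], [(3, 3), (3, 4)], [6], [(1, 4, [0]), (6,
      3, []), (8, 3, [])]⟩,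
    ⟨[(2, 3), (3, 4)], [(1, 0), (2, 0), (3, 0), (3, 3), (4, 0), (4, 3), (4, 4)], [(0, 3)],
      [7], [(3, 0, [1, 4]), (8, 3, [])]⟩]
  Ta := [((3, 0), 0, 2), ((3, 9), 0, 7), ((5, 4), 0, 5), ((5, 6), 0, 3), ((6, 5), 3, 0), ((6, 7),
    3, 6), ((8, 1), 3, 4), ((8, 9), 3, 7)]
  Tb := [((0, 1, 3), 2, 4, 0), ((1, 0, 2), 4, 2, 1), ((1, 0, 7), 4, 2, 6), ((1, 0, 8), 4, 2, 3),
    ((1, 2, 7), 4, 1, 6), ((1, 2, 8), 4, 1, 3), ((1, 7, 8), 4, 6, 3), ((2, 1, 4), 1, 4, 5),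
    ((3, 0, 9), 0, 2, 7), ((4, 2, 5), 5, 1, 0), ((5, 4, 6), 0, 5, 3), ((6, 5, 7), 3, 0, 6),
    ((7, 1, 6), 6, 4, 3), ((8, 1, 9), 3, 4, 7), ((9, 3, 8), 7, 0, 3)]
  Tc := [(0, 1, 4)]
  Td := [((0, 1), (3, 0), 2), ((0, 1), (3, 9), 7), ((0, 1), (5, 4), 5), ((0, 1), (5, 6), 3), ((0,
    4), (3, 0), 2), ((0, 4), (3, 9), 7), ((0, 4), (5, 4), 5), ((0, 4), (5, 6), 3), ((1, 0),
    (2, 1), 4), ((1, 0), (2, 4), 5), ((4, 0), (1, 0), 2), ((4, 0), (1, 2), 1), ((4, 0), (1,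
    7), 6), ((4, 0), (1, 8), 3)]
  G := [[0, 0x18512614912a149185ce41, 0x28ab46298887ac4a25444b624678c8c,
    0x22521c4c8be62cd1c87ac41, 0x2a2d4c4b6622d8c87ac81], [0, 0x111ef2111ef4a41,
    0x62ee9a4e6eb48ca2ee56eae78c8c, 0xd9eef4465eeef88ac81, 0xe2eeed6ee3eecac81], [0,
    0x14126129183a149185ce41, 0, 0xaa2d1c4b6622d8c87ac41, 0x2a2d4c4b6622d8c87ac81], [0,
    0x111ef2111ef2c41, 0, 0x111ef2111ef8c41, 0x111ef2111ef2c81]]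

noncomputable def n1544 : Ent := ⟨e1544, noF, [], [], [(6, 15, [360035742630636841211993100915356868655746945586763691013980161, 0])]⟩

def c1544 : PLift (Cov.check n1544.C.D v1544 = true) := ⟨by decide +kernel⟩

def b1544 : PLift (entF (fidx ts) 400 1544 n1544 = true) := ⟨by decide +kernel⟩

theorem g1544 : GoodF (fidx ts) 400 1544 := GoodF.ofV v1544 n1544 c1544.down b1544.down

/-- 456665:1255/6 -/
noncomputable def e1545 : SCfg where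
  D := {
    a := 6
    L := 10
    kp := 7
    inn := [(0, 1), (1, 0), (1, 2), (2, 1), (2, 3), (3, 2), (3, 4), (3, 5), (4, 3), (4, 5), (5, 3), (5,
      4)]
    mix := [(0, 0), (0, 1), (0, 2), (1, 0), (1, 2), (1, 3), (2, 2), (2, 3), (2, 4), (2, 5), (3, 3), (3,
      5), (3, 6), (4, 1), (4, 6), (4, 7), (4, 8), (5, 1), (5, 3), (5, 9)]
    cl := [2, 0, 1, 3, 4, 3, 0, 5, 6, 7]
    chq := [(1, 2), (2, 1), (2, 4), (4, 2)]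
    rng := [(0, 1), (0, 3), (1, 0), (1, 2), (1, 8), (1, 9), (2, 1), (2, 4), (3, 0), (3, 9), (4, 2), (4,
      5), (5, 4), (5, 6), (6, 5), (6, 7), (7, 6), (7, 8), (8, 1), (8, 7), (9, 1), (9, 3)]
    lev := [] }
  links := [[1, 6, 7, 8], [6, 0, 8, 2, 9], [9, 1, 8, 10, 11, 3], [9, 2, 11, 12, 4, 5], [5, 3, 12, 13, 14,
    7], [9, 3, 4, 7, 15]]
  P := {
    a := 6
    N := 16
    nb := [450, 837, 3850, 6708, 28840, 33432, 643, 49521, 1159, 32878, 2308, 5132, 10264, 20496,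
      8336, 672]
    tri := [(0, 1, 6), (0, 1, 8), (0, 6, 7), (0, 7, 8), (1, 2, 8), (1, 2, 9), (1, 6, 9), (2, 3, 9), (2,
      3, 11), (2, 8, 10), (2, 10, 11), (3, 4, 5), (3, 4, 12), (3, 5, 9), (3, 11, 12), (4, 5, 7),
      (4, 7, 14), (4, 12, 13), (4, 13, 14), (5, 7, 15), (5, 9, 15)]
    fin := [0, 0, 0, 3, 4, 4, 0, 4, 8, 3, 10, 3, 4, 13, 14, 15]
    chd := [(0, 8), (0, 10)]
    steps := [(0, 1), (0, 2), (0, 6), (3, 11), (3, 9), (4, 5), (4, 7), (4, 12)] }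
  rep := [4, 8, 0, 3, 10, 13, 14, 15]

noncomputable def v1545 : Cov.CovD where
  P := 3
  N := 5
  pl := [7, 8, 9]
  lev := [⟨[], [], [(0, 1), (0, 2), (1, 2)], [], [(0, 2, [1, 4]), (1, 0, []), (2, 1, [2])]⟩,
    ⟨[], [(0, 0), (0, 1), (0, 2), (0, 3)], [(1, 2), (1, 3), (2, 3)], [], [(0, 2, [1, 4]),
      (2, 1, [2]), (3, 3, [])]⟩,
    ⟨[(0, 1)], [(0, 1), (1, 1), (1, 2), (1, 3), (1, 4)], [(1, 3), (1, 4), (3, 3), (3, 4)],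
      [], [(2, 1, [2]), (3, 3, []), (4, 4, [2]), (5, 3, [])]⟩,
    ⟨[(1, 2)], [(1, 3), (2, 0), (2, 1), (2, 3), (2, 4)], [(0, 3), (3, 3)], [], [(3, 3, []),
      (5, 3, []), (6, 0, [])]⟩,
    ⟨[(2, 3)], [(0, 0), (3, 0), (3, 3)], [(0, 0)], [5, 6], [(1, 0, []), (6, 0, [])]⟩,
    ⟨[(2, 3), (3, 4)], [(0, 0), (1, 3), (2, 3), (3, 0), (3, 3), (4, 0), (4, 3)], [(0, 3)],
      [7], [(1, 0, []), (3, 3, [])]⟩]
  Ta := [((1, 0), 0, 2), ((1, 2), 0, 1), ((1, 8), 0, 6), ((1, 9), 0, 7), ((3, 0), 3, 2), ((3, 9),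
    3, 7), ((5, 4), 3, 4), ((5, 6), 3, 0), ((6, 5), 0, 3), ((6, 7), 0, 5)]
  Tb := [((0, 1, 3), 2, 0, 3), ((1, 0, 2), 0, 2, 1), ((1, 0, 8), 0, 2, 6), ((1, 0, 9), 0, 2, 7),
    ((1, 2, 8), 0, 1, 6), ((1, 2, 9), 0, 1, 7), ((1, 8, 9), 0, 6, 7), ((2, 1, 4), 1, 0, 4),
    ((3, 0, 9), 3, 2, 7), ((4, 2, 5), 4, 1, 3), ((5, 4, 6), 3, 4, 0), ((6, 5, 7), 0, 3, 5),
    ((7, 6, 8), 5, 0, 6), ((8, 1, 7), 6, 0, 5), ((9, 1, 3), 7, 0, 3)]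
  Tc := [(2, 1, 4)]
  Td := [((1, 2), (2, 1), 0), ((1, 2), (2, 4), 4), ((2, 1), (0, 1), 0), ((2, 1), (0, 3), 3), ((2,
    4), (0, 1), 0), ((2, 4), (0, 3), 3), ((4, 2), (4, 2), 1), ((4, 2), (4, 5), 3)]
  G := [[0, 0xccce1ccce12aae889e666e12c4, 0xea6a8a1e26e4461c8, 0xeeee1214,
    0xaaae1ee6e1a2aacad18], [0, 0xeaae1248, 0x22ee4e4e6184, 0x6ace1214, 0x6ace1418], [0, 0,
    0, 0x111e111ec218, 0x11618a11a14611c11aad18], [0, 0, 0, 0x134e688ec218, 0x22ce988ea418]]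

noncomputable def n1545 : Ent := ⟨e1545, noF, [], [], [(6, 15, [360035742630636841211993100915356868655746945586763691013984257, 0])]⟩

def c1545 : PLift (Cov.check n1545.C.D v1545 = true) := ⟨by decide +kernel⟩

def b1545 : PLift (entF (fidx ts) 400 1545 n1545 = true) := ⟨by decide +kernel⟩

theorem g1545 : GoodF (fidx ts) 400 1545 := GoodF.ofV v1545 n1545 c1545.down b1545.down

/-- 456665:1255 -/
noncomputable def e1546 : SCfg where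
  D := {
    a := 6
    L := 11
    kp := 8
    inn := [(0, 1), (1, 0), (1, 2), (2, 1), (2, 3), (3, 2), (3, 4), (3, 5), (4, 3), (4, 5), (5, 3), (5,
      4)]
    mix := [(0, 0), (0, 1), (0, 2), (1, 0), (1, 2), (1, 3), (2, 2), (2, 3), (2, 4), (2, 5), (3, 3), (3,
      5), (3, 6), (4, 6), (4, 7), (4, 8), (4, 9), (5, 3), (5, 9), (5, 10)]
    cl := [2, 5, 1, 0, 4, 0, 3, 6, 7, 3, 8]
    chq := [(1, 2), (2, 1), (2, 4), (4, 2)]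
    rng := [(0, 1), (0, 3), (1, 0), (1, 2), (2, 1), (2, 4), (3, 0), (3, 10), (4, 2), (4, 5), (5, 4),
      (5, 6), (6, 5), (6, 7), (7, 6), (7, 8), (8, 7), (8, 9), (9, 8), (9, 10), (10, 3), (10, 9)]
    lev := [] }
  links := [[1, 6, 7, 8], [6, 0, 8, 2, 9], [9, 1, 8, 10, 11, 3], [9, 2, 11, 12, 4, 5], [5, 3, 12, 13, 14,
    15], [9, 3, 4, 15, 16]]
  P := {
    a := 6
    N := 17
    nb := [450, 837, 3850, 6708, 61480, 98840, 643, 321, 1159, 65646, 2308, 5132, 10264, 20496, 40976,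
      81968, 33312]
    tri := [(0, 1, 6), (0, 1, 8), (0, 6, 7), (0, 7, 8), (1, 2, 8), (1, 2, 9), (1, 6, 9), (2, 3, 9), (2,
      3, 11), (2, 8, 10), (2, 10, 11), (3, 4, 5), (3, 4, 12), (3, 5, 9), (3, 11, 12), (4, 5, 15),
      (4, 12, 13), (4, 13, 14), (4, 14, 15), (5, 9, 16), (5, 15, 16)]
    fin := [0, 0, 0, 3, 4, 3, 0, 7, 8, 3, 10, 3, 4, 13, 14, 4, 16]
    chd := [(0, 8), (0, 10)]
    steps := [(0, 1), (0, 2), (0, 6), (3, 5), (3, 11), (3, 9), (4, 12), (4, 15)] }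
  rep := [3, 8, 0, 4, 10, 7, 13, 14, 16]

noncomputable def v1546 : Cov.CovD where
  P := 3
  N := 6
  pl := [1, 7, 8, 10]
  lev := [⟨[], [], [(1, 2)], [5], [(0, 2, [1, 4]), (2, 1, [2])]⟩,
    ⟨[], [(0, 0), (0, 1), (0, 2)], [(0, 1), (0, 2), (1, 2)], [], [(0, 2, [1, 4]), (2, 1,
      [2]), (3, 0, [])]⟩,
    ⟨[(0, 1)], [(0, 1), (1, 0), (1, 1), (1, 2), (1, 4)], [(0, 0), (0, 1), (0, 4), (1, 4)],
      [], [(2, 1, [2]), (3, 0, []), (4, 4, [2]), (5, 0, [])]⟩,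
    ⟨[(1, 2)], [(1, 0), (2, 0), (2, 1), (2, 3), (2, 4)], [(0, 0), (0, 3)], [], [(3, 0, []),
      (5, 0, []), (6, 3, [])]⟩,
    ⟨[(2, 3)], [(3, 0), (3, 3)], [(3, 3)], [6, 7], [(6, 3, []), (9, 3, [])]⟩,
    ⟨[(2, 3), (3, 4)], [(1, 0), (2, 0), (3, 0), (3, 3), (4, 0), (4, 3)], [(0, 3)], [8],
      [(3, 0, []), (9, 3, [])]⟩]
  Ta := [((3, 0), 0, 2), ((3, 10), 0, 8), ((5, 4), 0, 4), ((5, 6), 0, 3), ((6, 5), 3, 0), ((6,
    7), 3, 6), ((9, 8), 3, 7), ((9, 10), 3, 8)]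
  Tb := [((0, 1, 3), 2, 5, 0), ((1, 0, 2), 5, 2, 1), ((2, 1, 4), 1, 5, 4), ((3, 0, 10), 0, 2, 8),
    ((4, 2, 5), 4, 1, 0), ((5, 4, 6), 0, 4, 3), ((6, 5, 7), 3, 0, 6), ((7, 6, 8), 6, 3, 7),
    ((8, 7, 9), 7, 6, 3), ((9, 8, 10), 3, 7, 8), ((10, 3, 9), 8, 0, 3)]
  Tc := [(2, 1, 4)]
  Td := [((1, 2), (2, 1), 5), ((1, 2), (2, 4), 4), ((2, 1), (0, 1), 5), ((2, 1), (0, 3), 0), ((2,
    4), (0, 1), 5), ((2, 4), (0, 3), 0), ((4, 2), (4, 2), 1), ((4, 2), (4, 5), 0)]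
  G := [[0, 0x644ba887c24644ba887c24c, 0x2acd4c4b6622d8c87ac42a2d4cab6622d8c87ac8c,
    0x644ba867c28644ba887c285, 0x622d8c87a48622d8c67a489], [0, 0xc4e2eefc28eee7e8c24c,
    0xeeebe4622eecefac4e2eeed6ee3eecac8c, 0xee6ee9c24ee6ee9c289, 0xeee7e8a48eee7e8a489], [0,
    0x644ba867c24644ba867c24c, 0, 0x644ba887c28644ba887c285, 0x622d8c87a41622d8c87a489], [0,
    0x111ef424111ef824c, 0, 0x111ef424111ef4249, 0x111ef248111ef2489]]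

noncomputable def n1546 : Ent := ⟨e1546, noF, [], [], [(6, 16, [1580044410770988437309982408355971841652082177953823432505695428609, 0]), (7, 13, [1685382419725355503238989871268909155780284044704628512909405745153, 0]), (7, 14, [1685382413448253767852309107433119732572617628602273068445371236353, 0]), (7, 15, [1685356702439545624007900436039642273970977273354372543760006418433, 0])]⟩

def c1546 : PLift (Cov.check n1546.C.D v1546 = true) := ⟨by decide +kernel⟩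

def b1546 : PLift (entF (fidx ts) 400 1546 n1546 = true) := ⟨by decide +kernel⟩

theorem g1546 : GoodF (fidx ts) 400 1546 := GoodF.ofV v1546 n1546 c1546.down b1546.down

/-- 458565:1256/1 -/
noncomputable def e1547 : SCfg where
  D := {
    a := 6
    L := 10
    kp := 8
    inn := [(0, 1), (1, 0), (1, 2), (2, 1), (2, 3), (2, 4), (2, 5), (3, 2), (3, 4), (4, 2), (4, 3), (4,
      5), (5, 2), (5, 4)]
    mix := [(0, 0), (0, 1), (0, 2), (1, 0), (1, 2), (1, 3), (2, 2), (2, 3), (2, 4), (2, 5), (3, 1), (3,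
      4), (3, 6), (4, 6), (4, 7), (4, 8), (5, 5), (5, 8), (5, 9)]
    cl := [5, 6, 0, 0, 1, 2, 4, 7, 3, 8]
    chq := [(0, 3), (1, 3), (1, 4), (1, 7), (2, 3), (3, 0), (3, 1), (3, 2), (4, 1), (7, 1)]
    rng := [(0, 1), (0, 3), (1, 0), (1, 2), (1, 4), (1, 6), (2, 1), (2, 4), (3, 0), (3, 5), (4, 1), (4,
      2), (5, 3), (5, 9), (6, 1), (6, 7), (7, 6), (7, 8), (8, 7), (8, 9), (9, 5), (9, 8)]
    lev := [] }
  links := [[1, 6, 7, 8], [6, 0, 8, 2, 9], [9, 1, 8, 10, 3, 4, 5, 11], [4, 2, 10, 7, 12], [5, 2, 3, 12,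
    13, 14], [11, 2, 4, 14, 15]]
  P := {
    a := 6
    N := 16
    nb := [450, 837, 3898, 5268, 28716, 51220, 643, 5449, 1159, 2118, 396, 33316, 8344, 20496, 41008,
      18464]
    tri := [(0, 1, 6), (0, 1, 8), (0, 6, 7), (0, 7, 8), (1, 2, 8), (1, 2, 9), (1, 6, 9), (2, 3, 4), (2,
      3, 10), (2, 4, 5), (2, 5, 11), (2, 8, 10), (2, 9, 11), (3, 4, 12), (3, 7, 10), (3, 7, 12),
      (4, 5, 14), (4, 12, 13), (4, 13, 14), (5, 11, 15), (5, 14, 15)]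
    fin := [0, 0, 2, 3, 3, 5, 0, 7, 2, 2, 3, 11, 12, 13, 5, 15]
    chd := [(2, 5), (3, 5), (3, 12), (3, 13), (11, 5)]
    steps := [(0, 1), (0, 6), (2, 8), (2, 9), (3, 4), (3, 10), (5, 14)] }
  rep := [2, 3, 11, 5, 12, 0, 7, 13, 15]

noncomputable def v1547 : Cov.CovD where
  P := 3
  N := 6
  pl := [0, 1, 9]
  lev := [⟨[], [], [], [5, 6], [(2, 0, [3])]⟩,
    ⟨[], [(0, 0)], [(0, 0)], [5], [(2, 0, [3]), (3, 0, [3])]⟩,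
    ⟨[(0, 1)], [(0, 0), (1, 0), (1, 1), (1, 2)], [(0, 0), (0, 1), (0, 2), (1, 2)], [], [(2,
      0, [3]), (3, 0, [3]), (4, 1, [3, 4, 7]), (5, 2, [3])]⟩,
    ⟨[(1, 2)], [(2, 0), (2, 1), (2, 2), (2, 4)], [(1, 4)], [6], [(4, 1, [3, 4, 7]), (6, 4,
      [1])]⟩,
    ⟨[(1, 2), (2, 3)], [(2, 0), (2, 1), (2, 2), (2, 3), (2, 4), (2, 7), (3, 1), (3, 3), (3,
      4), (3, 7)], [(3, 4), (3, 7), (4, 7)], [], [(6, 4, [1]), (7, 7, [1]), (8, 3, [0, 1,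
      2])]⟩,
    ⟨[(1, 2), (2, 3), (2, 4), (3, 4)], [(2, 0), (2, 1), (2, 2), (2, 3), (4, 2), (4, 3), (4,
      4), (4, 7)], [(2, 3)], [8], [(5, 2, [3]), (8, 3, [0, 1, 2])]⟩]
  Ta := [((2, 1), 0, 6), ((2, 4), 0, 1), ((3, 0), 0, 5), ((3, 5), 0, 2)]
  Tb := [((0, 1, 3), 5, 6, 0), ((1, 0, 2), 6, 5, 0), ((1, 0, 4), 6, 5, 1), ((1, 0, 6), 6, 5, 4),
    ((1, 2, 4), 6, 0, 1), ((1, 2, 6), 6, 0, 4), ((1, 4, 6), 6, 1, 4), ((2, 1, 4), 0, 6, 1),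
    ((3, 0, 5), 0, 5, 2), ((4, 1, 2), 1, 6, 0), ((5, 3, 9), 2, 0, 8), ((6, 1, 7), 4, 6, 7),
    ((7, 6, 8), 7, 4, 3), ((8, 7, 9), 3, 7, 8), ((9, 5, 8), 8, 2, 3)]
  Tc := [(1, 3, 4), (1, 3, 7), (1, 4, 7), (3, 0, 1), (3, 0, 2), (3, 1, 2)]
  Td := [((0, 3), (2, 1), 6), ((0, 3), (2, 4), 1), ((0, 3), (3, 0), 5), ((0, 3), (3, 5), 2), ((1,
    3), (4, 1), 6), ((1, 3), (4, 2), 0), ((1, 4), (4, 1), 6), ((1, 4), (4, 2), 0), ((1, 7),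
    (4, 1), 6), ((1, 7), (4, 2), 0), ((2, 3), (5, 3), 0), ((2, 3), (5, 9), 8), ((3, 0), (8,
    7), 7), ((3, 0), (8, 9), 8), ((3, 1), (8, 7), 7), ((3, 1), (8, 9), 8), ((3, 2), (8, 7),
    7), ((3, 2), (8, 9), 8), ((4, 1), (6, 1), 6), ((4, 1), (6, 7), 7), ((7, 1), (7, 6), 4),
    ((7, 1), (7, 8), 3)]
  G := [[0, 0xd191d1e44148a51d1d1e88184651d1d1e818c2e, 0, 0xd2d2948d2d258412d2d2dc28c2e,
    0x232722cb2b832329862b6b2358423272b628b23f82e], [0, 0,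
    0x622ea24266f28a8239c22ee422eee239c61, 0xd2d2948d2d2584524d282d2dc2e,
    0x2363298223628b23782323222c2327f84b]]

noncomputable def n1547 : Ent := ⟨e1547, noF, [], [], []⟩

def c1547 : PLift (Cov.check n1547.C.D v1547 = true) := ⟨by decide +kernel⟩

def b1547 : PLift (entF (fidx ts) 400 1547 n1547 = true) := ⟨by decide +kernel⟩

theorem g1547 : GoodF (fidx ts) 400 1547 := GoodF.ofV v1547 n1547 c1547.down b1547.down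

/-- 458565:1256 -/
noncomputable def e1548 : SCfg where
  D := {
    a := 6
    L := 11
    kp := 9
    inn := [(0, 1), (1, 0), (1, 2), (2, 1), (2, 3), (2, 4), (2, 5), (3, 2), (3, 4), (4, 2), (4, 3), (4,
      5), (5, 2), (5, 4)]
    mix := [(0, 0), (0, 1), (0, 2), (1, 0), (1, 2), (1, 3), (2, 2), (2, 3), (2, 4), (2, 5), (3, 4), (3,
      6), (3, 7), (4, 7), (4, 8), (4, 9), (5, 5), (5, 9), (5, 10)]
    cl := [5, 7, 0, 0, 1, 2, 8, 4, 6, 3, 9]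
    chq := [(0, 3), (1, 3), (1, 4), (1, 6), (2, 3), (3, 0), (3, 1), (3, 2), (4, 1), (6, 1)]
    rng := [(0, 1), (0, 3), (1, 0), (1, 2), (2, 1), (2, 4), (3, 0), (3, 5), (4, 2), (4, 6), (5, 3), (5,
      10), (6, 4), (6, 7), (7, 6), (7, 8), (8, 7), (8, 9), (9, 8), (9, 10), (10, 5), (10, 9)]
    lev := [] }
  links := [[1, 6, 7, 8], [6, 0, 8, 2, 9], [9, 1, 8, 10, 3, 4, 5, 11], [4, 2, 10, 12, 13], [5, 2, 3, 13,
    14, 15], [11, 2, 4, 15, 16]]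
  P := {
    a := 6
    N := 17
    nb := [450, 837, 3898, 13332, 57388, 100372, 643, 321, 1159, 2118, 4364, 66084, 9224, 20504,
      40976, 81968, 34848]
    tri := [(0, 1, 6), (0, 1, 8), (0, 6, 7), (0, 7, 8), (1, 2, 8), (1, 2, 9), (1, 6, 9), (2, 3, 4), (2,
      3, 10), (2, 4, 5), (2, 5, 11), (2, 8, 10), (2, 9, 11), (3, 4, 13), (3, 10, 12), (3, 12, 13),
      (4, 5, 15), (4, 13, 14), (4, 14, 15), (5, 11, 16), (5, 15, 16)]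
    fin := [0, 0, 2, 3, 3, 5, 0, 7, 2, 2, 3, 11, 12, 13, 14, 5, 16]
    chd := [(2, 5), (3, 5), (3, 13), (3, 14), (11, 5)]
    steps := [(0, 1), (0, 6), (2, 8), (2, 9), (3, 4), (3, 10), (5, 15)] }
  rep := [2, 3, 11, 5, 13, 0, 14, 7, 12, 16]

noncomputable def v1548 : Cov.CovD where
  P := 3
  N := 7
  pl := [0, 1, 6, 10]
  lev := [⟨[], [], [], [5, 7], [(2, 0, [3])]⟩,
    ⟨[], [(0, 0)], [(0, 0)], [5], [(2, 0, [3]), (3, 0, [3])]⟩,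
    ⟨[(0, 1)], [(0, 0), (1, 0), (1, 1), (1, 2)], [(0, 0), (0, 1), (0, 2), (1, 2)], [], [(2,
      0, [3]), (3, 0, [3]), (4, 1, [3, 4, 6]), (5, 2, [3])]⟩,
    ⟨[(1, 2)], [(2, 0), (2, 1), (2, 2), (2, 4)], [(1, 4)], [8], [(4, 1, [3, 4, 6]), (7, 4,
      [1])]⟩,
    ⟨[(1, 2), (2, 3)], [(2, 0), (2, 1), (2, 2), (2, 3), (2, 4), (2, 6), (3, 1), (3, 3), (3,
      4), (3, 6)], [(3, 4), (3, 6), (4, 6)], [], [(7, 4, [1]), (8, 6, [1]), (9, 3, [0, 1,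
      2])]⟩,
    ⟨[(1, 2), (2, 3), (2, 4), (3, 4)], [(2, 0), (2, 1), (2, 2), (2, 3), (4, 2), (4, 3), (4,
      4), (4, 6)], [(2, 3)], [9], [(5, 2, [3]), (9, 3, [0, 1, 2])]⟩]
  Ta := [((2, 1), 0, 7), ((2, 4), 0, 1), ((3, 0), 0, 5), ((3, 5), 0, 2)]
  Tb := [((0, 1, 3), 5, 7, 0), ((1, 0, 2), 7, 5, 0), ((2, 1, 4), 0, 7, 1), ((3, 0, 5), 0, 5, 2),
    ((4, 2, 6), 1, 0, 8), ((5, 3, 10), 2, 0, 9), ((6, 4, 7), 8, 1, 4), ((7, 6, 8), 4, 8, 6),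
    ((8, 7, 9), 6, 4, 3), ((9, 8, 10), 3, 6, 9), ((10, 5, 9), 9, 2, 3)]
  Tc := [(1, 3, 4), (1, 3, 6), (1, 4, 6), (3, 0, 1), (3, 0, 2), (3, 1, 2)]
  Td := [((0, 3), (2, 1), 7), ((0, 3), (2, 4), 1), ((0, 3), (3, 0), 5), ((0, 3), (3, 5), 2), ((1,
    3), (4, 2), 0), ((1, 3), (4, 6), 8), ((1, 4), (4, 2), 0), ((1, 4), (4, 6), 8), ((1, 6),
    (4, 2), 0), ((1, 6), (4, 6), 8), ((2, 3), (5, 3), 0), ((2, 3), (5, 10), 9), ((3, 0), (9,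
    8), 6), ((3, 0), (9, 10), 9), ((3, 1), (9, 8), 6), ((3, 1), (9, 10), 9), ((3, 2), (9, 8),
    6), ((3, 2), (9, 10), 9), ((4, 1), (7, 6), 8), ((4, 1), (7, 8), 6), ((6, 1), (8, 7), 4),
    ((6, 1), (8, 9), 3)]
  G := [[0, 0xd191d1e441484148e818451d1d1e88184e414d191d1ec2e, 0,
    0xd292d2d442484248e828452d2d2d88284e52d2d2d828c2e,
    0x2327b222c2327f823272b628b23f8623272b628b23f8423272b628b23f82e], [0, 0,
    0x262722e2fe23d28a8c224e422e2fa23e23dc61, 0x52d2d2d828c252d2d2d828c2424d292d2dc87,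
    0x23272b628b23f8223272b628b23f8223272b628b23f84b]]

noncomputable def n1548 : Ent := ⟨e1548, noF, [], [], [(7, 12, [1685382419726887998779855760127267502807434353888247252031589363713, 0])]⟩

def c1548 : PLift (Cov.check n1548.C.D v1548 = true) := ⟨by decide +kernel⟩

def b1548 : PLift (entF (fidx ts) 400 1548 n1548 = true) := ⟨by decide +kernel⟩

theorem g1548 : GoodF (fidx ts) 400 1548 := GoodF.ofV v1548 n1548 c1548.down b1548.down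

/-- 458554:1257/1 -/
noncomputable def e1549 : SCfg where
  D := {
    a := 6
    L := 10
    kp := 7
    inn := [(0, 1), (1, 0), (1, 2), (2, 1), (2, 3), (2, 4), (3, 2), (3, 5), (4, 2), (5, 3)]
    mix := [(0, 0), (0, 1), (0, 2), (1, 0), (1, 2), (1, 3), (2, 2), (2, 3), (2, 4), (2, 5), (2, 6), (3,
      4), (3, 5), (3, 7), (4, 5), (4, 6), (4, 8), (4, 9), (5, 5), (5, 7), (5, 8)]
    cl := [2, 6, 1, 1, 5, 0, 0, 3, 4, 7]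
    chq := [(1, 3), (1, 4), (3, 1), (4, 1)]
    rng := [(0, 1), (0, 3), (1, 0), (1, 2), (2, 1), (2, 4), (3, 0), (3, 6), (4, 2), (4, 7), (5, 8), (6,
      3), (6, 9), (7, 4), (7, 8), (8, 5), (8, 7), (8, 9), (9, 6), (9, 8)]
    lev := [] }
  links := [[1, 6, 7, 8], [6, 0, 8, 2, 9], [9, 1, 8, 10, 3, 11, 4, 12], [11, 2, 10, 13, 5], [12, 2, 11,
    14, 15], [11, 3, 13, 14]]
  P := {
    a := 6
    N := 16
    nb := [450, 837, 7962, 11300, 55300, 26632, 643, 321, 1159, 4166, 8460, 16444, 33300, 17448,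
      43056, 20496]
    tri := [(0, 1, 6), (0, 1, 8), (0, 6, 7), (0, 7, 8), (1, 2, 8), (1, 2, 9), (1, 6, 9), (2, 3, 10),
      (2, 3, 11), (2, 4, 11), (2, 4, 12), (2, 8, 10), (2, 9, 12), (3, 5, 11), (3, 5, 13), (3, 10,
      13), (4, 11, 14), (4, 12, 15), (4, 14, 15), (5, 11, 14), (5, 13, 14)]
    fin := [0, 0, 2, 2, 4, 2, 0, 7, 2, 2, 10, 4, 4, 13, 14, 15]
    chd := [(2, 13), (2, 14)]
    steps := [(0, 1), (0, 6), (2, 3), (2, 5), (2, 8), (2, 9), (4, 11), (4, 12)] }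
  rep := [4, 2, 0, 13, 14, 10, 7, 15]

noncomputable def v1549 : Cov.CovD where
  P := 3
  N := 5
  pl := [0, 1, 4, 9]
  lev := [⟨[], [], [], [2, 6], [(2, 1, [3, 4])]⟩,
    ⟨[], [(0, 1)], [(1, 1)], [2], [(2, 1, [3, 4]), (3, 1, [3, 4])]⟩,
    ⟨[(0, 1)], [(0, 1), (1, 0), (1, 1)], [(0, 0), (0, 1), (1, 1)], [5], [(2, 1, [3, 4]),
      (3, 1, [3, 4]), (5, 0, []), (6, 0, [])]⟩,
    ⟨[(1, 2)], [(2, 0), (2, 1), (2, 3)], [(0, 3)], [5], [(5, 0, []), (7, 3, [1])]⟩,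
    ⟨[(1, 2), (2, 3)], [(2, 0), (2, 1), (2, 4), (3, 0)], [(0, 0), (0, 4)], [7], [(5, 0,
      []), (6, 0, []), (8, 4, [1])]⟩,
    ⟨[(2, 3)], [(2, 0), (3, 0), (3, 3), (3, 4), (4, 0), (4, 4)], [(0, 3), (0, 4), (3, 4)],
      [], [(5, 0, []), (7, 3, [1]), (8, 4, [1])]⟩]
  Ta := [((2, 1), 1, 6), ((2, 4), 1, 5), ((3, 0), 1, 2), ((3, 6), 1, 0), ((5, 8), 0, 4), ((6, 3),
    0, 1), ((6, 9), 0, 7)]
  Tb := [((0, 1, 3), 2, 6, 1), ((1, 0, 2), 6, 2, 1), ((2, 1, 4), 1, 6, 5), ((3, 0, 6), 1, 2, 0),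
    ((4, 2, 7), 5, 1, 3), ((6, 3, 9), 0, 1, 7), ((7, 4, 8), 3, 5, 4), ((8, 5, 7), 4, 0, 3),
    ((8, 5, 9), 4, 0, 7), ((8, 7, 9), 4, 3, 7), ((9, 6, 8), 7, 0, 4)]
  Tc := [(1, 3, 4)]
  Td := [((1, 3), (2, 1), 6), ((1, 3), (2, 4), 5), ((1, 3), (3, 0), 2), ((1, 3), (3, 6), 0), ((1,
    4), (2, 1), 6), ((1, 4), (2, 4), 5), ((1, 4), (3, 0), 2), ((1, 4), (3, 6), 0), ((3, 1),
    (7, 4), 5), ((3, 1), (7, 8), 4), ((4, 1), (8, 5), 0), ((4, 1), (8, 7), 3), ((4, 1), (8,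
    9), 7)]
  G := [[0, 0, 0x8822a8e2ee422624a46ee8c2822a26aee422644a46ee8cc, 0,
    0x22624a46ee2822a86aeec122624e42ee2822a26aeec19], [0, 0, 0x6424a6ee2aea2cc2,
    0x222e2222e2c1222e222a2c242455, 0xa6ee222e6ae6c12], [0, 0,
    0x2aa24222e74426a11ea8c22a161e6422688222eb8cc, 0,
    0x2262888222efa37e2c12434dea22a44822e7c19], [0, 0xce6112e62e58811cae81,
    0x542495ee293a2cc2, 0x222e2222e2c1222e2222e2c1c, 0x953e22813de6c12]]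

noncomputable def n1549 : Ent := ⟨e1549, noF, [], [], []⟩

def c1549 : PLift (Cov.check n1549.C.D v1549 = true) := ⟨by decide +kernel⟩

def b1549 : PLift (entF (fidx ts) 400 1549 n1549 = true) := ⟨by decide +kernel⟩

theorem g1549 : GoodF (fidx ts) 400 1549 := GoodF.ofV v1549 n1549 c1549.down b1549.down

/-- 458554:1257 -/
noncomputable def e1550 : SCfg where
  D := {
    a := 6
    L := 11
    kp := 8
    inn := [(0, 1), (1, 0), (1, 2), (2, 1), (2, 3), (2, 4), (3, 2), (3, 5), (4, 2), (5, 3)]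
    mix := [(0, 0), (0, 1), (0, 2), (1, 0), (1, 2), (1, 3), (2, 2), (2, 3), (2, 4), (2, 5), (2, 6), (3,
      4), (3, 5), (3, 7), (4, 5), (4, 6), (4, 8), (4, 9), (5, 5), (5, 7), (5, 10)]
    cl := [4, 5, 1, 1, 2, 0, 0, 3, 6, 7, 8]
    chq := [(0, 3), (1, 3), (3, 0), (3, 1)]
    rng := [(0, 1), (0, 3), (1, 0), (1, 2), (2, 1), (2, 4), (3, 0), (3, 6), (4, 2), (4, 7), (5, 8), (5,
      10), (6, 3), (6, 9), (7, 4), (7, 10), (8, 5), (8, 9), (9, 6), (9, 8), (10, 5), (10, 7)]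
    lev := [] }
  links := [[1, 6, 7, 8], [6, 0, 8, 2, 9], [9, 1, 8, 10, 3, 11, 4, 12], [11, 2, 10, 13, 5], [12, 2, 11,
    14, 15], [11, 3, 13, 16]]
  P := {
    a := 6
    N := 17
    nb := [450, 837, 7962, 11300, 55300, 75784, 643, 321, 1159, 4166, 8460, 81980, 33300, 66600,
      34832, 20496, 10272]
    tri := [(0, 1, 6), (0, 1, 8), (0, 6, 7), (0, 7, 8), (1, 2, 8), (1, 2, 9), (1, 6, 9), (2, 3, 10),
      (2, 3, 11), (2, 4, 11), (2, 4, 12), (2, 8, 10), (2, 9, 12), (3, 5, 11), (3, 5, 13), (3, 10,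
      13), (4, 11, 14), (4, 12, 15), (4, 14, 15), (5, 11, 16), (5, 13, 16)]
    fin := [0, 0, 2, 2, 4, 5, 0, 7, 2, 2, 10, 4, 4, 5, 14, 15, 16]
    chd := [(2, 5), (4, 5)]
    steps := [(0, 1), (0, 6), (2, 3), (2, 8), (2, 9), (4, 11), (4, 12), (5, 13)] }
  rep := [4, 2, 10, 5, 0, 7, 14, 15, 16]

noncomputable def v1550 : Cov.CovD where
  P := 3
  N := 6
  pl := [0, 1, 4, 8, 9, 10]
  lev := [⟨[], [], [], [4, 5], [(2, 1, [3])]⟩,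
    ⟨[], [(0, 1)], [(1, 1)], [4], [(2, 1, [3]), (3, 1, [3])]⟩,
    ⟨[(0, 1)], [(0, 1), (1, 0), (1, 1)], [(0, 0), (0, 1), (1, 1)], [2], [(2, 1, [3]), (3,
      1, [3]), (5, 0, [3]), (6, 0, [3])]⟩,
    ⟨[(1, 2)], [(2, 0), (2, 1), (2, 3)], [(0, 3)], [2], [(5, 0, [3]), (7, 3, [0, 1])]⟩,
    ⟨[(1, 2), (2, 3)], [(2, 0), (2, 1), (3, 0)], [(0, 0)], [6, 7], [(5, 0, [3]), (6, 0,
      [3])]⟩,
    ⟨[(2, 3)], [(2, 0), (3, 0), (3, 3), (4, 0)], [(0, 3)], [8], [(5, 0, [3]), (7, 3, [0,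
      1])]⟩]
  Ta := [((2, 1), 1, 5), ((2, 4), 1, 2), ((3, 0), 1, 4), ((3, 6), 1, 0), ((5, 8), 0, 6), ((5,
    10), 0, 8), ((6, 3), 0, 1), ((6, 9), 0, 7)]
  Tb := [((0, 1, 3), 4, 5, 1), ((1, 0, 2), 5, 4, 1), ((2, 1, 4), 1, 5, 2), ((3, 0, 6), 1, 4, 0),
    ((4, 2, 7), 2, 1, 3), ((5, 8, 10), 0, 6, 8), ((6, 3, 9), 0, 1, 7), ((7, 4, 10), 3, 2, 8),
    ((8, 5, 9), 6, 0, 7), ((9, 6, 8), 7, 0, 6), ((10, 5, 7), 8, 0, 3)]
  Tc := [(3, 0, 1)]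
  Td := [((0, 3), (5, 8), 6), ((0, 3), (5, 10), 8), ((0, 3), (6, 3), 1), ((0, 3), (6, 9), 7),
    ((1, 3), (2, 1), 5), ((1, 3), (2, 4), 2), ((1, 3), (3, 0), 4), ((1, 3), (3, 6), 0), ((3,
    0), (7, 4), 2), ((3, 0), (7, 10), 8), ((3, 1), (7, 4), 2), ((3, 1), (7, 10), 8)]
  G := [[0, 0, 0xeeee248eeee284eeee241d,
    0xaaae22ac4464e48464e48da88e84226666ec8a88e84d666e4aaae8c1d,
    0xeeee28eeee285eeee284eeee281d], [0, 0, 0xeeee248eeee284eeee281e, 0,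
    0xeeee284eeee284eeee281e], [0, 0, 0x111e248111e284111e241d,
    0xaa1e1ba64d48ccceaaae5846c6eaaae581d, 0x7dbe2877de285bede2847b7e281d], [0,
    0x144111e11acc186eee94a1, 0x111e248111e284111e248b, 0, 0xb7de2847ebe2847b7e281e]]

noncomputable def n1550 : Ent := ⟨e1550, noF, [], [], [(16, 14, [1580095832788404724998799751142926758855362888449624481876425101313, 0])]⟩

def c1550 : PLift (Cov.check n1550.C.D v1550 = true) := ⟨by decide +kernel⟩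

def b1550 : PLift (entF (fidx ts) 400 1550 n1550 = true) := ⟨by decide +kernel⟩

theorem g1550 : GoodF (fidx ts) 400 1550 := GoodF.ofV v1550 n1550 c1550.down b1550.down

/-- 566666:1260 -/
noncomputable def e1551 : SCfg where
  D := {
    a := 6
    L := 10
    kp := 9
    inn := [(0, 1), (0, 2), (0, 3), (0, 4), (0, 5), (1, 0), (1, 2), (1, 5), (2, 0), (2, 1), (2, 3), (3,
      0), (3, 2), (3, 4), (4, 0), (4, 3), (4, 5), (5, 0), (5, 1), (5, 4)]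
    mix := [(1, 0), (1, 1), (1, 2), (2, 2), (2, 3), (2, 4), (3, 4), (3, 5), (3, 6), (4, 6), (4, 7), (4,
      8), (5, 0), (5, 8), (5, 9)]
    cl := [0, 9, 4, 6, 3, 7, 1, 5, 2, 8]
    chq := [(0, 3), (0, 4), (0, 5), (0, 6), (3, 0), (3, 5), (4, 0), (5, 0), (5, 3), (5, 7), (5, 8), (6,
      0), (7, 5), (8, 5)]
    rng := [(0, 1), (0, 9), (1, 0), (1, 2), (2, 1), (2, 3), (3, 2), (3, 4), (4, 3), (4, 5), (5, 4), (5,
      6), (6, 5), (6, 7), (7, 6), (7, 8), (8, 7), (8, 9), (9, 0), (9, 8)]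
    lev := [] }
  links := [[1, 2, 3, 4, 5], [2, 0, 5, 6, 7, 8], [3, 0, 1, 8, 9, 10], [4, 0, 2, 10, 11, 12], [5, 0, 3,
    12, 13, 14], [6, 1, 0, 4, 14, 15]]
  P := {
    a := 6
    N := 16
    nb := [62, 485, 1803, 7189, 28713, 49235, 32930, 322, 646, 1284, 2572, 5128, 10264, 20496, 41008,
      16480]
    tri := [(0, 1, 2), (0, 1, 5), (0, 2, 3), (0, 3, 4), (0, 4, 5), (1, 2, 8), (1, 5, 6), (1, 6, 7), (1,
      7, 8), (2, 3, 10), (2, 8, 9), (2, 9, 10), (3, 4, 12), (3, 10, 11), (3, 11, 12), (4, 5, 14),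
      (4, 12, 13), (4, 13, 14), (5, 6, 15), (5, 14, 15)]
    fin := [0, 0, 0, 3, 3, 3, 0, 7, 8, 9, 10, 11, 12, 3, 14, 15]
    chd := [(0, 3), (0, 8), (0, 9), (0, 10), (3, 15), (10, 3), (11, 3)]
    steps := [(0, 1), (0, 2), (0, 6), (3, 4), (3, 5), (3, 13)] }
  rep := [0, 12, 14, 10, 8, 3, 9, 11, 15, 7]

noncomputable def v1551 : Cov.CovD where
  P := 3
  N := 7
  pl := [1, 6, 8]
  lev := [⟨[], [], [], [], []⟩,
    ⟨[], [(0, 0), (0, 4)], [(0, 4)], [9], [(0, 0, [3, 4, 5, 6]), (2, 4, [0])]⟩,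
    ⟨[(0, 1)], [(0, 3), (0, 4), (0, 6), (1, 0), (1, 3), (1, 4), (1, 6)], [(3, 4), (3, 6),
      (4, 6)], [], [(2, 4, [0]), (3, 6, [0]), (4, 3, [0, 5])]⟩,
    ⟨[(0, 1), (0, 2), (1, 2)], [(0, 3), (0, 7), (2, 3), (2, 4), (2, 6), (2, 7)], [(3, 7)],
      [1], [(4, 3, [0, 5]), (5, 7, [5])]⟩,
    ⟨[(0, 1), (0, 2), (0, 3), (2, 3)], [(0, 5), (3, 3), (3, 5), (3, 7)], [], [1, 2], [(7,
      5, [0, 3, 7, 8])]⟩,
    ⟨[(0, 1), (0, 2), (0, 3), (0, 4), (1, 2), (1, 4), (3, 4)], [(0, 0), (0, 8), (1, 0), (1,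
      4), (1, 8), (4, 0), (4, 5), (4, 8)], [(0, 8)], [2], [(0, 0, [3, 4, 5, 6]), (9, 8,
      [5])]⟩]
  Ta := []
  Tb := [((0, 1, 9), 0, 9, 8), ((1, 0, 2), 9, 0, 4), ((2, 1, 3), 4, 9, 6), ((3, 2, 4), 6, 4, 3),
    ((4, 3, 5), 3, 6, 7), ((5, 4, 6), 7, 3, 1), ((6, 5, 7), 1, 7, 5), ((7, 6, 8), 5, 1, 2),
    ((8, 7, 9), 2, 5, 8), ((9, 0, 8), 8, 0, 2)]
  Tc := [(0, 3, 4), (0, 3, 5), (0, 3, 6), (0, 4, 5), (0, 4, 6), (0, 5, 6), (3, 0, 5), (5, 0, 3),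
    (5, 0, 7), (5, 0, 8), (5, 3, 7), (5, 3, 8), (5, 7, 8)]
  Td := [((0, 3), (0, 1), 9), ((0, 3), (0, 9), 8), ((0, 4), (0, 1), 9), ((0, 4), (0, 9), 8), ((0,
    5), (0, 1), 9), ((0, 5), (0, 9), 8), ((0, 6), (0, 1), 9), ((0, 6), (0, 9), 8), ((3, 0),
    (4, 3), 6), ((3, 0), (4, 5), 7), ((3, 5), (4, 3), 6), ((3, 5), (4, 5), 7), ((4, 0), (2,
    1), 9), ((4, 0), (2, 3), 6), ((5, 0), (7, 6), 1), ((5, 0), (7, 8), 2), ((5, 3), (7, 6),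
    1), ((5, 3), (7, 8), 2), ((5, 7), (7, 6), 1), ((5, 7), (7, 8), 2), ((5, 8), (7, 6), 1),
    ((5, 8), (7, 8), 2), ((6, 0), (3, 2), 4), ((6, 0), (3, 4), 3), ((7, 5), (5, 4), 3), ((7,
    5), (5, 6), 1), ((8, 5), (9, 0), 0), ((8, 5), (9, 8), 2)]
  G := [[0x62a2a4e14c2a268e1c2a8c8e1ac, 0xc4212c448c4e184c8c8e18448c1ea,
    0x241241628122411e281c46824d9281241a46828ddc4c8c1c412fa, 0xc44114d181c8c8d1814818d1e2,
    0x281281181a1a138df211a1a899181a1a1a8d3e181181a84746]]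

noncomputable def n1551 : Ent := ⟨e1551, noF, [], [], []⟩

def c1551 : PLift (Cov.check n1551.C.D v1551 = true) := ⟨by decide +kernel⟩

def b1551 : PLift (entF (fidx ts) 400 1551 n1551 = true) := ⟨by decide +kernel⟩

theorem g1551 : GoodF (fidx ts) 400 1551 := GoodF.ofV v1551 n1551 c1551.down b1551.down

/-- 475465:1266/1 -/
noncomputable def e1552 : SCfg where
  D := {
    a := 6
    L := 10
    kp := 7
    inn := [(0, 1), (1, 0), (1, 2), (1, 3), (2, 1), (2, 4), (3, 1), (4, 2), (4, 5), (5, 4)]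
    mix := [(0, 0), (0, 1), (0, 2), (1, 0), (1, 2), (1, 3), (1, 4), (2, 2), (2, 3), (2, 5), (3, 3), (3,
      4), (3, 6), (4, 2), (4, 5), (4, 7), (4, 8), (5, 0), (5, 5), (5, 8), (5, 9)]
    cl := [1, 5, 0, 0, 2, 3, 4, 6, 3, 7]
    chq := [(0, 1), (1, 0), (1, 4), (4, 1)]
    rng := [(0, 1), (0, 4), (0, 8), (0, 9), (1, 0), (1, 2), (2, 1), (2, 7), (3, 5), (3, 6), (4, 0), (4,
      6), (5, 3), (5, 9), (6, 3), (6, 4), (7, 2), (7, 8), (8, 0), (8, 7), (9, 0), (9, 5)]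
    lev := [] }
  links := [[1, 6, 7, 8], [6, 0, 8, 2, 9, 3, 10], [9, 1, 8, 4, 11], [10, 1, 9, 12], [11, 2, 8, 13, 14,
    5], [11, 4, 14, 6, 15]]
  P := {
    a := 6
    N := 16
    nb := [450, 1869, 2834, 5634, 26916, 51280, 50339, 321, 8343, 6158, 4170, 33332, 1544, 16656,
      8304, 2144]
    tri := [(0, 1, 6), (0, 1, 8), (0, 6, 7), (0, 7, 8), (1, 2, 8), (1, 2, 9), (1, 3, 9), (1, 3, 10),
      (1, 6, 10), (2, 4, 8), (2, 4, 11), (2, 9, 11), (3, 9, 12), (3, 10, 12), (4, 5, 11), (4, 5,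
      14), (4, 8, 13), (4, 13, 14), (5, 6, 14), (5, 6, 15), (5, 11, 15)]
    fin := [0, 0, 2, 0, 2, 5, 0, 7, 2, 2, 10, 5, 12, 13, 5, 15]
    chd := [(0, 2), (0, 12)]
    steps := [(0, 1), (0, 3), (0, 6), (2, 4), (2, 8), (2, 9), (5, 14), (5, 11)] }
  rep := [2, 0, 10, 5, 12, 7, 13, 15]

noncomputable def v1552 : Cov.CovD where
  P := 3
  N := 5
  pl := [1, 4, 7, 9]
  lev := [⟨[], [], [(0, 1)], [5], [(0, 1, [0, 4]), (2, 0, [1])]⟩,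
    ⟨[], [(0, 0), (0, 1)], [(0, 0), (0, 1)], [2], [(0, 1, [0, 4]), (2, 0, [1]), (3, 0,
      [1])]⟩,
    ⟨[(0, 1)], [(0, 0), (1, 0), (1, 1), (1, 3)], [(0, 0), (0, 3)], [], [(2, 0, [1]), (3, 0,
      [1]), (5, 3, [])]⟩,
    ⟨[(0, 1), (1, 2)], [(1, 0), (1, 1), (1, 4), (2, 0)], [(0, 4)], [2], [(3, 0, [1]), (6,
      4, [1])]⟩,
    ⟨[(1, 2)], [(0, 0), (1, 0), (2, 0), (2, 3)], [(0, 3), (3, 3)], [6], [(2, 0, [1]), (5,
      3, []), (8, 3, [])]⟩,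
    ⟨[(2, 4)], [(0, 1), (1, 1), (2, 3), (4, 0), (4, 1), (4, 3)], [(1, 3), (3, 3)], [7],
      [(0, 1, [0, 4]), (5, 3, []), (8, 3, [])]⟩]
  Ta := [((2, 1), 0, 5), ((2, 7), 0, 6), ((3, 5), 0, 3), ((3, 6), 0, 4), ((5, 3), 3, 0), ((5, 9),
    3, 7), ((8, 0), 3, 1), ((8, 7), 3, 6)]
  Tb := [((0, 1, 4), 1, 5, 2), ((0, 1, 8), 1, 5, 3), ((0, 1, 9), 1, 5, 7), ((0, 4, 8), 1, 2, 3),
    ((0, 4, 9), 1, 2, 7), ((0, 8, 9), 1, 3, 7), ((1, 0, 2), 5, 1, 0), ((2, 1, 7), 0, 5, 6),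
    ((3, 5, 6), 0, 3, 4), ((4, 0, 6), 2, 1, 4), ((5, 3, 9), 3, 0, 7), ((6, 3, 4), 4, 0, 2),
    ((7, 2, 8), 6, 0, 3), ((8, 0, 7), 3, 1, 6), ((9, 0, 5), 7, 1, 3)]
  Tc := [(1, 0, 4)]
  Td := [((0, 1), (2, 1), 5), ((0, 1), (2, 7), 6), ((0, 1), (3, 5), 3), ((0, 1), (3, 6), 4), ((1,
    0), (0, 1), 5), ((1, 0), (0, 4), 2), ((1, 0), (0, 8), 3), ((1, 0), (0, 9), 7), ((1, 4),
    (0, 1), 5), ((1, 4), (0, 4), 2), ((1, 4), (0, 8), 3), ((1, 4), (0, 9), 7), ((4, 1), (6,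
    3), 0), ((4, 1), (6, 4), 2)]
  G := [[0, 0xc11a1168c11611a4a, 0x95de22895de224c, 0x95de12495de124c, 0x95de12895de228c], [0,
    0x111e148111e148c, 0x95de22495de228c, 0x95de12895de124c, 0x95de22895de128c], [0,
    0xc11a1168a11611c86, 0x95de2281, 0x95de95dec281, 0x95de2281], [0, 0xe1148111e148a,
    0x95de2241, 0x95de95dec241, 0x95de2281]]

noncomputable def n1552 : Ent := ⟨e1552, noF, [], [], []⟩

def c1552 : PLift (Cov.check n1552.C.D v1552 = true) := ⟨by decide +kernel⟩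

def b1552 : PLift (entF (fidx ts) 400 1552 n1552 = true) := ⟨by decide +kernel⟩

theorem g1552 : GoodF (fidx ts) 400 1552 := GoodF.ofV v1552 n1552 c1552.down b1552.down

/-- 475465:1266/4 -/
noncomputable def e1553 : SCfg where
  D := {
    a := 6
    L := 8
    kp := 5
    inn := [(0, 1), (1, 0), (1, 2), (1, 3), (2, 1), (2, 4), (3, 1), (4, 2), (4, 5), (5, 4)]
    mix := [(0, 0), (0, 1), (0, 2), (1, 0), (1, 2), (1, 3), (1, 4), (2, 2), (2, 3), (2, 5), (3, 3), (3,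
      4), (3, 6), (4, 1), (4, 2), (4, 5), (4, 7), (5, 4), (5, 5), (5, 6), (5, 7)]
    cl := [2, 4, 0, 3, 0, 1, 5, 1]
    chq := [(0, 3), (3, 0), (3, 4), (4, 3)]
    rng := [(0, 1), (0, 4), (1, 0), (1, 2), (1, 7), (2, 1), (3, 5), (3, 6), (4, 0), (4, 6), (4, 7), (5,
      3), (5, 6), (6, 3), (6, 4), (6, 5), (7, 1), (7, 4)]
    lev := [] }
  links := [[1, 6, 7, 8], [6, 0, 8, 2, 9, 3, 10], [9, 1, 8, 4, 11], [10, 1, 9, 12], [11, 2, 8, 7, 13, 5],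
    [11, 4, 13, 10, 12]]
  P := {
    a := 6
    N := 14
    nb := [450, 1869, 2834, 5634, 10660, 15376, 1155, 8529, 151, 6158, 12394, 4660, 3624, 1200]
    tri := [(0, 1, 6), (0, 1, 8), (0, 6, 7), (0, 7, 8), (1, 2, 8), (1, 2, 9), (1, 3, 9), (1, 3, 10),
      (1, 6, 10), (2, 4, 8), (2, 4, 11), (2, 9, 11), (3, 9, 12), (3, 10, 12), (4, 5, 11), (4, 5,
      13), (4, 7, 8), (4, 7, 13), (5, 10, 12), (5, 10, 13), (5, 11, 12)]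
    fin := [0, 1, 2, 1, 2, 5, 0, 2, 1, 9, 1, 5, 12, 5]
    chd := [(1, 9), (2, 9)]
    steps := [(0, 6), (1, 3), (1, 8), (1, 10), (2, 4), (2, 7), (5, 13), (5, 11)] }
  rep := [1, 5, 0, 9, 2, 12]

noncomputable def v1553 : Cov.CovD where
  P := 3
  N := 3
  pl := [0, 6]
  lev := [⟨[], [], [(0, 4)], [2], [(1, 4, [3]), (2, 0, [3])]⟩,
    ⟨[], [(0, 0), (0, 3), (0, 4)], [(0, 0), (0, 3)], [2], [(2, 0, [3]), (3, 3, [0, 4]), (4,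
      0, [3])]⟩,
    ⟨[(0, 1)], [(0, 0), (1, 0), (1, 1), (1, 3)], [(0, 1), (0, 3), (1, 3)], [], [(2, 0,
      [3]), (3, 3, [0, 4]), (5, 1, [])]⟩,
    ⟨[(0, 1), (1, 2)], [(1, 0), (1, 3), (2, 3)], [(0, 3)], [5], [(3, 3, [0, 4]), (4, 0,
      [3])]⟩,
    ⟨[(1, 2)], [(0, 0), (0, 4), (1, 0), (2, 0), (2, 1), (2, 3), (2, 4)], [(0, 1), (0, 4),
      (1, 1), (1, 4)], [], [(1, 4, [3]), (2, 0, [3]), (5, 1, []), (7, 1, [])]⟩,
    ⟨[(2, 4)], [(1, 0), (2, 1), (3, 0), (4, 0), (4, 1), (4, 4)], [(0, 1), (1, 1)], [5],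
      [(4, 0, [3]), (5, 1, []), (7, 1, [])]⟩]
  Ta := [((2, 1), 0, 4), ((4, 0), 0, 2), ((4, 6), 0, 5), ((4, 7), 0, 1), ((5, 3), 1, 3), ((5, 6),
    1, 5), ((7, 1), 1, 4), ((7, 4), 1, 0)]
  Tb := [((0, 1, 4), 2, 4, 0), ((1, 0, 2), 4, 2, 0), ((1, 0, 7), 4, 2, 1), ((1, 2, 7), 4, 0, 1),
    ((3, 5, 6), 3, 1, 5), ((4, 0, 6), 0, 2, 5), ((4, 0, 7), 0, 2, 1), ((4, 6, 7), 0, 5, 1),
    ((5, 3, 6), 1, 3, 5), ((6, 3, 4), 5, 3, 0), ((6, 3, 5), 5, 3, 1), ((6, 4, 5), 5, 0, 1),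
    ((7, 1, 4), 1, 4, 0)]
  Tc := [(3, 0, 4)]
  Td := [((0, 3), (2, 1), 4), ((0, 3), (4, 0), 2), ((0, 3), (4, 6), 5), ((0, 3), (4, 7), 1), ((3,
    0), (3, 5), 1), ((3, 0), (3, 6), 5), ((3, 4), (3, 5), 1), ((3, 4), (3, 6), 5), ((4, 3),
    (1, 0), 2), ((4, 3), (1, 2), 0), ((4, 3), (1, 7), 1)]
  G := [[0, 0, 0, 0x1848cac81c414843144c8c, 0x148438811ccc1888c54a2], [0, 0, 0, 0x1822414228c,
    0x182182c214228a], [0, 0, 0x412848988c44c88e1c2, 0x81c1a4845441c1684898c,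
    0x48816428141c8444a58a], [0, 0x8242c4424a6482862c1, 0xc8212c4218a, 0xc1224c4228c,
    0xc42c82c21]]

noncomputable def n1553 : Ent := ⟨e1553, noF, [], [], []⟩

def c1553 : PLift (Cov.check n1553.C.D v1553 = true) := ⟨by decide +kernel⟩

def b1553 : PLift (entF (fidx ts) 400 1553 n1553 = true) := ⟨by decide +kernel⟩

theorem g1553 : GoodF (fidx ts) 400 1553 := GoodF.ofV v1553 n1553 c1553.down b1553.down

/-- 475465:1266/3 -/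
noncomputable def e1554 : SCfg where
  D := {
    a := 6
    L := 9
    kp := 6
    inn := [(0, 1), (1, 0), (1, 2), (1, 3), (2, 1), (2, 4), (3, 1), (4, 2), (4, 5), (5, 4)]
    mix := [(0, 0), (0, 1), (0, 2), (1, 0), (1, 2), (1, 3), (1, 4), (2, 2), (2, 3), (2, 5), (3, 3), (3,
      4), (3, 6), (4, 1), (4, 2), (4, 5), (4, 7), (5, 4), (5, 5), (5, 7), (5, 8)]
    cl := [2, 4, 0, 1, 0, 3, 5, 3, 6]
    chq := [(0, 1), (1, 0), (1, 4), (4, 1)]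
    rng := [(0, 1), (0, 4), (1, 0), (1, 2), (1, 7), (2, 1), (3, 5), (3, 6), (4, 0), (4, 6), (4, 7), (4,
      8), (5, 3), (5, 8), (6, 3), (6, 4), (7, 1), (7, 4), (8, 4), (8, 5)]
    lev := [] }
  links := [[1, 6, 7, 8], [6, 0, 8, 2, 9, 3, 10], [9, 1, 8, 4, 11], [10, 1, 9, 12], [11, 2, 8, 7, 13, 5],
    [11, 4, 13, 10, 14]]
  P := {
    a := 6
    N := 15
    nb := [450, 1869, 2834, 5634, 10660, 27664, 1155, 8529, 151, 6158, 28778, 16948, 1544, 1200, 3104]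
    tri := [(0, 1, 6), (0, 1, 8), (0, 6, 7), (0, 7, 8), (1, 2, 8), (1, 2, 9), (1, 3, 9), (1, 3, 10),
      (1, 6, 10), (2, 4, 8), (2, 4, 11), (2, 9, 11), (3, 9, 12), (3, 10, 12), (4, 5, 11), (4, 5,
      13), (4, 7, 8), (4, 7, 13), (5, 10, 13), (5, 10, 14), (5, 11, 14)]
    fin := [0, 1, 2, 1, 2, 5, 0, 2, 1, 9, 1, 5, 12, 5, 14]
    chd := [(1, 9), (2, 9)]
    steps := [(0, 6), (1, 3), (1, 8), (1, 10), (2, 4), (2, 7), (5, 13), (5, 11)] }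
  rep := [1, 9, 0, 5, 2, 12, 14]

noncomputable def v1554 : Cov.CovD where
  P := 3
  N := 4
  pl := [0, 6, 8]
  lev := [⟨[], [], [(0, 4)], [2], [(1, 4, [1]), (2, 0, [1])]⟩,
    ⟨[], [(0, 0), (0, 1), (0, 4)], [(0, 0), (0, 1)], [2], [(2, 0, [1]), (3, 1, [0, 4]), (4,
      0, [1])]⟩,
    ⟨[(0, 1)], [(0, 0), (1, 0), (1, 1), (1, 3)], [(0, 1), (0, 3), (1, 3)], [], [(2, 0,
      [1]), (3, 1, [0, 4]), (5, 3, [])]⟩,
    ⟨[(0, 1), (1, 2)], [(1, 0), (1, 1), (2, 1)], [(0, 1)], [5], [(3, 1, [0, 4]), (4, 0,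
      [1])]⟩,
    ⟨[(1, 2)], [(0, 0), (0, 4), (1, 0), (2, 0), (2, 1), (2, 3), (2, 4)], [(0, 3), (0, 4),
      (3, 3), (3, 4)], [], [(1, 4, [1]), (2, 0, [1]), (5, 3, []), (7, 3, [])]⟩,
    ⟨[(2, 4)], [(1, 0), (2, 3), (3, 0), (4, 0), (4, 3), (4, 4)], [(0, 3), (3, 3)], [6],
      [(4, 0, [1]), (5, 3, []), (7, 3, [])]⟩]
  Ta := [((2, 1), 0, 4), ((4, 0), 0, 2), ((4, 6), 0, 5), ((4, 7), 0, 3), ((4, 8), 0, 6), ((5, 3),
    3, 1), ((5, 8), 3, 6), ((7, 1), 3, 4), ((7, 4), 3, 0)]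
  Tb := [((0, 1, 4), 2, 4, 0), ((1, 0, 2), 4, 2, 0), ((1, 0, 7), 4, 2, 3), ((1, 2, 7), 4, 0, 3),
    ((3, 5, 6), 1, 3, 5), ((4, 0, 6), 0, 2, 5), ((4, 0, 7), 0, 2, 3), ((4, 0, 8), 0, 2, 6),
    ((4, 6, 7), 0, 5, 3), ((4, 6, 8), 0, 5, 6), ((4, 7, 8), 0, 3, 6), ((5, 3, 8), 3, 1, 6),
    ((6, 3, 4), 5, 1, 0), ((7, 1, 4), 3, 4, 0), ((8, 4, 5), 6, 0, 3)]
  Tc := [(1, 0, 4)]
  Td := [((0, 1), (2, 1), 4), ((0, 1), (4, 0), 2), ((0, 1), (4, 6), 5), ((0, 1), (4, 7), 3), ((0,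
    1), (4, 8), 6), ((1, 0), (3, 5), 3), ((1, 0), (3, 6), 5), ((1, 4), (3, 5), 3), ((1, 4),
    (3, 6), 5), ((4, 1), (1, 0), 2), ((4, 1), (1, 2), 0), ((4, 1), (1, 7), 3)]
  G := [[0, 0x11c11c611a11a6681, 0, 0xc6a144ca6188c, 0xc26e1a8168ca6188a], [0, 0x111e111ea241,
    0, 0x1212c841212c48c, 0x121211ce482], [0, 0x18e1661468e1e1688c, 0xa1e1c6186664d42,
    0xe144e184ce14ca6898c, 0xa14e161caaa8d82], [0, 0x111e111ea841, 0xe1e1c482, 0xe2e2c481,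
    0x22ee22eec481]]

noncomputable def n1554 : Ent := ⟨e1554, noF, [], [], [(14, 12, [81623781614101222371308947630499991391842216896340256952321, 0])]⟩

def c1554 : PLift (Cov.check n1554.C.D v1554 = true) := ⟨by decide +kernel⟩

def b1554 : PLift (entF (fidx ts) 400 1554 n1554 = true) := ⟨by decide +kernel⟩

theorem g1554 : GoodF (fidx ts) 400 1554 := GoodF.ofV v1554 n1554 c1554.down b1554.down

/-- 475465:1266/5 -/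
noncomputable def e1555 : SCfg where
  D := {
    a := 6
    L := 9
    kp := 6
    inn := [(0, 1), (1, 0), (1, 2), (1, 3), (2, 1), (2, 4), (3, 1), (4, 2), (4, 5), (5, 4)]
    mix := [(0, 0), (0, 1), (0, 2), (1, 0), (1, 2), (1, 3), (1, 4), (2, 2), (2, 3), (2, 5), (3, 3), (3,
      4), (3, 6), (4, 1), (4, 2), (4, 5), (4, 7), (5, 5), (5, 6), (5, 7), (5, 8)]
    cl := [3, 2, 0, 0, 4, 1, 5, 1, 6]
    chq := [(0, 3), (0, 4), (3, 0), (4, 0)]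
    rng := [(0, 1), (0, 4), (1, 0), (1, 2), (1, 7), (2, 1), (3, 5), (3, 6), (4, 0), (4, 6), (5, 3), (5,
      6), (6, 3), (6, 4), (6, 5), (6, 8), (7, 1), (7, 8), (8, 6), (8, 7)]
    lev := [] }
  links := [[1, 6, 7, 8], [6, 0, 8, 2, 9, 3, 10], [9, 1, 8, 4, 11], [10, 1, 9, 12], [11, 2, 8, 7, 13, 5],
    [11, 4, 13, 14, 12]]
  P := {
    a := 6
    N := 15
    nb := [450, 1869, 2834, 5634, 10660, 30736, 1155, 8529, 151, 6158, 4170, 4660, 20008, 16560,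
      12320]
    tri := [(0, 1, 6), (0, 1, 8), (0, 6, 7), (0, 7, 8), (1, 2, 8), (1, 2, 9), (1, 3, 9), (1, 3, 10),
      (1, 6, 10), (2, 4, 8), (2, 4, 11), (2, 9, 11), (3, 9, 12), (3, 10, 12), (4, 5, 11), (4, 5,
      13), (4, 7, 8), (4, 7, 13), (5, 11, 12), (5, 12, 14), (5, 13, 14)]
    fin := [0, 1, 2, 1, 2, 5, 0, 2, 1, 1, 10, 5, 12, 5, 14]
    chd := [(0, 1), (1, 10)]
    steps := [(0, 6), (1, 3), (1, 8), (1, 9), (2, 4), (2, 7), (5, 13), (5, 11)] }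
  rep := [1, 5, 2, 0, 10, 12, 14]

noncomputable def v1555 : Cov.CovD where
  P := 3
  N := 4
  pl := [1, 6, 8]
  lev := [⟨[], [], [(0, 3)], [2], [(0, 3, [0]), (2, 0, [3, 4])]⟩,
    ⟨[], [(0, 0), (0, 3), (0, 4)], [(0, 0), (0, 3), (0, 4), (3, 4)], [], [(0, 3, [0]), (2,
      0, [3, 4]), (3, 0, [3, 4]), (4, 4, [0])]⟩,
    ⟨[(0, 1)], [(0, 0), (1, 0), (1, 1), (1, 3), (1, 4)], [(0, 0), (0, 1)], [], [(2, 0, [3,
      4]), (3, 0, [3, 4]), (5, 1, [])]⟩,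
    ⟨[(0, 1), (1, 2)], [(1, 0), (1, 3), (1, 4), (2, 0)], [(0, 4)], [5], [(3, 0, [3, 4]),
      (4, 4, [0])]⟩,
    ⟨[(1, 2)], [(0, 0), (1, 0), (2, 0), (2, 1)], [(0, 1), (1, 1)], [2], [(2, 0, [3, 4]),
      (5, 1, []), (7, 1, [])]⟩,
    ⟨[(2, 4)], [(2, 1), (4, 0), (4, 1)], [(1, 1)], [5, 6], [(5, 1, []), (7, 1, [])]⟩]
  Ta := [((2, 1), 0, 2), ((3, 5), 0, 1), ((3, 6), 0, 5), ((5, 3), 1, 0), ((5, 6), 1, 5), ((7, 1),
    1, 2), ((7, 8), 1, 6)]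
  Tb := [((0, 1, 4), 3, 2, 4), ((1, 0, 2), 2, 3, 0), ((1, 0, 7), 2, 3, 1), ((1, 2, 7), 2, 0, 1),
    ((3, 5, 6), 0, 1, 5), ((4, 0, 6), 4, 3, 5), ((5, 3, 6), 1, 0, 5), ((6, 3, 4), 5, 0, 4),
    ((6, 3, 5), 5, 0, 1), ((6, 3, 8), 5, 0, 6), ((6, 4, 5), 5, 4, 1), ((6, 4, 8), 5, 4, 6),
    ((6, 5, 8), 5, 1, 6), ((7, 1, 8), 1, 2, 6), ((8, 6, 7), 6, 5, 1)]
  Tc := [(0, 3, 4)]
  Td := [((0, 3), (2, 1), 2), ((0, 3), (3, 5), 1), ((0, 3), (3, 6), 5), ((0, 4), (2, 1), 2), ((0,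
    4), (3, 5), 1), ((0, 4), (3, 6), 5), ((3, 0), (0, 1), 2), ((3, 0), (0, 4), 4), ((4, 0),
    (4, 0), 3), ((4, 0), (4, 6), 5)]
  G := [[0, 0, 0xd8148d4184d4182e, 0, 0xc898d874d814c584988cd8146a], [0, 0, 0xd8128d4124d8142e,
    0xd41258c28ad812d8246c, 0xd812d824cd8149858d8d46a], [0, 0xe86868e4a4e4a4e2c448ce4e8e1, 0,
    0, 0x58985458d854a9858a45849898acc8d8a4e9], [0, 0, 0, 0x945898d82469854c25448d428e5,
    0xd822818958c258918c985898e2d8246b]]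

noncomputable def n1555 : Ent := ⟨e1555, noF, [], [], [(14, 10, [81620716623384866002924956665996611981654050173009872883713, 0])]⟩

def c1555 : PLift (Cov.check n1555.C.D v1555 = true) := ⟨by decide +kernel⟩

def b1555 : PLift (entF (fidx ts) 400 1555 n1555 = true) := ⟨by decide +kernel⟩

theorem g1555 : GoodF (fidx ts) 400 1555 := GoodF.ofV v1555 n1555 c1555.down b1555.down

/-- 475465:1266/2 -/
noncomputable def e1556 : SCfg where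
  D := {
    a := 6
    L := 10
    kp := 7
    inn := [(0, 1), (1, 0), (1, 2), (1, 3), (2, 1), (2, 4), (3, 1), (4, 2), (4, 5), (5, 4)]
    mix := [(0, 0), (0, 1), (0, 2), (1, 0), (1, 2), (1, 3), (1, 4), (2, 2), (2, 3), (2, 5), (3, 3), (3,
      4), (3, 6), (4, 1), (4, 2), (4, 5), (4, 7), (5, 5), (5, 7), (5, 8), (5, 9)]
    cl := [1, 2, 0, 0, 4, 3, 5, 3, 6, 7]
    chq := [(0, 1), (0, 4), (1, 0), (4, 0)]
    rng := [(0, 1), (0, 4), (1, 0), (1, 2), (1, 7), (2, 1), (3, 5), (3, 6), (4, 0), (4, 6), (5, 3), (5,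
      9), (6, 3), (6, 4), (7, 1), (7, 8), (8, 7), (8, 9), (9, 5), (9, 8)]
    lev := [] }
  links := [[1, 6, 7, 8], [6, 0, 8, 2, 9, 3, 10], [9, 1, 8, 4, 11], [10, 1, 9, 12], [11, 2, 8, 7, 13, 5],
    [11, 4, 13, 14, 15]]
  P := {
    a := 6
    N := 16
    nb := [450, 1869, 2834, 5634, 10660, 59408, 1155, 8529, 151, 6158, 4170, 33332, 1544, 16560,
      40992, 18464]
    tri := [(0, 1, 6), (0, 1, 8), (0, 6, 7), (0, 7, 8), (1, 2, 8), (1, 2, 9), (1, 3, 9), (1, 3, 10),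
      (1, 6, 10), (2, 4, 8), (2, 4, 11), (2, 9, 11), (3, 9, 12), (3, 10, 12), (4, 5, 11), (4, 5,
      13), (4, 7, 8), (4, 7, 13), (5, 11, 15), (5, 13, 14), (5, 14, 15)]
    fin := [0, 1, 2, 1, 2, 5, 0, 2, 1, 1, 10, 5, 12, 5, 14, 15]
    chd := [(0, 1), (1, 10)]
    steps := [(0, 6), (1, 3), (1, 8), (1, 9), (2, 4), (2, 7), (5, 13), (5, 11)] }
  rep := [1, 0, 2, 5, 10, 12, 14, 15]

noncomputable def v1556 : Cov.CovD where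
  P := 3
  N := 5
  pl := [1, 6, 8, 9]
  lev := [⟨[], [], [(0, 1)], [2], [(0, 1, [0]), (2, 0, [1, 4])]⟩,
    ⟨[], [(0, 0), (0, 1), (0, 4)], [(0, 0), (0, 1), (0, 4), (1, 4)], [], [(0, 1, [0]), (2,
      0, [1, 4]), (3, 0, [1, 4]), (4, 4, [0])]⟩,
    ⟨[(0, 1)], [(0, 0), (1, 0), (1, 1), (1, 3), (1, 4)], [(0, 0), (0, 3)], [], [(2, 0, [1,
      4]), (3, 0, [1, 4]), (5, 3, [])]⟩,
    ⟨[(0, 1), (1, 2)], [(1, 0), (1, 1), (1, 4), (2, 0)], [(0, 4)], [5], [(3, 0, [1, 4]),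
      (4, 4, [0])]⟩,
    ⟨[(1, 2)], [(0, 0), (1, 0), (2, 0), (2, 3)], [(0, 3), (3, 3)], [2], [(2, 0, [1, 4]),
      (5, 3, []), (7, 3, [])]⟩,
    ⟨[(2, 4)], [(2, 3), (4, 0), (4, 3)], [(3, 3)], [6, 7], [(5, 3, []), (7, 3, [])]⟩]
  Ta := [((2, 1), 0, 2), ((3, 5), 0, 3), ((3, 6), 0, 5), ((5, 3), 3, 0), ((5, 9), 3, 7), ((7, 1),
    3, 2), ((7, 8), 3, 6)]
  Tb := [((0, 1, 4), 1, 2, 4), ((1, 0, 2), 2, 1, 0), ((1, 0, 7), 2, 1, 3), ((1, 2, 7), 2, 0, 3),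
    ((3, 5, 6), 0, 3, 5), ((4, 0, 6), 4, 1, 5), ((5, 3, 9), 3, 0, 7), ((6, 3, 4), 5, 0, 4),
    ((7, 1, 8), 3, 2, 6), ((8, 7, 9), 6, 3, 7), ((9, 5, 8), 7, 3, 6)]
  Tc := [(0, 1, 4)]
  Td := [((0, 1), (2, 1), 2), ((0, 1), (3, 5), 3), ((0, 1), (3, 6), 5), ((0, 4), (2, 1), 2), ((0,
    4), (3, 5), 3), ((0, 4), (3, 6), 5), ((1, 0), (0, 1), 2), ((1, 0), (0, 4), 4), ((4, 0),
    (4, 0), 1), ((4, 0), (4, 6), 5)]
  G := [[0, 0x15ad1211ed1264, 0xc3c12da16b21d7a1cc8, 0xb7cb7ca2b7c12c4,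
    0x11eb72d7a74d8d2a35216c8], [0, 0x11ed1415ad18a4, 0xd7a14b7c12c8, 0xb7c12742b7cb86ac8,
    0xd7a1417a726c8d86ac8], [0, 0x11ed12b7c1268, 0, 0xb7c22b52db52d62c972d828c,
    0x814214a4d7ad7aa4784d7a2d24ec9], [0, 0x15ad12b7c12c8, 0, 0x11ed48411ed11eda215ad28cc,
    0x916b11eb624d7ad7aa489]]

noncomputable def n1556 : Ent := ⟨e1556, noF, [], [], [(14, 10, [385746751338781050996073827118545021217310372558043290361995265, 0]), (15, 12, [360035747228123463809659675990397950106674496442981057564848129, 0])]⟩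

def c1556 : PLift (Cov.check n1556.C.D v1556 = true) := ⟨by decide +kernel⟩

def b1556 : PLift (entF (fidx ts) 400 1556 n1556 = true) := ⟨by decide +kernel⟩

theorem g1556 : GoodF (fidx ts) 400 1556 := GoodF.ofV v1556 n1556 c1556.down b1556.down

/-- The entries 1412 to 1556. -/
theorem rE9 : Rng (GoodF (fidx ts) 400) 1412 1557 :=
  ((((((((((((((((((((((((((((((((((((((((((((((((((((((((((((((((((((((((((((((((((((((((((((((((((((((((((((((((((((((((((((((((((((((((((((((((((Rng.nil _ 1412).snoc g1412 rfl).snoc g1413 rfl).snoc g1414 rfl).snoc g1415 rfl).snoc g1416 rfl).snoc g1417 rfl).snoc g1418 rfl).snoc g1419 rfl).snoc g1420 rfl).snoc g1421 rfl).snoc g1422 rfl).snoc g1423 rfl).snoc g1424 rfl).snoc g1425 rfl).snoc g1426 rfl).snoc g1427 rfl).snoc g1428 rfl).snoc g1429 rfl).snoc g1430 rfl).snoc g1431 rfl).snoc g1432 rfl).snoc g1433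 rfl).snoc g1434 rfl).snoc g1435 rfl).snoc g1436 rfl).snoc g1437 rfl).snoc g1438 rfl).snoc g1439 rfl).snoc g1440 rfl).snoc g1441 rfl).snoc g1442 rfl).snoc g1443 rfl).snoc g1444 rfl).snoc g1445 rfl).snoc g1446 rfl).snoc g1447 rfl).snoc g1448 rfl).snoc g1449 rfl).snoc g1450 rfl).snoc g1451 rfl).snoc g1452 rfl).snoc g1453 rfl).snoc g1454 rfl).snoc g1455 rfl).snoc g1456 rfl).snoc g1457 rfl).snoc g1458 rfl).snoc g1459 rfl).snoc g1460 rfl).snoc g1461 rfl).snoc g1462 rfl).snoc g1463 rfl).snoc g1464 rfl).snoc g1465 rfl).snoc g1466 rfl).snoc g1467 rfl).snoc g1468 rfl).snoc g1469 rfl).snoc g1470 rfl).snoc g1471 rfl).snoc g1472 rfl).snoc g1473 rfl).snoc g1474 rfl).snoc g1475 rfl).snoc g1476 rfl).snoc g1477 rfl).snoc g1478 rfl).snoc g1479 rfl).snoc g1480 rfl).snoc g1481 rfl).snoc g1482 rfl).snoc g1483 rfl).snoc g1484 rfl).snoc g1485 rfl).snoc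 g1486 rfl).snoc g1487 rfl).snoc g1488 rfl).snoc g1489 rfl).snoc g1490 rfl).snoc g1491 rfl).snoc g1492 rfl).snoc g1493 rfl).snoc g1494 rfl).snoc g1495 rfl).snoc g1496 rfl).snoc g1497 rfl).snoc g1498 rfl).snoc g1499 rfl).snoc g1500 rfl).snoc g1501 rfl).snoc g1502 rfl).snoc g1503 rfl).snoc g1504 rfl).snoc g1505 rfl).snoc g1506 rfl).snoc g1507 rfl).snoc g1508 rfl).snoc g1509 rfl).snoc g1510 rfl).snoc g1511 rfl).snoc g1512 rfl).snoc g1513 rfl).snoc g1514 rfl).snoc g1515 rfl).snoc g1516 rfl).snoc g1517 rfl).snoc g1518 rfl).snoc g1519 rfl).snoc g1520 rfl).snoc g1521 rfl).snoc g1522 rfl).snoc g1523 rfl).snoc g1524 rfl).snoc g1525 rfl).snoc g1526 rfl).snoc g1527 rfl).snoc g1528 rfl).snoc g1529 rfl).snoc g1530 rfl).snoc g1531 rfl).snoc g1532 rfl).snoc g1533 rfl).snoc g1534 rfl).snoc g1535 rfl).snoc g1536 rfl).snoc g1537 rfl).snoc g1538 rfl).snoc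 g1539 rfl).snoc g1540 rfl).snoc g1541 rfl).snoc g1542 rfl).snoc g1543 rfl).snoc g1544 rfl).snoc g1545 rfl).snoc g1546 rfl).snoc g1547 rfl).snoc g1548 rfl).snoc g1549 rfl).snoc g1550 rfl).snoc g1551 rfl).snoc g1552 rfl).snoc g1553 rfl).snoc g1554 rfl).snoc g1555 rfl).snoc g1556 rfl)

end Pool.Agent.W986.ST.Dat
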